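import Pool.Agent.TTT.Sym

set_option autoImplicit false
set_option maxRecDepth 100000

namespace Pool.Agent.TTT.B07

def s15_170_1 : T TT 256 :=
  (.q k4 [(.s k55 k38 4 (.s k149 k213 7 (.s k102 k196 12 (.s k119 k68 4 (.d k247 k183 k166 7
  12))))), (.s k12 k8 1 (.s k38 k55 4 (.s k25 k51 6 (.s k29 k17 1 (.d k63 k46 k42 4 6))))), (.s k12
  k8 1 (.s k63 k42 6 (.s k46 k29 4 (.s k149 k213 7 (.s k106 k192 14 (.d k166 k226 k247 9 12))))))]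
  .n)

def s15_170_2 : T TT 256 :=
  (.q k86 [(.s k87 k84 0 (.s k149 k213 7 (.s k23 k212 8 (.s k215 k151 7 (.d k20 k22 k150 0 8))))),
  (.s k63 k42 6 (.s k84 k87 0 (.s k252 k168 13 (.s k126 k189 8 (.s k106 k66 5 (.s k64 k127 6 (.d
  k192 k128 k149 7 14))))))), (.s k63 k42 6 (.s k149 k213 7 (.s k23 k212 8 (.s k3 k43 5 (.s k106
  k192 14 (.s k126 k66 5 (.d k252 k189 k169 8 14)))))))] (.c k22 (.l (.s k84 k87 0 (.s k149 k213 7
  (.s k212 k23 8 (.s k252 k168 13 (.s k192 k232 5 (.d k63 k42 k106 6 14))))))) (.c k149 (.f k42 k63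
  6 (.f k84 k87 0 (.f k252 k168 13 (.l (.s k169 k3 14 (.s k1 k253 13 (.s k41 k61 5 (.s k105 k233 7
  (.s k124 k67 6 (.s k60 k188 7 (.d k40 k43 k20 0 5))))))))))) .n)))

def s15_170_3 : T TT 256 :=
  (.f k149 k213 7 (.q k51 [(.s k17 k34 4 (.s k25 k29 1 (.s k12 k38 6 (.s k8 k4 1 (.d k42 k59 k63 4
  6))))), (.s k17 k34 4 (.s k29 k25 1 (.s k89 k209 9 (.s k93 k81 1 (.d k221 k157 k153 7 9))))), (.s
  k63 k42 6 (.s k55 k59 1 (.s k102 k196 12 (.s k68 k119 4 (.d k204 k136 k153 9 14)))))] (.c k7 (.q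
  k11 [(.s k17 k34 4 (.s k29 k25 1 (.s k89 k209 9 (.s k93 k81 1 (.d k221 k157 k153 7 9))))), (.s k63
  k42 6 (.s k55 k59 1 (.s k102 k196 12 (.s k68 k119 4 (.d k204 k136 k153 9 14))))), (.s k34 k17 4
  (.s k42 k63 6 (.s k38 k46 1 (.s k4 k55 4 (.d k12 k8 k25 1 6)))))] (.c k25 (.l (.s k17 k34 4 (.s
  k63 k42 6 (.s k59 k55 1 (.s k106 k192 14 (.d k153 k221 k200 9 12)))))) .n)) (.c k11 (.q k7 [(.s
  k17 k34 4 (.s k25 k29 1 (.s k12 k38 6 (.s k8 k4 1 (.d k42 k59 k63 4 6))))), (.s k17 k34 4 (.s k29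
  k25 1 (.s k89 k209 9 (.s k93 k81 1 (.d k221 k157 k153 7 9))))), (.s k63 k42 6 (.s k55 k59 1 (.s
  k102 k196 12 (.s k68 k119 4 (.d k204 k136 k153 9 14)))))] (.c k25 (.l (.s k17 k34 4 (.s k63 k42 6
  (.s k59 k55 1 (.s k106 k192 14 (.d k153 k221 k200 9 12)))))) (.c k102 (.l (.s k34 k17 4 (.s k42
  k63 6 (.s k38 k46 1 (.s k4 k55 4 (.d k12 k8 k25 1 6)))))) .n))) (.c k25 (.l (.s k17 k34 4 (.s k63
  k42 6 (.s k59 k55 1 (.s k106 k192 14 (.d k153 k221 k200 9 12)))))) (.c k102 (.l (.s k34 k17 4 (.s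
  k42 k63 6 (.s k38 k46 1 (.s k4 k55 4 (.d k12 k8 k25 1 6)))))) .n))))))

def s15_170_4 : T TT 256 :=
  (.q k1 [(.s k61 k41 5 (.s k149 k213 7 (.s k105 k193 13 (.s k125 k65 5 (.d k253 k189 k169 7
  13))))), (.s k3 k2 0 (.s k41 k61 5 (.s k22 k60 6 (.s k23 k20 0 (.d k63 k43 k42 5 6))))), (.s k3 k2
  0 (.s k63 k42 6 (.s k43 k23 5 (.s k149 k213 7 (.s k106 k192 14 (.d k169 k232 k253 8 13))))))] .n)

def s15_170_5 : T TT 256 :=
  (.q k1 [(.s k61 k41 5 (.s k149 k213 7 (.s k105 k193 13 (.s k125 k65 5 (.d k253 k189 k169 7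
  13))))), (.s k3 k2 0 (.s k41 k61 5 (.s k22 k60 6 (.s k23 k20 0 (.d k63 k43 k42 5 6))))), (.s k3 k2
  0 (.s k63 k42 6 (.s k43 k23 5 (.s k149 k213 7 (.s k106 k192 14 (.d k169 k232 k253 8 13))))))] .n)

def s15_170_6 : T TT 256 :=
  (.q k1 [(.s k61 k41 5 (.s k149 k213 7 (.s k105 k193 13 (.s k125 k65 5 (.d k253 k189 k169 7
  13))))), (.s k3 k2 0 (.s k41 k61 5 (.s k22 k60 6 (.s k23 k20 0 (.d k63 k43 k42 5 6))))), (.s k3 k2
  0 (.s k63 k42 6 (.s k43 k23 5 (.s k149 k213 7 (.s k106 k192 14 (.d k169 k232 k253 8 13))))))] .n)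

def s15_170_7 : T TT 256 :=
  (.q k3 [(.s k2 k1 0 (.s k42 k63 6 (.s k22 k62 5 (.s k60 k41 6 (.d k20 k23 k40 0 5))))), (.s k1 k2
  0 (.s k61 k41 5 (.s k149 k213 7 (.s k105 k193 13 (.s k125 k65 5 (.d k253 k189 k169 7 13)))))), (.s
  k63 k42 6 (.s k23 k43 5 (.s k149 k213 7 (.s k86 k212 8 (.s k84 k87 0 (.d k252 k168 k169 13
  14))))))] (.c k41 (.l (.s k1 k2 0 (.s k63 k42 6 (.s k43 k23 5 (.s k149 k213 7 (.s k106 k192 14 (.d
  k169 k232 k253 8 13))))))) .n))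

def s15_170_8 : T TT 256 :=
  (.f k149 k213 7 (.q k89 [(.s k29 k209 9 (.s k93 k81 1 (.s k221 k157 7 (.d k17 k25 k153 1 9)))),
  (.s k63 k42 6 (.s k81 k93 1 (.s k106 k192 14 (.s k123 k72 4 (.d k243 k183 k162 9 12))))), (.s k29
  k209 9 (.s k63 k42 6 (.s k12 k46 4 (.s k106 k192 14 (.s k123 k72 4 (.d k243 k183 k166 9 14))))))]
  (.c k25 (.l (.s k81 k93 1 (.s k209 k29 9 (.s k243 k162 12 (.s k192 k226 4 (.d k63 k42 k106 6
  14)))))) .n)))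

def s15_170_9 : T TT 256 :=
  (.q k1 [(.s k61 k41 5 (.s k149 k213 7 (.s k105 k193 13 (.s k125 k65 5 (.d k253 k189 k169 7
  13))))), (.s k3 k2 0 (.s k41 k61 5 (.s k22 k60 6 (.s k23 k20 0 (.d k63 k43 k42 5 6))))), (.s k3 k2
  0 (.s k63 k42 6 (.s k43 k23 5 (.s k149 k213 7 (.s k106 k192 14 (.d k169 k232 k253 8 13))))))] .n)

def s15_170_10 : T TT 256 :=
  (.f k149 k213 7 (.q k90 [(.s k31 k208 10 (.s k95 k80 2 (.s k223 k159 7 (.d k16 k26 k154 2 10)))),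
  (.s k63 k42 6 (.s k80 k95 2 (.s k106 k192 14 (.s k240 k160 11 (.d k122 k74 k181 3 10))))), (.s k31
  k208 10 (.s k16 k26 2 (.s k48 k32 3 (.s k63 k42 6 (.s k58 k53 2 (.s k106 k192 14 (.d k154 k223
  k202 10 11)))))))] (.c k26 (.l (.s k80 k95 2 (.s k208 k31 10 (.s k240 k160 11 (.s k192 k224 3 (.d
  k63 k42 k106 6 14)))))) .n)))

def s15_170_11 : T TT 256 :=
  (.q k3 [(.s k2 k1 0 (.s k42 k63 6 (.s k22 k62 5 (.s k20 k23 0 (.d k60 k40 k41 5 6))))), (.s k1 k2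
  0 (.s k61 k41 5 (.s k149 k213 7 (.s k105 k193 13 (.s k125 k65 5 (.d k253 k189 k169 7 13)))))), (.s
  k63 k42 6 (.s k23 k43 5 (.s k149 k213 7 (.s k86 k212 8 (.s k84 k87 0 (.d k252 k168 k169 13
  14))))))] (.c k41 (.l (.s k1 k2 0 (.s k63 k42 6 (.s k43 k23 5 (.s k149 k213 7 (.s k106 k192 14 (.d
  k169 k232 k253 8 13))))))) .n))

def s15_170_12 : T TT 256 :=
  (.f k149 k213 7 (.q k119 [(.s k102 k68 4 (.s k55 k196 12 (.s k247 k183 7 (.d k4 k38 k166 4 12)))),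
  (.s k63 k42 6 (.s k102 k68 4 (.s k106 k192 14 (.s k110 k98 1 (.s k127 k64 6 (.s k76 k93 4 (.d k115
  k123 k89 1 6))))))), (.s k63 k42 6 (.s k106 k192 14 (.s k127 k64 6 (.s k123 k115 1 (.s k183 k243 9
  (.s k247 k55 7 (.d k166 k132 k4 4 12)))))))] (.c k13 (.q k14 [(.s k102 k68 4 (.s k55 k196 12 (.s
  k247 k183 7 (.d k4 k38 k166 4 12)))), (.s k63 k42 6 (.s k102 k68 4 (.s k106 k192 14 (.s k110 k98 1
  (.s k127 k64 6 (.s k76 k93 4 (.d k115 k123 k89 1 6))))))), (.s k63 k42 6 (.s k106 k192 14 (.s k127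
  k64 6 (.s k123 k115 1 (.s k183 k243 9 (.s k247 k55 7 (.d k166 k132 k4 4 12)))))))] (.c k132 (.l
  (.s k102 k68 4 (.s k55 k196 12 (.s k4 k38 4 (.d k247 k183 k166 7 12))))) .n)) (.c k14 (.q k13 [(.s
  k102 k68 4 (.s k55 k196 12 (.s k247 k183 7 (.d k4 k38 k166 4 12)))), (.s k63 k42 6 (.s k102 k68 4
  (.s k106 k192 14 (.s k110 k98 1 (.s k127 k64 6 (.s k76 k93 4 (.d k115 k123 k89 1 6))))))), (.s k63
  k42 6 (.s k106 k192 14 (.s k127 k64 6 (.s k123 k115 1 (.s k183 k243 9 (.s k247 k55 7 (.d k166 k132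
  k4 4 12)))))))] (.c k132 (.l (.s k102 k68 4 (.s k55 k196 12 (.s k4 k38 4 (.d k247 k183 k166 7
  12))))) .n)) (.c k132 (.l (.s k102 k68 4 (.s k55 k196 12 (.s k4 k38 4 (.d k247 k183 k166 7 12)))))
  .n)))))

def s15_170_13 : T TT 256 :=
  (.q k12 [(.s k8 k4 1 (.s k42 k63 6 (.s k25 k59 4 (.s k51 k38 6 (.d k17 k29 k34 1 4))))), (.s k4 k8
  1 (.s k55 k38 4 (.s k149 k213 7 (.s k102 k196 12 (.s k119 k68 4 (.d k247 k183 k166 7 12)))))), (.s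
  k63 k42 6 (.s k29 k46 4 (.s k149 k213 7 (.s k89 k209 9 (.s k81 k93 1 (.d k243 k162 k166 12
  14))))))] (.c k38 (.l (.s k4 k8 1 (.s k63 k42 6 (.s k46 k29 4 (.s k149 k213 7 (.s k106 k192 14 (.d
  k166 k226 k247 9 12))))))) .n))

def s15_170_14 : T TT 256 :=
  (.q k12 [(.s k8 k4 1 (.s k42 k63 6 (.s k25 k59 4 (.s k17 k29 1 (.d k51 k34 k38 4 6))))), (.s k4 k8
  1 (.s k55 k38 4 (.s k149 k213 7 (.s k102 k196 12 (.s k119 k68 4 (.d k247 k183 k166 7 12)))))), (.s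
  k63 k42 6 (.s k29 k46 4 (.s k149 k213 7 (.s k89 k209 9 (.s k81 k93 1 (.d k243 k162 k166 12
  14))))))] (.c k38 (.l (.s k4 k8 1 (.s k63 k42 6 (.s k46 k29 4 (.s k149 k213 7 (.s k106 k192 14 (.d
  k166 k226 k247 9 12))))))) .n))

def s15_170_16 : T TT 256 :=
  (.q k1 [(.s k61 k41 5 (.s k149 k213 7 (.s k105 k193 13 (.s k125 k65 5 (.d k253 k189 k169 7
  13))))), (.s k3 k2 0 (.s k41 k61 5 (.s k22 k60 6 (.s k23 k20 0 (.d k63 k43 k42 5 6))))), (.s k3 k2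
  0 (.s k63 k42 6 (.s k43 k23 5 (.s k149 k213 7 (.s k106 k192 14 (.d k169 k232 k253 8 13))))))] .n)

def s15_170_17 : T TT 256 :=
  (.q k1 [(.s k61 k41 5 (.s k149 k213 7 (.s k105 k193 13 (.s k125 k65 5 (.d k253 k189 k169 7
  13))))), (.s k3 k2 0 (.s k41 k61 5 (.s k22 k60 6 (.s k23 k20 0 (.d k63 k43 k42 5 6))))), (.s k3 k2
  0 (.s k63 k42 6 (.s k43 k23 5 (.s k149 k213 7 (.s k106 k192 14 (.d k169 k232 k253 8 13))))))] .n)

def s15_170_18 : T TT 256 :=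
  (.q k1 [(.s k61 k41 5 (.s k149 k213 7 (.s k105 k193 13 (.s k125 k65 5 (.d k253 k189 k169 7
  13))))), (.s k3 k2 0 (.s k41 k61 5 (.s k22 k60 6 (.s k23 k20 0 (.d k63 k43 k42 5 6))))), (.s k3 k2
  0 (.s k63 k42 6 (.s k43 k23 5 (.s k149 k213 7 (.s k106 k192 14 (.d k169 k232 k253 8 13))))))] .n)

def s15_170_19 : T TT 256 :=
  (.q k1 [(.s k61 k41 5 (.s k149 k213 7 (.s k105 k193 13 (.s k125 k65 5 (.d k253 k189 k169 7
  13))))), (.s k3 k2 0 (.s k41 k61 5 (.s k22 k60 6 (.s k23 k20 0 (.d k63 k43 k42 5 6))))), (.s k3 k2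
  0 (.s k63 k42 6 (.s k43 k23 5 (.s k149 k213 7 (.s k106 k192 14 (.d k169 k232 k253 8 13))))))] .n)

def s15_170_20 : T TT 256 :=
  (.q k1 [(.s k61 k41 5 (.s k149 k213 7 (.s k105 k193 13 (.s k125 k65 5 (.d k253 k189 k169 7
  13))))), (.s k3 k2 0 (.s k63 k42 6 (.s k43 k23 5 (.s k169 k253 13 (.s k106 k232 8 (.s k64 k127 6
  (.d k192 k128 k149 7 14)))))))] (.c k149 (.l (.s k3 k2 0 (.s k41 k61 5 (.s k60 k22 6 (.s k169 k253
  13 (.s k105 k233 7 (.s k195 k150 14 (.d k65 k125 k130 5 8)))))))) (.c k169 (.l (.s k61 k41 5 (.s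
  k63 k42 6 (.s k60 k62 0 (.s k149 k213 7 (.s k105 k193 13 (.s k65 k125 5 (.d k195 k130 k150 8
  14)))))))) (.c k253 (.l (.s k3 k2 0 (.s k61 k41 5 (.s k63 k42 6 (.s k149 k213 7 (.s k193 k105 13
  (.s k129 k65 7 (.d k192 k106 k66 14 8)))))))) .n))))

def s15_170_22 : T TT 256 :=
  (.q k4 [(.s k55 k38 4 (.s k149 k213 7 (.s k102 k196 12 (.s k119 k68 4 (.d k247 k183 k166 7
  12))))), (.s k12 k8 1 (.s k38 k55 4 (.s k25 k51 6 (.s k29 k17 1 (.d k63 k46 k42 4 6))))), (.s k12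
  k8 1 (.s k63 k42 6 (.s k46 k29 4 (.s k149 k213 7 (.s k106 k192 14 (.d k166 k226 k247 9 12))))))]
  .n)

def s15_170_23 : T TT 256 :=
  (.q k1 [(.s k61 k41 5 (.s k149 k213 7 (.s k105 k193 13 (.s k125 k65 5 (.d k253 k189 k169 7
  13))))), (.s k3 k2 0 (.s k41 k61 5 (.s k42 k63 6 (.s k40 k43 0 (.d k60 k20 k22 5 6))))), (.s k3 k2
  0 (.s k63 k42 6 (.s k149 k213 7 (.s k169 k253 13 (.s k189 k129 5 (.d k252 k86 k126 14 8))))))] .n)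

def s15_170_24 : T TT 256 :=
  (.q k1 [(.s k61 k41 5 (.s k149 k213 7 (.s k105 k193 13 (.s k125 k65 5 (.d k253 k189 k169 7
  13))))), (.s k3 k2 0 (.s k41 k61 5 (.s k22 k60 6 (.s k23 k20 0 (.d k63 k43 k42 5 6))))), (.s k3 k2
  0 (.s k63 k42 6 (.s k43 k23 5 (.s k149 k213 7 (.s k106 k192 14 (.d k169 k232 k253 8 13))))))] .n)

def s15_170_25 : T TT 256 :=
  (.q k1 [(.s k61 k41 5 (.s k149 k213 7 (.s k105 k193 13 (.s k125 k65 5 (.d k253 k189 k169 7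
  13))))), (.s k3 k2 0 (.s k41 k61 5 (.s k22 k60 6 (.s k23 k20 0 (.d k63 k43 k42 5 6))))), (.s k3 k2
  0 (.s k63 k42 6 (.s k43 k23 5 (.s k149 k213 7 (.s k106 k192 14 (.d k169 k232 k253 8 13))))))] .n)

def s15_170_26 : T TT 256 :=
  (.f k149 k213 7 (.q k48 [(.s k63 k42 6 (.s k58 k53 2 (.s k106 k192 14 (.s k154 k202 11 (.d k16 k32
  k223 3 10))))), (.s k16 k32 3 (.s k154 k223 10 (.s k144 k159 2 (.s k192 k96 11 (.s k64 k128 7 (.d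
  k106 k127 k63 6 14)))))), (.s k63 k42 6 (.s k58 k53 2 (.s k106 k192 14 (.s k154 k202 11 (.s k159
  k144 2 (.d k207 k111 k101 11 14)))))), (.s k16 k32 3 (.s k154 k223 10 (.s k101 k207 14 (.s k53
  k197 11 (.s k5 k37 3 (.s k117 k69 3 (.d k245 k181 k165 7 11)))))))] (.c k154 (.q k90 [(.s k16 k32
  3 (.s k80 k95 2 (.d k208 k144 k31 7 10))), (.s k63 k42 6 (.s k58 k53 2 (.s k106 k192 14 (.s k127
  k64 6 (.s k255 k191 7 (.s k186 k117 10 (.d k122 k74 k250 3 7)))))))] (.c k138 (.q k186 [(.s k16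
  k32 3 (.s k80 k95 2 (.d k208 k144 k31 7 10))), (.s k63 k42 6 (.s k58 k53 2 (.s k106 k192 14 (.d
  k122 k74 k250 3 7))))] (.c k255 (.l (.s k16 k32 3 (.s k208 k31 10 (.d k80 k95 k144 2 7)))) .n))
  (.c k186 (.q k138 [(.s k16 k32 3 (.s k80 k95 2 (.d k208 k144 k31 7 10))), (.s k63 k42 6 (.s k69
  k207 10 (.s k101 k117 3 (.d k53 k58 k197 2 11))))] (.c k101 (.l (.s k80 k95 2 (.s k208 k31 10 (.d
  k16 k32 k144 3 7)))) .n)) (.c k255 (.l (.s k16 k32 3 (.s k208 k31 10 (.d k80 k95 k144 2 7))))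
  .n)))) (.c k192 (.l (.s k16 k32 3 (.s k63 k42 6 (.s k154 k223 10 (.s k101 k207 14 (.d k53 k58 k197
  2 11)))))) .n))))

def s15_170_27 : T TT 256 :=
  (.q k51 [(.s k17 k34 4 (.s k25 k29 1 (.s k12 k38 6 (.s k8 k4 1 (.d k42 k59 k63 4 6))))), (.s k17
  k34 4 (.s k29 k25 1 (.s k149 k213 7 (.s k89 k209 9 (.s k93 k81 1 (.d k221 k157 k153 7 9)))))), (.s
  k63 k42 6 (.s k55 k59 1 (.s k149 k213 7 (.s k102 k196 12 (.s k68 k119 4 (.d k204 k136 k153 9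
  14))))))] (.c k25 (.l (.s k17 k34 4 (.s k63 k42 6 (.s k59 k55 1 (.s k149 k213 7 (.s k106 k192 14
  (.d k153 k221 k200 9 12))))))) (.c k102 (.l (.s k34 k17 4 (.s k42 k63 6 (.s k38 k46 1 (.s k4 k55 4
  (.d k12 k8 k25 1 6)))))) .n)))

def s15_170_28 : T TT 256 :=
  (.q k1 [(.s k61 k41 5 (.s k149 k213 7 (.s k105 k193 13 (.s k125 k65 5 (.d k253 k189 k169 7
  13))))), (.s k3 k2 0 (.s k41 k61 5 (.s k22 k60 6 (.s k23 k20 0 (.d k63 k43 k42 5 6))))), (.s k3 k2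
  0 (.s k63 k42 6 (.s k43 k23 5 (.s k149 k213 7 (.s k106 k192 14 (.d k169 k232 k253 8 13))))))] .n)

def s15_170_29 : T TT 256 :=
  (.q k1 [(.s k61 k41 5 (.s k149 k213 7 (.s k105 k193 13 (.s k125 k65 5 (.d k253 k189 k169 7
  13))))), (.s k3 k2 0 (.s k41 k61 5 (.s k22 k60 6 (.s k23 k20 0 (.d k63 k43 k42 5 6))))), (.s k3 k2
  0 (.s k63 k42 6 (.s k43 k23 5 (.s k149 k213 7 (.s k106 k192 14 (.d k169 k232 k253 8 13))))))] .n)

def s15_170_30 : T TT 256 :=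
  (.q k60 [(.s k20 k40 5 (.s k22 k23 0 (.s k3 k41 6 (.s k2 k1 0 (.d k42 k62 k63 5 6))))), (.s k20
  k40 5 (.s k23 k22 0 (.s k149 k213 7 (.s k86 k212 8 (.s k87 k84 0 (.d k215 k151 k150 7 8)))))), (.s
  k63 k42 6 (.s k61 k62 0 (.s k149 k213 7 (.s k105 k193 13 (.s k65 k125 5 (.d k195 k130 k150 8
  14))))))] (.c k22 (.l (.s k20 k40 5 (.s k63 k42 6 (.s k62 k61 0 (.s k149 k213 7 (.s k106 k192 14
  (.d k150 k215 k194 8 13))))))) (.c k105 (.l (.s k40 k20 5 (.s k42 k63 6 (.s k41 k43 0 (.s k1 k61 5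
  (.d k3 k2 k22 0 6)))))) .n)))

def s15_170_31 : T TT 256 :=
  (.f k149 k213 7 (.f k63 k42 6 (.q k166 [(.s k183 k132 4 (.s k243 k123 9 (.s k81 k162 12 (.d k89
  k93 k12 1 14)))), (.s k4 k247 12 (.s k55 k38 4 (.s k132 k183 4 (.d k196 k68 k102 7 12)))), (.s k4
  k247 12 (.s k12 k8 1 (.s k29 k46 4 (.d k89 k209 k243 9 14))))] (.c k106 (.q k234 [(.s k183 k132 4
  (.s k243 k123 9 (.s k81 k162 12 (.d k89 k93 k12 1 14)))), (.s k4 k247 12 (.s k55 k38 4 (.s k132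
  k183 4 (.d k196 k68 k102 7 12)))), (.s k4 k247 12 (.s k12 k8 1 (.s k29 k46 4 (.d k89 k209 k243 9
  14))))] .n) (.c k234 (.f k106 k192 14 (.q k255 [(.d k127 k64 k191 6 7), (.s k4 k247 12 (.s k12 k8
  1 (.d k46 k29 k226 4 9)))] (.c k74 (.q k133 [(.d k127 k64 k191 6 7), (.s k4 k247 12 (.s k12 k8 1
  (.d k46 k29 k226 4 9)))] .n) (.c k133 (.q k74 [(.d k127 k64 k191 6 7), (.s k4 k247 12 (.s k12 k8 1
  (.d k46 k29 k226 4 9)))] .n) .n)))) .n)))))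

def s15_170_32 : T TT 256 :=
  (.q k101 [(.s k117 k69 3 (.s k149 k213 7 (.s k53 k197 11 (.s k245 k181 7 (.d k5 k37 k165 3
  11))))), (.s k63 k42 6 (.s k69 k117 3 (.s k207 k138 10 (.s k111 k159 11 (.s k106 k96 2 (.s k64
  k127 6 (.d k192 k128 k149 7 14))))))), (.s k63 k42 6 (.s k149 k213 7 (.s k53 k197 11 (.s k48 k58 2
  (.s k106 k192 14 (.s k111 k96 2 (.d k207 k159 k154 11 14)))))))] (.c k37 (.l (.s k69 k117 3 (.s
  k149 k213 7 (.s k197 k53 11 (.s k207 k138 10 (.s k192 k202 2 (.d k63 k42 k106 6 14))))))) (.c k149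
  (.f k63 k42 6 (.f k69 k117 3 (.l (.s k207 k138 10 (.s k111 k159 11 (.s k106 k96 2 (.s k64 k127 6
  (.s k154 k48 14 (.s k202 k58 11 (.d k192 k197 k128 2 7)))))))))) .n)))

def s15_170_33 : T TT 256 :=
  (.q k1 [(.s k61 k41 5 (.s k149 k213 7 (.s k105 k193 13 (.s k125 k65 5 (.d k253 k189 k169 7
  13))))), (.s k3 k2 0 (.s k41 k61 5 (.s k42 k63 6 (.s k40 k43 0 (.d k60 k20 k22 5 6))))), (.s k3 k2
  0 (.s k63 k42 6 (.s k43 k23 5 (.s k149 k213 7 (.s k106 k192 14 (.d k169 k232 k253 8 13))))))] .n)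

def s15_170_34 : T TT 256 :=
  (.q k102 [(.s k119 k68 4 (.s k149 k213 7 (.s k55 k196 12 (.s k247 k183 7 (.d k4 k38 k166 4
  12))))), (.s k63 k42 6 (.s k68 k119 4 (.s k204 k136 9 (.s k110 k157 12 (.s k106 k98 1 (.s k64 k127
  6 (.d k192 k128 k149 7 14))))))), (.s k63 k42 6 (.s k149 k213 7 (.s k55 k196 12 (.s k51 k59 1 (.s
  k106 k192 14 (.s k110 k98 1 (.d k204 k157 k153 12 14)))))))] (.c k38 (.l (.s k68 k119 4 (.s k149
  k213 7 (.s k196 k55 12 (.s k204 k136 9 (.s k192 k200 1 (.d k63 k42 k106 6 14))))))) (.c k149 (.f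
  k42 k63 6 (.f k68 k119 4 (.f k204 k136 9 (.l (.s k153 k51 14 (.s k17 k221 9 (.s k25 k29 1 (.s k89
  k217 7 (.s k76 k115 6 (.s k12 k140 7 (.d k8 k59 k4 4 1))))))))))) .n)))

def s15_170_35 : T TT 256 :=
  (.q k1 [(.s k61 k41 5 (.s k149 k213 7 (.s k105 k193 13 (.s k125 k65 5 (.d k253 k189 k169 7
  13))))), (.s k3 k2 0 (.s k41 k61 5 (.s k22 k60 6 (.s k23 k20 0 (.d k63 k43 k42 5 6))))), (.s k3 k2
  0 (.s k63 k42 6 (.s k43 k23 5 (.s k149 k213 7 (.s k106 k192 14 (.d k169 k232 k253 8 13))))))] .n)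

def s15_170_36 : T TT 256 :=
  (.q k1 [(.s k61 k41 5 (.s k149 k213 7 (.s k105 k193 13 (.s k125 k65 5 (.d k253 k189 k169 7
  13))))), (.s k3 k2 0 (.s k41 k61 5 (.s k22 k60 6 (.s k23 k20 0 (.d k63 k43 k42 5 6))))), (.s k3 k2
  0 (.s k63 k42 6 (.s k43 k23 5 (.s k149 k213 7 (.s k106 k192 14 (.d k169 k232 k253 8 13))))))] .n)

def s15_170_37 : T TT 256 :=
  (.f k149 k213 7 (.q k93 [(.s k89 k81 1 (.s k29 k209 9 (.s k221 k157 7 (.d k17 k25 k153 1 9)))),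
  (.s k63 k42 6 (.s k89 k81 1 (.s k106 k192 14 (.s k123 k72 4 (.s k127 k64 6 (.s k76 k110 4 (.d k115
  k119 k102 1 6))))))), (.s k63 k42 6 (.s k106 k192 14 (.s k127 k64 6 (.s k110 k76 4 (.s k157 k204
  12 (.s k153 k145 1 (.d k221 k29 k17 7 9)))))))] (.c k26 (.q k48 [(.s k89 k81 1 (.s k29 k209 9 (.s
  k221 k157 7 (.d k17 k25 k153 1 9)))), (.s k16 k32 3 (.s k154 k223 10 (.s k101 k207 14 (.s k53 k197
  11 (.d k63 k42 k58 6 2)))))] .n) (.c k48 (.q k26 [(.s k89 k81 1 (.s k29 k209 9 (.s k221 k157 7 (.d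
  k17 k25 k153 1 9)))), (.s k16 k31 2 (.s k89 k81 1 (.s k223 k154 10 (.s k28 k158 8 (.s k20 k24 1
  (.d k150 k215 k211 8 10)))))), (.s k16 k31 2 (.s k223 k154 10 (.s k28 k158 8 (.s k24 k20 1 (.s k25
  k27 0 (.s k17 k29 1 (.d k19 k18 k22 0 2)))))))] .n) .n))))

def s15_170_38 : T TT 256 :=
  (.q k1 [(.s k61 k41 5 (.s k149 k213 7 (.s k105 k193 13 (.s k125 k65 5 (.d k253 k189 k169 7
  13))))), (.s k3 k2 0 (.s k41 k61 5 (.s k22 k60 6 (.s k23 k20 0 (.d k63 k43 k42 5 6))))), (.s k3 k2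
  0 (.s k63 k42 6 (.s k43 k23 5 (.s k149 k213 7 (.s k106 k192 14 (.d k169 k232 k253 8 13))))))] .n)

def s15_170_39 : T TT 256 :=
  (.q k51 [(.s k34 k17 4 (.s k42 k63 6 (.s k38 k46 1 (.s k12 k25 6 (.d k4 k8 k55 1 4))))), (.s k17
  k34 4 (.s k29 k25 1 (.s k149 k213 7 (.s k89 k209 9 (.s k93 k81 1 (.d k221 k157 k153 7 9)))))), (.s
  k63 k42 6 (.s k55 k59 1 (.s k149 k213 7 (.s k102 k196 12 (.s k68 k119 4 (.d k204 k136 k153 9
  14))))))] (.c k25 (.l (.s k17 k34 4 (.s k63 k42 6 (.s k59 k55 1 (.s k149 k213 7 (.s k106 k192 14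
  (.d k153 k221 k200 9 12))))))) .n))

def s15_170_40 : T TT 256 :=
  (.q k105 [(.s k125 k65 5 (.s k149 k213 7 (.s k61 k193 13 (.s k253 k189 7 (.d k1 k41 k169 5
  13))))), (.s k63 k42 6 (.s k65 k125 5 (.s k195 k130 8 (.s k107 k151 13 (.s k106 k104 0 (.s k64
  k127 6 (.d k192 k128 k149 7 14))))))), (.s k63 k42 6 (.s k149 k213 7 (.s k61 k193 13 (.s k60 k62 0
  (.s k106 k192 14 (.s k107 k104 0 (.d k195 k151 k150 13 14)))))))] (.c k41 (.l (.s k65 k125 5 (.s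
  k149 k213 7 (.s k193 k61 13 (.s k195 k130 8 (.s k192 k194 0 (.d k63 k42 k106 6 14))))))) (.c k149
  (.f k63 k42 6 (.f k65 k125 5 (.l (.s k195 k130 8 (.s k107 k151 13 (.s k106 k104 0 (.s k64 k127 6
  (.s k150 k60 14 (.s k194 k62 13 (.d k192 k193 k128 0 7)))))))))) .n)))

def s15_170_41 : T TT 256 :=
  (.q k4 [(.s k55 k38 4 (.s k149 k213 7 (.s k102 k196 12 (.s k119 k68 4 (.d k247 k183 k166 7
  12))))), (.s k12 k8 1 (.s k38 k55 4 (.s k25 k51 6 (.s k29 k17 1 (.d k63 k46 k42 4 6))))), (.s k12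
  k8 1 (.s k63 k42 6 (.s k46 k29 4 (.s k149 k213 7 (.s k106 k192 14 (.d k166 k226 k247 9 12))))))]
  .n)

def s15_170_42 : T TT 256 :=
  (.f k149 k213 7 (.q k4 [(.s k166 k247 12 (.s k132 k183 4 (.s k196 k68 7 (.d k55 k38 k102 4 12)))),
  (.s k12 k8 1 (.s k38 k55 4 (.s k25 k51 6 (.s k29 k17 1 (.s k89 k209 9 (.s k81 k93 1 (.d k243 k162
  k166 12 14))))))), (.s k12 k8 1 (.s k166 k247 12 (.s k89 k243 14 (.s k29 k209 9 (.s k93 k81 1 (.s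
  k221 k157 7 (.d k17 k25 k153 1 9)))))))] (.c k106 (.q k234 [(.s k166 k247 12 (.s k132 k183 4 (.s
  k196 k68 7 (.d k55 k38 k102 4 12)))), (.s k12 k8 1 (.s k38 k55 4 (.s k25 k51 6 (.s k29 k17 1 (.s
  k89 k209 9 (.s k81 k93 1 (.d k243 k162 k166 12 14))))))), (.s k12 k8 1 (.s k166 k247 12 (.s k89
  k243 14 (.s k29 k209 9 (.s k93 k81 1 (.s k221 k157 7 (.d k17 k25 k153 1 9)))))))] (.c k166 (.f k55
  k38 4 (.f k102 k196 12 (.l (.s k68 k119 4 (.s k204 k136 9 (.s k153 k51 14 (.s k17 k221 9 (.s k145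
  k157 1 (.s k209 k81 7 (.d k29 k25 k89 1 9)))))))))) .n)) (.c k166 (.f k55 k38 4 (.f k102 k196 12
  (.l (.s k68 k119 4 (.s k204 k136 9 (.s k153 k51 14 (.s k17 k221 9 (.s k145 k157 1 (.s k209 k81 7
  (.d k29 k25 k89 1 9)))))))))) (.c k234 (.q k106 [(.s k64 k127 6 (.d k192 k128 k63 7 14)), (.s k55
  k38 4 (.s k102 k196 12 (.s k119 k68 4 (.d k247 k183 k166 7 12))))] (.c k192 (.q k255 [(.s k12 k8 1
  (.s k93 k174 12 (.s k89 k81 1 (.d k166 k247 k243 12 14)))), (.s k55 k38 4 (.s k102 k196 12 (.s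
  k119 k68 4 (.d k247 k183 k166 7 12)))), (.s k12 k8 1 (.s k38 k55 4 (.s k25 k51 6 (.s k29 k17 1 (.s
  k63 k46 4 (.d k127 k64 k191 6 7))))))] (.c k74 (.q k133 [(.s k12 k8 1 (.s k93 k174 12 (.s k89 k81
  1 (.d k166 k247 k243 12 14)))), (.s k165 k181 3 (.s k5 k245 11 (.s k53 k37 3 (.d k197 k69 k101 7
  11))))] .n) (.c k133 (.q k74 [(.s k12 k8 1 (.s k93 k174 12 (.s k89 k81 1 (.d k166 k247 k243 12
  14)))), (.s k64 k127 6 (.s k79 k69 2 (.s k90 k122 3 (.s k80 k95 2 (.d k112 k96 k101 3 6)))))] .n)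
  .n))) (.c k255 (.l (.s k192 k63 14 (.d k64 k127 k128 6 7))) .n))) .n)))))

def s15_170_43 : T TT 256 :=
  (.q k4 [(.s k55 k38 4 (.s k149 k213 7 (.s k102 k196 12 (.s k119 k68 4 (.d k247 k183 k166 7
  12))))), (.s k12 k8 1 (.s k38 k55 4 (.s k25 k51 6 (.s k29 k17 1 (.d k63 k46 k42 4 6))))), (.s k12
  k8 1 (.s k63 k42 6 (.s k46 k29 4 (.s k149 k213 7 (.s k106 k192 14 (.d k166 k226 k247 9 12))))))]
  .n)

def s15_170_44 : T TT 256 :=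
  (.q k1 [(.s k61 k41 5 (.s k149 k213 7 (.s k105 k193 13 (.s k125 k65 5 (.d k253 k189 k169 7
  13))))), (.s k3 k2 0 (.s k41 k61 5 (.s k22 k60 6 (.s k23 k20 0 (.d k63 k43 k42 5 6))))), (.s k3 k2
  0 (.s k63 k42 6 (.s k43 k23 5 (.s k149 k213 7 (.s k106 k192 14 (.d k169 k232 k253 8 13))))))] .n)

def s15_170_45 : T TT 256 :=
  (.q k60 [(.s k40 k20 5 (.s k42 k63 6 (.s k41 k43 0 (.s k3 k22 6 (.d k1 k2 k61 0 5))))), (.s k20
  k40 5 (.s k23 k22 0 (.s k149 k213 7 (.s k86 k212 8 (.s k87 k84 0 (.d k215 k151 k150 7 8)))))), (.s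
  k63 k42 6 (.s k61 k62 0 (.s k149 k213 7 (.s k105 k193 13 (.s k65 k125 5 (.d k195 k130 k150 8
  14))))))] (.c k22 (.l (.s k20 k40 5 (.s k63 k42 6 (.s k62 k61 0 (.s k149 k213 7 (.s k106 k192 14
  (.d k150 k215 k194 8 13))))))) .n))

def s15_170_46 : T TT 256 :=
  (.q k1 [(.s k61 k41 5 (.s k149 k213 7 (.s k105 k193 13 (.s k125 k65 5 (.d k253 k189 k169 7
  13))))), (.s k3 k2 0 (.s k41 k61 5 (.s k22 k60 6 (.s k23 k20 0 (.d k63 k43 k42 5 6))))), (.s k3 k2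
  0 (.s k63 k42 6 (.s k43 k23 5 (.s k149 k213 7 (.s k106 k192 14 (.d k169 k232 k253 8 13))))))] .n)

def s15_170_47 : T TT 256 :=
  (.q k1 [(.s k61 k41 5 (.s k149 k213 7 (.s k105 k193 13 (.s k125 k65 5 (.d k253 k189 k169 7
  13))))), (.s k3 k2 0 (.s k41 k61 5 (.s k22 k60 6 (.s k23 k20 0 (.d k63 k43 k42 5 6))))), (.s k3 k2
  0 (.s k63 k42 6 (.s k43 k23 5 (.s k149 k213 7 (.s k106 k192 14 (.d k169 k232 k253 8 13))))))] (.c
  k31 (.l (.s k63 k42 6 (.s k3 k2 0 (.s k23 k43 5 (.s k22 k20 0 (.d k41 k61 k60 5 6)))))) (.c k63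
  (.q k31 [(.s k61 k41 5 (.s k149 k213 7 (.s k105 k193 13 (.s k125 k65 5 (.d k253 k189 k169 7
  13))))), (.s k16 k26 2 (.s k149 k213 7 (.s k90 k208 10 (.s k95 k80 2 (.d k223 k159 k154 7 10))))),
  (.s k3 k2 0 (.s k16 k26 2 (.s k48 k32 3 (.s k18 k33 4 (.s k154 k223 10 (.s k86 k222 9 (.d k169
  k253 k252 13 14)))))))] .n) .n)))

def s15_170_48 : T TT 256 :=
  (.f k149 k213 7 (.q k87 [(.s k86 k84 0 (.s k23 k212 8 (.s k20 k22 0 (.d k215 k151 k150 7 8)))),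
  (.s k63 k42 6 (.s k86 k84 0 (.s k106 k192 14 (.s k126 k66 5 (.s k127 k64 6 (.s k67 k107 5 (.d k124
  k125 k105 0 6))))))), (.s k63 k42 6 (.s k106 k192 14 (.s k127 k64 6 (.s k107 k67 5 (.s k151 k195
  13 (.s k150 k148 0 (.d k215 k23 k20 7 8)))))))] (.c k26 (.q k37 [(.s k86 k84 0 (.s k23 k212 8 (.s
  k215 k151 7 (.d k20 k22 k150 0 8)))), (.s k53 k5 3 (.s k63 k42 6 (.s k101 k197 11 (.s k69 k117 3
  (.s k106 k192 14 (.s k207 k138 10 (.d k111 k96 k159 2 11)))))))] .n) (.c k37 (.q k26 [(.s k86 k84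
  0 (.s k23 k212 8 (.s k215 k151 7 (.d k20 k22 k150 0 8)))), (.s k16 k31 2 (.s k86 k84 0 (.s k223
  k154 10 (.s k19 k155 9 (.s k17 k18 0 (.d k153 k221 k220 9 10)))))), (.s k16 k31 2 (.s k223 k154 10
  (.s k19 k155 9 (.s k18 k17 0 (.s k22 k30 1 (.s k20 k23 0 (.d k28 k24 k25 1 2)))))))] .n) .n))))

def s15_170_49 : T TT 256 :=
  (.q k1 [(.s k61 k41 5 (.s k149 k213 7 (.s k105 k193 13 (.s k125 k65 5 (.d k253 k189 k169 7
  13))))), (.s k3 k2 0 (.s k41 k61 5 (.s k22 k60 6 (.s k23 k20 0 (.d k63 k43 k42 5 6))))), (.s k3 k2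
  0 (.s k63 k42 6 (.s k43 k23 5 (.s k149 k213 7 (.s k106 k192 14 (.d k169 k232 k253 8 13))))))] .n)

def s15_170_50 : T TT 256 :=
  (.q k1 [(.s k61 k41 5 (.s k149 k213 7 (.s k105 k193 13 (.s k125 k65 5 (.d k253 k189 k169 7
  13))))), (.s k3 k2 0 (.s k41 k61 5 (.s k22 k60 6 (.s k23 k20 0 (.d k63 k43 k42 5 6))))), (.s k3 k2
  0 (.s k63 k42 6 (.s k43 k23 5 (.s k149 k213 7 (.s k106 k192 14 (.d k169 k232 k253 8 13))))))] .n)

def s15_170_51 : T TT 256 :=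
  (.f k149 k213 7 (.q k119 [(.s k102 k68 4 (.s k55 k196 12 (.s k247 k183 7 (.d k4 k38 k166 4 12)))),
  (.s k63 k42 6 (.s k102 k68 4 (.s k106 k192 14 (.s k127 k64 6 (.s k115 k123 1 (.s k76 k89 6 (.d
  k110 k98 k93 1 4))))))), (.s k63 k42 6 (.s k106 k192 14 (.s k127 k64 6 (.s k123 k115 1 (.s k243
  k183 9 (.s k81 k162 12 (.d k89 k93 k72 1 4)))))))] (.c k27 (.q k39 [(.s k102 k68 4 (.s k55 k196 12
  (.s k247 k183 7 (.d k4 k38 k166 4 12)))), (.s k102 k68 4 (.s k165 k228 8 (.s k5 k245 11 (.s k53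
  k37 3 (.s k133 k181 3 (.d k197 k69 k101 7 11)))))), (.s k63 k42 6 (.s k106 k192 14 (.s k127 k64 6
  (.s k123 k115 1 (.s k243 k183 9 (.s k81 k162 12 (.d k89 k93 k72 1 4)))))))] .n) (.c k39 (.q k27
  [(.s k102 k68 4 (.s k55 k196 12 (.s k247 k183 7 (.d k4 k38 k166 4 12)))), (.s k63 k42 6 (.s k102
  k68 4 (.s k106 k192 14 (.s k127 k64 6 (.s k115 k123 1 (.s k76 k89 6 (.d k110 k98 k93 1 4))))))),
  (.s k63 k42 6 (.s k106 k192 14 (.s k127 k64 6 (.s k123 k115 1 (.s k243 k183 9 (.s k81 k162 12 (.d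
  k89 k93 k72 1 4)))))))] .n) .n))))

def s15_170_52 : T TT 256 :=
  (.q k1 [(.s k61 k41 5 (.s k149 k213 7 (.s k105 k193 13 (.s k125 k65 5 (.d k253 k189 k169 7
  13))))), (.s k3 k2 0 (.s k41 k61 5 (.s k22 k60 6 (.s k23 k20 0 (.d k63 k43 k42 5 6))))), (.s k3 k2
  0 (.s k63 k42 6 (.s k43 k23 5 (.s k149 k213 7 (.s k106 k192 14 (.d k169 k232 k253 8 13))))))] .n)

def s15_170_53 : T TT 256 :=
  (.q k1 [(.s k61 k41 5 (.s k149 k213 7 (.s k105 k193 13 (.s k125 k65 5 (.d k253 k189 k169 7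
  13))))), (.s k3 k2 0 (.s k41 k61 5 (.s k22 k60 6 (.s k23 k20 0 (.d k63 k43 k42 5 6))))), (.s k3 k2
  0 (.s k63 k42 6 (.s k43 k23 5 (.s k149 k213 7 (.s k106 k192 14 (.d k169 k232 k253 8 13))))))] .n)

def s15_170_54 : T TT 256 :=
  (.q k1 [(.s k61 k41 5 (.s k149 k213 7 (.s k105 k193 13 (.s k125 k65 5 (.d k253 k189 k169 7
  13))))), (.s k3 k2 0 (.s k41 k61 5 (.s k22 k60 6 (.s k23 k20 0 (.d k63 k43 k42 5 6))))), (.s k3 k2
  0 (.s k63 k42 6 (.s k43 k23 5 (.s k149 k213 7 (.s k106 k192 14 (.d k169 k232 k253 8 13))))))] .n)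

def s15_170_55 : T TT 256 :=
  (.q k1 [(.s k61 k41 5 (.s k149 k213 7 (.s k105 k193 13 (.s k125 k65 5 (.d k253 k189 k169 7
  13))))), (.s k3 k2 0 (.s k41 k61 5 (.s k22 k60 6 (.s k23 k20 0 (.d k63 k43 k42 5 6))))), (.s k3 k2
  0 (.s k63 k42 6 (.s k43 k23 5 (.s k149 k213 7 (.s k106 k192 14 (.d k169 k232 k253 8 13))))))] .n)

def s15_170_56 : T TT 256 :=
  (.q k1 [(.s k61 k41 5 (.s k149 k213 7 (.s k105 k193 13 (.s k125 k65 5 (.d k253 k189 k169 7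
  13))))), (.s k3 k2 0 (.s k41 k61 5 (.s k22 k60 6 (.s k23 k20 0 (.d k63 k43 k42 5 6))))), (.s k3 k2
  0 (.s k63 k42 6 (.s k43 k23 5 (.s k149 k213 7 (.s k106 k192 14 (.d k169 k232 k253 8 13))))))] .n)

def s15_170_57 : T TT 256 :=
  (.q k1 [(.s k61 k41 5 (.s k149 k213 7 (.s k105 k193 13 (.s k125 k65 5 (.d k253 k189 k169 7
  13))))), (.s k3 k2 0 (.s k41 k61 5 (.s k22 k60 6 (.s k23 k20 0 (.d k63 k43 k42 5 6))))), (.s k3 k2
  0 (.s k63 k42 6 (.s k43 k23 5 (.s k149 k213 7 (.s k106 k192 14 (.d k169 k232 k253 8 13))))))] .n)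

def s15_170_58 : T TT 256 :=
  (.q k1 [(.s k61 k41 5 (.s k149 k213 7 (.s k105 k193 13 (.s k125 k65 5 (.d k253 k189 k169 7
  13))))), (.s k3 k2 0 (.s k41 k61 5 (.s k22 k60 6 (.s k23 k20 0 (.d k63 k43 k42 5 6))))), (.s k3 k2
  0 (.s k63 k42 6 (.s k43 k23 5 (.s k149 k213 7 (.s k106 k192 14 (.d k169 k232 k253 8 13))))))] .n)

def s15_170_59 : T TT 256 :=
  (.q k1 [(.s k61 k41 5 (.s k149 k213 7 (.s k105 k193 13 (.s k125 k65 5 (.d k253 k189 k169 7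
  13))))), (.s k3 k2 0 (.s k41 k61 5 (.s k22 k60 6 (.s k23 k20 0 (.d k63 k43 k42 5 6))))), (.s k3 k2
  0 (.s k63 k42 6 (.s k43 k23 5 (.s k149 k213 7 (.s k106 k192 14 (.d k169 k232 k253 8 13))))))] .n)

def s15_170_60 : T TT 256 :=
  (.f k149 k213 7 (.q k119 [(.s k102 k68 4 (.s k55 k196 12 (.s k4 k38 4 (.d k247 k183 k166 7 12)))),
  (.s k63 k42 6 (.s k102 k68 4 (.s k106 k192 14 (.s k110 k98 1 (.s k127 k64 6 (.s k76 k93 4 (.d k115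
  k123 k89 1 6))))))), (.s k63 k42 6 (.s k106 k192 14 (.s k127 k64 6 (.s k123 k115 1 (.s k183 k243 9
  (.s k166 k132 4 (.d k247 k55 k4 7 12)))))))] (.c k30 (.q k45 [(.s k102 k68 4 (.s k55 k196 12 (.s
  k4 k38 4 (.d k247 k183 k166 7 12)))), (.s k63 k42 6 (.s k102 k68 4 (.s k106 k192 14 (.s k110 k98 1
  (.s k127 k64 6 (.s k76 k93 4 (.d k115 k123 k89 1 6))))))), (.s k63 k42 6 (.s k106 k192 14 (.s k127
  k64 6 (.s k123 k115 1 (.s k183 k243 9 (.s k166 k132 4 (.d k247 k55 k4 7 12)))))))] .n) (.c k45 (.q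
  k30 [(.s k102 k68 4 (.s k55 k196 12 (.s k4 k38 4 (.d k247 k183 k166 7 12)))), (.s k63 k42 6 (.s
  k102 k68 4 (.s k106 k192 14 (.s k110 k98 1 (.s k127 k64 6 (.s k76 k93 4 (.d k115 k123 k89 1
  6))))))), (.s k63 k42 6 (.s k106 k192 14 (.s k127 k64 6 (.s k123 k115 1 (.s k183 k243 9 (.s k166
  k132 4 (.d k247 k55 k4 7 12)))))))] .n) .n))))

def s15_170_61 : T TT 256 :=
  (.q k4 [(.s k55 k38 4 (.s k149 k213 7 (.s k102 k196 12 (.s k119 k68 4 (.d k247 k183 k166 7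
  12))))), (.s k12 k8 1 (.s k38 k55 4 (.s k25 k51 6 (.s k29 k17 1 (.d k63 k46 k42 4 6))))), (.s k12
  k8 1 (.s k63 k42 6 (.s k46 k29 4 (.s k149 k213 7 (.s k106 k192 14 (.d k166 k226 k247 9 12))))))]
  .n)

def s15_170_62 : T TT 256 :=
  (.q k1 [(.s k61 k41 5 (.s k149 k213 7 (.s k105 k193 13 (.s k125 k65 5 (.d k253 k189 k169 7
  13))))), (.s k3 k2 0 (.s k41 k61 5 (.s k22 k60 6 (.s k63 k42 6 (.d k23 k20 k43 0 5))))), (.s k3 k2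
  0 (.s k149 k213 7 (.s k169 k253 13 (.s k86 k252 14 (.s k23 k212 8 (.d k63 k42 k43 6 5))))))] .n)

def s15_170_63 : T TT 256 :=
  (.f k149 k213 7 (.q k1 [(.s k61 k41 5 (.s k105 k193 13 (.s k125 k65 5 (.d k253 k189 k169 7 13)))),
  (.s k3 k2 0 (.s k169 k253 13 (.s k86 k252 14 (.s k23 k212 8 (.s k20 k22 0 (.s k87 k84 0 (.d k215
  k151 k150 7 8))))))), (.s k3 k2 0 (.s k41 k61 5 (.s k60 k22 6 (.s k20 k40 5 (.s k150 k215 8 (.s
  k105 k195 14 (.d k169 k233 k253 7 13)))))))] (.c k31 (.q k47 [(.s k61 k41 5 (.s k105 k193 13 (.s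
  k125 k65 5 (.d k253 k189 k169 7 13)))), (.s k3 k2 0 (.s k169 k253 13 (.s k86 k252 14 (.s k23 k212
  8 (.s k20 k22 0 (.s k87 k84 0 (.d k215 k151 k150 7 8))))))), (.s k3 k2 0 (.s k41 k61 5 (.s k60 k22
  6 (.s k20 k40 5 (.s k150 k215 8 (.s k105 k195 14 (.d k169 k233 k253 7 13)))))))] (.c k169 (.f k3
  k2 0 (.f k41 k61 5 (.l (.s k60 k22 6 (.s k40 k20 5 (.s k42 k43 0 (.s k32 k37 2 (.s k44 k36 1 (.s
  k38 k35 2 (.d k46 k45 k34 0 1)))))))))) (.c k233 (.l (.s k61 k41 5 (.s k105 k193 13 (.s k253 k169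
  13 (.d k125 k65 k189 5 7))))) (.c k253 (.f k3 k2 0 (.f k41 k61 5 (.l (.s k60 k22 6 (.s k40 k20 5
  (.s k42 k43 0 (.s k32 k37 2 (.s k44 k36 1 (.s k38 k35 2 (.d k46 k45 k34 0 1)))))))))) .n)))) (.c
  k47 (.q k31 [(.s k61 k41 5 (.s k105 k193 13 (.s k125 k65 5 (.d k253 k189 k169 7 13)))), (.s k16
  k26 2 (.s k90 k208 10 (.s k95 k80 2 (.d k223 k159 k154 7 10))))] .n) (.c k169 (.f k3 k2 0 (.f k61
  k41 5 (.f k105 k193 13 (.l (.s k65 k125 5 (.s k195 k130 8 (.s k67 k131 7 (.s k86 k124 6 (.s k23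
  k212 8 (.s k20 k22 0 (.d k60 k150 k40 14 5))))))))))) (.c k233 (.l (.s k61 k41 5 (.s k105 k193 13
  (.s k253 k169 13 (.d k125 k65 k189 5 7))))) (.c k253 (.f k3 k2 0 (.f k41 k61 5 (.f k60 k22 6 (.l
  (.s k20 k40 5 (.s k150 k215 8 (.s k148 k151 0 (.s k192 k104 13 (.s k128 k64 7 (.s k168 k188 5 (.d
  k84 k212 k252 7 13))))))))))) .n)))))))

def s15_170_64 : T TT 256 :=
  (.q k1 [(.s k61 k41 5 (.s k149 k213 7 (.s k105 k193 13 (.s k125 k65 5 (.d k253 k189 k169 7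
  13))))), (.s k3 k2 0 (.s k41 k61 5 (.s k22 k60 6 (.s k23 k20 0 (.d k63 k43 k42 5 6))))), (.s k3 k2
  0 (.s k63 k42 6 (.s k43 k23 5 (.s k149 k213 7 (.s k106 k192 14 (.d k169 k232 k253 8 13))))))] .n)

def s15_170_65 : T TT 256 :=
  (.q k1 [(.s k41 k61 5 (.s k42 k63 6 (.s k40 k43 0 (.s k60 k20 5 (.d k3 k2 k22 0 6))))), (.s k63
  k42 6 (.s k149 k213 7 (.s k169 k253 13 (.s k189 k129 5 (.s k252 k126 8 (.s k84 k168 13 (.d k86 k87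
  k3 0 14)))))))] (.c k3 (.l (.s k61 k41 5 (.s k63 k42 6 (.s k60 k62 0 (.s k149 k213 7 (.s k105 k193
  13 (.s k150 k195 14 (.d k20 k40 k215 5 8)))))))) (.c k42 (.l (.s k3 k2 0 (.s k41 k61 5 (.s k22 k60
  6 (.s k20 k23 0 (.s k150 k215 8 (.s k86 k214 7 (.d k169 k253 k252 13 14)))))))) (.c k63 (.l (.s k3
  k2 0 (.s k41 k61 5 (.s k60 k22 6 (.s k20 k40 5 (.s k150 k215 8 (.s k105 k195 14 (.d k169 k233 k253
  7 13)))))))) .n))))

def s15_170_66 : T TT 256 :=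
  (.q k1 [(.s k61 k41 5 (.s k149 k213 7 (.s k105 k193 13 (.s k125 k65 5 (.d k253 k189 k169 7
  13))))), (.s k3 k2 0 (.s k41 k61 5 (.s k22 k60 6 (.s k23 k20 0 (.d k63 k43 k42 5 6))))), (.s k3 k2
  0 (.s k63 k42 6 (.s k43 k23 5 (.s k149 k213 7 (.s k106 k192 14 (.d k169 k232 k253 8 13))))))] .n)

def s15_170_67 : T TT 256 :=
  (.q k1 [(.s k61 k41 5 (.s k149 k213 7 (.s k105 k193 13 (.s k125 k65 5 (.d k253 k189 k169 7
  13))))), (.s k3 k2 0 (.s k41 k61 5 (.s k22 k60 6 (.s k23 k20 0 (.d k63 k43 k42 5 6))))), (.s k3 k2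
  0 (.s k63 k42 6 (.s k43 k23 5 (.s k149 k213 7 (.s k106 k192 14 (.d k169 k232 k253 8 13))))))] .n)

def s15_170_68 : T TT 256 :=
  (.q k1 [(.s k61 k41 5 (.s k149 k213 7 (.s k105 k193 13 (.s k125 k65 5 (.d k253 k189 k169 7
  13))))), (.s k3 k2 0 (.s k41 k61 5 (.s k22 k60 6 (.s k23 k20 0 (.d k63 k43 k42 5 6))))), (.s k3 k2
  0 (.s k63 k42 6 (.s k43 k23 5 (.s k149 k213 7 (.s k106 k192 14 (.d k169 k232 k253 8 13))))))] .n)

def s15_170_69 : T TT 256 :=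
  (.q k1 [(.s k61 k41 5 (.s k149 k213 7 (.s k105 k193 13 (.s k125 k65 5 (.d k253 k189 k169 7
  13))))), (.s k3 k2 0 (.s k41 k61 5 (.s k22 k60 6 (.s k23 k20 0 (.d k63 k43 k42 5 6))))), (.s k3 k2
  0 (.s k63 k42 6 (.s k43 k23 5 (.s k149 k213 7 (.s k106 k192 14 (.d k169 k232 k253 8 13))))))] .n)

def s15_170_70 : T TT 256 :=
  (.q k1 [(.s k61 k41 5 (.s k149 k213 7 (.s k105 k193 13 (.s k125 k65 5 (.d k253 k189 k169 7
  13))))), (.s k3 k2 0 (.s k41 k61 5 (.s k22 k60 6 (.s k23 k20 0 (.d k63 k43 k42 5 6))))), (.s k3 k2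
  0 (.s k63 k42 6 (.s k43 k23 5 (.s k149 k213 7 (.s k106 k192 14 (.d k169 k232 k253 8 13))))))] .n)

def s15_170_71 : T TT 256 :=
  (.q k1 [(.s k61 k41 5 (.s k149 k213 7 (.s k105 k193 13 (.s k125 k65 5 (.d k253 k189 k169 7
  13))))), (.s k3 k2 0 (.s k41 k61 5 (.s k22 k60 6 (.s k23 k20 0 (.d k63 k43 k42 5 6))))), (.s k3 k2
  0 (.s k63 k42 6 (.s k43 k23 5 (.s k149 k213 7 (.s k106 k192 14 (.d k169 k232 k253 8 13))))))] .n)

def s15_170_72 : T TT 256 :=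
  (.q k1 [(.s k61 k41 5 (.s k149 k213 7 (.s k105 k193 13 (.s k125 k65 5 (.d k253 k189 k169 7
  13))))), (.s k3 k2 0 (.s k41 k61 5 (.s k22 k60 6 (.s k23 k20 0 (.d k63 k43 k42 5 6))))), (.s k3 k2
  0 (.s k63 k42 6 (.s k43 k23 5 (.s k149 k213 7 (.s k106 k192 14 (.d k169 k232 k253 8 13))))))] .n)

def s15_170_73 : T TT 256 :=
  (.q k1 [(.s k41 k61 5 (.s k42 k63 6 (.s k40 k43 0 (.s k60 k20 5 (.d k3 k2 k22 0 6))))), (.s k61
  k41 5 (.s k149 k213 7 (.s k105 k193 13 (.s k125 k65 5 (.d k253 k189 k169 7 13))))), (.s k3 k2 0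
  (.s k63 k42 6 (.s k43 k23 5 (.s k149 k213 7 (.s k106 k192 14 (.d k169 k232 k253 8 13))))))] .n)

def s15_170_74 : T TT 256 :=
  (.f k149 k213 7 (.q k192 [(.d k63 k42 k106 6 14)] (.c k42 (.l (.s k64 k128 7 (.d k106 k127 k63 6
  14))) (.c k63 (.q k31 [(.s k16 k26 2 (.s k90 k208 10 (.s k95 k80 2 (.d k223 k159 k154 7 10)))),
  (.s k64 k128 7 (.s k208 k90 10 (.s k240 k224 3 (.s k80 k160 11 (.s k96 k112 3 (.d k144 k16 k48 7
  11)))))), (.s k16 k26 2 (.s k48 k32 3 (.s k144 k96 11 (.d k154 k159 k223 2 10)))), (.s k64 k128 7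
  (.s k90 k208 10 (.s k80 k95 2 (.s k112 k96 3 (.s k101 k79 6 (.s k117 k69 3 (.d k127 k122 k106 2
  6)))))))] .n) (.c k106 (.f k64 k128 7 (.q k90 [(.s k208 k31 10 (.s k240 k224 3 (.d k80 k95 k160 2
  11))), (.s k31 k208 10 (.s k16 k26 2 (.s k48 k32 3 (.s k144 k96 11 (.d k154 k223 k159 10 2))))),
  (.s k80 k95 2 (.s k96 k112 3 (.s k48 k144 11 (.s k32 k16 3 (.d k160 k224 k240 7 11))))), (.s k31
  k208 10 (.s k16 k26 2 (.s k95 k80 2 (.d k223 k159 k154 7 10))))] (.c k42 (.q k234 [(.s k208 k31 10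
  (.s k240 k224 3 (.d k80 k95 k160 2 11))), (.s k31 k208 10 (.s k16 k26 2 (.s k95 k80 2 (.d k223
  k159 k154 7 10)))), (.s k80 k95 2 (.s k96 k112 3 (.s k48 k144 11 (.s k32 k16 3 (.d k160 k224 k240
  7 11))))), (.s k31 k208 10 (.s k16 k26 2 (.s k48 k32 3 (.s k144 k96 11 (.d k154 k223 k159 10
  2)))))] .n) (.c k234 (.l (.s k42 k63 6 (.s k80 k95 2 (.s k240 k160 11 (.d k208 k31 k224 10 3)))))
  .n)))) .n)))))

def s15_170_75 : T TT 256 :=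
  (.f k149 k213 7 (.q k195 [(.s k63 k42 6 (.s k65 k130 8 (.s k105 k125 5 (.s k61 k193 13 (.d k60
  k150 k62 14 0))))), (.s k63 k42 6 (.s k106 k192 14 (.s k127 k64 6 (.s k151 k107 13 (.s k150 k148 0
  (.s k215 k20 8 (.d k255 k235 k191 5 7))))))), (.s k65 k130 8 (.s k105 k125 5 (.s k150 k60 14 (.s
  k20 k215 8 (.s k23 k22 0 (.s k148 k151 0 (.d k212 k84 k86 7 8)))))))] (.c k60 (.l (.s k63 k42 6
  (.s k65 k130 8 (.s k105 k125 5 (.s k106 k192 14 (.d k107 k104 k151 0 13)))))) (.c k150 (.l (.s k63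
  k42 6 (.s k106 k192 14 (.s k107 k151 13 (.s k105 k104 0 (.d k65 k125 k130 5 8)))))) .n))))

def s15_170_76 : T TT 256 :=
  (.q k1 [(.s k61 k41 5 (.s k149 k213 7 (.s k105 k193 13 (.s k125 k65 5 (.d k253 k189 k169 7
  13))))), (.s k3 k2 0 (.s k41 k61 5 (.s k22 k60 6 (.s k23 k20 0 (.d k63 k43 k42 5 6))))), (.s k3 k2
  0 (.s k63 k42 6 (.s k43 k23 5 (.s k149 k213 7 (.s k106 k192 14 (.d k169 k232 k253 8 13))))))] .n)

def s15_170_77 : T TT 256 :=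
  (.q k1 [(.s k61 k41 5 (.s k149 k213 7 (.s k105 k193 13 (.s k125 k65 5 (.d k253 k189 k169 7
  13))))), (.s k3 k2 0 (.s k41 k61 5 (.s k22 k60 6 (.s k23 k20 0 (.d k63 k43 k42 5 6))))), (.s k3 k2
  0 (.s k63 k42 6 (.s k43 k23 5 (.s k149 k213 7 (.s k106 k192 14 (.d k169 k232 k253 8 13))))))] .n)

def s15_170_78 : T TT 256 :=
  (.f k149 k213 7 (.q k204 [(.s k63 k42 6 (.s k68 k136 9 (.s k102 k119 4 (.s k55 k196 12 (.d k51
  k153 k59 14 1))))), (.s k63 k42 6 (.s k106 k192 14 (.s k127 k64 6 (.s k157 k110 12 (.s k153 k145 1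
  (.s k221 k17 9 (.d k255 k238 k191 4 7))))))), (.s k68 k136 9 (.s k102 k119 4 (.s k153 k51 14 (.s
  k17 k221 9 (.s k29 k25 1 (.s k145 k157 1 (.d k209 k81 k89 7 9)))))))] (.c k51 (.l (.s k63 k42 6
  (.s k68 k136 9 (.s k102 k119 4 (.s k106 k192 14 (.d k110 k98 k157 1 12)))))) (.c k153 (.l (.s k63
  k42 6 (.s k106 k192 14 (.s k110 k157 12 (.s k102 k98 1 (.d k68 k119 k136 4 9)))))) .n))))

def s15_170_79 : T TT 256 :=
  (.f k149 k213 7 (.q k207 [(.s k63 k42 6 (.s k69 k138 10 (.s k101 k117 3 (.s k53 k197 11 (.d k48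
  k154 k58 14 2))))), (.s k69 k138 10 (.s k101 k117 3 (.s k154 k48 14 (.s k16 k223 10 (.s k144 k159
  2 (.s k208 k80 7 (.d k31 k26 k90 2 10))))))), (.s k63 k42 6 (.s k159 k111 11 (.s k154 k144 2 (.s
  k16 k223 10 (.d k48 k32 k101 3 14)))))] (.c k48 (.l (.s k63 k42 6 (.s k69 k138 10 (.s k101 k117 3
  (.s k106 k192 14 (.d k111 k96 k159 2 11)))))) (.c k101 (.l (.s k63 k42 6 (.s k106 k192 14 (.s k127
  k64 6 (.s k159 k111 11 (.s k154 k144 2 (.s k223 k16 10 (.d k255 k239 k191 3 7)))))))) (.c k154 (.l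
  (.s k63 k42 6 (.s k106 k192 14 (.s k111 k159 11 (.s k101 k96 2 (.d k69 k117 k138 3 10))))))
  .n)))))

def s15_170_80 : T TT 256 :=
  (.q k1 [(.s k61 k41 5 (.s k149 k213 7 (.s k105 k193 13 (.s k125 k65 5 (.d k253 k189 k169 7
  13))))), (.s k3 k2 0 (.s k41 k61 5 (.s k22 k60 6 (.s k23 k20 0 (.d k63 k43 k42 5 6))))), (.s k3 k2
  0 (.s k63 k42 6 (.s k43 k23 5 (.s k149 k213 7 (.s k106 k192 14 (.d k169 k232 k253 8 13))))))] .n)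

def s15_170_81 : T TT 256 :=
  (.q k1 [(.s k61 k41 5 (.s k149 k213 7 (.s k105 k193 13 (.s k125 k65 5 (.d k253 k189 k169 7
  13))))), (.s k3 k2 0 (.s k41 k61 5 (.s k22 k60 6 (.s k23 k20 0 (.d k63 k43 k42 5 6))))), (.s k3 k2
  0 (.s k63 k42 6 (.s k43 k23 5 (.s k149 k213 7 (.s k106 k192 14 (.d k169 k232 k253 8 13))))))] .n)

def s15_170_82 : T TT 256 :=
  (.q k1 [(.s k61 k41 5 (.s k149 k213 7 (.s k105 k193 13 (.s k125 k65 5 (.d k253 k189 k169 7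
  13))))), (.s k3 k2 0 (.s k41 k61 5 (.s k22 k60 6 (.s k23 k20 0 (.d k63 k43 k42 5 6))))), (.s k3 k2
  0 (.s k63 k42 6 (.s k43 k23 5 (.s k149 k213 7 (.s k106 k192 14 (.d k169 k232 k253 8 13))))))] .n)

def s15_170_83 : T TT 256 :=
  (.q k1 [(.s k61 k41 5 (.s k149 k213 7 (.s k105 k193 13 (.s k125 k65 5 (.d k253 k189 k169 7
  13))))), (.s k3 k2 0 (.s k41 k61 5 (.s k22 k60 6 (.s k23 k20 0 (.d k63 k43 k42 5 6))))), (.s k3 k2
  0 (.s k63 k42 6 (.s k43 k23 5 (.s k149 k213 7 (.s k106 k192 14 (.d k169 k232 k253 8 13))))))] .n)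

def s15_170_84 : T TT 256 :=
  (.q k1 [(.s k61 k41 5 (.s k149 k213 7 (.s k105 k193 13 (.s k125 k65 5 (.d k253 k189 k169 7
  13))))), (.s k3 k2 0 (.s k41 k61 5 (.s k22 k60 6 (.s k23 k20 0 (.d k63 k43 k42 5 6))))), (.s k3 k2
  0 (.s k63 k42 6 (.s k43 k23 5 (.s k149 k213 7 (.s k106 k192 14 (.d k169 k232 k253 8 13))))))] .n)

def s15_170_86 : T TT 256 :=
  (.f k149 k213 7 (.q k1 [(.s k61 k41 5 (.s k105 k193 13 (.s k125 k65 5 (.d k253 k189 k169 7 13)))),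
  (.s k41 k61 5 (.s k42 k63 6 (.s k40 k43 0 (.s k60 k20 5 (.d k3 k2 k22 0 6))))), (.s k63 k42 6 (.s
  k106 k192 14 (.s k169 k253 13 (.s k43 k232 8 (.d k3 k2 k23 0 5)))))] (.c k2 (.q k254 [(.s k61 k41
  5 (.s k105 k193 13 (.s k125 k65 5 (.d k253 k189 k169 7 13)))), (.s k63 k42 6 (.s k106 k192 14 (.s
  k127 k64 6 (.s k253 k169 13 (.d k255 k252 k191 0 7)))))] (.c k169 (.l (.s k61 k41 5 (.s k63 k42 6
  (.s k105 k193 13 (.s k65 k125 5 (.s k195 k130 8 (.d k60 k62 k150 0 14))))))) (.c k253 (.l (.s k61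
  k41 5 (.s k63 k42 6 (.s k193 k105 13 (.s k65 k129 7 (.s k195 k130 8 (.d k192 k194 k106 0 14)))))))
  .n))) (.c k254 (.l (.s k2 k3 0 (.s k61 k41 5 (.s k105 k193 13 (.s k125 k65 5 (.d k253 k169 k189 13
  7)))))) .n))))

def s15_170_87 : T TT 256 :=
  (.q k1 [(.s k61 k41 5 (.s k149 k213 7 (.s k105 k193 13 (.s k125 k65 5 (.d k253 k189 k169 7
  13))))), (.s k3 k2 0 (.s k41 k61 5 (.s k22 k60 6 (.s k23 k20 0 (.d k63 k43 k42 5 6))))), (.s k3 k2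
  0 (.s k63 k42 6 (.s k43 k23 5 (.s k149 k213 7 (.s k106 k192 14 (.d k169 k232 k253 8 13))))))] .n)

def s15_170_88 : T TT 256 :=
  (.q k1 [(.s k61 k41 5 (.s k149 k213 7 (.s k105 k193 13 (.s k125 k65 5 (.d k253 k189 k169 7
  13))))), (.s k3 k2 0 (.s k41 k61 5 (.s k22 k60 6 (.s k23 k20 0 (.d k63 k43 k42 5 6))))), (.s k3 k2
  0 (.s k63 k42 6 (.s k43 k23 5 (.s k149 k213 7 (.s k106 k192 14 (.d k169 k232 k253 8 13))))))] .n)

def s15_170_89 : T TT 256 :=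
  (.f k149 k213 7 (.q k4 [(.s k55 k38 4 (.s k102 k196 12 (.s k119 k68 4 (.d k247 k183 k166 7 12)))),
  (.s k38 k55 4 (.s k42 k63 6 (.s k34 k46 1 (.s k51 k17 4 (.d k12 k8 k25 1 6))))), (.s k63 k42 6 (.s
  k106 k192 14 (.s k166 k247 12 (.s k46 k226 9 (.d k12 k8 k29 1 4)))))] (.c k8 (.q k251 [(.s k55 k38
  4 (.s k102 k196 12 (.s k119 k68 4 (.d k247 k183 k166 7 12)))), (.s k63 k42 6 (.s k106 k192 14 (.s
  k127 k64 6 (.s k247 k166 12 (.d k255 k243 k191 1 7)))))] (.c k166 (.l (.s k55 k38 4 (.s k63 k42 6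
  (.s k102 k196 12 (.s k68 k119 4 (.s k204 k136 9 (.d k51 k59 k153 1 14))))))) (.c k247 (.l (.s k55
  k38 4 (.s k63 k42 6 (.s k196 k102 12 (.s k68 k132 7 (.s k204 k136 9 (.d k192 k200 k106 1 14)))))))
  .n))) (.c k251 (.l (.s k8 k12 1 (.s k55 k38 4 (.s k102 k196 12 (.s k119 k68 4 (.d k247 k166 k183
  12 7)))))) .n))))

def s15_170_90 : T TT 256 :=
  (.q k51 [(.s k17 k34 4 (.s k25 k29 1 (.s k12 k38 6 (.s k8 k4 1 (.d k42 k59 k63 4 6))))), (.s k17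
  k34 4 (.s k29 k25 1 (.s k149 k213 7 (.s k89 k209 9 (.s k93 k81 1 (.d k221 k157 k153 7 9)))))), (.s
  k63 k42 6 (.s k55 k59 1 (.s k149 k213 7 (.s k102 k196 12 (.s k68 k119 4 (.d k204 k136 k153 9
  14))))))] (.c k10 (.q k250 [(.s k17 k34 4 (.s k25 k29 1 (.s k12 k38 6 (.s k8 k4 1 (.d k42 k59 k63
  4 6))))), (.s k17 k34 4 (.s k29 k25 1 (.s k149 k213 7 (.s k89 k209 9 (.s k93 k81 1 (.d k221 k157
  k153 7 9)))))), (.s k63 k42 6 (.s k55 k59 1 (.s k149 k213 7 (.s k102 k196 12 (.s k68 k119 4 (.d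
  k204 k136 k153 9 14))))))] (.c k25 (.l (.s k17 k34 4 (.s k63 k42 6 (.s k59 k55 1 (.s k149 k213 7
  (.s k106 k192 14 (.d k153 k221 k200 9 12))))))) (.c k102 (.l (.s k34 k17 4 (.s k42 k63 6 (.s k38
  k46 1 (.s k4 k55 4 (.d k12 k8 k25 1 6)))))) (.c k165 (.q k240 [(.s k17 k34 4 (.s k25 k29 1 (.s k12
  k38 6 (.s k8 k4 1 (.d k42 k59 k63 4 6))))), (.s k63 k42 6 (.s k149 k213 7 (.s k106 k192 14 (.s
  k127 k64 6 (.d k255 k245 k191 2 7))))), (.s k17 k34 4 (.s k153 k221 9 (.s k102 k204 14 (.s k119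
  k68 4 (.d k255 k245 k187 2 9)))))] (.c k160 (.q k175 [(.s k17 k34 4 (.s k25 k29 1 (.s k12 k38 6
  (.s k8 k4 1 (.d k42 k59 k63 4 6))))), (.s k63 k42 6 (.s k149 k213 7 (.s k106 k192 14 (.s k127 k64
  6 (.d k255 k245 k191 2 7))))), (.s k17 k34 4 (.s k153 k221 9 (.s k102 k204 14 (.s k119 k68 4 (.d
  k255 k245 k187 2 9)))))] .n) (.c k175 (.l (.s k160 k80 11 (.s k17 k34 4 (.s k25 k29 1 (.s k12 k38
  6 (.s k8 k4 1 (.d k42 k59 k63 4 6))))))) .n))) (.c k240 (.q k165 [(.s k17 k34 4 (.s k25 k29 1 (.s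
  k12 k38 6 (.s k8 k4 1 (.d k42 k59 k63 4 6))))), (.s k5 k245 11 (.s k53 k37 3 (.s k149 k213 7 (.s
  k197 k101 11 (.d k133 k181 k69 3 7)))))] .n) .n))))) (.c k25 (.l (.s k17 k34 4 (.s k63 k42 6 (.s
  k59 k55 1 (.s k149 k213 7 (.s k106 k192 14 (.d k153 k221 k200 9 12))))))) (.c k102 (.l (.s k34 k17
  4 (.s k42 k63 6 (.s k38 k46 1 (.s k4 k55 4 (.d k12 k8 k25 1 6)))))) (.c k165 (.q k240 [(.s k17 k34
  4 (.s k25 k29 1 (.s k12 k38 6 (.s k8 k4 1 (.d k42 k59 k63 4 6))))), (.s k17 k34 4 (.s k29 k25 1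
  (.s k149 k213 7 (.s k89 k209 9 (.s k93 k81 1 (.d k221 k157 k153 7 9)))))), (.s k63 k42 6 (.s k55
  k59 1 (.s k149 k213 7 (.s k102 k196 12 (.s k68 k119 4 (.d k204 k136 k153 9 14))))))] (.c k10 (.q
  k250 [(.s k17 k34 4 (.s k25 k29 1 (.s k12 k38 6 (.s k8 k4 1 (.d k42 k59 k63 4 6))))), (.s k63 k42
  6 (.s k149 k213 7 (.s k106 k192 14 (.s k127 k64 6 (.d k255 k245 k191 2 7))))), (.s k17 k34 4 (.s
  k153 k221 9 (.s k102 k204 14 (.s k119 k68 4 (.d k255 k245 k187 2 9)))))] (.c k160 (.q k175 [(.s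
  k17 k34 4 (.s k25 k29 1 (.s k12 k38 6 (.s k8 k4 1 (.d k42 k59 k63 4 6))))), (.s k63 k42 6 (.s k149
  k213 7 (.s k106 k192 14 (.s k127 k64 6 (.d k255 k245 k191 2 7))))), (.s k17 k34 4 (.s k153 k221 9
  (.s k102 k204 14 (.s k119 k68 4 (.d k255 k245 k187 2 9)))))] .n) (.c k175 (.l (.s k160 k80 11 (.s
  k17 k34 4 (.s k25 k29 1 (.s k12 k38 6 (.s k8 k4 1 (.d k42 k59 k63 4 6))))))) .n))) (.c k25 (.l (.s
  k17 k34 4 (.s k63 k42 6 (.s k59 k55 1 (.s k149 k213 7 (.s k106 k192 14 (.d k153 k221 k200 9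
  12))))))) (.c k102 (.l (.s k34 k17 4 (.s k42 k63 6 (.s k38 k46 1 (.s k4 k55 4 (.d k12 k8 k25 1
  6)))))) (.c k160 (.q k175 [(.s k17 k34 4 (.s k25 k29 1 (.s k12 k38 6 (.s k8 k4 1 (.d k42 k59 k63 4
  6))))), (.s k17 k34 4 (.s k29 k25 1 (.s k149 k213 7 (.s k89 k209 9 (.s k93 k81 1 (.d k221 k157
  k153 7 9)))))), (.s k63 k42 6 (.s k55 k59 1 (.s k149 k213 7 (.s k102 k196 12 (.s k68 k119 4 (.d
  k204 k136 k153 9 14))))))] (.c k10 (.q k250 [(.s k17 k34 4 (.s k25 k29 1 (.s k12 k38 6 (.s k8 k4 1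
  (.d k42 k59 k63 4 6))))), (.s k63 k42 6 (.s k149 k213 7 (.s k106 k192 14 (.s k127 k64 6 (.d k255
  k245 k191 2 7))))), (.s k17 k34 4 (.s k153 k221 9 (.s k102 k204 14 (.s k119 k68 4 (.d k255 k245
  k187 2 9)))))] .n) (.c k25 (.l (.s k17 k34 4 (.s k63 k42 6 (.s k59 k55 1 (.s k149 k213 7 (.s k106
  k192 14 (.d k153 k221 k200 9 12))))))) (.c k102 (.l (.s k34 k17 4 (.s k42 k63 6 (.s k38 k46 1 (.s
  k4 k55 4 (.d k12 k8 k25 1 6)))))) (.c k250 (.q k10 [(.s k17 k34 4 (.s k25 k29 1 (.s k12 k38 6 (.s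
  k8 k4 1 (.d k42 k59 k63 4 6))))), (.s k17 k34 4 (.s k29 k25 1 (.s k149 k213 7 (.s k89 k209 9 (.s
  k93 k81 1 (.d k221 k157 k153 7 9)))))), (.s k63 k42 6 (.s k55 k59 1 (.s k149 k213 7 (.s k102 k196
  12 (.s k68 k119 4 (.d k204 k136 k153 9 14))))))] (.c k25 (.l (.s k17 k34 4 (.s k63 k42 6 (.s k59
  k55 1 (.s k149 k213 7 (.s k106 k192 14 (.d k153 k221 k200 9 12))))))) (.c k102 (.l (.s k34 k17 4
  (.s k42 k63 6 (.s k38 k46 1 (.s k4 k55 4 (.d k12 k8 k25 1 6)))))) .n))) .n))))) (.c k175 (.l (.s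
  k160 k80 11 (.s k17 k34 4 (.s k25 k29 1 (.s k12 k38 6 (.s k8 k4 1 (.d k42 k59 k63 4 6))))))) (.c
  k250 (.q k10 [(.s k17 k34 4 (.s k25 k29 1 (.s k12 k38 6 (.s k8 k4 1 (.d k42 k59 k63 4 6))))), (.s
  k17 k34 4 (.s k29 k25 1 (.s k149 k213 7 (.s k89 k209 9 (.s k93 k81 1 (.d k221 k157 k153 7 9)))))),
  (.s k63 k42 6 (.s k55 k59 1 (.s k149 k213 7 (.s k102 k196 12 (.s k68 k119 4 (.d k204 k136 k153 9
  14))))))] (.c k25 (.l (.s k17 k34 4 (.s k63 k42 6 (.s k59 k55 1 (.s k149 k213 7 (.s k106 k192 14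
  (.d k153 k221 k200 9 12))))))) (.c k102 (.l (.s k34 k17 4 (.s k42 k63 6 (.s k38 k46 1 (.s k4 k55 4
  (.d k12 k8 k25 1 6)))))) (.c k160 (.q k175 [(.s k17 k34 4 (.s k25 k29 1 (.s k12 k38 6 (.s k8 k4 1
  (.d k42 k59 k63 4 6))))), (.s k17 k34 4 (.s k29 k25 1 (.s k149 k213 7 (.s k89 k209 9 (.s k93 k81 1
  (.d k221 k157 k153 7 9)))))), (.s k63 k42 6 (.s k55 k59 1 (.s k149 k213 7 (.s k102 k196 12 (.s k68
  k119 4 (.d k204 k136 k153 9 14))))))] (.c k25 (.l (.s k17 k34 4 (.s k63 k42 6 (.s k59 k55 1 (.s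
  k149 k213 7 (.s k106 k192 14 (.d k153 k221 k200 9 12))))))) (.c k102 (.l (.s k34 k17 4 (.s k42 k63
  6 (.s k38 k46 1 (.s k4 k55 4 (.d k12 k8 k25 1 6)))))) .n))) (.c k175 (.l (.s k160 k80 11 (.s k17
  k34 4 (.s k25 k29 1 (.s k12 k38 6 (.s k8 k4 1 (.d k42 k59 k63 4 6))))))) .n))))) .n))))))) (.c
  k240 (.q k165 [(.s k17 k34 4 (.s k25 k29 1 (.s k12 k38 6 (.s k8 k4 1 (.d k42 k59 k63 4 6))))), (.s
  k5 k245 11 (.s k53 k37 3 (.s k149 k213 7 (.s k197 k101 11 (.d k133 k181 k69 3 7)))))] (.c k10 (.q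
  k250 [(.s k17 k34 4 (.s k25 k29 1 (.s k12 k38 6 (.s k8 k4 1 (.d k42 k59 k63 4 6))))), (.s k5 k245
  11 (.s k53 k37 3 (.s k149 k213 7 (.s k197 k101 11 (.d k133 k181 k69 3 7)))))] .n) (.c k250 (.q k10
  [(.s k17 k34 4 (.s k25 k29 1 (.s k12 k38 6 (.s k8 k4 1 (.d k42 k59 k63 4 6))))), (.s k17 k34 4 (.s
  k29 k25 1 (.s k149 k213 7 (.s k89 k209 9 (.s k93 k81 1 (.d k221 k157 k153 7 9)))))), (.s k63 k42 6
  (.s k55 k59 1 (.s k149 k213 7 (.s k102 k196 12 (.s k68 k119 4 (.d k204 k136 k153 9 14))))))] (.c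
  k25 (.l (.s k17 k34 4 (.s k63 k42 6 (.s k59 k55 1 (.s k149 k213 7 (.s k106 k192 14 (.d k153 k221
  k200 9 12))))))) (.c k102 (.l (.s k34 k17 4 (.s k42 k63 6 (.s k38 k46 1 (.s k4 k55 4 (.d k12 k8
  k25 1 6)))))) (.c k245 (.q k255 [(.s k17 k34 4 (.s k119 k187 9 (.s k102 k68 4 (.d k153 k221 k204 9
  14)))), (.s k63 k42 6 (.s k127 k191 7 (.s k106 k64 6 (.d k149 k213 k192 7 14))))] .n) (.c k255 (.l
  (.s k245 k5 11 (.s k17 k34 4 (.s k25 k29 1 (.s k12 k38 6 (.s k8 k4 1 (.d k42 k59 k63 4 6)))))))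
  .n))))) .n))) (.c k250 (.q k10 [(.s k17 k34 4 (.s k25 k29 1 (.s k12 k38 6 (.s k8 k4 1 (.d k42 k59
  k63 4 6))))), (.s k17 k34 4 (.s k29 k25 1 (.s k149 k213 7 (.s k89 k209 9 (.s k93 k81 1 (.d k221
  k157 k153 7 9)))))), (.s k63 k42 6 (.s k55 k59 1 (.s k149 k213 7 (.s k102 k196 12 (.s k68 k119 4
  (.d k204 k136 k153 9 14))))))] (.c k25 (.l (.s k17 k34 4 (.s k63 k42 6 (.s k59 k55 1 (.s k149 k213
  7 (.s k106 k192 14 (.d k153 k221 k200 9 12))))))) (.c k102 (.l (.s k34 k17 4 (.s k42 k63 6 (.s k38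
  k46 1 (.s k4 k55 4 (.d k12 k8 k25 1 6)))))) (.c k165 (.q k240 [(.s k17 k34 4 (.s k25 k29 1 (.s k12
  k38 6 (.s k8 k4 1 (.d k42 k59 k63 4 6))))), (.s k17 k34 4 (.s k29 k25 1 (.s k149 k213 7 (.s k89
  k209 9 (.s k93 k81 1 (.d k221 k157 k153 7 9)))))), (.s k63 k42 6 (.s k55 k59 1 (.s k149 k213 7 (.s
  k102 k196 12 (.s k68 k119 4 (.d k204 k136 k153 9 14))))))] (.c k25 (.l (.s k17 k34 4 (.s k63 k42 6
  (.s k59 k55 1 (.s k149 k213 7 (.s k106 k192 14 (.d k153 k221 k200 9 12))))))) (.c k102 (.l (.s k34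
  k17 4 (.s k42 k63 6 (.s k38 k46 1 (.s k4 k55 4 (.d k12 k8 k25 1 6)))))) (.c k160 (.q k175 [(.s k17
  k34 4 (.s k25 k29 1 (.s k12 k38 6 (.s k8 k4 1 (.d k42 k59 k63 4 6))))), (.s k17 k34 4 (.s k29 k25
  1 (.s k149 k213 7 (.s k89 k209 9 (.s k93 k81 1 (.d k221 k157 k153 7 9)))))), (.s k63 k42 6 (.s k55
  k59 1 (.s k149 k213 7 (.s k102 k196 12 (.s k68 k119 4 (.d k204 k136 k153 9 14))))))] (.c k25 (.l
  (.s k17 k34 4 (.s k63 k42 6 (.s k59 k55 1 (.s k149 k213 7 (.s k106 k192 14 (.d k153 k221 k200 9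
  12))))))) (.c k102 (.l (.s k34 k17 4 (.s k42 k63 6 (.s k38 k46 1 (.s k4 k55 4 (.d k12 k8 k25 1
  6)))))) .n))) (.c k175 (.l (.s k160 k80 11 (.s k17 k34 4 (.s k25 k29 1 (.s k12 k38 6 (.s k8 k4 1
  (.d k42 k59 k63 4 6))))))) .n))))) (.c k240 (.q k165 [(.s k17 k34 4 (.s k25 k29 1 (.s k12 k38 6
  (.s k8 k4 1 (.d k42 k59 k63 4 6))))), (.s k17 k34 4 (.s k29 k25 1 (.s k149 k213 7 (.s k89 k209 9
  (.s k93 k81 1 (.d k221 k157 k153 7 9)))))), (.s k63 k42 6 (.s k55 k59 1 (.s k149 k213 7 (.s k102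
  k196 12 (.s k68 k119 4 (.d k204 k136 k153 9 14))))))] (.c k25 (.l (.s k17 k34 4 (.s k63 k42 6 (.s
  k59 k55 1 (.s k149 k213 7 (.s k106 k192 14 (.d k153 k221 k200 9 12))))))) (.c k102 (.l (.s k34 k17
  4 (.s k42 k63 6 (.s k38 k46 1 (.s k4 k55 4 (.d k12 k8 k25 1 6)))))) (.c k245 (.q k255 [(.s k17 k34
  4 (.s k119 k187 9 (.s k102 k68 4 (.d k153 k221 k204 9 14)))), (.s k63 k42 6 (.s k127 k191 7 (.s
  k106 k64 6 (.d k149 k213 k192 7 14))))] .n) (.c k255 (.l (.s k245 k5 11 (.s k17 k34 4 (.s k25 k29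
  1 (.s k12 k38 6 (.s k8 k4 1 (.d k42 k59 k63 4 6))))))) .n))))) .n))))) .n)))))))

def s15_170_91 : T TT 256 :=
  (.f k149 k213 7 (.q k243 [(.s k63 k42 6 (.s k81 k162 12 (.s k89 k93 1 (.s k29 k209 9 (.d k12 k166
  k46 14 4))))), (.s k63 k42 6 (.s k106 k192 14 (.s k127 k64 6 (.s k183 k123 9 (.s k166 k132 4 (.s
  k247 k4 12 (.d k255 k251 k191 1 7))))))), (.s k81 k162 12 (.s k89 k93 1 (.s k166 k12 14 (.s k4
  k247 12 (.s k55 k38 4 (.s k132 k183 4 (.d k196 k68 k102 7 12)))))))] (.c k12 (.l (.s k63 k42 6 (.s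
  k81 k162 12 (.s k89 k93 1 (.s k106 k192 14 (.d k123 k72 k183 4 9)))))) (.c k166 (.l (.s k63 k42 6
  (.s k106 k192 14 (.s k123 k183 9 (.s k89 k72 4 (.d k81 k93 k162 1 12)))))) .n))))

def s15_170_92 : T TT 256 :=
  (.q k1 [(.s k61 k41 5 (.s k149 k213 7 (.s k105 k193 13 (.s k125 k65 5 (.d k253 k189 k169 7
  13))))), (.s k3 k2 0 (.s k41 k61 5 (.s k22 k60 6 (.s k23 k20 0 (.d k63 k43 k42 5 6))))), (.s k3 k2
  0 (.s k63 k42 6 (.s k43 k23 5 (.s k149 k213 7 (.s k106 k192 14 (.d k169 k232 k253 8 13))))))] .n)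

def s15_170_93 : T TT 256 :=
  (.q k1 [(.s k61 k41 5 (.s k149 k213 7 (.s k105 k193 13 (.s k125 k65 5 (.d k253 k189 k169 7
  13))))), (.s k3 k2 0 (.s k41 k61 5 (.s k22 k60 6 (.s k23 k20 0 (.d k63 k43 k42 5 6))))), (.s k3 k2
  0 (.s k63 k42 6 (.s k43 k23 5 (.s k149 k213 7 (.s k106 k192 14 (.d k169 k232 k253 8 13))))))] .n)

def s15_170_94 : T TT 256 :=
  (.f k149 k213 7 (.q k252 [(.s k63 k42 6 (.s k84 k168 13 (.s k86 k87 0 (.s k23 k212 8 (.d k3 k169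
  k43 14 5))))), (.s k63 k42 6 (.s k106 k192 14 (.s k127 k64 6 (.s k189 k126 8 (.s k169 k129 5 (.s
  k253 k1 13 (.d k255 k254 k191 0 7))))))), (.s k84 k168 13 (.s k86 k87 0 (.s k169 k3 14 (.s k1 k253
  13 (.s k61 k41 5 (.s k129 k189 5 (.d k193 k65 k105 7 13)))))))] (.c k3 (.l (.s k63 k42 6 (.s k84
  k168 13 (.s k86 k87 0 (.s k106 k192 14 (.d k126 k66 k189 5 8)))))) (.c k169 (.l (.s k63 k42 6 (.s
  k106 k192 14 (.s k126 k189 8 (.s k86 k66 5 (.d k84 k87 k168 0 13)))))) .n))))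

def s15_170_95 : T TT 256 :=
  (.f k149 k213 7 (.q k51 [(.s k17 k34 4 (.s k25 k29 1 (.s k12 k38 6 (.s k8 k4 1 (.d k42 k59 k63 4
  6))))), (.s k17 k34 4 (.s k29 k25 1 (.s k89 k209 9 (.s k93 k81 1 (.d k221 k157 k153 7 9))))), (.s
  k63 k42 6 (.s k55 k59 1 (.s k102 k196 12 (.s k68 k119 4 (.d k204 k136 k153 9 14)))))] (.c k25 (.l
  (.s k17 k34 4 (.s k63 k42 6 (.s k59 k55 1 (.s k106 k192 14 (.d k153 k221 k200 9 12)))))) (.c k102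
  (.l (.s k34 k17 4 (.s k42 k63 6 (.s k38 k46 1 (.s k4 k55 4 (.d k12 k8 k25 1 6)))))) (.c k175 (.q
  k255 [(.s k63 k42 6 (.s k106 k192 14 (.d k127 k64 k191 6 7))), (.s k17 k34 4 (.s k119 k187 9 (.s
  k102 k68 4 (.d k153 k221 k204 9 14))))] (.c k160 (.q k165 [(.s k63 k42 6 (.s k106 k192 14 (.d k127
  k64 k191 6 7))), (.s k5 k245 11 (.s k53 k37 3 (.s k133 k181 3 (.d k197 k69 k101 7 11))))] (.c k133
  (.l (.s k63 k42 6 (.s k127 k191 7 (.d k106 k64 k192 6 14)))) .n)) (.c k165 (.q k160 [(.s k63 k42 6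
  (.s k106 k192 14 (.d k127 k64 k191 6 7))), (.s k17 k34 4 (.s k119 k187 9 (.s k102 k68 4 (.d k153
  k221 k204 9 14))))] (.c k90 (.l (.s k240 k80 11 (.s k63 k42 6 (.s k106 k192 14 (.d k127 k64 k191 6
  7))))) (.c k240 (.q k90 [(.s k63 k42 6 (.s k127 k191 7 (.d k106 k64 k192 6 14))), (.s k17 k34 4
  (.s k119 k187 9 (.s k102 k68 4 (.d k153 k221 k204 9 14))))] .n) .n))) .n))) (.c k255 (.q k175 [(.s
  k17 k34 4 (.s k25 k29 1 (.s k12 k38 6 (.s k8 k4 1 (.d k42 k59 k63 4 6))))), (.s k17 k34 4 (.s k29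
  k25 1 (.s k89 k209 9 (.s k93 k81 1 (.d k221 k157 k153 7 9))))), (.s k63 k42 6 (.s k55 k59 1 (.s
  k102 k196 12 (.s k68 k119 4 (.d k204 k136 k153 9 14)))))] (.c k25 (.l (.s k17 k34 4 (.s k63 k42 6
  (.s k59 k55 1 (.s k153 k221 9 (.d k106 k200 k192 12 14)))))) (.c k102 (.l (.s k34 k17 4 (.s k42
  k63 6 (.s k38 k46 1 (.s k4 k55 4 (.d k12 k8 k25 1 6)))))) (.c k192 (.q k234 [(.s k17 k34 4 (.s k25
  k29 1 (.s k12 k38 6 (.s k8 k4 1 (.d k42 k59 k63 4 6))))), (.s k17 k34 4 (.s k29 k25 1 (.s k89 k209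
  9 (.s k93 k81 1 (.d k221 k157 k153 7 9))))), (.s k63 k42 6 (.s k55 k59 1 (.s k102 k196 12 (.s k68
  k119 4 (.d k204 k136 k153 9 14)))))] (.c k25 (.l (.s k17 k34 4 (.s k63 k42 6 (.s k153 k221 9 (.s
  k157 k145 1 (.d k204 k102 k110 14 12)))))) (.c k74 (.q k133 [(.s k17 k34 4 (.s k25 k29 1 (.s k12
  k38 6 (.s k8 k4 1 (.d k42 k59 k63 4 6))))), (.s k165 k181 3 (.s k5 k245 11 (.s k53 k37 3 (.d k197
  k69 k101 7 11))))] .n) (.c k102 (.l (.s k34 k17 4 (.s k42 k63 6 (.s k38 k46 1 (.s k4 k55 4 (.d k12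
  k8 k25 1 6)))))) (.c k133 (.q k74 [(.s k17 k34 4 (.s k25 k29 1 (.s k12 k38 6 (.s k8 k4 1 (.d k42
  k59 k63 4 6))))), (.s k17 k34 4 (.s k29 k25 1 (.s k89 k209 9 (.s k93 k81 1 (.d k221 k157 k153 7
  9))))), (.s k63 k42 6 (.s k55 k59 1 (.s k102 k196 12 (.s k68 k119 4 (.d k204 k136 k153 9 14)))))]
  (.c k25 (.l (.s k17 k34 4 (.s k63 k42 6 (.s k153 k221 9 (.s k157 k145 1 (.d k204 k102 k110 14
  12)))))) (.c k102 (.l (.s k34 k17 4 (.s k42 k63 6 (.s k38 k46 1 (.s k4 k55 4 (.d k12 k8 k25 1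
  6)))))) .n))) .n))))) (.c k234 (.q k192 [(.d k63 k42 k106 6 14)] (.c k42 (.l (.s k106 k63 14 (.d
  k64 k127 k128 6 7))) (.c k63 (.l (.s k17 k34 4 (.s k145 k98 12 (.d k153 k157 k221 1 9)))) (.c k106
  (.l (.s k42 k63 6 (.s k17 k34 4 (.s k145 k98 12 (.d k153 k157 k221 1 9))))) .n)))) .n)))))
  .n))))))

def s15_170_96 : T TT 256 :=
  (.q k1 [(.s k61 k41 5 (.s k149 k213 7 (.s k105 k193 13 (.s k125 k65 5 (.d k253 k189 k169 7
  13))))), (.s k3 k2 0 (.s k41 k61 5 (.s k22 k60 6 (.s k23 k20 0 (.d k63 k43 k42 5 6))))), (.s k3 k2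
  0 (.s k63 k42 6 (.s k43 k23 5 (.s k149 k213 7 (.s k106 k192 14 (.d k169 k232 k253 8 13))))))] .n)

def s15_170_97 : T TT 256 :=
  (.q k1 [(.s k41 k61 5 (.s k42 k63 6 (.s k40 k43 0 (.s k60 k20 5 (.d k3 k2 k22 0 6))))), (.s k61
  k41 5 (.s k149 k213 7 (.s k105 k193 13 (.s k125 k65 5 (.d k253 k189 k169 7 13))))), (.s k3 k2 0
  (.s k63 k42 6 (.s k43 k23 5 (.s k149 k213 7 (.s k106 k192 14 (.d k169 k232 k253 8 13))))))] .n)

def s15_170_98 : T TT 256 :=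
  (.q k1 [(.s k61 k41 5 (.s k149 k213 7 (.s k105 k193 13 (.s k125 k65 5 (.d k253 k189 k169 7
  13))))), (.s k3 k2 0 (.s k41 k61 5 (.s k22 k60 6 (.s k23 k20 0 (.d k63 k43 k42 5 6))))), (.s k3 k2
  0 (.s k63 k42 6 (.s k43 k23 5 (.s k149 k213 7 (.s k106 k192 14 (.d k169 k232 k253 8 13))))))] .n)

def s15_170_99 : T TT 256 :=
  (.q k1 [(.s k61 k41 5 (.s k149 k213 7 (.s k105 k193 13 (.s k125 k65 5 (.d k253 k189 k169 7
  13))))), (.s k3 k2 0 (.s k41 k61 5 (.s k22 k60 6 (.s k23 k20 0 (.d k63 k43 k42 5 6))))), (.s k3 k2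
  0 (.s k63 k42 6 (.s k43 k23 5 (.s k149 k213 7 (.s k106 k192 14 (.d k169 k232 k253 8 13))))))] .n)

def s15_170_100 : T TT 256 :=
  (.q k1 [(.s k61 k41 5 (.s k149 k213 7 (.s k105 k193 13 (.s k125 k65 5 (.d k253 k189 k169 7
  13))))), (.s k3 k2 0 (.s k41 k61 5 (.s k22 k60 6 (.s k23 k20 0 (.d k63 k43 k42 5 6))))), (.s k3 k2
  0 (.s k63 k42 6 (.s k43 k23 5 (.s k149 k213 7 (.s k106 k192 14 (.d k169 k232 k253 8 13))))))] .n)

def s15_170_101 : T TT 256 :=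
  (.f k149 k213 7 (.q k16 [(.s k154 k223 10 (.s k144 k159 2 (.s k208 k80 7 (.d k31 k26 k90 2 10)))),
  (.s k63 k42 6 (.s k106 k192 14 (.s k154 k223 10 (.s k58 k202 11 (.d k48 k32 k53 3 2)))))] (.c k32
  (.q k239 [(.s k154 k223 10 (.s k144 k159 2 (.s k208 k80 7 (.d k31 k26 k90 2 10)))), (.s k63 k42 6
  (.s k106 k192 14 (.s k127 k64 6 (.s k223 k154 10 (.d k255 k207 k191 3 7)))))] (.c k154 (.l (.s k31
  k26 2 (.s k63 k42 6 (.s k90 k208 10 (.s k80 k95 2 (.s k106 k192 14 (.s k240 k160 11 (.d k122 k74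
  k181 3 10)))))))) (.c k223 (.l (.s k31 k26 2 (.s k63 k42 6 (.s k208 k90 10 (.s k80 k144 7 (.s k240
  k160 11 (.d k192 k224 k106 3 14))))))) .n))) (.c k154 (.l (.s k31 k26 2 (.s k63 k42 6 (.s k90 k208
  10 (.s k80 k95 2 (.s k106 k192 14 (.s k240 k160 11 (.d k122 k74 k181 3 10)))))))) (.c k208 (.l (.s
  k26 k31 2 (.s k63 k42 6 (.s k106 k192 14 (.s k154 k223 10 (.s k218 k90 7 (.s k58 k202 11 (.d k48
  k53 k32 2 3)))))))) (.c k218 (.l (.s k31 k26 2 (.s k90 k208 10 (.s k223 k154 10 (.d k95 k80 k159 2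
  7))))) (.c k223 (.l (.s k31 k26 2 (.s k63 k42 6 (.s k208 k90 10 (.s k80 k144 7 (.s k240 k160 11
  (.d k192 k106 k224 14 3))))))) (.c k239 (.l (.s k32 k48 3 (.s k154 k223 10 (.s k144 k159 2 (.s
  k208 k80 7 (.d k31 k26 k90 2 10)))))) .n))))))))

def s15_170_102 : T TT 256 :=
  (.q k17 [(.s k29 k25 1 (.s k149 k213 7 (.s k89 k209 9 (.s k93 k81 1 (.d k221 k157 k153 7 9))))),
  (.s k25 k29 1 (.s k42 k63 6 (.s k8 k59 4 (.s k12 k4 1 (.d k51 k34 k38 4 6))))), (.s k63 k42 6 (.s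
  k149 k213 7 (.s k106 k192 14 (.s k153 k221 9 (.s k59 k200 12 (.d k51 k34 k55 4 1))))))] (.c k34
  (.q k238 [(.s k29 k25 1 (.s k149 k213 7 (.s k89 k209 9 (.s k93 k81 1 (.d k221 k157 k153 7 9))))),
  (.s k63 k42 6 (.s k149 k213 7 (.s k106 k192 14 (.s k127 k64 6 (.s k221 k153 9 (.d k255 k204 k191 4
  7)))))), (.s k29 k25 1 (.s k63 k42 6 (.s k221 k153 9 (.s k157 k93 7 (.d k204 k255 k110 4 12)))))]
  (.c k153 (.l (.s k29 k25 1 (.s k63 k42 6 (.s k149 k213 7 (.s k89 k209 9 (.s k81 k93 1 (.s k243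
  k162 12 (.d k12 k46 k166 4 14)))))))) (.c k221 (.l (.s k29 k25 1 (.s k63 k42 6 (.s k149 k213 7 (.s
  k209 k89 9 (.s k81 k145 7 (.s k243 k162 12 (.d k192 k226 k106 4 14)))))))) .n))) (.c k238 (.l (.s
  k34 k51 4 (.s k29 k25 1 (.s k149 k213 7 (.s k89 k209 9 (.s k93 k81 1 (.d k221 k153 k157 9 7)))))))
  .n)))

def s15_170_103 : T TT 256 :=
  (.q k1 [(.s k61 k41 5 (.s k149 k213 7 (.s k105 k193 13 (.s k125 k65 5 (.d k253 k189 k169 7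
  13))))), (.s k3 k2 0 (.s k41 k61 5 (.s k22 k60 6 (.s k23 k20 0 (.d k63 k43 k42 5 6))))), (.s k3 k2
  0 (.s k63 k42 6 (.s k43 k23 5 (.s k149 k213 7 (.s k106 k192 14 (.d k169 k232 k253 8 13))))))] .n)

def s15_170_104 : T TT 256 :=
  (.q k1 [(.s k61 k41 5 (.s k149 k213 7 (.s k105 k193 13 (.s k125 k65 5 (.d k253 k189 k169 7
  13))))), (.s k3 k2 0 (.s k41 k61 5 (.s k22 k60 6 (.s k23 k20 0 (.d k63 k43 k42 5 6))))), (.s k3 k2
  0 (.s k63 k42 6 (.s k43 k23 5 (.s k149 k213 7 (.s k106 k192 14 (.d k169 k232 k253 8 13))))))] .n)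

def s15_170_105 : T TT 256 :=
  (.f k149 k213 7 (.q k20 [(.s k23 k22 0 (.s k86 k212 8 (.s k87 k84 0 (.d k215 k151 k150 7 8)))),
  (.s k22 k23 0 (.s k42 k63 6 (.s k2 k62 5 (.s k3 k1 0 (.d k60 k40 k41 5 6))))), (.s k63 k42 6 (.s
  k106 k192 14 (.s k150 k215 8 (.s k62 k194 13 (.d k60 k40 k61 5 0)))))] (.c k40 (.q k235 [(.s k23
  k22 0 (.s k86 k212 8 (.s k87 k84 0 (.d k215 k151 k150 7 8)))), (.s k63 k42 6 (.s k106 k192 14 (.s
  k127 k64 6 (.s k215 k150 8 (.d k255 k195 k191 5 7)))))] (.c k150 (.l (.s k23 k22 0 (.s k63 k42 6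
  (.s k86 k212 8 (.s k84 k87 0 (.s k252 k168 13 (.d k3 k43 k169 5 14))))))) (.c k215 (.l (.s k23 k22
  0 (.s k63 k42 6 (.s k212 k86 8 (.s k84 k148 7 (.s k252 k168 13 (.d k192 k232 k106 5 14)))))))
  .n))) (.c k235 (.l (.s k40 k60 5 (.s k23 k22 0 (.s k86 k212 8 (.s k87 k84 0 (.d k215 k150 k151 8
  7)))))) .n))))

def s15_170_106 : T TT 256 :=
  (.q k20 [(.s k23 k22 0 (.s k149 k213 7 (.s k86 k212 8 (.s k87 k84 0 (.d k215 k151 k150 7 8))))),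
  (.s k22 k23 0 (.s k60 k40 5 (.s k41 k3 6 (.s k61 k1 5 (.d k63 k42 k62 6 0))))), (.s k60 k40 5 (.s
  k149 k213 7 (.s k150 k215 8 (.s k105 k195 14 (.s k61 k193 13 (.d k63 k42 k62 6 0))))))] (.c k42
  (.q k234 [(.s k149 k213 7 (.s k150 k215 8 (.s k148 k151 0 (.s k212 k84 7 (.d k23 k22 k86 0 8))))),
  (.s k60 k40 5 (.s k150 k215 8 (.s k105 k195 14 (.s k125 k65 5 (.s k213 k149 7 (.d k255 k192 k190 6
  8)))))), (.s k22 k23 0 (.s k60 k40 5 (.s k41 k3 6 (.s k1 k61 5 (.s k150 k215 8 (.s k105 k195 14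
  (.d k169 k233 k253 7 13))))))), (.s k60 k40 5 (.s k213 k149 7 (.s k192 k255 6 (.s k128 k64 7 (.s
  k148 k104 13 (.s k84 k212 7 (.d k168 k188 k252 5 13)))))))] .n) (.c k234 (.l (.s k42 k63 6 (.s k22
  k23 0 (.s k2 k62 5 (.s k3 k1 0 (.d k60 k40 k41 5 6)))))) .n)))

def s15_170_107 : T TT 256 :=
  (.q k1 [(.s k61 k41 5 (.s k149 k213 7 (.s k105 k193 13 (.s k125 k65 5 (.d k253 k189 k169 7
  13))))), (.s k3 k2 0 (.s k41 k61 5 (.s k22 k60 6 (.s k23 k20 0 (.d k63 k43 k42 5 6))))), (.s k3 k2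
  0 (.s k63 k42 6 (.s k43 k23 5 (.s k149 k213 7 (.s k106 k192 14 (.d k169 k232 k253 8 13))))))] .n)

def s15_170_108 : T TT 256 :=
  (.q k1 [(.s k61 k41 5 (.s k149 k213 7 (.s k105 k193 13 (.s k125 k65 5 (.d k253 k189 k169 7
  13))))), (.s k3 k2 0 (.s k41 k61 5 (.s k22 k60 6 (.s k23 k20 0 (.d k63 k43 k42 5 6))))), (.s k3 k2
  0 (.s k63 k42 6 (.s k43 k23 5 (.s k149 k213 7 (.s k106 k192 14 (.d k169 k232 k253 8 13))))))] .n)

def s15_170_109 : T TT 256 :=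
  (.q k1 [(.s k61 k41 5 (.s k149 k213 7 (.s k105 k193 13 (.s k125 k65 5 (.d k253 k189 k169 7
  13))))), (.s k3 k2 0 (.s k41 k61 5 (.s k22 k60 6 (.s k23 k20 0 (.d k63 k43 k42 5 6))))), (.s k3 k2
  0 (.s k63 k42 6 (.s k43 k23 5 (.s k149 k213 7 (.s k106 k192 14 (.d k169 k232 k253 8 13))))))] .n)

def s15_170_110 : T TT 256 :=
  (.q k1 [(.s k61 k41 5 (.s k149 k213 7 (.s k105 k193 13 (.s k125 k65 5 (.d k253 k189 k169 7
  13))))), (.s k3 k2 0 (.s k41 k61 5 (.s k22 k60 6 (.s k23 k20 0 (.d k63 k43 k42 5 6))))), (.s k3 k2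
  0 (.s k63 k42 6 (.s k43 k23 5 (.s k149 k213 7 (.s k106 k192 14 (.d k169 k232 k253 8 13))))))] .n)

def s15_170_111 : T TT 256 :=
  (.q k1 [(.s k61 k41 5 (.s k149 k213 7 (.s k105 k193 13 (.s k125 k65 5 (.d k253 k189 k169 7
  13))))), (.s k3 k2 0 (.s k41 k61 5 (.s k22 k60 6 (.s k23 k20 0 (.d k63 k43 k42 5 6))))), (.s k3 k2
  0 (.s k63 k42 6 (.s k43 k23 5 (.s k149 k213 7 (.s k106 k192 14 (.d k169 k232 k253 8 13))))))] .n)

def s15_170_112 : T TT 256 :=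
  (.q k1 [(.s k61 k41 5 (.s k149 k213 7 (.s k105 k193 13 (.s k125 k65 5 (.d k253 k189 k169 7
  13))))), (.s k3 k2 0 (.s k41 k61 5 (.s k22 k60 6 (.s k23 k20 0 (.d k63 k43 k42 5 6))))), (.s k3 k2
  0 (.s k63 k42 6 (.s k43 k23 5 (.s k149 k213 7 (.s k106 k192 14 (.d k169 k232 k253 8 13))))))] .n)

def s15_170_113 : T TT 256 :=
  (.q k1 [(.s k61 k41 5 (.s k149 k213 7 (.s k105 k193 13 (.s k125 k65 5 (.d k253 k189 k169 7
  13))))), (.s k3 k2 0 (.s k41 k61 5 (.s k22 k60 6 (.s k23 k20 0 (.d k63 k43 k42 5 6))))), (.s k3 k2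
  0 (.s k63 k42 6 (.s k43 k23 5 (.s k149 k213 7 (.s k106 k192 14 (.d k169 k232 k253 8 13))))))] .n)

def s15_170_114 : T TT 256 :=
  (.q k1 [(.s k61 k41 5 (.s k149 k213 7 (.s k105 k193 13 (.s k125 k65 5 (.d k253 k189 k169 7
  13))))), (.s k3 k2 0 (.s k41 k61 5 (.s k22 k60 6 (.s k23 k20 0 (.d k63 k43 k42 5 6))))), (.s k3 k2
  0 (.s k63 k42 6 (.s k43 k23 5 (.s k149 k213 7 (.s k106 k192 14 (.d k169 k232 k253 8 13))))))] .n)

def s15_170_115 : T TT 256 :=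
  (.q k1 [(.s k61 k41 5 (.s k149 k213 7 (.s k105 k193 13 (.s k125 k65 5 (.d k253 k189 k169 7
  13))))), (.s k3 k2 0 (.s k41 k61 5 (.s k22 k60 6 (.s k23 k20 0 (.d k63 k43 k42 5 6))))), (.s k3 k2
  0 (.s k63 k42 6 (.s k43 k23 5 (.s k149 k213 7 (.s k106 k192 14 (.d k169 k232 k253 8 13))))))] .n)

def s15_170_116 : T TT 256 :=
  (.q k1 [(.s k61 k41 5 (.s k149 k213 7 (.s k105 k193 13 (.s k125 k65 5 (.d k253 k189 k169 7
  13))))), (.s k3 k2 0 (.s k41 k61 5 (.s k22 k60 6 (.s k23 k20 0 (.d k63 k43 k42 5 6))))), (.s k3 k2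
  0 (.s k63 k42 6 (.s k43 k23 5 (.s k149 k213 7 (.s k106 k192 14 (.d k169 k232 k253 8 13))))))] .n)

def s15_170_117 : T TT 256 :=
  (.q k1 [(.s k61 k41 5 (.s k149 k213 7 (.s k105 k193 13 (.s k125 k65 5 (.d k253 k189 k169 7
  13))))), (.s k3 k2 0 (.s k41 k61 5 (.s k22 k60 6 (.s k23 k20 0 (.d k63 k43 k42 5 6))))), (.s k3 k2
  0 (.s k63 k42 6 (.s k43 k23 5 (.s k149 k213 7 (.s k106 k192 14 (.d k169 k232 k253 8 13))))))] .n)

def s15_170_118 : T TT 256 :=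
  (.q k1 [(.s k61 k41 5 (.s k149 k213 7 (.s k105 k193 13 (.s k125 k65 5 (.d k253 k189 k169 7
  13))))), (.s k3 k2 0 (.s k41 k61 5 (.s k22 k60 6 (.s k23 k20 0 (.d k63 k43 k42 5 6))))), (.s k3 k2
  0 (.s k63 k42 6 (.s k43 k23 5 (.s k149 k213 7 (.s k106 k192 14 (.d k169 k232 k253 8 13))))))] .n)

def s15_170_119 : T TT 256 :=
  (.q k1 [(.s k61 k41 5 (.s k149 k213 7 (.s k105 k193 13 (.s k125 k65 5 (.d k253 k189 k169 7
  13))))), (.s k3 k2 0 (.s k41 k61 5 (.s k22 k60 6 (.s k23 k20 0 (.d k63 k43 k42 5 6))))), (.s k3 k2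
  0 (.s k63 k42 6 (.s k43 k23 5 (.s k149 k213 7 (.s k106 k192 14 (.d k169 k232 k253 8 13))))))] .n)

def s15_170_120 : T TT 256 :=
  (.q k1 [(.s k61 k41 5 (.s k149 k213 7 (.s k105 k193 13 (.s k125 k65 5 (.d k253 k189 k169 7
  13))))), (.s k3 k2 0 (.s k41 k61 5 (.s k22 k60 6 (.s k23 k20 0 (.d k63 k43 k42 5 6))))), (.s k3 k2
  0 (.s k63 k42 6 (.s k43 k23 5 (.s k149 k213 7 (.s k106 k192 14 (.d k169 k232 k253 8 13))))))] .n)

def s15_170_121 : T TT 256 :=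
  (.q k1 [(.s k61 k41 5 (.s k149 k213 7 (.s k105 k193 13 (.s k125 k65 5 (.d k253 k189 k169 7
  13))))), (.s k3 k2 0 (.s k41 k61 5 (.s k22 k60 6 (.s k23 k20 0 (.d k63 k43 k42 5 6))))), (.s k3 k2
  0 (.s k63 k42 6 (.s k43 k23 5 (.s k149 k213 7 (.s k106 k192 14 (.d k169 k232 k253 8 13))))))] .n)

def s15_170_122 : T TT 256 :=
  (.q k1 [(.s k61 k41 5 (.s k149 k213 7 (.s k105 k193 13 (.s k125 k65 5 (.d k253 k189 k169 7
  13))))), (.s k3 k2 0 (.s k41 k61 5 (.s k22 k60 6 (.s k23 k20 0 (.d k63 k43 k42 5 6))))), (.s k3 k2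
  0 (.s k63 k42 6 (.s k43 k23 5 (.s k149 k213 7 (.s k106 k192 14 (.d k169 k232 k253 8 13))))))] .n)

def s15_170_123 : T TT 256 :=
  (.q k1 [(.s k61 k41 5 (.s k149 k213 7 (.s k105 k193 13 (.s k125 k65 5 (.d k253 k189 k169 7
  13))))), (.s k3 k2 0 (.s k41 k61 5 (.s k22 k60 6 (.s k23 k20 0 (.d k63 k43 k42 5 6))))), (.s k3 k2
  0 (.s k63 k42 6 (.s k43 k23 5 (.s k149 k213 7 (.s k106 k192 14 (.d k169 k232 k253 8 13))))))] .n)

def s15_170_124 : T TT 256 :=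
  (.q k1 [(.s k61 k41 5 (.s k149 k213 7 (.s k105 k193 13 (.s k125 k65 5 (.d k253 k189 k169 7
  13))))), (.s k3 k2 0 (.s k41 k61 5 (.s k22 k60 6 (.s k23 k20 0 (.d k63 k43 k42 5 6))))), (.s k3 k2
  0 (.s k63 k42 6 (.s k43 k23 5 (.s k149 k213 7 (.s k106 k192 14 (.d k169 k232 k253 8 13))))))] .n)

def s15_170_125 : T TT 256 :=
  (.q k1 [(.s k61 k41 5 (.s k149 k213 7 (.s k169 k253 13 (.s k129 k189 5 (.d k193 k65 k105 7
  13))))), (.s k3 k2 0 (.s k63 k42 6 (.s k23 k43 5 (.s k22 k20 0 (.d k41 k61 k60 5 6))))), (.s k3 k2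
  0 (.s k63 k42 6 (.s k43 k23 5 (.s k149 k213 7 (.s k106 k192 14 (.d k169 k232 k253 8 13))))))] .n)

def s15_170_126 : T TT 256 :=
  (.q k1 [(.s k61 k41 5 (.s k149 k213 7 (.s k105 k193 13 (.s k125 k65 5 (.d k253 k189 k169 7
  13))))), (.s k3 k2 0 (.s k41 k61 5 (.s k22 k60 6 (.s k23 k20 0 (.d k63 k43 k42 5 6))))), (.s k3 k2
  0 (.s k63 k42 6 (.s k43 k23 5 (.s k149 k213 7 (.s k106 k192 14 (.d k169 k232 k253 8 13))))))] .n)

def s15_170_127 : T TT 256 :=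
  (.q k1 [(.s k61 k41 5 (.s k149 k213 7 (.s k105 k193 13 (.s k125 k65 5 (.d k253 k189 k169 7
  13))))), (.s k3 k2 0 (.s k41 k61 5 (.s k22 k60 6 (.s k23 k20 0 (.d k63 k43 k42 5 6))))), (.s k3 k2
  0 (.s k63 k42 6 (.s k43 k23 5 (.s k149 k213 7 (.s k106 k192 14 (.d k169 k232 k253 8 13))))))] .n)

def s15_170_128 : T TT 256 :=
  (.q k1 [(.s k61 k41 5 (.s k149 k213 7 (.s k105 k193 13 (.s k125 k65 5 (.d k253 k189 k169 7
  13))))), (.s k3 k2 0 (.s k41 k61 5 (.s k22 k60 6 (.s k23 k20 0 (.d k63 k43 k42 5 6))))), (.s k3 k2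
  0 (.s k63 k42 6 (.s k43 k23 5 (.s k149 k213 7 (.s k106 k192 14 (.d k169 k232 k253 8 13))))))] (.c
  k149 (.q k191 [(.s k3 k2 0 (.s k169 k253 13 (.s k86 k252 14 (.s k87 k84 0 (.s k255 k171 13 (.d k63
  k42 k127 6 7)))))), (.s k41 k61 5 (.s k42 k63 6 (.s k40 k43 0 (.s k60 k20 5 (.d k3 k2 k22 0
  6))))), (.s k61 k41 5 (.s k63 k42 6 (.s k253 k169 13 (.s k189 k125 7 (.s k252 k126 8 (.d k255 k127
  k254 7 0))))))] (.c k42 (.l (.s k3 k2 0 (.s k41 k61 5 (.s k22 k60 6 (.s k20 k23 0 (.s k150 k215 8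
  (.s k86 k214 7 (.d k169 k253 k252 13 14)))))))) (.c k63 (.l (.s k3 k2 0 (.s k41 k61 5 (.s k60 k22
  6 (.s k20 k40 5 (.s k150 k215 8 (.s k105 k195 14 (.d k169 k233 k253 7 13)))))))) .n))) (.c k191
  (.l (.s k149 k213 7 (.s k61 k41 5 (.s k105 k193 13 (.s k125 k65 5 (.d k253 k189 k169 7 13))))))
  .n)))

def s15_170_129 : T TT 256 :=
  (.q k1 [(.s k61 k41 5 (.s k149 k213 7 (.s k105 k193 13 (.s k125 k65 5 (.d k253 k189 k169 7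
  13))))), (.s k3 k2 0 (.s k41 k61 5 (.s k22 k60 6 (.s k23 k20 0 (.d k63 k43 k42 5 6))))), (.s k3 k2
  0 (.s k63 k42 6 (.s k43 k23 5 (.s k149 k213 7 (.s k106 k192 14 (.d k169 k232 k253 8 13))))))] .n)

def s15_170_130 : T TT 256 :=
  (.q k150 [(.s k20 k215 8 (.s k23 k22 0 (.s k149 k213 7 (.s k148 k151 0 (.d k212 k84 k86 7 8))))),
  (.s k63 k42 6 (.s k149 k213 7 (.s k106 k192 14 (.s k62 k194 13 (.s k60 k61 0 (.s k151 k148 0 (.d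
  k195 k107 k105 13 14))))))), (.s k20 k215 8 (.s k60 k40 5 (.s k63 k42 6 (.s k61 k62 0 (.s k41 k1 5
  (.d k22 k23 k3 0 6))))))] .n)

def s15_170_131 : T TT 256 :=
  (.q k1 [(.s k61 k41 5 (.s k149 k213 7 (.s k105 k193 13 (.s k125 k65 5 (.d k253 k189 k169 7
  13))))), (.s k3 k2 0 (.s k41 k61 5 (.s k22 k60 6 (.s k23 k20 0 (.d k63 k43 k42 5 6))))), (.s k3 k2
  0 (.s k63 k42 6 (.s k43 k23 5 (.s k149 k213 7 (.s k106 k192 14 (.d k169 k232 k253 8 13))))))] .n)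

def s15_170_132 : T TT 256 :=
  (.q k1 [(.s k61 k41 5 (.s k149 k213 7 (.s k105 k193 13 (.s k125 k65 5 (.d k253 k189 k169 7
  13))))), (.s k3 k2 0 (.s k41 k61 5 (.s k22 k60 6 (.s k23 k20 0 (.d k63 k43 k42 5 6))))), (.s k3 k2
  0 (.s k63 k42 6 (.s k43 k23 5 (.s k149 k213 7 (.s k106 k192 14 (.d k169 k232 k253 8 13))))))] .n)

def s15_170_133 : T TT 256 :=
  (.f k149 k213 7 (.q k192 [(.d k63 k42 k106 6 14)] (.c k42 (.l (.s k64 k128 7 (.d k106 k127 k63 6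
  14))) (.c k63 (.q k31 [(.s k16 k26 2 (.s k90 k208 10 (.s k95 k80 2 (.d k223 k159 k154 7 10)))),
  (.s k64 k128 7 (.s k208 k90 10 (.s k240 k224 3 (.s k80 k160 11 (.s k96 k112 3 (.d k144 k16 k48 7
  11)))))), (.s k16 k26 2 (.s k48 k32 3 (.s k144 k96 11 (.d k154 k159 k223 2 10)))), (.s k64 k128 7
  (.s k90 k208 10 (.s k80 k95 2 (.s k106 k127 6 (.s k74 k122 3 (.s k79 k69 2 (.d k112 k96 k101 3
  6)))))))] .n) (.c k106 (.q k90 [(.s k80 k95 2 (.s k240 k160 11 (.d k208 k224 k31 3 10))), (.s k31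
  k208 10 (.s k16 k26 2 (.s k48 k32 3 (.s k144 k96 11 (.d k154 k223 k159 10 2))))), (.s k64 k128 7
  (.s k80 k95 2 (.s k96 k112 3 (.s k48 k144 11 (.s k32 k16 3 (.d k160 k224 k240 7 11)))))), (.s k31
  k208 10 (.s k16 k26 2 (.s k95 k80 2 (.d k223 k159 k154 7 10))))] (.c k42 (.q k234 [(.s k80 k95 2
  (.s k240 k160 11 (.d k208 k224 k31 3 10))), (.s k31 k208 10 (.s k16 k26 2 (.s k48 k32 3 (.s k144
  k96 11 (.d k154 k223 k159 10 2))))), (.s k64 k128 7 (.s k80 k95 2 (.s k96 k112 3 (.s k48 k144 11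
  (.s k32 k16 3 (.d k160 k224 k240 7 11)))))), (.s k31 k208 10 (.s k16 k26 2 (.s k95 k80 2 (.d k223
  k159 k154 7 10))))] .n) (.c k234 (.l (.s k42 k63 6 (.s k80 k95 2 (.s k240 k160 11 (.d k208 k31
  k224 10 3))))) .n))) .n)))))

def s15_170_134 : T TT 256 :=
  (.q k1 [(.s k61 k41 5 (.s k149 k213 7 (.s k105 k193 13 (.s k125 k65 5 (.d k253 k189 k169 7
  13))))), (.s k3 k2 0 (.s k41 k61 5 (.s k22 k60 6 (.s k23 k20 0 (.d k63 k43 k42 5 6))))), (.s k3 k2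
  0 (.s k63 k42 6 (.s k43 k23 5 (.s k149 k213 7 (.s k106 k192 14 (.d k169 k232 k253 8 13))))))] .n)

def s15_170_135 : T TT 256 :=
  (.f k149 k213 7 (.q k195 [(.s k63 k42 6 (.s k151 k107 13 (.s k150 k148 0 (.s k20 k215 8 (.d k60
  k40 k105 5 14))))), (.s k65 k130 8 (.s k105 k125 5 (.s k193 k61 13 (.s k192 k194 0 (.s k64 k128 7
  (.d k106 k127 k63 6 14)))))), (.s k65 k130 8 (.s k105 k125 5 (.s k150 k60 14 (.s k20 k215 8 (.s
  k23 k22 0 (.s k148 k151 0 (.d k212 k84 k86 7 8)))))))] (.c k105 (.l (.s k63 k42 6 (.s k106 k192 14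
  (.s k127 k64 6 (.s k151 k107 13 (.s k150 k148 0 (.s k215 k20 8 (.d k255 k235 k191 5 7)))))))) (.c
  k150 (.l (.s k63 k42 6 (.s k106 k192 14 (.s k107 k151 13 (.s k105 k104 0 (.d k65 k125 k130 5
  8)))))) .n))))

def s15_170_136 : T TT 256 :=
  (.q k153 [(.s k17 k221 9 (.s k29 k25 1 (.s k149 k213 7 (.s k145 k157 1 (.d k209 k81 k89 7 9))))),
  (.s k63 k42 6 (.s k149 k213 7 (.s k106 k192 14 (.s k59 k200 12 (.s k51 k55 1 (.s k157 k145 1 (.d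
  k204 k110 k102 12 14))))))), (.s k17 k221 9 (.s k51 k34 4 (.s k63 k42 6 (.s k55 k59 1 (.s k38 k4 4
  (.d k25 k29 k12 1 6))))))] .n)

def s15_170_137 : T TT 256 :=
  (.q k1 [(.s k61 k41 5 (.s k149 k213 7 (.s k105 k193 13 (.s k125 k65 5 (.d k253 k189 k169 7
  13))))), (.s k3 k2 0 (.s k41 k61 5 (.s k22 k60 6 (.s k23 k20 0 (.d k63 k43 k42 5 6))))), (.s k3 k2
  0 (.s k63 k42 6 (.s k43 k23 5 (.s k149 k213 7 (.s k106 k192 14 (.d k169 k232 k253 8 13))))))] .n)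

def s15_170_138 : T TT 256 :=
  (.q k154 [(.s k16 k223 10 (.s k149 k213 7 (.s k144 k159 2 (.s k208 k80 7 (.d k31 k26 k90 2
  10))))), (.s k16 k223 10 (.s k48 k32 3 (.s k63 k42 6 (.s k58 k53 2 (.s k106 k202 11 (.s k64 k127 6
  (.d k192 k128 k149 7 14))))))), (.s k63 k42 6 (.s k149 k213 7 (.s k106 k192 14 (.s k58 k202 11 (.s
  k48 k53 2 (.s k159 k144 2 (.d k207 k111 k101 11 14)))))))] (.c k149 (.f k16 k223 10 (.l (.s k48
  k32 3 (.s k63 k42 6 (.s k53 k58 2 (.s k101 k207 14 (.s k117 k69 3 (.s k245 k181 7 (.d k5 k37 k165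
  3 11))))))))) .n))

def s15_170_139 : T TT 256 :=
  (.q k1 [(.s k61 k41 5 (.s k149 k213 7 (.s k105 k193 13 (.s k125 k65 5 (.d k253 k189 k169 7
  13))))), (.s k3 k2 0 (.s k41 k61 5 (.s k22 k60 6 (.s k23 k20 0 (.d k63 k43 k42 5 6))))), (.s k3 k2
  0 (.s k63 k42 6 (.s k43 k23 5 (.s k149 k213 7 (.s k106 k192 14 (.d k169 k232 k253 8 13))))))] .n)

def s15_170_140 : T TT 256 :=
  (.q k1 [(.s k61 k41 5 (.s k149 k213 7 (.s k105 k193 13 (.s k125 k65 5 (.d k253 k189 k169 7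
  13))))), (.s k3 k2 0 (.s k41 k61 5 (.s k22 k60 6 (.s k23 k20 0 (.d k63 k43 k42 5 6))))), (.s k3 k2
  0 (.s k63 k42 6 (.s k43 k23 5 (.s k149 k213 7 (.s k106 k192 14 (.d k169 k232 k253 8 13))))))] .n)

def s15_170_141 : T TT 256 :=
  (.f k149 k213 7 (.q k204 [(.s k63 k42 6 (.s k157 k110 12 (.s k153 k145 1 (.s k17 k221 9 (.d k51
  k34 k102 4 14))))), (.s k68 k136 9 (.s k102 k119 4 (.s k196 k55 12 (.s k192 k200 1 (.s k64 k128 7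
  (.d k106 k127 k63 6 14)))))), (.s k68 k136 9 (.s k102 k119 4 (.s k153 k51 14 (.s k17 k221 9 (.s
  k29 k25 1 (.s k145 k157 1 (.d k209 k81 k89 7 9)))))))] (.c k102 (.l (.s k63 k42 6 (.s k106 k192 14
  (.s k127 k64 6 (.s k157 k110 12 (.s k153 k145 1 (.s k221 k17 9 (.d k255 k238 k191 4 7)))))))) (.c
  k153 (.l (.s k63 k42 6 (.s k106 k192 14 (.s k110 k157 12 (.s k102 k98 1 (.d k68 k119 k136 4
  9)))))) .n))))

def s15_170_142 : T TT 256 :=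
  (.q k1 [(.s k61 k41 5 (.s k149 k213 7 (.s k105 k193 13 (.s k125 k65 5 (.d k253 k189 k169 7
  13))))), (.s k3 k2 0 (.s k41 k61 5 (.s k22 k60 6 (.s k23 k20 0 (.d k63 k43 k42 5 6))))), (.s k3 k2
  0 (.s k63 k42 6 (.s k43 k23 5 (.s k149 k213 7 (.s k106 k192 14 (.d k169 k232 k253 8 13))))))] .n)

def s15_170_143 : T TT 256 :=
  (.f k149 k213 7 (.q k207 [(.s k63 k42 6 (.s k159 k111 11 (.s k154 k144 2 (.s k16 k223 10 (.d k48
  k32 k101 3 14))))), (.s k69 k138 10 (.s k101 k117 3 (.s k197 k53 11 (.s k192 k202 2 (.s k106 k63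
  14 (.d k64 k128 k127 7 6)))))), (.s k69 k138 10 (.s k101 k117 3 (.s k154 k48 14 (.s k16 k223 10
  (.s k144 k159 2 (.s k208 k80 7 (.d k31 k26 k90 2 10)))))))] (.c k48 (.l (.s k63 k42 6 (.s k69 k138
  10 (.s k101 k117 3 (.s k106 k192 14 (.d k111 k96 k159 2 11)))))) (.c k101 (.l (.s k63 k42 6 (.s
  k106 k192 14 (.s k127 k64 6 (.s k159 k111 11 (.s k154 k144 2 (.s k223 k16 10 (.d k255 k239 k191 3
  7)))))))) (.c k154 (.l (.s k63 k42 6 (.s k106 k192 14 (.s k111 k159 11 (.s k101 k96 2 (.d k69 k117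
  k138 3 10)))))) .n)))))

def s15_170_144 : T TT 256 :=
  (.q k1 [(.s k61 k41 5 (.s k149 k213 7 (.s k105 k193 13 (.s k125 k65 5 (.d k253 k189 k169 7
  13))))), (.s k3 k2 0 (.s k41 k61 5 (.s k22 k60 6 (.s k23 k20 0 (.d k63 k43 k42 5 6))))), (.s k3 k2
  0 (.s k63 k42 6 (.s k43 k23 5 (.s k149 k213 7 (.s k106 k192 14 (.d k169 k232 k253 8 13))))))] .n)

def s15_170_145 : T TT 256 :=
  (.q k1 [(.s k61 k41 5 (.s k149 k213 7 (.s k105 k193 13 (.s k125 k65 5 (.d k253 k189 k169 7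
  13))))), (.s k3 k2 0 (.s k41 k61 5 (.s k22 k60 6 (.s k23 k20 0 (.d k63 k43 k42 5 6))))), (.s k3 k2
  0 (.s k63 k42 6 (.s k43 k23 5 (.s k149 k213 7 (.s k106 k192 14 (.d k169 k232 k253 8 13))))))] .n)

def s15_170_146 : T TT 256 :=
  (.q k1 [(.s k61 k41 5 (.s k149 k213 7 (.s k105 k193 13 (.s k125 k65 5 (.d k253 k189 k169 7
  13))))), (.s k3 k2 0 (.s k41 k61 5 (.s k22 k60 6 (.s k23 k20 0 (.d k63 k43 k42 5 6))))), (.s k3 k2
  0 (.s k63 k42 6 (.s k43 k23 5 (.s k149 k213 7 (.s k106 k192 14 (.d k169 k232 k253 8 13))))))] .n)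

def s15_170_147 : T TT 256 :=
  (.q k1 [(.s k61 k41 5 (.s k149 k213 7 (.s k105 k193 13 (.s k125 k65 5 (.d k253 k189 k169 7
  13))))), (.s k3 k2 0 (.s k41 k61 5 (.s k22 k60 6 (.s k23 k20 0 (.d k63 k43 k42 5 6))))), (.s k3 k2
  0 (.s k63 k42 6 (.s k43 k23 5 (.s k149 k213 7 (.s k106 k192 14 (.d k169 k232 k253 8 13))))))] .n)

def s15_170_148 : T TT 256 :=
  (.q k1 [(.s k61 k41 5 (.s k149 k213 7 (.s k105 k193 13 (.s k125 k65 5 (.d k253 k189 k169 7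
  13))))), (.s k3 k2 0 (.s k41 k61 5 (.s k22 k60 6 (.s k23 k20 0 (.d k63 k43 k42 5 6))))), (.s k3 k2
  0 (.s k63 k42 6 (.s k43 k23 5 (.s k149 k213 7 (.s k106 k192 14 (.d k169 k232 k253 8 13))))))] .n)

def s15_170_149 : T TT 256 :=
  (.q k3 [(.s k2 k1 0 (.s k42 k63 6 (.s k22 k62 5 (.s k60 k41 6 (.d k20 k23 k40 0 5))))), (.s k1 k2
  0 (.s k41 k61 5 (.s k60 k22 6 (.s k169 k253 13 (.s k105 k233 7 (.s k195 k150 14 (.d k65 k125 k130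
  5 8)))))))] (.c k1 (.q k4 [(.s k12 k8 1 (.s k63 k42 6 (.s k29 k46 4 (.s k25 k17 1 (.d k38 k55 k51
  4 6))))), (.s k12 k8 1 (.s k6 k9 2 (.s k166 k247 12 (.s k86 k246 11 (.s k84 k87 0 (.d k252 k168
  k169 13 14)))))), (.s k55 k38 4 (.s k63 k42 6 (.s k23 k43 5 (.s k7 k39 3 (.s k5 k6 0 (.s k22 k20 0
  (.d k37 k53 k52 3 4)))))))] (.c k128 (.q k191 [(.s k12 k8 1 (.s k63 k42 6 (.s k29 k46 4 (.s k25
  k17 1 (.d k38 k55 k51 4 6))))), (.s k12 k8 1 (.s k6 k9 2 (.s k166 k247 12 (.s k86 k246 11 (.s k84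
  k87 0 (.d k252 k168 k169 13 14)))))), (.s k55 k38 4 (.s k63 k42 6 (.s k247 k166 12 (.s k183 k119 7
  (.s k243 k123 9 (.d k255 k127 k251 7 1))))))] (.c k251 (.l (.s k38 k55 4 (.s k42 k63 6 (.s k34 k46
  1 (.s k51 k17 4 (.d k12 k8 k25 1 6)))))) .n)) (.c k191 (.q k128 [(.s k12 k8 1 (.s k192 k64 7 (.s
  k132 k72 9 (.s k68 k196 7 (.d k136 k140 k204 1 9))))), (.s k38 k55 4 (.s k42 k63 6 (.s k46 k34 1
  (.s k166 k247 12 (.s k64 k192 7 (.d k106 k127 k226 6 9)))))), (.s k12 k8 1 (.s k63 k42 6 (.s k29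
  k46 4 (.s k25 k17 1 (.d k38 k55 k51 4 6)))))] (.c k55 (.l (.s k12 k8 1 (.s k192 k64 7 (.s k132 k72
  9 (.s k136 k140 1 (.d k68 k196 k204 7 9)))))) .n)) .n))) (.c k2 (.q k86 [(.s k84 k87 0 (.d k252
  k168 k169 13 14)), (.s k42 k63 6 (.s k169 k252 14 (.s k1 k253 13 (.s k41 k61 5 (.s k40 k43 0 (.d
  k60 k20 k22 5 6)))))), (.s k63 k42 6 (.s k23 k43 5 (.s k87 k84 0 (.s k215 k151 7 (.d k20 k22 k150
  0 8)))))] (.c k128 (.q k191 [(.s k84 k87 0 (.d k252 k168 k169 13 14)), (.s k63 k42 6 (.s k43 k23 5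
  (.s k127 k255 7 (.s k106 k64 6 (.d k169 k232 k252 8 14))))), (.s k63 k42 6 (.s k87 k84 0 (.d k255
  k127 k171 7 13)))] .n) (.c k191 (.q k128 [(.s k84 k87 0 (.d k252 k168 k169 13 14)), (.s k63 k42 6
  (.s k43 k23 5 (.s k64 k192 7 (.s k106 k127 6 (.d k169 k232 k252 8 14))))), (.s k63 k42 6 (.s k23
  k43 5 (.s k87 k84 0 (.s k215 k151 7 (.d k20 k22 k150 0 8)))))] .n) .n))) (.c k22 (.f k1 k2 0 (.l
  (.s k41 k61 5 (.s k169 k253 13 (.s k86 k252 14 (.s k105 k233 7 (.s k67 k124 6 (.s k195 k131 7 (.d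
  k65 k125 k130 5 8))))))))) (.c k41 (.f k2 k1 0 (.l (.s k42 k63 6 (.s k22 k62 5 (.s k20 k23 0 (.s
  k150 k215 8 (.s k86 k214 7 (.s k252 k169 14 (.d k84 k87 k168 0 13))))))))) (.c k42 (.l (.s k1 k2 0
  (.s k41 k61 5 (.s k22 k60 6 (.s k20 k23 0 (.s k150 k215 8 (.s k86 k214 7 (.d k169 k253 k252 13
  14)))))))) (.c k60 (.f k1 k2 0 (.l (.s k63 k42 6 (.s k23 k43 5 (.s k169 k253 13 (.s k86 k252 14
  (.s k87 k84 0 (.s k215 k151 7 (.d k20 k22 k150 0 8))))))))) (.c k61 (.l (.s k2 k1 0 (.s k42 k63 6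
  (.s k22 k62 5 (.s k60 k41 6 (.d k20 k23 k40 0 5)))))) (.c k62 (.l (.s k1 k2 0 (.s k41 k61 5 (.s
  k22 k60 6 (.s k63 k42 6 (.d k23 k20 k43 0 5)))))) (.c k128 (.q k191 [(.s k1 k2 0 (.s k169 k253 13
  (.s k86 k252 14 (.s k87 k84 0 (.s k255 k171 13 (.d k63 k42 k127 6 7)))))), (.s k2 k1 0 (.s k42 k63
  6 (.s k22 k62 5 (.s k60 k41 6 (.d k20 k23 k40 0 5))))), (.s k63 k42 6 (.s k23 k43 5 (.s k255 k127
  7 (.s k87 k171 13 (.s k215 k151 7 (.d k20 k150 k22 8 0))))))] (.c k42 (.l (.s k1 k2 0 (.s k41 k61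
  5 (.s k22 k60 6 (.s k20 k23 0 (.s k150 k215 8 (.s k86 k214 7 (.d k169 k253 k252 13 14)))))))) (.c
  k63 (.l (.s k1 k2 0 (.s k41 k61 5 (.s k60 k22 6 (.s k20 k40 5 (.s k150 k215 8 (.s k105 k195 14 (.d
  k169 k233 k253 7 13)))))))) .n))) (.c k191 (.q k128 [(.s k1 k2 0 (.s k192 k64 7 (.s k129 k66 8 (.s
  k65 k193 7 (.d k130 k131 k195 0 8))))), (.s k2 k1 0 (.s k42 k63 6 (.s k22 k62 5 (.s k60 k41 6 (.d
  k20 k23 k40 0 5)))))] (.c k1 (.q k4 [(.s k12 k8 1 (.s k192 k64 7 (.s k132 k72 9 (.s k68 k196 7 (.d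
  k136 k140 k204 1 9))))), (.s k38 k55 4 (.s k42 k63 6 (.s k46 k34 1 (.s k166 k247 12 (.s k64 k192 7
  (.d k106 k127 k226 6 9)))))), (.s k12 k8 1 (.s k63 k42 6 (.s k29 k46 4 (.s k25 k17 1 (.d k38 k55
  k51 4 6)))))] (.c k55 (.l (.s k12 k8 1 (.s k192 k64 7 (.s k132 k72 9 (.s k136 k140 1 (.d k68 k196
  k204 7 9)))))) .n)) (.c k2 (.q k86 [(.s k84 k87 0 (.d k252 k168 k169 13 14)), (.s k63 k42 6 (.s
  k43 k23 5 (.s k64 k192 7 (.s k106 k127 6 (.d k169 k232 k252 8 14))))), (.s k63 k42 6 (.s k23 k43 5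
  (.s k87 k84 0 (.s k215 k151 7 (.d k20 k22 k150 0 8)))))] .n) (.c k61 (.l (.s k1 k2 0 (.s k192 k64
  7 (.s k129 k66 8 (.s k130 k131 0 (.d k65 k193 k195 7 8)))))) (.c k192 (.l (.s k1 k2 0 (.s k41 k61
  5 (.s k22 k60 6 (.s k23 k20 0 (.d k63 k43 k42 5 6)))))) .n))))) .n)))))))))))

def s15_170_150 : T TT 256 :=
  (.f k149 k213 7 (.q k153 [(.s k17 k221 9 (.s k29 k25 1 (.s k145 k157 1 (.d k209 k81 k89 7 9)))),
  (.s k63 k42 6 (.s k157 k145 1 (.s k204 k110 12 (.s k68 k136 9 (.d k102 k119 k51 4 14))))), (.s k17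
  k221 9 (.s k51 k34 4 (.s k63 k42 6 (.s k59 k55 1 (.d k106 k200 k192 12 14)))))] (.c k130 (.q k190
  [(.s k17 k221 9 (.s k29 k25 1 (.s k145 k157 1 (.d k209 k81 k89 7 9)))), (.s k63 k42 6 (.s k157
  k145 1 (.s k204 k110 12 (.s k68 k136 9 (.d k102 k119 k51 4 14))))), (.s k17 k221 9 (.s k51 k34 4
  (.s k63 k42 6 (.s k59 k55 1 (.d k106 k200 k192 12 14)))))] .n) (.c k190 (.q k130 [(.s k17 k221 9
  (.s k29 k25 1 (.s k145 k157 1 (.d k209 k81 k89 7 9)))), (.s k63 k42 6 (.s k157 k145 1 (.s k204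
  k110 12 (.s k68 k136 9 (.d k102 k119 k51 4 14))))), (.s k17 k221 9 (.s k51 k34 4 (.s k63 k42 6 (.s
  k59 k55 1 (.d k106 k200 k192 12 14)))))] .n) .n))))

def s15_170_151 : T TT 256 :=
  (.q k1 [(.s k61 k41 5 (.s k149 k213 7 (.s k105 k193 13 (.s k125 k65 5 (.d k253 k189 k169 7
  13))))), (.s k3 k2 0 (.s k41 k61 5 (.s k22 k60 6 (.s k23 k20 0 (.d k63 k43 k42 5 6))))), (.s k3 k2
  0 (.s k63 k42 6 (.s k43 k23 5 (.s k149 k213 7 (.s k106 k192 14 (.d k169 k232 k253 8 13))))))] .n)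

def s15_170_152 : T TT 256 :=
  (.q k1 [(.s k61 k41 5 (.s k149 k213 7 (.s k105 k193 13 (.s k125 k65 5 (.d k253 k189 k169 7
  13))))), (.s k3 k2 0 (.s k41 k61 5 (.s k22 k60 6 (.s k23 k20 0 (.d k63 k43 k42 5 6))))), (.s k3 k2
  0 (.s k63 k42 6 (.s k43 k23 5 (.s k149 k213 7 (.s k106 k192 14 (.d k169 k232 k253 8 13))))))] .n)

def s15_170_153 : T TT 256 :=
  (.f k149 k213 7 (.q k150 [(.s k20 k215 8 (.s k23 k22 0 (.s k148 k151 0 (.d k212 k84 k86 7 8)))),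
  (.s k63 k42 6 (.s k151 k148 0 (.s k195 k107 13 (.s k65 k130 8 (.d k105 k125 k60 5 14))))), (.s k20
  k215 8 (.s k60 k40 5 (.s k63 k42 6 (.s k62 k61 0 (.d k106 k194 k192 13 14)))))] (.c k136 (.q k187
  [(.s k20 k215 8 (.s k23 k22 0 (.s k148 k151 0 (.d k212 k84 k86 7 8)))), (.s k63 k42 6 (.s k151
  k148 0 (.s k195 k107 13 (.s k65 k130 8 (.d k105 k125 k60 5 14))))), (.s k20 k215 8 (.s k60 k40 5
  (.s k63 k42 6 (.s k62 k61 0 (.d k106 k194 k192 13 14)))))] .n) (.c k187 (.q k136 [(.s k20 k215 8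
  (.s k23 k22 0 (.s k148 k151 0 (.d k212 k84 k86 7 8)))), (.s k63 k42 6 (.s k151 k148 0 (.s k195
  k107 13 (.s k65 k130 8 (.d k105 k125 k60 5 14))))), (.s k20 k215 8 (.s k60 k40 5 (.s k63 k42 6 (.s
  k62 k61 0 (.d k106 k194 k192 13 14)))))] .n) .n))))

def s15_170_154 : T TT 256 :=
  (.f k149 k213 7 (.q k89 [(.s k29 k209 9 (.s k17 k25 1 (.s k93 k81 1 (.d k221 k157 k153 7 9)))),
  (.s k63 k42 6 (.s k81 k93 1 (.s k106 k192 14 (.s k123 k72 4 (.d k243 k183 k162 9 12))))), (.s k29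
  k209 9 (.s k63 k42 6 (.s k12 k46 4 (.s k4 k8 1 (.d k166 k247 k243 12 14)))))] (.c k138 (.q k186
  [(.s k29 k209 9 (.s k17 k25 1 (.s k93 k81 1 (.d k221 k157 k153 7 9)))), (.s k63 k42 6 (.s k81 k93
  1 (.s k106 k192 14 (.s k123 k72 4 (.d k243 k183 k162 9 12))))), (.s k29 k209 9 (.s k63 k42 6 (.s
  k12 k46 4 (.s k4 k8 1 (.d k166 k247 k243 12 14)))))] .n) (.c k186 (.q k138 [(.s k29 k209 9 (.s k17
  k25 1 (.s k93 k81 1 (.d k221 k157 k153 7 9)))), (.s k63 k42 6 (.s k81 k93 1 (.s k106 k192 14 (.s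
  k123 k72 4 (.d k243 k183 k162 9 12))))), (.s k29 k209 9 (.s k63 k42 6 (.s k12 k46 4 (.s k4 k8 1
  (.d k166 k247 k243 12 14)))))] .n) .n))))

def s15_170_155 : T TT 256 :=
  (.q k1 [(.s k61 k41 5 (.s k149 k213 7 (.s k105 k193 13 (.s k125 k65 5 (.d k253 k189 k169 7
  13))))), (.s k3 k2 0 (.s k41 k61 5 (.s k22 k60 6 (.s k23 k20 0 (.d k63 k43 k42 5 6))))), (.s k3 k2
  0 (.s k63 k42 6 (.s k43 k23 5 (.s k149 k213 7 (.s k106 k192 14 (.d k169 k232 k253 8 13))))))] .n)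

def s15_170_156 : T TT 256 :=
  (.q k1 [(.s k61 k41 5 (.s k149 k213 7 (.s k105 k193 13 (.s k125 k65 5 (.d k253 k189 k169 7
  13))))), (.s k3 k2 0 (.s k41 k61 5 (.s k22 k60 6 (.s k23 k20 0 (.d k63 k43 k42 5 6))))), (.s k3 k2
  0 (.s k63 k42 6 (.s k43 k23 5 (.s k149 k213 7 (.s k106 k192 14 (.d k169 k232 k253 8 13))))))] .n)

def s15_170_157 : T TT 256 :=
  (.q k1 [(.s k61 k41 5 (.s k149 k213 7 (.s k105 k193 13 (.s k125 k65 5 (.d k253 k189 k169 7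
  13))))), (.s k3 k2 0 (.s k41 k61 5 (.s k22 k60 6 (.s k23 k20 0 (.d k63 k43 k42 5 6))))), (.s k3 k2
  0 (.s k63 k42 6 (.s k43 k23 5 (.s k149 k213 7 (.s k106 k192 14 (.d k169 k232 k253 8 13))))))] .n)

def s15_170_158 : T TT 256 :=
  (.q k1 [(.s k61 k41 5 (.s k149 k213 7 (.s k105 k193 13 (.s k125 k65 5 (.d k253 k189 k169 7
  13))))), (.s k3 k2 0 (.s k41 k61 5 (.s k22 k60 6 (.s k23 k20 0 (.d k63 k43 k42 5 6))))), (.s k3 k2
  0 (.s k63 k42 6 (.s k43 k23 5 (.s k149 k213 7 (.s k106 k192 14 (.d k169 k232 k253 8 13))))))] .n)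

def s15_170_159 : T TT 256 :=
  (.q k1 [(.s k61 k41 5 (.s k149 k213 7 (.s k105 k193 13 (.s k125 k65 5 (.d k253 k189 k169 7
  13))))), (.s k3 k2 0 (.s k41 k61 5 (.s k22 k60 6 (.s k23 k20 0 (.d k63 k43 k42 5 6))))), (.s k3 k2
  0 (.s k63 k42 6 (.s k43 k23 5 (.s k149 k213 7 (.s k106 k192 14 (.d k169 k232 k253 8 13))))))] .n)

def s15_170_160 : T TT 256 :=
  (.f k149 k213 7 (.q k90 [(.s k31 k208 10 (.s k95 k80 2 (.s k223 k159 7 (.d k16 k26 k154 2 10)))),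
  (.s k63 k42 6 (.s k80 k95 2 (.s k106 k192 14 (.s k64 k127 6 (.s k74 k122 3 (.s k79 k69 2 (.d k112
  k96 k101 3 6))))))), (.s k31 k208 10 (.s k16 k26 2 (.s k48 k32 3 (.s k63 k42 6 (.s k58 k53 2 (.s
  k106 k192 14 (.d k154 k223 k202 10 11)))))))] (.c k165 (.q k175 [(.s k31 k208 10 (.s k95 k80 2 (.s
  k223 k159 7 (.d k16 k26 k154 2 10)))), (.s k63 k42 6 (.s k80 k95 2 (.s k106 k192 14 (.s k64 k127 6
  (.s k74 k122 3 (.s k79 k69 2 (.d k112 k96 k101 3 6))))))), (.s k31 k208 10 (.s k16 k26 2 (.s k48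
  k32 3 (.s k63 k42 6 (.s k58 k53 2 (.s k106 k192 14 (.d k154 k223 k202 10 11)))))))] .n) (.c k175
  (.q k165 [(.s k31 k208 10 (.s k16 k26 2 (.s k95 k80 2 (.d k223 k159 k154 7 10)))), (.s k5 k245 11
  (.s k133 k181 3 (.s k197 k69 7 (.d k53 k37 k101 3 11))))] (.c k37 (.l (.s k31 k208 10 (.s k95 k80
  2 (.s k223 k159 7 (.d k16 k26 k154 2 10))))) (.c k95 (.q k255 [(.s k63 k42 6 (.s k106 k192 14 (.d
  k127 k64 k191 6 7))), (.s k5 k245 11 (.s k53 k37 3 (.s k133 k181 3 (.d k197 k69 k101 7 11))))] (.c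
  k133 (.l (.s k63 k42 6 (.s k127 k191 7 (.d k106 k64 k192 6 14)))) .n)) (.c k255 (.l (.s k95 k80 2
  (.s k31 k208 10 (.s k16 k26 2 (.d k223 k159 k154 7 10))))) .n)))) .n))))

def s15_170_161 : T TT 256 :=
  (.q k1 [(.s k61 k41 5 (.s k149 k213 7 (.s k105 k193 13 (.s k125 k65 5 (.d k253 k189 k169 7
  13))))), (.s k3 k2 0 (.s k41 k61 5 (.s k22 k60 6 (.s k23 k20 0 (.d k63 k43 k42 5 6))))), (.s k3 k2
  0 (.s k63 k42 6 (.s k43 k23 5 (.s k149 k213 7 (.s k106 k192 14 (.d k169 k232 k253 8 13))))))] .n)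

def s15_170_162 : T TT 256 :=
  (.q k166 [(.s k4 k247 12 (.s k55 k38 4 (.s k149 k213 7 (.s k132 k183 4 (.d k196 k68 k102 7
  12))))), (.s k63 k42 6 (.s k149 k213 7 (.s k106 k192 14 (.s k46 k226 9 (.s k12 k29 4 (.s k183 k132
  4 (.d k243 k123 k89 9 14))))))), (.s k4 k247 12 (.s k12 k8 1 (.s k63 k42 6 (.s k29 k46 4 (.s k25
  k17 1 (.d k38 k55 k51 4 6))))))] .n)

def s15_170_163 : T TT 256 :=
  (.q k1 [(.s k61 k41 5 (.s k149 k213 7 (.s k105 k193 13 (.s k125 k65 5 (.d k253 k189 k169 7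
  13))))), (.s k3 k2 0 (.s k41 k61 5 (.s k22 k60 6 (.s k23 k20 0 (.d k63 k43 k42 5 6))))), (.s k3 k2
  0 (.s k63 k42 6 (.s k43 k23 5 (.s k149 k213 7 (.s k106 k192 14 (.d k169 k232 k253 8 13))))))] .n)

def s15_170_164 : T TT 256 :=
  (.q k1 [(.s k61 k41 5 (.s k149 k213 7 (.s k105 k193 13 (.s k125 k65 5 (.d k253 k189 k169 7
  13))))), (.s k3 k2 0 (.s k41 k61 5 (.s k22 k60 6 (.s k23 k20 0 (.d k63 k43 k42 5 6))))), (.s k3 k2
  0 (.s k63 k42 6 (.s k43 k23 5 (.s k149 k213 7 (.s k106 k192 14 (.d k169 k232 k253 8 13))))))] .n)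

def s15_170_165 : T TT 256 :=
  (.f k149 k213 7 (.q k90 [(.s k31 k208 10 (.s k95 k80 2 (.s k223 k159 7 (.d k16 k26 k154 2 10)))),
  (.s k63 k42 6 (.s k80 k95 2 (.s k106 k192 14 (.s k64 k127 6 (.s k74 k122 3 (.s k79 k69 2 (.d k112
  k96 k101 3 6))))))), (.s k31 k208 10 (.s k16 k26 2 (.s k48 k32 3 (.s k63 k42 6 (.s k58 k53 2 (.s
  k106 k192 14 (.d k154 k223 k202 10 11)))))))] (.c k160 (.q k175 [(.s k31 k208 10 (.s k95 k80 2 (.s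
  k223 k159 7 (.d k16 k26 k154 2 10)))), (.s k63 k42 6 (.s k80 k95 2 (.s k106 k192 14 (.s k64 k127 6
  (.s k74 k122 3 (.s k79 k69 2 (.d k112 k96 k101 3 6))))))), (.s k31 k208 10 (.s k16 k26 2 (.s k48
  k32 3 (.s k63 k42 6 (.s k58 k53 2 (.s k106 k192 14 (.d k154 k223 k202 10 11)))))))] .n) (.c k175
  (.q k160 [(.d k80 k95 k240 2 11)] (.c k80 (.l (.s k31 k208 10 (.s k16 k26 2 (.s k48 k32 3 (.s k63
  k42 6 (.s k58 k53 2 (.s k106 k192 14 (.d k154 k223 k202 10 11)))))))) (.c k95 (.q k255 [(.s k63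
  k42 6 (.s k106 k192 14 (.d k127 k64 k191 6 7))), (.s k31 k208 10 (.s k16 k26 2 (.s k48 k32 3 (.s
  k117 k186 10 (.s k101 k69 3 (.d k154 k223 k207 10 14))))))] .n) (.c k240 (.l (.s k31 k208 10 (.s
  k16 k26 2 (.s k95 k80 2 (.d k223 k159 k154 7 10))))) (.c k255 (.l (.s k95 k80 2 (.s k31 k208 10
  (.s k16 k26 2 (.d k223 k159 k154 7 10))))) .n))))) .n))))

def s15_170_166 : T TT 256 :=
  (.f k149 k213 7 (.q k150 [(.s k20 k215 8 (.s k23 k22 0 (.s k148 k151 0 (.d k212 k84 k86 7 8)))),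
  (.s k63 k42 6 (.s k151 k148 0 (.s k195 k107 13 (.s k65 k130 8 (.d k105 k125 k60 5 14))))), (.s k20
  k215 8 (.s k60 k40 5 (.s k63 k42 6 (.s k62 k61 0 (.d k106 k194 k192 13 14)))))] (.c k162 (.q k174
  [(.s k20 k215 8 (.s k23 k22 0 (.s k148 k151 0 (.d k212 k84 k86 7 8)))), (.s k63 k42 6 (.s k151
  k148 0 (.s k195 k107 13 (.s k65 k130 8 (.d k105 k125 k60 5 14))))), (.s k20 k215 8 (.s k60 k40 5
  (.s k63 k42 6 (.s k62 k61 0 (.d k106 k194 k192 13 14)))))] .n) (.c k174 (.q k162 [(.s k20 k215 8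
  (.s k23 k22 0 (.s k148 k151 0 (.d k212 k84 k86 7 8)))), (.s k63 k42 6 (.s k151 k148 0 (.s k195
  k107 13 (.s k65 k130 8 (.d k105 k125 k60 5 14))))), (.s k20 k215 8 (.s k60 k40 5 (.s k63 k42 6 (.s
  k62 k61 0 (.d k106 k194 k192 13 14)))))] .n) .n))))

def s15_170_167 : T TT 256 :=
  (.f k149 k213 7 (.q k243 [(.s k63 k42 6 (.s k81 k162 12 (.s k89 k93 1 (.s k29 k209 9 (.d k12 k166
  k46 14 4))))), (.s k63 k42 6 (.s k106 k192 14 (.s k127 k64 6 (.s k183 k123 9 (.s k166 k132 4 (.s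
  k247 k4 12 (.d k255 k251 k191 1 7))))))), (.s k81 k162 12 (.s k89 k93 1 (.s k166 k12 14 (.s k4
  k247 12 (.s k55 k38 4 (.s k132 k183 4 (.d k196 k68 k102 7 12)))))))] (.c k12 (.l (.s k63 k42 6 (.s
  k81 k162 12 (.s k89 k93 1 (.s k106 k192 14 (.d k123 k72 k183 4 9)))))) (.c k166 (.l (.s k63 k42 6
  (.s k106 k192 14 (.s k123 k183 9 (.s k89 k72 4 (.d k81 k93 k162 1 12)))))) .n))))

def s15_170_168 : T TT 256 :=
  (.q k169 [(.s k1 k253 13 (.s k61 k41 5 (.s k149 k213 7 (.s k129 k189 5 (.d k193 k65 k105 7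
  13))))), (.s k63 k42 6 (.s k149 k213 7 (.s k106 k192 14 (.s k43 k232 8 (.s k3 k23 5 (.s k189 k129
  5 (.d k252 k126 k86 8 14))))))), (.s k1 k253 13 (.s k3 k2 0 (.s k63 k42 6 (.s k23 k43 5 (.s k22
  k20 0 (.d k41 k61 k60 5 6))))))] .n)

def s15_170_169 : T TT 256 :=
  (.f k149 k213 7 (.q k87 [(.s k86 k84 0 (.s k23 k212 8 (.s k20 k22 0 (.d k215 k151 k150 7 8)))),
  (.s k63 k42 6 (.s k86 k84 0 (.s k106 k192 14 (.s k126 k66 5 (.s k127 k64 6 (.s k67 k107 5 (.d k124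
  k125 k105 0 6))))))), (.s k63 k42 6 (.s k106 k192 14 (.s k127 k64 6 (.s k107 k67 5 (.s k151 k195
  13 (.s k150 k148 0 (.d k215 k23 k20 7 8)))))))] (.c k168 (.q k171 [(.s k86 k84 0 (.s k23 k212 8
  (.s k20 k22 0 (.d k215 k151 k150 7 8)))), (.s k63 k42 6 (.s k106 k192 14 (.s k127 k64 6 (.d k255
  k191 k3 7 13))))] .n) (.c k171 (.q k168 [(.d k84 k86 k252 0 13), (.s k63 k42 6 (.s k106 k192 14
  (.s k127 k64 6 (.s k107 k67 5 (.s k151 k195 13 (.s k150 k148 0 (.d k215 k23 k20 7 8)))))))] .n)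
  .n))))

def s15_170_171 : T TT 256 :=
  (.q k169 [(.s k1 k253 13 (.s k61 k41 5 (.s k149 k213 7 (.s k129 k189 5 (.d k193 k65 k105 7
  13))))), (.s k63 k42 6 (.s k149 k213 7 (.s k189 k129 5 (.s k252 k126 8 (.s k84 k168 13 (.d k86 k87
  k3 0 14)))))), (.s k1 k253 13 (.s k3 k2 0 (.s k63 k42 6 (.s k23 k43 5 (.s k22 k20 0 (.d k41 k61
  k60 5 6))))))] .n)

def s15_170_172 : T TT 256 :=
  (.q k1 [(.s k61 k41 5 (.s k149 k213 7 (.s k105 k193 13 (.s k125 k65 5 (.d k253 k189 k169 7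
  13))))), (.s k3 k2 0 (.s k41 k61 5 (.s k22 k60 6 (.s k23 k20 0 (.d k63 k43 k42 5 6))))), (.s k3 k2
  0 (.s k63 k42 6 (.s k43 k23 5 (.s k149 k213 7 (.s k106 k192 14 (.d k169 k232 k253 8 13))))))] .n)

def s15_170_173 : T TT 256 :=
  (.f k149 k213 7 (.q k252 [(.s k63 k42 6 (.s k84 k168 13 (.s k86 k87 0 (.s k23 k212 8 (.d k3 k169
  k43 14 5))))), (.s k63 k42 6 (.s k106 k192 14 (.s k127 k64 6 (.s k189 k126 8 (.s k169 k129 5 (.s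
  k253 k1 13 (.d k255 k254 k191 0 7))))))), (.s k84 k168 13 (.s k86 k87 0 (.s k169 k3 14 (.s k1 k253
  13 (.s k61 k41 5 (.s k129 k189 5 (.d k193 k65 k105 7 13)))))))] (.c k3 (.l (.s k63 k42 6 (.s k84
  k168 13 (.s k86 k87 0 (.s k106 k192 14 (.d k126 k66 k189 5 8)))))) (.c k169 (.l (.s k63 k42 6 (.s
  k106 k192 14 (.s k126 k189 8 (.s k86 k66 5 (.d k84 k87 k168 0 13)))))) .n))))

def s15_170_174 : T TT 256 :=
  (.q k166 [(.s k4 k247 12 (.s k55 k38 4 (.s k149 k213 7 (.s k132 k183 4 (.d k196 k68 k102 7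
  12))))), (.s k63 k42 6 (.s k149 k213 7 (.s k183 k132 4 (.s k243 k123 9 (.s k81 k162 12 (.d k89 k93
  k12 1 14)))))), (.s k4 k247 12 (.s k12 k8 1 (.s k63 k42 6 (.s k29 k46 4 (.s k25 k17 1 (.d k38 k55
  k51 4 6))))))] .n)

def s15_170_175 : T TT 256 :=
  (.f k149 k213 7 (.q k95 [(.s k90 k80 2 (.s k31 k208 10 (.s k16 k26 2 (.d k223 k159 k154 7 10)))),
  (.s k63 k42 6 (.s k90 k80 2 (.s k106 k192 14 (.s k127 k64 6 (.s k79 k111 3 (.s k112 k101 6 (.d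
  k122 k74 k117 3 2))))))), (.s k63 k42 6 (.s k106 k192 14 (.s k127 k64 6 (.s k111 k79 3 (.s k207
  k159 11 (.s k69 k138 10 (.d k101 k96 k117 2 3)))))))] (.c k160 (.q k165 [(.s k5 k245 11 (.s k133
  k181 3 (.s k197 k69 7 (.d k53 k37 k101 3 11)))), (.s k90 k80 2 (.s k31 k208 10 (.s k223 k159 7 (.d
  k16 k26 k154 2 10))))] .n) (.c k165 (.q k160 [(.d k80 k90 k240 2 11)] (.c k80 (.l (.s k63 k42 6
  (.s k106 k192 14 (.s k127 k64 6 (.s k111 k79 3 (.s k207 k159 11 (.s k69 k138 10 (.d k101 k96 k117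
  2 3)))))))) (.c k90 (.f k240 k80 11 (.l (.s k63 k42 6 (.s k106 k192 14 (.s k127 k64 6 (.s k111 k79
  3 (.s k207 k159 11 (.s k69 k138 10 (.d k101 k96 k117 2 3))))))))) (.c k240 (.l (.s k90 k80 2 (.s
  k31 k208 10 (.s k16 k26 2 (.d k223 k159 k154 7 10))))) .n)))) .n))))

def s15_170_176 : T TT 256 :=
  (.q k1 [(.s k61 k41 5 (.s k149 k213 7 (.s k105 k193 13 (.s k125 k65 5 (.d k253 k189 k169 7
  13))))), (.s k3 k2 0 (.s k41 k61 5 (.s k22 k60 6 (.s k23 k20 0 (.d k63 k43 k42 5 6))))), (.s k3 k2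
  0 (.s k63 k42 6 (.s k43 k23 5 (.s k149 k213 7 (.s k106 k192 14 (.d k169 k232 k253 8 13))))))] .n)

def s15_170_177 : T TT 256 :=
  (.q k1 [(.s k61 k41 5 (.s k149 k213 7 (.s k105 k193 13 (.s k125 k65 5 (.d k253 k189 k169 7
  13))))), (.s k3 k2 0 (.s k41 k61 5 (.s k22 k60 6 (.s k23 k20 0 (.d k63 k43 k42 5 6))))), (.s k3 k2
  0 (.s k63 k42 6 (.s k43 k23 5 (.s k149 k213 7 (.s k106 k192 14 (.d k169 k232 k253 8 13))))))] .n)

def s15_170_178 : T TT 256 :=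
  (.q k1 [(.s k61 k41 5 (.s k149 k213 7 (.s k105 k193 13 (.s k125 k65 5 (.d k253 k189 k169 7
  13))))), (.s k3 k2 0 (.s k41 k61 5 (.s k22 k60 6 (.s k23 k20 0 (.d k63 k43 k42 5 6))))), (.s k3 k2
  0 (.s k63 k42 6 (.s k43 k23 5 (.s k149 k213 7 (.s k106 k192 14 (.d k169 k232 k253 8 13))))))] .n)

def s15_170_179 : T TT 256 :=
  (.q k1 [(.s k61 k41 5 (.s k149 k213 7 (.s k105 k193 13 (.s k125 k65 5 (.d k253 k189 k169 7
  13))))), (.s k3 k2 0 (.s k41 k61 5 (.s k22 k60 6 (.s k23 k20 0 (.d k63 k43 k42 5 6))))), (.s k3 k2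
  0 (.s k63 k42 6 (.s k43 k23 5 (.s k149 k213 7 (.s k106 k192 14 (.d k169 k232 k253 8 13))))))] .n)

def s15_170_180 : T TT 256 :=
  (.q k1 [(.s k61 k41 5 (.s k149 k213 7 (.s k105 k193 13 (.s k125 k65 5 (.d k253 k189 k169 7
  13))))), (.s k3 k2 0 (.s k41 k61 5 (.s k22 k60 6 (.s k23 k20 0 (.d k63 k43 k42 5 6))))), (.s k3 k2
  0 (.s k63 k42 6 (.s k43 k23 5 (.s k149 k213 7 (.s k106 k192 14 (.d k169 k232 k253 8 13))))))] .n)

def s15_170_181 : T TT 256 :=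
  (.q k1 [(.s k61 k41 5 (.s k149 k213 7 (.s k105 k193 13 (.s k125 k65 5 (.d k253 k189 k169 7
  13))))), (.s k3 k2 0 (.s k41 k61 5 (.s k22 k60 6 (.s k23 k20 0 (.d k63 k43 k42 5 6))))), (.s k3 k2
  0 (.s k63 k42 6 (.s k43 k23 5 (.s k149 k213 7 (.s k106 k192 14 (.d k169 k232 k253 8 13))))))] .n)

def s15_170_182 : T TT 256 :=
  (.q k1 [(.s k61 k41 5 (.s k149 k213 7 (.s k105 k193 13 (.s k125 k65 5 (.d k253 k189 k169 7
  13))))), (.s k3 k2 0 (.s k41 k61 5 (.s k22 k60 6 (.s k23 k20 0 (.d k63 k43 k42 5 6))))), (.s k3 k2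
  0 (.s k63 k42 6 (.s k43 k23 5 (.s k149 k213 7 (.s k106 k192 14 (.d k169 k232 k253 8 13))))))] .n)

def s15_170_183 : T TT 256 :=
  (.q k1 [(.s k61 k41 5 (.s k149 k213 7 (.s k105 k193 13 (.s k125 k65 5 (.d k253 k189 k169 7
  13))))), (.s k3 k2 0 (.s k41 k61 5 (.s k22 k60 6 (.s k23 k20 0 (.d k63 k43 k42 5 6))))), (.s k3 k2
  0 (.s k63 k42 6 (.s k43 k23 5 (.s k149 k213 7 (.s k106 k192 14 (.d k169 k232 k253 8 13))))))] .n)

def s15_170_184 : T TT 256 :=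
  (.q k1 [(.s k61 k41 5 (.s k149 k213 7 (.s k105 k193 13 (.s k125 k65 5 (.d k253 k189 k169 7
  13))))), (.s k3 k2 0 (.s k41 k61 5 (.s k22 k60 6 (.s k23 k20 0 (.d k63 k43 k42 5 6))))), (.s k3 k2
  0 (.s k63 k42 6 (.s k43 k23 5 (.s k149 k213 7 (.s k106 k192 14 (.d k169 k232 k253 8 13))))))] .n)

def s15_170_185 : T TT 256 :=
  (.q k1 [(.s k61 k41 5 (.s k149 k213 7 (.s k105 k193 13 (.s k125 k65 5 (.d k253 k189 k169 7
  13))))), (.s k3 k2 0 (.s k41 k61 5 (.s k22 k60 6 (.s k23 k20 0 (.d k63 k43 k42 5 6))))), (.s k3 k2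
  0 (.s k63 k42 6 (.s k43 k23 5 (.s k149 k213 7 (.s k106 k192 14 (.d k169 k232 k253 8 13))))))] .n)

def s15_170_186 : T TT 256 :=
  (.f k149 k213 7 (.q k154 [(.s k16 k223 10 (.s k144 k159 2 (.s k208 k80 7 (.d k31 k26 k90 2 10)))),
  (.s k63 k42 6 (.s k159 k144 2 (.s k207 k111 11 (.s k69 k138 10 (.d k101 k117 k48 3 14))))), (.s
  k16 k223 10 (.s k48 k32 3 (.s k63 k42 6 (.s k58 k53 2 (.d k106 k202 k192 11 14)))))] .n))

def s15_170_187 : T TT 256 :=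
  (.q k153 [(.s k17 k221 9 (.s k29 k25 1 (.s k149 k213 7 (.s k145 k157 1 (.d k209 k81 k89 7 9))))),
  (.s k63 k42 6 (.s k149 k213 7 (.s k157 k145 1 (.s k204 k110 12 (.s k68 k136 9 (.d k102 k119 k51 4
  14)))))), (.s k17 k221 9 (.s k51 k34 4 (.s k63 k42 6 (.s k55 k59 1 (.s k38 k4 4 (.d k25 k29 k12 1
  6))))))] .n)

def s15_170_188 : T TT 256 :=
  (.q k1 [(.s k61 k41 5 (.s k149 k213 7 (.s k105 k193 13 (.s k125 k65 5 (.d k253 k189 k169 7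
  13))))), (.s k3 k2 0 (.s k41 k61 5 (.s k22 k60 6 (.s k23 k20 0 (.d k63 k43 k42 5 6))))), (.s k3 k2
  0 (.s k63 k42 6 (.s k43 k23 5 (.s k149 k213 7 (.s k106 k192 14 (.d k169 k232 k253 8 13))))))] .n)

def s15_170_189 : T TT 256 :=
  (.q k1 [(.s k3 k2 0 (.s k63 k42 6 (.s k23 k43 5 (.s k22 k20 0 (.d k41 k61 k60 5 6))))), (.s k3 k2
  0 (.s k149 k213 7 (.s k169 k253 13 (.s k86 k252 14 (.s k23 k212 8 (.d k63 k43 k42 5 6)))))), (.s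
  k61 k41 5 (.s k63 k42 6 (.s k149 k213 7 (.s k105 k193 13 (.s k65 k125 5 (.s k195 k130 8 (.d k60
  k150 k62 14 0))))))), (.s k3 k2 0 (.s k41 k61 5 (.s k22 k60 6 (.s k20 k23 0 (.s k150 k215 8 (.s
  k86 k214 7 (.d k169 k253 k252 13 14)))))))] (.c k61 (.l (.s k3 k2 0 (.s k63 k42 6 (.s k23 k43 5
  (.s k149 k213 7 (.s k86 k212 8 (.d k169 k253 k252 13 14))))))) (.c k63 (.l (.s k3 k2 0 (.s k41 k61
  5 (.s k60 k22 6 (.s k20 k40 5 (.s k150 k215 8 (.s k105 k195 14 (.d k169 k253 k233 13 7))))))))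
  .n)))

def s15_170_190 : T TT 256 :=
  (.q k150 [(.s k20 k215 8 (.s k23 k22 0 (.s k149 k213 7 (.s k148 k151 0 (.d k212 k84 k86 7 8))))),
  (.s k63 k42 6 (.s k149 k213 7 (.s k151 k148 0 (.s k195 k107 13 (.s k65 k130 8 (.d k105 k125 k60 5
  14)))))), (.s k20 k215 8 (.s k60 k40 5 (.s k63 k42 6 (.s k61 k62 0 (.s k41 k1 5 (.d k22 k23 k3 0
  6))))))] .n)

def s15_170_191 : T TT 256 :=
  (.q k55 [(.s k4 k38 4 (.s k149 k213 7 (.s k102 k196 12 (.s k119 k68 4 (.d k247 k183 k166 7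
  12))))), (.s k38 k4 4 (.s k63 k42 6 (.s k51 k59 1 (.s k25 k12 6 (.d k17 k29 k34 1 4))))), (.s k63
  k42 6 (.s k51 k59 1 (.s k149 k213 7 (.s k102 k196 12 (.s k68 k119 4 (.d k204 k136 k153 9 14))))))]
  (.c k128 (.l (.s k149 k213 7 (.s k4 k38 4 (.s k102 k196 12 (.s k119 k68 4 (.d k247 k183 k166 7
  12)))))) (.c k149 (.q k128 [(.s k38 k4 4 (.s k63 k42 6 (.s k51 k59 1 (.s k17 k34 4 (.d k25 k29 k12
  1 6))))), (.s k4 k38 4 (.s k12 k8 1 (.s k192 k64 7 (.s k132 k72 9 (.s k68 k196 7 (.d k136 k140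
  k204 1 9)))))), (.s k63 k42 6 (.s k51 k59 1 (.s k192 k64 7 (.s k145 k98 12 (.s k162 k179 4 (.s k81
  k243 12 (.d k17 k34 k209 4 7)))))))] (.c k8 (.l (.s k38 k4 4 (.s k63 k42 6 (.s k51 k59 1 (.s k25
  k12 6 (.d k17 k29 k34 1 4)))))) .n)) .n)))

def s15_170_192 : T TT 256 :=
  (.q k169 [(.s k1 k253 13 (.s k61 k41 5 (.s k149 k213 7 (.s k129 k189 5 (.d k193 k65 k105 7
  13))))), (.s k1 k253 13 (.s k3 k2 0 (.s k41 k61 5 (.s k22 k60 6 (.s k23 k20 0 (.d k63 k43 k42 5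
  6)))))), (.s k63 k42 6 (.s k149 k213 7 (.s k189 k129 5 (.s k252 k126 8 (.s k84 k168 13 (.d k86 k3
  k87 14 0))))))] (.c k74 (.q k133 [(.s k1 k253 13 (.s k61 k41 5 (.s k149 k213 7 (.s k129 k189 5 (.d
  k193 k65 k105 7 13))))), (.s k149 k213 7 (.s k165 k181 3 (.s k5 k245 11 (.s k53 k37 3 (.d k197 k69
  k101 7 11))))), (.s k1 k253 13 (.s k3 k2 0 (.s k41 k61 5 (.s k22 k60 6 (.s k23 k20 0 (.d k63 k43
  k42 5 6))))))] .n) (.c k133 (.q k74 [(.s k1 k253 13 (.s k61 k41 5 (.s k149 k213 7 (.s k129 k189 5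
  (.d k193 k65 k105 7 13))))), (.s k1 k253 13 (.s k3 k2 0 (.s k41 k61 5 (.s k22 k60 6 (.s k23 k20 0
  (.d k63 k43 k42 5 6)))))), (.s k63 k42 6 (.s k149 k213 7 (.s k189 k129 5 (.s k252 k126 8 (.s k84
  k168 13 (.d k86 k3 k87 14 0))))))] (.c k189 (.l (.s k1 k253 13 (.s k3 k2 0 (.s k63 k42 6 (.s k23
  k43 5 (.s k22 k20 0 (.d k41 k61 k60 5 6))))))) .n)) (.c k189 (.l (.s k1 k253 13 (.s k3 k2 0 (.s
  k63 k42 6 (.s k23 k43 5 (.s k22 k20 0 (.d k41 k61 k60 5 6))))))) .n))))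

def s15_170_193 : T TT 256 :=
  (.q k3 [(.s k2 k1 0 (.s k42 k63 6 (.s k22 k62 5 (.s k20 k23 0 (.d k60 k40 k41 5 6))))), (.s k63
  k42 6 (.s k23 k43 5 (.s k149 k213 7 (.s k86 k212 8 (.s k84 k87 0 (.d k252 k168 k169 13 14)))))),
  (.s k1 k2 0 (.s k63 k42 6 (.s k43 k23 5 (.s k149 k213 7 (.s k106 k192 14 (.d k169 k253 k232 13
  8)))))), (.s k1 k2 0 (.s k41 k61 5 (.s k60 k22 6 (.s k20 k40 5 (.s k150 k215 8 (.s k105 k195 14
  (.d k169 k233 k253 7 13)))))))] (.c k42 (.l (.s k1 k2 0 (.s k41 k61 5 (.s k22 k60 6 (.s k20 k23 0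
  (.s k150 k215 8 (.s k86 k214 7 (.d k169 k253 k252 13 14)))))))) .n))

def s15_170_194 : T TT 256 :=
  (.q k1 [(.s k61 k41 5 (.s k149 k213 7 (.s k105 k193 13 (.s k125 k65 5 (.d k253 k189 k169 7
  13))))), (.s k3 k2 0 (.s k41 k61 5 (.s k22 k60 6 (.s k23 k20 0 (.d k63 k43 k42 5 6))))), (.s k3 k2
  0 (.s k63 k42 6 (.s k43 k23 5 (.s k149 k213 7 (.s k106 k192 14 (.d k169 k232 k253 8 13))))))] .n)

def s15_170_195 : T TT 256 :=
  (.f k149 k213 7 (.q k157 [(.s k63 k42 6 (.s k153 k145 1 (.s k204 k110 12 (.s k68 k136 9 (.d k102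
  k119 k51 4 14))))), (.s k153 k145 1 (.s k17 k221 9 (.s k25 k29 1 (.s k51 k34 4 (.s k102 k204 14
  (.s k55 k196 12 (.d k38 k4 k12 4 6))))))), (.s k63 k42 6 (.s k106 k192 14 (.s k110 k204 12 (.s
  k127 k64 6 (.s k93 k76 4 (.s k29 k221 7 (.d k89 k209 k81 9 1)))))))] (.c k75 (.q k135 [(.s k63 k42
  6 (.s k153 k145 1 (.s k204 k110 12 (.s k68 k136 9 (.d k102 k119 k51 4 14))))), (.s k153 k145 1 (.s
  k17 k221 9 (.s k25 k29 1 (.s k51 k34 4 (.s k102 k204 14 (.s k55 k196 12 (.d k38 k4 k12 4 6))))))),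
  (.s k63 k42 6 (.s k106 k192 14 (.s k110 k204 12 (.s k127 k64 6 (.s k93 k76 4 (.s k29 k221 7 (.d
  k89 k209 k81 9 1)))))))] (.c k204 (.l (.s k63 k42 6 (.s k106 k192 14 (.s k153 k145 1 (.s k17 k221
  9 (.s k51 k34 4 (.d k59 k200 k55 12 1))))))) .n)) (.c k135 (.q k75 [(.s k63 k42 6 (.s k153 k145 1
  (.s k204 k110 12 (.s k68 k136 9 (.d k102 k119 k51 4 14))))), (.s k153 k145 1 (.s k17 k221 9 (.s
  k25 k29 1 (.s k51 k34 4 (.s k102 k204 14 (.s k55 k196 12 (.d k38 k4 k12 4 6))))))), (.s k63 k42 6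
  (.s k106 k192 14 (.s k110 k204 12 (.s k127 k64 6 (.s k93 k76 4 (.s k29 k221 7 (.d k89 k209 k81 9
  1)))))))] (.c k204 (.l (.s k63 k42 6 (.s k106 k192 14 (.s k153 k145 1 (.s k17 k221 9 (.s k51 k34 4
  (.d k59 k200 k55 12 1))))))) .n)) (.c k204 (.l (.s k63 k42 6 (.s k106 k192 14 (.s k153 k145 1 (.s
  k17 k221 9 (.s k51 k34 4 (.d k59 k200 k55 12 1))))))) .n)))))

def s15_170_196 : T TT 256 :=
  (.q k1 [(.s k61 k41 5 (.s k149 k213 7 (.s k105 k193 13 (.s k125 k65 5 (.d k253 k189 k169 7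
  13))))), (.s k3 k2 0 (.s k41 k61 5 (.s k22 k60 6 (.s k23 k20 0 (.d k63 k43 k42 5 6))))), (.s k3 k2
  0 (.s k63 k42 6 (.s k43 k23 5 (.s k149 k213 7 (.s k106 k192 14 (.d k169 k232 k253 8 13))))))] .n)

def s15_170_197 : T TT 256 :=
  (.q k1 [(.s k41 k61 5 (.s k42 k63 6 (.s k40 k43 0 (.s k60 k20 5 (.d k3 k2 k22 0 6))))), (.s k61
  k41 5 (.s k149 k213 7 (.s k105 k193 13 (.s k125 k65 5 (.d k253 k189 k169 7 13))))), (.s k3 k2 0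
  (.s k63 k42 6 (.s k43 k23 5 (.s k149 k213 7 (.s k106 k192 14 (.d k169 k232 k253 8 13))))))] .n)

def s15_170_198 : T TT 256 :=
  (.q k1 [(.s k61 k41 5 (.s k149 k213 7 (.s k105 k193 13 (.s k125 k65 5 (.d k253 k189 k169 7
  13))))), (.s k3 k2 0 (.s k41 k61 5 (.s k22 k60 6 (.s k23 k20 0 (.d k63 k43 k42 5 6))))), (.s k3 k2
  0 (.s k63 k42 6 (.s k43 k23 5 (.s k149 k213 7 (.s k106 k192 14 (.d k169 k232 k253 8 13))))))] .n)

def s15_170_199 : T TT 256 :=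
  (.q k1 [(.s k61 k41 5 (.s k149 k213 7 (.s k105 k193 13 (.s k125 k65 5 (.d k253 k189 k169 7
  13))))), (.s k3 k2 0 (.s k41 k61 5 (.s k22 k60 6 (.s k23 k20 0 (.d k63 k43 k42 5 6))))), (.s k3 k2
  0 (.s k63 k42 6 (.s k43 k23 5 (.s k149 k213 7 (.s k106 k192 14 (.d k169 k232 k253 8 13))))))] .n)

def s15_170_200 : T TT 256 :=
  (.q k1 [(.s k61 k41 5 (.s k149 k213 7 (.s k105 k193 13 (.s k125 k65 5 (.d k253 k189 k169 7
  13))))), (.s k3 k2 0 (.s k41 k61 5 (.s k22 k60 6 (.s k23 k20 0 (.d k63 k43 k42 5 6))))), (.s k3 k2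
  0 (.s k63 k42 6 (.s k43 k23 5 (.s k149 k213 7 (.s k106 k192 14 (.d k169 k232 k253 8 13))))))] .n)

def s15_170_201 : T TT 256 :=
  (.q k1 [(.s k61 k41 5 (.s k149 k213 7 (.s k105 k193 13 (.s k125 k65 5 (.d k253 k189 k169 7
  13))))), (.s k3 k2 0 (.s k41 k61 5 (.s k22 k60 6 (.s k23 k20 0 (.d k63 k43 k42 5 6))))), (.s k3 k2
  0 (.s k63 k42 6 (.s k43 k23 5 (.s k149 k213 7 (.s k106 k192 14 (.d k169 k232 k253 8 13))))))] .n)

def s15_170_202 : T TT 256 :=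
  (.q k1 [(.s k61 k41 5 (.s k149 k213 7 (.s k105 k193 13 (.s k125 k65 5 (.d k253 k189 k169 7
  13))))), (.s k3 k2 0 (.s k41 k61 5 (.s k22 k60 6 (.s k23 k20 0 (.d k63 k43 k42 5 6))))), (.s k3 k2
  0 (.s k63 k42 6 (.s k43 k23 5 (.s k149 k213 7 (.s k106 k192 14 (.d k169 k232 k253 8 13))))))] .n)

def s15_170_203 : T TT 256 :=
  (.q k1 [(.s k61 k41 5 (.s k149 k213 7 (.s k105 k193 13 (.s k125 k65 5 (.d k253 k189 k169 7
  13))))), (.s k3 k2 0 (.s k41 k61 5 (.s k22 k60 6 (.s k23 k20 0 (.d k63 k43 k42 5 6))))), (.s k3 k2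
  0 (.s k63 k42 6 (.s k43 k23 5 (.s k149 k213 7 (.s k106 k192 14 (.d k169 k232 k253 8 13))))))] .n)

def s15_170_204 : T TT 256 :=
  (.f k149 k213 7 (.q k125 [(.s k105 k65 5 (.s k61 k193 13 (.s k1 k41 5 (.d k253 k189 k169 7 13)))),
  (.s k63 k42 6 (.s k105 k65 5 (.s k106 k192 14 (.s k107 k104 0 (.s k127 k64 6 (.s k67 k87 5 (.d
  k124 k126 k86 0 6))))))), (.s k63 k42 6 (.s k106 k192 14 (.s k127 k64 6 (.s k126 k124 0 (.s k189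
  k252 8 (.s k169 k129 5 (.d k253 k61 k1 7 13)))))))] (.c k78 (.q k141 [(.s k105 k65 5 (.s k61 k193
  13 (.s k1 k41 5 (.d k253 k189 k169 7 13)))), (.s k63 k42 6 (.s k105 k65 5 (.s k106 k192 14 (.s
  k107 k104 0 (.s k127 k64 6 (.s k67 k87 5 (.d k124 k126 k86 0 6))))))), (.s k63 k42 6 (.s k106 k192
  14 (.s k127 k64 6 (.s k126 k124 0 (.s k189 k252 8 (.s k169 k129 5 (.d k253 k61 k1 7 13)))))))] .n)
  (.c k141 (.q k78 [(.s k105 k65 5 (.s k61 k193 13 (.s k1 k41 5 (.d k253 k189 k169 7 13)))), (.s k63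
  k42 6 (.s k105 k65 5 (.s k106 k192 14 (.s k107 k104 0 (.s k127 k64 6 (.s k67 k87 5 (.d k124 k126
  k86 0 6))))))), (.s k63 k42 6 (.s k106 k192 14 (.s k127 k64 6 (.s k126 k124 0 (.s k189 k252 8 (.s
  k169 k129 5 (.d k253 k61 k1 7 13)))))))] .n) .n))))

def s15_170_205 : T TT 256 :=
  (.q k1 [(.s k61 k41 5 (.s k149 k213 7 (.s k105 k193 13 (.s k125 k65 5 (.d k253 k189 k169 7
  13))))), (.s k3 k2 0 (.s k41 k61 5 (.s k22 k60 6 (.s k23 k20 0 (.d k63 k43 k42 5 6))))), (.s k3 k2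
  0 (.s k63 k42 6 (.s k43 k23 5 (.s k149 k213 7 (.s k106 k192 14 (.d k169 k232 k253 8 13))))))] .n)

def s15_170_206 : T TT 256 :=
  (.q k1 [(.s k61 k41 5 (.s k149 k213 7 (.s k105 k193 13 (.s k125 k65 5 (.d k253 k189 k169 7
  13))))), (.s k3 k2 0 (.s k41 k61 5 (.s k22 k60 6 (.s k23 k20 0 (.d k63 k43 k42 5 6))))), (.s k3 k2
  0 (.s k63 k42 6 (.s k43 k23 5 (.s k149 k213 7 (.s k106 k192 14 (.d k169 k232 k253 8 13))))))] .n)

def s15_170_207 : T TT 256 :=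
  (.f k149 k213 7 (.q k150 [(.s k20 k215 8 (.s k23 k22 0 (.s k148 k151 0 (.d k212 k84 k86 7 8)))),
  (.s k63 k42 6 (.s k151 k148 0 (.s k195 k107 13 (.s k65 k130 8 (.d k105 k125 k60 5 14))))), (.s k20
  k215 8 (.s k60 k40 5 (.s k63 k42 6 (.s k62 k61 0 (.d k106 k194 k192 13 14)))))] (.c k79 (.q k143
  [(.s k20 k215 8 (.s k23 k22 0 (.s k148 k151 0 (.d k212 k84 k86 7 8)))), (.s k63 k42 6 (.s k151
  k148 0 (.s k195 k107 13 (.s k65 k130 8 (.d k105 k125 k60 5 14))))), (.s k20 k215 8 (.s k60 k40 5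
  (.s k63 k42 6 (.s k62 k61 0 (.d k106 k194 k192 13 14)))))] .n) (.c k143 (.q k79 [(.s k20 k215 8
  (.s k23 k22 0 (.s k148 k151 0 (.d k212 k84 k86 7 8)))), (.s k63 k42 6 (.s k151 k148 0 (.s k195
  k107 13 (.s k65 k130 8 (.d k105 k125 k60 5 14))))), (.s k20 k215 8 (.s k60 k40 5 (.s k63 k42 6 (.s
  k62 k61 0 (.d k106 k194 k192 13 14)))))] .n) .n))))

def s15_170_208 : T TT 256 :=
  (.q k1 [(.s k61 k41 5 (.s k149 k213 7 (.s k105 k193 13 (.s k125 k65 5 (.d k253 k189 k169 7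
  13))))), (.s k3 k2 0 (.s k41 k61 5 (.s k22 k60 6 (.s k23 k20 0 (.d k63 k43 k42 5 6))))), (.s k3 k2
  0 (.s k63 k42 6 (.s k43 k23 5 (.s k149 k213 7 (.s k106 k192 14 (.d k169 k232 k253 8 13))))))] .n)

def s15_170_209 : T TT 256 :=
  (.q k1 [(.s k41 k61 5 (.s k42 k63 6 (.s k40 k43 0 (.s k60 k20 5 (.d k3 k2 k22 0 6))))), (.s k61
  k41 5 (.s k149 k213 7 (.s k105 k193 13 (.s k125 k65 5 (.d k253 k189 k169 7 13))))), (.s k3 k2 0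
  (.s k63 k42 6 (.s k43 k23 5 (.s k149 k213 7 (.s k106 k192 14 (.d k169 k232 k253 8 13))))))] .n)

def s15_170_210 : T TT 256 :=
  (.q k1 [(.s k61 k41 5 (.s k149 k213 7 (.s k105 k193 13 (.s k125 k65 5 (.d k253 k189 k169 7
  13))))), (.s k3 k2 0 (.s k41 k61 5 (.s k22 k60 6 (.s k23 k20 0 (.d k63 k43 k42 5 6))))), (.s k3 k2
  0 (.s k63 k42 6 (.s k43 k23 5 (.s k149 k213 7 (.s k106 k192 14 (.d k169 k232 k253 8 13))))))] .n)

def s15_170_211 : T TT 256 :=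
  (.q k1 [(.s k61 k41 5 (.s k149 k213 7 (.s k105 k193 13 (.s k125 k65 5 (.d k253 k189 k169 7
  13))))), (.s k3 k2 0 (.s k41 k61 5 (.s k22 k60 6 (.s k23 k20 0 (.d k63 k43 k42 5 6))))), (.s k3 k2
  0 (.s k63 k42 6 (.s k43 k23 5 (.s k149 k213 7 (.s k106 k192 14 (.d k169 k232 k253 8 13))))))] .n)

def s15_170_212 : T TT 256 :=
  (.q k1 [(.s k61 k41 5 (.s k149 k213 7 (.s k105 k193 13 (.s k125 k65 5 (.d k253 k189 k169 7
  13))))), (.s k3 k2 0 (.s k41 k61 5 (.s k22 k60 6 (.s k23 k20 0 (.d k63 k43 k42 5 6))))), (.s k3 k2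
  0 (.s k63 k42 6 (.s k43 k23 5 (.s k149 k213 7 (.s k106 k192 14 (.d k169 k232 k253 8 13))))))] .n)

def s15_170_213 : T TT 256 :=
  (.q k1 [(.s k41 k61 5 (.s k42 k63 6 (.s k40 k43 0 (.s k60 k20 5 (.d k3 k2 k22 0 6))))), (.s k3 k2
  0 (.s k63 k42 6 (.s k43 k23 5 (.s k169 k253 13 (.s k106 k232 8 (.s k64 k127 6 (.d k192 k128 k149 7
  14))))))), (.s k3 k2 0 (.s k41 k61 5 (.s k60 k22 6 (.s k20 k40 5 (.s k150 k215 8 (.s k105 k195 14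
  (.d k169 k233 k253 7 13)))))))] (.c k2 (.f k253 k169 13 (.f k63 k42 6 (.f k61 k41 5 (.l (.s k125
  k189 7 (.s k105 k65 5 (.s k149 k193 13 (.s k106 k192 14 (.s k107 k104 0 (.s k195 k151 13 (.d k60
  k62 k150 0 14))))))))))) (.c k3 (.f k61 k41 5 (.l (.s k63 k42 6 (.s k60 k62 0 (.s k253 k169 13 (.s
  k125 k189 7 (.s k105 k65 5 (.s k150 k195 14 (.d k20 k40 k215 5 8))))))))) (.c k22 (.q k4 [(.s k38
  k55 4 (.s k42 k63 6 (.s k34 k46 1 (.s k51 k17 4 (.d k12 k8 k25 1 6))))), (.s k38 k55 4 (.s k41 k61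
  5 (.s k35 k44 2 (.s k166 k247 12 (.s k169 k253 13 (.d k102 k230 k236 7 10)))))), (.s k3 k2 0 (.s
  k12 k8 1 (.s k6 k9 2 (.s k166 k247 12 (.s k86 k246 11 (.d k169 k253 k252 13 14))))))] .n) (.c k42
  (.l (.s k3 k2 0 (.s k41 k61 5 (.s k22 k60 6 (.s k20 k23 0 (.s k150 k215 8 (.s k169 k253 13 (.d k86
  k214 k252 7 14)))))))) (.c k62 (.l (.s k3 k2 0 (.s k41 k61 5 (.s k22 k60 6 (.s k63 k42 6 (.d k23
  k20 k43 0 5)))))) .n))))))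

def s15_170_214 : T TT 256 :=
  (.q k1 [(.s k61 k41 5 (.s k149 k213 7 (.s k105 k193 13 (.s k125 k65 5 (.d k253 k189 k169 7
  13))))), (.s k3 k2 0 (.s k41 k61 5 (.s k22 k60 6 (.s k23 k20 0 (.d k63 k43 k42 5 6))))), (.s k3 k2
  0 (.s k63 k42 6 (.s k43 k23 5 (.s k149 k213 7 (.s k106 k192 14 (.d k169 k232 k253 8 13))))))] .n)

def s15_170_215 : T TT 256 :=
  (.q k1 [(.s k61 k41 5 (.s k149 k213 7 (.s k105 k193 13 (.s k125 k65 5 (.d k253 k189 k169 7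
  13))))), (.s k3 k2 0 (.s k41 k61 5 (.s k22 k60 6 (.s k23 k20 0 (.d k63 k43 k42 5 6))))), (.s k3 k2
  0 (.s k63 k42 6 (.s k43 k23 5 (.s k149 k213 7 (.s k106 k192 14 (.d k169 k232 k253 8 13))))))] .n)

def s15_170_216 : T TT 256 :=
  (.q k1 [(.s k61 k41 5 (.s k149 k213 7 (.s k105 k193 13 (.s k125 k65 5 (.d k253 k189 k169 7
  13))))), (.s k3 k2 0 (.s k41 k61 5 (.s k22 k60 6 (.s k23 k20 0 (.d k63 k43 k42 5 6))))), (.s k3 k2
  0 (.s k63 k42 6 (.s k43 k23 5 (.s k149 k213 7 (.s k106 k192 14 (.d k169 k232 k253 8 13))))))] .n)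

def s15_170_217 : T TT 256 :=
  (.q k1 [(.s k61 k41 5 (.s k149 k213 7 (.s k105 k193 13 (.s k125 k65 5 (.d k253 k189 k169 7
  13))))), (.s k3 k2 0 (.s k41 k61 5 (.s k22 k60 6 (.s k23 k20 0 (.d k63 k43 k42 5 6))))), (.s k3 k2
  0 (.s k63 k42 6 (.s k43 k23 5 (.s k149 k213 7 (.s k106 k192 14 (.d k169 k232 k253 8 13))))))] .n)

def s15_170_218 : T TT 256 :=
  (.q k1 [(.s k61 k41 5 (.s k149 k213 7 (.s k105 k193 13 (.s k125 k65 5 (.d k253 k189 k169 7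
  13))))), (.s k3 k2 0 (.s k41 k61 5 (.s k22 k60 6 (.s k23 k20 0 (.d k63 k43 k42 5 6))))), (.s k3 k2
  0 (.s k63 k42 6 (.s k43 k23 5 (.s k149 k213 7 (.s k106 k192 14 (.d k169 k232 k253 8 13))))))] .n)

def s15_170_219 : T TT 256 :=
  (.q k1 [(.s k61 k41 5 (.s k149 k213 7 (.s k105 k193 13 (.s k125 k65 5 (.d k253 k189 k169 7
  13))))), (.s k3 k2 0 (.s k41 k61 5 (.s k22 k60 6 (.s k23 k20 0 (.d k63 k43 k42 5 6))))), (.s k3 k2
  0 (.s k63 k42 6 (.s k43 k23 5 (.s k149 k213 7 (.s k106 k192 14 (.d k169 k232 k253 8 13))))))] .n)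

def s15_170_220 : T TT 256 :=
  (.q k1 [(.s k61 k41 5 (.s k149 k213 7 (.s k105 k193 13 (.s k125 k65 5 (.d k253 k189 k169 7
  13))))), (.s k3 k2 0 (.s k41 k61 5 (.s k22 k60 6 (.s k23 k20 0 (.d k63 k43 k42 5 6))))), (.s k3 k2
  0 (.s k63 k42 6 (.s k43 k23 5 (.s k149 k213 7 (.s k106 k192 14 (.d k169 k232 k253 8 13))))))] .n)

def s15_170_221 : T TT 256 :=
  (.q k1 [(.s k61 k41 5 (.s k149 k213 7 (.s k105 k193 13 (.s k125 k65 5 (.d k253 k189 k169 7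
  13))))), (.s k3 k2 0 (.s k41 k61 5 (.s k22 k60 6 (.s k23 k20 0 (.d k63 k43 k42 5 6))))), (.s k3 k2
  0 (.s k63 k42 6 (.s k43 k23 5 (.s k149 k213 7 (.s k106 k192 14 (.d k169 k232 k253 8 13))))))] .n)

def s15_170_222 : T TT 256 :=
  (.q k1 [(.s k61 k41 5 (.s k149 k213 7 (.s k105 k193 13 (.s k125 k65 5 (.d k253 k189 k169 7
  13))))), (.s k3 k2 0 (.s k41 k61 5 (.s k22 k60 6 (.s k23 k20 0 (.d k63 k43 k42 5 6))))), (.s k3 k2
  0 (.s k63 k42 6 (.s k43 k23 5 (.s k149 k213 7 (.s k106 k192 14 (.d k169 k232 k253 8 13))))))] .n)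

def s15_170_223 : T TT 256 :=
  (.q k1 [(.s k61 k41 5 (.s k149 k213 7 (.s k105 k193 13 (.s k125 k65 5 (.d k253 k189 k169 7
  13))))), (.s k3 k2 0 (.s k41 k61 5 (.s k22 k60 6 (.s k23 k20 0 (.d k63 k43 k42 5 6))))), (.s k3 k2
  0 (.s k63 k42 6 (.s k43 k23 5 (.s k149 k213 7 (.s k106 k192 14 (.d k169 k232 k253 8 13))))))] .n)

def s15_170_224 : T TT 256 :=
  (.q k1 [(.s k61 k41 5 (.s k149 k213 7 (.s k105 k193 13 (.s k125 k65 5 (.d k253 k189 k169 7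
  13))))), (.s k3 k2 0 (.s k41 k61 5 (.s k22 k60 6 (.s k23 k20 0 (.d k63 k43 k42 5 6))))), (.s k3 k2
  0 (.s k63 k42 6 (.s k43 k23 5 (.s k149 k213 7 (.s k106 k192 14 (.d k169 k232 k253 8 13))))))] .n)

def s15_170_225 : T TT 256 :=
  (.q k1 [(.s k61 k41 5 (.s k149 k213 7 (.s k105 k193 13 (.s k125 k65 5 (.d k253 k189 k169 7
  13))))), (.s k3 k2 0 (.s k41 k61 5 (.s k22 k60 6 (.s k23 k20 0 (.d k63 k43 k42 5 6))))), (.s k3 k2
  0 (.s k63 k42 6 (.s k43 k23 5 (.s k149 k213 7 (.s k106 k192 14 (.d k169 k232 k253 8 13))))))] .n)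

def s15_170_226 : T TT 256 :=
  (.q k1 [(.s k61 k41 5 (.s k149 k213 7 (.s k105 k193 13 (.s k125 k65 5 (.d k253 k189 k169 7
  13))))), (.s k3 k2 0 (.s k41 k61 5 (.s k22 k60 6 (.s k23 k20 0 (.d k63 k43 k42 5 6))))), (.s k3 k2
  0 (.s k63 k42 6 (.s k43 k23 5 (.s k149 k213 7 (.s k106 k192 14 (.d k169 k232 k253 8 13))))))] .n)

def s15_170_227 : T TT 256 :=
  (.q k1 [(.s k61 k41 5 (.s k149 k213 7 (.s k105 k193 13 (.s k125 k65 5 (.d k253 k189 k169 7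
  13))))), (.s k3 k2 0 (.s k41 k61 5 (.s k22 k60 6 (.s k23 k20 0 (.d k63 k43 k42 5 6))))), (.s k3 k2
  0 (.s k63 k42 6 (.s k43 k23 5 (.s k149 k213 7 (.s k106 k192 14 (.d k169 k232 k253 8 13))))))] .n)

def s15_170_228 : T TT 256 :=
  (.q k1 [(.s k61 k41 5 (.s k149 k213 7 (.s k105 k193 13 (.s k125 k65 5 (.d k253 k189 k169 7
  13))))), (.s k3 k2 0 (.s k41 k61 5 (.s k22 k60 6 (.s k23 k20 0 (.d k63 k43 k42 5 6))))), (.s k3 k2
  0 (.s k63 k42 6 (.s k43 k23 5 (.s k149 k213 7 (.s k106 k192 14 (.d k169 k232 k253 8 13))))))] .n)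

def s15_170_229 : T TT 256 :=
  (.q k1 [(.s k61 k41 5 (.s k149 k213 7 (.s k105 k193 13 (.s k125 k65 5 (.d k253 k189 k169 7
  13))))), (.s k3 k2 0 (.s k41 k61 5 (.s k22 k60 6 (.s k23 k20 0 (.d k63 k43 k42 5 6))))), (.s k3 k2
  0 (.s k63 k42 6 (.s k43 k23 5 (.s k149 k213 7 (.s k106 k192 14 (.d k169 k232 k253 8 13))))))] .n)

def s15_170_230 : T TT 256 :=
  (.q k1 [(.s k61 k41 5 (.s k149 k213 7 (.s k105 k193 13 (.s k125 k65 5 (.d k253 k189 k169 7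
  13))))), (.s k3 k2 0 (.s k41 k61 5 (.s k22 k60 6 (.s k23 k20 0 (.d k63 k43 k42 5 6))))), (.s k3 k2
  0 (.s k63 k42 6 (.s k43 k23 5 (.s k149 k213 7 (.s k106 k192 14 (.d k169 k232 k253 8 13))))))] .n)

def s15_170_231 : T TT 256 :=
  (.q k1 [(.s k61 k41 5 (.s k149 k213 7 (.s k105 k193 13 (.s k125 k65 5 (.d k253 k189 k169 7
  13))))), (.s k3 k2 0 (.s k41 k61 5 (.s k22 k60 6 (.s k23 k20 0 (.d k63 k43 k42 5 6))))), (.s k3 k2
  0 (.s k63 k42 6 (.s k43 k23 5 (.s k149 k213 7 (.s k106 k192 14 (.d k169 k232 k253 8 13))))))] .n)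

def s15_170_232 : T TT 256 :=
  (.q k1 [(.s k61 k41 5 (.s k149 k213 7 (.s k105 k193 13 (.s k125 k65 5 (.d k253 k189 k169 7
  13))))), (.s k3 k2 0 (.s k41 k61 5 (.s k22 k60 6 (.s k23 k20 0 (.d k63 k43 k42 5 6))))), (.s k3 k2
  0 (.s k63 k42 6 (.s k149 k213 7 (.s k169 k253 13 (.s k86 k252 14 (.d k23 k212 k43 8 5))))))] .n)

def s15_170_233 : T TT 256 :=
  (.q k1 [(.s k61 k41 5 (.s k149 k213 7 (.s k105 k193 13 (.s k253 k169 13 (.d k125 k65 k189 5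
  7))))), (.s k3 k2 0 (.s k41 k61 5 (.s k22 k60 6 (.s k23 k20 0 (.d k63 k43 k42 5 6))))), (.s k3 k2
  0 (.s k63 k42 6 (.s k43 k23 5 (.s k149 k213 7 (.s k106 k192 14 (.d k169 k253 k232 13 8))))))] .n)

def s15_170_234 : T TT 256 :=
  (.q k1 [(.s k61 k41 5 (.s k149 k213 7 (.s k105 k193 13 (.s k125 k65 5 (.d k253 k189 k169 7
  13))))), (.s k3 k2 0 (.s k41 k61 5 (.s k22 k60 6 (.s k23 k20 0 (.d k63 k42 k43 6 5))))), (.s k3 k2
  0 (.s k149 k213 7 (.s k169 k253 13 (.s k86 k252 14 (.s k23 k212 8 (.d k63 k42 k43 6 5))))))] (.c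
  k42 (.q k106 [(.s k64 k127 6 (.s k149 k213 7 (.d k192 k128 k63 7 14))), (.s k3 k2 0 (.s k41 k61 5
  (.s k22 k60 6 (.s k23 k20 0 (.s k169 k253 13 (.d k43 k63 k232 5 8))))))] (.c k63 (.l (.s k61 k41 5
  (.s k149 k213 7 (.s k105 k193 13 (.s k125 k65 5 (.d k253 k189 k169 7 13)))))) .n)) (.c k106 (.l
  (.s k42 k63 6 (.s k3 k2 0 (.s k41 k61 5 (.s k40 k43 0 (.d k60 k20 k22 5 6)))))) .n)))

def s15_170_235 : T TT 256 :=
  (.q k105 [(.s k125 k65 5 (.s k149 k213 7 (.s k61 k193 13 (.s k1 k41 5 (.d k253 k189 k169 7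
  13))))), (.s k63 k42 6 (.s k65 k125 5 (.s k195 k130 8 (.s k107 k151 13 (.s k106 k104 0 (.s k64
  k127 6 (.d k192 k128 k149 7 14))))))), (.s k63 k42 6 (.s k149 k213 7 (.s k61 k193 13 (.s k60 k62 0
  (.s k20 k40 5 (.d k150 k215 k195 8 14))))))] (.c k149 (.f k63 k42 6 (.f k65 k125 5 (.l (.s k195
  k130 8 (.s k107 k151 13 (.s k106 k104 0 (.s k64 k127 6 (.s k150 k60 14 (.s k194 k62 13 (.d k192
  k193 k128 0 7)))))))))) .n))

def s15_170_236 : T TT 256 :=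
  (.q k1 [(.s k61 k41 5 (.s k149 k213 7 (.s k105 k193 13 (.s k125 k65 5 (.d k253 k189 k169 7
  13))))), (.s k3 k2 0 (.s k41 k61 5 (.s k22 k60 6 (.s k23 k20 0 (.d k63 k43 k42 5 6))))), (.s k3 k2
  0 (.s k63 k42 6 (.s k43 k23 5 (.s k149 k213 7 (.s k106 k192 14 (.d k169 k232 k253 8 13))))))] .n)

def s15_170_237 : T TT 256 :=
  (.q k1 [(.s k61 k41 5 (.s k149 k213 7 (.s k105 k193 13 (.s k125 k65 5 (.d k253 k189 k169 7
  13))))), (.s k3 k2 0 (.s k41 k61 5 (.s k22 k60 6 (.s k23 k20 0 (.d k63 k43 k42 5 6))))), (.s k3 k2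
  0 (.s k63 k42 6 (.s k43 k23 5 (.s k149 k213 7 (.s k106 k192 14 (.d k169 k232 k253 8 13))))))] .n)

def s15_170_238 : T TT 256 :=
  (.q k102 [(.s k119 k68 4 (.s k149 k213 7 (.s k55 k196 12 (.s k4 k38 4 (.d k247 k183 k166 7
  12))))), (.s k63 k42 6 (.s k68 k119 4 (.s k204 k136 9 (.s k110 k157 12 (.s k106 k98 1 (.s k64 k127
  6 (.d k192 k128 k149 7 14))))))), (.s k63 k42 6 (.s k149 k213 7 (.s k55 k196 12 (.s k51 k59 1 (.s
  k17 k34 4 (.d k153 k221 k204 9 14))))))] (.c k149 (.f k42 k63 6 (.f k68 k119 4 (.f k204 k136 9 (.l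
  (.s k153 k51 14 (.s k17 k221 9 (.s k25 k29 1 (.s k89 k217 7 (.s k76 k115 6 (.s k12 k140 7 (.d k8
  k59 k4 4 1))))))))))) .n))

def s15_170_239 : T TT 256 :=
  (.q k101 [(.s k117 k69 3 (.s k149 k213 7 (.s k53 k197 11 (.s k245 k181 7 (.d k5 k37 k165 3
  11))))), (.s k63 k42 6 (.s k69 k117 3 (.s k207 k138 10 (.s k111 k159 11 (.s k106 k96 2 (.s k64
  k127 6 (.d k192 k128 k149 7 14))))))), (.s k63 k42 6 (.s k149 k213 7 (.s k53 k197 11 (.s k48 k58 2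
  (.s k16 k32 3 (.d k154 k223 k207 10 14))))))] (.c k149 (.f k63 k42 6 (.f k69 k117 3 (.l (.s k207
  k138 10 (.s k111 k159 11 (.s k106 k96 2 (.s k64 k127 6 (.s k154 k48 14 (.s k202 k58 11 (.d k192
  k197 k128 2 7)))))))))) .n))

def s15_170_240 : T TT 256 :=
  (.f k149 k213 7 (.q k101 [(.s k53 k197 11 (.s k5 k37 3 (.s k117 k69 3 (.d k245 k165 k181 11 7)))),
  (.s k63 k42 6 (.s k69 k117 3 (.s k106 k192 14 (.s k111 k96 2 (.d k207 k138 k159 10 11))))), (.s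
  k53 k197 11 (.s k63 k42 6 (.s k48 k58 2 (.s k16 k32 3 (.d k154 k223 k207 10 14)))))] (.c k48 (.l
  (.s k53 k197 11 (.s k117 k69 3 (.s k245 k181 7 (.d k5 k37 k165 3 11))))) (.c k90 (.q k165 [(.s k5
  k245 11 (.d k37 k229 k53 7 3)), (.s k63 k42 6 (.s k69 k117 3 (.s k106 k192 14 (.s k111 k96 2 (.d
  k207 k138 k159 10 11)))))] (.c k10 (.q k250 [(.s k5 k245 11 (.d k37 k229 k53 7 3)), (.s k63 k42 6
  (.s k69 k117 3 (.s k106 k192 14 (.s k111 k96 2 (.d k207 k138 k159 10 11)))))] .n) (.c k250 (.q k10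
  [(.s k53 k197 11 (.d k5 k245 k37 11 3)), (.s k63 k42 6 (.s k69 k117 3 (.s k106 k192 14 (.s k111
  k96 2 (.d k207 k138 k159 10 11)))))] (.c k245 (.q k255 [(.s k63 k42 6 (.s k127 k191 7 (.d k106 k64
  k192 6 14))), (.s k69 k117 3 (.s k207 k138 10 (.s k154 k48 14 (.d k223 k239 k16 3 10))))] (.c k197
  (.l (.s k229 k37 7 (.s k63 k42 6 (.s k106 k192 14 (.d k127 k64 k191 6 7))))) (.c k229 (.l (.s k197
  k53 11 (.s k63 k42 6 (.s k106 k192 14 (.d k127 k64 k191 6 7))))) .n))) (.c k255 (.l (.s k245 k5 11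
  (.s k53 k197 11 (.d k117 k69 k181 3 7)))) .n))) (.c k255 (.l (.s k37 k229 7 (.d k5 k245 k53 11
  3))) .n)))) (.c k165 (.q k90 [(.s k31 k208 10 (.s k16 k26 2 (.s k48 k32 3 (.d k154 k223 k207 10
  14)))), (.s k53 k197 11 (.s k63 k42 6 (.s k69 k117 3 (.s k207 k138 10 (.d k48 k154 k58 14 2))))),
  (.s k31 k208 10 (.s k95 k80 2 (.s k223 k159 7 (.d k16 k26 k154 2 10))))] (.c k154 (.l (.s k31 k208
  10 (.s k16 k26 2 (.s k48 k32 3 (.s k53 k197 11 (.d k63 k58 k42 2 6)))))) (.c k160 (.q k175 [(.s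
  k31 k208 10 (.s k95 k80 2 (.s k223 k159 7 (.d k16 k26 k154 2 10)))), (.s k53 k197 11 (.s k63 k42 6
  (.s k69 k117 3 (.s k207 k138 10 (.d k48 k154 k58 14 2)))))] (.c k154 (.l (.s k31 k208 10 (.s k16
  k26 2 (.s k48 k32 3 (.s k53 k197 11 (.d k63 k58 k42 2 6)))))) .n)) (.c k175 (.q k160 [(.s k31 k208
  10 (.s k16 k26 2 (.s k48 k32 3 (.d k154 k223 k207 10 14)))), (.s k53 k197 11 (.s k63 k42 6 (.s k69
  k117 3 (.s k207 k138 10 (.d k48 k154 k58 14 2))))), (.s k31 k208 10 (.s k95 k80 2 (.s k223 k159 7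
  (.d k16 k26 k154 2 10))))] (.c k95 (.q k255 [(.s k63 k42 6 (.s k127 k191 7 (.d k106 k64 k192 6
  14))), (.s k31 k208 10 (.s k16 k26 2 (.s k48 k32 3 (.d k117 k69 k186 3 10))))] (.c k192 (.l (.s
  k53 k197 11 (.s k63 k42 6 (.s k48 k58 2 (.d k117 k69 k186 3 10))))) .n)) (.c k154 (.l (.s k31 k208
  10 (.s k16 k26 2 (.s k48 k32 3 (.s k53 k197 11 (.d k63 k58 k42 2 6)))))) (.c k255 (.l (.s k95 k80
  2 (.s k31 k208 10 (.s k16 k26 2 (.d k223 k159 k154 7 10))))) .n)))) .n)))) .n)))))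

def s15_170_241 : T TT 256 :=
  (.q k1 [(.s k61 k41 5 (.s k149 k213 7 (.s k105 k193 13 (.s k125 k65 5 (.d k253 k189 k169 7
  13))))), (.s k3 k2 0 (.s k41 k61 5 (.s k22 k60 6 (.s k23 k20 0 (.d k63 k43 k42 5 6))))), (.s k3 k2
  0 (.s k63 k42 6 (.s k43 k23 5 (.s k149 k213 7 (.s k106 k192 14 (.d k169 k232 k253 8 13))))))] .n)

def s15_170_242 : T TT 256 :=
  (.q k1 [(.s k61 k41 5 (.s k149 k213 7 (.s k105 k193 13 (.s k125 k65 5 (.d k253 k189 k169 7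
  13))))), (.s k3 k2 0 (.s k41 k61 5 (.s k22 k60 6 (.s k23 k20 0 (.d k63 k43 k42 5 6))))), (.s k3 k2
  0 (.s k63 k42 6 (.s k43 k23 5 (.s k149 k213 7 (.s k106 k192 14 (.d k169 k232 k253 8 13))))))] .n)

def s15_170_243 : T TT 256 :=
  (.f k149 k213 7 (.q k105 [(.s k61 k193 13 (.s k1 k41 5 (.s k125 k65 5 (.d k253 k189 k169 7 13)))),
  (.s k63 k42 6 (.s k65 k125 5 (.s k106 k192 14 (.s k107 k104 0 (.d k195 k130 k151 8 13))))), (.s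
  k61 k193 13 (.s k63 k42 6 (.s k60 k62 0 (.s k20 k40 5 (.d k150 k215 k195 8 14)))))] (.c k91 (.q
  k167 [(.s k61 k193 13 (.s k1 k41 5 (.s k125 k65 5 (.d k253 k189 k169 7 13)))), (.s k63 k42 6 (.s
  k65 k125 5 (.s k106 k192 14 (.s k107 k104 0 (.d k195 k130 k151 8 13))))), (.s k61 k193 13 (.s k63
  k42 6 (.s k60 k62 0 (.s k20 k40 5 (.d k150 k215 k195 8 14)))))] .n) (.c k167 (.q k91 [(.s k61 k193
  13 (.s k1 k41 5 (.s k125 k65 5 (.d k253 k189 k169 7 13)))), (.s k63 k42 6 (.s k65 k125 5 (.s k106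
  k192 14 (.s k107 k104 0 (.d k195 k130 k151 8 13))))), (.s k61 k193 13 (.s k63 k42 6 (.s k60 k62 0
  (.s k20 k40 5 (.d k150 k215 k195 8 14)))))] .n) .n))))

def s15_170_244 : T TT 256 :=
  (.q k1 [(.s k61 k41 5 (.s k149 k213 7 (.s k105 k193 13 (.s k125 k65 5 (.d k253 k189 k169 7
  13))))), (.s k3 k2 0 (.s k41 k61 5 (.s k22 k60 6 (.s k23 k20 0 (.d k63 k43 k42 5 6))))), (.s k3 k2
  0 (.s k63 k42 6 (.s k43 k23 5 (.s k149 k213 7 (.s k106 k192 14 (.d k169 k232 k253 8 13))))))] .n)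

def s15_170_245 : T TT 256 :=
  (.q k1 [(.s k61 k41 5 (.s k149 k213 7 (.s k105 k193 13 (.s k125 k65 5 (.d k253 k189 k169 7
  13))))), (.s k3 k2 0 (.s k41 k61 5 (.s k22 k60 6 (.s k23 k20 0 (.d k63 k43 k42 5 6))))), (.s k3 k2
  0 (.s k63 k42 6 (.s k43 k23 5 (.s k149 k213 7 (.s k106 k192 14 (.d k169 k232 k253 8 13))))))] .n)

def s15_170_246 : T TT 256 :=
  (.q k1 [(.s k61 k41 5 (.s k149 k213 7 (.s k105 k193 13 (.s k125 k65 5 (.d k253 k189 k169 7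
  13))))), (.s k3 k2 0 (.s k41 k61 5 (.s k22 k60 6 (.s k23 k20 0 (.d k63 k43 k42 5 6))))), (.s k3 k2
  0 (.s k63 k42 6 (.s k43 k23 5 (.s k149 k213 7 (.s k106 k192 14 (.d k169 k232 k253 8 13))))))] .n)

def s15_170_247 : T TT 256 :=
  (.q k1 [(.s k61 k41 5 (.s k149 k213 7 (.s k105 k193 13 (.s k125 k65 5 (.d k253 k189 k169 7
  13))))), (.s k3 k2 0 (.s k41 k61 5 (.s k22 k60 6 (.s k23 k20 0 (.d k63 k43 k42 5 6))))), (.s k3 k2
  0 (.s k63 k42 6 (.s k43 k23 5 (.s k149 k213 7 (.s k106 k192 14 (.d k169 k232 k253 8 13))))))] .n)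

def s15_170_248 : T TT 256 :=
  (.q k1 [(.s k61 k41 5 (.s k149 k213 7 (.s k105 k193 13 (.s k125 k65 5 (.d k253 k189 k169 7
  13))))), (.s k3 k2 0 (.s k41 k61 5 (.s k22 k60 6 (.s k23 k20 0 (.d k63 k43 k42 5 6))))), (.s k3 k2
  0 (.s k63 k42 6 (.s k43 k23 5 (.s k149 k213 7 (.s k106 k192 14 (.d k169 k232 k253 8 13))))))] .n)

def s15_170_249 : T TT 256 :=
  (.q k1 [(.s k61 k41 5 (.s k149 k213 7 (.s k105 k193 13 (.s k125 k65 5 (.d k253 k189 k169 7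
  13))))), (.s k3 k2 0 (.s k41 k61 5 (.s k22 k60 6 (.s k23 k20 0 (.d k63 k43 k42 5 6))))), (.s k3 k2
  0 (.s k63 k42 6 (.s k43 k23 5 (.s k149 k213 7 (.s k106 k192 14 (.d k169 k232 k253 8 13))))))] .n)

def s15_170_250 : T TT 256 :=
  (.f k149 k213 7 (.q k90 [(.s k31 k208 10 (.s k95 k80 2 (.s k223 k159 7 (.d k16 k26 k154 2 10)))),
  (.s k63 k42 6 (.s k80 k95 2 (.s k106 k192 14 (.s k240 k160 11 (.d k122 k74 k181 3 10))))), (.s k31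
  k208 10 (.s k16 k26 2 (.s k48 k32 3 (.s k63 k42 6 (.s k58 k53 2 (.s k106 k192 14 (.d k154 k223
  k202 10 11)))))))] .n))

def s15_170_251 : T TT 256 :=
  (.q k4 [(.s k55 k38 4 (.s k149 k213 7 (.s k102 k196 12 (.s k119 k68 4 (.d k247 k183 k166 7
  12))))), (.s k38 k55 4 (.s k42 k63 6 (.s k34 k46 1 (.s k51 k17 4 (.d k12 k8 k25 1 6))))), (.s k63
  k42 6 (.s k149 k213 7 (.s k106 k192 14 (.s k166 k247 12 (.s k46 k226 9 (.d k12 k8 k29 1 4))))))]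
  (.c k8 (.q k89 [(.s k81 k93 1 (.s k166 k247 12 (.d k243 k162 k12 12 14))), (.s k55 k38 4 (.s k149
  k213 7 (.s k102 k196 12 (.s k119 k68 4 (.d k247 k183 k166 7 12))))), (.s k93 k81 1 (.s k149 k213 7
  (.s k29 k209 9 (.s k17 k25 1 (.d k221 k157 k153 7 9)))))] .n) (.c k89 (.l (.s k8 k12 1 (.s k55 k38
  4 (.s k149 k213 7 (.s k102 k196 12 (.s k119 k68 4 (.d k247 k166 k183 12 7))))))) .n)))

def s15_170_252 : T TT 256 :=
  (.f k149 k213 7 (.q k105 [(.s k61 k193 13 (.s k1 k41 5 (.s k125 k65 5 (.d k253 k189 k169 7 13)))),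
  (.s k63 k42 6 (.s k65 k125 5 (.s k106 k192 14 (.s k107 k104 0 (.d k195 k130 k151 8 13))))), (.s
  k61 k193 13 (.s k63 k42 6 (.s k60 k62 0 (.s k20 k40 5 (.d k150 k215 k195 8 14)))))] (.c k94 (.q
  k173 [(.s k61 k193 13 (.s k1 k41 5 (.s k125 k65 5 (.d k253 k189 k169 7 13)))), (.s k63 k42 6 (.s
  k65 k125 5 (.s k106 k192 14 (.s k107 k104 0 (.d k195 k130 k151 8 13))))), (.s k61 k193 13 (.s k63
  k42 6 (.s k60 k62 0 (.s k20 k40 5 (.d k150 k215 k195 8 14)))))] .n) (.c k173 (.q k94 [(.s k61 k193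
  13 (.s k1 k41 5 (.s k125 k65 5 (.d k253 k189 k169 7 13)))), (.s k63 k42 6 (.s k65 k125 5 (.s k106
  k192 14 (.s k107 k104 0 (.d k195 k130 k151 8 13))))), (.s k61 k193 13 (.s k63 k42 6 (.s k60 k62 0
  (.s k20 k40 5 (.d k150 k215 k195 8 14)))))] .n) .n))))

def s15_170_253 : T TT 256 :=
  (.q k4 [(.s k55 k38 4 (.s k149 k213 7 (.s k102 k196 12 (.s k119 k68 4 (.d k247 k183 k166 7
  12))))), (.s k12 k8 1 (.s k38 k55 4 (.s k25 k51 6 (.s k29 k17 1 (.d k63 k46 k42 4 6))))), (.s k12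
  k8 1 (.s k63 k42 6 (.s k46 k29 4 (.s k149 k213 7 (.s k106 k192 14 (.d k166 k226 k247 9 12))))))]
  .n)

def s15_170_254 : T TT 256 :=
  (.q k86 [(.s k87 k84 0 (.s k149 k213 7 (.s k23 k212 8 (.s k20 k22 0 (.d k215 k151 k150 7 8))))),
  (.s k63 k42 6 (.s k84 k87 0 (.s k252 k168 13 (.s k126 k189 8 (.s k106 k66 5 (.s k64 k127 6 (.d
  k192 k128 k149 7 14))))))), (.s k63 k42 6 (.s k149 k213 7 (.s k23 k212 8 (.s k3 k43 5 (.s k1 k2 0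
  (.d k169 k253 k252 13 14))))))] (.c k149 (.f k42 k63 6 (.f k84 k87 0 (.f k252 k168 13 (.l (.s k169
  k3 14 (.s k1 k253 13 (.s k41 k61 5 (.s k105 k233 7 (.s k124 k67 6 (.s k60 k188 7 (.d k40 k43 k20 0
  5))))))))))) .n))

def s15_170_255 : T TT 256 :=
  (.q k1 [(.s k61 k41 5 (.s k149 k213 7 (.s k105 k193 13 (.s k125 k65 5 (.d k253 k189 k169 7
  13))))), (.s k3 k2 0 (.s k41 k61 5 (.s k42 k63 6 (.s k40 k43 0 (.d k60 k20 k22 5 6))))), (.s k3 k2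
  0 (.s k63 k42 6 (.s k43 k23 5 (.s k149 k213 7 (.s k169 k253 13 (.d k106 k192 k232 14 8))))))] (.c
  k95 (.q k175 [(.s k61 k41 5 (.s k149 k213 7 (.s k105 k193 13 (.s k125 k65 5 (.d k253 k189 k169 7
  13))))), (.s k3 k2 0 (.s k41 k61 5 (.s k42 k63 6 (.s k40 k43 0 (.d k60 k20 k22 5 6))))), (.s k3 k2
  0 (.s k63 k42 6 (.s k43 k23 5 (.s k149 k213 7 (.s k169 k253 13 (.d k106 k192 k232 14 8))))))] .n)
  (.c k175 (.q k95 [(.s k61 k41 5 (.s k149 k213 7 (.s k105 k193 13 (.s k125 k65 5 (.d k253 k189 k169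
  7 13))))), (.s k3 k2 0 (.s k41 k61 5 (.s k42 k63 6 (.s k40 k43 0 (.d k60 k20 k22 5 6))))), (.s k90
  k80 2 (.s k149 k213 7 (.s k31 k208 10 (.s k16 k26 2 (.d k223 k159 k154 7 10)))))] (.c k160 (.q
  k165 [(.s k5 k245 11 (.s k13 k9 1 (.s k89 k241 13 (.s k93 k81 1 (.d k253 k173 k169 11 13))))), (.s
  k3 k2 0 (.s k41 k61 5 (.s k22 k60 6 (.s k23 k20 0 (.d k63 k43 k42 5 6)))))] .n) (.c k165 (.q k160
  [(.d k80 k90 k240 2 11)] (.c k80 (.l (.s k3 k2 0 (.s k41 k61 5 (.s k22 k60 6 (.s k23 k20 0 (.d k63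
  k43 k42 5 6)))))) (.c k90 (.l (.s k240 k80 11 (.s k3 k2 0 (.s k161 k82 12 (.s k81 k241 11 (.d k162
  k163 k243 0 12)))))) (.c k240 (.l (.s k90 k80 2 (.s k149 k213 7 (.s k31 k208 10 (.s k16 k26 2 (.d
  k223 k159 k154 7 10)))))) .n)))) .n))) .n)))

def t15_170 : T TT 256 :=
  (.q k21 [] (.c k1 s15_170_1 (.c k2 s15_170_2 (.c k3 s15_170_3 (.c k4 s15_170_4 (.c k5 s15_170_5
  (.c k6 s15_170_6 (.c k7 s15_170_7 (.c k8 s15_170_8 (.c k9 s15_170_9 (.c k10 s15_170_10 (.c k11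
  s15_170_11 (.c k12 s15_170_12 (.c k13 s15_170_13 (.c k14 s15_170_14 (.c k16 s15_170_16 (.c k17
  s15_170_17 (.c k18 s15_170_18 (.c k19 s15_170_19 (.c k20 s15_170_20 (.c k22 s15_170_22 (.c k23
  s15_170_23 (.c k24 s15_170_24 (.c k25 s15_170_25 (.c k26 s15_170_26 (.c k27 s15_170_27 (.c k28
  s15_170_28 (.c k29 s15_170_29 (.c k30 s15_170_30 (.c k31 s15_170_31 (.c k32 s15_170_32 (.c k33
  s15_170_33 (.c k34 s15_170_34 (.c k35 s15_170_35 (.c k36 s15_170_36 (.c k37 s15_170_37 (.c k38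
  s15_170_38 (.c k39 s15_170_39 (.c k40 s15_170_40 (.c k41 s15_170_41 (.c k42 s15_170_42 (.c k43
  s15_170_43 (.c k44 s15_170_44 (.c k45 s15_170_45 (.c k46 s15_170_46 (.c k47 s15_170_47 (.c k48
  s15_170_48 (.c k49 s15_170_49 (.c k50 s15_170_50 (.c k51 s15_170_51 (.c k52 s15_170_52 (.c k53
  s15_170_53 (.c k54 s15_170_54 (.c k55 s15_170_55 (.c k56 s15_170_56 (.c k57 s15_170_57 (.c k58
  s15_170_58 (.c k59 s15_170_59 (.c k60 s15_170_60 (.c k61 s15_170_61 (.c k62 s15_170_62 (.c k63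
  s15_170_63 (.c k64 s15_170_64 (.c k65 s15_170_65 (.c k66 s15_170_66 (.c k67 s15_170_67 (.c k68
  s15_170_68 (.c k69 s15_170_69 (.c k70 s15_170_70 (.c k71 s15_170_71 (.c k72 s15_170_72 (.c k73
  s15_170_73 (.c k74 s15_170_74 (.c k75 s15_170_75 (.c k76 s15_170_76 (.c k77 s15_170_77 (.c k78
  s15_170_78 (.c k79 s15_170_79 (.c k80 s15_170_80 (.c k81 s15_170_81 (.c k82 s15_170_82 (.c k83
  s15_170_83 (.c k84 s15_170_84 (.c k86 s15_170_86 (.c k87 s15_170_87 (.c k88 s15_170_88 (.c k89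
  s15_170_89 (.c k90 s15_170_90 (.c k91 s15_170_91 (.c k92 s15_170_92 (.c k93 s15_170_93 (.c k94
  s15_170_94 (.c k95 s15_170_95 (.c k96 s15_170_96 (.c k97 s15_170_97 (.c k98 s15_170_98 (.c k99
  s15_170_99 (.c k100 s15_170_100 (.c k101 s15_170_101 (.c k102 s15_170_102 (.c k103 s15_170_103 (.c
  k104 s15_170_104 (.c k105 s15_170_105 (.c k106 s15_170_106 (.c k107 s15_170_107 (.c k108
  s15_170_108 (.c k109 s15_170_109 (.c k110 s15_170_110 (.c k111 s15_170_111 (.c k112 s15_170_112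
  (.c k113 s15_170_113 (.c k114 s15_170_114 (.c k115 s15_170_115 (.c k116 s15_170_116 (.c k117
  s15_170_117 (.c k118 s15_170_118 (.c k119 s15_170_119 (.c k120 s15_170_120 (.c k121 s15_170_121
  (.c k122 s15_170_122 (.c k123 s15_170_123 (.c k124 s15_170_124 (.c k125 s15_170_125 (.c k126
  s15_170_126 (.c k127 s15_170_127 (.c k128 s15_170_128 (.c k129 s15_170_129 (.c k130 s15_170_130
  (.c k131 s15_170_131 (.c k132 s15_170_132 (.c k133 s15_170_133 (.c k134 s15_170_134 (.c k135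
  s15_170_135 (.c k136 s15_170_136 (.c k137 s15_170_137 (.c k138 s15_170_138 (.c k139 s15_170_139
  (.c k140 s15_170_140 (.c k141 s15_170_141 (.c k142 s15_170_142 (.c k143 s15_170_143 (.c k144
  s15_170_144 (.c k145 s15_170_145 (.c k146 s15_170_146 (.c k147 s15_170_147 (.c k148 s15_170_148
  (.c k149 s15_170_149 (.c k150 s15_170_150 (.c k151 s15_170_151 (.c k152 s15_170_152 (.c k153
  s15_170_153 (.c k154 s15_170_154 (.c k155 s15_170_155 (.c k156 s15_170_156 (.c k157 s15_170_157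
  (.c k158 s15_170_158 (.c k159 s15_170_159 (.c k160 s15_170_160 (.c k161 s15_170_161 (.c k162
  s15_170_162 (.c k163 s15_170_163 (.c k164 s15_170_164 (.c k165 s15_170_165 (.c k166 s15_170_166
  (.c k167 s15_170_167 (.c k168 s15_170_168 (.c k169 s15_170_169 (.c k171 s15_170_171 (.c k172
  s15_170_172 (.c k173 s15_170_173 (.c k174 s15_170_174 (.c k175 s15_170_175 (.c k176 s15_170_176
  (.c k177 s15_170_177 (.c k178 s15_170_178 (.c k179 s15_170_179 (.c k180 s15_170_180 (.c k181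
  s15_170_181 (.c k182 s15_170_182 (.c k183 s15_170_183 (.c k184 s15_170_184 (.c k185 s15_170_185
  (.c k186 s15_170_186 (.c k187 s15_170_187 (.c k188 s15_170_188 (.c k189 s15_170_189 (.c k190
  s15_170_190 (.c k191 s15_170_191 (.c k192 s15_170_192 (.c k193 s15_170_193 (.c k194 s15_170_194
  (.c k195 s15_170_195 (.c k196 s15_170_196 (.c k197 s15_170_197 (.c k198 s15_170_198 (.c k199
  s15_170_199 (.c k200 s15_170_200 (.c k201 s15_170_201 (.c k202 s15_170_202 (.c k203 s15_170_203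
  (.c k204 s15_170_204 (.c k205 s15_170_205 (.c k206 s15_170_206 (.c k207 s15_170_207 (.c k208
  s15_170_208 (.c k209 s15_170_209 (.c k210 s15_170_210 (.c k211 s15_170_211 (.c k212 s15_170_212
  (.c k213 s15_170_213 (.c k214 s15_170_214 (.c k215 s15_170_215 (.c k216 s15_170_216 (.c k217
  s15_170_217 (.c k218 s15_170_218 (.c k219 s15_170_219 (.c k220 s15_170_220 (.c k221 s15_170_221
  (.c k222 s15_170_222 (.c k223 s15_170_223 (.c k224 s15_170_224 (.c k225 s15_170_225 (.c k226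
  s15_170_226 (.c k227 s15_170_227 (.c k228 s15_170_228 (.c k229 s15_170_229 (.c k230 s15_170_230
  (.c k231 s15_170_231 (.c k232 s15_170_232 (.c k233 s15_170_233 (.c k234 s15_170_234 (.c k235
  s15_170_235 (.c k236 s15_170_236 (.c k237 s15_170_237 (.c k238 s15_170_238 (.c k239 s15_170_239
  (.c k240 s15_170_240 (.c k241 s15_170_241 (.c k242 s15_170_242 (.c k243 s15_170_243 (.c k244
  s15_170_244 (.c k245 s15_170_245 (.c k246 s15_170_246 (.c k247 s15_170_247 (.c k248 s15_170_248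
  (.c k249 s15_170_249 (.c k250 s15_170_250 (.c k251 s15_170_251 (.c k252 s15_170_252 (.c k253
  s15_170_253 (.c k254 s15_170_254 (.c k255 s15_170_255
  .n))))))))))))))))))))))))))))))))))))))))))))))))))))))))))))))))))))))))))))))))
  ))))))))))))))))))))))))))))))))))))))))))))))))))))))))))))))))))))))))))))))))
  )))))))))))))))))))))))))))))))))))))))))))))))))))))))))))))))))))))))))))))))) ))))))))))))

def s15_243_1 : T TT 256 :=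
  (.f k255 k170 14 (.q k131 [(.s k171 k87 13 (.s k195 k67 7 (.s k235 k215 5 (.s k107 k43 7 (.d k151
  k191 k63 5 13))))), (.s k195 k67 7 (.s k65 k130 8 (.s k105 k125 5 (.s k150 k60 14 (.d k215 k235
  k20 5 8))))), (.s k87 k171 13 (.s k86 k84 0 (.s k169 k252 14 (.s k150 k188 6 (.s k20 k215 8 (.s
  k22 k214 7 (.d k60 k40 k41 5 6)))))))] (.c k91 (.q k167 [(.s k171 k87 13 (.s k195 k67 7 (.s k235
  k215 5 (.s k107 k43 7 (.d k151 k191 k63 5 13))))), (.s k195 k67 7 (.s k65 k130 8 (.s k105 k125 5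
  (.s k150 k60 14 (.d k215 k235 k20 5 8))))), (.s k171 k87 13 (.s k151 k191 5 (.s k135 k183 3 (.s
  k143 k139 1 (.s k163 k175 1 (.d k179 k147 k155 3 5))))))] .n) (.c k167 (.q k91 [(.s k171 k87 13
  (.s k195 k67 7 (.s k235 k215 5 (.s k107 k43 7 (.d k151 k191 k63 5 13))))), (.s k195 k67 7 (.s k65
  k130 8 (.s k105 k125 5 (.s k150 k60 14 (.d k215 k235 k20 5 8))))), (.s k87 k171 13 (.s k86 k84 0
  (.s k169 k252 14 (.s k150 k188 6 (.s k20 k215 8 (.s k22 k214 7 (.d k60 k40 k41 5 6)))))))] (.c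
  k195 (.l (.s k87 k171 13 (.s k86 k84 0 (.s k169 k252 14 (.s k150 k188 6 (.s k20 k215 8 (.s k60 k40
  5 (.d k22 k214 k41 7 6)))))))) (.c k215 (.l (.s k67 k195 7 (.s k87 k171 13 (.s k127 k107 5 (.s k64
  k106 6 (.s k66 k65 0 (.d k192 k129 k128 8 7))))))) .n))) (.c k195 (.l (.s k87 k171 13 (.s k86 k84
  0 (.s k169 k252 14 (.s k150 k188 6 (.s k20 k215 8 (.s k60 k40 5 (.d k22 k214 k41 7 6)))))))) (.c
  k215 (.l (.s k67 k195 7 (.s k87 k171 13 (.s k127 k107 5 (.s k64 k106 6 (.s k66 k65 0 (.d k192 k129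
  k128 8 7))))))) .n))))))

def s15_243_2 : T TT 256 :=
  (.q k51 [(.s k34 k17 4 (.s k170 k255 14 (.s k102 k238 9 (.s k68 k119 4 (.d k204 k136 k153 9
  14))))), (.s k17 k34 4 (.s k19 k35 3 (.s k153 k221 9 (.s k86 k220 10 (.s k84 k87 0 (.d k252 k168
  k169 13 14)))))), (.s k19 k35 3 (.s k255 k170 14 (.s k87 k171 13 (.s k119 k187 9 (.s k103 k71 3
  (.d k155 k223 k207 9 13))))))] (.c k91 (.q k167 [(.s k34 k17 4 (.s k170 k255 14 (.s k102 k238 9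
  (.s k68 k119 4 (.d k204 k136 k153 9 14))))), (.s k17 k34 4 (.s k19 k35 3 (.s k153 k221 9 (.s k86
  k220 10 (.s k84 k87 0 (.d k252 k168 k169 13 14)))))), (.s k19 k35 3 (.s k255 k170 14 (.s k87 k171
  13 (.s k119 k187 9 (.s k103 k71 3 (.d k155 k223 k207 9 13))))))] (.c k153 (.l (.s k17 k34 4 (.s
  k19 k35 3 (.s k255 k170 14 (.s k87 k171 13 (.s k223 k155 9 (.d k16 k18 k154 0 10))))))) .n)) (.c
  k153 (.l (.s k17 k34 4 (.s k19 k35 3 (.s k255 k170 14 (.s k87 k171 13 (.s k223 k155 9 (.d k16 k18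
  k154 0 10))))))) (.c k167 (.q k91 [(.s k34 k17 4 (.s k170 k255 14 (.s k102 k238 9 (.s k68 k119 4
  (.d k204 k136 k153 9 14))))), (.s k17 k34 4 (.s k19 k35 3 (.s k153 k221 9 (.s k86 k220 10 (.s k84
  k87 0 (.d k252 k168 k169 13 14)))))), (.s k19 k35 3 (.s k255 k170 14 (.s k87 k171 13 (.s k119 k187
  9 (.s k103 k71 3 (.d k155 k223 k207 9 13))))))] (.c k153 (.l (.s k17 k34 4 (.s k19 k35 3 (.s k255
  k170 14 (.s k87 k171 13 (.s k223 k155 9 (.d k16 k18 k154 0 10))))))) .n)) .n))))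

def s15_243_4 : T TT 256 :=
  (.l (.s k1 k2 0 (.s k169 k253 13 (.s k86 k252 14 (.s k87 k84 0 (.d k255 k171 k170 13 14))))))

def s15_243_5 : T TT 256 :=
  (.l (.s k1 k2 0 (.s k169 k253 13 (.s k86 k252 14 (.s k87 k84 0 (.d k255 k171 k170 13 14))))))

def s15_243_6 : T TT 256 :=
  (.l (.s k1 k2 0 (.s k169 k253 13 (.s k86 k252 14 (.s k87 k84 0 (.d k255 k171 k170 13 14))))))

def s15_243_7 : T TT 256 :=
  (.l (.s k1 k2 0 (.s k169 k253 13 (.s k86 k252 14 (.s k87 k84 0 (.d k255 k171 k170 13 14))))))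

def s15_243_8 : T TT 256 :=
  (.l (.s k1 k2 0 (.s k169 k253 13 (.s k86 k252 14 (.s k87 k84 0 (.d k255 k171 k170 13 14))))))

def s15_243_9 : T TT 256 :=
  (.l (.s k1 k2 0 (.s k169 k253 13 (.s k86 k252 14 (.s k87 k84 0 (.d k255 k171 k170 13 14))))))

def s15_243_10 : T TT 256 :=
  (.l (.s k1 k2 0 (.s k169 k253 13 (.s k86 k252 14 (.s k87 k84 0 (.d k255 k171 k170 13 14))))))

def s15_243_11 : T TT 256 :=
  (.l (.s k1 k2 0 (.s k169 k253 13 (.s k86 k252 14 (.s k87 k84 0 (.d k255 k171 k170 13 14))))))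

def s15_243_12 : T TT 256 :=
  (.l (.s k1 k2 0 (.s k169 k253 13 (.s k86 k252 14 (.s k87 k84 0 (.d k255 k171 k170 13 14))))))

def s15_243_13 : T TT 256 :=
  (.l (.s k1 k2 0 (.s k169 k253 13 (.s k86 k252 14 (.s k87 k84 0 (.d k255 k171 k170 13 14))))))

def s15_243_14 : T TT 256 :=
  (.l (.s k1 k2 0 (.s k169 k253 13 (.s k86 k252 14 (.s k87 k84 0 (.d k255 k171 k170 13 14))))))

def s15_243_16 : T TT 256 :=
  (.l (.s k1 k2 0 (.s k169 k253 13 (.s k86 k252 14 (.s k87 k84 0 (.d k255 k171 k170 13 14))))))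

def s15_243_17 : T TT 256 :=
  (.l (.s k1 k2 0 (.s k169 k253 13 (.s k86 k252 14 (.s k87 k84 0 (.d k255 k171 k170 13 14))))))

def s15_243_18 : T TT 256 :=
  (.l (.s k1 k2 0 (.s k169 k253 13 (.s k86 k252 14 (.s k87 k84 0 (.d k255 k171 k170 13 14))))))

def s15_243_19 : T TT 256 :=
  (.l (.s k1 k2 0 (.s k169 k253 13 (.s k86 k252 14 (.s k87 k84 0 (.d k255 k171 k170 13 14))))))

def s15_243_20 : T TT 256 :=
  (.l (.s k1 k2 0 (.s k169 k253 13 (.s k86 k252 14 (.s k87 k84 0 (.d k255 k171 k170 13 14))))))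

def s15_243_21 : T TT 256 :=
  (.l (.s k1 k2 0 (.s k169 k253 13 (.s k86 k252 14 (.s k87 k84 0 (.d k255 k171 k170 13 14))))))

def s15_243_22 : T TT 256 :=
  (.l (.s k1 k2 0 (.s k169 k253 13 (.s k86 k252 14 (.s k87 k84 0 (.d k255 k171 k170 13 14))))))

def s15_243_23 : T TT 256 :=
  (.l (.s k1 k2 0 (.s k169 k253 13 (.s k86 k252 14 (.s k87 k84 0 (.d k255 k171 k170 13 14))))))

def s15_243_24 : T TT 256 :=
  (.l (.s k1 k2 0 (.s k169 k253 13 (.s k86 k252 14 (.s k87 k84 0 (.d k255 k171 k170 13 14))))))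

def s15_243_25 : T TT 256 :=
  (.l (.s k1 k2 0 (.s k169 k253 13 (.s k86 k252 14 (.s k87 k84 0 (.d k255 k171 k170 13 14))))))

def s15_243_26 : T TT 256 :=
  (.l (.s k1 k2 0 (.s k169 k253 13 (.s k86 k252 14 (.s k87 k84 0 (.d k255 k171 k170 13 14))))))

def s15_243_27 : T TT 256 :=
  (.l (.s k1 k2 0 (.s k169 k253 13 (.s k86 k252 14 (.s k87 k84 0 (.d k255 k171 k170 13 14))))))

def s15_243_28 : T TT 256 :=
  (.l (.s k1 k2 0 (.s k169 k253 13 (.s k86 k252 14 (.s k87 k84 0 (.d k255 k171 k170 13 14))))))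

def s15_243_29 : T TT 256 :=
  (.l (.s k1 k2 0 (.s k169 k253 13 (.s k86 k252 14 (.s k87 k84 0 (.d k255 k171 k170 13 14))))))

def s15_243_30 : T TT 256 :=
  (.l (.s k1 k2 0 (.s k169 k253 13 (.s k86 k252 14 (.s k87 k84 0 (.d k255 k171 k170 13 14))))))

def s15_243_31 : T TT 256 :=
  (.l (.s k1 k2 0 (.s k169 k253 13 (.s k86 k252 14 (.s k87 k84 0 (.d k255 k171 k170 13 14))))))

def s15_243_32 : T TT 256 :=
  (.l (.s k1 k2 0 (.s k169 k253 13 (.s k86 k252 14 (.s k87 k84 0 (.d k255 k171 k170 13 14))))))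

def s15_243_33 : T TT 256 :=
  (.l (.s k1 k2 0 (.s k169 k253 13 (.s k86 k252 14 (.s k87 k84 0 (.d k255 k171 k170 13 14))))))

def s15_243_34 : T TT 256 :=
  (.l (.s k1 k2 0 (.s k169 k253 13 (.s k86 k252 14 (.s k87 k84 0 (.d k255 k171 k170 13 14))))))

def s15_243_35 : T TT 256 :=
  (.l (.s k1 k2 0 (.s k169 k253 13 (.s k86 k252 14 (.s k87 k84 0 (.d k255 k171 k170 13 14))))))

def s15_243_36 : T TT 256 :=
  (.l (.s k1 k2 0 (.s k169 k253 13 (.s k86 k252 14 (.s k87 k84 0 (.d k255 k171 k170 13 14))))))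

def s15_243_37 : T TT 256 :=
  (.l (.s k1 k2 0 (.s k169 k253 13 (.s k86 k252 14 (.s k87 k84 0 (.d k255 k171 k170 13 14))))))

def s15_243_38 : T TT 256 :=
  (.l (.s k1 k2 0 (.s k169 k253 13 (.s k86 k252 14 (.s k87 k84 0 (.d k255 k171 k170 13 14))))))

def s15_243_39 : T TT 256 :=
  (.l (.s k1 k2 0 (.s k169 k253 13 (.s k86 k252 14 (.s k87 k84 0 (.d k255 k171 k170 13 14))))))

def s15_243_40 : T TT 256 :=
  (.l (.s k1 k2 0 (.s k169 k253 13 (.s k86 k252 14 (.s k87 k84 0 (.d k255 k171 k170 13 14))))))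

def s15_243_41 : T TT 256 :=
  (.l (.s k1 k2 0 (.s k169 k253 13 (.s k86 k252 14 (.s k87 k84 0 (.d k255 k171 k170 13 14))))))

def s15_243_42 : T TT 256 :=
  (.l (.s k1 k2 0 (.s k169 k253 13 (.s k86 k252 14 (.s k87 k84 0 (.d k255 k171 k170 13 14))))))

def s15_243_43 : T TT 256 :=
  (.l (.s k1 k2 0 (.s k169 k253 13 (.s k86 k252 14 (.s k87 k84 0 (.d k255 k171 k170 13 14))))))

def s15_243_44 : T TT 256 :=
  (.l (.s k1 k2 0 (.s k169 k253 13 (.s k86 k252 14 (.s k87 k84 0 (.d k255 k171 k170 13 14))))))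

def s15_243_45 : T TT 256 :=
  (.l (.s k1 k2 0 (.s k169 k253 13 (.s k86 k252 14 (.s k87 k84 0 (.d k255 k171 k170 13 14))))))

def s15_243_46 : T TT 256 :=
  (.l (.s k1 k2 0 (.s k169 k253 13 (.s k86 k252 14 (.s k87 k84 0 (.d k255 k171 k170 13 14))))))

def s15_243_47 : T TT 256 :=
  (.l (.s k1 k2 0 (.s k169 k253 13 (.s k86 k252 14 (.s k87 k84 0 (.d k255 k171 k170 13 14))))))

def s15_243_48 : T TT 256 :=
  (.l (.s k1 k2 0 (.s k169 k253 13 (.s k86 k252 14 (.s k87 k84 0 (.d k255 k171 k170 13 14))))))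

def s15_243_49 : T TT 256 :=
  (.l (.s k1 k2 0 (.s k169 k253 13 (.s k86 k252 14 (.s k87 k84 0 (.d k255 k171 k170 13 14))))))

def s15_243_50 : T TT 256 :=
  (.l (.s k1 k2 0 (.s k169 k253 13 (.s k86 k252 14 (.s k87 k84 0 (.d k255 k171 k170 13 14))))))

def s15_243_51 : T TT 256 :=
  (.l (.s k1 k2 0 (.s k169 k253 13 (.s k86 k252 14 (.s k87 k84 0 (.d k255 k171 k170 13 14))))))

def s15_243_52 : T TT 256 :=
  (.l (.s k1 k2 0 (.s k169 k253 13 (.s k86 k252 14 (.s k87 k84 0 (.d k255 k171 k170 13 14))))))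

def s15_243_53 : T TT 256 :=
  (.l (.s k1 k2 0 (.s k169 k253 13 (.s k86 k252 14 (.s k87 k84 0 (.d k255 k171 k170 13 14))))))

def s15_243_54 : T TT 256 :=
  (.l (.s k1 k2 0 (.s k169 k253 13 (.s k86 k252 14 (.s k87 k84 0 (.d k255 k171 k170 13 14))))))

def s15_243_55 : T TT 256 :=
  (.l (.s k1 k2 0 (.s k169 k253 13 (.s k86 k252 14 (.s k87 k84 0 (.d k255 k171 k170 13 14))))))

def s15_243_56 : T TT 256 :=
  (.l (.s k1 k2 0 (.s k169 k253 13 (.s k86 k252 14 (.s k87 k84 0 (.d k255 k171 k170 13 14))))))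

def s15_243_57 : T TT 256 :=
  (.l (.s k1 k2 0 (.s k169 k253 13 (.s k86 k252 14 (.s k87 k84 0 (.d k255 k171 k170 13 14))))))

def s15_243_58 : T TT 256 :=
  (.l (.s k1 k2 0 (.s k169 k253 13 (.s k86 k252 14 (.s k87 k84 0 (.d k255 k171 k170 13 14))))))

def s15_243_59 : T TT 256 :=
  (.l (.s k1 k2 0 (.s k169 k253 13 (.s k86 k252 14 (.s k87 k84 0 (.d k255 k171 k170 13 14))))))

def s15_243_60 : T TT 256 :=
  (.l (.s k1 k2 0 (.s k169 k253 13 (.s k86 k252 14 (.s k87 k84 0 (.d k255 k171 k170 13 14))))))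

def s15_243_61 : T TT 256 :=
  (.l (.s k1 k2 0 (.s k169 k253 13 (.s k86 k252 14 (.s k87 k84 0 (.d k255 k171 k170 13 14))))))

def s15_243_62 : T TT 256 :=
  (.l (.s k1 k2 0 (.s k169 k253 13 (.s k86 k252 14 (.s k87 k84 0 (.d k255 k171 k170 13 14))))))

def s15_243_63 : T TT 256 :=
  (.l (.s k1 k2 0 (.s k169 k253 13 (.s k86 k252 14 (.s k87 k84 0 (.d k255 k171 k170 13 14))))))

def s15_243_64 : T TT 256 :=
  (.l (.s k1 k2 0 (.s k169 k253 13 (.s k86 k252 14 (.s k87 k84 0 (.d k255 k171 k170 13 14))))))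

def s15_243_65 : T TT 256 :=
  (.l (.s k1 k2 0 (.s k169 k253 13 (.s k86 k252 14 (.s k87 k84 0 (.d k255 k171 k170 13 14))))))

def s15_243_66 : T TT 256 :=
  (.l (.s k1 k2 0 (.s k169 k253 13 (.s k86 k252 14 (.s k87 k84 0 (.d k255 k171 k170 13 14))))))

def s15_243_67 : T TT 256 :=
  (.l (.s k1 k2 0 (.s k169 k253 13 (.s k86 k252 14 (.s k87 k84 0 (.d k255 k171 k170 13 14))))))

def s15_243_68 : T TT 256 :=
  (.l (.s k1 k2 0 (.s k169 k253 13 (.s k86 k252 14 (.s k87 k84 0 (.d k255 k171 k170 13 14))))))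

def s15_243_69 : T TT 256 :=
  (.l (.s k1 k2 0 (.s k169 k253 13 (.s k86 k252 14 (.s k87 k84 0 (.d k255 k171 k170 13 14))))))

def s15_243_70 : T TT 256 :=
  (.l (.s k1 k2 0 (.s k169 k253 13 (.s k86 k252 14 (.s k87 k84 0 (.d k255 k171 k170 13 14))))))

def s15_243_71 : T TT 256 :=
  (.l (.s k1 k2 0 (.s k169 k253 13 (.s k86 k252 14 (.s k87 k84 0 (.d k255 k171 k170 13 14))))))

def s15_243_72 : T TT 256 :=
  (.l (.s k1 k2 0 (.s k169 k253 13 (.s k86 k252 14 (.s k87 k84 0 (.d k255 k171 k170 13 14))))))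

def s15_243_73 : T TT 256 :=
  (.l (.s k1 k2 0 (.s k169 k253 13 (.s k86 k252 14 (.s k87 k84 0 (.d k255 k171 k170 13 14))))))

def s15_243_74 : T TT 256 :=
  (.l (.s k1 k2 0 (.s k169 k253 13 (.s k86 k252 14 (.s k87 k84 0 (.d k255 k171 k170 13 14))))))

def s15_243_75 : T TT 256 :=
  (.l (.s k1 k2 0 (.s k169 k253 13 (.s k86 k252 14 (.s k87 k84 0 (.d k255 k171 k170 13 14))))))

def s15_243_76 : T TT 256 :=
  (.l (.s k1 k2 0 (.s k169 k253 13 (.s k86 k252 14 (.s k87 k84 0 (.d k255 k171 k170 13 14))))))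

def s15_243_77 : T TT 256 :=
  (.l (.s k1 k2 0 (.s k169 k253 13 (.s k86 k252 14 (.s k87 k84 0 (.d k255 k171 k170 13 14))))))

def s15_243_78 : T TT 256 :=
  (.l (.s k1 k2 0 (.s k169 k253 13 (.s k86 k252 14 (.s k87 k84 0 (.d k255 k171 k170 13 14))))))

def s15_243_79 : T TT 256 :=
  (.l (.s k1 k2 0 (.s k169 k253 13 (.s k86 k252 14 (.s k87 k84 0 (.d k255 k171 k170 13 14))))))

def s15_243_80 : T TT 256 :=
  (.l (.s k1 k2 0 (.s k169 k253 13 (.s k86 k252 14 (.s k87 k84 0 (.d k255 k171 k170 13 14))))))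

def s15_243_81 : T TT 256 :=
  (.l (.s k1 k2 0 (.s k169 k253 13 (.s k86 k252 14 (.s k87 k84 0 (.d k255 k171 k170 13 14))))))

def s15_243_82 : T TT 256 :=
  (.l (.s k1 k2 0 (.s k169 k253 13 (.s k86 k252 14 (.s k87 k84 0 (.d k255 k171 k170 13 14))))))

def s15_243_83 : T TT 256 :=
  (.l (.s k1 k2 0 (.s k169 k253 13 (.s k86 k252 14 (.s k87 k84 0 (.d k255 k171 k170 13 14))))))

def s15_243_84 : T TT 256 :=
  (.f k1 k2 0 (.f k253 k169 13 (.q k49 [(.s k17 k33 3 (.s k117 k185 9 (.s k101 k69 3 (.d k153 k221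
  k205 9 13)))), (.s k33 k17 3 (.s k48 k18 4 (.s k255 k170 14 (.d k117 k185 k186 9 10)))), (.s k117
  k185 9 (.s k101 k69 3 (.s k255 k170 14 (.s k48 k186 10 (.s k16 k32 3 (.d k154 k223 k207 10
  14)))))), (.s k17 k33 3 (.s k51 k34 4 (.s k153 k221 9 (.s k102 k204 14 (.s k119 k68 4 (.d k255
  k187 k170 9 14))))))] (.c k91 (.q k167 [(.s k17 k33 3 (.s k117 k185 9 (.s k101 k69 3 (.d k153 k221
  k205 9 13)))), (.s k33 k17 3 (.s k48 k18 4 (.s k255 k170 14 (.d k117 k185 k186 9 10)))), (.s k117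
  k185 9 (.s k101 k69 3 (.s k255 k170 14 (.s k48 k186 10 (.s k16 k32 3 (.d k154 k223 k207 10
  14)))))), (.s k17 k33 3 (.s k51 k34 4 (.s k153 k221 9 (.s k102 k204 14 (.s k119 k68 4 (.d k255
  k187 k170 9 14))))))] .n) (.c k167 (.q k91 [(.s k17 k33 3 (.s k117 k185 9 (.s k101 k69 3 (.d k153
  k221 k205 9 13)))), (.s k33 k17 3 (.s k48 k18 4 (.s k255 k170 14 (.d k117 k185 k186 9 10)))), (.s
  k117 k185 9 (.s k101 k69 3 (.s k255 k170 14 (.s k48 k186 10 (.s k16 k32 3 (.d k154 k223 k207 10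
  14)))))), (.s k17 k33 3 (.s k51 k34 4 (.s k153 k221 9 (.s k102 k204 14 (.s k119 k68 4 (.d k255
  k187 k170 9 14))))))] .n) .n)))))

def s15_243_86 : T TT 256 :=
  (.f k2 k1 0 (.f k255 k170 14 (.q k60 [(.s k20 k40 5 (.s k125 k190 8 (.s k105 k65 5 (.d k150 k215
  k195 8 14)))), (.s k22 k41 6 (.s k42 k62 5 (.s k21 k63 6 (.d k20 k23 k40 0 5))))] (.c k20 (.l (.s
  k125 k190 8 (.s k65 k105 5 (.s k130 k195 8 (.s k66 k194 7 (.s k192 k129 8 (.d k64 k67 k128 0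
  7))))))) (.c k40 (.l (.s k22 k41 6 (.s k42 k62 5 (.s k21 k63 6 (.s k20 k23 0 (.s k125 k190 8 (.s
  k105 k65 5 (.d k150 k215 k195 8 14)))))))) (.c k91 (.q k167 [(.s k20 k40 5 (.s k125 k190 8 (.s
  k105 k65 5 (.d k150 k215 k195 8 14)))), (.s k22 k41 6 (.s k42 k62 5 (.s k21 k63 6 (.d k20 k23 k40
  0 5))))] (.c k20 (.l (.s k125 k190 8 (.s k65 k105 5 (.s k130 k195 8 (.s k66 k194 7 (.s k192 k129 8
  (.d k64 k67 k128 0 7))))))) (.c k40 (.l (.s k22 k41 6 (.s k42 k62 5 (.s k21 k63 6 (.s k20 k23 0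
  (.s k125 k190 8 (.s k105 k65 5 (.d k150 k215 k195 8 14)))))))) .n))) (.c k167 (.q k91 [(.s k20 k40
  5 (.s k125 k190 8 (.s k105 k65 5 (.d k150 k215 k195 8 14)))), (.s k22 k41 6 (.s k42 k62 5 (.s k21
  k63 6 (.d k20 k23 k40 0 5))))] (.c k20 (.l (.s k125 k190 8 (.s k65 k105 5 (.s k130 k195 8 (.s k66
  k194 7 (.s k192 k129 8 (.d k64 k67 k128 0 7))))))) (.c k40 (.l (.s k22 k41 6 (.s k42 k62 5 (.s k21
  k63 6 (.s k20 k23 0 (.s k125 k190 8 (.s k105 k65 5 (.d k150 k215 k195 8 14)))))))) .n))) .n)))))))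

def s15_243_87 : T TT 256 :=
  (.l (.s k1 k2 0 (.s k169 k253 13 (.s k170 k255 14 (.s k168 k171 0 (.d k252 k84 k86 13 14))))))

def s15_243_88 : T TT 256 :=
  (.l (.s k1 k2 0 (.s k169 k253 13 (.s k86 k252 14 (.s k87 k84 0 (.d k255 k171 k170 13 14))))))

def s15_243_89 : T TT 256 :=
  (.l (.s k1 k2 0 (.s k169 k253 13 (.s k86 k252 14 (.s k87 k84 0 (.d k255 k171 k170 13 14))))))

def s15_243_90 : T TT 256 :=
  (.l (.s k1 k2 0 (.s k169 k253 13 (.s k86 k252 14 (.s k87 k84 0 (.d k255 k171 k170 13 14))))))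

def s15_243_91 : T TT 256 :=
  (.q k167 [(.s k1 k2 0 (.s k169 k253 13 (.s k86 k252 14 (.s k87 k84 0 (.d k255 k171 k170 13
  14))))), (.s k1 k2 0 (.s k169 k253 13 (.s k170 k255 14 (.s k168 k171 0 (.d k252 k84 k86 13
  14)))))] (.c k1 (.q k12 [(.s k4 k8 1 (.s k247 k166 12 (.s k87 k7 11 (.d k255 k171 k170 13 14)))),
  (.s k4 k8 1 (.s k6 k9 2 (.s k5 k7 0 (.s k165 k245 11 (.d k166 k164 k247 0 12))))), (.s k9 k6 2 (.s
  k255 k170 14 (.s k87 k171 13 (.s k86 k84 0 (.s k93 k174 12 (.s k89 k81 1 (.d k169 k249 k252 11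
  14)))))))] (.c k166 (.l (.s k4 k8 1 (.s k6 k9 2 (.s k255 k170 14 (.s k87 k171 13 (.d k7 k5 k247 0
  11)))))) .n)) (.c k2 (.q k12 [(.s k4 k8 1 (.s k247 k166 12 (.s k87 k7 11 (.d k255 k171 k170 13
  14)))), (.s k4 k8 1 (.s k6 k9 2 (.s k5 k7 0 (.s k165 k245 11 (.d k166 k164 k247 0 12))))), (.s k9
  k6 2 (.s k255 k170 14 (.s k87 k171 13 (.s k86 k84 0 (.s k93 k174 12 (.s k89 k81 1 (.d k169 k249
  k252 11 14)))))))] (.c k166 (.l (.s k4 k8 1 (.s k6 k9 2 (.s k7 k5 0 (.s k87 k247 11 (.d k255 k171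
  k170 13 14)))))) .n)) (.c k84 (.q k4 [(.s k247 k166 12 (.s k87 k7 11 (.d k255 k171 k170 13 14))),
  (.s k1 k2 0 (.s k12 k8 1 (.s k9 k6 2 (.s k13 k5 1 (.s k253 k169 13 (.s k93 k173 11 (.d k255 k174
  k170 12 14))))))), (.s k12 k8 1 (.s k6 k9 2 (.s k5 k7 0 (.s k165 k245 11 (.d k166 k164 k247 0
  12)))))] (.c k12 (.l (.s k255 k170 14 (.s k87 k171 13 (.d k247 k7 k166 11 12)))) .n)) (.c k86 (.q
  k4 [(.s k247 k166 12 (.s k87 k7 11 (.d k255 k171 k170 13 14))), (.s k12 k8 1 (.s k6 k9 2 (.s k7 k5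
  0 (.d k247 k87 k166 11 12)))), (.s k1 k2 0 (.s k12 k8 1 (.s k9 k6 2 (.s k13 k5 1 (.s k253 k169 13
  (.s k93 k173 11 (.d k255 k170 k174 14 12))))))), (.s k255 k170 14 (.s k87 k171 13 (.d k247 k7 k166
  11 12)))] (.c k166 (.l (.s k12 k8 1 (.s k6 k9 2 (.s k7 k5 0 (.s k87 k247 11 (.d k255 k171 k170 13
  14)))))) .n)) (.c k169 (.q k5 [(.s k165 k245 11 (.s k166 k164 0 (.s k247 k4 12 (.s k87 k7 11 (.d
  k255 k171 k170 13 14))))), (.s k1 k2 0 (.s k9 k13 1 (.s k12 k6 2 (.s k4 k8 1 (.s k165 k245 11 (.d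
  k166 k164 k247 0 12)))))), (.s k245 k165 11 (.s k255 k170 14 (.s k171 k87 13 (.s k240 k250 2 (.s
  k160 k80 11 (.s k161 k82 12 (.d k163 k175 k162 1 0))))))), (.s k1 k2 0 (.s k9 k13 1 (.s k12 k6 2
  (.s k4 k8 1 (.s k247 k166 12 (.s k87 k7 11 (.d k255 k171 k170 13 14)))))))] .n) (.c k170 (.f k1 k2
  0 (.l (.s k169 k253 13 (.s k86 k252 14 (.s k87 k84 0 (.s k247 k7 11 (.s k166 k4 12 (.s k163 k172 2
  (.d k171 k255 k175 13 1))))))))) (.c k171 (.l (.s k2 k1 0 (.s k170 k255 14 (.s k86 k254 13 (.s k84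
  k87 0 (.d k252 k168 k169 13 14)))))) (.c k252 (.f k2 k1 0 (.f k255 k170 14 (.f k87 k171 13 (.f k7
  k247 11 (.l (.s k86 k84 0 (.s k165 k244 12 (.s k245 k5 11 (.s k240 k250 2 (.s k80 k160 11 (.s k82
  k161 12 (.d k90 k94 k95 1 2)))))))))))) (.c k253 (.l (.s k2 k1 0 (.s k170 k255 14 (.s k86 k254 13
  (.s k252 k169 14 (.d k84 k87 k168 0 13)))))) (.c k254 (.l (.s k1 k2 0 (.s k169 k253 13 (.s k86
  k252 14 (.s k255 k170 14 (.d k87 k84 k171 0 13)))))) (.c k255 (.f k1 k2 0 (.q k247 [(.s k87 k7 11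
  (.s k86 k84 0 (.d k169 k253 k252 13 14))), (.s k4 k166 12 (.s k7 k87 11 (.s k6 k5 0 (.d k12 k8 k9
  1 2)))), (.s k166 k4 12 (.s k164 k165 0 (.s k169 k253 13 (.s k172 k163 2 (.s k168 k160 1 (.d k252
  k84 k86 13 14))))))] (.c k95 (.q k175 [(.s k87 k7 11 (.s k86 k84 0 (.d k169 k253 k252 13 14))),
  (.s k4 k166 12 (.s k12 k8 1 (.s k6 k9 2 (.d k7 k87 k5 11 0))))] (.c k7 (.l (.s k163 k171 1 (.s
  k166 k4 12 (.d k169 k172 k253 2 13)))) (.c k83 (.l (.s k87 k7 11 (.s k86 k84 0 (.d k169 k253 k252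
  13 14)))) (.c k87 (.q k83 [(.s k163 k171 1 (.s k166 k4 12 (.d k169 k172 k253 2 13))), (.s k169
  k253 13 (.s k171 k163 1 (.s k168 k170 0 (.d k252 k86 k84 14 13)))), (.s k4 k166 12 (.s k12 k8 1
  (.s k9 k6 2 (.s k169 k253 13 (.s k89 k249 11 (.d k86 k252 k92 14 2)))))), (.s k166 k4 12 (.s k165
  k164 0 (.s k160 k170 2 (.s k240 k80 11 (.s k161 k82 12 (.d k163 k162 k171 0 1))))))] .n) .n))))
  (.c k175 (.q k95 [(.s k87 k7 11 (.s k86 k84 0 (.d k169 k253 k252 13 14))), (.s k4 k166 12 (.s k7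
  k87 11 (.s k6 k5 0 (.d k12 k8 k9 1 2)))), (.s k80 k90 2 (.s k166 k4 12 (.s k165 k164 0 (.s k169
  k253 13 (.s k161 k173 1 (.d k240 k160 k82 11 12))))))] .n) .n)))) .n))))))))))))

def s15_243_92 : T TT 256 :=
  (.l (.s k1 k2 0 (.s k169 k253 13 (.s k86 k252 14 (.s k87 k84 0 (.d k255 k171 k170 13 14))))))

def s15_243_93 : T TT 256 :=
  (.l (.s k1 k2 0 (.s k169 k253 13 (.s k86 k252 14 (.s k87 k84 0 (.d k255 k171 k170 13 14))))))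

def s15_243_94 : T TT 256 :=
  (.l (.s k1 k2 0 (.s k169 k253 13 (.s k170 k255 14 (.s k168 k171 0 (.d k252 k84 k86 13 14))))))

def s15_243_95 : T TT 256 :=
  (.l (.s k1 k2 0 (.s k169 k253 13 (.s k86 k252 14 (.s k87 k84 0 (.d k255 k171 k170 13 14))))))

def s15_243_96 : T TT 256 :=
  (.l (.s k1 k2 0 (.s k169 k253 13 (.s k86 k252 14 (.s k87 k84 0 (.d k255 k171 k170 13 14))))))

def s15_243_97 : T TT 256 :=
  (.l (.s k1 k2 0 (.s k169 k253 13 (.s k86 k252 14 (.s k87 k84 0 (.d k255 k171 k170 13 14))))))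

def s15_243_98 : T TT 256 :=
  (.l (.s k1 k2 0 (.s k169 k253 13 (.s k86 k252 14 (.s k87 k84 0 (.d k255 k171 k170 13 14))))))

def s15_243_99 : T TT 256 :=
  (.l (.s k1 k2 0 (.s k169 k253 13 (.s k86 k252 14 (.s k87 k84 0 (.d k255 k171 k170 13 14))))))

def s15_243_100 : T TT 256 :=
  (.l (.s k1 k2 0 (.s k169 k253 13 (.s k86 k252 14 (.s k87 k84 0 (.d k255 k171 k170 13 14))))))

def s15_243_101 : T TT 256 :=
  (.l (.s k1 k2 0 (.s k169 k253 13 (.s k86 k252 14 (.s k87 k84 0 (.d k255 k171 k170 13 14))))))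

def s15_243_102 : T TT 256 :=
  (.l (.s k1 k2 0 (.s k169 k253 13 (.s k86 k252 14 (.s k87 k84 0 (.d k255 k171 k170 13 14))))))

def s15_243_103 : T TT 256 :=
  (.l (.s k1 k2 0 (.s k169 k253 13 (.s k86 k252 14 (.s k87 k84 0 (.d k255 k171 k170 13 14))))))

def s15_243_104 : T TT 256 :=
  (.l (.s k1 k2 0 (.s k169 k253 13 (.s k86 k252 14 (.s k87 k84 0 (.d k255 k171 k170 13 14))))))

def s15_243_105 : T TT 256 :=
  (.l (.s k1 k2 0 (.s k169 k253 13 (.s k86 k252 14 (.s k87 k84 0 (.d k255 k171 k170 13 14))))))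

def s15_243_106 : T TT 256 :=
  (.l (.s k1 k2 0 (.s k169 k253 13 (.s k86 k252 14 (.s k87 k84 0 (.d k255 k171 k170 13 14))))))

def s15_243_107 : T TT 256 :=
  (.l (.s k1 k2 0 (.s k169 k253 13 (.s k86 k252 14 (.s k87 k84 0 (.d k255 k171 k170 13 14))))))

def s15_243_108 : T TT 256 :=
  (.l (.s k1 k2 0 (.s k169 k253 13 (.s k86 k252 14 (.s k87 k84 0 (.d k255 k171 k170 13 14))))))

def s15_243_109 : T TT 256 :=
  (.l (.s k1 k2 0 (.s k169 k253 13 (.s k86 k252 14 (.s k87 k84 0 (.d k255 k171 k170 13 14))))))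

def s15_243_110 : T TT 256 :=
  (.l (.s k1 k2 0 (.s k169 k253 13 (.s k86 k252 14 (.s k87 k84 0 (.d k255 k171 k170 13 14))))))

def s15_243_111 : T TT 256 :=
  (.l (.s k1 k2 0 (.s k169 k253 13 (.s k86 k252 14 (.s k87 k84 0 (.d k255 k171 k170 13 14))))))

def s15_243_112 : T TT 256 :=
  (.l (.s k1 k2 0 (.s k169 k253 13 (.s k86 k252 14 (.s k87 k84 0 (.d k255 k171 k170 13 14))))))

def s15_243_113 : T TT 256 :=
  (.l (.s k1 k2 0 (.s k169 k253 13 (.s k86 k252 14 (.s k87 k84 0 (.d k255 k171 k170 13 14))))))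

def s15_243_114 : T TT 256 :=
  (.l (.s k1 k2 0 (.s k169 k253 13 (.s k86 k252 14 (.s k87 k84 0 (.d k255 k171 k170 13 14))))))

def s15_243_115 : T TT 256 :=
  (.l (.s k1 k2 0 (.s k169 k253 13 (.s k86 k252 14 (.s k87 k84 0 (.d k255 k171 k170 13 14))))))

def s15_243_116 : T TT 256 :=
  (.l (.s k1 k2 0 (.s k169 k253 13 (.s k86 k252 14 (.s k87 k84 0 (.d k255 k171 k170 13 14))))))

def s15_243_117 : T TT 256 :=
  (.l (.s k1 k2 0 (.s k169 k253 13 (.s k86 k252 14 (.s k87 k84 0 (.d k255 k171 k170 13 14))))))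

def s15_243_118 : T TT 256 :=
  (.l (.s k1 k2 0 (.s k169 k253 13 (.s k86 k252 14 (.s k87 k84 0 (.d k255 k171 k170 13 14))))))

def s15_243_119 : T TT 256 :=
  (.l (.s k1 k2 0 (.s k169 k253 13 (.s k86 k252 14 (.s k87 k84 0 (.d k255 k171 k170 13 14))))))

def s15_243_120 : T TT 256 :=
  (.l (.s k1 k2 0 (.s k169 k253 13 (.s k86 k252 14 (.s k87 k84 0 (.d k255 k171 k170 13 14))))))

def s15_243_121 : T TT 256 :=
  (.l (.s k1 k2 0 (.s k169 k253 13 (.s k86 k252 14 (.s k87 k84 0 (.d k255 k171 k170 13 14))))))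

def s15_243_122 : T TT 256 :=
  (.l (.s k1 k2 0 (.s k169 k253 13 (.s k86 k252 14 (.s k87 k84 0 (.d k255 k171 k170 13 14))))))

def s15_243_123 : T TT 256 :=
  (.l (.s k1 k2 0 (.s k169 k253 13 (.s k86 k252 14 (.s k87 k84 0 (.d k255 k171 k170 13 14))))))

def s15_243_124 : T TT 256 :=
  (.l (.s k1 k2 0 (.s k169 k253 13 (.s k86 k252 14 (.s k87 k84 0 (.d k255 k171 k170 13 14))))))

def s15_243_125 : T TT 256 :=
  (.l (.s k1 k2 0 (.s k169 k253 13 (.s k86 k252 14 (.s k87 k84 0 (.d k255 k171 k170 13 14))))))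

def s15_243_126 : T TT 256 :=
  (.l (.s k1 k2 0 (.s k169 k253 13 (.s k86 k252 14 (.s k87 k84 0 (.d k255 k171 k170 13 14))))))

def s15_243_127 : T TT 256 :=
  (.l (.s k1 k2 0 (.s k169 k253 13 (.s k86 k252 14 (.s k87 k84 0 (.d k255 k171 k170 13 14))))))

def s15_243_128 : T TT 256 :=
  (.l (.s k1 k2 0 (.s k169 k253 13 (.s k86 k252 14 (.s k87 k84 0 (.d k255 k171 k170 13 14))))))

def s15_243_129 : T TT 256 :=
  (.l (.s k1 k2 0 (.s k169 k253 13 (.s k86 k252 14 (.s k87 k84 0 (.d k255 k171 k170 13 14))))))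

def s15_243_130 : T TT 256 :=
  (.l (.s k1 k2 0 (.s k169 k253 13 (.s k86 k252 14 (.s k87 k84 0 (.d k255 k171 k170 13 14))))))

def s15_243_131 : T TT 256 :=
  (.l (.s k1 k2 0 (.s k169 k253 13 (.s k86 k252 14 (.s k87 k84 0 (.d k255 k171 k170 13 14))))))

def s15_243_132 : T TT 256 :=
  (.l (.s k1 k2 0 (.s k169 k253 13 (.s k86 k252 14 (.s k87 k84 0 (.d k255 k171 k170 13 14))))))

def s15_243_133 : T TT 256 :=
  (.l (.s k1 k2 0 (.s k169 k253 13 (.s k86 k252 14 (.s k87 k84 0 (.d k255 k171 k170 13 14))))))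

def s15_243_134 : T TT 256 :=
  (.l (.s k1 k2 0 (.s k169 k253 13 (.s k86 k252 14 (.s k87 k84 0 (.d k255 k171 k170 13 14))))))

def s15_243_135 : T TT 256 :=
  (.l (.s k1 k2 0 (.s k169 k253 13 (.s k86 k252 14 (.s k87 k84 0 (.d k255 k171 k170 13 14))))))

def s15_243_136 : T TT 256 :=
  (.l (.s k1 k2 0 (.s k169 k253 13 (.s k86 k252 14 (.s k87 k84 0 (.d k255 k171 k170 13 14))))))

def s15_243_137 : T TT 256 :=
  (.l (.s k1 k2 0 (.s k169 k253 13 (.s k86 k252 14 (.s k87 k84 0 (.d k255 k171 k170 13 14))))))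

def s15_243_138 : T TT 256 :=
  (.l (.s k1 k2 0 (.s k169 k253 13 (.s k86 k252 14 (.s k87 k84 0 (.d k255 k171 k170 13 14))))))

def s15_243_139 : T TT 256 :=
  (.l (.s k1 k2 0 (.s k169 k253 13 (.s k86 k252 14 (.s k87 k84 0 (.d k255 k171 k170 13 14))))))

def s15_243_140 : T TT 256 :=
  (.l (.s k1 k2 0 (.s k169 k253 13 (.s k86 k252 14 (.s k87 k84 0 (.d k255 k171 k170 13 14))))))

def s15_243_141 : T TT 256 :=
  (.l (.s k1 k2 0 (.s k169 k253 13 (.s k86 k252 14 (.s k87 k84 0 (.d k255 k171 k170 13 14))))))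

def s15_243_142 : T TT 256 :=
  (.l (.s k1 k2 0 (.s k169 k253 13 (.s k86 k252 14 (.s k87 k84 0 (.d k255 k171 k170 13 14))))))

def s15_243_143 : T TT 256 :=
  (.l (.s k1 k2 0 (.s k169 k253 13 (.s k86 k252 14 (.s k87 k84 0 (.d k255 k171 k170 13 14))))))

def s15_243_144 : T TT 256 :=
  (.l (.s k1 k2 0 (.s k169 k253 13 (.s k86 k252 14 (.s k87 k84 0 (.d k255 k171 k170 13 14))))))

def s15_243_145 : T TT 256 :=
  (.l (.s k1 k2 0 (.s k169 k253 13 (.s k86 k252 14 (.s k87 k84 0 (.d k255 k171 k170 13 14))))))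

def s15_243_146 : T TT 256 :=
  (.l (.s k1 k2 0 (.s k169 k253 13 (.s k86 k252 14 (.s k87 k84 0 (.d k255 k171 k170 13 14))))))

def s15_243_147 : T TT 256 :=
  (.l (.s k1 k2 0 (.s k169 k253 13 (.s k86 k252 14 (.s k87 k84 0 (.d k255 k171 k170 13 14))))))

def s15_243_148 : T TT 256 :=
  (.l (.s k1 k2 0 (.s k169 k253 13 (.s k86 k252 14 (.s k87 k84 0 (.d k255 k171 k170 13 14))))))

def s15_243_149 : T TT 256 :=
  (.l (.s k1 k2 0 (.s k169 k253 13 (.s k86 k252 14 (.s k87 k84 0 (.d k255 k171 k170 13 14))))))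

def s15_243_150 : T TT 256 :=
  (.l (.s k1 k2 0 (.s k169 k253 13 (.s k86 k252 14 (.s k87 k84 0 (.d k255 k171 k170 13 14))))))

def s15_243_151 : T TT 256 :=
  (.l (.s k1 k2 0 (.s k169 k253 13 (.s k86 k252 14 (.s k87 k84 0 (.d k255 k171 k170 13 14))))))

def s15_243_152 : T TT 256 :=
  (.l (.s k1 k2 0 (.s k169 k253 13 (.s k86 k252 14 (.s k87 k84 0 (.d k255 k171 k170 13 14))))))

def s15_243_153 : T TT 256 :=
  (.l (.s k1 k2 0 (.s k169 k253 13 (.s k86 k252 14 (.s k87 k84 0 (.d k255 k171 k170 13 14))))))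

def s15_243_154 : T TT 256 :=
  (.l (.s k1 k2 0 (.s k169 k253 13 (.s k86 k252 14 (.s k87 k84 0 (.d k255 k171 k170 13 14))))))

def s15_243_155 : T TT 256 :=
  (.l (.s k1 k2 0 (.s k169 k253 13 (.s k86 k252 14 (.s k87 k84 0 (.d k255 k171 k170 13 14))))))

def s15_243_156 : T TT 256 :=
  (.l (.s k1 k2 0 (.s k169 k253 13 (.s k86 k252 14 (.s k87 k84 0 (.d k255 k171 k170 13 14))))))

def s15_243_157 : T TT 256 :=
  (.l (.s k1 k2 0 (.s k169 k253 13 (.s k86 k252 14 (.s k87 k84 0 (.d k255 k171 k170 13 14))))))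

def s15_243_158 : T TT 256 :=
  (.l (.s k1 k2 0 (.s k169 k253 13 (.s k86 k252 14 (.s k87 k84 0 (.d k255 k171 k170 13 14))))))

def s15_243_159 : T TT 256 :=
  (.l (.s k1 k2 0 (.s k169 k253 13 (.s k86 k252 14 (.s k87 k84 0 (.d k255 k171 k170 13 14))))))

def s15_243_160 : T TT 256 :=
  (.l (.s k1 k2 0 (.s k169 k253 13 (.s k86 k252 14 (.s k87 k84 0 (.d k255 k171 k170 13 14))))))

def s15_243_161 : T TT 256 :=
  (.l (.s k1 k2 0 (.s k169 k253 13 (.s k86 k252 14 (.s k87 k84 0 (.d k255 k171 k170 13 14))))))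

def s15_243_162 : T TT 256 :=
  (.l (.s k1 k2 0 (.s k169 k253 13 (.s k86 k252 14 (.s k87 k84 0 (.d k255 k171 k170 13 14))))))

def s15_243_163 : T TT 256 :=
  (.l (.s k1 k2 0 (.s k169 k253 13 (.s k86 k252 14 (.s k87 k84 0 (.d k255 k171 k170 13 14))))))

def s15_243_164 : T TT 256 :=
  (.l (.s k1 k2 0 (.s k169 k253 13 (.s k86 k252 14 (.s k87 k84 0 (.d k255 k171 k170 13 14))))))

def s15_243_165 : T TT 256 :=
  (.l (.s k1 k2 0 (.s k169 k253 13 (.s k86 k252 14 (.s k87 k84 0 (.d k255 k171 k170 13 14))))))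

def s15_243_166 : T TT 256 :=
  (.l (.s k1 k2 0 (.s k169 k253 13 (.s k86 k252 14 (.s k87 k84 0 (.d k255 k171 k170 13 14))))))

def s15_243_167 : T TT 256 :=
  (.q k91 [(.s k1 k2 0 (.s k169 k253 13 (.s k86 k252 14 (.s k87 k84 0 (.d k255 k171 k170 13 14))))),
  (.s k1 k2 0 (.s k169 k253 13 (.s k170 k255 14 (.s k168 k171 0 (.d k252 k84 k86 13 14)))))] (.c k1
  (.q k12 [(.s k8 k4 1 (.s k170 k255 14 (.s k251 k89 12 (.s k11 k171 11 (.d k9 k10 k6 0 2))))), (.s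
  k255 k170 14 (.s k87 k171 13 (.s k83 k95 1 (.s k86 k84 0 (.s k89 k92 2 (.d k93 k81 k174 1
  12)))))), (.s k4 k8 1 (.s k6 k9 2 (.s k166 k247 12 (.s k86 k246 11 (.s k252 k169 14 (.d k84 k87
  k168 0 13))))))] (.c k89 (.l (.s k8 k4 1 (.s k9 k6 2 (.s k11 k10 0 (.s k171 k251 11 (.d k255 k87
  k170 13 14)))))) (.c k255 (.l (.s k8 k4 1 (.s k9 k6 2 (.s k11 k10 0 (.s k251 k171 11 (.s k89 k170
  12 (.s k90 k88 0 (.d k169 k249 k248 11 12)))))))) .n))) (.c k2 (.q k17 [(.s k153 k221 9 (.s k170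
  k255 14 (.s k136 k187 4 (.s k204 k68 9 (.d k51 k34 k102 4 14))))), (.s k51 k34 4 (.s k19 k35 3 (.s
  k153 k221 9 (.s k86 k220 10 (.s k84 k87 0 (.d k252 k168 k169 13 14)))))), (.s k153 k221 9 (.s k255
  k170 14 (.s k87 k171 13 (.s k86 k84 0 (.s k19 k220 10 (.s k223 k155 9 (.d k16 k18 k154 0
  10))))))), (.s k51 k34 4 (.s k19 k35 3 (.s k255 k170 14 (.s k87 k171 13 (.s k223 k155 9 (.d k16
  k18 k154 0 10))))))] .n) (.c k84 (.q k5 [(.s k1 k2 0 (.s k13 k9 1 (.s k165 k245 11 (.s k89 k241 13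
  (.s k93 k81 1 (.d k253 k173 k169 11 13)))))), (.s k245 k165 11 (.s k255 k170 14 (.s k87 k171 13
  (.s k95 k83 1 (.s k80 k90 2 (.d k240 k250 k160 2 11)))))), (.s k1 k2 0 (.s k9 k13 1 (.s k12 k6 2
  (.s k8 k4 1 (.s k170 k255 14 (.s k251 k89 12 (.d k11 k10 k171 0 11)))))))] (.c k165 (.l (.s k1 k2
  0 (.s k9 k13 1 (.s k12 k6 2 (.s k8 k4 1 (.s k169 k253 13 (.s k89 k249 11 (.d k170 k251 k255 12
  14)))))))) .n)) (.c k86 (.q k16 [(.s k2 k1 0 (.s k48 k32 3 (.s k18 k33 4 (.s k34 k50 3 (.d k17 k19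
  k51 0 4))))), (.s k48 k32 3 (.s k154 k223 10 (.s k101 k207 14 (.s k117 k69 3 (.d k255 k186 k170 10
  14))))), (.s k223 k154 10 (.s k255 k170 14 (.s k87 k171 13 (.s k19 k155 9 (.s k51 k35 3 (.d k17
  k18 k34 0 4))))))] .n) (.c k169 (.q k16 [(.s k2 k1 0 (.s k48 k32 3 (.s k18 k33 4 (.s k17 k19 0 (.d
  k34 k50 k51 3 4))))), (.s k48 k32 3 (.s k154 k223 10 (.s k101 k207 14 (.s k117 k69 3 (.d k255 k186
  k170 10 14))))), (.s k2 k1 0 (.s k154 k223 10 (.s k170 k255 14 (.s k86 k254 13 (.s k18 k222 9 (.s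
  k17 k19 0 (.d k34 k50 k51 3 4)))))))] .n) (.c k170 (.f k1 k2 0 (.l (.s k169 k253 13 (.s k86 k252
  14 (.s k87 k84 0 (.s k95 k83 1 (.s k90 k80 2 (.s k11 k248 12 (.d k171 k255 k251 13 11))))))))) (.c
  k171 (.l (.s k2 k1 0 (.s k170 k255 14 (.s k86 k254 13 (.s k84 k87 0 (.d k252 k168 k169 13 14))))))
  (.c k252 (.f k2 k1 0 (.f k255 k170 14 (.f k87 k171 13 (.f k83 k95 1 (.l (.s k86 k84 0 (.s k89 k92
  2 (.s k93 k81 1 (.s k12 k174 12 (.s k4 k8 1 (.s k6 k9 2 (.d k166 k246 k247 11 12)))))))))))) (.c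
  k253 (.l (.s k2 k1 0 (.s k170 k255 14 (.s k86 k254 13 (.s k252 k169 14 (.d k84 k87 k168 0 13))))))
  (.c k254 (.l (.s k1 k2 0 (.s k169 k253 13 (.s k86 k252 14 (.s k255 k170 14 (.d k87 k84 k171 0
  13)))))) (.c k255 (.f k1 k2 0 (.q k95 [(.s k87 k83 1 (.s k86 k84 0 (.d k169 k253 k252 13 14))),
  (.s k80 k90 2 (.s k83 k87 1 (.s k82 k81 0 (.d k240 k160 k161 11 12)))), (.s k90 k80 2 (.s k88 k89
  0 (.s k169 k253 13 (.s k248 k11 12 (.s k168 k8 11 (.d k252 k84 k86 13 14))))))] (.c k247 (.q k251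
  [(.s k87 k83 1 (.s k86 k84 0 (.d k169 k253 k252 13 14))), (.s k80 k90 2 (.s k240 k160 11 (.s k82
  k161 12 (.d k83 k87 k81 1 0))))] (.c k7 (.l (.s k87 k83 1 (.s k86 k84 0 (.d k169 k253 k252 13
  14)))) (.c k83 (.l (.s k11 k171 11 (.s k90 k80 2 (.d k169 k248 k253 12 13)))) (.c k87 (.q k7 [(.s
  k11 k171 11 (.s k90 k80 2 (.d k169 k248 k253 12 13))), (.s k80 k90 2 (.s k169 k253 13 (.s k240
  k160 11 (.s k161 k82 12 (.s k165 k173 1 (.d k86 k252 k244 14 12)))))), (.s k169 k253 13 (.s k171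
  k11 11 (.s k168 k170 0 (.d k252 k86 k84 14 13)))), (.s k90 k80 2 (.s k89 k88 0 (.s k8 k170 12 (.s
  k12 k4 1 (.s k9 k6 2 (.d k11 k10 k171 0 11))))))] .n) .n)))) (.c k251 (.q k247 [(.s k87 k83 1 (.s
  k86 k84 0 (.d k169 k253 k252 13 14))), (.s k80 k90 2 (.s k83 k87 1 (.s k82 k81 0 (.d k240 k160
  k161 11 12)))), (.s k4 k166 12 (.s k12 k8 1 (.s k9 k6 2 (.s k90 k80 2 (.s k89 k88 0 (.d k169 k249
  k253 11 13))))))] .n) .n)))) .n))))))))))))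

def s15_243_168 : T TT 256 :=
  (.l (.s k1 k2 0 (.s k169 k253 13 (.s k86 k252 14 (.s k87 k84 0 (.d k255 k171 k170 13 14))))))

def s15_243_169 : T TT 256 :=
  (.f k1 k2 0 (.q k63 [(.s k21 k42 6 (.s k23 k43 5 (.s k22 k20 0 (.d k41 k61 k60 5 6)))), (.s k43
  k23 5 (.s k255 k170 14 (.s k171 k87 13 (.s k107 k235 7 (.s k151 k195 13 (.d k191 k131 k127 5
  7)))))), (.s k21 k42 6 (.s k149 k213 7 (.s k106 k192 14 (.s k127 k64 6 (.d k255 k191 k170 7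
  14)))))] (.c k91 (.q k167 [(.s k21 k42 6 (.s k23 k43 5 (.s k22 k20 0 (.d k41 k61 k60 5 6)))), (.s
  k43 k23 5 (.s k255 k170 14 (.s k171 k87 13 (.s k107 k235 7 (.s k151 k195 13 (.d k191 k131 k127 5
  7)))))), (.s k21 k42 6 (.s k149 k213 7 (.s k106 k192 14 (.s k127 k64 6 (.d k255 k191 k170 7
  14)))))] .n) (.c k167 (.q k91 [(.s k21 k42 6 (.s k23 k43 5 (.s k22 k20 0 (.d k41 k61 k60 5 6)))),
  (.s k43 k23 5 (.s k255 k170 14 (.s k171 k87 13 (.s k107 k235 7 (.s k151 k195 13 (.d k191 k131 k127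
  5 7)))))), (.s k21 k42 6 (.s k149 k213 7 (.s k106 k192 14 (.s k127 k64 6 (.d k255 k191 k170 7
  14)))))] .n) .n))))

def s15_243_170 : T TT 256 :=
  (.q k33 [(.s k1 k2 0 (.s k49 k17 3 (.s k169 k253 13 (.s k101 k237 9 (.s k69 k117 3 (.d k205 k137
  k153 9 13)))))), (.s k48 k18 4 (.s k16 k32 3 (.s k154 k223 10 (.s k101 k207 14 (.s k169 k237 9 (.s
  k184 k139 4 (.d k252 k116 k86 9 14))))))), (.s k2 k1 0 (.s k18 k48 4 (.s k34 k50 3 (.s k51 k17 4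
  (.d k35 k32 k19 0 3)))))] (.c k91 (.q k167 [(.s k1 k2 0 (.s k49 k17 3 (.s k169 k253 13 (.s k101
  k237 9 (.s k69 k117 3 (.d k205 k137 k153 9 13)))))), (.s k48 k18 4 (.s k16 k32 3 (.s k154 k223 10
  (.s k101 k207 14 (.s k169 k237 9 (.s k184 k139 4 (.d k252 k116 k86 9 14))))))), (.s k2 k1 0 (.s
  k18 k48 4 (.s k34 k50 3 (.s k51 k17 4 (.d k35 k32 k19 0 3)))))] .n) (.c k167 (.q k91 [(.s k1 k2 0
  (.s k49 k17 3 (.s k169 k253 13 (.s k101 k237 9 (.s k69 k117 3 (.d k205 k137 k153 9 13)))))), (.s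
  k48 k18 4 (.s k16 k32 3 (.s k154 k223 10 (.s k101 k207 14 (.s k169 k237 9 (.s k184 k139 4 (.d k252
  k116 k86 9 14))))))), (.s k2 k1 0 (.s k18 k48 4 (.s k34 k50 3 (.s k51 k17 4 (.d k35 k32 k19 0
  3)))))] .n) .n)))

def s15_243_171 : T TT 256 :=
  (.l (.s k2 k1 0 (.s k170 k255 14 (.s k86 k254 13 (.s k84 k87 0 (.d k252 k168 k169 13 14))))))

def s15_243_172 : T TT 256 :=
  (.l (.s k1 k2 0 (.s k169 k253 13 (.s k86 k252 14 (.s k87 k84 0 (.d k255 k171 k170 13 14))))))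

def s15_243_173 : T TT 256 :=
  (.l (.s k1 k2 0 (.s k169 k253 13 (.s k170 k255 14 (.s k168 k171 0 (.d k252 k84 k86 13 14))))))

def s15_243_174 : T TT 256 :=
  (.l (.s k1 k2 0 (.s k169 k253 13 (.s k86 k252 14 (.s k87 k84 0 (.d k255 k171 k170 13 14))))))

def s15_243_175 : T TT 256 :=
  (.l (.s k1 k2 0 (.s k169 k253 13 (.s k86 k252 14 (.s k87 k84 0 (.d k255 k171 k170 13 14))))))

def s15_243_176 : T TT 256 :=
  (.l (.s k1 k2 0 (.s k169 k253 13 (.s k86 k252 14 (.s k87 k84 0 (.d k255 k171 k170 13 14))))))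

def s15_243_177 : T TT 256 :=
  (.l (.s k1 k2 0 (.s k169 k253 13 (.s k86 k252 14 (.s k87 k84 0 (.d k255 k171 k170 13 14))))))

def s15_243_178 : T TT 256 :=
  (.l (.s k1 k2 0 (.s k169 k253 13 (.s k86 k252 14 (.s k87 k84 0 (.d k255 k171 k170 13 14))))))

def s15_243_179 : T TT 256 :=
  (.l (.s k1 k2 0 (.s k169 k253 13 (.s k86 k252 14 (.s k87 k84 0 (.d k255 k171 k170 13 14))))))

def s15_243_180 : T TT 256 :=
  (.l (.s k1 k2 0 (.s k169 k253 13 (.s k86 k252 14 (.s k87 k84 0 (.d k255 k171 k170 13 14))))))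

def s15_243_181 : T TT 256 :=
  (.l (.s k1 k2 0 (.s k169 k253 13 (.s k86 k252 14 (.s k87 k84 0 (.d k255 k171 k170 13 14))))))

def s15_243_182 : T TT 256 :=
  (.l (.s k1 k2 0 (.s k169 k253 13 (.s k86 k252 14 (.s k87 k84 0 (.d k255 k171 k170 13 14))))))

def s15_243_183 : T TT 256 :=
  (.l (.s k1 k2 0 (.s k169 k253 13 (.s k86 k252 14 (.s k87 k84 0 (.d k255 k171 k170 13 14))))))

def s15_243_184 : T TT 256 :=
  (.l (.s k1 k2 0 (.s k169 k253 13 (.s k86 k252 14 (.s k87 k84 0 (.d k255 k171 k170 13 14))))))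

def s15_243_185 : T TT 256 :=
  (.l (.s k1 k2 0 (.s k169 k253 13 (.s k86 k252 14 (.s k87 k84 0 (.d k255 k171 k170 13 14))))))

def s15_243_186 : T TT 256 :=
  (.l (.s k1 k2 0 (.s k169 k253 13 (.s k86 k252 14 (.s k87 k84 0 (.d k255 k171 k170 13 14))))))

def s15_243_187 : T TT 256 :=
  (.l (.s k1 k2 0 (.s k169 k253 13 (.s k86 k252 14 (.s k87 k84 0 (.d k255 k171 k170 13 14))))))

def s15_243_188 : T TT 256 :=
  (.l (.s k1 k2 0 (.s k169 k253 13 (.s k86 k252 14 (.s k87 k84 0 (.d k255 k171 k170 13 14))))))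

def s15_243_189 : T TT 256 :=
  (.l (.s k1 k2 0 (.s k169 k253 13 (.s k86 k252 14 (.s k87 k84 0 (.d k255 k171 k170 13 14))))))

def s15_243_190 : T TT 256 :=
  (.l (.s k1 k2 0 (.s k169 k253 13 (.s k86 k252 14 (.s k87 k84 0 (.d k255 k171 k170 13 14))))))

def s15_243_191 : T TT 256 :=
  (.l (.s k1 k2 0 (.s k169 k253 13 (.s k86 k252 14 (.s k87 k84 0 (.d k255 k171 k170 13 14))))))

def s15_243_192 : T TT 256 :=
  (.l (.s k1 k2 0 (.s k169 k253 13 (.s k86 k252 14 (.s k87 k84 0 (.d k255 k171 k170 13 14))))))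

def s15_243_193 : T TT 256 :=
  (.l (.s k1 k2 0 (.s k169 k253 13 (.s k86 k252 14 (.s k87 k84 0 (.d k255 k171 k170 13 14))))))

def s15_243_194 : T TT 256 :=
  (.l (.s k1 k2 0 (.s k169 k253 13 (.s k86 k252 14 (.s k87 k84 0 (.d k255 k171 k170 13 14))))))

def s15_243_195 : T TT 256 :=
  (.l (.s k1 k2 0 (.s k169 k253 13 (.s k86 k252 14 (.s k87 k84 0 (.d k255 k171 k170 13 14))))))

def s15_243_196 : T TT 256 :=
  (.l (.s k1 k2 0 (.s k169 k253 13 (.s k86 k252 14 (.s k87 k84 0 (.d k255 k171 k170 13 14))))))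

def s15_243_197 : T TT 256 :=
  (.l (.s k1 k2 0 (.s k169 k253 13 (.s k86 k252 14 (.s k87 k84 0 (.d k255 k171 k170 13 14))))))

def s15_243_198 : T TT 256 :=
  (.l (.s k1 k2 0 (.s k169 k253 13 (.s k86 k252 14 (.s k87 k84 0 (.d k255 k171 k170 13 14))))))

def s15_243_199 : T TT 256 :=
  (.l (.s k1 k2 0 (.s k169 k253 13 (.s k86 k252 14 (.s k87 k84 0 (.d k255 k171 k170 13 14))))))

def s15_243_200 : T TT 256 :=
  (.l (.s k1 k2 0 (.s k169 k253 13 (.s k86 k252 14 (.s k87 k84 0 (.d k255 k171 k170 13 14))))))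

def s15_243_201 : T TT 256 :=
  (.l (.s k1 k2 0 (.s k169 k253 13 (.s k86 k252 14 (.s k87 k84 0 (.d k255 k171 k170 13 14))))))

def s15_243_202 : T TT 256 :=
  (.l (.s k1 k2 0 (.s k169 k253 13 (.s k86 k252 14 (.s k87 k84 0 (.d k255 k171 k170 13 14))))))

def s15_243_203 : T TT 256 :=
  (.l (.s k1 k2 0 (.s k169 k253 13 (.s k86 k252 14 (.s k87 k84 0 (.d k255 k171 k170 13 14))))))

def s15_243_204 : T TT 256 :=
  (.l (.s k1 k2 0 (.s k169 k253 13 (.s k86 k252 14 (.s k87 k84 0 (.d k255 k171 k170 13 14))))))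

def s15_243_205 : T TT 256 :=
  (.l (.s k1 k2 0 (.s k169 k253 13 (.s k86 k252 14 (.s k87 k84 0 (.d k255 k171 k170 13 14))))))

def s15_243_206 : T TT 256 :=
  (.l (.s k1 k2 0 (.s k169 k253 13 (.s k86 k252 14 (.s k87 k84 0 (.d k255 k171 k170 13 14))))))

def s15_243_207 : T TT 256 :=
  (.l (.s k1 k2 0 (.s k169 k253 13 (.s k86 k252 14 (.s k87 k84 0 (.d k255 k171 k170 13 14))))))

def s15_243_208 : T TT 256 :=
  (.l (.s k1 k2 0 (.s k169 k253 13 (.s k86 k252 14 (.s k87 k84 0 (.d k255 k171 k170 13 14))))))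

def s15_243_209 : T TT 256 :=
  (.l (.s k1 k2 0 (.s k169 k253 13 (.s k86 k252 14 (.s k87 k84 0 (.d k255 k171 k170 13 14))))))

def s15_243_210 : T TT 256 :=
  (.l (.s k1 k2 0 (.s k169 k253 13 (.s k86 k252 14 (.s k87 k84 0 (.d k255 k171 k170 13 14))))))

def s15_243_211 : T TT 256 :=
  (.l (.s k1 k2 0 (.s k169 k253 13 (.s k86 k252 14 (.s k87 k84 0 (.d k255 k171 k170 13 14))))))

def s15_243_212 : T TT 256 :=
  (.l (.s k1 k2 0 (.s k169 k253 13 (.s k86 k252 14 (.s k87 k84 0 (.d k255 k171 k170 13 14))))))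

def s15_243_213 : T TT 256 :=
  (.l (.s k1 k2 0 (.s k169 k253 13 (.s k86 k252 14 (.s k87 k84 0 (.d k255 k171 k170 13 14))))))

def s15_243_214 : T TT 256 :=
  (.l (.s k1 k2 0 (.s k169 k253 13 (.s k86 k252 14 (.s k87 k84 0 (.d k255 k171 k170 13 14))))))

def s15_243_215 : T TT 256 :=
  (.l (.s k1 k2 0 (.s k169 k253 13 (.s k86 k252 14 (.s k87 k84 0 (.d k255 k171 k170 13 14))))))

def s15_243_216 : T TT 256 :=
  (.l (.s k1 k2 0 (.s k169 k253 13 (.s k86 k252 14 (.s k87 k84 0 (.d k255 k171 k170 13 14))))))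

def s15_243_217 : T TT 256 :=
  (.l (.s k1 k2 0 (.s k169 k253 13 (.s k86 k252 14 (.s k87 k84 0 (.d k255 k171 k170 13 14))))))

def s15_243_218 : T TT 256 :=
  (.l (.s k1 k2 0 (.s k169 k253 13 (.s k86 k252 14 (.s k87 k84 0 (.d k255 k171 k170 13 14))))))

def s15_243_219 : T TT 256 :=
  (.l (.s k1 k2 0 (.s k169 k253 13 (.s k86 k252 14 (.s k87 k84 0 (.d k255 k171 k170 13 14))))))

def s15_243_220 : T TT 256 :=
  (.l (.s k1 k2 0 (.s k169 k253 13 (.s k86 k252 14 (.s k87 k84 0 (.d k255 k171 k170 13 14))))))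

def s15_243_221 : T TT 256 :=
  (.l (.s k1 k2 0 (.s k169 k253 13 (.s k86 k252 14 (.s k87 k84 0 (.d k255 k171 k170 13 14))))))

def s15_243_222 : T TT 256 :=
  (.l (.s k1 k2 0 (.s k169 k253 13 (.s k86 k252 14 (.s k87 k84 0 (.d k255 k171 k170 13 14))))))

def s15_243_223 : T TT 256 :=
  (.l (.s k1 k2 0 (.s k169 k253 13 (.s k86 k252 14 (.s k87 k84 0 (.d k255 k171 k170 13 14))))))

def s15_243_224 : T TT 256 :=
  (.l (.s k1 k2 0 (.s k169 k253 13 (.s k86 k252 14 (.s k87 k84 0 (.d k255 k171 k170 13 14))))))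

def s15_243_225 : T TT 256 :=
  (.l (.s k1 k2 0 (.s k169 k253 13 (.s k86 k252 14 (.s k87 k84 0 (.d k255 k171 k170 13 14))))))

def s15_243_226 : T TT 256 :=
  (.l (.s k1 k2 0 (.s k169 k253 13 (.s k86 k252 14 (.s k87 k84 0 (.d k255 k171 k170 13 14))))))

def s15_243_227 : T TT 256 :=
  (.l (.s k1 k2 0 (.s k169 k253 13 (.s k86 k252 14 (.s k87 k84 0 (.d k255 k171 k170 13 14))))))

def s15_243_228 : T TT 256 :=
  (.l (.s k1 k2 0 (.s k169 k253 13 (.s k86 k252 14 (.s k87 k84 0 (.d k255 k171 k170 13 14))))))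

def s15_243_229 : T TT 256 :=
  (.l (.s k1 k2 0 (.s k169 k253 13 (.s k86 k252 14 (.s k87 k84 0 (.d k255 k171 k170 13 14))))))

def s15_243_230 : T TT 256 :=
  (.l (.s k1 k2 0 (.s k169 k253 13 (.s k86 k252 14 (.s k87 k84 0 (.d k255 k171 k170 13 14))))))

def s15_243_231 : T TT 256 :=
  (.l (.s k1 k2 0 (.s k169 k253 13 (.s k86 k252 14 (.s k87 k84 0 (.d k255 k171 k170 13 14))))))

def s15_243_232 : T TT 256 :=
  (.l (.s k1 k2 0 (.s k169 k253 13 (.s k86 k252 14 (.s k87 k84 0 (.d k255 k171 k170 13 14))))))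

def s15_243_233 : T TT 256 :=
  (.l (.s k1 k2 0 (.s k169 k253 13 (.s k86 k252 14 (.s k87 k84 0 (.d k255 k171 k170 13 14))))))

def s15_243_234 : T TT 256 :=
  (.l (.s k1 k2 0 (.s k169 k253 13 (.s k86 k252 14 (.s k87 k84 0 (.d k255 k171 k170 13 14))))))

def s15_243_235 : T TT 256 :=
  (.l (.s k1 k2 0 (.s k169 k253 13 (.s k86 k252 14 (.s k87 k84 0 (.d k255 k171 k170 13 14))))))

def s15_243_236 : T TT 256 :=
  (.l (.s k1 k2 0 (.s k169 k253 13 (.s k86 k252 14 (.s k87 k84 0 (.d k255 k171 k170 13 14))))))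

def s15_243_237 : T TT 256 :=
  (.l (.s k1 k2 0 (.s k169 k253 13 (.s k86 k252 14 (.s k87 k84 0 (.d k255 k171 k170 13 14))))))

def s15_243_238 : T TT 256 :=
  (.l (.s k1 k2 0 (.s k169 k253 13 (.s k86 k252 14 (.s k87 k84 0 (.d k255 k171 k170 13 14))))))

def s15_243_239 : T TT 256 :=
  (.l (.s k1 k2 0 (.s k169 k253 13 (.s k86 k252 14 (.s k87 k84 0 (.d k255 k171 k170 13 14))))))

def s15_243_240 : T TT 256 :=
  (.l (.s k1 k2 0 (.s k169 k253 13 (.s k86 k252 14 (.s k87 k84 0 (.d k255 k171 k170 13 14))))))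

def s15_243_241 : T TT 256 :=
  (.l (.s k1 k2 0 (.s k169 k253 13 (.s k86 k252 14 (.s k87 k84 0 (.d k255 k171 k170 13 14))))))

def s15_243_242 : T TT 256 :=
  (.l (.s k1 k2 0 (.s k169 k253 13 (.s k86 k252 14 (.s k87 k84 0 (.d k255 k171 k170 13 14))))))

def s15_243_244 : T TT 256 :=
  (.l (.s k1 k2 0 (.s k169 k253 13 (.s k86 k252 14 (.s k87 k84 0 (.d k255 k171 k170 13 14))))))

def s15_243_245 : T TT 256 :=
  (.l (.s k1 k2 0 (.s k169 k253 13 (.s k86 k252 14 (.s k87 k84 0 (.d k255 k171 k170 13 14))))))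

def s15_243_246 : T TT 256 :=
  (.l (.s k1 k2 0 (.s k169 k253 13 (.s k170 k255 14 (.s k168 k171 0 (.d k252 k84 k86 13 14))))))

def s15_243_247 : T TT 256 :=
  (.l (.s k1 k2 0 (.s k169 k253 13 (.s k86 k252 14 (.s k87 k84 0 (.d k255 k171 k170 13 14))))))

def s15_243_248 : T TT 256 :=
  (.l (.s k1 k2 0 (.s k169 k253 13 (.s k86 k252 14 (.s k87 k84 0 (.d k255 k171 k170 13 14))))))

def s15_243_249 : T TT 256 :=
  (.l (.s k1 k2 0 (.s k169 k253 13 (.s k170 k255 14 (.s k168 k171 0 (.d k252 k84 k86 13 14))))))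

def s15_243_250 : T TT 256 :=
  (.l (.s k1 k2 0 (.s k169 k253 13 (.s k86 k252 14 (.s k87 k84 0 (.d k255 k171 k170 13 14))))))

def s15_243_251 : T TT 256 :=
  (.l (.s k1 k2 0 (.s k169 k253 13 (.s k86 k252 14 (.s k87 k84 0 (.d k255 k171 k170 13 14))))))

def s15_243_252 : T TT 256 :=
  (.f k2 k1 0 (.f k255 k170 14 (.q k213 [(.s k192 k234 6 (.s k64 k128 7 (.s k106 k127 6 (.d k149 k21
  k63 7 14)))), (.s k87 k171 13 (.s k86 k84 0 (.s k149 k21 7 (.s k23 k212 8 (.s k63 k43 5 (.d k192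
  k234 k106 6 14)))))), (.s k192 k234 6 (.s k66 k129 8 (.s k130 k194 7 (.s k65 k195 8 (.d k64 k67
  k128 0 7)))))] (.c k91 (.q k167 [(.s k192 k234 6 (.s k64 k128 7 (.s k106 k127 6 (.d k149 k21 k63 7
  14)))), (.s k87 k171 13 (.s k86 k84 0 (.s k149 k21 7 (.s k23 k212 8 (.s k63 k43 5 (.d k192 k234
  k106 6 14)))))), (.s k192 k234 6 (.s k66 k129 8 (.s k130 k194 7 (.s k65 k195 8 (.d k64 k67 k128 0
  7)))))] (.c k94 (.q k173 [(.s k192 k234 6 (.s k64 k128 7 (.s k106 k127 6 (.d k149 k21 k63 7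
  14)))), (.s k87 k171 13 (.s k86 k84 0 (.s k149 k21 7 (.s k23 k212 8 (.s k63 k43 5 (.d k192 k234
  k106 6 14)))))), (.s k192 k234 6 (.s k66 k129 8 (.s k130 k194 7 (.s k65 k195 8 (.d k64 k67 k128 0
  7)))))] (.c k106 (.l (.s k21 k149 7 (.s k42 k63 6 (.s k192 k234 6 (.s k22 k62 5 (.s k20 k23 0 (.d
  k60 k40 k41 5 6))))))) (.c k192 (.l (.s k21 k149 7 (.s k63 k42 6 (.s k23 k43 5 (.s k20 k22 0 (.s
  k87 k171 13 (.d k215 k151 k150 7 8))))))) (.c k234 (.l (.s k21 k149 7 (.s k42 k63 6 (.s k22 k62 5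
  (.s k20 k23 0 (.d k60 k40 k41 5 6)))))) (.c k246 (.q k249 [(.s k192 k234 6 (.s k64 k128 7 (.s k106
  k127 6 (.d k149 k21 k63 7 14)))), (.s k87 k171 13 (.s k86 k84 0 (.s k149 k21 7 (.s k23 k212 8 (.s
  k63 k43 5 (.d k192 k234 k106 6 14)))))), (.s k192 k234 6 (.s k66 k129 8 (.s k130 k194 7 (.s k65
  k195 8 (.d k64 k67 k128 0 7)))))] (.c k106 (.l (.s k21 k149 7 (.s k42 k63 6 (.s k192 k234 6 (.s
  k22 k62 5 (.s k20 k23 0 (.d k60 k40 k41 5 6))))))) (.c k192 (.l (.s k21 k149 7 (.s k63 k42 6 (.s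
  k23 k43 5 (.s k20 k22 0 (.s k87 k171 13 (.d k215 k151 k150 7 8))))))) (.c k234 (.l (.s k21 k149 7
  (.s k42 k63 6 (.s k22 k62 5 (.s k20 k23 0 (.d k60 k40 k41 5 6)))))) .n)))) (.c k249 (.q k246 [(.s
  k149 k21 7 (.s k192 k234 6 (.s k64 k128 7 (.d k106 k127 k63 6 14)))), (.s k87 k171 13 (.s k86 k84
  0 (.s k166 k6 11 (.d k247 k7 k4 11 12))))] .n) .n)))))) (.c k106 (.l (.s k21 k149 7 (.s k42 k63 6
  (.s k192 k234 6 (.s k22 k62 5 (.s k20 k23 0 (.d k60 k40 k41 5 6))))))) (.c k173 (.q k94 [(.s k192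
  k234 6 (.s k64 k128 7 (.s k106 k127 6 (.d k149 k21 k63 7 14)))), (.s k87 k171 13 (.s k86 k84 0 (.s
  k149 k21 7 (.s k23 k212 8 (.s k63 k43 5 (.d k192 k234 k106 6 14)))))), (.s k192 k234 6 (.s k66
  k129 8 (.s k130 k194 7 (.s k65 k195 8 (.d k64 k67 k128 0 7)))))] (.c k106 (.l (.s k21 k149 7 (.s
  k42 k63 6 (.s k192 k234 6 (.s k22 k62 5 (.s k20 k23 0 (.d k60 k40 k41 5 6))))))) (.c k192 (.l (.s
  k21 k149 7 (.s k63 k42 6 (.s k23 k43 5 (.s k20 k22 0 (.s k87 k171 13 (.d k215 k151 k150 7 8)))))))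
  (.c k234 (.l (.s k21 k149 7 (.s k42 k63 6 (.s k22 k62 5 (.s k20 k23 0 (.d k60 k40 k41 5 6))))))
  (.c k246 (.q k249 [(.s k192 k234 6 (.s k64 k128 7 (.s k106 k127 6 (.d k149 k21 k63 7 14)))), (.s
  k87 k171 13 (.s k86 k84 0 (.s k149 k21 7 (.s k23 k212 8 (.s k63 k43 5 (.d k192 k234 k106 6
  14)))))), (.s k192 k234 6 (.s k66 k129 8 (.s k130 k194 7 (.s k65 k195 8 (.d k64 k67 k128 0 7)))))]
  (.c k106 (.l (.s k21 k149 7 (.s k42 k63 6 (.s k192 k234 6 (.s k22 k62 5 (.s k20 k23 0 (.d k60 k40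
  k41 5 6))))))) (.c k192 (.l (.s k21 k149 7 (.s k63 k42 6 (.s k23 k43 5 (.s k20 k22 0 (.s k87 k171
  13 (.d k215 k151 k150 7 8))))))) (.c k234 (.l (.s k21 k149 7 (.s k42 k63 6 (.s k22 k62 5 (.s k20
  k23 0 (.d k60 k40 k41 5 6)))))) .n)))) (.c k249 (.q k246 [(.s k149 k21 7 (.s k192 k234 6 (.s k64
  k128 7 (.d k106 k127 k63 6 14)))), (.s k87 k171 13 (.s k86 k84 0 (.s k166 k6 11 (.d k247 k7 k4 11
  12))))] .n) .n)))))) (.c k192 (.l (.s k21 k149 7 (.s k63 k42 6 (.s k23 k43 5 (.s k20 k22 0 (.s k87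
  k171 13 (.d k215 k151 k150 7 8))))))) (.c k234 (.l (.s k21 k149 7 (.s k42 k63 6 (.s k22 k62 5 (.s
  k20 k23 0 (.d k60 k40 k41 5 6)))))) (.c k246 (.q k249 [(.s k192 k234 6 (.s k64 k128 7 (.s k106
  k127 6 (.d k149 k21 k63 7 14)))), (.s k87 k171 13 (.s k86 k84 0 (.s k149 k21 7 (.s k23 k212 8 (.s
  k63 k43 5 (.d k192 k234 k106 6 14)))))), (.s k192 k234 6 (.s k66 k129 8 (.s k130 k194 7 (.s k65
  k195 8 (.d k64 k67 k128 0 7)))))] (.c k94 (.q k173 [(.s k192 k234 6 (.s k64 k128 7 (.s k106 k127 6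
  (.d k149 k21 k63 7 14)))), (.s k87 k171 13 (.s k86 k84 0 (.s k149 k21 7 (.s k23 k212 8 (.s k63 k43
  5 (.d k192 k234 k106 6 14)))))), (.s k192 k234 6 (.s k66 k129 8 (.s k130 k194 7 (.s k65 k195 8 (.d
  k64 k67 k128 0 7)))))] (.c k106 (.l (.s k21 k149 7 (.s k42 k63 6 (.s k192 k234 6 (.s k22 k62 5 (.s
  k20 k23 0 (.d k60 k40 k41 5 6))))))) (.c k192 (.l (.s k21 k149 7 (.s k63 k42 6 (.s k23 k43 5 (.s
  k20 k22 0 (.s k87 k171 13 (.d k215 k151 k150 7 8))))))) (.c k234 (.l (.s k21 k149 7 (.s k42 k63 6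
  (.s k22 k62 5 (.s k20 k23 0 (.d k60 k40 k41 5 6)))))) .n)))) (.c k106 (.l (.s k21 k149 7 (.s k42
  k63 6 (.s k192 k234 6 (.s k22 k62 5 (.s k20 k23 0 (.d k60 k40 k41 5 6))))))) (.c k173 (.q k94 [(.s
  k192 k234 6 (.s k64 k128 7 (.s k106 k127 6 (.d k149 k21 k63 7 14)))), (.s k87 k171 13 (.s k86 k84
  0 (.s k149 k21 7 (.s k23 k212 8 (.s k63 k43 5 (.d k192 k234 k106 6 14)))))), (.s k192 k234 6 (.s
  k66 k129 8 (.s k130 k194 7 (.s k65 k195 8 (.d k64 k67 k128 0 7)))))] (.c k106 (.l (.s k21 k149 7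
  (.s k42 k63 6 (.s k192 k234 6 (.s k22 k62 5 (.s k20 k23 0 (.d k60 k40 k41 5 6))))))) (.c k192 (.l
  (.s k21 k149 7 (.s k63 k42 6 (.s k23 k43 5 (.s k20 k22 0 (.s k87 k171 13 (.d k215 k151 k150 7
  8))))))) (.c k234 (.l (.s k21 k149 7 (.s k42 k63 6 (.s k22 k62 5 (.s k20 k23 0 (.d k60 k40 k41 5
  6)))))) .n)))) (.c k192 (.l (.s k21 k149 7 (.s k63 k42 6 (.s k23 k43 5 (.s k20 k22 0 (.s k87 k171
  13 (.d k215 k151 k150 7 8))))))) (.c k234 (.l (.s k21 k149 7 (.s k42 k63 6 (.s k22 k62 5 (.s k20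
  k23 0 (.d k60 k40 k41 5 6)))))) .n)))))) (.c k249 (.q k246 [(.s k149 k21 7 (.s k192 k234 6 (.s k64
  k128 7 (.d k106 k127 k63 6 14)))), (.s k87 k171 13 (.s k86 k84 0 (.s k166 k6 11 (.d k247 k7 k4 11
  12))))] (.c k94 (.q k173 [(.s k149 k21 7 (.s k192 k234 6 (.s k64 k128 7 (.d k106 k127 k63 6
  14)))), (.s k87 k171 13 (.s k86 k84 0 (.s k166 k6 11 (.d k247 k7 k4 11 12))))] .n) (.c k173 (.q
  k94 [(.s k149 k21 7 (.s k192 k234 6 (.s k64 k128 7 (.d k106 k127 k63 6 14)))), (.s k87 k171 13 (.s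
  k86 k84 0 (.s k166 k6 11 (.d k247 k7 k4 11 12))))] .n) .n))) .n)))))))) (.c k94 (.q k173 [(.s k192
  k234 6 (.s k64 k128 7 (.s k106 k127 6 (.d k149 k21 k63 7 14)))), (.s k87 k171 13 (.s k86 k84 0 (.s
  k149 k21 7 (.s k23 k212 8 (.s k63 k43 5 (.d k192 k234 k106 6 14)))))), (.s k192 k234 6 (.s k66
  k129 8 (.s k130 k194 7 (.s k65 k195 8 (.d k64 k67 k128 0 7)))))] (.c k91 (.q k167 [(.s k192 k234 6
  (.s k64 k128 7 (.s k106 k127 6 (.d k149 k21 k63 7 14)))), (.s k87 k171 13 (.s k86 k84 0 (.s k149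
  k21 7 (.s k23 k212 8 (.s k63 k43 5 (.d k192 k234 k106 6 14)))))), (.s k192 k234 6 (.s k66 k129 8
  (.s k130 k194 7 (.s k65 k195 8 (.d k64 k67 k128 0 7)))))] (.c k106 (.l (.s k21 k149 7 (.s k42 k63
  6 (.s k192 k234 6 (.s k22 k62 5 (.s k20 k23 0 (.d k60 k40 k41 5 6))))))) (.c k192 (.l (.s k21 k149
  7 (.s k63 k42 6 (.s k23 k43 5 (.s k20 k22 0 (.s k87 k171 13 (.d k215 k151 k150 7 8))))))) (.c k234
  (.l (.s k21 k149 7 (.s k42 k63 6 (.s k22 k62 5 (.s k20 k23 0 (.d k60 k40 k41 5 6)))))) (.c k246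
  (.q k249 [(.s k192 k234 6 (.s k64 k128 7 (.s k106 k127 6 (.d k149 k21 k63 7 14)))), (.s k87 k171
  13 (.s k86 k84 0 (.s k149 k21 7 (.s k23 k212 8 (.s k63 k43 5 (.d k192 k234 k106 6 14)))))), (.s
  k192 k234 6 (.s k66 k129 8 (.s k130 k194 7 (.s k65 k195 8 (.d k64 k67 k128 0 7)))))] (.c k106 (.l
  (.s k21 k149 7 (.s k42 k63 6 (.s k192 k234 6 (.s k22 k62 5 (.s k20 k23 0 (.d k60 k40 k41 5
  6))))))) (.c k192 (.l (.s k21 k149 7 (.s k63 k42 6 (.s k23 k43 5 (.s k20 k22 0 (.s k87 k171 13 (.d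
  k215 k151 k150 7 8))))))) (.c k234 (.l (.s k21 k149 7 (.s k42 k63 6 (.s k22 k62 5 (.s k20 k23 0
  (.d k60 k40 k41 5 6)))))) .n)))) (.c k249 (.q k246 [(.s k149 k21 7 (.s k192 k234 6 (.s k64 k128 7
  (.d k106 k127 k63 6 14)))), (.s k87 k171 13 (.s k86 k84 0 (.s k166 k6 11 (.d k247 k7 k4 11 12))))]
  .n) .n)))))) (.c k106 (.l (.s k21 k149 7 (.s k42 k63 6 (.s k192 k234 6 (.s k22 k62 5 (.s k20 k23 0
  (.d k60 k40 k41 5 6))))))) (.c k167 (.q k91 [(.s k192 k234 6 (.s k64 k128 7 (.s k106 k127 6 (.d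
  k149 k21 k63 7 14)))), (.s k87 k171 13 (.s k86 k84 0 (.s k149 k21 7 (.s k23 k212 8 (.s k63 k43 5
  (.d k192 k234 k106 6 14)))))), (.s k192 k234 6 (.s k66 k129 8 (.s k130 k194 7 (.s k65 k195 8 (.d
  k64 k67 k128 0 7)))))] (.c k106 (.l (.s k21 k149 7 (.s k42 k63 6 (.s k192 k234 6 (.s k22 k62 5 (.s
  k20 k23 0 (.d k60 k40 k41 5 6))))))) (.c k192 (.l (.s k21 k149 7 (.s k63 k42 6 (.s k23 k43 5 (.s
  k20 k22 0 (.s k87 k171 13 (.d k215 k151 k150 7 8))))))) (.c k234 (.l (.s k21 k149 7 (.s k42 k63 6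
  (.s k22 k62 5 (.s k20 k23 0 (.d k60 k40 k41 5 6)))))) (.c k246 (.q k249 [(.s k192 k234 6 (.s k64
  k128 7 (.s k106 k127 6 (.d k149 k21 k63 7 14)))), (.s k87 k171 13 (.s k86 k84 0 (.s k149 k21 7 (.s
  k23 k212 8 (.s k63 k43 5 (.d k192 k234 k106 6 14)))))), (.s k192 k234 6 (.s k66 k129 8 (.s k130
  k194 7 (.s k65 k195 8 (.d k64 k67 k128 0 7)))))] (.c k106 (.l (.s k21 k149 7 (.s k42 k63 6 (.s
  k192 k234 6 (.s k22 k62 5 (.s k20 k23 0 (.d k60 k40 k41 5 6))))))) (.c k192 (.l (.s k21 k149 7 (.s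
  k63 k42 6 (.s k23 k43 5 (.s k20 k22 0 (.s k87 k171 13 (.d k215 k151 k150 7 8))))))) (.c k234 (.l
  (.s k21 k149 7 (.s k42 k63 6 (.s k22 k62 5 (.s k20 k23 0 (.d k60 k40 k41 5 6)))))) .n)))) (.c k249
  (.q k246 [(.s k192 k234 6 (.s k64 k128 7 (.s k106 k127 6 (.d k149 k21 k63 7 14)))), (.s k87 k171
  13 (.s k86 k84 0 (.s k149 k21 7 (.s k23 k212 8 (.s k63 k43 5 (.d k192 k234 k106 6 14)))))), (.s
  k192 k234 6 (.s k66 k129 8 (.s k130 k194 7 (.s k65 k195 8 (.d k64 k67 k128 0 7)))))] (.c k106 (.l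
  (.s k21 k149 7 (.s k42 k63 6 (.s k192 k234 6 (.s k22 k62 5 (.s k20 k23 0 (.d k60 k40 k41 5
  6))))))) (.c k192 (.l (.s k21 k149 7 (.s k63 k42 6 (.s k23 k43 5 (.s k20 k22 0 (.s k87 k171 13 (.d
  k215 k151 k150 7 8))))))) (.c k234 (.l (.s k21 k149 7 (.s k42 k63 6 (.s k22 k62 5 (.s k20 k23 0
  (.d k60 k40 k41 5 6)))))) .n)))) .n)))))) (.c k192 (.l (.s k21 k149 7 (.s k63 k42 6 (.s k23 k43 5
  (.s k20 k22 0 (.s k87 k171 13 (.d k215 k151 k150 7 8))))))) (.c k234 (.l (.s k21 k149 7 (.s k42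
  k63 6 (.s k22 k62 5 (.s k20 k23 0 (.d k60 k40 k41 5 6)))))) (.c k246 (.q k249 [(.s k192 k234 6 (.s
  k64 k128 7 (.s k106 k127 6 (.d k149 k21 k63 7 14)))), (.s k87 k171 13 (.s k86 k84 0 (.s k149 k21 7
  (.s k23 k212 8 (.s k63 k43 5 (.d k192 k234 k106 6 14)))))), (.s k192 k234 6 (.s k66 k129 8 (.s
  k130 k194 7 (.s k65 k195 8 (.d k64 k67 k128 0 7)))))] (.c k91 (.q k167 [(.s k192 k234 6 (.s k64
  k128 7 (.s k106 k127 6 (.d k149 k21 k63 7 14)))), (.s k87 k171 13 (.s k86 k84 0 (.s k149 k21 7 (.s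
  k23 k212 8 (.s k63 k43 5 (.d k192 k234 k106 6 14)))))), (.s k192 k234 6 (.s k66 k129 8 (.s k130
  k194 7 (.s k65 k195 8 (.d k64 k67 k128 0 7)))))] (.c k106 (.l (.s k21 k149 7 (.s k42 k63 6 (.s
  k192 k234 6 (.s k22 k62 5 (.s k20 k23 0 (.d k60 k40 k41 5 6))))))) (.c k192 (.l (.s k21 k149 7 (.s
  k63 k42 6 (.s k23 k43 5 (.s k20 k22 0 (.s k87 k171 13 (.d k215 k151 k150 7 8))))))) (.c k234 (.l
  (.s k21 k149 7 (.s k42 k63 6 (.s k22 k62 5 (.s k20 k23 0 (.d k60 k40 k41 5 6)))))) .n)))) (.c k106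
  (.l (.s k21 k149 7 (.s k42 k63 6 (.s k192 k234 6 (.s k22 k62 5 (.s k20 k23 0 (.d k60 k40 k41 5
  6))))))) (.c k167 (.q k91 [(.s k192 k234 6 (.s k64 k128 7 (.s k106 k127 6 (.d k149 k21 k63 7
  14)))), (.s k87 k171 13 (.s k86 k84 0 (.s k149 k21 7 (.s k23 k212 8 (.s k63 k43 5 (.d k192 k234
  k106 6 14)))))), (.s k192 k234 6 (.s k66 k129 8 (.s k130 k194 7 (.s k65 k195 8 (.d k64 k67 k128 0
  7)))))] (.c k106 (.l (.s k21 k149 7 (.s k42 k63 6 (.s k192 k234 6 (.s k22 k62 5 (.s k20 k23 0 (.d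
  k60 k40 k41 5 6))))))) (.c k192 (.l (.s k21 k149 7 (.s k63 k42 6 (.s k23 k43 5 (.s k20 k22 0 (.s
  k87 k171 13 (.d k215 k151 k150 7 8))))))) (.c k234 (.l (.s k21 k149 7 (.s k42 k63 6 (.s k22 k62 5
  (.s k20 k23 0 (.d k60 k40 k41 5 6)))))) .n)))) (.c k192 (.l (.s k21 k149 7 (.s k63 k42 6 (.s k23
  k43 5 (.s k20 k22 0 (.s k87 k171 13 (.d k215 k151 k150 7 8))))))) (.c k234 (.l (.s k21 k149 7 (.s
  k42 k63 6 (.s k22 k62 5 (.s k20 k23 0 (.d k60 k40 k41 5 6)))))) .n)))))) (.c k249 (.q k246 [(.s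
  k192 k234 6 (.s k64 k128 7 (.s k106 k127 6 (.d k149 k21 k63 7 14)))), (.s k87 k171 13 (.s k86 k84
  0 (.s k149 k21 7 (.s k23 k212 8 (.s k63 k43 5 (.d k192 k234 k106 6 14)))))), (.s k192 k234 6 (.s
  k66 k129 8 (.s k130 k194 7 (.s k65 k195 8 (.d k64 k67 k128 0 7)))))] (.c k91 (.q k167 [(.s k149
  k21 7 (.s k192 k234 6 (.s k64 k128 7 (.d k106 k127 k63 6 14)))), (.s k87 k171 13 (.s k86 k84 0 (.s
  k166 k6 11 (.d k247 k7 k4 11 12))))] .n) (.c k106 (.l (.s k21 k149 7 (.s k42 k63 6 (.s k192 k234 6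
  (.s k22 k62 5 (.s k20 k23 0 (.d k60 k40 k41 5 6))))))) (.c k167 (.q k91 [(.s k192 k234 6 (.s k64
  k128 7 (.s k106 k127 6 (.d k149 k21 k63 7 14)))), (.s k87 k171 13 (.s k86 k84 0 (.s k149 k21 7 (.s
  k23 k212 8 (.s k63 k43 5 (.d k192 k234 k106 6 14)))))), (.s k192 k234 6 (.s k66 k129 8 (.s k130
  k194 7 (.s k65 k195 8 (.d k64 k67 k128 0 7)))))] (.c k106 (.l (.s k21 k149 7 (.s k42 k63 6 (.s
  k192 k234 6 (.s k22 k62 5 (.s k20 k23 0 (.d k60 k40 k41 5 6))))))) (.c k192 (.l (.s k21 k149 7 (.s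
  k63 k42 6 (.s k23 k43 5 (.s k20 k22 0 (.s k87 k171 13 (.d k215 k151 k150 7 8))))))) (.c k234 (.l
  (.s k21 k149 7 (.s k42 k63 6 (.s k22 k62 5 (.s k20 k23 0 (.d k60 k40 k41 5 6)))))) .n)))) (.c k192
  (.l (.s k21 k149 7 (.s k63 k42 6 (.s k23 k43 5 (.s k20 k22 0 (.s k87 k171 13 (.d k215 k151 k150 7
  8))))))) (.c k234 (.l (.s k21 k149 7 (.s k42 k63 6 (.s k22 k62 5 (.s k20 k23 0 (.d k60 k40 k41 5
  6)))))) .n)))))) .n)))))))) (.c k106 (.l (.s k21 k149 7 (.s k42 k63 6 (.s k192 k234 6 (.s k22 k62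
  5 (.s k20 k23 0 (.d k60 k40 k41 5 6))))))) (.c k167 (.q k91 [(.s k192 k234 6 (.s k64 k128 7 (.s
  k106 k127 6 (.d k149 k21 k63 7 14)))), (.s k87 k171 13 (.s k86 k84 0 (.s k149 k21 7 (.s k23 k212 8
  (.s k63 k43 5 (.d k192 k234 k106 6 14)))))), (.s k192 k234 6 (.s k66 k129 8 (.s k130 k194 7 (.s
  k65 k195 8 (.d k64 k67 k128 0 7)))))] (.c k94 (.q k173 [(.s k192 k234 6 (.s k64 k128 7 (.s k106
  k127 6 (.d k149 k21 k63 7 14)))), (.s k87 k171 13 (.s k86 k84 0 (.s k149 k21 7 (.s k23 k212 8 (.s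
  k63 k43 5 (.d k192 k234 k106 6 14)))))), (.s k192 k234 6 (.s k66 k129 8 (.s k130 k194 7 (.s k65
  k195 8 (.d k64 k67 k128 0 7)))))] (.c k106 (.l (.s k21 k149 7 (.s k42 k63 6 (.s k192 k234 6 (.s
  k22 k62 5 (.s k20 k23 0 (.d k60 k40 k41 5 6))))))) (.c k192 (.l (.s k21 k149 7 (.s k63 k42 6 (.s
  k23 k43 5 (.s k20 k22 0 (.s k87 k171 13 (.d k215 k151 k150 7 8))))))) (.c k234 (.l (.s k21 k149 7
  (.s k42 k63 6 (.s k22 k62 5 (.s k20 k23 0 (.d k60 k40 k41 5 6)))))) (.c k246 (.q k249 [(.s k192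
  k234 6 (.s k64 k128 7 (.s k106 k127 6 (.d k149 k21 k63 7 14)))), (.s k87 k171 13 (.s k86 k84 0 (.s
  k149 k21 7 (.s k23 k212 8 (.s k63 k43 5 (.d k192 k234 k106 6 14)))))), (.s k192 k234 6 (.s k66
  k129 8 (.s k130 k194 7 (.s k65 k195 8 (.d k64 k67 k128 0 7)))))] (.c k106 (.l (.s k21 k149 7 (.s
  k42 k63 6 (.s k192 k234 6 (.s k22 k62 5 (.s k20 k23 0 (.d k60 k40 k41 5 6))))))) (.c k192 (.l (.s
  k21 k149 7 (.s k63 k42 6 (.s k23 k43 5 (.s k20 k22 0 (.s k87 k171 13 (.d k215 k151 k150 7 8)))))))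
  (.c k234 (.l (.s k21 k149 7 (.s k42 k63 6 (.s k22 k62 5 (.s k20 k23 0 (.d k60 k40 k41 5 6))))))
  .n)))) (.c k249 (.q k246 [(.s k192 k234 6 (.s k64 k128 7 (.s k106 k127 6 (.d k149 k21 k63 7
  14)))), (.s k87 k171 13 (.s k86 k84 0 (.s k149 k21 7 (.s k23 k212 8 (.s k63 k43 5 (.d k192 k234
  k106 6 14)))))), (.s k192 k234 6 (.s k66 k129 8 (.s k130 k194 7 (.s k65 k195 8 (.d k64 k67 k128 0
  7)))))] (.c k106 (.l (.s k21 k149 7 (.s k42 k63 6 (.s k192 k234 6 (.s k22 k62 5 (.s k20 k23 0 (.d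
  k60 k40 k41 5 6))))))) (.c k192 (.l (.s k21 k149 7 (.s k63 k42 6 (.s k23 k43 5 (.s k20 k22 0 (.s
  k87 k171 13 (.d k215 k151 k150 7 8))))))) (.c k234 (.l (.s k21 k149 7 (.s k42 k63 6 (.s k22 k62 5
  (.s k20 k23 0 (.d k60 k40 k41 5 6)))))) .n)))) .n)))))) (.c k106 (.l (.s k21 k149 7 (.s k42 k63 6
  (.s k192 k234 6 (.s k22 k62 5 (.s k20 k23 0 (.d k60 k40 k41 5 6))))))) (.c k173 (.q k94 [(.s k149
  k21 7 (.s k192 k234 6 (.s k64 k128 7 (.d k106 k127 k63 6 14)))), (.s k87 k171 13 (.s k86 k84 0 (.s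
  k90 k82 1 (.d k95 k83 k80 1 2))))] (.c k246 (.q k249 [(.s k149 k21 7 (.s k192 k234 6 (.s k64 k128
  7 (.d k106 k127 k63 6 14)))), (.s k87 k171 13 (.s k86 k84 0 (.s k90 k82 1 (.d k95 k83 k80 1 2))))]
  .n) (.c k249 (.q k246 [(.s k149 k21 7 (.s k192 k234 6 (.s k64 k128 7 (.d k106 k127 k63 6 14)))),
  (.s k87 k171 13 (.s k86 k84 0 (.s k90 k82 1 (.d k95 k83 k80 1 2))))] .n) .n))) (.c k192 (.l (.s
  k21 k149 7 (.s k63 k42 6 (.s k23 k43 5 (.s k20 k22 0 (.s k87 k171 13 (.d k215 k151 k150 7 8)))))))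
  (.c k234 (.l (.s k21 k149 7 (.s k42 k63 6 (.s k22 k62 5 (.s k20 k23 0 (.d k60 k40 k41 5 6))))))
  (.c k246 (.q k249 [(.s k192 k234 6 (.s k64 k128 7 (.s k106 k127 6 (.d k149 k21 k63 7 14)))), (.s
  k87 k171 13 (.s k86 k84 0 (.s k149 k21 7 (.s k23 k212 8 (.s k63 k43 5 (.d k192 k234 k106 6
  14)))))), (.s k192 k234 6 (.s k66 k129 8 (.s k130 k194 7 (.s k65 k195 8 (.d k64 k67 k128 0 7)))))]
  (.c k94 (.q k173 [(.s k192 k234 6 (.s k64 k128 7 (.s k106 k127 6 (.d k149 k21 k63 7 14)))), (.s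
  k87 k171 13 (.s k86 k84 0 (.s k149 k21 7 (.s k23 k212 8 (.s k63 k43 5 (.d k192 k234 k106 6
  14)))))), (.s k192 k234 6 (.s k66 k129 8 (.s k130 k194 7 (.s k65 k195 8 (.d k64 k67 k128 0 7)))))]
  (.c k106 (.l (.s k21 k149 7 (.s k42 k63 6 (.s k192 k234 6 (.s k22 k62 5 (.s k20 k23 0 (.d k60 k40
  k41 5 6))))))) (.c k192 (.l (.s k21 k149 7 (.s k63 k42 6 (.s k23 k43 5 (.s k20 k22 0 (.s k87 k171
  13 (.d k215 k151 k150 7 8))))))) (.c k234 (.l (.s k21 k149 7 (.s k42 k63 6 (.s k22 k62 5 (.s k20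
  k23 0 (.d k60 k40 k41 5 6)))))) .n)))) (.c k106 (.l (.s k21 k149 7 (.s k42 k63 6 (.s k192 k234 6
  (.s k22 k62 5 (.s k20 k23 0 (.d k60 k40 k41 5 6))))))) (.c k173 (.q k94 [(.s k149 k21 7 (.s k192
  k234 6 (.s k64 k128 7 (.d k106 k127 k63 6 14)))), (.s k87 k171 13 (.s k86 k84 0 (.s k90 k82 1 (.d
  k95 k83 k80 1 2))))] .n) (.c k192 (.l (.s k21 k149 7 (.s k63 k42 6 (.s k23 k43 5 (.s k20 k22 0 (.s
  k87 k171 13 (.d k215 k151 k150 7 8))))))) (.c k234 (.l (.s k21 k149 7 (.s k42 k63 6 (.s k22 k62 5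
  (.s k20 k23 0 (.d k60 k40 k41 5 6)))))) .n)))))) (.c k249 (.q k246 [(.s k192 k234 6 (.s k64 k128 7
  (.s k106 k127 6 (.d k149 k21 k63 7 14)))), (.s k87 k171 13 (.s k86 k84 0 (.s k149 k21 7 (.s k23
  k212 8 (.s k63 k43 5 (.d k192 k234 k106 6 14)))))), (.s k192 k234 6 (.s k66 k129 8 (.s k130 k194 7
  (.s k65 k195 8 (.d k64 k67 k128 0 7)))))] (.c k94 (.q k173 [(.s k192 k234 6 (.s k64 k128 7 (.s
  k106 k127 6 (.d k149 k21 k63 7 14)))), (.s k87 k171 13 (.s k86 k84 0 (.s k149 k21 7 (.s k23 k212 8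
  (.s k63 k43 5 (.d k192 k234 k106 6 14)))))), (.s k192 k234 6 (.s k66 k129 8 (.s k130 k194 7 (.s
  k65 k195 8 (.d k64 k67 k128 0 7)))))] (.c k106 (.l (.s k21 k149 7 (.s k42 k63 6 (.s k192 k234 6
  (.s k22 k62 5 (.s k20 k23 0 (.d k60 k40 k41 5 6))))))) (.c k192 (.l (.s k21 k149 7 (.s k63 k42 6
  (.s k23 k43 5 (.s k20 k22 0 (.s k87 k171 13 (.d k215 k151 k150 7 8))))))) (.c k234 (.l (.s k21
  k149 7 (.s k42 k63 6 (.s k22 k62 5 (.s k20 k23 0 (.d k60 k40 k41 5 6)))))) .n)))) (.c k106 (.l (.s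
  k21 k149 7 (.s k42 k63 6 (.s k192 k234 6 (.s k22 k62 5 (.s k20 k23 0 (.d k60 k40 k41 5 6)))))))
  (.c k173 (.q k94 [(.s k149 k21 7 (.s k192 k234 6 (.s k64 k128 7 (.d k106 k127 k63 6 14)))), (.s
  k87 k171 13 (.s k86 k84 0 (.s k90 k82 1 (.d k95 k83 k80 1 2))))] .n) (.c k192 (.l (.s k21 k149 7
  (.s k63 k42 6 (.s k23 k43 5 (.s k20 k22 0 (.s k87 k171 13 (.d k215 k151 k150 7 8))))))) (.c k234
  (.l (.s k21 k149 7 (.s k42 k63 6 (.s k22 k62 5 (.s k20 k23 0 (.d k60 k40 k41 5 6)))))) .n))))))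
  .n)))))))) (.c k173 (.q k94 [(.s k192 k234 6 (.s k64 k128 7 (.s k106 k127 6 (.d k149 k21 k63 7
  14)))), (.s k87 k171 13 (.s k86 k84 0 (.s k90 k82 1 (.s k95 k80 2 (.s k92 k93 0 (.d k83 k91 k89 1
  2))))))] (.c k91 (.q k167 [(.s k192 k234 6 (.s k64 k128 7 (.s k106 k127 6 (.d k149 k21 k63 7
  14)))), (.s k87 k171 13 (.s k86 k84 0 (.s k149 k21 7 (.s k23 k212 8 (.s k63 k43 5 (.d k192 k234
  k106 6 14)))))), (.s k192 k234 6 (.s k66 k129 8 (.s k130 k194 7 (.s k65 k195 8 (.d k64 k67 k128 0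
  7)))))] (.c k106 (.l (.s k21 k149 7 (.s k42 k63 6 (.s k192 k234 6 (.s k22 k62 5 (.s k20 k23 0 (.d
  k60 k40 k41 5 6))))))) (.c k192 (.l (.s k21 k149 7 (.s k63 k42 6 (.s k23 k43 5 (.s k20 k22 0 (.s
  k87 k171 13 (.d k215 k151 k150 7 8))))))) (.c k234 (.l (.s k21 k149 7 (.s k42 k63 6 (.s k22 k62 5
  (.s k20 k23 0 (.d k60 k40 k41 5 6)))))) (.c k246 (.q k249 [(.s k192 k234 6 (.s k64 k128 7 (.s k106
  k127 6 (.d k149 k21 k63 7 14)))), (.s k87 k171 13 (.s k86 k84 0 (.s k149 k21 7 (.s k23 k212 8 (.s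
  k63 k43 5 (.d k192 k234 k106 6 14)))))), (.s k192 k234 6 (.s k66 k129 8 (.s k130 k194 7 (.s k65
  k195 8 (.d k64 k67 k128 0 7)))))] (.c k106 (.l (.s k21 k149 7 (.s k42 k63 6 (.s k192 k234 6 (.s
  k22 k62 5 (.s k20 k23 0 (.d k60 k40 k41 5 6))))))) (.c k192 (.l (.s k21 k149 7 (.s k63 k42 6 (.s
  k23 k43 5 (.s k20 k22 0 (.s k87 k171 13 (.d k215 k151 k150 7 8))))))) (.c k234 (.l (.s k21 k149 7
  (.s k42 k63 6 (.s k22 k62 5 (.s k20 k23 0 (.d k60 k40 k41 5 6)))))) .n)))) (.c k249 (.q k246 [(.s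
  k149 k21 7 (.s k192 k234 6 (.s k64 k128 7 (.d k106 k127 k63 6 14)))), (.s k87 k171 13 (.s k86 k84
  0 (.s k166 k6 11 (.d k247 k7 k4 11 12))))] .n) .n)))))) (.c k167 (.q k91 [(.s k149 k21 7 (.s k192
  k234 6 (.s k64 k128 7 (.d k106 k127 k63 6 14)))), (.s k87 k171 13 (.s k86 k84 0 (.s k90 k82 1 (.d
  k95 k83 k80 1 2))))] (.c k246 (.q k249 [(.s k149 k21 7 (.s k192 k234 6 (.s k64 k128 7 (.d k106
  k127 k63 6 14)))), (.s k87 k171 13 (.s k86 k84 0 (.s k90 k82 1 (.d k95 k83 k80 1 2))))] .n) (.c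
  k249 (.q k246 [(.s k149 k21 7 (.s k192 k234 6 (.s k64 k128 7 (.d k106 k127 k63 6 14)))), (.s k87
  k171 13 (.s k86 k84 0 (.s k90 k82 1 (.d k95 k83 k80 1 2))))] .n) .n))) (.c k246 (.q k249 [(.s k192
  k234 6 (.s k64 k128 7 (.s k106 k127 6 (.d k149 k21 k63 7 14)))), (.s k87 k171 13 (.s k86 k84 0 (.s
  k90 k82 1 (.s k95 k80 2 (.s k92 k93 0 (.d k83 k91 k89 1 2))))))] (.c k91 (.q k167 [(.s k192 k234 6
  (.s k64 k128 7 (.s k106 k127 6 (.d k149 k21 k63 7 14)))), (.s k87 k171 13 (.s k86 k84 0 (.s k149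
  k21 7 (.s k23 k212 8 (.s k63 k43 5 (.d k192 k234 k106 6 14)))))), (.s k192 k234 6 (.s k66 k129 8
  (.s k130 k194 7 (.s k65 k195 8 (.d k64 k67 k128 0 7)))))] (.c k106 (.l (.s k21 k149 7 (.s k42 k63
  6 (.s k192 k234 6 (.s k22 k62 5 (.s k20 k23 0 (.d k60 k40 k41 5 6))))))) (.c k192 (.l (.s k21 k149
  7 (.s k63 k42 6 (.s k23 k43 5 (.s k20 k22 0 (.s k87 k171 13 (.d k215 k151 k150 7 8))))))) (.c k234
  (.l (.s k21 k149 7 (.s k42 k63 6 (.s k22 k62 5 (.s k20 k23 0 (.d k60 k40 k41 5 6)))))) .n)))) (.c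
  k167 (.q k91 [(.s k149 k21 7 (.s k192 k234 6 (.s k64 k128 7 (.d k106 k127 k63 6 14)))), (.s k87
  k171 13 (.s k86 k84 0 (.s k90 k82 1 (.d k95 k83 k80 1 2))))] .n) .n))) (.c k249 (.q k246 [(.s k192
  k234 6 (.s k64 k128 7 (.s k106 k127 6 (.d k149 k21 k63 7 14)))), (.s k87 k171 13 (.s k86 k84 0 (.s
  k6 k166 11 (.s k12 k9 2 (.s k14 k10 1 (.d k174 k254 k93 11 12))))))] (.c k91 (.q k167 [(.s k149
  k21 7 (.s k192 k234 6 (.s k64 k128 7 (.d k106 k127 k63 6 14)))), (.s k87 k171 13 (.s k86 k84 0 (.s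
  k166 k6 11 (.d k247 k7 k4 11 12))))] .n) (.c k167 (.q k91 [(.s k149 k21 7 (.s k192 k234 6 (.s k64
  k128 7 (.d k106 k127 k63 6 14)))), (.s k87 k171 13 (.s k86 k84 0 (.s k90 k82 1 (.d k95 k83 k80 1
  2))))] .n) .n))) .n))))) (.c k192 (.l (.s k21 k149 7 (.s k63 k42 6 (.s k23 k43 5 (.s k20 k22 0 (.s
  k87 k171 13 (.d k215 k151 k150 7 8))))))) (.c k234 (.l (.s k21 k149 7 (.s k42 k63 6 (.s k22 k62 5
  (.s k20 k23 0 (.d k60 k40 k41 5 6)))))) (.c k246 (.q k249 [(.s k192 k234 6 (.s k64 k128 7 (.s k106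
  k127 6 (.d k149 k21 k63 7 14)))), (.s k87 k171 13 (.s k86 k84 0 (.s k149 k21 7 (.s k23 k212 8 (.s
  k63 k43 5 (.d k192 k234 k106 6 14)))))), (.s k192 k234 6 (.s k66 k129 8 (.s k130 k194 7 (.s k65
  k195 8 (.d k64 k67 k128 0 7)))))] (.c k91 (.q k167 [(.s k192 k234 6 (.s k64 k128 7 (.s k106 k127 6
  (.d k149 k21 k63 7 14)))), (.s k87 k171 13 (.s k86 k84 0 (.s k149 k21 7 (.s k23 k212 8 (.s k63 k43
  5 (.d k192 k234 k106 6 14)))))), (.s k192 k234 6 (.s k66 k129 8 (.s k130 k194 7 (.s k65 k195 8 (.d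
  k64 k67 k128 0 7)))))] (.c k94 (.q k173 [(.s k192 k234 6 (.s k64 k128 7 (.s k106 k127 6 (.d k149
  k21 k63 7 14)))), (.s k87 k171 13 (.s k86 k84 0 (.s k149 k21 7 (.s k23 k212 8 (.s k63 k43 5 (.d
  k192 k234 k106 6 14)))))), (.s k192 k234 6 (.s k66 k129 8 (.s k130 k194 7 (.s k65 k195 8 (.d k64
  k67 k128 0 7)))))] (.c k106 (.l (.s k21 k149 7 (.s k42 k63 6 (.s k192 k234 6 (.s k22 k62 5 (.s k20
  k23 0 (.d k60 k40 k41 5 6))))))) (.c k192 (.l (.s k21 k149 7 (.s k63 k42 6 (.s k23 k43 5 (.s k20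
  k22 0 (.s k87 k171 13 (.d k215 k151 k150 7 8))))))) (.c k234 (.l (.s k21 k149 7 (.s k42 k63 6 (.s
  k22 k62 5 (.s k20 k23 0 (.d k60 k40 k41 5 6)))))) .n)))) (.c k106 (.l (.s k21 k149 7 (.s k42 k63 6
  (.s k192 k234 6 (.s k22 k62 5 (.s k20 k23 0 (.d k60 k40 k41 5 6))))))) (.c k173 (.q k94 [(.s k192
  k234 6 (.s k64 k128 7 (.s k106 k127 6 (.d k149 k21 k63 7 14)))), (.s k87 k171 13 (.s k86 k84 0 (.s
  k149 k21 7 (.s k23 k212 8 (.s k63 k43 5 (.d k192 k234 k106 6 14)))))), (.s k192 k234 6 (.s k66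
  k129 8 (.s k130 k194 7 (.s k65 k195 8 (.d k64 k67 k128 0 7)))))] (.c k106 (.l (.s k21 k149 7 (.s
  k42 k63 6 (.s k192 k234 6 (.s k22 k62 5 (.s k20 k23 0 (.d k60 k40 k41 5 6))))))) (.c k192 (.l (.s
  k21 k149 7 (.s k63 k42 6 (.s k23 k43 5 (.s k20 k22 0 (.s k87 k171 13 (.d k215 k151 k150 7 8)))))))
  (.c k234 (.l (.s k21 k149 7 (.s k42 k63 6 (.s k22 k62 5 (.s k20 k23 0 (.d k60 k40 k41 5 6))))))
  .n)))) (.c k192 (.l (.s k21 k149 7 (.s k63 k42 6 (.s k23 k43 5 (.s k20 k22 0 (.s k87 k171 13 (.d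
  k215 k151 k150 7 8))))))) (.c k234 (.l (.s k21 k149 7 (.s k42 k63 6 (.s k22 k62 5 (.s k20 k23 0
  (.d k60 k40 k41 5 6)))))) .n)))))) (.c k94 (.q k173 [(.s k192 k234 6 (.s k64 k128 7 (.s k106 k127
  6 (.d k149 k21 k63 7 14)))), (.s k87 k171 13 (.s k86 k84 0 (.s k149 k21 7 (.s k23 k212 8 (.s k63
  k43 5 (.d k192 k234 k106 6 14)))))), (.s k192 k234 6 (.s k66 k129 8 (.s k130 k194 7 (.s k65 k195 8
  (.d k64 k67 k128 0 7)))))] (.c k91 (.q k167 [(.s k192 k234 6 (.s k64 k128 7 (.s k106 k127 6 (.d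
  k149 k21 k63 7 14)))), (.s k87 k171 13 (.s k86 k84 0 (.s k149 k21 7 (.s k23 k212 8 (.s k63 k43 5
  (.d k192 k234 k106 6 14)))))), (.s k192 k234 6 (.s k66 k129 8 (.s k130 k194 7 (.s k65 k195 8 (.d
  k64 k67 k128 0 7)))))] (.c k106 (.l (.s k21 k149 7 (.s k42 k63 6 (.s k192 k234 6 (.s k22 k62 5 (.s
  k20 k23 0 (.d k60 k40 k41 5 6))))))) (.c k192 (.l (.s k21 k149 7 (.s k63 k42 6 (.s k23 k43 5 (.s
  k20 k22 0 (.s k87 k171 13 (.d k215 k151 k150 7 8))))))) (.c k234 (.l (.s k21 k149 7 (.s k42 k63 6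
  (.s k22 k62 5 (.s k20 k23 0 (.d k60 k40 k41 5 6)))))) .n)))) (.c k106 (.l (.s k21 k149 7 (.s k42
  k63 6 (.s k192 k234 6 (.s k22 k62 5 (.s k20 k23 0 (.d k60 k40 k41 5 6))))))) (.c k167 (.q k91 [(.s
  k192 k234 6 (.s k64 k128 7 (.s k106 k127 6 (.d k149 k21 k63 7 14)))), (.s k87 k171 13 (.s k86 k84
  0 (.s k149 k21 7 (.s k23 k212 8 (.s k63 k43 5 (.d k192 k234 k106 6 14)))))), (.s k192 k234 6 (.s
  k66 k129 8 (.s k130 k194 7 (.s k65 k195 8 (.d k64 k67 k128 0 7)))))] (.c k106 (.l (.s k21 k149 7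
  (.s k42 k63 6 (.s k192 k234 6 (.s k22 k62 5 (.s k20 k23 0 (.d k60 k40 k41 5 6))))))) (.c k192 (.l
  (.s k21 k149 7 (.s k63 k42 6 (.s k23 k43 5 (.s k20 k22 0 (.s k87 k171 13 (.d k215 k151 k150 7
  8))))))) (.c k234 (.l (.s k21 k149 7 (.s k42 k63 6 (.s k22 k62 5 (.s k20 k23 0 (.d k60 k40 k41 5
  6)))))) .n)))) (.c k192 (.l (.s k21 k149 7 (.s k63 k42 6 (.s k23 k43 5 (.s k20 k22 0 (.s k87 k171
  13 (.d k215 k151 k150 7 8))))))) (.c k234 (.l (.s k21 k149 7 (.s k42 k63 6 (.s k22 k62 5 (.s k20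
  k23 0 (.d k60 k40 k41 5 6)))))) .n)))))) (.c k106 (.l (.s k21 k149 7 (.s k42 k63 6 (.s k192 k234 6
  (.s k22 k62 5 (.s k20 k23 0 (.d k60 k40 k41 5 6))))))) (.c k167 (.q k91 [(.s k192 k234 6 (.s k64
  k128 7 (.s k106 k127 6 (.d k149 k21 k63 7 14)))), (.s k87 k171 13 (.s k86 k84 0 (.s k149 k21 7 (.s
  k23 k212 8 (.s k63 k43 5 (.d k192 k234 k106 6 14)))))), (.s k192 k234 6 (.s k66 k129 8 (.s k130
  k194 7 (.s k65 k195 8 (.d k64 k67 k128 0 7)))))] (.c k94 (.q k173 [(.s k192 k234 6 (.s k64 k128 7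
  (.s k106 k127 6 (.d k149 k21 k63 7 14)))), (.s k87 k171 13 (.s k86 k84 0 (.s k149 k21 7 (.s k23
  k212 8 (.s k63 k43 5 (.d k192 k234 k106 6 14)))))), (.s k192 k234 6 (.s k66 k129 8 (.s k130 k194 7
  (.s k65 k195 8 (.d k64 k67 k128 0 7)))))] (.c k106 (.l (.s k21 k149 7 (.s k42 k63 6 (.s k192 k234
  6 (.s k22 k62 5 (.s k20 k23 0 (.d k60 k40 k41 5 6))))))) (.c k192 (.l (.s k21 k149 7 (.s k63 k42 6
  (.s k23 k43 5 (.s k20 k22 0 (.s k87 k171 13 (.d k215 k151 k150 7 8))))))) (.c k234 (.l (.s k21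
  k149 7 (.s k42 k63 6 (.s k22 k62 5 (.s k20 k23 0 (.d k60 k40 k41 5 6)))))) .n)))) (.c k106 (.l (.s
  k21 k149 7 (.s k42 k63 6 (.s k192 k234 6 (.s k22 k62 5 (.s k20 k23 0 (.d k60 k40 k41 5 6)))))))
  (.c k173 (.q k94 [(.s k149 k21 7 (.s k192 k234 6 (.s k64 k128 7 (.d k106 k127 k63 6 14)))), (.s
  k87 k171 13 (.s k86 k84 0 (.s k90 k82 1 (.d k95 k83 k80 1 2))))] .n) (.c k192 (.l (.s k21 k149 7
  (.s k63 k42 6 (.s k23 k43 5 (.s k20 k22 0 (.s k87 k171 13 (.d k215 k151 k150 7 8))))))) (.c k234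
  (.l (.s k21 k149 7 (.s k42 k63 6 (.s k22 k62 5 (.s k20 k23 0 (.d k60 k40 k41 5 6)))))) .n))))))
  (.c k173 (.q k94 [(.s k192 k234 6 (.s k64 k128 7 (.s k106 k127 6 (.d k149 k21 k63 7 14)))), (.s
  k87 k171 13 (.s k86 k84 0 (.s k90 k82 1 (.s k95 k80 2 (.s k92 k93 0 (.d k83 k91 k89 1 2))))))] (.c
  k91 (.q k167 [(.s k192 k234 6 (.s k64 k128 7 (.s k106 k127 6 (.d k149 k21 k63 7 14)))), (.s k87
  k171 13 (.s k86 k84 0 (.s k149 k21 7 (.s k23 k212 8 (.s k63 k43 5 (.d k192 k234 k106 6 14)))))),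
  (.s k192 k234 6 (.s k66 k129 8 (.s k130 k194 7 (.s k65 k195 8 (.d k64 k67 k128 0 7)))))] (.c k106
  (.l (.s k21 k149 7 (.s k42 k63 6 (.s k192 k234 6 (.s k22 k62 5 (.s k20 k23 0 (.d k60 k40 k41 5
  6))))))) (.c k192 (.l (.s k21 k149 7 (.s k63 k42 6 (.s k23 k43 5 (.s k20 k22 0 (.s k87 k171 13 (.d
  k215 k151 k150 7 8))))))) (.c k234 (.l (.s k21 k149 7 (.s k42 k63 6 (.s k22 k62 5 (.s k20 k23 0
  (.d k60 k40 k41 5 6)))))) .n)))) (.c k167 (.q k91 [(.s k149 k21 7 (.s k192 k234 6 (.s k64 k128 7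
  (.d k106 k127 k63 6 14)))), (.s k87 k171 13 (.s k86 k84 0 (.s k90 k82 1 (.d k95 k83 k80 1 2))))]
  .n) .n))) (.c k192 (.l (.s k21 k149 7 (.s k63 k42 6 (.s k23 k43 5 (.s k20 k22 0 (.s k87 k171 13
  (.d k215 k151 k150 7 8))))))) (.c k234 (.l (.s k21 k149 7 (.s k42 k63 6 (.s k22 k62 5 (.s k20 k23
  0 (.d k60 k40 k41 5 6)))))) .n)))))))) (.c k249 (.q k246 [(.s k192 k234 6 (.s k64 k128 7 (.s k106
  k127 6 (.d k149 k21 k63 7 14)))), (.s k87 k171 13 (.s k86 k84 0 (.s k149 k21 7 (.s k23 k212 8 (.s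
  k63 k43 5 (.d k192 k234 k106 6 14)))))), (.s k192 k234 6 (.s k66 k129 8 (.s k130 k194 7 (.s k65
  k195 8 (.d k64 k67 k128 0 7)))))] (.c k91 (.q k167 [(.s k149 k21 7 (.s k192 k234 6 (.s k64 k128 7
  (.d k106 k127 k63 6 14)))), (.s k87 k171 13 (.s k86 k84 0 (.s k166 k6 11 (.d k247 k7 k4 11 12))))]
  (.c k94 (.q k173 [(.s k149 k21 7 (.s k192 k234 6 (.s k64 k128 7 (.d k106 k127 k63 6 14)))), (.s
  k87 k171 13 (.s k86 k84 0 (.s k166 k6 11 (.d k247 k7 k4 11 12))))] .n) (.c k173 (.q k94 [(.s k149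
  k21 7 (.s k192 k234 6 (.s k64 k128 7 (.d k106 k127 k63 6 14)))), (.s k87 k171 13 (.s k86 k84 0 (.s
  k166 k6 11 (.d k247 k7 k4 11 12))))] .n) .n))) (.c k94 (.q k173 [(.s k192 k234 6 (.s k64 k128 7
  (.s k106 k127 6 (.d k149 k21 k63 7 14)))), (.s k87 k171 13 (.s k86 k84 0 (.s k149 k21 7 (.s k23
  k212 8 (.s k63 k43 5 (.d k192 k234 k106 6 14)))))), (.s k192 k234 6 (.s k66 k129 8 (.s k130 k194 7
  (.s k65 k195 8 (.d k64 k67 k128 0 7)))))] (.c k91 (.q k167 [(.s k149 k21 7 (.s k192 k234 6 (.s k64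
  k128 7 (.d k106 k127 k63 6 14)))), (.s k87 k171 13 (.s k86 k84 0 (.s k166 k6 11 (.d k247 k7 k4 11
  12))))] .n) (.c k106 (.l (.s k21 k149 7 (.s k42 k63 6 (.s k192 k234 6 (.s k22 k62 5 (.s k20 k23 0
  (.d k60 k40 k41 5 6))))))) (.c k167 (.q k91 [(.s k192 k234 6 (.s k64 k128 7 (.s k106 k127 6 (.d
  k149 k21 k63 7 14)))), (.s k87 k171 13 (.s k86 k84 0 (.s k149 k21 7 (.s k23 k212 8 (.s k63 k43 5
  (.d k192 k234 k106 6 14)))))), (.s k192 k234 6 (.s k66 k129 8 (.s k130 k194 7 (.s k65 k195 8 (.d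
  k64 k67 k128 0 7)))))] (.c k106 (.l (.s k21 k149 7 (.s k42 k63 6 (.s k192 k234 6 (.s k22 k62 5 (.s
  k20 k23 0 (.d k60 k40 k41 5 6))))))) (.c k192 (.l (.s k21 k149 7 (.s k63 k42 6 (.s k23 k43 5 (.s
  k20 k22 0 (.s k87 k171 13 (.d k215 k151 k150 7 8))))))) (.c k234 (.l (.s k21 k149 7 (.s k42 k63 6
  (.s k22 k62 5 (.s k20 k23 0 (.d k60 k40 k41 5 6)))))) .n)))) (.c k192 (.l (.s k21 k149 7 (.s k63
  k42 6 (.s k23 k43 5 (.s k20 k22 0 (.s k87 k171 13 (.d k215 k151 k150 7 8))))))) (.c k234 (.l (.s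
  k21 k149 7 (.s k42 k63 6 (.s k22 k62 5 (.s k20 k23 0 (.d k60 k40 k41 5 6)))))) .n)))))) (.c k106
  (.l (.s k21 k149 7 (.s k42 k63 6 (.s k192 k234 6 (.s k22 k62 5 (.s k20 k23 0 (.d k60 k40 k41 5
  6))))))) (.c k167 (.q k91 [(.s k192 k234 6 (.s k64 k128 7 (.s k106 k127 6 (.d k149 k21 k63 7
  14)))), (.s k87 k171 13 (.s k86 k84 0 (.s k149 k21 7 (.s k23 k212 8 (.s k63 k43 5 (.d k192 k234
  k106 6 14)))))), (.s k192 k234 6 (.s k66 k129 8 (.s k130 k194 7 (.s k65 k195 8 (.d k64 k67 k128 0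
  7)))))] (.c k94 (.q k173 [(.s k192 k234 6 (.s k64 k128 7 (.s k106 k127 6 (.d k149 k21 k63 7
  14)))), (.s k87 k171 13 (.s k86 k84 0 (.s k149 k21 7 (.s k23 k212 8 (.s k63 k43 5 (.d k192 k234
  k106 6 14)))))), (.s k192 k234 6 (.s k66 k129 8 (.s k130 k194 7 (.s k65 k195 8 (.d k64 k67 k128 0
  7)))))] (.c k106 (.l (.s k21 k149 7 (.s k42 k63 6 (.s k192 k234 6 (.s k22 k62 5 (.s k20 k23 0 (.d
  k60 k40 k41 5 6))))))) (.c k192 (.l (.s k21 k149 7 (.s k63 k42 6 (.s k23 k43 5 (.s k20 k22 0 (.s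
  k87 k171 13 (.d k215 k151 k150 7 8))))))) (.c k234 (.l (.s k21 k149 7 (.s k42 k63 6 (.s k22 k62 5
  (.s k20 k23 0 (.d k60 k40 k41 5 6)))))) .n)))) (.c k106 (.l (.s k21 k149 7 (.s k42 k63 6 (.s k192
  k234 6 (.s k22 k62 5 (.s k20 k23 0 (.d k60 k40 k41 5 6))))))) (.c k173 (.q k94 [(.s k149 k21 7 (.s
  k192 k234 6 (.s k64 k128 7 (.d k106 k127 k63 6 14)))), (.s k87 k171 13 (.s k86 k84 0 (.s k90 k82 1
  (.d k95 k83 k80 1 2))))] .n) (.c k192 (.l (.s k21 k149 7 (.s k63 k42 6 (.s k23 k43 5 (.s k20 k22 0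
  (.s k87 k171 13 (.d k215 k151 k150 7 8))))))) (.c k234 (.l (.s k21 k149 7 (.s k42 k63 6 (.s k22
  k62 5 (.s k20 k23 0 (.d k60 k40 k41 5 6)))))) .n)))))) (.c k173 (.q k94 [(.s k192 k234 6 (.s k64
  k128 7 (.s k106 k127 6 (.d k149 k21 k63 7 14)))), (.s k87 k171 13 (.s k86 k84 0 (.s k6 k166 11 (.s
  k12 k9 2 (.s k14 k10 1 (.d k174 k254 k93 11 12))))))] (.c k91 (.q k167 [(.s k149 k21 7 (.s k192
  k234 6 (.s k64 k128 7 (.d k106 k127 k63 6 14)))), (.s k87 k171 13 (.s k86 k84 0 (.s k166 k6 11 (.d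
  k247 k7 k4 11 12))))] .n) (.c k167 (.q k91 [(.s k149 k21 7 (.s k192 k234 6 (.s k64 k128 7 (.d k106
  k127 k63 6 14)))), (.s k87 k171 13 (.s k86 k84 0 (.s k90 k82 1 (.d k95 k83 k80 1 2))))] .n) .n)))
  (.c k192 (.l (.s k21 k149 7 (.s k63 k42 6 (.s k23 k43 5 (.s k20 k22 0 (.s k87 k171 13 (.d k215
  k151 k150 7 8))))))) (.c k234 (.l (.s k21 k149 7 (.s k42 k63 6 (.s k22 k62 5 (.s k20 k23 0 (.d k60
  k40 k41 5 6)))))) .n)))))))) .n))))))))))))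

def s15_243_253 : T TT 256 :=
  (.l (.s k2 k1 0 (.s k170 k255 14 (.s k86 k254 13 (.s k252 k169 14 (.d k84 k87 k168 0 13))))))

def s15_243_254 : T TT 256 :=
  (.l (.s k1 k2 0 (.s k169 k253 13 (.s k86 k252 14 (.s k255 k170 14 (.d k87 k84 k171 0 13))))))

def s15_243_255 : T TT 256 :=
  (.q k105 [(.s k1 k2 0 (.s k125 k65 5 (.s k253 k169 13 (.s k61 k189 7 (.s k21 k41 5 (.d k149 k213
  k193 7 13)))))), (.s k65 k125 5 (.s k195 k130 8 (.s k67 k131 7 (.s k86 k124 6 (.s k84 k87 0 (.d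
  k252 k168 k169 13 14)))))), (.s k1 k2 0 (.s k169 k253 13 (.s k41 k233 7 (.s k60 k22 6 (.s k20 k40
  5 (.d k150 k215 k195 8 14))))))] (.c k91 (.q k167 [(.s k1 k2 0 (.s k125 k65 5 (.s k253 k169 13 (.s
  k61 k189 7 (.s k21 k41 5 (.d k149 k213 k193 7 13)))))), (.s k65 k125 5 (.s k195 k130 8 (.s k67
  k131 7 (.s k86 k124 6 (.s k84 k87 0 (.d k252 k168 k169 13 14)))))), (.s k1 k2 0 (.s k169 k253 13
  (.s k41 k233 7 (.s k60 k22 6 (.s k20 k40 5 (.d k150 k215 k195 8 14))))))] (.c k95 (.q k175 [(.s k1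
  k2 0 (.s k169 k253 13 (.s k171 k163 1 (.s k168 k170 0 (.d k252 k86 k84 14 13))))), (.s k1 k2 0 (.s
  k65 k125 5 (.s k129 k193 7 (.s k66 k192 8 (.s k67 k64 0 (.d k195 k131 k130 7 8)))))), (.s k65 k125
  5 (.s k195 k130 8 (.s k67 k131 7 (.s k86 k124 6 (.s k252 k169 14 (.d k84 k87 k168 0 13))))))] (.c
  k83 (.q k87 [(.s k1 k2 0 (.s k86 k84 0 (.d k169 k253 k252 13 14))), (.s k65 k125 5 (.s k86 k84 0
  (.s k67 k124 6 (.d k195 k131 k130 7 8)))), (.s k1 k2 0 (.s k163 k171 1 (.s k169 k253 13 (.s k166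
  k172 2 (.d k247 k7 k4 11 12)))))] (.c k247 (.q k251 [(.s k1 k2 0 (.s k86 k84 0 (.d k169 k253 k252
  13 14))), (.s k65 k125 5 (.s k195 k130 8 (.s k67 k131 7 (.s k64 k66 0 (.d k127 k107 k106 5 6)))))]
  (.c k2 (.l (.s k65 k125 5 (.s k86 k84 0 (.s k67 k124 6 (.d k195 k131 k130 7 8))))) .n)) (.c k251
  (.l (.s k247 k7 11 (.s k1 k2 0 (.s k86 k84 0 (.d k169 k253 k252 13 14))))) .n))) (.c k87 (.q k83
  [(.s k1 k2 0 (.s k169 k253 13 (.s k171 k163 1 (.s k168 k170 0 (.d k252 k86 k84 14 13))))), (.s k65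
  k125 5 (.s k163 k171 1 (.s k195 k130 8 (.s k67 k131 7 (.s k99 k115 3 (.s k35 k227 7 (.d k51 k19
  k147 3 11))))))), (.s k1 k2 0 (.s k65 k125 5 (.s k129 k193 7 (.s k66 k192 8 (.s k67 k64 0 (.d k195
  k131 k130 7 8))))))] (.c k247 (.q k251 [(.s k1 k2 0 (.s k169 k253 13 (.s k171 k163 1 (.s k168 k170
  0 (.d k252 k86 k84 14 13))))), (.s k65 k125 5 (.s k163 k171 1 (.s k195 k130 8 (.s k67 k131 7 (.s
  k99 k115 3 (.s k35 k227 7 (.d k51 k19 k147 3 11))))))), (.s k1 k2 0 (.s k65 k125 5 (.s k129 k193 7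
  (.s k66 k192 8 (.s k67 k64 0 (.d k195 k131 k130 7 8))))))] .n) (.c k251 (.q k247 [(.s k1 k2 0 (.s
  k166 k4 12 (.s k169 k253 13 (.d k163 k171 k172 1 2)))), (.s k1 k2 0 (.s k65 k125 5 (.s k129 k193 7
  (.s k66 k192 8 (.s k67 k64 0 (.d k195 k131 k130 7 8)))))), (.s k166 k4 12 (.s k165 k164 0 (.s k160
  k170 2 (.s k240 k80 11 (.s k161 k82 12 (.d k163 k171 k162 1 0))))))] (.c k11 (.l (.s k171 k163 1
  (.s k1 k2 0 (.s k169 k253 13 (.s k168 k170 0 (.d k252 k86 k84 14 13)))))) (.c k171 (.q k11 [(.s k1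
  k2 0 (.s k125 k65 5 (.s k253 k169 13 (.s k61 k189 7 (.s k21 k41 5 (.d k149 k213 k193 7 13)))))),
  (.s k166 k4 12 (.s k165 k164 0 (.s k225 k45 9 (.s k227 k44 10 (.s k47 k107 9 (.d k224 k226 k106 0
  10))))))] .n) .n))) .n))) (.c k247 (.q k251 [(.s k1 k2 0 (.s k169 k253 13 (.s k171 k163 1 (.s k168
  k170 0 (.d k252 k86 k84 14 13))))), (.s k1 k2 0 (.s k65 k125 5 (.s k129 k193 7 (.s k66 k192 8 (.s
  k67 k64 0 (.d k195 k131 k130 7 8)))))), (.s k65 k125 5 (.s k195 k130 8 (.s k67 k131 7 (.s k86 k124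
  6 (.s k252 k169 14 (.d k84 k87 k168 0 13))))))] (.c k83 (.q k87 [(.s k1 k2 0 (.s k86 k84 0 (.d
  k169 k253 k252 13 14))), (.s k65 k125 5 (.s k195 k130 8 (.s k67 k131 7 (.s k64 k66 0 (.d k127 k107
  k106 5 6)))))] (.c k2 (.l (.s k65 k125 5 (.s k86 k84 0 (.s k67 k124 6 (.d k195 k131 k130 7 8)))))
  .n)) (.c k87 (.q k83 [(.s k1 k2 0 (.s k169 k253 13 (.s k171 k163 1 (.s k168 k170 0 (.d k252 k86
  k84 14 13))))), (.s k65 k125 5 (.s k163 k171 1 (.s k195 k130 8 (.s k67 k131 7 (.s k99 k115 3 (.s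
  k35 k227 7 (.d k51 k19 k147 3 11))))))), (.s k1 k2 0 (.s k65 k125 5 (.s k129 k193 7 (.s k66 k192 8
  (.s k67 k64 0 (.d k195 k131 k130 7 8))))))] .n) .n))) (.c k251 (.q k247 [(.s k1 k2 0 (.s k87 k7 11
  (.s k86 k84 0 (.d k169 k253 k252 13 14)))), (.s k4 k166 12 (.s k12 k8 1 (.s k6 k9 2 (.d k7 k87 k5
  11 0))))] (.c k7 (.l (.s k1 k2 0 (.s k166 k4 12 (.s k169 k253 13 (.d k163 k171 k172 1 2))))) (.c
  k11 (.l (.s k171 k163 1 (.s k1 k2 0 (.s k87 k7 11 (.s k86 k84 0 (.d k169 k253 k252 13 14)))))) (.c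
  k83 (.l (.s k87 k7 11 (.s k1 k2 0 (.s k86 k84 0 (.d k169 k253 k252 13 14))))) (.c k87 (.q k83 [(.s
  k1 k2 0 (.s k166 k4 12 (.s k169 k253 13 (.d k163 k171 k172 1 2)))), (.s k1 k2 0 (.s k65 k125 5 (.s
  k129 k193 7 (.s k66 k192 8 (.s k67 k64 0 (.d k195 k131 k130 7 8)))))), (.s k166 k4 12 (.s k165
  k164 0 (.s k160 k170 2 (.s k240 k80 11 (.s k161 k82 12 (.d k163 k171 k162 1 0))))))] (.c k11 (.l
  (.s k171 k163 1 (.s k1 k2 0 (.s k169 k253 13 (.s k168 k170 0 (.d k252 k86 k84 14 13)))))) (.c k171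
  (.q k11 [(.s k1 k2 0 (.s k125 k65 5 (.s k253 k169 13 (.s k61 k189 7 (.s k21 k41 5 (.d k149 k213
  k193 7 13)))))), (.s k166 k4 12 (.s k165 k164 0 (.s k225 k45 9 (.s k227 k44 10 (.s k47 k107 9 (.d
  k224 k226 k106 0 10))))))] .n) .n))) (.c k171 (.q k11 [(.s k1 k2 0 (.s k87 k7 11 (.s k86 k84 0 (.d
  k169 k253 k252 13 14)))), (.s k4 k166 12 (.s k12 k8 1 (.s k6 k9 2 (.d k7 k87 k5 11 0))))] (.c k7
  (.l (.s k1 k2 0 (.s k65 k125 5 (.s k129 k193 7 (.s k66 k192 8 (.s k67 k64 0 (.d k195 k131 k130 7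
  8))))))) (.c k83 (.l (.s k87 k7 11 (.s k1 k2 0 (.s k86 k84 0 (.d k169 k253 k252 13 14))))) (.c k87
  (.q k83 [(.s k1 k2 0 (.s k125 k65 5 (.s k253 k169 13 (.s k61 k189 7 (.s k21 k41 5 (.d k149 k213
  k193 7 13)))))), (.s k166 k4 12 (.s k165 k164 0 (.s k225 k45 9 (.s k227 k44 10 (.s k47 k107 9 (.d
  k224 k226 k106 0 10))))))] .n) .n)))) .n)))))) .n))))) (.c k169 (.l (.s k1 k2 0 (.s k65 k125 5 (.s
  k129 k193 7 (.s k66 k192 8 (.s k67 k64 0 (.d k195 k131 k130 7 8))))))) (.c k175 (.q k95 [(.s k1 k2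
  0 (.s k125 k65 5 (.s k253 k169 13 (.s k61 k189 7 (.s k21 k41 5 (.d k149 k213 k193 7 13)))))), (.s
  k65 k125 5 (.s k195 k130 8 (.s k67 k131 7 (.s k86 k124 6 (.s k84 k87 0 (.d k252 k168 k169 13
  14)))))), (.s k1 k2 0 (.s k169 k253 13 (.s k41 k233 7 (.s k60 k22 6 (.s k20 k40 5 (.d k150 k215
  k195 8 14))))))] (.c k169 (.l (.s k1 k2 0 (.s k65 k125 5 (.s k129 k193 7 (.s k66 k192 8 (.s k67
  k64 0 (.d k195 k131 k130 7 8))))))) (.c k247 (.q k251 [(.s k1 k2 0 (.s k125 k65 5 (.s k253 k169 13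
  (.s k61 k189 7 (.s k21 k41 5 (.d k149 k213 k193 7 13)))))), (.s k65 k125 5 (.s k195 k130 8 (.s k67
  k131 7 (.s k86 k124 6 (.s k84 k87 0 (.d k252 k168 k169 13 14)))))), (.s k1 k2 0 (.s k169 k253 13
  (.s k41 k233 7 (.s k60 k22 6 (.s k20 k40 5 (.d k150 k215 k195 8 14))))))] (.c k169 (.l (.s k1 k2 0
  (.s k65 k125 5 (.s k129 k193 7 (.s k66 k192 8 (.s k67 k64 0 (.d k195 k131 k130 7 8))))))) .n)) (.c
  k251 (.q k247 [(.s k1 k2 0 (.s k87 k7 11 (.s k86 k84 0 (.d k169 k253 k252 13 14)))), (.s k4 k166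
  12 (.s k7 k87 11 (.s k6 k5 0 (.d k12 k8 k9 1 2)))), (.s k1 k2 0 (.s k65 k125 5 (.s k129 k193 7 (.s
  k66 k192 8 (.s k67 k64 0 (.d k195 k131 k130 7 8))))))] (.c k11 (.q k171 [(.s k1 k2 0 (.s k87 k7 11
  (.s k86 k84 0 (.d k169 k253 k252 13 14)))), (.s k4 k166 12 (.s k7 k87 11 (.s k6 k5 0 (.d k12 k8 k9
  1 2)))), (.s k1 k2 0 (.s k169 k253 13 (.s k168 k170 0 (.d k252 k86 k84 14 13))))] .n) (.c k171 (.q
  k11 [(.s k1 k2 0 (.s k90 k80 2 (.d k169 k248 k253 12 13))), (.s k4 k166 12 (.s k7 k87 11 (.s k6 k5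
  0 (.d k12 k8 k9 1 2))))] .n) .n))) .n)))) (.c k247 (.q k251 [(.s k1 k2 0 (.s k125 k65 5 (.s k253
  k169 13 (.s k61 k189 7 (.s k21 k41 5 (.d k149 k213 k193 7 13)))))), (.s k65 k125 5 (.s k195 k130 8
  (.s k67 k131 7 (.s k86 k124 6 (.s k84 k87 0 (.d k252 k168 k169 13 14)))))), (.s k1 k2 0 (.s k169
  k253 13 (.s k41 k233 7 (.s k60 k22 6 (.s k20 k40 5 (.d k150 k215 k195 8 14))))))] (.c k95 (.q k175
  [(.s k1 k2 0 (.s k169 k253 13 (.s k171 k163 1 (.s k168 k170 0 (.d k252 k86 k84 14 13))))), (.s k1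
  k2 0 (.s k65 k125 5 (.s k129 k193 7 (.s k66 k192 8 (.s k67 k64 0 (.d k195 k131 k130 7 8)))))), (.s
  k65 k125 5 (.s k195 k130 8 (.s k67 k131 7 (.s k86 k124 6 (.s k252 k169 14 (.d k84 k87 k168 0
  13))))))] (.c k83 (.q k87 [(.s k1 k2 0 (.s k86 k84 0 (.d k169 k253 k252 13 14))), (.s k65 k125 5
  (.s k195 k130 8 (.s k67 k131 7 (.s k64 k66 0 (.d k127 k107 k106 5 6)))))] (.c k2 (.l (.s k65 k125
  5 (.s k86 k84 0 (.s k67 k124 6 (.d k195 k131 k130 7 8))))) .n)) (.c k87 (.q k83 [(.s k1 k2 0 (.s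
  k169 k253 13 (.s k171 k163 1 (.s k168 k170 0 (.d k252 k86 k84 14 13))))), (.s k65 k125 5 (.s k163
  k171 1 (.s k195 k130 8 (.s k67 k131 7 (.s k99 k115 3 (.s k35 k227 7 (.d k51 k19 k147 3 11))))))),
  (.s k1 k2 0 (.s k65 k125 5 (.s k129 k193 7 (.s k66 k192 8 (.s k67 k64 0 (.d k195 k131 k130 7
  8))))))] .n) .n))) (.c k169 (.l (.s k1 k2 0 (.s k65 k125 5 (.s k129 k193 7 (.s k66 k192 8 (.s k67
  k64 0 (.d k195 k131 k130 7 8))))))) (.c k175 (.q k95 [(.s k1 k2 0 (.s k125 k65 5 (.s k253 k169 13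
  (.s k61 k189 7 (.s k21 k41 5 (.d k149 k213 k193 7 13)))))), (.s k65 k125 5 (.s k195 k130 8 (.s k67
  k131 7 (.s k86 k124 6 (.s k84 k87 0 (.d k252 k168 k169 13 14)))))), (.s k1 k2 0 (.s k169 k253 13
  (.s k41 k233 7 (.s k60 k22 6 (.s k20 k40 5 (.d k150 k215 k195 8 14))))))] (.c k169 (.l (.s k1 k2 0
  (.s k65 k125 5 (.s k129 k193 7 (.s k66 k192 8 (.s k67 k64 0 (.d k195 k131 k130 7 8))))))) .n))
  .n)))) (.c k251 (.q k247 [(.s k1 k2 0 (.s k87 k7 11 (.s k86 k84 0 (.d k169 k253 k252 13 14)))),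
  (.s k4 k166 12 (.s k7 k87 11 (.s k6 k5 0 (.d k12 k8 k9 1 2)))), (.s k1 k2 0 (.s k65 k125 5 (.s
  k129 k193 7 (.s k66 k192 8 (.s k67 k64 0 (.d k195 k131 k130 7 8))))))] (.c k11 (.q k171 [(.s k1 k2
  0 (.s k87 k7 11 (.s k86 k84 0 (.d k169 k253 k252 13 14)))), (.s k4 k166 12 (.s k7 k87 11 (.s k6 k5
  0 (.d k12 k8 k9 1 2)))), (.s k1 k2 0 (.s k166 k4 12 (.s k169 k253 13 (.d k163 k175 k172 1 2))))]
  (.c k95 (.l (.s k175 k163 1 (.s k1 k2 0 (.s k87 k7 11 (.s k86 k84 0 (.d k169 k253 k252 13 14))))))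
  (.c k175 (.q k95 [(.s k1 k2 0 (.s k87 k7 11 (.s k86 k84 0 (.d k169 k253 k252 13 14)))), (.s k4
  k166 12 (.s k7 k87 11 (.s k6 k5 0 (.d k12 k8 k9 1 2)))), (.s k1 k2 0 (.s k169 k253 13 (.s k168
  k170 0 (.d k252 k86 k84 14 13))))] .n) .n))) (.c k95 (.q k175 [(.s k1 k2 0 (.s k87 k7 11 (.s k86
  k84 0 (.d k169 k253 k252 13 14)))), (.s k4 k166 12 (.s k12 k8 1 (.s k6 k9 2 (.d k7 k87 k5 11
  0))))] (.c k7 (.l (.s k1 k2 0 (.s k166 k4 12 (.s k169 k253 13 (.d k163 k171 k172 1 2))))) (.c k11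
  (.l (.s k171 k163 1 (.s k1 k2 0 (.s k87 k7 11 (.s k86 k84 0 (.d k169 k253 k252 13 14)))))) (.c k83
  (.l (.s k87 k7 11 (.s k1 k2 0 (.s k86 k84 0 (.d k169 k253 k252 13 14))))) (.c k87 (.q k83 [(.s k1
  k2 0 (.s k166 k4 12 (.s k169 k253 13 (.d k163 k171 k172 1 2)))), (.s k1 k2 0 (.s k65 k125 5 (.s
  k129 k193 7 (.s k66 k192 8 (.s k67 k64 0 (.d k195 k131 k130 7 8)))))), (.s k166 k4 12 (.s k165
  k164 0 (.s k160 k170 2 (.s k240 k80 11 (.s k161 k82 12 (.d k163 k171 k162 1 0))))))] (.c k11 (.l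
  (.s k171 k163 1 (.s k1 k2 0 (.s k169 k253 13 (.s k168 k170 0 (.d k252 k86 k84 14 13)))))) (.c k171
  (.q k11 [(.s k1 k2 0 (.s k125 k65 5 (.s k253 k169 13 (.s k61 k189 7 (.s k21 k41 5 (.d k149 k213
  k193 7 13)))))), (.s k166 k4 12 (.s k165 k164 0 (.s k225 k45 9 (.s k227 k44 10 (.s k47 k107 9 (.d
  k224 k226 k106 0 10))))))] .n) .n))) (.c k171 (.q k11 [(.s k1 k2 0 (.s k87 k7 11 (.s k86 k84 0 (.d
  k169 k253 k252 13 14)))), (.s k4 k166 12 (.s k12 k8 1 (.s k6 k9 2 (.d k7 k87 k5 11 0))))] (.c k7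
  (.l (.s k1 k2 0 (.s k65 k125 5 (.s k129 k193 7 (.s k66 k192 8 (.s k67 k64 0 (.d k195 k131 k130 7
  8))))))) (.c k83 (.l (.s k87 k7 11 (.s k1 k2 0 (.s k86 k84 0 (.d k169 k253 k252 13 14))))) (.c k87
  (.q k83 [(.s k1 k2 0 (.s k125 k65 5 (.s k253 k169 13 (.s k61 k189 7 (.s k21 k41 5 (.d k149 k213
  k193 7 13)))))), (.s k166 k4 12 (.s k165 k164 0 (.s k225 k45 9 (.s k227 k44 10 (.s k47 k107 9 (.d
  k224 k226 k106 0 10))))))] .n) .n)))) .n)))))) (.c k171 (.q k11 [(.s k1 k2 0 (.s k87 k7 11 (.s k86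
  k84 0 (.d k169 k253 k252 13 14)))), (.s k4 k166 12 (.s k7 k87 11 (.s k6 k5 0 (.d k12 k8 k9 1
  2)))), (.s k1 k2 0 (.s k65 k125 5 (.s k129 k193 7 (.s k66 k192 8 (.s k67 k64 0 (.d k195 k131 k130
  7 8))))))] (.c k95 (.q k175 [(.s k1 k2 0 (.s k87 k7 11 (.s k86 k84 0 (.d k169 k253 k252 13 14)))),
  (.s k4 k166 12 (.s k12 k8 1 (.s k6 k9 2 (.d k7 k87 k5 11 0))))] (.c k7 (.l (.s k1 k2 0 (.s k65
  k125 5 (.s k129 k193 7 (.s k66 k192 8 (.s k67 k64 0 (.d k195 k131 k130 7 8))))))) (.c k83 (.l (.s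
  k87 k7 11 (.s k1 k2 0 (.s k86 k84 0 (.d k169 k253 k252 13 14))))) (.c k87 (.q k83 [(.s k1 k2 0 (.s
  k125 k65 5 (.s k253 k169 13 (.s k61 k189 7 (.s k21 k41 5 (.d k149 k213 k193 7 13)))))), (.s k166
  k4 12 (.s k165 k164 0 (.s k225 k45 9 (.s k227 k44 10 (.s k47 k107 9 (.d k224 k226 k106 0 10))))))]
  .n) .n)))) (.c k175 (.q k95 [(.s k1 k2 0 (.s k90 k80 2 (.d k169 k248 k253 12 13))), (.s k4 k166 12
  (.s k7 k87 11 (.s k6 k5 0 (.d k12 k8 k9 1 2))))] .n) .n))) (.c k175 (.q k95 [(.s k1 k2 0 (.s k87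
  k7 11 (.s k86 k84 0 (.d k169 k253 k252 13 14)))), (.s k4 k166 12 (.s k7 k87 11 (.s k6 k5 0 (.d k12
  k8 k9 1 2)))), (.s k1 k2 0 (.s k65 k125 5 (.s k129 k193 7 (.s k66 k192 8 (.s k67 k64 0 (.d k195
  k131 k130 7 8))))))] (.c k11 (.q k171 [(.s k1 k2 0 (.s k87 k7 11 (.s k86 k84 0 (.d k169 k253 k252
  13 14)))), (.s k4 k166 12 (.s k7 k87 11 (.s k6 k5 0 (.d k12 k8 k9 1 2)))), (.s k1 k2 0 (.s k169
  k253 13 (.s k168 k170 0 (.d k252 k86 k84 14 13))))] .n) (.c k171 (.q k11 [(.s k1 k2 0 (.s k90 k80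
  2 (.d k169 k248 k253 12 13))), (.s k4 k166 12 (.s k7 k87 11 (.s k6 k5 0 (.d k12 k8 k9 1 2))))] .n)
  .n))) .n))))) .n)))))) (.c k95 (.q k175 [(.s k1 k2 0 (.s k125 k65 5 (.s k253 k169 13 (.s k61 k189
  7 (.s k21 k41 5 (.d k149 k213 k193 7 13)))))), (.s k65 k125 5 (.s k195 k130 8 (.s k67 k131 7 (.s
  k86 k124 6 (.s k84 k87 0 (.d k252 k168 k169 13 14)))))), (.s k1 k2 0 (.s k169 k253 13 (.s k41 k233
  7 (.s k60 k22 6 (.s k20 k40 5 (.d k150 k215 k195 8 14))))))] (.c k91 (.q k167 [(.s k1 k2 0 (.s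
  k169 k253 13 (.s k171 k163 1 (.s k168 k170 0 (.d k252 k86 k84 14 13))))), (.s k1 k2 0 (.s k65 k125
  5 (.s k129 k193 7 (.s k66 k192 8 (.s k67 k64 0 (.d k195 k131 k130 7 8)))))), (.s k65 k125 5 (.s
  k195 k130 8 (.s k67 k131 7 (.s k86 k124 6 (.s k252 k169 14 (.d k84 k87 k168 0 13))))))] (.c k83
  (.q k87 [(.s k1 k2 0 (.s k86 k84 0 (.d k169 k253 k252 13 14))), (.s k65 k125 5 (.s k86 k84 0 (.s
  k67 k124 6 (.d k195 k131 k130 7 8)))), (.s k1 k2 0 (.s k163 k171 1 (.s k169 k253 13 (.s k166 k172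
  2 (.d k247 k7 k4 11 12)))))] (.c k247 (.q k251 [(.s k1 k2 0 (.s k86 k84 0 (.d k169 k253 k252 13
  14))), (.s k65 k125 5 (.s k195 k130 8 (.s k67 k131 7 (.s k64 k66 0 (.d k127 k107 k106 5 6)))))]
  (.c k2 (.l (.s k65 k125 5 (.s k86 k84 0 (.s k67 k124 6 (.d k195 k131 k130 7 8))))) .n)) (.c k251
  (.l (.s k247 k7 11 (.s k1 k2 0 (.s k86 k84 0 (.d k169 k253 k252 13 14))))) .n))) (.c k87 (.q k83
  [(.s k1 k2 0 (.s k169 k253 13 (.s k171 k163 1 (.s k168 k170 0 (.d k252 k86 k84 14 13))))), (.s k65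
  k125 5 (.s k163 k171 1 (.s k195 k130 8 (.s k67 k131 7 (.s k99 k115 3 (.s k35 k227 7 (.d k51 k19
  k147 3 11))))))), (.s k1 k2 0 (.s k65 k125 5 (.s k129 k193 7 (.s k66 k192 8 (.s k67 k64 0 (.d k195
  k131 k130 7 8))))))] (.c k247 (.q k251 [(.s k1 k2 0 (.s k169 k253 13 (.s k171 k163 1 (.s k168 k170
  0 (.d k252 k86 k84 14 13))))), (.s k65 k125 5 (.s k163 k171 1 (.s k195 k130 8 (.s k67 k131 7 (.s
  k99 k115 3 (.s k35 k227 7 (.d k51 k19 k147 3 11))))))), (.s k1 k2 0 (.s k65 k125 5 (.s k129 k193 7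
  (.s k66 k192 8 (.s k67 k64 0 (.d k195 k131 k130 7 8))))))] .n) (.c k251 (.q k247 [(.s k1 k2 0 (.s
  k166 k4 12 (.s k169 k253 13 (.d k163 k171 k172 1 2)))), (.s k1 k2 0 (.s k65 k125 5 (.s k129 k193 7
  (.s k66 k192 8 (.s k67 k64 0 (.d k195 k131 k130 7 8)))))), (.s k166 k4 12 (.s k165 k164 0 (.s k160
  k170 2 (.s k240 k80 11 (.s k161 k82 12 (.d k163 k171 k162 1 0))))))] (.c k11 (.l (.s k171 k163 1
  (.s k1 k2 0 (.s k169 k253 13 (.s k168 k170 0 (.d k252 k86 k84 14 13)))))) (.c k171 (.q k11 [(.s k1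
  k2 0 (.s k125 k65 5 (.s k253 k169 13 (.s k61 k189 7 (.s k21 k41 5 (.d k149 k213 k193 7 13)))))),
  (.s k166 k4 12 (.s k165 k164 0 (.s k225 k45 9 (.s k227 k44 10 (.s k47 k107 9 (.d k224 k226 k106 0
  10))))))] .n) .n))) .n))) (.c k247 (.q k251 [(.s k1 k2 0 (.s k169 k253 13 (.s k171 k163 1 (.s k168
  k170 0 (.d k252 k86 k84 14 13))))), (.s k1 k2 0 (.s k65 k125 5 (.s k129 k193 7 (.s k66 k192 8 (.s
  k67 k64 0 (.d k195 k131 k130 7 8)))))), (.s k65 k125 5 (.s k195 k130 8 (.s k67 k131 7 (.s k86 k124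
  6 (.s k252 k169 14 (.d k84 k87 k168 0 13))))))] (.c k83 (.q k87 [(.s k1 k2 0 (.s k86 k84 0 (.d
  k169 k253 k252 13 14))), (.s k65 k125 5 (.s k195 k130 8 (.s k67 k131 7 (.s k64 k66 0 (.d k127 k107
  k106 5 6)))))] (.c k2 (.l (.s k65 k125 5 (.s k86 k84 0 (.s k67 k124 6 (.d k195 k131 k130 7 8)))))
  .n)) (.c k87 (.q k83 [(.s k1 k2 0 (.s k169 k253 13 (.s k171 k163 1 (.s k168 k170 0 (.d k252 k86
  k84 14 13))))), (.s k65 k125 5 (.s k163 k171 1 (.s k195 k130 8 (.s k67 k131 7 (.s k99 k115 3 (.s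
  k35 k227 7 (.d k51 k19 k147 3 11))))))), (.s k1 k2 0 (.s k65 k125 5 (.s k129 k193 7 (.s k66 k192 8
  (.s k67 k64 0 (.d k195 k131 k130 7 8))))))] .n) .n))) (.c k251 (.q k247 [(.s k1 k2 0 (.s k87 k7 11
  (.s k86 k84 0 (.d k169 k253 k252 13 14)))), (.s k4 k166 12 (.s k12 k8 1 (.s k6 k9 2 (.d k7 k87 k5
  11 0))))] (.c k7 (.l (.s k1 k2 0 (.s k166 k4 12 (.s k169 k253 13 (.d k163 k171 k172 1 2))))) (.c
  k11 (.l (.s k171 k163 1 (.s k1 k2 0 (.s k87 k7 11 (.s k86 k84 0 (.d k169 k253 k252 13 14)))))) (.c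
  k83 (.l (.s k87 k7 11 (.s k1 k2 0 (.s k86 k84 0 (.d k169 k253 k252 13 14))))) (.c k87 (.q k83 [(.s
  k1 k2 0 (.s k166 k4 12 (.s k169 k253 13 (.d k163 k171 k172 1 2)))), (.s k1 k2 0 (.s k65 k125 5 (.s
  k129 k193 7 (.s k66 k192 8 (.s k67 k64 0 (.d k195 k131 k130 7 8)))))), (.s k166 k4 12 (.s k165
  k164 0 (.s k160 k170 2 (.s k240 k80 11 (.s k161 k82 12 (.d k163 k171 k162 1 0))))))] (.c k11 (.l
  (.s k171 k163 1 (.s k1 k2 0 (.s k169 k253 13 (.s k168 k170 0 (.d k252 k86 k84 14 13)))))) (.c k171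
  (.q k11 [(.s k1 k2 0 (.s k125 k65 5 (.s k253 k169 13 (.s k61 k189 7 (.s k21 k41 5 (.d k149 k213
  k193 7 13)))))), (.s k166 k4 12 (.s k165 k164 0 (.s k225 k45 9 (.s k227 k44 10 (.s k47 k107 9 (.d
  k224 k226 k106 0 10))))))] .n) .n))) (.c k171 (.q k11 [(.s k1 k2 0 (.s k87 k7 11 (.s k86 k84 0 (.d
  k169 k253 k252 13 14)))), (.s k4 k166 12 (.s k12 k8 1 (.s k6 k9 2 (.d k7 k87 k5 11 0))))] (.c k7
  (.l (.s k1 k2 0 (.s k65 k125 5 (.s k129 k193 7 (.s k66 k192 8 (.s k67 k64 0 (.d k195 k131 k130 7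
  8))))))) (.c k83 (.l (.s k87 k7 11 (.s k1 k2 0 (.s k86 k84 0 (.d k169 k253 k252 13 14))))) (.c k87
  (.q k83 [(.s k1 k2 0 (.s k125 k65 5 (.s k253 k169 13 (.s k61 k189 7 (.s k21 k41 5 (.d k149 k213
  k193 7 13)))))), (.s k166 k4 12 (.s k165 k164 0 (.s k225 k45 9 (.s k227 k44 10 (.s k47 k107 9 (.d
  k224 k226 k106 0 10))))))] .n) .n)))) .n)))))) .n))))) (.c k167 (.q k91 [(.s k1 k2 0 (.s k125 k65
  5 (.s k253 k169 13 (.s k61 k189 7 (.s k21 k41 5 (.d k149 k213 k193 7 13)))))), (.s k65 k125 5 (.s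
  k195 k130 8 (.s k67 k131 7 (.s k86 k124 6 (.s k84 k87 0 (.d k252 k168 k169 13 14)))))), (.s k1 k2
  0 (.s k169 k253 13 (.s k41 k233 7 (.s k60 k22 6 (.s k20 k40 5 (.d k150 k215 k195 8 14))))))] (.c
  k169 (.l (.s k1 k2 0 (.s k65 k125 5 (.s k129 k193 7 (.s k66 k192 8 (.s k67 k64 0 (.d k195 k131
  k130 7 8))))))) (.c k247 (.q k251 [(.s k1 k2 0 (.s k169 k253 13 (.s k171 k11 11 (.s k168 k170 0
  (.d k252 k86 k84 14 13))))), (.s k1 k2 0 (.s k65 k125 5 (.s k129 k193 7 (.s k66 k192 8 (.s k67 k64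
  0 (.d k195 k131 k130 7 8)))))), (.s k65 k125 5 (.s k195 k130 8 (.s k67 k131 7 (.s k86 k124 6 (.s
  k252 k169 14 (.d k84 k87 k168 0 13))))))] (.c k7 (.q k87 [(.s k1 k2 0 (.s k86 k84 0 (.d k169 k253
  k252 13 14))), (.s k65 k125 5 (.s k195 k130 8 (.s k67 k131 7 (.s k64 k66 0 (.d k127 k107 k106 5
  6)))))] (.c k2 (.l (.s k65 k125 5 (.s k86 k84 0 (.s k67 k124 6 (.d k195 k131 k130 7 8))))) .n))
  (.c k87 (.q k7 [(.s k1 k2 0 (.s k169 k253 13 (.s k171 k11 11 (.s k168 k170 0 (.d k252 k86 k84 14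
  13))))), (.s k1 k2 0 (.s k65 k125 5 (.s k129 k193 7 (.s k66 k192 8 (.s k67 k64 0 (.d k195 k131
  k130 7 8)))))), (.s k65 k125 5 (.s k195 k130 8 (.s k60 k150 14 (.s k41 k22 6 (.s k67 k131 7 (.s
  k86 k124 6 (.d k169 k233 k252 7 14)))))))] .n) .n))) (.c k251 (.q k247 [(.s k1 k2 0 (.s k125 k65 5
  (.s k253 k169 13 (.s k61 k189 7 (.s k21 k41 5 (.d k149 k213 k193 7 13)))))), (.s k65 k125 5 (.s
  k195 k130 8 (.s k67 k131 7 (.s k86 k124 6 (.s k84 k87 0 (.d k252 k168 k169 13 14)))))), (.s k1 k2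
  0 (.s k169 k253 13 (.s k41 k233 7 (.s k60 k22 6 (.s k20 k40 5 (.d k150 k215 k195 8 14))))))] (.c
  k169 (.l (.s k1 k2 0 (.s k65 k125 5 (.s k129 k193 7 (.s k66 k192 8 (.s k67 k64 0 (.d k195 k131
  k130 7 8))))))) .n)) .n)))) (.c k169 (.l (.s k1 k2 0 (.s k65 k125 5 (.s k129 k193 7 (.s k66 k192 8
  (.s k67 k64 0 (.d k195 k131 k130 7 8))))))) (.c k247 (.q k251 [(.s k1 k2 0 (.s k125 k65 5 (.s k253
  k169 13 (.s k61 k189 7 (.s k21 k41 5 (.d k149 k213 k193 7 13)))))), (.s k65 k125 5 (.s k195 k130 8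
  (.s k67 k131 7 (.s k86 k124 6 (.s k84 k87 0 (.d k252 k168 k169 13 14)))))), (.s k1 k2 0 (.s k169
  k253 13 (.s k41 k233 7 (.s k60 k22 6 (.s k20 k40 5 (.d k150 k215 k195 8 14))))))] (.c k91 (.q k167
  [(.s k1 k2 0 (.s k169 k253 13 (.s k171 k163 1 (.s k168 k170 0 (.d k252 k86 k84 14 13))))), (.s k1
  k2 0 (.s k65 k125 5 (.s k129 k193 7 (.s k66 k192 8 (.s k67 k64 0 (.d k195 k131 k130 7 8)))))), (.s
  k65 k125 5 (.s k195 k130 8 (.s k67 k131 7 (.s k86 k124 6 (.s k252 k169 14 (.d k84 k87 k168 0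
  13))))))] (.c k83 (.q k87 [(.s k1 k2 0 (.s k86 k84 0 (.d k169 k253 k252 13 14))), (.s k65 k125 5
  (.s k195 k130 8 (.s k67 k131 7 (.s k64 k66 0 (.d k127 k107 k106 5 6)))))] (.c k2 (.l (.s k65 k125
  5 (.s k86 k84 0 (.s k67 k124 6 (.d k195 k131 k130 7 8))))) .n)) (.c k87 (.q k83 [(.s k1 k2 0 (.s
  k169 k253 13 (.s k171 k163 1 (.s k168 k170 0 (.d k252 k86 k84 14 13))))), (.s k65 k125 5 (.s k163
  k171 1 (.s k195 k130 8 (.s k67 k131 7 (.s k99 k115 3 (.s k35 k227 7 (.d k51 k19 k147 3 11))))))),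
  (.s k1 k2 0 (.s k65 k125 5 (.s k129 k193 7 (.s k66 k192 8 (.s k67 k64 0 (.d k195 k131 k130 7
  8))))))] .n) .n))) (.c k167 (.q k91 [(.s k1 k2 0 (.s k169 k253 13 (.s k171 k11 11 (.s k168 k170 0
  (.d k252 k86 k84 14 13))))), (.s k1 k2 0 (.s k65 k125 5 (.s k129 k193 7 (.s k66 k192 8 (.s k67 k64
  0 (.d k195 k131 k130 7 8)))))), (.s k65 k125 5 (.s k195 k130 8 (.s k67 k131 7 (.s k86 k124 6 (.s
  k252 k169 14 (.d k84 k87 k168 0 13))))))] (.c k7 (.q k87 [(.s k1 k2 0 (.s k86 k84 0 (.d k169 k253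
  k252 13 14))), (.s k65 k125 5 (.s k195 k130 8 (.s k67 k131 7 (.s k64 k66 0 (.d k127 k107 k106 5
  6)))))] (.c k2 (.l (.s k65 k125 5 (.s k86 k84 0 (.s k67 k124 6 (.d k195 k131 k130 7 8))))) .n))
  (.c k87 (.q k7 [(.s k1 k2 0 (.s k169 k253 13 (.s k171 k11 11 (.s k168 k170 0 (.d k252 k86 k84 14
  13))))), (.s k1 k2 0 (.s k65 k125 5 (.s k129 k193 7 (.s k66 k192 8 (.s k67 k64 0 (.d k195 k131
  k130 7 8)))))), (.s k65 k125 5 (.s k195 k130 8 (.s k60 k150 14 (.s k41 k22 6 (.s k67 k131 7 (.s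
  k86 k124 6 (.d k169 k233 k252 7 14)))))))] .n) .n))) (.c k169 (.l (.s k1 k2 0 (.s k65 k125 5 (.s
  k129 k193 7 (.s k66 k192 8 (.s k67 k64 0 (.d k195 k131 k130 7 8))))))) .n)))) (.c k251 (.q k247
  [(.s k1 k2 0 (.s k125 k65 5 (.s k253 k169 13 (.s k61 k189 7 (.s k21 k41 5 (.d k149 k213 k193 7
  13)))))), (.s k65 k125 5 (.s k195 k130 8 (.s k67 k131 7 (.s k86 k124 6 (.s k84 k87 0 (.d k252 k168
  k169 13 14)))))), (.s k1 k2 0 (.s k169 k253 13 (.s k41 k233 7 (.s k60 k22 6 (.s k20 k40 5 (.d k150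
  k215 k195 8 14))))))] (.c k91 (.q k167 [(.s k1 k2 0 (.s k87 k7 11 (.s k86 k84 0 (.d k169 k253 k252
  13 14)))), (.s k4 k166 12 (.s k12 k8 1 (.s k6 k9 2 (.d k7 k87 k5 11 0))))] (.c k7 (.l (.s k1 k2 0
  (.s k166 k4 12 (.s k169 k253 13 (.d k163 k171 k172 1 2))))) (.c k11 (.l (.s k171 k163 1 (.s k1 k2
  0 (.s k87 k7 11 (.s k86 k84 0 (.d k169 k253 k252 13 14)))))) (.c k83 (.l (.s k87 k7 11 (.s k1 k2 0
  (.s k86 k84 0 (.d k169 k253 k252 13 14))))) (.c k87 (.q k83 [(.s k1 k2 0 (.s k166 k4 12 (.s k169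
  k253 13 (.d k163 k171 k172 1 2)))), (.s k1 k2 0 (.s k65 k125 5 (.s k129 k193 7 (.s k66 k192 8 (.s
  k67 k64 0 (.d k195 k131 k130 7 8)))))), (.s k166 k4 12 (.s k165 k164 0 (.s k160 k170 2 (.s k240
  k80 11 (.s k161 k82 12 (.d k163 k171 k162 1 0))))))] (.c k11 (.l (.s k171 k163 1 (.s k1 k2 0 (.s
  k169 k253 13 (.s k168 k170 0 (.d k252 k86 k84 14 13)))))) (.c k171 (.q k11 [(.s k1 k2 0 (.s k125
  k65 5 (.s k253 k169 13 (.s k61 k189 7 (.s k21 k41 5 (.d k149 k213 k193 7 13)))))), (.s k166 k4 12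
  (.s k165 k164 0 (.s k225 k45 9 (.s k227 k44 10 (.s k47 k107 9 (.d k224 k226 k106 0 10))))))] .n)
  .n))) (.c k171 (.q k11 [(.s k1 k2 0 (.s k87 k7 11 (.s k86 k84 0 (.d k169 k253 k252 13 14)))), (.s
  k4 k166 12 (.s k12 k8 1 (.s k6 k9 2 (.d k7 k87 k5 11 0))))] (.c k7 (.l (.s k1 k2 0 (.s k65 k125 5
  (.s k129 k193 7 (.s k66 k192 8 (.s k67 k64 0 (.d k195 k131 k130 7 8))))))) (.c k83 (.l (.s k87 k7
  11 (.s k1 k2 0 (.s k86 k84 0 (.d k169 k253 k252 13 14))))) (.c k87 (.q k83 [(.s k1 k2 0 (.s k125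
  k65 5 (.s k253 k169 13 (.s k61 k189 7 (.s k21 k41 5 (.d k149 k213 k193 7 13)))))), (.s k166 k4 12
  (.s k165 k164 0 (.s k225 k45 9 (.s k227 k44 10 (.s k47 k107 9 (.d k224 k226 k106 0 10))))))] .n)
  .n)))) .n)))))) (.c k167 (.q k91 [(.s k1 k2 0 (.s k125 k65 5 (.s k253 k169 13 (.s k61 k189 7 (.s
  k21 k41 5 (.d k149 k213 k193 7 13)))))), (.s k65 k125 5 (.s k195 k130 8 (.s k67 k131 7 (.s k86
  k124 6 (.s k84 k87 0 (.d k252 k168 k169 13 14)))))), (.s k1 k2 0 (.s k169 k253 13 (.s k41 k233 7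
  (.s k60 k22 6 (.s k20 k40 5 (.d k150 k215 k195 8 14))))))] (.c k169 (.l (.s k1 k2 0 (.s k65 k125 5
  (.s k129 k193 7 (.s k66 k192 8 (.s k67 k64 0 (.d k195 k131 k130 7 8))))))) .n)) (.c k169 (.l (.s
  k1 k2 0 (.s k65 k125 5 (.s k129 k193 7 (.s k66 k192 8 (.s k67 k64 0 (.d k195 k131 k130 7 8)))))))
  .n)))) .n)))))) (.c k167 (.q k91 [(.s k1 k2 0 (.s k125 k65 5 (.s k253 k169 13 (.s k61 k189 7 (.s
  k21 k41 5 (.d k149 k213 k193 7 13)))))), (.s k65 k125 5 (.s k195 k130 8 (.s k67 k131 7 (.s k86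
  k124 6 (.s k84 k87 0 (.d k252 k168 k169 13 14)))))), (.s k1 k2 0 (.s k169 k253 13 (.s k41 k233 7
  (.s k60 k22 6 (.s k20 k40 5 (.d k150 k215 k195 8 14))))))] (.c k95 (.q k175 [(.s k1 k2 0 (.s k125
  k65 5 (.s k253 k169 13 (.s k61 k189 7 (.s k21 k41 5 (.d k149 k213 k193 7 13)))))), (.s k65 k125 5
  (.s k195 k130 8 (.s k67 k131 7 (.s k86 k124 6 (.s k84 k87 0 (.d k252 k168 k169 13 14)))))), (.s k1
  k2 0 (.s k169 k253 13 (.s k41 k233 7 (.s k60 k22 6 (.s k20 k40 5 (.d k150 k215 k195 8 14))))))]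
  (.c k169 (.l (.s k1 k2 0 (.s k65 k125 5 (.s k129 k193 7 (.s k66 k192 8 (.s k67 k64 0 (.d k195 k131
  k130 7 8))))))) (.c k247 (.q k251 [(.s k1 k2 0 (.s k169 k253 13 (.s k171 k11 11 (.s k168 k170 0
  (.d k252 k86 k84 14 13))))), (.s k1 k2 0 (.s k65 k125 5 (.s k129 k193 7 (.s k66 k192 8 (.s k67 k64
  0 (.d k195 k131 k130 7 8)))))), (.s k65 k125 5 (.s k195 k130 8 (.s k67 k131 7 (.s k86 k124 6 (.s
  k252 k169 14 (.d k84 k87 k168 0 13))))))] (.c k7 (.q k87 [(.s k1 k2 0 (.s k86 k84 0 (.d k169 k253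
  k252 13 14))), (.s k65 k125 5 (.s k195 k130 8 (.s k67 k131 7 (.s k64 k66 0 (.d k127 k107 k106 5
  6)))))] (.c k2 (.l (.s k65 k125 5 (.s k86 k84 0 (.s k67 k124 6 (.d k195 k131 k130 7 8))))) .n))
  (.c k87 (.q k7 [(.s k1 k2 0 (.s k169 k253 13 (.s k171 k11 11 (.s k168 k170 0 (.d k252 k86 k84 14
  13))))), (.s k1 k2 0 (.s k65 k125 5 (.s k129 k193 7 (.s k66 k192 8 (.s k67 k64 0 (.d k195 k131
  k130 7 8)))))), (.s k65 k125 5 (.s k195 k130 8 (.s k60 k150 14 (.s k41 k22 6 (.s k67 k131 7 (.s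
  k86 k124 6 (.d k169 k233 k252 7 14)))))))] .n) .n))) (.c k251 (.q k247 [(.s k1 k2 0 (.s k125 k65 5
  (.s k253 k169 13 (.s k61 k189 7 (.s k21 k41 5 (.d k149 k213 k193 7 13)))))), (.s k65 k125 5 (.s
  k195 k130 8 (.s k67 k131 7 (.s k86 k124 6 (.s k84 k87 0 (.d k252 k168 k169 13 14)))))), (.s k1 k2
  0 (.s k169 k253 13 (.s k41 k233 7 (.s k60 k22 6 (.s k20 k40 5 (.d k150 k215 k195 8 14))))))] (.c
  k169 (.l (.s k1 k2 0 (.s k65 k125 5 (.s k129 k193 7 (.s k66 k192 8 (.s k67 k64 0 (.d k195 k131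
  k130 7 8))))))) .n)) .n)))) (.c k169 (.l (.s k1 k2 0 (.s k65 k125 5 (.s k129 k193 7 (.s k66 k192 8
  (.s k67 k64 0 (.d k195 k131 k130 7 8))))))) (.c k175 (.q k95 [(.s k1 k2 0 (.s k87 k83 1 (.s k86
  k84 0 (.d k169 k253 k252 13 14)))), (.s k80 k90 2 (.s k83 k87 1 (.s k82 k81 0 (.d k240 k160 k161
  11 12)))), (.s k1 k2 0 (.s k65 k125 5 (.s k129 k193 7 (.s k66 k192 8 (.s k67 k64 0 (.d k195 k131
  k130 7 8))))))] (.c k163 (.q k171 [(.s k1 k2 0 (.s k87 k83 1 (.s k86 k84 0 (.d k169 k253 k252 13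
  14)))), (.s k80 k90 2 (.s k83 k87 1 (.s k82 k81 0 (.d k240 k160 k161 11 12)))), (.s k1 k2 0 (.s
  k90 k80 2 (.s k169 k253 13 (.d k11 k251 k248 11 12))))] (.c k247 (.l (.s k251 k11 11 (.s k1 k2 0
  (.s k87 k83 1 (.s k86 k84 0 (.d k169 k253 k252 13 14)))))) (.c k251 (.q k247 [(.s k1 k2 0 (.s k87
  k83 1 (.s k86 k84 0 (.d k169 k253 k252 13 14)))), (.s k80 k90 2 (.s k83 k87 1 (.s k82 k81 0 (.d
  k240 k160 k161 11 12)))), (.s k1 k2 0 (.s k169 k253 13 (.s k168 k170 0 (.d k252 k86 k84 14 13))))]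
  .n) .n))) (.c k171 (.q k163 [(.s k1 k2 0 (.s k87 k83 1 (.s k86 k84 0 (.d k169 k253 k252 13 14)))),
  (.s k80 k90 2 (.s k83 k87 1 (.s k82 k81 0 (.d k240 k160 k161 11 12)))), (.s k1 k2 0 (.s k65 k125 5
  (.s k129 k193 7 (.s k66 k192 8 (.s k67 k64 0 (.d k195 k131 k130 7 8))))))] (.c k247 (.q k251 [(.s
  k1 k2 0 (.s k87 k83 1 (.s k86 k84 0 (.d k169 k253 k252 13 14)))), (.s k80 k90 2 (.s k240 k160 11
  (.s k82 k161 12 (.d k83 k87 k81 1 0))))] (.c k7 (.l (.s k87 k83 1 (.s k1 k2 0 (.s k86 k84 0 (.d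
  k169 k253 k252 13 14))))) (.c k83 (.l (.s k1 k2 0 (.s k65 k125 5 (.s k129 k193 7 (.s k66 k192 8
  (.s k67 k64 0 (.d k195 k131 k130 7 8))))))) (.c k87 (.q k7 [(.s k1 k2 0 (.s k90 k80 2 (.s k89 k88
  0 (.s k169 k253 13 (.s k248 k11 12 (.d k249 k250 k9 0 11)))))), (.s k1 k2 0 (.s k65 k125 5 (.s
  k129 k193 7 (.s k66 k192 8 (.s k67 k64 0 (.d k195 k131 k130 7 8)))))), (.s k90 k80 2 (.s k75 k120
  4 (.s k89 k88 0 (.s k73 k121 3 (.s k72 k74 0 (.d k123 k107 k106 3 4))))))] .n) .n)))) (.c k251 (.q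
  k247 [(.s k1 k2 0 (.s k166 k4 12 (.d k169 k172 k253 2 13))), (.s k80 k90 2 (.s k83 k87 1 (.s k82
  k81 0 (.d k240 k160 k161 11 12))))] .n) .n))) (.c k247 (.q k251 [(.s k1 k2 0 (.s k87 k83 1 (.s k86
  k84 0 (.d k169 k253 k252 13 14)))), (.s k80 k90 2 (.s k240 k160 11 (.s k82 k161 12 (.d k83 k87 k81
  1 0))))] (.c k7 (.l (.s k87 k83 1 (.s k1 k2 0 (.s k86 k84 0 (.d k169 k253 k252 13 14))))) (.c k83
  (.l (.s k1 k2 0 (.s k90 k80 2 (.s k169 k253 13 (.d k11 k171 k248 11 12))))) (.c k87 (.q k7 [(.s k1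
  k2 0 (.s k90 k80 2 (.s k169 k253 13 (.d k11 k171 k248 11 12)))), (.s k90 k80 2 (.s k75 k120 4 (.s
  k89 k88 0 (.s k73 k121 3 (.s k72 k74 0 (.d k123 k107 k106 3 4)))))), (.s k1 k2 0 (.s k65 k125 5
  (.s k129 k193 7 (.s k66 k192 8 (.s k67 k64 0 (.d k195 k131 k130 7 8))))))] (.c k163 (.l (.s k171
  k11 11 (.s k1 k2 0 (.s k169 k253 13 (.s k168 k170 0 (.d k252 k86 k84 14 13)))))) (.c k171 (.q k163
  [(.s k1 k2 0 (.s k90 k80 2 (.s k89 k88 0 (.s k169 k253 13 (.s k248 k11 12 (.d k249 k250 k9 0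
  11)))))), (.s k1 k2 0 (.s k65 k125 5 (.s k129 k193 7 (.s k66 k192 8 (.s k67 k64 0 (.d k195 k131
  k130 7 8)))))), (.s k90 k80 2 (.s k75 k120 4 (.s k89 k88 0 (.s k73 k121 3 (.s k72 k74 0 (.d k123
  k107 k106 3 4))))))] .n) .n))) (.c k163 (.l (.s k171 k11 11 (.s k1 k2 0 (.s k87 k83 1 (.s k86 k84
  0 (.d k169 k253 k252 13 14)))))) (.c k171 (.q k163 [(.s k1 k2 0 (.s k87 k83 1 (.s k86 k84 0 (.d
  k169 k253 k252 13 14)))), (.s k80 k90 2 (.s k240 k160 11 (.s k82 k161 12 (.d k83 k87 k81 1 0))))]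
  (.c k7 (.l (.s k87 k83 1 (.s k1 k2 0 (.s k86 k84 0 (.d k169 k253 k252 13 14))))) (.c k83 (.l (.s
  k1 k2 0 (.s k65 k125 5 (.s k129 k193 7 (.s k66 k192 8 (.s k67 k64 0 (.d k195 k131 k130 7 8)))))))
  (.c k87 (.q k7 [(.s k1 k2 0 (.s k90 k80 2 (.s k89 k88 0 (.s k169 k253 13 (.s k248 k11 12 (.d k249
  k250 k9 0 11)))))), (.s k1 k2 0 (.s k65 k125 5 (.s k129 k193 7 (.s k66 k192 8 (.s k67 k64 0 (.d
  k195 k131 k130 7 8)))))), (.s k90 k80 2 (.s k75 k120 4 (.s k89 k88 0 (.s k73 k121 3 (.s k72 k74 0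
  (.d k123 k107 k106 3 4))))))] .n) .n)))) .n)))))) (.c k251 (.q k247 [(.s k1 k2 0 (.s k87 k83 1 (.s
  k86 k84 0 (.d k169 k253 k252 13 14)))), (.s k80 k90 2 (.s k83 k87 1 (.s k82 k81 0 (.d k240 k160
  k161 11 12)))), (.s k1 k2 0 (.s k65 k125 5 (.s k129 k193 7 (.s k66 k192 8 (.s k67 k64 0 (.d k195
  k131 k130 7 8))))))] (.c k163 (.q k171 [(.s k1 k2 0 (.s k87 k83 1 (.s k86 k84 0 (.d k169 k253 k252
  13 14)))), (.s k80 k90 2 (.s k83 k87 1 (.s k82 k81 0 (.d k240 k160 k161 11 12)))), (.s k1 k2 0 (.s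
  k169 k253 13 (.s k168 k170 0 (.d k252 k86 k84 14 13))))] .n) (.c k171 (.q k163 [(.s k1 k2 0 (.s
  k166 k4 12 (.d k169 k172 k253 2 13))), (.s k80 k90 2 (.s k83 k87 1 (.s k82 k81 0 (.d k240 k160
  k161 11 12))))] .n) .n))) .n))))) (.c k247 (.q k251 [(.s k1 k2 0 (.s k169 k253 13 (.s k171 k11 11
  (.s k168 k170 0 (.d k252 k86 k84 14 13))))), (.s k1 k2 0 (.s k65 k125 5 (.s k129 k193 7 (.s k66
  k192 8 (.s k67 k64 0 (.d k195 k131 k130 7 8)))))), (.s k65 k125 5 (.s k195 k130 8 (.s k67 k131 7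
  (.s k86 k124 6 (.s k252 k169 14 (.d k84 k87 k168 0 13))))))] (.c k7 (.q k87 [(.s k1 k2 0 (.s k86
  k84 0 (.d k169 k253 k252 13 14))), (.s k65 k125 5 (.s k86 k84 0 (.s k67 k124 6 (.d k195 k131 k130
  7 8)))), (.s k1 k2 0 (.s k11 k171 11 (.s k95 k83 1 (.s k90 k80 2 (.d k169 k248 k253 12 13)))))]
  (.c k95 (.q k175 [(.s k1 k2 0 (.s k86 k84 0 (.d k169 k253 k252 13 14))), (.s k65 k125 5 (.s k195
  k130 8 (.s k67 k131 7 (.s k64 k66 0 (.d k127 k107 k106 5 6)))))] (.c k2 (.l (.s k65 k125 5 (.s k86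
  k84 0 (.s k67 k124 6 (.d k195 k131 k130 7 8))))) .n)) (.c k175 (.l (.s k95 k83 1 (.s k1 k2 0 (.s
  k86 k84 0 (.d k169 k253 k252 13 14))))) .n))) (.c k87 (.q k7 [(.s k1 k2 0 (.s k169 k253 13 (.s
  k171 k11 11 (.s k168 k170 0 (.d k252 k86 k84 14 13))))), (.s k1 k2 0 (.s k65 k125 5 (.s k129 k193
  7 (.s k66 k192 8 (.s k67 k64 0 (.d k195 k131 k130 7 8)))))), (.s k65 k125 5 (.s k195 k130 8 (.s
  k60 k150 14 (.s k41 k22 6 (.s k67 k131 7 (.s k86 k124 6 (.d k169 k233 k252 7 14)))))))] (.c k95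
  (.q k175 [(.s k1 k2 0 (.s k169 k253 13 (.s k171 k11 11 (.s k168 k170 0 (.d k252 k86 k84 14
  13))))), (.s k1 k2 0 (.s k65 k125 5 (.s k129 k193 7 (.s k66 k192 8 (.s k67 k64 0 (.d k195 k131
  k130 7 8)))))), (.s k65 k125 5 (.s k195 k130 8 (.s k60 k150 14 (.s k41 k22 6 (.s k67 k131 7 (.s
  k86 k124 6 (.d k169 k233 k252 7 14)))))))] .n) (.c k175 (.q k95 [(.s k1 k2 0 (.s k90 k80 2 (.s
  k169 k253 13 (.d k11 k171 k248 11 12)))), (.s k90 k80 2 (.s k75 k120 4 (.s k89 k88 0 (.s k73 k121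
  3 (.s k72 k74 0 (.d k123 k107 k106 3 4)))))), (.s k1 k2 0 (.s k65 k125 5 (.s k129 k193 7 (.s k66
  k192 8 (.s k67 k64 0 (.d k195 k131 k130 7 8))))))] (.c k163 (.l (.s k171 k11 11 (.s k1 k2 0 (.s
  k169 k253 13 (.s k168 k170 0 (.d k252 k86 k84 14 13)))))) (.c k171 (.q k163 [(.s k1 k2 0 (.s k90
  k80 2 (.s k89 k88 0 (.s k169 k253 13 (.s k248 k11 12 (.d k249 k250 k9 0 11)))))), (.s k1 k2 0 (.s
  k65 k125 5 (.s k129 k193 7 (.s k66 k192 8 (.s k67 k64 0 (.d k195 k131 k130 7 8)))))), (.s k90 k80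
  2 (.s k75 k120 4 (.s k89 k88 0 (.s k73 k121 3 (.s k72 k74 0 (.d k123 k107 k106 3 4))))))] .n)
  .n))) .n))) (.c k95 (.q k175 [(.s k1 k2 0 (.s k169 k253 13 (.s k171 k11 11 (.s k168 k170 0 (.d
  k252 k86 k84 14 13))))), (.s k1 k2 0 (.s k65 k125 5 (.s k129 k193 7 (.s k66 k192 8 (.s k67 k64 0
  (.d k195 k131 k130 7 8)))))), (.s k65 k125 5 (.s k195 k130 8 (.s k67 k131 7 (.s k86 k124 6 (.s
  k252 k169 14 (.d k84 k87 k168 0 13))))))] (.c k7 (.q k87 [(.s k1 k2 0 (.s k86 k84 0 (.d k169 k253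
  k252 13 14))), (.s k65 k125 5 (.s k195 k130 8 (.s k67 k131 7 (.s k64 k66 0 (.d k127 k107 k106 5
  6)))))] (.c k2 (.l (.s k65 k125 5 (.s k86 k84 0 (.s k67 k124 6 (.d k195 k131 k130 7 8))))) .n))
  (.c k87 (.q k7 [(.s k1 k2 0 (.s k169 k253 13 (.s k171 k11 11 (.s k168 k170 0 (.d k252 k86 k84 14
  13))))), (.s k1 k2 0 (.s k65 k125 5 (.s k129 k193 7 (.s k66 k192 8 (.s k67 k64 0 (.d k195 k131
  k130 7 8)))))), (.s k65 k125 5 (.s k195 k130 8 (.s k60 k150 14 (.s k41 k22 6 (.s k67 k131 7 (.s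
  k86 k124 6 (.d k169 k233 k252 7 14)))))))] .n) .n))) (.c k175 (.q k95 [(.s k1 k2 0 (.s k87 k83 1
  (.s k86 k84 0 (.d k169 k253 k252 13 14)))), (.s k80 k90 2 (.s k240 k160 11 (.s k82 k161 12 (.d k83
  k87 k81 1 0))))] (.c k7 (.l (.s k87 k83 1 (.s k1 k2 0 (.s k86 k84 0 (.d k169 k253 k252 13 14)))))
  (.c k83 (.l (.s k1 k2 0 (.s k90 k80 2 (.s k169 k253 13 (.d k11 k171 k248 11 12))))) (.c k87 (.q k7
  [(.s k1 k2 0 (.s k90 k80 2 (.s k169 k253 13 (.d k11 k171 k248 11 12)))), (.s k90 k80 2 (.s k75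
  k120 4 (.s k89 k88 0 (.s k73 k121 3 (.s k72 k74 0 (.d k123 k107 k106 3 4)))))), (.s k1 k2 0 (.s
  k65 k125 5 (.s k129 k193 7 (.s k66 k192 8 (.s k67 k64 0 (.d k195 k131 k130 7 8))))))] (.c k163 (.l
  (.s k171 k11 11 (.s k1 k2 0 (.s k169 k253 13 (.s k168 k170 0 (.d k252 k86 k84 14 13)))))) (.c k171
  (.q k163 [(.s k1 k2 0 (.s k90 k80 2 (.s k89 k88 0 (.s k169 k253 13 (.s k248 k11 12 (.d k249 k250
  k9 0 11)))))), (.s k1 k2 0 (.s k65 k125 5 (.s k129 k193 7 (.s k66 k192 8 (.s k67 k64 0 (.d k195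
  k131 k130 7 8)))))), (.s k90 k80 2 (.s k75 k120 4 (.s k89 k88 0 (.s k73 k121 3 (.s k72 k74 0 (.d
  k123 k107 k106 3 4))))))] .n) .n))) (.c k163 (.l (.s k171 k11 11 (.s k1 k2 0 (.s k87 k83 1 (.s k86
  k84 0 (.d k169 k253 k252 13 14)))))) (.c k171 (.q k163 [(.s k1 k2 0 (.s k87 k83 1 (.s k86 k84 0
  (.d k169 k253 k252 13 14)))), (.s k80 k90 2 (.s k240 k160 11 (.s k82 k161 12 (.d k83 k87 k81 1
  0))))] (.c k7 (.l (.s k87 k83 1 (.s k1 k2 0 (.s k86 k84 0 (.d k169 k253 k252 13 14))))) (.c k83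
  (.l (.s k1 k2 0 (.s k65 k125 5 (.s k129 k193 7 (.s k66 k192 8 (.s k67 k64 0 (.d k195 k131 k130 7
  8))))))) (.c k87 (.q k7 [(.s k1 k2 0 (.s k90 k80 2 (.s k89 k88 0 (.s k169 k253 13 (.s k248 k11 12
  (.d k249 k250 k9 0 11)))))), (.s k1 k2 0 (.s k65 k125 5 (.s k129 k193 7 (.s k66 k192 8 (.s k67 k64
  0 (.d k195 k131 k130 7 8)))))), (.s k90 k80 2 (.s k75 k120 4 (.s k89 k88 0 (.s k73 k121 3 (.s k72
  k74 0 (.d k123 k107 k106 3 4))))))] .n) .n)))) .n)))))) .n))))) (.c k251 (.q k247 [(.s k1 k2 0 (.s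
  k125 k65 5 (.s k253 k169 13 (.s k61 k189 7 (.s k21 k41 5 (.d k149 k213 k193 7 13)))))), (.s k65
  k125 5 (.s k195 k130 8 (.s k67 k131 7 (.s k86 k124 6 (.s k84 k87 0 (.d k252 k168 k169 13 14)))))),
  (.s k1 k2 0 (.s k169 k253 13 (.s k41 k233 7 (.s k60 k22 6 (.s k20 k40 5 (.d k150 k215 k195 8
  14))))))] (.c k95 (.q k175 [(.s k1 k2 0 (.s k125 k65 5 (.s k253 k169 13 (.s k61 k189 7 (.s k21 k41
  5 (.d k149 k213 k193 7 13)))))), (.s k65 k125 5 (.s k195 k130 8 (.s k67 k131 7 (.s k86 k124 6 (.s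
  k84 k87 0 (.d k252 k168 k169 13 14)))))), (.s k1 k2 0 (.s k169 k253 13 (.s k41 k233 7 (.s k60 k22
  6 (.s k20 k40 5 (.d k150 k215 k195 8 14))))))] (.c k169 (.l (.s k1 k2 0 (.s k65 k125 5 (.s k129
  k193 7 (.s k66 k192 8 (.s k67 k64 0 (.d k195 k131 k130 7 8))))))) .n)) (.c k169 (.l (.s k1 k2 0
  (.s k65 k125 5 (.s k129 k193 7 (.s k66 k192 8 (.s k67 k64 0 (.d k195 k131 k130 7 8))))))) (.c k175
  (.q k95 [(.s k1 k2 0 (.s k87 k83 1 (.s k86 k84 0 (.d k169 k253 k252 13 14)))), (.s k80 k90 2 (.s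
  k83 k87 1 (.s k82 k81 0 (.d k240 k160 k161 11 12)))), (.s k1 k2 0 (.s k65 k125 5 (.s k129 k193 7
  (.s k66 k192 8 (.s k67 k64 0 (.d k195 k131 k130 7 8))))))] (.c k163 (.q k171 [(.s k1 k2 0 (.s k87
  k83 1 (.s k86 k84 0 (.d k169 k253 k252 13 14)))), (.s k80 k90 2 (.s k83 k87 1 (.s k82 k81 0 (.d
  k240 k160 k161 11 12)))), (.s k1 k2 0 (.s k169 k253 13 (.s k168 k170 0 (.d k252 k86 k84 14 13))))]
  .n) (.c k171 (.q k163 [(.s k1 k2 0 (.s k166 k4 12 (.d k169 k172 k253 2 13))), (.s k80 k90 2 (.s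
  k83 k87 1 (.s k82 k81 0 (.d k240 k160 k161 11 12))))] .n) .n))) .n)))) .n)))))) (.c k169 (.l (.s
  k1 k2 0 (.s k65 k125 5 (.s k129 k193 7 (.s k66 k192 8 (.s k67 k64 0 (.d k195 k131 k130 7 8)))))))
  (.c k175 (.q k95 [(.s k1 k2 0 (.s k125 k65 5 (.s k253 k169 13 (.s k61 k189 7 (.s k21 k41 5 (.d
  k149 k213 k193 7 13)))))), (.s k65 k125 5 (.s k195 k130 8 (.s k67 k131 7 (.s k86 k124 6 (.s k84
  k87 0 (.d k252 k168 k169 13 14)))))), (.s k1 k2 0 (.s k169 k253 13 (.s k41 k233 7 (.s k60 k22 6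
  (.s k20 k40 5 (.d k150 k215 k195 8 14))))))] (.c k91 (.q k167 [(.s k1 k2 0 (.s k125 k65 5 (.s k253
  k169 13 (.s k61 k189 7 (.s k21 k41 5 (.d k149 k213 k193 7 13)))))), (.s k65 k125 5 (.s k195 k130 8
  (.s k67 k131 7 (.s k86 k124 6 (.s k84 k87 0 (.d k252 k168 k169 13 14)))))), (.s k1 k2 0 (.s k169
  k253 13 (.s k41 k233 7 (.s k60 k22 6 (.s k20 k40 5 (.d k150 k215 k195 8 14))))))] (.c k169 (.l (.s
  k1 k2 0 (.s k65 k125 5 (.s k129 k193 7 (.s k66 k192 8 (.s k67 k64 0 (.d k195 k131 k130 7 8)))))))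
  (.c k247 (.q k251 [(.s k1 k2 0 (.s k125 k65 5 (.s k253 k169 13 (.s k61 k189 7 (.s k21 k41 5 (.d
  k149 k213 k193 7 13)))))), (.s k65 k125 5 (.s k195 k130 8 (.s k67 k131 7 (.s k86 k124 6 (.s k84
  k87 0 (.d k252 k168 k169 13 14)))))), (.s k1 k2 0 (.s k169 k253 13 (.s k41 k233 7 (.s k60 k22 6
  (.s k20 k40 5 (.d k150 k215 k195 8 14))))))] (.c k169 (.l (.s k1 k2 0 (.s k65 k125 5 (.s k129 k193
  7 (.s k66 k192 8 (.s k67 k64 0 (.d k195 k131 k130 7 8))))))) .n)) (.c k251 (.q k247 [(.s k1 k2 0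
  (.s k87 k7 11 (.s k86 k84 0 (.d k169 k253 k252 13 14)))), (.s k4 k166 12 (.s k7 k87 11 (.s k6 k5 0
  (.d k12 k8 k9 1 2)))), (.s k1 k2 0 (.s k65 k125 5 (.s k129 k193 7 (.s k66 k192 8 (.s k67 k64 0 (.d
  k195 k131 k130 7 8))))))] (.c k11 (.q k171 [(.s k1 k2 0 (.s k87 k7 11 (.s k86 k84 0 (.d k169 k253
  k252 13 14)))), (.s k4 k166 12 (.s k7 k87 11 (.s k6 k5 0 (.d k12 k8 k9 1 2)))), (.s k1 k2 0 (.s
  k169 k253 13 (.s k168 k170 0 (.d k252 k86 k84 14 13))))] .n) (.c k171 (.q k11 [(.s k1 k2 0 (.s k90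
  k80 2 (.d k169 k248 k253 12 13))), (.s k4 k166 12 (.s k7 k87 11 (.s k6 k5 0 (.d k12 k8 k9 1 2))))]
  .n) .n))) .n)))) (.c k167 (.q k91 [(.s k1 k2 0 (.s k87 k83 1 (.s k86 k84 0 (.d k169 k253 k252 13
  14)))), (.s k80 k90 2 (.s k83 k87 1 (.s k82 k81 0 (.d k240 k160 k161 11 12)))), (.s k1 k2 0 (.s
  k65 k125 5 (.s k129 k193 7 (.s k66 k192 8 (.s k67 k64 0 (.d k195 k131 k130 7 8))))))] (.c k163 (.q
  k171 [(.s k1 k2 0 (.s k87 k83 1 (.s k86 k84 0 (.d k169 k253 k252 13 14)))), (.s k80 k90 2 (.s k83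
  k87 1 (.s k82 k81 0 (.d k240 k160 k161 11 12)))), (.s k1 k2 0 (.s k90 k80 2 (.s k169 k253 13 (.d
  k11 k251 k248 11 12))))] (.c k247 (.l (.s k251 k11 11 (.s k1 k2 0 (.s k87 k83 1 (.s k86 k84 0 (.d
  k169 k253 k252 13 14)))))) (.c k251 (.q k247 [(.s k1 k2 0 (.s k87 k83 1 (.s k86 k84 0 (.d k169
  k253 k252 13 14)))), (.s k80 k90 2 (.s k83 k87 1 (.s k82 k81 0 (.d k240 k160 k161 11 12)))), (.s
  k1 k2 0 (.s k169 k253 13 (.s k168 k170 0 (.d k252 k86 k84 14 13))))] .n) .n))) (.c k171 (.q k163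
  [(.s k1 k2 0 (.s k87 k83 1 (.s k86 k84 0 (.d k169 k253 k252 13 14)))), (.s k80 k90 2 (.s k83 k87 1
  (.s k82 k81 0 (.d k240 k160 k161 11 12)))), (.s k1 k2 0 (.s k65 k125 5 (.s k129 k193 7 (.s k66
  k192 8 (.s k67 k64 0 (.d k195 k131 k130 7 8))))))] (.c k247 (.q k251 [(.s k1 k2 0 (.s k87 k83 1
  (.s k86 k84 0 (.d k169 k253 k252 13 14)))), (.s k80 k90 2 (.s k240 k160 11 (.s k82 k161 12 (.d k83
  k87 k81 1 0))))] (.c k7 (.l (.s k87 k83 1 (.s k1 k2 0 (.s k86 k84 0 (.d k169 k253 k252 13 14)))))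
  (.c k83 (.l (.s k1 k2 0 (.s k65 k125 5 (.s k129 k193 7 (.s k66 k192 8 (.s k67 k64 0 (.d k195 k131
  k130 7 8))))))) (.c k87 (.q k7 [(.s k1 k2 0 (.s k90 k80 2 (.s k89 k88 0 (.s k169 k253 13 (.s k248
  k11 12 (.d k249 k250 k9 0 11)))))), (.s k1 k2 0 (.s k65 k125 5 (.s k129 k193 7 (.s k66 k192 8 (.s
  k67 k64 0 (.d k195 k131 k130 7 8)))))), (.s k90 k80 2 (.s k75 k120 4 (.s k89 k88 0 (.s k73 k121 3
  (.s k72 k74 0 (.d k123 k107 k106 3 4))))))] .n) .n)))) (.c k251 (.q k247 [(.s k1 k2 0 (.s k166 k4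
  12 (.d k169 k172 k253 2 13))), (.s k80 k90 2 (.s k83 k87 1 (.s k82 k81 0 (.d k240 k160 k161 11
  12))))] .n) .n))) (.c k247 (.q k251 [(.s k1 k2 0 (.s k87 k83 1 (.s k86 k84 0 (.d k169 k253 k252 13
  14)))), (.s k80 k90 2 (.s k240 k160 11 (.s k82 k161 12 (.d k83 k87 k81 1 0))))] (.c k7 (.l (.s k87
  k83 1 (.s k1 k2 0 (.s k86 k84 0 (.d k169 k253 k252 13 14))))) (.c k83 (.l (.s k1 k2 0 (.s k90 k80
  2 (.s k169 k253 13 (.d k11 k171 k248 11 12))))) (.c k87 (.q k7 [(.s k1 k2 0 (.s k90 k80 2 (.s k169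
  k253 13 (.d k11 k171 k248 11 12)))), (.s k90 k80 2 (.s k75 k120 4 (.s k89 k88 0 (.s k73 k121 3 (.s
  k72 k74 0 (.d k123 k107 k106 3 4)))))), (.s k1 k2 0 (.s k65 k125 5 (.s k129 k193 7 (.s k66 k192 8
  (.s k67 k64 0 (.d k195 k131 k130 7 8))))))] (.c k163 (.l (.s k171 k11 11 (.s k1 k2 0 (.s k169 k253
  13 (.s k168 k170 0 (.d k252 k86 k84 14 13)))))) (.c k171 (.q k163 [(.s k1 k2 0 (.s k90 k80 2 (.s
  k89 k88 0 (.s k169 k253 13 (.s k248 k11 12 (.d k249 k250 k9 0 11)))))), (.s k1 k2 0 (.s k65 k125 5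
  (.s k129 k193 7 (.s k66 k192 8 (.s k67 k64 0 (.d k195 k131 k130 7 8)))))), (.s k90 k80 2 (.s k75
  k120 4 (.s k89 k88 0 (.s k73 k121 3 (.s k72 k74 0 (.d k123 k107 k106 3 4))))))] .n) .n))) (.c k163
  (.l (.s k171 k11 11 (.s k1 k2 0 (.s k87 k83 1 (.s k86 k84 0 (.d k169 k253 k252 13 14)))))) (.c
  k171 (.q k163 [(.s k1 k2 0 (.s k87 k83 1 (.s k86 k84 0 (.d k169 k253 k252 13 14)))), (.s k80 k90 2
  (.s k240 k160 11 (.s k82 k161 12 (.d k83 k87 k81 1 0))))] (.c k7 (.l (.s k87 k83 1 (.s k1 k2 0 (.s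
  k86 k84 0 (.d k169 k253 k252 13 14))))) (.c k83 (.l (.s k1 k2 0 (.s k65 k125 5 (.s k129 k193 7 (.s
  k66 k192 8 (.s k67 k64 0 (.d k195 k131 k130 7 8))))))) (.c k87 (.q k7 [(.s k1 k2 0 (.s k90 k80 2
  (.s k89 k88 0 (.s k169 k253 13 (.s k248 k11 12 (.d k249 k250 k9 0 11)))))), (.s k1 k2 0 (.s k65
  k125 5 (.s k129 k193 7 (.s k66 k192 8 (.s k67 k64 0 (.d k195 k131 k130 7 8)))))), (.s k90 k80 2
  (.s k75 k120 4 (.s k89 k88 0 (.s k73 k121 3 (.s k72 k74 0 (.d k123 k107 k106 3 4))))))] .n) .n))))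
  .n)))))) (.c k251 (.q k247 [(.s k1 k2 0 (.s k87 k83 1 (.s k86 k84 0 (.d k169 k253 k252 13 14)))),
  (.s k80 k90 2 (.s k83 k87 1 (.s k82 k81 0 (.d k240 k160 k161 11 12)))), (.s k1 k2 0 (.s k65 k125 5
  (.s k129 k193 7 (.s k66 k192 8 (.s k67 k64 0 (.d k195 k131 k130 7 8))))))] (.c k163 (.q k171 [(.s
  k1 k2 0 (.s k87 k83 1 (.s k86 k84 0 (.d k169 k253 k252 13 14)))), (.s k80 k90 2 (.s k83 k87 1 (.s
  k82 k81 0 (.d k240 k160 k161 11 12)))), (.s k1 k2 0 (.s k169 k253 13 (.s k168 k170 0 (.d k252 k86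
  k84 14 13))))] .n) (.c k171 (.q k163 [(.s k1 k2 0 (.s k166 k4 12 (.d k169 k172 k253 2 13))), (.s
  k80 k90 2 (.s k83 k87 1 (.s k82 k81 0 (.d k240 k160 k161 11 12))))] .n) .n))) .n))))) (.c k169 (.l
  (.s k1 k2 0 (.s k65 k125 5 (.s k129 k193 7 (.s k66 k192 8 (.s k67 k64 0 (.d k195 k131 k130 7
  8))))))) (.c k247 (.q k251 [(.s k1 k2 0 (.s k125 k65 5 (.s k253 k169 13 (.s k61 k189 7 (.s k21 k41
  5 (.d k149 k213 k193 7 13)))))), (.s k65 k125 5 (.s k195 k130 8 (.s k67 k131 7 (.s k86 k124 6 (.s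
  k84 k87 0 (.d k252 k168 k169 13 14)))))), (.s k1 k2 0 (.s k169 k253 13 (.s k41 k233 7 (.s k60 k22
  6 (.s k20 k40 5 (.d k150 k215 k195 8 14))))))] (.c k91 (.q k167 [(.s k1 k2 0 (.s k125 k65 5 (.s
  k253 k169 13 (.s k61 k189 7 (.s k21 k41 5 (.d k149 k213 k193 7 13)))))), (.s k65 k125 5 (.s k195
  k130 8 (.s k67 k131 7 (.s k86 k124 6 (.s k84 k87 0 (.d k252 k168 k169 13 14)))))), (.s k1 k2 0 (.s
  k169 k253 13 (.s k41 k233 7 (.s k60 k22 6 (.s k20 k40 5 (.d k150 k215 k195 8 14))))))] (.c k169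
  (.l (.s k1 k2 0 (.s k65 k125 5 (.s k129 k193 7 (.s k66 k192 8 (.s k67 k64 0 (.d k195 k131 k130 7
  8))))))) .n)) (.c k167 (.q k91 [(.s k1 k2 0 (.s k87 k83 1 (.s k86 k84 0 (.d k169 k253 k252 13
  14)))), (.s k80 k90 2 (.s k240 k160 11 (.s k82 k161 12 (.d k83 k87 k81 1 0))))] (.c k7 (.l (.s k87
  k83 1 (.s k1 k2 0 (.s k86 k84 0 (.d k169 k253 k252 13 14))))) (.c k83 (.l (.s k1 k2 0 (.s k90 k80
  2 (.s k169 k253 13 (.d k11 k171 k248 11 12))))) (.c k87 (.q k7 [(.s k1 k2 0 (.s k90 k80 2 (.s k169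
  k253 13 (.d k11 k171 k248 11 12)))), (.s k90 k80 2 (.s k75 k120 4 (.s k89 k88 0 (.s k73 k121 3 (.s
  k72 k74 0 (.d k123 k107 k106 3 4)))))), (.s k1 k2 0 (.s k65 k125 5 (.s k129 k193 7 (.s k66 k192 8
  (.s k67 k64 0 (.d k195 k131 k130 7 8))))))] (.c k163 (.l (.s k171 k11 11 (.s k1 k2 0 (.s k169 k253
  13 (.s k168 k170 0 (.d k252 k86 k84 14 13)))))) (.c k171 (.q k163 [(.s k1 k2 0 (.s k90 k80 2 (.s
  k89 k88 0 (.s k169 k253 13 (.s k248 k11 12 (.d k249 k250 k9 0 11)))))), (.s k1 k2 0 (.s k65 k125 5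
  (.s k129 k193 7 (.s k66 k192 8 (.s k67 k64 0 (.d k195 k131 k130 7 8)))))), (.s k90 k80 2 (.s k75
  k120 4 (.s k89 k88 0 (.s k73 k121 3 (.s k72 k74 0 (.d k123 k107 k106 3 4))))))] .n) .n))) (.c k163
  (.l (.s k171 k11 11 (.s k1 k2 0 (.s k87 k83 1 (.s k86 k84 0 (.d k169 k253 k252 13 14)))))) (.c
  k171 (.q k163 [(.s k1 k2 0 (.s k87 k83 1 (.s k86 k84 0 (.d k169 k253 k252 13 14)))), (.s k80 k90 2
  (.s k240 k160 11 (.s k82 k161 12 (.d k83 k87 k81 1 0))))] (.c k7 (.l (.s k87 k83 1 (.s k1 k2 0 (.s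
  k86 k84 0 (.d k169 k253 k252 13 14))))) (.c k83 (.l (.s k1 k2 0 (.s k65 k125 5 (.s k129 k193 7 (.s
  k66 k192 8 (.s k67 k64 0 (.d k195 k131 k130 7 8))))))) (.c k87 (.q k7 [(.s k1 k2 0 (.s k90 k80 2
  (.s k89 k88 0 (.s k169 k253 13 (.s k248 k11 12 (.d k249 k250 k9 0 11)))))), (.s k1 k2 0 (.s k65
  k125 5 (.s k129 k193 7 (.s k66 k192 8 (.s k67 k64 0 (.d k195 k131 k130 7 8)))))), (.s k90 k80 2
  (.s k75 k120 4 (.s k89 k88 0 (.s k73 k121 3 (.s k72 k74 0 (.d k123 k107 k106 3 4))))))] .n) .n))))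
  .n)))))) (.c k169 (.l (.s k1 k2 0 (.s k65 k125 5 (.s k129 k193 7 (.s k66 k192 8 (.s k67 k64 0 (.d
  k195 k131 k130 7 8))))))) .n)))) (.c k251 (.q k247 [(.s k1 k2 0 (.s k125 k65 5 (.s k253 k169 13
  (.s k61 k189 7 (.s k21 k41 5 (.d k149 k213 k193 7 13)))))), (.s k65 k125 5 (.s k195 k130 8 (.s k67
  k131 7 (.s k86 k124 6 (.s k84 k87 0 (.d k252 k168 k169 13 14)))))), (.s k1 k2 0 (.s k169 k253 13
  (.s k41 k233 7 (.s k60 k22 6 (.s k20 k40 5 (.d k150 k215 k195 8 14))))))] (.c k91 (.q k167 [(.s k1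
  k2 0 (.s k87 k7 11 (.s k86 k84 0 (.d k169 k253 k252 13 14)))), (.s k4 k166 12 (.s k7 k87 11 (.s k6
  k5 0 (.d k12 k8 k9 1 2)))), (.s k1 k2 0 (.s k65 k125 5 (.s k129 k193 7 (.s k66 k192 8 (.s k67 k64
  0 (.d k195 k131 k130 7 8))))))] (.c k11 (.q k171 [(.s k1 k2 0 (.s k87 k7 11 (.s k86 k84 0 (.d k169
  k253 k252 13 14)))), (.s k4 k166 12 (.s k7 k87 11 (.s k6 k5 0 (.d k12 k8 k9 1 2)))), (.s k1 k2 0
  (.s k169 k253 13 (.s k168 k170 0 (.d k252 k86 k84 14 13))))] .n) (.c k171 (.q k11 [(.s k1 k2 0 (.s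
  k90 k80 2 (.d k169 k248 k253 12 13))), (.s k4 k166 12 (.s k7 k87 11 (.s k6 k5 0 (.d k12 k8 k9 1
  2))))] .n) .n))) (.c k167 (.q k91 [(.s k1 k2 0 (.s k87 k83 1 (.s k86 k84 0 (.d k169 k253 k252 13
  14)))), (.s k80 k90 2 (.s k83 k87 1 (.s k82 k81 0 (.d k240 k160 k161 11 12)))), (.s k1 k2 0 (.s
  k65 k125 5 (.s k129 k193 7 (.s k66 k192 8 (.s k67 k64 0 (.d k195 k131 k130 7 8))))))] (.c k163 (.q
  k171 [(.s k1 k2 0 (.s k87 k83 1 (.s k86 k84 0 (.d k169 k253 k252 13 14)))), (.s k80 k90 2 (.s k83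
  k87 1 (.s k82 k81 0 (.d k240 k160 k161 11 12)))), (.s k1 k2 0 (.s k169 k253 13 (.s k168 k170 0 (.d
  k252 k86 k84 14 13))))] .n) (.c k171 (.q k163 [(.s k1 k2 0 (.s k166 k4 12 (.d k169 k172 k253 2
  13))), (.s k80 k90 2 (.s k83 k87 1 (.s k82 k81 0 (.d k240 k160 k161 11 12))))] .n) .n))) (.c k169
  (.l (.s k1 k2 0 (.s k65 k125 5 (.s k129 k193 7 (.s k66 k192 8 (.s k67 k64 0 (.d k195 k131 k130 7
  8))))))) .n)))) .n)))))) (.c k247 (.q k251 [(.s k1 k2 0 (.s k125 k65 5 (.s k253 k169 13 (.s k61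
  k189 7 (.s k21 k41 5 (.d k149 k213 k193 7 13)))))), (.s k65 k125 5 (.s k195 k130 8 (.s k67 k131 7
  (.s k86 k124 6 (.s k84 k87 0 (.d k252 k168 k169 13 14)))))), (.s k1 k2 0 (.s k169 k253 13 (.s k41
  k233 7 (.s k60 k22 6 (.s k20 k40 5 (.d k150 k215 k195 8 14))))))] (.c k91 (.q k167 [(.s k1 k2 0
  (.s k125 k65 5 (.s k253 k169 13 (.s k61 k189 7 (.s k21 k41 5 (.d k149 k213 k193 7 13)))))), (.s
  k65 k125 5 (.s k195 k130 8 (.s k67 k131 7 (.s k86 k124 6 (.s k84 k87 0 (.d k252 k168 k169 13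
  14)))))), (.s k1 k2 0 (.s k169 k253 13 (.s k41 k233 7 (.s k60 k22 6 (.s k20 k40 5 (.d k150 k215
  k195 8 14))))))] (.c k95 (.q k175 [(.s k1 k2 0 (.s k169 k253 13 (.s k171 k163 1 (.s k168 k170 0
  (.d k252 k86 k84 14 13))))), (.s k1 k2 0 (.s k65 k125 5 (.s k129 k193 7 (.s k66 k192 8 (.s k67 k64
  0 (.d k195 k131 k130 7 8)))))), (.s k65 k125 5 (.s k195 k130 8 (.s k67 k131 7 (.s k86 k124 6 (.s
  k252 k169 14 (.d k84 k87 k168 0 13))))))] (.c k83 (.q k87 [(.s k1 k2 0 (.s k86 k84 0 (.d k169 k253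
  k252 13 14))), (.s k65 k125 5 (.s k195 k130 8 (.s k67 k131 7 (.s k64 k66 0 (.d k127 k107 k106 5
  6)))))] (.c k2 (.l (.s k65 k125 5 (.s k86 k84 0 (.s k67 k124 6 (.d k195 k131 k130 7 8))))) .n))
  (.c k87 (.q k83 [(.s k1 k2 0 (.s k169 k253 13 (.s k171 k163 1 (.s k168 k170 0 (.d k252 k86 k84 14
  13))))), (.s k65 k125 5 (.s k163 k171 1 (.s k195 k130 8 (.s k67 k131 7 (.s k99 k115 3 (.s k35 k227
  7 (.d k51 k19 k147 3 11))))))), (.s k1 k2 0 (.s k65 k125 5 (.s k129 k193 7 (.s k66 k192 8 (.s k67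
  k64 0 (.d k195 k131 k130 7 8))))))] .n) .n))) (.c k169 (.l (.s k1 k2 0 (.s k65 k125 5 (.s k129
  k193 7 (.s k66 k192 8 (.s k67 k64 0 (.d k195 k131 k130 7 8))))))) (.c k175 (.q k95 [(.s k1 k2 0
  (.s k125 k65 5 (.s k253 k169 13 (.s k61 k189 7 (.s k21 k41 5 (.d k149 k213 k193 7 13)))))), (.s
  k65 k125 5 (.s k195 k130 8 (.s k67 k131 7 (.s k86 k124 6 (.s k84 k87 0 (.d k252 k168 k169 13
  14)))))), (.s k1 k2 0 (.s k169 k253 13 (.s k41 k233 7 (.s k60 k22 6 (.s k20 k40 5 (.d k150 k215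
  k195 8 14))))))] (.c k169 (.l (.s k1 k2 0 (.s k65 k125 5 (.s k129 k193 7 (.s k66 k192 8 (.s k67
  k64 0 (.d k195 k131 k130 7 8))))))) .n)) .n)))) (.c k95 (.q k175 [(.s k1 k2 0 (.s k125 k65 5 (.s
  k253 k169 13 (.s k61 k189 7 (.s k21 k41 5 (.d k149 k213 k193 7 13)))))), (.s k65 k125 5 (.s k195
  k130 8 (.s k67 k131 7 (.s k86 k124 6 (.s k84 k87 0 (.d k252 k168 k169 13 14)))))), (.s k1 k2 0 (.s
  k169 k253 13 (.s k41 k233 7 (.s k60 k22 6 (.s k20 k40 5 (.d k150 k215 k195 8 14))))))] (.c k91 (.q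
  k167 [(.s k1 k2 0 (.s k169 k253 13 (.s k171 k163 1 (.s k168 k170 0 (.d k252 k86 k84 14 13))))),
  (.s k1 k2 0 (.s k65 k125 5 (.s k129 k193 7 (.s k66 k192 8 (.s k67 k64 0 (.d k195 k131 k130 7
  8)))))), (.s k65 k125 5 (.s k195 k130 8 (.s k67 k131 7 (.s k86 k124 6 (.s k252 k169 14 (.d k84 k87
  k168 0 13))))))] (.c k83 (.q k87 [(.s k1 k2 0 (.s k86 k84 0 (.d k169 k253 k252 13 14))), (.s k65
  k125 5 (.s k195 k130 8 (.s k67 k131 7 (.s k64 k66 0 (.d k127 k107 k106 5 6)))))] (.c k2 (.l (.s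
  k65 k125 5 (.s k86 k84 0 (.s k67 k124 6 (.d k195 k131 k130 7 8))))) .n)) (.c k87 (.q k83 [(.s k1
  k2 0 (.s k169 k253 13 (.s k171 k163 1 (.s k168 k170 0 (.d k252 k86 k84 14 13))))), (.s k65 k125 5
  (.s k163 k171 1 (.s k195 k130 8 (.s k67 k131 7 (.s k99 k115 3 (.s k35 k227 7 (.d k51 k19 k147 3
  11))))))), (.s k1 k2 0 (.s k65 k125 5 (.s k129 k193 7 (.s k66 k192 8 (.s k67 k64 0 (.d k195 k131
  k130 7 8))))))] .n) .n))) (.c k167 (.q k91 [(.s k1 k2 0 (.s k169 k253 13 (.s k171 k11 11 (.s k168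
  k170 0 (.d k252 k86 k84 14 13))))), (.s k1 k2 0 (.s k65 k125 5 (.s k129 k193 7 (.s k66 k192 8 (.s
  k67 k64 0 (.d k195 k131 k130 7 8)))))), (.s k65 k125 5 (.s k195 k130 8 (.s k67 k131 7 (.s k86 k124
  6 (.s k252 k169 14 (.d k84 k87 k168 0 13))))))] (.c k7 (.q k87 [(.s k1 k2 0 (.s k86 k84 0 (.d k169
  k253 k252 13 14))), (.s k65 k125 5 (.s k195 k130 8 (.s k67 k131 7 (.s k64 k66 0 (.d k127 k107 k106
  5 6)))))] (.c k2 (.l (.s k65 k125 5 (.s k86 k84 0 (.s k67 k124 6 (.d k195 k131 k130 7 8))))) .n))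
  (.c k87 (.q k7 [(.s k1 k2 0 (.s k169 k253 13 (.s k171 k11 11 (.s k168 k170 0 (.d k252 k86 k84 14
  13))))), (.s k1 k2 0 (.s k65 k125 5 (.s k129 k193 7 (.s k66 k192 8 (.s k67 k64 0 (.d k195 k131
  k130 7 8)))))), (.s k65 k125 5 (.s k195 k130 8 (.s k60 k150 14 (.s k41 k22 6 (.s k67 k131 7 (.s
  k86 k124 6 (.d k169 k233 k252 7 14)))))))] .n) .n))) (.c k169 (.l (.s k1 k2 0 (.s k65 k125 5 (.s
  k129 k193 7 (.s k66 k192 8 (.s k67 k64 0 (.d k195 k131 k130 7 8))))))) .n)))) (.c k167 (.q k91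
  [(.s k1 k2 0 (.s k169 k253 13 (.s k171 k11 11 (.s k168 k170 0 (.d k252 k86 k84 14 13))))), (.s k1
  k2 0 (.s k65 k125 5 (.s k129 k193 7 (.s k66 k192 8 (.s k67 k64 0 (.d k195 k131 k130 7 8)))))), (.s
  k65 k125 5 (.s k195 k130 8 (.s k67 k131 7 (.s k86 k124 6 (.s k252 k169 14 (.d k84 k87 k168 0
  13))))))] (.c k7 (.q k87 [(.s k1 k2 0 (.s k86 k84 0 (.d k169 k253 k252 13 14))), (.s k65 k125 5
  (.s k86 k84 0 (.s k67 k124 6 (.d k195 k131 k130 7 8)))), (.s k1 k2 0 (.s k11 k171 11 (.s k95 k83 1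
  (.s k90 k80 2 (.d k169 k248 k253 12 13)))))] (.c k95 (.q k175 [(.s k1 k2 0 (.s k86 k84 0 (.d k169
  k253 k252 13 14))), (.s k65 k125 5 (.s k195 k130 8 (.s k67 k131 7 (.s k64 k66 0 (.d k127 k107 k106
  5 6)))))] (.c k2 (.l (.s k65 k125 5 (.s k86 k84 0 (.s k67 k124 6 (.d k195 k131 k130 7 8))))) .n))
  (.c k175 (.l (.s k95 k83 1 (.s k1 k2 0 (.s k86 k84 0 (.d k169 k253 k252 13 14))))) .n))) (.c k87
  (.q k7 [(.s k1 k2 0 (.s k169 k253 13 (.s k171 k11 11 (.s k168 k170 0 (.d k252 k86 k84 14 13))))),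
  (.s k1 k2 0 (.s k65 k125 5 (.s k129 k193 7 (.s k66 k192 8 (.s k67 k64 0 (.d k195 k131 k130 7
  8)))))), (.s k65 k125 5 (.s k195 k130 8 (.s k60 k150 14 (.s k41 k22 6 (.s k67 k131 7 (.s k86 k124
  6 (.d k169 k233 k252 7 14)))))))] (.c k95 (.q k175 [(.s k1 k2 0 (.s k169 k253 13 (.s k171 k11 11
  (.s k168 k170 0 (.d k252 k86 k84 14 13))))), (.s k1 k2 0 (.s k65 k125 5 (.s k129 k193 7 (.s k66
  k192 8 (.s k67 k64 0 (.d k195 k131 k130 7 8)))))), (.s k65 k125 5 (.s k195 k130 8 (.s k60 k150 14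
  (.s k41 k22 6 (.s k67 k131 7 (.s k86 k124 6 (.d k169 k233 k252 7 14)))))))] .n) (.c k175 (.q k95
  [(.s k1 k2 0 (.s k90 k80 2 (.s k169 k253 13 (.d k11 k171 k248 11 12)))), (.s k90 k80 2 (.s k75
  k120 4 (.s k89 k88 0 (.s k73 k121 3 (.s k72 k74 0 (.d k123 k107 k106 3 4)))))), (.s k1 k2 0 (.s
  k65 k125 5 (.s k129 k193 7 (.s k66 k192 8 (.s k67 k64 0 (.d k195 k131 k130 7 8))))))] (.c k163 (.l
  (.s k171 k11 11 (.s k1 k2 0 (.s k169 k253 13 (.s k168 k170 0 (.d k252 k86 k84 14 13)))))) (.c k171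
  (.q k163 [(.s k1 k2 0 (.s k90 k80 2 (.s k89 k88 0 (.s k169 k253 13 (.s k248 k11 12 (.d k249 k250
  k9 0 11)))))), (.s k1 k2 0 (.s k65 k125 5 (.s k129 k193 7 (.s k66 k192 8 (.s k67 k64 0 (.d k195
  k131 k130 7 8)))))), (.s k90 k80 2 (.s k75 k120 4 (.s k89 k88 0 (.s k73 k121 3 (.s k72 k74 0 (.d
  k123 k107 k106 3 4))))))] .n) .n))) .n))) (.c k95 (.q k175 [(.s k1 k2 0 (.s k169 k253 13 (.s k171
  k11 11 (.s k168 k170 0 (.d k252 k86 k84 14 13))))), (.s k1 k2 0 (.s k65 k125 5 (.s k129 k193 7 (.s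
  k66 k192 8 (.s k67 k64 0 (.d k195 k131 k130 7 8)))))), (.s k65 k125 5 (.s k195 k130 8 (.s k67 k131
  7 (.s k86 k124 6 (.s k252 k169 14 (.d k84 k87 k168 0 13))))))] (.c k7 (.q k87 [(.s k1 k2 0 (.s k86
  k84 0 (.d k169 k253 k252 13 14))), (.s k65 k125 5 (.s k195 k130 8 (.s k67 k131 7 (.s k64 k66 0 (.d
  k127 k107 k106 5 6)))))] (.c k2 (.l (.s k65 k125 5 (.s k86 k84 0 (.s k67 k124 6 (.d k195 k131 k130
  7 8))))) .n)) (.c k87 (.q k7 [(.s k1 k2 0 (.s k169 k253 13 (.s k171 k11 11 (.s k168 k170 0 (.d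
  k252 k86 k84 14 13))))), (.s k1 k2 0 (.s k65 k125 5 (.s k129 k193 7 (.s k66 k192 8 (.s k67 k64 0
  (.d k195 k131 k130 7 8)))))), (.s k65 k125 5 (.s k195 k130 8 (.s k60 k150 14 (.s k41 k22 6 (.s k67
  k131 7 (.s k86 k124 6 (.d k169 k233 k252 7 14)))))))] .n) .n))) (.c k175 (.q k95 [(.s k1 k2 0 (.s
  k87 k83 1 (.s k86 k84 0 (.d k169 k253 k252 13 14)))), (.s k80 k90 2 (.s k240 k160 11 (.s k82 k161
  12 (.d k83 k87 k81 1 0))))] (.c k7 (.l (.s k87 k83 1 (.s k1 k2 0 (.s k86 k84 0 (.d k169 k253 k252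
  13 14))))) (.c k83 (.l (.s k1 k2 0 (.s k90 k80 2 (.s k169 k253 13 (.d k11 k171 k248 11 12))))) (.c
  k87 (.q k7 [(.s k1 k2 0 (.s k90 k80 2 (.s k169 k253 13 (.d k11 k171 k248 11 12)))), (.s k90 k80 2
  (.s k75 k120 4 (.s k89 k88 0 (.s k73 k121 3 (.s k72 k74 0 (.d k123 k107 k106 3 4)))))), (.s k1 k2
  0 (.s k65 k125 5 (.s k129 k193 7 (.s k66 k192 8 (.s k67 k64 0 (.d k195 k131 k130 7 8))))))] (.c
  k163 (.l (.s k171 k11 11 (.s k1 k2 0 (.s k169 k253 13 (.s k168 k170 0 (.d k252 k86 k84 14 13))))))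
  (.c k171 (.q k163 [(.s k1 k2 0 (.s k90 k80 2 (.s k89 k88 0 (.s k169 k253 13 (.s k248 k11 12 (.d
  k249 k250 k9 0 11)))))), (.s k1 k2 0 (.s k65 k125 5 (.s k129 k193 7 (.s k66 k192 8 (.s k67 k64 0
  (.d k195 k131 k130 7 8)))))), (.s k90 k80 2 (.s k75 k120 4 (.s k89 k88 0 (.s k73 k121 3 (.s k72
  k74 0 (.d k123 k107 k106 3 4))))))] .n) .n))) (.c k163 (.l (.s k171 k11 11 (.s k1 k2 0 (.s k87 k83
  1 (.s k86 k84 0 (.d k169 k253 k252 13 14)))))) (.c k171 (.q k163 [(.s k1 k2 0 (.s k87 k83 1 (.s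
  k86 k84 0 (.d k169 k253 k252 13 14)))), (.s k80 k90 2 (.s k240 k160 11 (.s k82 k161 12 (.d k83 k87
  k81 1 0))))] (.c k7 (.l (.s k87 k83 1 (.s k1 k2 0 (.s k86 k84 0 (.d k169 k253 k252 13 14))))) (.c
  k83 (.l (.s k1 k2 0 (.s k65 k125 5 (.s k129 k193 7 (.s k66 k192 8 (.s k67 k64 0 (.d k195 k131 k130
  7 8))))))) (.c k87 (.q k7 [(.s k1 k2 0 (.s k90 k80 2 (.s k89 k88 0 (.s k169 k253 13 (.s k248 k11
  12 (.d k249 k250 k9 0 11)))))), (.s k1 k2 0 (.s k65 k125 5 (.s k129 k193 7 (.s k66 k192 8 (.s k67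
  k64 0 (.d k195 k131 k130 7 8)))))), (.s k90 k80 2 (.s k75 k120 4 (.s k89 k88 0 (.s k73 k121 3 (.s
  k72 k74 0 (.d k123 k107 k106 3 4))))))] .n) .n)))) .n)))))) .n))))) (.c k169 (.l (.s k1 k2 0 (.s
  k65 k125 5 (.s k129 k193 7 (.s k66 k192 8 (.s k67 k64 0 (.d k195 k131 k130 7 8))))))) (.c k175 (.q
  k95 [(.s k1 k2 0 (.s k125 k65 5 (.s k253 k169 13 (.s k61 k189 7 (.s k21 k41 5 (.d k149 k213 k193 7
  13)))))), (.s k65 k125 5 (.s k195 k130 8 (.s k67 k131 7 (.s k86 k124 6 (.s k84 k87 0 (.d k252 k168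
  k169 13 14)))))), (.s k1 k2 0 (.s k169 k253 13 (.s k41 k233 7 (.s k60 k22 6 (.s k20 k40 5 (.d k150
  k215 k195 8 14))))))] (.c k91 (.q k167 [(.s k1 k2 0 (.s k125 k65 5 (.s k253 k169 13 (.s k61 k189 7
  (.s k21 k41 5 (.d k149 k213 k193 7 13)))))), (.s k65 k125 5 (.s k195 k130 8 (.s k67 k131 7 (.s k86
  k124 6 (.s k84 k87 0 (.d k252 k168 k169 13 14)))))), (.s k1 k2 0 (.s k169 k253 13 (.s k41 k233 7
  (.s k60 k22 6 (.s k20 k40 5 (.d k150 k215 k195 8 14))))))] (.c k169 (.l (.s k1 k2 0 (.s k65 k125 5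
  (.s k129 k193 7 (.s k66 k192 8 (.s k67 k64 0 (.d k195 k131 k130 7 8))))))) .n)) (.c k167 (.q k91
  [(.s k1 k2 0 (.s k87 k83 1 (.s k86 k84 0 (.d k169 k253 k252 13 14)))), (.s k80 k90 2 (.s k240 k160
  11 (.s k82 k161 12 (.d k83 k87 k81 1 0))))] (.c k7 (.l (.s k87 k83 1 (.s k1 k2 0 (.s k86 k84 0 (.d
  k169 k253 k252 13 14))))) (.c k83 (.l (.s k1 k2 0 (.s k90 k80 2 (.s k169 k253 13 (.d k11 k171 k248
  11 12))))) (.c k87 (.q k7 [(.s k1 k2 0 (.s k90 k80 2 (.s k169 k253 13 (.d k11 k171 k248 11 12)))),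
  (.s k90 k80 2 (.s k75 k120 4 (.s k89 k88 0 (.s k73 k121 3 (.s k72 k74 0 (.d k123 k107 k106 3
  4)))))), (.s k1 k2 0 (.s k65 k125 5 (.s k129 k193 7 (.s k66 k192 8 (.s k67 k64 0 (.d k195 k131
  k130 7 8))))))] (.c k163 (.l (.s k171 k11 11 (.s k1 k2 0 (.s k169 k253 13 (.s k168 k170 0 (.d k252
  k86 k84 14 13)))))) (.c k171 (.q k163 [(.s k1 k2 0 (.s k90 k80 2 (.s k89 k88 0 (.s k169 k253 13
  (.s k248 k11 12 (.d k249 k250 k9 0 11)))))), (.s k1 k2 0 (.s k65 k125 5 (.s k129 k193 7 (.s k66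
  k192 8 (.s k67 k64 0 (.d k195 k131 k130 7 8)))))), (.s k90 k80 2 (.s k75 k120 4 (.s k89 k88 0 (.s
  k73 k121 3 (.s k72 k74 0 (.d k123 k107 k106 3 4))))))] .n) .n))) (.c k163 (.l (.s k171 k11 11 (.s
  k1 k2 0 (.s k87 k83 1 (.s k86 k84 0 (.d k169 k253 k252 13 14)))))) (.c k171 (.q k163 [(.s k1 k2 0
  (.s k87 k83 1 (.s k86 k84 0 (.d k169 k253 k252 13 14)))), (.s k80 k90 2 (.s k240 k160 11 (.s k82
  k161 12 (.d k83 k87 k81 1 0))))] (.c k7 (.l (.s k87 k83 1 (.s k1 k2 0 (.s k86 k84 0 (.d k169 k253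
  k252 13 14))))) (.c k83 (.l (.s k1 k2 0 (.s k65 k125 5 (.s k129 k193 7 (.s k66 k192 8 (.s k67 k64
  0 (.d k195 k131 k130 7 8))))))) (.c k87 (.q k7 [(.s k1 k2 0 (.s k90 k80 2 (.s k89 k88 0 (.s k169
  k253 13 (.s k248 k11 12 (.d k249 k250 k9 0 11)))))), (.s k1 k2 0 (.s k65 k125 5 (.s k129 k193 7
  (.s k66 k192 8 (.s k67 k64 0 (.d k195 k131 k130 7 8)))))), (.s k90 k80 2 (.s k75 k120 4 (.s k89
  k88 0 (.s k73 k121 3 (.s k72 k74 0 (.d k123 k107 k106 3 4))))))] .n) .n)))) .n)))))) (.c k169 (.l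
  (.s k1 k2 0 (.s k65 k125 5 (.s k129 k193 7 (.s k66 k192 8 (.s k67 k64 0 (.d k195 k131 k130 7
  8))))))) .n)))) .n)))))) (.c k251 (.q k247 [(.s k1 k2 0 (.s k125 k65 5 (.s k253 k169 13 (.s k61
  k189 7 (.s k21 k41 5 (.d k149 k213 k193 7 13)))))), (.s k65 k125 5 (.s k195 k130 8 (.s k67 k131 7
  (.s k86 k124 6 (.s k84 k87 0 (.d k252 k168 k169 13 14)))))), (.s k1 k2 0 (.s k169 k253 13 (.s k41
  k233 7 (.s k60 k22 6 (.s k20 k40 5 (.d k150 k215 k195 8 14))))))] (.c k91 (.q k167 [(.s k1 k2 0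
  (.s k87 k7 11 (.s k86 k84 0 (.d k169 k253 k252 13 14)))), (.s k4 k166 12 (.s k7 k87 11 (.s k6 k5 0
  (.d k12 k8 k9 1 2)))), (.s k1 k2 0 (.s k65 k125 5 (.s k129 k193 7 (.s k66 k192 8 (.s k67 k64 0 (.d
  k195 k131 k130 7 8))))))] (.c k11 (.q k171 [(.s k1 k2 0 (.s k87 k7 11 (.s k86 k84 0 (.d k169 k253
  k252 13 14)))), (.s k4 k166 12 (.s k7 k87 11 (.s k6 k5 0 (.d k12 k8 k9 1 2)))), (.s k1 k2 0 (.s
  k166 k4 12 (.s k169 k253 13 (.d k163 k175 k172 1 2))))] (.c k95 (.l (.s k175 k163 1 (.s k1 k2 0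
  (.s k87 k7 11 (.s k86 k84 0 (.d k169 k253 k252 13 14)))))) (.c k175 (.q k95 [(.s k1 k2 0 (.s k87
  k7 11 (.s k86 k84 0 (.d k169 k253 k252 13 14)))), (.s k4 k166 12 (.s k7 k87 11 (.s k6 k5 0 (.d k12
  k8 k9 1 2)))), (.s k1 k2 0 (.s k169 k253 13 (.s k168 k170 0 (.d k252 k86 k84 14 13))))] .n) .n)))
  (.c k95 (.q k175 [(.s k1 k2 0 (.s k87 k7 11 (.s k86 k84 0 (.d k169 k253 k252 13 14)))), (.s k4
  k166 12 (.s k12 k8 1 (.s k6 k9 2 (.d k7 k87 k5 11 0))))] (.c k7 (.l (.s k1 k2 0 (.s k166 k4 12 (.s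
  k169 k253 13 (.d k163 k171 k172 1 2))))) (.c k11 (.l (.s k171 k163 1 (.s k1 k2 0 (.s k87 k7 11 (.s
  k86 k84 0 (.d k169 k253 k252 13 14)))))) (.c k83 (.l (.s k87 k7 11 (.s k1 k2 0 (.s k86 k84 0 (.d
  k169 k253 k252 13 14))))) (.c k87 (.q k83 [(.s k1 k2 0 (.s k166 k4 12 (.s k169 k253 13 (.d k163
  k171 k172 1 2)))), (.s k1 k2 0 (.s k65 k125 5 (.s k129 k193 7 (.s k66 k192 8 (.s k67 k64 0 (.d
  k195 k131 k130 7 8)))))), (.s k166 k4 12 (.s k165 k164 0 (.s k160 k170 2 (.s k240 k80 11 (.s k161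
  k82 12 (.d k163 k171 k162 1 0))))))] (.c k11 (.l (.s k171 k163 1 (.s k1 k2 0 (.s k169 k253 13 (.s
  k168 k170 0 (.d k252 k86 k84 14 13)))))) (.c k171 (.q k11 [(.s k1 k2 0 (.s k125 k65 5 (.s k253
  k169 13 (.s k61 k189 7 (.s k21 k41 5 (.d k149 k213 k193 7 13)))))), (.s k166 k4 12 (.s k165 k164 0
  (.s k225 k45 9 (.s k227 k44 10 (.s k47 k107 9 (.d k224 k226 k106 0 10))))))] .n) .n))) (.c k171
  (.q k11 [(.s k1 k2 0 (.s k87 k7 11 (.s k86 k84 0 (.d k169 k253 k252 13 14)))), (.s k4 k166 12 (.s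
  k12 k8 1 (.s k6 k9 2 (.d k7 k87 k5 11 0))))] (.c k7 (.l (.s k1 k2 0 (.s k65 k125 5 (.s k129 k193 7
  (.s k66 k192 8 (.s k67 k64 0 (.d k195 k131 k130 7 8))))))) (.c k83 (.l (.s k87 k7 11 (.s k1 k2 0
  (.s k86 k84 0 (.d k169 k253 k252 13 14))))) (.c k87 (.q k83 [(.s k1 k2 0 (.s k125 k65 5 (.s k253
  k169 13 (.s k61 k189 7 (.s k21 k41 5 (.d k149 k213 k193 7 13)))))), (.s k166 k4 12 (.s k165 k164 0
  (.s k225 k45 9 (.s k227 k44 10 (.s k47 k107 9 (.d k224 k226 k106 0 10))))))] .n) .n)))) .n))))))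
  (.c k171 (.q k11 [(.s k1 k2 0 (.s k87 k7 11 (.s k86 k84 0 (.d k169 k253 k252 13 14)))), (.s k4
  k166 12 (.s k7 k87 11 (.s k6 k5 0 (.d k12 k8 k9 1 2)))), (.s k1 k2 0 (.s k65 k125 5 (.s k129 k193
  7 (.s k66 k192 8 (.s k67 k64 0 (.d k195 k131 k130 7 8))))))] (.c k95 (.q k175 [(.s k1 k2 0 (.s k87
  k7 11 (.s k86 k84 0 (.d k169 k253 k252 13 14)))), (.s k4 k166 12 (.s k12 k8 1 (.s k6 k9 2 (.d k7
  k87 k5 11 0))))] (.c k7 (.l (.s k1 k2 0 (.s k65 k125 5 (.s k129 k193 7 (.s k66 k192 8 (.s k67 k64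
  0 (.d k195 k131 k130 7 8))))))) (.c k83 (.l (.s k87 k7 11 (.s k1 k2 0 (.s k86 k84 0 (.d k169 k253
  k252 13 14))))) (.c k87 (.q k83 [(.s k1 k2 0 (.s k125 k65 5 (.s k253 k169 13 (.s k61 k189 7 (.s
  k21 k41 5 (.d k149 k213 k193 7 13)))))), (.s k166 k4 12 (.s k165 k164 0 (.s k225 k45 9 (.s k227
  k44 10 (.s k47 k107 9 (.d k224 k226 k106 0 10))))))] .n) .n)))) (.c k175 (.q k95 [(.s k1 k2 0 (.s
  k90 k80 2 (.d k169 k248 k253 12 13))), (.s k4 k166 12 (.s k7 k87 11 (.s k6 k5 0 (.d k12 k8 k9 1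
  2))))] .n) .n))) (.c k175 (.q k95 [(.s k1 k2 0 (.s k87 k7 11 (.s k86 k84 0 (.d k169 k253 k252 13
  14)))), (.s k4 k166 12 (.s k7 k87 11 (.s k6 k5 0 (.d k12 k8 k9 1 2)))), (.s k1 k2 0 (.s k65 k125 5
  (.s k129 k193 7 (.s k66 k192 8 (.s k67 k64 0 (.d k195 k131 k130 7 8))))))] (.c k11 (.q k171 [(.s
  k1 k2 0 (.s k87 k7 11 (.s k86 k84 0 (.d k169 k253 k252 13 14)))), (.s k4 k166 12 (.s k7 k87 11 (.s
  k6 k5 0 (.d k12 k8 k9 1 2)))), (.s k1 k2 0 (.s k169 k253 13 (.s k168 k170 0 (.d k252 k86 k84 14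
  13))))] .n) (.c k171 (.q k11 [(.s k1 k2 0 (.s k90 k80 2 (.d k169 k248 k253 12 13))), (.s k4 k166
  12 (.s k7 k87 11 (.s k6 k5 0 (.d k12 k8 k9 1 2))))] .n) .n))) .n))))) (.c k95 (.q k175 [(.s k1 k2
  0 (.s k125 k65 5 (.s k253 k169 13 (.s k61 k189 7 (.s k21 k41 5 (.d k149 k213 k193 7 13)))))), (.s
  k65 k125 5 (.s k195 k130 8 (.s k67 k131 7 (.s k86 k124 6 (.s k84 k87 0 (.d k252 k168 k169 13
  14)))))), (.s k1 k2 0 (.s k169 k253 13 (.s k41 k233 7 (.s k60 k22 6 (.s k20 k40 5 (.d k150 k215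
  k195 8 14))))))] (.c k91 (.q k167 [(.s k1 k2 0 (.s k87 k7 11 (.s k86 k84 0 (.d k169 k253 k252 13
  14)))), (.s k4 k166 12 (.s k12 k8 1 (.s k6 k9 2 (.d k7 k87 k5 11 0))))] (.c k7 (.l (.s k1 k2 0 (.s
  k166 k4 12 (.s k169 k253 13 (.d k163 k171 k172 1 2))))) (.c k11 (.l (.s k171 k163 1 (.s k1 k2 0
  (.s k87 k7 11 (.s k86 k84 0 (.d k169 k253 k252 13 14)))))) (.c k83 (.l (.s k87 k7 11 (.s k1 k2 0
  (.s k86 k84 0 (.d k169 k253 k252 13 14))))) (.c k87 (.q k83 [(.s k1 k2 0 (.s k166 k4 12 (.s k169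
  k253 13 (.d k163 k171 k172 1 2)))), (.s k1 k2 0 (.s k65 k125 5 (.s k129 k193 7 (.s k66 k192 8 (.s
  k67 k64 0 (.d k195 k131 k130 7 8)))))), (.s k166 k4 12 (.s k165 k164 0 (.s k160 k170 2 (.s k240
  k80 11 (.s k161 k82 12 (.d k163 k171 k162 1 0))))))] (.c k11 (.l (.s k171 k163 1 (.s k1 k2 0 (.s
  k169 k253 13 (.s k168 k170 0 (.d k252 k86 k84 14 13)))))) (.c k171 (.q k11 [(.s k1 k2 0 (.s k125
  k65 5 (.s k253 k169 13 (.s k61 k189 7 (.s k21 k41 5 (.d k149 k213 k193 7 13)))))), (.s k166 k4 12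
  (.s k165 k164 0 (.s k225 k45 9 (.s k227 k44 10 (.s k47 k107 9 (.d k224 k226 k106 0 10))))))] .n)
  .n))) (.c k171 (.q k11 [(.s k1 k2 0 (.s k87 k7 11 (.s k86 k84 0 (.d k169 k253 k252 13 14)))), (.s
  k4 k166 12 (.s k12 k8 1 (.s k6 k9 2 (.d k7 k87 k5 11 0))))] (.c k7 (.l (.s k1 k2 0 (.s k65 k125 5
  (.s k129 k193 7 (.s k66 k192 8 (.s k67 k64 0 (.d k195 k131 k130 7 8))))))) (.c k83 (.l (.s k87 k7
  11 (.s k1 k2 0 (.s k86 k84 0 (.d k169 k253 k252 13 14))))) (.c k87 (.q k83 [(.s k1 k2 0 (.s k125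
  k65 5 (.s k253 k169 13 (.s k61 k189 7 (.s k21 k41 5 (.d k149 k213 k193 7 13)))))), (.s k166 k4 12
  (.s k165 k164 0 (.s k225 k45 9 (.s k227 k44 10 (.s k47 k107 9 (.d k224 k226 k106 0 10))))))] .n)
  .n)))) .n)))))) (.c k167 (.q k91 [(.s k1 k2 0 (.s k125 k65 5 (.s k253 k169 13 (.s k61 k189 7 (.s
  k21 k41 5 (.d k149 k213 k193 7 13)))))), (.s k65 k125 5 (.s k195 k130 8 (.s k67 k131 7 (.s k86
  k124 6 (.s k84 k87 0 (.d k252 k168 k169 13 14)))))), (.s k1 k2 0 (.s k169 k253 13 (.s k41 k233 7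
  (.s k60 k22 6 (.s k20 k40 5 (.d k150 k215 k195 8 14))))))] (.c k169 (.l (.s k1 k2 0 (.s k65 k125 5
  (.s k129 k193 7 (.s k66 k192 8 (.s k67 k64 0 (.d k195 k131 k130 7 8))))))) .n)) (.c k169 (.l (.s
  k1 k2 0 (.s k65 k125 5 (.s k129 k193 7 (.s k66 k192 8 (.s k67 k64 0 (.d k195 k131 k130 7 8)))))))
  .n)))) (.c k167 (.q k91 [(.s k1 k2 0 (.s k125 k65 5 (.s k253 k169 13 (.s k61 k189 7 (.s k21 k41 5
  (.d k149 k213 k193 7 13)))))), (.s k65 k125 5 (.s k195 k130 8 (.s k67 k131 7 (.s k86 k124 6 (.s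
  k84 k87 0 (.d k252 k168 k169 13 14)))))), (.s k1 k2 0 (.s k169 k253 13 (.s k41 k233 7 (.s k60 k22
  6 (.s k20 k40 5 (.d k150 k215 k195 8 14))))))] (.c k95 (.q k175 [(.s k1 k2 0 (.s k125 k65 5 (.s
  k253 k169 13 (.s k61 k189 7 (.s k21 k41 5 (.d k149 k213 k193 7 13)))))), (.s k65 k125 5 (.s k195
  k130 8 (.s k67 k131 7 (.s k86 k124 6 (.s k84 k87 0 (.d k252 k168 k169 13 14)))))), (.s k1 k2 0 (.s
  k169 k253 13 (.s k41 k233 7 (.s k60 k22 6 (.s k20 k40 5 (.d k150 k215 k195 8 14))))))] (.c k169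
  (.l (.s k1 k2 0 (.s k65 k125 5 (.s k129 k193 7 (.s k66 k192 8 (.s k67 k64 0 (.d k195 k131 k130 7
  8))))))) .n)) (.c k169 (.l (.s k1 k2 0 (.s k65 k125 5 (.s k129 k193 7 (.s k66 k192 8 (.s k67 k64 0
  (.d k195 k131 k130 7 8))))))) (.c k175 (.q k95 [(.s k1 k2 0 (.s k87 k83 1 (.s k86 k84 0 (.d k169
  k253 k252 13 14)))), (.s k80 k90 2 (.s k83 k87 1 (.s k82 k81 0 (.d k240 k160 k161 11 12)))), (.s
  k1 k2 0 (.s k65 k125 5 (.s k129 k193 7 (.s k66 k192 8 (.s k67 k64 0 (.d k195 k131 k130 7 8))))))]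
  (.c k163 (.q k171 [(.s k1 k2 0 (.s k87 k83 1 (.s k86 k84 0 (.d k169 k253 k252 13 14)))), (.s k80
  k90 2 (.s k83 k87 1 (.s k82 k81 0 (.d k240 k160 k161 11 12)))), (.s k1 k2 0 (.s k169 k253 13 (.s
  k168 k170 0 (.d k252 k86 k84 14 13))))] .n) (.c k171 (.q k163 [(.s k1 k2 0 (.s k166 k4 12 (.d k169
  k172 k253 2 13))), (.s k80 k90 2 (.s k83 k87 1 (.s k82 k81 0 (.d k240 k160 k161 11 12))))] .n)
  .n))) .n)))) (.c k169 (.l (.s k1 k2 0 (.s k65 k125 5 (.s k129 k193 7 (.s k66 k192 8 (.s k67 k64 0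
  (.d k195 k131 k130 7 8))))))) (.c k175 (.q k95 [(.s k1 k2 0 (.s k125 k65 5 (.s k253 k169 13 (.s
  k61 k189 7 (.s k21 k41 5 (.d k149 k213 k193 7 13)))))), (.s k65 k125 5 (.s k195 k130 8 (.s k67
  k131 7 (.s k86 k124 6 (.s k84 k87 0 (.d k252 k168 k169 13 14)))))), (.s k1 k2 0 (.s k169 k253 13
  (.s k41 k233 7 (.s k60 k22 6 (.s k20 k40 5 (.d k150 k215 k195 8 14))))))] (.c k91 (.q k167 [(.s k1
  k2 0 (.s k87 k7 11 (.s k86 k84 0 (.d k169 k253 k252 13 14)))), (.s k4 k166 12 (.s k7 k87 11 (.s k6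
  k5 0 (.d k12 k8 k9 1 2)))), (.s k1 k2 0 (.s k65 k125 5 (.s k129 k193 7 (.s k66 k192 8 (.s k67 k64
  0 (.d k195 k131 k130 7 8))))))] (.c k11 (.q k171 [(.s k1 k2 0 (.s k87 k7 11 (.s k86 k84 0 (.d k169
  k253 k252 13 14)))), (.s k4 k166 12 (.s k7 k87 11 (.s k6 k5 0 (.d k12 k8 k9 1 2)))), (.s k1 k2 0
  (.s k169 k253 13 (.s k168 k170 0 (.d k252 k86 k84 14 13))))] .n) (.c k171 (.q k11 [(.s k1 k2 0 (.s
  k90 k80 2 (.d k169 k248 k253 12 13))), (.s k4 k166 12 (.s k7 k87 11 (.s k6 k5 0 (.d k12 k8 k9 1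
  2))))] .n) .n))) (.c k167 (.q k91 [(.s k1 k2 0 (.s k87 k83 1 (.s k86 k84 0 (.d k169 k253 k252 13
  14)))), (.s k80 k90 2 (.s k83 k87 1 (.s k82 k81 0 (.d k240 k160 k161 11 12)))), (.s k1 k2 0 (.s
  k65 k125 5 (.s k129 k193 7 (.s k66 k192 8 (.s k67 k64 0 (.d k195 k131 k130 7 8))))))] (.c k163 (.q
  k171 [(.s k1 k2 0 (.s k87 k83 1 (.s k86 k84 0 (.d k169 k253 k252 13 14)))), (.s k80 k90 2 (.s k83
  k87 1 (.s k82 k81 0 (.d k240 k160 k161 11 12)))), (.s k1 k2 0 (.s k169 k253 13 (.s k168 k170 0 (.d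
  k252 k86 k84 14 13))))] .n) (.c k171 (.q k163 [(.s k1 k2 0 (.s k166 k4 12 (.d k169 k172 k253 2
  13))), (.s k80 k90 2 (.s k83 k87 1 (.s k82 k81 0 (.d k240 k160 k161 11 12))))] .n) .n))) (.c k169
  (.l (.s k1 k2 0 (.s k65 k125 5 (.s k129 k193 7 (.s k66 k192 8 (.s k67 k64 0 (.d k195 k131 k130 7
  8))))))) .n)))) .n)))))) .n))))))))

def t15_243 : T TT 256 :=
  (.q k3 [] (.c k1 s15_243_1 (.c k2 s15_243_2 (.c k4 s15_243_4 (.c k5 s15_243_5 (.c k6 s15_243_6 (.c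
  k7 s15_243_7 (.c k8 s15_243_8 (.c k9 s15_243_9 (.c k10 s15_243_10 (.c k11 s15_243_11 (.c k12
  s15_243_12 (.c k13 s15_243_13 (.c k14 s15_243_14 (.c k16 s15_243_16 (.c k17 s15_243_17 (.c k18
  s15_243_18 (.c k19 s15_243_19 (.c k20 s15_243_20 (.c k21 s15_243_21 (.c k22 s15_243_22 (.c k23
  s15_243_23 (.c k24 s15_243_24 (.c k25 s15_243_25 (.c k26 s15_243_26 (.c k27 s15_243_27 (.c k28
  s15_243_28 (.c k29 s15_243_29 (.c k30 s15_243_30 (.c k31 s15_243_31 (.c k32 s15_243_32 (.c k33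
  s15_243_33 (.c k34 s15_243_34 (.c k35 s15_243_35 (.c k36 s15_243_36 (.c k37 s15_243_37 (.c k38
  s15_243_38 (.c k39 s15_243_39 (.c k40 s15_243_40 (.c k41 s15_243_41 (.c k42 s15_243_42 (.c k43
  s15_243_43 (.c k44 s15_243_44 (.c k45 s15_243_45 (.c k46 s15_243_46 (.c k47 s15_243_47 (.c k48
  s15_243_48 (.c k49 s15_243_49 (.c k50 s15_243_50 (.c k51 s15_243_51 (.c k52 s15_243_52 (.c k53
  s15_243_53 (.c k54 s15_243_54 (.c k55 s15_243_55 (.c k56 s15_243_56 (.c k57 s15_243_57 (.c k58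
  s15_243_58 (.c k59 s15_243_59 (.c k60 s15_243_60 (.c k61 s15_243_61 (.c k62 s15_243_62 (.c k63
  s15_243_63 (.c k64 s15_243_64 (.c k65 s15_243_65 (.c k66 s15_243_66 (.c k67 s15_243_67 (.c k68
  s15_243_68 (.c k69 s15_243_69 (.c k70 s15_243_70 (.c k71 s15_243_71 (.c k72 s15_243_72 (.c k73
  s15_243_73 (.c k74 s15_243_74 (.c k75 s15_243_75 (.c k76 s15_243_76 (.c k77 s15_243_77 (.c k78
  s15_243_78 (.c k79 s15_243_79 (.c k80 s15_243_80 (.c k81 s15_243_81 (.c k82 s15_243_82 (.c k83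
  s15_243_83 (.c k84 s15_243_84 (.c k86 s15_243_86 (.c k87 s15_243_87 (.c k88 s15_243_88 (.c k89
  s15_243_89 (.c k90 s15_243_90 (.c k91 s15_243_91 (.c k92 s15_243_92 (.c k93 s15_243_93 (.c k94
  s15_243_94 (.c k95 s15_243_95 (.c k96 s15_243_96 (.c k97 s15_243_97 (.c k98 s15_243_98 (.c k99
  s15_243_99 (.c k100 s15_243_100 (.c k101 s15_243_101 (.c k102 s15_243_102 (.c k103 s15_243_103 (.c
  k104 s15_243_104 (.c k105 s15_243_105 (.c k106 s15_243_106 (.c k107 s15_243_107 (.c k108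
  s15_243_108 (.c k109 s15_243_109 (.c k110 s15_243_110 (.c k111 s15_243_111 (.c k112 s15_243_112
  (.c k113 s15_243_113 (.c k114 s15_243_114 (.c k115 s15_243_115 (.c k116 s15_243_116 (.c k117
  s15_243_117 (.c k118 s15_243_118 (.c k119 s15_243_119 (.c k120 s15_243_120 (.c k121 s15_243_121
  (.c k122 s15_243_122 (.c k123 s15_243_123 (.c k124 s15_243_124 (.c k125 s15_243_125 (.c k126
  s15_243_126 (.c k127 s15_243_127 (.c k128 s15_243_128 (.c k129 s15_243_129 (.c k130 s15_243_130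
  (.c k131 s15_243_131 (.c k132 s15_243_132 (.c k133 s15_243_133 (.c k134 s15_243_134 (.c k135
  s15_243_135 (.c k136 s15_243_136 (.c k137 s15_243_137 (.c k138 s15_243_138 (.c k139 s15_243_139
  (.c k140 s15_243_140 (.c k141 s15_243_141 (.c k142 s15_243_142 (.c k143 s15_243_143 (.c k144
  s15_243_144 (.c k145 s15_243_145 (.c k146 s15_243_146 (.c k147 s15_243_147 (.c k148 s15_243_148
  (.c k149 s15_243_149 (.c k150 s15_243_150 (.c k151 s15_243_151 (.c k152 s15_243_152 (.c k153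
  s15_243_153 (.c k154 s15_243_154 (.c k155 s15_243_155 (.c k156 s15_243_156 (.c k157 s15_243_157
  (.c k158 s15_243_158 (.c k159 s15_243_159 (.c k160 s15_243_160 (.c k161 s15_243_161 (.c k162
  s15_243_162 (.c k163 s15_243_163 (.c k164 s15_243_164 (.c k165 s15_243_165 (.c k166 s15_243_166
  (.c k167 s15_243_167 (.c k168 s15_243_168 (.c k169 s15_243_169 (.c k170 s15_243_170 (.c k171
  s15_243_171 (.c k172 s15_243_172 (.c k173 s15_243_173 (.c k174 s15_243_174 (.c k175 s15_243_175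
  (.c k176 s15_243_176 (.c k177 s15_243_177 (.c k178 s15_243_178 (.c k179 s15_243_179 (.c k180
  s15_243_180 (.c k181 s15_243_181 (.c k182 s15_243_182 (.c k183 s15_243_183 (.c k184 s15_243_184
  (.c k185 s15_243_185 (.c k186 s15_243_186 (.c k187 s15_243_187 (.c k188 s15_243_188 (.c k189
  s15_243_189 (.c k190 s15_243_190 (.c k191 s15_243_191 (.c k192 s15_243_192 (.c k193 s15_243_193
  (.c k194 s15_243_194 (.c k195 s15_243_195 (.c k196 s15_243_196 (.c k197 s15_243_197 (.c k198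
  s15_243_198 (.c k199 s15_243_199 (.c k200 s15_243_200 (.c k201 s15_243_201 (.c k202 s15_243_202
  (.c k203 s15_243_203 (.c k204 s15_243_204 (.c k205 s15_243_205 (.c k206 s15_243_206 (.c k207
  s15_243_207 (.c k208 s15_243_208 (.c k209 s15_243_209 (.c k210 s15_243_210 (.c k211 s15_243_211
  (.c k212 s15_243_212 (.c k213 s15_243_213 (.c k214 s15_243_214 (.c k215 s15_243_215 (.c k216
  s15_243_216 (.c k217 s15_243_217 (.c k218 s15_243_218 (.c k219 s15_243_219 (.c k220 s15_243_220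
  (.c k221 s15_243_221 (.c k222 s15_243_222 (.c k223 s15_243_223 (.c k224 s15_243_224 (.c k225
  s15_243_225 (.c k226 s15_243_226 (.c k227 s15_243_227 (.c k228 s15_243_228 (.c k229 s15_243_229
  (.c k230 s15_243_230 (.c k231 s15_243_231 (.c k232 s15_243_232 (.c k233 s15_243_233 (.c k234
  s15_243_234 (.c k235 s15_243_235 (.c k236 s15_243_236 (.c k237 s15_243_237 (.c k238 s15_243_238
  (.c k239 s15_243_239 (.c k240 s15_243_240 (.c k241 s15_243_241 (.c k242 s15_243_242 (.c k244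
  s15_243_244 (.c k245 s15_243_245 (.c k246 s15_243_246 (.c k247 s15_243_247 (.c k248 s15_243_248
  (.c k249 s15_243_249 (.c k250 s15_243_250 (.c k251 s15_243_251 (.c k252 s15_243_252 (.c k253
  s15_243_253 (.c k254 s15_243_254 (.c k255 s15_243_255
  .n))))))))))))))))))))))))))))))))))))))))))))))))))))))))))))))))))))))))))))))))
  ))))))))))))))))))))))))))))))))))))))))))))))))))))))))))))))))))))))))))))))))
  )))))))))))))))))))))))))))))))))))))))))))))))))))))))))))))))))))))))))))))))) ))))))))))))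

def s26_170_1 : T TT 256 :=
  (.q k4 [(.s k84 k87 0 (.s k166 k247 12 (.s k6 k246 11 (.s k244 k164 11 (.d k7 k5 k165 0 12))))),
  (.s k12 k8 1 (.s k84 k87 0 (.s k164 k244 11 (.s k88 k240 13 (.s k92 k80 1 (.d k252 k172 k168 11
  13)))))), (.s k12 k8 1 (.s k166 k247 12 (.s k6 k246 11 (.s k3 k9 2 (.s k89 k243 14 (.s k92 k83 2
  (.d k252 k172 k169 11 14)))))))] (.c k244 (.l (.s k12 k8 1 (.s k84 k87 0 (.s k166 k247 12 (.s k89
  k243 14 (.s k92 k83 2 (.d k252 k172 k168 11 13))))))) .n))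

def s26_170_2 : T TT 256 :=
  (.q k4 [(.s k84 k87 0 (.s k244 k164 11 (.s k165 k7 12 (.s k245 k5 11 (.d k247 k246 k166 0 12))))),
  (.s k12 k8 1 (.s k84 k87 0 (.s k164 k244 11 (.s k88 k240 13 (.s k92 k80 1 (.d k252 k172 k168 11
  13)))))), (.s k12 k8 1 (.s k166 k247 12 (.s k6 k246 11 (.s k3 k9 2 (.s k89 k243 14 (.s k92 k83 2
  (.d k252 k172 k169 11 14)))))))] (.c k244 (.l (.s k12 k8 1 (.s k84 k87 0 (.s k166 k247 12 (.s k89
  k243 14 (.s k92 k83 2 (.d k252 k172 k168 11 13))))))) .n))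

def s26_170_3 : T TT 256 :=
  (.f k84 k87 0 (.q k64 [(.s k106 k127 6 (.s k66 k126 5 (.s k67 k65 0 (.d k124 k104 k105 5 6)))),
  (.s k104 k124 5 (.s k168 k252 13 (.s k40 k232 7 (.s k60 k20 5 (.d k192 k128 k148 7 13))))), (.s
  k106 k127 6 (.s k126 k66 5 (.s k192 k128 7 (.s k252 k168 13 (.d k63 k149 k189 14 8)))))] (.c k171
  (.q k255 [(.s k106 k127 6 (.s k66 k126 5 (.s k67 k65 0 (.d k124 k104 k105 5 6)))), (.s k192 k128 7
  (.s k213 k234 6 (.s k149 k21 7 (.d k106 k127 k63 6 14)))), (.s k104 k124 5 (.s k168 k252 13 (.s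
  k40 k232 7 (.s k60 k20 5 (.d k192 k128 k148 7 13)))))] (.c k168 (.q k169 [(.s k106 k127 6 (.s k66
  k126 5 (.s k67 k65 0 (.d k124 k104 k105 5 6)))), (.s k192 k128 7 (.s k213 k234 6 (.s k149 k21 7
  (.d k106 k127 k63 6 14)))), (.s k104 k124 5 (.s k192 k128 7 (.s k148 k60 13 (.s k212 k20 7 (.s
  k149 k23 8 (.d k213 k21 k234 7 6))))))] .n) (.c k169 (.l (.s k168 k252 13 (.s k104 k124 5 (.s k40
  k232 7 (.s k60 k20 5 (.d k192 k128 k148 7 13)))))) .n))) (.c k255 (.q k171 [(.s k124 k104 5 (.s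
  k67 k105 6 (.s k66 k65 0 (.d k106 k126 k127 5 6)))), (.s k104 k124 5 (.s k168 k252 13 (.s k40 k232
  7 (.s k60 k20 5 (.d k192 k128 k148 7 13))))), (.s k106 k127 6 (.s k126 k66 5 (.s k192 k128 7 (.s
  k252 k168 13 (.d k63 k149 k189 14 8)))))] .n) .n))))

def s26_170_4 : T TT 256 :=
  (.q k16 [(.s k84 k87 0 (.s k220 k152 9 (.s k153 k19 10 (.s k221 k17 9 (.d k223 k222 k154 0
  10))))), (.s k48 k32 3 (.s k84 k87 0 (.s k152 k220 9 (.s k100 k204 13 (.s k116 k68 3 (.d k252 k184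
  k168 9 13)))))), (.s k48 k32 3 (.s k154 k223 10 (.s k18 k222 9 (.s k3 k33 4 (.s k1 k2 0 (.d k169
  k253 k252 13 14))))))] (.c k220 (.l (.s k48 k32 3 (.s k84 k87 0 (.s k154 k223 10 (.s k101 k207 14
  (.s k116 k71 4 (.d k252 k184 k168 9 13))))))) .n))

def s26_170_5 : T TT 256 :=
  (.q k4 [(.s k84 k87 0 (.s k164 k244 11 (.s k168 k252 13 (.s k160 k172 1 (.s k240 k80 11 (.d k12 k8
  k88 1 13)))))), (.s k12 k8 1 (.s k166 k247 12 (.s k6 k246 11 (.s k3 k9 2 (.s k1 k2 0 (.d k169 k253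
  k252 13 14)))))), (.s k84 k87 0 (.s k166 k247 12 (.s k246 k6 11 (.s k252 k168 13 (.s k243 k249 2
  (.s k81 k162 12 (.d k89 k93 k12 1 14)))))))] (.c k12 (.l (.s k84 k87 0 (.s k244 k164 11 (.s k165
  k7 12 (.s k252 k168 13 (.s k240 k248 1 (.s k90 k15 14 (.d k80 k160 k95 11 2)))))))) (.c k252 (.l
  (.s k12 k8 1 (.s k84 k87 0 (.s k164 k244 11 (.s k166 k247 12 (.s k89 k243 14 (.s k92 k83 2 (.d k88
  k240 k80 13 1)))))))) .n)))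

def s26_170_6 : T TT 256 :=
  (.q k16 [(.s k84 k87 0 (.s k220 k152 9 (.s k153 k19 10 (.s k221 k17 9 (.d k223 k222 k154 0
  10))))), (.s k48 k32 3 (.s k84 k87 0 (.s k152 k220 9 (.s k100 k204 13 (.s k116 k68 3 (.d k252 k184
  k168 9 13)))))), (.s k48 k32 3 (.s k154 k223 10 (.s k18 k222 9 (.s k3 k33 4 (.s k1 k2 0 (.d k169
  k253 k252 13 14))))))] (.c k220 (.l (.s k48 k32 3 (.s k84 k87 0 (.s k154 k223 10 (.s k101 k207 14
  (.s k116 k71 4 (.d k252 k184 k168 9 13))))))) .n))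

def s26_170_7 : T TT 256 :=
  (.q k16 [(.s k84 k87 0 (.s k220 k152 9 (.s k153 k19 10 (.s k221 k17 9 (.d k223 k222 k154 0
  10))))), (.s k48 k32 3 (.s k154 k223 10 (.s k18 k222 9 (.s k3 k33 4 (.s k1 k2 0 (.d k169 k253 k252
  13 14)))))), (.s k48 k32 3 (.s k84 k87 0 (.s k152 k220 9 (.s k100 k204 13 (.s k116 k68 3 (.d k252
  k184 k168 9 13))))))] (.c k220 (.l (.s k48 k32 3 (.s k84 k87 0 (.s k154 k223 10 (.s k101 k207 14
  (.s k116 k71 4 (.d k252 k184 k168 9 13))))))) .n))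

def s26_170_8 : T TT 256 :=
  (.q k89 [(.s k81 k93 1 (.s k83 k92 2 (.s k80 k82 0 (.s k87 k84 0 (.d k95 k91 k90 1 2))))), (.s k81
  k93 1 (.s k84 k87 0 (.s k243 k162 12 (.s k166 k12 14 (.s k246 k6 11 (.d k252 k249 k168 2 13)))))),
  (.s k84 k87 0 (.s k92 k83 2 (.s k252 k168 13 (.s k12 k172 11 (.s k166 k243 14 (.s k6 k246 11 (.d
  k3 k169 k9 14 2))))))), (.s k81 k93 1 (.s k83 k92 2 (.s k243 k162 12 (.s k3 k163 11 (.s k1 k2 0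
  (.d k169 k253 k252 13 14))))))] .n)

def s26_170_9 : T TT 256 :=
  (.q k16 [(.s k84 k87 0 (.s k220 k152 9 (.s k153 k19 10 (.s k221 k17 9 (.d k223 k222 k154 0
  10))))), (.s k48 k32 3 (.s k84 k87 0 (.s k152 k220 9 (.s k100 k204 13 (.s k116 k68 3 (.d k252 k184
  k168 9 13)))))), (.s k48 k32 3 (.s k154 k223 10 (.s k18 k222 9 (.s k3 k33 4 (.s k1 k2 0 (.d k169
  k253 k252 13 14))))))] (.c k220 (.l (.s k48 k32 3 (.s k84 k87 0 (.s k154 k223 10 (.s k101 k207 14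
  (.s k116 k71 4 (.d k252 k184 k168 9 13))))))) .n))

def s26_170_10 : T TT 256 :=
  (.f k84 k87 0 (.q k90 [(.s k80 k95 2 (.s k82 k94 1 (.s k83 k81 0 (.d k92 k88 k89 1 2)))), (.s k94
  k82 1 (.s k252 k168 13 (.s k15 k173 12 (.s k165 k240 14 (.s k7 k244 12 (.d k3 k169 k11 14 1)))))),
  (.s k80 k95 2 (.s k240 k160 11 (.s k165 k15 14 (.s k244 k7 12 (.d k252 k248 k168 1 13)))))] (.c
  k42 (.q k58 [(.s k80 k95 2 (.s k82 k94 1 (.s k83 k81 0 (.d k92 k88 k89 1 2)))), (.s k94 k82 1 (.s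
  k252 k168 13 (.s k15 k173 12 (.s k165 k240 14 (.s k7 k244 12 (.d k3 k169 k11 14 1)))))), (.s k80
  k95 2 (.s k240 k160 11 (.s k165 k15 14 (.s k244 k7 12 (.d k252 k248 k168 1 13)))))] (.c k106 (.q
  k234 [(.s k80 k95 2 (.s k82 k94 1 (.s k83 k81 0 (.d k92 k88 k89 1 2)))), (.s k94 k82 1 (.s k252
  k168 13 (.s k15 k173 12 (.s k165 k240 14 (.s k7 k244 12 (.d k3 k169 k11 14 1)))))), (.s k80 k95 2
  (.s k240 k160 11 (.s k165 k15 14 (.s k244 k7 12 (.d k252 k248 k168 1 13)))))] .n) (.c k234 (.q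
  k106 [(.s k64 k127 6 (.s k66 k126 5 (.s k67 k65 0 (.d k124 k104 k105 5 6)))), (.s k80 k95 2 (.s
  k82 k94 1 (.s k83 k81 0 (.d k92 k88 k89 1 2))))] .n) .n))) (.c k58 (.q k42 [(.s k80 k95 2 (.s k82
  k94 1 (.s k83 k81 0 (.d k92 k88 k89 1 2)))), (.s k63 k21 6 (.s k252 k168 13 (.s k126 k189 8 (.s
  k106 k66 5 (.s k64 k127 6 (.d k192 k128 k149 7 14))))))] .n) .n))))

def s26_170_11 : T TT 256 :=
  (.f k84 k87 0 (.f k168 k252 13 (.q k4 [(.s k164 k244 11 (.s k160 k172 1 (.s k240 k80 11 (.d k12 k8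
  k88 1 13)))), (.s k166 k247 12 (.s k6 k246 11 (.s k7 k5 0 (.d k244 k164 k165 11 12)))), (.s k12 k8
  1 (.s k166 k247 12 (.s k89 k243 14 (.s k92 k83 2 (.s k80 k88 1 (.s k93 k81 1 (.d k95 k94 k90 0
  2)))))))] (.c k41 (.q k56 [(.s k164 k244 11 (.s k160 k172 1 (.s k240 k80 11 (.d k12 k8 k88 1
  13)))), (.s k166 k247 12 (.s k6 k246 11 (.s k7 k5 0 (.d k244 k164 k165 11 12)))), (.s k8 k12 1 (.s
  k40 k24 3 (.s k60 k20 5 (.s k104 k232 7 (.s k64 k124 5 (.d k192 k128 k148 7 13))))))] .n) (.c k56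
  (.q k41 [(.s k164 k244 11 (.s k160 k172 1 (.s k240 k80 11 (.d k12 k8 k88 1 13)))), (.s k166 k247
  12 (.s k6 k246 11 (.s k7 k5 0 (.d k244 k164 k165 11 12)))), (.s k12 k8 1 (.s k166 k247 12 (.s k89
  k243 14 (.s k92 k83 2 (.s k80 k88 1 (.s k93 k81 1 (.d k95 k94 k90 0 2)))))))] .n) .n)))))

def s26_170_12 : T TT 256 :=
  (.q k16 [(.s k84 k87 0 (.s k220 k152 9 (.s k153 k19 10 (.s k221 k17 9 (.d k223 k222 k154 0
  10))))), (.s k48 k32 3 (.s k84 k87 0 (.s k152 k220 9 (.s k100 k204 13 (.s k116 k68 3 (.d k252 k184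
  k168 9 13)))))), (.s k48 k32 3 (.s k154 k223 10 (.s k18 k222 9 (.s k3 k33 4 (.s k1 k2 0 (.d k169
  k253 k252 13 14))))))] (.c k220 (.l (.s k48 k32 3 (.s k84 k87 0 (.s k154 k223 10 (.s k101 k207 14
  (.s k116 k71 4 (.d k252 k184 k168 9 13))))))) .n))

def s26_170_13 : T TT 256 :=
  (.q k4 [(.s k84 k87 0 (.s k166 k247 12 (.s k6 k246 11 (.s k244 k164 11 (.d k7 k5 k165 0 12))))),
  (.s k12 k8 1 (.s k84 k87 0 (.s k164 k244 11 (.s k88 k240 13 (.s k92 k80 1 (.d k252 k172 k168 11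
  13)))))), (.s k12 k8 1 (.s k166 k247 12 (.s k6 k246 11 (.s k3 k9 2 (.s k1 k2 0 (.d k169 k253 k252
  13 14))))))] (.c k244 (.l (.s k12 k8 1 (.s k84 k87 0 (.s k166 k247 12 (.s k89 k243 14 (.s k92 k83
  2 (.d k252 k172 k168 11 13))))))) .n))

def s26_170_14 : T TT 256 :=
  (.f k84 k87 0 (.f k168 k252 13 (.q k4 [(.s k164 k244 11 (.s k160 k172 1 (.s k240 k80 11 (.d k12 k8
  k88 1 13)))), (.s k166 k247 12 (.s k6 k246 11 (.s k7 k5 0 (.d k244 k164 k165 11 12)))), (.s k12 k8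
  1 (.s k166 k247 12 (.s k89 k243 14 (.s k92 k83 2 (.s k80 k88 1 (.s k93 k81 1 (.d k95 k94 k90 0
  2)))))))] (.c k38 (.q k50 [(.s k164 k244 11 (.s k160 k172 1 (.s k240 k80 11 (.d k12 k8 k88 1
  13)))), (.s k166 k247 12 (.s k6 k246 11 (.s k7 k5 0 (.d k244 k164 k165 11 12)))), (.s k12 k8 1 (.s
  k166 k247 12 (.s k89 k243 14 (.s k92 k83 2 (.s k80 k88 1 (.s k93 k81 1 (.d k95 k94 k90 0 2)))))))]
  .n) (.c k50 (.q k38 [(.s k164 k244 11 (.s k160 k172 1 (.s k240 k80 11 (.d k12 k8 k88 1 13)))), (.s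
  k166 k247 12 (.s k6 k246 11 (.s k7 k5 0 (.d k244 k164 k165 11 12)))), (.s k12 k8 1 (.s k21 k55 4
  (.s k25 k51 6 (.s k29 k17 1 (.d k63 k46 k42 4 6)))))] .n) .n)))))

def s26_170_15 : T TT 256 :=
  (.q k48 [(.s k16 k32 3 (.s k84 k87 0 (.s k154 k223 10 (.s k18 k222 9 (.s k19 k17 0 (.d k220 k152
  k153 9 10)))))), (.s k84 k87 0 (.s k252 k168 13 (.s k116 k184 9 (.s k101 k71 4 (.s k69 k117 3 (.d
  k207 k138 k154 10 14)))))), (.s k16 k32 3 (.s k154 k223 10 (.s k18 k222 9 (.s k3 k33 4 (.s k1 k2 0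
  (.d k169 k253 k252 13 14)))))), (.s k32 k16 3 (.s k84 k87 0 (.s k168 k252 13 (.s k100 k236 9 (.s
  k68 k116 3 (.d k204 k136 k152 9 13))))))] .n)

def s26_170_16 : T TT 256 :=
  (.q k149 [(.s k84 k87 0 (.s k212 k23 8 (.s k20 k148 7 (.s k215 k150 8 (.d k213 k21 k214 7 0))))),
  (.s k21 k213 7 (.s k63 k42 6 (.s k84 k87 0 (.s k106 k192 14 (.s k126 k66 5 (.d k252 k189 k168 8
  13)))))), (.s k21 k213 7 (.s k23 k212 8 (.s k63 k42 6 (.s k3 k43 5 (.s k1 k2 0 (.d k169 k253 k252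
  13 14))))))] (.c k21 (.q k31 [(.s k23 k212 8 (.s k90 k208 10 (.s k94 k82 1 (.s k220 k157 8 (.d k19
  k27 k153 1 10))))), (.s k84 k87 0 (.s k212 k23 8 (.s k252 k168 13 (.s k192 k232 5 (.s k64 k128 7
  (.d k106 k127 k63 6 14)))))), (.s k84 k87 0 (.s k90 k208 10 (.s k80 k95 2 (.s k82 k94 1 (.s k83
  k81 0 (.d k92 k88 k89 1 2))))))] .n) (.c k31 (.l (.s k21 k213 7 (.s k23 k212 8 (.s k20 k22 0 (.s
  k87 k84 0 (.d k215 k151 k150 7 8)))))) (.c k213 (.l (.s k84 k87 0 (.s k212 k23 8 (.s k252 k168 13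
  (.s k192 k232 5 (.s k64 k128 7 (.d k106 k127 k63 6 14))))))) .n))))

def s26_170_17 : T TT 256 :=
  (.q k4 [(.s k84 k87 0 (.s k244 k164 11 (.s k165 k7 12 (.s k245 k5 11 (.d k247 k246 k166 0 12))))),
  (.s k12 k8 1 (.s k84 k87 0 (.s k164 k244 11 (.s k88 k240 13 (.s k92 k80 1 (.d k252 k172 k168 11
  13)))))), (.s k12 k8 1 (.s k166 k247 12 (.s k6 k246 11 (.s k3 k9 2 (.s k1 k2 0 (.d k169 k253 k252
  13 14))))))] (.c k244 (.l (.s k12 k8 1 (.s k84 k87 0 (.s k166 k247 12 (.s k89 k243 14 (.s k92 k83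
  2 (.d k252 k172 k168 11 13))))))) .n))

def s26_170_18 : T TT 256 :=
  (.q k150 [(.s k20 k215 8 (.s k22 k214 7 (.s k84 k87 0 (.s k212 k148 7 (.d k23 k21 k149 0 8))))),
  (.s k84 k87 0 (.s k252 k168 13 (.s k169 k3 14 (.s k188 k131 6 (.s k60 k124 7 (.s k195 k105 14 (.d
  k214 k22 k233 7 6))))))), (.s k20 k215 8 (.s k22 k214 7 (.s k60 k40 5 (.s k3 k41 6 (.s k1 k2 0 (.d
  k169 k253 k252 13 14))))))] (.c k22 (.q k30 [(.s k84 k87 0 (.s k90 k210 9 (.s k80 k95 2 (.s k82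
  k94 1 (.s k83 k81 0 (.d k92 k88 k89 1 2)))))), (.s k20 k215 8 (.s k60 k40 5 (.s k84 k87 0 (.s k105
  k195 14 (.s k124 k67 6 (.d k252 k188 k168 7 13)))))), (.s k20 k215 8 (.s k60 k40 5 (.s k15 k45 4
  (.s k5 k10 2 (.s k90 k210 9 (.d k165 k245 k240 11 14))))))] .n) (.c k30 (.l (.s k22 k214 7 (.s k20
  k215 8 (.s k23 k21 0 (.s k84 k87 0 (.d k212 k148 k149 7 8)))))) (.c k214 (.l (.s k20 k215 8 (.s
  k60 k40 5 (.s k84 k87 0 (.s k105 k195 14 (.s k124 k67 6 (.d k252 k188 k168 7 13))))))) .n))))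

def s26_170_19 : T TT 256 :=
  (.q k4 [(.s k84 k87 0 (.s k244 k164 11 (.s k165 k7 12 (.s k245 k5 11 (.d k247 k246 k166 0 12))))),
  (.s k12 k8 1 (.s k166 k247 12 (.s k6 k246 11 (.s k3 k9 2 (.s k1 k2 0 (.d k169 k253 k252 13
  14)))))), (.s k12 k8 1 (.s k84 k87 0 (.s k164 k244 11 (.s k88 k240 13 (.s k92 k80 1 (.d k252 k172
  k168 11 13))))))] (.c k244 (.l (.s k12 k8 1 (.s k84 k87 0 (.s k166 k247 12 (.s k89 k243 14 (.s k92
  k83 2 (.d k252 k172 k168 11 13))))))) .n))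

def s26_170_20 : T TT 256 :=
  (.q k4 [(.s k84 k87 0 (.s k244 k164 11 (.s k165 k7 12 (.s k245 k5 11 (.d k247 k246 k166 0 12))))),
  (.s k12 k8 1 (.s k84 k87 0 (.s k164 k244 11 (.s k88 k240 13 (.s k92 k80 1 (.d k252 k172 k168 11
  13)))))), (.s k12 k8 1 (.s k166 k247 12 (.s k6 k246 11 (.s k3 k9 2 (.s k1 k2 0 (.d k169 k253 k252
  13 14))))))] (.c k244 (.l (.s k12 k8 1 (.s k84 k87 0 (.s k166 k247 12 (.s k89 k243 14 (.s k92 k83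
  2 (.d k252 k172 k168 11 13))))))) .n))

def s26_170_21 : T TT 256 :=
  (.q k16 [(.s k84 k87 0 (.s k154 k223 10 (.s k18 k222 9 (.s k220 k152 9 (.d k19 k17 k153 0 10))))),
  (.s k48 k32 3 (.s k84 k87 0 (.s k152 k220 9 (.s k100 k204 13 (.s k116 k68 3 (.d k252 k184 k168 9
  13)))))), (.s k48 k32 3 (.s k154 k223 10 (.s k18 k222 9 (.s k3 k33 4 (.s k1 k2 0 (.d k169 k253
  k252 13 14))))))] (.c k220 (.l (.s k48 k32 3 (.s k84 k87 0 (.s k154 k223 10 (.s k101 k207 14 (.s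
  k116 k71 4 (.d k252 k184 k168 9 13))))))) .n))

def s26_170_22 : T TT 256 :=
  (.f k84 k87 0 (.f k168 k252 13 (.q k4 [(.s k164 k244 11 (.s k160 k172 1 (.s k240 k80 11 (.d k12 k8
  k88 1 13)))), (.s k166 k247 12 (.s k6 k246 11 (.s k7 k5 0 (.d k244 k164 k165 11 12)))), (.s k12 k8
  1 (.s k166 k247 12 (.s k89 k243 14 (.s k92 k83 2 (.s k80 k88 1 (.s k93 k81 1 (.d k95 k94 k90 0
  2)))))))] (.c k18 (.q k30 [(.s k164 k244 11 (.s k160 k172 1 (.s k240 k80 11 (.d k12 k8 k88 1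
  13)))), (.s k166 k247 12 (.s k6 k246 11 (.s k7 k5 0 (.d k244 k164 k165 11 12)))), (.s k12 k8 1 (.s
  k166 k247 12 (.s k89 k243 14 (.s k92 k83 2 (.s k80 k88 1 (.s k93 k81 1 (.d k95 k94 k90 0 2)))))))]
  .n) (.c k30 (.q k18 [(.s k12 k8 1 (.s k164 k244 11 (.s k160 k172 1 (.d k240 k80 k88 11 13)))), (.s
  k154 k222 9 (.s k16 k223 10 (.s k19 k17 0 (.d k220 k152 k153 9 10))))] .n) .n)))))

def s26_170_23 : T TT 256 :=
  (.q k4 [(.s k87 k84 0 (.s k247 k166 12 (.s k7 k167 11 (.s k5 k6 0 (.d k165 k245 k244 11 12))))),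
  (.s k12 k8 1 (.s k84 k87 0 (.s k164 k244 11 (.s k88 k240 13 (.s k92 k80 1 (.d k252 k172 k168 11
  13)))))), (.s k12 k8 1 (.s k166 k247 12 (.s k6 k246 11 (.s k3 k9 2 (.s k1 k2 0 (.d k169 k253 k252
  13 14))))))] (.c k244 (.l (.s k12 k8 1 (.s k84 k87 0 (.s k166 k247 12 (.s k89 k243 14 (.s k92 k83
  2 (.d k252 k172 k168 11 13))))))) .n))

def s26_170_24 : T TT 256 :=
  (.f k84 k87 0 (.f k168 k252 13 (.q k4 [(.s k164 k244 11 (.s k160 k172 1 (.s k240 k80 11 (.d k12 k8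
  k88 1 13)))), (.s k166 k247 12 (.s k6 k246 11 (.s k7 k5 0 (.d k244 k164 k165 11 12)))), (.s k12 k8
  1 (.s k166 k247 12 (.s k89 k243 14 (.s k92 k83 2 (.s k80 k88 1 (.s k93 k81 1 (.d k95 k94 k90 0
  2)))))))] (.c k25 (.q k27 [(.s k164 k244 11 (.s k160 k172 1 (.s k240 k80 11 (.d k12 k8 k88 1
  13)))), (.s k166 k247 12 (.s k6 k246 11 (.s k7 k5 0 (.d k244 k164 k165 11 12)))), (.s k12 k8 1 (.s
  k166 k247 12 (.s k89 k243 14 (.s k92 k83 2 (.s k80 k88 1 (.s k93 k81 1 (.d k95 k94 k90 0 2)))))))]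
  .n) (.c k27 (.q k25 [(.s k164 k244 11 (.s k160 k172 1 (.s k240 k80 11 (.d k12 k8 k88 1 13)))), (.s
  k166 k247 12 (.s k6 k246 11 (.s k7 k5 0 (.d k244 k164 k165 11 12)))), (.s k12 k8 1 (.s k38 k51 6
  (.s k21 k55 4 (.s k29 k17 1 (.d k63 k46 k42 4 6)))))] .n) .n)))))

def s26_170_25 : T TT 256 :=
  (.f k84 k87 0 (.f k168 k252 13 (.q k4 [(.s k164 k244 11 (.s k160 k172 1 (.s k240 k80 11 (.d k12 k8
  k88 1 13)))), (.s k166 k247 12 (.s k6 k246 11 (.s k7 k5 0 (.d k244 k164 k165 11 12)))), (.s k12 k8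
  1 (.s k166 k247 12 (.s k89 k243 14 (.s k92 k83 2 (.s k80 k88 1 (.s k93 k81 1 (.d k95 k94 k90 0
  2)))))))] (.c k24 (.q k27 [(.s k164 k244 11 (.s k160 k172 1 (.s k240 k80 11 (.d k12 k8 k88 1
  13)))), (.s k166 k247 12 (.s k6 k246 11 (.s k7 k5 0 (.d k244 k164 k165 11 12)))), (.s k12 k8 1 (.s
  k166 k247 12 (.s k89 k243 14 (.s k92 k83 2 (.s k80 k88 1 (.s k93 k81 1 (.d k95 k94 k90 0 2)))))))]
  .n) (.c k27 (.q k24 [(.s k164 k244 11 (.s k160 k172 1 (.s k240 k80 11 (.d k12 k8 k88 1 13)))), (.s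
  k166 k247 12 (.s k6 k246 11 (.s k7 k5 0 (.d k244 k164 k165 11 12)))), (.s k12 k8 1 (.s k36 k48 5
  (.s k20 k52 3 (.s k28 k16 1 (.d k60 k44 k40 3 5)))))] .n) .n)))))

def s26_170_27 : T TT 256 :=
  (.f k84 k87 0 (.f k168 k252 13 (.q k4 [(.s k164 k244 11 (.s k160 k172 1 (.s k240 k80 11 (.d k12 k8
  k88 1 13)))), (.s k166 k247 12 (.s k6 k246 11 (.s k7 k5 0 (.d k244 k164 k165 11 12)))), (.s k12 k8
  1 (.s k166 k247 12 (.s k89 k243 14 (.s k92 k83 2 (.s k80 k88 1 (.s k93 k81 1 (.d k95 k94 k90 0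
  2)))))))] (.c k24 (.q k25 [(.s k164 k244 11 (.s k160 k172 1 (.s k240 k80 11 (.d k12 k8 k88 1
  13)))), (.s k166 k247 12 (.s k6 k246 11 (.s k7 k5 0 (.d k244 k164 k165 11 12)))), (.s k12 k8 1 (.s
  k38 k51 6 (.s k21 k55 4 (.s k29 k17 1 (.d k63 k46 k42 4 6)))))] .n) (.c k25 (.q k24 [(.s k164 k244
  11 (.s k160 k172 1 (.s k240 k80 11 (.d k12 k8 k88 1 13)))), (.s k166 k247 12 (.s k6 k246 11 (.s k7
  k5 0 (.d k244 k164 k165 11 12)))), (.s k12 k8 1 (.s k36 k48 5 (.s k20 k52 3 (.s k28 k16 1 (.d k60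
  k44 k40 3 5)))))] .n) .n)))))

def s26_170_28 : T TT 256 :=
  (.q k4 [(.s k84 k87 0 (.s k244 k164 11 (.s k165 k7 12 (.s k245 k5 11 (.d k247 k246 k166 0 12))))),
  (.s k12 k8 1 (.s k84 k87 0 (.s k164 k244 11 (.s k88 k240 13 (.s k92 k80 1 (.d k252 k172 k168 11
  13)))))), (.s k12 k8 1 (.s k166 k247 12 (.s k6 k246 11 (.s k3 k9 2 (.s k1 k2 0 (.d k169 k253 k252
  13 14))))))] (.c k244 (.l (.s k12 k8 1 (.s k84 k87 0 (.s k166 k247 12 (.s k89 k243 14 (.s k92 k83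
  2 (.d k252 k172 k168 11 13))))))) .n))

def s26_170_29 : T TT 256 :=
  (.q k4 [(.s k84 k87 0 (.s k244 k164 11 (.s k165 k7 12 (.s k245 k5 11 (.d k247 k246 k166 0 12))))),
  (.s k12 k8 1 (.s k84 k87 0 (.s k164 k244 11 (.s k88 k240 13 (.s k92 k80 1 (.d k252 k172 k168 11
  13)))))), (.s k12 k8 1 (.s k166 k247 12 (.s k6 k246 11 (.s k3 k9 2 (.s k1 k2 0 (.d k169 k253 k252
  13 14))))))] (.c k244 (.l (.s k12 k8 1 (.s k84 k87 0 (.s k166 k247 12 (.s k89 k243 14 (.s k92 k83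
  2 (.d k252 k172 k168 11 13))))))) .n))

def s26_170_30 : T TT 256 :=
  (.q k150 [(.s k20 k215 8 (.s k22 k214 7 (.s k84 k87 0 (.s k212 k148 7 (.d k23 k21 k149 0 8))))),
  (.s k84 k87 0 (.s k252 k168 13 (.s k169 k3 14 (.s k188 k131 6 (.s k60 k124 7 (.s k195 k105 14 (.d
  k214 k22 k233 7 6))))))), (.s k20 k215 8 (.s k22 k214 7 (.s k60 k40 5 (.s k3 k41 6 (.s k1 k2 0 (.d
  k169 k253 k252 13 14))))))] (.c k18 (.l (.s k22 k214 7 (.s k20 k215 8 (.s k23 k21 0 (.s k84 k87 0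
  (.d k212 k148 k149 7 8)))))) (.c k22 (.q k18 [(.s k84 k87 0 (.s k154 k222 9 (.s k16 k223 10 (.s
  k19 k17 0 (.d k220 k152 k153 9 10))))), (.s k20 k215 8 (.s k60 k40 5 (.s k84 k87 0 (.s k105 k195
  14 (.s k124 k67 6 (.d k252 k188 k168 7 13)))))), (.s k20 k215 8 (.s k154 k222 9 (.s k16 k223 10
  (.s k28 k24 1 (.s k211 k89 10 (.d k146 k158 k81 1 8))))))] .n) (.c k214 (.l (.s k20 k215 8 (.s k60
  k40 5 (.s k84 k87 0 (.s k105 k195 14 (.s k124 k67 6 (.d k252 k188 k168 7 13))))))) .n))))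

def s26_170_31 : T TT 256 :=
  (.q k16 [(.s k84 k87 0 (.s k220 k152 9 (.s k153 k19 10 (.s k221 k17 9 (.d k223 k222 k154 0
  10))))), (.s k48 k32 3 (.s k84 k87 0 (.s k152 k220 9 (.s k100 k204 13 (.s k116 k68 3 (.d k252 k184
  k168 9 13)))))), (.s k48 k32 3 (.s k154 k223 10 (.s k18 k222 9 (.s k3 k33 4 (.s k1 k2 0 (.d k169
  k253 k252 13 14))))))] (.c k220 (.l (.s k48 k32 3 (.s k84 k87 0 (.s k154 k223 10 (.s k101 k207 14
  (.s k116 k71 4 (.d k252 k184 k168 9 13))))))) .n))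

def s26_170_32 : T TT 256 :=
  (.q k101 [(.s k69 k117 3 (.s k71 k116 4 (.s k68 k70 0 (.s k87 k84 0 (.d k119 k103 k102 3 4))))),
  (.s k69 k117 3 (.s k84 k87 0 (.s k207 k138 10 (.s k154 k48 14 (.s k222 k18 9 (.d k252 k237 k168 4
  13)))))), (.s k84 k87 0 (.s k116 k71 4 (.s k252 k168 13 (.s k48 k184 9 (.s k154 k207 14 (.s k18
  k222 9 (.d k3 k169 k33 14 4))))))), (.s k69 k117 3 (.s k71 k116 4 (.s k207 k138 10 (.s k3 k139 9
  (.s k1 k2 0 (.d k169 k253 k252 13 14))))))] .n)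

def s26_170_33 : T TT 256 :=
  (.q k4 [(.s k84 k87 0 (.s k244 k164 11 (.s k165 k7 12 (.s k245 k5 11 (.d k247 k246 k166 0 12))))),
  (.s k12 k8 1 (.s k84 k87 0 (.s k164 k244 11 (.s k88 k240 13 (.s k92 k80 1 (.d k252 k172 k168 11
  13)))))), (.s k12 k8 1 (.s k166 k247 12 (.s k6 k246 11 (.s k3 k9 2 (.s k1 k2 0 (.d k169 k253 k252
  13 14))))))] (.c k244 (.l (.s k12 k8 1 (.s k84 k87 0 (.s k166 k247 12 (.s k89 k243 14 (.s k92 k83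
  2 (.d k252 k172 k168 11 13))))))) .n))

def s26_170_34 : T TT 256 :=
  (.q k102 [(.s k68 k119 4 (.s k70 k118 3 (.s k71 k69 0 (.s k84 k87 0 (.d k116 k100 k101 3 4))))),
  (.s k84 k87 0 (.s k118 k70 3 (.s k252 k168 13 (.s k51 k185 10 (.s k153 k204 14 (.s k19 k220 10 (.d
  k3 k169 k35 14 3))))))), (.s k68 k119 4 (.s k84 k87 0 (.s k204 k136 9 (.s k153 k51 14 (.s k220 k19
  10 (.d k252 k236 k168 3 13)))))), (.s k68 k119 4 (.s k70 k118 3 (.s k204 k136 9 (.s k3 k137 10 (.s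
  k1 k2 0 (.d k169 k253 k252 13 14))))))] .n)

def s26_170_35 : T TT 256 :=
  (.q k4 [(.s k84 k87 0 (.s k244 k164 11 (.s k165 k7 12 (.s k245 k5 11 (.d k247 k246 k166 0 12))))),
  (.s k12 k8 1 (.s k84 k87 0 (.s k164 k244 11 (.s k88 k240 13 (.s k92 k80 1 (.d k252 k172 k168 11
  13)))))), (.s k12 k8 1 (.s k166 k247 12 (.s k6 k246 11 (.s k3 k9 2 (.s k1 k2 0 (.d k169 k253 k252
  13 14))))))] (.c k244 (.l (.s k12 k8 1 (.s k84 k87 0 (.s k166 k247 12 (.s k89 k243 14 (.s k92 k83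
  2 (.d k252 k172 k168 11 13))))))) .n))

def s26_170_36 : T TT 256 :=
  (.q k4 [(.s k84 k87 0 (.s k166 k247 12 (.s k6 k246 11 (.s k7 k5 0 (.d k244 k164 k165 11 12))))),
  (.s k12 k8 1 (.s k84 k87 0 (.s k164 k244 11 (.s k88 k240 13 (.s k92 k80 1 (.d k252 k172 k168 11
  13)))))), (.s k12 k8 1 (.s k166 k247 12 (.s k6 k246 11 (.s k3 k9 2 (.s k1 k2 0 (.d k169 k253 k252
  13 14))))))] (.c k244 (.l (.s k12 k8 1 (.s k84 k87 0 (.s k166 k247 12 (.s k89 k243 14 (.s k92 k83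
  2 (.d k252 k172 k168 11 13))))))) .n))

def s26_170_37 : T TT 256 :=
  (.q k48 [(.s k32 k16 3 (.s k84 k87 0 (.s k168 k252 13 (.s k100 k236 9 (.s k68 k116 3 (.d k204 k136
  k152 9 13)))))), (.s k16 k32 3 (.s k154 k223 10 (.s k18 k222 9 (.s k3 k33 4 (.s k1 k2 0 (.d k169
  k253 k252 13 14)))))), (.s k84 k87 0 (.s k252 k168 13 (.s k116 k184 9 (.s k101 k71 4 (.s k69 k117
  3 (.d k207 k138 k154 10 14))))))] (.c k252 (.l (.s k16 k32 3 (.s k84 k87 0 (.s k154 k223 10 (.s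
  k18 k222 9 (.s k19 k17 0 (.d k220 k152 k153 9 10))))))) .n))

def s26_170_38 : T TT 256 :=
  (.f k84 k87 0 (.f k168 k252 13 (.q k20 [(.s k148 k212 7 (.s k128 k188 5 (.s k192 k64 7 (.d k60 k40
  k104 5 13)))), (.s k150 k215 8 (.s k22 k214 7 (.s k23 k21 0 (.d k212 k148 k149 7 8)))), (.s k60
  k40 5 (.s k150 k215 8 (.s k105 k195 14 (.s k124 k67 6 (.s k64 k104 5 (.s k125 k65 5 (.d k127 k126
  k106 0 6)))))))] (.c k14 (.q k50 [(.s k148 k212 7 (.s k128 k188 5 (.s k192 k64 7 (.d k60 k40 k104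
  5 13)))), (.s k150 k215 8 (.s k22 k214 7 (.s k23 k21 0 (.d k212 k148 k149 7 8)))), (.s k60 k40 5
  (.s k150 k215 8 (.s k105 k195 14 (.s k124 k67 6 (.s k64 k104 5 (.s k125 k65 5 (.d k127 k126 k106 0
  6)))))))] .n) (.c k50 (.q k14 [(.s k148 k212 7 (.s k128 k188 5 (.s k192 k64 7 (.d k60 k40 k104 5
  13)))), (.s k150 k215 8 (.s k22 k214 7 (.s k23 k21 0 (.d k212 k148 k149 7 8)))), (.s k60 k40 5 (.s
  k150 k215 8 (.s k105 k195 14 (.s k124 k67 6 (.s k64 k104 5 (.s k125 k65 5 (.d k127 k126 k106 0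
  6)))))))] .n) .n)))))

def s26_170_39 : T TT 256 :=
  (.q k4 [(.s k84 k87 0 (.s k166 k247 12 (.s k6 k246 11 (.s k7 k5 0 (.d k244 k164 k165 11 12))))),
  (.s k12 k8 1 (.s k84 k87 0 (.s k164 k244 11 (.s k88 k240 13 (.s k92 k80 1 (.d k252 k172 k168 11
  13)))))), (.s k12 k8 1 (.s k166 k247 12 (.s k6 k246 11 (.s k3 k9 2 (.s k1 k2 0 (.d k169 k253 k252
  13 14))))))] (.c k244 (.l (.s k12 k8 1 (.s k84 k87 0 (.s k166 k247 12 (.s k89 k243 14 (.s k92 k83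
  2 (.d k252 k172 k168 11 13))))))) .n))

def s26_170_40 : T TT 256 :=
  (.q k105 [(.s k65 k125 5 (.s k67 k124 6 (.s k64 k66 0 (.s k87 k84 0 (.d k127 k107 k106 5 6))))),
  (.s k65 k125 5 (.s k84 k87 0 (.s k195 k130 8 (.s k150 k60 14 (.s k214 k22 7 (.d k252 k233 k168 6
  13)))))), (.s k84 k87 0 (.s k124 k67 6 (.s k252 k168 13 (.s k60 k188 7 (.s k150 k195 14 (.s k22
  k214 7 (.d k3 k169 k41 14 6))))))), (.s k65 k125 5 (.s k67 k124 6 (.s k195 k130 8 (.s k3 k131 7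
  (.s k1 k2 0 (.d k169 k253 k252 13 14))))))] .n)

def s26_170_41 : T TT 256 :=
  (.f k84 k87 0 (.f k168 k252 13 (.q k4 [(.s k164 k244 11 (.s k160 k172 1 (.s k240 k80 11 (.d k12 k8
  k88 1 13)))), (.s k166 k247 12 (.s k6 k246 11 (.s k7 k5 0 (.d k244 k164 k165 11 12)))), (.s k12 k8
  1 (.s k166 k247 12 (.s k89 k243 14 (.s k92 k83 2 (.s k80 k88 1 (.s k93 k81 1 (.d k95 k94 k90 0
  2)))))))] (.c k11 (.q k56 [(.s k164 k244 11 (.s k160 k172 1 (.s k240 k80 11 (.d k12 k8 k88 1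
  13)))), (.s k166 k247 12 (.s k6 k246 11 (.s k7 k5 0 (.d k244 k164 k165 11 12)))), (.s k8 k12 1 (.s
  k40 k24 3 (.s k60 k20 5 (.s k104 k232 7 (.s k64 k124 5 (.d k192 k128 k148 7 13))))))] .n) (.c k56
  (.q k11 [(.s k164 k244 11 (.s k160 k172 1 (.s k240 k80 11 (.d k12 k8 k88 1 13)))), (.s k166 k247
  12 (.s k6 k246 11 (.s k7 k5 0 (.d k244 k164 k165 11 12)))), (.s k8 k12 1 (.s k10 k9 0 (.s k5 k15 2
  (.s k6 k7 0 (.d k166 k247 k246 12 11)))))] .n) .n)))))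

def s26_170_42 : T TT 256 :=
  (.q k106 [(.s k64 k127 6 (.s k66 k126 5 (.s k67 k65 0 (.s k84 k87 0 (.d k124 k104 k105 5 6))))),
  (.s k84 k87 0 (.s k126 k66 5 (.s k252 k168 13 (.s k63 k189 8 (.s k149 k192 14 (.s k23 k212 8 (.d
  k3 k169 k43 14 5))))))), (.s k64 k127 6 (.s k84 k87 0 (.s k192 k128 7 (.s k149 k63 14 (.s k212 k23
  8 (.d k252 k232 k168 5 13)))))), (.s k64 k127 6 (.s k66 k126 5 (.s k192 k128 7 (.s k3 k129 8 (.s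
  k1 k2 0 (.d k169 k253 k252 13 14))))))] (.c k10 (.q k58 [(.s k64 k127 6 (.s k66 k126 5 (.s k67 k65
  0 (.s k84 k87 0 (.d k124 k104 k105 5 6))))), (.s k84 k87 0 (.s k154 k202 11 (.s k16 k223 10 (.s
  k18 k222 9 (.s k19 k17 0 (.d k220 k152 k153 9 10)))))), (.s k64 k127 6 (.s k66 k126 5 (.s k192
  k128 7 (.s k3 k129 8 (.s k1 k2 0 (.d k169 k253 k252 13 14))))))] (.c k90 (.q k250 [(.s k64 k127 6
  (.s k66 k126 5 (.s k67 k65 0 (.s k84 k87 0 (.d k124 k104 k105 5 6))))), (.s k84 k87 0 (.s k154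
  k202 11 (.s k16 k223 10 (.s k18 k222 9 (.s k19 k17 0 (.d k220 k152 k153 9 10)))))), (.s k64 k127 6
  (.s k66 k126 5 (.s k192 k128 7 (.s k3 k129 8 (.s k1 k2 0 (.d k169 k253 k252 13 14))))))] (.c k154
  (.q k218 [(.s k64 k127 6 (.s k66 k126 5 (.s k67 k65 0 (.s k84 k87 0 (.d k124 k104 k105 5 6))))),
  (.s k64 k127 6 (.s k192 k128 7 (.s k149 k63 14 (.s k213 k21 7 (.d k234 k255 k202 6 3))))), (.s k84
  k87 0 (.s k126 k66 5 (.s k252 k168 13 (.s k63 k189 8 (.s k149 k192 14 (.s k23 k212 8 (.d k3 k169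
  k43 14 5)))))))] (.c k138 (.l (.s k186 k122 7 (.s k64 k127 6 (.s k66 k126 5 (.s k67 k65 0 (.s k84
  k87 0 (.d k124 k104 k105 5 6))))))) (.c k186 (.q k138 [(.s k64 k127 6 (.s k202 k234 3 (.s k207 k69
  10 (.d k192 k197 k128 2 7)))), (.s k69 k207 10 (.s k87 k84 0 (.s k101 k117 3 (.s k71 k116 4 (.s
  k68 k70 0 (.d k119 k103 k102 3 4)))))), (.s k64 k127 6 (.s k66 k126 5 (.s k67 k65 0 (.s k84 k87 0
  (.d k124 k104 k105 5 6)))))] .n) .n))) (.c k218 (.l (.s k154 k202 11 (.s k16 k223 10 (.s k18 k222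
  9 (.s k19 k17 0 (.s k84 k87 0 (.d k220 k152 k153 9 10))))))) .n))) (.c k250 (.q k90 [(.s k64 k127
  6 (.s k66 k126 5 (.s k67 k65 0 (.s k84 k87 0 (.d k124 k104 k105 5 6))))), (.s k66 k126 5 (.s k74
  k122 3 (.s k78 k70 1 (.s k82 k94 1 (.d k114 k98 k102 3 5))))), (.s k64 k127 6 (.s k74 k122 3 (.s
  k79 k69 2 (.s k80 k95 2 (.d k112 k96 k101 3 6)))))] .n) .n))) (.c k58 (.q k10 [(.s k64 k127 6 (.s
  k66 k126 5 (.s k67 k65 0 (.s k84 k87 0 (.d k124 k104 k105 5 6))))), (.s k5 k15 2 (.s k87 k84 0 (.s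
  k165 k245 11 (.s k7 k244 12 (.s k4 k6 0 (.d k247 k167 k166 11 12)))))), (.s k15 k5 2 (.s k64 k127
  6 (.s k192 k128 7 (.s k74 k133 10 (.s k69 k79 2 (.d k138 k202 k207 7 10))))))] .n) .n)))

def s26_170_43 : T TT 256 :=
  (.q k4 [(.s k84 k87 0 (.s k244 k164 11 (.s k165 k7 12 (.s k245 k5 11 (.d k247 k246 k166 0 12))))),
  (.s k12 k8 1 (.s k84 k87 0 (.s k164 k244 11 (.s k88 k240 13 (.s k92 k80 1 (.d k252 k172 k168 11
  13)))))), (.s k12 k8 1 (.s k166 k247 12 (.s k6 k246 11 (.s k3 k9 2 (.s k1 k2 0 (.d k169 k253 k252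
  13 14))))))] (.c k244 (.l (.s k12 k8 1 (.s k84 k87 0 (.s k166 k247 12 (.s k89 k243 14 (.s k92 k83
  2 (.d k252 k172 k168 11 13))))))) .n))

def s26_170_44 : T TT 256 :=
  (.q k4 [(.s k84 k87 0 (.s k166 k247 12 (.s k6 k246 11 (.s k7 k5 0 (.d k244 k164 k165 11 12))))),
  (.s k12 k8 1 (.s k84 k87 0 (.s k164 k244 11 (.s k88 k240 13 (.s k92 k80 1 (.d k252 k172 k168 11
  13)))))), (.s k12 k8 1 (.s k166 k247 12 (.s k6 k246 11 (.s k3 k9 2 (.s k1 k2 0 (.d k169 k253 k252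
  13 14))))))] (.c k244 (.l (.s k12 k8 1 (.s k84 k87 0 (.s k166 k247 12 (.s k89 k243 14 (.s k92 k83
  2 (.d k252 k172 k168 11 13))))))) .n))

def s26_170_45 : T TT 256 :=
  (.q k4 [(.s k84 k87 0 (.s k244 k164 11 (.s k165 k7 12 (.s k245 k5 11 (.d k247 k246 k166 0 12))))),
  (.s k12 k8 1 (.s k84 k87 0 (.s k164 k244 11 (.s k88 k240 13 (.s k92 k80 1 (.d k252 k172 k168 11
  13)))))), (.s k12 k8 1 (.s k166 k247 12 (.s k6 k246 11 (.s k3 k9 2 (.s k1 k2 0 (.d k169 k253 k252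
  13 14))))))] (.c k244 (.l (.s k12 k8 1 (.s k84 k87 0 (.s k166 k247 12 (.s k89 k243 14 (.s k92 k83
  2 (.d k252 k172 k168 11 13))))))) .n))

def s26_170_46 : T TT 256 :=
  (.q k4 [(.s k84 k87 0 (.s k244 k164 11 (.s k165 k7 12 (.s k245 k5 11 (.d k247 k246 k166 0 12))))),
  (.s k12 k8 1 (.s k84 k87 0 (.s k164 k244 11 (.s k88 k240 13 (.s k92 k80 1 (.d k252 k172 k168 11
  13)))))), (.s k12 k8 1 (.s k166 k247 12 (.s k6 k246 11 (.s k3 k9 2 (.s k1 k2 0 (.d k169 k253 k252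
  13 14))))))] (.c k244 (.l (.s k12 k8 1 (.s k84 k87 0 (.s k166 k247 12 (.s k89 k243 14 (.s k92 k83
  2 (.d k252 k172 k168 11 13))))))) .n))

def s26_170_47 : T TT 256 :=
  (.q k4 [(.s k84 k87 0 (.s k244 k164 11 (.s k165 k7 12 (.s k245 k5 11 (.d k247 k246 k166 0 12))))),
  (.s k12 k8 1 (.s k84 k87 0 (.s k164 k244 11 (.s k88 k240 13 (.s k92 k80 1 (.d k252 k172 k168 11
  13)))))), (.s k12 k8 1 (.s k166 k247 12 (.s k6 k246 11 (.s k3 k9 2 (.s k1 k2 0 (.d k169 k253 k252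
  13 14))))))] (.c k244 (.l (.s k12 k8 1 (.s k84 k87 0 (.s k166 k247 12 (.s k89 k243 14 (.s k92 k83
  2 (.d k252 k172 k168 11 13))))))) .n))

def s26_170_48 : T TT 256 :=
  (.f k84 k87 0 (.q k15 [(.s k252 k168 13 (.s k94 k173 12 (.s k90 k82 1 (.s k80 k95 2 (.d k240 k160
  k165 11 14))))), (.s k5 k10 2 (.s k165 k245 11 (.s k7 k244 12 (.s k3 k11 1 (.s k1 k2 0 (.s k6 k4 0
  (.d k9 k13 k12 1 2)))))))] (.c k90 (.l (.s k252 k168 13 (.s k169 k3 14 (.s k173 k94 12 (.s k165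
  k161 1 (.d k5 k10 k245 2 11)))))) (.c k165 (.l (.s k252 k168 13 (.s k94 k173 12 (.s k90 k82 1 (.s
  k80 k95 2 (.s k169 k3 14 (.s k248 k11 12 (.d k240 k244 k160 1 11)))))))) .n))))

def s26_170_49 : T TT 256 :=
  (.q k4 [(.s k84 k87 0 (.s k244 k164 11 (.s k165 k7 12 (.s k245 k5 11 (.d k247 k246 k166 0 12))))),
  (.s k12 k8 1 (.s k84 k87 0 (.s k164 k244 11 (.s k88 k240 13 (.s k92 k80 1 (.d k252 k172 k168 11
  13)))))), (.s k12 k8 1 (.s k166 k247 12 (.s k6 k246 11 (.s k3 k9 2 (.s k1 k2 0 (.d k169 k253 k252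
  13 14))))))] (.c k244 (.l (.s k12 k8 1 (.s k84 k87 0 (.s k166 k247 12 (.s k89 k243 14 (.s k92 k83
  2 (.d k252 k172 k168 11 13))))))) .n))

def s26_170_50 : T TT 256 :=
  (.f k84 k87 0 (.f k168 k252 13 (.q k4 [(.s k164 k244 11 (.s k160 k172 1 (.s k240 k80 11 (.d k12 k8
  k88 1 13)))), (.s k166 k247 12 (.s k6 k246 11 (.s k7 k5 0 (.d k244 k164 k165 11 12)))), (.s k12 k8
  1 (.s k166 k247 12 (.s k89 k243 14 (.s k92 k83 2 (.s k80 k88 1 (.s k93 k81 1 (.d k95 k94 k90 0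
  2)))))))] (.c k14 (.q k38 [(.s k164 k244 11 (.s k160 k172 1 (.s k240 k80 11 (.d k12 k8 k88 1
  13)))), (.s k166 k247 12 (.s k6 k246 11 (.s k7 k5 0 (.d k244 k164 k165 11 12)))), (.s k12 k8 1 (.s
  k21 k55 4 (.s k25 k51 6 (.s k29 k17 1 (.d k63 k46 k42 4 6)))))] .n) (.c k38 (.q k14 [(.s k164 k244
  11 (.s k160 k172 1 (.s k240 k80 11 (.d k12 k8 k88 1 13)))), (.s k166 k247 12 (.s k6 k246 11 (.s
  k10 k2 1 (.d k5 k7 k15 0 2))))] (.c k244 (.l (.s k8 k12 1 (.s k166 k247 12 (.s k90 k242 13 (.s k80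
  k95 2 (.d k88 k92 k248 1 11)))))) .n)) .n)))))

def s26_170_51 : T TT 256 :=
  (.q k4 [(.s k84 k87 0 (.s k244 k164 11 (.s k165 k7 12 (.s k245 k5 11 (.d k247 k246 k166 0 12))))),
  (.s k12 k8 1 (.s k84 k87 0 (.s k164 k244 11 (.s k88 k240 13 (.s k92 k80 1 (.d k252 k172 k168 11
  13)))))), (.s k12 k8 1 (.s k166 k247 12 (.s k6 k246 11 (.s k3 k9 2 (.s k1 k2 0 (.d k169 k253 k252
  13 14))))))] (.c k244 (.l (.s k12 k8 1 (.s k84 k87 0 (.s k166 k247 12 (.s k89 k243 14 (.s k92 k83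
  2 (.d k252 k172 k168 11 13))))))) .n))

def s26_170_52 : T TT 256 :=
  (.q k4 [(.s k84 k87 0 (.s k244 k164 11 (.s k165 k7 12 (.s k245 k5 11 (.d k247 k246 k166 0 12))))),
  (.s k12 k8 1 (.s k84 k87 0 (.s k164 k244 11 (.s k88 k240 13 (.s k92 k80 1 (.d k252 k172 k168 11
  13)))))), (.s k12 k8 1 (.s k166 k247 12 (.s k6 k246 11 (.s k3 k9 2 (.s k1 k2 0 (.d k169 k253 k252
  13 14))))))] (.c k244 (.l (.s k12 k8 1 (.s k84 k87 0 (.s k166 k247 12 (.s k89 k243 14 (.s k92 k83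
  2 (.d k252 k172 k168 11 13))))))) .n))

def s26_170_53 : T TT 256 :=
  (.q k4 [(.s k84 k87 0 (.s k166 k247 12 (.s k6 k246 11 (.s k244 k164 11 (.d k7 k5 k165 0 12))))),
  (.s k12 k8 1 (.s k84 k87 0 (.s k164 k244 11 (.s k88 k240 13 (.s k92 k80 1 (.d k252 k172 k168 11
  13)))))), (.s k12 k8 1 (.s k166 k247 12 (.s k6 k246 11 (.s k3 k9 2 (.s k1 k2 0 (.d k169 k253 k252
  13 14))))))] (.c k244 (.l (.s k12 k8 1 (.s k84 k87 0 (.s k166 k247 12 (.s k89 k243 14 (.s k92 k83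
  2 (.d k252 k172 k168 11 13))))))) .n))

def s26_170_54 : T TT 256 :=
  (.q k4 [(.s k84 k87 0 (.s k244 k164 11 (.s k165 k7 12 (.s k245 k5 11 (.d k247 k246 k166 0 12))))),
  (.s k12 k8 1 (.s k84 k87 0 (.s k164 k244 11 (.s k88 k240 13 (.s k92 k80 1 (.d k252 k172 k168 11
  13)))))), (.s k12 k8 1 (.s k166 k247 12 (.s k6 k246 11 (.s k3 k9 2 (.s k1 k2 0 (.d k169 k253 k252
  13 14))))))] (.c k244 (.l (.s k12 k8 1 (.s k84 k87 0 (.s k166 k247 12 (.s k89 k243 14 (.s k92 k83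
  2 (.d k252 k172 k168 11 13))))))) .n))

def s26_170_55 : T TT 256 :=
  (.q k4 [(.s k84 k87 0 (.s k244 k164 11 (.s k165 k7 12 (.s k245 k5 11 (.d k247 k246 k166 0 12))))),
  (.s k12 k8 1 (.s k84 k87 0 (.s k164 k244 11 (.s k88 k240 13 (.s k92 k80 1 (.d k252 k172 k168 11
  13)))))), (.s k12 k8 1 (.s k166 k247 12 (.s k6 k246 11 (.s k3 k9 2 (.s k1 k2 0 (.d k169 k253 k252
  13 14))))))] (.c k244 (.l (.s k12 k8 1 (.s k84 k87 0 (.s k166 k247 12 (.s k89 k243 14 (.s k92 k83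
  2 (.d k252 k172 k168 11 13))))))) .n))

def s26_170_56 : T TT 256 :=
  (.f k84 k87 0 (.f k168 k252 13 (.q k4 [(.s k164 k244 11 (.s k160 k172 1 (.s k240 k80 11 (.d k12 k8
  k88 1 13)))), (.s k166 k247 12 (.s k6 k246 11 (.s k7 k5 0 (.d k244 k164 k165 11 12)))), (.s k12 k8
  1 (.s k166 k247 12 (.s k89 k243 14 (.s k92 k83 2 (.s k80 k88 1 (.s k93 k81 1 (.d k95 k94 k90 0
  2)))))))] (.c k11 (.q k41 [(.s k164 k244 11 (.s k160 k172 1 (.s k240 k80 11 (.d k12 k8 k88 1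
  13)))), (.s k166 k247 12 (.s k6 k246 11 (.s k7 k5 0 (.d k244 k164 k165 11 12)))), (.s k12 k8 1 (.s
  k166 k247 12 (.s k89 k243 14 (.s k92 k83 2 (.s k80 k88 1 (.s k93 k81 1 (.d k95 k94 k90 0 2)))))))]
  .n) (.c k41 (.q k11 [(.s k164 k244 11 (.s k160 k172 1 (.s k240 k80 11 (.d k12 k8 k88 1 13)))), (.s
  k166 k247 12 (.s k6 k246 11 (.s k7 k5 0 (.d k244 k164 k165 11 12)))), (.s k8 k12 1 (.s k10 k9 0
  (.s k5 k15 2 (.s k6 k7 0 (.d k166 k247 k246 12 11)))))] .n) .n)))))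

def s26_170_57 : T TT 256 :=
  (.q k4 [(.s k84 k87 0 (.s k244 k164 11 (.s k165 k7 12 (.s k245 k5 11 (.d k247 k246 k166 0 12))))),
  (.s k12 k8 1 (.s k84 k87 0 (.s k164 k244 11 (.s k88 k240 13 (.s k92 k80 1 (.d k252 k172 k168 11
  13)))))), (.s k12 k8 1 (.s k166 k247 12 (.s k6 k246 11 (.s k3 k9 2 (.s k1 k2 0 (.d k169 k253 k252
  13 14))))))] (.c k244 (.l (.s k12 k8 1 (.s k84 k87 0 (.s k166 k247 12 (.s k89 k243 14 (.s k92 k83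
  2 (.d k252 k172 k168 11 13))))))) .n))

def s26_170_58 : T TT 256 :=
  (.f k84 k87 0 (.q k90 [(.s k80 k95 2 (.s k82 k94 1 (.s k83 k81 0 (.d k92 k88 k89 1 2)))), (.s k94
  k82 1 (.s k252 k168 13 (.s k15 k173 12 (.s k165 k240 14 (.d k5 k10 k245 2 11))))), (.s k80 k95 2
  (.s k240 k160 11 (.s k165 k15 14 (.s k244 k7 12 (.d k252 k248 k168 1 13)))))] (.c k10 (.q k42 [(.s
  k80 k95 2 (.s k82 k94 1 (.s k83 k81 0 (.d k92 k88 k89 1 2)))), (.s k63 k21 6 (.s k252 k168 13 (.s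
  k126 k189 8 (.s k106 k66 5 (.s k64 k127 6 (.d k192 k128 k149 7 14))))))] .n) (.c k42 (.q k10 [(.s
  k15 k5 2 (.s k94 k82 1 (.d k252 k173 k168 12 13))), (.s k15 k5 2 (.s k80 k95 2 (.d k240 k160 k165
  11 14))), (.s k80 k95 2 (.s k82 k94 1 (.s k83 k81 0 (.d k92 k88 k89 1 2))))] (.c k106 (.q k234
  [(.s k15 k5 2 (.s k94 k82 1 (.d k252 k173 k168 12 13))), (.s k15 k5 2 (.s k80 k95 2 (.d k240 k160
  k165 11 14))), (.s k80 k95 2 (.s k82 k94 1 (.s k83 k81 0 (.d k92 k88 k89 1 2))))] (.c k154 (.q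
  k202 [(.s k15 k5 2 (.s k94 k82 1 (.d k252 k173 k168 12 13))), (.s k15 k5 2 (.s k80 k95 2 (.d k240
  k160 k165 11 14))), (.s k80 k95 2 (.s k82 k94 1 (.s k83 k81 0 (.d k92 k88 k89 1 2))))] (.c k138
  (.q k186 [(.s k15 k5 2 (.s k94 k82 1 (.d k252 k173 k168 12 13))), (.s k15 k5 2 (.s k80 k95 2 (.d
  k240 k160 k165 11 14))), (.s k80 k95 2 (.s k82 k94 1 (.s k83 k81 0 (.d k92 k88 k89 1 2))))] .n)
  (.c k186 (.l (.s k138 k74 7 (.s k15 k5 2 (.s k80 k95 2 (.d k240 k160 k165 11 14))))) .n))) (.c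
  k202 (.q k154 [(.s k15 k5 2 (.s k94 k82 1 (.d k252 k173 k168 12 13))), (.s k16 k223 10 (.s k18
  k222 9 (.s k19 k17 0 (.d k220 k152 k153 9 10))))] .n) .n))) (.c k234 (.q k106 [(.s k15 k5 2 (.s
  k94 k82 1 (.d k252 k173 k168 12 13))), (.s k64 k127 6 (.s k66 k126 5 (.s k67 k65 0 (.d k124 k104
  k105 5 6))))] .n) .n))) .n))))

def s26_170_59 : T TT 256 :=
  (.q k4 [(.s k84 k87 0 (.s k244 k164 11 (.s k165 k7 12 (.s k245 k5 11 (.d k247 k246 k166 0 12))))),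
  (.s k12 k8 1 (.s k84 k87 0 (.s k164 k244 11 (.s k88 k240 13 (.s k92 k80 1 (.d k252 k172 k168 11
  13)))))), (.s k12 k8 1 (.s k166 k247 12 (.s k6 k246 11 (.s k3 k9 2 (.s k1 k2 0 (.d k169 k253 k252
  13 14))))))] (.c k244 (.l (.s k12 k8 1 (.s k84 k87 0 (.s k166 k247 12 (.s k89 k243 14 (.s k92 k83
  2 (.d k252 k172 k168 11 13))))))) .n))

def s26_170_60 : T TT 256 :=
  (.q k4 [(.s k84 k87 0 (.s k244 k164 11 (.s k165 k7 12 (.s k245 k5 11 (.d k247 k246 k166 0 12))))),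
  (.s k12 k8 1 (.s k84 k87 0 (.s k164 k244 11 (.s k88 k240 13 (.s k92 k80 1 (.d k252 k172 k168 11
  13)))))), (.s k12 k8 1 (.s k166 k247 12 (.s k6 k246 11 (.s k3 k9 2 (.s k1 k2 0 (.d k169 k253 k252
  13 14))))))] (.c k244 (.l (.s k12 k8 1 (.s k84 k87 0 (.s k166 k247 12 (.s k89 k243 14 (.s k92 k83
  2 (.d k252 k172 k168 11 13))))))) .n))

def s26_170_61 : T TT 256 :=
  (.q k4 [(.s k84 k87 0 (.s k244 k164 11 (.s k165 k7 12 (.s k245 k5 11 (.d k247 k246 k166 0 12))))),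
  (.s k12 k8 1 (.s k84 k87 0 (.s k164 k244 11 (.s k88 k240 13 (.s k92 k80 1 (.d k252 k172 k168 11
  13)))))), (.s k12 k8 1 (.s k166 k247 12 (.s k6 k246 11 (.s k3 k9 2 (.s k1 k2 0 (.d k169 k253 k252
  13 14))))))] (.c k244 (.l (.s k12 k8 1 (.s k84 k87 0 (.s k166 k247 12 (.s k89 k243 14 (.s k92 k83
  2 (.d k252 k172 k168 11 13))))))) .n))

def s26_170_62 : T TT 256 :=
  (.q k4 [(.s k84 k87 0 (.s k244 k164 11 (.s k165 k7 12 (.s k245 k5 11 (.d k247 k246 k166 0 12))))),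
  (.s k12 k8 1 (.s k84 k87 0 (.s k164 k244 11 (.s k88 k240 13 (.s k92 k80 1 (.d k252 k172 k168 11
  13)))))), (.s k12 k8 1 (.s k166 k247 12 (.s k6 k246 11 (.s k3 k9 2 (.s k1 k2 0 (.d k169 k253 k252
  13 14))))))] (.c k244 (.l (.s k12 k8 1 (.s k84 k87 0 (.s k166 k247 12 (.s k89 k243 14 (.s k92 k83
  2 (.d k252 k172 k168 11 13))))))) .n))

def s26_170_63 : T TT 256 :=
  (.q k4 [(.s k84 k87 0 (.s k244 k164 11 (.s k165 k7 12 (.s k245 k5 11 (.d k247 k246 k166 0 12))))),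
  (.s k12 k8 1 (.s k84 k87 0 (.s k164 k244 11 (.s k88 k240 13 (.s k92 k80 1 (.d k252 k172 k168 11
  13)))))), (.s k12 k8 1 (.s k166 k247 12 (.s k6 k246 11 (.s k3 k9 2 (.s k1 k2 0 (.d k169 k253 k252
  13 14))))))] (.c k244 (.l (.s k12 k8 1 (.s k84 k87 0 (.s k166 k247 12 (.s k89 k243 14 (.s k92 k83
  2 (.d k252 k172 k168 11 13))))))) .n))

def s26_170_64 : T TT 256 :=
  (.q k4 [(.s k84 k87 0 (.s k244 k164 11 (.s k165 k7 12 (.s k245 k5 11 (.d k247 k246 k166 0 12))))),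
  (.s k12 k8 1 (.s k84 k87 0 (.s k164 k244 11 (.s k88 k240 13 (.s k92 k80 1 (.d k252 k172 k168 11
  13)))))), (.s k12 k8 1 (.s k166 k247 12 (.s k6 k246 11 (.s k3 k9 2 (.s k1 k2 0 (.d k169 k253 k252
  13 14))))))] (.c k244 (.l (.s k12 k8 1 (.s k84 k87 0 (.s k166 k247 12 (.s k89 k243 14 (.s k92 k83
  2 (.d k252 k172 k168 11 13))))))) .n))

def s26_170_65 : T TT 256 :=
  (.q k4 [(.s k84 k87 0 (.s k244 k164 11 (.s k165 k7 12 (.s k245 k5 11 (.d k247 k246 k166 0 12))))),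
  (.s k12 k8 1 (.s k84 k87 0 (.s k164 k244 11 (.s k88 k240 13 (.s k92 k80 1 (.d k252 k172 k168 11
  13)))))), (.s k12 k8 1 (.s k166 k247 12 (.s k6 k246 11 (.s k3 k9 2 (.s k1 k2 0 (.d k169 k253 k252
  13 14))))))] (.c k244 (.l (.s k12 k8 1 (.s k84 k87 0 (.s k166 k247 12 (.s k89 k243 14 (.s k92 k83
  2 (.d k252 k172 k168 11 13))))))) .n))

def s26_170_66 : T TT 256 :=
  (.q k4 [(.s k84 k87 0 (.s k244 k164 11 (.s k165 k7 12 (.s k245 k5 11 (.d k247 k246 k166 0 12))))),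
  (.s k12 k8 1 (.s k84 k87 0 (.s k164 k244 11 (.s k88 k240 13 (.s k92 k80 1 (.d k252 k172 k168 11
  13)))))), (.s k12 k8 1 (.s k166 k247 12 (.s k6 k246 11 (.s k3 k9 2 (.s k1 k2 0 (.d k169 k253 k252
  13 14))))))] (.c k244 (.l (.s k12 k8 1 (.s k84 k87 0 (.s k166 k247 12 (.s k89 k243 14 (.s k92 k83
  2 (.d k252 k172 k168 11 13))))))) .n))

def s26_170_67 : T TT 256 :=
  (.q k4 [(.s k84 k87 0 (.s k244 k164 11 (.s k165 k7 12 (.s k245 k5 11 (.d k247 k246 k166 0 12))))),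
  (.s k12 k8 1 (.s k166 k247 12 (.s k6 k246 11 (.s k3 k9 2 (.s k1 k2 0 (.d k169 k253 k252 13
  14)))))), (.s k12 k8 1 (.s k84 k87 0 (.s k164 k244 11 (.s k88 k240 13 (.s k92 k80 1 (.d k252 k172
  k168 11 13))))))] (.c k244 (.l (.s k12 k8 1 (.s k84 k87 0 (.s k166 k247 12 (.s k89 k243 14 (.s k92
  k83 2 (.d k252 k172 k168 11 13))))))) .n))

def s26_170_68 : T TT 256 :=
  (.q k4 [(.s k84 k87 0 (.s k244 k164 11 (.s k165 k7 12 (.s k245 k5 11 (.d k247 k246 k166 0 12))))),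
  (.s k12 k8 1 (.s k84 k87 0 (.s k164 k244 11 (.s k88 k240 13 (.s k92 k80 1 (.d k252 k172 k168 11
  13)))))), (.s k12 k8 1 (.s k166 k247 12 (.s k6 k246 11 (.s k3 k9 2 (.s k1 k2 0 (.d k169 k253 k252
  13 14))))))] (.c k244 (.l (.s k12 k8 1 (.s k84 k87 0 (.s k166 k247 12 (.s k89 k243 14 (.s k92 k83
  2 (.d k252 k172 k168 11 13))))))) .n))

def s26_170_69 : T TT 256 :=
  (.q k4 [(.s k84 k87 0 (.s k166 k247 12 (.s k6 k246 11 (.s k244 k164 11 (.d k7 k5 k165 0 12))))),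
  (.s k12 k8 1 (.s k84 k87 0 (.s k164 k244 11 (.s k88 k240 13 (.s k92 k80 1 (.d k252 k172 k168 11
  13)))))), (.s k12 k8 1 (.s k166 k247 12 (.s k6 k246 11 (.s k3 k9 2 (.s k1 k2 0 (.d k169 k253 k252
  13 14))))))] (.c k244 (.l (.s k12 k8 1 (.s k84 k87 0 (.s k166 k247 12 (.s k89 k243 14 (.s k92 k83
  2 (.d k252 k172 k168 11 13))))))) .n))

def s26_170_70 : T TT 256 :=
  (.q k4 [(.s k84 k87 0 (.s k166 k247 12 (.s k6 k246 11 (.s k7 k5 0 (.d k244 k164 k165 11 12))))),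
  (.s k12 k8 1 (.s k84 k87 0 (.s k164 k244 11 (.s k88 k240 13 (.s k92 k80 1 (.d k252 k172 k168 11
  13)))))), (.s k12 k8 1 (.s k166 k247 12 (.s k6 k246 11 (.s k3 k9 2 (.s k1 k2 0 (.d k169 k253 k252
  13 14))))))] (.c k244 (.l (.s k12 k8 1 (.s k84 k87 0 (.s k166 k247 12 (.s k89 k243 14 (.s k92 k83
  2 (.d k252 k172 k168 11 13))))))) .n))

def s26_170_71 : T TT 256 :=
  (.q k4 [(.s k87 k84 0 (.s k247 k166 12 (.s k7 k167 11 (.s k5 k6 0 (.d k165 k245 k244 11 12))))),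
  (.s k12 k8 1 (.s k84 k87 0 (.s k164 k244 11 (.s k88 k240 13 (.s k92 k80 1 (.d k252 k172 k168 11
  13)))))), (.s k12 k8 1 (.s k166 k247 12 (.s k6 k246 11 (.s k3 k9 2 (.s k1 k2 0 (.d k169 k253 k252
  13 14))))))] (.c k244 (.l (.s k12 k8 1 (.s k84 k87 0 (.s k166 k247 12 (.s k89 k243 14 (.s k92 k83
  2 (.d k252 k172 k168 11 13))))))) .n))

def s26_170_72 : T TT 256 :=
  (.q k4 [(.s k84 k87 0 (.s k244 k164 11 (.s k165 k7 12 (.s k245 k5 11 (.d k247 k246 k166 0 12))))),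
  (.s k12 k8 1 (.s k84 k87 0 (.s k164 k244 11 (.s k88 k240 13 (.s k92 k80 1 (.d k252 k172 k168 11
  13)))))), (.s k12 k8 1 (.s k166 k247 12 (.s k6 k246 11 (.s k3 k9 2 (.s k1 k2 0 (.d k169 k253 k252
  13 14))))))] (.c k244 (.l (.s k12 k8 1 (.s k84 k87 0 (.s k166 k247 12 (.s k89 k243 14 (.s k92 k83
  2 (.d k252 k172 k168 11 13))))))) .n))

def s26_170_73 : T TT 256 :=
  (.q k4 [(.s k84 k87 0 (.s k244 k164 11 (.s k165 k7 12 (.s k245 k5 11 (.d k247 k246 k166 0 12))))),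
  (.s k12 k8 1 (.s k84 k87 0 (.s k164 k244 11 (.s k88 k240 13 (.s k92 k80 1 (.d k252 k172 k168 11
  13)))))), (.s k12 k8 1 (.s k166 k247 12 (.s k6 k246 11 (.s k3 k9 2 (.s k1 k2 0 (.d k169 k253 k252
  13 14))))))] (.c k244 (.l (.s k12 k8 1 (.s k84 k87 0 (.s k166 k247 12 (.s k89 k243 14 (.s k92 k83
  2 (.d k252 k172 k168 11 13))))))) .n))

def s26_170_74 : T TT 256 :=
  (.q k4 [(.s k84 k87 0 (.s k244 k164 11 (.s k165 k7 12 (.s k245 k5 11 (.d k247 k246 k166 0 12))))),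
  (.s k12 k8 1 (.s k84 k87 0 (.s k164 k244 11 (.s k88 k240 13 (.s k92 k80 1 (.d k252 k172 k168 11
  13)))))), (.s k12 k8 1 (.s k166 k247 12 (.s k6 k246 11 (.s k3 k9 2 (.s k1 k2 0 (.d k169 k253 k252
  13 14))))))] (.c k244 (.l (.s k12 k8 1 (.s k84 k87 0 (.s k166 k247 12 (.s k89 k243 14 (.s k92 k83
  2 (.d k252 k172 k168 11 13))))))) .n))

def s26_170_75 : T TT 256 :=
  (.q k4 [(.s k84 k87 0 (.s k244 k164 11 (.s k165 k7 12 (.s k245 k5 11 (.d k247 k246 k166 0 12))))),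
  (.s k12 k8 1 (.s k84 k87 0 (.s k164 k244 11 (.s k88 k240 13 (.s k92 k80 1 (.d k252 k172 k168 11
  13)))))), (.s k12 k8 1 (.s k166 k247 12 (.s k6 k246 11 (.s k3 k9 2 (.s k1 k2 0 (.d k169 k253 k252
  13 14))))))] (.c k244 (.l (.s k12 k8 1 (.s k84 k87 0 (.s k166 k247 12 (.s k89 k243 14 (.s k92 k83
  2 (.d k252 k172 k168 11 13))))))) .n))

def s26_170_76 : T TT 256 :=
  (.q k4 [(.s k84 k87 0 (.s k244 k164 11 (.s k165 k7 12 (.s k245 k5 11 (.d k247 k246 k166 0 12))))),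
  (.s k12 k8 1 (.s k84 k87 0 (.s k164 k244 11 (.s k88 k240 13 (.s k92 k80 1 (.d k252 k172 k168 11
  13)))))), (.s k12 k8 1 (.s k166 k247 12 (.s k6 k246 11 (.s k3 k9 2 (.s k1 k2 0 (.d k169 k253 k252
  13 14))))))] (.c k244 (.l (.s k12 k8 1 (.s k84 k87 0 (.s k166 k247 12 (.s k89 k243 14 (.s k92 k83
  2 (.d k252 k172 k168 11 13))))))) .n))

def s26_170_77 : T TT 256 :=
  (.q k4 [(.s k84 k87 0 (.s k244 k164 11 (.s k165 k7 12 (.s k245 k5 11 (.d k247 k246 k166 0 12))))),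
  (.s k12 k8 1 (.s k84 k87 0 (.s k164 k244 11 (.s k88 k240 13 (.s k92 k80 1 (.d k252 k172 k168 11
  13)))))), (.s k12 k8 1 (.s k166 k247 12 (.s k6 k246 11 (.s k3 k9 2 (.s k1 k2 0 (.d k169 k253 k252
  13 14))))))] (.c k244 (.l (.s k12 k8 1 (.s k84 k87 0 (.s k166 k247 12 (.s k89 k243 14 (.s k92 k83
  2 (.d k252 k172 k168 11 13))))))) .n))

def s26_170_78 : T TT 256 :=
  (.q k4 [(.s k84 k87 0 (.s k244 k164 11 (.s k165 k7 12 (.s k245 k5 11 (.d k247 k246 k166 0 12))))),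
  (.s k12 k8 1 (.s k84 k87 0 (.s k164 k244 11 (.s k88 k240 13 (.s k92 k80 1 (.d k252 k172 k168 11
  13)))))), (.s k12 k8 1 (.s k166 k247 12 (.s k6 k246 11 (.s k3 k9 2 (.s k1 k2 0 (.d k169 k253 k252
  13 14))))))] (.c k244 (.l (.s k12 k8 1 (.s k84 k87 0 (.s k166 k247 12 (.s k89 k243 14 (.s k92 k83
  2 (.d k252 k172 k168 11 13))))))) .n))

def s26_170_79 : T TT 256 :=
  (.q k4 [(.s k84 k87 0 (.s k244 k164 11 (.s k165 k7 12 (.s k245 k5 11 (.d k247 k246 k166 0 12))))),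
  (.s k12 k8 1 (.s k84 k87 0 (.s k164 k244 11 (.s k88 k240 13 (.s k92 k80 1 (.d k252 k172 k168 11
  13)))))), (.s k12 k8 1 (.s k166 k247 12 (.s k6 k246 11 (.s k3 k9 2 (.s k1 k2 0 (.d k169 k253 k252
  13 14))))))] (.c k244 (.l (.s k12 k8 1 (.s k84 k87 0 (.s k166 k247 12 (.s k89 k243 14 (.s k92 k83
  2 (.d k252 k172 k168 11 13))))))) .n))

def s26_170_80 : T TT 256 :=
  (.q k4 [(.s k84 k87 0 (.s k244 k164 11 (.s k165 k7 12 (.s k245 k5 11 (.d k247 k246 k166 0 12))))),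
  (.s k12 k8 1 (.s k84 k87 0 (.s k252 k168 13 (.s k92 k172 11 (.s k89 k83 2 (.d k166 k247 k243 12
  14)))))), (.s k12 k8 1 (.s k166 k247 12 (.s k6 k246 11 (.s k3 k9 2 (.s k1 k2 0 (.d k169 k253 k252
  13 14))))))] (.c k166 (.l (.s k84 k87 0 (.s k244 k164 11 (.s k165 k7 12 (.s k5 k245 11 (.s k15 k10
  2 (.s k252 k168 13 (.d k240 k90 k248 14 1)))))))) (.c k247 (.l (.s k12 k8 1 (.s k84 k87 0 (.s k244
  k164 11 (.s k7 k165 12 (.s k6 k5 0 (.s k3 k9 2 (.d k252 k168 k169 13 14)))))))) .n)))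

def s26_170_81 : T TT 256 :=
  (.q k4 [(.s k84 k87 0 (.s k244 k164 11 (.s k165 k7 12 (.s k245 k5 11 (.d k247 k246 k166 0 12))))),
  (.s k12 k8 1 (.s k84 k87 0 (.s k164 k244 11 (.s k88 k240 13 (.s k92 k80 1 (.d k252 k172 k168 11
  13)))))), (.s k12 k8 1 (.s k166 k247 12 (.s k6 k246 11 (.s k3 k9 2 (.s k1 k2 0 (.d k169 k253 k252
  13 14))))))] (.c k244 (.l (.s k12 k8 1 (.s k84 k87 0 (.s k166 k247 12 (.s k89 k243 14 (.s k92 k83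
  2 (.d k252 k172 k168 11 13))))))) .n))

def s26_170_82 : T TT 256 :=
  (.q k4 [(.s k84 k87 0 (.s k244 k164 11 (.s k165 k7 12 (.s k245 k5 11 (.d k247 k246 k166 0 12))))),
  (.s k12 k8 1 (.s k84 k87 0 (.s k164 k244 11 (.s k88 k240 13 (.s k92 k80 1 (.d k252 k172 k168 11
  13)))))), (.s k12 k8 1 (.s k166 k247 12 (.s k6 k246 11 (.s k3 k9 2 (.s k1 k2 0 (.d k169 k253 k252
  13 14))))))] (.c k244 (.l (.s k12 k8 1 (.s k84 k87 0 (.s k166 k247 12 (.s k89 k243 14 (.s k92 k83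
  2 (.d k252 k172 k168 11 13))))))) .n))

def s26_170_83 : T TT 256 :=
  (.q k4 [(.s k84 k87 0 (.s k244 k164 11 (.s k165 k7 12 (.s k245 k5 11 (.d k247 k246 k166 0 12))))),
  (.s k12 k8 1 (.s k166 k247 12 (.s k6 k246 11 (.s k3 k9 2 (.s k1 k2 0 (.d k169 k253 k252 13
  14)))))), (.s k12 k8 1 (.s k84 k87 0 (.s k164 k244 11 (.s k88 k240 13 (.s k92 k80 1 (.d k252 k172
  k168 11 13))))))] (.c k244 (.l (.s k12 k8 1 (.s k84 k87 0 (.s k166 k247 12 (.s k246 k6 11 (.s k252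
  k168 13 (.d k243 k89 k249 14 2))))))) .n))

def s26_170_84 : T TT 256 :=
  (.q k3 [(.s k1 k2 0 (.d k169 k253 k252 13 14))] (.c k1 (.q k4 [(.s k12 k8 1 (.s k166 k247 12 (.d
  k6 k9 k246 2 11))), (.s k12 k8 1 (.s k166 k247 12 (.s k89 k243 14 (.s k92 k83 2 (.d k252 k172 k169
  11 14))))), (.s k166 k247 12 (.s k246 k6 11 (.s k252 k169 14 (.s k243 k249 2 (.s k81 k162 12 (.s
  k83 k163 11 (.d k89 k93 k92 1 2))))))), (.s k12 k8 1 (.s k9 k6 2 (.s k169 k252 14 (.s k89 k249 11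
  (.s k81 k93 1 (.s k83 k92 2 (.d k243 k163 k162 11 12)))))))] (.c k89 (.l (.s k166 k247 12 (.s k6
  k246 11 (.d k12 k8 k9 1 2)))) .n)) (.c k2 (.q k4 [(.s k12 k8 1 (.s k166 k247 12 (.d k6 k9 k246 2
  11))), (.s k12 k8 1 (.s k166 k247 12 (.s k89 k243 14 (.s k92 k83 2 (.d k252 k172 k169 11 14))))),
  (.s k166 k247 12 (.s k6 k246 11 (.s k5 k7 0 (.s k9 k12 2 (.s k1 k13 1 (.d k169 k253 k252 13
  14)))))), (.s k12 k8 1 (.s k9 k6 2 (.s k169 k252 14 (.s k89 k249 11 (.s k81 k93 1 (.s k83 k92 2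
  (.d k243 k163 k162 11 12)))))))] (.c k12 (.l (.s k166 k247 12 (.s k246 k6 11 (.s k252 k169 14 (.s
  k243 k249 2 (.s k81 k162 12 (.s k83 k163 11 (.d k89 k93 k92 1 2)))))))) .n)) (.c k169 (.f k2 k1 0
  (.q k22 [(.s k150 k214 7 (.s k20 k215 8 (.d k60 k40 k41 5 6))), (.s k41 k60 6 (.s k42 k62 5 (.s
  k43 k40 0 (.d k63 k23 k21 5 6)))), (.s k42 k62 5 (.s k150 k214 7 (.s k20 k215 8 (.d k21 k23 k63 0
  6))))] (.c k168 (.q k171 [(.s k150 k214 7 (.s k20 k215 8 (.d k60 k40 k41 5 6))), (.s k41 k60 6 (.s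
  k42 k62 5 (.s k43 k40 0 (.d k63 k23 k21 5 6)))), (.s k42 k62 5 (.s k150 k214 7 (.s k20 k215 8 (.d
  k21 k23 k63 0 6))))] .n) (.c k171 (.q k168 [(.s k150 k214 7 (.s k20 k215 8 (.d k60 k40 k41 5 6))),
  (.s k41 k60 6 (.s k42 k62 5 (.s k43 k40 0 (.d k63 k23 k21 5 6)))), (.s k42 k62 5 (.s k150 k214 7
  (.s k20 k215 8 (.d k21 k23 k63 0 6))))] .n) .n)))) (.c k252 (.q k4 [(.s k12 k8 1 (.s k166 k247 12
  (.d k6 k9 k246 2 11))), (.s k2 k1 0 (.s k166 k247 12 (.s k6 k246 11 (.s k5 k7 0 (.d k10 k14 k15 1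
  2))))), (.s k2 k1 0 (.s k12 k8 1 (.s k6 k9 2 (.s k5 k7 0 (.d k10 k14 k15 1 2)))))] (.c k6 (.l (.s
  k1 k2 0 (.s k12 k8 1 (.s k166 k247 12 (.s k169 k253 13 (.s k163 k172 2 (.d k243 k89 k83 14
  11))))))) .n)) (.c k253 (.q k4 [(.s k12 k8 1 (.s k166 k247 12 (.d k6 k9 k246 2 11))), (.s k2 k1 0
  (.s k166 k247 12 (.s k6 k246 11 (.s k5 k7 0 (.d k10 k14 k15 1 2))))), (.s k2 k1 0 (.s k12 k8 1 (.s
  k6 k9 2 (.s k5 k7 0 (.d k10 k14 k15 1 2)))))] (.c k6 (.l (.s k12 k8 1 (.s k166 k247 12 (.s k89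
  k243 14 (.s k92 k83 2 (.d k252 k172 k169 11 14)))))) .n)) .n))))))

def s26_170_87 : T TT 256 :=
  (.q k3 [(.s k1 k2 0 (.d k169 k253 k252 13 14))] (.c k1 (.q k4 [(.s k12 k8 1 (.s k166 k247 12 (.d
  k6 k9 k246 2 11))), (.s k166 k247 12 (.s k6 k246 11 (.s k7 k5 0 (.s k244 k165 12 (.s k84 k164 11
  (.d k252 k168 k169 13 14)))))), (.s k12 k8 1 (.s k9 k6 2 (.s k169 k252 14 (.s k89 k249 11 (.s k81
  k93 1 (.s k83 k92 2 (.d k243 k163 k162 11 12))))))), (.s k12 k8 1 (.s k166 k247 12 (.s k89 k243 14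
  (.s k92 k83 2 (.d k252 k172 k169 11 14)))))] .n) (.c k2 (.q k4 [(.s k12 k8 1 (.s k6 k9 2 (.d k166
  k246 k247 11 12))), (.s k166 k247 12 (.s k6 k246 11 (.s k7 k5 0 (.s k244 k165 12 (.s k84 k164 11
  (.d k252 k168 k169 13 14)))))), (.s k12 k8 1 (.s k6 k9 2 (.s k7 k5 0 (.s k244 k165 12 (.s k252
  k169 14 (.d k84 k168 k164 13 11))))))] (.c k6 (.l (.s k12 k8 1 (.s k166 k247 12 (.s k89 k243 14
  (.s k92 k83 2 (.d k252 k172 k169 11 14)))))) .n)) (.c k169 (.f k2 k1 0 (.q k22 [(.s k150 k214 7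
  (.s k20 k215 8 (.d k60 k40 k41 5 6))), (.s k41 k60 6 (.s k42 k62 5 (.s k43 k40 0 (.d k63 k23 k21 5
  6)))), (.s k42 k62 5 (.s k150 k214 7 (.s k20 k215 8 (.d k21 k23 k63 0 6))))] (.c k23 (.l (.s k60
  k41 6 (.s k20 k40 5 (.d k150 k214 k215 7 8)))) (.c k168 (.q k171 [(.s k150 k214 7 (.s k20 k215 8
  (.d k60 k40 k41 5 6))), (.s k41 k60 6 (.s k42 k62 5 (.s k43 k40 0 (.d k63 k23 k21 5 6)))), (.s k42
  k62 5 (.s k150 k214 7 (.s k20 k215 8 (.d k21 k23 k63 0 6))))] (.c k23 (.l (.s k60 k41 6 (.s k20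
  k40 5 (.d k150 k214 k215 7 8)))) .n)) (.c k171 (.q k168 [(.s k150 k214 7 (.s k20 k215 8 (.d k60
  k40 k41 5 6))), (.s k41 k60 6 (.s k42 k62 5 (.s k43 k40 0 (.d k63 k23 k21 5 6)))), (.s k42 k62 5
  (.s k150 k214 7 (.s k20 k215 8 (.d k21 k23 k63 0 6))))] (.c k23 (.l (.s k60 k41 6 (.s k20 k40 5
  (.d k150 k214 k215 7 8)))) .n)) .n))))) (.c k252 (.q k4 [(.s k12 k8 1 (.s k6 k9 2 (.d k166 k246
  k247 11 12))), (.s k2 k1 0 (.s k166 k247 12 (.s k6 k246 11 (.s k10 k14 1 (.d k5 k7 k15 0 2))))),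
  (.s k1 k2 0 (.s k12 k8 1 (.s k166 k247 12 (.s k169 k253 13 (.s k163 k172 2 (.d k243 k89 k83 14
  11)))))), (.s k2 k1 0 (.s k12 k8 1 (.s k6 k9 2 (.s k10 k14 1 (.d k5 k7 k15 0 2)))))] .n) (.c k253
  (.q k4 [(.s k12 k8 1 (.s k6 k9 2 (.d k166 k246 k247 11 12))), (.s k2 k1 0 (.s k166 k247 12 (.s k6
  k246 11 (.s k10 k14 1 (.d k5 k7 k15 0 2))))), (.s k12 k8 1 (.s k166 k247 12 (.s k89 k243 14 (.s
  k92 k83 2 (.d k252 k172 k169 11 14))))), (.s k2 k1 0 (.s k12 k8 1 (.s k6 k9 2 (.s k10 k14 1 (.d k5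
  k7 k15 0 2)))))] .n) .n))))))

def s26_170_88 : T TT 256 :=
  (.q k4 [(.s k84 k87 0 (.s k166 k247 12 (.s k6 k246 11 (.s k7 k5 0 (.d k244 k164 k165 11 12))))),
  (.s k12 k8 1 (.s k166 k247 12 (.s k6 k246 11 (.s k3 k9 2 (.s k1 k2 0 (.d k169 k253 k252 13
  14)))))), (.s k12 k8 1 (.s k84 k87 0 (.s k166 k247 12 (.s k89 k243 14 (.s k92 k83 2 (.d k252 k168
  k172 13 11))))))] (.c k166 (.l (.s k84 k87 0 (.s k244 k164 11 (.s k165 k7 12 (.s k5 k245 11 (.s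
  k15 k10 2 (.s k252 k168 13 (.d k240 k248 k90 1 14)))))))) (.c k247 (.l (.s k12 k8 1 (.s k84 k87 0
  (.s k244 k164 11 (.s k7 k165 12 (.s k6 k5 0 (.s k3 k9 2 (.d k252 k168 k169 13 14)))))))) .n)))

def s26_170_89 : T TT 256 :=
  (.f k84 k87 0 (.q k4 [(.s k244 k164 11 (.s k165 k7 12 (.s k245 k5 11 (.d k247 k246 k166 0 12)))),
  (.s k164 k244 11 (.s k168 k252 13 (.s k160 k172 1 (.s k240 k80 11 (.d k12 k8 k88 1 13))))), (.s
  k166 k247 12 (.s k252 k168 13 (.s k169 k3 14 (.s k172 k163 2 (.d k12 k8 k92 1 11)))))] (.c k8 (.q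
  k251 [(.s k244 k164 11 (.s k165 k7 12 (.s k245 k5 11 (.d k247 k246 k166 0 12)))), (.s k247 k166 12
  (.s k252 k168 13 (.s k169 k3 14 (.s k253 k1 13 (.d k255 k243 k254 1 0)))))] (.c k166 (.l (.s k244
  k164 11 (.s k165 k7 12 (.s k5 k245 11 (.s k15 k10 2 (.s k252 k168 13 (.d k240 k248 k90 1 14)))))))
  (.c k247 (.l (.s k244 k164 11 (.s k7 k165 12 (.s k5 k6 0 (.s k15 k10 2 (.s k252 k168 13 (.d k3 k11
  k169 1 14))))))) .n))) (.c k251 (.l (.s k8 k12 1 (.s k166 k247 12 (.s k6 k246 11 (.s k7 k5 0 (.d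
  k244 k164 k165 11 12)))))) .n))))

def s26_170_90 : T TT 256 :=
  (.q k154 [(.s k16 k223 10 (.s k18 k222 9 (.s k19 k17 0 (.s k84 k87 0 (.d k220 k152 k153 9 10))))),
  (.s k84 k87 0 (.s k222 k18 9 (.s k252 k168 13 (.s k207 k237 4 (.s k69 k138 10 (.d k101 k117 k48 3
  14)))))), (.s k16 k223 10 (.s k48 k32 3 (.s k84 k87 0 (.s k101 k207 14 (.s k116 k71 4 (.d k252
  k184 k168 9 13)))))), (.s k16 k223 10 (.s k18 k222 9 (.s k48 k32 3 (.s k3 k33 4 (.s k1 k2 0 (.d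
  k169 k253 k252 13 14))))))] (.c k10 (.q k250 [(.s k16 k223 10 (.s k18 k222 9 (.s k19 k17 0 (.s k84
  k87 0 (.d k220 k152 k153 9 10))))), (.s k84 k87 0 (.s k222 k18 9 (.s k252 k168 13 (.s k207 k237 4
  (.s k69 k138 10 (.d k101 k117 k48 3 14)))))), (.s k16 k223 10 (.s k48 k32 3 (.s k84 k87 0 (.s k101
  k207 14 (.s k116 k71 4 (.d k252 k184 k168 9 13)))))), (.s k16 k223 10 (.s k18 k222 9 (.s k48 k32 3
  (.s k3 k33 4 (.s k1 k2 0 (.d k169 k253 k252 13 14))))))] (.c k42 (.q k58 [(.s k16 k223 10 (.s k18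
  k222 9 (.s k19 k17 0 (.s k84 k87 0 (.d k220 k152 k153 9 10))))), (.s k84 k87 0 (.s k106 k202 11
  (.s k64 k127 6 (.s k66 k126 5 (.s k67 k65 0 (.d k124 k104 k105 5 6)))))), (.s k16 k223 10 (.s k48
  k32 3 (.s k101 k207 14 (.s k117 k69 3 (.d k186 k255 k122 10 7)))))] (.c k106 (.q k234 [(.s k16
  k223 10 (.s k18 k222 9 (.s k19 k17 0 (.s k84 k87 0 (.d k220 k152 k153 9 10))))), (.s k16 k223 10
  (.s k48 k32 3 (.s k101 k207 14 (.s k117 k69 3 (.d k186 k122 k255 7 10))))), (.s k84 k87 0 (.s k222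
  k18 9 (.s k252 k168 13 (.s k207 k237 4 (.s k69 k138 10 (.d k101 k117 k48 3 14))))))] (.c k74 (.l
  (.s k122 k186 7 (.s k16 k223 10 (.s k18 k222 9 (.s k19 k17 0 (.s k84 k87 0 (.d k220 k152 k153 9
  10))))))) (.c k122 (.q k74 [(.s k16 k223 10 (.s k18 k222 9 (.s k19 k17 0 (.s k84 k87 0 (.d k220
  k152 k153 9 10))))), (.s k84 k87 0 (.s k222 k18 9 (.s k252 k168 13 (.s k207 k237 4 (.s k69 k138 10
  (.d k101 k117 k48 3 14)))))), (.s k16 k223 10 (.s k48 k32 3 (.s k84 k87 0 (.s k101 k207 14 (.s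
  k116 k71 4 (.d k252 k184 k168 9 13)))))), (.s k16 k223 10 (.s k18 k222 9 (.s k48 k32 3 (.s k3 k33
  4 (.s k1 k2 0 (.d k169 k253 k252 13 14))))))] .n) .n))) (.c k234 (.l (.s k106 k202 11 (.s k16 k223
  10 (.s k18 k222 9 (.s k19 k17 0 (.s k84 k87 0 (.d k220 k152 k153 9 10))))))) .n))) (.c k58 (.q k42
  [(.s k16 k223 10 (.s k18 k222 9 (.s k19 k17 0 (.s k84 k87 0 (.d k220 k152 k153 9 10))))), (.s k21
  k63 6 (.s k87 k84 0 (.s k149 k213 7 (.s k23 k212 8 (.s k20 k22 0 (.d k215 k151 k150 7 8)))))), (.s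
  k16 k223 10 (.s k18 k222 9 (.s k48 k32 3 (.s k3 k33 4 (.s k1 k2 0 (.d k169 k253 k252 13 14))))))]
  (.c k18 (.l (.s k16 k223 10 (.s k48 k32 3 (.s k84 k87 0 (.s k101 k207 14 (.s k116 k71 4 (.d k252
  k184 k168 9 13))))))) .n)) .n))) (.c k250 (.q k10 [(.s k16 k223 10 (.s k18 k222 9 (.s k19 k17 0
  (.s k84 k87 0 (.d k220 k152 k153 9 10))))), (.s k5 k15 2 (.s k87 k84 0 (.s k165 k245 11 (.s k7
  k244 12 (.s k4 k6 0 (.d k247 k167 k166 11 12)))))), (.s k16 k223 10 (.s k18 k222 9 (.s k48 k32 3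
  (.s k3 k33 4 (.s k1 k2 0 (.d k169 k253 k252 13 14))))))] .n) .n)))

def s26_170_91 : T TT 256 :=
  (.q k4 [(.s k84 k87 0 (.s k244 k164 11 (.s k165 k7 12 (.s k245 k5 11 (.d k247 k246 k166 0 12))))),
  (.s k12 k8 1 (.s k166 k247 12 (.s k6 k246 11 (.s k3 k9 2 (.s k1 k2 0 (.d k169 k253 k252 13
  14)))))), (.s k12 k8 1 (.s k84 k87 0 (.s k164 k244 11 (.s k88 k240 13 (.s k92 k80 1 (.d k252 k172
  k168 11 13))))))] (.c k244 (.l (.s k12 k8 1 (.s k84 k87 0 (.s k166 k247 12 (.s k89 k243 14 (.s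
  k252 k168 13 (.d k92 k83 k172 2 11))))))) .n))

def s26_170_92 : T TT 256 :=
  (.q k4 [(.s k84 k87 0 (.s k244 k164 11 (.s k165 k7 12 (.s k245 k5 11 (.d k247 k246 k166 0 12))))),
  (.s k12 k8 1 (.s k84 k87 0 (.s k164 k244 11 (.s k168 k252 13 (.s k160 k172 1 (.d k240 k80 k88 11
  13)))))), (.s k12 k8 1 (.s k166 k247 12 (.s k6 k246 11 (.s k3 k9 2 (.s k1 k2 0 (.d k169 k253 k252
  13 14))))))] (.c k244 (.l (.s k12 k8 1 (.s k84 k87 0 (.s k166 k247 12 (.s k246 k6 11 (.s k252 k168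
  13 (.d k243 k89 k249 14 2))))))) .n))

def s26_170_93 : T TT 256 :=
  (.q k4 [(.s k84 k87 0 (.s k244 k164 11 (.s k165 k7 12 (.s k245 k5 11 (.d k247 k246 k166 0 12))))),
  (.s k12 k8 1 (.s k84 k87 0 (.s k164 k244 11 (.s k88 k240 13 (.s k92 k80 1 (.d k252 k172 k168 11
  13)))))), (.s k12 k8 1 (.s k166 k247 12 (.s k6 k246 11 (.s k3 k9 2 (.s k1 k2 0 (.d k169 k253 k252
  13 14))))))] (.c k244 (.l (.s k12 k8 1 (.s k84 k87 0 (.s k166 k247 12 (.s k89 k243 14 (.s k92 k83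
  2 (.d k252 k172 k168 11 13))))))) .n))

def s26_170_94 : T TT 256 :=
  (.q k4 [(.s k84 k87 0 (.s k244 k164 11 (.s k165 k7 12 (.s k245 k5 11 (.d k247 k246 k166 0 12))))),
  (.s k12 k8 1 (.s k84 k87 0 (.s k164 k244 11 (.s k88 k240 13 (.s k92 k80 1 (.d k252 k172 k168 11
  13)))))), (.s k12 k8 1 (.s k166 k247 12 (.s k6 k246 11 (.s k3 k9 2 (.s k1 k2 0 (.d k169 k253 k252
  13 14))))))] (.c k244 (.l (.s k12 k8 1 (.s k84 k87 0 (.s k166 k247 12 (.s k89 k243 14 (.s k92 k83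
  2 (.d k252 k172 k168 11 13))))))) .n))

def s26_170_95 : T TT 256 :=
  (.q k4 [(.s k84 k87 0 (.s k244 k164 11 (.s k165 k7 12 (.s k245 k5 11 (.d k247 k246 k166 0 12))))),
  (.s k12 k8 1 (.s k166 k247 12 (.s k6 k246 11 (.s k3 k9 2 (.s k1 k2 0 (.d k169 k253 k252 13
  14)))))), (.s k12 k8 1 (.s k84 k87 0 (.s k164 k244 11 (.s k88 k240 13 (.s k92 k80 1 (.d k252 k172
  k168 11 13))))))] (.c k244 (.l (.s k12 k8 1 (.s k84 k87 0 (.s k166 k247 12 (.s k89 k243 14 (.s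
  k252 k168 13 (.d k92 k83 k172 2 11))))))) .n))

def s26_170_96 : T TT 256 :=
  (.q k4 [(.s k84 k87 0 (.s k244 k164 11 (.s k165 k7 12 (.s k245 k5 11 (.d k247 k246 k166 0 12))))),
  (.s k12 k8 1 (.s k84 k87 0 (.s k164 k244 11 (.s k88 k240 13 (.s k92 k80 1 (.d k252 k172 k168 11
  13)))))), (.s k12 k8 1 (.s k166 k247 12 (.s k6 k246 11 (.s k3 k9 2 (.s k1 k2 0 (.d k169 k253 k252
  13 14))))))] (.c k244 (.l (.s k12 k8 1 (.s k84 k87 0 (.s k166 k247 12 (.s k89 k243 14 (.s k92 k83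
  2 (.d k252 k172 k168 11 13))))))) .n))

def s26_170_97 : T TT 256 :=
  (.q k4 [(.s k84 k87 0 (.s k244 k164 11 (.s k165 k7 12 (.s k245 k5 11 (.d k247 k246 k166 0 12))))),
  (.s k12 k8 1 (.s k84 k87 0 (.s k164 k244 11 (.s k88 k240 13 (.s k92 k80 1 (.d k252 k172 k168 11
  13)))))), (.s k12 k8 1 (.s k166 k247 12 (.s k6 k246 11 (.s k3 k9 2 (.s k1 k2 0 (.d k169 k253 k252
  13 14))))))] (.c k244 (.l (.s k12 k8 1 (.s k84 k87 0 (.s k166 k247 12 (.s k89 k243 14 (.s k92 k83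
  2 (.d k252 k172 k168 11 13))))))) .n))

def s26_170_98 : T TT 256 :=
  (.q k4 [(.s k84 k87 0 (.s k244 k164 11 (.s k165 k7 12 (.s k245 k5 11 (.d k247 k246 k166 0 12))))),
  (.s k12 k8 1 (.s k84 k87 0 (.s k164 k244 11 (.s k88 k240 13 (.s k92 k80 1 (.d k252 k172 k168 11
  13)))))), (.s k12 k8 1 (.s k166 k247 12 (.s k6 k246 11 (.s k3 k9 2 (.s k1 k2 0 (.d k169 k253 k252
  13 14))))))] (.c k244 (.l (.s k12 k8 1 (.s k84 k87 0 (.s k166 k247 12 (.s k89 k243 14 (.s k92 k83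
  2 (.d k252 k172 k168 11 13))))))) .n))

def s26_170_99 : T TT 256 :=
  (.q k4 [(.s k84 k87 0 (.s k244 k164 11 (.s k165 k7 12 (.s k245 k5 11 (.d k247 k246 k166 0 12))))),
  (.s k12 k8 1 (.s k84 k87 0 (.s k164 k244 11 (.s k88 k240 13 (.s k92 k80 1 (.d k252 k172 k168 11
  13)))))), (.s k12 k8 1 (.s k166 k247 12 (.s k6 k246 11 (.s k3 k9 2 (.s k1 k2 0 (.d k169 k253 k252
  13 14))))))] (.c k244 (.l (.s k12 k8 1 (.s k84 k87 0 (.s k166 k247 12 (.s k89 k243 14 (.s k92 k83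
  2 (.d k252 k172 k168 11 13))))))) .n))

def s26_170_100 : T TT 256 :=
  (.q k4 [(.s k84 k87 0 (.s k166 k247 12 (.s k6 k246 11 (.s k7 k5 0 (.d k244 k164 k165 11 12))))),
  (.s k12 k8 1 (.s k84 k87 0 (.s k164 k244 11 (.s k88 k240 13 (.s k92 k80 1 (.d k252 k172 k168 11
  13)))))), (.s k12 k8 1 (.s k166 k247 12 (.s k6 k246 11 (.s k3 k9 2 (.s k1 k2 0 (.d k169 k253 k252
  13 14))))))] (.c k244 (.l (.s k12 k8 1 (.s k84 k87 0 (.s k166 k247 12 (.s k89 k243 14 (.s k92 k83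
  2 (.d k252 k172 k168 11 13))))))) .n))

def s26_170_101 : T TT 256 :=
  (.f k84 k87 0 (.q k16 [(.s k220 k152 9 (.s k153 k19 10 (.s k221 k17 9 (.d k223 k222 k154 0 10)))),
  (.s k152 k220 9 (.s k168 k252 13 (.s k136 k184 3 (.s k204 k68 9 (.d k48 k32 k100 3 13))))), (.s
  k154 k223 10 (.s k252 k168 13 (.s k169 k3 14 (.s k184 k139 4 (.d k48 k32 k116 3 9)))))] (.c k32
  (.q k239 [(.s k220 k152 9 (.s k153 k19 10 (.s k221 k17 9 (.d k223 k222 k154 0 10)))), (.s k223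
  k154 10 (.s k252 k168 13 (.s k169 k3 14 (.s k253 k1 13 (.d k255 k207 k254 3 0)))))] (.c k154 (.l
  (.s k220 k152 9 (.s k153 k19 10 (.s k17 k221 9 (.s k51 k34 4 (.s k252 k168 13 (.d k204 k236 k102 3
  14))))))) (.c k223 (.l (.s k220 k152 9 (.s k19 k153 10 (.s k17 k18 0 (.s k51 k34 4 (.s k252 k168
  13 (.d k3 k35 k169 3 14))))))) .n))) (.c k239 (.l (.s k32 k48 3 (.s k154 k223 10 (.s k18 k222 9
  (.s k19 k17 0 (.d k220 k152 k153 9 10)))))) .n))))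

def s26_170_102 : T TT 256 :=
  (.f k84 k87 0 (.f k168 k252 13 (.q k4 [(.s k164 k244 11 (.s k160 k172 1 (.s k240 k80 11 (.d k12 k8
  k88 1 13)))), (.s k166 k247 12 (.s k6 k246 11 (.s k7 k5 0 (.d k244 k164 k165 11 12)))), (.s k12 k8
  1 (.s k166 k247 12 (.s k89 k243 14 (.s k92 k83 2 (.s k80 k88 1 (.s k93 k81 1 (.d k95 k94 k90 0
  2)))))))] (.c k34 (.q k238 [(.s k164 k244 11 (.s k160 k172 1 (.s k240 k80 11 (.d k12 k8 k88 1
  13)))), (.s k166 k247 12 (.s k6 k246 11 (.s k7 k5 0 (.d k244 k164 k165 11 12)))), (.s k12 k8 1 (.s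
  k166 k247 12 (.s k89 k243 14 (.s k92 k83 2 (.s k80 k88 1 (.s k93 k81 1 (.d k95 k94 k90 0 2)))))))]
  .n) (.c k238 (.q k34 [(.s k164 k244 11 (.s k160 k172 1 (.s k240 k80 11 (.d k12 k8 k88 1 13)))),
  (.s k166 k247 12 (.s k6 k246 11 (.s k7 k5 0 (.d k244 k164 k165 11 12)))), (.s k12 k8 1 (.s k51 k17
  4 (.s k38 k25 6 (.s k21 k55 4 (.d k42 k46 k63 1 6)))))] .n) .n)))))

def s26_170_103 : T TT 256 :=
  (.q k4 [(.s k84 k87 0 (.s k244 k164 11 (.s k165 k7 12 (.s k245 k5 11 (.d k247 k246 k166 0 12))))),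
  (.s k12 k8 1 (.s k166 k247 12 (.s k6 k246 11 (.s k3 k9 2 (.s k1 k2 0 (.d k169 k253 k252 13
  14)))))), (.s k12 k8 1 (.s k84 k87 0 (.s k164 k244 11 (.s k88 k240 13 (.s k92 k80 1 (.d k252 k172
  k168 11 13))))))] (.c k244 (.l (.s k12 k8 1 (.s k84 k87 0 (.s k166 k247 12 (.s k89 k243 14 (.s k92
  k83 2 (.d k252 k172 k168 11 13))))))) .n))

def s26_170_104 : T TT 256 :=
  (.q k4 [(.s k84 k87 0 (.s k166 k247 12 (.s k6 k246 11 (.s k7 k5 0 (.d k244 k164 k165 11 12))))),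
  (.s k12 k8 1 (.s k84 k87 0 (.s k164 k244 11 (.s k88 k240 13 (.s k92 k80 1 (.d k252 k172 k168 11
  13)))))), (.s k12 k8 1 (.s k166 k247 12 (.s k6 k246 11 (.s k3 k9 2 (.s k1 k2 0 (.d k169 k253 k252
  13 14))))))] (.c k244 (.l (.s k12 k8 1 (.s k84 k87 0 (.s k166 k247 12 (.s k89 k243 14 (.s k92 k83
  2 (.d k252 k172 k168 11 13))))))) .n))

def s26_170_105 : T TT 256 :=
  (.f k84 k87 0 (.q k20 [(.s k150 k215 8 (.s k22 k214 7 (.s k212 k148 7 (.d k23 k21 k149 0 8)))),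
  (.s k148 k212 7 (.s k168 k252 13 (.s k128 k188 5 (.s k192 k64 7 (.d k60 k40 k104 5 13))))), (.s
  k150 k215 8 (.s k252 k168 13 (.s k169 k3 14 (.s k188 k131 6 (.d k60 k40 k124 5 7)))))] (.c k40 (.q
  k235 [(.s k150 k215 8 (.s k22 k214 7 (.s k212 k148 7 (.d k23 k21 k149 0 8)))), (.s k215 k150 8 (.s
  k252 k168 13 (.s k169 k3 14 (.s k253 k1 13 (.d k255 k195 k254 5 0)))))] (.c k150 (.l (.s k212 k148
  7 (.s k149 k23 8 (.s k21 k213 7 (.s k63 k42 6 (.s k252 k168 13 (.d k192 k232 k106 5 14))))))) (.c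
  k215 (.l (.s k212 k148 7 (.s k23 k149 8 (.s k21 k22 0 (.s k63 k42 6 (.s k252 k168 13 (.d k3 k43
  k169 5 14))))))) .n))) (.c k235 (.l (.s k40 k60 5 (.s k150 k215 8 (.s k22 k214 7 (.s k23 k21 0 (.d
  k212 k148 k149 7 8)))))) .n))))

def s26_170_106 : T TT 256 :=
  (.f k84 k87 0 (.q k90 [(.s k80 k95 2 (.s k82 k94 1 (.s k83 k81 0 (.d k92 k88 k89 1 2)))), (.s k94
  k82 1 (.s k252 k168 13 (.s k15 k173 12 (.s k5 k10 2 (.d k165 k245 k240 11 14))))), (.s k80 k95 2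
  (.s k240 k160 11 (.s k165 k15 14 (.s k244 k7 12 (.d k252 k248 k168 1 13)))))] (.c k42 (.q k234
  [(.s k80 k95 2 (.s k82 k94 1 (.s k83 k81 0 (.d k92 k88 k89 1 2)))), (.s k94 k82 1 (.s k252 k168 13
  (.s k15 k173 12 (.s k165 k240 14 (.d k5 k10 k245 2 11))))), (.s k80 k95 2 (.s k240 k160 11 (.s
  k165 k15 14 (.s k244 k7 12 (.d k252 k248 k168 1 13)))))] (.c k10 (.q k58 [(.s k80 k95 2 (.s k82
  k94 1 (.s k83 k81 0 (.d k92 k88 k89 1 2)))), (.s k94 k82 1 (.s k252 k168 13 (.s k15 k173 12 (.s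
  k165 k240 14 (.s k7 k244 12 (.d k3 k169 k11 14 1)))))), (.s k80 k95 2 (.s k240 k160 11 (.s k165
  k15 14 (.s k244 k7 12 (.d k252 k248 k168 1 13)))))] .n) (.c k58 (.q k10 [(.s k15 k5 2 (.s k94 k82
  1 (.d k252 k173 k168 12 13))), (.s k15 k5 2 (.s k80 k95 2 (.d k240 k160 k165 11 14))), (.s k80 k95
  2 (.s k82 k94 1 (.s k83 k81 0 (.d k92 k88 k89 1 2))))] (.c k154 (.q k202 [(.s k15 k5 2 (.s k94 k82
  1 (.d k252 k173 k168 12 13))), (.s k15 k5 2 (.s k80 k95 2 (.d k240 k160 k165 11 14))), (.s k80 k95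
  2 (.s k82 k94 1 (.s k83 k81 0 (.d k92 k88 k89 1 2))))] (.c k138 (.q k186 [(.s k15 k5 2 (.s k94 k82
  1 (.d k252 k173 k168 12 13))), (.s k15 k5 2 (.s k80 k95 2 (.d k240 k160 k165 11 14))), (.s k80 k95
  2 (.s k82 k94 1 (.s k83 k81 0 (.d k92 k88 k89 1 2))))] .n) (.c k186 (.l (.s k138 k74 7 (.s k15 k5
  2 (.s k80 k95 2 (.d k240 k160 k165 11 14))))) .n))) (.c k202 (.q k154 [(.s k15 k5 2 (.s k94 k82 1
  (.d k252 k173 k168 12 13))), (.s k16 k223 10 (.s k18 k222 9 (.s k19 k17 0 (.d k220 k152 k153 9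
  10))))] .n) .n))) .n))) (.c k234 (.q k42 [(.s k80 k95 2 (.s k82 k94 1 (.s k83 k81 0 (.d k92 k88
  k89 1 2)))), (.s k94 k82 1 (.s k252 k168 13 (.s k15 k173 12 (.s k5 k10 2 (.d k165 k245 k240 11
  14))))), (.s k80 k95 2 (.s k240 k160 11 (.s k165 k15 14 (.s k244 k7 12 (.d k252 k248 k168 1
  13)))))] .n) .n))))

def s26_170_107 : T TT 256 :=
  (.q k4 [(.s k84 k87 0 (.s k244 k164 11 (.s k165 k7 12 (.s k245 k5 11 (.d k247 k246 k166 0 12))))),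
  (.s k12 k8 1 (.s k166 k247 12 (.s k6 k246 11 (.s k3 k9 2 (.s k1 k2 0 (.d k169 k253 k252 13
  14)))))), (.s k12 k8 1 (.s k84 k87 0 (.s k164 k244 11 (.s k88 k240 13 (.s k92 k80 1 (.d k252 k172
  k168 11 13))))))] (.c k244 (.l (.s k12 k8 1 (.s k84 k87 0 (.s k166 k247 12 (.s k89 k243 14 (.s k92
  k83 2 (.d k252 k172 k168 11 13))))))) .n))

def s26_170_108 : T TT 256 :=
  (.q k4 [(.s k84 k87 0 (.s k244 k164 11 (.s k165 k7 12 (.s k245 k5 11 (.d k247 k246 k166 0 12))))),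
  (.s k12 k8 1 (.s k84 k87 0 (.s k164 k244 11 (.s k88 k240 13 (.s k92 k80 1 (.d k252 k172 k168 11
  13)))))), (.s k12 k8 1 (.s k166 k247 12 (.s k6 k246 11 (.s k3 k9 2 (.s k1 k2 0 (.d k169 k253 k252
  13 14))))))] (.c k244 (.l (.s k12 k8 1 (.s k84 k87 0 (.s k166 k247 12 (.s k89 k243 14 (.s k92 k83
  2 (.d k252 k172 k168 11 13))))))) .n))

def s26_170_109 : T TT 256 :=
  (.q k4 [(.s k84 k87 0 (.s k244 k164 11 (.s k165 k7 12 (.s k245 k5 11 (.d k247 k246 k166 0 12))))),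
  (.s k12 k8 1 (.s k84 k87 0 (.s k164 k244 11 (.s k88 k240 13 (.s k92 k80 1 (.d k252 k172 k168 11
  13)))))), (.s k12 k8 1 (.s k166 k247 12 (.s k6 k246 11 (.s k3 k9 2 (.s k1 k2 0 (.d k169 k253 k252
  13 14))))))] (.c k244 (.l (.s k12 k8 1 (.s k84 k87 0 (.s k166 k247 12 (.s k89 k243 14 (.s k92 k83
  2 (.d k252 k172 k168 11 13))))))) .n))

def s26_170_110 : T TT 256 :=
  (.q k4 [(.s k84 k87 0 (.s k244 k164 11 (.s k165 k7 12 (.s k245 k5 11 (.d k247 k246 k166 0 12))))),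
  (.s k12 k8 1 (.s k84 k87 0 (.s k164 k244 11 (.s k88 k240 13 (.s k92 k80 1 (.d k252 k172 k168 11
  13)))))), (.s k12 k8 1 (.s k166 k247 12 (.s k6 k246 11 (.s k3 k9 2 (.s k1 k2 0 (.d k169 k253 k252
  13 14))))))] (.c k244 (.l (.s k12 k8 1 (.s k84 k87 0 (.s k166 k247 12 (.s k89 k243 14 (.s k92 k83
  2 (.d k252 k172 k168 11 13))))))) .n))

def s26_170_111 : T TT 256 :=
  (.q k4 [(.s k84 k87 0 (.s k244 k164 11 (.s k165 k7 12 (.s k245 k5 11 (.d k247 k246 k166 0 12))))),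
  (.s k12 k8 1 (.s k84 k87 0 (.s k164 k244 11 (.s k88 k240 13 (.s k92 k80 1 (.d k252 k172 k168 11
  13)))))), (.s k12 k8 1 (.s k166 k247 12 (.s k6 k246 11 (.s k3 k9 2 (.s k1 k2 0 (.d k169 k253 k252
  13 14))))))] (.c k244 (.l (.s k12 k8 1 (.s k84 k87 0 (.s k166 k247 12 (.s k89 k243 14 (.s k92 k83
  2 (.d k252 k172 k168 11 13))))))) .n))

def s26_170_112 : T TT 256 :=
  (.q k4 [(.s k84 k87 0 (.s k244 k164 11 (.s k165 k7 12 (.s k245 k5 11 (.d k247 k246 k166 0 12))))),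
  (.s k12 k8 1 (.s k84 k87 0 (.s k164 k244 11 (.s k88 k240 13 (.s k92 k80 1 (.d k252 k172 k168 11
  13)))))), (.s k12 k8 1 (.s k166 k247 12 (.s k6 k246 11 (.s k3 k9 2 (.s k1 k2 0 (.d k169 k253 k252
  13 14))))))] (.c k244 (.l (.s k12 k8 1 (.s k84 k87 0 (.s k166 k247 12 (.s k89 k243 14 (.s k92 k83
  2 (.d k252 k172 k168 11 13))))))) .n))

def s26_170_113 : T TT 256 :=
  (.q k4 [(.s k84 k87 0 (.s k244 k164 11 (.s k165 k7 12 (.s k245 k5 11 (.d k247 k246 k166 0 12))))),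
  (.s k12 k8 1 (.s k84 k87 0 (.s k164 k244 11 (.s k88 k240 13 (.s k92 k80 1 (.d k252 k172 k168 11
  13)))))), (.s k12 k8 1 (.s k166 k247 12 (.s k6 k246 11 (.s k3 k9 2 (.s k1 k2 0 (.d k169 k253 k252
  13 14))))))] (.c k244 (.l (.s k12 k8 1 (.s k84 k87 0 (.s k166 k247 12 (.s k89 k243 14 (.s k92 k83
  2 (.d k252 k172 k168 11 13))))))) .n))

def s26_170_114 : T TT 256 :=
  (.q k4 [(.s k84 k87 0 (.s k244 k164 11 (.s k165 k7 12 (.s k245 k5 11 (.d k247 k246 k166 0 12))))),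
  (.s k12 k8 1 (.s k84 k87 0 (.s k164 k244 11 (.s k88 k240 13 (.s k92 k80 1 (.d k252 k172 k168 11
  13)))))), (.s k12 k8 1 (.s k166 k247 12 (.s k6 k246 11 (.s k3 k9 2 (.s k1 k2 0 (.d k169 k253 k252
  13 14))))))] (.c k244 (.l (.s k12 k8 1 (.s k84 k87 0 (.s k166 k247 12 (.s k89 k243 14 (.s k92 k83
  2 (.d k252 k172 k168 11 13))))))) .n))

def s26_170_115 : T TT 256 :=
  (.q k4 [(.s k84 k87 0 (.s k244 k164 11 (.s k165 k7 12 (.s k245 k5 11 (.d k247 k246 k166 0 12))))),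
  (.s k12 k8 1 (.s k84 k87 0 (.s k164 k244 11 (.s k88 k240 13 (.s k92 k80 1 (.d k252 k172 k168 11
  13)))))), (.s k12 k8 1 (.s k166 k247 12 (.s k6 k246 11 (.s k3 k9 2 (.s k1 k2 0 (.d k169 k253 k252
  13 14))))))] (.c k244 (.l (.s k12 k8 1 (.s k84 k87 0 (.s k166 k247 12 (.s k89 k243 14 (.s k92 k83
  2 (.d k252 k172 k168 11 13))))))) .n))

def s26_170_116 : T TT 256 :=
  (.q k4 [(.s k84 k87 0 (.s k244 k164 11 (.s k165 k7 12 (.s k245 k5 11 (.d k247 k246 k166 0 12))))),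
  (.s k12 k8 1 (.s k84 k87 0 (.s k164 k244 11 (.s k88 k240 13 (.s k92 k80 1 (.d k252 k172 k168 11
  13)))))), (.s k12 k8 1 (.s k166 k247 12 (.s k6 k246 11 (.s k3 k9 2 (.s k1 k2 0 (.d k169 k253 k252
  13 14))))))] (.c k244 (.l (.s k12 k8 1 (.s k84 k87 0 (.s k166 k247 12 (.s k89 k243 14 (.s k92 k83
  2 (.d k252 k172 k168 11 13))))))) .n))

def s26_170_117 : T TT 256 :=
  (.q k4 [(.s k84 k87 0 (.s k244 k164 11 (.s k165 k7 12 (.s k245 k5 11 (.d k247 k246 k166 0 12))))),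
  (.s k12 k8 1 (.s k84 k87 0 (.s k164 k244 11 (.s k88 k240 13 (.s k92 k80 1 (.d k252 k172 k168 11
  13)))))), (.s k12 k8 1 (.s k166 k247 12 (.s k6 k246 11 (.s k3 k9 2 (.s k1 k2 0 (.d k169 k253 k252
  13 14))))))] (.c k244 (.l (.s k12 k8 1 (.s k84 k87 0 (.s k166 k247 12 (.s k89 k243 14 (.s k92 k83
  2 (.d k252 k172 k168 11 13))))))) .n))

def s26_170_118 : T TT 256 :=
  (.q k4 [(.s k84 k87 0 (.s k244 k164 11 (.s k165 k7 12 (.s k245 k5 11 (.d k247 k246 k166 0 12))))),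
  (.s k12 k8 1 (.s k84 k87 0 (.s k164 k244 11 (.s k88 k240 13 (.s k92 k80 1 (.d k252 k172 k168 11
  13)))))), (.s k12 k8 1 (.s k166 k247 12 (.s k6 k246 11 (.s k3 k9 2 (.s k1 k2 0 (.d k169 k253 k252
  13 14))))))] (.c k244 (.l (.s k12 k8 1 (.s k84 k87 0 (.s k166 k247 12 (.s k89 k243 14 (.s k92 k83
  2 (.d k252 k172 k168 11 13))))))) .n))

def s26_170_119 : T TT 256 :=
  (.q k4 [(.s k84 k87 0 (.s k244 k164 11 (.s k165 k7 12 (.s k245 k5 11 (.d k247 k246 k166 0 12))))),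
  (.s k12 k8 1 (.s k166 k247 12 (.s k6 k246 11 (.s k3 k9 2 (.s k1 k2 0 (.d k169 k253 k252 13
  14)))))), (.s k12 k8 1 (.s k84 k87 0 (.s k164 k244 11 (.s k88 k240 13 (.s k92 k80 1 (.d k252 k172
  k168 11 13))))))] (.c k244 (.l (.s k12 k8 1 (.s k84 k87 0 (.s k166 k247 12 (.s k89 k243 14 (.s k92
  k83 2 (.d k252 k172 k168 11 13))))))) .n))

def s26_170_120 : T TT 256 :=
  (.q k4 [(.s k84 k87 0 (.s k244 k164 11 (.s k165 k7 12 (.s k245 k5 11 (.d k247 k246 k166 0 12))))),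
  (.s k12 k8 1 (.s k84 k87 0 (.s k164 k244 11 (.s k88 k240 13 (.s k92 k80 1 (.d k252 k172 k168 11
  13)))))), (.s k12 k8 1 (.s k166 k247 12 (.s k6 k246 11 (.s k3 k9 2 (.s k1 k2 0 (.d k169 k253 k252
  13 14))))))] (.c k244 (.l (.s k12 k8 1 (.s k84 k87 0 (.s k166 k247 12 (.s k89 k243 14 (.s k92 k83
  2 (.d k252 k172 k168 11 13))))))) .n))

def s26_170_121 : T TT 256 :=
  (.q k4 [(.s k84 k87 0 (.s k244 k164 11 (.s k165 k7 12 (.s k245 k5 11 (.d k247 k246 k166 0 12))))),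
  (.s k12 k8 1 (.s k84 k87 0 (.s k164 k244 11 (.s k88 k240 13 (.s k92 k80 1 (.d k252 k172 k168 11
  13)))))), (.s k12 k8 1 (.s k166 k247 12 (.s k6 k246 11 (.s k3 k9 2 (.s k1 k2 0 (.d k169 k253 k252
  13 14))))))] (.c k244 (.l (.s k12 k8 1 (.s k84 k87 0 (.s k166 k247 12 (.s k89 k243 14 (.s k92 k83
  2 (.d k252 k172 k168 11 13))))))) .n))

def s26_170_122 : T TT 256 :=
  (.q k4 [(.s k84 k87 0 (.s k244 k164 11 (.s k165 k7 12 (.s k245 k5 11 (.d k247 k246 k166 0 12))))),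
  (.s k12 k8 1 (.s k84 k87 0 (.s k164 k244 11 (.s k88 k240 13 (.s k92 k80 1 (.d k252 k172 k168 11
  13)))))), (.s k12 k8 1 (.s k166 k247 12 (.s k6 k246 11 (.s k3 k9 2 (.s k1 k2 0 (.d k169 k253 k252
  13 14))))))] (.c k244 (.l (.s k12 k8 1 (.s k84 k87 0 (.s k166 k247 12 (.s k89 k243 14 (.s k92 k83
  2 (.d k252 k172 k168 11 13))))))) .n))

def s26_170_123 : T TT 256 :=
  (.q k4 [(.s k84 k87 0 (.s k244 k164 11 (.s k165 k7 12 (.s k245 k5 11 (.d k247 k246 k166 0 12))))),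
  (.s k12 k8 1 (.s k84 k87 0 (.s k164 k244 11 (.s k88 k240 13 (.s k92 k80 1 (.d k252 k172 k168 11
  13)))))), (.s k12 k8 1 (.s k166 k247 12 (.s k6 k246 11 (.s k3 k9 2 (.s k1 k2 0 (.d k169 k253 k252
  13 14))))))] (.c k244 (.l (.s k12 k8 1 (.s k84 k87 0 (.s k166 k247 12 (.s k89 k243 14 (.s k92 k83
  2 (.d k252 k172 k168 11 13))))))) .n))

def s26_170_124 : T TT 256 :=
  (.q k4 [(.s k84 k87 0 (.s k244 k164 11 (.s k165 k7 12 (.s k245 k5 11 (.d k247 k246 k166 0 12))))),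
  (.s k12 k8 1 (.s k84 k87 0 (.s k164 k244 11 (.s k88 k240 13 (.s k92 k80 1 (.d k252 k172 k168 11
  13)))))), (.s k12 k8 1 (.s k166 k247 12 (.s k6 k246 11 (.s k3 k9 2 (.s k1 k2 0 (.d k169 k253 k252
  13 14))))))] (.c k244 (.l (.s k12 k8 1 (.s k84 k87 0 (.s k166 k247 12 (.s k89 k243 14 (.s k92 k83
  2 (.d k252 k172 k168 11 13))))))) .n))

def s26_170_125 : T TT 256 :=
  (.q k4 [(.s k84 k87 0 (.s k244 k164 11 (.s k165 k7 12 (.s k245 k5 11 (.d k247 k246 k166 0 12))))),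
  (.s k12 k8 1 (.s k84 k87 0 (.s k164 k244 11 (.s k88 k240 13 (.s k92 k80 1 (.d k252 k172 k168 11
  13)))))), (.s k12 k8 1 (.s k166 k247 12 (.s k6 k246 11 (.s k3 k9 2 (.s k1 k2 0 (.d k169 k253 k252
  13 14))))))] (.c k244 (.l (.s k12 k8 1 (.s k84 k87 0 (.s k166 k247 12 (.s k89 k243 14 (.s k92 k83
  2 (.d k252 k172 k168 11 13))))))) .n))

def s26_170_126 : T TT 256 :=
  (.q k4 [(.s k84 k87 0 (.s k244 k164 11 (.s k165 k7 12 (.s k245 k5 11 (.d k247 k246 k166 0 12))))),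
  (.s k12 k8 1 (.s k84 k87 0 (.s k164 k244 11 (.s k88 k240 13 (.s k92 k80 1 (.d k252 k172 k168 11
  13)))))), (.s k12 k8 1 (.s k166 k247 12 (.s k6 k246 11 (.s k3 k9 2 (.s k1 k2 0 (.d k169 k253 k252
  13 14))))))] (.c k244 (.l (.s k12 k8 1 (.s k84 k87 0 (.s k166 k247 12 (.s k89 k243 14 (.s k92 k83
  2 (.d k252 k172 k168 11 13))))))) .n))

def s26_170_127 : T TT 256 :=
  (.q k4 [(.s k84 k87 0 (.s k244 k164 11 (.s k165 k7 12 (.s k245 k5 11 (.d k247 k246 k166 0 12))))),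
  (.s k12 k8 1 (.s k166 k247 12 (.s k6 k246 11 (.s k3 k9 2 (.s k1 k2 0 (.d k169 k253 k252 13
  14)))))), (.s k12 k8 1 (.s k84 k87 0 (.s k164 k244 11 (.s k88 k240 13 (.s k92 k80 1 (.d k252 k172
  k168 11 13))))))] (.c k244 (.l (.s k12 k8 1 (.s k84 k87 0 (.s k166 k247 12 (.s k89 k243 14 (.s k92
  k83 2 (.d k252 k172 k168 11 13))))))) .n))

def s26_170_128 : T TT 256 :=
  (.q k149 [(.s k21 k213 7 (.s k23 k212 8 (.s k87 k84 0 (.s k215 k151 7 (.d k20 k22 k150 0 8))))),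
  (.s k21 k213 7 (.s k63 k42 6 (.s k84 k87 0 (.s k106 k192 14 (.s k126 k66 5 (.d k252 k189 k168 8
  13)))))), (.s k21 k213 7 (.s k23 k212 8 (.s k63 k42 6 (.s k3 k43 5 (.s k1 k2 0 (.d k169 k253 k252
  13 14)))))), (.s k84 k87 0 (.s k212 k23 8 (.s k252 k168 13 (.s k169 k3 14 (.s k189 k129 5 (.s k63
  k126 8 (.d k192 k232 k106 5 14)))))))] .n)

def s26_170_129 : T TT 256 :=
  (.q k4 [(.s k84 k87 0 (.s k244 k164 11 (.s k165 k7 12 (.s k245 k5 11 (.d k247 k246 k166 0 12))))),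
  (.s k12 k8 1 (.s k84 k87 0 (.s k164 k244 11 (.s k88 k240 13 (.s k92 k80 1 (.d k252 k172 k168 11
  13)))))), (.s k12 k8 1 (.s k166 k247 12 (.s k6 k246 11 (.s k3 k9 2 (.s k1 k2 0 (.d k169 k253 k252
  13 14))))))] (.c k244 (.l (.s k12 k8 1 (.s k84 k87 0 (.s k166 k247 12 (.s k89 k243 14 (.s k92 k83
  2 (.d k252 k172 k168 11 13))))))) .n))

def s26_170_130 : T TT 256 :=
  (.q k150 [(.s k20 k215 8 (.s k22 k214 7 (.s k84 k87 0 (.s k212 k148 7 (.d k23 k21 k149 0 8))))),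
  (.s k84 k87 0 (.s k214 k22 7 (.s k252 k168 13 (.s k169 k3 14 (.s k188 k131 6 (.s k60 k124 7 (.d
  k195 k233 k105 6 14))))))), (.s k20 k215 8 (.s k60 k40 5 (.s k84 k87 0 (.s k105 k195 14 (.s k124
  k67 6 (.d k252 k188 k168 7 13)))))), (.s k20 k215 8 (.s k22 k214 7 (.s k60 k40 5 (.s k3 k41 6 (.s
  k1 k2 0 (.d k169 k253 k252 13 14))))))] .n)

def s26_170_131 : T TT 256 :=
  (.q k4 [(.s k84 k87 0 (.s k244 k164 11 (.s k165 k7 12 (.s k245 k5 11 (.d k247 k246 k166 0 12))))),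
  (.s k12 k8 1 (.s k84 k87 0 (.s k164 k244 11 (.s k88 k240 13 (.s k92 k80 1 (.d k252 k172 k168 11
  13)))))), (.s k12 k8 1 (.s k166 k247 12 (.s k6 k246 11 (.s k3 k9 2 (.s k1 k2 0 (.d k169 k253 k252
  13 14))))))] (.c k244 (.l (.s k12 k8 1 (.s k84 k87 0 (.s k166 k247 12 (.s k89 k243 14 (.s k92 k83
  2 (.d k252 k172 k168 11 13))))))) .n))

def s26_170_132 : T TT 256 :=
  (.q k4 [(.s k84 k87 0 (.s k166 k247 12 (.s k6 k246 11 (.s k7 k5 0 (.d k244 k164 k165 11 12))))),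
  (.s k12 k8 1 (.s k84 k87 0 (.s k164 k244 11 (.s k88 k240 13 (.s k92 k80 1 (.d k252 k172 k168 11
  13)))))), (.s k12 k8 1 (.s k166 k247 12 (.s k6 k246 11 (.s k3 k9 2 (.s k1 k2 0 (.d k169 k253 k252
  13 14))))))] (.c k244 (.l (.s k12 k8 1 (.s k84 k87 0 (.s k166 k247 12 (.s k89 k243 14 (.s k92 k83
  2 (.d k252 k172 k168 11 13))))))) .n))

def s26_170_133 : T TT 256 :=
  (.q k4 [(.s k84 k87 0 (.s k166 k247 12 (.s k6 k246 11 (.s k244 k164 11 (.d k7 k5 k165 0 12))))),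
  (.s k12 k8 1 (.s k84 k87 0 (.s k164 k244 11 (.s k88 k240 13 (.s k92 k80 1 (.d k252 k172 k168 11
  13)))))), (.s k12 k8 1 (.s k166 k247 12 (.s k6 k246 11 (.s k3 k9 2 (.s k1 k2 0 (.d k169 k253 k252
  13 14))))))] (.c k244 (.l (.s k12 k8 1 (.s k84 k87 0 (.s k166 k247 12 (.s k89 k243 14 (.s k92 k83
  2 (.d k252 k172 k168 11 13))))))) .n))

def s26_170_134 : T TT 256 :=
  (.q k4 [(.s k84 k87 0 (.s k244 k164 11 (.s k165 k7 12 (.s k245 k5 11 (.d k247 k246 k166 0 12))))),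
  (.s k12 k8 1 (.s k84 k87 0 (.s k164 k244 11 (.s k88 k240 13 (.s k92 k80 1 (.d k252 k172 k168 11
  13)))))), (.s k12 k8 1 (.s k166 k247 12 (.s k6 k246 11 (.s k3 k9 2 (.s k1 k2 0 (.d k169 k253 k252
  13 14))))))] (.c k244 (.l (.s k12 k8 1 (.s k84 k87 0 (.s k166 k247 12 (.s k89 k243 14 (.s k92 k83
  2 (.d k252 k172 k168 11 13))))))) .n))

def s26_170_135 : T TT 256 :=
  (.q k4 [(.s k84 k87 0 (.s k166 k247 12 (.s k6 k246 11 (.s k7 k5 0 (.d k244 k164 k165 11 12))))),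
  (.s k12 k8 1 (.s k84 k87 0 (.s k164 k244 11 (.s k88 k240 13 (.s k92 k80 1 (.d k252 k172 k168 11
  13)))))), (.s k12 k8 1 (.s k166 k247 12 (.s k6 k246 11 (.s k3 k9 2 (.s k1 k2 0 (.d k169 k253 k252
  13 14))))))] (.c k244 (.l (.s k12 k8 1 (.s k84 k87 0 (.s k166 k247 12 (.s k89 k243 14 (.s k92 k83
  2 (.d k252 k172 k168 11 13))))))) .n))

def s26_170_136 : T TT 256 :=
  (.q k153 [(.s k17 k221 9 (.s k19 k220 10 (.s k87 k84 0 (.s k223 k155 9 (.d k16 k18 k154 0 10))))),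
  (.s k17 k221 9 (.s k51 k34 4 (.s k84 k87 0 (.s k102 k204 14 (.s k118 k70 3 (.d k252 k185 k168 10
  13)))))), (.s k17 k221 9 (.s k19 k220 10 (.s k51 k34 4 (.s k3 k35 3 (.s k1 k2 0 (.d k169 k253 k252
  13 14)))))), (.s k84 k87 0 (.s k220 k19 10 (.s k252 k168 13 (.s k169 k3 14 (.s k185 k137 3 (.s k51
  k118 10 (.d k204 k236 k102 3 14)))))))] .n)

def s26_170_137 : T TT 256 :=
  (.q k4 [(.s k84 k87 0 (.s k244 k164 11 (.s k165 k7 12 (.s k245 k5 11 (.d k247 k246 k166 0 12))))),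
  (.s k12 k8 1 (.s k84 k87 0 (.s k164 k244 11 (.s k88 k240 13 (.s k92 k80 1 (.d k252 k172 k168 11
  13)))))), (.s k12 k8 1 (.s k166 k247 12 (.s k6 k246 11 (.s k3 k9 2 (.s k1 k2 0 (.d k169 k253 k252
  13 14))))))] (.c k244 (.l (.s k12 k8 1 (.s k84 k87 0 (.s k166 k247 12 (.s k89 k243 14 (.s k92 k83
  2 (.d k252 k172 k168 11 13))))))) .n))

def s26_170_138 : T TT 256 :=
  (.q k154 [(.s k16 k223 10 (.s k18 k222 9 (.s k19 k17 0 (.s k84 k87 0 (.d k220 k152 k153 9 10))))),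
  (.s k84 k87 0 (.s k222 k18 9 (.s k252 k168 13 (.s k169 k3 14 (.s k184 k139 4 (.s k48 k116 9 (.d
  k207 k237 k101 4 14))))))), (.s k16 k223 10 (.s k48 k32 3 (.s k84 k87 0 (.s k101 k207 14 (.s k116
  k71 4 (.d k252 k184 k168 9 13)))))), (.s k16 k223 10 (.s k18 k222 9 (.s k48 k32 3 (.s k3 k33 4 (.s
  k1 k2 0 (.d k169 k253 k252 13 14))))))] .n)

def s26_170_139 : T TT 256 :=
  (.q k4 [(.s k84 k87 0 (.s k244 k164 11 (.s k165 k7 12 (.s k245 k5 11 (.d k247 k246 k166 0 12))))),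
  (.s k12 k8 1 (.s k84 k87 0 (.s k164 k244 11 (.s k88 k240 13 (.s k92 k80 1 (.d k252 k172 k168 11
  13)))))), (.s k12 k8 1 (.s k166 k247 12 (.s k6 k246 11 (.s k3 k9 2 (.s k1 k2 0 (.d k169 k253 k252
  13 14))))))] (.c k244 (.l (.s k12 k8 1 (.s k84 k87 0 (.s k166 k247 12 (.s k89 k243 14 (.s k92 k83
  2 (.d k252 k172 k168 11 13))))))) .n))

def s26_170_140 : T TT 256 :=
  (.q k4 [(.s k84 k87 0 (.s k166 k247 12 (.s k6 k246 11 (.s k7 k5 0 (.d k244 k164 k165 11 12))))),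
  (.s k12 k8 1 (.s k84 k87 0 (.s k164 k244 11 (.s k88 k240 13 (.s k92 k80 1 (.d k252 k172 k168 11
  13)))))), (.s k12 k8 1 (.s k166 k247 12 (.s k6 k246 11 (.s k3 k9 2 (.s k1 k2 0 (.d k169 k253 k252
  13 14))))))] (.c k244 (.l (.s k12 k8 1 (.s k84 k87 0 (.s k166 k247 12 (.s k89 k243 14 (.s k92 k83
  2 (.d k252 k172 k168 11 13))))))) .n))

def s26_170_141 : T TT 256 :=
  (.q k4 [(.s k84 k87 0 (.s k244 k164 11 (.s k165 k7 12 (.s k245 k5 11 (.d k247 k246 k166 0 12))))),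
  (.s k12 k8 1 (.s k84 k87 0 (.s k164 k244 11 (.s k88 k240 13 (.s k92 k80 1 (.d k252 k172 k168 11
  13)))))), (.s k12 k8 1 (.s k166 k247 12 (.s k6 k246 11 (.s k3 k9 2 (.s k1 k2 0 (.d k169 k253 k252
  13 14))))))] (.c k244 (.l (.s k12 k8 1 (.s k84 k87 0 (.s k166 k247 12 (.s k89 k243 14 (.s k92 k83
  2 (.d k252 k172 k168 11 13))))))) .n))

def s26_170_142 : T TT 256 :=
  (.q k4 [(.s k84 k87 0 (.s k244 k164 11 (.s k165 k7 12 (.s k245 k5 11 (.d k247 k246 k166 0 12))))),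
  (.s k12 k8 1 (.s k84 k87 0 (.s k164 k244 11 (.s k88 k240 13 (.s k92 k80 1 (.d k252 k172 k168 11
  13)))))), (.s k12 k8 1 (.s k166 k247 12 (.s k6 k246 11 (.s k3 k9 2 (.s k1 k2 0 (.d k169 k253 k252
  13 14))))))] (.c k244 (.l (.s k12 k8 1 (.s k84 k87 0 (.s k166 k247 12 (.s k89 k243 14 (.s k92 k83
  2 (.d k252 k172 k168 11 13))))))) .n))

def s26_170_143 : T TT 256 :=
  (.q k4 [(.s k84 k87 0 (.s k244 k164 11 (.s k165 k7 12 (.s k245 k5 11 (.d k247 k246 k166 0 12))))),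
  (.s k12 k8 1 (.s k84 k87 0 (.s k164 k244 11 (.s k88 k240 13 (.s k92 k80 1 (.d k252 k172 k168 11
  13)))))), (.s k12 k8 1 (.s k166 k247 12 (.s k6 k246 11 (.s k3 k9 2 (.s k1 k2 0 (.d k169 k253 k252
  13 14))))))] (.c k244 (.l (.s k12 k8 1 (.s k84 k87 0 (.s k166 k247 12 (.s k89 k243 14 (.s k92 k83
  2 (.d k252 k172 k168 11 13))))))) .n))

def s26_170_144 : T TT 256 :=
  (.q k4 [(.s k84 k87 0 (.s k244 k164 11 (.s k165 k7 12 (.s k245 k5 11 (.d k247 k246 k166 0 12))))),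
  (.s k12 k8 1 (.s k84 k87 0 (.s k164 k244 11 (.s k88 k240 13 (.s k92 k80 1 (.d k252 k172 k168 11
  13)))))), (.s k12 k8 1 (.s k166 k247 12 (.s k6 k246 11 (.s k3 k9 2 (.s k1 k2 0 (.d k169 k253 k252
  13 14))))))] (.c k244 (.l (.s k12 k8 1 (.s k84 k87 0 (.s k166 k247 12 (.s k89 k243 14 (.s k92 k83
  2 (.d k252 k172 k168 11 13))))))) .n))

def s26_170_145 : T TT 256 :=
  (.q k4 [(.s k84 k87 0 (.s k244 k164 11 (.s k165 k7 12 (.s k245 k5 11 (.d k247 k246 k166 0 12))))),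
  (.s k12 k8 1 (.s k84 k87 0 (.s k164 k244 11 (.s k88 k240 13 (.s k92 k80 1 (.d k252 k172 k168 11
  13)))))), (.s k12 k8 1 (.s k166 k247 12 (.s k6 k246 11 (.s k3 k9 2 (.s k1 k2 0 (.d k169 k253 k252
  13 14))))))] (.c k244 (.l (.s k12 k8 1 (.s k84 k87 0 (.s k166 k247 12 (.s k89 k243 14 (.s k92 k83
  2 (.d k252 k172 k168 11 13))))))) .n))

def s26_170_146 : T TT 256 :=
  (.q k4 [(.s k84 k87 0 (.s k244 k164 11 (.s k165 k7 12 (.s k245 k5 11 (.d k247 k246 k166 0 12))))),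
  (.s k12 k8 1 (.s k84 k87 0 (.s k164 k244 11 (.s k88 k240 13 (.s k92 k80 1 (.d k252 k172 k168 11
  13)))))), (.s k12 k8 1 (.s k166 k247 12 (.s k6 k246 11 (.s k3 k9 2 (.s k1 k2 0 (.d k169 k253 k252
  13 14))))))] (.c k244 (.l (.s k12 k8 1 (.s k84 k87 0 (.s k166 k247 12 (.s k89 k243 14 (.s k92 k83
  2 (.d k252 k172 k168 11 13))))))) .n))

def s26_170_147 : T TT 256 :=
  (.q k4 [(.s k84 k87 0 (.s k244 k164 11 (.s k165 k7 12 (.s k245 k5 11 (.d k247 k246 k166 0 12))))),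
  (.s k12 k8 1 (.s k84 k87 0 (.s k164 k244 11 (.s k88 k240 13 (.s k92 k80 1 (.d k252 k172 k168 11
  13)))))), (.s k12 k8 1 (.s k166 k247 12 (.s k6 k246 11 (.s k3 k9 2 (.s k1 k2 0 (.d k169 k253 k252
  13 14))))))] (.c k244 (.l (.s k12 k8 1 (.s k84 k87 0 (.s k166 k247 12 (.s k89 k243 14 (.s k92 k83
  2 (.d k252 k172 k168 11 13))))))) .n))

def s26_170_148 : T TT 256 :=
  (.q k4 [(.s k84 k87 0 (.s k166 k247 12 (.s k6 k246 11 (.s k7 k5 0 (.d k244 k164 k165 11 12))))),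
  (.s k12 k8 1 (.s k84 k87 0 (.s k164 k244 11 (.s k88 k240 13 (.s k92 k80 1 (.d k252 k172 k168 11
  13)))))), (.s k12 k8 1 (.s k166 k247 12 (.s k6 k246 11 (.s k3 k9 2 (.s k1 k2 0 (.d k169 k253 k252
  13 14))))))] (.c k244 (.l (.s k12 k8 1 (.s k84 k87 0 (.s k166 k247 12 (.s k89 k243 14 (.s k92 k83
  2 (.d k252 k172 k168 11 13))))))) .n))

def s26_170_149 : T TT 256 :=
  (.f k84 k87 0 (.q k64 [(.s k124 k104 5 (.s k105 k67 6 (.s k125 k65 5 (.d k127 k126 k106 0 6)))),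
  (.s k104 k124 5 (.s k168 k252 13 (.s k40 k232 7 (.s k60 k20 5 (.d k192 k128 k148 7 13))))), (.s
  k106 k127 6 (.s k252 k168 13 (.s k169 k3 14 (.s k232 k43 8 (.d k192 k128 k212 7 5)))))] (.c k128
  (.q k191 [(.s k124 k104 5 (.s k105 k67 6 (.s k125 k65 5 (.d k127 k126 k106 0 6)))), (.s k127 k106
  6 (.s k252 k168 13 (.s k169 k3 14 (.s k253 k1 13 (.d k255 k63 k254 7 0)))))] (.c k106 (.l (.s k124
  k104 5 (.s k105 k67 6 (.s k65 k125 5 (.s k195 k130 8 (.s k252 k168 13 (.d k60 k188 k150 7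
  14))))))) (.c k127 (.l (.s k124 k104 5 (.s k67 k105 6 (.s k65 k66 0 (.s k195 k130 8 (.s k252 k168
  13 (.d k3 k131 k169 7 14))))))) .n))) (.c k191 (.l (.s k128 k192 7 (.s k106 k127 6 (.s k66 k126 5
  (.s k67 k65 0 (.d k124 k104 k105 5 6)))))) .n))))

def s26_170_150 : T TT 256 :=
  (.f k84 k87 0 (.f k168 k252 13 (.q k4 [(.s k164 k244 11 (.s k160 k172 1 (.s k240 k80 11 (.d k12 k8
  k88 1 13)))), (.s k166 k247 12 (.s k6 k246 11 (.s k7 k5 0 (.d k244 k164 k165 11 12)))), (.s k12 k8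
  1 (.s k166 k247 12 (.s k89 k243 14 (.s k92 k83 2 (.s k80 k88 1 (.s k93 k81 1 (.d k95 k94 k90 0
  2)))))))] (.c k130 (.q k190 [(.s k164 k244 11 (.s k160 k172 1 (.s k240 k80 11 (.d k12 k8 k88 1
  13)))), (.s k166 k247 12 (.s k6 k246 11 (.s k7 k5 0 (.d k244 k164 k165 11 12)))), (.s k12 k8 1 (.s
  k166 k247 12 (.s k89 k243 14 (.s k92 k83 2 (.s k80 k88 1 (.s k93 k81 1 (.d k95 k94 k90 0 2)))))))]
  .n) (.c k190 (.q k130 [(.s k164 k244 11 (.s k160 k172 1 (.s k240 k80 11 (.d k12 k8 k88 1 13)))),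
  (.s k166 k247 12 (.s k6 k246 11 (.s k7 k5 0 (.d k244 k164 k165 11 12)))), (.s k12 k8 1 (.s k195
  k65 8 (.s k134 k73 10 (.s k69 k199 8 (.d k138 k142 k207 1 10)))))] .n) .n)))))

def s26_170_151 : T TT 256 :=
  (.q k4 [(.s k84 k87 0 (.s k244 k164 11 (.s k165 k7 12 (.s k245 k5 11 (.d k247 k246 k166 0 12))))),
  (.s k12 k8 1 (.s k166 k247 12 (.s k6 k246 11 (.s k3 k9 2 (.s k1 k2 0 (.d k169 k253 k252 13
  14)))))), (.s k12 k8 1 (.s k84 k87 0 (.s k164 k244 11 (.s k88 k240 13 (.s k92 k80 1 (.d k252 k172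
  k168 11 13))))))] (.c k244 (.l (.s k12 k8 1 (.s k84 k87 0 (.s k166 k247 12 (.s k89 k243 14 (.s k92
  k83 2 (.d k252 k172 k168 11 13))))))) .n))

def s26_170_152 : T TT 256 :=
  (.q k4 [(.s k84 k87 0 (.s k166 k247 12 (.s k6 k246 11 (.s k7 k5 0 (.d k244 k164 k165 11 12))))),
  (.s k12 k8 1 (.s k84 k87 0 (.s k164 k244 11 (.s k88 k240 13 (.s k92 k80 1 (.d k252 k172 k168 11
  13)))))), (.s k12 k8 1 (.s k166 k247 12 (.s k6 k246 11 (.s k3 k9 2 (.s k1 k2 0 (.d k169 k253 k252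
  13 14))))))] (.c k244 (.l (.s k12 k8 1 (.s k84 k87 0 (.s k166 k247 12 (.s k89 k243 14 (.s k92 k83
  2 (.d k252 k172 k168 11 13))))))) .n))

def s26_170_153 : T TT 256 :=
  (.f k84 k87 0 (.q k68 [(.s k116 k100 3 (.s k101 k71 4 (.s k117 k69 3 (.d k119 k118 k102 0 4)))),
  (.s k100 k116 3 (.s k168 k252 13 (.s k32 k236 9 (.s k48 k16 3 (.d k204 k136 k152 9 13))))), (.s
  k102 k119 4 (.s k252 k168 13 (.s k169 k3 14 (.s k236 k35 10 (.d k204 k136 k220 9 3)))))] (.c k136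
  (.q k187 [(.s k116 k100 3 (.s k101 k71 4 (.s k117 k69 3 (.d k119 k118 k102 0 4)))), (.s k119 k102
  4 (.s k252 k168 13 (.s k169 k3 14 (.s k253 k1 13 (.d k255 k51 k254 9 0)))))] (.c k102 (.l (.s k116
  k100 3 (.s k101 k71 4 (.s k69 k117 3 (.s k207 k138 10 (.s k252 k168 13 (.d k48 k184 k154 9
  14))))))) (.c k119 (.l (.s k116 k100 3 (.s k71 k101 4 (.s k69 k70 0 (.s k207 k138 10 (.s k252 k168
  13 (.d k3 k139 k169 9 14))))))) .n))) (.c k187 (.l (.s k136 k204 9 (.s k102 k119 4 (.s k70 k118 3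
  (.s k71 k69 0 (.d k116 k100 k101 3 4)))))) .n))))

def s26_170_154 : T TT 256 :=
  (.f k84 k87 0 (.q k90 [(.s k80 k95 2 (.s k82 k94 1 (.s k83 k81 0 (.d k92 k88 k89 1 2)))), (.s k94
  k82 1 (.s k252 k168 13 (.s k15 k173 12 (.s k5 k10 2 (.d k165 k245 k240 11 14))))), (.s k80 k95 2
  (.s k240 k160 11 (.s k165 k15 14 (.s k244 k7 12 (.d k252 k248 k168 1 13)))))] (.c k138 (.q k186
  [(.s k80 k95 2 (.s k82 k94 1 (.s k83 k81 0 (.d k92 k88 k89 1 2)))), (.s k94 k82 1 (.s k252 k168 13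
  (.s k15 k173 12 (.s k5 k10 2 (.d k165 k245 k240 11 14))))), (.s k80 k95 2 (.s k240 k160 11 (.s
  k165 k15 14 (.s k244 k7 12 (.d k252 k248 k168 1 13)))))] .n) (.c k186 (.q k138 [(.s k80 k95 2 (.s
  k82 k94 1 (.s k83 k81 0 (.d k92 k88 k89 1 2)))), (.s k94 k82 1 (.s k252 k168 13 (.s k15 k173 12
  (.s k5 k10 2 (.d k165 k245 k240 11 14))))), (.s k80 k95 2 (.s k240 k160 11 (.s k165 k15 14 (.s
  k244 k7 12 (.d k252 k248 k168 1 13)))))] .n) .n))))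

def s26_170_155 : T TT 256 :=
  (.q k4 [(.s k84 k87 0 (.s k244 k164 11 (.s k165 k7 12 (.s k245 k5 11 (.d k247 k246 k166 0 12))))),
  (.s k12 k8 1 (.s k166 k247 12 (.s k6 k246 11 (.s k3 k9 2 (.s k1 k2 0 (.d k169 k253 k252 13
  14)))))), (.s k12 k8 1 (.s k84 k87 0 (.s k164 k244 11 (.s k88 k240 13 (.s k92 k80 1 (.d k252 k172
  k168 11 13))))))] (.c k244 (.l (.s k12 k8 1 (.s k84 k87 0 (.s k166 k247 12 (.s k89 k243 14 (.s k92
  k83 2 (.d k252 k172 k168 11 13))))))) .n))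

def s26_170_156 : T TT 256 :=
  (.q k4 [(.s k84 k87 0 (.s k244 k164 11 (.s k165 k7 12 (.s k245 k5 11 (.d k247 k246 k166 0 12))))),
  (.s k12 k8 1 (.s k84 k87 0 (.s k164 k244 11 (.s k88 k240 13 (.s k92 k80 1 (.d k252 k172 k168 11
  13)))))), (.s k12 k8 1 (.s k166 k247 12 (.s k6 k246 11 (.s k3 k9 2 (.s k1 k2 0 (.d k169 k253 k252
  13 14))))))] (.c k244 (.l (.s k12 k8 1 (.s k84 k87 0 (.s k166 k247 12 (.s k89 k243 14 (.s k92 k83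
  2 (.d k252 k172 k168 11 13))))))) .n))

def s26_170_157 : T TT 256 :=
  (.q k4 [(.s k84 k87 0 (.s k244 k164 11 (.s k165 k7 12 (.s k245 k5 11 (.d k247 k246 k166 0 12))))),
  (.s k12 k8 1 (.s k84 k87 0 (.s k164 k244 11 (.s k88 k240 13 (.s k92 k80 1 (.d k252 k172 k168 11
  13)))))), (.s k12 k8 1 (.s k166 k247 12 (.s k6 k246 11 (.s k3 k9 2 (.s k1 k2 0 (.d k169 k253 k252
  13 14))))))] (.c k244 (.l (.s k12 k8 1 (.s k84 k87 0 (.s k166 k247 12 (.s k89 k243 14 (.s k92 k83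
  2 (.d k252 k172 k168 11 13))))))) .n))

def s26_170_158 : T TT 256 :=
  (.q k4 [(.s k84 k87 0 (.s k244 k164 11 (.s k165 k7 12 (.s k245 k5 11 (.d k247 k246 k166 0 12))))),
  (.s k12 k8 1 (.s k84 k87 0 (.s k164 k244 11 (.s k88 k240 13 (.s k92 k80 1 (.d k252 k172 k168 11
  13)))))), (.s k12 k8 1 (.s k166 k247 12 (.s k6 k246 11 (.s k3 k9 2 (.s k1 k2 0 (.d k169 k253 k252
  13 14))))))] (.c k244 (.l (.s k12 k8 1 (.s k84 k87 0 (.s k166 k247 12 (.s k89 k243 14 (.s k92 k83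
  2 (.d k252 k172 k168 11 13))))))) .n))

def s26_170_159 : T TT 256 :=
  (.q k4 [(.s k84 k87 0 (.s k244 k164 11 (.s k165 k7 12 (.s k245 k5 11 (.d k247 k246 k166 0 12))))),
  (.s k12 k8 1 (.s k84 k87 0 (.s k164 k244 11 (.s k88 k240 13 (.s k92 k80 1 (.d k252 k172 k168 11
  13)))))), (.s k12 k8 1 (.s k166 k247 12 (.s k6 k246 11 (.s k3 k9 2 (.s k1 k2 0 (.d k169 k253 k252
  13 14))))))] (.c k244 (.l (.s k12 k8 1 (.s k84 k87 0 (.s k166 k247 12 (.s k89 k243 14 (.s k92 k83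
  2 (.d k252 k172 k168 11 13))))))) .n))

def s26_170_160 : T TT 256 :=
  (.q k165 [(.s k5 k245 11 (.s k7 k244 12 (.s k4 k6 0 (.s k87 k84 0 (.d k247 k167 k166 11 12))))),
  (.s k5 k245 11 (.s k15 k10 2 (.s k84 k87 0 (.s k90 k240 14 (.s k94 k82 1 (.d k252 k173 k168 12
  13)))))), (.s k5 k245 11 (.s k7 k244 12 (.s k15 k10 2 (.s k3 k11 1 (.s k1 k2 0 (.d k169 k253 k252
  13 14)))))), (.s k84 k87 0 (.s k244 k7 12 (.s k252 k168 13 (.s k169 k3 14 (.s k173 k161 1 (.s k15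
  k94 12 (.d k240 k248 k90 1 14)))))))] .n)

def s26_170_161 : T TT 256 :=
  (.q k4 [(.s k84 k87 0 (.s k244 k164 11 (.s k165 k7 12 (.s k245 k5 11 (.d k247 k246 k166 0 12))))),
  (.s k12 k8 1 (.s k84 k87 0 (.s k164 k244 11 (.s k88 k240 13 (.s k92 k80 1 (.d k252 k172 k168 11
  13)))))), (.s k12 k8 1 (.s k166 k247 12 (.s k6 k246 11 (.s k3 k9 2 (.s k1 k2 0 (.d k169 k253 k252
  13 14))))))] (.c k244 (.l (.s k12 k8 1 (.s k84 k87 0 (.s k166 k247 12 (.s k89 k243 14 (.s k92 k83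
  2 (.d k252 k172 k168 11 13))))))) .n))

def s26_170_162 : T TT 256 :=
  (.q k166 [(.s k4 k247 12 (.s k6 k246 11 (.s k7 k5 0 (.s k84 k87 0 (.d k244 k164 k165 11 12))))),
  (.s k84 k87 0 (.s k246 k6 11 (.s k252 k168 13 (.s k169 k3 14 (.s k172 k163 2 (.s k12 k92 11 (.d
  k243 k249 k89 2 14))))))), (.s k4 k247 12 (.s k12 k8 1 (.s k84 k87 0 (.s k89 k243 14 (.s k92 k83 2
  (.d k252 k172 k168 11 13)))))), (.s k4 k247 12 (.s k6 k246 11 (.s k12 k8 1 (.s k3 k9 2 (.s k1 k2 0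
  (.d k169 k253 k252 13 14))))))] .n)

def s26_170_163 : T TT 256 :=
  (.q k4 [(.s k84 k87 0 (.s k244 k164 11 (.s k165 k7 12 (.s k245 k5 11 (.d k247 k246 k166 0 12))))),
  (.s k12 k8 1 (.s k84 k87 0 (.s k164 k244 11 (.s k88 k240 13 (.s k92 k80 1 (.d k252 k172 k168 11
  13)))))), (.s k12 k8 1 (.s k166 k247 12 (.s k6 k246 11 (.s k3 k9 2 (.s k1 k2 0 (.d k169 k253 k252
  13 14))))))] (.c k244 (.l (.s k12 k8 1 (.s k84 k87 0 (.s k166 k247 12 (.s k89 k243 14 (.s k252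
  k168 13 (.d k92 k83 k172 2 11))))))) .n))

def s26_170_164 : T TT 256 :=
  (.q k16 [(.s k84 k87 0 (.s k154 k223 10 (.s k18 k222 9 (.s k19 k17 0 (.d k220 k152 k153 9 10))))),
  (.s k48 k32 3 (.s k84 k87 0 (.s k152 k220 9 (.s k100 k204 13 (.s k116 k68 3 (.d k252 k184 k168 9
  13)))))), (.s k48 k32 3 (.s k154 k223 10 (.s k18 k222 9 (.s k3 k33 4 (.s k1 k2 0 (.d k169 k253
  k252 13 14))))))] (.c k220 (.l (.s k48 k32 3 (.s k84 k87 0 (.s k154 k223 10 (.s k101 k207 14 (.s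
  k116 k71 4 (.d k252 k184 k168 9 13))))))) .n))

def s26_170_165 : T TT 256 :=
  (.f k84 k87 0 (.q k80 [(.s k92 k88 1 (.s k89 k83 2 (.s k93 k81 1 (.d k95 k94 k90 0 2)))), (.s k88
  k92 1 (.s k168 k252 13 (.s k8 k248 11 (.s k12 k4 1 (.d k240 k160 k164 11 13))))), (.s k90 k95 2
  (.s k252 k168 13 (.s k169 k3 14 (.s k248 k11 12 (.d k240 k160 k244 11 1)))))] (.c k160 (.q k175
  [(.s k92 k88 1 (.s k89 k83 2 (.s k93 k81 1 (.d k95 k94 k90 0 2)))), (.s k95 k90 2 (.s k252 k168 13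
  (.s k169 k3 14 (.s k253 k1 13 (.d k255 k15 k254 11 0)))))] (.c k90 (.l (.s k92 k88 1 (.s k89 k83 2
  (.s k81 k93 1 (.s k243 k162 12 (.s k252 k168 13 (.d k12 k172 k166 11 14))))))) (.c k95 (.l (.s k92
  k88 1 (.s k83 k89 2 (.s k81 k82 0 (.s k243 k162 12 (.s k252 k168 13 (.d k3 k163 k169 11 14)))))))
  .n))) (.c k175 (.l (.s k160 k240 11 (.s k90 k95 2 (.s k82 k94 1 (.s k83 k81 0 (.d k92 k88 k89 1
  2)))))) .n))))

def s26_170_166 : T TT 256 :=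
  (.f k84 k87 0 (.f k168 k252 13 (.q k68 [(.s k100 k116 3 (.s k32 k236 9 (.s k48 k16 3 (.d k204 k136
  k152 9 13)))), (.s k102 k119 4 (.s k70 k118 3 (.s k71 k69 0 (.d k116 k100 k101 3 4)))), (.s k102
  k119 4 (.s k204 k136 9 (.s k153 k51 14 (.s k220 k19 10 (.s k16 k152 9 (.s k221 k17 9 (.d k223 k222
  k154 0 10)))))))] (.c k162 (.q k174 [(.s k100 k116 3 (.s k32 k236 9 (.s k48 k16 3 (.d k204 k136
  k152 9 13)))), (.s k102 k119 4 (.s k70 k118 3 (.s k71 k69 0 (.d k116 k100 k101 3 4)))), (.s k102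
  k119 4 (.s k204 k136 9 (.s k153 k51 14 (.s k220 k19 10 (.s k16 k152 9 (.s k221 k17 9 (.d k223 k222
  k154 0 10)))))))] .n) (.c k174 (.q k162 [(.s k100 k116 3 (.s k32 k236 9 (.s k48 k16 3 (.d k204
  k136 k152 9 13)))), (.s k81 k243 12 (.s k89 k93 1 (.s k92 k83 2 (.s k102 k119 4 (.s k76 k115 6 (.s
  k64 k72 1 (.d k124 k108 k104 3 5)))))))] .n) .n)))))

def s26_170_167 : T TT 256 :=
  (.q k16 [(.s k84 k87 0 (.s k220 k152 9 (.s k153 k19 10 (.s k221 k17 9 (.d k223 k222 k154 0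
  10))))), (.s k48 k32 3 (.s k154 k223 10 (.s k18 k222 9 (.s k3 k33 4 (.s k1 k2 0 (.d k169 k253 k252
  13 14)))))), (.s k48 k32 3 (.s k84 k87 0 (.s k152 k220 9 (.s k100 k204 13 (.s k116 k68 3 (.d k252
  k184 k168 9 13))))))] (.c k220 (.l (.s k48 k32 3 (.s k84 k87 0 (.s k154 k223 10 (.s k101 k207 14
  (.s k116 k71 4 (.d k252 k184 k168 9 13))))))) .n))

def s26_170_168 : T TT 256 :=
  (.f k84 k87 0 (.q k64 [(.s k106 k127 6 (.s k66 k126 5 (.s k67 k65 0 (.d k124 k104 k105 5 6)))),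
  (.s k104 k124 5 (.s k192 k128 7 (.s k148 k60 13 (.s k212 k20 7 (.s k149 k23 8 (.s k21 k213 7 (.d
  k63 k42 k106 6 14))))))), (.s k106 k127 6 (.s k192 k128 7 (.s k149 k63 14 (.s k212 k23 8 (.s k213
  k21 7 (.s k215 k214 0 (.d k20 k148 k150 7 8)))))))] (.c k106 (.f k192 k128 7 (.f k104 k124 5 (.f
  k148 k60 13 (.l (.s k212 k20 7 (.s k149 k23 8 (.s k21 k213 7 (.s k252 k232 5 (.s k169 k3 14 (.s
  k189 k129 5 (.d k63 k42 k126 6 8))))))))))) (.c k169 (.q k171 [(.s k106 k127 6 (.s k66 k126 5 (.s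
  k67 k65 0 (.d k124 k104 k105 5 6)))), (.s k104 k124 5 (.s k192 k128 7 (.s k148 k60 13 (.s k212 k20
  7 (.s k149 k23 8 (.s k21 k213 7 (.d k63 k42 k106 6 14))))))), (.s k106 k127 6 (.s k192 k128 7 (.s
  k149 k63 14 (.s k212 k23 8 (.s k213 k21 7 (.s k215 k214 0 (.d k20 k148 k150 7 8)))))))] (.c k106
  (.f k124 k104 5 (.f k105 k67 6 (.l (.s k65 k125 5 (.s k195 k130 8 (.s k150 k60 14 (.s k20 k215 8
  (.s k22 k214 7 (.s k23 k21 0 (.d k212 k148 k149 7 8)))))))))) .n)) (.c k171 (.q k169 [(.s k1 k253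
  13 (.d k3 k2 k252 0 14)), (.s k106 k127 6 (.s k66 k126 5 (.s k67 k65 0 (.d k124 k104 k105 5 6))))]
  (.c k3 (.q k255 [(.s k106 k127 6 (.s k66 k126 5 (.s k67 k65 0 (.d k124 k104 k105 5 6)))), (.s k192
  k128 7 (.s k213 k234 6 (.s k149 k21 7 (.d k106 k127 k63 6 14)))), (.s k104 k124 5 (.s k192 k128 7
  (.s k148 k60 13 (.s k212 k20 7 (.s k149 k23 8 (.d k213 k21 k234 7 6))))))] .n) (.c k255 (.l (.s k3
  k252 14 (.d k1 k253 k2 13 0))) .n))) .n)))))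

def s26_170_169 : T TT 256 :=
  (.f k84 k87 0 (.f k168 k252 13 (.q k4 [(.s k12 k8 1 (.s k164 k244 11 (.s k240 k88 13 (.d k160 k172
  k80 1 11)))), (.s k166 k247 12 (.s k6 k246 11 (.s k7 k5 0 (.d k244 k164 k165 11 12)))), (.s k12 k8
  1 (.s k166 k247 12 (.s k89 k243 14 (.s k92 k83 2 (.s k80 k88 1 (.s k93 k81 1 (.d k95 k94 k90 0
  2)))))))] .n)))

def s26_170_171 : T TT 256 :=
  (.f k84 k87 0 (.f k168 k252 13 (.q k4 [(.s k164 k244 11 (.s k160 k172 1 (.s k240 k80 11 (.d k12 k8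
  k88 1 13)))), (.s k166 k247 12 (.s k6 k246 11 (.s k7 k5 0 (.d k244 k164 k165 11 12)))), (.s k12 k8
  1 (.s k166 k247 12 (.s k89 k243 14 (.s k92 k83 2 (.s k80 k88 1 (.s k93 k81 1 (.d k95 k94 k90 0
  2)))))))] (.c k3 (.q k255 [(.s k12 k8 1 (.s k93 k174 12 (.s k89 k81 1 (.d k166 k247 k243 12
  14)))), (.s k164 k244 11 (.s k160 k172 1 (.s k240 k80 11 (.d k12 k8 k88 1 13)))), (.s k166 k247 12
  (.s k6 k246 11 (.s k7 k5 0 (.d k244 k164 k165 11 12))))] .n) (.c k255 (.q k3 [(.s k12 k8 1 (.s k6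
  k9 2 (.d k166 k246 k247 11 12))), (.s k164 k244 11 (.s k160 k172 1 (.s k240 k80 11 (.d k12 k8 k88
  1 13)))), (.s k166 k247 12 (.s k6 k246 11 (.s k7 k5 0 (.d k244 k164 k165 11 12))))] (.c k253 (.q
  k254 [(.s k12 k8 1 (.s k6 k9 2 (.d k166 k246 k247 11 12))), (.s k164 k244 11 (.s k160 k172 1 (.s
  k240 k80 11 (.d k12 k8 k88 1 13)))), (.s k166 k247 12 (.s k6 k246 11 (.s k7 k5 0 (.d k244 k164
  k165 11 12))))] .n) (.c k254 (.q k253 [(.d k1 k2 k169 0 13), (.s k12 k8 1 (.s k6 k9 2 (.d k166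
  k246 k247 11 12)))] .n) .n))) .n)))))

def s26_170_172 : T TT 256 :=
  (.q k16 [(.s k84 k87 0 (.s k220 k152 9 (.s k153 k19 10 (.s k221 k17 9 (.d k223 k222 k154 0
  10))))), (.s k48 k32 3 (.s k84 k87 0 (.s k152 k220 9 (.s k100 k204 13 (.s k116 k68 3 (.d k252 k184
  k168 9 13)))))), (.s k48 k32 3 (.s k154 k223 10 (.s k18 k222 9 (.s k3 k33 4 (.s k1 k2 0 (.d k169
  k253 k252 13 14))))))] (.c k220 (.l (.s k48 k32 3 (.s k84 k87 0 (.s k154 k223 10 (.s k101 k207 14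
  (.s k116 k71 4 (.d k252 k184 k168 9 13))))))) .n))

def s26_170_173 : T TT 256 :=
  (.q k4 [(.s k84 k87 0 (.s k244 k164 11 (.s k165 k7 12 (.s k245 k5 11 (.d k247 k246 k166 0 12))))),
  (.s k12 k8 1 (.s k84 k87 0 (.s k164 k244 11 (.s k88 k240 13 (.s k92 k80 1 (.d k252 k172 k168 11
  13)))))), (.s k12 k8 1 (.s k166 k247 12 (.s k6 k246 11 (.s k3 k9 2 (.s k1 k2 0 (.d k169 k253 k252
  13 14))))))] (.c k244 (.l (.s k12 k8 1 (.s k84 k87 0 (.s k166 k247 12 (.s k89 k243 14 (.s k92 k83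
  2 (.d k252 k172 k168 11 13))))))) .n))

def s26_170_174 : T TT 256 :=
  (.q k166 [(.s k4 k247 12 (.s k6 k246 11 (.s k7 k5 0 (.s k84 k87 0 (.d k244 k164 k165 11 12))))),
  (.s k84 k87 0 (.s k246 k6 11 (.s k252 k168 13 (.s k243 k249 2 (.s k81 k162 12 (.d k89 k93 k12 1
  14)))))), (.s k4 k247 12 (.s k12 k8 1 (.s k84 k87 0 (.s k89 k243 14 (.s k92 k83 2 (.d k252 k172
  k168 11 13)))))), (.s k4 k247 12 (.s k6 k246 11 (.s k12 k8 1 (.s k3 k9 2 (.s k1 k2 0 (.d k169 k253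
  k252 13 14))))))] .n)

def s26_170_175 : T TT 256 :=
  (.q k165 [(.s k5 k245 11 (.s k7 k244 12 (.s k4 k6 0 (.s k87 k84 0 (.d k247 k167 k166 11 12))))),
  (.s k5 k245 11 (.s k15 k10 2 (.s k84 k87 0 (.s k90 k240 14 (.s k94 k82 1 (.d k252 k173 k168 12
  13)))))), (.s k5 k245 11 (.s k7 k244 12 (.s k15 k10 2 (.s k3 k11 1 (.s k1 k2 0 (.d k169 k253 k252
  13 14)))))), (.s k84 k87 0 (.s k244 k7 12 (.s k252 k168 13 (.s k240 k248 1 (.s k80 k160 11 (.d k90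
  k95 k15 2 14))))))] .n)

def s26_170_176 : T TT 256 :=
  (.q k4 [(.s k84 k87 0 (.s k166 k247 12 (.s k6 k246 11 (.s k7 k5 0 (.d k244 k164 k165 11 12))))),
  (.s k12 k8 1 (.s k84 k87 0 (.s k164 k244 11 (.s k88 k240 13 (.s k92 k80 1 (.d k252 k172 k168 11
  13)))))), (.s k12 k8 1 (.s k166 k247 12 (.s k6 k246 11 (.s k3 k9 2 (.s k1 k2 0 (.d k169 k253 k252
  13 14))))))] (.c k244 (.l (.s k12 k8 1 (.s k84 k87 0 (.s k166 k247 12 (.s k89 k243 14 (.s k92 k83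
  2 (.d k252 k172 k168 11 13))))))) .n))

def s26_170_177 : T TT 256 :=
  (.q k4 [(.s k84 k87 0 (.s k244 k164 11 (.s k165 k7 12 (.s k245 k5 11 (.d k247 k246 k166 0 12))))),
  (.s k12 k8 1 (.s k84 k87 0 (.s k164 k244 11 (.s k88 k240 13 (.s k92 k80 1 (.d k252 k172 k168 11
  13)))))), (.s k12 k8 1 (.s k166 k247 12 (.s k6 k246 11 (.s k3 k9 2 (.s k1 k2 0 (.d k169 k253 k252
  13 14))))))] (.c k244 (.l (.s k12 k8 1 (.s k84 k87 0 (.s k166 k247 12 (.s k89 k243 14 (.s k92 k83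
  2 (.d k252 k172 k168 11 13))))))) .n))

def s26_170_178 : T TT 256 :=
  (.q k4 [(.s k84 k87 0 (.s k244 k164 11 (.s k165 k7 12 (.s k245 k5 11 (.d k247 k246 k166 0 12))))),
  (.s k12 k8 1 (.s k84 k87 0 (.s k164 k244 11 (.s k88 k240 13 (.s k92 k80 1 (.d k252 k172 k168 11
  13)))))), (.s k12 k8 1 (.s k166 k247 12 (.s k6 k246 11 (.s k3 k9 2 (.s k1 k2 0 (.d k169 k253 k252
  13 14))))))] (.c k244 (.l (.s k12 k8 1 (.s k84 k87 0 (.s k166 k247 12 (.s k89 k243 14 (.s k92 k83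
  2 (.d k252 k172 k168 11 13))))))) .n))

def s26_170_179 : T TT 256 :=
  (.q k4 [(.s k84 k87 0 (.s k244 k164 11 (.s k165 k7 12 (.s k245 k5 11 (.d k247 k246 k166 0 12))))),
  (.s k12 k8 1 (.s k84 k87 0 (.s k164 k244 11 (.s k88 k240 13 (.s k92 k80 1 (.d k252 k172 k168 11
  13)))))), (.s k12 k8 1 (.s k166 k247 12 (.s k6 k246 11 (.s k3 k9 2 (.s k1 k2 0 (.d k169 k253 k252
  13 14))))))] (.c k244 (.l (.s k12 k8 1 (.s k84 k87 0 (.s k166 k247 12 (.s k89 k243 14 (.s k92 k83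
  2 (.d k252 k172 k168 11 13))))))) .n))

def s26_170_180 : T TT 256 :=
  (.q k4 [(.s k84 k87 0 (.s k166 k247 12 (.s k6 k246 11 (.s k7 k5 0 (.d k244 k164 k165 11 12))))),
  (.s k12 k8 1 (.s k84 k87 0 (.s k164 k244 11 (.s k88 k240 13 (.s k92 k80 1 (.d k252 k172 k168 11
  13)))))), (.s k12 k8 1 (.s k166 k247 12 (.s k6 k246 11 (.s k3 k9 2 (.s k1 k2 0 (.d k169 k253 k252
  13 14))))))] (.c k244 (.l (.s k12 k8 1 (.s k84 k87 0 (.s k166 k247 12 (.s k89 k243 14 (.s k92 k83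
  2 (.d k252 k172 k168 11 13))))))) .n))

def s26_170_181 : T TT 256 :=
  (.q k4 [(.s k84 k87 0 (.s k244 k164 11 (.s k165 k7 12 (.s k245 k5 11 (.d k247 k246 k166 0 12))))),
  (.s k12 k8 1 (.s k84 k87 0 (.s k164 k244 11 (.s k88 k240 13 (.s k92 k80 1 (.d k252 k172 k168 11
  13)))))), (.s k12 k8 1 (.s k166 k247 12 (.s k6 k246 11 (.s k3 k9 2 (.s k1 k2 0 (.d k169 k253 k252
  13 14))))))] (.c k244 (.l (.s k12 k8 1 (.s k84 k87 0 (.s k166 k247 12 (.s k89 k243 14 (.s k92 k83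
  2 (.d k252 k172 k168 11 13))))))) .n))

def s26_170_182 : T TT 256 :=
  (.q k4 [(.s k84 k87 0 (.s k244 k164 11 (.s k165 k7 12 (.s k245 k5 11 (.d k247 k246 k166 0 12))))),
  (.s k12 k8 1 (.s k84 k87 0 (.s k164 k244 11 (.s k88 k240 13 (.s k92 k80 1 (.d k252 k172 k168 11
  13)))))), (.s k12 k8 1 (.s k166 k247 12 (.s k6 k246 11 (.s k3 k9 2 (.s k1 k2 0 (.d k169 k253 k252
  13 14))))))] (.c k244 (.l (.s k12 k8 1 (.s k84 k87 0 (.s k166 k247 12 (.s k89 k243 14 (.s k92 k83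
  2 (.d k252 k172 k168 11 13))))))) .n))

def s26_170_183 : T TT 256 :=
  (.q k4 [(.s k84 k87 0 (.s k244 k164 11 (.s k165 k7 12 (.s k245 k5 11 (.d k247 k246 k166 0 12))))),
  (.s k12 k8 1 (.s k84 k87 0 (.s k164 k244 11 (.s k88 k240 13 (.s k92 k80 1 (.d k252 k172 k168 11
  13)))))), (.s k12 k8 1 (.s k166 k247 12 (.s k6 k246 11 (.s k3 k9 2 (.s k1 k2 0 (.d k169 k253 k252
  13 14))))))] (.c k244 (.l (.s k12 k8 1 (.s k84 k87 0 (.s k166 k247 12 (.s k89 k243 14 (.s k92 k83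
  2 (.d k252 k172 k168 11 13))))))) .n))

def s26_170_184 : T TT 256 :=
  (.q k4 [(.s k84 k87 0 (.s k244 k164 11 (.s k165 k7 12 (.s k245 k5 11 (.d k247 k246 k166 0 12))))),
  (.s k12 k8 1 (.s k84 k87 0 (.s k164 k244 11 (.s k88 k240 13 (.s k92 k80 1 (.d k252 k172 k168 11
  13)))))), (.s k12 k8 1 (.s k166 k247 12 (.s k6 k246 11 (.s k3 k9 2 (.s k1 k2 0 (.d k169 k253 k252
  13 14))))))] (.c k244 (.l (.s k12 k8 1 (.s k84 k87 0 (.s k166 k247 12 (.s k89 k243 14 (.s k92 k83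
  2 (.d k252 k172 k168 11 13))))))) .n))

def s26_170_185 : T TT 256 :=
  (.q k4 [(.s k84 k87 0 (.s k244 k164 11 (.s k165 k7 12 (.s k245 k5 11 (.d k247 k246 k166 0 12))))),
  (.s k12 k8 1 (.s k84 k87 0 (.s k164 k244 11 (.s k88 k240 13 (.s k92 k80 1 (.d k252 k172 k168 11
  13)))))), (.s k12 k8 1 (.s k166 k247 12 (.s k6 k246 11 (.s k3 k9 2 (.s k1 k2 0 (.d k169 k253 k252
  13 14))))))] (.c k244 (.l (.s k12 k8 1 (.s k84 k87 0 (.s k166 k247 12 (.s k89 k243 14 (.s k92 k83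
  2 (.d k252 k172 k168 11 13))))))) .n))

def s26_170_186 : T TT 256 :=
  (.q k154 [(.s k16 k223 10 (.s k18 k222 9 (.s k19 k17 0 (.s k84 k87 0 (.d k220 k152 k153 9 10))))),
  (.s k84 k87 0 (.s k222 k18 9 (.s k252 k168 13 (.s k207 k237 4 (.s k69 k138 10 (.d k101 k117 k48 3
  14)))))), (.s k16 k223 10 (.s k48 k32 3 (.s k84 k87 0 (.s k101 k207 14 (.s k116 k71 4 (.d k252
  k184 k168 9 13)))))), (.s k16 k223 10 (.s k18 k222 9 (.s k48 k32 3 (.s k3 k33 4 (.s k1 k2 0 (.d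
  k169 k253 k252 13 14))))))] .n)

def s26_170_187 : T TT 256 :=
  (.q k153 [(.s k84 k87 0 (.s k220 k19 10 (.s k16 k152 9 (.s k221 k17 9 (.d k223 k222 k154 0
  10))))), (.s k17 k221 9 (.s k51 k34 4 (.s k84 k87 0 (.s k102 k204 14 (.s k118 k70 3 (.d k252 k185
  k168 10 13)))))), (.s k17 k221 9 (.s k19 k220 10 (.s k51 k34 4 (.s k3 k35 3 (.s k1 k2 0 (.d k169
  k253 k252 13 14)))))), (.s k84 k87 0 (.s k220 k19 10 (.s k252 k168 13 (.s k204 k236 3 (.s k68 k136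
  9 (.d k102 k119 k51 4 14))))))] .n)

def s26_170_188 : T TT 256 :=
  (.q k4 [(.s k84 k87 0 (.s k244 k164 11 (.s k165 k7 12 (.s k245 k5 11 (.d k247 k246 k166 0 12))))),
  (.s k12 k8 1 (.s k84 k87 0 (.s k164 k244 11 (.s k88 k240 13 (.s k92 k80 1 (.d k252 k172 k168 11
  13)))))), (.s k12 k8 1 (.s k166 k247 12 (.s k6 k246 11 (.s k3 k9 2 (.s k1 k2 0 (.d k169 k253 k252
  13 14))))))] (.c k244 (.l (.s k12 k8 1 (.s k84 k87 0 (.s k166 k247 12 (.s k89 k243 14 (.s k92 k83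
  2 (.d k252 k172 k168 11 13))))))) .n))

def s26_170_189 : T TT 256 :=
  (.q k4 [(.s k84 k87 0 (.s k244 k164 11 (.s k165 k7 12 (.s k245 k5 11 (.d k247 k246 k166 0 12))))),
  (.s k12 k8 1 (.s k84 k87 0 (.s k164 k244 11 (.s k88 k240 13 (.s k92 k80 1 (.d k252 k172 k168 11
  13)))))), (.s k12 k8 1 (.s k166 k247 12 (.s k6 k246 11 (.s k3 k9 2 (.s k1 k2 0 (.d k169 k253 k252
  13 14))))))] (.c k244 (.l (.s k12 k8 1 (.s k84 k87 0 (.s k166 k247 12 (.s k89 k243 14 (.s k92 k83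
  2 (.d k252 k172 k168 11 13))))))) .n))

def s26_170_190 : T TT 256 :=
  (.q k150 [(.s k20 k215 8 (.s k22 k214 7 (.s k84 k87 0 (.s k212 k148 7 (.d k23 k21 k149 0 8))))),
  (.s k84 k87 0 (.s k214 k22 7 (.s k252 k168 13 (.s k195 k233 6 (.s k65 k130 8 (.d k105 k125 k60 5
  14)))))), (.s k20 k215 8 (.s k60 k40 5 (.s k84 k87 0 (.s k105 k195 14 (.s k124 k67 6 (.d k252 k188
  k168 7 13)))))), (.s k20 k215 8 (.s k22 k214 7 (.s k60 k40 5 (.s k3 k41 6 (.s k1 k2 0 (.d k169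
  k253 k252 13 14))))))] .n)

def s26_170_191 : T TT 256 :=
  (.q k149 [(.s k21 k213 7 (.s k23 k212 8 (.s k20 k22 0 (.s k87 k84 0 (.d k215 k151 k150 7 8))))),
  (.s k21 k213 7 (.s k63 k42 6 (.s k84 k87 0 (.s k106 k192 14 (.s k126 k66 5 (.d k252 k189 k168 8
  13)))))), (.s k21 k213 7 (.s k23 k212 8 (.s k63 k42 6 (.s k3 k43 5 (.s k1 k2 0 (.d k169 k253 k252
  13 14)))))), (.s k84 k87 0 (.s k212 k23 8 (.s k252 k168 13 (.s k192 k232 5 (.s k64 k128 7 (.d k106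
  k127 k63 6 14))))))] .n)

def s26_170_192 : T TT 256 :=
  (.q k4 [(.s k84 k87 0 (.s k244 k164 11 (.s k165 k7 12 (.s k245 k5 11 (.d k247 k246 k166 0 12))))),
  (.s k12 k8 1 (.s k84 k87 0 (.s k164 k244 11 (.s k88 k240 13 (.s k92 k80 1 (.d k252 k172 k168 11
  13)))))), (.s k12 k8 1 (.s k166 k247 12 (.s k6 k246 11 (.s k3 k9 2 (.s k1 k2 0 (.d k169 k253 k252
  13 14))))))] (.c k244 (.l (.s k12 k8 1 (.s k84 k87 0 (.s k166 k247 12 (.s k89 k243 14 (.s k92 k83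
  2 (.d k252 k172 k168 11 13))))))) .n))

def s26_170_193 : T TT 256 :=
  (.q k4 [(.s k84 k87 0 (.s k244 k164 11 (.s k165 k7 12 (.s k245 k5 11 (.d k247 k246 k166 0 12))))),
  (.s k12 k8 1 (.s k84 k87 0 (.s k164 k244 11 (.s k88 k240 13 (.s k92 k80 1 (.d k252 k172 k168 11
  13)))))), (.s k12 k8 1 (.s k166 k247 12 (.s k6 k246 11 (.s k3 k9 2 (.s k1 k2 0 (.d k169 k253 k252
  13 14))))))] (.c k244 (.l (.s k12 k8 1 (.s k84 k87 0 (.s k166 k247 12 (.s k89 k243 14 (.s k92 k83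
  2 (.d k252 k172 k168 11 13))))))) .n))

def s26_170_194 : T TT 256 :=
  (.q k4 [(.s k84 k87 0 (.s k244 k164 11 (.s k165 k7 12 (.s k245 k5 11 (.d k247 k246 k166 0 12))))),
  (.s k12 k8 1 (.s k84 k87 0 (.s k164 k244 11 (.s k88 k240 13 (.s k92 k80 1 (.d k252 k172 k168 11
  13)))))), (.s k12 k8 1 (.s k166 k247 12 (.s k6 k246 11 (.s k3 k9 2 (.s k1 k2 0 (.d k169 k253 k252
  13 14))))))] (.c k244 (.l (.s k12 k8 1 (.s k84 k87 0 (.s k166 k247 12 (.s k89 k243 14 (.s k92 k83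
  2 (.d k252 k172 k168 11 13))))))) .n))

def s26_170_195 : T TT 256 :=
  (.q k4 [(.s k84 k87 0 (.s k244 k164 11 (.s k165 k7 12 (.s k245 k5 11 (.d k247 k246 k166 0 12))))),
  (.s k12 k8 1 (.s k84 k87 0 (.s k164 k244 11 (.s k88 k240 13 (.s k92 k80 1 (.d k252 k172 k168 11
  13)))))), (.s k12 k8 1 (.s k166 k247 12 (.s k6 k246 11 (.s k3 k9 2 (.s k1 k2 0 (.d k169 k253 k252
  13 14))))))] (.c k244 (.l (.s k12 k8 1 (.s k84 k87 0 (.s k166 k247 12 (.s k89 k243 14 (.s k92 k83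
  2 (.d k252 k172 k168 11 13))))))) .n))

def s26_170_196 : T TT 256 :=
  (.q k4 [(.s k84 k87 0 (.s k244 k164 11 (.s k165 k7 12 (.s k245 k5 11 (.d k247 k246 k166 0 12))))),
  (.s k12 k8 1 (.s k84 k87 0 (.s k164 k244 11 (.s k88 k240 13 (.s k92 k80 1 (.d k252 k172 k168 11
  13)))))), (.s k12 k8 1 (.s k166 k247 12 (.s k6 k246 11 (.s k3 k9 2 (.s k1 k2 0 (.d k169 k253 k252
  13 14))))))] (.c k244 (.l (.s k12 k8 1 (.s k84 k87 0 (.s k166 k247 12 (.s k89 k243 14 (.s k92 k83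
  2 (.d k252 k172 k168 11 13))))))) .n))

def s26_170_197 : T TT 256 :=
  (.q k4 [(.s k84 k87 0 (.s k166 k247 12 (.s k6 k246 11 (.s k244 k164 11 (.d k7 k5 k165 0 12))))),
  (.s k12 k8 1 (.s k84 k87 0 (.s k164 k244 11 (.s k88 k240 13 (.s k92 k80 1 (.d k252 k172 k168 11
  13)))))), (.s k12 k8 1 (.s k166 k247 12 (.s k6 k246 11 (.s k3 k9 2 (.s k1 k2 0 (.d k169 k253 k252
  13 14))))))] (.c k244 (.l (.s k12 k8 1 (.s k84 k87 0 (.s k166 k247 12 (.s k89 k243 14 (.s k92 k83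
  2 (.d k252 k172 k168 11 13))))))) .n))

def s26_170_198 : T TT 256 :=
  (.q k4 [(.s k84 k87 0 (.s k244 k164 11 (.s k165 k7 12 (.s k245 k5 11 (.d k247 k246 k166 0 12))))),
  (.s k12 k8 1 (.s k84 k87 0 (.s k164 k244 11 (.s k88 k240 13 (.s k92 k80 1 (.d k252 k172 k168 11
  13)))))), (.s k12 k8 1 (.s k166 k247 12 (.s k6 k246 11 (.s k3 k9 2 (.s k1 k2 0 (.d k169 k253 k252
  13 14))))))] (.c k244 (.l (.s k12 k8 1 (.s k84 k87 0 (.s k166 k247 12 (.s k89 k243 14 (.s k92 k83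
  2 (.d k252 k172 k168 11 13))))))) .n))

def s26_170_199 : T TT 256 :=
  (.q k4 [(.s k84 k87 0 (.s k244 k164 11 (.s k165 k7 12 (.s k245 k5 11 (.d k247 k246 k166 0 12))))),
  (.s k12 k8 1 (.s k84 k87 0 (.s k164 k244 11 (.s k88 k240 13 (.s k92 k80 1 (.d k252 k172 k168 11
  13)))))), (.s k12 k8 1 (.s k166 k247 12 (.s k6 k246 11 (.s k3 k9 2 (.s k1 k2 0 (.d k169 k253 k252
  13 14))))))] (.c k244 (.l (.s k12 k8 1 (.s k84 k87 0 (.s k166 k247 12 (.s k89 k243 14 (.s k92 k83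
  2 (.d k252 k172 k168 11 13))))))) .n))

def s26_170_200 : T TT 256 :=
  (.q k4 [(.s k84 k87 0 (.s k244 k164 11 (.s k165 k7 12 (.s k245 k5 11 (.d k247 k246 k166 0 12))))),
  (.s k12 k8 1 (.s k84 k87 0 (.s k164 k244 11 (.s k88 k240 13 (.s k92 k80 1 (.d k252 k172 k168 11
  13)))))), (.s k12 k8 1 (.s k166 k247 12 (.s k6 k246 11 (.s k3 k9 2 (.s k1 k2 0 (.d k169 k253 k252
  13 14))))))] (.c k244 (.l (.s k12 k8 1 (.s k84 k87 0 (.s k166 k247 12 (.s k89 k243 14 (.s k92 k83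
  2 (.d k252 k172 k168 11 13))))))) .n))

def s26_170_201 : T TT 256 :=
  (.q k4 [(.s k84 k87 0 (.s k244 k164 11 (.s k165 k7 12 (.s k245 k5 11 (.d k247 k246 k166 0 12))))),
  (.s k12 k8 1 (.s k84 k87 0 (.s k164 k244 11 (.s k88 k240 13 (.s k92 k80 1 (.d k252 k172 k168 11
  13)))))), (.s k12 k8 1 (.s k166 k247 12 (.s k6 k246 11 (.s k3 k9 2 (.s k1 k2 0 (.d k169 k253 k252
  13 14))))))] (.c k244 (.l (.s k12 k8 1 (.s k84 k87 0 (.s k166 k247 12 (.s k89 k243 14 (.s k92 k83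
  2 (.d k252 k172 k168 11 13))))))) .n))

def s26_170_202 : T TT 256 :=
  (.q k4 [(.s k84 k87 0 (.s k244 k164 11 (.s k165 k7 12 (.s k245 k5 11 (.d k247 k246 k166 0 12))))),
  (.s k12 k8 1 (.s k84 k87 0 (.s k164 k244 11 (.s k88 k240 13 (.s k92 k80 1 (.d k252 k172 k168 11
  13)))))), (.s k12 k8 1 (.s k166 k247 12 (.s k6 k246 11 (.s k3 k9 2 (.s k1 k2 0 (.d k169 k253 k252
  13 14))))))] (.c k244 (.l (.s k12 k8 1 (.s k84 k87 0 (.s k166 k247 12 (.s k89 k243 14 (.s k92 k83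
  2 (.d k252 k172 k168 11 13))))))) .n))

def s26_170_203 : T TT 256 :=
  (.q k4 [(.s k84 k87 0 (.s k244 k164 11 (.s k165 k7 12 (.s k245 k5 11 (.d k247 k246 k166 0 12))))),
  (.s k12 k8 1 (.s k84 k87 0 (.s k164 k244 11 (.s k88 k240 13 (.s k92 k80 1 (.d k252 k172 k168 11
  13)))))), (.s k12 k8 1 (.s k166 k247 12 (.s k6 k246 11 (.s k3 k9 2 (.s k1 k2 0 (.d k169 k253 k252
  13 14))))))] (.c k244 (.l (.s k12 k8 1 (.s k84 k87 0 (.s k166 k247 12 (.s k89 k243 14 (.s k92 k83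
  2 (.d k252 k172 k168 11 13))))))) .n))

def s26_170_204 : T TT 256 :=
  (.q k4 [(.s k84 k87 0 (.s k244 k164 11 (.s k165 k7 12 (.s k245 k5 11 (.d k247 k246 k166 0 12))))),
  (.s k12 k8 1 (.s k84 k87 0 (.s k164 k244 11 (.s k88 k240 13 (.s k92 k80 1 (.d k252 k172 k168 11
  13)))))), (.s k12 k8 1 (.s k166 k247 12 (.s k6 k246 11 (.s k3 k9 2 (.s k1 k2 0 (.d k169 k253 k252
  13 14))))))] (.c k244 (.l (.s k12 k8 1 (.s k84 k87 0 (.s k166 k247 12 (.s k89 k243 14 (.s k92 k83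
  2 (.d k252 k172 k168 11 13))))))) .n))

def s26_170_205 : T TT 256 :=
  (.q k4 [(.s k84 k87 0 (.s k244 k164 11 (.s k165 k7 12 (.s k245 k5 11 (.d k247 k246 k166 0 12))))),
  (.s k12 k8 1 (.s k84 k87 0 (.s k164 k244 11 (.s k88 k240 13 (.s k92 k80 1 (.d k252 k172 k168 11
  13)))))), (.s k12 k8 1 (.s k166 k247 12 (.s k6 k246 11 (.s k3 k9 2 (.s k1 k2 0 (.d k169 k253 k252
  13 14))))))] (.c k244 (.l (.s k12 k8 1 (.s k84 k87 0 (.s k166 k247 12 (.s k89 k243 14 (.s k92 k83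
  2 (.d k252 k172 k168 11 13))))))) .n))

def s26_170_206 : T TT 256 :=
  (.q k4 [(.s k84 k87 0 (.s k244 k164 11 (.s k165 k7 12 (.s k245 k5 11 (.d k247 k246 k166 0 12))))),
  (.s k12 k8 1 (.s k84 k87 0 (.s k164 k244 11 (.s k88 k240 13 (.s k92 k80 1 (.d k252 k172 k168 11
  13)))))), (.s k12 k8 1 (.s k166 k247 12 (.s k6 k246 11 (.s k3 k9 2 (.s k1 k2 0 (.d k169 k253 k252
  13 14))))))] (.c k244 (.l (.s k12 k8 1 (.s k84 k87 0 (.s k166 k247 12 (.s k89 k243 14 (.s k92 k83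
  2 (.d k252 k172 k168 11 13))))))) .n))

def s26_170_207 : T TT 256 :=
  (.q k4 [(.s k84 k87 0 (.s k244 k164 11 (.s k165 k7 12 (.s k245 k5 11 (.d k247 k246 k166 0 12))))),
  (.s k12 k8 1 (.s k84 k87 0 (.s k164 k244 11 (.s k88 k240 13 (.s k92 k80 1 (.d k252 k172 k168 11
  13)))))), (.s k12 k8 1 (.s k166 k247 12 (.s k6 k246 11 (.s k3 k9 2 (.s k1 k2 0 (.d k169 k253 k252
  13 14))))))] (.c k244 (.l (.s k12 k8 1 (.s k84 k87 0 (.s k166 k247 12 (.s k89 k243 14 (.s k92 k83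
  2 (.d k252 k172 k168 11 13))))))) .n))

def s26_170_208 : T TT 256 :=
  (.q k4 [(.s k84 k87 0 (.s k244 k164 11 (.s k165 k7 12 (.s k245 k5 11 (.d k247 k246 k166 0 12))))),
  (.s k12 k8 1 (.s k84 k87 0 (.s k164 k244 11 (.s k88 k240 13 (.s k92 k80 1 (.d k252 k172 k168 11
  13)))))), (.s k12 k8 1 (.s k166 k247 12 (.s k6 k246 11 (.s k3 k9 2 (.s k1 k2 0 (.d k169 k253 k252
  13 14))))))] (.c k244 (.l (.s k12 k8 1 (.s k84 k87 0 (.s k166 k247 12 (.s k89 k243 14 (.s k92 k83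
  2 (.d k252 k172 k168 11 13))))))) .n))

def s26_170_209 : T TT 256 :=
  (.q k4 [(.s k84 k87 0 (.s k244 k164 11 (.s k165 k7 12 (.s k245 k5 11 (.d k247 k246 k166 0 12))))),
  (.s k12 k8 1 (.s k84 k87 0 (.s k164 k244 11 (.s k88 k240 13 (.s k92 k80 1 (.d k252 k172 k168 11
  13)))))), (.s k12 k8 1 (.s k166 k247 12 (.s k6 k246 11 (.s k3 k9 2 (.s k1 k2 0 (.d k169 k253 k252
  13 14))))))] (.c k244 (.l (.s k12 k8 1 (.s k84 k87 0 (.s k166 k247 12 (.s k89 k243 14 (.s k92 k83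
  2 (.d k252 k172 k168 11 13))))))) .n))

def s26_170_210 : T TT 256 :=
  (.q k4 [(.s k84 k87 0 (.s k244 k164 11 (.s k165 k7 12 (.s k245 k5 11 (.d k247 k246 k166 0 12))))),
  (.s k12 k8 1 (.s k84 k87 0 (.s k164 k244 11 (.s k88 k240 13 (.s k92 k80 1 (.d k252 k172 k168 11
  13)))))), (.s k12 k8 1 (.s k166 k247 12 (.s k6 k246 11 (.s k3 k9 2 (.s k1 k2 0 (.d k169 k253 k252
  13 14))))))] (.c k244 (.l (.s k12 k8 1 (.s k84 k87 0 (.s k166 k247 12 (.s k89 k243 14 (.s k92 k83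
  2 (.d k252 k172 k168 11 13))))))) .n))

def s26_170_211 : T TT 256 :=
  (.q k4 [(.s k84 k87 0 (.s k244 k164 11 (.s k165 k7 12 (.s k245 k5 11 (.d k247 k246 k166 0 12))))),
  (.s k12 k8 1 (.s k84 k87 0 (.s k164 k244 11 (.s k88 k240 13 (.s k92 k80 1 (.d k252 k172 k168 11
  13)))))), (.s k12 k8 1 (.s k166 k247 12 (.s k6 k246 11 (.s k3 k9 2 (.s k1 k2 0 (.d k169 k253 k252
  13 14))))))] (.c k244 (.l (.s k12 k8 1 (.s k84 k87 0 (.s k166 k247 12 (.s k89 k243 14 (.s k92 k83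
  2 (.d k252 k172 k168 11 13))))))) .n))

def s26_170_212 : T TT 256 :=
  (.q k4 [(.s k84 k87 0 (.s k244 k164 11 (.s k165 k7 12 (.s k245 k5 11 (.d k247 k246 k166 0 12))))),
  (.s k12 k8 1 (.s k84 k87 0 (.s k164 k244 11 (.s k88 k240 13 (.s k92 k80 1 (.d k252 k172 k168 11
  13)))))), (.s k12 k8 1 (.s k166 k247 12 (.s k6 k246 11 (.s k3 k9 2 (.s k1 k2 0 (.d k169 k253 k252
  13 14))))))] (.c k244 (.l (.s k12 k8 1 (.s k84 k87 0 (.s k166 k247 12 (.s k89 k243 14 (.s k92 k83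
  2 (.d k252 k172 k168 11 13))))))) .n))

def s26_170_213 : T TT 256 :=
  (.q k4 [(.s k84 k87 0 (.s k244 k164 11 (.s k165 k7 12 (.s k245 k5 11 (.d k247 k246 k166 0 12))))),
  (.s k12 k8 1 (.s k84 k87 0 (.s k164 k244 11 (.s k88 k240 13 (.s k92 k80 1 (.d k252 k172 k168 11
  13)))))), (.s k12 k8 1 (.s k166 k247 12 (.s k6 k246 11 (.s k3 k9 2 (.s k1 k2 0 (.d k169 k253 k252
  13 14))))))] (.c k244 (.l (.s k12 k8 1 (.s k84 k87 0 (.s k166 k247 12 (.s k89 k243 14 (.s k92 k83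
  2 (.d k252 k172 k168 11 13))))))) .n))

def s26_170_214 : T TT 256 :=
  (.q k4 [(.s k84 k87 0 (.s k244 k164 11 (.s k165 k7 12 (.s k245 k5 11 (.d k247 k246 k166 0 12))))),
  (.s k12 k8 1 (.s k84 k87 0 (.s k164 k244 11 (.s k88 k240 13 (.s k92 k80 1 (.d k252 k172 k168 11
  13)))))), (.s k12 k8 1 (.s k166 k247 12 (.s k6 k246 11 (.s k3 k9 2 (.s k1 k2 0 (.d k169 k253 k252
  13 14))))))] (.c k244 (.l (.s k12 k8 1 (.s k84 k87 0 (.s k166 k247 12 (.s k89 k243 14 (.s k92 k83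
  2 (.d k252 k172 k168 11 13))))))) .n))

def s26_170_215 : T TT 256 :=
  (.q k4 [(.s k84 k87 0 (.s k244 k164 11 (.s k165 k7 12 (.s k245 k5 11 (.d k247 k246 k166 0 12))))),
  (.s k12 k8 1 (.s k166 k247 12 (.s k6 k246 11 (.s k3 k9 2 (.s k1 k2 0 (.d k169 k253 k252 13
  14)))))), (.s k12 k8 1 (.s k84 k87 0 (.s k164 k244 11 (.s k88 k240 13 (.s k92 k80 1 (.d k252 k172
  k168 11 13))))))] (.c k244 (.l (.s k12 k8 1 (.s k84 k87 0 (.s k166 k247 12 (.s k89 k243 14 (.s k92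
  k83 2 (.d k252 k172 k168 11 13))))))) .n))

def s26_170_216 : T TT 256 :=
  (.q k4 [(.s k84 k87 0 (.s k244 k164 11 (.s k165 k7 12 (.s k245 k5 11 (.d k247 k246 k166 0 12))))),
  (.s k12 k8 1 (.s k84 k87 0 (.s k164 k244 11 (.s k88 k240 13 (.s k92 k80 1 (.d k252 k172 k168 11
  13)))))), (.s k12 k8 1 (.s k166 k247 12 (.s k6 k246 11 (.s k3 k9 2 (.s k1 k2 0 (.d k169 k253 k252
  13 14))))))] (.c k244 (.l (.s k12 k8 1 (.s k84 k87 0 (.s k166 k247 12 (.s k89 k243 14 (.s k92 k83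
  2 (.d k252 k172 k168 11 13))))))) .n))

def s26_170_217 : T TT 256 :=
  (.q k4 [(.s k84 k87 0 (.s k244 k164 11 (.s k165 k7 12 (.s k245 k5 11 (.d k247 k246 k166 0 12))))),
  (.s k12 k8 1 (.s k84 k87 0 (.s k164 k244 11 (.s k88 k240 13 (.s k92 k80 1 (.d k252 k172 k168 11
  13)))))), (.s k12 k8 1 (.s k166 k247 12 (.s k6 k246 11 (.s k3 k9 2 (.s k1 k2 0 (.d k169 k253 k252
  13 14))))))] (.c k244 (.l (.s k12 k8 1 (.s k84 k87 0 (.s k166 k247 12 (.s k89 k243 14 (.s k92 k83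
  2 (.d k252 k172 k168 11 13))))))) .n))

def s26_170_218 : T TT 256 :=
  (.q k90 [(.s k80 k95 2 (.s k82 k94 1 (.s k83 k81 0 (.s k84 k87 0 (.d k92 k88 k89 1 2))))), (.s k84
  k87 0 (.s k94 k82 1 (.s k252 k168 13 (.s k15 k173 12 (.s k5 k10 2 (.d k165 k245 k240 11 14)))))),
  (.s k80 k95 2 (.s k84 k87 0 (.s k240 k160 11 (.s k165 k15 14 (.s k244 k7 12 (.d k252 k248 k168 1
  13)))))), (.s k80 k95 2 (.s k82 k94 1 (.s k240 k160 11 (.s k3 k161 12 (.s k1 k2 0 (.d k169 k253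
  k252 13 14))))))] .n)

def s26_170_219 : T TT 256 :=
  (.q k4 [(.s k84 k87 0 (.s k244 k164 11 (.s k165 k7 12 (.s k245 k5 11 (.d k247 k246 k166 0 12))))),
  (.s k12 k8 1 (.s k84 k87 0 (.s k164 k244 11 (.s k88 k240 13 (.s k92 k80 1 (.d k252 k172 k168 11
  13)))))), (.s k12 k8 1 (.s k166 k247 12 (.s k6 k246 11 (.s k3 k9 2 (.s k1 k2 0 (.d k169 k253 k252
  13 14))))))] (.c k244 (.l (.s k12 k8 1 (.s k84 k87 0 (.s k166 k247 12 (.s k89 k243 14 (.s k92 k83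
  2 (.d k252 k172 k168 11 13))))))) .n))

def s26_170_220 : T TT 256 :=
  (.q k4 [(.s k84 k87 0 (.s k244 k164 11 (.s k165 k7 12 (.s k245 k5 11 (.d k247 k246 k166 0 12))))),
  (.s k12 k8 1 (.s k84 k87 0 (.s k164 k244 11 (.s k88 k240 13 (.s k92 k80 1 (.d k252 k172 k168 11
  13)))))), (.s k12 k8 1 (.s k166 k247 12 (.s k6 k246 11 (.s k3 k9 2 (.s k1 k2 0 (.d k169 k253 k252
  13 14))))))] (.c k244 (.l (.s k12 k8 1 (.s k84 k87 0 (.s k166 k247 12 (.s k89 k243 14 (.s k92 k83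
  2 (.d k252 k172 k168 11 13))))))) .n))

def s26_170_221 : T TT 256 :=
  (.q k4 [(.s k84 k87 0 (.s k244 k164 11 (.s k165 k7 12 (.s k245 k5 11 (.d k247 k246 k166 0 12))))),
  (.s k12 k8 1 (.s k84 k87 0 (.s k164 k244 11 (.s k88 k240 13 (.s k92 k80 1 (.d k252 k172 k168 11
  13)))))), (.s k12 k8 1 (.s k166 k247 12 (.s k6 k246 11 (.s k3 k9 2 (.s k1 k2 0 (.d k169 k253 k252
  13 14))))))] (.c k244 (.l (.s k12 k8 1 (.s k84 k87 0 (.s k166 k247 12 (.s k89 k243 14 (.s k92 k83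
  2 (.d k252 k172 k168 11 13))))))) .n))

def s26_170_222 : T TT 256 :=
  (.q k4 [(.s k84 k87 0 (.s k244 k164 11 (.s k165 k7 12 (.s k245 k5 11 (.d k247 k246 k166 0 12))))),
  (.s k12 k8 1 (.s k84 k87 0 (.s k164 k244 11 (.s k88 k240 13 (.s k92 k80 1 (.d k252 k172 k168 11
  13)))))), (.s k12 k8 1 (.s k166 k247 12 (.s k6 k246 11 (.s k3 k9 2 (.s k1 k2 0 (.d k169 k253 k252
  13 14))))))] (.c k244 (.l (.s k12 k8 1 (.s k84 k87 0 (.s k166 k247 12 (.s k89 k243 14 (.s k92 k83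
  2 (.d k252 k172 k168 11 13))))))) .n))

def s26_170_223 : T TT 256 :=
  (.q k4 [(.s k84 k87 0 (.s k244 k164 11 (.s k165 k7 12 (.s k245 k5 11 (.d k247 k246 k166 0 12))))),
  (.s k12 k8 1 (.s k166 k247 12 (.s k6 k246 11 (.s k3 k9 2 (.s k1 k2 0 (.d k169 k253 k252 13
  14)))))), (.s k12 k8 1 (.s k84 k87 0 (.s k164 k244 11 (.s k88 k240 13 (.s k92 k80 1 (.d k252 k172
  k168 11 13))))))] (.c k244 (.l (.s k12 k8 1 (.s k84 k87 0 (.s k166 k247 12 (.s k89 k243 14 (.s k92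
  k83 2 (.d k252 k172 k168 11 13))))))) .n))

def s26_170_224 : T TT 256 :=
  (.q k4 [(.s k84 k87 0 (.s k166 k247 12 (.s k6 k246 11 (.s k7 k5 0 (.d k244 k164 k165 11 12))))),
  (.s k12 k8 1 (.s k84 k87 0 (.s k164 k244 11 (.s k88 k240 13 (.s k92 k80 1 (.d k252 k172 k168 11
  13)))))), (.s k12 k8 1 (.s k166 k247 12 (.s k6 k246 11 (.s k3 k9 2 (.s k1 k2 0 (.d k169 k253 k252
  13 14))))))] (.c k244 (.l (.s k12 k8 1 (.s k84 k87 0 (.s k166 k247 12 (.s k89 k243 14 (.s k92 k83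
  2 (.d k252 k172 k168 11 13))))))) .n))

def s26_170_225 : T TT 256 :=
  (.q k4 [(.s k84 k87 0 (.s k244 k164 11 (.s k165 k7 12 (.s k245 k5 11 (.d k247 k246 k166 0 12))))),
  (.s k12 k8 1 (.s k84 k87 0 (.s k164 k244 11 (.s k88 k240 13 (.s k92 k80 1 (.d k252 k172 k168 11
  13)))))), (.s k12 k8 1 (.s k166 k247 12 (.s k6 k246 11 (.s k3 k9 2 (.s k1 k2 0 (.d k169 k253 k252
  13 14))))))] (.c k244 (.l (.s k12 k8 1 (.s k84 k87 0 (.s k166 k247 12 (.s k89 k243 14 (.s k92 k83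
  2 (.d k252 k172 k168 11 13))))))) .n))

def s26_170_226 : T TT 256 :=
  (.q k4 [(.s k84 k87 0 (.s k244 k164 11 (.s k165 k7 12 (.s k245 k5 11 (.d k247 k246 k166 0 12))))),
  (.s k12 k8 1 (.s k84 k87 0 (.s k164 k244 11 (.s k88 k240 13 (.s k92 k80 1 (.d k252 k172 k168 11
  13)))))), (.s k12 k8 1 (.s k166 k247 12 (.s k6 k246 11 (.s k3 k9 2 (.s k1 k2 0 (.d k169 k253 k252
  13 14))))))] (.c k244 (.l (.s k12 k8 1 (.s k84 k87 0 (.s k166 k247 12 (.s k89 k243 14 (.s k92 k83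
  2 (.d k252 k172 k168 11 13))))))) .n))

def s26_170_227 : T TT 256 :=
  (.q k4 [(.s k84 k87 0 (.s k244 k164 11 (.s k165 k7 12 (.s k245 k5 11 (.d k247 k246 k166 0 12))))),
  (.s k12 k8 1 (.s k84 k87 0 (.s k164 k244 11 (.s k88 k240 13 (.s k92 k80 1 (.d k252 k172 k168 11
  13)))))), (.s k12 k8 1 (.s k166 k247 12 (.s k6 k246 11 (.s k3 k9 2 (.s k1 k2 0 (.d k169 k253 k252
  13 14))))))] (.c k244 (.l (.s k12 k8 1 (.s k84 k87 0 (.s k166 k247 12 (.s k89 k243 14 (.s k92 k83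
  2 (.d k252 k172 k168 11 13))))))) .n))

def s26_170_228 : T TT 256 :=
  (.q k4 [(.s k84 k87 0 (.s k166 k247 12 (.s k6 k246 11 (.s k7 k5 0 (.d k244 k164 k165 11 12))))),
  (.s k12 k8 1 (.s k84 k87 0 (.s k164 k244 11 (.s k88 k240 13 (.s k92 k80 1 (.d k252 k172 k168 11
  13)))))), (.s k12 k8 1 (.s k166 k247 12 (.s k6 k246 11 (.s k3 k9 2 (.s k1 k2 0 (.d k169 k253 k252
  13 14))))))] (.c k244 (.l (.s k12 k8 1 (.s k84 k87 0 (.s k166 k247 12 (.s k89 k243 14 (.s k92 k83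
  2 (.d k252 k172 k168 11 13))))))) .n))

def s26_170_229 : T TT 256 :=
  (.q k4 [(.s k84 k87 0 (.s k244 k164 11 (.s k165 k7 12 (.s k245 k5 11 (.d k247 k246 k166 0 12))))),
  (.s k12 k8 1 (.s k84 k87 0 (.s k164 k244 11 (.s k88 k240 13 (.s k92 k80 1 (.d k252 k172 k168 11
  13)))))), (.s k12 k8 1 (.s k166 k247 12 (.s k6 k246 11 (.s k3 k9 2 (.s k1 k2 0 (.d k169 k253 k252
  13 14))))))] (.c k244 (.l (.s k12 k8 1 (.s k84 k87 0 (.s k166 k247 12 (.s k89 k243 14 (.s k92 k83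
  2 (.d k252 k172 k168 11 13))))))) .n))

def s26_170_230 : T TT 256 :=
  (.q k4 [(.s k84 k87 0 (.s k244 k164 11 (.s k165 k7 12 (.s k245 k5 11 (.d k247 k246 k166 0 12))))),
  (.s k12 k8 1 (.s k84 k87 0 (.s k164 k244 11 (.s k88 k240 13 (.s k92 k80 1 (.d k252 k172 k168 11
  13)))))), (.s k12 k8 1 (.s k166 k247 12 (.s k6 k246 11 (.s k3 k9 2 (.s k1 k2 0 (.d k169 k253 k252
  13 14))))))] (.c k244 (.l (.s k12 k8 1 (.s k84 k87 0 (.s k166 k247 12 (.s k89 k243 14 (.s k92 k83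
  2 (.d k252 k172 k168 11 13))))))) .n))

def s26_170_231 : T TT 256 :=
  (.q k4 [(.s k84 k87 0 (.s k244 k164 11 (.s k165 k7 12 (.s k245 k5 11 (.d k247 k246 k166 0 12))))),
  (.s k12 k8 1 (.s k84 k87 0 (.s k164 k244 11 (.s k88 k240 13 (.s k92 k80 1 (.d k252 k172 k168 11
  13)))))), (.s k12 k8 1 (.s k166 k247 12 (.s k6 k246 11 (.s k3 k9 2 (.s k1 k2 0 (.d k169 k253 k252
  13 14))))))] (.c k244 (.l (.s k12 k8 1 (.s k84 k87 0 (.s k166 k247 12 (.s k89 k243 14 (.s k92 k83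
  2 (.d k252 k172 k168 11 13))))))) .n))

def s26_170_232 : T TT 256 :=
  (.q k4 [(.s k84 k87 0 (.s k244 k164 11 (.s k165 k7 12 (.s k245 k5 11 (.d k247 k246 k166 0 12))))),
  (.s k12 k8 1 (.s k84 k87 0 (.s k164 k244 11 (.s k88 k240 13 (.s k92 k80 1 (.d k252 k172 k168 11
  13)))))), (.s k12 k8 1 (.s k166 k247 12 (.s k6 k246 11 (.s k3 k9 2 (.s k1 k2 0 (.d k169 k253 k252
  13 14))))))] (.c k244 (.l (.s k12 k8 1 (.s k84 k87 0 (.s k166 k247 12 (.s k89 k243 14 (.s k92 k83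
  2 (.d k252 k172 k168 11 13))))))) .n))

def s26_170_233 : T TT 256 :=
  (.q k4 [(.s k84 k87 0 (.s k244 k164 11 (.s k165 k7 12 (.s k245 k5 11 (.d k247 k246 k166 0 12))))),
  (.s k12 k8 1 (.s k84 k87 0 (.s k164 k244 11 (.s k88 k240 13 (.s k92 k80 1 (.d k252 k172 k168 11
  13)))))), (.s k12 k8 1 (.s k166 k247 12 (.s k6 k246 11 (.s k3 k9 2 (.s k1 k2 0 (.d k169 k253 k252
  13 14))))))] (.c k244 (.l (.s k12 k8 1 (.s k84 k87 0 (.s k166 k247 12 (.s k89 k243 14 (.s k92 k83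
  2 (.d k252 k172 k168 11 13))))))) .n))

def s26_170_234 : T TT 256 :=
  (.q k106 [(.s k64 k127 6 (.s k66 k126 5 (.s k67 k65 0 (.s k84 k87 0 (.d k124 k104 k105 5 6))))),
  (.s k84 k87 0 (.s k126 k66 5 (.s k252 k168 13 (.s k63 k189 8 (.s k21 k42 6 (.d k149 k213 k192 7
  14)))))), (.s k64 k127 6 (.s k84 k87 0 (.s k192 k128 7 (.s k149 k63 14 (.s k212 k23 8 (.d k252
  k232 k168 5 13)))))), (.s k64 k127 6 (.s k66 k126 5 (.s k192 k128 7 (.s k3 k129 8 (.s k1 k2 0 (.d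
  k169 k253 k252 13 14))))))] .n)

def s26_170_235 : T TT 256 :=
  (.q k105 [(.s k65 k125 5 (.s k67 k124 6 (.s k64 k66 0 (.s k87 k84 0 (.d k127 k107 k106 5 6))))),
  (.s k65 k125 5 (.s k84 k87 0 (.s k195 k130 8 (.s k150 k60 14 (.s k214 k22 7 (.d k252 k233 k168 6
  13)))))), (.s k84 k87 0 (.s k124 k67 6 (.s k252 k168 13 (.s k60 k188 7 (.s k20 k40 5 (.d k150 k215
  k195 8 14)))))), (.s k65 k125 5 (.s k67 k124 6 (.s k195 k130 8 (.s k3 k131 7 (.s k1 k2 0 (.d k169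
  k253 k252 13 14))))))] .n)

def s26_170_236 : T TT 256 :=
  (.q k4 [(.s k84 k87 0 (.s k244 k164 11 (.s k165 k7 12 (.s k245 k5 11 (.d k247 k246 k166 0 12))))),
  (.s k12 k8 1 (.s k84 k87 0 (.s k164 k244 11 (.s k88 k240 13 (.s k92 k80 1 (.d k252 k172 k168 11
  13)))))), (.s k12 k8 1 (.s k166 k247 12 (.s k6 k246 11 (.s k3 k9 2 (.s k1 k2 0 (.d k169 k253 k252
  13 14))))))] (.c k244 (.l (.s k12 k8 1 (.s k84 k87 0 (.s k166 k247 12 (.s k89 k243 14 (.s k92 k83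
  2 (.d k252 k172 k168 11 13))))))) .n))

def s26_170_237 : T TT 256 :=
  (.q k4 [(.s k84 k87 0 (.s k244 k164 11 (.s k165 k7 12 (.s k245 k5 11 (.d k247 k246 k166 0 12))))),
  (.s k12 k8 1 (.s k84 k87 0 (.s k164 k244 11 (.s k88 k240 13 (.s k92 k80 1 (.d k252 k172 k168 11
  13)))))), (.s k12 k8 1 (.s k166 k247 12 (.s k6 k246 11 (.s k3 k9 2 (.s k1 k2 0 (.d k169 k253 k252
  13 14))))))] (.c k244 (.l (.s k12 k8 1 (.s k84 k87 0 (.s k166 k247 12 (.s k89 k243 14 (.s k92 k83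
  2 (.d k252 k172 k168 11 13))))))) .n))

def s26_170_238 : T TT 256 :=
  (.q k102 [(.s k68 k119 4 (.s k70 k118 3 (.s k71 k69 0 (.s k84 k87 0 (.d k116 k100 k101 3 4))))),
  (.s k84 k87 0 (.s k118 k70 3 (.s k252 k168 13 (.s k51 k185 10 (.s k17 k34 4 (.d k153 k221 k204 9
  14)))))), (.s k68 k119 4 (.s k84 k87 0 (.s k204 k136 9 (.s k153 k51 14 (.s k220 k19 10 (.d k252
  k236 k168 3 13)))))), (.s k68 k119 4 (.s k70 k118 3 (.s k204 k136 9 (.s k3 k137 10 (.s k1 k2 0 (.d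
  k169 k253 k252 13 14))))))] .n)

def s26_170_239 : T TT 256 :=
  (.q k101 [(.s k69 k117 3 (.s k71 k116 4 (.s k68 k70 0 (.s k87 k84 0 (.d k119 k103 k102 3 4))))),
  (.s k69 k117 3 (.s k84 k87 0 (.s k207 k138 10 (.s k154 k48 14 (.s k222 k18 9 (.d k252 k237 k168 4
  13)))))), (.s k84 k87 0 (.s k116 k71 4 (.s k252 k168 13 (.s k48 k184 9 (.s k16 k32 3 (.d k154 k223
  k207 10 14)))))), (.s k69 k117 3 (.s k71 k116 4 (.s k207 k138 10 (.s k3 k139 9 (.s k1 k2 0 (.d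
  k169 k253 k252 13 14))))))] .n)

def s26_170_240 : T TT 256 :=
  (.q k12 [(.s k4 k8 1 (.s k84 k87 0 (.s k166 k247 12 (.s k6 k246 11 (.s k7 k5 0 (.d k244 k164 k165
  11 12)))))), (.s k84 k87 0 (.s k252 k168 13 (.s k92 k172 11 (.s k89 k83 2 (.s k81 k93 1 (.d k243
  k162 k166 12 14)))))), (.s k4 k8 1 (.s k166 k247 12 (.s k6 k246 11 (.s k3 k9 2 (.s k1 k2 0 (.d
  k169 k253 k252 13 14))))))] (.c k89 (.l (.s k84 k87 0 (.s k252 k168 13 (.s k169 k3 14 (.s k172 k92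
  11 (.s k166 k163 2 (.d k4 k8 k247 1 12))))))) (.c k166 (.l (.s k84 k87 0 (.s k252 k168 13 (.s k92
  k172 11 (.s k80 k88 1 (.s k83 k89 2 (.s k82 k81 0 (.d k90 k94 k95 1 2)))))))) .n)))

def s26_170_241 : T TT 256 :=
  (.q k4 [(.s k84 k87 0 (.s k244 k164 11 (.s k165 k7 12 (.s k245 k5 11 (.d k247 k246 k166 0 12))))),
  (.s k12 k8 1 (.s k84 k87 0 (.s k164 k244 11 (.s k88 k240 13 (.s k92 k80 1 (.d k252 k172 k168 11
  13)))))), (.s k12 k8 1 (.s k166 k247 12 (.s k6 k246 11 (.s k3 k9 2 (.s k1 k2 0 (.d k169 k253 k252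
  13 14))))))] (.c k244 (.l (.s k12 k8 1 (.s k84 k87 0 (.s k166 k247 12 (.s k89 k243 14 (.s k92 k83
  2 (.d k252 k172 k168 11 13))))))) .n))

def s26_170_242 : T TT 256 :=
  (.q k4 [(.s k84 k87 0 (.s k244 k164 11 (.s k165 k7 12 (.s k245 k5 11 (.d k247 k246 k166 0 12))))),
  (.s k12 k8 1 (.s k84 k87 0 (.s k164 k244 11 (.s k88 k240 13 (.s k92 k80 1 (.d k252 k172 k168 11
  13)))))), (.s k12 k8 1 (.s k166 k247 12 (.s k6 k246 11 (.s k3 k9 2 (.s k1 k2 0 (.d k169 k253 k252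
  13 14))))))] (.c k244 (.l (.s k12 k8 1 (.s k84 k87 0 (.s k166 k247 12 (.s k89 k243 14 (.s k92 k83
  2 (.d k252 k172 k168 11 13))))))) .n))

def s26_170_243 : T TT 256 :=
  (.q k4 [(.s k84 k87 0 (.s k244 k164 11 (.s k165 k7 12 (.s k245 k5 11 (.d k247 k246 k166 0 12))))),
  (.s k12 k8 1 (.s k84 k87 0 (.s k164 k244 11 (.s k88 k240 13 (.s k92 k80 1 (.d k252 k172 k168 11
  13)))))), (.s k12 k8 1 (.s k166 k247 12 (.s k6 k246 11 (.s k3 k9 2 (.s k1 k2 0 (.d k169 k252 k253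
  14 13))))))] (.c k244 (.l (.s k12 k8 1 (.s k84 k87 0 (.s k166 k247 12 (.s k252 k168 13 (.s k169 k3
  14 (.d k172 k163 k92 2 11))))))) .n))

def s26_170_244 : T TT 256 :=
  (.q k16 [(.s k84 k87 0 (.s k220 k152 9 (.s k153 k19 10 (.s k221 k17 9 (.d k223 k222 k154 0
  10))))), (.s k48 k32 3 (.s k84 k87 0 (.s k152 k220 9 (.s k100 k204 13 (.s k116 k68 3 (.d k252 k184
  k168 9 13)))))), (.s k48 k32 3 (.s k154 k223 10 (.s k18 k222 9 (.s k3 k33 4 (.s k1 k2 0 (.d k169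
  k253 k252 13 14))))))] (.c k220 (.l (.s k48 k32 3 (.s k84 k87 0 (.s k154 k223 10 (.s k101 k207 14
  (.s k116 k71 4 (.d k252 k184 k168 9 13))))))) .n))

def s26_170_245 : T TT 256 :=
  (.q k4 [(.s k84 k87 0 (.s k166 k247 12 (.s k6 k246 11 (.s k244 k164 11 (.d k7 k5 k165 0 12))))),
  (.s k12 k8 1 (.s k84 k87 0 (.s k252 k168 13 (.s k92 k172 11 (.s k88 k80 1 (.d k164 k244 k240 11
  13)))))), (.s k12 k8 1 (.s k166 k247 12 (.s k89 k243 14 (.s k92 k83 2 (.s k252 k172 11 (.s k3 k169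
  14 (.d k6 k246 k9 11 2)))))))] (.c k244 (.l (.s k12 k8 1 (.s k84 k87 0 (.s k166 k247 12 (.s k246
  k6 11 (.s k252 k168 13 (.d k243 k89 k249 14 2))))))) .n))

def s26_170_246 : T TT 256 :=
  (.q k16 [(.s k84 k87 0 (.s k220 k152 9 (.s k153 k19 10 (.s k221 k17 9 (.d k223 k222 k154 0
  10))))), (.s k48 k32 3 (.s k84 k87 0 (.s k152 k220 9 (.s k100 k204 13 (.s k116 k68 3 (.d k252 k184
  k168 9 13)))))), (.s k48 k32 3 (.s k154 k223 10 (.s k18 k222 9 (.s k3 k33 4 (.s k1 k2 0 (.d k169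
  k253 k252 13 14))))))] (.c k220 (.l (.s k48 k32 3 (.s k84 k87 0 (.s k154 k223 10 (.s k101 k207 14
  (.s k116 k71 4 (.d k252 k184 k168 9 13))))))) .n))

def s26_170_247 : T TT 256 :=
  (.q k16 [(.s k84 k87 0 (.s k220 k152 9 (.s k153 k19 10 (.s k221 k17 9 (.d k223 k222 k154 0
  10))))), (.s k48 k32 3 (.s k154 k223 10 (.s k18 k222 9 (.s k3 k33 4 (.s k1 k2 0 (.d k169 k253 k252
  13 14)))))), (.s k48 k32 3 (.s k84 k87 0 (.s k152 k220 9 (.s k100 k204 13 (.s k116 k68 3 (.d k252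
  k184 k168 9 13))))))] (.c k220 (.l (.s k48 k32 3 (.s k84 k87 0 (.s k154 k223 10 (.s k101 k207 14
  (.s k116 k71 4 (.d k252 k184 k168 9 13))))))) .n))

def s26_170_248 : T TT 256 :=
  (.q k4 [(.s k84 k87 0 (.s k244 k164 11 (.s k165 k7 12 (.s k245 k5 11 (.d k247 k246 k166 0 12))))),
  (.s k12 k8 1 (.s k84 k87 0 (.s k164 k244 11 (.s k88 k240 13 (.s k252 k168 13 (.d k92 k80 k172 1
  11)))))), (.s k12 k8 1 (.s k166 k247 12 (.s k6 k246 11 (.s k3 k9 2 (.s k1 k2 0 (.d k169 k253 k252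
  13 14))))))] (.c k244 (.l (.s k12 k8 1 (.s k84 k87 0 (.s k166 k247 12 (.s k89 k243 14 (.s k92 k83
  2 (.d k252 k168 k172 13 11))))))) .n))

def s26_170_249 : T TT 256 :=
  (.q k4 [(.s k84 k87 0 (.s k244 k164 11 (.s k165 k7 12 (.s k245 k5 11 (.d k247 k246 k166 0 12))))),
  (.s k12 k8 1 (.s k84 k87 0 (.s k164 k244 11 (.s k88 k240 13 (.s k92 k80 1 (.d k252 k172 k168 11
  13)))))), (.s k12 k8 1 (.s k166 k247 12 (.s k6 k246 11 (.s k3 k9 2 (.s k1 k2 0 (.d k169 k252 k253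
  14 13))))))] (.c k244 (.l (.s k12 k8 1 (.s k84 k87 0 (.s k166 k247 12 (.s k89 k243 14 (.s k92 k83
  2 (.d k252 k172 k168 11 13))))))) .n))

def s26_170_250 : T TT 256 :=
  (.q k90 [(.s k80 k95 2 (.s k82 k94 1 (.s k83 k81 0 (.s k84 k87 0 (.d k92 k88 k89 1 2))))), (.s k84
  k87 0 (.s k94 k82 1 (.s k252 k168 13 (.s k15 k173 12 (.s k5 k10 2 (.d k165 k245 k240 11 14)))))),
  (.s k80 k95 2 (.s k84 k87 0 (.s k240 k160 11 (.s k165 k15 14 (.s k244 k7 12 (.d k252 k248 k168 1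
  13)))))), (.s k80 k95 2 (.s k82 k94 1 (.s k240 k160 11 (.s k3 k161 12 (.s k1 k2 0 (.d k169 k253
  k252 13 14))))))] .n)

def s26_170_251 : T TT 256 :=
  (.q k89 [(.s k81 k93 1 (.s k83 k92 2 (.s k80 k82 0 (.s k87 k84 0 (.d k95 k91 k90 1 2))))), (.s k81
  k93 1 (.s k84 k87 0 (.s k243 k162 12 (.s k166 k12 14 (.s k246 k6 11 (.d k252 k249 k168 2 13)))))),
  (.s k84 k87 0 (.s k92 k83 2 (.s k252 k168 13 (.s k12 k172 11 (.s k4 k8 1 (.d k166 k247 k243 12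
  14)))))), (.s k81 k93 1 (.s k83 k92 2 (.s k243 k162 12 (.s k3 k163 11 (.s k1 k2 0 (.d k169 k253
  k252 13 14))))))] .n)

def s26_170_252 : T TT 256 :=
  (.f k84 k87 0 (.q k4 [(.s k244 k164 11 (.s k165 k7 12 (.s k245 k5 11 (.d k247 k246 k166 0 12)))),
  (.s k12 k8 1 (.s k166 k247 12 (.s k89 k243 14 (.s k92 k83 2 (.s k80 k88 1 (.s k93 k81 1 (.d k95
  k94 k90 0 2))))))), (.s k12 k8 1 (.s k164 k244 11 (.s k240 k88 13 (.s k80 k160 11 (.s k90 k95 2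
  (.s k165 k15 14 (.d k166 k167 k247 0 12)))))))] (.c k166 (.f k164 k244 11 (.f k12 k8 1 (.f k240
  k88 13 (.l (.s k80 k160 11 (.s k90 k95 2 (.s k82 k94 1 (.s k3 k161 12 (.s k2 k1 0 (.s k162 k242 11
  (.d k81 k83 k243 0 12))))))))))) (.c k167 (.l (.s k244 k164 11 (.s k7 k165 12 (.s k166 k247 12 (.d
  k6 k5 k246 0 11))))) (.c k247 (.q k5 [(.s k7 k6 0 (.d k165 k245 k244 11 12)), (.s k12 k8 1 (.s k15
  k10 2 (.s k13 k14 0 (.s k9 k1 1 (.d k6 k7 k3 0 2)))))] (.c k6 (.l (.s k165 k245 11 (.d k244 k164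
  k7 11 12))) (.c k7 (.q k167 [(.s k165 k245 11 (.d k164 k244 k166 11 0)), (.s k12 k8 1 (.s k15 k10
  2 (.s k243 k91 13 (.s k81 k162 12 (.d k89 k166 k93 14 1)))))] (.c k166 (.l (.s k12 k8 1 (.s k15
  k10 2 (.s k164 k244 11 (.s k240 k88 13 (.d k165 k245 k90 11 14)))))) .n)) (.c k167 (.l (.s k7 k6 0
  (.d k165 k245 k244 11 12))) .n)))) .n)))))

def s26_170_253 : T TT 256 :=
  (.q k4 [(.s k84 k87 0 (.s k244 k164 11 (.s k165 k7 12 (.s k245 k5 11 (.d k247 k246 k166 0 12))))),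
  (.s k12 k8 1 (.s k84 k87 0 (.s k164 k244 11 (.s k88 k240 13 (.s k92 k80 1 (.d k252 k172 k168 11
  13)))))), (.s k12 k8 1 (.s k166 k247 12 (.s k6 k246 11 (.s k3 k9 2 (.s k2 k1 0 (.s k10 k14 1 (.d
  k5 k7 k15 0 2)))))))] (.c k244 (.l (.s k12 k8 1 (.s k84 k87 0 (.s k166 k247 12 (.s k89 k243 14 (.s
  k92 k83 2 (.d k252 k172 k168 11 13))))))) .n))

def s26_170_254 : T TT 256 :=
  (.q k4 [(.s k84 k87 0 (.s k244 k164 11 (.s k165 k7 12 (.s k245 k5 11 (.d k247 k246 k166 0 12))))),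
  (.s k12 k8 1 (.s k84 k87 0 (.s k164 k244 11 (.s k88 k240 13 (.s k92 k80 1 (.d k252 k172 k168 11
  13)))))), (.s k12 k8 1 (.s k166 k247 12 (.s k6 k246 11 (.s k3 k9 2 (.s k1 k2 0 (.d k169 k253 k252
  13 14))))))] (.c k244 (.l (.s k12 k8 1 (.s k84 k87 0 (.s k166 k247 12 (.s k89 k243 14 (.s k92 k83
  2 (.d k252 k172 k168 11 13))))))) .n))

def s26_170_255 : T TT 256 :=
  (.q k4 [(.s k87 k84 0 (.s k247 k166 12 (.s k7 k167 11 (.s k5 k6 0 (.d k165 k245 k244 11 12))))),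
  (.s k12 k8 1 (.s k84 k87 0 (.s k164 k244 11 (.s k88 k240 13 (.s k92 k80 1 (.d k252 k172 k168 11
  13)))))), (.s k12 k8 1 (.s k166 k247 12 (.s k6 k246 11 (.s k3 k9 2 (.s k1 k2 0 (.d k169 k253 k252
  13 14)))))), (.s k12 k8 1 (.s k84 k87 0 (.s k166 k247 12 (.s k246 k6 11 (.s k252 k168 13 (.d k243
  k89 k249 14 2))))))] .n)

def t26_170 : T TT 256 :=
  (.q k86 [] (.c k1 s26_170_1 (.c k2 s26_170_2 (.c k3 s26_170_3 (.c k4 s26_170_4 (.c k5 s26_170_5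
  (.c k6 s26_170_6 (.c k7 s26_170_7 (.c k8 s26_170_8 (.c k9 s26_170_9 (.c k10 s26_170_10 (.c k11
  s26_170_11 (.c k12 s26_170_12 (.c k13 s26_170_13 (.c k14 s26_170_14 (.c k15 s26_170_15 (.c k16
  s26_170_16 (.c k17 s26_170_17 (.c k18 s26_170_18 (.c k19 s26_170_19 (.c k20 s26_170_20 (.c k21
  s26_170_21 (.c k22 s26_170_22 (.c k23 s26_170_23 (.c k24 s26_170_24 (.c k25 s26_170_25 (.c k27
  s26_170_27 (.c k28 s26_170_28 (.c k29 s26_170_29 (.c k30 s26_170_30 (.c k31 s26_170_31 (.c k32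
  s26_170_32 (.c k33 s26_170_33 (.c k34 s26_170_34 (.c k35 s26_170_35 (.c k36 s26_170_36 (.c k37
  s26_170_37 (.c k38 s26_170_38 (.c k39 s26_170_39 (.c k40 s26_170_40 (.c k41 s26_170_41 (.c k42
  s26_170_42 (.c k43 s26_170_43 (.c k44 s26_170_44 (.c k45 s26_170_45 (.c k46 s26_170_46 (.c k47
  s26_170_47 (.c k48 s26_170_48 (.c k49 s26_170_49 (.c k50 s26_170_50 (.c k51 s26_170_51 (.c k52
  s26_170_52 (.c k53 s26_170_53 (.c k54 s26_170_54 (.c k55 s26_170_55 (.c k56 s26_170_56 (.c k57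
  s26_170_57 (.c k58 s26_170_58 (.c k59 s26_170_59 (.c k60 s26_170_60 (.c k61 s26_170_61 (.c k62
  s26_170_62 (.c k63 s26_170_63 (.c k64 s26_170_64 (.c k65 s26_170_65 (.c k66 s26_170_66 (.c k67
  s26_170_67 (.c k68 s26_170_68 (.c k69 s26_170_69 (.c k70 s26_170_70 (.c k71 s26_170_71 (.c k72
  s26_170_72 (.c k73 s26_170_73 (.c k74 s26_170_74 (.c k75 s26_170_75 (.c k76 s26_170_76 (.c k77
  s26_170_77 (.c k78 s26_170_78 (.c k79 s26_170_79 (.c k80 s26_170_80 (.c k81 s26_170_81 (.c k82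
  s26_170_82 (.c k83 s26_170_83 (.c k84 s26_170_84 (.c k87 s26_170_87 (.c k88 s26_170_88 (.c k89
  s26_170_89 (.c k90 s26_170_90 (.c k91 s26_170_91 (.c k92 s26_170_92 (.c k93 s26_170_93 (.c k94
  s26_170_94 (.c k95 s26_170_95 (.c k96 s26_170_96 (.c k97 s26_170_97 (.c k98 s26_170_98 (.c k99
  s26_170_99 (.c k100 s26_170_100 (.c k101 s26_170_101 (.c k102 s26_170_102 (.c k103 s26_170_103 (.c
  k104 s26_170_104 (.c k105 s26_170_105 (.c k106 s26_170_106 (.c k107 s26_170_107 (.c k108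
  s26_170_108 (.c k109 s26_170_109 (.c k110 s26_170_110 (.c k111 s26_170_111 (.c k112 s26_170_112
  (.c k113 s26_170_113 (.c k114 s26_170_114 (.c k115 s26_170_115 (.c k116 s26_170_116 (.c k117
  s26_170_117 (.c k118 s26_170_118 (.c k119 s26_170_119 (.c k120 s26_170_120 (.c k121 s26_170_121
  (.c k122 s26_170_122 (.c k123 s26_170_123 (.c k124 s26_170_124 (.c k125 s26_170_125 (.c k126
  s26_170_126 (.c k127 s26_170_127 (.c k128 s26_170_128 (.c k129 s26_170_129 (.c k130 s26_170_130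
  (.c k131 s26_170_131 (.c k132 s26_170_132 (.c k133 s26_170_133 (.c k134 s26_170_134 (.c k135
  s26_170_135 (.c k136 s26_170_136 (.c k137 s26_170_137 (.c k138 s26_170_138 (.c k139 s26_170_139
  (.c k140 s26_170_140 (.c k141 s26_170_141 (.c k142 s26_170_142 (.c k143 s26_170_143 (.c k144
  s26_170_144 (.c k145 s26_170_145 (.c k146 s26_170_146 (.c k147 s26_170_147 (.c k148 s26_170_148
  (.c k149 s26_170_149 (.c k150 s26_170_150 (.c k151 s26_170_151 (.c k152 s26_170_152 (.c k153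
  s26_170_153 (.c k154 s26_170_154 (.c k155 s26_170_155 (.c k156 s26_170_156 (.c k157 s26_170_157
  (.c k158 s26_170_158 (.c k159 s26_170_159 (.c k160 s26_170_160 (.c k161 s26_170_161 (.c k162
  s26_170_162 (.c k163 s26_170_163 (.c k164 s26_170_164 (.c k165 s26_170_165 (.c k166 s26_170_166
  (.c k167 s26_170_167 (.c k168 s26_170_168 (.c k169 s26_170_169 (.c k171 s26_170_171 (.c k172
  s26_170_172 (.c k173 s26_170_173 (.c k174 s26_170_174 (.c k175 s26_170_175 (.c k176 s26_170_176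
  (.c k177 s26_170_177 (.c k178 s26_170_178 (.c k179 s26_170_179 (.c k180 s26_170_180 (.c k181
  s26_170_181 (.c k182 s26_170_182 (.c k183 s26_170_183 (.c k184 s26_170_184 (.c k185 s26_170_185
  (.c k186 s26_170_186 (.c k187 s26_170_187 (.c k188 s26_170_188 (.c k189 s26_170_189 (.c k190
  s26_170_190 (.c k191 s26_170_191 (.c k192 s26_170_192 (.c k193 s26_170_193 (.c k194 s26_170_194
  (.c k195 s26_170_195 (.c k196 s26_170_196 (.c k197 s26_170_197 (.c k198 s26_170_198 (.c k199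
  s26_170_199 (.c k200 s26_170_200 (.c k201 s26_170_201 (.c k202 s26_170_202 (.c k203 s26_170_203
  (.c k204 s26_170_204 (.c k205 s26_170_205 (.c k206 s26_170_206 (.c k207 s26_170_207 (.c k208
  s26_170_208 (.c k209 s26_170_209 (.c k210 s26_170_210 (.c k211 s26_170_211 (.c k212 s26_170_212
  (.c k213 s26_170_213 (.c k214 s26_170_214 (.c k215 s26_170_215 (.c k216 s26_170_216 (.c k217
  s26_170_217 (.c k218 s26_170_218 (.c k219 s26_170_219 (.c k220 s26_170_220 (.c k221 s26_170_221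
  (.c k222 s26_170_222 (.c k223 s26_170_223 (.c k224 s26_170_224 (.c k225 s26_170_225 (.c k226
  s26_170_226 (.c k227 s26_170_227 (.c k228 s26_170_228 (.c k229 s26_170_229 (.c k230 s26_170_230
  (.c k231 s26_170_231 (.c k232 s26_170_232 (.c k233 s26_170_233 (.c k234 s26_170_234 (.c k235
  s26_170_235 (.c k236 s26_170_236 (.c k237 s26_170_237 (.c k238 s26_170_238 (.c k239 s26_170_239
  (.c k240 s26_170_240 (.c k241 s26_170_241 (.c k242 s26_170_242 (.c k243 s26_170_243 (.c k244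
  s26_170_244 (.c k245 s26_170_245 (.c k246 s26_170_246 (.c k247 s26_170_247 (.c k248 s26_170_248
  (.c k249 s26_170_249 (.c k250 s26_170_250 (.c k251 s26_170_251 (.c k252 s26_170_252 (.c k253
  s26_170_253 (.c k254 s26_170_254 (.c k255 s26_170_255
  .n))))))))))))))))))))))))))))))))))))))))))))))))))))))))))))))))))))))))))))))))
  ))))))))))))))))))))))))))))))))))))))))))))))))))))))))))))))))))))))))))))))))
  )))))))))))))))))))))))))))))))))))))))))))))))))))))))))))))))))))))))))))))))) ))))))))))))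

/-- roots with certificates -/
def certs : List (Cell TT 256 × Cell TT 256 × T TT 256) :=
  [(k15, k170, t15_170), (k15, k243, t15_243), (k26, k170, t26_170)]

theorem c15_170 : rootOK k15 k170 t15_170 = true := by decide +kernel

theorem c15_243 : rootOK k15 k243 t15_243 = true := by decide +kernel

theorem c26_170 : rootOK k26 k170 t26_170 = true := by decide +kernel

theorem ok : certsOK certs = true :=
  certsOK_cons c15_170 (certsOK_cons c15_243 (certsOK_cons c26_170 (certsOK_nil)))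

theorem sound (k : Nat) (hk : (bits certs).testBit k = true) : PI k :=
  certs_sound certs ok k hk

end Pool.Agent.TTT.B07
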