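import Pool.Agent.TTT.Sym

set_option autoImplicit false
set_option maxRecDepth 100000

namespace Pool.Agent.TTT.B08

def s26_255_1 : T TT 256 :=
  (.q k65 [(.s k67 k66 0 (.s k127 k106 6 (.s k87 k107 5 (.s k86 k84 0 (.d k105 k125 k124 5 6))))),
  (.s k106 k127 6 (.s k192 k128 7 (.s k195 k130 8 (.s k194 k193 0 (.s k150 k62 13 (.s k20 k215 8 (.d
  k60 k40 k105 5 14)))))))] (.c k105 (.l (.s k66 k67 0 (.s k106 k127 6 (.s k86 k126 5 (.s k192 k128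
  7 (.s k3 k129 8 (.s k252 k169 14 (.d k84 k87 k168 0 13)))))))) (.c k106 (.l (.s k67 k66 0 (.s k105
  k125 5 (.s k86 k124 6 (.s k84 k87 0 (.s k195 k130 8 (.s k3 k131 7 (.d k252 k168 k169 13 14))))))))
  (.c k127 (.l (.s k67 k66 0 (.s k105 k125 5 (.s k124 k86 6 (.s k84 k104 5 (.s k195 k130 8 (.s k60
  k150 14 (.d k252 k188 k168 7 13)))))))) .n))))

def s26_255_2 : T TT 256 :=
  (.q k65 [(.s k66 k67 0 (.s k192 k128 7 (.s k195 k130 8 (.s k193 k194 0 (.d k129 k1 k3 7 8))))),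
  (.s k105 k125 5 (.s k106 k127 6 (.s k104 k107 0 (.s k124 k84 5 (.d k67 k66 k86 0 6))))), (.s k105
  k125 5 (.s k106 k127 6 (.s k107 k104 0 (.s k192 k128 7 (.s k63 k149 14 (.d k195 k130 k151 8
  13))))))] .n)

def s26_255_3 : T TT 256 :=
  (.q k84 [(.s k124 k104 5 (.s k127 k106 6 (.s k125 k126 0 (.s k105 k65 5 (.d k86 k87 k67 0 6))))),
  (.s k104 k124 5 (.s k192 k128 7 (.s k60 k148 13 (.s k40 k20 5 (.d k168 k232 k252 7 13))))), (.s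
  k106 k127 6 (.s k192 k128 7 (.s k63 k149 14 (.s k252 k168 13 (.s k126 k189 8 (.d k86 k87 k66 0
  5))))))] (.c k87 (.q k171 [(.s k104 k124 5 (.s k192 k128 7 (.s k60 k148 13 (.s k40 k20 5 (.d k168
  k232 k252 7 13))))), (.s k106 k127 6 (.s k168 k252 13 (.s k192 k128 7 (.s k63 k149 14 (.s k42 k21
  6 (.d k170 k169 k234 0 7)))))), (.s k104 k124 5 (.s k106 k127 6 (.s k168 k252 13 (.s k169 k170 0
  (.d k232 k40 k43 7 8)))))] (.c k168 (.l (.s k104 k124 5 (.s k106 k127 6 (.s k192 k128 7 (.s k148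
  k60 13 (.s k20 k212 7 (.s k150 k215 8 (.d k149 k151 k63 0 14)))))))) (.c k252 (.l (.s k104 k124 5
  (.s k106 k127 6 (.s k192 k128 7 (.s k60 k148 13 (.s k20 k40 5 (.s k150 k215 8 (.d k105 k107 k195 0
  14)))))))) .n))) (.c k171 (.l (.s k87 k86 0 (.s k104 k124 5 (.s k192 k128 7 (.s k60 k148 13 (.s
  k40 k20 5 (.d k168 k252 k232 13 7))))))) .n)))

def s26_255_4 : T TT 256 :=
  (.q k65 [(.s k66 k67 0 (.s k192 k128 7 (.s k3 k129 8 (.s k2 k1 0 (.d k130 k194 k195 7 8))))), (.s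
  k67 k66 0 (.s k105 k125 5 (.s k86 k124 6 (.s k87 k84 0 (.d k127 k107 k106 5 6))))), (.s k105 k125
  5 (.s k106 k127 6 (.s k107 k104 0 (.s k192 k128 7 (.s k63 k149 14 (.d k195 k130 k151 8 13))))))]
  .n)

def s26_255_5 : T TT 256 :=
  (.q k65 [(.s k67 k66 0 (.s k105 k125 5 (.s k86 k124 6 (.s k87 k84 0 (.d k127 k107 k106 5 6))))),
  (.s k66 k67 0 (.s k130 k195 8 (.s k2 k194 7 (.s k3 k1 0 (.d k192 k128 k129 7 8))))), (.s k105 k125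
  5 (.s k106 k127 6 (.s k107 k104 0 (.s k192 k128 7 (.s k63 k149 14 (.d k195 k130 k151 8 13))))))]
  .n)

def s26_255_6 : T TT 256 :=
  (.q k65 [(.s k66 k67 0 (.s k192 k128 7 (.s k3 k129 8 (.s k2 k1 0 (.d k130 k194 k195 7 8))))), (.s
  k67 k66 0 (.s k105 k125 5 (.s k86 k124 6 (.s k87 k84 0 (.d k127 k107 k106 5 6))))), (.s k105 k125
  5 (.s k106 k127 6 (.s k107 k104 0 (.s k192 k128 7 (.s k63 k149 14 (.d k195 k130 k151 8 13))))))]
  .n)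

def s26_255_7 : T TT 256 :=
  (.q k65 [(.s k66 k67 0 (.s k192 k128 7 (.s k3 k129 8 (.s k2 k1 0 (.d k130 k194 k195 7 8))))), (.s
  k67 k66 0 (.s k105 k125 5 (.s k86 k124 6 (.s k87 k84 0 (.d k127 k107 k106 5 6))))), (.s k105 k125
  5 (.s k106 k127 6 (.s k107 k104 0 (.s k192 k128 7 (.s k63 k149 14 (.d k195 k130 k151 8 13))))))]
  .n)

def s26_255_8 : T TT 256 :=
  (.q k65 [(.s k66 k67 0 (.s k192 k128 7 (.s k3 k129 8 (.s k2 k1 0 (.d k130 k194 k195 7 8))))), (.s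
  k67 k66 0 (.s k105 k125 5 (.s k86 k124 6 (.s k87 k84 0 (.d k127 k107 k106 5 6))))), (.s k105 k125
  5 (.s k106 k127 6 (.s k107 k104 0 (.s k192 k128 7 (.s k63 k149 14 (.d k195 k130 k151 8 13))))))]
  .n)

def s26_255_9 : T TT 256 :=
  (.q k65 [(.s k67 k66 0 (.s k105 k125 5 (.s k86 k124 6 (.s k87 k84 0 (.d k127 k107 k106 5 6))))),
  (.s k66 k67 0 (.s k130 k195 8 (.s k2 k194 7 (.s k3 k1 0 (.d k192 k128 k129 7 8))))), (.s k105 k125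
  5 (.s k106 k127 6 (.s k107 k104 0 (.s k192 k128 7 (.s k63 k149 14 (.d k195 k130 k151 8 13))))))]
  .n)

def s26_255_10 : T TT 256 :=
  (.f k192 k128 7 (.q k80 [(.s k96 k112 3 (.s k48 k144 11 (.s k32 k16 3 (.d k160 k224 k240 7 11)))),
  (.s k90 k95 2 (.s k106 k127 6 (.s k63 k149 14 (.s k122 k74 3 (.d k240 k181 k160 10 11))))), (.s
  k90 k95 2 (.s k106 k127 6 (.s k74 k122 3 (.s k79 k69 2 (.d k112 k96 k101 3 6)))))] (.c k42 (.q k58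
  [(.s k96 k112 3 (.s k48 k144 11 (.s k63 k53 2 (.d k106 k127 k149 6 14)))), (.s k90 k95 2 (.s k106
  k127 6 (.s k63 k149 14 (.s k122 k74 3 (.d k240 k181 k160 10 11))))), (.s k96 k112 3 (.s k48 k144
  11 (.s k32 k16 3 (.d k160 k224 k240 7 11))))] (.c k160 (.l (.s k96 k112 3 (.s k106 k127 6 (.s k63
  k149 14 (.d k48 k53 k144 2 11))))) .n)) (.c k58 (.q k42 [(.s k106 k127 6 (.d k63 k21 k149 6 14)),
  (.s k96 k112 3 (.s k48 k144 11 (.s k160 k240 11 (.d k32 k16 k224 3 7))))] .n) .n))))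

def s26_255_11 : T TT 256 :=
  (.f k127 k106 6 (.f k192 k128 7 (.q k80 [(.s k90 k95 2 (.s k112 k96 3 (.s k101 k79 6 (.d k117 k122
  k69 2 3)))), (.s k96 k112 3 (.s k48 k144 11 (.s k32 k16 3 (.d k160 k224 k240 7 11)))), (.s k90 k95
  2 (.s k240 k160 11 (.s k15 k165 14 (.s k10 k5 2 (.s k74 k133 10 (.s k69 k79 2 (.d k138 k202 k207 7
  10)))))))] (.c k41 (.q k56 [(.s k90 k95 2 (.s k112 k96 3 (.s k101 k79 6 (.d k117 k122 k69 2 3)))),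
  (.s k96 k112 3 (.s k48 k144 11 (.s k32 k16 3 (.d k160 k224 k240 7 11)))), (.s k90 k95 2 (.s k240
  k160 11 (.s k15 k165 14 (.s k10 k5 2 (.s k74 k133 10 (.s k69 k79 2 (.d k138 k202 k207 7 10)))))))]
  .n) (.c k56 (.q k41 [(.s k90 k95 2 (.s k112 k96 3 (.s k101 k79 6 (.d k117 k122 k69 2 3)))), (.s
  k96 k112 3 (.s k48 k144 11 (.s k32 k16 3 (.d k160 k224 k240 7 11)))), (.s k90 k95 2 (.s k240 k160
  11 (.s k15 k165 14 (.s k10 k5 2 (.s k74 k133 10 (.s k69 k79 2 (.d k138 k202 k207 7 10)))))))] .n)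
  .n)))))

def s26_255_12 : T TT 256 :=
  (.f k192 k128 7 (.q k81 [(.s k98 k115 4 (.s k51 k145 12 (.s k34 k17 4 (.d k162 k226 k243 7 12)))),
  (.s k115 k98 4 (.s k127 k106 6 (.s k119 k123 1 (.s k102 k68 4 (.d k89 k93 k76 1 6))))), (.s k106
  k127 6 (.s k63 k149 14 (.s k243 k162 12 (.s k123 k183 9 (.d k89 k93 k72 1 4)))))] (.c k93 (.q k174
  [(.s k98 k115 4 (.s k51 k145 12 (.s k34 k17 4 (.d k162 k226 k243 7 12)))), (.s k106 k127 6 (.s k63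
  k149 14 (.s k42 k21 6 (.s k162 k243 12 (.d k170 k166 k234 1 7)))))] (.c k162 (.l (.s k98 k115 4
  (.s k106 k127 6 (.s k145 k51 12 (.s k17 k209 7 (.s k153 k221 9 (.d k149 k157 k63 1 14))))))) (.c
  k243 (.l (.s k98 k115 4 (.s k51 k145 12 (.s k17 k34 4 (.s k106 k127 6 (.s k153 k221 9 (.d k102
  k110 k204 1 14))))))) .n))) (.c k174 (.l (.s k93 k89 1 (.s k98 k115 4 (.s k51 k145 12 (.s k34 k17
  4 (.d k162 k243 k226 12 7)))))) .n))))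

def s26_255_13 : T TT 256 :=
  (.q k65 [(.s k67 k66 0 (.s k105 k125 5 (.s k86 k124 6 (.s k87 k84 0 (.d k127 k107 k106 5 6))))),
  (.s k66 k67 0 (.s k130 k195 8 (.s k2 k194 7 (.s k3 k1 0 (.d k192 k128 k129 7 8))))), (.s k105 k125
  5 (.s k106 k127 6 (.s k107 k104 0 (.s k192 k128 7 (.s k63 k149 14 (.d k195 k130 k151 8 13))))))]
  .n)

def s26_255_14 : T TT 256 :=
  (.f k127 k106 6 (.f k192 k128 7 (.q k80 [(.s k90 k95 2 (.s k112 k96 3 (.s k101 k79 6 (.d k117 k122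
  k69 2 3)))), (.s k96 k112 3 (.s k48 k144 11 (.s k32 k16 3 (.d k160 k224 k240 7 11)))), (.s k90 k95
  2 (.s k240 k160 11 (.s k15 k165 14 (.s k10 k5 2 (.s k74 k133 10 (.s k69 k79 2 (.d k138 k202 k207 7
  10)))))))] (.c k38 (.q k50 [(.s k90 k95 2 (.s k112 k96 3 (.s k101 k79 6 (.d k117 k122 k69 2 3)))),
  (.s k96 k112 3 (.s k48 k144 11 (.s k32 k16 3 (.d k160 k224 k240 7 11)))), (.s k90 k95 2 (.s k240
  k160 11 (.s k15 k165 14 (.s k10 k5 2 (.s k74 k133 10 (.s k69 k79 2 (.d k138 k202 k207 7 10)))))))]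
  .n) (.c k50 (.q k38 [(.s k90 k95 2 (.s k112 k96 3 (.s k101 k79 6 (.d k117 k122 k69 2 3)))), (.s
  k96 k112 3 (.s k48 k144 11 (.s k32 k16 3 (.d k160 k224 k240 7 11)))), (.s k90 k95 2 (.s k240 k160
  11 (.s k15 k165 14 (.s k10 k5 2 (.s k74 k133 10 (.s k69 k79 2 (.d k138 k202 k207 7 10)))))))] .n)
  .n)))))

def s26_255_15 : T TT 256 :=
  (.f k192 k128 7 (.q k48 [(.s k32 k16 3 (.s k96 k144 11 (.s k80 k112 3 (.d k160 k224 k240 7 11)))),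
  (.s k16 k32 3 (.s k106 k127 6 (.s k63 k149 14 (.s k58 k53 2 (.d k154 k223 k202 10 11))))), (.s k96
  k144 11 (.s k106 k127 6 (.s k101 k111 2 (.s k69 k117 3 (.d k207 k138 k154 10 14)))))] (.c k95 (.q
  k175 [(.s k32 k16 3 (.s k96 k144 11 (.s k80 k112 3 (.d k160 k224 k240 7 11)))), (.s k16 k32 3 (.s
  k106 k127 6 (.s k63 k149 14 (.s k58 k53 2 (.d k154 k223 k202 10 11))))), (.s k96 k144 11 (.s k106
  k127 6 (.s k63 k149 14 (.s k58 k53 2 (.s k154 k202 11 (.d k101 k111 k207 2 14))))))] .n) (.c k175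
  (.q k95 [(.s k96 k144 11 (.d k80 k90 k112 2 3)), (.s k16 k32 3 (.s k96 k144 11 (.s k106 k127 6 (.s
  k101 k111 2 (.d k154 k223 k207 10 14))))), (.s k80 k90 2 (.d k96 k112 k144 3 11))] (.c k96 (.l (.s
  k16 k32 3 (.s k80 k90 2 (.s k208 k144 7 (.d k240 k224 k160 3 11))))) (.c k144 (.l (.s k80 k90 2
  (.s k112 k96 3 (.d k240 k176 k160 7 11)))) .n))) .n))))

def s26_255_16 : T TT 256 :=
  (.f k127 k106 6 (.f k192 k128 7 (.q k84 [(.s k86 k87 0 (.s k124 k104 5 (.s k105 k67 6 (.d k125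
  k126 k65 0 5)))), (.s k104 k124 5 (.s k60 k148 13 (.s k40 k20 5 (.d k168 k232 k252 7 13)))), (.s
  k86 k87 0 (.s k252 k168 13 (.s k3 k169 14 (.s k2 k1 0 (.s k66 k129 8 (.s k65 k67 0 (.d k130 k194
  k195 7 8)))))))] (.c k21 (.q k31 [(.s k86 k87 0 (.s k124 k104 5 (.s k105 k67 6 (.d k125 k126 k65 0
  5)))), (.s k104 k124 5 (.s k60 k148 13 (.s k40 k20 5 (.d k168 k232 k252 7 13)))), (.s k86 k87 0
  (.s k252 k168 13 (.s k3 k169 14 (.s k2 k1 0 (.s k66 k129 8 (.s k65 k67 0 (.d k130 k194 k195 7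
  8)))))))] .n) (.c k31 (.q k21 [(.s k86 k87 0 (.s k124 k104 5 (.s k105 k67 6 (.d k125 k126 k65 0
  5)))), (.s k86 k87 0 (.s k149 k213 7 (.s k212 k23 8 (.d k252 k232 k168 5 13)))), (.s k63 k42 6 (.s
  k124 k104 5 (.s k126 k125 0 (.d k252 k189 k168 8 13))))] .n) .n)))))

def s26_255_17 : T TT 256 :=
  (.q k65 [(.s k67 k66 0 (.s k105 k125 5 (.s k86 k124 6 (.s k87 k84 0 (.d k127 k107 k106 5 6))))),
  (.s k66 k67 0 (.s k130 k195 8 (.s k2 k194 7 (.s k3 k1 0 (.d k192 k128 k129 7 8))))), (.s k105 k125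
  5 (.s k106 k127 6 (.s k107 k104 0 (.s k192 k128 7 (.s k63 k149 14 (.d k195 k130 k151 8 13))))))]
  .n)

def s26_255_18 : T TT 256 :=
  (.f k127 k106 6 (.f k192 k128 7 (.q k65 [(.s k66 k67 0 (.s k3 k129 8 (.s k2 k1 0 (.d k130 k194
  k195 7 8)))), (.s k67 k66 0 (.s k87 k107 5 (.s k86 k84 0 (.d k105 k125 k124 5 6)))), (.s k105 k125
  5 (.s k195 k130 8 (.s k60 k150 14 (.s k40 k20 5 (.s k104 k148 13 (.s k84 k124 5 (.d k168 k232 k252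
  7 13)))))))] (.c k22 (.q k30 [(.s k66 k67 0 (.s k3 k129 8 (.s k2 k1 0 (.d k130 k194 k195 7 8)))),
  (.s k67 k66 0 (.s k87 k107 5 (.s k86 k84 0 (.d k105 k125 k124 5 6)))), (.s k105 k125 5 (.s k195
  k130 8 (.s k60 k150 14 (.s k40 k20 5 (.s k104 k148 13 (.s k84 k124 5 (.d k168 k232 k252 7
  13)))))))] .n) (.c k30 (.q k22 [(.s k66 k67 0 (.s k3 k129 8 (.s k2 k1 0 (.d k130 k194 k195 7
  8)))), (.s k67 k66 0 (.s k87 k107 5 (.s k86 k84 0 (.d k105 k125 k124 5 6))))] (.c k66 (.l (.s k105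
  k125 5 (.s k195 k130 8 (.s k60 k150 14 (.s k3 k41 6 (.s k104 k148 13 (.s k124 k84 5 (.d k67 k131
  k86 7 6)))))))) (.c k67 (.l (.s k105 k125 5 (.s k195 k130 8 (.s k60 k150 14 (.s k3 k41 6 (.s k1 k2
  0 (.d k129 k66 k193 8 7))))))) .n))) .n)))))

def s26_255_19 : T TT 256 :=
  (.q k65 [(.s k66 k67 0 (.s k192 k128 7 (.s k3 k129 8 (.s k2 k1 0 (.d k130 k194 k195 7 8))))), (.s
  k67 k66 0 (.s k105 k125 5 (.s k86 k124 6 (.s k87 k84 0 (.d k127 k107 k106 5 6))))), (.s k105 k125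
  5 (.s k106 k127 6 (.s k107 k104 0 (.s k192 k128 7 (.s k63 k149 14 (.d k195 k130 k151 8 13))))))]
  .n)

def s26_255_20 : T TT 256 :=
  (.q k65 [(.s k66 k67 0 (.s k192 k128 7 (.s k3 k129 8 (.s k2 k1 0 (.d k130 k194 k195 7 8))))), (.s
  k67 k66 0 (.s k105 k125 5 (.s k86 k124 6 (.s k87 k84 0 (.d k127 k107 k106 5 6))))), (.s k105 k125
  5 (.s k106 k127 6 (.s k107 k104 0 (.s k192 k128 7 (.s k63 k149 14 (.d k195 k130 k151 8 13))))))]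
  .n)

def s26_255_21 : T TT 256 :=
  (.f k192 k128 7 (.q k48 [(.s k96 k144 11 (.s k80 k112 3 (.s k160 k240 11 (.d k32 k16 k224 3 7)))),
  (.s k16 k32 3 (.s k106 k127 6 (.s k63 k149 14 (.s k58 k53 2 (.d k154 k223 k202 10 11)))))] (.c k16
  (.q k31 [(.s k96 k144 11 (.s k80 k112 3 (.s k90 k95 2 (.s k149 k208 10 (.d k106 k127 k63 6
  14))))), (.s k106 k127 6 (.s k63 k149 14 (.s k58 k53 2 (.s k154 k202 11 (.s k101 k207 14 (.d k96
  k111 k144 2 11)))))), (.s k96 k144 11 (.s k80 k112 3 (.s k90 k95 2 (.s k208 k149 10 (.d k240 k160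
  k224 11 3))))), (.s k106 k127 6 (.s k63 k149 14 (.s k15 k47 3 (.s k5 k10 2 (.s k74 k133 10 (.s k90
  k122 3 (.d k165 k245 k240 11 14)))))))] (.c k149 (.l (.s k96 k144 11 (.s k106 k127 6 (.s k101 k111
  2 (.s k69 k117 3 (.d k207 k154 k138 14 10)))))) .n)) (.c k31 (.l (.s k16 k32 3 (.s k96 k144 11 (.s
  k106 k127 6 (.s k101 k111 2 (.d k154 k223 k207 10 14)))))) (.c k32 (.l (.s k96 k144 11 (.s k106
  k127 6 (.s k101 k111 2 (.s k69 k117 3 (.d k207 k138 k154 10 14)))))) .n)))))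

def s26_255_22 : T TT 256 :=
  (.f k127 k106 6 (.f k192 k128 7 (.q k80 [(.s k90 k95 2 (.s k112 k96 3 (.s k101 k79 6 (.d k117 k122
  k69 2 3)))), (.s k96 k112 3 (.s k48 k144 11 (.s k32 k16 3 (.d k160 k224 k240 7 11)))), (.s k90 k95
  2 (.s k240 k160 11 (.s k15 k165 14 (.s k10 k5 2 (.s k74 k133 10 (.s k69 k79 2 (.d k138 k202 k207 7
  10)))))))] (.c k18 (.q k30 [(.s k90 k95 2 (.s k112 k96 3 (.s k101 k79 6 (.d k117 k122 k69 2 3)))),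
  (.s k96 k112 3 (.s k48 k144 11 (.s k32 k16 3 (.d k160 k224 k240 7 11)))), (.s k90 k95 2 (.s k150
  k210 9 (.s k20 k215 8 (.s k60 k40 5 (.s k15 k45 4 (.d k240 k160 k165 11 14))))))] .n) (.c k30 (.q
  k18 [(.s k90 k95 2 (.s k112 k96 3 (.s k101 k79 6 (.d k117 k122 k69 2 3)))), (.s k96 k112 3 (.s k48
  k144 11 (.s k32 k16 3 (.d k160 k224 k240 7 11)))), (.s k90 k95 2 (.s k240 k160 11 (.s k15 k165 14
  (.s k10 k5 2 (.s k74 k133 10 (.s k69 k79 2 (.d k138 k202 k207 7 10)))))))] .n) .n)))))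

def s26_255_23 : T TT 256 :=
  (.q k65 [(.s k66 k67 0 (.s k192 k128 7 (.s k3 k129 8 (.s k2 k1 0 (.d k130 k194 k195 7 8))))), (.s
  k67 k66 0 (.s k105 k125 5 (.s k86 k124 6 (.s k87 k84 0 (.d k127 k107 k106 5 6))))), (.s k105 k125
  5 (.s k106 k127 6 (.s k107 k104 0 (.s k192 k128 7 (.s k63 k149 14 (.d k195 k130 k151 8 13))))))]
  .n)

def s26_255_24 : T TT 256 :=
  (.f k127 k106 6 (.f k192 k128 7 (.q k65 [(.s k66 k67 0 (.s k3 k129 8 (.s k2 k1 0 (.d k130 k194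
  k195 7 8)))), (.s k67 k66 0 (.s k87 k107 5 (.s k86 k84 0 (.d k105 k125 k124 5 6)))), (.s k105 k125
  5 (.s k195 k130 8 (.s k60 k150 14 (.s k40 k20 5 (.s k104 k148 13 (.s k84 k124 5 (.d k168 k232 k252
  7 13)))))))] (.c k25 (.q k27 [(.s k66 k67 0 (.s k3 k129 8 (.s k2 k1 0 (.d k130 k194 k195 7 8)))),
  (.s k67 k66 0 (.s k87 k107 5 (.s k86 k84 0 (.d k105 k125 k124 5 6)))), (.s k105 k125 5 (.s k195
  k130 8 (.s k60 k150 14 (.s k40 k20 5 (.s k104 k148 13 (.s k84 k124 5 (.d k168 k232 k252 7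
  13)))))))] .n) (.c k27 (.q k25 [(.s k66 k67 0 (.s k3 k129 8 (.s k2 k1 0 (.d k130 k194 k195 7
  8)))), (.s k67 k66 0 (.s k87 k107 5 (.s k86 k84 0 (.d k105 k125 k124 5 6)))), (.s k105 k125 5 (.s
  k195 k130 8 (.s k60 k150 14 (.s k40 k20 5 (.s k104 k148 13 (.s k84 k124 5 (.d k168 k232 k252 7
  13)))))))] .n) .n)))))

def s26_255_25 : T TT 256 :=
  (.f k127 k106 6 (.f k192 k128 7 (.q k80 [(.s k90 k95 2 (.s k112 k96 3 (.s k101 k79 6 (.d k117 k122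
  k69 2 3)))), (.s k96 k112 3 (.s k48 k144 11 (.s k32 k16 3 (.d k160 k224 k240 7 11)))), (.s k90 k95
  2 (.s k240 k160 11 (.s k15 k165 14 (.s k10 k5 2 (.s k74 k133 10 (.s k69 k79 2 (.d k138 k202 k207 7
  10)))))))] (.c k24 (.q k27 [(.s k90 k95 2 (.s k112 k96 3 (.s k101 k79 6 (.d k117 k122 k69 2 3)))),
  (.s k96 k112 3 (.s k48 k144 11 (.s k32 k16 3 (.d k160 k224 k240 7 11)))), (.s k90 k95 2 (.s k153
  k216 8 (.s k17 k221 9 (.s k51 k34 4 (.s k15 k39 5 (.d k240 k160 k165 11 14))))))] .n) (.c k27 (.q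
  k24 [(.s k90 k95 2 (.s k112 k96 3 (.s k101 k79 6 (.d k117 k122 k69 2 3)))), (.s k96 k112 3 (.s k48
  k144 11 (.s k32 k16 3 (.d k160 k224 k240 7 11)))), (.s k90 k95 2 (.s k240 k160 11 (.s k15 k165 14
  (.s k10 k5 2 (.s k74 k133 10 (.s k69 k79 2 (.d k138 k202 k207 7 10)))))))] .n) .n)))))

def s26_255_27 : T TT 256 :=
  (.f k127 k106 6 (.f k192 k128 7 (.q k80 [(.s k90 k95 2 (.s k112 k96 3 (.s k101 k79 6 (.d k117 k122
  k69 2 3)))), (.s k96 k112 3 (.s k48 k144 11 (.s k32 k16 3 (.d k160 k224 k240 7 11)))), (.s k90 k95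
  2 (.s k240 k160 11 (.s k15 k165 14 (.s k10 k5 2 (.s k74 k133 10 (.s k69 k79 2 (.d k138 k202 k207 7
  10)))))))] (.c k24 (.q k25 [(.s k90 k95 2 (.s k112 k96 3 (.s k101 k79 6 (.d k117 k122 k69 2 3)))),
  (.s k96 k112 3 (.s k48 k144 11 (.s k32 k16 3 (.d k160 k224 k240 7 11)))), (.s k90 k95 2 (.s k240
  k160 11 (.s k15 k165 14 (.s k10 k5 2 (.s k74 k133 10 (.s k69 k79 2 (.d k138 k202 k207 7 10)))))))]
  .n) (.c k25 (.q k24 [(.s k90 k95 2 (.s k112 k96 3 (.s k101 k79 6 (.d k117 k122 k69 2 3)))), (.s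
  k96 k112 3 (.s k48 k144 11 (.s k32 k16 3 (.d k160 k224 k240 7 11)))), (.s k90 k95 2 (.s k240 k160
  11 (.s k15 k165 14 (.s k10 k5 2 (.s k74 k133 10 (.s k69 k79 2 (.d k138 k202 k207 7 10)))))))] .n)
  .n)))))

def s26_255_28 : T TT 256 :=
  (.q k65 [(.s k66 k67 0 (.s k192 k128 7 (.s k3 k129 8 (.s k2 k1 0 (.d k130 k194 k195 7 8))))), (.s
  k67 k66 0 (.s k105 k125 5 (.s k86 k124 6 (.s k87 k84 0 (.d k127 k107 k106 5 6))))), (.s k105 k125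
  5 (.s k106 k127 6 (.s k107 k104 0 (.s k192 k128 7 (.s k63 k149 14 (.d k195 k130 k151 8 13))))))]
  .n)

def s26_255_29 : T TT 256 :=
  (.q k65 [(.s k66 k67 0 (.s k192 k128 7 (.s k3 k129 8 (.s k2 k1 0 (.d k130 k194 k195 7 8))))), (.s
  k67 k66 0 (.s k105 k125 5 (.s k86 k124 6 (.s k87 k84 0 (.d k127 k107 k106 5 6))))), (.s k105 k125
  5 (.s k106 k127 6 (.s k107 k104 0 (.s k192 k128 7 (.s k63 k149 14 (.d k195 k130 k151 8 13))))))]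
  .n)

def s26_255_30 : T TT 256 :=
  (.f k127 k106 6 (.f k192 k128 7 (.q k80 [(.s k90 k95 2 (.s k112 k96 3 (.s k101 k79 6 (.d k117 k122
  k69 2 3)))), (.s k96 k112 3 (.s k48 k144 11 (.s k32 k16 3 (.d k160 k224 k240 7 11)))), (.s k90 k95
  2 (.s k240 k160 11 (.s k15 k165 14 (.s k10 k5 2 (.s k74 k133 10 (.s k69 k79 2 (.d k138 k202 k207 7
  10)))))))] (.c k18 (.q k22 [(.s k90 k95 2 (.s k112 k96 3 (.s k101 k79 6 (.d k117 k122 k69 2 3)))),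
  (.s k96 k112 3 (.s k48 k144 11 (.s k32 k16 3 (.d k160 k224 k240 7 11)))), (.s k90 k95 2 (.s k240
  k160 11 (.s k15 k165 14 (.s k10 k5 2 (.s k74 k133 10 (.s k69 k79 2 (.d k138 k202 k207 7 10)))))))]
  .n) (.c k22 (.q k18 [(.s k90 k95 2 (.s k112 k96 3 (.s k101 k79 6 (.d k117 k122 k69 2 3)))), (.s
  k96 k112 3 (.s k48 k144 11 (.s k32 k16 3 (.d k160 k224 k240 7 11)))), (.s k90 k95 2 (.s k240 k160
  11 (.s k15 k165 14 (.s k10 k5 2 (.s k74 k133 10 (.s k69 k79 2 (.d k138 k202 k207 7 10)))))))] .n)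
  .n)))))

def s26_255_31 : T TT 256 :=
  (.f k192 k128 7 (.q k48 [(.s k96 k144 11 (.s k80 k112 3 (.s k160 k240 11 (.d k32 k16 k224 3 7)))),
  (.s k16 k32 3 (.s k106 k127 6 (.s k63 k149 14 (.s k58 k53 2 (.d k154 k223 k202 10 11)))))] (.c k16
  (.q k21 [(.s k106 k127 6 (.d k63 k42 k149 6 14)), (.s k144 k96 11 (.s k149 k213 7 (.s k154 k159 2
  (.s k207 k101 14 (.s k202 k197 2 (.d k106 k127 k58 6 11)))))), (.s k63 k42 6 (.s k144 k96 11 (.s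
  k149 k213 7 (.s k154 k159 2 (.s k101 k207 14 (.d k53 k58 k197 2 11))))))] (.c k149 (.l (.s k96
  k144 11 (.s k106 k127 6 (.s k101 k111 2 (.s k69 k117 3 (.d k207 k154 k138 14 10)))))) .n)) (.c k21
  (.l (.s k16 k32 3 (.s k96 k144 11 (.s k106 k127 6 (.s k101 k111 2 (.d k154 k223 k207 10 14))))))
  (.c k32 (.l (.s k96 k144 11 (.s k106 k127 6 (.s k101 k111 2 (.s k69 k117 3 (.d k207 k138 k154 10
  14)))))) .n)))))

def s26_255_32 : T TT 256 :=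
  (.q k65 [(.s k66 k67 0 (.s k192 k128 7 (.s k3 k129 8 (.s k2 k1 0 (.d k130 k194 k195 7 8))))), (.s
  k67 k66 0 (.s k105 k125 5 (.s k86 k124 6 (.s k87 k84 0 (.d k127 k107 k106 5 6))))), (.s k105 k125
  5 (.s k106 k127 6 (.s k107 k104 0 (.s k192 k128 7 (.s k63 k149 14 (.d k195 k130 k151 8 13))))))]
  .n)

def s26_255_33 : T TT 256 :=
  (.q k65 [(.s k67 k66 0 (.s k105 k125 5 (.s k86 k124 6 (.s k87 k84 0 (.d k127 k107 k106 5 6))))),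
  (.s k66 k67 0 (.s k130 k195 8 (.s k2 k194 7 (.s k3 k1 0 (.d k192 k128 k129 7 8))))), (.s k105 k125
  5 (.s k106 k127 6 (.s k107 k104 0 (.s k192 k128 7 (.s k63 k149 14 (.d k195 k130 k151 8 13))))))]
  .n)

def s26_255_34 : T TT 256 :=
  (.q k65 [(.s k66 k67 0 (.s k192 k128 7 (.s k3 k129 8 (.s k2 k1 0 (.d k130 k194 k195 7 8))))), (.s
  k67 k66 0 (.s k105 k125 5 (.s k86 k124 6 (.s k87 k84 0 (.d k127 k107 k106 5 6))))), (.s k105 k125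
  5 (.s k106 k127 6 (.s k107 k104 0 (.s k192 k128 7 (.s k63 k149 14 (.d k195 k130 k151 8 13))))))]
  .n)

def s26_255_35 : T TT 256 :=
  (.q k65 [(.s k66 k67 0 (.s k192 k128 7 (.s k3 k129 8 (.s k2 k1 0 (.d k130 k194 k195 7 8))))), (.s
  k67 k66 0 (.s k105 k125 5 (.s k86 k124 6 (.s k87 k84 0 (.d k127 k107 k106 5 6))))), (.s k105 k125
  5 (.s k106 k127 6 (.s k107 k104 0 (.s k192 k128 7 (.s k63 k149 14 (.d k195 k130 k151 8 13))))))]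
  .n)

def s26_255_36 : T TT 256 :=
  (.q k65 [(.s k66 k67 0 (.s k192 k128 7 (.s k3 k129 8 (.s k2 k1 0 (.d k130 k194 k195 7 8))))), (.s
  k67 k66 0 (.s k105 k125 5 (.s k86 k124 6 (.s k87 k84 0 (.d k127 k107 k106 5 6))))), (.s k105 k125
  5 (.s k106 k127 6 (.s k107 k104 0 (.s k192 k128 7 (.s k63 k149 14 (.d k195 k130 k151 8 13))))))]
  .n)

def s26_255_37 : T TT 256 :=
  (.f k192 k128 7 (.q k15 [(.s k74 k133 10 (.s k69 k79 2 (.s k138 k207 10 (.d k10 k5 k202 2 7)))),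
  (.s k5 k10 2 (.s k106 k127 6 (.s k63 k149 14 (.s k47 k31 3 (.d k165 k224 k245 10 11))))), (.s k74
  k133 10 (.s k106 k127 6 (.s k90 k122 3 (.s k80 k95 2 (.d k240 k160 k165 11 14)))))] .n))

def s26_255_38 : T TT 256 :=
  (.f k127 k106 6 (.f k192 k128 7 (.q k80 [(.s k90 k95 2 (.s k112 k96 3 (.s k101 k79 6 (.d k117 k122
  k69 2 3)))), (.s k96 k112 3 (.s k48 k144 11 (.s k32 k16 3 (.d k160 k224 k240 7 11)))), (.s k90 k95
  2 (.s k240 k160 11 (.s k15 k165 14 (.s k10 k5 2 (.s k74 k133 10 (.s k69 k79 2 (.d k138 k202 k207 7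
  10)))))))] (.c k14 (.q k50 [(.s k90 k95 2 (.s k112 k96 3 (.s k101 k79 6 (.d k117 k122 k69 2 3)))),
  (.s k96 k112 3 (.s k48 k144 11 (.s k32 k16 3 (.d k160 k224 k240 7 11)))), (.s k90 k95 2 (.s k240
  k160 11 (.s k15 k165 14 (.s k10 k5 2 (.s k74 k133 10 (.s k69 k79 2 (.d k138 k202 k207 7 10)))))))]
  .n) (.c k50 (.q k14 [(.s k90 k95 2 (.s k112 k96 3 (.s k101 k79 6 (.d k117 k122 k69 2 3)))), (.s
  k96 k112 3 (.s k48 k144 11 (.s k32 k16 3 (.d k160 k224 k240 7 11)))), (.s k90 k95 2 (.s k166 k242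
  13 (.s k4 k247 12 (.s k12 k8 1 (.s k15 k13 0 (.d k240 k160 k165 11 14))))))] .n) .n)))))

def s26_255_39 : T TT 256 :=
  (.q k65 [(.s k66 k67 0 (.s k192 k128 7 (.s k3 k129 8 (.s k2 k1 0 (.d k130 k194 k195 7 8))))), (.s
  k67 k66 0 (.s k105 k125 5 (.s k86 k124 6 (.s k87 k84 0 (.d k127 k107 k106 5 6))))), (.s k105 k125
  5 (.s k106 k127 6 (.s k107 k104 0 (.s k192 k128 7 (.s k63 k149 14 (.d k195 k130 k151 8 13))))))]
  .n)

def s26_255_40 : T TT 256 :=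
  (.q k65 [(.s k66 k67 0 (.s k192 k128 7 (.s k3 k129 8 (.s k2 k1 0 (.d k130 k194 k195 7 8))))), (.s
  k67 k66 0 (.s k105 k125 5 (.s k86 k124 6 (.s k87 k84 0 (.d k127 k107 k106 5 6))))), (.s k105 k125
  5 (.s k106 k127 6 (.s k107 k104 0 (.s k192 k128 7 (.s k63 k149 14 (.d k195 k130 k151 8 13))))))]
  .n)

def s26_255_41 : T TT 256 :=
  (.f k127 k106 6 (.f k192 k128 7 (.q k80 [(.s k90 k95 2 (.s k112 k96 3 (.s k101 k79 6 (.d k117 k122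
  k69 2 3)))), (.s k96 k112 3 (.s k48 k144 11 (.s k32 k16 3 (.d k160 k224 k240 7 11)))), (.s k90 k95
  2 (.s k240 k160 11 (.s k15 k165 14 (.s k10 k5 2 (.s k74 k133 10 (.s k69 k79 2 (.d k138 k202 k207 7
  10)))))))] (.c k11 (.q k56 [(.s k90 k95 2 (.s k112 k96 3 (.s k101 k79 6 (.d k117 k122 k69 2 3)))),
  (.s k96 k112 3 (.s k48 k144 11 (.s k32 k16 3 (.d k160 k224 k240 7 11)))), (.s k90 k95 2 (.s k240
  k160 11 (.s k15 k165 14 (.s k10 k5 2 (.s k74 k133 10 (.s k69 k79 2 (.d k138 k202 k207 7 10)))))))]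
  .n) (.c k56 (.q k11 [(.s k90 k95 2 (.s k112 k96 3 (.s k101 k79 6 (.d k117 k122 k69 2 3)))), (.s
  k96 k112 3 (.s k48 k144 11 (.s k32 k16 3 (.d k160 k224 k240 7 11)))), (.s k90 k95 2 (.s k169 k248
  12 (.s k1 k253 13 (.s k3 k2 0 (.s k15 k7 1 (.d k240 k160 k165 11 14))))))] .n) .n)))))

def s26_255_42 : T TT 256 :=
  (.f k192 k128 7 (.f k106 k127 6 (.f k63 k149 14 (.q k58 [(.s k48 k53 2 (.s k154 k202 11 (.d k16
  k32 k223 3 10))), (.s k48 k53 2 (.s k96 k144 11 (.s k101 k111 2 (.d k154 k202 k207 11 14)))), (.s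
  k154 k202 11 (.s k16 k223 10 (.s k48 k32 3 (.s k96 k144 11 (.d k101 k207 k111 14 2))))), (.s k48
  k53 2 (.s k16 k32 3 (.s k144 k96 11 (.s k80 k208 7 (.s k90 k95 2 (.s k122 k74 3 (.d k240 k160 k181
  11 10)))))))] (.c k48 (.f k202 k154 11 (.l (.s k207 k197 2 (.s k138 k69 10 (.s k74 k10 7 (.s k90
  k122 3 (.s k80 k95 2 (.s k240 k160 11 (.d k15 k133 k165 10 14))))))))) (.c k101 (.l (.s k154 k202
  11 (.s k16 k223 10 (.d k48 k53 k32 2 3)))) (.c k170 (.q k191 [(.s k48 k53 2 (.s k154 k202 11 (.d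
  k16 k32 k223 3 10))), (.s k202 k154 11 (.s k207 k197 2 (.s k138 k69 10 (.s k10 k74 7 (.s k159 k111
  11 (.s k143 k175 3 (.d k15 k5 k79 2 7))))))), (.s k154 k202 11 (.s k16 k223 10 (.s k48 k32 3 (.s
  k96 k144 11 (.d k101 k207 k111 14 2))))), (.s k48 k53 2 (.s k16 k32 3 (.s k144 k96 11 (.s k80 k208
  7 (.s k90 k95 2 (.s k122 k74 3 (.d k240 k160 k181 11 10)))))))] (.c k101 (.l (.s k154 k202 11 (.s
  k16 k223 10 (.d k48 k53 k32 2 3)))) .n)) (.c k191 (.q k170 [(.s k48 k53 2 (.s k154 k202 11 (.d k16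
  k32 k223 3 10))), (.s k154 k202 11 (.s k186 k138 3 (.s k122 k250 7 (.s k240 k181 10 (.s k80 k160
  11 (.d k90 k74 k95 3 2)))))), (.s k48 k53 2 (.s k32 k16 3 (.s k101 k239 10 (.d k96 k111 k144 2
  11))))] .n) .n))))))))

def s26_255_43 : T TT 256 :=
  (.q k65 [(.s k66 k67 0 (.s k192 k128 7 (.s k3 k129 8 (.s k2 k1 0 (.d k130 k194 k195 7 8))))), (.s
  k67 k66 0 (.s k105 k125 5 (.s k86 k124 6 (.s k87 k84 0 (.d k127 k107 k106 5 6))))), (.s k105 k125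
  5 (.s k106 k127 6 (.s k107 k104 0 (.s k192 k128 7 (.s k63 k149 14 (.d k195 k130 k151 8 13))))))]
  .n)

def s26_255_44 : T TT 256 :=
  (.q k65 [(.s k66 k67 0 (.s k192 k128 7 (.s k3 k129 8 (.s k2 k1 0 (.d k130 k194 k195 7 8))))), (.s
  k67 k66 0 (.s k105 k125 5 (.s k86 k124 6 (.s k87 k84 0 (.d k127 k107 k106 5 6))))), (.s k105 k125
  5 (.s k106 k127 6 (.s k107 k104 0 (.s k192 k128 7 (.s k63 k149 14 (.d k195 k130 k151 8 13))))))]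
  .n)

def s26_255_45 : T TT 256 :=
  (.q k65 [(.s k66 k67 0 (.s k192 k128 7 (.s k3 k129 8 (.s k2 k1 0 (.d k130 k194 k195 7 8))))), (.s
  k67 k66 0 (.s k105 k125 5 (.s k86 k124 6 (.s k87 k84 0 (.d k127 k107 k106 5 6))))), (.s k105 k125
  5 (.s k106 k127 6 (.s k107 k104 0 (.s k192 k128 7 (.s k63 k149 14 (.d k195 k130 k151 8 13))))))]
  .n)

def s26_255_46 : T TT 256 :=
  (.q k65 [(.s k66 k67 0 (.s k192 k128 7 (.s k3 k129 8 (.s k2 k1 0 (.d k130 k194 k195 7 8))))), (.s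
  k67 k66 0 (.s k105 k125 5 (.s k86 k124 6 (.s k87 k84 0 (.d k127 k107 k106 5 6))))), (.s k105 k125
  5 (.s k106 k127 6 (.s k107 k104 0 (.s k192 k128 7 (.s k63 k149 14 (.d k195 k130 k151 8 13))))))]
  .n)

def s26_255_47 : T TT 256 :=
  (.q k65 [(.s k66 k67 0 (.s k192 k128 7 (.s k3 k129 8 (.s k2 k1 0 (.d k130 k194 k195 7 8))))), (.s
  k67 k66 0 (.s k105 k125 5 (.s k86 k124 6 (.s k87 k84 0 (.d k127 k107 k106 5 6))))), (.s k105 k125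
  5 (.s k106 k127 6 (.s k107 k104 0 (.s k192 k128 7 (.s k63 k149 14 (.d k195 k130 k151 8 13))))))]
  .n)

def s26_255_48 : T TT 256 :=
  (.f k192 k128 7 (.q k15 [(.s k10 k5 2 (.s k74 k133 10 (.s k69 k79 2 (.d k138 k202 k207 7 10)))),
  (.s k5 k10 2 (.s k106 k127 6 (.s k63 k149 14 (.s k47 k31 3 (.d k165 k224 k245 10 11))))), (.s k74
  k133 10 (.s k106 k127 6 (.s k90 k122 3 (.s k80 k95 2 (.d k240 k160 k165 11 14)))))] (.c k117 (.q
  k186 [(.s k10 k5 2 (.s k74 k133 10 (.s k69 k79 2 (.d k138 k202 k207 7 10)))), (.s k5 k10 2 (.s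
  k106 k127 6 (.s k63 k149 14 (.s k47 k31 3 (.d k165 k224 k245 10 11)))))] (.c k5 (.l (.s k74 k133
  10 (.s k69 k79 2 (.s k106 k127 6 (.s k138 k207 10 (.s k154 k170 3 (.d k202 k10 k58 7 11))))))) (.c
  k10 (.l (.s k74 k133 10 (.s k79 k69 2 (.s k106 k127 6 (.s k90 k122 3 (.s k112 k101 6 (.d k80 k95
  k96 2 3))))))) .n))) (.c k186 (.q k117 [(.s k69 k101 3 (.d k74 k79 k133 2 10)), (.s k5 k10 2 (.s
  k74 k133 10 (.s k106 k127 6 (.s k90 k122 3 (.d k165 k245 k240 11 14)))))] (.c k74 (.l (.s k5 k10 2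
  (.s k69 k101 3 (.s k197 k133 7 (.d k207 k202 k138 2 10))))) (.c k133 (.l (.s k69 k101 3 (.s k79
  k74 2 (.d k207 k143 k138 7 10)))) .n))) .n))))

def s26_255_49 : T TT 256 :=
  (.q k65 [(.s k67 k66 0 (.s k105 k125 5 (.s k86 k124 6 (.s k87 k84 0 (.d k127 k107 k106 5 6))))),
  (.s k66 k67 0 (.s k130 k195 8 (.s k2 k194 7 (.s k3 k1 0 (.d k192 k128 k129 7 8))))), (.s k105 k125
  5 (.s k106 k127 6 (.s k107 k104 0 (.s k192 k128 7 (.s k63 k149 14 (.d k195 k130 k151 8 13))))))]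
  .n)

def s26_255_50 : T TT 256 :=
  (.f k127 k106 6 (.f k192 k128 7 (.q k80 [(.s k90 k95 2 (.s k112 k96 3 (.s k101 k79 6 (.d k117 k122
  k69 2 3)))), (.s k96 k112 3 (.s k48 k144 11 (.s k32 k16 3 (.d k160 k224 k240 7 11)))), (.s k90 k95
  2 (.s k240 k160 11 (.s k15 k165 14 (.s k10 k5 2 (.s k74 k133 10 (.s k69 k79 2 (.d k138 k202 k207 7
  10)))))))] (.c k14 (.q k38 [(.s k90 k95 2 (.s k112 k96 3 (.s k101 k79 6 (.d k117 k122 k69 2 3)))),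
  (.s k96 k112 3 (.s k48 k144 11 (.s k32 k16 3 (.d k160 k224 k240 7 11)))), (.s k90 k95 2 (.s k240
  k160 11 (.s k15 k165 14 (.s k10 k5 2 (.s k74 k133 10 (.s k69 k79 2 (.d k138 k202 k207 7 10)))))))]
  .n) (.c k38 (.q k14 [(.s k90 k95 2 (.s k112 k96 3 (.s k101 k79 6 (.d k117 k122 k69 2 3)))), (.s
  k96 k112 3 (.s k48 k144 11 (.s k32 k16 3 (.d k160 k224 k240 7 11)))), (.s k90 k95 2 (.s k166 k242
  13 (.s k4 k247 12 (.s k12 k8 1 (.s k15 k13 0 (.d k240 k160 k165 11 14))))))] .n) .n)))))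

def s26_255_51 : T TT 256 :=
  (.f k192 k128 7 (.q k68 [(.s k72 k76 1 (.s k12 k132 9 (.s k8 k4 1 (.d k136 k200 k204 7 9)))), (.s
  k76 k72 1 (.s k127 k106 6 (.s k93 k110 4 (.s k89 k81 1 (.d k102 k119 k115 4 6))))), (.s k106 k127
  6 (.s k63 k149 14 (.s k204 k136 9 (.s k110 k157 12 (.d k102 k119 k98 4 1)))))] (.c k119 (.q k187
  [(.s k72 k76 1 (.s k12 k132 9 (.s k8 k4 1 (.d k136 k200 k204 7 9)))), (.s k106 k127 6 (.s k63 k149
  14 (.s k42 k21 6 (.s k136 k204 9 (.d k170 k153 k234 4 7)))))] (.c k136 (.l (.s k72 k76 1 (.s k106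
  k127 6 (.s k132 k12 9 (.s k4 k196 7 (.s k166 k247 12 (.d k149 k183 k63 4 14))))))) (.c k204 (.l
  (.s k72 k76 1 (.s k12 k132 9 (.s k4 k8 1 (.s k106 k127 6 (.s k166 k247 12 (.d k89 k123 k243 4
  14))))))) .n))) (.c k187 (.l (.s k119 k102 4 (.s k72 k76 1 (.s k12 k132 9 (.s k8 k4 1 (.d k136
  k204 k200 9 7)))))) .n))))

def s26_255_52 : T TT 256 :=
  (.q k65 [(.s k66 k67 0 (.s k192 k128 7 (.s k3 k129 8 (.s k2 k1 0 (.d k130 k194 k195 7 8))))), (.s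
  k67 k66 0 (.s k105 k125 5 (.s k86 k124 6 (.s k87 k84 0 (.d k127 k107 k106 5 6))))), (.s k105 k125
  5 (.s k106 k127 6 (.s k107 k104 0 (.s k192 k128 7 (.s k63 k149 14 (.d k195 k130 k151 8 13))))))]
  .n)

def s26_255_53 : T TT 256 :=
  (.q k65 [(.s k66 k67 0 (.s k192 k128 7 (.s k3 k129 8 (.s k2 k1 0 (.d k130 k194 k195 7 8))))), (.s
  k67 k66 0 (.s k105 k125 5 (.s k86 k124 6 (.s k87 k84 0 (.d k127 k107 k106 5 6))))), (.s k105 k125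
  5 (.s k106 k127 6 (.s k107 k104 0 (.s k192 k128 7 (.s k63 k149 14 (.d k195 k130 k151 8 13))))))]
  .n)

def s26_255_54 : T TT 256 :=
  (.q k65 [(.s k66 k67 0 (.s k192 k128 7 (.s k3 k129 8 (.s k2 k1 0 (.d k130 k194 k195 7 8))))), (.s
  k67 k66 0 (.s k105 k125 5 (.s k86 k124 6 (.s k87 k84 0 (.d k127 k107 k106 5 6))))), (.s k105 k125
  5 (.s k106 k127 6 (.s k107 k104 0 (.s k192 k128 7 (.s k63 k149 14 (.d k195 k130 k151 8 13))))))]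
  .n)

def s26_255_55 : T TT 256 :=
  (.q k65 [(.s k66 k67 0 (.s k192 k128 7 (.s k3 k129 8 (.s k2 k1 0 (.d k130 k194 k195 7 8))))), (.s
  k67 k66 0 (.s k105 k125 5 (.s k86 k124 6 (.s k87 k84 0 (.d k127 k107 k106 5 6))))), (.s k105 k125
  5 (.s k106 k127 6 (.s k107 k104 0 (.s k192 k128 7 (.s k63 k149 14 (.d k195 k130 k151 8 13))))))]
  .n)

def s26_255_56 : T TT 256 :=
  (.f k127 k106 6 (.f k192 k128 7 (.q k80 [(.s k90 k95 2 (.s k112 k96 3 (.s k101 k79 6 (.d k117 k122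
  k69 2 3)))), (.s k96 k112 3 (.s k48 k144 11 (.s k32 k16 3 (.d k160 k224 k240 7 11)))), (.s k90 k95
  2 (.s k240 k160 11 (.s k15 k165 14 (.s k10 k5 2 (.s k74 k133 10 (.s k69 k79 2 (.d k138 k202 k207 7
  10)))))))] (.c k11 (.q k41 [(.s k90 k95 2 (.s k112 k96 3 (.s k101 k79 6 (.d k117 k122 k69 2 3)))),
  (.s k96 k112 3 (.s k48 k144 11 (.s k32 k16 3 (.d k160 k224 k240 7 11)))), (.s k90 k95 2 (.s k240
  k160 11 (.s k15 k165 14 (.s k10 k5 2 (.s k74 k133 10 (.s k69 k79 2 (.d k138 k202 k207 7 10)))))))]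
  .n) (.c k41 (.q k11 [(.s k90 k95 2 (.s k112 k96 3 (.s k101 k79 6 (.d k117 k122 k69 2 3)))), (.s
  k96 k112 3 (.s k48 k144 11 (.s k32 k16 3 (.d k160 k224 k240 7 11)))), (.s k90 k95 2 (.s k169 k248
  12 (.s k1 k253 13 (.s k3 k2 0 (.s k15 k7 1 (.d k240 k160 k165 11 14))))))] .n) .n)))))

def s26_255_57 : T TT 256 :=
  (.q k65 [(.s k66 k67 0 (.s k192 k128 7 (.s k3 k129 8 (.s k2 k1 0 (.d k130 k194 k195 7 8))))), (.s
  k67 k66 0 (.s k105 k125 5 (.s k86 k124 6 (.s k87 k84 0 (.d k127 k107 k106 5 6))))), (.s k105 k125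
  5 (.s k106 k127 6 (.s k107 k104 0 (.s k192 k128 7 (.s k63 k149 14 (.d k195 k130 k151 8 13))))))]
  .n)

def s26_255_58 : T TT 256 :=
  (.f k192 k128 7 (.q k15 [(.s k10 k5 2 (.s k74 k133 10 (.s k69 k79 2 (.d k138 k202 k207 7 10)))),
  (.s k106 k127 6 (.s k63 k149 14 (.s k47 k31 3 (.s k165 k224 10 (.d k5 k10 k245 2 11)))))] (.c k5
  (.l (.s k74 k133 10 (.s k106 k127 6 (.s k90 k122 3 (.s k80 k95 2 (.d k240 k160 k165 11 14))))))
  (.c k10 (.q k42 [(.s k106 k127 6 (.d k63 k21 k149 6 14)), (.s k74 k133 10 (.s k106 k127 6 (.s k90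
  k122 3 (.s k80 k95 2 (.d k240 k160 k165 11 14))))), (.s k63 k21 6 (.s k31 k47 3 (.s k133 k74 10
  (.s k149 k106 14 (.s k90 k208 10 (.d k165 k181 k240 3 14))))))] (.c k63 (.f k74 k133 10 (.f k79
  k69 2 (.l (.s k127 k106 6 (.s k95 k111 3 (.s k80 k90 2 (.s k96 k112 3 (.s k48 k144 11 (.s k32 k16
  3 (.d k160 k224 k240 7 11)))))))))) (.c k106 (.l (.s k21 k63 6 (.s k133 k74 10 (.s k149 k213 7 (.s
  k165 k181 3 (.s k5 k245 11 (.s k53 k37 3 (.d k197 k69 k101 7 11)))))))) .n))) (.c k42 (.l (.s k10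
  k5 2 (.s k74 k133 10 (.s k69 k79 2 (.d k138 k202 k207 7 10))))) .n)))))

def s26_255_59 : T TT 256 :=
  (.q k65 [(.s k66 k67 0 (.s k192 k128 7 (.s k3 k129 8 (.s k2 k1 0 (.d k130 k194 k195 7 8))))), (.s
  k67 k66 0 (.s k105 k125 5 (.s k86 k124 6 (.s k87 k84 0 (.d k127 k107 k106 5 6))))), (.s k105 k125
  5 (.s k106 k127 6 (.s k107 k104 0 (.s k192 k128 7 (.s k63 k149 14 (.d k195 k130 k151 8 13))))))]
  .n)

def s26_255_60 : T TT 256 :=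
  (.f k192 k128 7 (.q k65 [(.s k66 k67 0 (.s k3 k129 8 (.s k2 k1 0 (.d k130 k194 k195 7 8)))), (.s
  k67 k66 0 (.s k127 k106 6 (.s k87 k107 5 (.s k86 k84 0 (.d k105 k125 k124 5 6))))), (.s k106 k127
  6 (.s k63 k149 14 (.s k195 k130 8 (.s k107 k151 13 (.d k105 k125 k104 5 0)))))] (.c k125 (.q k190
  [(.s k66 k67 0 (.s k3 k129 8 (.s k2 k1 0 (.d k130 k194 k195 7 8)))), (.s k106 k127 6 (.s k63 k149
  14 (.s k42 k21 6 (.s k130 k195 8 (.d k170 k150 k234 5 7)))))] (.c k130 (.l (.s k66 k67 0 (.s k106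
  k127 6 (.s k129 k3 8 (.s k1 k193 7 (.s k169 k253 13 (.d k149 k189 k63 5 14))))))) (.c k195 (.l (.s
  k66 k67 0 (.s k3 k129 8 (.s k1 k2 0 (.s k106 k127 6 (.s k169 k253 13 (.d k86 k126 k252 5 14)))))))
  .n))) (.c k190 (.l (.s k125 k105 5 (.s k66 k67 0 (.s k3 k129 8 (.s k2 k1 0 (.d k130 k195 k194 8
  7)))))) .n))))

def s26_255_61 : T TT 256 :=
  (.q k65 [(.s k66 k67 0 (.s k192 k128 7 (.s k3 k129 8 (.s k130 k195 8 (.d k2 k1 k194 0 7))))), (.s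
  k67 k66 0 (.s k105 k125 5 (.s k86 k124 6 (.s k87 k84 0 (.d k127 k107 k106 5 6))))), (.s k105 k125
  5 (.s k106 k127 6 (.s k107 k104 0 (.s k192 k128 7 (.s k63 k149 14 (.d k195 k130 k151 8 13))))))]
  .n)

def s26_255_62 : T TT 256 :=
  (.q k65 [(.s k66 k67 0 (.s k192 k128 7 (.s k3 k129 8 (.s k2 k1 0 (.d k130 k194 k195 7 8))))), (.s
  k67 k66 0 (.s k105 k125 5 (.s k86 k124 6 (.s k87 k84 0 (.d k127 k107 k106 5 6))))), (.s k105 k125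
  5 (.s k106 k127 6 (.s k107 k104 0 (.s k192 k128 7 (.s k63 k149 14 (.d k195 k130 k151 8 13))))))]
  .n)

def s26_255_63 : T TT 256 :=
  (.q k80 [(.s k90 k95 2 (.s k112 k96 3 (.s k79 k101 6 (.s k74 k69 2 (.d k106 k127 k122 6 3))))),
  (.s k96 k112 3 (.s k192 k128 7 (.s k48 k144 11 (.s k32 k16 3 (.d k160 k224 k240 7 11))))), (.s k90
  k95 2 (.s k192 k128 7 (.s k240 k160 11 (.s k15 k165 14 (.s k74 k133 10 (.d k106 k127 k122 6
  3))))))] (.c k127 (.q k191 [(.s k192 k128 7 (.s k240 k160 11 (.s k208 k224 3 (.s k144 k16 7 (.d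
  k96 k112 k48 3 11))))), (.s k90 k95 2 (.s k128 k192 7 (.s k240 k160 11 (.s k15 k165 14 (.s k10 k5
  2 (.d k170 k149 k250 6 11)))))), (.s k90 k95 2 (.s k112 k96 3 (.s k79 k101 6 (.s k69 k74 2 (.s
  k207 k138 10 (.s k240 k160 11 (.d k15 k143 k165 7 14))))))), (.s k90 k95 2 (.s k128 k192 7 (.s
  k149 k170 6 (.s k208 k31 10 (.s k16 k144 7 (.s k213 k21 7 (.d k223 k218 k154 2 10)))))))] .n) (.c
  k191 (.l (.s k127 k106 6 (.s k90 k95 2 (.s k112 k96 3 (.s k101 k79 6 (.d k117 k122 k69 2 3))))))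
  .n)))

def s26_255_65 : T TT 256 :=
  (.q k68 [(.s k72 k76 1 (.s k192 k128 7 (.s k12 k132 9 (.s k8 k4 1 (.d k136 k200 k204 7 9))))), (.s
  k76 k72 1 (.s k102 k119 4 (.s k89 k115 6 (.s k93 k81 1 (.d k127 k110 k106 4 6))))), (.s k102 k119
  4 (.s k106 k127 6 (.s k110 k98 1 (.s k192 k128 7 (.s k63 k149 14 (.d k204 k136 k157 9 12))))))]
  .n)

def s26_255_66 : T TT 256 :=
  (.q k68 [(.s k72 k76 1 (.s k192 k128 7 (.s k12 k132 9 (.s k8 k4 1 (.d k136 k200 k204 7 9))))), (.s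
  k76 k72 1 (.s k102 k119 4 (.s k89 k115 6 (.s k93 k81 1 (.d k127 k110 k106 4 6))))), (.s k102 k119
  4 (.s k106 k127 6 (.s k110 k98 1 (.s k192 k128 7 (.s k63 k149 14 (.d k204 k136 k157 9 12))))))]
  .n)

def s26_255_67 : T TT 256 :=
  (.q k68 [(.s k72 k76 1 (.s k192 k128 7 (.s k12 k132 9 (.s k8 k4 1 (.d k136 k200 k204 7 9))))), (.s
  k76 k72 1 (.s k102 k119 4 (.s k89 k115 6 (.s k93 k81 1 (.d k127 k110 k106 4 6))))), (.s k102 k119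
  4 (.s k106 k127 6 (.s k110 k98 1 (.s k192 k128 7 (.s k63 k149 14 (.d k204 k136 k157 9 12))))))]
  .n)

def s26_255_68 : T TT 256 :=
  (.q k65 [(.s k66 k67 0 (.s k192 k128 7 (.s k3 k129 8 (.s k2 k1 0 (.d k130 k194 k195 7 8))))), (.s
  k67 k66 0 (.s k105 k125 5 (.s k86 k124 6 (.s k87 k84 0 (.d k127 k107 k106 5 6))))), (.s k105 k125
  5 (.s k106 k127 6 (.s k107 k104 0 (.s k192 k128 7 (.s k63 k149 14 (.d k195 k130 k151 8 13))))))]
  .n)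

def s26_255_69 : T TT 256 :=
  (.q k65 [(.s k67 k66 0 (.s k105 k125 5 (.s k86 k124 6 (.s k87 k84 0 (.d k127 k107 k106 5 6))))),
  (.s k66 k67 0 (.s k130 k195 8 (.s k2 k194 7 (.s k3 k1 0 (.d k192 k128 k129 7 8))))), (.s k105 k125
  5 (.s k106 k127 6 (.s k107 k104 0 (.s k192 k128 7 (.s k63 k149 14 (.d k195 k130 k151 8 13))))))]
  .n)

def s26_255_70 : T TT 256 :=
  (.q k65 [(.s k66 k67 0 (.s k192 k128 7 (.s k3 k129 8 (.s k2 k1 0 (.d k130 k194 k195 7 8))))), (.s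
  k67 k66 0 (.s k105 k125 5 (.s k86 k124 6 (.s k87 k84 0 (.d k127 k107 k106 5 6))))), (.s k105 k125
  5 (.s k106 k127 6 (.s k107 k104 0 (.s k192 k128 7 (.s k63 k149 14 (.d k195 k130 k151 8 13))))))]
  .n)

def s26_255_71 : T TT 256 :=
  (.q k65 [(.s k67 k66 0 (.s k105 k125 5 (.s k86 k124 6 (.s k87 k84 0 (.d k127 k107 k106 5 6))))),
  (.s k66 k67 0 (.s k130 k195 8 (.s k2 k194 7 (.s k3 k1 0 (.d k192 k128 k129 7 8))))), (.s k105 k125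
  5 (.s k106 k127 6 (.s k107 k104 0 (.s k192 k128 7 (.s k63 k149 14 (.d k195 k130 k151 8 13))))))]
  .n)

def s26_255_72 : T TT 256 :=
  (.q k65 [(.s k66 k67 0 (.s k192 k128 7 (.s k3 k129 8 (.s k2 k1 0 (.d k130 k194 k195 7 8))))), (.s
  k67 k66 0 (.s k105 k125 5 (.s k86 k124 6 (.s k87 k84 0 (.d k127 k107 k106 5 6))))), (.s k105 k125
  5 (.s k106 k127 6 (.s k107 k104 0 (.s k192 k128 7 (.s k63 k149 14 (.d k195 k130 k151 8 13))))))]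
  .n)

def s26_255_73 : T TT 256 :=
  (.q k65 [(.s k67 k66 0 (.s k105 k125 5 (.s k86 k124 6 (.s k87 k84 0 (.d k127 k107 k106 5 6))))),
  (.s k66 k67 0 (.s k130 k195 8 (.s k2 k194 7 (.s k3 k1 0 (.d k192 k128 k129 7 8))))), (.s k105 k125
  5 (.s k106 k127 6 (.s k107 k104 0 (.s k192 k128 7 (.s k63 k149 14 (.d k195 k130 k151 8 13))))))]
  .n)

def s26_255_74 : T TT 256 :=
  (.q k65 [(.s k66 k67 0 (.s k192 k128 7 (.s k3 k129 8 (.s k2 k1 0 (.d k130 k194 k195 7 8))))), (.s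
  k67 k66 0 (.s k105 k125 5 (.s k86 k124 6 (.s k87 k84 0 (.d k127 k107 k106 5 6))))), (.s k105 k125
  5 (.s k106 k127 6 (.s k107 k104 0 (.s k192 k128 7 (.s k63 k149 14 (.d k195 k130 k151 8 13))))))]
  .n)

def s26_255_75 : T TT 256 :=
  (.q k65 [(.s k67 k66 0 (.s k105 k125 5 (.s k86 k124 6 (.s k87 k84 0 (.d k127 k107 k106 5 6))))),
  (.s k66 k67 0 (.s k130 k195 8 (.s k2 k194 7 (.s k3 k1 0 (.d k192 k128 k129 7 8))))), (.s k105 k125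
  5 (.s k106 k127 6 (.s k107 k104 0 (.s k192 k128 7 (.s k63 k149 14 (.d k195 k130 k151 8 13))))))]
  .n)

def s26_255_76 : T TT 256 :=
  (.q k65 [(.s k66 k67 0 (.s k192 k128 7 (.s k3 k129 8 (.s k2 k1 0 (.d k130 k194 k195 7 8))))), (.s
  k67 k66 0 (.s k105 k125 5 (.s k86 k124 6 (.s k87 k84 0 (.d k127 k107 k106 5 6))))), (.s k105 k125
  5 (.s k106 k127 6 (.s k107 k104 0 (.s k192 k128 7 (.s k63 k149 14 (.d k195 k130 k151 8 13))))))]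
  .n)

def s26_255_77 : T TT 256 :=
  (.q k65 [(.s k66 k67 0 (.s k192 k128 7 (.s k3 k129 8 (.s k2 k1 0 (.d k130 k194 k195 7 8))))), (.s
  k67 k66 0 (.s k105 k125 5 (.s k86 k124 6 (.s k87 k84 0 (.d k127 k107 k106 5 6))))), (.s k105 k125
  5 (.s k106 k127 6 (.s k107 k104 0 (.s k192 k128 7 (.s k63 k149 14 (.d k195 k130 k151 8 13))))))]
  .n)

def s26_255_78 : T TT 256 :=
  (.q k65 [(.s k66 k67 0 (.s k192 k128 7 (.s k3 k129 8 (.s k2 k1 0 (.d k130 k194 k195 7 8))))), (.s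
  k67 k66 0 (.s k105 k125 5 (.s k86 k124 6 (.s k87 k84 0 (.d k127 k107 k106 5 6))))), (.s k105 k125
  5 (.s k106 k127 6 (.s k107 k104 0 (.s k192 k128 7 (.s k63 k149 14 (.d k195 k130 k151 8 13))))))]
  .n)

def s26_255_79 : T TT 256 :=
  (.q k65 [(.s k66 k67 0 (.s k192 k128 7 (.s k3 k129 8 (.s k2 k1 0 (.d k130 k194 k195 7 8))))), (.s
  k67 k66 0 (.s k105 k125 5 (.s k86 k124 6 (.s k87 k84 0 (.d k127 k107 k106 5 6))))), (.s k105 k125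
  5 (.s k106 k127 6 (.s k107 k104 0 (.s k192 k128 7 (.s k63 k149 14 (.d k195 k130 k151 8 13))))))]
  .n)

def s26_255_80 : T TT 256 :=
  (.q k65 [(.s k66 k67 0 (.s k192 k128 7 (.s k3 k129 8 (.s k2 k1 0 (.d k130 k194 k195 7 8))))), (.s
  k67 k66 0 (.s k105 k125 5 (.s k86 k124 6 (.s k87 k84 0 (.d k127 k107 k106 5 6))))), (.s k105 k125
  5 (.s k106 k127 6 (.s k107 k104 0 (.s k192 k128 7 (.s k63 k149 14 (.d k195 k130 k151 8 13))))))]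
  .n)

def s26_255_81 : T TT 256 :=
  (.q k65 [(.s k67 k66 0 (.s k105 k125 5 (.s k86 k124 6 (.s k87 k84 0 (.d k127 k107 k106 5 6))))),
  (.s k66 k67 0 (.s k130 k195 8 (.s k2 k194 7 (.s k3 k1 0 (.d k192 k128 k129 7 8))))), (.s k105 k125
  5 (.s k106 k127 6 (.s k107 k104 0 (.s k192 k128 7 (.s k63 k149 14 (.d k195 k130 k151 8 13))))))]
  .n)

def s26_255_82 : T TT 256 :=
  (.q k65 [(.s k66 k67 0 (.s k192 k128 7 (.s k3 k129 8 (.s k2 k1 0 (.d k130 k194 k195 7 8))))), (.s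
  k67 k66 0 (.s k105 k125 5 (.s k86 k124 6 (.s k87 k84 0 (.d k127 k107 k106 5 6))))), (.s k105 k125
  5 (.s k106 k127 6 (.s k107 k104 0 (.s k192 k128 7 (.s k63 k149 14 (.d k195 k130 k151 8 13))))))]
  .n)

def s26_255_83 : T TT 256 :=
  (.q k65 [(.s k67 k66 0 (.s k105 k125 5 (.s k86 k124 6 (.s k87 k84 0 (.d k127 k107 k106 5 6))))),
  (.s k66 k67 0 (.s k130 k195 8 (.s k2 k194 7 (.s k3 k1 0 (.d k192 k128 k129 7 8))))), (.s k105 k125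
  5 (.s k106 k127 6 (.s k107 k104 0 (.s k192 k128 7 (.s k63 k149 14 (.d k195 k130 k151 8 13))))))]
  .n)

def s26_255_84 : T TT 256 :=
  (.q k65 [(.s k66 k67 0 (.s k192 k128 7 (.s k3 k129 8 (.s k2 k1 0 (.d k130 k194 k195 7 8))))), (.s
  k105 k125 5 (.s k106 k127 6 (.s k107 k104 0 (.s k195 k130 8 (.s k63 k151 13 (.s k21 k42 6 (.d k149
  k213 k192 7 14)))))))] (.c k130 (.l (.s k66 k67 0 (.s k105 k125 5 (.s k106 k127 6 (.s k192 k128 7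
  (.s k129 k3 8 (.s k193 k1 7 (.d k149 k63 k61 14 13)))))))) (.c k192 (.l (.s k67 k66 0 (.s k105
  k125 5 (.s k86 k124 6 (.s k195 k130 8 (.s k3 k131 7 (.s k169 k252 14 (.d k1 k2 k253 0 13))))))))
  (.c k195 (.l (.s k66 k67 0 (.s k106 k127 6 (.s k86 k126 5 (.s k192 k128 7 (.s k3 k129 8 (.s k1 k2
  0 (.d k169 k253 k252 13 14)))))))) .n))))

def s26_255_86 : T TT 256 :=
  (.q k68 [(.s k72 k76 1 (.s k192 k128 7 (.s k12 k132 9 (.s k8 k4 1 (.d k136 k200 k204 7 9))))), (.s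
  k76 k72 1 (.s k102 k119 4 (.s k89 k115 6 (.s k93 k81 1 (.d k127 k110 k106 4 6))))), (.s k102 k119
  4 (.s k106 k127 6 (.s k110 k98 1 (.s k192 k128 7 (.s k63 k149 14 (.d k204 k136 k157 9 12))))))]
  .n)

def s26_255_87 : T TT 256 :=
  (.f k192 k128 7 (.q k3 [(.s k2 k1 0 (.s k66 k129 8 (.s k130 k194 7 (.d k65 k67 k195 0 8)))), (.s
  k1 k2 0 (.s k106 k127 6 (.s k63 k149 14 (.s k43 k23 5 (.d k169 k232 k253 8 13))))), (.s k66 k129 8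
  (.s k106 k127 6 (.s k63 k149 14 (.s k43 k23 5 (.s k86 k126 5 (.d k169 k232 k252 8 14))))))] (.c
  k67 (.l (.s k1 k2 0 (.s k129 k66 8 (.s k169 k253 13 (.s k149 k189 5 (.d k106 k127 k63 6 14))))))
  .n)))

def s26_255_88 : T TT 256 :=
  (.q k65 [(.s k66 k67 0 (.s k192 k128 7 (.s k3 k129 8 (.s k2 k1 0 (.d k130 k194 k195 7 8))))), (.s
  k67 k66 0 (.s k105 k125 5 (.s k86 k124 6 (.s k87 k84 0 (.d k127 k107 k106 5 6))))), (.s k105 k125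
  5 (.s k106 k127 6 (.s k107 k104 0 (.s k192 k128 7 (.s k63 k149 14 (.d k195 k130 k151 8 13))))))]
  .n)

def s26_255_89 : T TT 256 :=
  (.q k65 [(.s k66 k67 0 (.s k192 k128 7 (.s k3 k129 8 (.s k2 k1 0 (.d k130 k194 k195 7 8))))), (.s
  k67 k66 0 (.s k105 k125 5 (.s k86 k124 6 (.s k87 k84 0 (.d k127 k107 k106 5 6))))), (.s k105 k125
  5 (.s k106 k127 6 (.s k107 k104 0 (.s k192 k128 7 (.s k63 k149 14 (.d k195 k130 k151 8 13))))))]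
  .n)

def s26_255_90 : T TT 256 :=
  (.f k192 k128 7 (.q k154 [(.s k16 k223 10 (.s k48 k32 3 (.s k106 k127 6 (.s k58 k202 11 (.d k63
  k53 k149 2 14))))), (.s k16 k223 10 (.s k48 k32 3 (.s k207 k101 14 (.s k69 k138 10 (.s k197 k202 2
  (.s k133 k5 7 (.d k74 k79 k15 2 10))))))), (.s k106 k127 6 (.s k202 k58 11 (.s k207 k197 2 (.s k69
  k138 10 (.d k101 k117 k48 3 14)))))] (.c k48 (.l (.s k106 k127 6 (.s k63 k149 14 (.s k42 k21 6 (.s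
  k170 k234 7 (.s k202 k58 11 (.s k207 k197 2 (.d k138 k186 k69 3 10)))))))) (.c k202 (.l (.s k16
  k223 10 (.s k48 k32 3 (.s k96 k144 11 (.s k106 k127 6 (.d k101 k207 k111 14 2)))))) (.c k207 (.l
  (.s k106 k127 6 (.s k58 k202 11 (.s k63 k149 14 (.s k48 k53 2 (.d k16 k32 k223 3 10)))))) .n)))))

def s26_255_91 : T TT 256 :=
  (.q k65 [(.s k66 k67 0 (.s k192 k128 7 (.s k3 k129 8 (.s k2 k1 0 (.d k130 k194 k195 7 8))))), (.s
  k67 k66 0 (.s k105 k125 5 (.s k86 k124 6 (.s k87 k84 0 (.d k127 k107 k106 5 6))))), (.s k105 k125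
  5 (.s k106 k127 6 (.s k107 k104 0 (.s k192 k128 7 (.s k63 k149 14 (.d k195 k130 k151 8 13))))))]
  .n)

def s26_255_92 : T TT 256 :=
  (.q k65 [(.s k66 k67 0 (.s k192 k128 7 (.s k3 k129 8 (.s k2 k1 0 (.d k130 k194 k195 7 8))))), (.s
  k67 k66 0 (.s k105 k125 5 (.s k86 k124 6 (.s k87 k84 0 (.d k127 k107 k106 5 6))))), (.s k105 k125
  5 (.s k106 k127 6 (.s k107 k104 0 (.s k192 k128 7 (.s k63 k149 14 (.d k195 k130 k151 8 13))))))]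
  .n)

def s26_255_93 : T TT 256 :=
  (.f k192 k128 7 (.q k12 [(.s k8 k4 1 (.s k72 k132 9 (.s k136 k200 7 (.d k68 k76 k204 1 9)))), (.s
  k4 k8 1 (.s k106 k127 6 (.s k63 k149 14 (.s k46 k29 4 (.d k166 k226 k247 9 12))))), (.s k72 k132 9
  (.s k106 k127 6 (.s k63 k149 14 (.s k46 k29 4 (.s k89 k123 4 (.d k166 k226 k243 9 14))))))] (.c
  k76 (.l (.s k4 k8 1 (.s k132 k72 9 (.s k166 k247 12 (.s k149 k183 4 (.d k106 k127 k63 6 14))))))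
  .n)))

def s26_255_94 : T TT 256 :=
  (.q k65 [(.s k66 k67 0 (.s k192 k128 7 (.s k3 k129 8 (.s k2 k1 0 (.d k130 k194 k195 7 8))))), (.s
  k67 k66 0 (.s k105 k125 5 (.s k86 k124 6 (.s k87 k84 0 (.d k127 k107 k106 5 6))))), (.s k105 k125
  5 (.s k106 k127 6 (.s k107 k104 0 (.s k192 k128 7 (.s k63 k149 14 (.d k195 k130 k151 8 13))))))]
  .n)

def s26_255_95 : T TT 256 :=
  (.f k192 k128 7 (.q k15 [(.s k10 k5 2 (.s k74 k133 10 (.s k138 k202 7 (.d k69 k79 k207 2 10)))),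
  (.s k5 k10 2 (.s k106 k127 6 (.s k63 k149 14 (.s k47 k31 3 (.d k165 k224 k245 10 11))))), (.s k74
  k133 10 (.s k106 k127 6 (.s k63 k149 14 (.s k47 k31 3 (.s k90 k122 3 (.d k165 k224 k240 10
  14))))))] (.c k79 (.l (.s k5 k10 2 (.s k133 k74 10 (.s k165 k245 11 (.s k149 k181 3 (.d k106 k127
  k63 6 14)))))) .n)))

def s26_255_96 : T TT 256 :=
  (.q k65 [(.s k66 k67 0 (.s k192 k128 7 (.s k3 k129 8 (.s k2 k1 0 (.d k130 k194 k195 7 8))))), (.s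
  k67 k66 0 (.s k105 k125 5 (.s k86 k124 6 (.s k87 k84 0 (.d k127 k107 k106 5 6))))), (.s k105 k125
  5 (.s k106 k127 6 (.s k107 k104 0 (.s k192 k128 7 (.s k63 k149 14 (.d k195 k130 k151 8 13))))))]
  .n)

def s26_255_97 : T TT 256 :=
  (.q k65 [(.s k67 k66 0 (.s k105 k125 5 (.s k86 k124 6 (.s k87 k84 0 (.d k127 k107 k106 5 6))))),
  (.s k66 k67 0 (.s k130 k195 8 (.s k2 k194 7 (.s k3 k1 0 (.d k192 k128 k129 7 8))))), (.s k105 k125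
  5 (.s k106 k127 6 (.s k107 k104 0 (.s k192 k128 7 (.s k63 k149 14 (.d k195 k130 k151 8 13))))))]
  .n)

def s26_255_98 : T TT 256 :=
  (.q k65 [(.s k66 k67 0 (.s k192 k128 7 (.s k3 k129 8 (.s k2 k1 0 (.d k130 k194 k195 7 8))))), (.s
  k67 k66 0 (.s k105 k125 5 (.s k86 k124 6 (.s k87 k84 0 (.d k127 k107 k106 5 6))))), (.s k105 k125
  5 (.s k106 k127 6 (.s k107 k104 0 (.s k192 k128 7 (.s k63 k149 14 (.d k195 k130 k151 8 13))))))]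
  .n)

def s26_255_99 : T TT 256 :=
  (.q k65 [(.s k67 k66 0 (.s k105 k125 5 (.s k86 k124 6 (.s k87 k84 0 (.d k127 k107 k106 5 6))))),
  (.s k66 k67 0 (.s k130 k195 8 (.s k2 k194 7 (.s k3 k1 0 (.d k192 k128 k129 7 8))))), (.s k105 k125
  5 (.s k106 k127 6 (.s k107 k104 0 (.s k192 k128 7 (.s k63 k149 14 (.d k195 k130 k151 8 13))))))]
  .n)

def s26_255_100 : T TT 256 :=
  (.q k65 [(.s k66 k67 0 (.s k192 k128 7 (.s k3 k129 8 (.s k2 k1 0 (.d k130 k194 k195 7 8))))), (.s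
  k67 k66 0 (.s k105 k125 5 (.s k86 k124 6 (.s k87 k84 0 (.d k127 k107 k106 5 6))))), (.s k105 k125
  5 (.s k106 k127 6 (.s k107 k104 0 (.s k192 k128 7 (.s k63 k149 14 (.d k195 k130 k151 8 13))))))]
  .n)

def s26_255_101 : T TT 256 :=
  (.q k65 [(.s k66 k67 0 (.s k192 k128 7 (.s k3 k129 8 (.s k2 k1 0 (.d k130 k194 k195 7 8))))), (.s
  k67 k66 0 (.s k105 k125 5 (.s k86 k124 6 (.s k87 k84 0 (.d k127 k107 k106 5 6))))), (.s k105 k125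
  5 (.s k106 k127 6 (.s k107 k104 0 (.s k192 k128 7 (.s k63 k149 14 (.d k195 k130 k151 8 13))))))]
  .n)

def s26_255_102 : T TT 256 :=
  (.q k65 [(.s k66 k67 0 (.s k192 k128 7 (.s k3 k129 8 (.s k2 k1 0 (.d k130 k194 k195 7 8))))), (.s
  k67 k66 0 (.s k105 k125 5 (.s k86 k124 6 (.s k87 k84 0 (.d k127 k107 k106 5 6))))), (.s k105 k125
  5 (.s k106 k127 6 (.s k107 k104 0 (.s k192 k128 7 (.s k63 k149 14 (.d k195 k130 k151 8 13))))))]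
  .n)

def s26_255_103 : T TT 256 :=
  (.q k65 [(.s k66 k67 0 (.s k192 k128 7 (.s k3 k129 8 (.s k2 k1 0 (.d k130 k194 k195 7 8))))), (.s
  k67 k66 0 (.s k105 k125 5 (.s k86 k124 6 (.s k87 k84 0 (.d k127 k107 k106 5 6))))), (.s k105 k125
  5 (.s k106 k127 6 (.s k107 k104 0 (.s k192 k128 7 (.s k63 k149 14 (.d k195 k130 k151 8 13))))))]
  .n)

def s26_255_104 : T TT 256 :=
  (.q k65 [(.s k66 k67 0 (.s k192 k128 7 (.s k3 k129 8 (.s k2 k1 0 (.d k130 k194 k195 7 8))))), (.s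
  k67 k66 0 (.s k105 k125 5 (.s k86 k124 6 (.s k87 k84 0 (.d k127 k107 k106 5 6))))), (.s k105 k125
  5 (.s k106 k127 6 (.s k192 k128 7 (.s k195 k130 8 (.s k194 k193 0 (.d k150 k60 k62 14 13))))))]
  .n)

def s26_255_105 : T TT 256 :=
  (.q k68 [(.s k72 k76 1 (.s k192 k128 7 (.s k12 k132 9 (.s k8 k4 1 (.d k136 k200 k204 7 9))))), (.s
  k76 k72 1 (.s k102 k119 4 (.s k89 k115 6 (.s k93 k81 1 (.d k127 k110 k106 4 6))))), (.s k102 k119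
  4 (.s k106 k127 6 (.s k110 k98 1 (.s k192 k128 7 (.s k63 k149 14 (.d k204 k136 k157 9 12))))))]
  .n)

def s26_255_106 : T TT 256 :=
  (.f k192 k128 7 (.q k80 [(.s k96 k112 3 (.s k48 k144 11 (.s k32 k16 3 (.d k160 k224 k240 7 11)))),
  (.s k90 k95 2 (.s k240 k160 11 (.s k15 k165 14 (.s k10 k5 2 (.s k74 k133 10 (.s k69 k79 2 (.d k138
  k202 k207 7 10))))))), (.s k90 k95 2 (.s k112 k96 3 (.s k101 k79 6 (.s k69 k117 3 (.s k207 k138 10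
  (.s k48 k154 14 (.d k240 k176 k160 7 11)))))))] (.c k160 (.f k90 k95 2 (.f k112 k96 3 (.f k101 k79
  6 (.l (.s k69 k117 3 (.s k207 k138 10 (.s k197 k202 2 (.s k149 k53 11 (.s k213 k21 7 (.s k245 k229
  3 (.d k5 k133 k165 7 11))))))))))) (.c k176 (.l (.s k96 k112 3 (.s k48 k144 11 (.s k160 k240 11
  (.d k32 k16 k224 3 7))))) (.c k240 (.f k96 k112 3 (.f k48 k144 11 (.l (.s k16 k32 3 (.s k154 k223
  10 (.s k207 k101 14 (.s k69 k138 10 (.s k197 k202 2 (.s k133 k5 7 (.d k74 k79 k15 2 10))))))))))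
  .n)))))

def s26_255_107 : T TT 256 :=
  (.q k66 [(.s k192 k128 7 (.s k3 k129 8 (.s k2 k1 0 (.s k130 k194 7 (.d k65 k67 k195 0 8))))), (.s
  k67 k65 0 (.s k106 k127 6 (.s k86 k126 5 (.s k124 k105 6 (.d k84 k87 k104 0 5))))), (.s k192 k128
  7 (.s k3 k129 8 (.s k1 k2 0 (.s k169 k253 13 (.s k252 k86 14 (.s k232 k212 5 (.d k106 k127 k43 6
  8)))))))] .n)

def s26_255_108 : T TT 256 :=
  (.q k65 [(.s k66 k67 0 (.s k192 k128 7 (.s k3 k129 8 (.s k2 k1 0 (.d k130 k194 k195 7 8))))), (.s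
  k67 k66 0 (.s k105 k125 5 (.s k86 k124 6 (.s k87 k84 0 (.d k127 k107 k106 5 6))))), (.s k105 k125
  5 (.s k106 k127 6 (.s k107 k104 0 (.s k192 k128 7 (.s k63 k149 14 (.d k195 k130 k151 8 13))))))]
  .n)

def s26_255_109 : T TT 256 :=
  (.q k65 [(.s k66 k67 0 (.s k192 k128 7 (.s k3 k129 8 (.s k2 k1 0 (.d k130 k194 k195 7 8))))), (.s
  k67 k66 0 (.s k105 k125 5 (.s k86 k124 6 (.s k87 k84 0 (.d k127 k107 k106 5 6))))), (.s k105 k125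
  5 (.s k106 k127 6 (.s k107 k104 0 (.s k192 k128 7 (.s k63 k149 14 (.d k195 k130 k151 8 13))))))]
  .n)

def s26_255_110 : T TT 256 :=
  (.q k65 [(.s k66 k67 0 (.s k192 k128 7 (.s k3 k129 8 (.s k2 k1 0 (.d k130 k194 k195 7 8))))), (.s
  k67 k66 0 (.s k105 k125 5 (.s k86 k124 6 (.s k87 k84 0 (.d k127 k107 k106 5 6))))), (.s k105 k125
  5 (.s k106 k127 6 (.s k107 k104 0 (.s k192 k128 7 (.s k63 k149 14 (.d k195 k130 k151 8 13))))))]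
  .n)

def s26_255_111 : T TT 256 :=
  (.q k65 [(.s k66 k67 0 (.s k192 k128 7 (.s k3 k129 8 (.s k2 k1 0 (.d k130 k194 k195 7 8))))), (.s
  k67 k66 0 (.s k105 k125 5 (.s k86 k124 6 (.s k87 k84 0 (.d k127 k107 k106 5 6))))), (.s k105 k125
  5 (.s k106 k127 6 (.s k107 k104 0 (.s k192 k128 7 (.s k63 k149 14 (.d k195 k130 k151 8 13))))))]
  .n)

def s26_255_112 : T TT 256 :=
  (.q k65 [(.s k66 k67 0 (.s k192 k128 7 (.s k3 k129 8 (.s k2 k1 0 (.d k130 k194 k195 7 8))))), (.s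
  k67 k66 0 (.s k105 k125 5 (.s k86 k124 6 (.s k87 k84 0 (.d k127 k107 k106 5 6))))), (.s k105 k125
  5 (.s k106 k127 6 (.s k107 k104 0 (.s k192 k128 7 (.s k63 k149 14 (.d k195 k130 k151 8 13))))))]
  .n)

def s26_255_113 : T TT 256 :=
  (.q k65 [(.s k66 k67 0 (.s k192 k128 7 (.s k3 k129 8 (.s k2 k1 0 (.d k130 k194 k195 7 8))))), (.s
  k67 k66 0 (.s k105 k125 5 (.s k86 k124 6 (.s k87 k84 0 (.d k127 k107 k106 5 6))))), (.s k105 k125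
  5 (.s k106 k127 6 (.s k107 k104 0 (.s k192 k128 7 (.s k63 k149 14 (.d k195 k130 k151 8 13))))))]
  .n)

def s26_255_114 : T TT 256 :=
  (.q k65 [(.s k66 k67 0 (.s k192 k128 7 (.s k3 k129 8 (.s k2 k1 0 (.d k130 k194 k195 7 8))))), (.s
  k67 k66 0 (.s k105 k125 5 (.s k86 k124 6 (.s k87 k84 0 (.d k127 k107 k106 5 6))))), (.s k105 k125
  5 (.s k106 k127 6 (.s k107 k104 0 (.s k192 k128 7 (.s k63 k149 14 (.d k195 k130 k151 8 13))))))]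
  .n)

def s26_255_115 : T TT 256 :=
  (.q k65 [(.s k66 k67 0 (.s k192 k128 7 (.s k3 k129 8 (.s k2 k1 0 (.d k130 k194 k195 7 8))))), (.s
  k67 k66 0 (.s k105 k125 5 (.s k86 k124 6 (.s k87 k84 0 (.d k127 k107 k106 5 6))))), (.s k105 k125
  5 (.s k106 k127 6 (.s k107 k104 0 (.s k192 k128 7 (.s k63 k149 14 (.d k195 k130 k151 8 13))))))]
  .n)

def s26_255_116 : T TT 256 :=
  (.q k65 [(.s k66 k67 0 (.s k192 k128 7 (.s k3 k129 8 (.s k2 k1 0 (.d k130 k194 k195 7 8))))), (.s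
  k67 k66 0 (.s k105 k125 5 (.s k86 k124 6 (.s k87 k84 0 (.d k127 k107 k106 5 6))))), (.s k105 k125
  5 (.s k106 k127 6 (.s k107 k104 0 (.s k192 k128 7 (.s k63 k149 14 (.d k195 k130 k151 8 13))))))]
  .n)

def s26_255_117 : T TT 256 :=
  (.q k48 [(.s k32 k16 3 (.s k192 k128 7 (.s k96 k144 11 (.s k160 k224 7 (.d k80 k112 k240 3
  11))))), (.s k16 k32 3 (.s k106 k127 6 (.s k154 k223 10 (.s k58 k202 11 (.s k63 k53 2 (.d k192
  k128 k149 7 14)))))), (.s k106 k127 6 (.s k192 k128 7 (.s k63 k149 14 (.s k58 k53 2 (.s k96 k144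
  11 (.s k101 k111 2 (.d k154 k202 k207 11 14)))))))] (.c k112 (.l (.s k16 k32 3 (.s k154 k223 10
  (.s k192 k128 7 (.s k144 k96 11 (.s k149 k159 2 (.d k106 k127 k63 6 14))))))) (.c k128 (.l (.s k16
  k32 3 (.s k106 k127 6 (.s k154 k223 10 (.s k58 k202 11 (.s k63 k53 2 (.s k21 k42 6 (.d k149 k213
  k192 7 14)))))))) (.c k192 (.f k106 k127 6 (.f k16 k32 3 (.l (.s k154 k223 10 (.s k58 k202 11 (.s
  k63 k53 2 (.s k21 k42 6 (.s k207 k101 14 (.s k159 k111 11 (.d k149 k144 k213 2 7)))))))))) .n))))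

def s26_255_118 : T TT 256 :=
  (.q k65 [(.s k66 k67 0 (.s k192 k128 7 (.s k3 k129 8 (.s k2 k1 0 (.d k130 k194 k195 7 8))))), (.s
  k67 k66 0 (.s k105 k125 5 (.s k86 k124 6 (.s k87 k84 0 (.d k127 k107 k106 5 6))))), (.s k105 k125
  5 (.s k106 k127 6 (.s k107 k104 0 (.s k192 k128 7 (.s k63 k149 14 (.d k195 k130 k151 8 13))))))]
  .n)

def s26_255_119 : T TT 256 :=
  (.f k192 k128 7 (.q k51 [(.s k34 k17 4 (.s k98 k145 12 (.s k162 k226 7 (.d k81 k115 k243 4 12)))),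
  (.s k17 k34 4 (.s k106 k127 6 (.s k63 k149 14 (.s k59 k55 1 (.d k153 k221 k200 9 12))))), (.s k98
  k145 12 (.s k106 k127 6 (.s k63 k149 14 (.s k59 k55 1 (.s k102 k110 1 (.d k153 k200 k204 12
  14))))))] (.c k115 (.l (.s k17 k34 4 (.s k145 k98 12 (.s k153 k221 9 (.s k149 k157 1 (.d k106 k127
  k63 6 14)))))) .n)))

def s26_255_120 : T TT 256 :=
  (.q k65 [(.s k66 k67 0 (.s k192 k128 7 (.s k3 k129 8 (.s k2 k1 0 (.d k130 k194 k195 7 8))))), (.s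
  k67 k66 0 (.s k105 k125 5 (.s k86 k124 6 (.s k87 k84 0 (.d k127 k107 k106 5 6))))), (.s k105 k125
  5 (.s k106 k127 6 (.s k107 k104 0 (.s k192 k128 7 (.s k63 k149 14 (.d k195 k130 k151 8 13))))))]
  .n)

def s26_255_121 : T TT 256 :=
  (.q k65 [(.s k66 k67 0 (.s k192 k128 7 (.s k3 k129 8 (.s k2 k1 0 (.d k130 k194 k195 7 8))))), (.s
  k67 k66 0 (.s k105 k125 5 (.s k86 k124 6 (.s k87 k84 0 (.d k127 k107 k106 5 6))))), (.s k105 k125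
  5 (.s k106 k127 6 (.s k107 k104 0 (.s k192 k128 7 (.s k63 k149 14 (.d k195 k130 k151 8 13))))))]
  .n)

def s26_255_122 : T TT 256 :=
  (.q k65 [(.s k66 k67 0 (.s k192 k128 7 (.s k3 k129 8 (.s k2 k1 0 (.d k130 k194 k195 7 8))))), (.s
  k67 k66 0 (.s k105 k125 5 (.s k86 k124 6 (.s k87 k84 0 (.d k127 k107 k106 5 6))))), (.s k105 k125
  5 (.s k106 k127 6 (.s k107 k104 0 (.s k192 k128 7 (.s k63 k149 14 (.d k195 k130 k151 8 13))))))]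
  .n)

def s26_255_123 : T TT 256 :=
  (.q k65 [(.s k66 k67 0 (.s k192 k128 7 (.s k3 k129 8 (.s k2 k1 0 (.d k130 k194 k195 7 8))))), (.s
  k67 k66 0 (.s k105 k125 5 (.s k86 k124 6 (.s k87 k84 0 (.d k127 k107 k106 5 6))))), (.s k105 k125
  5 (.s k106 k127 6 (.s k107 k104 0 (.s k192 k128 7 (.s k63 k149 14 (.d k195 k130 k151 8 13))))))]
  .n)

def s26_255_124 : T TT 256 :=
  (.q k68 [(.s k72 k76 1 (.s k192 k128 7 (.s k12 k132 9 (.s k8 k4 1 (.d k136 k200 k204 7 9))))), (.s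
  k76 k72 1 (.s k102 k119 4 (.s k89 k115 6 (.s k93 k81 1 (.d k127 k110 k106 4 6))))), (.s k102 k119
  4 (.s k106 k127 6 (.s k110 k98 1 (.s k192 k128 7 (.s k63 k149 14 (.d k204 k136 k157 9 12))))))]
  .n)

def s26_255_125 : T TT 256 :=
  (.f k192 k128 7 (.q k60 [(.s k40 k20 5 (.s k104 k148 13 (.s k168 k232 7 (.d k84 k124 k252 5
  13)))), (.s k20 k40 5 (.s k106 k127 6 (.s k63 k149 14 (.s k62 k61 0 (.d k150 k215 k194 8 13))))),
  (.s k104 k148 13 (.s k106 k127 6 (.s k63 k149 14 (.s k62 k61 0 (.s k105 k107 0 (.d k150 k194 k195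
  13 14))))))] (.c k124 (.l (.s k20 k40 5 (.s k148 k104 13 (.s k150 k215 8 (.s k149 k151 0 (.d k106
  k127 k63 6 14)))))) .n)))

def s26_255_126 : T TT 256 :=
  (.q k65 [(.s k66 k67 0 (.s k192 k128 7 (.s k3 k129 8 (.s k2 k1 0 (.d k130 k194 k195 7 8))))), (.s
  k67 k66 0 (.s k105 k125 5 (.s k86 k124 6 (.s k127 k106 6 (.d k87 k84 k107 0 5))))), (.s k105 k125
  5 (.s k192 k128 7 (.s k195 k130 8 (.s k60 k150 14 (.s k104 k148 13 (.d k106 k127 k107 6 0))))))]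
  .n)

def s26_255_127 : T TT 256 :=
  (.f k192 k128 7 (.q k65 [(.s k195 k130 8 (.s k193 k194 0 (.s k129 k1 7 (.d k66 k67 k3 0 8)))), (.s
  k67 k66 0 (.s k105 k125 5 (.s k124 k86 6 (.s k104 k84 5 (.s k60 k148 13 (.d k195 k130 k150 8
  14)))))), (.s k105 k125 5 (.s k195 k130 8 (.s k60 k150 14 (.s k40 k20 5 (.s k104 k148 13 (.s k168
  k232 7 (.d k84 k124 k252 5 13)))))))] (.c k63 (.q k191 [(.s k195 k130 8 (.s k193 k194 0 (.s k129
  k1 7 (.d k66 k67 k3 0 8)))), (.s k67 k66 0 (.s k105 k125 5 (.s k124 k86 6 (.s k104 k84 5 (.s k60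
  k148 13 (.s k20 k40 5 (.d k150 k215 k195 8 14))))))), (.s k105 k125 5 (.s k195 k130 8 (.s k60 k150
  14 (.s k40 k20 5 (.s k104 k148 13 (.s k168 k232 7 (.d k84 k124 k252 5 13)))))))] (.c k195 (.f k66
  k67 0 (.f k3 k129 8 (.l (.s k1 k2 0 (.s k169 k253 13 (.s k252 k86 14 (.s k84 k168 13 (.s k212 k232
  5 (.s k148 k20 7 (.d k104 k124 k60 5 13)))))))))) .n)) (.c k130 (.l (.s k66 k67 0 (.s k105 k125 5
  (.s k129 k3 8 (.s k193 k1 7 (.s k149 k61 13 (.s k21 k213 7 (.d k63 k42 k106 6 14)))))))) (.c k191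
  (.q k63 [(.s k149 k106 14 (.d k21 k42 k213 6 7)), (.s k66 k67 0 (.s k3 k129 8 (.s k2 k1 0 (.d k130
  k194 k195 7 8))))] (.c k149 (.q k170 [(.s k105 k125 5 (.s k40 k235 8 (.s k60 k20 5 (.d k195 k130
  k150 8 14)))), (.s k66 k67 0 (.s k3 k129 8 (.s k2 k1 0 (.d k130 k194 k195 7 8))))] (.c k130 (.l
  (.s k42 k21 6 (.s k66 k67 0 (.s k105 k125 5 (.s k40 k235 8 (.s k43 k41 0 (.d k3 k23 k129 5
  8))))))) (.c k195 (.l (.s k42 k21 6 (.s k66 k67 0 (.s k3 k129 8 (.s k2 k1 0 (.s k86 k254 13 (.d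
  k106 k126 k234 5 7))))))) .n))) (.c k170 (.l (.s k149 k106 14 (.d k21 k42 k213 6 7))) .n))) (.c
  k195 (.f k66 k67 0 (.f k3 k129 8 (.l (.s k1 k2 0 (.s k169 k253 13 (.s k252 k86 14 (.s k84 k168 13
  (.s k212 k232 5 (.s k148 k20 7 (.d k104 k124 k60 5 13)))))))))) .n))))))

def s26_255_128 : T TT 256 :=
  (.q k84 [(.s k124 k104 5 (.s k127 k106 6 (.s k125 k126 0 (.s k105 k65 5 (.d k86 k87 k67 0 6))))),
  (.s k86 k87 0 (.s k106 k127 6 (.s k126 k66 5 (.s k252 k168 13 (.s k63 k189 8 (.s k21 k42 6 (.d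
  k149 k213 k192 7 14))))))), (.s k86 k87 0 (.s k124 k104 5 (.s k105 k67 6 (.s k65 k125 5 (.s k195
  k130 8 (.s k60 k150 14 (.d k252 k188 k168 7 13)))))))] (.c k67 (.q k4 [(.s k12 k8 1 (.s k164 k244
  11 (.s k88 k240 13 (.s k92 k80 1 (.d k252 k172 k168 11 13))))), (.s k86 k87 0 (.s k166 k247 12 (.s
  k6 k246 11 (.s k7 k5 0 (.d k244 k164 k165 11 12))))), (.s k12 k8 1 (.s k86 k87 0 (.s k166 k247 12
  (.s k243 k89 14 (.s k246 k6 11 (.d k252 k249 k168 2 13))))))] .n) (.c k86 (.q k4 [(.s k12 k8 1 (.s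
  k252 k168 13 (.s k92 k172 11 (.s k88 k80 1 (.d k164 k244 k240 11 13))))), (.s k104 k124 5 (.s k106
  k127 6 (.s k105 k107 0 (.s k164 k244 11 (.s k44 k224 9 (.d k166 k227 k247 10 12)))))), (.s k12 k8
  1 (.s k106 k127 6 (.s k166 k247 12 (.s k46 k226 9 (.s k63 k29 4 (.s k21 k42 6 (.d k149 k213 k192 7
  14)))))))] .n) (.c k87 (.f k124 k104 5 (.f k252 k168 13 (.f k127 k106 6 (.f k125 k126 0 (.l (.s
  k105 k65 5 (.s k86 k67 6 (.s k3 k169 14 (.s k2 k1 0 (.s k170 k254 13 (.s k40 k235 8 (.d k60 k20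
  k188 5 7)))))))))))) (.c k107 (.l (.s k86 k87 0 (.s k124 k104 5 (.s k67 k105 6 (.s k106 k127 6 (.d
  k66 k65 k126 0 5)))))) (.c k127 (.l (.s k86 k87 0 (.s k124 k104 5 (.s k67 k105 6 (.s k65 k66 0 (.s
  k195 k130 8 (.s k252 k168 13 (.d k3 k131 k169 7 14)))))))) .n))))))

def s26_255_129 : T TT 256 :=
  (.q k68 [(.s k76 k72 1 (.s k102 k119 4 (.s k89 k115 6 (.s k93 k81 1 (.d k127 k110 k106 4 6))))),
  (.s k72 k76 1 (.s k136 k204 9 (.s k8 k200 7 (.s k12 k4 1 (.d k192 k128 k132 7 9))))), (.s k102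
  k119 4 (.s k106 k127 6 (.s k110 k98 1 (.s k192 k128 7 (.s k63 k149 14 (.d k204 k136 k157 9
  12))))))] .n)

def s26_255_130 : T TT 256 :=
  (.q k68 [(.s k76 k72 1 (.s k102 k119 4 (.s k89 k115 6 (.s k93 k81 1 (.d k127 k110 k106 4 6))))),
  (.s k72 k76 1 (.s k136 k204 9 (.s k8 k200 7 (.s k12 k4 1 (.d k192 k128 k132 7 9))))), (.s k102
  k119 4 (.s k106 k127 6 (.s k110 k98 1 (.s k192 k128 7 (.s k63 k149 14 (.d k204 k136 k157 9
  12))))))] .n)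

def s26_255_131 : T TT 256 :=
  (.q k65 [(.s k66 k67 0 (.s k192 k128 7 (.s k3 k129 8 (.s k130 k195 8 (.d k2 k1 k194 0 7))))), (.s
  k67 k66 0 (.s k105 k125 5 (.s k86 k124 6 (.s k87 k84 0 (.d k127 k107 k106 5 6))))), (.s k105 k125
  5 (.s k106 k127 6 (.s k107 k104 0 (.s k192 k128 7 (.s k63 k149 14 (.d k195 k130 k151 8 13))))))]
  .n)

def s26_255_132 : T TT 256 :=
  (.q k65 [(.s k67 k66 0 (.s k105 k125 5 (.s k86 k124 6 (.s k87 k84 0 (.d k127 k107 k106 5 6))))),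
  (.s k66 k67 0 (.s k130 k195 8 (.s k2 k194 7 (.s k3 k1 0 (.d k192 k128 k129 7 8))))), (.s k105 k125
  5 (.s k106 k127 6 (.s k107 k104 0 (.s k192 k128 7 (.s k63 k149 14 (.d k195 k130 k151 8 13))))))]
  .n)

def s26_255_133 : T TT 256 :=
  (.q k65 [(.s k67 k66 0 (.s k105 k125 5 (.s k86 k124 6 (.s k87 k84 0 (.d k127 k107 k106 5 6))))),
  (.s k66 k67 0 (.s k130 k195 8 (.s k2 k194 7 (.s k3 k1 0 (.d k192 k128 k129 7 8))))), (.s k105 k125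
  5 (.s k106 k127 6 (.s k107 k104 0 (.s k192 k128 7 (.s k63 k149 14 (.d k195 k130 k151 8 13))))))]
  .n)

def s26_255_134 : T TT 256 :=
  (.q k65 [(.s k66 k67 0 (.s k192 k128 7 (.s k3 k129 8 (.s k2 k1 0 (.d k130 k194 k195 7 8))))), (.s
  k67 k66 0 (.s k105 k125 5 (.s k86 k124 6 (.s k87 k84 0 (.d k127 k107 k106 5 6))))), (.s k105 k125
  5 (.s k106 k127 6 (.s k107 k104 0 (.s k192 k128 7 (.s k63 k149 14 (.d k195 k130 k151 8 13))))))]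
  .n)

def s26_255_135 : T TT 256 :=
  (.q k65 [(.s k66 k67 0 (.s k192 k128 7 (.s k3 k129 8 (.s k2 k1 0 (.d k130 k194 k195 7 8))))), (.s
  k67 k66 0 (.s k105 k125 5 (.s k86 k124 6 (.s k87 k84 0 (.d k127 k107 k106 5 6))))), (.s k105 k125
  5 (.s k106 k127 6 (.s k107 k104 0 (.s k192 k128 7 (.s k63 k149 14 (.d k195 k130 k151 8 13))))))]
  .n)

def s26_255_136 : T TT 256 :=
  (.q k65 [(.s k67 k66 0 (.s k105 k125 5 (.s k86 k124 6 (.s k87 k84 0 (.d k127 k107 k106 5 6))))),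
  (.s k66 k67 0 (.s k130 k195 8 (.s k2 k194 7 (.s k3 k1 0 (.d k192 k128 k129 7 8))))), (.s k105 k125
  5 (.s k106 k127 6 (.s k107 k104 0 (.s k192 k128 7 (.s k63 k149 14 (.d k195 k130 k151 8 13))))))]
  .n)

def s26_255_137 : T TT 256 :=
  (.q k65 [(.s k67 k66 0 (.s k105 k125 5 (.s k86 k124 6 (.s k87 k84 0 (.d k127 k107 k106 5 6))))),
  (.s k66 k67 0 (.s k130 k195 8 (.s k2 k194 7 (.s k3 k1 0 (.d k192 k128 k129 7 8))))), (.s k105 k125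
  5 (.s k106 k127 6 (.s k107 k104 0 (.s k192 k128 7 (.s k63 k149 14 (.d k195 k130 k151 8 13))))))]
  .n)

def s26_255_138 : T TT 256 :=
  (.q k65 [(.s k67 k66 0 (.s k105 k125 5 (.s k86 k124 6 (.s k87 k84 0 (.d k127 k107 k106 5 6))))),
  (.s k66 k67 0 (.s k130 k195 8 (.s k2 k194 7 (.s k3 k1 0 (.d k192 k128 k129 7 8))))), (.s k105 k125
  5 (.s k106 k127 6 (.s k107 k104 0 (.s k192 k128 7 (.s k63 k149 14 (.d k195 k130 k151 8 13))))))]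
  .n)

def s26_255_139 : T TT 256 :=
  (.q k65 [(.s k66 k67 0 (.s k192 k128 7 (.s k3 k129 8 (.s k2 k1 0 (.d k130 k194 k195 7 8))))), (.s
  k67 k66 0 (.s k105 k125 5 (.s k86 k124 6 (.s k87 k84 0 (.d k127 k107 k106 5 6))))), (.s k105 k125
  5 (.s k106 k127 6 (.s k107 k104 0 (.s k192 k128 7 (.s k63 k149 14 (.d k195 k130 k151 8 13))))))]
  .n)

def s26_255_140 : T TT 256 :=
  (.q k65 [(.s k67 k66 0 (.s k105 k125 5 (.s k86 k124 6 (.s k87 k84 0 (.d k127 k107 k106 5 6))))),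
  (.s k66 k67 0 (.s k130 k195 8 (.s k2 k194 7 (.s k3 k1 0 (.d k192 k128 k129 7 8))))), (.s k105 k125
  5 (.s k106 k127 6 (.s k107 k104 0 (.s k192 k128 7 (.s k63 k149 14 (.d k195 k130 k151 8 13))))))]
  .n)

def s26_255_141 : T TT 256 :=
  (.q k65 [(.s k67 k66 0 (.s k105 k125 5 (.s k86 k124 6 (.s k87 k84 0 (.d k127 k107 k106 5 6))))),
  (.s k66 k67 0 (.s k130 k195 8 (.s k2 k194 7 (.s k3 k1 0 (.d k192 k128 k129 7 8))))), (.s k105 k125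
  5 (.s k106 k127 6 (.s k107 k104 0 (.s k192 k128 7 (.s k63 k149 14 (.d k195 k130 k151 8 13))))))]
  .n)

def s26_255_142 : T TT 256 :=
  (.q k65 [(.s k66 k67 0 (.s k192 k128 7 (.s k3 k129 8 (.s k2 k1 0 (.d k130 k194 k195 7 8))))), (.s
  k67 k66 0 (.s k105 k125 5 (.s k86 k124 6 (.s k87 k84 0 (.d k127 k107 k106 5 6))))), (.s k105 k125
  5 (.s k106 k127 6 (.s k107 k104 0 (.s k192 k128 7 (.s k63 k149 14 (.d k195 k130 k151 8 13))))))]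
  .n)

def s26_255_143 : T TT 256 :=
  (.q k65 [(.s k67 k66 0 (.s k105 k125 5 (.s k86 k124 6 (.s k87 k84 0 (.d k127 k107 k106 5 6))))),
  (.s k66 k67 0 (.s k130 k195 8 (.s k2 k194 7 (.s k3 k1 0 (.d k192 k128 k129 7 8))))), (.s k105 k125
  5 (.s k106 k127 6 (.s k107 k104 0 (.s k192 k128 7 (.s k63 k149 14 (.d k195 k130 k151 8 13))))))]
  .n)

def s26_255_144 : T TT 256 :=
  (.q k65 [(.s k67 k66 0 (.s k105 k125 5 (.s k86 k124 6 (.s k87 k84 0 (.d k127 k107 k106 5 6))))),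
  (.s k66 k67 0 (.s k130 k195 8 (.s k2 k194 7 (.s k3 k1 0 (.d k192 k128 k129 7 8))))), (.s k105 k125
  5 (.s k106 k127 6 (.s k107 k104 0 (.s k192 k128 7 (.s k63 k149 14 (.d k195 k130 k151 8 13))))))]
  .n)

def s26_255_145 : T TT 256 :=
  (.q k65 [(.s k67 k66 0 (.s k105 k125 5 (.s k86 k124 6 (.s k87 k84 0 (.d k127 k107 k106 5 6))))),
  (.s k66 k67 0 (.s k130 k195 8 (.s k2 k194 7 (.s k3 k1 0 (.d k192 k128 k129 7 8))))), (.s k105 k125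
  5 (.s k106 k127 6 (.s k107 k104 0 (.s k192 k128 7 (.s k63 k149 14 (.d k195 k130 k151 8 13))))))]
  .n)

def s26_255_146 : T TT 256 :=
  (.q k65 [(.s k66 k67 0 (.s k192 k128 7 (.s k3 k129 8 (.s k2 k1 0 (.d k130 k194 k195 7 8))))), (.s
  k67 k66 0 (.s k105 k125 5 (.s k86 k124 6 (.s k87 k84 0 (.d k127 k107 k106 5 6))))), (.s k105 k125
  5 (.s k106 k127 6 (.s k107 k104 0 (.s k192 k128 7 (.s k63 k149 14 (.d k195 k130 k151 8 13))))))]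
  .n)

def s26_255_147 : T TT 256 :=
  (.q k65 [(.s k66 k67 0 (.s k192 k128 7 (.s k3 k129 8 (.s k2 k1 0 (.d k130 k194 k195 7 8))))), (.s
  k67 k66 0 (.s k105 k125 5 (.s k86 k124 6 (.s k87 k84 0 (.d k127 k107 k106 5 6))))), (.s k105 k125
  5 (.s k106 k127 6 (.s k107 k104 0 (.s k192 k128 7 (.s k63 k149 14 (.d k195 k130 k151 8 13))))))]
  .n)

def s26_255_148 : T TT 256 :=
  (.q k65 [(.s k66 k67 0 (.s k192 k128 7 (.s k3 k129 8 (.s k2 k1 0 (.d k130 k194 k195 7 8))))), (.s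
  k67 k66 0 (.s k105 k125 5 (.s k86 k124 6 (.s k87 k84 0 (.d k127 k107 k106 5 6))))), (.s k105 k125
  5 (.s k106 k127 6 (.s k107 k104 0 (.s k192 k128 7 (.s k63 k149 14 (.d k195 k151 k130 13 8))))))]
  .n)

def s26_255_149 : T TT 256 :=
  (.q k65 [(.s k67 k66 0 (.s k105 k125 5 (.s k86 k124 6 (.s k87 k84 0 (.d k127 k107 k106 5 6))))),
  (.s k66 k67 0 (.s k130 k195 8 (.s k2 k194 7 (.s k3 k1 0 (.d k192 k128 k129 7 8))))), (.s k105 k125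
  5 (.s k106 k127 6 (.s k192 k128 7 (.s k195 k130 8 (.s k60 k150 14 (.d k104 k148 k107 13 0))))))]
  .n)

def s26_255_150 : T TT 256 :=
  (.q k65 [(.s k66 k67 0 (.s k192 k128 7 (.s k3 k129 8 (.s k2 k1 0 (.d k130 k194 k195 7 8))))), (.s
  k67 k66 0 (.s k105 k125 5 (.s k86 k124 6 (.s k87 k84 0 (.d k127 k107 k106 5 6))))), (.s k105 k125
  5 (.s k106 k127 6 (.s k107 k104 0 (.s k192 k128 7 (.s k63 k149 14 (.d k195 k151 k130 13 8))))))]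
  .n)

def s26_255_151 : T TT 256 :=
  (.q k65 [(.s k66 k67 0 (.s k192 k128 7 (.s k3 k129 8 (.s k2 k1 0 (.d k130 k194 k195 7 8))))), (.s
  k67 k66 0 (.s k105 k125 5 (.s k86 k124 6 (.s k87 k84 0 (.d k127 k107 k106 5 6))))), (.s k105 k125
  5 (.s k106 k127 6 (.s k192 k128 7 (.s k195 k130 8 (.s k60 k150 14 (.d k104 k148 k107 13 0))))))]
  .n)

def s26_255_152 : T TT 256 :=
  (.q k65 [(.s k66 k67 0 (.s k192 k128 7 (.s k3 k129 8 (.s k2 k1 0 (.d k130 k194 k195 7 8))))), (.s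
  k67 k66 0 (.s k105 k125 5 (.s k86 k124 6 (.s k87 k84 0 (.d k127 k107 k106 5 6))))), (.s k105 k125
  5 (.s k106 k127 6 (.s k107 k104 0 (.s k192 k128 7 (.s k63 k149 14 (.d k195 k130 k151 8 13))))))]
  .n)

def s26_255_153 : T TT 256 :=
  (.q k65 [(.s k66 k67 0 (.s k192 k128 7 (.s k3 k129 8 (.s k2 k1 0 (.d k130 k194 k195 7 8))))), (.s
  k67 k66 0 (.s k105 k125 5 (.s k86 k124 6 (.s k87 k84 0 (.d k127 k107 k106 5 6))))), (.s k105 k125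
  5 (.s k106 k127 6 (.s k107 k104 0 (.s k192 k128 7 (.s k63 k149 14 (.d k195 k130 k151 8 13))))))]
  .n)

def s26_255_154 : T TT 256 :=
  (.q k90 [(.s k95 k80 2 (.s k127 k106 6 (.s k79 k111 3 (.s k69 k74 2 (.d k101 k117 k112 3 6))))),
  (.s k80 k95 2 (.s k96 k112 3 (.s k160 k240 11 (.s k32 k224 7 (.s k48 k16 3 (.d k192 k128 k144 7
  11)))))), (.s k106 k127 6 (.s k74 k122 3 (.s k192 k128 7 (.s k15 k133 10 (.s k5 k10 2 (.d k165
  k245 k240 11 14))))))] (.c k112 (.l (.s k80 k95 2 (.s k106 k127 6 (.s k122 k74 3 (.s k192 k128 7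
  (.s k63 k149 14 (.d k240 k181 k160 10 11))))))) .n))

def s26_255_155 : T TT 256 :=
  (.q k65 [(.s k66 k67 0 (.s k192 k128 7 (.s k3 k129 8 (.s k2 k1 0 (.d k130 k194 k195 7 8))))), (.s
  k67 k66 0 (.s k105 k125 5 (.s k86 k124 6 (.s k87 k84 0 (.d k127 k107 k106 5 6))))), (.s k105 k125
  5 (.s k106 k127 6 (.s k107 k104 0 (.s k192 k128 7 (.s k63 k149 14 (.d k195 k130 k151 8 13))))))]
  .n)

def s26_255_156 : T TT 256 :=
  (.q k65 [(.s k66 k67 0 (.s k192 k128 7 (.s k3 k129 8 (.s k2 k1 0 (.d k130 k194 k195 7 8))))), (.s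
  k67 k66 0 (.s k105 k125 5 (.s k86 k124 6 (.s k87 k84 0 (.d k127 k107 k106 5 6))))), (.s k105 k125
  5 (.s k106 k127 6 (.s k107 k104 0 (.s k192 k128 7 (.s k63 k149 14 (.d k195 k130 k151 8 13))))))]
  .n)

def s26_255_157 : T TT 256 :=
  (.q k65 [(.s k66 k67 0 (.s k192 k128 7 (.s k3 k129 8 (.s k2 k1 0 (.d k130 k194 k195 7 8))))), (.s
  k67 k66 0 (.s k105 k125 5 (.s k86 k124 6 (.s k87 k84 0 (.d k127 k107 k106 5 6))))), (.s k105 k125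
  5 (.s k106 k127 6 (.s k107 k104 0 (.s k192 k128 7 (.s k63 k149 14 (.d k195 k130 k151 8 13))))))]
  .n)

def s26_255_158 : T TT 256 :=
  (.q k65 [(.s k66 k67 0 (.s k192 k128 7 (.s k3 k129 8 (.s k2 k1 0 (.d k130 k194 k195 7 8))))), (.s
  k67 k66 0 (.s k105 k125 5 (.s k86 k124 6 (.s k87 k84 0 (.d k127 k107 k106 5 6))))), (.s k105 k125
  5 (.s k106 k127 6 (.s k107 k104 0 (.s k192 k128 7 (.s k63 k149 14 (.d k195 k130 k151 8 13))))))]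
  .n)

def s26_255_159 : T TT 256 :=
  (.q k65 [(.s k66 k67 0 (.s k192 k128 7 (.s k3 k129 8 (.s k2 k1 0 (.d k130 k194 k195 7 8))))), (.s
  k67 k66 0 (.s k105 k125 5 (.s k86 k124 6 (.s k87 k84 0 (.d k127 k107 k106 5 6))))), (.s k105 k125
  5 (.s k106 k127 6 (.s k107 k104 0 (.s k192 k128 7 (.s k63 k149 14 (.d k195 k130 k151 8 13))))))]
  .n)

def s26_255_160 : T TT 256 :=
  (.q k65 [(.s k67 k66 0 (.s k105 k125 5 (.s k86 k124 6 (.s k87 k84 0 (.d k127 k107 k106 5 6))))),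
  (.s k66 k67 0 (.s k130 k195 8 (.s k2 k194 7 (.s k3 k1 0 (.d k192 k128 k129 7 8))))), (.s k105 k125
  5 (.s k106 k127 6 (.s k107 k104 0 (.s k192 k128 7 (.s k63 k149 14 (.d k195 k130 k151 8 13))))))]
  .n)

def s26_255_161 : T TT 256 :=
  (.q k65 [(.s k67 k66 0 (.s k105 k125 5 (.s k86 k124 6 (.s k87 k84 0 (.d k127 k107 k106 5 6))))),
  (.s k66 k67 0 (.s k130 k195 8 (.s k2 k194 7 (.s k3 k1 0 (.d k192 k128 k129 7 8))))), (.s k105 k125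
  5 (.s k106 k127 6 (.s k107 k104 0 (.s k192 k128 7 (.s k63 k149 14 (.d k195 k130 k151 8 13))))))]
  .n)

def s26_255_162 : T TT 256 :=
  (.q k65 [(.s k67 k66 0 (.s k105 k125 5 (.s k86 k124 6 (.s k87 k84 0 (.d k127 k107 k106 5 6))))),
  (.s k66 k67 0 (.s k130 k195 8 (.s k2 k194 7 (.s k3 k1 0 (.d k192 k128 k129 7 8))))), (.s k105 k125
  5 (.s k106 k127 6 (.s k107 k104 0 (.s k192 k128 7 (.s k63 k149 14 (.d k195 k130 k151 8 13))))))]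
  .n)

def s26_255_163 : T TT 256 :=
  (.q k65 [(.s k66 k67 0 (.s k192 k128 7 (.s k3 k129 8 (.s k2 k1 0 (.d k130 k194 k195 7 8))))), (.s
  k67 k66 0 (.s k105 k125 5 (.s k86 k124 6 (.s k87 k84 0 (.d k127 k107 k106 5 6))))), (.s k105 k125
  5 (.s k106 k127 6 (.s k107 k104 0 (.s k192 k128 7 (.s k63 k149 14 (.d k195 k130 k151 8 13))))))]
  .n)

def s26_255_164 : T TT 256 :=
  (.q k65 [(.s k66 k67 0 (.s k192 k128 7 (.s k3 k129 8 (.s k2 k1 0 (.d k130 k194 k195 7 8))))), (.s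
  k67 k66 0 (.s k105 k125 5 (.s k86 k124 6 (.s k87 k84 0 (.d k127 k107 k106 5 6))))), (.s k105 k125
  5 (.s k106 k127 6 (.s k107 k104 0 (.s k192 k128 7 (.s k63 k149 14 (.d k195 k130 k151 8 13))))))]
  .n)

def s26_255_165 : T TT 256 :=
  (.q k65 [(.s k66 k67 0 (.s k192 k128 7 (.s k3 k129 8 (.s k2 k1 0 (.d k130 k194 k195 7 8))))), (.s
  k67 k66 0 (.s k105 k125 5 (.s k86 k124 6 (.s k87 k84 0 (.d k127 k107 k106 5 6))))), (.s k105 k125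
  5 (.s k106 k127 6 (.s k107 k104 0 (.s k192 k128 7 (.s k63 k149 14 (.d k195 k130 k151 8 13))))))]
  .n)

def s26_255_166 : T TT 256 :=
  (.q k65 [(.s k66 k67 0 (.s k192 k128 7 (.s k3 k129 8 (.s k2 k1 0 (.d k130 k194 k195 7 8))))), (.s
  k67 k66 0 (.s k105 k125 5 (.s k86 k124 6 (.s k87 k84 0 (.d k127 k107 k106 5 6))))), (.s k105 k125
  5 (.s k106 k127 6 (.s k107 k104 0 (.s k192 k128 7 (.s k63 k149 14 (.d k195 k130 k151 8 13))))))]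
  .n)

def s26_255_167 : T TT 256 :=
  (.q k65 [(.s k66 k67 0 (.s k192 k128 7 (.s k3 k129 8 (.s k2 k1 0 (.d k130 k194 k195 7 8))))), (.s
  k67 k66 0 (.s k105 k125 5 (.s k86 k124 6 (.s k87 k84 0 (.d k127 k107 k106 5 6))))), (.s k105 k125
  5 (.s k106 k127 6 (.s k107 k104 0 (.s k192 k128 7 (.s k63 k149 14 (.d k195 k130 k151 8 13))))))]
  .n)

def s26_255_168 : T TT 256 :=
  (.q k65 [(.s k67 k66 0 (.s k105 k125 5 (.s k86 k124 6 (.s k87 k84 0 (.d k127 k107 k106 5 6))))),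
  (.s k66 k67 0 (.s k130 k195 8 (.s k2 k194 7 (.s k3 k1 0 (.d k192 k128 k129 7 8))))), (.s k105 k125
  5 (.s k106 k127 6 (.s k107 k104 0 (.s k192 k128 7 (.s k63 k149 14 (.d k195 k130 k151 8 13))))))]
  .n)

def s26_255_169 : T TT 256 :=
  (.q k65 [(.s k67 k66 0 (.s k105 k125 5 (.s k86 k124 6 (.s k87 k84 0 (.d k127 k107 k106 5 6))))),
  (.s k66 k67 0 (.s k130 k195 8 (.s k2 k194 7 (.s k3 k1 0 (.d k192 k128 k129 7 8))))), (.s k105 k125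
  5 (.s k106 k127 6 (.s k107 k104 0 (.s k192 k128 7 (.s k63 k149 14 (.d k195 k130 k151 8 13))))))]
  .n)

def s26_255_170 : T TT 256 :=
  (.q k65 [(.s k67 k66 0 (.s k105 k125 5 (.s k86 k124 6 (.s k87 k84 0 (.d k127 k107 k106 5 6))))),
  (.s k66 k67 0 (.s k130 k195 8 (.s k2 k194 7 (.s k3 k1 0 (.d k192 k128 k129 7 8))))), (.s k105 k125
  5 (.s k106 k127 6 (.s k107 k104 0 (.s k192 k128 7 (.s k195 k130 8 (.d k63 k149 k151 14 13))))))]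
  .n)

def s26_255_171 : T TT 256 :=
  (.q k84 [(.s k124 k104 5 (.s k127 k106 6 (.s k125 k126 0 (.s k105 k65 5 (.d k86 k87 k67 0 6))))),
  (.s k104 k124 5 (.s k168 k252 13 (.s k40 k232 7 (.s k60 k20 5 (.d k192 k128 k148 7 13))))), (.s
  k106 k127 6 (.s k192 k128 7 (.s k63 k149 14 (.s k252 k168 13 (.s k126 k189 8 (.d k86 k87 k66 0
  5))))))] (.c k3 (.l (.s k87 k86 0 (.s k104 k124 5 (.s k192 k128 7 (.s k60 k148 13 (.s k40 k20 5
  (.d k168 k252 k232 13 7))))))) (.c k87 (.q k3 [(.s k1 k2 0 (.s k169 k253 13 (.d k252 k168 k86 13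
  14))), (.s k2 k1 0 (.s k192 k128 7 (.s k66 k129 8 (.s k65 k67 0 (.d k130 k194 k195 7 8))))), (.s
  k104 k124 5 (.s k168 k252 13 (.s k40 k232 7 (.s k60 k20 5 (.d k192 k128 k148 7 13)))))] .n) .n)))

def s26_255_172 : T TT 256 :=
  (.q k65 [(.s k66 k67 0 (.s k192 k128 7 (.s k3 k129 8 (.s k2 k1 0 (.d k130 k194 k195 7 8))))), (.s
  k67 k66 0 (.s k105 k125 5 (.s k86 k124 6 (.s k87 k84 0 (.d k127 k107 k106 5 6))))), (.s k105 k125
  5 (.s k106 k127 6 (.s k107 k104 0 (.s k192 k128 7 (.s k63 k149 14 (.d k195 k130 k151 8 13))))))]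
  .n)

def s26_255_173 : T TT 256 :=
  (.q k65 [(.s k66 k67 0 (.s k192 k128 7 (.s k3 k129 8 (.s k2 k1 0 (.d k130 k194 k195 7 8))))), (.s
  k67 k66 0 (.s k105 k125 5 (.s k86 k124 6 (.s k87 k84 0 (.d k127 k107 k106 5 6))))), (.s k105 k125
  5 (.s k106 k127 6 (.s k107 k104 0 (.s k192 k128 7 (.s k63 k149 14 (.d k195 k130 k151 8 13))))))]
  .n)

def s26_255_174 : T TT 256 :=
  (.f k192 k128 7 (.q k12 [(.s k8 k4 1 (.s k72 k132 9 (.s k68 k76 1 (.d k136 k200 k204 7 9)))), (.s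
  k4 k8 1 (.s k106 k127 6 (.s k63 k149 14 (.s k46 k29 4 (.d k166 k226 k247 9 12))))), (.s k72 k132 9
  (.s k106 k127 6 (.s k89 k123 4 (.s k81 k93 1 (.d k243 k162 k166 12 14)))))] .n))

def s26_255_175 : T TT 256 :=
  (.q k80 [(.s k112 k96 3 (.s k127 k106 6 (.s k117 k122 2 (.s k101 k69 3 (.d k90 k95 k79 2 6))))),
  (.s k96 k112 3 (.s k160 k240 11 (.s k32 k224 7 (.s k48 k16 3 (.d k192 k128 k144 7 11))))), (.s
  k106 k127 6 (.s k192 k128 7 (.s k63 k149 14 (.s k240 k160 11 (.s k122 k181 10 (.d k90 k95 k74 2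
  3))))))] (.c k15 (.l (.s k95 k90 2 (.s k96 k112 3 (.s k192 k128 7 (.s k48 k144 11 (.s k32 k16 3
  (.d k160 k240 k224 11 7))))))) (.c k95 (.q k15 [(.s k5 k10 2 (.s k165 k245 11 (.d k240 k160 k90 11
  14))), (.s k10 k5 2 (.s k192 k128 7 (.s k74 k133 10 (.s k69 k79 2 (.d k138 k202 k207 7 10))))),
  (.s k96 k112 3 (.s k160 k240 11 (.s k32 k224 7 (.s k48 k16 3 (.d k192 k128 k144 7 11)))))] .n)
  .n)))

def s26_255_176 : T TT 256 :=
  (.q k65 [(.s k67 k66 0 (.s k105 k125 5 (.s k86 k124 6 (.s k87 k84 0 (.d k127 k107 k106 5 6))))),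
  (.s k66 k67 0 (.s k130 k195 8 (.s k2 k194 7 (.s k3 k1 0 (.d k192 k128 k129 7 8))))), (.s k105 k125
  5 (.s k106 k127 6 (.s k107 k104 0 (.s k192 k128 7 (.s k63 k149 14 (.d k195 k130 k151 8 13))))))]
  .n)

def s26_255_177 : T TT 256 :=
  (.q k65 [(.s k67 k66 0 (.s k105 k125 5 (.s k86 k124 6 (.s k87 k84 0 (.d k127 k107 k106 5 6))))),
  (.s k66 k67 0 (.s k130 k195 8 (.s k2 k194 7 (.s k3 k1 0 (.d k192 k128 k129 7 8))))), (.s k105 k125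
  5 (.s k106 k127 6 (.s k107 k104 0 (.s k192 k128 7 (.s k63 k149 14 (.d k195 k130 k151 8 13))))))]
  .n)

def s26_255_178 : T TT 256 :=
  (.q k65 [(.s k66 k67 0 (.s k192 k128 7 (.s k3 k129 8 (.s k2 k1 0 (.d k130 k194 k195 7 8))))), (.s
  k67 k66 0 (.s k105 k125 5 (.s k86 k124 6 (.s k87 k84 0 (.d k127 k107 k106 5 6))))), (.s k105 k125
  5 (.s k106 k127 6 (.s k107 k104 0 (.s k192 k128 7 (.s k63 k149 14 (.d k195 k130 k151 8 13))))))]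
  .n)

def s26_255_179 : T TT 256 :=
  (.q k65 [(.s k67 k66 0 (.s k105 k125 5 (.s k86 k124 6 (.s k87 k84 0 (.d k127 k107 k106 5 6))))),
  (.s k66 k67 0 (.s k130 k195 8 (.s k2 k194 7 (.s k3 k1 0 (.d k192 k128 k129 7 8))))), (.s k105 k125
  5 (.s k106 k127 6 (.s k107 k104 0 (.s k192 k128 7 (.s k63 k149 14 (.d k195 k130 k151 8 13))))))]
  .n)

def s26_255_180 : T TT 256 :=
  (.q k65 [(.s k66 k67 0 (.s k192 k128 7 (.s k3 k129 8 (.s k2 k1 0 (.d k130 k194 k195 7 8))))), (.s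
  k67 k66 0 (.s k105 k125 5 (.s k86 k124 6 (.s k87 k84 0 (.d k127 k107 k106 5 6))))), (.s k105 k125
  5 (.s k106 k127 6 (.s k107 k104 0 (.s k192 k128 7 (.s k63 k149 14 (.d k195 k130 k151 8 13))))))]
  .n)

def s26_255_181 : T TT 256 :=
  (.q k65 [(.s k66 k67 0 (.s k192 k128 7 (.s k3 k129 8 (.s k2 k1 0 (.d k130 k194 k195 7 8))))), (.s
  k67 k66 0 (.s k105 k125 5 (.s k86 k124 6 (.s k87 k84 0 (.d k127 k107 k106 5 6))))), (.s k105 k125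
  5 (.s k106 k127 6 (.s k107 k104 0 (.s k192 k128 7 (.s k63 k149 14 (.d k195 k130 k151 8 13))))))]
  .n)

def s26_255_182 : T TT 256 :=
  (.q k65 [(.s k66 k67 0 (.s k192 k128 7 (.s k3 k129 8 (.s k2 k1 0 (.d k130 k194 k195 7 8))))), (.s
  k67 k66 0 (.s k105 k125 5 (.s k86 k124 6 (.s k87 k84 0 (.d k127 k107 k106 5 6))))), (.s k105 k125
  5 (.s k106 k127 6 (.s k107 k104 0 (.s k192 k128 7 (.s k63 k149 14 (.d k195 k130 k151 8 13))))))]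
  .n)

def s26_255_183 : T TT 256 :=
  (.q k65 [(.s k66 k67 0 (.s k192 k128 7 (.s k3 k129 8 (.s k2 k1 0 (.d k130 k194 k195 7 8))))), (.s
  k67 k66 0 (.s k105 k125 5 (.s k86 k124 6 (.s k87 k84 0 (.d k127 k107 k106 5 6))))), (.s k105 k125
  5 (.s k106 k127 6 (.s k107 k104 0 (.s k192 k128 7 (.s k63 k149 14 (.d k195 k130 k151 8 13))))))]
  .n)

def s26_255_184 : T TT 256 :=
  (.q k65 [(.s k66 k67 0 (.s k192 k128 7 (.s k3 k129 8 (.s k2 k1 0 (.d k130 k194 k195 7 8))))), (.s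
  k67 k66 0 (.s k105 k125 5 (.s k86 k124 6 (.s k87 k84 0 (.d k127 k107 k106 5 6))))), (.s k105 k125
  5 (.s k106 k127 6 (.s k107 k104 0 (.s k192 k128 7 (.s k63 k149 14 (.d k195 k130 k151 8 13))))))]
  .n)

def s26_255_185 : T TT 256 :=
  (.q k65 [(.s k66 k67 0 (.s k192 k128 7 (.s k3 k129 8 (.s k2 k1 0 (.d k130 k194 k195 7 8))))), (.s
  k67 k66 0 (.s k105 k125 5 (.s k86 k124 6 (.s k87 k84 0 (.d k127 k107 k106 5 6))))), (.s k105 k125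
  5 (.s k106 k127 6 (.s k107 k104 0 (.s k192 k128 7 (.s k63 k149 14 (.d k195 k130 k151 8 13))))))]
  .n)

def s26_255_186 : T TT 256 :=
  (.f k192 k128 7 (.q k48 [(.s k96 k144 11 (.s k80 k112 3 (.s k160 k240 11 (.d k32 k16 k224 3 7)))),
  (.s k16 k32 3 (.s k106 k127 6 (.s k63 k149 14 (.s k58 k53 2 (.d k154 k223 k202 10 11))))), (.s k96
  k144 11 (.s k106 k127 6 (.s k101 k111 2 (.s k69 k117 3 (.d k207 k138 k154 10 14)))))] .n))

def s26_255_187 : T TT 256 :=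
  (.f k192 k128 7 (.q k51 [(.s k34 k17 4 (.s k98 k145 12 (.s k81 k115 4 (.d k162 k226 k243 7 12)))),
  (.s k17 k34 4 (.s k106 k127 6 (.s k63 k149 14 (.s k59 k55 1 (.d k153 k221 k200 9 12))))), (.s k98
  k145 12 (.s k106 k127 6 (.s k102 k110 1 (.s k68 k119 4 (.d k204 k136 k153 9 14)))))] .n))

def s26_255_188 : T TT 256 :=
  (.q k65 [(.s k66 k67 0 (.s k192 k128 7 (.s k3 k129 8 (.s k2 k1 0 (.d k130 k194 k195 7 8))))), (.s
  k67 k66 0 (.s k105 k125 5 (.s k86 k124 6 (.s k87 k84 0 (.d k127 k107 k106 5 6))))), (.s k105 k125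
  5 (.s k106 k127 6 (.s k107 k104 0 (.s k192 k128 7 (.s k63 k149 14 (.d k195 k130 k151 8 13))))))]
  .n)

def s26_255_189 : T TT 256 :=
  (.q k65 [(.s k66 k67 0 (.s k192 k128 7 (.s k129 k3 8 (.s k193 k1 7 (.d k195 k194 k130 0 8))))),
  (.s k67 k66 0 (.s k105 k125 5 (.s k86 k124 6 (.s k87 k84 0 (.d k127 k107 k106 5 6))))), (.s k105
  k125 5 (.s k106 k127 6 (.s k107 k104 0 (.s k192 k128 7 (.s k63 k149 14 (.d k195 k130 k151 8
  13))))))] .n)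

def s26_255_190 : T TT 256 :=
  (.f k192 k128 7 (.q k60 [(.s k40 k20 5 (.s k104 k148 13 (.s k84 k124 5 (.d k168 k232 k252 7
  13)))), (.s k20 k40 5 (.s k106 k127 6 (.s k63 k149 14 (.s k62 k61 0 (.d k150 k215 k194 8 13))))),
  (.s k104 k148 13 (.s k106 k127 6 (.s k105 k107 0 (.s k65 k125 5 (.d k195 k130 k150 8 14)))))] .n))

def s26_255_191 : T TT 256 :=
  (.q k68 [(.s k127 k106 6 (.s k76 k72 1 (.s k93 k110 4 (.s k89 k81 1 (.d k102 k119 k115 4 6))))),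
  (.s k72 k76 1 (.s k136 k204 9 (.s k8 k200 7 (.s k12 k4 1 (.d k192 k128 k132 7 9))))), (.s k102
  k119 4 (.s k192 k128 7 (.s k204 k136 9 (.s k51 k153 14 (.s k98 k145 12 (.d k106 k127 k110 6
  1))))))] (.c k63 (.l (.s k127 k106 6 (.s k76 k72 1 (.s k93 k110 4 (.s k89 k81 1 (.d k102 k119 k115
  4 6)))))) (.c k127 (.q k63 [(.s k192 k128 7 (.s k149 k106 14 (.d k21 k42 k213 6 7))), (.s k72 k76
  1 (.s k136 k204 9 (.s k8 k200 7 (.s k12 k4 1 (.d k192 k128 k132 7 9))))), (.s k21 k42 6 (.s k102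
  k119 4 (.s k204 k136 9 (.s k51 k153 14 (.s k55 k59 1 (.d k149 k213 k196 7 12))))))] .n) .n)))

def s26_255_192 : T TT 256 :=
  (.q k105 [(.s k106 k127 6 (.s k104 k107 0 (.s k124 k84 5 (.s k67 k86 6 (.d k65 k66 k125 0 5))))),
  (.s k65 k125 5 (.s k67 k66 0 (.s k86 k124 6 (.s k195 k130 8 (.s k3 k131 7 (.s k169 k252 14 (.d k1
  k2 k253 0 13)))))))] (.c k65 (.q k108 [(.s k99 k102 2 (.s k106 k127 6 (.s k104 k107 0 (.s k96 k100
  1 (.s k97 k98 0 (.d k101 k109 k111 1 2)))))), (.s k102 k99 2 (.s k68 k119 4 (.s k76 k72 1 (.s k124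
  k92 3 (.s k84 k104 5 (.d k86 k87 k67 0 6)))))), (.s k99 k102 2 (.s k106 k127 6 (.s k107 k104 0 (.s
  k111 k103 1 (.s k101 k96 2 (.d k109 k110 k97 0 1)))))), (.s k106 k127 6 (.s k104 k107 0 (.s k100
  k96 1 (.s k124 k84 5 (.s k76 k92 3 (.s k72 k68 1 (.d k88 k120 k112 3 5)))))))] (.c k104 (.l (.s
  k102 k99 2 (.s k68 k119 4 (.s k76 k72 1 (.s k89 k115 6 (.s k93 k81 1 (.d k127 k110 k106 4 6)))))))
  (.c k213 (.q k234 [(.s k99 k102 2 (.s k106 k127 6 (.s k104 k107 0 (.s k96 k100 1 (.s k97 k98 0 (.d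
  k101 k109 k111 1 2)))))), (.s k102 k99 2 (.s k68 k119 4 (.s k76 k72 1 (.s k124 k92 3 (.s k84 k104
  5 (.d k86 k87 k67 0 6)))))), (.s k99 k102 2 (.s k106 k127 6 (.s k107 k104 0 (.s k111 k103 1 (.s
  k101 k96 2 (.d k109 k110 k97 0 1)))))), (.s k106 k127 6 (.s k104 k107 0 (.s k84 k124 5 (.s k168
  k252 13 (.s k170 k42 7 (.d k40 k232 k235 7 8))))))] (.c k104 (.l (.s k102 k99 2 (.s k68 k119 4 (.s
  k76 k72 1 (.s k89 k115 6 (.s k93 k81 1 (.d k127 k110 k106 4 6))))))) .n)) (.c k234 (.q k213 [(.s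
  k99 k102 2 (.s k106 k127 6 (.s k104 k107 0 (.s k96 k100 1 (.s k97 k98 0 (.d k101 k109 k111 1
  2)))))), (.s k102 k99 2 (.s k68 k119 4 (.s k76 k72 1 (.s k124 k92 3 (.s k84 k104 5 (.d k86 k87 k67
  0 6)))))), (.s k99 k102 2 (.s k106 k127 6 (.s k107 k104 0 (.s k111 k103 1 (.s k101 k96 2 (.d k109
  k110 k97 0 1)))))), (.s k106 k127 6 (.s k104 k107 0 (.s k100 k96 1 (.s k124 k84 5 (.s k76 k92 3
  (.s k72 k68 1 (.d k88 k120 k112 3 5)))))))] (.c k104 (.l (.s k102 k99 2 (.s k68 k119 4 (.s k76 k72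
  1 (.s k89 k115 6 (.s k93 k81 1 (.d k127 k110 k106 4 6))))))) .n)) .n)))) (.c k66 (.l (.s k125 k65
  5 (.s k127 k106 6 (.s k124 k126 0 (.s k86 k67 6 (.d k84 k87 k104 0 5)))))) (.c k67 (.f k125 k65 5
  (.l (.s k127 k106 6 (.s k124 k126 0 (.s k84 k104 5 (.s k252 k168 13 (.s k60 k188 7 (.s k150 k195
  14 (.d k20 k40 k215 5 8))))))))) (.c k86 (.f k65 k125 5 (.l (.s k106 k127 6 (.s k104 k107 0 (.s
  k195 k130 8 (.s k60 k150 14 (.s k40 k20 5 (.s k168 k232 7 (.d k84 k124 k252 5 13))))))))) (.c k124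
  (.f k65 k125 5 (.l (.s k67 k66 0 (.s k195 k130 8 (.s k3 k131 7 (.s k60 k150 14 (.s k41 k22 6 (.s
  k169 k233 7 (.d k1 k2 k253 0 13))))))))) (.c k125 (.q k60 [(.s k20 k40 5 (.d k150 k215 k195 8
  14)), (.s k106 k127 6 (.s k104 k107 0 (.s k124 k84 5 (.s k67 k86 6 (.s k65 k66 0 (.d k195 k130
  k150 8 14)))))), (.s k40 k20 5 (.s k106 k127 6 (.s k104 k107 0 (.s k168 k232 7 (.d k84 k124 k252 5
  13)))))] (.c k213 (.q k234 [(.s k20 k40 5 (.d k150 k215 k195 8 14)), (.s k106 k127 6 (.s k42 k170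
  7 (.s k63 k21 6 (.s k62 k61 0 (.d k150 k194 k195 13 14))))), (.s k40 k20 5 (.s k106 k127 6 (.d
  k170 k42 k235 7 8)))] .n) (.c k234 (.q k213 [(.s k20 k40 5 (.d k150 k215 k195 8 14)), (.s k21 k149
  7 (.s k63 k42 6 (.s k62 k61 0 (.s k106 k127 6 (.d k150 k194 k195 13 14))))), (.s k40 k20 5 (.s
  k106 k127 6 (.s k104 k107 0 (.s k168 k232 7 (.d k84 k124 k252 5 13)))))] .n) .n))) (.c k127 (.l
  (.s k65 k125 5 (.s k67 k66 0 (.s k124 k86 6 (.s k84 k104 5 (.s k195 k130 8 (.s k60 k150 14 (.d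
  k252 k188 k168 7 13)))))))) (.c k213 (.q k234 [(.s k106 k127 6 (.s k104 k107 0 (.s k124 k84 5 (.s
  k67 k86 6 (.d k65 k66 k125 0 5))))), (.s k65 k125 5 (.s k195 k130 8 (.s k60 k150 14 (.s k40 k20 5
  (.s k170 k235 8 (.d k106 k127 k42 6 7)))))), (.s k106 k127 6 (.s k104 k107 0 (.s k170 k42 7 (.s
  k40 k235 8 (.s k168 k232 7 (.d k84 k252 k124 13 5))))))] (.c k106 (.l (.s k65 k125 5 (.s k67 k66 0
  (.s k86 k124 6 (.s k84 k87 0 (.s k195 k130 8 (.s k3 k131 7 (.d k252 k168 k169 13 14)))))))) (.c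
  k127 (.l (.s k65 k125 5 (.s k67 k66 0 (.s k124 k86 6 (.s k84 k104 5 (.s k195 k130 8 (.s k60 k150
  14 (.d k252 k188 k168 7 13)))))))) .n))) (.c k234 (.q k213 [(.s k106 k127 6 (.s k104 k107 0 (.s
  k124 k84 5 (.s k67 k86 6 (.d k65 k66 k125 0 5))))), (.s k65 k125 5 (.s k149 k21 7 (.s k193 k61 13
  (.s k253 k233 5 (.d k1 k129 k169 7 13)))))] (.c k65 (.q k1 [(.s k21 k149 7 (.s k41 k61 5 (.d k169
  k233 k253 7 13))), (.s k3 k2 0 (.s k106 k127 6 (.s k104 k107 0 (.s k84 k124 5 (.s k169 k253 13 (.d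
  k86 k87 k252 0 14)))))), (.s k149 k21 7 (.s k193 k61 13 (.d k253 k233 k169 5 13))), (.s k3 k2 0
  (.s k21 k149 7 (.s k41 k61 5 (.s k22 k60 6 (.s k23 k20 0 (.d k63 k43 k42 5 6))))))] .n) (.c k125
  (.q k60 [(.s k20 k40 5 (.d k150 k215 k195 8 14)), (.s k21 k149 7 (.s k63 k42 6 (.s k62 k61 0 (.s
  k106 k127 6 (.d k150 k194 k195 13 14))))), (.s k40 k20 5 (.s k106 k127 6 (.s k104 k107 0 (.s k168
  k232 7 (.d k84 k124 k252 5 13)))))] .n) .n))) .n))))))))))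

def s26_255_193 : T TT 256 :=
  (.q k65 [(.s k66 k67 0 (.s k192 k128 7 (.s k3 k129 8 (.s k2 k1 0 (.d k130 k194 k195 7 8))))), (.s
  k67 k66 0 (.s k105 k125 5 (.s k86 k124 6 (.s k87 k84 0 (.d k127 k107 k106 5 6))))), (.s k105 k125
  5 (.s k106 k127 6 (.s k107 k104 0 (.s k192 k128 7 (.s k63 k149 14 (.d k195 k130 k151 8 13))))))]
  .n)

def s26_255_194 : T TT 256 :=
  (.q k65 [(.s k67 k66 0 (.s k105 k125 5 (.s k86 k124 6 (.s k87 k84 0 (.d k127 k107 k106 5 6))))),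
  (.s k66 k67 0 (.s k105 k125 5 (.s k192 k128 7 (.s k129 k3 8 (.s k193 k1 7 (.s k149 k61 13 (.d k106
  k127 k63 6 14))))))), (.s k66 k67 0 (.s k106 k127 6 (.s k192 k128 7 (.s k3 k129 8 (.s k1 k2 0 (.s
  k169 k253 13 (.d k86 k252 k126 14 5))))))), (.s k105 k125 5 (.s k106 k127 6 (.s k107 k104 0 (.s
  k192 k128 7 (.s k63 k149 14 (.d k195 k130 k151 8 13))))))] (.c k106 (.l (.s k67 k66 0 (.s k105
  k125 5 (.s k86 k124 6 (.s k84 k87 0 (.s k252 k168 13 (.s k3 k169 14 (.d k195 k130 k131 8 7))))))))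
  (.c k127 (.l (.s k67 k66 0 (.s k105 k125 5 (.s k124 k86 6 (.s k84 k104 5 (.s k252 k168 13 (.s k60
  k188 7 (.d k195 k130 k150 8 14)))))))) .n)))

def s26_255_195 : T TT 256 :=
  (.f k192 k128 7 (.f k127 k106 6 (.q k81 [(.s k98 k115 4 (.s k51 k145 12 (.s k34 k17 4 (.d k162
  k226 k243 7 12)))), (.s k89 k93 1 (.s k115 k98 4 (.s k102 k76 6 (.d k119 k123 k68 1 4)))), (.s k89
  k93 1 (.s k243 k162 12 (.s k12 k166 14 (.s k8 k4 1 (.s k72 k132 9 (.s k68 k76 1 (.d k136 k200 k204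
  7 9)))))))] (.c k215 (.q k235 [(.s k98 k115 4 (.s k51 k145 12 (.s k34 k17 4 (.d k162 k226 k243 7
  12)))), (.s k89 k93 1 (.s k115 k98 4 (.s k102 k76 6 (.d k119 k123 k68 1 4)))), (.s k89 k93 1 (.s
  k243 k162 12 (.s k12 k166 14 (.s k8 k4 1 (.s k72 k132 9 (.s k68 k76 1 (.d k136 k200 k204 7
  9)))))))] .n) (.c k235 (.q k215 [(.s k98 k115 4 (.s k51 k145 12 (.s k34 k17 4 (.d k162 k226 k243 7
  12)))), (.s k89 k93 1 (.s k150 k20 8 (.s k211 k28 10 (.s k16 k146 8 (.d k223 k219 k154 1 10)))))]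
  .n) .n)))))

def s26_255_196 : T TT 256 :=
  (.q k65 [(.s k66 k67 0 (.s k192 k128 7 (.s k3 k129 8 (.s k2 k1 0 (.d k130 k194 k195 7 8))))), (.s
  k67 k66 0 (.s k105 k125 5 (.s k86 k124 6 (.s k87 k84 0 (.d k127 k107 k106 5 6))))), (.s k105 k125
  5 (.s k106 k127 6 (.s k107 k104 0 (.s k192 k128 7 (.s k63 k149 14 (.d k195 k130 k151 8 13))))))]
  .n)

def s26_255_197 : T TT 256 :=
  (.q k65 [(.s k66 k67 0 (.s k192 k128 7 (.s k3 k129 8 (.s k2 k1 0 (.d k130 k194 k195 7 8))))), (.s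
  k67 k66 0 (.s k105 k125 5 (.s k86 k124 6 (.s k87 k84 0 (.d k127 k107 k106 5 6))))), (.s k105 k125
  5 (.s k106 k127 6 (.s k107 k104 0 (.s k192 k128 7 (.s k63 k149 14 (.d k195 k130 k151 8 13))))))]
  .n)

def s26_255_198 : T TT 256 :=
  (.q k65 [(.s k66 k67 0 (.s k192 k128 7 (.s k3 k129 8 (.s k2 k1 0 (.d k130 k194 k195 7 8))))), (.s
  k67 k66 0 (.s k105 k125 5 (.s k86 k124 6 (.s k87 k84 0 (.d k127 k107 k106 5 6))))), (.s k105 k125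
  5 (.s k106 k127 6 (.s k107 k104 0 (.s k192 k128 7 (.s k63 k149 14 (.d k195 k130 k151 8 13))))))]
  .n)

def s26_255_199 : T TT 256 :=
  (.q k65 [(.s k66 k67 0 (.s k192 k128 7 (.s k3 k129 8 (.s k2 k1 0 (.d k130 k194 k195 7 8))))), (.s
  k67 k66 0 (.s k105 k125 5 (.s k86 k124 6 (.s k87 k84 0 (.d k127 k107 k106 5 6))))), (.s k105 k125
  5 (.s k106 k127 6 (.s k107 k104 0 (.s k192 k128 7 (.s k63 k149 14 (.d k195 k130 k151 8 13))))))]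
  .n)

def s26_255_200 : T TT 256 :=
  (.q k65 [(.s k66 k67 0 (.s k192 k128 7 (.s k3 k129 8 (.s k2 k1 0 (.d k130 k194 k195 7 8))))), (.s
  k67 k66 0 (.s k105 k125 5 (.s k86 k124 6 (.s k87 k84 0 (.d k127 k107 k106 5 6))))), (.s k105 k125
  5 (.s k106 k127 6 (.s k107 k104 0 (.s k192 k128 7 (.s k63 k149 14 (.d k195 k130 k151 8 13))))))]
  .n)

def s26_255_201 : T TT 256 :=
  (.q k65 [(.s k66 k67 0 (.s k192 k128 7 (.s k3 k129 8 (.s k2 k1 0 (.d k130 k194 k195 7 8))))), (.s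
  k67 k66 0 (.s k105 k125 5 (.s k86 k124 6 (.s k87 k84 0 (.d k127 k107 k106 5 6))))), (.s k105 k125
  5 (.s k106 k127 6 (.s k107 k104 0 (.s k192 k128 7 (.s k63 k149 14 (.d k195 k130 k151 8 13))))))]
  .n)

def s26_255_202 : T TT 256 :=
  (.q k65 [(.s k66 k67 0 (.s k192 k128 7 (.s k3 k129 8 (.s k2 k1 0 (.d k130 k194 k195 7 8))))), (.s
  k67 k66 0 (.s k105 k125 5 (.s k86 k124 6 (.s k87 k84 0 (.d k127 k107 k106 5 6))))), (.s k105 k125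
  5 (.s k106 k127 6 (.s k107 k104 0 (.s k192 k128 7 (.s k63 k149 14 (.d k195 k130 k151 8 13))))))]
  .n)

def s26_255_203 : T TT 256 :=
  (.q k65 [(.s k66 k67 0 (.s k192 k128 7 (.s k3 k129 8 (.s k2 k1 0 (.d k130 k194 k195 7 8))))), (.s
  k67 k66 0 (.s k105 k125 5 (.s k86 k124 6 (.s k87 k84 0 (.d k127 k107 k106 5 6))))), (.s k105 k125
  5 (.s k106 k127 6 (.s k107 k104 0 (.s k192 k128 7 (.s k63 k149 14 (.d k195 k130 k151 8 13))))))]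
  .n)

def s26_255_204 : T TT 256 :=
  (.f k127 k106 6 (.f k192 k128 7 (.q k84 [(.s k104 k124 5 (.s k60 k148 13 (.s k40 k20 5 (.d k168
  k232 k252 7 13)))), (.s k86 k87 0 (.s k124 k104 5 (.s k105 k67 6 (.d k125 k126 k65 0 5)))), (.s
  k86 k87 0 (.s k252 k168 13 (.s k3 k169 14 (.s k2 k1 0 (.s k66 k129 8 (.s k65 k67 0 (.d k130 k194
  k195 7 8)))))))] (.c k221 (.q k238 [(.s k104 k124 5 (.s k60 k148 13 (.s k40 k20 5 (.d k168 k232
  k252 7 13)))), (.s k86 k87 0 (.s k124 k104 5 (.s k105 k67 6 (.d k125 k126 k65 0 5)))), (.s k86 k87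
  0 (.s k252 k168 13 (.s k3 k169 14 (.s k2 k1 0 (.s k66 k129 8 (.s k65 k67 0 (.d k130 k194 k195 7
  8)))))))] .n) (.c k238 (.q k221 [(.s k104 k124 5 (.s k60 k148 13 (.s k40 k20 5 (.d k168 k232 k252
  7 13)))), (.s k86 k87 0 (.s k153 k17 9 (.s k220 k19 10 (.s k16 k152 9 (.d k223 k222 k154 0
  10)))))] .n) .n)))))

def s26_255_205 : T TT 256 :=
  (.q k65 [(.s k67 k66 0 (.s k105 k125 5 (.s k86 k124 6 (.s k87 k84 0 (.d k127 k107 k106 5 6))))),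
  (.s k66 k67 0 (.s k130 k195 8 (.s k2 k194 7 (.s k3 k1 0 (.d k192 k128 k129 7 8))))), (.s k105 k125
  5 (.s k106 k127 6 (.s k107 k104 0 (.s k192 k128 7 (.s k63 k149 14 (.d k195 k130 k151 8 13))))))]
  .n)

def s26_255_206 : T TT 256 :=
  (.q k65 [(.s k66 k67 0 (.s k192 k128 7 (.s k3 k129 8 (.s k2 k1 0 (.d k130 k194 k195 7 8))))), (.s
  k67 k66 0 (.s k105 k125 5 (.s k86 k124 6 (.s k87 k84 0 (.d k127 k107 k106 5 6))))), (.s k105 k125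
  5 (.s k106 k127 6 (.s k107 k104 0 (.s k192 k128 7 (.s k63 k149 14 (.d k195 k130 k151 8 13))))))]
  .n)

def s26_255_207 : T TT 256 :=
  (.f k127 k106 6 (.f k192 k128 7 (.q k84 [(.s k104 k124 5 (.s k60 k148 13 (.s k40 k20 5 (.d k168
  k232 k252 7 13)))), (.s k86 k87 0 (.s k124 k104 5 (.s k105 k67 6 (.d k125 k126 k65 0 5)))), (.s
  k86 k87 0 (.s k252 k168 13 (.s k3 k169 14 (.s k2 k1 0 (.s k66 k129 8 (.s k65 k67 0 (.d k130 k194
  k195 7 8)))))))] (.c k223 (.q k239 [(.s k104 k124 5 (.s k60 k148 13 (.s k40 k20 5 (.d k168 k232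
  k252 7 13)))), (.s k86 k87 0 (.s k124 k104 5 (.s k105 k67 6 (.d k125 k126 k65 0 5)))), (.s k86 k87
  0 (.s k252 k168 13 (.s k3 k169 14 (.s k2 k1 0 (.s k66 k129 8 (.s k65 k67 0 (.d k130 k194 k195 7
  8)))))))] .n) (.c k239 (.q k223 [(.s k104 k124 5 (.s k60 k148 13 (.s k40 k20 5 (.d k168 k232 k252
  7 13)))), (.s k16 k154 10 (.s k86 k87 0 (.s k220 k152 9 (.s k153 k19 10 (.d k221 k222 k17 0
  9)))))] .n) .n)))))

def s26_255_208 : T TT 256 :=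
  (.q k65 [(.s k66 k67 0 (.s k192 k128 7 (.s k3 k129 8 (.s k2 k1 0 (.d k130 k194 k195 7 8))))), (.s
  k67 k66 0 (.s k105 k125 5 (.s k86 k124 6 (.s k87 k84 0 (.d k127 k107 k106 5 6))))), (.s k105 k125
  5 (.s k106 k127 6 (.s k107 k104 0 (.s k192 k128 7 (.s k63 k149 14 (.d k195 k130 k151 8 13))))))]
  .n)

def s26_255_209 : T TT 256 :=
  (.q k65 [(.s k66 k67 0 (.s k192 k128 7 (.s k3 k129 8 (.s k2 k1 0 (.d k130 k194 k195 7 8))))), (.s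
  k67 k66 0 (.s k105 k125 5 (.s k86 k124 6 (.s k87 k84 0 (.d k127 k107 k106 5 6))))), (.s k105 k125
  5 (.s k106 k127 6 (.s k107 k104 0 (.s k192 k128 7 (.s k63 k149 14 (.d k195 k130 k151 8 13))))))]
  .n)

def s26_255_210 : T TT 256 :=
  (.q k65 [(.s k66 k67 0 (.s k192 k128 7 (.s k3 k129 8 (.s k2 k1 0 (.d k130 k194 k195 7 8))))), (.s
  k67 k66 0 (.s k105 k125 5 (.s k86 k124 6 (.s k87 k84 0 (.d k127 k107 k106 5 6))))), (.s k105 k125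
  5 (.s k106 k127 6 (.s k107 k104 0 (.s k192 k128 7 (.s k63 k149 14 (.d k195 k130 k151 8 13))))))]
  .n)

def s26_255_211 : T TT 256 :=
  (.q k65 [(.s k66 k67 0 (.s k192 k128 7 (.s k3 k129 8 (.s k2 k1 0 (.d k130 k194 k195 7 8))))), (.s
  k67 k66 0 (.s k105 k125 5 (.s k86 k124 6 (.s k87 k84 0 (.d k127 k107 k106 5 6))))), (.s k105 k125
  5 (.s k106 k127 6 (.s k107 k104 0 (.s k192 k128 7 (.s k63 k149 14 (.d k195 k130 k151 8 13))))))]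
  .n)

def s26_255_212 : T TT 256 :=
  (.q k65 [(.s k66 k67 0 (.s k192 k128 7 (.s k3 k129 8 (.s k2 k1 0 (.d k130 k194 k195 7 8))))), (.s
  k67 k66 0 (.s k105 k125 5 (.s k86 k124 6 (.s k87 k84 0 (.d k127 k107 k106 5 6))))), (.s k105 k125
  5 (.s k106 k127 6 (.s k107 k104 0 (.s k192 k128 7 (.s k63 k149 14 (.d k195 k130 k151 8 13))))))]
  .n)

def s26_255_213 : T TT 256 :=
  (.q k90 [(.s k95 k80 2 (.s k127 k106 6 (.s k79 k111 3 (.s k69 k74 2 (.d k101 k117 k112 3 6))))),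
  (.s k80 k95 2 (.s k96 k112 3 (.s k160 k240 11 (.s k32 k224 7 (.s k48 k16 3 (.d k192 k128 k144 7
  11)))))), (.s k106 k127 6 (.s k74 k122 3 (.s k192 k128 7 (.s k15 k133 10 (.s k5 k10 2 (.d k165
  k245 k240 11 14))))))] (.c k112 (.l (.s k80 k95 2 (.s k106 k127 6 (.s k122 k74 3 (.s k192 k128 7
  (.s k63 k149 14 (.d k240 k181 k160 10 11))))))) (.c k192 (.q k234 [(.s k95 k80 2 (.s k127 k106 6
  (.s k79 k111 3 (.s k101 k112 6 (.d k69 k74 k117 2 3))))), (.s k80 k95 2 (.s k240 k160 11 (.s k15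
  k165 14 (.s k10 k5 2 (.s k170 k250 11 (.d k106 k127 k42 6 7)))))), (.s k106 k127 6 (.s k74 k122 3
  (.s k170 k42 7 (.s k10 k250 11 (.s k138 k202 7 (.d k69 k207 k79 10 2))))))] (.c k106 (.l (.s k80
  k95 2 (.s k112 k96 3 (.s k101 k79 6 (.s k69 k117 3 (.s k207 k138 10 (.s k48 k154 14 (.d k240 k176
  k160 7 11)))))))) (.c k127 (.l (.s k80 k95 2 (.s k112 k96 3 (.s k79 k101 6 (.s k69 k74 2 (.s k207
  k138 10 (.s k15 k143 7 (.d k240 k160 k165 11 14)))))))) .n))) (.c k234 (.l (.s k192 k128 7 (.s k80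
  k95 2 (.s k96 k112 3 (.s k48 k144 11 (.s k32 k16 3 (.d k160 k224 k240 7 11))))))) .n))))

def s26_255_214 : T TT 256 :=
  (.q k65 [(.s k66 k67 0 (.s k192 k128 7 (.s k3 k129 8 (.s k2 k1 0 (.d k130 k194 k195 7 8))))), (.s
  k67 k66 0 (.s k105 k125 5 (.s k86 k124 6 (.s k87 k84 0 (.d k127 k107 k106 5 6))))), (.s k105 k125
  5 (.s k106 k127 6 (.s k107 k104 0 (.s k192 k128 7 (.s k63 k149 14 (.d k195 k130 k151 8 13))))))]
  .n)

def s26_255_215 : T TT 256 :=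
  (.q k195 [(.s k65 k130 8 (.s k66 k67 0 (.s k192 k128 7 (.s k193 k194 0 (.d k129 k1 k3 7 8))))),
  (.s k106 k127 6 (.s k192 k128 7 (.s k63 k149 14 (.s k107 k151 13 (.s k105 k104 0 (.s k150 k60 14
  (.d k194 k193 k62 0 13))))))), (.s k65 k130 8 (.s k67 k66 0 (.s k105 k125 5 (.s k86 k124 6 (.s k87
  k84 0 (.d k127 k107 k106 5 6))))))] (.c k194 (.l (.s k65 k130 8 (.s k105 k125 5 (.s k60 k150 14
  (.s k106 k127 6 (.s k104 k107 0 (.d k192 k128 k148 7 13))))))) .n))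

def s26_255_216 : T TT 256 :=
  (.q k65 [(.s k66 k67 0 (.s k192 k128 7 (.s k3 k129 8 (.s k2 k1 0 (.d k130 k194 k195 7 8))))), (.s
  k67 k66 0 (.s k105 k125 5 (.s k86 k124 6 (.s k87 k84 0 (.d k127 k107 k106 5 6))))), (.s k105 k125
  5 (.s k106 k127 6 (.s k107 k104 0 (.s k192 k128 7 (.s k63 k149 14 (.d k195 k130 k151 8 13))))))]
  .n)

def s26_255_217 : T TT 256 :=
  (.q k65 [(.s k66 k67 0 (.s k192 k128 7 (.s k3 k129 8 (.s k2 k1 0 (.d k130 k194 k195 7 8))))), (.s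
  k67 k66 0 (.s k105 k125 5 (.s k86 k124 6 (.s k87 k84 0 (.d k127 k107 k106 5 6))))), (.s k105 k125
  5 (.s k106 k127 6 (.s k107 k104 0 (.s k192 k128 7 (.s k63 k149 14 (.d k195 k130 k151 8 13))))))]
  .n)

def s26_255_218 : T TT 256 :=
  (.q k90 [(.s k95 k80 2 (.s k127 k106 6 (.s k79 k111 3 (.s k69 k74 2 (.d k101 k117 k112 3 6))))),
  (.s k80 k95 2 (.s k96 k112 3 (.s k160 k240 11 (.s k32 k224 7 (.s k48 k16 3 (.d k192 k128 k144 7
  11)))))), (.s k106 k127 6 (.s k74 k122 3 (.s k192 k128 7 (.s k15 k133 10 (.s k5 k10 2 (.d k165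
  k245 k240 11 14))))))] (.c k112 (.l (.s k80 k95 2 (.s k106 k127 6 (.s k122 k74 3 (.s k192 k128 7
  (.s k63 k149 14 (.d k240 k181 k160 10 11))))))) .n))

def s26_255_219 : T TT 256 :=
  (.q k65 [(.s k66 k67 0 (.s k192 k128 7 (.s k3 k129 8 (.s k2 k1 0 (.d k130 k194 k195 7 8))))), (.s
  k67 k66 0 (.s k105 k125 5 (.s k86 k124 6 (.s k87 k84 0 (.d k127 k107 k106 5 6))))), (.s k105 k125
  5 (.s k106 k127 6 (.s k107 k104 0 (.s k192 k128 7 (.s k63 k149 14 (.d k195 k130 k151 8 13))))))]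
  .n)

def s26_255_220 : T TT 256 :=
  (.q k65 [(.s k66 k67 0 (.s k192 k128 7 (.s k3 k129 8 (.s k2 k1 0 (.d k130 k194 k195 7 8))))), (.s
  k67 k66 0 (.s k105 k125 5 (.s k86 k124 6 (.s k87 k84 0 (.d k127 k107 k106 5 6))))), (.s k105 k125
  5 (.s k106 k127 6 (.s k107 k104 0 (.s k192 k128 7 (.s k63 k149 14 (.d k195 k130 k151 8 13))))))]
  .n)

def s26_255_221 : T TT 256 :=
  (.q k204 [(.s k68 k136 9 (.s k72 k76 1 (.s k192 k128 7 (.s k196 k200 1 (.d k132 k4 k12 7 9))))),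
  (.s k106 k127 6 (.s k192 k128 7 (.s k63 k149 14 (.s k110 k157 12 (.s k102 k98 1 (.s k153 k51 14
  (.d k200 k196 k59 1 12))))))), (.s k68 k136 9 (.s k76 k72 1 (.s k102 k119 4 (.s k89 k115 6 (.s k93
  k81 1 (.d k127 k110 k106 4 6))))))] (.c k200 (.l (.s k68 k136 9 (.s k102 k119 4 (.s k51 k153 14
  (.s k106 k127 6 (.s k98 k110 1 (.d k192 k128 k145 7 12))))))) .n))

def s26_255_222 : T TT 256 :=
  (.q k65 [(.s k66 k67 0 (.s k192 k128 7 (.s k3 k129 8 (.s k2 k1 0 (.d k130 k194 k195 7 8))))), (.s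
  k67 k66 0 (.s k105 k125 5 (.s k86 k124 6 (.s k87 k84 0 (.d k127 k107 k106 5 6))))), (.s k105 k125
  5 (.s k106 k127 6 (.s k107 k104 0 (.s k192 k128 7 (.s k63 k149 14 (.d k195 k130 k151 8 13))))))]
  .n)

def s26_255_223 : T TT 256 :=
  (.q k207 [(.s k69 k138 10 (.s k74 k79 2 (.s k192 k128 7 (.s k197 k202 2 (.d k133 k5 k15 7 10))))),
  (.s k69 k138 10 (.s k79 k74 2 (.s k101 k117 3 (.s k90 k112 6 (.s k95 k80 2 (.d k127 k111 k106 3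
  6)))))), (.s k106 k127 6 (.s k192 k128 7 (.s k63 k149 14 (.s k111 k159 11 (.s k101 k96 2 (.s k154
  k48 14 (.d k202 k197 k58 2 11)))))))] (.c k202 (.l (.s k69 k138 10 (.s k101 k117 3 (.s k48 k154 14
  (.s k106 k127 6 (.s k96 k111 2 (.d k192 k128 k144 7 11))))))) .n))

def s26_255_224 : T TT 256 :=
  (.q k65 [(.s k66 k67 0 (.s k192 k128 7 (.s k3 k129 8 (.s k2 k1 0 (.d k130 k194 k195 7 8))))), (.s
  k67 k66 0 (.s k105 k125 5 (.s k86 k124 6 (.s k87 k84 0 (.d k127 k107 k106 5 6))))), (.s k105 k125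
  5 (.s k106 k127 6 (.s k107 k104 0 (.s k192 k128 7 (.s k63 k149 14 (.d k195 k130 k151 8 13))))))]
  .n)

def s26_255_225 : T TT 256 :=
  (.q k65 [(.s k66 k67 0 (.s k192 k128 7 (.s k3 k129 8 (.s k2 k1 0 (.d k130 k194 k195 7 8))))), (.s
  k67 k66 0 (.s k105 k125 5 (.s k86 k124 6 (.s k87 k84 0 (.d k127 k107 k106 5 6))))), (.s k105 k125
  5 (.s k106 k127 6 (.s k107 k104 0 (.s k192 k128 7 (.s k63 k149 14 (.d k195 k130 k151 8 13))))))]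
  .n)

def s26_255_226 : T TT 256 :=
  (.q k65 [(.s k66 k67 0 (.s k192 k128 7 (.s k3 k129 8 (.s k2 k1 0 (.d k130 k194 k195 7 8))))), (.s
  k67 k66 0 (.s k105 k125 5 (.s k86 k124 6 (.s k87 k84 0 (.d k127 k107 k106 5 6))))), (.s k105 k125
  5 (.s k106 k127 6 (.s k107 k104 0 (.s k192 k128 7 (.s k63 k149 14 (.d k195 k130 k151 8 13))))))]
  .n)

def s26_255_227 : T TT 256 :=
  (.q k65 [(.s k66 k67 0 (.s k192 k128 7 (.s k3 k129 8 (.s k2 k1 0 (.d k130 k194 k195 7 8))))), (.s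
  k67 k66 0 (.s k105 k125 5 (.s k86 k124 6 (.s k87 k84 0 (.d k127 k107 k106 5 6))))), (.s k105 k125
  5 (.s k106 k127 6 (.s k107 k104 0 (.s k192 k128 7 (.s k63 k149 14 (.d k195 k130 k151 8 13))))))]
  .n)

def s26_255_228 : T TT 256 :=
  (.q k65 [(.s k66 k67 0 (.s k192 k128 7 (.s k3 k129 8 (.s k2 k1 0 (.d k130 k194 k195 7 8))))), (.s
  k67 k66 0 (.s k105 k125 5 (.s k86 k124 6 (.s k87 k84 0 (.d k127 k107 k106 5 6))))), (.s k105 k125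
  5 (.s k106 k127 6 (.s k107 k104 0 (.s k192 k128 7 (.s k63 k149 14 (.d k195 k130 k151 8 13))))))]
  .n)

def s26_255_229 : T TT 256 :=
  (.q k65 [(.s k66 k67 0 (.s k192 k128 7 (.s k3 k129 8 (.s k2 k1 0 (.d k130 k194 k195 7 8))))), (.s
  k67 k66 0 (.s k105 k125 5 (.s k86 k124 6 (.s k87 k84 0 (.d k127 k107 k106 5 6))))), (.s k105 k125
  5 (.s k106 k127 6 (.s k107 k104 0 (.s k192 k128 7 (.s k63 k149 14 (.d k195 k130 k151 8 13))))))]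
  .n)

def s26_255_230 : T TT 256 :=
  (.q k65 [(.s k66 k67 0 (.s k192 k128 7 (.s k3 k129 8 (.s k2 k1 0 (.d k130 k194 k195 7 8))))), (.s
  k67 k66 0 (.s k105 k125 5 (.s k86 k124 6 (.s k87 k84 0 (.d k127 k107 k106 5 6))))), (.s k105 k125
  5 (.s k106 k127 6 (.s k107 k104 0 (.s k192 k128 7 (.s k63 k149 14 (.d k195 k130 k151 8 13))))))]
  .n)

def s26_255_231 : T TT 256 :=
  (.q k65 [(.s k66 k67 0 (.s k192 k128 7 (.s k3 k129 8 (.s k2 k1 0 (.d k130 k194 k195 7 8))))), (.s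
  k67 k66 0 (.s k105 k125 5 (.s k86 k124 6 (.s k87 k84 0 (.d k127 k107 k106 5 6))))), (.s k105 k125
  5 (.s k106 k127 6 (.s k107 k104 0 (.s k192 k128 7 (.s k63 k149 14 (.d k195 k130 k151 8 13))))))]
  .n)

def s26_255_232 : T TT 256 :=
  (.q k65 [(.s k66 k67 0 (.s k192 k128 7 (.s k3 k129 8 (.s k2 k1 0 (.d k130 k194 k195 7 8))))), (.s
  k67 k66 0 (.s k105 k125 5 (.s k86 k124 6 (.s k87 k84 0 (.d k127 k107 k106 5 6))))), (.s k105 k125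
  5 (.s k106 k127 6 (.s k107 k104 0 (.s k192 k128 7 (.s k63 k149 14 (.d k195 k130 k151 8 13))))))]
  .n)

def s26_255_233 : T TT 256 :=
  (.q k65 [(.s k66 k67 0 (.s k192 k128 7 (.s k3 k129 8 (.s k2 k1 0 (.d k130 k194 k195 7 8))))), (.s
  k67 k66 0 (.s k105 k125 5 (.s k86 k124 6 (.s k87 k84 0 (.d k127 k107 k106 5 6))))), (.s k105 k125
  5 (.s k106 k127 6 (.s k107 k104 0 (.s k192 k128 7 (.s k63 k149 14 (.d k195 k130 k151 8 13))))))]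
  .n)

def s26_255_234 : T TT 256 :=
  (.q k65 [(.s k192 k128 7 (.s k66 k67 0 (.s k3 k129 8 (.s k2 k1 0 (.d k130 k194 k195 7 8))))), (.s
  k67 k66 0 (.s k105 k125 5 (.s k86 k124 6 (.s k87 k84 0 (.d k127 k107 k106 5 6))))), (.s k105 k125
  5 (.s k106 k127 6 (.s k107 k104 0 (.s k192 k128 7 (.s k63 k149 14 (.d k195 k130 k151 8 13))))))]
  (.c k192 (.q k213 [(.s k67 k66 0 (.s k105 k125 5 (.s k86 k124 6 (.s k87 k84 0 (.d k127 k107 k106 5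
  6))))), (.s k105 k125 5 (.s k149 k21 7 (.s k193 k61 13 (.s k253 k233 5 (.d k1 k129 k169 7 13))))),
  (.s k21 k149 7 (.s k63 k42 6 (.s k67 k66 0 (.s k195 k130 8 (.s k107 k151 13 (.d k127 k106 k87 6
  5))))))] (.c k129 (.l (.s k105 k125 5 (.s k106 k127 6 (.s k104 k107 0 (.s k124 k84 5 (.d k67 k66
  k86 0 6)))))) .n)) (.c k213 (.l (.s k192 k128 7 (.s k66 k67 0 (.s k3 k129 8 (.s k2 k1 0 (.d k130
  k194 k195 7 8)))))) .n)))

def s26_255_235 : T TT 256 :=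
  (.q k195 [(.s k65 k130 8 (.s k66 k67 0 (.s k192 k128 7 (.s k193 k194 0 (.d k129 k1 k3 7 8))))),
  (.s k106 k127 6 (.s k192 k128 7 (.s k194 k193 0 (.s k150 k62 13 (.s k20 k215 8 (.d k60 k40 k105 5
  14)))))), (.s k65 k130 8 (.s k67 k66 0 (.s k105 k125 5 (.s k86 k124 6 (.s k87 k84 0 (.d k127 k107
  k106 5 6))))))] (.c k194 (.l (.s k65 k130 8 (.s k105 k125 5 (.s k60 k150 14 (.s k106 k127 6 (.s
  k104 k107 0 (.d k192 k128 k148 7 13))))))) .n))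

def s26_255_236 : T TT 256 :=
  (.q k65 [(.s k66 k67 0 (.s k192 k128 7 (.s k3 k129 8 (.s k2 k1 0 (.d k130 k194 k195 7 8))))), (.s
  k67 k66 0 (.s k105 k125 5 (.s k86 k124 6 (.s k87 k84 0 (.d k127 k107 k106 5 6))))), (.s k105 k125
  5 (.s k106 k127 6 (.s k107 k104 0 (.s k192 k128 7 (.s k63 k149 14 (.d k195 k130 k151 8 13))))))]
  .n)

def s26_255_237 : T TT 256 :=
  (.q k65 [(.s k66 k67 0 (.s k192 k128 7 (.s k3 k129 8 (.s k2 k1 0 (.d k130 k194 k195 7 8))))), (.s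
  k67 k66 0 (.s k105 k125 5 (.s k86 k124 6 (.s k87 k84 0 (.d k127 k107 k106 5 6))))), (.s k105 k125
  5 (.s k106 k127 6 (.s k107 k104 0 (.s k192 k128 7 (.s k63 k149 14 (.d k195 k130 k151 8 13))))))]
  .n)

def s26_255_238 : T TT 256 :=
  (.q k204 [(.s k68 k136 9 (.s k72 k76 1 (.s k192 k128 7 (.s k196 k200 1 (.d k132 k4 k12 7 9))))),
  (.s k106 k127 6 (.s k192 k128 7 (.s k200 k196 1 (.s k153 k59 12 (.s k17 k221 9 (.d k51 k34 k102 4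
  14)))))), (.s k68 k136 9 (.s k76 k72 1 (.s k102 k119 4 (.s k89 k115 6 (.s k93 k81 1 (.d k127 k110
  k106 4 6))))))] (.c k200 (.l (.s k68 k136 9 (.s k102 k119 4 (.s k51 k153 14 (.s k106 k127 6 (.s
  k98 k110 1 (.d k192 k128 k145 7 12))))))) .n))

def s26_255_239 : T TT 256 :=
  (.q k207 [(.s k69 k138 10 (.s k74 k79 2 (.s k192 k128 7 (.s k197 k202 2 (.d k133 k5 k15 7 10))))),
  (.s k106 k127 6 (.s k192 k128 7 (.s k202 k197 2 (.s k154 k58 11 (.s k16 k223 10 (.d k48 k32 k101 3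
  14)))))), (.s k69 k138 10 (.s k79 k74 2 (.s k101 k117 3 (.s k90 k112 6 (.s k95 k80 2 (.d k127 k111
  k106 3 6))))))] (.c k202 (.l (.s k69 k138 10 (.s k101 k117 3 (.s k48 k154 14 (.s k106 k127 6 (.s
  k96 k111 2 (.d k192 k128 k144 7 11))))))) .n))

def s26_255_240 : T TT 256 :=
  (.f k127 k106 6 (.f k192 k128 7 (.q k65 [(.s k66 k67 0 (.s k3 k129 8 (.s k2 k1 0 (.d k130 k194
  k195 7 8)))), (.s k67 k66 0 (.s k87 k107 5 (.s k86 k84 0 (.d k105 k125 k124 5 6)))), (.s k105 k125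
  5 (.s k195 k130 8 (.s k60 k150 14 (.s k40 k20 5 (.s k104 k148 13 (.s k84 k124 5 (.d k168 k232 k252
  7 13)))))))] (.c k245 (.q k250 [(.s k66 k67 0 (.s k3 k129 8 (.s k2 k1 0 (.d k130 k194 k195 7
  8)))), (.s k67 k66 0 (.s k87 k107 5 (.s k86 k84 0 (.d k105 k125 k124 5 6)))), (.s k105 k125 5 (.s
  k195 k130 8 (.s k60 k150 14 (.s k40 k20 5 (.s k104 k148 13 (.s k84 k124 5 (.d k168 k232 k252 7
  13)))))))] .n) (.c k250 (.q k245 [(.s k66 k67 0 (.s k3 k129 8 (.s k2 k1 0 (.d k130 k194 k195 7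
  8)))), (.s k67 k66 0 (.s k87 k107 5 (.s k86 k84 0 (.d k105 k125 k124 5 6)))), (.s k5 k165 11 (.s
  k15 k10 2 (.s k74 k133 10 (.s k69 k79 2 (.s k73 k77 1 (.s k75 k72 0 (.d k195 k130 k135 8 9)))))))]
  .n) .n)))))

def s26_255_241 : T TT 256 :=
  (.q k65 [(.s k67 k66 0 (.s k105 k125 5 (.s k86 k124 6 (.s k87 k84 0 (.d k127 k107 k106 5 6))))),
  (.s k66 k67 0 (.s k130 k195 8 (.s k2 k194 7 (.s k3 k1 0 (.d k192 k128 k129 7 8))))), (.s k105 k125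
  5 (.s k106 k127 6 (.s k107 k104 0 (.s k192 k128 7 (.s k63 k149 14 (.d k195 k130 k151 8 13))))))]
  .n)

def s26_255_242 : T TT 256 :=
  (.q k65 [(.s k66 k67 0 (.s k192 k128 7 (.s k3 k129 8 (.s k2 k1 0 (.d k130 k194 k195 7 8))))), (.s
  k67 k66 0 (.s k105 k125 5 (.s k86 k124 6 (.s k87 k84 0 (.d k127 k107 k106 5 6))))), (.s k105 k125
  5 (.s k106 k127 6 (.s k107 k104 0 (.s k192 k128 7 (.s k63 k149 14 (.d k195 k130 k151 8 13))))))]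
  .n)

def s26_255_243 : T TT 256 :=
  (.f k127 k106 6 (.f k192 k128 7 (.q k84 [(.s k104 k124 5 (.s k60 k148 13 (.s k40 k20 5 (.d k168
  k232 k252 7 13)))), (.s k86 k87 0 (.s k124 k104 5 (.s k105 k67 6 (.d k125 k126 k65 0 5)))), (.s
  k86 k87 0 (.s k252 k168 13 (.s k3 k169 14 (.s k2 k1 0 (.s k66 k129 8 (.s k65 k67 0 (.d k130 k194
  k195 7 8)))))))] (.c k247 (.q k251 [(.s k104 k124 5 (.s k60 k148 13 (.s k40 k20 5 (.d k168 k232
  k252 7 13)))), (.s k86 k87 0 (.s k124 k104 5 (.s k105 k67 6 (.d k125 k126 k65 0 5)))), (.s k86 k87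
  0 (.s k252 k168 13 (.s k3 k169 14 (.s k2 k1 0 (.s k66 k129 8 (.s k65 k67 0 (.d k130 k194 k195 7
  8)))))))] .n) (.c k251 (.q k247 [(.s k104 k124 5 (.s k60 k148 13 (.s k40 k20 5 (.d k168 k232 k252
  7 13)))), (.s k4 k166 12 (.s k86 k87 0 (.s k244 k164 11 (.s k165 k7 12 (.d k245 k246 k5 0 11)))))]
  .n) .n)))))

def s26_255_244 : T TT 256 :=
  (.q k65 [(.s k66 k67 0 (.s k192 k128 7 (.s k3 k129 8 (.s k2 k1 0 (.d k130 k194 k195 7 8))))), (.s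
  k67 k66 0 (.s k105 k125 5 (.s k86 k124 6 (.s k87 k84 0 (.d k127 k107 k106 5 6))))), (.s k105 k125
  5 (.s k106 k127 6 (.s k107 k104 0 (.s k192 k128 7 (.s k63 k149 14 (.d k195 k130 k151 8 13))))))]
  .n)

def s26_255_245 : T TT 256 :=
  (.q k240 [(.s k80 k160 11 (.s k96 k112 3 (.s k192 k128 7 (.s k208 k224 3 (.d k144 k16 k48 7
  11))))), (.s k80 k160 11 (.s k90 k95 2 (.s k106 k127 6 (.s k74 k122 3 (.s k79 k69 2 (.d k112 k96
  k101 3 6)))))), (.s k106 k127 6 (.s k192 k128 7 (.s k63 k149 14 (.s k122 k181 10 (.s k90 k74 3 (.s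
  k165 k15 14 (.d k224 k208 k47 3 10)))))))] .n)

def s26_255_246 : T TT 256 :=
  (.q k65 [(.s k66 k67 0 (.s k192 k128 7 (.s k3 k129 8 (.s k2 k1 0 (.d k130 k194 k195 7 8))))), (.s
  k67 k66 0 (.s k105 k125 5 (.s k86 k124 6 (.s k87 k84 0 (.d k127 k107 k106 5 6))))), (.s k105 k125
  5 (.s k106 k127 6 (.s k107 k104 0 (.s k192 k128 7 (.s k63 k149 14 (.d k195 k130 k151 8 13))))))]
  .n)

def s26_255_247 : T TT 256 :=
  (.q k243 [(.s k81 k162 12 (.s k98 k115 4 (.s k192 k128 7 (.s k209 k226 4 (.d k145 k17 k51 7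
  12))))), (.s k106 k127 6 (.s k192 k128 7 (.s k63 k149 14 (.s k123 k183 9 (.s k89 k72 4 (.s k166
  k12 14 (.d k226 k209 k46 4 9))))))), (.s k81 k162 12 (.s k89 k93 1 (.s k106 k127 6 (.s k72 k123 4
  (.s k76 k68 1 (.d k115 k98 k102 4 6))))))] .n)

def s26_255_248 : T TT 256 :=
  (.q k65 [(.s k66 k67 0 (.s k192 k128 7 (.s k3 k129 8 (.s k2 k1 0 (.d k130 k194 k195 7 8))))), (.s
  k67 k66 0 (.s k105 k125 5 (.s k86 k124 6 (.s k87 k84 0 (.d k127 k107 k106 5 6))))), (.s k105 k125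
  5 (.s k106 k127 6 (.s k107 k104 0 (.s k192 k128 7 (.s k63 k149 14 (.d k195 k130 k151 8 13))))))]
  .n)

def s26_255_249 : T TT 256 :=
  (.q k65 [(.s k66 k67 0 (.s k192 k128 7 (.s k3 k129 8 (.s k2 k1 0 (.d k130 k194 k195 7 8))))), (.s
  k67 k66 0 (.s k105 k125 5 (.s k86 k124 6 (.s k87 k84 0 (.d k127 k107 k106 5 6))))), (.s k105 k125
  5 (.s k106 k127 6 (.s k107 k104 0 (.s k192 k128 7 (.s k63 k149 14 (.d k195 k130 k151 8 13))))))]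
  .n)

def s26_255_250 : T TT 256 :=
  (.q k240 [(.s k80 k160 11 (.s k96 k112 3 (.s k192 k128 7 (.s k208 k224 3 (.d k144 k16 k48 7
  11))))), (.s k106 k127 6 (.s k192 k128 7 (.s k224 k208 3 (.s k165 k47 10 (.s k5 k245 11 (.d k15
  k10 k90 2 14)))))), (.s k80 k160 11 (.s k90 k95 2 (.s k106 k127 6 (.s k74 k122 3 (.s k79 k69 2 (.d
  k112 k96 k101 3 6))))))] .n)

def s26_255_251 : T TT 256 :=
  (.q k243 [(.s k81 k162 12 (.s k98 k115 4 (.s k192 k128 7 (.s k209 k226 4 (.d k145 k17 k51 7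
  12))))), (.s k106 k127 6 (.s k192 k128 7 (.s k226 k209 4 (.s k166 k46 9 (.s k4 k247 12 (.d k12 k8
  k89 1 14)))))), (.s k81 k162 12 (.s k89 k93 1 (.s k106 k127 6 (.s k72 k123 4 (.s k76 k68 1 (.d
  k115 k98 k102 4 6))))))] .n)

def s26_255_252 : T TT 256 :=
  (.f k127 k106 6 (.f k192 k128 7 (.q k81 [(.s k98 k115 4 (.s k51 k145 12 (.s k34 k17 4 (.d k162
  k226 k243 7 12)))), (.s k89 k93 1 (.s k115 k98 4 (.s k102 k76 6 (.d k119 k123 k68 1 4)))), (.s k89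
  k93 1 (.s k243 k162 12 (.s k12 k166 14 (.s k8 k4 1 (.s k72 k132 9 (.s k68 k76 1 (.d k136 k200 k204
  7 9)))))))] (.c k253 (.q k254 [(.s k98 k115 4 (.s k51 k145 12 (.s k34 k17 4 (.d k162 k226 k243 7
  12)))), (.s k89 k93 1 (.s k115 k98 4 (.s k102 k76 6 (.d k119 k123 k68 1 4)))), (.s k89 k93 1 (.s
  k243 k162 12 (.s k12 k166 14 (.s k8 k4 1 (.s k72 k132 9 (.s k68 k76 1 (.d k136 k200 k204 7
  9)))))))] .n) (.c k254 (.q k253 [(.s k98 k115 4 (.s k51 k145 12 (.s k34 k17 4 (.d k162 k226 k243 7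
  12)))), (.s k1 k169 13 (.s k89 k93 1 (.s k241 k161 11 (.s k165 k13 13 (.d k245 k249 k5 1 11)))))]
  .n) .n)))))

def s26_255_253 : T TT 256 :=
  (.q k252 [(.s k84 k168 13 (.s k104 k124 5 (.s k192 k128 7 (.s k212 k232 5 (.d k148 k20 k60 7
  13))))), (.s k106 k127 6 (.s k192 k128 7 (.s k63 k149 14 (.s k126 k189 8 (.s k86 k66 5 (.s k169 k3
  14 (.d k232 k212 k43 5 8))))))), (.s k84 k168 13 (.s k86 k87 0 (.s k106 k127 6 (.s k66 k126 5 (.s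
  k67 k65 0 (.d k124 k104 k105 5 6))))))] .n)

def s26_255_254 : T TT 256 :=
  (.q k252 [(.s k84 k168 13 (.s k104 k124 5 (.s k192 k128 7 (.s k212 k232 5 (.d k148 k20 k60 7
  13))))), (.s k106 k127 6 (.s k192 k128 7 (.s k232 k212 5 (.s k169 k43 8 (.s k1 k253 13 (.d k3 k2
  k86 0 14)))))), (.s k84 k168 13 (.s k86 k87 0 (.s k106 k127 6 (.s k66 k126 5 (.s k67 k65 0 (.d
  k124 k104 k105 5 6))))))] .n)

def t26_255 : T TT 256 :=
  (.q k64 [] (.c k1 s26_255_1 (.c k2 s26_255_2 (.c k3 s26_255_3 (.c k4 s26_255_4 (.c k5 s26_255_5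
  (.c k6 s26_255_6 (.c k7 s26_255_7 (.c k8 s26_255_8 (.c k9 s26_255_9 (.c k10 s26_255_10 (.c k11
  s26_255_11 (.c k12 s26_255_12 (.c k13 s26_255_13 (.c k14 s26_255_14 (.c k15 s26_255_15 (.c k16
  s26_255_16 (.c k17 s26_255_17 (.c k18 s26_255_18 (.c k19 s26_255_19 (.c k20 s26_255_20 (.c k21
  s26_255_21 (.c k22 s26_255_22 (.c k23 s26_255_23 (.c k24 s26_255_24 (.c k25 s26_255_25 (.c k27
  s26_255_27 (.c k28 s26_255_28 (.c k29 s26_255_29 (.c k30 s26_255_30 (.c k31 s26_255_31 (.c k32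
  s26_255_32 (.c k33 s26_255_33 (.c k34 s26_255_34 (.c k35 s26_255_35 (.c k36 s26_255_36 (.c k37
  s26_255_37 (.c k38 s26_255_38 (.c k39 s26_255_39 (.c k40 s26_255_40 (.c k41 s26_255_41 (.c k42
  s26_255_42 (.c k43 s26_255_43 (.c k44 s26_255_44 (.c k45 s26_255_45 (.c k46 s26_255_46 (.c k47
  s26_255_47 (.c k48 s26_255_48 (.c k49 s26_255_49 (.c k50 s26_255_50 (.c k51 s26_255_51 (.c k52
  s26_255_52 (.c k53 s26_255_53 (.c k54 s26_255_54 (.c k55 s26_255_55 (.c k56 s26_255_56 (.c k57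
  s26_255_57 (.c k58 s26_255_58 (.c k59 s26_255_59 (.c k60 s26_255_60 (.c k61 s26_255_61 (.c k62
  s26_255_62 (.c k63 s26_255_63 (.c k65 s26_255_65 (.c k66 s26_255_66 (.c k67 s26_255_67 (.c k68
  s26_255_68 (.c k69 s26_255_69 (.c k70 s26_255_70 (.c k71 s26_255_71 (.c k72 s26_255_72 (.c k73
  s26_255_73 (.c k74 s26_255_74 (.c k75 s26_255_75 (.c k76 s26_255_76 (.c k77 s26_255_77 (.c k78
  s26_255_78 (.c k79 s26_255_79 (.c k80 s26_255_80 (.c k81 s26_255_81 (.c k82 s26_255_82 (.c k83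
  s26_255_83 (.c k84 s26_255_84 (.c k86 s26_255_86 (.c k87 s26_255_87 (.c k88 s26_255_88 (.c k89
  s26_255_89 (.c k90 s26_255_90 (.c k91 s26_255_91 (.c k92 s26_255_92 (.c k93 s26_255_93 (.c k94
  s26_255_94 (.c k95 s26_255_95 (.c k96 s26_255_96 (.c k97 s26_255_97 (.c k98 s26_255_98 (.c k99
  s26_255_99 (.c k100 s26_255_100 (.c k101 s26_255_101 (.c k102 s26_255_102 (.c k103 s26_255_103 (.c
  k104 s26_255_104 (.c k105 s26_255_105 (.c k106 s26_255_106 (.c k107 s26_255_107 (.c k108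
  s26_255_108 (.c k109 s26_255_109 (.c k110 s26_255_110 (.c k111 s26_255_111 (.c k112 s26_255_112
  (.c k113 s26_255_113 (.c k114 s26_255_114 (.c k115 s26_255_115 (.c k116 s26_255_116 (.c k117
  s26_255_117 (.c k118 s26_255_118 (.c k119 s26_255_119 (.c k120 s26_255_120 (.c k121 s26_255_121
  (.c k122 s26_255_122 (.c k123 s26_255_123 (.c k124 s26_255_124 (.c k125 s26_255_125 (.c k126
  s26_255_126 (.c k127 s26_255_127 (.c k128 s26_255_128 (.c k129 s26_255_129 (.c k130 s26_255_130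
  (.c k131 s26_255_131 (.c k132 s26_255_132 (.c k133 s26_255_133 (.c k134 s26_255_134 (.c k135
  s26_255_135 (.c k136 s26_255_136 (.c k137 s26_255_137 (.c k138 s26_255_138 (.c k139 s26_255_139
  (.c k140 s26_255_140 (.c k141 s26_255_141 (.c k142 s26_255_142 (.c k143 s26_255_143 (.c k144
  s26_255_144 (.c k145 s26_255_145 (.c k146 s26_255_146 (.c k147 s26_255_147 (.c k148 s26_255_148
  (.c k149 s26_255_149 (.c k150 s26_255_150 (.c k151 s26_255_151 (.c k152 s26_255_152 (.c k153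
  s26_255_153 (.c k154 s26_255_154 (.c k155 s26_255_155 (.c k156 s26_255_156 (.c k157 s26_255_157
  (.c k158 s26_255_158 (.c k159 s26_255_159 (.c k160 s26_255_160 (.c k161 s26_255_161 (.c k162
  s26_255_162 (.c k163 s26_255_163 (.c k164 s26_255_164 (.c k165 s26_255_165 (.c k166 s26_255_166
  (.c k167 s26_255_167 (.c k168 s26_255_168 (.c k169 s26_255_169 (.c k170 s26_255_170 (.c k171
  s26_255_171 (.c k172 s26_255_172 (.c k173 s26_255_173 (.c k174 s26_255_174 (.c k175 s26_255_175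
  (.c k176 s26_255_176 (.c k177 s26_255_177 (.c k178 s26_255_178 (.c k179 s26_255_179 (.c k180
  s26_255_180 (.c k181 s26_255_181 (.c k182 s26_255_182 (.c k183 s26_255_183 (.c k184 s26_255_184
  (.c k185 s26_255_185 (.c k186 s26_255_186 (.c k187 s26_255_187 (.c k188 s26_255_188 (.c k189
  s26_255_189 (.c k190 s26_255_190 (.c k191 s26_255_191 (.c k192 s26_255_192 (.c k193 s26_255_193
  (.c k194 s26_255_194 (.c k195 s26_255_195 (.c k196 s26_255_196 (.c k197 s26_255_197 (.c k198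
  s26_255_198 (.c k199 s26_255_199 (.c k200 s26_255_200 (.c k201 s26_255_201 (.c k202 s26_255_202
  (.c k203 s26_255_203 (.c k204 s26_255_204 (.c k205 s26_255_205 (.c k206 s26_255_206 (.c k207
  s26_255_207 (.c k208 s26_255_208 (.c k209 s26_255_209 (.c k210 s26_255_210 (.c k211 s26_255_211
  (.c k212 s26_255_212 (.c k213 s26_255_213 (.c k214 s26_255_214 (.c k215 s26_255_215 (.c k216
  s26_255_216 (.c k217 s26_255_217 (.c k218 s26_255_218 (.c k219 s26_255_219 (.c k220 s26_255_220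
  (.c k221 s26_255_221 (.c k222 s26_255_222 (.c k223 s26_255_223 (.c k224 s26_255_224 (.c k225
  s26_255_225 (.c k226 s26_255_226 (.c k227 s26_255_227 (.c k228 s26_255_228 (.c k229 s26_255_229
  (.c k230 s26_255_230 (.c k231 s26_255_231 (.c k232 s26_255_232 (.c k233 s26_255_233 (.c k234
  s26_255_234 (.c k235 s26_255_235 (.c k236 s26_255_236 (.c k237 s26_255_237 (.c k238 s26_255_238
  (.c k239 s26_255_239 (.c k240 s26_255_240 (.c k241 s26_255_241 (.c k242 s26_255_242 (.c k243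
  s26_255_243 (.c k244 s26_255_244 (.c k245 s26_255_245 (.c k246 s26_255_246 (.c k247 s26_255_247
  (.c k248 s26_255_248 (.c k249 s26_255_249 (.c k250 s26_255_250 (.c k251 s26_255_251 (.c k252
  s26_255_252 (.c k253 s26_255_253 (.c k254 s26_255_254
  .n))))))))))))))))))))))))))))))))))))))))))))))))))))))))))))))))))))))))))))))))
  ))))))))))))))))))))))))))))))))))))))))))))))))))))))))))))))))))))))))))))))))
  )))))))))))))))))))))))))))))))))))))))))))))))))))))))))))))))))))))))))))))))) ))))))))))))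

def s27_170_1 : T TT 256 :=
  (.q k16 [(.s k48 k32 3 (.s k146 k211 8 (.s k162 k243 12 (.s k130 k178 3 (.d k195 k65 k97 8
  12))))), (.s k89 k93 1 (.s k154 k223 10 (.s k24 k219 8 (.s k28 k20 1 (.d k211 k146 k150 8 10))))),
  (.s k48 k32 3 (.s k89 k93 1 (.s k154 k223 10 (.s k101 k207 14 (.s k113 k77 5 (.d k243 k178 k162 8
  12))))))] .n)

def s27_170_2 : T TT 256 :=
  (.q k86 [(.s k87 k84 0 (.s k89 k93 1 (.s k83 k92 2 (.s k80 k82 0 (.d k95 k91 k90 1 2))))), (.s k84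
  k87 0 (.s k243 k162 12 (.s k252 k168 13 (.s k246 k249 2 (.s k166 k6 11 (.s k4 k247 12 (.d k12 k8
  k89 1 14))))))), (.s k84 k87 0 (.s k89 k93 1 (.s k92 k83 2 (.s k252 k168 13 (.s k12 k172 11 (.d
  k243 k162 k166 12 14)))))), (.s k89 k93 1 (.s k83 k92 2 (.s k243 k162 12 (.s k3 k163 11 (.s k166
  k12 14 (.s k246 k6 11 (.d k252 k249 k169 2 14)))))))] (.c k89 (.q k4 [(.s k84 k87 0 (.s k244 k164
  11 (.s k165 k7 12 (.s k245 k5 11 (.d k247 k246 k166 0 12))))), (.s k166 k247 12 (.s k243 k162 12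
  (.s k246 k6 11 (.s k252 k249 2 (.s k169 k3 14 (.s k172 k163 2 (.d k12 k8 k92 1 11))))))), (.s k84
  k87 0 (.s k164 k244 11 (.s k168 k252 13 (.s k160 k172 1 (.s k240 k80 11 (.d k12 k8 k88 1 13))))))]
  (.c k8 (.q k251 [(.s k247 k166 12 (.d k243 k162 k255 12 1)), (.s k84 k87 0 (.s k166 k247 12 (.s k6
  k246 11 (.s k7 k5 0 (.d k244 k164 k165 11 12)))))] (.c k166 (.l (.s k84 k87 0 (.s k244 k164 11 (.s
  k165 k7 12 (.s k245 k5 11 (.s k247 k246 0 (.d k243 k255 k162 1 12))))))) (.c k247 (.l (.s k84 k87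
  0 (.s k243 k162 12 (.s k244 k164 11 (.s k252 k168 13 (.s k248 k240 1 (.d k249 k250 k246 0 2)))))))
  .n))) (.c k251 (.l (.s k8 k12 1 (.s k84 k87 0 (.s k166 k247 12 (.s k6 k246 11 (.s k7 k5 0 (.d k244
  k164 k165 11 12))))))) .n))) (.c k162 (.l (.s k87 k84 0 (.s k89 k93 1 (.s k83 k92 2 (.s k95 k91 1
  (.d k80 k82 k90 0 2)))))) .n)))

def s27_170_3 : T TT 256 :=
  (.q k16 [(.s k89 k93 1 (.s k154 k223 10 (.s k24 k219 8 (.s k28 k20 1 (.d k211 k146 k150 8 10))))),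
  (.s k48 k32 3 (.s k146 k211 8 (.s k97 k195 12 (.s k113 k65 3 (.d k243 k178 k162 8 12))))), (.s k48
  k32 3 (.s k89 k93 1 (.s k154 k223 10 (.s k101 k207 14 (.s k113 k77 5 (.d k243 k178 k162 8
  12))))))] .n)

def s27_170_4 : T TT 256 :=
  (.q k1 [(.s k3 k2 0 (.s k161 k241 11 (.s k82 k240 12 (.s k83 k80 0 (.d k243 k163 k162 11 12))))),
  (.s k89 k93 1 (.s k169 k253 13 (.s k9 k249 11 (.s k13 k5 1 (.d k241 k161 k165 11 13))))), (.s k3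
  k2 0 (.s k89 k93 1 (.s k169 k253 13 (.s k86 k252 14 (.s k83 k92 2 (.d k243 k163 k162 11 12))))))]
  .n)

def s27_170_5 : T TT 256 :=
  (.q k1 [(.s k161 k241 11 (.s k162 k243 12 (.s k160 k163 0 (.s k240 k80 11 (.d k3 k2 k82 0 12))))),
  (.s k89 k93 1 (.s k169 k253 13 (.s k243 k162 12 (.s k249 k9 11 (.s k252 k246 2 (.s k84 k168 13 (.d
  k86 k87 k3 0 14))))))), (.s k3 k2 0 (.s k89 k93 1 (.s k161 k241 11 (.s k169 k253 13 (.s k86 k252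
  14 (.s k83 k92 2 (.d k82 k80 k240 0 12)))))))] (.c k3 (.l (.s k89 k93 1 (.s k241 k161 11 (.s k165
  k13 13 (.s k243 k162 12 (.s k240 k242 0 (.s k90 k15 14 (.d k80 k160 k95 11 2)))))))) .n))

def s27_170_6 : T TT 256 :=
  (.q k1 [(.s k89 k93 1 (.s k169 k253 13 (.s k9 k249 11 (.s k13 k5 1 (.d k241 k161 k165 11 13))))),
  (.s k3 k2 0 (.s k161 k241 11 (.s k82 k240 12 (.s k83 k80 0 (.d k243 k163 k162 11 12))))), (.s k3
  k2 0 (.s k89 k93 1 (.s k169 k253 13 (.s k86 k252 14 (.s k83 k92 2 (.d k243 k163 k162 11 12))))))]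
  .n)

def s27_170_7 : T TT 256 :=
  (.q k1 [(.s k3 k2 0 (.s k161 k241 11 (.s k82 k240 12 (.s k83 k80 0 (.d k243 k163 k162 11 12))))),
  (.s k89 k93 1 (.s k169 k253 13 (.s k9 k249 11 (.s k13 k5 1 (.d k241 k161 k165 11 13))))), (.s k3
  k2 0 (.s k89 k93 1 (.s k169 k253 13 (.s k86 k252 14 (.s k83 k92 2 (.d k243 k163 k162 11 12))))))]
  .n)

def s27_170_8 : T TT 256 :=
  (.q k80 [(.s k83 k82 0 (.s k89 k93 1 (.s k86 k92 2 (.s k87 k84 0 (.d k95 k91 k90 1 2))))), (.s k82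
  k83 0 (.s k162 k243 12 (.s k2 k242 11 (.s k3 k1 0 (.d k240 k160 k161 11 12))))), (.s k89 k93 1 (.s
  k90 k95 2 (.s k91 k88 0 (.s k240 k160 11 (.s k243 k162 12 (.d k15 k165 k167 14 13))))))] (.c k89
  (.q k251 [(.s k82 k83 0 (.s k240 k160 11 (.s k161 k3 12 (.s k241 k1 11 (.d k243 k242 k162 0
  12))))), (.s k83 k82 0 (.s k95 k90 2 (.s k91 k87 1 (.s k243 k162 12 (.s k15 k167 13 (.d k255 k247
  k175 1 11)))))), (.s k90 k95 2 (.s k240 k160 11 (.s k165 k15 14 (.s k243 k162 12 (.s k245 k5 11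
  (.d k255 k247 k250 1 2))))))] (.c k162 (.l (.s k82 k83 0 (.s k90 k95 2 (.s k240 k160 11 (.s k161
  k3 12 (.s k1 k241 11 (.s k165 k15 14 (.d k169 k173 k253 1 13)))))))) (.c k175 (.l (.s k82 k83 0
  (.s k162 k243 12 (.s k2 k242 11 (.s k3 k1 0 (.d k240 k160 k161 11 12)))))) (.c k243 (.l (.s k82
  k83 0 (.s k90 k95 2 (.s k86 k94 1 (.s k240 k160 11 (.s k3 k161 12 (.s k1 k2 0 (.d k169 k253 k252
  13 14)))))))) .n)))) (.c k251 (.l (.s k89 k93 1 (.s k83 k82 0 (.s k86 k92 2 (.s k87 k84 0 (.d k95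
  k91 k90 1 2)))))) .n)))

def s27_170_9 : T TT 256 :=
  (.q k1 [(.s k89 k93 1 (.s k241 k161 11 (.s k165 k13 13 (.s k245 k5 11 (.d k253 k249 k169 1
  13))))), (.s k3 k2 0 (.s k161 k241 11 (.s k82 k240 12 (.s k83 k80 0 (.d k243 k163 k162 11 12))))),
  (.s k3 k2 0 (.s k89 k93 1 (.s k169 k253 13 (.s k86 k252 14 (.s k83 k92 2 (.d k243 k163 k162 11
  12))))))] .n)

def s27_170_10 : T TT 256 :=
  (.q k90 [(.s k80 k95 2 (.s k83 k82 0 (.s k89 k93 1 (.s k88 k91 0 (.d k92 k84 k86 1 2))))), (.s k89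
  k93 1 (.s k91 k88 0 (.s k243 k162 12 (.s k15 k167 13 (.s k165 k240 14 (.s k13 k241 13 (.d k12 k166
  k14 14 0))))))), (.s k80 k95 2 (.s k82 k83 0 (.s k162 k243 12 (.s k2 k242 11 (.s k3 k1 0 (.d k240
  k160 k161 11 12))))))] (.c k91 (.l (.s k80 k95 2 (.s k89 k93 1 (.s k240 k160 11 (.s k165 k15 14
  (.s k241 k13 13 (.d k243 k242 k162 0 12))))))) .n))

def s27_170_11 : T TT 256 :=
  (.f k162 k243 12 (.f k89 k93 1 (.q k1 [(.s k161 k241 11 (.s k160 k163 0 (.s k240 k80 11 (.d k3 k2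
  k82 0 12)))), (.s k169 k253 13 (.s k9 k249 11 (.s k13 k5 1 (.d k241 k161 k165 11 13)))), (.s k3 k2
  0 (.s k169 k253 13 (.s k86 k252 14 (.s k83 k92 2 (.s k80 k82 0 (.s k87 k84 0 (.d k95 k91 k90 1
  2)))))))] (.c k43 (.q k59 [(.s k161 k241 11 (.s k160 k163 0 (.s k240 k80 11 (.d k3 k2 k82 0
  12)))), (.s k169 k253 13 (.s k9 k249 11 (.s k13 k5 1 (.d k241 k161 k165 11 13)))), (.s k3 k2 0 (.s
  k169 k253 13 (.s k86 k252 14 (.s k83 k92 2 (.s k80 k82 0 (.s k87 k84 0 (.d k95 k91 k90 1 2)))))))]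
  .n) (.c k59 (.q k43 [(.s k161 k241 11 (.s k160 k163 0 (.s k240 k80 11 (.d k3 k2 k82 0 12)))), (.s
  k169 k253 13 (.s k9 k249 11 (.s k13 k5 1 (.d k241 k161 k165 11 13)))), (.s k3 k2 0 (.s k63 k23 5
  (.s k21 k42 6 (.s k149 k213 7 (.s k106 k192 14 (.d k169 k232 k253 8 13))))))] .n) .n)))))

def s27_170_12 : T TT 256 :=
  (.q k1 [(.s k89 k93 1 (.s k169 k253 13 (.s k9 k249 11 (.s k13 k5 1 (.d k241 k161 k165 11 13))))),
  (.s k3 k2 0 (.s k161 k241 11 (.s k82 k240 12 (.s k83 k80 0 (.d k243 k163 k162 11 12))))), (.s k3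
  k2 0 (.s k89 k93 1 (.s k169 k253 13 (.s k86 k252 14 (.s k243 k162 12 (.d k83 k92 k163 2 11))))))]
  .n)

def s27_170_13 : T TT 256 :=
  (.q k3 [(.s k2 k1 0 (.s k162 k243 12 (.s k82 k242 11 (.s k80 k83 0 (.d k240 k160 k161 11 12))))),
  (.s k89 k93 1 (.s k243 k162 12 (.s k83 k163 11 (.s k86 k92 2 (.s k84 k87 0 (.d k252 k168 k169 13
  14)))))), (.s k1 k2 0 (.s k89 k93 1 (.s k243 k162 12 (.s k163 k83 11 (.s k166 k12 14 (.d k169 k253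
  k172 13 2)))))), (.s k1 k2 0 (.s k161 k241 11 (.s k169 k253 13 (.s k240 k82 12 (.s k80 k160 11 (.s
  k90 k95 2 (.d k165 k173 k15 1 14)))))))] (.c k162 (.l (.s k1 k2 0 (.s k89 k93 1 (.s k161 k241 11
  (.s k82 k240 12 (.s k83 k80 0 (.s k86 k92 2 (.d k169 k253 k252 13 14)))))))) .n))

def s27_170_14 : T TT 256 :=
  (.q k1 [(.s k89 k93 1 (.s k169 k253 13 (.s k9 k249 11 (.s k13 k5 1 (.d k241 k161 k165 11 13))))),
  (.s k3 k2 0 (.s k161 k241 11 (.s k82 k240 12 (.s k83 k80 0 (.d k243 k163 k162 11 12))))), (.s k3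
  k2 0 (.s k89 k93 1 (.s k169 k253 13 (.s k86 k252 14 (.s k83 k92 2 (.d k243 k163 k162 11 12))))))]
  .n)

def s27_170_15 : T TT 256 :=
  (.q k51 [(.s k34 k17 4 (.s k162 k243 12 (.s k98 k226 7 (.s k64 k115 4 (.d k192 k128 k145 7
  12))))), (.s k17 k34 4 (.s k89 k93 1 (.s k153 k221 9 (.s k25 k217 7 (.s k29 k21 1 (.d k209 k145
  k149 7 9)))))), (.s k89 k93 1 (.s k243 k162 12 (.s k115 k179 7 (.s k102 k76 6 (.s k68 k119 4 (.d
  k204 k136 k153 9 14))))))] (.c k145 (.l (.s k17 k34 4 (.s k89 k93 1 (.s k153 k221 9 (.s k25 k217 7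
  (.s k12 k38 6 (.d k243 k162 k166 12 14))))))) .n))

def s27_170_16 : T TT 256 :=
  (.q k1 [(.s k89 k93 1 (.s k169 k253 13 (.s k9 k249 11 (.s k13 k5 1 (.d k241 k161 k165 11 13))))),
  (.s k3 k2 0 (.s k161 k241 11 (.s k82 k240 12 (.s k83 k80 0 (.d k243 k163 k162 11 12))))), (.s k3
  k2 0 (.s k89 k93 1 (.s k169 k253 13 (.s k86 k252 14 (.s k83 k92 2 (.d k243 k163 k162 11 12))))))]
  .n)

def s27_170_17 : T TT 256 :=
  (.q k1 [(.s k89 k93 1 (.s k169 k253 13 (.s k9 k249 11 (.s k13 k5 1 (.d k241 k161 k165 11 13))))),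
  (.s k3 k2 0 (.s k161 k241 11 (.s k82 k240 12 (.s k83 k80 0 (.d k243 k163 k162 11 12))))), (.s k3
  k2 0 (.s k89 k93 1 (.s k169 k253 13 (.s k86 k252 14 (.s k83 k92 2 (.d k243 k163 k162 11 12))))))]
  .n)

def s27_170_18 : T TT 256 :=
  (.q k1 [(.s k89 k93 1 (.s k169 k253 13 (.s k9 k249 11 (.s k13 k5 1 (.d k241 k161 k165 11 13))))),
  (.s k3 k2 0 (.s k161 k241 11 (.s k82 k240 12 (.s k83 k80 0 (.d k243 k163 k162 11 12))))), (.s k3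
  k2 0 (.s k89 k93 1 (.s k169 k253 13 (.s k86 k252 14 (.s k83 k92 2 (.d k243 k163 k162 11 12))))))]
  .n)

def s27_170_19 : T TT 256 :=
  (.f k162 k243 12 (.f k89 k93 1 (.q k1 [(.s k161 k241 11 (.s k160 k163 0 (.s k240 k80 11 (.d k3 k2
  k82 0 12)))), (.s k169 k253 13 (.s k9 k249 11 (.s k13 k5 1 (.d k241 k161 k165 11 13)))), (.s k3 k2
  0 (.s k169 k253 13 (.s k86 k252 14 (.s k83 k92 2 (.s k80 k82 0 (.s k87 k84 0 (.d k95 k91 k90 1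
  2)))))))] (.c k23 (.q k31 [(.s k161 k241 11 (.s k160 k163 0 (.s k240 k80 11 (.d k3 k2 k82 0
  12)))), (.s k169 k253 13 (.s k9 k249 11 (.s k13 k5 1 (.d k241 k161 k165 11 13)))), (.s k3 k2 0 (.s
  k169 k253 13 (.s k86 k252 14 (.s k83 k92 2 (.s k80 k82 0 (.s k87 k84 0 (.d k95 k91 k90 1 2)))))))]
  .n) (.c k31 (.q k23 [(.s k161 k241 11 (.s k160 k163 0 (.s k240 k80 11 (.d k3 k2 k82 0 12)))), (.s
  k169 k253 13 (.s k9 k249 11 (.s k13 k5 1 (.d k241 k161 k165 11 13)))), (.s k3 k2 0 (.s k63 k43 5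
  (.s k21 k42 6 (.s k22 k20 0 (.d k41 k61 k60 5 6)))))] .n) .n)))))

def s27_170_20 : T TT 256 :=
  (.q k1 [(.s k89 k93 1 (.s k169 k253 13 (.s k9 k249 11 (.s k13 k5 1 (.d k241 k161 k165 11 13))))),
  (.s k3 k2 0 (.s k161 k241 11 (.s k82 k240 12 (.s k83 k80 0 (.d k243 k163 k162 11 12))))), (.s k3
  k2 0 (.s k89 k93 1 (.s k169 k253 13 (.s k86 k252 14 (.s k83 k92 2 (.d k243 k163 k162 11 12))))))]
  .n)

def s27_170_21 : T TT 256 :=
  (.q k1 [(.s k3 k2 0 (.s k161 k241 11 (.s k82 k240 12 (.s k83 k80 0 (.d k243 k163 k162 11 12))))),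
  (.s k89 k93 1 (.s k169 k253 13 (.s k9 k249 11 (.s k13 k5 1 (.d k241 k161 k165 11 13))))), (.s k3
  k2 0 (.s k89 k93 1 (.s k169 k253 13 (.s k86 k252 14 (.s k83 k92 2 (.d k243 k163 k162 11 12))))))]
  .n)

def s27_170_22 : T TT 256 :=
  (.q k1 [(.s k89 k93 1 (.s k169 k253 13 (.s k9 k249 11 (.s k13 k5 1 (.d k241 k161 k165 11 13))))),
  (.s k3 k2 0 (.s k161 k241 11 (.s k82 k240 12 (.s k83 k80 0 (.d k243 k163 k162 11 12))))), (.s k3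
  k2 0 (.s k89 k93 1 (.s k169 k253 13 (.s k86 k252 14 (.s k83 k92 2 (.d k243 k163 k162 11 12))))))]
  .n)

def s27_170_23 : T TT 256 :=
  (.f k162 k243 12 (.f k89 k93 1 (.q k1 [(.s k161 k241 11 (.s k160 k163 0 (.s k240 k80 11 (.d k3 k2
  k82 0 12)))), (.s k169 k253 13 (.s k9 k249 11 (.s k13 k5 1 (.d k241 k161 k165 11 13)))), (.s k3 k2
  0 (.s k169 k253 13 (.s k86 k252 14 (.s k83 k92 2 (.s k80 k82 0 (.s k87 k84 0 (.d k95 k91 k90 1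
  2)))))))] (.c k19 (.q k31 [(.s k161 k241 11 (.s k160 k163 0 (.s k240 k80 11 (.d k3 k2 k82 0
  12)))), (.s k169 k253 13 (.s k9 k249 11 (.s k13 k5 1 (.d k241 k161 k165 11 13)))), (.s k3 k2 0 (.s
  k169 k253 13 (.s k86 k252 14 (.s k83 k92 2 (.s k80 k82 0 (.s k87 k84 0 (.d k95 k91 k90 1 2)))))))]
  .n) (.c k31 (.q k19 [(.s k161 k241 11 (.s k160 k163 0 (.s k240 k80 11 (.d k3 k2 k82 0 12)))), (.s
  k169 k253 13 (.s k9 k249 11 (.s k13 k5 1 (.d k241 k161 k165 11 13)))), (.s k3 k2 0 (.s k51 k35 3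
  (.s k17 k34 4 (.s k18 k16 0 (.d k33 k49 k48 3 4)))))] .n) .n)))))

def s27_170_24 : T TT 256 :=
  (.f k162 k243 12 (.f k89 k93 1 (.q k1 [(.s k161 k241 11 (.s k160 k163 0 (.s k240 k80 11 (.d k3 k2
  k82 0 12)))), (.s k169 k253 13 (.s k9 k249 11 (.s k13 k5 1 (.d k241 k161 k165 11 13)))), (.s k3 k2
  0 (.s k169 k253 13 (.s k86 k252 14 (.s k83 k92 2 (.s k80 k82 0 (.s k87 k84 0 (.d k95 k91 k90 1
  2)))))))] (.c k25 (.q k26 [(.s k161 k241 11 (.s k160 k163 0 (.s k240 k80 11 (.d k3 k2 k82 0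
  12)))), (.s k169 k253 13 (.s k9 k249 11 (.s k13 k5 1 (.d k241 k161 k165 11 13)))), (.s k3 k2 0 (.s
  k169 k253 13 (.s k86 k252 14 (.s k83 k92 2 (.s k80 k82 0 (.s k87 k84 0 (.d k95 k91 k90 1 2)))))))]
  .n) (.c k26 (.q k25 [(.s k3 k2 0 (.s k161 k241 11 (.s k160 k163 0 (.d k240 k80 k82 11 12)))), (.s
  k153 k217 7 (.s k17 k221 9 (.s k29 k21 1 (.d k209 k145 k149 7 9))))] .n) .n)))))

def s27_170_25 : T TT 256 :=
  (.f k89 k93 1 (.q k154 [(.s k16 k223 10 (.s k211 k146 8 (.s k28 k150 10 (.d k24 k20 k219 1 8)))),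
  (.s k243 k162 12 (.s k166 k12 14 (.s k178 k142 5 (.s k48 k113 8 (.s k207 k101 14 (.d k219 k24 k231
  8 5))))))] (.c k24 (.q k26 [(.s k90 k218 7 (.s k80 k95 2 (.s k83 k82 0 (.s k88 k91 0 (.d k92 k84
  k86 1 2))))), (.s k16 k223 10 (.s k48 k32 3 (.s k101 k207 14 (.s k113 k77 5 (.d k243 k178 k162 8
  12)))))] .n) (.c k26 (.l (.s k24 k219 8 (.s k16 k223 10 (.s k28 k20 1 (.d k211 k146 k150 8 10)))))
  (.c k219 (.l (.s k16 k223 10 (.s k48 k32 3 (.s k101 k207 14 (.s k113 k77 5 (.d k243 k178 k162 8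
  12)))))) .n)))))

def s27_170_26 : T TT 256 :=
  (.f k89 k93 1 (.q k154 [(.s k16 k223 10 (.s k211 k146 8 (.s k28 k150 10 (.d k24 k20 k219 1 8)))),
  (.s k243 k162 12 (.s k166 k12 14 (.s k178 k142 5 (.s k48 k113 8 (.s k207 k101 14 (.d k219 k24 k231
  8 5))))))] (.c k24 (.q k25 [(.s k153 k217 7 (.s k17 k221 9 (.s k209 k145 7 (.d k29 k21 k149 1
  9)))), (.s k16 k223 10 (.s k48 k32 3 (.s k101 k207 14 (.s k113 k77 5 (.d k243 k178 k162 8 12)))))]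
  .n) (.c k25 (.l (.s k24 k219 8 (.s k16 k223 10 (.s k28 k20 1 (.d k211 k146 k150 8 10))))) (.c k219
  (.l (.s k16 k223 10 (.s k48 k32 3 (.s k101 k207 14 (.s k113 k77 5 (.d k243 k178 k162 8 12))))))
  .n)))))

def s27_170_28 : T TT 256 :=
  (.q k1 [(.s k3 k2 0 (.s k161 k241 11 (.s k82 k240 12 (.s k83 k80 0 (.d k243 k163 k162 11 12))))),
  (.s k89 k93 1 (.s k169 k253 13 (.s k9 k249 11 (.s k13 k5 1 (.d k241 k161 k165 11 13))))), (.s k3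
  k2 0 (.s k89 k93 1 (.s k169 k253 13 (.s k86 k252 14 (.s k83 k92 2 (.d k243 k163 k162 11 12))))))]
  .n)

def s27_170_29 : T TT 256 :=
  (.q k1 [(.s k3 k2 0 (.s k161 k241 11 (.s k82 k240 12 (.s k83 k80 0 (.d k243 k163 k162 11 12))))),
  (.s k89 k93 1 (.s k169 k253 13 (.s k9 k249 11 (.s k13 k5 1 (.d k241 k161 k165 11 13))))), (.s k3
  k2 0 (.s k89 k93 1 (.s k169 k253 13 (.s k86 k252 14 (.s k83 k92 2 (.d k243 k163 k162 11 12))))))]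
  .n)

def s27_170_30 : T TT 256 :=
  (.q k1 [(.s k89 k93 1 (.s k169 k253 13 (.s k9 k249 11 (.s k13 k5 1 (.d k241 k161 k165 11 13))))),
  (.s k3 k2 0 (.s k161 k241 11 (.s k82 k240 12 (.s k83 k80 0 (.d k243 k163 k162 11 12))))), (.s k3
  k2 0 (.s k89 k93 1 (.s k169 k253 13 (.s k86 k252 14 (.s k83 k92 2 (.d k243 k163 k162 11 12))))))]
  .n)

def s27_170_31 : T TT 256 :=
  (.f k162 k243 12 (.f k89 k93 1 (.q k1 [(.s k161 k241 11 (.s k160 k163 0 (.s k240 k80 11 (.d k3 k2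
  k82 0 12)))), (.s k169 k253 13 (.s k9 k249 11 (.s k13 k5 1 (.d k241 k161 k165 11 13)))), (.s k3 k2
  0 (.s k169 k253 13 (.s k86 k252 14 (.s k83 k92 2 (.s k80 k82 0 (.s k87 k84 0 (.d k95 k91 k90 1
  2)))))))] (.c k19 (.q k23 [(.s k161 k241 11 (.s k160 k163 0 (.s k240 k80 11 (.d k3 k2 k82 0
  12)))), (.s k169 k253 13 (.s k9 k249 11 (.s k13 k5 1 (.d k241 k161 k165 11 13)))), (.s k3 k2 0 (.s
  k63 k43 5 (.s k21 k42 6 (.s k22 k20 0 (.d k41 k61 k60 5 6)))))] .n) (.c k23 (.q k19 [(.s k161 k241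
  11 (.s k160 k163 0 (.s k240 k80 11 (.d k3 k2 k82 0 12)))), (.s k169 k253 13 (.s k9 k249 11 (.s k13
  k5 1 (.d k241 k161 k165 11 13)))), (.s k3 k2 0 (.s k51 k35 3 (.s k17 k34 4 (.s k18 k16 0 (.d k33
  k49 k48 3 4)))))] .n) .n)))))

def s27_170_32 : T TT 256 :=
  (.f k89 k93 1 (.q k101 [(.s k117 k69 3 (.s k113 k77 5 (.s k125 k121 1 (.d k65 k97 k105 3 5)))),
  (.s k69 k117 3 (.s k207 k138 10 (.s k154 k48 14 (.s k219 k24 8 (.d k243 k231 k162 5 12))))), (.s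
  k113 k77 5 (.s k243 k162 12 (.s k48 k178 8 (.s k154 k207 14 (.s k24 k219 8 (.d k12 k166 k36 14
  5))))))] .n))

def s27_170_33 : T TT 256 :=
  (.q k1 [(.s k89 k93 1 (.s k169 k253 13 (.s k9 k249 11 (.s k13 k5 1 (.d k241 k161 k165 11 13))))),
  (.s k3 k2 0 (.s k161 k241 11 (.s k82 k240 12 (.s k83 k80 0 (.d k243 k163 k162 11 12))))), (.s k3
  k2 0 (.s k89 k93 1 (.s k169 k253 13 (.s k86 k252 14 (.s k83 k92 2 (.d k243 k163 k162 11 12))))))]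
  .n)

def s27_170_34 : T TT 256 :=
  (.f k89 k93 1 (.q k102 [(.s k119 k68 4 (.s k115 k76 6 (.s k127 k123 1 (.d k64 k98 k106 4 6)))),
  (.s k68 k119 4 (.s k204 k136 9 (.s k153 k51 14 (.s k217 k25 7 (.d k243 k230 k162 6 12))))), (.s
  k115 k76 6 (.s k243 k162 12 (.s k51 k179 7 (.s k153 k204 14 (.s k25 k217 7 (.d k12 k166 k38 14
  6))))))] .n))

def s27_170_35 : T TT 256 :=
  (.q k1 [(.s k89 k93 1 (.s k169 k253 13 (.s k9 k249 11 (.s k13 k5 1 (.d k241 k161 k165 11 13))))),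
  (.s k3 k2 0 (.s k161 k241 11 (.s k82 k240 12 (.s k83 k80 0 (.d k243 k163 k162 11 12))))), (.s k3
  k2 0 (.s k89 k93 1 (.s k169 k253 13 (.s k86 k252 14 (.s k83 k92 2 (.d k243 k163 k162 11 12))))))]
  .n)

def s27_170_36 : T TT 256 :=
  (.q k1 [(.s k89 k93 1 (.s k169 k253 13 (.s k9 k249 11 (.s k13 k5 1 (.d k241 k161 k165 11 13))))),
  (.s k3 k2 0 (.s k161 k241 11 (.s k82 k240 12 (.s k83 k80 0 (.d k243 k163 k162 11 12))))), (.s k3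
  k2 0 (.s k89 k93 1 (.s k169 k253 13 (.s k86 k252 14 (.s k83 k92 2 (.d k243 k163 k162 11 12))))))]
  .n)

def s27_170_37 : T TT 256 :=
  (.q k1 [(.s k3 k2 0 (.s k161 k241 11 (.s k82 k240 12 (.s k83 k80 0 (.d k243 k163 k162 11 12))))),
  (.s k89 k93 1 (.s k169 k253 13 (.s k9 k249 11 (.s k13 k5 1 (.d k241 k161 k165 11 13))))), (.s k3
  k2 0 (.s k89 k93 1 (.s k169 k253 13 (.s k86 k252 14 (.s k83 k92 2 (.d k243 k163 k162 11 12))))))]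
  .n)

def s27_170_38 : T TT 256 :=
  (.q k1 [(.s k89 k93 1 (.s k169 k253 13 (.s k9 k249 11 (.s k13 k5 1 (.d k241 k161 k165 11 13))))),
  (.s k3 k2 0 (.s k161 k241 11 (.s k82 k240 12 (.s k83 k80 0 (.d k243 k163 k162 11 12))))), (.s k3
  k2 0 (.s k89 k93 1 (.s k169 k253 13 (.s k86 k252 14 (.s k83 k92 2 (.d k243 k163 k162 11 12))))))]
  .n)

def s27_170_39 : T TT 256 :=
  (.q k51 [(.s k34 k17 4 (.s k162 k243 12 (.s k98 k226 7 (.s k64 k115 4 (.d k192 k128 k145 7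
  12))))), (.s k17 k34 4 (.s k89 k93 1 (.s k153 k221 9 (.s k25 k217 7 (.s k29 k21 1 (.d k209 k145
  k149 7 9)))))), (.s k89 k93 1 (.s k243 k162 12 (.s k115 k179 7 (.s k102 k76 6 (.s k68 k119 4 (.d
  k204 k136 k153 9 14))))))] (.c k145 (.l (.s k17 k34 4 (.s k89 k93 1 (.s k153 k221 9 (.s k25 k217 7
  (.s k12 k38 6 (.d k243 k162 k166 12 14))))))) .n))

def s27_170_40 : T TT 256 :=
  (.q k105 [(.s k65 k125 5 (.s k89 k93 1 (.s k73 k121 3 (.s k77 k69 1 (.d k113 k97 k101 3 5))))),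
  (.s k89 k93 1 (.s k121 k73 3 (.s k243 k162 12 (.s k60 k182 10 (.s k150 k195 14 (.s k28 k211 10 (.d
  k12 k166 k44 14 3))))))), (.s k65 k125 5 (.s k97 k113 3 (.s k162 k243 12 (.s k32 k227 8 (.s k48
  k16 3 (.d k195 k130 k146 8 12))))))] (.c k121 (.l (.s k65 k125 5 (.s k89 k93 1 (.s k195 k130 8 (.s
  k150 k60 14 (.s k211 k28 10 (.d k243 k227 k162 3 12))))))) .n))

def s27_170_41 : T TT 256 :=
  (.q k1 [(.s k89 k93 1 (.s k169 k253 13 (.s k9 k249 11 (.s k13 k5 1 (.d k241 k161 k165 11 13))))),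
  (.s k3 k2 0 (.s k161 k241 11 (.s k82 k240 12 (.s k83 k80 0 (.d k243 k163 k162 11 12))))), (.s k3
  k2 0 (.s k89 k93 1 (.s k169 k253 13 (.s k86 k252 14 (.s k83 k92 2 (.d k243 k163 k162 11 12))))))]
  .n)

def s27_170_42 : T TT 256 :=
  (.q k106 [(.s k64 k127 6 (.s k89 k93 1 (.s k72 k123 4 (.s k76 k68 1 (.d k115 k98 k102 4 6))))),
  (.s k89 k93 1 (.s k123 k72 4 (.s k243 k162 12 (.s k63 k183 9 (.s k149 k192 14 (.s k29 k209 9 (.d
  k12 k166 k46 14 4))))))), (.s k64 k127 6 (.s k98 k115 4 (.s k162 k243 12 (.s k34 k226 7 (.s k51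
  k17 4 (.d k192 k128 k145 7 12))))))] (.c k123 (.l (.s k64 k127 6 (.s k89 k93 1 (.s k192 k128 7 (.s
  k149 k63 14 (.s k209 k29 9 (.d k243 k226 k162 4 12))))))) .n))

def s27_170_43 : T TT 256 :=
  (.f k162 k243 12 (.f k89 k93 1 (.q k1 [(.s k161 k241 11 (.s k160 k163 0 (.s k240 k80 11 (.d k3 k2
  k82 0 12)))), (.s k169 k253 13 (.s k9 k249 11 (.s k13 k5 1 (.d k241 k161 k165 11 13)))), (.s k3 k2
  0 (.s k169 k253 13 (.s k86 k252 14 (.s k83 k92 2 (.s k80 k82 0 (.s k87 k84 0 (.d k95 k91 k90 1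
  2)))))))] (.c k11 (.q k59 [(.s k161 k241 11 (.s k160 k163 0 (.s k240 k80 11 (.d k3 k2 k82 0
  12)))), (.s k169 k253 13 (.s k9 k249 11 (.s k13 k5 1 (.d k241 k161 k165 11 13)))), (.s k3 k2 0 (.s
  k169 k253 13 (.s k86 k252 14 (.s k83 k92 2 (.s k80 k82 0 (.s k87 k84 0 (.d k95 k91 k90 1 2)))))))]
  .n) (.c k59 (.q k11 [(.s k161 k241 11 (.s k160 k163 0 (.s k240 k80 11 (.d k3 k2 k82 0 12)))), (.s
  k169 k253 13 (.s k9 k249 11 (.s k10 k8 0 (.d k5 k13 k15 1 2))))] (.c k241 (.l (.s k2 k3 0 (.s k169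
  k253 13 (.s k90 k248 12 (.s k80 k95 2 (.d k82 k83 k242 0 11)))))) .n)) .n)))))

def s27_170_44 : T TT 256 :=
  (.q k1 [(.s k89 k93 1 (.s k169 k253 13 (.s k9 k249 11 (.s k13 k5 1 (.d k241 k161 k165 11 13))))),
  (.s k3 k2 0 (.s k161 k241 11 (.s k82 k240 12 (.s k83 k80 0 (.d k243 k163 k162 11 12))))), (.s k3
  k2 0 (.s k89 k93 1 (.s k169 k253 13 (.s k86 k252 14 (.s k83 k92 2 (.d k243 k163 k162 11 12))))))]
  .n)

def s27_170_45 : T TT 256 :=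
  (.q k1 [(.s k89 k93 1 (.s k169 k253 13 (.s k9 k249 11 (.s k13 k5 1 (.d k241 k161 k165 11 13))))),
  (.s k3 k2 0 (.s k161 k241 11 (.s k82 k240 12 (.s k83 k80 0 (.d k243 k163 k162 11 12))))), (.s k3
  k2 0 (.s k89 k93 1 (.s k169 k253 13 (.s k86 k252 14 (.s k83 k92 2 (.d k243 k163 k162 11 12))))))]
  .n)

def s27_170_46 : T TT 256 :=
  (.q k1 [(.s k89 k93 1 (.s k169 k253 13 (.s k9 k249 11 (.s k13 k5 1 (.d k241 k161 k165 11 13))))),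
  (.s k3 k2 0 (.s k161 k241 11 (.s k82 k240 12 (.s k83 k80 0 (.d k243 k163 k162 11 12))))), (.s k3
  k2 0 (.s k89 k93 1 (.s k169 k253 13 (.s k86 k252 14 (.s k83 k92 2 (.d k243 k163 k162 11 12))))))]
  .n)

def s27_170_47 : T TT 256 :=
  (.q k1 [(.s k89 k93 1 (.s k169 k253 13 (.s k9 k249 11 (.s k13 k5 1 (.d k241 k161 k165 11 13))))),
  (.s k3 k2 0 (.s k161 k241 11 (.s k82 k240 12 (.s k83 k80 0 (.d k243 k163 k162 11 12))))), (.s k3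
  k2 0 (.s k89 k93 1 (.s k169 k253 13 (.s k86 k252 14 (.s k83 k92 2 (.d k243 k163 k162 11 12))))))]
  .n)

def s27_170_48 : T TT 256 :=
  (.q k1 [(.s k89 k93 1 (.s k169 k253 13 (.s k9 k249 11 (.s k13 k5 1 (.d k241 k161 k165 11 13))))),
  (.s k3 k2 0 (.s k161 k241 11 (.s k82 k240 12 (.s k83 k80 0 (.d k243 k163 k162 11 12))))), (.s k3
  k2 0 (.s k89 k93 1 (.s k169 k253 13 (.s k86 k252 14 (.s k83 k92 2 (.d k243 k163 k162 11 12))))))]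
  .n)

def s27_170_49 : T TT 256 :=
  (.q k1 [(.s k89 k93 1 (.s k169 k253 13 (.s k9 k249 11 (.s k13 k5 1 (.d k241 k161 k165 11 13))))),
  (.s k3 k2 0 (.s k161 k241 11 (.s k82 k240 12 (.s k83 k80 0 (.d k243 k163 k162 11 12))))), (.s k3
  k2 0 (.s k89 k93 1 (.s k169 k253 13 (.s k86 k252 14 (.s k83 k92 2 (.d k243 k163 k162 11 12))))))]
  .n)

def s27_170_50 : T TT 256 :=
  (.q k1 [(.s k89 k93 1 (.s k169 k253 13 (.s k9 k249 11 (.s k13 k5 1 (.d k241 k161 k165 11 13))))),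
  (.s k3 k2 0 (.s k161 k241 11 (.s k82 k240 12 (.s k83 k80 0 (.d k243 k163 k162 11 12))))), (.s k3
  k2 0 (.s k89 k93 1 (.s k169 k253 13 (.s k86 k252 14 (.s k83 k92 2 (.d k243 k163 k162 11 12))))))]
  .n)

def s27_170_51 : T TT 256 :=
  (.f k89 k93 1 (.q k15 [(.s k243 k162 12 (.s k91 k167 13 (.s k5 k10 2 (.s k90 k88 0 (.d k165 k245
  k240 11 14))))), (.s k5 k10 2 (.s k165 k245 11 (.s k13 k241 13 (.s k9 k1 1 (.s k12 k14 0 (.s k4 k8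
  1 (.d k6 k7 k3 0 2))))))), (.s k243 k162 12 (.s k91 k167 13 (.s k90 k88 0 (.s k80 k95 2 (.s k166
  k12 14 (.s k242 k14 13 (.d k240 k241 k160 0 11)))))))] (.c k90 (.l (.s k243 k162 12 (.s k166 k12
  14 (.s k167 k91 13 (.s k165 k164 0 (.d k5 k10 k245 2 11)))))) .n)))

def s27_170_52 : T TT 256 :=
  (.q k1 [(.s k89 k93 1 (.s k169 k253 13 (.s k9 k249 11 (.s k13 k5 1 (.d k241 k161 k165 11 13))))),
  (.s k3 k2 0 (.s k161 k241 11 (.s k82 k240 12 (.s k83 k80 0 (.d k243 k163 k162 11 12))))), (.s k3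
  k2 0 (.s k89 k93 1 (.s k169 k253 13 (.s k86 k252 14 (.s k83 k92 2 (.d k243 k163 k162 11 12))))))]
  .n)

def s27_170_53 : T TT 256 :=
  (.q k1 [(.s k3 k2 0 (.s k161 k241 11 (.s k82 k240 12 (.s k83 k80 0 (.d k243 k163 k162 11 12))))),
  (.s k89 k93 1 (.s k169 k253 13 (.s k9 k249 11 (.s k13 k5 1 (.d k241 k161 k165 11 13))))), (.s k3
  k2 0 (.s k89 k93 1 (.s k169 k253 13 (.s k86 k252 14 (.s k83 k92 2 (.d k243 k163 k162 11 12))))))]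
  .n)

def s27_170_54 : T TT 256 :=
  (.q k1 [(.s k89 k93 1 (.s k169 k253 13 (.s k9 k249 11 (.s k13 k5 1 (.d k241 k161 k165 11 13))))),
  (.s k3 k2 0 (.s k161 k241 11 (.s k82 k240 12 (.s k83 k80 0 (.d k243 k163 k162 11 12))))), (.s k3
  k2 0 (.s k89 k93 1 (.s k169 k253 13 (.s k86 k252 14 (.s k83 k92 2 (.d k243 k163 k162 11 12))))))]
  .n)

def s27_170_55 : T TT 256 :=
  (.q k1 [(.s k89 k93 1 (.s k169 k253 13 (.s k9 k249 11 (.s k13 k5 1 (.d k241 k161 k165 11 13))))),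
  (.s k3 k2 0 (.s k161 k241 11 (.s k82 k240 12 (.s k83 k80 0 (.d k243 k163 k162 11 12))))), (.s k3
  k2 0 (.s k89 k93 1 (.s k169 k253 13 (.s k86 k252 14 (.s k83 k92 2 (.d k243 k163 k162 11 12))))))]
  .n)

def s27_170_56 : T TT 256 :=
  (.q k1 [(.s k89 k93 1 (.s k169 k253 13 (.s k9 k249 11 (.s k13 k5 1 (.d k241 k161 k165 11 13))))),
  (.s k3 k2 0 (.s k161 k241 11 (.s k82 k240 12 (.s k83 k80 0 (.d k243 k163 k162 11 12))))), (.s k3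
  k2 0 (.s k89 k93 1 (.s k169 k253 13 (.s k86 k252 14 (.s k83 k92 2 (.d k243 k163 k162 11 12))))))]
  .n)

def s27_170_57 : T TT 256 :=
  (.q k1 [(.s k3 k2 0 (.s k161 k241 11 (.s k82 k240 12 (.s k83 k80 0 (.d k243 k163 k162 11 12))))),
  (.s k89 k93 1 (.s k169 k253 13 (.s k9 k249 11 (.s k13 k5 1 (.d k241 k161 k165 11 13))))), (.s k3
  k2 0 (.s k89 k93 1 (.s k169 k253 13 (.s k86 k252 14 (.s k83 k92 2 (.d k243 k163 k162 11 12))))))]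
  .n)

def s27_170_58 : T TT 256 :=
  (.q k1 [(.s k89 k93 1 (.s k169 k253 13 (.s k9 k249 11 (.s k13 k5 1 (.d k241 k161 k165 11 13))))),
  (.s k3 k2 0 (.s k161 k241 11 (.s k82 k240 12 (.s k83 k80 0 (.d k243 k163 k162 11 12))))), (.s k3
  k2 0 (.s k89 k93 1 (.s k169 k253 13 (.s k86 k252 14 (.s k83 k92 2 (.d k243 k163 k162 11 12))))))]
  .n)

def s27_170_59 : T TT 256 :=
  (.f k89 k93 1 (.f k162 k243 12 (.q k1 [(.s k161 k241 11 (.s k160 k163 0 (.s k240 k80 11 (.d k3 k2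
  k82 0 12)))), (.s k169 k253 13 (.s k9 k249 11 (.s k13 k5 1 (.d k241 k161 k165 11 13)))), (.s k3 k2
  0 (.s k169 k253 13 (.s k86 k252 14 (.s k83 k92 2 (.s k80 k82 0 (.s k87 k84 0 (.d k95 k91 k90 1
  2)))))))] (.c k11 (.q k43 [(.s k161 k241 11 (.s k160 k163 0 (.s k240 k80 11 (.d k3 k2 k82 0
  12)))), (.s k169 k253 13 (.s k9 k249 11 (.s k13 k5 1 (.d k241 k161 k165 11 13)))), (.s k3 k2 0 (.s
  k63 k23 5 (.s k21 k42 6 (.s k149 k213 7 (.s k106 k192 14 (.d k169 k232 k253 8 13))))))] .n) (.c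
  k43 (.q k11 [(.s k161 k241 11 (.s k160 k163 0 (.s k240 k80 11 (.d k3 k2 k82 0 12)))), (.s k169
  k253 13 (.s k9 k249 11 (.s k10 k8 0 (.d k5 k13 k15 1 2))))] (.c k241 (.l (.s k2 k3 0 (.s k169 k253
  13 (.s k90 k248 12 (.s k80 k95 2 (.d k82 k83 k242 0 11)))))) .n)) .n)))))

def s27_170_60 : T TT 256 :=
  (.q k1 [(.s k89 k93 1 (.s k169 k253 13 (.s k9 k249 11 (.s k13 k5 1 (.d k241 k161 k165 11 13))))),
  (.s k3 k2 0 (.s k161 k241 11 (.s k82 k240 12 (.s k83 k80 0 (.d k243 k163 k162 11 12))))), (.s k3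
  k2 0 (.s k89 k93 1 (.s k169 k253 13 (.s k86 k252 14 (.s k83 k92 2 (.d k243 k163 k162 11 12))))))]
  .n)

def s27_170_61 : T TT 256 :=
  (.q k1 [(.s k89 k93 1 (.s k169 k253 13 (.s k9 k249 11 (.s k13 k5 1 (.d k241 k161 k165 11 13))))),
  (.s k3 k2 0 (.s k161 k241 11 (.s k82 k240 12 (.s k83 k80 0 (.d k243 k163 k162 11 12))))), (.s k3
  k2 0 (.s k89 k93 1 (.s k169 k253 13 (.s k86 k252 14 (.s k83 k92 2 (.d k243 k163 k162 11 12))))))]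
  .n)

def s27_170_62 : T TT 256 :=
  (.q k1 [(.s k89 k93 1 (.s k169 k253 13 (.s k9 k249 11 (.s k13 k5 1 (.d k241 k161 k165 11 13))))),
  (.s k3 k2 0 (.s k161 k241 11 (.s k82 k240 12 (.s k83 k80 0 (.d k243 k163 k162 11 12))))), (.s k3
  k2 0 (.s k89 k93 1 (.s k169 k253 13 (.s k86 k252 14 (.s k83 k92 2 (.d k243 k163 k162 11 12))))))]
  .n)

def s27_170_63 : T TT 256 :=
  (.q k1 [(.s k89 k93 1 (.s k169 k253 13 (.s k9 k249 11 (.s k13 k5 1 (.d k241 k161 k165 11 13))))),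
  (.s k3 k2 0 (.s k161 k241 11 (.s k82 k240 12 (.s k83 k80 0 (.d k243 k163 k162 11 12))))), (.s k3
  k2 0 (.s k89 k93 1 (.s k169 k253 13 (.s k86 k252 14 (.s k83 k92 2 (.d k243 k163 k162 11 12))))))]
  .n)

def s27_170_64 : T TT 256 :=
  (.q k1 [(.s k89 k93 1 (.s k169 k253 13 (.s k9 k249 11 (.s k13 k5 1 (.d k241 k161 k165 11 13))))),
  (.s k3 k2 0 (.s k161 k241 11 (.s k82 k240 12 (.s k83 k80 0 (.d k243 k163 k162 11 12))))), (.s k3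
  k2 0 (.s k89 k93 1 (.s k169 k253 13 (.s k86 k252 14 (.s k83 k92 2 (.d k243 k163 k162 11 12))))))]
  .n)

def s27_170_65 : T TT 256 :=
  (.q k1 [(.s k89 k93 1 (.s k169 k253 13 (.s k9 k249 11 (.s k13 k5 1 (.d k241 k161 k165 11 13))))),
  (.s k3 k2 0 (.s k161 k241 11 (.s k82 k240 12 (.s k83 k80 0 (.d k243 k163 k162 11 12))))), (.s k3
  k2 0 (.s k89 k93 1 (.s k169 k253 13 (.s k86 k252 14 (.s k83 k92 2 (.d k243 k163 k162 11 12))))))]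
  .n)

def s27_170_66 : T TT 256 :=
  (.q k1 [(.s k89 k93 1 (.s k169 k253 13 (.s k9 k249 11 (.s k13 k5 1 (.d k241 k161 k165 11 13))))),
  (.s k3 k2 0 (.s k161 k241 11 (.s k82 k240 12 (.s k83 k80 0 (.d k243 k163 k162 11 12))))), (.s k3
  k2 0 (.s k89 k93 1 (.s k169 k253 13 (.s k86 k252 14 (.s k83 k92 2 (.d k243 k163 k162 11 12))))))]
  .n)

def s27_170_67 : T TT 256 :=
  (.q k1 [(.s k89 k93 1 (.s k169 k253 13 (.s k9 k249 11 (.s k13 k5 1 (.d k241 k161 k165 11 13))))),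
  (.s k3 k2 0 (.s k161 k241 11 (.s k82 k240 12 (.s k83 k80 0 (.d k243 k163 k162 11 12))))), (.s k3
  k2 0 (.s k89 k93 1 (.s k169 k253 13 (.s k86 k252 14 (.s k83 k92 2 (.d k243 k163 k162 11 12))))))]
  .n)

def s27_170_68 : T TT 256 :=
  (.q k1 [(.s k89 k93 1 (.s k169 k253 13 (.s k9 k249 11 (.s k13 k5 1 (.d k241 k161 k165 11 13))))),
  (.s k3 k2 0 (.s k161 k241 11 (.s k82 k240 12 (.s k83 k80 0 (.d k243 k163 k162 11 12))))), (.s k3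
  k2 0 (.s k89 k93 1 (.s k169 k253 13 (.s k86 k252 14 (.s k83 k92 2 (.d k243 k163 k162 11 12))))))]
  .n)

def s27_170_69 : T TT 256 :=
  (.q k1 [(.s k3 k2 0 (.s k161 k241 11 (.s k82 k240 12 (.s k83 k80 0 (.d k243 k163 k162 11 12))))),
  (.s k89 k93 1 (.s k169 k253 13 (.s k9 k249 11 (.s k13 k5 1 (.d k241 k161 k165 11 13))))), (.s k3
  k2 0 (.s k89 k93 1 (.s k169 k253 13 (.s k86 k252 14 (.s k83 k92 2 (.d k243 k163 k162 11 12))))))]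
  .n)

def s27_170_70 : T TT 256 :=
  (.q k1 [(.s k89 k93 1 (.s k169 k253 13 (.s k9 k249 11 (.s k13 k5 1 (.d k241 k161 k165 11 13))))),
  (.s k3 k2 0 (.s k161 k241 11 (.s k82 k240 12 (.s k83 k80 0 (.d k243 k163 k162 11 12))))), (.s k3
  k2 0 (.s k89 k93 1 (.s k169 k253 13 (.s k86 k252 14 (.s k83 k92 2 (.d k243 k163 k162 11 12))))))]
  .n)

def s27_170_71 : T TT 256 :=
  (.q k1 [(.s k89 k93 1 (.s k169 k253 13 (.s k9 k249 11 (.s k13 k5 1 (.d k241 k161 k165 11 13))))),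
  (.s k3 k2 0 (.s k161 k241 11 (.s k82 k240 12 (.s k83 k80 0 (.d k243 k163 k162 11 12))))), (.s k3
  k2 0 (.s k89 k93 1 (.s k169 k253 13 (.s k86 k252 14 (.s k83 k92 2 (.d k243 k163 k162 11 12))))))]
  .n)

def s27_170_72 : T TT 256 :=
  (.q k1 [(.s k89 k93 1 (.s k169 k253 13 (.s k9 k249 11 (.s k13 k5 1 (.d k241 k161 k165 11 13))))),
  (.s k3 k2 0 (.s k161 k241 11 (.s k82 k240 12 (.s k83 k80 0 (.d k243 k163 k162 11 12))))), (.s k3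
  k2 0 (.s k89 k93 1 (.s k169 k253 13 (.s k86 k252 14 (.s k83 k92 2 (.d k243 k163 k162 11 12))))))]
  .n)

def s27_170_73 : T TT 256 :=
  (.q k1 [(.s k89 k93 1 (.s k169 k253 13 (.s k9 k249 11 (.s k13 k5 1 (.d k241 k161 k165 11 13))))),
  (.s k3 k2 0 (.s k161 k241 11 (.s k82 k240 12 (.s k83 k80 0 (.d k243 k163 k162 11 12))))), (.s k3
  k2 0 (.s k89 k93 1 (.s k169 k253 13 (.s k86 k252 14 (.s k83 k92 2 (.d k243 k163 k162 11 12))))))]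
  .n)

def s27_170_74 : T TT 256 :=
  (.q k1 [(.s k89 k93 1 (.s k169 k253 13 (.s k9 k249 11 (.s k13 k5 1 (.d k241 k161 k165 11 13))))),
  (.s k3 k2 0 (.s k161 k241 11 (.s k82 k240 12 (.s k83 k80 0 (.d k243 k163 k162 11 12))))), (.s k3
  k2 0 (.s k89 k93 1 (.s k169 k253 13 (.s k86 k252 14 (.s k83 k92 2 (.d k243 k163 k162 11 12))))))]
  .n)

def s27_170_75 : T TT 256 :=
  (.q k1 [(.s k89 k93 1 (.s k169 k253 13 (.s k9 k249 11 (.s k13 k5 1 (.d k241 k161 k165 11 13))))),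
  (.s k3 k2 0 (.s k161 k241 11 (.s k82 k240 12 (.s k83 k80 0 (.d k243 k163 k162 11 12))))), (.s k3
  k2 0 (.s k89 k93 1 (.s k169 k253 13 (.s k86 k252 14 (.s k83 k92 2 (.d k243 k163 k162 11 12))))))]
  .n)

def s27_170_76 : T TT 256 :=
  (.q k1 [(.s k3 k2 0 (.s k161 k241 11 (.s k82 k240 12 (.s k83 k80 0 (.d k243 k163 k162 11 12))))),
  (.s k89 k93 1 (.s k169 k253 13 (.s k9 k249 11 (.s k13 k5 1 (.d k241 k161 k165 11 13))))), (.s k3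
  k2 0 (.s k89 k93 1 (.s k169 k253 13 (.s k86 k252 14 (.s k83 k92 2 (.d k243 k163 k162 11 12))))))]
  .n)

def s27_170_77 : T TT 256 :=
  (.q k1 [(.s k3 k2 0 (.s k161 k241 11 (.s k82 k240 12 (.s k83 k80 0 (.d k243 k163 k162 11 12))))),
  (.s k89 k93 1 (.s k169 k253 13 (.s k9 k249 11 (.s k13 k5 1 (.d k241 k161 k165 11 13))))), (.s k3
  k2 0 (.s k89 k93 1 (.s k169 k253 13 (.s k86 k252 14 (.s k83 k92 2 (.d k243 k163 k162 11 12))))))]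
  .n)

def s27_170_78 : T TT 256 :=
  (.q k1 [(.s k89 k93 1 (.s k169 k253 13 (.s k9 k249 11 (.s k13 k5 1 (.d k241 k161 k165 11 13))))),
  (.s k3 k2 0 (.s k161 k241 11 (.s k82 k240 12 (.s k83 k80 0 (.d k243 k163 k162 11 12))))), (.s k3
  k2 0 (.s k89 k93 1 (.s k169 k253 13 (.s k86 k252 14 (.s k83 k92 2 (.d k243 k163 k162 11 12))))))]
  .n)

def s27_170_79 : T TT 256 :=
  (.q k1 [(.s k89 k93 1 (.s k169 k253 13 (.s k9 k249 11 (.s k13 k5 1 (.d k241 k161 k165 11 13))))),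
  (.s k3 k2 0 (.s k161 k241 11 (.s k82 k240 12 (.s k83 k80 0 (.d k243 k163 k162 11 12))))), (.s k3
  k2 0 (.s k89 k93 1 (.s k169 k253 13 (.s k86 k252 14 (.s k83 k92 2 (.d k243 k163 k162 11 12))))))]
  .n)

def s27_170_80 : T TT 256 :=
  (.q k1 [(.s k89 k93 1 (.s k241 k161 11 (.s k165 k13 13 (.s k245 k5 11 (.d k253 k249 k169 1
  13))))), (.s k3 k2 0 (.s k169 k253 13 (.s k243 k162 12 (.s k163 k83 11 (.s k166 k172 2 (.s k4 k247
  12 (.d k12 k8 k89 1 14)))))))] (.c k89 (.l (.s k3 k2 0 (.s k161 k241 11 (.s k169 k253 13 (.s k165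
  k173 1 (.s k240 k82 12 (.s k15 k90 14 (.d k5 k10 k245 2 11)))))))) (.c k169 (.l (.s k89 k93 1 (.s
  k241 k161 11 (.s k165 k13 13 (.s k5 k245 11 (.s k15 k10 2 (.s k243 k162 12 (.d k240 k90 k242 14
  0)))))))) (.c k253 (.l (.s k3 k2 0 (.s k89 k93 1 (.s k241 k161 11 (.s k13 k165 13 (.s k9 k5 1 (.s
  k12 k6 2 (.d k243 k162 k166 12 14)))))))) .n))))

def s27_170_82 : T TT 256 :=
  (.q k16 [(.s k48 k32 3 (.s k146 k211 8 (.s k97 k195 12 (.s k113 k65 3 (.d k243 k178 k162 8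
  12))))), (.s k89 k93 1 (.s k154 k223 10 (.s k24 k219 8 (.s k28 k20 1 (.d k211 k146 k150 8 10))))),
  (.s k48 k32 3 (.s k89 k93 1 (.s k154 k223 10 (.s k101 k207 14 (.s k113 k77 5 (.d k243 k178 k162 8
  12))))))] .n)

def s27_170_83 : T TT 256 :=
  (.q k1 [(.s k89 k93 1 (.s k169 k253 13 (.s k9 k249 11 (.s k13 k5 1 (.d k241 k161 k165 11 13))))),
  (.s k3 k2 0 (.s k161 k241 11 (.s k162 k243 12 (.s k160 k163 0 (.d k240 k80 k82 11 12))))), (.s k3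
  k2 0 (.s k89 k93 1 (.s k169 k253 13 (.s k243 k162 12 (.s k249 k9 11 (.d k252 k86 k246 14 2))))))]
  .n)

def s27_170_84 : T TT 256 :=
  (.q k1 [(.s k89 k93 1 (.s k169 k253 13 (.s k9 k249 11 (.s k13 k5 1 (.d k241 k161 k165 11 13))))),
  (.s k3 k2 0 (.s k161 k241 11 (.s k82 k240 12 (.s k83 k80 0 (.d k243 k163 k162 11 12))))), (.s k3
  k2 0 (.s k89 k93 1 (.s k169 k253 13 (.s k86 k252 14 (.s k83 k92 2 (.d k243 k163 k162 11 12))))))]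
  .n)

def s27_170_86 : T TT 256 :=
  (.q k1 [(.s k161 k241 11 (.s k162 k243 12 (.s k160 k163 0 (.s k240 k80 11 (.d k3 k2 k82 0 12))))),
  (.s k89 k93 1 (.s k169 k253 13 (.s k9 k249 11 (.s k13 k5 1 (.d k241 k161 k165 11 13))))), (.s k89
  k93 1 (.s k169 k253 13 (.s k243 k162 12 (.s k166 k12 14 (.s k163 k172 2 (.d k3 k2 k83 0 11))))))]
  (.c k2 (.q k254 [(.s k89 k93 1 (.s k241 k161 11 (.s k165 k13 13 (.s k245 k5 11 (.d k253 k249 k169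
  1 13))))), (.s k89 k93 1 (.s k243 k162 12 (.s k166 k12 14 (.s k247 k4 12 (.s k253 k169 13 (.d k255
  k252 k251 0 1)))))), (.s k241 k161 11 (.s k243 k162 12 (.s k253 k169 13 (.s k249 k245 1 (.d k252
  k255 k246 0 2)))))] (.c k169 (.l (.s k89 k93 1 (.s k241 k161 11 (.s k165 k13 13 (.s k5 k245 11 (.s
  k15 k10 2 (.s k243 k162 12 (.d k240 k242 k90 0 14)))))))) (.c k253 (.l (.s k89 k93 1 (.s k241 k161
  11 (.s k13 k165 13 (.s k5 k9 1 (.s k15 k10 2 (.s k243 k162 12 (.d k12 k14 k166 0 14)))))))) .n)))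
  (.c k254 (.l (.s k2 k3 0 (.s k89 k93 1 (.s k169 k253 13 (.s k9 k249 11 (.s k13 k5 1 (.d k241 k161
  k165 11 13))))))) .n)))

def s27_170_87 : T TT 256 :=
  (.q k1 [(.s k89 k93 1 (.s k169 k253 13 (.s k9 k249 11 (.s k13 k5 1 (.d k241 k161 k165 11 13))))),
  (.s k3 k2 0 (.s k161 k241 11 (.s k82 k240 12 (.s k83 k80 0 (.d k243 k163 k162 11 12))))), (.s k3
  k2 0 (.s k89 k93 1 (.s k169 k253 13 (.s k86 k252 14 (.s k83 k92 2 (.d k243 k163 k162 11 12))))))]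
  .n)

def s27_170_88 : T TT 256 :=
  (.q k1 [(.s k89 k93 1 (.s k169 k253 13 (.s k9 k249 11 (.s k13 k5 1 (.d k241 k161 k165 11 13))))),
  (.s k3 k2 0 (.s k161 k241 11 (.s k82 k240 12 (.s k83 k80 0 (.d k243 k163 k162 11 12))))), (.s k3
  k2 0 (.s k89 k93 1 (.s k169 k253 13 (.s k86 k252 14 (.s k83 k92 2 (.d k243 k163 k162 11 12))))))]
  .n)

def s27_170_89 : T TT 256 :=
  (.q k3 [(.s k2 k1 0 (.s k162 k243 12 (.s k82 k242 11 (.s k240 k161 12 (.d k80 k83 k160 0 11))))),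
  (.s k1 k2 0 (.s k161 k241 11 (.s k169 k253 13 (.s k165 k173 1 (.s k240 k82 12 (.s k15 k90 14 (.d
  k5 k10 k245 2 11)))))))] (.c k1 (.q k113 [(.s k97 k65 3 (.s k243 k162 12 (.s k48 k178 8 (.s k146
  k195 12 (.d k16 k32 k211 3 8))))), (.s k65 k97 3 (.s k105 k125 5 (.s k195 k130 8 (.s k67 k131 7
  (.s k86 k124 6 (.s k84 k87 0 (.d k252 k168 k169 13 14))))))), (.s k243 k162 12 (.s k48 k178 8 (.s
  k18 k33 4 (.s k83 k163 11 (.s k82 k80 0 (.s k146 k210 7 (.d k16 k32 k211 3 8)))))))] (.c k8 (.q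
  k251 [(.s k97 k65 3 (.s k243 k162 12 (.s k48 k178 8 (.s k146 k195 12 (.d k16 k32 k211 3 8))))),
  (.s k243 k162 12 (.s k83 k163 11 (.s k80 k82 0 (.s k95 k90 2 (.s k255 k247 1 (.d k87 k91 k171 1
  13)))))), (.s k65 k97 3 (.s k105 k125 5 (.s k195 k130 8 (.s k67 k131 7 (.s k86 k124 6 (.s k84 k87
  0 (.d k252 k168 k169 13 14)))))))] .n) (.c k130 (.l (.s k97 k65 3 (.s k243 k162 12 (.s k48 k178 8
  (.s k146 k195 12 (.d k16 k32 k211 3 8)))))) (.c k251 (.q k8 [(.s k97 k65 3 (.s k243 k162 12 (.s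
  k48 k178 8 (.s k146 k195 12 (.d k16 k32 k211 3 8))))), (.s k12 k4 1 (.s k65 k97 3 (.s k195 k130 8
  (.s k73 k134 10 (.s k69 k77 1 (.d k138 k203 k207 8 10)))))), (.s k12 k4 1 (.s k243 k162 12 (.s k48
  k178 8 (.s k24 k36 5 (.s k40 k56 3 (.s k20 k60 5 (.d k16 k28 k32 1 3)))))))] (.c k130 (.l (.s k97
  k65 3 (.s k243 k162 12 (.s k48 k178 8 (.s k146 k195 12 (.d k16 k32 k211 3 8)))))) .n)) .n)))) (.c
  k2 (.q k86 [(.s k84 k87 0 (.d k252 k168 k169 13 14)), (.s k162 k243 12 (.s k169 k252 14 (.s k1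
  k253 13 (.s k161 k241 11 (.s k160 k163 0 (.d k240 k80 k82 11 12)))))), (.s k87 k84 0 (.s k243 k162
  12 (.s k83 k163 11 (.s k95 k91 1 (.d k80 k82 k90 0 2)))))] (.c k8 (.q k251 [(.s k84 k87 0 (.d k252
  k168 k169 13 14)), (.s k169 k252 14 (.s k243 k162 12 (.s k163 k83 11 (.s k166 k172 2 (.d k247 k255
  k4 1 12))))), (.s k87 k84 0 (.s k243 k162 12 (.d k255 k247 k171 1 13)))] .n) (.c k251 (.q k8 [(.s
  k84 k87 0 (.d k252 k168 k169 13 14)), (.s k4 k12 1 (.s k166 k247 12 (.s k169 k252 14 (.s k243 k162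
  12 (.d k163 k172 k83 2 11))))), (.s k87 k84 0 (.s k243 k162 12 (.s k83 k163 11 (.s k95 k91 1 (.d
  k80 k82 k90 0 2)))))] .n) .n))) (.c k8 (.q k251 [(.s k1 k2 0 (.s k169 k253 13 (.s k86 k252 14 (.s
  k87 k84 0 (.s k255 k171 13 (.d k243 k247 k162 1 12)))))), (.s k2 k1 0 (.s k162 k243 12 (.s k82
  k242 11 (.s k240 k161 12 (.d k80 k83 k160 0 11))))), (.s k243 k162 12 (.s k83 k163 11 (.s k255
  k247 1 (.s k87 k171 13 (.s k95 k91 1 (.d k80 k90 k82 2 0))))))] (.c k162 (.l (.s k1 k2 0 (.s k161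
  k241 11 (.s k82 k240 12 (.s k80 k83 0 (.s k90 k95 2 (.s k86 k94 1 (.d k169 k253 k252 13 14))))))))
  (.c k243 (.l (.s k1 k2 0 (.s k161 k241 11 (.s k169 k253 13 (.s k165 k173 1 (.s k240 k82 12 (.s k15
  k90 14 (.d k5 k10 k245 2 11)))))))) .n))) (.c k82 (.f k1 k2 0 (.l (.s k161 k241 11 (.s k169 k253
  13 (.s k86 k252 14 (.s k165 k173 1 (.s k7 k244 12 (.s k15 k11 1 (.d k5 k245 k10 11 2))))))))) (.c
  k161 (.f k2 k1 0 (.l (.s k162 k243 12 (.s k82 k242 11 (.s k80 k83 0 (.s k90 k95 2 (.s k86 k94 1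
  (.s k252 k169 14 (.d k84 k87 k168 0 13))))))))) (.c k162 (.l (.s k1 k2 0 (.s k161 k241 11 (.s k82
  k240 12 (.s k80 k83 0 (.s k90 k95 2 (.s k86 k94 1 (.d k169 k253 k252 13 14)))))))) (.c k240 (.f k1
  k2 0 (.l (.s k169 k253 13 (.s k86 k252 14 (.s k87 k84 0 (.s k243 k162 12 (.s k83 k163 11 (.s k95
  k91 1 (.d k80 k82 k90 0 2))))))))) (.c k241 (.l (.s k2 k1 0 (.s k162 k243 12 (.s k82 k242 11 (.s
  k240 k161 12 (.d k80 k83 k160 0 11)))))) (.c k242 (.l (.s k1 k2 0 (.s k161 k241 11 (.s k82 k240 12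
  (.s k243 k162 12 (.d k83 k80 k163 0 11)))))) (.c k251 (.q k8 [(.s k1 k2 0 (.s k161 k241 11 (.s k82
  k240 12 (.s k83 k80 0 (.d k243 k163 k162 11 12))))), (.s k1 k2 0 (.s k12 k4 1 (.s k9 k6 2 (.s k10
  k11 0 (.d k5 k13 k15 1 2))))), (.s k2 k1 0 (.s k162 k243 12 (.s k82 k242 11 (.s k240 k161 12 (.d
  k80 k83 k160 0 11)))))] (.c k1 (.f k4 k12 1 (.l (.s k166 k247 12 (.s k243 k162 12 (.s k83 k163 11
  (.s k80 k82 0 (.s k90 k95 2 (.s k242 k14 13 (.d k240 k160 k241 11 0))))))))) (.c k2 (.f k12 k4 1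
  (.l (.s k9 k6 2 (.s k10 k11 0 (.s k5 k15 2 (.s k1 k13 1 (.s k161 k241 11 (.s k165 k245 11 (.d k169
  k253 k173 13 1))))))))) .n))) .n)))))))))))

def s27_170_90 : T TT 256 :=
  (.f k89 k93 1 (.q k153 [(.s k17 k221 9 (.s k25 k217 7 (.s k29 k21 1 (.d k209 k145 k149 7 9)))),
  (.s k217 k25 7 (.s k243 k162 12 (.s k204 k230 6 (.s k68 k136 9 (.d k102 k119 k51 4 14))))), (.s
  k17 k221 9 (.s k51 k34 4 (.s k102 k204 14 (.s k115 k76 6 (.d k243 k179 k162 7 12)))))] (.c k10 (.q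
  k250 [(.s k17 k221 9 (.s k25 k217 7 (.s k29 k21 1 (.d k209 k145 k149 7 9)))), (.s k217 k25 7 (.s
  k243 k162 12 (.s k204 k230 6 (.s k68 k136 9 (.d k102 k119 k51 4 14))))), (.s k17 k221 9 (.s k51
  k34 4 (.s k102 k204 14 (.s k115 k76 6 (.d k243 k179 k162 7 12)))))] .n) (.c k250 (.q k10 [(.s k17
  k221 9 (.s k25 k217 7 (.s k29 k21 1 (.d k209 k145 k149 7 9)))), (.s k217 k25 7 (.s k243 k162 12
  (.s k204 k230 6 (.s k68 k136 9 (.d k102 k119 k51 4 14))))), (.s k17 k221 9 (.s k51 k34 4 (.s k102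
  k204 14 (.s k115 k76 6 (.d k243 k179 k162 7 12)))))] .n) .n))))

def s27_170_91 : T TT 256 :=
  (.f k89 k93 1 (.q k219 [(.s k243 k162 12 (.s k207 k231 5 (.s k69 k138 10 (.s k101 k117 3 (.d k154
  k24 k48 8 14))))), (.s k154 k24 8 (.s k16 k223 10 (.s k48 k32 3 (.s k101 k207 14 (.s k113 k77 5
  (.s k97 k65 3 (.d k146 k211 k195 8 12))))))), (.s k243 k162 12 (.s k166 k12 14 (.s k231 k207 5 (.s
  k247 k4 12 (.s k215 k199 3 (.s k150 k20 8 (.d k211 k223 k28 1 10))))))), (.s k154 k24 8 (.s k16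
  k223 10 (.s k48 k32 3 (.s k243 k162 12 (.s k166 k12 14 (.d k178 k142 k113 5 8))))))] .n))

def s27_170_92 : T TT 256 :=
  (.q k1 [(.s k3 k2 0 (.s k161 k241 11 (.s k162 k243 12 (.s k160 k163 0 (.d k240 k80 k82 11 12))))),
  (.s k89 k93 1 (.s k169 k253 13 (.s k9 k249 11 (.s k13 k5 1 (.d k241 k161 k165 11 13))))), (.s k3
  k2 0 (.s k89 k93 1 (.s k169 k253 13 (.s k243 k162 12 (.s k163 k83 11 (.d k166 k172 k12 2 14))))))]
  .n)

def s27_170_93 : T TT 256 :=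
  (.q k195 [(.s k130 k65 8 (.s k162 k243 12 (.s k146 k178 3 (.s k48 k97 12 (.d k16 k32 k211 3
  8))))), (.s k65 k130 8 (.s k105 k125 5 (.s k243 k162 12 (.s k227 k211 3 (.s k166 k44 10 (.s k4
  k247 12 (.d k12 k8 k89 1 14))))))), (.s k65 k130 8 (.s k97 k113 3 (.s k48 k146 12 (.s k16 k32 3
  (.s k105 k125 5 (.s k154 k223 10 (.d k101 k109 k207 1 14)))))))] (.c k65 (.q k3 [(.s k1 k2 0 (.s
  k161 k241 11 (.s k82 k240 12 (.s k83 k80 0 (.d k243 k163 k162 11 12))))), (.s k1 k2 0 (.s k131 k67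
  7 (.s k169 k253 13 (.s k150 k188 6 (.s k20 k215 8 (.d k60 k40 k105 5 14)))))), (.s k67 k131 7 (.s
  k243 k162 12 (.s k83 k163 11 (.s k99 k115 3 (.s k147 k51 11 (.d k211 k227 k19 3 7))))))] .n) (.c
  k130 (.q k150 [(.s k20 k215 8 (.d k60 k40 k105 5 14)), (.s k20 k215 8 (.s k243 k162 12 (.s k211
  k227 3 (.s k28 k89 10 (.d k16 k146 k24 8 1))))), (.s k60 k105 14 (.s k243 k162 12 (.s k182 k121 10
  (.s k166 k134 3 (.s k4 k247 12 (.d k12 k89 k8 14 1))))))] .n) (.c k146 (.q k1 [(.s k161 k241 11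
  (.s k162 k243 12 (.s k160 k163 0 (.s k240 k80 11 (.d k3 k2 k82 0 12))))), (.s k65 k130 8 (.s k97
  k113 3 (.s k161 k241 11 (.s k33 k225 7 (.s k49 k17 3 (.d k193 k129 k145 7 11)))))), (.s k3 k2 0
  (.s k65 k130 8 (.s k129 k193 7 (.s k66 k192 8 (.d k67 k64 k131 0 7)))))] (.c k162 (.l (.s k3 k2 0
  (.s k67 k131 7 (.s k161 k241 11 (.s k82 k240 12 (.s k97 k112 4 (.d k65 k113 k130 3 8))))))) .n))
  (.c k162 (.l (.s k65 k130 8 (.s k97 k113 3 (.s k105 k125 5 (.s k146 k48 12 (.s k16 k211 8 (.s k150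
  k60 14 (.d k154 k158 k223 1 10)))))))) (.c k178 (.l (.s k65 k130 8 (.s k97 k113 3 (.s k48 k146 12
  (.s k162 k243 12 (.d k32 k16 k227 3 8)))))) .n))))))

def s27_170_94 : T TT 256 :=
  (.q k1 [(.s k3 k2 0 (.s k161 k241 11 (.s k82 k240 12 (.s k83 k80 0 (.d k243 k163 k162 11 12))))),
  (.s k89 k93 1 (.s k169 k253 13 (.s k9 k249 11 (.s k13 k5 1 (.d k241 k161 k165 11 13))))), (.s k3
  k2 0 (.s k89 k93 1 (.s k169 k253 13 (.s k86 k252 14 (.s k243 k162 12 (.d k83 k92 k163 2 11))))))]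
  .n)

def s27_170_95 : T TT 256 :=
  (.q k1 [(.s k3 k2 0 (.s k161 k241 11 (.s k82 k240 12 (.s k83 k80 0 (.d k243 k163 k162 11 12))))),
  (.s k89 k93 1 (.s k169 k253 13 (.s k9 k249 11 (.s k13 k5 1 (.d k241 k161 k165 11 13))))), (.s k3
  k2 0 (.s k89 k93 1 (.s k169 k253 13 (.s k86 k252 14 (.s k243 k162 12 (.d k83 k92 k163 2 11))))))]
  .n)

def s27_170_96 : T TT 256 :=
  (.q k1 [(.s k89 k93 1 (.s k169 k253 13 (.s k9 k249 11 (.s k13 k5 1 (.d k241 k161 k165 11 13))))),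
  (.s k3 k2 0 (.s k161 k241 11 (.s k82 k240 12 (.s k83 k80 0 (.d k243 k163 k162 11 12))))), (.s k3
  k2 0 (.s k89 k93 1 (.s k169 k253 13 (.s k86 k252 14 (.s k83 k92 2 (.d k243 k163 k162 11 12))))))]
  .n)

def s27_170_97 : T TT 256 :=
  (.q k1 [(.s k89 k93 1 (.s k169 k253 13 (.s k9 k249 11 (.s k13 k5 1 (.d k241 k161 k165 11 13))))),
  (.s k3 k2 0 (.s k161 k241 11 (.s k82 k240 12 (.s k83 k80 0 (.d k243 k163 k162 11 12))))), (.s k3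
  k2 0 (.s k89 k93 1 (.s k169 k253 13 (.s k86 k252 14 (.s k83 k92 2 (.d k243 k163 k162 11 12))))))]
  .n)

def s27_170_98 : T TT 256 :=
  (.q k1 [(.s k89 k93 1 (.s k169 k253 13 (.s k9 k249 11 (.s k13 k5 1 (.d k241 k161 k165 11 13))))),
  (.s k3 k2 0 (.s k161 k241 11 (.s k82 k240 12 (.s k83 k80 0 (.d k243 k163 k162 11 12))))), (.s k3
  k2 0 (.s k89 k93 1 (.s k169 k253 13 (.s k86 k252 14 (.s k83 k92 2 (.d k243 k163 k162 11 12))))))]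
  .n)

def s27_170_99 : T TT 256 :=
  (.q k1 [(.s k89 k93 1 (.s k169 k253 13 (.s k9 k249 11 (.s k13 k5 1 (.d k241 k161 k165 11 13))))),
  (.s k3 k2 0 (.s k161 k241 11 (.s k82 k240 12 (.s k83 k80 0 (.d k243 k163 k162 11 12))))), (.s k3
  k2 0 (.s k89 k93 1 (.s k169 k253 13 (.s k86 k252 14 (.s k83 k92 2 (.d k243 k163 k162 11 12))))))]
  .n)

def s27_170_100 : T TT 256 :=
  (.q k1 [(.s k89 k93 1 (.s k169 k253 13 (.s k9 k249 11 (.s k13 k5 1 (.d k241 k161 k165 11 13))))),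
  (.s k3 k2 0 (.s k161 k241 11 (.s k82 k240 12 (.s k83 k80 0 (.d k243 k163 k162 11 12))))), (.s k3
  k2 0 (.s k89 k93 1 (.s k169 k253 13 (.s k86 k252 14 (.s k83 k92 2 (.d k243 k163 k162 11 12))))))]
  .n)

def s27_170_101 : T TT 256 :=
  (.f k89 k93 1 (.q k16 [(.s k211 k146 8 (.s k150 k28 10 (.s k215 k20 8 (.d k223 k219 k154 1 10)))),
  (.s k146 k211 8 (.s k162 k243 12 (.s k130 k178 3 (.s k195 k65 8 (.d k48 k32 k97 3 12))))), (.s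
  k154 k223 10 (.s k243 k162 12 (.s k166 k12 14 (.s k178 k142 5 (.d k48 k32 k113 3 8)))))] (.c k32
  (.q k239 [(.s k211 k146 8 (.s k150 k28 10 (.s k215 k20 8 (.d k223 k219 k154 1 10)))), (.s k223
  k154 10 (.s k243 k162 12 (.s k166 k12 14 (.s k247 k4 12 (.d k255 k207 k251 3 1)))))] (.c k154 (.l
  (.s k211 k146 8 (.s k150 k28 10 (.s k20 k215 8 (.s k60 k40 5 (.s k243 k162 12 (.d k195 k227 k105 3
  14))))))) (.c k223 (.l (.s k211 k146 8 (.s k28 k150 10 (.s k20 k24 1 (.s k60 k40 5 (.s k243 k162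
  12 (.d k12 k44 k166 3 14))))))) .n))) (.c k239 (.l (.s k32 k48 3 (.s k154 k223 10 (.s k24 k219 8
  (.s k28 k20 1 (.d k211 k146 k150 8 10)))))) .n))))

def s27_170_102 : T TT 256 :=
  (.f k89 k93 1 (.q k17 [(.s k209 k145 7 (.s k149 k29 9 (.s k213 k21 7 (.d k221 k217 k153 1 9)))),
  (.s k145 k209 7 (.s k162 k243 12 (.s k128 k179 4 (.s k192 k64 7 (.d k51 k34 k98 4 12))))), (.s
  k153 k221 9 (.s k243 k162 12 (.s k166 k12 14 (.s k179 k140 6 (.d k51 k34 k115 4 7)))))] (.c k34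
  (.q k238 [(.s k209 k145 7 (.s k149 k29 9 (.s k213 k21 7 (.d k221 k217 k153 1 9)))), (.s k221 k153
  9 (.s k243 k162 12 (.s k166 k12 14 (.s k247 k4 12 (.d k255 k204 k251 4 1)))))] (.c k153 (.l (.s
  k209 k145 7 (.s k149 k29 9 (.s k21 k213 7 (.s k63 k42 6 (.s k243 k162 12 (.d k192 k226 k106 4
  14))))))) (.c k221 (.l (.s k209 k145 7 (.s k29 k149 9 (.s k21 k25 1 (.s k63 k42 6 (.s k243 k162 12
  (.d k12 k46 k166 4 14))))))) .n))) (.c k238 (.l (.s k34 k51 4 (.s k153 k221 9 (.s k25 k217 7 (.s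
  k29 k21 1 (.d k209 k145 k149 7 9)))))) .n))))

def s27_170_103 : T TT 256 :=
  (.q k1 [(.s k89 k93 1 (.s k169 k253 13 (.s k9 k249 11 (.s k13 k5 1 (.d k241 k161 k165 11 13))))),
  (.s k3 k2 0 (.s k161 k241 11 (.s k82 k240 12 (.s k83 k80 0 (.d k243 k163 k162 11 12))))), (.s k3
  k2 0 (.s k89 k93 1 (.s k169 k253 13 (.s k86 k252 14 (.s k83 k92 2 (.d k243 k163 k162 11 12))))))]
  .n)

def s27_170_104 : T TT 256 :=
  (.q k1 [(.s k89 k93 1 (.s k169 k253 13 (.s k9 k249 11 (.s k13 k5 1 (.d k241 k161 k165 11 13))))),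
  (.s k3 k2 0 (.s k161 k241 11 (.s k82 k240 12 (.s k83 k80 0 (.d k243 k163 k162 11 12))))), (.s k3
  k2 0 (.s k89 k93 1 (.s k169 k253 13 (.s k86 k252 14 (.s k83 k92 2 (.d k243 k163 k162 11 12))))))]
  .n)

def s27_170_105 : T TT 256 :=
  (.f k162 k243 12 (.f k89 k93 1 (.q k1 [(.s k161 k241 11 (.s k160 k163 0 (.s k240 k80 11 (.d k3 k2
  k82 0 12)))), (.s k169 k253 13 (.s k9 k249 11 (.s k13 k5 1 (.d k241 k161 k165 11 13)))), (.s k3 k2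
  0 (.s k169 k253 13 (.s k86 k252 14 (.s k83 k92 2 (.s k80 k82 0 (.s k87 k84 0 (.d k95 k91 k90 1
  2)))))))] (.c k40 (.q k235 [(.s k161 k241 11 (.s k160 k163 0 (.s k240 k80 11 (.d k3 k2 k82 0
  12)))), (.s k169 k253 13 (.s k9 k249 11 (.s k13 k5 1 (.d k241 k161 k165 11 13)))), (.s k3 k2 0 (.s
  k169 k253 13 (.s k86 k252 14 (.s k83 k92 2 (.s k80 k82 0 (.s k87 k84 0 (.d k95 k91 k90 1 2)))))))]
  .n) (.c k235 (.q k40 [(.s k161 k241 11 (.s k160 k163 0 (.s k240 k80 11 (.d k3 k2 k82 0 12)))), (.s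
  k169 k253 13 (.s k9 k249 11 (.s k13 k5 1 (.d k241 k161 k165 11 13)))), (.s k3 k2 0 (.s k60 k20 5
  (.s k41 k22 6 (.s k21 k61 5 (.d k42 k43 k63 0 6)))))] .n) .n)))))

def s27_170_106 : T TT 256 :=
  (.f k162 k243 12 (.f k89 k93 1 (.q k1 [(.s k161 k241 11 (.s k160 k163 0 (.s k240 k80 11 (.d k3 k2
  k82 0 12)))), (.s k169 k253 13 (.s k9 k249 11 (.s k13 k5 1 (.d k241 k161 k165 11 13)))), (.s k3 k2
  0 (.s k169 k253 13 (.s k86 k252 14 (.s k83 k92 2 (.s k80 k82 0 (.s k87 k84 0 (.d k95 k91 k90 1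
  2)))))))] (.c k42 (.q k234 [(.s k161 k241 11 (.s k160 k163 0 (.s k240 k80 11 (.d k3 k2 k82 0
  12)))), (.s k169 k253 13 (.s k9 k249 11 (.s k13 k5 1 (.d k241 k161 k165 11 13)))), (.s k3 k2 0 (.s
  k169 k253 13 (.s k86 k252 14 (.s k83 k92 2 (.s k80 k82 0 (.s k87 k84 0 (.d k95 k91 k90 1 2)))))))]
  .n) (.c k234 (.q k42 [(.s k161 k241 11 (.s k160 k163 0 (.s k240 k80 11 (.d k3 k2 k82 0 12)))), (.s
  k169 k253 13 (.s k9 k249 11 (.s k13 k5 1 (.d k241 k161 k165 11 13)))), (.s k3 k2 0 (.s k21 k63 6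
  (.s k41 k61 5 (.s k40 k43 0 (.d k60 k20 k22 5 6)))))] .n) .n)))))

def s27_170_107 : T TT 256 :=
  (.q k1 [(.s k89 k93 1 (.s k169 k253 13 (.s k9 k249 11 (.s k13 k5 1 (.d k241 k161 k165 11 13))))),
  (.s k3 k2 0 (.s k161 k241 11 (.s k82 k240 12 (.s k83 k80 0 (.d k243 k163 k162 11 12))))), (.s k3
  k2 0 (.s k89 k93 1 (.s k169 k253 13 (.s k86 k252 14 (.s k83 k92 2 (.d k243 k163 k162 11 12))))))]
  .n)

def s27_170_108 : T TT 256 :=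
  (.q k1 [(.s k89 k93 1 (.s k169 k253 13 (.s k9 k249 11 (.s k13 k5 1 (.d k241 k161 k165 11 13))))),
  (.s k3 k2 0 (.s k161 k241 11 (.s k82 k240 12 (.s k83 k80 0 (.d k243 k163 k162 11 12))))), (.s k3
  k2 0 (.s k89 k93 1 (.s k169 k253 13 (.s k86 k252 14 (.s k83 k92 2 (.d k243 k163 k162 11 12))))))]
  .n)

def s27_170_109 : T TT 256 :=
  (.q k1 [(.s k3 k2 0 (.s k161 k241 11 (.s k82 k240 12 (.s k83 k80 0 (.d k243 k163 k162 11 12))))),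
  (.s k89 k93 1 (.s k169 k253 13 (.s k9 k249 11 (.s k13 k5 1 (.d k241 k161 k165 11 13))))), (.s k3
  k2 0 (.s k89 k93 1 (.s k169 k253 13 (.s k86 k252 14 (.s k83 k92 2 (.d k243 k163 k162 11 12))))))]
  .n)

def s27_170_110 : T TT 256 :=
  (.q k1 [(.s k3 k2 0 (.s k161 k241 11 (.s k82 k240 12 (.s k83 k80 0 (.d k243 k163 k162 11 12))))),
  (.s k89 k93 1 (.s k169 k253 13 (.s k9 k249 11 (.s k13 k5 1 (.d k241 k161 k165 11 13))))), (.s k3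
  k2 0 (.s k89 k93 1 (.s k169 k253 13 (.s k86 k252 14 (.s k83 k92 2 (.d k243 k163 k162 11 12))))))]
  .n)

def s27_170_111 : T TT 256 :=
  (.q k1 [(.s k89 k93 1 (.s k169 k253 13 (.s k9 k249 11 (.s k13 k5 1 (.d k241 k161 k165 11 13))))),
  (.s k3 k2 0 (.s k161 k241 11 (.s k82 k240 12 (.s k83 k80 0 (.d k243 k163 k162 11 12))))), (.s k3
  k2 0 (.s k89 k93 1 (.s k169 k253 13 (.s k86 k252 14 (.s k83 k92 2 (.d k243 k163 k162 11 12))))))]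
  .n)

def s27_170_112 : T TT 256 :=
  (.q k1 [(.s k89 k93 1 (.s k169 k253 13 (.s k9 k249 11 (.s k13 k5 1 (.d k241 k161 k165 11 13))))),
  (.s k3 k2 0 (.s k161 k241 11 (.s k82 k240 12 (.s k83 k80 0 (.d k243 k163 k162 11 12))))), (.s k3
  k2 0 (.s k89 k93 1 (.s k169 k253 13 (.s k86 k252 14 (.s k83 k92 2 (.d k243 k163 k162 11 12))))))]
  .n)

def s27_170_113 : T TT 256 :=
  (.q k1 [(.s k89 k93 1 (.s k169 k253 13 (.s k9 k249 11 (.s k13 k5 1 (.d k241 k161 k165 11 13))))),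
  (.s k3 k2 0 (.s k161 k241 11 (.s k82 k240 12 (.s k83 k80 0 (.d k243 k163 k162 11 12))))), (.s k3
  k2 0 (.s k89 k93 1 (.s k169 k253 13 (.s k86 k252 14 (.s k83 k92 2 (.d k243 k163 k162 11 12))))))]
  .n)

def s27_170_114 : T TT 256 :=
  (.q k1 [(.s k89 k93 1 (.s k169 k253 13 (.s k9 k249 11 (.s k13 k5 1 (.d k241 k161 k165 11 13))))),
  (.s k3 k2 0 (.s k161 k241 11 (.s k82 k240 12 (.s k83 k80 0 (.d k243 k163 k162 11 12))))), (.s k3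
  k2 0 (.s k89 k93 1 (.s k169 k253 13 (.s k86 k252 14 (.s k83 k92 2 (.d k243 k163 k162 11 12))))))]
  .n)

def s27_170_115 : T TT 256 :=
  (.q k1 [(.s k89 k93 1 (.s k169 k253 13 (.s k9 k249 11 (.s k13 k5 1 (.d k241 k161 k165 11 13))))),
  (.s k3 k2 0 (.s k161 k241 11 (.s k82 k240 12 (.s k83 k80 0 (.d k243 k163 k162 11 12))))), (.s k3
  k2 0 (.s k89 k93 1 (.s k169 k253 13 (.s k86 k252 14 (.s k83 k92 2 (.d k243 k163 k162 11 12))))))]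
  .n)

def s27_170_116 : T TT 256 :=
  (.q k1 [(.s k89 k93 1 (.s k169 k253 13 (.s k9 k249 11 (.s k13 k5 1 (.d k241 k161 k165 11 13))))),
  (.s k3 k2 0 (.s k161 k241 11 (.s k82 k240 12 (.s k83 k80 0 (.d k243 k163 k162 11 12))))), (.s k3
  k2 0 (.s k89 k93 1 (.s k169 k253 13 (.s k86 k252 14 (.s k83 k92 2 (.d k243 k163 k162 11 12))))))]
  .n)

def s27_170_117 : T TT 256 :=
  (.q k1 [(.s k3 k2 0 (.s k161 k241 11 (.s k82 k240 12 (.s k83 k80 0 (.d k243 k163 k162 11 12))))),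
  (.s k89 k93 1 (.s k169 k253 13 (.s k9 k249 11 (.s k13 k5 1 (.d k241 k161 k165 11 13))))), (.s k3
  k2 0 (.s k89 k93 1 (.s k169 k253 13 (.s k86 k252 14 (.s k83 k92 2 (.d k243 k163 k162 11 12))))))]
  .n)

def s27_170_118 : T TT 256 :=
  (.q k1 [(.s k89 k93 1 (.s k169 k253 13 (.s k9 k249 11 (.s k13 k5 1 (.d k241 k161 k165 11 13))))),
  (.s k3 k2 0 (.s k161 k241 11 (.s k82 k240 12 (.s k83 k80 0 (.d k243 k163 k162 11 12))))), (.s k3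
  k2 0 (.s k89 k93 1 (.s k169 k253 13 (.s k86 k252 14 (.s k83 k92 2 (.d k243 k163 k162 11 12))))))]
  .n)

def s27_170_119 : T TT 256 :=
  (.q k1 [(.s k89 k93 1 (.s k169 k253 13 (.s k9 k249 11 (.s k13 k5 1 (.d k241 k161 k165 11 13))))),
  (.s k3 k2 0 (.s k161 k241 11 (.s k82 k240 12 (.s k83 k80 0 (.d k243 k163 k162 11 12))))), (.s k3
  k2 0 (.s k89 k93 1 (.s k169 k253 13 (.s k86 k252 14 (.s k83 k92 2 (.d k243 k163 k162 11 12))))))]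
  .n)

def s27_170_120 : T TT 256 :=
  (.q k1 [(.s k89 k93 1 (.s k169 k253 13 (.s k9 k249 11 (.s k13 k5 1 (.d k241 k161 k165 11 13))))),
  (.s k3 k2 0 (.s k161 k241 11 (.s k82 k240 12 (.s k83 k80 0 (.d k243 k163 k162 11 12))))), (.s k3
  k2 0 (.s k89 k93 1 (.s k169 k253 13 (.s k86 k252 14 (.s k83 k92 2 (.d k243 k163 k162 11 12))))))]
  .n)

def s27_170_121 : T TT 256 :=
  (.q k1 [(.s k89 k93 1 (.s k169 k253 13 (.s k9 k249 11 (.s k13 k5 1 (.d k241 k161 k165 11 13))))),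
  (.s k3 k2 0 (.s k161 k241 11 (.s k82 k240 12 (.s k83 k80 0 (.d k243 k163 k162 11 12))))), (.s k3
  k2 0 (.s k89 k93 1 (.s k169 k253 13 (.s k86 k252 14 (.s k83 k92 2 (.d k243 k163 k162 11 12))))))]
  .n)

def s27_170_122 : T TT 256 :=
  (.q k1 [(.s k89 k93 1 (.s k169 k253 13 (.s k9 k249 11 (.s k13 k5 1 (.d k241 k161 k165 11 13))))),
  (.s k3 k2 0 (.s k161 k241 11 (.s k82 k240 12 (.s k83 k80 0 (.d k243 k163 k162 11 12))))), (.s k3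
  k2 0 (.s k89 k93 1 (.s k169 k253 13 (.s k86 k252 14 (.s k83 k92 2 (.d k243 k163 k162 11 12))))))]
  .n)

def s27_170_123 : T TT 256 :=
  (.q k1 [(.s k89 k93 1 (.s k169 k253 13 (.s k9 k249 11 (.s k13 k5 1 (.d k241 k161 k165 11 13))))),
  (.s k3 k2 0 (.s k161 k241 11 (.s k82 k240 12 (.s k83 k80 0 (.d k243 k163 k162 11 12))))), (.s k3
  k2 0 (.s k89 k93 1 (.s k169 k253 13 (.s k86 k252 14 (.s k83 k92 2 (.d k243 k163 k162 11 12))))))]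
  .n)

def s27_170_124 : T TT 256 :=
  (.q k1 [(.s k89 k93 1 (.s k169 k253 13 (.s k9 k249 11 (.s k13 k5 1 (.d k241 k161 k165 11 13))))),
  (.s k3 k2 0 (.s k161 k241 11 (.s k82 k240 12 (.s k83 k80 0 (.d k243 k163 k162 11 12))))), (.s k3
  k2 0 (.s k89 k93 1 (.s k169 k253 13 (.s k86 k252 14 (.s k83 k92 2 (.d k243 k163 k162 11 12))))))]
  .n)

def s27_170_125 : T TT 256 :=
  (.q k1 [(.s k3 k2 0 (.s k161 k241 11 (.s k82 k240 12 (.s k83 k80 0 (.d k243 k163 k162 11 12))))),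
  (.s k89 k93 1 (.s k169 k253 13 (.s k9 k249 11 (.s k13 k5 1 (.d k241 k161 k165 11 13))))), (.s k3
  k2 0 (.s k89 k93 1 (.s k169 k253 13 (.s k86 k252 14 (.s k83 k92 2 (.d k243 k163 k162 11 12))))))]
  .n)

def s27_170_126 : T TT 256 :=
  (.q k1 [(.s k89 k93 1 (.s k169 k253 13 (.s k9 k249 11 (.s k13 k5 1 (.d k241 k161 k165 11 13))))),
  (.s k3 k2 0 (.s k161 k241 11 (.s k82 k240 12 (.s k83 k80 0 (.d k243 k163 k162 11 12))))), (.s k3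
  k2 0 (.s k89 k93 1 (.s k169 k253 13 (.s k86 k252 14 (.s k83 k92 2 (.d k243 k163 k162 11 12))))))]
  .n)

def s27_170_127 : T TT 256 :=
  (.q k1 [(.s k3 k2 0 (.s k161 k241 11 (.s k82 k240 12 (.s k83 k80 0 (.d k243 k163 k162 11 12))))),
  (.s k89 k93 1 (.s k169 k253 13 (.s k9 k249 11 (.s k13 k5 1 (.d k241 k161 k165 11 13))))), (.s k3
  k2 0 (.s k89 k93 1 (.s k169 k253 13 (.s k86 k252 14 (.s k83 k92 2 (.d k243 k163 k162 11 12))))))]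
  .n)

def s27_170_128 : T TT 256 :=
  (.f k89 k93 1 (.q k149 [(.s k213 k21 7 (.s k209 k29 9 (.s k221 k217 1 (.d k17 k145 k153 7 9)))),
  (.s k21 k213 7 (.s k63 k42 6 (.s k106 k192 14 (.s k123 k72 4 (.d k243 k183 k162 9 12))))), (.s
  k209 k29 9 (.s k243 k162 12 (.s k166 k12 14 (.s k183 k132 4 (.s k63 k123 9 (.d k192 k226 k106 4
  14))))))] .n))

def s27_170_129 : T TT 256 :=
  (.q k1 [(.s k89 k93 1 (.s k169 k253 13 (.s k9 k249 11 (.s k13 k5 1 (.d k241 k161 k165 11 13))))),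
  (.s k3 k2 0 (.s k161 k241 11 (.s k82 k240 12 (.s k83 k80 0 (.d k243 k163 k162 11 12))))), (.s k3
  k2 0 (.s k89 k93 1 (.s k169 k253 13 (.s k86 k252 14 (.s k83 k92 2 (.d k243 k163 k162 11 12))))))]
  .n)

def s27_170_130 : T TT 256 :=
  (.f k89 k93 1 (.q k150 [(.s k211 k28 10 (.s k16 k146 8 (.s k215 k20 8 (.d k223 k219 k154 1 10)))),
  (.s k20 k215 8 (.s k60 k40 5 (.s k105 k195 14 (.s k121 k73 3 (.d k243 k182 k162 10 12))))), (.s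
  k211 k28 10 (.s k243 k162 12 (.s k166 k12 14 (.s k182 k134 3 (.s k60 k121 10 (.d k195 k227 k105 3
  14))))))] (.c k162 (.l (.s k211 k28 10 (.s k215 k20 8 (.s k223 k219 1 (.d k16 k146 k154 8 10)))))
  .n)))

def s27_170_131 : T TT 256 :=
  (.q k1 [(.s k89 k93 1 (.s k169 k253 13 (.s k9 k249 11 (.s k13 k5 1 (.d k241 k161 k165 11 13))))),
  (.s k3 k2 0 (.s k161 k241 11 (.s k82 k240 12 (.s k83 k80 0 (.d k243 k163 k162 11 12))))), (.s k3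
  k2 0 (.s k89 k93 1 (.s k169 k253 13 (.s k86 k252 14 (.s k83 k92 2 (.d k243 k163 k162 11 12))))))]
  .n)

def s27_170_132 : T TT 256 :=
  (.q k1 [(.s k89 k93 1 (.s k169 k253 13 (.s k9 k249 11 (.s k13 k5 1 (.d k241 k161 k165 11 13))))),
  (.s k3 k2 0 (.s k161 k241 11 (.s k82 k240 12 (.s k83 k80 0 (.d k243 k163 k162 11 12))))), (.s k3
  k2 0 (.s k89 k93 1 (.s k169 k253 13 (.s k86 k252 14 (.s k83 k92 2 (.d k243 k163 k162 11 12))))))]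
  .n)

def s27_170_133 : T TT 256 :=
  (.q k1 [(.s k3 k2 0 (.s k161 k241 11 (.s k82 k240 12 (.s k83 k80 0 (.d k243 k163 k162 11 12))))),
  (.s k89 k93 1 (.s k169 k253 13 (.s k9 k249 11 (.s k13 k5 1 (.d k241 k161 k165 11 13))))), (.s k3
  k2 0 (.s k89 k93 1 (.s k169 k253 13 (.s k86 k252 14 (.s k83 k92 2 (.d k243 k163 k162 11 12))))))]
  .n)

def s27_170_134 : T TT 256 :=
  (.q k1 [(.s k89 k93 1 (.s k169 k253 13 (.s k9 k249 11 (.s k13 k5 1 (.d k241 k161 k165 11 13))))),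
  (.s k3 k2 0 (.s k161 k241 11 (.s k82 k240 12 (.s k83 k80 0 (.d k243 k163 k162 11 12))))), (.s k3
  k2 0 (.s k89 k93 1 (.s k169 k253 13 (.s k86 k252 14 (.s k83 k92 2 (.d k243 k163 k162 11 12))))))]
  .n)

def s27_170_135 : T TT 256 :=
  (.q k1 [(.s k89 k93 1 (.s k169 k253 13 (.s k9 k249 11 (.s k13 k5 1 (.d k241 k161 k165 11 13))))),
  (.s k3 k2 0 (.s k161 k241 11 (.s k82 k240 12 (.s k83 k80 0 (.d k243 k163 k162 11 12))))), (.s k3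
  k2 0 (.s k89 k93 1 (.s k169 k253 13 (.s k86 k252 14 (.s k83 k92 2 (.d k243 k163 k162 11 12))))))]
  .n)

def s27_170_136 : T TT 256 :=
  (.q k153 [(.s k17 k221 9 (.s k89 k93 1 (.s k25 k217 7 (.s k29 k21 1 (.d k209 k145 k149 7 9))))),
  (.s k89 k93 1 (.s k217 k25 7 (.s k243 k162 12 (.s k166 k12 14 (.s k179 k140 6 (.s k51 k115 7 (.d
  k204 k230 k102 6 14))))))), (.s k17 k221 9 (.s k51 k34 4 (.s k145 k209 7 (.s k98 k192 12 (.s k115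
  k64 4 (.d k243 k179 k162 7 12))))))] (.c k217 (.l (.s k17 k221 9 (.s k51 k34 4 (.s k89 k93 1 (.s
  k102 k204 14 (.s k115 k76 6 (.d k243 k179 k162 7 12))))))) .n))

def s27_170_137 : T TT 256 :=
  (.q k1 [(.s k89 k93 1 (.s k169 k253 13 (.s k9 k249 11 (.s k13 k5 1 (.d k241 k161 k165 11 13))))),
  (.s k3 k2 0 (.s k161 k241 11 (.s k82 k240 12 (.s k83 k80 0 (.d k243 k163 k162 11 12))))), (.s k3
  k2 0 (.s k89 k93 1 (.s k169 k253 13 (.s k86 k252 14 (.s k83 k92 2 (.d k243 k163 k162 11 12))))))]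
  .n)

def s27_170_138 : T TT 256 :=
  (.q k154 [(.s k16 k223 10 (.s k89 k93 1 (.s k211 k146 8 (.s k28 k150 10 (.d k24 k20 k219 1 8))))),
  (.s k89 k93 1 (.s k219 k24 8 (.s k243 k162 12 (.s k166 k12 14 (.s k178 k142 5 (.s k48 k113 8 (.d
  k207 k231 k101 5 14))))))), (.s k16 k223 10 (.s k48 k32 3 (.s k146 k211 8 (.s k97 k195 12 (.s k113
  k65 3 (.d k243 k178 k162 8 12))))))] (.c k219 (.l (.s k16 k223 10 (.s k48 k32 3 (.s k89 k93 1 (.s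
  k101 k207 14 (.s k113 k77 5 (.d k243 k178 k162 8 12))))))) .n))

def s27_170_139 : T TT 256 :=
  (.q k1 [(.s k89 k93 1 (.s k169 k253 13 (.s k9 k249 11 (.s k13 k5 1 (.d k241 k161 k165 11 13))))),
  (.s k3 k2 0 (.s k161 k241 11 (.s k82 k240 12 (.s k83 k80 0 (.d k243 k163 k162 11 12))))), (.s k3
  k2 0 (.s k89 k93 1 (.s k169 k253 13 (.s k86 k252 14 (.s k83 k92 2 (.d k243 k163 k162 11 12))))))]
  .n)

def s27_170_140 : T TT 256 :=
  (.q k1 [(.s k89 k93 1 (.s k169 k253 13 (.s k9 k249 11 (.s k13 k5 1 (.d k241 k161 k165 11 13))))),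
  (.s k3 k2 0 (.s k161 k241 11 (.s k82 k240 12 (.s k83 k80 0 (.d k243 k163 k162 11 12))))), (.s k3
  k2 0 (.s k89 k93 1 (.s k169 k253 13 (.s k86 k252 14 (.s k83 k92 2 (.d k243 k163 k162 11 12))))))]
  .n)

def s27_170_141 : T TT 256 :=
  (.q k1 [(.s k89 k93 1 (.s k169 k253 13 (.s k9 k249 11 (.s k13 k5 1 (.d k241 k161 k165 11 13))))),
  (.s k3 k2 0 (.s k161 k241 11 (.s k82 k240 12 (.s k83 k80 0 (.d k243 k163 k162 11 12))))), (.s k3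
  k2 0 (.s k89 k93 1 (.s k169 k253 13 (.s k86 k252 14 (.s k83 k92 2 (.d k243 k163 k162 11 12))))))]
  .n)

def s27_170_142 : T TT 256 :=
  (.q k1 [(.s k89 k93 1 (.s k169 k253 13 (.s k9 k249 11 (.s k13 k5 1 (.d k241 k161 k165 11 13))))),
  (.s k3 k2 0 (.s k161 k241 11 (.s k82 k240 12 (.s k83 k80 0 (.d k243 k163 k162 11 12))))), (.s k3
  k2 0 (.s k89 k93 1 (.s k169 k253 13 (.s k86 k252 14 (.s k83 k92 2 (.d k243 k163 k162 11 12))))))]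
  .n)

def s27_170_143 : T TT 256 :=
  (.q k1 [(.s k89 k93 1 (.s k169 k253 13 (.s k9 k249 11 (.s k13 k5 1 (.d k241 k161 k165 11 13))))),
  (.s k3 k2 0 (.s k161 k241 11 (.s k82 k240 12 (.s k83 k80 0 (.d k243 k163 k162 11 12))))), (.s k3
  k2 0 (.s k89 k93 1 (.s k169 k253 13 (.s k86 k252 14 (.s k83 k92 2 (.d k243 k163 k162 11 12))))))]
  .n)

def s27_170_144 : T TT 256 :=
  (.q k1 [(.s k89 k93 1 (.s k169 k253 13 (.s k9 k249 11 (.s k13 k5 1 (.d k241 k161 k165 11 13))))),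
  (.s k3 k2 0 (.s k161 k241 11 (.s k82 k240 12 (.s k83 k80 0 (.d k243 k163 k162 11 12))))), (.s k3
  k2 0 (.s k89 k93 1 (.s k169 k253 13 (.s k86 k252 14 (.s k83 k92 2 (.d k243 k163 k162 11 12))))))]
  .n)

def s27_170_145 : T TT 256 :=
  (.q k1 [(.s k89 k93 1 (.s k169 k253 13 (.s k9 k249 11 (.s k13 k5 1 (.d k241 k161 k165 11 13))))),
  (.s k3 k2 0 (.s k161 k241 11 (.s k82 k240 12 (.s k83 k80 0 (.d k243 k163 k162 11 12))))), (.s k3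
  k2 0 (.s k89 k93 1 (.s k169 k253 13 (.s k86 k252 14 (.s k83 k92 2 (.d k243 k163 k162 11 12))))))]
  .n)

def s27_170_146 : T TT 256 :=
  (.q k1 [(.s k89 k93 1 (.s k169 k253 13 (.s k9 k249 11 (.s k13 k5 1 (.d k241 k161 k165 11 13))))),
  (.s k3 k2 0 (.s k161 k241 11 (.s k82 k240 12 (.s k83 k80 0 (.d k243 k163 k162 11 12))))), (.s k3
  k2 0 (.s k89 k93 1 (.s k169 k253 13 (.s k86 k252 14 (.s k83 k92 2 (.d k243 k163 k162 11 12))))))]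
  .n)

def s27_170_147 : T TT 256 :=
  (.q k1 [(.s k89 k93 1 (.s k169 k253 13 (.s k9 k249 11 (.s k13 k5 1 (.d k241 k161 k165 11 13))))),
  (.s k3 k2 0 (.s k161 k241 11 (.s k82 k240 12 (.s k83 k80 0 (.d k243 k163 k162 11 12))))), (.s k3
  k2 0 (.s k89 k93 1 (.s k169 k253 13 (.s k86 k252 14 (.s k83 k92 2 (.d k243 k163 k162 11 12))))))]
  .n)

def s27_170_148 : T TT 256 :=
  (.q k1 [(.s k89 k93 1 (.s k169 k253 13 (.s k9 k249 11 (.s k13 k5 1 (.d k241 k161 k165 11 13))))),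
  (.s k3 k2 0 (.s k161 k241 11 (.s k82 k240 12 (.s k83 k80 0 (.d k243 k163 k162 11 12))))), (.s k3
  k2 0 (.s k89 k93 1 (.s k169 k253 13 (.s k86 k252 14 (.s k83 k92 2 (.d k243 k163 k162 11 12))))))]
  .n)

def s27_170_149 : T TT 256 :=
  (.f k89 k93 1 (.q k64 [(.s k115 k98 4 (.s k102 k76 6 (.s k119 k68 4 (.d k127 k123 k106 1 6)))),
  (.s k98 k115 4 (.s k162 k243 12 (.s k34 k226 7 (.s k51 k17 4 (.d k192 k128 k145 7 12))))), (.s
  k106 k127 6 (.s k243 k162 12 (.s k166 k12 14 (.s k226 k46 9 (.d k192 k128 k209 7 4)))))] (.c k128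
  (.q k191 [(.s k115 k98 4 (.s k102 k76 6 (.s k119 k68 4 (.d k127 k123 k106 1 6)))), (.s k127 k106 6
  (.s k243 k162 12 (.s k166 k12 14 (.s k247 k4 12 (.d k255 k63 k251 7 1)))))] (.c k106 (.l (.s k115
  k98 4 (.s k102 k76 6 (.s k68 k119 4 (.s k204 k136 9 (.s k243 k162 12 (.d k51 k179 k153 7 14)))))))
  (.c k127 (.l (.s k115 k98 4 (.s k76 k102 6 (.s k68 k72 1 (.s k204 k136 9 (.s k243 k162 12 (.d k12
  k140 k166 7 14))))))) .n))) (.c k191 (.l (.s k128 k192 7 (.s k106 k127 6 (.s k72 k123 4 (.s k76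
  k68 1 (.d k115 k98 k102 4 6)))))) .n))))

def s27_170_150 : T TT 256 :=
  (.f k89 k93 1 (.q k65 [(.s k113 k97 3 (.s k101 k77 5 (.s k117 k69 3 (.d k125 k121 k105 1 5)))),
  (.s k97 k113 3 (.s k162 k243 12 (.s k32 k227 8 (.s k48 k16 3 (.d k195 k130 k146 8 12))))), (.s
  k105 k125 5 (.s k243 k162 12 (.s k166 k12 14 (.s k227 k44 10 (.d k195 k130 k211 8 3)))))] (.c k130
  (.q k190 [(.s k113 k97 3 (.s k101 k77 5 (.s k117 k69 3 (.d k125 k121 k105 1 5)))), (.s k125 k105 5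
  (.s k243 k162 12 (.s k166 k12 14 (.s k247 k4 12 (.d k255 k60 k251 8 1)))))] (.c k105 (.l (.s k113
  k97 3 (.s k101 k77 5 (.s k69 k117 3 (.s k207 k138 10 (.s k243 k162 12 (.d k48 k178 k154 8
  14))))))) (.c k125 (.l (.s k113 k97 3 (.s k77 k101 5 (.s k69 k73 1 (.s k207 k138 10 (.s k243 k162
  12 (.d k12 k142 k166 8 14))))))) .n))) (.c k190 (.l (.s k130 k195 8 (.s k105 k125 5 (.s k73 k121 3
  (.s k77 k69 1 (.d k113 k97 k101 3 5)))))) .n))))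

def s27_170_151 : T TT 256 :=
  (.q k1 [(.s k89 k93 1 (.s k169 k253 13 (.s k9 k249 11 (.s k13 k5 1 (.d k241 k161 k165 11 13))))),
  (.s k3 k2 0 (.s k161 k241 11 (.s k82 k240 12 (.s k83 k80 0 (.d k243 k163 k162 11 12))))), (.s k3
  k2 0 (.s k89 k93 1 (.s k169 k253 13 (.s k86 k252 14 (.s k83 k92 2 (.d k243 k163 k162 11 12))))))]
  .n)

def s27_170_152 : T TT 256 :=
  (.q k1 [(.s k89 k93 1 (.s k169 k253 13 (.s k9 k249 11 (.s k13 k5 1 (.d k241 k161 k165 11 13))))),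
  (.s k3 k2 0 (.s k161 k241 11 (.s k82 k240 12 (.s k83 k80 0 (.d k243 k163 k162 11 12))))), (.s k3
  k2 0 (.s k89 k93 1 (.s k169 k253 13 (.s k86 k252 14 (.s k83 k92 2 (.d k243 k163 k162 11 12))))))]
  .n)

def s27_170_153 : T TT 256 :=
  (.f k89 k93 1 (.q k90 [(.s k80 k95 2 (.s k83 k82 0 (.s k88 k91 0 (.d k92 k84 k86 1 2)))), (.s k91
  k88 0 (.s k243 k162 12 (.s k15 k167 13 (.s k5 k10 2 (.d k165 k245 k240 11 14))))), (.s k80 k95 2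
  (.s k240 k160 11 (.s k165 k15 14 (.s k241 k13 13 (.d k243 k242 k162 0 12)))))] (.c k136 (.q k187
  [(.s k80 k95 2 (.s k83 k82 0 (.s k88 k91 0 (.d k92 k84 k86 1 2)))), (.s k91 k88 0 (.s k243 k162 12
  (.s k15 k167 13 (.s k5 k10 2 (.d k165 k245 k240 11 14))))), (.s k80 k95 2 (.s k240 k160 11 (.s
  k165 k15 14 (.s k241 k13 13 (.d k243 k242 k162 0 12)))))] .n) (.c k187 (.q k136 [(.s k80 k95 2 (.s
  k83 k82 0 (.s k88 k91 0 (.d k92 k84 k86 1 2)))), (.s k91 k88 0 (.s k243 k162 12 (.s k15 k167 13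
  (.s k5 k10 2 (.d k165 k245 k240 11 14))))), (.s k80 k95 2 (.s k240 k160 11 (.s k165 k15 14 (.s
  k241 k13 13 (.d k243 k242 k162 0 12)))))] .n) .n))))

def s27_170_154 : T TT 256 :=
  (.f k162 k243 12 (.f k89 k93 1 (.q k1 [(.s k161 k241 11 (.s k160 k163 0 (.s k240 k80 11 (.d k3 k2
  k82 0 12)))), (.s k169 k253 13 (.s k9 k249 11 (.s k13 k5 1 (.d k241 k161 k165 11 13)))), (.s k3 k2
  0 (.s k169 k253 13 (.s k86 k252 14 (.s k83 k92 2 (.s k80 k82 0 (.s k87 k84 0 (.d k95 k91 k90 1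
  2)))))))] (.c k138 (.q k186 [(.s k161 k241 11 (.s k160 k163 0 (.s k240 k80 11 (.d k3 k2 k82 0
  12)))), (.s k169 k253 13 (.s k9 k249 11 (.s k13 k5 1 (.d k241 k161 k165 11 13)))), (.s k3 k2 0 (.s
  k169 k253 13 (.s k86 k252 14 (.s k83 k92 2 (.s k80 k82 0 (.s k87 k84 0 (.d k95 k91 k90 1 2)))))))]
  .n) (.c k186 (.q k138 [(.s k161 k241 11 (.s k160 k163 0 (.s k240 k80 11 (.d k3 k2 k82 0 12)))),
  (.s k169 k253 13 (.s k9 k249 11 (.s k13 k5 1 (.d k241 k161 k165 11 13)))), (.s k3 k2 0 (.s k69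
  k207 10 (.s k137 k205 9 (.s k136 k139 0 (.d k204 k68 k70 9 10)))))] .n) .n)))))

def s27_170_155 : T TT 256 :=
  (.f k89 k93 1 (.q k91 [(.s k90 k88 0 (.s k243 k162 12 (.s k15 k167 13 (.s k5 k10 2 (.d k165 k245
  k240 11 14))))), (.s k90 k88 0 (.s k80 k95 2 (.s k82 k83 0 (.s k240 k160 11 (.s k165 k15 14 (.s
  k241 k13 13 (.d k161 k1 k3 11 12))))))), (.s k243 k162 12 (.s k166 k12 14 (.s k167 k15 13 (.s k247
  k4 12 (.s k87 k7 11 (.s k83 k95 1 (.d k86 k92 k84 2 0)))))))] (.c k15 (.l (.s k90 k88 0 (.s k80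
  k95 2 (.s k240 k160 11 (.s k243 k162 12 (.s k166 k12 14 (.d k242 k14 k241 13 0))))))) .n)))

def s27_170_156 : T TT 256 :=
  (.q k1 [(.s k89 k93 1 (.s k169 k253 13 (.s k9 k249 11 (.s k13 k5 1 (.d k241 k161 k165 11 13))))),
  (.s k3 k2 0 (.s k161 k241 11 (.s k82 k240 12 (.s k83 k80 0 (.d k243 k163 k162 11 12))))), (.s k3
  k2 0 (.s k89 k93 1 (.s k169 k253 13 (.s k86 k252 14 (.s k83 k92 2 (.d k243 k163 k162 11 12))))))]
  .n)

def s27_170_157 : T TT 256 :=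
  (.q k1 [(.s k3 k2 0 (.s k161 k241 11 (.s k82 k240 12 (.s k83 k80 0 (.d k243 k163 k162 11 12))))),
  (.s k89 k93 1 (.s k169 k253 13 (.s k9 k249 11 (.s k13 k5 1 (.d k241 k161 k165 11 13))))), (.s k3
  k2 0 (.s k89 k93 1 (.s k169 k253 13 (.s k86 k252 14 (.s k83 k92 2 (.d k243 k163 k162 11 12))))))]
  .n)

def s27_170_158 : T TT 256 :=
  (.q k1 [(.s k3 k2 0 (.s k161 k241 11 (.s k82 k240 12 (.s k83 k80 0 (.d k243 k163 k162 11 12))))),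
  (.s k89 k93 1 (.s k169 k253 13 (.s k9 k249 11 (.s k13 k5 1 (.d k241 k161 k165 11 13))))), (.s k3
  k2 0 (.s k89 k93 1 (.s k169 k253 13 (.s k86 k252 14 (.s k83 k92 2 (.d k243 k163 k162 11 12))))))]
  .n)

def s27_170_159 : T TT 256 :=
  (.q k1 [(.s k89 k93 1 (.s k169 k253 13 (.s k9 k249 11 (.s k13 k5 1 (.d k241 k161 k165 11 13))))),
  (.s k3 k2 0 (.s k161 k241 11 (.s k82 k240 12 (.s k83 k80 0 (.d k243 k163 k162 11 12))))), (.s k3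
  k2 0 (.s k89 k93 1 (.s k169 k253 13 (.s k86 k252 14 (.s k83 k92 2 (.d k243 k163 k162 11 12))))))]
  .n)

def s27_170_160 : T TT 256 :=
  (.f k89 k93 1 (.q k165 [(.s k241 k13 13 (.s k245 k5 11 (.s k253 k249 1 (.d k1 k161 k169 11 13)))),
  (.s k5 k245 11 (.s k15 k10 2 (.s k90 k240 14 (.s k91 k88 0 (.d k243 k162 k167 12 13))))), (.s k241
  k13 13 (.s k243 k162 12 (.s k166 k12 14 (.s k167 k164 0 (.s k15 k91 13 (.d k240 k242 k90 0
  14))))))] .n))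

def s27_170_161 : T TT 256 :=
  (.q k16 [(.s k48 k32 3 (.s k146 k211 8 (.s k97 k195 12 (.s k113 k65 3 (.d k243 k178 k162 8
  12))))), (.s k89 k93 1 (.s k154 k223 10 (.s k24 k219 8 (.s k28 k20 1 (.d k211 k146 k150 8 10))))),
  (.s k48 k32 3 (.s k89 k93 1 (.s k154 k223 10 (.s k101 k207 14 (.s k113 k77 5 (.d k243 k178 k162 8
  12))))))] .n)

def s27_170_162 : T TT 256 :=
  (.f k89 k93 1 (.q k1 [(.s k169 k253 13 (.s k9 k249 11 (.s k13 k5 1 (.d k241 k161 k165 11 13)))),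
  (.s k3 k2 0 (.s k161 k241 11 (.s k82 k240 12 (.s k83 k80 0 (.s k86 k92 2 (.s k84 k87 0 (.d k252
  k168 k169 13 14))))))), (.s k3 k2 0 (.s k169 k253 13 (.s k86 k252 14 (.s k83 k92 2 (.s k87 k84 0
  (.s k95 k91 1 (.d k80 k82 k90 0 2)))))))] (.c k166 (.q k174 [(.s k169 k253 13 (.s k9 k249 11 (.s
  k13 k5 1 (.d k241 k161 k165 11 13)))), (.s k3 k2 0 (.s k161 k241 11 (.s k82 k240 12 (.s k83 k80 0
  (.s k86 k92 2 (.s k84 k87 0 (.d k252 k168 k169 13 14))))))), (.s k3 k2 0 (.s k169 k253 13 (.s k86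
  k252 14 (.s k83 k92 2 (.s k87 k84 0 (.s k95 k91 1 (.d k80 k82 k90 0 2)))))))] (.c k169 (.f k241
  k161 11 (.f k165 k13 13 (.l (.s k5 k245 11 (.s k15 k10 2 (.s k90 k240 14 (.s k80 k95 2 (.s k88 k91
  0 (.s k92 k84 1 (.d k83 k82 k86 0 2)))))))))) .n)) (.c k169 (.f k3 k2 0 (.f k241 k161 11 (.f k165
  k13 13 (.l (.s k5 k245 11 (.s k15 k10 2 (.s k7 k11 1 (.s k86 k244 12 (.s k83 k92 2 (.s k82 k80 0
  (.d k90 k94 k240 1 14))))))))))) (.c k174 (.q k166 [(.s k4 k247 12 (.d k12 k8 k243 1 14)), (.s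
  k169 k253 13 (.s k9 k249 11 (.s k13 k5 1 (.d k241 k161 k165 11 13))))] (.c k12 (.q k255 [(.s k169
  k253 13 (.s k9 k249 11 (.s k13 k5 1 (.d k241 k161 k165 11 13)))), (.s k3 k2 0 (.s k87 k171 13 (.s
  k86 k84 0 (.s k83 k92 2 (.s k95 k91 1 (.d k80 k82 k90 0 2))))))] (.c k169 (.l (.s k3 k2 0 (.s k161
  k241 11 (.s k82 k240 12 (.s k83 k80 0 (.s k86 k92 2 (.d k87 k84 k171 0 13))))))) .n)) (.c k255 (.l
  (.s k12 k243 14 (.d k4 k247 k8 12 1))) .n))) .n)))))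

def s27_170_163 : T TT 256 :=
  (.q k16 [(.s k48 k32 3 (.s k146 k211 8 (.s k97 k195 12 (.s k113 k65 3 (.d k243 k178 k162 8
  12))))), (.s k89 k93 1 (.s k154 k223 10 (.s k24 k219 8 (.s k28 k20 1 (.d k211 k146 k150 8 10))))),
  (.s k48 k32 3 (.s k89 k93 1 (.s k154 k223 10 (.s k101 k207 14 (.s k113 k77 5 (.d k243 k178 k162 8
  12))))))] .n)

def s27_170_164 : T TT 256 :=
  (.q k1 [(.s k89 k93 1 (.s k169 k253 13 (.s k9 k249 11 (.s k13 k5 1 (.d k241 k161 k165 11 13))))),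
  (.s k3 k2 0 (.s k161 k241 11 (.s k82 k240 12 (.s k83 k80 0 (.d k243 k163 k162 11 12))))), (.s k3
  k2 0 (.s k89 k93 1 (.s k169 k253 13 (.s k86 k252 14 (.s k83 k92 2 (.d k243 k163 k162 11 12))))))]
  .n)

def s27_170_165 : T TT 256 :=
  (.q k80 [(.s k82 k83 0 (.s k162 k243 12 (.s k2 k242 11 (.s k3 k1 0 (.d k240 k160 k161 11 12))))),
  (.s k83 k82 0 (.s k89 k93 1 (.s k86 k92 2 (.s k87 k84 0 (.d k95 k91 k90 1 2))))), (.s k89 k93 1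
  (.s k90 k95 2 (.s k243 k162 12 (.s k166 k12 14 (.s k242 k14 13 (.d k240 k160 k241 11 0))))))] (.c
  k160 (.q k175 [(.s k83 k82 0 (.s k89 k93 1 (.s k86 k92 2 (.s k87 k84 0 (.d k95 k91 k90 1 2))))),
  (.s k89 k93 1 (.s k95 k90 2 (.s k243 k162 12 (.s k166 k12 14 (.s k247 k4 12 (.d k255 k15 k251 11
  1)))))), (.s k83 k82 0 (.s k95 k90 2 (.s k15 k255 11 (.s k91 k87 1 (.d k243 k162 k167 12 13)))))]
  (.c k90 (.l (.s k83 k82 0 (.s k89 k93 1 (.s k86 k92 2 (.s k84 k87 0 (.s k243 k162 12 (.s k252 k168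
  13 (.d k3 k163 k169 11 14)))))))) (.c k95 (.l (.s k83 k82 0 (.s k89 k93 1 (.s k92 k86 2 (.s k84
  k88 1 (.s k243 k162 12 (.s k252 k168 13 (.d k12 k172 k166 11 14)))))))) .n))) (.c k175 (.l (.s
  k160 k240 11 (.s k83 k82 0 (.s k89 k93 1 (.s k86 k92 2 (.s k87 k84 0 (.d k95 k90 k91 2 1)))))))
  .n)))

def s27_170_166 : T TT 256 :=
  (.q k1 [(.s k3 k2 0 (.s k161 k241 11 (.s k82 k240 12 (.s k83 k80 0 (.d k243 k162 k163 12 11))))),
  (.s k89 k93 1 (.s k169 k253 13 (.s k9 k249 11 (.s k13 k5 1 (.d k241 k161 k165 11 13))))), (.s k3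
  k2 0 (.s k89 k93 1 (.s k169 k253 13 (.s k86 k252 14 (.s k83 k92 2 (.d k243 k162 k163 12 11))))))]
  (.c k162 (.q k174 [(.s k89 k93 1 (.s k169 k253 13 (.s k9 k249 11 (.s k13 k5 1 (.d k241 k161 k165
  11 13))))), (.s k3 k2 0 (.s k93 k89 1 (.s k169 k253 13 (.s k86 k252 14 (.s k87 k84 0 (.d k255 k12
  k171 12 13)))))), (.s k3 k2 0 (.s k161 k241 11 (.s k82 k240 12 (.s k80 k83 0 (.s k90 k95 2 (.s
  k169 k253 13 (.d k86 k94 k252 1 14))))))), (.s k3 k2 0 (.s k93 k89 1 (.s k12 k255 12 (.s k8 k4 1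
  (.s k9 k6 2 (.s k5 k13 1 (.d k10 k11 k15 0 2)))))))] .n) (.c k174 (.l (.s k162 k243 12 (.s k3 k2 0
  (.s k161 k241 11 (.s k160 k163 0 (.d k240 k80 k82 11 12)))))) .n)))

def s27_170_167 : T TT 256 :=
  (.q k1 [(.s k89 k93 1 (.s k169 k253 13 (.s k9 k249 11 (.s k13 k5 1 (.d k241 k161 k165 11 13))))),
  (.s k3 k2 0 (.s k161 k241 11 (.s k82 k240 12 (.s k83 k80 0 (.d k243 k163 k162 11 12))))), (.s k3
  k2 0 (.s k89 k93 1 (.s k169 k253 13 (.s k86 k252 14 (.s k83 k92 2 (.d k243 k163 k162 11 12))))))]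
  .n)

def s27_170_168 : T TT 256 :=
  (.q k169 [(.s k1 k253 13 (.s k89 k93 1 (.s k9 k249 11 (.s k13 k5 1 (.d k241 k161 k165 11 13))))),
  (.s k89 k93 1 (.s k243 k162 12 (.s k166 k12 14 (.s k163 k172 2 (.s k3 k83 11 (.s k249 k9 11 (.d
  k252 k246 k86 2 14))))))), (.s k1 k253 13 (.s k3 k2 0 (.s k161 k241 11 (.s k82 k240 12 (.s k83 k80
  0 (.d k243 k163 k162 11 12))))))] (.c k249 (.l (.s k1 k253 13 (.s k3 k2 0 (.s k86 k252 14 (.s k89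
  k93 1 (.s k83 k92 2 (.d k243 k163 k162 11 12))))))) .n))

def s27_170_169 : T TT 256 :=
  (.f k89 k93 1 (.f k162 k243 12 (.q k16 [(.s k146 k211 8 (.s k130 k178 3 (.s k195 k65 8 (.d k48 k32
  k97 3 12)))), (.s k154 k223 10 (.s k24 k219 8 (.s k28 k20 1 (.d k211 k146 k150 8 10)))), (.s k48
  k32 3 (.s k154 k223 10 (.s k101 k207 14 (.s k113 k77 5 (.s k65 k97 3 (.s k117 k69 3 (.d k125 k121
  k105 1 5)))))))] (.c k168 (.q k171 [(.s k146 k211 8 (.s k130 k178 3 (.s k195 k65 8 (.d k48 k32 k97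
  3 12)))), (.s k154 k223 10 (.s k24 k219 8 (.s k28 k20 1 (.d k211 k146 k150 8 10)))), (.s k48 k32 3
  (.s k154 k223 10 (.s k101 k207 14 (.s k113 k77 5 (.s k65 k97 3 (.s k117 k69 3 (.d k125 k121 k105 1
  5)))))))] .n) (.c k171 (.q k168 [(.s k146 k211 8 (.s k130 k178 3 (.s k195 k65 8 (.d k48 k32 k97 3
  12)))), (.s k154 k223 10 (.s k24 k219 8 (.s k28 k20 1 (.d k211 k146 k150 8 10)))), (.s k48 k32 3
  (.s k84 k252 13 (.s k152 k220 9 (.s k136 k184 3 (.d k204 k68 k100 9 13)))))] .n) .n)))))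

def s27_170_171 : T TT 256 :=
  (.q k169 [(.s k1 k253 13 (.s k89 k93 1 (.s k9 k249 11 (.s k13 k5 1 (.d k241 k161 k165 11 13))))),
  (.s k89 k93 1 (.s k243 k162 12 (.s k249 k9 11 (.s k252 k246 2 (.s k84 k168 13 (.d k86 k87 k3 0
  14)))))), (.s k1 k253 13 (.s k3 k2 0 (.s k161 k241 11 (.s k82 k240 12 (.s k83 k80 0 (.d k243 k163
  k162 11 12))))))] (.c k249 (.l (.s k1 k253 13 (.s k3 k2 0 (.s k86 k252 14 (.s k89 k93 1 (.s k83
  k92 2 (.d k243 k163 k162 11 12))))))) .n))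

def s27_170_172 : T TT 256 :=
  (.q k1 [(.s k89 k93 1 (.s k169 k253 13 (.s k9 k249 11 (.s k13 k5 1 (.d k241 k161 k165 11 13))))),
  (.s k3 k2 0 (.s k161 k241 11 (.s k82 k240 12 (.s k83 k80 0 (.d k243 k163 k162 11 12))))), (.s k3
  k2 0 (.s k89 k93 1 (.s k169 k253 13 (.s k86 k252 14 (.s k243 k162 12 (.d k83 k92 k163 2 11))))))]
  .n)

def s27_170_173 : T TT 256 :=
  (.q k1 [(.s k89 k93 1 (.s k241 k161 11 (.s k13 k165 13 (.s k169 k253 13 (.d k9 k5 k249 1 11))))),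
  (.s k3 k2 0 (.s k161 k241 11 (.s k82 k240 12 (.s k83 k80 0 (.d k243 k163 k162 11 12))))), (.s k3
  k2 0 (.s k89 k93 1 (.s k243 k162 12 (.s k163 k83 11 (.s k166 k12 14 (.d k169 k253 k172 13 2))))))]
  .n)

def s27_170_174 : T TT 256 :=
  (.q k80 [(.s k82 k83 0 (.s k162 k243 12 (.s k2 k242 11 (.s k3 k1 0 (.d k240 k160 k161 11 12))))),
  (.s k83 k82 0 (.s k89 k93 1 (.s k86 k92 2 (.s k87 k84 0 (.d k95 k91 k90 1 2))))), (.s k89 k93 1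
  (.s k90 k95 2 (.s k240 k160 11 (.s k165 k15 14 (.s k241 k13 13 (.d k243 k162 k242 12 0))))))] (.c
  k162 (.q k166 [(.s k4 k247 12 (.s k12 k8 1 (.d k89 k93 k243 1 14))), (.s k83 k82 0 (.s k95 k90 2
  (.s k87 k91 1 (.s k86 k84 0 (.d k89 k93 k92 1 2))))), (.s k4 k247 12 (.s k90 k95 2 (.s k240 k160
  11 (.s k165 k15 14 (.s k164 k167 0 (.d k12 k8 k88 1 13))))))] .n) (.c k166 (.l (.s k162 k243 12
  (.s k82 k83 0 (.s k2 k242 11 (.s k3 k1 0 (.d k240 k160 k161 11 12)))))) .n)))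

def s27_170_175 : T TT 256 :=
  (.q k80 [(.s k82 k83 0 (.s k162 k243 12 (.s k2 k242 11 (.s k3 k1 0 (.d k240 k160 k161 11 12))))),
  (.s k83 k82 0 (.s k89 k93 1 (.s k86 k92 2 (.s k87 k84 0 (.d k95 k91 k90 1 2))))), (.s k89 k93 1
  (.s k90 k95 2 (.s k91 k88 0 (.s k243 k162 12 (.s k15 k167 13 (.d k240 k160 k165 11 14))))))] (.c
  k160 (.q k165 [(.s k5 k245 11 (.s k15 k10 2 (.d k90 k95 k240 2 14))), (.s k83 k82 0 (.s k89 k93 1
  (.s k86 k92 2 (.s k87 k84 0 (.d k95 k91 k90 1 2))))), (.s k89 k93 1 (.s k241 k13 13 (.s k1 k161 11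
  (.s k245 k5 11 (.d k253 k249 k169 1 13)))))] .n) (.c k165 (.l (.s k160 k240 11 (.s k83 k82 0 (.s
  k89 k93 1 (.s k86 k92 2 (.s k87 k84 0 (.d k95 k90 k91 2 1))))))) .n)))

def s27_170_176 : T TT 256 :=
  (.q k1 [(.s k89 k93 1 (.s k169 k253 13 (.s k9 k249 11 (.s k13 k5 1 (.d k241 k161 k165 11 13))))),
  (.s k3 k2 0 (.s k161 k241 11 (.s k82 k240 12 (.s k83 k80 0 (.d k243 k163 k162 11 12))))), (.s k3
  k2 0 (.s k89 k93 1 (.s k169 k253 13 (.s k86 k252 14 (.s k83 k92 2 (.d k243 k163 k162 11 12))))))]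
  .n)

def s27_170_177 : T TT 256 :=
  (.q k1 [(.s k89 k93 1 (.s k169 k253 13 (.s k9 k249 11 (.s k13 k5 1 (.d k241 k161 k165 11 13))))),
  (.s k3 k2 0 (.s k161 k241 11 (.s k82 k240 12 (.s k83 k80 0 (.d k243 k163 k162 11 12))))), (.s k3
  k2 0 (.s k89 k93 1 (.s k169 k253 13 (.s k86 k252 14 (.s k83 k92 2 (.d k243 k163 k162 11 12))))))]
  .n)

def s27_170_178 : T TT 256 :=
  (.q k1 [(.s k89 k93 1 (.s k169 k253 13 (.s k9 k249 11 (.s k13 k5 1 (.d k241 k161 k165 11 13))))),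
  (.s k3 k2 0 (.s k161 k241 11 (.s k82 k240 12 (.s k83 k80 0 (.d k243 k163 k162 11 12))))), (.s k3
  k2 0 (.s k89 k93 1 (.s k169 k253 13 (.s k86 k252 14 (.s k83 k92 2 (.d k243 k163 k162 11 12))))))]
  .n)

def s27_170_179 : T TT 256 :=
  (.q k1 [(.s k89 k93 1 (.s k169 k253 13 (.s k9 k249 11 (.s k13 k5 1 (.d k241 k161 k165 11 13))))),
  (.s k3 k2 0 (.s k161 k241 11 (.s k82 k240 12 (.s k83 k80 0 (.d k243 k163 k162 11 12))))), (.s k3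
  k2 0 (.s k89 k93 1 (.s k169 k253 13 (.s k86 k252 14 (.s k83 k92 2 (.d k243 k163 k162 11 12))))))]
  .n)

def s27_170_180 : T TT 256 :=
  (.q k1 [(.s k89 k93 1 (.s k169 k253 13 (.s k9 k249 11 (.s k13 k5 1 (.d k241 k161 k165 11 13))))),
  (.s k3 k2 0 (.s k161 k241 11 (.s k82 k240 12 (.s k83 k80 0 (.d k243 k163 k162 11 12))))), (.s k3
  k2 0 (.s k89 k93 1 (.s k169 k253 13 (.s k86 k252 14 (.s k83 k92 2 (.d k243 k163 k162 11 12))))))]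
  .n)

def s27_170_181 : T TT 256 :=
  (.q k1 [(.s k89 k93 1 (.s k169 k253 13 (.s k9 k249 11 (.s k13 k5 1 (.d k241 k161 k165 11 13))))),
  (.s k3 k2 0 (.s k161 k241 11 (.s k82 k240 12 (.s k83 k80 0 (.d k243 k163 k162 11 12))))), (.s k3
  k2 0 (.s k89 k93 1 (.s k169 k253 13 (.s k86 k252 14 (.s k83 k92 2 (.d k243 k163 k162 11 12))))))]
  .n)

def s27_170_182 : T TT 256 :=
  (.q k1 [(.s k89 k93 1 (.s k169 k253 13 (.s k9 k249 11 (.s k13 k5 1 (.d k241 k161 k165 11 13))))),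
  (.s k3 k2 0 (.s k161 k241 11 (.s k82 k240 12 (.s k83 k80 0 (.d k243 k163 k162 11 12))))), (.s k3
  k2 0 (.s k89 k93 1 (.s k169 k253 13 (.s k86 k252 14 (.s k83 k92 2 (.d k243 k163 k162 11 12))))))]
  .n)

def s27_170_183 : T TT 256 :=
  (.q k1 [(.s k89 k93 1 (.s k169 k253 13 (.s k9 k249 11 (.s k13 k5 1 (.d k241 k161 k165 11 13))))),
  (.s k3 k2 0 (.s k161 k241 11 (.s k82 k240 12 (.s k83 k80 0 (.d k243 k163 k162 11 12))))), (.s k3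
  k2 0 (.s k89 k93 1 (.s k169 k253 13 (.s k86 k252 14 (.s k83 k92 2 (.d k243 k163 k162 11 12))))))]
  .n)

def s27_170_184 : T TT 256 :=
  (.q k1 [(.s k89 k93 1 (.s k169 k253 13 (.s k9 k249 11 (.s k13 k5 1 (.d k241 k161 k165 11 13))))),
  (.s k3 k2 0 (.s k161 k241 11 (.s k82 k240 12 (.s k83 k80 0 (.d k243 k163 k162 11 12))))), (.s k3
  k2 0 (.s k89 k93 1 (.s k169 k253 13 (.s k86 k252 14 (.s k83 k92 2 (.d k243 k163 k162 11 12))))))]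
  .n)

def s27_170_185 : T TT 256 :=
  (.q k1 [(.s k3 k2 0 (.s k161 k241 11 (.s k82 k240 12 (.s k83 k80 0 (.d k243 k163 k162 11 12))))),
  (.s k89 k93 1 (.s k169 k253 13 (.s k9 k249 11 (.s k13 k5 1 (.d k241 k161 k165 11 13))))), (.s k3
  k2 0 (.s k89 k93 1 (.s k169 k253 13 (.s k86 k252 14 (.s k83 k92 2 (.d k243 k163 k162 11 12))))))]
  .n)

def s27_170_186 : T TT 256 :=
  (.q k154 [(.s k16 k223 10 (.s k89 k93 1 (.s k211 k146 8 (.s k28 k150 10 (.d k24 k20 k219 1 8))))),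
  (.s k89 k93 1 (.s k219 k24 8 (.s k243 k162 12 (.s k207 k231 5 (.s k69 k138 10 (.d k101 k117 k48 3
  14)))))), (.s k16 k223 10 (.s k48 k32 3 (.s k146 k211 8 (.s k97 k195 12 (.s k113 k65 3 (.d k243
  k178 k162 8 12))))))] (.c k219 (.l (.s k16 k223 10 (.s k48 k32 3 (.s k89 k93 1 (.s k101 k207 14
  (.s k113 k77 5 (.d k243 k178 k162 8 12))))))) .n))

def s27_170_187 : T TT 256 :=
  (.q k153 [(.s k17 k221 9 (.s k89 k93 1 (.s k25 k217 7 (.s k29 k21 1 (.d k209 k145 k149 7 9))))),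
  (.s k89 k93 1 (.s k217 k25 7 (.s k243 k162 12 (.s k204 k230 6 (.s k68 k136 9 (.d k102 k119 k51 4
  14)))))), (.s k17 k221 9 (.s k51 k34 4 (.s k145 k209 7 (.s k98 k192 12 (.s k115 k64 4 (.d k243
  k179 k162 7 12))))))] (.c k217 (.l (.s k17 k221 9 (.s k51 k34 4 (.s k89 k93 1 (.s k102 k204 14 (.s
  k115 k76 6 (.d k243 k179 k162 7 12))))))) .n))

def s27_170_188 : T TT 256 :=
  (.q k1 [(.s k89 k93 1 (.s k169 k253 13 (.s k9 k249 11 (.s k13 k5 1 (.d k241 k161 k165 11 13))))),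
  (.s k3 k2 0 (.s k161 k241 11 (.s k82 k240 12 (.s k83 k80 0 (.d k243 k163 k162 11 12))))), (.s k3
  k2 0 (.s k89 k93 1 (.s k169 k253 13 (.s k86 k252 14 (.s k83 k92 2 (.d k243 k163 k162 11 12))))))]
  .n)

def s27_170_189 : T TT 256 :=
  (.q k1 [(.s k3 k2 0 (.s k161 k241 11 (.s k82 k240 12 (.s k83 k80 0 (.d k243 k163 k162 11 12))))),
  (.s k89 k93 1 (.s k169 k253 13 (.s k9 k249 11 (.s k13 k5 1 (.d k241 k161 k165 11 13))))), (.s k3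
  k2 0 (.s k89 k93 1 (.s k169 k253 13 (.s k86 k252 14 (.s k83 k92 2 (.d k243 k163 k162 11 12))))))]
  .n)

def s27_170_190 : T TT 256 :=
  (.q k65 [(.s k97 k113 3 (.s k162 k243 12 (.s k32 k227 8 (.s k48 k16 3 (.d k195 k130 k146 8
  12))))), (.s k89 k93 1 (.s k105 k125 5 (.s k73 k121 3 (.s k77 k69 1 (.d k113 k97 k101 3 5))))),
  (.s k89 k93 1 (.s k105 k125 5 (.s k121 k73 3 (.s k243 k162 12 (.s k60 k182 10 (.d k195 k130 k150 8
  14))))))] (.c k130 (.q k150 [(.s k20 k215 8 (.s k60 k40 5 (.d k105 k125 k195 5 14))), (.s k89 k93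
  1 (.s k113 k97 3 (.s k77 k101 5 (.s k73 k69 1 (.d k105 k121 k125 3 5))))), (.s k89 k93 1 (.s k211
  k28 10 (.s k16 k146 8 (.s k215 k20 8 (.d k223 k219 k154 1 10)))))] .n) (.c k150 (.l (.s k130 k195
  8 (.s k89 k93 1 (.s k105 k125 5 (.s k73 k121 3 (.s k77 k69 1 (.d k113 k97 k101 3 5))))))) .n)))

def s27_170_191 : T TT 256 :=
  (.q k64 [(.s k98 k115 4 (.s k162 k243 12 (.s k34 k226 7 (.s k51 k17 4 (.d k192 k128 k145 7
  12))))), (.s k89 k93 1 (.s k106 k127 6 (.s k72 k123 4 (.s k76 k68 1 (.d k115 k98 k102 4 6))))),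
  (.s k89 k93 1 (.s k106 k127 6 (.s k123 k72 4 (.s k243 k162 12 (.s k63 k183 9 (.d k192 k128 k149 7
  14))))))] (.c k128 (.q k149 [(.s k21 k213 7 (.s k63 k42 6 (.d k106 k127 k192 6 14))), (.s k89 k93
  1 (.s k115 k98 4 (.s k76 k102 6 (.s k72 k68 1 (.d k106 k123 k127 4 6))))), (.s k89 k93 1 (.s k209
  k29 9 (.s k17 k145 7 (.s k213 k21 7 (.d k221 k217 k153 1 9)))))] .n) (.c k149 (.l (.s k128 k192 7
  (.s k89 k93 1 (.s k106 k127 6 (.s k72 k123 4 (.s k76 k68 1 (.d k115 k98 k102 4 6))))))) .n)))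

def s27_170_192 : T TT 256 :=
  (.q k1 [(.s k89 k93 1 (.s k169 k253 13 (.s k9 k249 11 (.s k13 k5 1 (.d k241 k161 k165 11 13))))),
  (.s k3 k2 0 (.s k161 k241 11 (.s k82 k240 12 (.s k83 k80 0 (.d k243 k163 k162 11 12))))), (.s k3
  k2 0 (.s k89 k93 1 (.s k169 k253 13 (.s k86 k252 14 (.s k83 k92 2 (.d k243 k163 k162 11 12))))))]
  .n)

def s27_170_193 : T TT 256 :=
  (.q k1 [(.s k89 k93 1 (.s k169 k253 13 (.s k9 k249 11 (.s k13 k5 1 (.d k241 k161 k165 11 13))))),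
  (.s k3 k2 0 (.s k161 k241 11 (.s k82 k240 12 (.s k83 k80 0 (.d k243 k163 k162 11 12))))), (.s k3
  k2 0 (.s k89 k93 1 (.s k169 k253 13 (.s k86 k252 14 (.s k83 k92 2 (.d k243 k163 k162 11 12))))))]
  .n)

def s27_170_194 : T TT 256 :=
  (.q k1 [(.s k89 k93 1 (.s k169 k253 13 (.s k9 k249 11 (.s k13 k5 1 (.d k241 k161 k165 11 13))))),
  (.s k3 k2 0 (.s k161 k241 11 (.s k82 k240 12 (.s k83 k80 0 (.d k243 k163 k162 11 12))))), (.s k3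
  k2 0 (.s k89 k93 1 (.s k169 k253 13 (.s k86 k252 14 (.s k83 k92 2 (.d k243 k163 k162 11 12))))))]
  .n)

def s27_170_195 : T TT 256 :=
  (.q k1 [(.s k89 k93 1 (.s k169 k253 13 (.s k9 k249 11 (.s k13 k5 1 (.d k241 k161 k165 11 13))))),
  (.s k3 k2 0 (.s k161 k241 11 (.s k82 k240 12 (.s k83 k80 0 (.d k243 k163 k162 11 12))))), (.s k3
  k2 0 (.s k89 k93 1 (.s k169 k253 13 (.s k86 k252 14 (.s k83 k92 2 (.d k243 k163 k162 11 12))))))]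
  .n)

def s27_170_196 : T TT 256 :=
  (.q k1 [(.s k89 k93 1 (.s k169 k253 13 (.s k9 k249 11 (.s k13 k5 1 (.d k241 k161 k165 11 13))))),
  (.s k3 k2 0 (.s k161 k241 11 (.s k82 k240 12 (.s k83 k80 0 (.d k243 k163 k162 11 12))))), (.s k3
  k2 0 (.s k89 k93 1 (.s k169 k253 13 (.s k86 k252 14 (.s k83 k92 2 (.d k243 k163 k162 11 12))))))]
  .n)

def s27_170_197 : T TT 256 :=
  (.q k1 [(.s k3 k2 0 (.s k161 k241 11 (.s k82 k240 12 (.s k83 k80 0 (.d k243 k163 k162 11 12))))),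
  (.s k89 k93 1 (.s k169 k253 13 (.s k9 k249 11 (.s k13 k5 1 (.d k241 k161 k165 11 13))))), (.s k3
  k2 0 (.s k89 k93 1 (.s k169 k253 13 (.s k86 k252 14 (.s k83 k92 2 (.d k243 k163 k162 11 12))))))]
  .n)

def s27_170_198 : T TT 256 :=
  (.q k1 [(.s k89 k93 1 (.s k169 k253 13 (.s k9 k249 11 (.s k13 k5 1 (.d k241 k161 k165 11 13))))),
  (.s k3 k2 0 (.s k161 k241 11 (.s k82 k240 12 (.s k83 k80 0 (.d k243 k163 k162 11 12))))), (.s k3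
  k2 0 (.s k89 k93 1 (.s k169 k253 13 (.s k86 k252 14 (.s k83 k92 2 (.d k243 k163 k162 11 12))))))]
  .n)

def s27_170_199 : T TT 256 :=
  (.q k1 [(.s k89 k93 1 (.s k169 k253 13 (.s k9 k249 11 (.s k13 k5 1 (.d k241 k161 k165 11 13))))),
  (.s k3 k2 0 (.s k161 k241 11 (.s k82 k240 12 (.s k83 k80 0 (.d k243 k163 k162 11 12))))), (.s k3
  k2 0 (.s k89 k93 1 (.s k169 k253 13 (.s k86 k252 14 (.s k83 k92 2 (.d k243 k163 k162 11 12))))))]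
  .n)

def s27_170_200 : T TT 256 :=
  (.q k1 [(.s k89 k93 1 (.s k169 k253 13 (.s k9 k249 11 (.s k13 k5 1 (.d k241 k161 k165 11 13))))),
  (.s k3 k2 0 (.s k161 k241 11 (.s k82 k240 12 (.s k83 k80 0 (.d k243 k163 k162 11 12))))), (.s k3
  k2 0 (.s k89 k93 1 (.s k169 k253 13 (.s k86 k252 14 (.s k83 k92 2 (.d k243 k163 k162 11 12))))))]
  .n)

def s27_170_201 : T TT 256 :=
  (.q k1 [(.s k3 k2 0 (.s k161 k241 11 (.s k82 k240 12 (.s k83 k80 0 (.d k243 k163 k162 11 12))))),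
  (.s k89 k93 1 (.s k169 k253 13 (.s k9 k249 11 (.s k13 k5 1 (.d k241 k161 k165 11 13))))), (.s k3
  k2 0 (.s k89 k93 1 (.s k169 k253 13 (.s k86 k252 14 (.s k83 k92 2 (.d k243 k163 k162 11 12))))))]
  .n)

def s27_170_202 : T TT 256 :=
  (.q k1 [(.s k89 k93 1 (.s k169 k253 13 (.s k9 k249 11 (.s k13 k5 1 (.d k241 k161 k165 11 13))))),
  (.s k3 k2 0 (.s k161 k241 11 (.s k82 k240 12 (.s k83 k80 0 (.d k243 k163 k162 11 12))))), (.s k3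
  k2 0 (.s k89 k93 1 (.s k169 k253 13 (.s k86 k252 14 (.s k83 k92 2 (.d k243 k163 k162 11 12))))))]
  .n)

def s27_170_203 : T TT 256 :=
  (.q k1 [(.s k89 k93 1 (.s k169 k253 13 (.s k9 k249 11 (.s k13 k5 1 (.d k241 k161 k165 11 13))))),
  (.s k3 k2 0 (.s k161 k241 11 (.s k82 k240 12 (.s k83 k80 0 (.d k243 k163 k162 11 12))))), (.s k3
  k2 0 (.s k89 k93 1 (.s k169 k253 13 (.s k86 k252 14 (.s k83 k92 2 (.d k243 k163 k162 11 12))))))]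
  .n)

def s27_170_204 : T TT 256 :=
  (.q k1 [(.s k89 k93 1 (.s k169 k253 13 (.s k9 k249 11 (.s k13 k5 1 (.d k241 k161 k165 11 13))))),
  (.s k3 k2 0 (.s k161 k241 11 (.s k82 k240 12 (.s k83 k80 0 (.d k243 k163 k162 11 12))))), (.s k3
  k2 0 (.s k89 k93 1 (.s k169 k253 13 (.s k86 k252 14 (.s k83 k92 2 (.d k243 k163 k162 11 12))))))]
  .n)

def s27_170_205 : T TT 256 :=
  (.q k1 [(.s k89 k93 1 (.s k169 k253 13 (.s k9 k249 11 (.s k13 k5 1 (.d k241 k161 k165 11 13))))),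
  (.s k3 k2 0 (.s k161 k241 11 (.s k82 k240 12 (.s k83 k80 0 (.d k243 k163 k162 11 12))))), (.s k3
  k2 0 (.s k89 k93 1 (.s k169 k253 13 (.s k86 k252 14 (.s k83 k92 2 (.d k243 k163 k162 11 12))))))]
  .n)

def s27_170_206 : T TT 256 :=
  (.q k1 [(.s k89 k93 1 (.s k169 k253 13 (.s k9 k249 11 (.s k13 k5 1 (.d k241 k161 k165 11 13))))),
  (.s k3 k2 0 (.s k161 k241 11 (.s k82 k240 12 (.s k83 k80 0 (.d k243 k163 k162 11 12))))), (.s k3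
  k2 0 (.s k89 k93 1 (.s k169 k253 13 (.s k86 k252 14 (.s k83 k92 2 (.d k243 k163 k162 11 12))))))]
  .n)

def s27_170_207 : T TT 256 :=
  (.q k1 [(.s k89 k93 1 (.s k169 k253 13 (.s k9 k249 11 (.s k13 k5 1 (.d k241 k161 k165 11 13))))),
  (.s k3 k2 0 (.s k161 k241 11 (.s k82 k240 12 (.s k83 k80 0 (.d k243 k163 k162 11 12))))), (.s k3
  k2 0 (.s k89 k93 1 (.s k169 k253 13 (.s k86 k252 14 (.s k83 k92 2 (.d k243 k163 k162 11 12))))))]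
  .n)

def s27_170_208 : T TT 256 :=
  (.q k1 [(.s k89 k93 1 (.s k169 k253 13 (.s k9 k249 11 (.s k13 k5 1 (.d k241 k161 k165 11 13))))),
  (.s k3 k2 0 (.s k161 k241 11 (.s k82 k240 12 (.s k83 k80 0 (.d k243 k163 k162 11 12))))), (.s k3
  k2 0 (.s k89 k93 1 (.s k169 k253 13 (.s k86 k252 14 (.s k83 k92 2 (.d k243 k163 k162 11 12))))))]
  .n)

def s27_170_209 : T TT 256 :=
  (.q k1 [(.s k89 k93 1 (.s k169 k253 13 (.s k9 k249 11 (.s k13 k5 1 (.d k241 k161 k165 11 13))))),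
  (.s k3 k2 0 (.s k161 k241 11 (.s k82 k240 12 (.s k83 k80 0 (.d k243 k163 k162 11 12))))), (.s k3
  k2 0 (.s k89 k93 1 (.s k169 k253 13 (.s k86 k252 14 (.s k83 k92 2 (.d k243 k163 k162 11 12))))))]
  .n)

def s27_170_210 : T TT 256 :=
  (.q k1 [(.s k89 k93 1 (.s k169 k253 13 (.s k9 k249 11 (.s k13 k5 1 (.d k241 k161 k165 11 13))))),
  (.s k3 k2 0 (.s k161 k241 11 (.s k82 k240 12 (.s k83 k80 0 (.d k243 k163 k162 11 12))))), (.s k3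
  k2 0 (.s k89 k93 1 (.s k169 k253 13 (.s k86 k252 14 (.s k83 k92 2 (.d k243 k163 k162 11 12))))))]
  .n)

def s27_170_211 : T TT 256 :=
  (.q k1 [(.s k89 k93 1 (.s k169 k253 13 (.s k9 k249 11 (.s k13 k5 1 (.d k241 k161 k165 11 13))))),
  (.s k3 k2 0 (.s k161 k241 11 (.s k82 k240 12 (.s k83 k80 0 (.d k243 k163 k162 11 12))))), (.s k3
  k2 0 (.s k89 k93 1 (.s k169 k253 13 (.s k86 k252 14 (.s k83 k92 2 (.d k243 k163 k162 11 12))))))]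
  .n)

def s27_170_212 : T TT 256 :=
  (.q k1 [(.s k89 k93 1 (.s k169 k253 13 (.s k9 k249 11 (.s k13 k5 1 (.d k241 k161 k165 11 13))))),
  (.s k3 k2 0 (.s k161 k241 11 (.s k82 k240 12 (.s k83 k80 0 (.d k243 k163 k162 11 12))))), (.s k3
  k2 0 (.s k89 k93 1 (.s k169 k253 13 (.s k86 k252 14 (.s k83 k92 2 (.d k243 k163 k162 11 12))))))]
  .n)

def s27_170_213 : T TT 256 :=
  (.q k1 [(.s k3 k2 0 (.s k161 k241 11 (.s k82 k240 12 (.s k83 k80 0 (.d k243 k163 k162 11 12))))),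
  (.s k89 k93 1 (.s k169 k253 13 (.s k9 k249 11 (.s k13 k5 1 (.d k241 k161 k165 11 13))))), (.s k3
  k2 0 (.s k89 k93 1 (.s k169 k253 13 (.s k86 k252 14 (.s k83 k92 2 (.d k243 k163 k162 11 12))))))]
  .n)

def s27_170_214 : T TT 256 :=
  (.q k1 [(.s k89 k93 1 (.s k169 k253 13 (.s k9 k249 11 (.s k13 k5 1 (.d k241 k161 k165 11 13))))),
  (.s k3 k2 0 (.s k161 k241 11 (.s k82 k240 12 (.s k83 k80 0 (.d k243 k163 k162 11 12))))), (.s k3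
  k2 0 (.s k89 k93 1 (.s k169 k253 13 (.s k86 k252 14 (.s k83 k92 2 (.d k243 k163 k162 11 12))))))]
  .n)

def s27_170_215 : T TT 256 :=
  (.q k1 [(.s k89 k93 1 (.s k169 k253 13 (.s k9 k249 11 (.s k13 k5 1 (.d k241 k161 k165 11 13))))),
  (.s k3 k2 0 (.s k161 k241 11 (.s k82 k240 12 (.s k83 k80 0 (.d k243 k163 k162 11 12))))), (.s k3
  k2 0 (.s k89 k93 1 (.s k169 k253 13 (.s k86 k252 14 (.s k83 k92 2 (.d k243 k163 k162 11 12))))))]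
  .n)

def s27_170_216 : T TT 256 :=
  (.q k90 [(.s k80 k95 2 (.s k83 k82 0 (.s k89 k93 1 (.s k88 k91 0 (.d k92 k84 k86 1 2))))), (.s k89
  k93 1 (.s k91 k88 0 (.s k243 k162 12 (.s k15 k167 13 (.s k5 k10 2 (.d k165 k245 k240 11 14)))))),
  (.s k80 k95 2 (.s k82 k83 0 (.s k162 k243 12 (.s k2 k242 11 (.s k3 k1 0 (.d k240 k160 k161 11
  12))))))] (.c k91 (.l (.s k80 k95 2 (.s k89 k93 1 (.s k240 k160 11 (.s k165 k15 14 (.s k241 k13 13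
  (.d k243 k242 k162 0 12))))))) .n))

def s27_170_217 : T TT 256 :=
  (.q k1 [(.s k89 k93 1 (.s k169 k253 13 (.s k9 k249 11 (.s k13 k5 1 (.d k241 k161 k165 11 13))))),
  (.s k3 k2 0 (.s k161 k241 11 (.s k82 k240 12 (.s k83 k80 0 (.d k243 k163 k162 11 12))))), (.s k3
  k2 0 (.s k89 k93 1 (.s k169 k253 13 (.s k86 k252 14 (.s k83 k92 2 (.d k243 k163 k162 11 12))))))]
  .n)

def s27_170_218 : T TT 256 :=
  (.q k1 [(.s k89 k93 1 (.s k169 k253 13 (.s k9 k249 11 (.s k13 k5 1 (.d k241 k161 k165 11 13))))),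
  (.s k3 k2 0 (.s k161 k241 11 (.s k82 k240 12 (.s k83 k80 0 (.d k243 k163 k162 11 12))))), (.s k3
  k2 0 (.s k89 k93 1 (.s k169 k253 13 (.s k86 k252 14 (.s k83 k92 2 (.d k243 k163 k162 11 12))))))]
  .n)

def s27_170_219 : T TT 256 :=
  (.f k89 k93 1 (.q k91 [(.s k90 k88 0 (.s k243 k162 12 (.s k15 k167 13 (.s k5 k10 2 (.d k165 k245
  k240 11 14))))), (.s k90 k88 0 (.s k80 k95 2 (.s k82 k83 0 (.s k240 k160 11 (.s k165 k15 14 (.s
  k241 k13 13 (.d k161 k1 k3 11 12))))))), (.s k243 k162 12 (.s k166 k12 14 (.s k167 k15 13 (.s k247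
  k4 12 (.s k87 k7 11 (.s k83 k95 1 (.d k86 k92 k84 2 0)))))))] (.c k15 (.l (.s k90 k88 0 (.s k80
  k95 2 (.s k240 k160 11 (.s k243 k162 12 (.s k166 k12 14 (.d k242 k14 k241 13 0))))))) .n)))

def s27_170_220 : T TT 256 :=
  (.q k1 [(.s k89 k93 1 (.s k169 k253 13 (.s k9 k249 11 (.s k13 k5 1 (.d k241 k161 k165 11 13))))),
  (.s k3 k2 0 (.s k161 k241 11 (.s k82 k240 12 (.s k83 k80 0 (.d k243 k163 k162 11 12))))), (.s k3
  k2 0 (.s k89 k93 1 (.s k169 k253 13 (.s k86 k252 14 (.s k83 k92 2 (.d k243 k163 k162 11 12))))))]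
  .n)

def s27_170_221 : T TT 256 :=
  (.q k1 [(.s k3 k2 0 (.s k161 k241 11 (.s k82 k240 12 (.s k83 k80 0 (.d k243 k163 k162 11 12))))),
  (.s k89 k93 1 (.s k169 k253 13 (.s k9 k249 11 (.s k13 k5 1 (.d k241 k161 k165 11 13))))), (.s k3
  k2 0 (.s k89 k93 1 (.s k169 k253 13 (.s k86 k252 14 (.s k83 k92 2 (.d k243 k163 k162 11 12))))))]
  .n)

def s27_170_222 : T TT 256 :=
  (.q k1 [(.s k89 k93 1 (.s k169 k253 13 (.s k9 k249 11 (.s k13 k5 1 (.d k241 k161 k165 11 13))))),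
  (.s k3 k2 0 (.s k161 k241 11 (.s k82 k240 12 (.s k83 k80 0 (.d k243 k163 k162 11 12))))), (.s k3
  k2 0 (.s k89 k93 1 (.s k169 k253 13 (.s k86 k252 14 (.s k83 k92 2 (.d k243 k163 k162 11 12))))))]
  .n)

def s27_170_223 : T TT 256 :=
  (.q k1 [(.s k3 k2 0 (.s k161 k241 11 (.s k82 k240 12 (.s k83 k80 0 (.d k243 k163 k162 11 12))))),
  (.s k89 k93 1 (.s k169 k253 13 (.s k9 k249 11 (.s k13 k5 1 (.d k241 k161 k165 11 13))))), (.s k3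
  k2 0 (.s k89 k93 1 (.s k169 k253 13 (.s k86 k252 14 (.s k83 k92 2 (.d k243 k163 k162 11 12))))))]
  .n)

def s27_170_224 : T TT 256 :=
  (.q k1 [(.s k89 k93 1 (.s k169 k253 13 (.s k9 k249 11 (.s k13 k5 1 (.d k241 k161 k165 11 13))))),
  (.s k3 k2 0 (.s k161 k241 11 (.s k82 k240 12 (.s k83 k80 0 (.d k243 k163 k162 11 12))))), (.s k3
  k2 0 (.s k89 k93 1 (.s k169 k253 13 (.s k86 k252 14 (.s k83 k92 2 (.d k243 k163 k162 11 12))))))]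
  .n)

def s27_170_225 : T TT 256 :=
  (.q k1 [(.s k89 k93 1 (.s k169 k253 13 (.s k9 k249 11 (.s k13 k5 1 (.d k241 k161 k165 11 13))))),
  (.s k3 k2 0 (.s k161 k241 11 (.s k82 k240 12 (.s k83 k80 0 (.d k243 k163 k162 11 12))))), (.s k3
  k2 0 (.s k89 k93 1 (.s k169 k253 13 (.s k86 k252 14 (.s k83 k92 2 (.d k243 k163 k162 11 12))))))]
  .n)

def s27_170_226 : T TT 256 :=
  (.q k1 [(.s k89 k93 1 (.s k169 k253 13 (.s k9 k249 11 (.s k13 k5 1 (.d k241 k161 k165 11 13))))),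
  (.s k3 k2 0 (.s k161 k241 11 (.s k82 k240 12 (.s k83 k80 0 (.d k243 k163 k162 11 12))))), (.s k3
  k2 0 (.s k89 k93 1 (.s k169 k253 13 (.s k86 k252 14 (.s k83 k92 2 (.d k243 k163 k162 11 12))))))]
  .n)

def s27_170_227 : T TT 256 :=
  (.q k1 [(.s k89 k93 1 (.s k169 k253 13 (.s k9 k249 11 (.s k13 k5 1 (.d k241 k161 k165 11 13))))),
  (.s k3 k2 0 (.s k161 k241 11 (.s k82 k240 12 (.s k83 k80 0 (.d k243 k163 k162 11 12))))), (.s k3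
  k2 0 (.s k89 k93 1 (.s k169 k253 13 (.s k86 k252 14 (.s k83 k92 2 (.d k243 k163 k162 11 12))))))]
  .n)

def s27_170_228 : T TT 256 :=
  (.q k1 [(.s k89 k93 1 (.s k169 k253 13 (.s k9 k249 11 (.s k13 k5 1 (.d k241 k161 k165 11 13))))),
  (.s k3 k2 0 (.s k161 k241 11 (.s k82 k240 12 (.s k83 k80 0 (.d k243 k163 k162 11 12))))), (.s k3
  k2 0 (.s k89 k93 1 (.s k169 k253 13 (.s k86 k252 14 (.s k83 k92 2 (.d k243 k163 k162 11 12))))))]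
  .n)

def s27_170_229 : T TT 256 :=
  (.q k1 [(.s k89 k93 1 (.s k169 k253 13 (.s k9 k249 11 (.s k13 k5 1 (.d k241 k161 k165 11 13))))),
  (.s k3 k2 0 (.s k161 k241 11 (.s k82 k240 12 (.s k83 k80 0 (.d k243 k163 k162 11 12))))), (.s k3
  k2 0 (.s k89 k93 1 (.s k169 k253 13 (.s k86 k252 14 (.s k83 k92 2 (.d k243 k163 k162 11 12))))))]
  .n)

def s27_170_230 : T TT 256 :=
  (.q k1 [(.s k89 k93 1 (.s k169 k253 13 (.s k9 k249 11 (.s k13 k5 1 (.d k241 k161 k165 11 13))))),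
  (.s k3 k2 0 (.s k161 k241 11 (.s k82 k240 12 (.s k83 k80 0 (.d k243 k163 k162 11 12))))), (.s k3
  k2 0 (.s k89 k93 1 (.s k169 k253 13 (.s k86 k252 14 (.s k83 k92 2 (.d k243 k163 k162 11 12))))))]
  .n)

def s27_170_231 : T TT 256 :=
  (.q k1 [(.s k89 k93 1 (.s k169 k253 13 (.s k9 k249 11 (.s k13 k5 1 (.d k241 k161 k165 11 13))))),
  (.s k3 k2 0 (.s k161 k241 11 (.s k82 k240 12 (.s k83 k80 0 (.d k243 k163 k162 11 12))))), (.s k3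
  k2 0 (.s k89 k93 1 (.s k169 k253 13 (.s k86 k252 14 (.s k83 k92 2 (.d k243 k163 k162 11 12))))))]
  .n)

def s27_170_232 : T TT 256 :=
  (.q k1 [(.s k89 k93 1 (.s k169 k253 13 (.s k9 k249 11 (.s k13 k5 1 (.d k241 k161 k165 11 13))))),
  (.s k3 k2 0 (.s k161 k241 11 (.s k82 k240 12 (.s k83 k80 0 (.d k243 k163 k162 11 12))))), (.s k3
  k2 0 (.s k89 k93 1 (.s k169 k253 13 (.s k86 k252 14 (.s k83 k92 2 (.d k243 k163 k162 11 12))))))]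
  .n)

def s27_170_233 : T TT 256 :=
  (.q k1 [(.s k3 k2 0 (.s k161 k241 11 (.s k82 k240 12 (.s k83 k80 0 (.d k243 k163 k162 11 12))))),
  (.s k89 k93 1 (.s k169 k253 13 (.s k9 k249 11 (.s k13 k5 1 (.d k241 k161 k165 11 13))))), (.s k3
  k2 0 (.s k89 k93 1 (.s k169 k253 13 (.s k86 k252 14 (.s k83 k92 2 (.d k243 k163 k162 11 12))))))]
  .n)

def s27_170_234 : T TT 256 :=
  (.q k106 [(.s k64 k127 6 (.s k89 k93 1 (.s k72 k123 4 (.s k76 k68 1 (.d k115 k98 k102 4 6))))),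
  (.s k89 k93 1 (.s k123 k72 4 (.s k243 k162 12 (.s k63 k183 9 (.s k21 k42 6 (.d k149 k213 k192 7
  14)))))), (.s k64 k127 6 (.s k98 k115 4 (.s k162 k243 12 (.s k34 k226 7 (.s k51 k17 4 (.d k192
  k128 k145 7 12))))))] (.c k123 (.l (.s k64 k127 6 (.s k89 k93 1 (.s k192 k128 7 (.s k149 k63 14
  (.s k209 k29 9 (.d k243 k226 k162 4 12))))))) .n))

def s27_170_235 : T TT 256 :=
  (.q k105 [(.s k65 k125 5 (.s k89 k93 1 (.s k73 k121 3 (.s k77 k69 1 (.d k113 k97 k101 3 5))))),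
  (.s k89 k93 1 (.s k121 k73 3 (.s k243 k162 12 (.s k60 k182 10 (.s k20 k40 5 (.d k150 k215 k195 8
  14)))))), (.s k65 k125 5 (.s k97 k113 3 (.s k162 k243 12 (.s k32 k227 8 (.s k48 k16 3 (.d k195
  k130 k146 8 12))))))] (.c k121 (.l (.s k65 k125 5 (.s k89 k93 1 (.s k195 k130 8 (.s k150 k60 14
  (.s k211 k28 10 (.d k243 k227 k162 3 12))))))) .n))

def s27_170_236 : T TT 256 :=
  (.q k1 [(.s k89 k93 1 (.s k169 k253 13 (.s k9 k249 11 (.s k13 k5 1 (.d k241 k161 k165 11 13))))),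
  (.s k3 k2 0 (.s k161 k241 11 (.s k82 k240 12 (.s k83 k80 0 (.d k243 k163 k162 11 12))))), (.s k3
  k2 0 (.s k89 k93 1 (.s k169 k253 13 (.s k86 k252 14 (.s k83 k92 2 (.d k243 k163 k162 11 12))))))]
  .n)

def s27_170_237 : T TT 256 :=
  (.q k1 [(.s k3 k2 0 (.s k161 k241 11 (.s k82 k240 12 (.s k83 k80 0 (.d k243 k163 k162 11 12))))),
  (.s k89 k93 1 (.s k169 k253 13 (.s k9 k249 11 (.s k13 k5 1 (.d k241 k161 k165 11 13))))), (.s k3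
  k2 0 (.s k89 k93 1 (.s k169 k253 13 (.s k86 k252 14 (.s k83 k92 2 (.d k243 k163 k162 11 12))))))]
  .n)

def s27_170_238 : T TT 256 :=
  (.f k89 k93 1 (.q k102 [(.s k115 k76 6 (.s k64 k98 4 (.s k119 k68 4 (.d k127 k123 k106 1 6)))),
  (.s k68 k119 4 (.s k204 k136 9 (.s k153 k51 14 (.s k217 k25 7 (.d k243 k230 k162 6 12))))), (.s
  k115 k76 6 (.s k243 k162 12 (.s k51 k179 7 (.s k17 k34 4 (.d k153 k221 k204 9 14)))))] .n))

def s27_170_239 : T TT 256 :=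
  (.f k89 k93 1 (.q k101 [(.s k113 k77 5 (.s k65 k97 3 (.s k117 k69 3 (.d k125 k121 k105 1 5)))),
  (.s k69 k117 3 (.s k207 k138 10 (.s k154 k48 14 (.s k219 k24 8 (.d k243 k231 k162 5 12))))), (.s
  k113 k77 5 (.s k243 k162 12 (.s k48 k178 8 (.s k16 k32 3 (.d k154 k223 k207 10 14)))))] .n))

def s27_170_240 : T TT 256 :=
  (.q k16 [(.s k89 k93 1 (.s k154 k223 10 (.s k24 k219 8 (.s k28 k20 1 (.d k211 k146 k150 8 10))))),
  (.s k48 k32 3 (.s k146 k211 8 (.s k97 k195 12 (.s k113 k65 3 (.d k243 k178 k162 8 12))))), (.s k48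
  k32 3 (.s k89 k93 1 (.s k154 k223 10 (.s k101 k207 14 (.s k113 k77 5 (.d k243 k178 k162 8
  12))))))] .n)

def s27_170_241 : T TT 256 :=
  (.q k16 [(.s k48 k32 3 (.s k146 k211 8 (.s k97 k195 12 (.s k113 k65 3 (.d k243 k178 k162 8
  12))))), (.s k89 k93 1 (.s k154 k223 10 (.s k24 k219 8 (.s k28 k20 1 (.d k211 k146 k150 8 10))))),
  (.s k48 k32 3 (.s k89 k93 1 (.s k154 k223 10 (.s k101 k207 14 (.s k113 k77 5 (.d k243 k178 k162 8
  12))))))] .n)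

def s27_170_242 : T TT 256 :=
  (.q k1 [(.s k89 k93 1 (.s k169 k253 13 (.s k9 k249 11 (.s k13 k5 1 (.d k241 k161 k165 11 13))))),
  (.s k3 k2 0 (.s k161 k241 11 (.s k82 k240 12 (.s k243 k162 12 (.d k83 k80 k163 0 11))))), (.s k3
  k2 0 (.s k89 k93 1 (.s k169 k253 13 (.s k86 k252 14 (.s k83 k92 2 (.d k243 k162 k163 12 11))))))]
  .n)

def s27_170_243 : T TT 256 :=
  (.f k89 k93 1 (.q k1 [(.s k241 k161 11 (.s k165 k13 13 (.s k245 k5 11 (.d k253 k249 k169 1 13)))),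
  (.s k3 k2 0 (.s k169 k253 13 (.s k86 k252 14 (.s k83 k92 2 (.s k80 k82 0 (.s k87 k84 0 (.d k95 k91
  k90 1 2))))))), (.s k3 k2 0 (.s k161 k241 11 (.s k240 k82 12 (.s k80 k160 11 (.s k90 k95 2 (.s
  k165 k15 14 (.d k169 k173 k253 1 13)))))))] (.c k169 (.f k3 k2 0 (.f k241 k161 11 (.f k165 k13 13
  (.l (.s k5 k245 11 (.s k15 k10 2 (.s k7 k11 1 (.s k86 k244 12 (.s k83 k92 2 (.s k80 k82 0 (.d k90
  k95 k240 2 14))))))))))) (.c k173 (.l (.s k241 k161 11 (.s k13 k165 13 (.s k169 k253 13 (.d k9 k5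
  k249 1 11))))) (.c k253 (.f k3 k2 0 (.f k161 k241 11 (.f k240 k82 12 (.l (.s k80 k160 11 (.s k90
  k95 2 (.s k88 k91 0 (.s k12 k164 13 (.s k8 k4 1 (.s k168 k248 11 (.d k84 k92 k252 1 13)))))))))))
  .n)))))

def s27_170_244 : T TT 256 :=
  (.q k1 [(.s k89 k93 1 (.s k169 k253 13 (.s k9 k249 11 (.s k13 k5 1 (.d k241 k161 k165 11 13))))),
  (.s k3 k2 0 (.s k161 k241 11 (.s k82 k240 12 (.s k83 k80 0 (.d k243 k163 k162 11 12))))), (.s k3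
  k2 0 (.s k89 k93 1 (.s k169 k253 13 (.s k86 k252 14 (.s k83 k92 2 (.d k243 k163 k162 11 12))))))]
  .n)

def s27_170_245 : T TT 256 :=
  (.q k1 [(.s k89 k93 1 (.s k169 k253 13 (.s k9 k249 11 (.s k241 k161 11 (.d k13 k5 k165 1 13))))),
  (.s k3 k2 0 (.s k243 k162 12 (.s k83 k163 11 (.s k82 k80 0 (.d k161 k241 k240 11 12)))))] (.c k161
  (.l (.s k3 k2 0 (.s k89 k93 1 (.s k169 k253 13 (.s k86 k252 14 (.s k83 k92 2 (.d k243 k163 k162 11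
  12))))))) (.c k241 (.l (.s k3 k2 0 (.s k89 k93 1 (.s k169 k253 13 (.s k249 k9 11 (.s k243 k162 12
  (.d k252 k86 k246 14 2))))))) .n)))

def s27_170_246 : T TT 256 :=
  (.q k1 [(.s k3 k2 0 (.s k161 k241 11 (.s k82 k240 12 (.s k83 k80 0 (.d k243 k163 k162 11 12))))),
  (.s k89 k93 1 (.s k169 k253 13 (.s k241 k161 11 (.s k13 k165 13 (.d k9 k5 k249 1 11))))), (.s k3
  k2 0 (.s k89 k93 1 (.s k169 k253 13 (.s k86 k252 14 (.s k83 k92 2 (.d k243 k163 k162 11 12))))))]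
  .n)

def s27_170_247 : T TT 256 :=
  (.q k1 [(.s k89 k93 1 (.s k169 k253 13 (.s k9 k249 11 (.s k13 k5 1 (.d k241 k161 k165 11 13))))),
  (.s k3 k2 0 (.s k161 k241 11 (.s k82 k240 12 (.s k83 k80 0 (.d k243 k163 k162 11 12))))), (.s k3
  k2 0 (.s k89 k93 1 (.s k169 k253 13 (.s k86 k252 14 (.s k83 k92 2 (.d k243 k163 k162 11 12))))))]
  .n)

def s27_170_248 : T TT 256 :=
  (.q k1 [(.s k3 k2 0 (.s k161 k241 11 (.s k162 k243 12 (.s k160 k163 0 (.d k240 k80 k82 11 12))))),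
  (.s k89 k93 1 (.s k169 k253 13 (.s k9 k249 11 (.s k13 k5 1 (.d k241 k161 k165 11 13))))), (.s k3
  k2 0 (.s k89 k93 1 (.s k169 k253 13 (.s k86 k252 14 (.s k83 k92 2 (.d k243 k163 k162 11 12))))))]
  .n)

def s27_170_249 : T TT 256 :=
  (.q k1 [(.s k3 k2 0 (.s k161 k241 11 (.s k82 k240 12 (.s k83 k80 0 (.d k243 k163 k162 11 12))))),
  (.s k89 k93 1 (.s k241 k161 11 (.s k13 k165 13 (.s k5 k9 1 (.s k15 k10 2 (.s k243 k162 12 (.d k12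
  k166 k14 14 0))))))), (.s k3 k2 0 (.s k89 k93 1 (.s k161 k241 11 (.s k82 k240 12 (.s k83 k80 0 (.s
  k86 k92 2 (.d k169 k253 k252 13 14)))))))] (.c k161 (.l (.s k3 k2 0 (.s k89 k93 1 (.s k169 k253 13
  (.s k86 k252 14 (.s k83 k92 2 (.d k243 k163 k162 11 12))))))) (.c k241 (.l (.s k3 k2 0 (.s k89 k93
  1 (.s k243 k162 12 (.s k83 k163 11 (.s k86 k92 2 (.d k169 k253 k252 13 14))))))) (.c k243 (.l (.s
  k3 k2 0 (.s k161 k241 11 (.s k240 k82 12 (.s k80 k160 11 (.s k90 k95 2 (.s k165 k15 14 (.d k169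
  k253 k173 13 1)))))))) .n))))

def s27_170_250 : T TT 256 :=
  (.q k90 [(.s k80 k95 2 (.s k83 k82 0 (.s k89 k93 1 (.s k88 k91 0 (.d k92 k84 k86 1 2))))), (.s k89
  k93 1 (.s k91 k88 0 (.s k243 k162 12 (.s k15 k167 13 (.s k5 k10 2 (.d k165 k245 k240 11 14)))))),
  (.s k80 k95 2 (.s k82 k83 0 (.s k162 k243 12 (.s k2 k242 11 (.s k3 k1 0 (.d k240 k160 k161 11
  12))))))] (.c k91 (.l (.s k80 k95 2 (.s k89 k93 1 (.s k240 k160 11 (.s k165 k15 14 (.s k241 k13 13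
  (.d k243 k242 k162 0 12))))))) .n))

def s27_170_251 : T TT 256 :=
  (.q k64 [(.s k89 k93 1 (.s k115 k98 4 (.s k102 k76 6 (.s k119 k68 4 (.d k127 k123 k106 1 6))))),
  (.s k98 k115 4 (.s k162 k243 12 (.s k34 k226 7 (.s k51 k17 4 (.d k192 k128 k145 7 12))))), (.s k89
  k93 1 (.s k106 k127 6 (.s k123 k72 4 (.s k192 k128 7 (.s k243 k162 12 (.d k63 k149 k183 14
  9))))))] (.c k8 (.l (.s k89 k93 1 (.s k106 k127 6 (.s k72 k123 4 (.s k76 k68 1 (.d k115 k98 k102 4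
  6)))))) (.c k89 (.q k8 [(.s k98 k115 4 (.s k192 k128 7 (.s k51 k145 12 (.s k34 k17 4 (.d k162 k226
  k243 7 12))))), (.s k12 k4 1 (.s k192 k128 7 (.s k72 k132 9 (.s k136 k200 7 (.d k68 k76 k204 1
  9))))), (.s k4 k12 1 (.s k98 k115 4 (.s k106 k127 6 (.s k166 k247 12 (.s k226 k46 9 (.d k162 k243
  k34 12 7))))))] (.c k76 (.l (.s k192 k128 7 (.s k243 k162 12 (.s k209 k226 4 (.s k145 k17 7 (.d
  k98 k115 k51 4 12)))))) .n)) .n)))

def s27_170_252 : T TT 256 :=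
  (.q k1 [(.s k89 k93 1 (.s k241 k161 11 (.s k13 k165 13 (.s k9 k5 1 (.d k169 k249 k253 11 13))))),
  (.s k3 k2 0 (.s k161 k241 11 (.s k82 k240 12 (.s k83 k80 0 (.d k243 k163 k162 11 12))))), (.s k3
  k2 0 (.s k89 k93 1 (.s k169 k253 13 (.s k243 k162 12 (.s k163 k83 11 (.d k166 k172 k12 2 14))))))]
  .n)

def s27_170_253 : T TT 256 :=
  (.q k16 [(.s k48 k32 3 (.s k146 k211 8 (.s k97 k195 12 (.s k113 k65 3 (.d k243 k178 k162 8
  12))))), (.s k89 k93 1 (.s k154 k223 10 (.s k24 k219 8 (.s k28 k20 1 (.d k211 k146 k150 8 10))))),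
  (.s k48 k32 3 (.s k89 k93 1 (.s k154 k223 10 (.s k101 k207 14 (.s k113 k77 5 (.d k243 k178 k162 8
  12))))))] .n)

def s27_170_254 : T TT 256 :=
  (.f k89 k93 1 (.q k86 [(.s k83 k92 2 (.s k80 k82 0 (.s k87 k84 0 (.d k95 k91 k90 1 2)))), (.s k84
  k87 0 (.s k243 k162 12 (.s k166 k12 14 (.s k246 k6 11 (.d k252 k249 k168 2 13))))), (.s k83 k92 2
  (.s k243 k162 12 (.s k3 k163 11 (.s k1 k2 0 (.d k169 k253 k252 13 14)))))] .n))

def s27_170_255 : T TT 256 :=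
  (.q k1 [(.s k3 k2 0 (.s k161 k241 11 (.s k82 k240 12 (.s k83 k80 0 (.d k243 k163 k162 11 12))))),
  (.s k89 k93 1 (.s k241 k161 11 (.s k13 k165 13 (.s k9 k5 1 (.d k169 k249 k253 11 13)))))] (.c k161
  (.l (.s k3 k2 0 (.s k89 k93 1 (.s k169 k253 13 (.s k9 k249 11 (.s k12 k6 2 (.d k243 k162 k166 12
  14))))))) (.c k241 (.l (.s k3 k2 0 (.s k89 k93 1 (.s k169 k253 13 (.s k243 k162 12 (.s k83 k163 11
  (.d k86 k252 k92 14 2))))))) .n)))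

def t27_170 : T TT 256 :=
  (.q k81 [] (.c k1 s27_170_1 (.c k2 s27_170_2 (.c k3 s27_170_3 (.c k4 s27_170_4 (.c k5 s27_170_5
  (.c k6 s27_170_6 (.c k7 s27_170_7 (.c k8 s27_170_8 (.c k9 s27_170_9 (.c k10 s27_170_10 (.c k11
  s27_170_11 (.c k12 s27_170_12 (.c k13 s27_170_13 (.c k14 s27_170_14 (.c k15 s27_170_15 (.c k16
  s27_170_16 (.c k17 s27_170_17 (.c k18 s27_170_18 (.c k19 s27_170_19 (.c k20 s27_170_20 (.c k21
  s27_170_21 (.c k22 s27_170_22 (.c k23 s27_170_23 (.c k24 s27_170_24 (.c k25 s27_170_25 (.c k26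
  s27_170_26 (.c k28 s27_170_28 (.c k29 s27_170_29 (.c k30 s27_170_30 (.c k31 s27_170_31 (.c k32
  s27_170_32 (.c k33 s27_170_33 (.c k34 s27_170_34 (.c k35 s27_170_35 (.c k36 s27_170_36 (.c k37
  s27_170_37 (.c k38 s27_170_38 (.c k39 s27_170_39 (.c k40 s27_170_40 (.c k41 s27_170_41 (.c k42
  s27_170_42 (.c k43 s27_170_43 (.c k44 s27_170_44 (.c k45 s27_170_45 (.c k46 s27_170_46 (.c k47
  s27_170_47 (.c k48 s27_170_48 (.c k49 s27_170_49 (.c k50 s27_170_50 (.c k51 s27_170_51 (.c k52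
  s27_170_52 (.c k53 s27_170_53 (.c k54 s27_170_54 (.c k55 s27_170_55 (.c k56 s27_170_56 (.c k57
  s27_170_57 (.c k58 s27_170_58 (.c k59 s27_170_59 (.c k60 s27_170_60 (.c k61 s27_170_61 (.c k62
  s27_170_62 (.c k63 s27_170_63 (.c k64 s27_170_64 (.c k65 s27_170_65 (.c k66 s27_170_66 (.c k67
  s27_170_67 (.c k68 s27_170_68 (.c k69 s27_170_69 (.c k70 s27_170_70 (.c k71 s27_170_71 (.c k72
  s27_170_72 (.c k73 s27_170_73 (.c k74 s27_170_74 (.c k75 s27_170_75 (.c k76 s27_170_76 (.c k77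
  s27_170_77 (.c k78 s27_170_78 (.c k79 s27_170_79 (.c k80 s27_170_80 (.c k82 s27_170_82 (.c k83
  s27_170_83 (.c k84 s27_170_84 (.c k86 s27_170_86 (.c k87 s27_170_87 (.c k88 s27_170_88 (.c k89
  s27_170_89 (.c k90 s27_170_90 (.c k91 s27_170_91 (.c k92 s27_170_92 (.c k93 s27_170_93 (.c k94
  s27_170_94 (.c k95 s27_170_95 (.c k96 s27_170_96 (.c k97 s27_170_97 (.c k98 s27_170_98 (.c k99
  s27_170_99 (.c k100 s27_170_100 (.c k101 s27_170_101 (.c k102 s27_170_102 (.c k103 s27_170_103 (.c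
  k104 s27_170_104 (.c k105 s27_170_105 (.c k106 s27_170_106 (.c k107 s27_170_107 (.c k108
  s27_170_108 (.c k109 s27_170_109 (.c k110 s27_170_110 (.c k111 s27_170_111 (.c k112 s27_170_112
  (.c k113 s27_170_113 (.c k114 s27_170_114 (.c k115 s27_170_115 (.c k116 s27_170_116 (.c k117
  s27_170_117 (.c k118 s27_170_118 (.c k119 s27_170_119 (.c k120 s27_170_120 (.c k121 s27_170_121
  (.c k122 s27_170_122 (.c k123 s27_170_123 (.c k124 s27_170_124 (.c k125 s27_170_125 (.c k126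
  s27_170_126 (.c k127 s27_170_127 (.c k128 s27_170_128 (.c k129 s27_170_129 (.c k130 s27_170_130
  (.c k131 s27_170_131 (.c k132 s27_170_132 (.c k133 s27_170_133 (.c k134 s27_170_134 (.c k135
  s27_170_135 (.c k136 s27_170_136 (.c k137 s27_170_137 (.c k138 s27_170_138 (.c k139 s27_170_139
  (.c k140 s27_170_140 (.c k141 s27_170_141 (.c k142 s27_170_142 (.c k143 s27_170_143 (.c k144
  s27_170_144 (.c k145 s27_170_145 (.c k146 s27_170_146 (.c k147 s27_170_147 (.c k148 s27_170_148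
  (.c k149 s27_170_149 (.c k150 s27_170_150 (.c k151 s27_170_151 (.c k152 s27_170_152 (.c k153
  s27_170_153 (.c k154 s27_170_154 (.c k155 s27_170_155 (.c k156 s27_170_156 (.c k157 s27_170_157
  (.c k158 s27_170_158 (.c k159 s27_170_159 (.c k160 s27_170_160 (.c k161 s27_170_161 (.c k162
  s27_170_162 (.c k163 s27_170_163 (.c k164 s27_170_164 (.c k165 s27_170_165 (.c k166 s27_170_166
  (.c k167 s27_170_167 (.c k168 s27_170_168 (.c k169 s27_170_169 (.c k171 s27_170_171 (.c k172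
  s27_170_172 (.c k173 s27_170_173 (.c k174 s27_170_174 (.c k175 s27_170_175 (.c k176 s27_170_176
  (.c k177 s27_170_177 (.c k178 s27_170_178 (.c k179 s27_170_179 (.c k180 s27_170_180 (.c k181
  s27_170_181 (.c k182 s27_170_182 (.c k183 s27_170_183 (.c k184 s27_170_184 (.c k185 s27_170_185
  (.c k186 s27_170_186 (.c k187 s27_170_187 (.c k188 s27_170_188 (.c k189 s27_170_189 (.c k190
  s27_170_190 (.c k191 s27_170_191 (.c k192 s27_170_192 (.c k193 s27_170_193 (.c k194 s27_170_194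
  (.c k195 s27_170_195 (.c k196 s27_170_196 (.c k197 s27_170_197 (.c k198 s27_170_198 (.c k199
  s27_170_199 (.c k200 s27_170_200 (.c k201 s27_170_201 (.c k202 s27_170_202 (.c k203 s27_170_203
  (.c k204 s27_170_204 (.c k205 s27_170_205 (.c k206 s27_170_206 (.c k207 s27_170_207 (.c k208
  s27_170_208 (.c k209 s27_170_209 (.c k210 s27_170_210 (.c k211 s27_170_211 (.c k212 s27_170_212
  (.c k213 s27_170_213 (.c k214 s27_170_214 (.c k215 s27_170_215 (.c k216 s27_170_216 (.c k217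
  s27_170_217 (.c k218 s27_170_218 (.c k219 s27_170_219 (.c k220 s27_170_220 (.c k221 s27_170_221
  (.c k222 s27_170_222 (.c k223 s27_170_223 (.c k224 s27_170_224 (.c k225 s27_170_225 (.c k226
  s27_170_226 (.c k227 s27_170_227 (.c k228 s27_170_228 (.c k229 s27_170_229 (.c k230 s27_170_230
  (.c k231 s27_170_231 (.c k232 s27_170_232 (.c k233 s27_170_233 (.c k234 s27_170_234 (.c k235
  s27_170_235 (.c k236 s27_170_236 (.c k237 s27_170_237 (.c k238 s27_170_238 (.c k239 s27_170_239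
  (.c k240 s27_170_240 (.c k241 s27_170_241 (.c k242 s27_170_242 (.c k243 s27_170_243 (.c k244
  s27_170_244 (.c k245 s27_170_245 (.c k246 s27_170_246 (.c k247 s27_170_247 (.c k248 s27_170_248
  (.c k249 s27_170_249 (.c k250 s27_170_250 (.c k251 s27_170_251 (.c k252 s27_170_252 (.c k253
  s27_170_253 (.c k254 s27_170_254 (.c k255 s27_170_255
  .n))))))))))))))))))))))))))))))))))))))))))))))))))))))))))))))))))))))))))))))))
  ))))))))))))))))))))))))))))))))))))))))))))))))))))))))))))))))))))))))))))))))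
  )))))))))))))))))))))))))))))))))))))))))))))))))))))))))))))))))))))))))))))))) ))))))))))))

def s42_170_1 : T TT 256 :=
  (.q k65 [(.s k64 k127 6 (.s k67 k66 0 (.s k105 k125 5 (.s k104 k107 0 (.d k124 k84 k86 5 6))))),
  (.s k64 k127 6 (.s k192 k128 7 (.s k195 k130 8 (.s k194 k193 0 (.s k150 k62 13 (.s k20 k215 8 (.d
  k60 k40 k105 5 14))))))), (.s k105 k125 5 (.s k107 k104 0 (.s k195 k130 8 (.s k63 k151 13 (.s k149
  k192 14 (.s k61 k193 13 (.d k60 k150 k62 14 0)))))))] (.c k105 (.l (.s k64 k127 6 (.s k66 k67 0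
  (.s k86 k126 5 (.s k192 k128 7 (.s k3 k129 8 (.s k252 k169 14 (.d k84 k87 k168 0 13)))))))) .n))

def s42_170_2 : T TT 256 :=
  (.f k64 k127 6 (.q k86 [(.s k66 k126 5 (.s k67 k65 0 (.s k84 k87 0 (.d k124 k104 k105 5 6)))), (.s
  k84 k87 0 (.s k192 k128 7 (.s k149 k63 14 (.s k212 k23 8 (.d k252 k232 k168 5 13))))), (.s k66
  k126 5 (.s k192 k128 7 (.s k3 k129 8 (.s k149 k63 14 (.s k212 k23 8 (.d k252 k232 k169 5 14))))))]
  (.c k22 (.q k62 [(.s k66 k126 5 (.s k67 k65 0 (.s k84 k87 0 (.d k124 k104 k105 5 6)))), (.s k84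
  k87 0 (.s k192 k128 7 (.s k149 k63 14 (.s k212 k23 8 (.d k252 k232 k168 5 13))))), (.s k66 k126 5
  (.s k192 k128 7 (.s k194 k150 13 (.s k195 k193 0 (.d k65 k130 k67 8 0)))))] (.c k67 (.l (.s k66
  k126 5 (.s k192 k128 7 (.s k3 k129 8 (.s k252 k169 14 (.d k84 k168 k87 13 0)))))) .n)) (.c k62 (.q
  k22 [(.s k66 k126 5 (.s k67 k65 0 (.s k84 k87 0 (.d k124 k104 k105 5 6)))), (.s k192 k128 7 (.s
  k149 k63 14 (.s k21 k213 7 (.d k23 k20 k212 0 8))))] .n) .n))))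

def s42_170_3 : T TT 256 :=
  (.q k68 [(.s k64 k127 6 (.s k76 k72 1 (.s k102 k119 4 (.s k98 k110 1 (.d k115 k81 k89 4 6))))),
  (.s k102 k119 4 (.s k110 k98 1 (.s k204 k136 9 (.s k63 k157 12 (.s k149 k192 14 (.s k55 k196 12
  (.d k51 k153 k59 14 1))))))), (.s k64 k127 6 (.s k72 k76 1 (.s k136 k204 9 (.s k8 k200 7 (.s k12
  k4 1 (.d k192 k128 k132 7 9))))))] (.c k110 (.l (.s k64 k127 6 (.s k102 k119 4 (.s k192 k128 7 (.s
  k149 k63 14 (.s k196 k55 12 (.d k204 k200 k136 1 9))))))) .n))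

def s42_170_4 : T TT 256 :=
  (.q k65 [(.s k64 k127 6 (.s k67 k66 0 (.s k105 k125 5 (.s k104 k107 0 (.d k124 k84 k86 5 6))))),
  (.s k105 k125 5 (.s k107 k104 0 (.s k195 k130 8 (.s k63 k151 13 (.s k149 k192 14 (.s k61 k193 13
  (.d k60 k150 k62 14 0))))))), (.s k64 k127 6 (.s k66 k67 0 (.s k130 k195 8 (.s k2 k194 7 (.s k3 k1
  0 (.d k192 k128 k129 7 8))))))] (.c k107 (.l (.s k64 k127 6 (.s k105 k125 5 (.s k192 k128 7 (.s
  k149 k63 14 (.s k193 k61 13 (.d k195 k194 k130 0 8))))))) .n))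

def s42_170_5 : T TT 256 :=
  (.q k65 [(.s k64 k127 6 (.s k67 k66 0 (.s k105 k125 5 (.s k104 k107 0 (.d k124 k84 k86 5 6))))),
  (.s k105 k125 5 (.s k107 k104 0 (.s k195 k130 8 (.s k63 k151 13 (.s k149 k192 14 (.s k61 k193 13
  (.d k60 k150 k62 14 0))))))), (.s k64 k127 6 (.s k66 k67 0 (.s k130 k195 8 (.s k2 k194 7 (.s k3 k1
  0 (.d k192 k128 k129 7 8))))))] (.c k107 (.l (.s k64 k127 6 (.s k105 k125 5 (.s k192 k128 7 (.s
  k149 k63 14 (.s k193 k61 13 (.d k195 k194 k130 0 8))))))) .n))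

def s42_170_6 : T TT 256 :=
  (.q k65 [(.s k64 k127 6 (.s k67 k66 0 (.s k105 k125 5 (.s k104 k107 0 (.d k124 k84 k86 5 6))))),
  (.s k105 k125 5 (.s k107 k104 0 (.s k195 k130 8 (.s k63 k151 13 (.s k149 k192 14 (.s k61 k193 13
  (.d k60 k150 k62 14 0))))))), (.s k64 k127 6 (.s k66 k67 0 (.s k130 k195 8 (.s k2 k194 7 (.s k3 k1
  0 (.d k192 k128 k129 7 8))))))] (.c k107 (.l (.s k64 k127 6 (.s k105 k125 5 (.s k192 k128 7 (.s
  k149 k63 14 (.s k193 k61 13 (.d k195 k194 k130 0 8))))))) .n))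

def s42_170_7 : T TT 256 :=
  (.q k65 [(.s k64 k127 6 (.s k67 k66 0 (.s k105 k125 5 (.s k104 k107 0 (.d k124 k84 k86 5 6))))),
  (.s k105 k125 5 (.s k107 k104 0 (.s k195 k130 8 (.s k63 k151 13 (.s k149 k192 14 (.s k61 k193 13
  (.d k60 k150 k62 14 0))))))), (.s k64 k127 6 (.s k66 k67 0 (.s k130 k195 8 (.s k2 k194 7 (.s k3 k1
  0 (.d k192 k128 k129 7 8))))))] (.c k107 (.l (.s k64 k127 6 (.s k105 k125 5 (.s k192 k128 7 (.s
  k149 k63 14 (.s k193 k61 13 (.d k195 k194 k130 0 8))))))) .n))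

def s42_170_8 : T TT 256 :=
  (.f k64 k127 6 (.q k89 [(.s k72 k123 4 (.s k76 k68 1 (.s k81 k93 1 (.d k115 k98 k102 4 6)))), (.s
  k81 k93 1 (.s k192 k128 7 (.s k149 k63 14 (.s k209 k29 9 (.d k243 k226 k162 4 12))))), (.s k72
  k123 4 (.s k192 k128 7 (.s k12 k132 9 (.s k149 k63 14 (.s k209 k29 9 (.d k243 k226 k166 4
  14))))))] (.c k25 (.q k59 [(.s k72 k123 4 (.s k76 k68 1 (.s k81 k93 1 (.d k115 k98 k102 4 6)))),
  (.s k81 k93 1 (.s k192 k128 7 (.s k149 k63 14 (.s k209 k29 9 (.d k243 k226 k162 4 12))))), (.s k72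
  k123 4 (.s k192 k128 7 (.s k200 k153 12 (.s k204 k196 1 (.d k68 k136 k76 9 1)))))] (.c k76 (.l (.s
  k72 k123 4 (.s k192 k128 7 (.s k12 k132 9 (.s k243 k166 14 (.d k81 k162 k93 12 1)))))) .n)) (.c
  k59 (.q k25 [(.s k72 k123 4 (.s k76 k68 1 (.s k81 k93 1 (.d k115 k98 k102 4 6)))), (.s k192 k128 7
  (.s k149 k63 14 (.s k21 k213 7 (.d k29 k17 k209 1 9))))] .n) .n))))

def s42_170_9 : T TT 256 :=
  (.q k65 [(.s k64 k127 6 (.s k67 k66 0 (.s k105 k125 5 (.s k104 k107 0 (.d k124 k84 k86 5 6))))),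
  (.s k105 k125 5 (.s k107 k104 0 (.s k195 k130 8 (.s k63 k151 13 (.s k149 k192 14 (.s k61 k193 13
  (.d k60 k150 k62 14 0))))))), (.s k64 k127 6 (.s k66 k67 0 (.s k130 k195 8 (.s k2 k194 7 (.s k3 k1
  0 (.d k192 k128 k129 7 8))))))] (.c k107 (.l (.s k64 k127 6 (.s k105 k125 5 (.s k192 k128 7 (.s
  k149 k63 14 (.s k193 k61 13 (.d k195 k194 k130 0 8))))))) .n))

def s42_170_10 : T TT 256 :=
  (.f k64 k127 6 (.q k90 [(.s k74 k122 3 (.s k79 k69 2 (.s k80 k95 2 (.d k112 k96 k101 3 6)))), (.s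
  k80 k95 2 (.s k192 k128 7 (.s k149 k63 14 (.s k208 k31 10 (.d k240 k224 k160 3 11))))), (.s k74
  k122 3 (.s k192 k128 7 (.s k15 k133 10 (.s k149 k63 14 (.s k208 k31 10 (.d k240 k224 k165 3
  14))))))] (.c k26 (.q k58 [(.s k74 k122 3 (.s k79 k69 2 (.s k80 k95 2 (.d k112 k96 k101 3 6)))),
  (.s k80 k95 2 (.s k192 k128 7 (.s k149 k63 14 (.s k208 k31 10 (.d k240 k224 k160 3 11))))), (.s
  k74 k122 3 (.s k192 k128 7 (.s k202 k154 11 (.s k207 k197 2 (.d k69 k138 k79 10 2)))))] (.c k79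
  (.l (.s k74 k122 3 (.s k192 k128 7 (.s k15 k133 10 (.s k240 k165 14 (.d k80 k160 k95 11 2))))))
  .n)) (.c k58 (.q k26 [(.s k74 k122 3 (.s k79 k69 2 (.s k80 k95 2 (.d k112 k96 k101 3 6)))), (.s
  k192 k128 7 (.s k149 k63 14 (.s k21 k213 7 (.d k31 k16 k208 2 10))))] .n) .n))))

def s42_170_11 : T TT 256 :=
  (.q k65 [(.s k64 k127 6 (.s k67 k66 0 (.s k105 k125 5 (.s k104 k107 0 (.d k124 k84 k86 5 6))))),
  (.s k105 k125 5 (.s k107 k104 0 (.s k195 k130 8 (.s k63 k151 13 (.s k149 k192 14 (.s k61 k193 13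
  (.d k60 k150 k62 14 0))))))), (.s k64 k127 6 (.s k66 k67 0 (.s k130 k195 8 (.s k2 k194 7 (.s k3 k1
  0 (.d k192 k128 k129 7 8))))))] (.c k107 (.l (.s k64 k127 6 (.s k105 k125 5 (.s k192 k128 7 (.s
  k149 k63 14 (.s k193 k61 13 (.d k195 k194 k130 0 8))))))) .n))

def s42_170_12 : T TT 256 :=
  (.q k65 [(.s k64 k127 6 (.s k67 k66 0 (.s k105 k125 5 (.s k104 k107 0 (.d k124 k84 k86 5 6))))),
  (.s k105 k125 5 (.s k107 k104 0 (.s k195 k130 8 (.s k63 k151 13 (.s k149 k192 14 (.s k61 k193 13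
  (.d k60 k150 k62 14 0))))))), (.s k64 k127 6 (.s k66 k67 0 (.s k130 k195 8 (.s k2 k194 7 (.s k3 k1
  0 (.d k192 k128 k129 7 8))))))] (.c k107 (.l (.s k64 k127 6 (.s k105 k125 5 (.s k192 k128 7 (.s
  k149 k63 14 (.s k193 k61 13 (.d k195 k194 k130 0 8))))))) .n))

def s42_170_13 : T TT 256 :=
  (.q k65 [(.s k64 k127 6 (.s k67 k66 0 (.s k105 k125 5 (.s k104 k107 0 (.d k124 k84 k86 5 6))))),
  (.s k105 k125 5 (.s k107 k104 0 (.s k195 k130 8 (.s k63 k151 13 (.s k149 k192 14 (.s k61 k193 13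
  (.d k60 k150 k62 14 0))))))), (.s k64 k127 6 (.s k66 k67 0 (.s k130 k195 8 (.s k2 k194 7 (.s k3 k1
  0 (.d k192 k128 k129 7 8))))))] (.c k107 (.l (.s k64 k127 6 (.s k105 k125 5 (.s k192 k128 7 (.s
  k149 k63 14 (.s k193 k61 13 (.d k195 k194 k130 0 8))))))) .n))

def s42_170_14 : T TT 256 :=
  (.q k65 [(.s k64 k127 6 (.s k67 k66 0 (.s k105 k125 5 (.s k104 k107 0 (.d k124 k84 k86 5 6))))),
  (.s k105 k125 5 (.s k107 k104 0 (.s k195 k130 8 (.s k63 k151 13 (.s k149 k192 14 (.s k61 k193 13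
  (.d k60 k150 k62 14 0))))))), (.s k64 k127 6 (.s k66 k67 0 (.s k130 k195 8 (.s k2 k194 7 (.s k3 k1
  0 (.d k192 k128 k129 7 8))))))] (.c k107 (.l (.s k64 k127 6 (.s k105 k125 5 (.s k192 k128 7 (.s
  k149 k63 14 (.s k193 k61 13 (.d k195 k194 k130 0 8))))))) .n))

def s42_170_15 : T TT 256 :=
  (.q k65 [(.s k64 k127 6 (.s k67 k66 0 (.s k105 k125 5 (.s k104 k107 0 (.d k124 k84 k86 5 6))))),
  (.s k105 k125 5 (.s k107 k104 0 (.s k195 k130 8 (.s k63 k151 13 (.s k149 k192 14 (.s k61 k193 13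
  (.d k60 k150 k62 14 0))))))), (.s k64 k127 6 (.s k66 k67 0 (.s k130 k195 8 (.s k2 k194 7 (.s k3 k1
  0 (.d k192 k128 k129 7 8))))))] (.c k107 (.l (.s k64 k127 6 (.s k105 k125 5 (.s k192 k128 7 (.s
  k149 k63 14 (.s k193 k61 13 (.d k195 k194 k130 0 8))))))) .n))

def s42_170_16 : T TT 256 :=
  (.q k65 [(.s k64 k127 6 (.s k67 k66 0 (.s k105 k125 5 (.s k104 k107 0 (.d k124 k84 k86 5 6))))),
  (.s k105 k125 5 (.s k107 k104 0 (.s k195 k130 8 (.s k63 k151 13 (.s k149 k192 14 (.s k61 k193 13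
  (.d k60 k150 k62 14 0))))))), (.s k64 k127 6 (.s k66 k67 0 (.s k130 k195 8 (.s k2 k194 7 (.s k3 k1
  0 (.d k192 k128 k129 7 8))))))] (.c k107 (.l (.s k64 k127 6 (.s k105 k125 5 (.s k192 k128 7 (.s
  k149 k63 14 (.s k193 k61 13 (.d k195 k194 k130 0 8))))))) .n))

def s42_170_17 : T TT 256 :=
  (.q k65 [(.s k64 k127 6 (.s k67 k66 0 (.s k105 k125 5 (.s k104 k107 0 (.d k124 k84 k86 5 6))))),
  (.s k105 k125 5 (.s k107 k104 0 (.s k195 k130 8 (.s k63 k151 13 (.s k149 k192 14 (.s k61 k193 13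
  (.d k60 k150 k62 14 0))))))), (.s k64 k127 6 (.s k66 k67 0 (.s k130 k195 8 (.s k2 k194 7 (.s k3 k1
  0 (.d k192 k128 k129 7 8))))))] (.c k107 (.l (.s k64 k127 6 (.s k105 k125 5 (.s k192 k128 7 (.s
  k149 k63 14 (.s k193 k61 13 (.d k195 k194 k130 0 8))))))) .n))

def s42_170_18 : T TT 256 :=
  (.q k65 [(.s k64 k127 6 (.s k67 k66 0 (.s k105 k125 5 (.s k104 k107 0 (.d k124 k84 k86 5 6))))),
  (.s k105 k125 5 (.s k107 k104 0 (.s k195 k130 8 (.s k63 k151 13 (.s k149 k192 14 (.s k61 k193 13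
  (.d k60 k150 k62 14 0))))))), (.s k64 k127 6 (.s k66 k67 0 (.s k130 k195 8 (.s k2 k194 7 (.s k3 k1
  0 (.d k192 k128 k129 7 8))))))] (.c k107 (.l (.s k64 k127 6 (.s k105 k125 5 (.s k192 k128 7 (.s
  k149 k63 14 (.s k193 k61 13 (.d k195 k194 k130 0 8))))))) .n))

def s42_170_19 : T TT 256 :=
  (.q k65 [(.s k64 k127 6 (.s k67 k66 0 (.s k105 k125 5 (.s k104 k107 0 (.d k124 k84 k86 5 6))))),
  (.s k105 k125 5 (.s k107 k104 0 (.s k195 k130 8 (.s k63 k151 13 (.s k149 k192 14 (.s k61 k193 13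
  (.d k60 k150 k62 14 0))))))), (.s k64 k127 6 (.s k66 k67 0 (.s k130 k195 8 (.s k2 k194 7 (.s k3 k1
  0 (.d k192 k128 k129 7 8))))))] (.c k107 (.l (.s k64 k127 6 (.s k105 k125 5 (.s k192 k128 7 (.s
  k149 k63 14 (.s k193 k61 13 (.d k195 k194 k130 0 8))))))) .n))

def s42_170_20 : T TT 256 :=
  (.q k65 [(.s k64 k127 6 (.s k67 k66 0 (.s k105 k125 5 (.s k104 k107 0 (.d k124 k84 k86 5 6))))),
  (.s k105 k125 5 (.s k107 k104 0 (.s k195 k130 8 (.s k63 k151 13 (.s k149 k192 14 (.s k61 k193 13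
  (.d k60 k150 k62 14 0))))))), (.s k64 k127 6 (.s k66 k67 0 (.s k130 k195 8 (.s k2 k194 7 (.s k3 k1
  0 (.d k192 k128 k129 7 8))))))] (.c k107 (.l (.s k64 k127 6 (.s k105 k125 5 (.s k192 k128 7 (.s
  k149 k63 14 (.s k193 k61 13 (.d k195 k194 k130 0 8))))))) .n))

def s42_170_21 : T TT 256 :=
  (.q k65 [(.s k64 k127 6 (.s k67 k66 0 (.s k105 k125 5 (.s k104 k107 0 (.d k124 k84 k86 5 6))))),
  (.s k105 k125 5 (.s k107 k104 0 (.s k195 k130 8 (.s k63 k151 13 (.s k149 k192 14 (.s k61 k193 13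
  (.d k60 k150 k62 14 0))))))), (.s k64 k127 6 (.s k66 k67 0 (.s k130 k195 8 (.s k2 k194 7 (.s k3 k1
  0 (.d k192 k128 k129 7 8))))))] (.c k107 (.l (.s k64 k127 6 (.s k105 k125 5 (.s k192 k128 7 (.s
  k149 k63 14 (.s k193 k61 13 (.d k195 k194 k130 0 8))))))) .n))

def s42_170_22 : T TT 256 :=
  (.f k64 k127 6 (.q k150 [(.s k20 k215 8 (.s k60 k40 5 (.s k62 k194 13 (.s k63 k61 0 (.d k192 k128
  k149 7 14))))), (.s k192 k128 7 (.s k149 k63 14 (.s k151 k148 0 (.s k213 k21 7 (.s k215 k20 8 (.s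
  k23 k87 7 (.d k212 k214 k86 0 8))))))), (.s k20 k215 8 (.s k60 k40 5 (.s k105 k195 14 (.s k65 k125
  5 (.s k67 k66 0 (.s k104 k107 0 (.d k124 k84 k86 5 6))))))), (.s k192 k128 7 (.s k149 k63 14 (.s
  k148 k151 0 (.s k60 k104 13 (.s k195 k105 14 (.d k194 k62 k193 13 0))))))] (.c k2 (.l (.s k62 k194
  13 (.s k20 k215 8 (.s k60 k40 5 (.s k63 k61 0 (.d k192 k128 k149 7 14)))))) (.c k62 (.q k2 [(.s k3
  k1 0 (.s k192 k128 7 (.s k66 k129 8 (.s k130 k194 7 (.d k65 k67 k195 0 8))))), (.s k20 k215 8 (.s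
  k60 k40 5 (.s k105 k195 14 (.s k104 k107 0 (.s k84 k124 5 (.d k148 k212 k192 7 13)))))), (.s k20
  k215 8 (.s k60 k40 5 (.s k192 k128 7 (.s k148 k104 13 (.d k149 k151 k63 0 14)))))] (.c k192 (.l
  (.s k20 k215 8 (.s k60 k40 5 (.s k105 k195 14 (.s k65 k125 5 (.s k67 k66 0 (.s k104 k107 0 (.d
  k124 k84 k86 5 6)))))))) .n)) (.c k63 (.l (.s k20 k215 8 (.s k60 k40 5 (.s k105 k195 14 (.s k192
  k128 7 (.d k104 k107 k148 0 13)))))) .n)))))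

def s42_170_23 : T TT 256 :=
  (.q k65 [(.s k64 k127 6 (.s k67 k66 0 (.s k105 k125 5 (.s k104 k107 0 (.d k124 k84 k86 5 6))))),
  (.s k105 k125 5 (.s k107 k104 0 (.s k195 k130 8 (.s k63 k151 13 (.s k149 k192 14 (.s k61 k193 13
  (.d k60 k150 k62 14 0))))))), (.s k64 k127 6 (.s k66 k67 0 (.s k130 k195 8 (.s k2 k194 7 (.s k3 k1
  0 (.d k192 k128 k129 7 8))))))] (.c k107 (.l (.s k64 k127 6 (.s k105 k125 5 (.s k192 k128 7 (.s
  k149 k63 14 (.s k193 k61 13 (.d k195 k194 k130 0 8))))))) .n))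

def s42_170_24 : T TT 256 :=
  (.q k65 [(.s k64 k127 6 (.s k67 k66 0 (.s k105 k125 5 (.s k104 k107 0 (.d k124 k84 k86 5 6))))),
  (.s k105 k125 5 (.s k107 k104 0 (.s k195 k130 8 (.s k63 k151 13 (.s k149 k192 14 (.s k61 k193 13
  (.d k60 k150 k62 14 0))))))), (.s k64 k127 6 (.s k66 k67 0 (.s k130 k195 8 (.s k2 k194 7 (.s k3 k1
  0 (.d k192 k128 k129 7 8))))))] (.c k107 (.l (.s k64 k127 6 (.s k105 k125 5 (.s k192 k128 7 (.s
  k149 k63 14 (.s k193 k61 13 (.d k195 k194 k130 0 8))))))) .n))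

def s42_170_25 : T TT 256 :=
  (.f k64 k127 6 (.q k153 [(.s k17 k221 9 (.s k51 k34 4 (.s k59 k200 12 (.s k63 k55 1 (.d k192 k128
  k149 7 14))))), (.s k192 k128 7 (.s k149 k63 14 (.s k157 k145 1 (.s k213 k21 7 (.s k221 k17 9 (.s
  k29 k93 7 (.d k209 k217 k89 1 9))))))), (.s k17 k221 9 (.s k51 k34 4 (.s k102 k204 14 (.s k68 k119
  4 (.s k76 k72 1 (.s k98 k110 1 (.d k115 k81 k89 4 6))))))), (.s k192 k128 7 (.s k149 k63 14 (.s
  k145 k157 1 (.s k51 k98 12 (.s k204 k102 14 (.d k200 k59 k196 12 1))))))] (.c k8 (.l (.s k59 k200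
  12 (.s k17 k221 9 (.s k51 k34 4 (.s k63 k55 1 (.d k192 k128 k149 7 14)))))) (.c k59 (.q k8 [(.s
  k12 k4 1 (.s k192 k128 7 (.s k72 k132 9 (.s k136 k200 7 (.d k68 k76 k204 1 9))))), (.s k17 k221 9
  (.s k51 k34 4 (.s k102 k204 14 (.s k98 k110 1 (.s k81 k115 4 (.d k145 k209 k192 7 12)))))), (.s
  k17 k221 9 (.s k51 k34 4 (.s k192 k128 7 (.s k145 k98 12 (.d k149 k157 k63 1 14)))))] (.c k192 (.l
  (.s k17 k221 9 (.s k51 k34 4 (.s k102 k204 14 (.s k68 k119 4 (.s k76 k72 1 (.s k98 k110 1 (.d k115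
  k81 k89 4 6)))))))) .n)) (.c k63 (.l (.s k17 k221 9 (.s k51 k34 4 (.s k102 k204 14 (.s k192 k128 7
  (.d k98 k110 k145 1 12)))))) .n)))))

def s42_170_26 : T TT 256 :=
  (.f k64 k127 6 (.q k154 [(.s k16 k223 10 (.s k48 k32 3 (.s k58 k202 11 (.s k63 k53 2 (.d k192 k128
  k149 7 14))))), (.s k192 k128 7 (.s k149 k63 14 (.s k159 k144 2 (.s k213 k21 7 (.s k223 k16 10 (.s
  k31 k95 7 (.d k208 k218 k90 2 10))))))), (.s k16 k223 10 (.s k48 k32 3 (.s k101 k207 14 (.s k69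
  k117 3 (.s k79 k74 2 (.s k96 k111 2 (.d k112 k80 k90 3 6))))))), (.s k192 k128 7 (.s k149 k63 14
  (.s k144 k159 2 (.s k48 k96 11 (.s k207 k101 14 (.d k202 k58 k197 11 2))))))] (.c k10 (.l (.s k58
  k202 11 (.s k16 k223 10 (.s k48 k32 3 (.s k63 k53 2 (.d k192 k128 k149 7 14)))))) (.c k58 (.q k10
  [(.s k15 k5 2 (.s k192 k128 7 (.s k74 k133 10 (.s k138 k202 7 (.d k69 k79 k207 2 10))))), (.s k16
  k223 10 (.s k48 k32 3 (.s k101 k207 14 (.s k96 k111 2 (.s k80 k112 3 (.d k144 k208 k192 7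
  11)))))), (.s k16 k223 10 (.s k48 k32 3 (.s k192 k128 7 (.s k144 k96 11 (.d k149 k159 k63 2
  14)))))] (.c k192 (.l (.s k16 k223 10 (.s k48 k32 3 (.s k101 k207 14 (.s k69 k117 3 (.s k79 k74 2
  (.s k96 k111 2 (.d k112 k80 k90 3 6)))))))) .n)) (.c k63 (.l (.s k16 k223 10 (.s k48 k32 3 (.s
  k101 k207 14 (.s k192 k128 7 (.d k96 k111 k144 2 11)))))) .n)))))

def s42_170_27 : T TT 256 :=
  (.q k65 [(.s k64 k127 6 (.s k67 k66 0 (.s k105 k125 5 (.s k104 k107 0 (.d k124 k84 k86 5 6))))),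
  (.s k105 k125 5 (.s k107 k104 0 (.s k195 k130 8 (.s k63 k151 13 (.s k149 k192 14 (.s k61 k193 13
  (.d k60 k150 k62 14 0))))))), (.s k64 k127 6 (.s k66 k67 0 (.s k130 k195 8 (.s k2 k194 7 (.s k3 k1
  0 (.d k192 k128 k129 7 8))))))] (.c k107 (.l (.s k64 k127 6 (.s k105 k125 5 (.s k192 k128 7 (.s
  k149 k63 14 (.s k193 k61 13 (.d k195 k194 k130 0 8))))))) .n))

def s42_170_28 : T TT 256 :=
  (.q k65 [(.s k64 k127 6 (.s k67 k66 0 (.s k105 k125 5 (.s k104 k107 0 (.d k124 k84 k86 5 6))))),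
  (.s k105 k125 5 (.s k107 k104 0 (.s k195 k130 8 (.s k63 k151 13 (.s k149 k192 14 (.s k61 k193 13
  (.d k60 k150 k62 14 0))))))), (.s k64 k127 6 (.s k66 k67 0 (.s k130 k195 8 (.s k2 k194 7 (.s k3 k1
  0 (.d k192 k128 k129 7 8))))))] (.c k107 (.l (.s k64 k127 6 (.s k105 k125 5 (.s k192 k128 7 (.s
  k149 k63 14 (.s k193 k61 13 (.d k195 k194 k130 0 8))))))) .n))

def s42_170_29 : T TT 256 :=
  (.q k65 [(.s k64 k127 6 (.s k67 k66 0 (.s k105 k125 5 (.s k104 k107 0 (.d k124 k84 k86 5 6))))),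
  (.s k105 k125 5 (.s k107 k104 0 (.s k195 k130 8 (.s k63 k151 13 (.s k149 k192 14 (.s k61 k193 13
  (.d k60 k150 k62 14 0))))))), (.s k64 k127 6 (.s k66 k67 0 (.s k130 k195 8 (.s k2 k194 7 (.s k3 k1
  0 (.d k192 k128 k129 7 8))))))] (.c k107 (.l (.s k64 k127 6 (.s k105 k125 5 (.s k192 k128 7 (.s
  k149 k63 14 (.s k193 k61 13 (.d k195 k194 k130 0 8))))))) .n))

def s42_170_30 : T TT 256 :=
  (.q k65 [(.s k64 k127 6 (.s k67 k66 0 (.s k105 k125 5 (.s k104 k107 0 (.d k124 k84 k86 5 6))))),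
  (.s k105 k125 5 (.s k107 k104 0 (.s k195 k130 8 (.s k63 k151 13 (.s k149 k192 14 (.s k61 k193 13
  (.d k60 k150 k62 14 0))))))), (.s k64 k127 6 (.s k66 k67 0 (.s k130 k195 8 (.s k2 k194 7 (.s k3 k1
  0 (.d k192 k128 k129 7 8))))))] (.c k107 (.l (.s k64 k127 6 (.s k105 k125 5 (.s k192 k128 7 (.s
  k149 k63 14 (.s k193 k61 13 (.d k195 k194 k130 0 8))))))) .n))

def s42_170_31 : T TT 256 :=
  (.q k65 [(.s k64 k127 6 (.s k67 k66 0 (.s k105 k125 5 (.s k104 k107 0 (.d k124 k84 k86 5 6))))),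
  (.s k105 k125 5 (.s k107 k104 0 (.s k195 k130 8 (.s k63 k151 13 (.s k149 k192 14 (.s k61 k193 13
  (.d k60 k150 k62 14 0))))))), (.s k64 k127 6 (.s k66 k67 0 (.s k130 k195 8 (.s k2 k194 7 (.s k3 k1
  0 (.d k192 k128 k129 7 8))))))] (.c k107 (.l (.s k64 k127 6 (.s k105 k125 5 (.s k192 k128 7 (.s
  k149 k63 14 (.s k193 k61 13 (.d k195 k194 k130 0 8))))))) .n))

def s42_170_32 : T TT 256 :=
  (.f k64 k127 6 (.q k101 [(.s k69 k117 3 (.s k79 k74 2 (.s k96 k111 2 (.d k112 k80 k90 3 6)))), (.s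
  k96 k111 2 (.s k192 k128 7 (.s k48 k144 11 (.s k149 k63 14 (.s k197 k53 11 (.d k207 k202 k154 2
  14)))))), (.s k69 k117 3 (.s k192 k128 7 (.s k149 k63 14 (.s k197 k53 11 (.d k207 k202 k138 2
  10)))))] (.c k37 (.q k47 [(.s k69 k117 3 (.s k79 k74 2 (.s k96 k111 2 (.d k112 k80 k90 3 6)))),
  (.s k69 k117 3 (.s k192 k128 7 (.s k149 k63 14 (.s k197 k53 11 (.d k207 k202 k138 2 10))))), (.s
  k96 k111 2 (.s k192 k128 7 (.s k224 k165 10 (.s k240 k208 3 (.d k80 k160 k112 11 3)))))] (.c k112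
  (.l (.s k96 k111 2 (.s k192 k128 7 (.s k48 k144 11 (.s k207 k154 14 (.d k69 k138 k117 10 3))))))
  .n)) (.c k47 (.q k37 [(.s k69 k117 3 (.s k79 k74 2 (.s k96 k111 2 (.d k112 k80 k90 3 6)))), (.s
  k192 k128 7 (.s k149 k63 14 (.s k21 k213 7 (.d k53 k5 k197 3 11))))] .n) .n))))

def s42_170_33 : T TT 256 :=
  (.q k65 [(.s k64 k127 6 (.s k67 k66 0 (.s k105 k125 5 (.s k104 k107 0 (.d k124 k84 k86 5 6))))),
  (.s k105 k125 5 (.s k107 k104 0 (.s k195 k130 8 (.s k63 k151 13 (.s k149 k192 14 (.s k61 k193 13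
  (.d k60 k150 k62 14 0))))))), (.s k64 k127 6 (.s k66 k67 0 (.s k130 k195 8 (.s k2 k194 7 (.s k3 k1
  0 (.d k192 k128 k129 7 8))))))] (.c k107 (.l (.s k64 k127 6 (.s k105 k125 5 (.s k192 k128 7 (.s
  k149 k63 14 (.s k193 k61 13 (.d k195 k194 k130 0 8))))))) .n))

def s42_170_34 : T TT 256 :=
  (.f k64 k127 6 (.q k102 [(.s k68 k119 4 (.s k76 k72 1 (.s k98 k110 1 (.d k115 k81 k89 4 6)))), (.s
  k98 k110 1 (.s k192 k128 7 (.s k51 k145 12 (.s k149 k63 14 (.s k196 k55 12 (.d k204 k200 k153 1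
  14)))))), (.s k68 k119 4 (.s k192 k128 7 (.s k149 k63 14 (.s k196 k55 12 (.d k204 k200 k136 1
  9)))))] (.c k38 (.q k46 [(.s k68 k119 4 (.s k76 k72 1 (.s k98 k110 1 (.d k115 k81 k89 4 6)))), (.s
  k68 k119 4 (.s k192 k128 7 (.s k149 k63 14 (.s k196 k55 12 (.d k204 k200 k136 1 9))))), (.s k98
  k110 1 (.s k192 k128 7 (.s k226 k166 9 (.s k243 k209 4 (.d k81 k162 k115 12 4)))))] (.c k115 (.l
  (.s k98 k110 1 (.s k192 k128 7 (.s k51 k145 12 (.s k204 k153 14 (.d k68 k136 k119 9 4)))))) .n))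
  (.c k46 (.q k38 [(.s k68 k119 4 (.s k76 k72 1 (.s k98 k110 1 (.d k115 k81 k89 4 6)))), (.s k192
  k128 7 (.s k149 k63 14 (.s k21 k213 7 (.d k55 k4 k196 4 12))))] .n) .n))))

def s42_170_35 : T TT 256 :=
  (.q k65 [(.s k64 k127 6 (.s k67 k66 0 (.s k105 k125 5 (.s k104 k107 0 (.d k124 k84 k86 5 6))))),
  (.s k105 k125 5 (.s k107 k104 0 (.s k195 k130 8 (.s k63 k151 13 (.s k149 k192 14 (.s k61 k193 13
  (.d k60 k150 k62 14 0))))))), (.s k64 k127 6 (.s k66 k67 0 (.s k130 k195 8 (.s k2 k194 7 (.s k3 k1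
  0 (.d k192 k128 k129 7 8))))))] (.c k107 (.l (.s k64 k127 6 (.s k105 k125 5 (.s k192 k128 7 (.s
  k149 k63 14 (.s k193 k61 13 (.d k195 k194 k130 0 8))))))) .n))

def s42_170_36 : T TT 256 :=
  (.q k65 [(.s k64 k127 6 (.s k67 k66 0 (.s k105 k125 5 (.s k104 k107 0 (.d k124 k84 k86 5 6))))),
  (.s k105 k125 5 (.s k107 k104 0 (.s k195 k130 8 (.s k63 k151 13 (.s k149 k192 14 (.s k61 k193 13
  (.d k60 k150 k62 14 0))))))), (.s k64 k127 6 (.s k66 k67 0 (.s k130 k195 8 (.s k2 k194 7 (.s k3 k1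
  0 (.d k192 k128 k129 7 8))))))] (.c k107 (.l (.s k64 k127 6 (.s k105 k125 5 (.s k192 k128 7 (.s
  k149 k63 14 (.s k193 k61 13 (.d k195 k194 k130 0 8))))))) .n))

def s42_170_37 : T TT 256 :=
  (.f k64 k127 6 (.q k165 [(.s k5 k245 11 (.s k15 k10 2 (.s k47 k224 10 (.s k63 k31 3 (.d k192 k128
  k149 7 14))))), (.s k192 k128 7 (.s k149 k63 14 (.s k181 k133 3 (.s k213 k21 7 (.s k245 k5 11 (.s
  k53 k117 7 (.d k197 k229 k101 3 11))))))), (.s k5 k245 11 (.s k15 k10 2 (.s k90 k240 14 (.s k74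
  k122 3 (.s k79 k69 2 (.s k80 k95 2 (.d k112 k96 k101 3 6))))))), (.s k192 k128 7 (.s k149 k63 14
  (.s k133 k181 3 (.s k15 k74 10 (.s k240 k90 14 (.d k224 k47 k208 10 3))))))] (.c k32 (.l (.s k47
  k224 10 (.s k5 k245 11 (.s k15 k10 2 (.s k63 k31 3 (.d k192 k128 k149 7 14)))))) (.c k47 (.q k32
  [(.s k48 k16 3 (.s k192 k128 7 (.s k96 k144 11 (.s k80 k112 3 (.d k160 k224 k240 7 11))))), (.s k5
  k245 11 (.s k15 k10 2 (.s k192 k128 7 (.s k133 k74 10 (.d k149 k181 k63 3 14))))), (.s k5 k245 11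
  (.s k15 k10 2 (.s k90 k240 14 (.s k74 k122 3 (.s k79 k69 2 (.s k80 k95 2 (.d k112 k96 k101 3
  6)))))))] .n) (.c k63 (.l (.s k5 k245 11 (.s k15 k10 2 (.s k90 k240 14 (.s k192 k128 7 (.d k74
  k122 k133 3 10)))))) .n)))))

def s42_170_38 : T TT 256 :=
  (.f k64 k127 6 (.q k166 [(.s k4 k247 12 (.s k12 k8 1 (.s k46 k226 9 (.s k63 k29 4 (.d k192 k128
  k149 7 14))))), (.s k192 k128 7 (.s k149 k63 14 (.s k183 k132 4 (.s k213 k21 7 (.s k247 k4 12 (.s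
  k55 k119 7 (.d k196 k230 k102 4 12))))))), (.s k4 k247 12 (.s k12 k8 1 (.s k89 k243 14 (.s k72
  k123 4 (.s k76 k68 1 (.s k81 k93 1 (.d k115 k98 k102 4 6))))))), (.s k192 k128 7 (.s k149 k63 14
  (.s k132 k183 4 (.s k12 k72 9 (.s k243 k89 14 (.d k226 k46 k209 9 4))))))] (.c k34 (.l (.s k46
  k226 9 (.s k4 k247 12 (.s k12 k8 1 (.s k63 k29 4 (.d k192 k128 k149 7 14)))))) (.c k46 (.q k34
  [(.s k51 k17 4 (.s k192 k128 7 (.s k98 k145 12 (.s k81 k115 4 (.d k162 k226 k243 7 12))))), (.s k4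
  k247 12 (.s k12 k8 1 (.s k192 k128 7 (.s k132 k72 9 (.d k149 k183 k63 4 14))))), (.s k4 k247 12
  (.s k12 k8 1 (.s k89 k243 14 (.s k72 k123 4 (.s k76 k68 1 (.s k81 k93 1 (.d k115 k98 k102 4
  6)))))))] .n) (.c k63 (.l (.s k4 k247 12 (.s k12 k8 1 (.s k89 k243 14 (.s k192 k128 7 (.d k72 k123
  k132 4 9)))))) .n)))))

def s42_170_39 : T TT 256 :=
  (.q k65 [(.s k64 k127 6 (.s k67 k66 0 (.s k105 k125 5 (.s k104 k107 0 (.d k124 k84 k86 5 6))))),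
  (.s k105 k125 5 (.s k107 k104 0 (.s k195 k130 8 (.s k63 k151 13 (.s k149 k192 14 (.s k61 k193 13
  (.d k60 k150 k62 14 0))))))), (.s k64 k127 6 (.s k66 k67 0 (.s k130 k195 8 (.s k2 k194 7 (.s k3 k1
  0 (.d k192 k128 k129 7 8))))))] (.c k107 (.l (.s k64 k127 6 (.s k105 k125 5 (.s k192 k128 7 (.s
  k149 k63 14 (.s k193 k61 13 (.d k195 k194 k130 0 8))))))) .n))

def s42_170_40 : T TT 256 :=
  (.f k64 k127 6 (.q k105 [(.s k65 k125 5 (.s k67 k66 0 (.s k104 k107 0 (.d k124 k84 k86 5 6)))),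
  (.s k104 k107 0 (.s k192 k128 7 (.s k60 k148 13 (.s k149 k63 14 (.s k193 k61 13 (.d k195 k194 k150
  0 14)))))), (.s k65 k125 5 (.s k192 k128 7 (.s k149 k63 14 (.s k193 k61 13 (.d k195 k194 k130 0
  8)))))] (.c k41 (.q k43 [(.s k65 k125 5 (.s k67 k66 0 (.s k104 k107 0 (.d k124 k84 k86 5 6)))),
  (.s k65 k125 5 (.s k192 k128 7 (.s k149 k63 14 (.s k193 k61 13 (.d k195 k194 k130 0 8))))), (.s
  k104 k107 0 (.s k192 k128 7 (.s k232 k169 8 (.s k252 k212 5 (.d k84 k168 k124 13 5)))))] (.c k124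
  (.l (.s k104 k107 0 (.s k192 k128 7 (.s k60 k148 13 (.s k195 k150 14 (.d k65 k130 k125 8 5))))))
  .n)) (.c k43 (.q k41 [(.s k65 k125 5 (.s k67 k66 0 (.s k104 k107 0 (.d k124 k84 k86 5 6)))), (.s
  k192 k128 7 (.s k149 k63 14 (.s k21 k213 7 (.d k61 k1 k193 5 13))))] .n) .n))))

def s42_170_41 : T TT 256 :=
  (.f k64 k127 6 (.q k169 [(.s k1 k253 13 (.s k3 k2 0 (.s k43 k232 8 (.s k63 k23 5 (.d k192 k128
  k149 7 14))))), (.s k192 k128 7 (.s k149 k63 14 (.s k189 k129 5 (.s k213 k21 7 (.s k253 k1 13 (.s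
  k61 k125 7 (.d k193 k233 k105 5 13))))))), (.s k1 k253 13 (.s k3 k2 0 (.s k86 k252 14 (.s k66 k126
  5 (.s k67 k65 0 (.s k84 k87 0 (.d k124 k104 k105 5 6))))))), (.s k192 k128 7 (.s k149 k63 14 (.s
  k129 k189 5 (.s k3 k66 8 (.s k252 k86 14 (.d k232 k43 k212 8 5))))))] (.c k40 (.l (.s k43 k232 8
  (.s k1 k253 13 (.s k3 k2 0 (.s k63 k23 5 (.d k192 k128 k149 7 14)))))) (.c k43 (.q k40 [(.s k60
  k20 5 (.s k192 k128 7 (.s k104 k148 13 (.s k84 k124 5 (.d k168 k232 k252 7 13))))), (.s k1 k253 13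
  (.s k3 k2 0 (.s k192 k128 7 (.s k129 k66 8 (.d k149 k189 k63 5 14))))), (.s k1 k253 13 (.s k3 k2 0
  (.s k86 k252 14 (.s k66 k126 5 (.s k67 k65 0 (.s k84 k87 0 (.d k124 k104 k105 5 6)))))))] .n) (.c
  k63 (.l (.s k1 k253 13 (.s k3 k2 0 (.s k86 k252 14 (.s k192 k128 7 (.d k66 k126 k129 5 8))))))
  .n)))))

def s42_170_43 : T TT 256 :=
  (.f k64 k127 6 (.q k65 [(.s k67 k66 0 (.s k105 k125 5 (.s k104 k107 0 (.d k124 k84 k86 5 6)))),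
  (.s k66 k67 0 (.s k130 k195 8 (.s k2 k194 7 (.s k3 k1 0 (.d k192 k128 k129 7 8))))), (.s k105 k125
  5 (.s k192 k128 7 (.s k149 k63 14 (.s k193 k61 13 (.d k195 k194 k130 0 8)))))] (.c k40 (.q k41
  [(.s k67 k66 0 (.s k105 k125 5 (.s k104 k107 0 (.d k124 k84 k86 5 6)))), (.s k66 k67 0 (.s k130
  k195 8 (.s k2 k194 7 (.s k3 k1 0 (.d k192 k128 k129 7 8))))), (.s k105 k125 5 (.s k107 k104 0 (.s
  k192 k128 7 (.s k195 k130 8 (.d k63 k149 k151 14 13)))))] (.c k105 (.q k235 [(.s k192 k128 7 (.s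
  k149 k63 14 (.s k213 k21 7 (.s k255 k234 6 (.d k195 k215 k130 5 8))))), (.s k66 k67 0 (.s k86 k126
  5 (.s k130 k195 8 (.s k2 k194 7 (.s k3 k1 0 (.s k252 k169 14 (.d k84 k87 k168 0 13)))))))] (.c k3
  (.l (.s k192 k128 7 (.s k195 k130 8 (.s k194 k193 0 (.s k150 k62 13 (.d k215 k255 k20 5 8))))))
  (.c k130 (.l (.s k66 k67 0 (.s k192 k128 7 (.s k129 k3 8 (.s k1 k193 7 (.s k21 k61 5 (.d k149 k63
  k213 14 7))))))) (.c k192 (.q k1 [(.s k3 k2 0 (.s k67 k66 0 (.d k195 k130 k131 8 7))), (.s k21 k61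
  5 (.s k129 k193 7 (.s k149 k213 7 (.d k169 k253 k189 13 5)))), (.s k3 k2 0 (.s k66 k67 0 (.s k86
  k126 5 (.d k169 k253 k252 13 14))))] .n) (.c k195 (.l (.s k66 k67 0 (.s k86 k126 5 (.s k192 k128 7
  (.s k3 k129 8 (.s k1 k2 0 (.d k169 k253 k252 13 14))))))) .n))))) (.c k107 (.l (.s k67 k66 0 (.s
  k105 k125 5 (.s k195 k130 8 (.s k3 k131 7 (.d k60 k150 k22 14 6)))))) (.c k235 (.l (.s k105 k125 5
  (.s k67 k66 0 (.s k124 k86 6 (.d k104 k107 k84 0 5))))) .n)))) (.c k41 (.q k40 [(.s k60 k20 5 (.s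
  k195 k130 8 (.d k105 k150 k125 14 5))), (.s k67 k66 0 (.s k105 k125 5 (.s k104 k107 0 (.d k124 k84
  k86 5 6))))] (.c k105 (.l (.s k20 k60 5 (.s k66 k67 0 (.s k130 k195 8 (.s k150 k215 8 (.d k194 k2
  k62 7 13)))))) (.c k125 (.l (.s k20 k60 5 (.s k66 k67 0 (.s k130 k195 8 (.s k150 k215 8 (.d k194
  k2 k62 7 13)))))) .n))) .n))))

def s42_170_44 : T TT 256 :=
  (.q k65 [(.s k64 k127 6 (.s k67 k66 0 (.s k105 k125 5 (.s k104 k107 0 (.d k124 k84 k86 5 6))))),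
  (.s k105 k125 5 (.s k107 k104 0 (.s k195 k130 8 (.s k63 k151 13 (.s k149 k192 14 (.s k61 k193 13
  (.d k60 k150 k62 14 0))))))), (.s k64 k127 6 (.s k66 k67 0 (.s k130 k195 8 (.s k2 k194 7 (.s k3 k1
  0 (.d k192 k128 k129 7 8))))))] (.c k107 (.l (.s k64 k127 6 (.s k105 k125 5 (.s k192 k128 7 (.s
  k149 k63 14 (.s k193 k61 13 (.d k195 k194 k130 0 8))))))) .n))

def s42_170_45 : T TT 256 :=
  (.q k65 [(.s k64 k127 6 (.s k67 k66 0 (.s k105 k125 5 (.s k104 k107 0 (.d k124 k84 k86 5 6))))),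
  (.s k105 k125 5 (.s k107 k104 0 (.s k195 k130 8 (.s k63 k151 13 (.s k149 k192 14 (.s k61 k193 13
  (.d k60 k150 k62 14 0))))))), (.s k64 k127 6 (.s k66 k67 0 (.s k130 k195 8 (.s k2 k194 7 (.s k3 k1
  0 (.d k192 k128 k129 7 8))))))] (.c k107 (.l (.s k64 k127 6 (.s k105 k125 5 (.s k192 k128 7 (.s
  k149 k63 14 (.s k193 k61 13 (.d k195 k194 k130 0 8))))))) .n))

def s42_170_46 : T TT 256 :=
  (.f k64 k127 6 (.q k68 [(.s k76 k72 1 (.s k102 k119 4 (.s k98 k110 1 (.d k115 k81 k89 4 6)))), (.s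
  k72 k76 1 (.s k136 k204 9 (.s k8 k200 7 (.s k12 k4 1 (.d k192 k128 k132 7 9))))), (.s k102 k119 4
  (.s k192 k128 7 (.s k149 k63 14 (.s k196 k55 12 (.d k204 k200 k136 1 9)))))] (.c k34 (.q k38 [(.s
  k76 k72 1 (.s k102 k119 4 (.s k98 k110 1 (.d k115 k81 k89 4 6)))), (.s k72 k76 1 (.s k136 k204 9
  (.s k8 k200 7 (.s k12 k4 1 (.d k192 k128 k132 7 9))))), (.s k102 k119 4 (.s k110 k98 1 (.s k192
  k128 7 (.s k204 k136 9 (.d k63 k149 k157 14 12)))))] (.c k102 (.q k238 [(.s k192 k128 7 (.s k149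
  k63 14 (.s k213 k21 7 (.s k255 k234 6 (.d k204 k221 k136 4 9))))), (.s k72 k76 1 (.s k89 k123 4
  (.s k136 k204 9 (.s k8 k200 7 (.s k12 k4 1 (.s k243 k166 14 (.d k81 k93 k162 1 12)))))))] (.c k12
  (.l (.s k192 k128 7 (.s k204 k136 9 (.s k200 k196 1 (.s k153 k59 12 (.d k221 k255 k17 4 9))))))
  (.c k136 (.l (.s k72 k76 1 (.s k192 k128 7 (.s k132 k12 9 (.s k4 k196 7 (.s k21 k55 4 (.d k149 k63
  k213 14 7))))))) (.c k192 (.q k1 [(.s k3 k2 0 (.s k169 k253 13 (.s k86 k252 14 (.s k87 k84 0 (.s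
  k255 k171 13 (.d k204 k221 k136 4 9)))))), (.s k204 k136 9 (.s k221 k255 4 (.s k253 k169 13 (.s
  k205 k237 3 (.s k69 k137 9 (.d k207 k138 k206 10 0)))))), (.s k3 k2 0 (.s k76 k72 1 (.s k204 k136
  9 (.s k70 k137 10 (.s k67 k73 2 (.s k65 k66 0 (.d k195 k130 k131 8 7))))))), (.s k3 k2 0 (.s k169
  k253 13 (.s k86 k252 14 (.s k66 k126 5 (.s k67 k65 0 (.s k84 k87 0 (.d k124 k104 k105 5 6)))))))]
  .n) (.c k204 (.l (.s k72 k76 1 (.s k89 k123 4 (.s k192 k128 7 (.s k12 k132 9 (.s k4 k8 1 (.d k166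
  k247 k243 12 14))))))) .n))))) (.c k110 (.l (.s k76 k72 1 (.s k102 k119 4 (.s k204 k136 9 (.s k12
  k140 7 (.d k51 k153 k25 14 6)))))) (.c k238 (.l (.s k102 k119 4 (.s k76 k72 1 (.s k115 k89 6 (.d
  k98 k110 k81 1 4))))) .n)))) (.c k38 (.q k34 [(.s k51 k17 4 (.s k204 k136 9 (.d k102 k153 k119 14
  4))), (.s k76 k72 1 (.s k102 k119 4 (.s k98 k110 1 (.d k115 k81 k89 4 6))))] (.c k102 (.l (.s k17
  k51 4 (.s k72 k76 1 (.s k136 k204 9 (.s k153 k221 9 (.d k200 k8 k59 7 12)))))) (.c k119 (.l (.s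
  k17 k51 4 (.s k72 k76 1 (.s k136 k204 9 (.s k153 k221 9 (.d k200 k8 k59 7 12)))))) .n))) .n))))

def s42_170_47 : T TT 256 :=
  (.f k64 k127 6 (.q k69 [(.s k79 k74 2 (.s k101 k117 3 (.s k96 k111 2 (.d k112 k80 k90 3 6)))), (.s
  k74 k79 2 (.s k138 k207 10 (.s k10 k202 7 (.s k15 k5 2 (.d k192 k128 k133 7 10))))), (.s k101 k117
  3 (.s k192 k128 7 (.s k149 k63 14 (.s k197 k53 11 (.d k207 k202 k138 2 10)))))] (.c k32 (.q k37
  [(.s k79 k74 2 (.s k101 k117 3 (.s k96 k111 2 (.d k112 k80 k90 3 6)))), (.s k74 k79 2 (.s k138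
  k207 10 (.s k10 k202 7 (.s k15 k5 2 (.d k192 k128 k133 7 10))))), (.s k101 k117 3 (.s k111 k96 2
  (.s k192 k128 7 (.s k207 k138 10 (.d k63 k149 k159 14 11)))))] (.c k101 (.q k239 [(.s k192 k128 7
  (.s k149 k63 14 (.s k213 k21 7 (.s k255 k234 6 (.d k207 k223 k138 3 10))))), (.s k74 k79 2 (.s k90
  k122 3 (.s k138 k207 10 (.s k10 k202 7 (.s k15 k5 2 (.s k240 k165 14 (.d k80 k95 k160 2 11)))))))]
  (.c k15 (.l (.s k192 k128 7 (.s k207 k138 10 (.s k202 k197 2 (.s k154 k58 11 (.d k223 k255 k16 3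
  10)))))) (.c k138 (.l (.s k74 k79 2 (.s k192 k128 7 (.s k133 k15 10 (.s k5 k197 7 (.s k21 k53 3
  (.d k149 k63 k213 14 7))))))) (.c k192 (.q k1 [(.s k74 k79 2 (.s k90 k122 3 (.s k137 k205 9 (.s
  k11 k200 8 (.d k169 k248 k253 12 13))))), (.s k3 k2 0 (.s k169 k253 13 (.s k86 k252 14 (.s k87 k84
  0 (.s k207 k138 10 (.d k255 k223 k171 3 13)))))), (.s k3 k2 0 (.s k137 k205 9 (.s k70 k204 10 (.s
  k71 k68 0 (.d k207 k139 k138 9 10)))))] .n) (.c k207 (.l (.s k74 k79 2 (.s k90 k122 3 (.s k192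
  k128 7 (.s k15 k133 10 (.s k5 k10 2 (.d k165 k245 k240 11 14))))))) .n))))) (.c k111 (.l (.s k79
  k74 2 (.s k101 k117 3 (.s k207 k138 10 (.s k15 k143 7 (.d k48 k154 k26 14 6)))))) (.c k239 (.l (.s
  k101 k117 3 (.s k79 k74 2 (.s k112 k90 6 (.d k96 k111 k80 2 3))))) .n)))) (.c k37 (.q k32 [(.s k48
  k16 3 (.s k207 k138 10 (.d k101 k154 k117 14 3))), (.s k79 k74 2 (.s k101 k117 3 (.s k96 k111 2
  (.d k112 k80 k90 3 6))))] (.c k101 (.l (.s k16 k48 3 (.s k74 k79 2 (.s k138 k207 10 (.s k154 k223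
  10 (.d k202 k10 k58 7 11)))))) (.c k117 (.l (.s k16 k48 3 (.s k74 k79 2 (.s k138 k207 10 (.s k154
  k223 10 (.d k202 k10 k58 7 11)))))) .n))) .n))))

def s42_170_48 : T TT 256 :=
  (.q k65 [(.s k64 k127 6 (.s k67 k66 0 (.s k105 k125 5 (.s k104 k107 0 (.d k124 k84 k86 5 6))))),
  (.s k105 k125 5 (.s k107 k104 0 (.s k195 k130 8 (.s k63 k151 13 (.s k149 k192 14 (.s k61 k193 13
  (.d k60 k150 k62 14 0))))))), (.s k64 k127 6 (.s k66 k67 0 (.s k130 k195 8 (.s k2 k194 7 (.s k3 k1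
  0 (.d k192 k128 k129 7 8))))))] (.c k107 (.l (.s k64 k127 6 (.s k105 k125 5 (.s k192 k128 7 (.s
  k149 k63 14 (.s k193 k61 13 (.d k195 k194 k130 0 8))))))) .n))

def s42_170_49 : T TT 256 :=
  (.q k65 [(.s k64 k127 6 (.s k67 k66 0 (.s k105 k125 5 (.s k104 k107 0 (.d k124 k84 k86 5 6))))),
  (.s k105 k125 5 (.s k107 k104 0 (.s k195 k130 8 (.s k63 k151 13 (.s k149 k192 14 (.s k61 k193 13
  (.d k60 k150 k62 14 0))))))), (.s k64 k127 6 (.s k66 k67 0 (.s k130 k195 8 (.s k2 k194 7 (.s k3 k1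
  0 (.d k192 k128 k129 7 8))))))] (.c k107 (.l (.s k64 k127 6 (.s k105 k125 5 (.s k192 k128 7 (.s
  k149 k63 14 (.s k193 k61 13 (.d k195 k194 k130 0 8))))))) .n))

def s42_170_50 : T TT 256 :=
  (.q k65 [(.s k64 k127 6 (.s k67 k66 0 (.s k105 k125 5 (.s k104 k107 0 (.d k124 k84 k86 5 6))))),
  (.s k105 k125 5 (.s k107 k104 0 (.s k195 k130 8 (.s k63 k151 13 (.s k149 k192 14 (.s k61 k193 13
  (.d k60 k150 k62 14 0))))))), (.s k64 k127 6 (.s k66 k67 0 (.s k130 k195 8 (.s k2 k194 7 (.s k3 k1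
  0 (.d k192 k128 k129 7 8))))))] (.c k107 (.l (.s k64 k127 6 (.s k105 k125 5 (.s k192 k128 7 (.s
  k149 k63 14 (.s k193 k61 13 (.d k195 k194 k130 0 8))))))) .n))

def s42_170_51 : T TT 256 :=
  (.q k65 [(.s k64 k127 6 (.s k67 k66 0 (.s k105 k125 5 (.s k104 k107 0 (.d k124 k84 k86 5 6))))),
  (.s k105 k125 5 (.s k107 k104 0 (.s k195 k130 8 (.s k63 k151 13 (.s k149 k192 14 (.s k61 k193 13
  (.d k60 k150 k62 14 0))))))), (.s k64 k127 6 (.s k66 k67 0 (.s k130 k195 8 (.s k2 k194 7 (.s k3 k1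
  0 (.d k192 k128 k129 7 8))))))] (.c k107 (.l (.s k64 k127 6 (.s k105 k125 5 (.s k192 k128 7 (.s
  k149 k63 14 (.s k193 k61 13 (.d k195 k194 k130 0 8))))))) .n))

def s42_170_52 : T TT 256 :=
  (.q k65 [(.s k64 k127 6 (.s k67 k66 0 (.s k105 k125 5 (.s k104 k107 0 (.d k124 k84 k86 5 6))))),
  (.s k105 k125 5 (.s k107 k104 0 (.s k195 k130 8 (.s k63 k151 13 (.s k149 k192 14 (.s k61 k193 13
  (.d k60 k150 k62 14 0))))))), (.s k64 k127 6 (.s k66 k67 0 (.s k130 k195 8 (.s k2 k194 7 (.s k3 k1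
  0 (.d k192 k128 k129 7 8))))))] (.c k107 (.l (.s k64 k127 6 (.s k105 k125 5 (.s k192 k128 7 (.s
  k149 k63 14 (.s k193 k61 13 (.d k195 k194 k130 0 8))))))) .n))

def s42_170_53 : T TT 256 :=
  (.q k65 [(.s k64 k127 6 (.s k67 k66 0 (.s k105 k125 5 (.s k104 k107 0 (.d k124 k84 k86 5 6))))),
  (.s k105 k125 5 (.s k107 k104 0 (.s k195 k130 8 (.s k63 k151 13 (.s k149 k192 14 (.s k61 k193 13
  (.d k60 k150 k62 14 0))))))), (.s k64 k127 6 (.s k66 k67 0 (.s k130 k195 8 (.s k2 k194 7 (.s k3 k1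
  0 (.d k192 k128 k129 7 8))))))] (.c k107 (.l (.s k64 k127 6 (.s k105 k125 5 (.s k192 k128 7 (.s
  k149 k63 14 (.s k193 k61 13 (.d k195 k194 k130 0 8))))))) .n))

def s42_170_54 : T TT 256 :=
  (.q k65 [(.s k64 k127 6 (.s k67 k66 0 (.s k105 k125 5 (.s k104 k107 0 (.d k124 k84 k86 5 6))))),
  (.s k105 k125 5 (.s k107 k104 0 (.s k195 k130 8 (.s k63 k151 13 (.s k149 k192 14 (.s k61 k193 13
  (.d k60 k150 k62 14 0))))))), (.s k64 k127 6 (.s k66 k67 0 (.s k130 k195 8 (.s k2 k194 7 (.s k3 k1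
  0 (.d k192 k128 k129 7 8))))))] (.c k107 (.l (.s k64 k127 6 (.s k105 k125 5 (.s k192 k128 7 (.s
  k149 k63 14 (.s k193 k61 13 (.d k195 k194 k130 0 8))))))) .n))

def s42_170_55 : T TT 256 :=
  (.q k65 [(.s k64 k127 6 (.s k67 k66 0 (.s k105 k125 5 (.s k104 k107 0 (.d k124 k84 k86 5 6))))),
  (.s k105 k125 5 (.s k107 k104 0 (.s k195 k130 8 (.s k63 k151 13 (.s k149 k192 14 (.s k61 k193 13
  (.d k60 k150 k62 14 0))))))), (.s k64 k127 6 (.s k66 k67 0 (.s k130 k195 8 (.s k2 k194 7 (.s k3 k1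
  0 (.d k192 k128 k129 7 8))))))] (.c k107 (.l (.s k64 k127 6 (.s k105 k125 5 (.s k192 k128 7 (.s
  k149 k63 14 (.s k193 k61 13 (.d k195 k194 k130 0 8))))))) .n))

def s42_170_56 : T TT 256 :=
  (.q k65 [(.s k64 k127 6 (.s k67 k66 0 (.s k105 k125 5 (.s k104 k107 0 (.d k124 k84 k86 5 6))))),
  (.s k105 k125 5 (.s k107 k104 0 (.s k195 k130 8 (.s k63 k151 13 (.s k149 k192 14 (.s k61 k193 13
  (.d k60 k150 k62 14 0))))))), (.s k64 k127 6 (.s k66 k67 0 (.s k130 k195 8 (.s k2 k194 7 (.s k3 k1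
  0 (.d k192 k128 k129 7 8))))))] (.c k107 (.l (.s k64 k127 6 (.s k105 k125 5 (.s k192 k128 7 (.s
  k149 k63 14 (.s k193 k61 13 (.d k195 k194 k130 0 8))))))) .n))

def s42_170_57 : T TT 256 :=
  (.q k65 [(.s k64 k127 6 (.s k67 k66 0 (.s k105 k125 5 (.s k104 k107 0 (.d k124 k84 k86 5 6))))),
  (.s k105 k125 5 (.s k107 k104 0 (.s k195 k130 8 (.s k63 k151 13 (.s k149 k192 14 (.s k61 k193 13
  (.d k60 k150 k62 14 0))))))), (.s k64 k127 6 (.s k66 k67 0 (.s k130 k195 8 (.s k2 k194 7 (.s k3 k1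
  0 (.d k192 k128 k129 7 8))))))] (.c k107 (.l (.s k64 k127 6 (.s k105 k125 5 (.s k192 k128 7 (.s
  k149 k63 14 (.s k193 k61 13 (.d k195 k194 k130 0 8))))))) .n))

def s42_170_58 : T TT 256 :=
  (.f k64 k127 6 (.q k80 [(.s k112 k96 3 (.s k90 k95 2 (.s k79 k101 6 (.d k74 k69 k122 2 3)))), (.s
  k90 k95 2 (.s k192 k128 7 (.s k149 k63 14 (.s k208 k31 10 (.d k240 k224 k160 3 11))))), (.s k96
  k112 3 (.s k160 k240 11 (.s k32 k224 7 (.s k48 k16 3 (.d k192 k128 k144 7 11)))))] (.c k10 (.q k26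
  [(.s k90 k95 2 (.s k74 k122 3 (.s k79 k69 2 (.d k112 k96 k101 3 6)))), (.s k96 k112 3 (.s k160
  k240 11 (.s k32 k224 7 (.s k48 k16 3 (.d k192 k128 k144 7 11))))), (.s k90 k95 2 (.s k122 k74 3
  (.s k192 k128 7 (.s k240 k160 11 (.d k63 k149 k181 14 10)))))] (.c k90 (.q k250 [(.s k192 k128 7
  (.s k149 k63 14 (.s k213 k21 7 (.s k255 k234 6 (.d k240 k245 k160 2 11))))), (.s k96 k112 3 (.s
  k101 k111 2 (.s k160 k240 11 (.s k32 k224 7 (.s k48 k16 3 (.s k207 k154 14 (.d k69 k117 k138 3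
  10)))))))] (.c k48 (.l (.s k192 k128 7 (.s k240 k160 11 (.s k224 k208 3 (.s k165 k47 10 (.d k245
  k255 k5 2 11)))))) (.c k160 (.l (.s k96 k112 3 (.s k192 k128 7 (.s k144 k48 11 (.s k16 k208 7 (.s
  k21 k31 2 (.d k149 k63 k213 14 7))))))) (.c k192 (.q k1 [(.s k3 k2 0 (.s k169 k253 13 (.s k86 k252
  14 (.s k87 k84 0 (.s k255 k171 13 (.d k240 k245 k160 2 11)))))), (.s k240 k160 11 (.s k245 k255 2
  (.s k253 k169 13 (.s k241 k249 1 (.s k81 k161 11 (.d k243 k162 k242 12 0)))))), (.s k3 k2 0 (.s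
  k112 k96 3 (.s k240 k160 11 (.s k82 k161 12 (.s k67 k97 4 (.s k65 k66 0 (.d k195 k130 k131 8
  7))))))), (.s k3 k2 0 (.s k169 k253 13 (.s k86 k252 14 (.s k66 k126 5 (.s k67 k65 0 (.s k84 k87 0
  (.d k124 k104 k105 5 6)))))))] .n) (.c k240 (.l (.s k96 k112 3 (.s k101 k111 2 (.s k192 k128 7 (.s
  k48 k144 11 (.s k16 k32 3 (.d k154 k223 k207 10 14))))))) .n))))) (.c k122 (.l (.s k90 k95 2 (.s
  k112 k96 3 (.s k240 k160 11 (.s k48 k176 7 (.d k15 k165 k37 14 6)))))) (.c k250 (.l (.s k90 k95 2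
  (.s k112 k96 3 (.s k79 k101 6 (.d k74 k69 k122 2 3))))) .n)))) (.c k26 (.q k10 [(.s k15 k5 2 (.s
  k240 k160 11 (.d k90 k165 k95 14 2))), (.s k90 k95 2 (.s k74 k122 3 (.s k79 k69 2 (.d k112 k96
  k101 3 6))))] (.c k90 (.l (.s k5 k15 2 (.s k96 k112 3 (.s k160 k240 11 (.s k165 k245 11 (.d k224
  k32 k47 7 10)))))) (.c k95 (.l (.s k5 k15 2 (.s k96 k112 3 (.s k160 k240 11 (.s k165 k245 11 (.d
  k224 k32 k47 7 10)))))) .n))) .n))))

def s42_170_59 : T TT 256 :=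
  (.f k64 k127 6 (.q k81 [(.s k115 k98 4 (.s k89 k93 1 (.s k76 k102 6 (.d k72 k68 k123 1 4)))), (.s
  k89 k93 1 (.s k192 k128 7 (.s k149 k63 14 (.s k209 k29 9 (.d k243 k226 k162 4 12))))), (.s k98
  k115 4 (.s k162 k243 12 (.s k34 k226 7 (.s k51 k17 4 (.d k192 k128 k145 7 12)))))] (.c k8 (.q k25
  [(.s k89 k93 1 (.s k72 k123 4 (.s k76 k68 1 (.d k115 k98 k102 4 6)))), (.s k98 k115 4 (.s k162
  k243 12 (.s k34 k226 7 (.s k51 k17 4 (.d k192 k128 k145 7 12))))), (.s k89 k93 1 (.s k123 k72 4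
  (.s k192 k128 7 (.s k243 k162 12 (.d k63 k149 k183 14 9)))))] (.c k89 (.q k251 [(.s k192 k128 7
  (.s k149 k63 14 (.s k213 k21 7 (.s k255 k234 6 (.d k243 k247 k162 1 12))))), (.s k98 k115 4 (.s
  k102 k110 1 (.s k162 k243 12 (.s k34 k226 7 (.s k51 k17 4 (.s k204 k153 14 (.d k68 k119 k136 4
  9)))))))] (.c k51 (.l (.s k192 k128 7 (.s k243 k162 12 (.s k226 k209 4 (.s k166 k46 9 (.d k247
  k255 k4 1 12)))))) (.c k162 (.l (.s k98 k115 4 (.s k192 k128 7 (.s k145 k51 12 (.s k17 k209 7 (.s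
  k21 k29 1 (.d k149 k63 k213 14 7))))))) (.c k192 (.q k1 [(.s k98 k115 4 (.s k102 k110 1 (.s k161
  k241 11 (.s k35 k224 8 (.d k169 k236 k253 10 13))))), (.s k3 k2 0 (.s k169 k253 13 (.s k86 k252 14
  (.s k87 k84 0 (.s k243 k162 12 (.d k255 k247 k171 1 13)))))), (.s k3 k2 0 (.s k161 k241 11 (.s k82
  k240 12 (.s k83 k80 0 (.d k243 k163 k162 11 12)))))] .n) (.c k243 (.l (.s k98 k115 4 (.s k102 k110
  1 (.s k192 k128 7 (.s k51 k145 12 (.s k17 k34 4 (.d k153 k221 k204 9 14))))))) .n))))) (.c k123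
  (.l (.s k89 k93 1 (.s k115 k98 4 (.s k243 k162 12 (.s k51 k179 7 (.d k12 k166 k38 14 6)))))) (.c
  k251 (.l (.s k89 k93 1 (.s k115 k98 4 (.s k76 k102 6 (.d k72 k68 k123 1 4))))) .n)))) (.c k25 (.q
  k8 [(.s k12 k4 1 (.s k243 k162 12 (.d k89 k166 k93 14 1))), (.s k89 k93 1 (.s k72 k123 4 (.s k76
  k68 1 (.d k115 k98 k102 4 6))))] (.c k89 (.l (.s k4 k12 1 (.s k98 k115 4 (.s k162 k243 12 (.s k166
  k247 12 (.d k226 k34 k46 7 9)))))) (.c k93 (.l (.s k4 k12 1 (.s k98 k115 4 (.s k162 k243 12 (.s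
  k166 k247 12 (.d k226 k34 k46 7 9)))))) .n))) .n))))

def s42_170_60 : T TT 256 :=
  (.q k68 [(.s k64 k127 6 (.s k76 k72 1 (.s k102 k119 4 (.s k98 k110 1 (.d k115 k81 k89 4 6))))),
  (.s k102 k119 4 (.s k110 k98 1 (.s k204 k136 9 (.s k63 k157 12 (.s k149 k192 14 (.s k55 k196 12
  (.d k51 k153 k59 14 1))))))), (.s k64 k127 6 (.s k72 k76 1 (.s k136 k204 9 (.s k8 k200 7 (.s k12
  k4 1 (.d k192 k128 k132 7 9))))))] (.c k110 (.l (.s k64 k127 6 (.s k102 k119 4 (.s k192 k128 7 (.s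
  k149 k63 14 (.s k196 k55 12 (.d k204 k200 k136 1 9))))))) .n))

def s42_170_61 : T TT 256 :=
  (.q k65 [(.s k64 k127 6 (.s k67 k66 0 (.s k105 k125 5 (.s k104 k107 0 (.d k124 k84 k86 5 6))))),
  (.s k64 k127 6 (.s k66 k67 0 (.s k130 k195 8 (.s k2 k194 7 (.s k3 k1 0 (.d k192 k128 k129 7
  8)))))), (.s k105 k125 5 (.s k107 k104 0 (.s k195 k130 8 (.s k63 k151 13 (.s k150 k60 14 (.s k192
  k149 14 (.d k194 k193 k62 0 13)))))))] (.c k107 (.l (.s k64 k127 6 (.s k105 k125 5 (.s k192 k128 7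
  (.s k195 k130 8 (.s k150 k60 14 (.d k194 k62 k193 13 0))))))) .n))

def s42_170_62 : T TT 256 :=
  (.f k64 k127 6 (.q k84 [(.s k124 k104 5 (.s k86 k87 0 (.s k67 k105 6 (.d k66 k65 k126 0 5)))), (.s
  k86 k87 0 (.s k192 k128 7 (.s k149 k63 14 (.s k212 k23 8 (.d k252 k232 k168 5 13))))), (.s k104
  k124 5 (.s k168 k252 13 (.s k40 k232 7 (.s k60 k20 5 (.d k192 k128 k148 7 13)))))] (.c k2 (.q k22
  [(.s k86 k87 0 (.s k66 k126 5 (.s k67 k65 0 (.d k124 k104 k105 5 6)))), (.s k104 k124 5 (.s k168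
  k252 13 (.s k40 k232 7 (.s k60 k20 5 (.d k192 k128 k148 7 13))))), (.s k86 k87 0 (.s k126 k66 5
  (.s k192 k128 7 (.s k252 k168 13 (.d k63 k149 k189 14 8)))))] (.c k86 (.q k254 [(.s k192 k128 7
  (.s k149 k63 14 (.s k213 k21 7 (.s k255 k234 6 (.d k252 k253 k168 0 13))))), (.s k104 k124 5 (.s
  k105 k107 0 (.s k168 k252 13 (.s k40 k232 7 (.s k60 k20 5 (.s k195 k150 14 (.d k65 k125 k130 5
  8)))))))] (.c k60 (.l (.s k192 k128 7 (.s k252 k168 13 (.s k232 k212 5 (.s k169 k43 8 (.d k253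
  k255 k1 0 13)))))) (.c k168 (.l (.s k104 k124 5 (.s k192 k128 7 (.s k148 k60 13 (.s k20 k212 7 (.s
  k21 k23 0 (.d k149 k63 k213 14 7))))))) (.c k192 (.q k4 [(.s k12 k8 1 (.s k252 k168 13 (.s k92
  k172 11 (.s k88 k80 1 (.d k164 k244 k240 11 13))))), (.s k104 k124 5 (.s k105 k107 0 (.s k164 k244
  11 (.s k166 k247 12 (.d k44 k224 k227 9 10))))), (.s k12 k8 1 (.s k166 k247 12 (.s k89 k243 14 (.s
  k93 k81 1 (.s k252 k168 13 (.d k255 k253 k174 0 12))))))] .n) (.c k252 (.l (.s k104 k124 5 (.s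
  k105 k107 0 (.s k192 k128 7 (.s k60 k148 13 (.s k20 k40 5 (.d k150 k215 k195 8 14))))))) .n)))))
  (.c k126 (.l (.s k86 k87 0 (.s k124 k104 5 (.s k252 k168 13 (.s k60 k188 7 (.d k3 k169 k41 14
  6)))))) (.c k254 (.l (.s k86 k87 0 (.s k124 k104 5 (.s k67 k105 6 (.d k66 k65 k126 0 5))))) .n))))
  (.c k22 (.q k2 [(.s k3 k1 0 (.s k252 k168 13 (.d k86 k169 k87 14 0))), (.s k86 k87 0 (.s k66 k126
  5 (.s k67 k65 0 (.d k124 k104 k105 5 6))))] (.c k86 (.l (.s k1 k3 0 (.s k104 k124 5 (.s k168 k252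
  13 (.s k169 k253 13 (.d k232 k40 k43 7 8)))))) (.c k87 (.l (.s k1 k3 0 (.s k104 k124 5 (.s k168
  k252 13 (.s k169 k253 13 (.d k232 k40 k43 7 8)))))) .n))) .n))))

def s42_170_63 : T TT 256 :=
  (.f k64 k127 6 (.q k86 [(.s k66 k126 5 (.s k67 k65 0 (.s k84 k87 0 (.d k124 k104 k105 5 6)))), (.s
  k84 k87 0 (.s k192 k128 7 (.s k252 k168 13 (.s k169 k3 14 (.d k232 k43 k212 8 5))))), (.s k66 k126
  5 (.s k192 k128 7 (.s k3 k129 8 (.s k1 k2 0 (.d k169 k252 k253 14 13)))))] (.c k191 (.q k255 [(.s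
  k66 k126 5 (.s k67 k65 0 (.s k84 k87 0 (.d k124 k104 k105 5 6)))), (.s k84 k87 0 (.s k252 k168 13
  (.s k169 k3 14 (.d k253 k254 k1 0 13))))] (.c k67 (.l (.s k66 k126 5 (.s k87 k84 0 (.s k3 k171 13
  (.d k192 k128 k129 7 8))))) (.c k84 (.l (.s k66 k126 5 (.s k65 k67 0 (.s k130 k195 8 (.s k2 k194 7
  (.s k3 k1 0 (.d k192 k128 k129 7 8))))))) (.c k87 (.l (.s k66 k126 5 (.s k67 k65 0 (.s k124 k105 6
  (.s k84 k104 5 (.s k252 k168 13 (.s k169 k3 14 (.d k253 k254 k1 0 13)))))))) (.c k128 (.q k149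
  [(.s k66 k126 5 (.s k67 k65 0 (.s k84 k87 0 (.d k124 k104 k105 5 6)))), (.s k87 k84 0 (.s k3 k171
  13 (.s k1 k2 0 (.d k169 k253 k252 13 14)))), (.s k66 k126 5 (.s k212 k23 8 (.s k213 k21 7 (.s k192
  k234 6 (.s k3 k129 8 (.d k252 k232 k169 5 14))))))] (.c k252 (.l (.s k84 k87 0 (.s k124 k104 5 (.s
  k67 k105 6 (.d k66 k65 k126 0 5))))) .n)) (.c k149 (.l (.s k128 k192 7 (.s k66 k126 5 (.s k67 k65
  0 (.s k84 k87 0 (.d k124 k104 k105 5 6)))))) (.c k252 (.l (.s k84 k87 0 (.s k124 k104 5 (.s k67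
  k105 6 (.d k66 k65 k126 0 5))))) .n))))))) (.c k252 (.l (.s k84 k87 0 (.s k124 k104 5 (.s k67 k105
  6 (.d k66 k65 k126 0 5))))) (.c k255 (.q k191 [(.s k66 k126 5 (.s k67 k65 0 (.s k84 k87 0 (.d k124
  k104 k105 5 6)))), (.s k84 k87 0 (.s k192 k128 7 (.s k252 k168 13 (.s k232 k212 5 (.d k169 k3 k43
  14 8))))), (.s k66 k126 5 (.s k192 k128 7 (.s k3 k129 8 (.s k1 k2 0 (.d k169 k252 k253 14 13)))))]
  (.c k3 (.l (.s k66 k126 5 (.s k67 k65 0 (.s k124 k105 6 (.d k84 k87 k104 0 5))))) (.c k252 (.l (.s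
  k84 k87 0 (.s k124 k104 5 (.s k67 k105 6 (.d k66 k65 k126 0 5))))) .n))) .n)))))

def s42_170_64 : T TT 256 :=
  (.q k101 [(.s k69 k117 3 (.s k111 k96 2 (.s k207 k138 10 (.s k63 k159 11 (.s k149 k192 14 (.s k53
  k197 11 (.d k48 k154 k58 14 2))))))), (.s k69 k117 3 (.s k207 k138 10 (.s k154 k48 14 (.s k202 k58
  11 (.s k192 k197 2 (.s k63 k149 14 (.d k111 k96 k159 2 11)))))))] (.c k48 (.q k1 [(.s k69 k117 3
  (.s k169 k253 13 (.s k33 k237 9 (.s k49 k17 3 (.d k205 k137 k153 9 13))))), (.s k3 k2 0 (.s k169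
  k253 13 (.s k43 k232 8 (.s k63 k23 5 (.s k86 k252 14 (.s k66 k126 5 (.d k192 k129 k149 8
  14))))))), (.s k3 k2 0 (.s k69 k117 3 (.s k137 k205 9 (.s k70 k204 10 (.s k71 k68 0 (.d k207 k139
  k138 9 10))))))] (.c k255 (.l (.s k117 k69 3 (.s k253 k169 13 (.s k49 k185 9 (.s k17 k33 3 (.d
  k153 k221 k205 9 13)))))) .n)) (.c k53 (.l (.s k69 k117 3 (.s k111 k96 2 (.s k207 k138 10 (.s k63
  k159 11 (.s k154 k48 14 (.s k192 k149 14 (.d k202 k197 k58 2 11)))))))) (.c k58 (.f k69 k117 3 (.f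
  k111 k96 2 (.l (.s k207 k138 10 (.s k63 k159 11 (.s k149 k192 14 (.s k197 k53 11 (.s k5 k133 7 (.s
  k213 k21 7 (.d k245 k229 k165 3 11)))))))))) (.c k63 (.q k1 [(.s k69 k117 3 (.s k205 k137 9 (.s
  k153 k49 13 (.s k221 k17 9 (.d k253 k237 k169 3 13))))), (.s k3 k2 0 (.s k69 k117 3 (.s k137 k205
  9 (.s k70 k204 10 (.s k71 k68 0 (.d k207 k139 k138 9 10)))))), (.s k3 k2 0 (.s k169 k253 13 (.s
  k33 k237 9 (.s k48 k18 4 (.s k16 k32 3 (.d k154 k223 k207 10 14))))))] (.c k205 (.l (.s k3 k2 0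
  (.s k69 k117 3 (.s k169 k253 13 (.s k86 k252 14 (.s k71 k116 4 (.d k207 k139 k138 9 10))))))) .n))
  (.c k69 (.f k96 k111 2 (.q k48 [(.s k16 k32 3 (.d k154 k223 k207 10 14)), (.s k154 k207 14 (.s k58
  k202 11 (.s k63 k53 2 (.d k192 k144 k149 11 14)))), (.s k32 k16 3 (.s k144 k192 11 (.s k160 k224 7
  (.s k176 k128 3 (.d k240 k112 k80 7 11)))))] (.c k74 (.q k79 [(.s k16 k32 3 (.d k154 k223 k207 10
  14)), (.s k154 k207 14 (.s k58 k202 11 (.s k63 k53 2 (.d k192 k144 k149 11 14)))), (.s k16 k32 3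
  (.s k90 k112 6 (.s k80 k95 2 (.d k144 k208 k192 7 11))))] .n) (.c k79 (.q k74 [(.s k16 k32 3 (.d
  k154 k223 k207 10 14)), (.s k154 k207 14 (.s k58 k202 11 (.s k63 k53 2 (.d k192 k144 k149 11
  14)))), (.s k16 k32 3 (.s k90 k122 3 (.s k144 k192 11 (.d k80 k95 k208 2 7))))] (.c k95 (.q k127
  [(.s k16 k32 3 (.d k154 k223 k207 10 14)), (.s k154 k207 14 (.s k58 k202 11 (.s k63 k53 2 (.d k192
  k144 k149 11 14)))), (.s k32 k16 3 (.s k122 k90 3 (.s k112 k117 2 (.s k160 k224 7 (.d k240 k176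
  k80 7 11)))))] .n) (.c k127 (.q k95 [(.d k90 k80 k122 2 3), (.s k16 k32 3 (.d k154 k223 k207 10
  14))] .n) .n))) .n)))) (.c k96 (.f k69 k117 3 (.q k80 [(.s k90 k95 2 (.s k79 k112 6 (.s k207 k138
  10 (.s k15 k143 7 (.d k240 k160 k165 11 14))))), (.s k207 k138 10 (.s k154 k48 14 (.s k16 k223 10
  (.s k144 k208 7 (.s k149 k159 2 (.s k192 k63 14 (.d k197 k53 k202 11 2))))))), (.s k90 k95 2 (.s
  k122 k74 3 (.s k240 k160 11 (.s k63 k181 10 (.s k149 k192 14 (.s k31 k208 10 (.d k15 k165 k47 14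
  3)))))))] (.c k95 (.l (.s k207 k138 10 (.s k240 k160 11 (.s k229 k218 6 (.s k165 k37 7 (.s k5 k245
  11 (.d k15 k10 k90 2 14))))))) .n))) (.c k111 (.q k1 [(.s k69 k117 3 (.s k205 k137 9 (.s k153 k49
  13 (.s k221 k17 9 (.d k253 k237 k169 3 13))))), (.s k3 k2 0 (.s k69 k117 3 (.s k137 k205 9 (.s k70
  k204 10 (.s k71 k68 0 (.d k207 k139 k138 9 10)))))), (.s k3 k2 0 (.s k169 k253 13 (.s k33 k237 9
  (.s k48 k18 4 (.s k16 k32 3 (.d k154 k223 k207 10 14))))))] (.c k205 (.l (.s k3 k2 0 (.s k69 k117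
  3 (.s k169 k253 13 (.s k86 k252 14 (.s k71 k116 4 (.d k207 k139 k138 9 10))))))) .n)) (.c k117 (.q
  k48 [(.s k154 k207 14 (.d k16 k32 k223 3 10)), (.s k96 k111 2 (.s k154 k207 14 (.s k58 k202 11 (.s
  k63 k53 2 (.d k192 k144 k149 11 14))))), (.s k32 k16 3 (.s k96 k111 2 (.s k144 k192 11 (.s k160
  k224 7 (.s k176 k128 3 (.d k240 k112 k80 7 11))))))] .n) (.c k138 (.f k69 k117 3 (.q k154 [(.s k16
  k223 10 (.d k48 k32 k207 3 14)), (.s k48 k207 14 (.s k58 k202 11 (.s k63 k53 2 (.s k96 k111 2 (.d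
  k192 k144 k149 11 14)))))] (.c k48 (.f k96 k111 2 (.f k223 k16 10 (.q k1 [(.s k169 k253 13 (.s k33
  k237 9 (.s k49 k17 3 (.d k205 k137 k153 9 13)))), (.s k3 k2 0 (.s k137 k205 9 (.s k70 k204 10 (.s
  k71 k68 0 (.s k86 k116 4 (.s k84 k87 0 (.d k252 k168 k169 13 14))))))), (.s k3 k2 0 (.s k169 k253
  13 (.s k139 k184 4 (.s k71 k207 9 (.d k86 k116 k252 4 14)))))] (.c k169 (.l (.s k205 k137 9 (.s
  k153 k49 13 (.s k155 k152 0 (.s k19 k87 9 (.s k220 k86 10 (.d k221 k222 k17 0 9))))))) (.c k186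
  (.q k255 [(.s k169 k253 13 (.s k33 k237 9 (.s k49 k17 3 (.d k205 k137 k153 9 13)))), (.s k3 k2 0
  (.s k87 k171 13 (.s k86 k84 0 (.s k71 k116 4 (.d k207 k239 k139 3 9)))))] (.c k169 (.l (.s k3 k2 0
  (.s k137 k205 9 (.s k70 k204 10 (.s k71 k68 0 (.d k207 k239 k139 3 9)))))) .n)) (.c k255 (.q k186
  [(.s k137 k205 9 (.s k169 k253 13 (.s k184 k139 4 (.d k185 k187 k153 0 3)))), (.s k3 k2 0 (.s k137
  k205 9 (.s k70 k204 10 (.s k71 k68 0 (.s k86 k116 4 (.s k84 k87 0 (.d k252 k168 k169 13 14))))))),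
  (.s k205 k137 9 (.s k49 k153 13 (.s k33 k17 3 (.d k169 k237 k253 9 13)))), (.s k3 k2 0 (.s k169
  k253 13 (.s k139 k184 4 (.s k71 k207 9 (.d k86 k116 k252 4 14)))))] (.c k169 (.l (.s k205 k137 9
  (.s k153 k49 13 (.s k155 k152 0 (.s k19 k87 9 (.s k220 k86 10 (.d k221 k222 k17 0 9))))))) .n))
  .n)))))) (.c k207 (.l (.s k16 k223 10 (.s k48 k32 3 (.s k58 k202 11 (.s k63 k53 2 (.s k96 k111 2
  (.d k192 k144 k149 11 14))))))) .n)))) (.c k149 (.f k69 k117 3 (.f k111 k96 2 (.l (.s k207 k138 10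
  (.s k154 k48 14 (.s k159 k63 11 (.s k223 k16 10 (.s k95 k31 7 (.s k79 k127 3 (.d k90 k112 k80 6
  2)))))))))) (.c k154 (.f k96 k111 2 (.f k69 k117 3 (.q k1 [(.s k205 k137 9 (.s k153 k49 13 (.s
  k221 k17 9 (.d k253 k237 k169 3 13)))), (.s k3 k2 0 (.s k137 k205 9 (.s k70 k204 10 (.s k71 k68 0
  (.d k207 k138 k139 10 9))))), (.s k3 k2 0 (.s k169 k253 13 (.s k86 k252 14 (.s k71 k116 4 (.d k207
  k138 k139 10 9)))))] (.c k138 (.q k186 [(.s k169 k253 13 (.s k33 k237 9 (.s k49 k17 3 (.d k205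
  k137 k153 9 13)))), (.s k3 k2 0 (.s k137 k205 9 (.s k70 k204 10 (.s k71 k68 0 (.s k86 k116 4 (.s
  k84 k87 0 (.d k252 k168 k169 13 14))))))), (.s k3 k2 0 (.s k169 k253 13 (.s k43 k232 8 (.s k63 k23
  5 (.s k86 k252 14 (.s k66 k126 5 (.d k192 k129 k149 8 14)))))))] (.c k169 (.f k3 k2 0 (.f k137
  k205 9 (.l (.s k70 k204 10 (.s k68 k71 0 (.s k102 k119 4 (.s k98 k110 1 (.s k99 k97 0 (.s k108
  k105 2 (.d k100 k103 k104 0 1)))))))))) .n)) (.c k186 (.l (.s k138 k207 10 (.s k3 k2 0 (.s k137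
  k205 9 (.s k136 k139 0 (.d k204 k68 k70 9 10)))))) .n))))) (.c k159 (.q k1 [(.s k69 k117 3 (.s
  k205 k137 9 (.s k153 k49 13 (.s k221 k17 9 (.d k253 k237 k169 3 13))))), (.s k3 k2 0 (.s k69 k117
  3 (.s k137 k205 9 (.s k70 k204 10 (.s k71 k68 0 (.d k207 k139 k138 9 10)))))), (.s k3 k2 0 (.s
  k169 k253 13 (.s k33 k237 9 (.s k48 k18 4 (.s k16 k32 3 (.d k154 k223 k207 10 14))))))] (.c k205
  (.l (.s k3 k2 0 (.s k69 k117 3 (.s k169 k253 13 (.s k86 k252 14 (.s k71 k116 4 (.d k207 k139 k138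
  9 10))))))) .n)) (.c k186 (.q k154 [(.s k16 k223 10 (.d k48 k32 k207 3 14)), (.s k69 k117 3 (.d
  k207 k48 k138 14 10))] (.c k48 (.q k255 [(.s k69 k117 3 (.s k207 k138 10 (.d k223 k239 k16 3
  10))), (.s k69 k117 3 (.s k111 k96 2 (.s k202 k58 11 (.s k207 k138 10 (.s k63 k159 11 (.d k192
  k197 k149 2 14)))))), (.s k111 k96 2 (.s k202 k58 11 (.s k223 k16 10 (.s k207 k239 3 (.s k63 k159
  11 (.d k192 k197 k149 2 14))))))] (.c k207 (.q k1 [(.s k3 k2 0 (.s k87 k171 13 (.s k169 k253 13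
  (.d k86 k84 k252 0 14)))), (.s k69 k117 3 (.s k169 k253 13 (.s k205 k137 9 (.s k49 k153 13 (.d k33
  k17 k237 3 9)))))] (.c k169 (.l (.s k3 k2 0 (.s k69 k117 3 (.s k205 k137 9 (.s k153 k49 13 (.s
  k155 k152 0 (.s k223 k16 10 (.d k87 k19 k171 9 13)))))))) (.c k253 (.l (.s k3 k2 0 (.s k69 k117 3
  (.s k87 k171 13 (.s k86 k84 0 (.s k71 k116 4 (.s k68 k70 0 (.d k119 k103 k102 3 4)))))))) .n)))
  .n)) (.c k207 (.l (.s k16 k223 10 (.s k48 k32 3 (.s k58 k202 11 (.s k63 k53 2 (.s k96 k111 2 (.d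
  k192 k144 k149 11 14))))))) .n))) (.c k192 (.q k1 [(.s k69 k117 3 (.s k205 k137 9 (.s k153 k49 13
  (.s k221 k17 9 (.d k253 k237 k169 3 13))))), (.s k3 k2 0 (.s k69 k117 3 (.s k137 k205 9 (.s k70
  k204 10 (.s k71 k68 0 (.d k207 k139 k138 9 10)))))), (.s k3 k2 0 (.s k169 k253 13 (.s k33 k237 9
  (.s k48 k18 4 (.s k16 k32 3 (.d k154 k223 k207 10 14))))))] (.c k205 (.l (.s k3 k2 0 (.s k69 k117
  3 (.s k169 k253 13 (.s k86 k252 14 (.s k71 k116 4 (.d k207 k139 k138 9 10))))))) .n)) (.c k197 (.q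
  k1 [(.s k69 k117 3 (.s k205 k137 9 (.s k153 k49 13 (.s k221 k17 9 (.d k253 k237 k169 3 13))))),
  (.s k3 k2 0 (.s k69 k117 3 (.s k137 k205 9 (.s k70 k204 10 (.s k71 k68 0 (.d k207 k139 k138 9
  10)))))), (.s k3 k2 0 (.s k169 k253 13 (.s k33 k237 9 (.s k48 k18 4 (.s k16 k32 3 (.d k154 k223
  k207 10 14))))))] (.c k205 (.l (.s k3 k2 0 (.s k69 k117 3 (.s k169 k253 13 (.s k86 k252 14 (.s k71
  k116 4 (.d k207 k139 k138 9 10))))))) .n)) (.c k207 (.q k102 [(.s k68 k119 4 (.s k69 k117 3 (.s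
  k71 k70 0 (.s k100 k103 0 (.d k116 k84 k86 3 4))))), (.s k68 k119 4 (.s k110 k98 1 (.s k204 k136 9
  (.s k63 k157 12 (.s k149 k192 14 (.s k55 k196 12 (.d k51 k153 k59 14 1))))))), (.s k96 k111 2 (.s
  k98 k110 1 (.s k99 k97 0 (.s k100 k103 0 (.d k108 k104 k105 1 2)))))] (.c k51 (.l (.s k68 k119 4
  (.s k69 k117 3 (.s k71 k70 0 (.s k116 k86 4 (.d k100 k103 k84 0 3)))))) .n)) .n)))))))))))))))))

def s42_170_65 : T TT 256 :=
  (.q k68 [(.s k64 k127 6 (.s k76 k72 1 (.s k102 k119 4 (.s k98 k110 1 (.d k115 k81 k89 4 6))))),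
  (.s k102 k119 4 (.s k110 k98 1 (.s k204 k136 9 (.s k63 k157 12 (.s k149 k192 14 (.s k55 k196 12
  (.d k51 k153 k59 14 1))))))), (.s k64 k127 6 (.s k72 k76 1 (.s k136 k204 9 (.s k8 k200 7 (.s k12
  k4 1 (.d k192 k128 k132 7 9))))))] (.c k110 (.l (.s k64 k127 6 (.s k102 k119 4 (.s k192 k128 7 (.s
  k149 k63 14 (.s k196 k55 12 (.d k204 k200 k136 1 9))))))) .n))

def s42_170_66 : T TT 256 :=
  (.q k68 [(.s k64 k127 6 (.s k76 k72 1 (.s k102 k119 4 (.s k98 k110 1 (.d k115 k81 k89 4 6))))),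
  (.s k102 k119 4 (.s k110 k98 1 (.s k204 k136 9 (.s k63 k157 12 (.s k149 k192 14 (.s k55 k196 12
  (.d k51 k153 k59 14 1))))))), (.s k64 k127 6 (.s k72 k76 1 (.s k136 k204 9 (.s k8 k200 7 (.s k12
  k4 1 (.d k192 k128 k132 7 9))))))] (.c k110 (.l (.s k64 k127 6 (.s k102 k119 4 (.s k192 k128 7 (.s
  k149 k63 14 (.s k196 k55 12 (.d k204 k200 k136 1 9))))))) .n))

def s42_170_67 : T TT 256 :=
  (.q k68 [(.s k64 k127 6 (.s k76 k72 1 (.s k102 k119 4 (.s k98 k110 1 (.d k115 k81 k89 4 6))))),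
  (.s k102 k119 4 (.s k110 k98 1 (.s k204 k136 9 (.s k63 k157 12 (.s k149 k192 14 (.s k55 k196 12
  (.d k51 k153 k59 14 1))))))), (.s k64 k127 6 (.s k72 k76 1 (.s k136 k204 9 (.s k8 k200 7 (.s k12
  k4 1 (.d k192 k128 k132 7 9))))))] (.c k110 (.l (.s k64 k127 6 (.s k102 k119 4 (.s k192 k128 7 (.s
  k149 k63 14 (.s k196 k55 12 (.d k204 k200 k136 1 9))))))) .n))

def s42_170_68 : T TT 256 :=
  (.q k65 [(.s k64 k127 6 (.s k67 k66 0 (.s k105 k125 5 (.s k104 k107 0 (.d k124 k84 k86 5 6))))),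
  (.s k105 k125 5 (.s k107 k104 0 (.s k195 k130 8 (.s k63 k151 13 (.s k149 k192 14 (.s k61 k193 13
  (.d k60 k150 k62 14 0))))))), (.s k64 k127 6 (.s k66 k67 0 (.s k130 k195 8 (.s k2 k194 7 (.s k3 k1
  0 (.d k192 k128 k129 7 8))))))] (.c k107 (.l (.s k64 k127 6 (.s k105 k125 5 (.s k192 k128 7 (.s
  k149 k63 14 (.s k193 k61 13 (.d k195 k194 k130 0 8))))))) .n))

def s42_170_69 : T TT 256 :=
  (.q k65 [(.s k64 k127 6 (.s k67 k66 0 (.s k105 k125 5 (.s k104 k107 0 (.d k124 k84 k86 5 6))))),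
  (.s k105 k125 5 (.s k107 k104 0 (.s k195 k130 8 (.s k63 k151 13 (.s k149 k192 14 (.s k61 k193 13
  (.d k60 k150 k62 14 0))))))), (.s k64 k127 6 (.s k66 k67 0 (.s k130 k195 8 (.s k2 k194 7 (.s k3 k1
  0 (.d k192 k128 k129 7 8))))))] (.c k107 (.l (.s k64 k127 6 (.s k105 k125 5 (.s k192 k128 7 (.s
  k149 k63 14 (.s k193 k61 13 (.d k195 k194 k130 0 8))))))) .n))

def s42_170_70 : T TT 256 :=
  (.q k65 [(.s k64 k127 6 (.s k105 k125 5 (.s k104 k107 0 (.s k124 k84 5 (.d k67 k66 k86 0 6))))),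
  (.s k105 k125 5 (.s k107 k104 0 (.s k195 k130 8 (.s k63 k151 13 (.s k149 k192 14 (.s k61 k193 13
  (.d k60 k150 k62 14 0))))))), (.s k64 k127 6 (.s k66 k67 0 (.s k130 k195 8 (.s k2 k194 7 (.s k3 k1
  0 (.d k192 k128 k129 7 8))))))] (.c k107 (.l (.s k64 k127 6 (.s k105 k125 5 (.s k192 k128 7 (.s
  k149 k63 14 (.s k193 k61 13 (.d k195 k194 k130 0 8))))))) .n))

def s42_170_71 : T TT 256 :=
  (.q k65 [(.s k64 k127 6 (.s k67 k66 0 (.s k105 k125 5 (.s k104 k107 0 (.d k124 k84 k86 5 6))))),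
  (.s k105 k125 5 (.s k107 k104 0 (.s k195 k130 8 (.s k63 k151 13 (.s k149 k192 14 (.s k61 k193 13
  (.d k60 k150 k62 14 0))))))), (.s k64 k127 6 (.s k66 k67 0 (.s k130 k195 8 (.s k2 k194 7 (.s k3 k1
  0 (.d k192 k128 k129 7 8))))))] (.c k107 (.l (.s k64 k127 6 (.s k105 k125 5 (.s k192 k128 7 (.s
  k149 k63 14 (.s k193 k61 13 (.d k195 k194 k130 0 8))))))) .n))

def s42_170_72 : T TT 256 :=
  (.q k65 [(.s k64 k127 6 (.s k67 k66 0 (.s k105 k125 5 (.s k104 k107 0 (.d k124 k84 k86 5 6))))),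
  (.s k105 k125 5 (.s k107 k104 0 (.s k195 k130 8 (.s k63 k151 13 (.s k149 k192 14 (.s k61 k193 13
  (.d k60 k150 k62 14 0))))))), (.s k64 k127 6 (.s k66 k67 0 (.s k130 k195 8 (.s k2 k194 7 (.s k3 k1
  0 (.d k192 k128 k129 7 8))))))] (.c k107 (.l (.s k64 k127 6 (.s k105 k125 5 (.s k192 k128 7 (.s
  k149 k63 14 (.s k193 k61 13 (.d k195 k194 k130 0 8))))))) .n))

def s42_170_73 : T TT 256 :=
  (.q k65 [(.s k64 k127 6 (.s k67 k66 0 (.s k105 k125 5 (.s k104 k107 0 (.d k124 k84 k86 5 6))))),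
  (.s k105 k125 5 (.s k107 k104 0 (.s k195 k130 8 (.s k63 k151 13 (.s k149 k192 14 (.s k61 k193 13
  (.d k60 k150 k62 14 0))))))), (.s k64 k127 6 (.s k66 k67 0 (.s k130 k195 8 (.s k2 k194 7 (.s k3 k1
  0 (.d k192 k128 k129 7 8))))))] (.c k107 (.l (.s k64 k127 6 (.s k105 k125 5 (.s k192 k128 7 (.s
  k149 k63 14 (.s k193 k61 13 (.d k195 k194 k130 0 8))))))) .n))

def s42_170_74 : T TT 256 :=
  (.q k65 [(.s k64 k127 6 (.s k105 k125 5 (.s k104 k107 0 (.s k124 k84 5 (.d k67 k66 k86 0 6))))),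
  (.s k105 k125 5 (.s k107 k104 0 (.s k195 k130 8 (.s k63 k151 13 (.s k149 k192 14 (.s k61 k193 13
  (.d k60 k150 k62 14 0))))))), (.s k64 k127 6 (.s k66 k67 0 (.s k130 k195 8 (.s k2 k194 7 (.s k3 k1
  0 (.d k192 k128 k129 7 8))))))] (.c k107 (.l (.s k64 k127 6 (.s k105 k125 5 (.s k192 k128 7 (.s
  k149 k63 14 (.s k193 k61 13 (.d k195 k194 k130 0 8))))))) .n))

def s42_170_75 : T TT 256 :=
  (.q k65 [(.s k64 k127 6 (.s k67 k66 0 (.s k105 k125 5 (.s k104 k107 0 (.d k124 k84 k86 5 6))))),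
  (.s k105 k125 5 (.s k107 k104 0 (.s k195 k130 8 (.s k63 k151 13 (.s k149 k192 14 (.s k61 k193 13
  (.d k60 k150 k62 14 0))))))), (.s k64 k127 6 (.s k66 k67 0 (.s k130 k195 8 (.s k2 k194 7 (.s k3 k1
  0 (.d k192 k128 k129 7 8))))))] (.c k107 (.l (.s k64 k127 6 (.s k105 k125 5 (.s k192 k128 7 (.s
  k149 k63 14 (.s k193 k61 13 (.d k195 k194 k130 0 8))))))) .n))

def s42_170_76 : T TT 256 :=
  (.q k65 [(.s k64 k127 6 (.s k67 k66 0 (.s k105 k125 5 (.s k104 k107 0 (.d k124 k84 k86 5 6))))),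
  (.s k105 k125 5 (.s k107 k104 0 (.s k195 k130 8 (.s k63 k151 13 (.s k149 k192 14 (.s k61 k193 13
  (.d k60 k150 k62 14 0))))))), (.s k64 k127 6 (.s k66 k67 0 (.s k130 k195 8 (.s k2 k194 7 (.s k3 k1
  0 (.d k192 k128 k129 7 8))))))] (.c k107 (.l (.s k64 k127 6 (.s k105 k125 5 (.s k192 k128 7 (.s
  k149 k63 14 (.s k193 k61 13 (.d k195 k194 k130 0 8))))))) .n))

def s42_170_77 : T TT 256 :=
  (.q k65 [(.s k64 k127 6 (.s k67 k66 0 (.s k105 k125 5 (.s k104 k107 0 (.d k124 k84 k86 5 6))))),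
  (.s k64 k127 6 (.s k66 k67 0 (.s k130 k195 8 (.s k2 k194 7 (.s k3 k1 0 (.d k192 k128 k129 7
  8)))))), (.s k105 k125 5 (.s k107 k104 0 (.s k195 k130 8 (.s k63 k151 13 (.s k149 k192 14 (.s k61
  k193 13 (.d k60 k150 k62 14 0)))))))] (.c k107 (.l (.s k64 k127 6 (.s k105 k125 5 (.s k192 k128 7
  (.s k149 k63 14 (.s k193 k61 13 (.d k195 k194 k130 0 8))))))) .n))

def s42_170_78 : T TT 256 :=
  (.q k65 [(.s k64 k127 6 (.s k105 k125 5 (.s k104 k107 0 (.s k124 k84 5 (.d k67 k66 k86 0 6))))),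
  (.s k105 k125 5 (.s k107 k104 0 (.s k195 k130 8 (.s k63 k151 13 (.s k149 k192 14 (.s k61 k193 13
  (.d k60 k150 k62 14 0))))))), (.s k64 k127 6 (.s k66 k67 0 (.s k130 k195 8 (.s k2 k194 7 (.s k3 k1
  0 (.d k192 k128 k129 7 8))))))] (.c k107 (.l (.s k64 k127 6 (.s k105 k125 5 (.s k192 k128 7 (.s
  k149 k63 14 (.s k193 k61 13 (.d k195 k194 k130 0 8))))))) .n))

def s42_170_79 : T TT 256 :=
  (.q k65 [(.s k64 k127 6 (.s k67 k66 0 (.s k105 k125 5 (.s k104 k107 0 (.d k124 k84 k86 5 6))))),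
  (.s k105 k125 5 (.s k107 k104 0 (.s k195 k130 8 (.s k63 k151 13 (.s k149 k192 14 (.s k61 k193 13
  (.d k60 k150 k62 14 0))))))), (.s k64 k127 6 (.s k66 k67 0 (.s k130 k195 8 (.s k2 k194 7 (.s k3 k1
  0 (.d k192 k128 k129 7 8))))))] (.c k107 (.l (.s k64 k127 6 (.s k105 k125 5 (.s k192 k128 7 (.s
  k149 k63 14 (.s k193 k61 13 (.d k195 k194 k130 0 8))))))) .n))

def s42_170_80 : T TT 256 :=
  (.q k65 [(.s k64 k127 6 (.s k67 k66 0 (.s k105 k125 5 (.s k104 k107 0 (.d k124 k84 k86 5 6))))),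
  (.s k105 k125 5 (.s k107 k104 0 (.s k195 k130 8 (.s k63 k151 13 (.s k149 k192 14 (.s k61 k193 13
  (.d k60 k150 k62 14 0))))))), (.s k64 k127 6 (.s k66 k67 0 (.s k130 k195 8 (.s k2 k194 7 (.s k3 k1
  0 (.d k192 k128 k129 7 8))))))] (.c k107 (.l (.s k64 k127 6 (.s k105 k125 5 (.s k192 k128 7 (.s
  k149 k63 14 (.s k193 k61 13 (.d k195 k194 k130 0 8))))))) .n))

def s42_170_81 : T TT 256 :=
  (.q k65 [(.s k64 k127 6 (.s k67 k66 0 (.s k105 k125 5 (.s k104 k107 0 (.d k124 k84 k86 5 6))))),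
  (.s k105 k125 5 (.s k107 k104 0 (.s k195 k130 8 (.s k63 k151 13 (.s k149 k192 14 (.s k61 k193 13
  (.d k60 k150 k62 14 0))))))), (.s k64 k127 6 (.s k66 k67 0 (.s k130 k195 8 (.s k2 k194 7 (.s k3 k1
  0 (.d k192 k128 k129 7 8))))))] (.c k107 (.l (.s k64 k127 6 (.s k105 k125 5 (.s k192 k128 7 (.s
  k149 k63 14 (.s k193 k61 13 (.d k195 k194 k130 0 8))))))) .n))

def s42_170_82 : T TT 256 :=
  (.q k65 [(.s k64 k127 6 (.s k105 k125 5 (.s k104 k107 0 (.s k124 k84 5 (.d k67 k66 k86 0 6))))),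
  (.s k105 k125 5 (.s k107 k104 0 (.s k195 k130 8 (.s k63 k151 13 (.s k149 k192 14 (.s k61 k193 13
  (.d k60 k150 k62 14 0))))))), (.s k64 k127 6 (.s k66 k67 0 (.s k130 k195 8 (.s k2 k194 7 (.s k3 k1
  0 (.d k192 k128 k129 7 8))))))] (.c k107 (.l (.s k64 k127 6 (.s k105 k125 5 (.s k192 k128 7 (.s
  k149 k63 14 (.s k193 k61 13 (.d k195 k194 k130 0 8))))))) .n))

def s42_170_83 : T TT 256 :=
  (.q k65 [(.s k64 k127 6 (.s k67 k66 0 (.s k105 k125 5 (.s k104 k107 0 (.d k124 k84 k86 5 6))))),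
  (.s k105 k125 5 (.s k107 k104 0 (.s k195 k130 8 (.s k63 k151 13 (.s k149 k192 14 (.s k61 k193 13
  (.d k60 k150 k62 14 0))))))), (.s k64 k127 6 (.s k66 k67 0 (.s k130 k195 8 (.s k2 k194 7 (.s k3 k1
  0 (.d k192 k128 k129 7 8))))))] (.c k107 (.l (.s k64 k127 6 (.s k105 k125 5 (.s k192 k128 7 (.s
  k149 k63 14 (.s k193 k61 13 (.d k195 k194 k130 0 8))))))) .n))

def s42_170_84 : T TT 256 :=
  (.q k68 [(.s k64 k127 6 (.s k76 k72 1 (.s k102 k119 4 (.s k98 k110 1 (.d k115 k81 k89 4 6))))),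
  (.s k102 k119 4 (.s k110 k98 1 (.s k204 k136 9 (.s k63 k157 12 (.s k149 k192 14 (.s k55 k196 12
  (.d k51 k153 k59 14 1))))))), (.s k64 k127 6 (.s k72 k76 1 (.s k136 k204 9 (.s k8 k200 7 (.s k12
  k4 1 (.d k192 k128 k132 7 9))))))] (.c k110 (.l (.s k64 k127 6 (.s k102 k119 4 (.s k192 k128 7 (.s
  k149 k63 14 (.s k196 k55 12 (.d k204 k200 k136 1 9))))))) .n))

def s42_170_86 : T TT 256 :=
  (.f k64 k127 6 (.q k80 [(.s k90 k95 2 (.s k74 k122 3 (.s k79 k69 2 (.d k112 k96 k101 3 6)))), (.s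
  k90 k95 2 (.s k192 k128 7 (.s k149 k63 14 (.s k208 k31 10 (.d k240 k224 k160 3 11))))), (.s k96
  k112 3 (.s k160 k240 11 (.s k32 k224 7 (.s k48 k16 3 (.d k192 k128 k144 7 11)))))] (.c k2 (.q k254
  [(.s k90 k95 2 (.s k74 k122 3 (.s k79 k69 2 (.d k112 k96 k101 3 6)))), (.s k90 k95 2 (.s k192 k128
  7 (.s k149 k63 14 (.s k208 k31 10 (.d k240 k224 k160 3 11))))), (.s k96 k112 3 (.s k160 k240 11
  (.s k32 k224 7 (.s k48 k16 3 (.d k192 k128 k144 7 11)))))] (.c k22 (.q k62 [(.s k90 k95 2 (.s k74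
  k122 3 (.s k79 k69 2 (.d k112 k96 k101 3 6)))), (.s k150 k194 13 (.s k20 k215 8 (.s k60 k40 5 (.s
  k63 k61 0 (.d k192 k128 k149 7 14)))))] (.c k150 (.q k214 [(.s k90 k95 2 (.s k74 k122 3 (.s k79
  k69 2 (.d k112 k96 k101 3 6)))), (.s k192 k128 7 (.s k149 k63 14 (.s k213 k21 7 (.d k234 k255 k194
  6 5))))] (.c k130 (.l (.s k190 k126 7 (.s k90 k95 2 (.s k74 k122 3 (.s k79 k69 2 (.d k112 k96 k101
  3 6)))))) (.c k190 (.q k130 [(.s k194 k234 5 (.s k195 k65 8 (.d k192 k193 k128 0 7))), (.s k90 k95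
  2 (.s k74 k122 3 (.s k79 k69 2 (.d k112 k96 k101 3 6))))] .n) .n))) (.c k214 (.l (.s k150 k194 13
  (.s k20 k215 8 (.s k60 k40 5 (.s k63 k61 0 (.d k192 k128 k149 7 14)))))) .n))) (.c k62 (.q k22
  [(.s k90 k95 2 (.s k74 k122 3 (.s k79 k69 2 (.d k112 k96 k101 3 6)))), (.s k90 k95 2 (.s k192 k128
  7 (.s k149 k63 14 (.s k208 k31 10 (.d k240 k224 k160 3 11))))), (.s k96 k112 3 (.s k160 k240 11
  (.s k32 k224 7 (.s k48 k16 3 (.d k192 k128 k144 7 11)))))] .n) .n))) (.c k254 (.q k2 [(.s k90 k95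
  2 (.s k74 k122 3 (.s k79 k69 2 (.d k112 k96 k101 3 6)))), (.s k3 k1 0 (.s k192 k128 7 (.s k66 k129
  8 (.s k65 k67 0 (.d k130 k194 k195 7 8)))))] .n) .n))))

def s42_170_87 : T TT 256 :=
  (.q k65 [(.s k64 k127 6 (.s k67 k66 0 (.s k105 k125 5 (.s k104 k107 0 (.d k124 k84 k86 5 6))))),
  (.s k105 k125 5 (.s k107 k104 0 (.s k195 k130 8 (.s k63 k151 13 (.s k149 k192 14 (.s k61 k193 13
  (.d k60 k150 k62 14 0))))))), (.s k64 k127 6 (.s k192 k128 7 (.s k195 k130 8 (.s k193 k194 0 (.s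
  k129 k1 7 (.d k66 k67 k3 0 8))))))] (.c k107 (.l (.s k105 k125 5 (.s k195 k130 8 (.s k150 k60 14
  (.s k194 k62 13 (.s k192 k193 0 (.d k64 k127 k128 6 7))))))) .n))

def s42_170_88 : T TT 256 :=
  (.q k65 [(.s k64 k127 6 (.s k67 k66 0 (.s k105 k125 5 (.s k104 k107 0 (.d k124 k84 k86 5 6))))),
  (.s k105 k125 5 (.s k107 k104 0 (.s k195 k130 8 (.s k63 k151 13 (.s k149 k192 14 (.s k61 k193 13
  (.d k60 k150 k62 14 0))))))), (.s k64 k127 6 (.s k66 k67 0 (.s k130 k195 8 (.s k2 k194 7 (.s k3 k1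
  0 (.d k192 k128 k129 7 8))))))] (.c k107 (.l (.s k64 k127 6 (.s k105 k125 5 (.s k192 k128 7 (.s
  k149 k63 14 (.s k193 k61 13 (.d k195 k194 k130 0 8))))))) .n))

def s42_170_89 : T TT 256 :=
  (.f k64 k127 6 (.q k104 [(.s k105 k107 0 (.s k65 k125 5 (.s k67 k66 0 (.d k124 k84 k86 5 6)))),
  (.s k84 k124 5 (.s k168 k252 13 (.s k40 k232 7 (.s k60 k20 5 (.d k192 k128 k148 7 13))))), (.s
  k105 k107 0 (.s k192 k128 7 (.s k60 k148 13 (.s k20 k40 5 (.d k150 k215 k195 8 14)))))] (.c k8 (.q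
  k251 [(.s k105 k107 0 (.s k65 k125 5 (.s k67 k66 0 (.d k124 k84 k86 5 6)))), (.s k84 k124 5 (.s
  k168 k252 13 (.s k40 k232 7 (.s k60 k20 5 (.d k192 k128 k148 7 13))))), (.s k105 k107 0 (.s k192
  k128 7 (.s k60 k148 13 (.s k20 k40 5 (.d k150 k215 k195 8 14)))))] (.c k25 (.q k59 [(.s k105 k107
  0 (.s k65 k125 5 (.s k67 k66 0 (.d k124 k84 k86 5 6)))), (.s k153 k200 12 (.s k17 k221 9 (.s k51
  k34 4 (.s k63 k55 1 (.d k192 k128 k149 7 14)))))] (.c k153 (.q k217 [(.s k105 k107 0 (.s k65 k125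
  5 (.s k67 k66 0 (.d k124 k84 k86 5 6)))), (.s k192 k128 7 (.s k149 k63 14 (.s k213 k21 7 (.d k234
  k255 k200 6 4))))] (.c k136 (.l (.s k187 k123 7 (.s k105 k107 0 (.s k65 k125 5 (.s k67 k66 0 (.d
  k124 k84 k86 5 6)))))) (.c k187 (.q k136 [(.s k200 k234 4 (.s k204 k68 9 (.d k192 k196 k128 1
  7))), (.s k105 k107 0 (.s k65 k125 5 (.s k67 k66 0 (.d k124 k84 k86 5 6))))] .n) .n))) (.c k217
  (.l (.s k153 k200 12 (.s k17 k221 9 (.s k51 k34 4 (.s k63 k55 1 (.d k192 k128 k149 7 14))))))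
  .n))) (.c k59 (.q k25 [(.s k105 k107 0 (.s k65 k125 5 (.s k67 k66 0 (.d k124 k84 k86 5 6)))), (.s
  k84 k124 5 (.s k168 k252 13 (.s k40 k232 7 (.s k60 k20 5 (.d k192 k128 k148 7 13))))), (.s k105
  k107 0 (.s k192 k128 7 (.s k60 k148 13 (.s k20 k40 5 (.d k150 k215 k195 8 14)))))] .n) .n))) (.c
  k251 (.q k8 [(.s k105 k107 0 (.s k65 k125 5 (.s k67 k66 0 (.d k124 k84 k86 5 6)))), (.s k12 k4 1
  (.s k192 k128 7 (.s k72 k132 9 (.s k68 k76 1 (.d k136 k200 k204 7 9)))))] .n) .n))))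

def s42_170_90 : T TT 256 :=
  (.f k64 k127 6 (.q k98 [(.s k102 k110 1 (.s k68 k119 4 (.s k76 k72 1 (.d k115 k81 k89 4 6)))), (.s
  k81 k115 4 (.s k162 k243 12 (.s k34 k226 7 (.s k51 k17 4 (.d k192 k128 k145 7 12))))), (.s k102
  k110 1 (.s k192 k128 7 (.s k51 k145 12 (.s k17 k34 4 (.d k153 k221 k204 9 14)))))] (.c k10 (.q
  k250 [(.s k102 k110 1 (.s k68 k119 4 (.s k76 k72 1 (.d k115 k81 k89 4 6)))), (.s k81 k115 4 (.s
  k162 k243 12 (.s k34 k226 7 (.s k51 k17 4 (.d k192 k128 k145 7 12))))), (.s k102 k110 1 (.s k192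
  k128 7 (.s k51 k145 12 (.s k17 k34 4 (.d k153 k221 k204 9 14)))))] (.c k26 (.q k58 [(.s k102 k110
  1 (.s k68 k119 4 (.s k76 k72 1 (.d k115 k81 k89 4 6)))), (.s k154 k202 11 (.s k16 k223 10 (.s k48
  k32 3 (.s k63 k53 2 (.d k192 k128 k149 7 14)))))] (.c k154 (.q k218 [(.s k102 k110 1 (.s k68 k119
  4 (.s k76 k72 1 (.d k115 k81 k89 4 6)))), (.s k192 k128 7 (.s k149 k63 14 (.s k213 k21 7 (.d k234
  k255 k202 6 3))))] (.c k138 (.l (.s k186 k122 7 (.s k102 k110 1 (.s k68 k119 4 (.s k76 k72 1 (.d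
  k115 k81 k89 4 6)))))) (.c k186 (.q k138 [(.s k202 k234 3 (.s k207 k69 10 (.d k192 k197 k128 2
  7))), (.s k102 k110 1 (.s k68 k119 4 (.s k76 k72 1 (.d k115 k81 k89 4 6))))] .n) .n))) (.c k218
  (.l (.s k154 k202 11 (.s k16 k223 10 (.s k48 k32 3 (.s k63 k53 2 (.d k192 k128 k149 7 14))))))
  .n))) (.c k58 (.q k26 [(.s k102 k110 1 (.s k68 k119 4 (.s k76 k72 1 (.d k115 k81 k89 4 6)))), (.s
  k81 k115 4 (.s k162 k243 12 (.s k34 k226 7 (.s k51 k17 4 (.d k192 k128 k145 7 12))))), (.s k102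
  k110 1 (.s k192 k128 7 (.s k51 k145 12 (.s k17 k34 4 (.d k153 k221 k204 9 14)))))] .n) .n))) (.c
  k250 (.q k10 [(.s k102 k110 1 (.s k68 k119 4 (.s k76 k72 1 (.d k115 k81 k89 4 6)))), (.s k15 k5 2
  (.s k192 k128 7 (.s k74 k133 10 (.s k69 k79 2 (.d k138 k202 k207 7 10)))))] .n) .n))))

def s42_170_91 : T TT 256 :=
  (.q k65 [(.s k64 k127 6 (.s k67 k66 0 (.s k105 k125 5 (.s k104 k107 0 (.d k124 k84 k86 5 6))))),
  (.s k105 k125 5 (.s k107 k104 0 (.s k195 k130 8 (.s k63 k151 13 (.s k149 k192 14 (.s k61 k193 13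
  (.d k60 k150 k62 14 0))))))), (.s k64 k127 6 (.s k66 k67 0 (.s k130 k195 8 (.s k2 k194 7 (.s k3 k1
  0 (.d k192 k128 k129 7 8))))))] (.c k107 (.l (.s k64 k127 6 (.s k105 k125 5 (.s k192 k128 7 (.s
  k149 k63 14 (.s k193 k61 13 (.d k195 k194 k130 0 8))))))) .n))

def s42_170_92 : T TT 256 :=
  (.q k65 [(.s k64 k127 6 (.s k67 k66 0 (.s k105 k125 5 (.s k104 k107 0 (.d k124 k84 k86 5 6))))),
  (.s k105 k125 5 (.s k107 k104 0 (.s k195 k130 8 (.s k63 k151 13 (.s k149 k192 14 (.s k61 k193 13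
  (.d k60 k150 k62 14 0))))))), (.s k64 k127 6 (.s k66 k67 0 (.s k130 k195 8 (.s k2 k194 7 (.s k3 k1
  0 (.d k192 k128 k129 7 8))))))] (.c k107 (.l (.s k64 k127 6 (.s k105 k125 5 (.s k192 k128 7 (.s
  k149 k63 14 (.s k193 k61 13 (.d k195 k194 k130 0 8))))))) .n))

def s42_170_93 : T TT 256 :=
  (.q k65 [(.s k64 k127 6 (.s k67 k66 0 (.s k105 k125 5 (.s k104 k107 0 (.d k124 k84 k86 5 6))))),
  (.s k105 k125 5 (.s k107 k104 0 (.s k195 k130 8 (.s k63 k151 13 (.s k149 k192 14 (.s k61 k193 13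
  (.d k60 k150 k62 14 0))))))), (.s k64 k127 6 (.s k66 k67 0 (.s k130 k195 8 (.s k2 k194 7 (.s k3 k1
  0 (.d k192 k128 k129 7 8))))))] (.c k107 (.l (.s k64 k127 6 (.s k105 k125 5 (.s k192 k128 7 (.s
  k149 k63 14 (.s k193 k61 13 (.d k195 k194 k130 0 8))))))) .n))

def s42_170_94 : T TT 256 :=
  (.q k65 [(.s k64 k127 6 (.s k67 k66 0 (.s k105 k125 5 (.s k104 k107 0 (.d k124 k84 k86 5 6))))),
  (.s k105 k125 5 (.s k107 k104 0 (.s k195 k130 8 (.s k63 k151 13 (.s k149 k192 14 (.s k61 k193 13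
  (.d k60 k150 k62 14 0))))))), (.s k64 k127 6 (.s k66 k67 0 (.s k130 k195 8 (.s k2 k194 7 (.s k3 k1
  0 (.d k192 k128 k129 7 8))))))] (.c k107 (.l (.s k64 k127 6 (.s k105 k125 5 (.s k192 k128 7 (.s
  k149 k63 14 (.s k193 k61 13 (.d k195 k194 k130 0 8))))))) .n))

def s42_170_95 : T TT 256 :=
  (.q k65 [(.s k64 k127 6 (.s k67 k66 0 (.s k105 k125 5 (.s k104 k107 0 (.d k124 k84 k86 5 6))))),
  (.s k105 k125 5 (.s k107 k104 0 (.s k195 k130 8 (.s k63 k151 13 (.s k149 k192 14 (.s k61 k193 13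
  (.d k60 k150 k62 14 0))))))), (.s k64 k127 6 (.s k66 k67 0 (.s k130 k195 8 (.s k2 k194 7 (.s k3 k1
  0 (.d k192 k128 k129 7 8))))))] (.c k107 (.l (.s k64 k127 6 (.s k105 k125 5 (.s k192 k128 7 (.s
  k149 k63 14 (.s k193 k61 13 (.d k195 k194 k130 0 8))))))) .n))

def s42_170_96 : T TT 256 :=
  (.q k65 [(.s k64 k127 6 (.s k67 k66 0 (.s k105 k125 5 (.s k104 k107 0 (.d k124 k84 k86 5 6))))),
  (.s k105 k125 5 (.s k107 k104 0 (.s k195 k130 8 (.s k63 k151 13 (.s k149 k192 14 (.s k61 k193 13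
  (.d k60 k150 k62 14 0))))))), (.s k64 k127 6 (.s k66 k67 0 (.s k130 k195 8 (.s k2 k194 7 (.s k3 k1
  0 (.d k192 k128 k129 7 8))))))] (.c k107 (.l (.s k64 k127 6 (.s k105 k125 5 (.s k192 k128 7 (.s
  k149 k63 14 (.s k193 k61 13 (.d k195 k194 k130 0 8))))))) .n))

def s42_170_97 : T TT 256 :=
  (.q k65 [(.s k64 k127 6 (.s k67 k66 0 (.s k105 k125 5 (.s k104 k107 0 (.d k124 k84 k86 5 6))))),
  (.s k105 k125 5 (.s k107 k104 0 (.s k195 k130 8 (.s k63 k151 13 (.s k149 k192 14 (.s k61 k193 13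
  (.d k60 k150 k62 14 0))))))), (.s k64 k127 6 (.s k66 k67 0 (.s k130 k195 8 (.s k2 k194 7 (.s k3 k1
  0 (.d k192 k128 k129 7 8))))))] (.c k107 (.l (.s k64 k127 6 (.s k105 k125 5 (.s k192 k128 7 (.s
  k149 k63 14 (.s k193 k61 13 (.d k195 k194 k130 0 8))))))) .n))

def s42_170_98 : T TT 256 :=
  (.q k65 [(.s k64 k127 6 (.s k105 k125 5 (.s k104 k107 0 (.s k124 k84 5 (.d k67 k66 k86 0 6))))),
  (.s k105 k125 5 (.s k107 k104 0 (.s k195 k130 8 (.s k63 k151 13 (.s k149 k192 14 (.s k61 k193 13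
  (.d k60 k150 k62 14 0))))))), (.s k64 k127 6 (.s k66 k67 0 (.s k130 k195 8 (.s k2 k194 7 (.s k3 k1
  0 (.d k192 k128 k129 7 8))))))] (.c k107 (.l (.s k64 k127 6 (.s k105 k125 5 (.s k192 k128 7 (.s
  k149 k63 14 (.s k193 k61 13 (.d k195 k194 k130 0 8))))))) .n))

def s42_170_99 : T TT 256 :=
  (.q k65 [(.s k64 k127 6 (.s k67 k66 0 (.s k105 k125 5 (.s k104 k107 0 (.d k124 k84 k86 5 6))))),
  (.s k105 k125 5 (.s k107 k104 0 (.s k195 k130 8 (.s k63 k151 13 (.s k149 k192 14 (.s k61 k193 13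
  (.d k60 k150 k62 14 0))))))), (.s k64 k127 6 (.s k66 k67 0 (.s k130 k195 8 (.s k2 k194 7 (.s k3 k1
  0 (.d k192 k128 k129 7 8))))))] (.c k107 (.l (.s k64 k127 6 (.s k105 k125 5 (.s k192 k128 7 (.s
  k149 k63 14 (.s k193 k61 13 (.d k195 k194 k130 0 8))))))) .n))

def s42_170_100 : T TT 256 :=
  (.q k65 [(.s k64 k127 6 (.s k67 k66 0 (.s k105 k125 5 (.s k104 k107 0 (.d k124 k84 k86 5 6))))),
  (.s k105 k125 5 (.s k107 k104 0 (.s k195 k130 8 (.s k63 k151 13 (.s k149 k192 14 (.s k61 k193 13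
  (.d k60 k150 k62 14 0))))))), (.s k64 k127 6 (.s k66 k67 0 (.s k130 k195 8 (.s k2 k194 7 (.s k3 k1
  0 (.d k192 k128 k129 7 8))))))] (.c k107 (.l (.s k64 k127 6 (.s k105 k125 5 (.s k192 k128 7 (.s
  k149 k63 14 (.s k193 k61 13 (.d k195 k194 k130 0 8))))))) .n))

def s42_170_101 : T TT 256 :=
  (.f k64 k127 6 (.q k72 [(.s k76 k68 1 (.s k89 k123 4 (.s k81 k93 1 (.d k115 k98 k102 4 6)))), (.s
  k68 k76 1 (.s k136 k204 9 (.s k8 k200 7 (.s k12 k4 1 (.d k192 k128 k132 7 9))))), (.s k89 k123 4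
  (.s k192 k128 7 (.s k12 k132 9 (.s k4 k8 1 (.d k166 k247 k243 12 14)))))] (.c k32 (.q k239 [(.s
  k76 k68 1 (.s k89 k123 4 (.s k81 k93 1 (.d k115 k98 k102 4 6)))), (.s k68 k76 1 (.s k136 k204 9
  (.s k8 k200 7 (.s k12 k4 1 (.d k192 k128 k132 7 9))))), (.s k89 k123 4 (.s k192 k128 7 (.s k12
  k132 9 (.s k4 k8 1 (.d k166 k247 k243 12 14)))))] (.c k37 (.q k47 [(.s k76 k68 1 (.s k89 k123 4
  (.s k81 k93 1 (.d k115 k98 k102 4 6)))), (.s k165 k224 10 (.s k5 k245 11 (.s k15 k10 2 (.s k63 k31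
  3 (.d k192 k128 k149 7 14)))))] (.c k165 (.q k229 [(.s k76 k68 1 (.s k89 k123 4 (.s k81 k93 1 (.d
  k115 k98 k102 4 6)))), (.s k192 k128 7 (.s k149 k63 14 (.s k213 k21 7 (.d k234 k255 k224 6 2))))]
  (.c k160 (.l (.s k175 k111 7 (.s k76 k68 1 (.s k89 k123 4 (.s k81 k93 1 (.d k115 k98 k102 4
  6)))))) (.c k175 (.q k160 [(.s k224 k234 2 (.s k240 k80 11 (.d k192 k208 k128 3 7))), (.s k76 k68
  1 (.s k89 k123 4 (.s k81 k93 1 (.d k115 k98 k102 4 6))))] .n) .n))) (.c k229 (.l (.s k165 k224 10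
  (.s k5 k245 11 (.s k15 k10 2 (.s k63 k31 3 (.d k192 k128 k149 7 14)))))) .n))) (.c k47 (.q k37
  [(.s k76 k68 1 (.s k89 k123 4 (.s k81 k93 1 (.d k115 k98 k102 4 6)))), (.s k68 k76 1 (.s k136 k204
  9 (.s k8 k200 7 (.s k12 k4 1 (.d k192 k128 k132 7 9))))), (.s k89 k123 4 (.s k192 k128 7 (.s k12
  k132 9 (.s k4 k8 1 (.d k166 k247 k243 12 14)))))] .n) .n))) (.c k239 (.q k32 [(.s k76 k68 1 (.s
  k89 k123 4 (.s k81 k93 1 (.d k115 k98 k102 4 6)))), (.s k48 k16 3 (.s k192 k128 7 (.s k96 k144 11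
  (.s k80 k112 3 (.d k160 k224 k240 7 11)))))] .n) .n))))

def s42_170_102 : T TT 256 :=
  (.f k64 k127 6 (.q k101 [(.s k69 k117 3 (.s k79 k74 2 (.s k96 k111 2 (.d k112 k80 k90 3 6)))), (.s
  k96 k111 2 (.s k192 k128 7 (.s k48 k144 11 (.s k16 k32 3 (.d k154 k223 k207 10 14))))), (.s k69
  k117 3 (.s k192 k128 7 (.s k149 k63 14 (.s k197 k53 11 (.d k207 k202 k138 2 10)))))] (.c k34 (.q
  k238 [(.s k69 k117 3 (.s k79 k74 2 (.s k96 k111 2 (.d k112 k80 k90 3 6)))), (.s k96 k111 2 (.s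
  k192 k128 7 (.s k48 k144 11 (.s k16 k32 3 (.d k154 k223 k207 10 14))))), (.s k69 k117 3 (.s k192
  k128 7 (.s k149 k63 14 (.s k197 k53 11 (.d k207 k202 k138 2 10)))))] (.c k38 (.q k46 [(.s k69 k117
  3 (.s k79 k74 2 (.s k96 k111 2 (.d k112 k80 k90 3 6)))), (.s k166 k226 9 (.s k4 k247 12 (.s k12 k8
  1 (.s k63 k29 4 (.d k192 k128 k149 7 14)))))] (.c k166 (.q k230 [(.s k69 k117 3 (.s k79 k74 2 (.s
  k96 k111 2 (.d k112 k80 k90 3 6)))), (.s k192 k128 7 (.s k149 k63 14 (.s k213 k21 7 (.d k234 k255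
  k226 6 1))))] (.c k162 (.l (.s k174 k110 7 (.s k69 k117 3 (.s k79 k74 2 (.s k96 k111 2 (.d k112
  k80 k90 3 6)))))) (.c k174 (.q k162 [(.s k226 k234 1 (.s k243 k81 12 (.d k192 k209 k128 4 7))),
  (.s k69 k117 3 (.s k79 k74 2 (.s k96 k111 2 (.d k112 k80 k90 3 6))))] .n) .n))) (.c k230 (.l (.s
  k166 k226 9 (.s k4 k247 12 (.s k12 k8 1 (.s k63 k29 4 (.d k192 k128 k149 7 14)))))) .n))) (.c k46
  (.q k38 [(.s k69 k117 3 (.s k79 k74 2 (.s k96 k111 2 (.d k112 k80 k90 3 6)))), (.s k96 k111 2 (.s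
  k192 k128 7 (.s k48 k144 11 (.s k16 k32 3 (.d k154 k223 k207 10 14))))), (.s k69 k117 3 (.s k192
  k128 7 (.s k149 k63 14 (.s k197 k53 11 (.d k207 k202 k138 2 10)))))] .n) .n))) (.c k238 (.q k34
  [(.s k69 k117 3 (.s k79 k74 2 (.s k96 k111 2 (.d k112 k80 k90 3 6)))), (.s k51 k17 4 (.s k192 k128
  7 (.s k98 k145 12 (.s k81 k115 4 (.d k162 k226 k243 7 12)))))] .n) .n))))

def s42_170_103 : T TT 256 :=
  (.q k65 [(.s k64 k127 6 (.s k67 k66 0 (.s k105 k125 5 (.s k104 k107 0 (.d k124 k84 k86 5 6))))),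
  (.s k105 k125 5 (.s k107 k104 0 (.s k195 k130 8 (.s k63 k151 13 (.s k149 k192 14 (.s k61 k193 13
  (.d k60 k150 k62 14 0))))))), (.s k64 k127 6 (.s k66 k67 0 (.s k130 k195 8 (.s k2 k194 7 (.s k3 k1
  0 (.d k192 k128 k129 7 8))))))] (.c k107 (.l (.s k64 k127 6 (.s k105 k125 5 (.s k192 k128 7 (.s
  k149 k63 14 (.s k193 k61 13 (.d k195 k194 k130 0 8))))))) .n))

def s42_170_104 : T TT 256 :=
  (.q k68 [(.s k64 k127 6 (.s k102 k119 4 (.s k98 k110 1 (.s k115 k81 4 (.d k76 k72 k89 1 6))))),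
  (.s k102 k119 4 (.s k110 k98 1 (.s k204 k136 9 (.s k63 k157 12 (.s k149 k192 14 (.s k55 k196 12
  (.d k51 k153 k59 14 1))))))), (.s k64 k127 6 (.s k72 k76 1 (.s k136 k204 9 (.s k8 k200 7 (.s k12
  k4 1 (.d k192 k128 k132 7 9))))))] (.c k110 (.l (.s k64 k127 6 (.s k102 k119 4 (.s k192 k128 7 (.s
  k149 k63 14 (.s k196 k55 12 (.d k204 k200 k136 1 9))))))) .n))

def s42_170_105 : T TT 256 :=
  (.f k64 k127 6 (.q k68 [(.s k76 k72 1 (.s k102 k119 4 (.s k98 k110 1 (.d k115 k81 k89 4 6)))), (.s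
  k72 k76 1 (.s k136 k204 9 (.s k8 k200 7 (.s k12 k4 1 (.d k192 k128 k132 7 9))))), (.s k102 k119 4
  (.s k192 k128 7 (.s k149 k63 14 (.s k196 k55 12 (.d k204 k200 k136 1 9)))))] (.c k40 (.q k235 [(.s
  k76 k72 1 (.s k102 k119 4 (.s k98 k110 1 (.d k115 k81 k89 4 6)))), (.s k72 k76 1 (.s k136 k204 9
  (.s k8 k200 7 (.s k12 k4 1 (.d k192 k128 k132 7 9))))), (.s k102 k119 4 (.s k192 k128 7 (.s k149
  k63 14 (.s k196 k55 12 (.d k204 k200 k136 1 9)))))] (.c k41 (.q k43 [(.s k76 k72 1 (.s k102 k119 4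
  (.s k98 k110 1 (.d k115 k81 k89 4 6)))), (.s k169 k232 8 (.s k1 k253 13 (.s k3 k2 0 (.s k63 k23 5
  (.d k192 k128 k149 7 14)))))] (.c k169 (.q k233 [(.s k76 k72 1 (.s k102 k119 4 (.s k98 k110 1 (.d
  k115 k81 k89 4 6)))), (.s k192 k128 7 (.s k149 k63 14 (.s k213 k21 7 (.d k234 k255 k232 6 0))))]
  (.c k168 (.l (.s k171 k107 7 (.s k76 k72 1 (.s k102 k119 4 (.s k98 k110 1 (.d k115 k81 k89 4
  6)))))) (.c k171 (.q k168 [(.s k232 k234 0 (.s k252 k84 13 (.d k192 k212 k128 5 7))), (.s k76 k72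
  1 (.s k102 k119 4 (.s k98 k110 1 (.d k115 k81 k89 4 6))))] .n) .n))) (.c k233 (.l (.s k169 k232 8
  (.s k1 k253 13 (.s k3 k2 0 (.s k63 k23 5 (.d k192 k128 k149 7 14)))))) .n))) (.c k43 (.q k41 [(.s
  k76 k72 1 (.s k102 k119 4 (.s k98 k110 1 (.d k115 k81 k89 4 6)))), (.s k72 k76 1 (.s k136 k204 9
  (.s k8 k200 7 (.s k12 k4 1 (.d k192 k128 k132 7 9))))), (.s k102 k119 4 (.s k192 k128 7 (.s k149
  k63 14 (.s k196 k55 12 (.d k204 k200 k136 1 9)))))] .n) .n))) (.c k235 (.q k40 [(.s k76 k72 1 (.s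
  k102 k119 4 (.s k98 k110 1 (.d k115 k81 k89 4 6)))), (.s k60 k20 5 (.s k192 k128 7 (.s k104 k148
  13 (.s k84 k124 5 (.d k168 k232 k252 7 13)))))] .n) .n))))

def s42_170_107 : T TT 256 :=
  (.q k68 [(.s k64 k127 6 (.s k76 k72 1 (.s k102 k119 4 (.s k98 k110 1 (.d k115 k81 k89 4 6))))),
  (.s k102 k119 4 (.s k110 k98 1 (.s k204 k136 9 (.s k63 k157 12 (.s k149 k192 14 (.s k55 k196 12
  (.d k51 k153 k59 14 1))))))), (.s k64 k127 6 (.s k72 k76 1 (.s k136 k204 9 (.s k8 k200 7 (.s k12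
  k4 1 (.d k192 k128 k132 7 9))))))] (.c k110 (.l (.s k64 k127 6 (.s k102 k119 4 (.s k192 k128 7 (.s
  k149 k63 14 (.s k196 k55 12 (.d k204 k200 k136 1 9))))))) .n))

def s42_170_108 : T TT 256 :=
  (.q k65 [(.s k64 k127 6 (.s k67 k66 0 (.s k105 k125 5 (.s k104 k107 0 (.d k124 k84 k86 5 6))))),
  (.s k105 k125 5 (.s k107 k104 0 (.s k195 k130 8 (.s k63 k151 13 (.s k149 k192 14 (.s k61 k193 13
  (.d k60 k150 k62 14 0))))))), (.s k64 k127 6 (.s k66 k67 0 (.s k130 k195 8 (.s k2 k194 7 (.s k3 k1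
  0 (.d k192 k128 k129 7 8))))))] (.c k107 (.l (.s k64 k127 6 (.s k105 k125 5 (.s k192 k128 7 (.s
  k149 k63 14 (.s k193 k61 13 (.d k195 k194 k130 0 8))))))) .n))

def s42_170_109 : T TT 256 :=
  (.q k65 [(.s k64 k127 6 (.s k67 k66 0 (.s k105 k125 5 (.s k104 k107 0 (.d k124 k84 k86 5 6))))),
  (.s k64 k127 6 (.s k66 k67 0 (.s k130 k195 8 (.s k2 k194 7 (.s k3 k1 0 (.d k192 k128 k129 7
  8)))))), (.s k105 k125 5 (.s k107 k104 0 (.s k195 k130 8 (.s k63 k151 13 (.s k149 k192 14 (.s k61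
  k193 13 (.d k60 k150 k62 14 0)))))))] (.c k107 (.l (.s k64 k127 6 (.s k105 k125 5 (.s k192 k128 7
  (.s k149 k63 14 (.s k193 k61 13 (.d k195 k194 k130 0 8))))))) .n))

def s42_170_110 : T TT 256 :=
  (.q k65 [(.s k64 k127 6 (.s k67 k66 0 (.s k105 k125 5 (.s k104 k107 0 (.d k124 k84 k86 5 6))))),
  (.s k105 k125 5 (.s k107 k104 0 (.s k195 k130 8 (.s k63 k151 13 (.s k149 k192 14 (.s k61 k193 13
  (.d k60 k150 k62 14 0))))))), (.s k64 k127 6 (.s k66 k67 0 (.s k130 k195 8 (.s k2 k194 7 (.s k3 k1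
  0 (.d k192 k128 k129 7 8))))))] (.c k107 (.l (.s k64 k127 6 (.s k105 k125 5 (.s k192 k128 7 (.s
  k149 k63 14 (.s k193 k61 13 (.d k195 k194 k130 0 8))))))) .n))

def s42_170_111 : T TT 256 :=
  (.q k65 [(.s k64 k127 6 (.s k67 k66 0 (.s k105 k125 5 (.s k104 k107 0 (.d k124 k84 k86 5 6))))),
  (.s k105 k125 5 (.s k107 k104 0 (.s k195 k130 8 (.s k63 k151 13 (.s k149 k192 14 (.s k61 k193 13
  (.d k60 k150 k62 14 0))))))), (.s k64 k127 6 (.s k66 k67 0 (.s k130 k195 8 (.s k2 k194 7 (.s k3 k1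
  0 (.d k192 k128 k129 7 8))))))] (.c k107 (.l (.s k64 k127 6 (.s k105 k125 5 (.s k192 k128 7 (.s
  k149 k63 14 (.s k193 k61 13 (.d k195 k194 k130 0 8))))))) .n))

def s42_170_112 : T TT 256 :=
  (.q k65 [(.s k64 k127 6 (.s k67 k66 0 (.s k105 k125 5 (.s k104 k107 0 (.d k124 k84 k86 5 6))))),
  (.s k105 k125 5 (.s k107 k104 0 (.s k195 k130 8 (.s k63 k151 13 (.s k149 k192 14 (.s k61 k193 13
  (.d k60 k150 k62 14 0))))))), (.s k64 k127 6 (.s k66 k67 0 (.s k130 k195 8 (.s k2 k194 7 (.s k3 k1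
  0 (.d k192 k128 k129 7 8))))))] (.c k107 (.l (.s k64 k127 6 (.s k105 k125 5 (.s k192 k128 7 (.s
  k149 k63 14 (.s k193 k61 13 (.d k195 k194 k130 0 8))))))) .n))

def s42_170_113 : T TT 256 :=
  (.q k65 [(.s k64 k127 6 (.s k67 k66 0 (.s k105 k125 5 (.s k104 k107 0 (.d k124 k84 k86 5 6))))),
  (.s k64 k127 6 (.s k66 k67 0 (.s k130 k195 8 (.s k2 k194 7 (.s k3 k1 0 (.d k192 k128 k129 7
  8)))))), (.s k105 k125 5 (.s k107 k104 0 (.s k195 k130 8 (.s k63 k151 13 (.s k149 k192 14 (.s k61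
  k193 13 (.d k60 k150 k62 14 0)))))))] (.c k107 (.l (.s k64 k127 6 (.s k105 k125 5 (.s k192 k128 7
  (.s k149 k63 14 (.s k193 k61 13 (.d k195 k194 k130 0 8))))))) .n))

def s42_170_114 : T TT 256 :=
  (.q k65 [(.s k64 k127 6 (.s k105 k125 5 (.s k104 k107 0 (.s k124 k84 5 (.d k67 k66 k86 0 6))))),
  (.s k105 k125 5 (.s k107 k104 0 (.s k195 k130 8 (.s k63 k151 13 (.s k149 k192 14 (.s k61 k193 13
  (.d k60 k150 k62 14 0))))))), (.s k64 k127 6 (.s k66 k67 0 (.s k130 k195 8 (.s k2 k194 7 (.s k3 k1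
  0 (.d k192 k128 k129 7 8))))))] (.c k107 (.l (.s k64 k127 6 (.s k105 k125 5 (.s k192 k128 7 (.s
  k149 k63 14 (.s k193 k61 13 (.d k195 k194 k130 0 8))))))) .n))

def s42_170_115 : T TT 256 :=
  (.q k65 [(.s k64 k127 6 (.s k67 k66 0 (.s k105 k125 5 (.s k104 k107 0 (.d k124 k84 k86 5 6))))),
  (.s k105 k125 5 (.s k107 k104 0 (.s k195 k130 8 (.s k63 k151 13 (.s k149 k192 14 (.s k61 k193 13
  (.d k60 k150 k62 14 0))))))), (.s k64 k127 6 (.s k66 k67 0 (.s k130 k195 8 (.s k2 k194 7 (.s k3 k1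
  0 (.d k192 k128 k129 7 8))))))] (.c k107 (.l (.s k64 k127 6 (.s k105 k125 5 (.s k192 k128 7 (.s
  k149 k63 14 (.s k193 k61 13 (.d k195 k194 k130 0 8))))))) .n))

def s42_170_116 : T TT 256 :=
  (.q k65 [(.s k64 k127 6 (.s k67 k66 0 (.s k105 k125 5 (.s k104 k107 0 (.d k124 k84 k86 5 6))))),
  (.s k105 k125 5 (.s k107 k104 0 (.s k195 k130 8 (.s k63 k151 13 (.s k149 k192 14 (.s k61 k193 13
  (.d k60 k150 k62 14 0))))))), (.s k64 k127 6 (.s k66 k67 0 (.s k130 k195 8 (.s k2 k194 7 (.s k3 k1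
  0 (.d k192 k128 k129 7 8))))))] (.c k107 (.l (.s k64 k127 6 (.s k105 k125 5 (.s k192 k128 7 (.s
  k149 k63 14 (.s k193 k61 13 (.d k195 k194 k130 0 8))))))) .n))

def s42_170_117 : T TT 256 :=
  (.q k65 [(.s k64 k127 6 (.s k67 k66 0 (.s k105 k125 5 (.s k104 k107 0 (.d k124 k84 k86 5 6))))),
  (.s k105 k125 5 (.s k107 k104 0 (.s k195 k130 8 (.s k63 k151 13 (.s k149 k192 14 (.s k61 k193 13
  (.d k60 k150 k62 14 0))))))), (.s k64 k127 6 (.s k66 k67 0 (.s k130 k195 8 (.s k2 k194 7 (.s k3 k1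
  0 (.d k192 k128 k129 7 8))))))] (.c k107 (.l (.s k64 k127 6 (.s k105 k125 5 (.s k192 k128 7 (.s
  k149 k63 14 (.s k193 k61 13 (.d k195 k194 k130 0 8))))))) .n))

def s42_170_118 : T TT 256 :=
  (.q k65 [(.s k64 k127 6 (.s k67 k66 0 (.s k105 k125 5 (.s k104 k107 0 (.d k124 k84 k86 5 6))))),
  (.s k105 k125 5 (.s k107 k104 0 (.s k195 k130 8 (.s k63 k151 13 (.s k149 k192 14 (.s k61 k193 13
  (.d k60 k150 k62 14 0))))))), (.s k64 k127 6 (.s k66 k67 0 (.s k130 k195 8 (.s k2 k194 7 (.s k3 k1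
  0 (.d k192 k128 k129 7 8))))))] (.c k107 (.l (.s k64 k127 6 (.s k105 k125 5 (.s k192 k128 7 (.s
  k149 k63 14 (.s k193 k61 13 (.d k195 k194 k130 0 8))))))) .n))

def s42_170_119 : T TT 256 :=
  (.q k65 [(.s k64 k127 6 (.s k67 k66 0 (.s k105 k125 5 (.s k104 k107 0 (.d k124 k84 k86 5 6))))),
  (.s k105 k125 5 (.s k107 k104 0 (.s k195 k130 8 (.s k63 k151 13 (.s k149 k192 14 (.s k61 k193 13
  (.d k60 k150 k62 14 0))))))), (.s k64 k127 6 (.s k66 k67 0 (.s k130 k195 8 (.s k2 k194 7 (.s k3 k1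
  0 (.d k192 k128 k129 7 8))))))] (.c k107 (.l (.s k64 k127 6 (.s k105 k125 5 (.s k192 k128 7 (.s
  k149 k63 14 (.s k193 k61 13 (.d k195 k194 k130 0 8))))))) .n))

def s42_170_120 : T TT 256 :=
  (.q k65 [(.s k64 k127 6 (.s k67 k66 0 (.s k105 k125 5 (.s k104 k107 0 (.d k124 k84 k86 5 6))))),
  (.s k105 k125 5 (.s k107 k104 0 (.s k195 k130 8 (.s k63 k151 13 (.s k149 k192 14 (.s k61 k193 13
  (.d k60 k150 k62 14 0))))))), (.s k64 k127 6 (.s k66 k67 0 (.s k130 k195 8 (.s k2 k194 7 (.s k3 k1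
  0 (.d k192 k128 k129 7 8))))))] (.c k107 (.l (.s k64 k127 6 (.s k105 k125 5 (.s k192 k128 7 (.s
  k149 k63 14 (.s k193 k61 13 (.d k195 k194 k130 0 8))))))) .n))

def s42_170_121 : T TT 256 :=
  (.q k65 [(.s k64 k127 6 (.s k67 k66 0 (.s k105 k125 5 (.s k104 k107 0 (.d k124 k84 k86 5 6))))),
  (.s k64 k127 6 (.s k66 k67 0 (.s k130 k195 8 (.s k2 k194 7 (.s k3 k1 0 (.d k192 k128 k129 7
  8)))))), (.s k105 k125 5 (.s k107 k104 0 (.s k195 k130 8 (.s k63 k151 13 (.s k149 k192 14 (.s k61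
  k193 13 (.d k60 k150 k62 14 0)))))))] (.c k107 (.l (.s k64 k127 6 (.s k105 k125 5 (.s k192 k128 7
  (.s k149 k63 14 (.s k193 k61 13 (.d k195 k194 k130 0 8))))))) .n))

def s42_170_122 : T TT 256 :=
  (.q k65 [(.s k64 k127 6 (.s k67 k66 0 (.s k105 k125 5 (.s k104 k107 0 (.d k124 k84 k86 5 6))))),
  (.s k105 k125 5 (.s k107 k104 0 (.s k195 k130 8 (.s k63 k151 13 (.s k149 k192 14 (.s k61 k193 13
  (.d k60 k150 k62 14 0))))))), (.s k64 k127 6 (.s k66 k67 0 (.s k130 k195 8 (.s k2 k194 7 (.s k3 k1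
  0 (.d k192 k128 k129 7 8))))))] (.c k107 (.l (.s k64 k127 6 (.s k105 k125 5 (.s k192 k128 7 (.s
  k149 k63 14 (.s k193 k61 13 (.d k195 k194 k130 0 8))))))) .n))

def s42_170_123 : T TT 256 :=
  (.q k65 [(.s k64 k127 6 (.s k67 k66 0 (.s k105 k125 5 (.s k104 k107 0 (.d k124 k84 k86 5 6))))),
  (.s k105 k125 5 (.s k107 k104 0 (.s k195 k130 8 (.s k63 k151 13 (.s k149 k192 14 (.s k61 k193 13
  (.d k60 k150 k62 14 0))))))), (.s k64 k127 6 (.s k66 k67 0 (.s k130 k195 8 (.s k2 k194 7 (.s k3 k1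
  0 (.d k192 k128 k129 7 8))))))] (.c k107 (.l (.s k64 k127 6 (.s k105 k125 5 (.s k192 k128 7 (.s
  k149 k63 14 (.s k193 k61 13 (.d k195 k194 k130 0 8))))))) .n))

def s42_170_124 : T TT 256 :=
  (.q k68 [(.s k64 k127 6 (.s k76 k72 1 (.s k102 k119 4 (.s k98 k110 1 (.d k115 k81 k89 4 6))))),
  (.s k102 k119 4 (.s k110 k98 1 (.s k204 k136 9 (.s k63 k157 12 (.s k149 k192 14 (.s k55 k196 12
  (.d k51 k153 k59 14 1))))))), (.s k64 k127 6 (.s k72 k76 1 (.s k136 k204 9 (.s k8 k200 7 (.s k12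
  k4 1 (.d k192 k128 k132 7 9))))))] (.c k110 (.l (.s k64 k127 6 (.s k102 k119 4 (.s k192 k128 7 (.s
  k149 k63 14 (.s k196 k55 12 (.d k204 k200 k136 1 9))))))) .n))

def s42_170_125 : T TT 256 :=
  (.q k68 [(.s k64 k127 6 (.s k76 k72 1 (.s k102 k119 4 (.s k98 k110 1 (.d k115 k81 k89 4 6))))),
  (.s k102 k119 4 (.s k110 k98 1 (.s k204 k136 9 (.s k63 k157 12 (.s k149 k192 14 (.s k55 k196 12
  (.d k51 k153 k59 14 1))))))), (.s k64 k127 6 (.s k72 k76 1 (.s k136 k204 9 (.s k8 k200 7 (.s k12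
  k4 1 (.d k192 k128 k132 7 9))))))] (.c k110 (.l (.s k64 k127 6 (.s k102 k119 4 (.s k192 k128 7 (.s
  k149 k63 14 (.s k196 k55 12 (.d k204 k200 k136 1 9))))))) .n))

def s42_170_126 : T TT 256 :=
  (.q k68 [(.s k64 k127 6 (.s k76 k72 1 (.s k102 k119 4 (.s k98 k110 1 (.d k115 k81 k89 4 6))))),
  (.s k102 k119 4 (.s k110 k98 1 (.s k204 k136 9 (.s k63 k157 12 (.s k149 k192 14 (.s k55 k196 12
  (.d k51 k153 k59 14 1))))))), (.s k64 k127 6 (.s k72 k76 1 (.s k136 k204 9 (.s k8 k200 7 (.s k12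
  k4 1 (.d k192 k128 k132 7 9))))))] (.c k110 (.l (.s k64 k127 6 (.s k102 k119 4 (.s k192 k128 7 (.s
  k149 k63 14 (.s k196 k55 12 (.d k204 k200 k136 1 9))))))) .n))

def s42_170_127 : T TT 256 :=
  (.q k150 [(.s k20 k215 8 (.s k60 k40 5 (.s k62 k194 13 (.s k63 k61 0 (.s k149 k192 14 (.s k151
  k148 0 (.d k195 k105 k107 14 13)))))))] (.c k20 (.q k90 [(.s k30 k210 9 (.s k62 k194 13 (.s k122
  k74 3 (.s k242 k182 9 (.d k14 k46 k166 3 13))))), (.s k80 k95 2 (.s k210 k30 9 (.s k240 k160 11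
  (.s k195 k225 4 (.s k65 k130 8 (.d k105 k125 k60 5 14)))))), (.s k80 k95 2 (.s k122 k74 3 (.s k240
  k160 11 (.s k63 k181 10 (.s k149 k192 14 (.s k31 k208 10 (.d k15 k165 k47 14 3)))))))] .n) (.c k40
  (.f k215 k20 8 (.q k195 [(.s k65 k130 8 (.d k105 k125 k60 5 14)), (.s k105 k60 14 (.s k107 k104 0
  (.s k63 k151 13 (.s k192 k149 14 (.d k194 k193 k62 0 13)))))] (.c k41 (.q k43 [(.s k65 k130 8 (.d
  k105 k125 k60 5 14)), (.s k235 k255 5 (.s k107 k171 7 (.s k63 k151 13 (.s k192 k149 14 (.d k194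
  k193 k62 0 13)))))] (.c k105 (.l (.s k235 k255 5 (.s k107 k171 7 (.s k63 k151 13 (.s k192 k149 14
  (.d k194 k193 k62 0 13)))))) (.c k235 (.l (.s k105 k60 14 (.d k65 k125 k130 5 8))) .n))) (.c k43
  (.q k41 [(.s k65 k130 8 (.d k105 k125 k60 5 14)), (.s k105 k60 14 (.s k107 k104 0 (.s k63 k151 13
  (.s k192 k149 14 (.d k194 k193 k62 0 13)))))] (.c k60 (.l (.s k65 k130 8 (.s k105 k125 5 (.s k107
  k104 0 (.s k63 k151 13 (.s k192 k149 14 (.d k194 k193 k62 0 13))))))) (.c k105 (.l (.s k235 k255 5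
  (.s k130 k65 8 (.s k194 k62 13 (.s k192 k193 0 (.s k128 k64 7 (.s k129 k131 0 (.d k66 k2 k3 7
  8)))))))) (.c k235 (.l (.s k105 k60 14 (.d k65 k125 k130 5 8))) .n)))) (.c k60 (.l (.s k65 k130 8
  (.s k105 k125 5 (.s k107 k104 0 (.s k63 k151 13 (.s k192 k149 14 (.d k194 k193 k62 0 13))))))) (.c
  k105 (.l (.s k235 k255 5 (.s k130 k65 8 (.s k194 k62 13 (.s k192 k193 0 (.s k128 k64 7 (.s k129
  k131 0 (.d k66 k2 k3 7 8)))))))) (.c k235 (.l (.s k105 k60 14 (.d k65 k125 k130 5 8))) .n)))))))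
  (.c k41 (.q k43 [(.s k20 k215 8 (.s k60 k40 5 (.s k62 k194 13 (.s k63 k61 0 (.s k23 k3 5 (.s k21
  k22 0 (.d k149 k213 k192 7 14))))))), (.s k169 k232 8 (.s k1 k253 13 (.s k3 k2 0 (.s k63 k23 5 (.s
  k86 k252 14 (.s k66 k126 5 (.d k192 k129 k149 8 14))))))), (.s k20 k215 8 (.s k60 k40 5 (.s k169
  k232 8 (.s k1 k253 13 (.s k188 k131 6 (.s k252 k124 7 (.d k3 k2 k86 0 14))))))), (.s k20 k215 8
  (.s k60 k40 5 (.s k62 k194 13 (.s k105 k195 14 (.s k104 k107 0 (.s k192 k148 13 (.d k63 k61 k149 0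
  14)))))))] .n) (.c k43 (.f k62 k194 13 (.q k60 [(.d k20 k40 k215 5 8), (.s k63 k61 0 (.s k105 k195
  14 (.s k104 k107 0 (.d k192 k148 k149 13 14))))] (.c k40 (.q k41 [(.s k3 k22 6 (.s k61 k63 0 (.d
  k1 k2 k21 0 5))), (.s k63 k61 0 (.s k105 k195 14 (.s k104 k107 0 (.d k192 k148 k149 13 14)))), (.s
  k3 k22 6 (.s k1 k2 0 (.s k105 k195 14 (.d k169 k233 k253 7 13))))] (.c k105 (.q k235 [(.s k3 k22 6
  (.s k61 k63 0 (.d k1 k2 k21 0 5))), (.s k63 k61 0 (.s k149 k192 14 (.s k151 k148 0 (.s k195 k107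
  13 (.d k215 k255 k20 5 8))))), (.s k3 k22 6 (.s k1 k2 0 (.s k169 k253 13 (.s k188 k131 6 (.d k252
  k86 k124 14 7)))))] .n) (.c k235 (.l (.s k105 k195 14 (.s k3 k22 6 (.s k1 k2 0 (.d k61 k63 k21 0
  5))))) .n))) (.c k41 (.l (.s k40 k20 5 (.s k63 k61 0 (.s k105 k195 14 (.s k104 k107 0 (.d k192
  k148 k149 13 14)))))) .n)))) (.c k60 (.q k84 [(.s k20 k215 8 (.s k86 k87 0 (.s k22 k214 7 (.s k23
  k21 0 (.d k212 k148 k149 7 8))))), (.s k86 k87 0 (.s k66 k126 5 (.s k194 k62 13 (.s k2 k130 7 (.s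
  k3 k1 0 (.d k252 k168 k169 13 14)))))), (.s k20 k215 8 (.s k148 k212 7 (.s k149 k151 0 (.s k168
  k252 13 (.s k192 k63 14 (.d k128 k188 k64 5 7)))))), (.s k20 k215 8 (.s k212 k148 7 (.s k252 k168
  13 (.s k192 k232 5 (.s k149 k63 14 (.s k21 k213 7 (.d k23 k22 k86 0 8)))))))] .n) (.c k61 (.q k4
  [(.s k20 k215 8 (.s k52 k36 3 (.s k101 k199 12 (.s k117 k69 3 (.d k247 k182 k166 8 12))))), (.s
  k12 k8 1 (.s k20 k215 8 (.s k36 k52 3 (.s k24 k48 5 (.s k28 k16 1 (.d k60 k44 k40 3 5)))))), (.s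
  k12 k8 1 (.s k166 k247 12 (.s k134 k182 3 (.s k195 k73 10 (.s k65 k130 8 (.d k105 k125 k60 5
  14))))))] (.c k52 (.l (.s k12 k8 1 (.s k20 k215 8 (.s k60 k40 5 (.s k28 k44 3 (.s k89 k211 10 (.d
  k166 k247 k243 12 14))))))) .n)) (.c k62 (.f k20 k215 8 (.l (.s k60 k40 5 (.s k105 k195 14 (.s
  k104 k107 0 (.s k148 k192 13 (.s k84 k212 7 (.s k124 k64 5 (.d k86 k87 k67 0 6))))))))) (.c k63
  (.f k215 k20 8 (.f k62 k194 13 (.q k247 [(.s k4 k166 12 (.s k199 k231 3 (.s k101 k52 12 (.d k69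
  k117 k134 3 8)))), (.s k166 k4 12 (.s k46 k226 9 (.s k14 k30 3 (.s k242 k90 13 (.d k182 k134 k122
  3 9)))))] (.c k4 (.l (.s k199 k231 3 (.s k52 k101 12 (.s k182 k117 8 (.s k166 k134 3 (.s k46 k226
  9 (.s k14 k30 3 (.d k242 k122 k90 9 13)))))))) (.c k36 (.l (.s k4 k166 12 (.s k199 k231 3 (.s k101
  k52 12 (.d k69 k117 k134 3 8))))) (.c k52 (.l (.s k4 k166 12 (.s k12 k8 1 (.s k199 k231 3 (.s k134
  k69 8 (.s k195 k73 10 (.s k65 k130 8 (.d k105 k125 k60 5 14)))))))) (.c k134 (.l (.s k166 k4 12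
  (.s k46 k226 9 (.s k14 k30 3 (.s k199 k231 3 (.s k52 k101 12 (.s k182 k117 8 (.d k242 k122 k90 9
  13)))))))) (.c k166 (.l (.s k199 k231 3 (.s k101 k52 12 (.s k69 k117 3 (.s k207 k138 10 (.s k195
  k203 1 (.s k65 k130 8 (.d k105 k125 k60 5 14)))))))) (.c k191 (.q k255 [(.s k195 k235 5 (.s k105
  k60 14 (.d k65 k125 k130 5 8))), (.s k4 k166 12 (.s k199 k231 3 (.s k69 k134 8 (.d k101 k117 k52 3
  12))))] (.c k128 (.q k149 [(.s k195 k235 5 (.s k105 k60 14 (.d k65 k125 k130 5 8))), (.s k4 k166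
  12 (.s k199 k231 3 (.s k69 k134 8 (.d k101 k117 k52 3 12))))] .n) (.c k149 (.q k128 [(.s k195 k235
  5 (.s k105 k60 14 (.d k65 k125 k130 5 8))), (.s k4 k166 12 (.s k199 k231 3 (.s k69 k134 8 (.d k101
  k117 k52 3 12))))] .n) .n))) (.c k255 (.q k191 [(.s k4 k166 12 (.s k199 k231 3 (.s k101 k52 12 (.d
  k69 k117 k134 3 8)))), (.s k166 k4 12 (.s k46 k226 9 (.s k14 k30 3 (.s k242 k90 13 (.d k182 k134
  k122 3 9)))))] (.c k4 (.l (.s k199 k231 3 (.s k52 k101 12 (.s k182 k117 8 (.s k166 k134 3 (.s k46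
  k226 9 (.s k14 k30 3 (.d k242 k122 k90 9 13)))))))) (.c k36 (.l (.s k4 k166 12 (.s k199 k231 3 (.s
  k101 k52 12 (.d k69 k117 k134 3 8))))) (.c k52 (.l (.s k4 k166 12 (.s k12 k8 1 (.s k199 k231 3 (.s
  k134 k69 8 (.s k195 k73 10 (.s k65 k130 8 (.d k105 k125 k60 5 14)))))))) (.c k134 (.l (.s k166 k4
  12 (.s k46 k226 9 (.s k14 k30 3 (.s k199 k231 3 (.s k52 k101 12 (.s k182 k117 8 (.d k242 k122 k90
  9 13)))))))) (.c k166 (.l (.s k199 k231 3 (.s k101 k52 12 (.s k69 k117 3 (.s k207 k138 10 (.s k195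
  k203 1 (.s k65 k130 8 (.d k105 k125 k60 5 14)))))))) .n)))))) .n)))))))))) (.c k105 (.f k62 k194
  13 (.f k20 k215 8 (.f k40 k60 5 (.q k4 [(.s k52 k36 3 (.s k101 k199 12 (.s k117 k69 3 (.d k247
  k182 k166 8 12)))), (.s k12 k8 1 (.s k36 k52 3 (.s k48 k24 5 (.d k32 k44 k16 1 3)))), (.s k166
  k247 12 (.s k46 k226 9 (.s k14 k30 3 (.s k182 k134 3 (.d k242 k122 k90 9 13)))))] .n)))) (.c k107
  (.f k62 k194 13 (.f k20 k215 8 (.l (.s k60 k40 5 (.s k63 k61 0 (.s k149 k192 14 (.s k21 k213 7 (.s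
  k23 k22 0 (.s k148 k151 0 (.d k212 k84 k86 7 8)))))))))) (.c k148 (.q k1 [(.s k2 k3 0 (.s k20 k215
  8 (.s k194 k62 13 (.s k130 k66 7 (.s k195 k65 8 (.d k60 k40 k105 5 14)))))), (.s k20 k215 8 (.s
  k60 k40 5 (.s k105 k195 14 (.s k169 k253 13 (.s k41 k233 7 (.d k3 k2 k22 0 6)))))), (.s k2 k3 0
  (.s k169 k253 13 (.s k131 k188 6 (.s k194 k62 13 (.s k130 k66 7 (.s k65 k195 8 (.d k129 k128 k193
  0 7))))))), (.s k20 k215 8 (.s k60 k40 5 (.s k62 k194 13 (.s k61 k63 0 (.s k41 k21 5 (.s k105 k195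
  14 (.d k169 k233 k253 7 13)))))))] (.c k195 (.l (.s k3 k2 0 (.s k20 k215 8 (.s k60 k40 5 (.s k41
  k22 6 (.s k62 k194 13 (.d k61 k63 k21 0 5))))))) .n)) (.c k149 (.f k20 k215 8 (.l (.s k60 k40 5
  (.s k105 k195 14 (.s k104 k107 0 (.s k148 k192 13 (.s k84 k212 7 (.s k124 k64 5 (.d k86 k87 k67 0
  6))))))))) (.c k151 (.l (.s k20 k215 8 (.s k60 k40 5 (.s k62 k194 13 (.s k63 k61 0 (.s k105 k195
  14 (.s k104 k107 0 (.d k192 k148 k149 13 14)))))))) (.c k192 (.q k1 [(.s k20 k215 8 (.s k60 k40 5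
  (.s k169 k253 13 (.s k188 k131 6 (.s k252 k124 7 (.d k3 k2 k86 0 14)))))), (.s k2 k3 0 (.s k169
  k253 13 (.s k131 k188 6 (.s k194 k62 13 (.s k130 k66 7 (.s k129 k128 0 (.d k65 k193 k195 7
  8))))))), (.s k3 k2 0 (.s k20 k215 8 (.s k60 k40 5 (.s k41 k22 6 (.s k62 k194 13 (.d k61 k63 k21 0
  5)))))), (.s k20 k215 8 (.s k60 k40 5 (.s k62 k194 13 (.s k61 k63 0 (.s k41 k21 5 (.s k169 k253 13
  (.d k105 k195 k233 14 7)))))))] .n) (.c k193 (.l (.s k20 k215 8 (.s k60 k40 5 (.s k62 k194 13 (.s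
  k63 k61 0 (.s k105 k195 14 (.s k192 k149 14 (.d k104 k107 k148 0 13)))))))) (.c k194 (.q k4 [(.s
  k20 k215 8 (.s k52 k36 3 (.s k101 k199 12 (.s k117 k69 3 (.d k247 k182 k166 8 12))))), (.s k12 k8
  1 (.s k20 k215 8 (.s k36 k52 3 (.s k24 k48 5 (.s k28 k16 1 (.d k60 k44 k40 3 5)))))), (.s k12 k8 1
  (.s k166 k247 12 (.s k134 k182 3 (.s k195 k73 10 (.s k65 k130 8 (.d k105 k125 k60 5 14))))))] (.c
  k52 (.l (.s k12 k8 1 (.s k20 k215 8 (.s k60 k40 5 (.s k28 k44 3 (.s k89 k211 10 (.d k166 k247 k243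
  12 14))))))) .n)) (.c k195 (.q k4 [(.s k215 k20 8 (.s k247 k166 12 (.s k199 k231 3 (.s k101 k52 12
  (.d k69 k117 k134 3 8))))), (.s k62 k194 13 (.s k166 k247 12 (.s k46 k226 9 (.s k14 k30 3 (.s k182
  k134 3 (.d k242 k122 k90 9 13)))))), (.s k12 k8 1 (.s k20 k215 8 (.s k36 k52 3 (.s k24 k48 5 (.s
  k28 k16 1 (.d k60 k44 k40 3 5))))))] .n) (.c k215 (.q k90 [(.s k30 k210 9 (.s k62 k194 13 (.s k122
  k74 3 (.s k242 k182 9 (.d k14 k46 k166 3 13))))), (.s k80 k95 2 (.s k210 k30 9 (.s k240 k160 11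
  (.s k195 k225 4 (.s k65 k130 8 (.d k105 k125 k60 5 14)))))), (.s k80 k95 2 (.s k122 k74 3 (.s k240
  k160 11 (.s k63 k181 10 (.s k149 k192 14 (.s k31 k208 10 (.d k15 k165 k47 14 3)))))))] .n) (.c
  k235 (.q k195 [(.s k20 k215 8 (.d k60 k40 k105 5 14)), (.s k65 k130 8 (.s k105 k125 5 (.s k107
  k104 0 (.s k63 k151 13 (.s k192 k149 14 (.d k194 k193 k62 0 13))))))] (.c k40 (.l (.s k105 k60 14
  (.d k65 k125 k130 5 8))) (.c k105 (.q k40 [(.d k20 k60 k215 5 8), (.s k130 k65 8 (.s k194 k62 13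
  (.s k192 k193 0 (.s k128 k64 7 (.s k129 k131 0 (.d k66 k2 k3 7 8))))))] .n) .n)))
  .n))))))))))))))))))))

def s42_170_128 : T TT 256 :=
  (.f k64 k127 6 (.q k69 [(.s k79 k74 2 (.s k101 k117 3 (.s k96 k111 2 (.d k112 k80 k90 3 6)))), (.s
  k101 k117 3 (.s k111 k96 2 (.s k207 k138 10 (.s k63 k159 11 (.s k149 k192 14 (.s k53 k197 11 (.d
  k48 k154 k58 14 2))))))), (.s k74 k79 2 (.s k90 k122 3 (.s k138 k207 10 (.s k10 k202 7 (.s k15 k5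
  2 (.s k240 k165 14 (.d k80 k95 k160 2 11)))))))] (.c k111 (.l (.s k79 k74 2 (.s k101 k117 3 (.s
  k112 k90 6 (.s k80 k96 3 (.s k207 k138 10 (.s k240 k160 11 (.d k48 k176 k154 7 14)))))))) (.c k112
  (.f k74 k79 2 (.l (.s k90 k122 3 (.s k117 k101 3 (.s k138 k207 10 (.s k10 k202 7 (.s k15 k5 2 (.s
  k240 k165 14 (.d k80 k160 k95 11 2))))))))) (.c k117 (.f k138 k207 10 (.f k74 k79 2 (.f k10 k202 7
  (.l (.s k15 k5 2 (.s k192 k133 10 (.s k149 k63 14 (.s k213 k21 7 (.s k255 k234 6 (.s k95 k175 11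
  (.d k90 k80 k122 2 3))))))))))) (.c k122 (.l (.s k79 k74 2 (.s k101 k117 3 (.s k112 k90 6 (.d k96
  k111 k80 2 3))))) (.c k149 (.q k191 [(.s k79 k74 2 (.s k101 k117 3 (.s k96 k111 2 (.d k112 k80 k90
  3 6)))), (.s k79 k74 2 (.s k207 k138 10 (.s k143 k15 7 (.s k159 k175 3 (.s k111 k63 11 (.d k101
  k96 k117 2 3)))))), (.s k74 k79 2 (.s k90 k122 3 (.s k138 k207 10 (.s k10 k202 7 (.s k15 k5 2 (.s
  k240 k165 14 (.d k80 k95 k160 2 11)))))))] (.c k74 (.q k1 [(.s k101 k117 3 (.s k169 k253 13 (.s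
  k33 k237 9 (.s k49 k17 3 (.d k205 k137 k153 9 13))))), (.s k3 k2 0 (.s k137 k205 9 (.s k70 k204 10
  (.s k71 k68 0 (.d k207 k139 k138 9 10))))), (.s k3 k2 0 (.s k101 k117 3 (.s k169 k253 13 (.s k86
  k252 14 (.s k71 k116 4 (.d k207 k139 k138 9 10))))))] .n) (.c k79 (.f k101 k117 3 (.f k111 k96 2
  (.l (.s k207 k138 10 (.s k154 k48 14 (.s k159 k63 11 (.s k223 k16 10 (.s k95 k31 7 (.s k255 k239 3
  (.d k175 k143 k15 3 11)))))))))) (.c k111 (.l (.s k79 k74 2 (.s k101 k117 3 (.s k112 k90 6 (.s k80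
  k96 3 (.s k207 k138 10 (.s k240 k160 11 (.d k48 k176 k154 7 14)))))))) (.c k117 (.f k79 k74 2 (.q
  k112 [(.s k80 k96 3 (.d k90 k95 k101 2 6)), (.s k101 k90 6 (.s k111 k96 2 (.s k207 k138 10 (.s
  k143 k15 7 (.d k159 k175 k63 3 11)))))] (.c k90 (.l (.s k96 k80 3 (.s k111 k101 2 (.s k207 k138 10
  (.s k143 k15 7 (.d k159 k175 k63 3 11)))))) (.c k96 (.l (.s k90 k101 6 (.s k80 k95 2 (.s k207 k138
  10 (.s k240 k160 11 (.d k15 k143 k165 7 14)))))) (.c k101 (.l (.s k80 k96 3 (.s k90 k95 2 (.s k207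
  k138 10 (.s k240 k160 11 (.d k15 k143 k165 7 14)))))) .n))))) .n))))) (.c k191 (.q k149 [(.s k79
  k74 2 (.s k101 k117 3 (.s k96 k111 2 (.d k112 k80 k90 3 6)))), (.s k74 k79 2 (.s k138 k207 10 (.s
  k10 k202 7 (.s k15 k5 2 (.d k192 k63 k133 14 10))))), (.s k101 k117 3 (.s k197 k53 11 (.s k207
  k138 10 (.d k192 k63 k202 14 2))))] (.c k63 (.q k255 [(.s k79 k74 2 (.s k101 k117 3 (.s k96 k111 2
  (.d k112 k80 k90 3 6)))), (.s k207 k138 10 (.s k223 k239 3 (.s k154 k16 10 (.d k101 k117 k48 3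
  14)))), (.s k74 k79 2 (.s k138 k207 10 (.s k10 k202 7 (.s k15 k5 2 (.s k95 k175 11 (.d k90 k80
  k122 2 3))))))] (.c k207 (.l (.s k79 k74 2 (.s k101 k117 3 (.s k112 k90 6 (.d k96 k111 k80 2
  3))))) .n)) (.c k255 (.l (.s k63 k192 14 (.s k101 k117 3 (.s k111 k96 2 (.d k207 k138 k159 10
  11))))) .n))) .n))))))))

def s42_170_129 : T TT 256 :=
  (.q k68 [(.s k64 k127 6 (.s k76 k72 1 (.s k102 k119 4 (.s k98 k110 1 (.d k115 k81 k89 4 6))))),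
  (.s k102 k119 4 (.s k110 k98 1 (.s k204 k136 9 (.s k63 k157 12 (.s k149 k192 14 (.s k55 k196 12
  (.d k51 k153 k59 14 1))))))), (.s k64 k127 6 (.s k72 k76 1 (.s k136 k204 9 (.s k8 k200 7 (.s k12
  k4 1 (.d k192 k128 k132 7 9))))))] (.c k110 (.l (.s k64 k127 6 (.s k102 k119 4 (.s k192 k128 7 (.s
  k149 k63 14 (.s k196 k55 12 (.d k204 k200 k136 1 9))))))) .n))

def s42_170_130 : T TT 256 :=
  (.f k64 k127 6 (.q k150 [(.s k20 k215 8 (.s k60 k40 5 (.s k62 k194 13 (.s k63 k61 0 (.d k192 k128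
  k149 7 14))))), (.s k20 k215 8 (.s k192 k128 7 (.s k149 k63 14 (.s k148 k151 0 (.s k84 k212 7 (.d
  k104 k124 k60 5 13)))))), (.s k20 k215 8 (.s k60 k40 5 (.s k105 k195 14 (.s k65 k125 5 (.s k67 k66
  0 (.s k104 k107 0 (.d k124 k84 k86 5 6))))))), (.s k192 k128 7 (.s k149 k63 14 (.s k148 k151 0 (.s
  k60 k104 13 (.s k194 k62 13 (.d k195 k193 k105 0 14))))))] (.c k60 (.l (.s k20 k215 8 (.s k192
  k128 7 (.s k149 k63 14 (.s k21 k213 7 (.s k23 k22 0 (.s k148 k151 0 (.d k212 k84 k86 7 8))))))))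
  (.c k63 (.l (.s k20 k215 8 (.s k60 k40 5 (.s k105 k195 14 (.s k192 k128 7 (.d k104 k107 k148 0
  13)))))) .n))))

def s42_170_131 : T TT 256 :=
  (.q k65 [(.s k64 k127 6 (.s k67 k66 0 (.s k105 k125 5 (.s k104 k107 0 (.d k124 k84 k86 5 6))))),
  (.s k105 k125 5 (.s k107 k104 0 (.s k195 k130 8 (.s k63 k151 13 (.s k149 k192 14 (.s k61 k193 13
  (.d k60 k150 k62 14 0))))))), (.s k64 k127 6 (.s k66 k67 0 (.s k192 k128 7 (.s k3 k129 8 (.s k130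
  k195 8 (.d k2 k1 k194 0 7))))))] (.c k107 (.l (.s k64 k127 6 (.s k105 k125 5 (.s k192 k128 7 (.s
  k149 k63 14 (.s k193 k61 13 (.d k195 k130 k194 8 0))))))) .n))

def s42_170_132 : T TT 256 :=
  (.q k65 [(.s k64 k127 6 (.s k67 k66 0 (.s k105 k125 5 (.s k104 k107 0 (.d k124 k84 k86 5 6))))),
  (.s k105 k125 5 (.s k107 k104 0 (.s k195 k130 8 (.s k63 k151 13 (.s k149 k192 14 (.s k61 k193 13
  (.d k60 k150 k62 14 0))))))), (.s k64 k127 6 (.s k66 k67 0 (.s k130 k195 8 (.s k2 k194 7 (.s k3 k1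
  0 (.d k192 k128 k129 7 8))))))] (.c k107 (.l (.s k64 k127 6 (.s k105 k125 5 (.s k192 k128 7 (.s
  k149 k63 14 (.s k193 k61 13 (.d k195 k194 k130 0 8))))))) .n))

def s42_170_133 : T TT 256 :=
  (.q k65 [(.s k64 k127 6 (.s k67 k66 0 (.s k105 k125 5 (.s k104 k107 0 (.d k124 k84 k86 5 6))))),
  (.s k105 k125 5 (.s k107 k104 0 (.s k195 k130 8 (.s k63 k151 13 (.s k149 k192 14 (.s k61 k193 13
  (.d k60 k150 k62 14 0))))))), (.s k64 k127 6 (.s k66 k67 0 (.s k130 k195 8 (.s k2 k194 7 (.s k3 k1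
  0 (.d k192 k128 k129 7 8))))))] (.c k107 (.l (.s k64 k127 6 (.s k105 k125 5 (.s k192 k128 7 (.s
  k149 k63 14 (.s k193 k61 13 (.d k195 k194 k130 0 8))))))) .n))

def s42_170_134 : T TT 256 :=
  (.q k65 [(.s k64 k127 6 (.s k67 k66 0 (.s k105 k125 5 (.s k104 k107 0 (.d k124 k84 k86 5 6))))),
  (.s k105 k125 5 (.s k107 k104 0 (.s k195 k130 8 (.s k63 k151 13 (.s k149 k192 14 (.s k61 k193 13
  (.d k60 k150 k62 14 0))))))), (.s k64 k127 6 (.s k66 k67 0 (.s k130 k195 8 (.s k2 k194 7 (.s k3 k1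
  0 (.d k192 k128 k129 7 8))))))] (.c k107 (.l (.s k64 k127 6 (.s k105 k125 5 (.s k192 k128 7 (.s
  k149 k63 14 (.s k193 k61 13 (.d k195 k194 k130 0 8))))))) .n))

def s42_170_135 : T TT 256 :=
  (.q k65 [(.s k64 k127 6 (.s k67 k66 0 (.s k105 k125 5 (.s k104 k107 0 (.d k124 k84 k86 5 6))))),
  (.s k105 k125 5 (.s k107 k104 0 (.s k195 k130 8 (.s k63 k151 13 (.s k149 k192 14 (.s k61 k193 13
  (.d k60 k150 k62 14 0))))))), (.s k64 k127 6 (.s k66 k67 0 (.s k130 k195 8 (.s k2 k194 7 (.s k3 k1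
  0 (.d k192 k128 k129 7 8))))))] (.c k107 (.l (.s k64 k127 6 (.s k105 k125 5 (.s k192 k128 7 (.s
  k149 k63 14 (.s k193 k61 13 (.d k195 k194 k130 0 8))))))) .n))

def s42_170_136 : T TT 256 :=
  (.f k64 k127 6 (.q k153 [(.s k17 k221 9 (.s k51 k34 4 (.s k59 k200 12 (.s k63 k55 1 (.d k192 k128
  k149 7 14))))), (.s k17 k221 9 (.s k192 k128 7 (.s k149 k63 14 (.s k145 k157 1 (.s k81 k209 7 (.d
  k98 k115 k51 4 12)))))), (.s k17 k221 9 (.s k51 k34 4 (.s k102 k204 14 (.s k68 k119 4 (.s k76 k72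
  1 (.s k98 k110 1 (.d k115 k81 k89 4 6))))))), (.s k192 k128 7 (.s k149 k63 14 (.s k145 k157 1 (.s
  k51 k98 12 (.s k200 k59 12 (.d k204 k196 k102 1 14))))))] (.c k51 (.l (.s k17 k221 9 (.s k192 k128
  7 (.s k149 k63 14 (.s k21 k213 7 (.s k29 k25 1 (.s k145 k157 1 (.d k209 k81 k89 7 9)))))))) (.c
  k63 (.l (.s k17 k221 9 (.s k51 k34 4 (.s k102 k204 14 (.s k192 k128 7 (.d k98 k110 k145 1 12))))))
  .n))))

def s42_170_137 : T TT 256 :=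
  (.q k65 [(.s k64 k127 6 (.s k67 k66 0 (.s k105 k125 5 (.s k104 k107 0 (.d k124 k84 k86 5 6))))),
  (.s k105 k125 5 (.s k107 k104 0 (.s k195 k130 8 (.s k63 k151 13 (.s k149 k192 14 (.s k61 k193 13
  (.d k60 k150 k62 14 0))))))), (.s k64 k127 6 (.s k66 k67 0 (.s k130 k195 8 (.s k2 k194 7 (.s k3 k1
  0 (.d k192 k128 k129 7 8))))))] (.c k107 (.l (.s k64 k127 6 (.s k105 k125 5 (.s k192 k128 7 (.s
  k149 k63 14 (.s k193 k61 13 (.d k195 k194 k130 0 8))))))) .n))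

def s42_170_138 : T TT 256 :=
  (.f k64 k127 6 (.q k154 [(.s k16 k223 10 (.s k48 k32 3 (.s k58 k202 11 (.s k63 k53 2 (.d k192 k128
  k149 7 14))))), (.s k16 k223 10 (.s k192 k128 7 (.s k149 k63 14 (.s k144 k159 2 (.s k80 k208 7 (.d
  k96 k112 k48 3 11)))))), (.s k16 k223 10 (.s k48 k32 3 (.s k101 k207 14 (.s k69 k117 3 (.s k79 k74
  2 (.s k96 k111 2 (.d k112 k80 k90 3 6))))))), (.s k192 k128 7 (.s k149 k63 14 (.s k144 k159 2 (.s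
  k48 k96 11 (.s k202 k58 11 (.d k207 k197 k101 2 14))))))] (.c k48 (.l (.s k16 k223 10 (.s k192
  k128 7 (.s k149 k63 14 (.s k21 k213 7 (.s k31 k26 2 (.s k144 k159 2 (.d k208 k80 k90 7 10))))))))
  (.c k63 (.l (.s k16 k223 10 (.s k48 k32 3 (.s k101 k207 14 (.s k192 k128 7 (.d k96 k111 k144 2
  11)))))) .n))))

def s42_170_139 : T TT 256 :=
  (.q k65 [(.s k64 k127 6 (.s k67 k66 0 (.s k105 k125 5 (.s k104 k107 0 (.d k124 k84 k86 5 6))))),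
  (.s k105 k125 5 (.s k107 k104 0 (.s k195 k130 8 (.s k63 k151 13 (.s k149 k192 14 (.s k61 k193 13
  (.d k60 k150 k62 14 0))))))), (.s k64 k127 6 (.s k66 k67 0 (.s k130 k195 8 (.s k2 k194 7 (.s k3 k1
  0 (.d k192 k128 k129 7 8))))))] (.c k107 (.l (.s k64 k127 6 (.s k105 k125 5 (.s k192 k128 7 (.s
  k149 k63 14 (.s k193 k61 13 (.d k195 k194 k130 0 8))))))) .n))

def s42_170_140 : T TT 256 :=
  (.q k65 [(.s k64 k127 6 (.s k67 k66 0 (.s k105 k125 5 (.s k104 k107 0 (.d k124 k84 k86 5 6))))),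
  (.s k105 k125 5 (.s k107 k104 0 (.s k195 k130 8 (.s k63 k151 13 (.s k149 k192 14 (.s k61 k193 13
  (.d k60 k150 k62 14 0))))))), (.s k64 k127 6 (.s k66 k67 0 (.s k130 k195 8 (.s k2 k194 7 (.s k3 k1
  0 (.d k192 k128 k129 7 8))))))] (.c k107 (.l (.s k64 k127 6 (.s k105 k125 5 (.s k192 k128 7 (.s
  k149 k63 14 (.s k193 k61 13 (.d k195 k194 k130 0 8))))))) .n))

def s42_170_141 : T TT 256 :=
  (.q k65 [(.s k64 k127 6 (.s k67 k66 0 (.s k105 k125 5 (.s k104 k107 0 (.d k124 k84 k86 5 6))))),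
  (.s k105 k125 5 (.s k107 k104 0 (.s k195 k130 8 (.s k63 k151 13 (.s k149 k192 14 (.s k61 k193 13
  (.d k60 k150 k62 14 0))))))), (.s k64 k127 6 (.s k66 k67 0 (.s k130 k195 8 (.s k2 k194 7 (.s k3 k1
  0 (.d k192 k128 k129 7 8))))))] (.c k107 (.l (.s k64 k127 6 (.s k105 k125 5 (.s k192 k128 7 (.s
  k149 k63 14 (.s k193 k61 13 (.d k195 k194 k130 0 8))))))) .n))

def s42_170_142 : T TT 256 :=
  (.q k65 [(.s k64 k127 6 (.s k67 k66 0 (.s k105 k125 5 (.s k104 k107 0 (.d k124 k84 k86 5 6))))),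
  (.s k105 k125 5 (.s k107 k104 0 (.s k195 k130 8 (.s k63 k151 13 (.s k149 k192 14 (.s k61 k193 13
  (.d k60 k150 k62 14 0))))))), (.s k64 k127 6 (.s k66 k67 0 (.s k130 k195 8 (.s k2 k194 7 (.s k3 k1
  0 (.d k192 k128 k129 7 8))))))] (.c k107 (.l (.s k64 k127 6 (.s k105 k125 5 (.s k192 k128 7 (.s
  k149 k63 14 (.s k193 k61 13 (.d k195 k194 k130 0 8))))))) .n))

def s42_170_143 : T TT 256 :=
  (.q k65 [(.s k64 k127 6 (.s k67 k66 0 (.s k105 k125 5 (.s k104 k107 0 (.d k124 k84 k86 5 6))))),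
  (.s k105 k125 5 (.s k107 k104 0 (.s k195 k130 8 (.s k63 k151 13 (.s k149 k192 14 (.s k61 k193 13
  (.d k60 k150 k62 14 0))))))), (.s k64 k127 6 (.s k66 k67 0 (.s k130 k195 8 (.s k2 k194 7 (.s k3 k1
  0 (.d k192 k128 k129 7 8))))))] (.c k107 (.l (.s k64 k127 6 (.s k105 k125 5 (.s k192 k128 7 (.s
  k149 k63 14 (.s k193 k61 13 (.d k195 k194 k130 0 8))))))) .n))

def s42_170_144 : T TT 256 :=
  (.q k65 [(.s k64 k127 6 (.s k67 k66 0 (.s k105 k125 5 (.s k104 k107 0 (.d k124 k84 k86 5 6))))),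
  (.s k105 k125 5 (.s k107 k104 0 (.s k195 k130 8 (.s k63 k151 13 (.s k149 k192 14 (.s k61 k193 13
  (.d k60 k150 k62 14 0))))))), (.s k64 k127 6 (.s k66 k67 0 (.s k130 k195 8 (.s k2 k194 7 (.s k3 k1
  0 (.d k192 k128 k129 7 8))))))] (.c k107 (.l (.s k64 k127 6 (.s k105 k125 5 (.s k192 k128 7 (.s
  k149 k63 14 (.s k193 k61 13 (.d k195 k194 k130 0 8))))))) .n))

def s42_170_145 : T TT 256 :=
  (.q k65 [(.s k64 k127 6 (.s k67 k66 0 (.s k105 k125 5 (.s k104 k107 0 (.d k124 k84 k86 5 6))))),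
  (.s k105 k125 5 (.s k107 k104 0 (.s k195 k130 8 (.s k63 k151 13 (.s k149 k192 14 (.s k61 k193 13
  (.d k60 k150 k62 14 0))))))), (.s k64 k127 6 (.s k66 k67 0 (.s k130 k195 8 (.s k2 k194 7 (.s k3 k1
  0 (.d k192 k128 k129 7 8))))))] (.c k107 (.l (.s k64 k127 6 (.s k105 k125 5 (.s k192 k128 7 (.s
  k149 k63 14 (.s k193 k61 13 (.d k195 k194 k130 0 8))))))) .n))

def s42_170_146 : T TT 256 :=
  (.q k65 [(.s k64 k127 6 (.s k67 k66 0 (.s k105 k125 5 (.s k104 k107 0 (.d k124 k84 k86 5 6))))),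
  (.s k105 k125 5 (.s k107 k104 0 (.s k195 k130 8 (.s k63 k151 13 (.s k149 k192 14 (.s k61 k193 13
  (.d k60 k150 k62 14 0))))))), (.s k64 k127 6 (.s k66 k67 0 (.s k130 k195 8 (.s k2 k194 7 (.s k3 k1
  0 (.d k192 k128 k129 7 8))))))] (.c k107 (.l (.s k64 k127 6 (.s k105 k125 5 (.s k192 k128 7 (.s
  k149 k63 14 (.s k193 k61 13 (.d k195 k194 k130 0 8))))))) .n))

def s42_170_147 : T TT 256 :=
  (.q k65 [(.s k64 k127 6 (.s k67 k66 0 (.s k105 k125 5 (.s k104 k107 0 (.d k124 k84 k86 5 6))))),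
  (.s k105 k125 5 (.s k107 k104 0 (.s k195 k130 8 (.s k63 k151 13 (.s k149 k192 14 (.s k61 k193 13
  (.d k60 k150 k62 14 0))))))), (.s k64 k127 6 (.s k66 k67 0 (.s k130 k195 8 (.s k2 k194 7 (.s k3 k1
  0 (.d k192 k128 k129 7 8))))))] (.c k107 (.l (.s k64 k127 6 (.s k105 k125 5 (.s k192 k128 7 (.s
  k149 k63 14 (.s k193 k61 13 (.d k195 k194 k130 0 8))))))) .n))

def s42_170_148 : T TT 256 :=
  (.q k65 [(.s k64 k127 6 (.s k67 k66 0 (.s k105 k125 5 (.s k104 k107 0 (.d k124 k84 k86 5 6))))),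
  (.s k105 k125 5 (.s k107 k104 0 (.s k195 k130 8 (.s k63 k151 13 (.s k150 k60 14 (.s k192 k149 14
  (.d k194 k193 k62 0 13))))))), (.s k64 k127 6 (.s k66 k67 0 (.s k130 k195 8 (.s k2 k194 7 (.s k3
  k1 0 (.d k192 k128 k129 7 8))))))] (.c k107 (.l (.s k64 k127 6 (.s k105 k125 5 (.s k192 k128 7 (.s
  k149 k63 14 (.s k193 k61 13 (.d k195 k194 k130 0 8))))))) .n))

def s42_170_149 : T TT 256 :=
  (.f k64 k127 6 (.q k68 [(.s k76 k72 1 (.s k102 k119 4 (.s k98 k110 1 (.d k115 k81 k89 4 6)))), (.s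
  k72 k76 1 (.s k136 k204 9 (.s k8 k200 7 (.s k12 k4 1 (.d k192 k128 k132 7 9))))), (.s k102 k119 4
  (.s k204 k136 9 (.s k153 k51 14 (.s k200 k59 12 (.d k192 k128 k196 7 1)))))] (.c k128 (.q k191
  [(.s k76 k72 1 (.s k102 k119 4 (.s k98 k110 1 (.d k115 k81 k89 4 6)))), (.s k76 k72 1 (.s k204
  k136 9 (.s k140 k12 7 (.s k157 k174 4 (.s k110 k63 12 (.d k102 k98 k119 1 4)))))), (.s k72 k76 1
  (.s k89 k123 4 (.s k136 k204 9 (.s k8 k200 7 (.s k12 k4 1 (.s k243 k166 14 (.d k81 k93 k162 1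
  12)))))))] (.c k72 (.q k3 [(.s k2 k1 0 (.s k204 k136 9 (.s k70 k137 10 (.s k69 k71 0 (.d k138 k206
  k207 9 10))))), (.s k1 k2 0 (.s k169 k253 13 (.s k86 k252 14 (.s k66 k126 5 (.s k65 k67 0 (.d k129
  k193 k192 7 8)))))), (.s k102 k119 4 (.s k204 k136 9 (.s k70 k137 10 (.s k86 k118 3 (.s k84 k87 0
  (.d k252 k168 k169 13 14))))))] .n) (.c k76 (.f k204 k136 9 (.f k102 k119 4 (.l (.s k110 k98 1 (.s
  k153 k51 14 (.s k157 k63 12 (.s k221 k17 9 (.s k93 k29 7 (.s k255 k238 4 (.d k174 k12 k140 12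
  4)))))))))) (.c k110 (.l (.s k76 k72 1 (.s k102 k119 4 (.s k115 k89 6 (.s k81 k98 4 (.s k204 k136
  9 (.s k243 k162 12 (.d k51 k179 k153 7 14)))))))) (.c k119 (.f k76 k72 1 (.q k115 [(.s k81 k98 4
  (.d k89 k93 k102 1 6)), (.s k102 k89 6 (.s k110 k98 1 (.s k204 k136 9 (.s k140 k12 7 (.d k157 k174
  k63 4 12)))))] (.c k89 (.l (.s k98 k81 4 (.s k110 k102 1 (.s k204 k136 9 (.s k140 k12 7 (.d k157
  k174 k63 4 12)))))) (.c k98 (.l (.s k89 k102 6 (.s k81 k93 1 (.s k204 k136 9 (.s k243 k162 12 (.d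
  k12 k140 k166 7 14)))))) (.c k102 (.l (.s k81 k98 4 (.s k89 k93 1 (.s k204 k136 9 (.s k243 k162 12
  (.d k12 k140 k166 7 14)))))) .n))))) .n))))) (.c k191 (.l (.s k128 k192 7 (.s k76 k72 1 (.s k102
  k119 4 (.s k98 k110 1 (.d k115 k81 k89 4 6)))))) .n))))

def s42_170_150 : T TT 256 :=
  (.f k64 k127 6 (.q k65 [(.s k67 k66 0 (.s k105 k125 5 (.s k104 k107 0 (.d k124 k84 k86 5 6)))),
  (.s k66 k67 0 (.s k192 k128 7 (.s k3 k129 8 (.s k2 k1 0 (.d k130 k194 k195 7 8))))), (.s k105 k125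
  5 (.s k192 k128 7 (.s k149 k63 14 (.s k193 k61 13 (.d k195 k130 k194 8 0)))))] (.c k130 (.q k190
  [(.s k105 k125 5 (.s k104 k107 0 (.s k124 k84 5 (.d k67 k66 k86 0 6)))), (.s k125 k105 5 (.s k192
  k128 7 (.s k149 k63 14 (.s k213 k21 7 (.d k255 k60 k234 8 6))))), (.s k66 k67 0 (.s k192 k128 7
  (.s k129 k3 8 (.s k1 k193 7 (.s k149 k63 14 (.d k169 k189 k253 5 13))))))] .n) (.c k190 (.l (.s
  k130 k195 8 (.s k66 k67 0 (.s k2 k194 7 (.s k3 k1 0 (.d k192 k128 k129 7 8)))))) .n))))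

def s42_170_151 : T TT 256 :=
  (.q k68 [(.s k64 k127 6 (.s k76 k72 1 (.s k102 k119 4 (.s k98 k110 1 (.d k115 k81 k89 4 6))))),
  (.s k102 k119 4 (.s k110 k98 1 (.s k204 k136 9 (.s k63 k157 12 (.s k149 k192 14 (.s k55 k196 12
  (.d k51 k153 k59 14 1))))))), (.s k64 k127 6 (.s k72 k76 1 (.s k136 k204 9 (.s k8 k200 7 (.s k12
  k4 1 (.d k192 k128 k132 7 9))))))] (.c k110 (.l (.s k64 k127 6 (.s k102 k119 4 (.s k192 k128 7 (.s
  k149 k63 14 (.s k196 k55 12 (.d k204 k200 k136 1 9))))))) .n))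

def s42_170_152 : T TT 256 :=
  (.q k65 [(.s k64 k127 6 (.s k67 k66 0 (.s k105 k125 5 (.s k104 k107 0 (.d k124 k84 k86 5 6))))),
  (.s k105 k125 5 (.s k107 k104 0 (.s k195 k130 8 (.s k63 k151 13 (.s k149 k192 14 (.s k61 k193 13
  (.d k60 k150 k62 14 0))))))), (.s k64 k127 6 (.s k66 k67 0 (.s k130 k195 8 (.s k2 k194 7 (.s k3 k1
  0 (.d k192 k128 k129 7 8))))))] (.c k107 (.l (.s k64 k127 6 (.s k105 k125 5 (.s k192 k128 7 (.s
  k149 k63 14 (.s k193 k61 13 (.d k195 k194 k130 0 8))))))) .n))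

def s42_170_153 : T TT 256 :=
  (.f k64 k127 6 (.q k68 [(.s k76 k72 1 (.s k102 k119 4 (.s k98 k110 1 (.d k115 k81 k89 4 6)))), (.s
  k72 k76 1 (.s k192 k128 7 (.s k12 k132 9 (.s k8 k4 1 (.d k136 k200 k204 7 9))))), (.s k102 k119 4
  (.s k192 k128 7 (.s k149 k63 14 (.s k196 k55 12 (.d k204 k136 k200 9 1)))))] (.c k136 (.q k187
  [(.s k102 k119 4 (.s k98 k110 1 (.s k115 k81 4 (.d k76 k72 k89 1 6)))), (.s k119 k102 4 (.s k192
  k128 7 (.s k149 k63 14 (.s k213 k21 7 (.d k255 k51 k234 9 6))))), (.s k72 k76 1 (.s k192 k128 7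
  (.s k132 k12 9 (.s k4 k196 7 (.s k149 k63 14 (.d k166 k183 k247 4 12))))))] .n) (.c k187 (.l (.s
  k136 k204 9 (.s k72 k76 1 (.s k8 k200 7 (.s k12 k4 1 (.d k192 k128 k132 7 9)))))) .n))))

def s42_170_154 : T TT 256 :=
  (.f k64 k127 6 (.q k69 [(.s k79 k74 2 (.s k101 k117 3 (.s k96 k111 2 (.d k112 k80 k90 3 6)))), (.s
  k74 k79 2 (.s k192 k128 7 (.s k15 k133 10 (.s k10 k5 2 (.d k138 k202 k207 7 10))))), (.s k101 k117
  3 (.s k192 k128 7 (.s k149 k63 14 (.s k197 k53 11 (.d k207 k138 k202 10 2)))))] (.c k138 (.q k186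
  [(.s k101 k117 3 (.s k96 k111 2 (.s k112 k80 3 (.d k79 k74 k90 2 6)))), (.s k117 k101 3 (.s k192
  k128 7 (.s k149 k63 14 (.s k213 k21 7 (.d k255 k48 k234 10 6))))), (.s k74 k79 2 (.s k192 k128 7
  (.s k133 k15 10 (.s k5 k197 7 (.s k149 k63 14 (.d k165 k181 k245 3 11))))))] .n) (.c k186 (.l (.s
  k138 k207 10 (.s k74 k79 2 (.s k10 k202 7 (.s k15 k5 2 (.d k192 k128 k133 7 10)))))) .n))))

def s42_170_155 : T TT 256 :=
  (.q k65 [(.s k64 k127 6 (.s k67 k66 0 (.s k105 k125 5 (.s k104 k107 0 (.d k124 k84 k86 5 6))))),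
  (.s k105 k125 5 (.s k107 k104 0 (.s k195 k130 8 (.s k63 k151 13 (.s k149 k192 14 (.s k61 k193 13
  (.d k60 k150 k62 14 0))))))), (.s k64 k127 6 (.s k66 k67 0 (.s k130 k195 8 (.s k2 k194 7 (.s k3 k1
  0 (.d k192 k128 k129 7 8))))))] (.c k107 (.l (.s k64 k127 6 (.s k105 k125 5 (.s k192 k128 7 (.s
  k149 k63 14 (.s k193 k61 13 (.d k195 k194 k130 0 8))))))) .n))

def s42_170_156 : T TT 256 :=
  (.q k65 [(.s k64 k127 6 (.s k67 k66 0 (.s k105 k125 5 (.s k104 k107 0 (.d k124 k84 k86 5 6))))),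
  (.s k105 k125 5 (.s k107 k104 0 (.s k195 k130 8 (.s k63 k151 13 (.s k149 k192 14 (.s k61 k193 13
  (.d k60 k150 k62 14 0))))))), (.s k64 k127 6 (.s k66 k67 0 (.s k130 k195 8 (.s k2 k194 7 (.s k3 k1
  0 (.d k192 k128 k129 7 8))))))] (.c k107 (.l (.s k64 k127 6 (.s k105 k125 5 (.s k192 k128 7 (.s
  k149 k63 14 (.s k193 k61 13 (.d k195 k194 k130 0 8))))))) .n))

def s42_170_157 : T TT 256 :=
  (.q k65 [(.s k64 k127 6 (.s k67 k66 0 (.s k105 k125 5 (.s k104 k107 0 (.d k124 k84 k86 5 6))))),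
  (.s k105 k125 5 (.s k107 k104 0 (.s k195 k130 8 (.s k63 k151 13 (.s k149 k192 14 (.s k61 k193 13
  (.d k60 k150 k62 14 0))))))), (.s k64 k127 6 (.s k66 k67 0 (.s k130 k195 8 (.s k2 k194 7 (.s k3 k1
  0 (.d k192 k128 k129 7 8))))))] (.c k107 (.l (.s k64 k127 6 (.s k105 k125 5 (.s k192 k128 7 (.s
  k149 k63 14 (.s k193 k61 13 (.d k195 k194 k130 0 8))))))) .n))

def s42_170_158 : T TT 256 :=
  (.q k65 [(.s k64 k127 6 (.s k67 k66 0 (.s k105 k125 5 (.s k104 k107 0 (.d k124 k84 k86 5 6))))),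
  (.s k105 k125 5 (.s k107 k104 0 (.s k195 k130 8 (.s k63 k151 13 (.s k149 k192 14 (.s k61 k193 13
  (.d k60 k150 k62 14 0))))))), (.s k64 k127 6 (.s k66 k67 0 (.s k130 k195 8 (.s k2 k194 7 (.s k3 k1
  0 (.d k192 k128 k129 7 8))))))] (.c k107 (.l (.s k64 k127 6 (.s k105 k125 5 (.s k192 k128 7 (.s
  k149 k63 14 (.s k193 k61 13 (.d k195 k194 k130 0 8))))))) .n))

def s42_170_159 : T TT 256 :=
  (.q k65 [(.s k64 k127 6 (.s k67 k66 0 (.s k105 k125 5 (.s k104 k107 0 (.d k124 k84 k86 5 6))))),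
  (.s k105 k125 5 (.s k107 k104 0 (.s k195 k130 8 (.s k63 k151 13 (.s k149 k192 14 (.s k61 k193 13
  (.d k60 k150 k62 14 0))))))), (.s k64 k127 6 (.s k66 k67 0 (.s k130 k195 8 (.s k2 k194 7 (.s k3 k1
  0 (.d k192 k128 k129 7 8))))))] (.c k107 (.l (.s k64 k127 6 (.s k105 k125 5 (.s k192 k128 7 (.s
  k149 k63 14 (.s k193 k61 13 (.d k195 k194 k130 0 8))))))) .n))

def s42_170_160 : T TT 256 :=
  (.f k64 k127 6 (.q k165 [(.s k5 k245 11 (.s k15 k10 2 (.s k47 k224 10 (.s k63 k31 3 (.d k192 k128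
  k149 7 14))))), (.s k5 k245 11 (.s k192 k128 7 (.s k149 k63 14 (.s k133 k181 3 (.s k69 k197 7 (.d
  k74 k79 k15 2 10)))))), (.s k5 k245 11 (.s k15 k10 2 (.s k90 k240 14 (.s k74 k122 3 (.s k79 k69 2
  (.s k80 k95 2 (.d k112 k96 k101 3 6))))))), (.s k192 k128 7 (.s k149 k63 14 (.s k133 k181 3 (.s
  k15 k74 10 (.s k224 k47 10 (.d k240 k208 k90 3 14))))))] (.c k15 (.l (.s k5 k245 11 (.s k192 k128
  7 (.s k149 k63 14 (.s k21 k213 7 (.s k53 k37 3 (.s k133 k181 3 (.d k197 k69 k101 7 11)))))))) (.c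
  k63 (.l (.s k5 k245 11 (.s k15 k10 2 (.s k90 k240 14 (.s k192 k128 7 (.d k74 k122 k133 3 10))))))
  .n))))

def s42_170_161 : T TT 256 :=
  (.q k65 [(.s k64 k127 6 (.s k67 k66 0 (.s k105 k125 5 (.s k104 k107 0 (.d k124 k84 k86 5 6))))),
  (.s k105 k125 5 (.s k107 k104 0 (.s k195 k130 8 (.s k63 k151 13 (.s k149 k192 14 (.s k61 k193 13
  (.d k60 k150 k62 14 0))))))), (.s k64 k127 6 (.s k66 k67 0 (.s k130 k195 8 (.s k2 k194 7 (.s k3 k1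
  0 (.d k192 k128 k129 7 8))))))] (.c k107 (.l (.s k64 k127 6 (.s k105 k125 5 (.s k192 k128 7 (.s
  k149 k63 14 (.s k193 k61 13 (.d k195 k194 k130 0 8))))))) .n))

def s42_170_162 : T TT 256 :=
  (.f k64 k127 6 (.q k166 [(.s k4 k247 12 (.s k12 k8 1 (.s k46 k226 9 (.s k63 k29 4 (.d k192 k128
  k149 7 14))))), (.s k4 k247 12 (.s k192 k128 7 (.s k149 k63 14 (.s k132 k183 4 (.s k68 k196 7 (.d
  k72 k76 k12 1 9)))))), (.s k4 k247 12 (.s k12 k8 1 (.s k89 k243 14 (.s k72 k123 4 (.s k76 k68 1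
  (.s k81 k93 1 (.d k115 k98 k102 4 6))))))), (.s k192 k128 7 (.s k149 k63 14 (.s k132 k183 4 (.s
  k12 k72 9 (.s k226 k46 9 (.d k243 k209 k89 4 14))))))] (.c k12 (.l (.s k4 k247 12 (.s k192 k128 7
  (.s k149 k63 14 (.s k21 k213 7 (.s k55 k38 4 (.s k132 k183 4 (.d k196 k68 k102 7 12)))))))) (.c
  k63 (.l (.s k4 k247 12 (.s k12 k8 1 (.s k89 k243 14 (.s k192 k128 7 (.d k72 k123 k132 4 9))))))
  .n))))

def s42_170_163 : T TT 256 :=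
  (.q k65 [(.s k64 k127 6 (.s k67 k66 0 (.s k105 k125 5 (.s k104 k107 0 (.d k124 k84 k86 5 6))))),
  (.s k105 k125 5 (.s k107 k104 0 (.s k195 k130 8 (.s k63 k151 13 (.s k149 k192 14 (.s k61 k193 13
  (.d k60 k150 k62 14 0))))))), (.s k64 k127 6 (.s k66 k67 0 (.s k130 k195 8 (.s k2 k194 7 (.s k3 k1
  0 (.d k192 k128 k129 7 8))))))] (.c k107 (.l (.s k64 k127 6 (.s k105 k125 5 (.s k192 k128 7 (.s
  k149 k63 14 (.s k193 k61 13 (.d k195 k194 k130 0 8))))))) .n))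

def s42_170_164 : T TT 256 :=
  (.q k65 [(.s k64 k127 6 (.s k67 k66 0 (.s k105 k125 5 (.s k104 k107 0 (.d k124 k84 k86 5 6))))),
  (.s k105 k125 5 (.s k107 k104 0 (.s k195 k130 8 (.s k63 k151 13 (.s k149 k192 14 (.s k61 k193 13
  (.d k60 k150 k62 14 0))))))), (.s k64 k127 6 (.s k66 k67 0 (.s k130 k195 8 (.s k2 k194 7 (.s k3 k1
  0 (.d k192 k128 k129 7 8))))))] (.c k107 (.l (.s k64 k127 6 (.s k105 k125 5 (.s k192 k128 7 (.s
  k149 k63 14 (.s k193 k61 13 (.d k195 k194 k130 0 8))))))) .n))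

def s42_170_165 : T TT 256 :=
  (.f k64 k127 6 (.q k80 [(.s k90 k95 2 (.s k74 k122 3 (.s k79 k69 2 (.d k112 k96 k101 3 6)))), (.s
  k90 k95 2 (.s k192 k128 7 (.s k149 k63 14 (.s k208 k31 10 (.d k240 k160 k224 11 3))))), (.s k96
  k112 3 (.s k192 k128 7 (.s k48 k144 11 (.s k32 k16 3 (.d k160 k224 k240 7 11)))))] (.c k160 (.q
  k175 [(.s k90 k95 2 (.s k74 k122 3 (.s k79 k69 2 (.d k112 k96 k101 3 6)))), (.s k95 k90 2 (.s k192
  k128 7 (.s k149 k63 14 (.s k213 k21 7 (.d k255 k15 k234 11 6))))), (.s k96 k112 3 (.s k192 k128 7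
  (.s k144 k48 11 (.s k16 k208 7 (.s k149 k63 14 (.d k154 k159 k223 2 10))))))] .n) (.c k175 (.l (.s
  k160 k240 11 (.s k90 k95 2 (.s k74 k122 3 (.s k79 k69 2 (.d k112 k96 k101 3 6)))))) .n))))

def s42_170_166 : T TT 256 :=
  (.f k64 k127 6 (.q k81 [(.s k89 k93 1 (.s k72 k123 4 (.s k76 k68 1 (.d k115 k98 k102 4 6)))), (.s
  k89 k93 1 (.s k192 k128 7 (.s k149 k63 14 (.s k209 k29 9 (.d k243 k162 k226 12 4))))), (.s k98
  k115 4 (.s k192 k128 7 (.s k51 k145 12 (.s k34 k17 4 (.d k162 k226 k243 7 12)))))] (.c k162 (.q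
  k174 [(.s k89 k93 1 (.s k72 k123 4 (.s k76 k68 1 (.d k115 k98 k102 4 6)))), (.s k93 k89 1 (.s k192
  k128 7 (.s k149 k63 14 (.s k213 k21 7 (.d k255 k12 k234 12 6))))), (.s k98 k115 4 (.s k192 k128 7
  (.s k145 k51 12 (.s k17 k209 7 (.s k149 k63 14 (.d k153 k157 k221 1 9))))))] .n) (.c k174 (.l (.s
  k162 k243 12 (.s k89 k93 1 (.s k72 k123 4 (.s k76 k68 1 (.d k115 k98 k102 4 6)))))) .n))))

def s42_170_167 : T TT 256 :=
  (.q k65 [(.s k64 k127 6 (.s k67 k66 0 (.s k105 k125 5 (.s k104 k107 0 (.d k124 k84 k86 5 6))))),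
  (.s k105 k125 5 (.s k107 k104 0 (.s k195 k130 8 (.s k63 k151 13 (.s k149 k192 14 (.s k61 k193 13
  (.d k60 k150 k62 14 0))))))), (.s k64 k127 6 (.s k66 k67 0 (.s k130 k195 8 (.s k2 k194 7 (.s k3 k1
  0 (.d k192 k128 k129 7 8))))))] (.c k107 (.l (.s k64 k127 6 (.s k105 k125 5 (.s k192 k128 7 (.s
  k149 k63 14 (.s k193 k61 13 (.d k195 k194 k130 0 8))))))) .n))

def s42_170_168 : T TT 256 :=
  (.f k64 k127 6 (.q k169 [(.s k1 k253 13 (.s k3 k2 0 (.s k43 k232 8 (.s k63 k23 5 (.d k192 k128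
  k149 7 14))))), (.s k1 k253 13 (.s k192 k128 7 (.s k149 k63 14 (.s k129 k189 5 (.s k65 k193 7 (.d
  k66 k67 k3 0 8)))))), (.s k1 k253 13 (.s k3 k2 0 (.s k86 k252 14 (.s k66 k126 5 (.s k67 k65 0 (.s
  k84 k87 0 (.d k124 k104 k105 5 6))))))), (.s k192 k128 7 (.s k149 k63 14 (.s k129 k189 5 (.s k3
  k66 8 (.s k232 k43 8 (.d k252 k212 k86 5 14))))))] (.c k3 (.l (.s k1 k253 13 (.s k192 k128 7 (.s
  k149 k63 14 (.s k21 k213 7 (.s k61 k41 5 (.s k129 k189 5 (.d k193 k65 k105 7 13)))))))) (.c k63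
  (.l (.s k1 k253 13 (.s k3 k2 0 (.s k86 k252 14 (.s k192 k128 7 (.d k66 k126 k129 5 8)))))) .n))))

def s42_170_169 : T TT 256 :=
  (.f k64 k127 6 (.q k84 [(.s k86 k87 0 (.s k66 k126 5 (.s k67 k65 0 (.d k124 k104 k105 5 6)))), (.s
  k86 k87 0 (.s k192 k128 7 (.s k149 k63 14 (.s k212 k23 8 (.d k252 k168 k232 13 5))))), (.s k104
  k124 5 (.s k192 k128 7 (.s k60 k148 13 (.s k40 k20 5 (.d k168 k232 k252 7 13)))))] (.c k168 (.q
  k171 [(.s k86 k87 0 (.s k66 k126 5 (.s k67 k65 0 (.d k124 k104 k105 5 6)))), (.s k87 k86 0 (.s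
  k192 k128 7 (.s k149 k63 14 (.s k213 k21 7 (.d k255 k3 k234 13 6))))), (.s k104 k124 5 (.s k192
  k128 7 (.s k148 k60 13 (.s k20 k212 7 (.s k149 k63 14 (.d k150 k151 k215 0 8))))))] .n) (.c k171
  (.l (.s k168 k252 13 (.s k86 k87 0 (.s k66 k126 5 (.s k67 k65 0 (.d k124 k104 k105 5 6))))))
  .n))))

def s42_170_171 : T TT 256 :=
  (.f k64 k127 6 (.q k169 [(.s k1 k253 13 (.s k3 k2 0 (.s k43 k232 8 (.s k63 k23 5 (.d k192 k128
  k149 7 14))))), (.s k192 k128 7 (.s k232 k43 8 (.s k252 k212 5 (.s k84 k168 13 (.d k86 k87 k3 0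
  14))))), (.s k1 k253 13 (.s k3 k2 0 (.s k86 k252 14 (.s k66 k126 5 (.s k67 k65 0 (.s k84 k87 0 (.d
  k124 k104 k105 5 6))))))), (.s k1 k253 13 (.s k192 k128 7 (.s k149 k63 14 (.s k21 k213 7 (.s k61
  k41 5 (.s k129 k189 5 (.d k193 k65 k105 7 13)))))))] .n))

def s42_170_172 : T TT 256 :=
  (.q k65 [(.s k64 k127 6 (.s k67 k66 0 (.s k105 k125 5 (.s k104 k107 0 (.d k124 k84 k86 5 6))))),
  (.s k105 k125 5 (.s k107 k104 0 (.s k195 k130 8 (.s k63 k151 13 (.s k149 k192 14 (.s k61 k193 13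
  (.d k60 k150 k62 14 0))))))), (.s k64 k127 6 (.s k66 k67 0 (.s k130 k195 8 (.s k2 k194 7 (.s k3 k1
  0 (.d k192 k128 k129 7 8))))))] (.c k107 (.l (.s k64 k127 6 (.s k105 k125 5 (.s k192 k128 7 (.s
  k149 k63 14 (.s k193 k61 13 (.d k195 k194 k130 0 8))))))) .n))

def s42_170_173 : T TT 256 :=
  (.q k65 [(.s k64 k127 6 (.s k67 k66 0 (.s k105 k125 5 (.s k104 k107 0 (.d k124 k84 k86 5 6))))),
  (.s k105 k125 5 (.s k107 k104 0 (.s k195 k130 8 (.s k63 k151 13 (.s k149 k192 14 (.s k61 k193 13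
  (.d k60 k150 k62 14 0))))))), (.s k64 k127 6 (.s k66 k67 0 (.s k130 k195 8 (.s k2 k194 7 (.s k3 k1
  0 (.d k192 k128 k129 7 8))))))] (.c k107 (.l (.s k64 k127 6 (.s k105 k125 5 (.s k192 k128 7 (.s
  k149 k63 14 (.s k193 k61 13 (.d k195 k194 k130 0 8))))))) .n))

def s42_170_174 : T TT 256 :=
  (.f k64 k127 6 (.q k166 [(.s k4 k247 12 (.s k12 k8 1 (.s k46 k226 9 (.s k63 k29 4 (.d k192 k128
  k149 7 14))))), (.s k192 k128 7 (.s k226 k46 9 (.s k243 k209 4 (.s k81 k162 12 (.d k89 k93 k12 1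
  14))))), (.s k4 k247 12 (.s k12 k8 1 (.s k89 k243 14 (.s k72 k123 4 (.s k76 k68 1 (.s k81 k93 1
  (.d k115 k98 k102 4 6))))))), (.s k4 k247 12 (.s k192 k128 7 (.s k149 k63 14 (.s k21 k213 7 (.s
  k55 k38 4 (.s k132 k183 4 (.d k196 k68 k102 7 12)))))))] .n))

def s42_170_175 : T TT 256 :=
  (.f k64 k127 6 (.q k165 [(.s k5 k245 11 (.s k15 k10 2 (.s k47 k224 10 (.s k63 k31 3 (.d k192 k128
  k149 7 14))))), (.s k192 k128 7 (.s k224 k47 10 (.s k240 k208 3 (.s k80 k160 11 (.d k90 k95 k15 2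
  14))))), (.s k5 k245 11 (.s k15 k10 2 (.s k90 k240 14 (.s k74 k122 3 (.s k79 k69 2 (.s k80 k95 2
  (.d k112 k96 k101 3 6))))))), (.s k5 k245 11 (.s k192 k128 7 (.s k149 k63 14 (.s k21 k213 7 (.s
  k53 k37 3 (.s k133 k181 3 (.d k197 k69 k101 7 11)))))))] .n))

def s42_170_176 : T TT 256 :=
  (.q k65 [(.s k64 k127 6 (.s k67 k66 0 (.s k105 k125 5 (.s k104 k107 0 (.d k124 k84 k86 5 6))))),
  (.s k105 k125 5 (.s k107 k104 0 (.s k195 k130 8 (.s k63 k151 13 (.s k149 k192 14 (.s k61 k193 13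
  (.d k60 k150 k62 14 0))))))), (.s k64 k127 6 (.s k66 k67 0 (.s k130 k195 8 (.s k2 k194 7 (.s k3 k1
  0 (.d k192 k128 k129 7 8))))))] (.c k107 (.l (.s k64 k127 6 (.s k105 k125 5 (.s k192 k128 7 (.s
  k149 k63 14 (.s k193 k61 13 (.d k195 k194 k130 0 8))))))) .n))

def s42_170_177 : T TT 256 :=
  (.q k65 [(.s k64 k127 6 (.s k67 k66 0 (.s k105 k125 5 (.s k104 k107 0 (.d k124 k84 k86 5 6))))),
  (.s k105 k125 5 (.s k107 k104 0 (.s k195 k130 8 (.s k63 k151 13 (.s k149 k192 14 (.s k61 k193 13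
  (.d k60 k150 k62 14 0))))))), (.s k64 k127 6 (.s k66 k67 0 (.s k130 k195 8 (.s k2 k194 7 (.s k3 k1
  0 (.d k192 k128 k129 7 8))))))] (.c k107 (.l (.s k64 k127 6 (.s k105 k125 5 (.s k192 k128 7 (.s
  k149 k63 14 (.s k193 k61 13 (.d k195 k194 k130 0 8))))))) .n))

def s42_170_178 : T TT 256 :=
  (.q k65 [(.s k64 k127 6 (.s k67 k66 0 (.s k105 k125 5 (.s k104 k107 0 (.d k124 k84 k86 5 6))))),
  (.s k105 k125 5 (.s k107 k104 0 (.s k195 k130 8 (.s k63 k151 13 (.s k149 k192 14 (.s k61 k193 13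
  (.d k60 k150 k62 14 0))))))), (.s k64 k127 6 (.s k66 k67 0 (.s k130 k195 8 (.s k2 k194 7 (.s k3 k1
  0 (.d k192 k128 k129 7 8))))))] (.c k107 (.l (.s k64 k127 6 (.s k105 k125 5 (.s k192 k128 7 (.s
  k149 k63 14 (.s k193 k61 13 (.d k195 k194 k130 0 8))))))) .n))

def s42_170_179 : T TT 256 :=
  (.q k65 [(.s k64 k127 6 (.s k67 k66 0 (.s k105 k125 5 (.s k104 k107 0 (.d k124 k84 k86 5 6))))),
  (.s k105 k125 5 (.s k107 k104 0 (.s k195 k130 8 (.s k63 k151 13 (.s k149 k192 14 (.s k61 k193 13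
  (.d k60 k150 k62 14 0))))))), (.s k64 k127 6 (.s k66 k67 0 (.s k130 k195 8 (.s k2 k194 7 (.s k3 k1
  0 (.d k192 k128 k129 7 8))))))] (.c k107 (.l (.s k64 k127 6 (.s k105 k125 5 (.s k192 k128 7 (.s
  k149 k63 14 (.s k193 k61 13 (.d k195 k194 k130 0 8))))))) .n))

def s42_170_180 : T TT 256 :=
  (.q k65 [(.s k64 k127 6 (.s k67 k66 0 (.s k105 k125 5 (.s k104 k107 0 (.d k124 k84 k86 5 6))))),
  (.s k105 k125 5 (.s k107 k104 0 (.s k195 k130 8 (.s k63 k151 13 (.s k149 k192 14 (.s k61 k193 13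
  (.d k60 k150 k62 14 0))))))), (.s k64 k127 6 (.s k66 k67 0 (.s k130 k195 8 (.s k2 k194 7 (.s k3 k1
  0 (.d k192 k128 k129 7 8))))))] (.c k107 (.l (.s k64 k127 6 (.s k105 k125 5 (.s k192 k128 7 (.s
  k149 k63 14 (.s k193 k61 13 (.d k195 k194 k130 0 8))))))) .n))

def s42_170_181 : T TT 256 :=
  (.q k65 [(.s k64 k127 6 (.s k67 k66 0 (.s k105 k125 5 (.s k104 k107 0 (.d k124 k84 k86 5 6))))),
  (.s k105 k125 5 (.s k107 k104 0 (.s k195 k130 8 (.s k63 k151 13 (.s k149 k192 14 (.s k61 k193 13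
  (.d k60 k150 k62 14 0))))))), (.s k64 k127 6 (.s k66 k67 0 (.s k130 k195 8 (.s k2 k194 7 (.s k3 k1
  0 (.d k192 k128 k129 7 8))))))] (.c k107 (.l (.s k64 k127 6 (.s k105 k125 5 (.s k192 k128 7 (.s
  k149 k63 14 (.s k193 k61 13 (.d k195 k194 k130 0 8))))))) .n))

def s42_170_182 : T TT 256 :=
  (.q k65 [(.s k64 k127 6 (.s k67 k66 0 (.s k105 k125 5 (.s k104 k107 0 (.d k124 k84 k86 5 6))))),
  (.s k105 k125 5 (.s k107 k104 0 (.s k195 k130 8 (.s k63 k151 13 (.s k149 k192 14 (.s k61 k193 13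
  (.d k60 k150 k62 14 0))))))), (.s k64 k127 6 (.s k66 k67 0 (.s k130 k195 8 (.s k2 k194 7 (.s k3 k1
  0 (.d k192 k128 k129 7 8))))))] (.c k107 (.l (.s k64 k127 6 (.s k105 k125 5 (.s k192 k128 7 (.s
  k149 k63 14 (.s k193 k61 13 (.d k195 k194 k130 0 8))))))) .n))

def s42_170_183 : T TT 256 :=
  (.q k65 [(.s k64 k127 6 (.s k67 k66 0 (.s k105 k125 5 (.s k104 k107 0 (.d k124 k84 k86 5 6))))),
  (.s k105 k125 5 (.s k107 k104 0 (.s k195 k130 8 (.s k63 k151 13 (.s k149 k192 14 (.s k61 k193 13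
  (.d k60 k150 k62 14 0))))))), (.s k64 k127 6 (.s k66 k67 0 (.s k130 k195 8 (.s k2 k194 7 (.s k3 k1
  0 (.d k192 k128 k129 7 8))))))] (.c k107 (.l (.s k64 k127 6 (.s k105 k125 5 (.s k192 k128 7 (.s
  k149 k63 14 (.s k193 k61 13 (.d k195 k194 k130 0 8))))))) .n))

def s42_170_184 : T TT 256 :=
  (.q k65 [(.s k64 k127 6 (.s k67 k66 0 (.s k105 k125 5 (.s k104 k107 0 (.d k124 k84 k86 5 6))))),
  (.s k105 k125 5 (.s k107 k104 0 (.s k195 k130 8 (.s k63 k151 13 (.s k149 k192 14 (.s k61 k193 13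
  (.d k60 k150 k62 14 0))))))), (.s k64 k127 6 (.s k66 k67 0 (.s k130 k195 8 (.s k2 k194 7 (.s k3 k1
  0 (.d k192 k128 k129 7 8))))))] (.c k107 (.l (.s k64 k127 6 (.s k105 k125 5 (.s k192 k128 7 (.s
  k149 k63 14 (.s k193 k61 13 (.d k195 k194 k130 0 8))))))) .n))

def s42_170_185 : T TT 256 :=
  (.q k65 [(.s k64 k127 6 (.s k67 k66 0 (.s k105 k125 5 (.s k104 k107 0 (.d k124 k84 k86 5 6))))),
  (.s k105 k125 5 (.s k107 k104 0 (.s k195 k130 8 (.s k63 k151 13 (.s k149 k192 14 (.s k61 k193 13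
  (.d k60 k150 k62 14 0))))))), (.s k64 k127 6 (.s k66 k67 0 (.s k130 k195 8 (.s k2 k194 7 (.s k3 k1
  0 (.d k192 k128 k129 7 8))))))] (.c k107 (.l (.s k64 k127 6 (.s k105 k125 5 (.s k192 k128 7 (.s
  k149 k63 14 (.s k193 k61 13 (.d k195 k194 k130 0 8))))))) .n))

def s42_170_186 : T TT 256 :=
  (.f k64 k127 6 (.q k154 [(.s k16 k223 10 (.s k48 k32 3 (.s k58 k202 11 (.s k63 k53 2 (.d k192 k128
  k149 7 14))))), (.s k192 k128 7 (.s k202 k58 11 (.s k207 k197 2 (.s k69 k138 10 (.d k101 k117 k48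
  3 14))))), (.s k16 k223 10 (.s k48 k32 3 (.s k101 k207 14 (.s k69 k117 3 (.s k79 k74 2 (.s k96
  k111 2 (.d k112 k80 k90 3 6))))))), (.s k16 k223 10 (.s k192 k128 7 (.s k149 k63 14 (.s k21 k213 7
  (.s k31 k26 2 (.s k144 k159 2 (.d k208 k80 k90 7 10)))))))] .n))

def s42_170_187 : T TT 256 :=
  (.f k64 k127 6 (.q k153 [(.s k17 k221 9 (.s k51 k34 4 (.s k59 k200 12 (.s k63 k55 1 (.d k192 k128
  k149 7 14))))), (.s k192 k128 7 (.s k200 k59 12 (.s k204 k196 1 (.s k68 k136 9 (.d k102 k119 k51 4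
  14))))), (.s k17 k221 9 (.s k51 k34 4 (.s k102 k204 14 (.s k68 k119 4 (.s k76 k72 1 (.s k98 k110 1
  (.d k115 k81 k89 4 6))))))), (.s k17 k221 9 (.s k192 k128 7 (.s k149 k63 14 (.s k21 k213 7 (.s k29
  k25 1 (.s k145 k157 1 (.d k209 k81 k89 7 9)))))))] .n))

def s42_170_188 : T TT 256 :=
  (.q k65 [(.s k64 k127 6 (.s k67 k66 0 (.s k105 k125 5 (.s k104 k107 0 (.d k124 k84 k86 5 6))))),
  (.s k105 k125 5 (.s k107 k104 0 (.s k195 k130 8 (.s k63 k151 13 (.s k149 k192 14 (.s k61 k193 13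
  (.d k60 k150 k62 14 0))))))), (.s k64 k127 6 (.s k66 k67 0 (.s k130 k195 8 (.s k2 k194 7 (.s k3 k1
  0 (.d k192 k128 k129 7 8))))))] (.c k107 (.l (.s k64 k127 6 (.s k105 k125 5 (.s k192 k128 7 (.s
  k149 k63 14 (.s k193 k61 13 (.d k195 k194 k130 0 8))))))) .n))

def s42_170_189 : T TT 256 :=
  (.q k65 [(.s k64 k127 6 (.s k67 k66 0 (.s k105 k125 5 (.s k104 k107 0 (.d k124 k84 k86 5 6))))),
  (.s k64 k127 6 (.s k66 k67 0 (.s k130 k195 8 (.s k2 k194 7 (.s k3 k1 0 (.d k192 k128 k129 7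
  8)))))), (.s k105 k125 5 (.s k107 k104 0 (.s k195 k130 8 (.s k63 k151 13 (.s k149 k192 14 (.s k61
  k193 13 (.d k60 k150 k62 14 0)))))))] (.c k107 (.l (.s k64 k127 6 (.s k105 k125 5 (.s k192 k128 7
  (.s k149 k63 14 (.s k195 k130 8 (.d k193 k61 k194 13 0))))))) .n))

def s42_170_190 : T TT 256 :=
  (.f k64 k127 6 (.q k150 [(.s k20 k215 8 (.s k60 k40 5 (.s k62 k194 13 (.s k63 k61 0 (.d k192 k128
  k149 7 14))))), (.s k192 k128 7 (.s k194 k62 13 (.s k195 k193 0 (.s k65 k130 8 (.d k105 k125 k60 5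
  14))))), (.s k20 k215 8 (.s k60 k40 5 (.s k105 k195 14 (.s k65 k125 5 (.s k67 k66 0 (.s k104 k107
  0 (.d k124 k84 k86 5 6))))))), (.s k20 k215 8 (.s k192 k128 7 (.s k149 k63 14 (.s k21 k213 7 (.s
  k23 k22 0 (.s k148 k151 0 (.d k212 k84 k86 7 8)))))))] .n))

def s42_170_191 : T TT 256 :=
  (.f k64 k127 6 (.f k192 k128 7 (.f k149 k63 14 (.q k255 [(.d k213 k234 k21 6 7)] (.c k21 (.q k1
  [(.s k3 k2 0 (.s k169 k253 13 (.d k129 k189 k66 5 8))), (.s k213 k234 6 (.s k253 k169 13 (.s k193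
  k233 5 (.s k65 k129 7 (.d k105 k125 k61 5 13))))), (.s k3 k2 0 (.s k66 k129 8 (.s k86 k126 5 (.d
  k87 k84 k171 0 13))))] (.c k129 (.l (.s k3 k2 0 (.s k87 k171 13 (.s k86 k84 0 (.d k169 k253 k252
  13 14))))) .n)) (.c k213 (.q k1 [(.s k3 k2 0 (.s k129 k66 8 (.d k169 k189 k253 5 13))), (.s k169
  k253 13 (.s k129 k189 5 (.s k193 k65 7 (.s k195 k194 0 (.s k215 k235 5 (.s k150 k20 8 (.d k105 k61
  k60 13 14))))))), (.s k3 k2 0 (.s k87 k171 13 (.s k86 k84 0 (.d k169 k253 k252 13 14)))), (.s k3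
  k2 0 (.s k66 k129 8 (.s k86 k126 5 (.d k87 k84 k171 0 13))))] .n) (.c k234 (.q k1 [(.s k3 k2 0 (.s
  k169 k253 13 (.d k129 k189 k66 5 8))), (.s k21 k213 7 (.s k61 k41 5 (.s k105 k193 13 (.s k125 k65
  5 (.d k253 k189 k169 7 13))))), (.s k3 k2 0 (.s k66 k129 8 (.s k86 k126 5 (.d k87 k84 k171 0
  13))))] (.c k189 (.l (.s k3 k2 0 (.s k66 k129 8 (.s k87 k171 13 (.d k86 k84 k126 0 5))))) .n))
  .n)))))))

def s42_170_192 : T TT 256 :=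
  (.f k127 k64 6 (.q k86 [(.s k87 k84 0 (.s k67 k107 5 (.s k124 k105 6 (.d k126 k125 k66 0 5)))),
  (.s k84 k87 0 (.s k252 k168 13 (.s k169 k3 14 (.s k253 k1 13 (.s k255 k254 0 (.s k63 k191 7 (.d
  k126 k66 k189 5 8)))))))] (.c k66 (.q k67 [(.d k87 k84 k107 0 5), (.s k105 k124 6 (.s k65 k125 5
  (.s k195 k130 8 (.s k3 k131 7 (.s k169 k252 14 (.d k1 k2 k253 0 13))))))] (.c k3 (.q k129 [(.d k87
  k84 k107 0 5)] (.c k84 (.l (.s k107 k87 5 (.d k105 k104 k124 0 6))) (.c k87 (.f k105 k124 6 (.l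
  (.s k65 k125 5 (.s k1 k193 7 (.s k169 k253 13 (.s k195 k130 8 (.s k233 k41 7 (.s k214 k252 6 (.d
  k150 k22 k60 7 14))))))))) (.c k107 (.l (.s k84 k87 0 (.s k105 k124 6 (.s k65 k125 5 (.s k195 k130
  8 (.s k150 k60 14 (.s k252 k168 13 (.d k214 k22 k233 7 6)))))))) .n)))) (.c k84 (.l (.s k107 k87 5
  (.d k105 k104 k124 0 6))) (.c k129 (.q k3 [(.d k87 k84 k107 0 5), (.s k1 k2 0 (.d k169 k253 k252
  13 14))] .n) .n)))) (.c k84 (.q k124 [(.d k126 k125 k66 0 5)] (.c k66 (.l (.s k125 k126 0 (.d k105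
  k65 k67 5 6))) (.c k125 (.q k2 [(.s k3 k1 0 (.s k66 k126 5 (.s k130 k194 7 (.s k195 k65 8 (.d k67
  k105 k131 6 7))))), (.s k3 k1 0 (.s k252 k169 14 (.s k60 k188 7 (.s k20 k40 5 (.s k150 k215 8 (.d
  k22 k41 k214 6 7)))))), (.s k66 k126 5 (.s k105 k67 6 (.s k194 k130 7 (.s k150 k62 13 (.s k20 k215
  8 (.d k60 k40 k195 5 14))))))] (.c k105 (.l (.s k3 k1 0 (.s k66 k126 5 (.s k194 k130 7 (.s k150
  k62 13 (.s k20 k215 8 (.s k22 k214 7 (.d k60 k40 k41 5 6)))))))) .n)) (.c k126 (.q k12 [(.s k4 k8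
  1 (.s k166 k247 12 (.s k89 k243 14 (.s k92 k83 2 (.s k76 k108 3 (.d k93 k81 k110 1 4)))))), (.s k8
  k4 1 (.s k105 k67 6 (.s k65 k125 5 (.s k195 k130 8 (.s k73 k134 10 (.s k69 k77 1 (.d k138 k203
  k207 8 10))))))), (.s k105 k67 6 (.s k65 k125 5 (.s k195 k130 8 (.s k73 k134 10 (.s k89 k121 3 (.s
  k81 k93 1 (.d k243 k162 k166 12 14)))))))] (.c k93 (.l (.s k4 k8 1 (.s k166 k247 12 (.s k6 k246 11
  (.s k3 k9 2 (.s k1 k2 0 (.d k169 k253 k252 13 14))))))) .n)) .n)))) (.c k87 (.q k3 [(.s k1 k2 0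
  (.d k169 k253 k252 13 14)), (.s k126 k66 5 (.s k124 k125 0 (.s k252 k169 14 (.s k60 k188 7 (.s k20
  k40 5 (.s k150 k215 8 (.d k22 k41 k214 6 7))))))), (.s k2 k1 0 (.s k66 k126 5 (.s k194 k130 7 (.s
  k150 k62 13 (.s k20 k215 8 (.s k22 k214 7 (.d k60 k40 k41 5 6)))))))] (.c k22 (.l (.s k169 k252 14
  (.d k1 k2 k253 0 13))) .n)) (.c k126 (.q k3 [(.s k84 k87 0 (.d k252 k168 k169 13 14)), (.s k1 k2 0
  (.d k169 k253 k252 13 14)), (.s k87 k84 0 (.s k67 k107 5 (.s k195 k131 7 (.s k65 k130 8 (.d k105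
  k124 k125 6 5)))))] .n) .n))))))

def s42_170_193 : T TT 256 :=
  (.q k68 [(.s k64 k127 6 (.s k76 k72 1 (.s k102 k119 4 (.s k98 k110 1 (.d k115 k81 k89 4 6))))),
  (.s k102 k119 4 (.s k110 k98 1 (.s k204 k136 9 (.s k63 k157 12 (.s k149 k192 14 (.s k55 k196 12
  (.d k51 k153 k59 14 1))))))), (.s k64 k127 6 (.s k72 k76 1 (.s k136 k204 9 (.s k8 k200 7 (.s k12
  k4 1 (.d k192 k128 k132 7 9))))))] (.c k110 (.l (.s k64 k127 6 (.s k102 k119 4 (.s k192 k128 7 (.s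
  k149 k63 14 (.s k196 k55 12 (.d k204 k200 k136 1 9))))))) .n))

def s42_170_194 : T TT 256 :=
  (.q k65 [(.s k64 k127 6 (.s k105 k125 5 (.s k104 k107 0 (.s k124 k84 5 (.d k67 k66 k86 0 6))))),
  (.s k105 k125 5 (.s k107 k104 0 (.s k195 k130 8 (.s k63 k151 13 (.s k149 k192 14 (.s k61 k193 13
  (.d k60 k150 k62 14 0))))))), (.s k64 k127 6 (.s k66 k67 0 (.s k192 k128 7 (.s k3 k129 8 (.s k1 k2
  0 (.s k169 k253 13 (.d k86 k126 k252 5 14)))))))] (.c k66 (.l (.s k64 k127 6 (.s k105 k125 5 (.s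
  k104 k107 0 (.s k192 k128 7 (.s k60 k148 13 (.d k195 k130 k150 8 14))))))) (.c k107 (.l (.s k64
  k127 6 (.s k105 k125 5 (.s k192 k128 7 (.s k149 k63 14 (.s k193 k61 13 (.s k129 k1 7 (.d k66 k67
  k3 0 8)))))))) .n)))

def s42_170_195 : T TT 256 :=
  (.q k68 [(.s k64 k127 6 (.s k76 k72 1 (.s k102 k119 4 (.s k98 k110 1 (.d k115 k81 k89 4 6))))),
  (.s k102 k119 4 (.s k110 k98 1 (.s k204 k136 9 (.s k63 k157 12 (.s k149 k192 14 (.s k55 k196 12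
  (.d k51 k153 k59 14 1))))))), (.s k64 k127 6 (.s k72 k76 1 (.s k136 k204 9 (.s k8 k200 7 (.s k12
  k4 1 (.d k192 k128 k132 7 9))))))] (.c k110 (.l (.s k64 k127 6 (.s k102 k119 4 (.s k192 k128 7 (.s
  k149 k63 14 (.s k196 k55 12 (.d k204 k200 k136 1 9))))))) .n))

def s42_170_196 : T TT 256 :=
  (.q k65 [(.s k64 k127 6 (.s k67 k66 0 (.s k105 k125 5 (.s k104 k107 0 (.d k124 k84 k86 5 6))))),
  (.s k105 k125 5 (.s k107 k104 0 (.s k195 k130 8 (.s k63 k151 13 (.s k149 k192 14 (.s k61 k193 13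
  (.d k60 k150 k62 14 0))))))), (.s k64 k127 6 (.s k66 k67 0 (.s k130 k195 8 (.s k2 k194 7 (.s k3 k1
  0 (.d k192 k128 k129 7 8))))))] (.c k107 (.l (.s k64 k127 6 (.s k105 k125 5 (.s k192 k128 7 (.s
  k149 k63 14 (.s k193 k61 13 (.d k195 k194 k130 0 8))))))) .n))

def s42_170_197 : T TT 256 :=
  (.q k65 [(.s k64 k127 6 (.s k67 k66 0 (.s k105 k125 5 (.s k104 k107 0 (.d k124 k84 k86 5 6))))),
  (.s k105 k125 5 (.s k107 k104 0 (.s k195 k130 8 (.s k63 k151 13 (.s k149 k192 14 (.s k61 k193 13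
  (.d k60 k150 k62 14 0))))))), (.s k64 k127 6 (.s k66 k67 0 (.s k130 k195 8 (.s k2 k194 7 (.s k3 k1
  0 (.d k192 k128 k129 7 8))))))] (.c k107 (.l (.s k64 k127 6 (.s k105 k125 5 (.s k192 k128 7 (.s
  k149 k63 14 (.s k193 k61 13 (.d k195 k194 k130 0 8))))))) .n))

def s42_170_198 : T TT 256 :=
  (.q k65 [(.s k64 k127 6 (.s k67 k66 0 (.s k105 k125 5 (.s k104 k107 0 (.d k124 k84 k86 5 6))))),
  (.s k105 k125 5 (.s k107 k104 0 (.s k195 k130 8 (.s k63 k151 13 (.s k149 k192 14 (.s k61 k193 13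
  (.d k60 k150 k62 14 0))))))), (.s k64 k127 6 (.s k66 k67 0 (.s k130 k195 8 (.s k2 k194 7 (.s k3 k1
  0 (.d k192 k128 k129 7 8))))))] (.c k107 (.l (.s k64 k127 6 (.s k105 k125 5 (.s k192 k128 7 (.s
  k149 k63 14 (.s k193 k61 13 (.d k195 k194 k130 0 8))))))) .n))

def s42_170_199 : T TT 256 :=
  (.q k65 [(.s k64 k127 6 (.s k67 k66 0 (.s k105 k125 5 (.s k104 k107 0 (.d k124 k84 k86 5 6))))),
  (.s k105 k125 5 (.s k107 k104 0 (.s k195 k130 8 (.s k63 k151 13 (.s k149 k192 14 (.s k61 k193 13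
  (.d k60 k150 k62 14 0))))))), (.s k64 k127 6 (.s k66 k67 0 (.s k130 k195 8 (.s k2 k194 7 (.s k3 k1
  0 (.d k192 k128 k129 7 8))))))] (.c k107 (.l (.s k64 k127 6 (.s k105 k125 5 (.s k192 k128 7 (.s
  k149 k63 14 (.s k193 k61 13 (.d k195 k194 k130 0 8))))))) .n))

def s42_170_200 : T TT 256 :=
  (.q k65 [(.s k64 k127 6 (.s k67 k66 0 (.s k105 k125 5 (.s k104 k107 0 (.d k124 k84 k86 5 6))))),
  (.s k105 k125 5 (.s k107 k104 0 (.s k195 k130 8 (.s k63 k151 13 (.s k149 k192 14 (.s k61 k193 13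
  (.d k60 k150 k62 14 0))))))), (.s k64 k127 6 (.s k66 k67 0 (.s k130 k195 8 (.s k2 k194 7 (.s k3 k1
  0 (.d k192 k128 k129 7 8))))))] (.c k107 (.l (.s k64 k127 6 (.s k105 k125 5 (.s k192 k128 7 (.s
  k149 k63 14 (.s k193 k61 13 (.d k195 k194 k130 0 8))))))) .n))

def s42_170_201 : T TT 256 :=
  (.q k65 [(.s k64 k127 6 (.s k67 k66 0 (.s k105 k125 5 (.s k104 k107 0 (.d k124 k84 k86 5 6))))),
  (.s k105 k125 5 (.s k107 k104 0 (.s k195 k130 8 (.s k63 k151 13 (.s k149 k192 14 (.s k61 k193 13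
  (.d k60 k150 k62 14 0))))))), (.s k64 k127 6 (.s k66 k67 0 (.s k130 k195 8 (.s k2 k194 7 (.s k3 k1
  0 (.d k192 k128 k129 7 8))))))] (.c k107 (.l (.s k64 k127 6 (.s k105 k125 5 (.s k192 k128 7 (.s
  k149 k63 14 (.s k193 k61 13 (.d k195 k194 k130 0 8))))))) .n))

def s42_170_202 : T TT 256 :=
  (.q k65 [(.s k64 k127 6 (.s k67 k66 0 (.s k105 k125 5 (.s k104 k107 0 (.d k124 k84 k86 5 6))))),
  (.s k105 k125 5 (.s k107 k104 0 (.s k195 k130 8 (.s k63 k151 13 (.s k149 k192 14 (.s k61 k193 13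
  (.d k60 k150 k62 14 0))))))), (.s k64 k127 6 (.s k66 k67 0 (.s k130 k195 8 (.s k2 k194 7 (.s k3 k1
  0 (.d k192 k128 k129 7 8))))))] (.c k107 (.l (.s k64 k127 6 (.s k105 k125 5 (.s k192 k128 7 (.s
  k149 k63 14 (.s k193 k61 13 (.d k195 k194 k130 0 8))))))) .n))

def s42_170_203 : T TT 256 :=
  (.q k65 [(.s k64 k127 6 (.s k67 k66 0 (.s k105 k125 5 (.s k104 k107 0 (.d k124 k84 k86 5 6))))),
  (.s k105 k125 5 (.s k107 k104 0 (.s k195 k130 8 (.s k63 k151 13 (.s k149 k192 14 (.s k61 k193 13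
  (.d k60 k150 k62 14 0))))))), (.s k64 k127 6 (.s k66 k67 0 (.s k130 k195 8 (.s k2 k194 7 (.s k3 k1
  0 (.d k192 k128 k129 7 8))))))] (.c k107 (.l (.s k64 k127 6 (.s k105 k125 5 (.s k192 k128 7 (.s
  k149 k63 14 (.s k193 k61 13 (.d k195 k194 k130 0 8))))))) .n))

def s42_170_204 : T TT 256 :=
  (.q k65 [(.s k64 k127 6 (.s k67 k66 0 (.s k105 k125 5 (.s k104 k107 0 (.d k124 k84 k86 5 6))))),
  (.s k105 k125 5 (.s k107 k104 0 (.s k195 k130 8 (.s k63 k151 13 (.s k149 k192 14 (.s k61 k193 13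
  (.d k60 k150 k62 14 0))))))), (.s k64 k127 6 (.s k66 k67 0 (.s k130 k195 8 (.s k2 k194 7 (.s k3 k1
  0 (.d k192 k128 k129 7 8))))))] (.c k107 (.l (.s k64 k127 6 (.s k105 k125 5 (.s k192 k128 7 (.s
  k149 k63 14 (.s k193 k61 13 (.d k195 k194 k130 0 8))))))) .n))

def s42_170_205 : T TT 256 :=
  (.q k65 [(.s k64 k127 6 (.s k67 k66 0 (.s k105 k125 5 (.s k104 k107 0 (.d k124 k84 k86 5 6))))),
  (.s k105 k125 5 (.s k107 k104 0 (.s k195 k130 8 (.s k63 k151 13 (.s k149 k192 14 (.s k61 k193 13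
  (.d k60 k150 k62 14 0))))))), (.s k64 k127 6 (.s k66 k67 0 (.s k130 k195 8 (.s k2 k194 7 (.s k3 k1
  0 (.d k192 k128 k129 7 8))))))] (.c k107 (.l (.s k64 k127 6 (.s k105 k125 5 (.s k192 k128 7 (.s
  k149 k63 14 (.s k193 k61 13 (.d k195 k194 k130 0 8))))))) .n))

def s42_170_206 : T TT 256 :=
  (.q k65 [(.s k64 k127 6 (.s k67 k66 0 (.s k105 k125 5 (.s k104 k107 0 (.d k124 k84 k86 5 6))))),
  (.s k105 k125 5 (.s k107 k104 0 (.s k195 k130 8 (.s k63 k151 13 (.s k149 k192 14 (.s k61 k193 13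
  (.d k60 k150 k62 14 0))))))), (.s k64 k127 6 (.s k66 k67 0 (.s k130 k195 8 (.s k2 k194 7 (.s k3 k1
  0 (.d k192 k128 k129 7 8))))))] (.c k107 (.l (.s k64 k127 6 (.s k105 k125 5 (.s k192 k128 7 (.s
  k149 k63 14 (.s k193 k61 13 (.d k195 k194 k130 0 8))))))) .n))

def s42_170_207 : T TT 256 :=
  (.q k65 [(.s k64 k127 6 (.s k67 k66 0 (.s k105 k125 5 (.s k104 k107 0 (.d k124 k84 k86 5 6))))),
  (.s k105 k125 5 (.s k107 k104 0 (.s k195 k130 8 (.s k63 k151 13 (.s k149 k192 14 (.s k61 k193 13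
  (.d k60 k150 k62 14 0))))))), (.s k64 k127 6 (.s k66 k67 0 (.s k130 k195 8 (.s k2 k194 7 (.s k3 k1
  0 (.d k192 k128 k129 7 8))))))] (.c k107 (.l (.s k64 k127 6 (.s k105 k125 5 (.s k192 k128 7 (.s
  k149 k63 14 (.s k193 k61 13 (.d k195 k194 k130 0 8))))))) .n))

def s42_170_208 : T TT 256 :=
  (.q k65 [(.s k64 k127 6 (.s k67 k66 0 (.s k105 k125 5 (.s k104 k107 0 (.d k124 k84 k86 5 6))))),
  (.s k105 k125 5 (.s k107 k104 0 (.s k195 k130 8 (.s k63 k151 13 (.s k149 k192 14 (.s k61 k193 13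
  (.d k60 k150 k62 14 0))))))), (.s k64 k127 6 (.s k66 k67 0 (.s k130 k195 8 (.s k2 k194 7 (.s k3 k1
  0 (.d k192 k128 k129 7 8))))))] (.c k107 (.l (.s k64 k127 6 (.s k105 k125 5 (.s k192 k128 7 (.s
  k149 k63 14 (.s k193 k61 13 (.d k195 k194 k130 0 8))))))) .n))

def s42_170_209 : T TT 256 :=
  (.q k65 [(.s k64 k127 6 (.s k67 k66 0 (.s k105 k125 5 (.s k104 k107 0 (.d k124 k84 k86 5 6))))),
  (.s k105 k125 5 (.s k107 k104 0 (.s k195 k130 8 (.s k63 k151 13 (.s k149 k192 14 (.s k61 k193 13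
  (.d k60 k150 k62 14 0))))))), (.s k64 k127 6 (.s k66 k67 0 (.s k130 k195 8 (.s k2 k194 7 (.s k3 k1
  0 (.d k192 k128 k129 7 8))))))] (.c k107 (.l (.s k64 k127 6 (.s k105 k125 5 (.s k192 k128 7 (.s
  k149 k63 14 (.s k193 k61 13 (.d k195 k194 k130 0 8))))))) .n))

def s42_170_210 : T TT 256 :=
  (.q k65 [(.s k64 k127 6 (.s k67 k66 0 (.s k105 k125 5 (.s k104 k107 0 (.d k124 k84 k86 5 6))))),
  (.s k105 k125 5 (.s k107 k104 0 (.s k195 k130 8 (.s k63 k151 13 (.s k149 k192 14 (.s k61 k193 13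
  (.d k60 k150 k62 14 0))))))), (.s k64 k127 6 (.s k66 k67 0 (.s k130 k195 8 (.s k2 k194 7 (.s k3 k1
  0 (.d k192 k128 k129 7 8))))))] (.c k107 (.l (.s k64 k127 6 (.s k105 k125 5 (.s k192 k128 7 (.s
  k149 k63 14 (.s k193 k61 13 (.d k195 k194 k130 0 8))))))) .n))

def s42_170_211 : T TT 256 :=
  (.q k65 [(.s k64 k127 6 (.s k67 k66 0 (.s k105 k125 5 (.s k104 k107 0 (.d k124 k84 k86 5 6))))),
  (.s k105 k125 5 (.s k107 k104 0 (.s k195 k130 8 (.s k63 k151 13 (.s k149 k192 14 (.s k61 k193 13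
  (.d k60 k150 k62 14 0))))))), (.s k64 k127 6 (.s k66 k67 0 (.s k130 k195 8 (.s k2 k194 7 (.s k3 k1
  0 (.d k192 k128 k129 7 8))))))] (.c k107 (.l (.s k64 k127 6 (.s k105 k125 5 (.s k192 k128 7 (.s
  k149 k63 14 (.s k193 k61 13 (.d k195 k194 k130 0 8))))))) .n))

def s42_170_212 : T TT 256 :=
  (.q k65 [(.s k64 k127 6 (.s k67 k66 0 (.s k105 k125 5 (.s k104 k107 0 (.d k124 k84 k86 5 6))))),
  (.s k105 k125 5 (.s k107 k104 0 (.s k195 k130 8 (.s k63 k151 13 (.s k149 k192 14 (.s k61 k193 13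
  (.d k60 k150 k62 14 0))))))), (.s k64 k127 6 (.s k66 k67 0 (.s k130 k195 8 (.s k2 k194 7 (.s k3 k1
  0 (.d k192 k128 k129 7 8))))))] (.c k107 (.l (.s k64 k127 6 (.s k105 k125 5 (.s k192 k128 7 (.s
  k149 k63 14 (.s k193 k61 13 (.d k195 k194 k130 0 8))))))) .n))

def s42_170_213 : T TT 256 :=
  (.q k65 [(.s k64 k127 6 (.s k67 k66 0 (.s k105 k125 5 (.s k104 k107 0 (.d k124 k84 k86 5 6))))),
  (.s k105 k125 5 (.s k107 k104 0 (.s k195 k130 8 (.s k63 k151 13 (.s k149 k192 14 (.s k61 k193 13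
  (.d k60 k150 k62 14 0))))))), (.s k64 k127 6 (.s k66 k67 0 (.s k130 k195 8 (.s k2 k194 7 (.s k3 k1
  0 (.d k192 k128 k129 7 8))))))] (.c k107 (.l (.s k64 k127 6 (.s k105 k125 5 (.s k192 k128 7 (.s
  k149 k63 14 (.s k193 k61 13 (.d k195 k194 k130 0 8))))))) .n))

def s42_170_214 : T TT 256 :=
  (.q k65 [(.s k64 k127 6 (.s k67 k66 0 (.s k105 k125 5 (.s k104 k107 0 (.d k124 k84 k86 5 6))))),
  (.s k105 k125 5 (.s k107 k104 0 (.s k195 k130 8 (.s k63 k151 13 (.s k149 k192 14 (.s k61 k193 13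
  (.d k60 k150 k62 14 0))))))), (.s k64 k127 6 (.s k66 k67 0 (.s k130 k195 8 (.s k2 k194 7 (.s k3 k1
  0 (.d k192 k128 k129 7 8))))))] (.c k107 (.l (.s k64 k127 6 (.s k105 k125 5 (.s k192 k128 7 (.s
  k149 k63 14 (.s k193 k61 13 (.d k195 k194 k130 0 8))))))) .n))

def s42_170_215 : T TT 256 :=
  (.q k65 [(.s k64 k127 6 (.s k67 k66 0 (.s k105 k125 5 (.s k104 k107 0 (.d k124 k84 k86 5 6))))),
  (.s k105 k125 5 (.s k107 k104 0 (.s k195 k130 8 (.s k63 k151 13 (.s k149 k192 14 (.s k61 k193 13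
  (.d k60 k150 k62 14 0))))))), (.s k64 k127 6 (.s k66 k67 0 (.s k130 k195 8 (.s k2 k194 7 (.s k3 k1
  0 (.d k192 k128 k129 7 8))))))] (.c k107 (.l (.s k64 k127 6 (.s k105 k125 5 (.s k192 k128 7 (.s
  k149 k63 14 (.s k193 k61 13 (.d k195 k194 k130 0 8))))))) .n))

def s42_170_216 : T TT 256 :=
  (.q k65 [(.s k64 k127 6 (.s k67 k66 0 (.s k105 k125 5 (.s k104 k107 0 (.d k124 k84 k86 5 6))))),
  (.s k105 k125 5 (.s k107 k104 0 (.s k195 k130 8 (.s k63 k151 13 (.s k149 k192 14 (.s k61 k193 13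
  (.d k60 k150 k62 14 0))))))), (.s k64 k127 6 (.s k66 k67 0 (.s k130 k195 8 (.s k2 k194 7 (.s k3 k1
  0 (.d k192 k128 k129 7 8))))))] (.c k107 (.l (.s k64 k127 6 (.s k105 k125 5 (.s k192 k128 7 (.s
  k149 k63 14 (.s k193 k61 13 (.d k195 k194 k130 0 8))))))) .n))

def s42_170_217 : T TT 256 :=
  (.q k65 [(.s k64 k127 6 (.s k67 k66 0 (.s k105 k125 5 (.s k104 k107 0 (.d k124 k84 k86 5 6))))),
  (.s k105 k125 5 (.s k107 k104 0 (.s k195 k130 8 (.s k63 k151 13 (.s k149 k192 14 (.s k61 k193 13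
  (.d k60 k150 k62 14 0))))))), (.s k64 k127 6 (.s k66 k67 0 (.s k130 k195 8 (.s k2 k194 7 (.s k3 k1
  0 (.d k192 k128 k129 7 8))))))] (.c k107 (.l (.s k64 k127 6 (.s k105 k125 5 (.s k192 k128 7 (.s
  k149 k63 14 (.s k193 k61 13 (.d k195 k194 k130 0 8))))))) .n))

def s42_170_218 : T TT 256 :=
  (.q k65 [(.s k64 k127 6 (.s k67 k66 0 (.s k105 k125 5 (.s k104 k107 0 (.d k124 k84 k86 5 6))))),
  (.s k105 k125 5 (.s k107 k104 0 (.s k195 k130 8 (.s k63 k151 13 (.s k149 k192 14 (.s k61 k193 13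
  (.d k60 k150 k62 14 0))))))), (.s k64 k127 6 (.s k66 k67 0 (.s k130 k195 8 (.s k2 k194 7 (.s k3 k1
  0 (.d k192 k128 k129 7 8))))))] (.c k107 (.l (.s k64 k127 6 (.s k105 k125 5 (.s k192 k128 7 (.s
  k149 k63 14 (.s k193 k61 13 (.d k195 k194 k130 0 8))))))) .n))

def s42_170_219 : T TT 256 :=
  (.q k65 [(.s k64 k127 6 (.s k67 k66 0 (.s k105 k125 5 (.s k104 k107 0 (.d k124 k84 k86 5 6))))),
  (.s k105 k125 5 (.s k107 k104 0 (.s k195 k130 8 (.s k63 k151 13 (.s k149 k192 14 (.s k61 k193 13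
  (.d k60 k150 k62 14 0))))))), (.s k64 k127 6 (.s k66 k67 0 (.s k130 k195 8 (.s k2 k194 7 (.s k3 k1
  0 (.d k192 k128 k129 7 8))))))] (.c k107 (.l (.s k64 k127 6 (.s k105 k125 5 (.s k192 k128 7 (.s
  k149 k63 14 (.s k193 k61 13 (.d k195 k194 k130 0 8))))))) .n))

def s42_170_220 : T TT 256 :=
  (.q k65 [(.s k64 k127 6 (.s k67 k66 0 (.s k105 k125 5 (.s k104 k107 0 (.d k124 k84 k86 5 6))))),
  (.s k105 k125 5 (.s k107 k104 0 (.s k195 k130 8 (.s k63 k151 13 (.s k149 k192 14 (.s k61 k193 13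
  (.d k60 k150 k62 14 0))))))), (.s k64 k127 6 (.s k66 k67 0 (.s k130 k195 8 (.s k2 k194 7 (.s k3 k1
  0 (.d k192 k128 k129 7 8))))))] (.c k107 (.l (.s k64 k127 6 (.s k105 k125 5 (.s k192 k128 7 (.s
  k149 k63 14 (.s k193 k61 13 (.d k195 k194 k130 0 8))))))) .n))

def s42_170_221 : T TT 256 :=
  (.q k65 [(.s k64 k127 6 (.s k67 k66 0 (.s k105 k125 5 (.s k104 k107 0 (.d k124 k84 k86 5 6))))),
  (.s k105 k125 5 (.s k107 k104 0 (.s k195 k130 8 (.s k63 k151 13 (.s k149 k192 14 (.s k61 k193 13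
  (.d k60 k150 k62 14 0))))))), (.s k64 k127 6 (.s k66 k67 0 (.s k130 k195 8 (.s k2 k194 7 (.s k3 k1
  0 (.d k192 k128 k129 7 8))))))] (.c k107 (.l (.s k64 k127 6 (.s k105 k125 5 (.s k192 k128 7 (.s
  k149 k63 14 (.s k193 k61 13 (.d k195 k194 k130 0 8))))))) .n))

def s42_170_222 : T TT 256 :=
  (.q k65 [(.s k64 k127 6 (.s k67 k66 0 (.s k105 k125 5 (.s k104 k107 0 (.d k124 k84 k86 5 6))))),
  (.s k105 k125 5 (.s k107 k104 0 (.s k195 k130 8 (.s k63 k151 13 (.s k149 k192 14 (.s k61 k193 13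
  (.d k60 k150 k62 14 0))))))), (.s k64 k127 6 (.s k66 k67 0 (.s k130 k195 8 (.s k2 k194 7 (.s k3 k1
  0 (.d k192 k128 k129 7 8))))))] (.c k107 (.l (.s k64 k127 6 (.s k105 k125 5 (.s k192 k128 7 (.s
  k149 k63 14 (.s k193 k61 13 (.d k195 k194 k130 0 8))))))) .n))

def s42_170_223 : T TT 256 :=
  (.q k65 [(.s k64 k127 6 (.s k67 k66 0 (.s k105 k125 5 (.s k104 k107 0 (.d k124 k84 k86 5 6))))),
  (.s k105 k125 5 (.s k107 k104 0 (.s k195 k130 8 (.s k63 k151 13 (.s k149 k192 14 (.s k61 k193 13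
  (.d k60 k150 k62 14 0))))))), (.s k64 k127 6 (.s k66 k67 0 (.s k130 k195 8 (.s k2 k194 7 (.s k3 k1
  0 (.d k192 k128 k129 7 8))))))] (.c k107 (.l (.s k64 k127 6 (.s k105 k125 5 (.s k192 k128 7 (.s
  k149 k63 14 (.s k193 k61 13 (.d k195 k194 k130 0 8))))))) .n))

def s42_170_224 : T TT 256 :=
  (.q k65 [(.s k64 k127 6 (.s k67 k66 0 (.s k105 k125 5 (.s k104 k107 0 (.d k124 k84 k86 5 6))))),
  (.s k105 k125 5 (.s k107 k104 0 (.s k195 k130 8 (.s k63 k151 13 (.s k149 k192 14 (.s k61 k193 13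
  (.d k60 k150 k62 14 0))))))), (.s k64 k127 6 (.s k66 k67 0 (.s k130 k195 8 (.s k2 k194 7 (.s k3 k1
  0 (.d k192 k128 k129 7 8))))))] (.c k107 (.l (.s k64 k127 6 (.s k105 k125 5 (.s k192 k128 7 (.s
  k149 k63 14 (.s k193 k61 13 (.d k195 k194 k130 0 8))))))) .n))

def s42_170_225 : T TT 256 :=
  (.q k65 [(.s k64 k127 6 (.s k67 k66 0 (.s k105 k125 5 (.s k104 k107 0 (.d k124 k84 k86 5 6))))),
  (.s k105 k125 5 (.s k107 k104 0 (.s k195 k130 8 (.s k63 k151 13 (.s k149 k192 14 (.s k61 k193 13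
  (.d k60 k150 k62 14 0))))))), (.s k64 k127 6 (.s k66 k67 0 (.s k130 k195 8 (.s k2 k194 7 (.s k3 k1
  0 (.d k192 k128 k129 7 8))))))] (.c k107 (.l (.s k64 k127 6 (.s k105 k125 5 (.s k192 k128 7 (.s
  k149 k63 14 (.s k193 k61 13 (.d k195 k194 k130 0 8))))))) .n))

def s42_170_226 : T TT 256 :=
  (.q k65 [(.s k64 k127 6 (.s k67 k66 0 (.s k105 k125 5 (.s k104 k107 0 (.d k124 k84 k86 5 6))))),
  (.s k105 k125 5 (.s k107 k104 0 (.s k195 k130 8 (.s k63 k151 13 (.s k149 k192 14 (.s k61 k193 13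
  (.d k60 k150 k62 14 0))))))), (.s k64 k127 6 (.s k66 k67 0 (.s k130 k195 8 (.s k2 k194 7 (.s k3 k1
  0 (.d k192 k128 k129 7 8))))))] (.c k107 (.l (.s k64 k127 6 (.s k105 k125 5 (.s k192 k128 7 (.s
  k149 k63 14 (.s k193 k61 13 (.d k195 k194 k130 0 8))))))) .n))

def s42_170_227 : T TT 256 :=
  (.q k65 [(.s k64 k127 6 (.s k67 k66 0 (.s k105 k125 5 (.s k104 k107 0 (.d k124 k84 k86 5 6))))),
  (.s k105 k125 5 (.s k107 k104 0 (.s k195 k130 8 (.s k63 k151 13 (.s k149 k192 14 (.s k61 k193 13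
  (.d k60 k150 k62 14 0))))))), (.s k64 k127 6 (.s k66 k67 0 (.s k130 k195 8 (.s k2 k194 7 (.s k3 k1
  0 (.d k192 k128 k129 7 8))))))] (.c k107 (.l (.s k64 k127 6 (.s k105 k125 5 (.s k192 k128 7 (.s
  k149 k63 14 (.s k193 k61 13 (.d k195 k194 k130 0 8))))))) .n))

def s42_170_228 : T TT 256 :=
  (.q k65 [(.s k64 k127 6 (.s k67 k66 0 (.s k105 k125 5 (.s k104 k107 0 (.d k124 k84 k86 5 6))))),
  (.s k105 k125 5 (.s k107 k104 0 (.s k195 k130 8 (.s k63 k151 13 (.s k149 k192 14 (.s k61 k193 13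
  (.d k60 k150 k62 14 0))))))), (.s k64 k127 6 (.s k66 k67 0 (.s k130 k195 8 (.s k2 k194 7 (.s k3 k1
  0 (.d k192 k128 k129 7 8))))))] (.c k107 (.l (.s k64 k127 6 (.s k105 k125 5 (.s k192 k128 7 (.s
  k149 k63 14 (.s k193 k61 13 (.d k195 k194 k130 0 8))))))) .n))

def s42_170_229 : T TT 256 :=
  (.q k65 [(.s k64 k127 6 (.s k67 k66 0 (.s k105 k125 5 (.s k104 k107 0 (.d k124 k84 k86 5 6))))),
  (.s k105 k125 5 (.s k107 k104 0 (.s k195 k130 8 (.s k63 k151 13 (.s k149 k192 14 (.s k61 k193 13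
  (.d k60 k150 k62 14 0))))))), (.s k64 k127 6 (.s k66 k67 0 (.s k130 k195 8 (.s k2 k194 7 (.s k3 k1
  0 (.d k192 k128 k129 7 8))))))] (.c k107 (.l (.s k64 k127 6 (.s k105 k125 5 (.s k192 k128 7 (.s
  k149 k63 14 (.s k193 k61 13 (.d k195 k194 k130 0 8))))))) .n))

def s42_170_230 : T TT 256 :=
  (.q k65 [(.s k64 k127 6 (.s k67 k66 0 (.s k105 k125 5 (.s k104 k107 0 (.d k124 k84 k86 5 6))))),
  (.s k105 k125 5 (.s k107 k104 0 (.s k195 k130 8 (.s k63 k151 13 (.s k149 k192 14 (.s k61 k193 13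
  (.d k60 k150 k62 14 0))))))), (.s k64 k127 6 (.s k66 k67 0 (.s k130 k195 8 (.s k2 k194 7 (.s k3 k1
  0 (.d k192 k128 k129 7 8))))))] (.c k107 (.l (.s k64 k127 6 (.s k105 k125 5 (.s k192 k128 7 (.s
  k149 k63 14 (.s k193 k61 13 (.d k195 k194 k130 0 8))))))) .n))

def s42_170_231 : T TT 256 :=
  (.q k65 [(.s k64 k127 6 (.s k67 k66 0 (.s k105 k125 5 (.s k104 k107 0 (.d k124 k84 k86 5 6))))),
  (.s k105 k125 5 (.s k107 k104 0 (.s k195 k130 8 (.s k63 k151 13 (.s k149 k192 14 (.s k61 k193 13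
  (.d k60 k150 k62 14 0))))))), (.s k64 k127 6 (.s k66 k67 0 (.s k130 k195 8 (.s k2 k194 7 (.s k3 k1
  0 (.d k192 k128 k129 7 8))))))] (.c k107 (.l (.s k64 k127 6 (.s k105 k125 5 (.s k192 k128 7 (.s
  k149 k63 14 (.s k193 k61 13 (.d k195 k194 k130 0 8))))))) .n))

def s42_170_232 : T TT 256 :=
  (.q k65 [(.s k64 k127 6 (.s k67 k66 0 (.s k105 k125 5 (.s k104 k107 0 (.d k124 k84 k86 5 6))))),
  (.s k105 k125 5 (.s k107 k104 0 (.s k195 k130 8 (.s k63 k151 13 (.s k149 k192 14 (.s k61 k193 13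
  (.d k60 k150 k62 14 0))))))), (.s k64 k127 6 (.s k66 k67 0 (.s k130 k195 8 (.s k2 k194 7 (.s k3 k1
  0 (.d k192 k128 k129 7 8))))))] (.c k107 (.l (.s k64 k127 6 (.s k105 k125 5 (.s k192 k128 7 (.s
  k149 k63 14 (.s k193 k61 13 (.d k195 k194 k130 0 8))))))) .n))

def s42_170_233 : T TT 256 :=
  (.q k65 [(.s k64 k127 6 (.s k67 k66 0 (.s k105 k125 5 (.s k104 k107 0 (.d k124 k84 k86 5 6))))),
  (.s k105 k125 5 (.s k107 k104 0 (.s k195 k130 8 (.s k63 k151 13 (.s k149 k192 14 (.s k61 k193 13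
  (.d k60 k150 k62 14 0))))))), (.s k64 k127 6 (.s k66 k67 0 (.s k130 k195 8 (.s k2 k194 7 (.s k3 k1
  0 (.d k192 k128 k129 7 8))))))] (.c k107 (.l (.s k64 k127 6 (.s k105 k125 5 (.s k192 k128 7 (.s
  k149 k63 14 (.s k193 k61 13 (.d k195 k194 k130 0 8))))))) .n))

def s42_170_234 : T TT 256 :=
  (.q k65 [(.s k64 k127 6 (.s k67 k66 0 (.s k105 k125 5 (.s k104 k107 0 (.d k124 k84 k86 5 6))))),
  (.s k105 k125 5 (.s k107 k104 0 (.s k195 k130 8 (.s k63 k151 13 (.s k149 k192 14 (.s k61 k193 13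
  (.d k60 k150 k62 14 0))))))), (.s k64 k127 6 (.s k66 k67 0 (.s k130 k195 8 (.s k2 k194 7 (.s k3 k1
  0 (.d k192 k128 k129 7 8))))))] (.c k107 (.l (.s k64 k127 6 (.s k105 k125 5 (.s k192 k128 7 (.s
  k149 k63 14 (.s k193 k61 13 (.d k195 k194 k130 0 8))))))) .n))

def s42_170_235 : T TT 256 :=
  (.q k105 [(.s k107 k104 0 (.s k125 k65 5 (.s k127 k64 6 (.s k67 k87 5 (.d k124 k126 k86 0 6))))),
  (.s k65 k125 5 (.s k107 k104 0 (.s k195 k130 8 (.s k63 k151 13 (.s k149 k192 14 (.s k61 k193 13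
  (.d k60 k150 k62 14 0))))))), (.s k64 k127 6 (.s k104 k107 0 (.s k192 k128 7 (.s k60 k148 13 (.s
  k20 k40 5 (.d k150 k215 k195 8 14)))))), (.s k64 k127 6 (.s k65 k125 5 (.s k192 k128 7 (.s k149
  k63 14 (.s k193 k61 13 (.d k195 k194 k130 0 8))))))] .n)

def s42_170_236 : T TT 256 :=
  (.q k65 [(.s k64 k127 6 (.s k67 k66 0 (.s k105 k125 5 (.s k104 k107 0 (.d k124 k84 k86 5 6))))),
  (.s k105 k125 5 (.s k107 k104 0 (.s k195 k130 8 (.s k63 k151 13 (.s k149 k192 14 (.s k61 k193 13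
  (.d k60 k150 k62 14 0))))))), (.s k64 k127 6 (.s k66 k67 0 (.s k130 k195 8 (.s k2 k194 7 (.s k3 k1
  0 (.d k192 k128 k129 7 8))))))] (.c k107 (.l (.s k64 k127 6 (.s k105 k125 5 (.s k192 k128 7 (.s
  k149 k63 14 (.s k193 k61 13 (.d k195 k194 k130 0 8))))))) .n))

def s42_170_237 : T TT 256 :=
  (.q k65 [(.s k64 k127 6 (.s k67 k66 0 (.s k105 k125 5 (.s k104 k107 0 (.d k124 k84 k86 5 6))))),
  (.s k105 k125 5 (.s k107 k104 0 (.s k195 k130 8 (.s k63 k151 13 (.s k149 k192 14 (.s k61 k193 13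
  (.d k60 k150 k62 14 0))))))), (.s k64 k127 6 (.s k66 k67 0 (.s k130 k195 8 (.s k2 k194 7 (.s k3 k1
  0 (.d k192 k128 k129 7 8))))))] (.c k107 (.l (.s k64 k127 6 (.s k105 k125 5 (.s k192 k128 7 (.s
  k149 k63 14 (.s k193 k61 13 (.d k195 k194 k130 0 8))))))) .n))

def s42_170_238 : T TT 256 :=
  (.q k102 [(.s k110 k98 1 (.s k119 k68 4 (.s k127 k64 6 (.s k76 k93 4 (.d k115 k123 k89 1 6))))),
  (.s k68 k119 4 (.s k110 k98 1 (.s k204 k136 9 (.s k63 k157 12 (.s k149 k192 14 (.s k55 k196 12 (.d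
  k51 k153 k59 14 1))))))), (.s k64 k127 6 (.s k98 k110 1 (.s k192 k128 7 (.s k51 k145 12 (.s k17
  k34 4 (.d k153 k221 k204 9 14)))))), (.s k64 k127 6 (.s k68 k119 4 (.s k192 k128 7 (.s k149 k63 14
  (.s k196 k55 12 (.d k204 k200 k136 1 9))))))] .n)

def s42_170_239 : T TT 256 :=
  (.q k101 [(.s k111 k96 2 (.s k117 k69 3 (.s k127 k64 6 (.s k79 k95 3 (.d k112 k122 k90 2 6))))),
  (.s k69 k117 3 (.s k111 k96 2 (.s k207 k138 10 (.s k63 k159 11 (.s k149 k192 14 (.s k53 k197 11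
  (.d k48 k154 k58 14 2))))))), (.s k64 k127 6 (.s k96 k111 2 (.s k192 k128 7 (.s k48 k144 11 (.s
  k16 k32 3 (.d k154 k223 k207 10 14)))))), (.s k64 k127 6 (.s k69 k117 3 (.s k192 k128 7 (.s k149
  k63 14 (.s k197 k53 11 (.d k207 k202 k138 2 10))))))] .n)

def s42_170_240 : T TT 256 :=
  (.q k65 [(.s k64 k127 6 (.s k67 k66 0 (.s k105 k125 5 (.s k104 k107 0 (.d k124 k84 k86 5 6))))),
  (.s k105 k125 5 (.s k107 k104 0 (.s k195 k130 8 (.s k63 k151 13 (.s k149 k192 14 (.s k61 k193 13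
  (.d k60 k150 k62 14 0))))))), (.s k64 k127 6 (.s k66 k67 0 (.s k130 k195 8 (.s k2 k194 7 (.s k3 k1
  0 (.d k192 k128 k129 7 8))))))] (.c k107 (.l (.s k64 k127 6 (.s k105 k125 5 (.s k192 k128 7 (.s
  k149 k63 14 (.s k193 k61 13 (.d k195 k194 k130 0 8))))))) .n))

def s42_170_241 : T TT 256 :=
  (.q k65 [(.s k64 k127 6 (.s k67 k66 0 (.s k105 k125 5 (.s k104 k107 0 (.d k124 k84 k86 5 6))))),
  (.s k105 k125 5 (.s k107 k104 0 (.s k195 k130 8 (.s k63 k151 13 (.s k149 k192 14 (.s k61 k193 13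
  (.d k60 k150 k62 14 0))))))), (.s k64 k127 6 (.s k66 k67 0 (.s k130 k195 8 (.s k2 k194 7 (.s k3 k1
  0 (.d k192 k128 k129 7 8))))))] (.c k107 (.l (.s k64 k127 6 (.s k105 k125 5 (.s k192 k128 7 (.s
  k149 k63 14 (.s k193 k61 13 (.d k195 k194 k130 0 8))))))) .n))

def s42_170_242 : T TT 256 :=
  (.q k65 [(.s k64 k127 6 (.s k67 k66 0 (.s k105 k125 5 (.s k104 k107 0 (.d k124 k84 k86 5 6))))),
  (.s k105 k125 5 (.s k107 k104 0 (.s k195 k130 8 (.s k63 k151 13 (.s k149 k192 14 (.s k61 k193 13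
  (.d k60 k150 k62 14 0))))))), (.s k64 k127 6 (.s k66 k67 0 (.s k130 k195 8 (.s k2 k194 7 (.s k3 k1
  0 (.d k192 k128 k129 7 8))))))] (.c k107 (.l (.s k64 k127 6 (.s k105 k125 5 (.s k192 k128 7 (.s
  k149 k63 14 (.s k193 k61 13 (.d k195 k194 k130 0 8))))))) .n))

def s42_170_243 : T TT 256 :=
  (.q k65 [(.s k64 k127 6 (.s k67 k66 0 (.s k105 k125 5 (.s k104 k107 0 (.d k124 k84 k86 5 6))))),
  (.s k105 k125 5 (.s k107 k104 0 (.s k195 k130 8 (.s k63 k151 13 (.s k149 k192 14 (.s k61 k193 13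
  (.d k60 k150 k62 14 0))))))), (.s k64 k127 6 (.s k66 k67 0 (.s k130 k195 8 (.s k2 k194 7 (.s k3 k1
  0 (.d k192 k128 k129 7 8))))))] (.c k107 (.l (.s k64 k127 6 (.s k105 k125 5 (.s k192 k128 7 (.s
  k149 k63 14 (.s k193 k61 13 (.d k195 k194 k130 0 8))))))) .n))

def s42_170_244 : T TT 256 :=
  (.q k65 [(.s k64 k127 6 (.s k67 k66 0 (.s k105 k125 5 (.s k104 k107 0 (.d k124 k84 k86 5 6))))),
  (.s k105 k125 5 (.s k107 k104 0 (.s k195 k130 8 (.s k63 k151 13 (.s k149 k192 14 (.s k61 k193 13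
  (.d k60 k150 k62 14 0))))))), (.s k64 k127 6 (.s k66 k67 0 (.s k130 k195 8 (.s k2 k194 7 (.s k3 k1
  0 (.d k192 k128 k129 7 8))))))] (.c k107 (.l (.s k64 k127 6 (.s k105 k125 5 (.s k192 k128 7 (.s
  k149 k63 14 (.s k193 k61 13 (.d k195 k194 k130 0 8))))))) .n))

def s42_170_245 : T TT 256 :=
  (.q k65 [(.s k64 k127 6 (.s k67 k66 0 (.s k105 k125 5 (.s k104 k107 0 (.d k124 k84 k86 5 6))))),
  (.s k105 k125 5 (.s k107 k104 0 (.s k195 k130 8 (.s k63 k151 13 (.s k149 k192 14 (.s k61 k193 13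
  (.d k60 k150 k62 14 0))))))), (.s k64 k127 6 (.s k66 k67 0 (.s k130 k195 8 (.s k2 k194 7 (.s k3 k1
  0 (.d k192 k128 k129 7 8))))))] (.c k107 (.l (.s k64 k127 6 (.s k105 k125 5 (.s k192 k128 7 (.s
  k149 k63 14 (.s k193 k61 13 (.d k195 k194 k130 0 8))))))) .n))

def s42_170_246 : T TT 256 :=
  (.q k65 [(.s k64 k127 6 (.s k67 k66 0 (.s k105 k125 5 (.s k104 k107 0 (.d k124 k84 k86 5 6))))),
  (.s k105 k125 5 (.s k107 k104 0 (.s k195 k130 8 (.s k63 k151 13 (.s k149 k192 14 (.s k61 k193 13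
  (.d k60 k150 k62 14 0))))))), (.s k64 k127 6 (.s k66 k67 0 (.s k130 k195 8 (.s k2 k194 7 (.s k3 k1
  0 (.d k192 k128 k129 7 8))))))] (.c k107 (.l (.s k64 k127 6 (.s k105 k125 5 (.s k192 k128 7 (.s
  k149 k63 14 (.s k193 k61 13 (.d k195 k194 k130 0 8))))))) .n))

def s42_170_247 : T TT 256 :=
  (.q k65 [(.s k64 k127 6 (.s k67 k66 0 (.s k105 k125 5 (.s k104 k107 0 (.d k124 k84 k86 5 6))))),
  (.s k105 k125 5 (.s k107 k104 0 (.s k195 k130 8 (.s k63 k151 13 (.s k149 k192 14 (.s k61 k193 13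
  (.d k60 k150 k62 14 0))))))), (.s k64 k127 6 (.s k66 k67 0 (.s k130 k195 8 (.s k2 k194 7 (.s k3 k1
  0 (.d k192 k128 k129 7 8))))))] (.c k107 (.l (.s k64 k127 6 (.s k105 k125 5 (.s k192 k128 7 (.s
  k149 k63 14 (.s k193 k61 13 (.d k195 k194 k130 0 8))))))) .n))

def s42_170_248 : T TT 256 :=
  (.q k65 [(.s k64 k127 6 (.s k67 k66 0 (.s k105 k125 5 (.s k104 k107 0 (.d k124 k84 k86 5 6))))),
  (.s k105 k125 5 (.s k107 k104 0 (.s k195 k130 8 (.s k63 k151 13 (.s k149 k192 14 (.s k61 k193 13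
  (.d k60 k150 k62 14 0))))))), (.s k64 k127 6 (.s k66 k67 0 (.s k130 k195 8 (.s k2 k194 7 (.s k3 k1
  0 (.d k192 k128 k129 7 8))))))] (.c k107 (.l (.s k64 k127 6 (.s k105 k125 5 (.s k192 k128 7 (.s
  k149 k63 14 (.s k193 k61 13 (.d k195 k194 k130 0 8))))))) .n))

def s42_170_249 : T TT 256 :=
  (.q k65 [(.s k64 k127 6 (.s k67 k66 0 (.s k105 k125 5 (.s k104 k107 0 (.d k124 k84 k86 5 6))))),
  (.s k105 k125 5 (.s k107 k104 0 (.s k195 k130 8 (.s k63 k151 13 (.s k149 k192 14 (.s k61 k193 13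
  (.d k60 k150 k62 14 0))))))), (.s k64 k127 6 (.s k66 k67 0 (.s k130 k195 8 (.s k2 k194 7 (.s k3 k1
  0 (.d k192 k128 k129 7 8))))))] (.c k107 (.l (.s k64 k127 6 (.s k105 k125 5 (.s k192 k128 7 (.s
  k149 k63 14 (.s k193 k61 13 (.d k195 k194 k130 0 8))))))) .n))

def s42_170_250 : T TT 256 :=
  (.q k90 [(.s k95 k80 2 (.s k122 k74 3 (.s k127 k64 6 (.s k79 k111 3 (.d k112 k117 k101 2 6))))),
  (.s k80 k95 2 (.s k122 k74 3 (.s k240 k160 11 (.s k63 k181 10 (.s k149 k192 14 (.s k31 k208 10 (.d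
  k15 k165 k47 14 3))))))), (.s k64 k127 6 (.s k80 k95 2 (.s k192 k128 7 (.s k149 k63 14 (.s k208
  k31 10 (.d k240 k224 k160 3 11)))))), (.s k64 k127 6 (.s k74 k122 3 (.s k192 k128 7 (.s k15 k133
  10 (.s k5 k10 2 (.d k165 k245 k240 11 14))))))] .n)

def s42_170_251 : T TT 256 :=
  (.q k89 [(.s k93 k81 1 (.s k123 k72 4 (.s k127 k64 6 (.s k76 k110 4 (.d k115 k119 k102 1 6))))),
  (.s k81 k93 1 (.s k123 k72 4 (.s k243 k162 12 (.s k63 k183 9 (.s k149 k192 14 (.s k29 k209 9 (.d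
  k12 k166 k46 14 4))))))), (.s k64 k127 6 (.s k81 k93 1 (.s k192 k128 7 (.s k149 k63 14 (.s k209
  k29 9 (.d k243 k226 k162 4 12)))))), (.s k64 k127 6 (.s k72 k123 4 (.s k192 k128 7 (.s k12 k132 9
  (.s k4 k8 1 (.d k166 k247 k243 12 14))))))] .n)

def s42_170_252 : T TT 256 :=
  (.q k65 [(.s k64 k127 6 (.s k67 k66 0 (.s k105 k125 5 (.s k104 k107 0 (.d k124 k84 k86 5 6))))),
  (.s k105 k125 5 (.s k107 k104 0 (.s k195 k130 8 (.s k63 k151 13 (.s k149 k192 14 (.s k61 k193 13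
  (.d k60 k150 k62 14 0))))))), (.s k64 k127 6 (.s k66 k67 0 (.s k130 k195 8 (.s k2 k194 7 (.s k3 k1
  0 (.d k192 k128 k129 7 8))))))] (.c k107 (.l (.s k64 k127 6 (.s k105 k125 5 (.s k192 k128 7 (.s
  k149 k63 14 (.s k193 k61 13 (.d k195 k194 k130 0 8))))))) .n))

def s42_170_253 : T TT 256 :=
  (.q k65 [(.s k64 k127 6 (.s k67 k66 0 (.s k105 k125 5 (.s k104 k107 0 (.d k124 k84 k86 5 6))))),
  (.s k64 k127 6 (.s k66 k67 0 (.s k130 k195 8 (.s k2 k194 7 (.s k3 k1 0 (.d k192 k128 k129 7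
  8)))))), (.s k105 k125 5 (.s k107 k104 0 (.s k195 k130 8 (.s k63 k151 13 (.s k149 k192 14 (.s k61
  k193 13 (.d k60 k150 k62 14 0)))))))] (.c k107 (.l (.s k64 k127 6 (.s k105 k125 5 (.s k192 k128 7
  (.s k149 k63 14 (.s k195 k130 8 (.d k193 k61 k194 13 0))))))) .n))

def s42_170_254 : T TT 256 :=
  (.q k86 [(.s k87 k84 0 (.s k126 k66 5 (.s k127 k64 6 (.s k67 k107 5 (.d k124 k125 k105 0 6))))),
  (.s k84 k87 0 (.s k126 k66 5 (.s k252 k168 13 (.s k63 k189 8 (.s k149 k192 14 (.s k23 k212 8 (.d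
  k3 k169 k43 14 5))))))), (.s k64 k127 6 (.s k84 k87 0 (.s k192 k128 7 (.s k149 k63 14 (.s k212 k23
  8 (.d k252 k232 k168 5 13)))))), (.s k64 k127 6 (.s k66 k126 5 (.s k192 k128 7 (.s k3 k129 8 (.s
  k1 k2 0 (.d k169 k253 k252 13 14))))))] .n)

def s42_170_255 : T TT 256 :=
  (.q k86 [(.s k87 k84 0 (.s k126 k66 5 (.s k127 k64 6 (.s k67 k107 5 (.d k124 k125 k105 0 6))))),
  (.s k84 k87 0 (.s k126 k66 5 (.s k252 k168 13 (.s k63 k189 8 (.s k149 k192 14 (.s k23 k212 8 (.d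
  k3 k169 k43 14 5))))))), (.s k64 k127 6 (.s k84 k87 0 (.s k192 k128 7 (.s k252 k168 13 (.s k212
  k232 5 (.d k149 k63 k23 14 8)))))), (.s k64 k127 6 (.s k66 k126 5 (.s k192 k128 7 (.s k3 k129 8
  (.s k1 k2 0 (.d k169 k253 k252 13 14))))))] .n)

def t42_170 : T TT 256 :=
  (.q k106 [] (.c k1 s42_170_1 (.c k2 s42_170_2 (.c k3 s42_170_3 (.c k4 s42_170_4 (.c k5 s42_170_5
  (.c k6 s42_170_6 (.c k7 s42_170_7 (.c k8 s42_170_8 (.c k9 s42_170_9 (.c k10 s42_170_10 (.c k11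
  s42_170_11 (.c k12 s42_170_12 (.c k13 s42_170_13 (.c k14 s42_170_14 (.c k15 s42_170_15 (.c k16
  s42_170_16 (.c k17 s42_170_17 (.c k18 s42_170_18 (.c k19 s42_170_19 (.c k20 s42_170_20 (.c k21
  s42_170_21 (.c k22 s42_170_22 (.c k23 s42_170_23 (.c k24 s42_170_24 (.c k25 s42_170_25 (.c k26
  s42_170_26 (.c k27 s42_170_27 (.c k28 s42_170_28 (.c k29 s42_170_29 (.c k30 s42_170_30 (.c k31
  s42_170_31 (.c k32 s42_170_32 (.c k33 s42_170_33 (.c k34 s42_170_34 (.c k35 s42_170_35 (.c k36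
  s42_170_36 (.c k37 s42_170_37 (.c k38 s42_170_38 (.c k39 s42_170_39 (.c k40 s42_170_40 (.c k41
  s42_170_41 (.c k43 s42_170_43 (.c k44 s42_170_44 (.c k45 s42_170_45 (.c k46 s42_170_46 (.c k47
  s42_170_47 (.c k48 s42_170_48 (.c k49 s42_170_49 (.c k50 s42_170_50 (.c k51 s42_170_51 (.c k52
  s42_170_52 (.c k53 s42_170_53 (.c k54 s42_170_54 (.c k55 s42_170_55 (.c k56 s42_170_56 (.c k57
  s42_170_57 (.c k58 s42_170_58 (.c k59 s42_170_59 (.c k60 s42_170_60 (.c k61 s42_170_61 (.c k62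
  s42_170_62 (.c k63 s42_170_63 (.c k64 s42_170_64 (.c k65 s42_170_65 (.c k66 s42_170_66 (.c k67
  s42_170_67 (.c k68 s42_170_68 (.c k69 s42_170_69 (.c k70 s42_170_70 (.c k71 s42_170_71 (.c k72
  s42_170_72 (.c k73 s42_170_73 (.c k74 s42_170_74 (.c k75 s42_170_75 (.c k76 s42_170_76 (.c k77
  s42_170_77 (.c k78 s42_170_78 (.c k79 s42_170_79 (.c k80 s42_170_80 (.c k81 s42_170_81 (.c k82
  s42_170_82 (.c k83 s42_170_83 (.c k84 s42_170_84 (.c k86 s42_170_86 (.c k87 s42_170_87 (.c k88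
  s42_170_88 (.c k89 s42_170_89 (.c k90 s42_170_90 (.c k91 s42_170_91 (.c k92 s42_170_92 (.c k93
  s42_170_93 (.c k94 s42_170_94 (.c k95 s42_170_95 (.c k96 s42_170_96 (.c k97 s42_170_97 (.c k98
  s42_170_98 (.c k99 s42_170_99 (.c k100 s42_170_100 (.c k101 s42_170_101 (.c k102 s42_170_102 (.c
  k103 s42_170_103 (.c k104 s42_170_104 (.c k105 s42_170_105 (.c k107 s42_170_107 (.c k108
  s42_170_108 (.c k109 s42_170_109 (.c k110 s42_170_110 (.c k111 s42_170_111 (.c k112 s42_170_112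
  (.c k113 s42_170_113 (.c k114 s42_170_114 (.c k115 s42_170_115 (.c k116 s42_170_116 (.c k117
  s42_170_117 (.c k118 s42_170_118 (.c k119 s42_170_119 (.c k120 s42_170_120 (.c k121 s42_170_121
  (.c k122 s42_170_122 (.c k123 s42_170_123 (.c k124 s42_170_124 (.c k125 s42_170_125 (.c k126
  s42_170_126 (.c k127 s42_170_127 (.c k128 s42_170_128 (.c k129 s42_170_129 (.c k130 s42_170_130
  (.c k131 s42_170_131 (.c k132 s42_170_132 (.c k133 s42_170_133 (.c k134 s42_170_134 (.c k135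
  s42_170_135 (.c k136 s42_170_136 (.c k137 s42_170_137 (.c k138 s42_170_138 (.c k139 s42_170_139
  (.c k140 s42_170_140 (.c k141 s42_170_141 (.c k142 s42_170_142 (.c k143 s42_170_143 (.c k144
  s42_170_144 (.c k145 s42_170_145 (.c k146 s42_170_146 (.c k147 s42_170_147 (.c k148 s42_170_148
  (.c k149 s42_170_149 (.c k150 s42_170_150 (.c k151 s42_170_151 (.c k152 s42_170_152 (.c k153
  s42_170_153 (.c k154 s42_170_154 (.c k155 s42_170_155 (.c k156 s42_170_156 (.c k157 s42_170_157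
  (.c k158 s42_170_158 (.c k159 s42_170_159 (.c k160 s42_170_160 (.c k161 s42_170_161 (.c k162
  s42_170_162 (.c k163 s42_170_163 (.c k164 s42_170_164 (.c k165 s42_170_165 (.c k166 s42_170_166
  (.c k167 s42_170_167 (.c k168 s42_170_168 (.c k169 s42_170_169 (.c k171 s42_170_171 (.c k172
  s42_170_172 (.c k173 s42_170_173 (.c k174 s42_170_174 (.c k175 s42_170_175 (.c k176 s42_170_176
  (.c k177 s42_170_177 (.c k178 s42_170_178 (.c k179 s42_170_179 (.c k180 s42_170_180 (.c k181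
  s42_170_181 (.c k182 s42_170_182 (.c k183 s42_170_183 (.c k184 s42_170_184 (.c k185 s42_170_185
  (.c k186 s42_170_186 (.c k187 s42_170_187 (.c k188 s42_170_188 (.c k189 s42_170_189 (.c k190
  s42_170_190 (.c k191 s42_170_191 (.c k192 s42_170_192 (.c k193 s42_170_193 (.c k194 s42_170_194
  (.c k195 s42_170_195 (.c k196 s42_170_196 (.c k197 s42_170_197 (.c k198 s42_170_198 (.c k199
  s42_170_199 (.c k200 s42_170_200 (.c k201 s42_170_201 (.c k202 s42_170_202 (.c k203 s42_170_203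
  (.c k204 s42_170_204 (.c k205 s42_170_205 (.c k206 s42_170_206 (.c k207 s42_170_207 (.c k208
  s42_170_208 (.c k209 s42_170_209 (.c k210 s42_170_210 (.c k211 s42_170_211 (.c k212 s42_170_212
  (.c k213 s42_170_213 (.c k214 s42_170_214 (.c k215 s42_170_215 (.c k216 s42_170_216 (.c k217
  s42_170_217 (.c k218 s42_170_218 (.c k219 s42_170_219 (.c k220 s42_170_220 (.c k221 s42_170_221
  (.c k222 s42_170_222 (.c k223 s42_170_223 (.c k224 s42_170_224 (.c k225 s42_170_225 (.c k226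
  s42_170_226 (.c k227 s42_170_227 (.c k228 s42_170_228 (.c k229 s42_170_229 (.c k230 s42_170_230
  (.c k231 s42_170_231 (.c k232 s42_170_232 (.c k233 s42_170_233 (.c k234 s42_170_234 (.c k235
  s42_170_235 (.c k236 s42_170_236 (.c k237 s42_170_237 (.c k238 s42_170_238 (.c k239 s42_170_239
  (.c k240 s42_170_240 (.c k241 s42_170_241 (.c k242 s42_170_242 (.c k243 s42_170_243 (.c k244
  s42_170_244 (.c k245 s42_170_245 (.c k246 s42_170_246 (.c k247 s42_170_247 (.c k248 s42_170_248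
  (.c k249 s42_170_249 (.c k250 s42_170_250 (.c k251 s42_170_251 (.c k252 s42_170_252 (.c k253
  s42_170_253 (.c k254 s42_170_254 (.c k255 s42_170_255
  .n))))))))))))))))))))))))))))))))))))))))))))))))))))))))))))))))))))))))))))))))
  ))))))))))))))))))))))))))))))))))))))))))))))))))))))))))))))))))))))))))))))))
  )))))))))))))))))))))))))))))))))))))))))))))))))))))))))))))))))))))))))))))))) ))))))))))))

/-- roots with certificates -/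
def certs : List (Cell TT 256 × Cell TT 256 × T TT 256) :=
  [(k26, k255, t26_255), (k27, k170, t27_170), (k42, k170, t42_170)]

theorem c26_255 : rootOK k26 k255 t26_255 = true := by decide +kernel

theorem c27_170 : rootOK k27 k170 t27_170 = true := by decide +kernel

theorem c42_170 : rootOK k42 k170 t42_170 = true := by decide +kernel

theorem ok : certsOK certs = true :=
  certsOK_cons c26_255 (certsOK_cons c27_170 (certsOK_cons c42_170 (certsOK_nil)))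

theorem sound (k : Nat) (hk : (bits certs).testBit k = true) : PI k :=
  certs_sound certs ok k hk

end Pool.Agent.TTT.B08
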