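import Pool.Agent.TTT.Sym

set_option autoImplicit false
set_option maxRecDepth 100000

namespace Pool.Agent.TTT.B09

def s42_255_1 : T TT 256 :=
  (.q k252 [(.s k84 k168 13 (.d k86 k87 k169 0 14))] (.c k84 (.q k4 [(.s k12 k8 1 (.s k86 k169 14
  (.s k166 k247 12 (.d k6 k9 k246 2 11)))), (.s k12 k8 1 (.s k6 k9 2 (.s k5 k7 0 (.s k165 k245 11
  (.s k169 k86 14 (.s k173 k161 1 (.d k15 k10 k94 2 12))))))), (.s k86 k169 14 (.s k166 k247 12 (.s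
  k246 k6 11 (.s k243 k249 2 (.s k81 k162 12 (.s k83 k163 11 (.d k89 k93 k92 1 2))))))), (.s k12 k8
  1 (.s k166 k247 12 (.s k172 k92 11 (.s k163 k169 2 (.d k243 k83 k89 11 14)))))] (.c k169 (.l (.s
  k12 k8 1 (.s k6 k9 2 (.s k166 k247 12 (.s k246 k86 11 (.d k243 k249 k89 2 14)))))) .n)) (.c k86
  (.f k84 k168 13 (.q k80 [(.s k240 k160 11 (.s k244 k248 1 (.s k164 k4 11 (.d k88 k92 k12 1 13)))),
  (.s k90 k95 2 (.s k240 k160 11 (.s k248 k244 1 (.s k11 k169 12 (.d k15 k7 k165 1 14))))), (.s k88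
  k92 1 (.s k90 k95 2 (.s k89 k91 0 (.s k240 k160 11 (.s k82 k161 12 (.d k81 k83 k93 0 1))))))] (.c
  k160 (.f k92 k88 1 (.l (.s k95 k90 2 (.s k94 k93 0 (.s k15 k173 12 (.s k5 k10 2 (.s k7 k11 1 (.s
  k4 k6 0 (.d k12 k8 k172 1 11))))))))) (.c k164 (.l (.s k90 k95 2 (.s k92 k88 1 (.s k172 k12 11 (.s
  k240 k160 11 (.s k248 k244 1 (.s k11 k169 12 (.d k15 k7 k165 1 14)))))))) (.c k172 (.l (.s k88 k92
  1 (.s k240 k160 11 (.s k164 k12 13 (.d k244 k248 k4 1 11))))) (.c k240 (.f k92 k88 1 (.l (.s k12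
  k172 11 (.s k6 k9 2 (.s k95 k90 2 (.s k94 k93 0 (.s k15 k173 12 (.s k5 k10 2 (.d k4 k8 k7 1
  0))))))))) .n)))))) (.c k87 (.q k4 [(.s k12 k8 1 (.s k86 k169 14 (.s k166 k247 12 (.d k6 k9 k246 2
  11)))), (.s k12 k8 1 (.s k84 k168 13 (.s k92 k172 11 (.s k88 k80 1 (.d k164 k244 k240 11 13))))),
  (.s k84 k168 13 (.s k86 k169 14 (.s k166 k247 12 (.s k6 k246 11 (.s k7 k5 0 (.d k244 k164 k165 11
  12))))))] .n) (.c k168 (.q k4 [(.s k12 k8 1 (.s k166 k247 12 (.s k169 k86 14 (.d k172 k163 k92 2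
  11)))), (.s k86 k169 14 (.s k84 k87 0 (.s k166 k247 12 (.s k6 k246 11 (.s k7 k5 0 (.d k244 k164
  k165 11 12)))))), (.s k12 k8 1 (.s k6 k9 2 (.s k86 k169 14 (.s k84 k87 0 (.s k244 k164 11 (.d k7
  k5 k165 0 12))))))] (.c k86 (.l (.s k12 k8 1 (.s k166 k247 12 (.s k172 k92 11 (.s k163 k169 2 (.d
  k243 k83 k89 11 14)))))) (.c k169 (.l (.s k12 k8 1 (.s k6 k9 2 (.s k166 k247 12 (.s k246 k86 11
  (.d k243 k249 k89 2 14)))))) .n))) (.c k169 (.q k4 [(.s k12 k8 1 (.s k6 k9 2 (.s k166 k247 12 (.s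
  k246 k86 11 (.d k243 k249 k89 2 14))))), (.s k12 k8 1 (.s k84 k168 13 (.s k164 k244 11 (.s k88
  k240 13 (.d k92 k80 k172 1 11))))), (.s k84 k168 13 (.s k86 k87 0 (.s k166 k247 12 (.s k6 k246 11
  (.s k7 k5 0 (.d k244 k164 k165 11 12))))))] .n) .n))))))

def s42_255_2 : T TT 256 :=
  (.q k86 [(.s k84 k87 0 (.d k252 k168 k169 13 14))] (.c k22 (.q k62 [(.s k84 k87 0 (.d k252 k168
  k169 13 14))] (.c k84 (.q k4 [(.s k12 k8 1 (.s k6 k9 2 (.d k166 k246 k247 11 12))), (.s k12 k8 1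
  (.s k166 k247 12 (.s k169 k252 14 (.s k163 k172 2 (.d k243 k83 k89 11 14))))), (.s k166 k247 12
  (.s k246 k6 11 (.s k252 k169 14 (.s k243 k249 2 (.s k81 k162 12 (.s k83 k163 11 (.d k89 k93 k92 1
  2))))))), (.s k12 k8 1 (.s k9 k6 2 (.s k169 k252 14 (.s k89 k249 11 (.s k81 k93 1 (.s k83 k92 2
  (.d k243 k163 k162 11 12)))))))] .n) (.c k87 (.q k4 [(.s k12 k8 1 (.s k6 k9 2 (.d k166 k246 k247
  11 12))), (.s k166 k247 12 (.s k6 k246 11 (.s k7 k5 0 (.s k244 k165 12 (.s k84 k164 11 (.d k252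
  k168 k169 13 14)))))), (.s k12 k8 1 (.s k6 k9 2 (.s k7 k5 0 (.s k244 k165 12 (.s k252 k169 14 (.d
  k84 k164 k168 11 13))))))] (.c k6 (.l (.s k12 k8 1 (.s k166 k247 12 (.s k169 k252 14 (.s k163 k172
  2 (.d k243 k83 k89 11 14)))))) .n)) (.c k168 (.q k4 [(.s k166 k247 12 (.s k6 k246 11 (.d k12 k8 k9
  1 2))), (.s k12 k8 1 (.s k6 k9 2 (.s k7 k5 0 (.s k84 k87 0 (.d k244 k164 k165 11 12))))), (.s k12
  k8 1 (.s k166 k247 12 (.s k169 k252 14 (.s k163 k172 2 (.d k243 k83 k89 11 14))))), (.s k84 k87 0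
  (.s k166 k247 12 (.s k6 k246 11 (.s k7 k5 0 (.d k244 k164 k165 11 12)))))] .n) (.c k169 (.q k4
  [(.s k12 k8 1 (.s k166 k247 12 (.d k6 k9 k246 2 11))), (.s k84 k87 0 (.s k244 k164 11 (.s k165 k7
  12 (.s k245 k5 11 (.d k247 k246 k166 0 12))))), (.s k12 k8 1 (.s k6 k9 2 (.s k7 k5 0 (.s k84 k87 0
  (.d k244 k164 k165 11 12)))))] .n) (.c k252 (.f k84 k87 0 (.q k195 [(.s k67 k131 7 (.s k105 k124 6
  (.d k65 k125 k130 5 8))), (.s k67 k131 7 (.s k124 k105 6 (.s k64 k104 5 (.s k106 k127 6 (.s k66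
  k126 5 (.d k192 k128 k129 7 8)))))), (.s k65 k130 8 (.s k105 k125 5 (.s k60 k150 14 (.s k20 k40 5
  (.s k61 k63 0 (.s k149 k193 13 (.d k212 k148 k23 7 8)))))))] (.c k105 (.l (.s k65 k130 8 (.s k67
  k131 7 (.s k66 k64 0 (.s k106 k126 5 (.s k194 k150 13 (.d k192 k129 k193 8 0))))))) (.c k253 (.q
  k254 [(.s k67 k131 7 (.s k105 k124 6 (.d k65 k125 k130 5 8))), (.s k65 k130 8 (.s k67 k131 7 (.s
  k66 k64 0 (.d k126 k106 k190 5 7)))), (.s k65 k130 8 (.s k125 k105 5 (.s k126 k190 7 (.s k127 k124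
  0 (.d k106 k66 k64 5 6)))))] (.c k65 (.l (.s k67 k131 7 (.s k105 k124 6 (.s k126 k190 7 (.s k106
  k66 5 (.d k150 k194 k60 13 14)))))) (.c k130 (.l (.s k67 k131 7 (.s k105 k124 6 (.s k65 k125 5 (.s
  k66 k64 0 (.d k126 k190 k106 7 5)))))) .n))) (.c k254 (.q k253 [(.s k67 k131 7 (.s k105 k124 6 (.d
  k65 k125 k130 5 8))), (.s k1 k169 13 (.s k65 k130 8 (.s k67 k131 7 (.s k66 k64 0 (.d k129 k193
  k192 7 8))))), (.s k131 k67 7 (.s k169 k1 13 (.s k150 k188 6 (.s k20 k215 8 (.d k60 k40 k105 5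
  14)))))] (.c k67 (.l (.s k1 k169 13 (.s k65 k130 8 (.s k105 k125 5 (.s k60 k150 14 (.s k61 k63 0
  (.d k193 k129 k149 7 13))))))) (.c k131 (.l (.s k1 k169 13 (.s k65 k130 8 (.s k105 k125 5 (.s k67
  k124 6 (.s k66 k64 0 (.d k129 k193 k192 7 8))))))) (.c k188 (.l (.s k65 k130 8 (.s k67 k131 7 (.d
  k105 k125 k124 5 6)))) .n)))) .n))))) .n)))))) (.c k62 (.q k22 [(.s k84 k87 0 (.d k252 k168 k169
  13 14)), (.s k60 k41 6 (.s k150 k214 7 (.d k20 k40 k215 5 8)))] .n) (.c k84 (.f k252 k169 14 (.q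
  k150 [(.s k22 k214 7 (.s k60 k41 6 (.d k20 k40 k215 5 8))), (.s k20 k215 8 (.s k22 k214 7 (.d k60
  k40 k41 5 6))), (.s k22 k214 7 (.s k60 k41 6 (.s k124 k188 7 (.d k105 k67 k195 6 14))))] (.c k22
  (.q k62 [(.s k20 k215 8 (.s k60 k40 5 (.s k124 k188 7 (.d k105 k195 k67 14 6)))), (.s k106 k194 13
  (.s k64 k127 6 (.s k192 k128 7 (.d k66 k126 k129 5 8))))] .n) (.c k40 (.l (.s k20 k215 8 (.s k22
  k214 7 (.s k23 k21 0 (.s k43 k63 5 (.s k60 k41 6 (.s k124 k188 7 (.d k105 k195 k67 14 6))))))))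
  (.c k41 (.l (.s k20 k215 8 (.s k22 k214 7 (.s k23 k21 0 (.s k43 k63 5 (.s k60 k40 5 (.s k124 k188
  7 (.d k105 k195 k67 14 6)))))))) (.c k60 (.l (.s k20 k215 8 (.s k22 k214 7 (.s k23 k21 0 (.s k63
  k43 5 (.s k126 k189 8 (.s k106 k66 5 (.d k149 k212 k192 8 14)))))))) (.c k62 (.l (.s k22 k214 7
  (.s k20 k215 8 (.d k60 k40 k41 5 6)))) (.c k214 (.l (.s k20 k215 8 (.s k60 k40 5 (.s k124 k188 7
  (.d k105 k195 k67 14 6))))) .n)))))))) (.c k87 (.q k22 [(.s k60 k41 6 (.s k150 k214 7 (.d k20 k40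
  k215 5 8))), (.s k150 k214 7 (.s k169 k252 14 (.s k131 k188 6 (.s k195 k67 7 (.d k60 k41 k105 6
  14))))), (.s k150 k214 7 (.s k20 k215 8 (.s k23 k21 0 (.s k212 k149 8 (.s k84 k148 7 (.d k252 k168
  k169 13 14)))))), (.s k60 k41 6 (.s k40 k20 5 (.s k252 k169 14 (.s k168 k84 13 (.s k104 k232 7 (.s
  k148 k192 13 (.d k188 k128 k124 5 7)))))))] .n) (.c k168 (.f k87 k84 0 (.q k150 [(.s k22 k214 7
  (.s k60 k41 6 (.d k20 k40 k215 5 8))), (.s k215 k20 8 (.s k23 k151 7 (.s k212 k149 8 (.d k214 k22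
  k213 7 0)))), (.s k22 k214 7 (.s k60 k41 6 (.s k169 k252 14 (.s k131 k188 6 (.d k195 k67 k105 7
  14)))))] (.c k22 (.q k62 [(.s k106 k194 13 (.s k66 k126 5 (.s k192 k129 8 (.d k64 k127 k128 6
  7)))), (.s k20 k215 8 (.s k60 k40 5 (.s k169 k252 14 (.s k195 k105 14 (.d k131 k188 k67 6 7)))))]
  .n) (.c k62 (.l (.s k22 k214 7 (.s k20 k215 8 (.d k60 k40 k41 5 6)))) (.c k214 (.l (.s k20 k215 8
  (.s k60 k40 5 (.s k169 k252 14 (.s k131 k188 6 (.d k195 k67 k105 7 14)))))) .n))))) (.c k169 (.q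
  k22 [(.s k60 k41 6 (.s k150 k214 7 (.d k20 k40 k215 5 8))), (.s k84 k87 0 (.s k150 k214 7 (.s k20
  k215 8 (.s k23 k21 0 (.d k212 k148 k149 7 8))))), (.s k60 k41 6 (.s k40 k20 5 (.s k84 k87 0 (.s
  k168 k252 13 (.s k104 k232 7 (.s k64 k124 5 (.d k192 k128 k148 7 13)))))))] (.c k20 (.l (.s k60
  k41 6 (.s k84 k87 0 (.s k150 k214 7 (.s k105 k195 14 (.s k124 k67 6 (.d k252 k188 k168 7 13)))))))
  .n)) (.c k252 (.f k87 k84 0 (.q k150 [(.s k215 k20 8 (.s k23 k151 7 (.s k212 k149 8 (.d k214 k22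
  k213 7 0)))), (.s k22 k214 7 (.s k60 k41 6 (.s k195 k105 14 (.s k65 k130 8 (.s k67 k131 7 (.s k127
  k107 5 (.d k64 k66 k106 0 6)))))))] (.c k22 (.q k62 [(.s k106 k194 13 (.s k64 k127 6 (.s k192 k128
  7 (.d k66 k126 k129 5 8)))), (.s k20 k215 8 (.s k60 k40 5 (.s k63 k61 0 (.s k195 k105 14 (.s k67
  k131 7 (.d k107 k127 k151 5 13))))))] (.c k63 (.l (.s k106 k194 13 (.s k127 k64 6 (.s k67 k107 5
  (.s k124 k105 6 (.d k126 k66 k125 5 0)))))) (.c k127 (.l (.s k106 k194 13 (.s k215 k20 8 (.s k23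
  k151 7 (.s k63 k43 5 (.d k149 k212 k192 8 14)))))) (.c k253 (.q k254 [(.s k106 k194 13 (.d k126
  k66 k190 5 7)), (.s k20 k215 8 (.s k60 k40 5 (.s k190 k126 7 (.s k195 k105 14 (.d k130 k170 k65 5
  8))))), (.s k106 k194 13 (.s k127 k64 6 (.s k67 k107 5 (.s k195 k131 7 (.d k105 k124 k60 6
  14)))))] (.c k130 (.l (.s k126 k190 7 (.d k106 k66 k194 5 13))) .n)) (.c k254 (.q k253 [(.s k20
  k215 8 (.s k60 k40 5 (.s k169 k1 13 (.s k131 k188 6 (.d k195 k67 k105 7 14))))), (.s k106 k194 13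
  (.s k64 k127 6 (.s k66 k126 5 (.d k192 k128 k129 7 8))))] .n) .n))))) (.c k62 (.l (.s k22 k214 7
  (.s k20 k215 8 (.d k60 k40 k41 5 6)))) (.c k214 (.l (.s k20 k215 8 (.s k60 k40 5 (.s k195 k105 14
  (.s k65 k130 8 (.s k67 k131 7 (.s k127 k107 5 (.d k64 k66 k106 0 6)))))))) (.c k253 (.q k254 [(.s
  k215 k20 8 (.s k23 k151 7 (.s k212 k149 8 (.d k214 k22 k213 7 0)))), (.s k22 k214 7 (.s k60 k41 6
  (.s k195 k105 14 (.s k65 k130 8 (.s k67 k131 7 (.s k127 k107 5 (.d k64 k66 k106 0 6)))))))] (.c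
  k22 (.q k62 [(.s k106 k194 13 (.d k126 k66 k190 5 7)), (.s k20 k215 8 (.s k60 k40 5 (.s k190 k126
  7 (.s k195 k105 14 (.d k130 k170 k65 5 8))))), (.s k106 k194 13 (.s k127 k64 6 (.s k67 k107 5 (.s
  k195 k131 7 (.d k105 k124 k60 6 14)))))] (.c k130 (.l (.s k126 k190 7 (.d k106 k66 k194 5 13)))
  .n)) (.c k62 (.l (.s k22 k214 7 (.s k20 k215 8 (.d k60 k40 k41 5 6)))) (.c k214 (.l (.s k20 k215 8
  (.s k60 k40 5 (.s k195 k105 14 (.s k65 k130 8 (.s k67 k131 7 (.s k127 k107 5 (.d k64 k66 k106 0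
  6)))))))) .n)))) (.c k254 (.q k253 [(.s k215 k20 8 (.s k23 k151 7 (.s k212 k149 8 (.d k214 k22
  k213 7 0)))), (.s k22 k214 7 (.s k60 k41 6 (.s k169 k1 13 (.s k131 k188 6 (.d k195 k67 k105 7
  14)))))] (.c k22 (.q k62 [(.s k20 k215 8 (.s k60 k40 5 (.s k169 k1 13 (.s k131 k188 6 (.d k195 k67
  k105 7 14))))), (.s k106 k194 13 (.s k64 k127 6 (.s k66 k126 5 (.d k192 k128 k129 7 8))))] .n) (.c
  k62 (.l (.s k22 k214 7 (.s k20 k215 8 (.d k60 k40 k41 5 6)))) (.c k214 (.l (.s k20 k215 8 (.s k60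
  k40 5 (.s k169 k1 13 (.s k131 k188 6 (.d k195 k67 k105 7 14)))))) .n)))) .n))))))) .n))))))))

def s42_255_4 : T TT 256 :=
  (.q k5 [(.s k1 k2 0 (.s k13 k9 1 (.s k253 k169 13 (.s k93 k173 11 (.s k89 k81 1 (.d k165 k245 k241
  11 13)))))), (.s k15 k10 2 (.s k7 k11 1 (.s k165 k245 11 (.s k86 k244 12 (.s k84 k87 0 (.d k252
  k168 k169 13 14)))))), (.s k1 k2 0 (.s k15 k10 2 (.s k11 k7 1 (.s k169 k253 13 (.s k90 k248 12 (.s
  k80 k95 2 (.d k240 k160 k165 11 14)))))))] (.c k165 (.l (.s k1 k2 0 (.s k9 k13 1 (.s k12 k6 2 (.s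
  k169 k253 13 (.s k89 k249 11 (.s k243 k166 14 (.d k81 k93 k162 1 12)))))))) (.c k169 (.l (.s k1 k2
  0 (.s k13 k9 1 (.s k15 k10 2 (.s k165 k245 11 (.s k240 k90 14 (.s k161 k82 12 (.d k241 k89 k81 13
  11)))))))) .n)))

def s42_255_5 : T TT 256 :=
  (.q k17 [(.s k1 k2 0 (.s k33 k49 3 (.s k18 k48 4 (.s k19 k16 0 (.d k51 k35 k34 3 4))))), (.s k51
  k34 4 (.s k19 k35 3 (.s k153 k221 9 (.s k86 k220 10 (.s k84 k87 0 (.d k252 k168 k169 13 14)))))),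
  (.s k1 k2 0 (.s k49 k33 3 (.s k153 k221 9 (.s k101 k205 13 (.s k117 k69 3 (.d k253 k185 k169 9
  13))))))] (.c k33 (.l (.s k1 k2 0 (.s k51 k34 4 (.s k35 k19 3 (.s k153 k221 9 (.s k169 k253 13 (.d
  k102 k204 k236 14 10))))))) .n))

def s42_255_6 : T TT 256 :=
  (.q k17 [(.s k2 k1 0 (.s k34 k51 4 (.s k18 k50 3 (.s k16 k19 0 (.d k48 k32 k33 3 4))))), (.s k1 k2
  0 (.s k49 k33 3 (.s k153 k221 9 (.s k101 k205 13 (.s k117 k69 3 (.d k253 k185 k169 9 13)))))), (.s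
  k51 k34 4 (.s k19 k35 3 (.s k153 k221 9 (.s k86 k220 10 (.s k84 k87 0 (.d k252 k168 k169 13
  14))))))] (.c k33 (.l (.s k1 k2 0 (.s k51 k34 4 (.s k35 k19 3 (.s k153 k221 9 (.s k169 k253 13 (.d
  k102 k204 k236 14 10))))))) .n))

def s42_255_7 : T TT 256 :=
  (.q k12 [(.s k1 k2 0 (.s k8 k4 1 (.s k9 k6 2 (.s k5 k13 1 (.d k10 k11 k15 0 2))))), (.s k4 k8 1
  (.s k6 k9 2 (.s k166 k247 12 (.s k86 k246 11 (.s k252 k169 14 (.d k84 k87 k168 0 13)))))), (.s k1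
  k2 0 (.s k4 k8 1 (.s k166 k247 12 (.s k169 k253 13 (.s k163 k172 2 (.d k243 k83 k89 11 14))))))]
  (.c k4 (.l (.s k1 k2 0 (.s k9 k6 2 (.s k5 k13 1 (.s k169 k253 13 (.s k89 k249 11 (.s k243 k166 14
  (.d k81 k93 k162 1 12)))))))) (.c k8 (.l (.s k1 k2 0 (.s k9 k6 2 (.s k169 k253 13 (.s k89 k249 11
  (.s k81 k93 1 (.d k243 k162 k166 12 14))))))) .n)))

def s42_255_8 : T TT 256 :=
  (.q k48 [(.s k1 k2 0 (.s k32 k16 3 (.s k33 k18 4 (.s k17 k49 3 (.d k34 k35 k51 0 4))))), (.s k1 k2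
  0 (.s k16 k32 3 (.s k154 k223 10 (.s k169 k253 13 (.s k139 k184 4 (.d k207 k71 k101 9 14)))))),
  (.s k16 k32 3 (.s k18 k33 4 (.s k154 k223 10 (.s k86 k222 9 (.s k84 k87 0 (.d k252 k168 k169 13
  14)))))), (.s k1 k2 0 (.s k33 k18 4 (.s k169 k253 13 (.s k101 k237 9 (.s k69 k117 3 (.d k207 k138
  k154 10 14))))))] (.c k25 (.q k59 [(.s k1 k2 0 (.s k32 k16 3 (.s k33 k18 4 (.s k34 k35 0 (.d k17
  k49 k51 3 4))))), (.s k1 k2 0 (.s k16 k32 3 (.s k154 k223 10 (.s k169 k253 13 (.s k139 k184 4 (.d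
  k207 k71 k101 9 14)))))), (.s k16 k32 3 (.s k18 k33 4 (.s k154 k223 10 (.s k86 k222 9 (.s k84 k87
  0 (.d k252 k168 k169 13 14)))))), (.s k1 k2 0 (.s k33 k18 4 (.s k169 k253 13 (.s k101 k237 9 (.s
  k69 k117 3 (.d k207 k138 k154 10 14))))))] .n) (.c k59 (.q k25 [(.s k1 k2 0 (.s k32 k16 3 (.s k33
  k18 4 (.s k17 k49 3 (.d k34 k35 k51 0 4))))), (.s k1 k2 0 (.s k16 k32 3 (.s k154 k223 10 (.s k169
  k253 13 (.s k139 k184 4 (.d k207 k71 k101 9 14)))))), (.s k16 k32 3 (.s k18 k33 4 (.s k154 k223 10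
  (.s k86 k222 9 (.s k84 k87 0 (.d k252 k168 k169 13 14)))))), (.s k1 k2 0 (.s k33 k18 4 (.s k169
  k253 13 (.s k101 k237 9 (.s k69 k117 3 (.d k207 k138 k154 10 14))))))] .n) .n)))

def s42_255_9 : T TT 256 :=
  (.q k17 [(.s k1 k2 0 (.s k33 k49 3 (.s k18 k48 4 (.s k19 k16 0 (.d k51 k35 k34 3 4))))), (.s k51
  k34 4 (.s k19 k35 3 (.s k153 k221 9 (.s k86 k220 10 (.s k84 k87 0 (.d k252 k168 k169 13 14)))))),
  (.s k1 k2 0 (.s k49 k33 3 (.s k153 k221 9 (.s k101 k205 13 (.s k117 k69 3 (.d k253 k185 k169 9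
  13))))))] (.c k33 (.l (.s k1 k2 0 (.s k51 k34 4 (.s k35 k19 3 (.s k153 k221 9 (.s k169 k253 13 (.d
  k102 k204 k236 14 10))))))) .n))

def s42_255_10 : T TT 256 :=
  (.q k65 [(.s k2 k1 0 (.s k130 k195 8 (.s k66 k194 7 (.s k64 k67 0 (.d k192 k128 k129 7 8))))), (.s
  k1 k2 0 (.s k105 k125 5 (.s k169 k253 13 (.s k41 k233 7 (.s k61 k21 5 (.d k193 k129 k149 7
  13)))))), (.s k105 k125 5 (.s k195 k130 8 (.s k67 k131 7 (.s k86 k124 6 (.s k84 k87 0 (.d k252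
  k168 k169 13 14))))))] (.c k26 (.q k58 [(.s k2 k1 0 (.s k130 k195 8 (.s k66 k194 7 (.s k64 k67 0
  (.d k192 k128 k129 7 8))))), (.s k1 k2 0 (.s k105 k125 5 (.s k169 k253 13 (.s k41 k233 7 (.s k61
  k21 5 (.d k193 k129 k149 7 13)))))), (.s k105 k125 5 (.s k195 k130 8 (.s k67 k131 7 (.s k86 k124 6
  (.s k84 k87 0 (.d k252 k168 k169 13 14))))))] (.c k129 (.l (.s k1 k2 0 (.s k105 k125 5 (.s k169
  k253 13 (.s k41 k233 7 (.s k195 k130 8 (.d k60 k22 k150 6 14))))))) .n)) (.c k58 (.q k26 [(.s k2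
  k1 0 (.s k130 k195 8 (.s k66 k194 7 (.s k64 k67 0 (.d k192 k128 k129 7 8))))), (.s k1 k2 0 (.s
  k105 k125 5 (.s k169 k253 13 (.s k41 k233 7 (.s k61 k21 5 (.d k193 k129 k149 7 13)))))), (.s k105
  k125 5 (.s k195 k130 8 (.s k67 k131 7 (.s k86 k124 6 (.s k84 k87 0 (.d k252 k168 k169 13 14))))))]
  (.c k129 (.l (.s k1 k2 0 (.s k105 k125 5 (.s k169 k253 13 (.s k41 k233 7 (.s k195 k130 8 (.d k60
  k22 k150 6 14))))))) .n)) (.c k129 (.l (.s k1 k2 0 (.s k105 k125 5 (.s k169 k253 13 (.s k41 k233 7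
  (.s k195 k130 8 (.d k60 k22 k150 6 14))))))) .n))))

def s42_255_11 : T TT 256 :=
  (.q k12 [(.s k2 k1 0 (.s k4 k8 1 (.s k6 k9 2 (.s k10 k14 1 (.d k5 k7 k15 0 2))))), (.s k1 k2 0 (.s
  k169 k253 13 (.s k252 k86 14 (.s k172 k92 11 (.s k166 k163 2 (.d k4 k8 k247 1 12)))))), (.s k4 k8
  1 (.s k166 k247 12 (.s k243 k89 14 (.s k163 k83 11 (.s k169 k172 2 (.s k86 k252 14 (.d k6 k9 k246
  2 11))))))), (.s k1 k2 0 (.s k9 k6 2 (.s k169 k253 13 (.s k89 k249 11 (.s k81 k93 1 (.d k243 k162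
  k166 12 14))))))] .n)

def s42_255_12 : T TT 256 :=
  (.q k105 [(.s k1 k2 0 (.s k125 k65 5 (.s k253 k169 13 (.s k61 k189 7 (.s k21 k41 5 (.d k149 k213
  k193 7 13)))))), (.s k65 k125 5 (.s k195 k130 8 (.s k67 k131 7 (.s k86 k124 6 (.s k84 k87 0 (.d
  k252 k168 k169 13 14)))))), (.s k1 k2 0 (.s k169 k253 13 (.s k233 k41 7 (.s k252 k86 14 (.s k195
  k214 6 (.s k131 k67 7 (.d k150 k188 k60 6 14)))))))] (.c k93 (.q k174 [(.s k1 k2 0 (.s k125 k65 5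
  (.s k253 k169 13 (.s k61 k189 7 (.s k21 k41 5 (.d k149 k213 k193 7 13)))))), (.s k65 k125 5 (.s
  k195 k130 8 (.s k67 k131 7 (.s k86 k124 6 (.s k84 k87 0 (.d k252 k168 k169 13 14)))))), (.s k1 k2
  0 (.s k169 k253 13 (.s k233 k41 7 (.s k252 k86 14 (.s k195 k214 6 (.s k131 k67 7 (.d k150 k188 k60
  6 14)))))))] (.c k169 (.l (.s k1 k2 0 (.s k65 k125 5 (.s k129 k193 7 (.s k66 k192 8 (.s k67 k64 0
  (.d k195 k131 k130 7 8))))))) .n)) (.c k169 (.l (.s k1 k2 0 (.s k65 k125 5 (.s k129 k193 7 (.s k66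
  k192 8 (.s k67 k64 0 (.d k195 k131 k130 7 8))))))) (.c k174 (.q k93 [(.s k89 k81 1 (.s k125 k65 5
  (.s k77 k109 3 (.s k113 k101 5 (.d k121 k117 k73 1 3))))), (.s k1 k2 0 (.s k81 k89 1 (.s k161 k241
  11 (.s k82 k240 12 (.s k83 k80 0 (.d k243 k163 k162 11 12)))))), (.s k1 k2 0 (.s k65 k125 5 (.s
  k129 k193 7 (.s k66 k192 8 (.s k67 k64 0 (.d k195 k131 k130 7 8))))))] .n) .n))))

def s42_255_13 : T TT 256 :=
  (.q k12 [(.s k2 k1 0 (.s k4 k8 1 (.s k6 k9 2 (.s k5 k7 0 (.d k10 k14 k15 1 2))))), (.s k1 k2 0 (.s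
  k9 k6 2 (.s k169 k253 13 (.s k89 k249 11 (.s k243 k166 14 (.d k81 k93 k162 1 12)))))), (.s k1 k2 0
  (.s k4 k8 1 (.s k166 k247 12 (.s k169 k253 13 (.s k163 k172 2 (.d k243 k83 k89 11 14))))))] (.c k1
  (.l (.s k4 k8 1 (.s k6 k9 2 (.s k5 k7 0 (.s k166 k247 12 (.s k86 k246 11 (.s k252 k169 14 (.d k84
  k87 k168 0 13)))))))) (.c k2 (.l (.s k4 k8 1 (.s k6 k9 2 (.s k166 k247 12 (.s k86 k246 11 (.s k84
  k87 0 (.d k252 k168 k169 13 14))))))) .n)))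

def s42_255_14 : T TT 256 :=
  (.q k12 [(.s k1 k2 0 (.s k8 k4 1 (.s k9 k6 2 (.s k10 k11 0 (.d k5 k13 k15 1 2))))), (.s k4 k8 1
  (.s k166 k247 12 (.s k243 k89 14 (.s k163 k83 11 (.s k169 k172 2 (.d k1 k2 k253 0 13)))))), (.s k4
  k8 1 (.s k6 k9 2 (.s k166 k247 12 (.s k86 k246 11 (.s k84 k87 0 (.d k252 k168 k169 13 14)))))),
  (.s k1 k2 0 (.s k169 k253 13 (.s k252 k86 14 (.s k172 k92 11 (.s k166 k163 2 (.s k89 k243 14 (.d
  k9 k6 k249 2 11)))))))] .n)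

def s42_255_15 : T TT 256 :=
  (.q k65 [(.s k2 k1 0 (.s k130 k195 8 (.s k66 k194 7 (.s k64 k67 0 (.d k192 k128 k129 7 8))))), (.s
  k1 k2 0 (.s k105 k125 5 (.s k169 k253 13 (.s k41 k233 7 (.s k61 k21 5 (.d k193 k129 k149 7
  13)))))), (.s k105 k125 5 (.s k195 k130 8 (.s k67 k131 7 (.s k86 k124 6 (.s k84 k87 0 (.d k252
  k168 k169 13 14))))))] (.c k95 (.q k175 [(.s k2 k1 0 (.s k130 k195 8 (.s k66 k194 7 (.s k64 k67 0
  (.d k192 k128 k129 7 8))))), (.s k1 k2 0 (.s k105 k125 5 (.s k169 k253 13 (.s k41 k233 7 (.s k61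
  k21 5 (.d k193 k129 k149 7 13)))))), (.s k105 k125 5 (.s k195 k130 8 (.s k67 k131 7 (.s k86 k124 6
  (.s k84 k87 0 (.d k252 k168 k169 13 14))))))] (.c k129 (.l (.s k1 k2 0 (.s k105 k125 5 (.s k169
  k253 13 (.s k41 k233 7 (.s k195 k130 8 (.d k60 k22 k150 6 14))))))) .n)) (.c k129 (.l (.s k1 k2 0
  (.s k105 k125 5 (.s k169 k253 13 (.s k41 k233 7 (.s k195 k130 8 (.d k60 k22 k150 6 14))))))) (.c
  k175 (.q k95 [(.s k2 k1 0 (.s k130 k195 8 (.s k66 k194 7 (.s k64 k67 0 (.d k192 k128 k129 7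
  8))))), (.s k1 k2 0 (.s k105 k125 5 (.s k169 k253 13 (.s k41 k233 7 (.s k61 k21 5 (.d k193 k129
  k149 7 13)))))), (.s k105 k125 5 (.s k195 k130 8 (.s k67 k131 7 (.s k86 k124 6 (.s k84 k87 0 (.d
  k252 k168 k169 13 14))))))] (.c k129 (.l (.s k1 k2 0 (.s k105 k125 5 (.s k169 k253 13 (.s k41 k233
  7 (.s k195 k130 8 (.d k60 k22 k150 6 14))))))) .n)) .n))))

def s42_255_16 : T TT 256 :=
  (.q k5 [(.s k2 k1 0 (.s k10 k15 2 (.s k6 k14 1 (.s k4 k7 0 (.d k12 k8 k9 1 2))))), (.s k1 k2 0 (.s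
  k13 k9 1 (.s k165 k245 11 (.s k89 k241 13 (.s k93 k81 1 (.d k253 k173 k169 11 13)))))), (.s k15
  k10 2 (.s k7 k11 1 (.s k165 k245 11 (.s k86 k244 12 (.s k84 k87 0 (.d k252 k168 k169 13 14))))))]
  (.c k9 (.l (.s k1 k2 0 (.s k15 k10 2 (.s k11 k7 1 (.s k165 k245 11 (.s k169 k253 13 (.d k90 k240
  k248 14 12))))))) .n))

def s42_255_17 : T TT 256 :=
  (.q k5 [(.s k1 k2 0 (.s k9 k13 1 (.s k6 k12 2 (.s k7 k4 0 (.d k15 k11 k10 1 2))))), (.s k15 k10 2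
  (.s k7 k11 1 (.s k165 k245 11 (.s k86 k244 12 (.s k84 k87 0 (.d k252 k168 k169 13 14)))))), (.s k1
  k2 0 (.s k13 k9 1 (.s k165 k245 11 (.s k89 k241 13 (.s k93 k81 1 (.d k253 k173 k169 11 13))))))]
  (.c k9 (.l (.s k1 k2 0 (.s k15 k10 2 (.s k11 k7 1 (.s k165 k245 11 (.s k169 k253 13 (.d k90 k240
  k248 14 12))))))) .n))

def s42_255_18 : T TT 256 :=
  (.q k5 [(.s k2 k1 0 (.s k10 k15 2 (.s k6 k14 1 (.s k4 k7 0 (.d k12 k8 k9 1 2))))), (.s k1 k2 0 (.s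
  k13 k9 1 (.s k165 k245 11 (.s k89 k241 13 (.s k93 k81 1 (.d k253 k173 k169 11 13)))))), (.s k15
  k10 2 (.s k7 k11 1 (.s k165 k245 11 (.s k86 k244 12 (.s k84 k87 0 (.d k252 k168 k169 13 14))))))]
  (.c k9 (.l (.s k1 k2 0 (.s k15 k10 2 (.s k11 k7 1 (.s k165 k245 11 (.s k169 k253 13 (.d k90 k240
  k248 14 12))))))) .n))

def s42_255_19 : T TT 256 :=
  (.q k5 [(.s k2 k1 0 (.s k10 k15 2 (.s k6 k14 1 (.s k4 k7 0 (.d k12 k8 k9 1 2))))), (.s k1 k2 0 (.s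
  k13 k9 1 (.s k165 k245 11 (.s k89 k241 13 (.s k93 k81 1 (.d k253 k173 k169 11 13)))))), (.s k15
  k10 2 (.s k7 k11 1 (.s k165 k245 11 (.s k86 k244 12 (.s k84 k87 0 (.d k252 k168 k169 13 14))))))]
  (.c k9 (.l (.s k1 k2 0 (.s k15 k10 2 (.s k11 k7 1 (.s k165 k245 11 (.s k169 k253 13 (.d k90 k240
  k248 14 12))))))) .n))

def s42_255_20 : T TT 256 :=
  (.q k5 [(.s k2 k1 0 (.s k10 k15 2 (.s k6 k14 1 (.s k4 k7 0 (.d k12 k8 k9 1 2))))), (.s k1 k2 0 (.s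
  k13 k9 1 (.s k165 k245 11 (.s k89 k241 13 (.s k93 k81 1 (.d k253 k173 k169 11 13)))))), (.s k15
  k10 2 (.s k7 k11 1 (.s k165 k245 11 (.s k86 k244 12 (.s k84 k87 0 (.d k252 k168 k169 13 14))))))]
  (.c k9 (.l (.s k1 k2 0 (.s k15 k10 2 (.s k11 k7 1 (.s k165 k245 11 (.s k169 k253 13 (.d k90 k240
  k248 14 12))))))) .n))

def s42_255_21 : T TT 256 :=
  (.q k5 [(.s k1 k2 0 (.s k9 k13 1 (.s k10 k15 2 (.s k8 k11 0 (.d k12 k4 k6 1 2))))), (.s k15 k10 2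
  (.s k7 k11 1 (.s k165 k245 11 (.s k86 k244 12 (.s k84 k87 0 (.d k252 k168 k169 13 14)))))), (.s k1
  k2 0 (.s k13 k9 1 (.s k165 k245 11 (.s k89 k241 13 (.s k93 k81 1 (.d k253 k173 k169 11 13))))))]
  (.c k9 (.l (.s k1 k2 0 (.s k15 k10 2 (.s k11 k7 1 (.s k165 k245 11 (.s k169 k253 13 (.d k90 k240
  k248 14 12))))))) .n))

def s42_255_22 : T TT 256 :=
  (.f k2 k1 0 (.q k207 [(.s k138 k69 10 (.s k70 k206 9 (.s k139 k71 9 (.d k137 k136 k204 0 10)))),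
  (.s k69 k138 10 (.s k101 k117 3 (.s k48 k154 14 (.s k16 k32 3 (.s k18 k33 4 (.s k17 k19 0 (.d k34
  k50 k51 3 4)))))))] (.c k69 (.q k169 [(.s k139 k71 9 (.s k154 k184 4 (.s k16 k223 10 (.d k48 k32
  k101 3 14)))), (.s k71 k139 9 (.s k86 k252 14 (.s k87 k84 0 (.s k116 k101 4 (.s k119 k103 3 (.s
  k102 k68 4 (.d k118 k117 k70 0 3))))))), (.s k252 k86 14 (.s k168 k84 13 (.s k170 k171 0 (.s k237
  k222 4 (.s k101 k33 9 (.s k32 k239 10 (.d k48 k154 k16 14 3)))))))] (.c k101 (.l (.s k86 k252 14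
  (.s k139 k71 9 (.s k154 k184 4 (.s k16 k223 10 (.s k18 k222 9 (.d k48 k32 k33 3 4))))))) (.c k137
  (.q k205 [(.s k139 k71 9 (.s k154 k184 4 (.s k16 k223 10 (.d k48 k32 k101 3 14)))), (.s k204 k206
  0 (.s k252 k86 14 (.s k236 k220 3 (.s k102 k35 10 (.d k68 k119 k136 4 9)))))] (.c k68 (.l (.s k71
  k139 9 (.s k86 k252 14 (.s k101 k116 4 (.s k33 k237 9 (.d k48 k18 k154 4 14)))))) .n)) (.c k205
  (.q k137 [(.s k139 k71 9 (.s k136 k138 0 (.d k204 k68 k70 9 10))), (.s k71 k139 9 (.s k86 k252 14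
  (.s k101 k116 4 (.s k33 k237 9 (.d k48 k18 k154 4 14))))), (.s k153 k185 3 (.s k17 k221 9 (.s k51
  k34 4 (.d k204 k70 k102 10 14))))] .n) .n)))) (.c k138 (.q k15 [(.s k10 k5 2 (.s k6 k14 1 (.s k9
  k12 2 (.d k11 k8 k7 0 1)))), (.s k7 k11 1 (.s k71 k139 9 (.s k79 k143 7 (.s k75 k67 1 (.d k135
  k199 k195 7 9))))), (.s k5 k10 2 (.s k143 k79 7 (.s k165 k245 11 (.s k154 k176 6 (.s k16 k223 10
  (.d k48 k32 k101 3 14))))))] .n) .n))))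

def s42_255_23 : T TT 256 :=
  (.q k5 [(.s k2 k1 0 (.s k10 k15 2 (.s k6 k14 1 (.s k12 k9 2 (.d k4 k7 k8 0 1))))), (.s k1 k2 0 (.s
  k13 k9 1 (.s k165 k245 11 (.s k89 k241 13 (.s k93 k81 1 (.d k253 k173 k169 11 13)))))), (.s k15
  k10 2 (.s k7 k11 1 (.s k165 k245 11 (.s k86 k244 12 (.s k84 k87 0 (.d k252 k168 k169 13 14))))))]
  (.c k9 (.l (.s k1 k2 0 (.s k15 k10 2 (.s k11 k7 1 (.s k165 k245 11 (.s k169 k253 13 (.d k90 k240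
  k248 14 12))))))) .n))

def s42_255_24 : T TT 256 :=
  (.q k5 [(.s k2 k1 0 (.s k10 k15 2 (.s k6 k14 1 (.s k4 k7 0 (.d k12 k8 k9 1 2))))), (.s k1 k2 0 (.s
  k13 k9 1 (.s k165 k245 11 (.s k89 k241 13 (.s k93 k81 1 (.d k253 k173 k169 11 13)))))), (.s k15
  k10 2 (.s k7 k11 1 (.s k165 k245 11 (.s k86 k244 12 (.s k84 k87 0 (.d k252 k168 k169 13 14))))))]
  (.c k9 (.l (.s k1 k2 0 (.s k15 k10 2 (.s k11 k7 1 (.s k165 k245 11 (.s k169 k253 13 (.d k90 k240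
  k248 14 12))))))) .n))

def s42_255_25 : T TT 256 :=
  (.q k51 [(.s k2 k1 0 (.s k34 k17 4 (.s k18 k50 3 (.s k33 k48 4 (.d k35 k32 k19 0 3))))), (.s k1 k2
  0 (.s k35 k19 3 (.s k169 k253 13 (.s k102 k236 10 (.s k68 k119 4 (.d k204 k136 k153 9 14)))))),
  (.s k17 k34 4 (.s k19 k35 3 (.s k153 k221 9 (.s k86 k220 10 (.s k84 k87 0 (.d k252 k168 k169 13
  14)))))), (.s k1 k2 0 (.s k17 k34 4 (.s k153 k221 9 (.s k169 k253 13 (.s k137 k185 3 (.d k204 k70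
  k102 10 14))))))] (.c k8 (.q k59 [(.s k2 k1 0 (.s k34 k17 4 (.s k18 k50 3 (.s k33 k48 4 (.d k35
  k32 k19 0 3))))), (.s k35 k19 3 (.s k63 k55 1 (.s k43 k23 5 (.s k27 k11 3 (.d k39 k47 k15 1
  5))))), (.s k1 k2 0 (.s k17 k34 4 (.s k153 k221 9 (.s k169 k253 13 (.s k137 k185 3 (.d k204 k70
  k102 10 14))))))] .n) (.c k59 (.q k8 [(.s k2 k1 0 (.s k34 k17 4 (.s k18 k50 3 (.s k33 k48 4 (.d
  k35 k32 k19 0 3))))), (.s k1 k2 0 (.s k12 k4 1 (.s k9 k6 2 (.s k10 k11 0 (.d k5 k13 k15 1 2))))),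
  (.s k17 k34 4 (.s k19 k35 3 (.s k153 k221 9 (.s k86 k220 10 (.s k84 k87 0 (.d k252 k168 k169 13
  14))))))] .n) .n)))

def s42_255_26 : T TT 256 :=
  (.q k69 [(.s k2 k1 0 (.s k138 k207 10 (.s k70 k206 9 (.s k68 k71 0 (.d k204 k136 k137 9 10))))),
  (.s k1 k2 0 (.s k101 k117 3 (.s k169 k253 13 (.s k33 k237 9 (.s k49 k17 3 (.d k205 k137 k153 9
  13)))))), (.s k101 k117 3 (.s k207 k138 10 (.s k71 k139 9 (.s k86 k116 4 (.s k84 k87 0 (.d k252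
  k168 k169 13 14))))))] (.c k10 (.q k58 [(.s k2 k1 0 (.s k138 k207 10 (.s k70 k206 9 (.s k68 k71 0
  (.d k204 k136 k137 9 10))))), (.s k1 k2 0 (.s k101 k117 3 (.s k169 k253 13 (.s k33 k237 9 (.s k49
  k17 3 (.d k205 k137 k153 9 13)))))), (.s k101 k117 3 (.s k207 k138 10 (.s k71 k139 9 (.s k86 k116
  4 (.s k84 k87 0 (.d k252 k168 k169 13 14))))))] (.c k137 (.l (.s k1 k2 0 (.s k101 k117 3 (.s k169
  k253 13 (.s k33 k237 9 (.s k48 k18 4 (.d k207 k138 k154 10 14))))))) .n)) (.c k58 (.q k10 [(.s k15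
  k5 2 (.s k138 k207 10 (.s k74 k202 7 (.s k64 k79 2 (.d k192 k128 k133 7 10))))), (.s k1 k2 0 (.s
  k5 k15 2 (.s k9 k13 1 (.s k8 k11 0 (.d k12 k4 k6 1 2))))), (.s k1 k2 0 (.s k137 k205 9 (.s k70
  k204 10 (.s k71 k68 0 (.d k207 k139 k138 9 10)))))] .n) (.c k137 (.l (.s k1 k2 0 (.s k101 k117 3
  (.s k169 k253 13 (.s k33 k237 9 (.s k48 k18 4 (.d k207 k138 k154 10 14))))))) .n))))

def s42_255_27 : T TT 256 :=
  (.q k5 [(.s k1 k2 0 (.s k9 k13 1 (.s k6 k12 2 (.s k7 k4 0 (.d k15 k11 k10 1 2))))), (.s k15 k10 2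
  (.s k7 k11 1 (.s k165 k245 11 (.s k86 k244 12 (.s k84 k87 0 (.d k252 k168 k169 13 14)))))), (.s k1
  k2 0 (.s k13 k9 1 (.s k165 k245 11 (.s k89 k241 13 (.s k93 k81 1 (.d k253 k173 k169 11 13))))))]
  (.c k9 (.l (.s k1 k2 0 (.s k15 k10 2 (.s k11 k7 1 (.s k165 k245 11 (.s k169 k253 13 (.d k90 k240
  k248 14 12))))))) .n))

def s42_255_28 : T TT 256 :=
  (.q k5 [(.s k2 k1 0 (.s k10 k15 2 (.s k6 k14 1 (.s k4 k7 0 (.d k12 k8 k9 1 2))))), (.s k1 k2 0 (.s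
  k13 k9 1 (.s k165 k245 11 (.s k89 k241 13 (.s k93 k81 1 (.d k253 k173 k169 11 13)))))), (.s k15
  k10 2 (.s k7 k11 1 (.s k165 k245 11 (.s k86 k244 12 (.s k84 k87 0 (.d k252 k168 k169 13 14))))))]
  (.c k9 (.l (.s k1 k2 0 (.s k15 k10 2 (.s k11 k7 1 (.s k165 k245 11 (.s k169 k253 13 (.d k90 k240
  k248 14 12))))))) .n))

def s42_255_29 : T TT 256 :=
  (.q k5 [(.s k2 k1 0 (.s k10 k15 2 (.s k6 k14 1 (.s k4 k7 0 (.d k12 k8 k9 1 2))))), (.s k1 k2 0 (.s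
  k13 k9 1 (.s k165 k245 11 (.s k89 k241 13 (.s k93 k81 1 (.d k253 k173 k169 11 13)))))), (.s k15
  k10 2 (.s k7 k11 1 (.s k165 k245 11 (.s k86 k244 12 (.s k84 k87 0 (.d k252 k168 k169 13 14))))))]
  (.c k9 (.l (.s k1 k2 0 (.s k15 k10 2 (.s k11 k7 1 (.s k165 k245 11 (.s k169 k253 13 (.d k90 k240
  k248 14 12))))))) .n))

def s42_255_30 : T TT 256 :=
  (.q k5 [(.s k1 k2 0 (.s k9 k13 1 (.s k6 k12 2 (.s k7 k4 0 (.d k15 k11 k10 1 2))))), (.s k15 k10 2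
  (.s k7 k11 1 (.s k165 k245 11 (.s k86 k244 12 (.s k84 k87 0 (.d k252 k168 k169 13 14)))))), (.s k1
  k2 0 (.s k13 k9 1 (.s k165 k245 11 (.s k89 k241 13 (.s k93 k81 1 (.d k253 k173 k169 11 13))))))]
  (.c k9 (.l (.s k1 k2 0 (.s k15 k10 2 (.s k11 k7 1 (.s k165 k245 11 (.s k169 k253 13 (.d k90 k240
  k248 14 12))))))) .n))

def s42_255_31 : T TT 256 :=
  (.q k5 [(.s k1 k2 0 (.s k9 k13 1 (.s k6 k12 2 (.s k7 k4 0 (.d k15 k11 k10 1 2))))), (.s k15 k10 2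
  (.s k7 k11 1 (.s k165 k245 11 (.s k86 k244 12 (.s k84 k87 0 (.d k252 k168 k169 13 14)))))), (.s k1
  k2 0 (.s k13 k9 1 (.s k165 k245 11 (.s k89 k241 13 (.s k93 k81 1 (.d k253 k173 k169 11 13))))))]
  (.c k9 (.l (.s k1 k2 0 (.s k15 k10 2 (.s k11 k7 1 (.s k165 k245 11 (.s k169 k253 13 (.d k90 k240
  k248 14 12))))))) .n))

def s42_255_32 : T TT 256 :=
  (.q k51 [(.s k1 k2 0 (.s k17 k34 4 (.s k19 k35 3 (.s k33 k49 3 (.d k18 k16 k48 0 4))))), (.s k1 k2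
  0 (.s k35 k19 3 (.s k169 k253 13 (.s k102 k236 10 (.s k68 k119 4 (.d k204 k136 k153 9 14)))))),
  (.s k17 k34 4 (.s k153 k221 9 (.s k204 k102 14 (.s k137 k70 10 (.s k169 k185 3 (.s k86 k252 14 (.d
  k19 k35 k220 3 10))))))), (.s k1 k2 0 (.s k169 k253 13 (.s k252 k86 14 (.s k185 k118 10 (.s k153
  k137 3 (.d k17 k34 k221 4 9))))))] (.c k37 (.q k47 [(.s k1 k2 0 (.s k17 k34 4 (.s k19 k35 3 (.s
  k33 k49 3 (.d k18 k16 k48 0 4))))), (.s k1 k2 0 (.s k35 k19 3 (.s k169 k253 13 (.s k102 k236 10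
  (.s k68 k119 4 (.d k204 k136 k153 9 14)))))), (.s k17 k34 4 (.s k153 k221 9 (.s k204 k102 14 (.s
  k137 k70 10 (.s k169 k185 3 (.s k86 k252 14 (.d k19 k35 k220 3 10))))))), (.s k1 k2 0 (.s k169
  k253 13 (.s k252 k86 14 (.s k185 k118 10 (.s k153 k137 3 (.d k17 k34 k221 4 9))))))] .n) (.c k47
  (.q k37 [(.s k1 k2 0 (.s k17 k34 4 (.s k19 k35 3 (.s k33 k49 3 (.d k18 k16 k48 0 4))))), (.s k1 k2
  0 (.s k35 k19 3 (.s k169 k253 13 (.s k102 k236 10 (.s k68 k119 4 (.d k204 k136 k153 9 14)))))),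
  (.s k17 k34 4 (.s k153 k221 9 (.s k204 k102 14 (.s k137 k70 10 (.s k169 k185 3 (.s k86 k252 14 (.d
  k19 k35 k220 3 10))))))), (.s k1 k2 0 (.s k169 k253 13 (.s k252 k86 14 (.s k185 k118 10 (.s k153
  k137 3 (.d k17 k34 k221 4 9))))))] .n) .n)))

def s42_255_33 : T TT 256 :=
  (.q k5 [(.s k1 k2 0 (.s k9 k13 1 (.s k6 k12 2 (.s k7 k4 0 (.d k15 k11 k10 1 2))))), (.s k15 k10 2
  (.s k7 k11 1 (.s k165 k245 11 (.s k86 k244 12 (.s k84 k87 0 (.d k252 k168 k169 13 14)))))), (.s k1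
  k2 0 (.s k13 k9 1 (.s k165 k245 11 (.s k89 k241 13 (.s k93 k81 1 (.d k253 k173 k169 11 13))))))]
  (.c k9 (.l (.s k1 k2 0 (.s k15 k10 2 (.s k11 k7 1 (.s k165 k245 11 (.s k169 k253 13 (.d k90 k240
  k248 14 12))))))) .n))

def s42_255_34 : T TT 256 :=
  (.q k101 [(.s k2 k1 0 (.s k69 k117 3 (.s k138 k207 10 (.s k70 k206 9 (.s k68 k71 0 (.d k204 k136
  k137 9 10)))))), (.s k1 k2 0 (.s k169 k253 13 (.s k237 k33 9 (.s k252 k86 14 (.s k207 k222 4 (.s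
  k139 k71 9 (.d k154 k184 k48 4 14))))))), (.s k1 k2 0 (.s k117 k69 3 (.s k253 k169 13 (.s k49 k185
  9 (.s k17 k33 3 (.d k153 k221 k205 9 13)))))), (.s k69 k117 3 (.s k207 k138 10 (.s k71 k139 9 (.s
  k86 k116 4 (.s k84 k87 0 (.d k252 k168 k169 13 14))))))] (.c k38 (.q k46 [(.s k2 k1 0 (.s k69 k117
  3 (.s k138 k207 10 (.s k70 k206 9 (.s k68 k71 0 (.d k204 k136 k137 9 10)))))), (.s k1 k2 0 (.s
  k169 k253 13 (.s k237 k33 9 (.s k252 k86 14 (.s k207 k222 4 (.s k139 k71 9 (.d k154 k184 k48 4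
  14))))))), (.s k1 k2 0 (.s k117 k69 3 (.s k253 k169 13 (.s k49 k185 9 (.s k17 k33 3 (.d k153 k221
  k205 9 13)))))), (.s k69 k117 3 (.s k207 k138 10 (.s k71 k139 9 (.s k86 k116 4 (.s k84 k87 0 (.d
  k252 k168 k169 13 14))))))] .n) (.c k46 (.q k38 [(.s k2 k1 0 (.s k69 k117 3 (.s k138 k207 10 (.s
  k70 k206 9 (.s k68 k71 0 (.d k204 k136 k137 9 10)))))), (.s k1 k2 0 (.s k169 k253 13 (.s k237 k33
  9 (.s k252 k86 14 (.s k207 k222 4 (.s k139 k71 9 (.d k154 k184 k48 4 14))))))), (.s k1 k2 0 (.s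
  k117 k69 3 (.s k253 k169 13 (.s k49 k185 9 (.s k17 k33 3 (.d k153 k221 k205 9 13)))))), (.s k69
  k117 3 (.s k207 k138 10 (.s k71 k139 9 (.s k86 k116 4 (.s k84 k87 0 (.d k252 k168 k169 13
  14))))))] .n) .n)))

def s42_255_35 : T TT 256 :=
  (.q k5 [(.s k2 k1 0 (.s k10 k15 2 (.s k6 k14 1 (.s k4 k7 0 (.d k12 k8 k9 1 2))))), (.s k1 k2 0 (.s
  k13 k9 1 (.s k165 k245 11 (.s k89 k241 13 (.s k93 k81 1 (.d k253 k173 k169 11 13)))))), (.s k15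
  k10 2 (.s k7 k11 1 (.s k165 k245 11 (.s k86 k244 12 (.s k84 k87 0 (.d k252 k168 k169 13 14))))))]
  (.c k9 (.l (.s k1 k2 0 (.s k15 k10 2 (.s k11 k7 1 (.s k165 k245 11 (.s k169 k253 13 (.d k90 k240
  k248 14 12))))))) .n))

def s42_255_36 : T TT 256 :=
  (.q k5 [(.s k2 k1 0 (.s k10 k15 2 (.s k6 k14 1 (.s k4 k7 0 (.d k12 k8 k9 1 2))))), (.s k1 k2 0 (.s
  k13 k9 1 (.s k165 k245 11 (.s k89 k241 13 (.s k93 k81 1 (.d k253 k173 k169 11 13)))))), (.s k15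
  k10 2 (.s k7 k11 1 (.s k165 k245 11 (.s k86 k244 12 (.s k84 k87 0 (.d k252 k168 k169 13 14))))))]
  (.c k9 (.l (.s k1 k2 0 (.s k15 k10 2 (.s k11 k7 1 (.s k165 k245 11 (.s k169 k253 13 (.d k90 k240
  k248 14 12))))))) .n))

def s42_255_37 : T TT 256 :=
  (.q k51 [(.s k2 k1 0 (.s k34 k17 4 (.s k18 k50 3 (.s k33 k48 4 (.d k35 k32 k19 0 3))))), (.s k1 k2
  0 (.s k35 k19 3 (.s k169 k253 13 (.s k102 k236 10 (.s k68 k119 4 (.d k204 k136 k153 9 14)))))),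
  (.s k17 k34 4 (.s k19 k35 3 (.s k153 k221 9 (.s k86 k220 10 (.s k84 k87 0 (.d k252 k168 k169 13
  14)))))), (.s k1 k2 0 (.s k17 k34 4 (.s k153 k221 9 (.s k169 k253 13 (.s k137 k185 3 (.d k204 k70
  k102 10 14))))))] (.c k32 (.q k47 [(.s k1 k2 0 (.s k17 k34 4 (.s k19 k35 3 (.s k33 k49 3 (.d k18
  k16 k48 0 4))))), (.s k1 k2 0 (.s k35 k19 3 (.s k169 k253 13 (.s k102 k236 10 (.s k68 k119 4 (.d
  k204 k136 k153 9 14)))))), (.s k17 k34 4 (.s k153 k221 9 (.s k204 k102 14 (.s k137 k70 10 (.s k169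
  k185 3 (.s k86 k252 14 (.d k19 k35 k220 3 10))))))), (.s k1 k2 0 (.s k169 k253 13 (.s k252 k86 14
  (.s k185 k118 10 (.s k153 k137 3 (.d k17 k34 k221 4 9))))))] .n) (.c k47 (.q k32 [(.s k34 k17 4
  (.d k35 k33 k19 0 3)), (.s k1 k2 0 (.s k35 k19 3 (.s k169 k253 13 (.s k102 k236 10 (.s k68 k119 4
  (.d k204 k136 k153 9 14)))))), (.s k1 k2 0 (.s k17 k34 4 (.s k33 k49 3 (.d k48 k18 k16 4 3))))]
  .n) .n)))

def s42_255_38 : T TT 256 :=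
  (.q k165 [(.s k1 k2 0 (.s k5 k245 11 (.s k13 k9 1 (.s k89 k241 13 (.s k93 k81 1 (.d k253 k173 k169
  11 13)))))), (.s k5 k245 11 (.s k15 k10 2 (.s k7 k11 1 (.s k86 k244 12 (.s k84 k87 0 (.d k252 k168
  k169 13 14)))))), (.s k1 k2 0 (.s k169 k253 13 (.s k161 k173 1 (.s k240 k82 12 (.s k80 k160 11 (.d
  k90 k95 k15 2 14))))))] (.c k34 (.q k46 [(.s k1 k2 0 (.s k5 k245 11 (.s k13 k9 1 (.s k89 k241 13
  (.s k93 k81 1 (.d k253 k173 k169 11 13)))))), (.s k5 k245 11 (.s k15 k10 2 (.s k7 k11 1 (.s k86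
  k244 12 (.s k84 k87 0 (.d k252 k168 k169 13 14)))))), (.s k1 k2 0 (.s k169 k253 13 (.s k161 k173 1
  (.s k240 k82 12 (.s k80 k160 11 (.d k90 k95 k15 2 14))))))] (.c k169 (.l (.s k1 k2 0 (.s k5 k245
  11 (.s k9 k13 1 (.s k6 k12 2 (.s k7 k4 0 (.d k15 k11 k10 1 2))))))) (.c k240 (.l (.s k1 k2 0 (.s
  k169 k253 13 (.s k161 k173 1 (.s k241 k81 11 (.s k13 k89 13 (.d k5 k9 k245 1 11))))))) .n))) (.c
  k46 (.q k34 [(.s k2 k1 0 (.s k18 k50 3 (.s k33 k48 4 (.s k35 k32 0 (.d k51 k19 k17 3 4))))), (.s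
  k5 k245 11 (.s k15 k10 2 (.s k7 k11 1 (.s k86 k244 12 (.s k84 k87 0 (.d k252 k168 k169 13
  14))))))] (.c k26 (.l (.s k1 k2 0 (.s k17 k51 4 (.s k33 k49 3 (.s k32 k35 0 (.d k48 k16 k18 3
  4)))))) .n)) (.c k169 (.l (.s k1 k2 0 (.s k5 k245 11 (.s k9 k13 1 (.s k6 k12 2 (.s k7 k4 0 (.d k15
  k11 k10 1 2))))))) (.c k240 (.l (.s k1 k2 0 (.s k169 k253 13 (.s k161 k173 1 (.s k241 k81 11 (.s
  k13 k89 13 (.d k5 k9 k245 1 11))))))) .n)))))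

def s42_255_39 : T TT 256 :=
  (.q k5 [(.s k1 k2 0 (.s k9 k13 1 (.s k6 k12 2 (.s k7 k4 0 (.d k15 k11 k10 1 2))))), (.s k15 k10 2
  (.s k7 k11 1 (.s k165 k245 11 (.s k86 k244 12 (.s k84 k87 0 (.d k252 k168 k169 13 14)))))), (.s k1
  k2 0 (.s k13 k9 1 (.s k165 k245 11 (.s k89 k241 13 (.s k93 k81 1 (.d k253 k173 k169 11 13))))))]
  (.c k9 (.l (.s k1 k2 0 (.s k15 k10 2 (.s k11 k7 1 (.s k165 k245 11 (.s k169 k253 13 (.d k90 k240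
  k248 14 12))))))) .n))

def s42_255_40 : T TT 256 :=
  (.q k5 [(.s k2 k1 0 (.s k10 k15 2 (.s k6 k14 1 (.s k4 k7 0 (.d k12 k8 k9 1 2))))), (.s k1 k2 0 (.s
  k13 k9 1 (.s k165 k245 11 (.s k89 k241 13 (.s k93 k81 1 (.d k253 k173 k169 11 13)))))), (.s k15
  k10 2 (.s k7 k11 1 (.s k165 k245 11 (.s k86 k244 12 (.s k84 k87 0 (.d k252 k168 k169 13 14))))))]
  (.c k9 (.l (.s k1 k2 0 (.s k15 k10 2 (.s k11 k7 1 (.s k165 k245 11 (.s k169 k253 13 (.d k90 k240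
  k248 14 12))))))) (.c k41 (.q k43 [(.s k1 k2 0 (.s k9 k13 1 (.s k6 k12 2 (.s k7 k4 0 (.d k15 k11
  k10 1 2))))), (.s k15 k10 2 (.s k7 k11 1 (.s k23 k63 5 (.s k39 k55 3 (.s k35 k47 1 (.d k51 k19 k27
  3 5)))))), (.s k1 k2 0 (.s k13 k9 1 (.s k165 k245 11 (.s k89 k241 13 (.s k93 k81 1 (.d k253 k173
  k169 11 13))))))] (.c k9 (.l (.s k1 k2 0 (.s k15 k10 2 (.s k11 k7 1 (.s k165 k245 11 (.s k169 k253
  13 (.d k90 k240 k248 14 12))))))) .n)) (.c k43 (.q k41 [(.s k2 k1 0 (.s k10 k15 2 (.s k6 k14 1 (.s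
  k4 k7 0 (.d k12 k8 k9 1 2))))), (.s k1 k2 0 (.s k13 k9 1 (.s k21 k61 5 (.s k37 k53 3 (.s k33 k45 1
  (.d k49 k17 k25 3 5)))))), (.s k15 k10 2 (.s k7 k11 1 (.s k22 k60 6 (.s k37 k52 4 (.s k33 k45 1
  (.d k48 k26 k18 6 4))))))] (.c k9 (.l (.s k1 k2 0 (.s k15 k10 2 (.s k11 k7 1 (.s k21 k61 5 (.s k26
  k56 4 (.d k37 k53 k48 3 6))))))) .n)) .n))))

def s42_255_41 : T TT 256 :=
  (.q k165 [(.s k1 k2 0 (.s k169 k253 13 (.s k161 k173 1 (.s k241 k81 11 (.s k13 k89 13 (.d k5 k9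
  k245 1 11)))))), (.s k5 k245 11 (.s k15 k10 2 (.s k7 k11 1 (.s k86 k244 12 (.s k84 k87 0 (.d k252
  k168 k169 13 14)))))), (.s k1 k2 0 (.s k169 k253 13 (.s k161 k173 1 (.s k240 k82 12 (.s k80 k160
  11 (.d k90 k95 k15 2 14)))))), (.s k1 k2 0 (.s k5 k245 11 (.s k9 k13 1 (.s k6 k12 2 (.s k7 k4 0
  (.d k15 k11 k10 1 2))))))] (.c k40 (.q k43 [(.s k1 k2 0 (.s k63 k23 5 (.s k169 k253 13 (.s k106
  k232 8 (.s k64 k127 6 (.d k192 k128 k149 7 14)))))), (.s k2 k1 0 (.s k5 k245 11 (.s k10 k15 2 (.s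
  k6 k14 1 (.s k4 k7 0 (.d k12 k8 k9 1 2)))))), (.s k5 k245 11 (.s k15 k10 2 (.s k7 k11 1 (.s k86
  k244 12 (.s k84 k87 0 (.d k252 k168 k169 13 14))))))] .n) (.c k43 (.q k40 [(.s k1 k2 0 (.s k169
  k253 13 (.s k161 k173 1 (.s k241 k81 11 (.s k13 k89 13 (.d k5 k9 k245 1 11)))))), (.s k5 k245 11
  (.s k15 k10 2 (.s k7 k11 1 (.s k86 k244 12 (.s k84 k87 0 (.d k252 k168 k169 13 14)))))), (.s k1 k2
  0 (.s k169 k253 13 (.s k161 k173 1 (.s k240 k82 12 (.s k80 k160 11 (.d k90 k95 k15 2 14)))))), (.s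
  k1 k2 0 (.s k5 k245 11 (.s k9 k13 1 (.s k6 k12 2 (.s k7 k4 0 (.d k15 k11 k10 1 2))))))] .n) .n)))

def s42_255_43 : T TT 256 :=
  (.q k165 [(.s k1 k2 0 (.s k5 k245 11 (.s k13 k9 1 (.s k89 k241 13 (.s k93 k81 1 (.d k253 k173 k169
  11 13)))))), (.s k5 k245 11 (.s k15 k10 2 (.s k7 k11 1 (.s k86 k244 12 (.s k84 k87 0 (.d k252 k168
  k169 13 14)))))), (.s k1 k2 0 (.s k169 k253 13 (.s k161 k173 1 (.s k240 k82 12 (.s k80 k160 11 (.d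
  k90 k95 k15 2 14))))))] (.c k40 (.q k41 [(.s k1 k2 0 (.s k5 k245 11 (.s k13 k9 1 (.s k89 k241 13
  (.s k93 k81 1 (.d k253 k173 k169 11 13)))))), (.s k5 k245 11 (.s k15 k10 2 (.s k7 k11 1 (.s k86
  k244 12 (.s k84 k87 0 (.d k252 k168 k169 13 14)))))), (.s k1 k2 0 (.s k61 k21 5 (.s k169 k253 13
  (.s k105 k233 7 (.s k65 k125 5 (.d k193 k129 k149 7 13))))))] (.c k169 (.l (.s k1 k2 0 (.s k5 k245
  11 (.s k9 k13 1 (.s k6 k12 2 (.s k7 k4 0 (.d k15 k11 k10 1 2))))))) .n)) (.c k41 (.q k40 [(.s k1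
  k2 0 (.s k169 k253 13 (.s k161 k173 1 (.s k241 k81 11 (.s k13 k89 13 (.d k5 k9 k245 1 11)))))),
  (.s k5 k245 11 (.s k15 k10 2 (.s k7 k11 1 (.s k86 k244 12 (.s k84 k87 0 (.d k252 k168 k169 13
  14)))))), (.s k1 k2 0 (.s k169 k253 13 (.s k161 k173 1 (.s k240 k82 12 (.s k80 k160 11 (.d k90 k95
  k15 2 14)))))), (.s k1 k2 0 (.s k5 k245 11 (.s k9 k13 1 (.s k6 k12 2 (.s k7 k4 0 (.d k15 k11 k10 1
  2))))))] .n) (.c k169 (.l (.s k1 k2 0 (.s k5 k245 11 (.s k9 k13 1 (.s k6 k12 2 (.s k7 k4 0 (.d k15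
  k11 k10 1 2))))))) (.c k240 (.l (.s k1 k2 0 (.s k169 k253 13 (.s k161 k173 1 (.s k241 k81 11 (.s
  k13 k89 13 (.d k5 k9 k245 1 11))))))) .n)))))

def s42_255_44 : T TT 256 :=
  (.q k5 [(.s k2 k1 0 (.s k10 k15 2 (.s k6 k14 1 (.s k4 k7 0 (.d k12 k8 k9 1 2))))), (.s k1 k2 0 (.s
  k13 k9 1 (.s k165 k245 11 (.s k89 k241 13 (.s k93 k81 1 (.d k253 k173 k169 11 13)))))), (.s k15
  k10 2 (.s k7 k11 1 (.s k165 k245 11 (.s k86 k244 12 (.s k84 k87 0 (.d k252 k168 k169 13 14))))))]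
  (.c k9 (.l (.s k1 k2 0 (.s k15 k10 2 (.s k11 k7 1 (.s k165 k245 11 (.s k169 k253 13 (.d k90 k240
  k248 14 12))))))) .n))

def s42_255_45 : T TT 256 :=
  (.q k5 [(.s k2 k1 0 (.s k10 k15 2 (.s k6 k14 1 (.s k4 k7 0 (.d k12 k8 k9 1 2))))), (.s k1 k2 0 (.s
  k13 k9 1 (.s k165 k245 11 (.s k89 k241 13 (.s k93 k81 1 (.d k253 k173 k169 11 13)))))), (.s k15
  k10 2 (.s k7 k11 1 (.s k165 k245 11 (.s k86 k244 12 (.s k84 k87 0 (.d k252 k168 k169 13 14))))))]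
  (.c k9 (.l (.s k1 k2 0 (.s k15 k10 2 (.s k11 k7 1 (.s k165 k245 11 (.s k169 k253 13 (.d k90 k240
  k248 14 12))))))) .n))

def s42_255_46 : T TT 256 :=
  (.q k165 [(.s k1 k2 0 (.s k5 k245 11 (.s k13 k9 1 (.s k89 k241 13 (.s k93 k81 1 (.d k253 k173 k169
  11 13)))))), (.s k5 k245 11 (.s k15 k10 2 (.s k7 k11 1 (.s k86 k244 12 (.s k84 k87 0 (.d k252 k168
  k169 13 14)))))), (.s k1 k2 0 (.s k169 k253 13 (.s k161 k173 1 (.s k240 k82 12 (.s k80 k160 11 (.d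
  k90 k95 k15 2 14))))))] (.c k34 (.q k38 [(.s k1 k2 0 (.s k5 k245 11 (.s k13 k9 1 (.s k89 k241 13
  (.s k93 k81 1 (.d k253 k173 k169 11 13)))))), (.s k5 k245 11 (.s k15 k10 2 (.s k7 k11 1 (.s k86
  k244 12 (.s k84 k87 0 (.d k252 k168 k169 13 14)))))), (.s k1 k2 0 (.s k169 k253 13 (.s k161 k173 1
  (.s k240 k82 12 (.s k80 k160 11 (.d k90 k95 k15 2 14))))))] (.c k169 (.l (.s k1 k2 0 (.s k5 k245
  11 (.s k9 k13 1 (.s k6 k12 2 (.s k7 k4 0 (.d k15 k11 k10 1 2))))))) (.c k240 (.l (.s k1 k2 0 (.s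
  k169 k253 13 (.s k161 k173 1 (.s k241 k81 11 (.s k13 k89 13 (.d k5 k9 k245 1 11))))))) .n))) (.c
  k38 (.q k34 [(.s k2 k1 0 (.s k18 k50 3 (.s k33 k48 4 (.s k35 k32 0 (.d k51 k19 k17 3 4))))), (.s
  k5 k245 11 (.s k15 k10 2 (.s k7 k11 1 (.s k86 k244 12 (.s k84 k87 0 (.d k252 k168 k169 13
  14))))))] (.c k26 (.l (.s k1 k2 0 (.s k17 k51 4 (.s k33 k49 3 (.s k32 k35 0 (.d k48 k16 k18 3
  4)))))) .n)) (.c k169 (.l (.s k1 k2 0 (.s k5 k245 11 (.s k9 k13 1 (.s k6 k12 2 (.s k7 k4 0 (.d k15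
  k11 k10 1 2))))))) (.c k240 (.l (.s k1 k2 0 (.s k169 k253 13 (.s k161 k173 1 (.s k241 k81 11 (.s
  k13 k89 13 (.d k5 k9 k245 1 11))))))) .n)))))

def s42_255_47 : T TT 256 :=
  (.f k1 k2 0 (.q k32 [(.s k48 k16 3 (.s k33 k18 4 (.s k17 k49 3 (.d k34 k35 k51 0 4)))), (.s k48
  k16 3 (.s k169 k253 13 (.s k252 k86 14 (.s k168 k84 13 (.s k100 k236 9 (.s k152 k204 13 (.d k184
  k136 k116 3 9))))))), (.s k169 k253 13 (.s k252 k86 14 (.s k168 k84 13 (.s k236 k100 9 (.s k35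
  k102 10 (.s k34 k33 0 (.d k51 k19 k17 3 4)))))))] (.c k22 (.q k62 [(.s k48 k16 3 (.s k33 k18 4 (.s
  k17 k49 3 (.d k34 k35 k51 0 4)))), (.s k48 k16 3 (.s k169 k253 13 (.s k252 k86 14 (.s k168 k84 13
  (.s k100 k236 9 (.s k152 k204 13 (.d k184 k136 k116 3 9))))))), (.s k169 k253 13 (.s k252 k86 14
  (.s k168 k84 13 (.s k236 k100 9 (.s k35 k102 10 (.s k34 k33 0 (.d k51 k19 k17 3 4)))))))] .n) (.c
  k62 (.q k22 [(.s k48 k16 3 (.s k33 k18 4 (.s k17 k49 3 (.d k34 k35 k51 0 4)))), (.s k41 k60 6 (.s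
  k61 k21 5 (.s k169 k253 13 (.s k105 k233 7 (.s k193 k149 13 (.d k65 k125 k129 5 7))))))] .n)
  .n))))

def s42_255_48 : T TT 256 :=
  (.q k15 [(.s k2 k1 0 (.s k11 k7 1 (.s k10 k5 2 (.s k9 k8 0 (.d k6 k14 k12 1 2))))), (.s k1 k2 0
  (.s k11 k7 1 (.s k169 k253 13 (.s k90 k248 12 (.s k80 k95 2 (.d k240 k160 k165 11 14)))))), (.s k5
  k10 2 (.s k7 k11 1 (.s k165 k245 11 (.s k86 k244 12 (.s k84 k87 0 (.d k252 k168 k169 13 14)))))),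
  (.s k1 k2 0 (.s k5 k10 2 (.s k165 k245 11 (.s k169 k253 13 (.s k161 k173 1 (.d k240 k82 k90 12
  14))))))] (.c k117 (.q k186 [(.s k2 k1 0 (.s k11 k7 1 (.s k10 k5 2 (.s k9 k8 0 (.d k6 k14 k12 1
  2))))), (.s k1 k2 0 (.s k11 k7 1 (.s k169 k253 13 (.s k90 k248 12 (.s k80 k95 2 (.d k240 k160 k165
  11 14)))))), (.s k5 k10 2 (.s k7 k11 1 (.s k165 k245 11 (.s k86 k244 12 (.s k84 k87 0 (.d k252
  k168 k169 13 14)))))), (.s k1 k2 0 (.s k5 k10 2 (.s k165 k245 11 (.s k169 k253 13 (.s k161 k173 1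
  (.d k240 k82 k90 12 14))))))] .n) (.c k186 (.q k117 [(.s k2 k1 0 (.s k11 k7 1 (.s k10 k5 2 (.s k9
  k8 0 (.d k6 k14 k12 1 2))))), (.s k1 k2 0 (.s k11 k7 1 (.s k169 k253 13 (.s k90 k248 12 (.s k80
  k95 2 (.d k240 k160 k165 11 14)))))), (.s k5 k10 2 (.s k7 k11 1 (.s k165 k245 11 (.s k86 k244 12
  (.s k84 k87 0 (.d k252 k168 k169 13 14)))))), (.s k1 k2 0 (.s k5 k10 2 (.s k165 k245 11 (.s k169
  k253 13 (.s k161 k173 1 (.d k240 k82 k90 12 14))))))] .n) .n)))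

def s42_255_49 : T TT 256 :=
  (.q k5 [(.s k2 k1 0 (.s k10 k15 2 (.s k6 k14 1 (.s k4 k7 0 (.d k12 k8 k9 1 2))))), (.s k1 k2 0 (.s
  k13 k9 1 (.s k165 k245 11 (.s k89 k241 13 (.s k93 k81 1 (.d k253 k173 k169 11 13)))))), (.s k15
  k10 2 (.s k7 k11 1 (.s k165 k245 11 (.s k86 k244 12 (.s k84 k87 0 (.d k252 k168 k169 13 14))))))]
  (.c k9 (.l (.s k1 k2 0 (.s k15 k10 2 (.s k11 k7 1 (.s k165 k245 11 (.s k169 k253 13 (.d k90 k240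
  k248 14 12))))))) .n))

def s42_255_50 : T TT 256 :=
  (.q k5 [(.s k2 k1 0 (.s k10 k15 2 (.s k6 k14 1 (.s k4 k7 0 (.d k12 k8 k9 1 2))))), (.s k1 k2 0 (.s
  k13 k9 1 (.s k165 k245 11 (.s k89 k241 13 (.s k93 k81 1 (.d k253 k173 k169 11 13)))))), (.s k15
  k10 2 (.s k7 k11 1 (.s k165 k245 11 (.s k86 k244 12 (.s k84 k87 0 (.d k252 k168 k169 13 14))))))]
  (.c k9 (.l (.s k1 k2 0 (.s k15 k10 2 (.s k11 k7 1 (.s k165 k245 11 (.s k169 k253 13 (.d k90 k240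
  k248 14 12))))))) .n))

def s42_255_51 : T TT 256 :=
  (.q k240 [(.s k2 k1 0 (.s k80 k160 11 (.s k82 k161 12 (.s k81 k83 0 (.d k162 k242 k243 11 12))))),
  (.s k1 k2 0 (.s k80 k160 11 (.s k90 k95 2 (.s k15 k165 14 (.s k11 k7 1 (.d k169 k248 k253 12
  13)))))), (.s k80 k160 11 (.s k82 k161 12 (.s k90 k95 2 (.s k86 k94 1 (.s k84 k87 0 (.d k252 k168
  k169 13 14)))))), (.s k1 k2 0 (.s k161 k82 12 (.s k169 k253 13 (.s k165 k173 1 (.s k5 k245 11 (.d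
  k15 k10 k90 2 14))))))] (.c k119 (.q k187 [(.s k2 k1 0 (.s k80 k160 11 (.s k82 k161 12 (.s k81 k83
  0 (.d k162 k242 k243 11 12))))), (.s k1 k2 0 (.s k80 k160 11 (.s k90 k95 2 (.s k15 k165 14 (.s k11
  k7 1 (.d k169 k248 k253 12 13)))))), (.s k80 k160 11 (.s k82 k161 12 (.s k90 k95 2 (.s k86 k94 1
  (.s k84 k87 0 (.d k252 k168 k169 13 14)))))), (.s k1 k2 0 (.s k161 k82 12 (.s k169 k253 13 (.s
  k165 k173 1 (.s k5 k245 11 (.d k15 k10 k90 2 14))))))] .n) (.c k187 (.q k119 [(.s k2 k1 0 (.s k80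
  k160 11 (.s k82 k161 12 (.s k81 k83 0 (.d k162 k242 k243 11 12))))), (.s k1 k2 0 (.s k80 k160 11
  (.s k90 k95 2 (.s k15 k165 14 (.s k11 k7 1 (.d k169 k248 k253 12 13)))))), (.s k80 k160 11 (.s k82
  k161 12 (.s k90 k95 2 (.s k86 k94 1 (.s k84 k87 0 (.d k252 k168 k169 13 14)))))), (.s k1 k2 0 (.s
  k161 k82 12 (.s k169 k253 13 (.s k165 k173 1 (.s k5 k245 11 (.d k15 k10 k90 2 14))))))] .n) .n)))

def s42_255_52 : T TT 256 :=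
  (.q k5 [(.s k2 k1 0 (.s k10 k15 2 (.s k6 k14 1 (.s k12 k9 2 (.d k4 k7 k8 0 1))))), (.s k1 k2 0 (.s
  k13 k9 1 (.s k165 k245 11 (.s k89 k241 13 (.s k93 k81 1 (.d k253 k173 k169 11 13)))))), (.s k15
  k10 2 (.s k7 k11 1 (.s k165 k245 11 (.s k86 k244 12 (.s k84 k87 0 (.d k252 k168 k169 13 14))))))]
  (.c k9 (.l (.s k1 k2 0 (.s k15 k10 2 (.s k11 k7 1 (.s k165 k245 11 (.s k169 k253 13 (.d k90 k240
  k248 14 12))))))) .n))

def s42_255_53 : T TT 256 :=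
  (.q k5 [(.s k2 k1 0 (.s k10 k15 2 (.s k6 k14 1 (.s k4 k7 0 (.d k12 k8 k9 1 2))))), (.s k1 k2 0 (.s
  k13 k9 1 (.s k165 k245 11 (.s k89 k241 13 (.s k93 k81 1 (.d k253 k173 k169 11 13)))))), (.s k15
  k10 2 (.s k7 k11 1 (.s k165 k245 11 (.s k86 k244 12 (.s k84 k87 0 (.d k252 k168 k169 13 14))))))]
  (.c k9 (.l (.s k1 k2 0 (.s k15 k10 2 (.s k11 k7 1 (.s k165 k245 11 (.s k169 k253 13 (.d k90 k240
  k248 14 12))))))) .n))

def s42_255_54 : T TT 256 :=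
  (.q k5 [(.s k2 k1 0 (.s k10 k15 2 (.s k6 k14 1 (.s k4 k7 0 (.d k12 k8 k9 1 2))))), (.s k1 k2 0 (.s
  k13 k9 1 (.s k165 k245 11 (.s k89 k241 13 (.s k93 k81 1 (.d k253 k173 k169 11 13)))))), (.s k15
  k10 2 (.s k7 k11 1 (.s k165 k245 11 (.s k86 k244 12 (.s k84 k87 0 (.d k252 k168 k169 13 14))))))]
  (.c k9 (.l (.s k1 k2 0 (.s k15 k10 2 (.s k11 k7 1 (.s k165 k245 11 (.s k169 k253 13 (.d k90 k240
  k248 14 12))))))) .n))

def s42_255_55 : T TT 256 :=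
  (.q k5 [(.s k2 k1 0 (.s k10 k15 2 (.s k6 k14 1 (.s k12 k9 2 (.d k4 k7 k8 0 1))))), (.s k1 k2 0 (.s
  k13 k9 1 (.s k165 k245 11 (.s k89 k241 13 (.s k93 k81 1 (.d k253 k173 k169 11 13)))))), (.s k15
  k10 2 (.s k7 k11 1 (.s k165 k245 11 (.s k86 k244 12 (.s k84 k87 0 (.d k252 k168 k169 13 14))))))]
  (.c k9 (.l (.s k1 k2 0 (.s k15 k10 2 (.s k11 k7 1 (.s k165 k245 11 (.s k169 k253 13 (.d k90 k240
  k248 14 12))))))) .n))

def s42_255_56 : T TT 256 :=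
  (.q k5 [(.s k2 k1 0 (.s k10 k15 2 (.s k6 k14 1 (.s k4 k7 0 (.d k12 k8 k9 1 2))))), (.s k1 k2 0 (.s
  k13 k9 1 (.s k165 k245 11 (.s k89 k241 13 (.s k93 k81 1 (.d k253 k173 k169 11 13)))))), (.s k15
  k10 2 (.s k7 k11 1 (.s k165 k245 11 (.s k86 k244 12 (.s k84 k87 0 (.d k252 k168 k169 13 14))))))]
  (.c k9 (.l (.s k1 k2 0 (.s k15 k10 2 (.s k11 k7 1 (.s k165 k245 11 (.s k169 k253 13 (.d k90 k240
  k248 14 12))))))) .n))

def s42_255_57 : T TT 256 :=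
  (.q k5 [(.s k2 k1 0 (.s k10 k15 2 (.s k6 k14 1 (.s k4 k7 0 (.d k12 k8 k9 1 2))))), (.s k1 k2 0 (.s
  k13 k9 1 (.s k165 k245 11 (.s k89 k241 13 (.s k93 k81 1 (.d k253 k173 k169 11 13)))))), (.s k15
  k10 2 (.s k7 k11 1 (.s k165 k245 11 (.s k86 k244 12 (.s k84 k87 0 (.d k252 k168 k169 13 14))))))]
  (.c k9 (.l (.s k1 k2 0 (.s k15 k10 2 (.s k11 k7 1 (.s k165 k245 11 (.s k169 k253 13 (.d k90 k240
  k248 14 12))))))) .n))

def s42_255_58 : T TT 256 :=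
  (.q k69 [(.s k2 k1 0 (.s k138 k207 10 (.s k70 k206 9 (.s k68 k71 0 (.d k204 k136 k137 9 10))))),
  (.s k1 k2 0 (.s k101 k117 3 (.s k169 k253 13 (.s k33 k237 9 (.s k49 k17 3 (.d k205 k137 k153 9
  13)))))), (.s k101 k117 3 (.s k207 k138 10 (.s k71 k139 9 (.s k86 k116 4 (.s k84 k87 0 (.d k252
  k168 k169 13 14))))))] (.c k10 (.q k26 [(.s k2 k1 0 (.s k138 k207 10 (.s k70 k206 9 (.s k68 k71 0
  (.d k204 k136 k137 9 10))))), (.s k1 k2 0 (.s k101 k117 3 (.s k169 k253 13 (.s k33 k237 9 (.s k49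
  k17 3 (.d k205 k137 k153 9 13)))))), (.s k101 k117 3 (.s k207 k138 10 (.s k71 k139 9 (.s k86 k116
  4 (.s k84 k87 0 (.d k252 k168 k169 13 14))))))] (.c k137 (.l (.s k1 k2 0 (.s k101 k117 3 (.s k169
  k253 13 (.s k33 k237 9 (.s k48 k18 4 (.d k207 k138 k154 10 14))))))) .n)) (.c k26 (.q k10 [(.s k15
  k5 2 (.s k138 k207 10 (.s k74 k202 7 (.s k64 k79 2 (.d k192 k128 k133 7 10))))), (.s k1 k2 0 (.s
  k5 k15 2 (.s k9 k13 1 (.s k8 k11 0 (.d k12 k4 k6 1 2))))), (.s k1 k2 0 (.s k137 k205 9 (.s k70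
  k204 10 (.s k71 k68 0 (.d k207 k139 k138 9 10)))))] .n) (.c k137 (.l (.s k1 k2 0 (.s k101 k117 3
  (.s k169 k253 13 (.s k33 k237 9 (.s k48 k18 4 (.d k207 k138 k154 10 14))))))) .n))))

def s42_255_59 : T TT 256 :=
  (.f k1 k2 0 (.q k8 [(.s k12 k4 1 (.s k9 k6 2 (.s k5 k13 1 (.d k10 k11 k15 0 2)))), (.s k12 k4 1
  (.s k169 k253 13 (.s k252 k86 14 (.s k168 k84 13 (.s k88 k248 11 (.s k164 k240 13 (.d k172 k160
  k92 1 11))))))), (.s k169 k253 13 (.s k252 k86 14 (.s k168 k84 13 (.s k248 k88 11 (.s k11 k90 12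
  (.s k10 k9 0 (.d k15 k7 k5 1 2)))))))] (.c k22 (.q k62 [(.s k12 k4 1 (.s k9 k6 2 (.s k5 k13 1 (.d
  k10 k11 k15 0 2)))), (.s k12 k4 1 (.s k169 k253 13 (.s k252 k86 14 (.s k168 k84 13 (.s k88 k248 11
  (.s k164 k240 13 (.d k172 k160 k92 1 11))))))), (.s k169 k253 13 (.s k252 k86 14 (.s k168 k84 13
  (.s k248 k88 11 (.s k11 k90 12 (.s k10 k9 0 (.d k15 k7 k5 1 2)))))))] .n) (.c k62 (.q k22 [(.s k12
  k4 1 (.s k9 k6 2 (.s k5 k13 1 (.d k10 k11 k15 0 2)))), (.s k41 k60 6 (.s k61 k21 5 (.s k169 k253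
  13 (.s k105 k233 7 (.s k193 k149 13 (.d k65 k125 k129 5 7))))))] .n) .n))))

def s42_255_60 : T TT 256 :=
  (.q k153 [(.s k1 k2 0 (.s k17 k221 9 (.s k49 k33 3 (.s k101 k205 13 (.s k117 k69 3 (.d k253 k185
  k169 9 13)))))), (.s k17 k221 9 (.s k51 k34 4 (.s k19 k35 3 (.s k86 k220 10 (.s k84 k87 0 (.d k252
  k168 k169 13 14)))))), (.s k1 k2 0 (.s k169 k253 13 (.s k137 k185 3 (.s k204 k70 10 (.s k68 k136 9
  (.d k102 k119 k51 4 14))))))] (.c k125 (.q k190 [(.s k1 k2 0 (.s k17 k221 9 (.s k49 k33 3 (.s k101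
  k205 13 (.s k117 k69 3 (.d k253 k185 k169 9 13)))))), (.s k17 k221 9 (.s k51 k34 4 (.s k19 k35 3
  (.s k86 k220 10 (.s k84 k87 0 (.d k252 k168 k169 13 14)))))), (.s k1 k2 0 (.s k169 k253 13 (.s
  k137 k185 3 (.s k204 k70 10 (.s k68 k136 9 (.d k102 k119 k51 4 14))))))] (.c k169 (.l (.s k1 k2 0
  (.s k17 k221 9 (.s k33 k49 3 (.s k18 k48 4 (.s k19 k16 0 (.d k51 k35 k34 3 4))))))) (.c k204 (.l
  (.s k1 k2 0 (.s k169 k253 13 (.s k137 k185 3 (.s k205 k69 9 (.s k49 k101 13 (.d k17 k33 k221 3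
  9))))))) .n))) (.c k169 (.l (.s k1 k2 0 (.s k17 k221 9 (.s k33 k49 3 (.s k18 k48 4 (.s k19 k16 0
  (.d k51 k35 k34 3 4))))))) (.c k190 (.q k125 [(.s k1 k2 0 (.s k17 k221 9 (.s k49 k33 3 (.s k101
  k205 13 (.s k117 k69 3 (.d k253 k185 k169 9 13)))))), (.s k1 k2 0 (.s k65 k105 5 (.s k129 k193 7
  (.s k66 k192 8 (.s k67 k64 0 (.d k195 k131 k130 7 8)))))), (.s k17 k221 9 (.s k51 k34 4 (.s k19
  k35 3 (.s k86 k220 10 (.s k84 k87 0 (.d k252 k168 k169 13 14))))))] .n) (.c k204 (.l (.s k1 k2 0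
  (.s k169 k253 13 (.s k137 k185 3 (.s k205 k69 9 (.s k49 k101 13 (.d k17 k33 k221 3 9)))))))
  .n)))))

def s42_255_61 : T TT 256 :=
  (.q k5 [(.s k2 k1 0 (.s k10 k15 2 (.s k6 k14 1 (.s k4 k7 0 (.d k12 k8 k9 1 2))))), (.s k1 k2 0 (.s
  k13 k9 1 (.s k165 k245 11 (.s k89 k241 13 (.s k93 k81 1 (.d k253 k173 k169 11 13)))))), (.s k15
  k10 2 (.s k7 k11 1 (.s k165 k245 11 (.s k86 k244 12 (.s k84 k87 0 (.d k252 k168 k169 13 14))))))]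
  (.c k9 (.l (.s k1 k2 0 (.s k15 k10 2 (.s k11 k7 1 (.s k165 k245 11 (.s k169 k253 13 (.d k90 k240
  k248 14 12))))))) .n))

def s42_255_62 : T TT 256 :=
  (.f k2 k1 0 (.q k68 [(.s k204 k136 9 (.s k70 k137 10 (.s k69 k71 0 (.d k138 k206 k207 9 10)))),
  (.s k102 k119 4 (.s k204 k136 9 (.s k51 k153 14 (.s k34 k17 4 (.s k18 k50 3 (.s k33 k48 4 (.d k35
  k32 k19 0 3)))))))] (.c k136 (.q k4 [(.s k12 k8 1 (.s k6 k9 2 (.s k5 k7 0 (.d k10 k14 k15 1 2)))),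
  (.s k102 k119 4 (.s k166 k247 12 (.s k38 k230 7 (.s k55 k21 4 (.d k196 k132 k149 7 12)))))] .n)
  (.c k204 (.q k4 [(.s k12 k8 1 (.s k6 k9 2 (.s k5 k7 0 (.d k10 k14 k15 1 2)))), (.s k102 k119 4 (.s
  k166 k247 12 (.s k38 k230 7 (.s k55 k21 4 (.d k196 k132 k149 7 12)))))] (.c k221 (.q k238 [(.s k12
  k8 1 (.s k6 k9 2 (.s k5 k7 0 (.d k10 k14 k15 1 2)))), (.s k102 k119 4 (.s k166 k247 12 (.s k38
  k230 7 (.s k55 k21 4 (.d k196 k132 k149 7 12)))))] .n) (.c k238 (.q k221 [(.s k12 k8 1 (.s k6 k9 2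
  (.s k5 k7 0 (.d k10 k14 k15 1 2)))), (.s k102 k119 4 (.s k166 k247 12 (.s k38 k230 7 (.s k55 k21 4
  (.d k196 k132 k149 7 12)))))] .n) .n))) .n))))

def s42_255_63 : T TT 256 :=
  (.q k48 [(.s k1 k2 0 (.s k32 k16 3 (.s k33 k18 4 (.s k17 k49 3 (.d k34 k35 k51 0 4))))), (.s k1 k2
  0 (.s k16 k32 3 (.s k154 k223 10 (.s k169 k253 13 (.s k139 k184 4 (.d k207 k71 k101 9 14)))))),
  (.s k16 k32 3 (.s k18 k33 4 (.s k154 k223 10 (.s k86 k222 9 (.s k84 k87 0 (.d k252 k168 k169 13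
  14)))))), (.s k1 k2 0 (.s k33 k18 4 (.s k169 k253 13 (.s k101 k237 9 (.s k69 k117 3 (.d k207 k138
  k154 10 14))))))] (.c k127 (.q k191 [(.s k1 k2 0 (.s k32 k16 3 (.s k33 k18 4 (.s k17 k49 3 (.d k34
  k35 k51 0 4))))), (.s k1 k2 0 (.s k16 k32 3 (.s k154 k223 10 (.s k169 k253 13 (.s k139 k184 4 (.d
  k207 k71 k101 9 14)))))), (.s k16 k32 3 (.s k18 k33 4 (.s k154 k223 10 (.s k86 k222 9 (.s k84 k87
  0 (.d k252 k168 k169 13 14)))))), (.s k1 k2 0 (.s k33 k18 4 (.s k169 k253 13 (.s k101 k237 9 (.s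
  k69 k117 3 (.d k207 k138 k154 10 14))))))] .n) (.c k191 (.q k127 [(.s k1 k2 0 (.s k32 k16 3 (.s
  k33 k18 4 (.s k17 k49 3 (.d k34 k35 k51 0 4))))), (.s k1 k2 0 (.s k16 k32 3 (.s k154 k223 10 (.s
  k169 k253 13 (.s k139 k184 4 (.d k207 k71 k101 9 14)))))), (.s k16 k32 3 (.s k18 k33 4 (.s k154
  k223 10 (.s k86 k222 9 (.s k84 k87 0 (.d k252 k168 k169 13 14)))))), (.s k1 k2 0 (.s k33 k18 4 (.s
  k169 k253 13 (.s k101 k237 9 (.s k69 k117 3 (.d k207 k138 k154 10 14))))))] .n) .n)))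

def s42_255_64 : T TT 256 :=
  (.q k5 [(.s k2 k1 0 (.s k10 k15 2 (.s k6 k14 1 (.s k4 k7 0 (.d k12 k8 k9 1 2))))), (.s k1 k2 0 (.s
  k13 k9 1 (.s k165 k245 11 (.s k89 k241 13 (.s k93 k81 1 (.d k253 k173 k169 11 13)))))), (.s k15
  k10 2 (.s k7 k11 1 (.s k165 k245 11 (.s k86 k244 12 (.s k84 k87 0 (.d k252 k168 k169 13 14))))))]
  (.c k9 (.l (.s k1 k2 0 (.s k15 k10 2 (.s k11 k7 1 (.s k165 k245 11 (.s k169 k253 13 (.d k90 k240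
  k248 14 12))))))) .n))

def s42_255_65 : T TT 256 :=
  (.q k5 [(.s k1 k2 0 (.s k9 k13 1 (.s k6 k12 2 (.s k7 k4 0 (.d k15 k11 k10 1 2))))), (.s k15 k10 2
  (.s k7 k11 1 (.s k165 k245 11 (.s k86 k244 12 (.s k84 k87 0 (.d k252 k168 k169 13 14)))))), (.s k1
  k2 0 (.s k13 k9 1 (.s k165 k245 11 (.s k89 k241 13 (.s k93 k81 1 (.d k253 k173 k169 11 13))))))]
  (.c k9 (.l (.s k1 k2 0 (.s k15 k10 2 (.s k11 k7 1 (.s k165 k245 11 (.s k169 k253 13 (.d k90 k240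
  k248 14 12))))))) .n))

def s42_255_66 : T TT 256 :=
  (.q k5 [(.s k2 k1 0 (.s k10 k15 2 (.s k6 k14 1 (.s k4 k7 0 (.d k12 k8 k9 1 2))))), (.s k1 k2 0 (.s
  k13 k9 1 (.s k165 k245 11 (.s k89 k241 13 (.s k93 k81 1 (.d k253 k173 k169 11 13)))))), (.s k15
  k10 2 (.s k7 k11 1 (.s k165 k245 11 (.s k86 k244 12 (.s k84 k87 0 (.d k252 k168 k169 13 14))))))]
  (.c k9 (.l (.s k1 k2 0 (.s k15 k10 2 (.s k11 k7 1 (.s k165 k245 11 (.s k169 k253 13 (.d k90 k240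
  k248 14 12))))))) .n))

def s42_255_67 : T TT 256 :=
  (.q k5 [(.s k2 k1 0 (.s k10 k15 2 (.s k6 k14 1 (.s k4 k7 0 (.d k12 k8 k9 1 2))))), (.s k1 k2 0 (.s
  k13 k9 1 (.s k165 k245 11 (.s k89 k241 13 (.s k93 k81 1 (.d k253 k173 k169 11 13)))))), (.s k15
  k10 2 (.s k7 k11 1 (.s k165 k245 11 (.s k86 k244 12 (.s k84 k87 0 (.d k252 k168 k169 13 14))))))]
  (.c k9 (.l (.s k1 k2 0 (.s k15 k10 2 (.s k11 k7 1 (.s k165 k245 11 (.s k169 k253 13 (.d k90 k240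
  k248 14 12))))))) .n))

def s42_255_68 : T TT 256 :=
  (.q k5 [(.s k2 k1 0 (.s k10 k15 2 (.s k6 k14 1 (.s k4 k7 0 (.d k12 k8 k9 1 2))))), (.s k1 k2 0 (.s
  k13 k9 1 (.s k165 k245 11 (.s k89 k241 13 (.s k93 k81 1 (.d k253 k173 k169 11 13)))))), (.s k15
  k10 2 (.s k7 k11 1 (.s k165 k245 11 (.s k86 k244 12 (.s k84 k87 0 (.d k252 k168 k169 13 14))))))]
  (.c k9 (.l (.s k1 k2 0 (.s k15 k10 2 (.s k11 k7 1 (.s k165 k245 11 (.s k169 k253 13 (.d k90 k240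
  k248 14 12))))))) .n))

def s42_255_69 : T TT 256 :=
  (.q k5 [(.s k1 k2 0 (.s k9 k13 1 (.s k10 k15 2 (.s k8 k11 0 (.d k12 k4 k6 1 2))))), (.s k15 k10 2
  (.s k7 k11 1 (.s k165 k245 11 (.s k86 k244 12 (.s k84 k87 0 (.d k252 k168 k169 13 14)))))), (.s k1
  k2 0 (.s k13 k9 1 (.s k165 k245 11 (.s k89 k241 13 (.s k93 k81 1 (.d k253 k173 k169 11 13))))))]
  (.c k9 (.l (.s k1 k2 0 (.s k15 k10 2 (.s k11 k7 1 (.s k165 k245 11 (.s k169 k253 13 (.d k90 k240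
  k248 14 12))))))) .n))

def s42_255_70 : T TT 256 :=
  (.q k5 [(.s k2 k1 0 (.s k10 k15 2 (.s k6 k14 1 (.s k12 k9 2 (.d k4 k7 k8 0 1))))), (.s k1 k2 0 (.s
  k13 k9 1 (.s k165 k245 11 (.s k89 k241 13 (.s k93 k81 1 (.d k253 k173 k169 11 13)))))), (.s k15
  k10 2 (.s k7 k11 1 (.s k165 k245 11 (.s k86 k244 12 (.s k84 k87 0 (.d k252 k168 k169 13 14))))))]
  (.c k9 (.l (.s k1 k2 0 (.s k15 k10 2 (.s k11 k7 1 (.s k165 k245 11 (.s k169 k253 13 (.d k90 k240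
  k248 14 12))))))) .n))

def s42_255_71 : T TT 256 :=
  (.q k5 [(.s k2 k1 0 (.s k10 k15 2 (.s k6 k14 1 (.s k12 k9 2 (.d k4 k7 k8 0 1))))), (.s k1 k2 0 (.s
  k13 k9 1 (.s k165 k245 11 (.s k89 k241 13 (.s k93 k81 1 (.d k253 k173 k169 11 13)))))), (.s k15
  k10 2 (.s k7 k11 1 (.s k165 k245 11 (.s k86 k244 12 (.s k84 k87 0 (.d k252 k168 k169 13 14))))))]
  (.c k9 (.l (.s k1 k2 0 (.s k15 k10 2 (.s k11 k7 1 (.s k165 k245 11 (.s k169 k253 13 (.d k90 k240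
  k248 14 12))))))) .n))

def s42_255_72 : T TT 256 :=
  (.q k5 [(.s k2 k1 0 (.s k10 k15 2 (.s k6 k14 1 (.s k4 k7 0 (.d k12 k8 k9 1 2))))), (.s k1 k2 0 (.s
  k13 k9 1 (.s k165 k245 11 (.s k89 k241 13 (.s k93 k81 1 (.d k253 k173 k169 11 13)))))), (.s k15
  k10 2 (.s k7 k11 1 (.s k165 k245 11 (.s k86 k244 12 (.s k84 k87 0 (.d k252 k168 k169 13 14))))))]
  (.c k9 (.l (.s k1 k2 0 (.s k15 k10 2 (.s k11 k7 1 (.s k165 k245 11 (.s k169 k253 13 (.d k90 k240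
  k248 14 12))))))) .n))

def s42_255_73 : T TT 256 :=
  (.q k5 [(.s k2 k1 0 (.s k10 k15 2 (.s k6 k14 1 (.s k4 k7 0 (.d k12 k8 k9 1 2))))), (.s k1 k2 0 (.s
  k13 k9 1 (.s k165 k245 11 (.s k89 k241 13 (.s k93 k81 1 (.d k253 k173 k169 11 13)))))), (.s k15
  k10 2 (.s k7 k11 1 (.s k165 k245 11 (.s k86 k244 12 (.s k84 k87 0 (.d k252 k168 k169 13 14))))))]
  (.c k9 (.l (.s k1 k2 0 (.s k15 k10 2 (.s k11 k7 1 (.s k165 k245 11 (.s k169 k253 13 (.d k90 k240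
  k248 14 12))))))) .n))

def s42_255_74 : T TT 256 :=
  (.q k5 [(.s k1 k2 0 (.s k9 k13 1 (.s k6 k12 2 (.s k7 k4 0 (.d k15 k11 k10 1 2))))), (.s k15 k10 2
  (.s k7 k11 1 (.s k165 k245 11 (.s k86 k244 12 (.s k84 k87 0 (.d k252 k168 k169 13 14)))))), (.s k1
  k2 0 (.s k13 k9 1 (.s k165 k245 11 (.s k89 k241 13 (.s k93 k81 1 (.d k253 k173 k169 11 13))))))]
  (.c k9 (.l (.s k1 k2 0 (.s k15 k10 2 (.s k11 k7 1 (.s k165 k245 11 (.s k169 k253 13 (.d k90 k240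
  k248 14 12))))))) .n))

def s42_255_75 : T TT 256 :=
  (.q k5 [(.s k1 k2 0 (.s k9 k13 1 (.s k6 k12 2 (.s k7 k4 0 (.d k15 k11 k10 1 2))))), (.s k15 k10 2
  (.s k7 k11 1 (.s k165 k245 11 (.s k86 k244 12 (.s k84 k87 0 (.d k252 k168 k169 13 14)))))), (.s k1
  k2 0 (.s k13 k9 1 (.s k165 k245 11 (.s k89 k241 13 (.s k93 k81 1 (.d k253 k173 k169 11 13))))))]
  (.c k9 (.l (.s k1 k2 0 (.s k15 k10 2 (.s k11 k7 1 (.s k165 k245 11 (.s k169 k253 13 (.d k90 k240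
  k248 14 12))))))) .n))

def s42_255_76 : T TT 256 :=
  (.q k5 [(.s k2 k1 0 (.s k10 k15 2 (.s k6 k14 1 (.s k4 k7 0 (.d k12 k8 k9 1 2))))), (.s k1 k2 0 (.s
  k13 k9 1 (.s k165 k245 11 (.s k89 k241 13 (.s k93 k81 1 (.d k253 k173 k169 11 13)))))), (.s k15
  k10 2 (.s k7 k11 1 (.s k165 k245 11 (.s k86 k244 12 (.s k84 k87 0 (.d k252 k168 k169 13 14))))))]
  (.c k9 (.l (.s k1 k2 0 (.s k15 k10 2 (.s k11 k7 1 (.s k165 k245 11 (.s k169 k253 13 (.d k90 k240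
  k248 14 12))))))) .n))

def s42_255_77 : T TT 256 :=
  (.q k5 [(.s k2 k1 0 (.s k10 k15 2 (.s k6 k14 1 (.s k4 k7 0 (.d k12 k8 k9 1 2))))), (.s k1 k2 0 (.s
  k13 k9 1 (.s k165 k245 11 (.s k89 k241 13 (.s k93 k81 1 (.d k253 k173 k169 11 13)))))), (.s k15
  k10 2 (.s k7 k11 1 (.s k165 k245 11 (.s k86 k244 12 (.s k84 k87 0 (.d k252 k168 k169 13 14))))))]
  (.c k9 (.l (.s k1 k2 0 (.s k15 k10 2 (.s k11 k7 1 (.s k165 k245 11 (.s k169 k253 13 (.d k90 k240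
  k248 14 12))))))) .n))

def s42_255_78 : T TT 256 :=
  (.q k5 [(.s k1 k2 0 (.s k9 k13 1 (.s k6 k12 2 (.s k7 k4 0 (.d k15 k11 k10 1 2))))), (.s k15 k10 2
  (.s k7 k11 1 (.s k165 k245 11 (.s k86 k244 12 (.s k84 k87 0 (.d k252 k168 k169 13 14)))))), (.s k1
  k2 0 (.s k13 k9 1 (.s k165 k245 11 (.s k89 k241 13 (.s k93 k81 1 (.d k253 k173 k169 11 13))))))]
  (.c k9 (.l (.s k1 k2 0 (.s k15 k10 2 (.s k11 k7 1 (.s k165 k245 11 (.s k169 k253 13 (.d k90 k240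
  k248 14 12))))))) .n))

def s42_255_79 : T TT 256 :=
  (.q k5 [(.s k1 k2 0 (.s k9 k13 1 (.s k6 k12 2 (.s k7 k4 0 (.d k15 k11 k10 1 2))))), (.s k15 k10 2
  (.s k7 k11 1 (.s k165 k245 11 (.s k86 k244 12 (.s k84 k87 0 (.d k252 k168 k169 13 14)))))), (.s k1
  k2 0 (.s k13 k9 1 (.s k165 k245 11 (.s k89 k241 13 (.s k93 k81 1 (.d k253 k173 k169 11 13))))))]
  (.c k9 (.l (.s k1 k2 0 (.s k15 k10 2 (.s k11 k7 1 (.s k165 k245 11 (.s k169 k253 13 (.d k90 k240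
  k248 14 12))))))) .n))

def s42_255_80 : T TT 256 :=
  (.q k5 [(.s k2 k1 0 (.s k10 k15 2 (.s k6 k14 1 (.s k4 k7 0 (.d k12 k8 k9 1 2))))), (.s k1 k2 0 (.s
  k13 k9 1 (.s k165 k245 11 (.s k89 k241 13 (.s k93 k81 1 (.d k253 k173 k169 11 13)))))), (.s k15
  k10 2 (.s k7 k11 1 (.s k165 k245 11 (.s k86 k244 12 (.s k84 k87 0 (.d k252 k168 k169 13 14))))))]
  (.c k9 (.l (.s k1 k2 0 (.s k15 k10 2 (.s k11 k7 1 (.s k165 k245 11 (.s k169 k253 13 (.d k90 k240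
  k248 14 12))))))) .n))

def s42_255_81 : T TT 256 :=
  (.q k5 [(.s k1 k2 0 (.s k9 k13 1 (.s k6 k12 2 (.s k7 k4 0 (.d k15 k11 k10 1 2))))), (.s k15 k10 2
  (.s k7 k11 1 (.s k165 k245 11 (.s k86 k244 12 (.s k84 k87 0 (.d k252 k168 k169 13 14)))))), (.s k1
  k2 0 (.s k165 k245 11 (.s k169 k253 13 (.s k161 k173 1 (.s k240 k82 12 (.d k15 k10 k90 2 14))))))]
  (.c k10 (.l (.s k1 k2 0 (.s k9 k13 1 (.s k6 k12 2 (.s k4 k7 0 (.s k166 k247 12 (.s k86 k246 11 (.d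
  k169 k253 k252 13 14)))))))) (.c k15 (.l (.s k1 k2 0 (.s k9 k13 1 (.s k12 k6 2 (.s k4 k8 1 (.s
  k166 k247 12 (.s k169 k253 13 (.d k89 k243 k249 14 11)))))))) .n)))

def s42_255_82 : T TT 256 :=
  (.q k5 [(.s k2 k1 0 (.s k10 k15 2 (.s k6 k14 1 (.s k4 k7 0 (.d k12 k8 k9 1 2))))), (.s k1 k2 0 (.s
  k13 k9 1 (.s k165 k245 11 (.s k89 k241 13 (.s k93 k81 1 (.d k253 k173 k169 11 13)))))), (.s k15
  k10 2 (.s k7 k11 1 (.s k165 k245 11 (.s k86 k244 12 (.s k84 k87 0 (.d k252 k168 k169 13 14))))))]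
  (.c k9 (.l (.s k1 k2 0 (.s k15 k10 2 (.s k11 k7 1 (.s k165 k245 11 (.s k169 k253 13 (.d k90 k240
  k248 14 12))))))) .n))

def s42_255_83 : T TT 256 :=
  (.q k5 [(.s k2 k1 0 (.s k10 k15 2 (.s k6 k14 1 (.s k4 k7 0 (.d k12 k8 k9 1 2))))), (.s k1 k2 0 (.s
  k13 k9 1 (.s k165 k245 11 (.s k89 k241 13 (.s k93 k81 1 (.d k253 k173 k169 11 13)))))), (.s k15
  k10 2 (.s k7 k11 1 (.s k165 k245 11 (.s k86 k244 12 (.s k84 k87 0 (.d k252 k168 k169 13 14))))))]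
  (.c k9 (.l (.s k1 k2 0 (.s k15 k10 2 (.s k11 k7 1 (.s k165 k245 11 (.s k169 k253 13 (.d k90 k240
  k248 14 12))))))) .n))

def s42_255_84 : T TT 256 :=
  (.q k5 [(.s k2 k1 0 (.s k10 k15 2 (.s k6 k14 1 (.s k4 k7 0 (.d k12 k8 k9 1 2))))), (.s k1 k2 0 (.s
  k13 k9 1 (.s k165 k245 11 (.s k89 k241 13 (.s k93 k81 1 (.d k253 k173 k169 11 13)))))), (.s k15
  k10 2 (.s k7 k11 1 (.s k165 k245 11 (.s k86 k244 12 (.s k169 k252 14 (.s k161 k173 1 (.d k240 k82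
  k90 12 14)))))))] (.c k9 (.l (.s k1 k2 0 (.s k15 k10 2 (.s k11 k7 1 (.s k165 k245 11 (.s k169 k253
  13 (.d k90 k240 k248 14 12))))))) .n))

def s42_255_86 : T TT 256 :=
  (.f k2 k1 0 (.q k204 [(.s k68 k136 9 (.s k70 k137 10 (.s k138 k206 9 (.d k69 k71 k207 0 10)))),
  (.s k68 k136 9 (.s k102 k119 4 (.s k51 k153 14 (.s k34 k17 4 (.s k18 k50 3 (.s k33 k48 4 (.d k35
  k19 k32 3 0)))))))] (.c k68 (.q k4 [(.s k12 k8 1 (.s k6 k9 2 (.s k10 k14 1 (.d k5 k7 k15 0 2)))),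
  (.s k12 k8 1 (.s k140 k76 7 (.s k166 k247 12 (.s k153 k179 6 (.s k17 k221 9 (.d k51 k34 k102 4
  14)))))), (.s k70 k137 10 (.s k138 k206 9 (.s k69 k207 10 (.s k134 k199 8 (.s k6 k198 7 (.s k5 k7
  0 (.d k10 k14 k15 1 2)))))))] .n) (.c k136 (.q k4 [(.s k12 k8 1 (.s k6 k9 2 (.s k10 k14 1 (.d k5
  k7 k15 0 2)))), (.s k70 k137 10 (.s k138 k206 9 (.s k69 k207 10 (.s k134 k199 8 (.s k6 k198 7 (.d
  k12 k8 k9 1 2)))))), (.s k70 k137 10 (.s k138 k206 9 (.s k69 k207 10 (.s k134 k199 8 (.s k6 k198 7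
  (.s k5 k7 0 (.d k10 k14 k15 1 2)))))))] (.c k6 (.l (.s k12 k8 1 (.s k140 k76 7 (.s k166 k247 12
  (.s k153 k179 6 (.s k17 k221 9 (.d k51 k34 k102 4 14))))))) .n)) .n))))

def s42_255_87 : T TT 256 :=
  (.q k5 [(.s k2 k1 0 (.s k10 k15 2 (.s k6 k14 1 (.s k12 k9 2 (.d k4 k7 k8 0 1))))), (.s k1 k2 0 (.s
  k13 k9 1 (.s k165 k245 11 (.s k89 k241 13 (.s k93 k81 1 (.d k253 k173 k169 11 13)))))), (.s k15
  k10 2 (.s k7 k11 1 (.s k165 k245 11 (.s k86 k244 12 (.s k169 k252 14 (.s k161 k173 1 (.d k240 k82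
  k90 12 14)))))))] (.c k9 (.l (.s k1 k2 0 (.s k15 k10 2 (.s k11 k7 1 (.s k165 k245 11 (.s k169 k253
  13 (.d k90 k240 k248 14 12))))))) .n))

def s42_255_88 : T TT 256 :=
  (.q k5 [(.s k2 k1 0 (.s k10 k15 2 (.s k6 k14 1 (.s k4 k7 0 (.d k12 k8 k9 1 2))))), (.s k1 k2 0 (.s
  k13 k9 1 (.s k165 k245 11 (.s k89 k241 13 (.s k93 k81 1 (.d k253 k173 k169 11 13)))))), (.s k15
  k10 2 (.s k7 k11 1 (.s k165 k245 11 (.s k86 k244 12 (.s k84 k87 0 (.d k252 k168 k169 13 14))))))]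
  (.c k9 (.l (.s k1 k2 0 (.s k15 k10 2 (.s k11 k7 1 (.s k165 k245 11 (.s k169 k253 13 (.d k90 k240
  k248 14 12))))))) .n))

def s42_255_89 : T TT 256 :=
  (.q k15 [(.s k2 k1 0 (.s k10 k5 2 (.s k6 k14 1 (.s k9 k12 2 (.d k11 k8 k7 0 1))))), (.s k1 k2 0
  (.s k11 k7 1 (.s k169 k253 13 (.s k90 k248 12 (.s k80 k95 2 (.d k240 k160 k165 11 14)))))), (.s k5
  k10 2 (.s k7 k11 1 (.s k165 k245 11 (.s k86 k244 12 (.s k84 k87 0 (.d k252 k168 k169 13 14)))))),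
  (.s k1 k2 0 (.s k5 k10 2 (.s k165 k245 11 (.s k169 k253 13 (.s k161 k173 1 (.d k240 k82 k90 12
  14))))))] .n)

def s42_255_90 : T TT 256 :=
  (.q k5 [(.s k1 k2 0 (.s k9 k13 1 (.s k6 k12 2 (.s k7 k4 0 (.d k15 k11 k10 1 2))))), (.s k15 k10 2
  (.s k7 k11 1 (.s k165 k245 11 (.s k86 k244 12 (.s k84 k87 0 (.d k252 k169 k168 14 13)))))), (.s k1
  k2 0 (.s k13 k9 1 (.s k165 k245 11 (.s k89 k241 13 (.s k93 k81 1 (.d k253 k173 k169 11 13))))))]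
  (.c k9 (.l (.s k1 k2 0 (.s k15 k10 2 (.s k165 k245 11 (.s k169 k253 13 (.s k173 k161 1 (.d k252
  k94 k86 12 14))))))) .n))

def s42_255_91 : T TT 256 :=
  (.q k5 [(.s k1 k2 0 (.s k9 k13 1 (.s k6 k12 2 (.s k7 k4 0 (.d k15 k11 k10 1 2))))), (.s k15 k10 2
  (.s k7 k11 1 (.s k165 k245 11 (.s k86 k244 12 (.s k84 k87 0 (.d k252 k168 k169 13 14)))))), (.s k1
  k2 0 (.s k13 k9 1 (.s k165 k245 11 (.s k89 k241 13 (.s k93 k81 1 (.d k253 k173 k169 11 13))))))]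
  (.c k9 (.l (.s k1 k2 0 (.s k15 k10 2 (.s k11 k7 1 (.s k165 k245 11 (.s k169 k253 13 (.d k90 k240
  k248 14 12))))))) .n))

def s42_255_92 : T TT 256 :=
  (.q k5 [(.s k2 k1 0 (.s k10 k15 2 (.s k6 k14 1 (.s k4 k7 0 (.d k12 k8 k9 1 2))))), (.s k1 k2 0 (.s
  k13 k9 1 (.s k165 k245 11 (.s k89 k241 13 (.s k93 k81 1 (.d k253 k173 k169 11 13)))))), (.s k15
  k10 2 (.s k7 k11 1 (.s k165 k245 11 (.s k86 k244 12 (.s k84 k87 0 (.d k252 k168 k169 13 14))))))]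
  (.c k9 (.l (.s k1 k2 0 (.s k15 k10 2 (.s k11 k7 1 (.s k165 k245 11 (.s k169 k253 13 (.d k90 k240
  k248 14 12))))))) .n))

def s42_255_93 : T TT 256 :=
  (.q k12 [(.s k2 k1 0 (.s k4 k8 1 (.s k6 k9 2 (.s k10 k14 1 (.d k5 k7 k15 0 2))))), (.s k1 k2 0 (.s
  k9 k6 2 (.s k169 k253 13 (.s k89 k249 11 (.s k166 k243 14 (.s k172 k163 2 (.d k252 k92 k86 11
  14))))))), (.s k4 k8 1 (.s k6 k9 2 (.s k166 k247 12 (.s k86 k246 11 (.s k84 k87 0 (.d k252 k168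
  k169 13 14)))))), (.s k1 k2 0 (.s k4 k8 1 (.s k166 k247 12 (.s k169 k253 13 (.s k163 k172 2 (.d
  k243 k83 k89 11 14))))))] .n)

def s42_255_94 : T TT 256 :=
  (.q k5 [(.s k1 k2 0 (.s k9 k13 1 (.s k6 k12 2 (.s k7 k4 0 (.d k15 k11 k10 1 2))))), (.s k15 k10 2
  (.s k7 k11 1 (.s k165 k245 11 (.s k86 k244 12 (.s k84 k87 0 (.d k252 k168 k169 13 14)))))), (.s k1
  k2 0 (.s k13 k9 1 (.s k165 k245 11 (.s k89 k241 13 (.s k93 k81 1 (.d k253 k173 k169 11 13))))))]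
  (.c k9 (.l (.s k1 k2 0 (.s k15 k10 2 (.s k11 k7 1 (.s k165 k245 11 (.s k169 k253 13 (.d k90 k240
  k248 14 12))))))) .n))

def s42_255_95 : T TT 256 :=
  (.q k15 [(.s k2 k1 0 (.s k10 k5 2 (.s k6 k14 1 (.s k9 k12 2 (.d k11 k8 k7 0 1))))), (.s k1 k2 0
  (.s k11 k7 1 (.s k169 k253 13 (.s k90 k248 12 (.s k165 k240 14 (.s k173 k161 1 (.d k252 k94 k86 12
  14))))))), (.s k5 k10 2 (.s k7 k11 1 (.s k165 k245 11 (.s k86 k244 12 (.s k84 k87 0 (.d k252 k168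
  k169 13 14)))))), (.s k1 k2 0 (.s k5 k10 2 (.s k165 k245 11 (.s k169 k253 13 (.s k161 k173 1 (.d
  k240 k82 k90 12 14))))))] .n)

def s42_255_96 : T TT 256 :=
  (.q k5 [(.s k2 k1 0 (.s k10 k15 2 (.s k6 k14 1 (.s k4 k7 0 (.d k12 k8 k9 1 2))))), (.s k1 k2 0 (.s
  k13 k9 1 (.s k165 k245 11 (.s k89 k241 13 (.s k93 k81 1 (.d k253 k173 k169 11 13)))))), (.s k15
  k10 2 (.s k7 k11 1 (.s k165 k245 11 (.s k86 k244 12 (.s k84 k87 0 (.d k252 k168 k169 13 14))))))]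
  (.c k9 (.l (.s k1 k2 0 (.s k15 k10 2 (.s k11 k7 1 (.s k165 k245 11 (.s k169 k253 13 (.d k90 k240
  k248 14 12))))))) .n))

def s42_255_97 : T TT 256 :=
  (.q k5 [(.s k2 k1 0 (.s k10 k15 2 (.s k6 k14 1 (.s k4 k7 0 (.d k12 k8 k9 1 2))))), (.s k1 k2 0 (.s
  k13 k9 1 (.s k165 k245 11 (.s k89 k241 13 (.s k93 k81 1 (.d k253 k173 k169 11 13)))))), (.s k15
  k10 2 (.s k7 k11 1 (.s k165 k245 11 (.s k86 k244 12 (.s k84 k87 0 (.d k252 k168 k169 13 14))))))]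
  (.c k9 (.l (.s k1 k2 0 (.s k15 k10 2 (.s k11 k7 1 (.s k165 k245 11 (.s k169 k253 13 (.d k90 k240
  k248 14 12))))))) .n))

def s42_255_98 : T TT 256 :=
  (.q k5 [(.s k2 k1 0 (.s k10 k15 2 (.s k6 k14 1 (.s k4 k7 0 (.d k12 k8 k9 1 2))))), (.s k1 k2 0 (.s
  k13 k9 1 (.s k165 k245 11 (.s k89 k241 13 (.s k93 k81 1 (.d k253 k173 k169 11 13)))))), (.s k15
  k10 2 (.s k7 k11 1 (.s k165 k245 11 (.s k86 k244 12 (.s k84 k87 0 (.d k252 k168 k169 13 14))))))]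
  (.c k9 (.l (.s k1 k2 0 (.s k15 k10 2 (.s k11 k7 1 (.s k165 k245 11 (.s k169 k253 13 (.d k90 k240
  k248 14 12))))))) .n))

def s42_255_99 : T TT 256 :=
  (.q k5 [(.s k2 k1 0 (.s k10 k15 2 (.s k6 k14 1 (.s k4 k7 0 (.d k12 k8 k9 1 2))))), (.s k1 k2 0 (.s
  k13 k9 1 (.s k165 k245 11 (.s k89 k241 13 (.s k93 k81 1 (.d k253 k173 k169 11 13)))))), (.s k15
  k10 2 (.s k7 k11 1 (.s k165 k245 11 (.s k86 k244 12 (.s k84 k87 0 (.d k252 k168 k169 13 14))))))]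
  (.c k9 (.l (.s k1 k2 0 (.s k15 k10 2 (.s k11 k7 1 (.s k165 k245 11 (.s k169 k253 13 (.d k90 k240
  k248 14 12))))))) .n))

def s42_255_100 : T TT 256 :=
  (.q k5 [(.s k2 k1 0 (.s k10 k15 2 (.s k6 k14 1 (.s k4 k7 0 (.d k12 k8 k9 1 2))))), (.s k1 k2 0 (.s
  k13 k9 1 (.s k165 k245 11 (.s k89 k241 13 (.s k93 k81 1 (.d k253 k173 k169 11 13)))))), (.s k15
  k10 2 (.s k7 k11 1 (.s k165 k245 11 (.s k86 k244 12 (.s k84 k87 0 (.d k252 k168 k169 13 14))))))]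
  (.c k9 (.l (.s k1 k2 0 (.s k15 k10 2 (.s k11 k7 1 (.s k165 k245 11 (.s k169 k253 13 (.d k90 k240
  k248 14 12))))))) .n))

def s42_255_101 : T TT 256 :=
  (.q k5 [(.s k2 k1 0 (.s k10 k15 2 (.s k6 k14 1 (.s k4 k7 0 (.d k12 k8 k9 1 2))))), (.s k1 k2 0 (.s
  k13 k9 1 (.s k165 k245 11 (.s k89 k241 13 (.s k93 k81 1 (.d k253 k173 k169 11 13)))))), (.s k15
  k10 2 (.s k7 k11 1 (.s k165 k245 11 (.s k86 k244 12 (.s k84 k87 0 (.d k252 k168 k169 13 14))))))]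
  (.c k9 (.l (.s k1 k2 0 (.s k15 k10 2 (.s k11 k7 1 (.s k165 k245 11 (.s k169 k253 13 (.d k90 k240
  k248 14 12))))))) .n))

def s42_255_102 : T TT 256 :=
  (.q k5 [(.s k2 k1 0 (.s k10 k15 2 (.s k6 k14 1 (.s k4 k7 0 (.d k12 k8 k9 1 2))))), (.s k1 k2 0 (.s
  k13 k9 1 (.s k165 k245 11 (.s k89 k241 13 (.s k93 k81 1 (.d k253 k173 k169 11 13)))))), (.s k15
  k10 2 (.s k7 k11 1 (.s k165 k245 11 (.s k86 k244 12 (.s k84 k87 0 (.d k252 k168 k169 13 14))))))]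
  (.c k9 (.l (.s k1 k2 0 (.s k15 k10 2 (.s k11 k7 1 (.s k165 k245 11 (.s k169 k253 13 (.d k90 k240
  k248 14 12))))))) .n))

def s42_255_103 : T TT 256 :=
  (.q k5 [(.s k2 k1 0 (.s k10 k15 2 (.s k6 k14 1 (.s k4 k7 0 (.d k12 k8 k9 1 2))))), (.s k1 k2 0 (.s
  k13 k9 1 (.s k165 k245 11 (.s k89 k241 13 (.s k93 k81 1 (.d k253 k173 k169 11 13)))))), (.s k15
  k10 2 (.s k7 k11 1 (.s k165 k245 11 (.s k86 k244 12 (.s k84 k87 0 (.d k252 k168 k169 13 14))))))]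
  (.c k9 (.l (.s k1 k2 0 (.s k15 k10 2 (.s k11 k7 1 (.s k165 k245 11 (.s k169 k253 13 (.d k90 k240
  k248 14 12))))))) .n))

def s42_255_104 : T TT 256 :=
  (.q k5 [(.s k2 k1 0 (.s k10 k15 2 (.s k6 k14 1 (.s k4 k7 0 (.d k12 k8 k9 1 2))))), (.s k1 k2 0 (.s
  k13 k9 1 (.s k165 k245 11 (.s k89 k241 13 (.s k93 k81 1 (.d k253 k173 k169 11 13)))))), (.s k15
  k10 2 (.s k7 k11 1 (.s k165 k245 11 (.s k86 k244 12 (.s k84 k87 0 (.d k252 k168 k169 13 14))))))]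
  (.c k9 (.l (.s k1 k2 0 (.s k15 k10 2 (.s k11 k7 1 (.s k165 k245 11 (.s k169 k253 13 (.d k90 k240
  k248 14 12))))))) .n))

def s42_255_105 : T TT 256 :=
  (.q k5 [(.s k2 k1 0 (.s k10 k15 2 (.s k6 k14 1 (.s k4 k7 0 (.d k12 k8 k9 1 2))))), (.s k1 k2 0 (.s
  k13 k9 1 (.s k165 k245 11 (.s k89 k241 13 (.s k93 k81 1 (.d k253 k173 k169 11 13)))))), (.s k15
  k10 2 (.s k7 k11 1 (.s k165 k245 11 (.s k86 k244 12 (.s k84 k87 0 (.d k252 k168 k169 13 14))))))]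
  (.c k9 (.l (.s k1 k2 0 (.s k15 k10 2 (.s k11 k7 1 (.s k165 k245 11 (.s k169 k253 13 (.d k90 k240
  k248 14 12))))))) .n))

def s42_255_106 : T TT 256 :=
  (.q k48 [(.s k1 k2 0 (.s k32 k16 3 (.s k33 k18 4 (.s k17 k49 3 (.d k34 k35 k51 0 4))))), (.s k1 k2
  0 (.s k16 k32 3 (.s k154 k223 10 (.s k169 k253 13 (.s k139 k184 4 (.d k207 k71 k101 9 14)))))),
  (.s k16 k32 3 (.s k18 k33 4 (.s k154 k223 10 (.s k86 k222 9 (.s k84 k87 0 (.d k252 k168 k169 13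
  14)))))), (.s k1 k2 0 (.s k33 k18 4 (.s k169 k253 13 (.s k101 k237 9 (.s k69 k117 3 (.d k207 k138
  k154 10 14))))))] (.c k170 (.q k234 [(.s k1 k2 0 (.s k32 k16 3 (.s k33 k18 4 (.s k17 k49 3 (.d k34
  k35 k51 0 4))))), (.s k16 k32 3 (.s k18 k33 4 (.s k154 k223 10 (.s k86 k222 9 (.s k84 k87 0 (.d
  k252 k168 k169 13 14)))))), (.s k1 k2 0 (.s k16 k32 3 (.s k154 k223 10 (.s k169 k253 13 (.s k139
  k184 4 (.d k207 k101 k71 14 9)))))), (.s k1 k2 0 (.s k33 k18 4 (.s k169 k253 13 (.s k101 k237 9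
  (.s k69 k117 3 (.d k207 k138 k154 10 14))))))] (.c k86 (.l (.s k2 k1 0 (.s k16 k32 3 (.s k18 k33 4
  (.s k17 k19 0 (.d k34 k50 k51 3 4)))))) .n)) (.c k234 (.q k170 [(.s k1 k2 0 (.s k169 k253 13 (.s
  k168 k171 0 (.d k252 k84 k86 13 14)))), (.s k16 k32 3 (.s k154 k223 10 (.s k138 k186 3 (.d k207
  k69 k101 10 14))))] (.c k192 (.q k213 [(.s k1 k2 0 (.s k169 k253 13 (.s k168 k171 0 (.d k252 k84
  k86 13 14)))), (.s k16 k32 3 (.s k154 k223 10 (.s k138 k186 3 (.d k207 k69 k101 10 14))))] (.c k63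
  (.l (.s k149 k21 7 (.s k1 k2 0 (.s k169 k253 13 (.s k168 k171 0 (.d k252 k84 k86 13 14)))))) (.c
  k149 (.q k63 [(.s k1 k2 0 (.s k169 k253 13 (.s k168 k171 0 (.d k252 k84 k86 13 14)))), (.s k16 k32
  3 (.s k154 k223 10 (.s k138 k186 3 (.d k207 k69 k101 10 14))))] .n) .n))) (.c k213 (.q k192 [(.s
  k2 k1 0 (.s k86 k254 13 (.s k84 k87 0 (.d k252 k168 k169 13 14)))), (.s k16 k32 3 (.s k154 k223 10
  (.s k138 k186 3 (.d k207 k69 k101 10 14))))] .n) .n))) .n)))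

def s42_255_107 : T TT 256 :=
  (.q k5 [(.s k2 k1 0 (.s k10 k15 2 (.s k6 k14 1 (.s k4 k7 0 (.d k12 k8 k9 1 2))))), (.s k1 k2 0 (.s
  k13 k9 1 (.s k165 k245 11 (.s k89 k241 13 (.s k93 k81 1 (.d k253 k173 k169 11 13)))))), (.s k15
  k10 2 (.s k7 k11 1 (.s k165 k245 11 (.s k86 k244 12 (.s k84 k87 0 (.d k252 k168 k169 13 14))))))]
  (.c k9 (.l (.s k1 k2 0 (.s k15 k10 2 (.s k11 k7 1 (.s k165 k245 11 (.s k169 k253 13 (.d k90 k240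
  k248 14 12))))))) .n))

def s42_255_108 : T TT 256 :=
  (.q k5 [(.s k2 k1 0 (.s k10 k15 2 (.s k6 k14 1 (.s k4 k7 0 (.d k12 k8 k9 1 2))))), (.s k1 k2 0 (.s
  k13 k9 1 (.s k165 k245 11 (.s k89 k241 13 (.s k93 k81 1 (.d k253 k173 k169 11 13)))))), (.s k15
  k10 2 (.s k7 k11 1 (.s k165 k245 11 (.s k86 k244 12 (.s k84 k87 0 (.d k252 k168 k169 13 14))))))]
  (.c k9 (.l (.s k1 k2 0 (.s k15 k10 2 (.s k11 k7 1 (.s k165 k245 11 (.s k169 k253 13 (.d k90 k240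
  k248 14 12))))))) .n))

def s42_255_109 : T TT 256 :=
  (.q k5 [(.s k2 k1 0 (.s k10 k15 2 (.s k6 k14 1 (.s k4 k7 0 (.d k12 k8 k9 1 2))))), (.s k1 k2 0 (.s
  k13 k9 1 (.s k165 k245 11 (.s k89 k241 13 (.s k93 k81 1 (.d k253 k173 k169 11 13)))))), (.s k15
  k10 2 (.s k7 k11 1 (.s k165 k245 11 (.s k86 k244 12 (.s k84 k87 0 (.d k252 k168 k169 13 14))))))]
  (.c k9 (.l (.s k1 k2 0 (.s k15 k10 2 (.s k11 k7 1 (.s k165 k245 11 (.s k169 k253 13 (.d k90 k240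
  k248 14 12))))))) .n))

def s42_255_110 : T TT 256 :=
  (.q k5 [(.s k2 k1 0 (.s k10 k15 2 (.s k6 k14 1 (.s k4 k7 0 (.d k12 k8 k9 1 2))))), (.s k1 k2 0 (.s
  k13 k9 1 (.s k165 k245 11 (.s k89 k241 13 (.s k93 k81 1 (.d k253 k173 k169 11 13)))))), (.s k15
  k10 2 (.s k7 k11 1 (.s k165 k245 11 (.s k86 k244 12 (.s k84 k87 0 (.d k252 k168 k169 13 14))))))]
  (.c k9 (.l (.s k1 k2 0 (.s k15 k10 2 (.s k11 k7 1 (.s k165 k245 11 (.s k169 k253 13 (.d k90 k240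
  k248 14 12))))))) .n))

def s42_255_111 : T TT 256 :=
  (.q k5 [(.s k2 k1 0 (.s k10 k15 2 (.s k6 k14 1 (.s k4 k7 0 (.d k12 k8 k9 1 2))))), (.s k1 k2 0 (.s
  k13 k9 1 (.s k165 k245 11 (.s k89 k241 13 (.s k93 k81 1 (.d k253 k173 k169 11 13)))))), (.s k15
  k10 2 (.s k7 k11 1 (.s k165 k245 11 (.s k86 k244 12 (.s k84 k87 0 (.d k252 k168 k169 13 14))))))]
  (.c k9 (.l (.s k1 k2 0 (.s k15 k10 2 (.s k11 k7 1 (.s k165 k245 11 (.s k169 k253 13 (.d k90 k240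
  k248 14 12))))))) .n))

def s42_255_112 : T TT 256 :=
  (.q k5 [(.s k2 k1 0 (.s k10 k15 2 (.s k6 k14 1 (.s k4 k7 0 (.d k12 k8 k9 1 2))))), (.s k1 k2 0 (.s
  k13 k9 1 (.s k165 k245 11 (.s k89 k241 13 (.s k93 k81 1 (.d k253 k173 k169 11 13)))))), (.s k15
  k10 2 (.s k7 k11 1 (.s k165 k245 11 (.s k86 k244 12 (.s k84 k87 0 (.d k252 k168 k169 13 14))))))]
  (.c k9 (.l (.s k1 k2 0 (.s k15 k10 2 (.s k11 k7 1 (.s k165 k245 11 (.s k169 k253 13 (.d k90 k240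
  k248 14 12))))))) .n))

def s42_255_113 : T TT 256 :=
  (.q k5 [(.s k2 k1 0 (.s k10 k15 2 (.s k6 k14 1 (.s k4 k7 0 (.d k12 k8 k9 1 2))))), (.s k1 k2 0 (.s
  k13 k9 1 (.s k165 k245 11 (.s k89 k241 13 (.s k93 k81 1 (.d k253 k173 k169 11 13)))))), (.s k15
  k10 2 (.s k7 k11 1 (.s k165 k245 11 (.s k86 k244 12 (.s k84 k87 0 (.d k252 k168 k169 13 14))))))]
  (.c k9 (.l (.s k1 k2 0 (.s k15 k10 2 (.s k11 k7 1 (.s k165 k245 11 (.s k169 k253 13 (.d k90 k240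
  k248 14 12))))))) .n))

def s42_255_114 : T TT 256 :=
  (.q k5 [(.s k2 k1 0 (.s k10 k15 2 (.s k6 k14 1 (.s k4 k7 0 (.d k12 k8 k9 1 2))))), (.s k1 k2 0 (.s
  k13 k9 1 (.s k165 k245 11 (.s k89 k241 13 (.s k93 k81 1 (.d k253 k173 k169 11 13)))))), (.s k15
  k10 2 (.s k7 k11 1 (.s k165 k245 11 (.s k86 k244 12 (.s k84 k87 0 (.d k252 k168 k169 13 14))))))]
  (.c k9 (.l (.s k1 k2 0 (.s k15 k10 2 (.s k11 k7 1 (.s k165 k245 11 (.s k169 k253 13 (.d k90 k240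
  k248 14 12))))))) .n))

def s42_255_115 : T TT 256 :=
  (.q k5 [(.s k2 k1 0 (.s k10 k15 2 (.s k6 k14 1 (.s k4 k7 0 (.d k12 k8 k9 1 2))))), (.s k1 k2 0 (.s
  k13 k9 1 (.s k165 k245 11 (.s k89 k241 13 (.s k93 k81 1 (.d k253 k173 k169 11 13)))))), (.s k15
  k10 2 (.s k7 k11 1 (.s k165 k245 11 (.s k86 k244 12 (.s k84 k87 0 (.d k252 k168 k169 13 14))))))]
  (.c k9 (.l (.s k1 k2 0 (.s k15 k10 2 (.s k11 k7 1 (.s k165 k245 11 (.s k169 k253 13 (.d k90 k240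
  k248 14 12))))))) .n))

def s42_255_116 : T TT 256 :=
  (.q k5 [(.s k2 k1 0 (.s k10 k15 2 (.s k6 k14 1 (.s k4 k7 0 (.d k12 k8 k9 1 2))))), (.s k1 k2 0 (.s
  k13 k9 1 (.s k165 k245 11 (.s k89 k241 13 (.s k93 k81 1 (.d k253 k173 k169 11 13)))))), (.s k15
  k10 2 (.s k7 k11 1 (.s k165 k245 11 (.s k86 k244 12 (.s k84 k87 0 (.d k252 k168 k169 13 14))))))]
  (.c k9 (.l (.s k1 k2 0 (.s k15 k10 2 (.s k11 k7 1 (.s k165 k245 11 (.s k169 k253 13 (.d k90 k240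
  k248 14 12))))))) .n))

def s42_255_117 : T TT 256 :=
  (.q k48 [(.s k2 k1 0 (.s k16 k32 3 (.s k18 k33 4 (.s k17 k19 0 (.d k34 k50 k51 3 4))))), (.s k1 k2
  0 (.s k33 k18 4 (.s k169 k253 13 (.s k101 k237 9 (.s k154 k207 14 (.s k184 k139 4 (.d k252 k116
  k86 9 14))))))), (.s k16 k32 3 (.s k18 k33 4 (.s k154 k223 10 (.s k86 k222 9 (.s k84 k87 0 (.d
  k252 k168 k169 13 14)))))), (.s k1 k2 0 (.s k16 k32 3 (.s k154 k223 10 (.s k169 k253 13 (.s k139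
  k184 4 (.d k207 k71 k101 9 14))))))] .n)

def s42_255_118 : T TT 256 :=
  (.q k5 [(.s k2 k1 0 (.s k10 k15 2 (.s k6 k14 1 (.s k4 k7 0 (.d k12 k8 k9 1 2))))), (.s k1 k2 0 (.s
  k13 k9 1 (.s k165 k245 11 (.s k89 k241 13 (.s k93 k81 1 (.d k253 k173 k169 11 13)))))), (.s k15
  k10 2 (.s k7 k11 1 (.s k165 k245 11 (.s k86 k244 12 (.s k84 k87 0 (.d k252 k168 k169 13 14))))))]
  (.c k9 (.l (.s k1 k2 0 (.s k15 k10 2 (.s k11 k7 1 (.s k165 k245 11 (.s k169 k253 13 (.d k90 k240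
  k248 14 12))))))) .n))

def s42_255_119 : T TT 256 :=
  (.q k51 [(.s k2 k1 0 (.s k34 k17 4 (.s k18 k50 3 (.s k33 k48 4 (.d k35 k32 k19 0 3))))), (.s k1 k2
  0 (.s k35 k19 3 (.s k169 k253 13 (.s k102 k236 10 (.s k153 k204 14 (.s k185 k137 3 (.d k252 k118
  k86 10 14))))))), (.s k17 k34 4 (.s k19 k35 3 (.s k153 k221 9 (.s k86 k220 10 (.s k84 k87 0 (.d
  k252 k168 k169 13 14)))))), (.s k1 k2 0 (.s k17 k34 4 (.s k153 k221 9 (.s k169 k253 13 (.s k137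
  k185 3 (.d k204 k70 k102 10 14))))))] .n)

def s42_255_120 : T TT 256 :=
  (.q k5 [(.s k2 k1 0 (.s k10 k15 2 (.s k6 k14 1 (.s k4 k7 0 (.d k12 k8 k9 1 2))))), (.s k1 k2 0 (.s
  k13 k9 1 (.s k165 k245 11 (.s k89 k241 13 (.s k93 k81 1 (.d k253 k173 k169 11 13)))))), (.s k15
  k10 2 (.s k7 k11 1 (.s k165 k245 11 (.s k86 k244 12 (.s k84 k87 0 (.d k252 k168 k169 13 14))))))]
  (.c k9 (.l (.s k1 k2 0 (.s k15 k10 2 (.s k11 k7 1 (.s k165 k245 11 (.s k169 k253 13 (.d k90 k240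
  k248 14 12))))))) .n))

def s42_255_121 : T TT 256 :=
  (.q k5 [(.s k2 k1 0 (.s k10 k15 2 (.s k6 k14 1 (.s k4 k7 0 (.d k12 k8 k9 1 2))))), (.s k1 k2 0 (.s
  k13 k9 1 (.s k165 k245 11 (.s k89 k241 13 (.s k93 k81 1 (.d k253 k173 k169 11 13)))))), (.s k15
  k10 2 (.s k7 k11 1 (.s k165 k245 11 (.s k86 k244 12 (.s k84 k87 0 (.d k252 k168 k169 13 14))))))]
  (.c k9 (.l (.s k1 k2 0 (.s k15 k10 2 (.s k11 k7 1 (.s k165 k245 11 (.s k169 k253 13 (.d k90 k240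
  k248 14 12))))))) .n))

def s42_255_122 : T TT 256 :=
  (.q k5 [(.s k2 k1 0 (.s k10 k15 2 (.s k6 k14 1 (.s k4 k7 0 (.d k12 k8 k9 1 2))))), (.s k1 k2 0 (.s
  k13 k9 1 (.s k165 k245 11 (.s k89 k241 13 (.s k93 k81 1 (.d k253 k173 k169 11 13)))))), (.s k15
  k10 2 (.s k7 k11 1 (.s k165 k245 11 (.s k86 k244 12 (.s k84 k87 0 (.d k252 k168 k169 13 14))))))]
  (.c k9 (.l (.s k1 k2 0 (.s k15 k10 2 (.s k11 k7 1 (.s k165 k245 11 (.s k169 k253 13 (.d k90 k240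
  k248 14 12))))))) .n))

def s42_255_123 : T TT 256 :=
  (.q k5 [(.s k2 k1 0 (.s k10 k15 2 (.s k6 k14 1 (.s k4 k7 0 (.d k12 k8 k9 1 2))))), (.s k1 k2 0 (.s
  k13 k9 1 (.s k165 k245 11 (.s k89 k241 13 (.s k93 k81 1 (.d k253 k173 k169 11 13)))))), (.s k15
  k10 2 (.s k7 k11 1 (.s k165 k245 11 (.s k86 k244 12 (.s k84 k87 0 (.d k252 k168 k169 13 14))))))]
  (.c k9 (.l (.s k1 k2 0 (.s k15 k10 2 (.s k11 k7 1 (.s k165 k245 11 (.s k169 k253 13 (.d k90 k240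
  k248 14 12))))))) .n))

def s42_255_124 : T TT 256 :=
  (.q k5 [(.s k2 k1 0 (.s k10 k15 2 (.s k6 k14 1 (.s k4 k7 0 (.d k12 k8 k9 1 2))))), (.s k1 k2 0 (.s
  k13 k9 1 (.s k165 k245 11 (.s k89 k241 13 (.s k93 k81 1 (.d k253 k173 k169 11 13)))))), (.s k15
  k10 2 (.s k7 k11 1 (.s k165 k245 11 (.s k86 k244 12 (.s k84 k87 0 (.d k252 k168 k169 13 14))))))]
  (.c k9 (.l (.s k1 k2 0 (.s k15 k10 2 (.s k11 k7 1 (.s k165 k245 11 (.s k169 k253 13 (.d k90 k240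
  k248 14 12))))))) .n))

def s42_255_125 : T TT 256 :=
  (.f k1 k2 0 (.q k60 [(.s k20 k40 5 (.s k150 k215 8 (.s k195 k105 14 (.s k131 k67 7 (.d k169 k188
  k253 6 13))))), (.s k20 k40 5 (.s k169 k253 13 (.s k252 k86 14 (.s k84 k168 13 (.s k124 k188 7 (.s
  k104 k64 5 (.d k148 k212 k192 7 13))))))), (.s k20 k40 5 (.s k150 k215 8 (.s k195 k105 14 (.s k65
  k130 8 (.s k67 k131 7 (.s k66 k64 0 (.d k129 k193 k192 7 8))))))), (.s k169 k253 13 (.s k252 k86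
  14 (.s k188 k124 7 (.s k150 k131 6 (.s k105 k195 14 (.d k41 k22 k233 6 7))))))] (.c k22 (.q k62
  [(.s k20 k40 5 (.s k150 k215 8 (.s k195 k105 14 (.s k131 k67 7 (.d k169 k188 k253 6 13))))), (.s
  k61 k63 0 (.s k21 k41 5 (.s k149 k213 7 (.s k169 k253 13 (.s k129 k189 5 (.d k193 k65 k105 7
  13)))))), (.s k20 k40 5 (.s k150 k215 8 (.s k106 k194 13 (.s k64 k127 6 (.s k192 k128 7 (.d k63
  k61 k149 0 14)))))), (.s k61 k63 0 (.s k41 k21 5 (.s k169 k253 13 (.s k105 k233 7 (.s k150 k195 14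
  (.s k188 k131 6 (.d k252 k124 k86 7 14)))))))] (.c k41 (.l (.s k169 k253 13 (.s k252 k86 14 (.s
  k188 k124 7 (.s k150 k131 6 (.d k20 k40 k215 5 8)))))) .n)) (.c k41 (.l (.s k169 k253 13 (.s k252
  k86 14 (.s k188 k124 7 (.s k150 k131 6 (.d k20 k40 k215 5 8)))))) (.c k62 (.l (.s k22 k41 6 (.s
  k169 k253 13 (.s k252 k86 14 (.s k188 k124 7 (.s k150 k131 6 (.d k20 k40 k215 5 8))))))) (.c k170
  (.l (.s k20 k40 5 (.s k150 k215 8 (.s k169 k253 13 (.s k131 k188 6 (.d k195 k105 k67 14 7))))))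
  .n))))))

def s42_255_126 : T TT 256 :=
  (.q k5 [(.s k2 k1 0 (.s k10 k15 2 (.s k6 k14 1 (.s k4 k7 0 (.d k12 k8 k9 1 2))))), (.s k1 k2 0 (.s
  k13 k9 1 (.s k165 k245 11 (.s k89 k241 13 (.s k93 k81 1 (.d k253 k173 k169 11 13)))))), (.s k15
  k10 2 (.s k7 k11 1 (.s k165 k245 11 (.s k86 k244 12 (.s k84 k87 0 (.d k252 k168 k169 13 14))))))]
  (.c k9 (.l (.s k1 k2 0 (.s k15 k10 2 (.s k11 k7 1 (.s k165 k245 11 (.s k169 k253 13 (.d k90 k240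
  k248 14 12))))))) .n))

def s42_255_127 : T TT 256 :=
  (.q k51 [(.s k2 k1 0 (.s k34 k17 4 (.s k18 k50 3 (.s k33 k48 4 (.d k35 k32 k19 0 3))))), (.s k1 k2
  0 (.s k35 k19 3 (.s k169 k253 13 (.s k102 k236 10 (.s k68 k119 4 (.d k204 k136 k153 9 14)))))),
  (.s k17 k34 4 (.s k19 k35 3 (.s k153 k221 9 (.s k86 k220 10 (.s k84 k87 0 (.d k252 k168 k169 13
  14)))))), (.s k1 k2 0 (.s k17 k34 4 (.s k153 k221 9 (.s k169 k253 13 (.s k137 k185 3 (.d k204 k70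
  k102 10 14))))))] (.c k63 (.q k191 [(.s k2 k1 0 (.s k35 k19 3 (.s k34 k17 4 (.s k33 k32 0 (.d k18
  k50 k48 3 4))))), (.s k1 k2 0 (.s k35 k19 3 (.s k169 k253 13 (.s k102 k236 10 (.s k68 k119 4 (.d
  k204 k136 k153 9 14)))))), (.s k17 k34 4 (.s k19 k35 3 (.s k153 k221 9 (.s k86 k220 10 (.s k84 k87
  0 (.d k252 k168 k169 13 14)))))), (.s k1 k2 0 (.s k17 k34 4 (.s k153 k221 9 (.s k169 k253 13 (.s
  k137 k185 3 (.d k204 k70 k102 10 14))))))] .n) (.c k191 (.q k63 [(.s k2 k1 0 (.s k34 k17 4 (.s k18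
  k50 3 (.s k33 k48 4 (.d k35 k32 k19 0 3))))), (.s k19 k35 3 (.s k23 k43 5 (.s k27 k31 1 (.s k39
  k15 5 (.d k55 k59 k7 1 3))))), (.s k1 k2 0 (.s k17 k34 4 (.s k153 k221 9 (.s k169 k253 13 (.s k137
  k185 3 (.d k204 k70 k102 10 14))))))] .n) .n)))

def s42_255_128 : T TT 256 :=
  (.q k5 [(.s k2 k1 0 (.s k10 k15 2 (.s k6 k14 1 (.s k4 k7 0 (.d k12 k8 k9 1 2))))), (.s k1 k2 0 (.s
  k13 k9 1 (.s k165 k245 11 (.s k89 k241 13 (.s k93 k81 1 (.d k253 k173 k169 11 13)))))), (.s k15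
  k10 2 (.s k7 k11 1 (.s k165 k245 11 (.s k86 k244 12 (.s k84 k87 0 (.d k252 k168 k169 13 14))))))]
  (.c k9 (.l (.s k1 k2 0 (.s k15 k10 2 (.s k11 k7 1 (.s k165 k245 11 (.s k169 k253 13 (.d k90 k240
  k248 14 12))))))) .n))

def s42_255_129 : T TT 256 :=
  (.q k5 [(.s k1 k2 0 (.s k9 k13 1 (.s k6 k12 2 (.s k7 k4 0 (.d k15 k11 k10 1 2))))), (.s k15 k10 2
  (.s k7 k11 1 (.s k165 k245 11 (.s k86 k244 12 (.s k84 k87 0 (.d k252 k168 k169 13 14)))))), (.s k1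
  k2 0 (.s k13 k9 1 (.s k165 k245 11 (.s k89 k241 13 (.s k93 k81 1 (.d k253 k173 k169 11 13))))))]
  (.c k9 (.l (.s k1 k2 0 (.s k15 k10 2 (.s k11 k7 1 (.s k165 k245 11 (.s k169 k253 13 (.d k90 k240
  k248 14 12))))))) .n))

def s42_255_130 : T TT 256 :=
  (.q k5 [(.s k2 k1 0 (.s k10 k15 2 (.s k6 k14 1 (.s k4 k7 0 (.d k12 k8 k9 1 2))))), (.s k1 k2 0 (.s
  k13 k9 1 (.s k165 k245 11 (.s k89 k241 13 (.s k93 k81 1 (.d k253 k173 k169 11 13)))))), (.s k15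
  k10 2 (.s k7 k11 1 (.s k165 k245 11 (.s k86 k244 12 (.s k84 k87 0 (.d k252 k168 k169 13 14))))))]
  (.c k9 (.l (.s k1 k2 0 (.s k15 k10 2 (.s k11 k7 1 (.s k165 k245 11 (.s k169 k253 13 (.d k90 k240
  k248 14 12))))))) .n))

def s42_255_131 : T TT 256 :=
  (.q k5 [(.s k2 k1 0 (.s k10 k15 2 (.s k6 k14 1 (.s k4 k7 0 (.d k12 k8 k9 1 2))))), (.s k1 k2 0 (.s
  k13 k9 1 (.s k165 k245 11 (.s k89 k241 13 (.s k93 k81 1 (.d k253 k173 k169 11 13)))))), (.s k15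
  k10 2 (.s k7 k11 1 (.s k165 k245 11 (.s k86 k244 12 (.s k84 k87 0 (.d k252 k168 k169 13 14))))))]
  (.c k9 (.l (.s k1 k2 0 (.s k15 k10 2 (.s k11 k7 1 (.s k165 k245 11 (.s k169 k253 13 (.d k90 k240
  k248 14 12))))))) .n))

def s42_255_132 : T TT 256 :=
  (.q k5 [(.s k2 k1 0 (.s k10 k15 2 (.s k6 k14 1 (.s k4 k7 0 (.d k12 k8 k9 1 2))))), (.s k1 k2 0 (.s
  k13 k9 1 (.s k165 k245 11 (.s k89 k241 13 (.s k93 k81 1 (.d k253 k173 k169 11 13)))))), (.s k15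
  k10 2 (.s k7 k11 1 (.s k165 k245 11 (.s k86 k244 12 (.s k84 k87 0 (.d k252 k168 k169 13 14))))))]
  (.c k9 (.l (.s k1 k2 0 (.s k15 k10 2 (.s k11 k7 1 (.s k165 k245 11 (.s k169 k253 13 (.d k90 k240
  k248 14 12))))))) .n))

def s42_255_133 : T TT 256 :=
  (.q k5 [(.s k2 k1 0 (.s k10 k15 2 (.s k6 k14 1 (.s k12 k9 2 (.d k4 k7 k8 0 1))))), (.s k1 k2 0 (.s
  k13 k9 1 (.s k165 k245 11 (.s k89 k241 13 (.s k93 k81 1 (.d k253 k173 k169 11 13)))))), (.s k15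
  k10 2 (.s k7 k11 1 (.s k165 k245 11 (.s k86 k244 12 (.s k84 k87 0 (.d k252 k168 k169 13 14))))))]
  (.c k9 (.l (.s k1 k2 0 (.s k15 k10 2 (.s k11 k7 1 (.s k165 k245 11 (.s k169 k253 13 (.d k90 k240
  k248 14 12))))))) .n))

def s42_255_134 : T TT 256 :=
  (.q k5 [(.s k1 k2 0 (.s k9 k13 1 (.s k10 k15 2 (.s k8 k11 0 (.d k12 k4 k6 1 2))))), (.s k15 k10 2
  (.s k7 k11 1 (.s k165 k245 11 (.s k86 k244 12 (.s k84 k87 0 (.d k252 k168 k169 13 14)))))), (.s k1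
  k2 0 (.s k13 k9 1 (.s k165 k245 11 (.s k89 k241 13 (.s k93 k81 1 (.d k253 k173 k169 11 13))))))]
  (.c k9 (.l (.s k1 k2 0 (.s k15 k10 2 (.s k11 k7 1 (.s k165 k245 11 (.s k169 k253 13 (.d k90 k240
  k248 14 12))))))) .n))

def s42_255_135 : T TT 256 :=
  (.q k5 [(.s k1 k2 0 (.s k9 k13 1 (.s k6 k12 2 (.s k7 k4 0 (.d k15 k11 k10 1 2))))), (.s k15 k10 2
  (.s k7 k11 1 (.s k165 k245 11 (.s k86 k244 12 (.s k84 k87 0 (.d k252 k168 k169 13 14)))))), (.s k1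
  k2 0 (.s k13 k9 1 (.s k165 k245 11 (.s k89 k241 13 (.s k93 k81 1 (.d k253 k173 k169 11 13))))))]
  (.c k9 (.l (.s k1 k2 0 (.s k15 k10 2 (.s k11 k7 1 (.s k165 k245 11 (.s k169 k253 13 (.d k90 k240
  k248 14 12))))))) .n))

def s42_255_136 : T TT 256 :=
  (.q k5 [(.s k2 k1 0 (.s k10 k15 2 (.s k6 k14 1 (.s k4 k7 0 (.d k12 k8 k9 1 2))))), (.s k1 k2 0 (.s
  k13 k9 1 (.s k165 k245 11 (.s k89 k241 13 (.s k93 k81 1 (.d k253 k173 k169 11 13)))))), (.s k15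
  k10 2 (.s k7 k11 1 (.s k165 k245 11 (.s k86 k244 12 (.s k84 k87 0 (.d k252 k168 k169 13 14))))))]
  (.c k9 (.l (.s k1 k2 0 (.s k15 k10 2 (.s k11 k7 1 (.s k165 k245 11 (.s k169 k253 13 (.d k90 k240
  k248 14 12))))))) .n))

def s42_255_137 : T TT 256 :=
  (.q k5 [(.s k1 k2 0 (.s k9 k13 1 (.s k6 k12 2 (.s k7 k4 0 (.d k15 k11 k10 1 2))))), (.s k15 k10 2
  (.s k7 k11 1 (.s k165 k245 11 (.s k86 k244 12 (.s k84 k87 0 (.d k252 k168 k169 13 14)))))), (.s k1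
  k2 0 (.s k13 k9 1 (.s k165 k245 11 (.s k89 k241 13 (.s k93 k81 1 (.d k253 k173 k169 11 13))))))]
  (.c k9 (.l (.s k1 k2 0 (.s k15 k10 2 (.s k11 k7 1 (.s k165 k245 11 (.s k169 k253 13 (.d k90 k240
  k248 14 12))))))) .n))

def s42_255_138 : T TT 256 :=
  (.q k5 [(.s k2 k1 0 (.s k10 k15 2 (.s k6 k14 1 (.s k4 k7 0 (.d k12 k8 k9 1 2))))), (.s k1 k2 0 (.s
  k13 k9 1 (.s k165 k245 11 (.s k89 k241 13 (.s k93 k81 1 (.d k253 k173 k169 11 13)))))), (.s k15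
  k10 2 (.s k7 k11 1 (.s k165 k245 11 (.s k86 k244 12 (.s k84 k87 0 (.d k252 k168 k169 13 14))))))]
  (.c k9 (.l (.s k1 k2 0 (.s k15 k10 2 (.s k11 k7 1 (.s k165 k245 11 (.s k169 k253 13 (.d k90 k240
  k248 14 12))))))) .n))

def s42_255_139 : T TT 256 :=
  (.q k5 [(.s k2 k1 0 (.s k10 k15 2 (.s k6 k14 1 (.s k4 k7 0 (.d k12 k8 k9 1 2))))), (.s k1 k2 0 (.s
  k13 k9 1 (.s k165 k245 11 (.s k89 k241 13 (.s k93 k81 1 (.d k253 k173 k169 11 13)))))), (.s k15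
  k10 2 (.s k7 k11 1 (.s k165 k245 11 (.s k86 k244 12 (.s k84 k87 0 (.d k252 k168 k169 13 14))))))]
  (.c k9 (.l (.s k1 k2 0 (.s k15 k10 2 (.s k11 k7 1 (.s k165 k245 11 (.s k169 k253 13 (.d k90 k240
  k248 14 12))))))) .n))

def s42_255_140 : T TT 256 :=
  (.q k5 [(.s k2 k1 0 (.s k10 k15 2 (.s k6 k14 1 (.s k4 k7 0 (.d k12 k8 k9 1 2))))), (.s k1 k2 0 (.s
  k13 k9 1 (.s k165 k245 11 (.s k89 k241 13 (.s k93 k81 1 (.d k253 k173 k169 11 13)))))), (.s k15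
  k10 2 (.s k7 k11 1 (.s k165 k245 11 (.s k86 k244 12 (.s k84 k87 0 (.d k252 k168 k169 13 14))))))]
  (.c k9 (.l (.s k1 k2 0 (.s k15 k10 2 (.s k11 k7 1 (.s k165 k245 11 (.s k169 k253 13 (.d k90 k240
  k248 14 12))))))) .n))

def s42_255_141 : T TT 256 :=
  (.q k5 [(.s k2 k1 0 (.s k10 k15 2 (.s k6 k14 1 (.s k4 k7 0 (.d k12 k8 k9 1 2))))), (.s k1 k2 0 (.s
  k13 k9 1 (.s k165 k245 11 (.s k89 k241 13 (.s k93 k81 1 (.d k253 k173 k169 11 13)))))), (.s k15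
  k10 2 (.s k7 k11 1 (.s k165 k245 11 (.s k86 k244 12 (.s k84 k87 0 (.d k252 k168 k169 13 14))))))]
  (.c k9 (.l (.s k1 k2 0 (.s k15 k10 2 (.s k11 k7 1 (.s k165 k245 11 (.s k169 k253 13 (.d k90 k240
  k248 14 12))))))) .n))

def s42_255_142 : T TT 256 :=
  (.q k5 [(.s k1 k2 0 (.s k9 k13 1 (.s k10 k15 2 (.s k8 k11 0 (.d k12 k4 k6 1 2))))), (.s k15 k10 2
  (.s k7 k11 1 (.s k165 k245 11 (.s k86 k244 12 (.s k84 k87 0 (.d k252 k168 k169 13 14)))))), (.s k1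
  k2 0 (.s k13 k9 1 (.s k165 k245 11 (.s k89 k241 13 (.s k93 k81 1 (.d k253 k173 k169 11 13))))))]
  (.c k9 (.l (.s k1 k2 0 (.s k15 k10 2 (.s k11 k7 1 (.s k165 k245 11 (.s k169 k253 13 (.d k90 k240
  k248 14 12))))))) .n))

def s42_255_143 : T TT 256 :=
  (.q k5 [(.s k1 k2 0 (.s k9 k13 1 (.s k6 k12 2 (.s k7 k4 0 (.d k15 k11 k10 1 2))))), (.s k15 k10 2
  (.s k7 k11 1 (.s k165 k245 11 (.s k86 k244 12 (.s k84 k87 0 (.d k252 k168 k169 13 14)))))), (.s k1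
  k2 0 (.s k13 k9 1 (.s k165 k245 11 (.s k89 k241 13 (.s k93 k81 1 (.d k253 k173 k169 11 13))))))]
  (.c k9 (.l (.s k1 k2 0 (.s k15 k10 2 (.s k11 k7 1 (.s k165 k245 11 (.s k169 k253 13 (.d k90 k240
  k248 14 12))))))) .n))

def s42_255_144 : T TT 256 :=
  (.q k5 [(.s k2 k1 0 (.s k10 k15 2 (.s k6 k14 1 (.s k4 k7 0 (.d k12 k8 k9 1 2))))), (.s k1 k2 0 (.s
  k13 k9 1 (.s k165 k245 11 (.s k89 k241 13 (.s k93 k81 1 (.d k253 k173 k169 11 13)))))), (.s k15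
  k10 2 (.s k7 k11 1 (.s k165 k245 11 (.s k86 k244 12 (.s k84 k87 0 (.d k252 k168 k169 13 14))))))]
  (.c k9 (.l (.s k1 k2 0 (.s k15 k10 2 (.s k11 k7 1 (.s k165 k245 11 (.s k169 k253 13 (.d k90 k240
  k248 14 12))))))) .n))

def s42_255_145 : T TT 256 :=
  (.q k5 [(.s k2 k1 0 (.s k10 k15 2 (.s k6 k14 1 (.s k4 k7 0 (.d k12 k8 k9 1 2))))), (.s k1 k2 0 (.s
  k13 k9 1 (.s k165 k245 11 (.s k89 k241 13 (.s k93 k81 1 (.d k253 k173 k169 11 13)))))), (.s k15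
  k10 2 (.s k7 k11 1 (.s k165 k245 11 (.s k86 k244 12 (.s k84 k87 0 (.d k252 k168 k169 13 14))))))]
  (.c k9 (.l (.s k1 k2 0 (.s k15 k10 2 (.s k11 k7 1 (.s k165 k245 11 (.s k169 k253 13 (.d k90 k240
  k248 14 12))))))) .n))

def s42_255_146 : T TT 256 :=
  (.q k5 [(.s k2 k1 0 (.s k10 k15 2 (.s k6 k14 1 (.s k4 k7 0 (.d k12 k8 k9 1 2))))), (.s k1 k2 0 (.s
  k13 k9 1 (.s k165 k245 11 (.s k89 k241 13 (.s k93 k81 1 (.d k253 k173 k169 11 13)))))), (.s k15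
  k10 2 (.s k7 k11 1 (.s k165 k245 11 (.s k86 k244 12 (.s k84 k87 0 (.d k252 k168 k169 13 14))))))]
  (.c k9 (.l (.s k1 k2 0 (.s k15 k10 2 (.s k11 k7 1 (.s k165 k245 11 (.s k169 k253 13 (.d k90 k240
  k248 14 12))))))) .n))

def s42_255_147 : T TT 256 :=
  (.q k5 [(.s k2 k1 0 (.s k10 k15 2 (.s k6 k14 1 (.s k4 k7 0 (.d k12 k8 k9 1 2))))), (.s k1 k2 0 (.s
  k13 k9 1 (.s k165 k245 11 (.s k89 k241 13 (.s k93 k81 1 (.d k253 k173 k169 11 13)))))), (.s k15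
  k10 2 (.s k7 k11 1 (.s k165 k245 11 (.s k86 k244 12 (.s k84 k87 0 (.d k252 k168 k169 13 14))))))]
  (.c k9 (.l (.s k1 k2 0 (.s k15 k10 2 (.s k11 k7 1 (.s k165 k245 11 (.s k169 k253 13 (.d k90 k240
  k248 14 12))))))) .n))

def s42_255_148 : T TT 256 :=
  (.q k5 [(.s k2 k1 0 (.s k10 k15 2 (.s k6 k14 1 (.s k4 k7 0 (.d k12 k8 k9 1 2))))), (.s k1 k2 0 (.s
  k13 k9 1 (.s k165 k245 11 (.s k89 k241 13 (.s k93 k81 1 (.d k253 k173 k169 11 13)))))), (.s k15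
  k10 2 (.s k7 k11 1 (.s k165 k245 11 (.s k86 k244 12 (.s k84 k87 0 (.d k252 k168 k169 13 14))))))]
  (.c k9 (.l (.s k1 k2 0 (.s k15 k10 2 (.s k11 k7 1 (.s k165 k245 11 (.s k169 k253 13 (.d k90 k240
  k248 14 12))))))) .n))

def s42_255_149 : T TT 256 :=
  (.q k5 [(.s k2 k1 0 (.s k10 k15 2 (.s k6 k14 1 (.s k4 k7 0 (.d k12 k8 k9 1 2))))), (.s k1 k2 0 (.s
  k13 k9 1 (.s k165 k245 11 (.s k89 k241 13 (.s k93 k81 1 (.d k253 k173 k169 11 13)))))), (.s k15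
  k10 2 (.s k7 k11 1 (.s k165 k245 11 (.s k86 k244 12 (.s k84 k87 0 (.d k252 k168 k169 13 14))))))]
  (.c k9 (.l (.s k1 k2 0 (.s k15 k10 2 (.s k11 k7 1 (.s k165 k245 11 (.s k169 k253 13 (.d k90 k240
  k248 14 12))))))) .n))

def s42_255_150 : T TT 256 :=
  (.q k5 [(.s k2 k1 0 (.s k10 k15 2 (.s k6 k14 1 (.s k4 k7 0 (.d k12 k8 k9 1 2))))), (.s k1 k2 0 (.s
  k13 k9 1 (.s k165 k245 11 (.s k89 k241 13 (.s k93 k81 1 (.d k253 k173 k169 11 13)))))), (.s k15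
  k10 2 (.s k7 k11 1 (.s k165 k245 11 (.s k86 k244 12 (.s k84 k87 0 (.d k252 k168 k169 13 14))))))]
  (.c k9 (.l (.s k1 k2 0 (.s k15 k10 2 (.s k11 k7 1 (.s k165 k245 11 (.s k169 k253 13 (.d k90 k240
  k248 14 12))))))) .n))

def s42_255_151 : T TT 256 :=
  (.q k5 [(.s k2 k1 0 (.s k10 k15 2 (.s k6 k14 1 (.s k4 k7 0 (.d k12 k8 k9 1 2))))), (.s k1 k2 0 (.s
  k13 k9 1 (.s k165 k245 11 (.s k89 k241 13 (.s k93 k81 1 (.d k253 k173 k169 11 13)))))), (.s k15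
  k10 2 (.s k7 k11 1 (.s k165 k245 11 (.s k86 k244 12 (.s k84 k87 0 (.d k252 k168 k169 13 14))))))]
  (.c k9 (.l (.s k1 k2 0 (.s k15 k10 2 (.s k11 k7 1 (.s k165 k245 11 (.s k169 k253 13 (.d k90 k240
  k248 14 12))))))) .n))

def s42_255_152 : T TT 256 :=
  (.q k5 [(.s k2 k1 0 (.s k10 k15 2 (.s k6 k14 1 (.s k4 k7 0 (.d k12 k8 k9 1 2))))), (.s k1 k2 0 (.s
  k13 k9 1 (.s k165 k245 11 (.s k89 k241 13 (.s k93 k81 1 (.d k253 k173 k169 11 13)))))), (.s k15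
  k10 2 (.s k7 k11 1 (.s k165 k245 11 (.s k86 k244 12 (.s k84 k87 0 (.d k252 k168 k169 13 14))))))]
  (.c k9 (.l (.s k1 k2 0 (.s k15 k10 2 (.s k11 k7 1 (.s k165 k245 11 (.s k169 k253 13 (.d k90 k240
  k248 14 12))))))) .n))

def s42_255_153 : T TT 256 :=
  (.q k5 [(.s k2 k1 0 (.s k10 k15 2 (.s k6 k14 1 (.s k4 k7 0 (.d k12 k8 k9 1 2))))), (.s k1 k2 0 (.s
  k13 k9 1 (.s k165 k245 11 (.s k89 k241 13 (.s k93 k81 1 (.d k253 k173 k169 11 13)))))), (.s k15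
  k10 2 (.s k7 k11 1 (.s k165 k245 11 (.s k86 k244 12 (.s k84 k87 0 (.d k252 k168 k169 13 14))))))]
  (.c k9 (.l (.s k1 k2 0 (.s k15 k10 2 (.s k11 k7 1 (.s k165 k245 11 (.s k169 k253 13 (.d k90 k240
  k248 14 12))))))) .n))

def s42_255_154 : T TT 256 :=
  (.q k5 [(.s k2 k1 0 (.s k10 k15 2 (.s k6 k14 1 (.s k4 k7 0 (.d k12 k8 k9 1 2))))), (.s k1 k2 0 (.s
  k13 k9 1 (.s k165 k245 11 (.s k89 k241 13 (.s k93 k81 1 (.d k253 k173 k169 11 13)))))), (.s k15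
  k10 2 (.s k7 k11 1 (.s k165 k245 11 (.s k86 k244 12 (.s k84 k87 0 (.d k252 k168 k169 13 14))))))]
  (.c k9 (.l (.s k1 k2 0 (.s k15 k10 2 (.s k11 k7 1 (.s k165 k245 11 (.s k169 k253 13 (.d k90 k240
  k248 14 12))))))) .n))

def s42_255_155 : T TT 256 :=
  (.q k5 [(.s k2 k1 0 (.s k10 k15 2 (.s k6 k14 1 (.s k4 k7 0 (.d k12 k8 k9 1 2))))), (.s k1 k2 0 (.s
  k13 k9 1 (.s k165 k245 11 (.s k89 k241 13 (.s k93 k81 1 (.d k253 k173 k169 11 13)))))), (.s k15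
  k10 2 (.s k7 k11 1 (.s k165 k245 11 (.s k86 k244 12 (.s k84 k87 0 (.d k252 k168 k169 13 14))))))]
  (.c k9 (.l (.s k1 k2 0 (.s k15 k10 2 (.s k11 k7 1 (.s k165 k245 11 (.s k169 k253 13 (.d k90 k240
  k248 14 12))))))) .n))

def s42_255_156 : T TT 256 :=
  (.q k5 [(.s k2 k1 0 (.s k10 k15 2 (.s k6 k14 1 (.s k4 k7 0 (.d k12 k8 k9 1 2))))), (.s k1 k2 0 (.s
  k13 k9 1 (.s k165 k245 11 (.s k89 k241 13 (.s k93 k81 1 (.d k253 k173 k169 11 13)))))), (.s k15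
  k10 2 (.s k7 k11 1 (.s k165 k245 11 (.s k86 k244 12 (.s k84 k87 0 (.d k252 k168 k169 13 14))))))]
  (.c k9 (.l (.s k1 k2 0 (.s k15 k10 2 (.s k11 k7 1 (.s k165 k245 11 (.s k169 k253 13 (.d k90 k240
  k248 14 12))))))) .n))

def s42_255_157 : T TT 256 :=
  (.q k5 [(.s k2 k1 0 (.s k10 k15 2 (.s k6 k14 1 (.s k4 k7 0 (.d k12 k8 k9 1 2))))), (.s k1 k2 0 (.s
  k13 k9 1 (.s k165 k245 11 (.s k89 k241 13 (.s k93 k81 1 (.d k253 k173 k169 11 13)))))), (.s k15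
  k10 2 (.s k7 k11 1 (.s k165 k245 11 (.s k86 k244 12 (.s k84 k87 0 (.d k252 k168 k169 13 14))))))]
  (.c k9 (.l (.s k1 k2 0 (.s k15 k10 2 (.s k11 k7 1 (.s k165 k245 11 (.s k169 k253 13 (.d k90 k240
  k248 14 12))))))) .n))

def s42_255_158 : T TT 256 :=
  (.q k5 [(.s k2 k1 0 (.s k10 k15 2 (.s k6 k14 1 (.s k4 k7 0 (.d k12 k8 k9 1 2))))), (.s k1 k2 0 (.s
  k13 k9 1 (.s k165 k245 11 (.s k89 k241 13 (.s k93 k81 1 (.d k253 k173 k169 11 13)))))), (.s k15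
  k10 2 (.s k7 k11 1 (.s k165 k245 11 (.s k86 k244 12 (.s k84 k87 0 (.d k252 k168 k169 13 14))))))]
  (.c k9 (.l (.s k1 k2 0 (.s k15 k10 2 (.s k11 k7 1 (.s k165 k245 11 (.s k169 k253 13 (.d k90 k240
  k248 14 12))))))) .n))

def s42_255_159 : T TT 256 :=
  (.q k5 [(.s k2 k1 0 (.s k10 k15 2 (.s k6 k14 1 (.s k4 k7 0 (.d k12 k8 k9 1 2))))), (.s k1 k2 0 (.s
  k13 k9 1 (.s k165 k245 11 (.s k89 k241 13 (.s k93 k81 1 (.d k253 k173 k169 11 13)))))), (.s k15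
  k10 2 (.s k7 k11 1 (.s k165 k245 11 (.s k86 k244 12 (.s k84 k87 0 (.d k252 k168 k169 13 14))))))]
  (.c k9 (.l (.s k1 k2 0 (.s k15 k10 2 (.s k11 k7 1 (.s k165 k245 11 (.s k169 k253 13 (.d k90 k240
  k248 14 12))))))) .n))

def s42_255_160 : T TT 256 :=
  (.q k5 [(.s k2 k1 0 (.s k10 k15 2 (.s k6 k14 1 (.s k4 k7 0 (.d k12 k8 k9 1 2))))), (.s k1 k2 0 (.s
  k13 k9 1 (.s k165 k245 11 (.s k89 k241 13 (.s k93 k81 1 (.d k253 k173 k169 11 13)))))), (.s k15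
  k10 2 (.s k7 k11 1 (.s k165 k245 11 (.s k86 k244 12 (.s k84 k87 0 (.d k252 k168 k169 13 14))))))]
  (.c k9 (.l (.s k1 k2 0 (.s k15 k10 2 (.s k11 k7 1 (.s k165 k245 11 (.s k169 k253 13 (.d k90 k240
  k248 14 12))))))) .n))

def s42_255_161 : T TT 256 :=
  (.q k5 [(.s k1 k2 0 (.s k9 k13 1 (.s k6 k12 2 (.s k7 k4 0 (.d k15 k11 k10 1 2))))), (.s k15 k10 2
  (.s k7 k11 1 (.s k165 k245 11 (.s k86 k244 12 (.s k84 k87 0 (.d k252 k168 k169 13 14)))))), (.s k1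
  k2 0 (.s k13 k9 1 (.s k165 k245 11 (.s k89 k241 13 (.s k93 k81 1 (.d k253 k173 k169 11 13))))))]
  (.c k9 (.l (.s k1 k2 0 (.s k15 k10 2 (.s k11 k7 1 (.s k165 k245 11 (.s k169 k253 13 (.d k90 k240
  k248 14 12))))))) .n))

def s42_255_162 : T TT 256 :=
  (.q k5 [(.s k2 k1 0 (.s k10 k15 2 (.s k6 k14 1 (.s k4 k7 0 (.d k12 k8 k9 1 2))))), (.s k1 k2 0 (.s
  k13 k9 1 (.s k165 k245 11 (.s k89 k241 13 (.s k93 k81 1 (.d k253 k173 k169 11 13)))))), (.s k15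
  k10 2 (.s k7 k11 1 (.s k165 k245 11 (.s k86 k244 12 (.s k84 k87 0 (.d k252 k168 k169 13 14))))))]
  (.c k9 (.l (.s k1 k2 0 (.s k15 k10 2 (.s k11 k7 1 (.s k165 k245 11 (.s k169 k253 13 (.d k90 k240
  k248 14 12))))))) .n))

def s42_255_163 : T TT 256 :=
  (.q k5 [(.s k2 k1 0 (.s k10 k15 2 (.s k6 k14 1 (.s k4 k7 0 (.d k12 k8 k9 1 2))))), (.s k1 k2 0 (.s
  k13 k9 1 (.s k165 k245 11 (.s k89 k241 13 (.s k93 k81 1 (.d k253 k173 k169 11 13)))))), (.s k15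
  k10 2 (.s k7 k11 1 (.s k165 k245 11 (.s k86 k244 12 (.s k84 k87 0 (.d k252 k168 k169 13 14))))))]
  (.c k9 (.l (.s k1 k2 0 (.s k15 k10 2 (.s k11 k7 1 (.s k165 k245 11 (.s k169 k253 13 (.d k90 k240
  k248 14 12))))))) .n))

def s42_255_164 : T TT 256 :=
  (.q k5 [(.s k2 k1 0 (.s k10 k15 2 (.s k6 k14 1 (.s k4 k7 0 (.d k12 k8 k9 1 2))))), (.s k1 k2 0 (.s
  k13 k9 1 (.s k165 k245 11 (.s k89 k241 13 (.s k93 k81 1 (.d k253 k173 k169 11 13)))))), (.s k15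
  k10 2 (.s k7 k11 1 (.s k165 k245 11 (.s k86 k244 12 (.s k84 k87 0 (.d k252 k168 k169 13 14))))))]
  (.c k9 (.l (.s k1 k2 0 (.s k15 k10 2 (.s k11 k7 1 (.s k165 k245 11 (.s k169 k253 13 (.d k90 k240
  k248 14 12))))))) .n))

def s42_255_165 : T TT 256 :=
  (.q k12 [(.s k2 k1 0 (.s k4 k8 1 (.s k6 k9 2 (.s k10 k14 1 (.d k5 k7 k15 0 2))))), (.s k1 k2 0 (.s
  k4 k8 1 (.s k166 k247 12 (.s k169 k253 13 (.s k163 k172 2 (.d k243 k83 k89 11 14)))))), (.s k1 k2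
  0 (.s k9 k6 2 (.s k169 k253 13 (.s k89 k249 11 (.s k81 k93 1 (.d k243 k162 k166 12 14)))))), (.s
  k4 k8 1 (.s k6 k9 2 (.s k166 k247 12 (.s k86 k246 11 (.s k84 k87 0 (.d k252 k168 k169 13 14))))))]
  .n)

def s42_255_166 : T TT 256 :=
  (.q k5 [(.s k1 k2 0 (.s k9 k13 1 (.s k10 k15 2 (.s k8 k11 0 (.d k12 k4 k6 1 2))))), (.s k15 k10 2
  (.s k7 k11 1 (.s k165 k245 11 (.s k86 k244 12 (.s k84 k87 0 (.d k252 k168 k169 13 14)))))), (.s k1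
  k2 0 (.s k13 k9 1 (.s k165 k245 11 (.s k89 k241 13 (.s k93 k81 1 (.d k253 k173 k169 11 13))))))]
  (.c k9 (.l (.s k1 k2 0 (.s k15 k10 2 (.s k11 k7 1 (.s k165 k245 11 (.s k169 k253 13 (.d k90 k240
  k248 14 12))))))) .n))

def s42_255_167 : T TT 256 :=
  (.q k5 [(.s k1 k2 0 (.s k9 k13 1 (.s k6 k12 2 (.s k7 k4 0 (.d k15 k11 k10 1 2))))), (.s k15 k10 2
  (.s k7 k11 1 (.s k165 k245 11 (.s k86 k244 12 (.s k84 k87 0 (.d k252 k168 k169 13 14)))))), (.s k1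
  k2 0 (.s k13 k9 1 (.s k165 k245 11 (.s k89 k241 13 (.s k93 k81 1 (.d k253 k173 k169 11 13))))))]
  (.c k9 (.l (.s k1 k2 0 (.s k15 k10 2 (.s k11 k7 1 (.s k165 k245 11 (.s k169 k253 13 (.d k90 k240
  k248 14 12))))))) .n))

def s42_255_168 : T TT 256 :=
  (.q k5 [(.s k2 k1 0 (.s k10 k15 2 (.s k6 k14 1 (.s k4 k7 0 (.d k12 k8 k9 1 2))))), (.s k1 k2 0 (.s
  k13 k9 1 (.s k165 k245 11 (.s k89 k241 13 (.s k93 k81 1 (.d k253 k173 k169 11 13)))))), (.s k15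
  k10 2 (.s k7 k11 1 (.s k165 k245 11 (.s k86 k244 12 (.s k87 k84 0 (.s k247 k167 11 (.d k4 k6 k166
  0 12)))))))] (.c k9 (.l (.s k1 k2 0 (.s k15 k10 2 (.s k11 k7 1 (.s k165 k245 11 (.s k169 k253 13
  (.d k90 k240 k248 14 12))))))) .n))

def s42_255_169 : T TT 256 :=
  (.f k2 k1 0 (.q k81 [(.s k162 k243 12 (.s k82 k242 11 (.s k80 k83 0 (.d k240 k160 k161 11 12)))),
  (.s k89 k93 1 (.s k243 k162 12 (.s k12 k166 14 (.s k4 k8 1 (.s k6 k9 2 (.s k5 k7 0 (.d k10 k14 k15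
  1 2)))))))] (.c k162 (.q k16 [(.s k48 k32 3 (.s k18 k33 4 (.s k17 k19 0 (.d k34 k50 k51 3 4)))),
  (.s k89 k93 1 (.s k154 k223 10 (.s k24 k219 8 (.s k28 k20 1 (.d k211 k146 k150 8 10)))))] .n) (.c
  k243 (.q k80 [(.s k82 k83 0 (.d k240 k160 k161 11 12)), (.s k83 k82 0 (.s k89 k93 1 (.s k86 k92 2
  (.s k87 k84 0 (.d k95 k91 k90 1 2))))), (.s k90 k95 2 (.s k240 k160 11 (.s k15 k165 14 (.s k10 k5
  2 (.s k6 k14 1 (.s k9 k12 2 (.d k11 k8 k7 0 1)))))))] (.c k247 (.q k251 [(.s k82 k83 0 (.d k240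
  k160 k161 11 12)), (.s k89 k93 1 (.s k170 k8 12 (.s k86 k254 13 (.s k84 k87 0 (.d k92 k88 k83 1
  2)))))] (.c k83 (.l (.s k89 k93 1 (.s k8 k170 12 (.s k12 k4 1 (.s k90 k95 2 (.s k240 k160 11 (.d
  k88 k91 k164 0 13))))))) .n)) (.c k251 (.q k247 [(.s k82 k83 0 (.d k240 k160 k161 11 12)), (.s k4
  k166 12 (.s k12 k8 1 (.s k6 k9 2 (.s k5 k7 0 (.d k10 k14 k15 1 2)))))] .n) .n))) .n))))

def s42_255_170 : T TT 256 :=
  (.q k89 [(.s k2 k1 0 (.s k81 k93 1 (.s k162 k243 12 (.s k82 k242 11 (.s k80 k83 0 (.d k240 k160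
  k161 11 12)))))), (.s k1 k2 0 (.s k93 k81 1 (.s k253 k169 13 (.s k13 k173 11 (.s k5 k9 1 (.d k165
  k245 k241 11 13)))))), (.s k81 k93 1 (.s k243 k162 12 (.s k83 k163 11 (.s k86 k92 2 (.s k84 k87 0
  (.d k252 k168 k169 13 14)))))), (.s k1 k2 0 (.s k169 k253 13 (.s k9 k249 11 (.s k12 k6 2 (.s k4 k8
  1 (.d k166 k247 k243 12 14))))))] (.c k106 (.q k234 [(.s k2 k1 0 (.s k81 k93 1 (.s k162 k243 12
  (.s k82 k242 11 (.s k80 k83 0 (.d k240 k160 k161 11 12)))))), (.s k1 k2 0 (.s k93 k81 1 (.s k253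
  k169 13 (.s k13 k173 11 (.s k5 k9 1 (.d k165 k245 k241 11 13)))))), (.s k81 k93 1 (.s k243 k162 12
  (.s k83 k163 11 (.s k86 k92 2 (.s k84 k87 0 (.d k252 k168 k169 13 14)))))), (.s k1 k2 0 (.s k169
  k253 13 (.s k9 k249 11 (.s k12 k6 2 (.s k4 k8 1 (.d k166 k247 k243 12 14))))))] .n) (.c k234 (.q
  k106 [(.s k93 k81 1 (.s k123 k72 4 (.s k127 k64 6 (.s k76 k110 4 (.d k115 k119 k102 1 6))))), (.s
  k1 k2 0 (.s k81 k93 1 (.s k161 k241 11 (.s k82 k240 12 (.s k83 k80 0 (.d k243 k163 k162 11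
  12)))))), (.s k1 k2 0 (.s k64 k127 6 (.s k169 k253 13 (.s k43 k232 8 (.s k63 k23 5 (.d k192 k128
  k149 7 14))))))] (.c k192 (.q k213 [(.s k64 k127 6 (.s k72 k123 4 (.s k76 k68 1 (.s k81 k93 1 (.d
  k115 k98 k102 4 6))))), (.s k1 k2 0 (.s k149 k21 7 (.s k169 k253 13 (.s k43 k232 8 (.s k23 k63 5
  (.d k86 k212 k252 8 14)))))), (.s k81 k93 1 (.s k149 k21 7 (.s k209 k29 9 (.s k17 k145 7 (.d k221
  k217 k153 1 9)))))] .n) (.c k213 (.q k192 [(.d k64 k127 k128 6 7), (.s k1 k2 0 (.s k66 k129 8 (.s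
  k86 k126 5 (.d k169 k253 k252 13 14))))] .n) .n))) .n)))

def s42_255_171 : T TT 256 :=
  (.q k5 [(.s k2 k1 0 (.s k10 k15 2 (.s k6 k14 1 (.s k4 k7 0 (.d k12 k8 k9 1 2))))), (.s k1 k2 0 (.s
  k13 k9 1 (.s k165 k245 11 (.s k89 k241 13 (.s k93 k81 1 (.d k253 k173 k169 11 13)))))), (.s k15
  k10 2 (.s k7 k11 1 (.s k165 k245 11 (.s k86 k244 12 (.s k84 k87 0 (.d k252 k168 k169 13 14))))))]
  (.c k9 (.l (.s k1 k2 0 (.s k15 k10 2 (.s k11 k7 1 (.s k165 k245 11 (.s k169 k253 13 (.d k90 k240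
  k248 14 12))))))) .n))

def s42_255_172 : T TT 256 :=
  (.q k5 [(.s k2 k1 0 (.s k10 k15 2 (.s k6 k14 1 (.s k4 k7 0 (.d k12 k8 k9 1 2))))), (.s k1 k2 0 (.s
  k13 k9 1 (.s k165 k245 11 (.s k89 k241 13 (.s k93 k81 1 (.d k253 k173 k169 11 13)))))), (.s k15
  k10 2 (.s k7 k11 1 (.s k165 k245 11 (.s k86 k244 12 (.s k84 k87 0 (.d k252 k168 k169 13 14))))))]
  (.c k9 (.l (.s k1 k2 0 (.s k15 k10 2 (.s k11 k7 1 (.s k165 k245 11 (.s k169 k253 13 (.d k90 k240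
  k248 14 12))))))) .n))

def s42_255_173 : T TT 256 :=
  (.q k12 [(.s k2 k1 0 (.s k4 k8 1 (.s k6 k9 2 (.s k10 k14 1 (.d k5 k7 k15 0 2))))), (.s k1 k2 0 (.s
  k9 k6 2 (.s k169 k253 13 (.s k89 k249 11 (.s k243 k166 14 (.d k81 k93 k162 1 12)))))), (.s k4 k8 1
  (.s k6 k9 2 (.s k166 k247 12 (.s k86 k246 11 (.s k84 k87 0 (.d k252 k168 k169 13 14)))))), (.s k1
  k2 0 (.s k4 k8 1 (.s k166 k247 12 (.s k169 k253 13 (.s k163 k172 2 (.d k243 k83 k89 11 14))))))]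
  .n)

def s42_255_174 : T TT 256 :=
  (.q k12 [(.s k1 k2 0 (.s k8 k4 1 (.s k9 k6 2 (.s k5 k13 1 (.d k10 k11 k15 0 2))))), (.s k1 k2 0
  (.s k4 k8 1 (.s k166 k247 12 (.s k169 k253 13 (.s k163 k172 2 (.d k243 k83 k89 11 14)))))), (.s k4
  k8 1 (.s k6 k9 2 (.s k166 k247 12 (.s k86 k246 11 (.s k84 k87 0 (.d k252 k168 k169 13 14)))))),
  (.s k1 k2 0 (.s k9 k6 2 (.s k169 k253 13 (.s k89 k249 11 (.s k81 k93 1 (.d k243 k162 k166 12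
  14))))))] .n)

def s42_255_175 : T TT 256 :=
  (.q k15 [(.s k2 k1 0 (.s k10 k5 2 (.s k6 k14 1 (.s k9 k12 2 (.d k11 k8 k7 0 1))))), (.s k1 k2 0
  (.s k11 k7 1 (.s k169 k253 13 (.s k90 k248 12 (.s k80 k95 2 (.d k240 k160 k165 11 14)))))), (.s k5
  k10 2 (.s k7 k11 1 (.s k165 k245 11 (.s k86 k244 12 (.s k84 k87 0 (.d k252 k168 k169 13 14)))))),
  (.s k1 k2 0 (.s k5 k10 2 (.s k165 k245 11 (.s k169 k253 13 (.s k161 k173 1 (.d k240 k82 k90 12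
  14))))))] .n)

def s42_255_176 : T TT 256 :=
  (.q k5 [(.s k2 k1 0 (.s k10 k15 2 (.s k6 k14 1 (.s k4 k7 0 (.d k12 k8 k9 1 2))))), (.s k1 k2 0 (.s
  k13 k9 1 (.s k165 k245 11 (.s k89 k241 13 (.s k93 k81 1 (.d k253 k173 k169 11 13)))))), (.s k15
  k10 2 (.s k7 k11 1 (.s k165 k245 11 (.s k86 k244 12 (.s k84 k87 0 (.d k252 k168 k169 13 14))))))]
  (.c k9 (.l (.s k1 k2 0 (.s k15 k10 2 (.s k11 k7 1 (.s k165 k245 11 (.s k169 k253 13 (.d k90 k240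
  k248 14 12))))))) .n))

def s42_255_177 : T TT 256 :=
  (.q k5 [(.s k2 k1 0 (.s k10 k15 2 (.s k6 k14 1 (.s k4 k7 0 (.d k12 k8 k9 1 2))))), (.s k1 k2 0 (.s
  k13 k9 1 (.s k165 k245 11 (.s k89 k241 13 (.s k93 k81 1 (.d k253 k173 k169 11 13)))))), (.s k15
  k10 2 (.s k7 k11 1 (.s k165 k245 11 (.s k86 k244 12 (.s k84 k87 0 (.d k252 k168 k169 13 14))))))]
  (.c k9 (.l (.s k1 k2 0 (.s k15 k10 2 (.s k11 k7 1 (.s k165 k245 11 (.s k169 k253 13 (.d k90 k240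
  k248 14 12))))))) .n))

def s42_255_178 : T TT 256 :=
  (.q k5 [(.s k2 k1 0 (.s k10 k15 2 (.s k6 k14 1 (.s k4 k7 0 (.d k12 k8 k9 1 2))))), (.s k1 k2 0 (.s
  k13 k9 1 (.s k165 k245 11 (.s k89 k241 13 (.s k93 k81 1 (.d k253 k173 k169 11 13)))))), (.s k15
  k10 2 (.s k7 k11 1 (.s k165 k245 11 (.s k86 k244 12 (.s k84 k87 0 (.d k252 k168 k169 13 14))))))]
  (.c k9 (.l (.s k1 k2 0 (.s k15 k10 2 (.s k11 k7 1 (.s k165 k245 11 (.s k169 k253 13 (.d k90 k240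
  k248 14 12))))))) .n))

def s42_255_179 : T TT 256 :=
  (.q k5 [(.s k2 k1 0 (.s k10 k15 2 (.s k6 k14 1 (.s k4 k7 0 (.d k12 k8 k9 1 2))))), (.s k1 k2 0 (.s
  k13 k9 1 (.s k165 k245 11 (.s k89 k241 13 (.s k93 k81 1 (.d k253 k173 k169 11 13)))))), (.s k15
  k10 2 (.s k7 k11 1 (.s k165 k245 11 (.s k86 k244 12 (.s k84 k87 0 (.d k252 k168 k169 13 14))))))]
  (.c k9 (.l (.s k1 k2 0 (.s k15 k10 2 (.s k11 k7 1 (.s k165 k245 11 (.s k169 k253 13 (.d k90 k240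
  k248 14 12))))))) .n))

def s42_255_180 : T TT 256 :=
  (.q k5 [(.s k2 k1 0 (.s k10 k15 2 (.s k6 k14 1 (.s k4 k7 0 (.d k12 k8 k9 1 2))))), (.s k1 k2 0 (.s
  k13 k9 1 (.s k165 k245 11 (.s k89 k241 13 (.s k93 k81 1 (.d k253 k173 k169 11 13)))))), (.s k15
  k10 2 (.s k7 k11 1 (.s k165 k245 11 (.s k86 k244 12 (.s k84 k87 0 (.d k252 k168 k169 13 14))))))]
  (.c k9 (.l (.s k1 k2 0 (.s k15 k10 2 (.s k11 k7 1 (.s k165 k245 11 (.s k169 k253 13 (.d k90 k240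
  k248 14 12))))))) .n))

def s42_255_181 : T TT 256 :=
  (.q k5 [(.s k2 k1 0 (.s k10 k15 2 (.s k6 k14 1 (.s k4 k7 0 (.d k12 k8 k9 1 2))))), (.s k1 k2 0 (.s
  k13 k9 1 (.s k165 k245 11 (.s k89 k241 13 (.s k93 k81 1 (.d k253 k173 k169 11 13)))))), (.s k15
  k10 2 (.s k7 k11 1 (.s k165 k245 11 (.s k86 k244 12 (.s k84 k87 0 (.d k252 k168 k169 13 14))))))]
  (.c k9 (.l (.s k1 k2 0 (.s k15 k10 2 (.s k11 k7 1 (.s k165 k245 11 (.s k169 k253 13 (.d k90 k240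
  k248 14 12))))))) .n))

def s42_255_182 : T TT 256 :=
  (.q k5 [(.s k2 k1 0 (.s k10 k15 2 (.s k6 k14 1 (.s k4 k7 0 (.d k12 k8 k9 1 2))))), (.s k1 k2 0 (.s
  k13 k9 1 (.s k165 k245 11 (.s k89 k241 13 (.s k93 k81 1 (.d k253 k173 k169 11 13)))))), (.s k15
  k10 2 (.s k7 k11 1 (.s k165 k245 11 (.s k86 k244 12 (.s k84 k87 0 (.d k252 k168 k169 13 14))))))]
  (.c k9 (.l (.s k1 k2 0 (.s k15 k10 2 (.s k11 k7 1 (.s k165 k245 11 (.s k169 k253 13 (.d k90 k240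
  k248 14 12))))))) .n))

def s42_255_183 : T TT 256 :=
  (.q k5 [(.s k2 k1 0 (.s k10 k15 2 (.s k6 k14 1 (.s k4 k7 0 (.d k12 k8 k9 1 2))))), (.s k1 k2 0 (.s
  k13 k9 1 (.s k165 k245 11 (.s k89 k241 13 (.s k93 k81 1 (.d k253 k173 k169 11 13)))))), (.s k15
  k10 2 (.s k7 k11 1 (.s k165 k245 11 (.s k86 k244 12 (.s k84 k87 0 (.d k252 k168 k169 13 14))))))]
  (.c k9 (.l (.s k1 k2 0 (.s k15 k10 2 (.s k11 k7 1 (.s k165 k245 11 (.s k169 k253 13 (.d k90 k240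
  k248 14 12))))))) .n))

def s42_255_184 : T TT 256 :=
  (.q k5 [(.s k2 k1 0 (.s k10 k15 2 (.s k6 k14 1 (.s k4 k7 0 (.d k12 k8 k9 1 2))))), (.s k1 k2 0 (.s
  k13 k9 1 (.s k165 k245 11 (.s k89 k241 13 (.s k93 k81 1 (.d k253 k173 k169 11 13)))))), (.s k15
  k10 2 (.s k7 k11 1 (.s k165 k245 11 (.s k86 k244 12 (.s k84 k87 0 (.d k252 k168 k169 13 14))))))]
  (.c k9 (.l (.s k1 k2 0 (.s k15 k10 2 (.s k11 k7 1 (.s k165 k245 11 (.s k169 k253 13 (.d k90 k240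
  k248 14 12))))))) .n))

def s42_255_185 : T TT 256 :=
  (.q k5 [(.s k2 k1 0 (.s k10 k15 2 (.s k6 k14 1 (.s k4 k7 0 (.d k12 k8 k9 1 2))))), (.s k1 k2 0 (.s
  k13 k9 1 (.s k165 k245 11 (.s k89 k241 13 (.s k93 k81 1 (.d k253 k173 k169 11 13)))))), (.s k15
  k10 2 (.s k7 k11 1 (.s k165 k245 11 (.s k86 k244 12 (.s k84 k87 0 (.d k252 k168 k169 13 14))))))]
  (.c k9 (.l (.s k1 k2 0 (.s k15 k10 2 (.s k11 k7 1 (.s k165 k245 11 (.s k169 k253 13 (.d k90 k240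
  k248 14 12))))))) .n))

def s42_255_186 : T TT 256 :=
  (.q k48 [(.s k1 k2 0 (.s k32 k16 3 (.s k33 k18 4 (.s k17 k49 3 (.d k34 k35 k51 0 4))))), (.s k1 k2
  0 (.s k16 k32 3 (.s k154 k223 10 (.s k169 k253 13 (.s k139 k184 4 (.d k207 k71 k101 9 14)))))),
  (.s k16 k32 3 (.s k18 k33 4 (.s k154 k223 10 (.s k86 k222 9 (.s k84 k87 0 (.d k252 k168 k169 13
  14)))))), (.s k1 k2 0 (.s k33 k18 4 (.s k169 k253 13 (.s k101 k237 9 (.s k69 k117 3 (.d k207 k138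
  k154 10 14))))))] .n)

def s42_255_187 : T TT 256 :=
  (.q k51 [(.s k2 k1 0 (.s k34 k17 4 (.s k18 k50 3 (.s k33 k48 4 (.d k35 k32 k19 0 3))))), (.s k1 k2
  0 (.s k35 k19 3 (.s k169 k253 13 (.s k102 k236 10 (.s k68 k119 4 (.d k204 k136 k153 9 14)))))),
  (.s k17 k34 4 (.s k19 k35 3 (.s k153 k221 9 (.s k86 k220 10 (.s k84 k87 0 (.d k252 k168 k169 13
  14)))))), (.s k1 k2 0 (.s k17 k34 4 (.s k153 k221 9 (.s k169 k253 13 (.s k137 k185 3 (.d k204 k70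
  k102 10 14))))))] .n)

def s42_255_188 : T TT 256 :=
  (.q k5 [(.s k2 k1 0 (.s k10 k15 2 (.s k6 k14 1 (.s k4 k7 0 (.d k12 k8 k9 1 2))))), (.s k1 k2 0 (.s
  k13 k9 1 (.s k165 k245 11 (.s k89 k241 13 (.s k93 k81 1 (.d k253 k173 k169 11 13)))))), (.s k15
  k10 2 (.s k7 k11 1 (.s k165 k245 11 (.s k86 k244 12 (.s k84 k87 0 (.d k252 k168 k169 13 14))))))]
  (.c k9 (.l (.s k1 k2 0 (.s k15 k10 2 (.s k11 k7 1 (.s k165 k245 11 (.s k169 k253 13 (.d k90 k240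
  k248 14 12))))))) .n))

def s42_255_189 : T TT 256 :=
  (.q k5 [(.s k2 k1 0 (.s k10 k15 2 (.s k6 k14 1 (.s k4 k7 0 (.d k12 k8 k9 1 2))))), (.s k1 k2 0 (.s
  k13 k9 1 (.s k165 k245 11 (.s k89 k241 13 (.s k93 k81 1 (.d k253 k173 k169 11 13)))))), (.s k15
  k10 2 (.s k7 k11 1 (.s k165 k245 11 (.s k86 k244 12 (.s k84 k87 0 (.d k252 k168 k169 13 14))))))]
  (.c k9 (.l (.s k1 k2 0 (.s k15 k10 2 (.s k11 k7 1 (.s k165 k245 11 (.s k169 k253 13 (.d k90 k240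
  k248 14 12))))))) .n))

def s42_255_190 : T TT 256 :=
  (.f k1 k2 0 (.q k60 [(.s k169 k253 13 (.s k252 k86 14 (.s k188 k124 7 (.s k150 k131 6 (.d k20 k40
  k215 5 8))))), (.s k20 k40 5 (.s k150 k215 8 (.s k195 k105 14 (.s k65 k130 8 (.s k67 k131 7 (.s
  k66 k64 0 (.d k129 k193 k192 7 8))))))), (.s k20 k40 5 (.s k169 k253 13 (.s k252 k86 14 (.s k84
  k168 13 (.s k124 k188 7 (.s k104 k64 5 (.d k148 k212 k192 7 13))))))), (.s k169 k253 13 (.s k252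
  k86 14 (.s k188 k124 7 (.s k150 k131 6 (.s k105 k195 14 (.d k41 k22 k233 6 7))))))] (.c k22 (.q
  k62 [(.s k169 k253 13 (.s k252 k86 14 (.s k188 k124 7 (.s k150 k131 6 (.d k20 k40 k215 5 8))))),
  (.s k61 k63 0 (.s k21 k41 5 (.s k149 k213 7 (.s k105 k193 13 (.s k65 k125 5 (.d k195 k130 k150 8
  14)))))), (.s k61 k63 0 (.s k41 k21 5 (.s k169 k253 13 (.s k105 k233 7 (.s k65 k125 5 (.d k193
  k129 k149 7 13)))))), (.s k20 k40 5 (.s k63 k61 0 (.s k150 k215 8 (.s k106 k194 13 (.s k64 k127 6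
  (.d k192 k128 k149 7 14))))))] .n) (.c k62 (.l (.s k22 k41 6 (.s k169 k253 13 (.s k252 k86 14 (.s
  k188 k124 7 (.s k150 k131 6 (.d k20 k40 k215 5 8))))))) (.c k170 (.l (.s k20 k40 5 (.s k150 k215 8
  (.s k169 k253 13 (.s k131 k188 6 (.d k195 k105 k67 14 7)))))) .n)))))

def s42_255_191 : T TT 256 :=
  (.q k48 [(.s k1 k2 0 (.s k32 k16 3 (.s k33 k18 4 (.s k17 k49 3 (.d k34 k35 k51 0 4))))), (.s k1 k2
  0 (.s k16 k32 3 (.s k154 k223 10 (.s k169 k253 13 (.s k139 k184 4 (.d k207 k71 k101 9 14)))))),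
  (.s k16 k32 3 (.s k18 k33 4 (.s k154 k223 10 (.s k86 k222 9 (.s k84 k87 0 (.d k252 k168 k169 13
  14)))))), (.s k1 k2 0 (.s k33 k18 4 (.s k169 k253 13 (.s k101 k237 9 (.s k69 k117 3 (.d k207 k138
  k154 10 14))))))] (.c k63 (.q k127 [(.s k1 k2 0 (.s k32 k16 3 (.s k33 k18 4 (.s k17 k49 3 (.d k34
  k35 k51 0 4))))), (.s k1 k2 0 (.s k16 k32 3 (.s k154 k223 10 (.s k169 k253 13 (.s k139 k184 4 (.d
  k207 k71 k101 9 14)))))), (.s k16 k32 3 (.s k18 k33 4 (.s k154 k223 10 (.s k86 k222 9 (.s k84 k87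
  0 (.d k252 k168 k169 13 14)))))), (.s k1 k2 0 (.s k33 k18 4 (.s k169 k253 13 (.s k101 k237 9 (.s
  k69 k117 3 (.d k207 k138 k154 10 14))))))] .n) (.c k127 (.q k63 [(.s k1 k2 0 (.s k32 k16 3 (.s k33
  k18 4 (.s k17 k49 3 (.d k34 k35 k51 0 4))))), (.s k1 k2 0 (.s k16 k32 3 (.s k154 k223 10 (.s k169
  k253 13 (.s k139 k184 4 (.d k207 k71 k101 9 14)))))), (.s k16 k32 3 (.s k18 k33 4 (.s k154 k223 10
  (.s k86 k222 9 (.s k84 k87 0 (.d k252 k168 k169 13 14)))))), (.s k1 k2 0 (.s k33 k18 4 (.s k169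
  k253 13 (.s k101 k237 9 (.s k69 k117 3 (.d k207 k138 k154 10 14))))))] .n) .n)))

def s42_255_192 : T TT 256 :=
  (.q k51 [(.s k2 k1 0 (.s k35 k19 3 (.s k34 k17 4 (.s k33 k32 0 (.d k18 k50 k48 3 4))))), (.s k1 k2
  0 (.s k35 k19 3 (.s k169 k253 13 (.s k102 k236 10 (.s k68 k119 4 (.d k204 k136 k153 9 14)))))),
  (.s k17 k34 4 (.s k19 k35 3 (.s k153 k221 9 (.s k86 k220 10 (.s k84 k87 0 (.d k252 k168 k169 13
  14)))))), (.s k1 k2 0 (.s k17 k34 4 (.s k153 k221 9 (.s k169 k253 13 (.s k137 k185 3 (.d k204 k70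
  k102 10 14))))))] (.c k213 (.q k234 [(.s k2 k1 0 (.s k35 k19 3 (.s k34 k17 4 (.s k33 k32 0 (.d k18
  k50 k48 3 4))))), (.s k1 k2 0 (.s k35 k19 3 (.s k169 k253 13 (.s k102 k236 10 (.s k68 k119 4 (.d
  k204 k136 k153 9 14)))))), (.s k17 k34 4 (.s k19 k35 3 (.s k153 k221 9 (.s k86 k220 10 (.s k84 k87
  0 (.d k252 k168 k169 13 14)))))), (.s k1 k2 0 (.s k17 k34 4 (.s k153 k221 9 (.s k169 k253 13 (.s
  k137 k185 3 (.d k204 k70 k102 10 14))))))] .n) (.c k234 (.q k213 [(.s k2 k1 0 (.s k35 k19 3 (.s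
  k34 k17 4 (.s k33 k32 0 (.d k18 k50 k48 3 4))))), (.s k1 k2 0 (.s k35 k19 3 (.s k169 k253 13 (.s
  k102 k236 10 (.s k68 k119 4 (.d k204 k136 k153 9 14)))))), (.s k17 k34 4 (.s k19 k35 3 (.s k153
  k221 9 (.s k86 k220 10 (.s k84 k87 0 (.d k252 k168 k169 13 14)))))), (.s k1 k2 0 (.s k17 k34 4 (.s
  k153 k221 9 (.s k169 k253 13 (.s k137 k185 3 (.d k204 k70 k102 10 14))))))] (.c k106 (.q k170 [(.s
  k1 k2 0 (.s k169 k253 13 (.s k168 k171 0 (.d k252 k84 k86 13 14)))), (.s k17 k34 4 (.s k153 k221 9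
  (.s k136 k187 4 (.d k204 k68 k102 9 14))))] (.c k63 (.l (.s k149 k21 7 (.s k1 k2 0 (.s k169 k253
  13 (.s k168 k171 0 (.d k252 k84 k86 13 14)))))) (.c k149 (.q k63 [(.s k1 k2 0 (.s k169 k253 13 (.s
  k168 k171 0 (.d k252 k84 k86 13 14)))), (.s k17 k34 4 (.s k153 k221 9 (.s k136 k187 4 (.d k204 k68
  k102 9 14))))] .n) .n))) (.c k170 (.q k106 [(.s k2 k1 0 (.s k34 k17 4 (.s k18 k50 3 (.s k33 k48 4
  (.d k35 k32 k19 0 3))))), (.s k1 k2 0 (.s k35 k19 3 (.s k169 k253 13 (.s k102 k236 10 (.s k68 k119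
  4 (.d k204 k136 k153 9 14)))))), (.s k17 k34 4 (.s k19 k35 3 (.s k153 k221 9 (.s k86 k220 10 (.s
  k84 k87 0 (.d k252 k168 k169 13 14)))))), (.s k1 k2 0 (.s k17 k34 4 (.s k153 k221 9 (.s k169 k253
  13 (.s k137 k185 3 (.d k204 k102 k70 14 10))))))] .n) .n))) .n)))

def s42_255_193 : T TT 256 :=
  (.q k5 [(.s k2 k1 0 (.s k10 k15 2 (.s k6 k14 1 (.s k4 k7 0 (.d k12 k8 k9 1 2))))), (.s k1 k2 0 (.s
  k13 k9 1 (.s k165 k245 11 (.s k89 k241 13 (.s k93 k81 1 (.d k253 k173 k169 11 13)))))), (.s k15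
  k10 2 (.s k7 k11 1 (.s k165 k245 11 (.s k86 k244 12 (.s k84 k87 0 (.d k252 k168 k169 13 14))))))]
  (.c k9 (.l (.s k1 k2 0 (.s k15 k10 2 (.s k11 k7 1 (.s k165 k245 11 (.s k169 k253 13 (.d k90 k240
  k248 14 12))))))) .n))

def s42_255_194 : T TT 256 :=
  (.q k5 [(.s k2 k1 0 (.s k10 k15 2 (.s k6 k14 1 (.s k4 k7 0 (.d k12 k8 k9 1 2))))), (.s k1 k2 0 (.s
  k13 k9 1 (.s k165 k245 11 (.s k89 k241 13 (.s k93 k81 1 (.d k253 k173 k169 11 13)))))), (.s k15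
  k10 2 (.s k7 k11 1 (.s k165 k245 11 (.s k86 k244 12 (.s k84 k87 0 (.d k252 k168 k169 13 14))))))]
  (.c k9 (.l (.s k1 k2 0 (.s k15 k10 2 (.s k11 k7 1 (.s k165 k245 11 (.s k169 k253 13 (.d k90 k240
  k248 14 12))))))) .n))

def s42_255_195 : T TT 256 :=
  (.q k48 [(.s k1 k2 0 (.s k32 k16 3 (.s k33 k18 4 (.s k17 k49 3 (.d k34 k35 k51 0 4))))), (.s k1 k2
  0 (.s k16 k32 3 (.s k154 k223 10 (.s k169 k253 13 (.s k139 k184 4 (.d k207 k71 k101 9 14)))))),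
  (.s k16 k32 3 (.s k18 k33 4 (.s k154 k223 10 (.s k86 k222 9 (.s k84 k87 0 (.d k252 k168 k169 13
  14)))))), (.s k1 k2 0 (.s k33 k18 4 (.s k169 k253 13 (.s k101 k237 9 (.s k69 k117 3 (.d k207 k138
  k154 10 14))))))] (.c k215 (.q k235 [(.s k1 k2 0 (.s k32 k16 3 (.s k33 k18 4 (.s k17 k49 3 (.d k34
  k35 k51 0 4))))), (.s k1 k2 0 (.s k16 k32 3 (.s k154 k223 10 (.s k169 k253 13 (.s k139 k184 4 (.d
  k207 k71 k101 9 14)))))), (.s k16 k32 3 (.s k18 k33 4 (.s k154 k223 10 (.s k86 k222 9 (.s k84 k87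
  0 (.d k252 k168 k169 13 14)))))), (.s k1 k2 0 (.s k33 k18 4 (.s k169 k253 13 (.s k101 k237 9 (.s
  k69 k117 3 (.d k207 k138 k154 10 14))))))] .n) (.c k235 (.q k215 [(.s k1 k2 0 (.s k32 k16 3 (.s
  k33 k18 4 (.s k17 k49 3 (.d k34 k35 k51 0 4))))), (.s k1 k2 0 (.s k16 k32 3 (.s k154 k223 10 (.s
  k169 k253 13 (.s k139 k184 4 (.d k207 k71 k101 9 14)))))), (.s k16 k32 3 (.s k18 k33 4 (.s k154
  k223 10 (.s k86 k222 9 (.s k84 k87 0 (.d k252 k168 k169 13 14)))))), (.s k1 k2 0 (.s k33 k18 4 (.s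
  k169 k253 13 (.s k101 k237 9 (.s k69 k117 3 (.d k207 k138 k154 10 14))))))] .n) .n)))

def s42_255_196 : T TT 256 :=
  (.q k5 [(.s k2 k1 0 (.s k10 k15 2 (.s k6 k14 1 (.s k12 k9 2 (.d k4 k7 k8 0 1))))), (.s k1 k2 0 (.s
  k13 k9 1 (.s k165 k245 11 (.s k89 k241 13 (.s k93 k81 1 (.d k253 k173 k169 11 13)))))), (.s k15
  k10 2 (.s k7 k11 1 (.s k165 k245 11 (.s k86 k244 12 (.s k84 k87 0 (.d k252 k168 k169 13 14))))))]
  (.c k9 (.l (.s k1 k2 0 (.s k15 k10 2 (.s k11 k7 1 (.s k165 k245 11 (.s k169 k253 13 (.d k90 k240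
  k248 14 12))))))) .n))

def s42_255_197 : T TT 256 :=
  (.q k5 [(.s k2 k1 0 (.s k10 k15 2 (.s k6 k14 1 (.s k4 k7 0 (.d k12 k8 k9 1 2))))), (.s k1 k2 0 (.s
  k13 k9 1 (.s k165 k245 11 (.s k89 k241 13 (.s k93 k81 1 (.d k253 k173 k169 11 13)))))), (.s k15
  k10 2 (.s k7 k11 1 (.s k165 k245 11 (.s k86 k244 12 (.s k84 k87 0 (.d k252 k168 k169 13 14))))))]
  (.c k9 (.l (.s k1 k2 0 (.s k15 k10 2 (.s k11 k7 1 (.s k165 k245 11 (.s k169 k253 13 (.d k90 k240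
  k248 14 12))))))) .n))

def s42_255_198 : T TT 256 :=
  (.q k5 [(.s k2 k1 0 (.s k10 k15 2 (.s k6 k14 1 (.s k4 k7 0 (.d k12 k8 k9 1 2))))), (.s k1 k2 0 (.s
  k13 k9 1 (.s k165 k245 11 (.s k89 k241 13 (.s k93 k81 1 (.d k253 k173 k169 11 13)))))), (.s k15
  k10 2 (.s k7 k11 1 (.s k165 k245 11 (.s k86 k244 12 (.s k84 k87 0 (.d k252 k168 k169 13 14))))))]
  (.c k9 (.l (.s k1 k2 0 (.s k15 k10 2 (.s k11 k7 1 (.s k165 k245 11 (.s k169 k253 13 (.d k90 k240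
  k248 14 12))))))) .n))

def s42_255_199 : T TT 256 :=
  (.q k5 [(.s k2 k1 0 (.s k10 k15 2 (.s k6 k14 1 (.s k12 k9 2 (.d k4 k7 k8 0 1))))), (.s k1 k2 0 (.s
  k13 k9 1 (.s k165 k245 11 (.s k89 k241 13 (.s k93 k81 1 (.d k253 k173 k169 11 13)))))), (.s k15
  k10 2 (.s k7 k11 1 (.s k165 k245 11 (.s k86 k244 12 (.s k84 k87 0 (.d k252 k168 k169 13 14))))))]
  (.c k9 (.l (.s k1 k2 0 (.s k15 k10 2 (.s k11 k7 1 (.s k165 k245 11 (.s k169 k253 13 (.d k90 k240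
  k248 14 12))))))) .n))

def s42_255_200 : T TT 256 :=
  (.q k5 [(.s k2 k1 0 (.s k10 k15 2 (.s k6 k14 1 (.s k4 k7 0 (.d k12 k8 k9 1 2))))), (.s k1 k2 0 (.s
  k13 k9 1 (.s k165 k245 11 (.s k89 k241 13 (.s k93 k81 1 (.d k253 k173 k169 11 13)))))), (.s k15
  k10 2 (.s k7 k11 1 (.s k165 k245 11 (.s k86 k244 12 (.s k84 k87 0 (.d k252 k168 k169 13 14))))))]
  (.c k9 (.l (.s k1 k2 0 (.s k15 k10 2 (.s k11 k7 1 (.s k165 k245 11 (.s k169 k253 13 (.d k90 k240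
  k248 14 12))))))) .n))

def s42_255_201 : T TT 256 :=
  (.q k5 [(.s k2 k1 0 (.s k10 k15 2 (.s k6 k14 1 (.s k4 k7 0 (.d k12 k8 k9 1 2))))), (.s k1 k2 0 (.s
  k13 k9 1 (.s k165 k245 11 (.s k89 k241 13 (.s k93 k81 1 (.d k253 k173 k169 11 13)))))), (.s k15
  k10 2 (.s k7 k11 1 (.s k165 k245 11 (.s k86 k244 12 (.s k84 k87 0 (.d k252 k168 k169 13 14))))))]
  (.c k9 (.l (.s k1 k2 0 (.s k15 k10 2 (.s k11 k7 1 (.s k165 k245 11 (.s k169 k253 13 (.d k90 k240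
  k248 14 12))))))) .n))

def s42_255_202 : T TT 256 :=
  (.q k5 [(.s k2 k1 0 (.s k10 k15 2 (.s k6 k14 1 (.s k4 k7 0 (.d k12 k8 k9 1 2))))), (.s k1 k2 0 (.s
  k13 k9 1 (.s k165 k245 11 (.s k89 k241 13 (.s k93 k81 1 (.d k253 k173 k169 11 13)))))), (.s k15
  k10 2 (.s k7 k11 1 (.s k165 k245 11 (.s k86 k244 12 (.s k84 k87 0 (.d k252 k168 k169 13 14))))))]
  (.c k9 (.l (.s k1 k2 0 (.s k15 k10 2 (.s k11 k7 1 (.s k165 k245 11 (.s k169 k253 13 (.d k90 k240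
  k248 14 12))))))) .n))

def s42_255_203 : T TT 256 :=
  (.q k5 [(.s k2 k1 0 (.s k10 k15 2 (.s k6 k14 1 (.s k4 k7 0 (.d k12 k8 k9 1 2))))), (.s k1 k2 0 (.s
  k13 k9 1 (.s k165 k245 11 (.s k89 k241 13 (.s k93 k81 1 (.d k253 k173 k169 11 13)))))), (.s k15
  k10 2 (.s k7 k11 1 (.s k165 k245 11 (.s k86 k244 12 (.s k84 k87 0 (.d k252 k168 k169 13 14))))))]
  (.c k9 (.l (.s k1 k2 0 (.s k15 k10 2 (.s k11 k7 1 (.s k165 k245 11 (.s k169 k253 13 (.d k90 k240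
  k248 14 12))))))) .n))

def s42_255_204 : T TT 256 :=
  (.q k105 [(.s k1 k2 0 (.s k125 k65 5 (.s k253 k169 13 (.s k61 k189 7 (.s k21 k41 5 (.d k149 k213
  k193 7 13)))))), (.s k65 k125 5 (.s k195 k130 8 (.s k67 k131 7 (.s k86 k124 6 (.s k84 k87 0 (.d
  k252 k168 k169 13 14)))))), (.s k1 k2 0 (.s k169 k253 13 (.s k233 k41 7 (.s k252 k86 14 (.s k195
  k214 6 (.s k131 k67 7 (.d k150 k188 k60 6 14)))))))] (.c k169 (.l (.s k1 k2 0 (.s k65 k125 5 (.s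
  k129 k193 7 (.s k66 k192 8 (.s k67 k64 0 (.d k195 k131 k130 7 8))))))) (.c k221 (.q k238 [(.s k1
  k2 0 (.s k125 k65 5 (.s k253 k169 13 (.s k61 k189 7 (.s k21 k41 5 (.d k149 k213 k193 7 13)))))),
  (.s k65 k125 5 (.s k195 k130 8 (.s k67 k131 7 (.s k86 k124 6 (.s k84 k87 0 (.d k252 k168 k169 13
  14)))))), (.s k1 k2 0 (.s k169 k253 13 (.s k233 k41 7 (.s k252 k86 14 (.s k195 k214 6 (.s k131 k67
  7 (.d k150 k188 k60 6 14)))))))] (.c k169 (.l (.s k1 k2 0 (.s k65 k125 5 (.s k129 k193 7 (.s k66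
  k192 8 (.s k67 k64 0 (.d k195 k131 k130 7 8))))))) .n)) (.c k238 (.q k221 [(.s k65 k125 5 (.s k195
  k130 8 (.s k67 k131 7 (.s k86 k124 6 (.s k84 k87 0 (.d k252 k168 k169 13 14)))))), (.s k1 k2 0 (.s
  k17 k153 9 (.s k33 k49 3 (.s k18 k48 4 (.s k19 k16 0 (.d k51 k35 k34 3 4))))))] .n) .n))))

def s42_255_205 : T TT 256 :=
  (.q k5 [(.s k2 k1 0 (.s k10 k15 2 (.s k6 k14 1 (.s k4 k7 0 (.d k12 k8 k9 1 2))))), (.s k1 k2 0 (.s
  k13 k9 1 (.s k165 k245 11 (.s k89 k241 13 (.s k93 k81 1 (.d k253 k173 k169 11 13)))))), (.s k15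
  k10 2 (.s k7 k11 1 (.s k165 k245 11 (.s k86 k244 12 (.s k84 k87 0 (.d k252 k168 k169 13 14))))))]
  (.c k9 (.l (.s k1 k2 0 (.s k15 k10 2 (.s k11 k7 1 (.s k165 k245 11 (.s k169 k253 13 (.d k90 k240
  k248 14 12))))))) .n))

def s42_255_206 : T TT 256 :=
  (.q k5 [(.s k2 k1 0 (.s k10 k15 2 (.s k6 k14 1 (.s k4 k7 0 (.d k12 k8 k9 1 2))))), (.s k1 k2 0 (.s
  k13 k9 1 (.s k165 k245 11 (.s k89 k241 13 (.s k93 k81 1 (.d k253 k173 k169 11 13)))))), (.s k15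
  k10 2 (.s k7 k11 1 (.s k165 k245 11 (.s k86 k244 12 (.s k84 k87 0 (.d k252 k168 k169 13 14))))))]
  (.c k9 (.l (.s k1 k2 0 (.s k15 k10 2 (.s k11 k7 1 (.s k165 k245 11 (.s k169 k253 13 (.d k90 k240
  k248 14 12))))))) .n))

def s42_255_207 : T TT 256 :=
  (.q k153 [(.s k1 k2 0 (.s k17 k221 9 (.s k49 k33 3 (.s k101 k205 13 (.s k117 k69 3 (.d k253 k185
  k169 9 13)))))), (.s k17 k221 9 (.s k51 k34 4 (.s k19 k35 3 (.s k86 k220 10 (.s k84 k87 0 (.d k252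
  k168 k169 13 14)))))), (.s k1 k2 0 (.s k169 k253 13 (.s k137 k185 3 (.s k204 k70 10 (.s k68 k136 9
  (.d k102 k119 k51 4 14))))))] (.c k169 (.l (.s k1 k2 0 (.s k17 k221 9 (.s k33 k49 3 (.s k18 k48 4
  (.s k19 k16 0 (.d k51 k35 k34 3 4))))))) (.c k204 (.l (.s k1 k2 0 (.s k169 k253 13 (.s k137 k185 3
  (.s k205 k69 9 (.s k49 k101 13 (.d k17 k33 k221 3 9))))))) (.c k223 (.q k239 [(.s k1 k2 0 (.s k169
  k253 13 (.s k137 k185 3 (.s k205 k69 9 (.s k49 k101 13 (.d k17 k33 k221 3 9)))))), (.s k17 k221 9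
  (.s k51 k34 4 (.s k19 k35 3 (.s k204 k102 14 (.s k137 k70 10 (.s k169 k185 3 (.d k86 k220 k252 10
  14))))))), (.s k1 k2 0 (.s k17 k221 9 (.s k33 k49 3 (.s k18 k48 4 (.s k19 k16 0 (.d k51 k35 k34 3
  4)))))), (.s k1 k2 0 (.s k169 k253 13 (.s k137 k185 3 (.s k204 k70 10 (.s k68 k136 9 (.d k102 k119
  k51 4 14))))))] .n) (.c k239 (.q k223 [(.s k16 k154 10 (.s k17 k221 9 (.s k18 k19 0 (.d k48 k32
  k33 3 4)))), (.s k1 k2 0 (.s k169 k253 13 (.s k221 k17 9 (.s k220 k222 0 (.d k86 k252 k19 14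
  10))))), (.s k1 k2 0 (.s k154 k16 10 (.s k155 k152 0 (.s k19 k87 9 (.s k169 k253 13 (.d k86 k220
  k252 10 14))))))] (.c k19 (.l (.s k1 k2 0 (.s k16 k154 10 (.s k17 k221 9 (.s k33 k49 3 (.d k48 k32
  k18 3 4)))))) .n)) .n)))))

def s42_255_208 : T TT 256 :=
  (.q k5 [(.s k2 k1 0 (.s k10 k15 2 (.s k6 k14 1 (.s k4 k7 0 (.d k12 k8 k9 1 2))))), (.s k1 k2 0 (.s
  k13 k9 1 (.s k165 k245 11 (.s k89 k241 13 (.s k93 k81 1 (.d k253 k173 k169 11 13)))))), (.s k15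
  k10 2 (.s k7 k11 1 (.s k165 k245 11 (.s k86 k244 12 (.s k84 k87 0 (.d k252 k168 k169 13 14))))))]
  (.c k9 (.l (.s k1 k2 0 (.s k15 k10 2 (.s k11 k7 1 (.s k165 k245 11 (.s k169 k253 13 (.d k90 k240
  k248 14 12))))))) .n))

def s42_255_209 : T TT 256 :=
  (.q k5 [(.s k2 k1 0 (.s k10 k15 2 (.s k6 k14 1 (.s k4 k7 0 (.d k12 k8 k9 1 2))))), (.s k1 k2 0 (.s
  k13 k9 1 (.s k165 k245 11 (.s k89 k241 13 (.s k93 k81 1 (.d k253 k173 k169 11 13)))))), (.s k15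
  k10 2 (.s k7 k11 1 (.s k165 k245 11 (.s k86 k244 12 (.s k84 k87 0 (.d k252 k168 k169 13 14))))))]
  (.c k9 (.l (.s k1 k2 0 (.s k15 k10 2 (.s k11 k7 1 (.s k165 k245 11 (.s k169 k253 13 (.d k90 k240
  k248 14 12))))))) .n))

def s42_255_210 : T TT 256 :=
  (.q k5 [(.s k2 k1 0 (.s k10 k15 2 (.s k6 k14 1 (.s k4 k7 0 (.d k12 k8 k9 1 2))))), (.s k1 k2 0 (.s
  k13 k9 1 (.s k165 k245 11 (.s k89 k241 13 (.s k93 k81 1 (.d k253 k173 k169 11 13)))))), (.s k15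
  k10 2 (.s k7 k11 1 (.s k165 k245 11 (.s k86 k244 12 (.s k84 k87 0 (.d k252 k168 k169 13 14))))))]
  (.c k9 (.l (.s k1 k2 0 (.s k15 k10 2 (.s k11 k7 1 (.s k165 k245 11 (.s k169 k253 13 (.d k90 k240
  k248 14 12))))))) .n))

def s42_255_211 : T TT 256 :=
  (.q k5 [(.s k2 k1 0 (.s k10 k15 2 (.s k6 k14 1 (.s k4 k7 0 (.d k12 k8 k9 1 2))))), (.s k1 k2 0 (.s
  k13 k9 1 (.s k165 k245 11 (.s k89 k241 13 (.s k93 k81 1 (.d k253 k173 k169 11 13)))))), (.s k15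
  k10 2 (.s k7 k11 1 (.s k165 k245 11 (.s k86 k244 12 (.s k84 k87 0 (.d k252 k168 k169 13 14))))))]
  (.c k9 (.l (.s k1 k2 0 (.s k15 k10 2 (.s k11 k7 1 (.s k165 k245 11 (.s k169 k253 13 (.d k90 k240
  k248 14 12))))))) .n))

def s42_255_212 : T TT 256 :=
  (.q k5 [(.s k2 k1 0 (.s k10 k15 2 (.s k6 k14 1 (.s k4 k7 0 (.d k12 k8 k9 1 2))))), (.s k1 k2 0 (.s
  k13 k9 1 (.s k165 k245 11 (.s k89 k241 13 (.s k93 k81 1 (.d k253 k173 k169 11 13)))))), (.s k15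
  k10 2 (.s k7 k11 1 (.s k165 k245 11 (.s k86 k244 12 (.s k84 k87 0 (.d k252 k168 k169 13 14))))))]
  (.c k9 (.l (.s k1 k2 0 (.s k15 k10 2 (.s k11 k7 1 (.s k165 k245 11 (.s k169 k253 13 (.d k90 k240
  k248 14 12))))))) .n))

def s42_255_213 : T TT 256 :=
  (.q k192 [(.s k2 k1 0 (.s k64 k128 7 (.s k66 k129 8 (.s k65 k67 0 (.d k130 k194 k195 7 8))))), (.s
  k1 k2 0 (.s k64 k128 7 (.s k106 k127 6 (.s k63 k149 14 (.s k43 k23 5 (.d k169 k232 k253 8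
  13)))))), (.s k64 k128 7 (.s k66 k129 8 (.s k106 k127 6 (.s k86 k126 5 (.s k84 k87 0 (.d k252 k168
  k169 13 14)))))), (.s k1 k2 0 (.s k129 k66 8 (.s k169 k253 13 (.s k149 k189 5 (.s k63 k106 14 (.s
  k23 k43 5 (.d k86 k252 k212 14 8)))))))] .n)

def s42_255_214 : T TT 256 :=
  (.q k5 [(.s k2 k1 0 (.s k10 k15 2 (.s k6 k14 1 (.s k4 k7 0 (.d k12 k8 k9 1 2))))), (.s k1 k2 0 (.s
  k13 k9 1 (.s k165 k245 11 (.s k89 k241 13 (.s k93 k81 1 (.d k253 k173 k169 11 13)))))), (.s k15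
  k10 2 (.s k7 k11 1 (.s k165 k245 11 (.s k86 k244 12 (.s k84 k87 0 (.d k252 k168 k169 13 14))))))]
  (.c k9 (.l (.s k1 k2 0 (.s k15 k10 2 (.s k11 k7 1 (.s k165 k245 11 (.s k169 k253 13 (.d k90 k240
  k248 14 12))))))) .n))

def s42_255_215 : T TT 256 :=
  (.q k195 [(.s k2 k1 0 (.s k131 k67 7 (.s k130 k65 8 (.s k129 k128 0 (.d k66 k194 k192 7 8))))),
  (.s k1 k2 0 (.s k131 k67 7 (.s k169 k253 13 (.s k150 k188 6 (.s k60 k105 14 (.s k22 k41 6 (.d k86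
  k252 k214 14 7))))))), (.s k65 k130 8 (.s k67 k131 7 (.s k105 k125 5 (.s k86 k124 6 (.s k84 k87 0
  (.d k252 k168 k169 13 14)))))), (.s k1 k2 0 (.s k65 k130 8 (.s k105 k125 5 (.s k60 k150 14 (.s
  k169 k253 13 (.d k41 k22 k233 6 7))))))] .n)

def s42_255_216 : T TT 256 :=
  (.q k5 [(.s k2 k1 0 (.s k10 k15 2 (.s k6 k14 1 (.s k4 k7 0 (.d k12 k8 k9 1 2))))), (.s k1 k2 0 (.s
  k13 k9 1 (.s k165 k245 11 (.s k89 k241 13 (.s k93 k81 1 (.d k253 k173 k169 11 13)))))), (.s k15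
  k10 2 (.s k7 k11 1 (.s k165 k245 11 (.s k86 k244 12 (.s k84 k87 0 (.d k252 k168 k169 13 14))))))]
  (.c k9 (.l (.s k1 k2 0 (.s k15 k10 2 (.s k11 k7 1 (.s k165 k245 11 (.s k169 k253 13 (.d k90 k240
  k248 14 12))))))) .n))

def s42_255_217 : T TT 256 :=
  (.q k5 [(.s k2 k1 0 (.s k10 k15 2 (.s k6 k14 1 (.s k4 k7 0 (.d k12 k8 k9 1 2))))), (.s k1 k2 0 (.s
  k13 k9 1 (.s k165 k245 11 (.s k89 k241 13 (.s k93 k81 1 (.d k253 k173 k169 11 13)))))), (.s k15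
  k10 2 (.s k7 k11 1 (.s k165 k245 11 (.s k86 k244 12 (.s k84 k87 0 (.d k252 k168 k169 13 14))))))]
  (.c k9 (.l (.s k1 k2 0 (.s k15 k10 2 (.s k11 k7 1 (.s k165 k245 11 (.s k169 k253 13 (.d k90 k240
  k248 14 12))))))) .n))

def s42_255_218 : T TT 256 :=
  (.q k5 [(.s k2 k1 0 (.s k10 k15 2 (.s k6 k14 1 (.s k4 k7 0 (.d k12 k8 k9 1 2))))), (.s k1 k2 0 (.s
  k13 k9 1 (.s k165 k245 11 (.s k89 k241 13 (.s k93 k81 1 (.d k253 k173 k169 11 13)))))), (.s k15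
  k10 2 (.s k7 k11 1 (.s k165 k245 11 (.s k86 k244 12 (.s k84 k87 0 (.d k252 k168 k169 13 14))))))]
  (.c k9 (.l (.s k1 k2 0 (.s k15 k10 2 (.s k11 k7 1 (.s k165 k245 11 (.s k169 k253 13 (.d k90 k240
  k248 14 12))))))) .n))

def s42_255_219 : T TT 256 :=
  (.q k5 [(.s k2 k1 0 (.s k10 k15 2 (.s k6 k14 1 (.s k4 k7 0 (.d k12 k8 k9 1 2))))), (.s k1 k2 0 (.s
  k13 k9 1 (.s k165 k245 11 (.s k89 k241 13 (.s k93 k81 1 (.d k253 k173 k169 11 13)))))), (.s k15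
  k10 2 (.s k7 k11 1 (.s k165 k245 11 (.s k86 k244 12 (.s k84 k87 0 (.d k252 k168 k169 13 14))))))]
  (.c k9 (.l (.s k1 k2 0 (.s k15 k10 2 (.s k11 k7 1 (.s k165 k245 11 (.s k169 k253 13 (.d k90 k240
  k248 14 12))))))) .n))

def s42_255_220 : T TT 256 :=
  (.q k5 [(.s k2 k1 0 (.s k10 k15 2 (.s k6 k14 1 (.s k4 k7 0 (.d k12 k8 k9 1 2))))), (.s k1 k2 0 (.s
  k13 k9 1 (.s k165 k245 11 (.s k89 k241 13 (.s k93 k81 1 (.d k253 k173 k169 11 13)))))), (.s k15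
  k10 2 (.s k7 k11 1 (.s k165 k245 11 (.s k86 k244 12 (.s k84 k87 0 (.d k252 k168 k169 13 14))))))]
  (.c k9 (.l (.s k1 k2 0 (.s k15 k10 2 (.s k11 k7 1 (.s k165 k245 11 (.s k169 k253 13 (.d k90 k240
  k248 14 12))))))) .n))

def s42_255_221 : T TT 256 :=
  (.q k204 [(.s k2 k1 0 (.s k68 k136 9 (.s k70 k137 10 (.s k69 k71 0 (.d k138 k206 k207 9 10))))),
  (.s k1 k2 0 (.s k68 k136 9 (.s k102 k119 4 (.s k51 k153 14 (.s k35 k19 3 (.d k169 k236 k253 10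
  13)))))), (.s k68 k136 9 (.s k70 k137 10 (.s k102 k119 4 (.s k86 k118 3 (.s k84 k87 0 (.d k252
  k168 k169 13 14)))))), (.s k1 k2 0 (.s k137 k70 10 (.s k169 k253 13 (.s k153 k185 3 (.s k51 k102
  14 (.s k19 k35 3 (.d k86 k252 k220 14 10)))))))] .n)

def s42_255_222 : T TT 256 :=
  (.q k5 [(.s k2 k1 0 (.s k10 k15 2 (.s k6 k14 1 (.s k4 k7 0 (.d k12 k8 k9 1 2))))), (.s k1 k2 0 (.s
  k13 k9 1 (.s k165 k245 11 (.s k89 k241 13 (.s k93 k81 1 (.d k253 k173 k169 11 13)))))), (.s k15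
  k10 2 (.s k7 k11 1 (.s k165 k245 11 (.s k86 k244 12 (.s k84 k87 0 (.d k252 k168 k169 13 14))))))]
  (.c k9 (.l (.s k1 k2 0 (.s k15 k10 2 (.s k11 k7 1 (.s k165 k245 11 (.s k169 k253 13 (.d k90 k240
  k248 14 12))))))) .n))

def s42_255_223 : T TT 256 :=
  (.q k207 [(.s k2 k1 0 (.s k139 k71 9 (.s k138 k69 10 (.s k137 k136 0 (.d k70 k206 k204 9 10))))),
  (.s k1 k2 0 (.s k139 k71 9 (.s k169 k253 13 (.s k154 k184 4 (.s k48 k101 14 (.s k18 k33 4 (.d k86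
  k252 k222 14 9))))))), (.s k69 k138 10 (.s k71 k139 9 (.s k101 k117 3 (.s k86 k116 4 (.s k84 k87 0
  (.d k252 k168 k169 13 14)))))), (.s k1 k2 0 (.s k69 k138 10 (.s k101 k117 3 (.s k48 k154 14 (.s
  k33 k18 4 (.d k169 k237 k253 9 13))))))] .n)

def s42_255_224 : T TT 256 :=
  (.q k5 [(.s k2 k1 0 (.s k10 k15 2 (.s k6 k14 1 (.s k4 k7 0 (.d k12 k8 k9 1 2))))), (.s k1 k2 0 (.s
  k13 k9 1 (.s k165 k245 11 (.s k89 k241 13 (.s k93 k81 1 (.d k253 k173 k169 11 13)))))), (.s k15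
  k10 2 (.s k7 k11 1 (.s k165 k245 11 (.s k86 k244 12 (.s k84 k87 0 (.d k252 k168 k169 13 14))))))]
  (.c k9 (.l (.s k1 k2 0 (.s k15 k10 2 (.s k11 k7 1 (.s k165 k245 11 (.s k169 k253 13 (.d k90 k240
  k248 14 12))))))) .n))

def s42_255_225 : T TT 256 :=
  (.q k5 [(.s k2 k1 0 (.s k10 k15 2 (.s k6 k14 1 (.s k4 k7 0 (.d k12 k8 k9 1 2))))), (.s k1 k2 0 (.s
  k13 k9 1 (.s k165 k245 11 (.s k89 k241 13 (.s k93 k81 1 (.d k253 k173 k169 11 13)))))), (.s k15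
  k10 2 (.s k7 k11 1 (.s k165 k245 11 (.s k86 k244 12 (.s k84 k87 0 (.d k252 k168 k169 13 14))))))]
  (.c k9 (.l (.s k1 k2 0 (.s k15 k10 2 (.s k11 k7 1 (.s k165 k245 11 (.s k169 k253 13 (.d k90 k240
  k248 14 12))))))) .n))

def s42_255_226 : T TT 256 :=
  (.q k5 [(.s k2 k1 0 (.s k10 k15 2 (.s k6 k14 1 (.s k4 k7 0 (.d k12 k8 k9 1 2))))), (.s k1 k2 0 (.s
  k13 k9 1 (.s k165 k245 11 (.s k89 k241 13 (.s k93 k81 1 (.d k253 k173 k169 11 13)))))), (.s k15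
  k10 2 (.s k7 k11 1 (.s k165 k245 11 (.s k86 k244 12 (.s k84 k87 0 (.d k252 k168 k169 13 14))))))]
  (.c k9 (.l (.s k1 k2 0 (.s k15 k10 2 (.s k11 k7 1 (.s k165 k245 11 (.s k169 k253 13 (.d k90 k240
  k248 14 12))))))) .n))

def s42_255_227 : T TT 256 :=
  (.q k5 [(.s k2 k1 0 (.s k10 k15 2 (.s k6 k14 1 (.s k4 k7 0 (.d k12 k8 k9 1 2))))), (.s k1 k2 0 (.s
  k13 k9 1 (.s k165 k245 11 (.s k89 k241 13 (.s k93 k81 1 (.d k253 k173 k169 11 13)))))), (.s k15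
  k10 2 (.s k7 k11 1 (.s k165 k245 11 (.s k86 k244 12 (.s k84 k87 0 (.d k252 k168 k169 13 14))))))]
  (.c k9 (.l (.s k1 k2 0 (.s k15 k10 2 (.s k11 k7 1 (.s k165 k245 11 (.s k169 k253 13 (.d k90 k240
  k248 14 12))))))) .n))

def s42_255_228 : T TT 256 :=
  (.q k5 [(.s k2 k1 0 (.s k10 k15 2 (.s k6 k14 1 (.s k4 k7 0 (.d k12 k8 k9 1 2))))), (.s k1 k2 0 (.s
  k13 k9 1 (.s k165 k245 11 (.s k89 k241 13 (.s k93 k81 1 (.d k253 k173 k169 11 13)))))), (.s k15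
  k10 2 (.s k7 k11 1 (.s k165 k245 11 (.s k86 k244 12 (.s k84 k87 0 (.d k252 k168 k169 13 14))))))]
  (.c k9 (.l (.s k1 k2 0 (.s k15 k10 2 (.s k11 k7 1 (.s k165 k245 11 (.s k169 k253 13 (.d k90 k240
  k248 14 12))))))) .n))

def s42_255_229 : T TT 256 :=
  (.q k5 [(.s k2 k1 0 (.s k10 k15 2 (.s k6 k14 1 (.s k4 k7 0 (.d k12 k8 k9 1 2))))), (.s k1 k2 0 (.s
  k13 k9 1 (.s k165 k245 11 (.s k89 k241 13 (.s k93 k81 1 (.d k253 k173 k169 11 13)))))), (.s k15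
  k10 2 (.s k7 k11 1 (.s k165 k245 11 (.s k86 k244 12 (.s k84 k87 0 (.d k252 k168 k169 13 14))))))]
  (.c k9 (.l (.s k1 k2 0 (.s k15 k10 2 (.s k11 k7 1 (.s k165 k245 11 (.s k169 k253 13 (.d k90 k240
  k248 14 12))))))) .n))

def s42_255_230 : T TT 256 :=
  (.q k5 [(.s k2 k1 0 (.s k10 k15 2 (.s k6 k14 1 (.s k4 k7 0 (.d k12 k8 k9 1 2))))), (.s k1 k2 0 (.s
  k13 k9 1 (.s k165 k245 11 (.s k89 k241 13 (.s k93 k81 1 (.d k253 k173 k169 11 13)))))), (.s k15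
  k10 2 (.s k7 k11 1 (.s k165 k245 11 (.s k86 k244 12 (.s k84 k87 0 (.d k252 k168 k169 13 14))))))]
  (.c k9 (.l (.s k1 k2 0 (.s k15 k10 2 (.s k11 k7 1 (.s k165 k245 11 (.s k169 k253 13 (.d k90 k240
  k248 14 12))))))) .n))

def s42_255_231 : T TT 256 :=
  (.q k5 [(.s k2 k1 0 (.s k10 k15 2 (.s k6 k14 1 (.s k4 k7 0 (.d k12 k8 k9 1 2))))), (.s k1 k2 0 (.s
  k13 k9 1 (.s k165 k245 11 (.s k89 k241 13 (.s k93 k81 1 (.d k253 k173 k169 11 13)))))), (.s k15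
  k10 2 (.s k7 k11 1 (.s k165 k245 11 (.s k86 k244 12 (.s k84 k87 0 (.d k252 k168 k169 13 14))))))]
  (.c k9 (.l (.s k1 k2 0 (.s k15 k10 2 (.s k11 k7 1 (.s k165 k245 11 (.s k169 k253 13 (.d k90 k240
  k248 14 12))))))) .n))

def s42_255_232 : T TT 256 :=
  (.q k5 [(.s k2 k1 0 (.s k10 k15 2 (.s k6 k14 1 (.s k4 k7 0 (.d k12 k8 k9 1 2))))), (.s k1 k2 0 (.s
  k13 k9 1 (.s k165 k245 11 (.s k89 k241 13 (.s k93 k81 1 (.d k253 k173 k169 11 13)))))), (.s k15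
  k10 2 (.s k7 k11 1 (.s k165 k245 11 (.s k86 k244 12 (.s k84 k87 0 (.d k252 k168 k169 13 14))))))]
  (.c k9 (.l (.s k1 k2 0 (.s k15 k10 2 (.s k11 k7 1 (.s k165 k245 11 (.s k169 k253 13 (.d k90 k240
  k248 14 12))))))) .n))

def s42_255_233 : T TT 256 :=
  (.q k5 [(.s k2 k1 0 (.s k10 k15 2 (.s k6 k14 1 (.s k4 k7 0 (.d k12 k8 k9 1 2))))), (.s k1 k2 0 (.s
  k13 k9 1 (.s k165 k245 11 (.s k89 k241 13 (.s k93 k81 1 (.d k253 k173 k169 11 13)))))), (.s k15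
  k10 2 (.s k7 k11 1 (.s k165 k245 11 (.s k86 k244 12 (.s k84 k87 0 (.d k252 k168 k169 13 14))))))]
  (.c k9 (.l (.s k1 k2 0 (.s k15 k10 2 (.s k11 k7 1 (.s k165 k245 11 (.s k169 k253 13 (.d k90 k240
  k248 14 12))))))) .n))

def s42_255_234 : T TT 256 :=
  (.q k192 [(.s k2 k1 0 (.s k64 k128 7 (.s k66 k129 8 (.s k65 k67 0 (.d k130 k194 k195 7 8))))), (.s
  k1 k2 0 (.s k64 k128 7 (.s k106 k127 6 (.s k63 k149 14 (.s k43 k23 5 (.d k169 k232 k253 8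
  13)))))), (.s k64 k128 7 (.s k66 k129 8 (.s k106 k127 6 (.s k86 k126 5 (.s k84 k87 0 (.d k252 k168
  k169 13 14)))))), (.s k1 k2 0 (.s k129 k66 8 (.s k169 k253 13 (.s k149 k189 5 (.s k21 k213 7 (.s
  k61 k41 5 (.d k193 k65 k105 7 13)))))))] (.c k106 (.q k170 [(.s k1 k2 0 (.s k169 k253 13 (.s k168
  k171 0 (.d k252 k84 k86 13 14)))), (.s k1 k2 0 (.s k128 k64 7 (.s k129 k66 8 (.s k65 k193 7 (.d
  k130 k131 k195 0 8))))), (.s k128 k64 7 (.s k129 k66 8 (.s k149 k191 6 (.s k169 k189 5 (.s k168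
  k171 0 (.d k252 k86 k84 14 13))))))] (.c k86 (.l (.s k1 k2 0 (.s k128 k64 7 (.s k149 k191 6 (.s
  k169 k253 13 (.d k129 k189 k66 5 8)))))) .n)) (.c k170 (.q k106 [(.d k64 k127 k128 6 7), (.s k1 k2
  0 (.s k66 k129 8 (.s k86 k126 5 (.d k169 k253 k252 13 14))))] .n) .n)))

def s42_255_235 : T TT 256 :=
  (.q k195 [(.s k2 k1 0 (.s k131 k67 7 (.s k130 k65 8 (.s k129 k128 0 (.d k66 k194 k192 7 8))))),
  (.s k1 k2 0 (.s k131 k67 7 (.s k169 k253 13 (.s k150 k188 6 (.s k20 k215 8 (.d k60 k40 k105 5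
  14)))))), (.s k65 k130 8 (.s k67 k131 7 (.s k105 k125 5 (.s k86 k124 6 (.s k84 k87 0 (.d k252 k168
  k169 13 14)))))), (.s k1 k2 0 (.s k65 k130 8 (.s k105 k125 5 (.s k60 k150 14 (.s k169 k253 13 (.d
  k41 k22 k233 6 7))))))] .n)

def s42_255_236 : T TT 256 :=
  (.q k5 [(.s k2 k1 0 (.s k10 k15 2 (.s k6 k14 1 (.s k4 k7 0 (.d k12 k8 k9 1 2))))), (.s k1 k2 0 (.s
  k13 k9 1 (.s k165 k245 11 (.s k89 k241 13 (.s k93 k81 1 (.d k253 k173 k169 11 13)))))), (.s k15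
  k10 2 (.s k7 k11 1 (.s k165 k245 11 (.s k86 k244 12 (.s k84 k87 0 (.d k252 k168 k169 13 14))))))]
  (.c k9 (.l (.s k1 k2 0 (.s k15 k10 2 (.s k11 k7 1 (.s k165 k245 11 (.s k169 k253 13 (.d k90 k240
  k248 14 12))))))) .n))

def s42_255_237 : T TT 256 :=
  (.q k5 [(.s k2 k1 0 (.s k10 k15 2 (.s k6 k14 1 (.s k4 k7 0 (.d k12 k8 k9 1 2))))), (.s k1 k2 0 (.s
  k13 k9 1 (.s k165 k245 11 (.s k89 k241 13 (.s k93 k81 1 (.d k253 k173 k169 11 13)))))), (.s k15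
  k10 2 (.s k7 k11 1 (.s k165 k245 11 (.s k86 k244 12 (.s k84 k87 0 (.d k252 k168 k169 13 14))))))]
  (.c k9 (.l (.s k1 k2 0 (.s k15 k10 2 (.s k11 k7 1 (.s k165 k245 11 (.s k169 k253 13 (.d k90 k240
  k248 14 12))))))) .n))

def s42_255_238 : T TT 256 :=
  (.q k204 [(.s k2 k1 0 (.s k68 k136 9 (.s k70 k137 10 (.s k69 k71 0 (.d k138 k206 k207 9 10))))),
  (.s k1 k2 0 (.s k68 k136 9 (.s k102 k119 4 (.s k51 k153 14 (.s k35 k19 3 (.d k169 k236 k253 10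
  13)))))), (.s k68 k136 9 (.s k70 k137 10 (.s k102 k119 4 (.s k86 k118 3 (.s k84 k87 0 (.d k252
  k168 k169 13 14)))))), (.s k1 k2 0 (.s k137 k70 10 (.s k169 k253 13 (.s k153 k185 3 (.s k17 k221 9
  (.d k51 k34 k102 4 14))))))] .n)

def s42_255_239 : T TT 256 :=
  (.q k207 [(.s k2 k1 0 (.s k139 k71 9 (.s k138 k69 10 (.s k137 k136 0 (.d k70 k206 k204 9 10))))),
  (.s k1 k2 0 (.s k139 k71 9 (.s k169 k253 13 (.s k154 k184 4 (.s k16 k223 10 (.d k48 k32 k101 3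
  14)))))), (.s k69 k138 10 (.s k71 k139 9 (.s k101 k117 3 (.s k86 k116 4 (.s k84 k87 0 (.d k252
  k168 k169 13 14)))))), (.s k1 k2 0 (.s k69 k138 10 (.s k101 k117 3 (.s k48 k154 14 (.s k33 k18 4
  (.d k169 k237 k253 9 13))))))] .n)

def s42_255_240 : T TT 256 :=
  (.q k105 [(.s k1 k2 0 (.s k125 k65 5 (.s k253 k169 13 (.s k61 k189 7 (.s k21 k41 5 (.d k149 k213
  k193 7 13)))))), (.s k65 k125 5 (.s k195 k130 8 (.s k67 k131 7 (.s k86 k124 6 (.s k84 k87 0 (.d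
  k252 k168 k169 13 14)))))), (.s k1 k2 0 (.s k169 k253 13 (.s k233 k41 7 (.s k252 k86 14 (.s k195
  k214 6 (.s k131 k67 7 (.d k150 k188 k60 6 14)))))))] (.c k169 (.l (.s k1 k2 0 (.s k65 k125 5 (.s
  k129 k193 7 (.s k66 k192 8 (.s k67 k64 0 (.d k195 k131 k130 7 8))))))) (.c k245 (.q k250 [(.s k1
  k2 0 (.s k125 k65 5 (.s k253 k169 13 (.s k61 k189 7 (.s k21 k41 5 (.d k149 k213 k193 7 13)))))),
  (.s k65 k125 5 (.s k195 k130 8 (.s k67 k131 7 (.s k86 k124 6 (.s k84 k87 0 (.d k252 k168 k169 13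
  14)))))), (.s k1 k2 0 (.s k169 k253 13 (.s k233 k41 7 (.s k252 k86 14 (.s k195 k214 6 (.s k131 k67
  7 (.d k150 k188 k60 6 14)))))))] (.c k169 (.l (.s k1 k2 0 (.s k65 k125 5 (.s k129 k193 7 (.s k66
  k192 8 (.s k67 k64 0 (.d k195 k131 k130 7 8))))))) .n)) (.c k250 (.q k245 [(.s k65 k125 5 (.s k195
  k130 8 (.s k67 k131 7 (.s k86 k124 6 (.s k84 k87 0 (.d k252 k168 k169 13 14)))))), (.s k1 k2 0 (.s
  k5 k165 11 (.s k9 k13 1 (.s k6 k12 2 (.s k7 k4 0 (.d k15 k11 k10 1 2))))))] .n) .n))))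

def s42_255_241 : T TT 256 :=
  (.q k5 [(.s k2 k1 0 (.s k10 k15 2 (.s k6 k14 1 (.s k4 k7 0 (.d k12 k8 k9 1 2))))), (.s k15 k10 2
  (.s k7 k11 1 (.s k165 k245 11 (.s k86 k244 12 (.s k84 k87 0 (.d k252 k168 k169 13 14)))))), (.s k1
  k2 0 (.s k15 k10 2 (.s k11 k7 1 (.s k169 k253 13 (.s k90 k248 12 (.d k165 k245 k240 11 14)))))),
  (.s k1 k2 0 (.s k9 k13 1 (.s k12 k6 2 (.s k4 k8 1 (.s k166 k247 12 (.s k169 k253 13 (.d k89 k249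
  k243 11 14)))))))] (.c k10 (.l (.s k1 k2 0 (.s k9 k13 1 (.s k6 k12 2 (.s k4 k7 0 (.s k166 k247 12
  (.s k86 k246 11 (.d k169 k253 k252 13 14)))))))) .n))

def s42_255_242 : T TT 256 :=
  (.q k5 [(.s k2 k1 0 (.s k10 k15 2 (.s k6 k14 1 (.s k4 k7 0 (.d k12 k8 k9 1 2))))), (.s k1 k2 0 (.s
  k13 k9 1 (.s k165 k245 11 (.s k89 k241 13 (.s k93 k81 1 (.d k253 k173 k169 11 13)))))), (.s k15
  k10 2 (.s k7 k11 1 (.s k165 k245 11 (.s k86 k244 12 (.s k84 k87 0 (.d k252 k168 k169 13 14))))))]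
  (.c k9 (.l (.s k1 k2 0 (.s k15 k10 2 (.s k11 k7 1 (.s k165 k245 11 (.s k169 k253 13 (.d k90 k240
  k248 14 12))))))) .n))

def s42_255_243 : T TT 256 :=
  (.q k48 [(.s k1 k2 0 (.s k32 k16 3 (.s k33 k18 4 (.s k17 k49 3 (.d k34 k35 k51 0 4))))), (.s k1 k2
  0 (.s k16 k32 3 (.s k154 k223 10 (.s k169 k253 13 (.s k139 k184 4 (.d k207 k71 k101 9 14)))))),
  (.s k16 k32 3 (.s k18 k33 4 (.s k154 k223 10 (.s k86 k222 9 (.s k84 k87 0 (.d k252 k168 k169 13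
  14)))))), (.s k1 k2 0 (.s k33 k18 4 (.s k169 k253 13 (.s k101 k237 9 (.s k69 k117 3 (.d k207 k138
  k154 10 14))))))] (.c k247 (.q k251 [(.s k1 k2 0 (.s k32 k16 3 (.s k33 k18 4 (.s k17 k49 3 (.d k34
  k35 k51 0 4))))), (.s k1 k2 0 (.s k16 k32 3 (.s k154 k223 10 (.s k169 k253 13 (.s k139 k184 4 (.d
  k207 k71 k101 9 14)))))), (.s k16 k32 3 (.s k18 k33 4 (.s k154 k223 10 (.s k86 k222 9 (.s k84 k87
  0 (.d k252 k168 k169 13 14)))))), (.s k1 k2 0 (.s k33 k18 4 (.s k169 k253 13 (.s k101 k237 9 (.s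
  k69 k117 3 (.d k207 k138 k154 10 14))))))] .n) (.c k251 (.q k247 [(.s k1 k2 0 (.s k32 k16 3 (.s
  k33 k18 4 (.s k17 k49 3 (.d k34 k35 k51 0 4))))), (.s k4 k166 12 (.s k12 k8 1 (.s k32 k16 3 (.s
  k36 k24 5 (.s k20 k52 3 (.d k40 k44 k60 1 5)))))), (.s k1 k2 0 (.s k33 k18 4 (.s k169 k253 13 (.s
  k101 k237 9 (.s k69 k117 3 (.d k207 k138 k154 10 14))))))] .n) .n)))

def s42_255_244 : T TT 256 :=
  (.q k12 [(.s k2 k1 0 (.s k4 k8 1 (.s k6 k9 2 (.s k10 k14 1 (.d k5 k7 k15 0 2))))), (.s k1 k2 0 (.s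
  k4 k8 1 (.s k166 k247 12 (.s k169 k253 13 (.s k163 k172 2 (.d k243 k83 k89 11 14)))))), (.s k1 k2
  0 (.s k9 k6 2 (.s k169 k253 13 (.s k89 k249 11 (.s k81 k93 1 (.d k243 k162 k166 12 14)))))), (.s
  k4 k8 1 (.s k6 k9 2 (.s k166 k247 12 (.s k243 k89 14 (.s k163 k83 11 (.s k169 k172 2 (.d k86 k246
  k252 11 14)))))))] .n)

def s42_255_245 : T TT 256 :=
  (.q k240 [(.s k2 k1 0 (.s k80 k160 11 (.s k82 k161 12 (.s k81 k83 0 (.d k162 k242 k243 11 12))))),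
  (.s k1 k2 0 (.s k80 k160 11 (.s k90 k95 2 (.s k15 k165 14 (.s k11 k7 1 (.d k169 k248 k253 12
  13)))))), (.s k80 k160 11 (.s k82 k161 12 (.s k90 k95 2 (.s k86 k94 1 (.s k84 k87 0 (.d k252 k168
  k169 13 14)))))), (.s k1 k2 0 (.s k161 k82 12 (.s k169 k253 13 (.s k165 k173 1 (.s k15 k90 14 (.s
  k7 k11 1 (.d k86 k252 k244 14 12)))))))] .n)

def s42_255_246 : T TT 256 :=
  (.q k5 [(.s k2 k1 0 (.s k10 k15 2 (.s k6 k14 1 (.s k4 k7 0 (.d k12 k8 k9 1 2))))), (.s k1 k2 0 (.s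
  k13 k9 1 (.s k165 k245 11 (.s k89 k241 13 (.s k93 k81 1 (.d k253 k173 k169 11 13)))))), (.s k15
  k10 2 (.s k7 k11 1 (.s k165 k245 11 (.s k240 k90 14 (.s k161 k82 12 (.s k169 k173 1 (.d k86 k244
  k252 12 14)))))))] (.c k9 (.l (.s k1 k2 0 (.s k15 k10 2 (.s k11 k7 1 (.s k165 k245 11 (.s k169
  k253 13 (.d k90 k240 k248 14 12))))))) .n))

def s42_255_247 : T TT 256 :=
  (.q k243 [(.s k2 k1 0 (.s k163 k83 11 (.s k162 k81 12 (.s k161 k160 0 (.d k82 k242 k240 11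
  12))))), (.s k1 k2 0 (.s k163 k83 11 (.s k169 k253 13 (.s k166 k172 2 (.s k12 k89 14 (.s k6 k9 2
  (.d k86 k252 k246 14 11))))))), (.s k81 k162 12 (.s k83 k163 11 (.s k89 k93 1 (.s k86 k92 2 (.s
  k84 k87 0 (.d k252 k168 k169 13 14)))))), (.s k1 k2 0 (.s k81 k162 12 (.s k89 k93 1 (.s k12 k166
  14 (.s k9 k6 2 (.d k169 k249 k253 11 13))))))] .n)

def s42_255_248 : T TT 256 :=
  (.q k5 [(.s k2 k1 0 (.s k10 k15 2 (.s k6 k14 1 (.s k4 k7 0 (.d k12 k8 k9 1 2))))), (.s k1 k2 0 (.s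
  k13 k9 1 (.s k165 k245 11 (.s k89 k241 13 (.s k93 k81 1 (.d k253 k173 k169 11 13)))))), (.s k15
  k10 2 (.s k7 k11 1 (.s k165 k245 11 (.s k86 k244 12 (.s k84 k87 0 (.d k252 k169 k168 14 13))))))]
  (.c k9 (.l (.s k1 k2 0 (.s k15 k10 2 (.s k165 k245 11 (.s k169 k253 13 (.s k161 k173 1 (.d k240
  k82 k90 12 14))))))) .n))

def s42_255_249 : T TT 256 :=
  (.q k5 [(.s k2 k1 0 (.s k10 k15 2 (.s k6 k14 1 (.s k4 k7 0 (.d k12 k8 k9 1 2))))), (.s k1 k2 0 (.s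
  k13 k9 1 (.s k165 k245 11 (.s k89 k241 13 (.s k253 k169 13 (.d k93 k81 k173 1 11)))))), (.s k15
  k10 2 (.s k7 k11 1 (.s k165 k245 11 (.s k86 k244 12 (.s k84 k87 0 (.d k252 k168 k169 13 14))))))]
  (.c k9 (.l (.s k1 k2 0 (.s k15 k10 2 (.s k11 k7 1 (.s k169 k253 13 (.s k90 k248 12 (.d k165 k245
  k240 11 14))))))) .n))

def s42_255_250 : T TT 256 :=
  (.q k240 [(.s k2 k1 0 (.s k80 k160 11 (.s k82 k161 12 (.s k81 k83 0 (.d k162 k242 k243 11 12))))),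
  (.s k1 k2 0 (.s k80 k160 11 (.s k90 k95 2 (.s k15 k165 14 (.s k11 k7 1 (.d k169 k248 k253 12
  13)))))), (.s k80 k160 11 (.s k82 k161 12 (.s k90 k95 2 (.s k86 k94 1 (.s k84 k87 0 (.d k252 k168
  k169 13 14)))))), (.s k1 k2 0 (.s k161 k82 12 (.s k169 k253 13 (.s k165 k173 1 (.s k5 k245 11 (.d
  k15 k10 k90 2 14))))))] .n)

def s42_255_251 : T TT 256 :=
  (.q k243 [(.s k2 k1 0 (.s k163 k83 11 (.s k162 k81 12 (.s k161 k160 0 (.d k82 k242 k240 11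
  12))))), (.s k1 k2 0 (.s k163 k83 11 (.s k169 k253 13 (.s k166 k172 2 (.s k4 k247 12 (.d k12 k8
  k89 1 14)))))), (.s k81 k162 12 (.s k83 k163 11 (.s k89 k93 1 (.s k86 k92 2 (.s k84 k87 0 (.d k252
  k168 k169 13 14)))))), (.s k1 k2 0 (.s k81 k162 12 (.s k89 k93 1 (.s k12 k166 14 (.s k9 k6 2 (.d
  k169 k249 k253 11 13))))))] .n)

def s42_255_252 : T TT 256 :=
  (.f k1 k2 0 (.f k253 k169 13 (.q k5 [(.s k13 k9 1 (.s k165 k245 11 (.s k89 k241 13 (.d k93 k81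
  k173 1 11)))), (.s k9 k13 1 (.s k6 k12 2 (.s k7 k4 0 (.d k15 k11 k10 1 2)))), (.s k15 k10 2 (.s
  k165 k245 11 (.s k240 k90 14 (.s k160 k80 11 (.s k161 k82 12 (.s k81 k241 11 (.d k162 k163 k243 0
  12)))))))] (.c k22 (.q k62 [(.s k13 k9 1 (.s k165 k245 11 (.s k89 k241 13 (.d k93 k81 k173 1
  11)))), (.s k9 k13 1 (.s k6 k12 2 (.s k7 k4 0 (.d k15 k11 k10 1 2)))), (.s k15 k10 2 (.s k165 k245
  11 (.s k240 k90 14 (.s k160 k80 11 (.s k161 k82 12 (.s k81 k241 11 (.d k162 k163 k243 0 12)))))))]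
  .n) (.c k62 (.q k22 [(.s k13 k9 1 (.s k165 k245 11 (.s k89 k241 13 (.d k93 k81 k173 1 11)))), (.s
  k15 k10 2 (.s k11 k7 1 (.s k41 k60 6 (.s k26 k56 4 (.s k18 k30 1 (.d k48 k33 k37 4 6))))))] .n)
  .n)))))

def s42_255_253 : T TT 256 :=
  (.f k2 k1 0 (.q k5 [(.s k10 k15 2 (.s k6 k14 1 (.s k4 k7 0 (.d k12 k8 k9 1 2)))), (.s k15 k10 2
  (.s k165 k245 11 (.s k240 k90 14 (.s k80 k160 11 (.s k82 k161 12 (.s k81 k83 0 (.d k162 k242 k243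
  11 12)))))))] (.c k10 (.q k86 [(.s k84 k87 0 (.d k252 k168 k169 13 14)), (.s k165 k245 11 (.s k7
  k244 12 (.s k15 k11 1 (.s k240 k90 14 (.s k160 k80 11 (.d k170 k254 k175 13 2))))))] (.c k26 (.q
  k58 [(.s k84 k87 0 (.d k252 k168 k169 13 14)), (.s k165 k245 11 (.s k7 k244 12 (.s k15 k11 1 (.s
  k240 k90 14 (.s k160 k80 11 (.d k170 k254 k175 13 2))))))] (.c k169 (.l (.s k87 k84 0 (.s k165
  k245 11 (.s k7 k244 12 (.s k4 k6 0 (.d k247 k167 k166 11 12)))))) (.c k252 (.l (.s k254 k170 13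
  (.s k87 k84 0 (.s k165 k245 11 (.s k7 k244 12 (.s k4 k6 0 (.d k247 k167 k166 11 12))))))) (.c k254
  (.l (.s k252 k169 14 (.d k84 k87 k168 0 13))) .n)))) (.c k58 (.q k26 [(.s k84 k87 0 (.d k252 k168
  k169 13 14)), (.s k165 k245 11 (.s k7 k244 12 (.s k15 k11 1 (.s k240 k90 14 (.s k160 k80 11 (.d
  k170 k254 k175 13 2))))))] (.c k169 (.l (.s k87 k84 0 (.s k165 k245 11 (.s k7 k244 12 (.s k4 k6 0
  (.d k247 k167 k166 11 12)))))) (.c k252 (.l (.s k254 k170 13 (.s k87 k84 0 (.s k165 k245 11 (.s k7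
  k244 12 (.s k4 k6 0 (.d k247 k167 k166 11 12))))))) (.c k254 (.l (.s k252 k169 14 (.d k84 k87 k168
  0 13))) .n)))) (.c k169 (.l (.s k87 k84 0 (.s k165 k245 11 (.s k7 k244 12 (.s k4 k6 0 (.d k247
  k167 k166 11 12)))))) (.c k252 (.l (.s k254 k170 13 (.s k87 k84 0 (.s k165 k245 11 (.s k7 k244 12
  (.s k4 k6 0 (.d k247 k167 k166 11 12))))))) (.c k254 (.l (.s k252 k169 14 (.d k84 k87 k168 0 13)))
  .n)))))) (.c k15 (.q k86 [(.s k84 k87 0 (.d k252 k168 k169 13 14)), (.s k165 k245 11 (.s k170 k254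
  13 (.s k252 k169 14 (.s k244 k7 12 (.s k240 k248 1 (.d k160 k175 k80 2 11))))))] (.c k95 (.q k175
  [(.s k252 k169 14 (.d k84 k87 k168 0 13)), (.s k165 k245 11 (.d k170 k254 k160 13 2))] (.c k252
  (.l (.s k254 k170 13 (.s k87 k84 0 (.s k165 k245 11 (.s k7 k244 12 (.s k4 k6 0 (.d k247 k167 k166
  11 12))))))) (.c k254 (.l (.s k252 k169 14 (.d k84 k87 k168 0 13))) .n))) (.c k169 (.l (.s k87 k84
  0 (.s k165 k245 11 (.s k7 k244 12 (.s k4 k6 0 (.d k247 k167 k166 11 12)))))) (.c k175 (.q k95 [(.s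
  k84 k87 0 (.d k252 k168 k169 13 14)), (.s k80 k90 2 (.s k165 k245 11 (.s k240 k160 11 (.s k161 k82
  12 (.d k169 k252 k173 14 1)))))] (.c k169 (.l (.s k80 k90 2 (.s k84 k87 0 (.s k92 k88 1 (.s k89
  k83 2 (.d k93 k94 k81 0 1)))))) (.c k252 (.l (.s k254 k170 13 (.s k80 k90 2 (.s k84 k87 0 (.s k92
  k88 1 (.s k89 k83 2 (.d k93 k94 k81 0 1))))))) (.c k254 (.l (.s k252 k169 14 (.d k84 k87 k168 0
  13))) .n)))) (.c k252 (.l (.s k254 k170 13 (.s k87 k84 0 (.s k165 k245 11 (.s k7 k244 12 (.s k4 k6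
  0 (.d k247 k167 k166 11 12))))))) (.c k254 (.l (.s k252 k169 14 (.d k84 k87 k168 0 13))) .n))))))
  (.c k252 (.q k254 [(.s k10 k15 2 (.s k6 k14 1 (.s k4 k7 0 (.d k12 k8 k9 1 2)))), (.s k15 k10 2 (.s
  k165 k245 11 (.s k170 k86 13 (.s k160 k175 2 (.d k240 k80 k90 11 14))))), (.s k86 k170 13 (.s k87
  k84 0 (.s k165 k245 11 (.s k7 k244 12 (.s k4 k6 0 (.d k247 k167 k166 11 12))))))] .n) (.c k254 (.q
  k252 [(.s k84 k168 13 (.d k86 k87 k169 0 14)), (.s k10 k15 2 (.s k6 k14 1 (.s k4 k7 0 (.d k12 k8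
  k9 1 2))))] .n) .n))))))

def s42_255_254 : T TT 256 :=
  (.q k5 [(.s k2 k1 0 (.s k10 k15 2 (.s k6 k14 1 (.s k4 k7 0 (.d k12 k8 k9 1 2))))), (.s k1 k2 0 (.s
  k13 k9 1 (.s k165 k245 11 (.s k89 k241 13 (.s k93 k81 1 (.d k253 k173 k169 11 13)))))), (.s k15
  k10 2 (.s k7 k11 1 (.s k165 k245 11 (.s k86 k244 12 (.s k84 k87 0 (.d k252 k168 k169 13 14))))))]
  (.c k9 (.l (.s k1 k2 0 (.s k15 k10 2 (.s k165 k245 11 (.s k240 k90 14 (.s k161 k82 12 (.d k169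
  k173 k253 1 13))))))) (.c k252 (.q k253 [(.d k1 k2 k169 0 13), (.s k15 k10 2 (.s k7 k11 1 (.s k4
  k6 0 (.s k165 k245 11 (.s k86 k244 12 (.s k87 k84 0 (.d k247 k167 k166 11 12)))))))] (.c k2 (.l
  (.s k1 k169 13 (.s k9 k13 1 (.s k6 k12 2 (.s k7 k4 0 (.d k15 k11 k10 1 2)))))) .n)) (.c k253 (.q
  k252 [(.s k84 k168 13 (.d k86 k87 k169 0 14)), (.s k2 k1 0 (.s k10 k15 2 (.s k6 k14 1 (.s k4 k7 0
  (.d k12 k8 k9 1 2)))))] .n) .n))))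

def t42_255 : T TT 256 :=
  (.q k3 [] (.c k1 s42_255_1 (.c k2 s42_255_2 (.c k4 s42_255_4 (.c k5 s42_255_5 (.c k6 s42_255_6 (.c
  k7 s42_255_7 (.c k8 s42_255_8 (.c k9 s42_255_9 (.c k10 s42_255_10 (.c k11 s42_255_11 (.c k12
  s42_255_12 (.c k13 s42_255_13 (.c k14 s42_255_14 (.c k15 s42_255_15 (.c k16 s42_255_16 (.c k17
  s42_255_17 (.c k18 s42_255_18 (.c k19 s42_255_19 (.c k20 s42_255_20 (.c k21 s42_255_21 (.c k22
  s42_255_22 (.c k23 s42_255_23 (.c k24 s42_255_24 (.c k25 s42_255_25 (.c k26 s42_255_26 (.c k27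
  s42_255_27 (.c k28 s42_255_28 (.c k29 s42_255_29 (.c k30 s42_255_30 (.c k31 s42_255_31 (.c k32
  s42_255_32 (.c k33 s42_255_33 (.c k34 s42_255_34 (.c k35 s42_255_35 (.c k36 s42_255_36 (.c k37
  s42_255_37 (.c k38 s42_255_38 (.c k39 s42_255_39 (.c k40 s42_255_40 (.c k41 s42_255_41 (.c k43
  s42_255_43 (.c k44 s42_255_44 (.c k45 s42_255_45 (.c k46 s42_255_46 (.c k47 s42_255_47 (.c k48
  s42_255_48 (.c k49 s42_255_49 (.c k50 s42_255_50 (.c k51 s42_255_51 (.c k52 s42_255_52 (.c k53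
  s42_255_53 (.c k54 s42_255_54 (.c k55 s42_255_55 (.c k56 s42_255_56 (.c k57 s42_255_57 (.c k58
  s42_255_58 (.c k59 s42_255_59 (.c k60 s42_255_60 (.c k61 s42_255_61 (.c k62 s42_255_62 (.c k63
  s42_255_63 (.c k64 s42_255_64 (.c k65 s42_255_65 (.c k66 s42_255_66 (.c k67 s42_255_67 (.c k68
  s42_255_68 (.c k69 s42_255_69 (.c k70 s42_255_70 (.c k71 s42_255_71 (.c k72 s42_255_72 (.c k73
  s42_255_73 (.c k74 s42_255_74 (.c k75 s42_255_75 (.c k76 s42_255_76 (.c k77 s42_255_77 (.c k78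
  s42_255_78 (.c k79 s42_255_79 (.c k80 s42_255_80 (.c k81 s42_255_81 (.c k82 s42_255_82 (.c k83
  s42_255_83 (.c k84 s42_255_84 (.c k86 s42_255_86 (.c k87 s42_255_87 (.c k88 s42_255_88 (.c k89
  s42_255_89 (.c k90 s42_255_90 (.c k91 s42_255_91 (.c k92 s42_255_92 (.c k93 s42_255_93 (.c k94
  s42_255_94 (.c k95 s42_255_95 (.c k96 s42_255_96 (.c k97 s42_255_97 (.c k98 s42_255_98 (.c k99
  s42_255_99 (.c k100 s42_255_100 (.c k101 s42_255_101 (.c k102 s42_255_102 (.c k103 s42_255_103 (.c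
  k104 s42_255_104 (.c k105 s42_255_105 (.c k106 s42_255_106 (.c k107 s42_255_107 (.c k108
  s42_255_108 (.c k109 s42_255_109 (.c k110 s42_255_110 (.c k111 s42_255_111 (.c k112 s42_255_112
  (.c k113 s42_255_113 (.c k114 s42_255_114 (.c k115 s42_255_115 (.c k116 s42_255_116 (.c k117
  s42_255_117 (.c k118 s42_255_118 (.c k119 s42_255_119 (.c k120 s42_255_120 (.c k121 s42_255_121
  (.c k122 s42_255_122 (.c k123 s42_255_123 (.c k124 s42_255_124 (.c k125 s42_255_125 (.c k126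
  s42_255_126 (.c k127 s42_255_127 (.c k128 s42_255_128 (.c k129 s42_255_129 (.c k130 s42_255_130
  (.c k131 s42_255_131 (.c k132 s42_255_132 (.c k133 s42_255_133 (.c k134 s42_255_134 (.c k135
  s42_255_135 (.c k136 s42_255_136 (.c k137 s42_255_137 (.c k138 s42_255_138 (.c k139 s42_255_139
  (.c k140 s42_255_140 (.c k141 s42_255_141 (.c k142 s42_255_142 (.c k143 s42_255_143 (.c k144
  s42_255_144 (.c k145 s42_255_145 (.c k146 s42_255_146 (.c k147 s42_255_147 (.c k148 s42_255_148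
  (.c k149 s42_255_149 (.c k150 s42_255_150 (.c k151 s42_255_151 (.c k152 s42_255_152 (.c k153
  s42_255_153 (.c k154 s42_255_154 (.c k155 s42_255_155 (.c k156 s42_255_156 (.c k157 s42_255_157
  (.c k158 s42_255_158 (.c k159 s42_255_159 (.c k160 s42_255_160 (.c k161 s42_255_161 (.c k162
  s42_255_162 (.c k163 s42_255_163 (.c k164 s42_255_164 (.c k165 s42_255_165 (.c k166 s42_255_166
  (.c k167 s42_255_167 (.c k168 s42_255_168 (.c k169 s42_255_169 (.c k170 s42_255_170 (.c k171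
  s42_255_171 (.c k172 s42_255_172 (.c k173 s42_255_173 (.c k174 s42_255_174 (.c k175 s42_255_175
  (.c k176 s42_255_176 (.c k177 s42_255_177 (.c k178 s42_255_178 (.c k179 s42_255_179 (.c k180
  s42_255_180 (.c k181 s42_255_181 (.c k182 s42_255_182 (.c k183 s42_255_183 (.c k184 s42_255_184
  (.c k185 s42_255_185 (.c k186 s42_255_186 (.c k187 s42_255_187 (.c k188 s42_255_188 (.c k189
  s42_255_189 (.c k190 s42_255_190 (.c k191 s42_255_191 (.c k192 s42_255_192 (.c k193 s42_255_193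
  (.c k194 s42_255_194 (.c k195 s42_255_195 (.c k196 s42_255_196 (.c k197 s42_255_197 (.c k198
  s42_255_198 (.c k199 s42_255_199 (.c k200 s42_255_200 (.c k201 s42_255_201 (.c k202 s42_255_202
  (.c k203 s42_255_203 (.c k204 s42_255_204 (.c k205 s42_255_205 (.c k206 s42_255_206 (.c k207
  s42_255_207 (.c k208 s42_255_208 (.c k209 s42_255_209 (.c k210 s42_255_210 (.c k211 s42_255_211
  (.c k212 s42_255_212 (.c k213 s42_255_213 (.c k214 s42_255_214 (.c k215 s42_255_215 (.c k216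
  s42_255_216 (.c k217 s42_255_217 (.c k218 s42_255_218 (.c k219 s42_255_219 (.c k220 s42_255_220
  (.c k221 s42_255_221 (.c k222 s42_255_222 (.c k223 s42_255_223 (.c k224 s42_255_224 (.c k225
  s42_255_225 (.c k226 s42_255_226 (.c k227 s42_255_227 (.c k228 s42_255_228 (.c k229 s42_255_229
  (.c k230 s42_255_230 (.c k231 s42_255_231 (.c k232 s42_255_232 (.c k233 s42_255_233 (.c k234
  s42_255_234 (.c k235 s42_255_235 (.c k236 s42_255_236 (.c k237 s42_255_237 (.c k238 s42_255_238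
  (.c k239 s42_255_239 (.c k240 s42_255_240 (.c k241 s42_255_241 (.c k242 s42_255_242 (.c k243
  s42_255_243 (.c k244 s42_255_244 (.c k245 s42_255_245 (.c k246 s42_255_246 (.c k247 s42_255_247
  (.c k248 s42_255_248 (.c k249 s42_255_249 (.c k250 s42_255_250 (.c k251 s42_255_251 (.c k252
  s42_255_252 (.c k253 s42_255_253 (.c k254 s42_255_254
  .n))))))))))))))))))))))))))))))))))))))))))))))))))))))))))))))))))))))))))))))))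
  ))))))))))))))))))))))))))))))))))))))))))))))))))))))))))))))))))))))))))))))))
  )))))))))))))))))))))))))))))))))))))))))))))))))))))))))))))))))))))))))))))))) ))))))))))))

def s43_170_1 : T TT 256 :=
  (.q k64 [(.s k67 k66 0 (.s k105 k125 5 (.s k86 k124 6 (.s k87 k84 0 (.d k127 k107 k106 5 6))))),
  (.s k106 k127 6 (.s k192 k128 7 (.s k195 k130 8 (.s k194 k193 0 (.s k150 k62 13 (.s k20 k215 8 (.d
  k60 k40 k105 5 14)))))))] (.c k105 (.l (.s k66 k67 0 (.s k106 k127 6 (.s k86 k126 5 (.s k192 k128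
  7 (.s k3 k129 8 (.s k252 k169 14 (.d k84 k87 k168 0 13)))))))) (.c k106 (.l (.s k67 k66 0 (.s k105
  k125 5 (.s k86 k124 6 (.s k84 k87 0 (.s k195 k130 8 (.s k3 k131 7 (.d k252 k168 k169 13 14))))))))
  (.c k127 (.l (.s k67 k66 0 (.s k105 k125 5 (.s k124 k86 6 (.s k84 k104 5 (.s k195 k130 8 (.s k252
  k168 13 (.d k60 k150 k188 14 7)))))))) .n))))

def s43_170_2 : T TT 256 :=
  (.f k105 k125 5 (.q k86 [(.s k67 k124 6 (.s k64 k66 0 (.s k87 k84 0 (.d k127 k107 k106 5 6)))),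
  (.s k84 k87 0 (.s k195 k130 8 (.s k150 k60 14 (.s k214 k22 7 (.d k252 k233 k168 6 13))))), (.s k84
  k87 0 (.s k124 k67 6 (.s k252 k168 13 (.s k60 k188 7 (.d k195 k130 k150 8 14))))), (.s k67 k124 6
  (.s k195 k130 8 (.s k3 k131 7 (.s k150 k60 14 (.s k214 k22 7 (.d k252 k233 k169 6 14))))))] (.c
  k130 (.l (.s k67 k124 6 (.s k87 k84 0 (.s k127 k107 5 (.d k64 k66 k106 0 6))))) .n)))

def s43_170_3 : T TT 256 :=
  (.f k105 k125 5 (.q k63 [(.s k195 k130 8 (.s k107 k151 13 (.s k106 k104 0 (.s k64 k127 6 (.d k192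
  k128 k149 7 14))))), (.s k21 k42 6 (.s k149 k213 7 (.s k61 k193 13 (.s k60 k62 0 (.d k195 k130
  k150 8 14))))), (.s k21 k42 6 (.s k149 k213 7 (.s k106 k192 14 (.s k64 k127 6 (.s k104 k107 0 (.s
  k124 k84 5 (.d k67 k66 k86 0 6)))))))] (.c k106 (.l (.s k195 k130 8 (.s k150 k60 14 (.s k151 k107
  13 (.s k149 k148 0 (.d k21 k42 k213 6 7)))))) (.c k149 (.l (.s k195 k130 8 (.s k107 k151 13 (.s
  k106 k104 0 (.s k64 k127 6 (.s k150 k60 14 (.s k194 k62 13 (.d k192 k193 k128 0 7)))))))) .n))))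

def s43_170_4 : T TT 256 :=
  (.q k1 [(.s k3 k2 0 (.s k129 k193 7 (.s k66 k192 8 (.s k67 k64 0 (.d k195 k131 k130 7 8))))), (.s
  k105 k125 5 (.s k169 k253 13 (.s k41 k233 7 (.s k61 k21 5 (.d k193 k129 k149 7 13))))), (.s k3 k2
  0 (.s k105 k125 5 (.s k169 k253 13 (.s k86 k252 14 (.s k67 k124 6 (.d k195 k131 k130 7 8))))))]
  .n)

def s43_170_5 : T TT 256 :=
  (.q k1 [(.s k3 k2 0 (.s k129 k193 7 (.s k66 k192 8 (.s k67 k64 0 (.d k195 k131 k130 7 8))))), (.s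
  k105 k125 5 (.s k169 k253 13 (.s k41 k233 7 (.s k61 k21 5 (.d k193 k129 k149 7 13))))), (.s k3 k2
  0 (.s k105 k125 5 (.s k169 k253 13 (.s k86 k252 14 (.s k67 k124 6 (.d k195 k131 k130 7 8))))))]
  .n)

def s43_170_6 : T TT 256 :=
  (.q k1 [(.s k105 k125 5 (.s k169 k253 13 (.s k41 k233 7 (.s k61 k21 5 (.d k193 k129 k149 7
  13))))), (.s k3 k2 0 (.s k129 k193 7 (.s k66 k192 8 (.s k67 k64 0 (.d k195 k131 k130 7 8))))), (.s
  k3 k2 0 (.s k105 k125 5 (.s k169 k253 13 (.s k86 k252 14 (.s k67 k124 6 (.d k195 k131 k130 7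
  8))))))] .n)

def s43_170_7 : T TT 256 :=
  (.q k1 [(.s k105 k125 5 (.s k169 k253 13 (.s k41 k233 7 (.s k61 k21 5 (.d k193 k129 k149 7
  13))))), (.s k3 k2 0 (.s k129 k193 7 (.s k66 k192 8 (.s k67 k64 0 (.d k195 k131 k130 7 8))))), (.s
  k3 k2 0 (.s k105 k125 5 (.s k169 k253 13 (.s k86 k252 14 (.s k67 k124 6 (.d k195 k131 k130 7
  8))))))] .n)

def s43_170_8 : T TT 256 :=
  (.q k89 [(.s k81 k93 1 (.s k113 k97 3 (.s k101 k77 5 (.s k117 k69 3 (.d k125 k121 k105 1 5))))),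
  (.s k81 k93 1 (.s k97 k113 3 (.s k162 k243 12 (.s k32 k227 8 (.s k48 k16 3 (.d k195 k130 k146 8
  12)))))), (.s k105 k125 5 (.s k73 k121 3 (.s k195 k130 8 (.s k12 k134 10 (.s k150 k60 14 (.s k211
  k28 10 (.d k243 k227 k166 3 14)))))))] (.c k113 (.l (.s k81 k93 1 (.s k105 k125 5 (.s k121 k73 3
  (.s k195 k130 8 (.s k243 k162 12 (.d k60 k150 k182 14 10))))))) .n))

def s43_170_9 : T TT 256 :=
  (.q k1 [(.s k105 k125 5 (.s k169 k253 13 (.s k41 k233 7 (.s k61 k21 5 (.d k193 k129 k149 7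
  13))))), (.s k3 k2 0 (.s k129 k193 7 (.s k66 k192 8 (.s k67 k64 0 (.d k195 k131 k130 7 8))))), (.s
  k3 k2 0 (.s k105 k125 5 (.s k169 k253 13 (.s k86 k252 14 (.s k67 k124 6 (.d k195 k131 k130 7
  8))))))] .n)

def s43_170_10 : T TT 256 :=
  (.f k105 k125 5 (.q k90 [(.s k75 k120 4 (.s k80 k95 2 (.s k195 k130 8 (.s k15 k135 9 (.d k240 k160
  k165 11 14))))), (.s k80 k95 2 (.s k240 k160 11 (.s k165 k15 14 (.s k225 k45 9 (.d k195 k210 k130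
  4 8))))), (.s k75 k120 4 (.s k195 k130 8 (.s k15 k135 9 (.s k150 k60 14 (.s k210 k30 9 (.d k240
  k225 k165 4 14)))))), (.s k80 k95 2 (.s k120 k75 4 (.s k240 k160 11 (.s k60 k180 9 (.s k20 k40 5
  (.d k150 k215 k195 8 14))))))] (.c k165 (.l (.s k80 k95 2 (.s k195 k130 8 (.s k150 k60 14 (.s k210
  k30 9 (.d k240 k225 k160 4 11)))))) (.c k195 (.q k1 [(.s k193 k129 7 (.s k149 k61 13 (.s k213 k21
  7 (.d k253 k233 k169 5 13)))), (.s k3 k2 0 (.s k80 k95 2 (.s k240 k160 11 (.s k82 k161 12 (.s k86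
  k94 1 (.s k84 k87 0 (.d k252 k168 k169 13 14)))))))] (.c k169 (.l (.s k80 k95 2 (.s k193 k129 7
  (.s k149 k61 13 (.s k208 k31 10 (.s k16 k144 7 (.s k213 k21 7 (.d k223 k218 k154 2 10)))))))) .n))
  (.c k240 (.l (.s k75 k120 4 (.s k95 k80 2 (.s k195 k130 8 (.s k15 k135 9 (.s k255 k175 11 (.s k215
  k235 5 (.d k150 k60 k20 14 8)))))))) .n)))))

def s43_170_11 : T TT 256 :=
  (.f k130 k195 8 (.f k105 k125 5 (.q k1 [(.s k129 k193 7 (.s k128 k131 0 (.s k192 k64 7 (.d k3 k2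
  k66 0 8)))), (.s k169 k253 13 (.s k41 k233 7 (.s k61 k21 5 (.d k193 k129 k149 7 13)))), (.s k3 k2
  0 (.s k169 k253 13 (.s k86 k252 14 (.s k67 k124 6 (.s k64 k66 0 (.s k87 k84 0 (.d k127 k107 k106 5
  6)))))))] (.c k27 (.q k59 [(.s k129 k193 7 (.s k128 k131 0 (.s k192 k64 7 (.d k3 k2 k66 0 8)))),
  (.s k169 k253 13 (.s k41 k233 7 (.s k61 k21 5 (.d k193 k129 k149 7 13)))), (.s k3 k2 0 (.s k169
  k253 13 (.s k86 k252 14 (.s k67 k124 6 (.s k64 k66 0 (.s k87 k84 0 (.d k127 k107 k106 5 6)))))))]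
  .n) (.c k59 (.q k27 [(.s k129 k193 7 (.s k128 k131 0 (.s k192 k64 7 (.d k3 k2 k66 0 8)))), (.s
  k169 k253 13 (.s k41 k233 7 (.s k61 k21 5 (.d k193 k129 k149 7 13)))), (.s k3 k2 0 (.s k169 k253
  13 (.s k86 k252 14 (.s k67 k124 6 (.s k64 k66 0 (.s k87 k84 0 (.d k127 k107 k106 5 6)))))))] .n)
  .n)))))

def s43_170_12 : T TT 256 :=
  (.q k1 [(.s k105 k125 5 (.s k169 k253 13 (.s k41 k233 7 (.s k61 k21 5 (.d k193 k129 k149 7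
  13))))), (.s k3 k2 0 (.s k129 k193 7 (.s k66 k192 8 (.s k67 k64 0 (.d k195 k131 k130 7 8))))), (.s
  k3 k2 0 (.s k105 k125 5 (.s k169 k253 13 (.s k86 k252 14 (.s k67 k124 6 (.d k195 k131 k130 7
  8))))))] .n)

def s43_170_13 : T TT 256 :=
  (.q k1 [(.s k105 k125 5 (.s k169 k253 13 (.s k41 k233 7 (.s k61 k21 5 (.d k193 k129 k149 7
  13))))), (.s k3 k2 0 (.s k129 k193 7 (.s k66 k192 8 (.s k67 k64 0 (.d k195 k131 k130 7 8))))), (.s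
  k3 k2 0 (.s k105 k125 5 (.s k169 k253 13 (.s k86 k252 14 (.s k67 k124 6 (.d k195 k131 k130 7
  8))))))] .n)

def s43_170_14 : T TT 256 :=
  (.q k1 [(.s k105 k125 5 (.s k169 k253 13 (.s k41 k233 7 (.s k61 k21 5 (.d k193 k129 k149 7
  13))))), (.s k3 k2 0 (.s k129 k193 7 (.s k66 k192 8 (.s k67 k64 0 (.d k195 k131 k130 7 8))))), (.s
  k3 k2 0 (.s k105 k125 5 (.s k169 k253 13 (.s k86 k252 14 (.s k67 k124 6 (.d k195 k131 k130 7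
  8))))))] .n)

def s43_170_15 : T TT 256 :=
  (.q k1 [(.s k105 k125 5 (.s k169 k253 13 (.s k41 k233 7 (.s k61 k21 5 (.d k193 k129 k149 7
  13))))), (.s k3 k2 0 (.s k129 k193 7 (.s k66 k192 8 (.s k67 k64 0 (.d k195 k131 k130 7 8))))), (.s
  k3 k2 0 (.s k105 k125 5 (.s k169 k253 13 (.s k86 k252 14 (.s k67 k124 6 (.d k195 k131 k130 7
  8))))))] .n)

def s43_170_16 : T TT 256 :=
  (.q k1 [(.s k3 k2 0 (.s k129 k193 7 (.s k66 k192 8 (.s k67 k64 0 (.d k195 k131 k130 7 8))))), (.s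
  k105 k125 5 (.s k169 k253 13 (.s k41 k233 7 (.s k61 k21 5 (.d k193 k129 k149 7 13))))), (.s k3 k2
  0 (.s k105 k125 5 (.s k169 k253 13 (.s k86 k252 14 (.s k67 k124 6 (.d k195 k131 k130 7 8))))))]
  .n)

def s43_170_17 : T TT 256 :=
  (.q k1 [(.s k3 k2 0 (.s k129 k193 7 (.s k66 k192 8 (.s k67 k64 0 (.d k195 k131 k130 7 8))))), (.s
  k105 k125 5 (.s k169 k253 13 (.s k41 k233 7 (.s k61 k21 5 (.d k193 k129 k149 7 13))))), (.s k3 k2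
  0 (.s k105 k125 5 (.s k169 k253 13 (.s k86 k252 14 (.s k67 k124 6 (.d k195 k131 k130 7 8))))))]
  .n)

def s43_170_18 : T TT 256 :=
  (.q k1 [(.s k105 k125 5 (.s k169 k253 13 (.s k41 k233 7 (.s k61 k21 5 (.d k193 k129 k149 7
  13))))), (.s k3 k2 0 (.s k129 k193 7 (.s k66 k192 8 (.s k67 k64 0 (.d k195 k131 k130 7 8))))), (.s
  k3 k2 0 (.s k105 k125 5 (.s k169 k253 13 (.s k86 k252 14 (.s k67 k124 6 (.d k195 k131 k130 7
  8))))))] .n)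

def s43_170_19 : T TT 256 :=
  (.q k1 [(.s k105 k125 5 (.s k169 k253 13 (.s k41 k233 7 (.s k61 k21 5 (.d k193 k129 k149 7
  13))))), (.s k3 k2 0 (.s k129 k193 7 (.s k66 k192 8 (.s k67 k64 0 (.d k195 k131 k130 7 8))))), (.s
  k3 k2 0 (.s k105 k125 5 (.s k169 k253 13 (.s k86 k252 14 (.s k67 k124 6 (.d k195 k131 k130 7
  8))))))] .n)

def s43_170_20 : T TT 256 :=
  (.q k1 [(.s k3 k2 0 (.s k129 k193 7 (.s k66 k192 8 (.s k67 k64 0 (.d k195 k131 k130 7 8))))), (.s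
  k105 k125 5 (.s k169 k253 13 (.s k41 k233 7 (.s k61 k21 5 (.d k193 k129 k149 7 13))))), (.s k3 k2
  0 (.s k105 k125 5 (.s k169 k253 13 (.s k86 k252 14 (.s k67 k124 6 (.d k195 k131 k130 7 8))))))]
  .n)

def s43_170_21 : T TT 256 :=
  (.q k3 [(.s k1 k2 0 (.s k129 k193 7 (.s k66 k192 8 (.s k67 k64 0 (.d k195 k131 k130 7 8))))), (.s
  k105 k125 5 (.s k195 k130 8 (.s k67 k131 7 (.s k86 k124 6 (.s k84 k87 0 (.d k252 k168 k169 13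
  14)))))), (.s k1 k2 0 (.s k105 k125 5 (.s k169 k253 13 (.s k41 k233 7 (.s k60 k22 6 (.d k195 k130
  k150 8 14)))))), (.s k1 k2 0 (.s k105 k125 5 (.s k129 k193 7 (.s k169 k253 13 (.s k86 k252 14 (.s
  k67 k124 6 (.d k66 k64 k192 0 8)))))))] (.c k86 (.l (.s k2 k1 0 (.s k130 k195 8 (.s k66 k194 7 (.s
  k64 k67 0 (.d k192 k128 k129 7 8)))))) .n))

def s43_170_22 : T TT 256 :=
  (.q k1 [(.s k105 k125 5 (.s k169 k253 13 (.s k41 k233 7 (.s k61 k21 5 (.d k193 k129 k149 7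
  13))))), (.s k3 k2 0 (.s k129 k193 7 (.s k66 k192 8 (.s k67 k64 0 (.d k195 k131 k130 7 8))))), (.s
  k3 k2 0 (.s k105 k125 5 (.s k169 k253 13 (.s k86 k252 14 (.s k67 k124 6 (.d k195 k131 k130 7
  8))))))] .n)

def s43_170_23 : T TT 256 :=
  (.q k3 [(.s k2 k1 0 (.s k130 k195 8 (.s k66 k194 7 (.s k64 k67 0 (.d k192 k128 k129 7 8))))), (.s
  k1 k2 0 (.s k105 k125 5 (.s k169 k253 13 (.s k41 k233 7 (.s k61 k21 5 (.d k193 k129 k149 7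
  13)))))), (.s k105 k125 5 (.s k195 k130 8 (.s k67 k131 7 (.s k86 k124 6 (.s k84 k87 0 (.d k252
  k168 k169 13 14))))))] (.c k129 (.l (.s k1 k2 0 (.s k105 k125 5 (.s k169 k253 13 (.s k41 k233 7
  (.s k60 k22 6 (.d k195 k130 k150 8 14))))))) .n))

def s43_170_24 : T TT 256 :=
  (.q k1 [(.s k105 k125 5 (.s k169 k253 13 (.s k41 k233 7 (.s k61 k21 5 (.d k193 k129 k149 7
  13))))), (.s k3 k2 0 (.s k129 k193 7 (.s k66 k192 8 (.s k67 k64 0 (.d k195 k131 k130 7 8))))), (.s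
  k3 k2 0 (.s k105 k125 5 (.s k169 k253 13 (.s k86 k252 14 (.s k67 k124 6 (.d k195 k131 k130 7
  8))))))] .n)

def s43_170_25 : T TT 256 :=
  (.q k1 [(.s k3 k2 0 (.s k129 k193 7 (.s k66 k192 8 (.s k67 k64 0 (.d k195 k131 k130 7 8))))), (.s
  k105 k125 5 (.s k169 k253 13 (.s k41 k233 7 (.s k61 k21 5 (.d k193 k129 k149 7 13))))), (.s k3 k2
  0 (.s k105 k125 5 (.s k169 k253 13 (.s k86 k252 14 (.s k67 k124 6 (.d k195 k131 k130 7 8))))))]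
  .n)

def s43_170_26 : T TT 256 :=
  (.q k1 [(.s k3 k2 0 (.s k129 k193 7 (.s k66 k192 8 (.s k67 k64 0 (.d k195 k131 k130 7 8))))), (.s
  k105 k125 5 (.s k169 k253 13 (.s k41 k233 7 (.s k61 k21 5 (.d k193 k129 k149 7 13))))), (.s k3 k2
  0 (.s k105 k125 5 (.s k169 k253 13 (.s k86 k252 14 (.s k67 k124 6 (.d k195 k131 k130 7 8))))))]
  .n)

def s43_170_27 : T TT 256 :=
  (.f k130 k195 8 (.f k105 k125 5 (.q k1 [(.s k129 k193 7 (.s k128 k131 0 (.s k192 k64 7 (.d k3 k2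
  k66 0 8)))), (.s k169 k253 13 (.s k41 k233 7 (.s k61 k21 5 (.d k193 k129 k149 7 13)))), (.s k3 k2
  0 (.s k169 k253 13 (.s k86 k252 14 (.s k67 k124 6 (.s k64 k66 0 (.s k87 k84 0 (.d k127 k107 k106 5
  6)))))))] (.c k11 (.q k59 [(.s k129 k193 7 (.s k128 k131 0 (.s k192 k64 7 (.d k3 k2 k66 0 8)))),
  (.s k169 k253 13 (.s k41 k233 7 (.s k61 k21 5 (.d k193 k129 k149 7 13)))), (.s k3 k2 0 (.s k169
  k253 13 (.s k86 k252 14 (.s k67 k124 6 (.s k64 k66 0 (.s k87 k84 0 (.d k127 k107 k106 5 6)))))))]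
  .n) (.c k59 (.q k11 [(.s k129 k193 7 (.s k128 k131 0 (.s k192 k64 7 (.d k3 k2 k66 0 8)))), (.s
  k169 k253 13 (.s k41 k233 7 (.s k61 k21 5 (.d k193 k129 k149 7 13)))), (.s k3 k2 0 (.s k15 k7 1
  (.s k5 k10 2 (.s k165 k245 11 (.s k90 k240 14 (.d k169 k248 k253 12 13))))))] .n) .n)))))

def s43_170_28 : T TT 256 :=
  (.q k1 [(.s k105 k125 5 (.s k169 k253 13 (.s k41 k233 7 (.s k61 k21 5 (.d k193 k129 k149 7
  13))))), (.s k3 k2 0 (.s k129 k193 7 (.s k66 k192 8 (.s k67 k64 0 (.d k195 k131 k130 7 8))))), (.s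
  k3 k2 0 (.s k105 k125 5 (.s k169 k253 13 (.s k86 k252 14 (.s k67 k124 6 (.d k195 k131 k130 7
  8))))))] .n)

def s43_170_29 : T TT 256 :=
  (.q k1 [(.s k3 k2 0 (.s k129 k193 7 (.s k66 k192 8 (.s k67 k64 0 (.d k195 k131 k130 7 8))))), (.s
  k105 k125 5 (.s k169 k253 13 (.s k41 k233 7 (.s k61 k21 5 (.d k193 k129 k149 7 13))))), (.s k3 k2
  0 (.s k105 k125 5 (.s k169 k253 13 (.s k86 k252 14 (.s k67 k124 6 (.d k195 k131 k130 7 8))))))]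
  .n)

def s43_170_30 : T TT 256 :=
  (.q k1 [(.s k105 k125 5 (.s k169 k253 13 (.s k41 k233 7 (.s k61 k21 5 (.d k193 k129 k149 7
  13))))), (.s k3 k2 0 (.s k129 k193 7 (.s k66 k192 8 (.s k67 k64 0 (.d k195 k131 k130 7 8))))), (.s
  k3 k2 0 (.s k105 k125 5 (.s k169 k253 13 (.s k86 k252 14 (.s k67 k124 6 (.d k195 k131 k130 7
  8))))))] .n)

def s43_170_31 : T TT 256 :=
  (.q k1 [(.s k3 k2 0 (.s k129 k193 7 (.s k66 k192 8 (.s k67 k64 0 (.d k195 k131 k130 7 8))))), (.s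
  k105 k125 5 (.s k169 k253 13 (.s k41 k233 7 (.s k61 k21 5 (.d k193 k129 k149 7 13))))), (.s k3 k2
  0 (.s k105 k125 5 (.s k169 k253 13 (.s k86 k252 14 (.s k67 k124 6 (.d k195 k131 k130 7 8))))))]
  .n)

def s43_170_32 : T TT 256 :=
  (.q k101 [(.s k69 k117 3 (.s k77 k73 1 (.s k89 k113 5 (.s k93 k81 1 (.d k125 k109 k105 3 5))))),
  (.s k69 k117 3 (.s k73 k77 1 (.s k138 k207 10 (.s k8 k203 8 (.s k12 k4 1 (.d k195 k130 k134 8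
  10)))))), (.s k105 k125 5 (.s k97 k109 1 (.s k195 k130 8 (.s k48 k146 12 (.s k150 k60 14 (.s k199
  k52 12 (.d k207 k203 k154 1 14)))))))] (.c k77 (.l (.s k69 k117 3 (.s k105 k125 5 (.s k109 k97 1
  (.s k195 k130 8 (.s k207 k138 10 (.d k60 k150 k158 14 12))))))) .n))

def s43_170_33 : T TT 256 :=
  (.q k1 [(.s k105 k125 5 (.s k169 k253 13 (.s k41 k233 7 (.s k61 k21 5 (.d k193 k129 k149 7
  13))))), (.s k3 k2 0 (.s k129 k193 7 (.s k66 k192 8 (.s k67 k64 0 (.d k195 k131 k130 7 8))))), (.s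
  k3 k2 0 (.s k105 k125 5 (.s k169 k253 13 (.s k86 k252 14 (.s k67 k124 6 (.d k195 k131 k130 7
  8))))))] .n)

def s43_170_34 : T TT 256 :=
  (.f k105 k125 5 (.q k102 [(.s k68 k119 4 (.s k99 k108 2 (.s k195 k130 8 (.s k51 k147 11 (.d k204
  k136 k153 9 14))))), (.s k68 k119 4 (.s k204 k136 9 (.s k153 k51 14 (.s k201 k57 11 (.d k195 k198
  k130 2 8))))), (.s k99 k108 2 (.s k195 k130 8 (.s k51 k147 11 (.s k150 k60 14 (.s k198 k54 11 (.d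
  k204 k201 k153 2 14)))))), (.s k68 k119 4 (.s k108 k99 2 (.s k204 k136 9 (.s k60 k156 11 (.s k20
  k40 5 (.d k150 k215 k195 8 14))))))] (.c k153 (.l (.s k68 k119 4 (.s k195 k130 8 (.s k150 k60 14
  (.s k198 k54 11 (.d k204 k201 k136 2 9)))))) (.c k195 (.q k1 [(.s k193 k129 7 (.s k149 k61 13 (.s
  k213 k21 7 (.d k253 k233 k169 5 13)))), (.s k3 k2 0 (.s k68 k119 4 (.s k204 k136 9 (.s k70 k137 10
  (.s k86 k118 3 (.s k84 k87 0 (.d k252 k168 k169 13 14)))))))] (.c k169 (.l (.s k68 k119 4 (.s k193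
  k129 7 (.s k149 k61 13 (.s k196 k55 12 (.s k4 k132 7 (.s k213 k21 7 (.d k247 k230 k166 4
  12)))))))) .n)) (.c k204 (.l (.s k99 k108 2 (.s k119 k68 4 (.s k195 k130 8 (.s k51 k147 11 (.s
  k255 k187 9 (.s k215 k235 5 (.d k150 k60 k20 14 8)))))))) .n)))))

def s43_170_35 : T TT 256 :=
  (.f k130 k195 8 (.f k105 k125 5 (.q k1 [(.s k129 k193 7 (.s k128 k131 0 (.s k192 k64 7 (.d k3 k2
  k66 0 8)))), (.s k169 k253 13 (.s k41 k233 7 (.s k61 k21 5 (.d k193 k129 k149 7 13)))), (.s k3 k2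
  0 (.s k169 k253 13 (.s k86 k252 14 (.s k67 k124 6 (.s k64 k66 0 (.s k87 k84 0 (.d k127 k107 k106 5
  6)))))))] (.c k39 (.q k47 [(.s k129 k193 7 (.s k128 k131 0 (.s k192 k64 7 (.d k3 k2 k66 0 8)))),
  (.s k169 k253 13 (.s k41 k233 7 (.s k61 k21 5 (.d k193 k129 k149 7 13)))), (.s k3 k2 0 (.s k169
  k253 13 (.s k86 k252 14 (.s k67 k124 6 (.s k64 k66 0 (.s k87 k84 0 (.d k127 k107 k106 5 6)))))))]
  .n) (.c k47 (.q k39 [(.s k129 k193 7 (.s k128 k131 0 (.s k192 k64 7 (.d k3 k2 k66 0 8)))), (.s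
  k169 k253 13 (.s k41 k233 7 (.s k61 k21 5 (.d k193 k129 k149 7 13)))), (.s k3 k2 0 (.s k169 k253
  13 (.s k86 k252 14 (.s k67 k124 6 (.s k64 k66 0 (.s k87 k84 0 (.d k127 k107 k106 5 6)))))))] .n)
  .n)))))

def s43_170_36 : T TT 256 :=
  (.q k1 [(.s k105 k125 5 (.s k169 k253 13 (.s k41 k233 7 (.s k61 k21 5 (.d k193 k129 k149 7
  13))))), (.s k3 k2 0 (.s k129 k193 7 (.s k66 k192 8 (.s k67 k64 0 (.d k195 k131 k130 7 8))))), (.s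
  k3 k2 0 (.s k105 k125 5 (.s k169 k253 13 (.s k86 k252 14 (.s k67 k124 6 (.d k195 k131 k130 7
  8))))))] .n)

def s43_170_37 : T TT 256 :=
  (.q k1 [(.s k3 k2 0 (.s k129 k193 7 (.s k66 k192 8 (.s k67 k64 0 (.d k195 k131 k130 7 8))))), (.s
  k105 k125 5 (.s k169 k253 13 (.s k41 k233 7 (.s k61 k21 5 (.d k193 k129 k149 7 13))))), (.s k3 k2
  0 (.s k105 k125 5 (.s k169 k253 13 (.s k86 k252 14 (.s k67 k124 6 (.d k195 k131 k130 7 8))))))]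
  .n)

def s43_170_38 : T TT 256 :=
  (.q k1 [(.s k3 k2 0 (.s k129 k193 7 (.s k66 k192 8 (.s k67 k64 0 (.d k195 k131 k130 7 8))))), (.s
  k105 k125 5 (.s k169 k253 13 (.s k41 k233 7 (.s k61 k21 5 (.d k193 k129 k149 7 13))))), (.s k3 k2
  0 (.s k105 k125 5 (.s k169 k253 13 (.s k86 k252 14 (.s k67 k124 6 (.d k195 k131 k130 7 8))))))]
  .n)

def s43_170_39 : T TT 256 :=
  (.f k130 k195 8 (.f k105 k125 5 (.q k1 [(.s k129 k193 7 (.s k128 k131 0 (.s k192 k64 7 (.d k3 k2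
  k66 0 8)))), (.s k169 k253 13 (.s k41 k233 7 (.s k61 k21 5 (.d k193 k129 k149 7 13)))), (.s k3 k2
  0 (.s k169 k253 13 (.s k86 k252 14 (.s k67 k124 6 (.s k64 k66 0 (.s k87 k84 0 (.d k127 k107 k106 5
  6)))))))] (.c k35 (.q k47 [(.s k129 k193 7 (.s k128 k131 0 (.s k192 k64 7 (.d k3 k2 k66 0 8)))),
  (.s k169 k253 13 (.s k41 k233 7 (.s k61 k21 5 (.d k193 k129 k149 7 13)))), (.s k3 k2 0 (.s k169
  k253 13 (.s k86 k252 14 (.s k67 k124 6 (.s k64 k66 0 (.s k87 k84 0 (.d k127 k107 k106 5 6)))))))]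
  .n) (.c k47 (.q k35 [(.s k129 k193 7 (.s k128 k131 0 (.s k192 k64 7 (.d k3 k2 k66 0 8)))), (.s
  k169 k253 13 (.s k41 k233 7 (.s k61 k21 5 (.d k193 k129 k149 7 13)))), (.s k3 k2 0 (.s k51 k19 3
  (.s k17 k34 4 (.s k153 k221 9 (.s k102 k204 14 (.d k169 k236 k253 10 13))))))] .n) .n)))))

def s43_170_40 : T TT 256 :=
  (.f k105 k125 5 (.q k169 [(.s k1 k253 13 (.s k41 k233 7 (.s k61 k21 5 (.d k193 k129 k149 7 13)))),
  (.s k195 k130 8 (.s k150 k60 14 (.s k131 k188 6 (.s k3 k67 7 (.s k252 k86 14 (.d k233 k41 k214 7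
  6))))))] (.c k41 (.q k42 [(.s k1 k253 13 (.s k21 k63 6 (.s k129 k193 7 (.d k149 k189 k213 5 7)))),
  (.s k195 k130 8 (.s k150 k60 14 (.s k131 k188 6 (.s k3 k67 7 (.d k1 k2 k253 0 13))))), (.s k63 k21
  6 (.s k195 k130 8 (.s k107 k151 13 (.s k106 k104 0 (.s k64 k127 6 (.d k192 k128 k149 7 14))))))]
  (.c k1 (.f k21 k63 6 (.l (.s k149 k213 7 (.s k193 k61 13 (.s k195 k130 8 (.s k192 k194 0 (.s k64
  k128 7 (.s k66 k67 0 (.d k129 k189 k3 5 8))))))))) .n)) (.c k42 (.l (.s k41 k233 7 (.s k1 k253 13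
  (.s k61 k21 5 (.d k193 k129 k149 7 13))))) (.c k233 (.l (.s k1 k253 13 (.s k3 k2 0 (.s k86 k252 14
  (.s k67 k124 6 (.d k195 k131 k130 7 8)))))) .n)))))

def s43_170_41 : T TT 256 :=
  (.f k105 k125 5 (.q k64 [(.s k67 k66 0 (.s k86 k124 6 (.s k87 k84 0 (.d k127 k107 k106 5 6)))),
  (.s k66 k67 0 (.s k130 k195 8 (.s k2 k194 7 (.s k3 k1 0 (.d k192 k128 k129 7 8))))), (.s k106 k127
  6 (.s k107 k104 0 (.s k192 k128 7 (.s k195 k130 8 (.d k63 k149 k151 14 13)))))] (.c k40 (.q k42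
  [(.s k106 k127 6 (.s k192 k128 7 (.d k63 k149 k21 14 6))), (.s k67 k66 0 (.s k86 k124 6 (.s k87
  k84 0 (.d k127 k107 k106 5 6)))), (.s k21 k63 6 (.s k149 k213 7 (.s k192 k128 7 (.s k193 k61 13
  (.d k195 k194 k130 0 8)))))] .n) (.c k42 (.q k40 [(.s k60 k20 5 (.d k195 k130 k150 8 14)), (.s k67
  k66 0 (.s k86 k124 6 (.s k87 k84 0 (.d k127 k106 k107 6 5))))] (.c k106 (.q k234 [(.s k60 k20 5
  (.d k195 k130 k150 8 14)), (.s k60 k20 5 (.s k67 k66 0 (.s k192 k128 7 (.s k104 k148 13 (.d k124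
  k84 k86 5 6))))), (.s k66 k67 0 (.s k130 k195 8 (.s k2 k194 7 (.s k3 k1 0 (.d k192 k128 k129 7
  8)))))] (.c k169 (.q k232 [(.s k60 k20 5 (.d k195 k130 k150 8 14)), (.s k168 k104 7 (.s k192 k128
  7 (.d k252 k212 k84 5 13)))] (.c k168 (.q k171 [(.s k60 k20 5 (.d k195 k130 k150 8 14)), (.s k66
  k67 0 (.s k192 k128 7 (.s k255 k213 6 (.d k3 k129 k87 8 13))))] .n) (.c k171 (.l (.s k168 k104 7
  (.s k60 k20 5 (.d k195 k130 k150 8 14)))) .n))) (.c k232 (.q k169 [(.s k60 k20 5 (.d k195 k130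
  k150 8 14)), (.s k1 k253 13 (.s k3 k2 0 (.s k66 k67 0 (.d k129 k193 k192 7 8))))] .n) .n))) (.c
  k234 (.l (.s k106 k127 6 (.s k60 k20 5 (.d k195 k130 k150 8 14)))) .n))) .n))))

def s43_170_42 : T TT 256 :=
  (.f k105 k125 5 (.q k106 [(.s k64 k127 6 (.s k67 k66 0 (.s k104 k107 0 (.d k124 k84 k86 5 6)))),
  (.s k107 k104 0 (.s k195 k130 8 (.s k63 k151 13 (.s k149 k192 14 (.s k61 k193 13 (.d k60 k150 k62
  14 0)))))), (.s k64 k127 6 (.s k192 k128 7 (.s k149 k63 14 (.s k193 k61 13 (.d k195 k194 k130 0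
  8)))))] (.c k40 (.q k41 [(.s k169 k233 7 (.s k1 k253 13 (.s k61 k21 5 (.d k193 k129 k149 7 13)))),
  (.s k64 k127 6 (.s k67 k66 0 (.s k104 k107 0 (.d k124 k84 k86 5 6))))] .n) (.c k41 (.q k40 [(.s
  k60 k20 5 (.d k195 k130 k150 8 14)), (.s k64 k127 6 (.s k67 k66 0 (.s k104 k107 0 (.d k124 k84 k86
  5 6))))] .n) .n))))

def s43_170_44 : T TT 256 :=
  (.q k1 [(.s k105 k125 5 (.s k169 k253 13 (.s k41 k233 7 (.s k61 k21 5 (.d k193 k129 k149 7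
  13))))), (.s k3 k2 0 (.s k129 k193 7 (.s k66 k192 8 (.s k67 k64 0 (.d k195 k131 k130 7 8))))), (.s
  k3 k2 0 (.s k105 k125 5 (.s k169 k253 13 (.s k86 k252 14 (.s k67 k124 6 (.d k195 k131 k130 7
  8))))))] .n)

def s43_170_45 : T TT 256 :=
  (.q k1 [(.s k105 k125 5 (.s k169 k253 13 (.s k41 k233 7 (.s k61 k21 5 (.d k193 k129 k149 7
  13))))), (.s k3 k2 0 (.s k129 k193 7 (.s k66 k192 8 (.s k67 k64 0 (.d k195 k131 k130 7 8))))), (.s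
  k3 k2 0 (.s k105 k125 5 (.s k169 k253 13 (.s k86 k252 14 (.s k67 k124 6 (.d k195 k131 k130 7
  8))))))] .n)

def s43_170_46 : T TT 256 :=
  (.q k1 [(.s k105 k125 5 (.s k169 k253 13 (.s k41 k233 7 (.s k61 k21 5 (.d k193 k129 k149 7
  13))))), (.s k3 k2 0 (.s k129 k193 7 (.s k66 k192 8 (.s k67 k64 0 (.d k195 k131 k130 7 8))))), (.s
  k3 k2 0 (.s k105 k125 5 (.s k169 k253 13 (.s k86 k252 14 (.s k67 k124 6 (.d k195 k131 k130 7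
  8))))))] .n)

def s43_170_47 : T TT 256 :=
  (.f k130 k195 8 (.f k105 k125 5 (.q k1 [(.s k129 k193 7 (.s k128 k131 0 (.s k192 k64 7 (.d k3 k2
  k66 0 8)))), (.s k169 k253 13 (.s k41 k233 7 (.s k61 k21 5 (.d k193 k129 k149 7 13)))), (.s k3 k2
  0 (.s k169 k253 13 (.s k86 k252 14 (.s k67 k124 6 (.s k64 k66 0 (.s k87 k84 0 (.d k127 k107 k106 5
  6)))))))] (.c k35 (.q k39 [(.s k129 k193 7 (.s k128 k131 0 (.s k192 k64 7 (.d k3 k2 k66 0 8)))),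
  (.s k169 k253 13 (.s k41 k233 7 (.s k61 k21 5 (.d k193 k129 k149 7 13)))), (.s k3 k2 0 (.s k169
  k253 13 (.s k86 k252 14 (.s k67 k124 6 (.s k64 k66 0 (.s k87 k84 0 (.d k127 k107 k106 5 6)))))))]
  .n) (.c k39 (.q k35 [(.s k129 k193 7 (.s k128 k131 0 (.s k192 k64 7 (.d k3 k2 k66 0 8)))), (.s
  k169 k253 13 (.s k41 k233 7 (.s k61 k21 5 (.d k193 k129 k149 7 13)))), (.s k3 k2 0 (.s k51 k19 3
  (.s k17 k34 4 (.s k153 k221 9 (.s k102 k204 14 (.d k169 k236 k253 10 13))))))] .n) .n)))))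

def s43_170_48 : T TT 256 :=
  (.q k1 [(.s k105 k125 5 (.s k169 k253 13 (.s k41 k233 7 (.s k61 k21 5 (.d k193 k129 k149 7
  13))))), (.s k3 k2 0 (.s k129 k193 7 (.s k66 k192 8 (.s k67 k64 0 (.d k195 k131 k130 7 8))))), (.s
  k3 k2 0 (.s k105 k125 5 (.s k169 k253 13 (.s k86 k252 14 (.s k67 k124 6 (.d k195 k131 k130 7
  8))))))] .n)

def s43_170_49 : T TT 256 :=
  (.q k1 [(.s k105 k125 5 (.s k169 k253 13 (.s k41 k233 7 (.s k61 k21 5 (.d k193 k129 k149 7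
  13))))), (.s k3 k2 0 (.s k129 k193 7 (.s k66 k192 8 (.s k67 k64 0 (.d k195 k131 k130 7 8))))), (.s
  k3 k2 0 (.s k105 k125 5 (.s k169 k253 13 (.s k86 k252 14 (.s k67 k124 6 (.d k195 k131 k130 7
  8))))))] .n)

def s43_170_50 : T TT 256 :=
  (.q k1 [(.s k105 k125 5 (.s k169 k253 13 (.s k41 k233 7 (.s k61 k21 5 (.d k193 k129 k149 7
  13))))), (.s k3 k2 0 (.s k129 k193 7 (.s k66 k192 8 (.s k67 k64 0 (.d k195 k131 k130 7 8))))), (.s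
  k3 k2 0 (.s k105 k125 5 (.s k169 k253 13 (.s k86 k252 14 (.s k67 k124 6 (.d k195 k131 k130 7
  8))))))] .n)

def s43_170_51 : T TT 256 :=
  (.q k1 [(.s k105 k125 5 (.s k169 k253 13 (.s k41 k233 7 (.s k61 k21 5 (.d k193 k129 k149 7
  13))))), (.s k3 k2 0 (.s k129 k193 7 (.s k66 k192 8 (.s k67 k64 0 (.d k195 k131 k130 7 8))))), (.s
  k3 k2 0 (.s k105 k125 5 (.s k169 k253 13 (.s k86 k252 14 (.s k67 k124 6 (.d k195 k131 k130 7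
  8))))))] .n)

def s43_170_52 : T TT 256 :=
  (.q k1 [(.s k105 k125 5 (.s k169 k253 13 (.s k41 k233 7 (.s k61 k21 5 (.d k193 k129 k149 7
  13))))), (.s k3 k2 0 (.s k129 k193 7 (.s k66 k192 8 (.s k67 k64 0 (.d k195 k131 k130 7 8))))), (.s
  k3 k2 0 (.s k105 k125 5 (.s k169 k253 13 (.s k86 k252 14 (.s k67 k124 6 (.d k195 k131 k130 7
  8))))))] .n)

def s43_170_53 : T TT 256 :=
  (.q k1 [(.s k3 k2 0 (.s k129 k193 7 (.s k66 k192 8 (.s k67 k64 0 (.d k195 k131 k130 7 8))))), (.s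
  k105 k125 5 (.s k169 k253 13 (.s k41 k233 7 (.s k61 k21 5 (.d k193 k129 k149 7 13))))), (.s k3 k2
  0 (.s k105 k125 5 (.s k169 k253 13 (.s k86 k252 14 (.s k67 k124 6 (.d k195 k131 k130 7 8))))))]
  .n)

def s43_170_54 : T TT 256 :=
  (.q k1 [(.s k105 k125 5 (.s k169 k253 13 (.s k41 k233 7 (.s k61 k21 5 (.d k193 k129 k149 7
  13))))), (.s k3 k2 0 (.s k129 k193 7 (.s k66 k192 8 (.s k67 k64 0 (.d k195 k131 k130 7 8))))), (.s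
  k3 k2 0 (.s k105 k125 5 (.s k169 k253 13 (.s k86 k252 14 (.s k67 k124 6 (.d k195 k131 k130 7
  8))))))] .n)

def s43_170_55 : T TT 256 :=
  (.q k1 [(.s k3 k2 0 (.s k129 k193 7 (.s k66 k192 8 (.s k67 k64 0 (.d k195 k131 k130 7 8))))), (.s
  k105 k125 5 (.s k169 k253 13 (.s k41 k233 7 (.s k61 k21 5 (.d k193 k129 k149 7 13))))), (.s k3 k2
  0 (.s k105 k125 5 (.s k169 k253 13 (.s k86 k252 14 (.s k67 k124 6 (.d k195 k131 k130 7 8))))))]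
  .n)

def s43_170_56 : T TT 256 :=
  (.q k1 [(.s k105 k125 5 (.s k169 k253 13 (.s k41 k233 7 (.s k61 k21 5 (.d k193 k129 k149 7
  13))))), (.s k3 k2 0 (.s k129 k193 7 (.s k66 k192 8 (.s k67 k64 0 (.d k195 k131 k130 7 8))))), (.s
  k3 k2 0 (.s k105 k125 5 (.s k169 k253 13 (.s k86 k252 14 (.s k67 k124 6 (.d k195 k131 k130 7
  8))))))] .n)

def s43_170_57 : T TT 256 :=
  (.q k1 [(.s k105 k125 5 (.s k169 k253 13 (.s k41 k233 7 (.s k61 k21 5 (.d k193 k129 k149 7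
  13))))), (.s k3 k2 0 (.s k129 k193 7 (.s k66 k192 8 (.s k67 k64 0 (.d k195 k131 k130 7 8))))), (.s
  k3 k2 0 (.s k105 k125 5 (.s k169 k253 13 (.s k86 k252 14 (.s k67 k124 6 (.d k195 k131 k130 7
  8))))))] .n)

def s43_170_58 : T TT 256 :=
  (.q k1 [(.s k105 k125 5 (.s k169 k253 13 (.s k41 k233 7 (.s k61 k21 5 (.d k193 k129 k149 7
  13))))), (.s k3 k2 0 (.s k129 k193 7 (.s k66 k192 8 (.s k67 k64 0 (.d k195 k131 k130 7 8))))), (.s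
  k3 k2 0 (.s k105 k125 5 (.s k169 k253 13 (.s k86 k252 14 (.s k67 k124 6 (.d k195 k131 k130 7
  8))))))] .n)

def s43_170_59 : T TT 256 :=
  (.f k130 k195 8 (.f k105 k125 5 (.q k1 [(.s k129 k193 7 (.s k128 k131 0 (.s k192 k64 7 (.d k3 k2
  k66 0 8)))), (.s k169 k253 13 (.s k41 k233 7 (.s k61 k21 5 (.d k193 k129 k149 7 13)))), (.s k3 k2
  0 (.s k169 k253 13 (.s k86 k252 14 (.s k67 k124 6 (.s k64 k66 0 (.s k87 k84 0 (.d k127 k107 k106 5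
  6)))))))] (.c k11 (.q k27 [(.s k129 k193 7 (.s k128 k131 0 (.s k192 k64 7 (.d k3 k2 k66 0 8)))),
  (.s k169 k253 13 (.s k41 k233 7 (.s k61 k21 5 (.d k193 k129 k149 7 13)))), (.s k3 k2 0 (.s k169
  k253 13 (.s k86 k252 14 (.s k67 k124 6 (.s k64 k66 0 (.s k87 k84 0 (.d k127 k107 k106 5 6)))))))]
  .n) (.c k27 (.q k11 [(.s k129 k193 7 (.s k128 k131 0 (.s k192 k64 7 (.d k3 k2 k66 0 8)))), (.s
  k169 k253 13 (.s k41 k233 7 (.s k61 k21 5 (.d k193 k129 k149 7 13)))), (.s k3 k2 0 (.s k15 k7 1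
  (.s k5 k10 2 (.s k165 k245 11 (.s k90 k240 14 (.d k169 k248 k253 12 13))))))] .n) .n)))))

def s43_170_60 : T TT 256 :=
  (.q k1 [(.s k105 k125 5 (.s k169 k253 13 (.s k41 k233 7 (.s k61 k21 5 (.d k193 k129 k149 7
  13))))), (.s k3 k2 0 (.s k129 k193 7 (.s k66 k192 8 (.s k67 k64 0 (.d k195 k131 k130 7 8))))), (.s
  k3 k2 0 (.s k105 k125 5 (.s k169 k253 13 (.s k86 k252 14 (.s k195 k130 8 (.d k67 k124 k131 6
  7))))))] .n)

def s43_170_61 : T TT 256 :=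
  (.q k3 [(.s k2 k1 0 (.s k130 k195 8 (.s k66 k194 7 (.s k64 k67 0 (.d k192 k128 k129 7 8))))), (.s
  k105 k125 5 (.s k195 k130 8 (.s k67 k131 7 (.s k86 k124 6 (.s k84 k87 0 (.d k252 k168 k169 13
  14)))))), (.s k1 k2 0 (.s k105 k125 5 (.s k195 k130 8 (.s k131 k67 7 (.s k150 k60 14 (.d k169 k253
  k188 13 6)))))), (.s k1 k2 0 (.s k129 k193 7 (.s k169 k253 13 (.s k192 k66 8 (.s k64 k128 7 (.s
  k106 k127 6 (.d k149 k189 k63 5 14)))))))] (.c k130 (.l (.s k1 k2 0 (.s k105 k125 5 (.s k129 k193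
  7 (.s k66 k192 8 (.s k67 k64 0 (.s k86 k124 6 (.d k169 k253 k252 13 14)))))))) .n))

def s43_170_62 : T TT 256 :=
  (.q k1 [(.s k105 k125 5 (.s k169 k253 13 (.s k41 k233 7 (.s k61 k21 5 (.d k193 k129 k149 7
  13))))), (.s k3 k2 0 (.s k129 k193 7 (.s k66 k192 8 (.s k67 k64 0 (.d k195 k131 k130 7 8))))), (.s
  k3 k2 0 (.s k105 k125 5 (.s k169 k253 13 (.s k86 k252 14 (.s k67 k124 6 (.d k195 k131 k130 7
  8))))))] .n)

def s43_170_63 : T TT 256 :=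
  (.q k3 [(.s k2 k1 0 (.s k130 k195 8 (.s k66 k194 7 (.s k64 k67 0 (.d k192 k128 k129 7 8))))), (.s
  k1 k2 0 (.s k105 k125 5 (.s k169 k253 13 (.s k41 k233 7 (.s k61 k21 5 (.d k193 k129 k149 7
  13)))))), (.s k105 k125 5 (.s k195 k130 8 (.s k67 k131 7 (.s k86 k124 6 (.s k84 k87 0 (.d k252
  k168 k169 13 14))))))] (.c k129 (.l (.s k1 k2 0 (.s k105 k125 5 (.s k169 k253 13 (.s k41 k233 7
  (.s k60 k22 6 (.d k195 k130 k150 8 14))))))) .n))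

def s43_170_64 : T TT 256 :=
  (.q k1 [(.s k105 k125 5 (.s k193 k129 7 (.s k149 k61 13 (.s k213 k21 7 (.d k253 k233 k169 5
  13))))), (.s k3 k2 0 (.s k169 k253 13 (.s k195 k130 8 (.s k131 k67 7 (.s k150 k188 6 (.s k20 k215
  8 (.d k60 k40 k105 5 14)))))))] (.c k105 (.l (.s k3 k2 0 (.s k129 k193 7 (.s k169 k253 13 (.s k149
  k189 5 (.s k192 k66 8 (.s k63 k106 14 (.d k21 k42 k213 6 7)))))))) (.c k169 (.l (.s k105 k125 5
  (.s k193 k129 7 (.s k149 k61 13 (.s k21 k213 7 (.s k63 k42 6 (.s k195 k130 8 (.d k192 k106 k194 14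
  0)))))))) (.c k253 (.l (.s k3 k2 0 (.s k105 k125 5 (.s k193 k129 7 (.s k61 k149 13 (.s k41 k21 5
  (.s k60 k22 6 (.d k195 k130 k150 8 14)))))))) .n))))

def s43_170_66 : T TT 256 :=
  (.q k69 [(.s k77 k73 1 (.s k101 k117 3 (.s k89 k113 5 (.s k93 k81 1 (.d k125 k109 k105 3 5))))),
  (.s k73 k77 1 (.s k138 k207 10 (.s k8 k203 8 (.s k12 k4 1 (.d k195 k130 k134 8 10))))), (.s k101
  k117 3 (.s k105 k125 5 (.s k109 k97 1 (.s k195 k130 8 (.s k207 k138 10 (.d k60 k150 k158 14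
  12))))))] .n)

def s43_170_67 : T TT 256 :=
  (.q k1 [(.s k105 k125 5 (.s k169 k253 13 (.s k41 k233 7 (.s k61 k21 5 (.d k193 k129 k149 7
  13))))), (.s k3 k2 0 (.s k129 k193 7 (.s k130 k195 8 (.s k128 k131 0 (.d k192 k64 k66 7 8))))),
  (.s k3 k2 0 (.s k105 k125 5 (.s k169 k253 13 (.s k195 k130 8 (.s k233 k41 7 (.d k252 k86 k214 14
  6))))))] .n)

def s43_170_68 : T TT 256 :=
  (.q k1 [(.s k105 k125 5 (.s k169 k253 13 (.s k41 k233 7 (.s k61 k21 5 (.d k193 k129 k149 7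
  13))))), (.s k3 k2 0 (.s k129 k193 7 (.s k66 k192 8 (.s k67 k64 0 (.d k195 k131 k130 7 8))))), (.s
  k3 k2 0 (.s k105 k125 5 (.s k169 k253 13 (.s k86 k252 14 (.s k67 k124 6 (.d k195 k131 k130 7
  8))))))] .n)

def s43_170_69 : T TT 256 :=
  (.q k1 [(.s k105 k125 5 (.s k169 k253 13 (.s k41 k233 7 (.s k61 k21 5 (.d k193 k129 k149 7
  13))))), (.s k3 k2 0 (.s k129 k193 7 (.s k66 k192 8 (.s k67 k64 0 (.d k195 k131 k130 7 8))))), (.s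
  k3 k2 0 (.s k105 k125 5 (.s k169 k253 13 (.s k86 k252 14 (.s k67 k124 6 (.d k195 k131 k130 7
  8))))))] .n)

def s43_170_70 : T TT 256 :=
  (.q k1 [(.s k105 k125 5 (.s k169 k253 13 (.s k41 k233 7 (.s k61 k21 5 (.d k193 k129 k149 7
  13))))), (.s k3 k2 0 (.s k129 k193 7 (.s k66 k192 8 (.s k67 k64 0 (.d k195 k131 k130 7 8))))), (.s
  k3 k2 0 (.s k105 k125 5 (.s k169 k253 13 (.s k86 k252 14 (.s k67 k124 6 (.d k195 k131 k130 7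
  8))))))] .n)

def s43_170_71 : T TT 256 :=
  (.q k1 [(.s k105 k125 5 (.s k169 k253 13 (.s k41 k233 7 (.s k61 k21 5 (.d k193 k129 k149 7
  13))))), (.s k3 k2 0 (.s k129 k193 7 (.s k66 k192 8 (.s k67 k64 0 (.d k195 k131 k130 7 8))))), (.s
  k3 k2 0 (.s k105 k125 5 (.s k169 k253 13 (.s k86 k252 14 (.s k67 k124 6 (.d k195 k131 k130 7
  8))))))] .n)

def s43_170_72 : T TT 256 :=
  (.q k1 [(.s k105 k125 5 (.s k169 k253 13 (.s k41 k233 7 (.s k61 k21 5 (.d k193 k129 k149 7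
  13))))), (.s k3 k2 0 (.s k129 k193 7 (.s k66 k192 8 (.s k67 k64 0 (.d k195 k131 k130 7 8))))), (.s
  k3 k2 0 (.s k105 k125 5 (.s k169 k253 13 (.s k86 k252 14 (.s k67 k124 6 (.d k195 k131 k130 7
  8))))))] .n)

def s43_170_73 : T TT 256 :=
  (.q k1 [(.s k105 k125 5 (.s k169 k253 13 (.s k41 k233 7 (.s k61 k21 5 (.d k193 k129 k149 7
  13))))), (.s k3 k2 0 (.s k129 k193 7 (.s k66 k192 8 (.s k67 k64 0 (.d k195 k131 k130 7 8))))), (.s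
  k3 k2 0 (.s k105 k125 5 (.s k169 k253 13 (.s k86 k252 14 (.s k67 k124 6 (.d k195 k131 k130 7
  8))))))] .n)

def s43_170_74 : T TT 256 :=
  (.q k1 [(.s k105 k125 5 (.s k169 k253 13 (.s k41 k233 7 (.s k61 k21 5 (.d k193 k129 k149 7
  13))))), (.s k3 k2 0 (.s k129 k193 7 (.s k66 k192 8 (.s k67 k64 0 (.d k195 k131 k130 7 8))))), (.s
  k3 k2 0 (.s k105 k125 5 (.s k169 k253 13 (.s k86 k252 14 (.s k67 k124 6 (.d k195 k131 k130 7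
  8))))))] .n)

def s43_170_75 : T TT 256 :=
  (.q k1 [(.s k105 k125 5 (.s k169 k253 13 (.s k41 k233 7 (.s k61 k21 5 (.d k193 k129 k149 7
  13))))), (.s k3 k2 0 (.s k129 k193 7 (.s k66 k192 8 (.s k67 k64 0 (.d k195 k131 k130 7 8))))), (.s
  k3 k2 0 (.s k105 k125 5 (.s k169 k253 13 (.s k86 k252 14 (.s k67 k124 6 (.d k195 k131 k130 7
  8))))))] .n)

def s43_170_76 : T TT 256 :=
  (.q k1 [(.s k105 k125 5 (.s k169 k253 13 (.s k41 k233 7 (.s k61 k21 5 (.d k193 k129 k149 7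
  13))))), (.s k3 k2 0 (.s k129 k193 7 (.s k66 k192 8 (.s k67 k64 0 (.d k195 k131 k130 7 8))))), (.s
  k3 k2 0 (.s k105 k125 5 (.s k169 k253 13 (.s k86 k252 14 (.s k67 k124 6 (.d k195 k131 k130 7
  8))))))] .n)

def s43_170_77 : T TT 256 :=
  (.q k1 [(.s k3 k2 0 (.s k129 k193 7 (.s k66 k192 8 (.s k67 k64 0 (.d k195 k131 k130 7 8))))), (.s
  k105 k125 5 (.s k169 k253 13 (.s k41 k233 7 (.s k61 k21 5 (.d k193 k129 k149 7 13))))), (.s k3 k2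
  0 (.s k105 k125 5 (.s k169 k253 13 (.s k86 k252 14 (.s k67 k124 6 (.d k195 k131 k130 7 8))))))]
  .n)

def s43_170_78 : T TT 256 :=
  (.q k1 [(.s k105 k125 5 (.s k169 k253 13 (.s k41 k233 7 (.s k61 k21 5 (.d k193 k129 k149 7
  13))))), (.s k3 k2 0 (.s k129 k193 7 (.s k66 k192 8 (.s k67 k64 0 (.d k195 k131 k130 7 8))))), (.s
  k3 k2 0 (.s k105 k125 5 (.s k169 k253 13 (.s k86 k252 14 (.s k67 k124 6 (.d k195 k131 k130 7
  8))))))] .n)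

def s43_170_79 : T TT 256 :=
  (.q k1 [(.s k105 k125 5 (.s k169 k253 13 (.s k41 k233 7 (.s k61 k21 5 (.d k193 k129 k149 7
  13))))), (.s k3 k2 0 (.s k129 k193 7 (.s k66 k192 8 (.s k67 k64 0 (.d k195 k131 k130 7 8))))), (.s
  k3 k2 0 (.s k105 k125 5 (.s k169 k253 13 (.s k86 k252 14 (.s k67 k124 6 (.d k195 k131 k130 7
  8))))))] .n)

def s43_170_80 : T TT 256 :=
  (.q k1 [(.s k105 k125 5 (.s k169 k253 13 (.s k41 k233 7 (.s k61 k21 5 (.d k193 k129 k149 7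
  13))))), (.s k3 k2 0 (.s k129 k193 7 (.s k66 k192 8 (.s k67 k64 0 (.d k195 k131 k130 7 8))))), (.s
  k3 k2 0 (.s k105 k125 5 (.s k169 k253 13 (.s k86 k252 14 (.s k67 k124 6 (.d k195 k131 k130 7
  8))))))] .n)

def s43_170_81 : T TT 256 :=
  (.q k1 [(.s k105 k125 5 (.s k169 k253 13 (.s k41 k233 7 (.s k61 k21 5 (.d k193 k129 k149 7
  13))))), (.s k3 k2 0 (.s k129 k193 7 (.s k66 k192 8 (.s k67 k64 0 (.d k195 k131 k130 7 8))))), (.s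
  k3 k2 0 (.s k105 k125 5 (.s k169 k253 13 (.s k86 k252 14 (.s k67 k124 6 (.d k195 k131 k130 7
  8))))))] .n)

def s43_170_82 : T TT 256 :=
  (.q k1 [(.s k105 k125 5 (.s k169 k253 13 (.s k41 k233 7 (.s k61 k21 5 (.d k193 k129 k149 7
  13))))), (.s k3 k2 0 (.s k129 k193 7 (.s k66 k192 8 (.s k67 k64 0 (.d k195 k131 k130 7 8))))), (.s
  k3 k2 0 (.s k105 k125 5 (.s k169 k253 13 (.s k86 k252 14 (.s k67 k124 6 (.d k195 k131 k130 7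
  8))))))] .n)

def s43_170_83 : T TT 256 :=
  (.q k1 [(.s k105 k125 5 (.s k169 k253 13 (.s k41 k233 7 (.s k61 k21 5 (.d k193 k129 k149 7
  13))))), (.s k3 k2 0 (.s k129 k193 7 (.s k66 k192 8 (.s k67 k64 0 (.d k195 k131 k130 7 8))))), (.s
  k3 k2 0 (.s k105 k125 5 (.s k169 k253 13 (.s k86 k252 14 (.s k67 k124 6 (.d k195 k131 k130 7
  8))))))] .n)

def s43_170_84 : T TT 256 :=
  (.q k1 [(.s k105 k125 5 (.s k169 k253 13 (.s k41 k233 7 (.s k61 k21 5 (.d k193 k129 k149 7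
  13))))), (.s k3 k2 0 (.s k129 k193 7 (.s k66 k192 8 (.s k67 k64 0 (.d k195 k131 k130 7 8))))), (.s
  k3 k2 0 (.s k105 k125 5 (.s k169 k253 13 (.s k86 k252 14 (.s k67 k124 6 (.d k195 k131 k130 7
  8))))))] .n)

def s43_170_86 : T TT 256 :=
  (.q k1 [(.s k129 k193 7 (.s k130 k195 8 (.s k128 k131 0 (.s k192 k64 7 (.d k3 k2 k66 0 8))))), (.s
  k105 k125 5 (.s k169 k253 13 (.s k41 k233 7 (.s k61 k21 5 (.d k193 k129 k149 7 13))))), (.s k105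
  k125 5 (.s k169 k253 13 (.s k195 k130 8 (.s k150 k60 14 (.s k131 k188 6 (.d k3 k2 k67 0 7))))))]
  (.c k2 (.q k254 [(.s k105 k125 5 (.s k193 k129 7 (.s k149 k61 13 (.s k213 k21 7 (.d k253 k233 k169
  5 13))))), (.s k105 k125 5 (.s k195 k130 8 (.s k150 k60 14 (.s k215 k20 8 (.s k253 k169 13 (.d
  k255 k252 k235 0 5)))))), (.s k193 k129 7 (.s k195 k130 8 (.s k253 k169 13 (.s k233 k213 5 (.d
  k252 k255 k214 0 6)))))] (.c k169 (.l (.s k105 k125 5 (.s k193 k129 7 (.s k149 k61 13 (.s k21 k213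
  7 (.s k63 k42 6 (.s k195 k130 8 (.d k192 k194 k106 0 14)))))))) (.c k253 (.q k5 [(.s k13 k9 1 (.s
  k105 k125 5 (.s k165 k245 11 (.s k45 k225 9 (.s k61 k29 3 (.d k193 k129 k149 7 13)))))), (.s k13
  k9 1 (.s k15 k10 2 (.s k193 k129 7 (.s k73 k133 9 (.s k195 k130 8 (.d k12 k14 k134 0 10)))))), (.s
  k15 k10 2 (.s k105 k125 5 (.s k165 k245 11 (.s k45 k225 9 (.s k60 k30 4 (.d k195 k130 k150 8
  14))))))] .n) .n))) (.c k254 (.l (.s k2 k3 0 (.s k105 k125 5 (.s k169 k253 13 (.s k41 k233 7 (.s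
  k61 k21 5 (.d k193 k129 k149 7 13))))))) .n)))

def s43_170_87 : T TT 256 :=
  (.q k1 [(.s k105 k125 5 (.s k169 k253 13 (.s k41 k233 7 (.s k61 k21 5 (.d k193 k129 k149 7
  13))))), (.s k3 k2 0 (.s k129 k193 7 (.s k66 k192 8 (.s k67 k64 0 (.d k195 k131 k130 7 8))))), (.s
  k3 k2 0 (.s k105 k125 5 (.s k169 k253 13 (.s k86 k252 14 (.s k67 k124 6 (.d k195 k131 k130 7
  8))))))] .n)

def s43_170_88 : T TT 256 :=
  (.q k1 [(.s k105 k125 5 (.s k169 k253 13 (.s k41 k233 7 (.s k61 k21 5 (.d k193 k129 k149 7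
  13))))), (.s k3 k2 0 (.s k129 k193 7 (.s k66 k192 8 (.s k67 k64 0 (.d k195 k131 k130 7 8))))), (.s
  k3 k2 0 (.s k105 k125 5 (.s k169 k253 13 (.s k86 k252 14 (.s k67 k124 6 (.d k195 k131 k130 7
  8))))))] .n)

def s43_170_89 : T TT 256 :=
  (.f k105 k125 5 (.f k130 k195 8 (.q k1 [(.s k129 k193 7 (.s k128 k131 0 (.s k192 k64 7 (.d k3 k2
  k66 0 8)))), (.s k169 k253 13 (.s k41 k233 7 (.s k61 k21 5 (.d k193 k129 k149 7 13)))), (.s k3 k2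
  0 (.s k169 k253 13 (.s k86 k252 14 (.s k67 k124 6 (.s k64 k66 0 (.s k87 k84 0 (.d k127 k107 k106 5
  6)))))))] (.c k8 (.q k251 [(.s k129 k193 7 (.s k128 k131 0 (.s k192 k64 7 (.d k3 k2 k66 0 8)))),
  (.s k169 k253 13 (.s k41 k233 7 (.s k61 k21 5 (.d k193 k129 k149 7 13)))), (.s k3 k2 0 (.s k169
  k253 13 (.s k86 k252 14 (.s k67 k124 6 (.s k64 k66 0 (.s k87 k84 0 (.d k127 k107 k106 5 6)))))))]
  .n) (.c k251 (.q k8 [(.s k129 k193 7 (.s k128 k131 0 (.s k192 k64 7 (.d k3 k2 k66 0 8)))), (.s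
  k169 k253 13 (.s k41 k233 7 (.s k61 k21 5 (.d k193 k129 k149 7 13)))), (.s k3 k2 0 (.s k12 k4 1
  (.s k9 k6 2 (.s k5 k13 1 (.d k10 k11 k15 0 2)))))] .n) .n)))))

def s43_170_90 : T TT 256 :=
  (.f k130 k195 8 (.f k105 k125 5 (.q k1 [(.s k129 k193 7 (.s k128 k131 0 (.s k192 k64 7 (.d k3 k2
  k66 0 8)))), (.s k169 k253 13 (.s k41 k233 7 (.s k61 k21 5 (.d k193 k129 k149 7 13)))), (.s k3 k2
  0 (.s k169 k253 13 (.s k86 k252 14 (.s k67 k124 6 (.s k64 k66 0 (.s k87 k84 0 (.d k127 k107 k106 5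
  6)))))))] (.c k10 (.q k250 [(.s k129 k193 7 (.s k128 k131 0 (.s k192 k64 7 (.d k3 k2 k66 0 8)))),
  (.s k169 k253 13 (.s k41 k233 7 (.s k61 k21 5 (.d k193 k129 k149 7 13)))), (.s k3 k2 0 (.s k169
  k253 13 (.s k86 k252 14 (.s k67 k124 6 (.s k64 k66 0 (.s k87 k84 0 (.d k127 k107 k106 5 6)))))))]
  .n) (.c k250 (.q k10 [(.s k129 k193 7 (.s k128 k131 0 (.s k192 k64 7 (.d k3 k2 k66 0 8)))), (.s
  k169 k253 13 (.s k41 k233 7 (.s k61 k21 5 (.d k193 k129 k149 7 13)))), (.s k3 k2 0 (.s k5 k15 2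
  (.s k9 k13 1 (.s k8 k11 0 (.d k12 k4 k6 1 2)))))] .n) .n)))))

def s43_170_91 : T TT 256 :=
  (.q k1 [(.s k105 k125 5 (.s k169 k253 13 (.s k41 k233 7 (.s k61 k21 5 (.d k193 k129 k149 7
  13))))), (.s k3 k2 0 (.s k129 k193 7 (.s k66 k192 8 (.s k67 k64 0 (.d k195 k131 k130 7 8))))), (.s
  k3 k2 0 (.s k105 k125 5 (.s k169 k253 13 (.s k86 k252 14 (.s k67 k124 6 (.d k195 k131 k130 7
  8))))))] .n)

def s43_170_92 : T TT 256 :=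
  (.q k1 [(.s k105 k125 5 (.s k169 k253 13 (.s k41 k233 7 (.s k61 k21 5 (.d k193 k129 k149 7
  13))))), (.s k3 k2 0 (.s k129 k193 7 (.s k66 k192 8 (.s k67 k64 0 (.d k195 k131 k130 7 8))))), (.s
  k3 k2 0 (.s k105 k125 5 (.s k169 k253 13 (.s k86 k252 14 (.s k67 k124 6 (.d k195 k131 k130 7
  8))))))] .n)

def s43_170_93 : T TT 256 :=
  (.q k1 [(.s k3 k2 0 (.s k129 k193 7 (.s k66 k192 8 (.s k67 k64 0 (.d k195 k131 k130 7 8))))), (.s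
  k105 k125 5 (.s k169 k253 13 (.s k41 k233 7 (.s k61 k21 5 (.d k193 k129 k149 7 13))))), (.s k3 k2
  0 (.s k105 k125 5 (.s k169 k253 13 (.s k86 k252 14 (.s k67 k124 6 (.d k195 k131 k130 7 8))))))]
  .n)

def s43_170_94 : T TT 256 :=
  (.q k1 [(.s k105 k125 5 (.s k169 k253 13 (.s k41 k233 7 (.s k61 k21 5 (.d k193 k129 k149 7
  13))))), (.s k3 k2 0 (.s k129 k193 7 (.s k66 k192 8 (.s k67 k64 0 (.d k195 k131 k130 7 8))))), (.s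
  k3 k2 0 (.s k105 k125 5 (.s k169 k253 13 (.s k86 k252 14 (.s k67 k124 6 (.d k195 k131 k130 7
  8))))))] .n)

def s43_170_95 : T TT 256 :=
  (.q k1 [(.s k105 k125 5 (.s k169 k253 13 (.s k41 k233 7 (.s k61 k21 5 (.d k193 k129 k149 7
  13))))), (.s k3 k2 0 (.s k129 k193 7 (.s k66 k192 8 (.s k67 k64 0 (.d k195 k131 k130 7 8))))), (.s
  k3 k2 0 (.s k105 k125 5 (.s k169 k253 13 (.s k86 k252 14 (.s k67 k124 6 (.d k195 k131 k130 7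
  8))))))] .n)

def s43_170_96 : T TT 256 :=
  (.q k1 [(.s k105 k125 5 (.s k169 k253 13 (.s k41 k233 7 (.s k61 k21 5 (.d k193 k129 k149 7
  13))))), (.s k3 k2 0 (.s k129 k193 7 (.s k66 k192 8 (.s k67 k64 0 (.d k195 k131 k130 7 8))))), (.s
  k3 k2 0 (.s k105 k125 5 (.s k169 k253 13 (.s k86 k252 14 (.s k67 k124 6 (.d k195 k131 k130 7
  8))))))] .n)

def s43_170_97 : T TT 256 :=
  (.q k1 [(.s k105 k125 5 (.s k169 k253 13 (.s k41 k233 7 (.s k61 k21 5 (.d k193 k129 k149 7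
  13))))), (.s k3 k2 0 (.s k129 k193 7 (.s k66 k192 8 (.s k67 k64 0 (.d k195 k131 k130 7 8))))), (.s
  k3 k2 0 (.s k105 k125 5 (.s k169 k253 13 (.s k86 k252 14 (.s k67 k124 6 (.d k195 k131 k130 7
  8))))))] .n)

def s43_170_98 : T TT 256 :=
  (.q k1 [(.s k105 k125 5 (.s k169 k253 13 (.s k41 k233 7 (.s k61 k21 5 (.d k193 k129 k149 7
  13))))), (.s k3 k2 0 (.s k129 k193 7 (.s k66 k192 8 (.s k67 k64 0 (.d k195 k131 k130 7 8))))), (.s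
  k3 k2 0 (.s k105 k125 5 (.s k169 k253 13 (.s k86 k252 14 (.s k67 k124 6 (.d k195 k131 k130 7
  8))))))] .n)

def s43_170_99 : T TT 256 :=
  (.q k1 [(.s k105 k125 5 (.s k169 k253 13 (.s k41 k233 7 (.s k61 k21 5 (.d k193 k129 k149 7
  13))))), (.s k3 k2 0 (.s k129 k193 7 (.s k66 k192 8 (.s k67 k64 0 (.d k195 k131 k130 7 8))))), (.s
  k3 k2 0 (.s k105 k125 5 (.s k169 k253 13 (.s k86 k252 14 (.s k67 k124 6 (.d k195 k131 k130 7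
  8))))))] .n)

def s43_170_100 : T TT 256 :=
  (.q k1 [(.s k105 k125 5 (.s k169 k253 13 (.s k41 k233 7 (.s k61 k21 5 (.d k193 k129 k149 7
  13))))), (.s k3 k2 0 (.s k129 k193 7 (.s k66 k192 8 (.s k67 k64 0 (.d k195 k131 k130 7 8))))), (.s
  k3 k2 0 (.s k105 k125 5 (.s k169 k253 13 (.s k86 k252 14 (.s k67 k124 6 (.d k195 k131 k130 7
  8))))))] .n)

def s43_170_101 : T TT 256 :=
  (.f k130 k195 8 (.f k105 k125 5 (.q k1 [(.s k129 k193 7 (.s k128 k131 0 (.s k192 k64 7 (.d k3 k2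
  k66 0 8)))), (.s k169 k253 13 (.s k41 k233 7 (.s k61 k21 5 (.d k193 k129 k149 7 13)))), (.s k3 k2
  0 (.s k169 k253 13 (.s k86 k252 14 (.s k67 k124 6 (.s k64 k66 0 (.s k87 k84 0 (.d k127 k107 k106 5
  6)))))))] (.c k32 (.q k239 [(.s k129 k193 7 (.s k128 k131 0 (.s k192 k64 7 (.d k3 k2 k66 0 8)))),
  (.s k169 k253 13 (.s k41 k233 7 (.s k61 k21 5 (.d k193 k129 k149 7 13)))), (.s k3 k2 0 (.s k169
  k253 13 (.s k86 k252 14 (.s k67 k124 6 (.s k64 k66 0 (.s k87 k84 0 (.d k127 k107 k106 5 6)))))))]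
  .n) (.c k239 (.q k32 [(.s k129 k193 7 (.s k128 k131 0 (.s k192 k64 7 (.d k3 k2 k66 0 8)))), (.s
  k169 k253 13 (.s k41 k233 7 (.s k61 k21 5 (.d k193 k129 k149 7 13)))), (.s k3 k2 0 (.s k48 k16 3
  (.s k33 k18 4 (.s k17 k49 3 (.d k34 k35 k51 0 4)))))] .n) .n)))))

def s43_170_102 : T TT 256 :=
  (.f k130 k195 8 (.f k105 k125 5 (.q k1 [(.s k129 k193 7 (.s k128 k131 0 (.s k192 k64 7 (.d k3 k2
  k66 0 8)))), (.s k169 k253 13 (.s k41 k233 7 (.s k61 k21 5 (.d k193 k129 k149 7 13)))), (.s k3 k2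
  0 (.s k169 k253 13 (.s k86 k252 14 (.s k67 k124 6 (.s k64 k66 0 (.s k87 k84 0 (.d k127 k107 k106 5
  6)))))))] (.c k34 (.q k238 [(.s k129 k193 7 (.s k128 k131 0 (.s k192 k64 7 (.d k3 k2 k66 0 8)))),
  (.s k169 k253 13 (.s k41 k233 7 (.s k61 k21 5 (.d k193 k129 k149 7 13)))), (.s k3 k2 0 (.s k169
  k253 13 (.s k86 k252 14 (.s k67 k124 6 (.s k64 k66 0 (.s k87 k84 0 (.d k127 k107 k106 5 6)))))))]
  .n) (.c k238 (.q k34 [(.s k129 k193 7 (.s k128 k131 0 (.s k192 k64 7 (.d k3 k2 k66 0 8)))), (.s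
  k169 k253 13 (.s k41 k233 7 (.s k61 k21 5 (.d k193 k129 k149 7 13)))), (.s k3 k2 0 (.s k17 k51 4
  (.s k33 k49 3 (.s k32 k35 0 (.d k48 k16 k18 3 4)))))] .n) .n)))))

def s43_170_103 : T TT 256 :=
  (.q k1 [(.s k105 k125 5 (.s k169 k253 13 (.s k41 k233 7 (.s k61 k21 5 (.d k193 k129 k149 7
  13))))), (.s k3 k2 0 (.s k129 k193 7 (.s k66 k192 8 (.s k67 k64 0 (.d k195 k131 k130 7 8))))), (.s
  k3 k2 0 (.s k105 k125 5 (.s k169 k253 13 (.s k86 k252 14 (.s k67 k124 6 (.d k195 k131 k130 7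
  8))))))] .n)

def s43_170_104 : T TT 256 :=
  (.q k1 [(.s k105 k125 5 (.s k169 k253 13 (.s k41 k233 7 (.s k61 k21 5 (.d k193 k129 k149 7
  13))))), (.s k3 k2 0 (.s k129 k193 7 (.s k66 k192 8 (.s k67 k64 0 (.d k195 k131 k130 7 8))))), (.s
  k3 k2 0 (.s k105 k125 5 (.s k169 k253 13 (.s k86 k252 14 (.s k67 k124 6 (.d k195 k131 k130 7
  8))))))] .n)

def s43_170_105 : T TT 256 :=
  (.q k169 [(.s k1 k253 13 (.s k3 k2 0 (.s k195 k130 8 (.s k67 k131 7 (.s k66 k64 0 (.d k129 k193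
  k192 7 8)))))), (.s k1 k253 13 (.s k3 k2 0 (.s k129 k193 7 (.s k149 k189 5 (.s k192 k66 8 (.s k63
  k106 14 (.d k21 k42 k213 6 7))))))), (.s k1 k253 13 (.s k129 k193 7 (.s k130 k195 8 (.s k128 k131
  0 (.s k192 k64 7 (.d k3 k2 k66 0 8))))))] (.c k1 (.q k106 [(.s k64 k127 6 (.s k192 k128 7 (.s k149
  k63 14 (.s k129 k189 5 (.d k66 k3 k67 8 0))))), (.s k64 k127 6 (.s k66 k67 0 (.s k128 k192 7 (.s
  k130 k195 8 (.s k131 k129 0 (.s k150 k188 6 (.d k194 k2 k62 7 13))))))), (.s k64 k127 6 (.s k66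
  k67 0 (.s k86 k126 5 (.s k252 k3 14 (.d k84 k87 k168 0 13)))))] (.c k3 (.l (.s k64 k127 6 (.s k66
  k67 0 (.s k128 k192 7 (.s k130 k195 8 (.s k131 k129 0 (.s k150 k188 6 (.d k194 k2 k62 7 13))))))))
  (.c k40 (.q k235 [(.s k64 k127 6 (.s k192 k128 7 (.s k149 k63 14 (.s k129 k189 5 (.d k66 k3 k67 8
  0))))), (.s k64 k127 6 (.s k192 k128 7 (.s k195 k130 8 (.s k194 k193 0 (.s k150 k62 13 (.d k215
  k255 k20 5 8)))))), (.s k64 k127 6 (.s k66 k67 0 (.s k86 k126 5 (.s k252 k3 14 (.d k84 k87 k168 0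
  13)))))] (.c k41 (.q k42 [(.s k64 k127 6 (.s k192 k128 7 (.d k63 k21 k149 6 14))), (.s k195 k130 8
  (.s k215 k255 5 (.s k150 k20 8 (.s k194 k62 13 (.s k192 k193 0 (.d k63 k21 k149 6 14)))))), (.s
  k127 k64 6 (.s k195 k130 8 (.s k255 k215 5 (.d k63 k21 k191 6 7))))] (.c k21 (.q k61 [(.s k64 k127
  6 (.s k192 k128 7 (.s k149 k63 14 (.s k129 k189 5 (.d k66 k3 k67 8 0))))), (.s k195 k130 8 (.s
  k215 k255 5 (.s k150 k20 8 (.s k62 k194 13 (.s k63 k60 0 (.s k149 k192 14 (.d k151 k148 k107 0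
  13))))))), (.s k64 k127 6 (.s k192 k128 7 (.s k195 k130 8 (.s k194 k193 0 (.s k150 k62 13 (.d k215
  k255 k20 5 8)))))), (.s k64 k127 6 (.s k66 k67 0 (.s k86 k126 5 (.s k252 k3 14 (.d k84 k87 k168 0
  13)))))] .n) (.c k61 (.l (.s k21 k63 6 (.s k64 k127 6 (.s k66 k67 0 (.s k86 k126 5 (.s k192 k128 7
  (.d k3 k252 k129 14 8))))))) (.c k63 (.l (.s k64 k127 6 (.s k66 k67 0 (.s k86 k126 5 (.s k192 k128
  7 (.d k3 k252 k129 14 8)))))) .n)))) (.c k42 (.q k41 [(.s k64 k127 6 (.s k192 k128 7 (.s k149 k63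
  14 (.s k129 k189 5 (.d k66 k3 k67 8 0))))), (.s k195 k130 8 (.s k215 k255 5 (.s k150 k20 8 (.s
  k131 k188 6 (.s k3 k67 7 (.s k22 k60 6 (.d k86 k252 k214 14 7))))))), (.s k64 k127 6 (.s k192 k128
  7 (.s k195 k130 8 (.s k194 k193 0 (.s k150 k62 13 (.d k215 k255 k20 5 8))))))] (.c k255 (.l (.s
  k64 k127 6 (.s k66 k67 0 (.s k86 k126 5 (.s k3 k252 14 (.d k192 k128 k129 7 8)))))) .n)) (.c k64
  (.f k195 k130 8 (.f k215 k255 5 (.l (.s k150 k20 8 (.s k131 k188 6 (.s k3 k67 7 (.s k86 k252 14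
  (.s k66 k126 5 (.s k192 k129 8 (.d k194 k193 k62 0 13)))))))))) (.c k127 (.f k195 k130 8 (.l (.s
  k215 k255 5 (.s k150 k20 8 (.s k131 k188 6 (.s k67 k3 7 (.s k64 k66 0 (.s k192 k128 7 (.d k194
  k193 k62 0 13))))))))) .n))))) (.c k64 (.q k149 [(.s k21 k213 7 (.d k63 k42 k192 6 14)), (.s k63
  k192 14 (.s k189 k129 5 (.s k252 k126 8 (.s k84 k168 13 (.d k86 k3 k87 14 0)))))] (.c k40 (.q k235
  [(.s k21 k213 7 (.d k63 k42 k192 6 14)), (.s k63 k192 14 (.s k189 k129 5 (.s k252 k126 8 (.s k84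
  k168 13 (.d k86 k3 k87 14 0))))), (.s k195 k130 8 (.s k213 k21 7 (.s k215 k255 5 (.s k150 k20 8
  (.s k151 k148 0 (.s k23 k87 7 (.d k212 k214 k86 0 8)))))))] (.c k41 (.q k42 [(.d k21 k63 k213 6
  7)] (.c k21 (.q k61 [(.s k63 k192 14 (.s k195 k130 8 (.s k151 k107 13 (.s k150 k148 0 (.d k62 k60
  k194 0 13))))), (.s k63 k192 14 (.s k189 k129 5 (.s k252 k126 8 (.s k84 k168 13 (.d k86 k3 k87 14
  0))))), (.s k189 k129 5 (.s k195 k130 8 (.s k253 k125 7 (.s k255 k215 5 (.s k252 k254 0 (.s k84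
  k168 13 (.d k86 k87 k3 0 14)))))))] (.c k104 (.l (.s k63 k192 14 (.s k195 k130 8 (.s k151 k107 13
  (.s k215 k255 5 (.d k150 k148 k20 0 8)))))) .n)) (.c k61 (.l (.d k21 k63 k213 6 7)) (.c k63 (.l
  (.s k195 k130 8 (.s k215 k255 5 (.s k150 k20 8 (.s k151 k148 0 (.s k23 k87 7 (.s k212 k86 8 (.d
  k213 k214 k21 0 7)))))))) (.c k213 (.l (.d k63 k21 k192 6 14)) .n))))) (.c k42 (.q k41 [(.s k195
  k130 8 (.s k213 k21 7 (.s k255 k215 5 (.d k192 k234 k63 6 14)))), (.s k63 k192 14 (.s k189 k129 5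
  (.s k252 k126 8 (.s k84 k168 13 (.d k86 k3 k87 14 0))))), (.s k195 k130 8 (.s k213 k21 7 (.s k215
  k255 5 (.s k150 k20 8 (.s k151 k148 0 (.s k23 k87 7 (.d k212 k214 k86 0 8)))))))] .n) .n))) (.c
  k63 (.f k129 k189 5 (.l (.s k130 k195 8 (.s k131 k128 0 (.s k150 k188 6 (.s k194 k62 13 (.s k66 k2
  7 (.s k3 k192 8 (.d k86 k126 k252 5 14))))))))) (.c k192 (.l (.s k21 k213 7 (.s k63 k42 6 (.s k189
  k129 5 (.s k252 k126 8 (.s k84 k168 13 (.d k86 k3 k87 14 0))))))) (.c k235 (.q k40 [(.s k21 k213 7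
  (.d k63 k42 k192 6 14)), (.s k20 k60 5 (.s k129 k189 5 (.s k150 k215 8 (.s k131 k188 6 (.d k130
  k195 k128 8 0)))))] (.c k107 (.q k171 [(.s k21 k213 7 (.d k63 k42 k192 6 14)), (.s k20 k60 5 (.s
  k150 k215 8 (.s k131 k188 6 (.d k151 k148 k191 0 5))))] .n) (.c k171 (.q k107 [(.s k21 k213 7 (.d
  k63 k42 k192 6 14)), (.s k20 k60 5 (.s k129 k189 5 (.s k150 k215 8 (.s k131 k188 6 (.d k130 k195
  k128 8 0)))))] .n) .n))) .n))))) (.c k66 (.f k64 k127 6 (.f k192 k128 7 (.l (.s k149 k63 14 (.s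
  k195 k130 8 (.s k194 k193 0 (.s k150 k62 13 (.s k20 k215 8 (.s k148 k151 0 (.d k60 k40 k104 5
  13)))))))))) (.c k67 (.f k130 k195 8 (.f k64 k127 6 (.f k128 k192 7 (.l (.s k131 k129 0 (.s k150
  k188 6 (.s k194 k62 13 (.s k66 k2 7 (.s k86 k126 5 (.s k252 k3 14 (.d k84 k87 k168 0 13)))))))))))
  (.c k127 (.q k86 [(.s k84 k87 0 (.d k252 k168 k3 13 14)), (.s k3 k252 14 (.s k66 k126 5 (.s k67
  k64 0 (.d k195 k131 k130 7 8))))] (.c k3 (.l (.s k84 k87 0 (.s k126 k66 5 (.s k252 k168 13 (.s k63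
  k189 8 (.s k21 k42 6 (.d k149 k192 k213 14 7))))))) (.c k40 (.q k235 [(.s k84 k87 0 (.d k252 k168
  k3 13 14)), (.s k3 k252 14 (.s k66 k126 5 (.s k67 k64 0 (.d k195 k131 k130 7 8))))] (.c k3 (.l (.s
  k84 k87 0 (.s k195 k130 8 (.s k252 k168 13 (.s k214 k233 6 (.s k150 k22 7 (.d k215 k255 k20 5
  8))))))) (.c k41 (.q k42 [(.s k84 k87 0 (.d k252 k168 k3 13 14)), (.s k126 k66 5 (.s k252 k3 14
  (.d k63 k21 k189 6 8))), (.s k66 k126 5 (.s k64 k67 0 (.s k192 k128 7 (.d k63 k21 k149 6 14))))]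
  (.c k21 (.q k61 [(.s k84 k87 0 (.d k252 k168 k3 13 14)), (.s k195 k130 8 (.s k215 k255 5 (.s k150
  k20 8 (.s k22 k214 7 (.d k62 k2 k194 5 13)))))] .n) (.c k61 (.l (.s k21 k63 6 (.s k84 k87 0 (.d
  k252 k3 k168 14 13)))) .n))) (.c k42 (.q k41 [(.s k84 k87 0 (.d k252 k168 k3 13 14)), (.s k3 k252
  14 (.s k66 k126 5 (.s k67 k64 0 (.d k195 k131 k130 7 8))))] (.c k3 (.l (.s k84 k87 0 (.s k195 k130
  8 (.s k252 k168 13 (.s k214 k233 6 (.s k150 k22 7 (.d k215 k255 k20 5 8))))))) (.c k67 (.l (.s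
  k252 k3 14 (.d k84 k87 k168 0 13))) (.c k252 (.l (.s k66 k126 5 (.s k64 k67 0 (.s k192 k128 7 (.s
  k129 k3 8 (.d k149 k189 k63 5 14)))))) .n)))) (.c k67 (.l (.s k252 k3 14 (.d k84 k87 k168 0 13)))
  (.c k252 (.l (.s k66 k126 5 (.s k64 k67 0 (.s k192 k128 7 (.s k129 k3 8 (.d k149 k189 k63 5
  14)))))) .n)))))) (.c k67 (.l (.s k252 k3 14 (.d k84 k87 k168 0 13))) (.c k235 (.q k40 [(.s k84
  k87 0 (.d k252 k168 k3 13 14)), (.s k20 k60 5 (.s k66 k126 5 (.s k150 k215 8 (.s k194 k62 13 (.d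
  k130 k195 k2 8 7)))))] (.c k107 (.q k171 [(.s k3 k252 14 (.d k87 k84 k255 0 13)), (.s k20 k60 5
  (.s k66 k126 5 (.s k150 k215 8 (.s k194 k62 13 (.d k130 k195 k2 8 7)))))] (.c k67 (.l (.s k87 k84
  0 (.d k3 k255 k252 13 14))) (.c k87 (.q k67 [(.d k66 k64 k126 0 5), (.s k3 k252 14 (.d k195 k131
  k130 7 8))] .n) (.c k255 (.l (.s k252 k3 14 (.d k84 k87 k168 0 13))) .n)))) (.c k171 (.q k107 [(.s
  k84 k87 0 (.d k252 k3 k168 14 13)), (.s k195 k130 8 (.s k63 k151 13 (.s k21 k42 6 (.d k149 k213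
  k192 7 14))))] .n) .n))) (.c k252 (.l (.s k66 k126 5 (.s k64 k67 0 (.s k192 k128 7 (.s k129 k3 8
  (.d k149 k189 k63 5 14)))))) .n)))))) (.c k235 (.q k40 [(.s k64 k127 6 (.s k66 k67 0 (.s k86 k126
  5 (.s k3 k252 14 (.d k192 k128 k129 7 8))))), (.s k20 k60 5 (.s k64 k127 6 (.s k128 k192 7 (.s
  k150 k215 8 (.s k131 k188 6 (.d k130 k195 k129 8 0)))))), (.s k20 k60 5 (.s k64 k127 6 (.s k66 k67
  0 (.s k150 k215 8 (.s k194 k62 13 (.d k130 k195 k2 8 7))))))] (.c k64 (.q k149 [(.s k21 k213 7 (.d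
  k63 k42 k192 6 14)), (.s k20 k60 5 (.s k129 k189 5 (.s k150 k215 8 (.s k131 k188 6 (.d k130 k195
  k128 8 0)))))] (.c k107 (.q k171 [(.s k21 k213 7 (.d k63 k42 k192 6 14)), (.s k20 k60 5 (.s k150
  k215 8 (.s k131 k188 6 (.d k151 k148 k191 0 5))))] .n) (.c k171 (.q k107 [(.s k21 k213 7 (.d k63
  k42 k192 6 14)), (.s k20 k60 5 (.s k129 k189 5 (.s k150 k215 8 (.s k131 k188 6 (.d k130 k195 k128
  8 0)))))] .n) .n))) (.c k107 (.q k171 [(.s k20 k60 5 (.s k64 k127 6 (.s k67 k66 0 (.s k150 k215 8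
  (.s k131 k188 6 (.d k195 k3 k130 7 8)))))), (.s k64 k127 6 (.s k192 k128 7 (.s k149 k63 14 (.s
  k129 k189 5 (.d k66 k67 k3 0 8))))), (.s k20 k60 5 (.s k150 k215 8 (.s k131 k188 6 (.s k151 k191 5
  (.s k149 k148 0 (.s k21 k213 7 (.d k63 k192 k42 14 6))))))), (.s k60 k20 5 (.s k64 k127 6 (.s k192
  k128 7 (.s k104 k148 13 (.s k84 k124 5 (.d k168 k232 k252 7 13))))))] (.c k252 (.l (.s k20 k60 5
  (.s k64 k127 6 (.s k67 k66 0 (.s k150 k215 8 (.s k195 k130 8 (.d k131 k188 k3 6 7))))))) .n)) (.c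
  k124 (.l (.s k64 k127 6 (.s k192 k128 7 (.s k149 k63 14 (.s k129 k189 5 (.d k66 k3 k67 8 0))))))
  (.c k127 (.f k20 k60 5 (.l (.s k150 k215 8 (.s k131 k188 6 (.s k194 k62 13 (.s k195 k130 8 (.s k67
  k3 7 (.s k64 k66 0 (.d k192 k193 k128 0 7))))))))) (.c k171 (.q k107 [(.s k195 k130 8 (.s k63 k151
  13 (.s k21 k42 6 (.d k149 k213 k192 7 14)))), (.s k64 k127 6 (.s k66 k67 0 (.s k86 k126 5 (.s k84
  k87 0 (.d k252 k3 k168 14 13)))))] .n) .n)))))) .n)))))))) (.c k2 (.f k1 k253 13 (.l (.s k129 k193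
  7 (.s k130 k195 8 (.s k128 k131 0 (.s k149 k189 5 (.s k192 k64 7 (.s k63 k106 14 (.d k21 k42 k213
  6 7))))))))) (.c k3 (.f k1 k253 13 (.f k130 k195 8 (.f k129 k193 7 (.f k131 k128 0 (.l (.s k149
  k189 5 (.s k150 k188 6 (.s k20 k215 8 (.s k148 k151 0 (.s k212 k84 7 (.s k23 k86 8 (.d k21 k22
  k213 0 7)))))))))))) (.c k40 (.q k235 [(.s k1 k253 13 (.s k3 k2 0 (.s k86 k252 14 (.s k87 k84 0
  (.s k255 k171 13 (.d k195 k215 k130 5 8)))))), (.s k1 k253 13 (.s k129 k193 7 (.s k130 k195 8 (.s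
  k128 k131 0 (.s k192 k64 7 (.d k3 k2 k66 0 8))))))] (.c k1 (.f k195 k130 8 (.f k215 k255 5 (.l (.s
  k150 k20 8 (.s k131 k188 6 (.s k67 k3 7 (.s k64 k66 0 (.s k106 k127 6 (.s k192 k128 7 (.d k194
  k193 k62 0 13)))))))))) (.c k2 (.l (.s k195 k130 8 (.s k253 k1 13 (.s k255 k215 5 (.s k252 k254 0
  (.s k86 k3 14 (.d k84 k87 k168 0 13))))))) (.c k3 (.l (.s k195 k130 8 (.s k253 k1 13 (.s k255 k215
  5 (.s k252 k254 0 (.s k233 k214 6 (.s k213 k193 5 (.d k234 k232 k192 0 6)))))))) (.c k41 (.q k42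
  [(.s k1 k253 13 (.s k129 k193 7 (.s k149 k189 5 (.d k21 k213 k63 7 6)))), (.s k1 k253 13 (.s k3 k2
  0 (.s k86 k252 14 (.s k87 k84 0 (.s k195 k130 8 (.d k255 k215 k171 5 13))))))] (.c k1 (.f k21 k63
  6 (.l (.s k195 k130 8 (.s k213 k149 7 (.s k215 k255 5 (.s k150 k20 8 (.s k214 k212 0 (.s k86 k22 7
  (.d k252 k3 k233 14 6))))))))) (.c k253 (.l (.s k63 k21 6 (.s k195 k130 8 (.s k107 k151 13 (.s
  k255 k215 5 (.s k127 k191 7 (.s k64 k106 6 (.d k67 k87 k66 5 0)))))))) .n))) (.c k42 (.q k41 [(.s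
  k1 k253 13 (.s k21 k61 5 (.s k129 k193 7 (.d k149 k189 k213 5 7)))), (.s k195 k130 8 (.s k215 k255
  5 (.s k150 k20 8 (.s k131 k188 6 (.s k3 k67 7 (.s k22 k60 6 (.d k86 k252 k214 14 7)))))))] (.c
  k106 (.q k234 [(.s k1 k253 13 (.s k21 k61 5 (.s k129 k193 7 (.d k149 k189 k213 5 7)))), (.s k195
  k130 8 (.s k233 k232 0 (.s k252 k214 6 (.s k86 k3 14 (.d k84 k168 k87 13 0)))))] (.c k104 (.q k107
  [(.s k1 k253 13 (.s k21 k61 5 (.s k129 k193 7 (.d k149 k189 k213 5 7)))), (.s k195 k130 8 (.s k63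
  k151 13 (.s k255 k215 5 (.s k127 k191 7 (.s k87 k67 5 (.s k86 k84 0 (.d k3 k171 k252 13 14)))))))]
  (.c k149 (.l (.s k1 k253 13 (.s k193 k129 7 (.s k195 k130 8 (.s k192 k194 0 (.d k255 k215 k213 5
  6)))))) (.c k168 (.l (.s k232 k233 0 (.s k1 k253 13 (.s k21 k61 5 (.s k195 k130 8 (.s k255 k215 5
  (.d k213 k149 k192 7 6))))))) (.c k232 (.q k168 [(.s k1 k253 13 (.s k252 k84 13 (.d k3 k2 k86 0
  14))), (.s k1 k253 13 (.s k21 k61 5 (.s k129 k193 7 (.d k149 k189 k213 5 7)))), (.s k84 k252 13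
  (.s k87 k86 0 (.s k195 k130 8 (.s k151 k63 13 (.d k215 k23 k255 7 5)))))] .n) .n)))) (.c k107 (.q
  k104 [(.s k1 k253 13 (.s k21 k61 5 (.s k129 k193 7 (.d k149 k189 k213 5 7)))), (.s k195 k130 8 (.s
  k233 k232 0 (.s k252 k214 6 (.s k84 k168 13 (.d k86 k87 k3 0 14)))))] (.c k233 (.l (.s k1 k253 13
  (.s k21 k61 5 (.s k195 k130 8 (.s k255 k215 5 (.d k213 k149 k192 7 6)))))) .n)) (.c k233 (.l (.s
  k1 k253 13 (.s k21 k61 5 (.s k195 k130 8 (.s k255 k215 5 (.d k213 k149 k192 7 6)))))) .n)))) (.c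
  k125 (.l (.s k1 k253 13 (.s k3 k2 0 (.s k86 k252 14 (.s k87 k84 0 (.s k195 k130 8 (.d k255 k215
  k171 5 13))))))) (.c k234 (.q k106 [(.s k1 k253 13 (.s k21 k61 5 (.s k129 k193 7 (.d k149 k189
  k213 5 7)))), (.s k1 k253 13 (.s k2 k3 0 (.s k64 k127 6 (.s k66 k67 0 (.d k130 k195 k194 8 7))))),
  (.s k64 k127 6 (.s k66 k67 0 (.s k86 k126 5 (.s k3 k252 14 (.d k192 k128 k129 7 8)))))] .n) .n))))
  (.c k130 (.l (.s k1 k253 13 (.s k3 k2 0 (.s k86 k252 14 (.s k129 k193 7 (.s k66 k192 8 (.s k64 k67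
  0 (.d k106 k126 k127 5 6)))))))) (.c k195 (.l (.s k1 k253 13 (.s k3 k2 0 (.s k129 k193 7 (.s k149
  k189 5 (.s k192 k66 8 (.s k63 k106 14 (.d k21 k42 k213 6 7)))))))) (.c k253 (.f k195 k130 8 (.f
  k215 k255 5 (.l (.s k150 k20 8 (.s k131 k188 6 (.s k67 k3 7 (.s k64 k66 0 (.s k106 k127 6 (.s k192
  k128 7 (.d k194 k193 k62 0 13)))))))))) .n))))))))) (.c k66 (.f k1 k253 13 (.l (.s k129 k193 7 (.s
  k130 k195 8 (.s k128 k131 0 (.s k149 k189 5 (.s k192 k64 7 (.s k63 k106 14 (.d k21 k42 k213 6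
  7))))))))) (.c k129 (.f k1 k253 13 (.f k3 k2 0 (.l (.s k86 k252 14 (.s k87 k84 0 (.s k195 k130 8
  (.s k131 k67 7 (.s k150 k188 6 (.s k215 k20 8 (.d k255 k235 k171 5 13)))))))))) (.c k130 (.l (.s
  k1 k253 13 (.s k3 k2 0 (.s k86 k252 14 (.s k129 k193 7 (.s k66 k192 8 (.s k64 k67 0 (.d k106 k126
  k127 5 6)))))))) (.c k192 (.f k1 k253 13 (.l (.s k3 k2 0 (.s k86 k252 14 (.s k87 k84 0 (.s k195
  k130 8 (.s k67 k131 7 (.s k127 k107 5 (.d k64 k66 k106 0 6))))))))) (.c k193 (.f k1 k253 13 (.l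
  (.s k3 k2 0 (.s k86 k252 14 (.s k87 k84 0 (.s k195 k130 8 (.s k67 k131 7 (.s k127 k107 5 (.d k64
  k66 k106 0 6))))))))) (.c k194 (.l (.s k1 k253 13 (.s k3 k2 0 (.s k129 k193 7 (.s k66 k192 8 (.s
  k195 k130 8 (.d k67 k64 k131 0 7))))))) (.c k235 (.q k40 [(.s k1 k253 13 (.s k3 k2 0 (.s k20 k60 5
  (.s k150 k215 8 (.s k131 k188 6 (.d k195 k67 k130 7 8)))))), (.s k1 k253 13 (.s k3 k2 0 (.s k60
  k20 5 (.s k41 k22 6 (.s k21 k61 5 (.s k129 k193 7 (.d k149 k189 k213 5 7))))))), (.s k1 k253 13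
  (.s k20 k60 5 (.s k129 k193 7 (.s k150 k215 8 (.s k131 k188 6 (.d k130 k195 k128 8 0)))))), (.s k1
  k253 13 (.s k3 k2 0 (.s k129 k193 7 (.s k66 k192 8 (.s k67 k64 0 (.d k195 k131 k130 7 8))))))] (.c
  k1 (.f k195 k130 8 (.f k20 k60 5 (.l (.s k150 k215 8 (.s k131 k188 6 (.s k67 k3 7 (.s k64 k66 0
  (.s k106 k127 6 (.s k192 k128 7 (.d k194 k193 k62 0 13)))))))))) (.c k107 (.q k171 [(.s k1 k253 13
  (.s k3 k2 0 (.s k86 k252 14 (.d k87 k255 k84 13 0)))), (.s k1 k253 13 (.s k20 k60 5 (.s k129 k193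
  7 (.s k150 k215 8 (.s k131 k188 6 (.d k130 k195 k128 8 0)))))), (.s k20 k60 5 (.s k150 k215 8 (.s
  k131 k188 6 (.s k195 k130 8 (.s k3 k67 7 (.s k87 k255 13 (.d k86 k252 k84 14 0)))))))] (.c k104
  (.q k106 [(.s k1 k253 13 (.s k3 k2 0 (.s k86 k252 14 (.d k87 k255 k84 13 0)))), (.s k1 k253 13 (.s
  k64 k127 6 (.s k128 k192 7 (.s k129 k193 7 (.d k130 k195 k131 8 0))))), (.s k64 k127 6 (.s k192
  k128 7 (.s k149 k63 14 (.s k129 k189 5 (.d k66 k67 k3 0 8)))))] (.c k87 (.l (.s k1 k253 13 (.s k2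
  k3 0 (.s k130 k195 8 (.s k66 k194 7 (.d k64 k67 k127 0 6)))))) .n)) (.c k106 (.q k104 [(.s k1 k253
  13 (.s k3 k2 0 (.s k86 k252 14 (.d k87 k255 k84 13 0)))), (.s k60 k20 5 (.s k148 k192 13 (.s k168
  k232 7 (.s k188 k128 5 (.d k252 k124 k84 7 13))))), (.s k1 k253 13 (.s k3 k2 0 (.s k60 k20 5 (.s
  k129 k193 7 (.d k192 k66 k148 8 13)))))] (.c k42 (.q k234 [(.s k1 k253 13 (.s k168 k232 7 (.s k252
  k84 13 (.d k3 k2 k86 0 14)))), (.s k1 k253 13 (.s k60 k20 5 (.s k192 k148 13 (.s k193 k129 7 (.d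
  k195 k194 k130 0 8))))), (.s k60 k20 5 (.s k148 k192 13 (.s k168 k232 7 (.s k188 k128 5 (.d k252
  k124 k84 7 13)))))] (.c k84 (.l (.s k1 k253 13 (.s k3 k2 0 (.s k60 k20 5 (.s k129 k193 7 (.d k192
  k148 k66 13 8)))))) .n)) (.c k234 (.q k42 [(.s k1 k253 13 (.s k3 k2 0 (.s k86 k252 14 (.d k87 k255
  k84 13 0)))), (.s k1 k253 13 (.s k129 k193 7 (.s k149 k189 5 (.d k21 k213 k63 7 6)))), (.s k60 k20
  5 (.s k192 k148 13 (.s k64 k128 7 (.s k84 k124 5 (.d k168 k232 k252 7 13)))))] (.c k232 (.q k233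
  [(.s k253 k1 13 (.s k213 k193 5 (.d k21 k149 k63 7 6))), (.s k195 k130 8 (.s k252 k214 6 (.s k84
  k168 13 (.d k86 k87 k3 0 14))))] .n) (.c k233 (.l (.s k232 k168 7 (.s k1 k253 13 (.s k3 k2 0 (.s
  k86 k252 14 (.d k87 k255 k84 13 0)))))) .n))) .n))) (.c k252 (.l (.s k1 k253 13 (.s k3 k2 0 (.s
  k20 k60 5 (.s k150 k215 8 (.s k195 k130 8 (.d k131 k188 k67 6 7))))))) (.c k255 (.l (.s k1 k253 13
  (.s k3 k2 0 (.s k20 k60 5 (.s k150 k215 8 (.s k195 k130 8 (.d k131 k188 k67 6 7))))))) .n))))) (.c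
  k171 (.q k107 [(.s k1 k253 13 (.s k3 k2 0 (.s k86 k252 14 (.s k87 k84 0 (.s k67 k127 5 (.d k195
  k131 k130 7 8)))))), (.s k1 k253 13 (.s k3 k2 0 (.s k60 k20 5 (.s k41 k22 6 (.s k21 k61 5 (.s k129
  k193 7 (.d k149 k189 k213 5 7))))))), (.s k20 k60 5 (.s k150 k215 8 (.s k131 k188 6 (.s k195 k130
  8 (.s k67 k3 7 (.s k64 k66 0 (.d k127 k87 k106 5 6))))))), (.s k1 k253 13 (.s k20 k60 5 (.s k129
  k193 7 (.s k150 k215 8 (.s k131 k188 6 (.d k130 k195 k128 8 0))))))] .n) (.c k253 (.f k195 k130 8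
  (.f k20 k60 5 (.l (.s k150 k215 8 (.s k131 k188 6 (.s k67 k3 7 (.s k64 k66 0 (.s k106 k127 6 (.s
  k192 k128 7 (.d k194 k193 k62 0 13)))))))))) .n))))) (.c k253 (.q k106 [(.s k64 k127 6 (.s k66 k67
  0 (.s k86 k126 5 (.s k192 k128 7 (.d k3 k129 k252 8 14))))), (.s k64 k127 6 (.s k192 k128 7 (.s
  k195 k130 8 (.s k193 k194 0 (.s k129 k1 7 (.d k149 k189 k63 5 14)))))), (.s k64 k127 6 (.s k66 k67
  0 (.s k86 k126 5 (.s k252 k3 14 (.d k84 k87 k168 0 13)))))] (.c k40 (.q k235 [(.s k64 k127 6 (.s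
  k66 k67 0 (.s k86 k126 5 (.s k192 k128 7 (.d k3 k129 k252 8 14))))), (.s k64 k127 6 (.s k192 k128
  7 (.s k195 k130 8 (.s k193 k194 0 (.s k129 k1 7 (.d k149 k189 k63 5 14)))))), (.s k64 k127 6 (.s
  k66 k67 0 (.s k86 k126 5 (.s k252 k3 14 (.d k84 k87 k168 0 13)))))] (.c k41 (.q k42 [(.s k64 k127
  6 (.s k192 k128 7 (.d k63 k149 k21 14 6))), (.s k63 k21 6 (.s k149 k192 14 (.s k189 k129 5 (.s
  k252 k126 8 (.s k84 k168 13 (.d k86 k3 k87 14 0)))))), (.s k64 k127 6 (.s k66 k67 0 (.s k86 k126 5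
  (.s k3 k252 14 (.d k192 k128 k129 7 8)))))] (.c k63 (.l (.s k64 k127 6 (.s k66 k67 0 (.s k86 k126
  5 (.s k192 k128 7 (.d k3 k252 k129 14 8)))))) (.c k192 (.l (.s k63 k21 6 (.s k127 k64 6 (.s k195
  k130 8 (.d k255 k215 k191 5 7))))) .n))) (.c k42 (.q k41 [(.s k64 k127 6 (.s k66 k67 0 (.s k86
  k126 5 (.s k192 k128 7 (.d k3 k129 k252 8 14))))), (.s k195 k130 8 (.s k215 k255 5 (.s k150 k20 8
  (.s k131 k188 6 (.s k3 k67 7 (.s k22 k60 6 (.d k86 k252 k214 14 7))))))), (.s k64 k127 6 (.s k192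
  k128 7 (.s k195 k130 8 (.s k193 k194 0 (.s k129 k1 7 (.d k149 k189 k63 5 14))))))] .n) (.c k64 (.q
  k42 [(.s k63 k21 6 (.s k149 k192 14 (.s k189 k129 5 (.s k252 k126 8 (.s k84 k168 13 (.d k86 k3 k87
  14 0)))))), (.s k195 k130 8 (.s k215 k255 5 (.s k150 k20 8 (.s k62 k194 13 (.s k131 k188 6 (.s k3
  k67 7 (.d k2 k1 k22 0 5))))))), (.s k63 k21 6 (.s k149 k192 14 (.s k195 k130 8 (.s k151 k107 13
  (.s k150 k148 0 (.d k215 k255 k20 5 8))))))] .n) (.c k66 (.l (.s k64 k127 6 (.s k192 k128 7 (.s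
  k149 k63 14 (.s k129 k189 5 (.s k193 k1 7 (.d k195 k194 k130 0 8))))))) (.c k127 (.f k195 k130 8
  (.l (.s k215 k255 5 (.s k150 k20 8 (.s k131 k188 6 (.s k3 k67 7 (.s k1 k2 0 (.s k193 k129 7 (.d
  k194 k192 k62 0 13))))))))) .n)))))) (.c k64 (.f k195 k130 8 (.q k150 [(.s k131 k188 6 (.s k194
  k62 13 (.s k193 k192 0 (.s k1 k129 7 (.d k3 k2 k67 0 7))))), (.s k20 k215 8 (.s k131 k188 6 (.s k3
  k67 7 (.s k86 k252 14 (.s k22 k214 7 (.d k60 k40 k41 5 6)))))), (.s k194 k62 13 (.s k193 k192 0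
  (.s k129 k1 7 (.s k149 k189 5 (.s k21 k213 7 (.s k63 k42 6 (.d k151 k148 k107 0 13)))))))] (.c k40
  (.q k235 [(.d k215 k255 k20 5 8), (.s k131 k188 6 (.s k3 k67 7 (.s k1 k2 0 (.s k193 k129 7 (.d
  k194 k192 k62 0 13)))))] (.c k41 (.q k42 [(.d k215 k255 k20 5 8), (.s k63 k21 6 (.s k149 k192 14
  (.d k151 k148 k107 0 13)))] .n) (.c k42 (.q k41 [(.d k215 k255 k20 5 8), (.s k131 k188 6 (.s k3
  k67 7 (.s k22 k60 6 (.d k86 k252 k214 14 7))))] .n) .n))) (.c k235 (.q k40 [(.d k20 k60 k215 5 8),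
  (.s k131 k188 6 (.s k3 k67 7 (.s k1 k2 0 (.s k193 k129 7 (.d k194 k192 k62 0 13)))))] (.c k107 (.q
  k171 [(.d k20 k60 k215 5 8), (.s k131 k188 6 (.s k3 k67 7 (.s k87 k255 13 (.d k86 k252 k84 14
  0))))] .n) (.c k171 (.q k107 [(.d k20 k60 k215 5 8), (.s k63 k151 13 (.s k21 k42 6 (.d k149 k213
  k192 7 14)))] .n) .n))) .n)))) (.c k66 (.l (.s k64 k127 6 (.s k192 k128 7 (.s k149 k63 14 (.s k129
  k189 5 (.s k193 k1 7 (.d k195 k194 k130 0 8))))))) (.c k127 (.q k3 [(.s k2 k1 0 (.s k130 k195 8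
  (.s k66 k194 7 (.d k86 k126 k252 5 14)))), (.s k86 k252 14 (.s k66 k126 5 (.s k64 k67 0 (.d k192
  k128 k129 7 8)))), (.s k1 k2 0 (.s k129 k193 7 (.s k149 k189 5 (.s k63 k192 14 (.d k21 k213 k42 7
  6)))))] (.c k40 (.q k235 [(.s k86 k252 14 (.s k87 k84 0 (.s k195 k130 8 (.d k255 k215 k171 5
  13)))), (.s k1 k2 0 (.s k129 k193 7 (.s k149 k189 5 (.d k192 k66 k63 8 14))))] (.c k41 (.q k42
  [(.s k1 k2 0 (.s k63 k21 6 (.s k149 k192 14 (.d k129 k189 k193 5 7)))), (.s k2 k1 0 (.s k62 k22 5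
  (.s k130 k195 8 (.d k194 k150 k66 13 7)))), (.s k86 k252 14 (.s k66 k126 5 (.s k64 k67 0 (.d k192
  k128 k129 7 8))))] .n) (.c k42 (.q k41 [(.s k2 k1 0 (.s k130 k195 8 (.s k66 k194 7 (.d k86 k126
  k252 5 14)))), (.s k1 k2 0 (.s k21 k61 5 (.s k129 k193 7 (.d k149 k189 k213 5 7)))), (.s k195 k130
  8 (.s k215 k255 5 (.s k150 k20 8 (.d k131 k188 k67 6 7))))] .n) (.c k86 (.l (.s k195 k130 8 (.s
  k215 k255 5 (.s k150 k20 8 (.d k131 k188 k67 6 7))))) (.c k254 (.l (.s k2 k1 0 (.s k130 k195 8 (.s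
  k66 k194 7 (.d k86 k126 k252 5 14))))) .n))))) (.c k86 (.l (.s k2 k1 0 (.s k130 k195 8 (.s k66
  k194 7 (.s k192 k129 8 (.d k64 k67 k128 0 7)))))) (.c k192 (.l (.s k2 k1 0 (.s k86 k252 14 (.s k66
  k126 5 (.d k130 k194 k195 7 8))))) (.c k235 (.q k40 [(.s k20 k60 5 (.s k150 k215 8 (.s k131 k188 6
  (.d k195 k67 k130 7 8)))), (.s k1 k2 0 (.s k129 k193 7 (.s k149 k189 5 (.d k192 k66 k63 8 14))))]
  (.c k107 (.q k171 [(.s k86 k252 14 (.d k87 k255 k84 13 0)), (.s k20 k60 5 (.s k150 k215 8 (.s k131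
  k188 6 (.d k195 k67 k130 7 8)))), (.s k1 k2 0 (.s k129 k193 7 (.s k149 k189 5 (.d k192 k66 k63 8
  14))))] (.c k67 (.l (.s k87 k255 13 (.d k86 k252 k84 14 0))) (.c k87 (.q k67 [(.d k195 k131 k130 7
  8), (.s k66 k64 0 (.d k86 k126 k252 5 14))] .n) .n))) (.c k171 (.q k107 [(.s k20 k60 5 (.s k150
  k215 8 (.s k131 k188 6 (.d k195 k67 k130 7 8)))), (.s k1 k2 0 (.s k129 k193 7 (.s k149 k189 5 (.d
  k192 k66 k63 8 14))))] .n) .n))) .n))))) (.c k235 (.q k40 [(.s k64 k127 6 (.s k66 k67 0 (.s k86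
  k126 5 (.s k192 k128 7 (.d k3 k129 k252 8 14))))), (.s k20 k60 5 (.s k64 k127 6 (.s k66 k67 0 (.s
  k150 k215 8 (.s k194 k62 13 (.d k130 k195 k2 8 7)))))), (.s k20 k60 5 (.s k64 k127 6 (.s k128 k192
  7 (.s k150 k215 8 (.s k131 k188 6 (.d k130 k195 k129 8 0))))))] (.c k64 (.f k20 k60 5 (.l (.s k150
  k215 8 (.s k131 k188 6 (.s k194 k62 13 (.s k195 k130 8 (.s k3 k67 7 (.s k1 k2 0 (.d k193 k192 k129
  0 7))))))))) (.c k107 (.q k171 [(.s k20 k60 5 (.s k64 k127 6 (.s k67 k66 0 (.s k150 k215 8 (.s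
  k131 k188 6 (.d k195 k3 k130 7 8)))))), (.s k64 k127 6 (.s k192 k128 7 (.s k149 k63 14 (.s k129
  k189 5 (.d k66 k67 k3 0 8))))), (.s k20 k60 5 (.s k150 k215 8 (.s k131 k188 6 (.s k151 k191 5 (.s
  k149 k148 0 (.s k21 k213 7 (.d k63 k192 k42 14 6))))))), (.s k60 k20 5 (.s k64 k127 6 (.s k192
  k128 7 (.s k104 k148 13 (.s k84 k124 5 (.d k168 k232 k252 7 13))))))] (.c k252 (.l (.s k20 k60 5
  (.s k64 k127 6 (.s k67 k66 0 (.s k150 k215 8 (.s k195 k130 8 (.d k131 k188 k3 6 7))))))) .n)) (.c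
  k124 (.l (.s k64 k127 6 (.s k192 k128 7 (.s k149 k63 14 (.s k129 k189 5 (.d k66 k3 k67 8 0))))))
  (.c k127 (.f k20 k60 5 (.l (.s k150 k215 8 (.s k131 k188 6 (.s k194 k62 13 (.s k195 k130 8 (.s k3
  k67 7 (.s k1 k2 0 (.d k193 k192 k129 0 7))))))))) (.c k171 (.q k107 [(.s k195 k130 8 (.s k63 k151
  13 (.s k21 k42 6 (.d k149 k213 k192 7 14)))), (.s k64 k127 6 (.s k66 k67 0 (.s k86 k126 5 (.s k84
  k87 0 (.d k252 k3 k168 14 13)))))] .n) .n)))))) .n)))))) .n)))))))))))))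

def s43_170_106 : T TT 256 :=
  (.f k105 k125 5 (.q k169 [(.s k1 k253 13 (.s k41 k233 7 (.s k61 k21 5 (.d k193 k129 k149 7 13)))),
  (.s k195 k130 8 (.s k233 k41 7 (.s k252 k214 6 (.s k84 k168 13 (.d k86 k87 k3 0 14))))), (.s k1
  k253 13 (.s k3 k2 0 (.s k86 k252 14 (.s k67 k124 6 (.d k195 k131 k130 7 8)))))] (.c k42 (.q k234
  [(.s k1 k253 13 (.s k41 k233 7 (.s k61 k21 5 (.d k193 k129 k149 7 13)))), (.s k195 k130 8 (.s k150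
  k60 14 (.s k131 k188 6 (.s k3 k67 7 (.s k252 k86 14 (.d k233 k41 k214 7 6))))))] (.c k40 (.l (.s
  k41 k233 7 (.s k1 k253 13 (.s k61 k21 5 (.d k193 k129 k149 7 13))))) (.c k41 (.q k40 [(.s k60 k20
  5 (.d k195 k130 k150 8 14)), (.s k1 k253 13 (.s k3 k2 0 (.s k86 k252 14 (.s k67 k124 6 (.s k66 k64
  0 (.d k129 k193 k192 7 8))))))] (.c k60 (.l (.s k1 k253 13 (.s k3 k2 0 (.s k86 k252 14 (.s k195
  k130 8 (.d k67 k124 k131 6 7)))))) .n)) (.c k233 (.l (.s k1 k253 13 (.s k3 k2 0 (.s k86 k252 14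
  (.s k67 k124 6 (.d k195 k131 k130 7 8)))))) .n)))) (.c k234 (.q k42 [(.s k1 k253 13 (.s k21 k63 6
  (.d k41 k61 k233 5 7))), (.s k195 k130 8 (.s k233 k41 7 (.s k252 k214 6 (.s k84 k168 13 (.d k86
  k87 k3 0 14)))))] (.c k3 (.l (.s k1 k253 13 (.s k41 k233 7 (.d k21 k61 k63 5 6)))) (.c k41 (.l (.s
  k1 k253 13 (.s k21 k63 6 (.s k129 k193 7 (.d k149 k189 k213 5 7))))) (.c k233 (.l (.s k1 k253 13
  (.s k21 k63 6 (.s k61 k41 5 (.d k149 k213 k193 7 13))))) .n)))) .n))))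

def s43_170_107 : T TT 256 :=
  (.f k105 k125 5 (.q k169 [(.s k1 k253 13 (.s k41 k233 7 (.s k61 k21 5 (.d k193 k129 k149 7 13)))),
  (.s k195 k130 8 (.s k233 k41 7 (.s k252 k214 6 (.s k84 k168 13 (.d k86 k87 k3 0 14))))), (.s k1
  k253 13 (.s k3 k2 0 (.s k86 k252 14 (.s k67 k124 6 (.d k195 k131 k130 7 8)))))] (.c k171 (.q k235
  [(.s k195 k130 8 (.s k150 k60 14 (.d k215 k255 k20 5 8))), (.s k1 k253 13 (.s k41 k233 7 (.s k61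
  k21 5 (.d k193 k129 k149 7 13))))] .n) (.c k235 (.q k171 [(.s k1 k253 13 (.s k3 k2 0 (.s k86 k252
  14 (.d k87 k255 k84 13 0)))), (.s k1 k253 13 (.s k41 k233 7 (.s k61 k21 5 (.d k193 k129 k149 7
  13)))), (.s k195 k130 8 (.s k233 k41 7 (.s k252 k214 6 (.s k84 k168 13 (.d k86 k87 k3 0 14)))))]
  .n) .n))))

def s43_170_108 : T TT 256 :=
  (.q k1 [(.s k105 k125 5 (.s k169 k253 13 (.s k41 k233 7 (.s k61 k21 5 (.d k193 k129 k149 7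
  13))))), (.s k3 k2 0 (.s k129 k193 7 (.s k66 k192 8 (.s k67 k64 0 (.d k195 k131 k130 7 8))))), (.s
  k3 k2 0 (.s k105 k125 5 (.s k169 k253 13 (.s k86 k252 14 (.s k67 k124 6 (.d k195 k131 k130 7
  8))))))] .n)

def s43_170_109 : T TT 256 :=
  (.q k1 [(.s k3 k2 0 (.s k129 k193 7 (.s k66 k192 8 (.s k67 k64 0 (.d k195 k131 k130 7 8))))), (.s
  k105 k125 5 (.s k169 k253 13 (.s k41 k233 7 (.s k61 k21 5 (.d k193 k129 k149 7 13))))), (.s k3 k2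
  0 (.s k105 k125 5 (.s k169 k253 13 (.s k86 k252 14 (.s k67 k124 6 (.d k195 k131 k130 7 8))))))]
  .n)

def s43_170_110 : T TT 256 :=
  (.q k1 [(.s k105 k125 5 (.s k169 k253 13 (.s k41 k233 7 (.s k61 k21 5 (.d k193 k129 k149 7
  13))))), (.s k3 k2 0 (.s k129 k193 7 (.s k66 k192 8 (.s k67 k64 0 (.d k195 k131 k130 7 8))))), (.s
  k3 k2 0 (.s k105 k125 5 (.s k169 k253 13 (.s k86 k252 14 (.s k67 k124 6 (.d k195 k131 k130 7
  8))))))] .n)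

def s43_170_111 : T TT 256 :=
  (.q k1 [(.s k105 k125 5 (.s k169 k253 13 (.s k41 k233 7 (.s k61 k21 5 (.d k193 k129 k149 7
  13))))), (.s k3 k2 0 (.s k129 k193 7 (.s k66 k192 8 (.s k67 k64 0 (.d k195 k131 k130 7 8))))), (.s
  k3 k2 0 (.s k105 k125 5 (.s k169 k253 13 (.s k86 k252 14 (.s k67 k124 6 (.d k195 k131 k130 7
  8))))))] .n)

def s43_170_112 : T TT 256 :=
  (.q k1 [(.s k105 k125 5 (.s k169 k253 13 (.s k41 k233 7 (.s k61 k21 5 (.d k193 k129 k149 7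
  13))))), (.s k3 k2 0 (.s k129 k193 7 (.s k66 k192 8 (.s k67 k64 0 (.d k195 k131 k130 7 8))))), (.s
  k3 k2 0 (.s k105 k125 5 (.s k169 k253 13 (.s k86 k252 14 (.s k67 k124 6 (.d k195 k131 k130 7
  8))))))] .n)

def s43_170_113 : T TT 256 :=
  (.q k1 [(.s k3 k2 0 (.s k129 k193 7 (.s k66 k192 8 (.s k67 k64 0 (.d k195 k131 k130 7 8))))), (.s
  k105 k125 5 (.s k169 k253 13 (.s k41 k233 7 (.s k61 k21 5 (.d k193 k129 k149 7 13))))), (.s k3 k2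
  0 (.s k105 k125 5 (.s k169 k253 13 (.s k86 k252 14 (.s k67 k124 6 (.d k195 k131 k130 7 8))))))]
  .n)

def s43_170_114 : T TT 256 :=
  (.q k1 [(.s k105 k125 5 (.s k169 k253 13 (.s k41 k233 7 (.s k61 k21 5 (.d k193 k129 k149 7
  13))))), (.s k3 k2 0 (.s k129 k193 7 (.s k66 k192 8 (.s k67 k64 0 (.d k195 k131 k130 7 8))))), (.s
  k3 k2 0 (.s k105 k125 5 (.s k169 k253 13 (.s k86 k252 14 (.s k67 k124 6 (.d k195 k131 k130 7
  8))))))] .n)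

def s43_170_115 : T TT 256 :=
  (.q k1 [(.s k105 k125 5 (.s k169 k253 13 (.s k41 k233 7 (.s k61 k21 5 (.d k193 k129 k149 7
  13))))), (.s k3 k2 0 (.s k129 k193 7 (.s k66 k192 8 (.s k67 k64 0 (.d k195 k131 k130 7 8))))), (.s
  k3 k2 0 (.s k105 k125 5 (.s k169 k253 13 (.s k86 k252 14 (.s k67 k124 6 (.d k195 k131 k130 7
  8))))))] .n)

def s43_170_116 : T TT 256 :=
  (.q k1 [(.s k105 k125 5 (.s k169 k253 13 (.s k41 k233 7 (.s k61 k21 5 (.d k193 k129 k149 7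
  13))))), (.s k3 k2 0 (.s k129 k193 7 (.s k66 k192 8 (.s k67 k64 0 (.d k195 k131 k130 7 8))))), (.s
  k3 k2 0 (.s k105 k125 5 (.s k169 k253 13 (.s k86 k252 14 (.s k67 k124 6 (.d k195 k131 k130 7
  8))))))] .n)

def s43_170_117 : T TT 256 :=
  (.q k1 [(.s k3 k2 0 (.s k129 k193 7 (.s k66 k192 8 (.s k67 k64 0 (.d k195 k131 k130 7 8))))), (.s
  k105 k125 5 (.s k169 k253 13 (.s k41 k233 7 (.s k61 k21 5 (.d k193 k129 k149 7 13))))), (.s k3 k2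
  0 (.s k105 k125 5 (.s k169 k253 13 (.s k86 k252 14 (.s k67 k124 6 (.d k195 k131 k130 7 8))))))]
  .n)

def s43_170_118 : T TT 256 :=
  (.q k1 [(.s k105 k125 5 (.s k169 k253 13 (.s k41 k233 7 (.s k61 k21 5 (.d k193 k129 k149 7
  13))))), (.s k3 k2 0 (.s k129 k193 7 (.s k66 k192 8 (.s k67 k64 0 (.d k195 k131 k130 7 8))))), (.s
  k3 k2 0 (.s k105 k125 5 (.s k169 k253 13 (.s k86 k252 14 (.s k67 k124 6 (.d k195 k131 k130 7
  8))))))] .n)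

def s43_170_119 : T TT 256 :=
  (.q k1 [(.s k105 k125 5 (.s k169 k253 13 (.s k41 k233 7 (.s k61 k21 5 (.d k193 k129 k149 7
  13))))), (.s k3 k2 0 (.s k129 k193 7 (.s k66 k192 8 (.s k67 k64 0 (.d k195 k131 k130 7 8))))), (.s
  k3 k2 0 (.s k105 k125 5 (.s k169 k253 13 (.s k86 k252 14 (.s k67 k124 6 (.d k195 k131 k130 7
  8))))))] .n)

def s43_170_120 : T TT 256 :=
  (.q k1 [(.s k105 k125 5 (.s k169 k253 13 (.s k41 k233 7 (.s k61 k21 5 (.d k193 k129 k149 7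
  13))))), (.s k3 k2 0 (.s k129 k193 7 (.s k66 k192 8 (.s k67 k64 0 (.d k195 k131 k130 7 8))))), (.s
  k3 k2 0 (.s k105 k125 5 (.s k169 k253 13 (.s k86 k252 14 (.s k67 k124 6 (.d k195 k131 k130 7
  8))))))] .n)

def s43_170_121 : T TT 256 :=
  (.q k1 [(.s k3 k2 0 (.s k129 k193 7 (.s k66 k192 8 (.s k67 k64 0 (.d k195 k131 k130 7 8))))), (.s
  k105 k125 5 (.s k169 k253 13 (.s k41 k233 7 (.s k61 k21 5 (.d k193 k129 k149 7 13))))), (.s k3 k2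
  0 (.s k105 k125 5 (.s k169 k253 13 (.s k86 k252 14 (.s k67 k124 6 (.d k195 k131 k130 7 8))))))]
  .n)

def s43_170_122 : T TT 256 :=
  (.q k1 [(.s k105 k125 5 (.s k169 k253 13 (.s k41 k233 7 (.s k61 k21 5 (.d k193 k129 k149 7
  13))))), (.s k3 k2 0 (.s k129 k193 7 (.s k66 k192 8 (.s k67 k64 0 (.d k195 k131 k130 7 8))))), (.s
  k3 k2 0 (.s k105 k125 5 (.s k169 k253 13 (.s k86 k252 14 (.s k67 k124 6 (.d k195 k131 k130 7
  8))))))] .n)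

def s43_170_123 : T TT 256 :=
  (.q k1 [(.s k105 k125 5 (.s k169 k253 13 (.s k41 k233 7 (.s k61 k21 5 (.d k193 k129 k149 7
  13))))), (.s k3 k2 0 (.s k129 k193 7 (.s k66 k192 8 (.s k67 k64 0 (.d k195 k131 k130 7 8))))), (.s
  k3 k2 0 (.s k105 k125 5 (.s k169 k253 13 (.s k86 k252 14 (.s k67 k124 6 (.d k195 k131 k130 7
  8))))))] .n)

def s43_170_124 : T TT 256 :=
  (.q k1 [(.s k3 k2 0 (.s k129 k193 7 (.s k130 k195 8 (.s k128 k131 0 (.d k192 k64 k66 7 8))))), (.s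
  k105 k125 5 (.s k169 k253 13 (.s k41 k233 7 (.s k61 k21 5 (.d k193 k129 k149 7 13))))), (.s k3 k2
  0 (.s k105 k125 5 (.s k169 k253 13 (.s k195 k130 8 (.s k131 k67 7 (.d k150 k188 k60 6 14))))))]
  .n)

def s43_170_125 : T TT 256 :=
  (.q k3 [(.s k2 k1 0 (.s k130 k195 8 (.s k66 k194 7 (.s k64 k67 0 (.d k192 k128 k129 7 8))))), (.s
  k1 k2 0 (.s k169 k253 13 (.s k195 k130 8 (.s k131 k67 7 (.s k150 k188 6 (.s k20 k215 8 (.d k60 k40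
  k105 5 14))))))), (.s k1 k2 0 (.s k129 k193 7 (.s k169 k253 13 (.s k192 k66 8 (.s k64 k128 7 (.s
  k106 k127 6 (.d k149 k189 k63 5 14)))))))] (.c k1 (.q k12 [(.s k8 k4 1 (.s k195 k130 8 (.s k73
  k134 10 (.s k138 k203 8 (.d k69 k77 k207 1 10))))), (.s k4 k8 1 (.s k6 k9 2 (.s k166 k247 12 (.s
  k86 k246 11 (.s k84 k87 0 (.d k252 k168 k169 13 14)))))), (.s k6 k9 2 (.s k195 k130 8 (.s k131 k67
  7 (.s k134 k73 10 (.s k70 k198 7 (.d k137 k140 k204 2 10))))))] .n) (.c k2 (.q k86 [(.s k84 k87 0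
  (.d k252 k168 k169 13 14)), (.s k130 k195 8 (.s k169 k252 14 (.s k1 k253 13 (.s k129 k193 7 (.s
  k128 k131 0 (.d k192 k64 k66 7 8)))))), (.s k84 k87 0 (.s k195 k130 8 (.s k67 k131 7 (.s k124 k105
  6 (.d k64 k66 k104 0 5)))))] .n) (.c k66 (.q k5 [(.s k2 k1 0 (.s k10 k15 2 (.s k6 k14 1 (.s k4 k7
  0 (.d k12 k8 k9 1 2))))), (.s k1 k2 0 (.s k13 k9 1 (.s k165 k245 11 (.s k89 k241 13 (.s k93 k81 1
  (.d k253 k173 k169 11 13)))))), (.s k15 k10 2 (.s k7 k11 1 (.s k165 k245 11 (.s k86 k244 12 (.s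
  k84 k87 0 (.d k252 k168 k169 13 14))))))] (.c k9 (.l (.s k1 k2 0 (.s k15 k10 2 (.s k11 k7 1 (.s
  k165 k245 11 (.s k90 k240 14 (.d k169 k248 k253 12 13))))))) .n)) (.c k130 (.l (.s k1 k2 0 (.s
  k129 k193 7 (.s k66 k192 8 (.s k64 k67 0 (.s k106 k127 6 (.s k169 k253 13 (.d k86 k126 k252 5
  14)))))))) (.c k194 (.l (.s k1 k2 0 (.s k129 k193 7 (.s k66 k192 8 (.s k195 k130 8 (.d k67 k64
  k131 0 7)))))) .n))))))

def s43_170_126 : T TT 256 :=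
  (.q k1 [(.s k3 k2 0 (.s k129 k193 7 (.s k66 k192 8 (.s k67 k64 0 (.d k195 k131 k130 7 8))))), (.s
  k105 k125 5 (.s k169 k253 13 (.s k41 k233 7 (.s k61 k21 5 (.d k193 k129 k149 7 13))))), (.s k3 k2
  0 (.s k105 k125 5 (.s k169 k253 13 (.s k86 k252 14 (.s k195 k130 8 (.d k67 k124 k131 6 7))))))]
  .n)

def s43_170_127 : T TT 256 :=
  (.q k1 [(.s k3 k2 0 (.s k129 k193 7 (.s k66 k192 8 (.s k67 k64 0 (.d k195 k131 k130 7 8))))), (.s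
  k105 k125 5 (.s k169 k253 13 (.s k41 k233 7 (.s k61 k21 5 (.d k193 k129 k149 7 13))))), (.s k3 k2
  0 (.s k105 k125 5 (.s k169 k253 13 (.s k86 k252 14 (.s k195 k130 8 (.d k67 k124 k131 6 7))))))]
  .n)

def s43_170_128 : T TT 256 :=
  (.q k149 [(.s k105 k125 5 (.s k193 k61 13 (.s k213 k21 7 (.s k253 k233 5 (.d k1 k129 k169 7
  13))))), (.s k21 k213 7 (.s k63 k42 6 (.s k105 k125 5 (.s k106 k192 14 (.s k107 k104 0 (.d k195
  k130 k151 8 13)))))), (.s k105 k125 5 (.s k193 k61 13 (.s k195 k130 8 (.s k150 k60 14 (.s k151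
  k148 0 (.s k63 k107 13 (.d k192 k194 k106 0 14)))))))] (.c k105 (.f k130 k195 8 (.f k21 k213 7 (.f
  k63 k42 6 (.f k106 k192 14 (.l (.s k64 k127 6 (.s k66 k67 0 (.s k86 k126 5 (.s k23 k212 8 (.s k20
  k22 0 (.s k87 k84 0 (.d k215 k151 k150 7 8)))))))))))) (.c k125 (.l (.s k21 k213 7 (.s k63 k42 6
  (.s k195 k130 8 (.s k151 k107 13 (.s k150 k148 0 (.s k20 k215 8 (.d k60 k40 k105 5 14))))))))
  .n)))

def s43_170_129 : T TT 256 :=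
  (.q k69 [(.s k77 k73 1 (.s k101 k117 3 (.s k89 k113 5 (.s k93 k81 1 (.d k125 k109 k105 3 5))))),
  (.s k73 k77 1 (.s k138 k207 10 (.s k8 k203 8 (.s k12 k4 1 (.d k195 k130 k134 8 10))))), (.s k101
  k117 3 (.s k105 k125 5 (.s k109 k97 1 (.s k195 k130 8 (.s k207 k138 10 (.d k60 k150 k158 14
  12))))))] .n)

def s43_170_130 : T TT 256 :=
  (.f k105 k125 5 (.q k1 [(.s k169 k253 13 (.s k41 k233 7 (.s k61 k21 5 (.d k193 k129 k149 7 13)))),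
  (.s k3 k2 0 (.s k129 k193 7 (.s k66 k192 8 (.s k67 k64 0 (.s k86 k124 6 (.s k84 k87 0 (.d k252
  k168 k169 13 14))))))), (.s k3 k2 0 (.s k169 k253 13 (.s k86 k252 14 (.s k67 k124 6 (.s k87 k84 0
  (.s k127 k107 5 (.d k64 k66 k106 0 6)))))))] (.c k150 (.q k190 [(.s k169 k253 13 (.s k41 k233 7
  (.s k61 k21 5 (.d k193 k129 k149 7 13)))), (.s k3 k2 0 (.s k129 k193 7 (.s k66 k192 8 (.s k67 k64
  0 (.s k86 k124 6 (.s k84 k87 0 (.d k252 k168 k169 13 14))))))), (.s k3 k2 0 (.s k169 k253 13 (.s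
  k86 k252 14 (.s k67 k124 6 (.s k87 k84 0 (.s k127 k107 5 (.d k64 k66 k106 0 6)))))))] (.c k169 (.f
  k193 k129 7 (.f k149 k61 13 (.l (.s k21 k213 7 (.s k63 k42 6 (.s k106 k192 14 (.s k64 k127 6 (.s
  k104 k107 0 (.s k124 k84 5 (.d k67 k66 k86 0 6)))))))))) .n)) (.c k169 (.f k3 k2 0 (.f k129 k193 7
  (.f k66 k192 8 (.l (.s k67 k64 0 (.s k86 k124 6 (.s k84 k87 0 (.s k195 k131 7 (.s k150 k60 14 (.s
  k214 k22 7 (.d k252 k233 k168 6 13))))))))))) (.c k190 (.q k150 [(.s k20 k215 8 (.d k60 k40 k195 5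
  14)), (.s k169 k253 13 (.s k41 k233 7 (.s k61 k21 5 (.d k193 k129 k149 7 13))))] (.c k60 (.q k255
  [(.s k169 k253 13 (.s k41 k233 7 (.s k61 k21 5 (.d k193 k129 k149 7 13)))), (.s k3 k2 0 (.s k87
  k171 13 (.s k86 k84 0 (.d k169 k253 k252 13 14)))), (.s k3 k2 0 (.s k129 k193 7 (.s k66 k192 8 (.s
  k67 k64 0 (.s k86 k124 6 (.d k87 k84 k171 0 13))))))] .n) (.c k255 (.l (.s k60 k195 14 (.d k20
  k215 k40 8 5))) .n))) .n)))))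

def s43_170_131 : T TT 256 :=
  (.q k64 [(.s k67 k66 0 (.s k105 k125 5 (.s k86 k124 6 (.s k87 k84 0 (.d k127 k107 k106 5 6))))),
  (.s k66 k67 0 (.s k192 k128 7 (.s k3 k129 8 (.s k130 k195 8 (.d k2 k1 k194 0 7))))), (.s k105 k125
  5 (.s k106 k127 6 (.s k107 k104 0 (.s k195 k130 8 (.s k63 k151 13 (.d k192 k128 k149 7 14))))))]
  .n)

def s43_170_132 : T TT 256 :=
  (.q k1 [(.s k105 k125 5 (.s k169 k253 13 (.s k41 k233 7 (.s k61 k21 5 (.d k193 k129 k149 7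
  13))))), (.s k3 k2 0 (.s k129 k193 7 (.s k66 k192 8 (.s k67 k64 0 (.d k195 k131 k130 7 8))))), (.s
  k3 k2 0 (.s k105 k125 5 (.s k169 k253 13 (.s k86 k252 14 (.s k67 k124 6 (.d k195 k131 k130 7
  8))))))] .n)

def s43_170_133 : T TT 256 :=
  (.q k1 [(.s k105 k125 5 (.s k169 k253 13 (.s k41 k233 7 (.s k61 k21 5 (.d k193 k129 k149 7
  13))))), (.s k3 k2 0 (.s k129 k193 7 (.s k66 k192 8 (.s k67 k64 0 (.d k195 k131 k130 7 8))))), (.s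
  k3 k2 0 (.s k105 k125 5 (.s k169 k253 13 (.s k86 k252 14 (.s k67 k124 6 (.d k195 k131 k130 7
  8))))))] .n)

def s43_170_134 : T TT 256 :=
  (.q k1 [(.s k105 k125 5 (.s k169 k253 13 (.s k41 k233 7 (.s k61 k21 5 (.d k193 k129 k149 7
  13))))), (.s k3 k2 0 (.s k129 k193 7 (.s k66 k192 8 (.s k67 k64 0 (.d k195 k131 k130 7 8))))), (.s
  k3 k2 0 (.s k105 k125 5 (.s k169 k253 13 (.s k86 k252 14 (.s k67 k124 6 (.d k195 k131 k130 7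
  8))))))] .n)

def s43_170_135 : T TT 256 :=
  (.q k1 [(.s k105 k125 5 (.s k169 k253 13 (.s k41 k233 7 (.s k61 k21 5 (.d k193 k129 k149 7
  13))))), (.s k3 k2 0 (.s k129 k193 7 (.s k66 k192 8 (.s k67 k64 0 (.d k195 k131 k130 7 8))))), (.s
  k3 k2 0 (.s k105 k125 5 (.s k169 k253 13 (.s k86 k252 14 (.s k67 k124 6 (.d k195 k131 k130 7
  8))))))] .n)

def s43_170_136 : T TT 256 :=
  (.f k105 k125 5 (.q k153 [(.s k17 k221 9 (.s k51 k34 4 (.s k57 k201 11 (.s k60 k54 2 (.d k195 k130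
  k150 8 14))))), (.s k195 k130 8 (.s k150 k60 14 (.s k147 k156 2 (.s k51 k99 11 (.s k201 k57 11 (.d
  k204 k198 k102 2 14)))))), (.s k17 k221 9 (.s k51 k34 4 (.s k102 k204 14 (.s k99 k108 2 (.d k195
  k130 k147 8 11)))))] (.c k51 (.l (.s k195 k130 8 (.s k150 k60 14 (.s k215 k20 8 (.s k221 k17 9 (.s
  k255 k235 5 (.s k204 k238 4 (.d k201 k57 k198 11 2)))))))) (.c k60 (.l (.s k17 k221 9 (.s k51 k34
  4 (.s k102 k204 14 (.s k195 k130 8 (.d k99 k108 k147 2 11)))))) (.c k102 (.l (.s k17 k221 9 (.s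
  k195 k130 8 (.s k150 k60 14 (.s k147 k156 2 (.d k51 k34 k99 4 11)))))) (.c k130 (.l (.s k17 k221 9
  (.s k51 k34 4 (.s k57 k201 11 (.s k60 k54 2 (.s k20 k40 5 (.d k150 k215 k195 8 14))))))) (.c k195
  (.q k1 [(.s k193 k129 7 (.s k149 k61 13 (.s k213 k21 7 (.d k253 k233 k169 5 13)))), (.s k17 k221 9
  (.s k49 k33 3 (.s k101 k205 13 (.s k117 k69 3 (.d k253 k185 k169 9 13))))), (.s k17 k221 9 (.s k49
  k33 3 (.s k57 k201 11 (.s k61 k53 1 (.d k193 k129 k149 7 13)))))] .n) .n)))))))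

def s43_170_137 : T TT 256 :=
  (.q k1 [(.s k105 k125 5 (.s k169 k253 13 (.s k41 k233 7 (.s k61 k21 5 (.d k193 k129 k149 7
  13))))), (.s k3 k2 0 (.s k129 k193 7 (.s k66 k192 8 (.s k67 k64 0 (.d k195 k131 k130 7 8))))), (.s
  k3 k2 0 (.s k105 k125 5 (.s k169 k253 13 (.s k86 k252 14 (.s k67 k124 6 (.d k195 k131 k130 7
  8))))))] .n)

def s43_170_138 : T TT 256 :=
  (.f k105 k125 5 (.q k154 [(.s k16 k223 10 (.s k48 k32 3 (.s k56 k203 12 (.s k60 k52 1 (.d k195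
  k130 k150 8 14))))), (.s k16 k223 10 (.s k195 k130 8 (.s k150 k60 14 (.s k20 k215 8 (.s k28 k24 1
  (.s k146 k158 1 (.d k211 k81 k89 8 10))))))), (.s k16 k223 10 (.s k48 k32 3 (.s k101 k207 14 (.s
  k69 k117 3 (.s k77 k73 1 (.s k97 k109 1 (.d k113 k81 k89 3 5))))))), (.s k195 k130 8 (.s k150 k60
  14 (.s k146 k158 1 (.s k48 k97 12 (.s k203 k56 12 (.d k207 k199 k101 1 14))))))] (.c k60 (.l (.s
  k16 k223 10 (.s k48 k32 3 (.s k101 k207 14 (.s k195 k130 8 (.d k97 k109 k146 1 12)))))) .n)))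

def s43_170_139 : T TT 256 :=
  (.q k1 [(.s k105 k125 5 (.s k169 k253 13 (.s k41 k233 7 (.s k61 k21 5 (.d k193 k129 k149 7
  13))))), (.s k3 k2 0 (.s k129 k193 7 (.s k66 k192 8 (.s k67 k64 0 (.d k195 k131 k130 7 8))))), (.s
  k3 k2 0 (.s k105 k125 5 (.s k169 k253 13 (.s k86 k252 14 (.s k67 k124 6 (.d k195 k131 k130 7
  8))))))] .n)

def s43_170_140 : T TT 256 :=
  (.q k1 [(.s k105 k125 5 (.s k169 k253 13 (.s k41 k233 7 (.s k61 k21 5 (.d k193 k129 k149 7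
  13))))), (.s k3 k2 0 (.s k129 k193 7 (.s k66 k192 8 (.s k67 k64 0 (.d k195 k131 k130 7 8))))), (.s
  k3 k2 0 (.s k105 k125 5 (.s k169 k253 13 (.s k86 k252 14 (.s k67 k124 6 (.d k195 k131 k130 7
  8))))))] .n)

def s43_170_141 : T TT 256 :=
  (.q k1 [(.s k105 k125 5 (.s k169 k253 13 (.s k41 k233 7 (.s k61 k21 5 (.d k193 k129 k149 7
  13))))), (.s k3 k2 0 (.s k129 k193 7 (.s k66 k192 8 (.s k67 k64 0 (.d k195 k131 k130 7 8))))), (.s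
  k3 k2 0 (.s k105 k125 5 (.s k169 k253 13 (.s k86 k252 14 (.s k67 k124 6 (.d k195 k131 k130 7
  8))))))] .n)

def s43_170_142 : T TT 256 :=
  (.q k1 [(.s k105 k125 5 (.s k169 k253 13 (.s k41 k233 7 (.s k61 k21 5 (.d k193 k129 k149 7
  13))))), (.s k3 k2 0 (.s k129 k193 7 (.s k66 k192 8 (.s k67 k64 0 (.d k195 k131 k130 7 8))))), (.s
  k3 k2 0 (.s k105 k125 5 (.s k169 k253 13 (.s k86 k252 14 (.s k67 k124 6 (.d k195 k131 k130 7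
  8))))))] .n)

def s43_170_143 : T TT 256 :=
  (.q k1 [(.s k105 k125 5 (.s k169 k253 13 (.s k41 k233 7 (.s k61 k21 5 (.d k193 k129 k149 7
  13))))), (.s k3 k2 0 (.s k129 k193 7 (.s k66 k192 8 (.s k67 k64 0 (.d k195 k131 k130 7 8))))), (.s
  k3 k2 0 (.s k105 k125 5 (.s k169 k253 13 (.s k86 k252 14 (.s k67 k124 6 (.d k195 k131 k130 7
  8))))))] .n)

def s43_170_144 : T TT 256 :=
  (.q k1 [(.s k105 k125 5 (.s k169 k253 13 (.s k41 k233 7 (.s k61 k21 5 (.d k193 k129 k149 7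
  13))))), (.s k3 k2 0 (.s k129 k193 7 (.s k66 k192 8 (.s k67 k64 0 (.d k195 k131 k130 7 8))))), (.s
  k3 k2 0 (.s k105 k125 5 (.s k169 k253 13 (.s k86 k252 14 (.s k67 k124 6 (.d k195 k131 k130 7
  8))))))] .n)

def s43_170_145 : T TT 256 :=
  (.q k1 [(.s k105 k125 5 (.s k169 k253 13 (.s k41 k233 7 (.s k61 k21 5 (.d k193 k129 k149 7
  13))))), (.s k3 k2 0 (.s k129 k193 7 (.s k66 k192 8 (.s k67 k64 0 (.d k195 k131 k130 7 8))))), (.s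
  k3 k2 0 (.s k105 k125 5 (.s k169 k253 13 (.s k86 k252 14 (.s k67 k124 6 (.d k195 k131 k130 7
  8))))))] .n)

def s43_170_146 : T TT 256 :=
  (.q k1 [(.s k105 k125 5 (.s k169 k253 13 (.s k41 k233 7 (.s k61 k21 5 (.d k193 k129 k149 7
  13))))), (.s k3 k2 0 (.s k129 k193 7 (.s k66 k192 8 (.s k67 k64 0 (.d k195 k131 k130 7 8))))), (.s
  k3 k2 0 (.s k105 k125 5 (.s k169 k253 13 (.s k86 k252 14 (.s k67 k124 6 (.d k195 k131 k130 7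
  8))))))] .n)

def s43_170_147 : T TT 256 :=
  (.q k1 [(.s k105 k125 5 (.s k169 k253 13 (.s k41 k233 7 (.s k61 k21 5 (.d k193 k129 k149 7
  13))))), (.s k3 k2 0 (.s k129 k193 7 (.s k66 k192 8 (.s k67 k64 0 (.d k195 k131 k130 7 8))))), (.s
  k3 k2 0 (.s k105 k125 5 (.s k169 k253 13 (.s k86 k252 14 (.s k67 k124 6 (.d k195 k131 k130 7
  8))))))] .n)

def s43_170_148 : T TT 256 :=
  (.q k1 [(.s k105 k125 5 (.s k169 k253 13 (.s k41 k233 7 (.s k61 k21 5 (.d k193 k129 k149 7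
  13))))), (.s k3 k2 0 (.s k129 k193 7 (.s k66 k192 8 (.s k67 k64 0 (.d k195 k131 k130 7 8))))), (.s
  k3 k2 0 (.s k105 k125 5 (.s k169 k253 13 (.s k86 k252 14 (.s k67 k124 6 (.d k195 k131 k130 7
  8))))))] .n)

def s43_170_149 : T TT 256 :=
  (.q k64 [(.s k66 k67 0 (.s k130 k195 8 (.s k2 k194 7 (.s k3 k1 0 (.d k192 k128 k129 7 8))))), (.s
  k67 k66 0 (.s k105 k125 5 (.s k86 k124 6 (.s k87 k84 0 (.d k127 k107 k106 5 6))))), (.s k105 k125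
  5 (.s k106 k127 6 (.s k195 k130 8 (.s k150 k60 14 (.s k194 k62 13 (.d k192 k128 k193 7 0))))))]
  (.c k128 (.q k191 [(.s k67 k66 0 (.s k105 k125 5 (.s k86 k124 6 (.s k87 k84 0 (.d k127 k107 k106 5
  6))))), (.s k105 k125 5 (.s k127 k106 6 (.s k195 k130 8 (.s k150 k60 14 (.s k215 k20 8 (.d k255
  k63 k235 7 5)))))), (.s k67 k66 0 (.s k127 k106 6 (.s k63 k255 7 (.s k107 k87 5 (.d k195 k130 k151
  8 13)))))] (.c k106 (.l (.s k67 k66 0 (.s k105 k125 5 (.s k86 k124 6 (.s k84 k87 0 (.s k195 k130 8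
  (.s k252 k168 13 (.d k3 k131 k169 7 14)))))))) (.c k127 (.l (.s k67 k66 0 (.s k105 k125 5 (.s k124
  k86 6 (.s k84 k104 5 (.s k195 k130 8 (.s k252 k168 13 (.d k60 k188 k150 7 14)))))))) .n))) (.c
  k191 (.l (.s k128 k192 7 (.s k67 k66 0 (.s k105 k125 5 (.s k86 k124 6 (.s k87 k84 0 (.d k127 k106
  k107 6 5))))))) .n)))

def s43_170_150 : T TT 256 :=
  (.f k130 k195 8 (.f k105 k125 5 (.q k1 [(.s k3 k2 0 (.s k129 k193 7 (.s k192 k66 8 (.d k128 k131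
  k64 0 7)))), (.s k169 k253 13 (.s k41 k233 7 (.s k61 k21 5 (.d k193 k129 k149 7 13)))), (.s k3 k2
  0 (.s k169 k253 13 (.s k86 k252 14 (.s k67 k124 6 (.s k64 k66 0 (.s k87 k84 0 (.d k127 k107 k106 5
  6)))))))] .n)))

def s43_170_151 : T TT 256 :=
  (.q k1 [(.s k105 k125 5 (.s k169 k253 13 (.s k41 k233 7 (.s k61 k21 5 (.d k193 k129 k149 7
  13))))), (.s k3 k2 0 (.s k129 k193 7 (.s k66 k192 8 (.s k67 k64 0 (.d k195 k131 k130 7 8))))), (.s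
  k3 k2 0 (.s k105 k125 5 (.s k169 k253 13 (.s k86 k252 14 (.s k67 k124 6 (.d k195 k131 k130 7
  8))))))] .n)

def s43_170_152 : T TT 256 :=
  (.q k1 [(.s k105 k125 5 (.s k169 k253 13 (.s k41 k233 7 (.s k61 k21 5 (.d k193 k129 k149 7
  13))))), (.s k3 k2 0 (.s k129 k193 7 (.s k66 k192 8 (.s k67 k64 0 (.d k195 k131 k130 7 8))))), (.s
  k3 k2 0 (.s k105 k125 5 (.s k169 k253 13 (.s k86 k252 14 (.s k67 k124 6 (.d k195 k131 k130 7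
  8))))))] .n)

def s43_170_153 : T TT 256 :=
  (.f k130 k195 8 (.f k105 k125 5 (.q k1 [(.s k129 k193 7 (.s k128 k131 0 (.s k192 k64 7 (.d k3 k2
  k66 0 8)))), (.s k169 k253 13 (.s k41 k233 7 (.s k61 k21 5 (.d k193 k129 k149 7 13)))), (.s k3 k2
  0 (.s k169 k253 13 (.s k86 k252 14 (.s k67 k124 6 (.s k64 k66 0 (.s k87 k84 0 (.d k127 k107 k106 5
  6)))))))] (.c k136 (.q k187 [(.s k129 k193 7 (.s k128 k131 0 (.s k192 k64 7 (.d k3 k2 k66 0 8)))),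
  (.s k169 k253 13 (.s k41 k233 7 (.s k61 k21 5 (.d k193 k129 k149 7 13)))), (.s k3 k2 0 (.s k169
  k253 13 (.s k86 k252 14 (.s k67 k124 6 (.s k64 k66 0 (.s k87 k84 0 (.d k127 k107 k106 5 6)))))))]
  .n) (.c k187 (.q k136 [(.s k129 k193 7 (.s k128 k131 0 (.s k192 k64 7 (.d k3 k2 k66 0 8)))), (.s
  k169 k253 13 (.s k41 k233 7 (.s k61 k21 5 (.d k193 k129 k149 7 13)))), (.s k3 k2 0 (.s k204 k68 9
  (.s k137 k70 10 (.s k69 k205 9 (.d k138 k139 k207 0 10)))))] .n) .n)))))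

def s43_170_154 : T TT 256 :=
  (.q k69 [(.s k77 k73 1 (.s k101 k117 3 (.s k89 k113 5 (.s k93 k81 1 (.d k125 k109 k105 3 5))))),
  (.s k73 k77 1 (.s k195 k130 8 (.s k134 k12 10 (.s k199 k4 8 (.d k207 k138 k203 10 1))))), (.s k101
  k117 3 (.s k105 k125 5 (.s k195 k130 8 (.s k150 k60 14 (.s k199 k52 12 (.d k207 k138 k203 10
  1))))))] (.c k138 (.q k186 [(.s k101 k117 3 (.s k105 k125 5 (.s k97 k109 1 (.s k113 k81 3 (.d k77
  k73 k89 1 5))))), (.s k105 k125 5 (.s k117 k101 3 (.s k195 k130 8 (.s k150 k60 14 (.s k215 k20 8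
  (.d k255 k48 k235 10 5)))))), (.s k73 k77 1 (.s k105 k125 5 (.s k195 k130 8 (.s k134 k12 10 (.s k4
  k199 8 (.s k150 k60 14 (.d k166 k182 k247 3 12))))))), (.s k117 k101 3 (.s k48 k255 10 (.s k32 k16
  3 (.s k195 k130 8 (.s k97 k146 12 (.s k81 k113 3 (.d k162 k227 k243 8 12)))))))] .n) (.c k186 (.l
  (.s k138 k207 10 (.s k73 k77 1 (.s k8 k203 8 (.s k12 k4 1 (.d k195 k130 k134 8 10)))))) .n)))

def s43_170_155 : T TT 256 :=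
  (.q k1 [(.s k105 k125 5 (.s k169 k253 13 (.s k41 k233 7 (.s k61 k21 5 (.d k193 k129 k149 7
  13))))), (.s k3 k2 0 (.s k129 k193 7 (.s k66 k192 8 (.s k67 k64 0 (.d k195 k131 k130 7 8))))), (.s
  k3 k2 0 (.s k105 k125 5 (.s k169 k253 13 (.s k86 k252 14 (.s k67 k124 6 (.d k195 k131 k130 7
  8))))))] .n)

def s43_170_156 : T TT 256 :=
  (.q k1 [(.s k105 k125 5 (.s k169 k253 13 (.s k41 k233 7 (.s k61 k21 5 (.d k193 k129 k149 7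
  13))))), (.s k3 k2 0 (.s k129 k193 7 (.s k66 k192 8 (.s k67 k64 0 (.d k195 k131 k130 7 8))))), (.s
  k3 k2 0 (.s k105 k125 5 (.s k169 k253 13 (.s k86 k252 14 (.s k67 k124 6 (.d k195 k131 k130 7
  8))))))] .n)

def s43_170_157 : T TT 256 :=
  (.q k1 [(.s k105 k125 5 (.s k169 k253 13 (.s k41 k233 7 (.s k61 k21 5 (.d k193 k129 k149 7
  13))))), (.s k3 k2 0 (.s k129 k193 7 (.s k66 k192 8 (.s k67 k64 0 (.d k195 k131 k130 7 8))))), (.s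
  k3 k2 0 (.s k105 k125 5 (.s k169 k253 13 (.s k86 k252 14 (.s k67 k124 6 (.d k195 k131 k130 7
  8))))))] .n)

def s43_170_158 : T TT 256 :=
  (.q k1 [(.s k105 k125 5 (.s k169 k253 13 (.s k41 k233 7 (.s k61 k21 5 (.d k193 k129 k149 7
  13))))), (.s k3 k2 0 (.s k129 k193 7 (.s k66 k192 8 (.s k67 k64 0 (.d k195 k131 k130 7 8))))), (.s
  k3 k2 0 (.s k105 k125 5 (.s k169 k253 13 (.s k86 k252 14 (.s k67 k124 6 (.d k195 k131 k130 7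
  8))))))] .n)

def s43_170_159 : T TT 256 :=
  (.q k1 [(.s k105 k125 5 (.s k169 k253 13 (.s k41 k233 7 (.s k61 k21 5 (.d k193 k129 k149 7
  13))))), (.s k3 k2 0 (.s k129 k193 7 (.s k66 k192 8 (.s k67 k64 0 (.d k195 k131 k130 7 8))))), (.s
  k3 k2 0 (.s k105 k125 5 (.s k169 k253 13 (.s k86 k252 14 (.s k67 k124 6 (.d k195 k131 k130 7
  8))))))] .n)

def s43_170_160 : T TT 256 :=
  (.f k105 k125 5 (.q k165 [(.s k5 k245 11 (.s k15 k10 2 (.s k45 k225 9 (.s k60 k30 4 (.d k195 k130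
  k150 8 14))))), (.s k195 k130 8 (.s k150 k60 14 (.s k135 k180 4 (.s k15 k75 9 (.s k225 k45 9 (.d
  k240 k210 k90 4 14)))))), (.s k5 k245 11 (.s k15 k10 2 (.s k90 k240 14 (.s k75 k120 4 (.d k195
  k130 k135 8 9)))))] (.c k15 (.l (.s k195 k130 8 (.s k150 k60 14 (.s k215 k20 8 (.s k245 k5 11 (.s
  k255 k235 5 (.s k240 k250 2 (.d k225 k45 k210 9 4)))))))) (.c k60 (.l (.s k5 k245 11 (.s k15 k10 2
  (.s k90 k240 14 (.s k195 k130 8 (.d k75 k120 k135 4 9)))))) (.c k90 (.l (.s k5 k245 11 (.s k195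
  k130 8 (.s k150 k60 14 (.s k135 k180 4 (.d k15 k10 k75 2 9)))))) (.c k130 (.l (.s k5 k245 11 (.s
  k15 k10 2 (.s k45 k225 9 (.s k60 k30 4 (.s k20 k40 5 (.d k150 k215 k195 8 14))))))) (.c k195 (.q
  k1 [(.s k193 k129 7 (.s k149 k61 13 (.s k213 k21 7 (.d k253 k233 k169 5 13)))), (.s k5 k245 11 (.s
  k13 k9 1 (.s k89 k241 13 (.s k93 k81 1 (.d k253 k173 k169 11 13))))), (.s k5 k245 11 (.s k13 k9 1
  (.s k45 k225 9 (.s k61 k29 3 (.d k193 k129 k149 7 13)))))] .n) .n)))))))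

def s43_170_161 : T TT 256 :=
  (.q k1 [(.s k105 k125 5 (.s k169 k253 13 (.s k41 k233 7 (.s k61 k21 5 (.d k193 k129 k149 7
  13))))), (.s k3 k2 0 (.s k129 k193 7 (.s k66 k192 8 (.s k67 k64 0 (.d k195 k131 k130 7 8))))), (.s
  k3 k2 0 (.s k105 k125 5 (.s k169 k253 13 (.s k86 k252 14 (.s k67 k124 6 (.d k195 k131 k130 7
  8))))))] .n)

def s43_170_162 : T TT 256 :=
  (.f k105 k125 5 (.q k166 [(.s k4 k247 12 (.s k12 k8 1 (.s k44 k227 10 (.s k60 k28 3 (.d k195 k130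
  k150 8 14))))), (.s k4 k247 12 (.s k195 k130 8 (.s k150 k60 14 (.s k20 k215 8 (.s k52 k36 3 (.s
  k134 k182 3 (.d k199 k69 k101 8 12))))))), (.s k4 k247 12 (.s k12 k8 1 (.s k89 k243 14 (.s k73
  k121 3 (.s k77 k69 1 (.s k81 k93 1 (.d k113 k97 k101 3 5))))))), (.s k195 k130 8 (.s k150 k60 14
  (.s k134 k182 3 (.s k12 k73 10 (.s k227 k44 10 (.d k243 k211 k89 3 14))))))] (.c k60 (.l (.s k4
  k247 12 (.s k12 k8 1 (.s k89 k243 14 (.s k195 k130 8 (.d k73 k121 k134 3 10)))))) .n)))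

def s43_170_163 : T TT 256 :=
  (.q k1 [(.s k105 k125 5 (.s k169 k253 13 (.s k41 k233 7 (.s k61 k21 5 (.d k193 k129 k149 7
  13))))), (.s k3 k2 0 (.s k129 k193 7 (.s k66 k192 8 (.s k67 k64 0 (.d k195 k131 k130 7 8))))), (.s
  k3 k2 0 (.s k105 k125 5 (.s k169 k253 13 (.s k86 k252 14 (.s k67 k124 6 (.d k195 k131 k130 7
  8))))))] .n)

def s43_170_164 : T TT 256 :=
  (.q k1 [(.s k105 k125 5 (.s k169 k253 13 (.s k41 k233 7 (.s k61 k21 5 (.d k193 k129 k149 7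
  13))))), (.s k3 k2 0 (.s k129 k193 7 (.s k66 k192 8 (.s k67 k64 0 (.d k195 k131 k130 7 8))))), (.s
  k3 k2 0 (.s k105 k125 5 (.s k169 k253 13 (.s k86 k252 14 (.s k67 k124 6 (.d k195 k131 k130 7
  8))))))] .n)

def s43_170_165 : T TT 256 :=
  (.f k130 k195 8 (.f k105 k125 5 (.q k1 [(.s k129 k193 7 (.s k128 k131 0 (.s k192 k64 7 (.d k3 k2
  k66 0 8)))), (.s k169 k253 13 (.s k41 k233 7 (.s k61 k21 5 (.d k193 k129 k149 7 13)))), (.s k3 k2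
  0 (.s k169 k253 13 (.s k86 k252 14 (.s k67 k124 6 (.s k64 k66 0 (.s k87 k84 0 (.d k127 k107 k106 5
  6)))))))] (.c k160 (.q k175 [(.s k129 k193 7 (.s k128 k131 0 (.s k192 k64 7 (.d k3 k2 k66 0 8)))),
  (.s k169 k253 13 (.s k41 k233 7 (.s k61 k21 5 (.d k193 k129 k149 7 13)))), (.s k3 k2 0 (.s k169
  k253 13 (.s k86 k252 14 (.s k67 k124 6 (.s k64 k66 0 (.s k87 k84 0 (.d k127 k107 k106 5 6)))))))]
  .n) (.c k175 (.q k160 [(.s k129 k193 7 (.s k128 k131 0 (.s k192 k64 7 (.d k3 k2 k66 0 8)))), (.s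
  k169 k253 13 (.s k41 k233 7 (.s k61 k21 5 (.d k193 k129 k149 7 13)))), (.s k3 k2 0 (.s k240 k80 11
  (.s k161 k82 12 (.s k81 k241 11 (.d k162 k163 k243 0 12)))))] .n) .n)))))

def s43_170_166 : T TT 256 :=
  (.q k81 [(.s k89 k93 1 (.s k113 k97 3 (.s k101 k77 5 (.s k117 k69 3 (.d k125 k121 k105 1 5))))),
  (.s k97 k113 3 (.s k195 k130 8 (.s k48 k146 12 (.s k32 k16 3 (.d k162 k227 k243 8 12))))), (.s k89
  k93 1 (.s k105 k125 5 (.s k195 k130 8 (.s k150 k60 14 (.s k211 k28 10 (.d k243 k162 k227 12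
  3))))))] (.c k162 (.q k174 [(.s k89 k93 1 (.s k105 k125 5 (.s k73 k121 3 (.s k77 k69 1 (.d k113
  k97 k101 3 5))))), (.s k93 k89 1 (.s k105 k125 5 (.s k195 k130 8 (.s k150 k60 14 (.s k215 k20 8
  (.d k255 k12 k235 12 5)))))), (.s k97 k113 3 (.s k105 k125 5 (.s k195 k130 8 (.s k146 k48 12 (.s
  k16 k211 8 (.s k150 k60 14 (.d k154 k158 k223 1 10))))))), (.s k93 k89 1 (.s k12 k255 12 (.s k8 k4
  1 (.s k195 k130 8 (.s k73 k134 10 (.s k69 k77 1 (.d k138 k203 k207 8 10)))))))] .n) (.c k174 (.l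
  (.s k162 k243 12 (.s k97 k113 3 (.s k32 k227 8 (.s k48 k16 3 (.d k195 k130 k146 8 12)))))) .n)))

def s43_170_167 : T TT 256 :=
  (.q k1 [(.s k105 k125 5 (.s k169 k253 13 (.s k41 k233 7 (.s k61 k21 5 (.d k193 k129 k149 7
  13))))), (.s k3 k2 0 (.s k129 k193 7 (.s k66 k192 8 (.s k67 k64 0 (.d k195 k131 k130 7 8))))), (.s
  k3 k2 0 (.s k105 k125 5 (.s k169 k253 13 (.s k86 k252 14 (.s k67 k124 6 (.d k195 k131 k130 7
  8))))))] .n)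

def s43_170_168 : T TT 256 :=
  (.q k169 [(.s k1 k253 13 (.s k105 k125 5 (.s k41 k233 7 (.s k61 k21 5 (.d k193 k129 k149 7
  13))))), (.s k105 k125 5 (.s k195 k130 8 (.s k150 k60 14 (.s k131 k188 6 (.s k3 k67 7 (.s k233 k41
  7 (.d k252 k214 k86 6 14))))))), (.s k1 k253 13 (.s k3 k2 0 (.s k129 k193 7 (.s k66 k192 8 (.s k67
  k64 0 (.d k195 k131 k130 7 8))))))] (.c k233 (.l (.s k1 k253 13 (.s k3 k2 0 (.s k86 k252 14 (.s
  k105 k125 5 (.s k67 k124 6 (.d k195 k131 k130 7 8))))))) .n))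

def s43_170_169 : T TT 256 :=
  (.f k105 k125 5 (.q k106 [(.s k64 k127 6 (.s k67 k66 0 (.s k104 k107 0 (.d k124 k84 k86 5 6)))),
  (.s k107 k104 0 (.s k195 k130 8 (.s k63 k151 13 (.s k21 k42 6 (.d k149 k213 k192 7 14))))), (.s
  k64 k127 6 (.s k192 k128 7 (.s k149 k63 14 (.s k193 k61 13 (.d k195 k194 k130 0 8)))))] (.c k168
  (.q k171 [(.s k64 k127 6 (.s k67 k66 0 (.s k104 k107 0 (.d k124 k84 k86 5 6)))), (.s k107 k104 0
  (.s k195 k130 8 (.s k63 k151 13 (.s k21 k42 6 (.d k149 k213 k192 7 14))))), (.s k64 k127 6 (.s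
  k192 k128 7 (.s k149 k63 14 (.s k193 k61 13 (.d k195 k194 k130 0 8)))))] .n) (.c k171 (.q k168
  [(.s k64 k127 6 (.s k84 k252 13 (.d k104 k107 k124 0 5))), (.s k107 k104 0 (.s k195 k130 8 (.s k63
  k151 13 (.s k21 k42 6 (.d k149 k213 k192 7 14)))))] (.c k104 (.l (.s k64 k127 6 (.s k66 k67 0 (.s
  k84 k252 13 (.d k86 k87 k126 0 5))))) (.c k107 (.q k235 [(.s k195 k130 8 (.s k150 k60 14 (.d k215
  k255 k20 5 8))), (.s k64 k127 6 (.s k67 k66 0 (.s k84 k252 13 (.d k86 k87 k124 0 6))))] .n) (.c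
  k235 (.l (.s k107 k104 0 (.s k84 k252 13 (.s k127 k64 6 (.d k87 k86 k67 0 5))))) .n)))) .n))))

def s43_170_171 : T TT 256 :=
  (.f k105 k125 5 (.q k169 [(.s k1 k253 13 (.s k41 k233 7 (.s k61 k21 5 (.d k193 k129 k149 7 13)))),
  (.s k195 k130 8 (.s k233 k41 7 (.s k252 k214 6 (.s k84 k168 13 (.d k86 k87 k3 0 14))))), (.s k1
  k253 13 (.s k3 k2 0 (.s k86 k252 14 (.s k67 k124 6 (.d k195 k131 k130 7 8)))))] (.c k107 (.q k235
  [(.s k195 k130 8 (.s k150 k60 14 (.d k215 k255 k20 5 8))), (.s k1 k253 13 (.s k41 k233 7 (.s k61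
  k21 5 (.d k193 k129 k149 7 13))))] .n) (.c k235 (.q k107 [(.s k1 k253 13 (.s k193 k129 7 (.s k61
  k149 13 (.d k41 k21 k233 5 7)))), (.s k106 k104 0 (.s k64 k127 6 (.s k192 k128 7 (.s k195 k130 8
  (.d k63 k149 k151 14 13))))), (.s k1 k253 13 (.s k3 k2 0 (.s k41 k233 7 (.s k60 k22 6 (.d k195
  k130 k150 8 14)))))] .n) .n))))

def s43_170_172 : T TT 256 :=
  (.q k1 [(.s k105 k125 5 (.s k169 k253 13 (.s k41 k233 7 (.s k61 k21 5 (.d k193 k129 k149 7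
  13))))), (.s k3 k2 0 (.s k129 k193 7 (.s k66 k192 8 (.s k67 k64 0 (.d k195 k131 k130 7 8))))), (.s
  k3 k2 0 (.s k105 k125 5 (.s k169 k253 13 (.s k86 k252 14 (.s k67 k124 6 (.d k195 k131 k130 7
  8))))))] .n)

def s43_170_173 : T TT 256 :=
  (.q k1 [(.s k3 k2 0 (.s k129 k193 7 (.s k66 k192 8 (.s k67 k64 0 (.d k195 k131 k130 7 8))))), (.s
  k105 k125 5 (.s k169 k253 13 (.s k41 k233 7 (.s k61 k21 5 (.d k193 k129 k149 7 13))))), (.s k3 k2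
  0 (.s k105 k125 5 (.s k169 k253 13 (.s k86 k252 14 (.s k67 k124 6 (.d k195 k131 k130 7 8))))))]
  .n)

def s43_170_174 : T TT 256 :=
  (.q k81 [(.s k97 k113 3 (.s k162 k243 12 (.s k32 k227 8 (.s k48 k16 3 (.d k195 k130 k146 8
  12))))), (.s k89 k93 1 (.s k105 k125 5 (.s k73 k121 3 (.s k77 k69 1 (.d k113 k97 k101 3 5))))),
  (.s k89 k93 1 (.s k105 k125 5 (.s k195 k130 8 (.s k150 k60 14 (.s k211 k28 10 (.d k243 k162 k227
  12 3))))))] (.c k162 (.q k166 [(.s k4 k247 12 (.s k12 k8 1 (.d k89 k93 k243 1 14))), (.s k113 k97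
  3 (.s k125 k105 5 (.s k117 k121 1 (.s k101 k69 3 (.d k89 k93 k77 1 5))))), (.s k4 k247 12 (.s k105
  k125 5 (.s k195 k130 8 (.s k150 k60 14 (.s k134 k182 3 (.d k12 k8 k73 1 10))))))] .n) (.c k166 (.l
  (.s k162 k243 12 (.s k97 k113 3 (.s k32 k227 8 (.s k48 k16 3 (.d k195 k130 k146 8 12)))))) .n)))

def s43_170_175 : T TT 256 :=
  (.f k105 k125 5 (.q k165 [(.s k5 k245 11 (.s k15 k10 2 (.s k45 k225 9 (.s k60 k30 4 (.d k195 k130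
  k150 8 14))))), (.s k195 k130 8 (.s k225 k45 9 (.s k240 k210 4 (.s k80 k160 11 (.d k90 k95 k15 2
  14))))), (.s k5 k245 11 (.s k15 k10 2 (.s k90 k240 14 (.s k75 k120 4 (.d k195 k130 k135 8 9)))))]
  (.c k15 (.l (.s k195 k130 8 (.s k150 k60 14 (.s k215 k20 8 (.s k245 k5 11 (.s k255 k235 5 (.s k240
  k250 2 (.d k225 k45 k210 9 4)))))))) (.c k90 (.l (.s k5 k245 11 (.s k195 k130 8 (.s k150 k60 14
  (.s k135 k180 4 (.d k15 k10 k75 2 9)))))) (.c k130 (.l (.s k5 k245 11 (.s k15 k10 2 (.s k45 k225 9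
  (.s k60 k30 4 (.s k20 k40 5 (.d k150 k215 k195 8 14))))))) (.c k195 (.q k1 [(.s k193 k129 7 (.s
  k149 k61 13 (.s k213 k21 7 (.d k253 k233 k169 5 13)))), (.s k5 k245 11 (.s k13 k9 1 (.s k89 k241
  13 (.s k93 k81 1 (.d k253 k173 k169 11 13))))), (.s k5 k245 11 (.s k13 k9 1 (.s k45 k225 9 (.s k61
  k29 3 (.d k193 k129 k149 7 13)))))] .n) .n))))))

def s43_170_176 : T TT 256 :=
  (.q k1 [(.s k105 k125 5 (.s k169 k253 13 (.s k41 k233 7 (.s k61 k21 5 (.d k193 k129 k149 7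
  13))))), (.s k3 k2 0 (.s k129 k193 7 (.s k66 k192 8 (.s k67 k64 0 (.d k195 k131 k130 7 8))))), (.s
  k3 k2 0 (.s k105 k125 5 (.s k169 k253 13 (.s k86 k252 14 (.s k67 k124 6 (.d k195 k131 k130 7
  8))))))] .n)

def s43_170_177 : T TT 256 :=
  (.q k1 [(.s k105 k125 5 (.s k169 k253 13 (.s k41 k233 7 (.s k61 k21 5 (.d k193 k129 k149 7
  13))))), (.s k3 k2 0 (.s k129 k193 7 (.s k66 k192 8 (.s k67 k64 0 (.d k195 k131 k130 7 8))))), (.s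
  k3 k2 0 (.s k105 k125 5 (.s k169 k253 13 (.s k86 k252 14 (.s k67 k124 6 (.d k195 k131 k130 7
  8))))))] .n)

def s43_170_178 : T TT 256 :=
  (.q k1 [(.s k105 k125 5 (.s k169 k253 13 (.s k41 k233 7 (.s k61 k21 5 (.d k193 k129 k149 7
  13))))), (.s k3 k2 0 (.s k129 k193 7 (.s k66 k192 8 (.s k67 k64 0 (.d k195 k131 k130 7 8))))), (.s
  k3 k2 0 (.s k105 k125 5 (.s k169 k253 13 (.s k86 k252 14 (.s k67 k124 6 (.d k195 k131 k130 7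
  8))))))] .n)

def s43_170_179 : T TT 256 :=
  (.q k1 [(.s k105 k125 5 (.s k169 k253 13 (.s k41 k233 7 (.s k61 k21 5 (.d k193 k129 k149 7
  13))))), (.s k3 k2 0 (.s k129 k193 7 (.s k66 k192 8 (.s k67 k64 0 (.d k195 k131 k130 7 8))))), (.s
  k3 k2 0 (.s k105 k125 5 (.s k169 k253 13 (.s k86 k252 14 (.s k67 k124 6 (.d k195 k131 k130 7
  8))))))] .n)

def s43_170_180 : T TT 256 :=
  (.q k1 [(.s k105 k125 5 (.s k169 k253 13 (.s k41 k233 7 (.s k61 k21 5 (.d k193 k129 k149 7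
  13))))), (.s k3 k2 0 (.s k129 k193 7 (.s k66 k192 8 (.s k67 k64 0 (.d k195 k131 k130 7 8))))), (.s
  k3 k2 0 (.s k105 k125 5 (.s k169 k253 13 (.s k86 k252 14 (.s k67 k124 6 (.d k195 k131 k130 7
  8))))))] .n)

def s43_170_181 : T TT 256 :=
  (.q k1 [(.s k105 k125 5 (.s k169 k253 13 (.s k41 k233 7 (.s k61 k21 5 (.d k193 k129 k149 7
  13))))), (.s k3 k2 0 (.s k129 k193 7 (.s k66 k192 8 (.s k67 k64 0 (.d k195 k131 k130 7 8))))), (.s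
  k3 k2 0 (.s k105 k125 5 (.s k169 k253 13 (.s k86 k252 14 (.s k67 k124 6 (.d k195 k131 k130 7
  8))))))] .n)

def s43_170_182 : T TT 256 :=
  (.q k1 [(.s k105 k125 5 (.s k169 k253 13 (.s k41 k233 7 (.s k61 k21 5 (.d k193 k129 k149 7
  13))))), (.s k3 k2 0 (.s k129 k193 7 (.s k66 k192 8 (.s k67 k64 0 (.d k195 k131 k130 7 8))))), (.s
  k3 k2 0 (.s k105 k125 5 (.s k169 k253 13 (.s k86 k252 14 (.s k67 k124 6 (.d k195 k131 k130 7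
  8))))))] .n)

def s43_170_183 : T TT 256 :=
  (.q k1 [(.s k105 k125 5 (.s k169 k253 13 (.s k41 k233 7 (.s k61 k21 5 (.d k193 k129 k149 7
  13))))), (.s k3 k2 0 (.s k129 k193 7 (.s k66 k192 8 (.s k67 k64 0 (.d k195 k131 k130 7 8))))), (.s
  k3 k2 0 (.s k105 k125 5 (.s k169 k253 13 (.s k86 k252 14 (.s k67 k124 6 (.d k195 k131 k130 7
  8))))))] .n)

def s43_170_184 : T TT 256 :=
  (.q k1 [(.s k105 k125 5 (.s k169 k253 13 (.s k41 k233 7 (.s k61 k21 5 (.d k193 k129 k149 7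
  13))))), (.s k3 k2 0 (.s k129 k193 7 (.s k66 k192 8 (.s k67 k64 0 (.d k195 k131 k130 7 8))))), (.s
  k3 k2 0 (.s k105 k125 5 (.s k169 k253 13 (.s k86 k252 14 (.s k67 k124 6 (.d k195 k131 k130 7
  8))))))] .n)

def s43_170_185 : T TT 256 :=
  (.q k1 [(.s k3 k2 0 (.s k129 k193 7 (.s k66 k192 8 (.s k67 k64 0 (.d k195 k131 k130 7 8))))), (.s
  k105 k125 5 (.s k169 k253 13 (.s k41 k233 7 (.s k61 k21 5 (.d k193 k129 k149 7 13))))), (.s k3 k2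
  0 (.s k105 k125 5 (.s k169 k253 13 (.s k86 k252 14 (.s k67 k124 6 (.d k195 k131 k130 7 8))))))]
  .n)

def s43_170_186 : T TT 256 :=
  (.q k69 [(.s k73 k77 1 (.s k138 k207 10 (.s k8 k203 8 (.s k12 k4 1 (.d k195 k130 k134 8 10))))),
  (.s k77 k73 1 (.s k101 k117 3 (.s k89 k113 5 (.s k93 k81 1 (.d k125 k109 k105 3 5))))), (.s k101
  k117 3 (.s k105 k125 5 (.s k195 k130 8 (.s k150 k60 14 (.s k199 k52 12 (.d k207 k138 k203 10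
  1))))))] (.c k138 (.q k154 [(.s k16 k223 10 (.s k48 k32 3 (.d k101 k117 k207 3 14))), (.s k77 k73
  1 (.s k125 k105 5 (.s k93 k109 3 (.s k89 k81 1 (.d k101 k117 k113 3 5))))), (.s k16 k223 10 (.s
  k105 k125 5 (.s k195 k130 8 (.s k150 k60 14 (.s k146 k158 1 (.d k48 k32 k97 3 12))))))] .n) (.c
  k154 (.l (.s k138 k207 10 (.s k73 k77 1 (.s k8 k203 8 (.s k12 k4 1 (.d k195 k130 k134 8 10))))))
  .n)))

def s43_170_187 : T TT 256 :=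
  (.f k105 k125 5 (.q k153 [(.s k17 k221 9 (.s k51 k34 4 (.s k57 k201 11 (.s k60 k54 2 (.d k195 k130
  k150 8 14))))), (.s k195 k130 8 (.s k201 k57 11 (.s k204 k198 2 (.s k68 k136 9 (.d k102 k119 k51 4
  14))))), (.s k17 k221 9 (.s k51 k34 4 (.s k102 k204 14 (.s k99 k108 2 (.d k195 k130 k147 8
  11)))))] (.c k51 (.l (.s k195 k130 8 (.s k150 k60 14 (.s k215 k20 8 (.s k221 k17 9 (.s k255 k235 5
  (.s k204 k238 4 (.d k201 k57 k198 11 2)))))))) (.c k102 (.l (.s k17 k221 9 (.s k195 k130 8 (.s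
  k150 k60 14 (.s k147 k156 2 (.d k51 k34 k99 4 11)))))) (.c k130 (.l (.s k17 k221 9 (.s k51 k34 4
  (.s k57 k201 11 (.s k60 k54 2 (.s k20 k40 5 (.d k150 k215 k195 8 14))))))) (.c k195 (.q k1 [(.s
  k193 k129 7 (.s k149 k61 13 (.s k213 k21 7 (.d k253 k233 k169 5 13)))), (.s k17 k221 9 (.s k49 k33
  3 (.s k101 k205 13 (.s k117 k69 3 (.d k253 k185 k169 9 13))))), (.s k17 k221 9 (.s k49 k33 3 (.s
  k57 k201 11 (.s k61 k53 1 (.d k193 k129 k149 7 13)))))] .n) .n))))))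

def s43_170_188 : T TT 256 :=
  (.q k1 [(.s k105 k125 5 (.s k169 k253 13 (.s k41 k233 7 (.s k61 k21 5 (.d k193 k129 k149 7
  13))))), (.s k3 k2 0 (.s k129 k193 7 (.s k66 k192 8 (.s k67 k64 0 (.d k195 k131 k130 7 8))))), (.s
  k3 k2 0 (.s k105 k125 5 (.s k169 k253 13 (.s k86 k252 14 (.s k195 k130 8 (.d k67 k124 k131 6
  7))))))] .n)

def s43_170_189 : T TT 256 :=
  (.q k1 [(.s k105 k125 5 (.s k193 k129 7 (.s k61 k149 13 (.s k169 k253 13 (.d k41 k21 k233 5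
  7))))), (.s k3 k2 0 (.s k129 k193 7 (.s k66 k192 8 (.s k67 k64 0 (.d k195 k131 k130 7 8))))), (.s
  k3 k2 0 (.s k105 k125 5 (.s k195 k130 8 (.s k131 k67 7 (.s k150 k60 14 (.d k169 k253 k188 13
  6))))))] .n)

def s43_170_190 : T TT 256 :=
  (.q k64 [(.s k66 k67 0 (.s k130 k195 8 (.s k2 k194 7 (.s k3 k1 0 (.d k192 k128 k129 7 8))))), (.s
  k67 k66 0 (.s k105 k125 5 (.s k86 k124 6 (.s k87 k84 0 (.d k127 k107 k106 5 6))))), (.s k105 k125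
  5 (.s k106 k127 6 (.s k192 k128 7 (.s k149 k63 14 (.s k193 k61 13 (.d k195 k130 k194 8 0))))))]
  (.c k130 (.q k150 [(.s k20 k215 8 (.s k105 k125 5 (.d k60 k40 k195 5 14))), (.s k67 k66 0 (.s k127
  k106 6 (.s k87 k107 5 (.s k86 k84 0 (.d k105 k125 k124 5 6))))), (.s k20 k215 8 (.s k106 k127 6
  (.s k192 k128 7 (.s k149 k63 14 (.s k148 k151 0 (.d k60 k40 k104 5 13))))))] .n) (.c k150 (.l (.s
  k130 k195 8 (.s k66 k67 0 (.s k2 k194 7 (.s k3 k1 0 (.d k192 k128 k129 7 8)))))) .n)))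

def s43_170_191 : T TT 256 :=
  (.q k64 [(.s k66 k67 0 (.s k130 k195 8 (.s k2 k194 7 (.s k3 k1 0 (.d k192 k128 k129 7 8))))), (.s
  k67 k66 0 (.s k105 k125 5 (.s k86 k124 6 (.s k87 k84 0 (.d k127 k107 k106 5 6))))), (.s k105 k125
  5 (.s k106 k127 6 (.s k107 k104 0 (.s k195 k130 8 (.s k63 k151 13 (.d k192 k128 k149 7 14))))))]
  (.c k128 (.q k149 [(.s k21 k213 7 (.s k106 k127 6 (.d k63 k42 k192 6 14))), (.s k67 k66 0 (.s k105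
  k125 5 (.s k86 k124 6 (.s k87 k84 0 (.d k127 k107 k106 5 6))))), (.s k105 k125 5 (.s k193 k61 13
  (.s k1 k129 7 (.s k213 k21 7 (.d k253 k233 k169 5 13)))))] .n) (.c k149 (.l (.s k128 k192 7 (.s
  k67 k66 0 (.s k105 k125 5 (.s k86 k124 6 (.s k87 k84 0 (.d k127 k106 k107 6 5))))))) .n)))

def s43_170_192 : T TT 256 :=
  (.q k69 [(.s k77 k73 1 (.s k101 k117 3 (.s k89 k113 5 (.s k93 k81 1 (.d k125 k109 k105 3 5))))),
  (.s k73 k77 1 (.s k138 k207 10 (.s k8 k203 8 (.s k12 k4 1 (.d k195 k130 k134 8 10))))), (.s k101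
  k117 3 (.s k105 k125 5 (.s k109 k97 1 (.s k195 k130 8 (.s k207 k138 10 (.d k60 k150 k158 14
  12))))))] .n)

def s43_170_193 : T TT 256 :=
  (.q k64 [(.s k67 k66 0 (.s k105 k125 5 (.s k86 k124 6 (.s k87 k84 0 (.d k127 k107 k106 5 6))))),
  (.s k66 k67 0 (.s k130 k195 8 (.s k2 k194 7 (.s k192 k128 7 (.d k3 k1 k129 0 8))))), (.s k105 k125
  5 (.s k106 k127 6 (.s k107 k104 0 (.s k192 k128 7 (.s k195 k130 8 (.d k63 k149 k151 14 13))))))]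
  .n)

def s43_170_194 : T TT 256 :=
  (.q k1 [(.s k105 k125 5 (.s k169 k253 13 (.s k41 k233 7 (.s k61 k21 5 (.d k193 k129 k149 7
  13))))), (.s k3 k2 0 (.s k129 k193 7 (.s k66 k192 8 (.s k195 k130 8 (.d k67 k64 k131 0 7))))), (.s
  k3 k2 0 (.s k105 k125 5 (.s k169 k253 13 (.s k86 k252 14 (.s k67 k124 6 (.d k195 k130 k131 8
  7))))))] .n)

def s43_170_195 : T TT 256 :=
  (.f k105 k125 5 (.q k1 [(.s k193 k129 7 (.s k149 k61 13 (.s k213 k21 7 (.d k253 k233 k169 5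
  13)))), (.s k3 k2 0 (.s k169 k253 13 (.s k86 k252 14 (.s k67 k124 6 (.s k64 k66 0 (.s k87 k84 0
  (.d k127 k107 k106 5 6))))))), (.s k3 k2 0 (.s k129 k193 7 (.s k192 k66 8 (.s k64 k128 7 (.s k106
  k127 6 (.s k149 k63 14 (.d k169 k189 k253 5 13)))))))] (.c k169 (.f k3 k2 0 (.f k193 k129 7 (.f
  k149 k61 13 (.l (.s k21 k213 7 (.s k63 k42 6 (.s k106 k192 14 (.s k64 k127 6 (.s k67 k66 0 (.s
  k104 k107 0 (.d k124 k84 k86 5 6))))))))))) (.c k189 (.l (.s k193 k129 7 (.s k61 k149 13 (.s k169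
  k253 13 (.d k41 k21 k233 5 7))))) (.c k253 (.f k3 k2 0 (.f k129 k193 7 (.f k192 k66 8 (.l (.s k64
  k128 7 (.s k106 k127 6 (.s k104 k107 0 (.s k60 k148 13 (.s k40 k20 5 (.s k168 k232 7 (.d k84 k124
  k252 5 13))))))))))) .n)))))

def s43_170_196 : T TT 256 :=
  (.q k1 [(.s k105 k125 5 (.s k169 k253 13 (.s k41 k233 7 (.s k61 k21 5 (.d k193 k129 k149 7
  13))))), (.s k3 k2 0 (.s k129 k193 7 (.s k66 k192 8 (.s k67 k64 0 (.d k195 k131 k130 7 8))))), (.s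
  k3 k2 0 (.s k105 k125 5 (.s k169 k253 13 (.s k86 k252 14 (.s k67 k124 6 (.d k195 k131 k130 7
  8))))))] .n)

def s43_170_197 : T TT 256 :=
  (.q k1 [(.s k105 k125 5 (.s k169 k253 13 (.s k41 k233 7 (.s k61 k21 5 (.d k193 k129 k149 7
  13))))), (.s k3 k2 0 (.s k129 k193 7 (.s k66 k192 8 (.s k67 k64 0 (.d k195 k131 k130 7 8))))), (.s
  k3 k2 0 (.s k105 k125 5 (.s k169 k253 13 (.s k86 k252 14 (.s k67 k124 6 (.d k195 k131 k130 7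
  8))))))] .n)

def s43_170_198 : T TT 256 :=
  (.q k1 [(.s k105 k125 5 (.s k169 k253 13 (.s k41 k233 7 (.s k61 k21 5 (.d k193 k129 k149 7
  13))))), (.s k3 k2 0 (.s k129 k193 7 (.s k66 k192 8 (.s k67 k64 0 (.d k195 k131 k130 7 8))))), (.s
  k3 k2 0 (.s k105 k125 5 (.s k169 k253 13 (.s k86 k252 14 (.s k67 k124 6 (.d k195 k131 k130 7
  8))))))] .n)

def s43_170_199 : T TT 256 :=
  (.q k1 [(.s k105 k125 5 (.s k169 k253 13 (.s k41 k233 7 (.s k61 k21 5 (.d k193 k129 k149 7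
  13))))), (.s k3 k2 0 (.s k129 k193 7 (.s k66 k192 8 (.s k67 k64 0 (.d k195 k131 k130 7 8))))), (.s
  k3 k2 0 (.s k105 k125 5 (.s k169 k253 13 (.s k86 k252 14 (.s k67 k124 6 (.d k195 k131 k130 7
  8))))))] .n)

def s43_170_200 : T TT 256 :=
  (.q k1 [(.s k105 k125 5 (.s k169 k253 13 (.s k41 k233 7 (.s k61 k21 5 (.d k193 k129 k149 7
  13))))), (.s k3 k2 0 (.s k129 k193 7 (.s k66 k192 8 (.s k67 k64 0 (.d k195 k131 k130 7 8))))), (.s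
  k3 k2 0 (.s k105 k125 5 (.s k169 k253 13 (.s k86 k252 14 (.s k67 k124 6 (.d k195 k131 k130 7
  8))))))] .n)

def s43_170_201 : T TT 256 :=
  (.q k1 [(.s k105 k125 5 (.s k169 k253 13 (.s k41 k233 7 (.s k61 k21 5 (.d k193 k129 k149 7
  13))))), (.s k3 k2 0 (.s k129 k193 7 (.s k66 k192 8 (.s k67 k64 0 (.d k195 k131 k130 7 8))))), (.s
  k3 k2 0 (.s k105 k125 5 (.s k169 k253 13 (.s k86 k252 14 (.s k67 k124 6 (.d k195 k131 k130 7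
  8))))))] .n)

def s43_170_202 : T TT 256 :=
  (.q k1 [(.s k105 k125 5 (.s k169 k253 13 (.s k41 k233 7 (.s k61 k21 5 (.d k193 k129 k149 7
  13))))), (.s k3 k2 0 (.s k129 k193 7 (.s k66 k192 8 (.s k67 k64 0 (.d k195 k131 k130 7 8))))), (.s
  k3 k2 0 (.s k105 k125 5 (.s k169 k253 13 (.s k86 k252 14 (.s k67 k124 6 (.d k195 k131 k130 7
  8))))))] .n)

def s43_170_203 : T TT 256 :=
  (.q k1 [(.s k3 k2 0 (.s k129 k193 7 (.s k66 k192 8 (.s k67 k64 0 (.d k195 k131 k130 7 8))))), (.s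
  k105 k125 5 (.s k169 k253 13 (.s k41 k233 7 (.s k61 k21 5 (.d k193 k129 k149 7 13))))), (.s k3 k2
  0 (.s k105 k125 5 (.s k169 k253 13 (.s k86 k252 14 (.s k67 k124 6 (.d k195 k131 k130 7 8))))))]
  .n)

def s43_170_204 : T TT 256 :=
  (.q k1 [(.s k105 k125 5 (.s k169 k253 13 (.s k41 k233 7 (.s k61 k21 5 (.d k193 k129 k149 7
  13))))), (.s k3 k2 0 (.s k129 k193 7 (.s k66 k192 8 (.s k67 k64 0 (.d k195 k131 k130 7 8))))), (.s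
  k3 k2 0 (.s k105 k125 5 (.s k169 k253 13 (.s k86 k252 14 (.s k67 k124 6 (.d k195 k131 k130 7
  8))))))] .n)

def s43_170_205 : T TT 256 :=
  (.q k1 [(.s k105 k125 5 (.s k169 k253 13 (.s k41 k233 7 (.s k61 k21 5 (.d k193 k129 k149 7
  13))))), (.s k3 k2 0 (.s k129 k193 7 (.s k66 k192 8 (.s k67 k64 0 (.d k195 k131 k130 7 8))))), (.s
  k3 k2 0 (.s k105 k125 5 (.s k169 k253 13 (.s k86 k252 14 (.s k67 k124 6 (.d k195 k131 k130 7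
  8))))))] .n)

def s43_170_206 : T TT 256 :=
  (.q k1 [(.s k105 k125 5 (.s k169 k253 13 (.s k41 k233 7 (.s k61 k21 5 (.d k193 k129 k149 7
  13))))), (.s k3 k2 0 (.s k129 k193 7 (.s k66 k192 8 (.s k67 k64 0 (.d k195 k131 k130 7 8))))), (.s
  k3 k2 0 (.s k105 k125 5 (.s k169 k253 13 (.s k86 k252 14 (.s k67 k124 6 (.d k195 k131 k130 7
  8))))))] .n)

def s43_170_207 : T TT 256 :=
  (.q k1 [(.s k105 k125 5 (.s k169 k253 13 (.s k41 k233 7 (.s k61 k21 5 (.d k193 k129 k149 7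
  13))))), (.s k3 k2 0 (.s k129 k193 7 (.s k66 k192 8 (.s k67 k64 0 (.d k195 k131 k130 7 8))))), (.s
  k3 k2 0 (.s k105 k125 5 (.s k169 k253 13 (.s k86 k252 14 (.s k67 k124 6 (.d k195 k131 k130 7
  8))))))] .n)

def s43_170_208 : T TT 256 :=
  (.q k1 [(.s k105 k125 5 (.s k169 k253 13 (.s k41 k233 7 (.s k61 k21 5 (.d k193 k129 k149 7
  13))))), (.s k3 k2 0 (.s k129 k193 7 (.s k66 k192 8 (.s k67 k64 0 (.d k195 k131 k130 7 8))))), (.s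
  k3 k2 0 (.s k105 k125 5 (.s k169 k253 13 (.s k86 k252 14 (.s k67 k124 6 (.d k195 k131 k130 7
  8))))))] .n)

def s43_170_209 : T TT 256 :=
  (.q k1 [(.s k105 k125 5 (.s k169 k253 13 (.s k41 k233 7 (.s k61 k21 5 (.d k193 k129 k149 7
  13))))), (.s k3 k2 0 (.s k129 k193 7 (.s k66 k192 8 (.s k67 k64 0 (.d k195 k131 k130 7 8))))), (.s
  k3 k2 0 (.s k105 k125 5 (.s k169 k253 13 (.s k86 k252 14 (.s k67 k124 6 (.d k195 k131 k130 7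
  8))))))] .n)

def s43_170_210 : T TT 256 :=
  (.q k1 [(.s k105 k125 5 (.s k169 k253 13 (.s k41 k233 7 (.s k61 k21 5 (.d k193 k129 k149 7
  13))))), (.s k3 k2 0 (.s k129 k193 7 (.s k66 k192 8 (.s k67 k64 0 (.d k195 k131 k130 7 8))))), (.s
  k3 k2 0 (.s k105 k125 5 (.s k169 k253 13 (.s k86 k252 14 (.s k67 k124 6 (.d k195 k131 k130 7
  8))))))] .n)

def s43_170_211 : T TT 256 :=
  (.q k1 [(.s k105 k125 5 (.s k169 k253 13 (.s k41 k233 7 (.s k61 k21 5 (.d k193 k129 k149 7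
  13))))), (.s k3 k2 0 (.s k129 k193 7 (.s k66 k192 8 (.s k67 k64 0 (.d k195 k131 k130 7 8))))), (.s
  k3 k2 0 (.s k105 k125 5 (.s k169 k253 13 (.s k86 k252 14 (.s k67 k124 6 (.d k195 k131 k130 7
  8))))))] .n)

def s43_170_212 : T TT 256 :=
  (.q k1 [(.s k105 k125 5 (.s k169 k253 13 (.s k41 k233 7 (.s k61 k21 5 (.d k193 k129 k149 7
  13))))), (.s k3 k2 0 (.s k129 k193 7 (.s k66 k192 8 (.s k67 k64 0 (.d k195 k131 k130 7 8))))), (.s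
  k3 k2 0 (.s k105 k125 5 (.s k169 k253 13 (.s k86 k252 14 (.s k67 k124 6 (.d k195 k131 k130 7
  8))))))] .n)

def s43_170_213 : T TT 256 :=
  (.q k1 [(.s k105 k125 5 (.s k169 k253 13 (.s k41 k233 7 (.s k193 k129 7 (.d k61 k21 k149 5
  13))))), (.s k3 k2 0 (.s k195 k130 8 (.s k67 k131 7 (.s k66 k64 0 (.d k129 k193 k192 7 8)))))] (.c
  k129 (.l (.s k3 k2 0 (.s k105 k125 5 (.s k169 k253 13 (.s k86 k252 14 (.s k67 k124 6 (.d k195 k131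
  k130 7 8))))))) (.c k193 (.l (.s k3 k2 0 (.s k105 k125 5 (.s k169 k253 13 (.s k233 k41 7 (.s k195
  k130 8 (.d k252 k86 k214 14 6))))))) .n)))

def s43_170_214 : T TT 256 :=
  (.q k1 [(.s k3 k2 0 (.s k129 k193 7 (.s k66 k192 8 (.s k67 k64 0 (.d k195 k131 k130 7 8))))), (.s
  k105 k125 5 (.s k169 k253 13 (.s k193 k129 7 (.s k61 k149 13 (.d k41 k21 k233 5 7))))), (.s k3 k2
  0 (.s k105 k125 5 (.s k169 k253 13 (.s k86 k252 14 (.s k67 k124 6 (.d k195 k131 k130 7 8))))))]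
  .n)

def s43_170_215 : T TT 256 :=
  (.q k1 [(.s k105 k125 5 (.s k169 k253 13 (.s k41 k233 7 (.s k61 k21 5 (.d k193 k129 k149 7
  13))))), (.s k3 k2 0 (.s k129 k193 7 (.s k66 k192 8 (.s k67 k64 0 (.d k195 k131 k130 7 8))))), (.s
  k3 k2 0 (.s k105 k125 5 (.s k169 k253 13 (.s k86 k252 14 (.s k67 k124 6 (.d k195 k131 k130 7
  8))))))] .n)

def s43_170_216 : T TT 256 :=
  (.q k1 [(.s k105 k125 5 (.s k169 k253 13 (.s k41 k233 7 (.s k61 k21 5 (.d k193 k129 k149 7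
  13))))), (.s k3 k2 0 (.s k129 k193 7 (.s k66 k192 8 (.s k67 k64 0 (.d k195 k131 k130 7 8))))), (.s
  k3 k2 0 (.s k105 k125 5 (.s k169 k253 13 (.s k86 k252 14 (.s k67 k124 6 (.d k195 k131 k130 7
  8))))))] .n)

def s43_170_217 : T TT 256 :=
  (.q k1 [(.s k3 k2 0 (.s k129 k193 7 (.s k66 k192 8 (.s k67 k64 0 (.d k195 k131 k130 7 8))))), (.s
  k105 k125 5 (.s k169 k253 13 (.s k41 k233 7 (.s k61 k21 5 (.d k193 k129 k149 7 13))))), (.s k3 k2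
  0 (.s k105 k125 5 (.s k169 k253 13 (.s k86 k252 14 (.s k67 k124 6 (.d k195 k131 k130 7 8))))))]
  .n)

def s43_170_218 : T TT 256 :=
  (.q k1 [(.s k3 k2 0 (.s k129 k193 7 (.s k66 k192 8 (.s k67 k64 0 (.d k195 k131 k130 7 8))))), (.s
  k105 k125 5 (.s k169 k253 13 (.s k41 k233 7 (.s k61 k21 5 (.d k193 k129 k149 7 13))))), (.s k3 k2
  0 (.s k105 k125 5 (.s k169 k253 13 (.s k86 k252 14 (.s k67 k124 6 (.d k195 k131 k130 7 8))))))]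
  .n)

def s43_170_219 : T TT 256 :=
  (.q k1 [(.s k105 k125 5 (.s k169 k253 13 (.s k41 k233 7 (.s k61 k21 5 (.d k193 k129 k149 7
  13))))), (.s k3 k2 0 (.s k129 k193 7 (.s k66 k192 8 (.s k67 k64 0 (.d k195 k131 k130 7 8))))), (.s
  k3 k2 0 (.s k105 k125 5 (.s k169 k253 13 (.s k86 k252 14 (.s k67 k124 6 (.d k195 k131 k130 7
  8))))))] .n)

def s43_170_220 : T TT 256 :=
  (.q k1 [(.s k105 k125 5 (.s k169 k253 13 (.s k41 k233 7 (.s k61 k21 5 (.d k193 k129 k149 7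
  13))))), (.s k3 k2 0 (.s k129 k193 7 (.s k66 k192 8 (.s k67 k64 0 (.d k195 k131 k130 7 8))))), (.s
  k3 k2 0 (.s k105 k125 5 (.s k169 k253 13 (.s k86 k252 14 (.s k67 k124 6 (.d k195 k131 k130 7
  8))))))] .n)

def s43_170_221 : T TT 256 :=
  (.q k1 [(.s k3 k2 0 (.s k129 k193 7 (.s k66 k192 8 (.s k67 k64 0 (.d k195 k131 k130 7 8))))), (.s
  k105 k125 5 (.s k169 k253 13 (.s k41 k233 7 (.s k61 k21 5 (.d k193 k129 k149 7 13))))), (.s k3 k2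
  0 (.s k105 k125 5 (.s k169 k253 13 (.s k86 k252 14 (.s k67 k124 6 (.d k195 k131 k130 7 8))))))]
  .n)

def s43_170_222 : T TT 256 :=
  (.q k1 [(.s k105 k125 5 (.s k169 k253 13 (.s k41 k233 7 (.s k61 k21 5 (.d k193 k129 k149 7
  13))))), (.s k3 k2 0 (.s k129 k193 7 (.s k66 k192 8 (.s k67 k64 0 (.d k195 k131 k130 7 8))))), (.s
  k3 k2 0 (.s k105 k125 5 (.s k169 k253 13 (.s k86 k252 14 (.s k67 k124 6 (.d k195 k131 k130 7
  8))))))] .n)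

def s43_170_223 : T TT 256 :=
  (.q k1 [(.s k105 k125 5 (.s k169 k253 13 (.s k41 k233 7 (.s k61 k21 5 (.d k193 k129 k149 7
  13))))), (.s k3 k2 0 (.s k129 k193 7 (.s k66 k192 8 (.s k67 k64 0 (.d k195 k131 k130 7 8))))), (.s
  k3 k2 0 (.s k105 k125 5 (.s k169 k253 13 (.s k86 k252 14 (.s k67 k124 6 (.d k195 k131 k130 7
  8))))))] .n)

def s43_170_224 : T TT 256 :=
  (.q k1 [(.s k105 k125 5 (.s k169 k253 13 (.s k41 k233 7 (.s k61 k21 5 (.d k193 k129 k149 7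
  13))))), (.s k3 k2 0 (.s k129 k193 7 (.s k66 k192 8 (.s k67 k64 0 (.d k195 k131 k130 7 8))))), (.s
  k3 k2 0 (.s k105 k125 5 (.s k169 k253 13 (.s k86 k252 14 (.s k67 k124 6 (.d k195 k131 k130 7
  8))))))] .n)

def s43_170_225 : T TT 256 :=
  (.q k1 [(.s k105 k125 5 (.s k169 k253 13 (.s k41 k233 7 (.s k61 k21 5 (.d k193 k129 k149 7
  13))))), (.s k3 k2 0 (.s k129 k193 7 (.s k66 k192 8 (.s k67 k64 0 (.d k195 k131 k130 7 8))))), (.s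
  k3 k2 0 (.s k105 k125 5 (.s k169 k253 13 (.s k86 k252 14 (.s k67 k124 6 (.d k195 k131 k130 7
  8))))))] .n)

def s43_170_226 : T TT 256 :=
  (.q k1 [(.s k105 k125 5 (.s k169 k253 13 (.s k41 k233 7 (.s k61 k21 5 (.d k193 k129 k149 7
  13))))), (.s k3 k2 0 (.s k129 k193 7 (.s k66 k192 8 (.s k67 k64 0 (.d k195 k131 k130 7 8))))), (.s
  k3 k2 0 (.s k105 k125 5 (.s k169 k253 13 (.s k86 k252 14 (.s k67 k124 6 (.d k195 k131 k130 7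
  8))))))] .n)

def s43_170_227 : T TT 256 :=
  (.q k1 [(.s k3 k2 0 (.s k129 k193 7 (.s k66 k192 8 (.s k67 k64 0 (.d k195 k131 k130 7 8))))), (.s
  k105 k125 5 (.s k169 k253 13 (.s k41 k233 7 (.s k61 k21 5 (.d k193 k129 k149 7 13))))), (.s k3 k2
  0 (.s k105 k125 5 (.s k169 k253 13 (.s k86 k252 14 (.s k67 k124 6 (.d k195 k131 k130 7 8))))))]
  .n)

def s43_170_228 : T TT 256 :=
  (.q k1 [(.s k105 k125 5 (.s k169 k253 13 (.s k41 k233 7 (.s k61 k21 5 (.d k193 k129 k149 7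
  13))))), (.s k3 k2 0 (.s k129 k193 7 (.s k66 k192 8 (.s k67 k64 0 (.d k195 k131 k130 7 8))))), (.s
  k3 k2 0 (.s k105 k125 5 (.s k169 k253 13 (.s k86 k252 14 (.s k67 k124 6 (.d k195 k131 k130 7
  8))))))] .n)

def s43_170_229 : T TT 256 :=
  (.q k1 [(.s k3 k2 0 (.s k129 k193 7 (.s k66 k192 8 (.s k67 k64 0 (.d k195 k131 k130 7 8))))), (.s
  k105 k125 5 (.s k169 k253 13 (.s k41 k233 7 (.s k61 k21 5 (.d k193 k129 k149 7 13))))), (.s k3 k2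
  0 (.s k105 k125 5 (.s k169 k253 13 (.s k86 k252 14 (.s k67 k124 6 (.d k195 k131 k130 7 8))))))]
  .n)

def s43_170_230 : T TT 256 :=
  (.q k1 [(.s k3 k2 0 (.s k129 k193 7 (.s k66 k192 8 (.s k67 k64 0 (.d k195 k131 k130 7 8))))), (.s
  k105 k125 5 (.s k169 k253 13 (.s k41 k233 7 (.s k61 k21 5 (.d k193 k129 k149 7 13))))), (.s k3 k2
  0 (.s k105 k125 5 (.s k169 k253 13 (.s k86 k252 14 (.s k67 k124 6 (.d k195 k131 k130 7 8))))))]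
  .n)

def s43_170_231 : T TT 256 :=
  (.q k1 [(.s k105 k125 5 (.s k169 k253 13 (.s k41 k233 7 (.s k61 k21 5 (.d k193 k129 k149 7
  13))))), (.s k3 k2 0 (.s k129 k193 7 (.s k66 k192 8 (.s k67 k64 0 (.d k195 k131 k130 7 8))))), (.s
  k3 k2 0 (.s k105 k125 5 (.s k169 k253 13 (.s k86 k252 14 (.s k67 k124 6 (.d k195 k131 k130 7
  8))))))] .n)

def s43_170_232 : T TT 256 :=
  (.q k106 [(.s k64 k127 6 (.s k67 k66 0 (.s k105 k125 5 (.s k104 k107 0 (.d k124 k84 k86 5 6))))),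
  (.s k105 k125 5 (.s k107 k104 0 (.s k195 k130 8 (.s k63 k151 13 (.s k21 k42 6 (.d k149 k213 k192 7
  14)))))), (.s k64 k127 6 (.s k66 k67 0 (.s k130 k195 8 (.s k2 k194 7 (.s k3 k1 0 (.d k192 k128
  k129 7 8))))))] (.c k107 (.l (.s k64 k127 6 (.s k105 k125 5 (.s k192 k128 7 (.s k149 k63 14 (.s
  k193 k61 13 (.d k195 k194 k130 0 8))))))) .n))

def s43_170_233 : T TT 256 :=
  (.q k1 [(.s k3 k2 0 (.s k129 k193 7 (.s k66 k192 8 (.s k67 k64 0 (.d k195 k131 k130 7 8))))), (.s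
  k105 k125 5 (.s k193 k129 7 (.s k149 k61 13 (.s k21 k213 7 (.s k63 k42 6 (.s k195 k130 8 (.d k192
  k106 k194 14 0))))))), (.s k3 k2 0 (.s k105 k125 5 (.s k169 k253 13 (.s k86 k252 14 (.s k67 k124 6
  (.d k195 k131 k130 7 8)))))), (.s k3 k2 0 (.s k105 k125 5 (.s k129 k193 7 (.s k66 k192 8 (.s k67
  k64 0 (.s k86 k124 6 (.d k169 k253 k252 13 14))))))), (.s k3 k2 0 (.s k105 k125 5 (.s k195 k130 8
  (.s k67 k131 7 (.s k86 k124 6 (.d k169 k253 k252 13 14))))))] (.c k195 (.l (.s k3 k2 0 (.s k129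
  k193 7 (.s k192 k66 8 (.s k64 k128 7 (.s k106 k127 6 (.s k149 k63 14 (.d k169 k253 k189 13
  5)))))))) (.c k253 (.l (.s k3 k2 0 (.s k195 k130 8 (.s k67 k131 7 (.s k66 k64 0 (.d k129 k193 k192
  7 8)))))) .n)))

def s43_170_234 : T TT 256 :=
  (.q k106 [(.s k64 k127 6 (.s k67 k66 0 (.s k105 k125 5 (.s k104 k107 0 (.d k124 k84 k86 5 6))))),
  (.s k105 k125 5 (.s k107 k104 0 (.s k195 k130 8 (.s k63 k151 13 (.s k21 k42 6 (.d k149 k213 k192 7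
  14)))))), (.s k64 k127 6 (.s k66 k67 0 (.s k130 k195 8 (.s k2 k194 7 (.s k3 k1 0 (.d k192 k128
  k129 7 8))))))] (.c k107 (.l (.s k64 k127 6 (.s k105 k125 5 (.s k192 k128 7 (.s k149 k63 14 (.s
  k193 k61 13 (.d k195 k194 k130 0 8))))))) .n))

def s43_170_235 : T TT 256 :=
  (.f k105 k125 5 (.q k107 [(.s k106 k104 0 (.s k195 k130 8 (.s k63 k151 13 (.s k21 k42 6 (.d k149
  k213 k192 7 14))))), (.s k106 k104 0 (.s k64 k127 6 (.s k66 k67 0 (.s k192 k128 7 (.s k149 k63 14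
  (.s k193 k61 13 (.d k129 k3 k1 8 7))))))), (.s k195 k130 8 (.s k63 k151 13 (.s k21 k42 6 (.s k149
  k213 7 (.s k61 k193 13 (.d k60 k150 k62 14 0))))))] (.c k63 (.l (.s k106 k104 0 (.s k64 k127 6 (.s
  k192 k128 7 (.s k195 k130 8 (.s k150 k60 14 (.d k194 k62 k193 13 0))))))) (.c k106 (.f k195 k130 8
  (.l (.s k150 k60 14 (.s k151 k63 13 (.s k149 k148 0 (.s k213 k21 7 (.s k215 k20 8 (.s k23 k87 7
  (.d k212 k214 k86 0 8))))))))) (.c k149 (.l (.s k106 k104 0 (.s k64 k127 6 (.s k195 k130 8 (.s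
  k150 k60 14 (.s k194 k62 13 (.d k192 k193 k128 0 7))))))) .n)))))

def s43_170_236 : T TT 256 :=
  (.q k1 [(.s k3 k2 0 (.s k129 k193 7 (.s k66 k192 8 (.s k67 k64 0 (.d k195 k131 k130 7 8))))), (.s
  k105 k125 5 (.s k169 k253 13 (.s k41 k233 7 (.s k61 k21 5 (.d k193 k129 k149 7 13))))), (.s k3 k2
  0 (.s k105 k125 5 (.s k169 k253 13 (.s k86 k252 14 (.s k67 k124 6 (.d k195 k131 k130 7 8))))))]
  .n)

def s43_170_237 : T TT 256 :=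
  (.q k1 [(.s k3 k2 0 (.s k129 k193 7 (.s k66 k192 8 (.s k67 k64 0 (.d k195 k131 k130 7 8))))), (.s
  k105 k125 5 (.s k169 k253 13 (.s k41 k233 7 (.s k61 k21 5 (.d k193 k129 k149 7 13))))), (.s k3 k2
  0 (.s k105 k125 5 (.s k169 k253 13 (.s k86 k252 14 (.s k67 k124 6 (.d k195 k131 k130 7 8))))))]
  .n)

def s43_170_238 : T TT 256 :=
  (.f k105 k125 5 (.q k102 [(.s k68 k119 4 (.s k99 k108 2 (.s k195 k130 8 (.s k51 k147 11 (.d k204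
  k136 k153 9 14))))), (.s k68 k119 4 (.s k204 k136 9 (.s k153 k51 14 (.s k201 k57 11 (.d k195 k198
  k130 2 8))))), (.s k99 k108 2 (.s k195 k130 8 (.s k51 k147 11 (.s k17 k34 4 (.d k153 k221 k204 9
  14))))), (.s k68 k119 4 (.s k108 k99 2 (.s k204 k136 9 (.s k60 k156 11 (.s k20 k40 5 (.d k150 k215
  k195 8 14))))))] (.c k153 (.l (.s k68 k119 4 (.s k195 k130 8 (.s k150 k60 14 (.s k198 k54 11 (.d
  k204 k201 k136 2 9)))))) (.c k195 (.q k1 [(.s k193 k129 7 (.s k149 k61 13 (.s k213 k21 7 (.d k253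
  k233 k169 5 13)))), (.s k3 k2 0 (.s k68 k119 4 (.s k204 k136 9 (.s k70 k137 10 (.s k86 k118 3 (.s
  k84 k87 0 (.d k252 k168 k169 13 14)))))))] (.c k169 (.l (.s k68 k119 4 (.s k193 k129 7 (.s k149
  k61 13 (.s k196 k55 12 (.s k4 k132 7 (.s k213 k21 7 (.d k247 k230 k166 4 12)))))))) .n)) (.c k204
  (.l (.s k99 k108 2 (.s k119 k68 4 (.s k195 k130 8 (.s k51 k147 11 (.s k255 k187 9 (.s k215 k235 5
  (.d k150 k60 k20 14 8)))))))) .n)))))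

def s43_170_239 : T TT 256 :=
  (.q k101 [(.s k69 k117 3 (.s k77 k73 1 (.s k89 k113 5 (.s k93 k81 1 (.d k125 k109 k105 3 5))))),
  (.s k69 k117 3 (.s k73 k77 1 (.s k138 k207 10 (.s k8 k203 8 (.s k12 k4 1 (.d k195 k130 k134 8
  10)))))), (.s k105 k125 5 (.s k97 k109 1 (.s k195 k130 8 (.s k48 k146 12 (.s k16 k32 3 (.d k154
  k223 k207 10 14))))))] (.c k77 (.l (.s k69 k117 3 (.s k105 k125 5 (.s k109 k97 1 (.s k195 k130 8
  (.s k207 k138 10 (.d k60 k150 k158 14 12))))))) .n))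

def s43_170_240 : T TT 256 :=
  (.q k1 [(.s k105 k125 5 (.s k169 k253 13 (.s k41 k233 7 (.s k61 k21 5 (.d k193 k129 k149 7
  13))))), (.s k3 k2 0 (.s k129 k193 7 (.s k66 k192 8 (.s k67 k64 0 (.d k195 k131 k130 7 8))))), (.s
  k3 k2 0 (.s k105 k125 5 (.s k169 k253 13 (.s k86 k252 14 (.s k67 k124 6 (.d k195 k131 k130 7
  8))))))] .n)

def s43_170_241 : T TT 256 :=
  (.q k1 [(.s k105 k125 5 (.s k169 k253 13 (.s k41 k233 7 (.s k61 k21 5 (.d k193 k129 k149 7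
  13))))), (.s k3 k2 0 (.s k129 k193 7 (.s k66 k192 8 (.s k67 k64 0 (.d k195 k131 k130 7 8))))), (.s
  k3 k2 0 (.s k105 k125 5 (.s k169 k253 13 (.s k86 k252 14 (.s k67 k124 6 (.d k195 k131 k130 7
  8))))))] .n)

def s43_170_242 : T TT 256 :=
  (.q k1 [(.s k105 k125 5 (.s k169 k253 13 (.s k41 k233 7 (.s k61 k21 5 (.d k193 k129 k149 7
  13))))), (.s k3 k2 0 (.s k129 k193 7 (.s k66 k192 8 (.s k67 k64 0 (.d k195 k131 k130 7 8))))), (.s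
  k3 k2 0 (.s k105 k125 5 (.s k169 k253 13 (.s k86 k252 14 (.s k67 k124 6 (.d k195 k131 k130 7
  8))))))] .n)

def s43_170_243 : T TT 256 :=
  (.q k1 [(.s k105 k125 5 (.s k169 k253 13 (.s k41 k233 7 (.s k61 k21 5 (.d k193 k129 k149 7
  13))))), (.s k3 k2 0 (.s k129 k193 7 (.s k66 k192 8 (.s k67 k64 0 (.d k195 k131 k130 7 8))))), (.s
  k3 k2 0 (.s k105 k125 5 (.s k169 k253 13 (.s k86 k252 14 (.s k67 k124 6 (.d k195 k131 k130 7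
  8))))))] .n)

def s43_170_244 : T TT 256 :=
  (.q k1 [(.s k105 k125 5 (.s k169 k253 13 (.s k41 k233 7 (.s k61 k21 5 (.d k193 k129 k149 7
  13))))), (.s k3 k2 0 (.s k129 k193 7 (.s k66 k192 8 (.s k67 k64 0 (.d k195 k131 k130 7 8))))), (.s
  k3 k2 0 (.s k105 k125 5 (.s k169 k253 13 (.s k86 k252 14 (.s k67 k124 6 (.d k195 k131 k130 7
  8))))))] .n)

def s43_170_245 : T TT 256 :=
  (.q k1 [(.s k3 k2 0 (.s k129 k193 7 (.s k66 k192 8 (.s k67 k64 0 (.d k195 k131 k130 7 8))))), (.s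
  k105 k125 5 (.s k169 k253 13 (.s k41 k233 7 (.s k61 k21 5 (.d k193 k129 k149 7 13))))), (.s k3 k2
  0 (.s k105 k125 5 (.s k169 k253 13 (.s k86 k252 14 (.s k67 k124 6 (.d k195 k131 k130 7 8))))))]
  .n)

def s43_170_246 : T TT 256 :=
  (.q k1 [(.s k105 k125 5 (.s k169 k253 13 (.s k41 k233 7 (.s k61 k21 5 (.d k193 k129 k149 7
  13))))), (.s k3 k2 0 (.s k129 k193 7 (.s k66 k192 8 (.s k67 k64 0 (.d k195 k131 k130 7 8))))), (.s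
  k3 k2 0 (.s k105 k125 5 (.s k169 k253 13 (.s k86 k252 14 (.s k67 k124 6 (.d k195 k131 k130 7
  8))))))] .n)

def s43_170_247 : T TT 256 :=
  (.q k1 [(.s k105 k125 5 (.s k169 k253 13 (.s k41 k233 7 (.s k61 k21 5 (.d k193 k129 k149 7
  13))))), (.s k3 k2 0 (.s k129 k193 7 (.s k66 k192 8 (.s k67 k64 0 (.d k195 k131 k130 7 8))))), (.s
  k3 k2 0 (.s k105 k125 5 (.s k169 k253 13 (.s k86 k252 14 (.s k67 k124 6 (.d k195 k131 k130 7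
  8))))))] .n)

def s43_170_248 : T TT 256 :=
  (.q k1 [(.s k3 k2 0 (.s k129 k193 7 (.s k66 k192 8 (.s k67 k64 0 (.d k195 k131 k130 7 8))))), (.s
  k105 k125 5 (.s k169 k253 13 (.s k41 k233 7 (.s k61 k21 5 (.d k193 k129 k149 7 13))))), (.s k3 k2
  0 (.s k105 k125 5 (.s k169 k253 13 (.s k86 k252 14 (.s k67 k124 6 (.d k195 k131 k130 7 8))))))]
  .n)

def s43_170_249 : T TT 256 :=
  (.q k1 [(.s k3 k2 0 (.s k129 k193 7 (.s k66 k192 8 (.s k67 k64 0 (.d k195 k131 k130 7 8))))), (.s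
  k105 k125 5 (.s k169 k253 13 (.s k41 k233 7 (.s k61 k21 5 (.d k193 k129 k149 7 13))))), (.s k3 k2
  0 (.s k105 k125 5 (.s k169 k253 13 (.s k86 k252 14 (.s k67 k124 6 (.d k195 k131 k130 7 8))))))]
  .n)

def s43_170_250 : T TT 256 :=
  (.f k105 k125 5 (.q k90 [(.s k75 k120 4 (.s k80 k95 2 (.s k195 k130 8 (.s k15 k135 9 (.d k240 k160
  k165 11 14))))), (.s k80 k95 2 (.s k240 k160 11 (.s k165 k15 14 (.s k225 k45 9 (.d k195 k210 k130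
  4 8))))), (.s k75 k120 4 (.s k195 k130 8 (.s k15 k135 9 (.s k5 k10 2 (.d k165 k245 k240 11
  14))))), (.s k80 k95 2 (.s k120 k75 4 (.s k240 k160 11 (.s k60 k180 9 (.s k20 k40 5 (.d k150 k215
  k195 8 14))))))] (.c k165 (.l (.s k80 k95 2 (.s k195 k130 8 (.s k150 k60 14 (.s k210 k30 9 (.d
  k240 k225 k160 4 11)))))) (.c k195 (.q k1 [(.s k193 k129 7 (.s k149 k61 13 (.s k213 k21 7 (.d k253
  k233 k169 5 13)))), (.s k3 k2 0 (.s k80 k95 2 (.s k240 k160 11 (.s k82 k161 12 (.s k86 k94 1 (.s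
  k84 k87 0 (.d k252 k168 k169 13 14)))))))] (.c k169 (.l (.s k80 k95 2 (.s k193 k129 7 (.s k149 k61
  13 (.s k208 k31 10 (.s k16 k144 7 (.s k213 k21 7 (.d k223 k218 k154 2 10)))))))) .n)) (.c k240 (.l
  (.s k75 k120 4 (.s k95 k80 2 (.s k195 k130 8 (.s k15 k135 9 (.s k255 k175 11 (.s k215 k235 5 (.d
  k150 k60 k20 14 8)))))))) .n)))))

def s43_170_251 : T TT 256 :=
  (.q k89 [(.s k81 k93 1 (.s k113 k97 3 (.s k101 k77 5 (.s k117 k69 3 (.d k125 k121 k105 1 5))))),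
  (.s k81 k93 1 (.s k97 k113 3 (.s k162 k243 12 (.s k32 k227 8 (.s k48 k16 3 (.d k195 k130 k146 8
  12)))))), (.s k105 k125 5 (.s k73 k121 3 (.s k195 k130 8 (.s k12 k134 10 (.s k4 k8 1 (.d k166 k247
  k243 12 14))))))] (.c k113 (.l (.s k81 k93 1 (.s k105 k125 5 (.s k121 k73 3 (.s k195 k130 8 (.s
  k243 k162 12 (.d k60 k150 k182 14 10))))))) .n))

def s43_170_252 : T TT 256 :=
  (.q k1 [(.s k105 k125 5 (.s k193 k129 7 (.s k61 k149 13 (.s k41 k21 5 (.d k169 k233 k253 7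
  13))))), (.s k3 k2 0 (.s k129 k193 7 (.s k66 k192 8 (.s k67 k64 0 (.d k195 k131 k130 7 8))))), (.s
  k3 k2 0 (.s k105 k125 5 (.s k169 k253 13 (.s k195 k130 8 (.s k131 k67 7 (.d k150 k188 k60 6
  14))))))] .n)

def s43_170_253 : T TT 256 :=
  (.q k64 [(.s k66 k67 0 (.s k130 k195 8 (.s k2 k194 7 (.s k3 k1 0 (.d k192 k128 k129 7 8))))), (.s
  k67 k66 0 (.s k105 k125 5 (.s k86 k124 6 (.s k87 k84 0 (.d k127 k107 k106 5 6))))), (.s k105 k125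
  5 (.s k106 k127 6 (.s k107 k104 0 (.s k192 k128 7 (.s k195 k130 8 (.d k63 k149 k151 14 13))))))]
  .n)

def s43_170_254 : T TT 256 :=
  (.q k1 [(.s k129 k193 7 (.s k130 k195 8 (.s k128 k131 0 (.s k192 k64 7 (.d k3 k2 k66 0 8))))), (.s
  k105 k125 5 (.s k169 k253 13 (.s k41 k233 7 (.s k61 k21 5 (.d k193 k129 k149 7 13))))), (.s k105
  k125 5 (.s k169 k253 13 (.s k195 k130 8 (.s k150 k60 14 (.s k131 k188 6 (.d k3 k2 k67 0 7))))))]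
  (.c k2 (.q k86 [(.s k84 k87 0 (.s k169 k253 13 (.d k252 k168 k3 13 14))), (.s k87 k84 0 (.s k105
  k125 5 (.s k67 k124 6 (.s k64 k66 0 (.d k127 k107 k106 5 6))))), (.s k105 k125 5 (.s k67 k124 6
  (.s k169 k253 13 (.s k195 k130 8 (.d k3 k252 k131 14 7)))))] .n) (.c k86 (.l (.s k2 k3 0 (.s k105
  k125 5 (.s k169 k253 13 (.s k41 k233 7 (.s k61 k21 5 (.d k193 k129 k149 7 13))))))) .n)))

def s43_170_255 : T TT 256 :=
  (.q k1 [(.s k3 k2 0 (.s k129 k193 7 (.s k66 k192 8 (.s k67 k64 0 (.d k195 k131 k130 7 8))))), (.s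
  k105 k125 5 (.s k193 k129 7 (.s k61 k149 13 (.s k41 k21 5 (.d k169 k233 k253 7 13)))))] (.c k129
  (.l (.s k3 k2 0 (.s k105 k125 5 (.s k169 k253 13 (.s k41 k233 7 (.s k60 k22 6 (.d k195 k130 k150 8
  14))))))) (.c k193 (.l (.s k3 k2 0 (.s k105 k125 5 (.s k169 k253 13 (.s k195 k130 8 (.s k67 k131 7
  (.d k86 k252 k124 14 6))))))) .n)))

def t43_170 : T TT 256 :=
  (.q k65 [] (.c k1 s43_170_1 (.c k2 s43_170_2 (.c k3 s43_170_3 (.c k4 s43_170_4 (.c k5 s43_170_5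
  (.c k6 s43_170_6 (.c k7 s43_170_7 (.c k8 s43_170_8 (.c k9 s43_170_9 (.c k10 s43_170_10 (.c k11
  s43_170_11 (.c k12 s43_170_12 (.c k13 s43_170_13 (.c k14 s43_170_14 (.c k15 s43_170_15 (.c k16
  s43_170_16 (.c k17 s43_170_17 (.c k18 s43_170_18 (.c k19 s43_170_19 (.c k20 s43_170_20 (.c k21
  s43_170_21 (.c k22 s43_170_22 (.c k23 s43_170_23 (.c k24 s43_170_24 (.c k25 s43_170_25 (.c k26
  s43_170_26 (.c k27 s43_170_27 (.c k28 s43_170_28 (.c k29 s43_170_29 (.c k30 s43_170_30 (.c k31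
  s43_170_31 (.c k32 s43_170_32 (.c k33 s43_170_33 (.c k34 s43_170_34 (.c k35 s43_170_35 (.c k36
  s43_170_36 (.c k37 s43_170_37 (.c k38 s43_170_38 (.c k39 s43_170_39 (.c k40 s43_170_40 (.c k41
  s43_170_41 (.c k42 s43_170_42 (.c k44 s43_170_44 (.c k45 s43_170_45 (.c k46 s43_170_46 (.c k47
  s43_170_47 (.c k48 s43_170_48 (.c k49 s43_170_49 (.c k50 s43_170_50 (.c k51 s43_170_51 (.c k52
  s43_170_52 (.c k53 s43_170_53 (.c k54 s43_170_54 (.c k55 s43_170_55 (.c k56 s43_170_56 (.c k57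
  s43_170_57 (.c k58 s43_170_58 (.c k59 s43_170_59 (.c k60 s43_170_60 (.c k61 s43_170_61 (.c k62
  s43_170_62 (.c k63 s43_170_63 (.c k64 s43_170_64 (.c k66 s43_170_66 (.c k67 s43_170_67 (.c k68
  s43_170_68 (.c k69 s43_170_69 (.c k70 s43_170_70 (.c k71 s43_170_71 (.c k72 s43_170_72 (.c k73
  s43_170_73 (.c k74 s43_170_74 (.c k75 s43_170_75 (.c k76 s43_170_76 (.c k77 s43_170_77 (.c k78
  s43_170_78 (.c k79 s43_170_79 (.c k80 s43_170_80 (.c k81 s43_170_81 (.c k82 s43_170_82 (.c k83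
  s43_170_83 (.c k84 s43_170_84 (.c k86 s43_170_86 (.c k87 s43_170_87 (.c k88 s43_170_88 (.c k89
  s43_170_89 (.c k90 s43_170_90 (.c k91 s43_170_91 (.c k92 s43_170_92 (.c k93 s43_170_93 (.c k94
  s43_170_94 (.c k95 s43_170_95 (.c k96 s43_170_96 (.c k97 s43_170_97 (.c k98 s43_170_98 (.c k99
  s43_170_99 (.c k100 s43_170_100 (.c k101 s43_170_101 (.c k102 s43_170_102 (.c k103 s43_170_103 (.c
  k104 s43_170_104 (.c k105 s43_170_105 (.c k106 s43_170_106 (.c k107 s43_170_107 (.c k108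
  s43_170_108 (.c k109 s43_170_109 (.c k110 s43_170_110 (.c k111 s43_170_111 (.c k112 s43_170_112
  (.c k113 s43_170_113 (.c k114 s43_170_114 (.c k115 s43_170_115 (.c k116 s43_170_116 (.c k117
  s43_170_117 (.c k118 s43_170_118 (.c k119 s43_170_119 (.c k120 s43_170_120 (.c k121 s43_170_121
  (.c k122 s43_170_122 (.c k123 s43_170_123 (.c k124 s43_170_124 (.c k125 s43_170_125 (.c k126
  s43_170_126 (.c k127 s43_170_127 (.c k128 s43_170_128 (.c k129 s43_170_129 (.c k130 s43_170_130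
  (.c k131 s43_170_131 (.c k132 s43_170_132 (.c k133 s43_170_133 (.c k134 s43_170_134 (.c k135
  s43_170_135 (.c k136 s43_170_136 (.c k137 s43_170_137 (.c k138 s43_170_138 (.c k139 s43_170_139
  (.c k140 s43_170_140 (.c k141 s43_170_141 (.c k142 s43_170_142 (.c k143 s43_170_143 (.c k144
  s43_170_144 (.c k145 s43_170_145 (.c k146 s43_170_146 (.c k147 s43_170_147 (.c k148 s43_170_148
  (.c k149 s43_170_149 (.c k150 s43_170_150 (.c k151 s43_170_151 (.c k152 s43_170_152 (.c k153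
  s43_170_153 (.c k154 s43_170_154 (.c k155 s43_170_155 (.c k156 s43_170_156 (.c k157 s43_170_157
  (.c k158 s43_170_158 (.c k159 s43_170_159 (.c k160 s43_170_160 (.c k161 s43_170_161 (.c k162
  s43_170_162 (.c k163 s43_170_163 (.c k164 s43_170_164 (.c k165 s43_170_165 (.c k166 s43_170_166
  (.c k167 s43_170_167 (.c k168 s43_170_168 (.c k169 s43_170_169 (.c k171 s43_170_171 (.c k172
  s43_170_172 (.c k173 s43_170_173 (.c k174 s43_170_174 (.c k175 s43_170_175 (.c k176 s43_170_176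
  (.c k177 s43_170_177 (.c k178 s43_170_178 (.c k179 s43_170_179 (.c k180 s43_170_180 (.c k181
  s43_170_181 (.c k182 s43_170_182 (.c k183 s43_170_183 (.c k184 s43_170_184 (.c k185 s43_170_185
  (.c k186 s43_170_186 (.c k187 s43_170_187 (.c k188 s43_170_188 (.c k189 s43_170_189 (.c k190
  s43_170_190 (.c k191 s43_170_191 (.c k192 s43_170_192 (.c k193 s43_170_193 (.c k194 s43_170_194
  (.c k195 s43_170_195 (.c k196 s43_170_196 (.c k197 s43_170_197 (.c k198 s43_170_198 (.c k199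
  s43_170_199 (.c k200 s43_170_200 (.c k201 s43_170_201 (.c k202 s43_170_202 (.c k203 s43_170_203
  (.c k204 s43_170_204 (.c k205 s43_170_205 (.c k206 s43_170_206 (.c k207 s43_170_207 (.c k208
  s43_170_208 (.c k209 s43_170_209 (.c k210 s43_170_210 (.c k211 s43_170_211 (.c k212 s43_170_212
  (.c k213 s43_170_213 (.c k214 s43_170_214 (.c k215 s43_170_215 (.c k216 s43_170_216 (.c k217
  s43_170_217 (.c k218 s43_170_218 (.c k219 s43_170_219 (.c k220 s43_170_220 (.c k221 s43_170_221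
  (.c k222 s43_170_222 (.c k223 s43_170_223 (.c k224 s43_170_224 (.c k225 s43_170_225 (.c k226
  s43_170_226 (.c k227 s43_170_227 (.c k228 s43_170_228 (.c k229 s43_170_229 (.c k230 s43_170_230
  (.c k231 s43_170_231 (.c k232 s43_170_232 (.c k233 s43_170_233 (.c k234 s43_170_234 (.c k235
  s43_170_235 (.c k236 s43_170_236 (.c k237 s43_170_237 (.c k238 s43_170_238 (.c k239 s43_170_239
  (.c k240 s43_170_240 (.c k241 s43_170_241 (.c k242 s43_170_242 (.c k243 s43_170_243 (.c k244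
  s43_170_244 (.c k245 s43_170_245 (.c k246 s43_170_246 (.c k247 s43_170_247 (.c k248 s43_170_248
  (.c k249 s43_170_249 (.c k250 s43_170_250 (.c k251 s43_170_251 (.c k252 s43_170_252 (.c k253
  s43_170_253 (.c k254 s43_170_254 (.c k255 s43_170_255
  .n))))))))))))))))))))))))))))))))))))))))))))))))))))))))))))))))))))))))))))))))
  ))))))))))))))))))))))))))))))))))))))))))))))))))))))))))))))))))))))))))))))))
  )))))))))))))))))))))))))))))))))))))))))))))))))))))))))))))))))))))))))))))))) ))))))))))))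

def s43_255_1 : T TT 256 :=
  (.q k64 [(.s k67 k66 0 (.s k105 k125 5 (.s k86 k124 6 (.s k87 k84 0 (.d k127 k107 k106 5 6))))),
  (.s k106 k127 6 (.s k192 k128 7 (.s k195 k130 8 (.s k194 k193 0 (.s k150 k62 13 (.s k20 k215 8 (.d
  k60 k40 k105 5 14))))))), (.s k66 k67 0 (.s k106 k127 6 (.s k86 k126 5 (.s k192 k128 7 (.s k3 k129
  8 (.s k252 k169 14 (.d k84 k87 k168 0 13)))))))] (.c k106 (.l (.s k67 k66 0 (.s k105 k125 5 (.s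
  k86 k124 6 (.s k84 k87 0 (.s k195 k130 8 (.s k3 k131 7 (.d k252 k168 k169 13 14)))))))) (.c k127
  (.l (.s k67 k66 0 (.s k105 k125 5 (.s k124 k86 6 (.s k84 k104 5 (.s k195 k130 8 (.s k60 k150 14
  (.d k252 k188 k168 7 13)))))))) .n)))

def s43_255_2 : T TT 256 :=
  (.q k64 [(.s k66 k67 0 (.s k192 k128 7 (.s k195 k130 8 (.s k193 k194 0 (.d k129 k1 k3 7 8))))),
  (.s k105 k125 5 (.s k106 k127 6 (.s k104 k107 0 (.s k124 k84 5 (.d k67 k66 k86 0 6))))), (.s k105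
  k125 5 (.s k106 k127 6 (.s k107 k104 0 (.s k192 k128 7 (.s k63 k149 14 (.d k195 k130 k151 8
  13))))))] .n)

def s43_255_3 : T TT 256 :=
  (.f k195 k130 8 (.q k63 [(.s k105 k125 5 (.s k107 k151 13 (.s k106 k104 0 (.s k64 k127 6 (.d k192
  k128 k149 7 14))))), (.s k21 k42 6 (.s k149 k213 7 (.s k192 k106 14 (.s k193 k194 0 (.d k105 k125
  k61 5 13))))), (.s k21 k42 6 (.s k149 k213 7 (.s k151 k107 13 (.s k150 k148 0 (.s k20 k215 8 (.d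
  k60 k40 k105 5 14))))))] (.c k87 (.q k171 [(.s k105 k125 5 (.s k60 k150 14 (.s k61 k62 0 (.s k149
  k193 13 (.d k21 k42 k213 6 7))))), (.s k105 k125 5 (.s k107 k151 13 (.s k106 k104 0 (.s k64 k127 6
  (.d k192 k128 k149 7 14))))), (.s k21 k42 6 (.s k149 k213 7 (.s k151 k107 13 (.s k191 k131 5 (.s
  k128 k170 6 (.d k192 k106 k64 14 7)))))), (.s k21 k42 6 (.s k149 k213 7 (.s k151 k107 13 (.s k150
  k148 0 (.s k20 k215 8 (.d k60 k40 k105 5 14))))))] (.c k149 (.l (.s k42 k21 6 (.s k105 k125 5 (.s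
  k60 k150 14 (.s k40 k20 5 (.s k170 k235 8 (.s k106 k234 7 (.d k107 k151 k104 13 0)))))))) .n)) (.c
  k105 (.f k151 k107 13 (.f k21 k42 6 (.f k149 k213 7 (.l (.s k148 k150 0 (.s k192 k106 14 (.s k104
  k60 13 (.s k64 k128 7 (.s k84 k124 5 (.s k212 k20 7 (.d k86 k87 k23 0 8))))))))))) (.c k149 (.l
  (.s k42 k21 6 (.s k105 k125 5 (.s k60 k150 14 (.s k40 k20 5 (.s k170 k235 8 (.s k106 k234 7 (.d
  k107 k151 k104 13 0)))))))) (.c k171 (.q k87 [(.s k86 k84 0 (.s k107 k151 13 (.s k67 k127 5 (.d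
  k105 k125 k124 5 6)))), (.s k21 k42 6 (.s k105 k125 5 (.s k60 k150 14 (.s k61 k62 0 (.d k149 k213
  k193 7 13))))), (.s k21 k42 6 (.s k86 k84 0 (.s k149 k213 7 (.s k23 k212 8 (.d k151 k215 k107 7
  13)))))] (.c k107 (.q k235 [(.s k105 k125 5 (.s k60 k150 14 (.d k40 k170 k20 8 5))), (.s k21 k42 6
  (.s k86 k84 0 (.s k149 k213 7 (.s k23 k212 8 (.s k20 k22 0 (.d k215 k151 k150 7 8)))))), (.s k105
  k125 5 (.s k60 k150 14 (.s k61 k62 0 (.s k149 k193 13 (.d k21 k42 k213 6 7)))))] (.c k60 (.l (.s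
  k21 k42 6 (.s k149 k213 7 (.s k192 k106 14 (.s k193 k194 0 (.d k105 k125 k61 5 13)))))) (.c k150
  (.l (.s k21 k42 6 (.s k105 k125 5 (.s k149 k213 7 (.s k192 k106 14 (.d k193 k194 k61 0 13))))))
  .n))) (.c k235 (.l (.s k107 k151 13 (.s k67 k127 5 (.s k86 k84 0 (.d k105 k125 k124 5 6))))) .n)))
  (.c k192 (.l (.s k21 k42 6 (.s k105 k125 5 (.s k60 k150 14 (.s k61 k62 0 (.d k149 k213 k193 7
  13)))))) .n)))))))

def s43_255_4 : T TT 256 :=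
  (.q k1 [(.s k3 k2 0 (.s k129 k193 7 (.s k66 k192 8 (.s k67 k64 0 (.d k195 k131 k130 7 8))))), (.s
  k105 k125 5 (.s k169 k253 13 (.s k41 k233 7 (.s k61 k21 5 (.d k193 k129 k149 7 13))))), (.s k3 k2
  0 (.s k105 k125 5 (.s k169 k253 13 (.s k195 k130 8 (.s k60 k150 14 (.d k41 k22 k233 6 7))))))] .n)

def s43_255_5 : T TT 256 :=
  (.q k1 [(.s k3 k2 0 (.s k129 k193 7 (.s k66 k192 8 (.s k67 k64 0 (.d k195 k131 k130 7 8))))), (.s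
  k105 k125 5 (.s k169 k253 13 (.s k41 k233 7 (.s k61 k21 5 (.d k193 k129 k149 7 13))))), (.s k3 k2
  0 (.s k105 k125 5 (.s k169 k253 13 (.s k195 k130 8 (.s k60 k150 14 (.d k41 k22 k233 6 7))))))] .n)

def s43_255_6 : T TT 256 :=
  (.q k1 [(.s k3 k2 0 (.s k129 k193 7 (.s k66 k192 8 (.s k67 k64 0 (.d k195 k131 k130 7 8))))), (.s
  k105 k125 5 (.s k169 k253 13 (.s k41 k233 7 (.s k61 k21 5 (.d k193 k129 k149 7 13))))), (.s k3 k2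
  0 (.s k105 k125 5 (.s k169 k253 13 (.s k195 k130 8 (.s k60 k150 14 (.d k41 k22 k233 6 7))))))] .n)

def s43_255_7 : T TT 256 :=
  (.q k1 [(.s k3 k2 0 (.s k129 k193 7 (.s k66 k192 8 (.s k67 k64 0 (.d k195 k131 k130 7 8))))), (.s
  k105 k125 5 (.s k169 k253 13 (.s k41 k233 7 (.s k61 k21 5 (.d k193 k129 k149 7 13))))), (.s k3 k2
  0 (.s k105 k125 5 (.s k169 k253 13 (.s k195 k130 8 (.s k60 k150 14 (.d k41 k22 k233 6 7))))))] .n)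

def s43_255_8 : T TT 256 :=
  (.q k1 [(.s k3 k2 0 (.s k129 k193 7 (.s k66 k192 8 (.s k67 k64 0 (.d k195 k131 k130 7 8))))), (.s
  k105 k125 5 (.s k169 k253 13 (.s k41 k233 7 (.s k61 k21 5 (.d k193 k129 k149 7 13))))), (.s k3 k2
  0 (.s k105 k125 5 (.s k169 k253 13 (.s k195 k130 8 (.s k60 k150 14 (.d k41 k22 k233 6 7))))))] .n)

def s43_255_9 : T TT 256 :=
  (.q k1 [(.s k3 k2 0 (.s k129 k193 7 (.s k66 k192 8 (.s k67 k64 0 (.d k195 k131 k130 7 8))))), (.s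
  k105 k125 5 (.s k169 k253 13 (.s k41 k233 7 (.s k61 k21 5 (.d k193 k129 k149 7 13))))), (.s k3 k2
  0 (.s k105 k125 5 (.s k169 k253 13 (.s k195 k130 8 (.s k60 k150 14 (.d k41 k22 k233 6 7))))))] .n)

def s43_255_10 : T TT 256 :=
  (.q k1 [(.s k3 k2 0 (.s k129 k193 7 (.s k66 k192 8 (.s k67 k64 0 (.d k195 k131 k130 7 8))))), (.s
  k105 k125 5 (.s k169 k253 13 (.s k41 k233 7 (.s k61 k21 5 (.d k193 k129 k149 7 13))))), (.s k3 k2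
  0 (.s k105 k125 5 (.s k169 k253 13 (.s k195 k130 8 (.s k60 k150 14 (.d k41 k22 k233 6 7))))))] .n)

def s43_255_11 : T TT 256 :=
  (.f k195 k130 8 (.f k125 k105 5 (.q k81 [(.s k97 k113 3 (.s k48 k146 12 (.s k32 k16 3 (.d k162
  k227 k243 8 12)))), (.s k89 k93 1 (.s k113 k97 3 (.s k101 k77 5 (.d k117 k121 k69 1 3)))), (.s k89
  k93 1 (.s k243 k162 12 (.s k12 k166 14 (.s k8 k4 1 (.s k73 k134 10 (.s k69 k77 1 (.d k138 k203
  k207 8 10)))))))] (.c k27 (.q k59 [(.s k97 k113 3 (.s k48 k146 12 (.s k32 k16 3 (.d k162 k227 k243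
  8 12)))), (.s k89 k93 1 (.s k113 k97 3 (.s k101 k77 5 (.d k117 k121 k69 1 3)))), (.s k89 k93 1 (.s
  k243 k162 12 (.s k12 k166 14 (.s k8 k4 1 (.s k73 k134 10 (.s k69 k77 1 (.d k138 k203 k207 8
  10)))))))] .n) (.c k59 (.q k27 [(.s k97 k113 3 (.s k48 k146 12 (.s k32 k16 3 (.d k162 k227 k243 8
  12)))), (.s k89 k93 1 (.s k113 k97 3 (.s k101 k77 5 (.d k117 k121 k69 1 3)))), (.s k89 k93 1 (.s
  k243 k162 12 (.s k12 k166 14 (.s k8 k4 1 (.s k73 k134 10 (.s k69 k77 1 (.d k138 k203 k207 8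
  10)))))))] .n) .n)))))

def s43_255_12 : T TT 256 :=
  (.f k195 k130 8 (.q k81 [(.s k97 k113 3 (.s k48 k146 12 (.s k32 k16 3 (.d k162 k227 k243 8 12)))),
  (.s k113 k97 3 (.s k125 k105 5 (.s k117 k121 1 (.s k101 k69 3 (.d k89 k93 k77 1 5))))), (.s k105
  k125 5 (.s k60 k150 14 (.s k243 k162 12 (.s k121 k182 10 (.d k89 k93 k73 1 3)))))] (.c k93 (.q
  k174 [(.s k97 k113 3 (.s k48 k146 12 (.s k32 k16 3 (.d k162 k227 k243 8 12)))), (.s k105 k125 5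
  (.s k60 k150 14 (.s k40 k20 5 (.s k162 k243 12 (.d k170 k166 k235 1 8)))))] (.c k162 (.l (.s k97
  k113 3 (.s k105 k125 5 (.s k146 k48 12 (.s k16 k211 8 (.s k154 k223 10 (.d k150 k158 k60 1
  14))))))) (.c k243 (.l (.s k97 k113 3 (.s k48 k146 12 (.s k16 k32 3 (.s k105 k125 5 (.s k154 k223
  10 (.d k101 k109 k207 1 14))))))) .n))) (.c k174 (.l (.s k93 k89 1 (.s k97 k113 3 (.s k48 k146 12
  (.s k32 k16 3 (.d k162 k243 k227 12 8)))))) .n))))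

def s43_255_13 : T TT 256 :=
  (.q k1 [(.s k3 k2 0 (.s k195 k130 8 (.s k67 k131 7 (.s k66 k64 0 (.d k129 k193 k192 7 8))))), (.s
  k105 k125 5 (.s k169 k253 13 (.s k41 k233 7 (.s k61 k21 5 (.d k193 k129 k149 7 13))))), (.s k3 k2
  0 (.s k105 k125 5 (.s k169 k253 13 (.s k195 k130 8 (.s k60 k150 14 (.d k41 k22 k233 6 7))))))] .n)

def s43_255_14 : T TT 256 :=
  (.q k1 [(.s k3 k2 0 (.s k129 k193 7 (.s k66 k192 8 (.s k67 k64 0 (.d k195 k131 k130 7 8))))), (.s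
  k105 k125 5 (.s k169 k253 13 (.s k41 k233 7 (.s k61 k21 5 (.d k193 k129 k149 7 13))))), (.s k3 k2
  0 (.s k105 k125 5 (.s k169 k253 13 (.s k195 k130 8 (.s k60 k150 14 (.d k41 k22 k233 6 7))))))] .n)

def s43_255_15 : T TT 256 :=
  (.f k195 k130 8 (.f k125 k105 5 (.q k81 [(.s k97 k113 3 (.s k48 k146 12 (.s k32 k16 3 (.d k162
  k227 k243 8 12)))), (.s k89 k93 1 (.s k113 k97 3 (.s k101 k77 5 (.d k117 k121 k69 1 3)))), (.s k89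
  k93 1 (.s k243 k162 12 (.s k12 k166 14 (.s k8 k4 1 (.s k73 k134 10 (.s k69 k77 1 (.d k138 k203
  k207 8 10)))))))] (.c k95 (.q k175 [(.s k97 k113 3 (.s k48 k146 12 (.s k32 k16 3 (.d k162 k227
  k243 8 12)))), (.s k89 k93 1 (.s k113 k97 3 (.s k101 k77 5 (.d k117 k121 k69 1 3)))), (.s k89 k93
  1 (.s k243 k162 12 (.s k12 k166 14 (.s k8 k4 1 (.s k73 k134 10 (.s k69 k77 1 (.d k138 k203 k207 8
  10)))))))] .n) (.c k175 (.q k95 [(.s k97 k113 3 (.s k48 k146 12 (.s k32 k16 3 (.d k162 k227 k243 8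
  12)))), (.s k80 k90 2 (.s k83 k82 0 (.s k87 k91 1 (.s k86 k84 0 (.d k89 k93 k92 1 2)))))] (.c k243
  (.l (.s k89 k93 1 (.s k113 k97 3 (.s k101 k77 5 (.d k117 k121 k69 1 3))))) .n)) .n)))))

def s43_255_16 : T TT 256 :=
  (.q k1 [(.s k3 k2 0 (.s k129 k193 7 (.s k66 k192 8 (.s k67 k64 0 (.d k195 k131 k130 7 8))))), (.s
  k105 k125 5 (.s k169 k253 13 (.s k41 k233 7 (.s k61 k21 5 (.d k193 k129 k149 7 13))))), (.s k3 k2
  0 (.s k105 k125 5 (.s k169 k253 13 (.s k195 k130 8 (.s k60 k150 14 (.d k41 k22 k233 6 7))))))] .n)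

def s43_255_17 : T TT 256 :=
  (.q k1 [(.s k3 k2 0 (.s k129 k193 7 (.s k66 k192 8 (.s k67 k64 0 (.d k195 k131 k130 7 8))))), (.s
  k105 k125 5 (.s k169 k253 13 (.s k41 k233 7 (.s k61 k21 5 (.d k193 k129 k149 7 13))))), (.s k3 k2
  0 (.s k105 k125 5 (.s k169 k253 13 (.s k195 k130 8 (.s k60 k150 14 (.d k41 k22 k233 6 7))))))] .n)

def s43_255_18 : T TT 256 :=
  (.q k1 [(.s k3 k2 0 (.s k129 k193 7 (.s k66 k192 8 (.s k67 k64 0 (.d k195 k131 k130 7 8))))), (.s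
  k105 k125 5 (.s k169 k253 13 (.s k41 k233 7 (.s k61 k21 5 (.d k193 k129 k149 7 13))))), (.s k3 k2
  0 (.s k105 k125 5 (.s k169 k253 13 (.s k195 k130 8 (.s k60 k150 14 (.d k41 k22 k233 6 7))))))] .n)

def s43_255_19 : T TT 256 :=
  (.q k1 [(.s k3 k2 0 (.s k129 k193 7 (.s k66 k192 8 (.s k67 k64 0 (.d k195 k131 k130 7 8))))), (.s
  k105 k125 5 (.s k169 k253 13 (.s k41 k233 7 (.s k61 k21 5 (.d k193 k129 k149 7 13))))), (.s k3 k2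
  0 (.s k105 k125 5 (.s k169 k253 13 (.s k195 k130 8 (.s k60 k150 14 (.d k41 k22 k233 6 7))))))] .n)

def s43_255_20 : T TT 256 :=
  (.q k1 [(.s k3 k2 0 (.s k129 k193 7 (.s k66 k192 8 (.s k67 k64 0 (.d k195 k131 k130 7 8))))), (.s
  k105 k125 5 (.s k169 k253 13 (.s k41 k233 7 (.s k61 k21 5 (.d k193 k129 k149 7 13))))), (.s k3 k2
  0 (.s k105 k125 5 (.s k169 k253 13 (.s k195 k130 8 (.s k60 k150 14 (.d k41 k22 k233 6 7))))))] .n)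

def s43_255_21 : T TT 256 :=
  (.q k3 [(.s k1 k2 0 (.s k129 k193 7 (.s k66 k192 8 (.s k67 k64 0 (.d k195 k131 k130 7 8))))), (.s
  k105 k125 5 (.s k195 k130 8 (.s k67 k131 7 (.s k86 k124 6 (.s k84 k87 0 (.d k252 k168 k169 13
  14)))))), (.s k1 k2 0 (.s k105 k125 5 (.s k169 k253 13 (.s k41 k233 7 (.s k60 k22 6 (.d k195 k130
  k150 8 14))))))] (.c k130 (.l (.s k1 k2 0 (.s k105 k125 5 (.s k129 k193 7 (.s k66 k192 8 (.s k67
  k64 0 (.s k86 k124 6 (.d k169 k253 k252 13 14)))))))) (.c k195 (.l (.s k1 k2 0 (.s k129 k193 7 (.s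
  k169 k253 13 (.s k149 k189 5 (.s k192 k66 8 (.s k64 k128 7 (.d k106 k127 k63 6 14)))))))) .n)))

def s43_255_22 : T TT 256 :=
  (.q k1 [(.s k3 k2 0 (.s k129 k193 7 (.s k66 k192 8 (.s k67 k64 0 (.d k195 k131 k130 7 8))))), (.s
  k105 k125 5 (.s k169 k253 13 (.s k41 k233 7 (.s k61 k21 5 (.d k193 k129 k149 7 13))))), (.s k3 k2
  0 (.s k105 k125 5 (.s k169 k253 13 (.s k195 k130 8 (.s k131 k67 7 (.d k150 k60 k188 14 6))))))]
  .n)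

def s43_255_23 : T TT 256 :=
  (.q k3 [(.s k1 k2 0 (.s k129 k193 7 (.s k66 k192 8 (.s k67 k64 0 (.d k195 k131 k130 7 8))))), (.s
  k105 k125 5 (.s k195 k130 8 (.s k67 k131 7 (.s k86 k124 6 (.s k84 k87 0 (.d k252 k168 k169 13
  14)))))), (.s k1 k2 0 (.s k105 k125 5 (.s k169 k253 13 (.s k41 k233 7 (.s k61 k21 5 (.d k193 k129
  k149 7 13))))))] (.c k129 (.l (.s k1 k2 0 (.s k105 k125 5 (.s k169 k253 13 (.s k41 k233 7 (.s k60
  k22 6 (.d k195 k130 k150 8 14))))))) .n))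

def s43_255_24 : T TT 256 :=
  (.q k1 [(.s k3 k2 0 (.s k129 k193 7 (.s k66 k192 8 (.s k67 k64 0 (.d k195 k131 k130 7 8))))), (.s
  k105 k125 5 (.s k169 k253 13 (.s k41 k233 7 (.s k61 k21 5 (.d k193 k129 k149 7 13))))), (.s k3 k2
  0 (.s k105 k125 5 (.s k169 k253 13 (.s k195 k130 8 (.s k60 k150 14 (.d k41 k22 k233 6 7))))))] .n)

def s43_255_25 : T TT 256 :=
  (.q k1 [(.s k3 k2 0 (.s k129 k193 7 (.s k66 k192 8 (.s k67 k64 0 (.d k195 k131 k130 7 8))))), (.s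
  k105 k125 5 (.s k169 k253 13 (.s k41 k233 7 (.s k61 k21 5 (.d k193 k129 k149 7 13))))), (.s k3 k2
  0 (.s k105 k125 5 (.s k169 k253 13 (.s k195 k130 8 (.s k60 k150 14 (.d k41 k22 k233 6 7))))))] .n)

def s43_255_26 : T TT 256 :=
  (.q k1 [(.s k3 k2 0 (.s k129 k193 7 (.s k66 k192 8 (.s k67 k64 0 (.d k195 k131 k130 7 8))))), (.s
  k105 k125 5 (.s k169 k253 13 (.s k41 k233 7 (.s k61 k21 5 (.d k193 k129 k149 7 13))))), (.s k3 k2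
  0 (.s k105 k125 5 (.s k169 k253 13 (.s k195 k130 8 (.s k60 k150 14 (.d k41 k22 k233 6 7))))))] .n)

def s43_255_27 : T TT 256 :=
  (.f k195 k130 8 (.f k125 k105 5 (.q k81 [(.s k97 k113 3 (.s k48 k146 12 (.s k32 k16 3 (.d k162
  k227 k243 8 12)))), (.s k89 k93 1 (.s k113 k97 3 (.s k101 k77 5 (.d k117 k121 k69 1 3)))), (.s k89
  k93 1 (.s k243 k162 12 (.s k12 k166 14 (.s k8 k4 1 (.s k73 k134 10 (.s k69 k77 1 (.d k138 k203
  k207 8 10)))))))] (.c k11 (.q k59 [(.s k97 k113 3 (.s k48 k146 12 (.s k32 k16 3 (.d k162 k227 k243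
  8 12)))), (.s k89 k93 1 (.s k113 k97 3 (.s k101 k77 5 (.d k117 k121 k69 1 3)))), (.s k89 k93 1 (.s
  k243 k162 12 (.s k12 k166 14 (.s k8 k4 1 (.s k73 k134 10 (.s k69 k77 1 (.d k138 k203 k207 8
  10)))))))] .n) (.c k59 (.q k11 [(.s k97 k113 3 (.s k48 k146 12 (.s k32 k16 3 (.d k162 k227 k243 8
  12)))), (.s k89 k93 1 (.s k113 k97 3 (.s k101 k77 5 (.d k117 k121 k69 1 3)))), (.s k89 k93 1 (.s
  k243 k162 12 (.s k12 k166 14 (.s k8 k4 1 (.s k73 k134 10 (.s k69 k77 1 (.d k138 k203 k207 8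
  10)))))))] .n) .n)))))

def s43_255_28 : T TT 256 :=
  (.q k1 [(.s k3 k2 0 (.s k129 k193 7 (.s k66 k192 8 (.s k67 k64 0 (.d k195 k131 k130 7 8))))), (.s
  k105 k125 5 (.s k169 k253 13 (.s k41 k233 7 (.s k61 k21 5 (.d k193 k129 k149 7 13))))), (.s k3 k2
  0 (.s k105 k125 5 (.s k169 k253 13 (.s k195 k130 8 (.s k60 k150 14 (.d k41 k22 k233 6 7))))))] .n)

def s43_255_29 : T TT 256 :=
  (.q k1 [(.s k3 k2 0 (.s k129 k193 7 (.s k66 k192 8 (.s k67 k64 0 (.d k195 k131 k130 7 8))))), (.s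
  k105 k125 5 (.s k169 k253 13 (.s k41 k233 7 (.s k61 k21 5 (.d k193 k129 k149 7 13))))), (.s k3 k2
  0 (.s k105 k125 5 (.s k169 k253 13 (.s k195 k130 8 (.s k60 k150 14 (.d k41 k22 k233 6 7))))))] .n)

def s43_255_30 : T TT 256 :=
  (.q k1 [(.s k3 k2 0 (.s k129 k193 7 (.s k66 k192 8 (.s k67 k64 0 (.d k195 k131 k130 7 8))))), (.s
  k105 k125 5 (.s k169 k253 13 (.s k41 k233 7 (.s k61 k21 5 (.d k193 k129 k149 7 13))))), (.s k3 k2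
  0 (.s k105 k125 5 (.s k169 k253 13 (.s k195 k130 8 (.s k60 k150 14 (.d k41 k22 k233 6 7))))))] .n)

def s43_255_31 : T TT 256 :=
  (.q k1 [(.s k3 k2 0 (.s k129 k193 7 (.s k66 k192 8 (.s k67 k64 0 (.d k195 k131 k130 7 8))))), (.s
  k105 k125 5 (.s k169 k253 13 (.s k41 k233 7 (.s k61 k21 5 (.d k193 k129 k149 7 13))))), (.s k3 k2
  0 (.s k105 k125 5 (.s k169 k253 13 (.s k195 k130 8 (.s k60 k150 14 (.d k41 k22 k233 6 7))))))] .n)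

def s43_255_32 : T TT 256 :=
  (.q k1 [(.s k3 k2 0 (.s k129 k193 7 (.s k66 k192 8 (.s k67 k64 0 (.d k195 k131 k130 7 8))))), (.s
  k105 k125 5 (.s k169 k253 13 (.s k41 k233 7 (.s k61 k21 5 (.d k193 k129 k149 7 13))))), (.s k3 k2
  0 (.s k105 k125 5 (.s k169 k253 13 (.s k195 k130 8 (.s k60 k150 14 (.d k41 k22 k233 6 7))))))] .n)

def s43_255_33 : T TT 256 :=
  (.q k1 [(.s k3 k2 0 (.s k129 k193 7 (.s k66 k192 8 (.s k67 k64 0 (.d k195 k131 k130 7 8))))), (.s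
  k105 k125 5 (.s k169 k253 13 (.s k41 k233 7 (.s k61 k21 5 (.d k193 k129 k149 7 13))))), (.s k3 k2
  0 (.s k105 k125 5 (.s k169 k253 13 (.s k195 k130 8 (.s k60 k150 14 (.d k41 k22 k233 6 7))))))] .n)

def s43_255_34 : T TT 256 :=
  (.q k1 [(.s k3 k2 0 (.s k129 k193 7 (.s k66 k192 8 (.s k67 k64 0 (.d k195 k131 k130 7 8))))), (.s
  k105 k125 5 (.s k169 k253 13 (.s k41 k233 7 (.s k61 k21 5 (.d k193 k129 k149 7 13))))), (.s k3 k2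
  0 (.s k105 k125 5 (.s k169 k253 13 (.s k195 k130 8 (.s k60 k150 14 (.d k41 k22 k233 6 7))))))] .n)

def s43_255_35 : T TT 256 :=
  (.f k195 k130 8 (.f k125 k105 5 (.q k81 [(.s k97 k113 3 (.s k48 k146 12 (.s k32 k16 3 (.d k162
  k227 k243 8 12)))), (.s k89 k93 1 (.s k113 k97 3 (.s k101 k77 5 (.d k117 k121 k69 1 3)))), (.s k89
  k93 1 (.s k243 k162 12 (.s k12 k166 14 (.s k8 k4 1 (.s k73 k134 10 (.s k69 k77 1 (.d k138 k203
  k207 8 10)))))))] (.c k39 (.q k47 [(.s k97 k113 3 (.s k48 k146 12 (.s k32 k16 3 (.d k162 k227 k243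
  8 12)))), (.s k89 k93 1 (.s k113 k97 3 (.s k101 k77 5 (.d k117 k121 k69 1 3)))), (.s k89 k93 1 (.s
  k243 k162 12 (.s k12 k166 14 (.s k8 k4 1 (.s k73 k134 10 (.s k69 k77 1 (.d k138 k203 k207 8
  10)))))))] .n) (.c k47 (.q k39 [(.s k97 k113 3 (.s k48 k146 12 (.s k32 k16 3 (.d k162 k227 k243 8
  12)))), (.s k89 k93 1 (.s k113 k97 3 (.s k101 k77 5 (.d k117 k121 k69 1 3)))), (.s k89 k93 1 (.s
  k243 k162 12 (.s k12 k166 14 (.s k8 k4 1 (.s k73 k134 10 (.s k69 k77 1 (.d k138 k203 k207 8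
  10)))))))] .n) .n)))))

def s43_255_36 : T TT 256 :=
  (.q k1 [(.s k3 k2 0 (.s k129 k193 7 (.s k66 k192 8 (.s k67 k64 0 (.d k195 k131 k130 7 8))))), (.s
  k105 k125 5 (.s k169 k253 13 (.s k41 k233 7 (.s k61 k21 5 (.d k193 k129 k149 7 13))))), (.s k3 k2
  0 (.s k105 k125 5 (.s k169 k253 13 (.s k195 k130 8 (.s k60 k150 14 (.d k41 k22 k233 6 7))))))] .n)

def s43_255_37 : T TT 256 :=
  (.q k1 [(.s k3 k2 0 (.s k129 k193 7 (.s k66 k192 8 (.s k67 k64 0 (.d k195 k131 k130 7 8))))), (.s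
  k105 k125 5 (.s k169 k253 13 (.s k41 k233 7 (.s k61 k21 5 (.d k193 k129 k149 7 13))))), (.s k3 k2
  0 (.s k105 k125 5 (.s k169 k253 13 (.s k195 k130 8 (.s k60 k150 14 (.d k41 k22 k233 6 7))))))] .n)

def s43_255_38 : T TT 256 :=
  (.q k1 [(.s k3 k2 0 (.s k129 k193 7 (.s k66 k192 8 (.s k67 k64 0 (.d k195 k131 k130 7 8))))), (.s
  k105 k125 5 (.s k169 k253 13 (.s k41 k233 7 (.s k61 k21 5 (.d k193 k129 k149 7 13))))), (.s k3 k2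
  0 (.s k105 k125 5 (.s k169 k253 13 (.s k195 k130 8 (.s k60 k150 14 (.d k41 k22 k233 6 7))))))] .n)

def s43_255_39 : T TT 256 :=
  (.f k195 k130 8 (.f k125 k105 5 (.q k81 [(.s k97 k113 3 (.s k48 k146 12 (.s k32 k16 3 (.d k162
  k227 k243 8 12)))), (.s k89 k93 1 (.s k113 k97 3 (.s k101 k77 5 (.d k117 k121 k69 1 3)))), (.s k89
  k93 1 (.s k243 k162 12 (.s k12 k166 14 (.s k8 k4 1 (.s k73 k134 10 (.s k69 k77 1 (.d k138 k203
  k207 8 10)))))))] (.c k35 (.q k47 [(.s k97 k113 3 (.s k48 k146 12 (.s k32 k16 3 (.d k162 k227 k243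
  8 12)))), (.s k89 k93 1 (.s k113 k97 3 (.s k101 k77 5 (.d k117 k121 k69 1 3)))), (.s k89 k93 1 (.s
  k243 k162 12 (.s k12 k166 14 (.s k8 k4 1 (.s k73 k134 10 (.s k69 k77 1 (.d k138 k203 k207 8
  10)))))))] .n) (.c k47 (.q k35 [(.s k97 k113 3 (.s k48 k146 12 (.s k32 k16 3 (.d k162 k227 k243 8
  12)))), (.s k89 k93 1 (.s k113 k97 3 (.s k101 k77 5 (.d k117 k121 k69 1 3)))), (.s k89 k93 1 (.s
  k243 k162 12 (.s k12 k166 14 (.s k8 k4 1 (.s k73 k134 10 (.s k69 k77 1 (.d k138 k203 k207 8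
  10)))))))] .n) .n)))))

def s43_255_40 : T TT 256 :=
  (.f k105 k125 5 (.f k195 k130 8 (.f k60 k150 14 (.q k41 [(.s k3 k22 6 (.s k169 k233 7 (.d k1 k2
  k253 0 13))), (.s k169 k233 7 (.s k1 k253 13 (.s k61 k21 5 (.d k193 k129 k149 7 13)))), (.s k3 k22
  6 (.s k1 k2 0 (.s k61 k21 5 (.d k193 k129 k149 7 13))))] (.c k1 (.l (.s k3 k22 6 (.s k67 k131 7
  (.s k86 k124 6 (.d k169 k233 k252 7 14))))) (.c k170 (.q k190 [(.s k3 k22 6 (.s k169 k233 7 (.d k1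
  k2 k253 0 13))), (.s k169 k233 7 (.s k1 k253 13 (.s k61 k21 5 (.d k193 k129 k149 7 13)))), (.s k3
  k22 6 (.s k1 k2 0 (.s k61 k21 5 (.d k193 k129 k149 7 13))))] (.c k1 (.l (.s k3 k22 6 (.s k67 k131
  7 (.s k86 k124 6 (.d k169 k233 k252 7 14))))) .n)) (.c k190 (.q k170 [(.s k3 k22 6 (.s k169 k233 7
  (.d k1 k2 k253 0 13))), (.s k169 k233 7 (.s k1 k253 13 (.s k61 k21 5 (.d k193 k129 k149 7 13)))),
  (.s k3 k22 6 (.s k1 k2 0 (.s k61 k21 5 (.d k193 k129 k149 7 13))))] (.c k1 (.l (.s k3 k22 6 (.s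
  k67 k131 7 (.s k86 k124 6 (.d k169 k233 k252 7 14))))) .n)) .n)))))))

def s43_255_41 : T TT 256 :=
  (.f k105 k125 5 (.f k195 k130 8 (.f k60 k150 14 (.f k40 k20 5 (.q k104 [(.s k106 k107 0 (.s k192
  k148 13 (.d k64 k127 k128 6 7))), (.s k148 k192 13 (.s k168 k232 7 (.s k188 k128 5 (.d k252 k124
  k84 7 13)))), (.s k106 k107 0 (.s k64 k127 6 (.s k67 k66 0 (.d k124 k84 k86 5 6))))] (.c k84 (.l
  (.s k106 k107 0 (.s k64 k127 6 (.d k192 k128 k148 7 13)))) (.c k106 (.l (.s k192 k148 13 (.s k64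
  k128 7 (.s k67 k66 0 (.d k124 k84 k86 5 6))))) (.c k170 (.q k190 [(.s k106 k107 0 (.s k192 k148 13
  (.d k64 k127 k128 6 7))), (.s k148 k192 13 (.s k168 k232 7 (.s k188 k128 5 (.d k252 k124 k84 7
  13)))), (.s k106 k107 0 (.s k64 k127 6 (.s k67 k66 0 (.d k124 k84 k86 5 6))))] (.c k84 (.l (.s
  k106 k107 0 (.s k64 k127 6 (.d k192 k128 k148 7 13)))) (.c k106 (.l (.s k192 k148 13 (.s k64 k128
  7 (.s k67 k66 0 (.d k124 k84 k86 5 6))))) .n))) (.c k190 (.l (.s k170 k235 8 (.s k192 k148 13 (.s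
  k64 k128 7 (.d k106 k107 k127 0 6))))) .n)))))))))

def s43_255_42 : T TT 256 :=
  (.f k105 k125 5 (.f k195 k130 8 (.f k60 k150 14 (.f k40 k20 5 (.q k106 [(.s k104 k107 0 (.s k192
  k148 13 (.d k64 k127 k128 6 7))), (.s k64 k127 6 (.s k192 k128 7 (.s k193 k194 0 (.d k149 k63 k61
  14 13)))), (.s k104 k107 0 (.s k192 k148 13 (.s k193 k194 0 (.d k149 k61 k63 13 14)))), (.s k64
  k127 6 (.s k67 k66 0 (.s k104 k107 0 (.d k124 k84 k86 5 6))))] (.c k170 (.q k190 [(.s k104 k107 0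
  (.s k192 k148 13 (.d k64 k127 k128 6 7))), (.s k64 k127 6 (.s k192 k128 7 (.s k193 k194 0 (.d k149
  k63 k61 14 13)))), (.s k104 k107 0 (.s k192 k148 13 (.s k193 k194 0 (.d k149 k61 k63 13 14)))),
  (.s k64 k127 6 (.s k67 k66 0 (.s k104 k107 0 (.d k124 k84 k86 5 6))))] .n) (.c k190 (.l (.s k170
  k235 8 (.s k64 k127 6 (.s k192 k128 7 (.d k104 k107 k148 0 13))))) .n)))))))

def s43_255_44 : T TT 256 :=
  (.q k1 [(.s k3 k2 0 (.s k129 k193 7 (.s k66 k192 8 (.s k67 k64 0 (.d k195 k131 k130 7 8))))), (.s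
  k105 k125 5 (.s k169 k253 13 (.s k41 k233 7 (.s k61 k21 5 (.d k193 k129 k149 7 13))))), (.s k3 k2
  0 (.s k105 k125 5 (.s k169 k253 13 (.s k195 k130 8 (.s k60 k150 14 (.d k41 k22 k233 6 7))))))] .n)

def s43_255_45 : T TT 256 :=
  (.q k1 [(.s k3 k2 0 (.s k129 k193 7 (.s k66 k192 8 (.s k67 k64 0 (.d k195 k131 k130 7 8))))), (.s
  k105 k125 5 (.s k169 k253 13 (.s k41 k233 7 (.s k61 k21 5 (.d k193 k129 k149 7 13))))), (.s k3 k2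
  0 (.s k105 k125 5 (.s k169 k253 13 (.s k195 k130 8 (.s k60 k150 14 (.d k41 k22 k233 6 7))))))] .n)

def s43_255_46 : T TT 256 :=
  (.q k1 [(.s k3 k2 0 (.s k129 k193 7 (.s k66 k192 8 (.s k67 k64 0 (.d k195 k131 k130 7 8))))), (.s
  k105 k125 5 (.s k169 k253 13 (.s k41 k233 7 (.s k61 k21 5 (.d k193 k129 k149 7 13))))), (.s k3 k2
  0 (.s k105 k125 5 (.s k169 k253 13 (.s k195 k130 8 (.s k60 k150 14 (.d k41 k22 k233 6 7))))))] .n)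

def s43_255_47 : T TT 256 :=
  (.f k195 k130 8 (.f k125 k105 5 (.q k81 [(.s k97 k113 3 (.s k48 k146 12 (.s k32 k16 3 (.d k162
  k227 k243 8 12)))), (.s k89 k93 1 (.s k113 k97 3 (.s k101 k77 5 (.d k117 k121 k69 1 3)))), (.s k89
  k93 1 (.s k243 k162 12 (.s k12 k166 14 (.s k8 k4 1 (.s k73 k134 10 (.s k69 k77 1 (.d k138 k203
  k207 8 10)))))))] (.c k35 (.q k39 [(.s k97 k113 3 (.s k48 k146 12 (.s k32 k16 3 (.d k162 k227 k243
  8 12)))), (.s k89 k93 1 (.s k113 k97 3 (.s k101 k77 5 (.d k117 k121 k69 1 3)))), (.s k89 k93 1 (.s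
  k243 k162 12 (.s k12 k166 14 (.s k8 k4 1 (.s k73 k134 10 (.s k69 k77 1 (.d k138 k203 k207 8
  10)))))))] .n) (.c k39 (.q k35 [(.s k97 k113 3 (.s k48 k146 12 (.s k32 k16 3 (.d k162 k227 k243 8
  12)))), (.s k89 k93 1 (.s k113 k97 3 (.s k101 k77 5 (.d k117 k121 k69 1 3)))), (.s k89 k93 1 (.s
  k243 k162 12 (.s k12 k166 14 (.s k8 k4 1 (.s k73 k134 10 (.s k69 k77 1 (.d k138 k203 k207 8
  10)))))))] .n) .n)))))

def s43_255_48 : T TT 256 :=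
  (.q k69 [(.s k77 k73 1 (.s k125 k105 5 (.s k93 k109 3 (.s k89 k81 1 (.d k101 k117 k113 3 5))))),
  (.s k73 k77 1 (.s k195 k130 8 (.s k12 k134 10 (.s k8 k4 1 (.d k138 k203 k207 8 10))))), (.s k105
  k125 5 (.s k195 k130 8 (.s k60 k150 14 (.s k207 k138 10 (.s k109 k158 12 (.d k101 k117 k97 3
  1))))))] (.c k117 (.q k186 [(.s k73 k77 1 (.s k195 k130 8 (.s k12 k134 10 (.s k8 k4 1 (.d k138
  k203 k207 8 10))))), (.s k105 k125 5 (.s k138 k207 10 (.s k195 k130 8 (.s k60 k150 14 (.s k40 k20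
  5 (.d k170 k154 k235 3 8)))))), (.s k73 k77 1 (.s k105 k125 5 (.s k138 k207 10 (.s k154 k170 3 (.d
  k203 k8 k56 8 12)))))] (.c k138 (.l (.s k73 k77 1 (.s k105 k125 5 (.s k195 k130 8 (.s k134 k12 10
  (.s k4 k199 8 (.s k166 k247 12 (.d k150 k182 k60 3 14)))))))) (.c k207 (.l (.s k73 k77 1 (.s k105
  k125 5 (.s k195 k130 8 (.s k12 k134 10 (.s k4 k8 1 (.s k166 k247 12 (.d k89 k121 k243 3 14))))))))
  .n))) (.c k186 (.l (.s k117 k101 3 (.s k73 k77 1 (.s k195 k130 8 (.s k12 k134 10 (.s k8 k4 1 (.d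
  k138 k207 k203 10 8))))))) .n)))

def s43_255_49 : T TT 256 :=
  (.q k1 [(.s k3 k2 0 (.s k195 k130 8 (.s k67 k131 7 (.s k66 k64 0 (.d k129 k193 k192 7 8))))), (.s
  k105 k125 5 (.s k169 k253 13 (.s k41 k233 7 (.s k61 k21 5 (.d k193 k129 k149 7 13))))), (.s k3 k2
  0 (.s k105 k125 5 (.s k169 k253 13 (.s k195 k130 8 (.s k60 k150 14 (.d k41 k22 k233 6 7))))))] .n)

def s43_255_50 : T TT 256 :=
  (.q k1 [(.s k3 k2 0 (.s k129 k193 7 (.s k66 k192 8 (.s k67 k64 0 (.d k195 k131 k130 7 8))))), (.s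
  k105 k125 5 (.s k169 k253 13 (.s k41 k233 7 (.s k61 k21 5 (.d k193 k129 k149 7 13))))), (.s k3 k2
  0 (.s k105 k125 5 (.s k169 k253 13 (.s k195 k130 8 (.s k60 k150 14 (.d k41 k22 k233 6 7))))))] .n)

def s43_255_51 : T TT 256 :=
  (.f k125 k105 5 (.f k195 k130 8 (.q k81 [(.s k97 k113 3 (.s k48 k146 12 (.s k32 k16 3 (.d k162
  k227 k243 8 12)))), (.s k89 k93 1 (.s k113 k97 3 (.s k101 k77 5 (.d k117 k121 k69 1 3)))), (.s k89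
  k93 1 (.s k243 k162 12 (.s k12 k166 14 (.s k8 k4 1 (.s k73 k134 10 (.s k69 k77 1 (.d k138 k203
  k207 8 10)))))))] (.c k119 (.q k187 [(.s k97 k113 3 (.s k48 k146 12 (.s k32 k16 3 (.d k162 k227
  k243 8 12)))), (.s k89 k93 1 (.s k113 k97 3 (.s k101 k77 5 (.d k117 k121 k69 1 3)))), (.s k89 k93
  1 (.s k243 k162 12 (.s k12 k166 14 (.s k8 k4 1 (.s k73 k134 10 (.s k69 k77 1 (.d k138 k203 k207 8
  10)))))))] .n) (.c k187 (.q k119 [(.s k97 k113 3 (.s k48 k146 12 (.s k32 k16 3 (.d k162 k227 k243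
  8 12)))), (.s k89 k93 1 (.s k102 k68 4 (.s k115 k76 6 (.s k64 k98 4 (.d k127 k123 k106 1 6)))))]
  .n) .n)))))

def s43_255_52 : T TT 256 :=
  (.q k1 [(.s k3 k2 0 (.s k129 k193 7 (.s k66 k192 8 (.s k67 k64 0 (.d k195 k131 k130 7 8))))), (.s
  k105 k125 5 (.s k169 k253 13 (.s k41 k233 7 (.s k61 k21 5 (.d k193 k129 k149 7 13))))), (.s k3 k2
  0 (.s k105 k125 5 (.s k169 k253 13 (.s k195 k130 8 (.s k60 k150 14 (.d k41 k22 k233 6 7))))))] .n)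

def s43_255_53 : T TT 256 :=
  (.q k1 [(.s k3 k2 0 (.s k129 k193 7 (.s k66 k192 8 (.s k67 k64 0 (.d k195 k131 k130 7 8))))), (.s
  k105 k125 5 (.s k169 k253 13 (.s k41 k233 7 (.s k61 k21 5 (.d k193 k129 k149 7 13))))), (.s k3 k2
  0 (.s k105 k125 5 (.s k169 k253 13 (.s k195 k130 8 (.s k60 k150 14 (.d k41 k22 k233 6 7))))))] .n)

def s43_255_54 : T TT 256 :=
  (.q k1 [(.s k3 k2 0 (.s k129 k193 7 (.s k66 k192 8 (.s k67 k64 0 (.d k195 k131 k130 7 8))))), (.s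
  k105 k125 5 (.s k169 k253 13 (.s k41 k233 7 (.s k61 k21 5 (.d k193 k129 k149 7 13))))), (.s k3 k2
  0 (.s k105 k125 5 (.s k169 k253 13 (.s k195 k130 8 (.s k60 k150 14 (.d k41 k22 k233 6 7))))))] .n)

def s43_255_55 : T TT 256 :=
  (.q k1 [(.s k3 k2 0 (.s k129 k193 7 (.s k66 k192 8 (.s k67 k64 0 (.d k195 k131 k130 7 8))))), (.s
  k105 k125 5 (.s k169 k253 13 (.s k41 k233 7 (.s k61 k21 5 (.d k193 k129 k149 7 13))))), (.s k3 k2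
  0 (.s k105 k125 5 (.s k169 k253 13 (.s k195 k130 8 (.s k60 k150 14 (.d k41 k22 k233 6 7))))))] .n)

def s43_255_56 : T TT 256 :=
  (.q k1 [(.s k3 k2 0 (.s k129 k193 7 (.s k66 k192 8 (.s k67 k64 0 (.d k195 k131 k130 7 8))))), (.s
  k105 k125 5 (.s k169 k253 13 (.s k41 k233 7 (.s k61 k21 5 (.d k193 k129 k149 7 13))))), (.s k3 k2
  0 (.s k105 k125 5 (.s k169 k253 13 (.s k195 k130 8 (.s k60 k150 14 (.d k41 k22 k233 6 7))))))] .n)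

def s43_255_57 : T TT 256 :=
  (.q k1 [(.s k3 k2 0 (.s k129 k193 7 (.s k66 k192 8 (.s k67 k64 0 (.d k195 k131 k130 7 8))))), (.s
  k105 k125 5 (.s k169 k253 13 (.s k41 k233 7 (.s k61 k21 5 (.d k193 k129 k149 7 13))))), (.s k3 k2
  0 (.s k105 k125 5 (.s k169 k253 13 (.s k195 k130 8 (.s k60 k150 14 (.d k41 k22 k233 6 7))))))] .n)

def s43_255_58 : T TT 256 :=
  (.q k1 [(.s k3 k2 0 (.s k129 k193 7 (.s k66 k192 8 (.s k67 k64 0 (.d k195 k131 k130 7 8))))), (.s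
  k105 k125 5 (.s k169 k253 13 (.s k41 k233 7 (.s k61 k21 5 (.d k193 k129 k149 7 13))))), (.s k3 k2
  0 (.s k105 k125 5 (.s k169 k253 13 (.s k195 k130 8 (.s k60 k150 14 (.d k41 k22 k233 6 7))))))] .n)

def s43_255_59 : T TT 256 :=
  (.f k195 k130 8 (.f k125 k105 5 (.q k81 [(.s k97 k113 3 (.s k48 k146 12 (.s k32 k16 3 (.d k162
  k227 k243 8 12)))), (.s k89 k93 1 (.s k113 k97 3 (.s k101 k77 5 (.d k117 k121 k69 1 3)))), (.s k89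
  k93 1 (.s k243 k162 12 (.s k12 k166 14 (.s k8 k4 1 (.s k73 k134 10 (.s k69 k77 1 (.d k138 k203
  k207 8 10)))))))] (.c k11 (.q k27 [(.s k97 k113 3 (.s k48 k146 12 (.s k32 k16 3 (.d k162 k227 k243
  8 12)))), (.s k89 k93 1 (.s k113 k97 3 (.s k101 k77 5 (.d k117 k121 k69 1 3)))), (.s k89 k93 1 (.s
  k243 k162 12 (.s k12 k166 14 (.s k8 k4 1 (.s k73 k134 10 (.s k69 k77 1 (.d k138 k203 k207 8
  10)))))))] .n) (.c k27 (.q k11 [(.s k97 k113 3 (.s k48 k146 12 (.s k32 k16 3 (.d k162 k227 k243 8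
  12)))), (.s k89 k93 1 (.s k113 k97 3 (.s k101 k77 5 (.d k117 k121 k69 1 3)))), (.s k89 k93 1 (.s
  k243 k162 12 (.s k12 k166 14 (.s k8 k4 1 (.s k73 k134 10 (.s k69 k77 1 (.d k138 k203 k207 8
  10)))))))] .n) .n)))))

def s43_255_60 : T TT 256 :=
  (.q k81 [(.s k97 k113 3 (.s k195 k130 8 (.s k48 k146 12 (.s k32 k16 3 (.d k162 k227 k243 8
  12))))), (.s k89 k93 1 (.s k113 k97 3 (.s k77 k101 5 (.s k73 k69 1 (.d k105 k125 k121 5 3))))),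
  (.s k89 k93 1 (.s k195 k130 8 (.s k243 k162 12 (.s k12 k166 14 (.s k73 k134 10 (.d k105 k125 k121
  5 3))))))] (.c k125 (.q k190 [(.s k195 k130 8 (.s k243 k162 12 (.s k211 k227 3 (.s k146 k16 8 (.d
  k97 k113 k48 3 12))))), (.s k89 k93 1 (.s k130 k195 8 (.s k243 k162 12 (.s k12 k166 14 (.s k8 k4 1
  (.d k170 k150 k251 5 12)))))), (.s k89 k93 1 (.s k113 k97 3 (.s k77 k101 5 (.s k69 k73 1 (.s k207
  k138 10 (.s k243 k162 12 (.d k12 k142 k166 8 14))))))), (.s k89 k93 1 (.s k130 k195 8 (.s k150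
  k170 5 (.s k211 k28 10 (.s k16 k146 8 (.s k215 k20 8 (.d k223 k219 k154 1 10)))))))] .n) (.c k190
  (.l (.s k125 k105 5 (.s k89 k93 1 (.s k113 k97 3 (.s k101 k77 5 (.d k117 k121 k69 1 3)))))) .n)))

def s43_255_61 : T TT 256 :=
  (.q k3 [(.s k1 k2 0 (.s k195 k130 8 (.s k67 k131 7 (.s k66 k64 0 (.d k129 k193 k192 7 8))))), (.s
  k105 k125 5 (.s k195 k130 8 (.s k60 k150 14 (.s k41 k22 6 (.s k169 k233 7 (.d k1 k253 k2 13
  0)))))), (.s k105 k125 5 (.s k195 k130 8 (.s k67 k131 7 (.s k86 k124 6 (.s k84 k87 0 (.d k252 k168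
  k169 13 14))))))] (.c k130 (.l (.s k1 k2 0 (.s k105 k125 5 (.s k129 k193 7 (.s k66 k192 8 (.s k67
  k64 0 (.s k86 k124 6 (.d k169 k253 k252 13 14)))))))) (.c k195 (.l (.s k1 k2 0 (.s k129 k193 7 (.s
  k169 k253 13 (.s k192 k66 8 (.s k64 k128 7 (.s k106 k127 6 (.d k149 k189 k63 5 14)))))))) .n)))

def s43_255_62 : T TT 256 :=
  (.q k1 [(.s k3 k2 0 (.s k129 k193 7 (.s k66 k192 8 (.s k67 k64 0 (.d k195 k131 k130 7 8))))), (.s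
  k105 k125 5 (.s k169 k253 13 (.s k41 k233 7 (.s k61 k21 5 (.d k193 k129 k149 7 13))))), (.s k3 k2
  0 (.s k105 k125 5 (.s k169 k253 13 (.s k195 k130 8 (.s k60 k150 14 (.d k41 k22 k233 6 7))))))] .n)

def s43_255_63 : T TT 256 :=
  (.f k195 k130 8 (.q k3 [(.s k1 k2 0 (.s k67 k131 7 (.s k66 k64 0 (.d k129 k193 k192 7 8)))), (.s
  k67 k131 7 (.s k105 k125 5 (.s k86 k124 6 (.s k84 k87 0 (.d k252 k168 k169 13 14))))), (.s k1 k2 0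
  (.s k105 k125 5 (.s k60 k150 14 (.s k41 k22 6 (.d k169 k233 k253 7 13)))))] (.c k127 (.q k191 [(.s
  k1 k2 0 (.s k67 k131 7 (.s k66 k64 0 (.d k129 k193 k192 7 8)))), (.s k105 k125 5 (.s k60 k150 14
  (.s k41 k22 6 (.s k169 k233 7 (.d k1 k2 k253 0 13))))), (.s k67 k131 7 (.s k105 k125 5 (.s k60
  k150 14 (.s k41 k22 6 (.s k169 k233 7 (.d k86 k124 k252 6 14))))))] .n) (.c k191 (.q k127 [(.s k64
  k106 6 (.d k67 k66 k131 0 7)), (.s k67 k131 7 (.s k87 k107 5 (.s k86 k84 0 (.d k105 k125 k124 5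
  6)))), (.s k1 k2 0 (.s k64 k106 6 (.s k129 k193 7 (.d k192 k66 k128 8 7))))] .n) .n))))

def s43_255_64 : T TT 256 :=
  (.q k1 [(.s k105 k125 5 (.s k193 k129 7 (.s k149 k61 13 (.s k213 k21 7 (.d k253 k233 k169 5
  13))))), (.s k3 k2 0 (.s k169 k253 13 (.s k195 k130 8 (.s k131 k67 7 (.s k150 k188 6 (.s k20 k215
  8 (.d k60 k40 k105 5 14))))))), (.s k3 k2 0 (.s k129 k193 7 (.s k169 k253 13 (.s k149 k189 5 (.s
  k192 k66 8 (.s k63 k106 14 (.d k21 k213 k42 7 6))))))), (.s k3 k2 0 (.s k105 k125 5 (.s k193 k129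
  7 (.s k195 k130 8 (.s k60 k150 14 (.s k41 k22 6 (.d k61 k21 k149 5 13)))))))] .n)

def s43_255_66 : T TT 256 :=
  (.q k69 [(.s k77 k73 1 (.s k101 k117 3 (.s k89 k113 5 (.s k93 k81 1 (.d k125 k109 k105 3 5))))),
  (.s k73 k77 1 (.s k138 k207 10 (.s k8 k203 8 (.s k12 k4 1 (.d k195 k130 k134 8 10))))), (.s k101
  k117 3 (.s k105 k125 5 (.s k109 k97 1 (.s k195 k130 8 (.s k60 k150 14 (.d k207 k138 k158 10
  12))))))] .n)

def s43_255_67 : T TT 256 :=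
  (.q k1 [(.s k3 k2 0 (.s k129 k193 7 (.s k192 k66 8 (.s k128 k64 7 (.d k130 k131 k195 0 8))))), (.s
  k105 k125 5 (.s k169 k253 13 (.s k41 k233 7 (.s k61 k21 5 (.d k193 k129 k149 7 13))))), (.s k3 k2
  0 (.s k105 k125 5 (.s k169 k253 13 (.s k195 k130 8 (.s k60 k150 14 (.d k41 k22 k233 6 7))))))] .n)

def s43_255_68 : T TT 256 :=
  (.q k1 [(.s k3 k2 0 (.s k129 k193 7 (.s k130 k195 8 (.s k128 k131 0 (.d k192 k64 k66 7 8))))), (.s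
  k105 k125 5 (.s k169 k253 13 (.s k41 k233 7 (.s k61 k21 5 (.d k193 k129 k149 7 13))))), (.s k3 k2
  0 (.s k105 k125 5 (.s k169 k253 13 (.s k195 k130 8 (.s k60 k150 14 (.d k41 k22 k233 6 7))))))] .n)

def s43_255_69 : T TT 256 :=
  (.q k1 [(.s k3 k2 0 (.s k129 k193 7 (.s k130 k195 8 (.s k128 k131 0 (.d k192 k64 k66 7 8))))), (.s
  k105 k125 5 (.s k169 k253 13 (.s k41 k233 7 (.s k61 k21 5 (.d k193 k129 k149 7 13))))), (.s k3 k2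
  0 (.s k105 k125 5 (.s k169 k253 13 (.s k195 k130 8 (.s k60 k150 14 (.d k41 k22 k233 6 7))))))] .n)

def s43_255_70 : T TT 256 :=
  (.q k1 [(.s k3 k2 0 (.s k129 k193 7 (.s k66 k192 8 (.s k67 k64 0 (.d k195 k131 k130 7 8))))), (.s
  k105 k125 5 (.s k169 k253 13 (.s k41 k233 7 (.s k61 k21 5 (.d k193 k129 k149 7 13))))), (.s k3 k2
  0 (.s k105 k125 5 (.s k169 k253 13 (.s k195 k130 8 (.s k60 k150 14 (.d k41 k22 k233 6 7))))))] .n)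

def s43_255_71 : T TT 256 :=
  (.q k1 [(.s k3 k2 0 (.s k129 k193 7 (.s k66 k192 8 (.s k67 k64 0 (.d k195 k131 k130 7 8))))), (.s
  k105 k125 5 (.s k169 k253 13 (.s k41 k233 7 (.s k61 k21 5 (.d k193 k129 k149 7 13))))), (.s k3 k2
  0 (.s k105 k125 5 (.s k169 k253 13 (.s k195 k130 8 (.s k60 k150 14 (.d k41 k22 k233 6 7))))))] .n)

def s43_255_72 : T TT 256 :=
  (.q k1 [(.s k3 k2 0 (.s k129 k193 7 (.s k130 k195 8 (.s k128 k131 0 (.d k192 k64 k66 7 8))))), (.s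
  k105 k125 5 (.s k169 k253 13 (.s k41 k233 7 (.s k61 k21 5 (.d k193 k129 k149 7 13))))), (.s k3 k2
  0 (.s k105 k125 5 (.s k169 k253 13 (.s k195 k130 8 (.s k60 k150 14 (.d k41 k22 k233 6 7))))))] .n)

def s43_255_73 : T TT 256 :=
  (.q k1 [(.s k3 k2 0 (.s k195 k130 8 (.s k67 k131 7 (.s k66 k64 0 (.d k129 k193 k192 7 8))))), (.s
  k105 k125 5 (.s k169 k253 13 (.s k41 k233 7 (.s k61 k21 5 (.d k193 k129 k149 7 13))))), (.s k3 k2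
  0 (.s k105 k125 5 (.s k169 k253 13 (.s k195 k130 8 (.s k60 k150 14 (.d k41 k22 k233 6 7))))))] .n)

def s43_255_74 : T TT 256 :=
  (.q k1 [(.s k3 k2 0 (.s k129 k193 7 (.s k130 k195 8 (.s k128 k131 0 (.d k192 k64 k66 7 8))))), (.s
  k105 k125 5 (.s k169 k253 13 (.s k41 k233 7 (.s k61 k21 5 (.d k193 k129 k149 7 13))))), (.s k3 k2
  0 (.s k105 k125 5 (.s k169 k253 13 (.s k195 k130 8 (.s k60 k150 14 (.d k41 k22 k233 6 7))))))] .n)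

def s43_255_75 : T TT 256 :=
  (.q k1 [(.s k3 k2 0 (.s k129 k193 7 (.s k66 k192 8 (.s k67 k64 0 (.d k195 k131 k130 7 8))))), (.s
  k105 k125 5 (.s k169 k253 13 (.s k41 k233 7 (.s k61 k21 5 (.d k193 k129 k149 7 13))))), (.s k3 k2
  0 (.s k105 k125 5 (.s k169 k253 13 (.s k195 k130 8 (.s k60 k150 14 (.d k41 k22 k233 6 7))))))] .n)

def s43_255_76 : T TT 256 :=
  (.q k1 [(.s k3 k2 0 (.s k129 k193 7 (.s k130 k195 8 (.s k128 k131 0 (.d k192 k64 k66 7 8))))), (.s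
  k105 k125 5 (.s k169 k253 13 (.s k41 k233 7 (.s k61 k21 5 (.d k193 k129 k149 7 13))))), (.s k3 k2
  0 (.s k105 k125 5 (.s k169 k253 13 (.s k195 k130 8 (.s k60 k150 14 (.d k41 k22 k233 6 7))))))] .n)

def s43_255_77 : T TT 256 :=
  (.q k1 [(.s k3 k2 0 (.s k129 k193 7 (.s k66 k192 8 (.s k67 k64 0 (.d k195 k131 k130 7 8))))), (.s
  k105 k125 5 (.s k169 k253 13 (.s k41 k233 7 (.s k61 k21 5 (.d k193 k129 k149 7 13))))), (.s k3 k2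
  0 (.s k105 k125 5 (.s k169 k253 13 (.s k195 k130 8 (.s k60 k150 14 (.d k41 k22 k233 6 7))))))] .n)

def s43_255_78 : T TT 256 :=
  (.q k1 [(.s k3 k2 0 (.s k129 k193 7 (.s k66 k192 8 (.s k67 k64 0 (.d k195 k131 k130 7 8))))), (.s
  k105 k125 5 (.s k169 k253 13 (.s k41 k233 7 (.s k61 k21 5 (.d k193 k129 k149 7 13))))), (.s k3 k2
  0 (.s k105 k125 5 (.s k169 k253 13 (.s k195 k130 8 (.s k60 k150 14 (.d k41 k22 k233 6 7))))))] .n)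

def s43_255_79 : T TT 256 :=
  (.q k1 [(.s k3 k2 0 (.s k129 k193 7 (.s k130 k195 8 (.s k128 k131 0 (.d k192 k64 k66 7 8))))), (.s
  k105 k125 5 (.s k169 k253 13 (.s k41 k233 7 (.s k61 k21 5 (.d k193 k129 k149 7 13))))), (.s k3 k2
  0 (.s k105 k125 5 (.s k169 k253 13 (.s k195 k130 8 (.s k60 k150 14 (.d k41 k22 k233 6 7))))))] .n)

def s43_255_80 : T TT 256 :=
  (.q k1 [(.s k3 k2 0 (.s k129 k193 7 (.s k130 k195 8 (.s k128 k131 0 (.d k192 k64 k66 7 8))))), (.s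
  k105 k125 5 (.s k169 k253 13 (.s k41 k233 7 (.s k61 k21 5 (.d k193 k129 k149 7 13))))), (.s k3 k2
  0 (.s k105 k125 5 (.s k169 k253 13 (.s k195 k130 8 (.s k60 k150 14 (.d k41 k22 k233 6 7))))))] .n)

def s43_255_81 : T TT 256 :=
  (.q k1 [(.s k3 k2 0 (.s k129 k193 7 (.s k130 k195 8 (.s k128 k131 0 (.d k192 k64 k66 7 8))))), (.s
  k105 k125 5 (.s k169 k253 13 (.s k41 k233 7 (.s k61 k21 5 (.d k193 k129 k149 7 13))))), (.s k3 k2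
  0 (.s k105 k125 5 (.s k169 k253 13 (.s k195 k130 8 (.s k60 k150 14 (.d k41 k22 k233 6 7))))))] .n)

def s43_255_82 : T TT 256 :=
  (.q k1 [(.s k3 k2 0 (.s k129 k193 7 (.s k66 k192 8 (.s k67 k64 0 (.d k195 k131 k130 7 8))))), (.s
  k105 k125 5 (.s k169 k253 13 (.s k41 k233 7 (.s k61 k21 5 (.d k193 k129 k149 7 13))))), (.s k3 k2
  0 (.s k105 k125 5 (.s k169 k253 13 (.s k195 k130 8 (.s k60 k150 14 (.d k41 k22 k233 6 7))))))] .n)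

def s43_255_83 : T TT 256 :=
  (.q k1 [(.s k3 k2 0 (.s k129 k193 7 (.s k66 k192 8 (.s k67 k64 0 (.d k195 k131 k130 7 8))))), (.s
  k105 k125 5 (.s k169 k253 13 (.s k41 k233 7 (.s k61 k21 5 (.d k193 k129 k149 7 13))))), (.s k3 k2
  0 (.s k105 k125 5 (.s k169 k253 13 (.s k195 k130 8 (.s k60 k150 14 (.d k41 k22 k233 6 7))))))] .n)

def s43_255_84 : T TT 256 :=
  (.q k1 [(.s k3 k2 0 (.s k129 k193 7 (.s k130 k195 8 (.s k128 k131 0 (.d k192 k64 k66 7 8))))), (.s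
  k105 k125 5 (.s k169 k253 13 (.s k41 k233 7 (.s k61 k21 5 (.d k193 k129 k149 7 13))))), (.s k3 k2
  0 (.s k105 k125 5 (.s k169 k253 13 (.s k195 k130 8 (.s k60 k150 14 (.d k41 k22 k233 6 7))))))] .n)

def s43_255_86 : T TT 256 :=
  (.q k1 [(.s k3 k2 0 (.s k129 k193 7 (.s k66 k192 8 (.s k67 k64 0 (.d k195 k131 k130 7 8))))), (.s
  k105 k125 5 (.s k193 k129 7 (.s k61 k149 13 (.s k41 k21 5 (.d k169 k233 k253 7 13))))), (.s k3 k2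
  0 (.s k105 k125 5 (.s k169 k253 13 (.s k195 k130 8 (.s k60 k150 14 (.d k41 k22 k233 6 7))))))] .n)

def s43_255_87 : T TT 256 :=
  (.q k3 [(.s k1 k2 0 (.s k129 k193 7 (.s k66 k192 8 (.s k67 k64 0 (.d k195 k131 k130 7 8))))), (.s
  k105 k125 5 (.s k195 k130 8 (.s k60 k150 14 (.s k41 k22 6 (.s k67 k131 7 (.s k86 k124 6 (.d k169
  k233 k252 7 14))))))), (.s k1 k2 0 (.s k105 k125 5 (.s k169 k253 13 (.s k41 k233 7 (.s k61 k21 5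
  (.d k193 k129 k149 7 13))))))] (.c k129 (.l (.s k1 k2 0 (.s k105 k125 5 (.s k169 k253 13 (.s k41
  k233 7 (.s k60 k22 6 (.d k195 k130 k150 8 14))))))) .n))

def s43_255_88 : T TT 256 :=
  (.q k1 [(.s k3 k2 0 (.s k129 k193 7 (.s k66 k192 8 (.s k67 k64 0 (.d k195 k131 k130 7 8))))), (.s
  k105 k125 5 (.s k169 k253 13 (.s k41 k233 7 (.s k61 k21 5 (.d k193 k129 k149 7 13))))), (.s k3 k2
  0 (.s k105 k125 5 (.s k169 k253 13 (.s k195 k130 8 (.s k60 k150 14 (.d k41 k22 k233 6 7))))))] .n)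

def s43_255_89 : T TT 256 :=
  (.q k1 [(.s k3 k2 0 (.s k129 k193 7 (.s k66 k192 8 (.s k67 k64 0 (.d k195 k131 k130 7 8))))), (.s
  k105 k125 5 (.s k169 k253 13 (.s k41 k233 7 (.s k61 k21 5 (.d k193 k129 k149 7 13))))), (.s k3 k2
  0 (.s k105 k125 5 (.s k169 k253 13 (.s k195 k130 8 (.s k60 k150 14 (.d k41 k22 k233 6 7))))))] .n)

def s43_255_90 : T TT 256 :=
  (.q k1 [(.s k3 k2 0 (.s k129 k193 7 (.s k66 k192 8 (.s k67 k64 0 (.d k195 k131 k130 7 8))))), (.s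
  k105 k125 5 (.s k169 k253 13 (.s k41 k233 7 (.s k61 k21 5 (.d k193 k129 k149 7 13))))), (.s k3 k2
  0 (.s k105 k125 5 (.s k169 k253 13 (.s k195 k130 8 (.s k60 k150 14 (.d k41 k22 k233 6 7))))))] .n)

def s43_255_91 : T TT 256 :=
  (.q k1 [(.s k3 k2 0 (.s k129 k193 7 (.s k66 k192 8 (.s k67 k64 0 (.d k195 k131 k130 7 8))))), (.s
  k105 k125 5 (.s k169 k253 13 (.s k41 k233 7 (.s k61 k21 5 (.d k193 k129 k149 7 13))))), (.s k3 k2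
  0 (.s k105 k125 5 (.s k169 k253 13 (.s k195 k130 8 (.s k60 k150 14 (.d k41 k22 k233 6 7))))))] .n)

def s43_255_92 : T TT 256 :=
  (.q k1 [(.s k3 k2 0 (.s k129 k193 7 (.s k66 k192 8 (.s k67 k64 0 (.d k195 k131 k130 7 8))))), (.s
  k105 k125 5 (.s k169 k253 13 (.s k41 k233 7 (.s k61 k21 5 (.d k193 k129 k149 7 13))))), (.s k3 k2
  0 (.s k105 k125 5 (.s k169 k253 13 (.s k195 k130 8 (.s k60 k150 14 (.d k41 k22 k233 6 7))))))] .n)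

def s43_255_93 : T TT 256 :=
  (.f k195 k130 8 (.q k12 [(.s k8 k4 1 (.s k73 k134 10 (.s k138 k203 8 (.d k69 k77 k207 1 10)))),
  (.s k4 k8 1 (.s k105 k125 5 (.s k60 k150 14 (.s k44 k28 3 (.d k166 k227 k247 10 12))))), (.s k73
  k134 10 (.s k105 k125 5 (.s k60 k150 14 (.s k44 k28 3 (.s k89 k121 3 (.d k166 k227 k243 10
  14))))))] (.c k77 (.l (.s k4 k8 1 (.s k134 k73 10 (.s k166 k247 12 (.s k150 k182 3 (.d k105 k125
  k60 5 14)))))) .n)))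

def s43_255_94 : T TT 256 :=
  (.q k1 [(.s k3 k2 0 (.s k129 k193 7 (.s k66 k192 8 (.s k67 k64 0 (.d k195 k131 k130 7 8))))), (.s
  k105 k125 5 (.s k169 k253 13 (.s k41 k233 7 (.s k61 k21 5 (.d k193 k129 k149 7 13))))), (.s k3 k2
  0 (.s k105 k125 5 (.s k169 k253 13 (.s k195 k130 8 (.s k60 k150 14 (.d k41 k22 k233 6 7))))))] .n)

def s43_255_95 : T TT 256 :=
  (.f k195 k130 8 (.q k15 [(.s k5 k10 2 (.s k75 k135 9 (.s k105 k125 5 (.s k90 k120 4 (.d k165 k245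
  k240 11 14))))), (.s k5 k10 2 (.s k165 k245 11 (.s k240 k90 14 (.s k225 k210 4 (.d k105 k125 k45 5
  9))))), (.s k75 k135 9 (.s k105 k125 5 (.s k60 k150 14 (.s k45 k30 4 (.s k90 k120 4 (.d k165 k225
  k240 9 14)))))), (.s k5 k10 2 (.s k135 k75 9 (.s k165 k245 11 (.s k150 k180 4 (.s k20 k215 8 (.d
  k60 k40 k105 5 14))))))] (.c k105 (.q k1 [(.s k3 k2 0 (.s k67 k131 7 (.s k66 k64 0 (.d k129 k193
  k192 7 8)))), (.s k5 k10 2 (.s k13 k9 1 (.s k193 k129 7 (.s k73 k133 9 (.d k12 k14 k134 0 10))))),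
  (.s k3 k2 0 (.s k5 k10 2 (.s k7 k11 1 (.s k6 k4 0 (.d k9 k13 k12 1 2)))))] .n) (.c k165 (.l (.s
  k10 k5 2 (.s k75 k135 9 (.s k105 k125 5 (.s k90 k120 4 (.s k170 k250 11 (.s k40 k235 8 (.d k60
  k150 k20 14 5)))))))) (.c k240 (.l (.s k5 k10 2 (.s k105 k125 5 (.s k60 k150 14 (.s k45 k30 4 (.d
  k165 k225 k245 9 11)))))) .n)))))

def s43_255_96 : T TT 256 :=
  (.q k1 [(.s k3 k2 0 (.s k129 k193 7 (.s k130 k195 8 (.s k128 k131 0 (.d k192 k64 k66 7 8))))), (.s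
  k105 k125 5 (.s k169 k253 13 (.s k41 k233 7 (.s k61 k21 5 (.d k193 k129 k149 7 13))))), (.s k3 k2
  0 (.s k105 k125 5 (.s k169 k253 13 (.s k195 k130 8 (.s k60 k150 14 (.d k41 k22 k233 6 7))))))] .n)

def s43_255_97 : T TT 256 :=
  (.q k1 [(.s k3 k2 0 (.s k195 k130 8 (.s k67 k131 7 (.s k66 k64 0 (.d k129 k193 k192 7 8))))), (.s
  k105 k125 5 (.s k169 k253 13 (.s k41 k233 7 (.s k61 k21 5 (.d k193 k129 k149 7 13))))), (.s k3 k2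
  0 (.s k105 k125 5 (.s k169 k253 13 (.s k195 k130 8 (.s k60 k150 14 (.d k41 k22 k233 6 7))))))] .n)

def s43_255_98 : T TT 256 :=
  (.q k1 [(.s k3 k2 0 (.s k129 k193 7 (.s k130 k195 8 (.s k128 k131 0 (.d k192 k64 k66 7 8))))), (.s
  k105 k125 5 (.s k169 k253 13 (.s k41 k233 7 (.s k61 k21 5 (.d k193 k129 k149 7 13))))), (.s k3 k2
  0 (.s k105 k125 5 (.s k169 k253 13 (.s k195 k130 8 (.s k60 k150 14 (.d k41 k22 k233 6 7))))))] .n)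

def s43_255_99 : T TT 256 :=
  (.q k1 [(.s k3 k2 0 (.s k129 k193 7 (.s k66 k192 8 (.s k67 k64 0 (.d k195 k131 k130 7 8))))), (.s
  k105 k125 5 (.s k169 k253 13 (.s k41 k233 7 (.s k61 k21 5 (.d k193 k129 k149 7 13))))), (.s k3 k2
  0 (.s k105 k125 5 (.s k169 k253 13 (.s k195 k130 8 (.s k60 k150 14 (.d k41 k22 k233 6 7))))))] .n)

def s43_255_100 : T TT 256 :=
  (.q k1 [(.s k3 k2 0 (.s k129 k193 7 (.s k66 k192 8 (.s k67 k64 0 (.d k195 k131 k130 7 8))))), (.s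
  k105 k125 5 (.s k169 k253 13 (.s k41 k233 7 (.s k61 k21 5 (.d k193 k129 k149 7 13))))), (.s k3 k2
  0 (.s k105 k125 5 (.s k169 k253 13 (.s k195 k130 8 (.s k60 k150 14 (.d k41 k22 k233 6 7))))))] .n)

def s43_255_101 : T TT 256 :=
  (.q k1 [(.s k3 k2 0 (.s k129 k193 7 (.s k66 k192 8 (.s k67 k64 0 (.d k195 k131 k130 7 8))))), (.s
  k105 k125 5 (.s k169 k253 13 (.s k41 k233 7 (.s k61 k21 5 (.d k193 k129 k149 7 13))))), (.s k3 k2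
  0 (.s k105 k125 5 (.s k169 k253 13 (.s k195 k130 8 (.s k60 k150 14 (.d k41 k22 k233 6 7))))))] .n)

def s43_255_102 : T TT 256 :=
  (.q k1 [(.s k3 k2 0 (.s k129 k193 7 (.s k66 k192 8 (.s k67 k64 0 (.d k195 k131 k130 7 8))))), (.s
  k105 k125 5 (.s k169 k253 13 (.s k41 k233 7 (.s k61 k21 5 (.d k193 k129 k149 7 13))))), (.s k3 k2
  0 (.s k105 k125 5 (.s k169 k253 13 (.s k195 k130 8 (.s k60 k150 14 (.d k41 k22 k233 6 7))))))] .n)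

def s43_255_103 : T TT 256 :=
  (.q k1 [(.s k3 k2 0 (.s k129 k193 7 (.s k66 k192 8 (.s k67 k64 0 (.d k195 k131 k130 7 8))))), (.s
  k105 k125 5 (.s k169 k253 13 (.s k41 k233 7 (.s k61 k21 5 (.d k193 k129 k149 7 13))))), (.s k3 k2
  0 (.s k105 k125 5 (.s k169 k253 13 (.s k195 k130 8 (.s k60 k150 14 (.d k41 k22 k233 6 7))))))] .n)

def s43_255_104 : T TT 256 :=
  (.q k1 [(.s k3 k2 0 (.s k129 k193 7 (.s k130 k195 8 (.s k128 k131 0 (.d k192 k64 k66 7 8))))), (.s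
  k105 k125 5 (.s k169 k253 13 (.s k41 k233 7 (.s k61 k21 5 (.d k193 k129 k149 7 13))))), (.s k3 k2
  0 (.s k105 k125 5 (.s k169 k253 13 (.s k195 k130 8 (.s k60 k150 14 (.d k41 k22 k233 6 7))))))] .n)

def s43_255_105 : T TT 256 :=
  (.f k195 k130 8 (.q k81 [(.s k97 k113 3 (.s k48 k146 12 (.s k32 k16 3 (.d k162 k227 k243 8 12)))),
  (.s k89 k93 1 (.s k243 k162 12 (.s k12 k166 14 (.s k8 k4 1 (.s k73 k134 10 (.s k69 k77 1 (.d k138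
  k203 k207 8 10))))))), (.s k89 k93 1 (.s k113 k97 3 (.s k101 k77 5 (.s k69 k117 3 (.s k207 k138 10
  (.s k48 k154 14 (.d k243 k178 k162 8 12)))))))] (.c k162 (.f k97 k113 3 (.f k89 k93 1 (.f k146 k48
  12 (.l (.s k211 k16 8 (.s k150 k28 10 (.s k20 k215 8 (.s k60 k40 5 (.s k243 k227 3 (.s k182 k121
  10 (.d k166 k134 k12 3 14))))))))))) (.c k178 (.l (.s k97 k113 3 (.s k48 k146 12 (.s k162 k243 12
  (.d k32 k16 k227 3 8))))) (.c k243 (.f k113 k97 3 (.f k89 k93 1 (.f k101 k77 5 (.l (.s k69 k117 3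
  (.s k207 k138 10 (.s k48 k154 14 (.s k16 k32 3 (.s k211 k146 8 (.s k150 k28 10 (.d k199 k203 k52 1
  12))))))))))) .n)))))

def s43_255_106 : T TT 256 :=
  (.q k169 [(.s k1 k253 13 (.s k105 k125 5 (.s k41 k233 7 (.s k61 k21 5 (.d k193 k129 k149 7
  13))))), (.s k105 k125 5 (.s k195 k130 8 (.s k233 k41 7 (.s k252 k214 6 (.s k84 k168 13 (.d k86
  k87 k3 0 14)))))), (.s k1 k253 13 (.s k3 k2 0 (.s k129 k193 7 (.s k66 k192 8 (.s k67 k64 0 (.d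
  k195 k131 k130 7 8))))))] (.c k233 (.l (.s k1 k253 13 (.s k3 k2 0 (.s k105 k125 5 (.s k195 k130 8
  (.s k67 k131 7 (.d k86 k252 k124 14 6))))))) (.c k252 (.l (.s k105 k125 5 (.s k41 k233 7 (.s k195
  k130 8 (.s k60 k150 14 (.s k3 k22 6 (.d k1 k2 k253 0 13))))))) .n)))

def s43_255_107 : T TT 256 :=
  (.f k195 k130 8 (.q k3 [(.s k1 k2 0 (.s k67 k131 7 (.s k66 k64 0 (.d k129 k193 k192 7 8)))), (.s
  k67 k131 7 (.s k105 k125 5 (.s k86 k124 6 (.s k84 k87 0 (.d k252 k168 k169 13 14))))), (.s k1 k2 0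
  (.s k105 k125 5 (.s k60 k150 14 (.s k41 k22 6 (.d k169 k233 k253 7 13)))))] (.c k171 (.q k235 [(.s
  k105 k125 5 (.s k60 k150 14 (.d k40 k170 k20 8 5))), (.s k1 k2 0 (.s k67 k131 7 (.s k66 k64 0 (.d
  k129 k193 k192 7 8))))] .n) (.c k235 (.q k171 [(.s k1 k2 0 (.s k67 k131 7 (.s k66 k64 0 (.d k129
  k193 k192 7 8)))), (.s k67 k131 7 (.s k105 k125 5 (.s k86 k124 6 (.s k84 k87 0 (.d k252 k168 k169
  13 14))))), (.s k1 k2 0 (.s k169 k253 13 (.s k168 k170 0 (.d k252 k86 k84 14 13))))] .n) .n))))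

def s43_255_108 : T TT 256 :=
  (.q k1 [(.s k3 k2 0 (.s k129 k193 7 (.s k66 k192 8 (.s k67 k64 0 (.d k195 k131 k130 7 8))))), (.s
  k105 k125 5 (.s k169 k253 13 (.s k41 k233 7 (.s k61 k21 5 (.d k193 k129 k149 7 13))))), (.s k3 k2
  0 (.s k105 k125 5 (.s k169 k253 13 (.s k195 k130 8 (.s k60 k150 14 (.d k41 k22 k233 6 7))))))] .n)

def s43_255_109 : T TT 256 :=
  (.q k1 [(.s k3 k2 0 (.s k129 k193 7 (.s k66 k192 8 (.s k67 k64 0 (.d k195 k131 k130 7 8))))), (.s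
  k105 k125 5 (.s k169 k253 13 (.s k41 k233 7 (.s k61 k21 5 (.d k193 k129 k149 7 13))))), (.s k3 k2
  0 (.s k105 k125 5 (.s k169 k253 13 (.s k195 k130 8 (.s k60 k150 14 (.d k41 k22 k233 6 7))))))] .n)

def s43_255_110 : T TT 256 :=
  (.q k1 [(.s k3 k2 0 (.s k129 k193 7 (.s k66 k192 8 (.s k67 k64 0 (.d k195 k131 k130 7 8))))), (.s
  k105 k125 5 (.s k169 k253 13 (.s k41 k233 7 (.s k61 k21 5 (.d k193 k129 k149 7 13))))), (.s k3 k2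
  0 (.s k105 k125 5 (.s k169 k253 13 (.s k195 k130 8 (.s k60 k150 14 (.d k41 k22 k233 6 7))))))] .n)

def s43_255_111 : T TT 256 :=
  (.q k1 [(.s k3 k2 0 (.s k129 k193 7 (.s k66 k192 8 (.s k67 k64 0 (.d k195 k131 k130 7 8))))), (.s
  k105 k125 5 (.s k169 k253 13 (.s k41 k233 7 (.s k61 k21 5 (.d k193 k129 k149 7 13))))), (.s k3 k2
  0 (.s k105 k125 5 (.s k169 k253 13 (.s k195 k130 8 (.s k60 k150 14 (.d k41 k22 k233 6 7))))))] .n)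

def s43_255_112 : T TT 256 :=
  (.q k1 [(.s k3 k2 0 (.s k129 k193 7 (.s k130 k195 8 (.s k128 k131 0 (.d k192 k64 k66 7 8))))), (.s
  k105 k125 5 (.s k169 k253 13 (.s k41 k233 7 (.s k61 k21 5 (.d k193 k129 k149 7 13))))), (.s k3 k2
  0 (.s k105 k125 5 (.s k169 k253 13 (.s k195 k130 8 (.s k60 k150 14 (.d k41 k22 k233 6 7))))))] .n)

def s43_255_113 : T TT 256 :=
  (.q k1 [(.s k3 k2 0 (.s k129 k193 7 (.s k66 k192 8 (.s k67 k64 0 (.d k195 k131 k130 7 8))))), (.s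
  k105 k125 5 (.s k169 k253 13 (.s k41 k233 7 (.s k61 k21 5 (.d k193 k129 k149 7 13))))), (.s k3 k2
  0 (.s k105 k125 5 (.s k169 k253 13 (.s k195 k130 8 (.s k60 k150 14 (.d k41 k22 k233 6 7))))))] .n)

def s43_255_114 : T TT 256 :=
  (.q k1 [(.s k3 k2 0 (.s k129 k193 7 (.s k66 k192 8 (.s k67 k64 0 (.d k195 k131 k130 7 8))))), (.s
  k105 k125 5 (.s k169 k253 13 (.s k41 k233 7 (.s k61 k21 5 (.d k193 k129 k149 7 13))))), (.s k3 k2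
  0 (.s k105 k125 5 (.s k169 k253 13 (.s k195 k130 8 (.s k60 k150 14 (.d k41 k22 k233 6 7))))))] .n)

def s43_255_115 : T TT 256 :=
  (.q k1 [(.s k3 k2 0 (.s k129 k193 7 (.s k130 k195 8 (.s k128 k131 0 (.d k192 k64 k66 7 8))))), (.s
  k105 k125 5 (.s k169 k253 13 (.s k41 k233 7 (.s k61 k21 5 (.d k193 k129 k149 7 13))))), (.s k3 k2
  0 (.s k105 k125 5 (.s k169 k253 13 (.s k195 k130 8 (.s k60 k150 14 (.d k41 k22 k233 6 7))))))] .n)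

def s43_255_116 : T TT 256 :=
  (.q k1 [(.s k3 k2 0 (.s k129 k193 7 (.s k66 k192 8 (.s k67 k64 0 (.d k195 k131 k130 7 8))))), (.s
  k105 k125 5 (.s k169 k253 13 (.s k41 k233 7 (.s k61 k21 5 (.d k193 k129 k149 7 13))))), (.s k3 k2
  0 (.s k105 k125 5 (.s k169 k253 13 (.s k195 k130 8 (.s k60 k150 14 (.d k41 k22 k233 6 7))))))] .n)

def s43_255_117 : T TT 256 :=
  (.f k195 k130 8 (.q k48 [(.s k32 k16 3 (.s k97 k146 12 (.s k162 k227 8 (.d k81 k113 k243 3 12)))),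
  (.s k16 k32 3 (.s k105 k125 5 (.s k60 k150 14 (.s k56 k52 1 (.d k154 k223 k203 10 12))))), (.s k97
  k146 12 (.s k105 k125 5 (.s k60 k150 14 (.s k56 k52 1 (.s k101 k109 1 (.d k154 k203 k207 12
  14))))))] (.c k113 (.l (.s k16 k32 3 (.s k146 k97 12 (.s k154 k223 10 (.s k150 k158 1 (.d k105
  k125 k60 5 14)))))) .n)))

def s43_255_118 : T TT 256 :=
  (.q k1 [(.s k3 k2 0 (.s k129 k193 7 (.s k66 k192 8 (.s k67 k64 0 (.d k195 k131 k130 7 8))))), (.s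
  k105 k125 5 (.s k169 k253 13 (.s k41 k233 7 (.s k61 k21 5 (.d k193 k129 k149 7 13))))), (.s k3 k2
  0 (.s k105 k125 5 (.s k169 k253 13 (.s k195 k130 8 (.s k60 k150 14 (.d k41 k22 k233 6 7))))))] .n)

def s43_255_119 : T TT 256 :=
  (.f k195 k130 8 (.q k51 [(.s k17 k34 4 (.s k99 k147 11 (.s k105 k125 5 (.s k102 k108 2 (.d k153
  k221 k204 9 14))))), (.s k17 k34 4 (.s k153 k221 9 (.s k204 k102 14 (.s k201 k198 2 (.d k105 k125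
  k57 5 11))))), (.s k99 k147 11 (.s k105 k125 5 (.s k60 k150 14 (.s k57 k54 2 (.s k102 k108 2 (.d
  k153 k201 k204 11 14)))))), (.s k17 k34 4 (.s k147 k99 11 (.s k153 k221 9 (.s k150 k156 2 (.s k20
  k215 8 (.d k60 k40 k105 5 14))))))] (.c k105 (.q k1 [(.s k3 k2 0 (.s k67 k131 7 (.s k66 k64 0 (.d
  k129 k193 k192 7 8)))), (.s k17 k34 4 (.s k49 k33 3 (.s k193 k129 7 (.s k97 k145 11 (.d k48 k50
  k146 0 12))))), (.s k3 k2 0 (.s k17 k34 4 (.s k19 k35 3 (.s k18 k16 0 (.d k33 k49 k48 3 4)))))]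
  .n) (.c k153 (.l (.s k34 k17 4 (.s k99 k147 11 (.s k105 k125 5 (.s k102 k108 2 (.s k170 k238 9 (.s
  k40 k235 8 (.d k60 k150 k20 14 5)))))))) (.c k204 (.l (.s k17 k34 4 (.s k105 k125 5 (.s k60 k150
  14 (.s k57 k54 2 (.d k153 k221 k201 9 11)))))) .n)))))

def s43_255_120 : T TT 256 :=
  (.q k1 [(.s k3 k2 0 (.s k129 k193 7 (.s k66 k192 8 (.s k67 k64 0 (.d k195 k131 k130 7 8))))), (.s
  k105 k125 5 (.s k169 k253 13 (.s k41 k233 7 (.s k61 k21 5 (.d k193 k129 k149 7 13))))), (.s k3 k2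
  0 (.s k105 k125 5 (.s k169 k253 13 (.s k195 k130 8 (.s k60 k150 14 (.d k41 k22 k233 6 7))))))] .n)

def s43_255_121 : T TT 256 :=
  (.q k1 [(.s k3 k2 0 (.s k129 k193 7 (.s k66 k192 8 (.s k67 k64 0 (.d k195 k131 k130 7 8))))), (.s
  k105 k125 5 (.s k169 k253 13 (.s k41 k233 7 (.s k61 k21 5 (.d k193 k129 k149 7 13))))), (.s k3 k2
  0 (.s k105 k125 5 (.s k169 k253 13 (.s k195 k130 8 (.s k60 k150 14 (.d k41 k22 k233 6 7))))))] .n)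

def s43_255_122 : T TT 256 :=
  (.q k1 [(.s k3 k2 0 (.s k129 k193 7 (.s k66 k192 8 (.s k67 k64 0 (.d k195 k131 k130 7 8))))), (.s
  k105 k125 5 (.s k169 k253 13 (.s k41 k233 7 (.s k61 k21 5 (.d k193 k129 k149 7 13))))), (.s k3 k2
  0 (.s k105 k125 5 (.s k169 k253 13 (.s k195 k130 8 (.s k60 k150 14 (.d k41 k22 k233 6 7))))))] .n)

def s43_255_123 : T TT 256 :=
  (.q k1 [(.s k3 k2 0 (.s k129 k193 7 (.s k66 k192 8 (.s k67 k64 0 (.d k195 k131 k130 7 8))))), (.s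
  k105 k125 5 (.s k169 k253 13 (.s k41 k233 7 (.s k61 k21 5 (.d k193 k129 k149 7 13))))), (.s k3 k2
  0 (.s k105 k125 5 (.s k169 k253 13 (.s k195 k130 8 (.s k60 k150 14 (.d k41 k22 k233 6 7))))))] .n)

def s43_255_124 : T TT 256 :=
  (.q k1 [(.s k3 k2 0 (.s k129 k193 7 (.s k130 k195 8 (.s k128 k131 0 (.d k192 k64 k66 7 8))))), (.s
  k105 k125 5 (.s k169 k253 13 (.s k41 k233 7 (.s k61 k21 5 (.d k193 k129 k149 7 13))))), (.s k3 k2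
  0 (.s k105 k125 5 (.s k169 k253 13 (.s k195 k130 8 (.s k60 k150 14 (.d k41 k22 k233 6 7))))))] .n)

def s43_255_125 : T TT 256 :=
  (.f k195 k130 8 (.q k81 [(.s k243 k162 12 (.s k211 k227 3 (.s k146 k16 8 (.d k97 k113 k48 3
  12)))), (.s k89 k93 1 (.s k113 k97 3 (.s k77 k101 5 (.s k73 k69 1 (.s k12 k134 10 (.d k243 k162
  k166 12 14)))))), (.s k89 k93 1 (.s k243 k162 12 (.s k12 k166 14 (.s k8 k4 1 (.s k73 k134 10 (.s
  k138 k203 8 (.d k69 k77 k207 1 10)))))))] (.c k60 (.q k190 [(.s k243 k162 12 (.s k211 k227 3 (.s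
  k146 k16 8 (.d k97 k113 k48 3 12)))), (.s k89 k93 1 (.s k113 k97 3 (.s k77 k101 5 (.s k73 k69 1
  (.s k12 k134 10 (.s k4 k8 1 (.d k166 k247 k243 12 14))))))), (.s k89 k93 1 (.s k243 k162 12 (.s
  k12 k166 14 (.s k8 k4 1 (.s k73 k134 10 (.s k138 k203 8 (.d k69 k77 k207 1 10)))))))] (.c k243 (.f
  k97 k113 3 (.f k48 k146 12 (.l (.s k16 k32 3 (.s k154 k223 10 (.s k207 k101 14 (.s k69 k138 10 (.s
  k199 k203 1 (.s k134 k4 8 (.d k73 k77 k12 1 10)))))))))) .n)) (.c k162 (.l (.s k89 k93 1 (.s k97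
  k113 3 (.s k146 k48 12 (.s k211 k16 8 (.s k150 k28 10 (.s k20 k215 8 (.d k60 k40 k105 5 14))))))))
  (.c k190 (.q k60 [(.s k150 k105 14 (.d k20 k40 k215 5 8)), (.s k97 k113 3 (.s k48 k146 12 (.s k32
  k16 3 (.d k162 k227 k243 8 12))))] (.c k150 (.q k170 [(.s k89 k93 1 (.s k8 k251 12 (.s k12 k4 1
  (.d k243 k162 k166 12 14)))), (.s k97 k113 3 (.s k48 k146 12 (.s k32 k16 3 (.d k162 k227 k243 8
  12))))] (.c k162 (.l (.s k40 k20 5 (.s k89 k93 1 (.s k8 k251 12 (.s k12 k4 1 (.s k73 k134 10 (.d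
  k105 k121 k235 3 8))))))) (.c k243 (.l (.s k40 k20 5 (.s k89 k93 1 (.s k97 k113 3 (.s k48 k146 12
  (.s k56 k52 1 (.d k8 k24 k251 3 12))))))) .n))) (.c k170 (.l (.s k150 k105 14 (.d k20 k40 k215 5
  8))) .n))) (.c k243 (.f k89 k93 1 (.f k97 k113 3 (.f k48 k146 12 (.l (.s k16 k32 3 (.s k154 k223
  10 (.s k24 k219 8 (.s k12 k36 5 (.s k8 k4 1 (.s k40 k56 3 (.d k20 k28 k60 1 5))))))))))) .n))))))

def s43_255_126 : T TT 256 :=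
  (.q k1 [(.s k3 k2 0 (.s k129 k193 7 (.s k66 k192 8 (.s k67 k64 0 (.d k195 k131 k130 7 8))))), (.s
  k105 k125 5 (.s k169 k253 13 (.s k41 k233 7 (.s k61 k21 5 (.d k193 k129 k149 7 13))))), (.s k3 k2
  0 (.s k105 k125 5 (.s k169 k253 13 (.s k195 k130 8 (.s k60 k150 14 (.d k41 k22 k233 6 7))))))] .n)

def s43_255_127 : T TT 256 :=
  (.f k195 k130 8 (.q k63 [(.s k105 k125 5 (.s k60 k150 14 (.s k61 k62 0 (.s k149 k193 13 (.d k21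
  k42 k213 6 7))))), (.s k21 k42 6 (.s k149 k213 7 (.s k151 k107 13 (.s k150 k148 0 (.s k20 k215 8
  (.d k60 k40 k105 5 14)))))), (.s k105 k125 5 (.s k60 k150 14 (.s k61 k62 0 (.s k107 k151 13 (.s
  k106 k104 0 (.d k149 k193 k192 13 14)))))), (.s k21 k42 6 (.s k149 k213 7 (.s k192 k106 14 (.s k64
  k128 7 (.s k66 k67 0 (.s k129 k3 8 (.d k193 k194 k1 0 7)))))))] (.c k149 (.l (.s k21 k42 6 (.s
  k105 k125 5 (.s k60 k150 14 (.s k61 k62 0 (.s k20 k40 5 (.s k41 k1 5 (.d k22 k23 k3 0 6))))))))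
  .n)))

def s43_255_128 : T TT 256 :=
  (.q k1 [(.s k3 k2 0 (.s k129 k193 7 (.s k195 k130 8 (.s k67 k131 7 (.d k66 k64 k192 0 8))))), (.s
  k105 k125 5 (.s k169 k253 13 (.s k41 k233 7 (.s k61 k21 5 (.d k193 k129 k149 7 13)))))] (.c k129
  (.l (.s k3 k2 0 (.s k105 k125 5 (.s k169 k253 13 (.s k41 k233 7 (.s k60 k22 6 (.d k195 k130 k150 8
  14))))))) (.c k193 (.l (.s k3 k2 0 (.s k105 k125 5 (.s k169 k253 13 (.s k195 k130 8 (.s k60 k150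
  14 (.d k41 k233 k22 7 6))))))) .n)))

def s43_255_129 : T TT 256 :=
  (.q k69 [(.s k77 k73 1 (.s k101 k117 3 (.s k89 k113 5 (.s k93 k81 1 (.d k125 k109 k105 3 5))))),
  (.s k73 k77 1 (.s k138 k207 10 (.s k8 k203 8 (.s k12 k4 1 (.d k195 k130 k134 8 10))))), (.s k101
  k117 3 (.s k105 k125 5 (.s k109 k97 1 (.s k195 k130 8 (.s k60 k150 14 (.d k207 k138 k158 10
  12))))))] .n)

def s43_255_130 : T TT 256 :=
  (.q k1 [(.s k105 k125 5 (.s k193 k129 7 (.s k149 k61 13 (.s k213 k21 7 (.d k253 k233 k169 5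
  13))))), (.s k3 k2 0 (.s k129 k193 7 (.s k66 k192 8 (.s k64 k67 0 (.s k106 k127 6 (.s k86 k126 5
  (.d k169 k253 k252 13 14)))))))] (.c k125 (.l (.s k3 k2 0 (.s k129 k193 7 (.s k66 k192 8 (.s k64
  k67 0 (.s k106 k127 6 (.s k169 k253 13 (.d k86 k126 k252 5 14)))))))) (.c k129 (.l (.s k3 k2 0 (.s
  k105 k125 5 (.s k169 k253 13 (.s k41 k233 7 (.s k60 k22 6 (.s k20 k40 5 (.d k150 k215 k195 8
  14)))))))) (.c k169 (.q k106 [(.s k3 k2 0 (.s k64 k127 6 (.s k129 k193 7 (.d k192 k66 k128 8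
  7)))), (.s k105 k125 5 (.s k193 k129 7 (.s k149 k61 13 (.s k21 k213 7 (.d k63 k192 k42 14 6))))),
  (.s k64 k127 6 (.s k67 k66 0 (.s k105 k125 5 (.s k104 k107 0 (.d k124 k84 k86 5 6)))))] (.c k63
  (.l (.s k3 k2 0 (.s k129 k193 7 (.s k66 k192 8 (.d k64 k67 k127 0 6))))) .n)) (.c k193 (.f k3 k2 0
  (.l (.s k105 k125 5 (.s k169 k253 13 (.s k233 k41 7 (.s k252 k86 14 (.s k195 k214 6 (.s k131 k67 7
  (.d k150 k60 k188 14 6))))))))) (.c k213 (.l (.s k105 k125 5 (.s k169 k253 13 (.s k41 k233 7 (.s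
  k193 k129 7 (.d k61 k21 k149 5 13)))))) (.c k253 (.f k3 k2 0 (.l (.s k105 k125 5 (.s k129 k193 7
  (.s k66 k192 8 (.s k67 k64 0 (.s k86 k124 6 (.s k84 k87 0 (.d k252 k168 k169 13 14)))))))))
  .n)))))))

def s43_255_131 : T TT 256 :=
  (.q k64 [(.s k66 k67 0 (.s k192 k128 7 (.s k3 k129 8 (.s k130 k195 8 (.d k2 k1 k194 0 7))))), (.s
  k67 k66 0 (.s k105 k125 5 (.s k86 k124 6 (.s k87 k84 0 (.d k127 k107 k106 5 6))))), (.s k105 k125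
  5 (.s k106 k127 6 (.s k107 k104 0 (.s k192 k128 7 (.s k63 k149 14 (.d k195 k130 k151 8 13))))))]
  .n)

def s43_255_132 : T TT 256 :=
  (.q k1 [(.s k3 k2 0 (.s k129 k193 7 (.s k130 k195 8 (.s k128 k131 0 (.d k192 k64 k66 7 8))))), (.s
  k105 k125 5 (.s k169 k253 13 (.s k41 k233 7 (.s k61 k21 5 (.d k193 k129 k149 7 13))))), (.s k3 k2
  0 (.s k105 k125 5 (.s k169 k253 13 (.s k195 k130 8 (.s k60 k150 14 (.d k41 k22 k233 6 7))))))] .n)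

def s43_255_133 : T TT 256 :=
  (.q k1 [(.s k3 k2 0 (.s k195 k130 8 (.s k67 k131 7 (.s k66 k64 0 (.d k129 k193 k192 7 8))))), (.s
  k105 k125 5 (.s k169 k253 13 (.s k41 k233 7 (.s k61 k21 5 (.d k193 k129 k149 7 13))))), (.s k3 k2
  0 (.s k105 k125 5 (.s k169 k253 13 (.s k195 k130 8 (.s k60 k150 14 (.d k41 k22 k233 6 7))))))] .n)

def s43_255_134 : T TT 256 :=
  (.q k1 [(.s k3 k2 0 (.s k129 k193 7 (.s k66 k192 8 (.s k67 k64 0 (.d k195 k131 k130 7 8))))), (.s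
  k105 k125 5 (.s k169 k253 13 (.s k41 k233 7 (.s k61 k21 5 (.d k193 k129 k149 7 13))))), (.s k3 k2
  0 (.s k105 k125 5 (.s k169 k253 13 (.s k195 k130 8 (.s k60 k150 14 (.d k41 k22 k233 6 7))))))] .n)

def s43_255_135 : T TT 256 :=
  (.q k1 [(.s k3 k2 0 (.s k129 k193 7 (.s k66 k192 8 (.s k67 k64 0 (.d k195 k131 k130 7 8))))), (.s
  k105 k125 5 (.s k169 k253 13 (.s k41 k233 7 (.s k61 k21 5 (.d k193 k129 k149 7 13))))), (.s k3 k2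
  0 (.s k105 k125 5 (.s k169 k253 13 (.s k195 k130 8 (.s k60 k150 14 (.d k41 k22 k233 6 7))))))] .n)

def s43_255_136 : T TT 256 :=
  (.q k1 [(.s k3 k2 0 (.s k129 k193 7 (.s k66 k192 8 (.s k67 k64 0 (.d k195 k131 k130 7 8))))), (.s
  k105 k125 5 (.s k169 k253 13 (.s k41 k233 7 (.s k61 k21 5 (.d k193 k129 k149 7 13))))), (.s k3 k2
  0 (.s k105 k125 5 (.s k169 k253 13 (.s k195 k130 8 (.s k60 k150 14 (.d k41 k22 k233 6 7))))))] .n)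

def s43_255_137 : T TT 256 :=
  (.q k1 [(.s k3 k2 0 (.s k129 k193 7 (.s k66 k192 8 (.s k67 k64 0 (.d k195 k131 k130 7 8))))), (.s
  k105 k125 5 (.s k169 k253 13 (.s k41 k233 7 (.s k61 k21 5 (.d k193 k129 k149 7 13))))), (.s k3 k2
  0 (.s k105 k125 5 (.s k169 k253 13 (.s k195 k130 8 (.s k60 k150 14 (.d k41 k22 k233 6 7))))))] .n)

def s43_255_138 : T TT 256 :=
  (.q k1 [(.s k3 k2 0 (.s k129 k193 7 (.s k66 k192 8 (.s k67 k64 0 (.d k195 k131 k130 7 8))))), (.s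
  k105 k125 5 (.s k169 k253 13 (.s k41 k233 7 (.s k61 k21 5 (.d k193 k129 k149 7 13))))), (.s k3 k2
  0 (.s k105 k125 5 (.s k169 k253 13 (.s k195 k130 8 (.s k60 k150 14 (.d k41 k22 k233 6 7))))))] .n)

def s43_255_139 : T TT 256 :=
  (.q k1 [(.s k3 k2 0 (.s k129 k193 7 (.s k66 k192 8 (.s k67 k64 0 (.d k195 k131 k130 7 8))))), (.s
  k105 k125 5 (.s k169 k253 13 (.s k41 k233 7 (.s k61 k21 5 (.d k193 k129 k149 7 13))))), (.s k3 k2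
  0 (.s k105 k125 5 (.s k169 k253 13 (.s k195 k130 8 (.s k60 k150 14 (.d k41 k22 k233 6 7))))))] .n)

def s43_255_140 : T TT 256 :=
  (.q k1 [(.s k3 k2 0 (.s k129 k193 7 (.s k66 k192 8 (.s k67 k64 0 (.d k195 k131 k130 7 8))))), (.s
  k105 k125 5 (.s k169 k253 13 (.s k41 k233 7 (.s k61 k21 5 (.d k193 k129 k149 7 13))))), (.s k3 k2
  0 (.s k105 k125 5 (.s k169 k253 13 (.s k195 k130 8 (.s k60 k150 14 (.d k41 k22 k233 6 7))))))] .n)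

def s43_255_141 : T TT 256 :=
  (.q k1 [(.s k3 k2 0 (.s k129 k193 7 (.s k66 k192 8 (.s k67 k64 0 (.d k195 k131 k130 7 8))))), (.s
  k105 k125 5 (.s k169 k253 13 (.s k41 k233 7 (.s k61 k21 5 (.d k193 k129 k149 7 13))))), (.s k3 k2
  0 (.s k105 k125 5 (.s k169 k253 13 (.s k195 k130 8 (.s k60 k150 14 (.d k41 k22 k233 6 7))))))] .n)

def s43_255_142 : T TT 256 :=
  (.q k1 [(.s k3 k2 0 (.s k129 k193 7 (.s k66 k192 8 (.s k67 k64 0 (.d k195 k131 k130 7 8))))), (.s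
  k105 k125 5 (.s k169 k253 13 (.s k41 k233 7 (.s k61 k21 5 (.d k193 k129 k149 7 13))))), (.s k3 k2
  0 (.s k105 k125 5 (.s k169 k253 13 (.s k195 k130 8 (.s k60 k150 14 (.d k41 k22 k233 6 7))))))] .n)

def s43_255_143 : T TT 256 :=
  (.q k1 [(.s k3 k2 0 (.s k129 k193 7 (.s k66 k192 8 (.s k67 k64 0 (.d k195 k131 k130 7 8))))), (.s
  k105 k125 5 (.s k169 k253 13 (.s k41 k233 7 (.s k61 k21 5 (.d k193 k129 k149 7 13))))), (.s k3 k2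
  0 (.s k105 k125 5 (.s k169 k253 13 (.s k195 k130 8 (.s k60 k150 14 (.d k41 k22 k233 6 7))))))] .n)

def s43_255_144 : T TT 256 :=
  (.q k1 [(.s k3 k2 0 (.s k129 k193 7 (.s k130 k195 8 (.s k128 k131 0 (.d k192 k64 k66 7 8))))), (.s
  k105 k125 5 (.s k169 k253 13 (.s k41 k233 7 (.s k61 k21 5 (.d k193 k129 k149 7 13))))), (.s k3 k2
  0 (.s k105 k125 5 (.s k169 k253 13 (.s k195 k130 8 (.s k60 k150 14 (.d k41 k22 k233 6 7))))))] .n)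

def s43_255_145 : T TT 256 :=
  (.q k1 [(.s k3 k2 0 (.s k195 k130 8 (.s k67 k131 7 (.s k66 k64 0 (.d k129 k193 k192 7 8))))), (.s
  k105 k125 5 (.s k169 k253 13 (.s k41 k233 7 (.s k61 k21 5 (.d k193 k129 k149 7 13))))), (.s k3 k2
  0 (.s k105 k125 5 (.s k169 k253 13 (.s k195 k130 8 (.s k60 k150 14 (.d k41 k22 k233 6 7))))))] .n)

def s43_255_146 : T TT 256 :=
  (.q k1 [(.s k3 k2 0 (.s k129 k193 7 (.s k66 k192 8 (.s k67 k64 0 (.d k195 k131 k130 7 8))))), (.s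
  k105 k125 5 (.s k169 k253 13 (.s k41 k233 7 (.s k61 k21 5 (.d k193 k129 k149 7 13))))), (.s k3 k2
  0 (.s k105 k125 5 (.s k169 k253 13 (.s k195 k130 8 (.s k60 k150 14 (.d k41 k22 k233 6 7))))))] .n)

def s43_255_147 : T TT 256 :=
  (.q k1 [(.s k3 k2 0 (.s k129 k193 7 (.s k66 k192 8 (.s k67 k64 0 (.d k195 k131 k130 7 8))))), (.s
  k105 k125 5 (.s k169 k253 13 (.s k41 k233 7 (.s k61 k21 5 (.d k193 k129 k149 7 13))))), (.s k3 k2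
  0 (.s k105 k125 5 (.s k169 k253 13 (.s k195 k130 8 (.s k60 k150 14 (.d k41 k22 k233 6 7))))))] .n)

def s43_255_148 : T TT 256 :=
  (.q k1 [(.s k3 k2 0 (.s k129 k193 7 (.s k130 k195 8 (.s k128 k131 0 (.d k192 k64 k66 7 8))))), (.s
  k105 k125 5 (.s k169 k253 13 (.s k41 k233 7 (.s k61 k21 5 (.d k193 k129 k149 7 13))))), (.s k3 k2
  0 (.s k105 k125 5 (.s k169 k253 13 (.s k195 k130 8 (.s k60 k150 14 (.d k41 k22 k233 6 7))))))] .n)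

def s43_255_149 : T TT 256 :=
  (.q k64 [(.s k67 k66 0 (.s k105 k125 5 (.s k86 k124 6 (.s k87 k84 0 (.d k127 k107 k106 5 6))))),
  (.s k66 k67 0 (.s k130 k195 8 (.s k2 k194 7 (.s k3 k1 0 (.d k192 k128 k129 7 8))))), (.s k105 k125
  5 (.s k106 k127 6 (.s k192 k128 7 (.s k195 k130 8 (.s k60 k150 14 (.d k104 k148 k107 13 0))))))]
  .n)

def s43_255_150 : T TT 256 :=
  (.q k1 [(.s k3 k2 0 (.s k129 k193 7 (.s k66 k192 8 (.s k67 k64 0 (.d k195 k131 k130 7 8))))), (.s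
  k105 k125 5 (.s k169 k253 13 (.s k41 k233 7 (.s k61 k21 5 (.d k193 k129 k149 7 13))))), (.s k3 k2
  0 (.s k105 k125 5 (.s k169 k253 13 (.s k195 k130 8 (.s k233 k41 7 (.d k252 k214 k86 6 14))))))]
  .n)

def s43_255_151 : T TT 256 :=
  (.q k1 [(.s k3 k2 0 (.s k129 k193 7 (.s k66 k192 8 (.s k67 k64 0 (.d k195 k131 k130 7 8))))), (.s
  k105 k125 5 (.s k169 k253 13 (.s k41 k233 7 (.s k61 k21 5 (.d k193 k129 k149 7 13))))), (.s k3 k2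
  0 (.s k105 k125 5 (.s k169 k253 13 (.s k195 k130 8 (.s k60 k150 14 (.d k41 k22 k233 6 7))))))] .n)

def s43_255_152 : T TT 256 :=
  (.q k1 [(.s k3 k2 0 (.s k129 k193 7 (.s k66 k192 8 (.s k67 k64 0 (.d k195 k131 k130 7 8))))), (.s
  k105 k125 5 (.s k169 k253 13 (.s k41 k233 7 (.s k61 k21 5 (.d k193 k129 k149 7 13))))), (.s k3 k2
  0 (.s k105 k125 5 (.s k169 k253 13 (.s k195 k130 8 (.s k60 k150 14 (.d k41 k22 k233 6 7))))))] .n)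

def s43_255_153 : T TT 256 :=
  (.q k1 [(.s k3 k2 0 (.s k129 k193 7 (.s k66 k192 8 (.s k67 k64 0 (.d k195 k131 k130 7 8))))), (.s
  k105 k125 5 (.s k169 k253 13 (.s k41 k233 7 (.s k61 k21 5 (.d k193 k129 k149 7 13))))), (.s k3 k2
  0 (.s k105 k125 5 (.s k169 k253 13 (.s k195 k130 8 (.s k60 k150 14 (.d k41 k22 k233 6 7))))))] .n)

def s43_255_154 : T TT 256 :=
  (.q k1 [(.s k3 k2 0 (.s k129 k193 7 (.s k66 k192 8 (.s k67 k64 0 (.d k195 k131 k130 7 8))))), (.s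
  k105 k125 5 (.s k169 k253 13 (.s k41 k233 7 (.s k61 k21 5 (.d k193 k129 k149 7 13))))), (.s k3 k2
  0 (.s k105 k125 5 (.s k169 k253 13 (.s k195 k130 8 (.s k60 k150 14 (.d k41 k22 k233 6 7))))))] .n)

def s43_255_155 : T TT 256 :=
  (.q k1 [(.s k3 k2 0 (.s k129 k193 7 (.s k66 k192 8 (.s k67 k64 0 (.d k195 k131 k130 7 8))))), (.s
  k105 k125 5 (.s k169 k253 13 (.s k41 k233 7 (.s k61 k21 5 (.d k193 k129 k149 7 13))))), (.s k3 k2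
  0 (.s k105 k125 5 (.s k169 k253 13 (.s k195 k130 8 (.s k60 k150 14 (.d k41 k22 k233 6 7))))))] .n)

def s43_255_156 : T TT 256 :=
  (.q k1 [(.s k3 k2 0 (.s k129 k193 7 (.s k66 k192 8 (.s k67 k64 0 (.d k195 k131 k130 7 8))))), (.s
  k105 k125 5 (.s k169 k253 13 (.s k41 k233 7 (.s k61 k21 5 (.d k193 k129 k149 7 13))))), (.s k3 k2
  0 (.s k105 k125 5 (.s k169 k253 13 (.s k195 k130 8 (.s k60 k150 14 (.d k41 k22 k233 6 7))))))] .n)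

def s43_255_157 : T TT 256 :=
  (.q k1 [(.s k3 k2 0 (.s k129 k193 7 (.s k66 k192 8 (.s k67 k64 0 (.d k195 k131 k130 7 8))))), (.s
  k105 k125 5 (.s k169 k253 13 (.s k41 k233 7 (.s k61 k21 5 (.d k193 k129 k149 7 13))))), (.s k3 k2
  0 (.s k105 k125 5 (.s k169 k253 13 (.s k195 k130 8 (.s k60 k150 14 (.d k41 k22 k233 6 7))))))] .n)

def s43_255_158 : T TT 256 :=
  (.q k1 [(.s k3 k2 0 (.s k129 k193 7 (.s k66 k192 8 (.s k67 k64 0 (.d k195 k131 k130 7 8))))), (.s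
  k105 k125 5 (.s k169 k253 13 (.s k41 k233 7 (.s k61 k21 5 (.d k193 k129 k149 7 13))))), (.s k3 k2
  0 (.s k105 k125 5 (.s k169 k253 13 (.s k195 k130 8 (.s k60 k150 14 (.d k41 k22 k233 6 7))))))] .n)

def s43_255_159 : T TT 256 :=
  (.q k1 [(.s k3 k2 0 (.s k129 k193 7 (.s k66 k192 8 (.s k67 k64 0 (.d k195 k131 k130 7 8))))), (.s
  k105 k125 5 (.s k169 k253 13 (.s k41 k233 7 (.s k61 k21 5 (.d k193 k129 k149 7 13))))), (.s k3 k2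
  0 (.s k105 k125 5 (.s k169 k253 13 (.s k195 k130 8 (.s k60 k150 14 (.d k41 k22 k233 6 7))))))] .n)

def s43_255_160 : T TT 256 :=
  (.q k1 [(.s k3 k2 0 (.s k129 k193 7 (.s k66 k192 8 (.s k67 k64 0 (.d k195 k131 k130 7 8))))), (.s
  k105 k125 5 (.s k169 k253 13 (.s k41 k233 7 (.s k61 k21 5 (.d k193 k129 k149 7 13))))), (.s k3 k2
  0 (.s k105 k125 5 (.s k169 k253 13 (.s k195 k130 8 (.s k60 k150 14 (.d k41 k22 k233 6 7))))))] .n)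

def s43_255_161 : T TT 256 :=
  (.q k1 [(.s k3 k2 0 (.s k129 k193 7 (.s k66 k192 8 (.s k67 k64 0 (.d k195 k131 k130 7 8))))), (.s
  k105 k125 5 (.s k169 k253 13 (.s k41 k233 7 (.s k61 k21 5 (.d k193 k129 k149 7 13))))), (.s k3 k2
  0 (.s k105 k125 5 (.s k169 k253 13 (.s k195 k130 8 (.s k60 k150 14 (.d k41 k22 k233 6 7))))))] .n)

def s43_255_162 : T TT 256 :=
  (.q k1 [(.s k3 k2 0 (.s k129 k193 7 (.s k66 k192 8 (.s k67 k64 0 (.d k195 k131 k130 7 8))))), (.s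
  k105 k125 5 (.s k169 k253 13 (.s k41 k233 7 (.s k61 k21 5 (.d k193 k129 k149 7 13))))), (.s k3 k2
  0 (.s k105 k125 5 (.s k169 k253 13 (.s k195 k130 8 (.s k60 k150 14 (.d k41 k22 k233 6 7))))))] .n)

def s43_255_163 : T TT 256 :=
  (.q k1 [(.s k3 k2 0 (.s k129 k193 7 (.s k66 k192 8 (.s k67 k64 0 (.d k195 k131 k130 7 8))))), (.s
  k105 k125 5 (.s k169 k253 13 (.s k41 k233 7 (.s k61 k21 5 (.d k193 k129 k149 7 13))))), (.s k3 k2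
  0 (.s k105 k125 5 (.s k169 k253 13 (.s k195 k130 8 (.s k60 k150 14 (.d k41 k22 k233 6 7))))))] .n)

def s43_255_164 : T TT 256 :=
  (.q k1 [(.s k3 k2 0 (.s k129 k193 7 (.s k66 k192 8 (.s k67 k64 0 (.d k195 k131 k130 7 8))))), (.s
  k105 k125 5 (.s k169 k253 13 (.s k41 k233 7 (.s k61 k21 5 (.d k193 k129 k149 7 13))))), (.s k3 k2
  0 (.s k105 k125 5 (.s k169 k253 13 (.s k195 k130 8 (.s k60 k150 14 (.d k41 k22 k233 6 7))))))] .n)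

def s43_255_165 : T TT 256 :=
  (.q k1 [(.s k3 k2 0 (.s k129 k193 7 (.s k66 k192 8 (.s k67 k64 0 (.d k195 k131 k130 7 8))))), (.s
  k105 k125 5 (.s k169 k253 13 (.s k41 k233 7 (.s k61 k21 5 (.d k193 k129 k149 7 13))))), (.s k3 k2
  0 (.s k105 k125 5 (.s k169 k253 13 (.s k195 k130 8 (.s k60 k150 14 (.d k41 k22 k233 6 7))))))] .n)

def s43_255_166 : T TT 256 :=
  (.q k1 [(.s k3 k2 0 (.s k129 k193 7 (.s k66 k192 8 (.s k67 k64 0 (.d k195 k131 k130 7 8))))), (.s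
  k105 k125 5 (.s k169 k253 13 (.s k41 k233 7 (.s k61 k21 5 (.d k193 k129 k149 7 13))))), (.s k3 k2
  0 (.s k105 k125 5 (.s k169 k253 13 (.s k195 k130 8 (.s k60 k150 14 (.d k41 k22 k233 6 7))))))] .n)

def s43_255_167 : T TT 256 :=
  (.q k1 [(.s k3 k2 0 (.s k129 k193 7 (.s k66 k192 8 (.s k67 k64 0 (.d k195 k131 k130 7 8))))), (.s
  k105 k125 5 (.s k169 k253 13 (.s k41 k233 7 (.s k61 k21 5 (.d k193 k129 k149 7 13))))), (.s k3 k2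
  0 (.s k105 k125 5 (.s k169 k253 13 (.s k195 k130 8 (.s k60 k150 14 (.d k41 k22 k233 6 7))))))] .n)

def s43_255_168 : T TT 256 :=
  (.q k1 [(.s k3 k2 0 (.s k129 k193 7 (.s k66 k192 8 (.s k67 k64 0 (.d k195 k131 k130 7 8))))), (.s
  k105 k125 5 (.s k169 k253 13 (.s k41 k233 7 (.s k61 k21 5 (.d k193 k129 k149 7 13))))), (.s k3 k2
  0 (.s k105 k125 5 (.s k169 k253 13 (.s k195 k130 8 (.s k60 k150 14 (.d k41 k22 k233 6 7))))))] .n)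

def s43_255_169 : T TT 256 :=
  (.q k106 [(.s k105 k125 5 (.s k107 k104 0 (.s k195 k130 8 (.s k63 k151 13 (.s k21 k42 6 (.d k149
  k213 k192 7 14)))))), (.s k64 k127 6 (.s k66 k67 0 (.s k130 k195 8 (.s k2 k194 7 (.s k3 k1 0 (.d
  k192 k128 k129 7 8)))))), (.s k64 k127 6 (.s k67 k66 0 (.s k105 k125 5 (.s k104 k107 0 (.d k124
  k84 k86 5 6)))))] (.c k63 (.l (.s k105 k125 5 (.s k104 k107 0 (.s k195 k130 8 (.s k60 k150 14 (.s
  k192 k148 13 (.d k64 k127 k128 6 7))))))) (.c k107 (.l (.s k64 k127 6 (.s k105 k125 5 (.s k192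
  k128 7 (.s k195 k130 8 (.s k193 k194 0 (.d k149 k63 k61 14 13))))))) .n)))

def s43_255_170 : T TT 256 :=
  (.q k1 [(.s k3 k2 0 (.s k129 k193 7 (.s k66 k192 8 (.s k67 k64 0 (.d k195 k131 k130 7 8))))), (.s
  k105 k125 5 (.s k193 k129 7 (.s k61 k149 13 (.s k41 k21 5 (.d k169 k233 k253 7 13)))))] (.c k129
  (.l (.s k3 k2 0 (.s k105 k125 5 (.s k169 k253 13 (.s k41 k233 7 (.s k60 k22 6 (.d k195 k130 k150 8
  14))))))) (.c k193 (.l (.s k3 k2 0 (.s k105 k125 5 (.s k169 k253 13 (.s k195 k130 8 (.s k67 k131 7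
  (.d k86 k252 k124 14 6))))))) .n)))

def s43_255_171 : T TT 256 :=
  (.f k195 k130 8 (.q k3 [(.s k1 k2 0 (.s k129 k193 7 (.s k66 k192 8 (.d k67 k64 k131 0 7)))), (.s
  k67 k131 7 (.s k105 k125 5 (.s k86 k124 6 (.s k84 k87 0 (.d k252 k168 k169 13 14))))), (.s k1 k2 0
  (.s k105 k125 5 (.s k60 k150 14 (.s k41 k22 6 (.d k169 k233 k253 7 13)))))] (.c k107 (.q k235 [(.s
  k105 k125 5 (.s k60 k150 14 (.d k40 k170 k20 8 5))), (.s k1 k2 0 (.s k67 k131 7 (.s k66 k64 0 (.d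
  k129 k193 k192 7 8))))] .n) (.c k235 (.q k107 [(.s k67 k131 7 (.s k127 k87 5 (.d k64 k66 k106 0
  6))), (.s k1 k2 0 (.s k105 k125 5 (.s k60 k150 14 (.s k41 k22 6 (.d k169 k233 k253 7 13)))))] (.c
  k66 (.l (.s k67 k131 7 (.s k87 k127 5 (.s k86 k84 0 (.d k105 k125 k124 5 6))))) .n)) .n))))

def s43_255_172 : T TT 256 :=
  (.q k1 [(.s k3 k2 0 (.s k129 k193 7 (.s k66 k192 8 (.s k67 k64 0 (.d k195 k131 k130 7 8))))), (.s
  k105 k125 5 (.s k169 k253 13 (.s k41 k233 7 (.s k61 k21 5 (.d k193 k129 k149 7 13))))), (.s k3 k2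
  0 (.s k105 k125 5 (.s k169 k253 13 (.s k195 k130 8 (.s k60 k150 14 (.d k41 k22 k233 6 7))))))] .n)

def s43_255_173 : T TT 256 :=
  (.q k1 [(.s k3 k2 0 (.s k129 k193 7 (.s k66 k192 8 (.s k67 k64 0 (.d k195 k131 k130 7 8))))), (.s
  k105 k125 5 (.s k169 k253 13 (.s k41 k233 7 (.s k61 k21 5 (.d k193 k129 k149 7 13))))), (.s k3 k2
  0 (.s k105 k125 5 (.s k169 k253 13 (.s k195 k130 8 (.s k60 k150 14 (.d k41 k22 k233 6 7))))))] .n)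

def s43_255_174 : T TT 256 :=
  (.q k12 [(.s k8 k4 1 (.s k195 k130 8 (.s k73 k134 10 (.s k69 k77 1 (.d k138 k203 k207 8 10))))),
  (.s k4 k8 1 (.s k105 k125 5 (.s k166 k247 12 (.s k44 k227 10 (.s k60 k28 3 (.s k20 k40 5 (.d k150
  k215 k195 8 14))))))), (.s k105 k125 5 (.s k195 k130 8 (.s k73 k134 10 (.s k89 k121 3 (.s k81 k93
  1 (.d k243 k162 k166 12 14))))))] (.c k195 (.f k4 k8 1 (.f k105 k125 5 (.l (.s k166 k247 12 (.s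
  k44 k227 10 (.s k60 k28 3 (.s k20 k40 5 (.s k243 k89 14 (.s k182 k121 10 (.d k150 k134 k215 3
  8)))))))))) .n))

def s43_255_175 : T TT 256 :=
  (.f k195 k130 8 (.q k15 [(.s k5 k10 2 (.s k75 k135 9 (.s k105 k125 5 (.s k90 k120 4 (.d k165 k245
  k240 11 14))))), (.s k5 k10 2 (.s k165 k245 11 (.s k240 k90 14 (.s k225 k210 4 (.d k105 k125 k45 5
  9))))), (.s k75 k135 9 (.s k105 k125 5 (.s k90 k120 4 (.s k80 k95 2 (.d k240 k160 k165 11 14))))),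
  (.s k5 k10 2 (.s k135 k75 9 (.s k165 k245 11 (.s k150 k180 4 (.s k20 k215 8 (.d k60 k40 k105 5
  14))))))] (.c k105 (.q k1 [(.s k3 k2 0 (.s k67 k131 7 (.s k66 k64 0 (.d k129 k193 k192 7 8)))),
  (.s k5 k10 2 (.s k13 k9 1 (.s k193 k129 7 (.s k73 k133 9 (.d k12 k14 k134 0 10))))), (.s k3 k2 0
  (.s k5 k10 2 (.s k7 k11 1 (.s k6 k4 0 (.d k9 k13 k12 1 2)))))] .n) (.c k165 (.l (.s k10 k5 2 (.s
  k75 k135 9 (.s k105 k125 5 (.s k90 k120 4 (.s k170 k250 11 (.s k40 k235 8 (.d k60 k150 k20 14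
  5)))))))) (.c k240 (.l (.s k5 k10 2 (.s k105 k125 5 (.s k60 k150 14 (.s k45 k30 4 (.d k165 k225
  k245 9 11)))))) .n)))))

def s43_255_176 : T TT 256 :=
  (.q k1 [(.s k3 k2 0 (.s k129 k193 7 (.s k66 k192 8 (.s k67 k64 0 (.d k195 k131 k130 7 8))))), (.s
  k105 k125 5 (.s k169 k253 13 (.s k41 k233 7 (.s k61 k21 5 (.d k193 k129 k149 7 13))))), (.s k3 k2
  0 (.s k105 k125 5 (.s k169 k253 13 (.s k195 k130 8 (.s k60 k150 14 (.d k41 k22 k233 6 7))))))] .n)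

def s43_255_177 : T TT 256 :=
  (.q k1 [(.s k3 k2 0 (.s k129 k193 7 (.s k66 k192 8 (.s k67 k64 0 (.d k195 k131 k130 7 8))))), (.s
  k105 k125 5 (.s k169 k253 13 (.s k41 k233 7 (.s k61 k21 5 (.d k193 k129 k149 7 13))))), (.s k3 k2
  0 (.s k105 k125 5 (.s k169 k253 13 (.s k195 k130 8 (.s k60 k150 14 (.d k41 k22 k233 6 7))))))] .n)

def s43_255_178 : T TT 256 :=
  (.q k1 [(.s k3 k2 0 (.s k129 k193 7 (.s k66 k192 8 (.s k67 k64 0 (.d k195 k131 k130 7 8))))), (.s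
  k105 k125 5 (.s k169 k253 13 (.s k41 k233 7 (.s k61 k21 5 (.d k193 k129 k149 7 13))))), (.s k3 k2
  0 (.s k105 k125 5 (.s k169 k253 13 (.s k195 k130 8 (.s k60 k150 14 (.d k41 k22 k233 6 7))))))] .n)

def s43_255_179 : T TT 256 :=
  (.q k1 [(.s k3 k2 0 (.s k129 k193 7 (.s k66 k192 8 (.s k67 k64 0 (.d k195 k131 k130 7 8))))), (.s
  k105 k125 5 (.s k169 k253 13 (.s k41 k233 7 (.s k61 k21 5 (.d k193 k129 k149 7 13))))), (.s k3 k2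
  0 (.s k105 k125 5 (.s k169 k253 13 (.s k195 k130 8 (.s k60 k150 14 (.d k41 k22 k233 6 7))))))] .n)

def s43_255_180 : T TT 256 :=
  (.q k1 [(.s k3 k2 0 (.s k129 k193 7 (.s k66 k192 8 (.s k67 k64 0 (.d k195 k131 k130 7 8))))), (.s
  k105 k125 5 (.s k169 k253 13 (.s k41 k233 7 (.s k61 k21 5 (.d k193 k129 k149 7 13))))), (.s k3 k2
  0 (.s k105 k125 5 (.s k169 k253 13 (.s k195 k130 8 (.s k60 k150 14 (.d k41 k22 k233 6 7))))))] .n)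

def s43_255_181 : T TT 256 :=
  (.q k1 [(.s k3 k2 0 (.s k129 k193 7 (.s k66 k192 8 (.s k67 k64 0 (.d k195 k131 k130 7 8))))), (.s
  k105 k125 5 (.s k169 k253 13 (.s k41 k233 7 (.s k61 k21 5 (.d k193 k129 k149 7 13))))), (.s k3 k2
  0 (.s k105 k125 5 (.s k169 k253 13 (.s k195 k130 8 (.s k60 k150 14 (.d k41 k22 k233 6 7))))))] .n)

def s43_255_182 : T TT 256 :=
  (.q k1 [(.s k3 k2 0 (.s k129 k193 7 (.s k66 k192 8 (.s k67 k64 0 (.d k195 k131 k130 7 8))))), (.s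
  k105 k125 5 (.s k169 k253 13 (.s k41 k233 7 (.s k61 k21 5 (.d k193 k129 k149 7 13))))), (.s k3 k2
  0 (.s k105 k125 5 (.s k169 k253 13 (.s k195 k130 8 (.s k60 k150 14 (.d k41 k22 k233 6 7))))))] .n)

def s43_255_183 : T TT 256 :=
  (.q k1 [(.s k3 k2 0 (.s k129 k193 7 (.s k66 k192 8 (.s k67 k64 0 (.d k195 k131 k130 7 8))))), (.s
  k105 k125 5 (.s k169 k253 13 (.s k41 k233 7 (.s k61 k21 5 (.d k193 k129 k149 7 13))))), (.s k3 k2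
  0 (.s k105 k125 5 (.s k169 k253 13 (.s k195 k130 8 (.s k60 k150 14 (.d k41 k22 k233 6 7))))))] .n)

def s43_255_184 : T TT 256 :=
  (.q k1 [(.s k3 k2 0 (.s k129 k193 7 (.s k66 k192 8 (.s k67 k64 0 (.d k195 k131 k130 7 8))))), (.s
  k105 k125 5 (.s k169 k253 13 (.s k41 k233 7 (.s k61 k21 5 (.d k193 k129 k149 7 13))))), (.s k3 k2
  0 (.s k105 k125 5 (.s k169 k253 13 (.s k195 k130 8 (.s k60 k150 14 (.d k41 k22 k233 6 7))))))] .n)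

def s43_255_185 : T TT 256 :=
  (.q k1 [(.s k3 k2 0 (.s k129 k193 7 (.s k66 k192 8 (.s k67 k64 0 (.d k195 k131 k130 7 8))))), (.s
  k105 k125 5 (.s k169 k253 13 (.s k41 k233 7 (.s k61 k21 5 (.d k193 k129 k149 7 13))))), (.s k3 k2
  0 (.s k105 k125 5 (.s k169 k253 13 (.s k195 k130 8 (.s k60 k150 14 (.d k41 k22 k233 6 7))))))] .n)

def s43_255_186 : T TT 256 :=
  (.q k69 [(.s k77 k73 1 (.s k125 k105 5 (.s k93 k109 3 (.s k89 k81 1 (.d k101 k117 k113 3 5))))),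
  (.s k73 k77 1 (.s k138 k207 10 (.s k8 k203 8 (.s k12 k4 1 (.d k195 k130 k134 8 10))))), (.s k105
  k125 5 (.s k195 k130 8 (.s k60 k150 14 (.s k207 k138 10 (.s k109 k158 12 (.d k101 k117 k97 3
  1))))))] (.c k48 (.l (.s k117 k101 3 (.s k73 k77 1 (.s k195 k130 8 (.s k12 k134 10 (.s k8 k4 1 (.d
  k138 k207 k203 10 8))))))) (.c k117 (.q k48 [(.s k16 k32 3 (.s k154 k223 10 (.d k207 k138 k101 10
  14))), (.s k32 k16 3 (.s k195 k130 8 (.s k97 k146 12 (.s k81 k113 3 (.d k162 k227 k243 8 12))))),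
  (.s k73 k77 1 (.s k138 k207 10 (.s k8 k203 8 (.s k12 k4 1 (.d k195 k130 k134 8 10)))))] .n) .n)))

def s43_255_187 : T TT 256 :=
  (.f k195 k130 8 (.q k51 [(.s k17 k34 4 (.s k99 k147 11 (.s k105 k125 5 (.s k102 k108 2 (.d k153
  k221 k204 9 14))))), (.s k17 k34 4 (.s k153 k221 9 (.s k204 k102 14 (.s k201 k198 2 (.d k105 k125
  k57 5 11))))), (.s k99 k147 11 (.s k105 k125 5 (.s k102 k108 2 (.s k68 k119 4 (.d k204 k136 k153 9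
  14))))), (.s k17 k34 4 (.s k147 k99 11 (.s k153 k221 9 (.s k150 k156 2 (.s k20 k215 8 (.d k60 k40
  k105 5 14))))))] (.c k105 (.q k1 [(.s k3 k2 0 (.s k67 k131 7 (.s k66 k64 0 (.d k129 k193 k192 7
  8)))), (.s k17 k34 4 (.s k49 k33 3 (.s k193 k129 7 (.s k97 k145 11 (.d k48 k50 k146 0 12))))), (.s
  k3 k2 0 (.s k17 k34 4 (.s k19 k35 3 (.s k18 k16 0 (.d k33 k49 k48 3 4)))))] .n) (.c k153 (.l (.s
  k34 k17 4 (.s k99 k147 11 (.s k105 k125 5 (.s k102 k108 2 (.s k170 k238 9 (.s k40 k235 8 (.d k60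
  k150 k20 14 5)))))))) (.c k204 (.l (.s k17 k34 4 (.s k105 k125 5 (.s k60 k150 14 (.s k57 k54 2 (.d
  k153 k221 k201 9 11)))))) .n)))))

def s43_255_188 : T TT 256 :=
  (.q k1 [(.s k3 k2 0 (.s k129 k193 7 (.s k66 k192 8 (.s k67 k64 0 (.d k195 k131 k130 7 8))))), (.s
  k105 k125 5 (.s k169 k253 13 (.s k41 k233 7 (.s k61 k21 5 (.d k193 k129 k149 7 13))))), (.s k3 k2
  0 (.s k105 k125 5 (.s k169 k253 13 (.s k195 k130 8 (.s k60 k150 14 (.d k41 k22 k233 6 7))))))] .n)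

def s43_255_189 : T TT 256 :=
  (.q k1 [(.s k3 k2 0 (.s k129 k193 7 (.s k66 k192 8 (.s k67 k64 0 (.d k195 k131 k130 7 8))))), (.s
  k105 k125 5 (.s k193 k129 7 (.s k61 k149 13 (.s k169 k253 13 (.d k41 k21 k233 5 7))))), (.s k3 k2
  0 (.s k105 k125 5 (.s k195 k130 8 (.s k60 k150 14 (.s k41 k22 6 (.d k169 k253 k233 13 7))))))] .n)

def s43_255_190 : T TT 256 :=
  (.q k1 [(.s k3 k2 0 (.s k129 k193 7 (.s k66 k192 8 (.s k67 k64 0 (.d k195 k131 k130 7 8))))), (.s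
  k193 k129 7 (.s k253 k169 13 (.s k213 k233 5 (.s k149 k21 7 (.d k105 k125 k61 5 13))))), (.s k3 k2
  0 (.s k169 k253 13 (.s k195 k130 8 (.s k131 k67 7 (.s k150 k188 6 (.d k105 k125 k60 5 14))))))]
  (.c k60 (.l (.s k125 k105 5 (.s k3 k2 0 (.s k129 k193 7 (.s k66 k192 8 (.s k67 k64 0 (.d k195 k131
  k130 7 8))))))) (.c k125 (.q k60 [(.s k195 k130 8 (.s k150 k105 14 (.d k20 k40 k215 5 8))), (.s k3
  k2 0 (.s k129 k193 7 (.s k66 k192 8 (.s k67 k64 0 (.d k195 k131 k130 7 8))))), (.s k3 k2 0 (.s k20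
  k40 5 (.s k169 k253 13 (.s k252 k86 14 (.s k188 k124 7 (.d k150 k131 k215 6 8))))))] .n) .n)))

def s43_255_191 : T TT 256 :=
  (.f k195 k130 8 (.q k63 [(.s k105 k125 5 (.s k60 k150 14 (.s k61 k62 0 (.s k149 k193 13 (.d k21
  k42 k213 6 7))))), (.s k105 k125 5 (.s k107 k151 13 (.s k106 k104 0 (.s k64 k127 6 (.d k192 k128
  k149 7 14))))), (.s k21 k42 6 (.s k149 k213 7 (.s k192 k106 14 (.s k64 k128 7 (.s k66 k67 0 (.s
  k129 k3 8 (.d k193 k194 k1 0 7)))))))] (.c k106 (.l (.s k21 k42 6 (.s k105 k125 5 (.s k60 k150 14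
  (.s k149 k213 7 (.d k61 k62 k193 0 13)))))) (.c k149 (.l (.s k21 k42 6 (.s k105 k125 5 (.s k60
  k150 14 (.s k61 k62 0 (.s k20 k40 5 (.s k41 k1 5 (.d k22 k23 k3 0 6)))))))) .n))))

def s43_255_192 : T TT 256 :=
  (.f k125 k105 5 (.f k195 k130 8 (.q k69 [(.s k73 k77 1 (.s k12 k134 10 (.s k8 k4 1 (.d k138 k203
  k207 8 10)))), (.s k77 k73 1 (.s k93 k109 3 (.s k89 k81 1 (.d k101 k117 k113 3 5)))), (.s k101
  k117 3 (.s k207 k138 10 (.s k48 k154 14 (.s k32 k16 3 (.s k97 k146 12 (.s k81 k113 3 (.d k162 k227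
  k243 8 12)))))))] (.c k213 (.q k234 [(.s k73 k77 1 (.s k12 k134 10 (.s k8 k4 1 (.d k138 k203 k207
  8 10)))), (.s k77 k73 1 (.s k93 k109 3 (.s k89 k81 1 (.d k101 k117 k113 3 5)))), (.s k101 k117 3
  (.s k207 k138 10 (.s k48 k154 14 (.s k32 k16 3 (.s k97 k146 12 (.s k81 k113 3 (.d k162 k227 k243 8
  12)))))))] .n) (.c k234 (.q k213 [(.s k73 k77 1 (.s k12 k134 10 (.s k8 k4 1 (.d k138 k203 k207 8
  10)))), (.s k101 k117 3 (.s k149 k21 7 (.s k197 k53 11 (.s k5 k133 7 (.d k245 k229 k165 3 11)))))]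
  .n) .n)))))

def s43_255_193 : T TT 256 :=
  (.q k64 [(.s k66 k67 0 (.s k192 k128 7 (.s k3 k129 8 (.s k2 k1 0 (.d k130 k194 k195 7 8))))), (.s
  k67 k66 0 (.s k105 k125 5 (.s k86 k124 6 (.s k87 k84 0 (.d k127 k107 k106 5 6))))), (.s k105 k125
  5 (.s k106 k127 6 (.s k107 k104 0 (.s k192 k128 7 (.s k63 k149 14 (.d k195 k130 k151 8 13))))))]
  .n)

def s43_255_194 : T TT 256 :=
  (.q k1 [(.s k3 k2 0 (.s k129 k193 7 (.s k66 k192 8 (.s k195 k130 8 (.d k67 k64 k131 0 7))))), (.s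
  k105 k125 5 (.s k169 k253 13 (.s k41 k233 7 (.s k61 k21 5 (.d k193 k129 k149 7 13))))), (.s k3 k2
  0 (.s k105 k125 5 (.s k169 k253 13 (.s k233 k41 7 (.s k252 k86 14 (.d k195 k130 k214 8 6))))))]
  .n)

def s43_255_195 : T TT 256 :=
  (.q k89 [(.s k93 k81 1 (.s k125 k105 5 (.s k77 k109 3 (.s k101 k113 5 (.d k69 k73 k117 1 3))))),
  (.s k81 k93 1 (.s k113 k97 3 (.s k101 k77 5 (.s k243 k162 12 (.s k48 k178 8 (.s k154 k207 14 (.d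
  k16 k32 k223 3 10)))))))] (.c k77 (.f k81 k93 1 (.l (.s k113 k97 3 (.s k243 k162 12 (.s k12 k166
  14 (.s k48 k178 8 (.s k24 k36 5 (.s k154 k219 8 (.d k16 k32 k223 3 10))))))))) (.c k81 (.q k3 [(.s
  k1 k2 0 (.s k105 k125 5 (.s k193 k129 7 (.s k149 k61 13 (.s k213 k21 7 (.d k253 k233 k169 5
  13)))))), (.s k1 k2 0 (.s k169 k253 13 (.s k9 k249 11 (.s k12 k6 2 (.s k4 k8 1 (.d k166 k247 k243
  12 14)))))), (.s k1 k2 0 (.s k105 k125 5 (.s k73 k121 3 (.s k193 k129 7 (.s k13 k133 9 (.s k5 k9 1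
  (.d k165 k245 k241 11 13)))))))] (.c k1 (.f k105 k125 5 (.f k73 k121 3 (.l (.s k69 k77 1 (.s k207
  k138 10 (.s k71 k139 9 (.s k70 k68 0 (.s k67 k76 2 (.s k64 k66 0 (.d k79 k75 k74 1 2)))))))))) (.c
  k2 (.f k105 k125 5 (.f k73 k121 3 (.l (.s k69 k77 1 (.s k207 k138 10 (.s k71 k139 9 (.s k70 k68 0
  (.s k67 k76 2 (.s k64 k66 0 (.d k79 k75 k74 1 2)))))))))) (.c k215 (.q k235 [(.s k1 k2 0 (.s k105
  k125 5 (.s k169 k253 13 (.s k252 k86 14 (.s k168 k84 13 (.d k170 k171 k40 0 8)))))), (.s k105 k125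
  5 (.s k73 k121 3 (.s k69 k77 1 (.s k138 k207 10 (.s k170 k40 8 (.d k8 k203 k251 8 12)))))), (.s k1
  k2 0 (.s k169 k253 13 (.s k9 k249 11 (.s k12 k6 2 (.s k4 k8 1 (.d k166 k247 k243 12 14))))))] .n)
  (.c k235 (.q k215 [(.s k1 k2 0 (.s k105 k125 5 (.s k193 k129 7 (.s k149 k61 13 (.s k213 k21 7 (.d
  k253 k233 k169 5 13)))))), (.s k1 k2 0 (.s k169 k253 13 (.s k9 k249 11 (.s k12 k6 2 (.s k4 k8 1
  (.d k166 k247 k243 12 14)))))), (.s k2 k1 0 (.s k20 k150 8 (.s k60 k40 5 (.s k22 k41 6 (.s k42 k62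
  5 (.d k21 k23 k63 0 6))))))] (.c k1 (.f k20 k150 8 (.l (.s k60 k40 5 (.s k105 k125 5 (.s k73 k121
  3 (.s k69 k77 1 (.s k207 k138 10 (.s k109 k158 12 (.d k101 k117 k97 3 1))))))))) (.c k2 (.f k20
  k150 8 (.l (.s k60 k40 5 (.s k41 k22 6 (.s k105 k125 5 (.s k169 k233 7 (.s k1 k253 13 (.s k61 k21
  5 (.d k193 k129 k149 7 13))))))))) (.c k107 (.q k171 [(.s k1 k2 0 (.s k169 k253 13 (.s k252 k86 14
  (.d k168 k170 k84 0 13)))), (.s k2 k1 0 (.s k20 k150 8 (.s k60 k40 5 (.s k22 k41 6 (.s k42 k62 5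
  (.d k21 k63 k23 6 0)))))), (.s k20 k150 8 (.s k60 k40 5 (.s k41 k22 6 (.s k105 k125 5 (.s k169
  k233 7 (.s k168 k170 0 (.d k252 k86 k84 14 13)))))))] (.c k63 (.q k151 [(.s k1 k2 0 (.s k87 k23 7
  (.s k86 k84 0 (.d k169 k253 k252 13 14)))), (.s k20 k150 8 (.s k23 k87 7 (.s k22 k21 0 (.d k60 k40
  k41 5 6)))), (.s k1 k2 0 (.s k150 k20 8 (.s k169 k253 13 (.d k131 k191 k188 5 6))))] (.c k127 (.l
  (.s k191 k131 5 (.s k1 k2 0 (.s k87 k23 7 (.s k86 k84 0 (.d k169 k253 k252 13 14)))))) (.c k191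
  (.q k127 [(.s k1 k2 0 (.s k87 k23 7 (.s k86 k84 0 (.d k169 k253 k252 13 14)))), (.s k64 k106 6 (.s
  k66 k67 0 (.d k192 k128 k129 7 8)))] (.c k169 (.l (.s k1 k2 0 (.s k129 k193 7 (.s k192 k66 8 (.d
  k64 k106 k128 6 7))))) .n)) .n))) (.c k151 (.q k63 [(.s k1 k2 0 (.s k169 k253 13 (.s k252 k86 14
  (.d k168 k170 k84 0 13)))), (.s k20 k150 8 (.s k21 k42 6 (.s k22 k23 0 (.d k60 k40 k41 5 6))))]
  .n) (.c k170 (.l (.s k1 k2 0 (.s k20 k150 8 (.s k60 k40 5 (.s k105 k125 5 (.s k41 k22 6 (.d k169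
  k233 k253 7 13))))))) .n)))) (.c k171 (.q k107 [(.s k105 k125 5 (.s k106 k104 0 (.s k64 k127 6 (.s
  k66 k67 0 (.d k192 k128 k129 7 8))))), (.s k1 k2 0 (.s k169 k253 13 (.s k9 k249 11 (.s k12 k6 2
  (.s k4 k8 1 (.d k166 k247 k243 12 14))))))] .n) .n))))) .n))))) (.c k93 (.f k105 k125 5 (.f k73
  k121 3 (.f k77 k69 1 (.f k113 k101 5 (.f k81 k97 3 (.l (.s k243 k162 12 (.s k12 k166 14 (.s k8 k4
  1 (.s k48 k178 8 (.s k203 k138 8 (.s k154 k56 12 (.d k16 k32 k223 3 10))))))))))))) (.c k97 (.l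
  (.s k93 k81 1 (.s k125 k105 5 (.s k77 k109 3 (.s k101 k113 5 (.d k69 k73 k117 1 3)))))) (.c k101
  (.f k81 k93 1 (.l (.s k105 k125 5 (.s k73 k121 3 (.s k243 k162 12 (.s k12 k166 14 (.s k8 k4 1 (.s
  k138 k203 8 (.d k69 k77 k207 1 10))))))))) (.c k109 (.l (.s k81 k93 1 (.s k113 k97 3 (.s k77 k101
  5 (.s k105 k125 5 (.d k73 k69 k121 1 3)))))) (.c k113 (.f k93 k81 1 (.l (.s k125 k105 5 (.s k77
  k109 3 (.s k69 k73 1 (.s k207 k138 10 (.s k12 k142 8 (.s k166 k243 14 (.d k4 k8 k247 1 12)))))))))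
  (.c k125 (.l (.s k81 k93 1 (.s k113 k97 3 (.s k77 k101 5 (.s k69 k73 1 (.s k207 k138 10 (.s k12
  k142 8 (.d k243 k162 k166 12 14)))))))) (.c k215 (.q k235 [(.s k93 k81 1 (.s k125 k105 5 (.s k77
  k109 3 (.s k101 k113 5 (.d k69 k73 k117 1 3))))), (.s k81 k93 1 (.s k243 k162 12 (.s k12 k166 14
  (.s k8 k4 1 (.s k170 k251 12 (.d k105 k125 k40 5 8)))))), (.s k105 k125 5 (.s k73 k121 3 (.s k170
  k40 8 (.s k8 k251 12 (.s k138 k203 8 (.d k69 k207 k77 10 1))))))] (.c k105 (.l (.s k81 k93 1 (.s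
  k113 k97 3 (.s k101 k77 5 (.s k69 k117 3 (.s k207 k138 10 (.s k48 k154 14 (.d k243 k178 k162 8
  12)))))))) (.c k125 (.l (.s k81 k93 1 (.s k113 k97 3 (.s k77 k101 5 (.s k69 k73 1 (.s k207 k138 10
  (.s k12 k142 8 (.d k243 k162 k166 12 14)))))))) .n))) (.c k235 (.q k215 [(.s k93 k81 1 (.s k125
  k105 5 (.s k77 k109 3 (.s k101 k113 5 (.d k69 k73 k117 1 3))))), (.s k81 k93 1 (.s k150 k20 8 (.s
  k211 k28 10 (.s k223 k219 1 (.d k16 k146 k154 8 10)))))] (.c k81 (.f k20 k150 8 (.l (.s k60 k40 5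
  (.s k105 k125 5 (.s k73 k121 3 (.s k69 k77 1 (.s k207 k138 10 (.s k109 k158 12 (.d k101 k117 k97 3
  1))))))))) (.c k93 (.f k150 k20 8 (.l (.s k211 k28 10 (.s k223 k219 1 (.s k16 k154 10 (.s k32 k48
  3 (.s k81 k146 8 (.s k97 k113 3 (.d k162 k243 k227 12 8))))))))) (.c k107 (.q k171 [(.s k81 k93 1
  (.s k113 k97 3 (.s k77 k101 5 (.s k73 k69 1 (.d k105 k121 k125 3 5))))), (.s k81 k93 1 (.s k150
  k20 8 (.s k211 k28 10 (.s k223 k219 1 (.d k16 k146 k154 8 10))))), (.s k93 k81 1 (.s k125 k105 5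
  (.s k77 k109 3 (.s k101 k113 5 (.d k69 k73 k117 1 3)))))] (.c k63 (.q k151 [(.s k23 k87 7 (.s k150
  k20 8 (.s k149 k148 0 (.s k212 k86 8 (.d k213 k214 k21 0 7))))), (.s k81 k93 1 (.s k105 k125 5 (.s
  k73 k121 3 (.s k77 k69 1 (.d k113 k97 k101 3 5)))))] (.c k3 (.l (.s k23 k87 7 (.s k150 k20 8 (.s
  k149 k148 0 (.s k212 k86 8 (.d k213 k214 k21 0 7)))))) (.c k23 (.q k3 [(.s k1 k2 0 (.s k150 k20 8
  (.s k169 k253 13 (.d k131 k191 k188 5 6)))), (.s k81 k93 1 (.s k105 k125 5 (.s k73 k121 3 (.s k77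
  k69 1 (.d k113 k97 k101 3 5)))))] (.c k127 (.l (.s k191 k131 5 (.s k1 k2 0 (.s k169 k253 13 (.s
  k168 k170 0 (.d k252 k86 k84 14 13)))))) (.c k191 (.q k127 [(.s k1 k2 0 (.s k129 k193 7 (.s k192
  k66 8 (.d k64 k106 k128 6 7)))), (.s k1 k2 0 (.s k169 k253 13 (.s k168 k170 0 (.d k252 k86 k84 14
  13)))), (.s k64 k106 6 (.s k66 k67 0 (.d k192 k128 k129 7 8)))] (.c k128 (.l (.s k1 k2 0 (.s k64
  k106 6 (.s k66 k67 0 (.d k129 k192 k193 8 7))))) .n)) .n))) (.c k127 (.l (.s k191 k131 5 (.s k81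
  k93 1 (.s k105 k125 5 (.s k73 k121 3 (.s k77 k69 1 (.d k113 k97 k101 3 5))))))) (.c k191 (.q k127
  [(.s k23 k87 7 (.s k150 k20 8 (.s k149 k148 0 (.s k212 k86 8 (.d k213 k214 k21 0 7))))), (.s k81
  k93 1 (.s k105 k125 5 (.s k73 k121 3 (.s k77 k69 1 (.d k113 k97 k101 3 5)))))] (.c k3 (.l (.s k23
  k87 7 (.s k150 k20 8 (.s k149 k148 0 (.s k212 k86 8 (.d k213 k214 k21 0 7)))))) (.c k23 (.q k3
  [(.s k1 k2 0 (.s k129 k193 7 (.s k192 k66 8 (.d k64 k106 k128 6 7)))), (.s k1 k2 0 (.s k169 k253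
  13 (.s k168 k170 0 (.d k252 k86 k84 14 13)))), (.s k64 k106 6 (.s k66 k67 0 (.d k192 k128 k129 7
  8)))] (.c k128 (.l (.s k1 k2 0 (.s k64 k106 6 (.s k66 k67 0 (.d k129 k192 k193 8 7))))) .n)) .n)))
  .n))))) (.c k81 (.f k20 k150 8 (.l (.s k60 k40 5 (.s k105 k125 5 (.s k73 k121 3 (.s k69 k77 1 (.s
  k207 k138 10 (.s k109 k158 12 (.d k101 k117 k97 3 1))))))))) (.c k93 (.f k150 k20 8 (.l (.s k211
  k28 10 (.s k223 k219 1 (.s k16 k154 10 (.s k32 k48 3 (.s k81 k146 8 (.s k97 k113 3 (.d k162 k243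
  k227 12 8))))))))) (.c k151 (.q k63 [(.s k81 k93 1 (.s k113 k97 3 (.s k77 k101 5 (.s k73 k69 1 (.d
  k105 k121 k125 3 5))))), (.s k20 k150 8 (.s k21 k42 6 (.s k22 k23 0 (.s k60 k40 5 (.s k41 k3 6 (.d
  k61 k62 k1 0 5))))))] (.c k105 (.l (.s k81 k93 1 (.s k150 k20 8 (.s k211 k28 10 (.s k16 k146 8 (.d
  k223 k219 k154 1 10)))))) .n)) .n))))) (.c k150 (.l (.s k81 k93 1 (.s k105 k125 5 (.s k73 k121 3
  (.s k77 k69 1 (.d k113 k97 k101 3 5)))))) (.c k171 (.q k107 [(.s k93 k81 1 (.s k125 k105 5 (.s k77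
  k109 3 (.s k101 k113 5 (.d k69 k73 k117 1 3))))), (.s k81 k93 1 (.s k150 k20 8 (.s k211 k28 10 (.s
  k223 k219 1 (.d k16 k146 k154 8 10))))), (.s k105 k125 5 (.s k106 k104 0 (.s k121 k73 3 (.s k123
  k72 4 (.s k75 k91 3 (.d k120 k122 k90 0 4))))))] (.c k3 (.q k87 [(.s k67 k127 5 (.s k86 k84 0 (.d
  k105 k125 k124 5 6))), (.s k105 k125 5 (.s k106 k104 0 (.d k127 k67 k64 5 6))), (.s k23 k151 7 (.s
  k86 k84 0 (.s k149 k212 8 (.s k21 k213 7 (.d k20 k22 k150 0 8)))))] (.c k23 (.q k63 [(.s k67 k127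
  5 (.s k86 k84 0 (.d k105 k125 k124 5 6))), (.s k21 k42 6 (.s k67 k127 5 (.s k64 k66 0 (.s k149
  k213 7 (.d k192 k128 k106 7 14)))))] (.c k67 (.q k131 [(.s k21 k42 6 (.s k105 k125 5 (.s k106 k104
  0 (.d k149 k213 k192 7 14)))), (.s k81 k93 1 (.s k86 k84 0 (.s k83 k92 2 (.s k80 k82 0 (.d k95 k91
  k90 1 2)))))] .n) (.c k127 (.l (.s k21 k42 6 (.s k105 k125 5 (.s k106 k104 0 (.d k149 k213 k192 7
  14))))) (.c k131 (.l (.s k67 k127 5 (.s k86 k84 0 (.d k105 k125 k124 5 6)))) .n)))) (.c k63 (.l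
  (.s k23 k151 7 (.s k86 k84 0 (.s k105 k125 5 (.d k67 k127 k124 5 6))))) (.c k67 (.q k131 [(.s k23
  k151 7 (.s k86 k84 0 (.s k150 k20 8 (.s k212 k149 8 (.d k214 k213 k22 0 7))))), (.s k81 k93 1 (.s
  k105 k125 5 (.s k73 k121 3 (.s k77 k69 1 (.d k113 k97 k101 3 5)))))] (.c k23 (.q k63 [(.s k21 k42
  6 (.s k105 k125 5 (.s k106 k104 0 (.d k149 k213 k192 7 14)))), (.s k81 k93 1 (.s k86 k84 0 (.s k83
  k92 2 (.s k80 k82 0 (.d k95 k91 k90 1 2)))))] .n) (.c k63 (.l (.s k23 k151 7 (.s k20 k150 8 (.s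
  k21 k22 0 (.s k86 k84 0 (.d k149 k213 k212 7 8)))))) .n))) (.c k131 (.l (.s k67 k127 5 (.s k86 k84
  0 (.d k105 k125 k124 5 6)))) .n))))) (.c k87 (.q k3 [(.s k93 k81 1 (.s k125 k105 5 (.s k77 k109 3
  (.s k101 k113 5 (.d k69 k73 k117 1 3))))), (.s k105 k125 5 (.s k106 k104 0 (.s k64 k127 6 (.s k66
  k67 0 (.d k192 k128 k129 7 8))))), (.s k81 k93 1 (.s k150 k20 8 (.s k211 k28 10 (.s k16 k146 8 (.d
  k223 k219 k154 1 10)))))] .n) .n))) .n)))))) .n)))))))))))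

def s43_255_196 : T TT 256 :=
  (.q k1 [(.s k3 k2 0 (.s k129 k193 7 (.s k130 k195 8 (.s k128 k131 0 (.d k192 k64 k66 7 8))))), (.s
  k105 k125 5 (.s k169 k253 13 (.s k41 k233 7 (.s k61 k21 5 (.d k193 k129 k149 7 13))))), (.s k3 k2
  0 (.s k105 k125 5 (.s k169 k253 13 (.s k195 k130 8 (.s k60 k150 14 (.d k41 k22 k233 6 7))))))] .n)

def s43_255_197 : T TT 256 :=
  (.q k1 [(.s k3 k2 0 (.s k195 k130 8 (.s k67 k131 7 (.s k66 k64 0 (.d k129 k193 k192 7 8))))), (.s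
  k105 k125 5 (.s k169 k253 13 (.s k41 k233 7 (.s k61 k21 5 (.d k193 k129 k149 7 13))))), (.s k3 k2
  0 (.s k105 k125 5 (.s k169 k253 13 (.s k195 k130 8 (.s k60 k150 14 (.d k41 k22 k233 6 7))))))] .n)

def s43_255_198 : T TT 256 :=
  (.q k1 [(.s k3 k2 0 (.s k129 k193 7 (.s k66 k192 8 (.s k67 k64 0 (.d k195 k131 k130 7 8))))), (.s
  k105 k125 5 (.s k169 k253 13 (.s k41 k233 7 (.s k61 k21 5 (.d k193 k129 k149 7 13))))), (.s k3 k2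
  0 (.s k105 k125 5 (.s k169 k253 13 (.s k195 k130 8 (.s k60 k150 14 (.d k41 k22 k233 6 7))))))] .n)

def s43_255_199 : T TT 256 :=
  (.q k1 [(.s k3 k2 0 (.s k129 k193 7 (.s k66 k192 8 (.s k67 k64 0 (.d k195 k131 k130 7 8))))), (.s
  k105 k125 5 (.s k169 k253 13 (.s k41 k233 7 (.s k61 k21 5 (.d k193 k129 k149 7 13))))), (.s k3 k2
  0 (.s k105 k125 5 (.s k169 k253 13 (.s k195 k130 8 (.s k60 k150 14 (.d k41 k22 k233 6 7))))))] .n)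

def s43_255_200 : T TT 256 :=
  (.q k1 [(.s k3 k2 0 (.s k129 k193 7 (.s k130 k195 8 (.s k128 k131 0 (.d k192 k64 k66 7 8))))), (.s
  k105 k125 5 (.s k169 k253 13 (.s k41 k233 7 (.s k61 k21 5 (.d k193 k129 k149 7 13))))), (.s k3 k2
  0 (.s k105 k125 5 (.s k169 k253 13 (.s k195 k130 8 (.s k60 k150 14 (.d k41 k22 k233 6 7))))))] .n)

def s43_255_201 : T TT 256 :=
  (.q k1 [(.s k3 k2 0 (.s k195 k130 8 (.s k67 k131 7 (.s k66 k64 0 (.d k129 k193 k192 7 8))))), (.s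
  k105 k125 5 (.s k169 k253 13 (.s k41 k233 7 (.s k61 k21 5 (.d k193 k129 k149 7 13))))), (.s k3 k2
  0 (.s k105 k125 5 (.s k169 k253 13 (.s k195 k130 8 (.s k60 k150 14 (.d k41 k22 k233 6 7))))))] .n)

def s43_255_202 : T TT 256 :=
  (.q k1 [(.s k3 k2 0 (.s k129 k193 7 (.s k130 k195 8 (.s k128 k131 0 (.d k192 k64 k66 7 8))))), (.s
  k105 k125 5 (.s k169 k253 13 (.s k41 k233 7 (.s k61 k21 5 (.d k193 k129 k149 7 13))))), (.s k3 k2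
  0 (.s k105 k125 5 (.s k169 k253 13 (.s k195 k130 8 (.s k60 k150 14 (.d k41 k22 k233 6 7))))))] .n)

def s43_255_203 : T TT 256 :=
  (.q k1 [(.s k3 k2 0 (.s k129 k193 7 (.s k66 k192 8 (.s k67 k64 0 (.d k195 k131 k130 7 8))))), (.s
  k105 k125 5 (.s k169 k253 13 (.s k41 k233 7 (.s k61 k21 5 (.d k193 k129 k149 7 13))))), (.s k3 k2
  0 (.s k105 k125 5 (.s k169 k253 13 (.s k195 k130 8 (.s k60 k150 14 (.d k41 k22 k233 6 7))))))] .n)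

def s43_255_204 : T TT 256 :=
  (.f k125 k105 5 (.f k195 k130 8 (.q k81 [(.s k97 k113 3 (.s k48 k146 12 (.s k32 k16 3 (.d k162
  k227 k243 8 12)))), (.s k89 k93 1 (.s k113 k97 3 (.s k101 k77 5 (.d k117 k121 k69 1 3)))), (.s k89
  k93 1 (.s k243 k162 12 (.s k12 k166 14 (.s k8 k4 1 (.s k73 k134 10 (.s k69 k77 1 (.d k138 k203
  k207 8 10)))))))] (.c k221 (.q k238 [(.s k97 k113 3 (.s k48 k146 12 (.s k32 k16 3 (.d k162 k227
  k243 8 12)))), (.s k89 k93 1 (.s k113 k97 3 (.s k101 k77 5 (.d k117 k121 k69 1 3)))), (.s k89 k93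
  1 (.s k243 k162 12 (.s k12 k166 14 (.s k8 k4 1 (.s k73 k134 10 (.s k69 k77 1 (.d k138 k203 k207 8
  10)))))))] .n) (.c k238 (.q k221 [(.s k97 k113 3 (.s k48 k146 12 (.s k32 k16 3 (.d k162 k227 k243
  8 12)))), (.s k17 k153 9 (.s k89 k93 1 (.s k209 k145 7 (.s k149 k29 9 (.d k213 k217 k21 1 7)))))]
  .n) .n)))))

def s43_255_205 : T TT 256 :=
  (.q k1 [(.s k3 k2 0 (.s k195 k130 8 (.s k67 k131 7 (.s k66 k64 0 (.d k129 k193 k192 7 8))))), (.s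
  k105 k125 5 (.s k169 k253 13 (.s k41 k233 7 (.s k61 k21 5 (.d k193 k129 k149 7 13))))), (.s k3 k2
  0 (.s k105 k125 5 (.s k169 k253 13 (.s k195 k130 8 (.s k60 k150 14 (.d k41 k22 k233 6 7))))))] .n)

def s43_255_206 : T TT 256 :=
  (.q k1 [(.s k3 k2 0 (.s k129 k193 7 (.s k66 k192 8 (.s k67 k64 0 (.d k195 k131 k130 7 8))))), (.s
  k105 k125 5 (.s k169 k253 13 (.s k41 k233 7 (.s k61 k21 5 (.d k193 k129 k149 7 13))))), (.s k3 k2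
  0 (.s k105 k125 5 (.s k169 k253 13 (.s k195 k130 8 (.s k60 k150 14 (.d k41 k22 k233 6 7))))))] .n)

def s43_255_207 : T TT 256 :=
  (.f k195 k130 8 (.q k1 [(.s k3 k2 0 (.s k67 k131 7 (.s k66 k64 0 (.d k129 k193 k192 7 8)))), (.s
  k105 k125 5 (.s k169 k253 13 (.s k41 k233 7 (.s k61 k21 5 (.d k193 k129 k149 7 13))))), (.s k3 k2
  0 (.s k105 k125 5 (.s k60 k150 14 (.s k41 k22 6 (.d k169 k233 k253 7 13)))))] (.c k223 (.q k239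
  [(.s k3 k2 0 (.s k67 k131 7 (.s k66 k64 0 (.d k129 k193 k192 7 8)))), (.s k105 k125 5 (.s k169
  k253 13 (.s k41 k233 7 (.s k61 k21 5 (.d k193 k129 k149 7 13))))), (.s k3 k2 0 (.s k105 k125 5 (.s
  k60 k150 14 (.s k41 k22 6 (.d k169 k233 k253 7 13)))))] .n) (.c k239 (.q k223 [(.s k3 k2 0 (.s k67
  k131 7 (.s k66 k64 0 (.d k129 k193 k192 7 8)))), (.s k105 k125 5 (.s k169 k253 13 (.s k41 k233 7
  (.s k61 k21 5 (.d k193 k129 k149 7 13))))), (.s k3 k2 0 (.s k105 k125 5 (.s k60 k150 14 (.s k41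
  k22 6 (.d k169 k233 k253 7 13)))))] .n) .n))))

def s43_255_208 : T TT 256 :=
  (.q k1 [(.s k3 k2 0 (.s k129 k193 7 (.s k130 k195 8 (.s k128 k131 0 (.d k192 k64 k66 7 8))))), (.s
  k105 k125 5 (.s k169 k253 13 (.s k41 k233 7 (.s k61 k21 5 (.d k193 k129 k149 7 13))))), (.s k3 k2
  0 (.s k105 k125 5 (.s k169 k253 13 (.s k195 k130 8 (.s k60 k150 14 (.d k41 k22 k233 6 7))))))] .n)

def s43_255_209 : T TT 256 :=
  (.q k1 [(.s k3 k2 0 (.s k195 k130 8 (.s k67 k131 7 (.s k66 k64 0 (.d k129 k193 k192 7 8))))), (.s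
  k105 k125 5 (.s k169 k253 13 (.s k41 k233 7 (.s k61 k21 5 (.d k193 k129 k149 7 13))))), (.s k3 k2
  0 (.s k105 k125 5 (.s k169 k253 13 (.s k195 k130 8 (.s k60 k150 14 (.d k41 k22 k233 6 7))))))] .n)

def s43_255_210 : T TT 256 :=
  (.q k1 [(.s k3 k2 0 (.s k129 k193 7 (.s k66 k192 8 (.s k67 k64 0 (.d k195 k131 k130 7 8))))), (.s
  k105 k125 5 (.s k169 k253 13 (.s k41 k233 7 (.s k61 k21 5 (.d k193 k129 k149 7 13))))), (.s k3 k2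
  0 (.s k105 k125 5 (.s k169 k253 13 (.s k195 k130 8 (.s k60 k150 14 (.d k41 k22 k233 6 7))))))] .n)

def s43_255_211 : T TT 256 :=
  (.q k1 [(.s k3 k2 0 (.s k129 k193 7 (.s k66 k192 8 (.s k67 k64 0 (.d k195 k131 k130 7 8))))), (.s
  k105 k125 5 (.s k169 k253 13 (.s k41 k233 7 (.s k61 k21 5 (.d k193 k129 k149 7 13))))), (.s k3 k2
  0 (.s k105 k125 5 (.s k169 k253 13 (.s k195 k130 8 (.s k60 k150 14 (.d k41 k22 k233 6 7))))))] .n)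

def s43_255_212 : T TT 256 :=
  (.q k1 [(.s k3 k2 0 (.s k129 k193 7 (.s k130 k195 8 (.s k128 k131 0 (.d k192 k64 k66 7 8))))), (.s
  k105 k125 5 (.s k169 k253 13 (.s k41 k233 7 (.s k61 k21 5 (.d k193 k129 k149 7 13))))), (.s k3 k2
  0 (.s k105 k125 5 (.s k169 k253 13 (.s k195 k130 8 (.s k60 k150 14 (.d k41 k22 k233 6 7))))))] .n)

def s43_255_213 : T TT 256 :=
  (.q k192 [(.s k64 k128 7 (.s k66 k67 0 (.s k3 k129 8 (.s k2 k1 0 (.d k130 k194 k195 7 8))))), (.s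
  k64 k128 7 (.s k67 k66 0 (.s k105 k125 5 (.s k86 k124 6 (.s k87 k84 0 (.d k127 k107 k106 5
  6)))))), (.s k105 k125 5 (.s k195 k130 8 (.s k60 k150 14 (.s k104 k148 13 (.s k106 k107 0 (.s k149
  k63 14 (.d k193 k194 k61 0 13)))))))] .n)

def s43_255_214 : T TT 256 :=
  (.q k1 [(.s k3 k2 0 (.s k129 k193 7 (.s k66 k192 8 (.s k67 k64 0 (.d k195 k131 k130 7 8))))), (.s
  k105 k125 5 (.s k169 k253 13 (.s k193 k129 7 (.s k61 k149 13 (.d k41 k21 k233 5 7))))), (.s k3 k2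
  0 (.s k105 k125 5 (.s k169 k253 13 (.s k195 k130 8 (.s k60 k150 14 (.d k41 k22 k233 6 7))))))] .n)

def s43_255_215 : T TT 256 :=
  (.q k1 [(.s k3 k2 0 (.s k129 k193 7 (.s k192 k66 8 (.s k128 k64 7 (.d k130 k195 k131 8 0))))), (.s
  k105 k125 5 (.s k169 k253 13 (.s k41 k233 7 (.s k61 k21 5 (.d k193 k129 k149 7 13))))), (.s k3 k2
  0 (.s k105 k125 5 (.s k169 k253 13 (.s k195 k130 8 (.s k60 k150 14 (.d k41 k22 k233 6 7))))))] (.c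
  k195 (.q k235 [(.s k105 k125 5 (.s k193 k129 7 (.s k149 k61 13 (.s k213 k21 7 (.d k253 k233 k169 5
  13))))), (.s k3 k2 0 (.s k105 k125 5 (.s k40 k170 8 (.s k60 k20 5 (.s k41 k22 6 (.d k169 k233 k253
  7 13)))))), (.s k3 k2 0 (.s k129 k193 7 (.s k169 k253 13 (.s k192 k66 8 (.s k64 k128 7 (.s k106
  k127 6 (.d k149 k63 k189 14 5))))))), (.s k3 k2 0 (.s k105 k125 5 (.s k40 k170 8 (.s k60 k20 5 (.s
  k41 k22 6 (.s k193 k129 7 (.d k61 k21 k149 5 13)))))))] .n) (.c k235 (.l (.s k195 k130 8 (.s k3 k2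
  0 (.s k67 k131 7 (.s k66 k64 0 (.d k129 k193 k192 7 8)))))) .n)))

def s43_255_216 : T TT 256 :=
  (.q k1 [(.s k3 k2 0 (.s k129 k193 7 (.s k66 k192 8 (.s k67 k64 0 (.d k195 k131 k130 7 8))))), (.s
  k105 k125 5 (.s k169 k253 13 (.s k41 k233 7 (.s k61 k21 5 (.d k193 k129 k149 7 13))))), (.s k3 k2
  0 (.s k105 k125 5 (.s k169 k253 13 (.s k195 k130 8 (.s k60 k150 14 (.d k41 k22 k233 6 7))))))] .n)

def s43_255_217 : T TT 256 :=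
  (.q k1 [(.s k3 k2 0 (.s k129 k193 7 (.s k66 k192 8 (.s k67 k64 0 (.d k195 k131 k130 7 8))))), (.s
  k105 k125 5 (.s k169 k253 13 (.s k41 k233 7 (.s k61 k21 5 (.d k193 k129 k149 7 13))))), (.s k3 k2
  0 (.s k105 k125 5 (.s k169 k253 13 (.s k195 k130 8 (.s k60 k150 14 (.d k41 k22 k233 6 7))))))] .n)

def s43_255_218 : T TT 256 :=
  (.q k1 [(.s k3 k2 0 (.s k129 k193 7 (.s k66 k192 8 (.s k67 k64 0 (.d k195 k131 k130 7 8))))), (.s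
  k105 k125 5 (.s k169 k253 13 (.s k41 k233 7 (.s k61 k21 5 (.d k193 k129 k149 7 13))))), (.s k3 k2
  0 (.s k105 k125 5 (.s k169 k253 13 (.s k195 k130 8 (.s k60 k150 14 (.d k41 k22 k233 6 7))))))] .n)

def s43_255_219 : T TT 256 :=
  (.q k1 [(.s k3 k2 0 (.s k129 k193 7 (.s k66 k192 8 (.s k67 k64 0 (.d k195 k131 k130 7 8))))), (.s
  k105 k125 5 (.s k169 k253 13 (.s k41 k233 7 (.s k61 k21 5 (.d k193 k129 k149 7 13))))), (.s k3 k2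
  0 (.s k105 k125 5 (.s k169 k253 13 (.s k195 k130 8 (.s k60 k150 14 (.d k41 k22 k233 6 7))))))] .n)

def s43_255_220 : T TT 256 :=
  (.q k1 [(.s k3 k2 0 (.s k129 k193 7 (.s k66 k192 8 (.s k67 k64 0 (.d k195 k131 k130 7 8))))), (.s
  k105 k125 5 (.s k169 k253 13 (.s k41 k233 7 (.s k61 k21 5 (.d k193 k129 k149 7 13))))), (.s k3 k2
  0 (.s k105 k125 5 (.s k169 k253 13 (.s k195 k130 8 (.s k60 k150 14 (.d k41 k22 k233 6 7))))))] .n)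

def s43_255_221 : T TT 256 :=
  (.f k195 k130 8 (.q k204 [(.s k68 k136 9 (.s k102 k119 4 (.s k105 k125 5 (.s k198 k201 2 (.d k150
  k60 k54 14 11))))), (.s k68 k136 9 (.s k102 k119 4 (.s k51 k153 14 (.s k99 k147 11 (.d k105 k108
  k125 2 5))))), (.s k105 k125 5 (.s k60 k150 14 (.s k108 k156 11 (.s k102 k99 2 (.s k201 k198 2 (.d
  k153 k57 k51 11 14))))))] (.c k51 (.l (.s k68 k136 9 (.s k105 k125 5 (.s k60 k150 14 (.s k108 k156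
  11 (.d k102 k99 k119 2 4)))))) (.c k102 (.l (.s k105 k125 5 (.s k60 k150 14 (.s k40 k20 5 (.s k136
  k68 9 (.s k170 k235 8 (.s k153 k187 4 (.d k201 k198 k57 2 11)))))))) (.c k105 (.q k1 [(.s k3 k2 0
  (.s k67 k131 7 (.s k66 k64 0 (.d k129 k193 k192 7 8)))), (.s k193 k129 7 (.s k201 k198 2 (.s k205
  k197 1 (.s k69 k137 9 (.d k207 k206 k138 0 10))))), (.s k3 k2 0 (.s k136 k68 9 (.s k137 k70 10 (.s
  k69 k205 9 (.d k138 k139 k207 0 10)))))] .n) (.c k125 (.l (.s k68 k136 9 (.s k102 k119 4 (.s k198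
  k201 2 (.s k150 k54 11 (.s k20 k215 8 (.d k60 k40 k105 5 14))))))) (.c k150 (.l (.s k68 k136 9 (.s
  k102 k119 4 (.s k51 k153 14 (.s k105 k125 5 (.d k99 k147 k108 11 2)))))) .n)))))))

def s43_255_222 : T TT 256 :=
  (.q k1 [(.s k3 k2 0 (.s k129 k193 7 (.s k66 k192 8 (.s k67 k64 0 (.d k195 k131 k130 7 8))))), (.s
  k105 k125 5 (.s k169 k253 13 (.s k41 k233 7 (.s k61 k21 5 (.d k193 k129 k149 7 13))))), (.s k3 k2
  0 (.s k105 k125 5 (.s k169 k253 13 (.s k195 k130 8 (.s k60 k150 14 (.d k41 k22 k233 6 7))))))] .n)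

def s43_255_223 : T TT 256 :=
  (.q k207 [(.s k69 k138 10 (.s k73 k77 1 (.s k195 k130 8 (.s k199 k203 1 (.d k134 k4 k12 8 10))))),
  (.s k105 k125 5 (.s k195 k130 8 (.s k60 k150 14 (.s k109 k158 12 (.s k101 k97 1 (.s k154 k48 14
  (.d k203 k199 k56 1 12))))))), (.s k69 k138 10 (.s k77 k73 1 (.s k101 k117 3 (.s k89 k113 5 (.s
  k93 k81 1 (.d k125 k109 k105 3 5))))))] (.c k203 (.l (.s k69 k138 10 (.s k101 k117 3 (.s k48 k154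
  14 (.s k105 k125 5 (.s k97 k109 1 (.d k195 k130 k146 8 12))))))) .n))

def s43_255_224 : T TT 256 :=
  (.q k1 [(.s k3 k2 0 (.s k129 k193 7 (.s k130 k195 8 (.s k128 k131 0 (.d k192 k64 k66 7 8))))), (.s
  k105 k125 5 (.s k169 k253 13 (.s k41 k233 7 (.s k61 k21 5 (.d k193 k129 k149 7 13))))), (.s k3 k2
  0 (.s k105 k125 5 (.s k169 k253 13 (.s k195 k130 8 (.s k60 k150 14 (.d k41 k22 k233 6 7))))))] .n)

def s43_255_225 : T TT 256 :=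
  (.q k1 [(.s k3 k2 0 (.s k195 k130 8 (.s k67 k131 7 (.s k66 k64 0 (.d k129 k193 k192 7 8))))), (.s
  k105 k125 5 (.s k169 k253 13 (.s k41 k233 7 (.s k61 k21 5 (.d k193 k129 k149 7 13))))), (.s k3 k2
  0 (.s k105 k125 5 (.s k169 k253 13 (.s k195 k130 8 (.s k60 k150 14 (.d k41 k22 k233 6 7))))))] .n)

def s43_255_226 : T TT 256 :=
  (.q k1 [(.s k3 k2 0 (.s k129 k193 7 (.s k130 k195 8 (.s k128 k131 0 (.d k192 k64 k66 7 8))))), (.s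
  k105 k125 5 (.s k169 k253 13 (.s k41 k233 7 (.s k61 k21 5 (.d k193 k129 k149 7 13))))), (.s k3 k2
  0 (.s k105 k125 5 (.s k169 k253 13 (.s k195 k130 8 (.s k60 k150 14 (.d k41 k22 k233 6 7))))))] .n)

def s43_255_227 : T TT 256 :=
  (.q k1 [(.s k3 k2 0 (.s k129 k193 7 (.s k66 k192 8 (.s k67 k64 0 (.d k195 k131 k130 7 8))))), (.s
  k105 k125 5 (.s k169 k253 13 (.s k41 k233 7 (.s k61 k21 5 (.d k193 k129 k149 7 13))))), (.s k3 k2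
  0 (.s k105 k125 5 (.s k169 k253 13 (.s k195 k130 8 (.s k60 k150 14 (.d k41 k22 k233 6 7))))))] .n)

def s43_255_228 : T TT 256 :=
  (.q k1 [(.s k3 k2 0 (.s k129 k193 7 (.s k66 k192 8 (.s k67 k64 0 (.d k195 k131 k130 7 8))))), (.s
  k105 k125 5 (.s k169 k253 13 (.s k41 k233 7 (.s k61 k21 5 (.d k193 k129 k149 7 13))))), (.s k3 k2
  0 (.s k105 k125 5 (.s k169 k253 13 (.s k195 k130 8 (.s k60 k150 14 (.d k41 k22 k233 6 7))))))] .n)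

def s43_255_229 : T TT 256 :=
  (.q k1 [(.s k3 k2 0 (.s k129 k193 7 (.s k66 k192 8 (.s k67 k64 0 (.d k195 k131 k130 7 8))))), (.s
  k105 k125 5 (.s k169 k253 13 (.s k41 k233 7 (.s k61 k21 5 (.d k193 k129 k149 7 13))))), (.s k3 k2
  0 (.s k105 k125 5 (.s k169 k253 13 (.s k195 k130 8 (.s k60 k150 14 (.d k41 k22 k233 6 7))))))] .n)

def s43_255_230 : T TT 256 :=
  (.q k1 [(.s k3 k2 0 (.s k129 k193 7 (.s k66 k192 8 (.s k67 k64 0 (.d k195 k131 k130 7 8))))), (.s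
  k105 k125 5 (.s k169 k253 13 (.s k41 k233 7 (.s k61 k21 5 (.d k193 k129 k149 7 13))))), (.s k3 k2
  0 (.s k105 k125 5 (.s k169 k253 13 (.s k195 k130 8 (.s k60 k150 14 (.d k41 k22 k233 6 7))))))] .n)

def s43_255_231 : T TT 256 :=
  (.q k1 [(.s k3 k2 0 (.s k129 k193 7 (.s k66 k192 8 (.s k67 k64 0 (.d k195 k131 k130 7 8))))), (.s
  k105 k125 5 (.s k169 k253 13 (.s k41 k233 7 (.s k61 k21 5 (.d k193 k129 k149 7 13))))), (.s k3 k2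
  0 (.s k105 k125 5 (.s k169 k253 13 (.s k195 k130 8 (.s k60 k150 14 (.d k41 k22 k233 6 7))))))] .n)

def s43_255_232 : T TT 256 :=
  (.q k106 [(.s k64 k127 6 (.s k67 k66 0 (.s k105 k125 5 (.s k124 k86 6 (.d k104 k107 k84 0 5))))),
  (.s k64 k127 6 (.s k66 k67 0 (.s k130 k195 8 (.s k2 k194 7 (.s k3 k1 0 (.d k192 k128 k129 7
  8)))))), (.s k105 k125 5 (.s k107 k104 0 (.s k195 k130 8 (.s k63 k151 13 (.s k21 k42 6 (.d k149
  k213 k192 7 14))))))] (.c k63 (.l (.s k105 k125 5 (.s k104 k107 0 (.s k195 k130 8 (.s k60 k150 14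
  (.s k192 k148 13 (.d k64 k127 k128 6 7))))))) (.c k107 (.l (.s k64 k127 6 (.s k105 k125 5 (.s k192
  k128 7 (.s k195 k130 8 (.s k193 k194 0 (.d k149 k63 k61 14 13))))))) .n)))

def s43_255_233 : T TT 256 :=
  (.q k64 [(.s k66 k67 0 (.s k192 k128 7 (.s k3 k129 8 (.s k2 k1 0 (.d k130 k194 k195 7 8))))), (.s
  k67 k66 0 (.s k105 k125 5 (.s k86 k124 6 (.s k87 k84 0 (.d k127 k107 k106 5 6))))), (.s k105 k125
  5 (.s k106 k127 6 (.s k107 k104 0 (.s k192 k128 7 (.s k63 k149 14 (.d k195 k130 k151 8 13))))))]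
  .n)

def s43_255_234 : T TT 256 :=
  (.q k192 [(.s k64 k128 7 (.s k66 k67 0 (.s k3 k129 8 (.s k2 k1 0 (.d k130 k194 k195 7 8))))), (.s
  k64 k128 7 (.s k67 k66 0 (.s k105 k125 5 (.s k86 k124 6 (.s k87 k84 0 (.d k127 k107 k106 5
  6)))))), (.s k105 k125 5 (.s k195 k130 8 (.s k193 k194 0 (.s k149 k61 13 (.s k21 k213 7 (.d k63
  k42 k106 6 14))))))] (.c k66 (.l (.s k64 k128 7 (.s k105 k125 5 (.s k106 k127 6 (.s k63 k149 14
  (.s k107 k104 0 (.d k195 k130 k151 8 13))))))) .n))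

def s43_255_235 : T TT 256 :=
  (.f k195 k130 8 (.q k107 [(.s k63 k151 13 (.s k21 k42 6 (.s k105 k125 5 (.s k106 k104 0 (.d k149
  k213 k192 7 14))))), (.s k105 k125 5 (.s k106 k104 0 (.s k64 k127 6 (.s k192 k128 7 (.s k194 k193
  0 (.d k150 k60 k62 14 13)))))), (.s k63 k151 13 (.s k21 k42 6 (.s k149 k213 7 (.s k192 k106 14 (.s
  k193 k194 0 (.s k1 k129 7 (.d k61 k41 k105 5 13)))))))] (.c k63 (.l (.s k105 k125 5 (.s k60 k150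
  14 (.s k104 k106 0 (.s k192 k148 13 (.s k64 k128 7 (.s k67 k66 0 (.d k124 k86 k84 6 5)))))))) (.c
  k105 (.f k63 k151 13 (.l (.s k21 k42 6 (.s k149 k213 7 (.s k192 k106 14 (.s k64 k128 7 (.s k66 k67
  0 (.s k129 k3 8 (.d k193 k194 k1 0 7))))))))) (.c k106 (.l (.s k63 k151 13 (.s k21 k42 6 (.s k105
  k125 5 (.s k60 k150 14 (.s k149 k213 7 (.d k61 k62 k193 0 13))))))) (.c k192 (.l (.s k63 k151 13
  (.s k21 k42 6 (.s k105 k125 5 (.s k60 k150 14 (.s k61 k62 0 (.d k149 k213 k193 7 13)))))))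
  .n))))))

def s43_255_236 : T TT 256 :=
  (.q k1 [(.s k3 k2 0 (.s k129 k193 7 (.s k66 k192 8 (.s k67 k64 0 (.d k195 k131 k130 7 8))))), (.s
  k105 k125 5 (.s k169 k253 13 (.s k41 k233 7 (.s k61 k21 5 (.d k193 k129 k149 7 13))))), (.s k3 k2
  0 (.s k105 k125 5 (.s k169 k253 13 (.s k195 k130 8 (.s k60 k150 14 (.d k41 k22 k233 6 7))))))] .n)

def s43_255_237 : T TT 256 :=
  (.q k1 [(.s k3 k2 0 (.s k129 k193 7 (.s k66 k192 8 (.s k67 k64 0 (.d k195 k131 k130 7 8))))), (.s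
  k105 k125 5 (.s k169 k253 13 (.s k41 k233 7 (.s k61 k21 5 (.d k193 k129 k149 7 13))))), (.s k3 k2
  0 (.s k105 k125 5 (.s k169 k253 13 (.s k195 k130 8 (.s k60 k150 14 (.d k41 k22 k233 6 7))))))] .n)

def s43_255_238 : T TT 256 :=
  (.f k195 k130 8 (.q k204 [(.s k105 k125 5 (.s k201 k198 2 (.s k153 k57 11 (.s k17 k221 9 (.d k51
  k34 k102 4 14))))), (.s k68 k136 9 (.s k102 k119 4 (.s k51 k153 14 (.s k99 k147 11 (.d k105 k108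
  k125 2 5))))), (.s k68 k136 9 (.s k102 k119 4 (.s k198 k201 2 (.s k150 k54 11 (.s k20 k215 8 (.d
  k60 k40 k105 5 14))))))] (.c k51 (.l (.s k68 k136 9 (.s k105 k125 5 (.s k60 k150 14 (.s k108 k156
  11 (.d k102 k99 k119 2 4)))))) (.c k102 (.l (.s k105 k125 5 (.s k60 k150 14 (.s k40 k20 5 (.s k136
  k68 9 (.s k170 k235 8 (.s k153 k187 4 (.d k201 k198 k57 2 11)))))))) (.c k105 (.q k1 [(.s k3 k2 0
  (.s k67 k131 7 (.s k66 k64 0 (.d k129 k193 k192 7 8)))), (.s k193 k129 7 (.s k201 k198 2 (.s k205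
  k197 1 (.s k69 k137 9 (.d k207 k206 k138 0 10))))), (.s k3 k2 0 (.s k136 k68 9 (.s k137 k70 10 (.s
  k69 k205 9 (.d k138 k139 k207 0 10)))))] .n) .n)))))

def s43_255_239 : T TT 256 :=
  (.q k207 [(.s k69 k138 10 (.s k73 k77 1 (.s k195 k130 8 (.s k199 k203 1 (.d k134 k4 k12 8 10))))),
  (.s k105 k125 5 (.s k195 k130 8 (.s k203 k199 1 (.s k154 k56 12 (.s k16 k223 10 (.d k48 k32 k101 3
  14)))))), (.s k69 k138 10 (.s k77 k73 1 (.s k101 k117 3 (.s k89 k113 5 (.s k93 k81 1 (.d k125 k109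
  k105 3 5))))))] (.c k203 (.l (.s k69 k138 10 (.s k101 k117 3 (.s k48 k154 14 (.s k105 k125 5 (.s
  k97 k109 1 (.d k195 k130 k146 8 12))))))) .n))

def s43_255_240 : T TT 256 :=
  (.f k195 k130 8 (.f k125 k105 5 (.q k81 [(.s k97 k113 3 (.s k48 k146 12 (.s k32 k16 3 (.d k162
  k227 k243 8 12)))), (.s k89 k93 1 (.s k113 k97 3 (.s k101 k77 5 (.d k117 k121 k69 1 3)))), (.s k89
  k93 1 (.s k243 k162 12 (.s k12 k166 14 (.s k8 k4 1 (.s k73 k134 10 (.s k69 k77 1 (.d k138 k203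
  k207 8 10)))))))] (.c k245 (.q k250 [(.s k97 k113 3 (.s k48 k146 12 (.s k32 k16 3 (.d k162 k227
  k243 8 12)))), (.s k89 k93 1 (.s k113 k97 3 (.s k101 k77 5 (.d k117 k121 k69 1 3)))), (.s k89 k93
  1 (.s k243 k162 12 (.s k12 k166 14 (.s k8 k4 1 (.s k73 k134 10 (.s k69 k77 1 (.d k138 k203 k207 8
  10)))))))] .n) (.c k250 (.q k245 [(.s k97 k113 3 (.s k48 k146 12 (.s k32 k16 3 (.d k162 k227 k243
  8 12)))), (.s k89 k93 1 (.s k165 k5 11 (.s k241 k13 13 (.s k1 k161 11 (.d k253 k249 k169 1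
  13)))))] .n) .n)))))

def s43_255_241 : T TT 256 :=
  (.q k1 [(.s k3 k2 0 (.s k195 k130 8 (.s k67 k131 7 (.s k66 k64 0 (.d k129 k193 k192 7 8))))), (.s
  k105 k125 5 (.s k169 k253 13 (.s k41 k233 7 (.s k61 k21 5 (.d k193 k129 k149 7 13))))), (.s k3 k2
  0 (.s k105 k125 5 (.s k169 k253 13 (.s k195 k130 8 (.s k60 k150 14 (.d k41 k22 k233 6 7))))))] .n)

def s43_255_242 : T TT 256 :=
  (.q k1 [(.s k3 k2 0 (.s k129 k193 7 (.s k66 k192 8 (.s k67 k64 0 (.d k195 k131 k130 7 8))))), (.s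
  k105 k125 5 (.s k169 k253 13 (.s k41 k233 7 (.s k61 k21 5 (.d k193 k129 k149 7 13))))), (.s k3 k2
  0 (.s k105 k125 5 (.s k169 k253 13 (.s k195 k130 8 (.s k60 k150 14 (.d k41 k22 k233 6 7))))))] .n)

def s43_255_243 : T TT 256 :=
  (.f k195 k130 8 (.q k193 [(.s k129 k1 7 (.s k192 k194 0 (.s k64 k128 7 (.d k66 k67 k3 0 8)))), (.s
  k105 k125 5 (.s k149 k61 13 (.s k21 k213 7 (.s k63 k42 6 (.d k192 k194 k106 0 14))))), (.s k1 k129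
  7 (.s k105 k125 5 (.s k61 k149 13 (.s k41 k21 5 (.d k169 k233 k253 7 13)))))] (.c k247 (.q k251
  [(.s k129 k1 7 (.s k192 k194 0 (.s k64 k128 7 (.d k66 k67 k3 0 8)))), (.s k105 k125 5 (.s k149 k61
  13 (.s k21 k213 7 (.s k63 k42 6 (.d k192 k194 k106 0 14))))), (.s k1 k129 7 (.s k105 k125 5 (.s
  k61 k149 13 (.s k41 k21 5 (.d k169 k233 k253 7 13)))))] .n) (.c k251 (.q k247 [(.s k129 k1 7 (.s
  k192 k194 0 (.s k64 k128 7 (.d k66 k67 k3 0 8)))), (.s k105 k125 5 (.s k149 k61 13 (.s k21 k213 7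
  (.s k63 k42 6 (.d k192 k194 k106 0 14))))), (.s k1 k129 7 (.s k105 k125 5 (.s k61 k149 13 (.s k41
  k21 5 (.d k169 k233 k253 7 13)))))] .n) .n))))

def s43_255_244 : T TT 256 :=
  (.q k1 [(.s k3 k2 0 (.s k129 k193 7 (.s k66 k192 8 (.s k67 k64 0 (.d k195 k131 k130 7 8))))), (.s
  k105 k125 5 (.s k169 k253 13 (.s k41 k233 7 (.s k61 k21 5 (.d k193 k129 k149 7 13))))), (.s k3 k2
  0 (.s k105 k125 5 (.s k169 k253 13 (.s k195 k130 8 (.s k60 k150 14 (.d k41 k22 k233 6 7))))))] .n)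

def s43_255_245 : T TT 256 :=
  (.f k195 k130 8 (.q k240 [(.s k80 k160 11 (.s k90 k95 2 (.s k105 k125 5 (.s k210 k225 4 (.d k150
  k60 k30 14 9))))), (.s k80 k160 11 (.s k90 k95 2 (.s k15 k165 14 (.s k75 k135 9 (.d k105 k120 k125
  4 5))))), (.s k105 k125 5 (.s k60 k150 14 (.s k120 k180 9 (.s k90 k75 4 (.s k225 k210 4 (.d k165
  k45 k15 9 14))))))] (.c k15 (.l (.s k80 k160 11 (.s k105 k125 5 (.s k60 k150 14 (.s k120 k180 9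
  (.d k90 k95 k75 2 4)))))) (.c k90 (.l (.s k105 k125 5 (.s k60 k150 14 (.s k40 k20 5 (.s k160 k80
  11 (.s k170 k235 8 (.s k165 k175 2 (.d k225 k210 k45 4 9)))))))) (.c k105 (.q k1 [(.s k3 k2 0 (.s
  k67 k131 7 (.s k66 k64 0 (.d k129 k193 k192 7 8)))), (.s k193 k129 7 (.s k225 k210 4 (.s k241 k209
  3 (.s k81 k161 11 (.d k243 k242 k162 0 12))))), (.s k3 k2 0 (.s k160 k80 11 (.s k161 k82 12 (.s
  k81 k241 11 (.d k162 k163 k243 0 12)))))] .n) (.c k125 (.l (.s k80 k160 11 (.s k90 k95 2 (.s k210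
  k225 4 (.s k150 k30 9 (.s k20 k215 8 (.d k60 k40 k105 5 14))))))) (.c k150 (.l (.s k80 k160 11 (.s
  k90 k95 2 (.s k15 k165 14 (.s k105 k125 5 (.d k75 k135 k120 9 4)))))) .n)))))))

def s43_255_246 : T TT 256 :=
  (.q k1 [(.s k3 k2 0 (.s k129 k193 7 (.s k66 k192 8 (.s k67 k64 0 (.d k195 k131 k130 7 8))))), (.s
  k105 k125 5 (.s k169 k253 13 (.s k41 k233 7 (.s k61 k21 5 (.d k193 k129 k149 7 13))))), (.s k3 k2
  0 (.s k105 k125 5 (.s k169 k253 13 (.s k195 k130 8 (.s k60 k150 14 (.d k41 k22 k233 6 7))))))] .n)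

def s43_255_247 : T TT 256 :=
  (.q k243 [(.s k81 k162 12 (.s k97 k113 3 (.s k195 k130 8 (.s k211 k227 3 (.d k146 k16 k48 8
  12))))), (.s k105 k125 5 (.s k195 k130 8 (.s k60 k150 14 (.s k121 k182 10 (.s k89 k73 3 (.s k166
  k12 14 (.d k227 k211 k44 3 10))))))), (.s k81 k162 12 (.s k89 k93 1 (.s k105 k125 5 (.s k73 k121 3
  (.s k77 k69 1 (.d k113 k97 k101 3 5))))))] .n)

def s43_255_248 : T TT 256 :=
  (.q k1 [(.s k3 k2 0 (.s k129 k193 7 (.s k66 k192 8 (.s k67 k64 0 (.d k195 k131 k130 7 8))))), (.s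
  k105 k125 5 (.s k169 k253 13 (.s k41 k233 7 (.s k61 k21 5 (.d k193 k129 k149 7 13))))), (.s k3 k2
  0 (.s k105 k125 5 (.s k169 k253 13 (.s k195 k130 8 (.s k60 k150 14 (.d k41 k22 k233 6 7))))))] .n)

def s43_255_249 : T TT 256 :=
  (.q k1 [(.s k3 k2 0 (.s k129 k193 7 (.s k66 k192 8 (.s k67 k64 0 (.d k195 k131 k130 7 8))))), (.s
  k105 k125 5 (.s k169 k253 13 (.s k41 k233 7 (.s k61 k21 5 (.d k193 k129 k149 7 13))))), (.s k3 k2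
  0 (.s k105 k125 5 (.s k169 k253 13 (.s k195 k130 8 (.s k60 k150 14 (.d k41 k22 k233 6 7))))))] .n)

def s43_255_250 : T TT 256 :=
  (.f k195 k130 8 (.q k240 [(.s k105 k125 5 (.s k225 k210 4 (.s k165 k45 9 (.s k5 k245 11 (.d k15
  k10 k90 2 14))))), (.s k80 k160 11 (.s k90 k95 2 (.s k15 k165 14 (.s k75 k135 9 (.d k105 k120 k125
  4 5))))), (.s k80 k160 11 (.s k90 k95 2 (.s k210 k225 4 (.s k150 k30 9 (.s k20 k215 8 (.d k60 k40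
  k105 5 14))))))] (.c k15 (.l (.s k80 k160 11 (.s k105 k125 5 (.s k60 k150 14 (.s k120 k180 9 (.d
  k90 k95 k75 2 4)))))) (.c k90 (.l (.s k105 k125 5 (.s k60 k150 14 (.s k40 k20 5 (.s k160 k80 11
  (.s k170 k235 8 (.s k165 k175 2 (.d k225 k210 k45 4 9)))))))) (.c k105 (.q k1 [(.s k3 k2 0 (.s k67
  k131 7 (.s k66 k64 0 (.d k129 k193 k192 7 8)))), (.s k193 k129 7 (.s k225 k210 4 (.s k241 k209 3
  (.s k81 k161 11 (.d k243 k242 k162 0 12))))), (.s k3 k2 0 (.s k160 k80 11 (.s k161 k82 12 (.s k81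
  k241 11 (.d k162 k163 k243 0 12)))))] .n) .n)))))

def s43_255_251 : T TT 256 :=
  (.q k243 [(.s k81 k162 12 (.s k97 k113 3 (.s k195 k130 8 (.s k211 k227 3 (.d k146 k16 k48 8
  12))))), (.s k105 k125 5 (.s k195 k130 8 (.s k227 k211 3 (.s k166 k44 10 (.s k4 k247 12 (.d k12 k8
  k89 1 14)))))), (.s k81 k162 12 (.s k89 k93 1 (.s k105 k125 5 (.s k73 k121 3 (.s k77 k69 1 (.d
  k113 k97 k101 3 5))))))] .n)

def s43_255_252 : T TT 256 :=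
  (.q k1 [(.s k105 k125 5 (.s k193 k129 7 (.s k61 k149 13 (.s k41 k21 5 (.d k169 k253 k233 13
  7))))), (.s k3 k2 0 (.s k129 k193 7 (.s k66 k192 8 (.s k67 k64 0 (.d k195 k131 k130 7 8))))), (.s
  k3 k2 0 (.s k105 k125 5 (.s k195 k130 8 (.s k60 k150 14 (.s k41 k22 6 (.d k169 k253 k233 13
  7))))))] (.c k253 (.q k254 [(.s k3 k2 0 (.s k195 k130 8 (.s k67 k131 7 (.s k66 k64 0 (.d k129 k193
  k192 7 8))))), (.s k2 k3 0 (.s k105 k125 5 (.s k195 k130 8 (.s k60 k150 14 (.s k40 k20 5 (.d k170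
  k86 k235 13 8)))))), (.s k105 k125 5 (.s k193 k129 7 (.s k61 k149 13 (.s k21 k41 5 (.s k195 k130 8
  (.s k60 k150 14 (.d k63 k42 k62 6 0))))))), (.s k2 k3 0 (.s k86 k170 13 (.s k87 k84 0 (.s k105
  k125 5 (.s k67 k124 6 (.s k64 k66 0 (.d k127 k107 k106 5 6)))))))] .n) (.c k254 (.l (.s k253 k169
  13 (.s k105 k125 5 (.s k193 k129 7 (.s k149 k61 13 (.d k213 k233 k21 5 7)))))) .n)))

def s43_255_253 : T TT 256 :=
  (.f k195 k130 8 (.q k252 [(.s k84 k168 13 (.s k86 k87 0 (.s k105 k125 5 (.s k60 k150 14 (.d k124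
  k67 k188 6 7))))), (.s k84 k168 13 (.s k86 k87 0 (.s k3 k169 14 (.s k1 k2 0 (.s k67 k131 7 (.s k66
  k64 0 (.d k129 k193 k192 7 8))))))), (.s k84 k168 13 (.s k105 k125 5 (.s k60 k150 14 (.s k20 k40 5
  (.s k124 k188 7 (.s k104 k64 5 (.d k148 k212 k192 7 13))))))), (.s k84 k168 13 (.s k86 k87 0 (.s
  k105 k125 5 (.s k67 k124 6 (.d k3 k131 k169 7 14))))), (.s k105 k125 5 (.s k60 k150 14 (.s k124
  k188 7 (.s k86 k67 6 (.s k169 k3 14 (.d k233 k214 k41 6 7))))))] .n))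

def s43_255_254 : T TT 256 :=
  (.q k1 [(.s k105 k125 5 (.s k193 k129 7 (.s k61 k149 13 (.s k41 k21 5 (.d k169 k253 k233 13
  7))))), (.s k3 k2 0 (.s k129 k193 7 (.s k66 k192 8 (.s k67 k64 0 (.d k195 k131 k130 7 8))))), (.s
  k3 k2 0 (.s k105 k125 5 (.s k195 k130 8 (.s k60 k150 14 (.s k41 k22 6 (.d k169 k253 k233 13
  7))))))] (.c k252 (.l (.s k253 k169 13 (.s k105 k125 5 (.s k193 k129 7 (.s k149 k61 13 (.d k213
  k233 k21 5 7)))))) (.c k253 (.q k252 [(.s k3 k2 0 (.s k84 k168 13 (.d k86 k87 k169 0 14))), (.s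
  k129 k193 7 (.s k130 k195 8 (.s k128 k131 0 (.s k192 k64 7 (.d k3 k2 k66 0 8))))), (.s k84 k168 13
  (.s k105 k125 5 (.s k195 k130 8 (.s k60 k150 14 (.s k124 k188 7 (.d k86 k87 k67 0 6))))))] .n)
  .n)))

def t43_255 : T TT 256 :=
  (.q k65 [] (.c k1 s43_255_1 (.c k2 s43_255_2 (.c k3 s43_255_3 (.c k4 s43_255_4 (.c k5 s43_255_5
  (.c k6 s43_255_6 (.c k7 s43_255_7 (.c k8 s43_255_8 (.c k9 s43_255_9 (.c k10 s43_255_10 (.c k11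
  s43_255_11 (.c k12 s43_255_12 (.c k13 s43_255_13 (.c k14 s43_255_14 (.c k15 s43_255_15 (.c k16
  s43_255_16 (.c k17 s43_255_17 (.c k18 s43_255_18 (.c k19 s43_255_19 (.c k20 s43_255_20 (.c k21
  s43_255_21 (.c k22 s43_255_22 (.c k23 s43_255_23 (.c k24 s43_255_24 (.c k25 s43_255_25 (.c k26
  s43_255_26 (.c k27 s43_255_27 (.c k28 s43_255_28 (.c k29 s43_255_29 (.c k30 s43_255_30 (.c k31
  s43_255_31 (.c k32 s43_255_32 (.c k33 s43_255_33 (.c k34 s43_255_34 (.c k35 s43_255_35 (.c k36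
  s43_255_36 (.c k37 s43_255_37 (.c k38 s43_255_38 (.c k39 s43_255_39 (.c k40 s43_255_40 (.c k41
  s43_255_41 (.c k42 s43_255_42 (.c k44 s43_255_44 (.c k45 s43_255_45 (.c k46 s43_255_46 (.c k47
  s43_255_47 (.c k48 s43_255_48 (.c k49 s43_255_49 (.c k50 s43_255_50 (.c k51 s43_255_51 (.c k52
  s43_255_52 (.c k53 s43_255_53 (.c k54 s43_255_54 (.c k55 s43_255_55 (.c k56 s43_255_56 (.c k57
  s43_255_57 (.c k58 s43_255_58 (.c k59 s43_255_59 (.c k60 s43_255_60 (.c k61 s43_255_61 (.c k62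
  s43_255_62 (.c k63 s43_255_63 (.c k64 s43_255_64 (.c k66 s43_255_66 (.c k67 s43_255_67 (.c k68
  s43_255_68 (.c k69 s43_255_69 (.c k70 s43_255_70 (.c k71 s43_255_71 (.c k72 s43_255_72 (.c k73
  s43_255_73 (.c k74 s43_255_74 (.c k75 s43_255_75 (.c k76 s43_255_76 (.c k77 s43_255_77 (.c k78
  s43_255_78 (.c k79 s43_255_79 (.c k80 s43_255_80 (.c k81 s43_255_81 (.c k82 s43_255_82 (.c k83
  s43_255_83 (.c k84 s43_255_84 (.c k86 s43_255_86 (.c k87 s43_255_87 (.c k88 s43_255_88 (.c k89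
  s43_255_89 (.c k90 s43_255_90 (.c k91 s43_255_91 (.c k92 s43_255_92 (.c k93 s43_255_93 (.c k94
  s43_255_94 (.c k95 s43_255_95 (.c k96 s43_255_96 (.c k97 s43_255_97 (.c k98 s43_255_98 (.c k99
  s43_255_99 (.c k100 s43_255_100 (.c k101 s43_255_101 (.c k102 s43_255_102 (.c k103 s43_255_103 (.c
  k104 s43_255_104 (.c k105 s43_255_105 (.c k106 s43_255_106 (.c k107 s43_255_107 (.c k108
  s43_255_108 (.c k109 s43_255_109 (.c k110 s43_255_110 (.c k111 s43_255_111 (.c k112 s43_255_112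
  (.c k113 s43_255_113 (.c k114 s43_255_114 (.c k115 s43_255_115 (.c k116 s43_255_116 (.c k117
  s43_255_117 (.c k118 s43_255_118 (.c k119 s43_255_119 (.c k120 s43_255_120 (.c k121 s43_255_121
  (.c k122 s43_255_122 (.c k123 s43_255_123 (.c k124 s43_255_124 (.c k125 s43_255_125 (.c k126
  s43_255_126 (.c k127 s43_255_127 (.c k128 s43_255_128 (.c k129 s43_255_129 (.c k130 s43_255_130
  (.c k131 s43_255_131 (.c k132 s43_255_132 (.c k133 s43_255_133 (.c k134 s43_255_134 (.c k135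
  s43_255_135 (.c k136 s43_255_136 (.c k137 s43_255_137 (.c k138 s43_255_138 (.c k139 s43_255_139
  (.c k140 s43_255_140 (.c k141 s43_255_141 (.c k142 s43_255_142 (.c k143 s43_255_143 (.c k144
  s43_255_144 (.c k145 s43_255_145 (.c k146 s43_255_146 (.c k147 s43_255_147 (.c k148 s43_255_148
  (.c k149 s43_255_149 (.c k150 s43_255_150 (.c k151 s43_255_151 (.c k152 s43_255_152 (.c k153
  s43_255_153 (.c k154 s43_255_154 (.c k155 s43_255_155 (.c k156 s43_255_156 (.c k157 s43_255_157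
  (.c k158 s43_255_158 (.c k159 s43_255_159 (.c k160 s43_255_160 (.c k161 s43_255_161 (.c k162
  s43_255_162 (.c k163 s43_255_163 (.c k164 s43_255_164 (.c k165 s43_255_165 (.c k166 s43_255_166
  (.c k167 s43_255_167 (.c k168 s43_255_168 (.c k169 s43_255_169 (.c k170 s43_255_170 (.c k171
  s43_255_171 (.c k172 s43_255_172 (.c k173 s43_255_173 (.c k174 s43_255_174 (.c k175 s43_255_175
  (.c k176 s43_255_176 (.c k177 s43_255_177 (.c k178 s43_255_178 (.c k179 s43_255_179 (.c k180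
  s43_255_180 (.c k181 s43_255_181 (.c k182 s43_255_182 (.c k183 s43_255_183 (.c k184 s43_255_184
  (.c k185 s43_255_185 (.c k186 s43_255_186 (.c k187 s43_255_187 (.c k188 s43_255_188 (.c k189
  s43_255_189 (.c k190 s43_255_190 (.c k191 s43_255_191 (.c k192 s43_255_192 (.c k193 s43_255_193
  (.c k194 s43_255_194 (.c k195 s43_255_195 (.c k196 s43_255_196 (.c k197 s43_255_197 (.c k198
  s43_255_198 (.c k199 s43_255_199 (.c k200 s43_255_200 (.c k201 s43_255_201 (.c k202 s43_255_202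
  (.c k203 s43_255_203 (.c k204 s43_255_204 (.c k205 s43_255_205 (.c k206 s43_255_206 (.c k207
  s43_255_207 (.c k208 s43_255_208 (.c k209 s43_255_209 (.c k210 s43_255_210 (.c k211 s43_255_211
  (.c k212 s43_255_212 (.c k213 s43_255_213 (.c k214 s43_255_214 (.c k215 s43_255_215 (.c k216
  s43_255_216 (.c k217 s43_255_217 (.c k218 s43_255_218 (.c k219 s43_255_219 (.c k220 s43_255_220
  (.c k221 s43_255_221 (.c k222 s43_255_222 (.c k223 s43_255_223 (.c k224 s43_255_224 (.c k225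
  s43_255_225 (.c k226 s43_255_226 (.c k227 s43_255_227 (.c k228 s43_255_228 (.c k229 s43_255_229
  (.c k230 s43_255_230 (.c k231 s43_255_231 (.c k232 s43_255_232 (.c k233 s43_255_233 (.c k234
  s43_255_234 (.c k235 s43_255_235 (.c k236 s43_255_236 (.c k237 s43_255_237 (.c k238 s43_255_238
  (.c k239 s43_255_239 (.c k240 s43_255_240 (.c k241 s43_255_241 (.c k242 s43_255_242 (.c k243
  s43_255_243 (.c k244 s43_255_244 (.c k245 s43_255_245 (.c k246 s43_255_246 (.c k247 s43_255_247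
  (.c k248 s43_255_248 (.c k249 s43_255_249 (.c k250 s43_255_250 (.c k251 s43_255_251 (.c k252
  s43_255_252 (.c k253 s43_255_253 (.c k254 s43_255_254
  .n))))))))))))))))))))))))))))))))))))))))))))))))))))))))))))))))))))))))))))))))
  ))))))))))))))))))))))))))))))))))))))))))))))))))))))))))))))))))))))))))))))))
  )))))))))))))))))))))))))))))))))))))))))))))))))))))))))))))))))))))))))))))))) ))))))))))))

/-- roots with certificates -/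
def certs : List (Cell TT 256 × Cell TT 256 × T TT 256) :=
  [(k42, k255, t42_255), (k43, k170, t43_170), (k43, k255, t43_255)]

theorem c42_255 : rootOK k42 k255 t42_255 = true := by decide +kernel

theorem c43_170 : rootOK k43 k170 t43_170 = true := by decide +kernel

theorem c43_255 : rootOK k43 k255 t43_255 = true := by decide +kernel

theorem ok : certsOK certs = true :=
  certsOK_cons c42_255 (certsOK_cons c43_170 (certsOK_cons c43_255 (certsOK_nil)))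

theorem sound (k : Nat) (hk : (bits certs).testBit k = true) : PI k :=
  certs_sound certs ok k hk

end Pool.Agent.TTT.B09
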