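import Pool.Agent.TTT.Sym

set_option autoImplicit false
set_option maxRecDepth 100000

namespace Pool.Agent.TTT.B10

def s47_170_1 : T TT 256 :=
  (.q k4 [(.s k101 k117 3 (.s k166 k247 12 (.s k36 k231 8 (.s k52 k20 3 (.d k199 k134 k150 8
  12))))), (.s k12 k8 1 (.s k134 k199 8 (.s k73 k195 10 (.s k77 k65 1 (.d k207 k142 k138 8 10))))),
  (.s k12 k8 1 (.s k101 k117 3 (.s k166 k247 12 (.s k89 k243 14 (.s k77 k113 5 (.d k207 k142 k138 8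
  10))))))] .n)

def s47_170_2 : T TT 256 :=
  (.f k101 k117 3 (.q k86 [(.s k87 k84 0 (.s k71 k116 4 (.s k119 k103 3 (.d k68 k70 k102 0 4)))),
  (.s k84 k87 0 (.s k207 k138 10 (.s k154 k48 14 (.s k222 k18 9 (.d k252 k237 k168 4 13))))), (.s
  k71 k116 4 (.s k207 k138 10 (.s k3 k139 9 (.s k154 k48 14 (.s k222 k18 9 (.d k252 k237 k169 4
  14))))))] (.c k70 (.l (.s k84 k87 0 (.s k116 k71 4 (.s k252 k168 13 (.s k48 k184 9 (.d k207 k138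
  k154 10 14)))))) .n)))

def s47_170_3 : T TT 256 :=
  (.q k4 [(.s k101 k117 3 (.s k166 k247 12 (.s k36 k231 8 (.s k52 k20 3 (.d k199 k134 k150 8
  12))))), (.s k12 k8 1 (.s k134 k199 8 (.s k73 k195 10 (.s k77 k65 1 (.d k207 k142 k138 8 10))))),
  (.s k12 k8 1 (.s k101 k117 3 (.s k166 k247 12 (.s k89 k243 14 (.s k77 k113 5 (.d k207 k142 k138 8
  10))))))] .n)

def s47_170_4 : T TT 256 :=
  (.q k1 [(.s k101 k117 3 (.s k169 k253 13 (.s k33 k237 9 (.s k49 k17 3 (.d k205 k137 k153 9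
  13))))), (.s k3 k2 0 (.s k137 k205 9 (.s k70 k204 10 (.s k71 k68 0 (.d k207 k139 k138 9 10))))),
  (.s k3 k2 0 (.s k101 k117 3 (.s k169 k253 13 (.s k86 k252 14 (.s k71 k116 4 (.d k207 k139 k138 9
  10))))))] .n)

def s47_170_5 : T TT 256 :=
  (.q k1 [(.s k101 k117 3 (.s k169 k253 13 (.s k33 k237 9 (.s k49 k17 3 (.d k205 k137 k153 9
  13))))), (.s k3 k2 0 (.s k137 k205 9 (.s k70 k204 10 (.s k71 k68 0 (.d k207 k139 k138 9 10))))),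
  (.s k3 k2 0 (.s k101 k117 3 (.s k169 k253 13 (.s k86 k252 14 (.s k71 k116 4 (.d k207 k139 k138 9
  10))))))] .n)

def s47_170_6 : T TT 256 :=
  (.q k1 [(.s k101 k117 3 (.s k169 k253 13 (.s k33 k237 9 (.s k49 k17 3 (.d k205 k137 k153 9
  13))))), (.s k3 k2 0 (.s k137 k205 9 (.s k70 k204 10 (.s k71 k68 0 (.d k207 k139 k138 9 10))))),
  (.s k3 k2 0 (.s k101 k117 3 (.s k169 k253 13 (.s k86 k252 14 (.s k71 k116 4 (.d k207 k139 k138 9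
  10))))))] .n)

def s47_170_7 : T TT 256 :=
  (.q k1 [(.s k101 k117 3 (.s k169 k253 13 (.s k33 k237 9 (.s k49 k17 3 (.d k205 k137 k153 9
  13))))), (.s k3 k2 0 (.s k137 k205 9 (.s k70 k204 10 (.s k71 k68 0 (.d k207 k139 k138 9 10))))),
  (.s k3 k2 0 (.s k101 k117 3 (.s k169 k253 13 (.s k86 k252 14 (.s k71 k116 4 (.d k207 k139 k138 9
  10))))))] .n)

def s47_170_8 : T TT 256 :=
  (.f k101 k117 3 (.q k89 [(.s k93 k81 1 (.s k77 k113 5 (.s k125 k109 3 (.d k65 k73 k105 1 5)))),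
  (.s k81 k93 1 (.s k207 k138 10 (.s k154 k48 14 (.s k219 k24 8 (.d k243 k231 k162 5 12))))), (.s
  k77 k113 5 (.s k207 k138 10 (.s k12 k142 8 (.s k154 k48 14 (.s k219 k24 8 (.d k243 k231 k166 5
  14))))))] (.c k73 (.l (.s k81 k93 1 (.s k113 k77 5 (.s k243 k162 12 (.s k48 k178 8 (.d k207 k138
  k154 10 14)))))) .n)))

def s47_170_9 : T TT 256 :=
  (.q k1 [(.s k101 k117 3 (.s k169 k253 13 (.s k33 k237 9 (.s k49 k17 3 (.d k205 k137 k153 9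
  13))))), (.s k3 k2 0 (.s k137 k205 9 (.s k70 k204 10 (.s k71 k68 0 (.d k207 k139 k138 9 10))))),
  (.s k3 k2 0 (.s k101 k117 3 (.s k169 k253 13 (.s k86 k252 14 (.s k71 k116 4 (.d k207 k139 k138 9
  10))))))] .n)

def s47_170_10 : T TT 256 :=
  (.q k90 [(.s k95 k80 2 (.s k101 k117 3 (.s k79 k112 6 (.s k64 k74 2 (.d k127 k111 k106 3 6))))),
  (.s k80 k95 2 (.s k207 k138 10 (.s k240 k160 11 (.s k218 k229 6 (.s k154 k26 7 (.s k16 k223 10 (.d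
  k48 k32 k101 3 14))))))), (.s k80 k95 2 (.s k101 k117 3 (.s k112 k79 6 (.s k240 k160 11 (.s k48
  k176 7 (.d k207 k138 k154 10 14)))))), (.s k101 k117 3 (.s k79 k112 6 (.s k207 k138 10 (.s k15
  k143 7 (.s k154 k48 14 (.s k218 k26 7 (.d k240 k229 k165 6 14)))))))] (.c k101 (.f k80 k95 2 (.f
  k207 k138 10 (.l (.s k240 k160 11 (.s k165 k15 14 (.s k218 k229 6 (.s k154 k26 7 (.s k16 k223 10
  (.s k176 k143 6 (.d k48 k32 k112 3 7)))))))))) (.c k138 (.l (.s k95 k80 2 (.s k101 k117 3 (.s k79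
  k112 6 (.s k127 k111 3 (.d k64 k74 k106 2 6)))))) .n)))

def s47_170_11 : T TT 256 :=
  (.q k1 [(.s k101 k117 3 (.s k169 k253 13 (.s k33 k237 9 (.s k49 k17 3 (.d k205 k137 k153 9
  13))))), (.s k3 k2 0 (.s k137 k205 9 (.s k70 k204 10 (.s k71 k68 0 (.d k207 k139 k138 9 10))))),
  (.s k3 k2 0 (.s k101 k117 3 (.s k169 k253 13 (.s k86 k252 14 (.s k71 k116 4 (.d k207 k139 k138 9
  10))))))] .n)

def s47_170_12 : T TT 256 :=
  (.q k1 [(.s k101 k117 3 (.s k169 k253 13 (.s k33 k237 9 (.s k49 k17 3 (.d k205 k137 k153 9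
  13))))), (.s k3 k2 0 (.s k137 k205 9 (.s k70 k204 10 (.s k71 k68 0 (.d k207 k139 k138 9 10))))),
  (.s k3 k2 0 (.s k101 k117 3 (.s k169 k253 13 (.s k86 k252 14 (.s k71 k116 4 (.d k207 k139 k138 9
  10))))))] .n)

def s47_170_13 : T TT 256 :=
  (.q k1 [(.s k101 k117 3 (.s k169 k253 13 (.s k33 k237 9 (.s k49 k17 3 (.d k205 k137 k153 9
  13))))), (.s k3 k2 0 (.s k137 k205 9 (.s k70 k204 10 (.s k71 k68 0 (.d k207 k139 k138 9 10))))),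
  (.s k3 k2 0 (.s k101 k117 3 (.s k169 k253 13 (.s k86 k252 14 (.s k71 k116 4 (.d k207 k139 k138 9
  10))))))] .n)

def s47_170_14 : T TT 256 :=
  (.q k1 [(.s k101 k117 3 (.s k169 k253 13 (.s k33 k237 9 (.s k49 k17 3 (.d k205 k137 k153 9
  13))))), (.s k3 k2 0 (.s k137 k205 9 (.s k70 k204 10 (.s k71 k68 0 (.d k207 k139 k138 9 10))))),
  (.s k3 k2 0 (.s k101 k117 3 (.s k169 k253 13 (.s k86 k252 14 (.s k71 k116 4 (.d k207 k139 k138 9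
  10))))))] .n)

def s47_170_15 : T TT 256 :=
  (.f k101 k117 3 (.q k63 [(.s k207 k138 10 (.s k111 k159 11 (.s k106 k96 2 (.s k64 k127 6 (.d k192
  k128 k149 7 14))))), (.s k21 k42 6 (.s k149 k213 7 (.s k53 k197 11 (.s k48 k58 2 (.d k207 k138
  k154 10 14))))), (.s k21 k42 6 (.s k149 k213 7 (.s k106 k192 14 (.s k64 k127 6 (.s k96 k111 2 (.s
  k112 k80 3 (.d k79 k74 k90 2 6)))))))] (.c k106 (.l (.s k207 k138 10 (.s k154 k48 14 (.s k159 k111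
  11 (.s k149 k144 2 (.d k21 k42 k213 6 7)))))) (.c k149 (.l (.s k207 k138 10 (.s k111 k159 11 (.s
  k106 k96 2 (.s k64 k127 6 (.s k154 k48 14 (.s k202 k58 11 (.d k192 k197 k128 2 7)))))))) .n))))

def s47_170_16 : T TT 256 :=
  (.q k1 [(.s k3 k2 0 (.s k137 k205 9 (.s k70 k204 10 (.s k71 k68 0 (.d k207 k139 k138 9 10))))),
  (.s k101 k117 3 (.s k169 k253 13 (.s k33 k237 9 (.s k49 k17 3 (.d k205 k137 k153 9 13))))), (.s k3
  k2 0 (.s k101 k117 3 (.s k169 k253 13 (.s k86 k252 14 (.s k71 k116 4 (.d k207 k139 k138 9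
  10))))))] .n)

def s47_170_17 : T TT 256 :=
  (.q k1 [(.s k137 k205 9 (.s k138 k207 10 (.s k136 k139 0 (.s k204 k68 9 (.d k3 k2 k70 0 10))))),
  (.s k101 k117 3 (.s k169 k253 13 (.s k207 k138 10 (.s k237 k33 9 (.s k252 k222 4 (.s k84 k168 13
  (.d k86 k87 k3 0 14))))))), (.s k3 k2 0 (.s k101 k117 3 (.s k137 k205 9 (.s k169 k253 13 (.s k86
  k252 14 (.s k71 k116 4 (.d k70 k68 k204 0 10)))))))] (.c k3 (.l (.s k101 k117 3 (.s k205 k137 9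
  (.s k153 k49 13 (.s k207 k138 10 (.s k204 k206 0 (.s k102 k51 14 (.d k68 k136 k119 9 4))))))))
  .n))

def s47_170_18 : T TT 256 :=
  (.q k1 [(.s k101 k117 3 (.s k169 k253 13 (.s k33 k237 9 (.s k49 k17 3 (.d k205 k137 k153 9
  13))))), (.s k3 k2 0 (.s k137 k205 9 (.s k70 k204 10 (.s k71 k68 0 (.d k207 k139 k138 9 10))))),
  (.s k3 k2 0 (.s k101 k117 3 (.s k169 k253 13 (.s k86 k252 14 (.s k71 k116 4 (.d k207 k139 k138 9
  10))))))] .n)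

def s47_170_19 : T TT 256 :=
  (.q k1 [(.s k3 k2 0 (.s k137 k205 9 (.s k70 k204 10 (.s k71 k68 0 (.d k207 k139 k138 9 10))))),
  (.s k101 k117 3 (.s k169 k253 13 (.s k33 k237 9 (.s k49 k17 3 (.d k205 k137 k153 9 13))))), (.s k3
  k2 0 (.s k101 k117 3 (.s k169 k253 13 (.s k86 k252 14 (.s k71 k116 4 (.d k207 k139 k138 9
  10))))))] .n)

def s47_170_20 : T TT 256 :=
  (.q k1 [(.s k101 k117 3 (.s k169 k253 13 (.s k33 k237 9 (.s k49 k17 3 (.d k205 k137 k153 9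
  13))))), (.s k3 k2 0 (.s k137 k205 9 (.s k70 k204 10 (.s k71 k68 0 (.d k207 k139 k138 9 10))))),
  (.s k3 k2 0 (.s k101 k117 3 (.s k169 k253 13 (.s k86 k252 14 (.s k71 k116 4 (.d k207 k139 k138 9
  10))))))] .n)

def s47_170_21 : T TT 256 :=
  (.q k1 [(.s k3 k2 0 (.s k137 k205 9 (.s k70 k204 10 (.s k71 k68 0 (.d k207 k139 k138 9 10))))),
  (.s k101 k117 3 (.s k169 k253 13 (.s k33 k237 9 (.s k49 k17 3 (.d k205 k137 k153 9 13))))), (.s k3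
  k2 0 (.s k101 k117 3 (.s k169 k253 13 (.s k86 k252 14 (.s k71 k116 4 (.d k207 k139 k138 9
  10))))))] .n)

def s47_170_22 : T TT 256 :=
  (.q k1 [(.s k101 k117 3 (.s k169 k253 13 (.s k33 k237 9 (.s k49 k17 3 (.d k205 k137 k153 9
  13))))), (.s k3 k2 0 (.s k137 k205 9 (.s k70 k204 10 (.s k71 k68 0 (.d k207 k139 k138 9 10))))),
  (.s k3 k2 0 (.s k101 k117 3 (.s k169 k253 13 (.s k86 k252 14 (.s k71 k116 4 (.d k207 k139 k138 9
  10))))))] .n)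

def s47_170_23 : T TT 256 :=
  (.q k1 [(.s k101 k117 3 (.s k169 k253 13 (.s k33 k237 9 (.s k49 k17 3 (.d k205 k137 k153 9
  13))))), (.s k3 k2 0 (.s k137 k205 9 (.s k70 k204 10 (.s k71 k68 0 (.d k207 k139 k138 9 10))))),
  (.s k3 k2 0 (.s k101 k117 3 (.s k169 k253 13 (.s k86 k252 14 (.s k71 k116 4 (.d k207 k139 k138 9
  10))))))] .n)

def s47_170_24 : T TT 256 :=
  (.q k1 [(.s k101 k117 3 (.s k169 k253 13 (.s k33 k237 9 (.s k49 k17 3 (.d k205 k137 k153 9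
  13))))), (.s k3 k2 0 (.s k137 k205 9 (.s k70 k204 10 (.s k71 k68 0 (.d k207 k139 k138 9 10))))),
  (.s k3 k2 0 (.s k101 k117 3 (.s k169 k253 13 (.s k86 k252 14 (.s k71 k116 4 (.d k207 k139 k138 9
  10))))))] .n)

def s47_170_25 : T TT 256 :=
  (.q k1 [(.s k3 k2 0 (.s k137 k205 9 (.s k70 k204 10 (.s k71 k68 0 (.d k207 k139 k138 9 10))))),
  (.s k101 k117 3 (.s k169 k253 13 (.s k33 k237 9 (.s k49 k17 3 (.d k205 k137 k153 9 13))))), (.s k3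
  k2 0 (.s k101 k117 3 (.s k169 k253 13 (.s k86 k252 14 (.s k71 k116 4 (.d k207 k139 k138 9
  10))))))] .n)

def s47_170_26 : T TT 256 :=
  (.q k1 [(.s k101 k117 3 (.s k169 k253 13 (.s k33 k237 9 (.s k49 k17 3 (.d k205 k137 k153 9
  13))))), (.s k3 k2 0 (.s k137 k205 9 (.s k70 k204 10 (.s k71 k68 0 (.d k207 k139 k138 9 10))))),
  (.s k3 k2 0 (.s k101 k117 3 (.s k169 k253 13 (.s k86 k252 14 (.s k71 k116 4 (.d k207 k139 k138 9
  10))))))] .n)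

def s47_170_27 : T TT 256 :=
  (.q k1 [(.s k101 k117 3 (.s k169 k253 13 (.s k33 k237 9 (.s k49 k17 3 (.d k205 k137 k153 9
  13))))), (.s k3 k2 0 (.s k137 k205 9 (.s k70 k204 10 (.s k71 k68 0 (.d k207 k139 k138 9 10))))),
  (.s k3 k2 0 (.s k101 k117 3 (.s k169 k253 13 (.s k86 k252 14 (.s k71 k116 4 (.d k207 k139 k138 9
  10))))))] .n)

def s47_170_28 : T TT 256 :=
  (.q k1 [(.s k101 k117 3 (.s k169 k253 13 (.s k33 k237 9 (.s k49 k17 3 (.d k205 k137 k153 9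
  13))))), (.s k3 k2 0 (.s k137 k205 9 (.s k70 k204 10 (.s k71 k68 0 (.d k207 k139 k138 9 10))))),
  (.s k3 k2 0 (.s k101 k117 3 (.s k169 k253 13 (.s k86 k252 14 (.s k71 k116 4 (.d k207 k139 k138 9
  10))))))] .n)

def s47_170_29 : T TT 256 :=
  (.q k1 [(.s k3 k2 0 (.s k137 k205 9 (.s k70 k204 10 (.s k71 k68 0 (.d k207 k139 k138 9 10))))),
  (.s k101 k117 3 (.s k169 k253 13 (.s k33 k237 9 (.s k49 k17 3 (.d k205 k137 k153 9 13))))), (.s k3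
  k2 0 (.s k101 k117 3 (.s k169 k253 13 (.s k86 k252 14 (.s k71 k116 4 (.d k207 k139 k138 9
  10))))))] .n)

def s47_170_30 : T TT 256 :=
  (.q k1 [(.s k101 k117 3 (.s k169 k253 13 (.s k33 k237 9 (.s k49 k17 3 (.d k205 k137 k153 9
  13))))), (.s k3 k2 0 (.s k137 k205 9 (.s k70 k204 10 (.s k71 k68 0 (.d k207 k139 k138 9 10))))),
  (.s k3 k2 0 (.s k101 k117 3 (.s k169 k253 13 (.s k86 k252 14 (.s k71 k116 4 (.d k207 k139 k138 9
  10))))))] .n)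

def s47_170_31 : T TT 256 :=
  (.q k15 [(.s k10 k5 2 (.s k138 k207 10 (.s k74 k202 7 (.s k64 k79 2 (.d k192 k128 k133 7 10))))),
  (.s k5 k10 2 (.s k101 k117 3 (.s k165 k245 11 (.s k37 k229 7 (.s k53 k21 3 (.d k197 k133 k149 7
  11)))))), (.s k101 k117 3 (.s k207 k138 10 (.s k79 k143 7 (.s k90 k112 6 (.s k80 k95 2 (.d k240
  k160 k165 11 14))))))] (.c k133 (.l (.s k5 k10 2 (.s k101 k117 3 (.s k165 k245 11 (.s k37 k229 7
  (.s k48 k26 6 (.d k207 k138 k154 10 14))))))) .n))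

def s47_170_32 : T TT 256 :=
  (.f k101 k117 3 (.q k165 [(.s k5 k245 11 (.s k37 k229 7 (.s k53 k21 3 (.d k197 k133 k149 7 11)))),
  (.s k207 k138 10 (.s k154 k48 14 (.s k143 k176 6 (.s k15 k79 7 (.s k240 k90 14 (.d k229 k37 k218 7
  6))))))] (.c k37 (.q k42 [(.s k5 k245 11 (.s k21 k63 6 (.s k133 k197 7 (.d k149 k181 k213 3 7)))),
  (.s k207 k138 10 (.s k154 k48 14 (.s k143 k176 6 (.s k15 k79 7 (.d k5 k10 k245 2 11))))), (.s k63
  k21 6 (.s k207 k138 10 (.s k111 k159 11 (.s k106 k96 2 (.s k64 k127 6 (.d k192 k128 k149 7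
  14))))))] (.c k5 (.f k21 k63 6 (.l (.s k149 k213 7 (.s k197 k53 11 (.s k207 k138 10 (.s k192 k202
  2 (.s k64 k128 7 (.s k74 k79 2 (.d k133 k181 k15 3 10))))))))) .n)) (.c k42 (.l (.s k37 k229 7 (.s
  k5 k245 11 (.s k53 k21 3 (.d k197 k133 k149 7 11))))) (.c k229 (.l (.s k5 k245 11 (.s k15 k10 2
  (.s k90 k240 14 (.s k79 k112 6 (.d k207 k143 k138 7 10)))))) .n)))))

def s47_170_33 : T TT 256 :=
  (.q k1 [(.s k101 k117 3 (.s k205 k137 9 (.s k153 k49 13 (.s k221 k17 9 (.d k253 k237 k169 3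
  13))))), (.s k3 k2 0 (.s k137 k205 9 (.s k70 k204 10 (.s k71 k68 0 (.d k207 k139 k138 9 10))))),
  (.s k3 k2 0 (.s k101 k117 3 (.s k169 k253 13 (.s k86 k252 14 (.s k71 k116 4 (.d k207 k139 k138 9
  10))))))] .n)

def s47_170_34 : T TT 256 :=
  (.q k102 [(.s k68 k119 4 (.s k71 k70 0 (.s k101 k117 3 (.s k100 k103 0 (.d k116 k84 k86 3 4))))),
  (.s k101 k117 3 (.s k103 k100 0 (.s k207 k138 10 (.s k51 k155 13 (.s k153 k204 14 (.s k49 k205 13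
  (.d k48 k154 k50 14 0))))))), (.s k68 k119 4 (.s k70 k71 0 (.s k138 k207 10 (.s k2 k206 9 (.s k3
  k1 0 (.d k204 k136 k137 9 10))))))] (.c k103 (.l (.s k68 k119 4 (.s k101 k117 3 (.s k204 k136 9
  (.s k153 k51 14 (.s k205 k49 13 (.d k207 k206 k138 0 10))))))) .n))

def s47_170_35 : T TT 256 :=
  (.f k138 k207 10 (.f k101 k117 3 (.q k64 [(.s k79 k74 2 (.s k90 k112 6 (.s k95 k80 2 (.d k127 k111
  k106 3 6)))), (.s k74 k79 2 (.s k10 k202 7 (.s k15 k5 2 (.d k192 k128 k133 7 10)))), (.s k106 k127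
  6 (.s k192 k128 7 (.s k149 k63 14 (.s k197 k53 11 (.s k5 k133 7 (.s k213 k21 7 (.d k245 k229 k165
  3 11)))))))] (.c k39 (.q k43 [(.s k79 k74 2 (.s k90 k112 6 (.s k95 k80 2 (.d k127 k111 k106 3
  6)))), (.s k74 k79 2 (.s k10 k202 7 (.s k15 k5 2 (.d k192 k128 k133 7 10)))), (.s k106 k127 6 (.s
  k169 k232 8 (.s k1 k253 13 (.s k3 k2 0 (.s k63 k23 5 (.d k192 k128 k149 7 14))))))] .n) (.c k43
  (.q k39 [(.s k79 k74 2 (.s k90 k112 6 (.s k95 k80 2 (.d k127 k111 k106 3 6)))), (.s k74 k79 2 (.s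
  k10 k202 7 (.s k15 k5 2 (.d k192 k128 k133 7 10)))), (.s k106 k127 6 (.s k192 k128 7 (.s k149 k63
  14 (.s k197 k53 11 (.s k5 k133 7 (.s k213 k21 7 (.d k245 k229 k165 3 11)))))))] .n) .n)))))

def s47_170_36 : T TT 256 :=
  (.q k1 [(.s k101 k117 3 (.s k169 k253 13 (.s k33 k237 9 (.s k49 k17 3 (.d k205 k137 k153 9
  13))))), (.s k3 k2 0 (.s k137 k205 9 (.s k70 k204 10 (.s k71 k68 0 (.d k207 k139 k138 9 10))))),
  (.s k3 k2 0 (.s k101 k117 3 (.s k169 k253 13 (.s k86 k252 14 (.s k71 k116 4 (.d k207 k139 k138 9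
  10))))))] .n)

def s47_170_37 : T TT 256 :=
  (.f k101 k117 3 (.q k64 [(.s k79 k74 2 (.s k90 k112 6 (.s k95 k80 2 (.d k127 k111 k106 3 6)))),
  (.s k74 k79 2 (.s k138 k207 10 (.s k10 k202 7 (.s k15 k5 2 (.d k192 k128 k133 7 10))))), (.s k106
  k127 6 (.s k111 k96 2 (.s k192 k128 7 (.s k207 k138 10 (.d k63 k149 k159 14 11)))))] (.c k32 (.q
  k42 [(.s k106 k127 6 (.s k192 k128 7 (.d k63 k149 k21 14 6))), (.s k79 k74 2 (.s k90 k112 6 (.s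
  k95 k80 2 (.d k127 k111 k106 3 6)))), (.s k21 k63 6 (.s k149 k213 7 (.s k192 k128 7 (.s k197 k53
  11 (.d k207 k202 k138 2 10)))))] .n) (.c k42 (.q k32 [(.s k48 k16 3 (.d k207 k138 k154 10 14)),
  (.s k79 k74 2 (.s k90 k112 6 (.s k95 k80 2 (.d k127 k106 k111 6 3))))] (.c k106 (.q k234 [(.s k48
  k16 3 (.d k207 k138 k154 10 14)), (.s k48 k16 3 (.s k79 k74 2 (.s k192 k128 7 (.s k96 k144 11 (.d
  k112 k80 k90 3 6))))), (.s k74 k79 2 (.s k138 k207 10 (.s k10 k202 7 (.s k15 k5 2 (.d k192 k128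
  k133 7 10)))))] (.c k165 (.q k224 [(.s k48 k16 3 (.d k207 k138 k154 10 14)), (.s k160 k96 7 (.s
  k192 k128 7 (.d k240 k208 k80 3 11)))] (.c k160 (.q k175 [(.s k48 k16 3 (.d k207 k138 k154 10
  14)), (.s k74 k79 2 (.s k192 k128 7 (.s k255 k213 6 (.d k15 k133 k95 10 11))))] .n) (.c k175 (.l
  (.s k160 k96 7 (.s k48 k16 3 (.d k207 k138 k154 10 14)))) .n))) (.c k224 (.q k165 [(.s k48 k16 3
  (.d k207 k138 k154 10 14)), (.s k5 k245 11 (.s k15 k10 2 (.s k74 k79 2 (.d k133 k197 k192 7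
  10))))] .n) .n))) (.c k234 (.l (.s k106 k127 6 (.s k48 k16 3 (.d k207 k138 k154 10 14)))) .n)))
  .n))))

def s47_170_38 : T TT 256 :=
  (.q k1 [(.s k101 k117 3 (.s k169 k253 13 (.s k33 k237 9 (.s k49 k17 3 (.d k205 k137 k153 9
  13))))), (.s k3 k2 0 (.s k137 k205 9 (.s k70 k204 10 (.s k71 k68 0 (.d k207 k139 k138 9 10))))),
  (.s k3 k2 0 (.s k101 k117 3 (.s k169 k253 13 (.s k86 k252 14 (.s k71 k116 4 (.d k207 k139 k138 9
  10))))))] .n)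

def s47_170_39 : T TT 256 :=
  (.f k138 k207 10 (.f k101 k117 3 (.q k4 [(.s k134 k199 8 (.s k130 k142 1 (.s k195 k65 8 (.d k12 k8
  k73 1 10)))), (.s k166 k247 12 (.s k36 k231 8 (.s k52 k20 3 (.d k199 k134 k150 8 12)))), (.s k12
  k8 1 (.s k166 k247 12 (.s k89 k243 14 (.s k77 k113 5 (.s k65 k73 1 (.s k93 k81 1 (.d k125 k109
  k105 3 5)))))))] (.c k35 (.q k43 [(.s k134 k199 8 (.s k130 k142 1 (.s k195 k65 8 (.d k12 k8 k73 1
  10)))), (.s k166 k247 12 (.s k36 k231 8 (.s k52 k20 3 (.d k199 k134 k150 8 12)))), (.s k12 k8 1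
  (.s k166 k247 12 (.s k89 k243 14 (.s k77 k113 5 (.s k65 k73 1 (.s k93 k81 1 (.d k125 k109 k105 3
  5)))))))] .n) (.c k43 (.q k35 [(.s k134 k199 8 (.s k130 k142 1 (.s k195 k65 8 (.d k12 k8 k73 1
  10)))), (.s k166 k247 12 (.s k36 k231 8 (.s k52 k20 3 (.d k199 k134 k150 8 12)))), (.s k12 k8 1
  (.s k166 k247 12 (.s k89 k243 14 (.s k77 k113 5 (.s k65 k73 1 (.s k93 k81 1 (.d k125 k109 k105 3
  5)))))))] .n) .n)))))

def s47_170_40 : T TT 256 :=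
  (.q k105 [(.s k65 k125 5 (.s k77 k73 1 (.s k101 k117 3 (.s k97 k109 1 (.d k113 k81 k89 3 5))))),
  (.s k101 k117 3 (.s k109 k97 1 (.s k207 k138 10 (.s k60 k158 12 (.s k150 k195 14 (.s k52 k199 12
  (.d k48 k154 k56 14 1))))))), (.s k65 k125 5 (.s k73 k77 1 (.s k138 k207 10 (.s k8 k203 8 (.s k12
  k4 1 (.d k195 k130 k134 8 10))))))] (.c k109 (.l (.s k65 k125 5 (.s k101 k117 3 (.s k195 k130 8
  (.s k150 k60 14 (.s k199 k52 12 (.d k207 k203 k138 1 10))))))) .n))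

def s47_170_41 : T TT 256 :=
  (.q k1 [(.s k101 k117 3 (.s k169 k253 13 (.s k33 k237 9 (.s k49 k17 3 (.d k205 k137 k153 9
  13))))), (.s k3 k2 0 (.s k137 k205 9 (.s k70 k204 10 (.s k71 k68 0 (.d k207 k139 k138 9 10))))),
  (.s k3 k2 0 (.s k101 k117 3 (.s k169 k253 13 (.s k86 k252 14 (.s k71 k116 4 (.d k207 k139 k138 9
  10))))))] .n)

def s47_170_42 : T TT 256 :=
  (.f k101 k117 3 (.q k106 [(.s k64 k127 6 (.s k79 k74 2 (.s k96 k111 2 (.d k112 k80 k90 3 6)))),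
  (.s k111 k96 2 (.s k207 k138 10 (.s k63 k159 11 (.s k149 k192 14 (.s k53 k197 11 (.d k48 k154 k58
  14 2)))))), (.s k64 k127 6 (.s k192 k128 7 (.s k149 k63 14 (.s k197 k53 11 (.d k207 k202 k138 2
  10)))))] (.c k32 (.q k37 [(.s k165 k229 7 (.s k5 k245 11 (.s k53 k21 3 (.d k197 k133 k149 7
  11)))), (.s k64 k127 6 (.s k79 k74 2 (.s k96 k111 2 (.d k112 k80 k90 3 6))))] .n) (.c k37 (.q k32
  [(.s k48 k16 3 (.d k207 k138 k154 10 14)), (.s k64 k127 6 (.s k79 k74 2 (.s k96 k111 2 (.d k112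
  k80 k90 3 6))))] .n) .n))))

def s47_170_43 : T TT 256 :=
  (.f k138 k207 10 (.f k101 k117 3 (.q k64 [(.s k79 k74 2 (.s k90 k112 6 (.s k95 k80 2 (.d k127 k111
  k106 3 6)))), (.s k74 k79 2 (.s k10 k202 7 (.s k15 k5 2 (.d k192 k128 k133 7 10)))), (.s k106 k127
  6 (.s k192 k128 7 (.s k149 k63 14 (.s k197 k53 11 (.s k5 k133 7 (.s k213 k21 7 (.d k245 k229 k165
  3 11)))))))] (.c k35 (.q k39 [(.s k79 k74 2 (.s k90 k112 6 (.s k95 k80 2 (.d k127 k111 k106 3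
  6)))), (.s k74 k79 2 (.s k10 k202 7 (.s k15 k5 2 (.d k192 k128 k133 7 10)))), (.s k106 k127 6 (.s
  k192 k128 7 (.s k149 k63 14 (.s k197 k53 11 (.s k5 k133 7 (.s k213 k21 7 (.d k245 k229 k165 3
  11)))))))] .n) (.c k39 (.q k35 [(.s k79 k74 2 (.s k90 k112 6 (.s k95 k80 2 (.d k127 k111 k106 3
  6)))), (.s k74 k79 2 (.s k10 k202 7 (.s k15 k5 2 (.d k192 k128 k133 7 10)))), (.s k106 k127 6 (.s
  k192 k128 7 (.s k149 k63 14 (.s k197 k53 11 (.s k5 k133 7 (.s k213 k21 7 (.d k245 k229 k165 3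
  11)))))))] .n) .n)))))

def s47_170_44 : T TT 256 :=
  (.f k138 k207 10 (.f k101 k117 3 (.q k4 [(.s k134 k199 8 (.s k130 k142 1 (.s k195 k65 8 (.d k12 k8
  k73 1 10)))), (.s k166 k247 12 (.s k36 k231 8 (.s k52 k20 3 (.d k199 k134 k150 8 12)))), (.s k12
  k8 1 (.s k166 k247 12 (.s k89 k243 14 (.s k77 k113 5 (.s k65 k73 1 (.s k93 k81 1 (.d k125 k109
  k105 3 5)))))))] (.c k45 (.q k46 [(.s k134 k199 8 (.s k130 k142 1 (.s k195 k65 8 (.d k12 k8 k73 1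
  10)))), (.s k166 k247 12 (.s k36 k231 8 (.s k52 k20 3 (.d k199 k134 k150 8 12)))), (.s k12 k8 1
  (.s k63 k29 4 (.s k21 k42 6 (.s k149 k213 7 (.s k106 k192 14 (.d k166 k226 k247 9 12))))))] .n)
  (.c k46 (.q k45 [(.s k134 k199 8 (.s k130 k142 1 (.s k195 k65 8 (.d k12 k8 k73 1 10)))), (.s k166
  k247 12 (.s k36 k231 8 (.s k52 k20 3 (.d k199 k134 k150 8 12)))), (.s k12 k8 1 (.s k166 k247 12
  (.s k89 k243 14 (.s k77 k113 5 (.s k65 k73 1 (.s k93 k81 1 (.d k125 k109 k105 3 5)))))))] .n)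
  .n)))))

def s47_170_45 : T TT 256 :=
  (.f k138 k207 10 (.f k101 k117 3 (.q k4 [(.s k134 k199 8 (.s k130 k142 1 (.s k195 k65 8 (.d k12 k8
  k73 1 10)))), (.s k166 k247 12 (.s k36 k231 8 (.s k52 k20 3 (.d k199 k134 k150 8 12)))), (.s k12
  k8 1 (.s k166 k247 12 (.s k89 k243 14 (.s k77 k113 5 (.s k65 k73 1 (.s k93 k81 1 (.d k125 k109
  k105 3 5)))))))] (.c k44 (.q k46 [(.s k134 k199 8 (.s k130 k142 1 (.s k195 k65 8 (.d k12 k8 k73 1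
  10)))), (.s k166 k247 12 (.s k36 k231 8 (.s k52 k20 3 (.d k199 k134 k150 8 12)))), (.s k12 k8 1
  (.s k63 k29 4 (.s k21 k42 6 (.s k149 k213 7 (.s k106 k192 14 (.d k166 k226 k247 9 12))))))] .n)
  (.c k46 (.q k44 [(.s k134 k199 8 (.s k130 k142 1 (.s k195 k65 8 (.d k12 k8 k73 1 10)))), (.s k166
  k247 12 (.s k36 k231 8 (.s k40 k32 1 (.d k20 k52 k60 3 5))))] (.c k199 (.l (.s k8 k12 1 (.s k166
  k247 12 (.s k105 k227 10 (.s k65 k125 5 (.d k73 k77 k203 1 8)))))) .n)) .n)))))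

def s47_170_46 : T TT 256 :=
  (.f k138 k207 10 (.f k101 k117 3 (.q k4 [(.s k134 k199 8 (.s k130 k142 1 (.s k195 k65 8 (.d k12 k8
  k73 1 10)))), (.s k166 k247 12 (.s k36 k231 8 (.s k52 k20 3 (.d k199 k134 k150 8 12)))), (.s k12
  k8 1 (.s k166 k247 12 (.s k89 k243 14 (.s k77 k113 5 (.s k65 k73 1 (.s k93 k81 1 (.d k125 k109
  k105 3 5)))))))] (.c k44 (.q k45 [(.s k134 k199 8 (.s k130 k142 1 (.s k195 k65 8 (.d k12 k8 k73 1
  10)))), (.s k166 k247 12 (.s k36 k231 8 (.s k52 k20 3 (.d k199 k134 k150 8 12)))), (.s k12 k8 1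
  (.s k166 k247 12 (.s k89 k243 14 (.s k77 k113 5 (.s k65 k73 1 (.s k93 k81 1 (.d k125 k109 k105 3
  5)))))))] .n) (.c k45 (.q k44 [(.s k134 k199 8 (.s k130 k142 1 (.s k195 k65 8 (.d k12 k8 k73 1
  10)))), (.s k166 k247 12 (.s k36 k231 8 (.s k40 k32 1 (.d k20 k52 k60 3 5))))] (.c k199 (.l (.s k8
  k12 1 (.s k166 k247 12 (.s k105 k227 10 (.s k65 k125 5 (.d k73 k77 k203 1 8)))))) .n)) .n)))))

def s47_170_48 : T TT 256 :=
  (.q k1 [(.s k101 k117 3 (.s k169 k253 13 (.s k33 k237 9 (.s k49 k17 3 (.d k205 k137 k153 9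
  13))))), (.s k3 k2 0 (.s k137 k205 9 (.s k70 k204 10 (.s k71 k68 0 (.d k207 k139 k138 9 10))))),
  (.s k3 k2 0 (.s k101 k117 3 (.s k169 k253 13 (.s k86 k252 14 (.s k207 k138 10 (.d k71 k116 k139 4
  9))))))] .n)

def s47_170_49 : T TT 256 :=
  (.q k3 [(.s k2 k1 0 (.s k138 k207 10 (.s k70 k206 9 (.s k68 k71 0 (.d k204 k136 k137 9 10))))),
  (.s k101 k117 3 (.s k207 k138 10 (.s k71 k139 9 (.s k86 k116 4 (.s k84 k87 0 (.d k252 k168 k169 13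
  14)))))), (.s k1 k2 0 (.s k101 k117 3 (.s k207 k138 10 (.s k139 k71 9 (.s k154 k48 14 (.d k169
  k253 k184 13 4)))))), (.s k1 k2 0 (.s k137 k205 9 (.s k169 k253 13 (.s k204 k70 10 (.s k68 k136 9
  (.s k102 k119 4 (.d k153 k185 k51 3 14)))))))] (.c k138 (.l (.s k1 k2 0 (.s k101 k117 3 (.s k137
  k205 9 (.s k70 k204 10 (.s k71 k68 0 (.s k86 k116 4 (.d k169 k253 k252 13 14)))))))) .n))

def s47_170_50 : T TT 256 :=
  (.q k1 [(.s k101 k117 3 (.s k169 k253 13 (.s k33 k237 9 (.s k49 k17 3 (.d k205 k137 k153 9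
  13))))), (.s k3 k2 0 (.s k137 k205 9 (.s k70 k204 10 (.s k71 k68 0 (.d k207 k139 k138 9 10))))),
  (.s k3 k2 0 (.s k101 k117 3 (.s k169 k253 13 (.s k86 k252 14 (.s k71 k116 4 (.d k207 k139 k138 9
  10))))))] .n)

def s47_170_51 : T TT 256 :=
  (.q k1 [(.s k101 k117 3 (.s k169 k253 13 (.s k33 k237 9 (.s k49 k17 3 (.d k205 k137 k153 9
  13))))), (.s k3 k2 0 (.s k137 k205 9 (.s k138 k207 10 (.s k136 k139 0 (.d k204 k68 k70 9 10))))),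
  (.s k3 k2 0 (.s k101 k117 3 (.s k169 k253 13 (.s k86 k252 14 (.s k71 k116 4 (.d k207 k139 k138 9
  10))))))] .n)

def s47_170_52 : T TT 256 :=
  (.q k1 [(.s k3 k2 0 (.s k137 k205 9 (.s k70 k204 10 (.s k71 k68 0 (.d k207 k139 k138 9 10))))),
  (.s k101 k117 3 (.s k169 k253 13 (.s k33 k237 9 (.s k49 k17 3 (.d k205 k137 k153 9 13))))), (.s k3
  k2 0 (.s k101 k117 3 (.s k169 k253 13 (.s k86 k252 14 (.s k71 k116 4 (.d k207 k139 k138 9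
  10))))))] .n)

def s47_170_53 : T TT 256 :=
  (.q k1 [(.s k3 k2 0 (.s k137 k205 9 (.s k70 k204 10 (.s k71 k68 0 (.d k207 k139 k138 9 10))))),
  (.s k101 k117 3 (.s k169 k253 13 (.s k33 k237 9 (.s k49 k17 3 (.d k205 k137 k153 9 13))))), (.s k3
  k2 0 (.s k101 k117 3 (.s k169 k253 13 (.s k86 k252 14 (.s k71 k116 4 (.d k207 k139 k138 9
  10))))))] .n)

def s47_170_54 : T TT 256 :=
  (.q k1 [(.s k101 k117 3 (.s k169 k253 13 (.s k33 k237 9 (.s k49 k17 3 (.d k205 k137 k153 9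
  13))))), (.s k3 k2 0 (.s k137 k205 9 (.s k70 k204 10 (.s k71 k68 0 (.d k207 k139 k138 9 10))))),
  (.s k3 k2 0 (.s k101 k117 3 (.s k169 k253 13 (.s k86 k252 14 (.s k71 k116 4 (.d k207 k139 k138 9
  10))))))] .n)

def s47_170_55 : T TT 256 :=
  (.q k1 [(.s k101 k117 3 (.s k169 k253 13 (.s k33 k237 9 (.s k49 k17 3 (.d k205 k137 k153 9
  13))))), (.s k3 k2 0 (.s k137 k205 9 (.s k70 k204 10 (.s k71 k68 0 (.d k207 k139 k138 9 10))))),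
  (.s k3 k2 0 (.s k101 k117 3 (.s k169 k253 13 (.s k86 k252 14 (.s k71 k116 4 (.d k207 k139 k138 9
  10))))))] .n)

def s47_170_56 : T TT 256 :=
  (.q k1 [(.s k101 k117 3 (.s k169 k253 13 (.s k33 k237 9 (.s k49 k17 3 (.d k205 k137 k153 9
  13))))), (.s k3 k2 0 (.s k137 k205 9 (.s k70 k204 10 (.s k71 k68 0 (.d k207 k139 k138 9 10))))),
  (.s k3 k2 0 (.s k101 k117 3 (.s k169 k253 13 (.s k86 k252 14 (.s k71 k116 4 (.d k207 k139 k138 9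
  10))))))] .n)

def s47_170_57 : T TT 256 :=
  (.q k1 [(.s k101 k117 3 (.s k169 k253 13 (.s k33 k237 9 (.s k49 k17 3 (.d k205 k137 k153 9
  13))))), (.s k3 k2 0 (.s k137 k205 9 (.s k70 k204 10 (.s k71 k68 0 (.d k207 k139 k138 9 10))))),
  (.s k3 k2 0 (.s k101 k117 3 (.s k169 k253 13 (.s k86 k252 14 (.s k71 k116 4 (.d k207 k139 k138 9
  10))))))] .n)

def s47_170_58 : T TT 256 :=
  (.q k1 [(.s k101 k117 3 (.s k169 k253 13 (.s k33 k237 9 (.s k49 k17 3 (.d k205 k137 k153 9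
  13))))), (.s k3 k2 0 (.s k137 k205 9 (.s k70 k204 10 (.s k71 k68 0 (.d k207 k139 k138 9 10))))),
  (.s k3 k2 0 (.s k101 k117 3 (.s k169 k253 13 (.s k86 k252 14 (.s k71 k116 4 (.d k207 k139 k138 9
  10))))))] .n)

def s47_170_59 : T TT 256 :=
  (.q k1 [(.s k101 k117 3 (.s k169 k253 13 (.s k33 k237 9 (.s k49 k17 3 (.d k205 k137 k153 9
  13))))), (.s k3 k2 0 (.s k137 k205 9 (.s k70 k204 10 (.s k71 k68 0 (.d k207 k139 k138 9 10))))),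
  (.s k3 k2 0 (.s k101 k117 3 (.s k169 k253 13 (.s k86 k252 14 (.s k71 k116 4 (.d k207 k139 k138 9
  10))))))] .n)

def s47_170_60 : T TT 256 :=
  (.q k1 [(.s k101 k117 3 (.s k169 k253 13 (.s k33 k237 9 (.s k49 k17 3 (.d k205 k137 k153 9
  13))))), (.s k3 k2 0 (.s k137 k205 9 (.s k70 k204 10 (.s k71 k68 0 (.d k207 k139 k138 9 10))))),
  (.s k3 k2 0 (.s k101 k117 3 (.s k169 k253 13 (.s k86 k252 14 (.s k71 k116 4 (.d k207 k139 k138 9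
  10))))))] .n)

def s47_170_61 : T TT 256 :=
  (.q k1 [(.s k101 k117 3 (.s k169 k253 13 (.s k33 k237 9 (.s k49 k17 3 (.d k205 k137 k153 9
  13))))), (.s k3 k2 0 (.s k137 k205 9 (.s k70 k204 10 (.s k71 k68 0 (.d k207 k139 k138 9 10))))),
  (.s k3 k2 0 (.s k101 k117 3 (.s k169 k253 13 (.s k86 k252 14 (.s k71 k116 4 (.d k207 k139 k138 9
  10))))))] .n)

def s47_170_62 : T TT 256 :=
  (.q k1 [(.s k101 k117 3 (.s k169 k253 13 (.s k33 k237 9 (.s k49 k17 3 (.d k205 k137 k153 9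
  13))))), (.s k3 k2 0 (.s k137 k205 9 (.s k70 k204 10 (.s k71 k68 0 (.d k207 k139 k138 9 10))))),
  (.s k3 k2 0 (.s k101 k117 3 (.s k169 k253 13 (.s k86 k252 14 (.s k71 k116 4 (.d k207 k139 k138 9
  10))))))] .n)

def s47_170_63 : T TT 256 :=
  (.q k15 [(.s k10 k5 2 (.s k138 k207 10 (.s k74 k202 7 (.s k64 k79 2 (.d k192 k128 k133 7 10))))),
  (.s k5 k10 2 (.s k101 k117 3 (.s k165 k245 11 (.s k37 k229 7 (.s k53 k21 3 (.d k197 k133 k149 7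
  11)))))), (.s k101 k117 3 (.s k207 k138 10 (.s k79 k143 7 (.s k90 k112 6 (.s k80 k95 2 (.d k240
  k160 k165 11 14))))))] (.c k133 (.l (.s k5 k10 2 (.s k101 k117 3 (.s k165 k245 11 (.s k37 k229 7
  (.s k48 k26 6 (.d k207 k138 k154 10 14))))))) .n))

def s47_170_64 : T TT 256 :=
  (.q k1 [(.s k101 k117 3 (.s k169 k253 13 (.s k33 k237 9 (.s k49 k17 3 (.d k205 k137 k153 9
  13))))), (.s k3 k2 0 (.s k137 k205 9 (.s k70 k204 10 (.s k71 k68 0 (.d k207 k139 k138 9 10))))),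
  (.s k3 k2 0 (.s k101 k117 3 (.s k169 k253 13 (.s k86 k252 14 (.s k71 k116 4 (.d k207 k139 k138 9
  10))))))] .n)

def s47_170_65 : T TT 256 :=
  (.q k1 [(.s k101 k117 3 (.s k169 k253 13 (.s k33 k237 9 (.s k49 k17 3 (.d k205 k137 k153 9
  13))))), (.s k3 k2 0 (.s k137 k205 9 (.s k70 k204 10 (.s k71 k68 0 (.d k207 k139 k138 9 10))))),
  (.s k3 k2 0 (.s k101 k117 3 (.s k169 k253 13 (.s k86 k252 14 (.s k71 k116 4 (.d k207 k139 k138 9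
  10))))))] .n)

def s47_170_66 : T TT 256 :=
  (.q k1 [(.s k101 k117 3 (.s k169 k253 13 (.s k33 k237 9 (.s k49 k17 3 (.d k205 k137 k153 9
  13))))), (.s k3 k2 0 (.s k137 k205 9 (.s k70 k204 10 (.s k71 k68 0 (.d k207 k139 k138 9 10))))),
  (.s k3 k2 0 (.s k101 k117 3 (.s k169 k253 13 (.s k86 k252 14 (.s k71 k116 4 (.d k207 k139 k138 9
  10))))))] .n)

def s47_170_67 : T TT 256 :=
  (.q k1 [(.s k101 k117 3 (.s k169 k253 13 (.s k33 k237 9 (.s k49 k17 3 (.d k205 k137 k153 9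
  13))))), (.s k3 k2 0 (.s k137 k205 9 (.s k70 k204 10 (.s k71 k68 0 (.d k207 k139 k138 9 10))))),
  (.s k3 k2 0 (.s k101 k117 3 (.s k169 k253 13 (.s k86 k252 14 (.s k71 k116 4 (.d k207 k139 k138 9
  10))))))] .n)

def s47_170_68 : T TT 256 :=
  (.q k1 [(.s k101 k117 3 (.s k205 k137 9 (.s k153 k49 13 (.s k221 k17 9 (.d k253 k237 k169 3
  13))))), (.s k3 k2 0 (.s k169 k253 13 (.s k207 k138 10 (.s k139 k71 9 (.s k154 k184 4 (.s k16 k223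
  10 (.d k48 k32 k101 3 14)))))))] (.c k101 (.l (.s k3 k2 0 (.s k137 k205 9 (.s k169 k253 13 (.s
  k153 k185 3 (.s k204 k70 10 (.s k51 k102 14 (.d k17 k34 k221 4 9)))))))) (.c k169 (.l (.s k101
  k117 3 (.s k205 k137 9 (.s k153 k49 13 (.s k17 k221 9 (.s k51 k34 4 (.s k207 k138 10 (.d k204 k102
  k206 14 0)))))))) (.c k253 (.l (.s k3 k2 0 (.s k101 k117 3 (.s k205 k137 9 (.s k49 k153 13 (.s k33
  k17 3 (.s k48 k18 4 (.d k207 k138 k154 10 14)))))))) .n))))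

def s47_170_70 : T TT 256 :=
  (.q k4 [(.s k101 k117 3 (.s k166 k247 12 (.s k36 k231 8 (.s k52 k20 3 (.d k199 k134 k150 8
  12))))), (.s k12 k8 1 (.s k134 k199 8 (.s k73 k195 10 (.s k77 k65 1 (.d k207 k142 k138 8 10))))),
  (.s k12 k8 1 (.s k101 k117 3 (.s k166 k247 12 (.s k89 k243 14 (.s k77 k113 5 (.d k207 k142 k138 8
  10))))))] .n)

def s47_170_71 : T TT 256 :=
  (.q k1 [(.s k101 k117 3 (.s k169 k253 13 (.s k33 k237 9 (.s k49 k17 3 (.d k205 k137 k153 9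
  13))))), (.s k3 k2 0 (.s k137 k205 9 (.s k138 k207 10 (.s k136 k139 0 (.d k204 k68 k70 9 10))))),
  (.s k3 k2 0 (.s k101 k117 3 (.s k169 k253 13 (.s k207 k138 10 (.s k237 k33 9 (.d k252 k86 k222 14
  4))))))] .n)

def s47_170_72 : T TT 256 :=
  (.q k1 [(.s k101 k117 3 (.s k169 k253 13 (.s k33 k237 9 (.s k49 k17 3 (.d k205 k137 k153 9
  13))))), (.s k3 k2 0 (.s k137 k205 9 (.s k70 k204 10 (.s k71 k68 0 (.d k207 k139 k138 9 10))))),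
  (.s k3 k2 0 (.s k101 k117 3 (.s k169 k253 13 (.s k86 k252 14 (.s k71 k116 4 (.d k207 k139 k138 9
  10))))))] .n)

def s47_170_73 : T TT 256 :=
  (.q k1 [(.s k101 k117 3 (.s k169 k253 13 (.s k33 k237 9 (.s k49 k17 3 (.d k205 k137 k153 9
  13))))), (.s k3 k2 0 (.s k137 k205 9 (.s k70 k204 10 (.s k71 k68 0 (.d k207 k139 k138 9 10))))),
  (.s k3 k2 0 (.s k101 k117 3 (.s k169 k253 13 (.s k86 k252 14 (.s k71 k116 4 (.d k207 k139 k138 9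
  10))))))] .n)

def s47_170_74 : T TT 256 :=
  (.q k1 [(.s k101 k117 3 (.s k169 k253 13 (.s k33 k237 9 (.s k49 k17 3 (.d k205 k137 k153 9
  13))))), (.s k3 k2 0 (.s k137 k205 9 (.s k70 k204 10 (.s k71 k68 0 (.d k207 k139 k138 9 10))))),
  (.s k3 k2 0 (.s k101 k117 3 (.s k169 k253 13 (.s k86 k252 14 (.s k71 k116 4 (.d k207 k139 k138 9
  10))))))] .n)

def s47_170_75 : T TT 256 :=
  (.q k1 [(.s k101 k117 3 (.s k169 k253 13 (.s k33 k237 9 (.s k49 k17 3 (.d k205 k137 k153 9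
  13))))), (.s k3 k2 0 (.s k137 k205 9 (.s k70 k204 10 (.s k71 k68 0 (.d k207 k139 k138 9 10))))),
  (.s k3 k2 0 (.s k101 k117 3 (.s k169 k253 13 (.s k86 k252 14 (.s k71 k116 4 (.d k207 k139 k138 9
  10))))))] .n)

def s47_170_76 : T TT 256 :=
  (.q k1 [(.s k101 k117 3 (.s k169 k253 13 (.s k33 k237 9 (.s k49 k17 3 (.d k205 k137 k153 9
  13))))), (.s k3 k2 0 (.s k137 k205 9 (.s k70 k204 10 (.s k71 k68 0 (.d k207 k139 k138 9 10))))),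
  (.s k3 k2 0 (.s k101 k117 3 (.s k169 k253 13 (.s k86 k252 14 (.s k71 k116 4 (.d k207 k139 k138 9
  10))))))] .n)

def s47_170_77 : T TT 256 :=
  (.q k1 [(.s k101 k117 3 (.s k169 k253 13 (.s k33 k237 9 (.s k49 k17 3 (.d k205 k137 k153 9
  13))))), (.s k3 k2 0 (.s k137 k205 9 (.s k70 k204 10 (.s k71 k68 0 (.d k207 k139 k138 9 10))))),
  (.s k3 k2 0 (.s k101 k117 3 (.s k169 k253 13 (.s k86 k252 14 (.s k71 k116 4 (.d k207 k139 k138 9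
  10))))))] .n)

def s47_170_78 : T TT 256 :=
  (.q k1 [(.s k101 k117 3 (.s k169 k253 13 (.s k33 k237 9 (.s k49 k17 3 (.d k205 k137 k153 9
  13))))), (.s k3 k2 0 (.s k137 k205 9 (.s k70 k204 10 (.s k71 k68 0 (.d k207 k139 k138 9 10))))),
  (.s k3 k2 0 (.s k101 k117 3 (.s k169 k253 13 (.s k86 k252 14 (.s k71 k116 4 (.d k207 k139 k138 9
  10))))))] .n)

def s47_170_79 : T TT 256 :=
  (.q k1 [(.s k101 k117 3 (.s k169 k253 13 (.s k33 k237 9 (.s k49 k17 3 (.d k205 k137 k153 9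
  13))))), (.s k3 k2 0 (.s k137 k205 9 (.s k70 k204 10 (.s k71 k68 0 (.d k207 k139 k138 9 10))))),
  (.s k3 k2 0 (.s k101 k117 3 (.s k169 k253 13 (.s k86 k252 14 (.s k71 k116 4 (.d k207 k139 k138 9
  10))))))] .n)

def s47_170_80 : T TT 256 :=
  (.q k1 [(.s k101 k117 3 (.s k169 k253 13 (.s k33 k237 9 (.s k49 k17 3 (.d k205 k137 k153 9
  13))))), (.s k3 k2 0 (.s k137 k205 9 (.s k70 k204 10 (.s k71 k68 0 (.d k207 k139 k138 9 10))))),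
  (.s k3 k2 0 (.s k101 k117 3 (.s k169 k253 13 (.s k86 k252 14 (.s k71 k116 4 (.d k207 k139 k138 9
  10))))))] .n)

def s47_170_81 : T TT 256 :=
  (.q k1 [(.s k3 k2 0 (.s k137 k205 9 (.s k70 k204 10 (.s k71 k68 0 (.d k207 k139 k138 9 10))))),
  (.s k101 k117 3 (.s k169 k253 13 (.s k33 k237 9 (.s k49 k17 3 (.d k205 k137 k153 9 13))))), (.s k3
  k2 0 (.s k101 k117 3 (.s k169 k253 13 (.s k86 k252 14 (.s k71 k116 4 (.d k207 k139 k138 9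
  10))))))] .n)

def s47_170_82 : T TT 256 :=
  (.q k1 [(.s k101 k117 3 (.s k169 k253 13 (.s k33 k237 9 (.s k49 k17 3 (.d k205 k137 k153 9
  13))))), (.s k3 k2 0 (.s k137 k205 9 (.s k70 k204 10 (.s k71 k68 0 (.d k207 k139 k138 9 10))))),
  (.s k3 k2 0 (.s k101 k117 3 (.s k169 k253 13 (.s k86 k252 14 (.s k71 k116 4 (.d k207 k139 k138 9
  10))))))] .n)

def s47_170_83 : T TT 256 :=
  (.q k1 [(.s k101 k117 3 (.s k169 k253 13 (.s k33 k237 9 (.s k49 k17 3 (.d k205 k137 k153 9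
  13))))), (.s k3 k2 0 (.s k137 k205 9 (.s k70 k204 10 (.s k71 k68 0 (.d k207 k139 k138 9 10))))),
  (.s k3 k2 0 (.s k101 k117 3 (.s k169 k253 13 (.s k86 k252 14 (.s k71 k116 4 (.d k207 k139 k138 9
  10))))))] .n)

def s47_170_84 : T TT 256 :=
  (.q k1 [(.s k101 k117 3 (.s k169 k253 13 (.s k33 k237 9 (.s k49 k17 3 (.d k205 k137 k153 9
  13))))), (.s k3 k2 0 (.s k137 k205 9 (.s k70 k204 10 (.s k71 k68 0 (.d k207 k139 k138 9 10))))),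
  (.s k3 k2 0 (.s k101 k117 3 (.s k169 k253 13 (.s k86 k252 14 (.s k71 k116 4 (.d k207 k139 k138 9
  10))))))] .n)

def s47_170_86 : T TT 256 :=
  (.f k101 k117 3 (.q k1 [(.s k205 k137 9 (.s k153 k49 13 (.s k221 k17 9 (.d k253 k237 k169 3
  13)))), (.s k137 k205 9 (.s k138 k207 10 (.s k136 k139 0 (.s k204 k68 9 (.d k3 k2 k70 0 10))))),
  (.s k169 k253 13 (.s k207 k138 10 (.s k154 k48 14 (.s k139 k184 4 (.d k3 k2 k71 0 9)))))] (.c k2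
  (.q k254 [(.s k205 k137 9 (.s k153 k49 13 (.s k221 k17 9 (.d k253 k237 k169 3 13)))), (.s k207
  k138 10 (.s k154 k48 14 (.s k223 k16 10 (.s k253 k169 13 (.d k255 k252 k239 0 3)))))] (.c k169 (.l
  (.s k205 k137 9 (.s k153 k49 13 (.s k17 k221 9 (.s k51 k34 4 (.s k207 k138 10 (.d k204 k206 k102 0
  14))))))) (.c k253 (.l (.s k205 k137 9 (.s k49 k153 13 (.s k17 k33 3 (.s k51 k34 4 (.s k207 k138
  10 (.d k48 k50 k154 0 14))))))) .n))) (.c k254 (.l (.s k2 k3 0 (.s k169 k253 13 (.s k33 k237 9 (.s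
  k49 k17 3 (.d k205 k137 k153 9 13)))))) .n))))

def s47_170_87 : T TT 256 :=
  (.q k1 [(.s k101 k117 3 (.s k169 k253 13 (.s k33 k237 9 (.s k49 k17 3 (.d k205 k137 k153 9
  13))))), (.s k3 k2 0 (.s k137 k205 9 (.s k70 k204 10 (.s k71 k68 0 (.d k207 k139 k138 9 10))))),
  (.s k3 k2 0 (.s k101 k117 3 (.s k169 k253 13 (.s k86 k252 14 (.s k71 k116 4 (.d k207 k139 k138 9
  10))))))] .n)

def s47_170_88 : T TT 256 :=
  (.q k1 [(.s k101 k117 3 (.s k169 k253 13 (.s k33 k237 9 (.s k49 k17 3 (.d k205 k137 k153 9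
  13))))), (.s k3 k2 0 (.s k137 k205 9 (.s k70 k204 10 (.s k71 k68 0 (.d k207 k139 k138 9 10))))),
  (.s k3 k2 0 (.s k101 k117 3 (.s k169 k253 13 (.s k86 k252 14 (.s k71 k116 4 (.d k207 k139 k138 9
  10))))))] .n)

def s47_170_89 : T TT 256 :=
  (.q k4 [(.s k134 k199 8 (.s k138 k207 10 (.s k130 k142 1 (.s k195 k65 8 (.d k12 k8 k73 1 10))))),
  (.s k101 k117 3 (.s k166 k247 12 (.s k36 k231 8 (.s k52 k20 3 (.d k199 k134 k150 8 12))))), (.s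
  k101 k117 3 (.s k166 k247 12 (.s k207 k138 10 (.s k154 k48 14 (.s k142 k178 5 (.d k12 k8 k77 1
  8))))))] (.c k8 (.q k251 [(.s k101 k117 3 (.s k199 k134 8 (.s k150 k52 12 (.s k215 k20 8 (.d k247
  k231 k166 3 12))))), (.s k101 k117 3 (.s k207 k138 10 (.s k154 k48 14 (.s k223 k16 10 (.s k247
  k166 12 (.d k255 k243 k239 1 3)))))), (.s k199 k134 8 (.s k207 k138 10 (.s k247 k166 12 (.s k231
  k215 3 (.d k243 k255 k219 1 5)))))] (.c k166 (.l (.s k101 k117 3 (.s k199 k134 8 (.s k150 k52 12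
  (.s k20 k215 8 (.s k60 k40 5 (.s k207 k138 10 (.d k195 k203 k105 1 14)))))))) (.c k247 (.l (.s
  k101 k117 3 (.s k199 k134 8 (.s k52 k150 12 (.s k20 k36 3 (.s k60 k40 5 (.s k207 k138 10 (.d k48
  k56 k154 1 14)))))))) .n))) (.c k251 (.l (.s k8 k12 1 (.s k101 k117 3 (.s k166 k247 12 (.s k36
  k231 8 (.s k52 k20 3 (.d k199 k134 k150 8 12))))))) .n)))

def s47_170_90 : T TT 256 :=
  (.q k5 [(.s k133 k197 7 (.s k138 k207 10 (.s k128 k143 2 (.s k192 k64 7 (.d k15 k10 k74 2 10))))),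
  (.s k101 k117 3 (.s k165 k245 11 (.s k37 k229 7 (.s k53 k21 3 (.d k197 k133 k149 7 11))))), (.s
  k101 k117 3 (.s k165 k245 11 (.s k207 k138 10 (.s k154 k48 14 (.s k143 k176 6 (.d k15 k10 k79 2
  7))))))] (.c k10 (.q k250 [(.s k101 k117 3 (.s k197 k133 7 (.s k149 k53 11 (.s k213 k21 7 (.d k245
  k229 k165 3 11))))), (.s k101 k117 3 (.s k207 k138 10 (.s k154 k48 14 (.s k223 k16 10 (.s k245
  k165 11 (.d k255 k240 k239 2 3)))))), (.s k197 k133 7 (.s k207 k138 10 (.s k245 k165 11 (.s k229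
  k213 3 (.d k240 k255 k218 2 6)))))] (.c k165 (.l (.s k101 k117 3 (.s k197 k133 7 (.s k149 k53 11
  (.s k21 k213 7 (.s k63 k42 6 (.s k207 k138 10 (.d k192 k202 k106 2 14)))))))) (.c k245 (.q k1 [(.s
  k3 k2 0 (.s k137 k205 9 (.s k70 k204 10 (.s k71 k68 0 (.d k207 k139 k138 9 10))))), (.s k13 k9 1
  (.s k133 k197 7 (.s k73 k193 9 (.s k77 k65 1 (.d k205 k141 k137 7 9))))), (.s k3 k2 0 (.s k101
  k117 3 (.s k169 k253 13 (.s k86 k252 14 (.s k71 k116 4 (.d k207 k139 k138 9 10))))))] .n) .n)))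
  (.c k250 (.l (.s k10 k15 2 (.s k101 k117 3 (.s k165 k245 11 (.s k37 k229 7 (.s k53 k21 3 (.d k197
  k133 k149 7 11))))))) .n)))

def s47_170_91 : T TT 256 :=
  (.q k1 [(.s k101 k117 3 (.s k169 k253 13 (.s k33 k237 9 (.s k49 k17 3 (.d k205 k137 k153 9
  13))))), (.s k3 k2 0 (.s k137 k205 9 (.s k70 k204 10 (.s k71 k68 0 (.d k207 k139 k138 9 10))))),
  (.s k3 k2 0 (.s k101 k117 3 (.s k169 k253 13 (.s k86 k252 14 (.s k71 k116 4 (.d k207 k139 k138 9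
  10))))))] .n)

def s47_170_92 : T TT 256 :=
  (.q k1 [(.s k101 k117 3 (.s k169 k253 13 (.s k33 k237 9 (.s k49 k17 3 (.d k205 k137 k153 9
  13))))), (.s k3 k2 0 (.s k137 k205 9 (.s k70 k204 10 (.s k71 k68 0 (.d k207 k139 k138 9 10))))),
  (.s k3 k2 0 (.s k101 k117 3 (.s k169 k253 13 (.s k86 k252 14 (.s k71 k116 4 (.d k207 k139 k138 9
  10))))))] .n)

def s47_170_93 : T TT 256 :=
  (.q k1 [(.s k3 k2 0 (.s k137 k205 9 (.s k70 k204 10 (.s k71 k68 0 (.d k207 k139 k138 9 10))))),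
  (.s k101 k117 3 (.s k169 k253 13 (.s k33 k237 9 (.s k49 k17 3 (.d k205 k137 k153 9 13))))), (.s k3
  k2 0 (.s k101 k117 3 (.s k169 k253 13 (.s k86 k252 14 (.s k71 k116 4 (.d k207 k139 k138 9
  10))))))] .n)

def s47_170_94 : T TT 256 :=
  (.q k1 [(.s k101 k117 3 (.s k169 k253 13 (.s k33 k237 9 (.s k49 k17 3 (.d k205 k137 k153 9
  13))))), (.s k3 k2 0 (.s k137 k205 9 (.s k70 k204 10 (.s k71 k68 0 (.d k207 k139 k138 9 10))))),
  (.s k3 k2 0 (.s k101 k117 3 (.s k169 k253 13 (.s k86 k252 14 (.s k71 k116 4 (.d k207 k139 k138 9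
  10))))))] .n)

def s47_170_95 : T TT 256 :=
  (.q k1 [(.s k101 k117 3 (.s k169 k253 13 (.s k33 k237 9 (.s k49 k17 3 (.d k205 k137 k153 9
  13))))), (.s k3 k2 0 (.s k137 k205 9 (.s k70 k204 10 (.s k71 k68 0 (.d k207 k139 k138 9 10))))),
  (.s k3 k2 0 (.s k101 k117 3 (.s k169 k253 13 (.s k86 k252 14 (.s k71 k116 4 (.d k207 k139 k138 9
  10))))))] .n)

def s47_170_96 : T TT 256 :=
  (.q k1 [(.s k101 k117 3 (.s k169 k253 13 (.s k33 k237 9 (.s k49 k17 3 (.d k205 k137 k153 9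
  13))))), (.s k3 k2 0 (.s k137 k205 9 (.s k70 k204 10 (.s k71 k68 0 (.d k207 k139 k138 9 10))))),
  (.s k3 k2 0 (.s k101 k117 3 (.s k169 k253 13 (.s k86 k252 14 (.s k71 k116 4 (.d k207 k139 k138 9
  10))))))] .n)

def s47_170_97 : T TT 256 :=
  (.q k1 [(.s k101 k117 3 (.s k169 k253 13 (.s k33 k237 9 (.s k49 k17 3 (.d k205 k137 k153 9
  13))))), (.s k3 k2 0 (.s k137 k205 9 (.s k70 k204 10 (.s k71 k68 0 (.d k207 k139 k138 9 10))))),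
  (.s k3 k2 0 (.s k101 k117 3 (.s k169 k253 13 (.s k86 k252 14 (.s k71 k116 4 (.d k207 k139 k138 9
  10))))))] .n)

def s47_170_98 : T TT 256 :=
  (.q k1 [(.s k101 k117 3 (.s k169 k253 13 (.s k33 k237 9 (.s k49 k17 3 (.d k205 k137 k153 9
  13))))), (.s k3 k2 0 (.s k137 k205 9 (.s k70 k204 10 (.s k71 k68 0 (.d k207 k139 k138 9 10))))),
  (.s k3 k2 0 (.s k101 k117 3 (.s k169 k253 13 (.s k86 k252 14 (.s k71 k116 4 (.d k207 k139 k138 9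
  10))))))] .n)

def s47_170_99 : T TT 256 :=
  (.q k1 [(.s k101 k117 3 (.s k169 k253 13 (.s k33 k237 9 (.s k49 k17 3 (.d k205 k137 k153 9
  13))))), (.s k3 k2 0 (.s k137 k205 9 (.s k70 k204 10 (.s k71 k68 0 (.d k207 k139 k138 9 10))))),
  (.s k3 k2 0 (.s k101 k117 3 (.s k169 k253 13 (.s k86 k252 14 (.s k71 k116 4 (.d k207 k139 k138 9
  10))))))] .n)

def s47_170_100 : T TT 256 :=
  (.q k1 [(.s k101 k117 3 (.s k169 k253 13 (.s k33 k237 9 (.s k49 k17 3 (.d k205 k137 k153 9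
  13))))), (.s k3 k2 0 (.s k137 k205 9 (.s k70 k204 10 (.s k71 k68 0 (.d k207 k139 k138 9 10))))),
  (.s k3 k2 0 (.s k101 k117 3 (.s k169 k253 13 (.s k86 k252 14 (.s k71 k116 4 (.d k207 k139 k138 9
  10))))))] .n)

def s47_170_101 : T TT 256 :=
  (.q k165 [(.s k5 k245 11 (.s k15 k10 2 (.s k207 k138 10 (.s k79 k143 7 (.s k74 k64 2 (.d k133 k197
  k192 7 10)))))), (.s k5 k245 11 (.s k15 k10 2 (.s k133 k197 7 (.s k149 k181 3 (.s k192 k74 10 (.s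
  k63 k106 14 (.d k21 k42 k213 6 7))))))), (.s k5 k245 11 (.s k133 k197 7 (.s k138 k207 10 (.s k128
  k143 2 (.s k192 k64 7 (.d k15 k10 k74 2 10))))))] (.c k5 (.q k1 [(.s k3 k2 0 (.s k137 k205 9 (.s
  k70 k204 10 (.s k71 k68 0 (.d k207 k139 k138 9 10))))), (.s k137 k205 9 (.s k169 k253 13 (.s k153
  k185 3 (.s k141 k177 5 (.s k129 k133 1 (.s k173 k161 1 (.d k189 k157 k149 3 5))))))), (.s k3 k2 0
  (.s k169 k253 13 (.s k161 k173 1 (.s k240 k82 12 (.s k80 k160 11 (.d k90 k95 k15 2 14))))))] (.c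
  k32 (.q k239 [(.s k3 k2 0 (.s k169 k253 13 (.s k86 k252 14 (.s k87 k84 0 (.s k255 k171 13 (.d k207
  k223 k138 3 10)))))), (.s k137 k205 9 (.s k138 k207 10 (.s k136 k139 0 (.s k204 k68 9 (.d k3 k2
  k70 0 10))))), (.s k205 k137 9 (.s k207 k138 10 (.s k253 k169 13 (.s k237 k221 3 (.s k252 k222 4
  (.d k255 k223 k254 3 0)))))), (.s k3 k2 0 (.s k169 k253 13 (.s k161 k173 1 (.s k240 k82 12 (.s k80
  k160 11 (.d k90 k95 k15 2 14))))))] (.c k37 (.q k42 [(.s k3 k2 0 (.s k137 k205 9 (.s k70 k204 10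
  (.s k71 k68 0 (.d k207 k139 k138 9 10))))), (.s k21 k63 6 (.s k61 k41 5 (.s k149 k213 7 (.s k105
  k193 13 (.s k125 k65 5 (.d k253 k189 k169 7 13))))))] (.c k21 (.q k53 [(.s k3 k2 0 (.s k169 k253
  13 (.s k86 k252 14 (.s k87 k84 0 (.s k255 k171 13 (.d k207 k223 k138 3 10)))))), (.s k137 k205 9
  (.s k138 k207 10 (.s k136 k139 0 (.s k204 k68 9 (.d k3 k2 k70 0 10))))), (.s k205 k137 9 (.s k207
  k138 10 (.s k253 k169 13 (.s k237 k221 3 (.s k252 k222 4 (.d k255 k223 k254 3 0)))))), (.s k3 k2 0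
  (.s k169 k253 13 (.s k161 k173 1 (.s k240 k82 12 (.s k80 k160 11 (.d k90 k95 k15 2 14))))))] .n)
  (.c k53 (.l (.s k21 k63 6 (.s k3 k2 0 (.s k41 k61 5 (.s k40 k43 0 (.d k60 k20 k22 5 6)))))) .n)))
  (.c k42 (.q k37 [(.s k3 k2 0 (.s k169 k253 13 (.s k86 k252 14 (.s k87 k84 0 (.s k255 k171 13 (.d
  k207 k223 k138 3 10)))))), (.s k137 k205 9 (.s k138 k207 10 (.s k136 k139 0 (.s k204 k68 9 (.d k3
  k2 k70 0 10))))), (.s k205 k137 9 (.s k207 k138 10 (.s k253 k169 13 (.s k237 k221 3 (.s k252 k222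
  4 (.d k255 k223 k254 3 0)))))), (.s k3 k2 0 (.s k169 k253 13 (.s k161 k173 1 (.s k240 k82 12 (.s
  k80 k160 11 (.d k90 k95 k15 2 14))))))] (.c k106 (.q k234 [(.s k207 k138 10 (.s k229 k224 2 (.s
  k240 k218 6 (.s k90 k15 14 (.d k80 k160 k95 11 2))))), (.s k3 k2 0 (.s k137 k205 9 (.s k70 k204 10
  (.s k71 k68 0 (.d k207 k139 k138 9 10))))), (.s k169 k253 13 (.s k161 k173 1 (.s k205 k137 9 (.s
  k229 k224 2 (.d k241 k217 k81 5 11)))))] (.c k96 (.q k111 [(.s k169 k253 13 (.s k161 k173 1 (.s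
  k205 k137 9 (.s k241 k81 11 (.d k229 k224 k217 2 5))))), (.s k3 k2 0 (.s k137 k205 9 (.s k70 k204
  10 (.s k71 k68 0 (.d k207 k139 k138 9 10))))), (.s k3 k2 0 (.s k169 k253 13 (.s k86 k252 14 (.s
  k87 k84 0 (.s k207 k138 10 (.d k255 k223 k171 3 13))))))] (.c k160 (.l (.s k224 k229 2 (.s k3 k2 0
  (.s k137 k205 9 (.s k70 k204 10 (.s k71 k68 0 (.d k207 k139 k138 9 10))))))) (.c k224 (.q k160
  [(.s k169 k253 13 (.s k161 k173 1 (.s k81 k241 11 (.d k162 k163 k243 0 12)))), (.s k3 k2 0 (.s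
  k137 k205 9 (.s k70 k204 10 (.s k71 k68 0 (.d k207 k139 k138 9 10)))))] .n) .n))) (.c k111 (.q k96
  [(.s k207 k138 10 (.s k229 k224 2 (.s k240 k218 6 (.s k80 k160 11 (.d k90 k95 k15 2 14))))), (.s
  k3 k2 0 (.s k137 k205 9 (.s k70 k204 10 (.s k71 k68 0 (.d k207 k139 k138 9 10))))), (.s k169 k253
  13 (.s k161 k173 1 (.s k205 k137 9 (.s k229 k224 2 (.d k241 k217 k81 5 11)))))] .n) .n))) (.c k234
  (.q k106 [(.s k64 k127 6 (.s k74 k79 2 (.s k90 k122 3 (.s k15 k240 14 (.d k192 k128 k133 7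
  10))))), (.s k3 k2 0 (.s k137 k205 9 (.s k70 k204 10 (.s k71 k68 0 (.d k207 k139 k138 9 10)))))]
  .n) .n))) .n))) (.c k239 (.q k32 [(.s k3 k2 0 (.s k137 k205 9 (.s k70 k204 10 (.s k71 k68 0 (.d
  k207 k139 k138 9 10))))), (.s k3 k2 0 (.s k48 k16 3 (.s k33 k18 4 (.s k34 k35 0 (.d k17 k49 k51 3
  4))))), (.s k16 k48 3 (.s k137 k205 9 (.s k154 k223 10 (.s k169 k253 13 (.s k139 k184 4 (.d k138
  k207 k136 10 0))))))] (.c k49 (.l (.s k3 k2 0 (.s k207 k138 10 (.s k71 k139 9 (.s k70 k68 0 (.d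
  k137 k205 k204 9 10)))))) (.c k111 (.q k175 [(.s k3 k2 0 (.s k137 k205 9 (.s k70 k204 10 (.s k71
  k68 0 (.d k207 k139 k138 9 10))))), (.s k3 k2 0 (.s k48 k16 3 (.s k33 k18 4 (.s k34 k35 0 (.d k17
  k49 k51 3 4))))), (.s k16 k48 3 (.s k137 k205 9 (.s k154 k223 10 (.s k169 k253 13 (.s k139 k184 4
  (.d k138 k207 k136 10 0))))))] (.c k49 (.l (.s k3 k2 0 (.s k207 k138 10 (.s k71 k139 9 (.s k70 k68
  0 (.d k137 k205 k204 9 10)))))) (.c k96 (.q k106 [(.s k3 k2 0 (.s k137 k205 9 (.s k70 k204 10 (.s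
  k71 k68 0 (.d k207 k139 k138 9 10))))), (.s k64 k127 6 (.s k192 k128 7 (.s k149 k63 14 (.s k133
  k181 3 (.d k74 k79 k15 2 10)))))] (.c k207 (.l (.s k3 k2 0 (.s k48 k16 3 (.s k33 k18 4 (.s k17 k49
  3 (.d k34 k35 k51 0 4)))))) .n)) (.c k106 (.q k96 [(.s k48 k16 3 (.s k144 k192 11 (.s k160 k224 7
  (.s k176 k128 3 (.d k240 k112 k80 7 11))))), (.s k3 k2 0 (.s k137 k205 9 (.s k70 k204 10 (.s k71
  k68 0 (.d k207 k139 k138 9 10)))))] (.c k42 (.q k234 [(.s k48 k16 3 (.s k144 k192 11 (.s k160 k224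
  7 (.s k176 k128 3 (.d k240 k112 k80 7 11))))), (.s k3 k2 0 (.s k137 k205 9 (.s k70 k204 10 (.s k71
  k68 0 (.d k207 k139 k138 9 10)))))] .n) (.c k234 (.q k42 [(.s k48 k16 3 (.s k192 k144 11 (.s k64
  k128 7 (.s k80 k112 3 (.d k160 k224 k240 7 11))))), (.s k3 k2 0 (.s k21 k63 6 (.s k41 k61 5 (.s
  k40 k43 0 (.d k60 k20 k22 5 6))))), (.s k3 k2 0 (.s k48 k16 3 (.s k33 k18 4 (.s k17 k49 3 (.d k34
  k35 k51 0 4)))))] (.c k224 (.q k229 [(.s k169 k253 13 (.s k205 k137 9 (.s k241 k217 5 (.d k161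
  k173 k81 1 11)))), (.s k207 k138 10 (.s k240 k218 6 (.s k80 k160 11 (.d k90 k95 k15 2 14))))] .n)
  (.c k229 (.l (.s k224 k160 7 (.s k3 k2 0 (.s k21 k63 6 (.s k41 k61 5 (.s k40 k43 0 (.d k60 k20 k22
  5 6))))))) .n))) .n))) .n)))) (.c k175 (.q k111 [(.s k3 k2 0 (.s k137 k205 9 (.s k70 k204 10 (.s
  k71 k68 0 (.d k207 k139 k138 9 10))))), (.s k3 k2 0 (.s k48 k16 3 (.s k33 k18 4 (.s k34 k35 0 (.d
  k17 k49 k51 3 4))))), (.s k16 k48 3 (.s k137 k205 9 (.s k154 k223 10 (.s k169 k253 13 (.s k139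
  k184 4 (.d k138 k207 k136 10 0))))))] (.c k49 (.l (.s k3 k2 0 (.s k207 k138 10 (.s k71 k139 9 (.s
  k70 k68 0 (.d k137 k205 k204 9 10)))))) .n)) .n)))) .n))) (.c k10 (.f k5 k245 11 (.l (.s k133 k197
  7 (.s k138 k207 10 (.s k128 k143 2 (.s k149 k181 3 (.s k192 k64 7 (.s k63 k106 14 (.d k21 k42 k213
  6 7))))))))) (.c k15 (.f k138 k207 10 (.f k5 k245 11 (.f k133 k197 7 (.f k143 k128 2 (.l (.s k149
  k181 3 (.s k154 k176 6 (.s k16 k223 10 (.s k144 k159 2 (.s k208 k80 7 (.s k31 k90 10 (.d k21 k26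
  k213 2 7)))))))))))) (.c k32 (.q k239 [(.s k5 k245 11 (.s k15 k10 2 (.s k90 k240 14 (.s k95 k80 2
  (.s k255 k175 11 (.d k207 k223 k138 3 10)))))), (.s k5 k245 11 (.s k133 k197 7 (.s k138 k207 10
  (.s k128 k143 2 (.s k192 k64 7 (.d k15 k10 k74 2 10))))))] (.c k5 (.f k207 k138 10 (.f k223 k255 3
  (.l (.s k154 k16 10 (.s k143 k176 6 (.s k79 k15 7 (.s k64 k74 2 (.s k106 k127 6 (.s k192 k128 7
  (.d k202 k197 k58 2 11)))))))))) (.c k10 (.l (.s k207 k138 10 (.s k245 k5 11 (.s k255 k223 3 (.s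
  k240 k250 2 (.s k90 k15 14 (.d k80 k95 k160 2 11))))))) (.c k15 (.l (.s k207 k138 10 (.s k245 k5
  11 (.s k255 k223 3 (.s k240 k250 2 (.s k229 k218 6 (.s k213 k197 3 (.d k234 k224 k192 2 6))))))))
  (.c k37 (.q k42 [(.s k5 k245 11 (.s k133 k197 7 (.s k149 k181 3 (.d k21 k213 k63 7 6)))), (.s k5
  k245 11 (.s k15 k10 2 (.s k90 k240 14 (.s k95 k80 2 (.s k207 k138 10 (.d k255 k223 k175 3
  11))))))] (.c k5 (.f k21 k63 6 (.l (.s k207 k138 10 (.s k213 k149 7 (.s k223 k255 3 (.s k154 k16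
  10 (.s k218 k208 2 (.s k90 k26 7 (.d k240 k15 k229 14 6))))))))) (.c k245 (.l (.s k63 k21 6 (.s
  k207 k138 10 (.s k111 k159 11 (.s k255 k223 3 (.s k127 k191 7 (.s k64 k106 6 (.d k79 k95 k74 3
  2)))))))) .n))) (.c k42 (.q k37 [(.s k5 k245 11 (.s k21 k53 3 (.s k133 k197 7 (.d k149 k181 k213 3
  7)))), (.s k207 k138 10 (.s k223 k255 3 (.s k154 k16 10 (.s k143 k176 6 (.s k15 k79 7 (.s k26 k48
  6 (.d k90 k240 k218 14 7)))))))] (.c k106 (.q k234 [(.s k5 k245 11 (.s k21 k53 3 (.s k133 k197 7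
  (.d k149 k181 k213 3 7)))), (.s k207 k138 10 (.s k229 k224 2 (.s k240 k218 6 (.s k90 k15 14 (.d
  k80 k160 k95 11 2)))))] (.c k96 (.q k111 [(.s k5 k245 11 (.s k21 k53 3 (.s k133 k197 7 (.d k149
  k181 k213 3 7)))), (.s k207 k138 10 (.s k63 k159 11 (.s k255 k223 3 (.s k127 k191 7 (.s k95 k79 3
  (.s k90 k80 2 (.d k15 k175 k240 11 14)))))))] (.c k149 (.l (.s k5 k245 11 (.s k197 k133 7 (.s k207
  k138 10 (.s k192 k202 2 (.d k255 k223 k213 3 6)))))) (.c k160 (.l (.s k224 k229 2 (.s k5 k245 11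
  (.s k21 k53 3 (.s k207 k138 10 (.s k255 k223 3 (.d k213 k149 k192 7 6))))))) (.c k224 (.q k160
  [(.s k5 k245 11 (.s k240 k80 11 (.d k15 k10 k90 2 14))), (.s k5 k245 11 (.s k21 k53 3 (.s k133
  k197 7 (.d k149 k181 k213 3 7)))), (.s k80 k240 11 (.s k95 k90 2 (.s k207 k138 10 (.s k159 k63 11
  (.d k223 k31 k255 7 3)))))] .n) .n)))) (.c k111 (.q k96 [(.s k5 k245 11 (.s k21 k53 3 (.s k133
  k197 7 (.d k149 k181 k213 3 7)))), (.s k207 k138 10 (.s k229 k224 2 (.s k240 k218 6 (.s k80 k160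
  11 (.d k90 k95 k15 2 14)))))] (.c k229 (.l (.s k5 k245 11 (.s k21 k53 3 (.s k207 k138 10 (.s k255
  k223 3 (.d k213 k149 k192 7 6)))))) .n)) (.c k229 (.l (.s k5 k245 11 (.s k21 k53 3 (.s k207 k138
  10 (.s k255 k223 3 (.d k213 k149 k192 7 6)))))) .n)))) (.c k117 (.l (.s k5 k245 11 (.s k15 k10 2
  (.s k90 k240 14 (.s k95 k80 2 (.s k207 k138 10 (.d k255 k223 k175 3 11))))))) (.c k234 (.q k106
  [(.s k5 k245 11 (.s k21 k53 3 (.s k133 k197 7 (.d k149 k181 k213 3 7)))), (.s k5 k245 11 (.s k10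
  k15 2 (.s k64 k127 6 (.s k74 k79 2 (.d k138 k207 k202 10 7))))), (.s k64 k127 6 (.s k74 k79 2 (.s
  k90 k122 3 (.s k15 k240 14 (.d k192 k128 k133 7 10)))))] .n) .n)))) (.c k138 (.l (.s k5 k245 11
  (.s k15 k10 2 (.s k90 k240 14 (.s k133 k197 7 (.s k74 k192 10 (.s k64 k79 2 (.d k106 k122 k127 3
  6)))))))) (.c k207 (.l (.s k5 k245 11 (.s k15 k10 2 (.s k133 k197 7 (.s k149 k181 3 (.s k192 k74
  10 (.s k63 k106 14 (.d k21 k42 k213 6 7)))))))) (.c k245 (.f k207 k138 10 (.f k223 k255 3 (.l (.s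
  k154 k16 10 (.s k143 k176 6 (.s k79 k15 7 (.s k64 k74 2 (.s k106 k127 6 (.s k192 k128 7 (.d k202
  k197 k58 2 11)))))))))) .n))))))))) (.c k74 (.f k5 k245 11 (.l (.s k133 k197 7 (.s k138 k207 10
  (.s k128 k143 2 (.s k149 k181 3 (.s k192 k64 7 (.s k63 k106 14 (.d k21 k42 k213 6 7))))))))) (.c
  k133 (.f k5 k245 11 (.f k15 k10 2 (.l (.s k90 k240 14 (.s k95 k80 2 (.s k207 k138 10 (.s k143 k79
  7 (.s k154 k176 6 (.s k223 k16 10 (.d k255 k239 k175 3 11)))))))))) (.c k138 (.l (.s k5 k245 11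
  (.s k15 k10 2 (.s k90 k240 14 (.s k133 k197 7 (.s k74 k192 10 (.s k64 k79 2 (.d k106 k122 k127 3
  6)))))))) (.c k192 (.f k5 k245 11 (.l (.s k15 k10 2 (.s k90 k240 14 (.s k95 k80 2 (.s k207 k138 10
  (.s k79 k143 7 (.s k127 k111 3 (.d k64 k74 k106 2 6))))))))) (.c k197 (.f k5 k245 11 (.l (.s k15
  k10 2 (.s k90 k240 14 (.s k95 k80 2 (.s k207 k138 10 (.s k79 k143 7 (.s k127 k111 3 (.d k64 k74
  k106 2 6))))))))) (.c k202 (.l (.s k5 k245 11 (.s k15 k10 2 (.s k133 k197 7 (.s k74 k192 10 (.s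
  k207 k138 10 (.d k79 k64 k143 2 7))))))) (.c k239 (.q k32 [(.s k5 k245 11 (.s k15 k10 2 (.s k16
  k48 3 (.s k154 k223 10 (.s k143 k176 6 (.d k207 k79 k138 7 10)))))), (.s k5 k245 11 (.s k15 k10 2
  (.s k48 k16 3 (.s k37 k26 6 (.s k21 k53 3 (.s k133 k197 7 (.d k149 k181 k213 3 7))))))), (.s k5
  k245 11 (.s k16 k48 3 (.s k133 k197 7 (.s k154 k223 10 (.s k143 k176 6 (.d k138 k207 k128 10
  2)))))), (.s k5 k245 11 (.s k15 k10 2 (.s k133 k197 7 (.s k74 k192 10 (.s k79 k64 2 (.d k207 k143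
  k138 7 10))))))] (.c k5 (.f k207 k138 10 (.f k16 k48 3 (.l (.s k154 k223 10 (.s k143 k176 6 (.s
  k79 k15 7 (.s k64 k74 2 (.s k106 k127 6 (.s k192 k128 7 (.d k202 k197 k58 2 11)))))))))) (.c k111
  (.q k175 [(.s k5 k245 11 (.s k15 k10 2 (.s k90 k240 14 (.d k95 k255 k80 11 2)))), (.s k5 k245 11
  (.s k16 k48 3 (.s k133 k197 7 (.s k154 k223 10 (.s k143 k176 6 (.d k138 k207 k128 10 2)))))), (.s
  k16 k48 3 (.s k154 k223 10 (.s k143 k176 6 (.s k207 k138 10 (.s k15 k79 7 (.s k95 k255 11 (.d k90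
  k240 k80 14 2)))))))] (.c k96 (.q k106 [(.s k5 k245 11 (.s k15 k10 2 (.s k90 k240 14 (.d k95 k255
  k80 11 2)))), (.s k5 k245 11 (.s k64 k127 6 (.s k128 k192 7 (.s k133 k197 7 (.d k138 k207 k143 10
  2))))), (.s k64 k127 6 (.s k192 k128 7 (.s k149 k63 14 (.s k133 k181 3 (.d k74 k79 k15 2 10)))))]
  (.c k95 (.l (.s k5 k245 11 (.s k10 k15 2 (.s k138 k207 10 (.s k74 k202 7 (.d k64 k79 k127 2
  6)))))) .n)) (.c k106 (.q k96 [(.s k5 k245 11 (.s k15 k10 2 (.s k90 k240 14 (.d k95 k255 k80 11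
  2)))), (.s k48 k16 3 (.s k144 k192 11 (.s k160 k224 7 (.s k176 k128 3 (.d k240 k112 k80 7 11))))),
  (.s k5 k245 11 (.s k15 k10 2 (.s k48 k16 3 (.s k133 k197 7 (.d k192 k74 k144 10 11)))))] (.c k42
  (.q k234 [(.s k5 k245 11 (.s k160 k224 7 (.s k240 k80 11 (.d k15 k10 k90 2 14)))), (.s k5 k245 11
  (.s k48 k16 3 (.s k192 k144 11 (.s k197 k133 7 (.d k207 k202 k138 2 10))))), (.s k48 k16 3 (.s
  k144 k192 11 (.s k160 k224 7 (.s k176 k128 3 (.d k240 k112 k80 7 11)))))] (.c k80 (.l (.s k5 k245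
  11 (.s k15 k10 2 (.s k48 k16 3 (.s k133 k197 7 (.d k192 k144 k74 11 10)))))) .n)) (.c k234 (.q k42
  [(.s k5 k245 11 (.s k15 k10 2 (.s k90 k240 14 (.d k95 k255 k80 11 2)))), (.s k5 k245 11 (.s k133
  k197 7 (.s k149 k181 3 (.d k21 k213 k63 7 6)))), (.s k48 k16 3 (.s k192 k144 11 (.s k64 k128 7 (.s
  k80 k112 3 (.d k160 k224 k240 7 11)))))] (.c k224 (.q k229 [(.s k245 k5 11 (.s k213 k197 3 (.d k21
  k149 k63 7 6))), (.s k207 k138 10 (.s k240 k218 6 (.s k80 k160 11 (.d k90 k95 k15 2 14))))] .n)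
  (.c k229 (.l (.s k224 k160 7 (.s k5 k245 11 (.s k15 k10 2 (.s k90 k240 14 (.d k95 k255 k80 11
  2)))))) .n))) .n))) (.c k240 (.l (.s k5 k245 11 (.s k15 k10 2 (.s k16 k48 3 (.s k154 k223 10 (.s
  k207 k138 10 (.d k143 k176 k79 6 7))))))) (.c k255 (.l (.s k5 k245 11 (.s k15 k10 2 (.s k16 k48 3
  (.s k154 k223 10 (.s k207 k138 10 (.d k143 k176 k79 6 7))))))) .n))))) (.c k175 (.q k111 [(.s k5
  k245 11 (.s k15 k10 2 (.s k90 k240 14 (.s k95 k80 2 (.s k79 k127 3 (.d k207 k143 k138 7 10)))))),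
  (.s k5 k245 11 (.s k15 k10 2 (.s k48 k16 3 (.s k37 k26 6 (.s k21 k53 3 (.s k133 k197 7 (.d k149
  k181 k213 3 7))))))), (.s k16 k48 3 (.s k154 k223 10 (.s k143 k176 6 (.s k207 k138 10 (.s k79 k15
  7 (.s k64 k74 2 (.d k127 k95 k106 3 6))))))), (.s k5 k245 11 (.s k16 k48 3 (.s k133 k197 7 (.s
  k154 k223 10 (.s k143 k176 6 (.d k138 k207 k128 10 2))))))] .n) (.c k245 (.f k207 k138 10 (.f k16
  k48 3 (.l (.s k154 k223 10 (.s k143 k176 6 (.s k79 k15 7 (.s k64 k74 2 (.s k106 k127 6 (.s k192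
  k128 7 (.d k202 k197 k58 2 11)))))))))) .n))))) (.c k245 (.q k64 [(.s k74 k79 2 (.s k106 k127 6
  (.s k90 k122 3 (.s k192 k128 7 (.d k15 k133 k240 10 14))))), (.s k106 k127 6 (.s k192 k128 7 (.s
  k207 k138 10 (.s k197 k202 2 (.s k133 k5 7 (.d k149 k181 k63 3 14)))))), (.s k74 k79 2 (.s k106
  k127 6 (.s k90 k122 3 (.s k240 k15 14 (.d k80 k95 k160 2 11))))), (.s k74 k79 2 (.s k138 k207 10
  (.s k10 k202 7 (.s k15 k5 2 (.d k192 k128 k133 7 10)))))] (.c k32 (.q k239 [(.s k74 k79 2 (.s k106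
  k127 6 (.s k90 k122 3 (.s k192 k128 7 (.d k15 k133 k240 10 14))))), (.s k79 k74 2 (.s k207 k138 10
  (.s k143 k15 7 (.s k154 k176 6 (.d k223 k255 k16 3 10))))), (.s k79 k74 2 (.s k127 k106 6 (.s k111
  k95 3 (.s k207 k138 10 (.s k63 k159 11 (.d k255 k223 k191 3 7)))))), (.s k106 k127 6 (.s k192 k128
  7 (.s k149 k63 14 (.s k133 k181 3 (.s k197 k5 7 (.d k207 k202 k138 2 10))))))] (.c k37 (.q k42
  [(.s k106 k127 6 (.s k192 k128 7 (.d k63 k149 k21 14 6))), (.s k74 k79 2 (.s k106 k127 6 (.s k90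
  k122 3 (.s k15 k240 14 (.d k192 k128 k133 7 10))))), (.s k21 k63 6 (.s k74 k79 2 (.s k149 k213 7
  (.s k133 k181 3 (.d k192 k15 k128 10 7))))), (.s k63 k21 6 (.s k127 k106 6 (.s k207 k138 10 (.d
  k255 k223 k191 3 7))))] (.c k63 (.l (.s k74 k79 2 (.s k106 k127 6 (.s k90 k122 3 (.s k192 k128 7
  (.d k15 k240 k133 14 10)))))) .n)) (.c k42 (.q k37 [(.s k74 k79 2 (.s k106 k127 6 (.s k90 k122 3
  (.s k192 k128 7 (.d k15 k133 k240 10 14))))), (.s k79 k74 2 (.s k207 k138 10 (.s k143 k15 7 (.s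
  k154 k176 6 (.d k223 k255 k16 3 10))))), (.s k106 k127 6 (.s k192 k128 7 (.s k207 k138 10 (.s k197
  k202 2 (.s k133 k5 7 (.d k149 k181 k63 3 14)))))), (.s k74 k79 2 (.s k106 k127 6 (.s k90 k122 3
  (.s k240 k15 14 (.d k80 k95 k160 2 11)))))] (.c k74 (.l (.s k106 k127 6 (.s k192 k128 7 (.s k149
  k63 14 (.s k21 k213 7 (.s k5 k53 3 (.d k133 k181 k197 3 7))))))) (.c k106 (.q k234 [(.s k207 k138
  10 (.s k255 k223 3 (.d k192 k213 k128 6 7))), (.s k74 k79 2 (.s k192 k128 7 (.s k15 k133 10 (.s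
  k224 k229 2 (.d k240 k90 k208 14 3))))), (.s k79 k74 2 (.s k207 k138 10 (.s k143 k15 7 (.s k154
  k176 6 (.d k223 k255 k16 3 10)))))] (.c k96 (.q k111 [(.s k207 k138 10 (.s k255 k223 3 (.d k192
  k213 k128 6 7))), (.s k79 k74 2 (.s k95 k127 3 (.s k90 k80 2 (.s k15 k240 14 (.d k207 k143 k138 7
  10))))), (.s k74 k79 2 (.s k192 k128 7 (.s k15 k133 10 (.s k224 k229 2 (.d k240 k90 k208 14
  3)))))] (.c k138 (.l (.s k74 k79 2 (.s k192 k128 7 (.s k133 k15 10 (.s k149 k181 3 (.d k213 k255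
  k21 6 7)))))) (.c k160 (.l (.s k224 k229 2 (.s k192 k128 7 (.s k207 k138 10 (.d k255 k213 k223 6
  3))))) (.c k224 (.q k160 [(.s k79 k74 2 (.s k95 k127 3 (.d k80 k90 k240 2 11))), (.s k192 k128 7
  (.s k207 k138 10 (.d k255 k223 k213 3 6)))] .n) .n)))) (.c k111 (.q k96 [(.s k80 k112 3 (.s k240
  k160 11 (.d k90 k95 k15 2 14))), (.s k192 k128 7 (.s k207 k138 10 (.d k255 k223 k213 3 6)))] .n)
  (.c k138 (.l (.s k74 k79 2 (.s k192 k128 7 (.s k133 k15 10 (.s k149 k181 3 (.d k213 k255 k21 6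
  7)))))) (.c k192 (.l (.s k79 k74 2 (.s k207 k138 10 (.s k15 k143 7 (.s k229 k224 2 (.d k240 k90
  k218 14 6)))))) .n))))) (.c k234 (.l (.s k106 k127 6 (.s k74 k79 2 (.s k90 k122 3 (.s k15 k240 14
  (.d k192 k128 k133 7 10)))))) .n)))) .n))) (.c k74 (.l (.s k106 k127 6 (.s k192 k128 7 (.s k149
  k63 14 (.s k133 k181 3 (.s k197 k5 7 (.d k207 k202 k138 2 10))))))) (.c k239 (.q k32 [(.s k16 k48
  3 (.s k79 k74 2 (.s k154 k223 10 (.s k143 k176 6 (.d k207 k15 k138 7 10))))), (.s k48 k16 3 (.s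
  k192 k128 7 (.s k96 k144 11 (.s k160 k224 7 (.d k80 k112 k240 3 11))))), (.s k74 k79 2 (.s k106
  k127 6 (.s k90 k122 3 (.s k15 k240 14 (.d k192 k128 k133 7 10))))), (.s k16 k48 3 (.s k79 k74 2
  (.s k154 k223 10 (.s k207 k138 10 (.d k143 k176 k15 6 7)))))] (.c k111 (.q k175 [(.s k16 k48 3 (.s
  k79 k74 2 (.s k154 k223 10 (.s k143 k176 6 (.d k207 k15 k138 7 10))))), (.s k48 k16 3 (.s k192
  k128 7 (.s k96 k144 11 (.s k160 k224 7 (.d k80 k112 k240 3 11))))), (.s k74 k79 2 (.s k192 k128 7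
  (.s k15 k133 10 (.s k10 k5 2 (.d k138 k202 k207 7 10)))))] (.c k96 (.l (.s k106 k127 6 (.s k192
  k128 7 (.s k149 k63 14 (.s k133 k181 3 (.d k74 k79 k15 2 10)))))) (.c k106 (.q k96 [(.s k48 k16 3
  (.d k192 k128 k144 7 11)), (.s k80 k112 3 (.d k160 k224 k240 7 11))] (.c k42 (.q k234 [(.s k48 k16
  3 (.d k192 k128 k144 7 11)), (.s k80 k112 3 (.d k160 k224 k240 7 11))] .n) (.c k234 (.q k42 [(.s
  k48 k16 3 (.d k192 k128 k144 7 11)), (.s k80 k112 3 (.d k160 k224 k240 7 11))] (.c k224 (.q k229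
  [(.s k48 k16 3 (.d k192 k128 k144 7 11)), (.s k80 k112 3 (.s k90 k95 2 (.d k240 k160 k15 11 14)))]
  .n) (.c k229 (.l (.s k224 k160 7 (.s k48 k16 3 (.d k192 k128 k144 7 11)))) .n))) .n))) (.c k112
  (.l (.s k16 k48 3 (.s k79 k74 2 (.s k154 k223 10 (.s k207 k138 10 (.d k143 k176 k15 6 7))))))
  .n)))) (.c k175 (.q k111 [(.s k79 k74 2 (.d k127 k95 k106 3 6)), (.s k106 k127 6 (.s k192 k128 7
  (.s k207 k138 10 (.d k63 k149 k159 14 11)))), (.s k16 k48 3 (.s k79 k74 2 (.s k154 k223 10 (.s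
  k143 k176 6 (.d k207 k15 k138 7 10)))))] .n) .n))) .n)))) .n)))))))))))))

def s47_170_102 : T TT 256 :=
  (.f k138 k207 10 (.f k101 k117 3 (.q k65 [(.s k77 k73 1 (.s k89 k113 5 (.s k93 k81 1 (.d k125 k109
  k105 3 5)))), (.s k73 k77 1 (.s k8 k203 8 (.s k12 k4 1 (.d k195 k130 k134 8 10)))), (.s k105 k125
  5 (.s k195 k130 8 (.s k150 k60 14 (.s k199 k52 12 (.s k4 k134 8 (.s k215 k20 8 (.d k247 k231 k166
  3 12)))))))] (.c k34 (.q k238 [(.s k77 k73 1 (.s k89 k113 5 (.s k93 k81 1 (.d k125 k109 k105 3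
  5)))), (.s k73 k77 1 (.s k8 k203 8 (.s k12 k4 1 (.d k195 k130 k134 8 10)))), (.s k105 k125 5 (.s
  k195 k130 8 (.s k150 k60 14 (.s k199 k52 12 (.s k4 k134 8 (.s k215 k20 8 (.d k247 k231 k166 3
  12)))))))] .n) (.c k238 (.q k34 [(.s k77 k73 1 (.s k89 k113 5 (.s k93 k81 1 (.d k125 k109 k105 3
  5)))), (.s k73 k77 1 (.s k8 k203 8 (.s k12 k4 1 (.d k195 k130 k134 8 10)))), (.s k17 k51 4 (.s
  k105 k125 5 (.s k153 k221 9 (.s k49 k205 13 (.s k1 k33 3 (.s k193 k129 7 (.d k97 k109 k145 1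
  11)))))))] .n) .n)))))

def s47_170_103 : T TT 256 :=
  (.q k1 [(.s k101 k117 3 (.s k169 k253 13 (.s k33 k237 9 (.s k49 k17 3 (.d k205 k137 k153 9
  13))))), (.s k3 k2 0 (.s k137 k205 9 (.s k70 k204 10 (.s k71 k68 0 (.d k207 k139 k138 9 10))))),
  (.s k3 k2 0 (.s k101 k117 3 (.s k169 k253 13 (.s k86 k252 14 (.s k71 k116 4 (.d k207 k139 k138 9
  10))))))] .n)

def s47_170_104 : T TT 256 :=
  (.q k1 [(.s k101 k117 3 (.s k169 k253 13 (.s k33 k237 9 (.s k49 k17 3 (.d k205 k137 k153 9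
  13))))), (.s k3 k2 0 (.s k137 k205 9 (.s k70 k204 10 (.s k71 k68 0 (.d k207 k139 k138 9 10))))),
  (.s k3 k2 0 (.s k101 k117 3 (.s k169 k253 13 (.s k86 k252 14 (.s k71 k116 4 (.d k207 k139 k138 9
  10))))))] .n)

def s47_170_105 : T TT 256 :=
  (.f k138 k207 10 (.f k101 k117 3 (.q k64 [(.s k79 k74 2 (.s k90 k112 6 (.s k95 k80 2 (.d k127 k111
  k106 3 6)))), (.s k74 k79 2 (.s k10 k202 7 (.s k15 k5 2 (.d k192 k128 k133 7 10)))), (.s k106 k127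
  6 (.s k192 k128 7 (.s k149 k63 14 (.s k197 k53 11 (.s k5 k133 7 (.s k213 k21 7 (.d k245 k229 k165
  3 11)))))))] (.c k40 (.q k235 [(.s k79 k74 2 (.s k90 k112 6 (.s k95 k80 2 (.d k127 k111 k106 3
  6)))), (.s k74 k79 2 (.s k10 k202 7 (.s k15 k5 2 (.d k192 k128 k133 7 10)))), (.s k106 k127 6 (.s
  k192 k128 7 (.s k149 k63 14 (.s k197 k53 11 (.s k5 k133 7 (.s k213 k21 7 (.d k245 k229 k165 3
  11)))))))] .n) (.c k235 (.q k40 [(.s k79 k74 2 (.s k90 k112 6 (.s k95 k80 2 (.d k127 k111 k106 3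
  6)))), (.s k60 k20 5 (.s k192 k128 7 (.s k104 k148 13 (.s k84 k124 5 (.d k168 k232 k252 7 13)))))]
  .n) .n)))))

def s47_170_106 : T TT 256 :=
  (.f k101 k117 3 (.q k165 [(.s k5 k245 11 (.s k37 k229 7 (.s k53 k21 3 (.d k197 k133 k149 7 11)))),
  (.s k207 k138 10 (.s k229 k37 7 (.s k240 k218 6 (.s k80 k160 11 (.d k90 k95 k15 2 14))))), (.s k5
  k245 11 (.s k15 k10 2 (.s k90 k240 14 (.s k79 k112 6 (.d k207 k143 k138 7 10)))))] (.c k42 (.q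
  k234 [(.s k5 k245 11 (.s k37 k229 7 (.s k53 k21 3 (.d k197 k133 k149 7 11)))), (.s k207 k138 10
  (.s k154 k48 14 (.s k143 k176 6 (.s k15 k79 7 (.s k240 k90 14 (.d k229 k37 k218 7 6))))))] (.c k32
  (.l (.s k37 k229 7 (.s k5 k245 11 (.s k53 k21 3 (.d k197 k133 k149 7 11))))) (.c k37 (.q k32 [(.s
  k48 k16 3 (.d k207 k138 k154 10 14)), (.s k5 k245 11 (.s k15 k10 2 (.s k90 k240 14 (.s k79 k112 6
  (.s k74 k64 2 (.d k133 k197 k192 7 10))))))] (.c k48 (.l (.s k5 k245 11 (.s k15 k10 2 (.s k90 k240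
  14 (.s k207 k138 10 (.d k79 k112 k143 6 7)))))) .n)) (.c k229 (.l (.s k5 k245 11 (.s k15 k10 2 (.s
  k90 k240 14 (.s k79 k112 6 (.d k207 k143 k138 7 10)))))) .n)))) (.c k234 (.q k42 [(.s k5 k245 11
  (.s k21 k63 6 (.d k37 k53 k229 3 7))), (.s k207 k138 10 (.s k229 k37 7 (.s k240 k218 6 (.s k80
  k160 11 (.d k90 k95 k15 2 14)))))] (.c k15 (.l (.s k5 k245 11 (.s k37 k229 7 (.d k21 k53 k63 3
  6)))) (.c k37 (.l (.s k5 k245 11 (.s k21 k63 6 (.s k133 k197 7 (.d k149 k181 k213 3 7))))) (.c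
  k229 (.l (.s k5 k245 11 (.s k21 k63 6 (.s k53 k37 3 (.d k149 k213 k197 7 11))))) .n)))) .n))))

def s47_170_107 : T TT 256 :=
  (.f k138 k207 10 (.f k101 k117 3 (.q k4 [(.s k134 k199 8 (.s k130 k142 1 (.s k195 k65 8 (.d k12 k8
  k73 1 10)))), (.s k166 k247 12 (.s k36 k231 8 (.s k52 k20 3 (.d k199 k134 k150 8 12)))), (.s k12
  k8 1 (.s k166 k247 12 (.s k89 k243 14 (.s k77 k113 5 (.s k65 k73 1 (.s k93 k81 1 (.d k125 k109
  k105 3 5)))))))] (.c k167 (.q k227 [(.s k134 k199 8 (.s k130 k142 1 (.s k195 k65 8 (.d k12 k8 k73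
  1 10)))), (.s k166 k247 12 (.s k36 k231 8 (.s k52 k20 3 (.d k199 k134 k150 8 12)))), (.s k8 k12 1
  (.s k166 k247 12 (.s k105 k44 10 (.s k65 k125 5 (.d k73 k77 k203 1 8)))))] .n) (.c k227 (.q k167
  [(.s k134 k199 8 (.s k130 k142 1 (.s k195 k65 8 (.d k12 k8 k73 1 10)))), (.s k166 k247 12 (.s k36
  k231 8 (.s k52 k20 3 (.d k199 k134 k150 8 12)))), (.s k12 k8 1 (.s k166 k247 12 (.s k165 k164 0
  (.s k5 k245 11 (.s k15 k10 2 (.d k243 k89 k91 14 13))))))] .n) .n)))))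

def s47_170_108 : T TT 256 :=
  (.q k1 [(.s k101 k117 3 (.s k169 k253 13 (.s k33 k237 9 (.s k49 k17 3 (.d k205 k137 k153 9
  13))))), (.s k3 k2 0 (.s k137 k205 9 (.s k70 k204 10 (.s k71 k68 0 (.d k207 k139 k138 9 10))))),
  (.s k3 k2 0 (.s k101 k117 3 (.s k169 k253 13 (.s k86 k252 14 (.s k71 k116 4 (.d k207 k139 k138 9
  10))))))] .n)

def s47_170_109 : T TT 256 :=
  (.q k1 [(.s k101 k117 3 (.s k169 k253 13 (.s k33 k237 9 (.s k49 k17 3 (.d k205 k137 k153 9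
  13))))), (.s k3 k2 0 (.s k137 k205 9 (.s k70 k204 10 (.s k71 k68 0 (.d k207 k139 k138 9 10))))),
  (.s k3 k2 0 (.s k101 k117 3 (.s k169 k253 13 (.s k86 k252 14 (.s k71 k116 4 (.d k207 k139 k138 9
  10))))))] .n)

def s47_170_110 : T TT 256 :=
  (.f k138 k207 10 (.f k101 k117 3 (.q k4 [(.s k134 k199 8 (.s k130 k142 1 (.s k195 k65 8 (.d k12 k8
  k73 1 10)))), (.s k166 k247 12 (.s k36 k231 8 (.s k52 k20 3 (.d k199 k134 k150 8 12)))), (.s k12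
  k8 1 (.s k166 k247 12 (.s k89 k243 14 (.s k77 k113 5 (.s k65 k73 1 (.s k93 k81 1 (.d k125 k109
  k105 3 5)))))))] (.c k173 (.q k236 [(.s k134 k199 8 (.s k130 k142 1 (.s k195 k65 8 (.d k12 k8 k73
  1 10)))), (.s k166 k247 12 (.s k36 k231 8 (.s k52 k20 3 (.d k199 k134 k150 8 12)))), (.s k12 k8 1
  (.s k166 k247 12 (.s k89 k243 14 (.s k77 k113 5 (.s k65 k73 1 (.s k93 k81 1 (.d k125 k109 k105 3
  5)))))))] .n) (.c k236 (.q k173 [(.s k134 k199 8 (.s k130 k142 1 (.s k195 k65 8 (.d k12 k8 k73 1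
  10)))), (.s k166 k247 12 (.s k36 k231 8 (.s k52 k20 3 (.d k199 k134 k150 8 12)))), (.s k12 k8 1
  (.s k166 k247 12 (.s k89 k243 14 (.s k77 k113 5 (.s k65 k73 1 (.s k93 k81 1 (.d k125 k109 k105 3
  5)))))))] .n) .n)))))

def s47_170_111 : T TT 256 :=
  (.f k101 k117 3 (.q k165 [(.s k5 k245 11 (.s k37 k229 7 (.s k53 k21 3 (.d k197 k133 k149 7 11)))),
  (.s k207 k138 10 (.s k229 k37 7 (.s k240 k218 6 (.s k80 k160 11 (.d k90 k95 k15 2 14))))), (.s k5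
  k245 11 (.s k15 k10 2 (.s k90 k240 14 (.s k79 k112 6 (.d k207 k143 k138 7 10)))))] (.c k175 (.q
  k239 [(.s k207 k138 10 (.s k154 k48 14 (.d k223 k255 k16 3 10))), (.s k5 k245 11 (.s k37 k229 7
  (.s k53 k21 3 (.d k197 k133 k149 7 11))))] .n) (.c k239 (.q k175 [(.s k5 k245 11 (.s k15 k10 2 (.s
  k90 k240 14 (.d k95 k255 k80 11 2)))), (.s k5 k245 11 (.s k37 k229 7 (.s k53 k21 3 (.d k197 k133
  k149 7 11)))), (.s k207 k138 10 (.s k229 k37 7 (.s k240 k218 6 (.s k80 k160 11 (.d k90 k95 k15 2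
  14)))))] .n) .n))))

def s47_170_112 : T TT 256 :=
  (.q k1 [(.s k3 k2 0 (.s k137 k205 9 (.s k70 k204 10 (.s k71 k68 0 (.d k207 k139 k138 9 10))))),
  (.s k101 k117 3 (.s k169 k253 13 (.s k33 k237 9 (.s k49 k17 3 (.d k205 k137 k153 9 13))))), (.s k3
  k2 0 (.s k101 k117 3 (.s k169 k253 13 (.s k86 k252 14 (.s k71 k116 4 (.d k207 k139 k138 9
  10))))))] .n)

def s47_170_113 : T TT 256 :=
  (.q k1 [(.s k3 k2 0 (.s k137 k205 9 (.s k70 k204 10 (.s k71 k68 0 (.d k207 k139 k138 9 10))))),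
  (.s k101 k117 3 (.s k169 k253 13 (.s k33 k237 9 (.s k49 k17 3 (.d k205 k137 k153 9 13))))), (.s k3
  k2 0 (.s k101 k117 3 (.s k169 k253 13 (.s k86 k252 14 (.s k71 k116 4 (.d k207 k139 k138 9
  10))))))] .n)

def s47_170_114 : T TT 256 :=
  (.q k1 [(.s k101 k117 3 (.s k169 k253 13 (.s k33 k237 9 (.s k49 k17 3 (.d k205 k137 k153 9
  13))))), (.s k3 k2 0 (.s k137 k205 9 (.s k70 k204 10 (.s k71 k68 0 (.d k207 k139 k138 9 10))))),
  (.s k3 k2 0 (.s k101 k117 3 (.s k169 k253 13 (.s k86 k252 14 (.s k71 k116 4 (.d k207 k139 k138 9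
  10))))))] .n)

def s47_170_115 : T TT 256 :=
  (.q k1 [(.s k101 k117 3 (.s k169 k253 13 (.s k33 k237 9 (.s k49 k17 3 (.d k205 k137 k153 9
  13))))), (.s k3 k2 0 (.s k137 k205 9 (.s k70 k204 10 (.s k71 k68 0 (.d k207 k139 k138 9 10))))),
  (.s k3 k2 0 (.s k101 k117 3 (.s k169 k253 13 (.s k86 k252 14 (.s k71 k116 4 (.d k207 k139 k138 9
  10))))))] .n)

def s47_170_116 : T TT 256 :=
  (.q k1 [(.s k3 k2 0 (.s k137 k205 9 (.s k138 k207 10 (.s k136 k139 0 (.d k204 k68 k70 9 10))))),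
  (.s k101 k117 3 (.s k169 k253 13 (.s k33 k237 9 (.s k49 k17 3 (.d k205 k137 k153 9 13))))), (.s k3
  k2 0 (.s k101 k117 3 (.s k169 k253 13 (.s k207 k138 10 (.s k139 k71 9 (.d k154 k184 k48 4
  14))))))] .n)

def s47_170_117 : T TT 256 :=
  (.q k1 [(.s k137 k205 9 (.s k138 k207 10 (.s k136 k139 0 (.s k204 k68 9 (.d k3 k2 k70 0 10))))),
  (.s k3 k2 0 (.s k169 k253 13 (.s k207 k138 10 (.s k139 k71 9 (.s k154 k184 4 (.s k16 k223 10 (.d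
  k48 k32 k101 3 14))))))), (.s k3 k2 0 (.s k137 k205 9 (.s k169 k253 13 (.s k204 k70 10 (.s k68
  k136 9 (.s k102 k119 4 (.d k153 k185 k51 3 14)))))))] (.c k2 (.f k169 k253 13 (.f k137 k205 9 (.f
  k138 k207 10 (.f k136 k139 0 (.l (.s k204 k68 9 (.s k3 k70 10 (.s k86 k252 14 (.s k87 k84 0 (.s
  k255 k171 13 (.s k221 k238 4 (.d k153 k185 k17 3 9)))))))))))) (.c k3 (.q k4 [(.s k134 k199 8 (.s
  k138 k207 10 (.s k130 k142 1 (.s k195 k65 8 (.d k12 k8 k73 1 10))))), (.s k134 k199 8 (.s k137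
  k205 9 (.s k131 k140 2 (.s k166 k247 12 (.s k169 k253 13 (.d k150 k182 k188 3 6)))))), (.s k12 k8
  1 (.s k166 k247 12 (.s k207 k138 10 (.s k142 k77 8 (.s k154 k178 5 (.s k16 k223 10 (.d k48 k32
  k101 3 14)))))))] .n) (.c k70 (.q k4 [(.s k134 k199 8 (.s k138 k207 10 (.s k130 k142 1 (.s k195
  k65 8 (.d k12 k8 k73 1 10))))), (.s k134 k199 8 (.s k137 k205 9 (.s k131 k140 2 (.s k166 k247 12
  (.s k169 k253 13 (.d k150 k182 k188 3 6)))))), (.s k3 k2 0 (.s k12 k8 1 (.s k6 k9 2 (.s k166 k247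
  12 (.s k86 k246 11 (.d k169 k253 k252 13 14))))))] .n) (.c k138 (.l (.s k3 k2 0 (.s k137 k205 9
  (.s k70 k204 10 (.s k68 k71 0 (.s k102 k119 4 (.s k169 k253 13 (.d k86 k118 k252 3 14)))))))) (.c
  k206 (.l (.s k3 k2 0 (.s k137 k205 9 (.s k70 k204 10 (.s k207 k138 10 (.d k71 k68 k139 0 9))))))
  .n))))))

def s47_170_118 : T TT 256 :=
  (.q k1 [(.s k3 k2 0 (.s k137 k205 9 (.s k70 k204 10 (.s k71 k68 0 (.d k207 k139 k138 9 10))))),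
  (.s k101 k117 3 (.s k169 k253 13 (.s k33 k237 9 (.s k49 k17 3 (.d k205 k137 k153 9 13))))), (.s k3
  k2 0 (.s k101 k117 3 (.s k169 k253 13 (.s k86 k252 14 (.s k207 k138 10 (.d k71 k116 k139 4
  9))))))] .n)

def s47_170_119 : T TT 256 :=
  (.q k1 [(.s k3 k2 0 (.s k137 k205 9 (.s k70 k204 10 (.s k71 k68 0 (.d k207 k139 k138 9 10))))),
  (.s k101 k117 3 (.s k169 k253 13 (.s k33 k237 9 (.s k49 k17 3 (.d k205 k137 k153 9 13))))), (.s k3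
  k2 0 (.s k101 k117 3 (.s k169 k253 13 (.s k86 k252 14 (.s k207 k138 10 (.d k71 k116 k139 4
  9))))))] .n)

def s47_170_120 : T TT 256 :=
  (.q k1 [(.s k101 k117 3 (.s k169 k253 13 (.s k33 k237 9 (.s k49 k17 3 (.d k205 k137 k153 9
  13))))), (.s k3 k2 0 (.s k137 k205 9 (.s k70 k204 10 (.s k71 k68 0 (.d k207 k139 k138 9 10))))),
  (.s k3 k2 0 (.s k101 k117 3 (.s k169 k253 13 (.s k86 k252 14 (.s k71 k116 4 (.d k207 k139 k138 9
  10))))))] .n)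

def s47_170_121 : T TT 256 :=
  (.q k1 [(.s k3 k2 0 (.s k137 k205 9 (.s k70 k204 10 (.s k71 k68 0 (.d k207 k139 k138 9 10))))),
  (.s k101 k117 3 (.s k169 k253 13 (.s k33 k237 9 (.s k49 k17 3 (.d k205 k137 k153 9 13))))), (.s k3
  k2 0 (.s k101 k117 3 (.s k169 k253 13 (.s k86 k252 14 (.s k71 k116 4 (.d k207 k139 k138 9
  10))))))] .n)

def s47_170_122 : T TT 256 :=
  (.q k1 [(.s k3 k2 0 (.s k137 k205 9 (.s k70 k204 10 (.s k71 k68 0 (.d k207 k139 k138 9 10))))),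
  (.s k101 k117 3 (.s k169 k253 13 (.s k33 k237 9 (.s k49 k17 3 (.d k205 k137 k153 9 13))))), (.s k3
  k2 0 (.s k101 k117 3 (.s k169 k253 13 (.s k86 k252 14 (.s k71 k116 4 (.d k207 k139 k138 9
  10))))))] .n)

def s47_170_123 : T TT 256 :=
  (.q k1 [(.s k101 k117 3 (.s k169 k253 13 (.s k33 k237 9 (.s k49 k17 3 (.d k205 k137 k153 9
  13))))), (.s k3 k2 0 (.s k137 k205 9 (.s k70 k204 10 (.s k71 k68 0 (.d k207 k139 k138 9 10))))),
  (.s k3 k2 0 (.s k101 k117 3 (.s k169 k253 13 (.s k86 k252 14 (.s k71 k116 4 (.d k207 k139 k138 9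
  10))))))] .n)

def s47_170_124 : T TT 256 :=
  (.q k1 [(.s k101 k117 3 (.s k169 k253 13 (.s k33 k237 9 (.s k49 k17 3 (.d k205 k137 k153 9
  13))))), (.s k3 k2 0 (.s k137 k205 9 (.s k70 k204 10 (.s k71 k68 0 (.d k207 k139 k138 9 10))))),
  (.s k3 k2 0 (.s k101 k117 3 (.s k169 k253 13 (.s k86 k252 14 (.s k71 k116 4 (.d k207 k139 k138 9
  10))))))] .n)

def s47_170_125 : T TT 256 :=
  (.q k1 [(.s k3 k2 0 (.s k137 k205 9 (.s k70 k204 10 (.s k71 k68 0 (.d k207 k139 k138 9 10))))),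
  (.s k101 k117 3 (.s k169 k253 13 (.s k33 k237 9 (.s k49 k17 3 (.d k205 k137 k153 9 13))))), (.s k3
  k2 0 (.s k101 k117 3 (.s k169 k253 13 (.s k86 k252 14 (.s k71 k116 4 (.d k207 k139 k138 9
  10))))))] .n)

def s47_170_126 : T TT 256 :=
  (.q k1 [(.s k101 k117 3 (.s k169 k253 13 (.s k33 k237 9 (.s k49 k17 3 (.d k205 k137 k153 9
  13))))), (.s k3 k2 0 (.s k137 k205 9 (.s k70 k204 10 (.s k71 k68 0 (.d k207 k139 k138 9 10))))),
  (.s k3 k2 0 (.s k101 k117 3 (.s k169 k253 13 (.s k86 k252 14 (.s k71 k116 4 (.d k207 k139 k138 9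
  10))))))] .n)

def s47_170_127 : T TT 256 :=
  (.q k1 [(.s k3 k2 0 (.s k137 k205 9 (.s k70 k204 10 (.s k71 k68 0 (.d k207 k139 k138 9 10))))),
  (.s k101 k117 3 (.s k169 k253 13 (.s k33 k237 9 (.s k49 k17 3 (.d k205 k137 k153 9 13))))), (.s k3
  k2 0 (.s k101 k117 3 (.s k169 k253 13 (.s k86 k252 14 (.s k71 k116 4 (.d k207 k139 k138 9
  10))))))] .n)

def s47_170_128 : T TT 256 :=
  (.f k101 k117 3 (.q k149 [(.s k197 k53 11 (.s k213 k21 7 (.s k245 k229 3 (.d k5 k133 k165 7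
  11)))), (.s k21 k213 7 (.s k63 k42 6 (.s k106 k192 14 (.s k111 k96 2 (.d k207 k138 k159 10
  11))))), (.s k197 k53 11 (.s k207 k138 10 (.s k154 k48 14 (.s k159 k144 2 (.s k63 k111 11 (.d k192
  k202 k106 2 14))))))] .n))

def s47_170_129 : T TT 256 :=
  (.q k1 [(.s k101 k117 3 (.s k169 k253 13 (.s k33 k237 9 (.s k49 k17 3 (.d k205 k137 k153 9
  13))))), (.s k3 k2 0 (.s k137 k205 9 (.s k70 k204 10 (.s k71 k68 0 (.d k207 k139 k138 9 10))))),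
  (.s k3 k2 0 (.s k101 k117 3 (.s k169 k253 13 (.s k86 k252 14 (.s k71 k116 4 (.d k207 k139 k138 9
  10))))))] .n)

def s47_170_130 : T TT 256 :=
  (.q k150 [(.s k101 k117 3 (.s k199 k52 12 (.s k215 k20 8 (.s k247 k231 3 (.d k4 k134 k166 8
  12))))), (.s k20 k215 8 (.s k60 k40 5 (.s k101 k117 3 (.s k105 k195 14 (.s k109 k97 1 (.d k207
  k138 k158 10 12)))))), (.s k101 k117 3 (.s k199 k52 12 (.s k207 k138 10 (.s k154 k48 14 (.s k158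
  k146 1 (.s k60 k109 12 (.d k195 k203 k105 1 14)))))))] (.c k101 (.f k138 k207 10 (.f k20 k215 8
  (.f k60 k40 5 (.l (.s k105 k195 14 (.s k65 k125 5 (.s k73 k77 1 (.s k89 k121 3 (.s k28 k211 10 (.s
  k12 k44 3 (.d k8 k203 k4 8 1))))))))))) (.c k117 (.l (.s k20 k215 8 (.s k60 k40 5 (.s k207 k138 10
  (.s k158 k109 12 (.s k154 k146 1 (.s k16 k223 10 (.d k48 k32 k101 3 14)))))))) .n)))

def s47_170_131 : T TT 256 :=
  (.q k1 [(.s k101 k117 3 (.s k169 k253 13 (.s k33 k237 9 (.s k49 k17 3 (.d k205 k137 k153 9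
  13))))), (.s k3 k2 0 (.s k137 k205 9 (.s k70 k204 10 (.s k71 k68 0 (.d k207 k139 k138 9 10))))),
  (.s k3 k2 0 (.s k101 k117 3 (.s k169 k253 13 (.s k86 k252 14 (.s k71 k116 4 (.d k207 k139 k138 9
  10))))))] .n)

def s47_170_132 : T TT 256 :=
  (.q k1 [(.s k101 k117 3 (.s k169 k253 13 (.s k33 k237 9 (.s k49 k17 3 (.d k205 k137 k153 9
  13))))), (.s k3 k2 0 (.s k137 k205 9 (.s k70 k204 10 (.s k71 k68 0 (.d k207 k139 k138 9 10))))),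
  (.s k3 k2 0 (.s k101 k117 3 (.s k169 k253 13 (.s k86 k252 14 (.s k71 k116 4 (.d k207 k139 k138 9
  10))))))] .n)

def s47_170_133 : T TT 256 :=
  (.q k1 [(.s k101 k117 3 (.s k169 k253 13 (.s k33 k237 9 (.s k49 k17 3 (.d k205 k137 k153 9
  13))))), (.s k3 k2 0 (.s k137 k205 9 (.s k70 k204 10 (.s k71 k68 0 (.d k207 k139 k138 9 10))))),
  (.s k3 k2 0 (.s k101 k117 3 (.s k169 k253 13 (.s k86 k252 14 (.s k71 k116 4 (.d k207 k139 k138 9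
  10))))))] .n)

def s47_170_134 : T TT 256 :=
  (.q k1 [(.s k101 k117 3 (.s k169 k253 13 (.s k33 k237 9 (.s k49 k17 3 (.d k205 k137 k153 9
  13))))), (.s k3 k2 0 (.s k137 k205 9 (.s k70 k204 10 (.s k71 k68 0 (.d k207 k139 k138 9 10))))),
  (.s k3 k2 0 (.s k101 k117 3 (.s k169 k253 13 (.s k86 k252 14 (.s k71 k116 4 (.d k207 k139 k138 9
  10))))))] .n)

def s47_170_135 : T TT 256 :=
  (.q k1 [(.s k101 k117 3 (.s k169 k253 13 (.s k33 k237 9 (.s k49 k17 3 (.d k205 k137 k153 9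
  13))))), (.s k3 k2 0 (.s k137 k205 9 (.s k70 k204 10 (.s k71 k68 0 (.d k207 k139 k138 9 10))))),
  (.s k3 k2 0 (.s k101 k117 3 (.s k169 k253 13 (.s k86 k252 14 (.s k71 k116 4 (.d k207 k139 k138 9
  10))))))] .n)

def s47_170_136 : T TT 256 :=
  (.f k101 k117 3 (.q k153 [(.s k205 k49 13 (.s k221 k17 9 (.s k253 k237 3 (.d k1 k137 k169 9
  13)))), (.s k17 k221 9 (.s k51 k34 4 (.s k102 k204 14 (.s k103 k100 0 (.d k207 k138 k155 10
  13))))), (.s k205 k49 13 (.s k207 k138 10 (.s k154 k48 14 (.s k155 k152 0 (.s k51 k103 13 (.d k204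
  k206 k102 0 14))))))] .n))

def s47_170_137 : T TT 256 :=
  (.q k4 [(.s k101 k117 3 (.s k166 k247 12 (.s k36 k231 8 (.s k52 k20 3 (.d k199 k134 k150 8
  12))))), (.s k12 k8 1 (.s k134 k199 8 (.s k73 k195 10 (.s k77 k65 1 (.d k207 k142 k138 8 10))))),
  (.s k12 k8 1 (.s k101 k117 3 (.s k166 k247 12 (.s k89 k243 14 (.s k77 k113 5 (.d k207 k142 k138 8
  10))))))] .n)

def s47_170_138 : T TT 256 :=
  (.f k101 k117 3 (.q k1 [(.s k169 k253 13 (.s k33 k237 9 (.s k49 k17 3 (.d k205 k137 k153 9 13)))),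
  (.s k3 k2 0 (.s k137 k205 9 (.s k70 k204 10 (.s k71 k68 0 (.s k86 k116 4 (.s k84 k87 0 (.d k252
  k168 k169 13 14))))))), (.s k3 k2 0 (.s k169 k253 13 (.s k86 k252 14 (.s k71 k116 4 (.s k87 k84 0
  (.s k119 k103 3 (.d k68 k70 k102 0 4)))))))] (.c k154 (.q k186 [(.s k169 k253 13 (.s k33 k237 9
  (.s k49 k17 3 (.d k205 k137 k153 9 13)))), (.s k3 k2 0 (.s k137 k205 9 (.s k70 k204 10 (.s k71 k68
  0 (.s k86 k116 4 (.s k84 k87 0 (.d k252 k168 k169 13 14))))))), (.s k3 k2 0 (.s k169 k253 13 (.s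
  k86 k252 14 (.s k71 k116 4 (.s k87 k84 0 (.s k119 k103 3 (.d k68 k70 k102 0 4)))))))] (.c k169 (.f
  k205 k137 9 (.f k153 k49 13 (.l (.s k17 k221 9 (.s k51 k34 4 (.s k102 k204 14 (.s k68 k119 4 (.s
  k100 k103 0 (.s k116 k84 3 (.d k71 k70 k86 0 4)))))))))) .n)) (.c k169 (.f k3 k2 0 (.f k205 k137 9
  (.f k153 k49 13 (.l (.s k17 k221 9 (.s k51 k34 4 (.s k19 k35 3 (.s k86 k220 10 (.s k71 k116 4 (.s
  k70 k68 0 (.d k102 k118 k204 3 14))))))))))) (.c k186 (.q k154 [(.s k16 k223 10 (.d k48 k32 k207 3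
  14)), (.s k169 k253 13 (.s k33 k237 9 (.s k49 k17 3 (.d k205 k137 k153 9 13))))] (.c k48 (.q k255
  [(.s k169 k253 13 (.s k33 k237 9 (.s k49 k17 3 (.d k205 k137 k153 9 13)))), (.s k3 k2 0 (.s k87
  k171 13 (.s k86 k84 0 (.s k71 k116 4 (.s k119 k103 3 (.d k68 k70 k102 0 4))))))] (.c k169 (.l (.s
  k3 k2 0 (.s k137 k205 9 (.s k70 k204 10 (.s k71 k68 0 (.s k86 k116 4 (.d k87 k84 k171 0 13)))))))
  .n)) (.c k255 (.l (.s k48 k207 14 (.d k16 k223 k32 10 3))) .n))) .n)))))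

def s47_170_139 : T TT 256 :=
  (.q k4 [(.s k101 k117 3 (.s k166 k247 12 (.s k36 k231 8 (.s k52 k20 3 (.d k199 k134 k150 8
  12))))), (.s k12 k8 1 (.s k134 k199 8 (.s k73 k195 10 (.s k77 k65 1 (.d k207 k142 k138 8 10))))),
  (.s k12 k8 1 (.s k101 k117 3 (.s k166 k247 12 (.s k89 k243 14 (.s k77 k113 5 (.d k207 k142 k138 8
  10))))))] .n)

def s47_170_140 : T TT 256 :=
  (.q k1 [(.s k101 k117 3 (.s k169 k253 13 (.s k33 k237 9 (.s k49 k17 3 (.d k205 k137 k153 9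
  13))))), (.s k3 k2 0 (.s k137 k205 9 (.s k70 k204 10 (.s k71 k68 0 (.d k207 k139 k138 9 10))))),
  (.s k3 k2 0 (.s k101 k117 3 (.s k169 k253 13 (.s k86 k252 14 (.s k71 k116 4 (.d k207 k139 k138 9
  10))))))] .n)

def s47_170_141 : T TT 256 :=
  (.q k1 [(.s k101 k117 3 (.s k169 k253 13 (.s k33 k237 9 (.s k49 k17 3 (.d k205 k137 k153 9
  13))))), (.s k3 k2 0 (.s k137 k205 9 (.s k70 k204 10 (.s k71 k68 0 (.d k207 k139 k138 9 10))))),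
  (.s k3 k2 0 (.s k101 k117 3 (.s k169 k253 13 (.s k86 k252 14 (.s k71 k116 4 (.d k207 k139 k138 9
  10))))))] .n)

def s47_170_142 : T TT 256 :=
  (.q k1 [(.s k101 k117 3 (.s k169 k253 13 (.s k33 k237 9 (.s k49 k17 3 (.d k205 k137 k153 9
  13))))), (.s k3 k2 0 (.s k137 k205 9 (.s k70 k204 10 (.s k71 k68 0 (.d k207 k139 k138 9 10))))),
  (.s k3 k2 0 (.s k101 k117 3 (.s k169 k253 13 (.s k86 k252 14 (.s k71 k116 4 (.d k207 k139 k138 9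
  10))))))] .n)

def s47_170_143 : T TT 256 :=
  (.q k1 [(.s k101 k117 3 (.s k169 k253 13 (.s k33 k237 9 (.s k49 k17 3 (.d k205 k137 k153 9
  13))))), (.s k3 k2 0 (.s k137 k205 9 (.s k70 k204 10 (.s k71 k68 0 (.d k207 k139 k138 9 10))))),
  (.s k3 k2 0 (.s k101 k117 3 (.s k169 k253 13 (.s k86 k252 14 (.s k71 k116 4 (.d k207 k139 k138 9
  10))))))] .n)

def s47_170_144 : T TT 256 :=
  (.q k1 [(.s k101 k117 3 (.s k169 k253 13 (.s k33 k237 9 (.s k49 k17 3 (.d k205 k137 k153 9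
  13))))), (.s k3 k2 0 (.s k137 k205 9 (.s k70 k204 10 (.s k71 k68 0 (.d k207 k139 k138 9 10))))),
  (.s k3 k2 0 (.s k101 k117 3 (.s k169 k253 13 (.s k86 k252 14 (.s k71 k116 4 (.d k207 k139 k138 9
  10))))))] .n)

def s47_170_145 : T TT 256 :=
  (.q k1 [(.s k3 k2 0 (.s k137 k205 9 (.s k70 k204 10 (.s k71 k68 0 (.d k207 k139 k138 9 10))))),
  (.s k101 k117 3 (.s k169 k253 13 (.s k33 k237 9 (.s k49 k17 3 (.d k205 k137 k153 9 13))))), (.s k3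
  k2 0 (.s k101 k117 3 (.s k169 k253 13 (.s k86 k252 14 (.s k71 k116 4 (.d k207 k139 k138 9
  10))))))] .n)

def s47_170_146 : T TT 256 :=
  (.q k1 [(.s k101 k117 3 (.s k169 k253 13 (.s k33 k237 9 (.s k49 k17 3 (.d k205 k137 k153 9
  13))))), (.s k3 k2 0 (.s k137 k205 9 (.s k70 k204 10 (.s k71 k68 0 (.d k207 k139 k138 9 10))))),
  (.s k3 k2 0 (.s k101 k117 3 (.s k169 k253 13 (.s k86 k252 14 (.s k71 k116 4 (.d k207 k139 k138 9
  10))))))] .n)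

def s47_170_147 : T TT 256 :=
  (.q k1 [(.s k101 k117 3 (.s k169 k253 13 (.s k33 k237 9 (.s k49 k17 3 (.d k205 k137 k153 9
  13))))), (.s k3 k2 0 (.s k137 k205 9 (.s k70 k204 10 (.s k71 k68 0 (.d k207 k139 k138 9 10))))),
  (.s k3 k2 0 (.s k101 k117 3 (.s k169 k253 13 (.s k86 k252 14 (.s k71 k116 4 (.d k207 k139 k138 9
  10))))))] .n)

def s47_170_148 : T TT 256 :=
  (.q k1 [(.s k101 k117 3 (.s k169 k253 13 (.s k33 k237 9 (.s k49 k17 3 (.d k205 k137 k153 9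
  13))))), (.s k3 k2 0 (.s k137 k205 9 (.s k70 k204 10 (.s k71 k68 0 (.d k207 k139 k138 9 10))))),
  (.s k3 k2 0 (.s k101 k117 3 (.s k169 k253 13 (.s k86 k252 14 (.s k71 k116 4 (.d k207 k139 k138 9
  10))))))] .n)

def s47_170_149 : T TT 256 :=
  (.f k101 k117 3 (.q k64 [(.s k79 k74 2 (.s k90 k112 6 (.s k95 k80 2 (.d k127 k111 k106 3 6)))),
  (.s k74 k79 2 (.s k138 k207 10 (.s k10 k202 7 (.s k15 k5 2 (.d k192 k128 k133 7 10))))), (.s k106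
  k127 6 (.s k207 k138 10 (.s k154 k48 14 (.s k202 k58 11 (.d k192 k128 k197 7 2)))))] (.c k128 (.q
  k191 [(.s k79 k74 2 (.s k90 k112 6 (.s k95 k80 2 (.d k127 k111 k106 3 6)))), (.s k127 k106 6 (.s
  k207 k138 10 (.s k154 k48 14 (.s k223 k16 10 (.d k255 k63 k239 7 3)))))] (.c k106 (.l (.s k79 k74
  2 (.s k90 k112 6 (.s k80 k95 2 (.s k207 k138 10 (.s k240 k160 11 (.d k15 k143 k165 7 14))))))) (.c
  k127 (.l (.s k79 k74 2 (.s k112 k90 6 (.s k80 k96 3 (.s k207 k138 10 (.s k240 k160 11 (.d k48 k176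
  k154 7 14))))))) .n))) (.c k191 (.l (.s k128 k192 7 (.s k79 k74 2 (.s k90 k112 6 (.s k95 k80 2 (.d
  k127 k106 k111 6 3)))))) .n))))

def s47_170_150 : T TT 256 :=
  (.q k65 [(.s k73 k77 1 (.s k138 k207 10 (.s k8 k203 8 (.s k12 k4 1 (.d k195 k130 k134 8 10))))),
  (.s k77 k73 1 (.s k101 k117 3 (.s k89 k113 5 (.s k93 k81 1 (.d k125 k109 k105 3 5))))), (.s k101
  k117 3 (.s k105 k125 5 (.s k207 k138 10 (.s k154 k48 14 (.s k203 k56 12 (.d k195 k130 k199 8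
  1))))))] (.c k130 (.q k190 [(.s k77 k73 1 (.s k101 k117 3 (.s k89 k113 5 (.s k93 k81 1 (.d k125
  k109 k105 3 5))))), (.s k101 k117 3 (.s k125 k105 5 (.s k207 k138 10 (.s k154 k48 14 (.s k223 k16
  10 (.d k255 k60 k239 8 3)))))), (.s k77 k73 1 (.s k125 k105 5 (.s k60 k255 8 (.s k109 k93 3 (.d
  k207 k138 k158 10 12)))))] (.c k105 (.l (.s k77 k73 1 (.s k101 k117 3 (.s k89 k113 5 (.s k81 k93 1
  (.s k207 k138 10 (.s k243 k162 12 (.d k12 k142 k166 8 14)))))))) (.c k125 (.l (.s k77 k73 1 (.s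
  k101 k117 3 (.s k113 k89 5 (.s k81 k97 3 (.s k207 k138 10 (.s k243 k162 12 (.d k48 k178 k154 8
  14)))))))) .n))) (.c k190 (.l (.s k130 k195 8 (.s k77 k73 1 (.s k101 k117 3 (.s k89 k113 5 (.s k93
  k81 1 (.d k125 k105 k109 5 3))))))) .n)))

def s47_170_151 : T TT 256 :=
  (.q k1 [(.s k101 k117 3 (.s k169 k253 13 (.s k33 k237 9 (.s k49 k17 3 (.d k205 k137 k153 9
  13))))), (.s k3 k2 0 (.s k137 k205 9 (.s k70 k204 10 (.s k71 k68 0 (.d k207 k139 k138 9 10))))),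
  (.s k3 k2 0 (.s k101 k117 3 (.s k169 k253 13 (.s k86 k252 14 (.s k71 k116 4 (.d k207 k139 k138 9
  10))))))] .n)

def s47_170_152 : T TT 256 :=
  (.q k1 [(.s k101 k117 3 (.s k169 k253 13 (.s k33 k237 9 (.s k49 k17 3 (.d k205 k137 k153 9
  13))))), (.s k3 k2 0 (.s k137 k205 9 (.s k70 k204 10 (.s k71 k68 0 (.d k207 k139 k138 9 10))))),
  (.s k3 k2 0 (.s k101 k117 3 (.s k169 k253 13 (.s k86 k252 14 (.s k71 k116 4 (.d k207 k139 k138 9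
  10))))))] .n)

def s47_170_153 : T TT 256 :=
  (.q k68 [(.s k70 k71 0 (.s k138 k207 10 (.s k2 k206 9 (.s k3 k1 0 (.d k204 k136 k137 9 10))))),
  (.s k71 k70 0 (.s k101 k117 3 (.s k86 k116 4 (.s k87 k84 0 (.d k119 k103 k102 3 4))))), (.s k101
  k117 3 (.s k102 k119 4 (.s k207 k138 10 (.s k154 k48 14 (.s k206 k50 13 (.d k204 k136 k205 9
  0))))))] (.c k136 (.q k187 [(.s k71 k70 0 (.s k101 k117 3 (.s k86 k116 4 (.s k87 k84 0 (.d k119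
  k103 k102 3 4))))), (.s k101 k117 3 (.s k119 k102 4 (.s k207 k138 10 (.s k154 k48 14 (.s k223 k16
  10 (.d k255 k51 k239 9 3)))))), (.s k71 k70 0 (.s k119 k102 4 (.s k51 k255 9 (.s k103 k87 3 (.d
  k207 k138 k155 10 13)))))] (.c k102 (.l (.s k71 k70 0 (.s k101 k117 3 (.s k86 k116 4 (.s k84 k87 0
  (.s k207 k138 10 (.s k252 k168 13 (.d k3 k139 k169 9 14)))))))) (.c k119 (.l (.s k71 k70 0 (.s
  k101 k117 3 (.s k116 k86 4 (.s k84 k100 3 (.s k207 k138 10 (.s k252 k168 13 (.d k48 k184 k154 9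
  14)))))))) .n))) (.c k187 (.l (.s k136 k204 9 (.s k71 k70 0 (.s k101 k117 3 (.s k86 k116 4 (.s k87
  k84 0 (.d k119 k102 k103 4 3))))))) .n)))

def s47_170_154 : T TT 256 :=
  (.q k1 [(.s k3 k2 0 (.s k137 k205 9 (.s k70 k204 10 (.s k71 k68 0 (.d k207 k138 k139 10 9))))),
  (.s k101 k117 3 (.s k169 k253 13 (.s k33 k237 9 (.s k49 k17 3 (.d k205 k137 k153 9 13))))), (.s k3
  k2 0 (.s k101 k117 3 (.s k169 k253 13 (.s k86 k252 14 (.s k71 k116 4 (.d k207 k138 k139 10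
  9))))))] (.c k138 (.q k186 [(.s k101 k117 3 (.s k169 k253 13 (.s k33 k237 9 (.s k49 k17 3 (.d k205
  k137 k153 9 13))))), (.s k3 k2 0 (.s k117 k101 3 (.s k169 k253 13 (.s k86 k252 14 (.s k87 k84 0
  (.d k255 k48 k171 10 13)))))), (.s k3 k2 0 (.s k137 k205 9 (.s k70 k204 10 (.s k68 k71 0 (.s k102
  k119 4 (.s k169 k253 13 (.d k86 k118 k252 3 14))))))), (.s k3 k2 0 (.s k117 k101 3 (.s k48 k255 10
  (.s k32 k16 3 (.s k33 k18 4 (.s k17 k49 3 (.d k34 k35 k51 0 4)))))))] .n) (.c k186 (.l (.s k138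
  k207 10 (.s k3 k2 0 (.s k137 k205 9 (.s k136 k139 0 (.d k204 k68 k70 9 10)))))) .n)))

def s47_170_155 : T TT 256 :=
  (.q k1 [(.s k101 k117 3 (.s k169 k253 13 (.s k33 k237 9 (.s k49 k17 3 (.d k205 k137 k153 9
  13))))), (.s k3 k2 0 (.s k137 k205 9 (.s k70 k204 10 (.s k71 k68 0 (.d k207 k139 k138 9 10))))),
  (.s k3 k2 0 (.s k101 k117 3 (.s k169 k253 13 (.s k86 k252 14 (.s k71 k116 4 (.d k207 k139 k138 9
  10))))))] .n)

def s47_170_156 : T TT 256 :=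
  (.q k1 [(.s k101 k117 3 (.s k169 k253 13 (.s k33 k237 9 (.s k49 k17 3 (.d k205 k137 k153 9
  13))))), (.s k3 k2 0 (.s k137 k205 9 (.s k70 k204 10 (.s k71 k68 0 (.d k207 k139 k138 9 10))))),
  (.s k3 k2 0 (.s k101 k117 3 (.s k169 k253 13 (.s k86 k252 14 (.s k71 k116 4 (.d k207 k139 k138 9
  10))))))] .n)

def s47_170_157 : T TT 256 :=
  (.q k1 [(.s k101 k117 3 (.s k169 k253 13 (.s k33 k237 9 (.s k49 k17 3 (.d k205 k137 k153 9
  13))))), (.s k3 k2 0 (.s k137 k205 9 (.s k70 k204 10 (.s k71 k68 0 (.d k207 k139 k138 9 10))))),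
  (.s k3 k2 0 (.s k101 k117 3 (.s k169 k253 13 (.s k86 k252 14 (.s k71 k116 4 (.d k207 k139 k138 9
  10))))))] .n)

def s47_170_158 : T TT 256 :=
  (.q k1 [(.s k101 k117 3 (.s k169 k253 13 (.s k33 k237 9 (.s k49 k17 3 (.d k205 k137 k153 9
  13))))), (.s k3 k2 0 (.s k137 k205 9 (.s k70 k204 10 (.s k71 k68 0 (.d k207 k139 k138 9 10))))),
  (.s k3 k2 0 (.s k101 k117 3 (.s k169 k253 13 (.s k86 k252 14 (.s k71 k116 4 (.d k207 k139 k138 9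
  10))))))] .n)

def s47_170_159 : T TT 256 :=
  (.q k1 [(.s k101 k117 3 (.s k169 k253 13 (.s k33 k237 9 (.s k49 k17 3 (.d k205 k137 k153 9
  13))))), (.s k3 k2 0 (.s k137 k205 9 (.s k70 k204 10 (.s k71 k68 0 (.d k207 k139 k138 9 10))))),
  (.s k3 k2 0 (.s k101 k117 3 (.s k169 k253 13 (.s k86 k252 14 (.s k71 k116 4 (.d k207 k139 k138 9
  10))))))] .n)

def s47_170_160 : T TT 256 :=
  (.q k165 [(.s k5 k245 11 (.s k101 k117 3 (.s k37 k229 7 (.s k53 k21 3 (.d k197 k133 k149 7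
  11))))), (.s k101 k117 3 (.s k207 k138 10 (.s k154 k48 14 (.s k143 k176 6 (.s k15 k79 7 (.s k229
  k37 7 (.d k240 k218 k90 6 14))))))), (.s k5 k245 11 (.s k15 k10 2 (.s k133 k197 7 (.s k74 k192 10
  (.s k79 k64 2 (.d k207 k143 k138 7 10))))))] (.c k229 (.l (.s k5 k245 11 (.s k15 k10 2 (.s k90
  k240 14 (.s k101 k117 3 (.s k79 k112 6 (.d k207 k143 k138 7 10))))))) .n))

def s47_170_161 : T TT 256 :=
  (.q k1 [(.s k101 k117 3 (.s k169 k253 13 (.s k33 k237 9 (.s k49 k17 3 (.d k205 k137 k153 9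
  13))))), (.s k3 k2 0 (.s k137 k205 9 (.s k70 k204 10 (.s k71 k68 0 (.d k207 k139 k138 9 10))))),
  (.s k3 k2 0 (.s k101 k117 3 (.s k169 k253 13 (.s k86 k252 14 (.s k71 k116 4 (.d k207 k139 k138 9
  10))))))] .n)

def s47_170_162 : T TT 256 :=
  (.q k166 [(.s k4 k247 12 (.s k101 k117 3 (.s k36 k231 8 (.s k52 k20 3 (.d k199 k134 k150 8
  12))))), (.s k101 k117 3 (.s k207 k138 10 (.s k154 k48 14 (.s k142 k178 5 (.s k12 k77 8 (.s k231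
  k36 8 (.d k243 k219 k89 5 14))))))), (.s k4 k247 12 (.s k12 k8 1 (.s k134 k199 8 (.s k73 k195 10
  (.s k77 k65 1 (.d k207 k142 k138 8 10))))))] (.c k231 (.l (.s k4 k247 12 (.s k12 k8 1 (.s k89 k243
  14 (.s k101 k117 3 (.s k77 k113 5 (.d k207 k142 k138 8 10))))))) .n))

def s47_170_163 : T TT 256 :=
  (.q k1 [(.s k101 k117 3 (.s k169 k253 13 (.s k33 k237 9 (.s k49 k17 3 (.d k205 k137 k153 9
  13))))), (.s k3 k2 0 (.s k137 k205 9 (.s k70 k204 10 (.s k71 k68 0 (.d k207 k139 k138 9 10))))),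
  (.s k3 k2 0 (.s k101 k117 3 (.s k169 k253 13 (.s k86 k252 14 (.s k71 k116 4 (.d k207 k139 k138 9
  10))))))] .n)

def s47_170_164 : T TT 256 :=
  (.q k1 [(.s k101 k117 3 (.s k169 k253 13 (.s k33 k237 9 (.s k49 k17 3 (.d k205 k137 k153 9
  13))))), (.s k3 k2 0 (.s k137 k205 9 (.s k70 k204 10 (.s k71 k68 0 (.d k207 k139 k138 9 10))))),
  (.s k3 k2 0 (.s k101 k117 3 (.s k169 k253 13 (.s k86 k252 14 (.s k71 k116 4 (.d k207 k139 k138 9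
  10))))))] .n)

def s47_170_165 : T TT 256 :=
  (.f k101 k117 3 (.q k106 [(.s k64 k127 6 (.s k79 k74 2 (.s k96 k111 2 (.d k112 k80 k90 3 6)))),
  (.s k111 k96 2 (.s k207 k138 10 (.s k63 k159 11 (.s k21 k42 6 (.d k149 k213 k192 7 14))))), (.s
  k64 k127 6 (.s k192 k128 7 (.s k149 k63 14 (.s k197 k53 11 (.d k207 k202 k138 2 10)))))] (.c k160
  (.q k175 [(.s k64 k127 6 (.s k79 k74 2 (.s k96 k111 2 (.d k112 k80 k90 3 6)))), (.s k111 k96 2 (.s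
  k207 k138 10 (.s k63 k159 11 (.s k21 k42 6 (.d k149 k213 k192 7 14))))), (.s k64 k127 6 (.s k192
  k128 7 (.s k149 k63 14 (.s k197 k53 11 (.d k207 k202 k138 2 10)))))] .n) (.c k175 (.q k160 [(.s
  k64 k127 6 (.s k80 k240 11 (.d k96 k111 k112 2 3))), (.s k111 k96 2 (.s k207 k138 10 (.s k63 k159
  11 (.s k21 k42 6 (.d k149 k213 k192 7 14)))))] (.c k96 (.l (.s k64 k127 6 (.s k74 k79 2 (.s k80
  k240 11 (.d k90 k95 k122 2 3))))) (.c k111 (.q k239 [(.s k207 k138 10 (.s k154 k48 14 (.d k223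
  k255 k16 3 10))), (.s k64 k127 6 (.s k79 k74 2 (.s k80 k240 11 (.d k90 k95 k112 2 6))))] .n) (.c
  k239 (.l (.s k111 k96 2 (.s k80 k240 11 (.s k127 k64 6 (.d k95 k90 k79 2 3))))) .n)))) .n))))

def s47_170_166 : T TT 256 :=
  (.f k101 k117 3 (.f k138 k207 10 (.q k68 [(.s k71 k70 0 (.s k86 k116 4 (.s k87 k84 0 (.d k119 k103
  k102 3 4)))), (.s k70 k71 0 (.s k2 k206 9 (.s k3 k1 0 (.d k204 k136 k137 9 10)))), (.s k102 k119 4
  (.s k204 k136 9 (.s k153 k51 14 (.s k205 k49 13 (.s k1 k137 9 (.s k221 k17 9 (.d k253 k237 k169 3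
  13)))))))] (.c k162 (.q k174 [(.s k71 k70 0 (.s k86 k116 4 (.s k87 k84 0 (.d k119 k103 k102 3
  4)))), (.s k70 k71 0 (.s k2 k206 9 (.s k3 k1 0 (.d k204 k136 k137 9 10)))), (.s k102 k119 4 (.s
  k204 k136 9 (.s k153 k51 14 (.s k205 k49 13 (.s k1 k137 9 (.s k221 k17 9 (.d k253 k237 k169 3
  13)))))))] .n) (.c k174 (.q k162 [(.s k71 k70 0 (.s k86 k116 4 (.s k87 k84 0 (.d k119 k103 k102 3
  4)))), (.s k70 k71 0 (.s k2 k206 9 (.s k3 k1 0 (.d k204 k136 k137 9 10)))), (.s k81 k243 12 (.s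
  k89 k93 1 (.s k77 k113 5 (.s k102 k119 4 (.s k76 k115 6 (.s k64 k72 1 (.d k79 k78 k74 0 2)))))))]
  .n) .n)))))

def s47_170_167 : T TT 256 :=
  (.f k138 k207 10 (.f k101 k117 3 (.q k4 [(.s k134 k199 8 (.s k130 k142 1 (.s k195 k65 8 (.d k12 k8
  k73 1 10)))), (.s k166 k247 12 (.s k36 k231 8 (.s k52 k20 3 (.d k199 k134 k150 8 12)))), (.s k12
  k8 1 (.s k166 k247 12 (.s k89 k243 14 (.s k77 k113 5 (.s k65 k73 1 (.s k93 k81 1 (.d k125 k109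
  k105 3 5)))))))] (.c k107 (.q k227 [(.s k134 k199 8 (.s k130 k142 1 (.s k195 k65 8 (.d k12 k8 k73
  1 10)))), (.s k166 k247 12 (.s k36 k231 8 (.s k52 k20 3 (.d k199 k134 k150 8 12)))), (.s k8 k12 1
  (.s k166 k247 12 (.s k105 k44 10 (.s k65 k125 5 (.d k73 k77 k203 1 8)))))] .n) (.c k227 (.q k107
  [(.s k134 k199 8 (.s k130 k142 1 (.s k195 k65 8 (.d k12 k8 k73 1 10)))), (.s k166 k247 12 (.s k36
  k231 8 (.s k52 k20 3 (.d k199 k134 k150 8 12)))), (.s k12 k8 1 (.s k166 k247 12 (.s k89 k243 14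
  (.s k77 k113 5 (.s k65 k73 1 (.s k93 k81 1 (.d k125 k109 k105 3 5)))))))] .n) .n)))))

def s47_170_168 : T TT 256 :=
  (.q k169 [(.s k1 k253 13 (.s k101 k117 3 (.s k33 k237 9 (.s k49 k17 3 (.d k205 k137 k153 9
  13))))), (.s k101 k117 3 (.s k207 k138 10 (.s k154 k48 14 (.s k139 k184 4 (.s k3 k71 9 (.s k237
  k33 9 (.d k252 k222 k86 4 14))))))), (.s k1 k253 13 (.s k3 k2 0 (.s k137 k205 9 (.s k70 k204 10
  (.s k71 k68 0 (.d k207 k139 k138 9 10))))))] (.c k237 (.l (.s k1 k253 13 (.s k3 k2 0 (.s k86 k252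
  14 (.s k101 k117 3 (.s k71 k116 4 (.d k207 k139 k138 9 10))))))) .n))

def s47_170_169 : T TT 256 :=
  (.f k101 k117 3 (.f k138 k207 10 (.q k4 [(.s k134 k199 8 (.s k130 k142 1 (.s k195 k65 8 (.d k12 k8
  k73 1 10)))), (.s k166 k247 12 (.s k36 k231 8 (.s k52 k20 3 (.d k199 k134 k150 8 12)))), (.s k12
  k8 1 (.s k166 k247 12 (.s k89 k243 14 (.s k77 k113 5 (.s k65 k73 1 (.s k93 k81 1 (.d k125 k109
  k105 3 5)))))))] (.c k168 (.q k171 [(.s k134 k199 8 (.s k130 k142 1 (.s k195 k65 8 (.d k12 k8 k73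
  1 10)))), (.s k166 k247 12 (.s k36 k231 8 (.s k52 k20 3 (.d k199 k134 k150 8 12)))), (.s k12 k8 1
  (.s k166 k247 12 (.s k89 k243 14 (.s k77 k113 5 (.s k65 k73 1 (.s k93 k81 1 (.d k125 k109 k105 3
  5)))))))] .n) (.c k171 (.q k168 [(.s k134 k199 8 (.s k130 k142 1 (.s k195 k65 8 (.d k12 k8 k73 1
  10)))), (.s k166 k247 12 (.s k36 k231 8 (.s k52 k20 3 (.d k199 k134 k150 8 12)))), (.s k12 k8 1
  (.s k84 k252 13 (.s k164 k244 11 (.s k160 k172 1 (.d k240 k80 k88 11 13)))))] .n) .n)))))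

def s47_170_171 : T TT 256 :=
  (.q k169 [(.s k1 k253 13 (.s k101 k117 3 (.s k33 k237 9 (.s k49 k17 3 (.d k205 k137 k153 9
  13))))), (.s k101 k117 3 (.s k207 k138 10 (.s k237 k33 9 (.s k252 k222 4 (.s k84 k168 13 (.d k86
  k87 k3 0 14)))))), (.s k1 k253 13 (.s k3 k2 0 (.s k137 k205 9 (.s k70 k204 10 (.s k71 k68 0 (.d
  k207 k139 k138 9 10))))))] (.c k237 (.l (.s k1 k253 13 (.s k3 k2 0 (.s k86 k252 14 (.s k101 k117 3
  (.s k71 k116 4 (.d k207 k139 k138 9 10))))))) .n))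

def s47_170_172 : T TT 256 :=
  (.q k1 [(.s k101 k117 3 (.s k169 k253 13 (.s k33 k237 9 (.s k49 k17 3 (.d k205 k137 k153 9
  13))))), (.s k3 k2 0 (.s k137 k205 9 (.s k70 k204 10 (.s k71 k68 0 (.d k207 k139 k138 9 10))))),
  (.s k3 k2 0 (.s k101 k117 3 (.s k169 k253 13 (.s k86 k252 14 (.s k71 k116 4 (.d k207 k139 k138 9
  10))))))] .n)

def s47_170_173 : T TT 256 :=
  (.f k138 k207 10 (.f k101 k117 3 (.q k4 [(.s k134 k199 8 (.s k130 k142 1 (.s k195 k65 8 (.d k12 k8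
  k73 1 10)))), (.s k166 k247 12 (.s k36 k231 8 (.s k52 k20 3 (.d k199 k134 k150 8 12)))), (.s k12
  k8 1 (.s k166 k247 12 (.s k89 k243 14 (.s k77 k113 5 (.s k65 k73 1 (.s k93 k81 1 (.d k125 k109
  k105 3 5)))))))] (.c k110 (.q k236 [(.s k134 k199 8 (.s k130 k142 1 (.s k195 k65 8 (.d k12 k8 k73
  1 10)))), (.s k166 k247 12 (.s k36 k231 8 (.s k52 k20 3 (.d k199 k134 k150 8 12)))), (.s k12 k8 1
  (.s k166 k247 12 (.s k89 k243 14 (.s k77 k113 5 (.s k65 k73 1 (.s k93 k81 1 (.d k125 k109 k105 3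
  5)))))))] .n) (.c k236 (.q k110 [(.s k134 k199 8 (.s k130 k142 1 (.s k195 k65 8 (.d k12 k8 k73 1
  10)))), (.s k166 k247 12 (.s k36 k231 8 (.s k52 k20 3 (.d k199 k134 k150 8 12)))), (.s k12 k8 1
  (.s k166 k247 12 (.s k89 k243 14 (.s k77 k113 5 (.s k65 k73 1 (.s k93 k81 1 (.d k125 k109 k105 3
  5)))))))] .n) .n)))))

def s47_170_174 : T TT 256 :=
  (.q k166 [(.s k4 k247 12 (.s k101 k117 3 (.s k36 k231 8 (.s k52 k20 3 (.d k199 k134 k150 8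
  12))))), (.s k101 k117 3 (.s k207 k138 10 (.s k231 k36 8 (.s k243 k219 5 (.s k81 k162 12 (.d k89
  k93 k12 1 14)))))), (.s k4 k247 12 (.s k12 k8 1 (.s k134 k199 8 (.s k73 k195 10 (.s k77 k65 1 (.d
  k207 k142 k138 8 10))))))] (.c k231 (.l (.s k4 k247 12 (.s k12 k8 1 (.s k89 k243 14 (.s k101 k117
  3 (.s k77 k113 5 (.d k207 k142 k138 8 10))))))) .n))

def s47_170_175 : T TT 256 :=
  (.f k101 k117 3 (.q k165 [(.s k5 k245 11 (.s k37 k229 7 (.s k53 k21 3 (.d k197 k133 k149 7 11)))),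
  (.s k207 k138 10 (.s k229 k37 7 (.s k240 k218 6 (.s k80 k160 11 (.d k90 k95 k15 2 14))))), (.s k5
  k245 11 (.s k15 k10 2 (.s k90 k240 14 (.s k79 k112 6 (.d k207 k143 k138 7 10)))))] (.c k111 (.q
  k239 [(.s k207 k138 10 (.s k154 k48 14 (.d k223 k255 k16 3 10))), (.s k5 k245 11 (.s k37 k229 7
  (.s k53 k21 3 (.d k197 k133 k149 7 11))))] .n) (.c k239 (.q k111 [(.s k5 k245 11 (.s k197 k133 7
  (.s k53 k149 11 (.d k37 k21 k229 3 7)))), (.s k106 k96 2 (.s k64 k127 6 (.s k192 k128 7 (.s k207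
  k138 10 (.d k63 k149 k159 14 11))))), (.s k5 k245 11 (.s k15 k10 2 (.s k37 k229 7 (.s k48 k26 6
  (.d k207 k138 k154 10 14)))))] .n) .n))))

def s47_170_176 : T TT 256 :=
  (.q k1 [(.s k101 k117 3 (.s k169 k253 13 (.s k33 k237 9 (.s k49 k17 3 (.d k205 k137 k153 9
  13))))), (.s k3 k2 0 (.s k137 k205 9 (.s k70 k204 10 (.s k71 k68 0 (.d k207 k139 k138 9 10))))),
  (.s k3 k2 0 (.s k101 k117 3 (.s k169 k253 13 (.s k86 k252 14 (.s k71 k116 4 (.d k207 k139 k138 9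
  10))))))] .n)

def s47_170_177 : T TT 256 :=
  (.q k1 [(.s k101 k117 3 (.s k169 k253 13 (.s k33 k237 9 (.s k49 k17 3 (.d k205 k137 k153 9
  13))))), (.s k3 k2 0 (.s k137 k205 9 (.s k70 k204 10 (.s k71 k68 0 (.d k207 k139 k138 9 10))))),
  (.s k3 k2 0 (.s k101 k117 3 (.s k169 k253 13 (.s k86 k252 14 (.s k71 k116 4 (.d k207 k139 k138 9
  10))))))] .n)

def s47_170_178 : T TT 256 :=
  (.q k1 [(.s k101 k117 3 (.s k169 k253 13 (.s k33 k237 9 (.s k49 k17 3 (.d k205 k137 k153 9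
  13))))), (.s k3 k2 0 (.s k137 k205 9 (.s k70 k204 10 (.s k71 k68 0 (.d k207 k139 k138 9 10))))),
  (.s k3 k2 0 (.s k101 k117 3 (.s k169 k253 13 (.s k86 k252 14 (.s k71 k116 4 (.d k207 k139 k138 9
  10))))))] .n)

def s47_170_179 : T TT 256 :=
  (.q k1 [(.s k101 k117 3 (.s k169 k253 13 (.s k33 k237 9 (.s k49 k17 3 (.d k205 k137 k153 9
  13))))), (.s k3 k2 0 (.s k137 k205 9 (.s k70 k204 10 (.s k71 k68 0 (.d k207 k139 k138 9 10))))),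
  (.s k3 k2 0 (.s k101 k117 3 (.s k169 k253 13 (.s k86 k252 14 (.s k71 k116 4 (.d k207 k139 k138 9
  10))))))] .n)

def s47_170_180 : T TT 256 :=
  (.q k1 [(.s k101 k117 3 (.s k169 k253 13 (.s k33 k237 9 (.s k49 k17 3 (.d k205 k137 k153 9
  13))))), (.s k3 k2 0 (.s k137 k205 9 (.s k70 k204 10 (.s k71 k68 0 (.d k207 k139 k138 9 10))))),
  (.s k3 k2 0 (.s k101 k117 3 (.s k169 k253 13 (.s k86 k252 14 (.s k71 k116 4 (.d k207 k139 k138 9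
  10))))))] .n)

def s47_170_181 : T TT 256 :=
  (.q k1 [(.s k3 k2 0 (.s k137 k205 9 (.s k70 k204 10 (.s k71 k68 0 (.d k207 k139 k138 9 10))))),
  (.s k101 k117 3 (.s k169 k253 13 (.s k33 k237 9 (.s k49 k17 3 (.d k205 k137 k153 9 13))))), (.s k3
  k2 0 (.s k101 k117 3 (.s k169 k253 13 (.s k86 k252 14 (.s k71 k116 4 (.d k207 k139 k138 9
  10))))))] .n)

def s47_170_182 : T TT 256 :=
  (.q k1 [(.s k3 k2 0 (.s k137 k205 9 (.s k70 k204 10 (.s k71 k68 0 (.d k207 k139 k138 9 10))))),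
  (.s k101 k117 3 (.s k169 k253 13 (.s k33 k237 9 (.s k49 k17 3 (.d k205 k137 k153 9 13))))), (.s k3
  k2 0 (.s k101 k117 3 (.s k169 k253 13 (.s k86 k252 14 (.s k71 k116 4 (.d k207 k139 k138 9
  10))))))] .n)

def s47_170_183 : T TT 256 :=
  (.q k1 [(.s k101 k117 3 (.s k169 k253 13 (.s k33 k237 9 (.s k49 k17 3 (.d k205 k137 k153 9
  13))))), (.s k3 k2 0 (.s k137 k205 9 (.s k70 k204 10 (.s k71 k68 0 (.d k207 k139 k138 9 10))))),
  (.s k3 k2 0 (.s k101 k117 3 (.s k169 k253 13 (.s k86 k252 14 (.s k71 k116 4 (.d k207 k139 k138 9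
  10))))))] .n)

def s47_170_184 : T TT 256 :=
  (.q k1 [(.s k101 k117 3 (.s k169 k253 13 (.s k33 k237 9 (.s k49 k17 3 (.d k205 k137 k153 9
  13))))), (.s k3 k2 0 (.s k137 k205 9 (.s k70 k204 10 (.s k71 k68 0 (.d k207 k139 k138 9 10))))),
  (.s k3 k2 0 (.s k101 k117 3 (.s k169 k253 13 (.s k86 k252 14 (.s k207 k138 10 (.d k71 k116 k139 4
  9))))))] .n)

def s47_170_185 : T TT 256 :=
  (.q k1 [(.s k101 k117 3 (.s k205 k137 9 (.s k49 k153 13 (.s k169 k253 13 (.d k33 k17 k237 3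
  9))))), (.s k3 k2 0 (.s k137 k205 9 (.s k70 k204 10 (.s k71 k68 0 (.d k207 k139 k138 9 10))))),
  (.s k3 k2 0 (.s k101 k117 3 (.s k207 k138 10 (.s k139 k71 9 (.s k154 k48 14 (.d k169 k253 k184 13
  4))))))] .n)

def s47_170_186 : T TT 256 :=
  (.q k1 [(.s k3 k2 0 (.s k137 k205 9 (.s k70 k204 10 (.s k71 k68 0 (.d k207 k138 k139 10 9))))),
  (.s k101 k117 3 (.s k169 k253 13 (.s k33 k237 9 (.s k49 k17 3 (.d k205 k137 k153 9 13))))), (.s k3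
  k2 0 (.s k101 k117 3 (.s k169 k253 13 (.s k86 k252 14 (.s k71 k116 4 (.d k207 k138 k139 10
  9))))))] (.c k138 (.q k154 [(.s k16 k223 10 (.s k101 k117 3 (.d k48 k32 k207 3 14))), (.s k205
  k137 9 (.s k253 k169 13 (.s k221 k237 3 (.s k153 k17 9 (.d k101 k117 k49 3 13))))), (.s k3 k2 0
  (.s k16 k223 10 (.s k169 k253 13 (.s k86 k252 14 (.s k18 k222 9 (.d k48 k32 k33 3 4))))))] .n) (.c
  k154 (.l (.s k138 k207 10 (.s k3 k2 0 (.s k137 k205 9 (.s k136 k139 0 (.d k204 k68 k70 9 10))))))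
  .n)))

def s47_170_187 : T TT 256 :=
  (.f k101 k117 3 (.q k153 [(.s k205 k49 13 (.s k1 k137 9 (.s k221 k17 9 (.d k253 k237 k169 3
  13)))), (.s k17 k221 9 (.s k51 k34 4 (.s k102 k204 14 (.s k103 k100 0 (.d k207 k138 k155 10
  13))))), (.s k205 k49 13 (.s k207 k138 10 (.s k204 k206 0 (.s k68 k136 9 (.d k102 k119 k51 4
  14)))))] .n))

def s47_170_188 : T TT 256 :=
  (.q k1 [(.s k101 k117 3 (.s k169 k253 13 (.s k33 k237 9 (.s k49 k17 3 (.d k205 k137 k153 9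
  13))))), (.s k3 k2 0 (.s k137 k205 9 (.s k70 k204 10 (.s k71 k68 0 (.d k207 k139 k138 9 10))))),
  (.s k3 k2 0 (.s k101 k117 3 (.s k169 k253 13 (.s k86 k252 14 (.s k71 k116 4 (.d k207 k139 k138 9
  10))))))] .n)

def s47_170_189 : T TT 256 :=
  (.q k1 [(.s k3 k2 0 (.s k137 k205 9 (.s k70 k204 10 (.s k71 k68 0 (.d k207 k139 k138 9 10))))),
  (.s k101 k117 3 (.s k169 k253 13 (.s k33 k237 9 (.s k49 k17 3 (.d k205 k137 k153 9 13))))), (.s k3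
  k2 0 (.s k101 k117 3 (.s k169 k253 13 (.s k86 k252 14 (.s k71 k116 4 (.d k207 k139 k138 9
  10))))))] .n)

def s47_170_190 : T TT 256 :=
  (.f k101 k117 3 (.q k150 [(.s k199 k52 12 (.s k4 k134 8 (.s k215 k20 8 (.d k247 k231 k166 3
  12)))), (.s k20 k215 8 (.s k60 k40 5 (.s k105 k195 14 (.s k109 k97 1 (.d k207 k138 k158 10
  12))))), (.s k199 k52 12 (.s k207 k138 10 (.s k195 k203 1 (.s k65 k130 8 (.d k105 k125 k60 5
  14)))))] .n))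

def s47_170_191 : T TT 256 :=
  (.f k101 k117 3 (.q k149 [(.s k197 k53 11 (.s k5 k133 7 (.s k213 k21 7 (.d k245 k229 k165 3
  11)))), (.s k21 k213 7 (.s k63 k42 6 (.s k106 k192 14 (.s k111 k96 2 (.d k207 k138 k159 10
  11))))), (.s k197 k53 11 (.s k207 k138 10 (.s k192 k202 2 (.s k64 k128 7 (.d k106 k127 k63 6
  14)))))] .n))

def s47_170_192 : T TT 256 :=
  (.q k1 [(.s k101 k117 3 (.s k169 k253 13 (.s k33 k237 9 (.s k49 k17 3 (.d k205 k137 k153 9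
  13))))), (.s k3 k2 0 (.s k137 k205 9 (.s k70 k204 10 (.s k71 k68 0 (.d k207 k139 k138 9 10))))),
  (.s k3 k2 0 (.s k101 k117 3 (.s k169 k253 13 (.s k86 k252 14 (.s k71 k116 4 (.d k207 k139 k138 9
  10))))))] .n)

def s47_170_193 : T TT 256 :=
  (.q k1 [(.s k101 k117 3 (.s k169 k253 13 (.s k33 k237 9 (.s k49 k17 3 (.d k205 k137 k153 9
  13))))), (.s k3 k2 0 (.s k137 k205 9 (.s k70 k204 10 (.s k71 k68 0 (.d k207 k139 k138 9 10))))),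
  (.s k3 k2 0 (.s k101 k117 3 (.s k169 k253 13 (.s k86 k252 14 (.s k71 k116 4 (.d k207 k139 k138 9
  10))))))] .n)

def s47_170_194 : T TT 256 :=
  (.q k1 [(.s k101 k117 3 (.s k169 k253 13 (.s k33 k237 9 (.s k49 k17 3 (.d k205 k137 k153 9
  13))))), (.s k3 k2 0 (.s k137 k205 9 (.s k70 k204 10 (.s k71 k68 0 (.d k207 k139 k138 9 10))))),
  (.s k3 k2 0 (.s k101 k117 3 (.s k169 k253 13 (.s k86 k252 14 (.s k71 k116 4 (.d k207 k139 k138 9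
  10))))))] .n)

def s47_170_195 : T TT 256 :=
  (.q k1 [(.s k101 k117 3 (.s k169 k253 13 (.s k33 k237 9 (.s k49 k17 3 (.d k205 k137 k153 9
  13))))), (.s k3 k2 0 (.s k137 k205 9 (.s k70 k204 10 (.s k71 k68 0 (.d k207 k139 k138 9 10))))),
  (.s k3 k2 0 (.s k101 k117 3 (.s k169 k253 13 (.s k86 k252 14 (.s k71 k116 4 (.d k207 k139 k138 9
  10))))))] .n)

def s47_170_196 : T TT 256 :=
  (.q k1 [(.s k101 k117 3 (.s k169 k253 13 (.s k33 k237 9 (.s k49 k17 3 (.d k205 k137 k153 9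
  13))))), (.s k3 k2 0 (.s k137 k205 9 (.s k70 k204 10 (.s k71 k68 0 (.d k207 k139 k138 9 10))))),
  (.s k3 k2 0 (.s k101 k117 3 (.s k169 k253 13 (.s k86 k252 14 (.s k71 k116 4 (.d k207 k139 k138 9
  10))))))] .n)

def s47_170_197 : T TT 256 :=
  (.q k1 [(.s k101 k117 3 (.s k169 k253 13 (.s k33 k237 9 (.s k49 k17 3 (.d k205 k137 k153 9
  13))))), (.s k3 k2 0 (.s k137 k205 9 (.s k70 k204 10 (.s k71 k68 0 (.d k207 k139 k138 9 10))))),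
  (.s k3 k2 0 (.s k101 k117 3 (.s k169 k253 13 (.s k86 k252 14 (.s k71 k116 4 (.d k207 k139 k138 9
  10))))))] .n)

def s47_170_198 : T TT 256 :=
  (.q k1 [(.s k101 k117 3 (.s k169 k253 13 (.s k33 k237 9 (.s k49 k17 3 (.d k205 k137 k153 9
  13))))), (.s k3 k2 0 (.s k137 k205 9 (.s k70 k204 10 (.s k71 k68 0 (.d k207 k139 k138 9 10))))),
  (.s k3 k2 0 (.s k101 k117 3 (.s k169 k253 13 (.s k86 k252 14 (.s k71 k116 4 (.d k207 k139 k138 9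
  10))))))] .n)

def s47_170_199 : T TT 256 :=
  (.q k1 [(.s k101 k117 3 (.s k169 k253 13 (.s k33 k237 9 (.s k49 k17 3 (.d k205 k137 k153 9
  13))))), (.s k3 k2 0 (.s k137 k205 9 (.s k70 k204 10 (.s k71 k68 0 (.d k207 k139 k138 9 10))))),
  (.s k3 k2 0 (.s k101 k117 3 (.s k169 k253 13 (.s k86 k252 14 (.s k71 k116 4 (.d k207 k139 k138 9
  10))))))] .n)

def s47_170_200 : T TT 256 :=
  (.q k1 [(.s k101 k117 3 (.s k169 k253 13 (.s k33 k237 9 (.s k49 k17 3 (.d k205 k137 k153 9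
  13))))), (.s k3 k2 0 (.s k137 k205 9 (.s k70 k204 10 (.s k71 k68 0 (.d k207 k139 k138 9 10))))),
  (.s k3 k2 0 (.s k101 k117 3 (.s k169 k253 13 (.s k86 k252 14 (.s k71 k116 4 (.d k207 k139 k138 9
  10))))))] .n)

def s47_170_201 : T TT 256 :=
  (.q k1 [(.s k101 k117 3 (.s k169 k253 13 (.s k33 k237 9 (.s k49 k17 3 (.d k205 k137 k153 9
  13))))), (.s k3 k2 0 (.s k137 k205 9 (.s k70 k204 10 (.s k71 k68 0 (.d k207 k139 k138 9 10))))),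
  (.s k3 k2 0 (.s k101 k117 3 (.s k169 k253 13 (.s k86 k252 14 (.s k71 k116 4 (.d k207 k139 k138 9
  10))))))] .n)

def s47_170_202 : T TT 256 :=
  (.q k1 [(.s k101 k117 3 (.s k169 k253 13 (.s k33 k237 9 (.s k49 k17 3 (.d k205 k137 k153 9
  13))))), (.s k3 k2 0 (.s k137 k205 9 (.s k70 k204 10 (.s k71 k68 0 (.d k207 k139 k138 9 10))))),
  (.s k3 k2 0 (.s k101 k117 3 (.s k169 k253 13 (.s k86 k252 14 (.s k71 k116 4 (.d k207 k139 k138 9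
  10))))))] .n)

def s47_170_203 : T TT 256 :=
  (.q k1 [(.s k101 k117 3 (.s k169 k253 13 (.s k33 k237 9 (.s k49 k17 3 (.d k205 k137 k153 9
  13))))), (.s k3 k2 0 (.s k137 k205 9 (.s k70 k204 10 (.s k71 k68 0 (.d k207 k139 k138 9 10))))),
  (.s k3 k2 0 (.s k101 k117 3 (.s k169 k253 13 (.s k86 k252 14 (.s k71 k116 4 (.d k207 k139 k138 9
  10))))))] .n)

def s47_170_204 : T TT 256 :=
  (.q k4 [(.s k101 k117 3 (.s k166 k247 12 (.s k36 k231 8 (.s k52 k20 3 (.d k199 k134 k150 8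
  12))))), (.s k12 k8 1 (.s k134 k199 8 (.s k73 k195 10 (.s k77 k65 1 (.d k207 k142 k138 8 10))))),
  (.s k12 k8 1 (.s k101 k117 3 (.s k166 k247 12 (.s k89 k243 14 (.s k77 k113 5 (.d k207 k142 k138 8
  10))))))] .n)

def s47_170_205 : T TT 256 :=
  (.q k4 [(.s k101 k117 3 (.s k166 k247 12 (.s k36 k231 8 (.s k52 k20 3 (.d k199 k134 k150 8
  12))))), (.s k12 k8 1 (.s k134 k199 8 (.s k73 k195 10 (.s k77 k65 1 (.d k207 k142 k138 8 10))))),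
  (.s k12 k8 1 (.s k101 k117 3 (.s k166 k247 12 (.s k89 k243 14 (.s k77 k113 5 (.d k207 k142 k138 8
  10))))))] .n)

def s47_170_206 : T TT 256 :=
  (.q k1 [(.s k101 k117 3 (.s k169 k253 13 (.s k33 k237 9 (.s k49 k17 3 (.d k205 k137 k153 9
  13))))), (.s k3 k2 0 (.s k137 k205 9 (.s k70 k204 10 (.s k207 k138 10 (.d k71 k68 k139 0 9))))),
  (.s k3 k2 0 (.s k101 k117 3 (.s k169 k253 13 (.s k86 k252 14 (.s k71 k116 4 (.d k207 k138 k139 10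
  9))))))] .n)

def s47_170_207 : T TT 256 :=
  (.f k101 k117 3 (.q k64 [(.s k79 k74 2 (.s k90 k112 6 (.s k95 k80 2 (.d k127 k111 k106 3 6)))),
  (.s k106 k127 6 (.s k192 k128 7 (.s k149 k63 14 (.s k197 k53 11 (.s k5 k133 7 (.s k213 k21 7 (.d
  k245 k229 k165 3 11))))))), (.s k74 k79 2 (.s k192 k128 7 (.s k15 k133 10 (.s k5 k10 2 (.s k165
  k245 11 (.s k90 k240 14 (.d k106 k122 k127 3 6)))))))] (.c k106 (.f k74 k79 2 (.f k192 k128 7 (.f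
  k15 k133 10 (.l (.s k5 k10 2 (.s k165 k245 11 (.s k37 k229 7 (.s k48 k26 6 (.s k96 k144 11 (.s k80
  k112 3 (.d k90 k240 k95 14 2))))))))))) (.c k122 (.l (.s k79 k74 2 (.s k90 k112 6 (.s k127 k106 6
  (.d k95 k80 k111 2 3))))) (.c k127 (.f k74 k79 2 (.f k192 k128 7 (.f k15 k133 10 (.l (.s k5 k10 2
  (.s k165 k245 11 (.s k37 k229 7 (.s k48 k26 6 (.s k96 k144 11 (.s k112 k80 3 (.d k240 k176 k90 7
  14))))))))))) .n)))))

def s47_170_208 : T TT 256 :=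
  (.q k1 [(.s k101 k117 3 (.s k169 k253 13 (.s k33 k237 9 (.s k49 k17 3 (.d k205 k137 k153 9
  13))))), (.s k3 k2 0 (.s k137 k205 9 (.s k70 k204 10 (.s k71 k68 0 (.d k207 k139 k138 9 10))))),
  (.s k3 k2 0 (.s k101 k117 3 (.s k169 k253 13 (.s k86 k252 14 (.s k71 k116 4 (.d k207 k139 k138 9
  10))))))] .n)

def s47_170_209 : T TT 256 :=
  (.q k1 [(.s k3 k2 0 (.s k137 k205 9 (.s k70 k204 10 (.s k71 k68 0 (.d k207 k139 k138 9 10))))),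
  (.s k101 k117 3 (.s k169 k253 13 (.s k33 k237 9 (.s k49 k17 3 (.d k205 k137 k153 9 13))))), (.s k3
  k2 0 (.s k101 k117 3 (.s k169 k253 13 (.s k86 k252 14 (.s k71 k116 4 (.d k207 k139 k138 9
  10))))))] .n)

def s47_170_210 : T TT 256 :=
  (.q k1 [(.s k101 k117 3 (.s k169 k253 13 (.s k33 k237 9 (.s k49 k17 3 (.d k205 k137 k153 9
  13))))), (.s k3 k2 0 (.s k137 k205 9 (.s k70 k204 10 (.s k71 k68 0 (.d k207 k139 k138 9 10))))),
  (.s k3 k2 0 (.s k101 k117 3 (.s k169 k253 13 (.s k86 k252 14 (.s k71 k116 4 (.d k207 k139 k138 9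
  10))))))] .n)

def s47_170_211 : T TT 256 :=
  (.q k1 [(.s k101 k117 3 (.s k169 k253 13 (.s k33 k237 9 (.s k49 k17 3 (.d k205 k137 k153 9
  13))))), (.s k3 k2 0 (.s k137 k205 9 (.s k70 k204 10 (.s k71 k68 0 (.d k207 k139 k138 9 10))))),
  (.s k3 k2 0 (.s k101 k117 3 (.s k169 k253 13 (.s k86 k252 14 (.s k71 k116 4 (.d k207 k139 k138 9
  10))))))] .n)

def s47_170_212 : T TT 256 :=
  (.q k1 [(.s k101 k117 3 (.s k169 k253 13 (.s k33 k237 9 (.s k49 k17 3 (.d k205 k137 k153 9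
  13))))), (.s k3 k2 0 (.s k137 k205 9 (.s k70 k204 10 (.s k71 k68 0 (.d k207 k139 k138 9 10))))),
  (.s k3 k2 0 (.s k101 k117 3 (.s k169 k253 13 (.s k86 k252 14 (.s k71 k116 4 (.d k207 k139 k138 9
  10))))))] .n)

def s47_170_213 : T TT 256 :=
  (.q k1 [(.s k3 k2 0 (.s k137 k205 9 (.s k70 k204 10 (.s k71 k68 0 (.d k207 k139 k138 9 10))))),
  (.s k101 k117 3 (.s k169 k253 13 (.s k33 k237 9 (.s k49 k17 3 (.d k205 k137 k153 9 13))))), (.s k3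
  k2 0 (.s k101 k117 3 (.s k169 k253 13 (.s k86 k252 14 (.s k71 k116 4 (.d k207 k139 k138 9
  10))))))] .n)

def s47_170_214 : T TT 256 :=
  (.q k1 [(.s k101 k117 3 (.s k169 k253 13 (.s k33 k237 9 (.s k49 k17 3 (.d k205 k137 k153 9
  13))))), (.s k3 k2 0 (.s k137 k205 9 (.s k70 k204 10 (.s k71 k68 0 (.d k207 k139 k138 9 10))))),
  (.s k3 k2 0 (.s k101 k117 3 (.s k169 k253 13 (.s k86 k252 14 (.s k71 k116 4 (.d k207 k139 k138 9
  10))))))] .n)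

def s47_170_215 : T TT 256 :=
  (.q k1 [(.s k101 k117 3 (.s k169 k253 13 (.s k33 k237 9 (.s k49 k17 3 (.d k205 k137 k153 9
  13))))), (.s k3 k2 0 (.s k137 k205 9 (.s k70 k204 10 (.s k71 k68 0 (.d k207 k139 k138 9 10))))),
  (.s k3 k2 0 (.s k101 k117 3 (.s k169 k253 13 (.s k86 k252 14 (.s k71 k116 4 (.d k207 k139 k138 9
  10))))))] .n)

def s47_170_216 : T TT 256 :=
  (.q k1 [(.s k101 k117 3 (.s k169 k253 13 (.s k33 k237 9 (.s k49 k17 3 (.d k205 k137 k153 9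
  13))))), (.s k3 k2 0 (.s k137 k205 9 (.s k70 k204 10 (.s k71 k68 0 (.d k207 k139 k138 9 10))))),
  (.s k3 k2 0 (.s k101 k117 3 (.s k169 k253 13 (.s k86 k252 14 (.s k71 k116 4 (.d k207 k139 k138 9
  10))))))] .n)

def s47_170_217 : T TT 256 :=
  (.q k1 [(.s k101 k117 3 (.s k169 k253 13 (.s k33 k237 9 (.s k49 k17 3 (.d k205 k137 k153 9
  13))))), (.s k3 k2 0 (.s k137 k205 9 (.s k70 k204 10 (.s k71 k68 0 (.d k207 k139 k138 9 10))))),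
  (.s k3 k2 0 (.s k101 k117 3 (.s k169 k253 13 (.s k86 k252 14 (.s k71 k116 4 (.d k207 k139 k138 9
  10))))))] .n)

def s47_170_218 : T TT 256 :=
  (.q k1 [(.s k101 k117 3 (.s k169 k253 13 (.s k33 k237 9 (.s k49 k17 3 (.d k205 k137 k153 9
  13))))), (.s k3 k2 0 (.s k137 k205 9 (.s k70 k204 10 (.s k71 k68 0 (.d k207 k139 k138 9 10))))),
  (.s k3 k2 0 (.s k101 k117 3 (.s k169 k253 13 (.s k86 k252 14 (.s k71 k116 4 (.d k207 k139 k138 9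
  10))))))] .n)

def s47_170_219 : T TT 256 :=
  (.q k1 [(.s k101 k117 3 (.s k169 k253 13 (.s k33 k237 9 (.s k49 k17 3 (.d k205 k137 k153 9
  13))))), (.s k3 k2 0 (.s k137 k205 9 (.s k70 k204 10 (.s k71 k68 0 (.d k207 k139 k138 9 10))))),
  (.s k3 k2 0 (.s k101 k117 3 (.s k169 k253 13 (.s k86 k252 14 (.s k71 k116 4 (.d k207 k139 k138 9
  10))))))] .n)

def s47_170_220 : T TT 256 :=
  (.q k1 [(.s k101 k117 3 (.s k169 k253 13 (.s k33 k237 9 (.s k49 k17 3 (.d k205 k137 k153 9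
  13))))), (.s k3 k2 0 (.s k137 k205 9 (.s k70 k204 10 (.s k71 k68 0 (.d k207 k139 k138 9 10))))),
  (.s k3 k2 0 (.s k101 k117 3 (.s k169 k253 13 (.s k86 k252 14 (.s k71 k116 4 (.d k207 k139 k138 9
  10))))))] .n)

def s47_170_221 : T TT 256 :=
  (.q k1 [(.s k101 k117 3 (.s k169 k253 13 (.s k33 k237 9 (.s k205 k137 9 (.d k49 k17 k153 3
  13))))), (.s k3 k2 0 (.s k207 k138 10 (.s k71 k139 9 (.s k70 k68 0 (.d k137 k205 k204 9 10)))))]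
  (.c k137 (.l (.s k3 k2 0 (.s k101 k117 3 (.s k169 k253 13 (.s k86 k252 14 (.s k71 k116 4 (.d k207
  k139 k138 9 10))))))) (.c k205 (.l (.s k3 k2 0 (.s k101 k117 3 (.s k169 k253 13 (.s k237 k33 9 (.s
  k207 k138 10 (.d k252 k86 k222 14 4))))))) .n)))

def s47_170_222 : T TT 256 :=
  (.q k1 [(.s k3 k2 0 (.s k137 k205 9 (.s k70 k204 10 (.s k71 k68 0 (.d k207 k139 k138 9 10))))),
  (.s k101 k117 3 (.s k169 k253 13 (.s k205 k137 9 (.s k49 k153 13 (.d k33 k17 k237 3 9))))), (.s k3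
  k2 0 (.s k101 k117 3 (.s k169 k253 13 (.s k86 k252 14 (.s k71 k116 4 (.d k207 k139 k138 9
  10))))))] .n)

def s47_170_223 : T TT 256 :=
  (.q k1 [(.s k101 k117 3 (.s k169 k253 13 (.s k33 k237 9 (.s k49 k17 3 (.d k205 k137 k153 9
  13))))), (.s k3 k2 0 (.s k137 k205 9 (.s k70 k204 10 (.s k71 k68 0 (.d k207 k139 k138 9 10))))),
  (.s k3 k2 0 (.s k101 k117 3 (.s k169 k253 13 (.s k86 k252 14 (.s k71 k116 4 (.d k207 k139 k138 9
  10))))))] .n)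

def s47_170_224 : T TT 256 :=
  (.q k106 [(.s k64 k127 6 (.s k79 k74 2 (.s k101 k117 3 (.s k96 k111 2 (.d k112 k80 k90 3 6))))),
  (.s k101 k117 3 (.s k111 k96 2 (.s k207 k138 10 (.s k63 k159 11 (.s k21 k42 6 (.d k149 k213 k192 7
  14)))))), (.s k64 k127 6 (.s k74 k79 2 (.s k138 k207 10 (.s k10 k202 7 (.s k15 k5 2 (.d k192 k128
  k133 7 10))))))] (.c k111 (.l (.s k64 k127 6 (.s k101 k117 3 (.s k192 k128 7 (.s k149 k63 14 (.s
  k197 k53 11 (.d k207 k202 k138 2 10))))))) .n))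

def s47_170_225 : T TT 256 :=
  (.q k1 [(.s k3 k2 0 (.s k137 k205 9 (.s k70 k204 10 (.s k71 k68 0 (.d k207 k139 k138 9 10))))),
  (.s k101 k117 3 (.s k169 k253 13 (.s k33 k237 9 (.s k49 k17 3 (.d k205 k137 k153 9 13))))), (.s k3
  k2 0 (.s k101 k117 3 (.s k169 k253 13 (.s k86 k252 14 (.s k71 k116 4 (.d k207 k139 k138 9
  10))))))] .n)

def s47_170_226 : T TT 256 :=
  (.q k1 [(.s k101 k117 3 (.s k169 k253 13 (.s k33 k237 9 (.s k49 k17 3 (.d k205 k137 k153 9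
  13))))), (.s k3 k2 0 (.s k137 k205 9 (.s k70 k204 10 (.s k71 k68 0 (.d k207 k139 k138 9 10))))),
  (.s k3 k2 0 (.s k101 k117 3 (.s k169 k253 13 (.s k86 k252 14 (.s k71 k116 4 (.d k207 k139 k138 9
  10))))))] .n)

def s47_170_227 : T TT 256 :=
  (.f k138 k207 10 (.f k101 k117 3 (.q k4 [(.s k134 k199 8 (.s k130 k142 1 (.s k195 k65 8 (.d k12 k8
  k73 1 10)))), (.s k166 k247 12 (.s k36 k231 8 (.s k52 k20 3 (.d k199 k134 k150 8 12)))), (.s k12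
  k8 1 (.s k166 k247 12 (.s k89 k243 14 (.s k77 k113 5 (.s k65 k73 1 (.s k93 k81 1 (.d k125 k109
  k105 3 5)))))))] (.c k107 (.q k167 [(.s k134 k199 8 (.s k130 k142 1 (.s k195 k65 8 (.d k12 k8 k73
  1 10)))), (.s k166 k247 12 (.s k36 k231 8 (.s k52 k20 3 (.d k199 k134 k150 8 12)))), (.s k12 k8 1
  (.s k166 k247 12 (.s k165 k164 0 (.s k5 k245 11 (.s k15 k10 2 (.d k243 k89 k91 14 13))))))] .n)
  (.c k167 (.q k107 [(.s k134 k199 8 (.s k130 k142 1 (.s k195 k65 8 (.d k12 k8 k73 1 10)))), (.s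
  k166 k247 12 (.s k36 k231 8 (.s k52 k20 3 (.d k199 k134 k150 8 12)))), (.s k12 k8 1 (.s k166 k247
  12 (.s k89 k243 14 (.s k77 k113 5 (.s k65 k73 1 (.s k93 k81 1 (.d k125 k109 k105 3 5)))))))] .n)
  .n)))))

def s47_170_228 : T TT 256 :=
  (.q k1 [(.s k101 k117 3 (.s k169 k253 13 (.s k33 k237 9 (.s k49 k17 3 (.d k205 k137 k153 9
  13))))), (.s k3 k2 0 (.s k137 k205 9 (.s k70 k204 10 (.s k71 k68 0 (.d k207 k139 k138 9 10))))),
  (.s k3 k2 0 (.s k101 k117 3 (.s k169 k253 13 (.s k86 k252 14 (.s k71 k116 4 (.d k207 k139 k138 9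
  10))))))] .n)

def s47_170_229 : T TT 256 :=
  (.q k1 [(.s k101 k117 3 (.s k169 k253 13 (.s k33 k237 9 (.s k49 k17 3 (.d k205 k137 k153 9
  13))))), (.s k3 k2 0 (.s k137 k205 9 (.s k70 k204 10 (.s k71 k68 0 (.d k207 k139 k138 9 10))))),
  (.s k3 k2 0 (.s k101 k117 3 (.s k169 k253 13 (.s k86 k252 14 (.s k71 k116 4 (.d k207 k139 k138 9
  10))))))] .n)

def s47_170_230 : T TT 256 :=
  (.q k1 [(.s k101 k117 3 (.s k169 k253 13 (.s k33 k237 9 (.s k49 k17 3 (.d k205 k137 k153 9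
  13))))), (.s k3 k2 0 (.s k137 k205 9 (.s k70 k204 10 (.s k71 k68 0 (.d k207 k139 k138 9 10))))),
  (.s k3 k2 0 (.s k101 k117 3 (.s k169 k253 13 (.s k86 k252 14 (.s k71 k116 4 (.d k207 k139 k138 9
  10))))))] .n)

def s47_170_231 : T TT 256 :=
  (.q k1 [(.s k101 k117 3 (.s k169 k253 13 (.s k33 k237 9 (.s k49 k17 3 (.d k205 k137 k153 9
  13))))), (.s k3 k2 0 (.s k137 k205 9 (.s k70 k204 10 (.s k71 k68 0 (.d k207 k139 k138 9 10))))),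
  (.s k3 k2 0 (.s k101 k117 3 (.s k169 k253 13 (.s k86 k252 14 (.s k71 k116 4 (.d k207 k139 k138 9
  10))))))] .n)

def s47_170_232 : T TT 256 :=
  (.q k1 [(.s k101 k117 3 (.s k169 k253 13 (.s k33 k237 9 (.s k49 k17 3 (.d k205 k137 k153 9
  13))))), (.s k3 k2 0 (.s k137 k205 9 (.s k70 k204 10 (.s k71 k68 0 (.d k207 k139 k138 9 10))))),
  (.s k3 k2 0 (.s k101 k117 3 (.s k169 k253 13 (.s k86 k252 14 (.s k71 k116 4 (.d k207 k139 k138 9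
  10))))))] .n)

def s47_170_233 : T TT 256 :=
  (.q k1 [(.s k3 k2 0 (.s k137 k205 9 (.s k70 k204 10 (.s k71 k68 0 (.d k207 k139 k138 9 10))))),
  (.s k101 k117 3 (.s k169 k253 13 (.s k33 k237 9 (.s k49 k17 3 (.d k205 k137 k153 9 13))))), (.s k3
  k2 0 (.s k101 k117 3 (.s k169 k253 13 (.s k86 k252 14 (.s k71 k116 4 (.d k207 k139 k138 9
  10))))))] .n)

def s47_170_234 : T TT 256 :=
  (.q k106 [(.s k64 k127 6 (.s k79 k74 2 (.s k101 k117 3 (.s k96 k111 2 (.d k112 k80 k90 3 6))))),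
  (.s k101 k117 3 (.s k111 k96 2 (.s k207 k138 10 (.s k63 k159 11 (.s k21 k42 6 (.d k149 k213 k192 7
  14)))))), (.s k64 k127 6 (.s k74 k79 2 (.s k138 k207 10 (.s k10 k202 7 (.s k15 k5 2 (.d k192 k128
  k133 7 10))))))] (.c k111 (.l (.s k64 k127 6 (.s k101 k117 3 (.s k192 k128 7 (.s k149 k63 14 (.s
  k197 k53 11 (.d k207 k202 k138 2 10))))))) .n))

def s47_170_235 : T TT 256 :=
  (.q k105 [(.s k65 k125 5 (.s k77 k73 1 (.s k101 k117 3 (.s k97 k109 1 (.d k113 k81 k89 3 5))))),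
  (.s k101 k117 3 (.s k109 k97 1 (.s k207 k138 10 (.s k60 k158 12 (.s k20 k40 5 (.d k150 k215 k195 8
  14)))))), (.s k65 k125 5 (.s k73 k77 1 (.s k138 k207 10 (.s k8 k203 8 (.s k12 k4 1 (.d k195 k130
  k134 8 10))))))] (.c k109 (.l (.s k65 k125 5 (.s k101 k117 3 (.s k195 k130 8 (.s k150 k60 14 (.s
  k199 k52 12 (.d k207 k203 k138 1 10))))))) .n))

def s47_170_236 : T TT 256 :=
  (.f k138 k207 10 (.f k101 k117 3 (.q k4 [(.s k134 k199 8 (.s k130 k142 1 (.s k195 k65 8 (.d k12 k8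
  k73 1 10)))), (.s k166 k247 12 (.s k36 k231 8 (.s k52 k20 3 (.d k199 k134 k150 8 12)))), (.s k12
  k8 1 (.s k166 k247 12 (.s k89 k243 14 (.s k77 k113 5 (.s k65 k73 1 (.s k93 k81 1 (.d k125 k109
  k105 3 5)))))))] (.c k110 (.q k173 [(.s k134 k199 8 (.s k130 k142 1 (.s k195 k65 8 (.d k12 k8 k73
  1 10)))), (.s k166 k247 12 (.s k36 k231 8 (.s k52 k20 3 (.d k199 k134 k150 8 12)))), (.s k12 k8 1
  (.s k166 k247 12 (.s k89 k243 14 (.s k77 k113 5 (.s k65 k73 1 (.s k93 k81 1 (.d k125 k109 k105 3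
  5)))))))] .n) (.c k173 (.q k110 [(.s k134 k199 8 (.s k130 k142 1 (.s k195 k65 8 (.d k12 k8 k73 1
  10)))), (.s k166 k247 12 (.s k36 k231 8 (.s k52 k20 3 (.d k199 k134 k150 8 12)))), (.s k12 k8 1
  (.s k166 k247 12 (.s k89 k243 14 (.s k77 k113 5 (.s k65 k73 1 (.s k93 k81 1 (.d k125 k109 k105 3
  5)))))))] .n) .n)))))

def s47_170_237 : T TT 256 :=
  (.q k1 [(.s k3 k2 0 (.s k137 k205 9 (.s k70 k204 10 (.s k71 k68 0 (.d k207 k139 k138 9 10))))),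
  (.s k101 k117 3 (.s k205 k137 9 (.s k49 k153 13 (.s k17 k33 3 (.s k51 k34 4 (.s k207 k138 10 (.d
  k48 k154 k50 14 0))))))), (.s k3 k2 0 (.s k101 k117 3 (.s k137 k205 9 (.s k70 k204 10 (.s k71 k68
  0 (.s k86 k116 4 (.d k169 k253 k252 13 14)))))))] (.c k137 (.l (.s k3 k2 0 (.s k101 k117 3 (.s
  k169 k253 13 (.s k86 k252 14 (.s k71 k116 4 (.d k207 k139 k138 9 10))))))) (.c k205 (.l (.s k3 k2
  0 (.s k101 k117 3 (.s k207 k138 10 (.s k71 k139 9 (.s k86 k116 4 (.d k169 k253 k252 13 14)))))))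
  (.c k207 (.l (.s k3 k2 0 (.s k137 k205 9 (.s k204 k70 10 (.s k68 k136 9 (.s k102 k119 4 (.s k153
  k51 14 (.d k169 k253 k185 13 3)))))))) .n))))

def s47_170_238 : T TT 256 :=
  (.q k102 [(.s k68 k119 4 (.s k71 k70 0 (.s k101 k117 3 (.s k100 k103 0 (.d k116 k84 k86 3 4))))),
  (.s k101 k117 3 (.s k103 k100 0 (.s k207 k138 10 (.s k51 k155 13 (.s k17 k34 4 (.d k153 k221 k204
  9 14)))))), (.s k68 k119 4 (.s k70 k71 0 (.s k138 k207 10 (.s k2 k206 9 (.s k3 k1 0 (.d k204 k136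
  k137 9 10))))))] (.c k103 (.l (.s k68 k119 4 (.s k101 k117 3 (.s k204 k136 9 (.s k153 k51 14 (.s
  k205 k49 13 (.d k207 k206 k138 0 10))))))) .n))

def s47_170_239 : T TT 256 :=
  (.f k101 k117 3 (.q k111 [(.s k106 k96 2 (.s k207 k138 10 (.s k63 k159 11 (.s k21 k42 6 (.d k149
  k213 k192 7 14))))), (.s k106 k96 2 (.s k64 k127 6 (.s k74 k79 2 (.s k192 k128 7 (.s k149 k63 14
  (.s k197 k53 11 (.d k133 k15 k5 10 7))))))), (.s k207 k138 10 (.s k63 k159 11 (.s k21 k42 6 (.s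
  k149 k213 7 (.s k53 k197 11 (.d k48 k154 k58 14 2))))))] (.c k63 (.l (.s k106 k96 2 (.s k64 k127 6
  (.s k192 k128 7 (.s k207 k138 10 (.s k154 k48 14 (.d k202 k58 k197 11 2))))))) (.c k106 (.f k207
  k138 10 (.l (.s k154 k48 14 (.s k159 k63 11 (.s k149 k144 2 (.s k213 k21 7 (.s k223 k16 10 (.s k31
  k95 7 (.d k208 k218 k90 2 10))))))))) (.c k149 (.l (.s k106 k96 2 (.s k64 k127 6 (.s k207 k138 10
  (.s k154 k48 14 (.s k202 k58 11 (.d k192 k197 k128 2 7))))))) .n)))))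

def s47_170_240 : T TT 256 :=
  (.q k1 [(.s k101 k117 3 (.s k169 k253 13 (.s k33 k237 9 (.s k49 k17 3 (.d k205 k137 k153 9
  13))))), (.s k3 k2 0 (.s k137 k205 9 (.s k70 k204 10 (.s k71 k68 0 (.d k207 k139 k138 9 10))))),
  (.s k3 k2 0 (.s k101 k117 3 (.s k169 k253 13 (.s k86 k252 14 (.s k71 k116 4 (.d k207 k139 k138 9
  10))))))] .n)

def s47_170_241 : T TT 256 :=
  (.q k1 [(.s k101 k117 3 (.s k169 k253 13 (.s k33 k237 9 (.s k49 k17 3 (.d k205 k137 k153 9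
  13))))), (.s k3 k2 0 (.s k137 k205 9 (.s k70 k204 10 (.s k71 k68 0 (.d k207 k139 k138 9 10))))),
  (.s k3 k2 0 (.s k101 k117 3 (.s k169 k253 13 (.s k86 k252 14 (.s k71 k116 4 (.d k207 k139 k138 9
  10))))))] .n)

def s47_170_242 : T TT 256 :=
  (.q k1 [(.s k101 k117 3 (.s k169 k253 13 (.s k33 k237 9 (.s k49 k17 3 (.d k205 k137 k153 9
  13))))), (.s k3 k2 0 (.s k137 k205 9 (.s k70 k204 10 (.s k71 k68 0 (.d k207 k139 k138 9 10))))),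
  (.s k3 k2 0 (.s k101 k117 3 (.s k169 k253 13 (.s k86 k252 14 (.s k71 k116 4 (.d k207 k139 k138 9
  10))))))] .n)

def s47_170_243 : T TT 256 :=
  (.q k1 [(.s k101 k117 3 (.s k169 k253 13 (.s k33 k237 9 (.s k49 k17 3 (.d k205 k137 k153 9
  13))))), (.s k3 k2 0 (.s k137 k205 9 (.s k70 k204 10 (.s k71 k68 0 (.d k207 k139 k138 9 10))))),
  (.s k3 k2 0 (.s k101 k117 3 (.s k169 k253 13 (.s k86 k252 14 (.s k71 k116 4 (.d k207 k139 k138 9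
  10))))))] .n)

def s47_170_244 : T TT 256 :=
  (.q k1 [(.s k101 k117 3 (.s k169 k253 13 (.s k33 k237 9 (.s k49 k17 3 (.d k205 k137 k153 9
  13))))), (.s k3 k2 0 (.s k137 k205 9 (.s k70 k204 10 (.s k71 k68 0 (.d k207 k139 k138 9 10))))),
  (.s k3 k2 0 (.s k101 k117 3 (.s k169 k253 13 (.s k86 k252 14 (.s k71 k116 4 (.d k207 k139 k138 9
  10))))))] .n)

def s47_170_245 : T TT 256 :=
  (.q k1 [(.s k3 k2 0 (.s k137 k205 9 (.s k70 k204 10 (.s k71 k68 0 (.d k207 k139 k138 9 10))))),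
  (.s k101 k117 3 (.s k169 k253 13 (.s k33 k237 9 (.s k49 k17 3 (.d k205 k137 k153 9 13))))), (.s k3
  k2 0 (.s k101 k117 3 (.s k169 k253 13 (.s k86 k252 14 (.s k71 k116 4 (.d k207 k139 k138 9
  10))))))] .n)

def s47_170_246 : T TT 256 :=
  (.q k1 [(.s k101 k117 3 (.s k169 k253 13 (.s k33 k237 9 (.s k49 k17 3 (.d k205 k137 k153 9
  13))))), (.s k3 k2 0 (.s k137 k205 9 (.s k70 k204 10 (.s k71 k68 0 (.d k207 k139 k138 9 10))))),
  (.s k3 k2 0 (.s k101 k117 3 (.s k169 k253 13 (.s k86 k252 14 (.s k71 k116 4 (.d k207 k139 k138 9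
  10))))))] .n)

def s47_170_247 : T TT 256 :=
  (.q k1 [(.s k3 k2 0 (.s k137 k205 9 (.s k70 k204 10 (.s k71 k68 0 (.d k207 k139 k138 9 10))))),
  (.s k101 k117 3 (.s k169 k253 13 (.s k33 k237 9 (.s k49 k17 3 (.d k205 k137 k153 9 13))))), (.s k3
  k2 0 (.s k101 k117 3 (.s k169 k253 13 (.s k86 k252 14 (.s k71 k116 4 (.d k207 k139 k138 9
  10))))))] .n)

def s47_170_248 : T TT 256 :=
  (.q k1 [(.s k101 k117 3 (.s k169 k253 13 (.s k33 k237 9 (.s k49 k17 3 (.d k205 k137 k153 9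
  13))))), (.s k3 k2 0 (.s k137 k205 9 (.s k70 k204 10 (.s k71 k68 0 (.d k207 k139 k138 9 10))))),
  (.s k3 k2 0 (.s k101 k117 3 (.s k169 k253 13 (.s k86 k252 14 (.s k71 k116 4 (.d k207 k139 k138 9
  10))))))] .n)

def s47_170_249 : T TT 256 :=
  (.q k1 [(.s k3 k2 0 (.s k137 k205 9 (.s k70 k204 10 (.s k71 k68 0 (.d k207 k139 k138 9 10))))),
  (.s k101 k117 3 (.s k169 k253 13 (.s k33 k237 9 (.s k49 k17 3 (.d k205 k137 k153 9 13))))), (.s k3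
  k2 0 (.s k101 k117 3 (.s k169 k253 13 (.s k86 k252 14 (.s k71 k116 4 (.d k207 k139 k138 9
  10))))))] .n)

def s47_170_250 : T TT 256 :=
  (.q k5 [(.s k133 k197 7 (.s k138 k207 10 (.s k128 k143 2 (.s k192 k64 7 (.d k15 k10 k74 2 10))))),
  (.s k101 k117 3 (.s k165 k245 11 (.s k37 k229 7 (.s k53 k21 3 (.d k197 k133 k149 7 11))))), (.s
  k101 k117 3 (.s k165 k245 11 (.s k207 k138 10 (.s k154 k48 14 (.s k143 k176 6 (.d k15 k10 k79 2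
  7))))))] (.c k10 (.q k90 [(.s k80 k95 2 (.s k165 k245 11 (.d k240 k160 k15 11 14))), (.s k95 k80 2
  (.s k101 k117 3 (.s k79 k112 6 (.s k64 k74 2 (.d k127 k111 k106 3 6))))), (.s k101 k117 3 (.s k79
  k112 6 (.s k165 k245 11 (.s k207 k138 10 (.d k15 k240 k143 14 7)))))] .n) (.c k90 (.l (.s k10 k15
  2 (.s k101 k117 3 (.s k165 k245 11 (.s k37 k229 7 (.s k53 k21 3 (.d k197 k133 k149 7 11)))))))
  .n)))

def s47_170_251 : T TT 256 :=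
  (.q k4 [(.s k134 k199 8 (.s k138 k207 10 (.s k130 k142 1 (.s k195 k65 8 (.d k12 k8 k73 1 10))))),
  (.s k101 k117 3 (.s k166 k247 12 (.s k36 k231 8 (.s k52 k20 3 (.d k199 k134 k150 8 12))))), (.s
  k101 k117 3 (.s k166 k247 12 (.s k207 k138 10 (.s k154 k48 14 (.s k142 k178 5 (.d k12 k8 k77 1
  8))))))] (.c k8 (.q k89 [(.s k81 k93 1 (.s k166 k247 12 (.d k243 k162 k12 12 14))), (.s k93 k81 1
  (.s k101 k117 3 (.s k77 k113 5 (.s k65 k73 1 (.d k125 k109 k105 3 5))))), (.s k101 k117 3 (.s k77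
  k113 5 (.s k166 k247 12 (.s k207 k138 10 (.d k12 k243 k142 14 8)))))] .n) (.c k89 (.l (.s k8 k12 1
  (.s k101 k117 3 (.s k166 k247 12 (.s k36 k231 8 (.s k52 k20 3 (.d k199 k134 k150 8 12))))))) .n)))

def s47_170_252 : T TT 256 :=
  (.q k1 [(.s k101 k117 3 (.s k205 k137 9 (.s k49 k153 13 (.s k33 k17 3 (.d k169 k237 k253 9
  13))))), (.s k3 k2 0 (.s k137 k205 9 (.s k70 k204 10 (.s k71 k68 0 (.d k207 k139 k138 9 10))))),
  (.s k3 k2 0 (.s k101 k117 3 (.s k169 k253 13 (.s k207 k138 10 (.s k139 k71 9 (.d k154 k184 k48 4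
  14))))))] .n)

def s47_170_253 : T TT 256 :=
  (.q k4 [(.s k12 k8 1 (.s k134 k199 8 (.s k73 k195 10 (.s k77 k65 1 (.d k207 k142 k138 8 10))))),
  (.s k101 k117 3 (.s k166 k247 12 (.s k36 k231 8 (.s k52 k20 3 (.d k199 k134 k150 8 12))))), (.s
  k12 k8 1 (.s k101 k117 3 (.s k166 k247 12 (.s k89 k243 14 (.s k77 k113 5 (.d k207 k142 k138 8
  10))))))] .n)

def s47_170_254 : T TT 256 :=
  (.q k1 [(.s k137 k205 9 (.s k138 k207 10 (.s k136 k139 0 (.s k204 k68 9 (.d k3 k2 k70 0 10))))),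
  (.s k101 k117 3 (.s k169 k253 13 (.s k33 k237 9 (.s k49 k17 3 (.d k205 k137 k153 9 13))))), (.s
  k101 k117 3 (.s k169 k253 13 (.s k207 k138 10 (.s k154 k48 14 (.s k139 k184 4 (.d k3 k2 k71 0
  9))))))] (.c k2 (.q k86 [(.s k84 k87 0 (.s k169 k253 13 (.d k252 k168 k3 13 14))), (.s k87 k84 0
  (.s k101 k117 3 (.s k71 k116 4 (.s k68 k70 0 (.d k119 k103 k102 3 4))))), (.s k101 k117 3 (.s k71
  k116 4 (.s k169 k253 13 (.s k207 k138 10 (.d k3 k252 k139 14 9)))))] .n) (.c k86 (.l (.s k2 k3 0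
  (.s k101 k117 3 (.s k169 k253 13 (.s k33 k237 9 (.s k49 k17 3 (.d k205 k137 k153 9 13))))))) .n)))

def s47_170_255 : T TT 256 :=
  (.q k1 [(.s k3 k2 0 (.s k137 k205 9 (.s k70 k204 10 (.s k71 k68 0 (.d k207 k139 k138 9 10))))),
  (.s k101 k117 3 (.s k205 k137 9 (.s k49 k153 13 (.s k33 k17 3 (.d k169 k237 k253 9 13)))))] (.c
  k137 (.l (.s k3 k2 0 (.s k101 k117 3 (.s k169 k253 13 (.s k33 k237 9 (.s k48 k18 4 (.d k207 k138
  k154 10 14))))))) (.c k205 (.l (.s k3 k2 0 (.s k101 k117 3 (.s k169 k253 13 (.s k207 k138 10 (.s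
  k71 k139 9 (.d k86 k252 k116 14 4))))))) .n)))

def t47_170 : T TT 256 :=
  (.q k69 [] (.c k1 s47_170_1 (.c k2 s47_170_2 (.c k3 s47_170_3 (.c k4 s47_170_4 (.c k5 s47_170_5
  (.c k6 s47_170_6 (.c k7 s47_170_7 (.c k8 s47_170_8 (.c k9 s47_170_9 (.c k10 s47_170_10 (.c k11
  s47_170_11 (.c k12 s47_170_12 (.c k13 s47_170_13 (.c k14 s47_170_14 (.c k15 s47_170_15 (.c k16
  s47_170_16 (.c k17 s47_170_17 (.c k18 s47_170_18 (.c k19 s47_170_19 (.c k20 s47_170_20 (.c k21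
  s47_170_21 (.c k22 s47_170_22 (.c k23 s47_170_23 (.c k24 s47_170_24 (.c k25 s47_170_25 (.c k26
  s47_170_26 (.c k27 s47_170_27 (.c k28 s47_170_28 (.c k29 s47_170_29 (.c k30 s47_170_30 (.c k31
  s47_170_31 (.c k32 s47_170_32 (.c k33 s47_170_33 (.c k34 s47_170_34 (.c k35 s47_170_35 (.c k36
  s47_170_36 (.c k37 s47_170_37 (.c k38 s47_170_38 (.c k39 s47_170_39 (.c k40 s47_170_40 (.c k41
  s47_170_41 (.c k42 s47_170_42 (.c k43 s47_170_43 (.c k44 s47_170_44 (.c k45 s47_170_45 (.c k46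
  s47_170_46 (.c k48 s47_170_48 (.c k49 s47_170_49 (.c k50 s47_170_50 (.c k51 s47_170_51 (.c k52
  s47_170_52 (.c k53 s47_170_53 (.c k54 s47_170_54 (.c k55 s47_170_55 (.c k56 s47_170_56 (.c k57
  s47_170_57 (.c k58 s47_170_58 (.c k59 s47_170_59 (.c k60 s47_170_60 (.c k61 s47_170_61 (.c k62
  s47_170_62 (.c k63 s47_170_63 (.c k64 s47_170_64 (.c k65 s47_170_65 (.c k66 s47_170_66 (.c k67
  s47_170_67 (.c k68 s47_170_68 (.c k70 s47_170_70 (.c k71 s47_170_71 (.c k72 s47_170_72 (.c k73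
  s47_170_73 (.c k74 s47_170_74 (.c k75 s47_170_75 (.c k76 s47_170_76 (.c k77 s47_170_77 (.c k78
  s47_170_78 (.c k79 s47_170_79 (.c k80 s47_170_80 (.c k81 s47_170_81 (.c k82 s47_170_82 (.c k83
  s47_170_83 (.c k84 s47_170_84 (.c k86 s47_170_86 (.c k87 s47_170_87 (.c k88 s47_170_88 (.c k89
  s47_170_89 (.c k90 s47_170_90 (.c k91 s47_170_91 (.c k92 s47_170_92 (.c k93 s47_170_93 (.c k94
  s47_170_94 (.c k95 s47_170_95 (.c k96 s47_170_96 (.c k97 s47_170_97 (.c k98 s47_170_98 (.c k99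
  s47_170_99 (.c k100 s47_170_100 (.c k101 s47_170_101 (.c k102 s47_170_102 (.c k103 s47_170_103 (.c
  k104 s47_170_104 (.c k105 s47_170_105 (.c k106 s47_170_106 (.c k107 s47_170_107 (.c k108
  s47_170_108 (.c k109 s47_170_109 (.c k110 s47_170_110 (.c k111 s47_170_111 (.c k112 s47_170_112
  (.c k113 s47_170_113 (.c k114 s47_170_114 (.c k115 s47_170_115 (.c k116 s47_170_116 (.c k117
  s47_170_117 (.c k118 s47_170_118 (.c k119 s47_170_119 (.c k120 s47_170_120 (.c k121 s47_170_121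
  (.c k122 s47_170_122 (.c k123 s47_170_123 (.c k124 s47_170_124 (.c k125 s47_170_125 (.c k126
  s47_170_126 (.c k127 s47_170_127 (.c k128 s47_170_128 (.c k129 s47_170_129 (.c k130 s47_170_130
  (.c k131 s47_170_131 (.c k132 s47_170_132 (.c k133 s47_170_133 (.c k134 s47_170_134 (.c k135
  s47_170_135 (.c k136 s47_170_136 (.c k137 s47_170_137 (.c k138 s47_170_138 (.c k139 s47_170_139
  (.c k140 s47_170_140 (.c k141 s47_170_141 (.c k142 s47_170_142 (.c k143 s47_170_143 (.c k144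
  s47_170_144 (.c k145 s47_170_145 (.c k146 s47_170_146 (.c k147 s47_170_147 (.c k148 s47_170_148
  (.c k149 s47_170_149 (.c k150 s47_170_150 (.c k151 s47_170_151 (.c k152 s47_170_152 (.c k153
  s47_170_153 (.c k154 s47_170_154 (.c k155 s47_170_155 (.c k156 s47_170_156 (.c k157 s47_170_157
  (.c k158 s47_170_158 (.c k159 s47_170_159 (.c k160 s47_170_160 (.c k161 s47_170_161 (.c k162
  s47_170_162 (.c k163 s47_170_163 (.c k164 s47_170_164 (.c k165 s47_170_165 (.c k166 s47_170_166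
  (.c k167 s47_170_167 (.c k168 s47_170_168 (.c k169 s47_170_169 (.c k171 s47_170_171 (.c k172
  s47_170_172 (.c k173 s47_170_173 (.c k174 s47_170_174 (.c k175 s47_170_175 (.c k176 s47_170_176
  (.c k177 s47_170_177 (.c k178 s47_170_178 (.c k179 s47_170_179 (.c k180 s47_170_180 (.c k181
  s47_170_181 (.c k182 s47_170_182 (.c k183 s47_170_183 (.c k184 s47_170_184 (.c k185 s47_170_185
  (.c k186 s47_170_186 (.c k187 s47_170_187 (.c k188 s47_170_188 (.c k189 s47_170_189 (.c k190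
  s47_170_190 (.c k191 s47_170_191 (.c k192 s47_170_192 (.c k193 s47_170_193 (.c k194 s47_170_194
  (.c k195 s47_170_195 (.c k196 s47_170_196 (.c k197 s47_170_197 (.c k198 s47_170_198 (.c k199
  s47_170_199 (.c k200 s47_170_200 (.c k201 s47_170_201 (.c k202 s47_170_202 (.c k203 s47_170_203
  (.c k204 s47_170_204 (.c k205 s47_170_205 (.c k206 s47_170_206 (.c k207 s47_170_207 (.c k208
  s47_170_208 (.c k209 s47_170_209 (.c k210 s47_170_210 (.c k211 s47_170_211 (.c k212 s47_170_212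
  (.c k213 s47_170_213 (.c k214 s47_170_214 (.c k215 s47_170_215 (.c k216 s47_170_216 (.c k217
  s47_170_217 (.c k218 s47_170_218 (.c k219 s47_170_219 (.c k220 s47_170_220 (.c k221 s47_170_221
  (.c k222 s47_170_222 (.c k223 s47_170_223 (.c k224 s47_170_224 (.c k225 s47_170_225 (.c k226
  s47_170_226 (.c k227 s47_170_227 (.c k228 s47_170_228 (.c k229 s47_170_229 (.c k230 s47_170_230
  (.c k231 s47_170_231 (.c k232 s47_170_232 (.c k233 s47_170_233 (.c k234 s47_170_234 (.c k235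
  s47_170_235 (.c k236 s47_170_236 (.c k237 s47_170_237 (.c k238 s47_170_238 (.c k239 s47_170_239
  (.c k240 s47_170_240 (.c k241 s47_170_241 (.c k242 s47_170_242 (.c k243 s47_170_243 (.c k244
  s47_170_244 (.c k245 s47_170_245 (.c k246 s47_170_246 (.c k247 s47_170_247 (.c k248 s47_170_248
  (.c k249 s47_170_249 (.c k250 s47_170_250 (.c k251 s47_170_251 (.c k252 s47_170_252 (.c k253
  s47_170_253 (.c k254 s47_170_254 (.c k255 s47_170_255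
  .n))))))))))))))))))))))))))))))))))))))))))))))))))))))))))))))))))))))))))))))))
  ))))))))))))))))))))))))))))))))))))))))))))))))))))))))))))))))))))))))))))))))
  )))))))))))))))))))))))))))))))))))))))))))))))))))))))))))))))))))))))))))))))) ))))))))))))

def s47_255_1 : T TT 256 :=
  (.q k4 [(.s k12 k8 1 (.s k134 k199 8 (.s k138 k207 10 (.s k130 k142 1 (.d k195 k65 k73 8 10))))),
  (.s k101 k117 3 (.s k166 k247 12 (.s k36 k231 8 (.s k52 k20 3 (.d k199 k134 k150 8 12))))), (.s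
  k12 k8 1 (.s k101 k117 3 (.s k166 k247 12 (.s k207 k138 10 (.s k48 k154 14 (.d k36 k24 k231 5
  8))))))] .n)

def s47_255_2 : T TT 256 :=
  (.q k4 [(.s k12 k8 1 (.s k134 k199 8 (.s k73 k195 10 (.s k77 k65 1 (.d k207 k142 k138 8 10))))),
  (.s k101 k117 3 (.s k166 k247 12 (.s k36 k231 8 (.s k52 k20 3 (.d k199 k134 k150 8 12))))), (.s
  k12 k8 1 (.s k101 k117 3 (.s k166 k247 12 (.s k207 k138 10 (.s k48 k154 14 (.d k36 k24 k231 5
  8))))))] .n)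

def s47_255_3 : T TT 256 :=
  (.f k207 k138 10 (.q k105 [(.s k101 k117 3 (.s k109 k97 1 (.s k60 k158 12 (.s k20 k40 5 (.d k150
  k215 k195 8 14))))), (.s k65 k125 5 (.s k73 k77 1 (.s k195 k130 8 (.s k134 k12 10 (.d k199 k203 k4
  1 8)))))] (.c k60 (.l (.s k101 k117 3 (.s k48 k154 14 (.s k97 k109 1 (.s k195 k146 12 (.d k65 k125
  k130 5 8)))))) (.c k87 (.q k171 [(.s k101 k117 3 (.s k109 k97 1 (.s k60 k158 12 (.s k20 k40 5 (.d
  k150 k215 k195 8 14))))), (.s k65 k125 5 (.s k73 k77 1 (.s k195 k130 8 (.s k134 k12 10 (.d k199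
  k203 k4 1 8)))))] (.c k60 (.l (.s k101 k117 3 (.s k48 k154 14 (.s k97 k109 1 (.s k195 k146 12 (.d
  k65 k125 k130 5 8)))))) (.c k109 (.l (.s k65 k125 5 (.s k101 k117 3 (.s k195 k130 8 (.s k199 k203
  1 (.d k150 k60 k52 14 12)))))) (.c k195 (.l (.s k65 k125 5 (.s k77 k73 1 (.s k101 k117 3 (.s k97
  k109 1 (.d k113 k81 k89 3 5)))))) .n)))) (.c k109 (.l (.s k65 k125 5 (.s k101 k117 3 (.s k195 k130
  8 (.s k199 k203 1 (.d k150 k60 k52 14 12)))))) (.c k171 (.q k87 [(.s k65 k125 5 (.s k73 k77 1 (.s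
  k195 k130 8 (.s k199 k203 1 (.d k134 k4 k12 8 10))))), (.s k86 k84 0 (.s k101 k117 3 (.s k71 k116
  4 (.s k68 k70 0 (.d k119 k103 k102 3 4)))))] .n) (.c k195 (.l (.s k65 k125 5 (.s k77 k73 1 (.s
  k101 k117 3 (.s k97 k109 1 (.d k113 k81 k89 3 5)))))) .n)))))))

def s47_255_4 : T TT 256 :=
  (.q k1 [(.s k3 k2 0 (.s k137 k205 9 (.s k138 k207 10 (.s k136 k139 0 (.d k204 k68 k70 9 10))))),
  (.s k101 k117 3 (.s k169 k253 13 (.s k33 k237 9 (.s k49 k17 3 (.d k205 k137 k153 9 13))))), (.s k3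
  k2 0 (.s k101 k117 3 (.s k169 k253 13 (.s k207 k138 10 (.s k48 k154 14 (.d k33 k18 k237 4 9))))))]
  .n)

def s47_255_5 : T TT 256 :=
  (.q k1 [(.s k3 k2 0 (.s k137 k205 9 (.s k70 k204 10 (.s k71 k68 0 (.d k207 k139 k138 9 10))))),
  (.s k101 k117 3 (.s k169 k253 13 (.s k33 k237 9 (.s k49 k17 3 (.d k205 k137 k153 9 13))))), (.s k3
  k2 0 (.s k101 k117 3 (.s k169 k253 13 (.s k207 k138 10 (.s k48 k154 14 (.d k33 k18 k237 4 9))))))]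
  .n)

def s47_255_6 : T TT 256 :=
  (.q k1 [(.s k3 k2 0 (.s k137 k205 9 (.s k70 k204 10 (.s k71 k68 0 (.d k207 k139 k138 9 10))))),
  (.s k101 k117 3 (.s k169 k253 13 (.s k33 k237 9 (.s k49 k17 3 (.d k205 k137 k153 9 13))))), (.s k3
  k2 0 (.s k101 k117 3 (.s k169 k253 13 (.s k207 k138 10 (.s k48 k154 14 (.d k33 k18 k237 4 9))))))]
  .n)

def s47_255_7 : T TT 256 :=
  (.q k1 [(.s k3 k2 0 (.s k137 k205 9 (.s k70 k204 10 (.s k71 k68 0 (.d k207 k139 k138 9 10))))),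
  (.s k101 k117 3 (.s k169 k253 13 (.s k33 k237 9 (.s k49 k17 3 (.d k205 k137 k153 9 13))))), (.s k3
  k2 0 (.s k101 k117 3 (.s k169 k253 13 (.s k207 k138 10 (.s k48 k154 14 (.d k33 k18 k237 4 9))))))]
  .n)

def s47_255_8 : T TT 256 :=
  (.q k1 [(.s k3 k2 0 (.s k137 k205 9 (.s k70 k204 10 (.s k71 k68 0 (.d k207 k139 k138 9 10))))),
  (.s k101 k117 3 (.s k169 k253 13 (.s k33 k237 9 (.s k49 k17 3 (.d k205 k137 k153 9 13))))), (.s k3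
  k2 0 (.s k101 k117 3 (.s k169 k253 13 (.s k207 k138 10 (.s k48 k154 14 (.d k33 k18 k237 4 9))))))]
  .n)

def s47_255_9 : T TT 256 :=
  (.q k1 [(.s k3 k2 0 (.s k137 k205 9 (.s k70 k204 10 (.s k71 k68 0 (.d k207 k139 k138 9 10))))),
  (.s k101 k117 3 (.s k169 k253 13 (.s k33 k237 9 (.s k49 k17 3 (.d k205 k137 k153 9 13))))), (.s k3
  k2 0 (.s k101 k117 3 (.s k169 k253 13 (.s k207 k138 10 (.s k48 k154 14 (.d k33 k18 k237 4 9))))))]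
  .n)

def s47_255_10 : T TT 256 :=
  (.q k1 [(.s k3 k2 0 (.s k137 k205 9 (.s k70 k204 10 (.s k71 k68 0 (.d k207 k139 k138 9 10))))),
  (.s k101 k117 3 (.s k169 k253 13 (.s k33 k237 9 (.s k49 k17 3 (.d k205 k137 k153 9 13))))), (.s k3
  k2 0 (.s k101 k117 3 (.s k169 k253 13 (.s k207 k138 10 (.s k48 k154 14 (.d k33 k18 k237 4 9))))))]
  .n)

def s47_255_11 : T TT 256 :=
  (.q k1 [(.s k3 k2 0 (.s k137 k205 9 (.s k70 k204 10 (.s k71 k68 0 (.d k207 k139 k138 9 10))))),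
  (.s k101 k117 3 (.s k169 k253 13 (.s k33 k237 9 (.s k49 k17 3 (.d k205 k137 k153 9 13))))), (.s k3
  k2 0 (.s k101 k117 3 (.s k169 k253 13 (.s k207 k138 10 (.s k48 k154 14 (.d k33 k18 k237 4 9))))))]
  .n)

def s47_255_12 : T TT 256 :=
  (.f k207 k138 10 (.q k169 [(.s k101 k117 3 (.s k237 k33 9 (.s k252 k222 4 (.s k84 k168 13 (.d k86
  k87 k3 0 14))))), (.s k1 k253 13 (.s k3 k2 0 (.s k71 k139 9 (.s k70 k68 0 (.d k137 k205 k204 9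
  10)))))] (.c k3 (.l (.s k1 k253 13 (.s k101 k117 3 (.s k33 k237 9 (.s k49 k17 3 (.d k205 k137 k153
  9 13)))))) (.c k93 (.q k174 [(.s k101 k117 3 (.s k237 k33 9 (.s k252 k222 4 (.s k84 k168 13 (.d
  k86 k87 k3 0 14))))), (.s k1 k253 13 (.s k3 k2 0 (.s k71 k139 9 (.s k70 k68 0 (.d k137 k205 k204 9
  10)))))] (.c k3 (.l (.s k1 k253 13 (.s k101 k117 3 (.s k33 k237 9 (.s k49 k17 3 (.d k205 k137 k153
  9 13)))))) (.c k252 (.l (.s k101 k117 3 (.s k33 k237 9 (.s k48 k154 14 (.s k3 k18 4 (.d k1 k2 k253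
  0 13)))))) .n))) (.c k174 (.q k93 [(.s k1 k253 13 (.s k3 k2 0 (.s k71 k139 9 (.s k70 k68 0 (.d
  k137 k205 k204 9 10))))), (.s k89 k81 1 (.s k101 k117 3 (.s k77 k113 5 (.s k65 k73 1 (.d k125 k109
  k105 3 5)))))] .n) (.c k252 (.l (.s k101 k117 3 (.s k33 k237 9 (.s k48 k154 14 (.s k3 k18 4 (.d k1
  k2 k253 0 13)))))) .n))))))

def s47_255_13 : T TT 256 :=
  (.q k1 [(.s k3 k2 0 (.s k207 k138 10 (.s k71 k139 9 (.s k70 k68 0 (.d k137 k205 k204 9 10))))),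
  (.s k101 k117 3 (.s k169 k253 13 (.s k33 k237 9 (.s k49 k17 3 (.d k205 k137 k153 9 13))))), (.s k3
  k2 0 (.s k101 k117 3 (.s k169 k253 13 (.s k207 k138 10 (.s k48 k154 14 (.d k33 k18 k237 4 9))))))]
  .n)

def s47_255_14 : T TT 256 :=
  (.q k1 [(.s k3 k2 0 (.s k137 k205 9 (.s k70 k204 10 (.s k71 k68 0 (.d k207 k139 k138 9 10))))),
  (.s k101 k117 3 (.s k169 k253 13 (.s k33 k237 9 (.s k49 k17 3 (.d k205 k137 k153 9 13))))), (.s k3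
  k2 0 (.s k101 k117 3 (.s k169 k253 13 (.s k207 k138 10 (.s k48 k154 14 (.d k33 k18 k237 4 9))))))]
  .n)

def s47_255_15 : T TT 256 :=
  (.f k207 k138 10 (.q k63 [(.s k101 k117 3 (.s k111 k159 11 (.s k106 k96 2 (.s k64 k127 6 (.d k192
  k128 k149 7 14))))), (.s k21 k42 6 (.s k149 k213 7 (.s k192 k106 14 (.s k197 k202 2 (.d k101 k117
  k53 3 11))))), (.s k21 k42 6 (.s k149 k213 7 (.s k159 k111 11 (.s k154 k144 2 (.s k16 k223 10 (.d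
  k48 k32 k101 3 14))))))] (.c k95 (.q k175 [(.s k101 k117 3 (.s k48 k154 14 (.s k53 k58 2 (.s k149
  k197 11 (.d k21 k42 k213 6 7))))), (.s k101 k117 3 (.s k111 k159 11 (.s k106 k96 2 (.s k64 k127 6
  (.d k192 k128 k149 7 14))))), (.s k21 k42 6 (.s k149 k213 7 (.s k159 k111 11 (.s k191 k143 3 (.s
  k128 k170 6 (.d k192 k106 k64 14 7)))))), (.s k21 k42 6 (.s k149 k213 7 (.s k159 k111 11 (.s k154
  k144 2 (.s k16 k223 10 (.d k48 k32 k101 3 14))))))] (.c k149 (.l (.s k42 k21 6 (.s k101 k117 3 (.s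
  k48 k154 14 (.s k32 k16 3 (.s k170 k239 10 (.s k106 k234 7 (.d k111 k159 k96 11 2)))))))) .n)) (.c
  k101 (.q k95 [(.s k21 k42 6 (.s k111 k159 11 (.s k127 k79 3 (.s k106 k64 6 (.d k149 k213 k192 7
  14))))), (.s k80 k90 2 (.s k111 k159 11 (.s k240 k160 11 (.s k122 k181 10 (.s k127 k79 3 (.s k112
  k117 2 (.d k64 k96 k106 3 6))))))), (.s k21 k42 6 (.s k90 k80 2 (.s k149 k213 7 (.s k31 k208 10
  (.s k16 k26 2 (.d k223 k159 k154 7 10))))))] (.c k90 (.l (.s k21 k42 6 (.s k149 k213 7 (.s k159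
  k111 11 (.s k154 k144 2 (.d k223 k31 k16 7 10)))))) (.c k159 (.q k1 [(.s k3 k2 0 (.s k71 k139 9
  (.s k70 k68 0 (.d k137 k205 k204 9 10)))), (.s k21 k42 6 (.s k61 k41 5 (.s k205 k137 9 (.s k109
  k157 11 (.d k60 k158 k62 12 0))))), (.s k3 k2 0 (.s k21 k42 6 (.s k23 k43 5 (.s k22 k20 0 (.d k41
  k61 k60 5 6)))))] .n) .n))) (.c k149 (.l (.s k42 k21 6 (.s k101 k117 3 (.s k48 k154 14 (.s k32 k16
  3 (.s k170 k239 10 (.s k106 k234 7 (.d k111 k159 k96 11 2)))))))) (.c k175 (.q k95 [(.s k90 k80 2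
  (.s k111 k159 11 (.s k79 k127 3 (.d k101 k117 k112 3 6)))), (.s k21 k42 6 (.s k101 k117 3 (.s k48
  k154 14 (.s k53 k58 2 (.d k149 k213 k197 7 11))))), (.s k21 k42 6 (.s k90 k80 2 (.s k149 k213 7
  (.s k31 k208 10 (.d k159 k223 k111 7 11)))))] (.c k111 (.q k239 [(.s k101 k117 3 (.s k48 k154 14
  (.d k32 k170 k16 10 3))), (.s k21 k42 6 (.s k90 k80 2 (.s k149 k213 7 (.s k31 k208 10 (.s k16 k26
  2 (.d k223 k159 k154 7 10)))))), (.s k101 k117 3 (.s k48 k154 14 (.s k53 k58 2 (.s k149 k197 11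
  (.d k21 k42 k213 6 7)))))] (.c k48 (.l (.s k21 k42 6 (.s k149 k213 7 (.s k192 k106 14 (.s k197
  k202 2 (.d k101 k117 k53 3 11)))))) (.c k154 (.l (.s k21 k42 6 (.s k101 k117 3 (.s k149 k213 7 (.s
  k192 k106 14 (.d k197 k202 k53 2 11)))))) .n))) (.c k239 (.l (.s k111 k159 11 (.s k79 k127 3 (.s
  k90 k80 2 (.d k101 k117 k112 3 6))))) .n))) (.c k192 (.l (.s k21 k42 6 (.s k101 k117 3 (.s k48
  k154 14 (.s k53 k58 2 (.d k149 k213 k197 7 11)))))) .n)))))))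

def s47_255_16 : T TT 256 :=
  (.q k1 [(.s k3 k2 0 (.s k137 k205 9 (.s k70 k204 10 (.s k71 k68 0 (.d k207 k139 k138 9 10))))),
  (.s k101 k117 3 (.s k169 k253 13 (.s k33 k237 9 (.s k49 k17 3 (.d k205 k137 k153 9 13))))), (.s k3
  k2 0 (.s k101 k117 3 (.s k169 k253 13 (.s k207 k138 10 (.s k48 k154 14 (.d k33 k18 k237 4 9))))))]
  .n)

def s47_255_17 : T TT 256 :=
  (.q k1 [(.s k3 k2 0 (.s k137 k205 9 (.s k70 k204 10 (.s k71 k68 0 (.d k207 k139 k138 9 10))))),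
  (.s k101 k117 3 (.s k169 k253 13 (.s k207 k138 10 (.s k237 k33 9 (.s k252 k222 4 (.s k84 k168 13
  (.d k86 k87 k3 0 14)))))))] (.c k3 (.l (.s k101 k117 3 (.s k205 k137 9 (.s k153 k49 13 (.s k207
  k138 10 (.s k204 k206 0 (.s k102 k51 14 (.d k68 k119 k136 4 9)))))))) (.c k138 (.l (.s k3 k2 0 (.s
  k101 k117 3 (.s k137 k205 9 (.s k70 k204 10 (.s k71 k68 0 (.s k86 k116 4 (.d k169 k253 k252 13
  14)))))))) (.c k207 (.l (.s k3 k2 0 (.s k137 k205 9 (.s k169 k253 13 (.s k153 k185 3 (.s k204 k70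
  10 (.s k68 k136 9 (.d k102 k119 k51 4 14)))))))) .n))))

def s47_255_18 : T TT 256 :=
  (.q k1 [(.s k3 k2 0 (.s k137 k205 9 (.s k70 k204 10 (.s k71 k68 0 (.d k207 k139 k138 9 10))))),
  (.s k101 k117 3 (.s k169 k253 13 (.s k33 k237 9 (.s k49 k17 3 (.d k205 k137 k153 9 13))))), (.s k3
  k2 0 (.s k101 k117 3 (.s k169 k253 13 (.s k207 k138 10 (.s k139 k71 9 (.d k154 k48 k184 14
  4))))))] .n)

def s47_255_19 : T TT 256 :=
  (.q k1 [(.s k3 k2 0 (.s k137 k205 9 (.s k70 k204 10 (.s k71 k68 0 (.d k207 k139 k138 9 10))))),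
  (.s k101 k117 3 (.s k169 k253 13 (.s k33 k237 9 (.s k49 k17 3 (.d k205 k137 k153 9 13))))), (.s k3
  k2 0 (.s k101 k117 3 (.s k169 k253 13 (.s k207 k138 10 (.s k48 k154 14 (.d k33 k18 k237 4 9))))))]
  .n)

def s47_255_20 : T TT 256 :=
  (.q k1 [(.s k3 k2 0 (.s k137 k205 9 (.s k70 k204 10 (.s k71 k68 0 (.d k207 k139 k138 9 10))))),
  (.s k101 k117 3 (.s k169 k253 13 (.s k33 k237 9 (.s k49 k17 3 (.d k205 k137 k153 9 13))))), (.s k3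
  k2 0 (.s k101 k117 3 (.s k169 k253 13 (.s k207 k138 10 (.s k48 k154 14 (.d k33 k18 k237 4 9))))))]
  .n)

def s47_255_21 : T TT 256 :=
  (.q k1 [(.s k3 k2 0 (.s k137 k205 9 (.s k70 k204 10 (.s k71 k68 0 (.d k207 k139 k138 9 10))))),
  (.s k101 k117 3 (.s k169 k253 13 (.s k33 k237 9 (.s k49 k17 3 (.d k205 k137 k153 9 13))))), (.s k3
  k2 0 (.s k101 k117 3 (.s k169 k253 13 (.s k207 k138 10 (.s k48 k154 14 (.d k33 k18 k237 4 9))))))]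
  .n)

def s47_255_22 : T TT 256 :=
  (.q k1 [(.s k3 k2 0 (.s k137 k205 9 (.s k70 k204 10 (.s k71 k68 0 (.d k207 k139 k138 9 10))))),
  (.s k101 k117 3 (.s k169 k253 13 (.s k33 k237 9 (.s k49 k17 3 (.d k205 k137 k153 9 13))))), (.s k3
  k2 0 (.s k101 k117 3 (.s k169 k253 13 (.s k207 k138 10 (.s k48 k154 14 (.d k33 k18 k237 4 9))))))]
  .n)

def s47_255_23 : T TT 256 :=
  (.q k1 [(.s k3 k2 0 (.s k137 k205 9 (.s k70 k204 10 (.s k71 k68 0 (.d k207 k139 k138 9 10))))),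
  (.s k101 k117 3 (.s k169 k253 13 (.s k33 k237 9 (.s k49 k17 3 (.d k205 k137 k153 9 13))))), (.s k3
  k2 0 (.s k101 k117 3 (.s k169 k253 13 (.s k207 k138 10 (.s k48 k154 14 (.d k33 k18 k237 4 9))))))]
  .n)

def s47_255_24 : T TT 256 :=
  (.q k1 [(.s k3 k2 0 (.s k137 k205 9 (.s k70 k204 10 (.s k71 k68 0 (.d k207 k139 k138 9 10))))),
  (.s k101 k117 3 (.s k169 k253 13 (.s k33 k237 9 (.s k49 k17 3 (.d k205 k137 k153 9 13))))), (.s k3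
  k2 0 (.s k101 k117 3 (.s k169 k253 13 (.s k207 k138 10 (.s k48 k154 14 (.d k33 k18 k237 4 9))))))]
  .n)

def s47_255_25 : T TT 256 :=
  (.q k1 [(.s k3 k2 0 (.s k137 k205 9 (.s k70 k204 10 (.s k71 k68 0 (.d k207 k139 k138 9 10))))),
  (.s k101 k117 3 (.s k169 k253 13 (.s k33 k237 9 (.s k49 k17 3 (.d k205 k137 k153 9 13))))), (.s k3
  k2 0 (.s k101 k117 3 (.s k169 k253 13 (.s k207 k138 10 (.s k48 k154 14 (.d k33 k18 k237 4 9))))))]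
  .n)

def s47_255_26 : T TT 256 :=
  (.q k1 [(.s k3 k2 0 (.s k137 k205 9 (.s k70 k204 10 (.s k71 k68 0 (.d k207 k139 k138 9 10))))),
  (.s k101 k117 3 (.s k169 k253 13 (.s k33 k237 9 (.s k49 k17 3 (.d k205 k137 k153 9 13))))), (.s k3
  k2 0 (.s k101 k117 3 (.s k169 k253 13 (.s k207 k138 10 (.s k48 k154 14 (.d k33 k18 k237 4 9))))))]
  .n)

def s47_255_27 : T TT 256 :=
  (.q k1 [(.s k3 k2 0 (.s k137 k205 9 (.s k70 k204 10 (.s k71 k68 0 (.d k207 k139 k138 9 10))))),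
  (.s k101 k117 3 (.s k169 k253 13 (.s k33 k237 9 (.s k49 k17 3 (.d k205 k137 k153 9 13))))), (.s k3
  k2 0 (.s k101 k117 3 (.s k169 k253 13 (.s k207 k138 10 (.s k48 k154 14 (.d k33 k18 k237 4 9))))))]
  .n)

def s47_255_28 : T TT 256 :=
  (.q k1 [(.s k3 k2 0 (.s k137 k205 9 (.s k70 k204 10 (.s k71 k68 0 (.d k207 k139 k138 9 10))))),
  (.s k101 k117 3 (.s k169 k253 13 (.s k33 k237 9 (.s k49 k17 3 (.d k205 k137 k153 9 13))))), (.s k3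
  k2 0 (.s k101 k117 3 (.s k169 k253 13 (.s k207 k138 10 (.s k48 k154 14 (.d k33 k18 k237 4 9))))))]
  .n)

def s47_255_29 : T TT 256 :=
  (.q k1 [(.s k3 k2 0 (.s k137 k205 9 (.s k70 k204 10 (.s k71 k68 0 (.d k207 k139 k138 9 10))))),
  (.s k101 k117 3 (.s k169 k253 13 (.s k33 k237 9 (.s k49 k17 3 (.d k205 k137 k153 9 13))))), (.s k3
  k2 0 (.s k101 k117 3 (.s k169 k253 13 (.s k207 k138 10 (.s k48 k154 14 (.d k33 k18 k237 4 9))))))]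
  .n)

def s47_255_30 : T TT 256 :=
  (.q k1 [(.s k3 k2 0 (.s k137 k205 9 (.s k70 k204 10 (.s k71 k68 0 (.d k207 k139 k138 9 10))))),
  (.s k101 k117 3 (.s k169 k253 13 (.s k33 k237 9 (.s k49 k17 3 (.d k205 k137 k153 9 13))))), (.s k3
  k2 0 (.s k101 k117 3 (.s k169 k253 13 (.s k207 k138 10 (.s k48 k154 14 (.d k33 k18 k237 4 9))))))]
  .n)

def s47_255_31 : T TT 256 :=
  (.q k15 [(.s k5 k10 2 (.s k133 k197 7 (.s k74 k192 10 (.s k79 k64 2 (.d k207 k143 k138 7 10))))),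
  (.s k101 k117 3 (.s k207 k138 10 (.s k79 k143 7 (.s k90 k112 6 (.s k80 k95 2 (.d k240 k160 k165 11
  14)))))), (.s k5 k10 2 (.s k101 k117 3 (.s k165 k245 11 (.s k37 k229 7 (.s k53 k21 3 (.d k197 k133
  k149 7 11))))))] (.c k133 (.l (.s k5 k10 2 (.s k101 k117 3 (.s k165 k245 11 (.s k37 k229 7 (.s k48
  k26 6 (.d k207 k138 k154 10 14))))))) .n))

def s47_255_32 : T TT 256 :=
  (.f k207 k138 10 (.f k101 k117 3 (.f k48 k154 14 (.q k37 [(.s k15 k26 6 (.s k165 k229 7 (.d k5 k10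
  k245 2 11))), (.s k165 k229 7 (.s k5 k245 11 (.s k53 k21 3 (.d k197 k133 k149 7 11)))), (.s k15
  k26 6 (.s k5 k10 2 (.s k53 k21 3 (.d k197 k133 k149 7 11))))] (.c k5 (.l (.s k15 k26 6 (.s k79
  k143 7 (.s k90 k112 6 (.d k165 k229 k240 7 14))))) (.c k170 (.q k186 [(.s k15 k26 6 (.s k165 k229
  7 (.d k5 k10 k245 2 11))), (.s k165 k229 7 (.s k5 k245 11 (.s k53 k21 3 (.d k197 k133 k149 7
  11)))), (.s k15 k26 6 (.s k5 k10 2 (.s k53 k21 3 (.d k197 k133 k149 7 11))))] (.c k5 (.l (.s k15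
  k26 6 (.s k79 k143 7 (.s k90 k112 6 (.d k165 k229 k240 7 14))))) .n)) (.c k186 (.q k170 [(.s k15
  k26 6 (.s k165 k229 7 (.d k5 k10 k245 2 11))), (.s k165 k229 7 (.s k5 k245 11 (.s k53 k21 3 (.d
  k197 k133 k149 7 11)))), (.s k15 k26 6 (.s k5 k10 2 (.s k53 k21 3 (.d k197 k133 k149 7 11))))] (.c
  k5 (.l (.s k15 k26 6 (.s k79 k143 7 (.s k90 k112 6 (.d k165 k229 k240 7 14))))) .n)) .n)))))))

def s47_255_33 : T TT 256 :=
  (.q k1 [(.s k3 k2 0 (.s k137 k205 9 (.s k70 k204 10 (.s k71 k68 0 (.d k207 k139 k138 9 10))))),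
  (.s k101 k117 3 (.s k205 k137 9 (.s k153 k49 13 (.s k221 k17 9 (.d k253 k237 k169 3 13))))), (.s
  k3 k2 0 (.s k101 k117 3 (.s k169 k253 13 (.s k207 k138 10 (.s k139 k71 9 (.d k154 k48 k184 14
  4))))))] .n)

def s47_255_34 : T TT 256 :=
  (.q k1 [(.s k3 k2 0 (.s k137 k205 9 (.s k70 k204 10 (.s k71 k68 0 (.d k207 k139 k138 9 10))))),
  (.s k101 k117 3 (.s k169 k253 13 (.s k33 k237 9 (.s k49 k17 3 (.d k205 k137 k153 9 13))))), (.s k3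
  k2 0 (.s k101 k117 3 (.s k169 k253 13 (.s k207 k138 10 (.s k48 k154 14 (.d k33 k18 k237 4 9))))))]
  .n)

def s47_255_35 : T TT 256 :=
  (.f k207 k138 10 (.q k80 [(.s k90 k95 2 (.s k101 k117 3 (.s k240 k160 11 (.s k218 k229 6 (.d k154
  k48 k26 14 7))))), (.s k101 k117 3 (.s k48 k154 14 (.s k16 k32 3 (.s k144 k208 7 (.s k96 k192 11
  (.s k64 k112 3 (.d k106 k127 k111 6 2))))))), (.s k90 k95 2 (.s k240 k160 11 (.s k15 k165 14 (.s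
  k5 k10 2 (.s k79 k143 7 (.s k74 k64 2 (.d k133 k197 k192 7 10)))))))] (.c k39 (.q k43 [(.s k90 k95
  2 (.s k101 k117 3 (.s k240 k160 11 (.s k218 k229 6 (.d k154 k48 k26 14 7))))), (.s k101 k117 3 (.s
  k48 k154 14 (.s k16 k32 3 (.s k144 k208 7 (.s k96 k192 11 (.s k64 k112 3 (.d k106 k127 k111 6
  2))))))), (.s k90 k95 2 (.s k240 k160 11 (.s k15 k165 14 (.s k5 k10 2 (.s k79 k143 7 (.s k74 k64 2
  (.d k133 k197 k192 7 10)))))))] (.c k154 (.l (.s k90 k95 2 (.s k101 k117 3 (.s k79 k112 6 (.s k15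
  k143 7 (.d k240 k165 k160 14 11)))))) (.c k240 (.l (.s k90 k95 2 (.s k101 k117 3 (.s k48 k154 14
  (.s k16 k32 3 (.s k112 k79 6 (.s k96 k64 3 (.d k144 k208 k192 7 11)))))))) .n))) (.c k43 (.q k39
  [(.s k90 k95 2 (.s k101 k117 3 (.s k240 k160 11 (.s k218 k229 6 (.d k154 k48 k26 14 7))))), (.s
  k101 k117 3 (.s k48 k154 14 (.s k16 k32 3 (.s k144 k208 7 (.s k96 k192 11 (.s k64 k112 3 (.d k106
  k127 k111 6 2))))))), (.s k90 k95 2 (.s k240 k160 11 (.s k15 k165 14 (.s k5 k10 2 (.s k79 k143 7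
  (.s k74 k64 2 (.d k133 k197 k192 7 10)))))))] (.c k154 (.l (.s k90 k95 2 (.s k101 k117 3 (.s k79
  k112 6 (.s k15 k143 7 (.d k240 k165 k160 14 11)))))) (.c k240 (.l (.s k90 k95 2 (.s k101 k117 3
  (.s k48 k154 14 (.s k16 k32 3 (.s k112 k79 6 (.s k96 k64 3 (.d k144 k208 k192 7 11)))))))) .n)))
  (.c k154 (.l (.s k90 k95 2 (.s k101 k117 3 (.s k79 k112 6 (.s k15 k143 7 (.d k240 k165 k160 14
  11)))))) (.c k240 (.l (.s k90 k95 2 (.s k101 k117 3 (.s k48 k154 14 (.s k16 k32 3 (.s k112 k79 6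
  (.s k96 k64 3 (.d k144 k208 k192 7 11)))))))) .n))))))

def s47_255_36 : T TT 256 :=
  (.q k1 [(.s k3 k2 0 (.s k137 k205 9 (.s k70 k204 10 (.s k71 k68 0 (.d k207 k139 k138 9 10))))),
  (.s k101 k117 3 (.s k169 k253 13 (.s k33 k237 9 (.s k49 k17 3 (.d k205 k137 k153 9 13))))), (.s k3
  k2 0 (.s k101 k117 3 (.s k169 k253 13 (.s k207 k138 10 (.s k48 k154 14 (.d k33 k18 k237 4 9))))))]
  .n)

def s47_255_37 : T TT 256 :=
  (.f k101 k117 3 (.f k207 k138 10 (.f k48 k154 14 (.f k32 k16 3 (.q k100 [(.s k102 k103 0 (.s k204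
  k152 13 (.d k68 k119 k136 4 9))), (.s k152 k204 13 (.s k168 k236 9 (.s k184 k136 3 (.d k252 k116
  k84 9 13)))), (.s k102 k103 0 (.s k68 k119 4 (.s k71 k70 0 (.d k116 k84 k86 3 4))))] (.c k84 (.l
  (.s k102 k103 0 (.s k68 k119 4 (.d k204 k136 k152 9 13)))) (.c k170 (.q k186 [(.s k102 k103 0 (.s
  k204 k152 13 (.d k68 k119 k136 4 9))), (.s k102 k103 0 (.s k68 k119 4 (.s k71 k70 0 (.d k116 k84
  k86 3 4)))), (.s k152 k204 13 (.s k168 k236 9 (.s k184 k136 3 (.d k252 k116 k84 9 13))))] (.c k84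
  (.l (.s k102 k103 0 (.s k68 k119 4 (.d k204 k136 k152 9 13)))) .n)) (.c k186 (.l (.s k170 k239 10
  (.s k102 k103 0 (.s k68 k119 4 (.d k204 k136 k152 9 13))))) .n))))))))

def s47_255_38 : T TT 256 :=
  (.q k1 [(.s k3 k2 0 (.s k137 k205 9 (.s k70 k204 10 (.s k71 k68 0 (.d k207 k139 k138 9 10))))),
  (.s k101 k117 3 (.s k169 k253 13 (.s k33 k237 9 (.s k49 k17 3 (.d k205 k137 k153 9 13))))), (.s k3
  k2 0 (.s k101 k117 3 (.s k169 k253 13 (.s k207 k138 10 (.s k48 k154 14 (.d k33 k18 k237 4 9))))))]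
  .n)

def s47_255_39 : T TT 256 :=
  (.f k207 k138 10 (.q k64 [(.s k74 k79 2 (.s k192 k128 7 (.s k197 k202 2 (.d k133 k5 k15 7 10)))),
  (.s k79 k74 2 (.s k101 k117 3 (.s k90 k112 6 (.s k95 k80 2 (.d k127 k111 k106 3 6))))), (.s k101
  k117 3 (.s k48 k154 14 (.s k106 k127 6 (.s k192 k128 7 (.d k96 k111 k144 2 11)))))] (.c k35 (.q
  k43 [(.s k74 k79 2 (.s k192 k128 7 (.s k197 k202 2 (.d k133 k5 k15 7 10)))), (.s k79 k74 2 (.s
  k101 k117 3 (.s k90 k112 6 (.s k95 k80 2 (.d k127 k111 k106 3 6))))), (.s k101 k117 3 (.s k48 k154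
  14 (.s k106 k127 6 (.s k192 k128 7 (.d k96 k111 k144 2 11)))))] .n) (.c k43 (.q k35 [(.s k74 k79 2
  (.s k192 k128 7 (.s k197 k202 2 (.d k133 k5 k15 7 10)))), (.s k79 k74 2 (.s k101 k117 3 (.s k90
  k112 6 (.s k95 k80 2 (.d k127 k111 k106 3 6))))), (.s k101 k117 3 (.s k48 k154 14 (.s k106 k127 6
  (.s k192 k128 7 (.d k96 k111 k144 2 11)))))] .n) .n))))

def s47_255_40 : T TT 256 :=
  (.q k1 [(.s k3 k2 0 (.s k137 k205 9 (.s k70 k204 10 (.s k71 k68 0 (.d k207 k139 k138 9 10))))),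
  (.s k101 k117 3 (.s k169 k253 13 (.s k33 k237 9 (.s k49 k17 3 (.d k205 k137 k153 9 13))))), (.s k3
  k2 0 (.s k101 k117 3 (.s k169 k253 13 (.s k207 k138 10 (.s k48 k154 14 (.d k33 k18 k237 4 9))))))]
  .n)

def s47_255_41 : T TT 256 :=
  (.q k1 [(.s k3 k2 0 (.s k137 k205 9 (.s k70 k204 10 (.s k71 k68 0 (.d k207 k139 k138 9 10))))),
  (.s k101 k117 3 (.s k169 k253 13 (.s k33 k237 9 (.s k49 k17 3 (.d k205 k137 k153 9 13))))), (.s k3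
  k2 0 (.s k101 k117 3 (.s k169 k253 13 (.s k207 k138 10 (.s k48 k154 14 (.d k33 k18 k237 4 9))))))]
  .n)

def s47_255_42 : T TT 256 :=
  (.f k101 k117 3 (.f k207 k138 10 (.f k48 k154 14 (.f k32 k16 3 (.q k106 [(.s k96 k111 2 (.s k192
  k144 11 (.d k64 k127 k128 6 7))), (.s k64 k127 6 (.s k192 k128 7 (.s k197 k202 2 (.d k149 k63 k53
  14 11)))), (.s k96 k111 2 (.s k192 k144 11 (.s k197 k202 2 (.d k149 k53 k63 11 14)))), (.s k64
  k127 6 (.s k79 k74 2 (.s k96 k111 2 (.d k112 k80 k90 3 6))))] (.c k170 (.q k186 [(.s k96 k111 2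
  (.s k192 k144 11 (.d k64 k127 k128 6 7))), (.s k64 k127 6 (.s k192 k128 7 (.s k197 k202 2 (.d k149
  k63 k53 14 11)))), (.s k96 k111 2 (.s k192 k144 11 (.s k197 k202 2 (.d k149 k53 k63 11 14)))), (.s
  k64 k127 6 (.s k79 k74 2 (.s k96 k111 2 (.d k112 k80 k90 3 6))))] .n) (.c k186 (.l (.s k170 k239
  10 (.s k64 k127 6 (.s k192 k128 7 (.d k96 k111 k144 2 11))))) .n)))))))

def s47_255_43 : T TT 256 :=
  (.f k207 k138 10 (.q k64 [(.s k74 k79 2 (.s k192 k128 7 (.s k197 k202 2 (.d k133 k5 k15 7 10)))),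
  (.s k79 k74 2 (.s k101 k117 3 (.s k90 k112 6 (.s k95 k80 2 (.d k127 k111 k106 3 6))))), (.s k101
  k117 3 (.s k48 k154 14 (.s k106 k127 6 (.s k192 k128 7 (.d k96 k111 k144 2 11)))))] (.c k35 (.q
  k39 [(.s k74 k79 2 (.s k192 k128 7 (.s k197 k202 2 (.d k133 k5 k15 7 10)))), (.s k79 k74 2 (.s
  k101 k117 3 (.s k90 k112 6 (.s k95 k80 2 (.d k127 k111 k106 3 6))))), (.s k101 k117 3 (.s k48 k154
  14 (.s k106 k127 6 (.s k192 k128 7 (.d k96 k111 k144 2 11)))))] .n) (.c k39 (.q k35 [(.s k74 k79 2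
  (.s k192 k128 7 (.s k197 k202 2 (.d k133 k5 k15 7 10)))), (.s k79 k74 2 (.s k101 k117 3 (.s k90
  k112 6 (.s k95 k80 2 (.d k127 k111 k106 3 6))))), (.s k101 k117 3 (.s k48 k154 14 (.s k106 k127 6
  (.s k192 k128 7 (.d k96 k111 k144 2 11)))))] .n) .n))))

def s47_255_44 : T TT 256 :=
  (.f k207 k138 10 (.q k80 [(.s k90 k95 2 (.s k101 k117 3 (.s k240 k160 11 (.s k218 k229 6 (.d k154
  k48 k26 14 7))))), (.s k101 k117 3 (.s k48 k154 14 (.s k16 k32 3 (.s k144 k208 7 (.s k96 k192 11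
  (.s k64 k112 3 (.d k106 k127 k111 6 2))))))), (.s k90 k95 2 (.s k240 k160 11 (.s k15 k165 14 (.s
  k5 k10 2 (.s k79 k143 7 (.s k74 k64 2 (.d k133 k197 k192 7 10)))))))] (.c k45 (.q k46 [(.s k90 k95
  2 (.s k101 k117 3 (.s k240 k160 11 (.s k218 k229 6 (.d k154 k48 k26 14 7))))), (.s k101 k117 3 (.s
  k48 k154 14 (.s k16 k32 3 (.s k144 k208 7 (.s k96 k192 11 (.s k64 k112 3 (.d k106 k127 k111 6
  2))))))), (.s k90 k95 2 (.s k240 k160 11 (.s k15 k165 14 (.s k5 k10 2 (.s k79 k143 7 (.s k74 k64 2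
  (.d k133 k197 k192 7 10)))))))] (.c k154 (.l (.s k90 k95 2 (.s k101 k117 3 (.s k79 k112 6 (.s k15
  k143 7 (.d k240 k165 k160 14 11)))))) (.c k240 (.l (.s k90 k95 2 (.s k101 k117 3 (.s k48 k154 14
  (.s k16 k32 3 (.s k112 k79 6 (.s k96 k64 3 (.d k144 k208 k192 7 11)))))))) .n))) (.c k46 (.q k45
  [(.s k90 k95 2 (.s k101 k117 3 (.s k240 k160 11 (.s k218 k229 6 (.d k154 k48 k26 14 7))))), (.s
  k101 k117 3 (.s k48 k154 14 (.s k16 k32 3 (.s k144 k208 7 (.s k96 k192 11 (.s k64 k112 3 (.d k106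
  k127 k111 6 2))))))), (.s k90 k95 2 (.s k240 k160 11 (.s k15 k165 14 (.s k5 k10 2 (.s k79 k143 7
  (.s k74 k64 2 (.d k133 k197 k192 7 10)))))))] (.c k154 (.l (.s k90 k95 2 (.s k101 k117 3 (.s k79
  k112 6 (.s k15 k143 7 (.d k240 k165 k160 14 11)))))) (.c k240 (.l (.s k90 k95 2 (.s k101 k117 3
  (.s k48 k154 14 (.s k16 k32 3 (.s k112 k79 6 (.s k96 k64 3 (.d k144 k208 k192 7 11)))))))) .n)))
  (.c k154 (.l (.s k90 k95 2 (.s k101 k117 3 (.s k79 k112 6 (.s k15 k143 7 (.d k240 k165 k160 14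
  11)))))) (.c k240 (.l (.s k90 k95 2 (.s k101 k117 3 (.s k48 k154 14 (.s k16 k32 3 (.s k112 k79 6
  (.s k96 k64 3 (.d k144 k208 k192 7 11)))))))) .n))))))

def s47_255_45 : T TT 256 :=
  (.f k207 k138 10 (.q k64 [(.s k74 k79 2 (.s k192 k128 7 (.s k197 k202 2 (.d k133 k5 k15 7 10)))),
  (.s k79 k74 2 (.s k101 k117 3 (.s k90 k112 6 (.s k95 k80 2 (.d k127 k111 k106 3 6))))), (.s k101
  k117 3 (.s k48 k154 14 (.s k106 k127 6 (.s k192 k128 7 (.d k96 k111 k144 2 11)))))] (.c k44 (.q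
  k46 [(.s k74 k79 2 (.s k192 k128 7 (.s k197 k202 2 (.d k133 k5 k15 7 10)))), (.s k79 k74 2 (.s
  k101 k117 3 (.s k90 k112 6 (.s k95 k80 2 (.d k127 k111 k106 3 6))))), (.s k101 k117 3 (.s k48 k154
  14 (.s k106 k127 6 (.s k192 k128 7 (.d k96 k111 k144 2 11)))))] .n) (.c k46 (.q k44 [(.s k74 k79 2
  (.s k192 k128 7 (.s k197 k202 2 (.d k133 k5 k15 7 10)))), (.s k79 k74 2 (.s k101 k117 3 (.s k90
  k112 6 (.s k95 k80 2 (.d k127 k111 k106 3 6))))), (.s k101 k117 3 (.s k48 k154 14 (.s k106 k127 6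
  (.s k192 k128 7 (.d k96 k111 k144 2 11)))))] .n) .n))))

def s47_255_46 : T TT 256 :=
  (.f k207 k138 10 (.q k64 [(.s k74 k79 2 (.s k192 k128 7 (.s k197 k202 2 (.d k133 k5 k15 7 10)))),
  (.s k79 k74 2 (.s k101 k117 3 (.s k90 k112 6 (.s k95 k80 2 (.d k127 k111 k106 3 6))))), (.s k101
  k117 3 (.s k48 k154 14 (.s k106 k127 6 (.s k192 k128 7 (.d k96 k111 k144 2 11)))))] (.c k44 (.q
  k45 [(.s k74 k79 2 (.s k192 k128 7 (.s k197 k202 2 (.d k133 k5 k15 7 10)))), (.s k79 k74 2 (.s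
  k101 k117 3 (.s k90 k112 6 (.s k95 k80 2 (.d k127 k111 k106 3 6))))), (.s k101 k117 3 (.s k48 k154
  14 (.s k106 k127 6 (.s k192 k128 7 (.d k96 k111 k144 2 11)))))] .n) (.c k45 (.q k44 [(.s k74 k79 2
  (.s k192 k128 7 (.s k197 k202 2 (.d k133 k5 k15 7 10)))), (.s k79 k74 2 (.s k101 k117 3 (.s k90
  k112 6 (.s k95 k80 2 (.d k127 k111 k106 3 6))))), (.s k101 k117 3 (.s k48 k154 14 (.s k106 k127 6
  (.s k192 k128 7 (.d k96 k111 k144 2 11)))))] .n) .n))))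

def s47_255_48 : T TT 256 :=
  (.q k1 [(.s k205 k137 9 (.s k253 k169 13 (.s k221 k237 3 (.s k153 k17 9 (.d k101 k117 k49 3
  13))))), (.s k3 k2 0 (.s k137 k205 9 (.s k70 k204 10 (.s k71 k68 0 (.d k207 k139 k138 9 10))))),
  (.s k3 k2 0 (.s k169 k253 13 (.s k207 k138 10 (.s k252 k86 14 (.s k237 k222 4 (.d k101 k117 k33 3
  9))))))] (.c k117 (.q k186 [(.s k3 k2 0 (.s k137 k205 9 (.s k70 k204 10 (.s k71 k68 0 (.d k207
  k139 k138 9 10))))), (.s k3 k2 0 (.s k138 k207 10 (.s k169 k253 13 (.s k252 k86 14 (.s k168 k84 13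
  (.d k170 k154 k171 3 0)))))), (.s k137 k205 9 (.s k138 k207 10 (.s k139 k136 0 (.s k154 k170 3 (.d
  k169 k184 k253 4 13)))))] (.c k138 (.l (.s k3 k2 0 (.s k137 k205 9 (.s k70 k204 10 (.s k68 k71 0
  (.s k102 k119 4 (.s k169 k253 13 (.d k86 k118 k252 3 14)))))))) (.c k207 (.l (.s k3 k2 0 (.s k137
  k205 9 (.s k169 k253 13 (.s k204 k70 10 (.s k68 k136 9 (.s k102 k119 4 (.d k153 k185 k51 3
  14)))))))) .n))) (.c k186 (.l (.s k117 k101 3 (.s k3 k2 0 (.s k137 k205 9 (.s k70 k204 10 (.s k71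
  k68 0 (.d k207 k139 k138 9 10))))))) .n)))

def s47_255_49 : T TT 256 :=
  (.q k3 [(.s k1 k2 0 (.s k207 k138 10 (.s k71 k139 9 (.s k70 k68 0 (.d k137 k205 k204 9 10))))),
  (.s k101 k117 3 (.s k207 k138 10 (.s k48 k154 14 (.s k33 k18 4 (.s k169 k237 9 (.d k1 k253 k2 13
  0)))))), (.s k101 k117 3 (.s k207 k138 10 (.s k71 k139 9 (.s k86 k116 4 (.s k84 k87 0 (.d k252
  k168 k169 13 14))))))] (.c k138 (.l (.s k1 k2 0 (.s k101 k117 3 (.s k137 k205 9 (.s k70 k204 10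
  (.s k71 k68 0 (.s k86 k116 4 (.d k169 k253 k252 13 14)))))))) (.c k207 (.l (.s k1 k2 0 (.s k137
  k205 9 (.s k169 k253 13 (.s k204 k70 10 (.s k68 k136 9 (.s k102 k119 4 (.d k153 k185 k51 3
  14)))))))) .n)))

def s47_255_50 : T TT 256 :=
  (.q k1 [(.s k3 k2 0 (.s k137 k205 9 (.s k70 k204 10 (.s k71 k68 0 (.d k207 k139 k138 9 10))))),
  (.s k101 k117 3 (.s k169 k253 13 (.s k33 k237 9 (.s k49 k17 3 (.d k205 k137 k153 9 13))))), (.s k3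
  k2 0 (.s k101 k117 3 (.s k169 k253 13 (.s k207 k138 10 (.s k48 k154 14 (.d k33 k18 k237 4 9))))))]
  .n)

def s47_255_51 : T TT 256 :=
  (.q k68 [(.s k70 k71 0 (.s k204 k136 9 (.s k3 k137 10 (.s k2 k1 0 (.d k138 k206 k207 9 10))))),
  (.s k71 k70 0 (.s k101 k117 3 (.s k86 k116 4 (.s k87 k84 0 (.d k119 k103 k102 3 4))))), (.s k101
  k117 3 (.s k204 k136 9 (.s k207 k138 10 (.s k48 k154 14 (.s k100 k152 13 (.d k102 k119 k103 4
  0))))))] (.c k119 (.q k187 [(.s k204 k136 9 (.s k207 k138 10 (.s k205 k206 0 (.s k137 k1 9 (.d k70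
  k71 k3 0 10))))), (.s k101 k117 3 (.s k136 k204 9 (.s k207 k138 10 (.s k48 k154 14 (.s k32 k16 3
  (.d k170 k153 k239 4 10)))))), (.s k71 k70 0 (.s k101 k117 3 (.s k116 k86 4 (.s k84 k100 3 (.s
  k207 k138 10 (.s k48 k154 14 (.d k252 k184 k168 9 13))))))), (.s k101 k117 3 (.s k136 k204 9 (.s
  k153 k170 4 (.s k205 k49 13 (.s k1 k137 9 (.s k221 k17 9 (.d k253 k237 k169 3 13)))))))] .n) (.c
  k187 (.l (.s k119 k102 4 (.s k71 k70 0 (.s k87 k103 3 (.s k86 k84 0 (.d k101 k117 k116 3 4))))))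
  .n)))

def s47_255_52 : T TT 256 :=
  (.q k1 [(.s k3 k2 0 (.s k137 k205 9 (.s k70 k204 10 (.s k71 k68 0 (.d k207 k139 k138 9 10))))),
  (.s k101 k117 3 (.s k169 k253 13 (.s k33 k237 9 (.s k49 k17 3 (.d k205 k137 k153 9 13))))), (.s k3
  k2 0 (.s k101 k117 3 (.s k169 k253 13 (.s k207 k138 10 (.s k48 k154 14 (.d k33 k18 k237 4 9))))))]
  .n)

def s47_255_53 : T TT 256 :=
  (.q k1 [(.s k3 k2 0 (.s k137 k205 9 (.s k70 k204 10 (.s k71 k68 0 (.d k207 k139 k138 9 10))))),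
  (.s k101 k117 3 (.s k169 k253 13 (.s k33 k237 9 (.s k49 k17 3 (.d k205 k137 k153 9 13))))), (.s k3
  k2 0 (.s k101 k117 3 (.s k169 k253 13 (.s k207 k138 10 (.s k48 k154 14 (.d k33 k18 k237 4 9))))))]
  .n)

def s47_255_54 : T TT 256 :=
  (.q k1 [(.s k3 k2 0 (.s k137 k205 9 (.s k70 k204 10 (.s k71 k68 0 (.d k207 k139 k138 9 10))))),
  (.s k101 k117 3 (.s k169 k253 13 (.s k33 k237 9 (.s k49 k17 3 (.d k205 k137 k153 9 13))))), (.s k3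
  k2 0 (.s k101 k117 3 (.s k169 k253 13 (.s k207 k138 10 (.s k48 k154 14 (.d k33 k18 k237 4 9))))))]
  .n)

def s47_255_55 : T TT 256 :=
  (.q k1 [(.s k3 k2 0 (.s k137 k205 9 (.s k70 k204 10 (.s k71 k68 0 (.d k207 k139 k138 9 10))))),
  (.s k101 k117 3 (.s k169 k253 13 (.s k33 k237 9 (.s k49 k17 3 (.d k205 k137 k153 9 13))))), (.s k3
  k2 0 (.s k101 k117 3 (.s k169 k253 13 (.s k207 k138 10 (.s k48 k154 14 (.d k33 k18 k237 4 9))))))]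
  .n)

def s47_255_56 : T TT 256 :=
  (.q k1 [(.s k3 k2 0 (.s k137 k205 9 (.s k70 k204 10 (.s k71 k68 0 (.d k207 k139 k138 9 10))))),
  (.s k101 k117 3 (.s k169 k253 13 (.s k33 k237 9 (.s k49 k17 3 (.d k205 k137 k153 9 13))))), (.s k3
  k2 0 (.s k101 k117 3 (.s k169 k253 13 (.s k207 k138 10 (.s k48 k154 14 (.d k33 k18 k237 4 9))))))]
  .n)

def s47_255_57 : T TT 256 :=
  (.q k1 [(.s k3 k2 0 (.s k137 k205 9 (.s k70 k204 10 (.s k71 k68 0 (.d k207 k139 k138 9 10))))),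
  (.s k101 k117 3 (.s k169 k253 13 (.s k33 k237 9 (.s k49 k17 3 (.d k205 k137 k153 9 13))))), (.s k3
  k2 0 (.s k101 k117 3 (.s k169 k253 13 (.s k207 k138 10 (.s k48 k154 14 (.d k33 k18 k237 4 9))))))]
  .n)

def s47_255_58 : T TT 256 :=
  (.q k1 [(.s k3 k2 0 (.s k137 k205 9 (.s k70 k204 10 (.s k71 k68 0 (.d k207 k139 k138 9 10))))),
  (.s k101 k117 3 (.s k169 k253 13 (.s k33 k237 9 (.s k49 k17 3 (.d k205 k137 k153 9 13))))), (.s k3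
  k2 0 (.s k101 k117 3 (.s k169 k253 13 (.s k207 k138 10 (.s k48 k154 14 (.d k33 k18 k237 4 9))))))]
  .n)

def s47_255_59 : T TT 256 :=
  (.q k1 [(.s k3 k2 0 (.s k137 k205 9 (.s k70 k204 10 (.s k71 k68 0 (.d k207 k139 k138 9 10))))),
  (.s k101 k117 3 (.s k169 k253 13 (.s k33 k237 9 (.s k49 k17 3 (.d k205 k137 k153 9 13))))), (.s k3
  k2 0 (.s k101 k117 3 (.s k169 k253 13 (.s k207 k138 10 (.s k48 k154 14 (.d k33 k18 k237 4 9))))))]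
  .n)

def s47_255_60 : T TT 256 :=
  (.f k207 k138 10 (.q k65 [(.s k73 k77 1 (.s k195 k130 8 (.s k199 k203 1 (.d k134 k4 k12 8 10)))),
  (.s k77 k73 1 (.s k101 k117 3 (.s k89 k113 5 (.s k93 k81 1 (.d k125 k109 k105 3 5))))), (.s k101
  k117 3 (.s k48 k154 14 (.s k195 k130 8 (.s k97 k146 12 (.d k105 k125 k109 5 1)))))] (.c k125 (.q
  k190 [(.s k195 k130 8 (.s k199 k203 1 (.s k134 k4 8 (.d k73 k77 k12 1 10)))), (.s k101 k117 3 (.s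
  k48 k154 14 (.s k32 k16 3 (.s k130 k195 8 (.d k170 k150 k239 5 10))))), (.s k77 k73 1 (.s k101
  k117 3 (.s k48 k154 14 (.s k113 k89 5 (.s k81 k97 3 (.d k243 k178 k162 8 12))))))] .n) (.c k190
  (.l (.s k125 k105 5 (.s k73 k77 1 (.s k195 k130 8 (.s k134 k12 10 (.d k199 k203 k4 1 8))))))
  .n))))

def s47_255_61 : T TT 256 :=
  (.q k1 [(.s k3 k2 0 (.s k207 k138 10 (.s k71 k139 9 (.s k70 k68 0 (.d k137 k205 k204 9 10))))),
  (.s k101 k117 3 (.s k169 k253 13 (.s k33 k237 9 (.s k49 k17 3 (.d k205 k137 k153 9 13))))), (.s k3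
  k2 0 (.s k101 k117 3 (.s k169 k253 13 (.s k207 k138 10 (.s k48 k154 14 (.d k33 k18 k237 4 9))))))]
  .n)

def s47_255_62 : T TT 256 :=
  (.q k1 [(.s k3 k2 0 (.s k137 k205 9 (.s k70 k204 10 (.s k71 k68 0 (.d k207 k139 k138 9 10))))),
  (.s k101 k117 3 (.s k169 k253 13 (.s k33 k237 9 (.s k49 k17 3 (.d k205 k137 k153 9 13))))), (.s k3
  k2 0 (.s k101 k117 3 (.s k169 k253 13 (.s k207 k138 10 (.s k48 k154 14 (.d k33 k18 k237 4 9))))))]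
  .n)

def s47_255_63 : T TT 256 :=
  (.f k207 k138 10 (.q k15 [(.s k5 k10 2 (.s k79 k143 7 (.s k74 k64 2 (.d k133 k197 k192 7 10)))),
  (.s k79 k143 7 (.s k101 k117 3 (.s k90 k112 6 (.s k80 k95 2 (.d k240 k160 k165 11 14))))), (.s k5
  k10 2 (.s k101 k117 3 (.s k48 k154 14 (.s k37 k26 6 (.d k165 k229 k245 7 11)))))] (.c k127 (.q
  k191 [(.s k5 k10 2 (.s k79 k143 7 (.s k74 k64 2 (.d k133 k197 k192 7 10)))), (.s k101 k117 3 (.s
  k48 k154 14 (.s k37 k26 6 (.s k165 k229 7 (.d k5 k10 k245 2 11))))), (.s k79 k143 7 (.s k101 k117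
  3 (.s k48 k154 14 (.s k37 k26 6 (.s k165 k229 7 (.d k90 k112 k240 6 14))))))] .n) (.c k191 (.q
  k127 [(.s k64 k106 6 (.d k79 k74 k143 2 7)), (.s k79 k143 7 (.s k95 k111 3 (.s k90 k80 2 (.d k101
  k117 k112 3 6)))), (.s k5 k10 2 (.s k64 k106 6 (.s k133 k197 7 (.d k192 k74 k128 10 7))))] .n)
  .n))))

def s47_255_64 : T TT 256 :=
  (.q k1 [(.s k3 k2 0 (.s k137 k205 9 (.s k138 k207 10 (.s k136 k139 0 (.d k204 k68 k70 9 10))))),
  (.s k101 k117 3 (.s k169 k253 13 (.s k33 k237 9 (.s k49 k17 3 (.d k205 k137 k153 9 13))))), (.s k3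
  k2 0 (.s k101 k117 3 (.s k169 k253 13 (.s k207 k138 10 (.s k48 k154 14 (.d k33 k18 k237 4 9))))))]
  .n)

def s47_255_65 : T TT 256 :=
  (.q k1 [(.s k3 k2 0 (.s k137 k205 9 (.s k70 k204 10 (.s k71 k68 0 (.d k207 k139 k138 9 10))))),
  (.s k101 k117 3 (.s k169 k253 13 (.s k33 k237 9 (.s k49 k17 3 (.d k205 k137 k153 9 13))))), (.s k3
  k2 0 (.s k101 k117 3 (.s k169 k253 13 (.s k207 k138 10 (.s k48 k154 14 (.d k33 k18 k237 4 9))))))]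
  .n)

def s47_255_66 : T TT 256 :=
  (.q k1 [(.s k3 k2 0 (.s k137 k205 9 (.s k70 k204 10 (.s k71 k68 0 (.d k207 k139 k138 9 10))))),
  (.s k101 k117 3 (.s k169 k253 13 (.s k33 k237 9 (.s k49 k17 3 (.d k205 k137 k153 9 13))))), (.s k3
  k2 0 (.s k101 k117 3 (.s k169 k253 13 (.s k207 k138 10 (.s k48 k154 14 (.d k33 k18 k237 4 9))))))]
  .n)

def s47_255_67 : T TT 256 :=
  (.q k1 [(.s k3 k2 0 (.s k137 k205 9 (.s k70 k204 10 (.s k71 k68 0 (.d k207 k139 k138 9 10))))),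
  (.s k101 k117 3 (.s k169 k253 13 (.s k33 k237 9 (.s k49 k17 3 (.d k205 k137 k153 9 13))))), (.s k3
  k2 0 (.s k101 k117 3 (.s k169 k253 13 (.s k207 k138 10 (.s k48 k154 14 (.d k33 k18 k237 4 9))))))]
  .n)

def s47_255_68 : T TT 256 :=
  (.q k1 [(.s k205 k137 9 (.s k253 k169 13 (.s k221 k237 3 (.s k153 k17 9 (.d k101 k117 k49 3
  13))))), (.s k3 k2 0 (.s k169 k253 13 (.s k207 k138 10 (.s k139 k71 9 (.s k154 k184 4 (.s k16 k223
  10 (.d k48 k32 k101 3 14))))))), (.s k3 k2 0 (.s k101 k117 3 (.s k205 k137 9 (.s k207 k138 10 (.s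
  k48 k154 14 (.s k33 k18 4 (.d k49 k17 k153 3 13)))))))] (.c k101 (.l (.s k3 k2 0 (.s k137 k205 9
  (.s k169 k253 13 (.s k153 k185 3 (.s k204 k70 10 (.s k51 k102 14 (.d k17 k221 k34 9 4)))))))) .n))

def s47_255_70 : T TT 256 :=
  (.q k4 [(.s k12 k8 1 (.s k134 k199 8 (.s k73 k195 10 (.s k77 k65 1 (.d k207 k142 k138 8 10))))),
  (.s k101 k117 3 (.s k166 k247 12 (.s k36 k231 8 (.s k52 k20 3 (.d k199 k134 k150 8 12))))), (.s
  k12 k8 1 (.s k101 k117 3 (.s k166 k247 12 (.s k207 k138 10 (.s k48 k154 14 (.d k36 k24 k231 5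
  8))))))] .n)

def s47_255_71 : T TT 256 :=
  (.q k1 [(.s k3 k2 0 (.s k137 k205 9 (.s k204 k70 10 (.s k136 k68 9 (.d k138 k139 k207 0 10))))),
  (.s k101 k117 3 (.s k169 k253 13 (.s k33 k237 9 (.s k49 k17 3 (.d k205 k137 k153 9 13))))), (.s k3
  k2 0 (.s k101 k117 3 (.s k169 k253 13 (.s k207 k138 10 (.s k48 k154 14 (.d k33 k18 k237 4 9))))))]
  .n)

def s47_255_72 : T TT 256 :=
  (.q k1 [(.s k3 k2 0 (.s k137 k205 9 (.s k70 k204 10 (.s k207 k138 10 (.d k71 k68 k139 0 9))))),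
  (.s k101 k117 3 (.s k169 k253 13 (.s k33 k237 9 (.s k49 k17 3 (.d k205 k137 k153 9 13))))), (.s k3
  k2 0 (.s k101 k117 3 (.s k169 k253 13 (.s k207 k138 10 (.s k48 k154 14 (.d k33 k18 k237 4 9))))))]
  .n)

def s47_255_73 : T TT 256 :=
  (.q k1 [(.s k3 k2 0 (.s k137 k205 9 (.s k70 k204 10 (.s k71 k68 0 (.d k207 k139 k138 9 10))))),
  (.s k101 k117 3 (.s k169 k253 13 (.s k33 k237 9 (.s k49 k17 3 (.d k205 k137 k153 9 13))))), (.s k3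
  k2 0 (.s k101 k117 3 (.s k169 k253 13 (.s k207 k138 10 (.s k48 k154 14 (.d k33 k18 k237 4 9))))))]
  .n)

def s47_255_74 : T TT 256 :=
  (.q k1 [(.s k3 k2 0 (.s k137 k205 9 (.s k70 k204 10 (.s k71 k68 0 (.d k207 k139 k138 9 10))))),
  (.s k101 k117 3 (.s k169 k253 13 (.s k33 k237 9 (.s k49 k17 3 (.d k205 k137 k153 9 13))))), (.s k3
  k2 0 (.s k101 k117 3 (.s k169 k253 13 (.s k207 k138 10 (.s k48 k154 14 (.d k33 k18 k237 4 9))))))]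
  .n)

def s47_255_75 : T TT 256 :=
  (.q k1 [(.s k3 k2 0 (.s k137 k205 9 (.s k70 k204 10 (.s k71 k68 0 (.d k207 k139 k138 9 10))))),
  (.s k101 k117 3 (.s k169 k253 13 (.s k33 k237 9 (.s k49 k17 3 (.d k205 k137 k153 9 13))))), (.s k3
  k2 0 (.s k101 k117 3 (.s k169 k253 13 (.s k207 k138 10 (.s k48 k154 14 (.d k33 k18 k237 4 9))))))]
  .n)

def s47_255_76 : T TT 256 :=
  (.q k1 [(.s k3 k2 0 (.s k137 k205 9 (.s k138 k207 10 (.s k136 k139 0 (.d k204 k68 k70 9 10))))),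
  (.s k101 k117 3 (.s k169 k253 13 (.s k33 k237 9 (.s k49 k17 3 (.d k205 k137 k153 9 13))))), (.s k3
  k2 0 (.s k101 k117 3 (.s k169 k253 13 (.s k207 k138 10 (.s k48 k154 14 (.d k33 k18 k237 4 9))))))]
  .n)

def s47_255_77 : T TT 256 :=
  (.q k1 [(.s k3 k2 0 (.s k207 k138 10 (.s k71 k139 9 (.s k70 k68 0 (.d k137 k205 k204 9 10))))),
  (.s k101 k117 3 (.s k169 k253 13 (.s k33 k237 9 (.s k49 k17 3 (.d k205 k137 k153 9 13))))), (.s k3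
  k2 0 (.s k101 k117 3 (.s k169 k253 13 (.s k207 k138 10 (.s k48 k154 14 (.d k33 k18 k237 4 9))))))]
  .n)

def s47_255_78 : T TT 256 :=
  (.q k1 [(.s k3 k2 0 (.s k137 k205 9 (.s k138 k207 10 (.s k136 k139 0 (.d k204 k68 k70 9 10))))),
  (.s k101 k117 3 (.s k169 k253 13 (.s k33 k237 9 (.s k49 k17 3 (.d k205 k137 k153 9 13))))), (.s k3
  k2 0 (.s k101 k117 3 (.s k169 k253 13 (.s k207 k138 10 (.s k48 k154 14 (.d k33 k18 k237 4 9))))))]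
  .n)

def s47_255_79 : T TT 256 :=
  (.q k1 [(.s k3 k2 0 (.s k137 k205 9 (.s k70 k204 10 (.s k71 k68 0 (.d k207 k139 k138 9 10))))),
  (.s k101 k117 3 (.s k169 k253 13 (.s k33 k237 9 (.s k49 k17 3 (.d k205 k137 k153 9 13))))), (.s k3
  k2 0 (.s k101 k117 3 (.s k169 k253 13 (.s k207 k138 10 (.s k48 k154 14 (.d k33 k18 k237 4 9))))))]
  .n)

def s47_255_80 : T TT 256 :=
  (.q k1 [(.s k3 k2 0 (.s k137 k205 9 (.s k70 k204 10 (.s k71 k68 0 (.d k207 k139 k138 9 10))))),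
  (.s k101 k117 3 (.s k169 k253 13 (.s k33 k237 9 (.s k49 k17 3 (.d k205 k137 k153 9 13))))), (.s k3
  k2 0 (.s k101 k117 3 (.s k169 k253 13 (.s k207 k138 10 (.s k48 k154 14 (.d k33 k18 k237 4 9))))))]
  .n)

def s47_255_81 : T TT 256 :=
  (.q k1 [(.s k3 k2 0 (.s k137 k205 9 (.s k70 k204 10 (.s k71 k68 0 (.d k207 k139 k138 9 10))))),
  (.s k101 k117 3 (.s k169 k253 13 (.s k33 k237 9 (.s k49 k17 3 (.d k205 k137 k153 9 13))))), (.s k3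
  k2 0 (.s k101 k117 3 (.s k169 k253 13 (.s k207 k138 10 (.s k48 k154 14 (.d k33 k18 k237 4 9))))))]
  .n)

def s47_255_82 : T TT 256 :=
  (.q k1 [(.s k3 k2 0 (.s k137 k205 9 (.s k70 k204 10 (.s k71 k68 0 (.d k207 k139 k138 9 10))))),
  (.s k101 k117 3 (.s k169 k253 13 (.s k33 k237 9 (.s k49 k17 3 (.d k205 k137 k153 9 13))))), (.s k3
  k2 0 (.s k101 k117 3 (.s k169 k253 13 (.s k207 k138 10 (.s k48 k154 14 (.d k33 k18 k237 4 9))))))]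
  .n)

def s47_255_83 : T TT 256 :=
  (.q k1 [(.s k3 k2 0 (.s k137 k205 9 (.s k70 k204 10 (.s k71 k68 0 (.d k207 k139 k138 9 10))))),
  (.s k101 k117 3 (.s k169 k253 13 (.s k33 k237 9 (.s k49 k17 3 (.d k205 k137 k153 9 13))))), (.s k3
  k2 0 (.s k101 k117 3 (.s k169 k253 13 (.s k207 k138 10 (.s k48 k154 14 (.d k33 k18 k237 4 9))))))]
  .n)

def s47_255_84 : T TT 256 :=
  (.q k1 [(.s k3 k2 0 (.s k137 k205 9 (.s k138 k207 10 (.s k136 k139 0 (.d k204 k68 k70 9 10))))),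
  (.s k101 k117 3 (.s k169 k253 13 (.s k33 k237 9 (.s k49 k17 3 (.d k205 k137 k153 9 13))))), (.s k3
  k2 0 (.s k101 k117 3 (.s k169 k253 13 (.s k207 k138 10 (.s k48 k154 14 (.d k33 k18 k237 4 9))))))]
  .n)

def s47_255_86 : T TT 256 :=
  (.q k1 [(.s k3 k2 0 (.s k137 k205 9 (.s k70 k204 10 (.s k71 k68 0 (.d k207 k139 k138 9 10))))),
  (.s k101 k117 3 (.s k205 k137 9 (.s k49 k153 13 (.s k33 k17 3 (.d k169 k237 k253 9 13))))), (.s k3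
  k2 0 (.s k101 k117 3 (.s k169 k253 13 (.s k207 k138 10 (.s k48 k154 14 (.d k33 k18 k237 4 9))))))]
  .n)

def s47_255_87 : T TT 256 :=
  (.q k3 [(.s k1 k2 0 (.s k137 k205 9 (.s k70 k204 10 (.s k71 k68 0 (.d k207 k139 k138 9 10))))),
  (.s k101 k117 3 (.s k207 k138 10 (.s k48 k154 14 (.s k33 k18 4 (.s k71 k139 9 (.s k86 k116 4 (.d
  k169 k237 k252 9 14))))))), (.s k1 k2 0 (.s k101 k117 3 (.s k169 k253 13 (.s k33 k237 9 (.s k49
  k17 3 (.d k205 k137 k153 9 13))))))] (.c k137 (.l (.s k1 k2 0 (.s k101 k117 3 (.s k169 k253 13 (.s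
  k33 k237 9 (.s k48 k18 4 (.d k207 k138 k154 10 14))))))) .n))

def s47_255_88 : T TT 256 :=
  (.q k1 [(.s k3 k2 0 (.s k137 k205 9 (.s k70 k204 10 (.s k71 k68 0 (.d k207 k139 k138 9 10))))),
  (.s k101 k117 3 (.s k169 k253 13 (.s k33 k237 9 (.s k49 k17 3 (.d k205 k137 k153 9 13))))), (.s k3
  k2 0 (.s k101 k117 3 (.s k169 k253 13 (.s k207 k138 10 (.s k48 k154 14 (.d k33 k18 k237 4 9))))))]
  .n)

def s47_255_89 : T TT 256 :=
  (.q k1 [(.s k3 k2 0 (.s k137 k205 9 (.s k70 k204 10 (.s k71 k68 0 (.d k207 k139 k138 9 10))))),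
  (.s k101 k117 3 (.s k169 k253 13 (.s k33 k237 9 (.s k49 k17 3 (.d k205 k137 k153 9 13))))), (.s k3
  k2 0 (.s k101 k117 3 (.s k169 k253 13 (.s k207 k138 10 (.s k48 k154 14 (.d k33 k18 k237 4 9))))))]
  .n)

def s47_255_90 : T TT 256 :=
  (.q k1 [(.s k3 k2 0 (.s k137 k205 9 (.s k70 k204 10 (.s k71 k68 0 (.d k207 k139 k138 9 10))))),
  (.s k101 k117 3 (.s k169 k253 13 (.s k33 k237 9 (.s k49 k17 3 (.d k205 k137 k153 9 13))))), (.s k3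
  k2 0 (.s k101 k117 3 (.s k169 k253 13 (.s k207 k138 10 (.s k48 k154 14 (.d k33 k18 k237 4 9))))))]
  .n)

def s47_255_91 : T TT 256 :=
  (.q k1 [(.s k3 k2 0 (.s k137 k205 9 (.s k70 k204 10 (.s k71 k68 0 (.d k207 k139 k138 9 10))))),
  (.s k101 k117 3 (.s k169 k253 13 (.s k33 k237 9 (.s k49 k17 3 (.d k205 k137 k153 9 13))))), (.s k3
  k2 0 (.s k101 k117 3 (.s k169 k253 13 (.s k207 k138 10 (.s k48 k154 14 (.d k33 k18 k237 4 9))))))]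
  .n)

def s47_255_92 : T TT 256 :=
  (.q k1 [(.s k3 k2 0 (.s k137 k205 9 (.s k70 k204 10 (.s k71 k68 0 (.d k207 k139 k138 9 10))))),
  (.s k101 k117 3 (.s k169 k253 13 (.s k33 k237 9 (.s k49 k17 3 (.d k205 k137 k153 9 13))))), (.s k3
  k2 0 (.s k101 k117 3 (.s k169 k253 13 (.s k207 k138 10 (.s k48 k154 14 (.d k33 k18 k237 4 9))))))]
  .n)

def s47_255_93 : T TT 256 :=
  (.q k12 [(.s k4 k8 1 (.s k134 k199 8 (.s k73 k195 10 (.s k77 k65 1 (.d k207 k142 k138 8 10))))),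
  (.s k101 k117 3 (.s k207 k138 10 (.s k48 k154 14 (.s k36 k24 5 (.s k77 k142 8 (.s k89 k113 5 (.d
  k166 k231 k243 8 14))))))), (.s k4 k8 1 (.s k101 k117 3 (.s k166 k247 12 (.s k36 k231 8 (.s k52
  k20 3 (.d k199 k134 k150 8 12))))))] (.c k134 (.l (.s k4 k8 1 (.s k101 k117 3 (.s k166 k247 12 (.s
  k36 k231 8 (.s k48 k24 5 (.d k207 k138 k154 10 14))))))) .n))

def s47_255_94 : T TT 256 :=
  (.q k1 [(.s k3 k2 0 (.s k137 k205 9 (.s k70 k204 10 (.s k71 k68 0 (.d k207 k139 k138 9 10))))),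
  (.s k101 k117 3 (.s k169 k253 13 (.s k33 k237 9 (.s k49 k17 3 (.d k205 k137 k153 9 13))))), (.s k3
  k2 0 (.s k101 k117 3 (.s k169 k253 13 (.s k207 k138 10 (.s k48 k154 14 (.d k33 k18 k237 4 9))))))]
  .n)

def s47_255_95 : T TT 256 :=
  (.q k15 [(.s k5 k10 2 (.s k133 k197 7 (.s k74 k192 10 (.s k79 k64 2 (.d k207 k143 k138 7 10))))),
  (.s k101 k117 3 (.s k207 k138 10 (.s k48 k154 14 (.s k37 k26 6 (.s k79 k143 7 (.s k90 k112 6 (.d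
  k165 k229 k240 7 14))))))), (.s k5 k10 2 (.s k101 k117 3 (.s k165 k245 11 (.s k37 k229 7 (.s k53
  k21 3 (.d k197 k133 k149 7 11))))))] (.c k133 (.l (.s k5 k10 2 (.s k101 k117 3 (.s k165 k245 11
  (.s k37 k229 7 (.s k48 k26 6 (.d k207 k138 k154 10 14))))))) .n))

def s47_255_96 : T TT 256 :=
  (.q k1 [(.s k3 k2 0 (.s k137 k205 9 (.s k70 k204 10 (.s k71 k68 0 (.d k207 k139 k138 9 10))))),
  (.s k101 k117 3 (.s k169 k253 13 (.s k33 k237 9 (.s k49 k17 3 (.d k205 k137 k153 9 13))))), (.s k3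
  k2 0 (.s k101 k117 3 (.s k169 k253 13 (.s k207 k138 10 (.s k48 k154 14 (.d k33 k18 k237 4 9))))))]
  .n)

def s47_255_97 : T TT 256 :=
  (.q k1 [(.s k3 k2 0 (.s k137 k205 9 (.s k70 k204 10 (.s k71 k68 0 (.d k207 k139 k138 9 10))))),
  (.s k101 k117 3 (.s k169 k253 13 (.s k33 k237 9 (.s k49 k17 3 (.d k205 k137 k153 9 13))))), (.s k3
  k2 0 (.s k101 k117 3 (.s k169 k253 13 (.s k207 k138 10 (.s k48 k154 14 (.d k33 k18 k237 4 9))))))]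
  .n)

def s47_255_98 : T TT 256 :=
  (.q k1 [(.s k3 k2 0 (.s k137 k205 9 (.s k70 k204 10 (.s k71 k68 0 (.d k207 k139 k138 9 10))))),
  (.s k101 k117 3 (.s k169 k253 13 (.s k33 k237 9 (.s k49 k17 3 (.d k205 k137 k153 9 13))))), (.s k3
  k2 0 (.s k101 k117 3 (.s k169 k253 13 (.s k207 k138 10 (.s k48 k154 14 (.d k33 k18 k237 4 9))))))]
  .n)

def s47_255_99 : T TT 256 :=
  (.q k1 [(.s k3 k2 0 (.s k137 k205 9 (.s k70 k204 10 (.s k71 k68 0 (.d k207 k139 k138 9 10))))),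
  (.s k101 k117 3 (.s k169 k253 13 (.s k33 k237 9 (.s k49 k17 3 (.d k205 k137 k153 9 13))))), (.s k3
  k2 0 (.s k101 k117 3 (.s k169 k253 13 (.s k207 k138 10 (.s k48 k154 14 (.d k33 k18 k237 4 9))))))]
  .n)

def s47_255_100 : T TT 256 :=
  (.q k1 [(.s k3 k2 0 (.s k137 k205 9 (.s k138 k207 10 (.s k136 k139 0 (.d k204 k68 k70 9 10))))),
  (.s k101 k117 3 (.s k169 k253 13 (.s k33 k237 9 (.s k49 k17 3 (.d k205 k137 k153 9 13))))), (.s k3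
  k2 0 (.s k101 k117 3 (.s k169 k253 13 (.s k207 k138 10 (.s k48 k154 14 (.d k33 k18 k237 4 9))))))]
  .n)

def s47_255_101 : T TT 256 :=
  (.q k3 [(.s k1 k2 0 (.s k207 k138 10 (.s k71 k139 9 (.s k70 k68 0 (.d k137 k205 k204 9 10))))),
  (.s k1 k2 0 (.s k137 k205 9 (.s k169 k253 13 (.s k153 k185 3 (.s k204 k70 10 (.s k51 k102 14 (.d
  k17 k221 k34 9 4)))))))] (.c k1 (.q k4 [(.s k12 k8 1 (.s k207 k138 10 (.s k77 k142 8 (.s k73 k65 1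
  (.d k134 k199 k195 8 10))))), (.s k12 k8 1 (.s k6 k9 2 (.s k166 k247 12 (.s k86 k246 11 (.s k84
  k87 0 (.d k252 k168 k169 13 14)))))), (.s k199 k134 8 (.s k207 k138 10 (.s k71 k139 9 (.s k7 k135
  7 (.s k5 k6 0 (.d k15 k11 k10 1 2))))))] .n) (.c k2 (.q k4 [(.s k12 k8 1 (.s k207 k138 10 (.s k77
  k142 8 (.s k73 k65 1 (.d k134 k199 k195 8 10))))), (.s k12 k8 1 (.s k6 k9 2 (.s k166 k247 12 (.s
  k86 k246 11 (.s k84 k87 0 (.d k252 k168 k169 13 14)))))), (.s k199 k134 8 (.s k207 k138 10 (.s k71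
  k139 9 (.s k7 k135 7 (.s k5 k6 0 (.d k15 k10 k11 2 1))))))] .n) (.c k70 (.q k4 [(.s k2 k1 0 (.s
  k12 k8 1 (.s k6 k9 2 (.s k10 k14 1 (.d k5 k7 k15 0 2))))), (.s k12 k8 1 (.s k134 k199 8 (.s k73
  k195 10 (.s k77 k65 1 (.d k207 k142 k138 8 10))))), (.s k199 k134 8 (.s k207 k138 10 (.s k71 k139
  9 (.s k7 k135 7 (.s k15 k11 1 (.d k5 k6 k10 0 2))))))] .n) (.c k137 (.f k2 k1 0 (.l (.s k138 k207
  10 (.s k70 k206 9 (.s k68 k71 0 (.s k102 k119 4 (.s k86 k118 3 (.s k252 k169 14 (.d k84 k87 k168 0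
  13))))))))) (.c k138 (.l (.s k1 k2 0 (.s k137 k205 9 (.s k70 k204 10 (.s k68 k71 0 (.s k102 k119 4
  (.s k86 k118 3 (.d k169 k253 k252 13 14)))))))) (.c k204 (.q k221 [(.s k1 k2 0 (.s k205 k137 9 (.d
  k253 k237 k169 3 13))), (.s k17 k153 9 (.s k51 k34 4 (.s k19 k35 3 (.s k207 k138 10 (.s k155 k103
  13 (.s k223 k87 9 (.d k16 k18 k154 0 10)))))))] (.c k205 (.l (.s k207 k138 10 (.s k71 k139 9 (.s
  k68 k70 0 (.s k119 k102 4 (.s k103 k87 3 (.s k51 k155 13 (.d k17 k153 k34 9 4)))))))) .n)) (.c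
  k205 (.l (.s k2 k1 0 (.s k138 k207 10 (.s k70 k206 9 (.s k204 k137 10 (.d k68 k71 k136 0 9))))))
  (.c k206 (.l (.s k1 k2 0 (.s k137 k205 9 (.s k70 k204 10 (.s k207 k138 10 (.d k71 k68 k139 0
  9)))))) .n)))))))))

def s47_255_102 : T TT 256 :=
  (.q k1 [(.s k3 k2 0 (.s k137 k205 9 (.s k138 k207 10 (.s k136 k139 0 (.d k204 k68 k70 9 10))))),
  (.s k101 k117 3 (.s k169 k253 13 (.s k33 k237 9 (.s k49 k17 3 (.d k205 k137 k153 9 13))))), (.s k3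
  k2 0 (.s k101 k117 3 (.s k169 k253 13 (.s k207 k138 10 (.s k48 k154 14 (.d k33 k18 k237 4 9))))))]
  .n)

def s47_255_103 : T TT 256 :=
  (.q k1 [(.s k3 k2 0 (.s k137 k205 9 (.s k70 k204 10 (.s k71 k68 0 (.d k207 k139 k138 9 10))))),
  (.s k101 k117 3 (.s k169 k253 13 (.s k33 k237 9 (.s k49 k17 3 (.d k205 k137 k153 9 13))))), (.s k3
  k2 0 (.s k101 k117 3 (.s k169 k253 13 (.s k207 k138 10 (.s k48 k154 14 (.d k33 k18 k237 4 9))))))]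
  .n)

def s47_255_104 : T TT 256 :=
  (.q k1 [(.s k3 k2 0 (.s k137 k205 9 (.s k70 k204 10 (.s k71 k68 0 (.d k207 k139 k138 9 10))))),
  (.s k101 k117 3 (.s k169 k253 13 (.s k33 k237 9 (.s k49 k17 3 (.d k205 k137 k153 9 13))))), (.s k3
  k2 0 (.s k101 k117 3 (.s k169 k253 13 (.s k207 k138 10 (.s k48 k154 14 (.d k33 k18 k237 4 9))))))]
  .n)

def s47_255_105 : T TT 256 :=
  (.q k1 [(.s k3 k2 0 (.s k137 k205 9 (.s k70 k204 10 (.s k71 k68 0 (.d k207 k139 k138 9 10))))),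
  (.s k101 k117 3 (.s k169 k253 13 (.s k33 k237 9 (.s k49 k17 3 (.d k205 k137 k153 9 13))))), (.s k3
  k2 0 (.s k101 k117 3 (.s k169 k253 13 (.s k207 k138 10 (.s k48 k154 14 (.d k33 k18 k237 4 9))))))]
  .n)

def s47_255_106 : T TT 256 :=
  (.q k165 [(.s k5 k245 11 (.s k101 k117 3 (.s k37 k229 7 (.s k53 k21 3 (.d k197 k133 k149 7
  11))))), (.s k101 k117 3 (.s k207 k138 10 (.s k229 k37 7 (.s k240 k218 6 (.s k80 k160 11 (.d k90
  k95 k15 2 14)))))), (.s k5 k245 11 (.s k15 k10 2 (.s k133 k197 7 (.s k74 k192 10 (.s k79 k64 2 (.d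
  k207 k143 k138 7 10))))))] (.c k229 (.l (.s k5 k245 11 (.s k15 k10 2 (.s k101 k117 3 (.s k207 k138
  10 (.s k79 k143 7 (.d k90 k240 k112 14 6))))))) (.c k240 (.l (.s k101 k117 3 (.s k37 k229 7 (.s
  k207 k138 10 (.s k48 k154 14 (.s k15 k26 6 (.d k5 k10 k245 2 11))))))) .n)))

def s47_255_107 : T TT 256 :=
  (.f k207 k138 10 (.q k64 [(.s k74 k79 2 (.s k192 k128 7 (.s k197 k202 2 (.d k133 k5 k15 7 10)))),
  (.s k79 k74 2 (.s k101 k117 3 (.s k90 k112 6 (.s k95 k80 2 (.d k127 k111 k106 3 6))))), (.s k101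
  k117 3 (.s k48 k154 14 (.s k106 k127 6 (.s k192 k128 7 (.d k96 k111 k144 2 11)))))] (.c k167 (.q
  k227 [(.s k74 k79 2 (.s k192 k128 7 (.s k197 k202 2 (.d k133 k5 k15 7 10)))), (.s k79 k74 2 (.s
  k101 k117 3 (.s k90 k112 6 (.s k95 k80 2 (.d k127 k111 k106 3 6))))), (.s k101 k117 3 (.s k48 k154
  14 (.s k106 k127 6 (.s k192 k128 7 (.d k96 k111 k144 2 11)))))] .n) (.c k227 (.q k167 [(.s k74 k79
  2 (.s k192 k128 7 (.s k197 k202 2 (.d k133 k5 k15 7 10)))), (.s k79 k74 2 (.s k101 k117 3 (.s k90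
  k112 6 (.s k95 k80 2 (.d k127 k111 k106 3 6))))), (.s k101 k117 3 (.s k48 k154 14 (.s k106 k127 6
  (.s k192 k128 7 (.d k96 k111 k144 2 11)))))] .n) .n))))

def s47_255_108 : T TT 256 :=
  (.q k1 [(.s k3 k2 0 (.s k137 k205 9 (.s k138 k207 10 (.s k136 k139 0 (.d k204 k68 k70 9 10))))),
  (.s k101 k117 3 (.s k169 k253 13 (.s k33 k237 9 (.s k49 k17 3 (.d k205 k137 k153 9 13))))), (.s k3
  k2 0 (.s k101 k117 3 (.s k169 k253 13 (.s k207 k138 10 (.s k48 k154 14 (.d k33 k18 k237 4 9))))))]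
  .n)

def s47_255_109 : T TT 256 :=
  (.q k1 [(.s k3 k2 0 (.s k207 k138 10 (.s k71 k139 9 (.s k70 k68 0 (.d k137 k205 k204 9 10))))),
  (.s k101 k117 3 (.s k169 k253 13 (.s k33 k237 9 (.s k49 k17 3 (.d k205 k137 k153 9 13))))), (.s k3
  k2 0 (.s k101 k117 3 (.s k169 k253 13 (.s k207 k138 10 (.s k48 k154 14 (.d k33 k18 k237 4 9))))))]
  .n)

def s47_255_110 : T TT 256 :=
  (.f k207 k138 10 (.q k64 [(.s k74 k79 2 (.s k192 k128 7 (.s k197 k202 2 (.d k133 k5 k15 7 10)))),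
  (.s k79 k74 2 (.s k101 k117 3 (.s k90 k112 6 (.s k95 k80 2 (.d k127 k111 k106 3 6))))), (.s k101
  k117 3 (.s k48 k154 14 (.s k106 k127 6 (.s k192 k128 7 (.d k96 k111 k144 2 11)))))] (.c k173 (.q
  k236 [(.s k74 k79 2 (.s k192 k128 7 (.s k197 k202 2 (.d k133 k5 k15 7 10)))), (.s k79 k74 2 (.s
  k101 k117 3 (.s k90 k112 6 (.s k95 k80 2 (.d k127 k111 k106 3 6))))), (.s k101 k117 3 (.s k48 k154
  14 (.s k106 k127 6 (.s k192 k128 7 (.d k96 k111 k144 2 11)))))] .n) (.c k236 (.q k173 [(.s k74 k79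
  2 (.s k192 k128 7 (.s k197 k202 2 (.d k133 k5 k15 7 10)))), (.s k79 k74 2 (.s k101 k117 3 (.s k90
  k112 6 (.s k95 k80 2 (.d k127 k111 k106 3 6))))), (.s k101 k117 3 (.s k48 k154 14 (.s k106 k127 6
  (.s k192 k128 7 (.d k96 k111 k144 2 11)))))] .n) .n))))

def s47_255_111 : T TT 256 :=
  (.f k207 k138 10 (.q k15 [(.s k5 k10 2 (.s k79 k143 7 (.s k74 k64 2 (.d k133 k197 k192 7 10)))),
  (.s k79 k143 7 (.s k101 k117 3 (.s k90 k112 6 (.s k80 k95 2 (.d k240 k160 k165 11 14))))), (.s k5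
  k10 2 (.s k101 k117 3 (.s k48 k154 14 (.s k37 k26 6 (.d k165 k229 k245 7 11)))))] (.c k175 (.q
  k239 [(.s k101 k117 3 (.s k48 k154 14 (.d k32 k170 k16 10 3))), (.s k5 k10 2 (.s k79 k143 7 (.s
  k74 k64 2 (.d k133 k197 k192 7 10))))] .n) (.c k239 (.q k175 [(.s k5 k10 2 (.s k79 k143 7 (.s k74
  k64 2 (.d k133 k197 k192 7 10)))), (.s k79 k143 7 (.s k101 k117 3 (.s k90 k112 6 (.s k80 k95 2 (.d
  k240 k160 k165 11 14))))), (.s k5 k10 2 (.s k165 k245 11 (.s k160 k170 2 (.d k240 k90 k80 14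
  11))))] .n) .n))))

def s47_255_112 : T TT 256 :=
  (.q k1 [(.s k3 k2 0 (.s k137 k205 9 (.s k70 k204 10 (.s k71 k68 0 (.d k207 k139 k138 9 10))))),
  (.s k101 k117 3 (.s k169 k253 13 (.s k33 k237 9 (.s k49 k17 3 (.d k205 k137 k153 9 13))))), (.s k3
  k2 0 (.s k101 k117 3 (.s k169 k253 13 (.s k207 k138 10 (.s k48 k154 14 (.d k33 k18 k237 4 9))))))]
  .n)

def s47_255_113 : T TT 256 :=
  (.q k1 [(.s k3 k2 0 (.s k137 k205 9 (.s k70 k204 10 (.s k71 k68 0 (.d k207 k139 k138 9 10))))),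
  (.s k101 k117 3 (.s k169 k253 13 (.s k33 k237 9 (.s k49 k17 3 (.d k205 k137 k153 9 13))))), (.s k3
  k2 0 (.s k101 k117 3 (.s k169 k253 13 (.s k207 k138 10 (.s k48 k154 14 (.d k33 k18 k237 4 9))))))]
  .n)

def s47_255_114 : T TT 256 :=
  (.q k1 [(.s k3 k2 0 (.s k137 k205 9 (.s k70 k204 10 (.s k71 k68 0 (.d k207 k139 k138 9 10))))),
  (.s k101 k117 3 (.s k169 k253 13 (.s k33 k237 9 (.s k49 k17 3 (.d k205 k137 k153 9 13))))), (.s k3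
  k2 0 (.s k101 k117 3 (.s k169 k253 13 (.s k207 k138 10 (.s k48 k154 14 (.d k33 k18 k237 4 9))))))]
  .n)

def s47_255_115 : T TT 256 :=
  (.q k1 [(.s k3 k2 0 (.s k137 k205 9 (.s k70 k204 10 (.s k71 k68 0 (.d k207 k139 k138 9 10))))),
  (.s k101 k117 3 (.s k169 k253 13 (.s k33 k237 9 (.s k49 k17 3 (.d k205 k137 k153 9 13))))), (.s k3
  k2 0 (.s k101 k117 3 (.s k169 k253 13 (.s k207 k138 10 (.s k48 k154 14 (.d k33 k18 k237 4 9))))))]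
  .n)

def s47_255_116 : T TT 256 :=
  (.q k1 [(.s k3 k2 0 (.s k137 k205 9 (.s k138 k207 10 (.s k136 k139 0 (.d k204 k68 k70 9 10))))),
  (.s k101 k117 3 (.s k169 k253 13 (.s k33 k237 9 (.s k49 k17 3 (.d k205 k137 k153 9 13))))), (.s k3
  k2 0 (.s k101 k117 3 (.s k169 k253 13 (.s k207 k138 10 (.s k48 k154 14 (.d k33 k18 k237 4 9))))))]
  .n)

def s47_255_117 : T TT 256 :=
  (.f k207 k138 10 (.q k48 [(.s k154 k101 14 (.d k16 k32 k223 3 10))] (.c k16 (.q k1 [(.s k3 k2 0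
  (.s k71 k139 9 (.s k70 k68 0 (.d k137 k205 k204 9 10)))), (.s k101 k154 14 (.s k169 k253 13 (.s
  k33 k237 9 (.s k49 k17 3 (.d k205 k137 k153 9 13))))), (.s k3 k2 0 (.s k33 k18 4 (.s k101 k154 14
  (.d k169 k237 k253 9 13))))] .n) (.c k32 (.q k37 [(.s k15 k26 6 (.s k101 k154 14 (.s k165 k229 7
  (.d k5 k10 k245 2 11)))), (.s k15 k26 6 (.s k5 k10 2 (.s k79 k143 7 (.s k74 k64 2 (.d k133 k197
  k192 7 10))))), (.s k101 k154 14 (.s k165 k229 7 (.s k5 k245 11 (.s k53 k21 3 (.d k197 k133 k149 7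
  11)))))] (.c k5 (.l (.s k15 k26 6 (.s k79 k143 7 (.s k101 k154 14 (.s k90 k112 6 (.d k165 k229
  k240 7 14)))))) .n)) (.c k101 (.q k1 [(.s k3 k2 0 (.s k71 k139 9 (.s k70 k68 0 (.d k137 k205 k204
  9 10)))), (.s k16 k32 3 (.s k154 k223 10 (.s k169 k253 13 (.s k139 k184 4 (.s k3 k71 9 (.s k18 k33
  4 (.d k86 k252 k222 14 9))))))), (.s k16 k32 3 (.s k205 k137 9 (.s k204 k206 0 (.s k136 k68 9 (.s
  k152 k100 13 (.s k84 k220 9 (.d k168 k184 k252 3 13)))))))] (.c k139 (.l (.s k3 k2 0 (.s k32 k16 3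
  (.s k33 k18 4 (.s k17 k49 3 (.d k34 k35 k51 0 4)))))) .n)) (.c k154 (.f k32 k16 3 (.q k3 [(.s k1
  k2 0 (.s k71 k139 9 (.s k70 k68 0 (.d k137 k205 k204 9 10)))), (.s k33 k18 4 (.s k34 k35 0 (.s k17
  k51 4 (.d k1 k2 k49 0 3))))] (.c k1 (.l (.s k33 k18 4 (.s k34 k35 0 (.s k71 k139 9 (.s k68 k70 0
  (.s k119 k102 4 (.s k103 k87 3 (.d k51 k17 k155 4 13)))))))) (.c k2 (.l (.s k33 k18 4 (.s k34 k35
  0 (.s k17 k51 4 (.s k1 k49 3 (.s k71 k139 9 (.s k70 k68 0 (.d k137 k205 k204 9 10)))))))) (.c k170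
  (.q k186 [(.s k71 k139 9 (.s k70 k68 0 (.s k137 k204 10 (.d k1 k2 k205 0 9)))), (.s k33 k18 4 (.s
  k34 k35 0 (.s k17 k51 4 (.d k1 k2 k49 0 3))))] (.c k1 (.l (.s k33 k18 4 (.s k34 k35 0 (.s k71 k139
  9 (.s k68 k70 0 (.s k119 k102 4 (.s k103 k87 3 (.d k51 k17 k155 4 13)))))))) (.c k2 (.l (.s k33
  k18 4 (.s k34 k35 0 (.s k17 k51 4 (.s k1 k49 3 (.s k71 k139 9 (.s k70 k68 0 (.d k137 k205 k204 9
  10)))))))) .n))) (.c k186 (.q k170 [(.s k1 k2 0 (.s k71 k139 9 (.s k70 k68 0 (.d k137 k205 k204 9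
  10)))), (.s k1 k2 0 (.s k33 k18 4 (.s k17 k49 3 (.d k34 k35 k51 0 4)))), (.s k33 k18 4 (.s k34 k35
  0 (.s k71 k139 9 (.s k102 k238 9 (.d k68 k70 k119 0 4)))))] (.c k70 (.l (.s k2 k1 0 (.s k71 k139 9
  (.s k86 k254 13 (.d k101 k116 k239 4 10))))) .n)) .n)))))) (.c k223 (.q k1 [(.s k3 k2 0 (.s k71
  k139 9 (.s k70 k68 0 (.d k137 k205 k204 9 10)))), (.s k101 k154 14 (.s k169 k253 13 (.s k33 k237 9
  (.s k49 k17 3 (.d k205 k137 k153 9 13))))), (.s k3 k2 0 (.s k33 k18 4 (.s k101 k154 14 (.d k169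
  k237 k253 9 13))))] .n) .n)))))))

def s47_255_118 : T TT 256 :=
  (.q k1 [(.s k3 k2 0 (.s k137 k205 9 (.s k70 k204 10 (.s k71 k68 0 (.d k207 k139 k138 9 10))))),
  (.s k101 k117 3 (.s k169 k253 13 (.s k33 k237 9 (.s k49 k17 3 (.d k205 k137 k153 9 13))))), (.s k3
  k2 0 (.s k101 k117 3 (.s k169 k253 13 (.s k207 k138 10 (.s k48 k154 14 (.d k33 k18 k237 4 9))))))]
  .n)

def s47_255_119 : T TT 256 :=
  (.f k207 k138 10 (.q k51 [(.s k17 k34 4 (.s k101 k117 3 (.s k103 k155 13 (.s k102 k100 0 (.d k153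
  k221 k204 9 14))))), (.s k17 k34 4 (.s k153 k221 9 (.s k204 k102 14 (.s k68 k136 9 (.s k70 k71 0
  (.s k137 k3 10 (.d k205 k206 k1 0 9))))))), (.s k17 k34 4 (.s k101 k117 3 (.s k48 k154 14 (.s k16
  k32 3 (.s k18 k19 0 (.s k33 k3 4 (.d k49 k50 k1 0 3))))))), (.s k101 k117 3 (.s k48 k154 14 (.s
  k49 k50 0 (.s k103 k155 13 (.s k102 k100 0 (.d k153 k205 k204 13 14))))))] .n))

def s47_255_120 : T TT 256 :=
  (.q k1 [(.s k3 k2 0 (.s k137 k205 9 (.s k70 k204 10 (.s k71 k68 0 (.d k207 k139 k138 9 10))))),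
  (.s k101 k117 3 (.s k169 k253 13 (.s k33 k237 9 (.s k49 k17 3 (.d k205 k137 k153 9 13))))), (.s k3
  k2 0 (.s k101 k117 3 (.s k169 k253 13 (.s k207 k138 10 (.s k48 k154 14 (.d k33 k18 k237 4 9))))))]
  .n)

def s47_255_121 : T TT 256 :=
  (.q k1 [(.s k3 k2 0 (.s k137 k205 9 (.s k70 k204 10 (.s k71 k68 0 (.d k207 k139 k138 9 10))))),
  (.s k101 k117 3 (.s k169 k253 13 (.s k33 k237 9 (.s k49 k17 3 (.d k205 k137 k153 9 13))))), (.s k3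
  k2 0 (.s k101 k117 3 (.s k169 k253 13 (.s k207 k138 10 (.s k48 k154 14 (.d k33 k18 k237 4 9))))))]
  .n)

def s47_255_122 : T TT 256 :=
  (.q k1 [(.s k3 k2 0 (.s k137 k205 9 (.s k70 k204 10 (.s k71 k68 0 (.d k207 k139 k138 9 10))))),
  (.s k101 k117 3 (.s k169 k253 13 (.s k33 k237 9 (.s k49 k17 3 (.d k205 k137 k153 9 13))))), (.s k3
  k2 0 (.s k101 k117 3 (.s k169 k253 13 (.s k207 k138 10 (.s k48 k154 14 (.d k33 k18 k237 4 9))))))]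
  .n)

def s47_255_123 : T TT 256 :=
  (.q k1 [(.s k3 k2 0 (.s k137 k205 9 (.s k70 k204 10 (.s k71 k68 0 (.d k207 k139 k138 9 10))))),
  (.s k101 k117 3 (.s k169 k253 13 (.s k33 k237 9 (.s k49 k17 3 (.d k205 k137 k153 9 13))))), (.s k3
  k2 0 (.s k101 k117 3 (.s k169 k253 13 (.s k207 k138 10 (.s k48 k154 14 (.d k33 k18 k237 4 9))))))]
  .n)

def s47_255_124 : T TT 256 :=
  (.q k1 [(.s k3 k2 0 (.s k137 k205 9 (.s k70 k204 10 (.s k71 k68 0 (.d k207 k139 k138 9 10))))),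
  (.s k101 k117 3 (.s k169 k253 13 (.s k33 k237 9 (.s k49 k17 3 (.d k205 k137 k153 9 13))))), (.s k3
  k2 0 (.s k101 k117 3 (.s k169 k253 13 (.s k207 k138 10 (.s k48 k154 14 (.d k33 k18 k237 4 9))))))]
  .n)

def s47_255_125 : T TT 256 :=
  (.f k207 k138 10 (.q k60 [(.s k20 k40 5 (.s k101 k117 3 (.s k109 k158 12 (.s k105 k97 1 (.d k150
  k215 k195 8 14))))), (.s k20 k40 5 (.s k150 k215 8 (.s k195 k105 14 (.s k65 k130 8 (.s k73 k77 1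
  (.s k134 k12 10 (.d k199 k203 k4 1 8))))))), (.s k20 k40 5 (.s k101 k117 3 (.s k48 k154 14 (.s k16
  k32 3 (.s k24 k28 1 (.s k36 k12 5 (.d k52 k56 k4 1 3))))))), (.s k101 k117 3 (.s k48 k154 14 (.s
  k52 k56 1 (.s k109 k158 12 (.s k105 k97 1 (.d k150 k199 k195 12 14))))))] .n))

def s47_255_126 : T TT 256 :=
  (.q k1 [(.s k3 k2 0 (.s k137 k205 9 (.s k70 k204 10 (.s k71 k68 0 (.d k207 k139 k138 9 10))))),
  (.s k101 k117 3 (.s k169 k253 13 (.s k33 k237 9 (.s k49 k17 3 (.d k205 k137 k153 9 13))))), (.s k3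
  k2 0 (.s k101 k117 3 (.s k169 k253 13 (.s k207 k138 10 (.s k48 k154 14 (.d k33 k18 k237 4 9))))))]
  .n)

def s47_255_127 : T TT 256 :=
  (.f k207 k138 10 (.q k63 [(.s k101 k117 3 (.s k48 k154 14 (.s k53 k58 2 (.s k149 k197 11 (.d k21
  k42 k213 6 7))))), (.s k21 k42 6 (.s k149 k213 7 (.s k159 k111 11 (.s k154 k144 2 (.s k16 k223 10
  (.d k48 k32 k101 3 14)))))), (.s k101 k117 3 (.s k48 k154 14 (.s k53 k58 2 (.s k111 k159 11 (.s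
  k106 k96 2 (.d k149 k197 k192 11 14)))))), (.s k21 k42 6 (.s k149 k213 7 (.s k192 k106 14 (.s k64
  k128 7 (.s k74 k79 2 (.s k133 k15 10 (.d k197 k202 k5 2 7)))))))] (.c k149 (.l (.s k21 k42 6 (.s
  k101 k117 3 (.s k48 k154 14 (.s k53 k58 2 (.s k16 k32 3 (.s k37 k5 3 (.d k26 k31 k15 2 6))))))))
  .n)))

def s47_255_128 : T TT 256 :=
  (.q k1 [(.s k3 k2 0 (.s k137 k205 9 (.s k70 k204 10 (.s k71 k68 0 (.d k207 k139 k138 9 10))))),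
  (.s k101 k117 3 (.s k169 k253 13 (.s k33 k237 9 (.s k49 k17 3 (.d k205 k137 k153 9 13))))), (.s k3
  k2 0 (.s k101 k117 3 (.s k169 k253 13 (.s k207 k138 10 (.s k48 k154 14 (.d k33 k18 k237 4 9))))))]
  .n)

def s47_255_129 : T TT 256 :=
  (.q k1 [(.s k3 k2 0 (.s k137 k205 9 (.s k70 k204 10 (.s k71 k68 0 (.d k207 k139 k138 9 10))))),
  (.s k101 k117 3 (.s k169 k253 13 (.s k33 k237 9 (.s k49 k17 3 (.d k205 k137 k153 9 13))))), (.s k3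
  k2 0 (.s k101 k117 3 (.s k169 k253 13 (.s k207 k138 10 (.s k48 k154 14 (.d k33 k18 k237 4 9))))))]
  .n)

def s47_255_130 : T TT 256 :=
  (.q k1 [(.s k3 k2 0 (.s k137 k205 9 (.s k70 k204 10 (.s k71 k68 0 (.d k207 k139 k138 9 10))))),
  (.s k101 k117 3 (.s k169 k253 13 (.s k33 k237 9 (.s k49 k17 3 (.d k205 k137 k153 9 13))))), (.s k3
  k2 0 (.s k101 k117 3 (.s k169 k253 13 (.s k207 k138 10 (.s k48 k154 14 (.d k33 k18 k237 4 9))))))]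
  .n)

def s47_255_131 : T TT 256 :=
  (.q k1 [(.s k3 k2 0 (.s k137 k205 9 (.s k70 k204 10 (.s k71 k68 0 (.d k207 k139 k138 9 10))))),
  (.s k101 k117 3 (.s k169 k253 13 (.s k33 k237 9 (.s k49 k17 3 (.d k205 k137 k153 9 13))))), (.s k3
  k2 0 (.s k101 k117 3 (.s k169 k253 13 (.s k207 k138 10 (.s k48 k154 14 (.d k33 k18 k237 4 9))))))]
  .n)

def s47_255_132 : T TT 256 :=
  (.q k1 [(.s k3 k2 0 (.s k137 k205 9 (.s k70 k204 10 (.s k207 k138 10 (.d k71 k68 k139 0 9))))),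
  (.s k101 k117 3 (.s k169 k253 13 (.s k33 k237 9 (.s k49 k17 3 (.d k205 k137 k153 9 13))))), (.s k3
  k2 0 (.s k101 k117 3 (.s k169 k253 13 (.s k207 k138 10 (.s k48 k154 14 (.d k33 k18 k237 4 9))))))]
  .n)

def s47_255_133 : T TT 256 :=
  (.q k1 [(.s k3 k2 0 (.s k137 k205 9 (.s k70 k204 10 (.s k71 k68 0 (.d k207 k139 k138 9 10))))),
  (.s k101 k117 3 (.s k169 k253 13 (.s k33 k237 9 (.s k49 k17 3 (.d k205 k137 k153 9 13))))), (.s k3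
  k2 0 (.s k101 k117 3 (.s k169 k253 13 (.s k207 k138 10 (.s k48 k154 14 (.d k33 k18 k237 4 9))))))]
  .n)

def s47_255_134 : T TT 256 :=
  (.q k1 [(.s k3 k2 0 (.s k137 k205 9 (.s k70 k204 10 (.s k71 k68 0 (.d k207 k139 k138 9 10))))),
  (.s k101 k117 3 (.s k169 k253 13 (.s k33 k237 9 (.s k49 k17 3 (.d k205 k137 k153 9 13))))), (.s k3
  k2 0 (.s k101 k117 3 (.s k169 k253 13 (.s k207 k138 10 (.s k48 k154 14 (.d k33 k18 k237 4 9))))))]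
  .n)

def s47_255_135 : T TT 256 :=
  (.q k1 [(.s k3 k2 0 (.s k137 k205 9 (.s k70 k204 10 (.s k71 k68 0 (.d k207 k139 k138 9 10))))),
  (.s k101 k117 3 (.s k169 k253 13 (.s k33 k237 9 (.s k49 k17 3 (.d k205 k137 k153 9 13))))), (.s k3
  k2 0 (.s k101 k117 3 (.s k169 k253 13 (.s k207 k138 10 (.s k48 k154 14 (.d k33 k18 k237 4 9))))))]
  .n)

def s47_255_136 : T TT 256 :=
  (.q k1 [(.s k3 k2 0 (.s k137 k205 9 (.s k207 k138 10 (.s k71 k139 9 (.d k70 k68 k204 0 10))))),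
  (.s k101 k117 3 (.s k169 k253 13 (.s k33 k237 9 (.s k49 k17 3 (.d k205 k137 k153 9 13)))))] (.c
  k137 (.l (.s k3 k2 0 (.s k101 k117 3 (.s k169 k253 13 (.s k33 k237 9 (.s k48 k18 4 (.d k207 k138
  k154 10 14))))))) (.c k205 (.l (.s k3 k2 0 (.s k101 k117 3 (.s k169 k253 13 (.s k207 k138 10 (.s
  k48 k154 14 (.d k33 k237 k18 9 4))))))) .n)))

def s47_255_137 : T TT 256 :=
  (.q k4 [(.s k12 k8 1 (.s k134 k199 8 (.s k73 k195 10 (.s k77 k65 1 (.d k207 k142 k138 8 10))))),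
  (.s k101 k117 3 (.s k166 k247 12 (.s k36 k231 8 (.s k52 k20 3 (.d k199 k134 k150 8 12))))), (.s
  k12 k8 1 (.s k101 k117 3 (.s k166 k247 12 (.s k207 k138 10 (.s k48 k154 14 (.d k36 k24 k231 5
  8))))))] .n)

def s47_255_138 : T TT 256 :=
  (.q k1 [(.s k205 k137 9 (.s k253 k169 13 (.s k221 k237 3 (.s k153 k17 9 (.d k101 k117 k49 3
  13))))), (.s k3 k2 0 (.s k137 k205 9 (.s k70 k204 10 (.s k68 k71 0 (.s k102 k119 4 (.s k86 k118 3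
  (.d k169 k253 k252 13 14)))))))] (.c k117 (.l (.s k3 k2 0 (.s k137 k205 9 (.s k70 k204 10 (.s k68
  k71 0 (.s k102 k119 4 (.s k169 k253 13 (.d k86 k118 k252 3 14)))))))) (.c k137 (.l (.s k3 k2 0 (.s
  k101 k117 3 (.s k169 k253 13 (.s k33 k237 9 (.s k48 k18 4 (.s k16 k32 3 (.d k154 k223 k207 10
  14)))))))) (.c k169 (.q k4 [(.s k101 k117 3 (.s k199 k134 8 (.s k150 k52 12 (.s k215 k20 8 (.d
  k247 k231 k166 3 12))))), (.s k3 k2 0 (.s k12 k8 1 (.s k6 k9 2 (.s k134 k199 8 (.s k70 k198 7 (.d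
  k137 k205 k204 9 10))))))] (.c k134 (.l (.s k12 k8 1 (.s k101 k117 3 (.s k166 k247 12 (.s k36 k231
  8 (.s k48 k24 5 (.s k16 k32 3 (.d k154 k223 k207 10 14)))))))) (.c k199 (.l (.s k3 k2 0 (.s k12 k8
  1 (.s k9 k6 2 (.s k137 k205 9 (.s k73 k201 7 (.s k65 k77 1 (.d k195 k130 k134 8 10)))))))) .n)))
  (.c k205 (.f k3 k2 0 (.l (.s k101 k117 3 (.s k169 k253 13 (.s k237 k33 9 (.s k252 k86 14 (.s k207
  k222 4 (.s k139 k71 9 (.d k154 k48 k184 14 4))))))))) (.c k221 (.l (.s k101 k117 3 (.s k169 k253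
  13 (.s k33 k237 9 (.s k205 k137 9 (.d k49 k17 k153 3 13)))))) (.c k253 (.f k3 k2 0 (.l (.s k101
  k117 3 (.s k137 k205 9 (.s k70 k204 10 (.s k71 k68 0 (.s k86 k116 4 (.s k84 k87 0 (.d k252 k168
  k169 13 14))))))))) .n)))))))

def s47_255_139 : T TT 256 :=
  (.q k1 [(.s k101 k117 3 (.s k205 k137 9 (.s k153 k49 13 (.s k221 k17 9 (.d k253 k237 k169 3
  13))))), (.s k3 k2 0 (.s k137 k205 9 (.s k70 k204 10 (.s k68 k71 0 (.s k102 k119 4 (.s k86 k118 3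
  (.d k169 k253 k252 13 14))))))), (.s k3 k2 0 (.s k101 k117 3 (.s k207 k138 10 (.s k48 k154 14 (.s
  k33 k18 4 (.d k169 k237 k253 9 13))))))] (.c k117 (.l (.s k3 k2 0 (.s k137 k205 9 (.s k70 k204 10
  (.s k68 k71 0 (.s k102 k119 4 (.s k169 k253 13 (.d k86 k118 k252 3 14)))))))) (.c k137 (.l (.s k3
  k2 0 (.s k101 k117 3 (.s k169 k253 13 (.s k33 k237 9 (.s k48 k18 4 (.d k207 k138 k154 10 14)))))))
  (.c k169 (.l (.s k101 k117 3 (.s k205 k137 9 (.s k153 k49 13 (.s k17 k221 9 (.s k51 k34 4 (.s k204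
  k102 14 (.d k207 k138 k206 10 0)))))))) (.c k253 (.l (.s k3 k2 0 (.s k101 k117 3 (.s k205 k137 9
  (.s k49 k153 13 (.s k33 k17 3 (.s k48 k18 4 (.d k207 k138 k154 10 14)))))))) .n)))))

def s47_255_140 : T TT 256 :=
  (.q k1 [(.s k3 k2 0 (.s k137 k205 9 (.s k138 k207 10 (.s k136 k139 0 (.d k204 k68 k70 9 10))))),
  (.s k101 k117 3 (.s k169 k253 13 (.s k33 k237 9 (.s k49 k17 3 (.d k205 k137 k153 9 13))))), (.s k3
  k2 0 (.s k101 k117 3 (.s k169 k253 13 (.s k207 k138 10 (.s k48 k154 14 (.d k33 k18 k237 4 9))))))]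
  .n)

def s47_255_141 : T TT 256 :=
  (.q k1 [(.s k3 k2 0 (.s k207 k138 10 (.s k71 k139 9 (.s k70 k68 0 (.d k137 k205 k204 9 10))))),
  (.s k101 k117 3 (.s k169 k253 13 (.s k33 k237 9 (.s k49 k17 3 (.d k205 k137 k153 9 13))))), (.s k3
  k2 0 (.s k101 k117 3 (.s k169 k253 13 (.s k207 k138 10 (.s k48 k154 14 (.d k33 k18 k237 4 9))))))]
  .n)

def s47_255_142 : T TT 256 :=
  (.q k1 [(.s k3 k2 0 (.s k137 k205 9 (.s k70 k204 10 (.s k71 k68 0 (.d k207 k139 k138 9 10))))),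
  (.s k101 k117 3 (.s k169 k253 13 (.s k33 k237 9 (.s k49 k17 3 (.d k205 k137 k153 9 13))))), (.s k3
  k2 0 (.s k101 k117 3 (.s k169 k253 13 (.s k207 k138 10 (.s k48 k154 14 (.d k33 k18 k237 4 9))))))]
  .n)

def s47_255_143 : T TT 256 :=
  (.q k1 [(.s k3 k2 0 (.s k137 k205 9 (.s k70 k204 10 (.s k71 k68 0 (.d k207 k139 k138 9 10))))),
  (.s k101 k117 3 (.s k169 k253 13 (.s k33 k237 9 (.s k49 k17 3 (.d k205 k137 k153 9 13))))), (.s k3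
  k2 0 (.s k101 k117 3 (.s k169 k253 13 (.s k207 k138 10 (.s k48 k154 14 (.d k33 k18 k237 4 9))))))]
  .n)

def s47_255_144 : T TT 256 :=
  (.q k1 [(.s k3 k2 0 (.s k137 k205 9 (.s k70 k204 10 (.s k71 k68 0 (.d k207 k139 k138 9 10))))),
  (.s k101 k117 3 (.s k169 k253 13 (.s k33 k237 9 (.s k49 k17 3 (.d k205 k137 k153 9 13))))), (.s k3
  k2 0 (.s k101 k117 3 (.s k169 k253 13 (.s k207 k138 10 (.s k48 k154 14 (.d k33 k18 k237 4 9))))))]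
  .n)

def s47_255_145 : T TT 256 :=
  (.q k1 [(.s k3 k2 0 (.s k137 k205 9 (.s k70 k204 10 (.s k71 k68 0 (.d k207 k139 k138 9 10))))),
  (.s k101 k117 3 (.s k169 k253 13 (.s k33 k237 9 (.s k49 k17 3 (.d k205 k137 k153 9 13))))), (.s k3
  k2 0 (.s k101 k117 3 (.s k169 k253 13 (.s k207 k138 10 (.s k48 k154 14 (.d k33 k18 k237 4 9))))))]
  .n)

def s47_255_146 : T TT 256 :=
  (.q k1 [(.s k3 k2 0 (.s k137 k205 9 (.s k70 k204 10 (.s k71 k68 0 (.d k207 k139 k138 9 10))))),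
  (.s k101 k117 3 (.s k169 k253 13 (.s k33 k237 9 (.s k49 k17 3 (.d k205 k137 k153 9 13))))), (.s k3
  k2 0 (.s k101 k117 3 (.s k169 k253 13 (.s k207 k138 10 (.s k48 k154 14 (.d k33 k18 k237 4 9))))))]
  .n)

def s47_255_147 : T TT 256 :=
  (.q k1 [(.s k3 k2 0 (.s k137 k205 9 (.s k70 k204 10 (.s k71 k68 0 (.d k207 k139 k138 9 10))))),
  (.s k101 k117 3 (.s k169 k253 13 (.s k33 k237 9 (.s k49 k17 3 (.d k205 k137 k153 9 13))))), (.s k3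
  k2 0 (.s k101 k117 3 (.s k169 k253 13 (.s k207 k138 10 (.s k48 k154 14 (.d k33 k18 k237 4 9))))))]
  .n)

def s47_255_148 : T TT 256 :=
  (.q k1 [(.s k3 k2 0 (.s k137 k205 9 (.s k70 k204 10 (.s k71 k68 0 (.d k207 k139 k138 9 10))))),
  (.s k101 k117 3 (.s k169 k253 13 (.s k33 k237 9 (.s k49 k17 3 (.d k205 k137 k153 9 13))))), (.s k3
  k2 0 (.s k101 k117 3 (.s k169 k253 13 (.s k207 k138 10 (.s k48 k154 14 (.d k33 k18 k237 4 9))))))]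
  .n)

def s47_255_149 : T TT 256 :=
  (.q k1 [(.s k3 k2 0 (.s k137 k205 9 (.s k70 k204 10 (.s k71 k68 0 (.d k207 k139 k138 9 10))))),
  (.s k101 k117 3 (.s k169 k253 13 (.s k33 k237 9 (.s k49 k17 3 (.d k205 k137 k153 9 13))))), (.s k3
  k2 0 (.s k101 k117 3 (.s k169 k253 13 (.s k207 k138 10 (.s k48 k154 14 (.d k33 k18 k237 4 9))))))]
  .n)

def s47_255_150 : T TT 256 :=
  (.q k1 [(.s k3 k2 0 (.s k137 k205 9 (.s k70 k204 10 (.s k71 k68 0 (.d k207 k139 k138 9 10))))),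
  (.s k101 k117 3 (.s k169 k253 13 (.s k33 k237 9 (.s k49 k17 3 (.d k205 k137 k153 9 13))))), (.s k3
  k2 0 (.s k101 k117 3 (.s k169 k253 13 (.s k207 k138 10 (.s k48 k154 14 (.d k33 k18 k237 4 9))))))]
  .n)

def s47_255_151 : T TT 256 :=
  (.q k1 [(.s k3 k2 0 (.s k137 k205 9 (.s k70 k204 10 (.s k71 k68 0 (.d k207 k139 k138 9 10))))),
  (.s k101 k117 3 (.s k169 k253 13 (.s k33 k237 9 (.s k49 k17 3 (.d k205 k137 k153 9 13))))), (.s k3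
  k2 0 (.s k101 k117 3 (.s k169 k253 13 (.s k207 k138 10 (.s k48 k154 14 (.d k33 k18 k237 4 9))))))]
  .n)

def s47_255_152 : T TT 256 :=
  (.q k1 [(.s k3 k2 0 (.s k137 k205 9 (.s k138 k207 10 (.s k136 k139 0 (.d k204 k68 k70 9 10))))),
  (.s k101 k117 3 (.s k169 k253 13 (.s k33 k237 9 (.s k49 k17 3 (.d k205 k137 k153 9 13))))), (.s k3
  k2 0 (.s k101 k117 3 (.s k169 k253 13 (.s k207 k138 10 (.s k48 k154 14 (.d k33 k18 k237 4 9))))))]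
  .n)

def s47_255_153 : T TT 256 :=
  (.q k4 [(.s k12 k8 1 (.s k134 k199 8 (.s k73 k195 10 (.s k77 k65 1 (.d k207 k142 k138 8 10))))),
  (.s k101 k117 3 (.s k166 k247 12 (.s k36 k231 8 (.s k52 k20 3 (.d k199 k134 k150 8 12))))), (.s
  k12 k8 1 (.s k101 k117 3 (.s k166 k247 12 (.s k207 k138 10 (.s k48 k154 14 (.d k36 k24 k231 5
  8))))))] .n)

def s47_255_154 : T TT 256 :=
  (.q k1 [(.s k3 k2 0 (.s k137 k205 9 (.s k70 k204 10 (.s k71 k68 0 (.d k207 k139 k138 9 10))))),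
  (.s k101 k117 3 (.s k169 k253 13 (.s k33 k237 9 (.s k49 k17 3 (.d k205 k137 k153 9 13))))), (.s k3
  k2 0 (.s k101 k117 3 (.s k169 k253 13 (.s k207 k138 10 (.s k237 k33 9 (.d k252 k222 k86 4
  14))))))] .n)

def s47_255_155 : T TT 256 :=
  (.q k1 [(.s k3 k2 0 (.s k137 k205 9 (.s k70 k204 10 (.s k71 k68 0 (.d k207 k139 k138 9 10))))),
  (.s k101 k117 3 (.s k169 k253 13 (.s k33 k237 9 (.s k49 k17 3 (.d k205 k137 k153 9 13))))), (.s k3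
  k2 0 (.s k101 k117 3 (.s k169 k253 13 (.s k207 k138 10 (.s k48 k154 14 (.d k33 k18 k237 4 9))))))]
  .n)

def s47_255_156 : T TT 256 :=
  (.q k1 [(.s k3 k2 0 (.s k137 k205 9 (.s k138 k207 10 (.s k136 k139 0 (.d k204 k68 k70 9 10))))),
  (.s k101 k117 3 (.s k169 k253 13 (.s k33 k237 9 (.s k49 k17 3 (.d k205 k137 k153 9 13))))), (.s k3
  k2 0 (.s k101 k117 3 (.s k169 k253 13 (.s k207 k138 10 (.s k48 k154 14 (.d k33 k18 k237 4 9))))))]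
  .n)

def s47_255_157 : T TT 256 :=
  (.q k1 [(.s k3 k2 0 (.s k207 k138 10 (.s k71 k139 9 (.s k70 k68 0 (.d k137 k205 k204 9 10))))),
  (.s k101 k117 3 (.s k169 k253 13 (.s k33 k237 9 (.s k49 k17 3 (.d k205 k137 k153 9 13))))), (.s k3
  k2 0 (.s k101 k117 3 (.s k169 k253 13 (.s k207 k138 10 (.s k48 k154 14 (.d k33 k18 k237 4 9))))))]
  .n)

def s47_255_158 : T TT 256 :=
  (.q k1 [(.s k3 k2 0 (.s k137 k205 9 (.s k70 k204 10 (.s k71 k68 0 (.d k207 k139 k138 9 10))))),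
  (.s k101 k117 3 (.s k169 k253 13 (.s k33 k237 9 (.s k49 k17 3 (.d k205 k137 k153 9 13))))), (.s k3
  k2 0 (.s k101 k117 3 (.s k169 k253 13 (.s k207 k138 10 (.s k48 k154 14 (.d k33 k18 k237 4 9))))))]
  .n)

def s47_255_159 : T TT 256 :=
  (.q k1 [(.s k3 k2 0 (.s k137 k205 9 (.s k70 k204 10 (.s k71 k68 0 (.d k207 k139 k138 9 10))))),
  (.s k101 k117 3 (.s k169 k253 13 (.s k33 k237 9 (.s k49 k17 3 (.d k205 k137 k153 9 13))))), (.s k3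
  k2 0 (.s k101 k117 3 (.s k169 k253 13 (.s k207 k138 10 (.s k48 k154 14 (.d k33 k18 k237 4 9))))))]
  .n)

def s47_255_160 : T TT 256 :=
  (.q k1 [(.s k3 k2 0 (.s k137 k205 9 (.s k70 k204 10 (.s k71 k68 0 (.d k207 k139 k138 9 10))))),
  (.s k101 k117 3 (.s k169 k253 13 (.s k33 k237 9 (.s k49 k17 3 (.d k205 k137 k153 9 13))))), (.s k3
  k2 0 (.s k101 k117 3 (.s k169 k253 13 (.s k207 k138 10 (.s k48 k154 14 (.d k33 k18 k237 4 9))))))]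
  .n)

def s47_255_161 : T TT 256 :=
  (.q k1 [(.s k3 k2 0 (.s k137 k205 9 (.s k70 k204 10 (.s k71 k68 0 (.d k207 k139 k138 9 10))))),
  (.s k101 k117 3 (.s k169 k253 13 (.s k33 k237 9 (.s k49 k17 3 (.d k205 k137 k153 9 13))))), (.s k3
  k2 0 (.s k101 k117 3 (.s k169 k253 13 (.s k207 k138 10 (.s k48 k154 14 (.d k33 k18 k237 4 9))))))]
  .n)

def s47_255_162 : T TT 256 :=
  (.q k1 [(.s k3 k2 0 (.s k137 k205 9 (.s k70 k204 10 (.s k71 k68 0 (.d k207 k139 k138 9 10))))),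
  (.s k101 k117 3 (.s k169 k253 13 (.s k33 k237 9 (.s k49 k17 3 (.d k205 k137 k153 9 13))))), (.s k3
  k2 0 (.s k101 k117 3 (.s k169 k253 13 (.s k207 k138 10 (.s k48 k154 14 (.d k33 k18 k237 4 9))))))]
  .n)

def s47_255_163 : T TT 256 :=
  (.q k1 [(.s k3 k2 0 (.s k137 k205 9 (.s k70 k204 10 (.s k71 k68 0 (.d k207 k139 k138 9 10))))),
  (.s k101 k117 3 (.s k169 k253 13 (.s k33 k237 9 (.s k49 k17 3 (.d k205 k137 k153 9 13))))), (.s k3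
  k2 0 (.s k101 k117 3 (.s k169 k253 13 (.s k207 k138 10 (.s k48 k154 14 (.d k33 k18 k237 4 9))))))]
  .n)

def s47_255_164 : T TT 256 :=
  (.q k1 [(.s k3 k2 0 (.s k137 k205 9 (.s k70 k204 10 (.s k71 k68 0 (.d k207 k139 k138 9 10))))),
  (.s k101 k117 3 (.s k169 k253 13 (.s k33 k237 9 (.s k49 k17 3 (.d k205 k137 k153 9 13))))), (.s k3
  k2 0 (.s k101 k117 3 (.s k169 k253 13 (.s k207 k138 10 (.s k48 k154 14 (.d k33 k18 k237 4 9))))))]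
  .n)

def s47_255_165 : T TT 256 :=
  (.q k106 [(.s k101 k117 3 (.s k111 k96 2 (.s k207 k138 10 (.s k63 k159 11 (.s k21 k42 6 (.d k149
  k213 k192 7 14)))))), (.s k64 k127 6 (.s k74 k79 2 (.s k138 k207 10 (.s k10 k202 7 (.s k15 k5 2
  (.d k192 k128 k133 7 10)))))), (.s k64 k127 6 (.s k79 k74 2 (.s k101 k117 3 (.s k96 k111 2 (.d
  k112 k80 k90 3 6)))))] (.c k63 (.l (.s k101 k117 3 (.s k96 k111 2 (.s k207 k138 10 (.s k48 k154 14
  (.s k192 k144 11 (.d k64 k127 k128 6 7))))))) (.c k111 (.l (.s k64 k127 6 (.s k101 k117 3 (.s k192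
  k128 7 (.s k207 k138 10 (.s k197 k202 2 (.d k149 k63 k53 14 11))))))) .n)))

def s47_255_166 : T TT 256 :=
  (.q k1 [(.s k3 k2 0 (.s k137 k205 9 (.s k70 k204 10 (.s k71 k68 0 (.d k207 k139 k138 9 10))))),
  (.s k101 k117 3 (.s k169 k253 13 (.s k33 k237 9 (.s k49 k17 3 (.d k205 k137 k153 9 13))))), (.s k3
  k2 0 (.s k101 k117 3 (.s k169 k253 13 (.s k207 k138 10 (.s k48 k154 14 (.d k33 k18 k237 4 9))))))]
  .n)

def s47_255_167 : T TT 256 :=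
  (.f k207 k138 10 (.q k64 [(.s k74 k79 2 (.s k192 k128 7 (.s k197 k202 2 (.d k133 k5 k15 7 10)))),
  (.s k79 k74 2 (.s k101 k117 3 (.s k90 k112 6 (.s k95 k80 2 (.d k127 k111 k106 3 6))))), (.s k101
  k117 3 (.s k48 k154 14 (.s k106 k127 6 (.s k192 k128 7 (.d k96 k111 k144 2 11)))))] (.c k107 (.q
  k227 [(.s k74 k79 2 (.s k192 k128 7 (.s k197 k202 2 (.d k133 k5 k15 7 10)))), (.s k79 k74 2 (.s
  k101 k117 3 (.s k90 k112 6 (.s k95 k80 2 (.d k127 k111 k106 3 6))))), (.s k101 k117 3 (.s k48 k154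
  14 (.s k106 k127 6 (.s k192 k128 7 (.d k96 k111 k144 2 11)))))] .n) (.c k227 (.q k107 [(.s k74 k79
  2 (.s k192 k128 7 (.s k197 k202 2 (.d k133 k5 k15 7 10)))), (.s k79 k74 2 (.s k101 k117 3 (.s k90
  k112 6 (.s k95 k80 2 (.d k127 k111 k106 3 6))))), (.s k101 k117 3 (.s k48 k154 14 (.s k106 k127 6
  (.s k192 k128 7 (.d k96 k111 k144 2 11)))))] .n) .n))))

def s47_255_168 : T TT 256 :=
  (.q k1 [(.s k3 k2 0 (.s k137 k205 9 (.s k70 k204 10 (.s k71 k68 0 (.d k207 k139 k138 9 10))))),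
  (.s k101 k117 3 (.s k169 k253 13 (.s k33 k237 9 (.s k49 k17 3 (.d k205 k137 k153 9 13))))), (.s k3
  k2 0 (.s k101 k117 3 (.s k169 k253 13 (.s k207 k138 10 (.s k48 k154 14 (.d k33 k18 k237 4 9))))))]
  .n)

def s47_255_169 : T TT 256 :=
  (.q k4 [(.s k12 k8 1 (.s k134 k199 8 (.s k73 k195 10 (.s k77 k65 1 (.d k207 k142 k138 8 10))))),
  (.s k101 k117 3 (.s k166 k247 12 (.s k36 k231 8 (.s k52 k20 3 (.d k199 k134 k150 8 12))))), (.s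
  k12 k8 1 (.s k101 k117 3 (.s k166 k247 12 (.s k207 k138 10 (.s k48 k154 14 (.d k36 k24 k231 5
  8))))))] .n)

def s47_255_170 : T TT 256 :=
  (.q k1 [(.s k3 k2 0 (.s k137 k205 9 (.s k70 k204 10 (.s k71 k68 0 (.d k207 k139 k138 9 10))))),
  (.s k101 k117 3 (.s k205 k137 9 (.s k49 k153 13 (.s k33 k17 3 (.d k169 k237 k253 9 13)))))] (.c
  k137 (.l (.s k3 k2 0 (.s k101 k117 3 (.s k169 k253 13 (.s k33 k237 9 (.s k48 k18 4 (.d k207 k138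
  k154 10 14))))))) (.c k205 (.l (.s k3 k2 0 (.s k101 k117 3 (.s k169 k253 13 (.s k207 k138 10 (.s
  k71 k139 9 (.d k86 k252 k116 14 4))))))) .n)))

def s47_255_171 : T TT 256 :=
  (.q k3 [(.s k1 k2 0 (.s k137 k205 9 (.s k70 k204 10 (.s k71 k68 0 (.d k207 k139 k138 9 10))))),
  (.s k101 k117 3 (.s k207 k138 10 (.s k71 k139 9 (.s k86 k116 4 (.s k84 k87 0 (.d k252 k168 k169 13
  14)))))), (.s k1 k2 0 (.s k101 k117 3 (.s k169 k253 13 (.s k33 k237 9 (.s k49 k17 3 (.d k205 k137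
  k153 9 13))))))] (.c k137 (.l (.s k1 k2 0 (.s k101 k117 3 (.s k169 k253 13 (.s k33 k237 9 (.s k48
  k18 4 (.d k207 k138 k154 10 14))))))) .n))

def s47_255_172 : T TT 256 :=
  (.q k1 [(.s k3 k2 0 (.s k137 k205 9 (.s k70 k204 10 (.s k71 k68 0 (.d k207 k139 k138 9 10))))),
  (.s k101 k117 3 (.s k169 k253 13 (.s k33 k237 9 (.s k49 k17 3 (.d k205 k137 k153 9 13))))), (.s k3
  k2 0 (.s k101 k117 3 (.s k169 k253 13 (.s k207 k138 10 (.s k48 k154 14 (.d k33 k18 k237 4 9))))))]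
  .n)

def s47_255_173 : T TT 256 :=
  (.f k207 k138 10 (.q k64 [(.s k74 k79 2 (.s k192 k128 7 (.s k197 k202 2 (.d k133 k5 k15 7 10)))),
  (.s k79 k74 2 (.s k101 k117 3 (.s k90 k112 6 (.s k95 k80 2 (.d k127 k111 k106 3 6))))), (.s k101
  k117 3 (.s k48 k154 14 (.s k106 k127 6 (.s k192 k128 7 (.d k96 k111 k144 2 11)))))] (.c k110 (.q
  k236 [(.s k74 k79 2 (.s k192 k128 7 (.s k197 k202 2 (.d k133 k5 k15 7 10)))), (.s k79 k74 2 (.s
  k101 k117 3 (.s k90 k112 6 (.s k95 k80 2 (.d k127 k111 k106 3 6))))), (.s k101 k117 3 (.s k48 k154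
  14 (.s k106 k127 6 (.s k192 k128 7 (.d k96 k111 k144 2 11)))))] .n) (.c k236 (.q k110 [(.s k74 k79
  2 (.s k192 k128 7 (.s k197 k202 2 (.d k133 k5 k15 7 10)))), (.s k79 k74 2 (.s k101 k117 3 (.s k90
  k112 6 (.s k95 k80 2 (.d k127 k111 k106 3 6))))), (.s k101 k117 3 (.s k48 k154 14 (.s k106 k127 6
  (.s k192 k128 7 (.d k96 k111 k144 2 11)))))] .n) .n))))

def s47_255_174 : T TT 256 :=
  (.q k12 [(.s k4 k8 1 (.s k134 k199 8 (.s k73 k195 10 (.s k77 k65 1 (.d k207 k142 k138 8 10))))),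
  (.s k101 k117 3 (.s k207 k138 10 (.s k77 k142 8 (.s k89 k113 5 (.s k81 k93 1 (.d k243 k162 k166 12
  14)))))), (.s k4 k8 1 (.s k101 k117 3 (.s k166 k247 12 (.s k36 k231 8 (.s k52 k20 3 (.d k199 k134
  k150 8 12))))))] (.c k134 (.l (.s k4 k8 1 (.s k101 k117 3 (.s k166 k247 12 (.s k36 k231 8 (.s k48
  k24 5 (.d k207 k138 k154 10 14))))))) .n))

def s47_255_175 : T TT 256 :=
  (.f k207 k138 10 (.q k15 [(.s k5 k10 2 (.s k133 k197 7 (.s k74 k192 10 (.d k79 k64 k143 2 7)))),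
  (.s k79 k143 7 (.s k101 k117 3 (.s k90 k112 6 (.s k80 k95 2 (.d k240 k160 k165 11 14))))), (.s k5
  k10 2 (.s k101 k117 3 (.s k48 k154 14 (.s k37 k26 6 (.d k165 k229 k245 7 11)))))] (.c k111 (.q
  k239 [(.s k101 k117 3 (.s k48 k154 14 (.d k32 k170 k16 10 3))), (.s k5 k10 2 (.s k79 k143 7 (.s
  k74 k64 2 (.d k133 k197 k192 7 10))))] .n) (.c k239 (.q k111 [(.s k79 k143 7 (.s k127 k95 3 (.d
  k64 k74 k106 2 6))), (.s k5 k10 2 (.s k101 k117 3 (.s k48 k154 14 (.s k37 k26 6 (.d k165 k229 k245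
  7 11)))))] (.c k74 (.l (.s k79 k143 7 (.s k95 k127 3 (.s k90 k80 2 (.d k101 k117 k112 3 6)))))
  .n)) .n))))

def s47_255_176 : T TT 256 :=
  (.q k1 [(.s k3 k2 0 (.s k137 k205 9 (.s k70 k204 10 (.s k71 k68 0 (.d k207 k139 k138 9 10))))),
  (.s k101 k117 3 (.s k169 k253 13 (.s k33 k237 9 (.s k49 k17 3 (.d k205 k137 k153 9 13))))), (.s k3
  k2 0 (.s k101 k117 3 (.s k169 k253 13 (.s k207 k138 10 (.s k48 k154 14 (.d k33 k18 k237 4 9))))))]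
  .n)

def s47_255_177 : T TT 256 :=
  (.q k1 [(.s k3 k2 0 (.s k137 k205 9 (.s k70 k204 10 (.s k71 k68 0 (.d k207 k139 k138 9 10))))),
  (.s k101 k117 3 (.s k169 k253 13 (.s k33 k237 9 (.s k49 k17 3 (.d k205 k137 k153 9 13))))), (.s k3
  k2 0 (.s k101 k117 3 (.s k169 k253 13 (.s k207 k138 10 (.s k48 k154 14 (.d k33 k18 k237 4 9))))))]
  .n)

def s47_255_178 : T TT 256 :=
  (.q k1 [(.s k3 k2 0 (.s k137 k205 9 (.s k70 k204 10 (.s k71 k68 0 (.d k207 k139 k138 9 10))))),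
  (.s k101 k117 3 (.s k169 k253 13 (.s k33 k237 9 (.s k49 k17 3 (.d k205 k137 k153 9 13))))), (.s k3
  k2 0 (.s k101 k117 3 (.s k169 k253 13 (.s k207 k138 10 (.s k48 k154 14 (.d k33 k18 k237 4 9))))))]
  .n)

def s47_255_179 : T TT 256 :=
  (.q k1 [(.s k3 k2 0 (.s k137 k205 9 (.s k70 k204 10 (.s k71 k68 0 (.d k207 k139 k138 9 10))))),
  (.s k101 k117 3 (.s k169 k253 13 (.s k33 k237 9 (.s k49 k17 3 (.d k205 k137 k153 9 13))))), (.s k3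
  k2 0 (.s k101 k117 3 (.s k169 k253 13 (.s k207 k138 10 (.s k48 k154 14 (.d k33 k18 k237 4 9))))))]
  .n)

def s47_255_180 : T TT 256 :=
  (.q k1 [(.s k3 k2 0 (.s k137 k205 9 (.s k70 k204 10 (.s k71 k68 0 (.d k207 k139 k138 9 10))))),
  (.s k101 k117 3 (.s k169 k253 13 (.s k33 k237 9 (.s k49 k17 3 (.d k205 k137 k153 9 13))))), (.s k3
  k2 0 (.s k101 k117 3 (.s k169 k253 13 (.s k207 k138 10 (.s k48 k154 14 (.d k33 k18 k237 4 9))))))]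
  .n)

def s47_255_181 : T TT 256 :=
  (.q k1 [(.s k3 k2 0 (.s k137 k205 9 (.s k70 k204 10 (.s k71 k68 0 (.d k207 k139 k138 9 10))))),
  (.s k101 k117 3 (.s k169 k253 13 (.s k33 k237 9 (.s k49 k17 3 (.d k205 k137 k153 9 13))))), (.s k3
  k2 0 (.s k101 k117 3 (.s k169 k253 13 (.s k207 k138 10 (.s k48 k154 14 (.d k33 k18 k237 4 9))))))]
  .n)

def s47_255_182 : T TT 256 :=
  (.q k1 [(.s k3 k2 0 (.s k137 k205 9 (.s k70 k204 10 (.s k71 k68 0 (.d k207 k139 k138 9 10))))),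
  (.s k101 k117 3 (.s k169 k253 13 (.s k33 k237 9 (.s k49 k17 3 (.d k205 k137 k153 9 13))))), (.s k3
  k2 0 (.s k101 k117 3 (.s k169 k253 13 (.s k207 k138 10 (.s k48 k154 14 (.d k33 k18 k237 4 9))))))]
  .n)

def s47_255_183 : T TT 256 :=
  (.q k1 [(.s k3 k2 0 (.s k137 k205 9 (.s k70 k204 10 (.s k71 k68 0 (.d k207 k139 k138 9 10))))),
  (.s k101 k117 3 (.s k169 k253 13 (.s k33 k237 9 (.s k49 k17 3 (.d k205 k137 k153 9 13))))), (.s k3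
  k2 0 (.s k101 k117 3 (.s k169 k253 13 (.s k207 k138 10 (.s k48 k154 14 (.d k33 k18 k237 4 9))))))]
  .n)

def s47_255_184 : T TT 256 :=
  (.q k1 [(.s k3 k2 0 (.s k137 k205 9 (.s k70 k204 10 (.s k71 k68 0 (.d k207 k139 k138 9 10))))),
  (.s k101 k117 3 (.s k169 k253 13 (.s k33 k237 9 (.s k49 k17 3 (.d k205 k137 k153 9 13))))), (.s k3
  k2 0 (.s k101 k117 3 (.s k169 k253 13 (.s k207 k138 10 (.s k48 k154 14 (.d k33 k18 k237 4 9))))))]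
  .n)

def s47_255_185 : T TT 256 :=
  (.q k1 [(.s k3 k2 0 (.s k137 k205 9 (.s k70 k204 10 (.s k71 k68 0 (.d k207 k139 k138 9 10))))),
  (.s k101 k117 3 (.s k205 k137 9 (.s k49 k153 13 (.s k169 k253 13 (.d k33 k17 k237 3 9))))), (.s k3
  k2 0 (.s k101 k117 3 (.s k207 k138 10 (.s k48 k154 14 (.s k33 k18 4 (.d k169 k253 k237 13 9))))))]
  .n)

def s47_255_186 : T TT 256 :=
  (.q k64 [(.s k74 k79 2 (.s k192 k128 7 (.s k15 k133 10 (.s k10 k5 2 (.d k138 k202 k207 7 10))))),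
  (.s k79 k74 2 (.s k127 k106 6 (.s k95 k111 3 (.s k90 k80 2 (.d k101 k117 k112 3 6))))), (.s k106
  k127 6 (.s k192 k128 7 (.s k63 k149 14 (.s k207 k138 10 (.s k111 k159 11 (.d k101 k117 k96 3
  2))))))] (.c k48 (.l (.s k117 k101 3 (.s k74 k79 2 (.s k192 k128 7 (.s k15 k133 10 (.s k10 k5 2
  (.d k138 k207 k202 10 7))))))) (.c k117 (.q k48 [(.s k207 k138 10 (.s k154 k101 14 (.d k16 k32
  k223 3 10))), (.s k32 k16 3 (.s k192 k128 7 (.s k96 k144 11 (.s k80 k112 3 (.d k160 k224 k240 7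
  11))))), (.s k74 k79 2 (.s k138 k207 10 (.s k10 k202 7 (.s k15 k5 2 (.d k192 k128 k133 7 10)))))]
  .n) .n)))

def s47_255_187 : T TT 256 :=
  (.f k207 k138 10 (.q k51 [(.s k17 k34 4 (.s k153 k221 9 (.s k155 k103 13 (.s k154 k152 0 (.d k101
  k117 k48 3 14))))), (.s k17 k34 4 (.s k153 k221 9 (.s k204 k102 14 (.s k68 k136 9 (.s k70 k71 0
  (.s k137 k3 10 (.d k205 k206 k1 0 9))))))), (.s k101 k117 3 (.s k103 k155 13 (.s k102 k100 0 (.s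
  k68 k119 4 (.d k204 k136 k153 9 14))))), (.s k17 k34 4 (.s k101 k117 3 (.s k48 k154 14 (.s k16 k32
  3 (.s k18 k19 0 (.s k33 k3 4 (.d k49 k50 k1 0 3)))))))] .n))

def s47_255_188 : T TT 256 :=
  (.q k1 [(.s k3 k2 0 (.s k137 k205 9 (.s k70 k204 10 (.s k71 k68 0 (.d k207 k139 k138 9 10))))),
  (.s k101 k117 3 (.s k169 k253 13 (.s k33 k237 9 (.s k49 k17 3 (.d k205 k137 k153 9 13))))), (.s k3
  k2 0 (.s k101 k117 3 (.s k169 k253 13 (.s k207 k138 10 (.s k48 k154 14 (.d k33 k18 k237 4 9))))))]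
  .n)

def s47_255_189 : T TT 256 :=
  (.q k1 [(.s k3 k2 0 (.s k137 k205 9 (.s k70 k204 10 (.s k71 k68 0 (.d k207 k139 k138 9 10))))),
  (.s k101 k117 3 (.s k169 k253 13 (.s k33 k237 9 (.s k49 k17 3 (.d k205 k137 k153 9 13))))), (.s k3
  k2 0 (.s k101 k117 3 (.s k169 k253 13 (.s k207 k138 10 (.s k48 k154 14 (.d k33 k18 k237 4 9))))))]
  .n)

def s47_255_190 : T TT 256 :=
  (.f k207 k138 10 (.q k60 [(.s k20 k40 5 (.s k150 k215 8 (.s k158 k109 12 (.s k154 k146 1 (.d k101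
  k117 k48 3 14))))), (.s k20 k40 5 (.s k150 k215 8 (.s k195 k105 14 (.s k65 k130 8 (.s k73 k77 1
  (.s k134 k12 10 (.d k199 k203 k4 1 8))))))), (.s k101 k117 3 (.s k109 k158 12 (.s k105 k97 1 (.s
  k65 k125 5 (.d k195 k130 k150 8 14))))), (.s k20 k40 5 (.s k101 k117 3 (.s k48 k154 14 (.s k16 k32
  3 (.s k24 k28 1 (.s k36 k12 5 (.d k52 k56 k4 1 3)))))))] .n))

def s47_255_191 : T TT 256 :=
  (.f k207 k138 10 (.q k63 [(.s k101 k117 3 (.s k48 k154 14 (.s k53 k58 2 (.s k149 k197 11 (.d k21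
  k42 k213 6 7))))), (.s k101 k117 3 (.s k111 k159 11 (.s k106 k96 2 (.s k64 k127 6 (.d k192 k128
  k149 7 14))))), (.s k21 k42 6 (.s k149 k213 7 (.s k192 k106 14 (.s k64 k128 7 (.s k74 k79 2 (.s
  k133 k15 10 (.d k197 k202 k5 2 7)))))))] (.c k106 (.l (.s k21 k42 6 (.s k101 k117 3 (.s k48 k154
  14 (.s k149 k213 7 (.d k53 k58 k197 2 11)))))) (.c k149 (.l (.s k21 k42 6 (.s k101 k117 3 (.s k48
  k154 14 (.s k53 k58 2 (.s k16 k32 3 (.s k37 k5 3 (.d k26 k31 k15 2 6)))))))) .n))))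

def s47_255_192 : T TT 256 :=
  (.f k207 k138 10 (.q k195 [(.s k65 k130 8 (.s k73 k77 1 (.s k199 k203 1 (.d k134 k4 k12 8 10)))),
  (.s k101 k117 3 (.s k48 k154 14 (.s k97 k146 12 (.s k105 k109 1 (.d k65 k125 k130 5 8))))), (.s
  k101 k117 3 (.s k199 k203 1 (.s k150 k52 12 (.s k20 k215 8 (.d k60 k40 k105 5 14)))))] (.c k213
  (.q k234 [(.s k65 k130 8 (.s k73 k77 1 (.s k199 k203 1 (.d k134 k4 k12 8 10)))), (.s k101 k117 3
  (.s k48 k154 14 (.s k97 k146 12 (.s k105 k109 1 (.d k65 k125 k130 5 8))))), (.s k101 k117 3 (.s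
  k199 k203 1 (.s k150 k52 12 (.s k20 k215 8 (.d k60 k40 k105 5 14)))))] .n) (.c k234 (.q k213 [(.s
  k65 k130 8 (.s k73 k77 1 (.s k199 k203 1 (.d k134 k4 k12 8 10)))), (.s k101 k117 3 (.s k149 k21 7
  (.s k197 k53 11 (.s k5 k133 7 (.d k245 k229 k165 3 11)))))] .n) .n))))

def s47_255_193 : T TT 256 :=
  (.q k1 [(.s k3 k2 0 (.s k207 k138 10 (.s k71 k139 9 (.s k70 k68 0 (.d k137 k205 k204 9 10))))),
  (.s k101 k117 3 (.s k169 k253 13 (.s k33 k237 9 (.s k49 k17 3 (.d k205 k137 k153 9 13))))), (.s k3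
  k2 0 (.s k101 k117 3 (.s k169 k253 13 (.s k207 k138 10 (.s k48 k154 14 (.d k33 k18 k237 4 9))))))]
  .n)

def s47_255_194 : T TT 256 :=
  (.q k1 [(.s k3 k2 0 (.s k137 k205 9 (.s k70 k204 10 (.s k71 k68 0 (.d k207 k139 k138 9 10))))),
  (.s k101 k117 3 (.s k169 k253 13 (.s k33 k237 9 (.s k49 k17 3 (.d k205 k137 k153 9 13))))), (.s k3
  k2 0 (.s k101 k117 3 (.s k169 k253 13 (.s k207 k138 10 (.s k48 k154 14 (.d k33 k18 k237 4 9))))))]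
  .n)

def s47_255_195 : T TT 256 :=
  (.f k207 k138 10 (.q k106 [(.s k101 k117 3 (.s k111 k96 2 (.s k63 k159 11 (.s k21 k42 6 (.d k149
  k213 k192 7 14))))), (.s k64 k127 6 (.s k74 k79 2 (.s k192 k128 7 (.s k133 k15 10 (.d k197 k202 k5
  2 7)))))] (.c k63 (.l (.s k101 k117 3 (.s k48 k154 14 (.s k96 k111 2 (.s k192 k144 11 (.d k64 k127
  k128 6 7)))))) (.c k111 (.l (.s k64 k127 6 (.s k101 k117 3 (.s k192 k128 7 (.s k197 k202 2 (.d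
  k149 k63 k53 14 11)))))) (.c k192 (.l (.s k64 k127 6 (.s k79 k74 2 (.s k101 k117 3 (.s k96 k111 2
  (.d k112 k80 k90 3 6)))))) (.c k215 (.q k235 [(.s k101 k117 3 (.s k111 k96 2 (.s k63 k159 11 (.s
  k21 k42 6 (.d k149 k213 k192 7 14))))), (.s k64 k127 6 (.s k74 k79 2 (.s k192 k128 7 (.s k133 k15
  10 (.d k197 k202 k5 2 7)))))] (.c k63 (.l (.s k101 k117 3 (.s k48 k154 14 (.s k96 k111 2 (.s k192
  k144 11 (.d k64 k127 k128 6 7)))))) (.c k111 (.l (.s k64 k127 6 (.s k101 k117 3 (.s k192 k128 7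
  (.s k197 k202 2 (.d k149 k63 k53 14 11)))))) (.c k192 (.l (.s k64 k127 6 (.s k79 k74 2 (.s k101
  k117 3 (.s k96 k111 2 (.d k112 k80 k90 3 6)))))) .n)))) (.c k235 (.q k215 [(.s k101 k117 3 (.s
  k111 k96 2 (.s k63 k159 11 (.s k21 k42 6 (.d k149 k213 k192 7 14))))), (.s k64 k127 6 (.s k74 k79
  2 (.s k192 k128 7 (.s k133 k15 10 (.d k197 k202 k5 2 7)))))] (.c k63 (.l (.s k101 k117 3 (.s k48
  k154 14 (.s k96 k111 2 (.s k192 k144 11 (.d k64 k127 k128 6 7)))))) (.c k111 (.l (.s k64 k127 6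
  (.s k101 k117 3 (.s k192 k128 7 (.s k197 k202 2 (.d k149 k63 k53 14 11)))))) (.c k192 (.l (.s k64
  k127 6 (.s k79 k74 2 (.s k101 k117 3 (.s k96 k111 2 (.d k112 k80 k90 3 6)))))) .n)))) .n)))))))

def s47_255_196 : T TT 256 :=
  (.q k1 [(.s k3 k2 0 (.s k137 k205 9 (.s k138 k207 10 (.s k136 k139 0 (.d k204 k68 k70 9 10))))),
  (.s k101 k117 3 (.s k169 k253 13 (.s k33 k237 9 (.s k49 k17 3 (.d k205 k137 k153 9 13))))), (.s k3
  k2 0 (.s k101 k117 3 (.s k169 k253 13 (.s k207 k138 10 (.s k48 k154 14 (.d k33 k18 k237 4 9))))))]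
  .n)

def s47_255_197 : T TT 256 :=
  (.q k1 [(.s k3 k2 0 (.s k207 k138 10 (.s k71 k139 9 (.s k70 k68 0 (.d k137 k205 k204 9 10))))),
  (.s k101 k117 3 (.s k169 k253 13 (.s k33 k237 9 (.s k49 k17 3 (.d k205 k137 k153 9 13))))), (.s k3
  k2 0 (.s k101 k117 3 (.s k169 k253 13 (.s k207 k138 10 (.s k48 k154 14 (.d k33 k18 k237 4 9))))))]
  .n)

def s47_255_198 : T TT 256 :=
  (.q k1 [(.s k3 k2 0 (.s k137 k205 9 (.s k138 k207 10 (.s k136 k139 0 (.d k204 k68 k70 9 10))))),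
  (.s k101 k117 3 (.s k169 k253 13 (.s k33 k237 9 (.s k49 k17 3 (.d k205 k137 k153 9 13))))), (.s k3
  k2 0 (.s k101 k117 3 (.s k169 k253 13 (.s k207 k138 10 (.s k48 k154 14 (.d k33 k18 k237 4 9))))))]
  .n)

def s47_255_199 : T TT 256 :=
  (.q k1 [(.s k3 k2 0 (.s k137 k205 9 (.s k70 k204 10 (.s k71 k68 0 (.d k207 k139 k138 9 10))))),
  (.s k101 k117 3 (.s k169 k253 13 (.s k33 k237 9 (.s k49 k17 3 (.d k205 k137 k153 9 13))))), (.s k3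
  k2 0 (.s k101 k117 3 (.s k169 k253 13 (.s k207 k138 10 (.s k48 k154 14 (.d k33 k18 k237 4 9))))))]
  .n)

def s47_255_200 : T TT 256 :=
  (.q k1 [(.s k3 k2 0 (.s k137 k205 9 (.s k138 k207 10 (.s k136 k139 0 (.d k204 k68 k70 9 10))))),
  (.s k101 k117 3 (.s k169 k253 13 (.s k33 k237 9 (.s k49 k17 3 (.d k205 k137 k153 9 13))))), (.s k3
  k2 0 (.s k101 k117 3 (.s k169 k253 13 (.s k207 k138 10 (.s k48 k154 14 (.d k33 k18 k237 4 9))))))]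
  .n)

def s47_255_201 : T TT 256 :=
  (.q k1 [(.s k3 k2 0 (.s k207 k138 10 (.s k71 k139 9 (.s k70 k68 0 (.d k137 k205 k204 9 10))))),
  (.s k101 k117 3 (.s k169 k253 13 (.s k33 k237 9 (.s k49 k17 3 (.d k205 k137 k153 9 13))))), (.s k3
  k2 0 (.s k101 k117 3 (.s k169 k253 13 (.s k207 k138 10 (.s k48 k154 14 (.d k33 k18 k237 4 9))))))]
  .n)

def s47_255_202 : T TT 256 :=
  (.q k1 [(.s k3 k2 0 (.s k137 k205 9 (.s k70 k204 10 (.s k71 k68 0 (.d k207 k139 k138 9 10))))),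
  (.s k101 k117 3 (.s k169 k253 13 (.s k33 k237 9 (.s k49 k17 3 (.d k205 k137 k153 9 13))))), (.s k3
  k2 0 (.s k101 k117 3 (.s k169 k253 13 (.s k207 k138 10 (.s k48 k154 14 (.d k33 k18 k237 4 9))))))]
  .n)

def s47_255_203 : T TT 256 :=
  (.q k1 [(.s k3 k2 0 (.s k137 k205 9 (.s k70 k204 10 (.s k71 k68 0 (.d k207 k139 k138 9 10))))),
  (.s k101 k117 3 (.s k169 k253 13 (.s k33 k237 9 (.s k49 k17 3 (.d k205 k137 k153 9 13))))), (.s k3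
  k2 0 (.s k101 k117 3 (.s k169 k253 13 (.s k207 k138 10 (.s k48 k154 14 (.d k33 k18 k237 4 9))))))]
  .n)

def s47_255_204 : T TT 256 :=
  (.f k207 k138 10 (.q k89 [(.s k81 k93 1 (.s k101 k117 3 (.s k243 k162 12 (.s k219 k231 5 (.d k154
  k48 k24 14 8))))), (.s k93 k81 1 (.s k101 k117 3 (.s k77 k113 5 (.s k65 k73 1 (.d k125 k109 k105 3
  5))))), (.s k81 k93 1 (.s k243 k162 12 (.s k12 k166 14 (.s k4 k8 1 (.s k77 k142 8 (.s k73 k65 1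
  (.d k134 k199 k195 8 10))))))), (.s k101 k117 3 (.s k77 k113 5 (.s k12 k142 8 (.s k4 k8 1 (.d k166
  k247 k243 12 14)))))] (.c k221 (.q k238 [(.s k81 k93 1 (.s k101 k117 3 (.s k243 k162 12 (.s k219
  k231 5 (.d k154 k48 k24 14 8))))), (.s k93 k81 1 (.s k101 k117 3 (.s k77 k113 5 (.s k65 k73 1 (.d
  k125 k109 k105 3 5))))), (.s k81 k93 1 (.s k243 k162 12 (.s k12 k166 14 (.s k4 k8 1 (.s k77 k142 8
  (.s k73 k65 1 (.d k134 k199 k195 8 10))))))), (.s k101 k117 3 (.s k77 k113 5 (.s k12 k142 8 (.s k4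
  k8 1 (.d k166 k247 k243 12 14)))))] .n) (.c k238 (.q k221 [(.s k17 k153 9 (.s k81 k93 1 (.s k209
  k145 7 (.s k149 k29 9 (.d k213 k217 k21 1 7))))), (.s k101 k117 3 (.s k77 k113 5 (.s k12 k142 8
  (.s k4 k8 1 (.d k166 k247 k243 12 14)))))] (.c k12 (.l (.s k17 k153 9 (.s k93 k81 1 (.s k29 k157 7
  (.s k21 k25 1 (.d k149 k213 k209 7 9)))))) .n)) .n))))

def s47_255_205 : T TT 256 :=
  (.q k4 [(.s k12 k8 1 (.s k134 k199 8 (.s k73 k195 10 (.s k77 k65 1 (.d k207 k142 k138 8 10))))),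
  (.s k101 k117 3 (.s k166 k247 12 (.s k36 k231 8 (.s k52 k20 3 (.d k199 k134 k150 8 12))))), (.s
  k12 k8 1 (.s k101 k117 3 (.s k166 k247 12 (.s k207 k138 10 (.s k48 k154 14 (.d k36 k24 k231 5
  8))))))] .n)

def s47_255_206 : T TT 256 :=
  (.q k1 [(.s k3 k2 0 (.s k137 k205 9 (.s k70 k204 10 (.s k207 k138 10 (.d k71 k68 k139 0 9))))),
  (.s k101 k117 3 (.s k169 k253 13 (.s k33 k237 9 (.s k49 k17 3 (.d k205 k137 k153 9 13))))), (.s k3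
  k2 0 (.s k101 k117 3 (.s k169 k253 13 (.s k237 k33 9 (.s k252 k86 14 (.d k207 k138 k222 10
  4))))))] .n)

def s47_255_207 : T TT 256 :=
  (.q k1 [(.s k101 k117 3 (.s k205 k137 9 (.s k153 k49 13 (.s k221 k17 9 (.d k253 k237 k169 3
  13))))), (.s k3 k2 0 (.s k137 k205 9 (.s k169 k253 13 (.s k204 k70 10 (.s k68 k136 9 (.s k102 k119
  4 (.d k153 k51 k185 14 3)))))))] (.c k137 (.f k3 k2 0 (.l (.s k101 k117 3 (.s k169 k253 13 (.s k33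
  k237 9 (.s k48 k18 4 (.s k32 k16 3 (.s k34 k35 0 (.d k17 k49 k51 3 4))))))))) (.c k153 (.f k3 k2 0
  (.l (.s k101 k117 3 (.s k169 k253 13 (.s k33 k237 9 (.s k48 k18 4 (.s k32 k16 3 (.s k34 k35 0 (.d
  k17 k49 k51 3 4))))))))) (.c k169 (.f k3 k2 0 (.f k101 k117 3 (.f k205 k137 9 (.f k153 k49 13 (.l
  (.s k17 k221 9 (.s k51 k34 4 (.s k19 k35 3 (.s k86 k220 10 (.s k71 k116 4 (.s k68 k70 0 (.d k102
  k119 k204 4 14)))))))))))) (.c k185 (.l (.s k101 k117 3 (.s k205 k137 9 (.s k49 k153 13 (.s k169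
  k253 13 (.d k33 k17 k237 3 9)))))) (.c k205 (.f k3 k2 0 (.f k101 k117 3 (.f k169 k253 13 (.f k252
  k86 14 (.f k168 k84 13 (.l (.s k170 k171 0 (.s k237 k33 9 (.s k239 k32 10 (.s k236 k238 0 (.s k204
  k220 3 (.s k68 k136 9 (.d k70 k71 k137 0 10))))))))))))) (.c k221 (.l (.s k101 k117 3 (.s k169
  k253 13 (.s k33 k237 9 (.s k205 k137 9 (.d k49 k17 k153 3 13)))))) (.c k223 (.q k239 [(.s k101
  k117 3 (.s k205 k137 9 (.s k153 k49 13 (.s k221 k17 9 (.d k253 k237 k169 3 13))))), (.s k3 k2 0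
  (.s k101 k117 3 (.s k32 k170 10 (.s k48 k16 3 (.s k33 k18 4 (.s k34 k35 0 (.d k17 k49 k51 3
  4))))))), (.s k3 k2 0 (.s k137 k205 9 (.s k169 k253 13 (.s k204 k70 10 (.s k68 k136 9 (.s k102
  k119 4 (.d k153 k51 k185 14 3)))))))] .n) (.c k237 (.f k3 k2 0 (.l (.s k137 k205 9 (.s k204 k70 10
  (.s k68 k136 9 (.s k102 k119 4 (.s k51 k153 14 (.s k35 k19 3 (.d k169 k253 k236 13 10))))))))) (.c
  k239 (.q k223 [(.s k101 k117 3 (.s k205 k137 9 (.s k153 k49 13 (.s k221 k17 9 (.d k253 k237 k169 3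
  13))))), (.s k3 k2 0 (.s k16 k154 10 (.s k48 k32 3 (.s k33 k18 4 (.s k101 k117 3 (.d k169 k237
  k253 9 13)))))), (.s k3 k2 0 (.s k137 k205 9 (.s k154 k16 10 (.s k169 k253 13 (.s k139 k184 4 (.s
  k136 k138 0 (.d k204 k70 k68 10 9))))))), (.s k3 k2 0 (.s k16 k154 10 (.s k48 k32 3 (.s k33 k18 4
  (.s k49 k17 3 (.s k101 k117 3 (.d k205 k137 k153 9 13)))))))] (.c k111 (.q k175 [(.s k101 k117 3
  (.s k205 k137 9 (.s k153 k49 13 (.s k221 k17 9 (.d k253 k237 k169 3 13))))), (.s k3 k2 0 (.s k16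
  k154 10 (.s k48 k32 3 (.s k33 k18 4 (.s k101 k117 3 (.d k169 k237 k253 9 13)))))), (.s k3 k2 0 (.s
  k137 k205 9 (.s k154 k16 10 (.s k169 k253 13 (.s k139 k184 4 (.s k136 k138 0 (.d k204 k70 k68 10
  9))))))), (.s k3 k2 0 (.s k16 k154 10 (.s k48 k32 3 (.s k33 k18 4 (.s k49 k17 3 (.s k101 k117 3
  (.d k205 k137 k153 9 13)))))))] (.c k63 (.q k159 [(.s k31 k95 7 (.s k154 k16 10 (.s k149 k144 2
  (.s k208 k90 10 (.d k213 k218 k21 2 7))))), (.s k101 k117 3 (.s k169 k253 13 (.s k33 k237 9 (.s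
  k49 k17 3 (.d k205 k137 k153 9 13)))))] (.c k15 (.l (.s k31 k95 7 (.s k154 k16 10 (.s k149 k144 2
  (.s k208 k90 10 (.d k213 k218 k21 2 7)))))) (.c k31 (.q k15 [(.s k5 k10 2 (.s k154 k16 10 (.s k165
  k245 11 (.d k143 k191 k176 3 6)))), (.s k101 k117 3 (.s k169 k253 13 (.s k33 k237 9 (.s k49 k17 3
  (.d k205 k137 k153 9 13)))))] (.c k127 (.l (.s k191 k143 3 (.s k5 k10 2 (.s k165 k245 11 (.s k160
  k170 2 (.d k240 k90 k80 14 11)))))) (.c k191 (.q k127 [(.s k5 k10 2 (.s k133 k197 7 (.s k192 k74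
  10 (.d k64 k106 k128 6 7)))), (.s k5 k10 2 (.s k165 k245 11 (.s k160 k170 2 (.d k240 k90 k80 14
  11)))), (.s k64 k106 6 (.s k74 k79 2 (.d k192 k128 k133 7 10)))] (.c k128 (.l (.s k5 k10 2 (.s k64
  k106 6 (.s k74 k79 2 (.d k133 k192 k197 10 7))))) .n)) .n))) (.c k127 (.l (.s k191 k143 3 (.s k101
  k117 3 (.s k169 k253 13 (.s k33 k237 9 (.s k49 k17 3 (.d k205 k137 k153 9 13))))))) (.c k191 (.q
  k127 [(.s k31 k95 7 (.s k154 k16 10 (.s k149 k144 2 (.s k208 k90 10 (.d k213 k218 k21 2 7))))),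
  (.s k101 k117 3 (.s k169 k253 13 (.s k33 k237 9 (.s k49 k17 3 (.d k205 k137 k153 9 13)))))] (.c
  k15 (.l (.s k31 k95 7 (.s k154 k16 10 (.s k149 k144 2 (.s k208 k90 10 (.d k213 k218 k21 2 7))))))
  (.c k31 (.q k15 [(.s k5 k10 2 (.s k133 k197 7 (.s k192 k74 10 (.d k64 k106 k128 6 7)))), (.s k5
  k10 2 (.s k165 k245 11 (.s k160 k170 2 (.d k240 k90 k80 14 11)))), (.s k64 k106 6 (.s k74 k79 2
  (.d k192 k128 k133 7 10)))] (.c k128 (.l (.s k5 k10 2 (.s k64 k106 6 (.s k74 k79 2 (.d k133 k192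
  k197 10 7))))) .n)) .n))) .n))))) (.c k159 (.q k63 [(.s k3 k2 0 (.s k21 k42 6 (.s k23 k43 5 (.s
  k22 k20 0 (.d k41 k61 k60 5 6))))), (.s k101 k117 3 (.s k169 k253 13 (.s k33 k237 9 (.s k49 k17 3
  (.d k205 k137 k153 9 13)))))] .n) .n))) (.c k175 (.q k111 [(.s k101 k117 3 (.s k205 k137 9 (.s
  k153 k49 13 (.s k221 k17 9 (.d k253 k237 k169 3 13))))), (.s k3 k2 0 (.s k16 k154 10 (.s k48 k32 3
  (.s k33 k18 4 (.s k101 k117 3 (.d k169 k237 k253 9 13)))))), (.s k3 k2 0 (.s k137 k205 9 (.s k154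
  k16 10 (.s k169 k253 13 (.s k139 k184 4 (.s k136 k138 0 (.d k204 k70 k68 10 9))))))), (.s k3 k2 0
  (.s k16 k154 10 (.s k48 k32 3 (.s k33 k18 4 (.s k49 k17 3 (.s k101 k117 3 (.d k205 k137 k153 9
  13)))))))] (.c k15 (.q k95 [(.s k79 k127 3 (.s k90 k80 2 (.d k101 k117 k112 3 6))), (.s k101 k117
  3 (.s k106 k96 2 (.d k127 k79 k64 3 6))), (.s k31 k159 7 (.s k90 k80 2 (.s k149 k208 10 (.s k21
  k213 7 (.d k16 k26 k154 2 10)))))] (.c k31 (.q k63 [(.s k79 k127 3 (.s k90 k80 2 (.d k101 k117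
  k112 3 6))), (.s k3 k2 0 (.s k21 k42 6 (.s k23 k43 5 (.s k22 k20 0 (.d k41 k61 k60 5 6)))))] (.c
  k79 (.q k143 [(.s k21 k42 6 (.s k101 k117 3 (.s k106 k96 2 (.d k149 k213 k192 7 14)))), (.s k3 k2
  0 (.s k21 k42 6 (.s k23 k43 5 (.s k22 k20 0 (.d k41 k61 k60 5 6))))), (.s k101 k117 3 (.s k106 k96
  2 (.s k64 k127 6 (.d k192 k128 k149 7 14))))] .n) (.c k143 (.l (.s k79 k127 3 (.s k90 k80 2 (.d
  k101 k117 k112 3 6)))) .n))) (.c k63 (.l (.s k31 k159 7 (.s k90 k80 2 (.s k101 k117 3 (.d k79 k127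
  k112 3 6))))) (.c k79 (.q k143 [(.s k31 k159 7 (.s k90 k80 2 (.s k154 k16 10 (.s k208 k149 10 (.d
  k218 k213 k26 2 7))))), (.s k101 k117 3 (.s k169 k253 13 (.s k33 k237 9 (.s k49 k17 3 (.d k205
  k137 k153 9 13)))))] (.c k31 (.q k63 [(.s k21 k42 6 (.s k101 k117 3 (.s k106 k96 2 (.d k149 k213
  k192 7 14)))), (.s k3 k2 0 (.s k21 k42 6 (.s k23 k43 5 (.s k22 k20 0 (.d k41 k61 k60 5 6))))), (.s
  k101 k117 3 (.s k106 k96 2 (.s k64 k127 6 (.d k192 k128 k149 7 14))))] .n) (.c k63 (.l (.s k31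
  k159 7 (.s k16 k154 10 (.s k21 k26 2 (.s k90 k80 2 (.d k149 k213 k208 7 10)))))) .n))) (.c k143
  (.l (.s k79 k127 3 (.s k90 k80 2 (.d k101 k117 k112 3 6)))) .n))))) (.c k95 (.q k15 [(.s k3 k2 0
  (.s k5 k10 2 (.s k7 k11 1 (.s k6 k4 0 (.d k9 k13 k12 1 2))))), (.s k101 k117 3 (.s k106 k96 2 (.s
  k64 k127 6 (.s k74 k79 2 (.d k192 k128 k133 7 10)))))] .n) .n))) .n))) (.c k253 (.f k3 k2 0 (.f
  k101 k117 3 (.f k137 k205 9 (.f k204 k70 10 (.l (.s k68 k136 9 (.s k102 k119 4 (.s k51 k153 14 (.s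
  k17 k34 4 (.s k19 k35 3 (.s k18 k16 0 (.d k33 k49 k48 3 4)))))))))))) .n)))))))))))

def s47_255_208 : T TT 256 :=
  (.q k1 [(.s k3 k2 0 (.s k137 k205 9 (.s k70 k204 10 (.s k71 k68 0 (.d k207 k139 k138 9 10))))),
  (.s k101 k117 3 (.s k169 k253 13 (.s k33 k237 9 (.s k49 k17 3 (.d k205 k137 k153 9 13))))), (.s k3
  k2 0 (.s k101 k117 3 (.s k169 k253 13 (.s k207 k138 10 (.s k48 k154 14 (.d k33 k18 k237 4 9))))))]
  .n)

def s47_255_209 : T TT 256 :=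
  (.q k1 [(.s k3 k2 0 (.s k137 k205 9 (.s k70 k204 10 (.s k71 k68 0 (.d k207 k139 k138 9 10))))),
  (.s k101 k117 3 (.s k169 k253 13 (.s k33 k237 9 (.s k49 k17 3 (.d k205 k137 k153 9 13))))), (.s k3
  k2 0 (.s k101 k117 3 (.s k169 k253 13 (.s k207 k138 10 (.s k48 k154 14 (.d k33 k18 k237 4 9))))))]
  .n)

def s47_255_210 : T TT 256 :=
  (.q k1 [(.s k3 k2 0 (.s k137 k205 9 (.s k70 k204 10 (.s k71 k68 0 (.d k207 k139 k138 9 10))))),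
  (.s k101 k117 3 (.s k169 k253 13 (.s k33 k237 9 (.s k49 k17 3 (.d k205 k137 k153 9 13))))), (.s k3
  k2 0 (.s k101 k117 3 (.s k169 k253 13 (.s k207 k138 10 (.s k48 k154 14 (.d k33 k18 k237 4 9))))))]
  .n)

def s47_255_211 : T TT 256 :=
  (.q k1 [(.s k3 k2 0 (.s k137 k205 9 (.s k70 k204 10 (.s k71 k68 0 (.d k207 k139 k138 9 10))))),
  (.s k101 k117 3 (.s k169 k253 13 (.s k33 k237 9 (.s k49 k17 3 (.d k205 k137 k153 9 13))))), (.s k3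
  k2 0 (.s k101 k117 3 (.s k169 k253 13 (.s k207 k138 10 (.s k48 k154 14 (.d k33 k18 k237 4 9))))))]
  .n)

def s47_255_212 : T TT 256 :=
  (.q k1 [(.s k3 k2 0 (.s k137 k205 9 (.s k70 k204 10 (.s k71 k68 0 (.d k207 k139 k138 9 10))))),
  (.s k101 k117 3 (.s k169 k253 13 (.s k33 k237 9 (.s k49 k17 3 (.d k205 k137 k153 9 13))))), (.s k3
  k2 0 (.s k101 k117 3 (.s k169 k253 13 (.s k207 k138 10 (.s k48 k154 14 (.d k33 k18 k237 4 9))))))]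
  .n)

def s47_255_213 : T TT 256 :=
  (.q k192 [(.s k64 k128 7 (.s k74 k79 2 (.s k15 k133 10 (.s k10 k5 2 (.d k138 k202 k207 7 10))))),
  (.s k64 k128 7 (.s k79 k74 2 (.s k101 k117 3 (.s k90 k112 6 (.s k95 k80 2 (.d k127 k111 k106 3
  6)))))), (.s k101 k117 3 (.s k207 k138 10 (.s k48 k154 14 (.s k96 k144 11 (.s k106 k111 2 (.s k149
  k63 14 (.d k197 k202 k53 2 11)))))))] .n)

def s47_255_214 : T TT 256 :=
  (.q k1 [(.s k3 k2 0 (.s k137 k205 9 (.s k70 k204 10 (.s k71 k68 0 (.d k207 k139 k138 9 10))))),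
  (.s k101 k117 3 (.s k169 k253 13 (.s k33 k237 9 (.s k49 k17 3 (.d k205 k137 k153 9 13))))), (.s k3
  k2 0 (.s k101 k117 3 (.s k169 k253 13 (.s k207 k138 10 (.s k48 k154 14 (.d k33 k18 k237 4 9))))))]
  .n)

def s47_255_215 : T TT 256 :=
  (.q k195 [(.s k65 k130 8 (.s k73 k77 1 (.s k12 k134 10 (.s k8 k4 1 (.d k138 k203 k207 8 10))))),
  (.s k101 k117 3 (.s k207 k138 10 (.s k48 k154 14 (.s k97 k146 12 (.s k105 k109 1 (.s k150 k60 14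
  (.d k199 k203 k52 1 12))))))), (.s k65 k130 8 (.s k77 k73 1 (.s k101 k117 3 (.s k89 k113 5 (.s k93
  k81 1 (.d k125 k109 k105 3 5))))))] .n)

def s47_255_216 : T TT 256 :=
  (.q k1 [(.s k3 k2 0 (.s k137 k205 9 (.s k138 k207 10 (.s k136 k139 0 (.d k204 k68 k70 9 10))))),
  (.s k101 k117 3 (.s k169 k253 13 (.s k33 k237 9 (.s k49 k17 3 (.d k205 k137 k153 9 13))))), (.s k3
  k2 0 (.s k101 k117 3 (.s k169 k253 13 (.s k207 k138 10 (.s k48 k154 14 (.d k33 k18 k237 4 9))))))]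
  .n)

def s47_255_217 : T TT 256 :=
  (.q k1 [(.s k3 k2 0 (.s k207 k138 10 (.s k71 k139 9 (.s k70 k68 0 (.d k137 k205 k204 9 10))))),
  (.s k101 k117 3 (.s k169 k253 13 (.s k33 k237 9 (.s k49 k17 3 (.d k205 k137 k153 9 13))))), (.s k3
  k2 0 (.s k101 k117 3 (.s k169 k253 13 (.s k207 k138 10 (.s k48 k154 14 (.d k33 k18 k237 4 9))))))]
  .n)

def s47_255_218 : T TT 256 :=
  (.q k1 [(.s k3 k2 0 (.s k137 k205 9 (.s k70 k204 10 (.s k71 k68 0 (.d k207 k139 k138 9 10))))),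
  (.s k101 k117 3 (.s k169 k253 13 (.s k33 k237 9 (.s k49 k17 3 (.d k205 k137 k153 9 13))))), (.s k3
  k2 0 (.s k101 k117 3 (.s k169 k253 13 (.s k207 k138 10 (.s k48 k154 14 (.d k33 k18 k237 4 9))))))]
  .n)

def s47_255_219 : T TT 256 :=
  (.q k1 [(.s k3 k2 0 (.s k137 k205 9 (.s k70 k204 10 (.s k71 k68 0 (.d k207 k139 k138 9 10))))),
  (.s k101 k117 3 (.s k169 k253 13 (.s k33 k237 9 (.s k49 k17 3 (.d k205 k137 k153 9 13))))), (.s k3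
  k2 0 (.s k101 k117 3 (.s k169 k253 13 (.s k207 k138 10 (.s k48 k154 14 (.d k33 k18 k237 4 9))))))]
  .n)

def s47_255_220 : T TT 256 :=
  (.q k1 [(.s k3 k2 0 (.s k137 k205 9 (.s k138 k207 10 (.s k136 k139 0 (.d k204 k68 k70 9 10))))),
  (.s k101 k117 3 (.s k169 k253 13 (.s k33 k237 9 (.s k49 k17 3 (.d k205 k137 k153 9 13))))), (.s k3
  k2 0 (.s k101 k117 3 (.s k169 k253 13 (.s k207 k138 10 (.s k48 k154 14 (.d k33 k18 k237 4 9))))))]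
  .n)

def s47_255_221 : T TT 256 :=
  (.q k204 [(.s k68 k136 9 (.s k70 k71 0 (.s k3 k137 10 (.s k2 k1 0 (.d k138 k206 k207 9 10))))),
  (.s k101 k117 3 (.s k207 k138 10 (.s k48 k154 14 (.s k100 k152 13 (.s k102 k103 0 (.s k153 k51 14
  (.d k205 k206 k49 0 13))))))), (.s k68 k136 9 (.s k71 k70 0 (.s k101 k117 3 (.s k86 k116 4 (.s k87
  k84 0 (.d k119 k103 k102 3 4))))))] .n)

def s47_255_222 : T TT 256 :=
  (.q k1 [(.s k3 k2 0 (.s k137 k205 9 (.s k70 k204 10 (.s k71 k68 0 (.d k207 k139 k138 9 10))))),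
  (.s k101 k117 3 (.s k169 k253 13 (.s k205 k137 9 (.s k49 k153 13 (.d k33 k17 k237 3 9))))), (.s k3
  k2 0 (.s k101 k117 3 (.s k169 k253 13 (.s k207 k138 10 (.s k48 k154 14 (.d k33 k18 k237 4 9))))))]
  .n)

def s47_255_223 : T TT 256 :=
  (.q k169 [(.s k101 k117 3 (.s k207 k138 10 (.s k237 k33 9 (.s k252 k222 4 (.s k84 k168 13 (.d k86
  k87 k3 0 14)))))), (.s k207 k138 10 (.s k1 k253 13 (.s k3 k2 0 (.s k71 k139 9 (.s k70 k68 0 (.d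
  k137 k205 k204 9 10)))))), (.s k1 k253 13 (.s k101 k117 3 (.s k33 k237 9 (.s k49 k17 3 (.d k205
  k137 k153 9 13)))))] (.c k207 (.q k239 [(.s k1 k253 13 (.s k3 k2 0 (.s k252 k86 14 (.s k168 k84 13
  (.s k170 k171 0 (.d k101 k117 k32 3 10)))))), (.s k101 k117 3 (.s k32 k170 10 (.s k237 k33 9 (.s
  k236 k238 0 (.s k100 k168 9 (.d k102 k103 k35 0 10)))))), (.s k1 k253 13 (.s k3 k2 0 (.s k137 k205
  9 (.s k204 k70 10 (.s k68 k136 9 (.s k102 k119 4 (.d k153 k51 k185 14 3)))))))] .n) (.c k239 (.l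
  (.s k207 k138 10 (.s k1 k253 13 (.s k3 k2 0 (.s k71 k139 9 (.s k70 k68 0 (.d k137 k205 k204 9
  10))))))) (.c k252 (.l (.s k101 k117 3 (.s k33 k237 9 (.s k207 k138 10 (.s k48 k154 14 (.s k3 k18
  4 (.d k1 k2 k253 0 13))))))) .n))))

def s47_255_224 : T TT 256 :=
  (.q k106 [(.s k64 k127 6 (.s k79 k74 2 (.s k101 k117 3 (.s k112 k90 6 (.d k96 k111 k80 2 3))))),
  (.s k64 k127 6 (.s k74 k79 2 (.s k138 k207 10 (.s k10 k202 7 (.s k15 k5 2 (.d k192 k128 k133 7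
  10)))))), (.s k101 k117 3 (.s k111 k96 2 (.s k207 k138 10 (.s k63 k159 11 (.s k21 k42 6 (.d k149
  k213 k192 7 14))))))] (.c k63 (.l (.s k101 k117 3 (.s k96 k111 2 (.s k207 k138 10 (.s k48 k154 14
  (.s k192 k144 11 (.d k64 k127 k128 6 7))))))) (.c k111 (.l (.s k64 k127 6 (.s k101 k117 3 (.s k192
  k128 7 (.s k207 k138 10 (.s k197 k202 2 (.d k149 k63 k53 14 11))))))) .n)))

def s47_255_225 : T TT 256 :=
  (.q k1 [(.s k3 k2 0 (.s k137 k205 9 (.s k70 k204 10 (.s k71 k68 0 (.d k207 k139 k138 9 10))))),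
  (.s k101 k117 3 (.s k169 k253 13 (.s k33 k237 9 (.s k49 k17 3 (.d k205 k137 k153 9 13))))), (.s k3
  k2 0 (.s k101 k117 3 (.s k169 k253 13 (.s k207 k138 10 (.s k48 k154 14 (.d k33 k18 k237 4 9))))))]
  .n)

def s47_255_226 : T TT 256 :=
  (.q k1 [(.s k3 k2 0 (.s k137 k205 9 (.s k70 k204 10 (.s k71 k68 0 (.d k207 k139 k138 9 10))))),
  (.s k101 k117 3 (.s k169 k253 13 (.s k33 k237 9 (.s k49 k17 3 (.d k205 k137 k153 9 13))))), (.s k3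
  k2 0 (.s k101 k117 3 (.s k169 k253 13 (.s k207 k138 10 (.s k48 k154 14 (.d k33 k18 k237 4 9))))))]
  .n)

def s47_255_227 : T TT 256 :=
  (.f k207 k138 10 (.q k80 [(.s k90 k95 2 (.s k101 k117 3 (.s k240 k160 11 (.s k218 k229 6 (.d k154
  k48 k26 14 7))))), (.s k101 k117 3 (.s k48 k154 14 (.s k16 k32 3 (.s k144 k208 7 (.s k96 k192 11
  (.s k64 k112 3 (.d k106 k127 k111 6 2))))))), (.s k90 k95 2 (.s k240 k160 11 (.s k15 k165 14 (.s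
  k5 k10 2 (.s k79 k143 7 (.s k74 k64 2 (.d k133 k197 k192 7 10)))))))] (.c k107 (.q k167 [(.s k90
  k95 2 (.s k101 k117 3 (.s k240 k160 11 (.s k218 k229 6 (.d k154 k48 k26 14 7))))), (.s k101 k117 3
  (.s k48 k154 14 (.s k16 k32 3 (.s k144 k208 7 (.s k96 k192 11 (.s k64 k112 3 (.d k106 k127 k111 6
  2))))))), (.s k90 k95 2 (.s k240 k160 11 (.s k15 k165 14 (.s k5 k10 2 (.s k79 k143 7 (.s k74 k64 2
  (.d k133 k197 k192 7 10)))))))] (.c k154 (.l (.s k90 k95 2 (.s k101 k117 3 (.s k79 k112 6 (.s k15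
  k143 7 (.d k240 k165 k160 14 11)))))) (.c k240 (.l (.s k90 k95 2 (.s k101 k117 3 (.s k48 k154 14
  (.s k16 k32 3 (.s k112 k79 6 (.s k96 k64 3 (.d k144 k208 k192 7 11)))))))) .n))) (.c k154 (.l (.s
  k90 k95 2 (.s k101 k117 3 (.s k79 k112 6 (.s k15 k143 7 (.d k240 k165 k160 14 11)))))) (.c k167
  (.q k107 [(.s k90 k95 2 (.s k101 k117 3 (.s k240 k160 11 (.s k218 k229 6 (.d k154 k48 k26 14
  7))))), (.s k101 k117 3 (.s k48 k154 14 (.s k16 k32 3 (.s k144 k208 7 (.s k96 k192 11 (.s k64 k112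
  3 (.d k106 k127 k111 6 2))))))), (.s k90 k95 2 (.s k240 k160 11 (.s k15 k165 14 (.s k5 k10 2 (.s
  k79 k143 7 (.s k74 k64 2 (.d k133 k197 k192 7 10)))))))] (.c k154 (.l (.s k90 k95 2 (.s k101 k117
  3 (.s k79 k112 6 (.s k15 k143 7 (.d k240 k165 k160 14 11)))))) (.c k240 (.l (.s k90 k95 2 (.s k101
  k117 3 (.s k48 k154 14 (.s k16 k32 3 (.s k112 k79 6 (.s k96 k64 3 (.d k144 k208 k192 7 11))))))))
  .n))) (.c k240 (.l (.s k90 k95 2 (.s k101 k117 3 (.s k48 k154 14 (.s k16 k32 3 (.s k112 k79 6 (.s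
  k96 k64 3 (.d k144 k208 k192 7 11)))))))) .n))))))

def s47_255_228 : T TT 256 :=
  (.q k1 [(.s k3 k2 0 (.s k137 k205 9 (.s k138 k207 10 (.s k136 k139 0 (.d k204 k68 k70 9 10))))),
  (.s k101 k117 3 (.s k169 k253 13 (.s k33 k237 9 (.s k49 k17 3 (.d k205 k137 k153 9 13))))), (.s k3
  k2 0 (.s k101 k117 3 (.s k169 k253 13 (.s k207 k138 10 (.s k48 k154 14 (.d k33 k18 k237 4 9))))))]
  .n)

def s47_255_229 : T TT 256 :=
  (.q k1 [(.s k3 k2 0 (.s k207 k138 10 (.s k71 k139 9 (.s k70 k68 0 (.d k137 k205 k204 9 10))))),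
  (.s k101 k117 3 (.s k169 k253 13 (.s k33 k237 9 (.s k49 k17 3 (.d k205 k137 k153 9 13))))), (.s k3
  k2 0 (.s k101 k117 3 (.s k169 k253 13 (.s k207 k138 10 (.s k48 k154 14 (.d k33 k18 k237 4 9))))))]
  .n)

def s47_255_230 : T TT 256 :=
  (.q k1 [(.s k3 k2 0 (.s k137 k205 9 (.s k138 k207 10 (.s k136 k139 0 (.d k204 k68 k70 9 10))))),
  (.s k101 k117 3 (.s k169 k253 13 (.s k33 k237 9 (.s k49 k17 3 (.d k205 k137 k153 9 13))))), (.s k3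
  k2 0 (.s k101 k117 3 (.s k169 k253 13 (.s k207 k138 10 (.s k48 k154 14 (.d k33 k18 k237 4 9))))))]
  .n)

def s47_255_231 : T TT 256 :=
  (.q k1 [(.s k3 k2 0 (.s k137 k205 9 (.s k70 k204 10 (.s k71 k68 0 (.d k207 k139 k138 9 10))))),
  (.s k101 k117 3 (.s k169 k253 13 (.s k33 k237 9 (.s k49 k17 3 (.d k205 k137 k153 9 13))))), (.s k3
  k2 0 (.s k101 k117 3 (.s k169 k253 13 (.s k207 k138 10 (.s k48 k154 14 (.d k33 k18 k237 4 9))))))]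
  .n)

def s47_255_232 : T TT 256 :=
  (.q k1 [(.s k3 k2 0 (.s k137 k205 9 (.s k70 k204 10 (.s k71 k68 0 (.d k207 k139 k138 9 10))))),
  (.s k101 k117 3 (.s k169 k253 13 (.s k33 k237 9 (.s k49 k17 3 (.d k205 k137 k153 9 13))))), (.s k3
  k2 0 (.s k101 k117 3 (.s k169 k253 13 (.s k207 k138 10 (.s k48 k154 14 (.d k33 k18 k237 4 9))))))]
  .n)

def s47_255_233 : T TT 256 :=
  (.q k1 [(.s k3 k2 0 (.s k137 k205 9 (.s k70 k204 10 (.s k71 k68 0 (.d k207 k139 k138 9 10))))),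
  (.s k101 k117 3 (.s k169 k253 13 (.s k33 k237 9 (.s k49 k17 3 (.d k205 k137 k153 9 13))))), (.s k3
  k2 0 (.s k101 k117 3 (.s k169 k253 13 (.s k207 k138 10 (.s k48 k154 14 (.d k33 k18 k237 4 9))))))]
  .n)

def s47_255_234 : T TT 256 :=
  (.q k192 [(.s k64 k128 7 (.s k74 k79 2 (.s k15 k133 10 (.s k10 k5 2 (.d k138 k202 k207 7 10))))),
  (.s k64 k128 7 (.s k79 k74 2 (.s k101 k117 3 (.s k90 k112 6 (.s k95 k80 2 (.d k127 k111 k106 3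
  6)))))), (.s k101 k117 3 (.s k207 k138 10 (.s k197 k202 2 (.s k149 k53 11 (.s k21 k213 7 (.d k63
  k42 k106 6 14))))))] (.c k74 (.l (.s k64 k128 7 (.s k101 k117 3 (.s k106 k127 6 (.s k63 k149 14
  (.s k111 k96 2 (.d k207 k138 k159 10 11))))))) .n))

def s47_255_235 : T TT 256 :=
  (.q k195 [(.s k65 k130 8 (.s k73 k77 1 (.s k12 k134 10 (.s k8 k4 1 (.d k138 k203 k207 8 10))))),
  (.s k65 k130 8 (.s k77 k73 1 (.s k101 k117 3 (.s k89 k113 5 (.s k93 k81 1 (.d k125 k109 k105 3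
  5)))))), (.s k101 k117 3 (.s k207 k138 10 (.s k199 k203 1 (.s k150 k52 12 (.s k20 k215 8 (.d k60
  k40 k105 5 14))))))] (.c k73 (.l (.s k65 k130 8 (.s k101 k117 3 (.s k105 k125 5 (.s k60 k150 14
  (.s k109 k97 1 (.d k207 k138 k158 10 12))))))) .n))

def s47_255_236 : T TT 256 :=
  (.f k207 k138 10 (.q k80 [(.s k90 k95 2 (.s k101 k117 3 (.s k240 k160 11 (.s k218 k229 6 (.d k154
  k48 k26 14 7))))), (.s k101 k117 3 (.s k48 k154 14 (.s k16 k32 3 (.s k144 k208 7 (.s k96 k192 11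
  (.s k64 k112 3 (.d k106 k127 k111 6 2))))))), (.s k90 k95 2 (.s k240 k160 11 (.s k15 k165 14 (.s
  k5 k10 2 (.s k79 k143 7 (.s k74 k64 2 (.d k133 k197 k192 7 10)))))))] (.c k110 (.q k173 [(.s k90
  k95 2 (.s k101 k117 3 (.s k240 k160 11 (.s k218 k229 6 (.d k154 k48 k26 14 7))))), (.s k101 k117 3
  (.s k48 k154 14 (.s k16 k32 3 (.s k144 k208 7 (.s k96 k192 11 (.s k64 k112 3 (.d k106 k127 k111 6
  2))))))), (.s k90 k95 2 (.s k240 k160 11 (.s k15 k165 14 (.s k5 k10 2 (.s k79 k143 7 (.s k74 k64 2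
  (.d k133 k197 k192 7 10)))))))] (.c k154 (.l (.s k90 k95 2 (.s k101 k117 3 (.s k79 k112 6 (.s k15
  k143 7 (.d k240 k165 k160 14 11)))))) (.c k240 (.l (.s k90 k95 2 (.s k101 k117 3 (.s k48 k154 14
  (.s k16 k32 3 (.s k112 k79 6 (.s k96 k64 3 (.d k144 k208 k192 7 11)))))))) .n))) (.c k154 (.l (.s
  k90 k95 2 (.s k101 k117 3 (.s k79 k112 6 (.s k15 k143 7 (.d k240 k165 k160 14 11)))))) (.c k173
  (.q k110 [(.s k90 k95 2 (.s k101 k117 3 (.s k240 k160 11 (.s k218 k229 6 (.d k154 k48 k26 14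
  7))))), (.s k101 k117 3 (.s k48 k154 14 (.s k16 k32 3 (.s k144 k208 7 (.s k96 k192 11 (.s k64 k112
  3 (.d k106 k127 k111 6 2))))))), (.s k90 k95 2 (.s k240 k160 11 (.s k15 k165 14 (.s k5 k10 2 (.s
  k79 k143 7 (.s k74 k64 2 (.d k133 k197 k192 7 10)))))))] (.c k154 (.l (.s k90 k95 2 (.s k101 k117
  3 (.s k79 k112 6 (.s k15 k143 7 (.d k240 k165 k160 14 11)))))) (.c k240 (.l (.s k90 k95 2 (.s k101
  k117 3 (.s k48 k154 14 (.s k16 k32 3 (.s k112 k79 6 (.s k96 k64 3 (.d k144 k208 k192 7 11))))))))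
  .n))) (.c k240 (.l (.s k90 k95 2 (.s k101 k117 3 (.s k48 k154 14 (.s k16 k32 3 (.s k112 k79 6 (.s
  k96 k64 3 (.d k144 k208 k192 7 11)))))))) .n))))))

def s47_255_237 : T TT 256 :=
  (.q k4 [(.s k12 k8 1 (.s k134 k199 8 (.s k73 k195 10 (.s k77 k65 1 (.d k207 k142 k138 8 10))))),
  (.s k101 k117 3 (.s k166 k247 12 (.s k36 k231 8 (.s k52 k20 3 (.d k199 k134 k150 8 12))))), (.s
  k12 k8 1 (.s k101 k117 3 (.s k166 k247 12 (.s k207 k138 10 (.s k48 k154 14 (.d k36 k24 k231 5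
  8))))))] .n)

def s47_255_238 : T TT 256 :=
  (.q k204 [(.s k68 k136 9 (.s k70 k71 0 (.s k3 k137 10 (.s k2 k1 0 (.d k138 k206 k207 9 10))))),
  (.s k68 k136 9 (.s k71 k70 0 (.s k101 k117 3 (.s k86 k116 4 (.s k87 k84 0 (.d k119 k103 k102 3
  4)))))), (.s k101 k117 3 (.s k207 k138 10 (.s k205 k206 0 (.s k153 k49 13 (.s k17 k221 9 (.d k51
  k34 k102 4 14))))))] (.c k70 (.l (.s k68 k136 9 (.s k101 k117 3 (.s k102 k119 4 (.s k51 k153 14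
  (.s k103 k100 0 (.d k207 k138 k155 10 13))))))) .n))

def s47_255_239 : T TT 256 :=
  (.f k207 k138 10 (.q k111 [(.s k63 k159 11 (.s k21 k42 6 (.s k101 k117 3 (.s k106 k96 2 (.d k149
  k213 k192 7 14))))), (.s k101 k117 3 (.s k106 k96 2 (.s k64 k127 6 (.s k192 k128 7 (.s k202 k197 2
  (.d k154 k48 k58 14 11)))))), (.s k63 k159 11 (.s k21 k42 6 (.s k149 k213 7 (.s k192 k106 14 (.s
  k197 k202 2 (.s k5 k133 7 (.d k53 k37 k101 3 11)))))))] (.c k63 (.l (.s k101 k117 3 (.s k48 k154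
  14 (.s k96 k106 2 (.s k192 k144 11 (.s k64 k128 7 (.s k79 k74 2 (.d k112 k90 k80 6 3)))))))) (.c
  k101 (.f k63 k159 11 (.l (.s k21 k42 6 (.s k149 k213 7 (.s k192 k106 14 (.s k64 k128 7 (.s k74 k79
  2 (.s k133 k15 10 (.d k197 k202 k5 2 7))))))))) (.c k106 (.l (.s k63 k159 11 (.s k21 k42 6 (.s
  k101 k117 3 (.s k48 k154 14 (.s k149 k213 7 (.d k53 k58 k197 2 11))))))) (.c k192 (.l (.s k63 k159
  11 (.s k21 k42 6 (.s k101 k117 3 (.s k48 k154 14 (.s k53 k58 2 (.d k149 k213 k197 7 11)))))))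
  .n))))))

def s47_255_240 : T TT 256 :=
  (.q k5 [(.s k101 k117 3 (.s k197 k133 7 (.s k53 k149 11 (.s k37 k21 3 (.d k165 k245 k229 11
  7))))), (.s k15 k10 2 (.s k133 k197 7 (.s k74 k192 10 (.s k79 k64 2 (.d k207 k143 k138 7 10))))),
  (.s k15 k10 2 (.s k101 k117 3 (.s k207 k138 10 (.s k48 k154 14 (.s k37 k26 6 (.d k165 k245 k229 11
  7))))))] (.c k245 (.q k250 [(.s k15 k10 2 (.s k207 k138 10 (.s k79 k143 7 (.s k74 k64 2 (.d k133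
  k197 k192 7 10))))), (.s k10 k15 2 (.s k101 k117 3 (.s k207 k138 10 (.s k48 k154 14 (.s k32 k16 3
  (.d k170 k90 k239 11 10)))))), (.s k101 k117 3 (.s k197 k133 7 (.s k53 k149 11 (.s k21 k37 3 (.s
  k207 k138 10 (.s k48 k154 14 (.d k63 k42 k58 6 2))))))), (.s k10 k15 2 (.s k90 k170 11 (.s k95 k80
  2 (.s k101 k117 3 (.s k79 k112 6 (.s k64 k74 2 (.d k127 k111 k106 3 6)))))))] .n) (.c k250 (.l (.s
  k245 k165 11 (.s k101 k117 3 (.s k197 k133 7 (.s k149 k53 11 (.d k213 k229 k21 3 7)))))) .n)))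

def s47_255_241 : T TT 256 :=
  (.q k1 [(.s k3 k2 0 (.s k207 k138 10 (.s k71 k139 9 (.s k70 k68 0 (.d k137 k205 k204 9 10))))),
  (.s k101 k117 3 (.s k169 k253 13 (.s k33 k237 9 (.s k49 k17 3 (.d k205 k137 k153 9 13))))), (.s k3
  k2 0 (.s k101 k117 3 (.s k169 k253 13 (.s k207 k138 10 (.s k48 k154 14 (.d k33 k18 k237 4 9))))))]
  .n)

def s47_255_242 : T TT 256 :=
  (.q k1 [(.s k3 k2 0 (.s k137 k205 9 (.s k70 k204 10 (.s k71 k68 0 (.d k207 k139 k138 9 10))))),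
  (.s k101 k117 3 (.s k169 k253 13 (.s k33 k237 9 (.s k49 k17 3 (.d k205 k137 k153 9 13))))), (.s k3
  k2 0 (.s k101 k117 3 (.s k169 k253 13 (.s k207 k138 10 (.s k48 k154 14 (.d k33 k18 k237 4 9))))))]
  .n)

def s47_255_243 : T TT 256 :=
  (.q k4 [(.s k101 k117 3 (.s k199 k134 8 (.s k52 k150 12 (.s k36 k20 3 (.d k166 k247 k231 12
  8))))), (.s k12 k8 1 (.s k134 k199 8 (.s k73 k195 10 (.s k77 k65 1 (.d k207 k142 k138 8 10))))),
  (.s k12 k8 1 (.s k101 k117 3 (.s k207 k138 10 (.s k48 k154 14 (.s k36 k24 5 (.d k166 k247 k231 12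
  8))))))] (.c k247 (.q k251 [(.s k12 k8 1 (.s k207 k138 10 (.s k77 k142 8 (.s k73 k65 1 (.d k134
  k199 k195 8 10))))), (.s k8 k12 1 (.s k101 k117 3 (.s k207 k138 10 (.s k48 k154 14 (.s k32 k16 3
  (.d k170 k89 k239 12 10)))))), (.s k101 k117 3 (.s k199 k134 8 (.s k52 k150 12 (.s k20 k36 3 (.s
  k60 k40 5 (.s k207 k138 10 (.d k48 k56 k154 1 14))))))), (.s k8 k12 1 (.s k89 k170 12 (.s k93 k81
  1 (.s k101 k117 3 (.s k77 k113 5 (.s k65 k73 1 (.d k125 k109 k105 3 5)))))))] .n) (.c k251 (.l (.s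
  k247 k166 12 (.s k101 k117 3 (.s k199 k134 8 (.s k150 k52 12 (.d k215 k231 k20 3 8)))))) .n)))

def s47_255_244 : T TT 256 :=
  (.q k1 [(.s k3 k2 0 (.s k137 k205 9 (.s k70 k204 10 (.s k71 k68 0 (.d k207 k139 k138 9 10))))),
  (.s k101 k117 3 (.s k169 k253 13 (.s k33 k237 9 (.s k49 k17 3 (.d k205 k137 k153 9 13))))), (.s k3
  k2 0 (.s k101 k117 3 (.s k169 k253 13 (.s k207 k138 10 (.s k48 k154 14 (.d k33 k18 k237 4 9))))))]
  .n)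

def s47_255_245 : T TT 256 :=
  (.f k207 k138 10 (.q k240 [(.s k80 k160 11 (.s k90 k95 2 (.s k101 k117 3 (.s k48 k154 14 (.d k112
  k79 k176 6 7))))), (.s k80 k160 11 (.s k90 k95 2 (.s k15 k165 14 (.s k5 k10 2 (.s k79 k143 7 (.s
  k74 k64 2 (.d k133 k197 k192 7 10))))))), (.s k80 k160 11 (.s k101 k117 3 (.s k48 k154 14 (.s k16
  k32 3 (.s k112 k176 7 (.s k96 k64 3 (.d k144 k208 k192 7 11))))))), (.s k80 k160 11 (.s k90 k95 2
  (.s k101 k117 3 (.s k79 k112 6 (.d k15 k143 k165 7 14))))), (.s k101 k117 3 (.s k48 k154 14 (.s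
  k112 k176 7 (.s k90 k79 6 (.s k165 k15 14 (.d k229 k218 k37 6 7))))))] .n))

def s47_255_246 : T TT 256 :=
  (.q k1 [(.s k3 k2 0 (.s k137 k205 9 (.s k70 k204 10 (.s k71 k68 0 (.d k207 k139 k138 9 10))))),
  (.s k101 k117 3 (.s k169 k253 13 (.s k33 k237 9 (.s k49 k17 3 (.d k205 k137 k153 9 13))))), (.s k3
  k2 0 (.s k101 k117 3 (.s k169 k253 13 (.s k207 k138 10 (.s k48 k154 14 (.d k33 k18 k237 4 9))))))]
  .n)

def s47_255_247 : T TT 256 :=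
  (.f k207 k138 10 (.q k243 [(.s k81 k162 12 (.s k89 k93 1 (.s k12 k166 14 (.s k77 k142 8 (.d k101
  k117 k113 3 5))))), (.s k81 k162 12 (.s k89 k93 1 (.s k101 k117 3 (.s k219 k231 5 (.d k154 k48 k24
  14 8))))), (.s k81 k162 12 (.s k101 k117 3 (.s k48 k154 14 (.s k16 k32 3 (.s k113 k178 8 (.s k97
  k65 3 (.d k146 k211 k195 8 12))))))), (.s k101 k117 3 (.s k48 k154 14 (.s k113 k178 8 (.s k89 k77
  5 (.s k166 k12 14 (.d k231 k219 k36 5 8)))))), (.s k81 k162 12 (.s k89 k93 1 (.s k12 k166 14 (.s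
  k4 k8 1 (.s k77 k142 8 (.s k73 k65 1 (.d k134 k199 k195 8 10)))))))] (.c k154 (.l (.s k81 k162 12
  (.s k89 k93 1 (.s k12 k166 14 (.s k101 k117 3 (.d k77 k142 k113 8 5)))))) .n)))

def s47_255_248 : T TT 256 :=
  (.q k1 [(.s k3 k2 0 (.s k137 k205 9 (.s k70 k204 10 (.s k71 k68 0 (.d k207 k139 k138 9 10))))),
  (.s k101 k117 3 (.s k169 k253 13 (.s k33 k237 9 (.s k49 k17 3 (.d k205 k137 k153 9 13))))), (.s k3
  k2 0 (.s k101 k117 3 (.s k169 k253 13 (.s k207 k138 10 (.s k48 k154 14 (.d k33 k18 k237 4 9))))))]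
  .n)

def s47_255_249 : T TT 256 :=
  (.q k1 [(.s k3 k2 0 (.s k137 k205 9 (.s k70 k204 10 (.s k71 k68 0 (.d k207 k139 k138 9 10))))),
  (.s k101 k117 3 (.s k169 k253 13 (.s k33 k237 9 (.s k49 k17 3 (.d k205 k137 k153 9 13))))), (.s k3
  k2 0 (.s k101 k117 3 (.s k169 k253 13 (.s k207 k138 10 (.s k48 k154 14 (.d k33 k18 k237 4 9))))))]
  .n)

def s47_255_250 : T TT 256 :=
  (.q k5 [(.s k101 k117 3 (.s k197 k133 7 (.s k53 k149 11 (.s k37 k21 3 (.d k165 k245 k229 11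
  7))))), (.s k15 k10 2 (.s k133 k197 7 (.s k74 k192 10 (.s k79 k64 2 (.d k207 k143 k138 7 10))))),
  (.s k15 k10 2 (.s k101 k117 3 (.s k207 k138 10 (.s k48 k154 14 (.s k37 k26 6 (.d k165 k245 k229 11
  7))))))] (.c k240 (.l (.s k245 k165 11 (.s k101 k117 3 (.s k197 k133 7 (.s k149 k53 11 (.d k213
  k229 k21 3 7)))))) (.c k245 (.q k240 [(.s k15 k10 2 (.s k80 k160 11 (.d k90 k95 k165 2 14))), (.s
  k133 k197 7 (.s k138 k207 10 (.s k128 k143 2 (.s k192 k64 7 (.d k15 k10 k74 2 10))))), (.s k80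
  k160 11 (.s k101 k117 3 (.s k207 k138 10 (.s k48 k154 14 (.s k112 k176 7 (.d k90 k95 k79 2
  6))))))] .n) .n)))

def s47_255_251 : T TT 256 :=
  (.q k4 [(.s k101 k117 3 (.s k199 k134 8 (.s k52 k150 12 (.s k36 k20 3 (.d k166 k247 k231 12
  8))))), (.s k12 k8 1 (.s k134 k199 8 (.s k73 k195 10 (.s k77 k65 1 (.d k207 k142 k138 8 10))))),
  (.s k12 k8 1 (.s k101 k117 3 (.s k207 k138 10 (.s k48 k154 14 (.s k36 k24 5 (.d k166 k247 k231 12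
  8))))))] (.c k243 (.l (.s k247 k166 12 (.s k101 k117 3 (.s k199 k134 8 (.s k150 k52 12 (.d k215
  k231 k20 3 8)))))) (.c k247 (.q k243 [(.s k12 k8 1 (.s k81 k162 12 (.d k89 k93 k166 1 14))), (.s
  k134 k199 8 (.s k138 k207 10 (.s k130 k142 1 (.s k195 k65 8 (.d k12 k8 k73 1 10))))), (.s k81 k162
  12 (.s k101 k117 3 (.s k207 k138 10 (.s k48 k154 14 (.s k113 k178 8 (.d k89 k93 k77 1 5))))))] .n)
  .n)))

def s47_255_252 : T TT 256 :=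
  (.q k1 [(.s k101 k117 3 (.s k205 k137 9 (.s k49 k153 13 (.s k33 k17 3 (.d k169 k253 k237 13
  9))))), (.s k3 k2 0 (.s k137 k205 9 (.s k70 k204 10 (.s k71 k68 0 (.d k207 k139 k138 9 10))))),
  (.s k3 k2 0 (.s k101 k117 3 (.s k207 k138 10 (.s k48 k154 14 (.s k33 k18 4 (.d k169 k253 k237 13
  9))))))] (.c k253 (.q k254 [(.s k3 k2 0 (.s k207 k138 10 (.s k71 k139 9 (.s k70 k68 0 (.d k137
  k205 k204 9 10))))), (.s k2 k3 0 (.s k101 k117 3 (.s k207 k138 10 (.s k48 k154 14 (.s k32 k16 3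
  (.d k170 k86 k239 13 10)))))), (.s k101 k117 3 (.s k205 k137 9 (.s k49 k153 13 (.s k17 k33 3 (.s
  k51 k34 4 (.s k207 k138 10 (.d k48 k50 k154 0 14))))))), (.s k2 k3 0 (.s k86 k170 13 (.s k87 k84 0
  (.s k101 k117 3 (.s k71 k116 4 (.s k68 k70 0 (.d k119 k103 k102 3 4)))))))] .n) (.c k254 (.l (.s
  k253 k169 13 (.s k101 k117 3 (.s k205 k137 9 (.s k153 k49 13 (.d k221 k237 k17 3 9)))))) .n)))

def s47_255_253 : T TT 256 :=
  (.f k207 k138 10 (.q k252 [(.s k84 k168 13 (.s k86 k87 0 (.s k3 k169 14 (.s k71 k139 9 (.d k101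
  k117 k116 3 4))))), (.s k84 k168 13 (.s k86 k87 0 (.s k101 k117 3 (.s k222 k237 4 (.d k154 k48 k18
  14 9))))), (.s k84 k168 13 (.s k101 k117 3 (.s k48 k154 14 (.s k16 k32 3 (.s k116 k184 9 (.s k100
  k68 3 (.d k152 k220 k204 9 13))))))), (.s k101 k117 3 (.s k48 k154 14 (.s k116 k184 9 (.s k86 k71
  4 (.s k169 k3 14 (.d k237 k222 k33 4 9)))))), (.s k84 k168 13 (.s k86 k87 0 (.s k3 k169 14 (.s k1
  k2 0 (.s k71 k139 9 (.s k70 k68 0 (.d k137 k205 k204 9 10)))))))] (.c k154 (.l (.s k84 k168 13 (.s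
  k86 k87 0 (.s k3 k169 14 (.s k101 k117 3 (.d k71 k139 k116 9 4)))))) .n)))

def s47_255_254 : T TT 256 :=
  (.q k1 [(.s k101 k117 3 (.s k205 k137 9 (.s k49 k153 13 (.s k33 k17 3 (.d k169 k253 k237 13
  9))))), (.s k3 k2 0 (.s k137 k205 9 (.s k70 k204 10 (.s k71 k68 0 (.d k207 k139 k138 9 10))))),
  (.s k3 k2 0 (.s k101 k117 3 (.s k207 k138 10 (.s k48 k154 14 (.s k33 k18 4 (.d k169 k253 k237 13
  9))))))] (.c k252 (.l (.s k253 k169 13 (.s k101 k117 3 (.s k205 k137 9 (.s k153 k49 13 (.d k221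
  k237 k17 3 9)))))) (.c k253 (.q k252 [(.s k3 k2 0 (.s k84 k168 13 (.d k86 k87 k169 0 14))), (.s
  k137 k205 9 (.s k138 k207 10 (.s k136 k139 0 (.s k204 k68 9 (.d k3 k2 k70 0 10))))), (.s k84 k168
  13 (.s k101 k117 3 (.s k207 k138 10 (.s k48 k154 14 (.s k116 k184 9 (.d k86 k87 k71 0 4))))))] .n)
  .n)))

def t47_255 : T TT 256 :=
  (.q k69 [] (.c k1 s47_255_1 (.c k2 s47_255_2 (.c k3 s47_255_3 (.c k4 s47_255_4 (.c k5 s47_255_5
  (.c k6 s47_255_6 (.c k7 s47_255_7 (.c k8 s47_255_8 (.c k9 s47_255_9 (.c k10 s47_255_10 (.c k11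
  s47_255_11 (.c k12 s47_255_12 (.c k13 s47_255_13 (.c k14 s47_255_14 (.c k15 s47_255_15 (.c k16
  s47_255_16 (.c k17 s47_255_17 (.c k18 s47_255_18 (.c k19 s47_255_19 (.c k20 s47_255_20 (.c k21
  s47_255_21 (.c k22 s47_255_22 (.c k23 s47_255_23 (.c k24 s47_255_24 (.c k25 s47_255_25 (.c k26
  s47_255_26 (.c k27 s47_255_27 (.c k28 s47_255_28 (.c k29 s47_255_29 (.c k30 s47_255_30 (.c k31
  s47_255_31 (.c k32 s47_255_32 (.c k33 s47_255_33 (.c k34 s47_255_34 (.c k35 s47_255_35 (.c k36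
  s47_255_36 (.c k37 s47_255_37 (.c k38 s47_255_38 (.c k39 s47_255_39 (.c k40 s47_255_40 (.c k41
  s47_255_41 (.c k42 s47_255_42 (.c k43 s47_255_43 (.c k44 s47_255_44 (.c k45 s47_255_45 (.c k46
  s47_255_46 (.c k48 s47_255_48 (.c k49 s47_255_49 (.c k50 s47_255_50 (.c k51 s47_255_51 (.c k52
  s47_255_52 (.c k53 s47_255_53 (.c k54 s47_255_54 (.c k55 s47_255_55 (.c k56 s47_255_56 (.c k57
  s47_255_57 (.c k58 s47_255_58 (.c k59 s47_255_59 (.c k60 s47_255_60 (.c k61 s47_255_61 (.c k62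
  s47_255_62 (.c k63 s47_255_63 (.c k64 s47_255_64 (.c k65 s47_255_65 (.c k66 s47_255_66 (.c k67
  s47_255_67 (.c k68 s47_255_68 (.c k70 s47_255_70 (.c k71 s47_255_71 (.c k72 s47_255_72 (.c k73
  s47_255_73 (.c k74 s47_255_74 (.c k75 s47_255_75 (.c k76 s47_255_76 (.c k77 s47_255_77 (.c k78
  s47_255_78 (.c k79 s47_255_79 (.c k80 s47_255_80 (.c k81 s47_255_81 (.c k82 s47_255_82 (.c k83
  s47_255_83 (.c k84 s47_255_84 (.c k86 s47_255_86 (.c k87 s47_255_87 (.c k88 s47_255_88 (.c k89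
  s47_255_89 (.c k90 s47_255_90 (.c k91 s47_255_91 (.c k92 s47_255_92 (.c k93 s47_255_93 (.c k94
  s47_255_94 (.c k95 s47_255_95 (.c k96 s47_255_96 (.c k97 s47_255_97 (.c k98 s47_255_98 (.c k99
  s47_255_99 (.c k100 s47_255_100 (.c k101 s47_255_101 (.c k102 s47_255_102 (.c k103 s47_255_103 (.c
  k104 s47_255_104 (.c k105 s47_255_105 (.c k106 s47_255_106 (.c k107 s47_255_107 (.c k108
  s47_255_108 (.c k109 s47_255_109 (.c k110 s47_255_110 (.c k111 s47_255_111 (.c k112 s47_255_112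
  (.c k113 s47_255_113 (.c k114 s47_255_114 (.c k115 s47_255_115 (.c k116 s47_255_116 (.c k117
  s47_255_117 (.c k118 s47_255_118 (.c k119 s47_255_119 (.c k120 s47_255_120 (.c k121 s47_255_121
  (.c k122 s47_255_122 (.c k123 s47_255_123 (.c k124 s47_255_124 (.c k125 s47_255_125 (.c k126
  s47_255_126 (.c k127 s47_255_127 (.c k128 s47_255_128 (.c k129 s47_255_129 (.c k130 s47_255_130
  (.c k131 s47_255_131 (.c k132 s47_255_132 (.c k133 s47_255_133 (.c k134 s47_255_134 (.c k135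
  s47_255_135 (.c k136 s47_255_136 (.c k137 s47_255_137 (.c k138 s47_255_138 (.c k139 s47_255_139
  (.c k140 s47_255_140 (.c k141 s47_255_141 (.c k142 s47_255_142 (.c k143 s47_255_143 (.c k144
  s47_255_144 (.c k145 s47_255_145 (.c k146 s47_255_146 (.c k147 s47_255_147 (.c k148 s47_255_148
  (.c k149 s47_255_149 (.c k150 s47_255_150 (.c k151 s47_255_151 (.c k152 s47_255_152 (.c k153
  s47_255_153 (.c k154 s47_255_154 (.c k155 s47_255_155 (.c k156 s47_255_156 (.c k157 s47_255_157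
  (.c k158 s47_255_158 (.c k159 s47_255_159 (.c k160 s47_255_160 (.c k161 s47_255_161 (.c k162
  s47_255_162 (.c k163 s47_255_163 (.c k164 s47_255_164 (.c k165 s47_255_165 (.c k166 s47_255_166
  (.c k167 s47_255_167 (.c k168 s47_255_168 (.c k169 s47_255_169 (.c k170 s47_255_170 (.c k171
  s47_255_171 (.c k172 s47_255_172 (.c k173 s47_255_173 (.c k174 s47_255_174 (.c k175 s47_255_175
  (.c k176 s47_255_176 (.c k177 s47_255_177 (.c k178 s47_255_178 (.c k179 s47_255_179 (.c k180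
  s47_255_180 (.c k181 s47_255_181 (.c k182 s47_255_182 (.c k183 s47_255_183 (.c k184 s47_255_184
  (.c k185 s47_255_185 (.c k186 s47_255_186 (.c k187 s47_255_187 (.c k188 s47_255_188 (.c k189
  s47_255_189 (.c k190 s47_255_190 (.c k191 s47_255_191 (.c k192 s47_255_192 (.c k193 s47_255_193
  (.c k194 s47_255_194 (.c k195 s47_255_195 (.c k196 s47_255_196 (.c k197 s47_255_197 (.c k198
  s47_255_198 (.c k199 s47_255_199 (.c k200 s47_255_200 (.c k201 s47_255_201 (.c k202 s47_255_202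
  (.c k203 s47_255_203 (.c k204 s47_255_204 (.c k205 s47_255_205 (.c k206 s47_255_206 (.c k207
  s47_255_207 (.c k208 s47_255_208 (.c k209 s47_255_209 (.c k210 s47_255_210 (.c k211 s47_255_211
  (.c k212 s47_255_212 (.c k213 s47_255_213 (.c k214 s47_255_214 (.c k215 s47_255_215 (.c k216
  s47_255_216 (.c k217 s47_255_217 (.c k218 s47_255_218 (.c k219 s47_255_219 (.c k220 s47_255_220
  (.c k221 s47_255_221 (.c k222 s47_255_222 (.c k223 s47_255_223 (.c k224 s47_255_224 (.c k225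
  s47_255_225 (.c k226 s47_255_226 (.c k227 s47_255_227 (.c k228 s47_255_228 (.c k229 s47_255_229
  (.c k230 s47_255_230 (.c k231 s47_255_231 (.c k232 s47_255_232 (.c k233 s47_255_233 (.c k234
  s47_255_234 (.c k235 s47_255_235 (.c k236 s47_255_236 (.c k237 s47_255_237 (.c k238 s47_255_238
  (.c k239 s47_255_239 (.c k240 s47_255_240 (.c k241 s47_255_241 (.c k242 s47_255_242 (.c k243
  s47_255_243 (.c k244 s47_255_244 (.c k245 s47_255_245 (.c k246 s47_255_246 (.c k247 s47_255_247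
  (.c k248 s47_255_248 (.c k249 s47_255_249 (.c k250 s47_255_250 (.c k251 s47_255_251 (.c k252
  s47_255_252 (.c k253 s47_255_253 (.c k254 s47_255_254
  .n))))))))))))))))))))))))))))))))))))))))))))))))))))))))))))))))))))))))))))))))
  ))))))))))))))))))))))))))))))))))))))))))))))))))))))))))))))))))))))))))))))))
  )))))))))))))))))))))))))))))))))))))))))))))))))))))))))))))))))))))))))))))))) ))))))))))))

def s63_170_1 : T TT 256 :=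
  (.q k12 [(.s k8 k4 1 (.s k65 k130 8 (.s k73 k134 10 (.s k69 k77 1 (.d k138 k203 k207 8 10))))),
  (.s k4 k8 1 (.s k65 k130 8 (.s k105 k125 5 (.s k166 k247 12 (.s k44 k227 10 (.d k60 k150 k28 14
  3)))))), (.s k4 k8 1 (.s k134 k73 10 (.s k166 k247 12 (.s k150 k182 3 (.s k20 k215 8 (.d k60 k40
  k105 5 14)))))), (.s k65 k130 8 (.s k73 k134 10 (.s k105 k125 5 (.s k89 k121 3 (.s k81 k93 1 (.d
  k243 k162 k166 12 14))))))] (.c k150 (.l (.s k4 k8 1 (.s k130 k65 8 (.s k134 k73 10 (.s k69 k199 8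
  (.d k138 k142 k207 1 10)))))) .n))

def s63_170_2 : T TT 256 :=
  (.q k86 [(.s k65 k130 8 (.s k87 k84 0 (.s k105 k125 5 (.s k67 k124 6 (.s k127 k107 5 (.d k64 k66
  k106 0 6)))))), (.s k84 k87 0 (.s k252 k168 13 (.s k214 k233 6 (.s k150 k22 7 (.s k20 k215 8 (.d
  k60 k40 k105 5 14)))))), (.s k65 k130 8 (.s k105 k125 5 (.s k67 k124 6 (.s k3 k131 7 (.s k150 k60
  14 (.s k214 k22 7 (.d k252 k233 k169 6 14)))))))] (.c k105 (.f k84 k87 0 (.l (.s k252 k168 13 (.s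
  k169 k3 14 (.s k214 k233 6 (.s k150 k22 7 (.s k20 k215 8 (.s k188 k131 6 (.d k60 k40 k124 5
  7))))))))) (.c k150 (.l (.s k84 k87 0 (.s k252 k168 13 (.s k169 k3 14 (.s k233 k214 6 (.s k105 k41
  7 (.d k65 k125 k130 5 8))))))) .n)))

def s63_170_3 : T TT 256 :=
  (.q k207 [(.s k65 k130 8 (.s k105 k125 5 (.s k203 k199 1 (.s k154 k56 12 (.s k16 k223 10 (.d k48
  k32 k101 3 14)))))), (.s k130 k65 8 (.s k138 k69 10 (.s k134 k142 1 (.s k73 k12 10 (.d k203 k199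
  k8 1 8))))), (.s k65 k130 8 (.s k69 k138 10 (.s k101 k117 3 (.s k105 k125 5 (.s k97 k109 1 (.d k48
  k154 k146 14 12)))))), (.s k69 k138 10 (.s k101 k117 3 (.s k199 k203 1 (.s k150 k52 12 (.s k20
  k215 8 (.d k60 k40 k105 5 14))))))] (.c k23 (.q k43 [(.s k65 k130 8 (.s k105 k125 5 (.s k203 k199
  1 (.s k154 k56 12 (.s k16 k223 10 (.d k48 k32 k101 3 14)))))), (.s k130 k65 8 (.s k138 k69 10 (.s
  k134 k142 1 (.s k73 k12 10 (.d k203 k199 k8 1 8))))), (.s k65 k130 8 (.s k69 k138 10 (.s k101 k117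
  3 (.s k105 k125 5 (.s k97 k109 1 (.d k48 k154 k146 14 12)))))), (.s k69 k138 10 (.s k101 k117 3
  (.s k199 k203 1 (.s k150 k52 12 (.s k20 k215 8 (.d k60 k40 k105 5 14))))))] .n) (.c k43 (.q k23
  [(.s k65 k130 8 (.s k105 k125 5 (.s k203 k199 1 (.s k154 k56 12 (.s k16 k223 10 (.d k48 k32 k101 3
  14)))))), (.s k130 k65 8 (.s k138 k69 10 (.s k134 k142 1 (.s k73 k12 10 (.d k203 k199 k8 1 8))))),
  (.s k65 k130 8 (.s k69 k138 10 (.s k101 k117 3 (.s k105 k125 5 (.s k97 k109 1 (.d k48 k154 k146 14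
  12)))))), (.s k69 k138 10 (.s k101 k117 3 (.s k199 k203 1 (.s k150 k52 12 (.s k20 k215 8 (.d k60
  k40 k105 5 14))))))] .n) .n)))

def s63_170_4 : T TT 256 :=
  (.q k1 [(.s k3 k2 0 (.s k131 k67 7 (.s k169 k253 13 (.s k150 k188 6 (.s k20 k215 8 (.d k60 k40
  k105 5 14)))))), (.s k65 k130 8 (.s k105 k125 5 (.s k169 k253 13 (.s k41 k233 7 (.s k61 k21 5 (.d
  k193 k129 k149 7 13)))))), (.s k3 k2 0 (.s k65 k130 8 (.s k67 k131 7 (.s k66 k64 0 (.d k129 k193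
  k192 7 8)))))] (.c k150 (.l (.s k3 k2 0 (.s k67 k131 7 (.s k169 k253 13 (.s k86 k252 14 (.s k105
  k124 6 (.d k65 k125 k130 5 8))))))) .n))

def s63_170_5 : T TT 256 :=
  (.q k1 [(.s k3 k2 0 (.s k131 k67 7 (.s k169 k253 13 (.s k150 k188 6 (.s k20 k215 8 (.d k60 k40
  k105 5 14)))))), (.s k65 k130 8 (.s k105 k125 5 (.s k169 k253 13 (.s k41 k233 7 (.s k61 k21 5 (.d
  k193 k129 k149 7 13)))))), (.s k3 k2 0 (.s k65 k130 8 (.s k67 k131 7 (.s k66 k64 0 (.d k129 k193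
  k192 7 8)))))] (.c k150 (.l (.s k3 k2 0 (.s k67 k131 7 (.s k169 k253 13 (.s k86 k252 14 (.s k105
  k124 6 (.d k65 k125 k130 5 8))))))) .n))

def s63_170_6 : T TT 256 :=
  (.q k1 [(.s k65 k130 8 (.s k105 k125 5 (.s k169 k253 13 (.s k41 k233 7 (.s k61 k21 5 (.d k193 k129
  k149 7 13)))))), (.s k3 k2 0 (.s k131 k67 7 (.s k169 k253 13 (.s k150 k188 6 (.s k20 k215 8 (.d
  k60 k40 k105 5 14)))))), (.s k3 k2 0 (.s k65 k130 8 (.s k67 k131 7 (.s k66 k64 0 (.d k129 k193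
  k192 7 8)))))] (.c k150 (.l (.s k3 k2 0 (.s k67 k131 7 (.s k169 k253 13 (.s k86 k252 14 (.s k105
  k124 6 (.d k65 k125 k130 5 8))))))) .n))

def s63_170_7 : T TT 256 :=
  (.q k1 [(.s k3 k2 0 (.s k131 k67 7 (.s k169 k253 13 (.s k150 k188 6 (.s k20 k215 8 (.d k60 k40
  k105 5 14)))))), (.s k65 k130 8 (.s k105 k125 5 (.s k169 k253 13 (.s k41 k233 7 (.s k61 k21 5 (.d
  k193 k129 k149 7 13)))))), (.s k3 k2 0 (.s k65 k130 8 (.s k67 k131 7 (.s k66 k64 0 (.d k129 k193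
  k192 7 8)))))] (.c k150 (.l (.s k3 k2 0 (.s k67 k131 7 (.s k169 k253 13 (.s k86 k252 14 (.s k105
  k124 6 (.d k65 k125 k130 5 8))))))) .n))

def s63_170_8 : T TT 256 :=
  (.q k89 [(.s k65 k130 8 (.s k81 k93 1 (.s k97 k113 3 (.s k48 k146 12 (.s k32 k16 3 (.d k162 k227
  k243 8 12)))))), (.s k65 k130 8 (.s k105 k125 5 (.s k73 k121 3 (.s k12 k134 10 (.s k150 k60 14 (.s
  k211 k28 10 (.d k243 k227 k166 3 14))))))), (.s k81 k93 1 (.s k243 k162 12 (.s k211 k227 3 (.s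
  k150 k28 10 (.s k20 k215 8 (.d k60 k40 k105 5 14)))))), (.s k81 k93 1 (.s k130 k65 8 (.s k162 k243
  12 (.s k146 k178 3 (.s k16 k211 8 (.d k48 k32 k97 3 12))))))] (.c k243 (.l (.s k65 k130 8 (.s k81
  k93 1 (.s k105 k125 5 (.s k73 k121 3 (.s k77 k69 1 (.d k113 k97 k101 3 5))))))) .n))

def s63_170_9 : T TT 256 :=
  (.q k1 [(.s k3 k2 0 (.s k131 k67 7 (.s k169 k253 13 (.s k150 k188 6 (.s k20 k215 8 (.d k60 k40
  k105 5 14)))))), (.s k65 k130 8 (.s k105 k125 5 (.s k169 k253 13 (.s k41 k233 7 (.s k61 k21 5 (.d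
  k193 k129 k149 7 13)))))), (.s k3 k2 0 (.s k65 k130 8 (.s k67 k131 7 (.s k66 k64 0 (.d k129 k193
  k192 7 8)))))] (.c k150 (.l (.s k3 k2 0 (.s k67 k131 7 (.s k169 k253 13 (.s k86 k252 14 (.s k105
  k124 6 (.d k65 k125 k130 5 8))))))) .n))

def s63_170_10 : T TT 256 :=
  (.q k1 [(.s k65 k130 8 (.s k105 k125 5 (.s k169 k253 13 (.s k41 k233 7 (.s k61 k21 5 (.d k193 k129
  k149 7 13)))))), (.s k3 k2 0 (.s k131 k67 7 (.s k169 k253 13 (.s k150 k188 6 (.s k20 k215 8 (.d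
  k60 k40 k105 5 14)))))), (.s k3 k2 0 (.s k65 k130 8 (.s k67 k131 7 (.s k66 k64 0 (.d k129 k193
  k192 7 8)))))] (.c k90 (.q k250 [(.s k65 k130 8 (.s k105 k125 5 (.s k169 k253 13 (.s k41 k233 7
  (.s k61 k21 5 (.d k193 k129 k149 7 13)))))), (.s k3 k2 0 (.s k131 k67 7 (.s k169 k253 13 (.s k150
  k188 6 (.s k20 k215 8 (.d k60 k40 k105 5 14)))))), (.s k3 k2 0 (.s k65 k130 8 (.s k67 k131 7 (.s
  k66 k64 0 (.d k129 k193 k192 7 8)))))] (.c k150 (.l (.s k3 k2 0 (.s k67 k131 7 (.s k169 k253 13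
  (.s k86 k252 14 (.s k105 k124 6 (.d k65 k125 k130 5 8))))))) .n)) (.c k150 (.l (.s k3 k2 0 (.s k67
  k131 7 (.s k169 k253 13 (.s k86 k252 14 (.s k105 k124 6 (.d k65 k125 k130 5 8))))))) (.c k250 (.q
  k90 [(.s k65 k130 8 (.s k80 k95 2 (.s k105 k125 5 (.s k75 k120 4 (.s k15 k135 9 (.d k240 k160 k165
  11 14)))))), (.s k3 k2 0 (.s k65 k130 8 (.s k67 k131 7 (.s k66 k64 0 (.d k129 k193 k192 7 8))))),
  (.s k3 k2 0 (.s k80 k95 2 (.s k169 k253 13 (.s k11 k248 12 (.s k15 k7 1 (.d k240 k160 k165 11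
  14))))))] .n) .n))))

def s63_170_11 : T TT 256 :=
  (.q k1 [(.s k3 k2 0 (.s k131 k67 7 (.s k169 k253 13 (.s k150 k188 6 (.s k20 k215 8 (.d k60 k40
  k105 5 14)))))), (.s k65 k130 8 (.s k105 k125 5 (.s k169 k253 13 (.s k41 k233 7 (.s k61 k21 5 (.d
  k193 k129 k149 7 13)))))), (.s k3 k2 0 (.s k65 k130 8 (.s k67 k131 7 (.s k66 k64 0 (.d k129 k193
  k192 7 8)))))] (.c k150 (.l (.s k3 k2 0 (.s k67 k131 7 (.s k169 k253 13 (.s k86 k252 14 (.s k105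
  k124 6 (.d k65 k125 k130 5 8))))))) .n))

def s63_170_12 : T TT 256 :=
  (.q k81 [(.s k65 k130 8 (.s k97 k113 3 (.s k48 k146 12 (.s k32 k16 3 (.d k162 k227 k243 8 12))))),
  (.s k65 k130 8 (.s k89 k93 1 (.s k105 k125 5 (.s k73 k121 3 (.s k77 k69 1 (.d k113 k97 k101 3
  5)))))), (.s k89 k93 1 (.s k243 k162 12 (.s k211 k227 3 (.s k150 k28 10 (.s k20 k215 8 (.d k60 k40
  k105 5 14))))))] (.c k29 (.q k46 [(.s k65 k130 8 (.s k97 k113 3 (.s k48 k146 12 (.s k32 k16 3 (.d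
  k162 k227 k243 8 12))))), (.s k65 k130 8 (.s k89 k93 1 (.s k105 k125 5 (.s k73 k121 3 (.s k77 k69
  1 (.d k113 k97 k101 3 5)))))), (.s k89 k93 1 (.s k243 k162 12 (.s k211 k227 3 (.s k150 k28 10 (.s
  k20 k215 8 (.d k60 k40 k105 5 14))))))] (.c k97 (.l (.s k65 k130 8 (.s k89 k93 1 (.s k105 k125 5
  (.s k121 k73 3 (.s k243 k162 12 (.d k60 k150 k182 14 10))))))) (.c k150 (.l (.s k130 k65 8 (.s
  k162 k243 12 (.s k146 k178 3 (.s k16 k211 8 (.d k48 k32 k97 3 12)))))) .n))) (.c k46 (.q k29 [(.s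
  k65 k130 8 (.s k97 k113 3 (.s k48 k146 12 (.s k32 k16 3 (.d k162 k227 k243 8 12))))), (.s k89 k93
  1 (.s k209 k149 9 (.s k17 k145 7 (.s k25 k21 1 (.d k153 k217 k221 7 9)))))] .n) (.c k97 (.l (.s
  k65 k130 8 (.s k89 k93 1 (.s k105 k125 5 (.s k121 k73 3 (.s k243 k162 12 (.d k60 k150 k182 14
  10))))))) (.c k150 (.l (.s k130 k65 8 (.s k162 k243 12 (.s k146 k178 3 (.s k16 k211 8 (.d k48 k32
  k97 3 12)))))) .n)))))

def s63_170_13 : T TT 256 :=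
  (.q k1 [(.s k3 k2 0 (.s k65 k130 8 (.s k67 k131 7 (.s k66 k64 0 (.d k129 k193 k192 7 8))))), (.s
  k65 k130 8 (.s k105 k125 5 (.s k169 k253 13 (.s k41 k233 7 (.s k61 k21 5 (.d k193 k129 k149 7
  13)))))), (.s k3 k2 0 (.s k131 k67 7 (.s k169 k253 13 (.s k150 k188 6 (.s k20 k215 8 (.d k60 k40
  k105 5 14))))))] (.c k150 (.l (.s k3 k2 0 (.s k67 k131 7 (.s k169 k253 13 (.s k86 k252 14 (.s k105
  k124 6 (.d k65 k125 k130 5 8))))))) .n))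

def s63_170_14 : T TT 256 :=
  (.q k1 [(.s k65 k130 8 (.s k105 k125 5 (.s k169 k253 13 (.s k41 k233 7 (.s k61 k21 5 (.d k193 k129
  k149 7 13)))))), (.s k3 k2 0 (.s k131 k67 7 (.s k169 k253 13 (.s k150 k188 6 (.s k20 k215 8 (.d
  k60 k40 k105 5 14)))))), (.s k3 k2 0 (.s k65 k130 8 (.s k67 k131 7 (.s k66 k64 0 (.d k129 k193
  k192 7 8)))))] (.c k150 (.l (.s k3 k2 0 (.s k67 k131 7 (.s k169 k253 13 (.s k86 k252 14 (.s k105
  k124 6 (.d k65 k125 k130 5 8))))))) .n))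

def s63_170_15 : T TT 256 :=
  (.q k1 [(.s k3 k2 0 (.s k131 k67 7 (.s k169 k253 13 (.s k150 k188 6 (.s k20 k215 8 (.d k60 k40
  k105 5 14)))))), (.s k65 k130 8 (.s k105 k125 5 (.s k169 k253 13 (.s k41 k233 7 (.s k61 k21 5 (.d
  k193 k129 k149 7 13)))))), (.s k3 k2 0 (.s k65 k130 8 (.s k67 k131 7 (.s k66 k64 0 (.d k129 k193
  k192 7 8)))))] (.c k31 (.q k47 [(.s k3 k2 0 (.s k131 k67 7 (.s k169 k253 13 (.s k150 k188 6 (.s
  k20 k215 8 (.d k60 k40 k105 5 14)))))), (.s k65 k130 8 (.s k105 k125 5 (.s k169 k253 13 (.s k41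
  k233 7 (.s k61 k21 5 (.d k193 k129 k149 7 13)))))), (.s k3 k2 0 (.s k65 k130 8 (.s k67 k131 7 (.s
  k66 k64 0 (.d k129 k193 k192 7 8)))))] (.c k150 (.l (.s k3 k2 0 (.s k67 k131 7 (.s k169 k253 13
  (.s k86 k252 14 (.s k105 k124 6 (.d k65 k125 k130 5 8))))))) .n)) (.c k47 (.q k31 [(.s k3 k2 0 (.s
  k131 k67 7 (.s k169 k253 13 (.s k150 k188 6 (.s k20 k215 8 (.d k60 k40 k105 5 14)))))), (.s k65
  k130 8 (.s k105 k125 5 (.s k169 k253 13 (.s k41 k233 7 (.s k61 k21 5 (.d k193 k129 k149 7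
  13)))))), (.s k3 k2 0 (.s k65 k130 8 (.s k67 k131 7 (.s k66 k64 0 (.d k129 k193 k192 7 8)))))] (.c
  k150 (.l (.s k3 k2 0 (.s k67 k131 7 (.s k169 k253 13 (.s k86 k252 14 (.s k105 k124 6 (.d k65 k125
  k130 5 8))))))) .n)) (.c k150 (.l (.s k3 k2 0 (.s k67 k131 7 (.s k169 k253 13 (.s k86 k252 14 (.s
  k105 k124 6 (.d k65 k125 k130 5 8))))))) .n))))

def s63_170_16 : T TT 256 :=
  (.q k1 [(.s k3 k2 0 (.s k131 k67 7 (.s k169 k253 13 (.s k150 k188 6 (.s k20 k215 8 (.d k60 k40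
  k105 5 14)))))), (.s k65 k130 8 (.s k105 k125 5 (.s k169 k253 13 (.s k41 k233 7 (.s k61 k21 5 (.d
  k193 k129 k149 7 13)))))), (.s k3 k2 0 (.s k65 k130 8 (.s k67 k131 7 (.s k66 k64 0 (.d k129 k193
  k192 7 8)))))] (.c k150 (.l (.s k3 k2 0 (.s k67 k131 7 (.s k169 k253 13 (.s k86 k252 14 (.s k105
  k124 6 (.d k65 k125 k130 5 8))))))) .n))

def s63_170_17 : T TT 256 :=
  (.q k1 [(.s k3 k2 0 (.s k131 k67 7 (.s k169 k253 13 (.s k150 k188 6 (.s k20 k215 8 (.d k60 k40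
  k105 5 14)))))), (.s k65 k130 8 (.s k105 k125 5 (.s k169 k253 13 (.s k41 k233 7 (.s k61 k21 5 (.d
  k193 k129 k149 7 13)))))), (.s k3 k2 0 (.s k65 k130 8 (.s k67 k131 7 (.s k66 k64 0 (.d k129 k193
  k192 7 8)))))] (.c k150 (.l (.s k3 k2 0 (.s k67 k131 7 (.s k169 k253 13 (.s k86 k252 14 (.s k105
  k124 6 (.d k65 k125 k130 5 8))))))) .n))

def s63_170_18 : T TT 256 :=
  (.q k1 [(.s k65 k130 8 (.s k105 k125 5 (.s k169 k253 13 (.s k41 k233 7 (.s k61 k21 5 (.d k193 k129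
  k149 7 13)))))), (.s k3 k2 0 (.s k131 k67 7 (.s k169 k253 13 (.s k150 k188 6 (.s k20 k215 8 (.d
  k60 k40 k105 5 14)))))), (.s k3 k2 0 (.s k65 k130 8 (.s k67 k131 7 (.s k66 k64 0 (.d k129 k193
  k192 7 8)))))] (.c k150 (.l (.s k3 k2 0 (.s k67 k131 7 (.s k169 k253 13 (.s k86 k252 14 (.s k105
  k124 6 (.d k65 k125 k130 5 8))))))) .n))

def s63_170_19 : T TT 256 :=
  (.q k1 [(.s k3 k2 0 (.s k131 k67 7 (.s k169 k253 13 (.s k150 k188 6 (.s k20 k215 8 (.d k60 k40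
  k105 5 14)))))), (.s k65 k130 8 (.s k105 k125 5 (.s k169 k253 13 (.s k41 k233 7 (.s k61 k21 5 (.d
  k193 k129 k149 7 13)))))), (.s k3 k2 0 (.s k65 k130 8 (.s k67 k131 7 (.s k66 k64 0 (.d k129 k193
  k192 7 8)))))] (.c k150 (.l (.s k3 k2 0 (.s k67 k131 7 (.s k169 k253 13 (.s k86 k252 14 (.s k105
  k124 6 (.d k65 k125 k130 5 8))))))) .n))

def s63_170_20 : T TT 256 :=
  (.q k1 [(.s k3 k2 0 (.s k65 k130 8 (.s k67 k131 7 (.s k66 k64 0 (.d k129 k193 k192 7 8))))), (.s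
  k65 k130 8 (.s k105 k125 5 (.s k169 k253 13 (.s k41 k233 7 (.s k61 k21 5 (.d k193 k129 k149 7
  13)))))), (.s k3 k2 0 (.s k67 k131 7 (.s k169 k253 13 (.s k86 k252 14 (.s k105 k124 6 (.s k41 k233
  7 (.d k60 k22 k150 6 14))))))), (.s k3 k2 0 (.s k67 k131 7 (.s k169 k253 13 (.s k86 k252 14 (.s
  k105 k124 6 (.d k65 k125 k130 5 8))))))] .n)

def s63_170_21 : T TT 256 :=
  (.q k3 [(.s k1 k2 0 (.s k131 k67 7 (.s k169 k253 13 (.s k150 k188 6 (.s k20 k215 8 (.d k60 k40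
  k105 5 14)))))), (.s k2 k1 0 (.s k130 k65 8 (.s k66 k194 7 (.s k129 k192 8 (.d k131 k128 k67 0
  7))))), (.s k65 k130 8 (.s k67 k131 7 (.s k105 k125 5 (.s k86 k124 6 (.s k84 k87 0 (.d k252 k168
  k169 13 14)))))), (.s k1 k2 0 (.s k65 k130 8 (.s k105 k125 5 (.s k169 k253 13 (.s k41 k233 7 (.d
  k60 k150 k22 14 6))))))] .n)

def s63_170_22 : T TT 256 :=
  (.q k1 [(.s k3 k2 0 (.s k131 k67 7 (.s k169 k253 13 (.s k150 k188 6 (.s k20 k215 8 (.d k60 k40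
  k105 5 14)))))), (.s k65 k130 8 (.s k105 k125 5 (.s k169 k253 13 (.s k41 k233 7 (.s k61 k21 5 (.d
  k193 k129 k149 7 13)))))), (.s k3 k2 0 (.s k65 k130 8 (.s k67 k131 7 (.s k66 k64 0 (.d k129 k193
  k192 7 8)))))] (.c k150 (.l (.s k3 k2 0 (.s k67 k131 7 (.s k169 k253 13 (.s k86 k252 14 (.s k105
  k124 6 (.d k65 k125 k130 5 8))))))) .n))

def s63_170_23 : T TT 256 :=
  (.q k3 [(.s k2 k1 0 (.s k130 k65 8 (.s k66 k194 7 (.s k129 k192 8 (.d k131 k128 k67 0 7))))), (.s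
  k1 k2 0 (.s k131 k67 7 (.s k169 k253 13 (.s k150 k188 6 (.s k20 k215 8 (.d k60 k40 k105 5
  14)))))), (.s k65 k130 8 (.s k67 k131 7 (.s k105 k125 5 (.s k86 k124 6 (.s k84 k87 0 (.d k252 k168
  k169 13 14)))))), (.s k1 k2 0 (.s k65 k130 8 (.s k105 k125 5 (.s k169 k253 13 (.s k41 k233 7 (.d
  k60 k150 k22 14 6))))))] .n)

def s63_170_24 : T TT 256 :=
  (.q k1 [(.s k3 k2 0 (.s k131 k67 7 (.s k169 k253 13 (.s k150 k188 6 (.s k20 k215 8 (.d k60 k40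
  k105 5 14)))))), (.s k65 k130 8 (.s k105 k125 5 (.s k169 k253 13 (.s k41 k233 7 (.s k61 k21 5 (.d
  k193 k129 k149 7 13)))))), (.s k3 k2 0 (.s k65 k130 8 (.s k67 k131 7 (.s k66 k64 0 (.d k129 k193
  k192 7 8)))))] (.c k150 (.l (.s k3 k2 0 (.s k67 k131 7 (.s k169 k253 13 (.s k86 k252 14 (.s k105
  k124 6 (.d k65 k125 k130 5 8))))))) .n))

def s63_170_25 : T TT 256 :=
  (.q k1 [(.s k3 k2 0 (.s k131 k67 7 (.s k169 k253 13 (.s k150 k188 6 (.s k20 k215 8 (.d k60 k40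
  k105 5 14)))))), (.s k65 k130 8 (.s k105 k125 5 (.s k169 k253 13 (.s k41 k233 7 (.s k61 k21 5 (.d
  k193 k129 k149 7 13)))))), (.s k3 k2 0 (.s k65 k130 8 (.s k67 k131 7 (.s k66 k64 0 (.d k129 k193
  k192 7 8)))))] (.c k150 (.l (.s k3 k2 0 (.s k67 k131 7 (.s k169 k253 13 (.s k86 k252 14 (.s k105
  k124 6 (.d k65 k125 k130 5 8))))))) .n))

def s63_170_26 : T TT 256 :=
  (.q k1 [(.s k3 k2 0 (.s k131 k67 7 (.s k169 k253 13 (.s k150 k188 6 (.s k20 k215 8 (.d k60 k40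
  k105 5 14)))))), (.s k65 k130 8 (.s k105 k125 5 (.s k169 k253 13 (.s k41 k233 7 (.s k61 k21 5 (.d
  k193 k129 k149 7 13)))))), (.s k3 k2 0 (.s k65 k130 8 (.s k67 k131 7 (.s k66 k64 0 (.d k129 k193
  k192 7 8)))))] (.c k150 (.l (.s k3 k2 0 (.s k67 k131 7 (.s k169 k253 13 (.s k86 k252 14 (.s k105
  k124 6 (.d k65 k125 k130 5 8))))))) .n))

def s63_170_27 : T TT 256 :=
  (.q k1 [(.s k3 k2 0 (.s k131 k67 7 (.s k169 k253 13 (.s k150 k188 6 (.s k20 k215 8 (.d k60 k40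
  k105 5 14)))))), (.s k65 k130 8 (.s k105 k125 5 (.s k169 k253 13 (.s k41 k233 7 (.s k61 k21 5 (.d
  k193 k129 k149 7 13)))))), (.s k3 k2 0 (.s k65 k130 8 (.s k67 k131 7 (.s k66 k64 0 (.d k129 k193
  k192 7 8)))))] (.c k150 (.l (.s k3 k2 0 (.s k67 k131 7 (.s k169 k253 13 (.s k86 k252 14 (.s k105
  k124 6 (.d k65 k125 k130 5 8))))))) .n))

def s63_170_28 : T TT 256 :=
  (.q k1 [(.s k3 k2 0 (.s k131 k67 7 (.s k169 k253 13 (.s k150 k188 6 (.s k20 k215 8 (.d k60 k40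
  k105 5 14)))))), (.s k65 k130 8 (.s k105 k125 5 (.s k169 k253 13 (.s k41 k233 7 (.s k61 k21 5 (.d
  k193 k129 k149 7 13)))))), (.s k3 k2 0 (.s k65 k130 8 (.s k67 k131 7 (.s k66 k64 0 (.d k129 k193
  k192 7 8)))))] (.c k150 (.l (.s k3 k2 0 (.s k67 k131 7 (.s k169 k253 13 (.s k86 k252 14 (.s k105
  k124 6 (.d k65 k125 k130 5 8))))))) .n))

def s63_170_29 : T TT 256 :=
  (.q k12 [(.s k4 k8 1 (.s k130 k65 8 (.s k134 k73 10 (.s k69 k199 8 (.d k138 k142 k207 1 10))))),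
  (.s k4 k8 1 (.s k65 k130 8 (.s k105 k125 5 (.s k166 k247 12 (.s k44 k227 10 (.d k60 k150 k28 14
  3)))))), (.s k65 k130 8 (.s k73 k134 10 (.s k105 k125 5 (.s k89 k121 3 (.s k81 k93 1 (.d k243 k162
  k166 12 14)))))), (.s k4 k8 1 (.s k134 k73 10 (.s k166 k247 12 (.s k150 k182 3 (.s k20 k215 8 (.d
  k60 k40 k105 5 14))))))] (.c k89 (.l (.s k8 k4 1 (.s k65 k130 8 (.s k73 k134 10 (.s k69 k77 1 (.d
  k138 k203 k207 8 10)))))) .n))

def s63_170_30 : T TT 256 :=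
  (.q k1 [(.s k3 k2 0 (.s k131 k67 7 (.s k169 k253 13 (.s k150 k188 6 (.s k20 k215 8 (.d k60 k40
  k105 5 14)))))), (.s k65 k130 8 (.s k105 k125 5 (.s k169 k253 13 (.s k41 k233 7 (.s k61 k21 5 (.d
  k193 k129 k149 7 13)))))), (.s k3 k2 0 (.s k65 k130 8 (.s k67 k131 7 (.s k66 k64 0 (.d k129 k193
  k192 7 8)))))] (.c k150 (.l (.s k3 k2 0 (.s k67 k131 7 (.s k169 k253 13 (.s k86 k252 14 (.s k105
  k124 6 (.d k65 k125 k130 5 8))))))) .n))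

def s63_170_31 : T TT 256 :=
  (.q k203 [(.s k130 k65 8 (.s k207 k199 1 (.s k138 k69 10 (.s k134 k142 1 (.d k73 k8 k12 8 10))))),
  (.s k65 k130 8 (.s k105 k125 5 (.s k150 k60 14 (.s k154 k56 12 (.s k16 k223 10 (.s k48 k32 3 (.d
  k146 k158 k97 1 12))))))), (.s k207 k199 1 (.s k69 k138 10 (.s k101 k117 3 (.s k154 k48 14 (.s
  k105 k56 12 (.s k109 k97 1 (.d k60 k158 k150 12 14)))))))] (.c k15 (.q k47 [(.s k130 k65 8 (.s
  k207 k199 1 (.s k138 k69 10 (.s k134 k142 1 (.d k73 k8 k12 8 10))))), (.s k65 k130 8 (.s k105 k125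
  5 (.s k150 k60 14 (.s k154 k56 12 (.s k16 k223 10 (.s k48 k32 3 (.d k146 k158 k97 1 12))))))), (.s
  k207 k199 1 (.s k69 k138 10 (.s k101 k117 3 (.s k154 k48 14 (.s k105 k56 12 (.s k109 k97 1 (.d k60
  k158 k150 12 14)))))))] .n) (.c k47 (.q k15 [(.s k75 k135 9 (.s k139 k11 7 (.s k207 k199 1 (.s k79
  k143 7 (.d k71 k67 k3 1 9))))), (.s k130 k65 8 (.s k207 k199 1 (.s k138 k69 10 (.s k73 k8 8 (.d
  k134 k142 k12 1 10))))), (.s k5 k10 2 (.s k65 k130 8 (.s k75 k135 9 (.s k105 k125 5 (.s k90 k120 4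
  (.d k165 k245 k240 11 14))))))] .n) .n)))

def s63_170_32 : T TT 256 :=
  (.q k101 [(.s k65 k130 8 (.s k69 k117 3 (.s k73 k77 1 (.s k12 k134 10 (.s k8 k4 1 (.d k138 k203
  k207 8 10)))))), (.s k65 k130 8 (.s k105 k125 5 (.s k97 k109 1 (.s k48 k146 12 (.s k150 k60 14 (.s
  k199 k52 12 (.d k207 k203 k154 1 14))))))), (.s k69 k117 3 (.s k207 k138 10 (.s k199 k203 1 (.s
  k150 k52 12 (.s k20 k215 8 (.d k60 k40 k105 5 14)))))), (.s k65 k130 8 (.s k69 k117 3 (.s k77 k73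
  1 (.s k89 k113 5 (.s k93 k81 1 (.d k125 k109 k105 3 5))))))] (.c k150 (.l (.s k69 k117 3 (.s k130
  k65 8 (.s k138 k207 10 (.s k134 k142 1 (.s k4 k199 8 (.d k12 k8 k73 1 10))))))) .n))

def s63_170_33 : T TT 256 :=
  (.q k1 [(.s k3 k2 0 (.s k131 k67 7 (.s k169 k253 13 (.s k150 k188 6 (.s k20 k215 8 (.d k60 k40
  k105 5 14)))))), (.s k65 k130 8 (.s k105 k125 5 (.s k169 k253 13 (.s k41 k233 7 (.s k61 k21 5 (.d
  k193 k129 k149 7 13)))))), (.s k3 k2 0 (.s k65 k130 8 (.s k67 k131 7 (.s k66 k64 0 (.d k129 k193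
  k192 7 8)))))] (.c k150 (.l (.s k3 k2 0 (.s k67 k131 7 (.s k169 k253 13 (.s k86 k252 14 (.s k105
  k124 6 (.d k65 k125 k130 5 8))))))) .n))

def s63_170_34 : T TT 256 :=
  (.q k199 [(.s k207 k203 1 (.s k69 k138 10 (.s k134 k4 8 (.s k73 k12 10 (.d k65 k77 k130 1 8))))),
  (.s k65 k130 8 (.s k105 k125 5 (.s k150 k60 14 (.s k101 k52 12 (.s k69 k117 3 (.d k207 k203 k138 1
  10)))))), (.s k65 k130 8 (.s k105 k125 5 (.s k150 k60 14 (.s k101 k52 12 (.s k69 k117 3 (.s k73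
  k77 1 (.d k134 k4 k12 8 10))))))), (.s k207 k203 1 (.s k69 k138 10 (.s k101 k117 3 (.s k150 k52 12
  (.s k20 k215 8 (.d k60 k40 k105 5 14))))))] (.c k69 (.l (.s k65 k130 8 (.s k105 k125 5 (.s k150
  k60 14 (.s k101 k52 12 (.s k97 k109 1 (.s k48 k146 12 (.d k207 k203 k154 1 14)))))))) (.c k102 (.q
  k238 [(.s k207 k203 1 (.s k69 k138 10 (.s k134 k4 8 (.s k73 k12 10 (.d k65 k77 k130 1 8))))), (.s
  k65 k130 8 (.s k105 k125 5 (.s k150 k60 14 (.s k101 k52 12 (.s k69 k117 3 (.d k207 k203 k138 1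
  10)))))), (.s k65 k130 8 (.s k105 k125 5 (.s k150 k60 14 (.s k101 k52 12 (.s k69 k117 3 (.s k73
  k77 1 (.d k134 k4 k12 8 10))))))), (.s k207 k203 1 (.s k69 k138 10 (.s k101 k117 3 (.s k150 k52 12
  (.s k20 k215 8 (.d k60 k40 k105 5 14))))))] (.c k69 (.l (.s k65 k130 8 (.s k105 k125 5 (.s k150
  k60 14 (.s k101 k52 12 (.s k97 k109 1 (.s k48 k146 12 (.d k207 k203 k154 1 14)))))))) .n)) (.c
  k238 (.q k102 [(.s k65 k130 8 (.s k68 k119 4 (.s k105 k125 5 (.s k99 k108 2 (.s k51 k147 11 (.d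
  k204 k136 k153 9 14)))))), (.s k207 k203 1 (.s k69 k138 10 (.s k134 k4 8 (.s k73 k12 10 (.d k65
  k77 k130 1 8))))), (.s k68 k119 4 (.s k204 k136 9 (.s k198 k201 2 (.s k150 k54 11 (.s k20 k215 8
  (.d k60 k40 k105 5 14))))))] .n) .n))))

def s63_170_35 : T TT 256 :=
  (.q k1 [(.s k3 k2 0 (.s k131 k67 7 (.s k169 k253 13 (.s k150 k188 6 (.s k20 k215 8 (.d k60 k40
  k105 5 14)))))), (.s k65 k130 8 (.s k105 k125 5 (.s k169 k253 13 (.s k41 k233 7 (.s k61 k21 5 (.d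
  k193 k129 k149 7 13)))))), (.s k3 k2 0 (.s k65 k130 8 (.s k67 k131 7 (.s k66 k64 0 (.d k129 k193
  k192 7 8)))))] (.c k150 (.l (.s k3 k2 0 (.s k67 k131 7 (.s k169 k253 13 (.s k86 k252 14 (.s k105
  k124 6 (.d k65 k125 k130 5 8))))))) .n))

def s63_170_36 : T TT 256 :=
  (.q k1 [(.s k3 k2 0 (.s k131 k67 7 (.s k169 k253 13 (.s k150 k188 6 (.s k20 k215 8 (.d k60 k40
  k105 5 14)))))), (.s k65 k130 8 (.s k105 k125 5 (.s k169 k253 13 (.s k41 k233 7 (.s k61 k21 5 (.d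
  k193 k129 k149 7 13)))))), (.s k3 k2 0 (.s k65 k130 8 (.s k67 k131 7 (.s k66 k64 0 (.d k129 k193
  k192 7 8)))))] (.c k150 (.l (.s k3 k2 0 (.s k67 k131 7 (.s k169 k253 13 (.s k86 k252 14 (.s k105
  k124 6 (.d k65 k125 k130 5 8))))))) .n))

def s63_170_37 : T TT 256 :=
  (.q k1 [(.s k3 k2 0 (.s k131 k67 7 (.s k169 k253 13 (.s k150 k188 6 (.s k20 k215 8 (.d k60 k40
  k105 5 14)))))), (.s k65 k130 8 (.s k105 k125 5 (.s k169 k253 13 (.s k41 k233 7 (.s k61 k21 5 (.d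
  k193 k129 k149 7 13)))))), (.s k3 k2 0 (.s k65 k130 8 (.s k67 k131 7 (.s k66 k64 0 (.d k129 k193
  k192 7 8)))))] (.c k150 (.l (.s k3 k2 0 (.s k67 k131 7 (.s k169 k253 13 (.s k86 k252 14 (.s k105
  k124 6 (.d k65 k125 k130 5 8))))))) .n))

def s63_170_38 : T TT 256 :=
  (.q k1 [(.s k3 k2 0 (.s k131 k67 7 (.s k169 k253 13 (.s k150 k188 6 (.s k20 k215 8 (.d k60 k40
  k105 5 14)))))), (.s k65 k130 8 (.s k105 k125 5 (.s k169 k253 13 (.s k41 k233 7 (.s k61 k21 5 (.d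
  k193 k129 k149 7 13)))))), (.s k3 k2 0 (.s k65 k130 8 (.s k67 k131 7 (.s k66 k64 0 (.d k129 k193
  k192 7 8)))))] (.c k150 (.l (.s k3 k2 0 (.s k67 k131 7 (.s k169 k253 13 (.s k86 k252 14 (.s k105
  k124 6 (.d k65 k125 k130 5 8))))))) .n))

def s63_170_39 : T TT 256 :=
  (.q k1 [(.s k3 k2 0 (.s k131 k67 7 (.s k169 k253 13 (.s k150 k188 6 (.s k20 k215 8 (.d k60 k40
  k105 5 14)))))), (.s k65 k130 8 (.s k105 k125 5 (.s k169 k253 13 (.s k41 k233 7 (.s k61 k21 5 (.d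
  k193 k129 k149 7 13)))))), (.s k3 k2 0 (.s k65 k130 8 (.s k67 k131 7 (.s k66 k64 0 (.d k129 k193
  k192 7 8)))))] (.c k150 (.l (.s k3 k2 0 (.s k67 k131 7 (.s k169 k253 13 (.s k86 k252 14 (.s k105
  k124 6 (.d k65 k125 k130 5 8))))))) .n))

def s63_170_40 : T TT 256 :=
  (.q k81 [(.s k65 k130 8 (.s k97 k113 3 (.s k48 k146 12 (.s k32 k16 3 (.d k162 k227 k243 8 12))))),
  (.s k89 k93 1 (.s k243 k162 12 (.s k166 k12 14 (.s k211 k227 3 (.s k150 k28 10 (.s k182 k134 3 (.d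
  k60 k105 k121 14 10))))))), (.s k65 k130 8 (.s k89 k93 1 (.s k105 k125 5 (.s k73 k121 3 (.s k77
  k69 1 (.d k113 k97 k101 3 5))))))] (.c k97 (.l (.s k65 k130 8 (.s k89 k93 1 (.s k105 k125 5 (.s
  k73 k121 3 (.s k12 k134 10 (.d k243 k162 k166 12 14))))))) (.c k105 (.q k235 [(.s k65 k130 8 (.s
  k97 k113 3 (.s k48 k146 12 (.s k32 k16 3 (.d k162 k227 k243 8 12))))), (.s k89 k93 1 (.s k243 k162
  12 (.s k166 k12 14 (.s k247 k4 12 (.d k255 k251 k215 1 5))))), (.s k89 k93 1 (.s k215 k255 5 (.s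
  k150 k20 8 (.s k211 k28 10 (.s k16 k146 8 (.d k223 k219 k154 1 10))))))] .n) (.c k150 (.l (.s k130
  k65 8 (.s k162 k243 12 (.s k146 k178 3 (.s k16 k211 8 (.d k48 k32 k97 3 12)))))) (.c k235 (.q k105
  [(.d k65 k125 k130 5 8), (.s k89 k93 1 (.s k73 k121 3 (.s k12 k134 10 (.d k243 k162 k166 12
  14))))] .n) .n)))))

def s63_170_41 : T TT 256 :=
  (.q k12 [(.s k4 k8 1 (.s k130 k65 8 (.s k134 k73 10 (.s k69 k199 8 (.d k138 k142 k207 1 10))))),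
  (.s k4 k8 1 (.s k65 k130 8 (.s k105 k125 5 (.s k166 k247 12 (.s k44 k227 10 (.d k60 k150 k28 14
  3)))))), (.s k65 k130 8 (.s k73 k134 10 (.s k105 k125 5 (.s k89 k121 3 (.s k81 k93 1 (.d k243 k162
  k166 12 14)))))), (.s k4 k8 1 (.s k134 k73 10 (.s k166 k247 12 (.s k150 k182 3 (.s k20 k215 8 (.d
  k60 k40 k105 5 14))))))] (.c k89 (.l (.s k8 k4 1 (.s k65 k130 8 (.s k73 k134 10 (.s k69 k77 1 (.d
  k138 k203 k207 8 10)))))) .n))

def s63_170_42 : T TT 256 :=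
  (.q k192 [(.s k128 k64 7 (.s k130 k65 8 (.s k129 k131 0 (.s k66 k3 8 (.d k194 k193 k2 0 7))))),
  (.s k64 k128 7 (.s k106 k127 6 (.s k194 k193 0 (.s k150 k62 13 (.s k20 k215 8 (.d k60 k40 k105 5
  14)))))), (.s k64 k128 7 (.s k65 k130 8 (.s k105 k125 5 (.s k106 k127 6 (.s k104 k107 0 (.d k60
  k150 k148 14 13)))))), (.s k65 k130 8 (.s k105 k125 5 (.s k193 k194 0 (.s k149 k61 13 (.s k213 k21
  7 (.s k253 k233 5 (.d k1 k129 k169 7 13)))))))] (.c k106 (.q k234 [(.s k65 k130 8 (.s k105 k125 5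
  (.s k150 k60 14 (.s k215 k20 8 (.d k255 k235 k213 5 6))))), (.s k128 k64 7 (.s k130 k65 8 (.s k129
  k131 0 (.s k66 k3 8 (.d k194 k193 k2 0 7))))), (.s k193 k194 0 (.s k213 k255 6 (.s k233 k253 5 (.s
  k232 k235 0 (.d k252 k212 k214 5 6)))))] .n) (.c k234 (.q k106 [(.d k64 k127 k128 6 7), (.s k65
  k130 8 (.s k105 k125 5 (.s k104 k107 0 (.d k60 k150 k148 14 13))))] .n) .n)))

def s63_170_43 : T TT 256 :=
  (.q k3 [(.s k2 k1 0 (.s k130 k65 8 (.s k66 k194 7 (.s k129 k192 8 (.d k131 k128 k67 0 7))))), (.s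
  k1 k2 0 (.s k131 k67 7 (.s k169 k253 13 (.s k150 k188 6 (.s k20 k215 8 (.d k60 k40 k105 5
  14)))))), (.s k65 k130 8 (.s k67 k131 7 (.s k105 k125 5 (.s k86 k124 6 (.s k84 k87 0 (.d k252 k168
  k169 13 14)))))), (.s k1 k2 0 (.s k65 k130 8 (.s k105 k125 5 (.s k169 k253 13 (.s k41 k233 7 (.d
  k60 k150 k22 14 6))))))] .n)

def s63_170_44 : T TT 256 :=
  (.q k1 [(.s k3 k2 0 (.s k131 k67 7 (.s k169 k253 13 (.s k150 k188 6 (.s k20 k215 8 (.d k60 k40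
  k105 5 14)))))), (.s k65 k130 8 (.s k105 k125 5 (.s k169 k253 13 (.s k41 k233 7 (.s k61 k21 5 (.d
  k193 k129 k149 7 13)))))), (.s k3 k2 0 (.s k65 k130 8 (.s k67 k131 7 (.s k66 k64 0 (.d k129 k193
  k192 7 8)))))] (.c k150 (.l (.s k3 k2 0 (.s k67 k131 7 (.s k169 k253 13 (.s k86 k252 14 (.s k105
  k124 6 (.d k65 k125 k130 5 8))))))) .n))

def s63_170_45 : T TT 256 :=
  (.q k1 [(.s k3 k2 0 (.s k131 k67 7 (.s k169 k253 13 (.s k150 k188 6 (.s k20 k215 8 (.d k60 k40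
  k105 5 14)))))), (.s k65 k130 8 (.s k105 k125 5 (.s k169 k253 13 (.s k41 k233 7 (.s k61 k21 5 (.d
  k193 k129 k149 7 13)))))), (.s k3 k2 0 (.s k65 k130 8 (.s k67 k131 7 (.s k66 k64 0 (.d k129 k193
  k192 7 8)))))] (.c k150 (.l (.s k3 k2 0 (.s k67 k131 7 (.s k169 k253 13 (.s k86 k252 14 (.s k105
  k124 6 (.d k65 k125 k130 5 8))))))) .n))

def s63_170_46 : T TT 256 :=
  (.q k12 [(.s k4 k8 1 (.s k130 k65 8 (.s k134 k73 10 (.s k69 k199 8 (.d k138 k142 k207 1 10))))),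
  (.s k4 k8 1 (.s k65 k130 8 (.s k105 k125 5 (.s k166 k247 12 (.s k44 k227 10 (.d k60 k150 k28 14
  3)))))), (.s k65 k130 8 (.s k73 k134 10 (.s k105 k125 5 (.s k89 k121 3 (.s k81 k93 1 (.d k243 k162
  k166 12 14)))))), (.s k4 k8 1 (.s k134 k73 10 (.s k166 k247 12 (.s k150 k182 3 (.s k20 k215 8 (.d
  k60 k40 k105 5 14))))))] (.c k89 (.l (.s k8 k4 1 (.s k65 k130 8 (.s k73 k134 10 (.s k69 k77 1 (.d
  k138 k203 k207 8 10)))))) .n))

def s63_170_47 : T TT 256 :=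
  (.q k203 [(.s k130 k65 8 (.s k207 k199 1 (.s k138 k69 10 (.s k134 k142 1 (.d k73 k8 k12 8 10))))),
  (.s k65 k130 8 (.s k105 k125 5 (.s k150 k60 14 (.s k154 k56 12 (.s k16 k223 10 (.s k48 k32 3 (.d
  k146 k158 k97 1 12))))))), (.s k207 k199 1 (.s k69 k138 10 (.s k101 k117 3 (.s k154 k48 14 (.s
  k105 k56 12 (.s k109 k97 1 (.d k60 k158 k150 12 14)))))))] (.c k15 (.q k31 [(.s k130 k65 8 (.s
  k207 k199 1 (.s k138 k69 10 (.s k134 k142 1 (.d k73 k8 k12 8 10))))), (.s k65 k130 8 (.s k105 k125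
  5 (.s k150 k60 14 (.s k154 k56 12 (.s k16 k223 10 (.s k48 k32 3 (.d k146 k158 k97 1 12))))))), (.s
  k207 k199 1 (.s k69 k138 10 (.s k101 k117 3 (.s k154 k48 14 (.s k105 k56 12 (.s k109 k97 1 (.d k60
  k158 k150 12 14)))))))] .n) (.c k31 (.q k15 [(.s k75 k135 9 (.s k139 k11 7 (.s k207 k199 1 (.s k79
  k143 7 (.d k71 k67 k3 1 9))))), (.s k130 k65 8 (.s k207 k199 1 (.s k138 k69 10 (.s k73 k8 8 (.d
  k134 k142 k12 1 10))))), (.s k5 k10 2 (.s k65 k130 8 (.s k75 k135 9 (.s k105 k125 5 (.s k90 k120 4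
  (.d k165 k245 k240 11 14))))))] .n) .n)))

def s63_170_48 : T TT 256 :=
  (.q k1 [(.s k3 k2 0 (.s k131 k67 7 (.s k169 k253 13 (.s k150 k188 6 (.s k20 k215 8 (.d k60 k40
  k105 5 14)))))), (.s k65 k130 8 (.s k105 k125 5 (.s k169 k253 13 (.s k41 k233 7 (.s k61 k21 5 (.d
  k193 k129 k149 7 13)))))), (.s k3 k2 0 (.s k65 k130 8 (.s k67 k131 7 (.s k66 k64 0 (.d k129 k193
  k192 7 8)))))] (.c k53 (.q k58 [(.s k3 k2 0 (.s k131 k67 7 (.s k169 k253 13 (.s k150 k188 6 (.s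
  k20 k215 8 (.d k60 k40 k105 5 14)))))), (.s k65 k130 8 (.s k105 k125 5 (.s k169 k253 13 (.s k41
  k233 7 (.s k61 k21 5 (.d k193 k129 k149 7 13)))))), (.s k3 k2 0 (.s k65 k130 8 (.s k67 k131 7 (.s
  k66 k64 0 (.d k129 k193 k192 7 8)))))] (.c k150 (.l (.s k3 k2 0 (.s k67 k131 7 (.s k169 k253 13
  (.s k86 k252 14 (.s k105 k124 6 (.d k65 k125 k130 5 8))))))) .n)) (.c k58 (.q k53 [(.s k3 k2 0 (.s
  k131 k67 7 (.s k169 k253 13 (.s k150 k188 6 (.s k20 k215 8 (.d k60 k40 k105 5 14)))))), (.s k65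
  k130 8 (.s k105 k125 5 (.s k169 k253 13 (.s k41 k233 7 (.s k61 k21 5 (.d k193 k129 k149 7
  13)))))), (.s k3 k2 0 (.s k65 k130 8 (.s k67 k131 7 (.s k66 k64 0 (.d k129 k193 k192 7 8)))))] (.c
  k150 (.l (.s k3 k2 0 (.s k67 k131 7 (.s k169 k253 13 (.s k86 k252 14 (.s k105 k124 6 (.d k65 k125
  k130 5 8))))))) .n)) (.c k150 (.l (.s k3 k2 0 (.s k67 k131 7 (.s k169 k253 13 (.s k86 k252 14 (.s
  k105 k124 6 (.d k65 k125 k130 5 8))))))) .n))))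

def s63_170_49 : T TT 256 :=
  (.q k1 [(.s k3 k2 0 (.s k65 k130 8 (.s k67 k131 7 (.s k66 k64 0 (.d k129 k193 k192 7 8))))), (.s
  k65 k130 8 (.s k105 k125 5 (.s k169 k253 13 (.s k41 k233 7 (.s k61 k21 5 (.d k193 k129 k149 7
  13)))))), (.s k3 k2 0 (.s k131 k67 7 (.s k169 k253 13 (.s k150 k188 6 (.s k20 k215 8 (.d k60 k40
  k105 5 14))))))] (.c k150 (.l (.s k3 k2 0 (.s k67 k131 7 (.s k169 k253 13 (.s k86 k252 14 (.s k105
  k124 6 (.d k65 k125 k130 5 8))))))) .n))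

def s63_170_50 : T TT 256 :=
  (.q k1 [(.s k65 k130 8 (.s k105 k125 5 (.s k169 k253 13 (.s k41 k233 7 (.s k61 k21 5 (.d k193 k129
  k149 7 13)))))), (.s k3 k2 0 (.s k131 k67 7 (.s k169 k253 13 (.s k150 k188 6 (.s k20 k215 8 (.d
  k60 k40 k105 5 14)))))), (.s k3 k2 0 (.s k65 k130 8 (.s k67 k131 7 (.s k66 k64 0 (.d k129 k193
  k192 7 8)))))] (.c k150 (.l (.s k3 k2 0 (.s k67 k131 7 (.s k169 k253 13 (.s k86 k252 14 (.s k105
  k124 6 (.d k65 k125 k130 5 8))))))) .n))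

def s63_170_51 : T TT 256 :=
  (.q k1 [(.s k3 k2 0 (.s k131 k67 7 (.s k169 k253 13 (.s k150 k188 6 (.s k20 k215 8 (.d k60 k40
  k105 5 14)))))), (.s k65 k130 8 (.s k105 k125 5 (.s k169 k253 13 (.s k41 k233 7 (.s k61 k21 5 (.d
  k193 k129 k149 7 13)))))), (.s k3 k2 0 (.s k65 k130 8 (.s k67 k131 7 (.s k66 k64 0 (.d k129 k193
  k192 7 8)))))] (.c k55 (.q k59 [(.s k3 k2 0 (.s k131 k67 7 (.s k169 k253 13 (.s k150 k188 6 (.s
  k20 k215 8 (.d k60 k40 k105 5 14)))))), (.s k65 k130 8 (.s k105 k125 5 (.s k169 k253 13 (.s k41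
  k233 7 (.s k61 k21 5 (.d k193 k129 k149 7 13)))))), (.s k3 k2 0 (.s k65 k130 8 (.s k67 k131 7 (.s
  k66 k64 0 (.d k129 k193 k192 7 8)))))] (.c k150 (.l (.s k3 k2 0 (.s k67 k131 7 (.s k169 k253 13
  (.s k86 k252 14 (.s k105 k124 6 (.d k65 k125 k130 5 8))))))) .n)) (.c k59 (.q k55 [(.s k3 k2 0 (.s
  k131 k67 7 (.s k169 k253 13 (.s k150 k188 6 (.s k20 k215 8 (.d k60 k40 k105 5 14)))))), (.s k65
  k130 8 (.s k105 k125 5 (.s k169 k253 13 (.s k41 k233 7 (.s k61 k21 5 (.d k193 k129 k149 7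
  13)))))), (.s k3 k2 0 (.s k65 k130 8 (.s k67 k131 7 (.s k66 k64 0 (.d k129 k193 k192 7 8)))))] (.c
  k150 (.l (.s k3 k2 0 (.s k67 k131 7 (.s k169 k253 13 (.s k86 k252 14 (.s k105 k124 6 (.d k65 k125
  k130 5 8))))))) .n)) (.c k150 (.l (.s k3 k2 0 (.s k67 k131 7 (.s k169 k253 13 (.s k86 k252 14 (.s
  k105 k124 6 (.d k65 k125 k130 5 8))))))) .n))))

def s63_170_52 : T TT 256 :=
  (.q k1 [(.s k3 k2 0 (.s k131 k67 7 (.s k169 k253 13 (.s k150 k188 6 (.s k20 k215 8 (.d k60 k40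
  k105 5 14)))))), (.s k65 k130 8 (.s k105 k125 5 (.s k169 k253 13 (.s k41 k233 7 (.s k61 k21 5 (.d
  k193 k129 k149 7 13)))))), (.s k3 k2 0 (.s k65 k130 8 (.s k67 k131 7 (.s k66 k64 0 (.d k129 k193
  k192 7 8)))))] (.c k150 (.l (.s k3 k2 0 (.s k67 k131 7 (.s k169 k253 13 (.s k86 k252 14 (.s k105
  k124 6 (.d k65 k125 k130 5 8))))))) .n))

def s63_170_53 : T TT 256 :=
  (.q k48 [(.s k16 k32 3 (.s k130 k65 8 (.s k146 k97 12 (.s k81 k211 8 (.d k162 k178 k243 3 12))))),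
  (.s k16 k32 3 (.s k65 k130 8 (.s k105 k125 5 (.s k154 k223 10 (.s k56 k203 12 (.d k60 k150 k52 14
  1)))))), (.s k65 k130 8 (.s k97 k146 12 (.s k105 k125 5 (.s k101 k109 1 (.s k69 k117 3 (.d k207
  k138 k154 10 14)))))), (.s k16 k32 3 (.s k146 k97 12 (.s k154 k223 10 (.s k150 k158 1 (.s k20 k215
  8 (.d k60 k40 k105 5 14))))))] (.c k101 (.l (.s k32 k16 3 (.s k65 k130 8 (.s k97 k146 12 (.s k81
  k113 3 (.d k162 k227 k243 8 12)))))) .n))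

def s63_170_54 : T TT 256 :=
  (.q k1 [(.s k3 k2 0 (.s k131 k67 7 (.s k169 k253 13 (.s k150 k188 6 (.s k20 k215 8 (.d k60 k40
  k105 5 14)))))), (.s k65 k130 8 (.s k105 k125 5 (.s k169 k253 13 (.s k41 k233 7 (.s k61 k21 5 (.d
  k193 k129 k149 7 13)))))), (.s k3 k2 0 (.s k65 k130 8 (.s k67 k131 7 (.s k66 k64 0 (.d k129 k193
  k192 7 8)))))] (.c k150 (.l (.s k3 k2 0 (.s k67 k131 7 (.s k169 k253 13 (.s k86 k252 14 (.s k105
  k124 6 (.d k65 k125 k130 5 8))))))) .n))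

def s63_170_55 : T TT 256 :=
  (.q k51 [(.s k17 k34 4 (.s k147 k99 11 (.s k153 k221 9 (.s k150 k156 2 (.s k20 k215 8 (.d k60 k40
  k105 5 14)))))), (.s k65 k130 8 (.s k99 k147 11 (.s k105 k125 5 (.s k102 k108 2 (.s k68 k119 4 (.d
  k204 k136 k153 9 14)))))), (.s k17 k34 4 (.s k65 k130 8 (.s k105 k125 5 (.s k153 k221 9 (.s k57
  k201 11 (.d k60 k150 k54 14 2))))))] (.c k102 (.l (.s k65 k130 8 (.s k105 k125 5 (.s k147 k99 11
  (.s k150 k60 14 (.s k153 k156 2 (.d k17 k34 k221 4 9))))))) (.c k105 (.f k17 k34 4 (.l (.s k147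
  k99 11 (.s k153 k221 9 (.s k102 k204 14 (.s k119 k68 4 (.s k150 k156 2 (.s k215 k20 8 (.d k255
  k235 k187 5 9))))))))) (.c k150 (.l (.s k17 k34 4 (.s k99 k147 11 (.s k153 k221 9 (.s k102 k204 14
  (.s k105 k108 2 (.d k65 k125 k130 5 8))))))) (.c k153 (.f k65 k130 8 (.l (.s k99 k147 11 (.s k105
  k125 5 (.s k102 k108 2 (.s k68 k119 4 (.s k150 k60 14 (.s k198 k54 11 (.d k204 k201 k136 2
  9))))))))) .n)))))

def s63_170_56 : T TT 256 :=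
  (.q k1 [(.s k3 k2 0 (.s k131 k67 7 (.s k169 k253 13 (.s k150 k188 6 (.s k20 k215 8 (.d k60 k40
  k105 5 14)))))), (.s k65 k130 8 (.s k105 k125 5 (.s k169 k253 13 (.s k41 k233 7 (.s k61 k21 5 (.d
  k193 k129 k149 7 13)))))), (.s k3 k2 0 (.s k65 k130 8 (.s k67 k131 7 (.s k66 k64 0 (.d k129 k193
  k192 7 8)))))] (.c k150 (.l (.s k3 k2 0 (.s k67 k131 7 (.s k169 k253 13 (.s k86 k252 14 (.s k105
  k124 6 (.d k65 k125 k130 5 8))))))) .n))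

def s63_170_57 : T TT 256 :=
  (.q k1 [(.s k3 k2 0 (.s k131 k67 7 (.s k169 k253 13 (.s k150 k188 6 (.s k20 k215 8 (.d k60 k40
  k105 5 14)))))), (.s k65 k130 8 (.s k105 k125 5 (.s k169 k253 13 (.s k41 k233 7 (.s k61 k21 5 (.d
  k193 k129 k149 7 13)))))), (.s k3 k2 0 (.s k65 k130 8 (.s k67 k131 7 (.s k66 k64 0 (.d k129 k193
  k192 7 8)))))] (.c k150 (.l (.s k3 k2 0 (.s k67 k131 7 (.s k169 k253 13 (.s k86 k252 14 (.s k105
  k124 6 (.d k65 k125 k130 5 8))))))) .n))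

def s63_170_58 : T TT 256 :=
  (.q k48 [(.s k16 k32 3 (.s k130 k65 8 (.s k146 k97 12 (.s k81 k211 8 (.d k162 k178 k243 3 12))))),
  (.s k16 k32 3 (.s k65 k130 8 (.s k105 k125 5 (.s k154 k223 10 (.s k56 k203 12 (.d k60 k150 k52 14
  1)))))), (.s k65 k130 8 (.s k97 k146 12 (.s k105 k125 5 (.s k101 k109 1 (.s k69 k117 3 (.d k207
  k138 k154 10 14)))))), (.s k16 k32 3 (.s k146 k97 12 (.s k154 k223 10 (.s k150 k158 1 (.s k20 k215
  8 (.d k60 k40 k105 5 14))))))] (.c k101 (.l (.s k32 k16 3 (.s k65 k130 8 (.s k97 k146 12 (.s k81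
  k113 3 (.d k162 k227 k243 8 12)))))) .n))

def s63_170_59 : T TT 256 :=
  (.q k1 [(.s k3 k2 0 (.s k131 k67 7 (.s k169 k253 13 (.s k150 k188 6 (.s k20 k215 8 (.d k60 k40
  k105 5 14)))))), (.s k65 k130 8 (.s k105 k125 5 (.s k169 k253 13 (.s k41 k233 7 (.s k61 k21 5 (.d
  k193 k129 k149 7 13)))))), (.s k3 k2 0 (.s k65 k130 8 (.s k67 k131 7 (.s k66 k64 0 (.d k129 k193
  k192 7 8)))))] (.c k51 (.q k55 [(.s k3 k2 0 (.s k131 k67 7 (.s k169 k253 13 (.s k150 k188 6 (.s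
  k20 k215 8 (.d k60 k40 k105 5 14)))))), (.s k65 k130 8 (.s k105 k125 5 (.s k169 k253 13 (.s k41
  k233 7 (.s k61 k21 5 (.d k193 k129 k149 7 13)))))), (.s k3 k2 0 (.s k65 k130 8 (.s k67 k131 7 (.s
  k66 k64 0 (.d k129 k193 k192 7 8)))))] (.c k150 (.l (.s k3 k2 0 (.s k67 k131 7 (.s k169 k253 13
  (.s k86 k252 14 (.s k105 k124 6 (.d k65 k125 k130 5 8))))))) .n)) (.c k55 (.q k51 [(.s k3 k2 0 (.s
  k17 k34 4 (.s k19 k35 3 (.s k18 k16 0 (.d k33 k49 k48 3 4))))), (.s k3 k2 0 (.s k65 k130 8 (.s k67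
  k131 7 (.s k66 k64 0 (.d k129 k193 k192 7 8))))), (.s k17 k34 4 (.s k49 k33 3 (.s k65 k130 8 (.s
  k193 k129 7 (.s k97 k145 11 (.d k48 k50 k146 0 12))))))] .n) (.c k150 (.l (.s k3 k2 0 (.s k67 k131
  7 (.s k169 k253 13 (.s k86 k252 14 (.s k105 k124 6 (.d k65 k125 k130 5 8))))))) .n))))

def s63_170_60 : T TT 256 :=
  (.q k69 [(.s k65 k130 8 (.s k73 k77 1 (.s k12 k134 10 (.s k8 k4 1 (.d k138 k203 k207 8 10))))),
  (.s k65 k130 8 (.s k77 k73 1 (.s k101 k117 3 (.s k89 k113 5 (.s k93 k81 1 (.d k125 k109 k105 3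
  5)))))), (.s k101 k117 3 (.s k207 k138 10 (.s k199 k203 1 (.s k150 k52 12 (.s k215 k20 8 (.s k247
  k231 3 (.d k4 k134 k166 8 12)))))))] (.c k61 (.q k62 [(.s k65 k130 8 (.s k73 k77 1 (.s k12 k134 10
  (.s k8 k4 1 (.d k138 k203 k207 8 10))))), (.s k65 k130 8 (.s k77 k73 1 (.s k101 k117 3 (.s k89
  k113 5 (.s k93 k81 1 (.d k125 k109 k105 3 5)))))), (.s k101 k117 3 (.s k207 k138 10 (.s k199 k203
  1 (.s k150 k52 12 (.s k215 k20 8 (.s k247 k231 3 (.d k4 k134 k166 8 12)))))))] (.c k73 (.l (.s k65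
  k130 8 (.s k101 k117 3 (.s k105 k125 5 (.s k97 k109 1 (.s k48 k146 12 (.d k207 k138 k154 10
  14))))))) (.c k150 (.l (.s k130 k65 8 (.s k138 k207 10 (.s k134 k142 1 (.s k4 k199 8 (.d k12 k8
  k73 1 10)))))) .n))) (.c k62 (.q k61 [(.s k65 k130 8 (.s k73 k77 1 (.s k12 k134 10 (.s k8 k4 1 (.d
  k138 k203 k207 8 10))))), (.s k65 k130 8 (.s k77 k73 1 (.s k101 k117 3 (.s k89 k113 5 (.s k93 k81
  1 (.d k125 k109 k105 3 5)))))), (.s k101 k117 3 (.s k207 k138 10 (.s k199 k203 1 (.s k150 k52 12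
  (.s k215 k20 8 (.s k247 k231 3 (.d k4 k134 k166 8 12)))))))] (.c k73 (.l (.s k65 k130 8 (.s k101
  k117 3 (.s k105 k125 5 (.s k97 k109 1 (.s k48 k146 12 (.d k207 k138 k154 10 14))))))) (.c k150 (.l
  (.s k130 k65 8 (.s k138 k207 10 (.s k134 k142 1 (.s k4 k199 8 (.d k12 k8 k73 1 10)))))) .n))) (.c
  k73 (.l (.s k65 k130 8 (.s k101 k117 3 (.s k105 k125 5 (.s k97 k109 1 (.s k48 k146 12 (.d k207
  k138 k154 10 14))))))) (.c k150 (.l (.s k130 k65 8 (.s k138 k207 10 (.s k134 k142 1 (.s k4 k199 8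
  (.d k12 k8 k73 1 10)))))) .n)))))

def s63_170_61 : T TT 256 :=
  (.q k243 [(.s k130 k65 8 (.s k162 k81 12 (.s k146 k178 3 (.s k97 k48 12 (.d k227 k211 k32 3
  8))))), (.s k65 k130 8 (.s k105 k125 5 (.s k227 k211 3 (.s k166 k44 10 (.s k4 k247 12 (.d k12 k8
  k89 1 14)))))), (.s k65 k130 8 (.s k81 k162 12 (.s k89 k93 1 (.s k105 k125 5 (.s k73 k121 3 (.d
  k12 k166 k134 14 10)))))), (.s k81 k162 12 (.s k89 k93 1 (.s k211 k227 3 (.s k150 k28 10 (.s k20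
  k215 8 (.d k60 k40 k105 5 14))))))] (.c k60 (.q k62 [(.s k130 k65 8 (.s k227 k211 3 (.s k162 k81
  12 (.s k97 k32 8 (.d k146 k178 k48 3 12))))), (.s k65 k130 8 (.s k105 k125 5 (.s k227 k211 3 (.s
  k166 k44 10 (.s k4 k247 12 (.d k12 k8 k89 1 14)))))), (.s k65 k130 8 (.s k81 k162 12 (.s k89 k93 1
  (.s k105 k125 5 (.s k73 k121 3 (.d k12 k166 k134 14 10)))))), (.s k81 k162 12 (.s k89 k93 1 (.s
  k211 k227 3 (.s k150 k28 10 (.s k215 k20 8 (.s k223 k219 1 (.d k16 k146 k154 8 10)))))))] .n) (.c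
  k62 (.q k60 [(.s k20 k40 5 (.d k150 k105 k215 14 8)), (.s k65 k130 8 (.s k81 k162 12 (.s k97 k113
  3 (.s k146 k48 12 (.d k211 k227 k16 3 8)))))] (.c k150 (.l (.s k81 k162 12 (.s k89 k93 1 (.s k121
  k182 10 (.s k73 k105 3 (.d k12 k134 k166 10 14)))))) .n)) .n)))

def s63_170_62 : T TT 256 :=
  (.q k1 [(.s k65 k130 8 (.s k105 k125 5 (.s k169 k253 13 (.s k41 k233 7 (.s k61 k21 5 (.d k193 k129
  k149 7 13)))))), (.s k3 k2 0 (.s k131 k67 7 (.s k169 k253 13 (.s k150 k188 6 (.s k20 k215 8 (.d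
  k60 k40 k105 5 14)))))), (.s k3 k2 0 (.s k65 k130 8 (.s k67 k131 7 (.s k66 k64 0 (.d k129 k193
  k192 7 8)))))] (.c k60 (.q k61 [(.s k65 k130 8 (.s k105 k125 5 (.d k193 k129 k149 7 13))), (.s k3
  k2 0 (.s k41 k21 5 (.s k169 k253 13 (.s k233 k105 7 (.d k252 k86 k214 14 6)))))] (.c k105 (.l (.s
  k3 k2 0 (.s k65 k130 8 (.s k67 k131 7 (.s k66 k64 0 (.d k129 k193 k192 7 8)))))) .n)) (.c k61 (.q
  k60 [(.s k20 k40 5 (.d k150 k105 k215 14 8)), (.s k3 k2 0 (.s k65 k130 8 (.s k67 k131 7 (.s k66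
  k64 0 (.d k129 k193 k192 7 8)))))] (.c k150 (.l (.s k3 k2 0 (.s k67 k131 7 (.s k169 k253 13 (.s
  k86 k252 14 (.s k105 k124 6 (.d k41 k22 k233 6 7))))))) .n)) (.c k150 (.l (.s k3 k2 0 (.s k67 k131
  7 (.s k169 k253 13 (.s k86 k252 14 (.s k105 k124 6 (.d k65 k125 k130 5 8))))))) .n))))

def s63_170_64 : T TT 256 :=
  (.q k3 [(.s k2 k1 0 (.s k130 k65 8 (.s k66 k194 7 (.s k131 k67 7 (.d k129 k128 k192 0 8))))), (.s
  k1 k2 0 (.s k67 k131 7 (.s k169 k253 13 (.s k86 k252 14 (.s k105 k124 6 (.s k41 k233 7 (.d k60 k22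
  k150 6 14))))))), (.s k65 k130 8 (.s k67 k131 7 (.s k105 k125 5 (.s k86 k124 6 (.s k84 k87 0 (.d
  k252 k168 k169 13 14)))))), (.s k1 k2 0 (.s k65 k130 8 (.s k105 k125 5 (.s k169 k253 13 (.s k41
  k233 7 (.d k60 k150 k22 14 6))))))] .n)

def s63_170_65 : T TT 256 :=
  (.q k150 [(.s k20 k215 8 (.d k60 k40 k105 5 14))] (.c k20 (.q k1 [(.s k169 k253 13 (.s k131 k188 6
  (.d k3 k2 k67 0 7))), (.s k3 k2 0 (.s k60 k105 14 (.s k22 k41 6 (.s k86 k214 7 (.s k84 k87 0 (.d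
  k252 k169 k168 14 13)))))), (.s k60 k105 14 (.s k169 k253 13 (.s k188 k131 6 (.s k252 k124 7 (.s
  k84 k168 13 (.s k86 k87 0 (.d k214 k233 k22 6 7)))))))] (.c k169 (.l (.s k3 k2 0 (.s k67 k131 7
  (.s k105 k60 14 (.s k86 k124 6 (.s k84 k87 0 (.s k214 k22 7 (.d k252 k233 k168 6 13)))))))) .n))
  (.c k40 (.q k146 [(.s k48 k97 12 (.s k154 k158 1 (.d k16 k32 k223 3 10))), (.s k20 k215 8 (.s k154
  k158 1 (.s k16 k223 10 (.s k28 k24 1 (.d k211 k81 k89 8 10))))), (.s k20 k215 8 (.s k48 k97 12 (.s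
  k16 k32 3 (.s k28 k24 1 (.d k211 k81 k89 8 10)))))] (.c k16 (.l (.s k48 k97 12 (.s k105 k60 14 (.s
  k154 k158 1 (.s k203 k56 12 (.d k207 k199 k101 1 14)))))) (.c k81 (.l (.s k154 k158 1 (.s k16 k223
  10 (.d k48 k32 k97 3 12)))) (.c k105 (.q k235 [(.d k215 k255 k20 5 8), (.s k48 k97 12 (.s k16 k32
  3 (.d k154 k158 k223 1 10)))] .n) (.c k235 (.l (.s k105 k60 14 (.s k48 k97 12 (.s k16 k32 3 (.d
  k154 k158 k223 1 10))))) .n))))) (.c k60 (.f k20 k215 8 (.q k4 [(.s k12 k8 1 (.s k166 k247 12 (.d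
  k134 k182 k73 3 10))), (.s k52 k36 3 (.s k101 k199 12 (.s k247 k166 12 (.d k117 k69 k182 3 8)))),
  (.s k12 k8 1 (.s k52 k36 3 (.s k134 k73 10 (.d k199 k69 k101 8 12))))] (.c k61 (.q k62 [(.s k12 k8
  1 (.s k166 k247 12 (.d k134 k182 k73 3 10))), (.s k52 k36 3 (.s k101 k199 12 (.s k247 k166 12 (.d
  k117 k69 k182 3 8)))), (.s k12 k8 1 (.s k52 k36 3 (.s k134 k73 10 (.d k199 k69 k101 8 12))))] (.c
  k199 (.l (.s k12 k8 1 (.s k134 k73 10 (.d k166 k182 k247 3 12)))) .n)) (.c k62 (.q k61 [(.s k12 k8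
  1 (.s k166 k247 12 (.d k134 k182 k73 3 10))), (.s k52 k36 3 (.s k101 k199 12 (.s k247 k166 12 (.d
  k117 k69 k182 3 8)))), (.s k12 k8 1 (.s k52 k36 3 (.s k134 k73 10 (.d k199 k69 k101 8 12))))] (.c
  k199 (.l (.s k12 k8 1 (.s k134 k73 10 (.d k166 k182 k247 3 12)))) .n)) (.c k199 (.l (.s k12 k8 1
  (.s k134 k73 10 (.d k166 k182 k247 3 12)))) .n))))) (.c k105 (.f k20 k215 8 (.q k134 [(.s k166
  k182 3 (.s k4 k247 12 (.s k52 k36 3 (.d k199 k69 k101 8 12)))), (.s k12 k73 10 (.s k166 k182 3 (.s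
  k89 k243 14 (.s k28 k211 10 (.d k60 k40 k44 5 3))))), (.s k12 k73 10 (.s k4 k8 1 (.s k52 k36 3 (.d
  k199 k69 k101 8 12))))] (.c k40 (.q k235 [(.s k12 k73 10 (.s k166 k182 3 (.d k4 k8 k247 1 12))),
  (.s k166 k182 3 (.s k4 k247 12 (.s k52 k36 3 (.d k199 k69 k101 8 12)))), (.s k12 k73 10 (.s k4 k8
  1 (.s k52 k36 3 (.d k199 k69 k101 8 12))))] (.c k4 (.l (.s k12 k73 10 (.s k166 k182 3 (.s k89 k243
  14 (.s k28 k211 10 (.s k16 k24 1 (.s k93 k81 1 (.d k223 k158 k154 8 10)))))))) (.c k69 (.l (.s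
  k166 k182 3 (.s k4 k247 12 (.d k12 k8 k73 1 10)))) .n))) (.c k69 (.l (.s k166 k182 3 (.s k4 k247
  12 (.d k12 k8 k73 1 10)))) (.c k235 (.l (.s k40 k60 5 (.s k12 k73 10 (.s k4 k8 1 (.d k166 k182
  k247 3 12))))) .n))))) (.c k215 (.q k1 [(.s k169 k253 13 (.s k131 k188 6 (.d k3 k2 k67 0 7))), (.s
  k3 k2 0 (.s k60 k105 14 (.s k22 k41 6 (.s k86 k214 7 (.s k84 k87 0 (.d k252 k169 k168 14 13)))))),
  (.s k60 k105 14 (.s k169 k253 13 (.s k188 k131 6 (.s k252 k124 7 (.s k84 k168 13 (.s k86 k87 0 (.d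
  k214 k233 k22 6 7)))))))] (.c k169 (.l (.s k3 k2 0 (.s k67 k131 7 (.s k105 k60 14 (.s k86 k124 6
  (.s k84 k87 0 (.s k214 k22 7 (.d k252 k233 k168 6 13)))))))) .n)) .n))))))

def s63_170_66 : T TT 256 :=
  (.q k12 [(.s k4 k8 1 (.s k134 k73 10 (.s k69 k199 8 (.s k138 k207 10 (.d k130 k142 k65 1 8))))),
  (.s k4 k8 1 (.s k65 k130 8 (.s k105 k125 5 (.s k166 k247 12 (.s k44 k227 10 (.d k60 k150 k28 14
  3)))))), (.s k65 k130 8 (.s k73 k134 10 (.s k105 k125 5 (.s k89 k121 3 (.s k81 k93 1 (.d k243 k162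
  k166 12 14)))))), (.s k4 k8 1 (.s k134 k73 10 (.s k166 k247 12 (.s k150 k182 3 (.s k20 k215 8 (.d
  k60 k40 k105 5 14))))))] (.c k89 (.l (.s k8 k4 1 (.s k65 k130 8 (.s k73 k134 10 (.s k69 k77 1 (.d
  k138 k203 k207 8 10)))))) .n))

def s63_170_67 : T TT 256 :=
  (.q k12 [(.s k8 k4 1 (.s k65 k130 8 (.s k73 k134 10 (.s k69 k77 1 (.d k138 k203 k207 8 10))))),
  (.s k4 k8 1 (.s k65 k130 8 (.s k105 k125 5 (.s k166 k247 12 (.s k44 k227 10 (.d k60 k150 k28 14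
  3)))))), (.s k4 k8 1 (.s k134 k73 10 (.s k166 k247 12 (.s k150 k182 3 (.s k20 k215 8 (.d k60 k40
  k105 5 14)))))), (.s k65 k130 8 (.s k73 k134 10 (.s k105 k125 5 (.s k89 k121 3 (.s k81 k93 1 (.d
  k243 k162 k166 12 14))))))] (.c k150 (.l (.s k4 k8 1 (.s k130 k65 8 (.s k134 k73 10 (.s k69 k199 8
  (.d k138 k142 k207 1 10)))))) .n))

def s63_170_68 : T TT 256 :=
  (.q k1 [(.s k3 k2 0 (.s k131 k67 7 (.s k169 k253 13 (.s k150 k188 6 (.s k20 k215 8 (.d k60 k40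
  k105 5 14)))))), (.s k65 k130 8 (.s k105 k125 5 (.s k169 k253 13 (.s k41 k233 7 (.s k61 k21 5 (.d
  k193 k129 k149 7 13)))))), (.s k3 k2 0 (.s k65 k130 8 (.s k67 k131 7 (.s k66 k64 0 (.d k129 k193
  k192 7 8)))))] (.c k150 (.l (.s k3 k2 0 (.s k67 k131 7 (.s k169 k253 13 (.s k86 k252 14 (.s k105
  k124 6 (.d k65 k125 k130 5 8))))))) .n))

def s63_170_69 : T TT 256 :=
  (.q k1 [(.s k3 k2 0 (.s k131 k67 7 (.s k169 k253 13 (.s k150 k188 6 (.s k20 k215 8 (.d k60 k40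
  k105 5 14)))))), (.s k65 k130 8 (.s k105 k125 5 (.s k169 k253 13 (.s k41 k233 7 (.s k61 k21 5 (.d
  k193 k129 k149 7 13)))))), (.s k3 k2 0 (.s k65 k130 8 (.s k67 k131 7 (.s k66 k64 0 (.d k129 k193
  k192 7 8)))))] (.c k150 (.l (.s k3 k2 0 (.s k67 k131 7 (.s k169 k253 13 (.s k86 k252 14 (.s k105
  k124 6 (.d k65 k125 k130 5 8))))))) .n))

def s63_170_70 : T TT 256 :=
  (.q k1 [(.s k65 k130 8 (.s k105 k125 5 (.s k169 k253 13 (.s k41 k233 7 (.s k61 k21 5 (.d k193 k129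
  k149 7 13)))))), (.s k3 k2 0 (.s k131 k67 7 (.s k169 k253 13 (.s k150 k188 6 (.s k20 k215 8 (.d
  k60 k40 k105 5 14)))))), (.s k3 k2 0 (.s k65 k130 8 (.s k67 k131 7 (.s k66 k64 0 (.d k129 k193
  k192 7 8)))))] (.c k150 (.l (.s k3 k2 0 (.s k67 k131 7 (.s k169 k253 13 (.s k86 k252 14 (.s k105
  k124 6 (.d k65 k125 k130 5 8))))))) .n))

def s63_170_71 : T TT 256 :=
  (.q k1 [(.s k3 k2 0 (.s k65 k130 8 (.s k67 k131 7 (.s k66 k64 0 (.d k129 k193 k192 7 8))))), (.s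
  k65 k130 8 (.s k105 k125 5 (.s k169 k253 13 (.s k41 k233 7 (.s k61 k21 5 (.d k193 k129 k149 7
  13)))))), (.s k3 k2 0 (.s k131 k67 7 (.s k169 k253 13 (.s k150 k188 6 (.s k20 k215 8 (.d k60 k40
  k105 5 14))))))] (.c k150 (.l (.s k3 k2 0 (.s k67 k131 7 (.s k169 k253 13 (.s k86 k252 14 (.s k105
  k124 6 (.d k65 k125 k130 5 8))))))) .n))

def s63_170_72 : T TT 256 :=
  (.q k1 [(.s k3 k2 0 (.s k131 k67 7 (.s k169 k253 13 (.s k150 k188 6 (.s k20 k215 8 (.d k60 k40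
  k105 5 14)))))), (.s k65 k130 8 (.s k105 k125 5 (.s k169 k253 13 (.s k41 k233 7 (.s k61 k21 5 (.d
  k193 k129 k149 7 13)))))), (.s k3 k2 0 (.s k65 k130 8 (.s k67 k131 7 (.s k66 k64 0 (.d k129 k193
  k192 7 8)))))] (.c k150 (.l (.s k3 k2 0 (.s k67 k131 7 (.s k169 k253 13 (.s k86 k252 14 (.s k105
  k124 6 (.d k65 k125 k130 5 8))))))) .n))

def s63_170_73 : T TT 256 :=
  (.q k1 [(.s k3 k2 0 (.s k65 k130 8 (.s k67 k131 7 (.s k66 k64 0 (.d k129 k193 k192 7 8))))), (.s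
  k65 k130 8 (.s k105 k125 5 (.s k169 k253 13 (.s k41 k233 7 (.s k61 k21 5 (.d k193 k129 k149 7
  13)))))), (.s k3 k2 0 (.s k131 k67 7 (.s k169 k253 13 (.s k150 k188 6 (.s k20 k215 8 (.d k60 k40
  k105 5 14))))))] (.c k150 (.l (.s k3 k2 0 (.s k67 k131 7 (.s k169 k253 13 (.s k86 k252 14 (.s k105
  k124 6 (.d k65 k125 k130 5 8))))))) .n))

def s63_170_74 : T TT 256 :=
  (.q k1 [(.s k3 k2 0 (.s k131 k67 7 (.s k169 k253 13 (.s k150 k188 6 (.s k20 k215 8 (.d k60 k40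
  k105 5 14)))))), (.s k65 k130 8 (.s k105 k125 5 (.s k169 k253 13 (.s k41 k233 7 (.s k61 k21 5 (.d
  k193 k129 k149 7 13)))))), (.s k3 k2 0 (.s k65 k130 8 (.s k67 k131 7 (.s k66 k64 0 (.d k129 k193
  k192 7 8)))))] (.c k150 (.l (.s k3 k2 0 (.s k67 k131 7 (.s k169 k253 13 (.s k86 k252 14 (.s k105
  k124 6 (.d k65 k125 k130 5 8))))))) .n))

def s63_170_75 : T TT 256 :=
  (.q k1 [(.s k3 k2 0 (.s k65 k130 8 (.s k67 k131 7 (.s k66 k64 0 (.d k129 k193 k192 7 8))))), (.s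
  k65 k130 8 (.s k105 k125 5 (.s k169 k253 13 (.s k41 k233 7 (.s k61 k21 5 (.d k193 k129 k149 7
  13)))))), (.s k3 k2 0 (.s k131 k67 7 (.s k169 k253 13 (.s k150 k188 6 (.s k20 k215 8 (.d k60 k40
  k105 5 14))))))] (.c k150 (.l (.s k3 k2 0 (.s k67 k131 7 (.s k169 k253 13 (.s k86 k252 14 (.s k105
  k124 6 (.d k65 k125 k130 5 8))))))) .n))

def s63_170_76 : T TT 256 :=
  (.q k1 [(.s k65 k130 8 (.s k105 k125 5 (.s k169 k253 13 (.s k41 k233 7 (.s k61 k21 5 (.d k193 k129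
  k149 7 13)))))), (.s k3 k2 0 (.s k131 k67 7 (.s k169 k253 13 (.s k150 k188 6 (.s k20 k215 8 (.d
  k60 k40 k105 5 14)))))), (.s k3 k2 0 (.s k65 k130 8 (.s k67 k131 7 (.s k66 k64 0 (.d k129 k193
  k192 7 8)))))] (.c k150 (.l (.s k3 k2 0 (.s k67 k131 7 (.s k169 k253 13 (.s k86 k252 14 (.s k105
  k124 6 (.d k65 k125 k130 5 8))))))) .n))

def s63_170_77 : T TT 256 :=
  (.q k1 [(.s k3 k2 0 (.s k131 k67 7 (.s k169 k253 13 (.s k150 k188 6 (.s k20 k215 8 (.d k60 k40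
  k105 5 14)))))), (.s k65 k130 8 (.s k105 k125 5 (.s k169 k253 13 (.s k41 k233 7 (.s k61 k21 5 (.d
  k193 k129 k149 7 13)))))), (.s k3 k2 0 (.s k65 k130 8 (.s k67 k131 7 (.s k66 k64 0 (.d k129 k193
  k192 7 8)))))] (.c k150 (.l (.s k3 k2 0 (.s k67 k131 7 (.s k169 k253 13 (.s k86 k252 14 (.s k105
  k124 6 (.d k65 k125 k130 5 8))))))) .n))

def s63_170_78 : T TT 256 :=
  (.q k1 [(.s k3 k2 0 (.s k131 k67 7 (.s k169 k253 13 (.s k150 k188 6 (.s k20 k215 8 (.d k60 k40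
  k105 5 14)))))), (.s k65 k130 8 (.s k105 k125 5 (.s k169 k253 13 (.s k41 k233 7 (.s k61 k21 5 (.d
  k193 k129 k149 7 13)))))), (.s k3 k2 0 (.s k65 k130 8 (.s k67 k131 7 (.s k66 k64 0 (.d k129 k193
  k192 7 8)))))] (.c k150 (.l (.s k3 k2 0 (.s k67 k131 7 (.s k169 k253 13 (.s k86 k252 14 (.s k105
  k124 6 (.d k65 k125 k130 5 8))))))) .n))

def s63_170_79 : T TT 256 :=
  (.q k1 [(.s k65 k130 8 (.s k105 k125 5 (.s k169 k253 13 (.s k41 k233 7 (.s k61 k21 5 (.d k193 k129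
  k149 7 13)))))), (.s k3 k2 0 (.s k131 k67 7 (.s k169 k253 13 (.s k150 k188 6 (.s k20 k215 8 (.d
  k60 k40 k105 5 14)))))), (.s k3 k2 0 (.s k65 k130 8 (.s k67 k131 7 (.s k66 k64 0 (.d k129 k193
  k192 7 8)))))] (.c k150 (.l (.s k3 k2 0 (.s k67 k131 7 (.s k169 k253 13 (.s k86 k252 14 (.s k105
  k124 6 (.d k65 k125 k130 5 8))))))) .n))

def s63_170_80 : T TT 256 :=
  (.q k1 [(.s k3 k2 0 (.s k131 k67 7 (.s k169 k253 13 (.s k150 k188 6 (.s k20 k215 8 (.d k60 k40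
  k105 5 14)))))), (.s k65 k130 8 (.s k105 k125 5 (.s k169 k253 13 (.s k41 k233 7 (.s k61 k21 5 (.d
  k193 k129 k149 7 13)))))), (.s k3 k2 0 (.s k65 k130 8 (.s k67 k131 7 (.s k66 k64 0 (.d k129 k193
  k192 7 8)))))] (.c k150 (.l (.s k3 k2 0 (.s k67 k131 7 (.s k169 k253 13 (.s k86 k252 14 (.s k105
  k124 6 (.d k65 k125 k130 5 8))))))) .n))

def s63_170_81 : T TT 256 :=
  (.q k1 [(.s k3 k2 0 (.s k131 k67 7 (.s k169 k253 13 (.s k150 k188 6 (.s k20 k215 8 (.d k60 k40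
  k105 5 14)))))), (.s k65 k130 8 (.s k105 k125 5 (.s k169 k253 13 (.s k41 k233 7 (.s k61 k21 5 (.d
  k193 k129 k149 7 13)))))), (.s k3 k2 0 (.s k65 k130 8 (.s k67 k131 7 (.s k66 k64 0 (.d k129 k193
  k192 7 8)))))] (.c k150 (.l (.s k3 k2 0 (.s k67 k131 7 (.s k169 k253 13 (.s k86 k252 14 (.s k105
  k124 6 (.d k65 k125 k130 5 8))))))) .n))

def s63_170_82 : T TT 256 :=
  (.q k1 [(.s k65 k130 8 (.s k105 k125 5 (.s k169 k253 13 (.s k41 k233 7 (.s k61 k21 5 (.d k193 k129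
  k149 7 13)))))), (.s k3 k2 0 (.s k131 k67 7 (.s k169 k253 13 (.s k150 k188 6 (.s k20 k215 8 (.d
  k60 k40 k105 5 14)))))), (.s k3 k2 0 (.s k65 k130 8 (.s k67 k131 7 (.s k66 k64 0 (.d k129 k193
  k192 7 8)))))] (.c k150 (.l (.s k3 k2 0 (.s k67 k131 7 (.s k169 k253 13 (.s k86 k252 14 (.s k105
  k124 6 (.d k65 k125 k130 5 8))))))) .n))

def s63_170_83 : T TT 256 :=
  (.q k1 [(.s k3 k2 0 (.s k65 k130 8 (.s k67 k131 7 (.s k66 k64 0 (.d k129 k193 k192 7 8))))), (.s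
  k65 k130 8 (.s k105 k125 5 (.s k169 k253 13 (.s k41 k233 7 (.s k61 k21 5 (.d k193 k129 k149 7
  13)))))), (.s k3 k2 0 (.s k131 k67 7 (.s k169 k253 13 (.s k150 k188 6 (.s k20 k215 8 (.d k60 k40
  k105 5 14))))))] (.c k150 (.l (.s k3 k2 0 (.s k67 k131 7 (.s k169 k253 13 (.s k86 k252 14 (.s k105
  k124 6 (.d k65 k125 k130 5 8))))))) .n))

def s63_170_84 : T TT 256 :=
  (.q k1 [(.s k3 k2 0 (.s k131 k67 7 (.s k169 k253 13 (.s k150 k188 6 (.s k20 k215 8 (.d k60 k40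
  k105 5 14)))))), (.s k65 k130 8 (.s k105 k125 5 (.s k169 k253 13 (.s k41 k233 7 (.s k61 k21 5 (.d
  k193 k129 k149 7 13)))))), (.s k3 k2 0 (.s k65 k130 8 (.s k67 k131 7 (.s k66 k64 0 (.d k129 k193
  k192 7 8)))))] (.c k150 (.l (.s k3 k2 0 (.s k67 k131 7 (.s k169 k253 13 (.s k86 k252 14 (.s k105
  k124 6 (.d k65 k125 k130 5 8))))))) .n))

def s63_170_86 : T TT 256 :=
  (.q k207 [(.s k130 k65 8 (.s k138 k69 10 (.s k134 k142 1 (.s k73 k12 10 (.d k203 k199 k8 1 8))))),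
  (.s k65 k130 8 (.s k105 k125 5 (.s k203 k199 1 (.s k154 k56 12 (.s k16 k223 10 (.d k48 k32 k101 3
  14)))))), (.s k65 k130 8 (.s k69 k138 10 (.s k101 k117 3 (.s k105 k125 5 (.s k97 k109 1 (.d k48
  k154 k146 14 12)))))), (.s k69 k138 10 (.s k101 k117 3 (.s k199 k203 1 (.s k150 k52 12 (.s k20
  k215 8 (.d k60 k40 k105 5 14))))))] (.c k2 (.q k254 [(.s k130 k65 8 (.s k138 k69 10 (.s k134 k142
  1 (.s k73 k12 10 (.d k203 k199 k8 1 8))))), (.s k65 k130 8 (.s k105 k125 5 (.s k203 k199 1 (.s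
  k154 k56 12 (.s k16 k223 10 (.d k48 k32 k101 3 14)))))), (.s k65 k130 8 (.s k69 k138 10 (.s k101
  k117 3 (.s k105 k125 5 (.s k97 k109 1 (.d k48 k154 k146 14 12)))))), (.s k69 k138 10 (.s k101 k117
  3 (.s k199 k203 1 (.s k150 k52 12 (.s k20 k215 8 (.d k60 k40 k105 5 14))))))] .n) (.c k254 (.q k2
  [(.s k3 k1 0 (.s k130 k65 8 (.s k66 k194 7 (.s k129 k192 8 (.d k131 k128 k67 0 7))))), (.s k65
  k130 8 (.s k69 k138 10 (.s k73 k77 1 (.s k134 k12 10 (.d k199 k203 k4 1 8))))), (.s k3 k1 0 (.s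
  k138 k69 10 (.s k70 k206 9 (.s k137 k204 10 (.d k139 k136 k71 0 9)))))] .n) .n)))

def s63_170_87 : T TT 256 :=
  (.q k1 [(.s k3 k2 0 (.s k65 k130 8 (.s k67 k131 7 (.s k66 k64 0 (.d k129 k193 k192 7 8))))), (.s
  k65 k130 8 (.s k105 k125 5 (.s k169 k253 13 (.s k41 k233 7 (.s k61 k21 5 (.d k193 k129 k149 7
  13)))))), (.s k3 k2 0 (.s k131 k67 7 (.s k169 k253 13 (.s k150 k188 6 (.s k20 k215 8 (.d k60 k40
  k105 5 14))))))] (.c k150 (.l (.s k3 k2 0 (.s k67 k131 7 (.s k169 k253 13 (.s k86 k252 14 (.s k105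
  k124 6 (.d k65 k125 k130 5 8))))))) .n))

def s63_170_88 : T TT 256 :=
  (.q k1 [(.s k3 k2 0 (.s k131 k67 7 (.s k169 k253 13 (.s k150 k188 6 (.s k20 k215 8 (.d k60 k40
  k105 5 14)))))), (.s k65 k130 8 (.s k105 k125 5 (.s k169 k253 13 (.s k41 k233 7 (.s k61 k21 5 (.d
  k193 k129 k149 7 13)))))), (.s k3 k2 0 (.s k65 k130 8 (.s k67 k131 7 (.s k66 k64 0 (.d k129 k193
  k192 7 8)))))] (.c k150 (.l (.s k3 k2 0 (.s k67 k131 7 (.s k169 k253 13 (.s k86 k252 14 (.s k105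
  k124 6 (.d k65 k125 k130 5 8))))))) .n))

def s63_170_89 : T TT 256 :=
  (.q k97 [(.s k130 k65 8 (.s k146 k48 12 (.s k162 k178 3 (.s k243 k81 12 (.d k227 k211 k32 3
  8))))), (.s k65 k130 8 (.s k105 k125 5 (.s k101 k109 1 (.s k69 k117 3 (.s k150 k60 14 (.s k207
  k138 10 (.d k199 k203 k52 1 12))))))), (.s k48 k146 12 (.s k16 k32 3 (.s k154 k223 10 (.s k101
  k207 14 (.s k105 k109 1 (.s k56 k203 12 (.d k60 k52 k150 1 14)))))))] (.c k8 (.q k251 [(.s k130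
  k65 8 (.s k146 k48 12 (.s k162 k178 3 (.s k243 k81 12 (.d k227 k211 k32 3 8))))), (.s k48 k146 12
  (.s k16 k32 3 (.s k154 k223 10 (.s k101 k207 14 (.s k105 k109 1 (.s k56 k203 12 (.d k60 k52 k150 1
  14))))))), (.s k65 k130 8 (.s k81 k113 3 (.s k105 k125 5 (.s k150 k60 14 (.s k215 k20 8 (.s k255
  k235 5 (.d k243 k247 k162 1 12)))))))] .n) (.c k251 (.q k8 [(.s k48 k146 12 (.s k32 k16 3 (.s k65
  k130 8 (.s k162 k227 8 (.d k81 k113 k243 3 12))))), (.s k12 k4 1 (.s k73 k134 10 (.s k138 k203 8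
  (.s k69 k207 10 (.d k65 k77 k130 1 8))))), (.s k12 k4 1 (.s k48 k146 12 (.s k16 k32 3 (.s k24 k36
  5 (.s k20 k28 1 (.d k40 k56 k60 3 5))))))] .n) .n)))

def s63_170_90 : T TT 256 :=
  (.q k199 [(.s k207 k203 1 (.s k69 k138 10 (.s k134 k4 8 (.s k73 k12 10 (.d k65 k77 k130 1 8))))),
  (.s k65 k130 8 (.s k105 k125 5 (.s k150 k60 14 (.s k101 k52 12 (.s k69 k117 3 (.d k207 k203 k138 1
  10)))))), (.s k65 k130 8 (.s k105 k125 5 (.s k150 k60 14 (.s k101 k52 12 (.s k69 k117 3 (.s k73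
  k77 1 (.d k134 k4 k12 8 10))))))), (.s k207 k203 1 (.s k69 k138 10 (.s k101 k117 3 (.s k150 k52 12
  (.s k20 k215 8 (.d k60 k40 k105 5 14))))))] (.c k10 (.q k250 [(.s k207 k203 1 (.s k69 k138 10 (.s
  k134 k4 8 (.s k73 k12 10 (.d k65 k77 k130 1 8))))), (.s k65 k130 8 (.s k105 k125 5 (.s k150 k60 14
  (.s k101 k52 12 (.s k69 k117 3 (.d k207 k203 k138 1 10)))))), (.s k65 k130 8 (.s k105 k125 5 (.s
  k150 k60 14 (.s k101 k52 12 (.s k69 k117 3 (.s k73 k77 1 (.d k134 k4 k12 8 10))))))), (.s k207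
  k203 1 (.s k69 k138 10 (.s k101 k117 3 (.s k150 k52 12 (.s k20 k215 8 (.d k60 k40 k105 5 14))))))]
  (.c k69 (.l (.s k65 k130 8 (.s k105 k125 5 (.s k150 k60 14 (.s k101 k52 12 (.s k97 k109 1 (.s k48
  k146 12 (.d k207 k203 k154 1 14)))))))) .n)) (.c k69 (.l (.s k65 k130 8 (.s k105 k125 5 (.s k150
  k60 14 (.s k101 k52 12 (.s k97 k109 1 (.s k48 k146 12 (.d k207 k203 k154 1 14)))))))) (.c k250 (.q
  k10 [(.s k207 k203 1 (.s k69 k138 10 (.s k134 k4 8 (.s k73 k12 10 (.d k65 k77 k130 1 8))))), (.s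
  k15 k5 2 (.s k135 k75 9 (.s k207 k203 1 (.s k143 k79 7 (.s k139 k131 1 (.d k71 k7 k3 7 9)))))),
  (.s k65 k130 8 (.s k105 k125 5 (.s k150 k60 14 (.s k101 k52 12 (.s k69 k117 3 (.s k73 k77 1 (.d
  k134 k4 k12 8 10)))))))] .n) .n))))

def s63_170_91 : T TT 256 :=
  (.q k1 [(.s k3 k2 0 (.s k131 k67 7 (.s k169 k253 13 (.s k150 k188 6 (.s k20 k215 8 (.d k60 k40
  k105 5 14)))))), (.s k65 k130 8 (.s k105 k125 5 (.s k169 k253 13 (.s k41 k233 7 (.s k61 k21 5 (.d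
  k193 k129 k149 7 13)))))), (.s k3 k2 0 (.s k65 k130 8 (.s k67 k131 7 (.s k66 k64 0 (.d k129 k193
  k192 7 8)))))] (.c k150 (.l (.s k3 k2 0 (.s k67 k131 7 (.s k169 k253 13 (.s k86 k252 14 (.s k105
  k124 6 (.d k65 k125 k130 5 8))))))) .n))

def s63_170_92 : T TT 256 :=
  (.q k1 [(.s k3 k2 0 (.s k131 k67 7 (.s k169 k253 13 (.s k150 k188 6 (.s k20 k215 8 (.d k60 k40
  k105 5 14)))))), (.s k65 k130 8 (.s k105 k125 5 (.s k169 k253 13 (.s k41 k233 7 (.s k61 k21 5 (.d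
  k193 k129 k149 7 13)))))), (.s k3 k2 0 (.s k65 k130 8 (.s k67 k131 7 (.s k66 k64 0 (.d k129 k193
  k192 7 8)))))] (.c k150 (.l (.s k3 k2 0 (.s k67 k131 7 (.s k169 k253 13 (.s k86 k252 14 (.s k105
  k124 6 (.d k65 k125 k130 5 8))))))) .n))

def s63_170_93 : T TT 256 :=
  (.q k1 [(.s k3 k2 0 (.s k65 k130 8 (.s k67 k131 7 (.s k66 k64 0 (.d k129 k193 k192 7 8))))), (.s
  k65 k130 8 (.s k105 k125 5 (.s k169 k253 13 (.s k41 k233 7 (.s k61 k21 5 (.d k193 k129 k149 7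
  13)))))), (.s k3 k2 0 (.s k131 k67 7 (.s k169 k253 13 (.s k150 k188 6 (.s k20 k215 8 (.d k60 k40
  k105 5 14))))))] (.c k150 (.l (.s k3 k2 0 (.s k67 k131 7 (.s k169 k253 13 (.s k86 k252 14 (.s k105
  k124 6 (.d k65 k125 k130 5 8))))))) .n))

def s63_170_94 : T TT 256 :=
  (.q k1 [(.s k3 k2 0 (.s k131 k67 7 (.s k169 k253 13 (.s k150 k188 6 (.s k20 k215 8 (.d k60 k40
  k105 5 14)))))), (.s k65 k130 8 (.s k105 k125 5 (.s k169 k253 13 (.s k41 k233 7 (.s k61 k21 5 (.d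
  k193 k129 k149 7 13)))))), (.s k3 k2 0 (.s k65 k130 8 (.s k67 k131 7 (.s k66 k64 0 (.d k129 k193
  k192 7 8)))))] (.c k150 (.l (.s k3 k2 0 (.s k67 k131 7 (.s k169 k253 13 (.s k86 k252 14 (.s k105
  k124 6 (.d k65 k125 k130 5 8))))))) .n))

def s63_170_95 : T TT 256 :=
  (.q k1 [(.s k3 k2 0 (.s k131 k67 7 (.s k169 k253 13 (.s k150 k188 6 (.s k20 k215 8 (.d k60 k40
  k105 5 14)))))), (.s k65 k130 8 (.s k105 k125 5 (.s k169 k253 13 (.s k41 k233 7 (.s k61 k21 5 (.d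
  k193 k129 k149 7 13)))))), (.s k3 k2 0 (.s k65 k130 8 (.s k67 k131 7 (.s k66 k64 0 (.d k129 k193
  k192 7 8)))))] (.c k150 (.l (.s k3 k2 0 (.s k67 k131 7 (.s k169 k253 13 (.s k86 k252 14 (.s k105
  k124 6 (.d k65 k125 k130 5 8))))))) .n))

def s63_170_96 : T TT 256 :=
  (.q k1 [(.s k3 k2 0 (.s k131 k67 7 (.s k169 k253 13 (.s k150 k188 6 (.s k20 k215 8 (.d k60 k40
  k105 5 14)))))), (.s k65 k130 8 (.s k105 k125 5 (.s k169 k253 13 (.s k41 k233 7 (.s k61 k21 5 (.d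
  k193 k129 k149 7 13)))))), (.s k3 k2 0 (.s k65 k130 8 (.s k67 k131 7 (.s k66 k64 0 (.d k129 k193
  k192 7 8)))))] (.c k150 (.l (.s k3 k2 0 (.s k67 k131 7 (.s k169 k253 13 (.s k86 k252 14 (.s k105
  k124 6 (.d k65 k125 k130 5 8))))))) .n))

def s63_170_97 : T TT 256 :=
  (.q k1 [(.s k3 k2 0 (.s k65 k130 8 (.s k67 k131 7 (.s k66 k64 0 (.d k129 k193 k192 7 8))))), (.s
  k65 k130 8 (.s k105 k125 5 (.s k169 k253 13 (.s k41 k233 7 (.s k61 k21 5 (.d k193 k129 k149 7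
  13)))))), (.s k3 k2 0 (.s k131 k67 7 (.s k169 k253 13 (.s k150 k188 6 (.s k20 k215 8 (.d k60 k40
  k105 5 14))))))] (.c k150 (.l (.s k3 k2 0 (.s k67 k131 7 (.s k169 k253 13 (.s k86 k252 14 (.s k105
  k124 6 (.d k65 k125 k130 5 8))))))) .n))

def s63_170_98 : T TT 256 :=
  (.q k1 [(.s k3 k2 0 (.s k131 k67 7 (.s k169 k253 13 (.s k150 k188 6 (.s k20 k215 8 (.d k60 k40
  k105 5 14)))))), (.s k65 k130 8 (.s k105 k125 5 (.s k169 k253 13 (.s k41 k233 7 (.s k61 k21 5 (.d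
  k193 k129 k149 7 13)))))), (.s k3 k2 0 (.s k65 k130 8 (.s k67 k131 7 (.s k66 k64 0 (.d k129 k193
  k192 7 8)))))] (.c k150 (.l (.s k3 k2 0 (.s k67 k131 7 (.s k169 k253 13 (.s k86 k252 14 (.s k105
  k124 6 (.d k65 k125 k130 5 8))))))) .n))

def s63_170_99 : T TT 256 :=
  (.q k1 [(.s k3 k2 0 (.s k65 k130 8 (.s k67 k131 7 (.s k66 k64 0 (.d k129 k193 k192 7 8))))), (.s
  k65 k130 8 (.s k105 k125 5 (.s k169 k253 13 (.s k41 k233 7 (.s k61 k21 5 (.d k193 k129 k149 7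
  13)))))), (.s k3 k2 0 (.s k131 k67 7 (.s k169 k253 13 (.s k150 k188 6 (.s k20 k215 8 (.d k60 k40
  k105 5 14))))))] (.c k150 (.l (.s k3 k2 0 (.s k67 k131 7 (.s k169 k253 13 (.s k86 k252 14 (.s k105
  k124 6 (.d k65 k125 k130 5 8))))))) .n))

def s63_170_100 : T TT 256 :=
  (.q k1 [(.s k3 k2 0 (.s k131 k67 7 (.s k169 k253 13 (.s k150 k188 6 (.s k20 k215 8 (.d k60 k40
  k105 5 14)))))), (.s k65 k130 8 (.s k105 k125 5 (.s k169 k253 13 (.s k41 k233 7 (.s k61 k21 5 (.d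
  k193 k129 k149 7 13)))))), (.s k3 k2 0 (.s k65 k130 8 (.s k67 k131 7 (.s k66 k64 0 (.d k129 k193
  k192 7 8)))))] (.c k150 (.l (.s k3 k2 0 (.s k67 k131 7 (.s k169 k253 13 (.s k86 k252 14 (.s k105
  k124 6 (.d k65 k125 k130 5 8))))))) .n))

def s63_170_101 : T TT 256 :=
  (.q k67 [(.s k3 k131 7 (.s k65 k130 8 (.s k66 k64 0 (.s k129 k192 8 (.d k1 k2 k193 0 7))))), (.s
  k3 k131 7 (.s k1 k2 0 (.s k169 k253 13 (.s k86 k252 14 (.s k105 k124 6 (.s k41 k233 7 (.d k60 k22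
  k150 6 14))))))), (.s k65 k130 8 (.s k64 k66 0 (.s k105 k125 5 (.s k86 k124 6 (.s k87 k84 0 (.d
  k127 k107 k106 5 6))))))] (.c k2 (.l (.s k3 k131 7 (.s k65 k130 8 (.s k105 k125 5 (.s k86 k124 6
  (.s k84 k87 0 (.d k252 k168 k169 13 14))))))) (.c k32 (.q k239 [(.s k3 k131 7 (.s k65 k130 8 (.s
  k66 k64 0 (.s k129 k192 8 (.d k1 k2 k193 0 7))))), (.s k3 k131 7 (.s k1 k2 0 (.s k169 k253 13 (.s
  k86 k252 14 (.s k105 k124 6 (.s k41 k233 7 (.d k60 k22 k150 6 14))))))), (.s k65 k130 8 (.s k64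
  k66 0 (.s k105 k125 5 (.s k86 k124 6 (.s k87 k84 0 (.d k127 k107 k106 5 6))))))] (.c k2 (.l (.s k3
  k131 7 (.s k65 k130 8 (.s k105 k125 5 (.s k86 k124 6 (.s k84 k87 0 (.d k252 k168 k169 13 14)))))))
  (.c k150 (.l (.s k3 k131 7 (.s k1 k2 0 (.s k169 k253 13 (.s k86 k252 14 (.s k105 k124 6 (.d k65
  k125 k130 5 8))))))) .n))) (.c k150 (.l (.s k3 k131 7 (.s k1 k2 0 (.s k169 k253 13 (.s k86 k252 14
  (.s k105 k124 6 (.d k65 k125 k130 5 8))))))) (.c k239 (.q k32 [(.s k3 k131 7 (.s k65 k130 8 (.s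
  k66 k64 0 (.s k129 k192 8 (.d k1 k2 k193 0 7))))), (.s k48 k16 3 (.s k97 k146 12 (.s k162 k227 8
  (.s k81 k243 12 (.d k65 k113 k130 3 8))))), (.s k3 k131 7 (.s k1 k2 0 (.s k48 k16 3 (.s k33 k18 4
  (.s k17 k49 3 (.d k34 k35 k51 0 4))))))] .n) .n)))))

def s63_170_102 : T TT 256 :=
  (.q k169 [(.s k65 k130 8 (.s k105 k125 5 (.s k233 k41 7 (.s k252 k214 6 (.s k84 k168 13 (.d k86
  k87 k3 0 14)))))), (.s k1 k253 13 (.s k3 k2 0 (.s k131 k67 7 (.s k150 k188 6 (.s k20 k215 8 (.d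
  k60 k40 k105 5 14)))))), (.s k1 k253 13 (.s k65 k130 8 (.s k105 k125 5 (.s k41 k233 7 (.s k61 k21
  5 (.d k193 k129 k149 7 13))))))] (.c k34 (.q k238 [(.s k65 k130 8 (.s k105 k125 5 (.s k233 k41 7
  (.s k252 k214 6 (.s k84 k168 13 (.d k86 k87 k3 0 14)))))), (.s k1 k253 13 (.s k3 k2 0 (.s k131 k67
  7 (.s k150 k188 6 (.s k20 k215 8 (.d k60 k40 k105 5 14)))))), (.s k1 k253 13 (.s k65 k130 8 (.s
  k105 k125 5 (.s k41 k233 7 (.s k61 k21 5 (.d k193 k129 k149 7 13))))))] (.c k105 (.l (.s k1 k253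
  13 (.s k3 k2 0 (.s k65 k130 8 (.s k67 k131 7 (.s k66 k64 0 (.d k129 k193 k192 7 8))))))) (.c k150
  (.l (.s k1 k253 13 (.s k3 k2 0 (.s k67 k131 7 (.s k86 k252 14 (.s k105 k124 6 (.d k65 k125 k130 5
  8))))))) .n))) (.c k105 (.l (.s k1 k253 13 (.s k3 k2 0 (.s k65 k130 8 (.s k67 k131 7 (.s k66 k64 0
  (.d k129 k193 k192 7 8))))))) (.c k150 (.l (.s k1 k253 13 (.s k3 k2 0 (.s k67 k131 7 (.s k86 k252
  14 (.s k105 k124 6 (.d k65 k125 k130 5 8))))))) (.c k238 (.q k34 [(.s k65 k130 8 (.s k105 k125 5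
  (.s k233 k41 7 (.s k252 k214 6 (.s k84 k168 13 (.d k86 k87 k3 0 14)))))), (.s k1 k253 13 (.s k17
  k51 4 (.s k49 k33 3 (.s k153 k221 9 (.s k137 k185 3 (.d k205 k69 k101 9 13))))))] (.c k252 (.l (.s
  k1 k253 13 (.s k3 k2 0 (.s k17 k51 4 (.s k33 k49 3 (.s k32 k35 0 (.d k48 k16 k18 3 4))))))) .n))
  .n)))))

def s63_170_103 : T TT 256 :=
  (.q k1 [(.s k3 k2 0 (.s k131 k67 7 (.s k169 k253 13 (.s k150 k188 6 (.s k20 k215 8 (.d k60 k40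
  k105 5 14)))))), (.s k65 k130 8 (.s k105 k125 5 (.s k169 k253 13 (.s k41 k233 7 (.s k61 k21 5 (.d
  k193 k129 k149 7 13)))))), (.s k3 k2 0 (.s k65 k130 8 (.s k67 k131 7 (.s k66 k64 0 (.d k129 k193
  k192 7 8)))))] (.c k150 (.l (.s k3 k2 0 (.s k67 k131 7 (.s k169 k253 13 (.s k86 k252 14 (.s k105
  k124 6 (.d k65 k125 k130 5 8))))))) .n))

def s63_170_104 : T TT 256 :=
  (.q k1 [(.s k3 k2 0 (.s k131 k67 7 (.s k169 k253 13 (.s k150 k188 6 (.s k20 k215 8 (.d k60 k40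
  k105 5 14)))))), (.s k65 k130 8 (.s k105 k125 5 (.s k169 k253 13 (.s k41 k233 7 (.s k61 k21 5 (.d
  k193 k129 k149 7 13)))))), (.s k3 k2 0 (.s k65 k130 8 (.s k67 k131 7 (.s k66 k64 0 (.d k129 k193
  k192 7 8)))))] (.c k150 (.l (.s k3 k2 0 (.s k67 k131 7 (.s k169 k253 13 (.s k86 k252 14 (.s k105
  k124 6 (.d k65 k125 k130 5 8))))))) .n))

def s63_170_105 : T TT 256 :=
  (.q k69 [(.s k65 k130 8 (.s k73 k77 1 (.s k12 k134 10 (.s k8 k4 1 (.d k138 k203 k207 8 10))))),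
  (.s k101 k117 3 (.s k207 k138 10 (.s k199 k203 1 (.s k150 k52 12 (.s k215 k20 8 (.s k247 k231 3
  (.d k4 k134 k166 8 12))))))), (.s k130 k65 8 (.s k138 k207 10 (.s k134 k142 1 (.s k12 k73 10 (.d
  k4 k8 k199 1 8)))))] (.c k4 (.f k65 k130 8 (.l (.s k77 k73 1 (.s k101 k117 3 (.s k89 k113 5 (.s
  k81 k93 1 (.s k207 k138 10 (.s k243 k162 12 (.d k12 k142 k166 8 14))))))))) (.c k8 (.l (.s k65
  k130 8 (.s k73 k77 1 (.s k134 k12 10 (.s k199 k4 8 (.d k207 k203 k138 1 10)))))) (.c k40 (.q k235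
  [(.s k65 k130 8 (.s k73 k77 1 (.s k12 k134 10 (.s k8 k4 1 (.d k138 k203 k207 8 10))))), (.s k101
  k117 3 (.s k207 k138 10 (.s k154 k48 14 (.s k223 k16 10 (.d k255 k239 k215 3 5))))), (.s k101 k117
  3 (.s k215 k255 5 (.s k150 k20 8 (.s k199 k52 12 (.s k4 k134 8 (.d k247 k231 k166 3 12))))))] .n)
  (.c k73 (.f k101 k117 3 (.f k207 k138 10 (.f k203 k199 1 (.f k154 k48 14 (.l (.s k223 k16 10 (.s
  k255 k239 3 (.s k235 k215 5 (.s k219 k251 3 (.s k89 k24 8 (.s k81 k93 1 (.d k243 k231 k162 5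
  12)))))))))))) (.c k134 (.f k101 k117 3 (.l (.s k207 k138 10 (.s k154 k48 14 (.s k199 k203 1 (.s
  k150 k52 12 (.s k20 k215 8 (.s k158 k146 1 (.d k60 k40 k109 5 12))))))))) (.c k138 (.f k101 k117 3
  (.f k65 k130 8 (.f k77 k73 1 (.f k89 k113 5 (.l (.s k81 k93 1 (.s k243 k162 12 (.s k166 k12 14 (.s
  k4 k247 12 (.s k36 k231 8 (.s k52 k20 3 (.d k199 k134 k150 8 12)))))))))))) (.c k207 (.f k101 k117
  3 (.f k65 k130 8 (.f k73 k77 1 (.f k12 k134 10 (.l (.s k4 k8 1 (.s k166 k247 12 (.s k36 k231 8 (.s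
  k48 k24 5 (.s k32 k16 3 (.s k40 k44 1 (.d k20 k52 k60 3 5)))))))))))) (.c k235 (.q k40 [(.s k65
  k130 8 (.s k73 k77 1 (.s k12 k134 10 (.s k8 k4 1 (.d k138 k203 k207 8 10))))), (.s k20 k60 5 (.s
  k101 k117 3 (.s k150 k215 8 (.s k199 k52 12 (.d k207 k203 k138 1 10))))), (.s k20 k60 5 (.s k65
  k130 8 (.s k73 k77 1 (.s k101 k117 3 (.s k150 k215 8 (.s k199 k52 12 (.d k134 k4 k12 8 10)))))))]
  (.c k150 (.l (.s k130 k65 8 (.s k138 k207 10 (.s k134 k142 1 (.s k4 k199 8 (.d k12 k8 k73 1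
  10)))))) .n)) .n)))))))))

def s63_170_106 : T TT 256 :=
  (.q k1 [(.s k3 k2 0 (.s k131 k67 7 (.s k169 k253 13 (.s k150 k188 6 (.s k20 k215 8 (.d k60 k40
  k105 5 14)))))), (.s k65 k130 8 (.s k105 k125 5 (.s k169 k253 13 (.s k41 k233 7 (.s k61 k21 5 (.d
  k193 k149 k129 13 7)))))), (.s k3 k2 0 (.s k65 k130 8 (.s k67 k131 7 (.s k66 k64 0 (.d k129 k192
  k193 8 7)))))] (.c k42 (.q k234 [(.s k3 k2 0 (.s k131 k67 7 (.s k169 k253 13 (.s k150 k188 6 (.s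
  k20 k215 8 (.d k60 k40 k105 5 14)))))), (.s k65 k130 8 (.s k193 k129 7 (.s k253 k169 13 (.s k213
  k233 5 (.d k192 k194 k255 0 6))))), (.s k3 k2 0 (.s k65 k130 8 (.s k67 k131 7 (.s k66 k64 0 (.d
  k129 k192 k193 8 7)))))] (.c k131 (.l (.s k3 k2 0 (.s k65 k130 8 (.s k105 k125 5 (.s k169 k253 13
  (.s k41 k233 7 (.d k60 k22 k150 6 14))))))) (.c k149 (.q k192 [(.s k65 k130 8 (.d k193 k194 k129 0
  7)), (.s k193 k194 0 (.s k213 k255 6 (.d k253 k233 k169 5 13)))] (.c k128 (.q k191 [(.s k193 k194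
  0 (.d k65 k129 k130 7 8)), (.s k3 k2 0 (.s k131 k67 7 (.s k171 k151 5 (.d k255 k213 k87 6 13)))),
  (.s k2 k3 0 (.s k130 k65 8 (.d k194 k193 k66 0 7)))] .n) (.c k150 (.l (.s k2 k3 0 (.s k130 k65 8
  (.d k194 k193 k66 0 7)))) (.c k191 (.l (.s k128 k64 7 (.s k65 k130 8 (.d k193 k194 k129 0 7))))
  (.c k193 (.l (.s k3 k2 0 (.s k65 k130 8 (.s k66 k129 8 (.d k64 k128 k67 7 0))))) (.c k194 (.l (.s
  k65 k130 8 (.s k129 k193 7 (.d k3 k2 k66 0 8)))) .n)))))) (.c k150 (.l (.s k3 k2 0 (.s k67 k131 7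
  (.s k169 k253 13 (.s k86 k252 14 (.s k105 k124 6 (.d k65 k125 k130 5 8))))))) (.c k192 (.q k149
  [(.s k65 k130 8 (.s k105 k125 5 (.d k193 k129 k61 7 13))), (.s k3 k2 0 (.s k130 k65 8 (.s k131 k67
  7 (.s k129 k128 0 (.d k169 k189 k253 5 13))))), (.s k3 k2 0 (.s k21 k213 7 (.s k41 k61 5 (.s k169
  k253 13 (.s k233 k105 7 (.d k252 k86 k214 14 6))))))] .n) .n))))) (.c k149 (.q k192 [(.s k65 k130
  8 (.d k193 k194 k129 0 7)), (.s k3 k2 0 (.s k131 k67 7 (.s k169 k253 13 (.s k150 k188 6 (.s k20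
  k215 8 (.d k60 k40 k105 5 14))))))] (.c k42 (.q k234 [(.s k65 k130 8 (.d k193 k194 k129 0 7)), (.s
  k193 k194 0 (.s k213 k255 6 (.d k253 k233 k169 5 13)))] (.c k128 (.q k191 [(.s k193 k194 0 (.d k65
  k129 k130 7 8)), (.s k3 k2 0 (.s k131 k67 7 (.s k171 k151 5 (.d k255 k213 k87 6 13)))), (.s k2 k3
  0 (.s k130 k65 8 (.d k194 k193 k66 0 7)))] .n) (.c k150 (.l (.s k2 k3 0 (.s k130 k65 8 (.d k194
  k193 k66 0 7)))) (.c k191 (.l (.s k128 k64 7 (.s k65 k130 8 (.d k193 k194 k129 0 7)))) (.c k193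
  (.l (.s k3 k2 0 (.s k65 k130 8 (.s k66 k129 8 (.d k64 k128 k67 7 0))))) (.c k194 (.l (.s k65 k130
  8 (.s k129 k193 7 (.d k3 k2 k66 0 8)))) .n)))))) (.c k128 (.q k191 [(.s k193 k194 0 (.d k65 k129
  k130 7 8)), (.s k3 k2 0 (.s k131 k67 7 (.s k169 k253 13 (.s k86 k252 14 (.s k87 k84 0 (.d k171
  k255 k151 13 5))))))] (.c k42 (.q k234 [(.s k193 k194 0 (.d k65 k129 k130 7 8)), (.s k3 k2 0 (.s
  k131 k67 7 (.s k171 k151 5 (.d k255 k213 k87 6 13)))), (.s k2 k3 0 (.s k130 k65 8 (.d k194 k193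
  k66 0 7)))] .n) (.c k234 (.q k42 [(.s k65 k130 8 (.d k193 k129 k194 7 0)), (.s k3 k2 0 (.s k131
  k67 7 (.s k169 k253 13 (.s k86 k252 14 (.s k87 k84 0 (.d k171 k255 k151 13 5))))))] (.c k131 (.l
  (.s k193 k194 0 (.d k65 k129 k130 7 8))) .n)) .n))) (.c k150 (.l (.s k2 k3 0 (.s k130 k65 8 (.d
  k194 k193 k66 0 7)))) (.c k191 (.l (.s k128 k64 7 (.s k65 k130 8 (.d k193 k194 k129 0 7)))) (.c
  k234 (.q k42 [(.s k65 k130 8 (.d k193 k194 k129 0 7)), (.s k3 k2 0 (.s k131 k67 7 (.s k169 k253 13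
  (.s k150 k188 6 (.s k20 k215 8 (.d k60 k40 k105 5 14))))))] (.c k128 (.q k191 [(.s k65 k130 8 (.d
  k193 k129 k194 7 0)), (.s k3 k2 0 (.s k131 k67 7 (.s k169 k253 13 (.s k86 k252 14 (.s k87 k84 0
  (.d k171 k255 k151 13 5))))))] (.c k131 (.l (.s k193 k194 0 (.d k65 k129 k130 7 8))) .n)) (.c k150
  (.l (.s k2 k3 0 (.s k130 k65 8 (.d k194 k193 k66 0 7)))) (.c k191 (.l (.s k128 k64 7 (.s k65 k130
  8 (.d k193 k194 k129 0 7)))) .n)))) .n)))))) (.c k150 (.l (.s k3 k2 0 (.s k67 k131 7 (.s k169 k253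
  13 (.s k86 k252 14 (.s k105 k124 6 (.d k65 k125 k130 5 8))))))) (.c k192 (.q k149 [(.s k65 k130 8
  (.s k105 k125 5 (.d k193 k129 k61 7 13))), (.s k3 k2 0 (.s k21 k213 7 (.s k41 k61 5 (.s k60 k22 6
  (.s k20 k40 5 (.d k150 k105 k215 14 8)))))), (.s k3 k2 0 (.s k130 k65 8 (.s k131 k67 7 (.s k129
  k128 0 (.d k169 k189 k253 5 13)))))] (.c k42 (.q k234 [(.s k65 k130 8 (.s k105 k125 5 (.d k193
  k129 k61 7 13))), (.s k3 k2 0 (.s k130 k65 8 (.s k131 k67 7 (.s k129 k128 0 (.d k169 k189 k253 5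
  13))))), (.s k3 k2 0 (.s k21 k213 7 (.s k41 k61 5 (.s k169 k253 13 (.s k233 k105 7 (.d k252 k86
  k214 14 6))))))] .n) (.c k234 (.q k42 [(.s k65 k130 8 (.s k105 k125 5 (.d k193 k129 k61 7 13))),
  (.s k3 k2 0 (.s k131 k67 7 (.s k169 k253 13 (.s k150 k188 6 (.s k20 k215 8 (.d k60 k40 k105 5
  14)))))), (.s k169 k253 13 (.s k129 k189 5 (.d k65 k193 k130 7 8)))] (.c k213 (.q k255 [(.s k65
  k130 8 (.s k105 k125 5 (.d k193 k129 k61 7 13))), (.s k3 k2 0 (.s k87 k171 13 (.s k86 k84 0 (.d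
  k169 k253 k252 13 14))))] .n) (.c k255 (.l (.s k213 k21 7 (.s k65 k130 8 (.s k105 k125 5 (.d k193
  k129 k61 7 13))))) .n))) .n))) (.c k234 (.q k42 [(.s k3 k2 0 (.s k131 k67 7 (.s k169 k253 13 (.s
  k150 k188 6 (.s k20 k215 8 (.d k60 k40 k105 5 14)))))), (.s k65 k130 8 (.s k105 k125 5 (.s k169
  k253 13 (.s k41 k233 7 (.s k61 k21 5 (.d k193 k149 k129 13 7)))))), (.s k3 k2 0 (.s k65 k130 8 (.s
  k67 k131 7 (.s k66 k64 0 (.d k129 k192 k193 8 7)))))] (.c k149 (.q k192 [(.s k65 k130 8 (.d k193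
  k194 k129 0 7)), (.s k3 k2 0 (.s k131 k67 7 (.s k169 k253 13 (.s k150 k188 6 (.s k20 k215 8 (.d
  k60 k40 k105 5 14))))))] (.c k128 (.q k191 [(.s k65 k130 8 (.d k193 k129 k194 7 0)), (.s k3 k2 0
  (.s k131 k67 7 (.s k169 k253 13 (.s k86 k252 14 (.s k87 k84 0 (.d k171 k255 k151 13 5))))))] (.c
  k131 (.l (.s k193 k194 0 (.d k65 k129 k130 7 8))) .n)) (.c k150 (.l (.s k2 k3 0 (.s k130 k65 8 (.d
  k194 k193 k66 0 7)))) (.c k191 (.l (.s k128 k64 7 (.s k65 k130 8 (.d k193 k194 k129 0 7)))) .n))))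
  (.c k150 (.l (.s k3 k2 0 (.s k67 k131 7 (.s k169 k253 13 (.s k86 k252 14 (.s k105 k124 6 (.d k65
  k125 k130 5 8))))))) (.c k192 (.q k149 [(.s k65 k130 8 (.s k105 k125 5 (.d k193 k129 k61 7 13))),
  (.s k3 k2 0 (.s k131 k67 7 (.s k169 k253 13 (.s k150 k188 6 (.s k20 k215 8 (.d k60 k40 k105 5
  14)))))), (.s k169 k253 13 (.s k129 k189 5 (.d k65 k193 k130 7 8)))] (.c k213 (.q k255 [(.s k65
  k130 8 (.s k105 k125 5 (.d k193 k129 k61 7 13))), (.s k3 k2 0 (.s k87 k171 13 (.s k86 k84 0 (.d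
  k169 k253 k252 13 14))))] .n) (.c k255 (.l (.s k213 k21 7 (.s k65 k130 8 (.s k105 k125 5 (.d k193
  k129 k61 7 13))))) .n))) .n)))) .n))))))

def s63_170_107 : T TT 256 :=
  (.q k1 [(.s k3 k2 0 (.s k65 k130 8 (.s k67 k131 7 (.s k66 k64 0 (.d k129 k193 k192 7 8))))), (.s
  k65 k130 8 (.s k105 k125 5 (.s k169 k253 13 (.s k41 k233 7 (.s k61 k21 5 (.d k193 k129 k149 7
  13)))))), (.s k3 k2 0 (.s k131 k67 7 (.s k169 k253 13 (.s k150 k188 6 (.s k20 k215 8 (.d k60 k40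
  k105 5 14))))))] (.c k150 (.l (.s k3 k2 0 (.s k67 k131 7 (.s k169 k253 13 (.s k86 k252 14 (.s k105
  k124 6 (.d k65 k125 k130 5 8))))))) .n))

def s63_170_108 : T TT 256 :=
  (.q k1 [(.s k3 k2 0 (.s k131 k67 7 (.s k169 k253 13 (.s k150 k188 6 (.s k20 k215 8 (.d k60 k40
  k105 5 14)))))), (.s k65 k130 8 (.s k105 k125 5 (.s k169 k253 13 (.s k41 k233 7 (.s k61 k21 5 (.d
  k193 k129 k149 7 13)))))), (.s k3 k2 0 (.s k65 k130 8 (.s k67 k131 7 (.s k66 k64 0 (.d k129 k193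
  k192 7 8)))))] (.c k150 (.l (.s k3 k2 0 (.s k67 k131 7 (.s k169 k253 13 (.s k86 k252 14 (.s k105
  k124 6 (.d k65 k125 k130 5 8))))))) .n))

def s63_170_109 : T TT 256 :=
  (.q k1 [(.s k3 k2 0 (.s k131 k67 7 (.s k169 k253 13 (.s k150 k188 6 (.s k20 k215 8 (.d k60 k40
  k105 5 14)))))), (.s k65 k130 8 (.s k105 k125 5 (.s k169 k253 13 (.s k41 k233 7 (.s k61 k21 5 (.d
  k193 k129 k149 7 13)))))), (.s k3 k2 0 (.s k65 k130 8 (.s k67 k131 7 (.s k66 k64 0 (.d k129 k193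
  k192 7 8)))))] (.c k150 (.l (.s k3 k2 0 (.s k67 k131 7 (.s k169 k253 13 (.s k86 k252 14 (.s k105
  k124 6 (.d k65 k125 k130 5 8))))))) .n))

def s63_170_110 : T TT 256 :=
  (.q k97 [(.s k130 k65 8 (.s k146 k48 12 (.s k162 k178 3 (.s k243 k81 12 (.d k227 k211 k32 3
  8))))), (.s k48 k146 12 (.s k16 k32 3 (.s k154 k223 10 (.s k101 k207 14 (.s k105 k109 1 (.s k56
  k203 12 (.d k60 k52 k150 1 14))))))), (.s k65 k130 8 (.s k105 k125 5 (.s k101 k109 1 (.s k69 k117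
  3 (.s k77 k73 1 (.d k113 k81 k89 3 5))))))] (.c k157 (.q k204 [(.s k130 k65 8 (.s k146 k48 12 (.s
  k162 k178 3 (.s k243 k81 12 (.d k227 k211 k32 3 8))))), (.s k65 k130 8 (.s k68 k136 9 (.s k102
  k119 4 (.s k105 k125 5 (.s k99 k108 2 (.d k51 k153 k147 14 11)))))), (.s k48 k146 12 (.s k16 k32 3
  (.s k136 k68 9 (.s k152 k100 13 (.s k84 k220 9 (.d k168 k184 k252 3 13))))))] .n) (.c k204 (.q
  k157 [(.s k48 k146 12 (.s k32 k16 3 (.s k65 k130 8 (.s k81 k113 3 (.d k162 k227 k243 8 12))))),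
  (.s k48 k146 12 (.s k16 k32 3 (.s k154 k223 10 (.s k101 k207 14 (.s k105 k109 1 (.s k56 k203 12
  (.d k60 k52 k150 1 14))))))), (.s k65 k130 8 (.s k105 k125 5 (.s k101 k109 1 (.s k69 k117 3 (.s
  k77 k73 1 (.d k113 k81 k89 3 5))))))] (.c k150 (.l (.s k48 k146 12 (.s k32 k16 3 (.s k162 k227 8
  (.s k81 k243 12 (.d k65 k113 k130 3 8)))))) .n)) .n)))

def s63_170_111 : T TT 256 :=
  (.q k207 [(.s k130 k65 8 (.s k138 k69 10 (.s k134 k142 1 (.s k73 k12 10 (.d k203 k199 k8 1 8))))),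
  (.s k65 k130 8 (.s k105 k125 5 (.s k203 k199 1 (.s k154 k56 12 (.s k16 k223 10 (.d k48 k32 k101 3
  14)))))), (.s k65 k130 8 (.s k69 k138 10 (.s k101 k117 3 (.s k105 k125 5 (.s k97 k109 1 (.d k48
  k154 k146 14 12)))))), (.s k69 k138 10 (.s k101 k117 3 (.s k199 k203 1 (.s k150 k52 12 (.s k20
  k215 8 (.d k60 k40 k105 5 14))))))] .n)

def s63_170_112 : T TT 256 :=
  (.q k1 [(.s k65 k130 8 (.s k105 k125 5 (.s k169 k253 13 (.s k41 k233 7 (.s k61 k21 5 (.d k193 k129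
  k149 7 13)))))), (.s k3 k2 0 (.s k131 k67 7 (.s k169 k253 13 (.s k150 k188 6 (.s k20 k215 8 (.d
  k60 k40 k105 5 14)))))), (.s k3 k2 0 (.s k65 k130 8 (.s k67 k131 7 (.s k66 k64 0 (.d k129 k193
  k192 7 8)))))] (.c k150 (.l (.s k3 k2 0 (.s k67 k131 7 (.s k169 k253 13 (.s k86 k252 14 (.s k105
  k124 6 (.d k65 k125 k130 5 8))))))) .n))

def s63_170_113 : T TT 256 :=
  (.q k1 [(.s k3 k2 0 (.s k131 k67 7 (.s k169 k253 13 (.s k150 k188 6 (.s k20 k215 8 (.d k60 k40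
  k105 5 14)))))), (.s k65 k130 8 (.s k105 k125 5 (.s k169 k253 13 (.s k41 k233 7 (.s k61 k21 5 (.d
  k193 k129 k149 7 13)))))), (.s k3 k2 0 (.s k65 k130 8 (.s k67 k131 7 (.s k66 k64 0 (.d k129 k193
  k192 7 8)))))] (.c k150 (.l (.s k3 k2 0 (.s k67 k131 7 (.s k169 k253 13 (.s k86 k252 14 (.s k105
  k124 6 (.d k65 k125 k130 5 8))))))) .n))

def s63_170_114 : T TT 256 :=
  (.q k1 [(.s k3 k2 0 (.s k131 k67 7 (.s k169 k253 13 (.s k150 k188 6 (.s k20 k215 8 (.d k60 k40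
  k105 5 14)))))), (.s k65 k130 8 (.s k105 k125 5 (.s k169 k253 13 (.s k41 k233 7 (.s k61 k21 5 (.d
  k193 k129 k149 7 13)))))), (.s k3 k2 0 (.s k65 k130 8 (.s k67 k131 7 (.s k66 k64 0 (.d k129 k193
  k192 7 8)))))] (.c k150 (.l (.s k3 k2 0 (.s k67 k131 7 (.s k169 k253 13 (.s k86 k252 14 (.s k105
  k124 6 (.d k65 k125 k130 5 8))))))) .n))

def s63_170_115 : T TT 256 :=
  (.q k1 [(.s k65 k130 8 (.s k105 k125 5 (.s k169 k253 13 (.s k41 k233 7 (.s k61 k21 5 (.d k193 k129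
  k149 7 13)))))), (.s k3 k2 0 (.s k131 k67 7 (.s k169 k253 13 (.s k150 k188 6 (.s k20 k215 8 (.d
  k60 k40 k105 5 14)))))), (.s k3 k2 0 (.s k65 k130 8 (.s k67 k131 7 (.s k66 k64 0 (.d k129 k193
  k192 7 8)))))] (.c k150 (.l (.s k3 k2 0 (.s k67 k131 7 (.s k169 k253 13 (.s k86 k252 14 (.s k105
  k124 6 (.d k65 k125 k130 5 8))))))) .n))

def s63_170_116 : T TT 256 :=
  (.q k1 [(.s k3 k2 0 (.s k131 k67 7 (.s k169 k253 13 (.s k150 k188 6 (.s k20 k215 8 (.d k60 k40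
  k105 5 14)))))), (.s k65 k130 8 (.s k105 k125 5 (.s k169 k253 13 (.s k41 k233 7 (.s k61 k21 5 (.d
  k193 k129 k149 7 13)))))), (.s k3 k2 0 (.s k65 k130 8 (.s k67 k131 7 (.s k66 k64 0 (.d k129 k193
  k192 7 8)))))] (.c k150 (.l (.s k3 k2 0 (.s k67 k131 7 (.s k169 k253 13 (.s k86 k252 14 (.s k105
  k124 6 (.d k65 k125 k130 5 8))))))) .n))

def s63_170_117 : T TT 256 :=
  (.q k1 [(.s k3 k2 0 (.s k65 k130 8 (.s k67 k131 7 (.s k66 k64 0 (.d k129 k193 k192 7 8))))), (.s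
  k65 k130 8 (.s k105 k125 5 (.s k169 k253 13 (.s k41 k233 7 (.s k61 k21 5 (.d k193 k129 k149 7
  13)))))), (.s k3 k2 0 (.s k131 k67 7 (.s k169 k253 13 (.s k150 k188 6 (.s k20 k215 8 (.d k60 k40
  k105 5 14))))))] (.c k150 (.l (.s k3 k2 0 (.s k67 k131 7 (.s k169 k253 13 (.s k86 k252 14 (.s k105
  k124 6 (.d k65 k125 k130 5 8))))))) .n))

def s63_170_118 : T TT 256 :=
  (.q k1 [(.s k3 k2 0 (.s k131 k67 7 (.s k169 k253 13 (.s k150 k188 6 (.s k20 k215 8 (.d k60 k40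
  k105 5 14)))))), (.s k65 k130 8 (.s k105 k125 5 (.s k169 k253 13 (.s k41 k233 7 (.s k61 k21 5 (.d
  k193 k129 k149 7 13)))))), (.s k3 k2 0 (.s k65 k130 8 (.s k67 k131 7 (.s k66 k64 0 (.d k129 k193
  k192 7 8)))))] (.c k150 (.l (.s k3 k2 0 (.s k67 k131 7 (.s k169 k253 13 (.s k86 k252 14 (.s k105
  k124 6 (.d k65 k125 k130 5 8))))))) .n))

def s63_170_119 : T TT 256 :=
  (.q k1 [(.s k3 k2 0 (.s k131 k67 7 (.s k169 k253 13 (.s k150 k188 6 (.s k20 k215 8 (.d k60 k40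
  k105 5 14)))))), (.s k65 k130 8 (.s k105 k125 5 (.s k169 k253 13 (.s k41 k233 7 (.s k61 k21 5 (.d
  k193 k129 k149 7 13)))))), (.s k3 k2 0 (.s k65 k130 8 (.s k67 k131 7 (.s k66 k64 0 (.d k129 k193
  k192 7 8)))))] (.c k150 (.l (.s k3 k2 0 (.s k67 k131 7 (.s k169 k253 13 (.s k86 k252 14 (.s k105
  k124 6 (.d k65 k125 k130 5 8))))))) .n))

def s63_170_120 : T TT 256 :=
  (.q k1 [(.s k3 k2 0 (.s k131 k67 7 (.s k169 k253 13 (.s k150 k188 6 (.s k20 k215 8 (.d k60 k40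
  k105 5 14)))))), (.s k65 k130 8 (.s k105 k125 5 (.s k169 k253 13 (.s k41 k233 7 (.s k61 k21 5 (.d
  k193 k129 k149 7 13)))))), (.s k3 k2 0 (.s k65 k130 8 (.s k67 k131 7 (.s k66 k64 0 (.d k129 k193
  k192 7 8)))))] (.c k150 (.l (.s k3 k2 0 (.s k67 k131 7 (.s k169 k253 13 (.s k86 k252 14 (.s k105
  k124 6 (.d k65 k125 k130 5 8))))))) .n))

def s63_170_121 : T TT 256 :=
  (.q k1 [(.s k3 k2 0 (.s k131 k67 7 (.s k169 k253 13 (.s k150 k188 6 (.s k20 k215 8 (.d k60 k40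
  k105 5 14)))))), (.s k65 k130 8 (.s k105 k125 5 (.s k169 k253 13 (.s k41 k233 7 (.s k61 k21 5 (.d
  k193 k129 k149 7 13)))))), (.s k3 k2 0 (.s k65 k130 8 (.s k67 k131 7 (.s k66 k64 0 (.d k129 k193
  k192 7 8)))))] (.c k150 (.l (.s k3 k2 0 (.s k67 k131 7 (.s k169 k253 13 (.s k86 k252 14 (.s k105
  k124 6 (.d k65 k125 k130 5 8))))))) .n))

def s63_170_122 : T TT 256 :=
  (.q k243 [(.s k130 k65 8 (.s k162 k81 12 (.s k146 k178 3 (.s k97 k48 12 (.d k227 k211 k32 3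
  8))))), (.s k65 k130 8 (.s k105 k125 5 (.s k227 k211 3 (.s k166 k44 10 (.s k4 k247 12 (.d k12 k8
  k89 1 14)))))), (.s k65 k130 8 (.s k81 k162 12 (.s k89 k93 1 (.s k105 k125 5 (.s k73 k121 3 (.d
  k12 k166 k134 14 10)))))), (.s k81 k162 12 (.s k89 k93 1 (.s k211 k227 3 (.s k150 k28 10 (.s k20
  k215 8 (.d k60 k40 k105 5 14))))))] (.c k181 (.q k240 [(.s k210 k225 4 (.s k211 k227 3 (.s k209
  k208 0 (.s k226 k192 4 (.d k242 k241 k194 0 3))))), (.s k65 k130 8 (.s k81 k162 12 (.s k97 k113 3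
  (.s k146 k48 12 (.d k211 k227 k16 3 8))))), (.s k80 k160 11 (.s k81 k162 12 (.s k82 k83 0 (.s k161
  k3 12 (.d k241 k242 k1 0 11)))))] .n) (.c k240 (.q k181 [(.s k65 k130 8 (.s k105 k125 5 (.s k227
  k211 3 (.s k166 k44 10 (.s k4 k247 12 (.d k12 k8 k89 1 14)))))), (.s k130 k65 8 (.s k162 k81 12
  (.s k146 k178 3 (.s k97 k48 12 (.d k227 k211 k32 3 8))))), (.s k65 k130 8 (.s k81 k162 12 (.s k89
  k93 1 (.s k105 k125 5 (.s k73 k121 3 (.d k12 k166 k134 14 10)))))), (.s k81 k162 12 (.s k89 k93 1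
  (.s k211 k227 3 (.s k150 k28 10 (.s k20 k215 8 (.d k60 k40 k105 5 14))))))] .n) .n)))

def s63_170_123 : T TT 256 :=
  (.q k243 [(.s k130 k65 8 (.s k162 k81 12 (.s k146 k178 3 (.s k97 k48 12 (.d k227 k211 k32 3
  8))))), (.s k65 k130 8 (.s k105 k125 5 (.s k227 k211 3 (.s k166 k44 10 (.s k4 k247 12 (.d k12 k8
  k89 1 14)))))), (.s k65 k130 8 (.s k81 k162 12 (.s k89 k93 1 (.s k105 k125 5 (.s k73 k121 3 (.d
  k12 k166 k134 14 10)))))), (.s k81 k162 12 (.s k89 k93 1 (.s k211 k227 3 (.s k150 k28 10 (.s k20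
  k215 8 (.d k60 k40 k105 5 14))))))] .n)

def s63_170_124 : T TT 256 :=
  (.q k12 [(.s k4 k8 1 (.s k130 k65 8 (.s k134 k73 10 (.s k69 k199 8 (.d k138 k142 k207 1 10))))),
  (.s k4 k8 1 (.s k65 k130 8 (.s k105 k125 5 (.s k166 k247 12 (.s k44 k227 10 (.d k60 k150 k28 14
  3)))))), (.s k65 k130 8 (.s k73 k134 10 (.s k105 k125 5 (.s k89 k121 3 (.s k81 k93 1 (.d k243 k162
  k166 12 14)))))), (.s k4 k8 1 (.s k134 k73 10 (.s k166 k247 12 (.s k150 k182 3 (.s k20 k215 8 (.d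
  k60 k40 k105 5 14))))))] (.c k89 (.l (.s k8 k4 1 (.s k65 k130 8 (.s k73 k134 10 (.s k69 k77 1 (.d
  k138 k203 k207 8 10)))))) .n))

def s63_170_125 : T TT 256 :=
  (.q k97 [(.s k130 k65 8 (.s k146 k48 12 (.s k162 k178 3 (.s k243 k81 12 (.d k227 k211 k32 3
  8))))), (.s k48 k146 12 (.s k16 k32 3 (.s k154 k223 10 (.s k101 k207 14 (.s k105 k109 1 (.s k56
  k203 12 (.d k60 k52 k150 1 14)))))))] (.c k32 (.l (.s k65 k130 8 (.s k81 k113 3 (.s k146 k48 12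
  (.s k211 k16 8 (.d k243 k227 k162 3 12)))))) (.c k48 (.f k65 k130 8 (.l (.s k81 k113 3 (.s k89 k93
  1 (.s k243 k162 12 (.s k211 k227 3 (.s k150 k28 10 (.s k20 k215 8 (.d k60 k40 k105 5 14)))))))))
  (.c k146 (.q k1 [(.s k3 k2 0 (.s k131 k67 7 (.s k169 k253 13 (.s k150 k188 6 (.s k20 k215 8 (.d
  k60 k40 k105 5 14)))))), (.s k65 k130 8 (.s k81 k113 3 (.s k161 k241 11 (.s k33 k225 7 (.s k49 k17
  3 (.d k193 k129 k145 7 11))))))] (.c k150 (.l (.s k3 k2 0 (.s k67 k131 7 (.s k82 k112 4 (.s k161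
  k240 12 (.s k81 k241 11 (.d k65 k113 k130 3 8))))))) .n)) .n))))

def s63_170_126 : T TT 256 :=
  (.q k243 [(.s k130 k65 8 (.s k162 k81 12 (.s k146 k178 3 (.s k97 k48 12 (.d k227 k211 k32 3
  8))))), (.s k65 k130 8 (.s k105 k125 5 (.s k227 k211 3 (.s k166 k44 10 (.s k4 k247 12 (.d k12 k8
  k89 1 14)))))), (.s k65 k130 8 (.s k81 k162 12 (.s k89 k93 1 (.s k105 k125 5 (.s k73 k121 3 (.d
  k12 k166 k134 14 10)))))), (.s k81 k162 12 (.s k89 k93 1 (.s k211 k227 3 (.s k150 k28 10 (.s k20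
  k215 8 (.d k60 k40 k105 5 14))))))] (.c k189 (.q k252 [(.s k130 k65 8 (.s k162 k81 12 (.s k146
  k178 3 (.s k97 k48 12 (.d k227 k211 k32 3 8))))), (.s k211 k227 3 (.s k214 k233 6 (.s k217 k220 2
  (.s k230 k204 6 (.d k246 k249 k198 2 3))))), (.s k65 k130 8 (.s k81 k162 12 (.s k89 k93 1 (.s k105
  k125 5 (.s k73 k121 3 (.d k12 k166 k134 14 10))))))] .n) (.c k252 (.q k189 [(.s k130 k65 8 (.s
  k227 k211 3 (.s k162 k81 12 (.s k97 k32 8 (.d k146 k178 k48 3 12))))), (.s k65 k130 8 (.s k105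
  k125 5 (.s k227 k211 3 (.s k166 k44 10 (.s k4 k247 12 (.d k12 k8 k89 1 14)))))), (.s k65 k130 8
  (.s k81 k162 12 (.s k89 k93 1 (.s k105 k125 5 (.s k73 k121 3 (.d k12 k166 k134 14 10)))))), (.s
  k81 k162 12 (.s k89 k93 1 (.s k211 k227 3 (.s k150 k28 10 (.s k20 k215 8 (.d k60 k40 k105 5
  14))))))] .n) .n)))

def s63_170_127 : T TT 256 :=
  (.q k89 [(.s k65 k130 8 (.s k81 k93 1 (.s k97 k113 3 (.s k48 k146 12 (.s k32 k16 3 (.d k162 k227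
  k243 8 12)))))), (.s k65 k130 8 (.s k105 k125 5 (.s k73 k121 3 (.s k12 k134 10 (.s k4 k8 1 (.d
  k166 k247 k243 12 14)))))), (.s k81 k93 1 (.s k243 k162 12 (.s k211 k227 3 (.s k150 k28 10 (.s k20
  k215 8 (.d k60 k40 k105 5 14))))))] (.c k150 (.l (.s k81 k93 1 (.s k130 k65 8 (.s k162 k243 12 (.s
  k146 k178 3 (.s k16 k211 8 (.d k48 k32 k97 3 12))))))) (.c k191 (.q k255 [(.s k65 k130 8 (.s k215
  k235 5 (.s k150 k20 8 (.d k105 k125 k60 5 14)))), (.s k81 k93 1 (.s k243 k162 12 (.s k166 k12 14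
  (.d k247 k251 k4 1 12))))] (.c k128 (.q k149 [(.s k65 k130 8 (.s k215 k235 5 (.s k150 k20 8 (.d
  k105 k125 k60 5 14)))), (.s k81 k93 1 (.s k243 k162 12 (.s k166 k12 14 (.d k247 k251 k4 1 12))))]
  .n) (.c k149 (.q k128 [(.s k65 k130 8 (.s k215 k235 5 (.s k150 k20 8 (.d k105 k125 k60 5 14)))),
  (.s k81 k93 1 (.s k243 k162 12 (.s k166 k12 14 (.d k247 k251 k4 1 12))))] (.c k106 (.l (.s k192
  k64 7 (.s k65 k130 8 (.s k105 k125 5 (.s k150 k60 14 (.d k215 k235 k20 5 8)))))) (.c k192 (.q k106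
  [(.s k65 k130 8 (.s k215 k235 5 (.s k150 k20 8 (.d k105 k125 k60 5 14)))), (.s k81 k93 1 (.s k243
  k162 12 (.s k166 k12 14 (.d k247 k251 k4 1 12))))] .n) .n))) .n))) (.c k243 (.l (.s k65 k130 8 (.s
  k81 k93 1 (.s k105 k125 5 (.s k73 k121 3 (.s k77 k69 1 (.d k113 k97 k101 3 5))))))) (.c k255 (.q
  k191 [(.s k65 k130 8 (.s k93 k81 1 (.s k125 k105 5 (.s k77 k109 3 (.s k69 k73 1 (.d k101 k117 k113
  3 5)))))), (.s k81 k93 1 (.s k243 k162 12 (.s k211 k227 3 (.s k150 k28 10 (.s k20 k215 8 (.d k60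
  k40 k105 5 14)))))), (.s k65 k130 8 (.s k105 k125 5 (.s k73 k121 3 (.s k12 k134 10 (.s k4 k8 1 (.d
  k166 k247 k243 12 14)))))), (.s k81 k93 1 (.s k130 k65 8 (.s k162 k243 12 (.s k146 k178 3 (.s k16
  k211 8 (.d k48 k32 k97 3 12))))))] .n) .n)))))

def s63_170_128 : T TT 256 :=
  (.q k3 [(.s k1 k2 0 (.s k65 k130 8 (.s k67 k131 7 (.s k129 k193 7 (.d k66 k64 k192 0 8))))), (.s
  k1 k2 0 (.s k131 k67 7 (.s k169 k253 13 (.s k150 k188 6 (.s k20 k215 8 (.d k60 k40 k105 5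
  14)))))), (.s k65 k130 8 (.s k105 k125 5 (.s k131 k67 7 (.s k150 k60 14 (.s k169 k188 6 (.s k233
  k41 7 (.d k252 k214 k86 6 14)))))))] (.c k67 (.l (.s k1 k2 0 (.s k65 k130 8 (.s k105 k125 5 (.s
  k169 k253 13 (.s k41 k233 7 (.d k60 k150 k22 14 6))))))) (.c k86 (.l (.s k65 k130 8 (.s k105 k125
  5 (.s k131 k67 7 (.s k150 k60 14 (.s k169 k188 6 (.d k1 k2 k253 0 13))))))) (.c k131 (.l (.s k1 k2
  0 (.s k65 k130 8 (.s k129 k193 7 (.s k105 k125 5 (.s k169 k253 13 (.s k233 k41 7 (.d k252 k86 k214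
  14 6)))))))) (.c k149 (.q k191 [(.s k1 k2 0 (.s k131 k67 7 (.s k169 k253 13 (.s k86 k252 14 (.s
  k87 k84 0 (.d k171 k255 k151 13 5)))))), (.s k1 k2 0 (.s k65 k130 8 (.s k67 k131 7 (.s k129 k193 7
  (.d k66 k192 k64 8 0))))), (.s k65 k130 8 (.s k105 k125 5 (.s k131 k67 7 (.s k150 k60 14 (.s k169
  k188 6 (.s k233 k41 7 (.d k252 k214 k86 6 14)))))))] (.c k67 (.l (.s k1 k2 0 (.s k65 k130 8 (.s
  k105 k125 5 (.s k169 k253 13 (.s k41 k233 7 (.d k60 k150 k22 14 6))))))) (.c k86 (.l (.s k65 k130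
  8 (.s k105 k125 5 (.s k131 k67 7 (.s k150 k60 14 (.s k169 k188 6 (.d k1 k2 k253 0 13))))))) (.c
  k106 (.q k192 [(.s k2 k1 0 (.s k66 k129 8 (.d k130 k65 k194 8 7))), (.s k1 k2 0 (.s k131 k67 7 (.s
  k169 k253 13 (.s k86 k252 14 (.s k87 k84 0 (.d k171 k255 k151 13 5)))))), (.s k1 k2 0 (.s k129 k66
  8 (.d k65 k130 k193 8 7)))] (.c k1 (.l (.s k65 k130 8 (.s k67 k131 7 (.s k129 k66 8 (.s k105 k125
  5 (.s k86 k124 6 (.s k84 k87 0 (.d k252 k168 k169 13 14)))))))) (.c k2 (.l (.s k65 k130 8 (.s k105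
  k125 5 (.s k131 k67 7 (.s k150 k60 14 (.s k169 k188 6 (.s k1 k253 13 (.d k129 k66 k193 8 7))))))))
  (.c k42 (.q k234 [(.s k131 k67 7 (.s k171 k151 5 (.d k255 k213 k87 6 13))), (.s k1 k2 0 (.s k129
  k66 8 (.d k65 k130 k193 8 7)))] .n) (.c k234 (.q k42 [(.s k2 k1 0 (.s k66 k129 8 (.d k130 k65 k194
  8 7))), (.s k2 k1 0 (.s k22 k62 5 (.s k60 k41 6 (.s k20 k40 5 (.d k150 k105 k215 14 8))))), (.s
  k65 k130 8 (.s k105 k125 5 (.s k131 k67 7 (.s k150 k60 14 (.s k169 k188 6 (.s k1 k253 13 (.d k129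
  k193 k66 7 8)))))))] (.c k1 (.l (.s k65 k130 8 (.s k67 k131 7 (.s k129 k66 8 (.s k105 k125 5 (.s
  k86 k124 6 (.s k84 k87 0 (.d k252 k168 k169 13 14)))))))) .n)) .n))))) (.c k131 (.l (.s k1 k2 0
  (.s k65 k130 8 (.s k129 k193 7 (.s k105 k125 5 (.s k169 k253 13 (.s k233 k41 7 (.d k252 k86 k214
  14 6)))))))) (.c k192 (.q k106 [(.s k64 k127 6 (.s k67 k131 7 (.d k65 k130 k66 8 0))), (.s k1 k2 0
  (.s k127 k64 6 (.s k169 k253 13 (.s k86 k252 14 (.s k87 k84 0 (.d k67 k107 k131 5 7)))))), (.s k2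
  k1 0 (.s k130 k65 8 (.s k66 k194 7 (.s k86 k126 5 (.s k84 k87 0 (.d k252 k168 k169 13 14))))))]
  .n) .n)))))) (.c k150 (.l (.s k1 k2 0 (.s k67 k131 7 (.s k169 k253 13 (.s k86 k252 14 (.s k105
  k124 6 (.d k65 k130 k125 8 5))))))) (.c k191 (.q k149 [(.s k1 k2 0 (.s k21 k213 7 (.s k61 k41 5
  (.s k105 k193 13 (.d k65 k125 k130 5 8))))), (.s k65 k130 8 (.s k105 k125 5 (.s k131 k67 7 (.s
  k150 k60 14 (.s k169 k188 6 (.s k233 k41 7 (.d k252 k214 k86 6 14))))))), (.s k1 k2 0 (.s k65 k130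
  8 (.s k129 k193 7 (.d k169 k189 k253 5 13)))), (.s k1 k2 0 (.s k21 k213 7 (.s k41 k61 5 (.s k60
  k22 6 (.s k20 k40 5 (.d k150 k105 k215 14 8))))))] (.c k86 (.l (.s k65 k130 8 (.s k105 k125 5 (.s
  k193 k61 13 (.d k1 k129 k2 7 0))))) (.c k127 (.q k255 [(.s k1 k2 0 (.s k87 k171 13 (.s k86 k84 0
  (.d k169 k253 k252 13 14)))), (.s k65 k130 8 (.s k105 k125 5 (.s k150 k60 14 (.d k215 k235 k20 5
  8))))] (.c k131 (.l (.s k1 k2 0 (.s k65 k130 8 (.s k129 k193 7 (.d k169 k189 k253 5 13))))) .n))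
  (.c k255 (.q k127 [(.s k64 k106 6 (.s k65 k130 8 (.d k67 k131 k66 7 0))), (.s k1 k2 0 (.s k21 k213
  7 (.s k61 k41 5 (.s k105 k193 13 (.d k65 k125 k130 5 8))))), (.s k1 k2 0 (.s k67 k131 7 (.s k87
  k107 5 (.s k86 k84 0 (.d k169 k253 k252 13 14)))))] (.c k130 (.l (.s k1 k2 0 (.s k169 k253 13 (.s
  k129 k189 5 (.s k193 k65 7 (.d k192 k194 k66 0 8)))))) .n)) .n)))) .n)))))))

def s63_170_129 : T TT 256 :=
  (.q k12 [(.s k4 k8 1 (.s k134 k73 10 (.s k69 k199 8 (.s k138 k207 10 (.d k130 k142 k65 1 8))))),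
  (.s k4 k8 1 (.s k65 k130 8 (.s k105 k125 5 (.s k166 k247 12 (.s k44 k227 10 (.d k60 k150 k28 14
  3)))))), (.s k65 k130 8 (.s k73 k134 10 (.s k105 k125 5 (.s k89 k121 3 (.s k81 k93 1 (.d k243 k162
  k166 12 14)))))), (.s k4 k8 1 (.s k134 k73 10 (.s k166 k247 12 (.s k150 k182 3 (.s k20 k215 8 (.d
  k60 k40 k105 5 14))))))] (.c k89 (.l (.s k8 k4 1 (.s k65 k130 8 (.s k73 k134 10 (.s k69 k77 1 (.d
  k138 k203 k207 8 10)))))) .n))

def s63_170_130 : T TT 256 :=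
  (.q k150 [(.s k20 k215 8 (.d k60 k40 k105 5 14))] (.c k20 (.q k1 [(.s k169 k253 13 (.s k131 k188 6
  (.d k3 k2 k67 0 7))), (.s k105 k60 14 (.s k65 k125 5 (.s k169 k253 13 (.s k41 k233 7 (.s k61 k21 5
  (.d k193 k129 k149 7 13)))))), (.s k3 k2 0 (.s k67 k131 7 (.s k105 k60 14 (.s k65 k125 5 (.s k66
  k64 0 (.d k129 k193 k192 7 8))))))] .n) (.c k40 (.q k89 [(.s k81 k93 1 (.s k211 k28 10 (.d k243
  k227 k162 3 12))), (.s k105 k60 14 (.s k73 k121 3 (.s k12 k134 10 (.s k4 k8 1 (.d k166 k243 k247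
  14 12)))))] (.c k105 (.q k235 [(.d k215 k255 k20 5 8), (.s k81 k93 1 (.s k211 k28 10 (.d k243 k227
  k162 3 12)))] .n) (.c k235 (.l (.s k105 k60 14 (.s k81 k93 1 (.s k211 k28 10 (.d k243 k227 k162 3
  12))))) (.c k243 (.l (.s k20 k215 8 (.s k28 k211 10 (.s k16 k24 1 (.s k93 k81 1 (.d k223 k158 k154
  8 10)))))) .n)))) (.c k60 (.f k20 k215 8 (.q k4 [(.s k52 k36 3 (.s k101 k199 12 (.s k117 k69 3 (.d
  k247 k182 k166 8 12)))), (.s k12 k8 1 (.s k134 k73 10 (.d k166 k182 k247 3 12))), (.s k12 k8 1 (.s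
  k52 k36 3 (.s k134 k73 10 (.d k199 k69 k101 8 12))))] (.c k61 (.q k62 [(.s k52 k36 3 (.s k101 k199
  12 (.s k117 k69 3 (.d k247 k182 k166 8 12)))), (.s k12 k8 1 (.s k134 k73 10 (.d k166 k182 k247 3
  12))), (.s k12 k8 1 (.s k52 k36 3 (.s k134 k73 10 (.d k199 k69 k101 8 12))))] .n) (.c k62 (.q k61
  [(.s k52 k36 3 (.s k101 k199 12 (.s k117 k69 3 (.d k247 k182 k166 8 12)))), (.s k12 k8 1 (.s k134
  k73 10 (.d k166 k182 k247 3 12))), (.s k12 k8 1 (.s k52 k36 3 (.s k134 k73 10 (.d k199 k69 k101 8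
  12))))] .n) .n)))) (.c k105 (.f k20 k215 8 (.q k134 [(.s k12 k73 10 (.s k166 k182 3 (.d k4 k8 k247
  1 12))), (.s k166 k182 3 (.s k4 k247 12 (.s k52 k36 3 (.d k199 k69 k101 8 12)))), (.s k12 k73 10
  (.s k4 k8 1 (.s k52 k36 3 (.d k199 k69 k101 8 12))))] (.c k4 (.l (.s k12 k73 10 (.s k166 k182 3
  (.s k89 k243 14 (.s k28 k211 10 (.d k60 k44 k40 3 5)))))) (.c k40 (.q k235 [(.s k12 k73 10 (.s
  k166 k182 3 (.d k4 k8 k247 1 12))), (.s k166 k182 3 (.s k4 k247 12 (.s k52 k36 3 (.d k199 k69 k101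
  8 12)))), (.s k12 k73 10 (.s k4 k8 1 (.s k52 k36 3 (.d k199 k69 k101 8 12))))] (.c k4 (.l (.s k12
  k73 10 (.s k166 k182 3 (.s k89 k243 14 (.s k28 k211 10 (.s k16 k24 1 (.s k93 k81 1 (.d k223 k158
  k154 8 10)))))))) .n)) (.c k235 (.l (.s k40 k60 5 (.s k12 k73 10 (.s k4 k8 1 (.d k166 k182 k247 3
  12))))) .n))))) (.c k215 (.q k1 [(.s k169 k253 13 (.s k131 k188 6 (.d k3 k2 k67 0 7))), (.s k105
  k60 14 (.s k65 k125 5 (.s k169 k253 13 (.s k41 k233 7 (.s k61 k21 5 (.d k193 k129 k149 7 13)))))),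
  (.s k3 k2 0 (.s k67 k131 7 (.s k105 k60 14 (.s k65 k125 5 (.s k66 k64 0 (.d k129 k193 k192 7
  8))))))] .n) .n))))))

def s63_170_131 : T TT 256 :=
  (.q k12 [(.s k4 k8 1 (.s k130 k65 8 (.s k134 k73 10 (.s k69 k199 8 (.d k138 k142 k207 1 10))))),
  (.s k4 k8 1 (.s k65 k130 8 (.s k105 k125 5 (.s k166 k247 12 (.s k44 k227 10 (.d k60 k150 k28 14
  3)))))), (.s k65 k130 8 (.s k73 k134 10 (.s k105 k125 5 (.s k89 k121 3 (.s k81 k93 1 (.d k243 k162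
  k166 12 14)))))), (.s k4 k8 1 (.s k134 k73 10 (.s k166 k247 12 (.s k150 k182 3 (.s k20 k215 8 (.d
  k60 k40 k105 5 14))))))] (.c k89 (.l (.s k8 k4 1 (.s k65 k130 8 (.s k73 k134 10 (.s k69 k77 1 (.d
  k138 k203 k207 8 10)))))) .n))

def s63_170_132 : T TT 256 :=
  (.q k1 [(.s k3 k2 0 (.s k131 k67 7 (.s k169 k253 13 (.s k150 k188 6 (.s k20 k215 8 (.d k60 k40
  k105 5 14)))))), (.s k65 k130 8 (.s k105 k125 5 (.s k169 k253 13 (.s k41 k233 7 (.s k61 k21 5 (.d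
  k193 k129 k149 7 13)))))), (.s k3 k2 0 (.s k65 k130 8 (.s k67 k131 7 (.s k66 k64 0 (.d k129 k193
  k192 7 8)))))] (.c k150 (.l (.s k3 k2 0 (.s k67 k131 7 (.s k169 k253 13 (.s k86 k252 14 (.s k105
  k124 6 (.d k65 k125 k130 5 8))))))) .n))

def s63_170_133 : T TT 256 :=
  (.q k1 [(.s k3 k2 0 (.s k131 k67 7 (.s k169 k253 13 (.s k150 k188 6 (.s k20 k215 8 (.d k60 k40
  k105 5 14)))))), (.s k65 k130 8 (.s k105 k125 5 (.s k169 k253 13 (.s k41 k233 7 (.s k61 k21 5 (.d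
  k193 k129 k149 7 13)))))), (.s k3 k2 0 (.s k65 k130 8 (.s k67 k131 7 (.s k66 k64 0 (.d k129 k193
  k192 7 8)))))] (.c k150 (.l (.s k3 k2 0 (.s k67 k131 7 (.s k169 k253 13 (.s k86 k252 14 (.s k105
  k124 6 (.d k65 k125 k130 5 8))))))) .n))

def s63_170_134 : T TT 256 :=
  (.q k1 [(.s k3 k2 0 (.s k131 k67 7 (.s k169 k253 13 (.s k150 k188 6 (.s k20 k215 8 (.d k60 k40
  k105 5 14)))))), (.s k65 k130 8 (.s k105 k125 5 (.s k169 k253 13 (.s k41 k233 7 (.s k61 k21 5 (.d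
  k193 k129 k149 7 13)))))), (.s k3 k2 0 (.s k65 k130 8 (.s k67 k131 7 (.s k66 k64 0 (.d k129 k193
  k192 7 8)))))] (.c k150 (.l (.s k3 k2 0 (.s k67 k131 7 (.s k169 k253 13 (.s k86 k252 14 (.s k105
  k124 6 (.d k65 k125 k130 5 8))))))) .n))

def s63_170_135 : T TT 256 :=
  (.q k1 [(.s k3 k2 0 (.s k131 k67 7 (.s k169 k253 13 (.s k150 k188 6 (.s k20 k215 8 (.d k60 k40
  k105 5 14)))))), (.s k65 k130 8 (.s k105 k125 5 (.s k169 k253 13 (.s k41 k233 7 (.s k61 k21 5 (.d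
  k193 k129 k149 7 13)))))), (.s k3 k2 0 (.s k65 k130 8 (.s k67 k131 7 (.s k66 k64 0 (.d k129 k193
  k192 7 8)))))] (.c k150 (.l (.s k3 k2 0 (.s k67 k131 7 (.s k169 k253 13 (.s k86 k252 14 (.s k105
  k124 6 (.d k65 k125 k130 5 8))))))) .n))

def s63_170_136 : T TT 256 :=
  (.q k227 [(.s k130 k65 8 (.s k243 k211 3 (.s k162 k81 12 (.s k146 k178 3 (.d k97 k32 k48 8
  12))))), (.s k65 k130 8 (.s k105 k125 5 (.s k150 k60 14 (.s k166 k44 10 (.s k4 k247 12 (.s k12 k8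
  1 (.d k134 k182 k73 3 10))))))), (.s k243 k211 3 (.s k81 k162 12 (.s k89 k93 1 (.s k166 k12 14 (.s
  k105 k44 10 (.s k121 k73 3 (.d k60 k182 k150 10 14)))))))] (.c k153 (.q k187 [(.s k130 k65 8 (.s
  k243 k211 3 (.s k162 k81 12 (.s k146 k178 3 (.d k97 k32 k48 8 12))))), (.s k65 k130 8 (.s k105
  k125 5 (.s k150 k60 14 (.s k166 k44 10 (.s k4 k247 12 (.s k12 k8 1 (.d k134 k182 k73 3 10))))))),
  (.s k243 k211 3 (.s k81 k162 12 (.s k89 k93 1 (.s k166 k12 14 (.s k105 k44 10 (.s k121 k73 3 (.d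
  k60 k182 k150 10 14)))))))] .n) (.c k187 (.q k153 [(.s k130 k65 8 (.s k243 k211 3 (.s k162 k81 12
  (.s k146 k178 3 (.d k97 k32 k48 8 12))))), (.s k17 k221 9 (.s k51 k34 4 (.s k147 k99 11 (.s k150
  k156 2 (.s k20 k215 8 (.d k60 k40 k105 5 14))))))] .n) .n)))

def s63_170_137 : T TT 256 :=
  (.q k1 [(.s k3 k2 0 (.s k131 k67 7 (.s k169 k253 13 (.s k150 k188 6 (.s k20 k215 8 (.d k60 k40
  k105 5 14)))))), (.s k65 k130 8 (.s k105 k125 5 (.s k169 k253 13 (.s k41 k233 7 (.s k61 k21 5 (.d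
  k193 k129 k149 7 13)))))), (.s k3 k2 0 (.s k65 k130 8 (.s k67 k131 7 (.s k66 k64 0 (.d k129 k193
  k192 7 8)))))] (.c k150 (.l (.s k3 k2 0 (.s k67 k131 7 (.s k169 k253 13 (.s k86 k252 14 (.s k105
  k124 6 (.d k65 k125 k130 5 8))))))) .n))

def s63_170_138 : T TT 256 :=
  (.q k154 [(.s k16 k223 10 (.s k48 k32 3 (.s k130 k65 8 (.s k146 k97 12 (.s k81 k211 8 (.d k162
  k178 k243 3 12)))))), (.s k65 k130 8 (.s k105 k125 5 (.s k150 k60 14 (.s k146 k158 1 (.s k48 k97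
  12 (.s k203 k56 12 (.d k207 k199 k101 1 14))))))), (.s k16 k223 10 (.s k48 k32 3 (.s k146 k97 12
  (.s k150 k158 1 (.s k20 k215 8 (.d k60 k40 k105 5 14)))))), (.s k16 k223 10 (.s k48 k32 3 (.s k65
  k130 8 (.s k105 k125 5 (.s k56 k203 12 (.d k60 k150 k52 14 1))))))] (.c k48 (.f k16 k223 10 (.l
  (.s k65 k130 8 (.s k105 k125 5 (.s k150 k60 14 (.s k20 k215 8 (.s k28 k24 1 (.s k146 k158 1 (.d
  k211 k81 k89 8 10))))))))) (.c k101 (.l (.s k16 k223 10 (.s k65 k130 8 (.s k105 k125 5 (.s k150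
  k60 14 (.s k146 k158 1 (.d k48 k32 k97 3 12))))))) .n)))

def s63_170_139 : T TT 256 :=
  (.q k1 [(.s k3 k2 0 (.s k131 k67 7 (.s k169 k253 13 (.s k150 k188 6 (.s k20 k215 8 (.d k60 k40
  k105 5 14)))))), (.s k65 k130 8 (.s k105 k125 5 (.s k169 k253 13 (.s k41 k233 7 (.s k61 k21 5 (.d
  k193 k129 k149 7 13)))))), (.s k3 k2 0 (.s k65 k130 8 (.s k67 k131 7 (.s k66 k64 0 (.d k129 k193
  k192 7 8)))))] (.c k150 (.l (.s k3 k2 0 (.s k67 k131 7 (.s k169 k253 13 (.s k86 k252 14 (.s k105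
  k124 6 (.d k65 k125 k130 5 8))))))) .n))

def s63_170_140 : T TT 256 :=
  (.q k1 [(.s k65 k130 8 (.s k105 k125 5 (.s k169 k253 13 (.s k41 k233 7 (.s k61 k21 5 (.d k193 k129
  k149 7 13)))))), (.s k3 k2 0 (.s k131 k67 7 (.s k169 k253 13 (.s k150 k188 6 (.s k20 k215 8 (.d
  k60 k40 k105 5 14)))))), (.s k3 k2 0 (.s k65 k130 8 (.s k67 k131 7 (.s k66 k64 0 (.d k129 k193
  k192 7 8)))))] (.c k150 (.l (.s k3 k2 0 (.s k67 k131 7 (.s k169 k253 13 (.s k86 k252 14 (.s k105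
  k124 6 (.d k65 k125 k130 5 8))))))) .n))

def s63_170_141 : T TT 256 :=
  (.q k1 [(.s k3 k2 0 (.s k131 k67 7 (.s k169 k253 13 (.s k150 k188 6 (.s k20 k215 8 (.d k60 k40
  k105 5 14)))))), (.s k65 k130 8 (.s k105 k125 5 (.s k169 k253 13 (.s k41 k233 7 (.s k61 k21 5 (.d
  k193 k129 k149 7 13)))))), (.s k3 k2 0 (.s k65 k130 8 (.s k67 k131 7 (.s k66 k64 0 (.d k129 k193
  k192 7 8)))))] (.c k150 (.l (.s k3 k2 0 (.s k67 k131 7 (.s k169 k253 13 (.s k86 k252 14 (.s k105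
  k124 6 (.d k65 k125 k130 5 8))))))) .n))

def s63_170_142 : T TT 256 :=
  (.q k1 [(.s k3 k2 0 (.s k131 k67 7 (.s k169 k253 13 (.s k150 k188 6 (.s k20 k215 8 (.d k60 k40
  k105 5 14)))))), (.s k65 k130 8 (.s k105 k125 5 (.s k169 k253 13 (.s k41 k233 7 (.s k61 k21 5 (.d
  k193 k129 k149 7 13)))))), (.s k3 k2 0 (.s k65 k130 8 (.s k67 k131 7 (.s k66 k64 0 (.d k129 k193
  k192 7 8)))))] (.c k150 (.l (.s k3 k2 0 (.s k67 k131 7 (.s k169 k253 13 (.s k86 k252 14 (.s k105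
  k124 6 (.d k65 k125 k130 5 8))))))) .n))

def s63_170_143 : T TT 256 :=
  (.q k1 [(.s k65 k130 8 (.s k105 k125 5 (.s k169 k253 13 (.s k41 k233 7 (.s k61 k21 5 (.d k193 k129
  k149 7 13)))))), (.s k3 k2 0 (.s k131 k67 7 (.s k169 k253 13 (.s k150 k188 6 (.s k20 k215 8 (.d
  k60 k40 k105 5 14)))))), (.s k3 k2 0 (.s k65 k130 8 (.s k67 k131 7 (.s k66 k64 0 (.d k129 k193
  k192 7 8)))))] (.c k150 (.l (.s k3 k2 0 (.s k67 k131 7 (.s k169 k253 13 (.s k86 k252 14 (.s k105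
  k124 6 (.d k65 k125 k130 5 8))))))) .n))

def s63_170_144 : T TT 256 :=
  (.q k1 [(.s k3 k2 0 (.s k131 k67 7 (.s k169 k253 13 (.s k150 k188 6 (.s k20 k215 8 (.d k60 k40
  k105 5 14)))))), (.s k65 k130 8 (.s k105 k125 5 (.s k169 k253 13 (.s k41 k233 7 (.s k61 k21 5 (.d
  k193 k129 k149 7 13)))))), (.s k3 k2 0 (.s k65 k130 8 (.s k67 k131 7 (.s k66 k64 0 (.d k129 k193
  k192 7 8)))))] (.c k150 (.l (.s k3 k2 0 (.s k67 k131 7 (.s k169 k253 13 (.s k86 k252 14 (.s k105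
  k124 6 (.d k65 k125 k130 5 8))))))) .n))

def s63_170_145 : T TT 256 :=
  (.q k1 [(.s k3 k2 0 (.s k131 k67 7 (.s k169 k253 13 (.s k150 k188 6 (.s k20 k215 8 (.d k60 k40
  k105 5 14)))))), (.s k65 k130 8 (.s k105 k125 5 (.s k169 k253 13 (.s k41 k233 7 (.s k61 k21 5 (.d
  k193 k129 k149 7 13)))))), (.s k3 k2 0 (.s k65 k130 8 (.s k67 k131 7 (.s k66 k64 0 (.d k129 k193
  k192 7 8)))))] (.c k150 (.l (.s k3 k2 0 (.s k67 k131 7 (.s k169 k253 13 (.s k86 k252 14 (.s k105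
  k124 6 (.d k65 k125 k130 5 8))))))) .n))

def s63_170_146 : T TT 256 :=
  (.q k1 [(.s k3 k2 0 (.s k131 k67 7 (.s k169 k253 13 (.s k150 k188 6 (.s k20 k215 8 (.d k60 k40
  k105 5 14)))))), (.s k65 k130 8 (.s k105 k125 5 (.s k169 k253 13 (.s k41 k233 7 (.s k61 k21 5 (.d
  k193 k129 k149 7 13)))))), (.s k3 k2 0 (.s k65 k130 8 (.s k67 k131 7 (.s k66 k64 0 (.d k129 k193
  k192 7 8)))))] (.c k150 (.l (.s k3 k2 0 (.s k67 k131 7 (.s k169 k253 13 (.s k86 k252 14 (.s k105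
  k124 6 (.d k65 k125 k130 5 8))))))) .n))

def s63_170_147 : T TT 256 :=
  (.q k1 [(.s k3 k2 0 (.s k131 k67 7 (.s k169 k253 13 (.s k150 k188 6 (.s k20 k215 8 (.d k60 k40
  k105 5 14)))))), (.s k65 k130 8 (.s k105 k125 5 (.s k169 k253 13 (.s k41 k233 7 (.s k61 k21 5 (.d
  k193 k129 k149 7 13)))))), (.s k3 k2 0 (.s k65 k130 8 (.s k67 k131 7 (.s k66 k64 0 (.d k129 k193
  k192 7 8)))))] (.c k150 (.l (.s k3 k2 0 (.s k67 k131 7 (.s k169 k253 13 (.s k86 k252 14 (.s k105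
  k124 6 (.d k65 k125 k130 5 8))))))) .n))

def s63_170_148 : T TT 256 :=
  (.q k1 [(.s k3 k2 0 (.s k65 k130 8 (.s k67 k131 7 (.s k66 k64 0 (.d k129 k193 k192 7 8))))), (.s
  k65 k130 8 (.s k105 k125 5 (.s k169 k253 13 (.s k41 k233 7 (.s k61 k21 5 (.d k193 k129 k149 7
  13)))))), (.s k3 k2 0 (.s k131 k67 7 (.s k169 k253 13 (.s k150 k188 6 (.s k20 k215 8 (.d k60 k40
  k105 5 14))))))] (.c k150 (.l (.s k3 k2 0 (.s k67 k131 7 (.s k169 k253 13 (.s k86 k252 14 (.s k105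
  k124 6 (.d k65 k125 k130 5 8))))))) .n))

def s63_170_149 : T TT 256 :=
  (.q k97 [(.s k130 k65 8 (.s k146 k48 12 (.s k162 k178 3 (.s k243 k81 12 (.d k227 k211 k32 3
  8))))), (.s k48 k146 12 (.s k16 k32 3 (.s k154 k223 10 (.s k101 k207 14 (.s k105 k109 1 (.s k56
  k203 12 (.d k60 k52 k150 1 14))))))), (.s k65 k130 8 (.s k105 k125 5 (.s k101 k109 1 (.s k69 k117
  3 (.s k77 k73 1 (.d k113 k81 k89 3 5))))))] (.c k106 (.q k192 [(.s k128 k64 7 (.s k130 k65 8 (.s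
  k129 k131 0 (.s k66 k3 8 (.d k194 k193 k2 0 7))))), (.s k48 k146 12 (.s k32 k16 3 (.s k65 k130 8
  (.s k81 k113 3 (.d k162 k227 k243 8 12))))), (.s k48 k146 12 (.s k96 k144 11 (.s k98 k99 0 (.s
  k145 k51 12 (.d k193 k194 k49 0 11)))))] (.c k42 (.q k234 [(.s k128 k64 7 (.s k130 k65 8 (.s k129
  k131 0 (.s k66 k3 8 (.d k194 k193 k2 0 7))))), (.s k48 k146 12 (.s k32 k16 3 (.s k65 k130 8 (.s
  k81 k113 3 (.d k162 k227 k243 8 12))))), (.s k48 k146 12 (.s k96 k144 11 (.s k98 k99 0 (.s k145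
  k51 12 (.d k193 k194 k49 0 11)))))] (.c k128 (.q k191 [(.s k48 k146 12 (.s k32 k16 3 (.s k162 k227
  8 (.s k81 k243 12 (.d k65 k113 k130 3 8))))), (.s k48 k146 12 (.s k96 k144 11 (.s k98 k99 0 (.s
  k145 k51 12 (.d k193 k194 k49 0 11))))), (.s k65 k130 8 (.s k105 k125 5 (.s k150 k60 14 (.s k215
  k20 8 (.d k255 k235 k213 5 6)))))] .n) (.c k191 (.l (.s k128 k64 7 (.s k130 k65 8 (.s k129 k131 0
  (.s k66 k3 8 (.d k194 k193 k2 0 7)))))) .n))) (.c k128 (.q k191 [(.s k48 k146 12 (.s k32 k16 3 (.s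
  k162 k227 8 (.s k81 k243 12 (.d k65 k113 k130 3 8))))), (.s k48 k146 12 (.s k96 k144 11 (.s k98
  k99 0 (.s k145 k51 12 (.d k193 k194 k49 0 11))))), (.s k65 k130 8 (.s k81 k113 3 (.s k193 k194 0
  (.s k145 k49 11 (.s k17 k209 7 (.d k51 k34 k98 4 12))))))] (.c k42 (.q k234 [(.s k48 k146 12 (.s
  k32 k16 3 (.s k162 k227 8 (.s k81 k243 12 (.d k65 k113 k130 3 8))))), (.s k48 k146 12 (.s k96 k144
  11 (.s k98 k99 0 (.s k145 k51 12 (.d k193 k194 k49 0 11))))), (.s k65 k130 8 (.s k105 k125 5 (.s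
  k150 k60 14 (.s k215 k20 8 (.d k255 k235 k213 5 6)))))] .n) (.c k234 (.q k42 [(.s k48 k146 12 (.s
  k32 k16 3 (.s k162 k227 8 (.s k81 k243 12 (.d k65 k113 k130 3 8))))), (.s k48 k146 12 (.s k96 k144
  11 (.s k98 k99 0 (.s k145 k51 12 (.d k193 k194 k49 0 11))))), (.s k65 k130 8 (.s k81 k113 3 (.s
  k193 k194 0 (.s k145 k49 11 (.s k17 k209 7 (.d k51 k34 k98 4 12))))))] .n) .n))) (.c k191 (.l (.s
  k128 k64 7 (.s k130 k65 8 (.s k129 k131 0 (.s k66 k3 8 (.d k194 k193 k2 0 7)))))) (.c k234 (.q k42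
  [(.s k128 k64 7 (.s k130 k65 8 (.s k129 k131 0 (.s k66 k3 8 (.d k194 k193 k2 0 7))))), (.s k48
  k146 12 (.s k32 k16 3 (.s k65 k130 8 (.s k81 k113 3 (.d k162 k227 k243 8 12))))), (.s k48 k146 12
  (.s k96 k144 11 (.s k98 k99 0 (.s k145 k51 12 (.d k193 k194 k49 0 11)))))] (.c k128 (.q k191 [(.s
  k48 k146 12 (.s k32 k16 3 (.s k162 k227 8 (.s k81 k243 12 (.d k65 k113 k130 3 8))))), (.s k48 k146
  12 (.s k96 k144 11 (.s k98 k99 0 (.s k145 k51 12 (.d k193 k194 k49 0 11))))), (.s k65 k130 8 (.s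
  k81 k113 3 (.s k193 k194 0 (.s k145 k49 11 (.s k17 k209 7 (.d k51 k34 k98 4 12))))))] .n) (.c k191
  (.l (.s k128 k64 7 (.s k130 k65 8 (.s k129 k131 0 (.s k66 k3 8 (.d k194 k193 k2 0 7)))))) .n)))
  .n))))) (.c k128 (.q k191 [(.s k130 k65 8 (.s k146 k48 12 (.s k162 k178 3 (.s k243 k81 12 (.d k227
  k211 k32 3 8))))), (.s k48 k146 12 (.s k16 k32 3 (.s k154 k223 10 (.s k101 k207 14 (.s k105 k109 1
  (.s k56 k203 12 (.d k60 k52 k150 1 14))))))), (.s k65 k130 8 (.s k105 k125 5 (.s k101 k109 1 (.s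
  k69 k117 3 (.s k77 k73 1 (.d k113 k81 k89 3 5))))))] (.c k106 (.q k192 [(.s k48 k146 12 (.s k32
  k16 3 (.s k162 k227 8 (.s k81 k243 12 (.d k65 k113 k130 3 8))))), (.s k48 k146 12 (.s k96 k144 11
  (.s k98 k99 0 (.s k145 k51 12 (.d k193 k194 k49 0 11))))), (.s k65 k130 8 (.s k81 k113 3 (.s k193
  k194 0 (.s k145 k49 11 (.s k17 k209 7 (.d k51 k34 k98 4 12))))))] (.c k42 (.q k234 [(.s k48 k146
  12 (.s k32 k16 3 (.s k162 k227 8 (.s k81 k243 12 (.d k65 k113 k130 3 8))))), (.s k48 k146 12 (.s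
  k96 k144 11 (.s k98 k99 0 (.s k145 k51 12 (.d k193 k194 k49 0 11))))), (.s k65 k130 8 (.s k105
  k125 5 (.s k150 k60 14 (.s k215 k20 8 (.d k255 k235 k213 5 6)))))] .n) (.c k234 (.q k42 [(.s k48
  k146 12 (.s k32 k16 3 (.s k162 k227 8 (.s k81 k243 12 (.d k65 k113 k130 3 8))))), (.s k48 k146 12
  (.s k96 k144 11 (.s k98 k99 0 (.s k145 k51 12 (.d k193 k194 k49 0 11))))), (.s k65 k130 8 (.s k81
  k113 3 (.s k193 k194 0 (.s k145 k49 11 (.s k17 k209 7 (.d k51 k34 k98 4 12))))))] .n) .n))) (.c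
  k192 (.q k106 [(.s k130 k65 8 (.s k146 k48 12 (.s k162 k178 3 (.s k243 k81 12 (.d k227 k211 k32 3
  8))))), (.s k64 k127 6 (.s k65 k130 8 (.s k67 k66 0 (.s k105 k125 5 (.s k104 k107 0 (.d k124 k84
  k86 5 6)))))), (.s k48 k146 12 (.s k16 k32 3 (.s k154 k223 10 (.s k101 k207 14 (.s k105 k109 1 (.s
  k56 k203 12 (.d k60 k52 k150 1 14)))))))] .n) .n))) (.c k191 (.q k128 [(.s k48 k146 12 (.s k32 k16
  3 (.s k162 k227 8 (.s k81 k243 12 (.d k65 k113 k130 3 8))))), (.s k130 k65 8 (.s k129 k131 0 (.s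
  k192 k64 7 (.s k66 k3 8 (.d k194 k193 k2 0 7))))), (.s k48 k146 12 (.s k16 k32 3 (.s k192 k64 7
  (.s k144 k96 11 (.s k80 k208 7 (.d k160 k176 k240 3 11))))))] (.c k106 (.l (.s k192 k64 7 (.s k130
  k65 8 (.s k129 k131 0 (.s k66 k3 8 (.d k194 k193 k2 0 7)))))) (.c k127 (.q k255 [(.s k65 k130 8
  (.s k215 k235 5 (.s k150 k20 8 (.d k105 k125 k60 5 14)))), (.s k48 k146 12 (.s k16 k32 3 (.s k117
  k186 10 (.s k101 k69 3 (.d k154 k223 k207 10 14)))))] (.c k106 (.l (.s k192 k64 7 (.s k65 k130 8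
  (.s k105 k125 5 (.s k150 k60 14 (.d k215 k235 k20 5 8)))))) (.c k192 (.q k106 [(.s k65 k130 8 (.s
  k215 k235 5 (.s k150 k20 8 (.d k105 k125 k60 5 14)))), (.s k48 k146 12 (.s k16 k32 3 (.s k117 k186
  10 (.s k101 k69 3 (.d k154 k223 k207 10 14)))))] .n) .n))) (.c k192 (.q k106 [(.s k48 k146 12 (.s
  k32 k16 3 (.s k65 k130 8 (.s k81 k113 3 (.d k162 k227 k243 8 12))))), (.s k48 k146 12 (.s k16 k32
  3 (.s k154 k223 10 (.s k101 k207 14 (.s k105 k109 1 (.s k56 k203 12 (.d k60 k52 k150 1 14))))))),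
  (.s k65 k130 8 (.s k105 k125 5 (.s k101 k109 1 (.s k69 k117 3 (.s k77 k73 1 (.d k113 k81 k89 3
  5))))))] (.c k127 (.q k255 [(.s k65 k130 8 (.s k215 k235 5 (.s k150 k20 8 (.d k105 k125 k60 5
  14)))), (.s k48 k146 12 (.s k16 k32 3 (.s k117 k186 10 (.s k101 k69 3 (.d k154 k223 k207 10
  14)))))] .n) (.c k150 (.l (.s k48 k146 12 (.s k32 k16 3 (.s k162 k227 8 (.s k81 k243 12 (.d k65
  k113 k130 3 8)))))) (.c k255 (.l (.s k127 k64 6 (.s k48 k146 12 (.s k32 k16 3 (.s k65 k130 8 (.s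
  k81 k113 3 (.d k162 k227 k243 8 12))))))) .n)))) (.c k255 (.q k127 [(.d k64 k106 k192 6 7)] (.c
  k64 (.l (.s k48 k146 12 (.s k32 k16 3 (.s k65 k130 8 (.s k81 k113 3 (.d k162 k227 k243 8 12))))))
  (.c k106 (.l (.s k192 k64 7 (.s k130 k65 8 (.s k129 k131 0 (.s k66 k3 8 (.d k194 k193 k2 0 7))))))
  (.c k192 (.l (.s k106 k64 6 (.s k48 k146 12 (.s k32 k16 3 (.s k65 k130 8 (.s k81 k113 3 (.d k162
  k227 k243 8 12))))))) .n)))) .n))))) (.c k192 (.q k106 [(.s k48 k146 12 (.s k32 k16 3 (.s k65 k130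
  8 (.s k81 k113 3 (.d k162 k227 k243 8 12))))), (.s k64 k127 6 (.s k65 k130 8 (.s k67 k66 0 (.s
  k105 k125 5 (.s k104 k107 0 (.d k124 k84 k86 5 6)))))), (.s k48 k146 12 (.s k16 k32 3 (.s k154
  k223 10 (.s k101 k207 14 (.s k105 k109 1 (.s k56 k203 12 (.d k60 k52 k150 1 14)))))))] (.c k128
  (.q k191 [(.s k130 k65 8 (.s k146 k48 12 (.s k162 k178 3 (.s k243 k81 12 (.d k227 k211 k32 3
  8))))), (.s k64 k127 6 (.s k65 k130 8 (.s k67 k66 0 (.s k105 k125 5 (.s k104 k107 0 (.d k124 k84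
  k86 5 6)))))), (.s k48 k146 12 (.s k16 k32 3 (.s k154 k223 10 (.s k101 k207 14 (.s k105 k109 1 (.s
  k56 k203 12 (.d k60 k52 k150 1 14)))))))] .n) (.c k150 (.l (.s k48 k146 12 (.s k32 k16 3 (.s k162
  k227 8 (.s k81 k243 12 (.d k65 k113 k130 3 8)))))) (.c k191 (.q k128 [(.s k48 k146 12 (.s k32 k16
  3 (.s k65 k130 8 (.s k81 k113 3 (.d k162 k227 k243 8 12))))), (.s k48 k146 12 (.s k16 k32 3 (.s
  k154 k223 10 (.s k101 k207 14 (.s k105 k109 1 (.s k56 k203 12 (.d k60 k52 k150 1 14))))))), (.s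
  k65 k130 8 (.s k105 k125 5 (.s k101 k109 1 (.s k69 k117 3 (.s k77 k73 1 (.d k113 k81 k89 3
  5))))))] (.c k127 (.q k255 [(.s k65 k130 8 (.s k215 k235 5 (.s k150 k20 8 (.d k105 k125 k60 5
  14)))), (.s k48 k146 12 (.s k16 k32 3 (.s k117 k186 10 (.s k101 k69 3 (.d k154 k223 k207 10
  14)))))] .n) (.c k150 (.l (.s k48 k146 12 (.s k32 k16 3 (.s k162 k227 8 (.s k81 k243 12 (.d k65
  k113 k130 3 8)))))) (.c k255 (.l (.s k127 k64 6 (.s k48 k146 12 (.s k32 k16 3 (.s k65 k130 8 (.s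
  k81 k113 3 (.d k162 k227 k243 8 12))))))) .n)))) .n)))) .n)))))

def s63_170_150 : T TT 256 :=
  (.f k130 k65 8 (.q k162 [(.s k81 k243 12 (.s k146 k178 3 (.s k48 k97 12 (.d k16 k32 k211 3 8)))),
  (.s k146 k178 3 (.s k97 k48 12 (.s k227 k32 8 (.d k243 k211 k81 3 12))))] (.c k32 (.q k101 [(.s
  k69 k117 3 (.s k146 k178 3 (.s k207 k138 10 (.d k48 k154 k97 14 12)))), (.s k69 k117 3 (.s k138
  k207 10 (.s k134 k142 1 (.s k4 k199 8 (.d k12 k8 k73 1 10))))), (.s k81 k243 12 (.s k146 k178 3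
  (.s k16 k211 8 (.s k48 k97 12 (.d k154 k223 k207 10 14)))))] (.c k207 (.f k69 k117 3 (.l (.s k178
  k146 3 (.s k243 k81 12 (.s k113 k48 8 (.s k89 k77 5 (.s k12 k166 14 (.s k4 k8 1 (.d k134 k199 k73
  8 10))))))))) .n)) (.c k48 (.q k98 [(.s k34 k226 7 (.s k51 k17 4 (.s k81 k243 12 (.s k64 k115 4
  (.d k192 k128 k145 7 12))))), (.s k146 k178 3 (.s k194 k50 11 (.s k2 k66 7 (.s k226 k34 7 (.d k242
  k210 k82 3 11))))), (.s k34 k226 7 (.s k51 k17 4 (.s k145 k192 12 (.s k179 k128 4 (.d k243 k115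
  k81 7 12))))), (.s k81 k243 12 (.s k64 k115 4 (.s k192 k128 7 (.s k194 k193 0 (.d k146 k178 k50 3
  11)))))] (.c k51 (.l (.s k146 k178 3 (.s k226 k34 7 (.s k243 k81 12 (.s k192 k209 4 (.d k194 k193
  k50 0 11)))))) (.c k53 (.q k58 [(.s k34 k226 7 (.s k51 k17 4 (.s k81 k243 12 (.s k64 k115 4 (.d
  k192 k128 k145 7 12))))), (.s k146 k178 3 (.s k194 k50 11 (.s k2 k66 7 (.s k226 k34 7 (.d k242
  k210 k82 3 11))))), (.s k34 k226 7 (.s k51 k17 4 (.s k145 k192 12 (.s k179 k128 4 (.d k243 k115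
  k81 7 12))))), (.s k81 k243 12 (.s k64 k115 4 (.s k192 k128 7 (.s k194 k193 0 (.d k146 k178 k50 3
  11)))))] (.c k51 (.l (.s k146 k178 3 (.s k226 k34 7 (.s k243 k81 12 (.s k192 k209 4 (.d k194 k193
  k50 0 11)))))) (.c k243 (.l (.s k34 k226 7 (.s k51 k17 4 (.s k192 k145 12 (.s k194 k193 0 (.d k146
  k178 k50 3 11)))))) .n))) (.c k58 (.q k53 [(.s k34 k226 7 (.s k51 k17 4 (.s k81 k243 12 (.s k64
  k115 4 (.d k192 k128 k145 7 12))))), (.s k146 k178 3 (.s k194 k50 11 (.s k2 k66 7 (.s k226 k34 7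
  (.d k242 k210 k82 3 11))))), (.s k34 k226 7 (.s k51 k17 4 (.s k145 k192 12 (.s k179 k128 4 (.d
  k243 k115 k81 7 12))))), (.s k81 k243 12 (.s k64 k115 4 (.s k192 k128 7 (.s k194 k193 0 (.d k146
  k178 k50 3 11)))))] (.c k51 (.l (.s k146 k178 3 (.s k226 k34 7 (.s k243 k81 12 (.s k192 k209 4 (.d
  k194 k193 k50 0 11)))))) (.c k243 (.l (.s k34 k226 7 (.s k51 k17 4 (.s k192 k145 12 (.s k194 k193
  0 (.d k146 k178 k50 3 11)))))) .n))) (.c k243 (.l (.s k34 k226 7 (.s k51 k17 4 (.s k192 k145 12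
  (.s k194 k193 0 (.d k146 k178 k50 3 11)))))) .n))))) (.c k81 (.q k192 [(.s k128 k64 7 (.s k129
  k131 0 (.s k194 k193 0 (.d k66 k2 k3 7 8)))), (.s k146 k178 3 (.s k194 k193 0 (.s k98 k50 11 (.s
  k34 k226 7 (.d k51 k17 k145 4 12))))), (.s k128 k64 7 (.s k145 k179 4 (.s k146 k178 3 (.s k144
  k147 0 (.d k48 k97 k96 12 11)))))] (.c k97 (.q k113 [(.s k128 k64 7 (.s k129 k131 0 (.s k66 k3 8
  (.d k194 k193 k2 0 7)))), (.s k146 k178 3 (.s k194 k193 0 (.s k98 k50 11 (.s k34 k226 7 (.d k51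
  k145 k17 12 4))))), (.s k128 k64 7 (.s k145 k179 4 (.s k146 k178 3 (.s k147 k144 0 (.d k51 k98 k99
  12 11)))))] (.c k98 (.l (.s k194 k193 0 (.s k66 k2 7 (.s k129 k3 8 (.d k128 k131 k64 0 7))))) .n))
  (.c k98 (.l (.s k194 k193 0 (.s k66 k2 7 (.s k129 k3 8 (.d k128 k131 k64 0 7))))) (.c k113 (.q k97
  [(.d k146 k178 k48 3 12), (.s k128 k64 7 (.s k145 k179 4 (.d k193 k194 k49 0 11)))] .n) .n)))) (.c
  k97 (.q k192 [(.s k128 k64 7 (.s k129 k131 0 (.s k66 k3 8 (.d k194 k193 k2 0 7)))), (.s k64 k128 7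
  (.s k81 k243 12 (.s k98 k115 4 (.s k34 k226 7 (.d k51 k17 k145 4 12))))), (.s k146 k178 3 (.s k194
  k193 0 (.s k98 k50 11 (.s k34 k226 7 (.d k51 k145 k17 12 4)))))] (.c k81 (.q k113 [(.s k128 k64 7
  (.s k129 k131 0 (.s k66 k3 8 (.d k194 k193 k2 0 7)))), (.s k146 k178 3 (.s k194 k193 0 (.s k98 k50
  11 (.s k34 k226 7 (.d k51 k145 k17 12 4))))), (.s k128 k64 7 (.s k145 k179 4 (.s k146 k178 3 (.s
  k147 k144 0 (.d k51 k98 k99 12 11)))))] (.c k98 (.l (.s k194 k193 0 (.s k66 k2 7 (.s k129 k3 8 (.d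
  k128 k131 k64 0 7))))) .n)) (.c k113 (.l (.s k81 k243 12 (.s k64 k128 7 (.s k98 k115 4 (.s k34
  k226 7 (.d k51 k17 k145 4 12)))))) .n))) (.c k113 (.l (.s k81 k243 12 (.s k146 k178 3 (.s k48 k97
  12 (.d k16 k32 k211 3 8))))) (.c k146 (.q k2 [(.s k3 k1 0 (.s k131 k67 7 (.s k129 k128 0 (.d k66
  k194 k192 7 8)))), (.s k81 k243 12 (.s k82 k242 11 (.s k80 k83 0 (.s k240 k160 11 (.d k3 k1 k161 0
  12))))), (.s k194 k66 7 (.s k242 k82 11 (.s k210 k226 3 (.s k240 k225 4 (.d k243 k241 k81 0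
  12)))))] (.c k154 (.q k158 [(.s k3 k1 0 (.s k131 k67 7 (.s k129 k128 0 (.d k66 k194 k192 7 8)))),
  (.s k81 k243 12 (.s k82 k242 11 (.s k80 k83 0 (.s k240 k160 11 (.d k3 k1 k161 0 12))))), (.s k194
  k66 7 (.s k242 k82 11 (.s k210 k226 3 (.s k240 k225 4 (.d k243 k241 k81 0 12)))))] (.c k138 (.q
  k186 [(.s k3 k1 0 (.s k66 k194 7 (.s k131 k67 7 (.d k129 k128 k192 0 8)))), (.s k81 k243 12 (.s
  k82 k242 11 (.s k80 k83 0 (.s k240 k160 11 (.d k3 k1 k161 0 12))))), (.s k194 k66 7 (.s k242 k82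
  11 (.s k210 k226 3 (.s k240 k225 4 (.d k243 k241 k81 0 12)))))] .n) (.c k186 (.q k138 [(.s k3 k1 0
  (.s k131 k67 7 (.s k129 k128 0 (.d k66 k194 k192 7 8)))), (.s k69 k207 10 (.s k134 k142 1 (.s k4
  k199 8 (.d k12 k8 k73 1 10))))] .n) .n))) (.c k158 (.q k154 [(.s k3 k1 0 (.s k131 k67 7 (.s k129
  k128 0 (.d k66 k194 k192 7 8)))), (.s k16 k223 10 (.s k32 k48 3 (.s k227 k97 8 (.d k243 k81 k211
  12 3))))] .n) .n))) (.c k178 (.q k2 [(.s k3 k1 0 (.s k66 k194 7 (.s k131 k67 7 (.d k129 k128 k192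
  0 8)))), (.s k81 k243 12 (.s k82 k242 11 (.s k80 k83 0 (.s k240 k160 11 (.d k3 k1 k161 0 12))))),
  (.s k194 k66 7 (.s k242 k82 11 (.s k210 k226 3 (.s k240 k225 4 (.d k243 k241 k81 0 12)))))] .n)
  (.c k211 (.f k81 k243 12 (.f k89 k93 1 (.q k2 [(.s k3 k1 0 (.s k66 k194 7 (.s k131 k67 7 (.d k129
  k128 k192 0 8)))), (.s k82 k242 11 (.s k80 k83 0 (.s k146 k178 3 (.s k210 k18 7 (.d k240 k225 k160
  4 11)))))] (.c k3 (.l (.s k82 k242 11 (.s k146 k178 3 (.s k18 k210 7 (.s k50 k34 3 (.d k194 k66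
  k98 7 11)))))) (.c k123 (.q k183 [(.s k3 k1 0 (.s k66 k194 7 (.s k131 k67 7 (.d k129 k128 k192 0
  8)))), (.s k82 k242 11 (.s k80 k83 0 (.s k146 k178 3 (.s k210 k18 7 (.d k240 k225 k160 4 11)))))]
  (.c k3 (.l (.s k82 k242 11 (.s k146 k178 3 (.s k18 k210 7 (.s k50 k34 3 (.d k194 k66 k98 7
  11)))))) .n)) (.c k183 (.q k123 [(.s k3 k1 0 (.s k66 k194 7 (.s k131 k67 7 (.d k129 k128 k192 0
  8)))), (.s k82 k242 11 (.s k80 k83 0 (.s k240 k160 11 (.d k3 k1 k161 0 12)))), (.s k106 k72 4 (.s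
  k64 k127 6 (.s k192 k128 7 (.d k194 k193 k66 0 7))))] .n) .n)))))) (.c k243 (.q k2 [(.s k3 k1 0
  (.s k66 k194 7 (.s k131 k67 7 (.d k129 k128 k192 0 8)))), (.s k82 k242 11 (.s k146 k178 3 (.s k18
  k210 7 (.s k50 k34 3 (.d k194 k66 k98 7 11))))), (.s k3 k1 0 (.s k67 k131 7 (.s k82 k242 11 (.s
  k97 k112 4 (.d k146 k178 k48 3 12)))))] (.c k123 (.q k183 [(.s k3 k1 0 (.s k66 k194 7 (.s k131 k67
  7 (.d k129 k128 k192 0 8)))), (.s k82 k242 11 (.s k146 k178 3 (.s k18 k210 7 (.s k50 k34 3 (.d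
  k194 k66 k98 7 11))))), (.s k3 k1 0 (.s k67 k131 7 (.s k82 k242 11 (.s k97 k112 4 (.d k146 k178
  k48 3 12)))))] .n) (.c k183 (.q k123 [(.s k3 k1 0 (.s k66 k194 7 (.s k131 k67 7 (.d k129 k128 k192
  0 8)))), (.s k82 k242 11 (.s k146 k178 3 (.s k18 k210 7 (.s k50 k34 3 (.d k194 k66 k98 7 11))))),
  (.s k3 k1 0 (.s k67 k131 7 (.s k82 k242 11 (.s k97 k112 4 (.d k146 k178 k48 3 12)))))] .n) .n)))
  .n)))))))))))

def s63_170_151 : T TT 256 :=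
  (.q k1 [(.s k65 k130 8 (.s k105 k125 5 (.s k169 k253 13 (.s k41 k233 7 (.s k61 k21 5 (.d k193 k129
  k149 7 13)))))), (.s k3 k2 0 (.s k131 k67 7 (.s k169 k253 13 (.s k150 k188 6 (.s k20 k215 8 (.d
  k60 k40 k105 5 14)))))), (.s k3 k2 0 (.s k65 k130 8 (.s k67 k131 7 (.s k66 k64 0 (.d k129 k193
  k192 7 8)))))] (.c k150 (.l (.s k3 k2 0 (.s k67 k131 7 (.s k169 k253 13 (.s k86 k252 14 (.s k105
  k124 6 (.d k65 k125 k130 5 8))))))) .n))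

def s63_170_152 : T TT 256 :=
  (.q k1 [(.s k3 k2 0 (.s k131 k67 7 (.s k169 k253 13 (.s k150 k188 6 (.s k20 k215 8 (.d k60 k40
  k105 5 14)))))), (.s k65 k130 8 (.s k105 k125 5 (.s k169 k253 13 (.s k41 k233 7 (.s k61 k21 5 (.d
  k193 k129 k149 7 13)))))), (.s k3 k2 0 (.s k65 k130 8 (.s k67 k131 7 (.s k66 k64 0 (.d k129 k193
  k192 7 8)))))] (.c k150 (.l (.s k3 k2 0 (.s k67 k131 7 (.s k169 k253 13 (.s k86 k252 14 (.s k105
  k124 6 (.d k65 k125 k130 5 8))))))) .n))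

def s63_170_153 : T TT 256 :=
  (.q k169 [(.s k65 k130 8 (.s k105 k125 5 (.s k233 k41 7 (.s k252 k214 6 (.s k84 k168 13 (.d k86
  k87 k3 0 14)))))), (.s k1 k253 13 (.s k3 k2 0 (.s k131 k67 7 (.s k150 k188 6 (.s k20 k215 8 (.d
  k60 k40 k105 5 14)))))), (.s k1 k253 13 (.s k65 k130 8 (.s k105 k125 5 (.s k41 k233 7 (.s k61 k21
  5 (.d k193 k129 k149 7 13))))))] (.c k105 (.l (.s k1 k253 13 (.s k3 k2 0 (.s k65 k130 8 (.s k67
  k131 7 (.s k66 k64 0 (.d k129 k193 k192 7 8))))))) (.c k136 (.q k187 [(.s k1 k253 13 (.s k3 k2 0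
  (.s k131 k67 7 (.s k150 k188 6 (.s k20 k215 8 (.d k60 k40 k105 5 14)))))), (.s k65 k130 8 (.s k105
  k125 5 (.s k233 k41 7 (.s k252 k214 6 (.s k84 k168 13 (.d k86 k87 k3 0 14)))))), (.s k1 k253 13
  (.s k65 k130 8 (.s k105 k125 5 (.s k41 k233 7 (.s k61 k21 5 (.d k193 k129 k149 7 13))))))] (.c
  k105 (.l (.s k1 k253 13 (.s k3 k2 0 (.s k65 k130 8 (.s k67 k131 7 (.s k66 k64 0 (.d k129 k193 k192
  7 8))))))) (.c k150 (.l (.s k1 k253 13 (.s k3 k2 0 (.s k67 k131 7 (.s k86 k252 14 (.s k105 k124 6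
  (.d k65 k125 k130 5 8))))))) .n))) (.c k150 (.l (.s k1 k253 13 (.s k3 k2 0 (.s k67 k131 7 (.s k86
  k252 14 (.s k105 k124 6 (.d k65 k125 k130 5 8))))))) (.c k187 (.q k136 [(.s k65 k130 8 (.s k105
  k125 5 (.s k233 k41 7 (.s k252 k214 6 (.s k84 k168 13 (.d k86 k87 k3 0 14)))))), (.s k1 k253 13
  (.s k3 k2 0 (.s k131 k67 7 (.s k150 k188 6 (.s k20 k215 8 (.d k60 k40 k105 5 14)))))), (.s k1 k253
  13 (.s k65 k130 8 (.s k105 k125 5 (.s k41 k233 7 (.s k61 k21 5 (.d k193 k129 k149 7 13))))))] (.c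
  k105 (.l (.s k1 k253 13 (.s k3 k2 0 (.s k65 k130 8 (.s k67 k131 7 (.s k66 k64 0 (.d k129 k193 k192
  7 8))))))) (.c k150 (.l (.s k1 k253 13 (.s k3 k2 0 (.s k67 k131 7 (.s k86 k252 14 (.s k105 k124 6
  (.d k65 k125 k130 5 8))))))) .n))) .n)))))

def s63_170_154 : T TT 256 :=
  (.q k211 [(.s k65 k130 8 (.s k243 k227 3 (.s k81 k162 12 (.s k97 k113 3 (.d k146 k16 k48 8
  12))))), (.s k65 k130 8 (.s k105 k125 5 (.s k150 k60 14 (.s k89 k28 10 (.s k81 k93 1 (.d k243 k227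
  k162 3 12)))))), (.s k243 k227 3 (.s k81 k162 12 (.s k89 k93 1 (.s k150 k28 10 (.s k20 k215 8 (.d
  k60 k40 k105 5 14)))))), (.s k65 k130 8 (.s k105 k125 5 (.s k150 k60 14 (.s k89 k28 10 (.s k81 k93
  1 (.s k97 k113 3 (.d k146 k16 k48 8 12)))))))] (.c k81 (.l (.s k65 k130 8 (.s k105 k125 5 (.s k150
  k60 14 (.s k89 k28 10 (.s k73 k121 3 (.s k12 k134 10 (.d k243 k227 k166 3 14)))))))) (.c k138 (.q
  k186 [(.s k243 k227 3 (.s k81 k162 12 (.s k146 k16 8 (.s k97 k48 12 (.d k65 k113 k130 3 8))))),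
  (.s k65 k130 8 (.s k105 k125 5 (.s k150 k60 14 (.s k89 k28 10 (.s k81 k93 1 (.d k243 k227 k162 3
  12)))))), (.s k65 k130 8 (.s k105 k125 5 (.s k150 k60 14 (.s k89 k28 10 (.s k81 k93 1 (.s k97 k113
  3 (.d k146 k16 k48 8 12))))))), (.s k243 k227 3 (.s k81 k162 12 (.s k89 k93 1 (.s k150 k28 10 (.s
  k20 k215 8 (.d k60 k40 k105 5 14))))))] (.c k81 (.l (.s k65 k130 8 (.s k105 k125 5 (.s k150 k60 14
  (.s k89 k28 10 (.s k73 k121 3 (.s k243 k227 3 (.d k12 k134 k166 10 14)))))))) .n)) (.c k150 (.l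
  (.s k243 k227 3 (.s k81 k162 12 (.s k146 k16 8 (.s k97 k48 12 (.d k65 k113 k130 3 8)))))) (.c k186
  (.q k138 [(.s k130 k65 8 (.s k134 k142 1 (.s k12 k73 10 (.s k4 k8 1 (.d k69 k199 k207 8 10))))),
  (.s k65 k130 8 (.s k243 k227 3 (.s k81 k162 12 (.s k97 k113 3 (.d k146 k16 k48 8 12))))), (.s k207
  k69 10 (.s k203 k199 1 (.s k243 k227 3 (.s k219 k231 5 (.s k215 k223 1 (.d k235 k251 k255 3
  5))))))] .n) .n)))))

def s63_170_155 : T TT 256 :=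
  (.q k1 [(.s k3 k2 0 (.s k131 k67 7 (.s k169 k253 13 (.s k150 k188 6 (.s k20 k215 8 (.d k60 k40
  k105 5 14)))))), (.s k65 k130 8 (.s k105 k125 5 (.s k169 k253 13 (.s k41 k233 7 (.s k61 k21 5 (.d
  k193 k129 k149 7 13)))))), (.s k3 k2 0 (.s k65 k130 8 (.s k67 k131 7 (.s k66 k64 0 (.d k129 k193
  k192 7 8)))))] (.c k150 (.l (.s k3 k2 0 (.s k67 k131 7 (.s k169 k253 13 (.s k86 k252 14 (.s k105
  k124 6 (.d k65 k125 k130 5 8))))))) .n))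

def s63_170_156 : T TT 256 :=
  (.q k1 [(.s k3 k2 0 (.s k65 k130 8 (.s k67 k131 7 (.s k66 k64 0 (.d k129 k193 k192 7 8))))), (.s
  k65 k130 8 (.s k105 k125 5 (.s k169 k253 13 (.s k41 k233 7 (.s k61 k21 5 (.d k193 k129 k149 7
  13)))))), (.s k3 k2 0 (.s k131 k67 7 (.s k169 k253 13 (.s k150 k188 6 (.s k20 k215 8 (.d k60 k40
  k105 5 14))))))] (.c k150 (.l (.s k3 k2 0 (.s k67 k131 7 (.s k169 k253 13 (.s k86 k252 14 (.s k105
  k124 6 (.d k65 k125 k130 5 8))))))) .n))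

def s63_170_157 : T TT 256 :=
  (.q k69 [(.s k65 k130 8 (.s k73 k77 1 (.s k12 k134 10 (.s k8 k4 1 (.d k138 k203 k207 8 10))))),
  (.s k65 k130 8 (.s k77 k73 1 (.s k101 k117 3 (.s k89 k113 5 (.s k93 k81 1 (.d k125 k109 k105 3
  5)))))), (.s k101 k117 3 (.s k207 k138 10 (.s k199 k203 1 (.s k150 k52 12 (.s k20 k215 8 (.d k60
  k40 k105 5 14))))))] (.c k73 (.l (.s k65 k130 8 (.s k101 k117 3 (.s k105 k125 5 (.s k97 k109 1 (.s
  k48 k146 12 (.d k207 k138 k154 10 14))))))) (.c k110 (.q k204 [(.s k65 k130 8 (.s k73 k77 1 (.s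
  k12 k134 10 (.s k8 k4 1 (.d k138 k203 k207 8 10))))), (.s k68 k136 9 (.s k70 k71 0 (.s k3 k137 10
  (.s k2 k1 0 (.d k138 k206 k207 9 10))))), (.s k65 k130 8 (.s k68 k136 9 (.s k70 k71 0 (.s k73 k77
  1 (.s k67 k76 2 (.d k3 k131 k137 7 10))))))] .n) (.c k150 (.l (.s k130 k65 8 (.s k138 k207 10 (.s
  k134 k142 1 (.s k4 k199 8 (.d k12 k8 k73 1 10)))))) (.c k204 (.q k110 [(.s k65 k130 8 (.s k73 k77
  1 (.s k12 k134 10 (.s k8 k4 1 (.d k138 k203 k207 8 10))))), (.s k65 k130 8 (.s k77 k73 1 (.s k101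
  k117 3 (.s k89 k113 5 (.s k93 k81 1 (.d k125 k109 k105 3 5)))))), (.s k101 k117 3 (.s k207 k138 10
  (.s k199 k203 1 (.s k150 k52 12 (.s k20 k215 8 (.d k60 k40 k105 5 14))))))] (.c k73 (.l (.s k65
  k130 8 (.s k101 k117 3 (.s k105 k125 5 (.s k97 k109 1 (.s k48 k146 12 (.d k207 k138 k154 10
  14))))))) (.c k150 (.l (.s k130 k65 8 (.s k138 k207 10 (.s k134 k142 1 (.s k4 k199 8 (.d k12 k8
  k73 1 10)))))) .n))) .n)))))

def s63_170_158 : T TT 256 :=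
  (.q k1 [(.s k3 k2 0 (.s k65 k130 8 (.s k67 k131 7 (.s k66 k64 0 (.d k129 k193 k192 7 8))))), (.s
  k65 k130 8 (.s k105 k125 5 (.s k169 k253 13 (.s k41 k233 7 (.s k61 k21 5 (.d k193 k129 k149 7
  13)))))), (.s k3 k2 0 (.s k131 k67 7 (.s k169 k253 13 (.s k150 k188 6 (.s k20 k215 8 (.d k60 k40
  k105 5 14))))))] (.c k150 (.l (.s k3 k2 0 (.s k67 k131 7 (.s k169 k253 13 (.s k86 k252 14 (.s k105
  k124 6 (.d k65 k125 k130 5 8))))))) .n))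

def s63_170_159 : T TT 256 :=
  (.q k207 [(.s k130 k65 8 (.s k138 k69 10 (.s k134 k142 1 (.s k73 k12 10 (.d k203 k199 k8 1 8))))),
  (.s k65 k130 8 (.s k105 k125 5 (.s k203 k199 1 (.s k154 k56 12 (.s k16 k223 10 (.d k48 k32 k101 3
  14)))))), (.s k65 k130 8 (.s k69 k138 10 (.s k101 k117 3 (.s k105 k125 5 (.s k97 k109 1 (.d k48
  k154 k146 14 12)))))), (.s k69 k138 10 (.s k101 k117 3 (.s k199 k203 1 (.s k150 k52 12 (.s k20
  k215 8 (.d k60 k40 k105 5 14))))))] .n)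

def s63_170_160 : T TT 256 :=
  (.q k203 [(.s k130 k65 8 (.s k207 k199 1 (.s k138 k69 10 (.s k134 k142 1 (.d k73 k8 k12 8 10))))),
  (.s k65 k130 8 (.s k105 k125 5 (.s k150 k60 14 (.s k154 k56 12 (.s k16 k223 10 (.s k48 k32 3 (.d
  k146 k158 k97 1 12))))))), (.s k207 k199 1 (.s k69 k138 10 (.s k101 k117 3 (.s k154 k48 14 (.s
  k105 k56 12 (.s k109 k97 1 (.d k60 k158 k150 12 14)))))))] (.c k165 (.q k175 [(.s k130 k65 8 (.s
  k207 k199 1 (.s k138 k69 10 (.s k134 k142 1 (.d k73 k8 k12 8 10))))), (.s k65 k130 8 (.s k105 k125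
  5 (.s k150 k60 14 (.s k154 k56 12 (.s k16 k223 10 (.s k48 k32 3 (.d k146 k158 k97 1 12))))))), (.s
  k207 k199 1 (.s k69 k138 10 (.s k101 k117 3 (.s k154 k48 14 (.s k105 k56 12 (.s k109 k97 1 (.d k60
  k158 k150 12 14)))))))] .n) (.c k175 (.q k165 [(.s k130 k65 8 (.s k207 k199 1 (.s k138 k69 10 (.s
  k134 k142 1 (.d k73 k8 k12 8 10))))), (.s k5 k245 11 (.s k15 k10 2 (.s k135 k75 9 (.s k150 k180 4
  (.s k20 k215 8 (.d k60 k40 k105 5 14))))))] .n) .n)))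

def s63_170_161 : T TT 256 :=
  (.q k1 [(.s k3 k2 0 (.s k131 k67 7 (.s k169 k253 13 (.s k150 k188 6 (.s k20 k215 8 (.d k60 k40
  k105 5 14)))))), (.s k65 k130 8 (.s k105 k125 5 (.s k169 k253 13 (.s k41 k233 7 (.s k61 k21 5 (.d
  k193 k129 k149 7 13)))))), (.s k3 k2 0 (.s k65 k130 8 (.s k67 k131 7 (.s k66 k64 0 (.d k129 k193
  k192 7 8)))))] (.c k150 (.l (.s k3 k2 0 (.s k67 k131 7 (.s k169 k253 13 (.s k86 k252 14 (.s k105
  k124 6 (.d k65 k125 k130 5 8))))))) .n))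

def s63_170_162 : T TT 256 :=
  (.q k166 [(.s k4 k247 12 (.s k12 k8 1 (.s k130 k65 8 (.s k134 k73 10 (.s k69 k199 8 (.d k138 k142
  k207 1 10)))))), (.s k65 k130 8 (.s k105 k125 5 (.s k150 k60 14 (.s k134 k182 3 (.s k12 k73 10 (.s
  k227 k44 10 (.d k243 k211 k89 3 14))))))), (.s k4 k247 12 (.s k12 k8 1 (.s k134 k73 10 (.s k150
  k182 3 (.s k20 k215 8 (.d k60 k40 k105 5 14)))))), (.s k4 k247 12 (.s k12 k8 1 (.s k65 k130 8 (.s
  k105 k125 5 (.s k44 k227 10 (.d k60 k150 k28 14 3))))))] (.c k12 (.f k4 k247 12 (.l (.s k65 k130 8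
  (.s k105 k125 5 (.s k150 k60 14 (.s k20 k215 8 (.s k52 k36 3 (.s k134 k182 3 (.d k199 k69 k101 8
  12))))))))) (.c k89 (.l (.s k4 k247 12 (.s k65 k130 8 (.s k105 k125 5 (.s k150 k60 14 (.s k134
  k182 3 (.d k12 k8 k73 1 10))))))) .n)))

def s63_170_163 : T TT 256 :=
  (.q k1 [(.s k3 k2 0 (.s k131 k67 7 (.s k169 k253 13 (.s k150 k188 6 (.s k20 k215 8 (.d k60 k40
  k105 5 14)))))), (.s k65 k130 8 (.s k105 k125 5 (.s k169 k253 13 (.s k41 k233 7 (.s k61 k21 5 (.d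
  k193 k129 k149 7 13)))))), (.s k3 k2 0 (.s k65 k130 8 (.s k67 k131 7 (.s k66 k64 0 (.d k129 k193
  k192 7 8)))))] (.c k150 (.l (.s k3 k2 0 (.s k67 k131 7 (.s k169 k253 13 (.s k86 k252 14 (.s k105
  k124 6 (.d k65 k125 k130 5 8))))))) .n))

def s63_170_164 : T TT 256 :=
  (.q k1 [(.s k3 k2 0 (.s k131 k67 7 (.s k169 k253 13 (.s k150 k188 6 (.s k20 k215 8 (.d k60 k40
  k105 5 14)))))), (.s k65 k130 8 (.s k105 k125 5 (.s k169 k253 13 (.s k41 k233 7 (.s k61 k21 5 (.d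
  k193 k129 k149 7 13)))))), (.s k3 k2 0 (.s k65 k130 8 (.s k67 k131 7 (.s k66 k64 0 (.d k129 k193
  k192 7 8)))))] (.c k150 (.l (.s k3 k2 0 (.s k67 k131 7 (.s k169 k253 13 (.s k86 k252 14 (.s k105
  k124 6 (.d k65 k125 k130 5 8))))))) .n))

def s63_170_165 : T TT 256 :=
  (.q k199 [(.s k207 k203 1 (.s k69 k138 10 (.s k134 k4 8 (.s k73 k12 10 (.d k65 k77 k130 1 8))))),
  (.s k65 k130 8 (.s k105 k125 5 (.s k150 k60 14 (.s k101 k52 12 (.s k69 k117 3 (.d k207 k203 k138 1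
  10)))))), (.s k65 k130 8 (.s k105 k125 5 (.s k150 k60 14 (.s k101 k52 12 (.s k69 k117 3 (.s k73
  k77 1 (.d k134 k4 k12 8 10))))))), (.s k207 k203 1 (.s k69 k138 10 (.s k101 k117 3 (.s k150 k52 12
  (.s k20 k215 8 (.d k60 k40 k105 5 14))))))] (.c k69 (.l (.s k65 k130 8 (.s k105 k125 5 (.s k150
  k60 14 (.s k101 k52 12 (.s k97 k109 1 (.s k48 k146 12 (.d k207 k203 k154 1 14)))))))) (.c k160 (.q
  k175 [(.s k207 k203 1 (.s k69 k138 10 (.s k134 k4 8 (.s k73 k12 10 (.d k65 k77 k130 1 8))))), (.s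
  k65 k130 8 (.s k105 k125 5 (.s k150 k60 14 (.s k101 k52 12 (.s k69 k117 3 (.d k207 k203 k138 1
  10)))))), (.s k65 k130 8 (.s k105 k125 5 (.s k150 k60 14 (.s k101 k52 12 (.s k69 k117 3 (.s k73
  k77 1 (.d k134 k4 k12 8 10))))))), (.s k207 k203 1 (.s k69 k138 10 (.s k101 k117 3 (.s k150 k52 12
  (.s k20 k215 8 (.d k60 k40 k105 5 14))))))] (.c k69 (.l (.s k65 k130 8 (.s k105 k125 5 (.s k150
  k60 14 (.s k101 k52 12 (.s k97 k109 1 (.s k48 k146 12 (.d k207 k203 k154 1 14)))))))) .n)) (.c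
  k175 (.q k160 [(.s k207 k203 1 (.s k69 k138 10 (.s k134 k4 8 (.s k73 k12 10 (.d k65 k77 k130 1
  8))))), (.s k207 k203 1 (.s k240 k80 11 (.s k225 k210 4 (.s k229 k218 6 (.s k214 k244 4 (.d k233
  k237 k252 1 6)))))), (.s k65 k130 8 (.s k105 k125 5 (.s k150 k60 14 (.s k101 k52 12 (.s k69 k117 3
  (.s k73 k77 1 (.d k134 k4 k12 8 10)))))))] .n) .n))))

def s63_170_166 : T TT 256 :=
  (.q k199 [(.s k65 k130 8 (.s k207 k203 1 (.s k69 k138 10 (.s k73 k77 1 (.d k134 k4 k12 8 10))))),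
  (.s k65 k130 8 (.s k105 k125 5 (.s k150 k60 14 (.s k101 k52 12 (.s k69 k117 3 (.d k207 k203 k138 1
  10)))))), (.s k207 k203 1 (.s k69 k138 10 (.s k101 k117 3 (.s k150 k52 12 (.s k20 k215 8 (.d k60
  k40 k105 5 14)))))), (.s k65 k130 8 (.s k105 k125 5 (.s k150 k60 14 (.s k101 k52 12 (.s k69 k117 3
  (.s k73 k77 1 (.d k134 k4 k12 8 10)))))))] (.c k69 (.l (.s k65 k130 8 (.s k105 k125 5 (.s k150 k60
  14 (.s k101 k52 12 (.s k97 k109 1 (.s k48 k146 12 (.d k207 k203 k154 1 14)))))))) (.c k150 (.l (.s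
  k207 k203 1 (.s k69 k138 10 (.s k134 k4 8 (.s k73 k12 10 (.d k65 k77 k130 1 8)))))) (.c k162 (.q
  k174 [(.s k207 k203 1 (.s k69 k138 10 (.s k134 k4 8 (.s k73 k12 10 (.d k65 k77 k130 1 8))))), (.s
  k65 k130 8 (.s k105 k125 5 (.s k150 k60 14 (.s k101 k52 12 (.s k69 k117 3 (.d k207 k203 k138 1
  10)))))), (.s k65 k130 8 (.s k105 k125 5 (.s k150 k60 14 (.s k101 k52 12 (.s k69 k117 3 (.s k73
  k77 1 (.d k134 k4 k12 8 10))))))), (.s k207 k203 1 (.s k69 k138 10 (.s k101 k117 3 (.s k150 k52 12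
  (.s k20 k215 8 (.d k60 k40 k105 5 14))))))] (.c k69 (.l (.s k65 k130 8 (.s k105 k125 5 (.s k150
  k60 14 (.s k101 k52 12 (.s k97 k109 1 (.s k207 k203 1 (.d k48 k146 k154 12 14)))))))) .n)) (.c
  k174 (.q k162 [(.s k130 k65 8 (.s k146 k178 3 (.s k48 k97 12 (.s k16 k32 3 (.d k81 k211 k243 8
  12))))), (.s k207 k203 1 (.s k69 k138 10 (.s k101 k117 3 (.s k150 k52 12 (.s k20 k215 8 (.d k60
  k40 k105 5 14)))))), (.s k65 k130 8 (.s k81 k243 12 (.s k97 k113 3 (.s k32 k227 8 (.d k48 k16 k146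
  3 12)))))] .n) .n)))))

def s63_170_167 : T TT 256 :=
  (.q k1 [(.s k3 k2 0 (.s k131 k67 7 (.s k169 k253 13 (.s k150 k188 6 (.s k20 k215 8 (.d k60 k40
  k105 5 14)))))), (.s k65 k130 8 (.s k105 k125 5 (.s k169 k253 13 (.s k41 k233 7 (.s k61 k21 5 (.d
  k193 k129 k149 7 13)))))), (.s k3 k2 0 (.s k65 k130 8 (.s k67 k131 7 (.s k66 k64 0 (.d k129 k193
  k192 7 8)))))] (.c k150 (.l (.s k3 k2 0 (.s k67 k131 7 (.s k169 k253 13 (.s k86 k252 14 (.s k105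
  k124 6 (.d k65 k125 k130 5 8))))))) .n))

def s63_170_168 : T TT 256 :=
  (.q k169 [(.s k1 k253 13 (.s k65 k130 8 (.s k105 k125 5 (.s k41 k233 7 (.s k61 k21 5 (.d k193 k129
  k149 7 13)))))), (.s k1 k253 13 (.s k3 k2 0 (.s k131 k67 7 (.s k150 k188 6 (.s k20 k215 8 (.d k60
  k40 k105 5 14)))))), (.s k65 k130 8 (.s k105 k125 5 (.s k150 k60 14 (.s k131 k188 6 (.s k3 k67 7
  (.s k233 k41 7 (.d k252 k214 k86 6 14)))))))] (.c k105 (.l (.s k1 k253 13 (.s k3 k2 0 (.s k65 k130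
  8 (.s k67 k131 7 (.s k66 k64 0 (.d k129 k193 k192 7 8))))))) (.c k150 (.l (.s k1 k253 13 (.s k3 k2
  0 (.s k67 k131 7 (.s k86 k252 14 (.s k105 k124 6 (.d k65 k125 k130 5 8))))))) .n)))

def s63_170_169 : T TT 256 :=
  (.q k97 [(.s k130 k65 8 (.s k146 k48 12 (.s k162 k178 3 (.s k243 k81 12 (.d k227 k211 k32 3
  8))))), (.s k48 k146 12 (.s k16 k32 3 (.s k154 k223 10 (.s k101 k207 14 (.s k105 k109 1 (.s k56
  k203 12 (.d k60 k52 k150 1 14))))))), (.s k65 k130 8 (.s k105 k125 5 (.s k101 k109 1 (.s k69 k117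
  3 (.s k77 k73 1 (.d k113 k81 k89 3 5))))))] (.c k168 (.q k171 [(.s k130 k65 8 (.s k146 k48 12 (.s
  k162 k178 3 (.s k243 k81 12 (.d k227 k211 k32 3 8))))), (.s k48 k146 12 (.s k16 k32 3 (.s k154
  k223 10 (.s k101 k207 14 (.s k105 k109 1 (.s k56 k203 12 (.d k60 k52 k150 1 14))))))), (.s k65
  k130 8 (.s k105 k125 5 (.s k101 k109 1 (.s k69 k117 3 (.s k77 k73 1 (.d k113 k81 k89 3 5))))))]
  .n) (.c k171 (.q k168 [(.s k130 k65 8 (.s k146 k48 12 (.s k162 k178 3 (.s k243 k81 12 (.d k227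
  k211 k32 3 8))))), (.s k48 k146 12 (.s k16 k32 3 (.s k84 k252 13 (.s k152 k220 9 (.s k136 k184 3
  (.d k204 k68 k100 9 13)))))), (.s k65 k130 8 (.s k105 k125 5 (.s k101 k109 1 (.s k69 k117 3 (.s
  k77 k73 1 (.d k113 k81 k89 3 5))))))] .n) .n)))

def s63_170_171 : T TT 256 :=
  (.q k169 [(.s k65 k130 8 (.s k105 k125 5 (.s k233 k41 7 (.s k252 k214 6 (.s k84 k168 13 (.d k86
  k87 k3 0 14)))))), (.s k1 k253 13 (.s k3 k2 0 (.s k131 k67 7 (.s k150 k188 6 (.s k20 k215 8 (.d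
  k60 k40 k105 5 14)))))), (.s k1 k253 13 (.s k65 k130 8 (.s k105 k125 5 (.s k41 k233 7 (.s k61 k21
  5 (.d k193 k129 k149 7 13))))))] (.c k105 (.l (.s k1 k253 13 (.s k3 k2 0 (.s k65 k130 8 (.s k67
  k131 7 (.s k66 k64 0 (.d k129 k193 k192 7 8))))))) (.c k150 (.l (.s k1 k253 13 (.s k3 k2 0 (.s k67
  k131 7 (.s k86 k252 14 (.s k105 k124 6 (.d k65 k125 k130 5 8))))))) .n)))

def s63_170_172 : T TT 256 :=
  (.q k1 [(.s k3 k2 0 (.s k65 k130 8 (.s k67 k131 7 (.s k66 k64 0 (.d k129 k193 k192 7 8))))), (.s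
  k65 k130 8 (.s k105 k125 5 (.s k169 k253 13 (.s k41 k233 7 (.s k61 k21 5 (.d k193 k129 k149 7
  13)))))), (.s k3 k2 0 (.s k131 k67 7 (.s k169 k253 13 (.s k150 k188 6 (.s k20 k215 8 (.d k60 k40
  k105 5 14))))))] (.c k150 (.l (.s k3 k2 0 (.s k67 k131 7 (.s k169 k253 13 (.s k86 k252 14 (.s k105
  k124 6 (.d k65 k125 k130 5 8))))))) .n))

def s63_170_173 : T TT 256 :=
  (.q k1 [(.s k3 k2 0 (.s k65 k130 8 (.s k67 k131 7 (.s k66 k64 0 (.d k129 k193 k192 7 8))))), (.s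
  k65 k130 8 (.s k105 k125 5 (.s k169 k253 13 (.s k41 k233 7 (.s k61 k21 5 (.d k193 k129 k149 7
  13)))))), (.s k3 k2 0 (.s k131 k67 7 (.s k169 k253 13 (.s k150 k188 6 (.s k20 k215 8 (.d k60 k40
  k105 5 14))))))] (.c k150 (.l (.s k3 k2 0 (.s k67 k131 7 (.s k169 k253 13 (.s k86 k252 14 (.s k105
  k124 6 (.d k65 k125 k130 5 8))))))) .n))

def s63_170_174 : T TT 256 :=
  (.q k166 [(.s k4 k247 12 (.s k12 k8 1 (.s k65 k130 8 (.s k105 k125 5 (.s k44 k227 10 (.d k60 k150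
  k28 14 3)))))), (.s k4 k247 12 (.s k12 k8 1 (.s k130 k65 8 (.s k134 k73 10 (.s k69 k199 8 (.d k138
  k142 k207 1 10)))))), (.s k65 k130 8 (.s k105 k125 5 (.s k227 k44 10 (.s k243 k211 3 (.s k81 k162
  12 (.d k89 k93 k12 1 14)))))), (.s k4 k247 12 (.s k12 k8 1 (.s k134 k73 10 (.s k150 k182 3 (.s k20
  k215 8 (.d k60 k40 k105 5 14))))))] (.c k12 (.f k4 k247 12 (.l (.s k65 k130 8 (.s k105 k125 5 (.s
  k150 k60 14 (.s k20 k215 8 (.s k52 k36 3 (.s k134 k182 3 (.d k199 k69 k101 8 12))))))))) (.c k89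
  (.l (.s k4 k247 12 (.s k65 k130 8 (.s k105 k125 5 (.s k150 k60 14 (.s k134 k182 3 (.d k12 k8 k73 1
  10))))))) .n)))

def s63_170_175 : T TT 256 :=
  (.q k199 [(.s k207 k203 1 (.s k69 k138 10 (.s k134 k4 8 (.s k73 k12 10 (.d k65 k77 k130 1 8))))),
  (.s k65 k130 8 (.s k105 k125 5 (.s k150 k60 14 (.s k101 k52 12 (.s k69 k117 3 (.d k207 k203 k138 1
  10)))))), (.s k65 k130 8 (.s k105 k125 5 (.s k150 k60 14 (.s k101 k52 12 (.s k69 k117 3 (.s k73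
  k77 1 (.d k134 k4 k12 8 10))))))), (.s k207 k203 1 (.s k69 k138 10 (.s k101 k117 3 (.s k150 k52 12
  (.s k20 k215 8 (.d k60 k40 k105 5 14))))))] (.c k69 (.l (.s k65 k130 8 (.s k105 k125 5 (.s k150
  k60 14 (.s k101 k52 12 (.s k97 k109 1 (.s k48 k146 12 (.d k207 k203 k154 1 14)))))))) (.c k160 (.q
  k165 [(.s k5 k245 11 (.s k15 k10 2 (.s k135 k75 9 (.s k150 k180 4 (.s k20 k215 8 (.d k60 k40 k105
  5 14)))))), (.s k207 k203 1 (.s k69 k138 10 (.s k134 k4 8 (.s k73 k12 10 (.d k65 k77 k130 1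
  8)))))] .n) (.c k165 (.q k160 [(.s k207 k203 1 (.s k69 k138 10 (.s k134 k4 8 (.s k73 k12 10 (.d
  k65 k77 k130 1 8))))), (.s k207 k203 1 (.s k240 k80 11 (.s k225 k210 4 (.s k229 k218 6 (.s k214
  k244 4 (.d k233 k237 k252 1 6)))))), (.s k65 k130 8 (.s k105 k125 5 (.s k150 k60 14 (.s k101 k52
  12 (.s k69 k117 3 (.s k73 k77 1 (.d k134 k4 k12 8 10)))))))] .n) .n))))

def s63_170_176 : T TT 256 :=
  (.q k1 [(.s k65 k130 8 (.s k105 k125 5 (.s k169 k253 13 (.s k41 k233 7 (.s k61 k21 5 (.d k193 k129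
  k149 7 13)))))), (.s k3 k2 0 (.s k131 k67 7 (.s k169 k253 13 (.s k150 k188 6 (.s k20 k215 8 (.d
  k60 k40 k105 5 14)))))), (.s k3 k2 0 (.s k65 k130 8 (.s k67 k131 7 (.s k66 k64 0 (.d k129 k193
  k192 7 8)))))] (.c k150 (.l (.s k3 k2 0 (.s k67 k131 7 (.s k169 k253 13 (.s k86 k252 14 (.s k105
  k124 6 (.d k65 k125 k130 5 8))))))) .n))

def s63_170_177 : T TT 256 :=
  (.q k1 [(.s k3 k2 0 (.s k131 k67 7 (.s k169 k253 13 (.s k150 k188 6 (.s k20 k215 8 (.d k60 k40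
  k105 5 14)))))), (.s k65 k130 8 (.s k105 k125 5 (.s k169 k253 13 (.s k41 k233 7 (.s k61 k21 5 (.d
  k193 k129 k149 7 13)))))), (.s k3 k2 0 (.s k65 k130 8 (.s k67 k131 7 (.s k66 k64 0 (.d k129 k193
  k192 7 8)))))] (.c k150 (.l (.s k3 k2 0 (.s k67 k131 7 (.s k169 k253 13 (.s k86 k252 14 (.s k105
  k124 6 (.d k65 k125 k130 5 8))))))) .n))

def s63_170_178 : T TT 256 :=
  (.q k1 [(.s k3 k2 0 (.s k131 k67 7 (.s k169 k253 13 (.s k150 k188 6 (.s k20 k215 8 (.d k60 k40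
  k105 5 14)))))), (.s k65 k130 8 (.s k105 k125 5 (.s k169 k253 13 (.s k41 k233 7 (.s k61 k21 5 (.d
  k193 k129 k149 7 13)))))), (.s k3 k2 0 (.s k65 k130 8 (.s k67 k131 7 (.s k66 k64 0 (.d k129 k193
  k192 7 8)))))] (.c k150 (.l (.s k3 k2 0 (.s k67 k131 7 (.s k169 k253 13 (.s k86 k252 14 (.s k105
  k124 6 (.d k65 k125 k130 5 8))))))) .n))

def s63_170_179 : T TT 256 :=
  (.q k1 [(.s k65 k130 8 (.s k105 k125 5 (.s k169 k253 13 (.s k41 k233 7 (.s k61 k21 5 (.d k193 k129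
  k149 7 13)))))), (.s k3 k2 0 (.s k131 k67 7 (.s k169 k253 13 (.s k150 k188 6 (.s k20 k215 8 (.d
  k60 k40 k105 5 14)))))), (.s k3 k2 0 (.s k65 k130 8 (.s k67 k131 7 (.s k66 k64 0 (.d k129 k193
  k192 7 8)))))] (.c k150 (.l (.s k3 k2 0 (.s k67 k131 7 (.s k169 k253 13 (.s k86 k252 14 (.s k105
  k124 6 (.d k65 k125 k130 5 8))))))) .n))

def s63_170_180 : T TT 256 :=
  (.q k1 [(.s k3 k2 0 (.s k65 k130 8 (.s k67 k131 7 (.s k66 k64 0 (.d k129 k193 k192 7 8))))), (.s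
  k65 k130 8 (.s k105 k125 5 (.s k169 k253 13 (.s k41 k233 7 (.s k61 k21 5 (.d k193 k129 k149 7
  13)))))), (.s k3 k2 0 (.s k131 k67 7 (.s k169 k253 13 (.s k150 k188 6 (.s k20 k215 8 (.d k60 k40
  k105 5 14))))))] (.c k150 (.l (.s k3 k2 0 (.s k67 k131 7 (.s k169 k253 13 (.s k86 k252 14 (.s k105
  k124 6 (.d k65 k125 k130 5 8))))))) .n))

def s63_170_181 : T TT 256 :=
  (.q k243 [(.s k130 k65 8 (.s k162 k81 12 (.s k146 k178 3 (.s k97 k48 12 (.d k227 k211 k32 3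
  8))))), (.s k65 k130 8 (.s k105 k125 5 (.s k227 k211 3 (.s k166 k44 10 (.s k4 k247 12 (.d k12 k8
  k89 1 14)))))), (.s k65 k130 8 (.s k81 k162 12 (.s k89 k93 1 (.s k105 k125 5 (.s k73 k121 3 (.d
  k12 k166 k134 14 10)))))), (.s k81 k162 12 (.s k89 k93 1 (.s k211 k227 3 (.s k150 k28 10 (.s k20
  k215 8 (.d k60 k40 k105 5 14))))))] (.c k122 (.q k240 [(.s k210 k225 4 (.s k211 k227 3 (.s k209
  k208 0 (.s k226 k192 4 (.d k242 k241 k194 0 3))))), (.s k65 k130 8 (.s k81 k162 12 (.s k97 k113 3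
  (.s k146 k48 12 (.d k211 k227 k16 3 8))))), (.s k80 k160 11 (.s k81 k162 12 (.s k82 k83 0 (.s k161
  k3 12 (.d k241 k242 k1 0 11)))))] .n) (.c k240 (.q k122 [(.s k65 k130 8 (.s k105 k125 5 (.s k227
  k211 3 (.s k166 k44 10 (.s k4 k247 12 (.d k12 k8 k89 1 14)))))), (.s k130 k65 8 (.s k162 k81 12
  (.s k146 k178 3 (.s k97 k48 12 (.d k227 k211 k32 3 8))))), (.s k65 k130 8 (.s k81 k162 12 (.s k89
  k93 1 (.s k105 k125 5 (.s k73 k121 3 (.d k12 k166 k134 14 10)))))), (.s k81 k162 12 (.s k89 k93 1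
  (.s k211 k227 3 (.s k150 k28 10 (.s k20 k215 8 (.d k60 k40 k105 5 14))))))] .n) .n)))

def s63_170_182 : T TT 256 :=
  (.q k1 [(.s k3 k2 0 (.s k65 k130 8 (.s k67 k131 7 (.s k66 k64 0 (.d k129 k193 k192 7 8))))), (.s
  k65 k130 8 (.s k105 k125 5 (.s k169 k253 13 (.s k41 k233 7 (.s k61 k21 5 (.d k193 k129 k149 7
  13)))))), (.s k3 k2 0 (.s k131 k67 7 (.s k169 k253 13 (.s k150 k188 6 (.s k20 k215 8 (.d k60 k40
  k105 5 14))))))] (.c k150 (.l (.s k3 k2 0 (.s k67 k131 7 (.s k169 k253 13 (.s k86 k252 14 (.s k105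
  k124 6 (.d k65 k125 k130 5 8))))))) .n))

def s63_170_183 : T TT 256 :=
  (.q k243 [(.s k130 k65 8 (.s k162 k81 12 (.s k146 k178 3 (.s k97 k48 12 (.d k227 k211 k32 3
  8))))), (.s k65 k130 8 (.s k105 k125 5 (.s k227 k211 3 (.s k166 k44 10 (.s k4 k247 12 (.d k12 k8
  k89 1 14)))))), (.s k65 k130 8 (.s k81 k162 12 (.s k89 k93 1 (.s k105 k125 5 (.s k73 k121 3 (.d
  k12 k166 k134 14 10)))))), (.s k81 k162 12 (.s k89 k93 1 (.s k211 k227 3 (.s k150 k28 10 (.s k20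
  k215 8 (.d k60 k40 k105 5 14))))))] .n)

def s63_170_184 : T TT 256 :=
  (.q k1 [(.s k3 k2 0 (.s k65 k130 8 (.s k67 k131 7 (.s k66 k64 0 (.d k129 k193 k192 7 8))))), (.s
  k65 k130 8 (.s k105 k125 5 (.s k169 k253 13 (.s k41 k233 7 (.s k61 k21 5 (.d k193 k129 k149 7
  13)))))), (.s k3 k2 0 (.s k131 k67 7 (.s k169 k253 13 (.s k150 k188 6 (.s k20 k215 8 (.d k60 k40
  k105 5 14))))))] (.c k150 (.l (.s k3 k2 0 (.s k67 k131 7 (.s k169 k253 13 (.s k86 k252 14 (.s k105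
  k124 6 (.d k65 k125 k130 5 8))))))) .n))

def s63_170_185 : T TT 256 :=
  (.q k1 [(.s k3 k2 0 (.s k65 k130 8 (.s k67 k131 7 (.s k66 k64 0 (.d k129 k193 k192 7 8))))), (.s
  k65 k130 8 (.s k105 k125 5 (.s k169 k253 13 (.s k41 k233 7 (.s k61 k21 5 (.d k193 k129 k149 7
  13)))))), (.s k3 k2 0 (.s k131 k67 7 (.s k169 k253 13 (.s k150 k188 6 (.s k20 k215 8 (.d k60 k40
  k105 5 14))))))] (.c k150 (.l (.s k3 k2 0 (.s k67 k131 7 (.s k169 k253 13 (.s k86 k252 14 (.s k105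
  k124 6 (.d k65 k125 k130 5 8))))))) .n))

def s63_170_186 : T TT 256 :=
  (.q k154 [(.s k16 k223 10 (.s k48 k32 3 (.s k65 k130 8 (.s k105 k125 5 (.s k56 k203 12 (.d k60
  k150 k52 14 1)))))), (.s k16 k223 10 (.s k48 k32 3 (.s k130 k65 8 (.s k146 k97 12 (.s k81 k211 8
  (.d k162 k178 k243 3 12)))))), (.s k65 k130 8 (.s k105 k125 5 (.s k203 k56 12 (.s k207 k199 1 (.s
  k69 k138 10 (.d k101 k117 k48 3 14)))))), (.s k16 k223 10 (.s k48 k32 3 (.s k146 k97 12 (.s k150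
  k158 1 (.s k20 k215 8 (.d k60 k40 k105 5 14))))))] (.c k48 (.f k16 k223 10 (.l (.s k65 k130 8 (.s
  k105 k125 5 (.s k150 k60 14 (.s k20 k215 8 (.s k28 k24 1 (.s k146 k158 1 (.d k211 k81 k89 8
  10))))))))) (.c k101 (.l (.s k16 k223 10 (.s k65 k130 8 (.s k105 k125 5 (.s k150 k60 14 (.s k146
  k158 1 (.d k48 k32 k97 3 12))))))) .n)))

def s63_170_187 : T TT 256 :=
  (.q k227 [(.s k130 k65 8 (.s k243 k211 3 (.s k162 k81 12 (.s k146 k178 3 (.d k97 k32 k48 8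
  12))))), (.s k65 k130 8 (.s k105 k125 5 (.s k150 k60 14 (.s k166 k44 10 (.s k4 k247 12 (.s k12 k8
  1 (.d k134 k182 k73 3 10))))))), (.s k243 k211 3 (.s k81 k162 12 (.s k89 k93 1 (.s k166 k12 14 (.s
  k105 k44 10 (.s k121 k73 3 (.d k60 k182 k150 10 14)))))))] (.c k136 (.q k153 [(.s k130 k65 8 (.s
  k243 k211 3 (.s k162 k81 12 (.s k146 k178 3 (.d k97 k32 k48 8 12))))), (.s k17 k221 9 (.s k51 k34
  4 (.s k147 k99 11 (.s k150 k156 2 (.s k20 k215 8 (.d k60 k40 k105 5 14))))))] .n) (.c k153 (.q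
  k136 [(.s k130 k65 8 (.s k243 k211 3 (.s k162 k81 12 (.s k146 k178 3 (.d k97 k32 k48 8 12))))),
  (.s k204 k68 9 (.s k198 k201 2 (.s k243 k211 3 (.s k230 k217 6 (.s k214 k246 3 (.d k233 k236 k252
  2 6)))))), (.s k65 k130 8 (.s k105 k125 5 (.s k150 k60 14 (.s k166 k44 10 (.s k4 k247 12 (.s k12
  k8 1 (.d k134 k182 k73 3 10)))))))] .n) .n)))

def s63_170_188 : T TT 256 :=
  (.q k12 [(.s k4 k8 1 (.s k130 k65 8 (.s k134 k73 10 (.s k69 k199 8 (.d k138 k142 k207 1 10))))),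
  (.s k4 k8 1 (.s k65 k130 8 (.s k105 k125 5 (.s k166 k247 12 (.s k44 k227 10 (.d k60 k150 k28 14
  3)))))), (.s k65 k130 8 (.s k73 k134 10 (.s k105 k125 5 (.s k89 k121 3 (.s k81 k93 1 (.d k243 k162
  k166 12 14)))))), (.s k4 k8 1 (.s k134 k73 10 (.s k166 k247 12 (.s k150 k182 3 (.s k20 k215 8 (.d
  k60 k40 k105 5 14))))))] (.c k89 (.l (.s k8 k4 1 (.s k65 k130 8 (.s k73 k134 10 (.s k69 k77 1 (.d
  k138 k203 k207 8 10)))))) .n))

def s63_170_189 : T TT 256 :=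
  (.q k101 [(.s k65 k130 8 (.s k69 k117 3 (.s k73 k77 1 (.s k12 k134 10 (.s k8 k4 1 (.d k138 k203
  k207 8 10)))))), (.s k65 k130 8 (.s k105 k125 5 (.s k97 k109 1 (.s k48 k146 12 (.s k16 k32 3 (.d
  k154 k223 k207 10 14)))))), (.s k69 k117 3 (.s k207 k138 10 (.s k199 k203 1 (.s k150 k52 12 (.s
  k20 k215 8 (.d k60 k40 k105 5 14))))))] (.c k126 (.q k252 [(.s k65 k130 8 (.s k69 k117 3 (.s k73
  k77 1 (.s k12 k134 10 (.s k8 k4 1 (.d k138 k203 k207 8 10)))))), (.s k69 k117 3 (.s k84 k168 13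
  (.s k86 k87 0 (.s k71 k116 4 (.s k207 k138 10 (.d k3 k169 k139 14 9)))))), (.s k65 k130 8 (.s k84
  k168 13 (.s k86 k87 0 (.s k105 k125 5 (.s k124 k67 6 (.d k60 k150 k188 14 7))))))] .n) (.c k150
  (.l (.s k69 k117 3 (.s k130 k65 8 (.s k138 k207 10 (.s k134 k142 1 (.s k4 k199 8 (.d k12 k8 k73 1
  10))))))) (.c k207 (.l (.s k65 k130 8 (.s k69 k117 3 (.s k77 k73 1 (.s k89 k113 5 (.s k93 k81 1
  (.d k125 k109 k105 3 5))))))) (.c k252 (.q k126 [(.s k65 k130 8 (.s k69 k117 3 (.s k73 k77 1 (.s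
  k12 k134 10 (.s k8 k4 1 (.d k138 k203 k207 8 10)))))), (.s k65 k130 8 (.s k105 k125 5 (.s k97 k109
  1 (.s k48 k146 12 (.s k16 k32 3 (.d k154 k223 k207 10 14)))))), (.s k69 k117 3 (.s k207 k138 10
  (.s k199 k203 1 (.s k150 k52 12 (.s k20 k215 8 (.d k60 k40 k105 5 14))))))] (.c k150 (.l (.s k69
  k117 3 (.s k130 k65 8 (.s k138 k207 10 (.s k134 k142 1 (.s k4 k199 8 (.d k12 k8 k73 1 10)))))))
  (.c k207 (.l (.s k65 k130 8 (.s k69 k117 3 (.s k77 k73 1 (.s k89 k113 5 (.s k93 k81 1 (.d k125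
  k109 k105 3 5))))))) .n))) .n)))))

def s63_170_190 : T TT 256 :=
  (.f k130 k65 8 (.q k81 [(.s k162 k243 12 (.s k146 k178 3 (.s k16 k211 8 (.d k48 k32 k97 3 12)))),
  (.s k89 k93 1 (.s k243 k162 12 (.s k211 k227 3 (.s k150 k28 10 (.s k20 k215 8 (.d k60 k40 k105 5
  14)))))), (.s k89 k93 1 (.s k162 k243 12 (.s k146 k178 3 (.s k211 k16 8 (.s k150 k28 10 (.s k20
  k215 8 (.d k60 k40 k105 5 14)))))))] (.c k162 (.f k89 k93 1 (.q k12 [(.s k4 k8 1 (.d k166 k247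
  k243 12 14)), (.s k73 k134 10 (.s k105 k121 3 (.s k60 k150 14 (.s k44 k28 3 (.d k166 k227 k243 10
  14)))))] (.c k166 (.q k174 [(.s k4 k8 1 (.s k134 k73 10 (.s k69 k199 8 (.d k138 k142 k207 1
  10)))), (.s k73 k134 10 (.s k105 k121 3 (.s k150 k60 14 (.s k211 k28 10 (.s k16 k146 8 (.s k215
  k20 8 (.d k223 k219 k154 1 10)))))))] (.c k73 (.q k101 [(.s k69 k117 3 (.s k77 k113 5 (.d k207
  k142 k138 8 10))), (.s k4 k8 1 (.s k69 k117 3 (.s k199 k134 8 (.s k150 k52 12 (.s k20 k215 8 (.d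
  k60 k40 k105 5 14)))))), (.s k8 k4 1 (.s k77 k113 5 (.s k207 k142 8 (.s k154 k48 14 (.s k24 k219 8
  (.s k56 k40 3 (.d k203 k105 k199 12 1)))))))] (.c k69 (.l (.s k77 k113 5 (.s k207 k142 8 (.s k199
  k203 1 (.s k150 k52 12 (.s k20 k215 8 (.d k60 k40 k105 5 14))))))) (.c k77 (.l (.s k69 k117 3 (.s
  k4 k8 1 (.s k134 k199 8 (.d k138 k142 k207 1 10))))) .n))) (.c k134 (.q k150 [(.s k20 k215 8 (.d
  k60 k40 k105 5 14)), (.s k28 k211 10 (.d k60 k44 k105 3 14)), (.s k211 k28 10 (.s k16 k146 8 (.s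
  k215 k20 8 (.d k223 k219 k154 1 10))))] .n) .n))) (.c k174 (.l (.s k166 k243 14 (.d k4 k8 k247 1
  12))) (.c k243 (.l (.s k4 k8 1 (.s k134 k73 10 (.s k69 k199 8 (.d k138 k142 k207 1 10))))) .n)))))
  (.c k211 (.q k1 [(.s k89 k93 1 (.s k169 k253 13 (.s k9 k249 11 (.s k13 k5 1 (.d k241 k161 k165 11
  13))))), (.s k3 k2 0 (.s k131 k67 7 (.s k161 k241 11 (.s k146 k176 4 (.d k162 k178 k243 3 12))))),
  (.s k3 k2 0 (.s k89 k93 1 (.s k169 k253 13 (.s k86 k252 14 (.s k83 k92 2 (.d k243 k163 k162 11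
  12))))))] .n) (.c k243 (.f k89 k93 1 (.q k80 [(.s k83 k82 0 (.s k86 k92 2 (.s k87 k84 0 (.d k95
  k91 k90 1 2)))), (.s k82 k83 0 (.s k240 k160 11 (.s k210 k225 4 (.s k146 k18 7 (.s k16 k211 8 (.d
  k48 k32 k97 3 12)))))), (.s k90 k95 2 (.s k240 k160 11 (.s k210 k225 4 (.s k150 k30 9 (.s k20 k215
  8 (.d k60 k40 k105 5 14))))))] (.c k123 (.q k183 [(.s k83 k82 0 (.s k86 k92 2 (.s k87 k84 0 (.d
  k95 k91 k90 1 2)))), (.s k82 k83 0 (.s k240 k160 11 (.s k210 k225 4 (.s k146 k18 7 (.s k16 k211 8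
  (.d k48 k32 k97 3 12)))))), (.s k90 k95 2 (.s k240 k160 11 (.s k210 k225 4 (.s k150 k30 9 (.s k20
  k215 8 (.d k60 k40 k105 5 14))))))] .n) (.c k183 (.q k123 [(.s k83 k82 0 (.s k86 k92 2 (.s k87 k84
  0 (.d k95 k91 k90 1 2)))), (.s k82 k83 0 (.s k240 k160 11 (.s k210 k225 4 (.s k146 k18 7 (.s k16
  k211 8 (.d k48 k32 k97 3 12)))))), (.s k90 k95 2 (.s k91 k88 0 (.s k75 k107 3 (.s k15 k135 9 (.d
  k240 k160 k165 11 14)))))] .n) .n)))) .n)))))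

def s63_170_191 : T TT 256 :=
  (.q k211 [(.s k243 k227 3 (.s k81 k162 12 (.s k146 k16 8 (.s k97 k48 12 (.d k65 k113 k130 3
  8))))), (.s k65 k130 8 (.s k105 k125 5 (.s k150 k60 14 (.s k89 k28 10 (.s k81 k93 1 (.d k243 k227
  k162 3 12)))))), (.s k65 k130 8 (.s k105 k125 5 (.s k150 k60 14 (.s k89 k28 10 (.s k81 k93 1 (.s
  k97 k113 3 (.d k146 k16 k48 8 12))))))), (.s k243 k227 3 (.s k81 k162 12 (.s k89 k93 1 (.s k150
  k28 10 (.s k20 k215 8 (.d k60 k40 k105 5 14))))))] (.c k81 (.l (.s k65 k130 8 (.s k105 k125 5 (.s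
  k150 k60 14 (.s k89 k28 10 (.s k73 k121 3 (.s k12 k134 10 (.d k243 k227 k166 3 14)))))))) (.c k127
  (.q k255 [(.s k65 k130 8 (.s k215 k235 5 (.s k150 k20 8 (.d k105 k125 k60 5 14)))), (.s k65 k130 8
  (.s k243 k227 3 (.s k81 k162 12 (.s k97 k113 3 (.d k146 k16 k48 8 12))))), (.s k215 k235 5 (.s
  k219 k223 1 (.s k243 k227 3 (.s k231 k207 5 (.d k247 k251 k199 1 3)))))] (.c k128 (.q k149 [(.s
  k215 k235 5 (.s k150 k20 8 (.s k105 k60 14 (.d k65 k125 k130 5 8)))), (.s k65 k130 8 (.s k243 k227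
  3 (.s k81 k162 12 (.s k97 k113 3 (.d k146 k16 k48 8 12))))), (.s k215 k235 5 (.s k150 k20 8 (.s
  k89 k28 10 (.s k81 k93 1 (.d k243 k227 k162 3 12)))))] (.c k150 (.l (.s k213 k21 7 (.s k192 k234 6
  (.s k193 k194 0 (.s k105 k61 13 (.d k65 k125 k130 5 8)))))) .n)) (.c k149 (.q k128 [(.s k65 k130 8
  (.s k215 k235 5 (.s k150 k20 8 (.d k105 k125 k60 5 14)))), (.s k130 k65 8 (.s k129 k131 0 (.s k192
  k64 7 (.s k66 k3 8 (.d k194 k193 k2 0 7))))), (.s k215 k235 5 (.s k150 k20 8 (.s k89 k28 10 (.s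
  k81 k93 1 (.d k243 k227 k162 3 12)))))] (.c k106 (.l (.s k192 k64 7 (.s k65 k130 8 (.s k105 k125 5
  (.s k150 k60 14 (.d k215 k235 k20 5 8)))))) (.c k192 (.q k106 [(.s k65 k130 8 (.s k215 k235 5 (.s
  k150 k20 8 (.d k105 k125 k60 5 14)))), (.s k65 k130 8 (.s k243 k227 3 (.s k81 k162 12 (.s k97 k113
  3 (.d k146 k16 k48 8 12))))), (.s k215 k235 5 (.s k219 k223 1 (.s k243 k227 3 (.s k231 k207 5 (.d
  k247 k251 k199 1 3)))))] .n) .n))) .n))) (.c k128 (.q k149 [(.s k243 k227 3 (.s k81 k162 12 (.s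
  k146 k16 8 (.s k97 k48 12 (.d k65 k113 k130 3 8))))), (.s k65 k130 8 (.s k105 k125 5 (.s k193 k61
  13 (.s k213 k21 7 (.s k253 k233 5 (.d k1 k129 k169 7 13)))))), (.s k243 k227 3 (.s k81 k162 12 (.s
  k89 k93 1 (.s k150 k28 10 (.s k20 k215 8 (.d k60 k40 k105 5 14))))))] (.c k127 (.q k255 [(.s k215
  k235 5 (.s k150 k20 8 (.s k105 k60 14 (.d k65 k125 k130 5 8)))), (.s k65 k130 8 (.s k243 k227 3
  (.s k81 k162 12 (.s k97 k113 3 (.d k146 k16 k48 8 12))))), (.s k215 k235 5 (.s k150 k20 8 (.s k89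
  k28 10 (.s k81 k93 1 (.d k243 k227 k162 3 12)))))] (.c k150 (.l (.s k213 k21 7 (.s k192 k234 6 (.s
  k193 k194 0 (.s k105 k61 13 (.d k65 k125 k130 5 8)))))) .n)) (.c k255 (.q k127 [(.s k243 k227 3
  (.s k81 k162 12 (.s k146 k16 8 (.s k97 k48 12 (.d k65 k113 k130 3 8))))), (.s k64 k106 6 (.s k65
  k130 8 (.s k67 k66 0 (.s k87 k107 5 (.s k86 k84 0 (.d k105 k125 k124 5 6)))))), (.s k243 k227 3
  (.s k81 k162 12 (.s k89 k93 1 (.s k150 k28 10 (.s k20 k215 8 (.d k60 k40 k105 5 14))))))] .n)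
  .n))) (.c k149 (.q k128 [(.s k130 k65 8 (.s k129 k131 0 (.s k192 k64 7 (.s k66 k3 8 (.d k194 k193
  k2 0 7))))), (.s k65 k130 8 (.s k243 k227 3 (.s k81 k162 12 (.s k97 k113 3 (.d k146 k16 k48 8
  12))))), (.s k192 k64 7 (.s k193 k194 0 (.s k243 k227 3 (.s k209 k226 4 (.s k210 k208 0 (.d k225
  k241 k240 3 4))))))] (.c k106 (.l (.s k192 k64 7 (.s k130 k65 8 (.s k129 k131 0 (.s k66 k3 8 (.d
  k194 k193 k2 0 7)))))) (.c k127 (.q k255 [(.s k65 k130 8 (.s k215 k235 5 (.s k150 k20 8 (.d k105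
  k125 k60 5 14)))), (.s k130 k65 8 (.s k129 k131 0 (.s k192 k64 7 (.s k66 k3 8 (.d k194 k193 k2 0
  7))))), (.s k215 k235 5 (.s k150 k20 8 (.s k89 k28 10 (.s k81 k93 1 (.d k243 k227 k162 3 12)))))]
  (.c k106 (.l (.s k192 k64 7 (.s k65 k130 8 (.s k105 k125 5 (.s k150 k60 14 (.d k215 k235 k20 5
  8)))))) (.c k192 (.q k106 [(.s k65 k130 8 (.s k215 k235 5 (.s k150 k20 8 (.d k105 k125 k60 5
  14)))), (.s k65 k130 8 (.s k243 k227 3 (.s k81 k162 12 (.s k97 k113 3 (.d k146 k16 k48 8 12))))),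
  (.s k215 k235 5 (.s k219 k223 1 (.s k243 k227 3 (.s k231 k207 5 (.d k247 k251 k199 1 3)))))] .n)
  .n))) (.c k192 (.q k106 [(.s k65 k130 8 (.s k243 k227 3 (.s k81 k162 12 (.s k97 k113 3 (.d k146
  k16 k48 8 12))))), (.s k65 k130 8 (.s k105 k125 5 (.s k150 k60 14 (.s k89 k28 10 (.s k81 k93 1 (.d
  k243 k227 k162 3 12)))))), (.s k243 k227 3 (.s k81 k162 12 (.s k89 k93 1 (.s k150 k28 10 (.s k20
  k215 8 (.d k60 k40 k105 5 14)))))), (.s k65 k130 8 (.s k105 k125 5 (.s k150 k60 14 (.s k89 k28 10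
  (.s k81 k93 1 (.s k97 k113 3 (.d k146 k16 k48 8 12)))))))] (.c k81 (.l (.s k65 k130 8 (.s k105
  k125 5 (.s k150 k60 14 (.s k89 k28 10 (.s k73 k121 3 (.s k12 k134 10 (.d k243 k227 k166 3
  14)))))))) (.c k127 (.q k255 [(.s k65 k130 8 (.s k215 k235 5 (.s k150 k20 8 (.d k105 k125 k60 5
  14)))), (.s k65 k130 8 (.s k243 k227 3 (.s k81 k162 12 (.s k97 k113 3 (.d k146 k16 k48 8 12))))),
  (.s k215 k235 5 (.s k219 k223 1 (.s k243 k227 3 (.s k231 k207 5 (.d k247 k251 k199 1 3)))))] .n)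
  (.c k150 (.l (.s k243 k227 3 (.s k81 k162 12 (.s k146 k16 8 (.s k97 k48 12 (.d k65 k113 k130 3
  8)))))) (.c k255 (.l (.s k127 k64 6 (.s k65 k130 8 (.s k243 k227 3 (.s k81 k162 12 (.s k97 k113 3
  (.d k146 k16 k48 8 12))))))) .n))))) (.c k255 (.q k127 [(.d k64 k106 k192 6 7)] (.c k64 (.l (.s
  k65 k130 8 (.s k243 k227 3 (.s k81 k162 12 (.s k97 k113 3 (.d k146 k16 k48 8 12)))))) (.c k106 (.l
  (.s k192 k64 7 (.s k130 k65 8 (.s k129 k131 0 (.s k66 k3 8 (.d k194 k193 k2 0 7)))))) (.c k192 (.l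
  (.s k106 k64 6 (.s k65 k130 8 (.s k243 k227 3 (.s k81 k162 12 (.s k97 k113 3 (.d k146 k16 k48 8
  12))))))) .n)))) .n))))) (.c k255 (.q k127 [(.s k65 k130 8 (.s k243 k227 3 (.s k81 k162 12 (.s k97
  k113 3 (.d k146 k16 k48 8 12))))), (.s k64 k106 6 (.s k65 k130 8 (.s k67 k66 0 (.s k87 k107 5 (.s
  k86 k84 0 (.d k105 k125 k124 5 6)))))), (.s k243 k227 3 (.s k81 k162 12 (.s k89 k93 1 (.s k150 k28
  10 (.s k20 k215 8 (.d k60 k40 k105 5 14))))))] (.c k128 (.q k149 [(.s k243 k227 3 (.s k81 k162 12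
  (.s k146 k16 8 (.s k97 k48 12 (.d k65 k113 k130 3 8))))), (.s k64 k106 6 (.s k65 k130 8 (.s k67
  k66 0 (.s k87 k107 5 (.s k86 k84 0 (.d k105 k125 k124 5 6)))))), (.s k243 k227 3 (.s k81 k162 12
  (.s k89 k93 1 (.s k150 k28 10 (.s k20 k215 8 (.d k60 k40 k105 5 14))))))] .n) (.c k149 (.q k128
  [(.d k64 k106 k192 6 7)] (.c k64 (.l (.s k65 k130 8 (.s k243 k227 3 (.s k81 k162 12 (.s k97 k113 3
  (.d k146 k16 k48 8 12)))))) (.c k106 (.l (.s k192 k64 7 (.s k130 k65 8 (.s k129 k131 0 (.s k66 k3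
  8 (.d k194 k193 k2 0 7)))))) (.c k192 (.l (.s k106 k64 6 (.s k65 k130 8 (.s k243 k227 3 (.s k81
  k162 12 (.s k97 k113 3 (.d k146 k16 k48 8 12))))))) .n)))) (.c k150 (.l (.s k243 k227 3 (.s k81
  k162 12 (.s k146 k16 8 (.s k97 k48 12 (.d k65 k113 k130 3 8)))))) .n)))) .n))))))

def s63_170_192 : T TT 256 :=
  (.q k69 [(.s k65 k130 8 (.s k73 k77 1 (.s k12 k134 10 (.s k8 k4 1 (.d k138 k203 k207 8 10))))),
  (.s k65 k130 8 (.s k77 k73 1 (.s k101 k117 3 (.s k89 k113 5 (.s k93 k81 1 (.d k125 k109 k105 3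
  5)))))), (.s k101 k117 3 (.s k207 k138 10 (.s k199 k203 1 (.s k150 k52 12 (.s k20 k215 8 (.d k60
  k40 k105 5 14))))))] (.c k73 (.l (.s k65 k130 8 (.s k101 k117 3 (.s k105 k125 5 (.s k97 k109 1 (.s
  k48 k146 12 (.d k207 k138 k154 10 14))))))) (.c k106 (.q k149 [(.s k65 k130 8 (.s k73 k77 1 (.s
  k12 k134 10 (.s k8 k4 1 (.d k138 k203 k207 8 10))))), (.s k101 k117 3 (.s k197 k53 11 (.s k5 k133
  7 (.s k213 k21 7 (.d k245 k229 k165 3 11)))))] (.c k42 (.q k234 [(.s k65 k130 8 (.s k73 k77 1 (.s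
  k12 k134 10 (.s k8 k4 1 (.d k138 k203 k207 8 10))))), (.s k101 k117 3 (.s k197 k53 11 (.s k5 k133
  7 (.s k213 k21 7 (.d k245 k229 k165 3 11)))))] .n) (.c k234 (.q k42 [(.s k65 k130 8 (.s k73 k77 1
  (.s k12 k134 10 (.s k8 k4 1 (.d k138 k203 k207 8 10))))), (.s k101 k117 3 (.s k197 k53 11 (.s k5
  k133 7 (.s k213 k21 7 (.d k245 k229 k165 3 11)))))] (.c k213 (.q k255 [(.s k65 k130 8 (.s k105
  k125 5 (.s k215 k235 5 (.d k150 k20 k60 8 14)))), (.s k101 k117 3 (.s k207 k138 10 (.s k154 k48 14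
  (.d k223 k239 k16 3 10))))] .n) (.c k255 (.l (.s k213 k21 7 (.s k101 k117 3 (.s k197 k53 11 (.s k5
  k133 7 (.d k245 k229 k165 3 11)))))) .n))) .n))) (.c k149 (.q k106 [(.s k65 k130 8 (.s k73 k77 1
  (.s k12 k134 10 (.s k8 k4 1 (.d k138 k203 k207 8 10))))), (.s k64 k127 6 (.s k79 k74 2 (.s k101
  k117 3 (.s k112 k90 6 (.d k96 k111 k80 2 3)))))] (.c k128 (.q k191 [(.s k64 k127 6 (.s k101 k117 3
  (.s k96 k111 2 (.s k112 k80 3 (.d k79 k74 k90 2 6))))), (.s k65 k130 8 (.s k73 k77 1 (.s k12 k134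
  10 (.s k8 k4 1 (.d k138 k203 k207 8 10)))))] (.c k207 (.l (.s k64 k127 6 (.s k79 k74 2 (.s k101
  k117 3 (.s k112 k90 6 (.d k96 k111 k80 2 3)))))) .n)) (.c k191 (.q k128 [(.s k65 k130 8 (.s k73
  k77 1 (.s k12 k134 10 (.s k8 k4 1 (.d k138 k203 k207 8 10))))), (.s k65 k130 8 (.s k77 k73 1 (.s
  k101 k117 3 (.s k89 k113 5 (.s k93 k81 1 (.d k125 k109 k105 3 5)))))), (.s k101 k117 3 (.s k207
  k138 10 (.s k199 k203 1 (.s k150 k52 12 (.s k20 k215 8 (.d k60 k40 k105 5 14))))))] (.c k73 (.l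
  (.s k65 k130 8 (.s k101 k117 3 (.s k105 k125 5 (.s k97 k109 1 (.s k48 k146 12 (.d k207 k138 k154
  10 14))))))) (.c k127 (.q k255 [(.s k65 k130 8 (.s k215 k235 5 (.s k150 k20 8 (.d k105 k125 k60 5
  14)))), (.s k101 k117 3 (.s k207 k138 10 (.s k154 k48 14 (.d k223 k239 k16 3 10))))] .n) (.c k150
  (.l (.s k130 k65 8 (.s k138 k207 10 (.s k134 k142 1 (.s k4 k199 8 (.d k12 k8 k73 1 10)))))) (.c
  k255 (.l (.s k127 k64 6 (.s k65 k130 8 (.s k73 k77 1 (.s k12 k134 10 (.s k8 k4 1 (.d k138 k203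
  k207 8 10))))))) .n))))) .n))) (.c k150 (.l (.s k130 k65 8 (.s k138 k207 10 (.s k134 k142 1 (.s k4
  k199 8 (.d k12 k8 k73 1 10)))))) .n)))))

def s63_170_193 : T TT 256 :=
  (.q k3 [(.s k2 k1 0 (.s k131 k67 7 (.s k130 k65 8 (.s k129 k128 0 (.d k66 k194 k192 7 8))))), (.s
  k1 k2 0 (.s k131 k67 7 (.s k169 k253 13 (.s k150 k188 6 (.s k20 k215 8 (.d k60 k40 k105 5
  14)))))), (.s k65 k130 8 (.s k67 k131 7 (.s k105 k125 5 (.s k86 k124 6 (.s k84 k87 0 (.d k252 k168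
  k169 13 14)))))), (.s k1 k2 0 (.s k65 k130 8 (.s k105 k125 5 (.s k169 k253 13 (.s k233 k41 7 (.d
  k252 k86 k214 14 6))))))] .n)

def s63_170_194 : T TT 256 :=
  (.q k12 [(.s k4 k8 1 (.s k130 k65 8 (.s k134 k73 10 (.s k69 k199 8 (.d k138 k142 k207 1 10))))),
  (.s k4 k8 1 (.s k65 k130 8 (.s k105 k125 5 (.s k166 k247 12 (.s k44 k227 10 (.d k60 k150 k28 14
  3)))))), (.s k65 k130 8 (.s k73 k134 10 (.s k105 k125 5 (.s k89 k121 3 (.s k81 k93 1 (.d k243 k162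
  k166 12 14)))))), (.s k4 k8 1 (.s k134 k73 10 (.s k166 k247 12 (.s k150 k182 3 (.s k20 k215 8 (.d
  k60 k40 k105 5 14))))))] (.c k89 (.l (.s k8 k4 1 (.s k65 k130 8 (.s k73 k134 10 (.s k69 k77 1 (.d
  k138 k203 k207 8 10)))))) .n))

def s63_170_196 : T TT 256 :=
  (.q k1 [(.s k3 k2 0 (.s k131 k67 7 (.s k169 k253 13 (.s k150 k188 6 (.s k20 k215 8 (.d k60 k40
  k105 5 14)))))), (.s k65 k130 8 (.s k105 k125 5 (.s k169 k253 13 (.s k41 k233 7 (.s k61 k21 5 (.d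
  k193 k129 k149 7 13)))))), (.s k3 k2 0 (.s k65 k130 8 (.s k67 k131 7 (.s k66 k64 0 (.d k129 k193
  k192 7 8)))))] (.c k150 (.l (.s k3 k2 0 (.s k67 k131 7 (.s k169 k253 13 (.s k86 k252 14 (.s k105
  k124 6 (.d k65 k125 k130 5 8))))))) .n))

def s63_170_197 : T TT 256 :=
  (.q k1 [(.s k3 k2 0 (.s k131 k67 7 (.s k169 k253 13 (.s k150 k188 6 (.s k20 k215 8 (.d k60 k40
  k105 5 14)))))), (.s k65 k130 8 (.s k105 k125 5 (.s k169 k253 13 (.s k41 k233 7 (.s k61 k21 5 (.d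
  k193 k129 k149 7 13)))))), (.s k3 k2 0 (.s k65 k130 8 (.s k67 k131 7 (.s k66 k64 0 (.d k129 k193
  k192 7 8)))))] (.c k150 (.l (.s k3 k2 0 (.s k67 k131 7 (.s k169 k253 13 (.s k86 k252 14 (.s k105
  k124 6 (.d k65 k125 k130 5 8))))))) .n))

def s63_170_198 : T TT 256 :=
  (.q k1 [(.s k3 k2 0 (.s k131 k67 7 (.s k169 k253 13 (.s k150 k188 6 (.s k20 k215 8 (.d k60 k40
  k105 5 14)))))), (.s k65 k130 8 (.s k105 k125 5 (.s k169 k253 13 (.s k41 k233 7 (.s k61 k21 5 (.d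
  k193 k129 k149 7 13)))))), (.s k3 k2 0 (.s k65 k130 8 (.s k67 k131 7 (.s k66 k64 0 (.d k129 k193
  k192 7 8)))))] (.c k150 (.l (.s k3 k2 0 (.s k67 k131 7 (.s k169 k253 13 (.s k86 k252 14 (.s k105
  k124 6 (.d k65 k125 k130 5 8))))))) .n))

def s63_170_199 : T TT 256 :=
  (.q k1 [(.s k3 k2 0 (.s k65 k130 8 (.s k67 k131 7 (.s k66 k64 0 (.d k129 k193 k192 7 8))))), (.s
  k65 k130 8 (.s k105 k125 5 (.s k169 k253 13 (.s k41 k233 7 (.s k61 k21 5 (.d k193 k129 k149 7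
  13)))))), (.s k3 k2 0 (.s k131 k67 7 (.s k169 k253 13 (.s k150 k188 6 (.s k20 k215 8 (.d k60 k40
  k105 5 14))))))] (.c k150 (.l (.s k3 k2 0 (.s k67 k131 7 (.s k169 k253 13 (.s k86 k252 14 (.s k105
  k124 6 (.d k65 k125 k130 5 8))))))) .n))

def s63_170_200 : T TT 256 :=
  (.q k1 [(.s k3 k2 0 (.s k131 k67 7 (.s k169 k253 13 (.s k150 k188 6 (.s k20 k215 8 (.d k60 k40
  k105 5 14)))))), (.s k65 k130 8 (.s k105 k125 5 (.s k169 k253 13 (.s k41 k233 7 (.s k61 k21 5 (.d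
  k193 k129 k149 7 13)))))), (.s k3 k2 0 (.s k65 k130 8 (.s k67 k131 7 (.s k66 k64 0 (.d k129 k193
  k192 7 8)))))] (.c k150 (.l (.s k3 k2 0 (.s k67 k131 7 (.s k169 k253 13 (.s k86 k252 14 (.s k105
  k124 6 (.d k65 k125 k130 5 8))))))) .n))

def s63_170_201 : T TT 256 :=
  (.q k1 [(.s k3 k2 0 (.s k131 k67 7 (.s k169 k253 13 (.s k150 k188 6 (.s k20 k215 8 (.d k60 k40
  k105 5 14)))))), (.s k65 k130 8 (.s k105 k125 5 (.s k169 k253 13 (.s k41 k233 7 (.s k61 k21 5 (.d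
  k193 k129 k149 7 13)))))), (.s k3 k2 0 (.s k65 k130 8 (.s k67 k131 7 (.s k66 k64 0 (.d k129 k193
  k192 7 8)))))] (.c k150 (.l (.s k3 k2 0 (.s k67 k131 7 (.s k169 k253 13 (.s k86 k252 14 (.s k105
  k124 6 (.d k65 k125 k130 5 8))))))) .n))

def s63_170_202 : T TT 256 :=
  (.q k1 [(.s k3 k2 0 (.s k131 k67 7 (.s k169 k253 13 (.s k150 k188 6 (.s k20 k215 8 (.d k60 k40
  k105 5 14)))))), (.s k65 k130 8 (.s k105 k125 5 (.s k169 k253 13 (.s k41 k233 7 (.s k61 k21 5 (.d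
  k193 k129 k149 7 13)))))), (.s k3 k2 0 (.s k65 k130 8 (.s k67 k131 7 (.s k66 k64 0 (.d k129 k193
  k192 7 8)))))] (.c k150 (.l (.s k3 k2 0 (.s k67 k131 7 (.s k169 k253 13 (.s k86 k252 14 (.s k105
  k124 6 (.d k65 k125 k130 5 8))))))) .n))

def s63_170_203 : T TT 256 :=
  (.q k1 [(.s k3 k2 0 (.s k131 k67 7 (.s k169 k253 13 (.s k150 k188 6 (.s k20 k215 8 (.d k60 k40
  k105 5 14)))))), (.s k65 k130 8 (.s k105 k125 5 (.s k169 k253 13 (.s k41 k233 7 (.s k61 k21 5 (.d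
  k193 k129 k149 7 13)))))), (.s k3 k2 0 (.s k65 k130 8 (.s k67 k131 7 (.s k66 k64 0 (.d k129 k193
  k192 7 8)))))] (.c k150 (.l (.s k3 k2 0 (.s k67 k131 7 (.s k169 k253 13 (.s k86 k252 14 (.s k105
  k124 6 (.d k65 k125 k130 5 8))))))) .n))

def s63_170_204 : T TT 256 :=
  (.q k211 [(.s k65 k130 8 (.s k243 k227 3 (.s k81 k162 12 (.s k97 k113 3 (.d k146 k16 k48 8
  12))))), (.s k65 k130 8 (.s k105 k125 5 (.s k150 k60 14 (.s k89 k28 10 (.s k81 k93 1 (.d k243 k227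
  k162 3 12)))))), (.s k243 k227 3 (.s k81 k162 12 (.s k89 k93 1 (.s k150 k28 10 (.s k20 k215 8 (.d
  k60 k40 k105 5 14)))))), (.s k65 k130 8 (.s k105 k125 5 (.s k150 k60 14 (.s k89 k28 10 (.s k81 k93
  1 (.s k97 k113 3 (.d k146 k16 k48 8 12)))))))] (.c k81 (.l (.s k65 k130 8 (.s k105 k125 5 (.s k150
  k60 14 (.s k89 k28 10 (.s k73 k121 3 (.s k12 k134 10 (.d k243 k227 k166 3 14)))))))) (.c k110 (.q
  k157 [(.s k65 k130 8 (.s k243 k227 3 (.s k81 k162 12 (.s k97 k113 3 (.d k146 k16 k48 8 12))))),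
  (.s k65 k130 8 (.s k105 k125 5 (.s k150 k60 14 (.s k89 k28 10 (.s k81 k93 1 (.d k243 k227 k162 3
  12)))))), (.s k243 k227 3 (.s k81 k162 12 (.s k89 k93 1 (.s k150 k28 10 (.s k20 k215 8 (.d k60 k40
  k105 5 14)))))), (.s k65 k130 8 (.s k105 k125 5 (.s k150 k60 14 (.s k89 k28 10 (.s k81 k93 1 (.s
  k97 k113 3 (.d k146 k16 k48 8 12)))))))] (.c k81 (.l (.s k65 k130 8 (.s k105 k125 5 (.s k150 k60
  14 (.s k89 k28 10 (.s k73 k121 3 (.s k12 k134 10 (.d k243 k227 k166 3 14)))))))) (.c k150 (.l (.s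
  k243 k227 3 (.s k81 k162 12 (.s k146 k16 8 (.s k97 k48 12 (.d k65 k113 k130 3 8)))))) .n))) (.c
  k150 (.l (.s k243 k227 3 (.s k81 k162 12 (.s k146 k16 8 (.s k97 k48 12 (.d k65 k113 k130 3 8))))))
  (.c k157 (.q k110 [(.s k65 k130 8 (.s k243 k227 3 (.s k81 k162 12 (.s k97 k113 3 (.d k146 k16 k48
  8 12))))), (.s k65 k130 8 (.s k105 k125 5 (.s k150 k60 14 (.s k89 k28 10 (.s k81 k93 1 (.d k243
  k227 k162 3 12)))))), (.s k243 k227 3 (.s k81 k162 12 (.s k89 k93 1 (.s k150 k28 10 (.s k20 k215 8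
  (.d k60 k40 k105 5 14)))))), (.s k65 k130 8 (.s k105 k125 5 (.s k150 k60 14 (.s k89 k28 10 (.s k81
  k93 1 (.s k97 k113 3 (.d k146 k16 k48 8 12)))))))] (.c k81 (.l (.s k65 k130 8 (.s k105 k125 5 (.s
  k150 k60 14 (.s k89 k28 10 (.s k73 k121 3 (.s k12 k134 10 (.d k243 k227 k166 3 14)))))))) (.c k150
  (.l (.s k243 k227 3 (.s k81 k162 12 (.s k146 k16 8 (.s k97 k48 12 (.d k65 k113 k130 3 8))))))
  .n))) .n)))))

def s63_170_205 : T TT 256 :=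
  (.q k1 [(.s k3 k2 0 (.s k65 k130 8 (.s k67 k131 7 (.s k66 k64 0 (.d k129 k193 k192 7 8))))), (.s
  k65 k130 8 (.s k105 k125 5 (.s k169 k253 13 (.s k41 k233 7 (.s k61 k21 5 (.d k193 k129 k149 7
  13)))))), (.s k3 k2 0 (.s k131 k67 7 (.s k169 k253 13 (.s k150 k188 6 (.s k20 k215 8 (.d k60 k40
  k105 5 14))))))] (.c k150 (.l (.s k3 k2 0 (.s k67 k131 7 (.s k169 k253 13 (.s k86 k252 14 (.s k105
  k124 6 (.d k65 k125 k130 5 8))))))) .n))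

def s63_170_206 : T TT 256 :=
  (.q k1 [(.s k65 k130 8 (.s k105 k125 5 (.s k169 k253 13 (.s k41 k233 7 (.s k61 k21 5 (.d k193 k129
  k149 7 13)))))), (.s k3 k2 0 (.s k131 k67 7 (.s k169 k253 13 (.s k150 k188 6 (.s k20 k215 8 (.d
  k60 k40 k105 5 14)))))), (.s k3 k2 0 (.s k65 k130 8 (.s k67 k131 7 (.s k66 k64 0 (.d k129 k193
  k192 7 8)))))] (.c k150 (.l (.s k3 k2 0 (.s k67 k131 7 (.s k169 k253 13 (.s k86 k252 14 (.s k105
  k124 6 (.d k65 k125 k130 5 8))))))) .n))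

def s63_170_207 : T TT 256 :=
  (.q k1 [(.s k3 k2 0 (.s k131 k67 7 (.s k169 k253 13 (.s k150 k188 6 (.s k20 k215 8 (.d k60 k40
  k105 5 14)))))), (.s k65 k130 8 (.s k105 k125 5 (.s k169 k253 13 (.s k41 k233 7 (.s k61 k21 5 (.d
  k193 k129 k149 7 13)))))), (.s k3 k2 0 (.s k65 k130 8 (.s k67 k131 7 (.s k66 k64 0 (.d k129 k193
  k192 7 8)))))] (.c k111 (.q k159 [(.s k3 k2 0 (.s k131 k67 7 (.s k169 k253 13 (.s k150 k188 6 (.s
  k20 k215 8 (.d k60 k40 k105 5 14)))))), (.s k65 k130 8 (.s k105 k125 5 (.s k169 k253 13 (.s k41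
  k233 7 (.s k61 k21 5 (.d k193 k129 k149 7 13)))))), (.s k3 k2 0 (.s k65 k130 8 (.s k67 k131 7 (.s
  k66 k64 0 (.d k129 k193 k192 7 8)))))] (.c k150 (.l (.s k3 k2 0 (.s k67 k131 7 (.s k169 k253 13
  (.s k86 k252 14 (.s k105 k124 6 (.d k65 k125 k130 5 8))))))) .n)) (.c k150 (.l (.s k3 k2 0 (.s k67
  k131 7 (.s k169 k253 13 (.s k86 k252 14 (.s k105 k124 6 (.d k65 k125 k130 5 8))))))) (.c k159 (.q
  k111 [(.s k3 k2 0 (.s k131 k67 7 (.s k169 k253 13 (.s k150 k188 6 (.s k20 k215 8 (.d k60 k40 k105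
  5 14)))))), (.s k65 k130 8 (.s k105 k125 5 (.s k169 k253 13 (.s k41 k233 7 (.s k61 k21 5 (.d k193
  k129 k149 7 13)))))), (.s k3 k2 0 (.s k65 k130 8 (.s k67 k131 7 (.s k66 k64 0 (.d k129 k193 k192 7
  8)))))] (.c k150 (.l (.s k3 k2 0 (.s k67 k131 7 (.s k169 k253 13 (.s k86 k252 14 (.s k105 k124 6
  (.d k65 k125 k130 5 8))))))) .n)) .n))))

def s63_170_208 : T TT 256 :=
  (.q k1 [(.s k3 k2 0 (.s k131 k67 7 (.s k169 k253 13 (.s k150 k188 6 (.s k20 k215 8 (.d k60 k40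
  k105 5 14)))))), (.s k65 k130 8 (.s k105 k125 5 (.s k169 k253 13 (.s k41 k233 7 (.s k61 k21 5 (.d
  k193 k129 k149 7 13)))))), (.s k3 k2 0 (.s k65 k130 8 (.s k67 k131 7 (.s k66 k64 0 (.d k129 k193
  k192 7 8)))))] (.c k150 (.l (.s k3 k2 0 (.s k67 k131 7 (.s k169 k253 13 (.s k86 k252 14 (.s k105
  k124 6 (.d k65 k125 k130 5 8))))))) .n))

def s63_170_209 : T TT 256 :=
  (.q k1 [(.s k3 k2 0 (.s k131 k67 7 (.s k169 k253 13 (.s k150 k188 6 (.s k20 k215 8 (.d k60 k40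
  k105 5 14)))))), (.s k65 k130 8 (.s k105 k125 5 (.s k169 k253 13 (.s k41 k233 7 (.s k61 k21 5 (.d
  k193 k129 k149 7 13)))))), (.s k3 k2 0 (.s k65 k130 8 (.s k67 k131 7 (.s k66 k64 0 (.d k129 k193
  k192 7 8)))))] (.c k150 (.l (.s k3 k2 0 (.s k67 k131 7 (.s k169 k253 13 (.s k86 k252 14 (.s k105
  k124 6 (.d k65 k125 k130 5 8))))))) .n))

def s63_170_210 : T TT 256 :=
  (.q k1 [(.s k3 k2 0 (.s k131 k67 7 (.s k169 k253 13 (.s k150 k188 6 (.s k20 k215 8 (.d k60 k40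
  k105 5 14)))))), (.s k65 k130 8 (.s k105 k125 5 (.s k169 k253 13 (.s k41 k233 7 (.s k61 k21 5 (.d
  k193 k129 k149 7 13)))))), (.s k3 k2 0 (.s k65 k130 8 (.s k67 k131 7 (.s k66 k64 0 (.d k129 k193
  k192 7 8)))))] (.c k150 (.l (.s k3 k2 0 (.s k67 k131 7 (.s k169 k253 13 (.s k86 k252 14 (.s k105
  k124 6 (.d k65 k125 k130 5 8))))))) .n))

def s63_170_211 : T TT 256 :=
  (.q k1 [(.s k3 k2 0 (.s k65 k130 8 (.s k67 k131 7 (.s k66 k64 0 (.d k129 k193 k192 7 8))))), (.s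
  k65 k130 8 (.s k105 k125 5 (.s k169 k253 13 (.s k41 k233 7 (.s k61 k21 5 (.d k193 k129 k149 7
  13)))))), (.s k3 k2 0 (.s k131 k67 7 (.s k169 k253 13 (.s k150 k188 6 (.s k20 k215 8 (.d k60 k40
  k105 5 14))))))] (.c k150 (.l (.s k3 k2 0 (.s k67 k131 7 (.s k169 k253 13 (.s k86 k252 14 (.s k105
  k124 6 (.d k65 k125 k130 5 8))))))) .n))

def s63_170_212 : T TT 256 :=
  (.q k1 [(.s k3 k2 0 (.s k65 k130 8 (.s k67 k131 7 (.s k66 k64 0 (.d k129 k193 k192 7 8))))), (.s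
  k65 k130 8 (.s k105 k125 5 (.s k169 k253 13 (.s k41 k233 7 (.s k61 k21 5 (.d k193 k129 k149 7
  13)))))), (.s k3 k2 0 (.s k131 k67 7 (.s k169 k253 13 (.s k150 k188 6 (.s k20 k215 8 (.d k60 k40
  k105 5 14))))))] (.c k150 (.l (.s k3 k2 0 (.s k67 k131 7 (.s k169 k253 13 (.s k86 k252 14 (.s k105
  k124 6 (.d k65 k125 k130 5 8))))))) .n))

def s63_170_213 : T TT 256 :=
  (.q k1 [(.s k3 k2 0 (.s k65 k130 8 (.s k67 k131 7 (.s k66 k64 0 (.d k129 k193 k192 7 8))))), (.s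
  k65 k130 8 (.s k105 k125 5 (.s k169 k253 13 (.s k41 k233 7 (.s k193 k129 7 (.d k61 k21 k149 5
  13)))))), (.s k3 k2 0 (.s k131 k67 7 (.s k169 k253 13 (.s k150 k188 6 (.s k20 k215 8 (.d k60 k40
  k105 5 14))))))] (.c k131 (.l (.s k3 k2 0 (.s k65 k130 8 (.s k105 k125 5 (.s k169 k253 13 (.s k233
  k41 7 (.d k252 k86 k214 14 6))))))) (.c k150 (.l (.s k3 k2 0 (.s k67 k131 7 (.s k169 k253 13 (.s
  k86 k252 14 (.s k105 k124 6 (.d k65 k125 k130 5 8))))))) (.c k193 (.l (.s k3 k2 0 (.s k65 k130 8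
  (.s k67 k131 7 (.s k105 k125 5 (.s k86 k124 6 (.d k169 k253 k252 13 14))))))) .n))))

def s63_170_214 : T TT 256 :=
  (.q k1 [(.s k3 k2 0 (.s k65 k130 8 (.s k67 k131 7 (.s k66 k64 0 (.d k129 k193 k192 7 8))))), (.s
  k65 k130 8 (.s k105 k125 5 (.s k169 k253 13 (.s k41 k233 7 (.s k61 k21 5 (.d k193 k129 k149 7
  13)))))), (.s k3 k2 0 (.s k131 k67 7 (.s k169 k253 13 (.s k150 k188 6 (.s k20 k215 8 (.d k60 k40
  k105 5 14))))))] (.c k150 (.l (.s k3 k2 0 (.s k67 k131 7 (.s k169 k253 13 (.s k86 k252 14 (.s k105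
  k124 6 (.d k65 k125 k130 5 8))))))) .n))

def s63_170_215 : T TT 256 :=
  (.q k1 [(.s k3 k2 0 (.s k65 k130 8 (.s k67 k131 7 (.s k66 k64 0 (.d k129 k193 k192 7 8))))), (.s
  k65 k130 8 (.s k105 k125 5 (.s k169 k253 13 (.s k41 k233 7 (.s k61 k21 5 (.d k193 k129 k149 7
  13)))))), (.s k3 k2 0 (.s k67 k131 7 (.s k169 k253 13 (.s k86 k252 14 (.s k105 k124 6 (.s k41 k233
  7 (.d k60 k22 k150 6 14))))))), (.s k3 k2 0 (.s k67 k131 7 (.s k169 k253 13 (.s k86 k252 14 (.s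
  k105 k124 6 (.d k65 k125 k130 5 8))))))] .n)

def s63_170_216 : T TT 256 :=
  (.q k1 [(.s k3 k2 0 (.s k131 k67 7 (.s k169 k253 13 (.s k150 k188 6 (.s k20 k215 8 (.d k60 k40
  k105 5 14)))))), (.s k65 k130 8 (.s k105 k125 5 (.s k169 k253 13 (.s k41 k233 7 (.s k61 k21 5 (.d
  k193 k129 k149 7 13)))))), (.s k3 k2 0 (.s k65 k130 8 (.s k67 k131 7 (.s k66 k64 0 (.d k129 k193
  k192 7 8)))))] (.c k150 (.l (.s k3 k2 0 (.s k67 k131 7 (.s k169 k253 13 (.s k86 k252 14 (.s k105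
  k124 6 (.d k65 k125 k130 5 8))))))) .n))

def s63_170_217 : T TT 256 :=
  (.q k1 [(.s k3 k2 0 (.s k131 k67 7 (.s k169 k253 13 (.s k150 k188 6 (.s k20 k215 8 (.d k60 k40
  k105 5 14)))))), (.s k65 k130 8 (.s k105 k125 5 (.s k169 k253 13 (.s k41 k233 7 (.s k61 k21 5 (.d
  k193 k129 k149 7 13)))))), (.s k3 k2 0 (.s k65 k130 8 (.s k67 k131 7 (.s k66 k64 0 (.d k129 k193
  k192 7 8)))))] (.c k150 (.l (.s k3 k2 0 (.s k67 k131 7 (.s k169 k253 13 (.s k86 k252 14 (.s k105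
  k124 6 (.d k65 k125 k130 5 8))))))) .n))

def s63_170_218 : T TT 256 :=
  (.q k1 [(.s k3 k2 0 (.s k131 k67 7 (.s k169 k253 13 (.s k150 k188 6 (.s k20 k215 8 (.d k60 k40
  k105 5 14)))))), (.s k65 k130 8 (.s k105 k125 5 (.s k169 k253 13 (.s k41 k233 7 (.s k61 k21 5 (.d
  k193 k129 k149 7 13)))))), (.s k3 k2 0 (.s k65 k130 8 (.s k67 k131 7 (.s k66 k64 0 (.d k129 k193
  k192 7 8)))))] (.c k150 (.l (.s k3 k2 0 (.s k67 k131 7 (.s k169 k253 13 (.s k86 k252 14 (.s k105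
  k124 6 (.d k65 k125 k130 5 8))))))) .n))

def s63_170_219 : T TT 256 :=
  (.q k1 [(.s k3 k2 0 (.s k65 k130 8 (.s k67 k131 7 (.s k66 k64 0 (.d k129 k193 k192 7 8))))), (.s
  k65 k130 8 (.s k105 k125 5 (.s k169 k253 13 (.s k41 k233 7 (.s k61 k21 5 (.d k193 k129 k149 7
  13)))))), (.s k3 k2 0 (.s k131 k67 7 (.s k169 k253 13 (.s k150 k188 6 (.s k20 k215 8 (.d k60 k40
  k105 5 14))))))] (.c k150 (.l (.s k3 k2 0 (.s k67 k131 7 (.s k169 k253 13 (.s k86 k252 14 (.s k105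
  k124 6 (.d k65 k125 k130 5 8))))))) .n))

def s63_170_220 : T TT 256 :=
  (.q k1 [(.s k3 k2 0 (.s k131 k67 7 (.s k169 k253 13 (.s k150 k188 6 (.s k20 k215 8 (.d k60 k40
  k105 5 14)))))), (.s k65 k130 8 (.s k105 k125 5 (.s k169 k253 13 (.s k41 k233 7 (.s k61 k21 5 (.d
  k193 k129 k149 7 13)))))), (.s k3 k2 0 (.s k65 k130 8 (.s k67 k131 7 (.s k66 k64 0 (.d k129 k193
  k192 7 8)))))] (.c k150 (.l (.s k3 k2 0 (.s k67 k131 7 (.s k169 k253 13 (.s k86 k252 14 (.s k105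
  k124 6 (.d k65 k125 k130 5 8))))))) .n))

def s63_170_221 : T TT 256 :=
  (.q k1 [(.s k3 k2 0 (.s k65 k130 8 (.s k67 k131 7 (.s k66 k64 0 (.d k129 k193 k192 7 8))))), (.s
  k65 k130 8 (.s k105 k125 5 (.s k169 k253 13 (.s k41 k233 7 (.s k61 k21 5 (.d k193 k129 k149 7
  13)))))), (.s k3 k2 0 (.s k131 k67 7 (.s k169 k253 13 (.s k150 k188 6 (.s k20 k215 8 (.d k60 k40
  k105 5 14))))))] (.c k150 (.l (.s k3 k2 0 (.s k67 k131 7 (.s k169 k253 13 (.s k86 k252 14 (.s k105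
  k124 6 (.d k65 k125 k130 5 8))))))) .n))

def s63_170_222 : T TT 256 :=
  (.q k1 [(.s k3 k2 0 (.s k131 k67 7 (.s k169 k253 13 (.s k150 k188 6 (.s k20 k215 8 (.d k60 k40
  k105 5 14)))))), (.s k65 k130 8 (.s k105 k125 5 (.s k169 k253 13 (.s k41 k233 7 (.s k61 k21 5 (.d
  k193 k129 k149 7 13)))))), (.s k3 k2 0 (.s k65 k130 8 (.s k67 k131 7 (.s k66 k64 0 (.d k129 k193
  k192 7 8)))))] (.c k150 (.l (.s k3 k2 0 (.s k67 k131 7 (.s k169 k253 13 (.s k86 k252 14 (.s k105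
  k124 6 (.d k65 k125 k130 5 8))))))) .n))

def s63_170_223 : T TT 256 :=
  (.q k1 [(.s k3 k2 0 (.s k65 k130 8 (.s k67 k131 7 (.s k66 k64 0 (.d k129 k193 k192 7 8))))), (.s
  k65 k130 8 (.s k105 k125 5 (.s k169 k253 13 (.s k41 k233 7 (.s k61 k21 5 (.d k193 k129 k149 7
  13)))))), (.s k3 k2 0 (.s k131 k67 7 (.s k169 k253 13 (.s k150 k188 6 (.s k20 k215 8 (.d k60 k40
  k105 5 14))))))] (.c k150 (.l (.s k3 k2 0 (.s k67 k131 7 (.s k169 k253 13 (.s k86 k252 14 (.s k105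
  k124 6 (.d k65 k125 k130 5 8))))))) .n))

def s63_170_224 : T TT 256 :=
  (.q k1 [(.s k3 k2 0 (.s k131 k67 7 (.s k169 k253 13 (.s k150 k188 6 (.s k20 k215 8 (.d k60 k40
  k105 5 14)))))), (.s k65 k130 8 (.s k105 k125 5 (.s k169 k253 13 (.s k41 k233 7 (.s k61 k21 5 (.d
  k193 k129 k149 7 13)))))), (.s k3 k2 0 (.s k65 k130 8 (.s k67 k131 7 (.s k66 k64 0 (.d k129 k193
  k192 7 8)))))] (.c k150 (.l (.s k3 k2 0 (.s k67 k131 7 (.s k169 k253 13 (.s k86 k252 14 (.s k105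
  k124 6 (.d k65 k125 k130 5 8))))))) .n))

def s63_170_225 : T TT 256 :=
  (.q k1 [(.s k3 k2 0 (.s k131 k67 7 (.s k169 k253 13 (.s k150 k188 6 (.s k20 k215 8 (.d k60 k40
  k105 5 14)))))), (.s k65 k130 8 (.s k105 k125 5 (.s k169 k253 13 (.s k41 k233 7 (.s k61 k21 5 (.d
  k193 k129 k149 7 13)))))), (.s k3 k2 0 (.s k65 k130 8 (.s k67 k131 7 (.s k66 k64 0 (.d k129 k193
  k192 7 8)))))] (.c k150 (.l (.s k3 k2 0 (.s k67 k131 7 (.s k169 k253 13 (.s k86 k252 14 (.s k105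
  k124 6 (.d k65 k125 k130 5 8))))))) .n))

def s63_170_226 : T TT 256 :=
  (.q k1 [(.s k3 k2 0 (.s k131 k67 7 (.s k169 k253 13 (.s k150 k188 6 (.s k20 k215 8 (.d k60 k40
  k105 5 14)))))), (.s k65 k130 8 (.s k105 k125 5 (.s k169 k253 13 (.s k41 k233 7 (.s k61 k21 5 (.d
  k193 k129 k149 7 13)))))), (.s k3 k2 0 (.s k65 k130 8 (.s k67 k131 7 (.s k66 k64 0 (.d k129 k193
  k192 7 8)))))] (.c k150 (.l (.s k3 k2 0 (.s k67 k131 7 (.s k169 k253 13 (.s k86 k252 14 (.s k105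
  k124 6 (.d k65 k125 k130 5 8))))))) .n))

def s63_170_227 : T TT 256 :=
  (.q k1 [(.s k3 k2 0 (.s k131 k67 7 (.s k169 k253 13 (.s k150 k188 6 (.s k20 k215 8 (.d k60 k40
  k105 5 14)))))), (.s k65 k130 8 (.s k105 k125 5 (.s k169 k253 13 (.s k41 k233 7 (.s k61 k21 5 (.d
  k193 k129 k149 7 13)))))), (.s k3 k2 0 (.s k65 k130 8 (.s k67 k131 7 (.s k66 k64 0 (.d k129 k193
  k192 7 8)))))] (.c k150 (.l (.s k3 k2 0 (.s k67 k131 7 (.s k169 k253 13 (.s k86 k252 14 (.s k105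
  k124 6 (.d k65 k125 k130 5 8))))))) .n))

def s63_170_228 : T TT 256 :=
  (.q k1 [(.s k3 k2 0 (.s k131 k67 7 (.s k169 k253 13 (.s k150 k188 6 (.s k20 k215 8 (.d k60 k40
  k105 5 14)))))), (.s k65 k130 8 (.s k105 k125 5 (.s k169 k253 13 (.s k41 k233 7 (.s k61 k21 5 (.d
  k193 k129 k149 7 13)))))), (.s k3 k2 0 (.s k65 k130 8 (.s k67 k131 7 (.s k66 k64 0 (.d k129 k193
  k192 7 8)))))] (.c k150 (.l (.s k3 k2 0 (.s k67 k131 7 (.s k169 k253 13 (.s k86 k252 14 (.s k105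
  k124 6 (.d k65 k125 k130 5 8))))))) .n))

def s63_170_229 : T TT 256 :=
  (.q k1 [(.s k3 k2 0 (.s k131 k67 7 (.s k169 k253 13 (.s k150 k188 6 (.s k20 k215 8 (.d k60 k40
  k105 5 14)))))), (.s k65 k130 8 (.s k105 k125 5 (.s k169 k253 13 (.s k41 k233 7 (.s k61 k21 5 (.d
  k193 k129 k149 7 13)))))), (.s k3 k2 0 (.s k65 k130 8 (.s k67 k131 7 (.s k66 k64 0 (.d k129 k193
  k192 7 8)))))] (.c k150 (.l (.s k3 k2 0 (.s k67 k131 7 (.s k169 k253 13 (.s k86 k252 14 (.s k105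
  k124 6 (.d k65 k125 k130 5 8))))))) .n))

def s63_170_230 : T TT 256 :=
  (.q k1 [(.s k3 k2 0 (.s k131 k67 7 (.s k169 k253 13 (.s k150 k188 6 (.s k20 k215 8 (.d k60 k40
  k105 5 14)))))), (.s k65 k130 8 (.s k105 k125 5 (.s k169 k253 13 (.s k41 k233 7 (.s k61 k21 5 (.d
  k193 k129 k149 7 13)))))), (.s k3 k2 0 (.s k65 k130 8 (.s k67 k131 7 (.s k66 k64 0 (.d k129 k193
  k192 7 8)))))] (.c k150 (.l (.s k3 k2 0 (.s k67 k131 7 (.s k169 k253 13 (.s k86 k252 14 (.s k105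
  k124 6 (.d k65 k125 k130 5 8))))))) .n))

def s63_170_231 : T TT 256 :=
  (.q k1 [(.s k3 k2 0 (.s k65 k130 8 (.s k67 k131 7 (.s k66 k64 0 (.d k129 k193 k192 7 8))))), (.s
  k65 k130 8 (.s k105 k125 5 (.s k169 k253 13 (.s k41 k233 7 (.s k61 k21 5 (.d k193 k129 k149 7
  13)))))), (.s k3 k2 0 (.s k131 k67 7 (.s k169 k253 13 (.s k150 k188 6 (.s k20 k215 8 (.d k60 k40
  k105 5 14))))))] (.c k150 (.l (.s k3 k2 0 (.s k67 k131 7 (.s k169 k253 13 (.s k86 k252 14 (.s k105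
  k124 6 (.d k65 k125 k130 5 8))))))) .n))

def s63_170_232 : T TT 256 :=
  (.q k1 [(.s k3 k2 0 (.s k131 k67 7 (.s k169 k253 13 (.s k150 k188 6 (.s k20 k215 8 (.d k60 k40
  k105 5 14)))))), (.s k65 k130 8 (.s k105 k125 5 (.s k169 k253 13 (.s k41 k233 7 (.s k61 k21 5 (.d
  k193 k129 k149 7 13)))))), (.s k3 k2 0 (.s k65 k130 8 (.s k67 k131 7 (.s k66 k64 0 (.d k129 k193
  k192 7 8)))))] (.c k150 (.l (.s k3 k2 0 (.s k67 k131 7 (.s k169 k253 13 (.s k86 k252 14 (.s k105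
  k124 6 (.d k65 k125 k130 5 8))))))) .n))

def s63_170_233 : T TT 256 :=
  (.q k12 [(.s k4 k8 1 (.s k130 k65 8 (.s k134 k73 10 (.s k69 k199 8 (.d k138 k142 k207 1 10))))),
  (.s k4 k8 1 (.s k65 k130 8 (.s k105 k125 5 (.s k166 k247 12 (.s k44 k227 10 (.d k60 k150 k28 14
  3)))))), (.s k65 k130 8 (.s k73 k134 10 (.s k105 k125 5 (.s k89 k121 3 (.s k81 k93 1 (.d k243 k162
  k166 12 14)))))), (.s k4 k8 1 (.s k134 k73 10 (.s k166 k247 12 (.s k150 k182 3 (.s k20 k215 8 (.d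
  k60 k40 k105 5 14))))))] (.c k89 (.l (.s k8 k4 1 (.s k65 k130 8 (.s k73 k134 10 (.s k69 k77 1 (.d
  k138 k203 k207 8 10)))))) .n))

def s63_170_234 : T TT 256 :=
  (.q k203 [(.s k130 k65 8 (.s k207 k199 1 (.s k138 k69 10 (.s k134 k142 1 (.d k73 k8 k12 8 10))))),
  (.s k65 k130 8 (.s k105 k125 5 (.s k150 k60 14 (.s k154 k56 12 (.s k16 k223 10 (.s k48 k32 3 (.d
  k146 k158 k97 1 12))))))), (.s k207 k199 1 (.s k69 k138 10 (.s k101 k117 3 (.s k154 k48 14 (.s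
  k105 k56 12 (.s k109 k97 1 (.d k60 k158 k150 12 14)))))))] (.c k42 (.q k106 [(.s k130 k65 8 (.s
  k207 k199 1 (.s k138 k69 10 (.s k134 k142 1 (.d k73 k8 k12 8 10))))), (.s k64 k127 6 (.s k192 k128
  7 (.s k194 k193 0 (.s k150 k62 13 (.s k20 k215 8 (.d k60 k40 k105 5 14))))))] .n) (.c k106 (.q k42
  [(.s k130 k65 8 (.s k207 k199 1 (.s k138 k69 10 (.s k134 k142 1 (.d k73 k8 k12 8 10))))), (.s k65
  k130 8 (.s k105 k125 5 (.s k150 k60 14 (.s k154 k56 12 (.s k16 k223 10 (.s k48 k32 3 (.d k146 k158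
  k97 1 12))))))), (.s k207 k199 1 (.s k69 k138 10 (.s k101 k117 3 (.s k154 k48 14 (.s k105 k56 12
  (.s k109 k97 1 (.d k60 k158 k150 12 14)))))))] (.c k149 (.q k192 [(.s k128 k64 7 (.s k130 k65 8
  (.s k129 k131 0 (.s k66 k3 8 (.d k194 k193 k2 0 7))))), (.s k130 k65 8 (.s k207 k199 1 (.s k138
  k69 10 (.s k73 k8 8 (.d k134 k142 k12 1 10))))), (.s k194 k193 0 (.s k207 k199 1 (.s k202 k197 2
  (.s k198 k206 1 (.d k201 k200 k204 0 2)))))] (.c k128 (.q k191 [(.s k130 k65 8 (.s k207 k199 1 (.s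
  k138 k69 10 (.s k134 k142 1 (.d k73 k8 k12 8 10))))), (.s k194 k193 0 (.s k207 k199 1 (.s k202
  k197 2 (.s k198 k206 1 (.d k201 k200 k204 0 2))))), (.s k65 k130 8 (.s k105 k125 5 (.s k150 k60 14
  (.s k154 k56 12 (.s k16 k223 10 (.s k48 k32 3 (.d k146 k158 k97 1 12)))))))] .n) (.c k191 (.l (.s
  k128 k64 7 (.s k130 k65 8 (.s k129 k131 0 (.s k66 k3 8 (.d k194 k193 k2 0 7)))))) .n))) (.c k192
  (.q k149 [(.s k130 k65 8 (.s k207 k199 1 (.s k138 k69 10 (.s k134 k142 1 (.d k73 k8 k12 8 10))))),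
  (.s k65 k130 8 (.s k105 k125 5 (.s k193 k61 13 (.s k1 k129 7 (.s k213 k21 7 (.d k253 k233 k169 5
  13)))))), (.s k207 k199 1 (.s k69 k138 10 (.s k101 k117 3 (.s k154 k48 14 (.s k105 k56 12 (.s k109
  k97 1 (.d k60 k158 k150 12 14)))))))] (.c k213 (.q k255 [(.s k65 k130 8 (.s k105 k125 5 (.s k215
  k235 5 (.d k150 k20 k60 8 14)))), (.s k207 k199 1 (.s k69 k138 10 (.s k101 k117 3 (.s k154 k48 14
  (.d k223 k239 k16 3 10)))))] .n) (.c k255 (.l (.s k213 k21 7 (.s k65 k130 8 (.s k105 k125 5 (.s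
  k193 k61 13 (.s k1 k129 7 (.d k253 k233 k169 5 13))))))) .n))) .n))) .n)))

def s63_170_235 : T TT 256 :=
  (.q k89 [(.s k65 k130 8 (.s k81 k93 1 (.s k97 k113 3 (.s k48 k146 12 (.s k32 k16 3 (.d k162 k227
  k243 8 12)))))), (.s k65 k130 8 (.s k105 k125 5 (.s k73 k121 3 (.s k12 k134 10 (.s k4 k8 1 (.d
  k166 k247 k243 12 14)))))), (.s k81 k93 1 (.s k243 k162 12 (.s k211 k227 3 (.s k150 k28 10 (.s k20
  k215 8 (.d k60 k40 k105 5 14))))))] (.c k40 (.q k105 [(.d k65 k125 k130 5 8), (.s k73 k121 3 (.s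
  k12 k134 10 (.s k4 k8 1 (.d k166 k247 k243 12 14))))] .n) (.c k105 (.q k40 [(.s k20 k60 5 (.s k81
  k93 1 (.s k150 k215 8 (.s k243 k162 12 (.d k211 k227 k28 3 10))))), (.s k81 k93 1 (.s k130 k65 8
  (.s k162 k243 12 (.s k146 k178 3 (.s k16 k211 8 (.d k48 k32 k97 3 12)))))), (.s k20 k60 5 (.s k150
  k215 8 (.s k28 k211 10 (.s k16 k24 1 (.s k48 k32 3 (.s k146 k97 12 (.d k154 k223 k158 10 1)))))))]
  (.c k162 (.l (.s k20 k60 5 (.s k93 k81 1 (.s k150 k215 8 (.s k28 k211 10 (.s k16 k24 1 (.d k223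
  k158 k154 8 10))))))) (.c k211 (.l (.s k65 k130 8 (.s k81 k93 1 (.s k97 k113 3 (.s k48 k146 12 (.s
  k32 k16 3 (.d k162 k227 k243 8 12))))))) .n))) (.c k150 (.l (.s k81 k93 1 (.s k130 k65 8 (.s k162
  k243 12 (.s k146 k178 3 (.s k16 k211 8 (.d k48 k32 k97 3 12))))))) (.c k243 (.l (.s k65 k130 8 (.s
  k81 k93 1 (.s k105 k125 5 (.s k73 k121 3 (.s k77 k69 1 (.d k113 k97 k101 3 5))))))) .n)))))

def s63_170_236 : T TT 256 :=
  (.q k1 [(.s k3 k2 0 (.s k131 k67 7 (.s k169 k253 13 (.s k150 k188 6 (.s k20 k215 8 (.d k60 k40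
  k105 5 14)))))), (.s k65 k130 8 (.s k105 k125 5 (.s k169 k253 13 (.s k41 k233 7 (.s k61 k21 5 (.d
  k193 k129 k149 7 13)))))), (.s k3 k2 0 (.s k65 k130 8 (.s k67 k131 7 (.s k66 k64 0 (.d k129 k193
  k192 7 8)))))] (.c k150 (.l (.s k3 k2 0 (.s k67 k131 7 (.s k169 k253 13 (.s k86 k252 14 (.s k105
  k124 6 (.d k65 k125 k130 5 8))))))) .n))

def s63_170_237 : T TT 256 :=
  (.q k1 [(.s k3 k2 0 (.s k65 k130 8 (.s k67 k131 7 (.s k66 k64 0 (.d k129 k193 k192 7 8))))), (.s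
  k65 k130 8 (.s k105 k125 5 (.s k169 k253 13 (.s k41 k233 7 (.s k61 k21 5 (.d k193 k129 k149 7
  13)))))), (.s k3 k2 0 (.s k131 k67 7 (.s k169 k253 13 (.s k150 k188 6 (.s k20 k215 8 (.d k60 k40
  k105 5 14))))))] (.c k150 (.l (.s k3 k2 0 (.s k67 k131 7 (.s k169 k253 13 (.s k86 k252 14 (.s k105
  k124 6 (.d k65 k125 k130 5 8))))))) .n))

def s63_170_238 : T TT 256 :=
  (.q k207 [(.s k130 k65 8 (.s k138 k69 10 (.s k134 k142 1 (.s k73 k12 10 (.d k203 k199 k8 1 8))))),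
  (.s k65 k130 8 (.s k105 k125 5 (.s k203 k199 1 (.s k154 k56 12 (.s k16 k223 10 (.d k48 k32 k101 3
  14)))))), (.s k65 k130 8 (.s k69 k138 10 (.s k101 k117 3 (.s k105 k125 5 (.s k97 k109 1 (.d k48
  k154 k146 14 12)))))), (.s k69 k138 10 (.s k101 k117 3 (.s k199 k203 1 (.s k150 k52 12 (.s k20
  k215 8 (.d k60 k40 k105 5 14))))))] (.c k34 (.q k102 [(.s k130 k65 8 (.s k138 k69 10 (.s k134 k142
  1 (.s k73 k12 10 (.d k203 k199 k8 1 8))))), (.s k65 k130 8 (.s k68 k119 4 (.s k105 k125 5 (.s k99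
  k108 2 (.s k51 k147 11 (.d k204 k136 k153 9 14)))))), (.s k68 k119 4 (.s k69 k138 10 (.s k70 k71 0
  (.s k204 k136 9 (.s k137 k3 10 (.d k205 k206 k1 0 9))))))] .n) (.c k102 (.q k34 [(.s k130 k65 8
  (.s k138 k69 10 (.s k134 k142 1 (.s k73 k12 10 (.d k203 k199 k8 1 8))))), (.s k65 k130 8 (.s k105
  k125 5 (.s k203 k199 1 (.s k154 k56 12 (.s k16 k223 10 (.d k48 k32 k101 3 14)))))), (.s k65 k130 8
  (.s k69 k138 10 (.s k101 k117 3 (.s k105 k125 5 (.s k97 k109 1 (.d k48 k154 k146 14 12)))))), (.s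
  k69 k138 10 (.s k101 k117 3 (.s k199 k203 1 (.s k150 k52 12 (.s k20 k215 8 (.d k60 k40 k105 5
  14))))))] .n) .n)))

def s63_170_239 : T TT 256 :=
  (.q k101 [(.s k65 k130 8 (.s k69 k117 3 (.s k73 k77 1 (.s k12 k134 10 (.s k8 k4 1 (.d k138 k203
  k207 8 10)))))), (.s k65 k130 8 (.s k105 k125 5 (.s k97 k109 1 (.s k48 k146 12 (.s k16 k32 3 (.d
  k154 k223 k207 10 14)))))), (.s k69 k117 3 (.s k207 k138 10 (.s k199 k203 1 (.s k150 k52 12 (.s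
  k20 k215 8 (.d k60 k40 k105 5 14))))))] (.c k150 (.l (.s k69 k117 3 (.s k130 k65 8 (.s k138 k207
  10 (.s k134 k142 1 (.s k4 k199 8 (.d k12 k8 k73 1 10))))))) (.c k207 (.l (.s k65 k130 8 (.s k69
  k117 3 (.s k77 k73 1 (.s k89 k113 5 (.s k93 k81 1 (.d k125 k109 k105 3 5))))))) .n)))

def s63_170_240 : T TT 256 :=
  (.q k192 [(.s k128 k64 7 (.s k194 k193 0 (.s k130 k65 8 (.s k66 k2 7 (.d k129 k131 k3 0 8))))),
  (.s k64 k128 7 (.s k106 k127 6 (.s k194 k193 0 (.s k150 k62 13 (.s k20 k215 8 (.d k60 k40 k105 5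
  14)))))), (.s k64 k128 7 (.s k65 k130 8 (.s k105 k125 5 (.s k106 k127 6 (.s k104 k107 0 (.d k60
  k150 k148 14 13)))))), (.s k65 k130 8 (.s k105 k125 5 (.s k193 k194 0 (.s k149 k61 13 (.s k213 k21
  7 (.s k253 k233 5 (.d k1 k129 k169 7 13)))))))] (.c k122 (.q k181 [(.s k128 k64 7 (.s k194 k193 0
  (.s k130 k65 8 (.s k66 k2 7 (.d k129 k131 k3 0 8))))), (.s k64 k128 7 (.s k106 k127 6 (.s k194
  k193 0 (.s k150 k62 13 (.s k20 k215 8 (.d k60 k40 k105 5 14)))))), (.s k64 k128 7 (.s k65 k130 8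
  (.s k105 k125 5 (.s k106 k127 6 (.s k104 k107 0 (.d k60 k150 k148 14 13)))))), (.s k65 k130 8 (.s
  k105 k125 5 (.s k193 k194 0 (.s k149 k61 13 (.s k213 k21 7 (.s k253 k233 5 (.d k1 k129 k169 7
  13)))))))] .n) (.c k181 (.q k122 [(.s k128 k64 7 (.s k194 k193 0 (.s k130 k65 8 (.s k66 k2 7 (.d
  k129 k131 k3 0 8))))), (.s k64 k128 7 (.s k106 k127 6 (.s k194 k193 0 (.s k150 k62 13 (.s k20 k215
  8 (.d k60 k40 k105 5 14)))))), (.s k64 k128 7 (.s k65 k130 8 (.s k105 k125 5 (.s k106 k127 6 (.s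
  k104 k107 0 (.d k60 k150 k148 14 13)))))), (.s k65 k130 8 (.s k105 k125 5 (.s k193 k194 0 (.s k149
  k61 13 (.s k213 k21 7 (.s k253 k233 5 (.d k1 k129 k169 7 13)))))))] .n) .n)))

def s63_170_241 : T TT 256 :=
  (.q k1 [(.s k3 k2 0 (.s k65 k130 8 (.s k67 k131 7 (.s k66 k64 0 (.d k129 k193 k192 7 8))))), (.s
  k65 k130 8 (.s k105 k125 5 (.s k169 k253 13 (.s k41 k233 7 (.s k61 k21 5 (.d k193 k129 k149 7
  13)))))), (.s k3 k2 0 (.s k131 k67 7 (.s k169 k253 13 (.s k150 k188 6 (.s k20 k215 8 (.d k60 k40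
  k105 5 14))))))] (.c k150 (.l (.s k3 k2 0 (.s k67 k131 7 (.s k169 k253 13 (.s k86 k252 14 (.s k105
  k124 6 (.d k65 k125 k130 5 8))))))) .n))

def s63_170_242 : T TT 256 :=
  (.q k1 [(.s k65 k130 8 (.s k105 k125 5 (.s k169 k253 13 (.s k41 k233 7 (.s k61 k21 5 (.d k193 k129
  k149 7 13)))))), (.s k3 k2 0 (.s k131 k67 7 (.s k169 k253 13 (.s k150 k188 6 (.s k20 k215 8 (.d
  k60 k40 k105 5 14)))))), (.s k3 k2 0 (.s k65 k130 8 (.s k67 k131 7 (.s k66 k64 0 (.d k129 k193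
  k192 7 8)))))] (.c k150 (.l (.s k3 k2 0 (.s k67 k131 7 (.s k169 k253 13 (.s k86 k252 14 (.s k105
  k124 6 (.d k65 k125 k130 5 8))))))) .n))

def s63_170_243 : T TT 256 :=
  (.q k1 [(.s k3 k2 0 (.s k131 k67 7 (.s k169 k253 13 (.s k150 k188 6 (.s k20 k215 8 (.d k60 k40
  k105 5 14)))))), (.s k65 k130 8 (.s k105 k125 5 (.s k169 k253 13 (.s k41 k233 7 (.s k61 k21 5 (.d
  k193 k129 k149 7 13)))))), (.s k3 k2 0 (.s k65 k130 8 (.s k67 k131 7 (.s k66 k64 0 (.d k129 k193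
  k192 7 8)))))] (.c k123 (.q k183 [(.s k3 k2 0 (.s k131 k67 7 (.s k169 k253 13 (.s k150 k188 6 (.s
  k20 k215 8 (.d k60 k40 k105 5 14)))))), (.s k65 k130 8 (.s k105 k125 5 (.s k169 k253 13 (.s k41
  k233 7 (.s k61 k21 5 (.d k193 k129 k149 7 13)))))), (.s k3 k2 0 (.s k65 k130 8 (.s k67 k131 7 (.s
  k66 k64 0 (.d k129 k193 k192 7 8)))))] (.c k150 (.l (.s k3 k2 0 (.s k67 k131 7 (.s k169 k253 13
  (.s k86 k252 14 (.s k105 k124 6 (.d k65 k125 k130 5 8))))))) .n)) (.c k150 (.l (.s k3 k2 0 (.s k67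
  k131 7 (.s k169 k253 13 (.s k86 k252 14 (.s k105 k124 6 (.d k65 k125 k130 5 8))))))) (.c k183 (.q
  k123 [(.s k3 k2 0 (.s k131 k67 7 (.s k169 k253 13 (.s k150 k188 6 (.s k20 k215 8 (.d k60 k40 k105
  5 14)))))), (.s k65 k130 8 (.s k105 k125 5 (.s k169 k253 13 (.s k41 k233 7 (.s k61 k21 5 (.d k193
  k129 k149 7 13)))))), (.s k3 k2 0 (.s k65 k130 8 (.s k67 k131 7 (.s k66 k64 0 (.d k129 k193 k192 7
  8)))))] (.c k150 (.l (.s k3 k2 0 (.s k67 k131 7 (.s k169 k253 13 (.s k86 k252 14 (.s k105 k124 6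
  (.d k65 k125 k130 5 8))))))) .n)) .n))))

def s63_170_244 : T TT 256 :=
  (.q k1 [(.s k3 k2 0 (.s k131 k67 7 (.s k169 k253 13 (.s k150 k188 6 (.s k20 k215 8 (.d k60 k40
  k105 5 14)))))), (.s k65 k130 8 (.s k105 k125 5 (.s k169 k253 13 (.s k41 k233 7 (.s k61 k21 5 (.d
  k193 k129 k149 7 13)))))), (.s k3 k2 0 (.s k65 k130 8 (.s k67 k131 7 (.s k66 k64 0 (.d k129 k193
  k192 7 8)))))] (.c k150 (.l (.s k3 k2 0 (.s k67 k131 7 (.s k169 k253 13 (.s k86 k252 14 (.s k105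
  k124 6 (.d k65 k125 k130 5 8))))))) .n))

def s63_170_245 : T TT 256 :=
  (.q k1 [(.s k3 k2 0 (.s k65 k130 8 (.s k67 k131 7 (.s k66 k64 0 (.d k129 k193 k192 7 8))))), (.s
  k65 k130 8 (.s k105 k125 5 (.s k169 k253 13 (.s k41 k233 7 (.s k61 k21 5 (.d k193 k129 k149 7
  13)))))), (.s k3 k2 0 (.s k131 k67 7 (.s k169 k253 13 (.s k150 k188 6 (.s k20 k215 8 (.d k60 k40
  k105 5 14))))))] (.c k150 (.l (.s k3 k2 0 (.s k67 k131 7 (.s k169 k253 13 (.s k86 k252 14 (.s k105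
  k124 6 (.d k65 k125 k130 5 8))))))) .n))

def s63_170_246 : T TT 256 :=
  (.q k1 [(.s k3 k2 0 (.s k131 k67 7 (.s k169 k253 13 (.s k150 k188 6 (.s k20 k215 8 (.d k60 k40
  k105 5 14)))))), (.s k65 k130 8 (.s k105 k125 5 (.s k169 k253 13 (.s k41 k233 7 (.s k61 k21 5 (.d
  k193 k129 k149 7 13)))))), (.s k3 k2 0 (.s k65 k130 8 (.s k67 k131 7 (.s k66 k64 0 (.d k129 k193
  k192 7 8)))))] (.c k150 (.l (.s k3 k2 0 (.s k67 k131 7 (.s k169 k253 13 (.s k86 k252 14 (.s k105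
  k124 6 (.d k65 k125 k130 5 8))))))) .n))

def s63_170_247 : T TT 256 :=
  (.q k1 [(.s k3 k2 0 (.s k65 k130 8 (.s k67 k131 7 (.s k66 k64 0 (.d k129 k193 k192 7 8))))), (.s
  k65 k130 8 (.s k105 k125 5 (.s k169 k253 13 (.s k41 k233 7 (.s k61 k21 5 (.d k193 k129 k149 7
  13)))))), (.s k3 k2 0 (.s k131 k67 7 (.s k169 k253 13 (.s k150 k188 6 (.s k20 k215 8 (.d k60 k40
  k105 5 14))))))] (.c k150 (.l (.s k3 k2 0 (.s k67 k131 7 (.s k169 k253 13 (.s k86 k252 14 (.s k105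
  k124 6 (.d k65 k125 k130 5 8))))))) .n))

def s63_170_248 : T TT 256 :=
  (.q k1 [(.s k3 k2 0 (.s k131 k67 7 (.s k169 k253 13 (.s k150 k188 6 (.s k20 k215 8 (.d k60 k40
  k105 5 14)))))), (.s k65 k130 8 (.s k105 k125 5 (.s k169 k253 13 (.s k41 k233 7 (.s k61 k21 5 (.d
  k193 k129 k149 7 13)))))), (.s k3 k2 0 (.s k65 k130 8 (.s k67 k131 7 (.s k66 k64 0 (.d k129 k193
  k192 7 8)))))] (.c k150 (.l (.s k3 k2 0 (.s k67 k131 7 (.s k169 k253 13 (.s k86 k252 14 (.s k105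
  k124 6 (.d k65 k125 k130 5 8))))))) .n))

def s63_170_249 : T TT 256 :=
  (.q k1 [(.s k3 k2 0 (.s k65 k130 8 (.s k67 k131 7 (.s k66 k64 0 (.d k129 k193 k192 7 8))))), (.s
  k65 k130 8 (.s k105 k125 5 (.s k169 k253 13 (.s k41 k233 7 (.s k61 k21 5 (.d k193 k129 k149 7
  13)))))), (.s k3 k2 0 (.s k131 k67 7 (.s k169 k253 13 (.s k150 k188 6 (.s k20 k215 8 (.d k60 k40
  k105 5 14))))))] (.c k150 (.l (.s k3 k2 0 (.s k67 k131 7 (.s k169 k253 13 (.s k86 k252 14 (.s k105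
  k124 6 (.d k65 k125 k130 5 8))))))) .n))

def s63_170_250 : T TT 256 :=
  (.q k48 [(.s k16 k32 3 (.s k130 k65 8 (.s k146 k97 12 (.s k81 k211 8 (.d k162 k178 k243 3 12))))),
  (.s k16 k32 3 (.s k65 k130 8 (.s k105 k125 5 (.s k154 k223 10 (.s k56 k203 12 (.d k60 k150 k52 14
  1)))))), (.s k65 k130 8 (.s k97 k146 12 (.s k105 k125 5 (.s k101 k109 1 (.s k69 k117 3 (.d k207
  k138 k154 10 14)))))), (.s k16 k32 3 (.s k146 k97 12 (.s k154 k223 10 (.s k150 k158 1 (.s k20 k215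
  8 (.d k60 k40 k105 5 14))))))] (.c k10 (.q k90 [(.s k16 k32 3 (.s k130 k65 8 (.s k146 k97 12 (.s
  k81 k211 8 (.d k162 k178 k243 3 12))))), (.s k65 k130 8 (.s k80 k95 2 (.s k105 k125 5 (.s k75 k120
  4 (.s k15 k135 9 (.d k240 k160 k165 11 14)))))), (.s k16 k32 3 (.s k80 k95 2 (.s k144 k208 7 (.s
  k96 k192 11 (.s k112 k64 3 (.d k240 k176 k160 7 11))))))] .n) (.c k90 (.q k10 [(.s k16 k32 3 (.s
  k130 k65 8 (.s k146 k97 12 (.s k81 k211 8 (.d k162 k178 k243 3 12))))), (.s k16 k32 3 (.s k65 k130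
  8 (.s k105 k125 5 (.s k154 k223 10 (.s k56 k203 12 (.d k60 k150 k52 14 1)))))), (.s k65 k130 8 (.s
  k97 k146 12 (.s k105 k125 5 (.s k101 k109 1 (.s k69 k117 3 (.d k207 k138 k154 10 14)))))), (.s k16
  k32 3 (.s k146 k97 12 (.s k154 k223 10 (.s k150 k158 1 (.s k20 k215 8 (.d k60 k40 k105 5 14))))))]
  (.c k101 (.l (.s k32 k16 3 (.s k65 k130 8 (.s k97 k146 12 (.s k81 k113 3 (.d k162 k227 k243 8
  12)))))) .n)) (.c k101 (.l (.s k32 k16 3 (.s k65 k130 8 (.s k97 k146 12 (.s k81 k113 3 (.d k162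
  k227 k243 8 12)))))) .n))))

def s63_170_251 : T TT 256 :=
  (.q k89 [(.s k65 k130 8 (.s k81 k93 1 (.s k97 k113 3 (.s k48 k146 12 (.s k32 k16 3 (.d k162 k227
  k243 8 12)))))), (.s k65 k130 8 (.s k105 k125 5 (.s k73 k121 3 (.s k12 k134 10 (.s k4 k8 1 (.d
  k166 k247 k243 12 14)))))), (.s k81 k93 1 (.s k243 k162 12 (.s k211 k227 3 (.s k150 k28 10 (.s k20
  k215 8 (.d k60 k40 k105 5 14))))))] (.c k150 (.l (.s k81 k93 1 (.s k130 k65 8 (.s k162 k243 12 (.s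
  k146 k178 3 (.s k16 k211 8 (.d k48 k32 k97 3 12))))))) (.c k243 (.l (.s k65 k130 8 (.s k81 k93 1
  (.s k105 k125 5 (.s k73 k121 3 (.s k77 k69 1 (.d k113 k97 k101 3 5))))))) .n)))

def s63_170_252 : T TT 256 :=
  (.q k227 [(.s k130 k65 8 (.s k243 k211 3 (.s k162 k81 12 (.s k146 k178 3 (.d k97 k32 k48 8
  12))))), (.s k65 k130 8 (.s k105 k125 5 (.s k150 k60 14 (.s k166 k44 10 (.s k4 k247 12 (.s k12 k8
  1 (.d k134 k182 k73 3 10))))))), (.s k243 k211 3 (.s k81 k162 12 (.s k89 k93 1 (.s k166 k12 14 (.s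
  k105 k44 10 (.s k121 k73 3 (.d k60 k182 k150 10 14)))))))] (.c k126 (.q k189 [(.s k130 k65 8 (.s
  k243 k211 3 (.s k162 k81 12 (.s k146 k178 3 (.d k97 k32 k48 8 12))))), (.s k65 k130 8 (.s k105
  k125 5 (.s k150 k60 14 (.s k166 k44 10 (.s k4 k247 12 (.s k12 k8 1 (.d k134 k182 k73 3 10))))))),
  (.s k243 k211 3 (.s k81 k162 12 (.s k89 k93 1 (.s k166 k12 14 (.s k105 k44 10 (.s k121 k73 3 (.d
  k60 k182 k150 10 14)))))))] .n) (.c k189 (.q k126 [(.s k130 k65 8 (.s k243 k211 3 (.s k162 k81 12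
  (.s k146 k178 3 (.d k97 k32 k48 8 12))))), (.s k65 k130 8 (.s k105 k125 5 (.s k150 k60 14 (.s k166
  k44 10 (.s k4 k247 12 (.s k12 k8 1 (.d k134 k182 k73 3 10))))))), (.s k243 k211 3 (.s k81 k162 12
  (.s k89 k93 1 (.s k166 k12 14 (.s k105 k44 10 (.s k121 k73 3 (.d k60 k182 k150 10 14)))))))] .n)
  .n)))

def s63_170_253 : T TT 256 :=
  (.q k12 [(.s k4 k8 1 (.s k130 k65 8 (.s k134 k73 10 (.s k69 k199 8 (.d k138 k142 k207 1 10))))),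
  (.s k4 k8 1 (.s k65 k130 8 (.s k105 k125 5 (.s k166 k247 12 (.s k44 k227 10 (.d k60 k150 k28 14
  3)))))), (.s k65 k130 8 (.s k73 k134 10 (.s k105 k125 5 (.s k89 k121 3 (.s k81 k93 1 (.d k243 k162
  k166 12 14)))))), (.s k4 k8 1 (.s k134 k73 10 (.s k166 k247 12 (.s k150 k182 3 (.s k20 k215 8 (.d
  k60 k40 k105 5 14))))))] (.c k89 (.l (.s k8 k4 1 (.s k65 k130 8 (.s k73 k134 10 (.s k69 k77 1 (.d
  k138 k203 k207 8 10)))))) .n))

def s63_170_254 : T TT 256 :=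
  (.q k86 [(.s k84 k87 0 (.s k252 k168 13 (.s k214 k233 6 (.s k150 k22 7 (.s k20 k215 8 (.d k60 k40
  k105 5 14)))))), (.s k65 k130 8 (.s k105 k125 5 (.s k67 k124 6 (.s k3 k131 7 (.s k1 k2 0 (.d k169
  k253 k252 13 14)))))), (.s k65 k130 8 (.s k87 k84 0 (.s k105 k125 5 (.s k67 k124 6 (.s k64 k66 0
  (.d k127 k107 k106 5 6))))))] (.c k105 (.f k84 k87 0 (.l (.s k252 k168 13 (.s k169 k3 14 (.s k214
  k233 6 (.s k150 k22 7 (.s k20 k215 8 (.s k188 k131 6 (.d k60 k40 k124 5 7))))))))) (.c k150 (.l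
  (.s k84 k87 0 (.s k252 k168 13 (.s k169 k3 14 (.s k233 k214 6 (.s k105 k41 7 (.d k65 k125 k130 5
  8))))))) .n)))

def s63_170_255 : T TT 256 :=
  (.q k48 [(.s k16 k32 3 (.s k130 k65 8 (.s k146 k97 12 (.s k81 k211 8 (.d k162 k178 k243 3 12))))),
  (.s k16 k32 3 (.s k65 k130 8 (.s k105 k125 5 (.s k154 k223 10 (.s k56 k203 12 (.d k60 k150 k52 14
  1)))))), (.s k65 k130 8 (.s k97 k146 12 (.s k105 k125 5 (.s k101 k109 1 (.s k69 k117 3 (.d k207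
  k138 k154 10 14)))))), (.s k16 k32 3 (.s k146 k97 12 (.s k154 k223 10 (.s k150 k158 1 (.s k20 k215
  8 (.d k60 k40 k105 5 14))))))] (.c k101 (.l (.s k32 k16 3 (.s k65 k130 8 (.s k97 k146 12 (.s k81
  k113 3 (.d k162 k227 k243 8 12)))))) (.c k127 (.q k191 [(.s k16 k32 3 (.s k130 k65 8 (.s k146 k97
  12 (.s k81 k211 8 (.d k162 k178 k243 3 12))))), (.s k16 k32 3 (.s k65 k130 8 (.s k105 k125 5 (.s
  k154 k223 10 (.s k56 k203 12 (.d k60 k150 k52 14 1)))))), (.s k65 k130 8 (.s k97 k146 12 (.s k105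
  k125 5 (.s k101 k109 1 (.s k69 k117 3 (.d k207 k138 k154 10 14)))))), (.s k16 k32 3 (.s k146 k97
  12 (.s k154 k223 10 (.s k150 k158 1 (.s k20 k215 8 (.d k60 k40 k105 5 14))))))] (.c k101 (.l (.s
  k32 k16 3 (.s k65 k130 8 (.s k97 k146 12 (.s k81 k113 3 (.d k162 k227 k243 8 12)))))) .n)) (.c
  k191 (.q k127 [(.s k16 k32 3 (.s k130 k65 8 (.s k146 k97 12 (.s k81 k211 8 (.d k162 k178 k243 3
  12))))), (.s k64 k106 6 (.s k65 k130 8 (.s k67 k66 0 (.s k87 k107 5 (.s k86 k84 0 (.d k105 k125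
  k124 5 6)))))), (.s k16 k32 3 (.s k146 k97 12 (.s k154 k223 10 (.s k150 k158 1 (.s k20 k215 8 (.d
  k60 k40 k105 5 14))))))] (.c k128 (.q k149 [(.s k16 k32 3 (.s k130 k65 8 (.s k146 k97 12 (.s k81
  k211 8 (.d k162 k178 k243 3 12))))), (.s k64 k106 6 (.s k65 k130 8 (.s k67 k66 0 (.s k87 k107 5
  (.s k86 k84 0 (.d k105 k125 k124 5 6)))))), (.s k16 k32 3 (.s k21 k213 7 (.s k31 k26 2 (.s k90
  k208 10 (.s k95 k80 2 (.d k223 k159 k154 7 10))))))] .n) (.c k149 (.q k128 [(.d k64 k106 k192 6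
  7)] (.c k64 (.l (.s k16 k32 3 (.s k130 k65 8 (.s k146 k97 12 (.s k81 k211 8 (.d k162 k178 k243 3
  12)))))) (.c k106 (.l (.s k192 k64 7 (.s k16 k32 3 (.s k144 k96 11 (.s k80 k208 7 (.d k160 k176
  k240 3 11)))))) (.c k192 (.l (.s k106 k64 6 (.s k16 k32 3 (.s k130 k65 8 (.s k146 k97 12 (.s k81
  k211 8 (.d k162 k178 k243 3 12))))))) .n)))) .n))) .n))))

def t63_170 : T TT 256 :=
  (.q k195 [] (.c k1 s63_170_1 (.c k2 s63_170_2 (.c k3 s63_170_3 (.c k4 s63_170_4 (.c k5 s63_170_5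
  (.c k6 s63_170_6 (.c k7 s63_170_7 (.c k8 s63_170_8 (.c k9 s63_170_9 (.c k10 s63_170_10 (.c k11
  s63_170_11 (.c k12 s63_170_12 (.c k13 s63_170_13 (.c k14 s63_170_14 (.c k15 s63_170_15 (.c k16
  s63_170_16 (.c k17 s63_170_17 (.c k18 s63_170_18 (.c k19 s63_170_19 (.c k20 s63_170_20 (.c k21
  s63_170_21 (.c k22 s63_170_22 (.c k23 s63_170_23 (.c k24 s63_170_24 (.c k25 s63_170_25 (.c k26
  s63_170_26 (.c k27 s63_170_27 (.c k28 s63_170_28 (.c k29 s63_170_29 (.c k30 s63_170_30 (.c k31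
  s63_170_31 (.c k32 s63_170_32 (.c k33 s63_170_33 (.c k34 s63_170_34 (.c k35 s63_170_35 (.c k36
  s63_170_36 (.c k37 s63_170_37 (.c k38 s63_170_38 (.c k39 s63_170_39 (.c k40 s63_170_40 (.c k41
  s63_170_41 (.c k42 s63_170_42 (.c k43 s63_170_43 (.c k44 s63_170_44 (.c k45 s63_170_45 (.c k46
  s63_170_46 (.c k47 s63_170_47 (.c k48 s63_170_48 (.c k49 s63_170_49 (.c k50 s63_170_50 (.c k51
  s63_170_51 (.c k52 s63_170_52 (.c k53 s63_170_53 (.c k54 s63_170_54 (.c k55 s63_170_55 (.c k56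
  s63_170_56 (.c k57 s63_170_57 (.c k58 s63_170_58 (.c k59 s63_170_59 (.c k60 s63_170_60 (.c k61
  s63_170_61 (.c k62 s63_170_62 (.c k64 s63_170_64 (.c k65 s63_170_65 (.c k66 s63_170_66 (.c k67
  s63_170_67 (.c k68 s63_170_68 (.c k69 s63_170_69 (.c k70 s63_170_70 (.c k71 s63_170_71 (.c k72
  s63_170_72 (.c k73 s63_170_73 (.c k74 s63_170_74 (.c k75 s63_170_75 (.c k76 s63_170_76 (.c k77
  s63_170_77 (.c k78 s63_170_78 (.c k79 s63_170_79 (.c k80 s63_170_80 (.c k81 s63_170_81 (.c k82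
  s63_170_82 (.c k83 s63_170_83 (.c k84 s63_170_84 (.c k86 s63_170_86 (.c k87 s63_170_87 (.c k88
  s63_170_88 (.c k89 s63_170_89 (.c k90 s63_170_90 (.c k91 s63_170_91 (.c k92 s63_170_92 (.c k93
  s63_170_93 (.c k94 s63_170_94 (.c k95 s63_170_95 (.c k96 s63_170_96 (.c k97 s63_170_97 (.c k98
  s63_170_98 (.c k99 s63_170_99 (.c k100 s63_170_100 (.c k101 s63_170_101 (.c k102 s63_170_102 (.c
  k103 s63_170_103 (.c k104 s63_170_104 (.c k105 s63_170_105 (.c k106 s63_170_106 (.c k107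
  s63_170_107 (.c k108 s63_170_108 (.c k109 s63_170_109 (.c k110 s63_170_110 (.c k111 s63_170_111
  (.c k112 s63_170_112 (.c k113 s63_170_113 (.c k114 s63_170_114 (.c k115 s63_170_115 (.c k116
  s63_170_116 (.c k117 s63_170_117 (.c k118 s63_170_118 (.c k119 s63_170_119 (.c k120 s63_170_120
  (.c k121 s63_170_121 (.c k122 s63_170_122 (.c k123 s63_170_123 (.c k124 s63_170_124 (.c k125
  s63_170_125 (.c k126 s63_170_126 (.c k127 s63_170_127 (.c k128 s63_170_128 (.c k129 s63_170_129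
  (.c k130 s63_170_130 (.c k131 s63_170_131 (.c k132 s63_170_132 (.c k133 s63_170_133 (.c k134
  s63_170_134 (.c k135 s63_170_135 (.c k136 s63_170_136 (.c k137 s63_170_137 (.c k138 s63_170_138
  (.c k139 s63_170_139 (.c k140 s63_170_140 (.c k141 s63_170_141 (.c k142 s63_170_142 (.c k143
  s63_170_143 (.c k144 s63_170_144 (.c k145 s63_170_145 (.c k146 s63_170_146 (.c k147 s63_170_147
  (.c k148 s63_170_148 (.c k149 s63_170_149 (.c k150 s63_170_150 (.c k151 s63_170_151 (.c k152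
  s63_170_152 (.c k153 s63_170_153 (.c k154 s63_170_154 (.c k155 s63_170_155 (.c k156 s63_170_156
  (.c k157 s63_170_157 (.c k158 s63_170_158 (.c k159 s63_170_159 (.c k160 s63_170_160 (.c k161
  s63_170_161 (.c k162 s63_170_162 (.c k163 s63_170_163 (.c k164 s63_170_164 (.c k165 s63_170_165
  (.c k166 s63_170_166 (.c k167 s63_170_167 (.c k168 s63_170_168 (.c k169 s63_170_169 (.c k171
  s63_170_171 (.c k172 s63_170_172 (.c k173 s63_170_173 (.c k174 s63_170_174 (.c k175 s63_170_175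
  (.c k176 s63_170_176 (.c k177 s63_170_177 (.c k178 s63_170_178 (.c k179 s63_170_179 (.c k180
  s63_170_180 (.c k181 s63_170_181 (.c k182 s63_170_182 (.c k183 s63_170_183 (.c k184 s63_170_184
  (.c k185 s63_170_185 (.c k186 s63_170_186 (.c k187 s63_170_187 (.c k188 s63_170_188 (.c k189
  s63_170_189 (.c k190 s63_170_190 (.c k191 s63_170_191 (.c k192 s63_170_192 (.c k193 s63_170_193
  (.c k194 s63_170_194 (.c k196 s63_170_196 (.c k197 s63_170_197 (.c k198 s63_170_198 (.c k199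
  s63_170_199 (.c k200 s63_170_200 (.c k201 s63_170_201 (.c k202 s63_170_202 (.c k203 s63_170_203
  (.c k204 s63_170_204 (.c k205 s63_170_205 (.c k206 s63_170_206 (.c k207 s63_170_207 (.c k208
  s63_170_208 (.c k209 s63_170_209 (.c k210 s63_170_210 (.c k211 s63_170_211 (.c k212 s63_170_212
  (.c k213 s63_170_213 (.c k214 s63_170_214 (.c k215 s63_170_215 (.c k216 s63_170_216 (.c k217
  s63_170_217 (.c k218 s63_170_218 (.c k219 s63_170_219 (.c k220 s63_170_220 (.c k221 s63_170_221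
  (.c k222 s63_170_222 (.c k223 s63_170_223 (.c k224 s63_170_224 (.c k225 s63_170_225 (.c k226
  s63_170_226 (.c k227 s63_170_227 (.c k228 s63_170_228 (.c k229 s63_170_229 (.c k230 s63_170_230
  (.c k231 s63_170_231 (.c k232 s63_170_232 (.c k233 s63_170_233 (.c k234 s63_170_234 (.c k235
  s63_170_235 (.c k236 s63_170_236 (.c k237 s63_170_237 (.c k238 s63_170_238 (.c k239 s63_170_239
  (.c k240 s63_170_240 (.c k241 s63_170_241 (.c k242 s63_170_242 (.c k243 s63_170_243 (.c k244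
  s63_170_244 (.c k245 s63_170_245 (.c k246 s63_170_246 (.c k247 s63_170_247 (.c k248 s63_170_248
  (.c k249 s63_170_249 (.c k250 s63_170_250 (.c k251 s63_170_251 (.c k252 s63_170_252 (.c k253
  s63_170_253 (.c k254 s63_170_254 (.c k255 s63_170_255
  .n))))))))))))))))))))))))))))))))))))))))))))))))))))))))))))))))))))))))))))))))
  ))))))))))))))))))))))))))))))))))))))))))))))))))))))))))))))))))))))))))))))))
  )))))))))))))))))))))))))))))))))))))))))))))))))))))))))))))))))))))))))))))))) ))))))))))))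

/-- roots with certificates -/
def certs : List (Cell TT 256 × Cell TT 256 × T TT 256) :=
  [(k47, k170, t47_170), (k47, k255, t47_255), (k63, k170, t63_170)]

theorem c47_170 : rootOK k47 k170 t47_170 = true := by decide +kernel

theorem c47_255 : rootOK k47 k255 t47_255 = true := by decide +kernel

theorem c63_170 : rootOK k63 k170 t63_170 = true := by decide +kernel

theorem ok : certsOK certs = true :=
  certsOK_cons c47_170 (certsOK_cons c47_255 (certsOK_cons c63_170 (certsOK_nil)))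

theorem sound (k : Nat) (hk : (bits certs).testBit k = true) : PI k :=
  certs_sound certs ok k hk

end Pool.Agent.TTT.B10
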