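import Pool.Agent.TTT.Sym

set_option autoImplicit false
set_option maxRecDepth 100000

namespace Pool.Agent.TTT.B11

def s63_207_1 : T TT 256 :=
  (.f k255 k170 14 (.f k171 k87 13 (.q k243 [(.s k81 k162 12 (.s k89 k93 1 (.s k247 k251 1 (.d k166
  k4 k12 12 14)))), (.s k163 k83 11 (.s k167 k175 1 (.s k91 k15 13 (.d k251 k247 k11 1 11)))), (.s
  k81 k162 12 (.s k83 k163 11 (.s k80 k82 0 (.s k89 k93 1 (.s k90 k95 2 (.s k88 k91 0 (.d k92 k84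
  k86 1 2)))))))] (.c k111 (.q k159 [(.s k81 k162 12 (.s k89 k93 1 (.s k247 k251 1 (.d k166 k4 k12
  12 14)))), (.s k163 k83 11 (.s k167 k175 1 (.s k91 k15 13 (.d k251 k247 k11 1 11)))), (.s k81 k162
  12 (.s k83 k163 11 (.s k80 k82 0 (.s k89 k93 1 (.s k90 k95 2 (.s k88 k91 0 (.d k92 k84 k86 1
  2)))))))] .n) (.c k159 (.q k111 [(.s k81 k162 12 (.s k89 k93 1 (.s k247 k251 1 (.d k166 k4 k12 12
  14)))), (.s k163 k83 11 (.s k167 k175 1 (.s k91 k15 13 (.d k251 k247 k11 1 11)))), (.s k81 k162 12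
  (.s k83 k163 11 (.s k80 k82 0 (.s k89 k93 1 (.s k90 k95 2 (.s k88 k91 0 (.d k92 k84 k86 1
  2)))))))] .n) .n)))))

def s63_207_2 : T TT 256 :=
  (.q k51 [(.s k34 k17 4 (.s k170 k255 14 (.s k102 k238 9 (.s k68 k119 4 (.d k204 k136 k153 9
  14))))), (.s k17 k34 4 (.s k19 k35 3 (.s k153 k221 9 (.s k86 k220 10 (.s k84 k87 0 (.d k252 k168
  k169 13 14)))))), (.s k19 k35 3 (.s k255 k170 14 (.s k87 k171 13 (.s k86 k84 0 (.s k119 k187 9 (.s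
  k102 k68 4 (.d k153 k220 k204 10 14)))))))] (.c k111 (.q k159 [(.s k34 k17 4 (.s k170 k255 14 (.s
  k102 k238 9 (.s k68 k119 4 (.d k204 k136 k153 9 14))))), (.s k17 k34 4 (.s k19 k35 3 (.s k153 k221
  9 (.s k86 k220 10 (.s k84 k87 0 (.d k252 k168 k169 13 14)))))), (.s k19 k35 3 (.s k255 k170 14 (.s
  k87 k171 13 (.s k86 k84 0 (.s k119 k187 9 (.s k102 k68 4 (.d k153 k220 k204 10 14)))))))] (.c k153
  (.l (.s k17 k34 4 (.s k19 k35 3 (.s k255 k170 14 (.s k87 k171 13 (.s k223 k155 9 (.d k16 k18 k154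
  0 10))))))) .n)) (.c k153 (.l (.s k17 k34 4 (.s k19 k35 3 (.s k255 k170 14 (.s k87 k171 13 (.s
  k223 k155 9 (.d k16 k18 k154 0 10))))))) (.c k159 (.q k111 [(.s k34 k17 4 (.s k170 k255 14 (.s
  k102 k238 9 (.s k68 k119 4 (.d k204 k136 k153 9 14))))), (.s k17 k34 4 (.s k19 k35 3 (.s k153 k221
  9 (.s k86 k220 10 (.s k84 k87 0 (.d k252 k168 k169 13 14)))))), (.s k19 k35 3 (.s k255 k170 14 (.s
  k87 k171 13 (.s k86 k84 0 (.s k119 k187 9 (.s k102 k68 4 (.d k153 k220 k204 10 14)))))))] (.c k153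
  (.l (.s k17 k34 4 (.s k19 k35 3 (.s k255 k170 14 (.s k87 k171 13 (.s k223 k155 9 (.d k16 k18 k154
  0 10))))))) .n)) .n))))

def s63_207_4 : T TT 256 :=
  (.l (.s k1 k2 0 (.s k169 k253 13 (.s k86 k252 14 (.s k87 k84 0 (.d k255 k171 k170 13 14))))))

def s63_207_5 : T TT 256 :=
  (.l (.s k1 k2 0 (.s k169 k253 13 (.s k86 k252 14 (.s k87 k84 0 (.d k255 k171 k170 13 14))))))

def s63_207_6 : T TT 256 :=
  (.l (.s k1 k2 0 (.s k169 k253 13 (.s k86 k252 14 (.s k87 k84 0 (.d k255 k171 k170 13 14))))))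

def s63_207_7 : T TT 256 :=
  (.l (.s k1 k2 0 (.s k169 k253 13 (.s k86 k252 14 (.s k87 k84 0 (.d k255 k171 k170 13 14))))))

def s63_207_8 : T TT 256 :=
  (.l (.s k1 k2 0 (.s k169 k253 13 (.s k86 k252 14 (.s k87 k84 0 (.d k255 k171 k170 13 14))))))

def s63_207_9 : T TT 256 :=
  (.l (.s k1 k2 0 (.s k169 k253 13 (.s k86 k252 14 (.s k87 k84 0 (.d k255 k171 k170 13 14))))))

def s63_207_10 : T TT 256 :=
  (.l (.s k1 k2 0 (.s k169 k253 13 (.s k86 k252 14 (.s k87 k84 0 (.d k255 k171 k170 13 14))))))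

def s63_207_11 : T TT 256 :=
  (.l (.s k1 k2 0 (.s k169 k253 13 (.s k86 k252 14 (.s k87 k84 0 (.d k255 k171 k170 13 14))))))

def s63_207_12 : T TT 256 :=
  (.l (.s k1 k2 0 (.s k169 k253 13 (.s k86 k252 14 (.s k87 k84 0 (.d k255 k171 k170 13 14))))))

def s63_207_13 : T TT 256 :=
  (.l (.s k1 k2 0 (.s k169 k253 13 (.s k86 k252 14 (.s k87 k84 0 (.d k255 k171 k170 13 14))))))

def s63_207_14 : T TT 256 :=
  (.l (.s k1 k2 0 (.s k169 k253 13 (.s k86 k252 14 (.s k87 k84 0 (.d k255 k171 k170 13 14))))))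

def s63_207_15 : T TT 256 :=
  (.l (.s k1 k2 0 (.s k169 k253 13 (.s k86 k252 14 (.s k87 k84 0 (.d k255 k171 k170 13 14))))))

def s63_207_16 : T TT 256 :=
  (.l (.s k1 k2 0 (.s k169 k253 13 (.s k86 k252 14 (.s k87 k84 0 (.d k255 k171 k170 13 14))))))

def s63_207_17 : T TT 256 :=
  (.l (.s k1 k2 0 (.s k169 k253 13 (.s k86 k252 14 (.s k87 k84 0 (.d k255 k171 k170 13 14))))))

def s63_207_18 : T TT 256 :=
  (.l (.s k1 k2 0 (.s k169 k253 13 (.s k86 k252 14 (.s k87 k84 0 (.d k255 k171 k170 13 14))))))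

def s63_207_19 : T TT 256 :=
  (.l (.s k1 k2 0 (.s k169 k253 13 (.s k86 k252 14 (.s k87 k84 0 (.d k255 k171 k170 13 14))))))

def s63_207_20 : T TT 256 :=
  (.l (.s k1 k2 0 (.s k169 k253 13 (.s k86 k252 14 (.s k87 k84 0 (.d k255 k171 k170 13 14))))))

def s63_207_21 : T TT 256 :=
  (.l (.s k1 k2 0 (.s k169 k253 13 (.s k86 k252 14 (.s k87 k84 0 (.d k255 k171 k170 13 14))))))

def s63_207_22 : T TT 256 :=
  (.l (.s k1 k2 0 (.s k169 k253 13 (.s k86 k252 14 (.s k87 k84 0 (.d k255 k171 k170 13 14))))))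

def s63_207_23 : T TT 256 :=
  (.l (.s k1 k2 0 (.s k169 k253 13 (.s k86 k252 14 (.s k87 k84 0 (.d k255 k171 k170 13 14))))))

def s63_207_24 : T TT 256 :=
  (.l (.s k1 k2 0 (.s k169 k253 13 (.s k86 k252 14 (.s k87 k84 0 (.d k255 k171 k170 13 14))))))

def s63_207_25 : T TT 256 :=
  (.l (.s k1 k2 0 (.s k169 k253 13 (.s k86 k252 14 (.s k87 k84 0 (.d k255 k171 k170 13 14))))))

def s63_207_26 : T TT 256 :=
  (.l (.s k1 k2 0 (.s k169 k253 13 (.s k86 k252 14 (.s k87 k84 0 (.d k255 k171 k170 13 14))))))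

def s63_207_27 : T TT 256 :=
  (.l (.s k1 k2 0 (.s k169 k253 13 (.s k86 k252 14 (.s k87 k84 0 (.d k255 k171 k170 13 14))))))

def s63_207_28 : T TT 256 :=
  (.l (.s k1 k2 0 (.s k169 k253 13 (.s k86 k252 14 (.s k87 k84 0 (.d k255 k171 k170 13 14))))))

def s63_207_29 : T TT 256 :=
  (.l (.s k1 k2 0 (.s k169 k253 13 (.s k86 k252 14 (.s k87 k84 0 (.d k255 k171 k170 13 14))))))

def s63_207_30 : T TT 256 :=
  (.l (.s k1 k2 0 (.s k169 k253 13 (.s k86 k252 14 (.s k87 k84 0 (.d k255 k171 k170 13 14))))))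

def s63_207_31 : T TT 256 :=
  (.l (.s k1 k2 0 (.s k169 k253 13 (.s k86 k252 14 (.s k87 k84 0 (.d k255 k171 k170 13 14))))))

def s63_207_32 : T TT 256 :=
  (.l (.s k1 k2 0 (.s k169 k253 13 (.s k86 k252 14 (.s k87 k84 0 (.d k255 k171 k170 13 14))))))

def s63_207_33 : T TT 256 :=
  (.l (.s k1 k2 0 (.s k169 k253 13 (.s k86 k252 14 (.s k87 k84 0 (.d k255 k171 k170 13 14))))))

def s63_207_34 : T TT 256 :=
  (.l (.s k1 k2 0 (.s k169 k253 13 (.s k86 k252 14 (.s k87 k84 0 (.d k255 k171 k170 13 14))))))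

def s63_207_35 : T TT 256 :=
  (.l (.s k1 k2 0 (.s k169 k253 13 (.s k86 k252 14 (.s k87 k84 0 (.d k255 k171 k170 13 14))))))

def s63_207_36 : T TT 256 :=
  (.l (.s k1 k2 0 (.s k169 k253 13 (.s k86 k252 14 (.s k87 k84 0 (.d k255 k171 k170 13 14))))))

def s63_207_37 : T TT 256 :=
  (.l (.s k1 k2 0 (.s k169 k253 13 (.s k86 k252 14 (.s k87 k84 0 (.d k255 k171 k170 13 14))))))

def s63_207_38 : T TT 256 :=
  (.l (.s k1 k2 0 (.s k169 k253 13 (.s k86 k252 14 (.s k87 k84 0 (.d k255 k171 k170 13 14))))))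

def s63_207_39 : T TT 256 :=
  (.l (.s k1 k2 0 (.s k169 k253 13 (.s k86 k252 14 (.s k87 k84 0 (.d k255 k171 k170 13 14))))))

def s63_207_40 : T TT 256 :=
  (.l (.s k1 k2 0 (.s k169 k253 13 (.s k86 k252 14 (.s k87 k84 0 (.d k255 k171 k170 13 14))))))

def s63_207_41 : T TT 256 :=
  (.l (.s k1 k2 0 (.s k169 k253 13 (.s k86 k252 14 (.s k87 k84 0 (.d k255 k171 k170 13 14))))))

def s63_207_42 : T TT 256 :=
  (.l (.s k1 k2 0 (.s k169 k253 13 (.s k86 k252 14 (.s k87 k84 0 (.d k255 k171 k170 13 14))))))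

def s63_207_43 : T TT 256 :=
  (.l (.s k1 k2 0 (.s k169 k253 13 (.s k86 k252 14 (.s k87 k84 0 (.d k255 k171 k170 13 14))))))

def s63_207_44 : T TT 256 :=
  (.l (.s k1 k2 0 (.s k169 k253 13 (.s k86 k252 14 (.s k87 k84 0 (.d k255 k171 k170 13 14))))))

def s63_207_45 : T TT 256 :=
  (.l (.s k1 k2 0 (.s k169 k253 13 (.s k86 k252 14 (.s k87 k84 0 (.d k255 k171 k170 13 14))))))

def s63_207_46 : T TT 256 :=
  (.l (.s k1 k2 0 (.s k169 k253 13 (.s k86 k252 14 (.s k87 k84 0 (.d k255 k171 k170 13 14))))))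

def s63_207_47 : T TT 256 :=
  (.l (.s k1 k2 0 (.s k169 k253 13 (.s k86 k252 14 (.s k87 k84 0 (.d k255 k171 k170 13 14))))))

def s63_207_48 : T TT 256 :=
  (.l (.s k1 k2 0 (.s k169 k253 13 (.s k86 k252 14 (.s k87 k84 0 (.d k255 k171 k170 13 14))))))

def s63_207_49 : T TT 256 :=
  (.l (.s k1 k2 0 (.s k169 k253 13 (.s k86 k252 14 (.s k87 k84 0 (.d k255 k171 k170 13 14))))))

def s63_207_50 : T TT 256 :=
  (.l (.s k1 k2 0 (.s k169 k253 13 (.s k86 k252 14 (.s k87 k84 0 (.d k255 k171 k170 13 14))))))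

def s63_207_51 : T TT 256 :=
  (.l (.s k1 k2 0 (.s k169 k253 13 (.s k86 k252 14 (.s k87 k84 0 (.d k255 k171 k170 13 14))))))

def s63_207_52 : T TT 256 :=
  (.l (.s k1 k2 0 (.s k169 k253 13 (.s k86 k252 14 (.s k87 k84 0 (.d k255 k171 k170 13 14))))))

def s63_207_53 : T TT 256 :=
  (.l (.s k1 k2 0 (.s k169 k253 13 (.s k86 k252 14 (.s k87 k84 0 (.d k255 k171 k170 13 14))))))

def s63_207_54 : T TT 256 :=
  (.l (.s k1 k2 0 (.s k169 k253 13 (.s k86 k252 14 (.s k87 k84 0 (.d k255 k171 k170 13 14))))))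

def s63_207_55 : T TT 256 :=
  (.l (.s k1 k2 0 (.s k169 k253 13 (.s k86 k252 14 (.s k87 k84 0 (.d k255 k171 k170 13 14))))))

def s63_207_56 : T TT 256 :=
  (.l (.s k1 k2 0 (.s k169 k253 13 (.s k86 k252 14 (.s k87 k84 0 (.d k255 k171 k170 13 14))))))

def s63_207_57 : T TT 256 :=
  (.l (.s k1 k2 0 (.s k169 k253 13 (.s k86 k252 14 (.s k87 k84 0 (.d k255 k171 k170 13 14))))))

def s63_207_58 : T TT 256 :=
  (.l (.s k1 k2 0 (.s k169 k253 13 (.s k86 k252 14 (.s k87 k84 0 (.d k255 k171 k170 13 14))))))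

def s63_207_59 : T TT 256 :=
  (.l (.s k1 k2 0 (.s k169 k253 13 (.s k86 k252 14 (.s k87 k84 0 (.d k255 k171 k170 13 14))))))

def s63_207_60 : T TT 256 :=
  (.l (.s k1 k2 0 (.s k169 k253 13 (.s k86 k252 14 (.s k87 k84 0 (.d k255 k171 k170 13 14))))))

def s63_207_61 : T TT 256 :=
  (.l (.s k1 k2 0 (.s k169 k253 13 (.s k86 k252 14 (.s k87 k84 0 (.d k255 k171 k170 13 14))))))

def s63_207_62 : T TT 256 :=
  (.l (.s k1 k2 0 (.s k169 k253 13 (.s k86 k252 14 (.s k87 k84 0 (.d k255 k171 k170 13 14))))))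

def s63_207_64 : T TT 256 :=
  (.l (.s k1 k2 0 (.s k169 k253 13 (.s k86 k252 14 (.s k87 k84 0 (.d k255 k171 k170 13 14))))))

def s63_207_65 : T TT 256 :=
  (.l (.s k1 k2 0 (.s k169 k253 13 (.s k86 k252 14 (.s k87 k84 0 (.d k255 k171 k170 13 14))))))

def s63_207_66 : T TT 256 :=
  (.l (.s k1 k2 0 (.s k169 k253 13 (.s k86 k252 14 (.s k87 k84 0 (.d k255 k171 k170 13 14))))))

def s63_207_67 : T TT 256 :=
  (.l (.s k1 k2 0 (.s k169 k253 13 (.s k86 k252 14 (.s k87 k84 0 (.d k255 k171 k170 13 14))))))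

def s63_207_68 : T TT 256 :=
  (.l (.s k1 k2 0 (.s k169 k253 13 (.s k86 k252 14 (.s k87 k84 0 (.d k255 k171 k170 13 14))))))

def s63_207_69 : T TT 256 :=
  (.l (.s k1 k2 0 (.s k169 k253 13 (.s k86 k252 14 (.s k87 k84 0 (.d k255 k171 k170 13 14))))))

def s63_207_70 : T TT 256 :=
  (.l (.s k1 k2 0 (.s k169 k253 13 (.s k86 k252 14 (.s k87 k84 0 (.d k255 k171 k170 13 14))))))

def s63_207_71 : T TT 256 :=
  (.l (.s k1 k2 0 (.s k169 k253 13 (.s k86 k252 14 (.s k87 k84 0 (.d k255 k171 k170 13 14))))))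

def s63_207_72 : T TT 256 :=
  (.l (.s k1 k2 0 (.s k169 k253 13 (.s k86 k252 14 (.s k87 k84 0 (.d k255 k171 k170 13 14))))))

def s63_207_73 : T TT 256 :=
  (.l (.s k1 k2 0 (.s k169 k253 13 (.s k86 k252 14 (.s k87 k84 0 (.d k255 k171 k170 13 14))))))

def s63_207_74 : T TT 256 :=
  (.l (.s k1 k2 0 (.s k169 k253 13 (.s k86 k252 14 (.s k87 k84 0 (.d k255 k171 k170 13 14))))))

def s63_207_75 : T TT 256 :=
  (.l (.s k1 k2 0 (.s k169 k253 13 (.s k86 k252 14 (.s k87 k84 0 (.d k255 k171 k170 13 14))))))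

def s63_207_76 : T TT 256 :=
  (.l (.s k1 k2 0 (.s k169 k253 13 (.s k86 k252 14 (.s k87 k84 0 (.d k255 k171 k170 13 14))))))

def s63_207_77 : T TT 256 :=
  (.l (.s k1 k2 0 (.s k169 k253 13 (.s k86 k252 14 (.s k87 k84 0 (.d k255 k171 k170 13 14))))))

def s63_207_78 : T TT 256 :=
  (.l (.s k1 k2 0 (.s k169 k253 13 (.s k86 k252 14 (.s k87 k84 0 (.d k255 k171 k170 13 14))))))

def s63_207_79 : T TT 256 :=
  (.l (.s k1 k2 0 (.s k169 k253 13 (.s k86 k252 14 (.s k87 k84 0 (.d k255 k171 k170 13 14))))))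

def s63_207_80 : T TT 256 :=
  (.l (.s k1 k2 0 (.s k169 k253 13 (.s k86 k252 14 (.s k87 k84 0 (.d k255 k171 k170 13 14))))))

def s63_207_81 : T TT 256 :=
  (.l (.s k1 k2 0 (.s k169 k253 13 (.s k86 k252 14 (.s k87 k84 0 (.d k255 k171 k170 13 14))))))

def s63_207_82 : T TT 256 :=
  (.l (.s k1 k2 0 (.s k169 k253 13 (.s k86 k252 14 (.s k87 k84 0 (.d k255 k171 k170 13 14))))))

def s63_207_83 : T TT 256 :=
  (.l (.s k1 k2 0 (.s k169 k253 13 (.s k86 k252 14 (.s k87 k84 0 (.d k255 k171 k170 13 14))))))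

def s63_207_84 : T TT 256 :=
  (.f k255 k170 14 (.f k171 k87 13 (.f k2 k1 0 (.q k15 [(.s k5 k10 2 (.s k95 k175 11 (.s k165 k245
  11 (.d k90 k80 k240 2 14)))), (.s k11 k7 1 (.s k91 k251 11 (.s k167 k243 13 (.d k175 k163 k95 1
  11)))), (.s k10 k5 2 (.s k6 k14 1 (.s k9 k12 2 (.d k11 k8 k7 0 1))))] (.c k111 (.q k159 [(.s k5
  k10 2 (.s k95 k175 11 (.s k165 k245 11 (.d k90 k80 k240 2 14)))), (.s k11 k7 1 (.s k91 k251 11 (.s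
  k167 k243 13 (.d k175 k163 k95 1 11)))), (.s k10 k5 2 (.s k6 k14 1 (.s k9 k12 2 (.d k11 k8 k7 0
  1))))] .n) (.c k159 (.q k111 [(.s k5 k10 2 (.s k95 k175 11 (.s k165 k245 11 (.d k90 k80 k240 2
  14)))), (.s k11 k7 1 (.s k91 k251 11 (.s k167 k243 13 (.d k175 k163 k95 1 11)))), (.s k10 k5 2 (.s
  k6 k14 1 (.s k9 k12 2 (.d k11 k8 k7 0 1))))] .n) .n))))))

def s63_207_86 : T TT 256 :=
  (.f k2 k1 0 (.f k255 k170 14 (.f k171 k87 13 (.q k15 [(.s k5 k10 2 (.s k95 k175 11 (.s k90 k80 2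
  (.d k165 k245 k240 11 14)))), (.s k10 k5 2 (.s k6 k14 1 (.s k9 k12 2 (.d k11 k8 k7 0 1)))), (.s
  k11 k7 1 (.s k91 k251 11 (.s k167 k243 13 (.d k175 k163 k95 1 11))))] (.c k111 (.q k159 [(.s k5
  k10 2 (.s k95 k175 11 (.s k90 k80 2 (.d k165 k245 k240 11 14)))), (.s k10 k5 2 (.s k6 k14 1 (.s k9
  k12 2 (.d k11 k8 k7 0 1)))), (.s k11 k7 1 (.s k91 k251 11 (.s k167 k243 13 (.d k175 k163 k95 1
  11))))] .n) (.c k159 (.q k111 [(.s k5 k10 2 (.s k95 k175 11 (.s k90 k80 2 (.d k165 k245 k240 11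
  14)))), (.s k10 k5 2 (.s k6 k14 1 (.s k9 k12 2 (.d k11 k8 k7 0 1)))), (.s k11 k7 1 (.s k91 k251 11
  (.s k167 k243 13 (.d k175 k163 k95 1 11))))] .n) .n))))))

def s63_207_87 : T TT 256 :=
  (.l (.s k1 k2 0 (.s k169 k253 13 (.s k170 k255 14 (.s k168 k171 0 (.d k252 k84 k86 13 14))))))

def s63_207_88 : T TT 256 :=
  (.l (.s k1 k2 0 (.s k169 k253 13 (.s k86 k252 14 (.s k87 k84 0 (.d k255 k171 k170 13 14))))))

def s63_207_89 : T TT 256 :=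
  (.l (.s k1 k2 0 (.s k169 k253 13 (.s k86 k252 14 (.s k87 k84 0 (.d k255 k171 k170 13 14))))))

def s63_207_90 : T TT 256 :=
  (.l (.s k1 k2 0 (.s k169 k253 13 (.s k86 k252 14 (.s k87 k84 0 (.d k255 k171 k170 13 14))))))

def s63_207_91 : T TT 256 :=
  (.l (.s k1 k2 0 (.s k169 k253 13 (.s k86 k252 14 (.s k87 k84 0 (.d k255 k171 k170 13 14))))))

def s63_207_92 : T TT 256 :=
  (.l (.s k1 k2 0 (.s k169 k253 13 (.s k86 k252 14 (.s k87 k84 0 (.d k255 k171 k170 13 14))))))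

def s63_207_93 : T TT 256 :=
  (.l (.s k1 k2 0 (.s k169 k253 13 (.s k86 k252 14 (.s k87 k84 0 (.d k255 k171 k170 13 14))))))

def s63_207_94 : T TT 256 :=
  (.l (.s k1 k2 0 (.s k169 k253 13 (.s k86 k252 14 (.s k87 k84 0 (.d k255 k171 k170 13 14))))))

def s63_207_95 : T TT 256 :=
  (.l (.s k1 k2 0 (.s k169 k253 13 (.s k86 k252 14 (.s k87 k84 0 (.d k255 k171 k170 13 14))))))

def s63_207_96 : T TT 256 :=
  (.l (.s k1 k2 0 (.s k169 k253 13 (.s k86 k252 14 (.s k87 k84 0 (.d k255 k171 k170 13 14))))))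

def s63_207_97 : T TT 256 :=
  (.l (.s k1 k2 0 (.s k169 k253 13 (.s k86 k252 14 (.s k87 k84 0 (.d k255 k171 k170 13 14))))))

def s63_207_98 : T TT 256 :=
  (.l (.s k1 k2 0 (.s k169 k253 13 (.s k86 k252 14 (.s k87 k84 0 (.d k255 k171 k170 13 14))))))

def s63_207_99 : T TT 256 :=
  (.l (.s k1 k2 0 (.s k169 k253 13 (.s k86 k252 14 (.s k87 k84 0 (.d k255 k171 k170 13 14))))))

def s63_207_100 : T TT 256 :=
  (.l (.s k1 k2 0 (.s k169 k253 13 (.s k86 k252 14 (.s k87 k84 0 (.d k255 k171 k170 13 14))))))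

def s63_207_101 : T TT 256 :=
  (.l (.s k1 k2 0 (.s k169 k253 13 (.s k86 k252 14 (.s k87 k84 0 (.d k255 k171 k170 13 14))))))

def s63_207_102 : T TT 256 :=
  (.l (.s k1 k2 0 (.s k169 k253 13 (.s k86 k252 14 (.s k87 k84 0 (.d k255 k171 k170 13 14))))))

def s63_207_103 : T TT 256 :=
  (.l (.s k1 k2 0 (.s k169 k253 13 (.s k86 k252 14 (.s k87 k84 0 (.d k255 k171 k170 13 14))))))

def s63_207_104 : T TT 256 :=
  (.l (.s k1 k2 0 (.s k169 k253 13 (.s k86 k252 14 (.s k87 k84 0 (.d k255 k171 k170 13 14))))))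

def s63_207_105 : T TT 256 :=
  (.l (.s k1 k2 0 (.s k169 k253 13 (.s k86 k252 14 (.s k87 k84 0 (.d k255 k171 k170 13 14))))))

def s63_207_106 : T TT 256 :=
  (.l (.s k1 k2 0 (.s k169 k253 13 (.s k86 k252 14 (.s k87 k84 0 (.d k255 k171 k170 13 14))))))

def s63_207_107 : T TT 256 :=
  (.l (.s k1 k2 0 (.s k169 k253 13 (.s k86 k252 14 (.s k87 k84 0 (.d k255 k171 k170 13 14))))))

def s63_207_108 : T TT 256 :=
  (.l (.s k1 k2 0 (.s k169 k253 13 (.s k86 k252 14 (.s k87 k84 0 (.d k255 k171 k170 13 14))))))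

def s63_207_109 : T TT 256 :=
  (.l (.s k1 k2 0 (.s k169 k253 13 (.s k86 k252 14 (.s k87 k84 0 (.d k255 k171 k170 13 14))))))

def s63_207_110 : T TT 256 :=
  (.l (.s k1 k2 0 (.s k169 k253 13 (.s k86 k252 14 (.s k87 k84 0 (.d k255 k171 k170 13 14))))))

def s63_207_111 : T TT 256 :=
  (.q k159 [(.s k1 k2 0 (.s k169 k253 13 (.s k86 k252 14 (.s k87 k84 0 (.d k255 k171 k170 13
  14))))), (.s k1 k2 0 (.s k169 k253 13 (.s k170 k255 14 (.s k168 k171 0 (.d k252 k84 k86 13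
  14)))))] (.c k1 (.q k5 [(.s k15 k10 2 (.s k165 k245 11 (.s k90 k240 14 (.s k95 k80 2 (.d k255 k175
  k170 11 14))))), (.s k165 k245 11 (.s k255 k170 14 (.s k87 k171 13 (.s k86 k84 0 (.s k7 k244 12
  (.s k4 k6 0 (.d k247 k167 k166 11 12))))))), (.s k15 k10 2 (.s k7 k11 1 (.s k4 k6 0 (.s k247 k166
  12 (.s k255 k170 14 (.d k87 k167 k171 11 13)))))), (.s k15 k10 2 (.s k7 k11 1 (.s k165 k245 11 (.s
  k86 k244 12 (.s k84 k87 0 (.d k252 k168 k169 13 14))))))] .n) (.c k2 (.q k5 [(.s k15 k10 2 (.s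
  k165 k245 11 (.s k90 k240 14 (.s k95 k80 2 (.d k255 k175 k170 11 14))))), (.s k165 k245 11 (.s
  k255 k170 14 (.s k87 k171 13 (.s k86 k84 0 (.s k7 k244 12 (.s k247 k167 11 (.d k4 k6 k166 0
  12))))))), (.s k15 k10 2 (.s k7 k11 1 (.s k165 k245 11 (.s k86 k244 12 (.s k84 k87 0 (.d k252 k168
  k169 13 14)))))), (.s k15 k10 2 (.s k7 k11 1 (.s k255 k170 14 (.s k87 k171 13 (.s k247 k167 11 (.d
  k4 k6 k166 0 12))))))] (.c k6 (.l (.s k165 k245 11 (.s k170 k255 14 (.s k160 k175 2 (.s k240 k80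
  11 (.d k15 k10 k90 2 14)))))) .n)) (.c k84 (.q k4 [(.s k2 k1 0 (.s k12 k8 1 (.s k6 k9 2 (.s k5 k7
  0 (.d k10 k14 k15 1 2))))), (.s k12 k8 1 (.s k166 k247 12 (.s k89 k243 14 (.s k93 k81 1 (.d k255
  k174 k170 12 14))))), (.s k247 k166 12 (.s k255 k170 14 (.s k87 k171 13 (.s k7 k167 11 (.s k5 k6 0
  (.d k15 k11 k10 1 2))))))] .n) (.c k86 (.q k4 [(.s k2 k1 0 (.s k12 k8 1 (.s k6 k9 2 (.s k10 k14 1
  (.d k5 k7 k15 0 2))))), (.s k12 k8 1 (.s k166 k247 12 (.s k89 k243 14 (.s k93 k81 1 (.d k255 k174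
  k170 12 14))))), (.s k247 k166 12 (.s k255 k170 14 (.s k87 k171 13 (.s k7 k167 11 (.s k15 k11 1
  (.d k5 k6 k10 0 2))))))] .n) (.c k169 (.q k4 [(.s k2 k1 0 (.s k12 k8 1 (.s k6 k9 2 (.s k5 k7 0 (.d
  k10 k14 k15 1 2))))), (.s k12 k8 1 (.s k166 k247 12 (.s k89 k243 14 (.s k93 k81 1 (.d k255 k174
  k170 12 14))))), (.s k2 k1 0 (.s k166 k247 12 (.s k170 k255 14 (.s k86 k254 13 (.s k6 k246 11 (.s
  k5 k7 0 (.d k10 k14 k15 1 2)))))))] .n) (.c k170 (.q k5 [(.s k1 k2 0 (.s k13 k9 1 (.s k165 k245 11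
  (.s k89 k241 13 (.s k93 k81 1 (.d k253 k173 k169 11 13)))))), (.s k2 k1 0 (.s k10 k15 2 (.s k6 k14
  1 (.s k4 k7 0 (.d k12 k8 k9 1 2))))), (.s k15 k10 2 (.s k7 k11 1 (.s k165 k245 11 (.s k86 k244 12
  (.s k84 k87 0 (.d k252 k168 k169 13 14))))))] (.c k9 (.l (.s k1 k2 0 (.s k15 k10 2 (.s k11 k7 1
  (.s k165 k245 11 (.s k90 k240 14 (.d k169 k248 k253 12 13))))))) .n)) (.c k171 (.l (.s k2 k1 0 (.s
  k170 k255 14 (.s k86 k254 13 (.s k84 k87 0 (.d k252 k168 k169 13 14)))))) (.c k252 (.f k2 k1 0 (.f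
  k255 k170 14 (.q k81 [(.s k89 k93 1 (.s k243 k162 12 (.s k247 k251 1 (.d k166 k4 k12 12 14)))),
  (.s k162 k243 12 (.s k82 k242 11 (.s k80 k83 0 (.d k240 k160 k161 11 12)))), (.s k87 k171 13 (.s
  k86 k84 0 (.s k89 k93 1 (.s k83 k92 2 (.s k80 k82 0 (.d k95 k91 k90 1 2))))))] (.c k126 (.q k189
  [(.s k89 k93 1 (.s k243 k162 12 (.s k247 k251 1 (.d k166 k4 k12 12 14)))), (.s k162 k243 12 (.s
  k82 k242 11 (.s k80 k83 0 (.d k240 k160 k161 11 12)))), (.s k87 k171 13 (.s k86 k84 0 (.s k89 k93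
  1 (.s k83 k92 2 (.s k80 k82 0 (.d k95 k91 k90 1 2))))))] (.c k222 (.q k237 [(.s k89 k93 1 (.s k243
  k162 12 (.s k247 k251 1 (.d k166 k4 k12 12 14)))), (.s k162 k243 12 (.s k82 k242 11 (.s k80 k83 0
  (.d k240 k160 k161 11 12)))), (.s k87 k171 13 (.s k86 k84 0 (.s k89 k93 1 (.s k83 k92 2 (.s k80
  k82 0 (.d k95 k91 k90 1 2))))))] .n) (.c k237 (.q k222 [(.s k89 k93 1 (.s k243 k162 12 (.s k247
  k251 1 (.d k166 k4 k12 12 14)))), (.s k162 k243 12 (.s k82 k242 11 (.s k80 k83 0 (.d k240 k160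
  k161 11 12)))), (.s k87 k171 13 (.s k86 k84 0 (.s k89 k93 1 (.s k83 k92 2 (.s k80 k82 0 (.d k95
  k91 k90 1 2))))))] .n) .n))) (.c k189 (.q k126 [(.s k89 k93 1 (.s k243 k162 12 (.s k247 k251 1 (.d
  k166 k4 k12 12 14)))), (.s k162 k243 12 (.s k82 k242 11 (.s k80 k83 0 (.d k240 k160 k161 11
  12)))), (.s k87 k171 13 (.s k86 k84 0 (.s k89 k93 1 (.s k83 k92 2 (.s k80 k82 0 (.d k95 k91 k90 1
  2))))))] (.c k222 (.q k237 [(.s k89 k93 1 (.s k243 k162 12 (.s k247 k251 1 (.d k166 k4 k12 12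
  14)))), (.s k162 k243 12 (.s k82 k242 11 (.s k80 k83 0 (.d k240 k160 k161 11 12)))), (.s k87 k171
  13 (.s k86 k84 0 (.s k89 k93 1 (.s k83 k92 2 (.s k80 k82 0 (.d k95 k91 k90 1 2))))))] .n) (.c k237
  (.q k222 [(.s k89 k93 1 (.s k243 k162 12 (.s k247 k251 1 (.d k166 k4 k12 12 14)))), (.s k162 k243
  12 (.s k82 k242 11 (.s k80 k83 0 (.d k240 k160 k161 11 12)))), (.s k87 k171 13 (.s k86 k84 0 (.s
  k89 k93 1 (.s k83 k92 2 (.s k80 k82 0 (.d k95 k91 k90 1 2))))))] .n) .n))) (.c k222 (.q k237 [(.s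
  k89 k93 1 (.s k243 k162 12 (.s k247 k251 1 (.d k166 k4 k12 12 14)))), (.s k162 k243 12 (.s k82
  k242 11 (.s k80 k83 0 (.d k240 k160 k161 11 12)))), (.s k87 k171 13 (.s k86 k84 0 (.s k89 k93 1
  (.s k83 k92 2 (.s k80 k82 0 (.d k95 k91 k90 1 2))))))] (.c k126 (.q k189 [(.s k89 k93 1 (.s k243
  k162 12 (.s k247 k251 1 (.d k166 k4 k12 12 14)))), (.s k162 k243 12 (.s k82 k242 11 (.s k80 k83 0
  (.d k240 k160 k161 11 12)))), (.s k87 k171 13 (.s k86 k84 0 (.s k89 k93 1 (.s k83 k92 2 (.s k80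
  k82 0 (.d k95 k91 k90 1 2))))))] .n) (.c k189 (.q k126 [(.s k89 k93 1 (.s k243 k162 12 (.s k247
  k251 1 (.d k166 k4 k12 12 14)))), (.s k162 k243 12 (.s k82 k242 11 (.s k80 k83 0 (.d k240 k160
  k161 11 12)))), (.s k87 k171 13 (.s k86 k84 0 (.s k89 k93 1 (.s k83 k92 2 (.s k80 k82 0 (.d k95
  k91 k90 1 2))))))] .n) .n))) (.c k237 (.q k222 [(.s k89 k93 1 (.s k243 k162 12 (.s k247 k251 1 (.d
  k166 k4 k12 12 14)))), (.s k162 k243 12 (.s k82 k242 11 (.s k80 k83 0 (.d k240 k160 k161 11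
  12)))), (.s k87 k171 13 (.s k86 k84 0 (.s k89 k93 1 (.s k83 k92 2 (.s k80 k82 0 (.d k95 k91 k90 1
  2))))))] (.c k126 (.q k189 [(.s k89 k93 1 (.s k243 k162 12 (.s k247 k251 1 (.d k166 k4 k12 12
  14)))), (.s k162 k243 12 (.s k82 k242 11 (.s k80 k83 0 (.d k240 k160 k161 11 12)))), (.s k87 k171
  13 (.s k86 k84 0 (.s k89 k93 1 (.s k83 k92 2 (.s k80 k82 0 (.d k95 k91 k90 1 2))))))] .n) (.c k189
  (.q k126 [(.s k89 k93 1 (.s k243 k162 12 (.s k247 k251 1 (.d k166 k4 k12 12 14)))), (.s k162 k243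
  12 (.s k82 k242 11 (.s k80 k83 0 (.d k240 k160 k161 11 12)))), (.s k87 k171 13 (.s k86 k84 0 (.s
  k89 k93 1 (.s k83 k92 2 (.s k80 k82 0 (.d k95 k91 k90 1 2))))))] .n) .n))) .n))))))) (.c k253 (.l
  (.s k2 k1 0 (.s k170 k255 14 (.s k86 k254 13 (.s k252 k169 14 (.d k84 k87 k168 0 13)))))) (.c k254
  (.l (.s k1 k2 0 (.s k169 k253 13 (.s k86 k252 14 (.s k255 k170 14 (.d k87 k84 k171 0 13)))))) (.c
  k255 (.q k223 [(.s k31 k95 7 (.s k154 k16 10 (.s k149 k144 2 (.s k208 k90 10 (.d k213 k218 k21 2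
  7))))), (.s k2 k1 0 (.s k16 k154 10 (.s k48 k32 3 (.s k18 k33 4 (.s k17 k19 0 (.d k34 k50 k51 3
  4)))))), (.s k2 k1 0 (.s k95 k31 7 (.s k80 k90 2 (.s k240 k160 11 (.s k82 k161 12 (.s k81 k83 0
  (.d k162 k242 k243 11 12)))))))] (.c k127 (.q k191 [(.s k154 k16 10 (.s k149 k144 2 (.s k213 k21 7
  (.s k208 k218 2 (.d k31 k95 k90 7 10))))), (.s k2 k1 0 (.s k16 k154 10 (.s k48 k32 3 (.s k18 k33 4
  (.s k17 k19 0 (.d k34 k50 k51 3 4)))))), (.s k2 k1 0 (.s k95 k31 7 (.s k80 k90 2 (.s k240 k160 11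
  (.s k82 k161 12 (.s k81 k83 0 (.d k162 k242 k243 11 12)))))))] (.c k79 (.l (.s k95 k31 7 (.s k2 k1
  0 (.s k16 k154 10 (.s k48 k32 3 (.s k18 k33 4 (.s k17 k19 0 (.d k34 k50 k51 3 4)))))))) (.c k95
  (.q k79 [(.s k2 k1 0 (.s k16 k154 10 (.s k48 k32 3 (.s k18 k33 4 (.s k17 k19 0 (.d k34 k50 k51 3
  4)))))), (.s k154 k16 10 (.s k149 k144 2 (.s k170 k128 6 (.s k186 k138 3 (.s k176 k181 2 (.d k143
  k175 k165 3 6))))))] (.c k15 (.l (.s k175 k143 3 (.s k2 k1 0 (.s k16 k154 10 (.s k48 k32 3 (.s k18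
  k33 4 (.s k17 k19 0 (.d k34 k50 k51 3 4)))))))) (.c k16 (.q k5 [(.s k15 k10 2 (.s k165 k245 11 (.s
  k175 k143 3 (.s k160 k170 2 (.d k240 k90 k80 14 11))))), (.s k1 k2 0 (.s k9 k13 1 (.s k6 k12 2 (.s
  k7 k4 0 (.d k15 k11 k10 1 2)))))] (.c k10 (.l (.s k1 k2 0 (.s k13 k9 1 (.s k165 k245 11 (.s k89
  k241 13 (.s k93 k81 1 (.d k253 k173 k169 11 13))))))) (.c k15 (.l (.s k175 k143 3 (.s k1 k2 0 (.s
  k13 k9 1 (.s k165 k245 11 (.s k89 k241 13 (.s k93 k81 1 (.d k253 k173 k169 11 13)))))))) (.c k175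
  (.l (.s k15 k10 2 (.s k1 k2 0 (.s k7 k11 1 (.s k6 k4 0 (.d k9 k13 k12 1 2)))))) .n)))) (.c k154
  (.f k1 k2 0 (.f k169 k253 13 (.l (.s k252 k86 14 (.s k168 k84 13 (.s k170 k171 0 (.s k128 k149 6
  (.s k188 k148 5 (.s k150 k131 6 (.d k190 k189 k130 0 5)))))))))) (.c k175 (.q k15 [(.s k1 k2 0 (.s
  k5 k10 2 (.s k7 k11 1 (.s k6 k4 0 (.d k9 k13 k12 1 2))))), (.s k2 k1 0 (.s k16 k154 10 (.s k48 k32
  3 (.s k18 k33 4 (.s k17 k19 0 (.d k34 k50 k51 3 4)))))), (.s k5 k10 2 (.s k7 k11 1 (.s k165 k245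
  11 (.s k86 k244 12 (.s k84 k87 0 (.d k252 k168 k169 13 14))))))] (.c k47 (.q k239 [(.s k1 k2 0 (.s
  k5 k10 2 (.s k7 k11 1 (.s k6 k4 0 (.d k9 k13 k12 1 2))))), (.s k2 k1 0 (.s k16 k154 10 (.s k48 k32
  3 (.s k18 k33 4 (.s k17 k19 0 (.d k34 k50 k51 3 4)))))), (.s k5 k10 2 (.s k7 k11 1 (.s k165 k245
  11 (.s k86 k244 12 (.s k84 k87 0 (.d k252 k168 k169 13 14))))))] .n) (.c k239 (.q k47 [(.s k1 k2 0
  (.s k5 k10 2 (.s k7 k11 1 (.s k6 k4 0 (.d k9 k13 k12 1 2))))), (.s k2 k1 0 (.s k16 k154 10 (.s k48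
  k32 3 (.s k18 k33 4 (.s k17 k19 0 (.d k34 k50 k51 3 4)))))), (.s k5 k10 2 (.s k7 k11 1 (.s k165
  k245 11 (.s k86 k244 12 (.s k84 k87 0 (.d k252 k168 k169 13 14))))))] .n) .n))) .n))))) .n))) (.c
  k191 (.q k127 [(.s k31 k95 7 (.s k154 k16 10 (.s k149 k144 2 (.s k208 k90 10 (.d k213 k218 k21 2
  7))))), (.s k2 k1 0 (.s k64 k106 6 (.s k192 k128 7 (.s k66 k129 8 (.s k65 k67 0 (.d k130 k194 k195
  7 8))))))] (.c k149 (.l (.s k2 k1 0 (.s k16 k154 10 (.s k48 k32 3 (.s k18 k33 4 (.s k17 k19 0 (.d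
  k34 k50 k51 3 4))))))) .n)) .n))) .n))))))))))))

def s63_207_112 : T TT 256 :=
  (.l (.s k1 k2 0 (.s k169 k253 13 (.s k86 k252 14 (.s k87 k84 0 (.d k255 k171 k170 13 14))))))

def s63_207_113 : T TT 256 :=
  (.l (.s k1 k2 0 (.s k169 k253 13 (.s k86 k252 14 (.s k87 k84 0 (.d k255 k171 k170 13 14))))))

def s63_207_114 : T TT 256 :=
  (.l (.s k1 k2 0 (.s k169 k253 13 (.s k86 k252 14 (.s k87 k84 0 (.d k255 k171 k170 13 14))))))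

def s63_207_115 : T TT 256 :=
  (.l (.s k1 k2 0 (.s k169 k253 13 (.s k86 k252 14 (.s k87 k84 0 (.d k255 k171 k170 13 14))))))

def s63_207_116 : T TT 256 :=
  (.l (.s k1 k2 0 (.s k169 k253 13 (.s k86 k252 14 (.s k87 k84 0 (.d k255 k171 k170 13 14))))))

def s63_207_117 : T TT 256 :=
  (.l (.s k1 k2 0 (.s k169 k253 13 (.s k86 k252 14 (.s k87 k84 0 (.d k255 k171 k170 13 14))))))

def s63_207_118 : T TT 256 :=
  (.l (.s k1 k2 0 (.s k169 k253 13 (.s k86 k252 14 (.s k87 k84 0 (.d k255 k171 k170 13 14))))))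

def s63_207_119 : T TT 256 :=
  (.l (.s k1 k2 0 (.s k169 k253 13 (.s k86 k252 14 (.s k87 k84 0 (.d k255 k171 k170 13 14))))))

def s63_207_120 : T TT 256 :=
  (.l (.s k1 k2 0 (.s k169 k253 13 (.s k86 k252 14 (.s k87 k84 0 (.d k255 k171 k170 13 14))))))

def s63_207_121 : T TT 256 :=
  (.l (.s k1 k2 0 (.s k169 k253 13 (.s k86 k252 14 (.s k87 k84 0 (.d k255 k171 k170 13 14))))))

def s63_207_122 : T TT 256 :=
  (.l (.s k1 k2 0 (.s k169 k253 13 (.s k86 k252 14 (.s k87 k84 0 (.d k255 k171 k170 13 14))))))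

def s63_207_123 : T TT 256 :=
  (.l (.s k1 k2 0 (.s k169 k253 13 (.s k86 k252 14 (.s k87 k84 0 (.d k255 k171 k170 13 14))))))

def s63_207_124 : T TT 256 :=
  (.l (.s k1 k2 0 (.s k169 k253 13 (.s k86 k252 14 (.s k87 k84 0 (.d k255 k171 k170 13 14))))))

def s63_207_125 : T TT 256 :=
  (.l (.s k1 k2 0 (.s k169 k253 13 (.s k86 k252 14 (.s k87 k84 0 (.d k255 k171 k170 13 14))))))

def s63_207_126 : T TT 256 :=
  (.l (.s k1 k2 0 (.s k169 k253 13 (.s k170 k255 14 (.s k168 k171 0 (.d k252 k84 k86 13 14))))))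

def s63_207_127 : T TT 256 :=
  (.l (.s k1 k2 0 (.s k169 k253 13 (.s k86 k252 14 (.s k87 k84 0 (.d k255 k171 k170 13 14))))))

def s63_207_128 : T TT 256 :=
  (.l (.s k1 k2 0 (.s k169 k253 13 (.s k86 k252 14 (.s k87 k84 0 (.d k255 k171 k170 13 14))))))

def s63_207_129 : T TT 256 :=
  (.l (.s k1 k2 0 (.s k169 k253 13 (.s k86 k252 14 (.s k87 k84 0 (.d k255 k171 k170 13 14))))))

def s63_207_130 : T TT 256 :=
  (.l (.s k1 k2 0 (.s k169 k253 13 (.s k86 k252 14 (.s k87 k84 0 (.d k255 k171 k170 13 14))))))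

def s63_207_131 : T TT 256 :=
  (.l (.s k1 k2 0 (.s k169 k253 13 (.s k86 k252 14 (.s k87 k84 0 (.d k255 k171 k170 13 14))))))

def s63_207_132 : T TT 256 :=
  (.l (.s k1 k2 0 (.s k169 k253 13 (.s k86 k252 14 (.s k87 k84 0 (.d k255 k171 k170 13 14))))))

def s63_207_133 : T TT 256 :=
  (.l (.s k1 k2 0 (.s k169 k253 13 (.s k86 k252 14 (.s k87 k84 0 (.d k255 k171 k170 13 14))))))

def s63_207_134 : T TT 256 :=
  (.l (.s k1 k2 0 (.s k169 k253 13 (.s k86 k252 14 (.s k87 k84 0 (.d k255 k171 k170 13 14))))))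

def s63_207_135 : T TT 256 :=
  (.l (.s k1 k2 0 (.s k169 k253 13 (.s k86 k252 14 (.s k87 k84 0 (.d k255 k171 k170 13 14))))))

def s63_207_136 : T TT 256 :=
  (.l (.s k1 k2 0 (.s k169 k253 13 (.s k86 k252 14 (.s k87 k84 0 (.d k255 k171 k170 13 14))))))

def s63_207_137 : T TT 256 :=
  (.l (.s k1 k2 0 (.s k169 k253 13 (.s k86 k252 14 (.s k87 k84 0 (.d k255 k171 k170 13 14))))))

def s63_207_138 : T TT 256 :=
  (.l (.s k1 k2 0 (.s k169 k253 13 (.s k86 k252 14 (.s k87 k84 0 (.d k255 k171 k170 13 14))))))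

def s63_207_139 : T TT 256 :=
  (.l (.s k1 k2 0 (.s k169 k253 13 (.s k86 k252 14 (.s k87 k84 0 (.d k255 k171 k170 13 14))))))

def s63_207_140 : T TT 256 :=
  (.l (.s k1 k2 0 (.s k169 k253 13 (.s k86 k252 14 (.s k87 k84 0 (.d k255 k171 k170 13 14))))))

def s63_207_141 : T TT 256 :=
  (.l (.s k1 k2 0 (.s k169 k253 13 (.s k86 k252 14 (.s k87 k84 0 (.d k255 k171 k170 13 14))))))

def s63_207_142 : T TT 256 :=
  (.l (.s k1 k2 0 (.s k169 k253 13 (.s k86 k252 14 (.s k87 k84 0 (.d k255 k171 k170 13 14))))))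

def s63_207_143 : T TT 256 :=
  (.l (.s k1 k2 0 (.s k169 k253 13 (.s k86 k252 14 (.s k87 k84 0 (.d k255 k171 k170 13 14))))))

def s63_207_144 : T TT 256 :=
  (.l (.s k1 k2 0 (.s k169 k253 13 (.s k86 k252 14 (.s k87 k84 0 (.d k255 k171 k170 13 14))))))

def s63_207_145 : T TT 256 :=
  (.l (.s k1 k2 0 (.s k169 k253 13 (.s k86 k252 14 (.s k87 k84 0 (.d k255 k171 k170 13 14))))))

def s63_207_146 : T TT 256 :=
  (.l (.s k1 k2 0 (.s k169 k253 13 (.s k86 k252 14 (.s k87 k84 0 (.d k255 k171 k170 13 14))))))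

def s63_207_147 : T TT 256 :=
  (.l (.s k1 k2 0 (.s k169 k253 13 (.s k86 k252 14 (.s k87 k84 0 (.d k255 k171 k170 13 14))))))

def s63_207_148 : T TT 256 :=
  (.l (.s k1 k2 0 (.s k169 k253 13 (.s k86 k252 14 (.s k87 k84 0 (.d k255 k171 k170 13 14))))))

def s63_207_149 : T TT 256 :=
  (.l (.s k1 k2 0 (.s k169 k253 13 (.s k86 k252 14 (.s k87 k84 0 (.d k255 k171 k170 13 14))))))

def s63_207_150 : T TT 256 :=
  (.l (.s k1 k2 0 (.s k169 k253 13 (.s k86 k252 14 (.s k87 k84 0 (.d k255 k171 k170 13 14))))))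

def s63_207_151 : T TT 256 :=
  (.l (.s k1 k2 0 (.s k169 k253 13 (.s k86 k252 14 (.s k87 k84 0 (.d k255 k171 k170 13 14))))))

def s63_207_152 : T TT 256 :=
  (.l (.s k1 k2 0 (.s k169 k253 13 (.s k86 k252 14 (.s k87 k84 0 (.d k255 k171 k170 13 14))))))

def s63_207_153 : T TT 256 :=
  (.l (.s k1 k2 0 (.s k169 k253 13 (.s k86 k252 14 (.s k87 k84 0 (.d k255 k171 k170 13 14))))))

def s63_207_154 : T TT 256 :=
  (.l (.s k1 k2 0 (.s k169 k253 13 (.s k86 k252 14 (.s k87 k84 0 (.d k255 k171 k170 13 14))))))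

def s63_207_155 : T TT 256 :=
  (.l (.s k1 k2 0 (.s k169 k253 13 (.s k86 k252 14 (.s k87 k84 0 (.d k255 k171 k170 13 14))))))

def s63_207_156 : T TT 256 :=
  (.l (.s k1 k2 0 (.s k169 k253 13 (.s k86 k252 14 (.s k87 k84 0 (.d k255 k171 k170 13 14))))))

def s63_207_157 : T TT 256 :=
  (.l (.s k1 k2 0 (.s k169 k253 13 (.s k86 k252 14 (.s k87 k84 0 (.d k255 k171 k170 13 14))))))

def s63_207_158 : T TT 256 :=
  (.l (.s k1 k2 0 (.s k169 k253 13 (.s k86 k252 14 (.s k87 k84 0 (.d k255 k171 k170 13 14))))))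

def s63_207_159 : T TT 256 :=
  (.q k111 [(.s k1 k2 0 (.s k169 k253 13 (.s k86 k252 14 (.s k87 k84 0 (.d k255 k171 k170 13
  14))))), (.s k1 k2 0 (.s k169 k253 13 (.s k170 k255 14 (.s k168 k171 0 (.d k252 k84 k86 13
  14)))))] (.c k1 (.q k5 [(.s k15 k10 2 (.s k165 k245 11 (.s k90 k240 14 (.s k95 k80 2 (.d k255 k175
  k170 11 14))))), (.s k165 k245 11 (.s k255 k170 14 (.s k87 k171 13 (.s k86 k84 0 (.s k7 k244 12
  (.s k4 k6 0 (.d k247 k167 k166 11 12))))))), (.s k15 k10 2 (.s k7 k11 1 (.s k4 k6 0 (.s k247 k166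
  12 (.s k255 k170 14 (.d k87 k167 k171 11 13)))))), (.s k15 k10 2 (.s k7 k11 1 (.s k165 k245 11 (.s
  k86 k244 12 (.s k84 k87 0 (.d k252 k168 k169 13 14))))))] .n) (.c k2 (.q k5 [(.s k15 k10 2 (.s
  k165 k245 11 (.s k90 k240 14 (.s k95 k80 2 (.d k255 k175 k170 11 14))))), (.s k165 k245 11 (.s
  k255 k170 14 (.s k87 k171 13 (.s k86 k84 0 (.s k7 k244 12 (.s k247 k167 11 (.d k4 k6 k166 0
  12))))))), (.s k15 k10 2 (.s k7 k11 1 (.s k165 k245 11 (.s k86 k244 12 (.s k84 k87 0 (.d k252 k168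
  k169 13 14)))))), (.s k15 k10 2 (.s k7 k11 1 (.s k255 k170 14 (.s k87 k171 13 (.s k247 k167 11 (.d
  k4 k6 k166 0 12))))))] (.c k6 (.l (.s k165 k245 11 (.s k170 k255 14 (.s k160 k175 2 (.s k240 k80
  11 (.d k15 k10 k90 2 14)))))) .n)) (.c k84 (.q k4 [(.s k2 k1 0 (.s k12 k8 1 (.s k6 k9 2 (.s k5 k7
  0 (.d k10 k14 k15 1 2))))), (.s k12 k8 1 (.s k166 k247 12 (.s k89 k243 14 (.s k93 k81 1 (.d k255
  k174 k170 12 14))))), (.s k247 k166 12 (.s k255 k170 14 (.s k87 k171 13 (.s k7 k167 11 (.s k5 k6 0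
  (.d k15 k11 k10 1 2))))))] .n) (.c k86 (.q k4 [(.s k2 k1 0 (.s k12 k8 1 (.s k6 k9 2 (.s k10 k14 1
  (.d k5 k7 k15 0 2))))), (.s k12 k8 1 (.s k166 k247 12 (.s k89 k243 14 (.s k93 k81 1 (.d k255 k174
  k170 12 14))))), (.s k247 k166 12 (.s k255 k170 14 (.s k87 k171 13 (.s k7 k167 11 (.s k15 k11 1
  (.d k5 k6 k10 0 2))))))] .n) (.c k169 (.q k4 [(.s k2 k1 0 (.s k12 k8 1 (.s k6 k9 2 (.s k5 k7 0 (.d
  k10 k14 k15 1 2))))), (.s k12 k8 1 (.s k166 k247 12 (.s k89 k243 14 (.s k93 k81 1 (.d k255 k174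
  k170 12 14))))), (.s k2 k1 0 (.s k166 k247 12 (.s k170 k255 14 (.s k86 k254 13 (.s k6 k246 11 (.s
  k5 k7 0 (.d k10 k14 k15 1 2)))))))] .n) (.c k170 (.q k5 [(.s k1 k2 0 (.s k13 k9 1 (.s k165 k245 11
  (.s k89 k241 13 (.s k93 k81 1 (.d k253 k173 k169 11 13)))))), (.s k2 k1 0 (.s k10 k15 2 (.s k6 k14
  1 (.s k4 k7 0 (.d k12 k8 k9 1 2))))), (.s k15 k10 2 (.s k7 k11 1 (.s k165 k245 11 (.s k86 k244 12
  (.s k84 k87 0 (.d k252 k168 k169 13 14))))))] (.c k9 (.l (.s k1 k2 0 (.s k15 k10 2 (.s k11 k7 1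
  (.s k165 k245 11 (.s k90 k240 14 (.d k169 k248 k253 12 13))))))) .n)) (.c k171 (.l (.s k2 k1 0 (.s
  k170 k255 14 (.s k86 k254 13 (.s k84 k87 0 (.d k252 k168 k169 13 14)))))) (.c k252 (.f k2 k1 0 (.f
  k255 k170 14 (.q k95 [(.s k15 k175 11 (.s k5 k10 2 (.s k90 k80 2 (.d k165 k245 k240 11 14)))), (.s
  k80 k90 2 (.s k87 k171 13 (.s k83 k91 1 (.s k81 k82 0 (.d k243 k163 k162 11 12))))), (.s k15 k175
  11 (.s k7 k11 1 (.s k87 k171 13 (.s k91 k83 1 (.d k167 k247 k243 11 13)))))] (.c k126 (.q k189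
  [(.s k15 k175 11 (.s k5 k10 2 (.s k90 k80 2 (.d k165 k245 k240 11 14)))), (.s k80 k90 2 (.s k87
  k171 13 (.s k83 k91 1 (.s k81 k82 0 (.d k243 k163 k162 11 12))))), (.s k15 k175 11 (.s k7 k11 1
  (.s k87 k171 13 (.s k91 k83 1 (.d k167 k247 k243 11 13)))))] (.c k222 (.q k237 [(.s k15 k175 11
  (.s k5 k10 2 (.s k90 k80 2 (.d k165 k245 k240 11 14)))), (.s k80 k90 2 (.s k87 k171 13 (.s k83 k91
  1 (.s k81 k82 0 (.d k243 k163 k162 11 12))))), (.s k15 k175 11 (.s k7 k11 1 (.s k87 k171 13 (.s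
  k91 k83 1 (.d k167 k247 k243 11 13)))))] .n) (.c k237 (.q k222 [(.s k15 k175 11 (.s k5 k10 2 (.s
  k90 k80 2 (.d k165 k245 k240 11 14)))), (.s k80 k90 2 (.s k87 k171 13 (.s k83 k91 1 (.s k81 k82 0
  (.d k243 k163 k162 11 12))))), (.s k15 k175 11 (.s k7 k11 1 (.s k87 k171 13 (.s k91 k83 1 (.d k167
  k247 k243 11 13)))))] .n) .n))) (.c k189 (.q k126 [(.s k87 k171 13 (.s k86 k84 0 (.s k106 k66 5
  (.d k127 k79 k64 3 6)))), (.s k15 k175 11 (.s k5 k10 2 (.s k90 k80 2 (.d k165 k245 k240 11 14))))]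
  (.c k222 (.q k237 [(.s k87 k171 13 (.s k86 k84 0 (.s k106 k66 5 (.d k127 k79 k64 3 6)))), (.s k15
  k175 11 (.s k5 k10 2 (.s k90 k80 2 (.d k165 k245 k240 11 14))))] .n) (.c k237 (.q k222 [(.s k87
  k171 13 (.s k86 k84 0 (.s k106 k66 5 (.d k127 k79 k64 3 6)))), (.s k15 k175 11 (.s k5 k10 2 (.s
  k90 k80 2 (.d k165 k245 k240 11 14))))] .n) .n))) (.c k222 (.q k237 [(.s k15 k175 11 (.s k5 k10 2
  (.s k90 k80 2 (.d k165 k245 k240 11 14)))), (.s k80 k90 2 (.s k87 k171 13 (.s k83 k91 1 (.s k81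
  k82 0 (.d k243 k163 k162 11 12))))), (.s k15 k175 11 (.s k7 k11 1 (.s k87 k171 13 (.s k91 k83 1
  (.d k167 k247 k243 11 13)))))] (.c k126 (.q k189 [(.s k15 k175 11 (.s k5 k10 2 (.s k90 k80 2 (.d
  k165 k245 k240 11 14)))), (.s k80 k90 2 (.s k87 k171 13 (.s k83 k91 1 (.s k81 k82 0 (.d k243 k163
  k162 11 12))))), (.s k15 k175 11 (.s k7 k11 1 (.s k87 k171 13 (.s k91 k83 1 (.d k167 k247 k243 11
  13)))))] .n) (.c k189 (.q k126 [(.s k87 k171 13 (.s k86 k84 0 (.s k106 k66 5 (.d k127 k79 k64 3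
  6)))), (.s k15 k175 11 (.s k5 k10 2 (.s k90 k80 2 (.d k165 k245 k240 11 14))))] .n) .n))) (.c k237
  (.q k222 [(.s k15 k175 11 (.s k5 k10 2 (.s k90 k80 2 (.d k165 k245 k240 11 14)))), (.s k80 k90 2
  (.s k87 k171 13 (.s k83 k91 1 (.s k81 k82 0 (.d k243 k163 k162 11 12))))), (.s k15 k175 11 (.s k7
  k11 1 (.s k87 k171 13 (.s k91 k83 1 (.d k167 k247 k243 11 13)))))] (.c k126 (.q k189 [(.s k15 k175
  11 (.s k5 k10 2 (.s k90 k80 2 (.d k165 k245 k240 11 14)))), (.s k80 k90 2 (.s k87 k171 13 (.s k83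
  k91 1 (.s k81 k82 0 (.d k243 k163 k162 11 12))))), (.s k15 k175 11 (.s k7 k11 1 (.s k87 k171 13
  (.s k91 k83 1 (.d k167 k247 k243 11 13)))))] .n) (.c k189 (.q k126 [(.s k87 k171 13 (.s k86 k84 0
  (.s k106 k66 5 (.d k127 k79 k64 3 6)))), (.s k15 k175 11 (.s k5 k10 2 (.s k90 k80 2 (.d k165 k245
  k240 11 14))))] .n) .n))) .n))))))) (.c k253 (.l (.s k2 k1 0 (.s k170 k255 14 (.s k86 k254 13 (.s
  k252 k169 14 (.d k84 k87 k168 0 13)))))) (.c k254 (.l (.s k1 k2 0 (.s k169 k253 13 (.s k86 k252 14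
  (.s k255 k170 14 (.d k87 k84 k171 0 13)))))) (.c k255 (.q k127 [(.s k79 k95 3 (.s k106 k64 6 (.s
  k101 k96 2 (.s k112 k90 6 (.d k117 k122 k69 2 3))))), (.s k2 k1 0 (.s k64 k106 6 (.s k192 k128 7
  (.s k66 k129 8 (.s k65 k67 0 (.d k130 k194 k195 7 8)))))), (.s k2 k1 0 (.s k95 k79 3 (.s k80 k90 2
  (.s k240 k160 11 (.s k82 k161 12 (.s k81 k83 0 (.d k162 k242 k243 11 12)))))))] (.c k223 (.q k239
  [(.s k106 k64 6 (.s k101 k96 2 (.s k117 k69 3 (.s k112 k122 2 (.d k79 k95 k90 3 6))))), (.s k2 k1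
  0 (.s k64 k106 6 (.s k192 k128 7 (.s k66 k129 8 (.s k65 k67 0 (.d k130 k194 k195 7 8)))))), (.s k2
  k1 0 (.s k95 k79 3 (.s k80 k90 2 (.s k240 k160 11 (.s k82 k161 12 (.s k81 k83 0 (.d k162 k242 k243
  11 12)))))))] (.c k31 (.l (.s k95 k79 3 (.s k2 k1 0 (.s k64 k106 6 (.s k192 k128 7 (.s k66 k129 8
  (.s k65 k67 0 (.d k130 k194 k195 7 8)))))))) (.c k95 (.q k31 [(.s k2 k1 0 (.s k64 k106 6 (.s k192
  k128 7 (.s k66 k129 8 (.s k65 k67 0 (.d k130 k194 k195 7 8)))))), (.s k106 k64 6 (.s k101 k96 2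
  (.s k170 k32 10 (.s k234 k42 7 (.s k224 k229 2 (.d k47 k175 k165 7 10))))))] (.c k15 (.l (.s k175
  k47 7 (.s k2 k1 0 (.s k64 k106 6 (.s k192 k128 7 (.s k66 k129 8 (.s k65 k67 0 (.d k130 k194 k195 7
  8)))))))) (.c k64 (.q k5 [(.s k15 k10 2 (.s k165 k245 11 (.s k175 k47 7 (.s k160 k170 2 (.d k240
  k90 k80 14 11))))), (.s k1 k2 0 (.s k9 k13 1 (.s k6 k12 2 (.s k7 k4 0 (.d k15 k11 k10 1 2)))))]
  (.c k10 (.l (.s k1 k2 0 (.s k13 k9 1 (.s k165 k245 11 (.s k89 k241 13 (.s k93 k81 1 (.d k253 k173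
  k169 11 13))))))) (.c k15 (.l (.s k175 k47 7 (.s k1 k2 0 (.s k13 k9 1 (.s k165 k245 11 (.s k89
  k241 13 (.s k93 k81 1 (.d k253 k173 k169 11 13)))))))) (.c k175 (.l (.s k15 k10 2 (.s k1 k2 0 (.s
  k7 k11 1 (.s k6 k4 0 (.d k9 k13 k12 1 2)))))) .n)))) (.c k106 (.f k1 k2 0 (.f k169 k253 13 (.l (.s
  k252 k86 14 (.s k168 k84 13 (.s k170 k171 0 (.s k32 k101 10 (.s k236 k100 9 (.s k102 k35 10 (.d
  k238 k237 k34 0 9)))))))))) (.c k175 (.q k15 [(.s k1 k2 0 (.s k5 k10 2 (.s k7 k11 1 (.s k6 k4 0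
  (.d k9 k13 k12 1 2))))), (.s k2 k1 0 (.s k64 k106 6 (.s k192 k128 7 (.s k66 k129 8 (.s k65 k67 0
  (.d k130 k194 k195 7 8)))))), (.s k5 k10 2 (.s k7 k11 1 (.s k165 k245 11 (.s k86 k244 12 (.s k84
  k87 0 (.d k252 k168 k169 13 14))))))] (.c k143 (.q k191 [(.s k1 k2 0 (.s k5 k10 2 (.s k7 k11 1 (.s
  k6 k4 0 (.d k9 k13 k12 1 2))))), (.s k2 k1 0 (.s k64 k106 6 (.s k192 k128 7 (.s k66 k129 8 (.s k65
  k67 0 (.d k130 k194 k195 7 8)))))), (.s k5 k10 2 (.s k7 k11 1 (.s k165 k245 11 (.s k86 k244 12 (.s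
  k84 k87 0 (.d k252 k168 k169 13 14))))))] .n) (.c k191 (.q k143 [(.s k1 k2 0 (.s k5 k10 2 (.s k7
  k11 1 (.s k6 k4 0 (.d k9 k13 k12 1 2))))), (.s k2 k1 0 (.s k64 k106 6 (.s k192 k128 7 (.s k66 k129
  8 (.s k65 k67 0 (.d k130 k194 k195 7 8)))))), (.s k5 k10 2 (.s k7 k11 1 (.s k165 k245 11 (.s k86
  k244 12 (.s k84 k87 0 (.d k252 k168 k169 13 14))))))] .n) .n))) .n))))) .n))) (.c k239 (.q k223
  [(.s k79 k95 3 (.s k106 k64 6 (.s k101 k96 2 (.s k112 k90 6 (.d k117 k122 k69 2 3))))), (.s k2 k1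
  0 (.s k16 k154 10 (.s k48 k32 3 (.s k18 k33 4 (.s k17 k19 0 (.d k34 k50 k51 3 4))))))] (.c k101
  (.l (.s k2 k1 0 (.s k64 k106 6 (.s k192 k128 7 (.s k66 k129 8 (.s k65 k67 0 (.d k130 k194 k195 7
  8))))))) .n)) .n))) .n))))))))))))

def s63_207_160 : T TT 256 :=
  (.l (.s k1 k2 0 (.s k169 k253 13 (.s k86 k252 14 (.s k87 k84 0 (.d k255 k171 k170 13 14))))))

def s63_207_161 : T TT 256 :=
  (.l (.s k1 k2 0 (.s k169 k253 13 (.s k86 k252 14 (.s k87 k84 0 (.d k255 k171 k170 13 14))))))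

def s63_207_162 : T TT 256 :=
  (.l (.s k1 k2 0 (.s k169 k253 13 (.s k86 k252 14 (.s k87 k84 0 (.d k255 k171 k170 13 14))))))

def s63_207_163 : T TT 256 :=
  (.l (.s k1 k2 0 (.s k169 k253 13 (.s k86 k252 14 (.s k87 k84 0 (.d k255 k171 k170 13 14))))))

def s63_207_164 : T TT 256 :=
  (.l (.s k1 k2 0 (.s k169 k253 13 (.s k86 k252 14 (.s k87 k84 0 (.d k255 k171 k170 13 14))))))

def s63_207_165 : T TT 256 :=
  (.l (.s k1 k2 0 (.s k169 k253 13 (.s k86 k252 14 (.s k87 k84 0 (.d k255 k171 k170 13 14))))))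

def s63_207_166 : T TT 256 :=
  (.l (.s k1 k2 0 (.s k169 k253 13 (.s k86 k252 14 (.s k87 k84 0 (.d k255 k171 k170 13 14))))))

def s63_207_167 : T TT 256 :=
  (.l (.s k1 k2 0 (.s k169 k253 13 (.s k86 k252 14 (.s k87 k84 0 (.d k255 k171 k170 13 14))))))

def s63_207_168 : T TT 256 :=
  (.l (.s k1 k2 0 (.s k169 k253 13 (.s k86 k252 14 (.s k87 k84 0 (.d k255 k171 k170 13 14))))))

def s63_207_169 : T TT 256 :=
  (.f k255 k170 14 (.f k171 k87 13 (.f k2 k1 0 (.q k6 [(.s k9 k12 2 (.s k10 k14 1 (.s k15 k5 2 (.d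
  k11 k8 k7 0 1)))), (.s k12 k9 2 (.s k93 k174 12 (.s k89 k81 1 (.s k166 k243 14 (.d k4 k8 k247 1
  12))))), (.s k10 k14 1 (.s k15 k5 2 (.s k11 k7 1 (.s k175 k95 11 (.s k167 k163 1 (.d k91 k251 k243
  11 13))))))] (.c k5 (.l (.s k9 k12 2 (.s k10 k14 1 (.s k11 k8 0 (.s k15 k7 1 (.s k175 k95 11 (.s
  k167 k163 1 (.d k91 k251 k243 11 13)))))))) (.c k9 (.l (.s k10 k14 1 (.s k5 k15 2 (.s k4 k7 0 (.s
  k12 k8 1 (.s k93 k174 12 (.s k89 k81 1 (.d k166 k247 k243 12 14)))))))) (.c k13 (.l (.s k9 k12 2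
  (.s k10 k14 1 (.s k15 k5 2 (.d k11 k8 k7 0 1))))) (.c k111 (.q k159 [(.s k9 k12 2 (.s k10 k14 1
  (.s k15 k5 2 (.d k11 k8 k7 0 1)))), (.s k12 k9 2 (.s k93 k174 12 (.s k89 k81 1 (.s k166 k243 14
  (.d k4 k8 k247 1 12))))), (.s k10 k14 1 (.s k15 k5 2 (.s k11 k7 1 (.s k175 k95 11 (.s k167 k163 1
  (.d k91 k251 k243 11 13))))))] (.c k5 (.l (.s k9 k12 2 (.s k10 k14 1 (.s k11 k8 0 (.s k15 k7 1 (.s
  k175 k95 11 (.s k167 k163 1 (.d k91 k251 k243 11 13)))))))) (.c k9 (.l (.s k10 k14 1 (.s k5 k15 2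
  (.s k4 k7 0 (.s k12 k8 1 (.s k93 k174 12 (.s k89 k81 1 (.d k166 k247 k243 12 14)))))))) (.c k13
  (.l (.s k9 k12 2 (.s k10 k14 1 (.s k15 k5 2 (.d k11 k8 k7 0 1))))) .n)))) (.c k159 (.q k111 [(.s
  k9 k12 2 (.s k10 k14 1 (.s k15 k5 2 (.d k11 k8 k7 0 1)))), (.s k12 k9 2 (.s k93 k174 12 (.s k89
  k81 1 (.s k166 k243 14 (.d k4 k8 k247 1 12))))), (.s k10 k14 1 (.s k15 k5 2 (.s k11 k7 1 (.s k175
  k95 11 (.s k167 k163 1 (.d k91 k251 k243 11 13))))))] (.c k5 (.l (.s k9 k12 2 (.s k10 k14 1 (.s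
  k11 k8 0 (.s k15 k7 1 (.s k175 k95 11 (.s k167 k163 1 (.d k91 k251 k243 11 13)))))))) (.c k9 (.l
  (.s k10 k14 1 (.s k5 k15 2 (.s k4 k7 0 (.s k12 k8 1 (.s k93 k174 12 (.s k89 k81 1 (.d k166 k247
  k243 12 14)))))))) (.c k13 (.l (.s k9 k12 2 (.s k10 k14 1 (.s k15 k5 2 (.d k11 k8 k7 0 1)))))
  .n)))) .n)))))))))

def s63_207_170 : T TT 256 :=
  (.q k161 [(.s k2 k1 0 (.s k82 k240 12 (.s k162 k242 11 (.s k243 k81 12 (.d k163 k160 k83 0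
  11))))), (.s k240 k82 12 (.s k80 k160 11 (.s k90 k95 2 (.s k165 k15 14 (.s k169 k173 1 (.s k248
  k11 12 (.d k252 k244 k86 1 14))))))), (.s k1 k2 0 (.s k169 k253 13 (.s k165 k173 1 (.s k5 k245 11
  (.s k13 k9 1 (.d k241 k81 k89 11 13))))))] (.c k111 (.q k159 [(.s k2 k1 0 (.s k82 k240 12 (.s k162
  k242 11 (.s k243 k81 12 (.d k163 k160 k83 0 11))))), (.s k240 k82 12 (.s k80 k160 11 (.s k90 k95 2
  (.s k165 k15 14 (.s k169 k173 1 (.s k248 k11 12 (.d k252 k244 k86 1 14))))))), (.s k1 k2 0 (.s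
  k169 k253 13 (.s k165 k173 1 (.s k5 k245 11 (.s k13 k9 1 (.d k241 k81 k89 11 13))))))] .n) (.c
  k159 (.q k111 [(.s k2 k1 0 (.s k82 k240 12 (.s k162 k242 11 (.s k243 k81 12 (.d k163 k160 k83 0
  11))))), (.s k240 k82 12 (.s k80 k160 11 (.s k90 k95 2 (.s k165 k15 14 (.s k169 k173 1 (.s k248
  k11 12 (.d k252 k244 k86 1 14))))))), (.s k1 k2 0 (.s k169 k253 13 (.s k165 k173 1 (.s k5 k245 11
  (.s k13 k9 1 (.d k241 k81 k89 11 13))))))] .n) .n)))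

def s63_207_171 : T TT 256 :=
  (.l (.s k2 k1 0 (.s k170 k255 14 (.s k86 k254 13 (.s k84 k87 0 (.d k252 k168 k169 13 14))))))

def s63_207_172 : T TT 256 :=
  (.l (.s k1 k2 0 (.s k169 k253 13 (.s k86 k252 14 (.s k87 k84 0 (.d k255 k171 k170 13 14))))))

def s63_207_173 : T TT 256 :=
  (.l (.s k1 k2 0 (.s k169 k253 13 (.s k86 k252 14 (.s k87 k84 0 (.d k255 k171 k170 13 14))))))

def s63_207_174 : T TT 256 :=
  (.l (.s k1 k2 0 (.s k169 k253 13 (.s k86 k252 14 (.s k87 k84 0 (.d k255 k171 k170 13 14))))))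

def s63_207_175 : T TT 256 :=
  (.l (.s k1 k2 0 (.s k169 k253 13 (.s k86 k252 14 (.s k87 k84 0 (.d k255 k171 k170 13 14))))))

def s63_207_176 : T TT 256 :=
  (.l (.s k1 k2 0 (.s k169 k253 13 (.s k86 k252 14 (.s k87 k84 0 (.d k255 k171 k170 13 14))))))

def s63_207_177 : T TT 256 :=
  (.l (.s k1 k2 0 (.s k169 k253 13 (.s k86 k252 14 (.s k87 k84 0 (.d k255 k171 k170 13 14))))))

def s63_207_178 : T TT 256 :=
  (.l (.s k1 k2 0 (.s k169 k253 13 (.s k86 k252 14 (.s k87 k84 0 (.d k255 k171 k170 13 14))))))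

def s63_207_179 : T TT 256 :=
  (.l (.s k1 k2 0 (.s k169 k253 13 (.s k86 k252 14 (.s k87 k84 0 (.d k255 k171 k170 13 14))))))

def s63_207_180 : T TT 256 :=
  (.l (.s k1 k2 0 (.s k169 k253 13 (.s k86 k252 14 (.s k87 k84 0 (.d k255 k171 k170 13 14))))))

def s63_207_181 : T TT 256 :=
  (.l (.s k1 k2 0 (.s k169 k253 13 (.s k86 k252 14 (.s k87 k84 0 (.d k255 k171 k170 13 14))))))

def s63_207_182 : T TT 256 :=
  (.l (.s k1 k2 0 (.s k169 k253 13 (.s k86 k252 14 (.s k87 k84 0 (.d k255 k171 k170 13 14))))))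

def s63_207_183 : T TT 256 :=
  (.l (.s k1 k2 0 (.s k169 k253 13 (.s k86 k252 14 (.s k87 k84 0 (.d k255 k171 k170 13 14))))))

def s63_207_184 : T TT 256 :=
  (.l (.s k1 k2 0 (.s k169 k253 13 (.s k86 k252 14 (.s k87 k84 0 (.d k255 k171 k170 13 14))))))

def s63_207_185 : T TT 256 :=
  (.l (.s k1 k2 0 (.s k169 k253 13 (.s k86 k252 14 (.s k87 k84 0 (.d k255 k171 k170 13 14))))))

def s63_207_186 : T TT 256 :=
  (.l (.s k1 k2 0 (.s k169 k253 13 (.s k86 k252 14 (.s k87 k84 0 (.d k255 k171 k170 13 14))))))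

def s63_207_187 : T TT 256 :=
  (.l (.s k1 k2 0 (.s k169 k253 13 (.s k86 k252 14 (.s k87 k84 0 (.d k255 k171 k170 13 14))))))

def s63_207_188 : T TT 256 :=
  (.l (.s k1 k2 0 (.s k169 k253 13 (.s k86 k252 14 (.s k87 k84 0 (.d k255 k171 k170 13 14))))))

def s63_207_189 : T TT 256 :=
  (.l (.s k1 k2 0 (.s k169 k253 13 (.s k170 k255 14 (.s k168 k171 0 (.d k252 k84 k86 13 14))))))

def s63_207_190 : T TT 256 :=
  (.l (.s k1 k2 0 (.s k169 k253 13 (.s k86 k252 14 (.s k87 k84 0 (.d k255 k171 k170 13 14))))))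

def s63_207_191 : T TT 256 :=
  (.l (.s k1 k2 0 (.s k169 k253 13 (.s k86 k252 14 (.s k87 k84 0 (.d k255 k171 k170 13 14))))))

def s63_207_192 : T TT 256 :=
  (.l (.s k1 k2 0 (.s k169 k253 13 (.s k86 k252 14 (.s k87 k84 0 (.d k255 k171 k170 13 14))))))

def s63_207_193 : T TT 256 :=
  (.l (.s k1 k2 0 (.s k169 k253 13 (.s k86 k252 14 (.s k87 k84 0 (.d k255 k171 k170 13 14))))))

def s63_207_194 : T TT 256 :=
  (.l (.s k1 k2 0 (.s k169 k253 13 (.s k86 k252 14 (.s k87 k84 0 (.d k255 k171 k170 13 14))))))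

def s63_207_195 : T TT 256 :=
  (.l (.s k1 k2 0 (.s k169 k253 13 (.s k86 k252 14 (.s k87 k84 0 (.d k255 k171 k170 13 14))))))

def s63_207_196 : T TT 256 :=
  (.l (.s k1 k2 0 (.s k169 k253 13 (.s k86 k252 14 (.s k87 k84 0 (.d k255 k171 k170 13 14))))))

def s63_207_197 : T TT 256 :=
  (.l (.s k1 k2 0 (.s k169 k253 13 (.s k86 k252 14 (.s k87 k84 0 (.d k255 k171 k170 13 14))))))

def s63_207_198 : T TT 256 :=
  (.l (.s k1 k2 0 (.s k169 k253 13 (.s k86 k252 14 (.s k87 k84 0 (.d k255 k171 k170 13 14))))))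

def s63_207_199 : T TT 256 :=
  (.l (.s k1 k2 0 (.s k169 k253 13 (.s k86 k252 14 (.s k87 k84 0 (.d k255 k171 k170 13 14))))))

def s63_207_200 : T TT 256 :=
  (.l (.s k1 k2 0 (.s k169 k253 13 (.s k86 k252 14 (.s k87 k84 0 (.d k255 k171 k170 13 14))))))

def s63_207_201 : T TT 256 :=
  (.l (.s k1 k2 0 (.s k169 k253 13 (.s k86 k252 14 (.s k87 k84 0 (.d k255 k171 k170 13 14))))))

def s63_207_202 : T TT 256 :=
  (.l (.s k1 k2 0 (.s k169 k253 13 (.s k86 k252 14 (.s k87 k84 0 (.d k255 k171 k170 13 14))))))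

def s63_207_203 : T TT 256 :=
  (.l (.s k1 k2 0 (.s k169 k253 13 (.s k86 k252 14 (.s k87 k84 0 (.d k255 k171 k170 13 14))))))

def s63_207_204 : T TT 256 :=
  (.l (.s k1 k2 0 (.s k169 k253 13 (.s k86 k252 14 (.s k87 k84 0 (.d k255 k171 k170 13 14))))))

def s63_207_205 : T TT 256 :=
  (.l (.s k1 k2 0 (.s k169 k253 13 (.s k86 k252 14 (.s k87 k84 0 (.d k255 k171 k170 13 14))))))

def s63_207_206 : T TT 256 :=
  (.l (.s k1 k2 0 (.s k169 k253 13 (.s k86 k252 14 (.s k87 k84 0 (.d k255 k171 k170 13 14))))))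

def s63_207_208 : T TT 256 :=
  (.l (.s k1 k2 0 (.s k169 k253 13 (.s k86 k252 14 (.s k87 k84 0 (.d k255 k171 k170 13 14))))))

def s63_207_209 : T TT 256 :=
  (.l (.s k1 k2 0 (.s k169 k253 13 (.s k86 k252 14 (.s k87 k84 0 (.d k255 k171 k170 13 14))))))

def s63_207_210 : T TT 256 :=
  (.l (.s k1 k2 0 (.s k169 k253 13 (.s k86 k252 14 (.s k87 k84 0 (.d k255 k171 k170 13 14))))))

def s63_207_211 : T TT 256 :=
  (.l (.s k1 k2 0 (.s k169 k253 13 (.s k86 k252 14 (.s k87 k84 0 (.d k255 k171 k170 13 14))))))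

def s63_207_212 : T TT 256 :=
  (.l (.s k1 k2 0 (.s k169 k253 13 (.s k86 k252 14 (.s k87 k84 0 (.d k255 k171 k170 13 14))))))

def s63_207_213 : T TT 256 :=
  (.l (.s k1 k2 0 (.s k169 k253 13 (.s k86 k252 14 (.s k87 k84 0 (.d k255 k171 k170 13 14))))))

def s63_207_214 : T TT 256 :=
  (.l (.s k1 k2 0 (.s k169 k253 13 (.s k86 k252 14 (.s k87 k84 0 (.d k255 k171 k170 13 14))))))

def s63_207_215 : T TT 256 :=
  (.l (.s k1 k2 0 (.s k169 k253 13 (.s k86 k252 14 (.s k87 k84 0 (.d k255 k171 k170 13 14))))))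

def s63_207_216 : T TT 256 :=
  (.l (.s k1 k2 0 (.s k169 k253 13 (.s k86 k252 14 (.s k87 k84 0 (.d k255 k171 k170 13 14))))))

def s63_207_217 : T TT 256 :=
  (.l (.s k1 k2 0 (.s k169 k253 13 (.s k86 k252 14 (.s k87 k84 0 (.d k255 k171 k170 13 14))))))

def s63_207_218 : T TT 256 :=
  (.l (.s k1 k2 0 (.s k169 k253 13 (.s k86 k252 14 (.s k87 k84 0 (.d k255 k171 k170 13 14))))))

def s63_207_219 : T TT 256 :=
  (.l (.s k1 k2 0 (.s k169 k253 13 (.s k86 k252 14 (.s k87 k84 0 (.d k255 k171 k170 13 14))))))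

def s63_207_220 : T TT 256 :=
  (.l (.s k1 k2 0 (.s k169 k253 13 (.s k86 k252 14 (.s k87 k84 0 (.d k255 k171 k170 13 14))))))

def s63_207_221 : T TT 256 :=
  (.l (.s k1 k2 0 (.s k169 k253 13 (.s k86 k252 14 (.s k87 k84 0 (.d k255 k171 k170 13 14))))))

def s63_207_222 : T TT 256 :=
  (.l (.s k1 k2 0 (.s k169 k253 13 (.s k170 k255 14 (.s k168 k171 0 (.d k252 k84 k86 13 14))))))

def s63_207_223 : T TT 256 :=
  (.l (.s k1 k2 0 (.s k169 k253 13 (.s k86 k252 14 (.s k87 k84 0 (.d k255 k171 k170 13 14))))))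

def s63_207_224 : T TT 256 :=
  (.l (.s k1 k2 0 (.s k169 k253 13 (.s k86 k252 14 (.s k87 k84 0 (.d k255 k171 k170 13 14))))))

def s63_207_225 : T TT 256 :=
  (.l (.s k1 k2 0 (.s k169 k253 13 (.s k86 k252 14 (.s k87 k84 0 (.d k255 k171 k170 13 14))))))

def s63_207_226 : T TT 256 :=
  (.l (.s k1 k2 0 (.s k169 k253 13 (.s k86 k252 14 (.s k87 k84 0 (.d k255 k171 k170 13 14))))))

def s63_207_227 : T TT 256 :=
  (.l (.s k1 k2 0 (.s k169 k253 13 (.s k86 k252 14 (.s k87 k84 0 (.d k255 k171 k170 13 14))))))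

def s63_207_228 : T TT 256 :=
  (.l (.s k1 k2 0 (.s k169 k253 13 (.s k86 k252 14 (.s k87 k84 0 (.d k255 k171 k170 13 14))))))

def s63_207_229 : T TT 256 :=
  (.l (.s k1 k2 0 (.s k169 k253 13 (.s k86 k252 14 (.s k87 k84 0 (.d k255 k171 k170 13 14))))))

def s63_207_230 : T TT 256 :=
  (.l (.s k1 k2 0 (.s k169 k253 13 (.s k86 k252 14 (.s k87 k84 0 (.d k255 k171 k170 13 14))))))

def s63_207_231 : T TT 256 :=
  (.l (.s k1 k2 0 (.s k169 k253 13 (.s k86 k252 14 (.s k87 k84 0 (.d k255 k171 k170 13 14))))))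

def s63_207_232 : T TT 256 :=
  (.l (.s k1 k2 0 (.s k169 k253 13 (.s k86 k252 14 (.s k87 k84 0 (.d k255 k171 k170 13 14))))))

def s63_207_233 : T TT 256 :=
  (.l (.s k1 k2 0 (.s k169 k253 13 (.s k86 k252 14 (.s k87 k84 0 (.d k255 k171 k170 13 14))))))

def s63_207_234 : T TT 256 :=
  (.l (.s k1 k2 0 (.s k169 k253 13 (.s k86 k252 14 (.s k87 k84 0 (.d k255 k171 k170 13 14))))))

def s63_207_235 : T TT 256 :=
  (.l (.s k1 k2 0 (.s k169 k253 13 (.s k86 k252 14 (.s k87 k84 0 (.d k255 k171 k170 13 14))))))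

def s63_207_236 : T TT 256 :=
  (.l (.s k1 k2 0 (.s k169 k253 13 (.s k86 k252 14 (.s k87 k84 0 (.d k255 k171 k170 13 14))))))

def s63_207_237 : T TT 256 :=
  (.l (.s k1 k2 0 (.s k169 k253 13 (.s k170 k255 14 (.s k168 k171 0 (.d k252 k84 k86 13 14))))))

def s63_207_238 : T TT 256 :=
  (.l (.s k1 k2 0 (.s k169 k253 13 (.s k86 k252 14 (.s k87 k84 0 (.d k255 k171 k170 13 14))))))

def s63_207_239 : T TT 256 :=
  (.l (.s k1 k2 0 (.s k169 k253 13 (.s k86 k252 14 (.s k87 k84 0 (.d k255 k171 k170 13 14))))))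

def s63_207_240 : T TT 256 :=
  (.l (.s k1 k2 0 (.s k169 k253 13 (.s k86 k252 14 (.s k87 k84 0 (.d k255 k171 k170 13 14))))))

def s63_207_241 : T TT 256 :=
  (.l (.s k1 k2 0 (.s k169 k253 13 (.s k86 k252 14 (.s k87 k84 0 (.d k255 k171 k170 13 14))))))

def s63_207_242 : T TT 256 :=
  (.l (.s k1 k2 0 (.s k169 k253 13 (.s k86 k252 14 (.s k87 k84 0 (.d k255 k171 k170 13 14))))))

def s63_207_243 : T TT 256 :=
  (.l (.s k1 k2 0 (.s k169 k253 13 (.s k86 k252 14 (.s k87 k84 0 (.d k255 k171 k170 13 14))))))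

def s63_207_244 : T TT 256 :=
  (.l (.s k1 k2 0 (.s k169 k253 13 (.s k86 k252 14 (.s k87 k84 0 (.d k255 k171 k170 13 14))))))

def s63_207_245 : T TT 256 :=
  (.l (.s k1 k2 0 (.s k169 k253 13 (.s k86 k252 14 (.s k87 k84 0 (.d k255 k171 k170 13 14))))))

def s63_207_246 : T TT 256 :=
  (.l (.s k1 k2 0 (.s k169 k253 13 (.s k86 k252 14 (.s k87 k84 0 (.d k255 k171 k170 13 14))))))

def s63_207_247 : T TT 256 :=
  (.l (.s k1 k2 0 (.s k169 k253 13 (.s k86 k252 14 (.s k87 k84 0 (.d k255 k171 k170 13 14))))))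

def s63_207_248 : T TT 256 :=
  (.l (.s k1 k2 0 (.s k169 k253 13 (.s k86 k252 14 (.s k87 k84 0 (.d k255 k171 k170 13 14))))))

def s63_207_249 : T TT 256 :=
  (.l (.s k1 k2 0 (.s k169 k253 13 (.s k86 k252 14 (.s k87 k84 0 (.d k255 k171 k170 13 14))))))

def s63_207_250 : T TT 256 :=
  (.l (.s k1 k2 0 (.s k169 k253 13 (.s k86 k252 14 (.s k87 k84 0 (.d k255 k171 k170 13 14))))))

def s63_207_251 : T TT 256 :=
  (.l (.s k1 k2 0 (.s k169 k253 13 (.s k86 k252 14 (.s k87 k84 0 (.d k255 k171 k170 13 14))))))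

def s63_207_252 : T TT 256 :=
  (.f k2 k1 0 (.f k255 k170 14 (.f k171 k87 13 (.q k6 [(.s k9 k12 2 (.s k10 k14 1 (.s k15 k5 2 (.d
  k11 k8 k7 0 1)))), (.s k12 k9 2 (.s k93 k174 12 (.s k89 k81 1 (.s k166 k243 14 (.d k4 k8 k247 1
  12))))), (.s k10 k14 1 (.s k15 k5 2 (.s k11 k7 1 (.s k175 k95 11 (.s k167 k163 1 (.d k91 k251 k243
  11 13))))))] (.c k5 (.l (.s k9 k12 2 (.s k10 k14 1 (.s k11 k8 0 (.s k15 k7 1 (.s k175 k95 11 (.s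
  k167 k163 1 (.d k91 k251 k243 11 13)))))))) (.c k9 (.l (.s k10 k14 1 (.s k5 k15 2 (.s k4 k7 0 (.s
  k12 k8 1 (.s k93 k174 12 (.s k89 k81 1 (.d k166 k247 k243 12 14)))))))) (.c k13 (.l (.s k9 k12 2
  (.s k10 k14 1 (.s k15 k5 2 (.d k11 k8 k7 0 1))))) (.c k111 (.q k159 [(.s k9 k12 2 (.s k10 k14 1
  (.s k15 k5 2 (.d k11 k8 k7 0 1)))), (.s k12 k9 2 (.s k93 k174 12 (.s k89 k81 1 (.s k166 k243 14
  (.d k4 k8 k247 1 12))))), (.s k10 k14 1 (.s k15 k5 2 (.s k11 k7 1 (.s k175 k95 11 (.s k167 k163 1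
  (.d k91 k251 k243 11 13))))))] (.c k5 (.l (.s k9 k12 2 (.s k10 k14 1 (.s k11 k8 0 (.s k15 k7 1 (.s
  k175 k95 11 (.s k167 k163 1 (.d k91 k251 k243 11 13)))))))) (.c k9 (.l (.s k10 k14 1 (.s k5 k15 2
  (.s k4 k7 0 (.s k12 k8 1 (.s k93 k174 12 (.s k89 k81 1 (.d k166 k247 k243 12 14)))))))) (.c k13
  (.l (.s k9 k12 2 (.s k10 k14 1 (.s k15 k5 2 (.d k11 k8 k7 0 1))))) (.c k126 (.q k189 [(.s k9 k12 2
  (.s k10 k14 1 (.s k15 k5 2 (.d k11 k8 k7 0 1)))), (.s k12 k9 2 (.s k93 k174 12 (.s k89 k81 1 (.s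
  k166 k243 14 (.d k4 k8 k247 1 12))))), (.s k10 k14 1 (.s k15 k5 2 (.s k11 k7 1 (.s k175 k95 11 (.s
  k167 k163 1 (.d k91 k251 k243 11 13))))))] (.c k5 (.l (.s k9 k12 2 (.s k10 k14 1 (.s k11 k8 0 (.s
  k15 k7 1 (.s k175 k95 11 (.s k167 k163 1 (.d k91 k251 k243 11 13)))))))) (.c k9 (.l (.s k10 k14 1
  (.s k5 k15 2 (.s k4 k7 0 (.s k12 k8 1 (.s k93 k174 12 (.s k89 k81 1 (.d k166 k247 k243 12
  14)))))))) (.c k13 (.l (.s k9 k12 2 (.s k10 k14 1 (.s k15 k5 2 (.d k11 k8 k7 0 1))))) (.c k222 (.q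
  k237 [(.s k9 k12 2 (.s k10 k14 1 (.s k15 k5 2 (.d k11 k8 k7 0 1)))), (.s k12 k9 2 (.s k93 k174 12
  (.s k89 k81 1 (.s k166 k243 14 (.d k4 k8 k247 1 12))))), (.s k10 k14 1 (.s k15 k5 2 (.s k11 k7 1
  (.s k175 k95 11 (.s k167 k163 1 (.d k91 k251 k243 11 13))))))] (.c k5 (.l (.s k9 k12 2 (.s k10 k14
  1 (.s k11 k8 0 (.s k15 k7 1 (.s k175 k95 11 (.s k167 k163 1 (.d k91 k251 k243 11 13)))))))) (.c k9
  (.l (.s k10 k14 1 (.s k5 k15 2 (.s k4 k7 0 (.s k12 k8 1 (.s k93 k174 12 (.s k89 k81 1 (.d k166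
  k247 k243 12 14)))))))) (.c k13 (.l (.s k9 k12 2 (.s k10 k14 1 (.s k15 k5 2 (.d k11 k8 k7 0 1)))))
  .n)))) (.c k237 (.q k222 [(.s k9 k12 2 (.s k10 k14 1 (.s k15 k5 2 (.d k11 k8 k7 0 1)))), (.s k12
  k9 2 (.s k93 k174 12 (.s k89 k81 1 (.s k166 k243 14 (.d k4 k8 k247 1 12))))), (.s k10 k14 1 (.s
  k15 k5 2 (.s k11 k7 1 (.s k175 k95 11 (.s k167 k163 1 (.d k91 k251 k243 11 13))))))] (.c k5 (.l
  (.s k9 k12 2 (.s k10 k14 1 (.s k11 k8 0 (.s k15 k7 1 (.s k175 k95 11 (.s k167 k163 1 (.d k91 k251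
  k243 11 13)))))))) (.c k9 (.l (.s k10 k14 1 (.s k5 k15 2 (.s k4 k7 0 (.s k12 k8 1 (.s k93 k174 12
  (.s k89 k81 1 (.d k166 k247 k243 12 14)))))))) (.c k13 (.l (.s k9 k12 2 (.s k10 k14 1 (.s k15 k5 2
  (.d k11 k8 k7 0 1))))) .n)))) .n)))))) (.c k189 (.q k126 [(.s k9 k12 2 (.s k10 k14 1 (.s k15 k5 2
  (.d k11 k8 k7 0 1)))), (.s k12 k9 2 (.s k93 k174 12 (.s k89 k81 1 (.s k166 k243 14 (.d k4 k8 k247
  1 12))))), (.s k10 k14 1 (.s k15 k5 2 (.s k11 k7 1 (.s k175 k95 11 (.s k167 k163 1 (.d k91 k251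
  k243 11 13))))))] (.c k5 (.l (.s k9 k12 2 (.s k10 k14 1 (.s k11 k8 0 (.s k15 k7 1 (.s k175 k95 11
  (.s k167 k163 1 (.d k91 k251 k243 11 13)))))))) (.c k9 (.l (.s k10 k14 1 (.s k5 k15 2 (.s k4 k7 0
  (.s k12 k8 1 (.s k93 k174 12 (.s k89 k81 1 (.d k166 k247 k243 12 14)))))))) (.c k13 (.l (.s k9 k12
  2 (.s k10 k14 1 (.s k15 k5 2 (.d k11 k8 k7 0 1))))) (.c k222 (.q k237 [(.s k9 k12 2 (.s k10 k14 1
  (.s k15 k5 2 (.d k11 k8 k7 0 1)))), (.s k12 k9 2 (.s k93 k174 12 (.s k89 k81 1 (.s k166 k243 14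
  (.d k4 k8 k247 1 12))))), (.s k10 k14 1 (.s k15 k5 2 (.s k11 k7 1 (.s k175 k95 11 (.s k167 k163 1
  (.d k91 k251 k243 11 13))))))] (.c k5 (.l (.s k9 k12 2 (.s k10 k14 1 (.s k11 k8 0 (.s k15 k7 1 (.s
  k175 k95 11 (.s k167 k163 1 (.d k91 k251 k243 11 13)))))))) (.c k9 (.l (.s k10 k14 1 (.s k5 k15 2
  (.s k4 k7 0 (.s k12 k8 1 (.s k93 k174 12 (.s k89 k81 1 (.d k166 k247 k243 12 14)))))))) (.c k13
  (.l (.s k9 k12 2 (.s k10 k14 1 (.s k15 k5 2 (.d k11 k8 k7 0 1))))) .n)))) (.c k237 (.q k222 [(.s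
  k9 k12 2 (.s k10 k14 1 (.s k15 k5 2 (.d k11 k8 k7 0 1)))), (.s k12 k9 2 (.s k93 k174 12 (.s k89
  k81 1 (.s k166 k243 14 (.d k4 k8 k247 1 12))))), (.s k10 k14 1 (.s k15 k5 2 (.s k11 k7 1 (.s k175
  k95 11 (.s k167 k163 1 (.d k91 k251 k243 11 13))))))] (.c k5 (.l (.s k9 k12 2 (.s k10 k14 1 (.s
  k11 k8 0 (.s k15 k7 1 (.s k175 k95 11 (.s k167 k163 1 (.d k91 k251 k243 11 13)))))))) (.c k9 (.l
  (.s k10 k14 1 (.s k5 k15 2 (.s k4 k7 0 (.s k12 k8 1 (.s k93 k174 12 (.s k89 k81 1 (.d k166 k247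
  k243 12 14)))))))) (.c k13 (.l (.s k9 k12 2 (.s k10 k14 1 (.s k15 k5 2 (.d k11 k8 k7 0 1)))))
  .n)))) .n)))))) (.c k222 (.q k237 [(.s k9 k12 2 (.s k10 k14 1 (.s k15 k5 2 (.d k11 k8 k7 0 1)))),
  (.s k12 k9 2 (.s k93 k174 12 (.s k89 k81 1 (.s k166 k243 14 (.d k4 k8 k247 1 12))))), (.s k10 k14
  1 (.s k15 k5 2 (.s k11 k7 1 (.s k175 k95 11 (.s k167 k163 1 (.d k91 k251 k243 11 13))))))] (.c k5
  (.l (.s k9 k12 2 (.s k10 k14 1 (.s k11 k8 0 (.s k15 k7 1 (.s k175 k95 11 (.s k167 k163 1 (.d k91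
  k251 k243 11 13)))))))) (.c k9 (.l (.s k10 k14 1 (.s k5 k15 2 (.s k4 k7 0 (.s k12 k8 1 (.s k93
  k174 12 (.s k89 k81 1 (.d k166 k247 k243 12 14)))))))) (.c k13 (.l (.s k9 k12 2 (.s k10 k14 1 (.s
  k15 k5 2 (.d k11 k8 k7 0 1))))) (.c k126 (.q k189 [(.s k9 k12 2 (.s k10 k14 1 (.s k15 k5 2 (.d k11
  k8 k7 0 1)))), (.s k12 k9 2 (.s k93 k174 12 (.s k89 k81 1 (.s k166 k243 14 (.d k4 k8 k247 1
  12))))), (.s k10 k14 1 (.s k15 k5 2 (.s k11 k7 1 (.s k175 k95 11 (.s k167 k163 1 (.d k91 k251 k243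
  11 13))))))] (.c k5 (.l (.s k9 k12 2 (.s k10 k14 1 (.s k11 k8 0 (.s k15 k7 1 (.s k175 k95 11 (.s
  k167 k163 1 (.d k91 k251 k243 11 13)))))))) (.c k9 (.l (.s k10 k14 1 (.s k5 k15 2 (.s k4 k7 0 (.s
  k12 k8 1 (.s k93 k174 12 (.s k89 k81 1 (.d k166 k247 k243 12 14)))))))) (.c k13 (.l (.s k9 k12 2
  (.s k10 k14 1 (.s k15 k5 2 (.d k11 k8 k7 0 1))))) .n)))) (.c k189 (.q k126 [(.s k9 k12 2 (.s k10
  k14 1 (.s k15 k5 2 (.d k11 k8 k7 0 1)))), (.s k12 k9 2 (.s k93 k174 12 (.s k89 k81 1 (.s k166 k243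
  14 (.d k4 k8 k247 1 12))))), (.s k10 k14 1 (.s k15 k5 2 (.s k11 k7 1 (.s k175 k95 11 (.s k167 k163
  1 (.d k91 k251 k243 11 13))))))] (.c k5 (.l (.s k9 k12 2 (.s k10 k14 1 (.s k11 k8 0 (.s k15 k7 1
  (.s k175 k95 11 (.s k167 k163 1 (.d k91 k251 k243 11 13)))))))) (.c k9 (.l (.s k10 k14 1 (.s k5
  k15 2 (.s k4 k7 0 (.s k12 k8 1 (.s k93 k174 12 (.s k89 k81 1 (.d k166 k247 k243 12 14)))))))) (.c
  k13 (.l (.s k9 k12 2 (.s k10 k14 1 (.s k15 k5 2 (.d k11 k8 k7 0 1))))) .n)))) .n)))))) (.c k237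
  (.q k222 [(.s k9 k12 2 (.s k10 k14 1 (.s k15 k5 2 (.d k11 k8 k7 0 1)))), (.s k12 k9 2 (.s k93 k174
  12 (.s k89 k81 1 (.s k166 k243 14 (.d k4 k8 k247 1 12))))), (.s k10 k14 1 (.s k15 k5 2 (.s k11 k7
  1 (.s k175 k95 11 (.s k167 k163 1 (.d k91 k251 k243 11 13))))))] (.c k5 (.l (.s k9 k12 2 (.s k10
  k14 1 (.s k11 k8 0 (.s k15 k7 1 (.s k175 k95 11 (.s k167 k163 1 (.d k91 k251 k243 11 13))))))))
  (.c k9 (.l (.s k10 k14 1 (.s k5 k15 2 (.s k4 k7 0 (.s k12 k8 1 (.s k93 k174 12 (.s k89 k81 1 (.d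
  k166 k247 k243 12 14)))))))) (.c k13 (.l (.s k9 k12 2 (.s k10 k14 1 (.s k15 k5 2 (.d k11 k8 k7 0
  1))))) (.c k126 (.q k189 [(.s k9 k12 2 (.s k10 k14 1 (.s k15 k5 2 (.d k11 k8 k7 0 1)))), (.s k12
  k9 2 (.s k93 k174 12 (.s k89 k81 1 (.s k166 k243 14 (.d k4 k8 k247 1 12))))), (.s k10 k14 1 (.s
  k15 k5 2 (.s k11 k7 1 (.s k175 k95 11 (.s k167 k163 1 (.d k91 k251 k243 11 13))))))] (.c k5 (.l
  (.s k9 k12 2 (.s k10 k14 1 (.s k11 k8 0 (.s k15 k7 1 (.s k175 k95 11 (.s k167 k163 1 (.d k91 k251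
  k243 11 13)))))))) (.c k9 (.l (.s k10 k14 1 (.s k5 k15 2 (.s k4 k7 0 (.s k12 k8 1 (.s k93 k174 12
  (.s k89 k81 1 (.d k166 k247 k243 12 14)))))))) (.c k13 (.l (.s k9 k12 2 (.s k10 k14 1 (.s k15 k5 2
  (.d k11 k8 k7 0 1))))) .n)))) (.c k189 (.q k126 [(.s k9 k12 2 (.s k10 k14 1 (.s k15 k5 2 (.d k11
  k8 k7 0 1)))), (.s k12 k9 2 (.s k93 k174 12 (.s k89 k81 1 (.s k166 k243 14 (.d k4 k8 k247 1
  12))))), (.s k10 k14 1 (.s k15 k5 2 (.s k11 k7 1 (.s k175 k95 11 (.s k167 k163 1 (.d k91 k251 k243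
  11 13))))))] (.c k5 (.l (.s k9 k12 2 (.s k10 k14 1 (.s k11 k8 0 (.s k15 k7 1 (.s k175 k95 11 (.s
  k167 k163 1 (.d k91 k251 k243 11 13)))))))) (.c k9 (.l (.s k10 k14 1 (.s k5 k15 2 (.s k4 k7 0 (.s
  k12 k8 1 (.s k93 k174 12 (.s k89 k81 1 (.d k166 k247 k243 12 14)))))))) (.c k13 (.l (.s k9 k12 2
  (.s k10 k14 1 (.s k15 k5 2 (.d k11 k8 k7 0 1))))) .n)))) .n)))))) .n)))))))) (.c k126 (.q k189
  [(.s k9 k12 2 (.s k10 k14 1 (.s k15 k5 2 (.d k11 k8 k7 0 1)))), (.s k12 k9 2 (.s k93 k174 12 (.s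
  k89 k81 1 (.s k166 k243 14 (.d k4 k8 k247 1 12))))), (.s k10 k14 1 (.s k15 k5 2 (.s k11 k7 1 (.s
  k175 k95 11 (.s k167 k163 1 (.d k91 k251 k243 11 13))))))] (.c k5 (.l (.s k9 k12 2 (.s k10 k14 1
  (.s k11 k8 0 (.s k15 k7 1 (.s k175 k95 11 (.s k167 k163 1 (.d k91 k251 k243 11 13)))))))) (.c k9
  (.l (.s k10 k14 1 (.s k5 k15 2 (.s k4 k7 0 (.s k12 k8 1 (.s k93 k174 12 (.s k89 k81 1 (.d k166
  k247 k243 12 14)))))))) (.c k13 (.l (.s k9 k12 2 (.s k10 k14 1 (.s k15 k5 2 (.d k11 k8 k7 0 1)))))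
  (.c k111 (.q k159 [(.s k9 k12 2 (.s k10 k14 1 (.s k15 k5 2 (.d k11 k8 k7 0 1)))), (.s k12 k9 2 (.s
  k93 k174 12 (.s k89 k81 1 (.s k166 k243 14 (.d k4 k8 k247 1 12))))), (.s k10 k14 1 (.s k15 k5 2
  (.s k11 k7 1 (.s k175 k95 11 (.s k167 k163 1 (.d k91 k251 k243 11 13))))))] (.c k5 (.l (.s k9 k12
  2 (.s k10 k14 1 (.s k11 k8 0 (.s k15 k7 1 (.s k175 k95 11 (.s k167 k163 1 (.d k91 k251 k243 11
  13)))))))) (.c k9 (.l (.s k10 k14 1 (.s k5 k15 2 (.s k4 k7 0 (.s k12 k8 1 (.s k93 k174 12 (.s k89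
  k81 1 (.d k166 k247 k243 12 14)))))))) (.c k13 (.l (.s k9 k12 2 (.s k10 k14 1 (.s k15 k5 2 (.d k11
  k8 k7 0 1))))) (.c k222 (.q k237 [(.s k9 k12 2 (.s k10 k14 1 (.s k15 k5 2 (.d k11 k8 k7 0 1)))),
  (.s k12 k9 2 (.s k93 k174 12 (.s k89 k81 1 (.s k166 k243 14 (.d k4 k8 k247 1 12))))), (.s k10 k14
  1 (.s k15 k5 2 (.s k11 k7 1 (.s k175 k95 11 (.s k167 k163 1 (.d k91 k251 k243 11 13))))))] (.c k5
  (.l (.s k9 k12 2 (.s k10 k14 1 (.s k11 k8 0 (.s k15 k7 1 (.s k175 k95 11 (.s k167 k163 1 (.d k91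
  k251 k243 11 13)))))))) (.c k9 (.l (.s k10 k14 1 (.s k5 k15 2 (.s k4 k7 0 (.s k12 k8 1 (.s k93
  k174 12 (.s k89 k81 1 (.d k166 k247 k243 12 14)))))))) (.c k13 (.l (.s k9 k12 2 (.s k10 k14 1 (.s
  k15 k5 2 (.d k11 k8 k7 0 1))))) .n)))) (.c k237 (.q k222 [(.s k9 k12 2 (.s k10 k14 1 (.s k15 k5 2
  (.d k11 k8 k7 0 1)))), (.s k12 k9 2 (.s k93 k174 12 (.s k89 k81 1 (.s k166 k243 14 (.d k4 k8 k247
  1 12))))), (.s k10 k14 1 (.s k15 k5 2 (.s k11 k7 1 (.s k175 k95 11 (.s k167 k163 1 (.d k91 k251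
  k243 11 13))))))] (.c k5 (.l (.s k9 k12 2 (.s k10 k14 1 (.s k11 k8 0 (.s k15 k7 1 (.s k175 k95 11
  (.s k167 k163 1 (.d k91 k251 k243 11 13)))))))) (.c k9 (.l (.s k10 k14 1 (.s k5 k15 2 (.s k4 k7 0
  (.s k12 k8 1 (.s k93 k174 12 (.s k89 k81 1 (.d k166 k247 k243 12 14)))))))) (.c k13 (.l (.s k9 k12
  2 (.s k10 k14 1 (.s k15 k5 2 (.d k11 k8 k7 0 1))))) .n)))) .n)))))) (.c k159 (.q k111 [(.s k9 k12
  2 (.s k10 k14 1 (.s k15 k5 2 (.d k11 k8 k7 0 1)))), (.s k12 k9 2 (.s k93 k174 12 (.s k89 k81 1 (.s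
  k166 k243 14 (.d k4 k8 k247 1 12))))), (.s k10 k14 1 (.s k15 k5 2 (.s k11 k7 1 (.s k175 k95 11 (.s
  k167 k163 1 (.d k91 k251 k243 11 13))))))] (.c k5 (.l (.s k9 k12 2 (.s k10 k14 1 (.s k11 k8 0 (.s
  k15 k7 1 (.s k175 k95 11 (.s k167 k163 1 (.d k91 k251 k243 11 13)))))))) (.c k9 (.l (.s k10 k14 1
  (.s k5 k15 2 (.s k4 k7 0 (.s k12 k8 1 (.s k93 k174 12 (.s k89 k81 1 (.d k166 k247 k243 12
  14)))))))) (.c k13 (.l (.s k9 k12 2 (.s k10 k14 1 (.s k15 k5 2 (.d k11 k8 k7 0 1))))) (.c k222 (.q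
  k237 [(.s k9 k12 2 (.s k10 k14 1 (.s k15 k5 2 (.d k11 k8 k7 0 1)))), (.s k12 k9 2 (.s k93 k174 12
  (.s k89 k81 1 (.s k166 k243 14 (.d k4 k8 k247 1 12))))), (.s k10 k14 1 (.s k15 k5 2 (.s k11 k7 1
  (.s k175 k95 11 (.s k167 k163 1 (.d k91 k251 k243 11 13))))))] (.c k5 (.l (.s k9 k12 2 (.s k10 k14
  1 (.s k11 k8 0 (.s k15 k7 1 (.s k175 k95 11 (.s k167 k163 1 (.d k91 k251 k243 11 13)))))))) (.c k9
  (.l (.s k10 k14 1 (.s k5 k15 2 (.s k4 k7 0 (.s k12 k8 1 (.s k93 k174 12 (.s k89 k81 1 (.d k166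
  k247 k243 12 14)))))))) (.c k13 (.l (.s k9 k12 2 (.s k10 k14 1 (.s k15 k5 2 (.d k11 k8 k7 0 1)))))
  .n)))) (.c k237 (.q k222 [(.s k9 k12 2 (.s k10 k14 1 (.s k15 k5 2 (.d k11 k8 k7 0 1)))), (.s k12
  k9 2 (.s k93 k174 12 (.s k89 k81 1 (.s k166 k243 14 (.d k4 k8 k247 1 12))))), (.s k10 k14 1 (.s
  k15 k5 2 (.s k11 k7 1 (.s k175 k95 11 (.s k167 k163 1 (.d k91 k251 k243 11 13))))))] (.c k5 (.l
  (.s k9 k12 2 (.s k10 k14 1 (.s k11 k8 0 (.s k15 k7 1 (.s k175 k95 11 (.s k167 k163 1 (.d k91 k251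
  k243 11 13)))))))) (.c k9 (.l (.s k10 k14 1 (.s k5 k15 2 (.s k4 k7 0 (.s k12 k8 1 (.s k93 k174 12
  (.s k89 k81 1 (.d k166 k247 k243 12 14)))))))) (.c k13 (.l (.s k9 k12 2 (.s k10 k14 1 (.s k15 k5 2
  (.d k11 k8 k7 0 1))))) .n)))) .n)))))) (.c k222 (.q k237 [(.s k9 k12 2 (.s k10 k14 1 (.s k15 k5 2
  (.d k11 k8 k7 0 1)))), (.s k12 k9 2 (.s k93 k174 12 (.s k89 k81 1 (.s k166 k243 14 (.d k4 k8 k247
  1 12))))), (.s k10 k14 1 (.s k15 k5 2 (.s k11 k7 1 (.s k175 k95 11 (.s k167 k163 1 (.d k91 k251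
  k243 11 13))))))] (.c k5 (.l (.s k9 k12 2 (.s k10 k14 1 (.s k11 k8 0 (.s k15 k7 1 (.s k175 k95 11
  (.s k167 k163 1 (.d k91 k251 k243 11 13)))))))) (.c k9 (.l (.s k10 k14 1 (.s k5 k15 2 (.s k4 k7 0
  (.s k12 k8 1 (.s k93 k174 12 (.s k89 k81 1 (.d k166 k247 k243 12 14)))))))) (.c k13 (.l (.s k9 k12
  2 (.s k10 k14 1 (.s k15 k5 2 (.d k11 k8 k7 0 1))))) (.c k111 (.q k159 [(.s k9 k12 2 (.s k10 k14 1
  (.s k15 k5 2 (.d k11 k8 k7 0 1)))), (.s k12 k9 2 (.s k93 k174 12 (.s k89 k81 1 (.s k166 k243 14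
  (.d k4 k8 k247 1 12))))), (.s k10 k14 1 (.s k15 k5 2 (.s k11 k7 1 (.s k175 k95 11 (.s k167 k163 1
  (.d k91 k251 k243 11 13))))))] (.c k5 (.l (.s k9 k12 2 (.s k10 k14 1 (.s k11 k8 0 (.s k15 k7 1 (.s
  k175 k95 11 (.s k167 k163 1 (.d k91 k251 k243 11 13)))))))) (.c k9 (.l (.s k10 k14 1 (.s k5 k15 2
  (.s k4 k7 0 (.s k12 k8 1 (.s k93 k174 12 (.s k89 k81 1 (.d k166 k247 k243 12 14)))))))) (.c k13
  (.l (.s k9 k12 2 (.s k10 k14 1 (.s k15 k5 2 (.d k11 k8 k7 0 1))))) .n)))) (.c k159 (.q k111 [(.s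
  k9 k12 2 (.s k10 k14 1 (.s k15 k5 2 (.d k11 k8 k7 0 1)))), (.s k12 k9 2 (.s k93 k174 12 (.s k89
  k81 1 (.s k166 k243 14 (.d k4 k8 k247 1 12))))), (.s k10 k14 1 (.s k15 k5 2 (.s k11 k7 1 (.s k175
  k95 11 (.s k167 k163 1 (.d k91 k251 k243 11 13))))))] (.c k5 (.l (.s k9 k12 2 (.s k10 k14 1 (.s
  k11 k8 0 (.s k15 k7 1 (.s k175 k95 11 (.s k167 k163 1 (.d k91 k251 k243 11 13)))))))) (.c k9 (.l
  (.s k10 k14 1 (.s k5 k15 2 (.s k4 k7 0 (.s k12 k8 1 (.s k93 k174 12 (.s k89 k81 1 (.d k166 k247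
  k243 12 14)))))))) (.c k13 (.l (.s k9 k12 2 (.s k10 k14 1 (.s k15 k5 2 (.d k11 k8 k7 0 1)))))
  .n)))) .n)))))) (.c k237 (.q k222 [(.s k9 k12 2 (.s k10 k14 1 (.s k15 k5 2 (.d k11 k8 k7 0 1)))),
  (.s k12 k9 2 (.s k93 k174 12 (.s k89 k81 1 (.s k166 k243 14 (.d k4 k8 k247 1 12))))), (.s k10 k14
  1 (.s k15 k5 2 (.s k11 k7 1 (.s k175 k95 11 (.s k167 k163 1 (.d k91 k251 k243 11 13))))))] (.c k5
  (.l (.s k9 k12 2 (.s k10 k14 1 (.s k11 k8 0 (.s k15 k7 1 (.s k175 k95 11 (.s k167 k163 1 (.d k91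
  k251 k243 11 13)))))))) (.c k9 (.l (.s k10 k14 1 (.s k5 k15 2 (.s k4 k7 0 (.s k12 k8 1 (.s k93
  k174 12 (.s k89 k81 1 (.d k166 k247 k243 12 14)))))))) (.c k13 (.l (.s k9 k12 2 (.s k10 k14 1 (.s
  k15 k5 2 (.d k11 k8 k7 0 1))))) (.c k111 (.q k159 [(.s k9 k12 2 (.s k10 k14 1 (.s k15 k5 2 (.d k11
  k8 k7 0 1)))), (.s k12 k9 2 (.s k93 k174 12 (.s k89 k81 1 (.s k166 k243 14 (.d k4 k8 k247 1
  12))))), (.s k10 k14 1 (.s k15 k5 2 (.s k11 k7 1 (.s k175 k95 11 (.s k167 k163 1 (.d k91 k251 k243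
  11 13))))))] (.c k5 (.l (.s k9 k12 2 (.s k10 k14 1 (.s k11 k8 0 (.s k15 k7 1 (.s k175 k95 11 (.s
  k167 k163 1 (.d k91 k251 k243 11 13)))))))) (.c k9 (.l (.s k10 k14 1 (.s k5 k15 2 (.s k4 k7 0 (.s
  k12 k8 1 (.s k93 k174 12 (.s k89 k81 1 (.d k166 k247 k243 12 14)))))))) (.c k13 (.l (.s k9 k12 2
  (.s k10 k14 1 (.s k15 k5 2 (.d k11 k8 k7 0 1))))) .n)))) (.c k159 (.q k111 [(.s k9 k12 2 (.s k10
  k14 1 (.s k15 k5 2 (.d k11 k8 k7 0 1)))), (.s k12 k9 2 (.s k93 k174 12 (.s k89 k81 1 (.s k166 k243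
  14 (.d k4 k8 k247 1 12))))), (.s k10 k14 1 (.s k15 k5 2 (.s k11 k7 1 (.s k175 k95 11 (.s k167 k163
  1 (.d k91 k251 k243 11 13))))))] (.c k5 (.l (.s k9 k12 2 (.s k10 k14 1 (.s k11 k8 0 (.s k15 k7 1
  (.s k175 k95 11 (.s k167 k163 1 (.d k91 k251 k243 11 13)))))))) (.c k9 (.l (.s k10 k14 1 (.s k5
  k15 2 (.s k4 k7 0 (.s k12 k8 1 (.s k93 k174 12 (.s k89 k81 1 (.d k166 k247 k243 12 14)))))))) (.c
  k13 (.l (.s k9 k12 2 (.s k10 k14 1 (.s k15 k5 2 (.d k11 k8 k7 0 1))))) .n)))) .n)))))) .n))))))))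
  (.c k159 (.q k111 [(.s k9 k12 2 (.s k10 k14 1 (.s k15 k5 2 (.d k11 k8 k7 0 1)))), (.s k12 k9 2 (.s
  k93 k174 12 (.s k89 k81 1 (.s k166 k243 14 (.d k4 k8 k247 1 12))))), (.s k10 k14 1 (.s k15 k5 2
  (.s k11 k7 1 (.s k175 k95 11 (.s k167 k163 1 (.d k91 k251 k243 11 13))))))] (.c k5 (.l (.s k9 k12
  2 (.s k10 k14 1 (.s k11 k8 0 (.s k15 k7 1 (.s k175 k95 11 (.s k167 k163 1 (.d k91 k251 k243 11
  13)))))))) (.c k9 (.l (.s k10 k14 1 (.s k5 k15 2 (.s k4 k7 0 (.s k12 k8 1 (.s k93 k174 12 (.s k89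
  k81 1 (.d k166 k247 k243 12 14)))))))) (.c k13 (.l (.s k9 k12 2 (.s k10 k14 1 (.s k15 k5 2 (.d k11
  k8 k7 0 1))))) (.c k126 (.q k189 [(.s k9 k12 2 (.s k10 k14 1 (.s k15 k5 2 (.d k11 k8 k7 0 1)))),
  (.s k12 k9 2 (.s k93 k174 12 (.s k89 k81 1 (.s k166 k243 14 (.d k4 k8 k247 1 12))))), (.s k10 k14
  1 (.s k15 k5 2 (.s k11 k7 1 (.s k175 k95 11 (.s k167 k163 1 (.d k91 k251 k243 11 13))))))] (.c k5
  (.l (.s k9 k12 2 (.s k10 k14 1 (.s k11 k8 0 (.s k15 k7 1 (.s k175 k95 11 (.s k167 k163 1 (.d k91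
  k251 k243 11 13)))))))) (.c k9 (.l (.s k10 k14 1 (.s k5 k15 2 (.s k4 k7 0 (.s k12 k8 1 (.s k93
  k174 12 (.s k89 k81 1 (.d k166 k247 k243 12 14)))))))) (.c k13 (.l (.s k9 k12 2 (.s k10 k14 1 (.s
  k15 k5 2 (.d k11 k8 k7 0 1))))) (.c k222 (.q k237 [(.s k9 k12 2 (.s k10 k14 1 (.s k15 k5 2 (.d k11
  k8 k7 0 1)))), (.s k12 k9 2 (.s k93 k174 12 (.s k89 k81 1 (.s k166 k243 14 (.d k4 k8 k247 1
  12))))), (.s k10 k14 1 (.s k15 k5 2 (.s k11 k7 1 (.s k175 k95 11 (.s k167 k163 1 (.d k91 k251 k243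
  11 13))))))] (.c k5 (.l (.s k9 k12 2 (.s k10 k14 1 (.s k11 k8 0 (.s k15 k7 1 (.s k175 k95 11 (.s
  k167 k163 1 (.d k91 k251 k243 11 13)))))))) (.c k9 (.l (.s k10 k14 1 (.s k5 k15 2 (.s k4 k7 0 (.s
  k12 k8 1 (.s k93 k174 12 (.s k89 k81 1 (.d k166 k247 k243 12 14)))))))) (.c k13 (.l (.s k9 k12 2
  (.s k10 k14 1 (.s k15 k5 2 (.d k11 k8 k7 0 1))))) .n)))) (.c k237 (.q k222 [(.s k9 k12 2 (.s k10
  k14 1 (.s k15 k5 2 (.d k11 k8 k7 0 1)))), (.s k12 k9 2 (.s k93 k174 12 (.s k89 k81 1 (.s k166 k243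
  14 (.d k4 k8 k247 1 12))))), (.s k10 k14 1 (.s k15 k5 2 (.s k11 k7 1 (.s k175 k95 11 (.s k167 k163
  1 (.d k91 k251 k243 11 13))))))] (.c k5 (.l (.s k9 k12 2 (.s k10 k14 1 (.s k11 k8 0 (.s k15 k7 1
  (.s k175 k95 11 (.s k167 k163 1 (.d k91 k251 k243 11 13)))))))) (.c k9 (.l (.s k10 k14 1 (.s k5
  k15 2 (.s k4 k7 0 (.s k12 k8 1 (.s k93 k174 12 (.s k89 k81 1 (.d k166 k247 k243 12 14)))))))) (.c
  k13 (.l (.s k9 k12 2 (.s k10 k14 1 (.s k15 k5 2 (.d k11 k8 k7 0 1))))) .n)))) .n)))))) (.c k189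
  (.q k126 [(.s k9 k12 2 (.s k10 k14 1 (.s k15 k5 2 (.d k11 k8 k7 0 1)))), (.s k12 k9 2 (.s k93 k174
  12 (.s k89 k81 1 (.s k166 k243 14 (.d k4 k8 k247 1 12))))), (.s k10 k14 1 (.s k15 k5 2 (.s k11 k7
  1 (.s k175 k95 11 (.s k167 k163 1 (.d k91 k251 k243 11 13))))))] (.c k5 (.l (.s k9 k12 2 (.s k10
  k14 1 (.s k11 k8 0 (.s k15 k7 1 (.s k175 k95 11 (.s k167 k163 1 (.d k91 k251 k243 11 13))))))))
  (.c k9 (.l (.s k10 k14 1 (.s k5 k15 2 (.s k4 k7 0 (.s k12 k8 1 (.s k93 k174 12 (.s k89 k81 1 (.d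
  k166 k247 k243 12 14)))))))) (.c k13 (.l (.s k9 k12 2 (.s k10 k14 1 (.s k15 k5 2 (.d k11 k8 k7 0
  1))))) (.c k222 (.q k237 [(.s k9 k12 2 (.s k10 k14 1 (.s k15 k5 2 (.d k11 k8 k7 0 1)))), (.s k12
  k9 2 (.s k93 k174 12 (.s k89 k81 1 (.s k166 k243 14 (.d k4 k8 k247 1 12))))), (.s k10 k14 1 (.s
  k15 k5 2 (.s k11 k7 1 (.s k175 k95 11 (.s k167 k163 1 (.d k91 k251 k243 11 13))))))] (.c k5 (.l
  (.s k9 k12 2 (.s k10 k14 1 (.s k11 k8 0 (.s k15 k7 1 (.s k175 k95 11 (.s k167 k163 1 (.d k91 k251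
  k243 11 13)))))))) (.c k9 (.l (.s k10 k14 1 (.s k5 k15 2 (.s k4 k7 0 (.s k12 k8 1 (.s k93 k174 12
  (.s k89 k81 1 (.d k166 k247 k243 12 14)))))))) (.c k13 (.l (.s k9 k12 2 (.s k10 k14 1 (.s k15 k5 2
  (.d k11 k8 k7 0 1))))) .n)))) (.c k237 (.q k222 [(.s k9 k12 2 (.s k10 k14 1 (.s k15 k5 2 (.d k11
  k8 k7 0 1)))), (.s k12 k9 2 (.s k93 k174 12 (.s k89 k81 1 (.s k166 k243 14 (.d k4 k8 k247 1
  12))))), (.s k10 k14 1 (.s k15 k5 2 (.s k11 k7 1 (.s k175 k95 11 (.s k167 k163 1 (.d k91 k251 k243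
  11 13))))))] (.c k5 (.l (.s k9 k12 2 (.s k10 k14 1 (.s k11 k8 0 (.s k15 k7 1 (.s k175 k95 11 (.s
  k167 k163 1 (.d k91 k251 k243 11 13)))))))) (.c k9 (.l (.s k10 k14 1 (.s k5 k15 2 (.s k4 k7 0 (.s
  k12 k8 1 (.s k93 k174 12 (.s k89 k81 1 (.d k166 k247 k243 12 14)))))))) (.c k13 (.l (.s k9 k12 2
  (.s k10 k14 1 (.s k15 k5 2 (.d k11 k8 k7 0 1))))) .n)))) .n)))))) (.c k222 (.q k237 [(.s k9 k12 2
  (.s k10 k14 1 (.s k15 k5 2 (.d k11 k8 k7 0 1)))), (.s k12 k9 2 (.s k93 k174 12 (.s k89 k81 1 (.s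
  k166 k243 14 (.d k4 k8 k247 1 12))))), (.s k10 k14 1 (.s k15 k5 2 (.s k11 k7 1 (.s k175 k95 11 (.s
  k167 k163 1 (.d k91 k251 k243 11 13))))))] (.c k5 (.l (.s k9 k12 2 (.s k10 k14 1 (.s k11 k8 0 (.s
  k15 k7 1 (.s k175 k95 11 (.s k167 k163 1 (.d k91 k251 k243 11 13)))))))) (.c k9 (.l (.s k10 k14 1
  (.s k5 k15 2 (.s k4 k7 0 (.s k12 k8 1 (.s k93 k174 12 (.s k89 k81 1 (.d k166 k247 k243 12
  14)))))))) (.c k13 (.l (.s k9 k12 2 (.s k10 k14 1 (.s k15 k5 2 (.d k11 k8 k7 0 1))))) (.c k126 (.q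
  k189 [(.s k9 k12 2 (.s k10 k14 1 (.s k15 k5 2 (.d k11 k8 k7 0 1)))), (.s k12 k9 2 (.s k93 k174 12
  (.s k89 k81 1 (.s k166 k243 14 (.d k4 k8 k247 1 12))))), (.s k10 k14 1 (.s k15 k5 2 (.s k11 k7 1
  (.s k175 k95 11 (.s k167 k163 1 (.d k91 k251 k243 11 13))))))] (.c k5 (.l (.s k9 k12 2 (.s k10 k14
  1 (.s k11 k8 0 (.s k15 k7 1 (.s k175 k95 11 (.s k167 k163 1 (.d k91 k251 k243 11 13)))))))) (.c k9
  (.l (.s k10 k14 1 (.s k5 k15 2 (.s k4 k7 0 (.s k12 k8 1 (.s k93 k174 12 (.s k89 k81 1 (.d k166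
  k247 k243 12 14)))))))) (.c k13 (.l (.s k9 k12 2 (.s k10 k14 1 (.s k15 k5 2 (.d k11 k8 k7 0 1)))))
  .n)))) (.c k189 (.q k126 [(.s k9 k12 2 (.s k10 k14 1 (.s k15 k5 2 (.d k11 k8 k7 0 1)))), (.s k12
  k9 2 (.s k93 k174 12 (.s k89 k81 1 (.s k166 k243 14 (.d k4 k8 k247 1 12))))), (.s k10 k14 1 (.s
  k15 k5 2 (.s k11 k7 1 (.s k175 k95 11 (.s k167 k163 1 (.d k91 k251 k243 11 13))))))] (.c k5 (.l
  (.s k9 k12 2 (.s k10 k14 1 (.s k11 k8 0 (.s k15 k7 1 (.s k175 k95 11 (.s k167 k163 1 (.d k91 k251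
  k243 11 13)))))))) (.c k9 (.l (.s k10 k14 1 (.s k5 k15 2 (.s k4 k7 0 (.s k12 k8 1 (.s k93 k174 12
  (.s k89 k81 1 (.d k166 k247 k243 12 14)))))))) (.c k13 (.l (.s k9 k12 2 (.s k10 k14 1 (.s k15 k5 2
  (.d k11 k8 k7 0 1))))) .n)))) .n)))))) (.c k237 (.q k222 [(.s k9 k12 2 (.s k10 k14 1 (.s k15 k5 2
  (.d k11 k8 k7 0 1)))), (.s k12 k9 2 (.s k93 k174 12 (.s k89 k81 1 (.s k166 k243 14 (.d k4 k8 k247
  1 12))))), (.s k10 k14 1 (.s k15 k5 2 (.s k11 k7 1 (.s k175 k95 11 (.s k167 k163 1 (.d k91 k251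
  k243 11 13))))))] (.c k5 (.l (.s k9 k12 2 (.s k10 k14 1 (.s k11 k8 0 (.s k15 k7 1 (.s k175 k95 11
  (.s k167 k163 1 (.d k91 k251 k243 11 13)))))))) (.c k9 (.l (.s k10 k14 1 (.s k5 k15 2 (.s k4 k7 0
  (.s k12 k8 1 (.s k93 k174 12 (.s k89 k81 1 (.d k166 k247 k243 12 14)))))))) (.c k13 (.l (.s k9 k12
  2 (.s k10 k14 1 (.s k15 k5 2 (.d k11 k8 k7 0 1))))) (.c k126 (.q k189 [(.s k9 k12 2 (.s k10 k14 1
  (.s k15 k5 2 (.d k11 k8 k7 0 1)))), (.s k12 k9 2 (.s k93 k174 12 (.s k89 k81 1 (.s k166 k243 14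
  (.d k4 k8 k247 1 12))))), (.s k10 k14 1 (.s k15 k5 2 (.s k11 k7 1 (.s k175 k95 11 (.s k167 k163 1
  (.d k91 k251 k243 11 13))))))] (.c k5 (.l (.s k9 k12 2 (.s k10 k14 1 (.s k11 k8 0 (.s k15 k7 1 (.s
  k175 k95 11 (.s k167 k163 1 (.d k91 k251 k243 11 13)))))))) (.c k9 (.l (.s k10 k14 1 (.s k5 k15 2
  (.s k4 k7 0 (.s k12 k8 1 (.s k93 k174 12 (.s k89 k81 1 (.d k166 k247 k243 12 14)))))))) (.c k13
  (.l (.s k9 k12 2 (.s k10 k14 1 (.s k15 k5 2 (.d k11 k8 k7 0 1))))) .n)))) (.c k189 (.q k126 [(.s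
  k9 k12 2 (.s k10 k14 1 (.s k15 k5 2 (.d k11 k8 k7 0 1)))), (.s k12 k9 2 (.s k93 k174 12 (.s k89
  k81 1 (.s k166 k243 14 (.d k4 k8 k247 1 12))))), (.s k10 k14 1 (.s k15 k5 2 (.s k11 k7 1 (.s k175
  k95 11 (.s k167 k163 1 (.d k91 k251 k243 11 13))))))] (.c k5 (.l (.s k9 k12 2 (.s k10 k14 1 (.s
  k11 k8 0 (.s k15 k7 1 (.s k175 k95 11 (.s k167 k163 1 (.d k91 k251 k243 11 13)))))))) (.c k9 (.l
  (.s k10 k14 1 (.s k5 k15 2 (.s k4 k7 0 (.s k12 k8 1 (.s k93 k174 12 (.s k89 k81 1 (.d k166 k247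
  k243 12 14)))))))) (.c k13 (.l (.s k9 k12 2 (.s k10 k14 1 (.s k15 k5 2 (.d k11 k8 k7 0 1)))))
  .n)))) .n)))))) .n)))))))) (.c k189 (.q k126 [(.s k9 k12 2 (.s k10 k14 1 (.s k15 k5 2 (.d k11 k8
  k7 0 1)))), (.s k12 k9 2 (.s k93 k174 12 (.s k89 k81 1 (.s k166 k243 14 (.d k4 k8 k247 1 12))))),
  (.s k10 k14 1 (.s k15 k5 2 (.s k11 k7 1 (.s k175 k95 11 (.s k167 k163 1 (.d k91 k251 k243 11
  13))))))] (.c k5 (.l (.s k9 k12 2 (.s k10 k14 1 (.s k11 k8 0 (.s k15 k7 1 (.s k175 k95 11 (.s k167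
  k163 1 (.d k91 k251 k243 11 13)))))))) (.c k9 (.l (.s k10 k14 1 (.s k5 k15 2 (.s k4 k7 0 (.s k12
  k8 1 (.s k93 k174 12 (.s k89 k81 1 (.d k166 k247 k243 12 14)))))))) (.c k13 (.l (.s k9 k12 2 (.s
  k10 k14 1 (.s k15 k5 2 (.d k11 k8 k7 0 1))))) (.c k111 (.q k159 [(.s k9 k12 2 (.s k10 k14 1 (.s
  k15 k5 2 (.d k11 k8 k7 0 1)))), (.s k12 k9 2 (.s k93 k174 12 (.s k89 k81 1 (.s k166 k243 14 (.d k4
  k8 k247 1 12))))), (.s k10 k14 1 (.s k15 k5 2 (.s k11 k7 1 (.s k175 k95 11 (.s k167 k163 1 (.d k91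
  k251 k243 11 13))))))] (.c k5 (.l (.s k9 k12 2 (.s k10 k14 1 (.s k11 k8 0 (.s k15 k7 1 (.s k175
  k95 11 (.s k167 k163 1 (.d k91 k251 k243 11 13)))))))) (.c k9 (.l (.s k10 k14 1 (.s k5 k15 2 (.s
  k4 k7 0 (.s k12 k8 1 (.s k93 k174 12 (.s k89 k81 1 (.d k166 k247 k243 12 14)))))))) (.c k13 (.l
  (.s k9 k12 2 (.s k10 k14 1 (.s k15 k5 2 (.d k11 k8 k7 0 1))))) (.c k222 (.q k237 [(.s k9 k12 2 (.s
  k10 k14 1 (.s k15 k5 2 (.d k11 k8 k7 0 1)))), (.s k12 k9 2 (.s k93 k174 12 (.s k89 k81 1 (.s k166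
  k243 14 (.d k4 k8 k247 1 12))))), (.s k10 k14 1 (.s k15 k5 2 (.s k11 k7 1 (.s k175 k95 11 (.s k167
  k163 1 (.d k91 k251 k243 11 13))))))] (.c k5 (.l (.s k9 k12 2 (.s k10 k14 1 (.s k11 k8 0 (.s k15
  k7 1 (.s k175 k95 11 (.s k167 k163 1 (.d k91 k251 k243 11 13)))))))) (.c k9 (.l (.s k10 k14 1 (.s
  k5 k15 2 (.s k4 k7 0 (.s k12 k8 1 (.s k93 k174 12 (.s k89 k81 1 (.d k166 k247 k243 12 14))))))))
  (.c k13 (.l (.s k9 k12 2 (.s k10 k14 1 (.s k15 k5 2 (.d k11 k8 k7 0 1))))) .n)))) (.c k237 (.q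
  k222 [(.s k9 k12 2 (.s k10 k14 1 (.s k15 k5 2 (.d k11 k8 k7 0 1)))), (.s k12 k9 2 (.s k93 k174 12
  (.s k89 k81 1 (.s k166 k243 14 (.d k4 k8 k247 1 12))))), (.s k10 k14 1 (.s k15 k5 2 (.s k11 k7 1
  (.s k175 k95 11 (.s k167 k163 1 (.d k91 k251 k243 11 13))))))] (.c k5 (.l (.s k9 k12 2 (.s k10 k14
  1 (.s k11 k8 0 (.s k15 k7 1 (.s k175 k95 11 (.s k167 k163 1 (.d k91 k251 k243 11 13)))))))) (.c k9
  (.l (.s k10 k14 1 (.s k5 k15 2 (.s k4 k7 0 (.s k12 k8 1 (.s k93 k174 12 (.s k89 k81 1 (.d k166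
  k247 k243 12 14)))))))) (.c k13 (.l (.s k9 k12 2 (.s k10 k14 1 (.s k15 k5 2 (.d k11 k8 k7 0 1)))))
  .n)))) .n)))))) (.c k159 (.q k111 [(.s k9 k12 2 (.s k10 k14 1 (.s k15 k5 2 (.d k11 k8 k7 0 1)))),
  (.s k12 k9 2 (.s k93 k174 12 (.s k89 k81 1 (.s k166 k243 14 (.d k4 k8 k247 1 12))))), (.s k10 k14
  1 (.s k15 k5 2 (.s k11 k7 1 (.s k175 k95 11 (.s k167 k163 1 (.d k91 k251 k243 11 13))))))] (.c k5
  (.l (.s k9 k12 2 (.s k10 k14 1 (.s k11 k8 0 (.s k15 k7 1 (.s k175 k95 11 (.s k167 k163 1 (.d k91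
  k251 k243 11 13)))))))) (.c k9 (.l (.s k10 k14 1 (.s k5 k15 2 (.s k4 k7 0 (.s k12 k8 1 (.s k93
  k174 12 (.s k89 k81 1 (.d k166 k247 k243 12 14)))))))) (.c k13 (.l (.s k9 k12 2 (.s k10 k14 1 (.s
  k15 k5 2 (.d k11 k8 k7 0 1))))) (.c k222 (.q k237 [(.s k9 k12 2 (.s k10 k14 1 (.s k15 k5 2 (.d k11
  k8 k7 0 1)))), (.s k12 k9 2 (.s k93 k174 12 (.s k89 k81 1 (.s k166 k243 14 (.d k4 k8 k247 1
  12))))), (.s k10 k14 1 (.s k15 k5 2 (.s k11 k7 1 (.s k175 k95 11 (.s k167 k163 1 (.d k91 k251 k243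
  11 13))))))] (.c k5 (.l (.s k9 k12 2 (.s k10 k14 1 (.s k11 k8 0 (.s k15 k7 1 (.s k175 k95 11 (.s
  k167 k163 1 (.d k91 k251 k243 11 13)))))))) (.c k9 (.l (.s k10 k14 1 (.s k5 k15 2 (.s k4 k7 0 (.s
  k12 k8 1 (.s k93 k174 12 (.s k89 k81 1 (.d k166 k247 k243 12 14)))))))) (.c k13 (.l (.s k9 k12 2
  (.s k10 k14 1 (.s k15 k5 2 (.d k11 k8 k7 0 1))))) .n)))) (.c k237 (.q k222 [(.s k9 k12 2 (.s k10
  k14 1 (.s k15 k5 2 (.d k11 k8 k7 0 1)))), (.s k12 k9 2 (.s k93 k174 12 (.s k89 k81 1 (.s k166 k243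
  14 (.d k4 k8 k247 1 12))))), (.s k10 k14 1 (.s k15 k5 2 (.s k11 k7 1 (.s k175 k95 11 (.s k167 k163
  1 (.d k91 k251 k243 11 13))))))] (.c k5 (.l (.s k9 k12 2 (.s k10 k14 1 (.s k11 k8 0 (.s k15 k7 1
  (.s k175 k95 11 (.s k167 k163 1 (.d k91 k251 k243 11 13)))))))) (.c k9 (.l (.s k10 k14 1 (.s k5
  k15 2 (.s k4 k7 0 (.s k12 k8 1 (.s k93 k174 12 (.s k89 k81 1 (.d k166 k247 k243 12 14)))))))) (.c
  k13 (.l (.s k9 k12 2 (.s k10 k14 1 (.s k15 k5 2 (.d k11 k8 k7 0 1))))) .n)))) .n)))))) (.c k222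
  (.q k237 [(.s k9 k12 2 (.s k10 k14 1 (.s k15 k5 2 (.d k11 k8 k7 0 1)))), (.s k12 k9 2 (.s k93 k174
  12 (.s k89 k81 1 (.s k166 k243 14 (.d k4 k8 k247 1 12))))), (.s k10 k14 1 (.s k15 k5 2 (.s k11 k7
  1 (.s k175 k95 11 (.s k167 k163 1 (.d k91 k251 k243 11 13))))))] (.c k5 (.l (.s k9 k12 2 (.s k10
  k14 1 (.s k11 k8 0 (.s k15 k7 1 (.s k175 k95 11 (.s k167 k163 1 (.d k91 k251 k243 11 13))))))))
  (.c k9 (.l (.s k10 k14 1 (.s k5 k15 2 (.s k4 k7 0 (.s k12 k8 1 (.s k93 k174 12 (.s k89 k81 1 (.d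
  k166 k247 k243 12 14)))))))) (.c k13 (.l (.s k9 k12 2 (.s k10 k14 1 (.s k15 k5 2 (.d k11 k8 k7 0
  1))))) (.c k111 (.q k159 [(.s k9 k12 2 (.s k10 k14 1 (.s k15 k5 2 (.d k11 k8 k7 0 1)))), (.s k12
  k9 2 (.s k93 k174 12 (.s k89 k81 1 (.s k166 k243 14 (.d k4 k8 k247 1 12))))), (.s k10 k14 1 (.s
  k15 k5 2 (.s k11 k7 1 (.s k175 k95 11 (.s k167 k163 1 (.d k91 k251 k243 11 13))))))] (.c k5 (.l
  (.s k9 k12 2 (.s k10 k14 1 (.s k11 k8 0 (.s k15 k7 1 (.s k175 k95 11 (.s k167 k163 1 (.d k91 k251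
  k243 11 13)))))))) (.c k9 (.l (.s k10 k14 1 (.s k5 k15 2 (.s k4 k7 0 (.s k12 k8 1 (.s k93 k174 12
  (.s k89 k81 1 (.d k166 k247 k243 12 14)))))))) (.c k13 (.l (.s k9 k12 2 (.s k10 k14 1 (.s k15 k5 2
  (.d k11 k8 k7 0 1))))) .n)))) (.c k159 (.q k111 [(.s k9 k12 2 (.s k10 k14 1 (.s k15 k5 2 (.d k11
  k8 k7 0 1)))), (.s k12 k9 2 (.s k93 k174 12 (.s k89 k81 1 (.s k166 k243 14 (.d k4 k8 k247 1
  12))))), (.s k10 k14 1 (.s k15 k5 2 (.s k11 k7 1 (.s k175 k95 11 (.s k167 k163 1 (.d k91 k251 k243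
  11 13))))))] (.c k5 (.l (.s k9 k12 2 (.s k10 k14 1 (.s k11 k8 0 (.s k15 k7 1 (.s k175 k95 11 (.s
  k167 k163 1 (.d k91 k251 k243 11 13)))))))) (.c k9 (.l (.s k10 k14 1 (.s k5 k15 2 (.s k4 k7 0 (.s
  k12 k8 1 (.s k93 k174 12 (.s k89 k81 1 (.d k166 k247 k243 12 14)))))))) (.c k13 (.l (.s k9 k12 2
  (.s k10 k14 1 (.s k15 k5 2 (.d k11 k8 k7 0 1))))) .n)))) .n)))))) (.c k237 (.q k222 [(.s k9 k12 2
  (.s k10 k14 1 (.s k15 k5 2 (.d k11 k8 k7 0 1)))), (.s k12 k9 2 (.s k93 k174 12 (.s k89 k81 1 (.s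
  k166 k243 14 (.d k4 k8 k247 1 12))))), (.s k10 k14 1 (.s k15 k5 2 (.s k11 k7 1 (.s k175 k95 11 (.s
  k167 k163 1 (.d k91 k251 k243 11 13))))))] (.c k5 (.l (.s k9 k12 2 (.s k10 k14 1 (.s k11 k8 0 (.s
  k15 k7 1 (.s k175 k95 11 (.s k167 k163 1 (.d k91 k251 k243 11 13)))))))) (.c k9 (.l (.s k10 k14 1
  (.s k5 k15 2 (.s k4 k7 0 (.s k12 k8 1 (.s k93 k174 12 (.s k89 k81 1 (.d k166 k247 k243 12
  14)))))))) (.c k13 (.l (.s k9 k12 2 (.s k10 k14 1 (.s k15 k5 2 (.d k11 k8 k7 0 1))))) (.c k111 (.q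
  k159 [(.s k9 k12 2 (.s k10 k14 1 (.s k15 k5 2 (.d k11 k8 k7 0 1)))), (.s k12 k9 2 (.s k93 k174 12
  (.s k89 k81 1 (.s k166 k243 14 (.d k4 k8 k247 1 12))))), (.s k10 k14 1 (.s k15 k5 2 (.s k11 k7 1
  (.s k175 k95 11 (.s k167 k163 1 (.d k91 k251 k243 11 13))))))] (.c k5 (.l (.s k9 k12 2 (.s k10 k14
  1 (.s k11 k8 0 (.s k15 k7 1 (.s k175 k95 11 (.s k167 k163 1 (.d k91 k251 k243 11 13)))))))) (.c k9
  (.l (.s k10 k14 1 (.s k5 k15 2 (.s k4 k7 0 (.s k12 k8 1 (.s k93 k174 12 (.s k89 k81 1 (.d k166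
  k247 k243 12 14)))))))) (.c k13 (.l (.s k9 k12 2 (.s k10 k14 1 (.s k15 k5 2 (.d k11 k8 k7 0 1)))))
  .n)))) (.c k159 (.q k111 [(.s k9 k12 2 (.s k10 k14 1 (.s k15 k5 2 (.d k11 k8 k7 0 1)))), (.s k12
  k9 2 (.s k93 k174 12 (.s k89 k81 1 (.s k166 k243 14 (.d k4 k8 k247 1 12))))), (.s k10 k14 1 (.s
  k15 k5 2 (.s k11 k7 1 (.s k175 k95 11 (.s k167 k163 1 (.d k91 k251 k243 11 13))))))] (.c k5 (.l
  (.s k9 k12 2 (.s k10 k14 1 (.s k11 k8 0 (.s k15 k7 1 (.s k175 k95 11 (.s k167 k163 1 (.d k91 k251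
  k243 11 13)))))))) (.c k9 (.l (.s k10 k14 1 (.s k5 k15 2 (.s k4 k7 0 (.s k12 k8 1 (.s k93 k174 12
  (.s k89 k81 1 (.d k166 k247 k243 12 14)))))))) (.c k13 (.l (.s k9 k12 2 (.s k10 k14 1 (.s k15 k5 2
  (.d k11 k8 k7 0 1))))) .n)))) .n)))))) .n)))))))) (.c k222 (.q k237 [(.s k9 k12 2 (.s k10 k14 1
  (.s k15 k5 2 (.d k11 k8 k7 0 1)))), (.s k12 k9 2 (.s k93 k174 12 (.s k89 k81 1 (.s k166 k243 14
  (.d k4 k8 k247 1 12))))), (.s k10 k14 1 (.s k15 k5 2 (.s k11 k7 1 (.s k175 k95 11 (.s k167 k163 1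
  (.d k91 k251 k243 11 13))))))] (.c k5 (.l (.s k9 k12 2 (.s k10 k14 1 (.s k11 k8 0 (.s k15 k7 1 (.s
  k175 k95 11 (.s k167 k163 1 (.d k91 k251 k243 11 13)))))))) (.c k9 (.l (.s k10 k14 1 (.s k5 k15 2
  (.s k4 k7 0 (.s k12 k8 1 (.s k93 k174 12 (.s k89 k81 1 (.d k166 k247 k243 12 14)))))))) (.c k13
  (.l (.s k9 k12 2 (.s k10 k14 1 (.s k15 k5 2 (.d k11 k8 k7 0 1))))) (.c k111 (.q k159 [(.s k9 k12 2
  (.s k10 k14 1 (.s k15 k5 2 (.d k11 k8 k7 0 1)))), (.s k12 k9 2 (.s k93 k174 12 (.s k89 k81 1 (.s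
  k166 k243 14 (.d k4 k8 k247 1 12))))), (.s k10 k14 1 (.s k15 k5 2 (.s k11 k7 1 (.s k175 k95 11 (.s
  k167 k163 1 (.d k91 k251 k243 11 13))))))] (.c k5 (.l (.s k9 k12 2 (.s k10 k14 1 (.s k11 k8 0 (.s
  k15 k7 1 (.s k175 k95 11 (.s k167 k163 1 (.d k91 k251 k243 11 13)))))))) (.c k9 (.l (.s k10 k14 1
  (.s k5 k15 2 (.s k4 k7 0 (.s k12 k8 1 (.s k93 k174 12 (.s k89 k81 1 (.d k166 k247 k243 12
  14)))))))) (.c k13 (.l (.s k9 k12 2 (.s k10 k14 1 (.s k15 k5 2 (.d k11 k8 k7 0 1))))) (.c k126 (.q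
  k189 [(.s k9 k12 2 (.s k10 k14 1 (.s k15 k5 2 (.d k11 k8 k7 0 1)))), (.s k12 k9 2 (.s k93 k174 12
  (.s k89 k81 1 (.s k166 k243 14 (.d k4 k8 k247 1 12))))), (.s k10 k14 1 (.s k15 k5 2 (.s k11 k7 1
  (.s k175 k95 11 (.s k167 k163 1 (.d k91 k251 k243 11 13))))))] (.c k5 (.l (.s k9 k12 2 (.s k10 k14
  1 (.s k11 k8 0 (.s k15 k7 1 (.s k175 k95 11 (.s k167 k163 1 (.d k91 k251 k243 11 13)))))))) (.c k9
  (.l (.s k10 k14 1 (.s k5 k15 2 (.s k4 k7 0 (.s k12 k8 1 (.s k93 k174 12 (.s k89 k81 1 (.d k166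
  k247 k243 12 14)))))))) (.c k13 (.l (.s k9 k12 2 (.s k10 k14 1 (.s k15 k5 2 (.d k11 k8 k7 0 1)))))
  .n)))) (.c k189 (.q k126 [(.s k9 k12 2 (.s k10 k14 1 (.s k15 k5 2 (.d k11 k8 k7 0 1)))), (.s k12
  k9 2 (.s k93 k174 12 (.s k89 k81 1 (.s k166 k243 14 (.d k4 k8 k247 1 12))))), (.s k10 k14 1 (.s
  k15 k5 2 (.s k11 k7 1 (.s k175 k95 11 (.s k167 k163 1 (.d k91 k251 k243 11 13))))))] (.c k5 (.l
  (.s k9 k12 2 (.s k10 k14 1 (.s k11 k8 0 (.s k15 k7 1 (.s k175 k95 11 (.s k167 k163 1 (.d k91 k251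
  k243 11 13)))))))) (.c k9 (.l (.s k10 k14 1 (.s k5 k15 2 (.s k4 k7 0 (.s k12 k8 1 (.s k93 k174 12
  (.s k89 k81 1 (.d k166 k247 k243 12 14)))))))) (.c k13 (.l (.s k9 k12 2 (.s k10 k14 1 (.s k15 k5 2
  (.d k11 k8 k7 0 1))))) .n)))) .n)))))) (.c k126 (.q k189 [(.s k9 k12 2 (.s k10 k14 1 (.s k15 k5 2
  (.d k11 k8 k7 0 1)))), (.s k12 k9 2 (.s k93 k174 12 (.s k89 k81 1 (.s k166 k243 14 (.d k4 k8 k247
  1 12))))), (.s k10 k14 1 (.s k15 k5 2 (.s k11 k7 1 (.s k175 k95 11 (.s k167 k163 1 (.d k91 k251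
  k243 11 13))))))] (.c k5 (.l (.s k9 k12 2 (.s k10 k14 1 (.s k11 k8 0 (.s k15 k7 1 (.s k175 k95 11
  (.s k167 k163 1 (.d k91 k251 k243 11 13)))))))) (.c k9 (.l (.s k10 k14 1 (.s k5 k15 2 (.s k4 k7 0
  (.s k12 k8 1 (.s k93 k174 12 (.s k89 k81 1 (.d k166 k247 k243 12 14)))))))) (.c k13 (.l (.s k9 k12
  2 (.s k10 k14 1 (.s k15 k5 2 (.d k11 k8 k7 0 1))))) (.c k111 (.q k159 [(.s k9 k12 2 (.s k10 k14 1
  (.s k15 k5 2 (.d k11 k8 k7 0 1)))), (.s k12 k9 2 (.s k93 k174 12 (.s k89 k81 1 (.s k166 k243 14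
  (.d k4 k8 k247 1 12))))), (.s k10 k14 1 (.s k15 k5 2 (.s k11 k7 1 (.s k175 k95 11 (.s k167 k163 1
  (.d k91 k251 k243 11 13))))))] (.c k5 (.l (.s k9 k12 2 (.s k10 k14 1 (.s k11 k8 0 (.s k15 k7 1 (.s
  k175 k95 11 (.s k167 k163 1 (.d k91 k251 k243 11 13)))))))) (.c k9 (.l (.s k10 k14 1 (.s k5 k15 2
  (.s k4 k7 0 (.s k12 k8 1 (.s k93 k174 12 (.s k89 k81 1 (.d k166 k247 k243 12 14)))))))) (.c k13
  (.l (.s k9 k12 2 (.s k10 k14 1 (.s k15 k5 2 (.d k11 k8 k7 0 1))))) .n)))) (.c k159 (.q k111 [(.s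
  k9 k12 2 (.s k10 k14 1 (.s k15 k5 2 (.d k11 k8 k7 0 1)))), (.s k12 k9 2 (.s k93 k174 12 (.s k89
  k81 1 (.s k166 k243 14 (.d k4 k8 k247 1 12))))), (.s k10 k14 1 (.s k15 k5 2 (.s k11 k7 1 (.s k175
  k95 11 (.s k167 k163 1 (.d k91 k251 k243 11 13))))))] (.c k5 (.l (.s k9 k12 2 (.s k10 k14 1 (.s
  k11 k8 0 (.s k15 k7 1 (.s k175 k95 11 (.s k167 k163 1 (.d k91 k251 k243 11 13)))))))) (.c k9 (.l
  (.s k10 k14 1 (.s k5 k15 2 (.s k4 k7 0 (.s k12 k8 1 (.s k93 k174 12 (.s k89 k81 1 (.d k166 k247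
  k243 12 14)))))))) (.c k13 (.l (.s k9 k12 2 (.s k10 k14 1 (.s k15 k5 2 (.d k11 k8 k7 0 1)))))
  .n)))) .n)))))) (.c k159 (.q k111 [(.s k9 k12 2 (.s k10 k14 1 (.s k15 k5 2 (.d k11 k8 k7 0 1)))),
  (.s k12 k9 2 (.s k93 k174 12 (.s k89 k81 1 (.s k166 k243 14 (.d k4 k8 k247 1 12))))), (.s k10 k14
  1 (.s k15 k5 2 (.s k11 k7 1 (.s k175 k95 11 (.s k167 k163 1 (.d k91 k251 k243 11 13))))))] (.c k5
  (.l (.s k9 k12 2 (.s k10 k14 1 (.s k11 k8 0 (.s k15 k7 1 (.s k175 k95 11 (.s k167 k163 1 (.d k91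
  k251 k243 11 13)))))))) (.c k9 (.l (.s k10 k14 1 (.s k5 k15 2 (.s k4 k7 0 (.s k12 k8 1 (.s k93
  k174 12 (.s k89 k81 1 (.d k166 k247 k243 12 14)))))))) (.c k13 (.l (.s k9 k12 2 (.s k10 k14 1 (.s
  k15 k5 2 (.d k11 k8 k7 0 1))))) (.c k126 (.q k189 [(.s k9 k12 2 (.s k10 k14 1 (.s k15 k5 2 (.d k11
  k8 k7 0 1)))), (.s k12 k9 2 (.s k93 k174 12 (.s k89 k81 1 (.s k166 k243 14 (.d k4 k8 k247 1
  12))))), (.s k10 k14 1 (.s k15 k5 2 (.s k11 k7 1 (.s k175 k95 11 (.s k167 k163 1 (.d k91 k251 k243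
  11 13))))))] (.c k5 (.l (.s k9 k12 2 (.s k10 k14 1 (.s k11 k8 0 (.s k15 k7 1 (.s k175 k95 11 (.s
  k167 k163 1 (.d k91 k251 k243 11 13)))))))) (.c k9 (.l (.s k10 k14 1 (.s k5 k15 2 (.s k4 k7 0 (.s
  k12 k8 1 (.s k93 k174 12 (.s k89 k81 1 (.d k166 k247 k243 12 14)))))))) (.c k13 (.l (.s k9 k12 2
  (.s k10 k14 1 (.s k15 k5 2 (.d k11 k8 k7 0 1))))) .n)))) (.c k189 (.q k126 [(.s k9 k12 2 (.s k10
  k14 1 (.s k15 k5 2 (.d k11 k8 k7 0 1)))), (.s k12 k9 2 (.s k93 k174 12 (.s k89 k81 1 (.s k166 k243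
  14 (.d k4 k8 k247 1 12))))), (.s k10 k14 1 (.s k15 k5 2 (.s k11 k7 1 (.s k175 k95 11 (.s k167 k163
  1 (.d k91 k251 k243 11 13))))))] (.c k5 (.l (.s k9 k12 2 (.s k10 k14 1 (.s k11 k8 0 (.s k15 k7 1
  (.s k175 k95 11 (.s k167 k163 1 (.d k91 k251 k243 11 13)))))))) (.c k9 (.l (.s k10 k14 1 (.s k5
  k15 2 (.s k4 k7 0 (.s k12 k8 1 (.s k93 k174 12 (.s k89 k81 1 (.d k166 k247 k243 12 14)))))))) (.c
  k13 (.l (.s k9 k12 2 (.s k10 k14 1 (.s k15 k5 2 (.d k11 k8 k7 0 1))))) .n)))) .n)))))) (.c k189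
  (.q k126 [(.s k9 k12 2 (.s k10 k14 1 (.s k15 k5 2 (.d k11 k8 k7 0 1)))), (.s k12 k9 2 (.s k93 k174
  12 (.s k89 k81 1 (.s k166 k243 14 (.d k4 k8 k247 1 12))))), (.s k10 k14 1 (.s k15 k5 2 (.s k11 k7
  1 (.s k175 k95 11 (.s k167 k163 1 (.d k91 k251 k243 11 13))))))] (.c k5 (.l (.s k9 k12 2 (.s k10
  k14 1 (.s k11 k8 0 (.s k15 k7 1 (.s k175 k95 11 (.s k167 k163 1 (.d k91 k251 k243 11 13))))))))
  (.c k9 (.l (.s k10 k14 1 (.s k5 k15 2 (.s k4 k7 0 (.s k12 k8 1 (.s k93 k174 12 (.s k89 k81 1 (.d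
  k166 k247 k243 12 14)))))))) (.c k13 (.l (.s k9 k12 2 (.s k10 k14 1 (.s k15 k5 2 (.d k11 k8 k7 0
  1))))) (.c k111 (.q k159 [(.s k9 k12 2 (.s k10 k14 1 (.s k15 k5 2 (.d k11 k8 k7 0 1)))), (.s k12
  k9 2 (.s k93 k174 12 (.s k89 k81 1 (.s k166 k243 14 (.d k4 k8 k247 1 12))))), (.s k10 k14 1 (.s
  k15 k5 2 (.s k11 k7 1 (.s k175 k95 11 (.s k167 k163 1 (.d k91 k251 k243 11 13))))))] (.c k5 (.l
  (.s k9 k12 2 (.s k10 k14 1 (.s k11 k8 0 (.s k15 k7 1 (.s k175 k95 11 (.s k167 k163 1 (.d k91 k251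
  k243 11 13)))))))) (.c k9 (.l (.s k10 k14 1 (.s k5 k15 2 (.s k4 k7 0 (.s k12 k8 1 (.s k93 k174 12
  (.s k89 k81 1 (.d k166 k247 k243 12 14)))))))) (.c k13 (.l (.s k9 k12 2 (.s k10 k14 1 (.s k15 k5 2
  (.d k11 k8 k7 0 1))))) .n)))) (.c k159 (.q k111 [(.s k9 k12 2 (.s k10 k14 1 (.s k15 k5 2 (.d k11
  k8 k7 0 1)))), (.s k12 k9 2 (.s k93 k174 12 (.s k89 k81 1 (.s k166 k243 14 (.d k4 k8 k247 1
  12))))), (.s k10 k14 1 (.s k15 k5 2 (.s k11 k7 1 (.s k175 k95 11 (.s k167 k163 1 (.d k91 k251 k243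
  11 13))))))] (.c k5 (.l (.s k9 k12 2 (.s k10 k14 1 (.s k11 k8 0 (.s k15 k7 1 (.s k175 k95 11 (.s
  k167 k163 1 (.d k91 k251 k243 11 13)))))))) (.c k9 (.l (.s k10 k14 1 (.s k5 k15 2 (.s k4 k7 0 (.s
  k12 k8 1 (.s k93 k174 12 (.s k89 k81 1 (.d k166 k247 k243 12 14)))))))) (.c k13 (.l (.s k9 k12 2
  (.s k10 k14 1 (.s k15 k5 2 (.d k11 k8 k7 0 1))))) .n)))) .n)))))) .n)))))))) (.c k237 (.q k222
  [(.s k9 k12 2 (.s k10 k14 1 (.s k15 k5 2 (.d k11 k8 k7 0 1)))), (.s k12 k9 2 (.s k93 k174 12 (.s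
  k89 k81 1 (.s k166 k243 14 (.d k4 k8 k247 1 12))))), (.s k10 k14 1 (.s k15 k5 2 (.s k11 k7 1 (.s
  k175 k95 11 (.s k167 k163 1 (.d k91 k251 k243 11 13))))))] (.c k5 (.l (.s k9 k12 2 (.s k10 k14 1
  (.s k11 k8 0 (.s k15 k7 1 (.s k175 k95 11 (.s k167 k163 1 (.d k91 k251 k243 11 13)))))))) (.c k9
  (.l (.s k10 k14 1 (.s k5 k15 2 (.s k4 k7 0 (.s k12 k8 1 (.s k93 k174 12 (.s k89 k81 1 (.d k166
  k247 k243 12 14)))))))) (.c k13 (.l (.s k9 k12 2 (.s k10 k14 1 (.s k15 k5 2 (.d k11 k8 k7 0 1)))))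
  (.c k111 (.q k159 [(.s k9 k12 2 (.s k10 k14 1 (.s k15 k5 2 (.d k11 k8 k7 0 1)))), (.s k12 k9 2 (.s
  k93 k174 12 (.s k89 k81 1 (.s k166 k243 14 (.d k4 k8 k247 1 12))))), (.s k10 k14 1 (.s k15 k5 2
  (.s k11 k7 1 (.s k175 k95 11 (.s k167 k163 1 (.d k91 k251 k243 11 13))))))] (.c k5 (.l (.s k9 k12
  2 (.s k10 k14 1 (.s k11 k8 0 (.s k15 k7 1 (.s k175 k95 11 (.s k167 k163 1 (.d k91 k251 k243 11
  13)))))))) (.c k9 (.l (.s k10 k14 1 (.s k5 k15 2 (.s k4 k7 0 (.s k12 k8 1 (.s k93 k174 12 (.s k89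
  k81 1 (.d k166 k247 k243 12 14)))))))) (.c k13 (.l (.s k9 k12 2 (.s k10 k14 1 (.s k15 k5 2 (.d k11
  k8 k7 0 1))))) (.c k126 (.q k189 [(.s k9 k12 2 (.s k10 k14 1 (.s k15 k5 2 (.d k11 k8 k7 0 1)))),
  (.s k12 k9 2 (.s k93 k174 12 (.s k89 k81 1 (.s k166 k243 14 (.d k4 k8 k247 1 12))))), (.s k10 k14
  1 (.s k15 k5 2 (.s k11 k7 1 (.s k175 k95 11 (.s k167 k163 1 (.d k91 k251 k243 11 13))))))] (.c k5
  (.l (.s k9 k12 2 (.s k10 k14 1 (.s k11 k8 0 (.s k15 k7 1 (.s k175 k95 11 (.s k167 k163 1 (.d k91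
  k251 k243 11 13)))))))) (.c k9 (.l (.s k10 k14 1 (.s k5 k15 2 (.s k4 k7 0 (.s k12 k8 1 (.s k93
  k174 12 (.s k89 k81 1 (.d k166 k247 k243 12 14)))))))) (.c k13 (.l (.s k9 k12 2 (.s k10 k14 1 (.s
  k15 k5 2 (.d k11 k8 k7 0 1))))) .n)))) (.c k189 (.q k126 [(.s k9 k12 2 (.s k10 k14 1 (.s k15 k5 2
  (.d k11 k8 k7 0 1)))), (.s k12 k9 2 (.s k93 k174 12 (.s k89 k81 1 (.s k166 k243 14 (.d k4 k8 k247
  1 12))))), (.s k10 k14 1 (.s k15 k5 2 (.s k11 k7 1 (.s k175 k95 11 (.s k167 k163 1 (.d k91 k251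
  k243 11 13))))))] (.c k5 (.l (.s k9 k12 2 (.s k10 k14 1 (.s k11 k8 0 (.s k15 k7 1 (.s k175 k95 11
  (.s k167 k163 1 (.d k91 k251 k243 11 13)))))))) (.c k9 (.l (.s k10 k14 1 (.s k5 k15 2 (.s k4 k7 0
  (.s k12 k8 1 (.s k93 k174 12 (.s k89 k81 1 (.d k166 k247 k243 12 14)))))))) (.c k13 (.l (.s k9 k12
  2 (.s k10 k14 1 (.s k15 k5 2 (.d k11 k8 k7 0 1))))) .n)))) .n)))))) (.c k126 (.q k189 [(.s k9 k12
  2 (.s k10 k14 1 (.s k15 k5 2 (.d k11 k8 k7 0 1)))), (.s k12 k9 2 (.s k93 k174 12 (.s k89 k81 1 (.s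
  k166 k243 14 (.d k4 k8 k247 1 12))))), (.s k10 k14 1 (.s k15 k5 2 (.s k11 k7 1 (.s k175 k95 11 (.s
  k167 k163 1 (.d k91 k251 k243 11 13))))))] (.c k5 (.l (.s k9 k12 2 (.s k10 k14 1 (.s k11 k8 0 (.s
  k15 k7 1 (.s k175 k95 11 (.s k167 k163 1 (.d k91 k251 k243 11 13)))))))) (.c k9 (.l (.s k10 k14 1
  (.s k5 k15 2 (.s k4 k7 0 (.s k12 k8 1 (.s k93 k174 12 (.s k89 k81 1 (.d k166 k247 k243 12
  14)))))))) (.c k13 (.l (.s k9 k12 2 (.s k10 k14 1 (.s k15 k5 2 (.d k11 k8 k7 0 1))))) (.c k111 (.q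
  k159 [(.s k9 k12 2 (.s k10 k14 1 (.s k15 k5 2 (.d k11 k8 k7 0 1)))), (.s k12 k9 2 (.s k93 k174 12
  (.s k89 k81 1 (.s k166 k243 14 (.d k4 k8 k247 1 12))))), (.s k10 k14 1 (.s k15 k5 2 (.s k11 k7 1
  (.s k175 k95 11 (.s k167 k163 1 (.d k91 k251 k243 11 13))))))] (.c k5 (.l (.s k9 k12 2 (.s k10 k14
  1 (.s k11 k8 0 (.s k15 k7 1 (.s k175 k95 11 (.s k167 k163 1 (.d k91 k251 k243 11 13)))))))) (.c k9
  (.l (.s k10 k14 1 (.s k5 k15 2 (.s k4 k7 0 (.s k12 k8 1 (.s k93 k174 12 (.s k89 k81 1 (.d k166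
  k247 k243 12 14)))))))) (.c k13 (.l (.s k9 k12 2 (.s k10 k14 1 (.s k15 k5 2 (.d k11 k8 k7 0 1)))))
  .n)))) (.c k159 (.q k111 [(.s k9 k12 2 (.s k10 k14 1 (.s k15 k5 2 (.d k11 k8 k7 0 1)))), (.s k12
  k9 2 (.s k93 k174 12 (.s k89 k81 1 (.s k166 k243 14 (.d k4 k8 k247 1 12))))), (.s k10 k14 1 (.s
  k15 k5 2 (.s k11 k7 1 (.s k175 k95 11 (.s k167 k163 1 (.d k91 k251 k243 11 13))))))] (.c k5 (.l
  (.s k9 k12 2 (.s k10 k14 1 (.s k11 k8 0 (.s k15 k7 1 (.s k175 k95 11 (.s k167 k163 1 (.d k91 k251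
  k243 11 13)))))))) (.c k9 (.l (.s k10 k14 1 (.s k5 k15 2 (.s k4 k7 0 (.s k12 k8 1 (.s k93 k174 12
  (.s k89 k81 1 (.d k166 k247 k243 12 14)))))))) (.c k13 (.l (.s k9 k12 2 (.s k10 k14 1 (.s k15 k5 2
  (.d k11 k8 k7 0 1))))) .n)))) .n)))))) (.c k159 (.q k111 [(.s k9 k12 2 (.s k10 k14 1 (.s k15 k5 2
  (.d k11 k8 k7 0 1)))), (.s k12 k9 2 (.s k93 k174 12 (.s k89 k81 1 (.s k166 k243 14 (.d k4 k8 k247
  1 12))))), (.s k10 k14 1 (.s k15 k5 2 (.s k11 k7 1 (.s k175 k95 11 (.s k167 k163 1 (.d k91 k251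
  k243 11 13))))))] (.c k5 (.l (.s k9 k12 2 (.s k10 k14 1 (.s k11 k8 0 (.s k15 k7 1 (.s k175 k95 11
  (.s k167 k163 1 (.d k91 k251 k243 11 13)))))))) (.c k9 (.l (.s k10 k14 1 (.s k5 k15 2 (.s k4 k7 0
  (.s k12 k8 1 (.s k93 k174 12 (.s k89 k81 1 (.d k166 k247 k243 12 14)))))))) (.c k13 (.l (.s k9 k12
  2 (.s k10 k14 1 (.s k15 k5 2 (.d k11 k8 k7 0 1))))) (.c k126 (.q k189 [(.s k9 k12 2 (.s k10 k14 1
  (.s k15 k5 2 (.d k11 k8 k7 0 1)))), (.s k12 k9 2 (.s k93 k174 12 (.s k89 k81 1 (.s k166 k243 14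
  (.d k4 k8 k247 1 12))))), (.s k10 k14 1 (.s k15 k5 2 (.s k11 k7 1 (.s k175 k95 11 (.s k167 k163 1
  (.d k91 k251 k243 11 13))))))] (.c k5 (.l (.s k9 k12 2 (.s k10 k14 1 (.s k11 k8 0 (.s k15 k7 1 (.s
  k175 k95 11 (.s k167 k163 1 (.d k91 k251 k243 11 13)))))))) (.c k9 (.l (.s k10 k14 1 (.s k5 k15 2
  (.s k4 k7 0 (.s k12 k8 1 (.s k93 k174 12 (.s k89 k81 1 (.d k166 k247 k243 12 14)))))))) (.c k13
  (.l (.s k9 k12 2 (.s k10 k14 1 (.s k15 k5 2 (.d k11 k8 k7 0 1))))) .n)))) (.c k189 (.q k126 [(.s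
  k9 k12 2 (.s k10 k14 1 (.s k15 k5 2 (.d k11 k8 k7 0 1)))), (.s k12 k9 2 (.s k93 k174 12 (.s k89
  k81 1 (.s k166 k243 14 (.d k4 k8 k247 1 12))))), (.s k10 k14 1 (.s k15 k5 2 (.s k11 k7 1 (.s k175
  k95 11 (.s k167 k163 1 (.d k91 k251 k243 11 13))))))] (.c k5 (.l (.s k9 k12 2 (.s k10 k14 1 (.s
  k11 k8 0 (.s k15 k7 1 (.s k175 k95 11 (.s k167 k163 1 (.d k91 k251 k243 11 13)))))))) (.c k9 (.l
  (.s k10 k14 1 (.s k5 k15 2 (.s k4 k7 0 (.s k12 k8 1 (.s k93 k174 12 (.s k89 k81 1 (.d k166 k247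
  k243 12 14)))))))) (.c k13 (.l (.s k9 k12 2 (.s k10 k14 1 (.s k15 k5 2 (.d k11 k8 k7 0 1)))))
  .n)))) .n)))))) (.c k189 (.q k126 [(.s k9 k12 2 (.s k10 k14 1 (.s k15 k5 2 (.d k11 k8 k7 0 1)))),
  (.s k12 k9 2 (.s k93 k174 12 (.s k89 k81 1 (.s k166 k243 14 (.d k4 k8 k247 1 12))))), (.s k10 k14
  1 (.s k15 k5 2 (.s k11 k7 1 (.s k175 k95 11 (.s k167 k163 1 (.d k91 k251 k243 11 13))))))] (.c k5
  (.l (.s k9 k12 2 (.s k10 k14 1 (.s k11 k8 0 (.s k15 k7 1 (.s k175 k95 11 (.s k167 k163 1 (.d k91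
  k251 k243 11 13)))))))) (.c k9 (.l (.s k10 k14 1 (.s k5 k15 2 (.s k4 k7 0 (.s k12 k8 1 (.s k93
  k174 12 (.s k89 k81 1 (.d k166 k247 k243 12 14)))))))) (.c k13 (.l (.s k9 k12 2 (.s k10 k14 1 (.s
  k15 k5 2 (.d k11 k8 k7 0 1))))) (.c k111 (.q k159 [(.s k9 k12 2 (.s k10 k14 1 (.s k15 k5 2 (.d k11
  k8 k7 0 1)))), (.s k12 k9 2 (.s k93 k174 12 (.s k89 k81 1 (.s k166 k243 14 (.d k4 k8 k247 1
  12))))), (.s k10 k14 1 (.s k15 k5 2 (.s k11 k7 1 (.s k175 k95 11 (.s k167 k163 1 (.d k91 k251 k243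
  11 13))))))] (.c k5 (.l (.s k9 k12 2 (.s k10 k14 1 (.s k11 k8 0 (.s k15 k7 1 (.s k175 k95 11 (.s
  k167 k163 1 (.d k91 k251 k243 11 13)))))))) (.c k9 (.l (.s k10 k14 1 (.s k5 k15 2 (.s k4 k7 0 (.s
  k12 k8 1 (.s k93 k174 12 (.s k89 k81 1 (.d k166 k247 k243 12 14)))))))) (.c k13 (.l (.s k9 k12 2
  (.s k10 k14 1 (.s k15 k5 2 (.d k11 k8 k7 0 1))))) .n)))) (.c k159 (.q k111 [(.s k9 k12 2 (.s k10
  k14 1 (.s k15 k5 2 (.d k11 k8 k7 0 1)))), (.s k12 k9 2 (.s k93 k174 12 (.s k89 k81 1 (.s k166 k243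
  14 (.d k4 k8 k247 1 12))))), (.s k10 k14 1 (.s k15 k5 2 (.s k11 k7 1 (.s k175 k95 11 (.s k167 k163
  1 (.d k91 k251 k243 11 13))))))] (.c k5 (.l (.s k9 k12 2 (.s k10 k14 1 (.s k11 k8 0 (.s k15 k7 1
  (.s k175 k95 11 (.s k167 k163 1 (.d k91 k251 k243 11 13)))))))) (.c k9 (.l (.s k10 k14 1 (.s k5
  k15 2 (.s k4 k7 0 (.s k12 k8 1 (.s k93 k174 12 (.s k89 k81 1 (.d k166 k247 k243 12 14)))))))) (.c
  k13 (.l (.s k9 k12 2 (.s k10 k14 1 (.s k15 k5 2 (.d k11 k8 k7 0 1))))) .n)))) .n)))))) .n))))))))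
  .n)))))))))))))

def s63_207_253 : T TT 256 :=
  (.l (.s k2 k1 0 (.s k170 k255 14 (.s k86 k254 13 (.s k252 k169 14 (.d k84 k87 k168 0 13))))))

def s63_207_254 : T TT 256 :=
  (.l (.s k1 k2 0 (.s k169 k253 13 (.s k86 k252 14 (.s k255 k170 14 (.d k87 k84 k171 0 13))))))

def s63_207_255 : T TT 256 :=
  (.q k15 [(.s k1 k2 0 (.s k5 k10 2 (.s k7 k11 1 (.s k6 k4 0 (.d k9 k13 k12 1 2))))), (.s k1 k2 0
  (.s k11 k7 1 (.s k169 k253 13 (.s k90 k248 12 (.s k80 k95 2 (.d k240 k160 k165 11 14)))))), (.s k5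
  k10 2 (.s k7 k11 1 (.s k165 k245 11 (.s k86 k244 12 (.s k84 k87 0 (.d k252 k168 k169 13 14)))))),
  (.s k1 k2 0 (.s k5 k10 2 (.s k165 k245 11 (.s k169 k253 13 (.s k161 k173 1 (.d k240 k82 k90 12
  14))))))] (.c k111 (.q k159 [(.s k1 k2 0 (.s k5 k10 2 (.s k7 k11 1 (.s k6 k4 0 (.d k9 k13 k12 1
  2))))), (.s k1 k2 0 (.s k11 k7 1 (.s k169 k253 13 (.s k90 k248 12 (.s k80 k95 2 (.d k240 k160 k165
  11 14)))))), (.s k5 k10 2 (.s k7 k11 1 (.s k165 k245 11 (.s k86 k244 12 (.s k84 k87 0 (.d k252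
  k168 k169 13 14)))))), (.s k1 k2 0 (.s k5 k10 2 (.s k165 k245 11 (.s k169 k253 13 (.s k161 k173 1
  (.d k240 k82 k90 12 14))))))] (.c k127 (.q k191 [(.s k5 k10 2 (.s k165 k245 11 (.s k175 k143 3 (.s
  k160 k170 2 (.d k240 k90 k80 14 11))))), (.s k1 k2 0 (.s k5 k10 2 (.s k7 k11 1 (.s k6 k4 0 (.d k9
  k13 k12 1 2))))), (.s k1 k2 0 (.s k11 k7 1 (.s k169 k253 13 (.s k90 k248 12 (.s k240 k165 14 (.d
  k80 k95 k160 2 11))))))] (.c k79 (.q k95 [(.s k5 k10 2 (.s k90 k80 2 (.d k165 k245 k240 11 14))),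
  (.s k1 k2 0 (.s k11 k7 1 (.s k90 k80 2 (.d k169 k248 k253 12 13)))), (.s k1 k2 0 (.s k5 k10 2 (.s
  k7 k11 1 (.s k6 k4 0 (.d k9 k13 k12 1 2)))))] (.c k223 (.q k239 [(.s k5 k10 2 (.s k90 k80 2 (.d
  k165 k245 k240 11 14))), (.s k1 k2 0 (.s k11 k7 1 (.s k90 k80 2 (.d k169 k248 k253 12 13)))), (.s
  k1 k2 0 (.s k5 k10 2 (.s k7 k11 1 (.s k6 k4 0 (.d k9 k13 k12 1 2)))))] .n) (.c k239 (.l (.s k223
  k31 7 (.s k5 k10 2 (.s k90 k80 2 (.d k165 k245 k240 11 14))))) .n))) (.c k95 (.q k79 [(.s k5 k10 2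
  (.s k165 k245 11 (.s k175 k143 3 (.s k160 k170 2 (.d k240 k90 k80 14 11))))), (.s k1 k2 0 (.s k5
  k10 2 (.s k7 k11 1 (.s k6 k4 0 (.d k9 k13 k12 1 2))))), (.s k1 k2 0 (.s k11 k7 1 (.s k169 k253 13
  (.s k90 k248 12 (.s k165 k240 14 (.s k173 k161 1 (.d k252 k94 k86 12 14)))))))] (.c k223 (.q k239
  [(.s k5 k10 2 (.s k165 k245 11 (.s k175 k143 3 (.s k160 k170 2 (.d k240 k90 k80 14 11))))), (.s k1
  k2 0 (.s k5 k10 2 (.s k7 k11 1 (.s k6 k4 0 (.d k9 k13 k12 1 2))))), (.s k1 k2 0 (.s k11 k7 1 (.s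
  k169 k253 13 (.s k90 k248 12 (.s k165 k240 14 (.s k173 k161 1 (.d k252 k94 k86 12 14)))))))] .n)
  (.c k239 (.q k223 [(.s k5 k10 2 (.s k154 k16 10 (.s k165 k245 11 (.d k143 k175 k176 3 6)))), (.s
  k2 k1 0 (.s k16 k154 10 (.s k48 k32 3 (.s k18 k33 4 (.s k17 k19 0 (.d k34 k50 k51 3 4)))))), (.s
  k1 k2 0 (.s k5 k10 2 (.s k7 k11 1 (.s k6 k4 0 (.d k9 k13 k12 1 2)))))] (.c k47 (.l (.s k175 k143 3
  (.s k5 k10 2 (.s k165 k245 11 (.s k160 k170 2 (.d k240 k90 k80 14 11)))))) (.c k175 (.q k47 [(.s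
  k1 k2 0 (.s k5 k10 2 (.s k7 k11 1 (.s k6 k4 0 (.d k9 k13 k12 1 2))))), (.s k2 k1 0 (.s k16 k154 10
  (.s k48 k32 3 (.s k18 k33 4 (.s k17 k19 0 (.d k34 k50 k51 3 4)))))), (.s k5 k10 2 (.s k7 k11 1 (.s
  k165 k245 11 (.s k86 k244 12 (.s k84 k87 0 (.d k252 k168 k169 13 14))))))] .n) .n))) .n))) (.c
  k223 (.q k239 [(.s k5 k10 2 (.s k165 k245 11 (.s k175 k143 3 (.s k160 k170 2 (.d k240 k90 k80 14
  11))))), (.s k1 k2 0 (.s k5 k10 2 (.s k7 k11 1 (.s k6 k4 0 (.d k9 k13 k12 1 2))))), (.s k1 k2 0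
  (.s k11 k7 1 (.s k169 k253 13 (.s k90 k248 12 (.s k240 k165 14 (.d k80 k95 k160 2 11))))))] (.c
  k79 (.q k95 [(.s k5 k10 2 (.s k90 k80 2 (.d k165 k245 k240 11 14))), (.s k1 k2 0 (.s k11 k7 1 (.s
  k90 k80 2 (.d k169 k248 k253 12 13)))), (.s k1 k2 0 (.s k5 k10 2 (.s k7 k11 1 (.s k6 k4 0 (.d k9
  k13 k12 1 2)))))] .n) (.c k95 (.q k79 [(.s k5 k10 2 (.s k165 k245 11 (.s k175 k143 3 (.s k160 k170
  2 (.d k240 k90 k80 14 11))))), (.s k1 k2 0 (.s k5 k10 2 (.s k7 k11 1 (.s k6 k4 0 (.d k9 k13 k12 1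
  2))))), (.s k1 k2 0 (.s k11 k7 1 (.s k169 k253 13 (.s k90 k248 12 (.s k165 k240 14 (.s k173 k161 1
  (.d k252 k94 k86 12 14)))))))] .n) .n))) (.c k239 (.q k223 [(.s k5 k10 2 (.s k95 k31 7 (.s k90 k80
  2 (.d k165 k245 k240 11 14)))), (.s k16 k154 10 (.s k48 k32 3 (.s k26 k37 6 (.d k31 k95 k21 7
  2))))] (.c k31 (.l (.s k5 k10 2 (.s k154 k16 10 (.s k165 k245 11 (.d k143 k175 k176 3 6))))) (.c
  k47 (.l (.s k175 k143 3 (.s k5 k10 2 (.s k95 k31 7 (.s k90 k80 2 (.d k165 k245 k240 11 14))))))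
  (.c k79 (.l (.s k95 k31 7 (.s k5 k10 2 (.s k90 k80 2 (.d k165 k245 k240 11 14))))) (.c k95 (.q k79
  [(.s k5 k10 2 (.s k154 k16 10 (.s k165 k245 11 (.d k143 k175 k176 3 6)))), (.s k2 k1 0 (.s k16
  k154 10 (.s k48 k32 3 (.s k18 k33 4 (.s k17 k19 0 (.d k34 k50 k51 3 4)))))), (.s k1 k2 0 (.s k5
  k10 2 (.s k7 k11 1 (.s k6 k4 0 (.d k9 k13 k12 1 2)))))] (.c k47 (.l (.s k175 k143 3 (.s k5 k10 2
  (.s k165 k245 11 (.s k160 k170 2 (.d k240 k90 k80 14 11)))))) (.c k175 (.q k47 [(.s k1 k2 0 (.s k5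
  k10 2 (.s k7 k11 1 (.s k6 k4 0 (.d k9 k13 k12 1 2))))), (.s k2 k1 0 (.s k16 k154 10 (.s k48 k32 3
  (.s k18 k33 4 (.s k17 k19 0 (.d k34 k50 k51 3 4)))))), (.s k5 k10 2 (.s k7 k11 1 (.s k165 k245 11
  (.s k86 k244 12 (.s k84 k87 0 (.d k252 k168 k169 13 14))))))] .n) .n))) (.c k175 (.q k47 [(.s k5
  k10 2 (.s k95 k31 7 (.s k90 k80 2 (.d k165 k245 k240 11 14)))), (.s k16 k154 10 (.s k48 k32 3 (.s
  k26 k37 6 (.d k31 k95 k21 7 2))))] (.c k31 (.l (.s k1 k2 0 (.s k5 k10 2 (.s k7 k11 1 (.s k6 k4 0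
  (.d k9 k13 k12 1 2)))))) (.c k79 (.l (.s k95 k31 7 (.s k5 k10 2 (.s k90 k80 2 (.d k165 k245 k240
  11 14))))) (.c k95 (.q k79 [(.s k1 k2 0 (.s k5 k10 2 (.s k7 k11 1 (.s k6 k4 0 (.d k9 k13 k12 1
  2))))), (.s k2 k1 0 (.s k16 k154 10 (.s k48 k32 3 (.s k18 k33 4 (.s k17 k19 0 (.d k34 k50 k51 3
  4)))))), (.s k5 k10 2 (.s k7 k11 1 (.s k165 k245 11 (.s k86 k244 12 (.s k84 k87 0 (.d k252 k168
  k169 13 14))))))] .n) .n)))) .n)))))) .n))))) (.c k191 (.q k127 [(.s k1 k2 0 (.s k5 k10 2 (.s k7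
  k11 1 (.s k6 k4 0 (.d k9 k13 k12 1 2))))), (.s k1 k2 0 (.s k11 k7 1 (.s k169 k253 13 (.s k90 k248
  12 (.s k80 k95 2 (.d k240 k160 k165 11 14)))))), (.s k5 k10 2 (.s k7 k11 1 (.s k165 k245 11 (.s
  k86 k244 12 (.s k84 k87 0 (.d k252 k168 k169 13 14)))))), (.s k1 k2 0 (.s k5 k10 2 (.s k165 k245
  11 (.s k169 k253 13 (.s k161 k173 1 (.d k240 k82 k90 12 14))))))] (.c k223 (.q k239 [(.s k1 k2 0
  (.s k5 k10 2 (.s k7 k11 1 (.s k6 k4 0 (.d k9 k13 k12 1 2))))), (.s k1 k2 0 (.s k11 k7 1 (.s k169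
  k253 13 (.s k90 k248 12 (.s k80 k95 2 (.d k240 k160 k165 11 14)))))), (.s k5 k10 2 (.s k7 k11 1
  (.s k165 k245 11 (.s k86 k244 12 (.s k84 k87 0 (.d k252 k168 k169 13 14)))))), (.s k1 k2 0 (.s k5
  k10 2 (.s k165 k245 11 (.s k169 k253 13 (.s k161 k173 1 (.d k240 k82 k90 12 14))))))] .n) (.c k239
  (.q k223 [(.s k5 k10 2 (.s k95 k31 7 (.s k90 k80 2 (.d k165 k245 k240 11 14)))), (.s k16 k154 10
  (.s k31 k95 7 (.s k26 k21 2 (.d k48 k32 k37 3 6)))), (.s k1 k2 0 (.s k5 k10 2 (.s k7 k11 1 (.s k6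
  k4 0 (.d k9 k13 k12 1 2)))))] (.c k47 (.q k175 [(.s k5 k10 2 (.s k95 k31 7 (.s k90 k80 2 (.d k165
  k245 k240 11 14)))), (.s k16 k154 10 (.s k31 k95 7 (.s k26 k21 2 (.d k48 k32 k37 3 6)))), (.s k5
  k10 2 (.s k165 k245 11 (.s k160 k170 2 (.d k240 k90 k80 14 11))))] .n) (.c k175 (.q k47 [(.s k5
  k10 2 (.s k106 k64 6 (.d k165 k224 k245 10 11))), (.s k16 k154 10 (.s k31 k95 7 (.s k26 k21 2 (.d
  k48 k32 k37 3 6))))] .n) .n))) .n))) (.c k223 (.q k239 [(.s k1 k2 0 (.s k5 k10 2 (.s k7 k11 1 (.s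
  k6 k4 0 (.d k9 k13 k12 1 2))))), (.s k1 k2 0 (.s k11 k7 1 (.s k169 k253 13 (.s k90 k248 12 (.s k80
  k95 2 (.d k240 k160 k165 11 14)))))), (.s k5 k10 2 (.s k7 k11 1 (.s k165 k245 11 (.s k86 k244 12
  (.s k84 k87 0 (.d k252 k168 k169 13 14)))))), (.s k1 k2 0 (.s k5 k10 2 (.s k165 k245 11 (.s k169
  k253 13 (.s k161 k173 1 (.d k240 k82 k90 12 14))))))] (.c k127 (.q k191 [(.s k5 k10 2 (.s k165
  k245 11 (.s k175 k143 3 (.s k160 k170 2 (.d k240 k90 k80 14 11))))), (.s k1 k2 0 (.s k5 k10 2 (.s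
  k7 k11 1 (.s k6 k4 0 (.d k9 k13 k12 1 2))))), (.s k1 k2 0 (.s k11 k7 1 (.s k169 k253 13 (.s k90
  k248 12 (.s k240 k165 14 (.d k80 k95 k160 2 11))))))] (.c k79 (.q k95 [(.s k5 k10 2 (.s k90 k80 2
  (.d k165 k245 k240 11 14))), (.s k1 k2 0 (.s k11 k7 1 (.s k90 k80 2 (.d k169 k248 k253 12 13)))),
  (.s k1 k2 0 (.s k5 k10 2 (.s k7 k11 1 (.s k6 k4 0 (.d k9 k13 k12 1 2)))))] .n) (.c k95 (.q k79
  [(.s k5 k10 2 (.s k165 k245 11 (.s k175 k143 3 (.s k160 k170 2 (.d k240 k90 k80 14 11))))), (.s k1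
  k2 0 (.s k5 k10 2 (.s k7 k11 1 (.s k6 k4 0 (.d k9 k13 k12 1 2))))), (.s k1 k2 0 (.s k11 k7 1 (.s
  k169 k253 13 (.s k90 k248 12 (.s k165 k240 14 (.s k173 k161 1 (.d k252 k94 k86 12 14)))))))] .n)
  .n))) (.c k191 (.q k127 [(.s k1 k2 0 (.s k5 k10 2 (.s k7 k11 1 (.s k6 k4 0 (.d k9 k13 k12 1
  2))))), (.s k1 k2 0 (.s k11 k7 1 (.s k169 k253 13 (.s k90 k248 12 (.s k80 k95 2 (.d k240 k160 k165
  11 14)))))), (.s k5 k10 2 (.s k7 k11 1 (.s k165 k245 11 (.s k86 k244 12 (.s k84 k87 0 (.d k252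
  k168 k169 13 14)))))), (.s k1 k2 0 (.s k5 k10 2 (.s k165 k245 11 (.s k169 k253 13 (.s k161 k173 1
  (.d k240 k82 k90 12 14))))))] .n) .n))) (.c k239 (.q k223 [(.s k5 k10 2 (.s k95 k31 7 (.s k90 k80
  2 (.d k165 k245 k240 11 14)))), (.s k16 k154 10 (.s k31 k95 7 (.s k26 k21 2 (.d k48 k32 k37 3
  6)))), (.s k1 k2 0 (.s k5 k10 2 (.s k7 k11 1 (.s k6 k4 0 (.d k9 k13 k12 1 2)))))] (.c k47 (.q k175
  [(.s k5 k10 2 (.s k95 k31 7 (.s k90 k80 2 (.d k165 k245 k240 11 14)))), (.s k16 k154 10 (.s k31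
  k95 7 (.s k26 k21 2 (.d k48 k32 k37 3 6)))), (.s k5 k10 2 (.s k154 k16 10 (.s k165 k245 11 (.d
  k143 k191 k176 3 6))))] (.c k127 (.l (.s k191 k143 3 (.s k5 k10 2 (.s k95 k31 7 (.s k90 k80 2 (.d
  k165 k245 k240 11 14)))))) (.c k191 (.q k127 [(.s k5 k10 2 (.s k95 k31 7 (.s k90 k80 2 (.d k165
  k245 k240 11 14)))), (.s k16 k154 10 (.s k31 k95 7 (.s k26 k21 2 (.d k48 k32 k37 3 6)))), (.s k5
  k10 2 (.s k165 k245 11 (.s k160 k170 2 (.d k240 k90 k80 14 11))))] .n) .n))) (.c k127 (.q k191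
  [(.s k5 k10 2 (.s k95 k31 7 (.s k90 k80 2 (.d k165 k245 k240 11 14)))), (.s k16 k154 10 (.s k48
  k32 3 (.s k26 k37 6 (.d k31 k95 k21 7 2))))] (.c k31 (.l (.s k5 k10 2 (.s k154 k16 10 (.s k165
  k245 11 (.d k143 k175 k176 3 6))))) (.c k47 (.l (.s k175 k143 3 (.s k5 k10 2 (.s k95 k31 7 (.s k90
  k80 2 (.d k165 k245 k240 11 14)))))) (.c k79 (.l (.s k95 k31 7 (.s k5 k10 2 (.s k90 k80 2 (.d k165
  k245 k240 11 14))))) (.c k95 (.q k79 [(.s k5 k10 2 (.s k154 k16 10 (.s k165 k245 11 (.d k143 k175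
  k176 3 6)))), (.s k2 k1 0 (.s k16 k154 10 (.s k48 k32 3 (.s k18 k33 4 (.s k17 k19 0 (.d k34 k50
  k51 3 4)))))), (.s k1 k2 0 (.s k5 k10 2 (.s k7 k11 1 (.s k6 k4 0 (.d k9 k13 k12 1 2)))))] (.c k47
  (.l (.s k175 k143 3 (.s k5 k10 2 (.s k165 k245 11 (.s k160 k170 2 (.d k240 k90 k80 14 11)))))) (.c
  k175 (.q k47 [(.s k1 k2 0 (.s k5 k10 2 (.s k7 k11 1 (.s k6 k4 0 (.d k9 k13 k12 1 2))))), (.s k2 k1
  0 (.s k16 k154 10 (.s k48 k32 3 (.s k18 k33 4 (.s k17 k19 0 (.d k34 k50 k51 3 4)))))), (.s k5 k10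
  2 (.s k7 k11 1 (.s k165 k245 11 (.s k86 k244 12 (.s k84 k87 0 (.d k252 k168 k169 13 14))))))] .n)
  .n))) (.c k175 (.q k47 [(.s k5 k10 2 (.s k95 k31 7 (.s k90 k80 2 (.d k165 k245 k240 11 14)))), (.s
  k16 k154 10 (.s k48 k32 3 (.s k26 k37 6 (.d k31 k95 k21 7 2))))] (.c k31 (.l (.s k1 k2 0 (.s k5
  k10 2 (.s k7 k11 1 (.s k6 k4 0 (.d k9 k13 k12 1 2)))))) (.c k79 (.l (.s k95 k31 7 (.s k5 k10 2 (.s
  k90 k80 2 (.d k165 k245 k240 11 14))))) (.c k95 (.q k79 [(.s k1 k2 0 (.s k5 k10 2 (.s k7 k11 1 (.s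
  k6 k4 0 (.d k9 k13 k12 1 2))))), (.s k2 k1 0 (.s k16 k154 10 (.s k48 k32 3 (.s k18 k33 4 (.s k17
  k19 0 (.d k34 k50 k51 3 4)))))), (.s k5 k10 2 (.s k7 k11 1 (.s k165 k245 11 (.s k86 k244 12 (.s
  k84 k87 0 (.d k252 k168 k169 13 14))))))] .n) .n)))) .n)))))) (.c k175 (.q k47 [(.s k5 k10 2 (.s
  k95 k31 7 (.s k90 k80 2 (.d k165 k245 k240 11 14)))), (.s k16 k154 10 (.s k31 k95 7 (.s k26 k21 2
  (.d k48 k32 k37 3 6)))), (.s k1 k2 0 (.s k5 k10 2 (.s k7 k11 1 (.s k6 k4 0 (.d k9 k13 k12 1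
  2)))))] (.c k127 (.q k191 [(.s k5 k10 2 (.s k95 k31 7 (.s k90 k80 2 (.d k165 k245 k240 11 14)))),
  (.s k16 k154 10 (.s k48 k32 3 (.s k26 k37 6 (.d k31 k95 k21 7 2))))] (.c k31 (.l (.s k1 k2 0 (.s
  k5 k10 2 (.s k7 k11 1 (.s k6 k4 0 (.d k9 k13 k12 1 2)))))) (.c k79 (.l (.s k95 k31 7 (.s k5 k10 2
  (.s k90 k80 2 (.d k165 k245 k240 11 14))))) (.c k95 (.q k79 [(.s k1 k2 0 (.s k5 k10 2 (.s k7 k11 1
  (.s k6 k4 0 (.d k9 k13 k12 1 2))))), (.s k2 k1 0 (.s k16 k154 10 (.s k48 k32 3 (.s k18 k33 4 (.s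
  k17 k19 0 (.d k34 k50 k51 3 4)))))), (.s k5 k10 2 (.s k7 k11 1 (.s k165 k245 11 (.s k86 k244 12
  (.s k84 k87 0 (.d k252 k168 k169 13 14))))))] .n) .n)))) (.c k191 (.q k127 [(.s k5 k10 2 (.s k106
  k64 6 (.d k165 k224 k245 10 11))), (.s k16 k154 10 (.s k31 k95 7 (.s k26 k21 2 (.d k48 k32 k37 3
  6))))] .n) .n))) (.c k191 (.q k127 [(.s k5 k10 2 (.s k95 k31 7 (.s k90 k80 2 (.d k165 k245 k240 11
  14)))), (.s k16 k154 10 (.s k31 k95 7 (.s k26 k21 2 (.d k48 k32 k37 3 6)))), (.s k1 k2 0 (.s k5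
  k10 2 (.s k7 k11 1 (.s k6 k4 0 (.d k9 k13 k12 1 2)))))] (.c k47 (.q k175 [(.s k5 k10 2 (.s k95 k31
  7 (.s k90 k80 2 (.d k165 k245 k240 11 14)))), (.s k16 k154 10 (.s k31 k95 7 (.s k26 k21 2 (.d k48
  k32 k37 3 6)))), (.s k5 k10 2 (.s k165 k245 11 (.s k160 k170 2 (.d k240 k90 k80 14 11))))] .n) (.c
  k175 (.q k47 [(.s k5 k10 2 (.s k106 k64 6 (.d k165 k224 k245 10 11))), (.s k16 k154 10 (.s k31 k95
  7 (.s k26 k21 2 (.d k48 k32 k37 3 6))))] .n) .n))) .n))))) .n))))) (.c k127 (.q k191 [(.s k1 k2 0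
  (.s k5 k10 2 (.s k7 k11 1 (.s k6 k4 0 (.d k9 k13 k12 1 2))))), (.s k1 k2 0 (.s k11 k7 1 (.s k169
  k253 13 (.s k90 k248 12 (.s k80 k95 2 (.d k240 k160 k165 11 14)))))), (.s k5 k10 2 (.s k7 k11 1
  (.s k165 k245 11 (.s k86 k244 12 (.s k84 k87 0 (.d k252 k168 k169 13 14)))))), (.s k1 k2 0 (.s k5
  k10 2 (.s k165 k245 11 (.s k169 k253 13 (.s k161 k173 1 (.d k240 k82 k90 12 14))))))] (.c k111 (.q
  k159 [(.s k5 k10 2 (.s k165 k245 11 (.s k175 k143 3 (.s k160 k170 2 (.d k240 k90 k80 14 11))))),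
  (.s k1 k2 0 (.s k5 k10 2 (.s k7 k11 1 (.s k6 k4 0 (.d k9 k13 k12 1 2))))), (.s k1 k2 0 (.s k11 k7
  1 (.s k169 k253 13 (.s k90 k248 12 (.s k240 k165 14 (.d k80 k95 k160 2 11))))))] (.c k79 (.q k95
  [(.s k5 k10 2 (.s k90 k80 2 (.d k165 k245 k240 11 14))), (.s k1 k2 0 (.s k11 k7 1 (.s k90 k80 2
  (.d k169 k248 k253 12 13)))), (.s k1 k2 0 (.s k5 k10 2 (.s k7 k11 1 (.s k6 k4 0 (.d k9 k13 k12 1
  2)))))] (.c k223 (.q k239 [(.s k5 k10 2 (.s k90 k80 2 (.d k165 k245 k240 11 14))), (.s k1 k2 0 (.s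
  k11 k7 1 (.s k90 k80 2 (.d k169 k248 k253 12 13)))), (.s k1 k2 0 (.s k5 k10 2 (.s k7 k11 1 (.s k6
  k4 0 (.d k9 k13 k12 1 2)))))] .n) (.c k239 (.l (.s k223 k31 7 (.s k5 k10 2 (.s k90 k80 2 (.d k165
  k245 k240 11 14))))) .n))) (.c k95 (.q k79 [(.s k5 k10 2 (.s k165 k245 11 (.s k175 k143 3 (.s k160
  k170 2 (.d k240 k90 k80 14 11))))), (.s k1 k2 0 (.s k5 k10 2 (.s k7 k11 1 (.s k6 k4 0 (.d k9 k13
  k12 1 2))))), (.s k1 k2 0 (.s k11 k7 1 (.s k169 k253 13 (.s k90 k248 12 (.s k165 k240 14 (.s k173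
  k161 1 (.d k252 k94 k86 12 14)))))))] (.c k223 (.q k239 [(.s k5 k10 2 (.s k165 k245 11 (.s k175
  k143 3 (.s k160 k170 2 (.d k240 k90 k80 14 11))))), (.s k1 k2 0 (.s k5 k10 2 (.s k7 k11 1 (.s k6
  k4 0 (.d k9 k13 k12 1 2))))), (.s k1 k2 0 (.s k11 k7 1 (.s k169 k253 13 (.s k90 k248 12 (.s k165
  k240 14 (.s k173 k161 1 (.d k252 k94 k86 12 14)))))))] .n) (.c k239 (.q k223 [(.s k5 k10 2 (.s
  k154 k16 10 (.s k165 k245 11 (.d k143 k175 k176 3 6)))), (.s k2 k1 0 (.s k16 k154 10 (.s k48 k32 3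
  (.s k18 k33 4 (.s k17 k19 0 (.d k34 k50 k51 3 4)))))), (.s k1 k2 0 (.s k5 k10 2 (.s k7 k11 1 (.s
  k6 k4 0 (.d k9 k13 k12 1 2)))))] (.c k47 (.l (.s k175 k143 3 (.s k5 k10 2 (.s k165 k245 11 (.s
  k160 k170 2 (.d k240 k90 k80 14 11)))))) (.c k175 (.q k47 [(.s k1 k2 0 (.s k5 k10 2 (.s k7 k11 1
  (.s k6 k4 0 (.d k9 k13 k12 1 2))))), (.s k2 k1 0 (.s k16 k154 10 (.s k48 k32 3 (.s k18 k33 4 (.s
  k17 k19 0 (.d k34 k50 k51 3 4)))))), (.s k5 k10 2 (.s k7 k11 1 (.s k165 k245 11 (.s k86 k244 12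
  (.s k84 k87 0 (.d k252 k168 k169 13 14))))))] .n) .n))) .n))) (.c k223 (.q k239 [(.s k5 k10 2 (.s
  k165 k245 11 (.s k175 k143 3 (.s k160 k170 2 (.d k240 k90 k80 14 11))))), (.s k1 k2 0 (.s k5 k10 2
  (.s k7 k11 1 (.s k6 k4 0 (.d k9 k13 k12 1 2))))), (.s k1 k2 0 (.s k11 k7 1 (.s k169 k253 13 (.s
  k90 k248 12 (.s k240 k165 14 (.d k80 k95 k160 2 11))))))] (.c k79 (.q k95 [(.s k5 k10 2 (.s k90
  k80 2 (.d k165 k245 k240 11 14))), (.s k1 k2 0 (.s k11 k7 1 (.s k90 k80 2 (.d k169 k248 k253 12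
  13)))), (.s k1 k2 0 (.s k5 k10 2 (.s k7 k11 1 (.s k6 k4 0 (.d k9 k13 k12 1 2)))))] .n) (.c k95 (.q
  k79 [(.s k5 k10 2 (.s k165 k245 11 (.s k175 k143 3 (.s k160 k170 2 (.d k240 k90 k80 14 11))))),
  (.s k1 k2 0 (.s k5 k10 2 (.s k7 k11 1 (.s k6 k4 0 (.d k9 k13 k12 1 2))))), (.s k1 k2 0 (.s k11 k7
  1 (.s k169 k253 13 (.s k90 k248 12 (.s k165 k240 14 (.s k173 k161 1 (.d k252 k94 k86 12 14)))))))]
  .n) .n))) (.c k239 (.q k223 [(.s k5 k10 2 (.s k95 k31 7 (.s k90 k80 2 (.d k165 k245 k240 11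
  14)))), (.s k16 k154 10 (.s k48 k32 3 (.s k26 k37 6 (.d k31 k95 k21 7 2))))] (.c k31 (.l (.s k5
  k10 2 (.s k154 k16 10 (.s k165 k245 11 (.d k143 k175 k176 3 6))))) (.c k47 (.l (.s k175 k143 3 (.s
  k5 k10 2 (.s k95 k31 7 (.s k90 k80 2 (.d k165 k245 k240 11 14)))))) (.c k79 (.l (.s k95 k31 7 (.s
  k5 k10 2 (.s k90 k80 2 (.d k165 k245 k240 11 14))))) (.c k95 (.q k79 [(.s k5 k10 2 (.s k154 k16 10
  (.s k165 k245 11 (.d k143 k175 k176 3 6)))), (.s k2 k1 0 (.s k16 k154 10 (.s k48 k32 3 (.s k18 k33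
  4 (.s k17 k19 0 (.d k34 k50 k51 3 4)))))), (.s k1 k2 0 (.s k5 k10 2 (.s k7 k11 1 (.s k6 k4 0 (.d
  k9 k13 k12 1 2)))))] (.c k47 (.l (.s k175 k143 3 (.s k5 k10 2 (.s k165 k245 11 (.s k160 k170 2 (.d
  k240 k90 k80 14 11)))))) (.c k175 (.q k47 [(.s k1 k2 0 (.s k5 k10 2 (.s k7 k11 1 (.s k6 k4 0 (.d
  k9 k13 k12 1 2))))), (.s k2 k1 0 (.s k16 k154 10 (.s k48 k32 3 (.s k18 k33 4 (.s k17 k19 0 (.d k34
  k50 k51 3 4)))))), (.s k5 k10 2 (.s k7 k11 1 (.s k165 k245 11 (.s k86 k244 12 (.s k84 k87 0 (.d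
  k252 k168 k169 13 14))))))] .n) .n))) (.c k175 (.q k47 [(.s k5 k10 2 (.s k95 k31 7 (.s k90 k80 2
  (.d k165 k245 k240 11 14)))), (.s k16 k154 10 (.s k48 k32 3 (.s k26 k37 6 (.d k31 k95 k21 7 2))))]
  (.c k31 (.l (.s k1 k2 0 (.s k5 k10 2 (.s k7 k11 1 (.s k6 k4 0 (.d k9 k13 k12 1 2)))))) (.c k79 (.l
  (.s k95 k31 7 (.s k5 k10 2 (.s k90 k80 2 (.d k165 k245 k240 11 14))))) (.c k95 (.q k79 [(.s k1 k2
  0 (.s k5 k10 2 (.s k7 k11 1 (.s k6 k4 0 (.d k9 k13 k12 1 2))))), (.s k2 k1 0 (.s k16 k154 10 (.s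
  k48 k32 3 (.s k18 k33 4 (.s k17 k19 0 (.d k34 k50 k51 3 4)))))), (.s k5 k10 2 (.s k7 k11 1 (.s
  k165 k245 11 (.s k86 k244 12 (.s k84 k87 0 (.d k252 k168 k169 13 14))))))] .n) .n)))) .n))))))
  .n))))) (.c k159 (.q k111 [(.s k1 k2 0 (.s k5 k10 2 (.s k7 k11 1 (.s k6 k4 0 (.d k9 k13 k12 1
  2))))), (.s k1 k2 0 (.s k11 k7 1 (.s k169 k253 13 (.s k90 k248 12 (.s k80 k95 2 (.d k240 k160 k165
  11 14)))))), (.s k5 k10 2 (.s k7 k11 1 (.s k165 k245 11 (.s k86 k244 12 (.s k84 k87 0 (.d k252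
  k168 k169 13 14)))))), (.s k1 k2 0 (.s k5 k10 2 (.s k165 k245 11 (.s k169 k253 13 (.s k161 k173 1
  (.d k240 k82 k90 12 14))))))] (.c k223 (.q k239 [(.s k5 k10 2 (.s k165 k245 11 (.s k175 k47 7 (.s
  k160 k170 2 (.d k240 k90 k80 14 11))))), (.s k1 k2 0 (.s k5 k10 2 (.s k7 k11 1 (.s k6 k4 0 (.d k9
  k13 k12 1 2))))), (.s k1 k2 0 (.s k11 k7 1 (.s k169 k253 13 (.s k90 k248 12 (.s k240 k165 14 (.d
  k80 k95 k160 2 11))))))] (.c k31 (.q k95 [(.s k5 k10 2 (.s k90 k80 2 (.d k165 k245 k240 11 14))),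
  (.s k1 k2 0 (.s k11 k7 1 (.s k90 k80 2 (.d k169 k248 k253 12 13)))), (.s k1 k2 0 (.s k5 k10 2 (.s
  k7 k11 1 (.s k6 k4 0 (.d k9 k13 k12 1 2)))))] .n) (.c k95 (.q k31 [(.s k5 k10 2 (.s k165 k245 11
  (.s k175 k47 7 (.s k160 k170 2 (.d k240 k90 k80 14 11))))), (.s k1 k2 0 (.s k5 k10 2 (.s k7 k11 1
  (.s k6 k4 0 (.d k9 k13 k12 1 2))))), (.s k1 k2 0 (.s k11 k7 1 (.s k169 k253 13 (.s k90 k248 12 (.s
  k165 k240 14 (.s k173 k161 1 (.d k252 k94 k86 12 14)))))))] .n) .n))) (.c k239 (.q k223 [(.s k1 k2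
  0 (.s k5 k10 2 (.s k7 k11 1 (.s k6 k4 0 (.d k9 k13 k12 1 2))))), (.s k1 k2 0 (.s k11 k7 1 (.s k169
  k253 13 (.s k90 k248 12 (.s k80 k95 2 (.d k240 k160 k165 11 14)))))), (.s k5 k10 2 (.s k7 k11 1
  (.s k165 k245 11 (.s k86 k244 12 (.s k84 k87 0 (.d k252 k168 k169 13 14)))))), (.s k1 k2 0 (.s k5
  k10 2 (.s k165 k245 11 (.s k169 k253 13 (.s k161 k173 1 (.d k240 k82 k90 12 14))))))] .n) .n)))
  (.c k223 (.q k239 [(.s k1 k2 0 (.s k5 k10 2 (.s k7 k11 1 (.s k6 k4 0 (.d k9 k13 k12 1 2))))), (.s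
  k1 k2 0 (.s k11 k7 1 (.s k169 k253 13 (.s k90 k248 12 (.s k80 k95 2 (.d k240 k160 k165 11
  14)))))), (.s k5 k10 2 (.s k7 k11 1 (.s k165 k245 11 (.s k86 k244 12 (.s k84 k87 0 (.d k252 k168
  k169 13 14)))))), (.s k1 k2 0 (.s k5 k10 2 (.s k165 k245 11 (.s k169 k253 13 (.s k161 k173 1 (.d
  k240 k82 k90 12 14))))))] (.c k111 (.q k159 [(.s k5 k10 2 (.s k165 k245 11 (.s k175 k143 3 (.s
  k160 k170 2 (.d k240 k90 k80 14 11))))), (.s k1 k2 0 (.s k5 k10 2 (.s k7 k11 1 (.s k6 k4 0 (.d k9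
  k13 k12 1 2))))), (.s k1 k2 0 (.s k11 k7 1 (.s k169 k253 13 (.s k90 k248 12 (.s k240 k165 14 (.d
  k80 k95 k160 2 11))))))] (.c k79 (.q k95 [(.s k5 k10 2 (.s k90 k80 2 (.d k165 k245 k240 11 14))),
  (.s k1 k2 0 (.s k11 k7 1 (.s k90 k80 2 (.d k169 k248 k253 12 13)))), (.s k1 k2 0 (.s k5 k10 2 (.s
  k7 k11 1 (.s k6 k4 0 (.d k9 k13 k12 1 2)))))] .n) (.c k95 (.q k79 [(.s k5 k10 2 (.s k165 k245 11
  (.s k175 k143 3 (.s k160 k170 2 (.d k240 k90 k80 14 11))))), (.s k1 k2 0 (.s k5 k10 2 (.s k7 k11 1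
  (.s k6 k4 0 (.d k9 k13 k12 1 2))))), (.s k1 k2 0 (.s k11 k7 1 (.s k169 k253 13 (.s k90 k248 12 (.s
  k165 k240 14 (.s k173 k161 1 (.d k252 k94 k86 12 14)))))))] .n) .n))) (.c k159 (.q k111 [(.s k5
  k10 2 (.s k165 k245 11 (.s k175 k47 7 (.s k160 k170 2 (.d k240 k90 k80 14 11))))), (.s k1 k2 0 (.s
  k5 k10 2 (.s k7 k11 1 (.s k6 k4 0 (.d k9 k13 k12 1 2))))), (.s k1 k2 0 (.s k11 k7 1 (.s k169 k253
  13 (.s k90 k248 12 (.s k240 k165 14 (.d k80 k95 k160 2 11))))))] (.c k31 (.q k95 [(.s k5 k10 2 (.s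
  k90 k80 2 (.d k165 k245 k240 11 14))), (.s k1 k2 0 (.s k11 k7 1 (.s k90 k80 2 (.d k169 k248 k253
  12 13)))), (.s k1 k2 0 (.s k5 k10 2 (.s k7 k11 1 (.s k6 k4 0 (.d k9 k13 k12 1 2)))))] .n) (.c k95
  (.q k31 [(.s k5 k10 2 (.s k165 k245 11 (.s k175 k47 7 (.s k160 k170 2 (.d k240 k90 k80 14 11))))),
  (.s k1 k2 0 (.s k5 k10 2 (.s k7 k11 1 (.s k6 k4 0 (.d k9 k13 k12 1 2))))), (.s k1 k2 0 (.s k11 k7
  1 (.s k169 k253 13 (.s k90 k248 12 (.s k165 k240 14 (.s k173 k161 1 (.d k252 k94 k86 12 14)))))))]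
  .n) .n))) .n))) (.c k239 (.q k223 [(.s k1 k2 0 (.s k5 k10 2 (.s k7 k11 1 (.s k6 k4 0 (.d k9 k13
  k12 1 2))))), (.s k1 k2 0 (.s k11 k7 1 (.s k169 k253 13 (.s k90 k248 12 (.s k80 k95 2 (.d k240
  k160 k165 11 14)))))), (.s k5 k10 2 (.s k7 k11 1 (.s k165 k245 11 (.s k86 k244 12 (.s k84 k87 0
  (.d k252 k168 k169 13 14)))))), (.s k1 k2 0 (.s k5 k10 2 (.s k165 k245 11 (.s k169 k253 13 (.s
  k161 k173 1 (.d k240 k82 k90 12 14))))))] (.c k111 (.q k159 [(.s k5 k10 2 (.s k95 k31 7 (.s k90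
  k80 2 (.d k165 k245 k240 11 14)))), (.s k16 k154 10 (.s k48 k32 3 (.s k26 k37 6 (.d k31 k95 k21 7
  2))))] (.c k31 (.l (.s k5 k10 2 (.s k154 k16 10 (.s k165 k245 11 (.d k143 k175 k176 3 6))))) (.c
  k47 (.l (.s k175 k143 3 (.s k5 k10 2 (.s k95 k31 7 (.s k90 k80 2 (.d k165 k245 k240 11 14))))))
  (.c k79 (.l (.s k95 k31 7 (.s k5 k10 2 (.s k90 k80 2 (.d k165 k245 k240 11 14))))) (.c k95 (.q k79
  [(.s k5 k10 2 (.s k154 k16 10 (.s k165 k245 11 (.d k143 k175 k176 3 6)))), (.s k2 k1 0 (.s k16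
  k154 10 (.s k48 k32 3 (.s k18 k33 4 (.s k17 k19 0 (.d k34 k50 k51 3 4)))))), (.s k1 k2 0 (.s k5
  k10 2 (.s k7 k11 1 (.s k6 k4 0 (.d k9 k13 k12 1 2)))))] (.c k47 (.l (.s k175 k143 3 (.s k5 k10 2
  (.s k165 k245 11 (.s k160 k170 2 (.d k240 k90 k80 14 11)))))) (.c k175 (.q k47 [(.s k1 k2 0 (.s k5
  k10 2 (.s k7 k11 1 (.s k6 k4 0 (.d k9 k13 k12 1 2))))), (.s k2 k1 0 (.s k16 k154 10 (.s k48 k32 3
  (.s k18 k33 4 (.s k17 k19 0 (.d k34 k50 k51 3 4)))))), (.s k5 k10 2 (.s k7 k11 1 (.s k165 k245 11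
  (.s k86 k244 12 (.s k84 k87 0 (.d k252 k168 k169 13 14))))))] .n) .n))) (.c k175 (.q k47 [(.s k5
  k10 2 (.s k95 k31 7 (.s k90 k80 2 (.d k165 k245 k240 11 14)))), (.s k16 k154 10 (.s k48 k32 3 (.s
  k26 k37 6 (.d k31 k95 k21 7 2))))] (.c k31 (.l (.s k1 k2 0 (.s k5 k10 2 (.s k7 k11 1 (.s k6 k4 0
  (.d k9 k13 k12 1 2)))))) (.c k79 (.l (.s k95 k31 7 (.s k5 k10 2 (.s k90 k80 2 (.d k165 k245 k240
  11 14))))) (.c k95 (.q k79 [(.s k1 k2 0 (.s k5 k10 2 (.s k7 k11 1 (.s k6 k4 0 (.d k9 k13 k12 1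
  2))))), (.s k2 k1 0 (.s k16 k154 10 (.s k48 k32 3 (.s k18 k33 4 (.s k17 k19 0 (.d k34 k50 k51 3
  4)))))), (.s k5 k10 2 (.s k7 k11 1 (.s k165 k245 11 (.s k86 k244 12 (.s k84 k87 0 (.d k252 k168
  k169 13 14))))))] .n) .n)))) .n)))))) (.c k159 (.q k111 [(.s k1 k2 0 (.s k5 k10 2 (.s k7 k11 1 (.s
  k6 k4 0 (.d k9 k13 k12 1 2))))), (.s k1 k2 0 (.s k11 k7 1 (.s k169 k253 13 (.s k90 k248 12 (.s k80
  k95 2 (.d k240 k160 k165 11 14)))))), (.s k5 k10 2 (.s k7 k11 1 (.s k165 k245 11 (.s k86 k244 12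
  (.s k84 k87 0 (.d k252 k168 k169 13 14)))))), (.s k1 k2 0 (.s k5 k10 2 (.s k165 k245 11 (.s k169
  k253 13 (.s k161 k173 1 (.d k240 k82 k90 12 14))))))] .n) .n))) .n))))) (.c k159 (.q k111 [(.s k1
  k2 0 (.s k5 k10 2 (.s k7 k11 1 (.s k6 k4 0 (.d k9 k13 k12 1 2))))), (.s k1 k2 0 (.s k11 k7 1 (.s
  k169 k253 13 (.s k90 k248 12 (.s k80 k95 2 (.d k240 k160 k165 11 14)))))), (.s k5 k10 2 (.s k7 k11
  1 (.s k165 k245 11 (.s k86 k244 12 (.s k84 k87 0 (.d k252 k168 k169 13 14)))))), (.s k1 k2 0 (.s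
  k5 k10 2 (.s k165 k245 11 (.s k169 k253 13 (.s k161 k173 1 (.d k240 k82 k90 12 14))))))] (.c k127
  (.q k191 [(.s k1 k2 0 (.s k5 k10 2 (.s k7 k11 1 (.s k6 k4 0 (.d k9 k13 k12 1 2))))), (.s k1 k2 0
  (.s k11 k7 1 (.s k169 k253 13 (.s k90 k248 12 (.s k80 k95 2 (.d k240 k160 k165 11 14)))))), (.s k5
  k10 2 (.s k7 k11 1 (.s k165 k245 11 (.s k86 k244 12 (.s k84 k87 0 (.d k252 k168 k169 13 14)))))),
  (.s k1 k2 0 (.s k5 k10 2 (.s k165 k245 11 (.s k169 k253 13 (.s k161 k173 1 (.d k240 k82 k90 12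
  14))))))] (.c k223 (.q k239 [(.s k5 k10 2 (.s k165 k245 11 (.s k175 k47 7 (.s k160 k170 2 (.d k240
  k90 k80 14 11))))), (.s k1 k2 0 (.s k5 k10 2 (.s k7 k11 1 (.s k6 k4 0 (.d k9 k13 k12 1 2))))), (.s
  k1 k2 0 (.s k11 k7 1 (.s k169 k253 13 (.s k90 k248 12 (.s k240 k165 14 (.d k80 k95 k160 2
  11))))))] (.c k31 (.q k95 [(.s k5 k10 2 (.s k90 k80 2 (.d k165 k245 k240 11 14))), (.s k1 k2 0 (.s
  k11 k7 1 (.s k90 k80 2 (.d k169 k248 k253 12 13)))), (.s k1 k2 0 (.s k5 k10 2 (.s k7 k11 1 (.s k6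
  k4 0 (.d k9 k13 k12 1 2)))))] .n) (.c k95 (.q k31 [(.s k5 k10 2 (.s k165 k245 11 (.s k175 k47 7
  (.s k160 k170 2 (.d k240 k90 k80 14 11))))), (.s k1 k2 0 (.s k5 k10 2 (.s k7 k11 1 (.s k6 k4 0 (.d
  k9 k13 k12 1 2))))), (.s k1 k2 0 (.s k11 k7 1 (.s k169 k253 13 (.s k90 k248 12 (.s k165 k240 14
  (.s k173 k161 1 (.d k252 k94 k86 12 14)))))))] .n) .n))) (.c k239 (.q k223 [(.s k1 k2 0 (.s k5 k10
  2 (.s k7 k11 1 (.s k6 k4 0 (.d k9 k13 k12 1 2))))), (.s k1 k2 0 (.s k11 k7 1 (.s k169 k253 13 (.s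
  k90 k248 12 (.s k80 k95 2 (.d k240 k160 k165 11 14)))))), (.s k5 k10 2 (.s k7 k11 1 (.s k165 k245
  11 (.s k86 k244 12 (.s k84 k87 0 (.d k252 k168 k169 13 14)))))), (.s k1 k2 0 (.s k5 k10 2 (.s k165
  k245 11 (.s k169 k253 13 (.s k161 k173 1 (.d k240 k82 k90 12 14))))))] .n) .n))) (.c k191 (.q k127
  [(.s k5 k10 2 (.s k95 k79 3 (.s k90 k80 2 (.d k165 k245 k240 11 14)))), (.s k64 k106 6 (.s k79 k95
  3 (.s k74 k69 2 (.d k192 k128 k133 7 10)))), (.s k1 k2 0 (.s k5 k10 2 (.s k7 k11 1 (.s k6 k4 0 (.d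
  k9 k13 k12 1 2)))))] (.c k143 (.q k175 [(.s k5 k10 2 (.s k95 k79 3 (.s k90 k80 2 (.d k165 k245
  k240 11 14)))), (.s k64 k106 6 (.s k79 k95 3 (.s k74 k69 2 (.d k192 k128 k133 7 10)))), (.s k5 k10
  2 (.s k106 k64 6 (.s k165 k245 11 (.d k47 k239 k224 7 10))))] (.c k223 (.l (.s k239 k47 7 (.s k5
  k10 2 (.s k95 k79 3 (.s k90 k80 2 (.d k165 k245 k240 11 14)))))) (.c k239 (.q k223 [(.s k5 k10 2
  (.s k95 k79 3 (.s k90 k80 2 (.d k165 k245 k240 11 14)))), (.s k64 k106 6 (.s k79 k95 3 (.s k74 k69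
  2 (.d k192 k128 k133 7 10)))), (.s k5 k10 2 (.s k165 k245 11 (.s k160 k170 2 (.d k240 k90 k80 14
  11))))] .n) .n))) (.c k175 (.q k143 [(.s k5 k10 2 (.s k95 k79 3 (.s k90 k80 2 (.d k165 k245 k240
  11 14)))), (.s k64 k106 6 (.s k79 k95 3 (.s k74 k69 2 (.d k192 k128 k133 7 10)))), (.s k1 k2 0 (.s
  k5 k10 2 (.s k7 k11 1 (.s k6 k4 0 (.d k9 k13 k12 1 2)))))] (.c k223 (.q k239 [(.s k5 k10 2 (.s k95
  k79 3 (.s k90 k80 2 (.d k165 k245 k240 11 14)))), (.s k64 k106 6 (.s k192 k128 7 (.s k74 k133 10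
  (.d k79 k95 k69 3 2))))] (.c k31 (.l (.s k95 k79 3 (.s k5 k10 2 (.s k90 k80 2 (.d k165 k245 k240
  11 14))))) (.c k79 (.l (.s k1 k2 0 (.s k5 k10 2 (.s k7 k11 1 (.s k6 k4 0 (.d k9 k13 k12 1 2))))))
  (.c k95 (.q k31 [(.s k1 k2 0 (.s k5 k10 2 (.s k7 k11 1 (.s k6 k4 0 (.d k9 k13 k12 1 2))))), (.s k2
  k1 0 (.s k64 k106 6 (.s k192 k128 7 (.s k66 k129 8 (.s k65 k67 0 (.d k130 k194 k195 7 8)))))), (.s
  k5 k10 2 (.s k7 k11 1 (.s k165 k245 11 (.s k86 k244 12 (.s k84 k87 0 (.d k252 k168 k169 13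
  14))))))] .n) .n)))) (.c k239 (.q k223 [(.s k5 k10 2 (.s k154 k16 10 (.d k165 k176 k245 6 11))),
  (.s k64 k106 6 (.s k79 k95 3 (.s k74 k69 2 (.d k192 k128 k133 7 10))))] .n) .n))) (.c k223 (.q
  k239 [(.s k5 k10 2 (.s k95 k79 3 (.s k90 k80 2 (.d k165 k245 k240 11 14)))), (.s k64 k106 6 (.s
  k192 k128 7 (.s k74 k133 10 (.d k79 k95 k69 3 2))))] (.c k31 (.l (.s k95 k79 3 (.s k5 k10 2 (.s
  k90 k80 2 (.d k165 k245 k240 11 14))))) (.c k79 (.l (.s k5 k10 2 (.s k106 k64 6 (.s k165 k245 11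
  (.d k47 k175 k224 7 10))))) (.c k95 (.q k31 [(.s k5 k10 2 (.s k106 k64 6 (.s k165 k245 11 (.d k47
  k175 k224 7 10)))), (.s k2 k1 0 (.s k64 k106 6 (.s k192 k128 7 (.s k66 k129 8 (.s k65 k67 0 (.d
  k130 k194 k195 7 8)))))), (.s k1 k2 0 (.s k5 k10 2 (.s k7 k11 1 (.s k6 k4 0 (.d k9 k13 k12 1
  2)))))] (.c k143 (.l (.s k175 k47 7 (.s k5 k10 2 (.s k165 k245 11 (.s k160 k170 2 (.d k240 k90 k80
  14 11)))))) (.c k175 (.q k143 [(.s k1 k2 0 (.s k5 k10 2 (.s k7 k11 1 (.s k6 k4 0 (.d k9 k13 k12 1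
  2))))), (.s k2 k1 0 (.s k64 k106 6 (.s k192 k128 7 (.s k66 k129 8 (.s k65 k67 0 (.d k130 k194 k195
  7 8)))))), (.s k5 k10 2 (.s k7 k11 1 (.s k165 k245 11 (.s k86 k244 12 (.s k84 k87 0 (.d k252 k168
  k169 13 14))))))] .n) .n))) (.c k143 (.l (.s k175 k47 7 (.s k5 k10 2 (.s k95 k79 3 (.s k90 k80 2
  (.d k165 k245 k240 11 14)))))) (.c k175 (.q k143 [(.s k5 k10 2 (.s k95 k79 3 (.s k90 k80 2 (.d
  k165 k245 k240 11 14)))), (.s k64 k106 6 (.s k192 k128 7 (.s k74 k133 10 (.d k79 k95 k69 3 2))))]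
  (.c k31 (.l (.s k95 k79 3 (.s k5 k10 2 (.s k90 k80 2 (.d k165 k245 k240 11 14))))) (.c k79 (.l (.s
  k1 k2 0 (.s k5 k10 2 (.s k7 k11 1 (.s k6 k4 0 (.d k9 k13 k12 1 2)))))) (.c k95 (.q k31 [(.s k1 k2
  0 (.s k5 k10 2 (.s k7 k11 1 (.s k6 k4 0 (.d k9 k13 k12 1 2))))), (.s k2 k1 0 (.s k64 k106 6 (.s
  k192 k128 7 (.s k66 k129 8 (.s k65 k67 0 (.d k130 k194 k195 7 8)))))), (.s k5 k10 2 (.s k7 k11 1
  (.s k165 k245 11 (.s k86 k244 12 (.s k84 k87 0 (.d k252 k168 k169 13 14))))))] .n) .n)))) .n))))))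
  (.c k239 (.q k223 [(.s k5 k10 2 (.s k95 k79 3 (.s k90 k80 2 (.d k165 k245 k240 11 14)))), (.s k64
  k106 6 (.s k79 k95 3 (.s k74 k69 2 (.d k192 k128 k133 7 10)))), (.s k1 k2 0 (.s k5 k10 2 (.s k7
  k11 1 (.s k6 k4 0 (.d k9 k13 k12 1 2)))))] (.c k143 (.q k175 [(.s k5 k10 2 (.s k95 k79 3 (.s k90
  k80 2 (.d k165 k245 k240 11 14)))), (.s k64 k106 6 (.s k79 k95 3 (.s k74 k69 2 (.d k192 k128 k133
  7 10)))), (.s k5 k10 2 (.s k165 k245 11 (.s k160 k170 2 (.d k240 k90 k80 14 11))))] .n) (.c k175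
  (.q k143 [(.s k5 k10 2 (.s k154 k16 10 (.d k165 k176 k245 6 11))), (.s k64 k106 6 (.s k79 k95 3
  (.s k74 k69 2 (.d k192 k128 k133 7 10))))] .n) .n))) .n))))) (.c k223 (.q k239 [(.s k5 k10 2 (.s
  k165 k245 11 (.s k175 k47 7 (.s k160 k170 2 (.d k240 k90 k80 14 11))))), (.s k1 k2 0 (.s k5 k10 2
  (.s k7 k11 1 (.s k6 k4 0 (.d k9 k13 k12 1 2))))), (.s k1 k2 0 (.s k11 k7 1 (.s k169 k253 13 (.s
  k90 k248 12 (.s k240 k165 14 (.d k80 k95 k160 2 11))))))] (.c k31 (.q k95 [(.s k5 k10 2 (.s k90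
  k80 2 (.d k165 k245 k240 11 14))), (.s k1 k2 0 (.s k11 k7 1 (.s k90 k80 2 (.d k169 k248 k253 12
  13)))), (.s k1 k2 0 (.s k5 k10 2 (.s k7 k11 1 (.s k6 k4 0 (.d k9 k13 k12 1 2)))))] (.c k127 (.q
  k191 [(.s k5 k10 2 (.s k90 k80 2 (.d k165 k245 k240 11 14))), (.s k1 k2 0 (.s k11 k7 1 (.s k90 k80
  2 (.d k169 k248 k253 12 13)))), (.s k1 k2 0 (.s k5 k10 2 (.s k7 k11 1 (.s k6 k4 0 (.d k9 k13 k12 1
  2)))))] .n) (.c k191 (.l (.s k127 k79 3 (.s k5 k10 2 (.s k90 k80 2 (.d k165 k245 k240 11 14)))))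
  .n))) (.c k95 (.q k31 [(.s k5 k10 2 (.s k165 k245 11 (.s k175 k47 7 (.s k160 k170 2 (.d k240 k90
  k80 14 11))))), (.s k1 k2 0 (.s k5 k10 2 (.s k7 k11 1 (.s k6 k4 0 (.d k9 k13 k12 1 2))))), (.s k1
  k2 0 (.s k11 k7 1 (.s k169 k253 13 (.s k90 k248 12 (.s k165 k240 14 (.s k173 k161 1 (.d k252 k94
  k86 12 14)))))))] (.c k127 (.q k191 [(.s k5 k10 2 (.s k165 k245 11 (.s k175 k47 7 (.s k160 k170 2
  (.d k240 k90 k80 14 11))))), (.s k1 k2 0 (.s k5 k10 2 (.s k7 k11 1 (.s k6 k4 0 (.d k9 k13 k12 1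
  2))))), (.s k1 k2 0 (.s k11 k7 1 (.s k169 k253 13 (.s k90 k248 12 (.s k165 k240 14 (.s k173 k161 1
  (.d k252 k94 k86 12 14)))))))] .n) (.c k191 (.q k127 [(.s k5 k10 2 (.s k106 k64 6 (.s k165 k245 11
  (.d k47 k175 k224 7 10)))), (.s k2 k1 0 (.s k64 k106 6 (.s k192 k128 7 (.s k66 k129 8 (.s k65 k67
  0 (.d k130 k194 k195 7 8)))))), (.s k1 k2 0 (.s k5 k10 2 (.s k7 k11 1 (.s k6 k4 0 (.d k9 k13 k12 1
  2)))))] (.c k143 (.l (.s k175 k47 7 (.s k5 k10 2 (.s k165 k245 11 (.s k160 k170 2 (.d k240 k90 k80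
  14 11)))))) (.c k175 (.q k143 [(.s k1 k2 0 (.s k5 k10 2 (.s k7 k11 1 (.s k6 k4 0 (.d k9 k13 k12 1
  2))))), (.s k2 k1 0 (.s k64 k106 6 (.s k192 k128 7 (.s k66 k129 8 (.s k65 k67 0 (.d k130 k194 k195
  7 8)))))), (.s k5 k10 2 (.s k7 k11 1 (.s k165 k245 11 (.s k86 k244 12 (.s k84 k87 0 (.d k252 k168
  k169 13 14))))))] .n) .n))) .n))) (.c k127 (.q k191 [(.s k5 k10 2 (.s k165 k245 11 (.s k175 k47 7
  (.s k160 k170 2 (.d k240 k90 k80 14 11))))), (.s k1 k2 0 (.s k5 k10 2 (.s k7 k11 1 (.s k6 k4 0 (.d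
  k9 k13 k12 1 2))))), (.s k1 k2 0 (.s k11 k7 1 (.s k169 k253 13 (.s k90 k248 12 (.s k240 k165 14
  (.d k80 k95 k160 2 11))))))] (.c k31 (.q k95 [(.s k5 k10 2 (.s k90 k80 2 (.d k165 k245 k240 11
  14))), (.s k1 k2 0 (.s k11 k7 1 (.s k90 k80 2 (.d k169 k248 k253 12 13)))), (.s k1 k2 0 (.s k5 k10
  2 (.s k7 k11 1 (.s k6 k4 0 (.d k9 k13 k12 1 2)))))] .n) (.c k95 (.q k31 [(.s k5 k10 2 (.s k165
  k245 11 (.s k175 k47 7 (.s k160 k170 2 (.d k240 k90 k80 14 11))))), (.s k1 k2 0 (.s k5 k10 2 (.s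
  k7 k11 1 (.s k6 k4 0 (.d k9 k13 k12 1 2))))), (.s k1 k2 0 (.s k11 k7 1 (.s k169 k253 13 (.s k90
  k248 12 (.s k165 k240 14 (.s k173 k161 1 (.d k252 k94 k86 12 14)))))))] .n) .n))) (.c k191 (.q
  k127 [(.s k5 k10 2 (.s k95 k79 3 (.s k90 k80 2 (.d k165 k245 k240 11 14)))), (.s k64 k106 6 (.s
  k192 k128 7 (.s k74 k133 10 (.d k79 k95 k69 3 2))))] (.c k31 (.l (.s k95 k79 3 (.s k5 k10 2 (.s
  k90 k80 2 (.d k165 k245 k240 11 14))))) (.c k79 (.l (.s k5 k10 2 (.s k106 k64 6 (.s k165 k245 11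
  (.d k47 k175 k224 7 10))))) (.c k95 (.q k31 [(.s k5 k10 2 (.s k106 k64 6 (.s k165 k245 11 (.d k47
  k175 k224 7 10)))), (.s k2 k1 0 (.s k64 k106 6 (.s k192 k128 7 (.s k66 k129 8 (.s k65 k67 0 (.d
  k130 k194 k195 7 8)))))), (.s k1 k2 0 (.s k5 k10 2 (.s k7 k11 1 (.s k6 k4 0 (.d k9 k13 k12 1
  2)))))] (.c k143 (.l (.s k175 k47 7 (.s k5 k10 2 (.s k165 k245 11 (.s k160 k170 2 (.d k240 k90 k80
  14 11)))))) (.c k175 (.q k143 [(.s k1 k2 0 (.s k5 k10 2 (.s k7 k11 1 (.s k6 k4 0 (.d k9 k13 k12 1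
  2))))), (.s k2 k1 0 (.s k64 k106 6 (.s k192 k128 7 (.s k66 k129 8 (.s k65 k67 0 (.d k130 k194 k195
  7 8)))))), (.s k5 k10 2 (.s k7 k11 1 (.s k165 k245 11 (.s k86 k244 12 (.s k84 k87 0 (.d k252 k168
  k169 13 14))))))] .n) .n))) (.c k143 (.l (.s k175 k47 7 (.s k5 k10 2 (.s k95 k79 3 (.s k90 k80 2
  (.d k165 k245 k240 11 14)))))) (.c k175 (.q k143 [(.s k5 k10 2 (.s k95 k79 3 (.s k90 k80 2 (.d
  k165 k245 k240 11 14)))), (.s k64 k106 6 (.s k192 k128 7 (.s k74 k133 10 (.d k79 k95 k69 3 2))))]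
  (.c k31 (.l (.s k95 k79 3 (.s k5 k10 2 (.s k90 k80 2 (.d k165 k245 k240 11 14))))) (.c k79 (.l (.s
  k1 k2 0 (.s k5 k10 2 (.s k7 k11 1 (.s k6 k4 0 (.d k9 k13 k12 1 2)))))) (.c k95 (.q k31 [(.s k1 k2
  0 (.s k5 k10 2 (.s k7 k11 1 (.s k6 k4 0 (.d k9 k13 k12 1 2))))), (.s k2 k1 0 (.s k64 k106 6 (.s
  k192 k128 7 (.s k66 k129 8 (.s k65 k67 0 (.d k130 k194 k195 7 8)))))), (.s k5 k10 2 (.s k7 k11 1
  (.s k165 k245 11 (.s k86 k244 12 (.s k84 k87 0 (.d k252 k168 k169 13 14))))))] .n) .n)))) .n))))))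
  .n))))) (.c k239 (.q k223 [(.s k1 k2 0 (.s k5 k10 2 (.s k7 k11 1 (.s k6 k4 0 (.d k9 k13 k12 1
  2))))), (.s k1 k2 0 (.s k11 k7 1 (.s k169 k253 13 (.s k90 k248 12 (.s k80 k95 2 (.d k240 k160 k165
  11 14)))))), (.s k5 k10 2 (.s k7 k11 1 (.s k165 k245 11 (.s k86 k244 12 (.s k84 k87 0 (.d k252
  k168 k169 13 14)))))), (.s k1 k2 0 (.s k5 k10 2 (.s k165 k245 11 (.s k169 k253 13 (.s k161 k173 1
  (.d k240 k82 k90 12 14))))))] (.c k127 (.q k191 [(.s k1 k2 0 (.s k5 k10 2 (.s k7 k11 1 (.s k6 k4 0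
  (.d k9 k13 k12 1 2))))), (.s k1 k2 0 (.s k11 k7 1 (.s k169 k253 13 (.s k90 k248 12 (.s k80 k95 2
  (.d k240 k160 k165 11 14)))))), (.s k5 k10 2 (.s k7 k11 1 (.s k165 k245 11 (.s k86 k244 12 (.s k84
  k87 0 (.d k252 k168 k169 13 14)))))), (.s k1 k2 0 (.s k5 k10 2 (.s k165 k245 11 (.s k169 k253 13
  (.s k161 k173 1 (.d k240 k82 k90 12 14))))))] .n) (.c k191 (.q k127 [(.s k5 k10 2 (.s k95 k79 3
  (.s k90 k80 2 (.d k165 k245 k240 11 14)))), (.s k64 k106 6 (.s k79 k95 3 (.s k74 k69 2 (.d k192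
  k128 k133 7 10)))), (.s k1 k2 0 (.s k5 k10 2 (.s k7 k11 1 (.s k6 k4 0 (.d k9 k13 k12 1 2)))))] (.c
  k143 (.q k175 [(.s k5 k10 2 (.s k95 k79 3 (.s k90 k80 2 (.d k165 k245 k240 11 14)))), (.s k64 k106
  6 (.s k79 k95 3 (.s k74 k69 2 (.d k192 k128 k133 7 10)))), (.s k5 k10 2 (.s k165 k245 11 (.s k160
  k170 2 (.d k240 k90 k80 14 11))))] .n) (.c k175 (.q k143 [(.s k5 k10 2 (.s k154 k16 10 (.d k165
  k176 k245 6 11))), (.s k64 k106 6 (.s k79 k95 3 (.s k74 k69 2 (.d k192 k128 k133 7 10))))] .n)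
  .n))) .n))) .n))))) (.c k191 (.q k127 [(.s k1 k2 0 (.s k5 k10 2 (.s k7 k11 1 (.s k6 k4 0 (.d k9
  k13 k12 1 2))))), (.s k1 k2 0 (.s k11 k7 1 (.s k169 k253 13 (.s k90 k248 12 (.s k80 k95 2 (.d k240
  k160 k165 11 14)))))), (.s k5 k10 2 (.s k7 k11 1 (.s k165 k245 11 (.s k86 k244 12 (.s k84 k87 0
  (.d k252 k168 k169 13 14)))))), (.s k1 k2 0 (.s k5 k10 2 (.s k165 k245 11 (.s k169 k253 13 (.s
  k161 k173 1 (.d k240 k82 k90 12 14))))))] (.c k111 (.q k159 [(.s k1 k2 0 (.s k5 k10 2 (.s k7 k11 1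
  (.s k6 k4 0 (.d k9 k13 k12 1 2))))), (.s k1 k2 0 (.s k11 k7 1 (.s k169 k253 13 (.s k90 k248 12 (.s
  k80 k95 2 (.d k240 k160 k165 11 14)))))), (.s k5 k10 2 (.s k7 k11 1 (.s k165 k245 11 (.s k86 k244
  12 (.s k84 k87 0 (.d k252 k168 k169 13 14)))))), (.s k1 k2 0 (.s k5 k10 2 (.s k165 k245 11 (.s
  k169 k253 13 (.s k161 k173 1 (.d k240 k82 k90 12 14))))))] (.c k223 (.q k239 [(.s k1 k2 0 (.s k5
  k10 2 (.s k7 k11 1 (.s k6 k4 0 (.d k9 k13 k12 1 2))))), (.s k1 k2 0 (.s k11 k7 1 (.s k169 k253 13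
  (.s k90 k248 12 (.s k80 k95 2 (.d k240 k160 k165 11 14)))))), (.s k5 k10 2 (.s k7 k11 1 (.s k165
  k245 11 (.s k86 k244 12 (.s k84 k87 0 (.d k252 k168 k169 13 14)))))), (.s k1 k2 0 (.s k5 k10 2 (.s
  k165 k245 11 (.s k169 k253 13 (.s k161 k173 1 (.d k240 k82 k90 12 14))))))] .n) (.c k239 (.q k223
  [(.s k5 k10 2 (.s k95 k31 7 (.s k90 k80 2 (.d k165 k245 k240 11 14)))), (.s k16 k154 10 (.s k31
  k95 7 (.s k26 k21 2 (.d k48 k32 k37 3 6)))), (.s k1 k2 0 (.s k5 k10 2 (.s k7 k11 1 (.s k6 k4 0 (.d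
  k9 k13 k12 1 2)))))] (.c k47 (.q k175 [(.s k5 k10 2 (.s k95 k31 7 (.s k90 k80 2 (.d k165 k245 k240
  11 14)))), (.s k16 k154 10 (.s k31 k95 7 (.s k26 k21 2 (.d k48 k32 k37 3 6)))), (.s k5 k10 2 (.s
  k165 k245 11 (.s k160 k170 2 (.d k240 k90 k80 14 11))))] .n) (.c k175 (.q k47 [(.s k5 k10 2 (.s
  k106 k64 6 (.d k165 k224 k245 10 11))), (.s k16 k154 10 (.s k31 k95 7 (.s k26 k21 2 (.d k48 k32
  k37 3 6))))] .n) .n))) .n))) (.c k159 (.q k111 [(.s k5 k10 2 (.s k95 k79 3 (.s k90 k80 2 (.d k165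
  k245 k240 11 14)))), (.s k64 k106 6 (.s k79 k95 3 (.s k74 k69 2 (.d k192 k128 k133 7 10)))), (.s
  k1 k2 0 (.s k5 k10 2 (.s k7 k11 1 (.s k6 k4 0 (.d k9 k13 k12 1 2)))))] (.c k143 (.q k175 [(.s k5
  k10 2 (.s k95 k79 3 (.s k90 k80 2 (.d k165 k245 k240 11 14)))), (.s k64 k106 6 (.s k79 k95 3 (.s
  k74 k69 2 (.d k192 k128 k133 7 10)))), (.s k5 k10 2 (.s k106 k64 6 (.s k165 k245 11 (.d k47 k239
  k224 7 10))))] (.c k223 (.l (.s k239 k47 7 (.s k5 k10 2 (.s k95 k79 3 (.s k90 k80 2 (.d k165 k245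
  k240 11 14)))))) (.c k239 (.q k223 [(.s k5 k10 2 (.s k95 k79 3 (.s k90 k80 2 (.d k165 k245 k240 11
  14)))), (.s k64 k106 6 (.s k79 k95 3 (.s k74 k69 2 (.d k192 k128 k133 7 10)))), (.s k5 k10 2 (.s
  k165 k245 11 (.s k160 k170 2 (.d k240 k90 k80 14 11))))] .n) .n))) (.c k175 (.q k143 [(.s k5 k10 2
  (.s k95 k79 3 (.s k90 k80 2 (.d k165 k245 k240 11 14)))), (.s k64 k106 6 (.s k79 k95 3 (.s k74 k69
  2 (.d k192 k128 k133 7 10)))), (.s k1 k2 0 (.s k5 k10 2 (.s k7 k11 1 (.s k6 k4 0 (.d k9 k13 k12 1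
  2)))))] (.c k223 (.q k239 [(.s k5 k10 2 (.s k95 k79 3 (.s k90 k80 2 (.d k165 k245 k240 11 14)))),
  (.s k64 k106 6 (.s k192 k128 7 (.s k74 k133 10 (.d k79 k95 k69 3 2))))] (.c k31 (.l (.s k95 k79 3
  (.s k5 k10 2 (.s k90 k80 2 (.d k165 k245 k240 11 14))))) (.c k79 (.l (.s k1 k2 0 (.s k5 k10 2 (.s
  k7 k11 1 (.s k6 k4 0 (.d k9 k13 k12 1 2)))))) (.c k95 (.q k31 [(.s k1 k2 0 (.s k5 k10 2 (.s k7 k11
  1 (.s k6 k4 0 (.d k9 k13 k12 1 2))))), (.s k2 k1 0 (.s k64 k106 6 (.s k192 k128 7 (.s k66 k129 8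
  (.s k65 k67 0 (.d k130 k194 k195 7 8)))))), (.s k5 k10 2 (.s k7 k11 1 (.s k165 k245 11 (.s k86
  k244 12 (.s k84 k87 0 (.d k252 k168 k169 13 14))))))] .n) .n)))) (.c k239 (.q k223 [(.s k5 k10 2
  (.s k154 k16 10 (.d k165 k176 k245 6 11))), (.s k64 k106 6 (.s k79 k95 3 (.s k74 k69 2 (.d k192
  k128 k133 7 10))))] .n) .n))) (.c k223 (.q k239 [(.s k5 k10 2 (.s k95 k79 3 (.s k90 k80 2 (.d k165
  k245 k240 11 14)))), (.s k64 k106 6 (.s k192 k128 7 (.s k74 k133 10 (.d k79 k95 k69 3 2))))] (.c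
  k31 (.l (.s k95 k79 3 (.s k5 k10 2 (.s k90 k80 2 (.d k165 k245 k240 11 14))))) (.c k79 (.l (.s k5
  k10 2 (.s k106 k64 6 (.s k165 k245 11 (.d k47 k175 k224 7 10))))) (.c k95 (.q k31 [(.s k5 k10 2
  (.s k106 k64 6 (.s k165 k245 11 (.d k47 k175 k224 7 10)))), (.s k2 k1 0 (.s k64 k106 6 (.s k192
  k128 7 (.s k66 k129 8 (.s k65 k67 0 (.d k130 k194 k195 7 8)))))), (.s k1 k2 0 (.s k5 k10 2 (.s k7
  k11 1 (.s k6 k4 0 (.d k9 k13 k12 1 2)))))] (.c k143 (.l (.s k175 k47 7 (.s k5 k10 2 (.s k165 k245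
  11 (.s k160 k170 2 (.d k240 k90 k80 14 11)))))) (.c k175 (.q k143 [(.s k1 k2 0 (.s k5 k10 2 (.s k7
  k11 1 (.s k6 k4 0 (.d k9 k13 k12 1 2))))), (.s k2 k1 0 (.s k64 k106 6 (.s k192 k128 7 (.s k66 k129
  8 (.s k65 k67 0 (.d k130 k194 k195 7 8)))))), (.s k5 k10 2 (.s k7 k11 1 (.s k165 k245 11 (.s k86
  k244 12 (.s k84 k87 0 (.d k252 k168 k169 13 14))))))] .n) .n))) (.c k143 (.l (.s k175 k47 7 (.s k5
  k10 2 (.s k95 k79 3 (.s k90 k80 2 (.d k165 k245 k240 11 14)))))) (.c k175 (.q k143 [(.s k5 k10 2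
  (.s k95 k79 3 (.s k90 k80 2 (.d k165 k245 k240 11 14)))), (.s k64 k106 6 (.s k192 k128 7 (.s k74
  k133 10 (.d k79 k95 k69 3 2))))] (.c k31 (.l (.s k95 k79 3 (.s k5 k10 2 (.s k90 k80 2 (.d k165
  k245 k240 11 14))))) (.c k79 (.l (.s k1 k2 0 (.s k5 k10 2 (.s k7 k11 1 (.s k6 k4 0 (.d k9 k13 k12
  1 2)))))) (.c k95 (.q k31 [(.s k1 k2 0 (.s k5 k10 2 (.s k7 k11 1 (.s k6 k4 0 (.d k9 k13 k12 1
  2))))), (.s k2 k1 0 (.s k64 k106 6 (.s k192 k128 7 (.s k66 k129 8 (.s k65 k67 0 (.d k130 k194 k195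
  7 8)))))), (.s k5 k10 2 (.s k7 k11 1 (.s k165 k245 11 (.s k86 k244 12 (.s k84 k87 0 (.d k252 k168
  k169 13 14))))))] .n) .n)))) .n)))))) (.c k239 (.q k223 [(.s k5 k10 2 (.s k95 k79 3 (.s k90 k80 2
  (.d k165 k245 k240 11 14)))), (.s k64 k106 6 (.s k79 k95 3 (.s k74 k69 2 (.d k192 k128 k133 7
  10)))), (.s k1 k2 0 (.s k5 k10 2 (.s k7 k11 1 (.s k6 k4 0 (.d k9 k13 k12 1 2)))))] (.c k143 (.q
  k175 [(.s k5 k10 2 (.s k95 k79 3 (.s k90 k80 2 (.d k165 k245 k240 11 14)))), (.s k64 k106 6 (.s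
  k79 k95 3 (.s k74 k69 2 (.d k192 k128 k133 7 10)))), (.s k5 k10 2 (.s k165 k245 11 (.s k160 k170 2
  (.d k240 k90 k80 14 11))))] .n) (.c k175 (.q k143 [(.s k5 k10 2 (.s k154 k16 10 (.d k165 k176 k245
  6 11))), (.s k64 k106 6 (.s k79 k95 3 (.s k74 k69 2 (.d k192 k128 k133 7 10))))] .n) .n))) .n)))))
  (.c k223 (.q k239 [(.s k1 k2 0 (.s k5 k10 2 (.s k7 k11 1 (.s k6 k4 0 (.d k9 k13 k12 1 2))))), (.s
  k1 k2 0 (.s k11 k7 1 (.s k169 k253 13 (.s k90 k248 12 (.s k80 k95 2 (.d k240 k160 k165 11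
  14)))))), (.s k5 k10 2 (.s k7 k11 1 (.s k165 k245 11 (.s k86 k244 12 (.s k84 k87 0 (.d k252 k168
  k169 13 14)))))), (.s k1 k2 0 (.s k5 k10 2 (.s k165 k245 11 (.s k169 k253 13 (.s k161 k173 1 (.d
  k240 k82 k90 12 14))))))] (.c k111 (.q k159 [(.s k1 k2 0 (.s k5 k10 2 (.s k7 k11 1 (.s k6 k4 0 (.d
  k9 k13 k12 1 2))))), (.s k1 k2 0 (.s k11 k7 1 (.s k169 k253 13 (.s k90 k248 12 (.s k80 k95 2 (.d
  k240 k160 k165 11 14)))))), (.s k5 k10 2 (.s k7 k11 1 (.s k165 k245 11 (.s k86 k244 12 (.s k84 k87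
  0 (.d k252 k168 k169 13 14)))))), (.s k1 k2 0 (.s k5 k10 2 (.s k165 k245 11 (.s k169 k253 13 (.s
  k161 k173 1 (.d k240 k82 k90 12 14))))))] .n) (.c k159 (.q k111 [(.s k5 k10 2 (.s k95 k79 3 (.s
  k90 k80 2 (.d k165 k245 k240 11 14)))), (.s k64 k106 6 (.s k192 k128 7 (.s k74 k133 10 (.d k79 k95
  k69 3 2))))] (.c k31 (.l (.s k95 k79 3 (.s k5 k10 2 (.s k90 k80 2 (.d k165 k245 k240 11 14)))))
  (.c k79 (.l (.s k5 k10 2 (.s k106 k64 6 (.s k165 k245 11 (.d k47 k175 k224 7 10))))) (.c k95 (.q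
  k31 [(.s k5 k10 2 (.s k106 k64 6 (.s k165 k245 11 (.d k47 k175 k224 7 10)))), (.s k2 k1 0 (.s k64
  k106 6 (.s k192 k128 7 (.s k66 k129 8 (.s k65 k67 0 (.d k130 k194 k195 7 8)))))), (.s k1 k2 0 (.s
  k5 k10 2 (.s k7 k11 1 (.s k6 k4 0 (.d k9 k13 k12 1 2)))))] (.c k143 (.l (.s k175 k47 7 (.s k5 k10
  2 (.s k165 k245 11 (.s k160 k170 2 (.d k240 k90 k80 14 11)))))) (.c k175 (.q k143 [(.s k1 k2 0 (.s
  k5 k10 2 (.s k7 k11 1 (.s k6 k4 0 (.d k9 k13 k12 1 2))))), (.s k2 k1 0 (.s k64 k106 6 (.s k192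
  k128 7 (.s k66 k129 8 (.s k65 k67 0 (.d k130 k194 k195 7 8)))))), (.s k5 k10 2 (.s k7 k11 1 (.s
  k165 k245 11 (.s k86 k244 12 (.s k84 k87 0 (.d k252 k168 k169 13 14))))))] .n) .n))) (.c k143 (.l
  (.s k175 k47 7 (.s k5 k10 2 (.s k95 k79 3 (.s k90 k80 2 (.d k165 k245 k240 11 14)))))) (.c k175
  (.q k143 [(.s k5 k10 2 (.s k95 k79 3 (.s k90 k80 2 (.d k165 k245 k240 11 14)))), (.s k64 k106 6
  (.s k192 k128 7 (.s k74 k133 10 (.d k79 k95 k69 3 2))))] (.c k31 (.l (.s k95 k79 3 (.s k5 k10 2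
  (.s k90 k80 2 (.d k165 k245 k240 11 14))))) (.c k79 (.l (.s k1 k2 0 (.s k5 k10 2 (.s k7 k11 1 (.s
  k6 k4 0 (.d k9 k13 k12 1 2)))))) (.c k95 (.q k31 [(.s k1 k2 0 (.s k5 k10 2 (.s k7 k11 1 (.s k6 k4
  0 (.d k9 k13 k12 1 2))))), (.s k2 k1 0 (.s k64 k106 6 (.s k192 k128 7 (.s k66 k129 8 (.s k65 k67 0
  (.d k130 k194 k195 7 8)))))), (.s k5 k10 2 (.s k7 k11 1 (.s k165 k245 11 (.s k86 k244 12 (.s k84
  k87 0 (.d k252 k168 k169 13 14))))))] .n) .n)))) .n)))))) .n))) (.c k239 (.q k223 [(.s k1 k2 0 (.s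
  k5 k10 2 (.s k7 k11 1 (.s k6 k4 0 (.d k9 k13 k12 1 2))))), (.s k1 k2 0 (.s k11 k7 1 (.s k169 k253
  13 (.s k90 k248 12 (.s k80 k95 2 (.d k240 k160 k165 11 14)))))), (.s k5 k10 2 (.s k7 k11 1 (.s
  k165 k245 11 (.s k86 k244 12 (.s k84 k87 0 (.d k252 k168 k169 13 14)))))), (.s k1 k2 0 (.s k5 k10
  2 (.s k165 k245 11 (.s k169 k253 13 (.s k161 k173 1 (.d k240 k82 k90 12 14))))))] (.c k111 (.q
  k159 [(.s k5 k10 2 (.s k95 k31 7 (.s k90 k80 2 (.d k165 k245 k240 11 14)))), (.s k16 k154 10 (.s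
  k31 k95 7 (.s k26 k21 2 (.d k48 k32 k37 3 6)))), (.s k1 k2 0 (.s k5 k10 2 (.s k7 k11 1 (.s k6 k4 0
  (.d k9 k13 k12 1 2)))))] (.c k47 (.q k175 [(.s k5 k10 2 (.s k95 k31 7 (.s k90 k80 2 (.d k165 k245
  k240 11 14)))), (.s k16 k154 10 (.s k31 k95 7 (.s k26 k21 2 (.d k48 k32 k37 3 6)))), (.s k5 k10 2
  (.s k165 k245 11 (.s k160 k170 2 (.d k240 k90 k80 14 11))))] .n) (.c k175 (.q k47 [(.s k5 k10 2
  (.s k106 k64 6 (.d k165 k224 k245 10 11))), (.s k16 k154 10 (.s k31 k95 7 (.s k26 k21 2 (.d k48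
  k32 k37 3 6))))] .n) .n))) (.c k159 (.q k111 [(.s k5 k10 2 (.s k95 k79 3 (.s k90 k80 2 (.d k165
  k245 k240 11 14)))), (.s k64 k106 6 (.s k79 k95 3 (.s k74 k69 2 (.d k192 k128 k133 7 10)))), (.s
  k1 k2 0 (.s k5 k10 2 (.s k7 k11 1 (.s k6 k4 0 (.d k9 k13 k12 1 2)))))] (.c k143 (.q k175 [(.s k5
  k10 2 (.s k95 k79 3 (.s k90 k80 2 (.d k165 k245 k240 11 14)))), (.s k64 k106 6 (.s k79 k95 3 (.s
  k74 k69 2 (.d k192 k128 k133 7 10)))), (.s k5 k10 2 (.s k165 k245 11 (.s k160 k170 2 (.d k240 k90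
  k80 14 11))))] .n) (.c k175 (.q k143 [(.s k5 k10 2 (.s k154 k16 10 (.d k165 k176 k245 6 11))), (.s
  k64 k106 6 (.s k79 k95 3 (.s k74 k69 2 (.d k192 k128 k133 7 10))))] .n) .n))) .n))) .n))))) (.c
  k223 (.q k239 [(.s k1 k2 0 (.s k5 k10 2 (.s k7 k11 1 (.s k6 k4 0 (.d k9 k13 k12 1 2))))), (.s k1
  k2 0 (.s k11 k7 1 (.s k169 k253 13 (.s k90 k248 12 (.s k80 k95 2 (.d k240 k160 k165 11 14)))))),
  (.s k5 k10 2 (.s k7 k11 1 (.s k165 k245 11 (.s k86 k244 12 (.s k84 k87 0 (.d k252 k168 k169 13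
  14)))))), (.s k1 k2 0 (.s k5 k10 2 (.s k165 k245 11 (.s k169 k253 13 (.s k161 k173 1 (.d k240 k82
  k90 12 14))))))] (.c k111 (.q k159 [(.s k1 k2 0 (.s k5 k10 2 (.s k7 k11 1 (.s k6 k4 0 (.d k9 k13
  k12 1 2))))), (.s k1 k2 0 (.s k11 k7 1 (.s k169 k253 13 (.s k90 k248 12 (.s k80 k95 2 (.d k240
  k160 k165 11 14)))))), (.s k5 k10 2 (.s k7 k11 1 (.s k165 k245 11 (.s k86 k244 12 (.s k84 k87 0
  (.d k252 k168 k169 13 14)))))), (.s k1 k2 0 (.s k5 k10 2 (.s k165 k245 11 (.s k169 k253 13 (.s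
  k161 k173 1 (.d k240 k82 k90 12 14))))))] (.c k127 (.q k191 [(.s k5 k10 2 (.s k165 k245 11 (.s
  k175 k143 3 (.s k160 k170 2 (.d k240 k90 k80 14 11))))), (.s k1 k2 0 (.s k5 k10 2 (.s k7 k11 1 (.s
  k6 k4 0 (.d k9 k13 k12 1 2))))), (.s k1 k2 0 (.s k11 k7 1 (.s k169 k253 13 (.s k90 k248 12 (.s
  k240 k165 14 (.d k80 k95 k160 2 11))))))] (.c k79 (.q k95 [(.s k5 k10 2 (.s k90 k80 2 (.d k165
  k245 k240 11 14))), (.s k1 k2 0 (.s k11 k7 1 (.s k90 k80 2 (.d k169 k248 k253 12 13)))), (.s k1 k2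
  0 (.s k5 k10 2 (.s k7 k11 1 (.s k6 k4 0 (.d k9 k13 k12 1 2)))))] .n) (.c k95 (.q k79 [(.s k5 k10 2
  (.s k165 k245 11 (.s k175 k143 3 (.s k160 k170 2 (.d k240 k90 k80 14 11))))), (.s k1 k2 0 (.s k5
  k10 2 (.s k7 k11 1 (.s k6 k4 0 (.d k9 k13 k12 1 2))))), (.s k1 k2 0 (.s k11 k7 1 (.s k169 k253 13
  (.s k90 k248 12 (.s k165 k240 14 (.s k173 k161 1 (.d k252 k94 k86 12 14)))))))] .n) .n))) (.c k191
  (.q k127 [(.s k1 k2 0 (.s k5 k10 2 (.s k7 k11 1 (.s k6 k4 0 (.d k9 k13 k12 1 2))))), (.s k1 k2 0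
  (.s k11 k7 1 (.s k169 k253 13 (.s k90 k248 12 (.s k80 k95 2 (.d k240 k160 k165 11 14)))))), (.s k5
  k10 2 (.s k7 k11 1 (.s k165 k245 11 (.s k86 k244 12 (.s k84 k87 0 (.d k252 k168 k169 13 14)))))),
  (.s k1 k2 0 (.s k5 k10 2 (.s k165 k245 11 (.s k169 k253 13 (.s k161 k173 1 (.d k240 k82 k90 12
  14))))))] .n) .n))) (.c k127 (.q k191 [(.s k1 k2 0 (.s k5 k10 2 (.s k7 k11 1 (.s k6 k4 0 (.d k9
  k13 k12 1 2))))), (.s k1 k2 0 (.s k11 k7 1 (.s k169 k253 13 (.s k90 k248 12 (.s k80 k95 2 (.d k240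
  k160 k165 11 14)))))), (.s k5 k10 2 (.s k7 k11 1 (.s k165 k245 11 (.s k86 k244 12 (.s k84 k87 0
  (.d k252 k168 k169 13 14)))))), (.s k1 k2 0 (.s k5 k10 2 (.s k165 k245 11 (.s k169 k253 13 (.s
  k161 k173 1 (.d k240 k82 k90 12 14))))))] (.c k111 (.q k159 [(.s k5 k10 2 (.s k165 k245 11 (.s
  k175 k143 3 (.s k160 k170 2 (.d k240 k90 k80 14 11))))), (.s k1 k2 0 (.s k5 k10 2 (.s k7 k11 1 (.s
  k6 k4 0 (.d k9 k13 k12 1 2))))), (.s k1 k2 0 (.s k11 k7 1 (.s k169 k253 13 (.s k90 k248 12 (.s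
  k240 k165 14 (.d k80 k95 k160 2 11))))))] (.c k79 (.q k95 [(.s k5 k10 2 (.s k90 k80 2 (.d k165
  k245 k240 11 14))), (.s k1 k2 0 (.s k11 k7 1 (.s k90 k80 2 (.d k169 k248 k253 12 13)))), (.s k1 k2
  0 (.s k5 k10 2 (.s k7 k11 1 (.s k6 k4 0 (.d k9 k13 k12 1 2)))))] .n) (.c k95 (.q k79 [(.s k5 k10 2
  (.s k165 k245 11 (.s k175 k143 3 (.s k160 k170 2 (.d k240 k90 k80 14 11))))), (.s k1 k2 0 (.s k5
  k10 2 (.s k7 k11 1 (.s k6 k4 0 (.d k9 k13 k12 1 2))))), (.s k1 k2 0 (.s k11 k7 1 (.s k169 k253 13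
  (.s k90 k248 12 (.s k165 k240 14 (.s k173 k161 1 (.d k252 k94 k86 12 14)))))))] .n) .n))) (.c k159
  (.q k111 [(.s k5 k10 2 (.s k165 k245 11 (.s k175 k47 7 (.s k160 k170 2 (.d k240 k90 k80 14
  11))))), (.s k1 k2 0 (.s k5 k10 2 (.s k7 k11 1 (.s k6 k4 0 (.d k9 k13 k12 1 2))))), (.s k1 k2 0
  (.s k11 k7 1 (.s k169 k253 13 (.s k90 k248 12 (.s k240 k165 14 (.d k80 k95 k160 2 11))))))] (.c
  k31 (.q k95 [(.s k5 k10 2 (.s k90 k80 2 (.d k165 k245 k240 11 14))), (.s k1 k2 0 (.s k11 k7 1 (.s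
  k90 k80 2 (.d k169 k248 k253 12 13)))), (.s k1 k2 0 (.s k5 k10 2 (.s k7 k11 1 (.s k6 k4 0 (.d k9
  k13 k12 1 2)))))] .n) (.c k95 (.q k31 [(.s k5 k10 2 (.s k165 k245 11 (.s k175 k47 7 (.s k160 k170
  2 (.d k240 k90 k80 14 11))))), (.s k1 k2 0 (.s k5 k10 2 (.s k7 k11 1 (.s k6 k4 0 (.d k9 k13 k12 1
  2))))), (.s k1 k2 0 (.s k11 k7 1 (.s k169 k253 13 (.s k90 k248 12 (.s k165 k240 14 (.s k173 k161 1
  (.d k252 k94 k86 12 14)))))))] .n) .n))) .n))) (.c k159 (.q k111 [(.s k5 k10 2 (.s k165 k245 11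
  (.s k175 k47 7 (.s k160 k170 2 (.d k240 k90 k80 14 11))))), (.s k1 k2 0 (.s k5 k10 2 (.s k7 k11 1
  (.s k6 k4 0 (.d k9 k13 k12 1 2))))), (.s k1 k2 0 (.s k11 k7 1 (.s k169 k253 13 (.s k90 k248 12 (.s
  k240 k165 14 (.d k80 k95 k160 2 11))))))] (.c k31 (.q k95 [(.s k5 k10 2 (.s k90 k80 2 (.d k165
  k245 k240 11 14))), (.s k1 k2 0 (.s k11 k7 1 (.s k90 k80 2 (.d k169 k248 k253 12 13)))), (.s k1 k2
  0 (.s k5 k10 2 (.s k7 k11 1 (.s k6 k4 0 (.d k9 k13 k12 1 2)))))] (.c k127 (.q k191 [(.s k5 k10 2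
  (.s k90 k80 2 (.d k165 k245 k240 11 14))), (.s k1 k2 0 (.s k11 k7 1 (.s k90 k80 2 (.d k169 k248
  k253 12 13)))), (.s k1 k2 0 (.s k5 k10 2 (.s k7 k11 1 (.s k6 k4 0 (.d k9 k13 k12 1 2)))))] .n) (.c
  k191 (.l (.s k127 k79 3 (.s k5 k10 2 (.s k90 k80 2 (.d k165 k245 k240 11 14))))) .n))) (.c k95 (.q
  k31 [(.s k5 k10 2 (.s k165 k245 11 (.s k175 k47 7 (.s k160 k170 2 (.d k240 k90 k80 14 11))))), (.s
  k1 k2 0 (.s k5 k10 2 (.s k7 k11 1 (.s k6 k4 0 (.d k9 k13 k12 1 2))))), (.s k1 k2 0 (.s k11 k7 1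
  (.s k169 k253 13 (.s k90 k248 12 (.s k165 k240 14 (.s k173 k161 1 (.d k252 k94 k86 12 14)))))))]
  (.c k127 (.q k191 [(.s k5 k10 2 (.s k165 k245 11 (.s k175 k47 7 (.s k160 k170 2 (.d k240 k90 k80
  14 11))))), (.s k1 k2 0 (.s k5 k10 2 (.s k7 k11 1 (.s k6 k4 0 (.d k9 k13 k12 1 2))))), (.s k1 k2 0
  (.s k11 k7 1 (.s k169 k253 13 (.s k90 k248 12 (.s k165 k240 14 (.s k173 k161 1 (.d k252 k94 k86 12
  14)))))))] .n) (.c k191 (.q k127 [(.s k5 k10 2 (.s k106 k64 6 (.s k165 k245 11 (.d k47 k175 k224 7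
  10)))), (.s k2 k1 0 (.s k64 k106 6 (.s k192 k128 7 (.s k66 k129 8 (.s k65 k67 0 (.d k130 k194 k195
  7 8)))))), (.s k1 k2 0 (.s k5 k10 2 (.s k7 k11 1 (.s k6 k4 0 (.d k9 k13 k12 1 2)))))] (.c k143 (.l
  (.s k175 k47 7 (.s k5 k10 2 (.s k165 k245 11 (.s k160 k170 2 (.d k240 k90 k80 14 11)))))) (.c k175
  (.q k143 [(.s k1 k2 0 (.s k5 k10 2 (.s k7 k11 1 (.s k6 k4 0 (.d k9 k13 k12 1 2))))), (.s k2 k1 0
  (.s k64 k106 6 (.s k192 k128 7 (.s k66 k129 8 (.s k65 k67 0 (.d k130 k194 k195 7 8)))))), (.s k5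
  k10 2 (.s k7 k11 1 (.s k165 k245 11 (.s k86 k244 12 (.s k84 k87 0 (.d k252 k168 k169 13 14))))))]
  .n) .n))) .n))) (.c k127 (.q k191 [(.s k5 k10 2 (.s k165 k245 11 (.s k175 k47 7 (.s k160 k170 2
  (.d k240 k90 k80 14 11))))), (.s k1 k2 0 (.s k5 k10 2 (.s k7 k11 1 (.s k6 k4 0 (.d k9 k13 k12 1
  2))))), (.s k1 k2 0 (.s k11 k7 1 (.s k169 k253 13 (.s k90 k248 12 (.s k240 k165 14 (.d k80 k95
  k160 2 11))))))] (.c k31 (.q k95 [(.s k5 k10 2 (.s k90 k80 2 (.d k165 k245 k240 11 14))), (.s k1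
  k2 0 (.s k11 k7 1 (.s k90 k80 2 (.d k169 k248 k253 12 13)))), (.s k1 k2 0 (.s k5 k10 2 (.s k7 k11
  1 (.s k6 k4 0 (.d k9 k13 k12 1 2)))))] .n) (.c k95 (.q k31 [(.s k5 k10 2 (.s k165 k245 11 (.s k175
  k47 7 (.s k160 k170 2 (.d k240 k90 k80 14 11))))), (.s k1 k2 0 (.s k5 k10 2 (.s k7 k11 1 (.s k6 k4
  0 (.d k9 k13 k12 1 2))))), (.s k1 k2 0 (.s k11 k7 1 (.s k169 k253 13 (.s k90 k248 12 (.s k165 k240
  14 (.s k173 k161 1 (.d k252 k94 k86 12 14)))))))] .n) .n))) (.c k191 (.q k127 [(.s k5 k10 2 (.s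
  k95 k79 3 (.s k90 k80 2 (.d k165 k245 k240 11 14)))), (.s k64 k106 6 (.s k192 k128 7 (.s k74 k133
  10 (.d k79 k95 k69 3 2))))] (.c k31 (.l (.s k95 k79 3 (.s k5 k10 2 (.s k90 k80 2 (.d k165 k245
  k240 11 14))))) (.c k79 (.l (.s k5 k10 2 (.s k106 k64 6 (.s k165 k245 11 (.d k47 k175 k224 7
  10))))) (.c k95 (.q k31 [(.s k5 k10 2 (.s k106 k64 6 (.s k165 k245 11 (.d k47 k175 k224 7 10)))),
  (.s k2 k1 0 (.s k64 k106 6 (.s k192 k128 7 (.s k66 k129 8 (.s k65 k67 0 (.d k130 k194 k195 7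
  8)))))), (.s k1 k2 0 (.s k5 k10 2 (.s k7 k11 1 (.s k6 k4 0 (.d k9 k13 k12 1 2)))))] (.c k143 (.l
  (.s k175 k47 7 (.s k5 k10 2 (.s k165 k245 11 (.s k160 k170 2 (.d k240 k90 k80 14 11)))))) (.c k175
  (.q k143 [(.s k1 k2 0 (.s k5 k10 2 (.s k7 k11 1 (.s k6 k4 0 (.d k9 k13 k12 1 2))))), (.s k2 k1 0
  (.s k64 k106 6 (.s k192 k128 7 (.s k66 k129 8 (.s k65 k67 0 (.d k130 k194 k195 7 8)))))), (.s k5
  k10 2 (.s k7 k11 1 (.s k165 k245 11 (.s k86 k244 12 (.s k84 k87 0 (.d k252 k168 k169 13 14))))))]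
  .n) .n))) (.c k143 (.l (.s k175 k47 7 (.s k5 k10 2 (.s k95 k79 3 (.s k90 k80 2 (.d k165 k245 k240
  11 14)))))) (.c k175 (.q k143 [(.s k5 k10 2 (.s k95 k79 3 (.s k90 k80 2 (.d k165 k245 k240 11
  14)))), (.s k64 k106 6 (.s k192 k128 7 (.s k74 k133 10 (.d k79 k95 k69 3 2))))] (.c k31 (.l (.s
  k95 k79 3 (.s k5 k10 2 (.s k90 k80 2 (.d k165 k245 k240 11 14))))) (.c k79 (.l (.s k1 k2 0 (.s k5
  k10 2 (.s k7 k11 1 (.s k6 k4 0 (.d k9 k13 k12 1 2)))))) (.c k95 (.q k31 [(.s k1 k2 0 (.s k5 k10 2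
  (.s k7 k11 1 (.s k6 k4 0 (.d k9 k13 k12 1 2))))), (.s k2 k1 0 (.s k64 k106 6 (.s k192 k128 7 (.s
  k66 k129 8 (.s k65 k67 0 (.d k130 k194 k195 7 8)))))), (.s k5 k10 2 (.s k7 k11 1 (.s k165 k245 11
  (.s k86 k244 12 (.s k84 k87 0 (.d k252 k168 k169 13 14))))))] .n) .n)))) .n)))))) .n))))) (.c k191
  (.q k127 [(.s k1 k2 0 (.s k5 k10 2 (.s k7 k11 1 (.s k6 k4 0 (.d k9 k13 k12 1 2))))), (.s k1 k2 0
  (.s k11 k7 1 (.s k169 k253 13 (.s k90 k248 12 (.s k80 k95 2 (.d k240 k160 k165 11 14)))))), (.s k5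
  k10 2 (.s k7 k11 1 (.s k165 k245 11 (.s k86 k244 12 (.s k84 k87 0 (.d k252 k168 k169 13 14)))))),
  (.s k1 k2 0 (.s k5 k10 2 (.s k165 k245 11 (.s k169 k253 13 (.s k161 k173 1 (.d k240 k82 k90 12
  14))))))] (.c k111 (.q k159 [(.s k1 k2 0 (.s k5 k10 2 (.s k7 k11 1 (.s k6 k4 0 (.d k9 k13 k12 1
  2))))), (.s k1 k2 0 (.s k11 k7 1 (.s k169 k253 13 (.s k90 k248 12 (.s k80 k95 2 (.d k240 k160 k165
  11 14)))))), (.s k5 k10 2 (.s k7 k11 1 (.s k165 k245 11 (.s k86 k244 12 (.s k84 k87 0 (.d k252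
  k168 k169 13 14)))))), (.s k1 k2 0 (.s k5 k10 2 (.s k165 k245 11 (.s k169 k253 13 (.s k161 k173 1
  (.d k240 k82 k90 12 14))))))] .n) (.c k159 (.q k111 [(.s k5 k10 2 (.s k95 k79 3 (.s k90 k80 2 (.d
  k165 k245 k240 11 14)))), (.s k64 k106 6 (.s k192 k128 7 (.s k74 k133 10 (.d k79 k95 k69 3 2))))]
  (.c k31 (.l (.s k95 k79 3 (.s k5 k10 2 (.s k90 k80 2 (.d k165 k245 k240 11 14))))) (.c k79 (.l (.s
  k5 k10 2 (.s k106 k64 6 (.s k165 k245 11 (.d k47 k175 k224 7 10))))) (.c k95 (.q k31 [(.s k5 k10 2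
  (.s k106 k64 6 (.s k165 k245 11 (.d k47 k175 k224 7 10)))), (.s k2 k1 0 (.s k64 k106 6 (.s k192
  k128 7 (.s k66 k129 8 (.s k65 k67 0 (.d k130 k194 k195 7 8)))))), (.s k1 k2 0 (.s k5 k10 2 (.s k7
  k11 1 (.s k6 k4 0 (.d k9 k13 k12 1 2)))))] (.c k143 (.l (.s k175 k47 7 (.s k5 k10 2 (.s k165 k245
  11 (.s k160 k170 2 (.d k240 k90 k80 14 11)))))) (.c k175 (.q k143 [(.s k1 k2 0 (.s k5 k10 2 (.s k7
  k11 1 (.s k6 k4 0 (.d k9 k13 k12 1 2))))), (.s k2 k1 0 (.s k64 k106 6 (.s k192 k128 7 (.s k66 k129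
  8 (.s k65 k67 0 (.d k130 k194 k195 7 8)))))), (.s k5 k10 2 (.s k7 k11 1 (.s k165 k245 11 (.s k86
  k244 12 (.s k84 k87 0 (.d k252 k168 k169 13 14))))))] .n) .n))) (.c k143 (.l (.s k175 k47 7 (.s k5
  k10 2 (.s k95 k79 3 (.s k90 k80 2 (.d k165 k245 k240 11 14)))))) (.c k175 (.q k143 [(.s k5 k10 2
  (.s k95 k79 3 (.s k90 k80 2 (.d k165 k245 k240 11 14)))), (.s k64 k106 6 (.s k192 k128 7 (.s k74
  k133 10 (.d k79 k95 k69 3 2))))] (.c k31 (.l (.s k95 k79 3 (.s k5 k10 2 (.s k90 k80 2 (.d k165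
  k245 k240 11 14))))) (.c k79 (.l (.s k1 k2 0 (.s k5 k10 2 (.s k7 k11 1 (.s k6 k4 0 (.d k9 k13 k12
  1 2)))))) (.c k95 (.q k31 [(.s k1 k2 0 (.s k5 k10 2 (.s k7 k11 1 (.s k6 k4 0 (.d k9 k13 k12 1
  2))))), (.s k2 k1 0 (.s k64 k106 6 (.s k192 k128 7 (.s k66 k129 8 (.s k65 k67 0 (.d k130 k194 k195
  7 8)))))), (.s k5 k10 2 (.s k7 k11 1 (.s k165 k245 11 (.s k86 k244 12 (.s k84 k87 0 (.d k252 k168
  k169 13 14))))))] .n) .n)))) .n)))))) .n))) .n))))) (.c k239 (.q k223 [(.s k1 k2 0 (.s k5 k10 2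
  (.s k7 k11 1 (.s k6 k4 0 (.d k9 k13 k12 1 2))))), (.s k1 k2 0 (.s k11 k7 1 (.s k169 k253 13 (.s
  k90 k248 12 (.s k80 k95 2 (.d k240 k160 k165 11 14)))))), (.s k5 k10 2 (.s k7 k11 1 (.s k165 k245
  11 (.s k86 k244 12 (.s k84 k87 0 (.d k252 k168 k169 13 14)))))), (.s k1 k2 0 (.s k5 k10 2 (.s k165
  k245 11 (.s k169 k253 13 (.s k161 k173 1 (.d k240 k82 k90 12 14))))))] (.c k111 (.q k159 [(.s k5
  k10 2 (.s k95 k31 7 (.s k90 k80 2 (.d k165 k245 k240 11 14)))), (.s k16 k154 10 (.s k31 k95 7 (.s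
  k26 k21 2 (.d k48 k32 k37 3 6)))), (.s k1 k2 0 (.s k5 k10 2 (.s k7 k11 1 (.s k6 k4 0 (.d k9 k13
  k12 1 2)))))] (.c k47 (.q k175 [(.s k5 k10 2 (.s k95 k31 7 (.s k90 k80 2 (.d k165 k245 k240 11
  14)))), (.s k16 k154 10 (.s k31 k95 7 (.s k26 k21 2 (.d k48 k32 k37 3 6)))), (.s k5 k10 2 (.s k154
  k16 10 (.s k165 k245 11 (.d k143 k191 k176 3 6))))] (.c k127 (.l (.s k191 k143 3 (.s k5 k10 2 (.s
  k95 k31 7 (.s k90 k80 2 (.d k165 k245 k240 11 14)))))) (.c k191 (.q k127 [(.s k5 k10 2 (.s k95 k31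
  7 (.s k90 k80 2 (.d k165 k245 k240 11 14)))), (.s k16 k154 10 (.s k31 k95 7 (.s k26 k21 2 (.d k48
  k32 k37 3 6)))), (.s k5 k10 2 (.s k165 k245 11 (.s k160 k170 2 (.d k240 k90 k80 14 11))))] .n)
  .n))) (.c k127 (.q k191 [(.s k5 k10 2 (.s k95 k31 7 (.s k90 k80 2 (.d k165 k245 k240 11 14)))),
  (.s k16 k154 10 (.s k48 k32 3 (.s k26 k37 6 (.d k31 k95 k21 7 2))))] (.c k31 (.l (.s k5 k10 2 (.s
  k154 k16 10 (.s k165 k245 11 (.d k143 k175 k176 3 6))))) (.c k47 (.l (.s k175 k143 3 (.s k5 k10 2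
  (.s k95 k31 7 (.s k90 k80 2 (.d k165 k245 k240 11 14)))))) (.c k79 (.l (.s k95 k31 7 (.s k5 k10 2
  (.s k90 k80 2 (.d k165 k245 k240 11 14))))) (.c k95 (.q k79 [(.s k5 k10 2 (.s k154 k16 10 (.s k165
  k245 11 (.d k143 k175 k176 3 6)))), (.s k2 k1 0 (.s k16 k154 10 (.s k48 k32 3 (.s k18 k33 4 (.s
  k17 k19 0 (.d k34 k50 k51 3 4)))))), (.s k1 k2 0 (.s k5 k10 2 (.s k7 k11 1 (.s k6 k4 0 (.d k9 k13
  k12 1 2)))))] (.c k47 (.l (.s k175 k143 3 (.s k5 k10 2 (.s k165 k245 11 (.s k160 k170 2 (.d k240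
  k90 k80 14 11)))))) (.c k175 (.q k47 [(.s k1 k2 0 (.s k5 k10 2 (.s k7 k11 1 (.s k6 k4 0 (.d k9 k13
  k12 1 2))))), (.s k2 k1 0 (.s k16 k154 10 (.s k48 k32 3 (.s k18 k33 4 (.s k17 k19 0 (.d k34 k50
  k51 3 4)))))), (.s k5 k10 2 (.s k7 k11 1 (.s k165 k245 11 (.s k86 k244 12 (.s k84 k87 0 (.d k252
  k168 k169 13 14))))))] .n) .n))) (.c k175 (.q k47 [(.s k5 k10 2 (.s k95 k31 7 (.s k90 k80 2 (.d
  k165 k245 k240 11 14)))), (.s k16 k154 10 (.s k48 k32 3 (.s k26 k37 6 (.d k31 k95 k21 7 2))))] (.c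
  k31 (.l (.s k1 k2 0 (.s k5 k10 2 (.s k7 k11 1 (.s k6 k4 0 (.d k9 k13 k12 1 2)))))) (.c k79 (.l (.s
  k95 k31 7 (.s k5 k10 2 (.s k90 k80 2 (.d k165 k245 k240 11 14))))) (.c k95 (.q k79 [(.s k1 k2 0
  (.s k5 k10 2 (.s k7 k11 1 (.s k6 k4 0 (.d k9 k13 k12 1 2))))), (.s k2 k1 0 (.s k16 k154 10 (.s k48
  k32 3 (.s k18 k33 4 (.s k17 k19 0 (.d k34 k50 k51 3 4)))))), (.s k5 k10 2 (.s k7 k11 1 (.s k165
  k245 11 (.s k86 k244 12 (.s k84 k87 0 (.d k252 k168 k169 13 14))))))] .n) .n)))) .n)))))) (.c k175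
  (.q k47 [(.s k5 k10 2 (.s k95 k31 7 (.s k90 k80 2 (.d k165 k245 k240 11 14)))), (.s k16 k154 10
  (.s k31 k95 7 (.s k26 k21 2 (.d k48 k32 k37 3 6)))), (.s k1 k2 0 (.s k5 k10 2 (.s k7 k11 1 (.s k6
  k4 0 (.d k9 k13 k12 1 2)))))] (.c k127 (.q k191 [(.s k5 k10 2 (.s k95 k31 7 (.s k90 k80 2 (.d k165
  k245 k240 11 14)))), (.s k16 k154 10 (.s k48 k32 3 (.s k26 k37 6 (.d k31 k95 k21 7 2))))] (.c k31
  (.l (.s k1 k2 0 (.s k5 k10 2 (.s k7 k11 1 (.s k6 k4 0 (.d k9 k13 k12 1 2)))))) (.c k79 (.l (.s k95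
  k31 7 (.s k5 k10 2 (.s k90 k80 2 (.d k165 k245 k240 11 14))))) (.c k95 (.q k79 [(.s k1 k2 0 (.s k5
  k10 2 (.s k7 k11 1 (.s k6 k4 0 (.d k9 k13 k12 1 2))))), (.s k2 k1 0 (.s k16 k154 10 (.s k48 k32 3
  (.s k18 k33 4 (.s k17 k19 0 (.d k34 k50 k51 3 4)))))), (.s k5 k10 2 (.s k7 k11 1 (.s k165 k245 11
  (.s k86 k244 12 (.s k84 k87 0 (.d k252 k168 k169 13 14))))))] .n) .n)))) (.c k191 (.q k127 [(.s k5
  k10 2 (.s k106 k64 6 (.d k165 k224 k245 10 11))), (.s k16 k154 10 (.s k31 k95 7 (.s k26 k21 2 (.d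
  k48 k32 k37 3 6))))] .n) .n))) (.c k191 (.q k127 [(.s k5 k10 2 (.s k95 k31 7 (.s k90 k80 2 (.d
  k165 k245 k240 11 14)))), (.s k16 k154 10 (.s k31 k95 7 (.s k26 k21 2 (.d k48 k32 k37 3 6)))), (.s
  k1 k2 0 (.s k5 k10 2 (.s k7 k11 1 (.s k6 k4 0 (.d k9 k13 k12 1 2)))))] (.c k47 (.q k175 [(.s k5
  k10 2 (.s k95 k31 7 (.s k90 k80 2 (.d k165 k245 k240 11 14)))), (.s k16 k154 10 (.s k31 k95 7 (.s
  k26 k21 2 (.d k48 k32 k37 3 6)))), (.s k5 k10 2 (.s k165 k245 11 (.s k160 k170 2 (.d k240 k90 k80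
  14 11))))] .n) (.c k175 (.q k47 [(.s k5 k10 2 (.s k106 k64 6 (.d k165 k224 k245 10 11))), (.s k16
  k154 10 (.s k31 k95 7 (.s k26 k21 2 (.d k48 k32 k37 3 6))))] .n) .n))) .n))))) (.c k127 (.q k191
  [(.s k1 k2 0 (.s k5 k10 2 (.s k7 k11 1 (.s k6 k4 0 (.d k9 k13 k12 1 2))))), (.s k1 k2 0 (.s k11 k7
  1 (.s k169 k253 13 (.s k90 k248 12 (.s k80 k95 2 (.d k240 k160 k165 11 14)))))), (.s k5 k10 2 (.s
  k7 k11 1 (.s k165 k245 11 (.s k86 k244 12 (.s k84 k87 0 (.d k252 k168 k169 13 14)))))), (.s k1 k2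
  0 (.s k5 k10 2 (.s k165 k245 11 (.s k169 k253 13 (.s k161 k173 1 (.d k240 k82 k90 12 14))))))] (.c
  k111 (.q k159 [(.s k5 k10 2 (.s k95 k31 7 (.s k90 k80 2 (.d k165 k245 k240 11 14)))), (.s k16 k154
  10 (.s k48 k32 3 (.s k26 k37 6 (.d k31 k95 k21 7 2))))] (.c k31 (.l (.s k5 k10 2 (.s k154 k16 10
  (.s k165 k245 11 (.d k143 k175 k176 3 6))))) (.c k47 (.l (.s k175 k143 3 (.s k5 k10 2 (.s k95 k31
  7 (.s k90 k80 2 (.d k165 k245 k240 11 14)))))) (.c k79 (.l (.s k95 k31 7 (.s k5 k10 2 (.s k90 k80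
  2 (.d k165 k245 k240 11 14))))) (.c k95 (.q k79 [(.s k5 k10 2 (.s k154 k16 10 (.s k165 k245 11 (.d
  k143 k175 k176 3 6)))), (.s k2 k1 0 (.s k16 k154 10 (.s k48 k32 3 (.s k18 k33 4 (.s k17 k19 0 (.d
  k34 k50 k51 3 4)))))), (.s k1 k2 0 (.s k5 k10 2 (.s k7 k11 1 (.s k6 k4 0 (.d k9 k13 k12 1 2)))))]
  (.c k47 (.l (.s k175 k143 3 (.s k5 k10 2 (.s k165 k245 11 (.s k160 k170 2 (.d k240 k90 k80 14
  11)))))) (.c k175 (.q k47 [(.s k1 k2 0 (.s k5 k10 2 (.s k7 k11 1 (.s k6 k4 0 (.d k9 k13 k12 1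
  2))))), (.s k2 k1 0 (.s k16 k154 10 (.s k48 k32 3 (.s k18 k33 4 (.s k17 k19 0 (.d k34 k50 k51 3
  4)))))), (.s k5 k10 2 (.s k7 k11 1 (.s k165 k245 11 (.s k86 k244 12 (.s k84 k87 0 (.d k252 k168
  k169 13 14))))))] .n) .n))) (.c k175 (.q k47 [(.s k5 k10 2 (.s k95 k31 7 (.s k90 k80 2 (.d k165
  k245 k240 11 14)))), (.s k16 k154 10 (.s k48 k32 3 (.s k26 k37 6 (.d k31 k95 k21 7 2))))] (.c k31
  (.l (.s k1 k2 0 (.s k5 k10 2 (.s k7 k11 1 (.s k6 k4 0 (.d k9 k13 k12 1 2)))))) (.c k79 (.l (.s k95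
  k31 7 (.s k5 k10 2 (.s k90 k80 2 (.d k165 k245 k240 11 14))))) (.c k95 (.q k79 [(.s k1 k2 0 (.s k5
  k10 2 (.s k7 k11 1 (.s k6 k4 0 (.d k9 k13 k12 1 2))))), (.s k2 k1 0 (.s k16 k154 10 (.s k48 k32 3
  (.s k18 k33 4 (.s k17 k19 0 (.d k34 k50 k51 3 4)))))), (.s k5 k10 2 (.s k7 k11 1 (.s k165 k245 11
  (.s k86 k244 12 (.s k84 k87 0 (.d k252 k168 k169 13 14))))))] .n) .n)))) .n)))))) (.c k159 (.q
  k111 [(.s k1 k2 0 (.s k5 k10 2 (.s k7 k11 1 (.s k6 k4 0 (.d k9 k13 k12 1 2))))), (.s k1 k2 0 (.s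
  k11 k7 1 (.s k169 k253 13 (.s k90 k248 12 (.s k80 k95 2 (.d k240 k160 k165 11 14)))))), (.s k5 k10
  2 (.s k7 k11 1 (.s k165 k245 11 (.s k86 k244 12 (.s k84 k87 0 (.d k252 k168 k169 13 14)))))), (.s
  k1 k2 0 (.s k5 k10 2 (.s k165 k245 11 (.s k169 k253 13 (.s k161 k173 1 (.d k240 k82 k90 12
  14))))))] .n) .n))) (.c k159 (.q k111 [(.s k1 k2 0 (.s k5 k10 2 (.s k7 k11 1 (.s k6 k4 0 (.d k9
  k13 k12 1 2))))), (.s k1 k2 0 (.s k11 k7 1 (.s k169 k253 13 (.s k90 k248 12 (.s k80 k95 2 (.d k240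
  k160 k165 11 14)))))), (.s k5 k10 2 (.s k7 k11 1 (.s k165 k245 11 (.s k86 k244 12 (.s k84 k87 0
  (.d k252 k168 k169 13 14)))))), (.s k1 k2 0 (.s k5 k10 2 (.s k165 k245 11 (.s k169 k253 13 (.s
  k161 k173 1 (.d k240 k82 k90 12 14))))))] (.c k127 (.q k191 [(.s k1 k2 0 (.s k5 k10 2 (.s k7 k11 1
  (.s k6 k4 0 (.d k9 k13 k12 1 2))))), (.s k1 k2 0 (.s k11 k7 1 (.s k169 k253 13 (.s k90 k248 12 (.s
  k80 k95 2 (.d k240 k160 k165 11 14)))))), (.s k5 k10 2 (.s k7 k11 1 (.s k165 k245 11 (.s k86 k244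
  12 (.s k84 k87 0 (.d k252 k168 k169 13 14)))))), (.s k1 k2 0 (.s k5 k10 2 (.s k165 k245 11 (.s
  k169 k253 13 (.s k161 k173 1 (.d k240 k82 k90 12 14))))))] .n) (.c k191 (.q k127 [(.s k5 k10 2 (.s
  k95 k79 3 (.s k90 k80 2 (.d k165 k245 k240 11 14)))), (.s k64 k106 6 (.s k79 k95 3 (.s k74 k69 2
  (.d k192 k128 k133 7 10)))), (.s k1 k2 0 (.s k5 k10 2 (.s k7 k11 1 (.s k6 k4 0 (.d k9 k13 k12 1
  2)))))] (.c k143 (.q k175 [(.s k5 k10 2 (.s k95 k79 3 (.s k90 k80 2 (.d k165 k245 k240 11 14)))),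
  (.s k64 k106 6 (.s k79 k95 3 (.s k74 k69 2 (.d k192 k128 k133 7 10)))), (.s k5 k10 2 (.s k165 k245
  11 (.s k160 k170 2 (.d k240 k90 k80 14 11))))] .n) (.c k175 (.q k143 [(.s k5 k10 2 (.s k154 k16 10
  (.d k165 k176 k245 6 11))), (.s k64 k106 6 (.s k79 k95 3 (.s k74 k69 2 (.d k192 k128 k133 7
  10))))] .n) .n))) .n))) (.c k191 (.q k127 [(.s k1 k2 0 (.s k5 k10 2 (.s k7 k11 1 (.s k6 k4 0 (.d
  k9 k13 k12 1 2))))), (.s k1 k2 0 (.s k11 k7 1 (.s k169 k253 13 (.s k90 k248 12 (.s k80 k95 2 (.d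
  k240 k160 k165 11 14)))))), (.s k5 k10 2 (.s k7 k11 1 (.s k165 k245 11 (.s k86 k244 12 (.s k84 k87
  0 (.d k252 k168 k169 13 14)))))), (.s k1 k2 0 (.s k5 k10 2 (.s k165 k245 11 (.s k169 k253 13 (.s
  k161 k173 1 (.d k240 k82 k90 12 14))))))] (.c k111 (.q k159 [(.s k5 k10 2 (.s k95 k31 7 (.s k90
  k80 2 (.d k165 k245 k240 11 14)))), (.s k16 k154 10 (.s k31 k95 7 (.s k26 k21 2 (.d k48 k32 k37 3
  6)))), (.s k1 k2 0 (.s k5 k10 2 (.s k7 k11 1 (.s k6 k4 0 (.d k9 k13 k12 1 2)))))] (.c k47 (.q k175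
  [(.s k5 k10 2 (.s k95 k31 7 (.s k90 k80 2 (.d k165 k245 k240 11 14)))), (.s k16 k154 10 (.s k31
  k95 7 (.s k26 k21 2 (.d k48 k32 k37 3 6)))), (.s k5 k10 2 (.s k165 k245 11 (.s k160 k170 2 (.d
  k240 k90 k80 14 11))))] .n) (.c k175 (.q k47 [(.s k5 k10 2 (.s k106 k64 6 (.d k165 k224 k245 10
  11))), (.s k16 k154 10 (.s k31 k95 7 (.s k26 k21 2 (.d k48 k32 k37 3 6))))] .n) .n))) (.c k159 (.q
  k111 [(.s k5 k10 2 (.s k95 k79 3 (.s k90 k80 2 (.d k165 k245 k240 11 14)))), (.s k64 k106 6 (.s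
  k79 k95 3 (.s k74 k69 2 (.d k192 k128 k133 7 10)))), (.s k1 k2 0 (.s k5 k10 2 (.s k7 k11 1 (.s k6
  k4 0 (.d k9 k13 k12 1 2)))))] (.c k143 (.q k175 [(.s k5 k10 2 (.s k95 k79 3 (.s k90 k80 2 (.d k165
  k245 k240 11 14)))), (.s k64 k106 6 (.s k79 k95 3 (.s k74 k69 2 (.d k192 k128 k133 7 10)))), (.s
  k5 k10 2 (.s k165 k245 11 (.s k160 k170 2 (.d k240 k90 k80 14 11))))] .n) (.c k175 (.q k143 [(.s
  k5 k10 2 (.s k154 k16 10 (.d k165 k176 k245 6 11))), (.s k64 k106 6 (.s k79 k95 3 (.s k74 k69 2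
  (.d k192 k128 k133 7 10))))] .n) .n))) .n))) .n))))) .n)))))))

def t63_207 : T TT 256 :=
  (.q k3 [] (.c k1 s63_207_1 (.c k2 s63_207_2 (.c k4 s63_207_4 (.c k5 s63_207_5 (.c k6 s63_207_6 (.c
  k7 s63_207_7 (.c k8 s63_207_8 (.c k9 s63_207_9 (.c k10 s63_207_10 (.c k11 s63_207_11 (.c k12
  s63_207_12 (.c k13 s63_207_13 (.c k14 s63_207_14 (.c k15 s63_207_15 (.c k16 s63_207_16 (.c k17
  s63_207_17 (.c k18 s63_207_18 (.c k19 s63_207_19 (.c k20 s63_207_20 (.c k21 s63_207_21 (.c k22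
  s63_207_22 (.c k23 s63_207_23 (.c k24 s63_207_24 (.c k25 s63_207_25 (.c k26 s63_207_26 (.c k27
  s63_207_27 (.c k28 s63_207_28 (.c k29 s63_207_29 (.c k30 s63_207_30 (.c k31 s63_207_31 (.c k32
  s63_207_32 (.c k33 s63_207_33 (.c k34 s63_207_34 (.c k35 s63_207_35 (.c k36 s63_207_36 (.c k37
  s63_207_37 (.c k38 s63_207_38 (.c k39 s63_207_39 (.c k40 s63_207_40 (.c k41 s63_207_41 (.c k42
  s63_207_42 (.c k43 s63_207_43 (.c k44 s63_207_44 (.c k45 s63_207_45 (.c k46 s63_207_46 (.c k47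
  s63_207_47 (.c k48 s63_207_48 (.c k49 s63_207_49 (.c k50 s63_207_50 (.c k51 s63_207_51 (.c k52
  s63_207_52 (.c k53 s63_207_53 (.c k54 s63_207_54 (.c k55 s63_207_55 (.c k56 s63_207_56 (.c k57
  s63_207_57 (.c k58 s63_207_58 (.c k59 s63_207_59 (.c k60 s63_207_60 (.c k61 s63_207_61 (.c k62
  s63_207_62 (.c k64 s63_207_64 (.c k65 s63_207_65 (.c k66 s63_207_66 (.c k67 s63_207_67 (.c k68
  s63_207_68 (.c k69 s63_207_69 (.c k70 s63_207_70 (.c k71 s63_207_71 (.c k72 s63_207_72 (.c k73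
  s63_207_73 (.c k74 s63_207_74 (.c k75 s63_207_75 (.c k76 s63_207_76 (.c k77 s63_207_77 (.c k78
  s63_207_78 (.c k79 s63_207_79 (.c k80 s63_207_80 (.c k81 s63_207_81 (.c k82 s63_207_82 (.c k83
  s63_207_83 (.c k84 s63_207_84 (.c k86 s63_207_86 (.c k87 s63_207_87 (.c k88 s63_207_88 (.c k89
  s63_207_89 (.c k90 s63_207_90 (.c k91 s63_207_91 (.c k92 s63_207_92 (.c k93 s63_207_93 (.c k94
  s63_207_94 (.c k95 s63_207_95 (.c k96 s63_207_96 (.c k97 s63_207_97 (.c k98 s63_207_98 (.c k99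
  s63_207_99 (.c k100 s63_207_100 (.c k101 s63_207_101 (.c k102 s63_207_102 (.c k103 s63_207_103 (.c
  k104 s63_207_104 (.c k105 s63_207_105 (.c k106 s63_207_106 (.c k107 s63_207_107 (.c k108
  s63_207_108 (.c k109 s63_207_109 (.c k110 s63_207_110 (.c k111 s63_207_111 (.c k112 s63_207_112
  (.c k113 s63_207_113 (.c k114 s63_207_114 (.c k115 s63_207_115 (.c k116 s63_207_116 (.c k117
  s63_207_117 (.c k118 s63_207_118 (.c k119 s63_207_119 (.c k120 s63_207_120 (.c k121 s63_207_121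
  (.c k122 s63_207_122 (.c k123 s63_207_123 (.c k124 s63_207_124 (.c k125 s63_207_125 (.c k126
  s63_207_126 (.c k127 s63_207_127 (.c k128 s63_207_128 (.c k129 s63_207_129 (.c k130 s63_207_130
  (.c k131 s63_207_131 (.c k132 s63_207_132 (.c k133 s63_207_133 (.c k134 s63_207_134 (.c k135
  s63_207_135 (.c k136 s63_207_136 (.c k137 s63_207_137 (.c k138 s63_207_138 (.c k139 s63_207_139
  (.c k140 s63_207_140 (.c k141 s63_207_141 (.c k142 s63_207_142 (.c k143 s63_207_143 (.c k144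
  s63_207_144 (.c k145 s63_207_145 (.c k146 s63_207_146 (.c k147 s63_207_147 (.c k148 s63_207_148
  (.c k149 s63_207_149 (.c k150 s63_207_150 (.c k151 s63_207_151 (.c k152 s63_207_152 (.c k153
  s63_207_153 (.c k154 s63_207_154 (.c k155 s63_207_155 (.c k156 s63_207_156 (.c k157 s63_207_157
  (.c k158 s63_207_158 (.c k159 s63_207_159 (.c k160 s63_207_160 (.c k161 s63_207_161 (.c k162
  s63_207_162 (.c k163 s63_207_163 (.c k164 s63_207_164 (.c k165 s63_207_165 (.c k166 s63_207_166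
  (.c k167 s63_207_167 (.c k168 s63_207_168 (.c k169 s63_207_169 (.c k170 s63_207_170 (.c k171
  s63_207_171 (.c k172 s63_207_172 (.c k173 s63_207_173 (.c k174 s63_207_174 (.c k175 s63_207_175
  (.c k176 s63_207_176 (.c k177 s63_207_177 (.c k178 s63_207_178 (.c k179 s63_207_179 (.c k180
  s63_207_180 (.c k181 s63_207_181 (.c k182 s63_207_182 (.c k183 s63_207_183 (.c k184 s63_207_184
  (.c k185 s63_207_185 (.c k186 s63_207_186 (.c k187 s63_207_187 (.c k188 s63_207_188 (.c k189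
  s63_207_189 (.c k190 s63_207_190 (.c k191 s63_207_191 (.c k192 s63_207_192 (.c k193 s63_207_193
  (.c k194 s63_207_194 (.c k195 s63_207_195 (.c k196 s63_207_196 (.c k197 s63_207_197 (.c k198
  s63_207_198 (.c k199 s63_207_199 (.c k200 s63_207_200 (.c k201 s63_207_201 (.c k202 s63_207_202
  (.c k203 s63_207_203 (.c k204 s63_207_204 (.c k205 s63_207_205 (.c k206 s63_207_206 (.c k208
  s63_207_208 (.c k209 s63_207_209 (.c k210 s63_207_210 (.c k211 s63_207_211 (.c k212 s63_207_212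
  (.c k213 s63_207_213 (.c k214 s63_207_214 (.c k215 s63_207_215 (.c k216 s63_207_216 (.c k217
  s63_207_217 (.c k218 s63_207_218 (.c k219 s63_207_219 (.c k220 s63_207_220 (.c k221 s63_207_221
  (.c k222 s63_207_222 (.c k223 s63_207_223 (.c k224 s63_207_224 (.c k225 s63_207_225 (.c k226
  s63_207_226 (.c k227 s63_207_227 (.c k228 s63_207_228 (.c k229 s63_207_229 (.c k230 s63_207_230
  (.c k231 s63_207_231 (.c k232 s63_207_232 (.c k233 s63_207_233 (.c k234 s63_207_234 (.c k235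
  s63_207_235 (.c k236 s63_207_236 (.c k237 s63_207_237 (.c k238 s63_207_238 (.c k239 s63_207_239
  (.c k240 s63_207_240 (.c k241 s63_207_241 (.c k242 s63_207_242 (.c k243 s63_207_243 (.c k244
  s63_207_244 (.c k245 s63_207_245 (.c k246 s63_207_246 (.c k247 s63_207_247 (.c k248 s63_207_248
  (.c k249 s63_207_249 (.c k250 s63_207_250 (.c k251 s63_207_251 (.c k252 s63_207_252 (.c k253
  s63_207_253 (.c k254 s63_207_254 (.c k255 s63_207_255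
  .n))))))))))))))))))))))))))))))))))))))))))))))))))))))))))))))))))))))))))))))))
  ))))))))))))))))))))))))))))))))))))))))))))))))))))))))))))))))))))))))))))))))
  )))))))))))))))))))))))))))))))))))))))))))))))))))))))))))))))))))))))))))))))) ))))))))))))

def s170_171_1 : T TT 256 :=
  (.q k252 [(.s k84 k168 13 (.d k86 k87 k3 0 14))] (.c k3 (.f k84 k168 13 (.q k240 [(.s k80 k160 11
  (.s k90 k95 2 (.d k248 k244 k11 1 12))), (.s k244 k248 1 (.s k4 k164 11 (.s k166 k247 12 (.s k172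
  k163 2 (.d k12 k8 k92 1 11))))), (.s k248 k244 1 (.s k90 k11 12 (.d k80 k95 k160 2 11))), (.s k80
  k160 11 (.s k88 k92 1 (.s k90 k95 2 (.s k89 k91 0 (.s k249 k9 11 (.s k243 k246 2 (.d k12 k164 k166
  13 14)))))))] (.c k87 (.q k255 [(.s k80 k160 11 (.s k248 k244 1 (.d k90 k95 k11 2 12))), (.s k244
  k248 1 (.s k245 k250 2 (.s k247 k246 0 (.d k4 k164 k166 11 12)))), (.s k80 k160 11 (.s k90 k95 2
  (.s k165 k15 14 (.d k245 k250 k5 2 11))))] (.c k90 (.l (.s k80 k160 11 (.s k88 k92 1 (.s k164 k12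
  13 (.d k244 k248 k4 1 11))))) (.c k164 (.l (.s k248 k244 1 (.s k90 k11 12 (.d k80 k95 k160 2
  11)))) .n))) (.c k160 (.l (.s k244 k248 1 (.s k164 k4 11 (.s k88 k12 13 (.s k80 k92 1 (.s k90 k95
  2 (.s k165 k15 14 (.d k86 k7 k87 12 0)))))))) (.c k255 (.l (.s k87 k86 0 (.s k80 k160 11 (.s k90
  k95 2 (.d k248 k244 k11 1 12))))) .n))))) (.c k84 (.q k4 [(.s k12 k8 1 (.s k166 k247 12 (.d k172
  k163 k92 2 11))), (.s k3 k86 14 (.s k12 k8 1 (.s k6 k9 2 (.s k5 k7 0 (.s k165 k245 11 (.s k173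
  k161 1 (.d k15 k10 k94 2 12))))))), (.s k3 k86 14 (.s k166 k247 12 (.s k163 k172 2 (.s k243 k83 11
  (.s k81 k162 12 (.s k89 k93 1 (.d k249 k246 k9 2 11)))))))] (.c k89 (.l (.s k166 k247 12 (.s k172
  k163 2 (.d k12 k8 k92 1 11)))) .n)) (.c k86 (.f k84 k168 13 (.q k4 [(.s k166 k247 12 (.s k172 k163
  2 (.d k12 k8 k92 1 11))), (.s k12 k8 1 (.s k92 k172 11 (.s k88 k80 1 (.d k164 k244 k240 11 13)))),
  (.s k164 k244 11 (.s k166 k247 12 (.s k165 k167 0 (.s k173 k161 1 (.s k15 k94 12 (.d k5 k245 k10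
  11 2))))))] (.c k2 (.q k254 [(.s k166 k247 12 (.s k172 k163 2 (.d k12 k8 k92 1 11))), (.s k244
  k164 11 (.s k247 k166 12 (.s k246 k245 0 (.s k243 k249 2 (.d k255 k253 k251 0 1))))), (.s k12 k8 1
  (.s k92 k172 11 (.s k88 k80 1 (.d k164 k244 k240 11 13))))] (.c k172 (.l (.s k12 k8 1 (.s k166
  k247 12 (.s k89 k243 14 (.s k93 k81 1 (.d k255 k253 k174 0 12)))))) .n)) (.c k254 (.q k2 [(.s k166
  k247 12 (.s k172 k163 2 (.d k12 k8 k92 1 11))), (.s k12 k8 1 (.s k92 k172 11 (.s k88 k80 1 (.d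
  k164 k244 k240 11 13)))), (.s k164 k244 11 (.s k166 k247 12 (.s k165 k167 0 (.s k173 k161 1 (.s
  k15 k94 12 (.d k5 k245 k10 11 2))))))] .n) .n)))) (.c k87 (.q k166 [(.s k172 k163 2 (.s k12 k92 11
  (.d k4 k8 k247 1 12))), (.s k3 k86 14 (.s k163 k172 2 (.s k243 k83 11 (.s k81 k162 12 (.s k89 k93
  1 (.d k249 k246 k9 2 11)))))), (.s k3 k86 14 (.s k4 k247 12 (.s k12 k8 1 (.s k9 k6 2 (.d k89 k249
  k243 11 14)))))] (.c k3 (.q k255 [(.s k4 k247 12 (.s k12 k8 1 (.d k172 k163 k92 2 11))), (.s k247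
  k4 12 (.s k243 k251 1 (.s k81 k162 12 (.s k89 k93 1 (.d k249 k246 k9 2 11))))), (.s k172 k163 2
  (.s k12 k92 11 (.s k93 k174 12 (.d k89 k243 k81 14 1))))] (.c k89 (.l (.s k4 k247 12 (.s k172 k163
  2 (.d k12 k8 k92 1 11)))) .n)) (.c k255 (.l (.s k3 k86 14 (.s k4 k247 12 (.s k12 k8 1 (.d k172
  k163 k92 2 11))))) .n))) (.c k168 (.q k4 [(.s k166 k247 12 (.s k172 k163 2 (.d k12 k8 k92 1 11))),
  (.s k3 k86 14 (.s k12 k8 1 (.s k6 k9 2 (.s k5 k7 0 (.s k165 k245 11 (.s k173 k161 1 (.d k15 k10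
  k94 2 12))))))), (.s k86 k3 14 (.s k87 k84 0 (.s k247 k166 12 (.s k7 k167 11 (.s k165 k244 12 (.d
  k5 k6 k245 0 11))))))] .n) .n))))))

def s170_171_2 : T TT 256 :=
  (.f k253 k1 13 (.q k252 [(.s k84 k168 13 (.d k86 k87 k3 0 14))] (.c k3 (.f k84 k168 13 (.f k255
  k254 0 (.f k86 k87 0 (.q k4 [(.s k12 k8 1 (.s k172 k92 11 (.d k166 k163 k247 2 12))), (.s k166
  k247 12 (.s k6 k246 11 (.s k7 k5 0 (.d k244 k164 k165 11 12)))), (.s k12 k8 1 (.s k92 k172 11 (.s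
  k88 k80 1 (.d k164 k244 k240 11 13))))] .n)))) (.c k84 (.q k4 [(.s k12 k8 1 (.s k166 k247 12 (.d
  k172 k163 k92 2 11))), (.s k86 k3 14 (.s k166 k247 12 (.s k6 k246 11 (.s k5 k7 0 (.s k15 k10 2 (.s
  k173 k94 12 (.d k165 k245 k161 11 1))))))), (.s k12 k8 1 (.s k86 k3 14 (.s k92 k172 11 (.s k89 k83
  2 (.s k93 k81 1 (.d k255 k254 k174 0 12))))))] (.c k86 (.l (.s k254 k255 0 (.s k12 k8 1 (.s k166
  k247 12 (.d k172 k163 k92 2 11))))) (.c k254 (.l (.s k86 k3 14 (.s k12 k8 1 (.s k166 k247 12 (.d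
  k172 k163 k92 2 11))))) .n))) (.c k86 (.f k254 k255 0 (.f k84 k168 13 (.q k51 [(.s k185 k118 10
  (.s k153 k137 3 (.d k17 k34 k221 4 9))), (.s k118 k185 10 (.s k50 k186 9 (.s k48 k49 0 (.s k16 k32
  3 (.s k154 k223 10 (.d k184 k139 k116 4 9)))))), (.s k17 k34 4 (.s k221 k153 9 (.s k237 k205 3 (.s
  k101 k33 9 (.s k69 k117 3 (.d k207 k222 k138 4 10))))))] (.c k3 (.q k87 [(.s k17 k34 4 (.s k153
  k221 9 (.d k185 k137 k118 3 10))), (.s k118 k185 10 (.s k50 k186 9 (.s k48 k49 0 (.s k16 k32 3 (.s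
  k154 k223 10 (.d k184 k139 k116 4 9)))))), (.s k17 k34 4 (.s k221 k153 9 (.s k237 k205 3 (.s k101
  k33 9 (.s k69 k117 3 (.d k207 k222 k138 4 10))))))] (.c k17 (.l (.s k185 k118 10 (.s k49 k117 9
  (.s k48 k50 0 (.s k16 k32 3 (.s k154 k223 10 (.d k184 k116 k139 9 4))))))) (.c k50 (.l (.s k185
  k118 10 (.s k153 k137 3 (.d k17 k34 k221 4 9)))) .n))) (.c k17 (.l (.s k185 k118 10 (.s k49 k117 9
  (.s k48 k50 0 (.s k16 k32 3 (.s k154 k223 10 (.d k184 k116 k139 9 4))))))) (.c k87 (.q k3 [(.s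
  k185 k118 10 (.s k153 k137 3 (.d k17 k34 k221 4 9))), (.s k35 k19 3 (.s k102 k236 10 (.s k68 k119
  4 (.d k204 k153 k136 14 9)))), (.s k19 k35 3 (.s k118 k185 10 (.s k50 k186 9 (.s k48 k49 0 (.s k16
  k32 3 (.d k17 k34 k18 4 0))))))] .n) .n)))))) (.c k87 (.f k255 k254 0 (.f k86 k3 14 (.q k4 [(.s
  k12 k8 1 (.s k172 k92 11 (.d k166 k163 k247 2 12))), (.s k84 k168 13 (.s k166 k247 12 (.s k6 k246
  11 (.s k7 k5 0 (.d k244 k164 k165 11 12))))), (.s k12 k8 1 (.s k92 k172 11 (.s k89 k83 2 (.d k93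
  k81 k174 1 12))))] .n))) (.c k168 (.q k4 [(.s k166 k247 12 (.s k172 k163 2 (.d k12 k8 k92 1 11))),
  (.s k12 k8 1 (.s k86 k3 14 (.s k166 k247 12 (.s k246 k6 11 (.d k243 k89 k249 14 2))))), (.s k86 k3
  14 (.s k87 k84 0 (.s k247 k166 12 (.s k7 k167 11 (.s k165 k244 12 (.d k5 k6 k245 0 11)))))), (.s
  k12 k8 1 (.s k86 k3 14 (.s k92 k172 11 (.s k89 k83 2 (.s k93 k81 1 (.d k255 k254 k174 0 12))))))]
  (.c k86 (.l (.s k254 k255 0 (.s k12 k8 1 (.s k166 k247 12 (.d k172 k163 k92 2 11))))) (.c k254 (.l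
  (.s k86 k3 14 (.s k12 k8 1 (.s k166 k247 12 (.d k172 k163 k92 2 11))))) .n))) (.c k254 (.l (.s k86
  k3 14 (.d k84 k87 k168 0 13))) .n))))))))

def s170_171_3 : T TT 256 :=
  (.f k253 k1 13 (.q k105 [(.s k125 k65 5 (.s k61 k189 7 (.s k193 k149 13 (.d k233 k213 k41 5 7)))),
  (.s k65 k125 5 (.s k195 k130 8 (.s k150 k60 14 (.s k215 k20 8 (.s k255 k235 5 (.s k252 k254 0 (.d
  k233 k41 k214 7 6)))))))] (.c k41 (.q k149 [(.s k61 k193 13 (.d k125 k65 k189 5 7)), (.s k21 k213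
  7 (.s k63 k42 6 (.s k65 k125 5 (.s k106 k192 14 (.s k107 k104 0 (.d k195 k130 k151 8 13))))))] (.c
  k21 (.l (.s k61 k193 13 (.d k125 k65 k189 5 7))) (.c k22 (.q k60 [(.s k61 k193 13 (.d k125 k65
  k189 5 7)), (.s k20 k40 5 (.d k150 k215 k195 8 14))] (.c k21 (.l (.s k61 k193 13 (.d k125 k65 k189
  5 7))) (.c k61 (.l (.s k21 k213 7 (.s k20 k40 5 (.d k150 k215 k195 8 14)))) (.c k87 (.q k255 [(.d
  k125 k65 k190 5 8), (.s k20 k40 5 (.d k150 k215 k195 8 14))] (.c k21 (.l (.s k61 k193 13 (.d k125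
  k65 k189 5 7))) (.c k61 (.l (.s k21 k213 7 (.d k125 k65 k190 5 8))) .n))) (.c k255 (.q k87 [(.s
  k61 k193 13 (.d k125 k65 k189 5 7)), (.s k20 k40 5 (.d k150 k215 k195 8 14))] (.c k21 (.l (.s k61
  k193 13 (.d k125 k65 k189 5 7))) (.c k61 (.l (.s k21 k213 7 (.s k20 k40 5 (.d k150 k215 k195 8
  14)))) .n))) .n))))) (.c k60 (.q k22 [(.s k61 k193 13 (.d k125 k65 k189 5 7)), (.s k21 k213 7 (.s
  k20 k23 0 (.s k63 k42 6 (.s k150 k215 8 (.s k151 k148 0 (.s k107 k195 13 (.d k106 k104 k192 0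
  14)))))))] (.c k21 (.l (.s k61 k193 13 (.d k125 k65 k189 5 7))) (.c k61 (.l (.s k21 k213 7 (.s k63
  k42 6 (.s k65 k125 5 (.s k106 k192 14 (.s k195 k130 8 (.d k107 k104 k151 0 13))))))) (.c k87 (.q
  k255 [(.s k61 k193 13 (.d k125 k65 k189 5 7)), (.s k21 k213 7 (.s k63 k42 6 (.s k127 k191 7 (.d
  k106 k64 k192 6 14))))] (.c k21 (.l (.s k61 k193 13 (.d k125 k65 k189 5 7))) (.c k61 (.l (.s k21
  k213 7 (.s k63 k42 6 (.s k106 k192 14 (.d k127 k64 k191 6 7))))) .n))) (.c k255 (.q k87 [(.s k61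
  k193 13 (.d k125 k65 k189 5 7)), (.s k21 k213 7 (.s k23 k20 0 (.d k86 k84 k212 0 8)))] (.c k21 (.l
  (.s k61 k193 13 (.d k125 k65 k189 5 7))) (.c k61 (.l (.s k21 k213 7 (.s k23 k20 0 (.d k86 k84 k212
  0 8)))) (.c k125 (.q k190 [(.s k86 k84 0 (.s k23 k212 8 (.d k21 k20 k213 0 7))), (.s k86 k84 0 (.s
  k150 k214 7 (.s k188 k131 6 (.d k189 k191 k129 0 5)))), (.s k21 k213 7 (.s k20 k23 0 (.s k150 k215
  8 (.s k188 k131 6 (.d k189 k191 k129 0 5)))))] (.c k21 (.l (.s k61 k193 13 (.s k86 k84 0 (.s k23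
  k212 8 (.s k150 k214 7 (.d k151 k148 k215 0 7)))))) (.c k61 (.l (.s k21 k213 7 (.s k23 k20 0 (.d
  k86 k84 k212 0 8)))) .n))) (.c k190 (.l (.s k125 k65 5 (.d k61 k193 k189 13 7))) .n))))) .n)))))
  (.c k61 (.l (.s k21 k213 7 (.s k63 k42 6 (.s k65 k125 5 (.s k106 k192 14 (.s k107 k104 0 (.d k195
  k130 k151 8 13))))))) (.c k65 (.l (.s k21 k213 7 (.s k61 k193 13 (.s k129 k189 5 (.s k63 k42 6 (.s
  k60 k62 0 (.s k150 k195 14 (.d k20 k40 k215 5 8)))))))) (.c k87 (.q k255 [(.s k61 k193 13 (.d k125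
  k65 k189 5 7)), (.s k21 k213 7 (.s k63 k42 6 (.s k127 k191 7 (.d k106 k64 k192 6 14))))] (.c k21
  (.l (.s k61 k193 13 (.d k125 k65 k189 5 7))) (.c k22 (.q k60 [(.d k125 k65 k190 5 8), (.s k20 k40
  5 (.d k150 k215 k195 8 14))] (.c k21 (.l (.s k61 k193 13 (.d k125 k65 k189 5 7))) (.c k61 (.l (.s
  k21 k213 7 (.d k125 k65 k190 5 8))) .n))) (.c k60 (.q k22 [(.s k61 k193 13 (.d k125 k65 k189 5
  7)), (.s k21 k213 7 (.s k63 k42 6 (.s k127 k191 7 (.d k106 k64 k192 6 14))))] (.c k21 (.l (.s k61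
  k193 13 (.d k125 k65 k189 5 7))) (.c k61 (.l (.s k21 k213 7 (.s k63 k42 6 (.s k106 k192 14 (.d
  k127 k64 k191 6 7))))) .n))) (.c k61 (.l (.s k21 k213 7 (.s k63 k42 6 (.s k106 k192 14 (.d k127
  k64 k191 6 7))))) .n))))) (.c k125 (.l (.s k21 k213 7 (.s k61 k193 13 (.s k63 k42 6 (.s k60 k62 0
  (.s k150 k195 14 (.d k20 k40 k215 5 8))))))) (.c k129 (.l (.s k21 k213 7 (.s k61 k193 13 (.s k65
  k125 5 (.s k63 k42 6 (.s k60 k62 0 (.d k195 k130 k150 8 14))))))) (.c k255 (.q k87 [(.s k61 k193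
  13 (.d k125 k65 k189 5 7)), (.s k21 k213 7 (.s k86 k84 0 (.s k23 k212 8 (.s k215 k151 7 (.d k20
  k22 k150 0 8)))))] (.c k21 (.l (.s k61 k193 13 (.d k125 k65 k189 5 7))) (.c k22 (.q k60 [(.s k61
  k193 13 (.d k125 k65 k189 5 7)), (.s k20 k40 5 (.d k150 k215 k195 8 14))] (.c k21 (.l (.s k61 k193
  13 (.d k125 k65 k189 5 7))) (.c k61 (.l (.s k21 k213 7 (.s k20 k40 5 (.d k150 k215 k195 8 14))))
  .n))) (.c k60 (.q k22 [(.s k61 k193 13 (.d k125 k65 k189 5 7)), (.s k21 k213 7 (.s k23 k20 0 (.d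
  k86 k84 k212 0 8)))] (.c k21 (.l (.s k61 k193 13 (.d k125 k65 k189 5 7))) (.c k61 (.l (.s k21 k213
  7 (.s k23 k20 0 (.d k86 k84 k212 0 8)))) (.c k125 (.q k190 [(.s k86 k84 0 (.s k23 k212 8 (.d k21
  k20 k213 0 7))), (.s k86 k84 0 (.s k150 k214 7 (.s k188 k131 6 (.d k189 k191 k129 0 5)))), (.s k21
  k213 7 (.s k20 k23 0 (.s k150 k215 8 (.s k188 k131 6 (.d k189 k191 k129 0 5)))))] (.c k21 (.l (.s
  k61 k193 13 (.s k86 k84 0 (.s k23 k212 8 (.s k150 k214 7 (.d k151 k148 k215 0 7)))))) (.c k61 (.l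
  (.s k21 k213 7 (.s k23 k20 0 (.d k86 k84 k212 0 8)))) .n))) (.c k190 (.l (.s k125 k65 5 (.d k61
  k193 k189 13 7))) .n))))) (.c k61 (.l (.s k21 k213 7 (.s k63 k42 6 (.s k84 k86 0 (.s k189 k129 5
  (.d k252 k126 k168 8 13)))))) .n))))) .n)))))))))) (.c k65 (.q k255 [(.s k233 k41 7 (.s k252 k254
  0 (.s k195 k214 6 (.s k215 k235 5 (.d k150 k60 k20 14 8))))), (.s k252 k254 0 (.s k84 k168 13 (.s
  k86 k87 0 (.s k124 k67 6 (.s k60 k188 7 (.s k20 k40 5 (.d k150 k195 k215 14 8))))))), (.s k233 k41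
  7 (.s k193 k213 5 (.s k61 k149 13 (.s k125 k189 7 (.s k60 k190 8 (.s k20 k40 5 (.d k150 k215 k195
  8 14))))))), (.s k233 k41 7 (.s k252 k254 0 (.s k195 k214 6 (.s k235 k215 5 (.s k234 k232 0 (.d
  k213 k193 k192 5 6))))))] (.c k60 (.f k252 k254 0 (.l (.s k84 k168 13 (.s k86 k87 0 (.s k124 k67 6
  (.s k64 k104 5 (.s k127 k106 6 (.s k63 k191 7 (.d k126 k125 k189 0 8))))))))) (.c k129 (.q k193
  [(.d k233 k213 k41 5 7), (.s k61 k149 13 (.s k125 k189 7 (.s k60 k190 8 (.s k20 k40 5 (.d k150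
  k215 k195 8 14)))))] (.c k66 (.q k192 [(.d k213 k233 k234 5 6), (.s k64 k128 7 (.s k106 k127 6 (.d
  k149 k61 k63 13 14)))] (.c k64 (.q k67 [(.d k213 k233 k234 5 6), (.s k86 k124 6 (.s k84 k87 0 (.d
  k252 k254 k168 0 13)))] .n) (.c k67 (.l (.s k64 k128 7 (.d k213 k233 k234 5 6))) .n))) (.c k192
  (.q k66 [(.d k233 k213 k41 5 7), (.s k61 k149 13 (.s k125 k189 7 (.s k60 k190 8 (.s k20 k40 5 (.d
  k150 k215 k195 8 14)))))] .n) .n))) (.c k193 (.q k129 [(.s k149 k189 5 (.s k21 k213 7 (.s k63 k42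
  6 (.s k106 k192 14 (.d k127 k64 k191 6 7))))), (.s k41 k233 7 (.s k189 k149 5 (.s k125 k61 7 (.s
  k60 k190 8 (.s k20 k40 5 (.d k150 k215 k195 8 14)))))), (.s k233 k41 7 (.s k252 k254 0 (.s k195
  k214 6 (.s k215 k235 5 (.d k150 k60 k20 14 8)))))] (.c k195 (.l (.s k149 k189 5 (.s k21 k213 7 (.s
  k63 k42 6 (.s k127 k191 7 (.d k106 k64 k192 6 14)))))) .n)) (.c k195 (.f k252 k254 0 (.f k84 k168
  13 (.l (.s k86 k87 0 (.s k233 k41 7 (.s k193 k213 5 (.s k61 k149 13 (.s k125 k189 7 (.s k60 k190 8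
  (.d k124 k188 k67 7 6)))))))))) (.c k215 (.l (.s k233 k41 7 (.s k193 k213 5 (.s k61 k149 13 (.s
  k125 k189 7 (.s k60 k190 8 (.s k252 k254 0 (.d k195 k214 k150 6 14)))))))) .n)))))) (.c k87 (.q
  k255 [(.s k65 k125 5 (.s k195 k130 8 (.s k150 k60 14 (.d k215 k235 k20 5 8)))), (.s k125 k65 5 (.s
  k61 k189 7 (.s k193 k149 13 (.d k233 k213 k41 5 7)))), (.s k233 k41 7 (.s k252 k254 0 (.s k195
  k214 6 (.s k215 k235 5 (.d k150 k60 k20 14 8)))))] (.c k41 (.l (.s k65 k125 5 (.s k195 k130 8 (.s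
  k215 k235 5 (.d k150 k20 k60 8 14))))) .n)) (.c k125 (.q k255 [(.s k233 k41 7 (.s k252 k254 0 (.s
  k195 k214 6 (.s k215 k235 5 (.d k150 k60 k20 14 8))))), (.s k233 k41 7 (.s k213 k193 5 (.s k192
  k234 6 (.s k64 k128 7 (.s k106 k127 6 (.d k149 k21 k63 7 14)))))), (.s k252 k254 0 (.s k84 k168 13
  (.s k86 k87 0 (.s k124 k67 6 (.s k60 k188 7 (.s k20 k40 5 (.d k150 k195 k215 14 8)))))))] (.c k60
  (.q k22 [(.s k233 k41 7 (.s k252 k254 0 (.s k84 k168 13 (.s k86 k87 0 (.d k214 k195 k150 6 7))))),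
  (.s k233 k41 7 (.s k213 k193 5 (.s k192 k234 6 (.s k64 k128 7 (.s k106 k127 6 (.d k149 k21 k63 7
  14)))))), (.s k252 k254 0 (.s k84 k168 13 (.s k86 k87 0 (.s k150 k214 7 (.s k20 k215 8 (.s k212
  k148 7 (.d k23 k21 k149 0 8)))))))] (.c k21 (.l (.s k252 k254 0 (.s k84 k168 13 (.s k86 k87 0 (.s
  k214 k150 7 (.d k233 k195 k41 6 7)))))) .n)) .n)) (.c k233 (.q k255 [(.s k65 k125 5 (.s k195 k130
  8 (.s k150 k60 14 (.d k215 k235 k20 5 8)))), (.s k125 k65 5 (.s k189 k61 7 (.s k252 k254 0 (.s k63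
  k126 8 (.s k21 k42 6 (.d k149 k129 k213 5 7)))))), (.s k252 k254 0 (.s k84 k168 13 (.s k86 k87 0
  (.s k124 k67 6 (.s k60 k188 7 (.s k20 k40 5 (.d k150 k195 k215 14 8)))))))] .n) (.c k255 (.q k87
  [(.s k125 k65 5 (.s k61 k189 7 (.s k193 k149 13 (.d k233 k213 k41 5 7)))), (.s k65 k125 5 (.s k86
  k84 0 (.s k67 k124 6 (.s k64 k66 0 (.d k127 k107 k106 5 6)))))] (.c k65 (.f k86 k84 0 (.f k67 k124
  6 (.f k127 k107 5 (.l (.s k64 k106 6 (.s k192 k128 7 (.s k233 k41 7 (.s k193 k213 5 (.s k195 k194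
  0 (.s k214 k252 6 (.d k150 k22 k60 7 14))))))))))) (.c k125 (.q k60 [(.s k20 k40 5 (.d k150 k215
  k195 8 14)), (.s k20 k40 5 (.s k84 k86 0 (.s k148 k212 7 (.s k104 k192 13 (.s k64 k124 5 (.d k106
  k127 k107 6 0)))))), (.s k84 k86 0 (.s k150 k195 14 (.s k252 k168 13 (.d k188 k131 k124 6 7))))]
  .n) (.c k129 (.l (.s k233 k41 7 (.s k125 k65 5 (.s k193 k213 5 (.d k61 k189 k149 7 13))))) .n))))
  .n))))))))

def s170_171_4 : T TT 256 :=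
  (.q k5 [(.s k1 k253 13 (.s k13 k9 1 (.s k165 k245 11 (.s k161 k173 1 (.d k241 k81 k89 11 13))))),
  (.s k1 k253 13 (.s k3 k2 0 (.s k15 k10 2 (.s k11 k7 1 (.s k90 k248 12 (.s k80 k95 2 (.d k240 k160
  k165 11 14))))))), (.s k15 k10 2 (.s k165 k245 11 (.s k173 k161 1 (.s k252 k94 12 (.s k84 k168 13
  (.d k86 k87 k3 0 14))))))] (.c k165 (.l (.s k1 k253 13 (.s k3 k2 0 (.s k9 k13 1 (.s k12 k6 2 (.s
  k89 k249 11 (.s k243 k166 14 (.d k81 k93 k162 1 12)))))))) .n))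

def s170_171_5 : T TT 256 :=
  (.q k17 [(.s k1 k253 13 (.s k49 k33 3 (.s k153 k221 9 (.s k137 k185 3 (.d k205 k69 k101 9 13))))),
  (.s k51 k34 4 (.s k153 k221 9 (.s k185 k137 3 (.s k252 k118 10 (.s k84 k168 13 (.d k86 k87 k3 0
  14)))))), (.s k1 k253 13 (.s k3 k2 0 (.s k51 k34 4 (.s k19 k35 3 (.s k18 k16 0 (.d k33 k49 k48 3
  4))))))] .n)

def s170_171_6 : T TT 256 :=
  (.q k17 [(.s k1 k253 13 (.s k49 k33 3 (.s k153 k221 9 (.s k137 k185 3 (.d k205 k69 k101 9 13))))),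
  (.s k51 k34 4 (.s k153 k221 9 (.s k185 k137 3 (.s k252 k118 10 (.s k84 k168 13 (.d k86 k87 k3 0
  14)))))), (.s k1 k253 13 (.s k3 k2 0 (.s k51 k34 4 (.s k19 k35 3 (.s k18 k16 0 (.d k33 k49 k48 3
  4))))))] .n)

def s170_171_7 : T TT 256 :=
  (.q k17 [(.s k1 k253 13 (.s k49 k33 3 (.s k153 k221 9 (.s k137 k185 3 (.d k205 k69 k101 9 13))))),
  (.s k51 k34 4 (.s k153 k221 9 (.s k185 k137 3 (.s k252 k118 10 (.s k84 k168 13 (.d k86 k87 k3 0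
  14)))))), (.s k1 k253 13 (.s k3 k2 0 (.s k51 k34 4 (.s k19 k35 3 (.s k18 k16 0 (.d k33 k49 k48 3
  4))))))] .n)

def s170_171_8 : T TT 256 :=
  (.q k89 [(.s k1 k253 13 (.s k9 k249 11 (.s k13 k5 1 (.s k81 k93 1 (.d k241 k161 k165 11 13))))),
  (.s k81 k93 1 (.s k243 k162 12 (.s k249 k9 11 (.s k252 k246 2 (.s k84 k168 13 (.d k86 k87 k3 0
  14)))))), (.s k1 k253 13 (.s k3 k2 0 (.s k81 k93 1 (.s k86 k252 14 (.s k83 k92 2 (.d k243 k163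
  k162 11 12)))))), (.s k1 k253 13 (.s k3 k2 0 (.s k9 k249 11 (.s k12 k6 2 (.s k86 k252 14 (.s k83
  k92 2 (.d k243 k163 k166 11 14)))))))] .n)

def s170_171_9 : T TT 256 :=
  (.q k17 [(.s k1 k253 13 (.s k49 k33 3 (.s k153 k221 9 (.s k137 k185 3 (.d k205 k69 k101 9 13))))),
  (.s k51 k34 4 (.s k153 k221 9 (.s k185 k137 3 (.s k252 k118 10 (.s k84 k168 13 (.d k86 k87 k3 0
  14)))))), (.s k1 k253 13 (.s k3 k2 0 (.s k51 k34 4 (.s k19 k35 3 (.s k18 k16 0 (.d k33 k49 k48 3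
  4))))))] .n)

def s170_171_10 : T TT 256 :=
  (.f k1 k253 13 (.q k90 [(.s k3 k2 0 (.s k11 k248 12 (.s k15 k7 1 (.s k80 k95 2 (.d k240 k160 k165
  11 14))))), (.s k80 k95 2 (.s k240 k160 11 (.s k165 k15 14 (.s k161 k173 1 (.s k81 k241 11 (.d k82
  k83 k3 0 12)))))), (.s k3 k2 0 (.s k11 k248 12 (.s k15 k7 1 (.s k86 k252 14 (.s k82 k94 1 (.d k240
  k161 k165 12 14)))))), (.s k3 k2 0 (.s k80 k95 2 (.s k86 k252 14 (.s k82 k94 1 (.s k83 k81 0 (.s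
  k84 k87 0 (.d k92 k88 k89 1 2)))))))] (.c k3 (.l (.s k80 k95 2 (.s k240 k160 11 (.s k165 k15 14
  (.s k5 k245 11 (.s k13 k9 1 (.s k161 k173 1 (.d k241 k81 k89 11 13)))))))) (.c k15 (.l (.s k3 k2 0
  (.s k80 k95 2 (.s k86 k252 14 (.s k240 k160 11 (.d k82 k94 k161 1 12)))))) .n))))

def s170_171_11 : T TT 256 :=
  (.f k1 k253 13 (.q k41 [(.s k61 k21 5 (.s k105 k233 7 (.s k65 k125 5 (.d k193 k129 k149 7 13)))),
  (.s k3 k2 0 (.s k21 k61 5 (.s k22 k60 6 (.s k23 k20 0 (.d k63 k43 k42 5 6))))), (.s k3 k2 0 (.s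
  k60 k22 6 (.s k20 k40 5 (.s k105 k233 7 (.d k150 k215 k195 8 14)))))] (.c k91 (.q k251 [(.s k61
  k21 5 (.s k105 k233 7 (.s k65 k125 5 (.d k193 k129 k149 7 13)))), (.s k3 k2 0 (.s k21 k61 5 (.s
  k22 k60 6 (.s k23 k20 0 (.d k63 k43 k42 5 6))))), (.s k3 k2 0 (.s k60 k22 6 (.s k20 k40 5 (.s k105
  k233 7 (.d k150 k215 k195 8 14)))))] .n) (.c k251 (.q k91 [(.s k61 k21 5 (.s k105 k233 7 (.s k65
  k125 5 (.d k193 k129 k149 7 13)))), (.s k3 k2 0 (.s k21 k61 5 (.s k22 k60 6 (.s k23 k20 0 (.d k63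
  k43 k42 5 6))))), (.s k3 k2 0 (.s k60 k22 6 (.s k20 k40 5 (.s k105 k233 7 (.d k150 k215 k195 8
  14)))))] (.c k8 (.q k89 [(.s k9 k249 11 (.s k13 k5 1 (.s k81 k93 1 (.d k241 k161 k165 11 13)))),
  (.s k3 k2 0 (.s k86 k252 14 (.s k83 k92 2 (.d k87 k84 k95 0 1))))] (.c k9 (.q k10 [(.s k15 k5 2
  (.s k81 k93 1 (.d k243 k162 k167 12 13))), (.s k3 k2 0 (.s k86 k252 14 (.s k83 k92 2 (.d k87 k84
  k95 0 1))))] .n) (.c k10 (.l (.s k9 k249 11 (.s k13 k5 1 (.s k81 k93 1 (.d k241 k161 k165 11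
  13))))) .n))) (.c k89 (.q k8 [(.s k61 k21 5 (.s k105 k233 7 (.s k65 k125 5 (.d k193 k129 k149 7
  13)))), (.s k3 k2 0 (.s k21 k61 5 (.s k22 k60 6 (.s k23 k20 0 (.d k63 k43 k42 5 6))))), (.s k3 k2
  0 (.s k60 k22 6 (.s k20 k40 5 (.s k105 k233 7 (.d k150 k215 k195 8 14)))))] .n) .n))) .n))))

def s170_171_12 : T TT 256 :=
  (.q k17 [(.s k1 k253 13 (.s k49 k33 3 (.s k153 k221 9 (.s k137 k185 3 (.d k205 k69 k101 9 13))))),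
  (.s k51 k34 4 (.s k153 k221 9 (.s k185 k137 3 (.s k252 k118 10 (.s k84 k168 13 (.d k86 k87 k3 0
  14)))))), (.s k1 k253 13 (.s k3 k2 0 (.s k51 k34 4 (.s k19 k35 3 (.s k18 k16 0 (.d k33 k49 k48 3
  4))))))] .n)

def s170_171_13 : T TT 256 :=
  (.q k17 [(.s k1 k253 13 (.s k49 k33 3 (.s k153 k221 9 (.s k137 k185 3 (.d k205 k69 k101 9 13))))),
  (.s k51 k34 4 (.s k153 k221 9 (.s k185 k137 3 (.s k252 k118 10 (.s k84 k168 13 (.d k86 k87 k3 0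
  14)))))), (.s k1 k253 13 (.s k3 k2 0 (.s k51 k34 4 (.s k19 k35 3 (.s k18 k16 0 (.d k33 k49 k48 3
  4))))))] .n)

def s170_171_14 : T TT 256 :=
  (.q k5 [(.s k1 k253 13 (.s k13 k9 1 (.s k165 k245 11 (.s k161 k173 1 (.d k241 k81 k89 11 13))))),
  (.s k15 k10 2 (.s k165 k245 11 (.s k173 k161 1 (.s k252 k94 12 (.s k84 k168 13 (.d k86 k87 k3 0
  14)))))), (.s k1 k253 13 (.s k3 k2 0 (.s k9 k13 1 (.s k6 k12 2 (.s k15 k10 2 (.d k7 k4 k11 0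
  1))))))] (.c k173 (.l (.s k1 k253 13 (.s k3 k2 0 (.s k86 k252 14 (.s k165 k245 11 (.s k7 k244 12
  (.d k15 k10 k11 2 1))))))) .n))

def s170_171_15 : T TT 256 :=
  (.q k17 [(.s k1 k253 13 (.s k49 k33 3 (.s k153 k221 9 (.s k137 k185 3 (.d k205 k69 k101 9 13))))),
  (.s k51 k34 4 (.s k153 k221 9 (.s k185 k137 3 (.s k252 k118 10 (.s k84 k168 13 (.d k86 k87 k3 0
  14)))))), (.s k1 k253 13 (.s k3 k2 0 (.s k51 k34 4 (.s k19 k35 3 (.s k18 k16 0 (.d k33 k49 k48 3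
  4))))))] .n)

def s170_171_16 : T TT 256 :=
  (.q k5 [(.s k1 k253 13 (.s k13 k9 1 (.s k165 k245 11 (.s k161 k173 1 (.d k241 k81 k89 11 13))))),
  (.s k15 k10 2 (.s k165 k245 11 (.s k173 k161 1 (.s k252 k94 12 (.s k84 k168 13 (.d k86 k87 k3 0
  14)))))), (.s k1 k253 13 (.s k3 k2 0 (.s k15 k10 2 (.s k7 k11 1 (.s k6 k4 0 (.d k9 k13 k12 1
  2))))))] .n)

def s170_171_17 : T TT 256 :=
  (.q k5 [(.s k1 k253 13 (.s k13 k9 1 (.s k165 k245 11 (.s k161 k173 1 (.d k241 k81 k89 11 13))))),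
  (.s k15 k10 2 (.s k165 k245 11 (.s k173 k161 1 (.s k252 k94 12 (.s k84 k168 13 (.d k86 k87 k3 0
  14)))))), (.s k1 k253 13 (.s k3 k2 0 (.s k15 k10 2 (.s k7 k11 1 (.s k6 k4 0 (.d k9 k13 k12 1
  2))))))] .n)

def s170_171_18 : T TT 256 :=
  (.q k5 [(.s k1 k253 13 (.s k13 k9 1 (.s k165 k245 11 (.s k161 k173 1 (.d k241 k81 k89 11 13))))),
  (.s k15 k10 2 (.s k165 k245 11 (.s k173 k161 1 (.s k252 k94 12 (.s k84 k168 13 (.d k86 k87 k3 0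
  14)))))), (.s k1 k253 13 (.s k3 k2 0 (.s k15 k10 2 (.s k7 k11 1 (.s k6 k4 0 (.d k9 k13 k12 1
  2))))))] .n)

def s170_171_19 : T TT 256 :=
  (.q k5 [(.s k1 k253 13 (.s k13 k9 1 (.s k165 k245 11 (.s k161 k173 1 (.d k241 k81 k89 11 13))))),
  (.s k15 k10 2 (.s k165 k245 11 (.s k173 k161 1 (.s k252 k94 12 (.s k84 k168 13 (.d k86 k87 k3 0
  14)))))), (.s k1 k253 13 (.s k3 k2 0 (.s k15 k10 2 (.s k7 k11 1 (.s k6 k4 0 (.d k9 k13 k12 1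
  2))))))] .n)

def s170_171_20 : T TT 256 :=
  (.q k5 [(.s k1 k253 13 (.s k13 k9 1 (.s k165 k245 11 (.s k161 k173 1 (.d k241 k81 k89 11 13))))),
  (.s k15 k10 2 (.s k165 k245 11 (.s k173 k161 1 (.s k252 k94 12 (.s k84 k168 13 (.d k86 k87 k3 0
  14)))))), (.s k1 k253 13 (.s k3 k2 0 (.s k15 k10 2 (.s k7 k11 1 (.s k6 k4 0 (.d k9 k13 k12 1
  2))))))] .n)

def s170_171_21 : T TT 256 :=
  (.q k5 [(.s k1 k253 13 (.s k13 k9 1 (.s k165 k245 11 (.s k161 k173 1 (.d k241 k81 k89 11 13))))),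
  (.s k15 k10 2 (.s k165 k245 11 (.s k173 k161 1 (.s k252 k94 12 (.s k84 k168 13 (.d k86 k87 k3 0
  14)))))), (.s k1 k253 13 (.s k3 k2 0 (.s k15 k10 2 (.s k7 k11 1 (.s k6 k4 0 (.d k9 k13 k12 1
  2))))))] .n)

def s170_171_22 : T TT 256 :=
  (.q k5 [(.s k1 k253 13 (.s k13 k9 1 (.s k165 k245 11 (.s k161 k173 1 (.d k241 k81 k89 11 13))))),
  (.s k15 k10 2 (.s k165 k245 11 (.s k173 k161 1 (.s k252 k94 12 (.s k84 k168 13 (.d k86 k87 k3 0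
  14)))))), (.s k1 k253 13 (.s k3 k2 0 (.s k15 k10 2 (.s k7 k11 1 (.s k6 k4 0 (.d k9 k13 k12 1
  2))))))] .n)

def s170_171_23 : T TT 256 :=
  (.q k5 [(.s k1 k253 13 (.s k13 k9 1 (.s k165 k245 11 (.s k161 k173 1 (.d k241 k81 k89 11 13))))),
  (.s k15 k10 2 (.s k165 k245 11 (.s k173 k161 1 (.s k252 k94 12 (.s k84 k168 13 (.d k86 k87 k3 0
  14)))))), (.s k1 k253 13 (.s k3 k2 0 (.s k15 k10 2 (.s k7 k11 1 (.s k6 k4 0 (.d k9 k13 k12 1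
  2))))))] .n)

def s170_171_24 : T TT 256 :=
  (.q k5 [(.s k1 k253 13 (.s k13 k9 1 (.s k165 k245 11 (.s k161 k173 1 (.d k241 k81 k89 11 13))))),
  (.s k15 k10 2 (.s k165 k245 11 (.s k173 k161 1 (.s k252 k94 12 (.s k84 k168 13 (.d k86 k87 k3 0
  14)))))), (.s k1 k253 13 (.s k3 k2 0 (.s k15 k10 2 (.s k7 k11 1 (.s k6 k4 0 (.d k9 k13 k12 1
  2))))))] .n)

def s170_171_25 : T TT 256 :=
  (.q k5 [(.s k1 k253 13 (.s k165 k245 11 (.s k161 k173 1 (.s k241 k81 11 (.d k13 k9 k89 1 13))))),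
  (.s k15 k10 2 (.s k165 k245 11 (.s k173 k161 1 (.s k252 k94 12 (.s k84 k168 13 (.d k86 k87 k3 0
  14)))))), (.s k1 k253 13 (.s k3 k2 0 (.s k15 k10 2 (.s k7 k11 1 (.s k6 k4 0 (.d k9 k13 k12 1
  2))))))] .n)

def s170_171_26 : T TT 256 :=
  (.q k5 [(.s k1 k253 13 (.s k13 k9 1 (.s k165 k245 11 (.s k161 k173 1 (.d k241 k81 k89 11 13))))),
  (.s k15 k10 2 (.s k165 k245 11 (.s k173 k161 1 (.s k252 k94 12 (.s k84 k168 13 (.d k86 k87 k3 0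
  14)))))), (.s k1 k253 13 (.s k3 k2 0 (.s k15 k10 2 (.s k7 k11 1 (.s k6 k4 0 (.d k9 k13 k12 1
  2))))))] .n)

def s170_171_27 : T TT 256 :=
  (.q k5 [(.s k1 k253 13 (.s k13 k9 1 (.s k165 k245 11 (.s k161 k173 1 (.d k241 k81 k89 11 13))))),
  (.s k15 k10 2 (.s k165 k245 11 (.s k173 k161 1 (.s k252 k94 12 (.s k84 k168 13 (.d k86 k87 k3 0
  14)))))), (.s k1 k253 13 (.s k3 k2 0 (.s k15 k10 2 (.s k7 k11 1 (.s k6 k4 0 (.d k9 k13 k12 1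
  2))))))] .n)

def s170_171_28 : T TT 256 :=
  (.q k5 [(.s k1 k253 13 (.s k13 k9 1 (.s k165 k245 11 (.s k161 k173 1 (.d k241 k81 k89 11 13))))),
  (.s k15 k10 2 (.s k165 k245 11 (.s k173 k161 1 (.s k252 k94 12 (.s k84 k168 13 (.d k86 k87 k3 0
  14)))))), (.s k1 k253 13 (.s k3 k2 0 (.s k15 k10 2 (.s k7 k11 1 (.s k6 k4 0 (.d k9 k13 k12 1
  2))))))] .n)

def s170_171_29 : T TT 256 :=
  (.q k5 [(.s k1 k253 13 (.s k13 k9 1 (.s k165 k245 11 (.s k161 k173 1 (.d k241 k81 k89 11 13))))),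
  (.s k15 k10 2 (.s k165 k245 11 (.s k173 k161 1 (.s k252 k94 12 (.s k84 k168 13 (.d k86 k87 k3 0
  14)))))), (.s k1 k253 13 (.s k3 k2 0 (.s k15 k10 2 (.s k7 k11 1 (.s k6 k4 0 (.d k9 k13 k12 1
  2))))))] .n)

def s170_171_30 : T TT 256 :=
  (.q k5 [(.s k1 k253 13 (.s k13 k9 1 (.s k165 k245 11 (.s k161 k173 1 (.d k241 k81 k89 11 13))))),
  (.s k15 k10 2 (.s k165 k245 11 (.s k173 k161 1 (.s k252 k94 12 (.s k84 k168 13 (.d k86 k87 k3 0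
  14)))))), (.s k1 k253 13 (.s k3 k2 0 (.s k15 k10 2 (.s k7 k11 1 (.s k6 k4 0 (.d k9 k13 k12 1
  2))))))] .n)

def s170_171_31 : T TT 256 :=
  (.q k5 [(.s k1 k253 13 (.s k13 k9 1 (.s k165 k245 11 (.s k161 k173 1 (.d k241 k81 k89 11 13))))),
  (.s k15 k10 2 (.s k165 k245 11 (.s k173 k161 1 (.s k252 k94 12 (.s k84 k168 13 (.d k86 k87 k3 0
  14)))))), (.s k1 k253 13 (.s k3 k2 0 (.s k15 k10 2 (.s k7 k11 1 (.s k6 k4 0 (.d k9 k13 k12 1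
  2))))))] .n)

def s170_171_32 : T TT 256 :=
  (.q k101 [(.s k1 k253 13 (.s k33 k237 9 (.s k49 k17 3 (.s k69 k117 3 (.d k205 k137 k153 9 13))))),
  (.s k69 k117 3 (.s k207 k138 10 (.s k237 k33 9 (.s k252 k222 4 (.s k84 k168 13 (.d k86 k87 k3 0
  14)))))), (.s k1 k253 13 (.s k3 k2 0 (.s k69 k117 3 (.s k86 k252 14 (.s k71 k116 4 (.d k207 k139
  k138 9 10)))))), (.s k1 k253 13 (.s k3 k2 0 (.s k33 k237 9 (.s k48 k18 4 (.s k86 k252 14 (.s k71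
  k116 4 (.d k207 k139 k154 9 14)))))))] .n)

def s170_171_33 : T TT 256 :=
  (.q k5 [(.s k1 k253 13 (.s k13 k9 1 (.s k165 k245 11 (.s k161 k173 1 (.d k241 k81 k89 11 13))))),
  (.s k15 k10 2 (.s k165 k245 11 (.s k173 k161 1 (.s k252 k94 12 (.s k84 k168 13 (.d k86 k87 k3 0
  14)))))), (.s k1 k253 13 (.s k3 k2 0 (.s k15 k10 2 (.s k7 k11 1 (.s k6 k4 0 (.d k9 k13 k12 1
  2))))))] .n)

def s170_171_34 : T TT 256 :=
  (.f k1 k253 13 (.q k102 [(.s k3 k2 0 (.s k35 k236 10 (.s k51 k19 3 (.s k68 k119 4 (.d k204 k136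
  k153 9 14))))), (.s k68 k119 4 (.s k204 k136 9 (.s k153 k51 14 (.s k137 k185 3 (.s k69 k205 9 (.d
  k70 k71 k3 0 10)))))), (.s k3 k2 0 (.s k35 k236 10 (.s k51 k19 3 (.s k86 k252 14 (.s k70 k118 3
  (.d k204 k137 k153 10 14)))))), (.s k3 k2 0 (.s k68 k119 4 (.s k86 k252 14 (.s k70 k118 3 (.s k71
  k69 0 (.s k84 k87 0 (.d k116 k100 k101 3 4)))))))] (.c k3 (.l (.s k68 k119 4 (.s k204 k136 9 (.s
  k153 k51 14 (.s k17 k221 9 (.s k49 k33 3 (.s k137 k185 3 (.d k205 k69 k101 9 13)))))))) (.c k51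
  (.l (.s k3 k2 0 (.s k68 k119 4 (.s k86 k252 14 (.s k204 k136 9 (.d k70 k118 k137 3 10)))))) .n))))

def s170_171_35 : T TT 256 :=
  (.f k1 k253 13 (.q k165 [(.s k5 k245 11 (.s k13 k9 1 (.s k161 k173 1 (.d k241 k81 k89 11 13)))),
  (.s k3 k2 0 (.s k86 k252 14 (.s k7 k244 12 (.s k15 k11 1 (.d k5 k10 k245 2 11))))), (.s k3 k2 0
  (.s k161 k173 1 (.s k240 k82 12 (.s k80 k160 11 (.d k90 k95 k15 2 14)))))] (.c k103 (.q k239 [(.s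
  k5 k245 11 (.s k13 k9 1 (.s k161 k173 1 (.d k241 k81 k89 11 13)))), (.s k3 k2 0 (.s k86 k252 14
  (.s k7 k244 12 (.s k15 k11 1 (.d k5 k10 k245 2 11))))), (.s k3 k2 0 (.s k161 k173 1 (.s k240 k82
  12 (.s k80 k160 11 (.d k90 k95 k15 2 14)))))] .n) (.c k239 (.q k103 [(.s k5 k245 11 (.s k13 k9 1
  (.s k161 k173 1 (.d k241 k81 k89 11 13)))), (.s k3 k2 0 (.s k86 k252 14 (.s k7 k244 12 (.s k15 k11
  1 (.d k5 k10 k245 2 11))))), (.s k3 k2 0 (.s k161 k173 1 (.s k240 k82 12 (.s k80 k160 11 (.d k90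
  k95 k15 2 14)))))] (.c k32 (.q k101 [(.s k5 k245 11 (.s k13 k9 1 (.s k161 k173 1 (.d k241 k81 k89
  11 13)))), (.s k3 k2 0 (.s k86 k252 14 (.s k71 k116 4 (.d k87 k84 k119 0 3))))] (.c k33 (.q k34
  [(.s k51 k17 4 (.s k69 k117 3 (.d k207 k138 k155 10 13))), (.s k3 k2 0 (.s k86 k252 14 (.s k71
  k116 4 (.d k87 k84 k119 0 3))))] .n) (.c k34 (.l (.s k33 k237 9 (.s k49 k17 3 (.s k69 k117 3 (.d
  k205 k137 k153 9 13))))) .n))) (.c k101 (.q k32 [(.s k5 k245 11 (.s k13 k9 1 (.s k161 k173 1 (.d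
  k241 k81 k89 11 13)))), (.s k3 k2 0 (.s k86 k252 14 (.s k7 k244 12 (.s k15 k11 1 (.d k5 k10 k245 2
  11))))), (.s k3 k2 0 (.s k161 k173 1 (.s k240 k82 12 (.s k80 k160 11 (.d k90 k95 k15 2 14)))))]
  .n) .n))) .n))))

def s170_171_36 : T TT 256 :=
  (.q k5 [(.s k1 k253 13 (.s k13 k9 1 (.s k165 k245 11 (.s k161 k173 1 (.d k241 k81 k89 11 13))))),
  (.s k15 k10 2 (.s k165 k245 11 (.s k173 k161 1 (.s k252 k94 12 (.s k84 k168 13 (.d k86 k87 k3 0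
  14)))))), (.s k1 k253 13 (.s k3 k2 0 (.s k15 k10 2 (.s k7 k11 1 (.s k6 k4 0 (.d k9 k13 k12 1
  2))))))] .n)

def s170_171_37 : T TT 256 :=
  (.q k5 [(.s k1 k253 13 (.s k13 k9 1 (.s k165 k245 11 (.s k161 k173 1 (.d k241 k81 k89 11 13))))),
  (.s k15 k10 2 (.s k165 k245 11 (.s k173 k161 1 (.s k252 k94 12 (.s k84 k168 13 (.d k86 k87 k3 0
  14)))))), (.s k1 k253 13 (.s k3 k2 0 (.s k15 k10 2 (.s k7 k11 1 (.s k6 k4 0 (.d k9 k13 k12 1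
  2))))))] .n)

def s170_171_38 : T TT 256 :=
  (.q k5 [(.s k1 k253 13 (.s k13 k9 1 (.s k165 k245 11 (.s k161 k173 1 (.d k241 k81 k89 11 13))))),
  (.s k15 k10 2 (.s k165 k245 11 (.s k173 k161 1 (.s k252 k94 12 (.s k84 k168 13 (.d k86 k87 k3 0
  14)))))), (.s k1 k253 13 (.s k3 k2 0 (.s k15 k10 2 (.s k7 k11 1 (.s k6 k4 0 (.d k9 k13 k12 1
  2))))))] .n)

def s170_171_39 : T TT 256 :=
  (.q k5 [(.s k1 k253 13 (.s k13 k9 1 (.s k165 k245 11 (.s k161 k173 1 (.d k241 k81 k89 11 13))))),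
  (.s k15 k10 2 (.s k165 k245 11 (.s k173 k161 1 (.s k252 k94 12 (.s k84 k168 13 (.d k86 k87 k3 0
  14)))))), (.s k1 k253 13 (.s k3 k2 0 (.s k15 k10 2 (.s k7 k11 1 (.s k6 k4 0 (.d k9 k13 k12 1
  2))))))] .n)

def s170_171_40 : T TT 256 :=
  (.q k105 [(.s k1 k253 13 (.s k41 k233 7 (.s k61 k21 5 (.s k65 k125 5 (.d k193 k129 k149 7 13))))),
  (.s k65 k125 5 (.s k195 k130 8 (.s k233 k41 7 (.s k252 k214 6 (.s k84 k168 13 (.d k86 k87 k3 0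
  14)))))), (.s k1 k253 13 (.s k3 k2 0 (.s k65 k125 5 (.s k86 k252 14 (.s k67 k124 6 (.d k195 k131
  k130 7 8)))))), (.s k1 k253 13 (.s k3 k2 0 (.s k41 k233 7 (.s k60 k22 6 (.s k86 k252 14 (.s k67
  k124 6 (.d k195 k131 k150 7 14)))))))] .n)

def s170_171_41 : T TT 256 :=
  (.q k5 [(.s k1 k253 13 (.s k165 k245 11 (.s k161 k173 1 (.s k241 k81 11 (.d k13 k9 k89 1 13))))),
  (.s k15 k10 2 (.s k165 k245 11 (.s k173 k161 1 (.s k252 k94 12 (.s k84 k168 13 (.d k86 k87 k3 0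
  14)))))), (.s k1 k253 13 (.s k3 k2 0 (.s k15 k10 2 (.s k7 k11 1 (.s k6 k4 0 (.d k9 k13 k12 1
  2))))))] .n)

def s170_171_42 : T TT 256 :=
  (.f k1 k253 13 (.q k106 [(.s k3 k2 0 (.s k43 k232 8 (.s k63 k23 5 (.s k64 k127 6 (.d k192 k128
  k149 7 14))))), (.s k64 k127 6 (.s k192 k128 7 (.s k149 k63 14 (.s k129 k189 5 (.s k65 k193 7 (.d
  k66 k67 k3 0 8)))))), (.s k3 k2 0 (.s k43 k232 8 (.s k63 k23 5 (.s k86 k252 14 (.s k66 k126 5 (.d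
  k192 k129 k149 8 14)))))), (.s k3 k2 0 (.s k64 k127 6 (.s k86 k252 14 (.s k66 k126 5 (.s k67 k65 0
  (.s k84 k87 0 (.d k124 k104 k105 5 6)))))))] (.c k3 (.l (.s k64 k127 6 (.s k192 k128 7 (.s k149
  k63 14 (.s k21 k213 7 (.s k61 k41 5 (.s k129 k189 5 (.d k193 k65 k105 7 13)))))))) (.c k63 (.l (.s
  k3 k2 0 (.s k64 k127 6 (.s k86 k252 14 (.s k192 k128 7 (.d k66 k126 k129 5 8)))))) .n))))

def s170_171_43 : T TT 256 :=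
  (.f k1 k253 13 (.q k165 [(.s k5 k245 11 (.s k13 k9 1 (.s k161 k173 1 (.d k241 k81 k89 11 13)))),
  (.s k3 k2 0 (.s k86 k252 14 (.s k7 k244 12 (.s k15 k11 1 (.d k5 k10 k245 2 11))))), (.s k3 k2 0
  (.s k161 k173 1 (.s k240 k82 12 (.s k80 k160 11 (.d k90 k95 k15 2 14)))))] (.c k107 (.q k235 [(.s
  k5 k245 11 (.s k13 k9 1 (.s k161 k173 1 (.d k241 k81 k89 11 13)))), (.s k3 k2 0 (.s k86 k252 14
  (.s k7 k244 12 (.s k15 k11 1 (.d k5 k10 k245 2 11))))), (.s k3 k2 0 (.s k161 k173 1 (.s k240 k82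
  12 (.s k80 k160 11 (.d k90 k95 k15 2 14)))))] .n) (.c k235 (.q k107 [(.s k5 k245 11 (.s k13 k9 1
  (.s k161 k173 1 (.d k241 k81 k89 11 13)))), (.s k3 k2 0 (.s k86 k252 14 (.s k7 k244 12 (.s k15 k11
  1 (.d k5 k10 k245 2 11))))), (.s k3 k2 0 (.s k161 k173 1 (.s k240 k82 12 (.s k80 k160 11 (.d k90
  k95 k15 2 14)))))] (.c k40 (.q k105 [(.s k5 k245 11 (.s k13 k9 1 (.s k161 k173 1 (.d k241 k81 k89
  11 13)))), (.s k3 k2 0 (.s k86 k252 14 (.s k67 k124 6 (.d k87 k84 k127 0 5))))] (.c k41 (.q k42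
  [(.s k63 k21 6 (.s k65 k125 5 (.d k195 k130 k151 8 13))), (.s k3 k2 0 (.s k86 k252 14 (.s k67 k124
  6 (.d k87 k84 k127 0 5))))] .n) (.c k42 (.l (.s k41 k233 7 (.s k61 k21 5 (.s k65 k125 5 (.d k193
  k129 k149 7 13))))) .n))) (.c k105 (.q k40 [(.s k5 k245 11 (.s k13 k9 1 (.s k161 k173 1 (.d k241
  k81 k89 11 13)))), (.s k3 k2 0 (.s k86 k252 14 (.s k7 k244 12 (.s k15 k11 1 (.d k5 k10 k245 2
  11))))), (.s k3 k2 0 (.s k161 k173 1 (.s k240 k82 12 (.s k80 k160 11 (.d k90 k95 k15 2 14)))))]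
  .n) .n))) .n))))

def s170_171_44 : T TT 256 :=
  (.q k5 [(.s k1 k253 13 (.s k13 k9 1 (.s k165 k245 11 (.s k161 k173 1 (.d k241 k81 k89 11 13))))),
  (.s k15 k10 2 (.s k165 k245 11 (.s k173 k161 1 (.s k252 k94 12 (.s k84 k168 13 (.d k86 k87 k3 0
  14)))))), (.s k1 k253 13 (.s k3 k2 0 (.s k15 k10 2 (.s k7 k11 1 (.s k6 k4 0 (.d k9 k13 k12 1
  2))))))] .n)

def s170_171_45 : T TT 256 :=
  (.q k5 [(.s k1 k253 13 (.s k13 k9 1 (.s k165 k245 11 (.s k161 k173 1 (.d k241 k81 k89 11 13))))),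
  (.s k15 k10 2 (.s k165 k245 11 (.s k173 k161 1 (.s k252 k94 12 (.s k84 k168 13 (.d k86 k87 k3 0
  14)))))), (.s k1 k253 13 (.s k3 k2 0 (.s k15 k10 2 (.s k7 k11 1 (.s k6 k4 0 (.d k9 k13 k12 1
  2))))))] .n)

def s170_171_46 : T TT 256 :=
  (.q k5 [(.s k1 k253 13 (.s k13 k9 1 (.s k165 k245 11 (.s k161 k173 1 (.d k241 k81 k89 11 13))))),
  (.s k15 k10 2 (.s k165 k245 11 (.s k173 k161 1 (.s k252 k94 12 (.s k84 k168 13 (.d k86 k87 k3 0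
  14)))))), (.s k1 k253 13 (.s k3 k2 0 (.s k15 k10 2 (.s k7 k11 1 (.s k6 k4 0 (.d k9 k13 k12 1
  2))))))] .n)

def s170_171_47 : T TT 256 :=
  (.q k5 [(.s k1 k253 13 (.s k13 k9 1 (.s k165 k245 11 (.s k161 k173 1 (.d k241 k81 k89 11 13))))),
  (.s k15 k10 2 (.s k165 k245 11 (.s k173 k161 1 (.s k252 k94 12 (.s k84 k168 13 (.d k86 k87 k3 0
  14)))))), (.s k1 k253 13 (.s k3 k2 0 (.s k15 k10 2 (.s k7 k11 1 (.s k6 k4 0 (.d k9 k13 k12 1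
  2))))))] .n)

def s170_171_48 : T TT 256 :=
  (.q k5 [(.s k1 k253 13 (.s k13 k9 1 (.s k165 k245 11 (.s k161 k173 1 (.d k241 k81 k89 11 13))))),
  (.s k15 k10 2 (.s k165 k245 11 (.s k173 k161 1 (.s k252 k94 12 (.s k84 k168 13 (.d k86 k87 k3 0
  14)))))), (.s k1 k253 13 (.s k3 k2 0 (.s k15 k10 2 (.s k7 k11 1 (.s k6 k4 0 (.d k9 k13 k12 1
  2))))))] .n)

def s170_171_49 : T TT 256 :=
  (.q k5 [(.s k1 k253 13 (.s k13 k9 1 (.s k165 k245 11 (.s k161 k173 1 (.d k241 k81 k89 11 13))))),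
  (.s k15 k10 2 (.s k165 k245 11 (.s k173 k161 1 (.s k252 k94 12 (.s k84 k168 13 (.d k86 k87 k3 0
  14)))))), (.s k1 k253 13 (.s k3 k2 0 (.s k15 k10 2 (.s k7 k11 1 (.s k6 k4 0 (.d k9 k13 k12 1
  2))))))] .n)

def s170_171_50 : T TT 256 :=
  (.q k5 [(.s k1 k253 13 (.s k13 k9 1 (.s k165 k245 11 (.s k161 k173 1 (.d k241 k81 k89 11 13))))),
  (.s k15 k10 2 (.s k165 k245 11 (.s k173 k161 1 (.s k252 k94 12 (.s k84 k168 13 (.d k86 k87 k3 0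
  14)))))), (.s k1 k253 13 (.s k3 k2 0 (.s k15 k10 2 (.s k7 k11 1 (.s k6 k4 0 (.d k9 k13 k12 1
  2))))))] .n)

def s170_171_51 : T TT 256 :=
  (.q k5 [(.s k1 k253 13 (.s k13 k9 1 (.s k165 k245 11 (.s k161 k173 1 (.d k241 k81 k89 11 13))))),
  (.s k15 k10 2 (.s k165 k245 11 (.s k173 k161 1 (.s k252 k94 12 (.s k84 k168 13 (.d k86 k87 k3 0
  14)))))), (.s k1 k253 13 (.s k3 k2 0 (.s k15 k10 2 (.s k7 k11 1 (.s k6 k4 0 (.d k9 k13 k12 1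
  2))))))] .n)

def s170_171_52 : T TT 256 :=
  (.q k5 [(.s k1 k253 13 (.s k13 k9 1 (.s k165 k245 11 (.s k161 k173 1 (.d k241 k81 k89 11 13))))),
  (.s k15 k10 2 (.s k165 k245 11 (.s k173 k161 1 (.s k252 k94 12 (.s k84 k168 13 (.d k86 k87 k3 0
  14)))))), (.s k1 k253 13 (.s k3 k2 0 (.s k15 k10 2 (.s k7 k11 1 (.s k6 k4 0 (.d k9 k13 k12 1
  2))))))] .n)

def s170_171_53 : T TT 256 :=
  (.q k5 [(.s k1 k253 13 (.s k13 k9 1 (.s k165 k245 11 (.s k161 k173 1 (.d k241 k81 k89 11 13))))),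
  (.s k1 k253 13 (.s k3 k2 0 (.s k15 k10 2 (.s k11 k7 1 (.s k90 k248 12 (.d k165 k245 k240 11
  14)))))), (.s k15 k10 2 (.s k165 k245 11 (.s k173 k161 1 (.s k252 k94 12 (.s k84 k168 13 (.d k86
  k87 k3 0 14)))))), (.s k1 k253 13 (.s k3 k2 0 (.s k9 k13 1 (.s k6 k12 2 (.s k7 k4 0 (.d k15 k11
  k10 1 2))))))] .n)

def s170_171_54 : T TT 256 :=
  (.q k5 [(.s k1 k253 13 (.s k13 k9 1 (.s k165 k245 11 (.s k161 k173 1 (.d k241 k81 k89 11 13))))),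
  (.s k15 k10 2 (.s k165 k245 11 (.s k173 k161 1 (.s k252 k94 12 (.s k84 k168 13 (.d k86 k87 k3 0
  14)))))), (.s k1 k253 13 (.s k3 k2 0 (.s k15 k10 2 (.s k7 k11 1 (.s k6 k4 0 (.d k9 k13 k12 1
  2))))))] .n)

def s170_171_55 : T TT 256 :=
  (.q k5 [(.s k1 k253 13 (.s k13 k9 1 (.s k165 k245 11 (.s k161 k173 1 (.d k241 k81 k89 11 13))))),
  (.s k15 k10 2 (.s k165 k245 11 (.s k173 k161 1 (.s k252 k94 12 (.s k84 k168 13 (.d k86 k87 k3 0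
  14)))))), (.s k1 k253 13 (.s k3 k2 0 (.s k15 k10 2 (.s k7 k11 1 (.s k6 k4 0 (.d k9 k13 k12 1
  2))))))] .n)

def s170_171_56 : T TT 256 :=
  (.q k5 [(.s k1 k253 13 (.s k13 k9 1 (.s k165 k245 11 (.s k161 k173 1 (.d k241 k81 k89 11 13))))),
  (.s k15 k10 2 (.s k165 k245 11 (.s k173 k161 1 (.s k252 k94 12 (.s k84 k168 13 (.d k86 k87 k3 0
  14)))))), (.s k1 k253 13 (.s k3 k2 0 (.s k15 k10 2 (.s k7 k11 1 (.s k6 k4 0 (.d k9 k13 k12 1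
  2))))))] .n)

def s170_171_57 : T TT 256 :=
  (.q k5 [(.s k1 k253 13 (.s k165 k245 11 (.s k161 k173 1 (.s k241 k81 11 (.d k13 k9 k89 1 13))))),
  (.s k15 k10 2 (.s k165 k245 11 (.s k173 k161 1 (.s k252 k94 12 (.s k84 k168 13 (.d k86 k87 k3 0
  14)))))), (.s k1 k253 13 (.s k3 k2 0 (.s k15 k10 2 (.s k7 k11 1 (.s k6 k4 0 (.d k9 k13 k12 1
  2))))))] .n)

def s170_171_58 : T TT 256 :=
  (.q k5 [(.s k1 k253 13 (.s k13 k9 1 (.s k165 k245 11 (.s k161 k173 1 (.d k241 k81 k89 11 13))))),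
  (.s k15 k10 2 (.s k165 k245 11 (.s k173 k161 1 (.s k252 k94 12 (.s k84 k168 13 (.d k86 k87 k3 0
  14)))))), (.s k1 k253 13 (.s k3 k2 0 (.s k15 k10 2 (.s k7 k11 1 (.s k6 k4 0 (.d k9 k13 k12 1
  2))))))] .n)

def s170_171_59 : T TT 256 :=
  (.q k5 [(.s k1 k253 13 (.s k13 k9 1 (.s k165 k245 11 (.s k161 k173 1 (.d k241 k81 k89 11 13))))),
  (.s k15 k10 2 (.s k165 k245 11 (.s k173 k161 1 (.s k252 k94 12 (.s k84 k168 13 (.d k86 k87 k3 0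
  14)))))), (.s k1 k253 13 (.s k3 k2 0 (.s k15 k10 2 (.s k7 k11 1 (.s k6 k4 0 (.d k9 k13 k12 1
  2))))))] .n)

def s170_171_60 : T TT 256 :=
  (.q k5 [(.s k1 k253 13 (.s k13 k9 1 (.s k165 k245 11 (.s k161 k173 1 (.d k241 k81 k89 11 13))))),
  (.s k15 k10 2 (.s k165 k245 11 (.s k173 k161 1 (.s k252 k94 12 (.s k84 k168 13 (.d k86 k87 k3 0
  14)))))), (.s k1 k253 13 (.s k3 k2 0 (.s k15 k10 2 (.s k7 k11 1 (.s k6 k4 0 (.d k9 k13 k12 1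
  2))))))] .n)

def s170_171_61 : T TT 256 :=
  (.q k5 [(.s k1 k253 13 (.s k13 k9 1 (.s k165 k245 11 (.s k161 k173 1 (.d k241 k81 k89 11 13))))),
  (.s k15 k10 2 (.s k165 k245 11 (.s k173 k161 1 (.s k252 k94 12 (.s k84 k168 13 (.d k86 k87 k3 0
  14)))))), (.s k1 k253 13 (.s k3 k2 0 (.s k15 k10 2 (.s k7 k11 1 (.s k6 k4 0 (.d k9 k13 k12 1
  2))))))] .n)

def s170_171_62 : T TT 256 :=
  (.q k5 [(.s k1 k253 13 (.s k13 k9 1 (.s k165 k245 11 (.s k161 k173 1 (.d k241 k81 k89 11 13))))),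
  (.s k15 k10 2 (.s k165 k245 11 (.s k173 k161 1 (.s k252 k94 12 (.s k84 k168 13 (.d k86 k87 k3 0
  14)))))), (.s k1 k253 13 (.s k3 k2 0 (.s k15 k10 2 (.s k7 k11 1 (.s k6 k4 0 (.d k9 k13 k12 1
  2))))))] .n)

def s170_171_63 : T TT 256 :=
  (.q k5 [(.s k1 k253 13 (.s k13 k9 1 (.s k165 k245 11 (.s k161 k173 1 (.d k241 k81 k89 11 13))))),
  (.s k15 k10 2 (.s k165 k245 11 (.s k173 k161 1 (.s k252 k94 12 (.s k84 k168 13 (.d k86 k87 k3 0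
  14)))))), (.s k1 k253 13 (.s k3 k2 0 (.s k15 k10 2 (.s k7 k11 1 (.s k6 k4 0 (.d k9 k13 k12 1
  2))))))] .n)

def s170_171_64 : T TT 256 :=
  (.q k5 [(.s k1 k253 13 (.s k13 k9 1 (.s k165 k245 11 (.s k161 k173 1 (.d k241 k81 k89 11 13))))),
  (.s k15 k10 2 (.s k165 k245 11 (.s k173 k161 1 (.s k252 k94 12 (.s k84 k168 13 (.d k86 k87 k3 0
  14)))))), (.s k1 k253 13 (.s k3 k2 0 (.s k15 k10 2 (.s k7 k11 1 (.s k6 k4 0 (.d k9 k13 k12 1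
  2))))))] .n)

def s170_171_65 : T TT 256 :=
  (.q k5 [(.s k1 k253 13 (.s k13 k9 1 (.s k165 k245 11 (.s k161 k173 1 (.d k241 k81 k89 11 13))))),
  (.s k15 k10 2 (.s k165 k245 11 (.s k173 k161 1 (.s k252 k94 12 (.s k84 k168 13 (.d k86 k87 k3 0
  14)))))), (.s k1 k253 13 (.s k3 k2 0 (.s k15 k10 2 (.s k7 k11 1 (.s k6 k4 0 (.d k9 k13 k12 1
  2))))))] .n)

def s170_171_66 : T TT 256 :=
  (.q k5 [(.s k1 k253 13 (.s k13 k9 1 (.s k165 k245 11 (.s k161 k173 1 (.d k241 k81 k89 11 13))))),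
  (.s k15 k10 2 (.s k165 k245 11 (.s k173 k161 1 (.s k252 k94 12 (.s k84 k168 13 (.d k86 k87 k3 0
  14)))))), (.s k1 k253 13 (.s k3 k2 0 (.s k15 k10 2 (.s k7 k11 1 (.s k6 k4 0 (.d k9 k13 k12 1
  2))))))] .n)

def s170_171_67 : T TT 256 :=
  (.q k5 [(.s k1 k253 13 (.s k13 k9 1 (.s k165 k245 11 (.s k161 k173 1 (.d k241 k81 k89 11 13))))),
  (.s k15 k10 2 (.s k165 k245 11 (.s k173 k161 1 (.s k252 k94 12 (.s k84 k168 13 (.d k86 k87 k3 0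
  14)))))), (.s k1 k253 13 (.s k3 k2 0 (.s k15 k10 2 (.s k7 k11 1 (.s k6 k4 0 (.d k9 k13 k12 1
  2))))))] .n)

def s170_171_68 : T TT 256 :=
  (.q k5 [(.s k1 k253 13 (.s k13 k9 1 (.s k165 k245 11 (.s k161 k173 1 (.d k241 k81 k89 11 13))))),
  (.s k15 k10 2 (.s k165 k245 11 (.s k173 k161 1 (.s k252 k94 12 (.s k84 k168 13 (.d k86 k87 k3 0
  14)))))), (.s k1 k253 13 (.s k3 k2 0 (.s k15 k10 2 (.s k7 k11 1 (.s k6 k4 0 (.d k9 k13 k12 1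
  2))))))] .n)

def s170_171_69 : T TT 256 :=
  (.q k5 [(.s k1 k253 13 (.s k13 k9 1 (.s k165 k245 11 (.s k161 k173 1 (.d k241 k81 k89 11 13))))),
  (.s k15 k10 2 (.s k165 k245 11 (.s k173 k161 1 (.s k252 k94 12 (.s k84 k168 13 (.d k86 k87 k3 0
  14)))))), (.s k1 k253 13 (.s k3 k2 0 (.s k15 k10 2 (.s k7 k11 1 (.s k6 k4 0 (.d k9 k13 k12 1
  2))))))] .n)

def s170_171_70 : T TT 256 :=
  (.q k5 [(.s k1 k253 13 (.s k13 k9 1 (.s k165 k245 11 (.s k161 k173 1 (.d k241 k81 k89 11 13))))),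
  (.s k15 k10 2 (.s k165 k245 11 (.s k173 k161 1 (.s k252 k94 12 (.s k84 k168 13 (.d k86 k87 k3 0
  14)))))), (.s k1 k253 13 (.s k3 k2 0 (.s k15 k10 2 (.s k7 k11 1 (.s k6 k4 0 (.d k9 k13 k12 1
  2))))))] .n)

def s170_171_71 : T TT 256 :=
  (.q k5 [(.s k1 k253 13 (.s k13 k9 1 (.s k165 k245 11 (.s k161 k173 1 (.d k241 k81 k89 11 13))))),
  (.s k15 k10 2 (.s k165 k245 11 (.s k173 k161 1 (.s k252 k94 12 (.s k84 k168 13 (.d k86 k87 k3 0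
  14)))))), (.s k1 k253 13 (.s k3 k2 0 (.s k15 k10 2 (.s k7 k11 1 (.s k6 k4 0 (.d k9 k13 k12 1
  2))))))] .n)

def s170_171_72 : T TT 256 :=
  (.q k5 [(.s k1 k253 13 (.s k13 k9 1 (.s k165 k245 11 (.s k161 k173 1 (.d k241 k81 k89 11 13))))),
  (.s k15 k10 2 (.s k165 k245 11 (.s k173 k161 1 (.s k252 k94 12 (.s k84 k168 13 (.d k86 k87 k3 0
  14)))))), (.s k1 k253 13 (.s k3 k2 0 (.s k15 k10 2 (.s k7 k11 1 (.s k6 k4 0 (.d k9 k13 k12 1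
  2))))))] .n)

def s170_171_73 : T TT 256 :=
  (.q k5 [(.s k1 k253 13 (.s k165 k245 11 (.s k161 k173 1 (.s k241 k81 11 (.d k13 k9 k89 1 13))))),
  (.s k15 k10 2 (.s k165 k245 11 (.s k173 k161 1 (.s k252 k94 12 (.s k84 k168 13 (.d k86 k87 k3 0
  14)))))), (.s k1 k253 13 (.s k3 k2 0 (.s k15 k10 2 (.s k7 k11 1 (.s k6 k4 0 (.d k9 k13 k12 1
  2))))))] .n)

def s170_171_74 : T TT 256 :=
  (.q k5 [(.s k1 k253 13 (.s k13 k9 1 (.s k165 k245 11 (.s k161 k173 1 (.d k241 k81 k89 11 13))))),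
  (.s k15 k10 2 (.s k165 k245 11 (.s k173 k161 1 (.s k252 k94 12 (.s k84 k168 13 (.d k86 k87 k3 0
  14)))))), (.s k1 k253 13 (.s k3 k2 0 (.s k15 k10 2 (.s k7 k11 1 (.s k6 k4 0 (.d k9 k13 k12 1
  2))))))] .n)

def s170_171_75 : T TT 256 :=
  (.q k5 [(.s k1 k253 13 (.s k13 k9 1 (.s k165 k245 11 (.s k161 k173 1 (.d k241 k81 k89 11 13))))),
  (.s k15 k10 2 (.s k165 k245 11 (.s k173 k161 1 (.s k252 k94 12 (.s k84 k168 13 (.d k86 k87 k3 0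
  14)))))), (.s k1 k253 13 (.s k3 k2 0 (.s k15 k10 2 (.s k7 k11 1 (.s k6 k4 0 (.d k9 k13 k12 1
  2))))))] .n)

def s170_171_76 : T TT 256 :=
  (.q k5 [(.s k1 k253 13 (.s k13 k9 1 (.s k165 k245 11 (.s k161 k173 1 (.d k241 k81 k89 11 13))))),
  (.s k15 k10 2 (.s k165 k245 11 (.s k173 k161 1 (.s k252 k94 12 (.s k84 k168 13 (.d k86 k87 k3 0
  14)))))), (.s k1 k253 13 (.s k3 k2 0 (.s k15 k10 2 (.s k7 k11 1 (.s k6 k4 0 (.d k9 k13 k12 1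
  2))))))] .n)

def s170_171_77 : T TT 256 :=
  (.q k5 [(.s k1 k253 13 (.s k13 k9 1 (.s k165 k245 11 (.s k161 k173 1 (.d k241 k81 k89 11 13))))),
  (.s k15 k10 2 (.s k165 k245 11 (.s k173 k161 1 (.s k252 k94 12 (.s k84 k168 13 (.d k86 k87 k3 0
  14)))))), (.s k1 k253 13 (.s k3 k2 0 (.s k15 k10 2 (.s k7 k11 1 (.s k6 k4 0 (.d k9 k13 k12 1
  2))))))] .n)

def s170_171_78 : T TT 256 :=
  (.q k5 [(.s k1 k253 13 (.s k13 k9 1 (.s k165 k245 11 (.s k161 k173 1 (.d k241 k81 k89 11 13))))),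
  (.s k15 k10 2 (.s k165 k245 11 (.s k173 k161 1 (.s k252 k94 12 (.s k84 k168 13 (.d k86 k87 k3 0
  14)))))), (.s k1 k253 13 (.s k3 k2 0 (.s k15 k10 2 (.s k7 k11 1 (.s k6 k4 0 (.d k9 k13 k12 1
  2))))))] .n)

def s170_171_79 : T TT 256 :=
  (.q k5 [(.s k1 k253 13 (.s k13 k9 1 (.s k165 k245 11 (.s k161 k173 1 (.d k241 k81 k89 11 13))))),
  (.s k15 k10 2 (.s k165 k245 11 (.s k173 k161 1 (.s k252 k94 12 (.s k84 k168 13 (.d k86 k87 k3 0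
  14)))))), (.s k1 k253 13 (.s k3 k2 0 (.s k15 k10 2 (.s k7 k11 1 (.s k6 k4 0 (.d k9 k13 k12 1
  2))))))] .n)

def s170_171_80 : T TT 256 :=
  (.q k5 [(.s k1 k253 13 (.s k13 k9 1 (.s k165 k245 11 (.s k161 k173 1 (.d k241 k81 k89 11 13))))),
  (.s k15 k10 2 (.s k165 k245 11 (.s k173 k161 1 (.s k252 k94 12 (.s k84 k168 13 (.d k86 k87 k3 0
  14)))))), (.s k1 k253 13 (.s k3 k2 0 (.s k15 k10 2 (.s k7 k11 1 (.s k6 k4 0 (.d k9 k13 k12 1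
  2))))))] .n)

def s170_171_81 : T TT 256 :=
  (.q k17 [(.s k1 k253 13 (.s k49 k33 3 (.s k153 k221 9 (.s k137 k185 3 (.d k205 k69 k101 9 13))))),
  (.s k51 k34 4 (.s k153 k221 9 (.s k185 k137 3 (.s k252 k118 10 (.s k84 k168 13 (.d k86 k87 k3 0
  14)))))), (.s k1 k253 13 (.s k3 k2 0 (.s k51 k34 4 (.s k19 k35 3 (.s k18 k16 0 (.d k33 k49 k48 3
  4))))))] .n)

def s170_171_82 : T TT 256 :=
  (.q k5 [(.s k1 k253 13 (.s k13 k9 1 (.s k165 k245 11 (.s k161 k173 1 (.d k241 k81 k89 11 13))))),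
  (.s k15 k10 2 (.s k165 k245 11 (.s k173 k161 1 (.s k252 k94 12 (.s k84 k168 13 (.d k86 k3 k87 14
  0)))))), (.s k1 k253 13 (.s k3 k2 0 (.s k15 k10 2 (.s k7 k11 1 (.s k6 k4 0 (.d k9 k13 k12 1
  2))))))] .n)

def s170_171_83 : T TT 256 :=
  (.q k5 [(.s k1 k253 13 (.s k13 k9 1 (.s k165 k245 11 (.s k161 k173 1 (.d k241 k81 k89 11 13))))),
  (.s k15 k10 2 (.s k165 k245 11 (.s k173 k161 1 (.s k252 k94 12 (.s k84 k168 13 (.d k86 k87 k3 0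
  14)))))), (.s k1 k253 13 (.s k3 k2 0 (.s k15 k10 2 (.s k7 k11 1 (.s k6 k4 0 (.d k9 k13 k12 1
  2))))))] .n)

def s170_171_84 : T TT 256 :=
  (.q k5 [(.s k1 k253 13 (.s k13 k9 1 (.s k165 k245 11 (.s k161 k173 1 (.d k241 k81 k89 11 13))))),
  (.s k15 k10 2 (.s k165 k245 11 (.s k90 k240 14 (.s k11 k248 12 (.s k3 k7 1 (.s k173 k161 1 (.d
  k252 k94 k86 12 14))))))), (.s k1 k253 13 (.s k3 k2 0 (.s k15 k10 2 (.s k7 k11 1 (.s k6 k4 0 (.d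
  k9 k13 k12 1 2))))))] .n)

def s170_171_86 : T TT 256 :=
  (.f k1 k253 13 (.q k65 [(.s k105 k125 5 (.s k41 k233 7 (.s k61 k21 5 (.d k193 k129 k149 7 13)))),
  (.s k105 k125 5 (.s k195 k130 8 (.s k150 k60 14 (.s k131 k188 6 (.d k3 k2 k67 0 7))))), (.s k129
  k193 7 (.s k130 k195 8 (.s k128 k131 0 (.s k192 k64 7 (.d k3 k2 k66 0 8)))))] (.c k2 (.q k254 [(.s
  k105 k125 5 (.s k41 k233 7 (.s k61 k21 5 (.d k193 k129 k149 7 13)))), (.s k193 k129 7 (.s k195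
  k130 8 (.s k194 k192 0 (.s k214 k234 5 (.s k233 k252 6 (.d k105 k125 k41 5 7)))))), (.s k129 k193
  7 (.s k130 k195 8 (.s k128 k131 0 (.s k149 k189 5 (.s k192 k64 7 (.s k63 k106 14 (.d k21 k42 k213
  6 7))))))), (.s k105 k125 5 (.s k193 k129 7 (.s k61 k149 13 (.s k21 k41 5 (.s k63 k42 6 (.s k195
  k130 8 (.d k60 k62 k150 0 14)))))))] (.c k125 (.f k193 k129 7 (.q k61 [(.s k21 k41 5 (.d k149 k213
  k105 7 13))] (.c k21 (.l (.s k105 k149 13 (.s k195 k130 8 (.s k194 k192 0 (.s k214 k234 5 (.d k233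
  k252 k41 6 7)))))) (.c k41 (.l (.s k149 k105 13 (.s k21 k213 7 (.s k63 k42 6 (.s k195 k130 8 (.d
  k192 k194 k106 0 14)))))) (.c k105 (.l (.s k21 k41 5 (.s k63 k42 6 (.s k149 k213 7 (.s k195 k130 8
  (.d k192 k194 k106 0 14)))))) (.c k149 (.l (.s k41 k21 5 (.s k195 k130 8 (.s k194 k192 0 (.s k214
  k234 5 (.d k233 k252 k105 6 7)))))) (.c k213 (.l (.s k41 k21 5 (.d k105 k233 k149 7 13)))
  .n))))))) (.c k129 (.q k5 [(.s k13 k9 1 (.s k165 k245 11 (.s k161 k173 1 (.d k241 k81 k89 11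
  13)))), (.s k15 k10 2 (.s k105 k125 5 (.s k165 k245 11 (.s k45 k225 9 (.s k60 k30 4 (.d k195 k130
  k150 8 14)))))), (.s k9 k13 1 (.s k105 k125 5 (.s k41 k233 7 (.s k57 k25 3 (.s k153 k201 11 (.s
  k185 k137 3 (.d k249 k121 k89 7 11)))))))] (.c k249 (.l (.s k13 k9 1 (.s k165 k245 11 (.s k241 k89
  13 (.d k161 k173 k81 1 11))))) .n)) (.c k193 (.f k195 k130 8 (.f k105 k125 5 (.l (.s k150 k60 14
  (.s k215 k20 8 (.s k233 k41 7 (.s k214 k252 6 (.s k213 k212 0 (.s k255 k235 5 (.d k234 k192 k194 6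
  5)))))))))) .n)))) (.c k254 (.l (.s k2 k3 0 (.s k105 k125 5 (.s k41 k233 7 (.s k61 k21 5 (.d k193
  k129 k149 7 13)))))) .n))))

def s170_171_87 : T TT 256 :=
  (.f k1 k253 13 (.q k153 [(.s k17 k221 9 (.s k49 k33 3 (.s k137 k185 3 (.d k205 k69 k101 9 13)))),
  (.s k3 k2 0 (.s k86 k252 14 (.s k19 k220 10 (.s k51 k35 3 (.d k17 k34 k221 4 9))))), (.s k3 k2 0
  (.s k137 k185 3 (.s k204 k70 10 (.s k68 k136 9 (.d k102 k119 k51 4 14)))))] (.c k3 (.q k255 [(.s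
  k221 k17 9 (.s k204 k238 4 (.s k68 k136 9 (.d k102 k119 k51 4 14)))), (.s k137 k185 3 (.s k69 k205
  9 (.s k207 k138 10 (.s k223 k239 3 (.s k154 k16 10 (.d k101 k117 k48 3 14))))))] (.c k221 (.l (.s
  k137 k185 3 (.s k205 k69 9 (.s k49 k101 13 (.s k17 k33 3 (.s k51 k34 4 (.s k102 k204 14 (.d k119
  k68 k187 4 9)))))))) .n)) (.c k255 (.l (.s k3 k2 0 (.s k17 k221 9 (.s k49 k33 3 (.s k137 k185 3
  (.d k205 k69 k101 9 13)))))) .n))))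

def s170_171_88 : T TT 256 :=
  (.q k5 [(.s k1 k253 13 (.s k13 k9 1 (.s k165 k245 11 (.s k161 k173 1 (.d k241 k81 k89 11 13))))),
  (.s k15 k10 2 (.s k165 k245 11 (.s k173 k161 1 (.s k252 k94 12 (.s k84 k168 13 (.d k86 k87 k3 0
  14)))))), (.s k1 k253 13 (.s k3 k2 0 (.s k15 k10 2 (.s k7 k11 1 (.s k6 k4 0 (.d k9 k13 k12 1
  2))))))] .n)

def s170_171_89 : T TT 256 :=
  (.f k1 k253 13 (.q k150 [(.s k3 k2 0 (.s k20 k215 8 (.s k60 k40 5 (.s k131 k188 6 (.d k195 k105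
  k67 14 7))))), (.s k20 k215 8 (.s k60 k40 5 (.s k105 k195 14 (.s k41 k233 7 (.s k61 k21 5 (.s k65
  k125 5 (.d k193 k129 k149 7 13))))))), (.s k3 k2 0 (.s k131 k188 6 (.s k195 k67 7 (.s k65 k130 8
  (.d k105 k125 k60 5 14))))), (.s k3 k2 0 (.s k20 k215 8 (.s k86 k252 14 (.s k22 k214 7 (.s k23 k21
  0 (.s k84 k87 0 (.d k212 k148 k149 7 8)))))))] (.c k8 (.q k251 [(.s k3 k2 0 (.s k131 k188 6 (.s
  k195 k67 7 (.s k65 k130 8 (.d k105 k125 k60 5 14))))), (.s k20 k215 8 (.s k60 k40 5 (.s k105 k195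
  14 (.s k41 k233 7 (.s k21 k61 5 (.d k22 k23 k3 0 6)))))), (.s k3 k2 0 (.s k20 k215 8 (.s k86 k252
  14 (.s k22 k214 7 (.s k23 k21 0 (.s k84 k87 0 (.d k212 k148 k149 7 8)))))))] (.c k3 (.l (.s k20
  k215 8 (.s k60 k40 5 (.s k105 k195 14 (.s k41 k233 7 (.s k61 k21 5 (.s k65 k125 5 (.d k193 k129
  k149 7 13)))))))) (.c k195 (.l (.s k3 k2 0 (.s k20 k215 8 (.s k60 k40 5 (.s k22 k41 6 (.d k86 k214
  k252 7 14)))))) .n))) (.c k195 (.l (.s k3 k2 0 (.s k20 k215 8 (.s k60 k40 5 (.s k22 k41 6 (.d k86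
  k214 k252 7 14)))))) (.c k251 (.q k8 [(.s k3 k2 0 (.s k20 k215 8 (.s k60 k40 5 (.s k22 k41 6 (.d
  k86 k214 k252 7 14))))), (.s k4 k12 1 (.s k20 k215 8 (.s k52 k36 3 (.s k101 k199 12 (.s k117 k69 3
  (.d k247 k166 k182 12 8)))))), (.s k3 k2 0 (.s k12 k4 1 (.s k9 k6 2 (.s k5 k13 1 (.d k10 k11 k15 0
  2)))))] (.c k11 (.q k91 [(.s k3 k2 0 (.s k20 k215 8 (.s k60 k40 5 (.s k131 k188 6 (.d k195 k105
  k67 14 7))))), (.s k4 k12 1 (.s k20 k215 8 (.s k52 k36 3 (.s k101 k199 12 (.s k117 k69 3 (.d k247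
  k166 k182 12 8)))))), (.s k3 k2 0 (.s k131 k188 6 (.s k195 k67 7 (.s k65 k130 8 (.d k105 k125 k60
  5 14)))))] .n) (.c k91 (.q k11 [(.s k9 k10 0 (.s k12 k4 1 (.d k3 k2 k6 0 2))), (.s k10 k9 0 (.s
  k15 k5 2 (.s k90 k248 12 (.s k80 k95 2 (.d k240 k160 k165 11 14))))), (.s k3 k2 0 (.s k15 k7 1 (.s
  k90 k248 12 (.s k80 k95 2 (.d k240 k160 k165 11 14)))))] (.c k88 (.l (.s k90 k248 12 (.s k3 k2 0
  (.s k9 k10 0 (.d k12 k6 k4 2 1))))) (.c k90 (.q k88 [(.s k10 k9 0 (.s k15 k5 2 (.d k3 k2 k7 0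
  1))), (.s k12 k4 1 (.s k164 k240 13 (.s k168 k248 11 (.s k172 k160 1 (.d k252 k92 k84 11 13)))))]
  (.c k10 (.q k250 [(.s k168 k248 11 (.s k252 k84 13 (.d k3 k2 k86 0 14))), (.s k3 k2 0 (.s k20 k215
  8 (.s k60 k40 5 (.s k41 k22 6 (.d k105 k233 k195 7 14))))), (.s k12 k4 1 (.s k164 k240 13 (.s k168
  k248 11 (.s k172 k160 1 (.d k252 k92 k84 11 13)))))] .n) (.c k15 (.l (.s k3 k2 0 (.s k12 k4 1 (.d
  k9 k10 k6 0 2)))) (.c k250 (.l (.s k10 k9 0 (.s k3 k2 0 (.d k15 k7 k5 1 2)))) .n)))) (.c k250 (.l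
  (.s k3 k2 0 (.s k10 k9 0 (.d k15 k7 k5 1 2)))) .n)))) .n))) .n)))))

def s170_171_90 : T TT 256 :=
  (.f k1 k253 13 (.q k5 [(.s k13 k9 1 (.s k165 k245 11 (.s k161 k173 1 (.d k241 k81 k89 11 13)))),
  (.s k3 k2 0 (.s k9 k13 1 (.s k6 k12 2 (.s k7 k4 0 (.d k15 k10 k11 2 1))))), (.s k3 k2 0 (.s k86
  k252 14 (.s k165 k245 11 (.s k7 k244 12 (.d k15 k10 k11 2 1)))))] (.c k10 (.q k250 [(.s k165 k245
  11 (.s k161 k173 1 (.s k241 k81 11 (.d k13 k9 k89 1 13)))), (.s k3 k2 0 (.s k86 k252 14 (.s k87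
  k84 0 (.s k165 k245 11 (.s k7 k244 12 (.s k247 k167 11 (.d k4 k6 k166 0 12))))))), (.s k3 k2 0 (.s
  k9 k13 1 (.s k6 k12 2 (.s k4 k7 0 (.s k86 k252 14 (.d k166 k246 k247 11 12))))))] .n) (.c k250 (.l
  (.s k10 k15 2 (.s k3 k2 0 (.s k9 k13 1 (.s k8 k11 0 (.d k12 k4 k6 1 2)))))) .n))))

def s170_171_91 : T TT 256 :=
  (.f k1 k253 13 (.q k11 [(.s k3 k2 0 (.s k15 k7 1 (.s k90 k248 12 (.s k80 k95 2 (.d k240 k160 k165
  11 14))))), (.s k3 k2 0 (.s k15 k7 1 (.s k5 k10 2 (.s k165 k245 11 (.s k173 k161 1 (.d k252 k86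
  k94 14 12)))))), (.s k90 k248 12 (.s k80 k95 2 (.s k240 k160 11 (.s k165 k15 14 (.s k161 k173 1
  (.s k81 k241 11 (.d k82 k83 k3 0 12)))))))] (.c k3 (.f k90 k248 12 (.l (.s k80 k95 2 (.s k240 k160
  11 (.s k165 k15 14 (.s k5 k245 11 (.s k13 k9 1 (.s k161 k173 1 (.d k241 k81 k89 11 13))))))))) (.c
  k15 (.l (.s k3 k2 0 (.s k86 k252 14 (.s k90 k248 12 (.s k80 k95 2 (.s k240 k160 11 (.d k82 k94
  k161 1 12))))))) (.c k90 (.l (.s k3 k2 0 (.s k7 k15 1 (.s k86 k252 14 (.s k165 k244 12 (.s k5 k245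
  11 (.s k6 k4 0 (.d k9 k13 k12 1 2)))))))) (.c k165 (.l (.s k3 k2 0 (.s k86 k252 14 (.s k90 k248 12
  (.s k80 k95 2 (.s k82 k94 1 (.d k240 k160 k161 11 12))))))) .n))))))

def s170_171_92 : T TT 256 :=
  (.q k5 [(.s k1 k253 13 (.s k13 k9 1 (.s k165 k245 11 (.s k161 k173 1 (.d k241 k81 k89 11 13))))),
  (.s k15 k10 2 (.s k165 k245 11 (.s k173 k161 1 (.s k252 k94 12 (.s k84 k168 13 (.d k86 k87 k3 0
  14)))))), (.s k1 k253 13 (.s k3 k2 0 (.s k15 k10 2 (.s k7 k11 1 (.s k6 k4 0 (.d k9 k13 k12 1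
  2))))))] .n)

def s170_171_93 : T TT 256 :=
  (.q k5 [(.s k1 k253 13 (.s k13 k9 1 (.s k165 k245 11 (.s k161 k173 1 (.d k241 k81 k89 11 13))))),
  (.s k15 k10 2 (.s k165 k245 11 (.s k173 k161 1 (.s k252 k94 12 (.s k84 k168 13 (.d k86 k87 k3 0
  14)))))), (.s k1 k253 13 (.s k3 k2 0 (.s k15 k10 2 (.s k7 k11 1 (.s k6 k4 0 (.d k9 k13 k12 1
  2))))))] (.c k173 (.l (.s k15 k10 2 (.s k165 k245 11 (.s k90 k240 14 (.s k11 k248 12 (.s k3 k7 1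
  (.d k1 k2 k253 0 13))))))) .n))

def s170_171_94 : T TT 256 :=
  (.q k17 [(.s k1 k253 13 (.s k49 k33 3 (.s k153 k221 9 (.s k137 k185 3 (.d k205 k69 k101 9 13))))),
  (.s k51 k34 4 (.s k153 k221 9 (.s k185 k137 3 (.s k252 k118 10 (.s k84 k168 13 (.d k86 k87 k3 0
  14)))))), (.s k1 k253 13 (.s k3 k2 0 (.s k51 k34 4 (.s k19 k35 3 (.s k18 k16 0 (.d k33 k49 k48 3
  4))))))] .n)

def s170_171_95 : T TT 256 :=
  (.q k5 [(.s k1 k253 13 (.s k13 k9 1 (.s k165 k245 11 (.s k161 k173 1 (.d k241 k81 k89 11 13))))),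
  (.s k15 k10 2 (.s k165 k245 11 (.s k173 k161 1 (.s k252 k94 12 (.s k84 k168 13 (.d k86 k87 k3 0
  14)))))), (.s k1 k253 13 (.s k3 k2 0 (.s k15 k10 2 (.s k7 k11 1 (.s k6 k4 0 (.d k9 k13 k12 1
  2))))))] .n)

def s170_171_96 : T TT 256 :=
  (.q k5 [(.s k1 k253 13 (.s k13 k9 1 (.s k165 k245 11 (.s k161 k173 1 (.d k241 k81 k89 11 13))))),
  (.s k15 k10 2 (.s k165 k245 11 (.s k173 k161 1 (.s k252 k94 12 (.s k84 k168 13 (.d k86 k87 k3 0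
  14)))))), (.s k1 k253 13 (.s k3 k2 0 (.s k15 k10 2 (.s k7 k11 1 (.s k6 k4 0 (.d k9 k13 k12 1
  2))))))] .n)

def s170_171_97 : T TT 256 :=
  (.q k5 [(.s k1 k253 13 (.s k13 k9 1 (.s k165 k245 11 (.s k161 k173 1 (.d k241 k81 k89 11 13))))),
  (.s k15 k10 2 (.s k165 k245 11 (.s k173 k161 1 (.s k252 k94 12 (.s k84 k168 13 (.d k86 k87 k3 0
  14)))))), (.s k1 k253 13 (.s k3 k2 0 (.s k15 k10 2 (.s k7 k11 1 (.s k6 k4 0 (.d k9 k13 k12 1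
  2))))))] .n)

def s170_171_98 : T TT 256 :=
  (.q k5 [(.s k1 k253 13 (.s k13 k9 1 (.s k165 k245 11 (.s k161 k173 1 (.d k241 k81 k89 11 13))))),
  (.s k15 k10 2 (.s k165 k245 11 (.s k173 k161 1 (.s k252 k94 12 (.s k84 k168 13 (.d k86 k87 k3 0
  14)))))), (.s k1 k253 13 (.s k3 k2 0 (.s k15 k10 2 (.s k7 k11 1 (.s k6 k4 0 (.d k9 k13 k12 1
  2))))))] .n)

def s170_171_99 : T TT 256 :=
  (.q k5 [(.s k1 k253 13 (.s k13 k9 1 (.s k165 k245 11 (.s k161 k173 1 (.d k241 k81 k89 11 13))))),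
  (.s k15 k10 2 (.s k165 k245 11 (.s k173 k161 1 (.s k252 k94 12 (.s k84 k168 13 (.d k86 k87 k3 0
  14)))))), (.s k1 k253 13 (.s k3 k2 0 (.s k15 k10 2 (.s k7 k11 1 (.s k6 k4 0 (.d k9 k13 k12 1
  2))))))] .n)

def s170_171_100 : T TT 256 :=
  (.q k5 [(.s k1 k253 13 (.s k13 k9 1 (.s k165 k245 11 (.s k161 k173 1 (.d k241 k81 k89 11 13))))),
  (.s k15 k10 2 (.s k165 k245 11 (.s k173 k161 1 (.s k252 k94 12 (.s k84 k168 13 (.d k86 k87 k3 0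
  14)))))), (.s k1 k253 13 (.s k3 k2 0 (.s k15 k10 2 (.s k7 k11 1 (.s k6 k4 0 (.d k9 k13 k12 1
  2))))))] .n)

def s170_171_101 : T TT 256 :=
  (.f k1 k253 13 (.q k41 [(.s k61 k21 5 (.s k105 k233 7 (.s k65 k125 5 (.d k193 k129 k149 7 13)))),
  (.s k3 k2 0 (.s k21 k61 5 (.s k22 k60 6 (.s k23 k20 0 (.d k63 k43 k42 5 6))))), (.s k3 k2 0 (.s
  k60 k22 6 (.s k20 k40 5 (.s k105 k233 7 (.d k150 k215 k195 8 14)))))] (.c k32 (.q k239 [(.s k61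
  k21 5 (.s k105 k233 7 (.s k65 k125 5 (.d k193 k129 k149 7 13)))), (.s k3 k2 0 (.s k21 k61 5 (.s
  k22 k60 6 (.s k23 k20 0 (.d k63 k43 k42 5 6))))), (.s k3 k2 0 (.s k60 k22 6 (.s k20 k40 5 (.s k105
  k233 7 (.d k150 k215 k195 8 14)))))] .n) (.c k239 (.q k32 [(.s k61 k21 5 (.s k105 k233 7 (.s k65
  k125 5 (.d k193 k129 k149 7 13)))), (.s k3 k2 0 (.s k48 k16 3 (.s k33 k18 4 (.s k17 k49 3 (.d k34
  k35 k51 0 4)))))] (.c k35 (.q k103 [(.s k61 k21 5 (.s k105 k233 7 (.s k65 k125 5 (.d k193 k129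
  k149 7 13)))), (.s k3 k2 0 (.s k21 k61 5 (.s k22 k60 6 (.s k23 k20 0 (.d k63 k43 k42 5 6))))), (.s
  k3 k2 0 (.s k60 k22 6 (.s k20 k40 5 (.s k105 k233 7 (.d k150 k215 k195 8 14)))))] .n) (.c k103 (.q
  k35 [(.s k33 k34 0 (.s k48 k16 3 (.d k3 k2 k18 0 4))), (.s k3 k2 0 (.s k44 k38 2 (.s k40 k36 1 (.d
  k60 k20 k22 5 6)))), (.s k21 k61 5 (.s k33 k34 0 (.s k37 k45 1 (.d k42 k47 k63 2 6))))] (.c k100
  (.l (.s k102 k236 10 (.s k3 k2 0 (.s k33 k34 0 (.d k48 k18 k16 4 3))))) (.c k102 (.q k100 [(.s k34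
  k33 0 (.s k51 k17 4 (.d k3 k2 k19 0 3))), (.s k21 k61 5 (.s k34 k33 0 (.s k38 k44 2 (.d k42 k46
  k63 1 6))))] (.c k33 (.l (.s k3 k2 0 (.s k168 k236 9 (.d k252 k86 k84 14 13)))) (.c k34 (.q k238
  [(.s k168 k236 9 (.s k252 k84 13 (.d k3 k2 k86 0 14))), (.s k21 k61 5 (.s k42 k63 6 (.s k43 k40 0
  (.d k47 k39 k37 1 2))))] .n) (.c k238 (.l (.s k34 k33 0 (.s k3 k2 0 (.d k51 k19 k17 3 4)))) .n))))
  .n))) .n))) .n))))

def s170_171_102 : T TT 256 :=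
  (.f k1 k253 13 (.q k17 [(.s k49 k33 3 (.s k153 k221 9 (.s k137 k185 3 (.d k205 k69 k101 9 13)))),
  (.s k3 k2 0 (.s k33 k49 3 (.s k18 k48 4 (.s k19 k16 0 (.d k51 k34 k35 4 3))))), (.s k3 k2 0 (.s
  k86 k252 14 (.s k153 k221 9 (.s k19 k220 10 (.d k51 k34 k35 4 3)))))] (.c k34 (.q k238 [(.s k153
  k221 9 (.s k137 k185 3 (.s k205 k69 9 (.d k49 k33 k101 3 13)))), (.s k3 k2 0 (.s k86 k252 14 (.s
  k87 k84 0 (.s k153 k221 9 (.s k19 k220 10 (.s k223 k155 9 (.d k16 k18 k154 0 10))))))), (.s k3 k2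
  0 (.s k33 k49 3 (.s k18 k48 4 (.s k16 k19 0 (.s k86 k252 14 (.d k154 k222 k223 9 10))))))] .n) (.c
  k238 (.l (.s k34 k51 4 (.s k3 k2 0 (.s k33 k49 3 (.s k32 k35 0 (.d k48 k16 k18 3 4)))))) .n))))

def s170_171_103 : T TT 256 :=
  (.f k1 k253 13 (.q k35 [(.s k3 k2 0 (.s k51 k19 3 (.s k102 k236 10 (.s k68 k119 4 (.d k204 k136
  k153 9 14))))), (.s k3 k2 0 (.s k51 k19 3 (.s k17 k34 4 (.s k153 k221 9 (.s k185 k137 3 (.d k252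
  k86 k118 14 10)))))), (.s k102 k236 10 (.s k68 k119 4 (.s k204 k136 9 (.s k153 k51 14 (.s k137
  k185 3 (.s k69 k205 9 (.d k70 k71 k3 0 10)))))))] (.c k3 (.f k102 k236 10 (.l (.s k68 k119 4 (.s
  k204 k136 9 (.s k153 k51 14 (.s k17 k221 9 (.s k49 k33 3 (.s k137 k185 3 (.d k205 k69 k101 9
  13))))))))) (.c k51 (.l (.s k3 k2 0 (.s k86 k252 14 (.s k102 k236 10 (.s k68 k119 4 (.s k204 k136
  9 (.d k70 k118 k137 3 10))))))) (.c k102 (.l (.s k3 k2 0 (.s k19 k51 3 (.s k86 k252 14 (.s k153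
  k220 10 (.s k17 k221 9 (.s k18 k16 0 (.d k33 k49 k48 3 4)))))))) (.c k153 (.l (.s k3 k2 0 (.s k86
  k252 14 (.s k102 k236 10 (.s k68 k119 4 (.s k70 k118 3 (.d k204 k136 k137 9 10))))))) .n))))))

def s170_171_104 : T TT 256 :=
  (.q k5 [(.s k1 k253 13 (.s k13 k9 1 (.s k165 k245 11 (.s k161 k173 1 (.d k241 k81 k89 11 13))))),
  (.s k15 k10 2 (.s k165 k245 11 (.s k173 k161 1 (.s k252 k94 12 (.s k84 k168 13 (.d k86 k87 k3 0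
  14)))))), (.s k1 k253 13 (.s k3 k2 0 (.s k15 k10 2 (.s k7 k11 1 (.s k6 k4 0 (.d k9 k13 k12 1
  2))))))] .n)

def s170_171_105 : T TT 256 :=
  (.f k1 k253 13 (.q k161 [(.s k165 k173 1 (.s k5 k245 11 (.s k13 k9 1 (.d k241 k81 k89 11 13)))),
  (.s k3 k2 0 (.s k81 k241 11 (.s k82 k240 12 (.s k83 k80 0 (.d k243 k163 k162 11 12))))), (.s k3 k2
  0 (.s k165 k173 1 (.s k240 k82 12 (.s k80 k160 11 (.d k90 k95 k15 2 14)))))] (.c k40 (.q k235 [(.s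
  k165 k173 1 (.s k5 k245 11 (.s k13 k9 1 (.d k241 k81 k89 11 13)))), (.s k3 k2 0 (.s k81 k241 11
  (.s k82 k240 12 (.s k83 k80 0 (.d k243 k163 k162 11 12))))), (.s k3 k2 0 (.s k165 k173 1 (.s k240
  k82 12 (.s k80 k160 11 (.d k90 k95 k15 2 14)))))] .n) (.c k235 (.q k40 [(.s k165 k173 1 (.s k5
  k245 11 (.s k13 k9 1 (.d k241 k81 k89 11 13)))), (.s k3 k2 0 (.s k60 k20 5 (.s k41 k22 6 (.s k21
  k61 5 (.d k42 k43 k63 0 6)))))] (.c k43 (.q k107 [(.s k165 k173 1 (.s k5 k245 11 (.s k13 k9 1 (.d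
  k241 k81 k89 11 13)))), (.s k3 k2 0 (.s k81 k241 11 (.s k82 k240 12 (.s k83 k80 0 (.d k243 k163
  k162 11 12))))), (.s k3 k2 0 (.s k165 k173 1 (.s k240 k82 12 (.s k80 k160 11 (.d k90 k95 k15 2
  14)))))] .n) (.c k107 (.q k43 [(.s k41 k42 0 (.s k60 k20 5 (.d k3 k2 k22 0 6))), (.s k165 k173 1
  (.s k5 k245 11 (.s k13 k9 1 (.d k241 k81 k89 11 13))))] (.c k104 (.l (.s k106 k232 8 (.s k3 k2 0
  (.s k41 k42 0 (.d k60 k22 k20 6 5))))) (.c k106 (.q k104 [(.s k42 k41 0 (.s k63 k21 6 (.d k3 k2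
  k23 0 5))), (.s k165 k173 1 (.s k5 k245 11 (.s k13 k9 1 (.d k241 k81 k89 11 13))))] (.c k42 (.q
  k234 [(.s k168 k232 7 (.s k252 k84 13 (.d k3 k2 k86 0 14))), (.s k165 k173 1 (.s k5 k245 11 (.s
  k13 k9 1 (.d k241 k81 k89 11 13))))] .n) (.c k234 (.l (.s k42 k41 0 (.s k3 k2 0 (.d k63 k23 k21 5
  6)))) .n))) .n))) .n))) .n))))

def s170_171_106 : T TT 256 :=
  (.f k1 k253 13 (.q k21 [(.s k61 k41 5 (.s k149 k213 7 (.s k129 k189 5 (.d k193 k65 k105 7 13)))),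
  (.s k3 k2 0 (.s k41 k61 5 (.s k22 k60 6 (.s k23 k20 0 (.d k63 k42 k43 6 5))))), (.s k3 k2 0 (.s
  k86 k252 14 (.s k149 k213 7 (.s k23 k212 8 (.d k63 k42 k43 6 5)))))] (.c k42 (.q k234 [(.s k149
  k213 7 (.s k129 k189 5 (.s k193 k65 7 (.d k61 k41 k105 5 13)))), (.s k3 k2 0 (.s k86 k252 14 (.s
  k87 k84 0 (.s k149 k213 7 (.s k23 k212 8 (.s k215 k151 7 (.d k20 k22 k150 0 8))))))), (.s k3 k2 0
  (.s k41 k61 5 (.s k22 k60 6 (.s k20 k23 0 (.s k86 k252 14 (.d k150 k214 k215 7 8))))))] .n) (.c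
  k234 (.l (.s k42 k63 6 (.s k3 k2 0 (.s k41 k61 5 (.s k40 k43 0 (.d k60 k20 k22 5 6)))))) .n))))

def s170_171_107 : T TT 256 :=
  (.f k1 k253 13 (.q k43 [(.s k3 k2 0 (.s k63 k23 5 (.s k106 k232 8 (.s k64 k127 6 (.d k192 k128
  k149 7 14))))), (.s k3 k2 0 (.s k63 k23 5 (.s k21 k42 6 (.s k149 k213 7 (.s k189 k129 5 (.d k252
  k86 k126 14 8)))))), (.s k106 k232 8 (.s k64 k127 6 (.s k192 k128 7 (.s k149 k63 14 (.s k129 k189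
  5 (.s k65 k193 7 (.d k66 k67 k3 0 8)))))))] (.c k3 (.f k106 k232 8 (.l (.s k64 k127 6 (.s k192
  k128 7 (.s k149 k63 14 (.s k21 k213 7 (.s k61 k41 5 (.s k129 k189 5 (.d k193 k65 k105 7
  13))))))))) (.c k63 (.l (.s k3 k2 0 (.s k86 k252 14 (.s k106 k232 8 (.s k64 k127 6 (.s k192 k128 7
  (.d k66 k126 k129 5 8))))))) (.c k106 (.l (.s k3 k2 0 (.s k23 k63 5 (.s k86 k252 14 (.s k149 k212
  8 (.s k21 k213 7 (.s k22 k20 0 (.d k41 k61 k60 5 6)))))))) (.c k149 (.l (.s k3 k2 0 (.s k86 k252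
  14 (.s k106 k232 8 (.s k64 k127 6 (.s k66 k126 5 (.d k192 k128 k129 7 8))))))) .n))))))

def s170_171_108 : T TT 256 :=
  (.q k5 [(.s k1 k253 13 (.s k13 k9 1 (.s k165 k245 11 (.s k161 k173 1 (.d k241 k81 k89 11 13))))),
  (.s k15 k10 2 (.s k165 k245 11 (.s k173 k161 1 (.s k252 k94 12 (.s k84 k168 13 (.d k86 k87 k3 0
  14)))))), (.s k1 k253 13 (.s k3 k2 0 (.s k15 k10 2 (.s k7 k11 1 (.s k6 k4 0 (.d k9 k13 k12 1
  2))))))] .n)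

def s170_171_109 : T TT 256 :=
  (.q k5 [(.s k1 k253 13 (.s k13 k9 1 (.s k165 k245 11 (.s k161 k173 1 (.d k241 k81 k89 11 13))))),
  (.s k15 k10 2 (.s k165 k245 11 (.s k173 k161 1 (.s k252 k94 12 (.s k84 k168 13 (.d k86 k87 k3 0
  14)))))), (.s k1 k253 13 (.s k3 k2 0 (.s k15 k10 2 (.s k7 k11 1 (.s k6 k4 0 (.d k9 k13 k12 1
  2))))))] .n)

def s170_171_110 : T TT 256 :=
  (.q k5 [(.s k1 k253 13 (.s k13 k9 1 (.s k165 k245 11 (.s k161 k173 1 (.d k241 k81 k89 11 13))))),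
  (.s k15 k10 2 (.s k165 k245 11 (.s k173 k161 1 (.s k252 k94 12 (.s k84 k168 13 (.d k86 k87 k3 0
  14)))))), (.s k1 k253 13 (.s k3 k2 0 (.s k15 k10 2 (.s k7 k11 1 (.s k6 k4 0 (.d k9 k13 k12 1
  2))))))] .n)

def s170_171_111 : T TT 256 :=
  (.q k5 [(.s k1 k253 13 (.s k13 k9 1 (.s k165 k245 11 (.s k161 k173 1 (.d k241 k81 k89 11 13))))),
  (.s k15 k10 2 (.s k165 k245 11 (.s k173 k161 1 (.s k252 k94 12 (.s k84 k168 13 (.d k86 k87 k3 0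
  14)))))), (.s k1 k253 13 (.s k3 k2 0 (.s k15 k10 2 (.s k7 k11 1 (.s k6 k4 0 (.d k9 k13 k12 1
  2))))))] .n)

def s170_171_112 : T TT 256 :=
  (.q k5 [(.s k1 k253 13 (.s k13 k9 1 (.s k165 k245 11 (.s k161 k173 1 (.d k241 k81 k89 11 13))))),
  (.s k15 k10 2 (.s k165 k245 11 (.s k173 k161 1 (.s k252 k94 12 (.s k84 k168 13 (.d k86 k87 k3 0
  14)))))), (.s k1 k253 13 (.s k3 k2 0 (.s k15 k10 2 (.s k7 k11 1 (.s k6 k4 0 (.d k9 k13 k12 1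
  2))))))] .n)

def s170_171_113 : T TT 256 :=
  (.q k5 [(.s k1 k253 13 (.s k13 k9 1 (.s k165 k245 11 (.s k161 k173 1 (.d k241 k81 k89 11 13))))),
  (.s k15 k10 2 (.s k165 k245 11 (.s k173 k161 1 (.s k252 k94 12 (.s k84 k168 13 (.d k86 k87 k3 0
  14)))))), (.s k1 k253 13 (.s k3 k2 0 (.s k15 k10 2 (.s k7 k11 1 (.s k6 k4 0 (.d k9 k13 k12 1
  2))))))] .n)

def s170_171_114 : T TT 256 :=
  (.q k5 [(.s k1 k253 13 (.s k13 k9 1 (.s k165 k245 11 (.s k161 k173 1 (.d k241 k81 k89 11 13))))),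
  (.s k15 k10 2 (.s k165 k245 11 (.s k173 k161 1 (.s k252 k94 12 (.s k84 k168 13 (.d k86 k87 k3 0
  14)))))), (.s k1 k253 13 (.s k3 k2 0 (.s k15 k10 2 (.s k7 k11 1 (.s k6 k4 0 (.d k9 k13 k12 1
  2))))))] .n)

def s170_171_115 : T TT 256 :=
  (.q k5 [(.s k1 k253 13 (.s k13 k9 1 (.s k165 k245 11 (.s k161 k173 1 (.d k241 k81 k89 11 13))))),
  (.s k15 k10 2 (.s k165 k245 11 (.s k173 k161 1 (.s k252 k94 12 (.s k84 k168 13 (.d k86 k87 k3 0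
  14)))))), (.s k1 k253 13 (.s k3 k2 0 (.s k15 k10 2 (.s k7 k11 1 (.s k6 k4 0 (.d k9 k13 k12 1
  2))))))] .n)

def s170_171_116 : T TT 256 :=
  (.q k5 [(.s k1 k253 13 (.s k13 k9 1 (.s k165 k245 11 (.s k161 k173 1 (.d k241 k81 k89 11 13))))),
  (.s k15 k10 2 (.s k165 k245 11 (.s k173 k161 1 (.s k252 k94 12 (.s k84 k168 13 (.d k86 k87 k3 0
  14)))))), (.s k1 k253 13 (.s k3 k2 0 (.s k15 k10 2 (.s k7 k11 1 (.s k6 k4 0 (.d k9 k13 k12 1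
  2))))))] .n)

def s170_171_117 : T TT 256 :=
  (.q k5 [(.s k1 k253 13 (.s k13 k9 1 (.s k165 k245 11 (.s k161 k173 1 (.d k241 k81 k89 11 13))))),
  (.s k15 k10 2 (.s k165 k245 11 (.s k173 k161 1 (.s k252 k94 12 (.s k84 k168 13 (.d k86 k87 k3 0
  14)))))), (.s k1 k253 13 (.s k3 k2 0 (.s k15 k10 2 (.s k7 k11 1 (.s k6 k4 0 (.d k9 k13 k12 1
  2))))))] .n)

def s170_171_118 : T TT 256 :=
  (.q k5 [(.s k1 k253 13 (.s k13 k9 1 (.s k165 k245 11 (.s k161 k173 1 (.d k241 k81 k89 11 13))))),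
  (.s k15 k10 2 (.s k165 k245 11 (.s k173 k161 1 (.s k252 k94 12 (.s k84 k168 13 (.d k86 k87 k3 0
  14)))))), (.s k1 k253 13 (.s k3 k2 0 (.s k15 k10 2 (.s k7 k11 1 (.s k6 k4 0 (.d k9 k13 k12 1
  2))))))] .n)

def s170_171_119 : T TT 256 :=
  (.q k5 [(.s k1 k253 13 (.s k13 k9 1 (.s k165 k245 11 (.s k161 k173 1 (.d k241 k81 k89 11 13))))),
  (.s k15 k10 2 (.s k165 k245 11 (.s k173 k161 1 (.s k252 k94 12 (.s k84 k168 13 (.d k86 k87 k3 0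
  14)))))), (.s k1 k253 13 (.s k3 k2 0 (.s k15 k10 2 (.s k7 k11 1 (.s k6 k4 0 (.d k9 k13 k12 1
  2))))))] .n)

def s170_171_120 : T TT 256 :=
  (.q k5 [(.s k1 k253 13 (.s k13 k9 1 (.s k165 k245 11 (.s k161 k173 1 (.d k241 k81 k89 11 13))))),
  (.s k15 k10 2 (.s k165 k245 11 (.s k173 k161 1 (.s k252 k94 12 (.s k84 k168 13 (.d k86 k87 k3 0
  14)))))), (.s k1 k253 13 (.s k3 k2 0 (.s k15 k10 2 (.s k7 k11 1 (.s k6 k4 0 (.d k9 k13 k12 1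
  2))))))] .n)

def s170_171_121 : T TT 256 :=
  (.q k5 [(.s k1 k253 13 (.s k13 k9 1 (.s k165 k245 11 (.s k161 k173 1 (.d k241 k81 k89 11 13))))),
  (.s k15 k10 2 (.s k165 k245 11 (.s k173 k161 1 (.s k252 k94 12 (.s k84 k168 13 (.d k86 k87 k3 0
  14)))))), (.s k1 k253 13 (.s k3 k2 0 (.s k15 k10 2 (.s k7 k11 1 (.s k6 k4 0 (.d k9 k13 k12 1
  2))))))] .n)

def s170_171_122 : T TT 256 :=
  (.q k5 [(.s k1 k253 13 (.s k13 k9 1 (.s k165 k245 11 (.s k161 k173 1 (.d k241 k81 k89 11 13))))),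
  (.s k15 k10 2 (.s k165 k245 11 (.s k173 k161 1 (.s k252 k94 12 (.s k84 k168 13 (.d k86 k87 k3 0
  14)))))), (.s k1 k253 13 (.s k3 k2 0 (.s k15 k10 2 (.s k7 k11 1 (.s k6 k4 0 (.d k9 k13 k12 1
  2))))))] .n)

def s170_171_123 : T TT 256 :=
  (.q k5 [(.s k1 k253 13 (.s k13 k9 1 (.s k165 k245 11 (.s k161 k173 1 (.d k241 k81 k89 11 13))))),
  (.s k15 k10 2 (.s k165 k245 11 (.s k173 k161 1 (.s k252 k94 12 (.s k84 k168 13 (.d k86 k87 k3 0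
  14)))))), (.s k1 k253 13 (.s k3 k2 0 (.s k15 k10 2 (.s k7 k11 1 (.s k6 k4 0 (.d k9 k13 k12 1
  2))))))] .n)

def s170_171_124 : T TT 256 :=
  (.q k5 [(.s k1 k253 13 (.s k13 k9 1 (.s k165 k245 11 (.s k161 k173 1 (.d k241 k81 k89 11 13))))),
  (.s k15 k10 2 (.s k165 k245 11 (.s k173 k161 1 (.s k252 k94 12 (.s k84 k168 13 (.d k86 k87 k3 0
  14)))))), (.s k1 k253 13 (.s k3 k2 0 (.s k15 k10 2 (.s k7 k11 1 (.s k6 k4 0 (.d k9 k13 k12 1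
  2))))))] .n)

def s170_171_125 : T TT 256 :=
  (.q k5 [(.s k1 k253 13 (.s k13 k9 1 (.s k165 k245 11 (.s k161 k173 1 (.d k241 k81 k89 11 13))))),
  (.s k15 k10 2 (.s k165 k245 11 (.s k173 k161 1 (.s k252 k94 12 (.s k84 k168 13 (.d k86 k87 k3 0
  14)))))), (.s k1 k253 13 (.s k3 k2 0 (.s k15 k10 2 (.s k7 k11 1 (.s k6 k4 0 (.d k9 k13 k12 1
  2))))))] .n)

def s170_171_126 : T TT 256 :=
  (.q k5 [(.s k1 k253 13 (.s k13 k9 1 (.s k165 k245 11 (.s k161 k173 1 (.d k241 k81 k89 11 13))))),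
  (.s k15 k10 2 (.s k165 k245 11 (.s k173 k161 1 (.s k252 k94 12 (.s k84 k168 13 (.d k86 k87 k3 0
  14)))))), (.s k1 k253 13 (.s k3 k2 0 (.s k15 k10 2 (.s k7 k11 1 (.s k6 k4 0 (.d k9 k13 k12 1
  2))))))] .n)

def s170_171_127 : T TT 256 :=
  (.q k5 [(.s k1 k253 13 (.s k13 k9 1 (.s k165 k245 11 (.s k161 k173 1 (.d k241 k81 k89 11 13))))),
  (.s k15 k10 2 (.s k165 k245 11 (.s k173 k161 1 (.s k252 k94 12 (.s k84 k168 13 (.d k86 k87 k3 0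
  14)))))), (.s k1 k253 13 (.s k3 k2 0 (.s k15 k10 2 (.s k7 k11 1 (.s k6 k4 0 (.d k9 k13 k12 1
  2))))))] .n)

def s170_171_128 : T TT 256 :=
  (.q k149 [(.s k1 k253 13 (.s k21 k213 7 (.s k61 k41 5 (.s k129 k189 5 (.d k193 k65 k105 7 13))))),
  (.s k21 k213 7 (.s k63 k42 6 (.s k189 k129 5 (.s k252 k126 8 (.s k84 k168 13 (.d k86 k87 k3 0
  14)))))), (.s k1 k253 13 (.s k3 k2 0 (.s k86 k252 14 (.s k23 k212 8 (.s k63 k43 5 (.s k129 k189 5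
  (.d k192 k66 k106 8 14))))))), (.s k1 k253 13 (.s k3 k2 0 (.s k21 k213 7 (.s k63 k42 6 (.s k23 k43
  5 (.d k86 k212 k252 8 14))))))] .n)

def s170_171_129 : T TT 256 :=
  (.q k5 [(.s k1 k253 13 (.s k13 k9 1 (.s k165 k245 11 (.s k161 k173 1 (.d k241 k81 k89 11 13))))),
  (.s k15 k10 2 (.s k165 k245 11 (.s k173 k161 1 (.s k252 k94 12 (.s k84 k168 13 (.d k86 k87 k3 0
  14)))))), (.s k1 k253 13 (.s k3 k2 0 (.s k15 k10 2 (.s k7 k11 1 (.s k6 k4 0 (.d k9 k13 k12 1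
  2))))))] .n)

def s170_171_130 : T TT 256 :=
  (.f k1 k253 13 (.q k150 [(.s k3 k2 0 (.s k20 k215 8 (.s k60 k40 5 (.s k131 k188 6 (.d k195 k105
  k67 14 7))))), (.s k20 k215 8 (.s k60 k40 5 (.s k105 k195 14 (.s k41 k233 7 (.s k61 k21 5 (.s k65
  k125 5 (.d k193 k129 k149 7 13))))))), (.s k3 k2 0 (.s k86 k252 14 (.s k22 k214 7 (.s k60 k41 6
  (.s k131 k188 6 (.d k195 k67 k105 7 14)))))), (.s k3 k2 0 (.s k20 k215 8 (.s k86 k252 14 (.s k22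
  k214 7 (.s k23 k21 0 (.s k84 k87 0 (.d k212 k148 k149 7 8)))))))] (.c k195 (.l (.s k3 k2 0 (.s k20
  k215 8 (.s k60 k40 5 (.s k22 k41 6 (.d k86 k214 k252 7 14)))))) .n)))

def s170_171_131 : T TT 256 :=
  (.f k1 k253 13 (.q k105 [(.s k41 k233 7 (.s k61 k21 5 (.s k65 k125 5 (.d k193 k129 k149 7 13)))),
  (.s k3 k2 0 (.s k41 k233 7 (.s k60 k22 6 (.s k20 k40 5 (.d k150 k215 k195 8 14))))), (.s k3 k2 0
  (.s k65 k125 5 (.s k86 k252 14 (.s k67 k124 6 (.s k66 k64 0 (.d k129 k193 k192 7 8))))))] (.c k151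
  (.q k191 [(.s k41 k233 7 (.s k61 k21 5 (.s k65 k125 5 (.d k193 k129 k149 7 13)))), (.s k3 k2 0 (.s
  k41 k233 7 (.s k60 k22 6 (.s k20 k40 5 (.d k150 k215 k195 8 14))))), (.s k3 k2 0 (.s k65 k125 5
  (.s k86 k252 14 (.s k67 k124 6 (.s k66 k64 0 (.d k129 k193 k192 7 8))))))] (.c k193 (.l (.s k3 k2
  0 (.s k65 k125 5 (.s k195 k130 8 (.s k233 k41 7 (.d k252 k86 k214 14 6)))))) .n)) (.c k191 (.q
  k151 [(.s k41 k233 7 (.s k61 k21 5 (.s k65 k125 5 (.d k193 k149 k129 13 7)))), (.s k3 k2 0 (.s k41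
  k233 7 (.s k60 k22 6 (.s k20 k40 5 (.d k150 k215 k195 8 14))))), (.s k65 k125 5 (.s k195 k130 8
  (.s k150 k60 14 (.s k149 k148 0 (.d k129 k189 k193 5 7)))))] (.c k128 (.q k149 [(.s k65 k125 5 (.d
  k129 k189 k193 5 7)), (.s k150 k148 0 (.s k20 k215 8 (.d k60 k40 k195 5 14)))] (.c k129 (.q k130
  [(.d k65 k125 k195 5 8), (.s k21 k213 7 (.d k41 k233 k61 7 5))] .n) (.c k130 (.l (.s k129 k189 5
  (.d k65 k125 k193 5 7))) .n))) (.c k149 (.q k128 [(.s k65 k125 5 (.s k192 k64 7 (.s k193 k129 7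
  (.d k195 k194 k130 0 8)))), (.s k3 k2 0 (.s k41 k233 7 (.s k60 k22 6 (.s k20 k40 5 (.d k150 k215
  k195 8 14))))), (.s k3 k2 0 (.s k64 k192 7 (.s k65 k125 5 (.s k67 k66 0 (.d k86 k124 k252 6
  14)))))] .n) (.c k193 (.l (.s k3 k2 0 (.s k65 k125 5 (.s k195 k130 8 (.s k233 k41 7 (.d k252 k86
  k214 14 6)))))) .n)))) (.c k193 (.l (.s k3 k2 0 (.s k65 k125 5 (.s k195 k130 8 (.s k233 k41 7 (.d
  k252 k86 k214 14 6)))))) .n)))))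

def s170_171_132 : T TT 256 :=
  (.q k5 [(.s k1 k253 13 (.s k13 k9 1 (.s k165 k245 11 (.s k161 k173 1 (.d k241 k81 k89 11 13))))),
  (.s k15 k10 2 (.s k165 k245 11 (.s k173 k161 1 (.s k252 k94 12 (.s k84 k168 13 (.d k86 k87 k3 0
  14)))))), (.s k1 k253 13 (.s k3 k2 0 (.s k15 k10 2 (.s k7 k11 1 (.s k6 k4 0 (.d k9 k13 k12 1
  2))))))] .n)

def s170_171_133 : T TT 256 :=
  (.q k5 [(.s k1 k253 13 (.s k13 k9 1 (.s k165 k245 11 (.s k161 k173 1 (.d k241 k81 k89 11 13))))),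
  (.s k15 k10 2 (.s k165 k245 11 (.s k173 k161 1 (.s k252 k94 12 (.s k84 k168 13 (.d k86 k87 k3 0
  14)))))), (.s k1 k253 13 (.s k3 k2 0 (.s k15 k10 2 (.s k7 k11 1 (.s k6 k4 0 (.d k9 k13 k12 1
  2))))))] .n)

def s170_171_134 : T TT 256 :=
  (.q k5 [(.s k1 k253 13 (.s k13 k9 1 (.s k165 k245 11 (.s k161 k173 1 (.d k241 k81 k89 11 13))))),
  (.s k15 k10 2 (.s k165 k245 11 (.s k173 k161 1 (.s k252 k94 12 (.s k84 k168 13 (.d k86 k87 k3 0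
  14)))))), (.s k1 k253 13 (.s k3 k2 0 (.s k15 k10 2 (.s k7 k11 1 (.s k6 k4 0 (.d k9 k13 k12 1
  2))))))] .n)

def s170_171_135 : T TT 256 :=
  (.q k5 [(.s k1 k253 13 (.s k13 k9 1 (.s k165 k245 11 (.s k161 k173 1 (.d k241 k81 k89 11 13))))),
  (.s k15 k10 2 (.s k165 k245 11 (.s k173 k161 1 (.s k252 k94 12 (.s k84 k168 13 (.d k86 k87 k3 0
  14)))))), (.s k1 k253 13 (.s k3 k2 0 (.s k15 k10 2 (.s k7 k11 1 (.s k6 k4 0 (.d k9 k13 k12 1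
  2))))))] .n)

def s170_171_136 : T TT 256 :=
  (.q k153 [(.s k1 k253 13 (.s k17 k221 9 (.s k49 k33 3 (.s k137 k185 3 (.d k205 k69 k101 9 13))))),
  (.s k17 k221 9 (.s k51 k34 4 (.s k185 k137 3 (.s k252 k118 10 (.s k84 k168 13 (.d k86 k87 k3 0
  14)))))), (.s k1 k253 13 (.s k3 k2 0 (.s k86 k252 14 (.s k19 k220 10 (.s k51 k35 3 (.s k137 k185 3
  (.d k204 k70 k102 10 14))))))), (.s k1 k253 13 (.s k3 k2 0 (.s k17 k221 9 (.s k51 k34 4 (.s k19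
  k35 3 (.d k86 k220 k252 10 14))))))] .n)

def s170_171_137 : T TT 256 :=
  (.q k5 [(.s k1 k253 13 (.s k165 k245 11 (.s k161 k173 1 (.s k241 k81 11 (.d k13 k9 k89 1 13))))),
  (.s k15 k10 2 (.s k165 k245 11 (.s k173 k161 1 (.s k252 k94 12 (.s k84 k168 13 (.d k86 k87 k3 0
  14)))))), (.s k1 k253 13 (.s k3 k2 0 (.s k15 k10 2 (.s k7 k11 1 (.s k6 k4 0 (.d k9 k13 k12 1
  2))))))] .n)

def s170_171_138 : T TT 256 :=
  (.f k1 k253 13 (.q k154 [(.s k3 k2 0 (.s k16 k223 10 (.s k48 k32 3 (.s k139 k184 4 (.d k207 k101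
  k71 14 9))))), (.s k16 k223 10 (.s k48 k32 3 (.s k101 k207 14 (.s k33 k237 9 (.s k49 k17 3 (.s k69
  k117 3 (.d k205 k137 k153 9 13))))))), (.s k3 k2 0 (.s k86 k252 14 (.s k18 k222 9 (.s k48 k33 4
  (.s k139 k184 4 (.d k207 k71 k101 9 14)))))), (.s k3 k2 0 (.s k16 k223 10 (.s k86 k252 14 (.s k18
  k222 9 (.s k19 k17 0 (.s k84 k87 0 (.d k220 k152 k153 9 10)))))))] (.c k207 (.l (.s k3 k2 0 (.s
  k16 k223 10 (.s k48 k32 3 (.s k18 k33 4 (.d k86 k222 k252 9 14)))))) .n)))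

def s170_171_139 : T TT 256 :=
  (.f k1 k253 13 (.q k105 [(.s k41 k233 7 (.s k61 k21 5 (.s k65 k125 5 (.d k193 k129 k149 7 13)))),
  (.s k3 k2 0 (.s k65 k125 5 (.s k86 k252 14 (.s k67 k124 6 (.d k195 k131 k130 7 8))))), (.s k3 k2 0
  (.s k41 k233 7 (.s k60 k22 6 (.s k20 k40 5 (.d k150 k215 k195 8 14)))))] (.c k155 (.q k187 [(.s
  k41 k233 7 (.s k61 k21 5 (.s k65 k125 5 (.d k193 k129 k149 7 13)))), (.s k3 k2 0 (.s k65 k125 5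
  (.s k86 k252 14 (.s k67 k124 6 (.d k195 k131 k130 7 8))))), (.s k3 k2 0 (.s k41 k233 7 (.s k60 k22
  6 (.s k20 k40 5 (.d k150 k215 k195 8 14)))))] .n) (.c k187 (.q k155 [(.s k41 k233 7 (.s k61 k21 5
  (.s k65 k125 5 (.d k193 k129 k149 7 13)))), (.s k3 k2 0 (.s k65 k125 5 (.s k86 k252 14 (.s k67
  k124 6 (.d k195 k131 k130 7 8))))), (.s k3 k2 0 (.s k41 k233 7 (.s k60 k22 6 (.s k20 k40 5 (.d
  k150 k215 k195 8 14)))))] (.c k136 (.q k153 [(.s k17 k221 9 (.s k49 k33 3 (.s k137 k185 3 (.d k205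
  k69 k101 9 13)))), (.s k3 k2 0 (.s k86 k252 14 (.s k19 k220 10 (.d k87 k84 k223 0 9))))] (.c k137
  (.q k138 [(.s k17 k221 9 (.s k207 k69 10 (.d k51 k34 k103 4 13))), (.s k3 k2 0 (.s k86 k252 14 (.s
  k19 k220 10 (.d k87 k84 k223 0 9))))] .n) (.c k138 (.l (.s k137 k185 3 (.s k17 k221 9 (.s k49 k33
  3 (.d k205 k69 k101 9 13))))) .n))) (.c k153 (.q k136 [(.s k41 k233 7 (.s k61 k21 5 (.s k65 k125 5
  (.d k193 k129 k149 7 13)))), (.s k3 k2 0 (.s k65 k125 5 (.s k86 k252 14 (.s k67 k124 6 (.d k195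
  k131 k130 7 8))))), (.s k3 k2 0 (.s k41 k233 7 (.s k60 k22 6 (.s k20 k40 5 (.d k150 k215 k195 8
  14)))))] .n) .n))) .n))))

def s170_171_140 : T TT 256 :=
  (.q k5 [(.s k1 k253 13 (.s k13 k9 1 (.s k165 k245 11 (.s k161 k173 1 (.d k241 k81 k89 11 13))))),
  (.s k15 k10 2 (.s k165 k245 11 (.s k173 k161 1 (.s k252 k94 12 (.s k84 k168 13 (.d k86 k87 k3 0
  14)))))), (.s k1 k253 13 (.s k3 k2 0 (.s k15 k10 2 (.s k7 k11 1 (.s k6 k4 0 (.d k9 k13 k12 1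
  2))))))] .n)

def s170_171_141 : T TT 256 :=
  (.q k5 [(.s k1 k253 13 (.s k13 k9 1 (.s k165 k245 11 (.s k161 k173 1 (.d k241 k81 k89 11 13))))),
  (.s k15 k10 2 (.s k165 k245 11 (.s k173 k161 1 (.s k252 k94 12 (.s k84 k168 13 (.d k86 k87 k3 0
  14)))))), (.s k1 k253 13 (.s k3 k2 0 (.s k15 k10 2 (.s k7 k11 1 (.s k6 k4 0 (.d k9 k13 k12 1
  2))))))] .n)

def s170_171_142 : T TT 256 :=
  (.q k5 [(.s k1 k253 13 (.s k13 k9 1 (.s k165 k245 11 (.s k161 k173 1 (.d k241 k81 k89 11 13))))),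
  (.s k15 k10 2 (.s k165 k245 11 (.s k173 k161 1 (.s k252 k94 12 (.s k84 k168 13 (.d k86 k87 k3 0
  14)))))), (.s k1 k253 13 (.s k3 k2 0 (.s k15 k10 2 (.s k7 k11 1 (.s k6 k4 0 (.d k9 k13 k12 1
  2))))))] .n)

def s170_171_143 : T TT 256 :=
  (.q k5 [(.s k1 k253 13 (.s k13 k9 1 (.s k165 k245 11 (.s k161 k173 1 (.d k241 k81 k89 11 13))))),
  (.s k15 k10 2 (.s k165 k245 11 (.s k173 k161 1 (.s k252 k94 12 (.s k84 k168 13 (.d k86 k87 k3 0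
  14)))))), (.s k1 k253 13 (.s k3 k2 0 (.s k15 k10 2 (.s k7 k11 1 (.s k6 k4 0 (.d k9 k13 k12 1
  2))))))] .n)

def s170_171_144 : T TT 256 :=
  (.q k5 [(.s k1 k253 13 (.s k13 k9 1 (.s k165 k245 11 (.s k161 k173 1 (.d k241 k81 k89 11 13))))),
  (.s k15 k10 2 (.s k165 k245 11 (.s k173 k161 1 (.s k252 k94 12 (.s k84 k168 13 (.d k86 k87 k3 0
  14)))))), (.s k1 k253 13 (.s k3 k2 0 (.s k15 k10 2 (.s k7 k11 1 (.s k6 k4 0 (.d k9 k13 k12 1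
  2))))))] .n)

def s170_171_145 : T TT 256 :=
  (.q k5 [(.s k1 k253 13 (.s k13 k9 1 (.s k165 k245 11 (.s k161 k173 1 (.d k241 k81 k89 11 13))))),
  (.s k15 k10 2 (.s k165 k245 11 (.s k173 k161 1 (.s k252 k94 12 (.s k84 k168 13 (.d k86 k87 k3 0
  14)))))), (.s k1 k253 13 (.s k3 k2 0 (.s k15 k10 2 (.s k7 k11 1 (.s k6 k4 0 (.d k9 k13 k12 1
  2))))))] .n)

def s170_171_146 : T TT 256 :=
  (.q k5 [(.s k1 k253 13 (.s k13 k9 1 (.s k165 k245 11 (.s k161 k173 1 (.d k241 k81 k89 11 13))))),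
  (.s k15 k10 2 (.s k165 k245 11 (.s k173 k161 1 (.s k252 k94 12 (.s k84 k168 13 (.d k86 k87 k3 0
  14)))))), (.s k1 k253 13 (.s k3 k2 0 (.s k15 k10 2 (.s k7 k11 1 (.s k6 k4 0 (.d k9 k13 k12 1
  2))))))] .n)

def s170_171_147 : T TT 256 :=
  (.q k5 [(.s k1 k253 13 (.s k13 k9 1 (.s k165 k245 11 (.s k161 k173 1 (.d k241 k81 k89 11 13))))),
  (.s k15 k10 2 (.s k165 k245 11 (.s k173 k161 1 (.s k252 k94 12 (.s k84 k168 13 (.d k86 k87 k3 0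
  14)))))), (.s k1 k253 13 (.s k3 k2 0 (.s k15 k10 2 (.s k7 k11 1 (.s k6 k4 0 (.d k9 k13 k12 1
  2))))))] .n)

def s170_171_148 : T TT 256 :=
  (.q k5 [(.s k1 k253 13 (.s k13 k9 1 (.s k165 k245 11 (.s k161 k173 1 (.d k241 k81 k89 11 13))))),
  (.s k15 k10 2 (.s k165 k245 11 (.s k173 k161 1 (.s k252 k94 12 (.s k84 k168 13 (.d k86 k87 k3 0
  14)))))), (.s k1 k253 13 (.s k3 k2 0 (.s k15 k10 2 (.s k7 k11 1 (.s k6 k4 0 (.d k9 k13 k12 1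
  2))))))] .n)

def s170_171_149 : T TT 256 :=
  (.f k1 k253 13 (.q k161 [(.s k165 k173 1 (.s k5 k245 11 (.s k13 k9 1 (.d k241 k81 k89 11 13)))),
  (.s k3 k2 0 (.s k81 k241 11 (.s k82 k240 12 (.s k83 k80 0 (.d k243 k163 k162 11 12))))), (.s k3 k2
  0 (.s k165 k173 1 (.s k240 k82 12 (.s k80 k160 11 (.d k90 k95 k15 2 14)))))] (.c k128 (.q k191
  [(.s k165 k173 1 (.s k5 k245 11 (.s k13 k9 1 (.d k241 k81 k89 11 13)))), (.s k3 k2 0 (.s k81 k241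
  11 (.s k82 k240 12 (.s k83 k80 0 (.d k243 k163 k162 11 12))))), (.s k3 k2 0 (.s k165 k173 1 (.s
  k240 k82 12 (.s k80 k160 11 (.d k90 k95 k15 2 14)))))] .n) (.c k191 (.q k128 [(.s k165 k173 1 (.s
  k5 k245 11 (.s k13 k9 1 (.d k241 k81 k89 11 13)))), (.s k3 k2 0 (.s k81 k241 11 (.s k82 k240 12
  (.s k83 k80 0 (.d k243 k163 k162 11 12))))), (.s k3 k2 0 (.s k165 k173 1 (.s k240 k82 12 (.s k80
  k160 11 (.d k90 k95 k15 2 14)))))] (.c k131 (.q k151 [(.s k165 k173 1 (.s k5 k245 11 (.s k13 k9 1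
  (.d k241 k81 k89 11 13)))), (.s k3 k2 0 (.s k81 k241 11 (.s k82 k240 12 (.s k83 k80 0 (.d k243
  k163 k162 11 12))))), (.s k3 k2 0 (.s k165 k173 1 (.s k240 k82 12 (.s k80 k160 11 (.d k90 k95 k15
  2 14)))))] .n) (.c k151 (.q k131 [(.s k129 k130 0 (.s k192 k64 7 (.d k3 k2 k66 0 8))), (.s k3 k2 0
  (.s k176 k146 4 (.s k160 k144 3 (.d k240 k80 k82 11 12)))), (.s k81 k241 11 (.s k129 k130 0 (.s
  k145 k177 3 (.d k162 k179 k243 4 12))))] (.c k148 (.l (.s k150 k188 6 (.s k3 k2 0 (.s k129 k130 0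
  (.d k192 k66 k64 8 7))))) (.c k150 (.q k148 [(.s k130 k129 0 (.s k195 k65 8 (.d k3 k2 k67 0 7))),
  (.s k81 k241 11 (.s k130 k129 0 (.s k146 k176 4 (.d k162 k178 k243 3 12))))] (.c k129 (.l (.s k3
  k2 0 (.s k168 k188 5 (.d k252 k86 k84 14 13)))) (.c k130 (.q k190 [(.s k168 k188 5 (.s k252 k84 13
  (.d k3 k2 k86 0 14))), (.s k81 k241 11 (.s k162 k243 12 (.s k163 k160 0 (.d k179 k147 k145 3
  4))))] .n) (.c k190 (.l (.s k130 k129 0 (.s k3 k2 0 (.d k195 k67 k65 7 8)))) .n)))) .n))) .n)))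
  .n))))

def s170_171_150 : T TT 256 :=
  (.f k1 k253 13 (.q k65 [(.s k105 k125 5 (.s k41 k233 7 (.s k61 k21 5 (.d k193 k129 k149 7 13)))),
  (.s k3 k2 0 (.s k86 k252 14 (.s k105 k125 5 (.s k67 k124 6 (.d k195 k130 k131 8 7))))), (.s k3 k2
  0 (.s k129 k193 7 (.s k66 k192 8 (.s k67 k64 0 (.d k195 k130 k131 8 7)))))] (.c k130 (.q k190 [(.s
  k105 k125 5 (.s k41 k233 7 (.s k61 k21 5 (.d k193 k129 k149 7 13)))), (.s k3 k2 0 (.s k86 k252 14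
  (.s k129 k193 7 (.s k66 k192 8 (.s k64 k67 0 (.d k106 k126 k127 5 6)))))), (.s k3 k2 0 (.s k86
  k252 14 (.s k87 k84 0 (.s k105 k125 5 (.s k67 k124 6 (.s k127 k107 5 (.d k64 k66 k106 0 6)))))))]
  .n) (.c k190 (.l (.s k130 k195 8 (.s k3 k2 0 (.s k129 k193 7 (.s k128 k131 0 (.d k192 k64 k66 7
  8)))))) .n))))

def s170_171_151 : T TT 256 :=
  (.f k1 k253 13 (.q k131 [(.s k3 k2 0 (.s k150 k188 6 (.s k195 k67 7 (.s k65 k130 8 (.d k105 k125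
  k60 5 14))))), (.s k150 k188 6 (.s k20 k215 8 (.s k60 k40 5 (.s k105 k195 14 (.s k41 k233 7 (.s
  k21 k61 5 (.d k22 k23 k3 0 6))))))), (.s k3 k2 0 (.s k195 k67 7 (.s k65 k130 8 (.s k105 k125 5 (.s
  k233 k41 7 (.d k252 k86 k214 14 6)))))), (.s k3 k2 0 (.s k86 k252 14 (.s k150 k188 6 (.s k20 k215
  8 (.s k22 k214 7 (.d k60 k40 k41 5 6))))))] (.c k3 (.f k150 k188 6 (.l (.s k20 k215 8 (.s k60 k40
  5 (.s k105 k195 14 (.s k41 k233 7 (.s k61 k21 5 (.s k65 k125 5 (.d k193 k129 k149 7 13)))))))))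
  (.c k150 (.l (.s k3 k2 0 (.s k67 k195 7 (.s k86 k252 14 (.s k105 k124 6 (.s k65 k125 5 (.s k66 k64
  0 (.d k129 k193 k192 7 8)))))))) (.c k195 (.l (.s k3 k2 0 (.s k86 k252 14 (.s k150 k188 6 (.s k20
  k215 8 (.s k60 k40 5 (.d k22 k214 k41 7 6))))))) .n)))))

def s170_171_152 : T TT 256 :=
  (.q k5 [(.s k1 k253 13 (.s k13 k9 1 (.s k165 k245 11 (.s k161 k173 1 (.d k241 k81 k89 11 13))))),
  (.s k15 k10 2 (.s k165 k245 11 (.s k173 k161 1 (.s k252 k94 12 (.s k84 k168 13 (.d k86 k87 k3 0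
  14)))))), (.s k1 k253 13 (.s k3 k2 0 (.s k15 k10 2 (.s k7 k11 1 (.s k6 k4 0 (.d k9 k13 k12 1
  2))))))] .n)

def s170_171_153 : T TT 256 :=
  (.f k1 k253 13 (.q k41 [(.s k61 k21 5 (.s k105 k233 7 (.s k65 k125 5 (.d k193 k129 k149 7 13)))),
  (.s k3 k2 0 (.s k21 k61 5 (.s k22 k60 6 (.s k23 k20 0 (.d k63 k43 k42 5 6))))), (.s k3 k2 0 (.s
  k60 k22 6 (.s k20 k40 5 (.s k105 k233 7 (.d k150 k215 k195 8 14)))))] (.c k136 (.q k187 [(.s k61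
  k21 5 (.s k105 k233 7 (.s k65 k125 5 (.d k193 k129 k149 7 13)))), (.s k3 k2 0 (.s k21 k61 5 (.s
  k22 k60 6 (.s k23 k20 0 (.d k63 k43 k42 5 6))))), (.s k3 k2 0 (.s k60 k22 6 (.s k20 k40 5 (.s k105
  k233 7 (.d k150 k215 k195 8 14)))))] .n) (.c k187 (.q k136 [(.s k61 k21 5 (.s k105 k233 7 (.s k65
  k125 5 (.d k193 k129 k149 7 13)))), (.s k3 k2 0 (.s k21 k61 5 (.s k22 k60 6 (.s k23 k20 0 (.d k63
  k43 k42 5 6))))), (.s k3 k2 0 (.s k60 k22 6 (.s k20 k40 5 (.s k105 k233 7 (.d k150 k215 k195 8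
  14)))))] (.c k139 (.q k155 [(.s k61 k21 5 (.s k105 k233 7 (.s k65 k125 5 (.d k193 k129 k149 7
  13)))), (.s k3 k2 0 (.s k21 k61 5 (.s k22 k60 6 (.s k23 k20 0 (.d k63 k43 k42 5 6))))), (.s k3 k2
  0 (.s k60 k22 6 (.s k20 k40 5 (.s k105 k233 7 (.d k150 k215 k195 8 14)))))] .n) (.c k155 (.q k139
  [(.s k137 k138 0 (.s k204 k68 9 (.d k3 k2 k70 0 10))), (.s k61 k21 5 (.s k105 k233 7 (.s k65 k125
  5 (.d k193 k129 k149 7 13))))] (.c k152 (.l (.s k154 k184 4 (.s k3 k2 0 (.s k137 k138 0 (.d k204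
  k70 k68 10 9))))) (.c k154 (.q k152 [(.s k138 k137 0 (.s k207 k69 10 (.d k3 k2 k71 0 9))), (.s k61
  k21 5 (.s k105 k233 7 (.s k65 k125 5 (.d k193 k129 k149 7 13))))] (.c k138 (.q k186 [(.s k168 k184
  3 (.s k252 k84 13 (.d k3 k2 k86 0 14))), (.s k61 k21 5 (.s k105 k233 7 (.s k65 k125 5 (.d k193
  k129 k149 7 13))))] .n) (.c k186 (.l (.s k138 k137 0 (.s k3 k2 0 (.d k207 k71 k69 9 10)))) .n)))
  .n))) .n))) .n))))

def s170_171_154 : T TT 256 :=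
  (.f k1 k253 13 (.q k69 [(.s k101 k117 3 (.s k33 k237 9 (.s k49 k17 3 (.d k205 k137 k153 9 13)))),
  (.s k3 k2 0 (.s k86 k252 14 (.s k101 k117 3 (.s k71 k116 4 (.d k207 k138 k139 10 9))))), (.s k3 k2
  0 (.s k137 k205 9 (.s k70 k204 10 (.s k71 k68 0 (.d k207 k138 k139 10 9)))))] (.c k138 (.q k186
  [(.s k101 k117 3 (.s k33 k237 9 (.s k49 k17 3 (.d k205 k137 k153 9 13)))), (.s k3 k2 0 (.s k86
  k252 14 (.s k137 k205 9 (.s k70 k204 10 (.s k68 k71 0 (.d k102 k118 k119 3 4)))))), (.s k3 k2 0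
  (.s k86 k252 14 (.s k87 k84 0 (.s k101 k117 3 (.s k71 k116 4 (.s k119 k103 3 (.d k68 k70 k102 0
  4)))))))] .n) (.c k186 (.l (.s k138 k207 10 (.s k3 k2 0 (.s k137 k205 9 (.s k136 k139 0 (.d k204
  k68 k70 9 10)))))) .n))))

def s170_171_155 : T TT 256 :=
  (.f k1 k253 13 (.q k139 [(.s k3 k2 0 (.s k154 k184 4 (.s k207 k71 9 (.s k69 k138 10 (.d k101 k117
  k48 3 14))))), (.s k154 k184 4 (.s k16 k223 10 (.s k48 k32 3 (.s k101 k207 14 (.s k33 k237 9 (.s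
  k17 k49 3 (.d k18 k19 k3 0 4))))))), (.s k3 k2 0 (.s k207 k71 9 (.s k69 k138 10 (.s k101 k117 3
  (.s k237 k33 9 (.d k252 k86 k222 14 4)))))), (.s k3 k2 0 (.s k86 k252 14 (.s k154 k184 4 (.s k16
  k223 10 (.s k18 k222 9 (.d k48 k32 k33 3 4))))))] (.c k3 (.f k154 k184 4 (.l (.s k16 k223 10 (.s
  k48 k32 3 (.s k101 k207 14 (.s k33 k237 9 (.s k49 k17 3 (.s k69 k117 3 (.d k205 k137 k153 9
  13))))))))) (.c k154 (.l (.s k3 k2 0 (.s k71 k207 9 (.s k86 k252 14 (.s k101 k116 4 (.s k69 k117 3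
  (.s k70 k68 0 (.d k137 k205 k204 9 10)))))))) (.c k207 (.l (.s k3 k2 0 (.s k86 k252 14 (.s k154
  k184 4 (.s k16 k223 10 (.s k48 k32 3 (.d k18 k222 k33 9 4))))))) .n)))))

def s170_171_156 : T TT 256 :=
  (.q k5 [(.s k1 k253 13 (.s k13 k9 1 (.s k165 k245 11 (.s k161 k173 1 (.d k241 k81 k89 11 13))))),
  (.s k15 k10 2 (.s k165 k245 11 (.s k173 k161 1 (.s k252 k94 12 (.s k84 k168 13 (.d k86 k87 k3 0
  14)))))), (.s k1 k253 13 (.s k3 k2 0 (.s k15 k10 2 (.s k7 k11 1 (.s k6 k4 0 (.d k9 k13 k12 1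
  2))))))] .n)

def s170_171_157 : T TT 256 :=
  (.q k5 [(.s k1 k253 13 (.s k13 k9 1 (.s k165 k245 11 (.s k161 k173 1 (.d k241 k81 k89 11 13))))),
  (.s k15 k10 2 (.s k165 k245 11 (.s k173 k161 1 (.s k252 k94 12 (.s k84 k168 13 (.d k86 k87 k3 0
  14)))))), (.s k1 k253 13 (.s k3 k2 0 (.s k15 k10 2 (.s k7 k11 1 (.s k6 k4 0 (.d k9 k13 k12 1
  2))))))] .n)

def s170_171_158 : T TT 256 :=
  (.q k5 [(.s k1 k253 13 (.s k13 k9 1 (.s k165 k245 11 (.s k161 k173 1 (.d k241 k81 k89 11 13))))),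
  (.s k15 k10 2 (.s k165 k245 11 (.s k173 k161 1 (.s k252 k94 12 (.s k84 k168 13 (.d k86 k87 k3 0
  14)))))), (.s k1 k253 13 (.s k3 k2 0 (.s k15 k10 2 (.s k7 k11 1 (.s k6 k4 0 (.d k9 k13 k12 1
  2))))))] .n)

def s170_171_159 : T TT 256 :=
  (.q k5 [(.s k1 k253 13 (.s k13 k9 1 (.s k165 k245 11 (.s k161 k173 1 (.d k241 k81 k89 11 13))))),
  (.s k15 k10 2 (.s k165 k245 11 (.s k173 k161 1 (.s k252 k94 12 (.s k84 k168 13 (.d k86 k87 k3 0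
  14)))))), (.s k1 k253 13 (.s k3 k2 0 (.s k15 k10 2 (.s k7 k11 1 (.s k6 k4 0 (.d k9 k13 k12 1
  2))))))] .n)

def s170_171_160 : T TT 256 :=
  (.q k165 [(.s k1 k253 13 (.s k5 k245 11 (.s k13 k9 1 (.s k161 k173 1 (.d k241 k81 k89 11 13))))),
  (.s k5 k245 11 (.s k15 k10 2 (.s k173 k161 1 (.s k252 k94 12 (.s k84 k168 13 (.d k86 k87 k3 0
  14)))))), (.s k1 k253 13 (.s k3 k2 0 (.s k86 k252 14 (.s k7 k244 12 (.s k15 k11 1 (.s k161 k173 1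
  (.d k240 k82 k90 12 14))))))), (.s k1 k253 13 (.s k3 k2 0 (.s k5 k245 11 (.s k15 k10 2 (.s k7 k11
  1 (.d k86 k244 k252 12 14))))))] .n)

def s170_171_161 : T TT 256 :=
  (.q k17 [(.s k1 k253 13 (.s k153 k221 9 (.s k137 k185 3 (.s k205 k69 9 (.d k49 k33 k101 3 13))))),
  (.s k51 k34 4 (.s k153 k221 9 (.s k185 k137 3 (.s k252 k118 10 (.s k84 k168 13 (.d k86 k87 k3 0
  14)))))), (.s k1 k253 13 (.s k3 k2 0 (.s k51 k34 4 (.s k19 k35 3 (.s k18 k16 0 (.d k33 k49 k48 3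
  4))))))] .n)

def s170_171_162 : T TT 256 :=
  (.f k1 k253 13 (.q k166 [(.s k3 k2 0 (.s k4 k247 12 (.s k12 k8 1 (.s k163 k172 2 (.d k243 k89 k83
  14 11))))), (.s k4 k247 12 (.s k12 k8 1 (.s k89 k243 14 (.s k9 k249 11 (.s k13 k5 1 (.s k81 k93 1
  (.d k241 k161 k165 11 13))))))), (.s k3 k2 0 (.s k86 k252 14 (.s k6 k246 11 (.s k12 k9 2 (.s k163
  k172 2 (.d k243 k83 k89 11 14)))))), (.s k3 k2 0 (.s k4 k247 12 (.s k86 k252 14 (.s k6 k246 11 (.s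
  k7 k5 0 (.s k84 k87 0 (.d k244 k164 k165 11 12)))))))] (.c k243 (.l (.s k3 k2 0 (.s k4 k247 12 (.s
  k12 k8 1 (.s k6 k9 2 (.d k86 k246 k252 11 14)))))) .n)))

def s170_171_163 : T TT 256 :=
  (.f k1 k253 13 (.q k105 [(.s k41 k233 7 (.s k61 k21 5 (.s k65 k125 5 (.d k193 k129 k149 7 13)))),
  (.s k3 k2 0 (.s k65 k125 5 (.s k86 k252 14 (.s k67 k124 6 (.d k195 k131 k130 7 8))))), (.s k3 k2 0
  (.s k41 k233 7 (.s k60 k22 6 (.s k20 k40 5 (.d k150 k215 k195 8 14)))))] (.c k167 (.q k175 [(.s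
  k41 k233 7 (.s k61 k21 5 (.s k65 k125 5 (.d k193 k129 k149 7 13)))), (.s k3 k2 0 (.s k65 k125 5
  (.s k86 k252 14 (.s k67 k124 6 (.d k195 k131 k130 7 8))))), (.s k3 k2 0 (.s k41 k233 7 (.s k60 k22
  6 (.s k20 k40 5 (.d k150 k215 k195 8 14)))))] .n) (.c k175 (.q k167 [(.s k41 k233 7 (.s k61 k21 5
  (.s k65 k125 5 (.d k193 k129 k149 7 13)))), (.s k3 k2 0 (.s k65 k125 5 (.s k86 k252 14 (.s k67
  k124 6 (.d k195 k131 k130 7 8))))), (.s k3 k2 0 (.s k41 k233 7 (.s k60 k22 6 (.s k20 k40 5 (.d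
  k150 k215 k195 8 14)))))] (.c k160 (.q k165 [(.s k5 k245 11 (.s k13 k9 1 (.s k161 k173 1 (.d k241
  k81 k89 11 13)))), (.s k3 k2 0 (.s k86 k252 14 (.s k7 k244 12 (.d k87 k84 k247 0 11))))] (.c k161
  (.q k162 [(.s k5 k245 11 (.s k243 k81 12 (.d k15 k10 k91 2 13))), (.s k3 k2 0 (.s k86 k252 14 (.s
  k7 k244 12 (.d k87 k84 k247 0 11))))] .n) (.c k162 (.l (.s k161 k173 1 (.s k5 k245 11 (.s k13 k9 1
  (.d k241 k81 k89 11 13))))) .n))) (.c k165 (.q k160 [(.s k41 k233 7 (.s k61 k21 5 (.s k65 k125 5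
  (.d k193 k129 k149 7 13)))), (.s k3 k2 0 (.s k65 k125 5 (.s k86 k252 14 (.s k67 k124 6 (.d k195
  k131 k130 7 8))))), (.s k3 k2 0 (.s k41 k233 7 (.s k60 k22 6 (.s k20 k40 5 (.d k150 k215 k195 8
  14)))))] .n) .n))) .n))))

def s170_171_164 : T TT 256 :=
  (.q k5 [(.s k1 k253 13 (.s k13 k9 1 (.s k165 k245 11 (.s k161 k173 1 (.d k241 k81 k89 11 13))))),
  (.s k15 k10 2 (.s k165 k245 11 (.s k173 k161 1 (.s k252 k94 12 (.s k84 k168 13 (.d k86 k87 k3 0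
  14)))))), (.s k1 k253 13 (.s k3 k2 0 (.s k15 k10 2 (.s k7 k11 1 (.s k6 k4 0 (.d k9 k13 k12 1
  2))))))] .n)

def s170_171_165 : T TT 256 :=
  (.f k1 k253 13 (.q k105 [(.s k41 k233 7 (.s k61 k21 5 (.s k65 k125 5 (.d k193 k129 k149 7 13)))),
  (.s k3 k2 0 (.s k65 k125 5 (.s k86 k252 14 (.s k67 k124 6 (.d k195 k131 k130 7 8))))), (.s k3 k2 0
  (.s k41 k233 7 (.s k60 k22 6 (.s k20 k40 5 (.d k150 k215 k195 8 14)))))] (.c k160 (.q k175 [(.s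
  k41 k233 7 (.s k61 k21 5 (.s k65 k125 5 (.d k193 k129 k149 7 13)))), (.s k3 k2 0 (.s k65 k125 5
  (.s k86 k252 14 (.s k67 k124 6 (.d k195 k131 k130 7 8))))), (.s k3 k2 0 (.s k41 k233 7 (.s k60 k22
  6 (.s k20 k40 5 (.d k150 k215 k195 8 14)))))] .n) (.c k175 (.q k160 [(.s k41 k233 7 (.s k61 k21 5
  (.s k65 k125 5 (.d k193 k129 k149 7 13)))), (.s k3 k2 0 (.s k65 k125 5 (.s k86 k252 14 (.s k67
  k124 6 (.d k195 k131 k130 7 8))))), (.s k3 k2 0 (.s k41 k233 7 (.s k60 k22 6 (.s k20 k40 5 (.d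
  k150 k215 k195 8 14)))))] (.c k163 (.q k167 [(.s k41 k233 7 (.s k61 k21 5 (.s k65 k125 5 (.d k193
  k129 k149 7 13)))), (.s k3 k2 0 (.s k65 k125 5 (.s k86 k252 14 (.s k67 k124 6 (.d k195 k131 k130 7
  8))))), (.s k3 k2 0 (.s k41 k233 7 (.s k60 k22 6 (.s k20 k40 5 (.d k150 k215 k195 8 14)))))] .n)
  (.c k167 (.q k163 [(.s k161 k162 0 (.s k240 k80 11 (.d k3 k2 k82 0 12))), (.s k41 k233 7 (.s k61
  k21 5 (.s k65 k125 5 (.d k193 k129 k149 7 13))))] (.c k164 (.l (.s k166 k172 2 (.s k3 k2 0 (.s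
  k161 k162 0 (.d k240 k82 k80 12 11))))) (.c k166 (.q k164 [(.s k162 k161 0 (.s k243 k81 12 (.d k3
  k2 k83 0 11))), (.s k41 k233 7 (.s k61 k21 5 (.s k65 k125 5 (.d k193 k129 k149 7 13))))] (.c k162
  (.q k174 [(.s k168 k172 1 (.s k252 k84 13 (.d k3 k2 k86 0 14))), (.s k41 k233 7 (.s k61 k21 5 (.s
  k65 k125 5 (.d k193 k129 k149 7 13))))] .n) (.c k174 (.l (.s k162 k161 0 (.s k3 k2 0 (.d k243 k83
  k81 11 12)))) .n))) .n))) .n))) .n))))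

def s170_171_166 : T TT 256 :=
  (.f k1 k253 13 (.q k81 [(.s k89 k93 1 (.s k9 k249 11 (.s k13 k5 1 (.d k241 k161 k165 11 13)))),
  (.s k3 k2 0 (.s k86 k252 14 (.s k89 k93 1 (.s k83 k92 2 (.d k243 k162 k163 12 11))))), (.s k3 k2 0
  (.s k161 k241 11 (.s k82 k240 12 (.s k83 k80 0 (.d k243 k162 k163 12 11)))))] (.c k162 (.q k174
  [(.s k89 k93 1 (.s k9 k249 11 (.s k13 k5 1 (.d k241 k161 k165 11 13)))), (.s k3 k2 0 (.s k86 k252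
  14 (.s k161 k241 11 (.s k82 k240 12 (.s k80 k83 0 (.d k90 k94 k95 1 2)))))), (.s k3 k2 0 (.s k86
  k252 14 (.s k87 k84 0 (.s k89 k93 1 (.s k83 k92 2 (.s k95 k91 1 (.d k80 k82 k90 0 2)))))))] .n)
  (.c k174 (.l (.s k162 k243 12 (.s k3 k2 0 (.s k161 k241 11 (.s k160 k163 0 (.d k240 k80 k82 11
  12)))))) .n))))

def s170_171_167 : T TT 256 :=
  (.f k1 k253 13 (.q k163 [(.s k3 k2 0 (.s k166 k172 2 (.s k243 k83 11 (.s k81 k162 12 (.d k89 k93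
  k12 1 14))))), (.s k166 k172 2 (.s k4 k247 12 (.s k12 k8 1 (.s k89 k243 14 (.s k9 k249 11 (.s k5
  k13 1 (.d k6 k7 k3 0 2))))))), (.s k3 k2 0 (.s k243 k83 11 (.s k81 k162 12 (.s k89 k93 1 (.s k249
  k9 11 (.d k252 k86 k246 14 2)))))), (.s k3 k2 0 (.s k86 k252 14 (.s k166 k172 2 (.s k4 k247 12 (.s
  k6 k246 11 (.d k12 k8 k9 1 2))))))] (.c k3 (.f k166 k172 2 (.l (.s k4 k247 12 (.s k12 k8 1 (.s k89
  k243 14 (.s k9 k249 11 (.s k13 k5 1 (.s k81 k93 1 (.d k241 k161 k165 11 13))))))))) (.c k166 (.l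
  (.s k3 k2 0 (.s k83 k243 11 (.s k86 k252 14 (.s k89 k92 2 (.s k81 k93 1 (.s k82 k80 0 (.d k161
  k241 k240 11 12)))))))) (.c k243 (.l (.s k3 k2 0 (.s k86 k252 14 (.s k166 k172 2 (.s k4 k247 12
  (.s k12 k8 1 (.d k6 k246 k9 11 2))))))) .n)))))

def s170_171_168 : T TT 256 :=
  (.q k5 [(.s k1 k253 13 (.s k13 k9 1 (.s k165 k245 11 (.s k161 k173 1 (.d k241 k81 k89 11 13))))),
  (.s k15 k10 2 (.s k165 k245 11 (.s k90 k240 14 (.s k11 k248 12 (.s k3 k7 1 (.s k173 k161 1 (.d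
  k252 k94 k86 12 14))))))), (.s k1 k253 13 (.s k3 k2 0 (.s k15 k10 2 (.s k7 k11 1 (.s k6 k4 0 (.d
  k9 k13 k12 1 2))))))] .n)

def s170_171_172 : T TT 256 :=
  (.q k5 [(.s k1 k253 13 (.s k13 k9 1 (.s k165 k245 11 (.s k161 k173 1 (.d k241 k81 k89 11 13))))),
  (.s k15 k10 2 (.s k165 k245 11 (.s k173 k161 1 (.s k252 k94 12 (.s k84 k168 13 (.d k86 k87 k3 0
  14)))))), (.s k1 k253 13 (.s k3 k2 0 (.s k15 k10 2 (.s k7 k11 1 (.s k6 k4 0 (.d k9 k13 k12 1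
  2))))))] .n)

def s170_171_173 : T TT 256 :=
  (.q k17 [(.s k1 k253 13 (.s k49 k33 3 (.s k153 k221 9 (.s k137 k185 3 (.d k205 k69 k101 9 13))))),
  (.s k51 k34 4 (.s k153 k221 9 (.s k185 k137 3 (.s k252 k118 10 (.s k84 k168 13 (.d k86 k87 k3 0
  14)))))), (.s k1 k253 13 (.s k3 k2 0 (.s k51 k34 4 (.s k19 k35 3 (.s k18 k16 0 (.d k33 k49 k48 3
  4))))))] .n)

def s170_171_174 : T TT 256 :=
  (.f k1 k253 13 (.q k166 [(.s k3 k2 0 (.s k4 k247 12 (.s k12 k8 1 (.s k86 k252 14 (.d k6 k9 k246 2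
  11))))), (.s k3 k2 0 (.s k163 k172 2 (.s k243 k83 11 (.s k81 k162 12 (.d k89 k93 k12 1 14))))),
  (.s k4 k247 12 (.s k12 k8 1 (.s k89 k243 14 (.s k9 k249 11 (.s k13 k5 1 (.s k81 k93 1 (.d k241
  k161 k165 11 13))))))), (.s k3 k2 0 (.s k4 k247 12 (.s k86 k252 14 (.s k6 k246 11 (.s k7 k5 0 (.s
  k84 k87 0 (.d k244 k164 k165 11 12)))))))] .n))

def s170_171_175 : T TT 256 :=
  (.f k1 k253 13 (.q k165 [(.s k5 k245 11 (.s k13 k9 1 (.s k161 k173 1 (.d k241 k81 k89 11 13)))),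
  (.s k3 k2 0 (.s k86 k252 14 (.s k7 k244 12 (.s k15 k11 1 (.d k5 k10 k245 2 11))))), (.s k3 k2 0
  (.s k161 k173 1 (.s k240 k82 12 (.s k80 k160 11 (.d k90 k95 k15 2 14)))))] (.c k163 (.q k167 [(.s
  k3 k2 0 (.s k86 k252 14 (.s k87 k84 0 (.d k7 k247 k244 11 12)))), (.s k5 k245 11 (.s k13 k9 1 (.s
  k161 k173 1 (.d k241 k81 k89 11 13))))] .n) (.c k167 (.q k163 [(.s k161 k173 1 (.s k162 k160 0 (.d
  k81 k241 k243 11 12))), (.s k3 k2 0 (.s k5 k245 11 (.s k15 k10 2 (.s k7 k11 1 (.d k86 k244 k252 12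
  14)))))] (.c k241 (.l (.s k3 k2 0 (.s k161 k173 1 (.s k160 k162 0 (.d k240 k82 k80 12 11))))) .n))
  .n))))

def s170_171_176 : T TT 256 :=
  (.q k5 [(.s k1 k253 13 (.s k13 k9 1 (.s k165 k245 11 (.s k161 k173 1 (.d k241 k81 k89 11 13))))),
  (.s k15 k10 2 (.s k165 k245 11 (.s k173 k161 1 (.s k252 k94 12 (.s k84 k168 13 (.d k86 k87 k3 0
  14)))))), (.s k1 k253 13 (.s k3 k2 0 (.s k15 k10 2 (.s k7 k11 1 (.s k6 k4 0 (.d k9 k13 k12 1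
  2))))))] .n)

def s170_171_177 : T TT 256 :=
  (.q k5 [(.s k1 k253 13 (.s k13 k9 1 (.s k165 k245 11 (.s k161 k173 1 (.d k241 k81 k89 11 13))))),
  (.s k15 k10 2 (.s k165 k245 11 (.s k173 k161 1 (.s k252 k94 12 (.s k84 k168 13 (.d k86 k87 k3 0
  14)))))), (.s k1 k253 13 (.s k3 k2 0 (.s k15 k10 2 (.s k7 k11 1 (.s k6 k4 0 (.d k9 k13 k12 1
  2))))))] .n)

def s170_171_178 : T TT 256 :=
  (.q k5 [(.s k1 k253 13 (.s k13 k9 1 (.s k165 k245 11 (.s k161 k173 1 (.d k241 k81 k89 11 13))))),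
  (.s k15 k10 2 (.s k165 k245 11 (.s k173 k161 1 (.s k252 k94 12 (.s k84 k168 13 (.d k86 k87 k3 0
  14)))))), (.s k1 k253 13 (.s k3 k2 0 (.s k15 k10 2 (.s k7 k11 1 (.s k6 k4 0 (.d k9 k13 k12 1
  2))))))] .n)

def s170_171_179 : T TT 256 :=
  (.q k5 [(.s k1 k253 13 (.s k13 k9 1 (.s k165 k245 11 (.s k161 k173 1 (.d k241 k81 k89 11 13))))),
  (.s k15 k10 2 (.s k165 k245 11 (.s k173 k161 1 (.s k252 k94 12 (.s k84 k168 13 (.d k86 k87 k3 0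
  14)))))), (.s k1 k253 13 (.s k3 k2 0 (.s k15 k10 2 (.s k7 k11 1 (.s k6 k4 0 (.d k9 k13 k12 1
  2))))))] .n)

def s170_171_180 : T TT 256 :=
  (.q k5 [(.s k1 k253 13 (.s k13 k9 1 (.s k165 k245 11 (.s k161 k173 1 (.d k241 k81 k89 11 13))))),
  (.s k15 k10 2 (.s k165 k245 11 (.s k173 k161 1 (.s k252 k94 12 (.s k84 k168 13 (.d k86 k87 k3 0
  14)))))), (.s k1 k253 13 (.s k3 k2 0 (.s k15 k10 2 (.s k7 k11 1 (.s k6 k4 0 (.d k9 k13 k12 1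
  2))))))] .n)

def s170_171_181 : T TT 256 :=
  (.q k5 [(.s k1 k253 13 (.s k13 k9 1 (.s k165 k245 11 (.s k161 k173 1 (.d k241 k81 k89 11 13))))),
  (.s k1 k253 13 (.s k3 k2 0 (.s k15 k10 2 (.s k11 k7 1 (.s k90 k248 12 (.d k165 k245 k240 11
  14)))))), (.s k15 k10 2 (.s k165 k245 11 (.s k173 k161 1 (.s k252 k94 12 (.s k84 k168 13 (.d k86
  k87 k3 0 14)))))), (.s k1 k253 13 (.s k3 k2 0 (.s k9 k13 1 (.s k6 k12 2 (.s k7 k4 0 (.d k15 k11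
  k10 1 2))))))] .n)

def s170_171_182 : T TT 256 :=
  (.q k5 [(.s k1 k253 13 (.s k13 k9 1 (.s k165 k245 11 (.s k161 k173 1 (.d k241 k81 k89 11 13))))),
  (.s k15 k10 2 (.s k165 k245 11 (.s k173 k161 1 (.s k252 k94 12 (.s k84 k168 13 (.d k86 k87 k3 0
  14)))))), (.s k1 k253 13 (.s k3 k2 0 (.s k15 k10 2 (.s k7 k11 1 (.s k6 k4 0 (.d k9 k13 k12 1
  2))))))] .n)

def s170_171_183 : T TT 256 :=
  (.q k5 [(.s k1 k253 13 (.s k13 k9 1 (.s k165 k245 11 (.s k161 k173 1 (.d k241 k81 k89 11 13))))),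
  (.s k15 k10 2 (.s k165 k245 11 (.s k173 k161 1 (.s k252 k94 12 (.s k84 k168 13 (.d k86 k87 k3 0
  14)))))), (.s k1 k253 13 (.s k3 k2 0 (.s k15 k10 2 (.s k7 k11 1 (.s k6 k4 0 (.d k9 k13 k12 1
  2))))))] .n)

def s170_171_184 : T TT 256 :=
  (.q k5 [(.s k1 k253 13 (.s k13 k9 1 (.s k165 k245 11 (.s k161 k173 1 (.d k241 k81 k89 11 13))))),
  (.s k15 k10 2 (.s k165 k245 11 (.s k173 k161 1 (.s k252 k94 12 (.s k84 k168 13 (.d k86 k87 k3 0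
  14)))))), (.s k1 k253 13 (.s k3 k2 0 (.s k15 k10 2 (.s k7 k11 1 (.s k6 k4 0 (.d k9 k13 k12 1
  2))))))] .n)

def s170_171_185 : T TT 256 :=
  (.q k5 [(.s k1 k253 13 (.s k13 k9 1 (.s k165 k245 11 (.s k161 k173 1 (.d k241 k81 k89 11 13))))),
  (.s k15 k10 2 (.s k165 k245 11 (.s k173 k161 1 (.s k252 k94 12 (.s k84 k168 13 (.d k86 k87 k3 0
  14)))))), (.s k1 k253 13 (.s k3 k2 0 (.s k15 k10 2 (.s k7 k11 1 (.s k6 k4 0 (.d k9 k13 k12 1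
  2))))))] .n)

def s170_171_186 : T TT 256 :=
  (.f k1 k253 13 (.q k154 [(.s k3 k2 0 (.s k16 k223 10 (.s k48 k32 3 (.s k86 k252 14 (.d k18 k33
  k222 4 9))))), (.s k3 k2 0 (.s k139 k184 4 (.s k207 k71 9 (.s k69 k138 10 (.d k101 k117 k48 3
  14))))), (.s k16 k223 10 (.s k48 k32 3 (.s k101 k207 14 (.s k33 k237 9 (.s k49 k17 3 (.s k69 k117
  3 (.d k205 k137 k153 9 13))))))), (.s k3 k2 0 (.s k16 k223 10 (.s k86 k252 14 (.s k18 k222 9 (.s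
  k19 k17 0 (.s k84 k87 0 (.d k220 k152 k153 9 10)))))))] .n))

def s170_171_187 : T TT 256 :=
  (.f k1 k253 13 (.q k153 [(.s k17 k221 9 (.s k49 k33 3 (.s k137 k185 3 (.d k205 k69 k101 9 13)))),
  (.s k3 k2 0 (.s k86 k252 14 (.s k19 k220 10 (.s k51 k35 3 (.d k17 k34 k221 4 9))))), (.s k3 k2 0
  (.s k137 k185 3 (.s k204 k70 10 (.s k68 k136 9 (.d k102 k119 k51 4 14)))))] (.c k139 (.q k155 [(.s
  k3 k2 0 (.s k86 k252 14 (.s k87 k84 0 (.d k19 k223 k220 9 10)))), (.s k17 k221 9 (.s k49 k33 3 (.s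
  k137 k185 3 (.d k205 k69 k101 9 13))))] .n) (.c k155 (.q k139 [(.s k137 k185 3 (.s k138 k136 0 (.d
  k69 k205 k207 9 10))), (.s k3 k2 0 (.s k17 k221 9 (.s k51 k34 4 (.s k19 k35 3 (.d k86 k220 k252 10
  14)))))] (.c k205 (.l (.s k3 k2 0 (.s k137 k185 3 (.s k136 k138 0 (.d k204 k70 k68 10 9))))) .n))
  .n))))

def s170_171_188 : T TT 256 :=
  (.q k5 [(.s k1 k253 13 (.s k13 k9 1 (.s k165 k245 11 (.s k161 k173 1 (.d k241 k81 k89 11 13))))),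
  (.s k15 k10 2 (.s k165 k245 11 (.s k173 k161 1 (.s k252 k94 12 (.s k84 k168 13 (.d k86 k87 k3 0
  14)))))), (.s k1 k253 13 (.s k3 k2 0 (.s k15 k10 2 (.s k7 k11 1 (.s k6 k4 0 (.d k9 k13 k12 1
  2))))))] .n)

def s170_171_189 : T TT 256 :=
  (.q k5 [(.s k15 k10 2 (.s k165 k245 11 (.s k173 k161 1 (.s k252 k94 12 (.s k84 k168 13 (.d k86 k87
  k3 0 14)))))), (.s k1 k253 13 (.s k13 k9 1 (.s k165 k245 11 (.s k161 k173 1 (.d k241 k81 k89 11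
  13))))), (.s k1 k253 13 (.s k3 k2 0 (.s k15 k10 2 (.s k7 k11 1 (.s k6 k4 0 (.d k9 k13 k12 1
  2))))))] .n)

def s170_171_190 : T TT 256 :=
  (.f k1 k253 13 (.q k150 [(.s k3 k2 0 (.s k20 k215 8 (.s k60 k40 5 (.s k86 k252 14 (.d k22 k41 k214
  6 7))))), (.s k3 k2 0 (.s k131 k188 6 (.s k195 k67 7 (.s k65 k130 8 (.d k105 k125 k60 5 14))))),
  (.s k20 k215 8 (.s k60 k40 5 (.s k105 k195 14 (.s k41 k233 7 (.s k61 k21 5 (.s k65 k125 5 (.d k193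
  k129 k149 7 13))))))), (.s k3 k2 0 (.s k20 k215 8 (.s k86 k252 14 (.s k22 k214 7 (.s k23 k21 0 (.s
  k84 k87 0 (.d k212 k148 k149 7 8)))))))] .n))

def s170_171_191 : T TT 256 :=
  (.f k1 k253 13 (.q k149 [(.s k21 k213 7 (.s k61 k41 5 (.s k129 k189 5 (.d k193 k65 k105 7 13)))),
  (.s k3 k2 0 (.s k86 k252 14 (.s k23 k212 8 (.s k63 k43 5 (.d k21 k42 k213 6 7))))), (.s k3 k2 0
  (.s k129 k189 5 (.s k192 k66 8 (.s k64 k128 7 (.d k106 k127 k63 6 14)))))] (.c k131 (.q k151 [(.s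
  k3 k2 0 (.s k86 k252 14 (.s k87 k84 0 (.d k23 k215 k212 7 8)))), (.s k21 k213 7 (.s k61 k41 5 (.s
  k129 k189 5 (.d k193 k65 k105 7 13))))] .n) (.c k151 (.q k131 [(.s k129 k189 5 (.s k130 k128 0 (.d
  k65 k193 k195 7 8))), (.s k3 k2 0 (.s k21 k213 7 (.s k63 k42 6 (.s k23 k43 5 (.d k86 k212 k252 8
  14)))))] (.c k193 (.l (.s k3 k2 0 (.s k129 k189 5 (.s k128 k130 0 (.d k192 k66 k64 8 7))))) .n))
  .n))))

def s170_171_192 : T TT 256 :=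
  (.q k5 [(.s k1 k253 13 (.s k13 k9 1 (.s k165 k245 11 (.s k161 k173 1 (.d k241 k81 k89 11 13))))),
  (.s k15 k10 2 (.s k165 k245 11 (.s k173 k161 1 (.s k252 k94 12 (.s k84 k168 13 (.d k86 k87 k3 0
  14)))))), (.s k1 k253 13 (.s k3 k2 0 (.s k15 k10 2 (.s k7 k11 1 (.s k6 k4 0 (.d k9 k13 k12 1
  2))))))] .n)

def s170_171_193 : T TT 256 :=
  (.q k5 [(.s k1 k253 13 (.s k13 k9 1 (.s k165 k245 11 (.s k161 k173 1 (.d k241 k81 k89 11 13))))),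
  (.s k15 k10 2 (.s k165 k245 11 (.s k173 k161 1 (.s k252 k94 12 (.s k84 k168 13 (.d k86 k87 k3 0
  14)))))), (.s k1 k253 13 (.s k3 k2 0 (.s k15 k10 2 (.s k7 k11 1 (.s k6 k4 0 (.d k9 k13 k12 1
  2))))))] .n)

def s170_171_194 : T TT 256 :=
  (.q k5 [(.s k1 k253 13 (.s k13 k9 1 (.s k165 k245 11 (.s k161 k173 1 (.d k241 k81 k89 11 13))))),
  (.s k15 k10 2 (.s k165 k245 11 (.s k173 k161 1 (.s k252 k94 12 (.s k84 k168 13 (.d k86 k87 k3 0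
  14)))))), (.s k1 k253 13 (.s k3 k2 0 (.s k15 k10 2 (.s k7 k11 1 (.s k6 k4 0 (.d k9 k13 k12 1
  2))))))] .n)

def s170_171_195 : T TT 256 :=
  (.q k5 [(.s k1 k253 13 (.s k13 k9 1 (.s k165 k245 11 (.s k161 k173 1 (.d k241 k81 k89 11 13))))),
  (.s k15 k10 2 (.s k165 k245 11 (.s k173 k161 1 (.s k252 k94 12 (.s k84 k168 13 (.d k86 k87 k3 0
  14)))))), (.s k1 k253 13 (.s k3 k2 0 (.s k15 k10 2 (.s k7 k11 1 (.s k6 k4 0 (.d k9 k13 k12 1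
  2))))))] .n)

def s170_171_196 : T TT 256 :=
  (.q k5 [(.s k1 k253 13 (.s k13 k9 1 (.s k165 k245 11 (.s k161 k173 1 (.d k241 k81 k89 11 13))))),
  (.s k15 k10 2 (.s k165 k245 11 (.s k173 k161 1 (.s k252 k94 12 (.s k84 k168 13 (.d k86 k87 k3 0
  14)))))), (.s k1 k253 13 (.s k3 k2 0 (.s k15 k10 2 (.s k7 k11 1 (.s k6 k4 0 (.d k9 k13 k12 1
  2))))))] .n)

def s170_171_197 : T TT 256 :=
  (.q k5 [(.s k1 k253 13 (.s k13 k9 1 (.s k165 k245 11 (.s k161 k173 1 (.d k241 k81 k89 11 13))))),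
  (.s k1 k253 13 (.s k3 k2 0 (.s k15 k10 2 (.s k11 k7 1 (.s k90 k248 12 (.d k165 k245 k240 11
  14)))))), (.s k15 k10 2 (.s k165 k245 11 (.s k173 k161 1 (.s k252 k94 12 (.s k84 k168 13 (.d k86
  k87 k3 0 14)))))), (.s k1 k253 13 (.s k3 k2 0 (.s k9 k13 1 (.s k6 k12 2 (.s k7 k4 0 (.d k15 k11
  k10 1 2))))))] .n)

def s170_171_198 : T TT 256 :=
  (.q k5 [(.s k1 k253 13 (.s k13 k9 1 (.s k165 k245 11 (.s k161 k173 1 (.d k241 k81 k89 11 13))))),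
  (.s k15 k10 2 (.s k165 k245 11 (.s k173 k161 1 (.s k252 k94 12 (.s k84 k168 13 (.d k86 k87 k3 0
  14)))))), (.s k1 k253 13 (.s k3 k2 0 (.s k15 k10 2 (.s k7 k11 1 (.s k6 k4 0 (.d k9 k13 k12 1
  2))))))] .n)

def s170_171_199 : T TT 256 :=
  (.q k5 [(.s k1 k253 13 (.s k13 k9 1 (.s k165 k245 11 (.s k161 k173 1 (.d k241 k81 k89 11 13))))),
  (.s k15 k10 2 (.s k165 k245 11 (.s k173 k161 1 (.s k252 k94 12 (.s k84 k168 13 (.d k86 k87 k3 0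
  14)))))), (.s k1 k253 13 (.s k3 k2 0 (.s k15 k10 2 (.s k7 k11 1 (.s k6 k4 0 (.d k9 k13 k12 1
  2))))))] .n)

def s170_171_200 : T TT 256 :=
  (.q k5 [(.s k1 k253 13 (.s k13 k9 1 (.s k165 k245 11 (.s k161 k173 1 (.d k241 k81 k89 11 13))))),
  (.s k15 k10 2 (.s k165 k245 11 (.s k173 k161 1 (.s k252 k94 12 (.s k84 k168 13 (.d k86 k87 k3 0
  14)))))), (.s k1 k253 13 (.s k3 k2 0 (.s k15 k10 2 (.s k7 k11 1 (.s k6 k4 0 (.d k9 k13 k12 1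
  2))))))] .n)

def s170_171_201 : T TT 256 :=
  (.q k5 [(.s k1 k253 13 (.s k165 k245 11 (.s k161 k173 1 (.s k241 k81 11 (.d k13 k9 k89 1 13))))),
  (.s k15 k10 2 (.s k165 k245 11 (.s k173 k161 1 (.s k252 k94 12 (.s k84 k168 13 (.d k86 k87 k3 0
  14)))))), (.s k1 k253 13 (.s k3 k2 0 (.s k15 k10 2 (.s k7 k11 1 (.s k6 k4 0 (.d k9 k13 k12 1
  2))))))] .n)

def s170_171_202 : T TT 256 :=
  (.q k5 [(.s k1 k253 13 (.s k13 k9 1 (.s k165 k245 11 (.s k161 k173 1 (.d k241 k81 k89 11 13))))),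
  (.s k15 k10 2 (.s k165 k245 11 (.s k173 k161 1 (.s k252 k94 12 (.s k84 k168 13 (.d k86 k87 k3 0
  14)))))), (.s k1 k253 13 (.s k3 k2 0 (.s k15 k10 2 (.s k7 k11 1 (.s k6 k4 0 (.d k9 k13 k12 1
  2))))))] .n)

def s170_171_203 : T TT 256 :=
  (.q k5 [(.s k1 k253 13 (.s k13 k9 1 (.s k165 k245 11 (.s k161 k173 1 (.d k241 k81 k89 11 13))))),
  (.s k15 k10 2 (.s k165 k245 11 (.s k173 k161 1 (.s k252 k94 12 (.s k84 k168 13 (.d k86 k87 k3 0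
  14)))))), (.s k1 k253 13 (.s k3 k2 0 (.s k15 k10 2 (.s k7 k11 1 (.s k6 k4 0 (.d k9 k13 k12 1
  2))))))] .n)

def s170_171_204 : T TT 256 :=
  (.q k5 [(.s k1 k253 13 (.s k13 k9 1 (.s k165 k245 11 (.s k161 k173 1 (.d k241 k81 k89 11 13))))),
  (.s k15 k10 2 (.s k165 k245 11 (.s k173 k161 1 (.s k252 k94 12 (.s k84 k168 13 (.d k86 k87 k3 0
  14)))))), (.s k1 k253 13 (.s k3 k2 0 (.s k15 k10 2 (.s k7 k11 1 (.s k6 k4 0 (.d k9 k13 k12 1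
  2))))))] .n)

def s170_171_205 : T TT 256 :=
  (.q k5 [(.s k1 k253 13 (.s k13 k9 1 (.s k165 k245 11 (.s k161 k173 1 (.d k241 k81 k89 11 13))))),
  (.s k15 k10 2 (.s k165 k245 11 (.s k173 k161 1 (.s k252 k94 12 (.s k84 k168 13 (.d k86 k87 k3 0
  14)))))), (.s k1 k253 13 (.s k3 k2 0 (.s k15 k10 2 (.s k7 k11 1 (.s k6 k4 0 (.d k9 k13 k12 1
  2))))))] .n)

def s170_171_206 : T TT 256 :=
  (.q k5 [(.s k1 k253 13 (.s k13 k9 1 (.s k165 k245 11 (.s k161 k173 1 (.d k241 k81 k89 11 13))))),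
  (.s k15 k10 2 (.s k165 k245 11 (.s k173 k161 1 (.s k252 k94 12 (.s k84 k168 13 (.d k86 k87 k3 0
  14)))))), (.s k1 k253 13 (.s k3 k2 0 (.s k15 k10 2 (.s k7 k11 1 (.s k6 k4 0 (.d k9 k13 k12 1
  2))))))] .n)

def s170_171_207 : T TT 256 :=
  (.q k5 [(.s k1 k253 13 (.s k13 k9 1 (.s k165 k245 11 (.s k161 k173 1 (.d k241 k81 k89 11 13))))),
  (.s k15 k10 2 (.s k165 k245 11 (.s k173 k161 1 (.s k252 k94 12 (.s k84 k168 13 (.d k86 k87 k3 0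
  14)))))), (.s k1 k253 13 (.s k3 k2 0 (.s k15 k10 2 (.s k7 k11 1 (.s k6 k4 0 (.d k9 k13 k12 1
  2))))))] .n)

def s170_171_208 : T TT 256 :=
  (.q k5 [(.s k1 k253 13 (.s k13 k9 1 (.s k165 k245 11 (.s k161 k173 1 (.d k241 k81 k89 11 13))))),
  (.s k15 k10 2 (.s k165 k245 11 (.s k173 k161 1 (.s k252 k94 12 (.s k84 k168 13 (.d k86 k87 k3 0
  14)))))), (.s k1 k253 13 (.s k3 k2 0 (.s k15 k10 2 (.s k7 k11 1 (.s k6 k4 0 (.d k9 k13 k12 1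
  2))))))] .n)

def s170_171_209 : T TT 256 :=
  (.q k5 [(.s k1 k253 13 (.s k13 k9 1 (.s k165 k245 11 (.s k161 k173 1 (.d k241 k81 k89 11 13))))),
  (.s k15 k10 2 (.s k165 k245 11 (.s k173 k161 1 (.s k252 k94 12 (.s k84 k168 13 (.d k86 k87 k3 0
  14)))))), (.s k1 k253 13 (.s k3 k2 0 (.s k15 k10 2 (.s k7 k11 1 (.s k6 k4 0 (.d k9 k13 k12 1
  2))))))] .n)

def s170_171_210 : T TT 256 :=
  (.q k5 [(.s k1 k253 13 (.s k13 k9 1 (.s k165 k245 11 (.s k161 k173 1 (.d k241 k81 k89 11 13))))),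
  (.s k15 k10 2 (.s k165 k245 11 (.s k173 k161 1 (.s k252 k94 12 (.s k84 k168 13 (.d k86 k87 k3 0
  14)))))), (.s k1 k253 13 (.s k3 k2 0 (.s k15 k10 2 (.s k7 k11 1 (.s k6 k4 0 (.d k9 k13 k12 1
  2))))))] .n)

def s170_171_211 : T TT 256 :=
  (.q k5 [(.s k1 k253 13 (.s k13 k9 1 (.s k165 k245 11 (.s k161 k173 1 (.d k241 k81 k89 11 13))))),
  (.s k15 k10 2 (.s k165 k245 11 (.s k173 k161 1 (.s k252 k94 12 (.s k84 k168 13 (.d k86 k87 k3 0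
  14)))))), (.s k1 k253 13 (.s k3 k2 0 (.s k15 k10 2 (.s k7 k11 1 (.s k6 k4 0 (.d k9 k13 k12 1
  2))))))] .n)

def s170_171_212 : T TT 256 :=
  (.q k5 [(.s k1 k253 13 (.s k13 k9 1 (.s k165 k245 11 (.s k161 k173 1 (.d k241 k81 k89 11 13))))),
  (.s k15 k10 2 (.s k165 k245 11 (.s k173 k161 1 (.s k252 k94 12 (.s k84 k168 13 (.d k86 k87 k3 0
  14)))))), (.s k1 k253 13 (.s k3 k2 0 (.s k15 k10 2 (.s k7 k11 1 (.s k6 k4 0 (.d k9 k13 k12 1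
  2))))))] .n)

def s170_171_213 : T TT 256 :=
  (.q k5 [(.s k1 k253 13 (.s k13 k9 1 (.s k165 k245 11 (.s k161 k173 1 (.d k241 k81 k89 11 13))))),
  (.s k15 k10 2 (.s k165 k245 11 (.s k173 k161 1 (.s k252 k94 12 (.s k84 k168 13 (.d k86 k87 k3 0
  14)))))), (.s k1 k253 13 (.s k3 k2 0 (.s k15 k10 2 (.s k7 k11 1 (.s k6 k4 0 (.d k9 k13 k12 1
  2))))))] .n)

def s170_171_214 : T TT 256 :=
  (.q k5 [(.s k1 k253 13 (.s k13 k9 1 (.s k165 k245 11 (.s k161 k173 1 (.d k241 k81 k89 11 13))))),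
  (.s k15 k10 2 (.s k165 k245 11 (.s k173 k161 1 (.s k252 k94 12 (.s k84 k168 13 (.d k86 k87 k3 0
  14)))))), (.s k1 k253 13 (.s k3 k2 0 (.s k15 k10 2 (.s k7 k11 1 (.s k6 k4 0 (.d k9 k13 k12 1
  2))))))] .n)

def s170_171_215 : T TT 256 :=
  (.q k5 [(.s k1 k253 13 (.s k13 k9 1 (.s k165 k245 11 (.s k161 k173 1 (.d k241 k81 k89 11 13))))),
  (.s k15 k10 2 (.s k165 k245 11 (.s k173 k161 1 (.s k252 k94 12 (.s k84 k168 13 (.d k86 k87 k3 0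
  14)))))), (.s k1 k253 13 (.s k3 k2 0 (.s k15 k10 2 (.s k7 k11 1 (.s k6 k4 0 (.d k9 k13 k12 1
  2))))))] .n)

def s170_171_216 : T TT 256 :=
  (.q k5 [(.s k1 k253 13 (.s k13 k9 1 (.s k165 k245 11 (.s k161 k173 1 (.d k241 k81 k89 11 13))))),
  (.s k15 k10 2 (.s k165 k245 11 (.s k173 k161 1 (.s k252 k94 12 (.s k84 k168 13 (.d k86 k87 k3 0
  14)))))), (.s k1 k253 13 (.s k3 k2 0 (.s k15 k10 2 (.s k7 k11 1 (.s k6 k4 0 (.d k9 k13 k12 1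
  2))))))] .n)

def s170_171_217 : T TT 256 :=
  (.q k5 [(.s k1 k253 13 (.s k13 k9 1 (.s k165 k245 11 (.s k161 k173 1 (.d k241 k81 k89 11 13))))),
  (.s k15 k10 2 (.s k165 k245 11 (.s k173 k161 1 (.s k252 k94 12 (.s k84 k168 13 (.d k86 k87 k3 0
  14)))))), (.s k1 k253 13 (.s k3 k2 0 (.s k15 k10 2 (.s k7 k11 1 (.s k6 k4 0 (.d k9 k13 k12 1
  2))))))] .n)

def s170_171_218 : T TT 256 :=
  (.q k5 [(.s k1 k253 13 (.s k13 k9 1 (.s k165 k245 11 (.s k161 k173 1 (.d k241 k81 k89 11 13))))),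
  (.s k15 k10 2 (.s k165 k245 11 (.s k173 k161 1 (.s k252 k94 12 (.s k84 k168 13 (.d k86 k87 k3 0
  14)))))), (.s k1 k253 13 (.s k3 k2 0 (.s k15 k10 2 (.s k7 k11 1 (.s k6 k4 0 (.d k9 k13 k12 1
  2))))))] .n)

def s170_171_219 : T TT 256 :=
  (.q k5 [(.s k1 k253 13 (.s k13 k9 1 (.s k165 k245 11 (.s k161 k173 1 (.d k241 k81 k89 11 13))))),
  (.s k15 k10 2 (.s k165 k245 11 (.s k173 k161 1 (.s k252 k94 12 (.s k84 k168 13 (.d k86 k87 k3 0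
  14)))))), (.s k1 k253 13 (.s k3 k2 0 (.s k15 k10 2 (.s k7 k11 1 (.s k6 k4 0 (.d k9 k13 k12 1
  2))))))] .n)

def s170_171_220 : T TT 256 :=
  (.q k5 [(.s k1 k253 13 (.s k13 k9 1 (.s k165 k245 11 (.s k161 k173 1 (.d k241 k81 k89 11 13))))),
  (.s k15 k10 2 (.s k165 k245 11 (.s k173 k161 1 (.s k252 k94 12 (.s k84 k168 13 (.d k86 k87 k3 0
  14)))))), (.s k1 k253 13 (.s k3 k2 0 (.s k15 k10 2 (.s k7 k11 1 (.s k6 k4 0 (.d k9 k13 k12 1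
  2))))))] .n)

def s170_171_221 : T TT 256 :=
  (.q k5 [(.s k1 k253 13 (.s k13 k9 1 (.s k165 k245 11 (.s k161 k173 1 (.d k241 k81 k89 11 13))))),
  (.s k15 k10 2 (.s k165 k245 11 (.s k173 k161 1 (.s k252 k94 12 (.s k84 k168 13 (.d k86 k87 k3 0
  14)))))), (.s k1 k253 13 (.s k3 k2 0 (.s k15 k10 2 (.s k7 k11 1 (.s k6 k4 0 (.d k9 k13 k12 1
  2))))))] .n)

def s170_171_222 : T TT 256 :=
  (.q k5 [(.s k1 k253 13 (.s k13 k9 1 (.s k165 k245 11 (.s k161 k173 1 (.d k241 k81 k89 11 13))))),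
  (.s k15 k10 2 (.s k165 k245 11 (.s k173 k161 1 (.s k252 k94 12 (.s k84 k168 13 (.d k86 k87 k3 0
  14)))))), (.s k1 k253 13 (.s k3 k2 0 (.s k15 k10 2 (.s k7 k11 1 (.s k6 k4 0 (.d k9 k13 k12 1
  2))))))] .n)

def s170_171_223 : T TT 256 :=
  (.q k5 [(.s k1 k253 13 (.s k13 k9 1 (.s k165 k245 11 (.s k161 k173 1 (.d k241 k81 k89 11 13))))),
  (.s k15 k10 2 (.s k165 k245 11 (.s k173 k161 1 (.s k252 k94 12 (.s k84 k168 13 (.d k86 k87 k3 0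
  14)))))), (.s k1 k253 13 (.s k3 k2 0 (.s k15 k10 2 (.s k7 k11 1 (.s k6 k4 0 (.d k9 k13 k12 1
  2))))))] .n)

def s170_171_224 : T TT 256 :=
  (.q k5 [(.s k1 k253 13 (.s k13 k9 1 (.s k165 k245 11 (.s k161 k173 1 (.d k241 k81 k89 11 13))))),
  (.s k15 k10 2 (.s k165 k245 11 (.s k173 k161 1 (.s k252 k94 12 (.s k84 k168 13 (.d k86 k87 k3 0
  14)))))), (.s k1 k253 13 (.s k3 k2 0 (.s k15 k10 2 (.s k7 k11 1 (.s k6 k4 0 (.d k9 k13 k12 1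
  2))))))] .n)

def s170_171_225 : T TT 256 :=
  (.q k5 [(.s k1 k253 13 (.s k13 k9 1 (.s k165 k245 11 (.s k161 k173 1 (.d k241 k81 k89 11 13))))),
  (.s k15 k10 2 (.s k165 k245 11 (.s k173 k161 1 (.s k252 k94 12 (.s k84 k168 13 (.d k86 k87 k3 0
  14)))))), (.s k1 k253 13 (.s k3 k2 0 (.s k15 k10 2 (.s k7 k11 1 (.s k6 k4 0 (.d k9 k13 k12 1
  2))))))] .n)

def s170_171_226 : T TT 256 :=
  (.q k5 [(.s k1 k253 13 (.s k13 k9 1 (.s k165 k245 11 (.s k161 k173 1 (.d k241 k81 k89 11 13))))),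
  (.s k15 k10 2 (.s k165 k245 11 (.s k173 k161 1 (.s k252 k94 12 (.s k84 k168 13 (.d k86 k87 k3 0
  14)))))), (.s k1 k253 13 (.s k3 k2 0 (.s k15 k10 2 (.s k7 k11 1 (.s k6 k4 0 (.d k9 k13 k12 1
  2))))))] .n)

def s170_171_227 : T TT 256 :=
  (.q k5 [(.s k1 k253 13 (.s k13 k9 1 (.s k165 k245 11 (.s k161 k173 1 (.d k241 k81 k89 11 13))))),
  (.s k15 k10 2 (.s k165 k245 11 (.s k173 k161 1 (.s k252 k94 12 (.s k84 k168 13 (.d k86 k87 k3 0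
  14)))))), (.s k1 k253 13 (.s k3 k2 0 (.s k15 k10 2 (.s k7 k11 1 (.s k6 k4 0 (.d k9 k13 k12 1
  2))))))] .n)

def s170_171_228 : T TT 256 :=
  (.q k5 [(.s k1 k253 13 (.s k13 k9 1 (.s k165 k245 11 (.s k161 k173 1 (.d k241 k81 k89 11 13))))),
  (.s k15 k10 2 (.s k165 k245 11 (.s k173 k161 1 (.s k252 k94 12 (.s k84 k168 13 (.d k86 k87 k3 0
  14)))))), (.s k1 k253 13 (.s k3 k2 0 (.s k15 k10 2 (.s k7 k11 1 (.s k6 k4 0 (.d k9 k13 k12 1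
  2))))))] .n)

def s170_171_229 : T TT 256 :=
  (.q k5 [(.s k1 k253 13 (.s k13 k9 1 (.s k165 k245 11 (.s k161 k173 1 (.d k241 k81 k89 11 13))))),
  (.s k1 k253 13 (.s k3 k2 0 (.s k15 k10 2 (.s k11 k7 1 (.s k90 k248 12 (.d k165 k245 k240 11
  14)))))), (.s k15 k10 2 (.s k165 k245 11 (.s k173 k161 1 (.s k252 k94 12 (.s k84 k168 13 (.d k86
  k87 k3 0 14)))))), (.s k1 k253 13 (.s k3 k2 0 (.s k9 k13 1 (.s k6 k12 2 (.s k7 k4 0 (.d k15 k11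
  k10 1 2))))))] .n)

def s170_171_230 : T TT 256 :=
  (.q k5 [(.s k1 k253 13 (.s k13 k9 1 (.s k165 k245 11 (.s k161 k173 1 (.d k241 k81 k89 11 13))))),
  (.s k15 k10 2 (.s k165 k245 11 (.s k173 k161 1 (.s k252 k94 12 (.s k84 k168 13 (.d k86 k87 k3 0
  14)))))), (.s k1 k253 13 (.s k3 k2 0 (.s k15 k10 2 (.s k7 k11 1 (.s k6 k4 0 (.d k9 k13 k12 1
  2))))))] .n)

def s170_171_231 : T TT 256 :=
  (.q k5 [(.s k1 k253 13 (.s k13 k9 1 (.s k165 k245 11 (.s k161 k173 1 (.d k241 k81 k89 11 13))))),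
  (.s k15 k10 2 (.s k165 k245 11 (.s k173 k161 1 (.s k252 k94 12 (.s k84 k168 13 (.d k86 k87 k3 0
  14)))))), (.s k1 k253 13 (.s k3 k2 0 (.s k15 k10 2 (.s k7 k11 1 (.s k6 k4 0 (.d k9 k13 k12 1
  2))))))] .n)

def s170_171_232 : T TT 256 :=
  (.q k5 [(.s k1 k253 13 (.s k13 k9 1 (.s k165 k245 11 (.s k161 k173 1 (.d k241 k81 k89 11 13))))),
  (.s k15 k10 2 (.s k165 k245 11 (.s k173 k161 1 (.s k252 k94 12 (.s k84 k168 13 (.d k86 k87 k3 0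
  14)))))), (.s k1 k253 13 (.s k3 k2 0 (.s k15 k10 2 (.s k7 k11 1 (.s k6 k4 0 (.d k9 k13 k12 1
  2))))))] .n)

def s170_171_233 : T TT 256 :=
  (.q k5 [(.s k1 k253 13 (.s k13 k9 1 (.s k165 k245 11 (.s k161 k173 1 (.d k241 k81 k89 11 13))))),
  (.s k15 k10 2 (.s k165 k245 11 (.s k173 k161 1 (.s k252 k94 12 (.s k84 k168 13 (.d k86 k87 k3 0
  14)))))), (.s k1 k253 13 (.s k3 k2 0 (.s k15 k10 2 (.s k7 k11 1 (.s k6 k4 0 (.d k9 k13 k12 1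
  2))))))] .n)

def s170_171_234 : T TT 256 :=
  (.f k1 k253 13 (.q k106 [(.s k3 k2 0 (.s k43 k232 8 (.s k63 k23 5 (.s k64 k127 6 (.d k192 k128
  k149 7 14))))), (.s k64 k127 6 (.s k192 k128 7 (.s k149 k63 14 (.s k21 k213 7 (.s k61 k41 5 (.s
  k129 k189 5 (.d k193 k65 k105 7 13))))))), (.s k3 k2 0 (.s k64 k127 6 (.s k86 k252 14 (.s k66 k126
  5 (.s k67 k65 0 (.s k84 k87 0 (.d k124 k104 k105 5 6))))))), (.s k3 k2 0 (.s k43 k232 8 (.s k63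
  k23 5 (.s k21 k42 6 (.d k149 k213 k192 7 14)))))] (.c k63 (.l (.s k3 k2 0 (.s k64 k127 6 (.s k86
  k252 14 (.s k192 k128 7 (.d k66 k126 k129 5 8)))))) .n)))

def s170_171_235 : T TT 256 :=
  (.f k1 k253 13 (.q k105 [(.s k41 k233 7 (.s k61 k21 5 (.s k65 k125 5 (.d k193 k129 k149 7 13)))),
  (.s k3 k2 0 (.s k65 k125 5 (.s k86 k252 14 (.s k67 k124 6 (.d k195 k131 k130 7 8))))), (.s k3 k2 0
  (.s k41 k233 7 (.s k60 k22 6 (.s k20 k40 5 (.d k150 k215 k195 8 14)))))] (.c k43 (.q k107 [(.s k3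
  k2 0 (.s k86 k252 14 (.s k87 k84 0 (.d k67 k127 k124 5 6)))), (.s k41 k233 7 (.s k61 k21 5 (.s k65
  k125 5 (.d k193 k129 k149 7 13))))] .n) (.c k107 (.q k43 [(.s k41 k233 7 (.s k42 k40 0 (.d k21 k61
  k63 5 6))), (.s k3 k2 0 (.s k63 k23 5 (.s k42 k21 6 (.d k41 k40 k233 0 7)))), (.s k41 k233 7 (.s
  k61 k21 5 (.s k65 k125 5 (.d k193 k129 k149 7 13))))] (.c k21 (.l (.s k3 k2 0 (.s k41 k233 7 (.s
  k40 k42 0 (.d k60 k22 k20 6 5))))) (.c k41 (.l (.s k3 k2 0 (.s k63 k23 5 (.s k21 k42 6 (.s k106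
  k232 8 (.d k149 k213 k192 7 14)))))) (.c k233 (.l (.s k3 k2 0 (.s k63 k23 5 (.s k21 k42 6 (.s k61
  k41 5 (.d k149 k213 k193 7 13)))))) .n)))) .n))))

def s170_171_236 : T TT 256 :=
  (.q k5 [(.s k1 k253 13 (.s k13 k9 1 (.s k165 k245 11 (.s k161 k173 1 (.d k241 k81 k89 11 13))))),
  (.s k15 k10 2 (.s k165 k245 11 (.s k173 k161 1 (.s k252 k94 12 (.s k84 k168 13 (.d k86 k87 k3 0
  14)))))), (.s k1 k253 13 (.s k3 k2 0 (.s k15 k10 2 (.s k7 k11 1 (.s k6 k4 0 (.d k9 k13 k12 1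
  2))))))] .n)

def s170_171_237 : T TT 256 :=
  (.q k5 [(.s k15 k10 2 (.s k165 k245 11 (.s k173 k161 1 (.s k252 k94 12 (.s k84 k168 13 (.d k86 k87
  k3 0 14)))))), (.s k1 k253 13 (.s k13 k9 1 (.s k165 k245 11 (.s k161 k173 1 (.d k241 k81 k89 11
  13))))), (.s k1 k253 13 (.s k3 k2 0 (.s k15 k10 2 (.s k7 k11 1 (.s k6 k4 0 (.d k9 k13 k12 1
  2))))))] .n)

def s170_171_238 : T TT 256 :=
  (.f k1 k253 13 (.q k102 [(.s k3 k2 0 (.s k35 k236 10 (.s k51 k19 3 (.s k68 k119 4 (.d k204 k136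
  k153 9 14))))), (.s k68 k119 4 (.s k204 k136 9 (.s k153 k51 14 (.s k17 k221 9 (.s k49 k33 3 (.s
  k137 k185 3 (.d k205 k69 k101 9 13))))))), (.s k3 k2 0 (.s k68 k119 4 (.s k86 k252 14 (.s k70 k118
  3 (.s k71 k69 0 (.s k84 k87 0 (.d k116 k100 k101 3 4))))))), (.s k3 k2 0 (.s k35 k236 10 (.s k51
  k19 3 (.s k17 k34 4 (.d k153 k221 k204 9 14)))))] (.c k51 (.l (.s k3 k2 0 (.s k68 k119 4 (.s k86
  k252 14 (.s k204 k136 9 (.d k70 k118 k137 3 10)))))) .n)))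

def s170_171_239 : T TT 256 :=
  (.f k1 k253 13 (.q k101 [(.s k33 k237 9 (.s k49 k17 3 (.s k69 k117 3 (.d k205 k137 k153 9 13)))),
  (.s k3 k2 0 (.s k69 k117 3 (.s k86 k252 14 (.s k71 k116 4 (.d k207 k139 k138 9 10))))), (.s k3 k2
  0 (.s k33 k237 9 (.s k48 k18 4 (.s k16 k32 3 (.d k154 k223 k207 10 14)))))] (.c k35 (.q k103 [(.s
  k3 k2 0 (.s k86 k252 14 (.s k87 k84 0 (.d k71 k119 k116 3 4)))), (.s k33 k237 9 (.s k49 k17 3 (.s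
  k69 k117 3 (.d k205 k137 k153 9 13))))] .n) (.c k103 (.q k35 [(.s k33 k237 9 (.s k34 k32 0 (.d k17
  k49 k51 3 4))), (.s k3 k2 0 (.s k51 k19 3 (.s k34 k17 4 (.d k33 k32 k237 0 9)))), (.s k33 k237 9
  (.s k49 k17 3 (.s k69 k117 3 (.d k205 k137 k153 9 13))))] (.c k17 (.l (.s k3 k2 0 (.s k33 k237 9
  (.s k32 k34 0 (.d k48 k18 k16 4 3))))) (.c k33 (.l (.s k3 k2 0 (.s k51 k19 3 (.s k17 k34 4 (.s
  k102 k236 10 (.d k153 k221 k204 9 14)))))) (.c k237 (.l (.s k3 k2 0 (.s k51 k19 3 (.s k17 k34 4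
  (.s k49 k33 3 (.d k153 k221 k205 9 13)))))) .n)))) .n))))

def s170_171_240 : T TT 256 :=
  (.q k5 [(.s k1 k253 13 (.s k13 k9 1 (.s k165 k245 11 (.s k161 k173 1 (.d k241 k81 k89 11 13))))),
  (.s k1 k253 13 (.s k3 k2 0 (.s k9 k13 1 (.s k6 k12 2 (.s k7 k4 0 (.d k15 k11 k10 1 2)))))), (.s
  k15 k10 2 (.s k165 k245 11 (.s k173 k161 1 (.s k252 k94 12 (.s k84 k168 13 (.d k86 k3 k87 14
  0))))))] (.c k173 (.l (.s k1 k253 13 (.s k3 k2 0 (.s k15 k10 2 (.s k7 k11 1 (.s k6 k4 0 (.d k9 k13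
  k12 1 2))))))) .n))

def s170_171_241 : T TT 256 :=
  (.q k17 [(.s k1 k253 13 (.s k49 k33 3 (.s k153 k221 9 (.s k137 k185 3 (.d k205 k69 k101 9 13))))),
  (.s k51 k34 4 (.s k153 k221 9 (.s k185 k137 3 (.s k252 k118 10 (.s k84 k168 13 (.d k86 k87 k3 0
  14)))))), (.s k1 k253 13 (.s k3 k2 0 (.s k51 k34 4 (.s k19 k35 3 (.s k18 k16 0 (.d k33 k49 k48 3
  4))))))] .n)

def s170_171_242 : T TT 256 :=
  (.q k5 [(.s k1 k253 13 (.s k13 k9 1 (.s k165 k245 11 (.s k161 k173 1 (.d k241 k81 k89 11 13))))),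
  (.s k15 k10 2 (.s k165 k245 11 (.s k173 k161 1 (.s k252 k94 12 (.s k84 k168 13 (.d k86 k87 k3 0
  14)))))), (.s k1 k253 13 (.s k3 k2 0 (.s k15 k10 2 (.s k7 k11 1 (.s k6 k4 0 (.d k9 k13 k12 1
  2))))))] .n)

def s170_171_243 : T TT 256 :=
  (.q k5 [(.s k1 k253 13 (.s k13 k9 1 (.s k165 k245 11 (.s k161 k173 1 (.d k241 k81 k89 11 13))))),
  (.s k15 k10 2 (.s k165 k245 11 (.s k173 k161 1 (.s k252 k94 12 (.s k84 k168 13 (.d k86 k87 k3 0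
  14)))))), (.s k1 k253 13 (.s k3 k2 0 (.s k15 k10 2 (.s k7 k11 1 (.s k6 k4 0 (.d k9 k13 k12 1
  2))))))] .n)

def s170_171_244 : T TT 256 :=
  (.q k5 [(.s k1 k253 13 (.s k13 k9 1 (.s k165 k245 11 (.s k161 k173 1 (.d k241 k81 k89 11 13))))),
  (.s k1 k253 13 (.s k3 k2 0 (.s k15 k10 2 (.s k11 k7 1 (.s k90 k248 12 (.d k165 k240 k245 14
  11)))))), (.s k15 k10 2 (.s k165 k245 11 (.s k173 k161 1 (.s k252 k94 12 (.s k84 k168 13 (.d k86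
  k87 k3 0 14)))))), (.s k1 k253 13 (.s k3 k2 0 (.s k9 k13 1 (.s k6 k12 2 (.s k7 k4 0 (.d k15 k11
  k10 1 2))))))] .n)

def s170_171_245 : T TT 256 :=
  (.q k17 [(.s k1 k253 13 (.s k49 k33 3 (.s k153 k221 9 (.s k137 k185 3 (.d k205 k69 k101 9 13))))),
  (.s k51 k34 4 (.s k153 k221 9 (.s k185 k137 3 (.s k252 k118 10 (.s k84 k168 13 (.d k86 k87 k3 0
  14)))))), (.s k1 k253 13 (.s k3 k2 0 (.s k51 k34 4 (.s k19 k35 3 (.s k18 k16 0 (.d k33 k49 k48 3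
  4))))))] .n)

def s170_171_246 : T TT 256 :=
  (.q k5 [(.s k1 k253 13 (.s k13 k9 1 (.s k165 k245 11 (.s k161 k173 1 (.d k241 k81 k89 11 13))))),
  (.s k1 k253 13 (.s k3 k2 0 (.s k15 k10 2 (.s k11 k7 1 (.s k90 k248 12 (.d k165 k245 k240 11
  14)))))), (.s k15 k10 2 (.s k165 k245 11 (.s k173 k161 1 (.s k252 k94 12 (.s k84 k168 13 (.d k86
  k87 k3 0 14)))))), (.s k1 k253 13 (.s k3 k2 0 (.s k9 k13 1 (.s k6 k12 2 (.s k7 k4 0 (.d k15 k11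
  k10 1 2))))))] .n)

def s170_171_247 : T TT 256 :=
  (.q k5 [(.s k1 k253 13 (.s k13 k9 1 (.s k165 k245 11 (.s k161 k173 1 (.d k241 k81 k89 11 13))))),
  (.s k1 k253 13 (.s k3 k2 0 (.s k15 k10 2 (.s k11 k7 1 (.s k90 k248 12 (.d k165 k245 k240 11
  14)))))), (.s k15 k10 2 (.s k165 k245 11 (.s k173 k161 1 (.s k252 k94 12 (.s k84 k168 13 (.d k86
  k87 k3 0 14)))))), (.s k1 k253 13 (.s k3 k2 0 (.s k9 k13 1 (.s k6 k12 2 (.s k7 k4 0 (.d k15 k11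
  k10 1 2))))))] .n)

def s170_171_248 : T TT 256 :=
  (.q k5 [(.s k1 k253 13 (.s k13 k9 1 (.s k165 k245 11 (.s k161 k173 1 (.d k241 k81 k89 11 13))))),
  (.s k15 k10 2 (.s k165 k245 11 (.s k173 k161 1 (.s k252 k94 12 (.s k84 k168 13 (.d k86 k87 k3 0
  14)))))), (.s k1 k253 13 (.s k3 k2 0 (.s k15 k10 2 (.s k7 k11 1 (.s k6 k4 0 (.d k9 k13 k12 1
  2))))))] .n)

def s170_171_249 : T TT 256 :=
  (.q k17 [(.s k51 k34 4 (.s k153 k221 9 (.s k185 k137 3 (.s k252 k118 10 (.s k84 k168 13 (.d k86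
  k87 k3 0 14)))))), (.s k1 k253 13 (.s k49 k33 3 (.s k153 k221 9 (.s k137 k185 3 (.d k205 k69 k101
  9 13))))), (.s k1 k253 13 (.s k3 k2 0 (.s k51 k34 4 (.s k19 k35 3 (.s k18 k16 0 (.d k33 k49 k48 3
  4))))))] .n)

def s170_171_250 : T TT 256 :=
  (.f k1 k253 13 (.q k90 [(.s k3 k2 0 (.s k11 k248 12 (.s k15 k7 1 (.s k80 k95 2 (.d k240 k160 k165
  11 14))))), (.s k80 k95 2 (.s k240 k160 11 (.s k165 k15 14 (.s k5 k245 11 (.s k13 k9 1 (.s k161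
  k173 1 (.d k241 k81 k89 11 13))))))), (.s k3 k2 0 (.s k80 k95 2 (.s k86 k252 14 (.s k82 k94 1 (.s
  k83 k81 0 (.s k84 k87 0 (.d k92 k88 k89 1 2))))))), (.s k3 k2 0 (.s k11 k248 12 (.s k15 k7 1 (.s
  k5 k10 2 (.d k165 k245 k240 11 14)))))] (.c k15 (.l (.s k3 k2 0 (.s k80 k95 2 (.s k86 k252 14 (.s
  k240 k160 11 (.d k82 k94 k161 1 12)))))) .n)))

def s170_171_251 : T TT 256 :=
  (.f k1 k253 13 (.q k89 [(.s k9 k249 11 (.s k13 k5 1 (.s k81 k93 1 (.d k241 k161 k165 11 13)))),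
  (.s k3 k2 0 (.s k81 k93 1 (.s k86 k252 14 (.s k83 k92 2 (.d k243 k163 k162 11 12))))), (.s k3 k2 0
  (.s k9 k249 11 (.s k12 k6 2 (.s k4 k8 1 (.d k166 k247 k243 12 14)))))] (.c k11 (.q k91 [(.s k3 k2
  0 (.s k86 k252 14 (.s k87 k84 0 (.d k83 k95 k92 1 2)))), (.s k9 k249 11 (.s k13 k5 1 (.s k81 k93 1
  (.d k241 k161 k165 11 13))))] .n) (.c k91 (.q k11 [(.s k9 k249 11 (.s k10 k8 0 (.d k5 k13 k15 1
  2))), (.s k3 k2 0 (.s k15 k7 1 (.s k10 k5 2 (.d k9 k8 k249 0 11)))), (.s k9 k249 11 (.s k13 k5 1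
  (.s k81 k93 1 (.d k241 k161 k165 11 13))))] (.c k5 (.l (.s k3 k2 0 (.s k9 k249 11 (.s k8 k10 0 (.d
  k12 k6 k4 2 1))))) (.c k9 (.l (.s k3 k2 0 (.s k15 k7 1 (.s k5 k10 2 (.s k90 k248 12 (.d k165 k245
  k240 11 14)))))) (.c k249 (.l (.s k3 k2 0 (.s k15 k7 1 (.s k5 k10 2 (.s k13 k9 1 (.d k165 k245
  k241 11 13)))))) .n)))) .n))))

def s170_171_252 : T TT 256 :=
  (.f k1 k253 13 (.q k153 [(.s k17 k221 9 (.s k49 k33 3 (.s k137 k185 3 (.d k205 k69 k101 9 13)))),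
  (.s k3 k2 0 (.s k137 k185 3 (.s k204 k70 10 (.s k68 k136 9 (.d k102 k51 k119 14 4))))), (.s k3 k2
  0 (.s k17 k221 9 (.s k51 k34 4 (.s k35 k19 3 (.d k102 k236 k204 10 14)))))] (.c k51 (.l (.s k17
  k221 9 (.s k49 k33 3 (.s k205 k101 13 (.d k137 k185 k69 3 9))))) (.c k254 (.q k255 [(.s k17 k221 9
  (.s k49 k33 3 (.s k137 k185 3 (.d k205 k69 k101 9 13)))), (.s k17 k221 9 (.s k51 k34 4 (.s k102
  k204 14 (.d k119 k68 k187 4 9)))), (.s k137 k185 3 (.s k221 k17 9 (.s k204 k238 4 (.d k3 k2 k70 0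
  10))))] (.c k2 (.q k86 [(.s k17 k221 9 (.s k49 k33 3 (.s k137 k185 3 (.d k205 k69 k101 9 13)))),
  (.s k221 k17 9 (.s k204 k238 4 (.s k68 k136 9 (.d k102 k119 k51 4 14)))), (.s k19 k220 10 (.s k87
  k84 0 (.s k137 k185 3 (.s k223 k155 9 (.s k207 k239 3 (.d k69 k205 k138 9 10))))))] (.c k51 (.l
  (.s k17 k221 9 (.s k49 k33 3 (.s k205 k101 13 (.d k137 k185 k69 3 9))))) .n)) (.c k17 (.l (.s k137
  k185 3 (.s k69 k205 9 (.s k138 k207 10 (.s k136 k139 0 (.s k204 k68 9 (.d k3 k2 k70 0 10)))))))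
  (.c k51 (.l (.s k17 k221 9 (.s k49 k33 3 (.s k205 k101 13 (.d k137 k185 k69 3 9))))) (.c k86 (.l
  (.s k2 k3 0 (.s k17 k221 9 (.s k49 k33 3 (.s k137 k185 3 (.d k205 k69 k101 9 13)))))) (.c k221 (.l
  (.s k137 k185 3 (.s k205 k69 9 (.s k49 k101 13 (.s k17 k33 3 (.s k51 k34 4 (.s k102 k204 14 (.d
  k119 k68 k187 4 9)))))))) .n)))))) (.c k255 (.q k254 [(.s k17 k221 9 (.s k49 k33 3 (.s k137 k185 3
  (.d k205 k69 k101 9 13)))), (.s k3 k2 0 (.s k137 k185 3 (.s k204 k70 10 (.s k68 k136 9 (.d k102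
  k51 k119 14 4))))), (.s k3 k2 0 (.s k17 k221 9 (.s k51 k34 4 (.s k35 k19 3 (.d k102 k204 k236 14
  10)))))] (.c k3 (.q k87 [(.s k137 k185 3 (.s k205 k69 9 (.s k49 k101 13 (.d k17 k33 k221 3 9)))),
  (.s k86 k84 0 (.s k19 k220 10 (.s k223 k155 9 (.s k16 k154 10 (.d k17 k18 k221 0 9)))))] (.c k17
  (.l (.s k137 k185 3 (.s k69 k205 9 (.s k138 k207 10 (.s k139 k136 0 (.s k154 k184 4 (.s k223 k16
  10 (.d k155 k152 k19 0 9)))))))) (.c k221 (.f k86 k84 0 (.l (.s k19 k220 10 (.s k137 k185 3 (.s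
  k205 k69 9 (.s k49 k101 13 (.s k17 k33 3 (.s k223 k155 9 (.d k16 k18 k154 0 10))))))))) .n))) (.c
  k51 (.l (.s k17 k221 9 (.s k49 k33 3 (.s k205 k101 13 (.d k137 k185 k69 3 9))))) (.c k87 (.l (.s
  k3 k2 0 (.s k17 k221 9 (.s k49 k33 3 (.s k137 k185 3 (.d k205 k69 k101 9 13)))))) (.c k204 (.l (.s
  k137 k185 3 (.s k205 k69 9 (.s k49 k101 13 (.d k17 k33 k221 3 9))))) .n))))) .n)))))

def s170_171_253 : T TT 256 :=
  (.q k252 [(.s k84 k168 13 (.d k86 k87 k3 0 14))] (.c k3 (.f k84 k168 13 (.q k4 [(.s k12 k8 1 (.s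
  k166 k247 12 (.d k172 k163 k92 2 11))), (.s k244 k164 11 (.s k247 k166 12 (.s k245 k246 0 (.s k165
  k5 11 (.d k86 k87 k7 0 12))))), (.s k12 k8 1 (.s k92 k172 11 (.s k88 k80 1 (.d k164 k244 k240 11
  13))))] (.c k87 (.q k255 [(.s k12 k8 1 (.s k172 k92 11 (.d k166 k163 k247 2 12))), (.s k244 k164
  11 (.s k247 k166 12 (.s k245 k246 0 (.d k240 k248 k250 1 2)))), (.s k12 k8 1 (.s k92 k172 11 (.s
  k88 k80 1 (.d k164 k244 k240 11 13))))] (.c k172 (.l (.s k12 k8 1 (.s k93 k174 12 (.s k89 k81 1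
  (.d k166 k247 k243 12 14))))) (.c k248 (.l (.s k166 k247 12 (.s k172 k163 2 (.d k12 k8 k92 1
  11)))) .n))) (.c k172 (.l (.s k164 k244 11 (.s k166 k247 12 (.s k165 k167 0 (.s k173 k161 1 (.s
  k15 k94 12 (.d k5 k245 k10 11 2))))))) (.c k255 (.l (.s k87 k86 0 (.s k12 k8 1 (.s k166 k247 12
  (.d k172 k163 k92 2 11))))) .n))))) (.c k84 (.q k4 [(.s k12 k8 1 (.s k166 k247 12 (.d k172 k163
  k92 2 11))), (.s k3 k86 14 (.s k2 k1 0 (.s k12 k8 1 (.s k6 k9 2 (.s k5 k7 0 (.d k10 k14 k15 1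
  2)))))), (.s k3 k86 14 (.s k166 k247 12 (.s k163 k172 2 (.s k243 k83 11 (.s k81 k162 12 (.s k89
  k93 1 (.d k249 k246 k9 2 11)))))))] (.c k89 (.l (.s k166 k247 12 (.s k172 k163 2 (.d k12 k8 k92 1
  11)))) .n)) (.c k86 (.f k84 k168 13 (.q k4 [(.s k166 k247 12 (.s k172 k163 2 (.d k12 k8 k92 1
  11))), (.s k12 k8 1 (.s k92 k172 11 (.s k88 k80 1 (.d k164 k244 k240 11 13)))), (.s k164 k244 11
  (.s k166 k247 12 (.s k165 k167 0 (.s k173 k161 1 (.s k15 k94 12 (.d k5 k245 k10 11 2))))))] (.c k2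
  (.q k254 [(.s k166 k247 12 (.s k172 k163 2 (.d k12 k8 k92 1 11))), (.s k12 k8 1 (.s k92 k172 11
  (.s k88 k80 1 (.d k164 k244 k240 11 13)))), (.s k164 k244 11 (.s k166 k247 12 (.s k165 k167 0 (.s
  k173 k161 1 (.s k15 k94 12 (.d k5 k245 k10 11 2))))))] .n) (.c k254 (.q k2 [(.s k166 k247 12 (.s
  k172 k163 2 (.d k12 k8 k92 1 11))), (.s k3 k1 0 (.s k12 k8 1 (.s k6 k9 2 (.s k5 k7 0 (.d k10 k14
  k15 1 2))))), (.s k164 k244 11 (.s k166 k247 12 (.s k165 k167 0 (.s k173 k161 1 (.s k15 k94 12 (.d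
  k5 k245 k10 11 2))))))] .n) .n)))) (.c k87 (.q k128 [(.s k168 k84 13 (.s k148 k188 5 (.s k192 k64
  7 (.s k104 k60 13 (.d k232 k212 k40 5 7))))), (.s k3 k86 14 (.s k192 k64 7 (.s k129 k66 8 (.s k130
  k131 0 (.s k65 k195 8 (.d k1 k2 k193 0 7)))))), (.s k3 k86 14 (.s k168 k84 13 (.s k188 k148 5 (.s
  k131 k150 6 (.s k130 k129 0 (.d k195 k67 k65 7 8))))))] (.c k3 (.q k255 [(.s k168 k84 13 (.s k148
  k188 5 (.s k192 k64 7 (.s k232 k212 5 (.d k104 k40 k60 7 13))))), (.s k192 k64 7 (.s k213 k234 6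
  (.s k149 k21 7 (.s k189 k129 5 (.d k63 k106 k126 14 8))))), (.s k168 k84 13 (.s k188 k148 5 (.s
  k150 k131 6 (.s k20 k215 8 (.d k60 k40 k124 5 7)))))] .n) (.c k255 (.l (.s k3 k86 14 (.s k168 k84
  13 (.s k148 k188 5 (.s k192 k64 7 (.s k104 k60 13 (.d k232 k212 k40 5 7))))))) .n))) (.c k168 (.q
  k4 [(.s k166 k247 12 (.s k172 k163 2 (.d k12 k8 k92 1 11))), (.s k3 k86 14 (.s k2 k1 0 (.s k12 k8
  1 (.s k6 k9 2 (.s k5 k7 0 (.d k10 k14 k15 1 2)))))), (.s k86 k3 14 (.s k87 k84 0 (.s k247 k166 12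
  (.s k7 k167 11 (.s k165 k244 12 (.d k5 k6 k245 0 11))))))] .n) .n))))))

def s170_171_254 : T TT 256 :=
  (.f k1 k253 13 (.q k21 [(.s k61 k41 5 (.s k149 k213 7 (.s k129 k189 5 (.d k193 k65 k105 7 13)))),
  (.s k41 k61 5 (.s k42 k63 6 (.s k40 k43 0 (.s k60 k20 5 (.d k3 k2 k22 0 6))))), (.s k63 k42 6 (.s
  k149 k213 7 (.s k106 k192 14 (.s k43 k232 8 (.d k3 k2 k23 0 5)))))] (.c k2 (.q k86 [(.s k84 k87 0
  (.d k252 k3 k168 14 13)), (.s k61 k41 5 (.s k149 k213 7 (.s k129 k189 5 (.d k193 k65 k105 7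
  13))))] (.c k252 (.q k255 [(.s k61 k41 5 (.s k149 k213 7 (.s k129 k189 5 (.d k193 k65 k105 7
  13)))), (.s k63 k42 6 (.s k127 k191 7 (.s k106 k64 6 (.d k149 k213 k192 7 14)))), (.s k41 k61 5
  (.s k42 k63 6 (.s k40 k43 0 (.s k60 k20 5 (.s k125 k190 8 (.d k105 k65 k233 5 7))))))] (.c k63 (.l
  (.s k61 k41 5 (.s k149 k213 7 (.s k193 k105 13 (.d k129 k189 k65 5 7))))) .n)) (.c k255 (.l (.s
  k252 k3 14 (.s k87 k84 0 (.s k63 k42 6 (.s k149 k213 7 (.d k189 k129 k126 5 8)))))) .n))) (.c k86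
  (.l (.s k2 k3 0 (.s k61 k41 5 (.s k149 k213 7 (.s k129 k189 5 (.d k193 k65 k105 7 13)))))) (.c
  k252 (.q k255 [(.s k61 k41 5 (.s k149 k213 7 (.s k129 k189 5 (.d k193 k65 k105 7 13)))), (.s k63
  k42 6 (.s k127 k191 7 (.s k106 k64 6 (.d k149 k213 k192 7 14)))), (.s k41 k61 5 (.s k42 k63 6 (.s
  k40 k43 0 (.s k60 k20 5 (.d k3 k2 k22 0 6)))))] (.c k2 (.q k86 [(.s k61 k41 5 (.s k149 k213 7 (.s
  k129 k189 5 (.d k193 k65 k105 7 13)))), (.s k63 k42 6 (.s k127 k191 7 (.s k106 k64 6 (.d k149 k213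
  k192 7 14)))), (.s k41 k61 5 (.s k42 k63 6 (.s k40 k43 0 (.s k60 k20 5 (.s k125 k190 8 (.d k105
  k65 k233 5 7))))))] (.c k63 (.l (.s k61 k41 5 (.s k149 k213 7 (.s k193 k105 13 (.d k129 k189 k65 5
  7))))) .n)) (.c k63 (.l (.s k61 k41 5 (.s k149 k213 7 (.s k193 k105 13 (.d k129 k189 k65 5 7)))))
  (.c k86 (.l (.s k2 k3 0 (.s k61 k41 5 (.s k149 k213 7 (.s k129 k189 5 (.d k193 k65 k105 7 13))))))
  .n)))) (.c k255 (.q k252 [(.d k3 k2 k86 0 14)] (.c k2 (.l (.s k86 k3 14 (.s k87 k84 0 (.s k63 k42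
  6 (.s k149 k213 7 (.d k189 k129 k126 5 8)))))) (.c k3 (.q k87 [(.d k84 k86 k168 0 13), (.s k63 k42
  6 (.s k149 k213 7 (.d k189 k129 k126 5 8)))] (.c k2 (.l (.s k86 k84 0 (.s k63 k42 6 (.s k149 k213
  7 (.d k189 k129 k126 5 8))))) (.c k86 (.q k2 [(.s k63 k42 6 (.s k149 k213 7 (.d k189 k129 k126 5
  8))), (.s k61 k41 5 (.s k63 k42 6 (.s k60 k62 0 (.s k188 k124 7 (.s k150 k131 6 (.d k20 k40 k215 5
  8)))))), (.s k61 k41 5 (.s k149 k213 7 (.s k129 k189 5 (.d k193 k65 k105 7 13))))] (.c k234 (.l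
  (.s k41 k61 5 (.s k42 k63 6 (.s k43 k40 0 (.s k106 k232 8 (.s k127 k64 6 (.s k107 k67 5 (.d k105
  k104 k233 0 7)))))))) .n)) .n))) (.c k86 (.f k2 k3 0 (.q k87 [(.s k63 k42 6 (.s k149 k213 7 (.d
  k189 k129 k126 5 8))), (.s k61 k41 5 (.s k63 k42 6 (.s k60 k62 0 (.s k188 k124 7 (.s k150 k131 6
  (.d k20 k40 k215 5 8)))))), (.s k61 k41 5 (.s k149 k213 7 (.s k129 k189 5 (.d k193 k65 k105 7
  13))))] (.c k234 (.l (.s k41 k61 5 (.s k42 k63 6 (.s k43 k40 0 (.s k106 k232 8 (.s k127 k64 6 (.s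
  k107 k67 5 (.d k105 k104 k233 0 7)))))))) .n))) (.c k87 (.l (.d k3 k2 k86 0 14)) .n))))) .n))))))

def s170_171_255 : T TT 256 :=
  (.q k89 [(.s k93 k81 1 (.s k249 k9 11 (.s k253 k1 13 (.s k13 k173 11 (.d k241 k245 k165 1 13))))),
  (.s k81 k93 1 (.s k243 k162 12 (.s k249 k9 11 (.s k252 k246 2 (.s k84 k168 13 (.d k86 k87 k3 0
  14)))))), (.s k1 k253 13 (.s k3 k2 0 (.s k81 k93 1 (.s k243 k162 12 (.s k83 k163 11 (.d k86 k252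
  k92 14 2)))))), (.s k1 k253 13 (.s k3 k2 0 (.s k9 k249 11 (.s k12 k6 2 (.s k4 k8 1 (.d k166 k247
  k243 12 14))))))] (.c k3 (.q k87 [(.s k1 k253 13 (.s k9 k249 11 (.s k13 k5 1 (.s k81 k93 1 (.d
  k241 k161 k165 11 13))))), (.s k81 k93 1 (.s k86 k84 0 (.s k83 k92 2 (.s k80 k82 0 (.d k95 k91 k90
  1 2))))), (.s k1 k253 13 (.s k9 k249 11 (.s k13 k5 1 (.s k241 k165 13 (.d k81 k93 k161 1 11)))))]
  (.c k81 (.f k1 k253 13 (.l (.s k9 k249 11 (.s k5 k13 1 (.s k10 k15 2 (.s k11 k8 0 (.s k90 k248 12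
  (.s k95 k80 2 (.d k91 k88 k83 0 1))))))))) (.c k93 (.q k12 [(.s k4 k8 1 (.d k166 k247 k243 12
  14)), (.s k1 k253 13 (.s k8 k4 1 (.s k9 k249 11 (.s k10 k11 0 (.d k5 k13 k15 1 2))))), (.s k84 k86
  0 (.s k166 k243 14 (.s k252 k168 13 (.d k172 k163 k92 2 11))))] .n) (.c k161 (.l (.s k81 k93 1 (.s
  k84 k86 0 (.s k243 k162 12 (.s k249 k9 11 (.d k252 k246 k168 2 13)))))) .n)))) (.c k87 (.q k3 [(.d
  k1 k2 k253 0 13), (.s k9 k249 11 (.s k12 k6 2 (.s k4 k8 1 (.d k166 k247 k243 12 14))))] .n) .n)))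

def t170_171 : T TT 256 :=
  (.q k169 [] (.c k1 s170_171_1 (.c k2 s170_171_2 (.c k3 s170_171_3 (.c k4 s170_171_4 (.c k5
  s170_171_5 (.c k6 s170_171_6 (.c k7 s170_171_7 (.c k8 s170_171_8 (.c k9 s170_171_9 (.c k10
  s170_171_10 (.c k11 s170_171_11 (.c k12 s170_171_12 (.c k13 s170_171_13 (.c k14 s170_171_14 (.c
  k15 s170_171_15 (.c k16 s170_171_16 (.c k17 s170_171_17 (.c k18 s170_171_18 (.c k19 s170_171_19
  (.c k20 s170_171_20 (.c k21 s170_171_21 (.c k22 s170_171_22 (.c k23 s170_171_23 (.c k24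
  s170_171_24 (.c k25 s170_171_25 (.c k26 s170_171_26 (.c k27 s170_171_27 (.c k28 s170_171_28 (.c
  k29 s170_171_29 (.c k30 s170_171_30 (.c k31 s170_171_31 (.c k32 s170_171_32 (.c k33 s170_171_33
  (.c k34 s170_171_34 (.c k35 s170_171_35 (.c k36 s170_171_36 (.c k37 s170_171_37 (.c k38
  s170_171_38 (.c k39 s170_171_39 (.c k40 s170_171_40 (.c k41 s170_171_41 (.c k42 s170_171_42 (.c
  k43 s170_171_43 (.c k44 s170_171_44 (.c k45 s170_171_45 (.c k46 s170_171_46 (.c k47 s170_171_47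
  (.c k48 s170_171_48 (.c k49 s170_171_49 (.c k50 s170_171_50 (.c k51 s170_171_51 (.c k52
  s170_171_52 (.c k53 s170_171_53 (.c k54 s170_171_54 (.c k55 s170_171_55 (.c k56 s170_171_56 (.c
  k57 s170_171_57 (.c k58 s170_171_58 (.c k59 s170_171_59 (.c k60 s170_171_60 (.c k61 s170_171_61
  (.c k62 s170_171_62 (.c k63 s170_171_63 (.c k64 s170_171_64 (.c k65 s170_171_65 (.c k66
  s170_171_66 (.c k67 s170_171_67 (.c k68 s170_171_68 (.c k69 s170_171_69 (.c k70 s170_171_70 (.c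
  k71 s170_171_71 (.c k72 s170_171_72 (.c k73 s170_171_73 (.c k74 s170_171_74 (.c k75 s170_171_75
  (.c k76 s170_171_76 (.c k77 s170_171_77 (.c k78 s170_171_78 (.c k79 s170_171_79 (.c k80
  s170_171_80 (.c k81 s170_171_81 (.c k82 s170_171_82 (.c k83 s170_171_83 (.c k84 s170_171_84 (.c
  k86 s170_171_86 (.c k87 s170_171_87 (.c k88 s170_171_88 (.c k89 s170_171_89 (.c k90 s170_171_90
  (.c k91 s170_171_91 (.c k92 s170_171_92 (.c k93 s170_171_93 (.c k94 s170_171_94 (.c k95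
  s170_171_95 (.c k96 s170_171_96 (.c k97 s170_171_97 (.c k98 s170_171_98 (.c k99 s170_171_99 (.c
  k100 s170_171_100 (.c k101 s170_171_101 (.c k102 s170_171_102 (.c k103 s170_171_103 (.c k104
  s170_171_104 (.c k105 s170_171_105 (.c k106 s170_171_106 (.c k107 s170_171_107 (.c k108
  s170_171_108 (.c k109 s170_171_109 (.c k110 s170_171_110 (.c k111 s170_171_111 (.c k112
  s170_171_112 (.c k113 s170_171_113 (.c k114 s170_171_114 (.c k115 s170_171_115 (.c k116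
  s170_171_116 (.c k117 s170_171_117 (.c k118 s170_171_118 (.c k119 s170_171_119 (.c k120
  s170_171_120 (.c k121 s170_171_121 (.c k122 s170_171_122 (.c k123 s170_171_123 (.c k124
  s170_171_124 (.c k125 s170_171_125 (.c k126 s170_171_126 (.c k127 s170_171_127 (.c k128
  s170_171_128 (.c k129 s170_171_129 (.c k130 s170_171_130 (.c k131 s170_171_131 (.c k132
  s170_171_132 (.c k133 s170_171_133 (.c k134 s170_171_134 (.c k135 s170_171_135 (.c k136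
  s170_171_136 (.c k137 s170_171_137 (.c k138 s170_171_138 (.c k139 s170_171_139 (.c k140
  s170_171_140 (.c k141 s170_171_141 (.c k142 s170_171_142 (.c k143 s170_171_143 (.c k144
  s170_171_144 (.c k145 s170_171_145 (.c k146 s170_171_146 (.c k147 s170_171_147 (.c k148
  s170_171_148 (.c k149 s170_171_149 (.c k150 s170_171_150 (.c k151 s170_171_151 (.c k152
  s170_171_152 (.c k153 s170_171_153 (.c k154 s170_171_154 (.c k155 s170_171_155 (.c k156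
  s170_171_156 (.c k157 s170_171_157 (.c k158 s170_171_158 (.c k159 s170_171_159 (.c k160
  s170_171_160 (.c k161 s170_171_161 (.c k162 s170_171_162 (.c k163 s170_171_163 (.c k164
  s170_171_164 (.c k165 s170_171_165 (.c k166 s170_171_166 (.c k167 s170_171_167 (.c k168
  s170_171_168 (.c k172 s170_171_172 (.c k173 s170_171_173 (.c k174 s170_171_174 (.c k175
  s170_171_175 (.c k176 s170_171_176 (.c k177 s170_171_177 (.c k178 s170_171_178 (.c k179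
  s170_171_179 (.c k180 s170_171_180 (.c k181 s170_171_181 (.c k182 s170_171_182 (.c k183
  s170_171_183 (.c k184 s170_171_184 (.c k185 s170_171_185 (.c k186 s170_171_186 (.c k187
  s170_171_187 (.c k188 s170_171_188 (.c k189 s170_171_189 (.c k190 s170_171_190 (.c k191
  s170_171_191 (.c k192 s170_171_192 (.c k193 s170_171_193 (.c k194 s170_171_194 (.c k195
  s170_171_195 (.c k196 s170_171_196 (.c k197 s170_171_197 (.c k198 s170_171_198 (.c k199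
  s170_171_199 (.c k200 s170_171_200 (.c k201 s170_171_201 (.c k202 s170_171_202 (.c k203
  s170_171_203 (.c k204 s170_171_204 (.c k205 s170_171_205 (.c k206 s170_171_206 (.c k207
  s170_171_207 (.c k208 s170_171_208 (.c k209 s170_171_209 (.c k210 s170_171_210 (.c k211
  s170_171_211 (.c k212 s170_171_212 (.c k213 s170_171_213 (.c k214 s170_171_214 (.c k215
  s170_171_215 (.c k216 s170_171_216 (.c k217 s170_171_217 (.c k218 s170_171_218 (.c k219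
  s170_171_219 (.c k220 s170_171_220 (.c k221 s170_171_221 (.c k222 s170_171_222 (.c k223
  s170_171_223 (.c k224 s170_171_224 (.c k225 s170_171_225 (.c k226 s170_171_226 (.c k227
  s170_171_227 (.c k228 s170_171_228 (.c k229 s170_171_229 (.c k230 s170_171_230 (.c k231
  s170_171_231 (.c k232 s170_171_232 (.c k233 s170_171_233 (.c k234 s170_171_234 (.c k235
  s170_171_235 (.c k236 s170_171_236 (.c k237 s170_171_237 (.c k238 s170_171_238 (.c k239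
  s170_171_239 (.c k240 s170_171_240 (.c k241 s170_171_241 (.c k242 s170_171_242 (.c k243
  s170_171_243 (.c k244 s170_171_244 (.c k245 s170_171_245 (.c k246 s170_171_246 (.c k247
  s170_171_247 (.c k248 s170_171_248 (.c k249 s170_171_249 (.c k250 s170_171_250 (.c k251
  s170_171_251 (.c k252 s170_171_252 (.c k253 s170_171_253 (.c k254 s170_171_254 (.c k255
  s170_171_255 .n))))))))))))))))))))))))))))))))))))))))))))))))))))))))))))))))))))))))))))))))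
  ))))))))))))))))))))))))))))))))))))))))))))))))))))))))))))))))))))))))))))))))
  )))))))))))))))))))))))))))))))))))))))))))))))))))))))))))))))))))))))))))))))) ))))))))))))

def s170_175_1 : T TT 256 :=
  (.q k4 [(.s k5 k245 11 (.s k7 k6 0 (.s k86 k244 12 (.s k87 k84 0 (.d k247 k167 k166 11 12))))),
  (.s k12 k8 1 (.s k166 k247 12 (.s k164 k167 0 (.s k240 k88 13 (.s k80 k160 11 (.d k90 k95 k15 2
  14)))))), (.s k5 k245 11 (.s k12 k8 1 (.s k15 k10 2 (.s k13 k14 0 (.s k89 k241 13 (.d k166 k247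
  k243 12 14))))))] (.c k166 (.l (.s k5 k245 11 (.s k7 k6 0 (.s k15 k10 2 (.s k3 k11 1 (.s k86 k244
  12 (.s k84 k87 0 (.d k252 k168 k169 13 14)))))))) (.c k247 (.l (.s k5 k245 11 (.s k7 k6 0 (.s k12
  k8 1 (.s k15 k10 2 (.s k244 k86 12 (.s k164 k84 11 (.d k240 k90 k88 14 13)))))))) .n)))

def s170_175_2 : T TT 256 :=
  (.q k86 [(.s k84 k87 0 (.s k244 k7 12 (.s k4 k164 11 (.s k245 k5 11 (.d k247 k246 k166 0 12))))),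
  (.s k5 k245 11 (.s k15 k10 2 (.s k84 k87 0 (.s k90 k240 14 (.s k94 k82 1 (.d k252 k173 k168 12
  13)))))), (.s k84 k87 0 (.s k244 k7 12 (.s k252 k168 13 (.s k240 k248 1 (.s k80 k160 11 (.d k90
  k95 k15 2 14)))))), (.s k5 k245 11 (.s k7 k244 12 (.s k15 k10 2 (.s k3 k11 1 (.s k90 k240 14 (.s
  k94 k82 1 (.d k252 k173 k169 12 14)))))))] .n)

def s170_175_3 : T TT 256 :=
  (.q k12 [(.s k4 k8 1 (.s k5 k245 11 (.s k7 k6 0 (.s k86 k244 12 (.s k87 k84 0 (.d k247 k167 k166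
  11 12)))))), (.s k5 k245 11 (.s k15 k10 2 (.s k13 k14 0 (.s k89 k241 13 (.s k81 k93 1 (.d k243
  k162 k166 12 14)))))), (.s k4 k8 1 (.s k166 k247 12 (.s k164 k167 0 (.s k240 k88 13 (.s k80 k160
  11 (.d k90 k95 k15 2 14))))))] (.c k89 (.l (.s k5 k245 11 (.s k15 k10 2 (.s k14 k13 0 (.s k90 k240
  14 (.s k166 k242 13 (.d k4 k8 k247 1 12))))))) (.c k166 (.l (.s k5 k245 11 (.s k15 k10 2 (.s k13
  k14 0 (.s k1 k9 1 (.s k89 k241 13 (.s k93 k81 1 (.d k253 k173 k169 11 13)))))))) .n)))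

def s170_175_4 : T TT 256 :=
  (.q k1 [(.s k5 k245 11 (.s k13 k9 1 (.s k89 k241 13 (.s k93 k81 1 (.d k253 k173 k169 11 13))))),
  (.s k3 k2 0 (.s k169 k253 13 (.s k161 k173 1 (.s k240 k82 12 (.s k80 k160 11 (.d k90 k95 k15 2
  14)))))), (.s k3 k2 0 (.s k5 k245 11 (.s k15 k10 2 (.s k7 k11 1 (.s k86 k244 12 (.d k169 k253 k252
  13 14))))))] (.c k169 (.l (.s k5 k245 11 (.s k13 k9 1 (.s k15 k10 2 (.s k12 k14 0 (.s k89 k241 13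
  (.s k81 k93 1 (.d k243 k162 k166 12 14)))))))) (.c k253 (.l (.s k3 k2 0 (.s k5 k245 11 (.s k13 k9
  1 (.s k15 k10 2 (.s k241 k89 13 (.s k161 k81 11 (.d k240 k90 k82 14 12)))))))) .n)))

def s170_175_5 : T TT 256 :=
  (.q k240 [(.s k80 k160 11 (.d k90 k95 k15 2 14))] (.c k15 (.f k80 k160 11 (.q k64 [(.s k106 k127 6
  (.s k192 k128 7 (.d k224 k208 k47 3 10))), (.s k112 k96 3 (.s k127 k106 6 (.s k117 k122 2 (.s k101
  k69 3 (.d k90 k95 k79 2 6))))), (.s k96 k112 3 (.s k192 k128 7 (.s k144 k48 11 (.d k208 k224 k16 3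
  7))))] (.c k95 (.q k255 [(.s k192 k128 7 (.s k224 k208 3 (.d k106 k127 k47 6 10))), (.s k112 k96 3
  (.s k127 k106 6 (.s k117 k122 2 (.d k48 k176 k186 7 10)))), (.s k96 k112 3 (.s k192 k128 7 (.s
  k144 k48 11 (.d k208 k224 k16 3 7))))] (.c k176 (.l (.s k106 k127 6 (.s k224 k47 10 (.d k192 k208
  k128 3 7)))) (.c k224 (.l (.s k106 k127 6 (.s k192 k128 7 (.s k149 k63 14 (.d k213 k234 k21 6
  7))))) .n))) (.c k224 (.l (.s k96 k112 3 (.s k106 k127 6 (.s k101 k111 2 (.s k229 k37 7 (.s k207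
  k218 6 (.d k69 k117 k138 3 10))))))) (.c k255 (.l (.s k95 k90 2 (.s k106 k127 6 (.s k192 k128 7
  (.d k224 k208 k47 3 10))))) .n))))) (.c k80 (.q k1 [(.s k3 k2 0 (.s k169 k253 13 (.d k161 k173 k82
  1 12))), (.s k3 k2 0 (.s k15 k90 14 (.s k7 k11 1 (.s k86 k244 12 (.s k84 k87 0 (.d k252 k169 k168
  14 13)))))), (.s k15 k90 14 (.s k169 k253 13 (.s k173 k161 1 (.s k252 k94 12 (.s k84 k168 13 (.s
  k86 k87 0 (.d k244 k248 k7 1 12)))))))] (.c k86 (.l (.s k169 k253 13 (.s k161 k173 1 (.d k3 k2 k82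
  0 12)))) (.c k169 (.l (.s k3 k2 0 (.s k82 k161 12 (.s k90 k15 14 (.s k86 k94 1 (.s k84 k87 0 (.s
  k244 k7 12 (.d k252 k248 k168 1 13)))))))) .n))) (.c k90 (.f k160 k80 11 (.q k161 [(.s k169 k173 1
  (.s k1 k253 13 (.d k3 k2 k82 0 12))), (.s k82 k3 12 (.s k162 k163 0 (.s k242 k2 11 (.d k243 k241
  k81 0 12)))), (.s k162 k163 0 (.s k169 k173 1 (.s k1 k253 13 (.d k81 k241 k243 11 12))))] (.c k10
  (.q k250 [(.s k169 k173 1 (.s k1 k253 13 (.d k3 k2 k82 0 12))), (.s k82 k3 12 (.s k162 k163 0 (.s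
  k242 k2 11 (.d k243 k241 k81 0 12)))), (.s k162 k163 0 (.s k169 k173 1 (.s k1 k253 13 (.d k81 k241
  k243 11 12))))] .n) (.c k250 (.q k10 [(.s k169 k173 1 (.s k1 k253 13 (.d k3 k2 k82 0 12))), (.s
  k82 k3 12 (.s k162 k163 0 (.s k242 k2 11 (.d k243 k241 k81 0 12)))), (.s k162 k163 0 (.s k169 k173
  1 (.s k1 k253 13 (.d k81 k241 k243 11 12))))] .n) .n)))) (.c k95 (.f k80 k160 11 (.q k64 [(.s k106
  k127 6 (.s k224 k47 10 (.d k192 k208 k128 3 7))), (.s k96 k112 3 (.s k192 k128 7 (.s k144 k48 11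
  (.d k208 k224 k16 3 7)))), (.s k112 k96 3 (.s k127 k106 6 (.s k117 k122 2 (.s k101 k69 3 (.d k90
  k15 k79 14 6)))))] (.c k15 (.q k255 [(.s k192 k128 7 (.s k224 k208 3 (.d k106 k127 k47 6 10))),
  (.s k112 k96 3 (.s k127 k106 6 (.s k117 k122 2 (.d k48 k176 k186 7 10)))), (.s k96 k112 3 (.s k192
  k128 7 (.s k144 k48 11 (.d k208 k224 k16 3 7))))] (.c k176 (.l (.s k106 k127 6 (.s k224 k47 10 (.d
  k192 k208 k128 3 7)))) (.c k224 (.l (.s k106 k127 6 (.s k192 k128 7 (.s k149 k63 14 (.d k213 k234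
  k21 6 7))))) .n))) (.c k224 (.l (.s k15 k90 14 (.s k106 k127 6 (.s k192 k128 7 (.s k133 k74 10 (.d
  k149 k181 k63 3 14)))))) (.c k255 (.l (.s k15 k90 14 (.s k106 k127 6 (.s k192 k128 7 (.d k224 k208
  k47 3 10))))) .n))))) (.c k160 (.q k1 [(.s k3 k2 0 (.s k169 k253 13 (.d k161 k173 k82 1 12))), (.s
  k3 k2 0 (.s k15 k90 14 (.s k7 k11 1 (.s k86 k244 12 (.s k84 k87 0 (.d k252 k169 k168 14 13)))))),
  (.s k15 k90 14 (.s k169 k253 13 (.s k173 k161 1 (.s k252 k94 12 (.s k84 k168 13 (.s k86 k87 0 (.d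
  k244 k248 k7 1 12)))))))] (.c k86 (.l (.s k169 k253 13 (.s k161 k173 1 (.d k3 k2 k82 0 12)))) (.c
  k169 (.l (.s k3 k2 0 (.s k82 k161 12 (.s k90 k15 14 (.s k86 k94 1 (.s k84 k87 0 (.s k244 k7 12 (.d
  k252 k248 k168 1 13)))))))) .n))) .n))))))

def s170_175_6 : T TT 256 :=
  (.q k1 [(.s k5 k245 11 (.s k13 k9 1 (.s k89 k241 13 (.s k93 k81 1 (.d k253 k173 k169 11 13))))),
  (.s k3 k2 0 (.s k169 k253 13 (.s k86 k252 14 (.s k7 k244 12 (.s k15 k11 1 (.d k5 k10 k245 2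
  11)))))), (.s k3 k2 0 (.s k169 k253 13 (.s k161 k173 1 (.s k240 k82 12 (.s k80 k160 11 (.d k90 k95
  k15 2 14))))))] (.c k3 (.l (.s k5 k245 11 (.s k169 k253 13 (.s k161 k173 1 (.s k241 k81 11 (.d k13
  k9 k89 1 13)))))) (.c k169 (.l (.s k5 k245 11 (.s k13 k9 1 (.s k15 k10 2 (.s k89 k241 13 (.s k81
  k93 1 (.s k243 k162 12 (.d k12 k14 k166 0 14)))))))) (.c k253 (.l (.s k3 k2 0 (.s k5 k245 11 (.s
  k13 k9 1 (.s k241 k89 13 (.s k161 k81 11 (.s k240 k82 12 (.d k15 k10 k90 2 14)))))))) .n))))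

def s170_175_7 : T TT 256 :=
  (.q k1 [(.s k5 k245 11 (.s k13 k9 1 (.s k89 k241 13 (.s k93 k81 1 (.d k253 k173 k169 11 13))))),
  (.s k3 k2 0 (.s k5 k245 11 (.s k9 k13 1 (.s k10 k15 2 (.s k8 k11 0 (.d k12 k4 k6 1 2)))))), (.s k3
  k2 0 (.s k169 k253 13 (.s k161 k173 1 (.s k240 k82 12 (.s k80 k160 11 (.d k90 k95 k15 2 14))))))]
  (.c k13 (.l (.s k3 k2 0 (.s k5 k245 11 (.s k15 k10 2 (.s k169 k253 13 (.s k173 k161 1 (.d k252 k86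
  k94 14 12))))))) .n))

def s170_175_8 : T TT 256 :=
  (.q k89 [(.s k81 k93 1 (.s k241 k13 13 (.s k1 k161 11 (.s k245 k5 11 (.d k253 k249 k169 1 13))))),
  (.s k5 k245 11 (.s k15 k10 2 (.s k81 k93 1 (.s k90 k240 14 (.s k91 k88 0 (.d k243 k162 k167 12
  13)))))), (.s k81 k93 1 (.s k241 k13 13 (.s k243 k162 12 (.s k240 k242 0 (.s k80 k160 11 (.d k90
  k95 k15 2 14)))))), (.s k5 k245 11 (.s k13 k241 13 (.s k15 k10 2 (.s k12 k14 0 (.s k90 k240 14 (.s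
  k91 k88 0 (.d k243 k167 k166 13 14)))))))] .n)

def s170_175_9 : T TT 256 :=
  (.q k4 [(.s k5 k245 11 (.s k7 k6 0 (.s k86 k244 12 (.s k87 k84 0 (.d k247 k167 k166 11 12))))),
  (.s k12 k8 1 (.s k166 k247 12 (.s k89 k243 14 (.s k13 k241 13 (.s k15 k14 0 (.d k5 k10 k245 2
  11)))))), (.s k12 k8 1 (.s k166 k247 12 (.s k164 k167 0 (.s k240 k88 13 (.s k80 k160 11 (.d k90
  k95 k15 2 14))))))] (.c k12 (.l (.s k5 k245 11 (.s k166 k247 12 (.s k164 k167 0 (.s k244 k84 11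
  (.d k7 k6 k86 0 12)))))) (.c k166 (.l (.s k5 k245 11 (.s k7 k6 0 (.s k15 k10 2 (.s k86 k244 12 (.s
  k84 k87 0 (.s k252 k168 13 (.d k3 k11 k169 1 14)))))))) (.c k247 (.l (.s k5 k245 11 (.s k7 k6 0
  (.s k12 k8 1 (.s k244 k86 12 (.s k164 k84 11 (.s k240 k88 13 (.d k15 k10 k90 2 14)))))))) .n))))

def s170_175_10 : T TT 256 :=
  (.f k5 k245 11 (.q k4 [(.s k7 k6 0 (.s k86 k244 12 (.s k87 k84 0 (.d k247 k167 k166 11 12)))), (.s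
  k6 k7 0 (.s k12 k8 1 (.s k9 k3 2 (.s k13 k1 1 (.s k89 k241 13 (.s k81 k93 1 (.d k243 k162 k166 12
  14))))))), (.s k12 k8 1 (.s k166 k247 12 (.s k89 k243 14 (.s k13 k241 13 (.s k93 k81 1 (.s k253
  k173 11 (.d k1 k9 k169 1 13)))))))] (.c k90 (.q k250 [(.s k7 k6 0 (.s k86 k244 12 (.s k87 k84 0
  (.d k247 k167 k166 11 12)))), (.s k6 k7 0 (.s k12 k8 1 (.s k9 k3 2 (.s k13 k1 1 (.s k89 k241 13
  (.s k81 k93 1 (.d k243 k162 k166 12 14))))))), (.s k12 k8 1 (.s k166 k247 12 (.s k89 k243 14 (.s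
  k13 k241 13 (.s k93 k81 1 (.s k253 k173 11 (.d k1 k9 k169 1 13)))))))] (.c k166 (.f k7 k6 0 (.f
  k86 k244 12 (.l (.s k84 k87 0 (.s k252 k168 13 (.s k169 k3 14 (.s k1 k253 13 (.s k161 k173 1 (.s
  k241 k81 11 (.d k13 k9 k89 1 13)))))))))) .n)) (.c k166 (.f k6 k7 0 (.f k12 k8 1 (.f k9 k3 2 (.l
  (.s k13 k1 1 (.s k15 k14 0 (.s k89 k241 13 (.s k81 k93 1 (.s k90 k240 14 (.s k91 k88 0 (.d k243
  k162 k167 12 13))))))))))) (.c k250 (.q k90 [(.s k80 k95 2 (.d k240 k15 k160 14 11)), (.s k7 k6 0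
  (.s k86 k244 12 (.s k87 k84 0 (.d k247 k167 k166 11 12))))] (.c k240 (.q k255 [(.s k7 k6 0 (.s k86
  k244 12 (.s k87 k84 0 (.d k247 k167 k166 11 12)))), (.s k12 k8 1 (.s k93 k174 12 (.s k89 k81 1 (.d
  k166 k247 k243 12 14)))), (.s k6 k7 0 (.s k12 k8 1 (.s k9 k3 2 (.s k13 k1 1 (.s k89 k241 13 (.d
  k93 k81 k174 1 12))))))] .n) (.c k255 (.l (.s k240 k15 14 (.s k95 k80 2 (.s k12 k8 1 (.s k164 k88
  13 (.d k166 k167 k247 0 12)))))) .n))) .n)))))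

def s170_175_11 : T TT 256 :=
  (.q k4 [(.s k5 k245 11 (.s k7 k6 0 (.s k86 k244 12 (.s k87 k84 0 (.d k247 k167 k166 11 12))))),
  (.s k5 k245 11 (.s k6 k7 0 (.s k12 k8 1 (.s k3 k9 2 (.s k10 k15 2 (.d k2 k1 k14 0 1)))))), (.s k12
  k8 1 (.s k166 k247 12 (.s k164 k167 0 (.s k240 k88 13 (.s k80 k160 11 (.d k90 k95 k15 2 14))))))]
  (.c k7 (.l (.s k5 k245 11 (.s k12 k8 1 (.s k166 k247 12 (.s k89 k243 14 (.s k13 k241 13 (.d k15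
  k10 k14 2 0))))))) .n))

def s170_175_12 : T TT 256 :=
  (.q k3 [(.s k1 k2 0 (.s k5 k245 11 (.s k13 k9 1 (.s k89 k241 13 (.s k93 k81 1 (.d k253 k173 k169
  11 13)))))), (.s k5 k245 11 (.s k15 k10 2 (.s k7 k11 1 (.s k86 k244 12 (.s k84 k87 0 (.d k252 k168
  k169 13 14)))))), (.s k1 k2 0 (.s k169 k253 13 (.s k161 k173 1 (.s k240 k82 12 (.s k80 k160 11 (.d
  k90 k95 k15 2 14))))))] (.c k86 (.l (.s k5 k245 11 (.s k15 k10 2 (.s k11 k7 1 (.s k90 k240 14 (.s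
  k169 k248 12 (.d k1 k2 k253 0 13))))))) (.c k169 (.l (.s k5 k245 11 (.s k15 k10 2 (.s k7 k11 1 (.s
  k4 k6 0 (.s k86 k244 12 (.s k87 k84 0 (.d k247 k167 k166 11 12)))))))) .n)))

def s170_175_13 : T TT 256 :=
  (.q k4 [(.s k5 k245 11 (.s k7 k6 0 (.s k86 k244 12 (.s k87 k84 0 (.d k247 k167 k166 11 12))))),
  (.s k5 k245 11 (.s k6 k7 0 (.s k10 k15 2 (.s k2 k14 1 (.s k12 k8 1 (.d k3 k1 k9 0 2)))))), (.s k12
  k8 1 (.s k166 k247 12 (.s k164 k167 0 (.s k240 k88 13 (.s k80 k160 11 (.d k90 k95 k15 2 14))))))]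
  (.c k7 (.l (.s k5 k245 11 (.s k12 k8 1 (.s k15 k10 2 (.s k166 k247 12 (.s k167 k164 0 (.d k243 k89
  k91 14 13))))))) .n))

def s170_175_14 : T TT 256 :=
  (.q k1 [(.s k5 k245 11 (.s k13 k9 1 (.s k89 k241 13 (.s k93 k81 1 (.d k253 k173 k169 11 13))))),
  (.s k3 k2 0 (.s k5 k245 11 (.s k9 k13 1 (.s k6 k12 2 (.s k15 k10 2 (.d k7 k4 k11 0 1)))))), (.s k3
  k2 0 (.s k169 k253 13 (.s k161 k173 1 (.s k240 k82 12 (.s k80 k160 11 (.d k90 k95 k15 2 14))))))]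
  (.c k13 (.l (.s k3 k2 0 (.s k5 k245 11 (.s k169 k253 13 (.s k86 k252 14 (.s k7 k244 12 (.d k15 k10
  k11 2 1))))))) .n))

def s170_175_15 : T TT 256 :=
  (.f k5 k245 11 (.q k1 [(.s k13 k9 1 (.s k89 k241 13 (.s k93 k81 1 (.d k253 k173 k169 11 13)))),
  (.s k3 k2 0 (.s k169 k253 13 (.s k86 k252 14 (.s k7 k244 12 (.s k4 k6 0 (.s k87 k84 0 (.d k247
  k167 k166 11 12))))))), (.s k3 k2 0 (.s k9 k13 1 (.s k12 k6 2 (.s k4 k8 1 (.s k166 k247 12 (.s k89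
  k243 14 (.d k169 k249 k253 11 13)))))))] (.c k95 (.q k255 [(.s k13 k9 1 (.s k89 k241 13 (.s k93
  k81 1 (.d k253 k173 k169 11 13)))), (.s k3 k2 0 (.s k87 k171 13 (.s k86 k84 0 (.d k169 k253 k252
  13 14))))] (.c k169 (.l (.s k13 k9 1 (.s k89 k241 13 (.s k81 k93 1 (.s k243 k162 12 (.s k166 k12
  14 (.d k247 k251 k4 1 12))))))) (.c k253 (.l (.s k3 k2 0 (.s k9 k13 1 (.s k87 k171 13 (.s k86 k84
  0 (.s k7 k244 12 (.d k6 k4 k12 0 2))))))) .n))) (.c k169 (.f k3 k2 0 (.f k9 k13 1 (.f k12 k6 2 (.l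
  (.s k4 k8 1 (.s k166 k247 12 (.s k89 k243 14 (.s k81 k93 1 (.s k161 k241 11 (.s k240 k82 12 (.d
  k164 k167 k88 0 13))))))))))) (.c k249 (.l (.s k13 k9 1 (.s k89 k241 13 (.s k253 k169 13 (.d k93
  k81 k173 1 11))))) (.c k253 (.f k3 k2 0 (.f k9 k13 1 (.f k12 k6 2 (.l (.s k4 k8 1 (.s k166 k247 12
  (.s k164 k167 0 (.s k240 k88 13 (.s k160 k80 11 (.s k168 k172 1 (.d k84 k244 k252 11 13)))))))))))
  (.c k255 (.q k95 [(.s k13 k9 1 (.s k89 k241 13 (.s k93 k81 1 (.d k253 k173 k169 11 13)))), (.s k3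
  k2 0 (.s k80 k90 2 (.s k240 k160 11 (.s k161 k82 12 (.d k169 k173 k253 1 13))))), (.s k3 k2 0 (.s
  k13 k9 1 (.s k80 k90 2 (.s k240 k160 11 (.s k161 k82 12 (.d k241 k81 k89 11 13))))))] (.c k240 (.q
  k250 [(.s k13 k9 1 (.s k89 k241 13 (.s k93 k81 1 (.d k253 k173 k169 11 13)))), (.s k3 k2 0 (.s k9
  k13 1 (.s k12 k6 2 (.s k8 k4 1 (.s k90 k80 2 (.s k169 k253 13 (.d k11 k10 k248 0 12))))))), (.s k2
  k3 0 (.s k13 k9 1 (.s k80 k90 2 (.s k241 k89 13 (.s k81 k161 11 (.s k82 k83 0 (.d k162 k243 k242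
  12 11)))))))] (.c k9 (.q k4 [(.s k7 k6 0 (.s k86 k244 12 (.s k87 k84 0 (.d k247 k167 k166 11
  12)))), (.s k3 k2 0 (.s k7 k6 0 (.s k169 k253 13 (.d k86 k252 k244 14 12)))), (.s k166 k247 12 (.s
  k164 k167 0 (.s k244 k84 11 (.d k7 k6 k86 0 12)))), (.s k3 k2 0 (.s k12 k8 1 (.s k166 k247 12 (.s
  k169 k253 13 (.s k163 k172 2 (.d k243 k89 k83 14 11))))))] (.c k86 (.l (.s k2 k3 0 (.s k90 k80 2
  (.s k166 k247 12 (.s k14 k242 13 (.d k6 k7 k10 0 1)))))) (.c k244 (.l (.s k6 k7 0 (.s k90 k80 2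
  (.s k166 k247 12 (.s k246 k86 11 (.d k242 k254 k14 1 13)))))) .n))) (.c k13 (.q k12 [(.s k3 k2 0
  (.s k6 k9 2 (.d k4 k7 k8 0 1))), (.s k4 k8 1 (.s k7 k6 0 (.s k86 k244 12 (.s k87 k84 0 (.d k247
  k167 k166 11 12))))), (.s k3 k2 0 (.s k9 k6 2 (.s k90 k80 2 (.s k169 k253 13 (.s k248 k11 12 (.d
  k249 k251 k89 0 11))))))] (.c k6 (.l (.s k3 k2 0 (.s k4 k8 1 (.s k166 k247 12 (.s k169 k253 13 (.s
  k163 k172 2 (.d k243 k89 k83 14 11))))))) (.c k86 (.l (.s k4 k8 1 (.s k6 k7 0 (.d k3 k2 k9 0 2))))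
  .n))) (.c k169 (.l (.s k2 k3 0 (.s k13 k9 1 (.s k80 k90 2 (.s k89 k241 13 (.s k81 k93 1 (.s k82
  k83 0 (.d k162 k242 k243 11 12)))))))) (.c k241 (.l (.s k9 k13 1 (.s k90 k80 2 (.s k169 k253 13
  (.s k249 k89 11 (.d k248 k251 k11 0 12)))))) (.c k249 (.l (.s k13 k9 1 (.s k89 k241 13 (.s k253
  k169 13 (.d k93 k81 k173 1 11))))) .n)))))) (.c k250 (.q k240 [(.d k80 k90 k160 2 11), (.s k3 k2 0
  (.s k161 k82 12 (.d k169 k173 k253 1 13)))] (.c k10 (.l (.s k90 k80 2 (.s k3 k2 0 (.s k161 k82 12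
  (.d k169 k173 k253 1 13))))) (.c k90 (.q k10 [(.s k13 k9 1 (.s k89 k241 13 (.s k93 k81 1 (.d k253
  k173 k169 11 13)))), (.s k3 k2 0 (.s k9 k13 1 (.s k12 k6 2 (.d k8 k11 k4 0 1)))), (.s k3 k2 0 (.s
  k161 k82 12 (.d k169 k173 k253 1 13)))] .n) .n))) .n))) .n)))))))

def s170_175_16 : T TT 256 :=
  (.q k1 [(.s k5 k245 11 (.s k13 k9 1 (.s k89 k241 13 (.s k93 k81 1 (.d k253 k173 k169 11 13))))),
  (.s k3 k2 0 (.s k5 k245 11 (.s k9 k13 1 (.s k6 k12 2 (.s k7 k4 0 (.d k15 k11 k10 1 2)))))), (.s k3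
  k2 0 (.s k169 k253 13 (.s k161 k173 1 (.s k240 k82 12 (.s k80 k160 11 (.d k90 k95 k15 2 14))))))]
  (.c k13 (.l (.s k3 k2 0 (.s k5 k245 11 (.s k15 k10 2 (.s k7 k11 1 (.s k86 k244 12 (.d k169 k253
  k252 13 14))))))) .n))

def s170_175_17 : T TT 256 :=
  (.q k1 [(.s k5 k245 11 (.s k13 k9 1 (.s k89 k241 13 (.s k93 k81 1 (.d k253 k173 k169 11 13))))),
  (.s k3 k2 0 (.s k5 k245 11 (.s k9 k13 1 (.s k6 k12 2 (.s k7 k4 0 (.d k15 k11 k10 1 2)))))), (.s k3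
  k2 0 (.s k169 k253 13 (.s k161 k173 1 (.s k240 k82 12 (.s k80 k160 11 (.d k90 k95 k15 2 14))))))]
  (.c k13 (.l (.s k3 k2 0 (.s k5 k245 11 (.s k15 k10 2 (.s k7 k11 1 (.s k86 k244 12 (.d k169 k253
  k252 13 14))))))) .n))

def s170_175_18 : T TT 256 :=
  (.q k1 [(.s k5 k245 11 (.s k13 k9 1 (.s k89 k241 13 (.s k93 k81 1 (.d k253 k173 k169 11 13))))),
  (.s k3 k2 0 (.s k5 k245 11 (.s k9 k13 1 (.s k6 k12 2 (.s k7 k4 0 (.d k15 k11 k10 1 2)))))), (.s k3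
  k2 0 (.s k169 k253 13 (.s k161 k173 1 (.s k240 k82 12 (.s k80 k160 11 (.d k90 k95 k15 2 14))))))]
  (.c k13 (.l (.s k3 k2 0 (.s k5 k245 11 (.s k15 k10 2 (.s k7 k11 1 (.s k86 k244 12 (.d k169 k253
  k252 13 14))))))) .n))

def s170_175_19 : T TT 256 :=
  (.q k1 [(.s k5 k245 11 (.s k13 k9 1 (.s k89 k241 13 (.s k93 k81 1 (.d k253 k173 k169 11 13))))),
  (.s k3 k2 0 (.s k5 k245 11 (.s k9 k13 1 (.s k6 k12 2 (.s k7 k4 0 (.d k15 k11 k10 1 2)))))), (.s k3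
  k2 0 (.s k169 k253 13 (.s k161 k173 1 (.s k240 k82 12 (.s k80 k160 11 (.d k90 k95 k15 2 14))))))]
  (.c k13 (.l (.s k3 k2 0 (.s k5 k245 11 (.s k15 k10 2 (.s k7 k11 1 (.s k86 k244 12 (.d k169 k253
  k252 13 14))))))) .n))

def s170_175_20 : T TT 256 :=
  (.q k1 [(.s k5 k245 11 (.s k13 k9 1 (.s k89 k241 13 (.s k93 k81 1 (.d k253 k173 k169 11 13))))),
  (.s k3 k2 0 (.s k5 k245 11 (.s k9 k13 1 (.s k6 k12 2 (.s k7 k4 0 (.d k15 k11 k10 1 2)))))), (.s k3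
  k2 0 (.s k169 k253 13 (.s k161 k173 1 (.s k240 k82 12 (.s k80 k160 11 (.d k90 k95 k15 2 14))))))]
  (.c k13 (.l (.s k3 k2 0 (.s k5 k245 11 (.s k15 k10 2 (.s k7 k11 1 (.s k86 k244 12 (.d k169 k253
  k252 13 14))))))) .n))

def s170_175_21 : T TT 256 :=
  (.q k1 [(.s k5 k245 11 (.s k13 k9 1 (.s k89 k241 13 (.s k93 k81 1 (.d k253 k173 k169 11 13))))),
  (.s k3 k2 0 (.s k5 k245 11 (.s k9 k13 1 (.s k6 k12 2 (.s k7 k4 0 (.d k15 k11 k10 1 2)))))), (.s k3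
  k2 0 (.s k169 k253 13 (.s k161 k173 1 (.s k240 k82 12 (.s k80 k160 11 (.d k90 k95 k15 2 14))))))]
  (.c k13 (.l (.s k3 k2 0 (.s k5 k245 11 (.s k15 k10 2 (.s k7 k11 1 (.s k86 k244 12 (.d k169 k253
  k252 13 14))))))) .n))

def s170_175_22 : T TT 256 :=
  (.q k1 [(.s k5 k245 11 (.s k13 k9 1 (.s k89 k241 13 (.s k93 k81 1 (.d k253 k173 k169 11 13))))),
  (.s k3 k2 0 (.s k5 k245 11 (.s k9 k13 1 (.s k6 k12 2 (.s k7 k4 0 (.d k15 k11 k10 1 2)))))), (.s k3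
  k2 0 (.s k169 k253 13 (.s k161 k173 1 (.s k240 k82 12 (.s k80 k160 11 (.d k90 k95 k15 2 14))))))]
  (.c k13 (.l (.s k3 k2 0 (.s k5 k245 11 (.s k15 k10 2 (.s k7 k11 1 (.s k86 k244 12 (.d k169 k253
  k252 13 14))))))) .n))

def s170_175_23 : T TT 256 :=
  (.q k1 [(.s k5 k245 11 (.s k13 k9 1 (.s k89 k241 13 (.s k93 k81 1 (.d k253 k173 k169 11 13))))),
  (.s k3 k2 0 (.s k5 k245 11 (.s k9 k13 1 (.s k6 k12 2 (.s k7 k4 0 (.d k15 k11 k10 1 2)))))), (.s k3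
  k2 0 (.s k169 k253 13 (.s k161 k173 1 (.s k240 k82 12 (.s k80 k160 11 (.d k90 k95 k15 2 14))))))]
  (.c k13 (.l (.s k3 k2 0 (.s k5 k245 11 (.s k15 k10 2 (.s k7 k11 1 (.s k86 k244 12 (.d k169 k253
  k252 13 14))))))) .n))

def s170_175_24 : T TT 256 :=
  (.q k1 [(.s k5 k245 11 (.s k13 k9 1 (.s k89 k241 13 (.s k93 k81 1 (.d k253 k173 k169 11 13))))),
  (.s k3 k2 0 (.s k5 k245 11 (.s k9 k13 1 (.s k6 k12 2 (.s k7 k4 0 (.d k15 k11 k10 1 2)))))), (.s k3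
  k2 0 (.s k169 k253 13 (.s k161 k173 1 (.s k240 k82 12 (.s k80 k160 11 (.d k90 k95 k15 2 14))))))]
  (.c k13 (.l (.s k3 k2 0 (.s k5 k245 11 (.s k15 k10 2 (.s k7 k11 1 (.s k86 k244 12 (.d k169 k253
  k252 13 14))))))) .n))

def s170_175_25 : T TT 256 :=
  (.q k1 [(.s k5 k245 11 (.s k13 k9 1 (.s k89 k241 13 (.s k93 k81 1 (.d k253 k173 k169 11 13))))),
  (.s k3 k2 0 (.s k5 k245 11 (.s k9 k13 1 (.s k6 k12 2 (.s k7 k4 0 (.d k15 k11 k10 1 2)))))), (.s k3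
  k2 0 (.s k169 k253 13 (.s k161 k173 1 (.s k240 k82 12 (.s k80 k160 11 (.d k90 k95 k15 2 14))))))]
  (.c k13 (.l (.s k3 k2 0 (.s k5 k245 11 (.s k15 k10 2 (.s k7 k11 1 (.s k86 k244 12 (.d k169 k253
  k252 13 14))))))) .n))

def s170_175_26 : T TT 256 :=
  (.q k1 [(.s k5 k245 11 (.s k13 k9 1 (.s k89 k241 13 (.s k93 k81 1 (.d k253 k173 k169 11 13))))),
  (.s k3 k2 0 (.s k5 k245 11 (.s k9 k13 1 (.s k6 k12 2 (.s k7 k4 0 (.d k15 k11 k10 1 2)))))), (.s k3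
  k2 0 (.s k169 k253 13 (.s k161 k173 1 (.s k240 k82 12 (.s k80 k160 11 (.d k90 k95 k15 2 14))))))]
  (.c k13 (.l (.s k3 k2 0 (.s k5 k245 11 (.s k15 k10 2 (.s k7 k11 1 (.s k86 k244 12 (.d k169 k253
  k252 13 14))))))) .n))

def s170_175_27 : T TT 256 :=
  (.q k1 [(.s k5 k245 11 (.s k13 k9 1 (.s k89 k241 13 (.s k93 k81 1 (.d k253 k173 k169 11 13))))),
  (.s k3 k2 0 (.s k5 k245 11 (.s k9 k13 1 (.s k6 k12 2 (.s k7 k4 0 (.d k15 k11 k10 1 2)))))), (.s k3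
  k2 0 (.s k169 k253 13 (.s k161 k173 1 (.s k240 k82 12 (.s k80 k160 11 (.d k90 k95 k15 2 14))))))]
  (.c k13 (.l (.s k3 k2 0 (.s k5 k245 11 (.s k15 k10 2 (.s k7 k11 1 (.s k86 k244 12 (.d k169 k253
  k252 13 14))))))) .n))

def s170_175_28 : T TT 256 :=
  (.q k1 [(.s k5 k245 11 (.s k13 k9 1 (.s k89 k241 13 (.s k93 k81 1 (.d k253 k173 k169 11 13))))),
  (.s k3 k2 0 (.s k5 k245 11 (.s k9 k13 1 (.s k6 k12 2 (.s k7 k4 0 (.d k15 k11 k10 1 2)))))), (.s k3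
  k2 0 (.s k169 k253 13 (.s k161 k173 1 (.s k240 k82 12 (.s k80 k160 11 (.d k90 k95 k15 2 14))))))]
  (.c k13 (.l (.s k3 k2 0 (.s k5 k245 11 (.s k15 k10 2 (.s k7 k11 1 (.s k86 k244 12 (.d k169 k253
  k252 13 14))))))) .n))

def s170_175_29 : T TT 256 :=
  (.q k1 [(.s k5 k245 11 (.s k13 k9 1 (.s k89 k241 13 (.s k93 k81 1 (.d k253 k173 k169 11 13))))),
  (.s k3 k2 0 (.s k5 k245 11 (.s k9 k13 1 (.s k6 k12 2 (.s k7 k4 0 (.d k15 k11 k10 1 2)))))), (.s k3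
  k2 0 (.s k169 k253 13 (.s k161 k173 1 (.s k240 k82 12 (.s k80 k160 11 (.d k90 k95 k15 2 14))))))]
  (.c k13 (.l (.s k3 k2 0 (.s k5 k245 11 (.s k15 k10 2 (.s k7 k11 1 (.s k86 k244 12 (.d k169 k253
  k252 13 14))))))) .n))

def s170_175_30 : T TT 256 :=
  (.q k1 [(.s k5 k245 11 (.s k13 k9 1 (.s k89 k241 13 (.s k93 k81 1 (.d k253 k173 k169 11 13))))),
  (.s k3 k2 0 (.s k5 k245 11 (.s k9 k13 1 (.s k6 k12 2 (.s k7 k4 0 (.d k15 k11 k10 1 2)))))), (.s k3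
  k2 0 (.s k169 k253 13 (.s k161 k173 1 (.s k240 k82 12 (.s k80 k160 11 (.d k90 k95 k15 2 14))))))]
  (.c k13 (.l (.s k3 k2 0 (.s k5 k245 11 (.s k15 k10 2 (.s k7 k11 1 (.s k86 k244 12 (.d k169 k253
  k252 13 14))))))) .n))

def s170_175_31 : T TT 256 :=
  (.q k1 [(.s k5 k245 11 (.s k13 k9 1 (.s k89 k241 13 (.s k93 k81 1 (.d k253 k173 k169 11 13))))),
  (.s k3 k2 0 (.s k5 k245 11 (.s k9 k13 1 (.s k6 k12 2 (.s k7 k4 0 (.d k15 k11 k10 1 2)))))), (.s k3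
  k2 0 (.s k169 k253 13 (.s k161 k173 1 (.s k240 k82 12 (.s k80 k160 11 (.d k90 k95 k15 2 14))))))]
  (.c k13 (.l (.s k3 k2 0 (.s k5 k245 11 (.s k15 k10 2 (.s k7 k11 1 (.s k86 k244 12 (.d k169 k253
  k252 13 14))))))) .n))

def s170_175_32 : T TT 256 :=
  (.q k101 [(.s k5 k245 11 (.s k37 k229 7 (.s k53 k21 3 (.s k69 k117 3 (.d k197 k133 k149 7 11))))),
  (.s k69 k117 3 (.s k207 k138 10 (.s k229 k37 7 (.s k240 k218 6 (.s k80 k160 11 (.d k90 k95 k15 2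
  14)))))), (.s k5 k245 11 (.s k15 k10 2 (.s k69 k117 3 (.s k90 k240 14 (.s k79 k112 6 (.d k207 k143
  k138 7 10)))))), (.s k5 k245 11 (.s k15 k10 2 (.s k37 k229 7 (.s k48 k26 6 (.s k90 k240 14 (.s k79
  k112 6 (.d k207 k143 k154 7 14)))))))] .n)

def s170_175_33 : T TT 256 :=
  (.q k1 [(.s k5 k245 11 (.s k13 k9 1 (.s k89 k241 13 (.s k93 k81 1 (.d k253 k173 k169 11 13))))),
  (.s k3 k2 0 (.s k5 k245 11 (.s k9 k13 1 (.s k6 k12 2 (.s k7 k4 0 (.d k15 k11 k10 1 2)))))), (.s k3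
  k2 0 (.s k169 k253 13 (.s k161 k173 1 (.s k240 k82 12 (.s k80 k160 11 (.d k90 k95 k15 2 14))))))]
  (.c k13 (.l (.s k3 k2 0 (.s k5 k245 11 (.s k15 k10 2 (.s k7 k11 1 (.s k86 k244 12 (.d k169 k253
  k252 13 14))))))) .n))

def s170_175_34 : T TT 256 :=
  (.f k5 k245 11 (.q k69 [(.s k101 k117 3 (.s k37 k229 7 (.s k53 k21 3 (.d k197 k133 k149 7 11)))),
  (.s k15 k10 2 (.s k90 k240 14 (.s k207 k138 10 (.s k79 k143 7 (.d k101 k117 k112 3 6))))), (.s k15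
  k10 2 (.s k133 k197 7 (.s k74 k192 10 (.s k79 k64 2 (.d k207 k143 k138 7 10)))))] (.c k102 (.q
  k238 [(.s k101 k117 3 (.s k37 k229 7 (.s k53 k21 3 (.d k197 k133 k149 7 11)))), (.s k15 k10 2 (.s
  k90 k240 14 (.s k207 k138 10 (.s k79 k143 7 (.d k101 k117 k112 3 6))))), (.s k15 k10 2 (.s k133
  k197 7 (.s k74 k192 10 (.s k79 k64 2 (.d k207 k143 k138 7 10)))))] (.c k133 (.l (.s k15 k10 2 (.s
  k90 k240 14 (.s k101 k117 3 (.s k79 k112 6 (.d k207 k143 k138 7 10)))))) .n)) (.c k133 (.l (.s k15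
  k10 2 (.s k90 k240 14 (.s k101 k117 3 (.s k79 k112 6 (.d k207 k143 k138 7 10)))))) (.c k238 (.q
  k102 [(.s k101 k117 3 (.s k37 k229 7 (.s k53 k21 3 (.d k197 k133 k149 7 11)))), (.s k15 k10 2 (.s
  k39 k228 8 (.s k51 k27 5 (.s k68 k119 4 (.d k204 k136 k153 9 14)))))] .n) .n)))))

def s170_175_35 : T TT 256 :=
  (.q k1 [(.s k5 k245 11 (.s k13 k9 1 (.s k89 k241 13 (.s k93 k81 1 (.d k253 k173 k169 11 13))))),
  (.s k3 k2 0 (.s k5 k245 11 (.s k9 k13 1 (.s k6 k12 2 (.s k7 k4 0 (.d k15 k11 k10 1 2)))))), (.s k3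
  k2 0 (.s k169 k253 13 (.s k161 k173 1 (.s k240 k82 12 (.s k80 k160 11 (.d k90 k95 k15 2 14))))))]
  (.c k13 (.l (.s k3 k2 0 (.s k5 k245 11 (.s k15 k10 2 (.s k7 k11 1 (.s k86 k244 12 (.d k169 k253
  k252 13 14))))))) .n))

def s170_175_36 : T TT 256 :=
  (.q k1 [(.s k5 k245 11 (.s k13 k9 1 (.s k89 k241 13 (.s k93 k81 1 (.d k253 k173 k169 11 13))))),
  (.s k3 k2 0 (.s k5 k245 11 (.s k9 k13 1 (.s k6 k12 2 (.s k7 k4 0 (.d k15 k11 k10 1 2)))))), (.s k3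
  k2 0 (.s k169 k253 13 (.s k161 k173 1 (.s k240 k82 12 (.s k80 k160 11 (.d k90 k95 k15 2 14))))))]
  (.c k13 (.l (.s k3 k2 0 (.s k5 k245 11 (.s k15 k10 2 (.s k7 k11 1 (.s k86 k244 12 (.d k169 k253
  k252 13 14))))))) .n))

def s170_175_37 : T TT 256 :=
  (.q k1 [(.s k5 k245 11 (.s k13 k9 1 (.s k89 k241 13 (.s k93 k81 1 (.d k253 k173 k169 11 13))))),
  (.s k3 k2 0 (.s k5 k245 11 (.s k9 k13 1 (.s k6 k12 2 (.s k7 k4 0 (.d k15 k11 k10 1 2)))))), (.s k3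
  k2 0 (.s k169 k253 13 (.s k161 k173 1 (.s k240 k82 12 (.s k80 k160 11 (.d k90 k95 k15 2 14))))))]
  (.c k13 (.l (.s k3 k2 0 (.s k5 k245 11 (.s k15 k10 2 (.s k7 k11 1 (.s k86 k244 12 (.d k169 k253
  k252 13 14))))))) .n))

def s170_175_38 : T TT 256 :=
  (.q k1 [(.s k5 k245 11 (.s k13 k9 1 (.s k89 k241 13 (.s k93 k81 1 (.d k253 k173 k169 11 13))))),
  (.s k3 k2 0 (.s k5 k245 11 (.s k9 k13 1 (.s k6 k12 2 (.s k7 k4 0 (.d k15 k11 k10 1 2)))))), (.s k3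
  k2 0 (.s k169 k253 13 (.s k161 k173 1 (.s k240 k82 12 (.s k80 k160 11 (.d k90 k95 k15 2 14))))))]
  (.c k13 (.l (.s k3 k2 0 (.s k5 k245 11 (.s k15 k10 2 (.s k7 k11 1 (.s k86 k244 12 (.d k169 k253
  k252 13 14))))))) .n))

def s170_175_39 : T TT 256 :=
  (.q k1 [(.s k5 k245 11 (.s k13 k9 1 (.s k89 k241 13 (.s k93 k81 1 (.d k253 k173 k169 11 13))))),
  (.s k3 k2 0 (.s k5 k245 11 (.s k9 k13 1 (.s k6 k12 2 (.s k7 k4 0 (.d k15 k11 k10 1 2)))))), (.s k3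
  k2 0 (.s k169 k253 13 (.s k161 k173 1 (.s k240 k82 12 (.s k80 k160 11 (.d k90 k95 k15 2 14))))))]
  (.c k13 (.l (.s k3 k2 0 (.s k5 k245 11 (.s k15 k10 2 (.s k7 k11 1 (.s k86 k244 12 (.d k169 k253
  k252 13 14))))))) .n))

def s170_175_40 : T TT 256 :=
  (.f k5 k245 11 (.q k69 [(.s k101 k117 3 (.s k37 k229 7 (.s k53 k21 3 (.d k197 k133 k149 7 11)))),
  (.s k15 k10 2 (.s k90 k240 14 (.s k207 k138 10 (.s k79 k143 7 (.d k101 k117 k112 3 6))))), (.s k15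
  k10 2 (.s k133 k197 7 (.s k74 k192 10 (.s k79 k64 2 (.d k207 k143 k138 7 10)))))] (.c k105 (.q
  k235 [(.s k101 k117 3 (.s k37 k229 7 (.s k53 k21 3 (.d k197 k133 k149 7 11)))), (.s k15 k10 2 (.s
  k90 k240 14 (.s k207 k138 10 (.s k79 k143 7 (.d k101 k117 k112 3 6))))), (.s k15 k10 2 (.s k133
  k197 7 (.s k74 k192 10 (.s k79 k64 2 (.d k207 k143 k138 7 10)))))] (.c k133 (.l (.s k15 k10 2 (.s
  k90 k240 14 (.s k101 k117 3 (.s k79 k112 6 (.d k207 k143 k138 7 10)))))) .n)) (.c k133 (.l (.s k15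
  k10 2 (.s k90 k240 14 (.s k101 k117 3 (.s k79 k112 6 (.d k207 k143 k138 7 10)))))) (.c k235 (.q
  k105 [(.s k101 k117 3 (.s k37 k229 7 (.s k53 k21 3 (.d k197 k133 k149 7 11)))), (.s k15 k10 2 (.s
  k45 k225 9 (.s k60 k30 4 (.s k65 k125 5 (.d k195 k130 k150 8 14)))))] .n) .n)))))

def s170_175_41 : T TT 256 :=
  (.q k1 [(.s k5 k245 11 (.s k13 k9 1 (.s k89 k241 13 (.s k93 k81 1 (.d k253 k173 k169 11 13))))),
  (.s k3 k2 0 (.s k5 k245 11 (.s k9 k13 1 (.s k6 k12 2 (.s k7 k4 0 (.d k15 k11 k10 1 2)))))), (.s k3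
  k2 0 (.s k169 k253 13 (.s k161 k173 1 (.s k240 k82 12 (.s k80 k160 11 (.d k90 k95 k15 2 14))))))]
  (.c k13 (.l (.s k3 k2 0 (.s k5 k245 11 (.s k15 k10 2 (.s k7 k11 1 (.s k86 k244 12 (.d k169 k253
  k252 13 14))))))) .n))

def s170_175_42 : T TT 256 :=
  (.f k5 k245 11 (.q k106 [(.s k15 k10 2 (.s k47 k224 10 (.s k63 k31 3 (.s k64 k127 6 (.d k192 k128
  k149 7 14))))), (.s k64 k127 6 (.s k192 k128 7 (.s k149 k63 14 (.s k133 k181 3 (.s k69 k197 7 (.d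
  k74 k79 k15 2 10)))))), (.s k15 k10 2 (.s k47 k224 10 (.s k63 k31 3 (.s k90 k240 14 (.s k74 k122 3
  (.d k192 k133 k149 10 14)))))), (.s k15 k10 2 (.s k64 k127 6 (.s k90 k240 14 (.s k74 k122 3 (.s
  k79 k69 2 (.s k80 k95 2 (.d k112 k96 k101 3 6)))))))] (.c k15 (.l (.s k64 k127 6 (.s k192 k128 7
  (.s k149 k63 14 (.s k21 k213 7 (.s k53 k37 3 (.s k133 k181 3 (.d k197 k69 k101 7 11)))))))) (.c
  k63 (.l (.s k15 k10 2 (.s k64 k127 6 (.s k90 k240 14 (.s k192 k128 7 (.d k74 k122 k133 3 10))))))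
  .n))))

def s170_175_43 : T TT 256 :=
  (.q k1 [(.s k5 k245 11 (.s k13 k9 1 (.s k89 k241 13 (.s k93 k81 1 (.d k253 k173 k169 11 13))))),
  (.s k3 k2 0 (.s k5 k245 11 (.s k9 k13 1 (.s k6 k12 2 (.s k7 k4 0 (.d k15 k11 k10 1 2)))))), (.s k3
  k2 0 (.s k169 k253 13 (.s k161 k173 1 (.s k240 k82 12 (.s k80 k160 11 (.d k90 k95 k15 2 14))))))]
  (.c k13 (.l (.s k3 k2 0 (.s k5 k245 11 (.s k15 k10 2 (.s k7 k11 1 (.s k86 k244 12 (.d k169 k253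
  k252 13 14))))))) .n))

def s170_175_44 : T TT 256 :=
  (.q k1 [(.s k5 k245 11 (.s k13 k9 1 (.s k89 k241 13 (.s k93 k81 1 (.d k253 k173 k169 11 13))))),
  (.s k3 k2 0 (.s k5 k245 11 (.s k9 k13 1 (.s k6 k12 2 (.s k7 k4 0 (.d k15 k11 k10 1 2)))))), (.s k3
  k2 0 (.s k169 k253 13 (.s k161 k173 1 (.s k240 k82 12 (.s k80 k160 11 (.d k90 k95 k15 2 14))))))]
  (.c k13 (.l (.s k3 k2 0 (.s k5 k245 11 (.s k15 k10 2 (.s k7 k11 1 (.s k86 k244 12 (.d k169 k253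
  k252 13 14))))))) .n))

def s170_175_45 : T TT 256 :=
  (.q k1 [(.s k5 k245 11 (.s k13 k9 1 (.s k89 k241 13 (.s k93 k81 1 (.d k253 k173 k169 11 13))))),
  (.s k3 k2 0 (.s k5 k245 11 (.s k9 k13 1 (.s k6 k12 2 (.s k7 k4 0 (.d k15 k11 k10 1 2)))))), (.s k3
  k2 0 (.s k169 k253 13 (.s k161 k173 1 (.s k240 k82 12 (.s k80 k160 11 (.d k90 k95 k15 2 14))))))]
  (.c k13 (.l (.s k3 k2 0 (.s k5 k245 11 (.s k15 k10 2 (.s k7 k11 1 (.s k86 k244 12 (.d k169 k253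
  k252 13 14))))))) .n))

def s170_175_46 : T TT 256 :=
  (.q k1 [(.s k5 k245 11 (.s k13 k9 1 (.s k89 k241 13 (.s k93 k81 1 (.d k253 k173 k169 11 13))))),
  (.s k3 k2 0 (.s k5 k245 11 (.s k9 k13 1 (.s k6 k12 2 (.s k7 k4 0 (.d k15 k11 k10 1 2)))))), (.s k3
  k2 0 (.s k169 k253 13 (.s k161 k173 1 (.s k240 k82 12 (.s k80 k160 11 (.d k90 k95 k15 2 14))))))]
  (.c k13 (.l (.s k3 k2 0 (.s k5 k245 11 (.s k15 k10 2 (.s k7 k11 1 (.s k86 k244 12 (.d k169 k253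
  k252 13 14))))))) .n))

def s170_175_47 : T TT 256 :=
  (.f k5 k245 11 (.q k207 [(.s k15 k10 2 (.s k143 k79 7 (.s k154 k176 6 (.s k16 k223 10 (.d k48 k32
  k101 3 14))))), (.s k69 k138 10 (.s k101 k117 3 (.s k37 k229 7 (.s k53 k21 3 (.d k197 k133 k149 7
  11)))))] (.c k101 (.l (.s k15 k10 2 (.s k69 k138 10 (.s k79 k143 7 (.s k74 k64 2 (.d k133 k197
  k192 7 10)))))) (.c k111 (.q k239 [(.s k69 k138 10 (.s k101 k117 3 (.s k154 k48 14 (.d k223 k255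
  k16 3 10)))), (.s k15 k10 2 (.s k143 k79 7 (.s k154 k176 6 (.d k223 k255 k16 3 10)))), (.s k15 k10
  2 (.s k69 k138 10 (.s k79 k143 7 (.s k74 k64 2 (.d k133 k197 k192 7 10)))))] (.c k154 (.l (.s k15
  k10 2 (.s k79 k143 7 (.s k90 k240 14 (.s k101 k112 6 (.d k69 k117 k138 3 10)))))) .n)) (.c k154
  (.l (.s k15 k10 2 (.s k79 k143 7 (.s k90 k240 14 (.s k101 k112 6 (.d k69 k117 k138 3 10)))))) (.c
  k239 (.q k111 [(.s k15 k10 2 (.s k90 k240 14 (.s k95 k80 2 (.d k79 k127 k143 3 7)))), (.s k63 k159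
  11 (.s k21 k42 6 (.s k37 k53 3 (.s k69 k138 10 (.d k101 k117 k229 3 7)))))] (.c k32 (.q k101 [(.d
  k69 k117 k138 3 10), (.s k15 k10 2 (.s k37 k229 7 (.d k48 k26 k154 6 14)))] (.c k37 (.q k42 [(.d
  k63 k21 k159 6 11), (.d k69 k117 k138 3 10)] .n) (.c k42 (.l (.s k37 k229 7 (.d k69 k117 k138 3
  10))) .n))) (.c k101 (.q k32 [(.s k16 k48 3 (.s k154 k223 10 (.s k143 k176 6 (.d k15 k10 k79 2
  7)))), (.s k48 k16 3 (.s k63 k159 11 (.s k21 k42 6 (.d k53 k58 k37 2 3)))), (.s k15 k10 2 (.s k79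
  k143 7 (.s k90 k240 14 (.d k95 k80 k127 2 3))))] (.c k143 (.l (.s k15 k10 2 (.s k48 k16 3 (.s k37
  k26 6 (.s k21 k53 3 (.d k63 k42 k159 6 11)))))) .n)) (.c k143 (.l (.s k15 k10 2 (.s k69 k138 10
  (.s k101 k117 3 (.s k37 k229 7 (.d k48 k154 k26 14 6)))))) .n)))) .n))))))

def s170_175_48 : T TT 256 :=
  (.q k1 [(.s k5 k245 11 (.s k13 k9 1 (.s k89 k241 13 (.s k93 k81 1 (.d k253 k173 k169 11 13))))),
  (.s k3 k2 0 (.s k5 k245 11 (.s k9 k13 1 (.s k6 k12 2 (.s k7 k4 0 (.d k15 k11 k10 1 2)))))), (.s k3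
  k2 0 (.s k169 k253 13 (.s k161 k173 1 (.s k240 k82 12 (.s k80 k160 11 (.d k90 k95 k15 2 14))))))]
  (.c k13 (.l (.s k3 k2 0 (.s k5 k245 11 (.s k15 k10 2 (.s k7 k11 1 (.s k86 k244 12 (.d k169 k253
  k252 13 14))))))) .n))

def s170_175_49 : T TT 256 :=
  (.q k1 [(.s k5 k245 11 (.s k13 k9 1 (.s k89 k241 13 (.s k93 k81 1 (.d k253 k173 k169 11 13))))),
  (.s k3 k2 0 (.s k5 k245 11 (.s k9 k13 1 (.s k6 k12 2 (.s k7 k4 0 (.d k15 k11 k10 1 2)))))), (.s k3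
  k2 0 (.s k169 k253 13 (.s k161 k173 1 (.s k240 k82 12 (.s k80 k160 11 (.d k90 k95 k15 2 14))))))]
  (.c k13 (.l (.s k3 k2 0 (.s k5 k245 11 (.s k15 k10 2 (.s k7 k11 1 (.s k86 k244 12 (.d k169 k253
  k252 13 14))))))) .n))

def s170_175_50 : T TT 256 :=
  (.q k1 [(.s k5 k245 11 (.s k13 k9 1 (.s k89 k241 13 (.s k93 k81 1 (.d k253 k173 k169 11 13))))),
  (.s k3 k2 0 (.s k5 k245 11 (.s k9 k13 1 (.s k6 k12 2 (.s k7 k4 0 (.d k15 k11 k10 1 2)))))), (.s k3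
  k2 0 (.s k169 k253 13 (.s k161 k173 1 (.s k240 k82 12 (.s k80 k160 11 (.d k90 k95 k15 2 14))))))]
  (.c k13 (.l (.s k3 k2 0 (.s k5 k245 11 (.s k15 k10 2 (.s k7 k11 1 (.s k86 k244 12 (.d k169 k253
  k252 13 14))))))) .n))

def s170_175_51 : T TT 256 :=
  (.q k1 [(.s k5 k245 11 (.s k13 k9 1 (.s k89 k241 13 (.s k93 k81 1 (.d k253 k173 k169 11 13))))),
  (.s k3 k2 0 (.s k5 k245 11 (.s k9 k13 1 (.s k6 k12 2 (.s k7 k4 0 (.d k15 k11 k10 1 2)))))), (.s k3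
  k2 0 (.s k169 k253 13 (.s k161 k173 1 (.s k240 k82 12 (.s k80 k160 11 (.d k90 k95 k15 2 14))))))]
  (.c k13 (.l (.s k3 k2 0 (.s k5 k245 11 (.s k15 k10 2 (.s k7 k11 1 (.s k86 k244 12 (.d k169 k253
  k252 13 14))))))) .n))

def s170_175_52 : T TT 256 :=
  (.q k1 [(.s k5 k245 11 (.s k13 k9 1 (.s k89 k241 13 (.s k93 k81 1 (.d k253 k173 k169 11 13))))),
  (.s k3 k2 0 (.s k5 k245 11 (.s k9 k13 1 (.s k6 k12 2 (.s k7 k4 0 (.d k15 k11 k10 1 2)))))), (.s k3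
  k2 0 (.s k169 k253 13 (.s k161 k173 1 (.s k240 k82 12 (.s k80 k160 11 (.d k90 k95 k15 2 14))))))]
  (.c k13 (.l (.s k3 k2 0 (.s k5 k245 11 (.s k15 k10 2 (.s k7 k11 1 (.s k86 k244 12 (.d k169 k253
  k252 13 14))))))) .n))

def s170_175_53 : T TT 256 :=
  (.q k1 [(.s k5 k245 11 (.s k13 k9 1 (.s k89 k241 13 (.s k93 k81 1 (.d k253 k173 k169 11 13))))),
  (.s k3 k2 0 (.s k169 k253 13 (.s k161 k173 1 (.s k240 k82 12 (.s k80 k160 11 (.d k90 k95 k15 2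
  14)))))), (.s k3 k2 0 (.s k5 k245 11 (.s k9 k13 1 (.s k6 k12 2 (.s k7 k4 0 (.d k15 k11 k10 1
  2))))))] (.c k13 (.l (.s k3 k2 0 (.s k5 k245 11 (.s k15 k10 2 (.s k7 k11 1 (.s k86 k244 12 (.d
  k169 k253 k252 13 14))))))) .n))

def s170_175_54 : T TT 256 :=
  (.q k1 [(.s k5 k245 11 (.s k13 k9 1 (.s k89 k241 13 (.s k93 k81 1 (.d k253 k173 k169 11 13))))),
  (.s k3 k2 0 (.s k5 k245 11 (.s k9 k13 1 (.s k6 k12 2 (.s k7 k4 0 (.d k15 k11 k10 1 2)))))), (.s k3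
  k2 0 (.s k169 k253 13 (.s k161 k173 1 (.s k240 k82 12 (.s k80 k160 11 (.d k90 k95 k15 2 14))))))]
  (.c k13 (.l (.s k3 k2 0 (.s k5 k245 11 (.s k15 k10 2 (.s k7 k11 1 (.s k86 k244 12 (.d k169 k253
  k252 13 14))))))) .n))

def s170_175_55 : T TT 256 :=
  (.q k1 [(.s k5 k245 11 (.s k13 k9 1 (.s k89 k241 13 (.s k93 k81 1 (.d k253 k173 k169 11 13))))),
  (.s k3 k2 0 (.s k5 k245 11 (.s k9 k13 1 (.s k6 k12 2 (.s k7 k4 0 (.d k15 k11 k10 1 2)))))), (.s k3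
  k2 0 (.s k169 k253 13 (.s k161 k173 1 (.s k240 k82 12 (.s k80 k160 11 (.d k90 k95 k15 2 14))))))]
  (.c k13 (.l (.s k3 k2 0 (.s k5 k245 11 (.s k15 k10 2 (.s k7 k11 1 (.s k86 k244 12 (.d k169 k253
  k252 13 14))))))) .n))

def s170_175_56 : T TT 256 :=
  (.q k1 [(.s k5 k245 11 (.s k13 k9 1 (.s k89 k241 13 (.s k93 k81 1 (.d k253 k173 k169 11 13))))),
  (.s k3 k2 0 (.s k5 k245 11 (.s k9 k13 1 (.s k6 k12 2 (.s k7 k4 0 (.d k15 k11 k10 1 2)))))), (.s k3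
  k2 0 (.s k169 k253 13 (.s k161 k173 1 (.s k240 k82 12 (.s k80 k160 11 (.d k90 k95 k15 2 14))))))]
  (.c k13 (.l (.s k3 k2 0 (.s k5 k245 11 (.s k15 k10 2 (.s k7 k11 1 (.s k86 k244 12 (.d k169 k253
  k252 13 14))))))) .n))

def s170_175_57 : T TT 256 :=
  (.q k1 [(.s k5 k245 11 (.s k13 k9 1 (.s k89 k241 13 (.s k93 k81 1 (.d k253 k173 k169 11 13))))),
  (.s k3 k2 0 (.s k5 k245 11 (.s k9 k13 1 (.s k6 k12 2 (.s k7 k4 0 (.d k15 k11 k10 1 2)))))), (.s k3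
  k2 0 (.s k169 k253 13 (.s k161 k173 1 (.s k240 k82 12 (.s k80 k160 11 (.d k90 k95 k15 2 14))))))]
  (.c k13 (.l (.s k3 k2 0 (.s k5 k245 11 (.s k15 k10 2 (.s k7 k11 1 (.s k86 k244 12 (.d k169 k253
  k252 13 14))))))) .n))

def s170_175_58 : T TT 256 :=
  (.q k1 [(.s k5 k245 11 (.s k13 k9 1 (.s k89 k241 13 (.s k93 k81 1 (.d k253 k173 k169 11 13))))),
  (.s k3 k2 0 (.s k5 k245 11 (.s k9 k13 1 (.s k6 k12 2 (.s k7 k4 0 (.d k15 k11 k10 1 2)))))), (.s k3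
  k2 0 (.s k169 k253 13 (.s k161 k173 1 (.s k240 k82 12 (.s k80 k160 11 (.d k90 k95 k15 2 14))))))]
  (.c k13 (.l (.s k3 k2 0 (.s k5 k245 11 (.s k15 k10 2 (.s k7 k11 1 (.s k86 k244 12 (.d k169 k253
  k252 13 14))))))) .n))

def s170_175_59 : T TT 256 :=
  (.q k1 [(.s k5 k245 11 (.s k13 k9 1 (.s k89 k241 13 (.s k93 k81 1 (.d k253 k173 k169 11 13))))),
  (.s k3 k2 0 (.s k5 k245 11 (.s k9 k13 1 (.s k6 k12 2 (.s k7 k4 0 (.d k15 k11 k10 1 2)))))), (.s k3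
  k2 0 (.s k169 k253 13 (.s k161 k173 1 (.s k240 k82 12 (.s k80 k160 11 (.d k90 k95 k15 2 14))))))]
  (.c k13 (.l (.s k3 k2 0 (.s k5 k245 11 (.s k15 k10 2 (.s k7 k11 1 (.s k86 k244 12 (.d k169 k253
  k252 13 14))))))) .n))

def s170_175_60 : T TT 256 :=
  (.q k1 [(.s k5 k245 11 (.s k13 k9 1 (.s k89 k241 13 (.s k93 k81 1 (.d k253 k173 k169 11 13))))),
  (.s k3 k2 0 (.s k5 k245 11 (.s k9 k13 1 (.s k6 k12 2 (.s k7 k4 0 (.d k15 k11 k10 1 2)))))), (.s k3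
  k2 0 (.s k169 k253 13 (.s k161 k173 1 (.s k240 k82 12 (.s k80 k160 11 (.d k90 k95 k15 2 14))))))]
  (.c k13 (.l (.s k3 k2 0 (.s k5 k245 11 (.s k15 k10 2 (.s k7 k11 1 (.s k86 k244 12 (.d k169 k253
  k252 13 14))))))) .n))

def s170_175_61 : T TT 256 :=
  (.q k1 [(.s k5 k245 11 (.s k13 k9 1 (.s k89 k241 13 (.s k93 k81 1 (.d k253 k173 k169 11 13))))),
  (.s k3 k2 0 (.s k5 k245 11 (.s k9 k13 1 (.s k6 k12 2 (.s k7 k4 0 (.d k15 k11 k10 1 2)))))), (.s k3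
  k2 0 (.s k169 k253 13 (.s k161 k173 1 (.s k240 k82 12 (.s k80 k160 11 (.d k90 k95 k15 2 14))))))]
  (.c k13 (.l (.s k3 k2 0 (.s k5 k245 11 (.s k15 k10 2 (.s k7 k11 1 (.s k86 k244 12 (.d k169 k253
  k252 13 14))))))) .n))

def s170_175_62 : T TT 256 :=
  (.q k1 [(.s k5 k245 11 (.s k13 k9 1 (.s k89 k241 13 (.s k93 k81 1 (.d k253 k173 k169 11 13))))),
  (.s k3 k2 0 (.s k5 k245 11 (.s k9 k13 1 (.s k6 k12 2 (.s k7 k4 0 (.d k15 k11 k10 1 2)))))), (.s k3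
  k2 0 (.s k169 k253 13 (.s k161 k173 1 (.s k240 k82 12 (.s k80 k160 11 (.d k90 k95 k15 2 14))))))]
  (.c k13 (.l (.s k3 k2 0 (.s k5 k245 11 (.s k15 k10 2 (.s k7 k11 1 (.s k86 k244 12 (.d k169 k253
  k252 13 14))))))) .n))

def s170_175_63 : T TT 256 :=
  (.q k1 [(.s k5 k245 11 (.s k13 k9 1 (.s k89 k241 13 (.s k93 k81 1 (.d k253 k173 k169 11 13))))),
  (.s k3 k2 0 (.s k5 k245 11 (.s k9 k13 1 (.s k6 k12 2 (.s k7 k4 0 (.d k15 k11 k10 1 2)))))), (.s k3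
  k2 0 (.s k169 k253 13 (.s k161 k173 1 (.s k240 k82 12 (.s k80 k160 11 (.d k90 k95 k15 2 14))))))]
  (.c k13 (.l (.s k3 k2 0 (.s k5 k245 11 (.s k15 k10 2 (.s k7 k11 1 (.s k86 k244 12 (.d k169 k253
  k252 13 14))))))) .n))

def s170_175_64 : T TT 256 :=
  (.q k1 [(.s k5 k245 11 (.s k13 k9 1 (.s k89 k241 13 (.s k93 k81 1 (.d k253 k173 k169 11 13))))),
  (.s k3 k2 0 (.s k5 k245 11 (.s k9 k13 1 (.s k6 k12 2 (.s k7 k4 0 (.d k15 k11 k10 1 2)))))), (.s k3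
  k2 0 (.s k169 k253 13 (.s k161 k173 1 (.s k240 k82 12 (.s k80 k160 11 (.d k90 k95 k15 2 14))))))]
  (.c k13 (.l (.s k3 k2 0 (.s k5 k245 11 (.s k15 k10 2 (.s k7 k11 1 (.s k86 k244 12 (.d k169 k253
  k252 13 14))))))) .n))

def s170_175_65 : T TT 256 :=
  (.q k1 [(.s k5 k245 11 (.s k13 k9 1 (.s k89 k241 13 (.s k93 k81 1 (.d k253 k173 k169 11 13))))),
  (.s k3 k2 0 (.s k5 k245 11 (.s k9 k13 1 (.s k6 k12 2 (.s k7 k4 0 (.d k15 k11 k10 1 2)))))), (.s k3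
  k2 0 (.s k169 k253 13 (.s k161 k173 1 (.s k240 k82 12 (.s k80 k160 11 (.d k90 k95 k15 2 14))))))]
  (.c k13 (.l (.s k3 k2 0 (.s k5 k245 11 (.s k15 k10 2 (.s k7 k11 1 (.s k86 k244 12 (.d k169 k253
  k252 13 14))))))) .n))

def s170_175_66 : T TT 256 :=
  (.q k1 [(.s k5 k245 11 (.s k13 k9 1 (.s k89 k241 13 (.s k93 k81 1 (.d k253 k173 k169 11 13))))),
  (.s k3 k2 0 (.s k5 k245 11 (.s k9 k13 1 (.s k6 k12 2 (.s k7 k4 0 (.d k15 k11 k10 1 2)))))), (.s k3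
  k2 0 (.s k169 k253 13 (.s k161 k173 1 (.s k240 k82 12 (.s k80 k160 11 (.d k90 k95 k15 2 14))))))]
  (.c k13 (.l (.s k3 k2 0 (.s k5 k245 11 (.s k15 k10 2 (.s k7 k11 1 (.s k86 k244 12 (.d k169 k253
  k252 13 14))))))) .n))

def s170_175_67 : T TT 256 :=
  (.q k1 [(.s k5 k245 11 (.s k13 k9 1 (.s k89 k241 13 (.s k93 k81 1 (.d k253 k173 k169 11 13))))),
  (.s k3 k2 0 (.s k5 k245 11 (.s k9 k13 1 (.s k6 k12 2 (.s k7 k4 0 (.d k15 k11 k10 1 2)))))), (.s k3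
  k2 0 (.s k169 k253 13 (.s k161 k173 1 (.s k240 k82 12 (.s k80 k160 11 (.d k90 k95 k15 2 14))))))]
  (.c k13 (.l (.s k3 k2 0 (.s k5 k245 11 (.s k15 k10 2 (.s k7 k11 1 (.s k86 k244 12 (.d k169 k253
  k252 13 14))))))) .n))

def s170_175_68 : T TT 256 :=
  (.q k1 [(.s k5 k245 11 (.s k13 k9 1 (.s k89 k241 13 (.s k93 k81 1 (.d k253 k173 k169 11 13))))),
  (.s k3 k2 0 (.s k5 k245 11 (.s k9 k13 1 (.s k6 k12 2 (.s k7 k4 0 (.d k15 k11 k10 1 2)))))), (.s k3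
  k2 0 (.s k169 k253 13 (.s k161 k173 1 (.s k240 k82 12 (.s k80 k160 11 (.d k90 k95 k15 2 14))))))]
  (.c k13 (.l (.s k3 k2 0 (.s k5 k245 11 (.s k15 k10 2 (.s k7 k11 1 (.s k86 k244 12 (.d k169 k253
  k252 13 14))))))) .n))

def s170_175_69 : T TT 256 :=
  (.q k1 [(.s k5 k245 11 (.s k13 k9 1 (.s k89 k241 13 (.s k93 k81 1 (.d k253 k173 k169 11 13))))),
  (.s k3 k2 0 (.s k5 k245 11 (.s k9 k13 1 (.s k6 k12 2 (.s k7 k4 0 (.d k15 k11 k10 1 2)))))), (.s k3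
  k2 0 (.s k169 k253 13 (.s k161 k173 1 (.s k240 k82 12 (.s k80 k160 11 (.d k90 k95 k15 2 14))))))]
  (.c k13 (.l (.s k3 k2 0 (.s k5 k245 11 (.s k15 k10 2 (.s k7 k11 1 (.s k86 k244 12 (.d k169 k253
  k252 13 14))))))) .n))

def s170_175_70 : T TT 256 :=
  (.q k1 [(.s k5 k245 11 (.s k13 k9 1 (.s k89 k241 13 (.s k93 k81 1 (.d k253 k173 k169 11 13))))),
  (.s k3 k2 0 (.s k5 k245 11 (.s k9 k13 1 (.s k6 k12 2 (.s k7 k4 0 (.d k15 k11 k10 1 2)))))), (.s k3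
  k2 0 (.s k169 k253 13 (.s k161 k173 1 (.s k240 k82 12 (.s k80 k160 11 (.d k90 k95 k15 2 14))))))]
  (.c k13 (.l (.s k3 k2 0 (.s k5 k245 11 (.s k15 k10 2 (.s k7 k11 1 (.s k86 k244 12 (.d k169 k253
  k252 13 14))))))) .n))

def s170_175_71 : T TT 256 :=
  (.q k1 [(.s k5 k245 11 (.s k13 k9 1 (.s k89 k241 13 (.s k93 k81 1 (.d k253 k173 k169 11 13))))),
  (.s k3 k2 0 (.s k5 k245 11 (.s k9 k13 1 (.s k6 k12 2 (.s k7 k4 0 (.d k15 k11 k10 1 2)))))), (.s k3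
  k2 0 (.s k169 k253 13 (.s k161 k173 1 (.s k240 k82 12 (.s k80 k160 11 (.d k90 k95 k15 2 14))))))]
  (.c k13 (.l (.s k3 k2 0 (.s k5 k245 11 (.s k15 k10 2 (.s k7 k11 1 (.s k86 k244 12 (.d k169 k253
  k252 13 14))))))) .n))

def s170_175_72 : T TT 256 :=
  (.q k1 [(.s k5 k245 11 (.s k13 k9 1 (.s k89 k241 13 (.s k93 k81 1 (.d k253 k173 k169 11 13))))),
  (.s k3 k2 0 (.s k5 k245 11 (.s k9 k13 1 (.s k6 k12 2 (.s k7 k4 0 (.d k15 k11 k10 1 2)))))), (.s k3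
  k2 0 (.s k169 k253 13 (.s k161 k173 1 (.s k240 k82 12 (.s k80 k160 11 (.d k90 k95 k15 2 14))))))]
  (.c k13 (.l (.s k3 k2 0 (.s k5 k245 11 (.s k15 k10 2 (.s k7 k11 1 (.s k86 k244 12 (.d k169 k253
  k252 13 14))))))) .n))

def s170_175_73 : T TT 256 :=
  (.q k1 [(.s k5 k245 11 (.s k13 k9 1 (.s k89 k241 13 (.s k93 k81 1 (.d k253 k173 k169 11 13))))),
  (.s k3 k2 0 (.s k5 k245 11 (.s k9 k13 1 (.s k6 k12 2 (.s k7 k4 0 (.d k15 k11 k10 1 2)))))), (.s k3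
  k2 0 (.s k169 k253 13 (.s k161 k173 1 (.s k240 k82 12 (.s k80 k160 11 (.d k90 k95 k15 2 14))))))]
  (.c k13 (.l (.s k3 k2 0 (.s k5 k245 11 (.s k15 k10 2 (.s k7 k11 1 (.s k86 k244 12 (.d k169 k253
  k252 13 14))))))) .n))

def s170_175_74 : T TT 256 :=
  (.q k1 [(.s k5 k245 11 (.s k13 k9 1 (.s k89 k241 13 (.s k93 k81 1 (.d k253 k173 k169 11 13))))),
  (.s k3 k2 0 (.s k5 k245 11 (.s k9 k13 1 (.s k6 k12 2 (.s k7 k4 0 (.d k15 k11 k10 1 2)))))), (.s k3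
  k2 0 (.s k169 k253 13 (.s k161 k173 1 (.s k240 k82 12 (.s k80 k160 11 (.d k90 k95 k15 2 14))))))]
  (.c k13 (.l (.s k3 k2 0 (.s k5 k245 11 (.s k15 k10 2 (.s k7 k11 1 (.s k86 k244 12 (.d k169 k253
  k252 13 14))))))) .n))

def s170_175_75 : T TT 256 :=
  (.q k1 [(.s k5 k245 11 (.s k13 k9 1 (.s k89 k241 13 (.s k93 k81 1 (.d k253 k173 k169 11 13))))),
  (.s k3 k2 0 (.s k5 k245 11 (.s k9 k13 1 (.s k6 k12 2 (.s k7 k4 0 (.d k15 k11 k10 1 2)))))), (.s k3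
  k2 0 (.s k169 k253 13 (.s k161 k173 1 (.s k240 k82 12 (.s k80 k160 11 (.d k90 k95 k15 2 14))))))]
  (.c k13 (.l (.s k3 k2 0 (.s k5 k245 11 (.s k15 k10 2 (.s k7 k11 1 (.s k86 k244 12 (.d k169 k253
  k252 13 14))))))) .n))

def s170_175_76 : T TT 256 :=
  (.q k1 [(.s k5 k245 11 (.s k13 k9 1 (.s k89 k241 13 (.s k93 k81 1 (.d k253 k173 k169 11 13))))),
  (.s k3 k2 0 (.s k5 k245 11 (.s k9 k13 1 (.s k6 k12 2 (.s k7 k4 0 (.d k15 k11 k10 1 2)))))), (.s k3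
  k2 0 (.s k169 k253 13 (.s k161 k173 1 (.s k240 k82 12 (.s k80 k160 11 (.d k90 k95 k15 2 14))))))]
  (.c k13 (.l (.s k3 k2 0 (.s k5 k245 11 (.s k15 k10 2 (.s k7 k11 1 (.s k86 k244 12 (.d k169 k253
  k252 13 14))))))) .n))

def s170_175_77 : T TT 256 :=
  (.q k1 [(.s k5 k245 11 (.s k13 k9 1 (.s k89 k241 13 (.s k93 k81 1 (.d k253 k173 k169 11 13))))),
  (.s k3 k2 0 (.s k5 k245 11 (.s k9 k13 1 (.s k6 k12 2 (.s k7 k4 0 (.d k15 k11 k10 1 2)))))), (.s k3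
  k2 0 (.s k169 k253 13 (.s k161 k173 1 (.s k240 k82 12 (.s k80 k160 11 (.d k90 k95 k15 2 14))))))]
  (.c k13 (.l (.s k3 k2 0 (.s k5 k245 11 (.s k15 k10 2 (.s k7 k11 1 (.s k86 k244 12 (.d k169 k253
  k252 13 14))))))) .n))

def s170_175_78 : T TT 256 :=
  (.q k1 [(.s k5 k245 11 (.s k13 k9 1 (.s k89 k241 13 (.s k93 k81 1 (.d k253 k173 k169 11 13))))),
  (.s k3 k2 0 (.s k5 k245 11 (.s k9 k13 1 (.s k6 k12 2 (.s k7 k4 0 (.d k15 k11 k10 1 2)))))), (.s k3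
  k2 0 (.s k169 k253 13 (.s k161 k173 1 (.s k240 k82 12 (.s k80 k160 11 (.d k90 k95 k15 2 14))))))]
  (.c k13 (.l (.s k3 k2 0 (.s k5 k245 11 (.s k15 k10 2 (.s k7 k11 1 (.s k86 k244 12 (.d k169 k253
  k252 13 14))))))) .n))

def s170_175_79 : T TT 256 :=
  (.q k1 [(.s k5 k245 11 (.s k13 k9 1 (.s k89 k241 13 (.s k93 k81 1 (.d k253 k173 k169 11 13))))),
  (.s k3 k2 0 (.s k5 k245 11 (.s k9 k13 1 (.s k6 k12 2 (.s k7 k4 0 (.d k15 k11 k10 1 2)))))), (.s k3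
  k2 0 (.s k169 k253 13 (.s k161 k173 1 (.s k240 k82 12 (.s k80 k160 11 (.d k90 k95 k15 2 14))))))]
  (.c k13 (.l (.s k3 k2 0 (.s k5 k245 11 (.s k15 k10 2 (.s k7 k11 1 (.s k86 k244 12 (.d k169 k253
  k252 13 14))))))) .n))

def s170_175_80 : T TT 256 :=
  (.q k1 [(.s k5 k245 11 (.s k13 k9 1 (.s k89 k241 13 (.s k93 k81 1 (.d k253 k173 k169 11 13))))),
  (.s k3 k2 0 (.s k5 k245 11 (.s k9 k13 1 (.s k6 k12 2 (.s k7 k4 0 (.d k15 k11 k10 1 2)))))), (.s k3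
  k2 0 (.s k169 k253 13 (.s k86 k252 14 (.s k7 k244 12 (.s k15 k11 1 (.s k161 k173 1 (.d k240 k82
  k90 12 14)))))))] (.c k13 (.l (.s k3 k2 0 (.s k5 k245 11 (.s k15 k10 2 (.s k7 k11 1 (.s k86 k244
  12 (.d k169 k253 k252 13 14))))))) .n))

def s170_175_81 : T TT 256 :=
  (.q k1 [(.s k3 k2 0 (.s k5 k245 11 (.s k9 k13 1 (.s k6 k12 2 (.s k7 k4 0 (.d k15 k11 k10 1
  2)))))), (.s k5 k245 11 (.s k15 k10 2 (.s k169 k253 13 (.s k173 k161 1 (.s k252 k94 12 (.s k84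
  k168 13 (.d k86 k87 k3 0 14))))))), (.s k3 k2 0 (.s k169 k253 13 (.s k161 k173 1 (.s k240 k82 12
  (.s k80 k160 11 (.d k90 k95 k15 2 14)))))), (.s k5 k245 11 (.s k13 k9 1 (.s k15 k10 2 (.s k12 k14
  0 (.s k89 k241 13 (.s k166 k243 14 (.d k4 k8 k247 1 12)))))))] (.c k15 (.l (.s k3 k2 0 (.s k5 k245
  11 (.s k9 k13 1 (.s k169 k253 13 (.s k86 k252 14 (.s k7 k244 12 (.d k6 k12 k4 2 0)))))))) .n))

def s170_175_82 : T TT 256 :=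
  (.q k4 [(.s k5 k245 11 (.s k7 k6 0 (.s k86 k244 12 (.s k87 k84 0 (.d k247 k167 k166 11 12))))),
  (.s k5 k245 11 (.s k6 k7 0 (.s k10 k15 2 (.s k2 k14 1 (.s k3 k1 0 (.d k12 k8 k9 1 2)))))), (.s k12
  k8 1 (.s k166 k247 12 (.s k164 k167 0 (.s k240 k88 13 (.s k80 k160 11 (.d k90 k95 k15 2 14))))))]
  (.c k7 (.l (.s k5 k245 11 (.s k12 k8 1 (.s k15 k10 2 (.s k13 k14 0 (.s k89 k241 13 (.d k166 k247
  k243 12 14))))))) .n))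

def s170_175_83 : T TT 256 :=
  (.q k1 [(.s k5 k245 11 (.s k13 k9 1 (.s k89 k241 13 (.s k93 k81 1 (.d k253 k173 k169 11 13))))),
  (.s k3 k2 0 (.s k5 k245 11 (.s k9 k13 1 (.s k6 k12 2 (.s k7 k4 0 (.d k15 k11 k10 1 2)))))), (.s k3
  k2 0 (.s k169 k253 13 (.s k161 k173 1 (.s k240 k82 12 (.s k80 k160 11 (.d k90 k95 k15 2 14))))))]
  (.c k13 (.l (.s k3 k2 0 (.s k5 k245 11 (.s k15 k10 2 (.s k7 k11 1 (.s k86 k244 12 (.d k169 k253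
  k252 13 14))))))) .n))

def s170_175_84 : T TT 256 :=
  (.q k1 [(.s k5 k245 11 (.s k13 k9 1 (.s k89 k241 13 (.s k93 k81 1 (.d k253 k173 k169 11 13))))),
  (.s k3 k2 0 (.s k5 k245 11 (.s k9 k13 1 (.s k6 k12 2 (.s k7 k4 0 (.d k15 k11 k10 1 2)))))), (.s k3
  k2 0 (.s k169 k253 13 (.s k161 k173 1 (.s k240 k82 12 (.s k80 k160 11 (.d k90 k95 k15 2 14))))))]
  (.c k13 (.l (.s k3 k2 0 (.s k5 k245 11 (.s k15 k10 2 (.s k7 k11 1 (.s k86 k244 12 (.d k169 k253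
  k252 13 14))))))) .n))

def s170_175_86 : T TT 256 :=
  (.f k5 k245 11 (.q k1 [(.s k13 k9 1 (.s k89 k241 13 (.s k93 k81 1 (.d k253 k173 k169 11 13)))),
  (.s k9 k13 1 (.s k10 k15 2 (.s k8 k11 0 (.s k12 k4 1 (.d k3 k2 k6 0 2))))), (.s k15 k10 2 (.s k90
  k240 14 (.s k169 k253 13 (.s k11 k248 12 (.d k3 k2 k7 0 1)))))] (.c k2 (.q k254 [(.s k13 k9 1 (.s
  k89 k241 13 (.s k93 k81 1 (.d k253 k173 k169 11 13)))), (.s k15 k10 2 (.s k253 k169 13 (.s k252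
  k255 0 (.s k173 k94 12 (.d k13 k9 k93 1 11))))), (.s k13 k9 1 (.s k15 k10 2 (.s k241 k89 13 (.s
  k81 k161 11 (.s k243 k162 12 (.d k240 k242 k90 0 14))))))] (.c k9 (.q k4 [(.s k12 k8 1 (.s k166
  k247 12 (.s k89 k243 14 (.s k81 k93 1 (.d k241 k161 k13 11 13))))), (.s k15 k10 2 (.s k90 k240 14
  (.s k169 k253 13 (.s k11 k248 12 (.d k7 k6 k3 0 1))))), (.s k166 k247 12 (.s k164 k167 0 (.s k253
  k169 13 (.s k252 k255 0 (.d k84 k244 k168 11 13))))), (.s k15 k10 2 (.s k169 k253 13 (.s k161 k173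
  1 (.s k241 k81 11 (.s k13 k89 13 (.d k12 k14 k8 0 1))))))] .n) (.c k13 (.q k4 [(.s k12 k8 1 (.s
  k15 k10 2 (.s k166 k247 12 (.s k167 k164 0 (.d k243 k89 k91 14 13))))), (.s k15 k10 2 (.s k90 k240
  14 (.s k169 k253 13 (.s k11 k248 12 (.d k7 k6 k3 0 1))))), (.s k6 k7 0 (.s k12 k8 1 (.s k166 k247
  12 (.s k89 k243 14 (.s k169 k253 13 (.d k9 k249 k3 11 2))))))] (.c k6 (.l (.s k12 k8 1 (.s k166
  k247 12 (.s k164 k167 0 (.s k240 k88 13 (.d k15 k10 k90 2 14)))))) (.c k244 (.l (.s k12 k8 1 (.s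
  k15 k10 2 (.s k169 k253 13 (.s k173 k161 1 (.s k252 k94 12 (.s k172 k92 11 (.d k166 k163 k247 2
  12)))))))) .n))) (.c k169 (.l (.s k13 k9 1 (.s k15 k10 2 (.s k89 k241 13 (.s k81 k93 1 (.s k243
  k162 12 (.d k12 k14 k166 0 14))))))) .n)))) (.c k254 (.l (.s k2 k3 0 (.s k13 k9 1 (.s k89 k241 13
  (.s k93 k81 1 (.d k253 k169 k173 13 11)))))) .n))))

def s170_175_87 : T TT 256 :=
  (.q k1 [(.s k5 k245 11 (.s k13 k9 1 (.s k89 k241 13 (.s k93 k81 1 (.d k253 k173 k169 11 13))))),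
  (.s k3 k2 0 (.s k5 k245 11 (.s k9 k13 1 (.s k6 k12 2 (.s k7 k4 0 (.d k15 k11 k10 1 2)))))), (.s k3
  k2 0 (.s k169 k253 13 (.s k161 k173 1 (.s k240 k82 12 (.s k80 k160 11 (.d k90 k95 k15 2 14))))))]
  (.c k13 (.l (.s k3 k2 0 (.s k5 k245 11 (.s k15 k10 2 (.s k7 k11 1 (.s k86 k244 12 (.d k169 k253
  k252 13 14))))))) .n))

def s170_175_88 : T TT 256 :=
  (.q k1 [(.s k5 k245 11 (.s k13 k9 1 (.s k89 k241 13 (.s k93 k81 1 (.d k253 k173 k169 11 13))))),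
  (.s k3 k2 0 (.s k5 k245 11 (.s k9 k13 1 (.s k6 k12 2 (.s k7 k4 0 (.d k15 k11 k10 1 2)))))), (.s k3
  k2 0 (.s k169 k253 13 (.s k161 k173 1 (.s k240 k82 12 (.s k80 k160 11 (.d k90 k95 k15 2 14))))))]
  (.c k13 (.l (.s k3 k2 0 (.s k5 k245 11 (.s k15 k10 2 (.s k7 k11 1 (.s k86 k244 12 (.d k169 k253
  k252 13 14))))))) .n))

def s170_175_89 : T TT 256 :=
  (.f k5 k245 11 (.q k4 [(.s k7 k6 0 (.s k86 k244 12 (.s k87 k84 0 (.d k247 k167 k166 11 12)))), (.s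
  k6 k7 0 (.s k10 k15 2 (.s k2 k14 1 (.s k3 k1 0 (.d k12 k8 k9 1 2))))), (.s k15 k10 2 (.s k90 k240
  14 (.s k166 k247 12 (.s k14 k242 13 (.d k12 k8 k13 1 0)))))] (.c k8 (.q k251 [(.s k7 k6 0 (.s k86
  k244 12 (.s k87 k84 0 (.d k247 k167 k166 11 12)))), (.s k15 k10 2 (.s k247 k166 12 (.s k243 k255 1
  (.s k167 k91 13 (.d k7 k6 k87 0 11))))), (.s k7 k6 0 (.s k15 k10 2 (.s k244 k86 12 (.s k84 k164 11
  (.s k252 k168 13 (.d k240 k248 k90 1 14))))))] (.c k6 (.q k1 [(.s k3 k2 0 (.s k169 k253 13 (.s k86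
  k252 14 (.s k84 k87 0 (.d k244 k164 k7 11 12))))), (.s k15 k10 2 (.s k90 k240 14 (.s k166 k247 12
  (.s k14 k242 13 (.d k13 k9 k12 1 0))))), (.s k169 k253 13 (.s k161 k173 1 (.s k247 k166 12 (.s
  k243 k255 1 (.d k81 k241 k162 11 12))))), (.s k15 k10 2 (.s k166 k247 12 (.s k164 k167 0 (.s k244
  k84 11 (.s k7 k86 12 (.d k3 k2 k11 0 1))))))] .n) (.c k7 (.q k1 [(.s k15 k10 2 (.s k90 k240 14 (.s
  k166 k247 12 (.s k14 k242 13 (.d k13 k9 k12 1 0))))), (.s k3 k2 0 (.s k169 k253 13 (.s k161 k173 1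
  (.s k240 k82 12 (.d k15 k10 k90 2 14))))), (.s k3 k2 0 (.s k9 k13 1 (.s k166 k247 12 (.s k169 k253
  13 (.s k86 k252 14 (.d k6 k246 k12 11 2)))))), (.s k3 k2 0 (.s k15 k10 2 (.s k166 k247 12 (.s k167
  k164 0 (.s k243 k91 13 (.s k163 k83 11 (.d k169 k172 k253 2 13)))))))] .n) (.c k166 (.l (.s k7 k6
  0 (.s k15 k10 2 (.s k86 k244 12 (.s k84 k87 0 (.s k252 k168 13 (.d k3 k11 k169 1 14))))))) .n))))
  (.c k251 (.l (.s k8 k12 1 (.s k7 k6 0 (.s k86 k244 12 (.s k87 k84 0 (.d k247 k166 k167 12 11))))))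
  .n))))

def s170_175_90 : T TT 256 :=
  (.f k5 k245 11 (.q k4 [(.s k7 k6 0 (.s k86 k244 12 (.s k87 k84 0 (.d k247 k167 k166 11 12)))), (.s
  k6 k7 0 (.s k10 k15 2 (.s k12 k8 1 (.s k3 k9 2 (.d k2 k1 k14 0 1))))), (.s k12 k8 1 (.s k166 k247
  12 (.s k89 k243 14 (.s k13 k241 13 (.d k15 k10 k14 2 0)))))] (.c k10 (.q k250 [(.s k7 k6 0 (.s k86
  k244 12 (.s k87 k84 0 (.d k247 k167 k166 11 12)))), (.s k6 k7 0 (.s k12 k8 1 (.s k9 k3 2 (.s k13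
  k1 1 (.s k89 k241 13 (.s k81 k93 1 (.d k243 k162 k166 12 14))))))), (.s k12 k8 1 (.s k166 k247 12
  (.s k89 k243 14 (.s k13 k241 13 (.s k93 k81 1 (.s k253 k173 11 (.d k1 k9 k169 1 13)))))))] (.c
  k166 (.f k7 k6 0 (.f k86 k244 12 (.l (.s k84 k87 0 (.s k252 k168 13 (.s k169 k3 14 (.s k1 k253 13
  (.s k161 k173 1 (.s k241 k81 11 (.d k13 k9 k89 1 13)))))))))) .n)) (.c k250 (.l (.s k10 k15 2 (.s
  k6 k7 0 (.s k2 k14 1 (.s k3 k1 0 (.d k12 k8 k9 1 2)))))) .n))))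

def s170_175_91 : T TT 256 :=
  (.q k1 [(.s k5 k245 11 (.s k13 k9 1 (.s k89 k241 13 (.s k93 k81 1 (.d k253 k173 k169 11 13))))),
  (.s k3 k2 0 (.s k5 k245 11 (.s k9 k13 1 (.s k6 k12 2 (.s k7 k4 0 (.d k15 k11 k10 1 2)))))), (.s k3
  k2 0 (.s k169 k253 13 (.s k161 k173 1 (.s k240 k82 12 (.s k80 k160 11 (.d k90 k95 k15 2 14))))))]
  (.c k13 (.l (.s k3 k2 0 (.s k5 k245 11 (.s k15 k10 2 (.s k7 k11 1 (.s k86 k244 12 (.d k169 k253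
  k252 13 14))))))) .n))

def s170_175_92 : T TT 256 :=
  (.q k1 [(.s k5 k245 11 (.s k13 k9 1 (.s k89 k241 13 (.s k93 k81 1 (.d k253 k173 k169 11 13))))),
  (.s k3 k2 0 (.s k5 k245 11 (.s k9 k13 1 (.s k6 k12 2 (.s k7 k4 0 (.d k15 k11 k10 1 2)))))), (.s k3
  k2 0 (.s k169 k253 13 (.s k161 k173 1 (.s k240 k82 12 (.s k80 k160 11 (.d k90 k95 k15 2 14))))))]
  (.c k13 (.l (.s k3 k2 0 (.s k5 k245 11 (.s k15 k10 2 (.s k7 k11 1 (.s k86 k244 12 (.d k169 k253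
  k252 13 14))))))) .n))

def s170_175_93 : T TT 256 :=
  (.q k1 [(.s k5 k245 11 (.s k13 k9 1 (.s k169 k253 13 (.s k161 k173 1 (.d k241 k81 k89 11 13))))),
  (.s k3 k2 0 (.s k5 k245 11 (.s k15 k10 2 (.s k11 k7 1 (.s k90 k240 14 (.d k169 k248 k253 12
  13)))))), (.s k3 k2 0 (.s k169 k253 13 (.s k86 k252 14 (.s k7 k244 12 (.s k15 k11 1 (.s k240 k90
  14 (.d k161 k173 k82 1 12))))))), (.s k3 k2 0 (.s k5 k245 11 (.s k15 k10 2 (.s k7 k11 1 (.s k6 k4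
  0 (.d k9 k13 k12 1 2))))))] .n)

def s170_175_94 : T TT 256 :=
  (.q k1 [(.s k5 k245 11 (.s k13 k9 1 (.s k89 k241 13 (.s k93 k81 1 (.d k253 k173 k169 11 13))))),
  (.s k3 k2 0 (.s k5 k245 11 (.s k9 k13 1 (.s k6 k12 2 (.s k7 k4 0 (.d k15 k11 k10 1 2)))))), (.s k3
  k2 0 (.s k169 k253 13 (.s k161 k173 1 (.s k240 k82 12 (.s k80 k160 11 (.d k90 k15 k95 14 2))))))]
  (.c k13 (.l (.s k3 k2 0 (.s k5 k245 11 (.s k15 k10 2 (.s k7 k11 1 (.s k86 k244 12 (.d k169 k253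
  k252 13 14))))))) .n))

def s170_175_95 : T TT 256 :=
  (.f k5 k245 11 (.q k69 [(.s k101 k117 3 (.s k37 k229 7 (.s k53 k21 3 (.d k197 k133 k149 7 11)))),
  (.s k15 k10 2 (.s k90 k240 14 (.s k207 k138 10 (.s k79 k143 7 (.d k101 k117 k112 3 6))))), (.s k15
  k10 2 (.s k133 k197 7 (.s k74 k192 10 (.s k79 k64 2 (.d k207 k143 k138 7 10)))))] (.c k15 (.q k255
  [(.s k101 k117 3 (.s k37 k229 7 (.s k53 k21 3 (.d k197 k133 k149 7 11)))), (.s k207 k138 10 (.s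
  k223 k239 3 (.s k154 k16 10 (.d k101 k117 k48 3 14)))), (.s k197 k133 7 (.s k207 k138 10 (.s k192
  k202 2 (.s k213 k234 6 (.s k149 k21 7 (.s k106 k63 14 (.d k64 k128 k127 7 6)))))))] .n) (.c k133
  (.l (.s k15 k10 2 (.s k90 k240 14 (.s k101 k117 3 (.s k79 k112 6 (.d k207 k143 k138 7 10)))))) (.c
  k255 (.l (.s k15 k10 2 (.s k101 k117 3 (.s k37 k229 7 (.s k48 k26 6 (.d k207 k138 k154 10 14))))))
  .n)))))

def s170_175_96 : T TT 256 :=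
  (.q k1 [(.s k5 k245 11 (.s k13 k9 1 (.s k89 k241 13 (.s k93 k81 1 (.d k253 k173 k169 11 13))))),
  (.s k3 k2 0 (.s k5 k245 11 (.s k9 k13 1 (.s k6 k12 2 (.s k7 k4 0 (.d k15 k11 k10 1 2)))))), (.s k3
  k2 0 (.s k169 k253 13 (.s k161 k173 1 (.s k240 k82 12 (.s k80 k160 11 (.d k90 k95 k15 2 14))))))]
  (.c k13 (.l (.s k3 k2 0 (.s k5 k245 11 (.s k15 k10 2 (.s k7 k11 1 (.s k86 k244 12 (.d k169 k253
  k252 13 14))))))) .n))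

def s170_175_97 : T TT 256 :=
  (.q k1 [(.s k5 k245 11 (.s k13 k9 1 (.s k89 k241 13 (.s k93 k81 1 (.d k253 k173 k169 11 13))))),
  (.s k3 k2 0 (.s k5 k245 11 (.s k9 k13 1 (.s k6 k12 2 (.s k7 k4 0 (.d k15 k11 k10 1 2)))))), (.s k3
  k2 0 (.s k169 k253 13 (.s k161 k173 1 (.s k240 k82 12 (.s k80 k160 11 (.d k90 k95 k15 2 14))))))]
  (.c k13 (.l (.s k3 k2 0 (.s k5 k245 11 (.s k15 k10 2 (.s k7 k11 1 (.s k86 k244 12 (.d k169 k253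
  k252 13 14))))))) .n))

def s170_175_98 : T TT 256 :=
  (.q k1 [(.s k5 k245 11 (.s k13 k9 1 (.s k89 k241 13 (.s k93 k81 1 (.d k253 k173 k169 11 13))))),
  (.s k3 k2 0 (.s k5 k245 11 (.s k9 k13 1 (.s k6 k12 2 (.s k7 k4 0 (.d k15 k11 k10 1 2)))))), (.s k3
  k2 0 (.s k169 k253 13 (.s k161 k173 1 (.s k240 k82 12 (.s k80 k160 11 (.d k90 k95 k15 2 14))))))]
  (.c k13 (.l (.s k3 k2 0 (.s k5 k245 11 (.s k15 k10 2 (.s k7 k11 1 (.s k86 k244 12 (.d k169 k253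
  k252 13 14))))))) .n))

def s170_175_99 : T TT 256 :=
  (.q k1 [(.s k5 k245 11 (.s k13 k9 1 (.s k89 k241 13 (.s k93 k81 1 (.d k253 k173 k169 11 13))))),
  (.s k3 k2 0 (.s k5 k245 11 (.s k9 k13 1 (.s k6 k12 2 (.s k7 k4 0 (.d k15 k11 k10 1 2)))))), (.s k3
  k2 0 (.s k169 k253 13 (.s k161 k173 1 (.s k240 k82 12 (.s k80 k160 11 (.d k90 k95 k15 2 14))))))]
  (.c k13 (.l (.s k3 k2 0 (.s k5 k245 11 (.s k15 k10 2 (.s k7 k11 1 (.s k86 k244 12 (.d k169 k253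
  k252 13 14))))))) .n))

def s170_175_100 : T TT 256 :=
  (.q k1 [(.s k5 k245 11 (.s k13 k9 1 (.s k89 k241 13 (.s k93 k81 1 (.d k253 k173 k169 11 13))))),
  (.s k3 k2 0 (.s k5 k245 11 (.s k9 k13 1 (.s k6 k12 2 (.s k7 k4 0 (.d k15 k11 k10 1 2)))))), (.s k3
  k2 0 (.s k169 k253 13 (.s k161 k173 1 (.s k240 k82 12 (.s k80 k160 11 (.d k90 k95 k15 2 14))))))]
  (.c k13 (.l (.s k3 k2 0 (.s k5 k245 11 (.s k15 k10 2 (.s k7 k11 1 (.s k86 k244 12 (.d k169 k253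
  k252 13 14))))))) .n))

def s170_175_101 : T TT 256 :=
  (.f k5 k245 11 (.q k1 [(.s k13 k9 1 (.s k89 k241 13 (.s k93 k81 1 (.d k253 k173 k169 11 13)))),
  (.s k3 k2 0 (.s k15 k10 2 (.s k11 k7 1 (.s k90 k240 14 (.d k169 k248 k253 12 13))))), (.s k3 k2 0
  (.s k9 k13 1 (.s k6 k12 2 (.s k7 k4 0 (.d k15 k11 k10 1 2)))))] (.c k32 (.q k239 [(.s k13 k9 1 (.s
  k89 k241 13 (.s k93 k81 1 (.d k253 k173 k169 11 13)))), (.s k3 k2 0 (.s k15 k10 2 (.s k11 k7 1 (.s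
  k90 k240 14 (.d k169 k248 k253 12 13))))), (.s k3 k2 0 (.s k9 k13 1 (.s k6 k12 2 (.s k7 k4 0 (.d
  k15 k11 k10 1 2)))))] .n) (.c k239 (.q k32 [(.s k13 k9 1 (.s k89 k241 13 (.s k93 k81 1 (.d k253
  k173 k169 11 13)))), (.s k3 k2 0 (.s k15 k10 2 (.s k11 k7 1 (.s k90 k240 14 (.d k169 k248 k253 12
  13))))), (.s k3 k2 0 (.s k9 k13 1 (.s k6 k12 2 (.s k7 k4 0 (.d k15 k11 k10 1 2)))))] (.c k47 (.q
  k111 [(.s k13 k9 1 (.s k89 k241 13 (.s k93 k81 1 (.d k253 k173 k169 11 13)))), (.s k3 k2 0 (.s k15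
  k10 2 (.s k11 k7 1 (.s k90 k240 14 (.d k169 k248 k253 12 13))))), (.s k3 k2 0 (.s k9 k13 1 (.s k6
  k12 2 (.s k7 k4 0 (.d k15 k11 k10 1 2)))))] .n) (.c k111 (.q k47 [(.s k37 k42 2 (.s k48 k16 3 (.d
  k15 k10 k26 2 6))), (.s k13 k9 1 (.s k89 k241 13 (.s k93 k81 1 (.d k253 k173 k169 11 13))))] (.c
  k96 (.l (.s k106 k224 10 (.s k15 k10 2 (.s k37 k42 2 (.d k48 k26 k16 6 3))))) (.c k106 (.q k96
  [(.s k42 k37 2 (.s k63 k21 6 (.d k15 k10 k31 2 3))), (.s k13 k9 1 (.s k89 k241 13 (.s k93 k81 1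
  (.d k253 k173 k169 11 13))))] (.c k42 (.q k234 [(.s k160 k224 7 (.s k240 k80 11 (.d k15 k10 k90 2
  14))), (.s k13 k9 1 (.s k89 k241 13 (.s k93 k81 1 (.d k253 k173 k169 11 13))))] .n) (.c k234 (.l
  (.s k42 k37 2 (.s k15 k10 2 (.d k63 k31 k21 3 6)))) .n))) .n))) .n))) .n))))

def s170_175_102 : T TT 256 :=
  (.f k5 k245 11 (.q k154 [(.s k15 k10 2 (.s k16 k223 10 (.s k48 k32 3 (.s k143 k176 6 (.d k207 k101
  k79 14 7))))), (.s k16 k223 10 (.s k48 k32 3 (.s k101 k207 14 (.s k37 k229 7 (.s k53 k21 3 (.s k69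
  k117 3 (.d k197 k133 k149 7 11))))))), (.s k15 k10 2 (.s k143 k176 6 (.s k207 k79 7 (.s k69 k138
  10 (.d k101 k117 k48 3 14))))), (.s k15 k10 2 (.s k16 k223 10 (.s k90 k240 14 (.s k26 k218 7 (.s
  k31 k21 2 (.s k80 k95 2 (.d k208 k144 k149 7 10)))))))] (.c k34 (.q k238 [(.s k15 k10 2 (.s k143
  k176 6 (.s k207 k79 7 (.s k69 k138 10 (.d k101 k117 k48 3 14))))), (.s k16 k223 10 (.s k48 k32 3
  (.s k101 k207 14 (.s k37 k229 7 (.s k21 k53 3 (.d k26 k31 k15 2 6)))))), (.s k15 k10 2 (.s k16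
  k223 10 (.s k90 k240 14 (.s k26 k218 7 (.s k31 k21 2 (.s k80 k95 2 (.d k208 k144 k149 7 10)))))))]
  (.c k15 (.l (.s k16 k223 10 (.s k48 k32 3 (.s k101 k207 14 (.s k37 k229 7 (.s k53 k21 3 (.s k69
  k117 3 (.d k197 k133 k149 7 11)))))))) (.c k207 (.l (.s k15 k10 2 (.s k16 k223 10 (.s k48 k32 3
  (.s k26 k37 6 (.d k90 k218 k240 7 14)))))) .n))) (.c k207 (.l (.s k15 k10 2 (.s k16 k223 10 (.s
  k48 k32 3 (.s k26 k37 6 (.d k90 k218 k240 7 14)))))) (.c k238 (.q k34 [(.s k15 k10 2 (.s k16 k223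
  10 (.s k48 k32 3 (.s k143 k176 6 (.d k207 k101 k79 14 7))))), (.s k16 k223 10 (.s k17 k51 4 (.s
  k19 k18 0 (.s k153 k221 9 (.s k152 k155 0 (.d k220 k84 k86 9 10)))))), (.s k15 k10 2 (.s k143 k176
  6 (.s k207 k79 7 (.s k69 k138 10 (.d k101 k117 k48 3 14)))))] (.c k207 (.l (.s k15 k10 2 (.s k16
  k223 10 (.s k48 k32 3 (.s k26 k37 6 (.d k90 k218 k240 7 14)))))) .n)) .n)))))

def s170_175_103 : T TT 256 :=
  (.q k1 [(.s k5 k245 11 (.s k13 k9 1 (.s k89 k241 13 (.s k93 k81 1 (.d k253 k173 k169 11 13))))),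
  (.s k3 k2 0 (.s k5 k245 11 (.s k9 k13 1 (.s k6 k12 2 (.s k7 k4 0 (.d k15 k11 k10 1 2)))))), (.s k3
  k2 0 (.s k169 k253 13 (.s k161 k173 1 (.s k240 k82 12 (.s k80 k160 11 (.d k90 k95 k15 2 14))))))]
  (.c k13 (.l (.s k3 k2 0 (.s k5 k245 11 (.s k15 k10 2 (.s k7 k11 1 (.s k86 k244 12 (.d k169 k253
  k252 13 14))))))) .n))

def s170_175_104 : T TT 256 :=
  (.q k1 [(.s k5 k245 11 (.s k13 k9 1 (.s k89 k241 13 (.s k93 k81 1 (.d k253 k173 k169 11 13))))),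
  (.s k3 k2 0 (.s k5 k245 11 (.s k9 k13 1 (.s k6 k12 2 (.s k7 k4 0 (.d k15 k11 k10 1 2)))))), (.s k3
  k2 0 (.s k169 k253 13 (.s k161 k173 1 (.s k240 k82 12 (.s k80 k160 11 (.d k90 k95 k15 2 14))))))]
  (.c k13 (.l (.s k3 k2 0 (.s k5 k245 11 (.s k15 k10 2 (.s k7 k11 1 (.s k86 k244 12 (.d k169 k253
  k252 13 14))))))) .n))

def s170_175_105 : T TT 256 :=
  (.f k5 k245 11 (.q k166 [(.s k4 k247 12 (.s k7 k6 0 (.s k164 k167 0 (.d k244 k84 k86 11 12)))),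
  (.s k15 k10 2 (.s k167 k164 0 (.s k243 k91 13 (.s k81 k162 12 (.d k89 k93 k12 1 14))))), (.s k4
  k247 12 (.s k12 k8 1 (.s k15 k10 2 (.s k14 k13 0 (.d k90 k242 k240 13 14)))))] (.c k40 (.q k235
  [(.s k4 k247 12 (.s k7 k6 0 (.s k164 k167 0 (.d k244 k84 k86 11 12)))), (.s k15 k10 2 (.s k167
  k164 0 (.s k243 k91 13 (.s k81 k162 12 (.d k89 k93 k12 1 14))))), (.s k4 k247 12 (.s k12 k8 1 (.s
  k15 k10 2 (.s k14 k13 0 (.d k90 k242 k240 13 14)))))] .n) (.c k235 (.q k40 [(.s k4 k247 12 (.s k7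
  k6 0 (.s k164 k167 0 (.d k244 k84 k86 11 12)))), (.s k15 k10 2 (.s k167 k164 0 (.s k243 k91 13 (.s
  k81 k162 12 (.d k89 k93 k12 1 14))))), (.s k4 k247 12 (.s k12 k8 1 (.s k15 k10 2 (.s k14 k13 0 (.d
  k90 k242 k240 13 14)))))] .n) .n))))

def s170_175_106 : T TT 256 :=
  (.f k5 k245 11 (.q k21 [(.s k53 k37 3 (.s k149 k213 7 (.s k133 k181 3 (.d k197 k69 k101 7 11)))),
  (.s k15 k10 2 (.s k37 k53 3 (.s k26 k48 6 (.s k31 k16 2 (.d k63 k42 k47 6 3))))), (.s k15 k10 2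
  (.s k90 k240 14 (.s k149 k213 7 (.s k31 k208 10 (.d k63 k42 k47 6 3)))))] (.c k42 (.q k234 [(.s
  k149 k213 7 (.s k133 k181 3 (.s k197 k69 7 (.d k53 k37 k101 3 11)))), (.s k15 k10 2 (.s k90 k240
  14 (.s k95 k80 2 (.s k149 k213 7 (.s k31 k208 10 (.s k223 k159 7 (.d k16 k26 k154 2 10))))))), (.s
  k15 k10 2 (.s k37 k53 3 (.s k26 k48 6 (.s k16 k31 2 (.s k90 k240 14 (.d k154 k218 k223 7 10))))))]
  .n) (.c k234 (.l (.s k42 k63 6 (.s k15 k10 2 (.s k37 k53 3 (.s k32 k47 2 (.d k48 k16 k26 3 6))))))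
  .n))))

def s170_175_107 : T TT 256 :=
  (.q k1 [(.s k5 k245 11 (.s k13 k9 1 (.s k89 k241 13 (.s k93 k81 1 (.d k253 k173 k169 11 13))))),
  (.s k3 k2 0 (.s k5 k245 11 (.s k9 k13 1 (.s k6 k12 2 (.s k7 k4 0 (.d k15 k11 k10 1 2)))))), (.s k3
  k2 0 (.s k169 k253 13 (.s k161 k173 1 (.s k240 k82 12 (.s k80 k160 11 (.d k90 k95 k15 2 14))))))]
  (.c k13 (.l (.s k3 k2 0 (.s k5 k245 11 (.s k15 k10 2 (.s k7 k11 1 (.s k86 k244 12 (.d k169 k253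
  k252 13 14))))))) .n))

def s170_175_108 : T TT 256 :=
  (.q k1 [(.s k5 k245 11 (.s k13 k9 1 (.s k89 k241 13 (.s k93 k81 1 (.d k253 k173 k169 11 13))))),
  (.s k3 k2 0 (.s k5 k245 11 (.s k9 k13 1 (.s k6 k12 2 (.s k7 k4 0 (.d k15 k11 k10 1 2)))))), (.s k3
  k2 0 (.s k169 k253 13 (.s k161 k173 1 (.s k240 k82 12 (.s k80 k160 11 (.d k90 k95 k15 2 14))))))]
  (.c k13 (.l (.s k3 k2 0 (.s k5 k245 11 (.s k15 k10 2 (.s k7 k11 1 (.s k86 k244 12 (.d k169 k253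
  k252 13 14))))))) .n))

def s170_175_109 : T TT 256 :=
  (.q k1 [(.s k5 k245 11 (.s k13 k9 1 (.s k89 k241 13 (.s k93 k81 1 (.d k253 k173 k169 11 13))))),
  (.s k3 k2 0 (.s k5 k245 11 (.s k9 k13 1 (.s k6 k12 2 (.s k7 k4 0 (.d k15 k11 k10 1 2)))))), (.s k3
  k2 0 (.s k169 k253 13 (.s k161 k173 1 (.s k240 k82 12 (.s k80 k160 11 (.d k90 k95 k15 2 14))))))]
  (.c k13 (.l (.s k3 k2 0 (.s k5 k245 11 (.s k15 k10 2 (.s k7 k11 1 (.s k86 k244 12 (.d k169 k253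
  k252 13 14))))))) .n))

def s170_175_110 : T TT 256 :=
  (.q k1 [(.s k5 k245 11 (.s k13 k9 1 (.s k89 k241 13 (.s k93 k81 1 (.d k253 k173 k169 11 13))))),
  (.s k3 k2 0 (.s k5 k245 11 (.s k9 k13 1 (.s k6 k12 2 (.s k7 k4 0 (.d k15 k11 k10 1 2)))))), (.s k3
  k2 0 (.s k169 k253 13 (.s k161 k173 1 (.s k240 k82 12 (.s k80 k160 11 (.d k90 k95 k15 2 14))))))]
  (.c k13 (.l (.s k3 k2 0 (.s k5 k245 11 (.s k15 k10 2 (.s k7 k11 1 (.s k86 k244 12 (.d k169 k253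
  k252 13 14))))))) .n))

def s170_175_111 : T TT 256 :=
  (.f k5 k245 11 (.q k47 [(.s k15 k10 2 (.s k63 k31 3 (.s k106 k224 10 (.s k64 k127 6 (.d k192 k128
  k149 7 14))))), (.s k15 k10 2 (.s k63 k31 3 (.s k21 k42 6 (.s k149 k213 7 (.s k181 k133 3 (.d k240
  k90 k122 14 10)))))), (.s k106 k224 10 (.s k64 k127 6 (.s k192 k128 7 (.s k149 k63 14 (.s k133
  k181 3 (.s k69 k197 7 (.d k74 k79 k15 2 10)))))))] (.c k15 (.f k106 k224 10 (.l (.s k64 k127 6 (.s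
  k192 k128 7 (.s k149 k63 14 (.s k21 k213 7 (.s k53 k37 3 (.s k133 k181 3 (.d k197 k69 k101 7
  11))))))))) (.c k63 (.l (.s k15 k10 2 (.s k90 k240 14 (.s k106 k224 10 (.s k64 k127 6 (.s k192
  k128 7 (.d k74 k122 k133 3 10))))))) (.c k106 (.l (.s k15 k10 2 (.s k31 k63 3 (.s k90 k240 14 (.s
  k149 k208 10 (.s k21 k213 7 (.s k26 k16 2 (.d k37 k53 k48 3 6)))))))) (.c k149 (.l (.s k15 k10 2
  (.s k90 k240 14 (.s k106 k224 10 (.s k64 k127 6 (.s k74 k122 3 (.d k192 k128 k133 7 10)))))))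
  .n))))))

def s170_175_112 : T TT 256 :=
  (.q k1 [(.s k5 k245 11 (.s k13 k9 1 (.s k89 k241 13 (.s k93 k81 1 (.d k253 k173 k169 11 13))))),
  (.s k3 k2 0 (.s k5 k245 11 (.s k9 k13 1 (.s k6 k12 2 (.s k7 k4 0 (.d k15 k11 k10 1 2)))))), (.s k3
  k2 0 (.s k169 k253 13 (.s k161 k173 1 (.s k240 k82 12 (.s k80 k160 11 (.d k90 k95 k15 2 14))))))]
  (.c k13 (.l (.s k3 k2 0 (.s k5 k245 11 (.s k15 k10 2 (.s k7 k11 1 (.s k86 k244 12 (.d k169 k253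
  k252 13 14))))))) .n))

def s170_175_113 : T TT 256 :=
  (.q k1 [(.s k245 k5 11 (.s k253 k169 13 (.s k241 k249 1 (.s k89 k13 13 (.d k81 k93 k161 1 11))))),
  (.s k3 k2 0 (.s k5 k245 11 (.s k9 k13 1 (.s k6 k12 2 (.s k7 k4 0 (.d k15 k11 k10 1 2)))))), (.s k3
  k2 0 (.s k169 k253 13 (.s k161 k173 1 (.s k240 k82 12 (.s k80 k160 11 (.d k90 k95 k15 2 14))))))]
  (.c k13 (.l (.s k3 k2 0 (.s k5 k245 11 (.s k15 k10 2 (.s k7 k11 1 (.s k86 k244 12 (.d k169 k253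
  k252 13 14))))))) .n))

def s170_175_114 : T TT 256 :=
  (.q k1 [(.s k5 k245 11 (.s k13 k9 1 (.s k89 k241 13 (.s k93 k81 1 (.d k253 k173 k169 11 13))))),
  (.s k3 k2 0 (.s k5 k245 11 (.s k9 k13 1 (.s k6 k12 2 (.s k7 k4 0 (.d k15 k11 k10 1 2)))))), (.s k3
  k2 0 (.s k169 k253 13 (.s k161 k173 1 (.s k240 k82 12 (.s k80 k160 11 (.d k90 k95 k15 2 14))))))]
  (.c k13 (.l (.s k3 k2 0 (.s k5 k245 11 (.s k15 k10 2 (.s k7 k11 1 (.s k86 k244 12 (.d k169 k253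
  k252 13 14))))))) .n))

def s170_175_115 : T TT 256 :=
  (.q k1 [(.s k5 k245 11 (.s k13 k9 1 (.s k89 k241 13 (.s k93 k81 1 (.d k253 k173 k169 11 13))))),
  (.s k3 k2 0 (.s k5 k245 11 (.s k9 k13 1 (.s k6 k12 2 (.s k7 k4 0 (.d k15 k11 k10 1 2)))))), (.s k3
  k2 0 (.s k169 k253 13 (.s k161 k173 1 (.s k240 k82 12 (.s k80 k160 11 (.d k90 k95 k15 2 14))))))]
  (.c k13 (.l (.s k3 k2 0 (.s k5 k245 11 (.s k15 k10 2 (.s k7 k11 1 (.s k86 k244 12 (.d k169 k253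
  k252 13 14))))))) .n))

def s170_175_116 : T TT 256 :=
  (.q k1 [(.s k5 k245 11 (.s k13 k9 1 (.s k89 k241 13 (.s k93 k81 1 (.d k253 k173 k169 11 13))))),
  (.s k3 k2 0 (.s k5 k245 11 (.s k9 k13 1 (.s k6 k12 2 (.s k7 k4 0 (.d k15 k11 k10 1 2)))))), (.s k3
  k2 0 (.s k169 k253 13 (.s k161 k173 1 (.s k240 k82 12 (.s k80 k160 11 (.d k90 k95 k15 2 14))))))]
  (.c k13 (.l (.s k3 k2 0 (.s k5 k245 11 (.s k15 k10 2 (.s k7 k11 1 (.s k86 k244 12 (.d k169 k253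
  k252 13 14))))))) .n))

def s170_175_117 : T TT 256 :=
  (.q k1 [(.s k5 k245 11 (.s k13 k9 1 (.s k89 k241 13 (.s k93 k81 1 (.d k253 k173 k169 11 13))))),
  (.s k3 k2 0 (.s k169 k253 13 (.s k161 k173 1 (.s k240 k82 12 (.s k80 k160 11 (.d k90 k95 k15 2
  14)))))), (.s k3 k2 0 (.s k5 k245 11 (.s k9 k13 1 (.s k6 k12 2 (.s k7 k4 0 (.d k15 k11 k10 1
  2))))))] (.c k13 (.l (.s k3 k2 0 (.s k5 k245 11 (.s k15 k10 2 (.s k7 k11 1 (.s k86 k244 12 (.d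
  k169 k253 k252 13 14))))))) .n))

def s170_175_118 : T TT 256 :=
  (.q k1 [(.s k5 k245 11 (.s k13 k9 1 (.s k89 k241 13 (.s k93 k81 1 (.d k253 k173 k169 11 13))))),
  (.s k3 k2 0 (.s k5 k245 11 (.s k9 k13 1 (.s k6 k12 2 (.s k7 k4 0 (.d k15 k11 k10 1 2)))))), (.s k3
  k2 0 (.s k169 k253 13 (.s k161 k173 1 (.s k240 k82 12 (.s k80 k160 11 (.d k90 k95 k15 2 14))))))]
  (.c k13 (.l (.s k3 k2 0 (.s k5 k245 11 (.s k15 k10 2 (.s k7 k11 1 (.s k86 k244 12 (.d k169 k253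
  k252 13 14))))))) .n))

def s170_175_119 : T TT 256 :=
  (.q k1 [(.s k5 k245 11 (.s k13 k9 1 (.s k89 k241 13 (.s k93 k81 1 (.d k253 k173 k169 11 13))))),
  (.s k3 k2 0 (.s k5 k245 11 (.s k9 k13 1 (.s k6 k12 2 (.s k7 k4 0 (.d k15 k11 k10 1 2)))))), (.s k3
  k2 0 (.s k169 k253 13 (.s k161 k173 1 (.s k240 k82 12 (.s k80 k160 11 (.d k90 k95 k15 2 14))))))]
  (.c k13 (.l (.s k3 k2 0 (.s k5 k245 11 (.s k15 k10 2 (.s k7 k11 1 (.s k86 k244 12 (.d k169 k253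
  k252 13 14))))))) .n))

def s170_175_120 : T TT 256 :=
  (.q k1 [(.s k5 k245 11 (.s k13 k9 1 (.s k89 k241 13 (.s k93 k81 1 (.d k253 k173 k169 11 13))))),
  (.s k3 k2 0 (.s k5 k245 11 (.s k9 k13 1 (.s k6 k12 2 (.s k7 k4 0 (.d k15 k11 k10 1 2)))))), (.s k3
  k2 0 (.s k169 k253 13 (.s k161 k173 1 (.s k240 k82 12 (.s k80 k160 11 (.d k90 k95 k15 2 14))))))]
  (.c k13 (.l (.s k3 k2 0 (.s k5 k245 11 (.s k15 k10 2 (.s k7 k11 1 (.s k86 k244 12 (.d k169 k253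
  k252 13 14))))))) .n))

def s170_175_121 : T TT 256 :=
  (.q k1 [(.s k5 k245 11 (.s k13 k9 1 (.s k89 k241 13 (.s k93 k81 1 (.d k253 k173 k169 11 13))))),
  (.s k3 k2 0 (.s k5 k245 11 (.s k9 k13 1 (.s k6 k12 2 (.s k7 k4 0 (.d k15 k11 k10 1 2)))))), (.s k3
  k2 0 (.s k169 k253 13 (.s k161 k173 1 (.s k240 k82 12 (.s k80 k160 11 (.d k90 k95 k15 2 14))))))]
  (.c k13 (.l (.s k3 k2 0 (.s k5 k245 11 (.s k15 k10 2 (.s k7 k11 1 (.s k86 k244 12 (.d k169 k253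
  k252 13 14))))))) .n))

def s170_175_122 : T TT 256 :=
  (.q k1 [(.s k5 k245 11 (.s k13 k9 1 (.s k89 k241 13 (.s k93 k81 1 (.d k253 k173 k169 11 13))))),
  (.s k3 k2 0 (.s k5 k245 11 (.s k9 k13 1 (.s k6 k12 2 (.s k7 k4 0 (.d k15 k11 k10 1 2)))))), (.s k3
  k2 0 (.s k169 k253 13 (.s k161 k173 1 (.s k240 k82 12 (.s k80 k160 11 (.d k90 k95 k15 2 14))))))]
  (.c k13 (.l (.s k3 k2 0 (.s k5 k245 11 (.s k15 k10 2 (.s k7 k11 1 (.s k86 k244 12 (.d k169 k253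
  k252 13 14))))))) .n))

def s170_175_123 : T TT 256 :=
  (.q k1 [(.s k5 k245 11 (.s k13 k9 1 (.s k89 k241 13 (.s k93 k81 1 (.d k253 k173 k169 11 13))))),
  (.s k3 k2 0 (.s k5 k245 11 (.s k9 k13 1 (.s k6 k12 2 (.s k7 k4 0 (.d k15 k11 k10 1 2)))))), (.s k3
  k2 0 (.s k169 k253 13 (.s k161 k173 1 (.s k240 k82 12 (.s k80 k160 11 (.d k90 k95 k15 2 14))))))]
  (.c k13 (.l (.s k3 k2 0 (.s k5 k245 11 (.s k15 k10 2 (.s k7 k11 1 (.s k86 k244 12 (.d k169 k253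
  k252 13 14))))))) .n))

def s170_175_124 : T TT 256 :=
  (.q k1 [(.s k5 k245 11 (.s k13 k9 1 (.s k89 k241 13 (.s k93 k81 1 (.d k253 k173 k169 11 13))))),
  (.s k3 k2 0 (.s k5 k245 11 (.s k9 k13 1 (.s k6 k12 2 (.s k7 k4 0 (.d k15 k11 k10 1 2)))))), (.s k3
  k2 0 (.s k169 k253 13 (.s k161 k173 1 (.s k240 k82 12 (.s k80 k160 11 (.d k90 k95 k15 2 14))))))]
  (.c k13 (.l (.s k3 k2 0 (.s k5 k245 11 (.s k15 k10 2 (.s k7 k11 1 (.s k86 k244 12 (.d k169 k253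
  k252 13 14))))))) .n))

def s170_175_125 : T TT 256 :=
  (.q k1 [(.s k5 k245 11 (.s k13 k9 1 (.s k89 k241 13 (.s k93 k81 1 (.d k253 k173 k169 11 13))))),
  (.s k3 k2 0 (.s k5 k245 11 (.s k9 k13 1 (.s k6 k12 2 (.s k7 k4 0 (.d k15 k11 k10 1 2)))))), (.s k3
  k2 0 (.s k169 k253 13 (.s k161 k173 1 (.s k240 k82 12 (.s k80 k160 11 (.d k90 k95 k15 2 14))))))]
  (.c k13 (.l (.s k3 k2 0 (.s k5 k245 11 (.s k15 k10 2 (.s k7 k11 1 (.s k86 k244 12 (.d k169 k253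
  k252 13 14))))))) .n))

def s170_175_126 : T TT 256 :=
  (.q k1 [(.s k5 k245 11 (.s k13 k9 1 (.s k89 k241 13 (.s k93 k81 1 (.d k253 k173 k169 11 13))))),
  (.s k3 k2 0 (.s k5 k245 11 (.s k9 k13 1 (.s k6 k12 2 (.s k7 k4 0 (.d k15 k11 k10 1 2)))))), (.s k3
  k2 0 (.s k169 k253 13 (.s k161 k173 1 (.s k240 k82 12 (.s k80 k160 11 (.d k90 k95 k15 2 14))))))]
  (.c k13 (.l (.s k3 k2 0 (.s k5 k245 11 (.s k15 k10 2 (.s k7 k11 1 (.s k86 k244 12 (.d k169 k253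
  k252 13 14))))))) .n))

def s170_175_127 : T TT 256 :=
  (.q k1 [(.s k5 k245 11 (.s k13 k9 1 (.s k89 k241 13 (.s k93 k81 1 (.d k253 k173 k169 11 13))))),
  (.s k3 k2 0 (.s k5 k245 11 (.s k9 k13 1 (.s k6 k12 2 (.s k7 k4 0 (.d k15 k11 k10 1 2)))))), (.s k3
  k2 0 (.s k169 k253 13 (.s k161 k173 1 (.s k240 k82 12 (.s k80 k160 11 (.d k90 k95 k15 2 14))))))]
  (.c k13 (.l (.s k3 k2 0 (.s k5 k245 11 (.s k15 k10 2 (.s k7 k11 1 (.s k86 k244 12 (.d k169 k253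
  k252 13 14))))))) .n))

def s170_175_128 : T TT 256 :=
  (.q k149 [(.s k5 k245 11 (.s k21 k213 7 (.s k53 k37 3 (.s k133 k181 3 (.d k197 k69 k101 7 11))))),
  (.s k21 k213 7 (.s k63 k42 6 (.s k181 k133 3 (.s k240 k122 10 (.s k80 k160 11 (.d k90 k95 k15 2
  14)))))), (.s k5 k245 11 (.s k15 k10 2 (.s k90 k240 14 (.s k31 k208 10 (.s k63 k47 3 (.s k133 k181
  3 (.d k192 k74 k106 10 14))))))), (.s k5 k245 11 (.s k15 k10 2 (.s k21 k213 7 (.s k63 k42 6 (.s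
  k31 k47 3 (.d k90 k208 k240 10 14))))))] .n)

def s170_175_129 : T TT 256 :=
  (.q k1 [(.s k5 k245 11 (.s k13 k9 1 (.s k89 k241 13 (.s k93 k81 1 (.d k253 k173 k169 11 13))))),
  (.s k3 k2 0 (.s k5 k245 11 (.s k9 k13 1 (.s k6 k12 2 (.s k7 k4 0 (.d k15 k11 k10 1 2)))))), (.s k3
  k2 0 (.s k169 k253 13 (.s k161 k173 1 (.s k240 k82 12 (.s k80 k160 11 (.d k90 k95 k15 2 14))))))]
  (.c k13 (.l (.s k3 k2 0 (.s k5 k245 11 (.s k15 k10 2 (.s k7 k11 1 (.s k86 k244 12 (.d k169 k253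
  k252 13 14))))))) .n))

def s170_175_130 : T TT 256 :=
  (.f k5 k245 11 (.q k69 [(.s k101 k117 3 (.s k37 k229 7 (.s k53 k21 3 (.d k197 k133 k149 7 11)))),
  (.s k15 k10 2 (.s k90 k240 14 (.s k207 k138 10 (.s k79 k143 7 (.d k101 k117 k112 3 6))))), (.s k15
  k10 2 (.s k133 k197 7 (.s k74 k192 10 (.s k79 k64 2 (.d k207 k143 k138 7 10)))))] (.c k133 (.l (.s
  k15 k10 2 (.s k90 k240 14 (.s k101 k117 3 (.s k79 k112 6 (.d k207 k143 k138 7 10)))))) (.c k150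
  (.q k190 [(.s k101 k117 3 (.s k37 k229 7 (.s k53 k21 3 (.d k197 k133 k149 7 11)))), (.s k15 k10 2
  (.s k90 k240 14 (.s k207 k138 10 (.s k79 k143 7 (.d k101 k117 k112 3 6))))), (.s k15 k10 2 (.s
  k133 k197 7 (.s k74 k192 10 (.s k79 k64 2 (.d k207 k143 k138 7 10)))))] (.c k133 (.l (.s k15 k10 2
  (.s k90 k240 14 (.s k101 k117 3 (.s k79 k112 6 (.d k207 k143 k138 7 10)))))) .n)) (.c k190 (.q
  k150 [(.s k101 k117 3 (.s k37 k229 7 (.s k53 k21 3 (.d k197 k133 k149 7 11)))), (.s k15 k10 2 (.s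
  k20 k215 8 (.s k60 k40 5 (.s k30 k45 4 (.d k90 k210 k240 9 14)))))] .n) .n)))))

def s170_175_131 : T TT 256 :=
  (.q k1 [(.s k5 k245 11 (.s k13 k9 1 (.s k89 k241 13 (.s k93 k81 1 (.d k253 k173 k169 11 13))))),
  (.s k3 k2 0 (.s k5 k245 11 (.s k9 k13 1 (.s k6 k12 2 (.s k7 k4 0 (.d k15 k11 k10 1 2)))))), (.s k3
  k2 0 (.s k169 k253 13 (.s k161 k173 1 (.s k240 k82 12 (.s k80 k160 11 (.d k90 k95 k15 2 14))))))]
  (.c k13 (.l (.s k3 k2 0 (.s k5 k245 11 (.s k15 k10 2 (.s k7 k11 1 (.s k86 k244 12 (.d k169 k253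
  k252 13 14))))))) .n))

def s170_175_132 : T TT 256 :=
  (.q k1 [(.s k5 k245 11 (.s k13 k9 1 (.s k89 k241 13 (.s k93 k81 1 (.d k253 k173 k169 11 13))))),
  (.s k3 k2 0 (.s k5 k245 11 (.s k9 k13 1 (.s k6 k12 2 (.s k7 k4 0 (.d k15 k11 k10 1 2)))))), (.s k3
  k2 0 (.s k169 k253 13 (.s k161 k173 1 (.s k240 k82 12 (.s k80 k160 11 (.d k90 k95 k15 2 14))))))]
  (.c k13 (.l (.s k3 k2 0 (.s k5 k245 11 (.s k15 k10 2 (.s k7 k11 1 (.s k86 k244 12 (.d k169 k253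
  k252 13 14))))))) .n))

def s170_175_133 : T TT 256 :=
  (.q k1 [(.s k5 k245 11 (.s k13 k9 1 (.s k89 k241 13 (.s k93 k81 1 (.d k253 k173 k169 11 13))))),
  (.s k3 k2 0 (.s k5 k245 11 (.s k9 k13 1 (.s k6 k12 2 (.s k7 k4 0 (.d k15 k11 k10 1 2)))))), (.s k3
  k2 0 (.s k169 k253 13 (.s k161 k173 1 (.s k240 k82 12 (.s k80 k160 11 (.d k90 k95 k15 2 14))))))]
  (.c k13 (.l (.s k3 k2 0 (.s k5 k245 11 (.s k15 k10 2 (.s k7 k11 1 (.s k86 k244 12 (.d k169 k253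
  k252 13 14))))))) .n))

def s170_175_134 : T TT 256 :=
  (.q k1 [(.s k5 k245 11 (.s k13 k9 1 (.s k89 k241 13 (.s k93 k81 1 (.d k253 k173 k169 11 13))))),
  (.s k3 k2 0 (.s k5 k245 11 (.s k9 k13 1 (.s k6 k12 2 (.s k7 k4 0 (.d k15 k11 k10 1 2)))))), (.s k3
  k2 0 (.s k169 k253 13 (.s k161 k173 1 (.s k240 k82 12 (.s k80 k160 11 (.d k90 k95 k15 2 14))))))]
  (.c k13 (.l (.s k3 k2 0 (.s k5 k245 11 (.s k15 k10 2 (.s k7 k11 1 (.s k86 k244 12 (.d k169 k253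
  k252 13 14))))))) .n))

def s170_175_135 : T TT 256 :=
  (.q k1 [(.s k5 k245 11 (.s k13 k9 1 (.s k89 k241 13 (.s k93 k81 1 (.d k253 k173 k169 11 13))))),
  (.s k3 k2 0 (.s k5 k245 11 (.s k9 k13 1 (.s k6 k12 2 (.s k7 k4 0 (.d k15 k11 k10 1 2)))))), (.s k3
  k2 0 (.s k169 k253 13 (.s k161 k173 1 (.s k240 k82 12 (.s k80 k160 11 (.d k90 k95 k15 2 14))))))]
  (.c k13 (.l (.s k3 k2 0 (.s k5 k245 11 (.s k15 k10 2 (.s k7 k11 1 (.s k86 k244 12 (.d k169 k253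
  k252 13 14))))))) .n))

def s170_175_136 : T TT 256 :=
  (.f k5 k245 11 (.q k69 [(.s k101 k117 3 (.s k37 k229 7 (.s k53 k21 3 (.d k197 k133 k149 7 11)))),
  (.s k15 k10 2 (.s k90 k240 14 (.s k207 k138 10 (.s k79 k143 7 (.d k101 k117 k112 3 6))))), (.s k15
  k10 2 (.s k133 k197 7 (.s k74 k192 10 (.s k79 k64 2 (.d k207 k143 k138 7 10)))))] (.c k133 (.l (.s
  k15 k10 2 (.s k90 k240 14 (.s k101 k117 3 (.s k79 k112 6 (.d k207 k143 k138 7 10)))))) (.c k153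
  (.q k187 [(.s k101 k117 3 (.s k37 k229 7 (.s k53 k21 3 (.d k197 k133 k149 7 11)))), (.s k15 k10 2
  (.s k90 k240 14 (.s k207 k138 10 (.s k79 k143 7 (.d k101 k117 k112 3 6))))), (.s k15 k10 2 (.s
  k133 k197 7 (.s k74 k192 10 (.s k79 k64 2 (.d k207 k143 k138 7 10)))))] (.c k133 (.l (.s k15 k10 2
  (.s k90 k240 14 (.s k101 k117 3 (.s k79 k112 6 (.d k207 k143 k138 7 10)))))) .n)) (.c k187 (.q
  k153 [(.s k101 k117 3 (.s k37 k229 7 (.s k53 k21 3 (.d k197 k133 k149 7 11)))), (.s k15 k10 2 (.s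
  k17 k221 9 (.s k51 k34 4 (.s k27 k39 5 (.d k90 k216 k240 8 14)))))] .n) .n)))))

def s170_175_137 : T TT 256 :=
  (.q k1 [(.s k5 k245 11 (.s k13 k9 1 (.s k89 k241 13 (.s k93 k81 1 (.d k253 k173 k169 11 13))))),
  (.s k3 k2 0 (.s k5 k245 11 (.s k9 k13 1 (.s k6 k12 2 (.s k7 k4 0 (.d k15 k11 k10 1 2)))))), (.s k3
  k2 0 (.s k169 k253 13 (.s k161 k173 1 (.s k240 k82 12 (.s k80 k160 11 (.d k90 k95 k15 2 14))))))]
  (.c k13 (.l (.s k3 k2 0 (.s k5 k245 11 (.s k15 k10 2 (.s k7 k11 1 (.s k86 k244 12 (.d k169 k253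
  k252 13 14))))))) .n))

def s170_175_138 : T TT 256 :=
  (.f k5 k245 11 (.q k154 [(.s k15 k10 2 (.s k16 k223 10 (.s k48 k32 3 (.s k143 k176 6 (.d k207 k101
  k79 14 7))))), (.s k16 k223 10 (.s k48 k32 3 (.s k101 k207 14 (.s k37 k229 7 (.s k53 k21 3 (.s k69
  k117 3 (.d k197 k133 k149 7 11))))))), (.s k15 k10 2 (.s k90 k240 14 (.s k26 k218 7 (.s k48 k37 6
  (.s k143 k176 6 (.d k207 k79 k101 7 14)))))), (.s k15 k10 2 (.s k16 k223 10 (.s k90 k240 14 (.s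
  k26 k218 7 (.s k31 k21 2 (.s k80 k95 2 (.d k208 k144 k149 7 10)))))))] (.c k207 (.l (.s k15 k10 2
  (.s k16 k223 10 (.s k48 k32 3 (.s k26 k37 6 (.d k90 k218 k240 7 14)))))) .n)))

def s170_175_139 : T TT 256 :=
  (.q k1 [(.s k5 k245 11 (.s k13 k9 1 (.s k89 k241 13 (.s k93 k81 1 (.d k253 k173 k169 11 13))))),
  (.s k3 k2 0 (.s k5 k245 11 (.s k9 k13 1 (.s k6 k12 2 (.s k7 k4 0 (.d k15 k11 k10 1 2)))))), (.s k3
  k2 0 (.s k169 k253 13 (.s k161 k173 1 (.s k240 k82 12 (.s k80 k160 11 (.d k90 k95 k15 2 14))))))]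
  (.c k13 (.l (.s k3 k2 0 (.s k5 k245 11 (.s k15 k10 2 (.s k7 k11 1 (.s k86 k244 12 (.d k169 k253
  k252 13 14))))))) .n))

def s170_175_140 : T TT 256 :=
  (.q k1 [(.s k5 k245 11 (.s k13 k9 1 (.s k89 k241 13 (.s k93 k81 1 (.d k253 k173 k169 11 13))))),
  (.s k3 k2 0 (.s k5 k245 11 (.s k9 k13 1 (.s k6 k12 2 (.s k7 k4 0 (.d k15 k11 k10 1 2)))))), (.s k3
  k2 0 (.s k169 k253 13 (.s k161 k173 1 (.s k240 k82 12 (.s k80 k160 11 (.d k90 k95 k15 2 14))))))]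
  (.c k13 (.l (.s k3 k2 0 (.s k5 k245 11 (.s k15 k10 2 (.s k7 k11 1 (.s k86 k244 12 (.d k169 k253
  k252 13 14))))))) .n))

def s170_175_141 : T TT 256 :=
  (.q k1 [(.s k5 k245 11 (.s k13 k9 1 (.s k89 k241 13 (.s k93 k81 1 (.d k253 k173 k169 11 13))))),
  (.s k3 k2 0 (.s k5 k245 11 (.s k9 k13 1 (.s k6 k12 2 (.s k7 k4 0 (.d k15 k11 k10 1 2)))))), (.s k3
  k2 0 (.s k169 k253 13 (.s k161 k173 1 (.s k240 k82 12 (.s k80 k160 11 (.d k90 k95 k15 2 14))))))]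
  (.c k13 (.l (.s k3 k2 0 (.s k5 k245 11 (.s k15 k10 2 (.s k7 k11 1 (.s k86 k244 12 (.d k169 k253
  k252 13 14))))))) .n))

def s170_175_142 : T TT 256 :=
  (.q k1 [(.s k5 k245 11 (.s k13 k9 1 (.s k89 k241 13 (.s k93 k81 1 (.d k253 k173 k169 11 13))))),
  (.s k3 k2 0 (.s k5 k245 11 (.s k9 k13 1 (.s k6 k12 2 (.s k7 k4 0 (.d k15 k11 k10 1 2)))))), (.s k3
  k2 0 (.s k169 k253 13 (.s k161 k173 1 (.s k240 k82 12 (.s k80 k160 11 (.d k90 k95 k15 2 14))))))]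
  (.c k13 (.l (.s k3 k2 0 (.s k5 k245 11 (.s k15 k10 2 (.s k7 k11 1 (.s k86 k244 12 (.d k169 k253
  k252 13 14))))))) .n))

def s170_175_143 : T TT 256 :=
  (.f k5 k245 11 (.q k69 [(.s k101 k117 3 (.s k37 k229 7 (.s k53 k21 3 (.d k197 k133 k149 7 11)))),
  (.s k15 k10 2 (.s k90 k240 14 (.s k133 k197 7 (.s k74 k192 10 (.s k64 k79 2 (.d k106 k122 k127 3
  6)))))), (.s k15 k10 2 (.s k90 k240 14 (.s k101 k117 3 (.s k79 k112 6 (.s k74 k64 2 (.d k133 k197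
  k192 7 10))))))] (.c k133 (.l (.s k15 k10 2 (.s k101 k117 3 (.s k37 k229 7 (.s k48 k26 6 (.d k207
  k138 k154 10 14)))))) (.c k159 (.q k191 [(.s k101 k117 3 (.s k37 k229 7 (.s k53 k21 3 (.d k197
  k133 k149 7 11)))), (.s k15 k10 2 (.s k90 k240 14 (.s k133 k197 7 (.s k74 k192 10 (.s k64 k79 2
  (.d k106 k122 k127 3 6)))))), (.s k15 k10 2 (.s k90 k240 14 (.s k101 k117 3 (.s k79 k112 6 (.s k74
  k64 2 (.d k133 k197 k192 7 10))))))] (.c k133 (.l (.s k15 k10 2 (.s k101 k117 3 (.s k37 k229 7 (.s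
  k48 k26 6 (.d k207 k138 k154 10 14)))))) (.c k197 (.l (.s k15 k10 2 (.s k101 k117 3 (.s k207 k138
  10 (.s k229 k37 7 (.d k240 k90 k218 14 6)))))) .n))) (.c k191 (.q k159 [(.s k101 k117 3 (.s k37
  k229 7 (.s k53 k21 3 (.d k197 k149 k133 11 7)))), (.s k15 k10 2 (.s k90 k240 14 (.s k95 k80 2 (.s
  k31 k223 7 (.s k63 k47 3 (.d k207 k111 k138 11 10))))))] (.c k128 (.q k149 [(.d k133 k181 k197 3
  7)] (.c k133 (.l (.s k138 k207 10 (.s k21 k213 7 (.s k37 k53 3 (.d k101 k117 k229 3 7))))) (.c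
  k138 (.l (.d k133 k181 k197 3 7)) (.c k181 (.l (.s k21 k213 7 (.s k53 k37 3 (.d k101 k197 k117 11
  3)))) (.c k197 (.l (.s k101 k117 3 (.s k154 k144 2 (.d k207 k138 k48 10 14)))) .n))))) (.c k149
  (.q k128 [(.s k192 k64 7 (.s k197 k133 7 (.d k207 k202 k138 2 10))), (.s k15 k10 2 (.s k64 k192 7
  (.s k74 k79 2 (.s k90 k240 14 (.d k106 k122 k127 3 6))))), (.s k15 k10 2 (.s k101 k117 3 (.s k37
  k229 7 (.s k48 k26 6 (.d k207 k138 k154 10 14)))))] .n) .n))) (.c k197 (.l (.s k15 k10 2 (.s k101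
  k117 3 (.s k207 k138 10 (.s k229 k37 7 (.d k240 k90 k218 14 6)))))) .n))))))

def s170_175_144 : T TT 256 :=
  (.q k1 [(.s k5 k245 11 (.s k13 k9 1 (.s k89 k241 13 (.s k93 k81 1 (.d k253 k173 k169 11 13))))),
  (.s k3 k2 0 (.s k5 k245 11 (.s k9 k13 1 (.s k6 k12 2 (.s k7 k4 0 (.d k15 k11 k10 1 2)))))), (.s k3
  k2 0 (.s k169 k253 13 (.s k161 k173 1 (.s k240 k82 12 (.s k80 k160 11 (.d k90 k95 k15 2 14))))))]
  (.c k13 (.l (.s k3 k2 0 (.s k5 k245 11 (.s k15 k10 2 (.s k7 k11 1 (.s k86 k244 12 (.d k169 k253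
  k252 13 14))))))) .n))

def s170_175_145 : T TT 256 :=
  (.q k1 [(.s k5 k245 11 (.s k13 k9 1 (.s k89 k241 13 (.s k93 k81 1 (.d k253 k173 k169 11 13))))),
  (.s k3 k2 0 (.s k5 k245 11 (.s k9 k13 1 (.s k6 k12 2 (.s k7 k4 0 (.d k15 k11 k10 1 2)))))), (.s k3
  k2 0 (.s k169 k253 13 (.s k161 k173 1 (.s k240 k82 12 (.s k80 k160 11 (.d k90 k95 k15 2 14))))))]
  (.c k13 (.l (.s k3 k2 0 (.s k5 k245 11 (.s k15 k10 2 (.s k7 k11 1 (.s k86 k244 12 (.d k169 k253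
  k252 13 14))))))) .n))

def s170_175_146 : T TT 256 :=
  (.q k1 [(.s k5 k245 11 (.s k13 k9 1 (.s k89 k241 13 (.s k93 k81 1 (.d k253 k173 k169 11 13))))),
  (.s k3 k2 0 (.s k5 k245 11 (.s k9 k13 1 (.s k6 k12 2 (.s k7 k4 0 (.d k15 k11 k10 1 2)))))), (.s k3
  k2 0 (.s k169 k253 13 (.s k161 k173 1 (.s k240 k82 12 (.s k80 k160 11 (.d k90 k95 k15 2 14))))))]
  (.c k13 (.l (.s k3 k2 0 (.s k5 k245 11 (.s k15 k10 2 (.s k7 k11 1 (.s k86 k244 12 (.d k169 k253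
  k252 13 14))))))) .n))

def s170_175_147 : T TT 256 :=
  (.q k1 [(.s k5 k245 11 (.s k13 k9 1 (.s k89 k241 13 (.s k93 k81 1 (.d k253 k173 k169 11 13))))),
  (.s k3 k2 0 (.s k5 k245 11 (.s k9 k13 1 (.s k6 k12 2 (.s k7 k4 0 (.d k15 k11 k10 1 2)))))), (.s k3
  k2 0 (.s k169 k253 13 (.s k161 k173 1 (.s k240 k82 12 (.s k80 k160 11 (.d k90 k95 k15 2 14))))))]
  (.c k13 (.l (.s k3 k2 0 (.s k5 k245 11 (.s k15 k10 2 (.s k7 k11 1 (.s k86 k244 12 (.d k169 k253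
  k252 13 14))))))) .n))

def s170_175_148 : T TT 256 :=
  (.q k1 [(.s k5 k245 11 (.s k13 k9 1 (.s k89 k241 13 (.s k93 k81 1 (.d k253 k173 k169 11 13))))),
  (.s k3 k2 0 (.s k5 k245 11 (.s k9 k13 1 (.s k6 k12 2 (.s k7 k4 0 (.d k15 k11 k10 1 2)))))), (.s k3
  k2 0 (.s k169 k253 13 (.s k161 k173 1 (.s k240 k82 12 (.s k80 k160 11 (.d k90 k95 k15 2 14))))))]
  (.c k13 (.l (.s k3 k2 0 (.s k5 k245 11 (.s k15 k10 2 (.s k7 k11 1 (.s k86 k244 12 (.d k169 k253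
  k252 13 14))))))) .n))

def s170_175_149 : T TT 256 :=
  (.f k5 k245 11 (.q k1 [(.s k13 k9 1 (.s k89 k241 13 (.s k93 k81 1 (.d k253 k173 k169 11 13)))),
  (.s k3 k2 0 (.s k15 k10 2 (.s k11 k7 1 (.s k90 k240 14 (.d k169 k248 k253 12 13))))), (.s k3 k2 0
  (.s k9 k13 1 (.s k6 k12 2 (.s k7 k4 0 (.d k15 k11 k10 1 2)))))] (.c k128 (.q k191 [(.s k13 k9 1
  (.s k89 k241 13 (.s k93 k81 1 (.d k253 k173 k169 11 13)))), (.s k3 k2 0 (.s k15 k10 2 (.s k11 k7 1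
  (.s k90 k240 14 (.d k169 k248 k253 12 13))))), (.s k3 k2 0 (.s k9 k13 1 (.s k6 k12 2 (.s k7 k4 0
  (.d k15 k11 k10 1 2)))))] .n) (.c k191 (.q k128 [(.s k13 k9 1 (.s k89 k241 13 (.s k93 k81 1 (.d
  k253 k173 k169 11 13)))), (.s k3 k2 0 (.s k15 k10 2 (.s k11 k7 1 (.s k90 k240 14 (.d k169 k248
  k253 12 13))))), (.s k3 k2 0 (.s k9 k13 1 (.s k6 k12 2 (.s k7 k4 0 (.d k15 k11 k10 1 2)))))] (.c
  k143 (.q k159 [(.s k13 k9 1 (.s k89 k241 13 (.s k93 k81 1 (.d k253 k173 k169 11 13)))), (.s k3 k2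
  0 (.s k15 k10 2 (.s k11 k7 1 (.s k90 k240 14 (.d k169 k248 k253 12 13))))), (.s k3 k2 0 (.s k9 k13
  1 (.s k6 k12 2 (.s k7 k4 0 (.d k15 k11 k10 1 2)))))] .n) (.c k159 (.q k143 [(.s k133 k138 2 (.s
  k192 k64 7 (.d k15 k10 k74 2 10))), (.s k13 k9 1 (.s k89 k241 13 (.s k93 k81 1 (.d k253 k173 k169
  11 13))))] (.c k144 (.l (.s k154 k176 6 (.s k15 k10 2 (.s k133 k138 2 (.d k192 k74 k64 10 7)))))
  (.c k154 (.q k144 [(.s k138 k133 2 (.s k207 k69 10 (.d k15 k10 k79 2 7))), (.s k13 k9 1 (.s k89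
  k241 13 (.s k93 k81 1 (.d k253 k173 k169 11 13))))] (.c k138 (.q k186 [(.s k160 k176 3 (.s k240
  k80 11 (.d k15 k10 k90 2 14))), (.s k13 k9 1 (.s k89 k241 13 (.s k93 k81 1 (.d k253 k173 k169 11
  13))))] .n) (.c k186 (.l (.s k138 k133 2 (.s k15 k10 2 (.d k207 k79 k69 7 10)))) .n))) .n))) .n)))
  .n))))

def s170_175_150 : T TT 256 :=
  (.f k5 k245 11 (.q k166 [(.s k4 k247 12 (.s k7 k6 0 (.s k164 k167 0 (.d k244 k84 k86 11 12)))),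
  (.s k15 k10 2 (.s k167 k164 0 (.s k243 k91 13 (.s k81 k162 12 (.d k89 k93 k12 1 14))))), (.s k4
  k247 12 (.s k12 k8 1 (.s k15 k10 2 (.s k14 k13 0 (.d k90 k242 k240 13 14)))))] (.c k130 (.q k190
  [(.s k4 k247 12 (.s k7 k6 0 (.s k164 k167 0 (.d k244 k84 k86 11 12)))), (.s k15 k10 2 (.s k167
  k164 0 (.s k243 k91 13 (.s k81 k162 12 (.d k89 k93 k12 1 14))))), (.s k4 k247 12 (.s k12 k8 1 (.s
  k15 k10 2 (.s k14 k13 0 (.d k90 k242 k240 13 14)))))] .n) (.c k190 (.q k130 [(.s k4 k247 12 (.s k7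
  k6 0 (.s k164 k167 0 (.d k244 k84 k86 11 12)))), (.s k15 k10 2 (.s k167 k164 0 (.s k243 k91 13 (.s
  k81 k162 12 (.d k89 k93 k12 1 14))))), (.s k4 k247 12 (.s k12 k8 1 (.s k15 k10 2 (.s k14 k13 0 (.d
  k90 k242 k240 13 14)))))] .n) .n))))

def s170_175_151 : T TT 256 :=
  (.q k1 [(.s k5 k245 11 (.s k13 k9 1 (.s k89 k241 13 (.s k93 k81 1 (.d k253 k173 k169 11 13))))),
  (.s k3 k2 0 (.s k5 k245 11 (.s k9 k13 1 (.s k6 k12 2 (.s k7 k4 0 (.d k15 k11 k10 1 2)))))), (.s k3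
  k2 0 (.s k169 k253 13 (.s k161 k173 1 (.s k240 k82 12 (.s k80 k160 11 (.d k90 k95 k15 2 14))))))]
  (.c k13 (.l (.s k3 k2 0 (.s k5 k245 11 (.s k15 k10 2 (.s k7 k11 1 (.s k86 k244 12 (.d k169 k253
  k252 13 14))))))) .n))

def s170_175_152 : T TT 256 :=
  (.q k1 [(.s k5 k245 11 (.s k13 k9 1 (.s k89 k241 13 (.s k93 k81 1 (.d k253 k173 k169 11 13))))),
  (.s k3 k2 0 (.s k5 k245 11 (.s k9 k13 1 (.s k6 k12 2 (.s k7 k4 0 (.d k15 k11 k10 1 2)))))), (.s k3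
  k2 0 (.s k169 k253 13 (.s k161 k173 1 (.s k240 k82 12 (.s k80 k160 11 (.d k90 k95 k15 2 14))))))]
  (.c k13 (.l (.s k3 k2 0 (.s k5 k245 11 (.s k15 k10 2 (.s k7 k11 1 (.s k86 k244 12 (.d k169 k253
  k252 13 14))))))) .n))

def s170_175_153 : T TT 256 :=
  (.f k5 k245 11 (.q k154 [(.s k15 k10 2 (.s k16 k223 10 (.s k48 k32 3 (.s k143 k176 6 (.d k207 k101
  k79 14 7))))), (.s k16 k223 10 (.s k48 k32 3 (.s k101 k207 14 (.s k37 k229 7 (.s k53 k21 3 (.s k69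
  k117 3 (.d k197 k133 k149 7 11))))))), (.s k15 k10 2 (.s k143 k176 6 (.s k207 k79 7 (.s k69 k138
  10 (.d k101 k117 k48 3 14))))), (.s k15 k10 2 (.s k16 k223 10 (.s k90 k240 14 (.s k26 k218 7 (.s
  k31 k21 2 (.s k80 k95 2 (.d k208 k144 k149 7 10)))))))] (.c k136 (.q k187 [(.s k15 k10 2 (.s k16
  k223 10 (.s k48 k32 3 (.s k143 k176 6 (.d k207 k101 k79 14 7))))), (.s k16 k223 10 (.s k48 k32 3
  (.s k101 k207 14 (.s k37 k229 7 (.s k53 k21 3 (.s k69 k117 3 (.d k197 k133 k149 7 11))))))), (.s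
  k15 k10 2 (.s k143 k176 6 (.s k207 k79 7 (.s k69 k138 10 (.d k101 k117 k48 3 14))))), (.s k15 k10
  2 (.s k16 k223 10 (.s k90 k240 14 (.s k26 k218 7 (.s k31 k21 2 (.s k80 k95 2 (.d k208 k144 k149 7
  10)))))))] (.c k207 (.l (.s k15 k10 2 (.s k16 k223 10 (.s k48 k32 3 (.s k26 k37 6 (.d k90 k218
  k240 7 14)))))) .n)) (.c k187 (.q k136 [(.s k15 k10 2 (.s k16 k223 10 (.s k48 k32 3 (.s k143 k176
  6 (.d k207 k101 k79 14 7))))), (.s k16 k223 10 (.s k48 k32 3 (.s k204 k68 9 (.s k152 k100 13 (.s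
  k84 k220 9 (.d k168 k184 k252 3 13)))))), (.s k15 k10 2 (.s k143 k176 6 (.s k207 k79 7 (.s k69
  k138 10 (.d k101 k117 k48 3 14))))), (.s k15 k10 2 (.s k16 k223 10 (.s k90 k240 14 (.s k26 k218 7
  (.s k31 k21 2 (.s k80 k95 2 (.d k208 k144 k149 7 10)))))))] .n) (.c k207 (.l (.s k15 k10 2 (.s k16
  k223 10 (.s k48 k32 3 (.s k26 k37 6 (.d k90 k218 k240 7 14)))))) .n)))))

def s170_175_154 : T TT 256 :=
  (.f k5 k245 11 (.q k69 [(.s k101 k117 3 (.s k37 k229 7 (.s k53 k21 3 (.d k197 k133 k149 7 11)))),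
  (.s k15 k10 2 (.s k90 k240 14 (.s k101 k117 3 (.s k79 k112 6 (.d k207 k138 k143 10 7))))), (.s k15
  k10 2 (.s k133 k197 7 (.s k74 k192 10 (.s k79 k64 2 (.d k207 k138 k143 10 7)))))] (.c k138 (.q
  k186 [(.s k101 k117 3 (.s k37 k229 7 (.s k53 k21 3 (.d k197 k133 k149 7 11)))), (.s k15 k10 2 (.s
  k90 k240 14 (.s k133 k197 7 (.s k74 k192 10 (.s k64 k79 2 (.d k106 k122 k127 3 6)))))), (.s k15
  k10 2 (.s k90 k240 14 (.s k95 k80 2 (.s k101 k117 3 (.s k79 k112 6 (.s k127 k111 3 (.d k64 k74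
  k106 2 6)))))))] .n) (.c k186 (.l (.s k138 k207 10 (.s k15 k10 2 (.s k133 k197 7 (.s k128 k143 2
  (.d k192 k64 k74 7 10)))))) .n))))

def s170_175_155 : T TT 256 :=
  (.q k1 [(.s k5 k245 11 (.s k13 k9 1 (.s k89 k241 13 (.s k93 k81 1 (.d k253 k173 k169 11 13))))),
  (.s k3 k2 0 (.s k5 k245 11 (.s k9 k13 1 (.s k6 k12 2 (.s k7 k4 0 (.d k15 k11 k10 1 2)))))), (.s k3
  k2 0 (.s k169 k253 13 (.s k161 k173 1 (.s k240 k82 12 (.s k80 k160 11 (.d k90 k95 k15 2 14))))))]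
  (.c k13 (.l (.s k3 k2 0 (.s k5 k245 11 (.s k15 k10 2 (.s k7 k11 1 (.s k86 k244 12 (.d k169 k253
  k252 13 14))))))) .n))

def s170_175_156 : T TT 256 :=
  (.q k1 [(.s k5 k245 11 (.s k13 k9 1 (.s k89 k241 13 (.s k93 k81 1 (.d k253 k173 k169 11 13))))),
  (.s k3 k2 0 (.s k5 k245 11 (.s k9 k13 1 (.s k6 k12 2 (.s k7 k4 0 (.d k15 k11 k10 1 2)))))), (.s k3
  k2 0 (.s k169 k253 13 (.s k161 k173 1 (.s k240 k82 12 (.s k80 k160 11 (.d k90 k95 k15 2 14))))))]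
  (.c k13 (.l (.s k3 k2 0 (.s k5 k245 11 (.s k15 k10 2 (.s k7 k11 1 (.s k86 k244 12 (.d k169 k253
  k252 13 14))))))) .n))

def s170_175_157 : T TT 256 :=
  (.q k1 [(.s k5 k245 11 (.s k13 k9 1 (.s k89 k241 13 (.s k93 k81 1 (.d k253 k173 k169 11 13))))),
  (.s k3 k2 0 (.s k5 k245 11 (.s k9 k13 1 (.s k6 k12 2 (.s k7 k4 0 (.d k15 k11 k10 1 2)))))), (.s k3
  k2 0 (.s k169 k253 13 (.s k161 k173 1 (.s k240 k82 12 (.s k80 k160 11 (.d k90 k95 k15 2 14))))))]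
  (.c k13 (.l (.s k3 k2 0 (.s k5 k245 11 (.s k15 k10 2 (.s k7 k11 1 (.s k86 k244 12 (.d k169 k253
  k252 13 14))))))) .n))

def s170_175_158 : T TT 256 :=
  (.q k1 [(.s k5 k245 11 (.s k13 k9 1 (.s k89 k241 13 (.s k93 k81 1 (.d k253 k173 k169 11 13))))),
  (.s k3 k2 0 (.s k5 k245 11 (.s k9 k13 1 (.s k6 k12 2 (.s k7 k4 0 (.d k15 k11 k10 1 2)))))), (.s k3
  k2 0 (.s k169 k253 13 (.s k161 k173 1 (.s k240 k82 12 (.s k80 k160 11 (.d k90 k95 k15 2 14))))))]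
  (.c k13 (.l (.s k3 k2 0 (.s k5 k245 11 (.s k15 k10 2 (.s k7 k11 1 (.s k86 k244 12 (.d k169 k253
  k252 13 14))))))) .n))

def s170_175_159 : T TT 256 :=
  (.f k5 k245 11 (.q k143 [(.s k15 k10 2 (.s k154 k176 6 (.s k207 k79 7 (.s k69 k138 10 (.d k101
  k117 k48 3 14))))), (.s k154 k176 6 (.s k16 k223 10 (.s k48 k32 3 (.s k101 k207 14 (.s k37 k229 7
  (.s k21 k53 3 (.d k26 k31 k15 2 6))))))), (.s k15 k10 2 (.s k207 k79 7 (.s k69 k138 10 (.s k101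
  k117 3 (.s k229 k37 7 (.d k240 k90 k218 14 6)))))), (.s k15 k10 2 (.s k90 k240 14 (.s k154 k176 6
  (.s k16 k223 10 (.s k26 k218 7 (.d k48 k32 k37 3 6))))))] (.c k15 (.f k154 k176 6 (.l (.s k16 k223
  10 (.s k48 k32 3 (.s k101 k207 14 (.s k37 k229 7 (.s k53 k21 3 (.s k69 k117 3 (.d k197 k133 k149 7
  11))))))))) (.c k154 (.l (.s k15 k10 2 (.s k79 k207 7 (.s k90 k240 14 (.s k101 k112 6 (.s k69 k117
  3 (.s k74 k64 2 (.d k133 k197 k192 7 10)))))))) (.c k207 (.l (.s k15 k10 2 (.s k90 k240 14 (.s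
  k154 k176 6 (.s k16 k223 10 (.s k48 k32 3 (.d k26 k218 k37 7 6))))))) .n)))))

def s170_175_160 : T TT 256 :=
  (.q k1 [(.s k5 k245 11 (.s k13 k9 1 (.s k89 k241 13 (.s k93 k81 1 (.d k253 k173 k169 11 13))))),
  (.s k3 k2 0 (.s k5 k245 11 (.s k9 k13 1 (.s k6 k12 2 (.s k7 k4 0 (.d k15 k11 k10 1 2)))))), (.s k3
  k2 0 (.s k169 k253 13 (.s k86 k252 14 (.s k7 k244 12 (.s k15 k11 1 (.s k161 k173 1 (.d k240 k82
  k90 12 14)))))))] (.c k13 (.l (.s k3 k2 0 (.s k5 k245 11 (.s k15 k10 2 (.s k7 k11 1 (.s k86 k244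
  12 (.d k169 k253 k252 13 14))))))) .n))

def s170_175_161 : T TT 256 :=
  (.q k4 [(.s k5 k245 11 (.s k7 k6 0 (.s k86 k244 12 (.s k87 k84 0 (.d k247 k167 k166 11 12))))),
  (.s k5 k245 11 (.s k6 k7 0 (.s k10 k15 2 (.s k2 k14 1 (.s k3 k1 0 (.d k12 k8 k9 1 2)))))), (.s k12
  k8 1 (.s k166 k247 12 (.s k164 k167 0 (.s k240 k88 13 (.s k80 k160 11 (.d k90 k95 k15 2 14))))))]
  (.c k7 (.l (.s k5 k245 11 (.s k12 k8 1 (.s k15 k10 2 (.s k13 k14 0 (.s k89 k241 13 (.d k166 k247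
  k243 12 14))))))) .n))

def s170_175_162 : T TT 256 :=
  (.q k166 [(.s k167 k164 0 (.s k245 k5 11 (.s k247 k4 12 (.s k7 k87 11 (.d k244 k246 k86 0 12))))),
  (.s k5 k245 11 (.s k15 k10 2 (.s k90 k240 14 (.s k14 k242 13 (.s k12 k13 0 (.s k167 k164 0 (.d
  k243 k91 k89 13 14))))))), (.s k4 k247 12 (.s k12 k8 1 (.s k164 k167 0 (.s k240 k88 13 (.s k80
  k160 11 (.d k90 k95 k15 2 14)))))), (.s k4 k247 12 (.s k5 k245 11 (.s k12 k8 1 (.s k15 k10 2 (.s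
  k13 k14 0 (.d k89 k241 k243 13 14))))))] .n)

def s170_175_163 : T TT 256 :=
  (.f k5 k245 11 (.q k167 [(.s k15 k10 2 (.s k166 k164 0 (.s k243 k91 13 (.s k81 k162 12 (.d k89 k93
  k12 1 14))))), (.s k166 k164 0 (.s k4 k247 12 (.s k6 k7 0 (.s k12 k8 1 (.s k89 k243 14 (.s k13
  k241 13 (.d k9 k3 k1 2 1))))))), (.s k15 k10 2 (.s k243 k91 13 (.s k81 k162 12 (.s k89 k93 1 (.s
  k241 k13 13 (.d k240 k90 k242 14 0))))))] (.c k89 (.l (.s k15 k10 2 (.s k90 k240 14 (.s k166 k164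
  0 (.s k4 k247 12 (.s k14 k242 13 (.d k12 k13 k8 0 1))))))) (.c k166 (.f k15 k10 2 (.l (.s k90 k240
  14 (.s k91 k243 13 (.s k89 k88 0 (.s k93 k81 1 (.s k95 k80 2 (.s k83 k87 1 (.d k92 k94 k86 0
  2))))))))) (.c k243 (.l (.s k15 k10 2 (.s k90 k240 14 (.s k166 k164 0 (.s k4 k247 12 (.s k12 k8 1
  (.d k14 k242 k13 13 0))))))) .n)))))

def s170_175_164 : T TT 256 :=
  (.q k1 [(.s k5 k245 11 (.s k13 k9 1 (.s k89 k241 13 (.s k93 k81 1 (.d k253 k173 k169 11 13))))),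
  (.s k3 k2 0 (.s k5 k245 11 (.s k9 k13 1 (.s k6 k12 2 (.s k7 k4 0 (.d k15 k11 k10 1 2)))))), (.s k3
  k2 0 (.s k169 k253 13 (.s k161 k173 1 (.s k240 k82 12 (.s k80 k160 11 (.d k90 k95 k15 2 14))))))]
  (.c k13 (.l (.s k3 k2 0 (.s k5 k245 11 (.s k15 k10 2 (.s k7 k11 1 (.s k86 k244 12 (.d k169 k253
  k252 13 14))))))) .n))

def s170_175_166 : T TT 256 :=
  (.f k5 k245 11 (.q k169 [(.s k1 k253 13 (.s k13 k9 1 (.s k161 k173 1 (.d k241 k81 k89 11 13)))),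
  (.s k15 k10 2 (.s k173 k161 1 (.s k252 k94 12 (.s k84 k168 13 (.d k86 k87 k3 0 14))))), (.s k1
  k253 13 (.s k3 k2 0 (.s k15 k10 2 (.s k11 k7 1 (.d k90 k248 k240 12 14)))))] (.c k162 (.q k174
  [(.s k1 k253 13 (.s k13 k9 1 (.s k161 k173 1 (.d k241 k81 k89 11 13)))), (.s k15 k10 2 (.s k173
  k161 1 (.s k252 k94 12 (.s k84 k168 13 (.d k86 k87 k3 0 14))))), (.s k1 k253 13 (.s k3 k2 0 (.s
  k15 k10 2 (.s k11 k7 1 (.d k90 k248 k240 12 14)))))] .n) (.c k174 (.q k162 [(.s k1 k253 13 (.s k81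
  k243 12 (.d k161 k173 k241 1 11))), (.s k15 k10 2 (.s k173 k161 1 (.s k252 k94 12 (.s k84 k168 13
  (.d k86 k87 k3 0 14)))))] (.c k161 (.l (.s k1 k253 13 (.s k9 k13 1 (.s k81 k243 12 (.d k89 k93
  k249 1 11))))) (.c k172 (.l (.s k173 k161 1 (.s k81 k243 12 (.s k253 k1 13 (.d k93 k89 k13 1
  11))))) (.c k173 (.q k172 [(.s k1 k253 13 (.s k13 k9 1 (.s k81 k243 12 (.d k89 k93 k241 1 13)))),
  (.s k15 k10 2 (.s k90 k240 14 (.s k11 k248 12 (.s k3 k7 1 (.d k1 k2 k253 0 13)))))] (.c k1 (.q k2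
  [(.s k15 k10 2 (.s k242 k82 11 (.s k243 k81 12 (.d k240 k241 k90 0 14)))), (.s k10 k15 2 (.s k6
  k14 1 (.s k4 k7 0 (.s k12 k8 1 (.s k3 k9 2 (.d k252 k92 k86 11 14)))))), (.s k81 k243 12 (.s k82
  k242 11 (.s k83 k80 0 (.s k89 k93 1 (.s k86 k92 2 (.s k84 k87 0 (.d k252 k168 k3 13 14))))))), (.s
  k10 k15 2 (.s k81 k243 12 (.s k89 k93 1 (.s k9 k249 11 (.s k8 k11 0 (.s k12 k4 1 (.d k6 k3 k14 2
  1)))))))] .n) (.c k253 (.l (.s k15 k10 2 (.s k90 k240 14 (.s k11 k248 12 (.s k3 k7 1 (.s k2 k1 0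
  (.s k82 k242 11 (.d k86 k252 k94 14 1)))))))) .n))) .n)))) .n))))

def s170_175_167 : T TT 256 :=
  (.f k5 k245 11 (.q k64 [(.s k15 k10 2 (.s k106 k127 6 (.s k47 k224 10 (.s k63 k31 3 (.d k192 k128
  k149 7 14))))), (.s k106 k127 6 (.s k192 k128 7 (.s k149 k63 14 (.s k21 k213 7 (.s k53 k37 3 (.s
  k133 k181 3 (.d k197 k69 k101 7 11))))))), (.s k15 k10 2 (.s k90 k240 14 (.s k80 k95 2 (.s k112
  k96 3 (.s k192 k128 7 (.s k74 k133 10 (.d k79 k69 k101 2 6))))))), (.s k15 k10 2 (.s k90 k240 14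
  (.s k80 k95 2 (.s k106 k127 6 (.s k74 k122 3 (.s k79 k69 2 (.d k112 k96 k101 3 6)))))))] (.c k163
  (.q k171 [(.s k15 k10 2 (.s k106 k127 6 (.s k47 k224 10 (.s k63 k31 3 (.d k192 k128 k149 7
  14))))), (.s k106 k127 6 (.s k192 k128 7 (.s k149 k63 14 (.s k21 k213 7 (.s k53 k37 3 (.s k133
  k181 3 (.d k197 k69 k101 7 11))))))), (.s k15 k10 2 (.s k90 k240 14 (.s k80 k95 2 (.s k112 k96 3
  (.s k192 k128 7 (.s k74 k133 10 (.d k79 k69 k101 2 6))))))), (.s k15 k10 2 (.s k90 k240 14 (.s k80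
  k95 2 (.s k106 k127 6 (.s k74 k122 3 (.s k79 k69 2 (.d k112 k96 k101 3 6)))))))] .n) (.c k171 (.q
  k163 [(.s k15 k10 2 (.s k106 k127 6 (.s k47 k224 10 (.s k63 k31 3 (.d k192 k128 k149 7 14))))),
  (.s k106 k127 6 (.s k192 k128 7 (.s k149 k63 14 (.s k21 k213 7 (.s k53 k37 3 (.s k133 k181 3 (.d
  k197 k69 k101 7 11))))))), (.s k15 k10 2 (.s k90 k240 14 (.s k80 k95 2 (.s k112 k96 3 (.s k192
  k128 7 (.s k74 k133 10 (.d k79 k69 k101 2 6))))))), (.s k15 k10 2 (.s k90 k240 14 (.s k80 k95 2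
  (.s k106 k127 6 (.s k74 k122 3 (.s k79 k69 2 (.d k112 k96 k101 3 6)))))))] (.c k168 (.q k169 [(.s
  k1 k253 13 (.s k13 k9 1 (.s k161 k173 1 (.d k241 k81 k89 11 13)))), (.s k15 k10 2 (.s k161 k173 1
  (.s k160 k162 0 (.d k240 k90 k80 14 11)))), (.s k1 k253 13 (.s k3 k2 0 (.s k15 k10 2 (.s k7 k11 1
  (.d k86 k244 k252 12 14)))))] .n) (.c k169 (.q k168 [(.s k15 k10 2 (.s k106 k127 6 (.s k47 k224 10
  (.s k63 k31 3 (.d k192 k128 k149 7 14))))), (.s k84 k252 13 (.s k104 k124 5 (.s k40 k232 7 (.s k60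
  k20 5 (.d k192 k128 k148 7 13))))), (.s k84 k252 13 (.s k86 k87 0 (.s k106 k127 6 (.s k66 k126 5
  (.s k67 k65 0 (.d k124 k104 k105 5 6))))))] (.c k106 (.l (.s k84 k252 13 (.s k104 k124 5 (.s k192
  k128 7 (.s k60 k148 13 (.d k40 k20 k232 5 7)))))) .n)) .n))) .n))))

def s170_175_168 : T TT 256 :=
  (.q k169 [(.s k173 k161 1 (.s k245 k5 11 (.s k253 k1 13 (.s k13 k93 11 (.d k241 k249 k89 1
  13))))), (.s k5 k245 11 (.s k15 k10 2 (.s k90 k240 14 (.s k11 k248 12 (.s k3 k7 1 (.s k173 k161 1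
  (.d k252 k94 k86 12 14))))))), (.s k1 k253 13 (.s k3 k2 0 (.s k161 k173 1 (.s k240 k82 12 (.s k80
  k160 11 (.d k90 k95 k15 2 14)))))), (.s k1 k253 13 (.s k3 k2 0 (.s k5 k245 11 (.s k15 k10 2 (.s k7
  k11 1 (.d k86 k244 k252 12 14))))))] .n)

def s170_175_169 : T TT 256 :=
  (.f k5 k245 11 (.q k167 [(.s k15 k10 2 (.s k166 k164 0 (.s k243 k91 13 (.s k81 k162 12 (.d k89 k93
  k12 1 14))))), (.s k166 k164 0 (.s k4 k247 12 (.s k6 k7 0 (.s k12 k8 1 (.s k89 k243 14 (.s k13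
  k241 13 (.d k9 k1 k3 1 2))))))), (.s k15 k10 2 (.s k90 k240 14 (.s k91 k243 13 (.s k95 k80 2 (.s
  k87 k83 1 (.s k7 k247 11 (.d k86 k244 k84 12 0)))))))] (.c k168 (.q k171 [(.s k15 k10 2 (.s k243
  k91 13 (.s k81 k162 12 (.s k89 k93 1 (.d k166 k164 k12 0 14))))), (.s k166 k164 0 (.s k4 k247 12
  (.s k6 k7 0 (.s k12 k8 1 (.s k89 k243 14 (.s k13 k241 13 (.d k9 k1 k3 1 2))))))), (.s k15 k10 2
  (.s k91 k243 13 (.s k11 k251 11 (.s k7 k3 1 (.s k86 k244 12 (.d k87 k247 k84 11 0))))))] (.c k89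
  (.l (.s k15 k10 2 (.s k90 k240 14 (.s k166 k164 0 (.s k4 k247 12 (.s k14 k242 13 (.d k12 k13 k8 0
  1))))))) (.c k243 (.l (.s k15 k10 2 (.s k90 k240 14 (.s k166 k164 0 (.s k4 k247 12 (.s k12 k8 1
  (.d k14 k242 k13 13 0))))))) .n))) (.c k171 (.q k168 [(.s k166 k164 0 (.s k247 k4 12 (.s k87 k7 11
  (.d k84 k86 k252 0 13)))), (.s k15 k10 2 (.s k166 k164 0 (.s k243 k91 13 (.s k81 k162 12 (.d k89
  k93 k12 1 14))))), (.s k15 k10 2 (.s k84 k252 13 (.s k90 k240 14 (.s k80 k95 2 (.s k88 k92 1 (.d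
  k91 k89 k243 0 13))))))] .n) (.c k243 (.l (.s k15 k10 2 (.s k90 k240 14 (.s k166 k164 0 (.s k4
  k247 12 (.s k12 k8 1 (.d k14 k242 k13 13 0))))))) .n)))))

def s170_175_171 : T TT 256 :=
  (.f k5 k245 11 (.q k169 [(.s k1 k253 13 (.s k13 k9 1 (.s k161 k173 1 (.d k241 k81 k89 11 13)))),
  (.s k15 k10 2 (.s k173 k161 1 (.s k252 k94 12 (.s k84 k168 13 (.d k86 k87 k3 0 14))))), (.s k1
  k253 13 (.s k3 k2 0 (.s k15 k10 2 (.s k11 k7 1 (.d k90 k248 k240 12 14)))))] (.c k163 (.q k167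
  [(.s k1 k253 13 (.s k13 k9 1 (.s k161 k173 1 (.d k241 k81 k89 11 13)))), (.s k15 k10 2 (.s k166
  k164 0 (.s k4 k247 12 (.s k12 k8 1 (.d k243 k89 k91 14 13))))), (.s k1 k253 13 (.s k3 k2 0 (.s k15
  k10 2 (.s k11 k7 1 (.d k90 k248 k240 12 14)))))] .n) (.c k167 (.q k163 [(.s k1 k253 13 (.s k13 k9
  1 (.s k161 k173 1 (.d k241 k81 k89 11 13)))), (.s k15 k10 2 (.s k161 k173 1 (.s k160 k162 0 (.d
  k240 k90 k80 14 11)))), (.s k1 k253 13 (.s k3 k2 0 (.s k15 k10 2 (.s k7 k11 1 (.d k86 k244 k252 12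
  14)))))] .n) .n))))

def s170_175_172 : T TT 256 :=
  (.f k5 k245 11 (.q k173 [(.s k15 k10 2 (.s k169 k161 1 (.s k252 k94 12 (.s k84 k168 13 (.d k86 k87
  k3 0 14))))), (.s k169 k161 1 (.s k1 k253 13 (.s k3 k2 0 (.s k9 k13 1 (.s k86 k252 14 (.s k7 k244
  12 (.d k6 k12 k4 2 0))))))), (.s k15 k10 2 (.s k252 k94 12 (.s k84 k168 13 (.s k86 k87 0 (.s k244
  k7 12 (.d k240 k90 k248 14 1))))))] (.c k86 (.l (.s k15 k10 2 (.s k90 k240 14 (.s k169 k161 1 (.s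
  k1 k253 13 (.s k11 k248 12 (.d k3 k2 k7 0 1))))))) (.c k169 (.f k15 k10 2 (.l (.s k90 k240 14 (.s
  k94 k252 12 (.s k86 k82 1 (.s k87 k84 0 (.s k95 k80 2 (.s k83 k91 1 (.d k92 k93 k89 0 2)))))))))
  (.c k252 (.l (.s k15 k10 2 (.s k90 k240 14 (.s k169 k161 1 (.s k1 k253 13 (.s k3 k2 0 (.d k11 k248
  k7 12 1))))))) .n)))))

def s170_175_173 : T TT 256 :=
  (.f k5 k245 11 (.q k86 [(.s k7 k244 12 (.s k4 k6 0 (.s k87 k84 0 (.d k247 k167 k166 11 12)))), (.s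
  k15 k10 2 (.s k84 k87 0 (.s k90 k240 14 (.s k80 k95 2 (.s k82 k94 1 (.s k83 k81 0 (.d k92 k88 k89
  1 2))))))), (.s k7 k244 12 (.s k15 k10 2 (.s k3 k11 1 (.s k1 k2 0 (.d k169 k253 k252 13 14)))))]
  (.c k172 (.q k174 [(.s k7 k244 12 (.s k4 k6 0 (.s k87 k84 0 (.d k247 k167 k166 11 12)))), (.s k15
  k10 2 (.s k84 k87 0 (.s k90 k240 14 (.s k80 k95 2 (.s k82 k94 1 (.s k83 k81 0 (.d k92 k88 k89 1
  2))))))), (.s k7 k244 12 (.s k15 k10 2 (.s k3 k11 1 (.s k1 k2 0 (.d k169 k253 k252 13 14)))))] .n)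
  (.c k174 (.q k172 [(.s k7 k244 12 (.s k4 k6 0 (.s k87 k84 0 (.d k247 k166 k167 12 11)))), (.s k15
  k10 2 (.s k84 k87 0 (.s k168 k252 13 (.s k160 k164 1 (.d k240 k90 k80 14 11))))), (.s k7 k244 12
  (.s k15 k10 2 (.s k3 k11 1 (.s k1 k2 0 (.d k169 k253 k252 13 14)))))] (.c k162 (.q k166 [(.s k4
  k247 12 (.d k6 k246 k7 11 0)), (.s k84 k87 0 (.s k168 k252 13 (.d k164 k167 k160 0 1)))] .n) (.c
  k166 (.q k162 [(.s k84 k87 0 (.s k168 k252 13 (.s k164 k160 1 (.d k244 k4 k7 11 12)))), (.s k15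
  k10 2 (.s k81 k243 12 (.s k90 k240 14 (.s k80 k95 2 (.d k82 k83 k94 0 1))))), (.s k84 k87 0 (.s
  k244 k7 12 (.s k164 k4 11 (.d k168 k160 k252 1 13))))] .n) .n))) .n))))

def s170_175_174 : T TT 256 :=
  (.f k5 k245 11 (.q k173 [(.s k15 k10 2 (.s k169 k161 1 (.s k252 k94 12 (.s k84 k168 13 (.d k86 k87
  k3 0 14))))), (.s k169 k161 1 (.s k1 k253 13 (.s k3 k2 0 (.s k9 k13 1 (.s k86 k252 14 (.s k7 k244
  12 (.d k6 k4 k12 0 2))))))), (.s k15 k10 2 (.s k90 k240 14 (.s k94 k252 12 (.s k95 k80 2 (.s k93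
  k92 0 (.s k13 k253 11 (.d k89 k241 k81 13 1)))))))] (.c k162 (.q k166 [(.s k4 k247 12 (.s k7 k6 0
  (.s k164 k167 0 (.d k244 k84 k86 11 12)))), (.s k15 k10 2 (.s k90 k240 14 (.s k14 k242 13 (.s k12
  k13 0 (.d k4 k8 k247 1 12))))), (.s k15 k10 2 (.s k169 k161 1 (.s k1 k253 13 (.s k3 k2 0 (.d k252
  k86 k94 14 12)))))] .n) (.c k166 (.q k162 [(.s k169 k161 1 (.s k253 k1 13 (.s k93 k13 11 (.d k81
  k89 k243 1 12)))), (.s k15 k10 2 (.s k169 k161 1 (.s k252 k94 12 (.s k84 k168 13 (.d k86 k87 k3 0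
  14))))), (.s k15 k10 2 (.s k81 k243 12 (.s k90 k240 14 (.s k80 k95 2 (.s k82 k83 0 (.d k94 k86
  k252 1 12))))))] .n) (.c k252 (.l (.s k15 k10 2 (.s k90 k240 14 (.s k169 k161 1 (.s k1 k253 13 (.s
  k3 k2 0 (.d k11 k248 k7 12 1))))))) (.c k254 (.l (.s k15 k10 2 (.s k90 k240 14 (.s k169 k161 1 (.s
  k1 k253 13 (.s k11 k248 12 (.d k3 k2 k7 0 1))))))) .n))))))

def s170_175_176 : T TT 256 :=
  (.q k1 [(.s k5 k245 11 (.s k13 k9 1 (.s k89 k241 13 (.s k93 k81 1 (.d k253 k173 k169 11 13))))),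
  (.s k3 k2 0 (.s k5 k245 11 (.s k9 k13 1 (.s k6 k12 2 (.s k7 k4 0 (.d k15 k11 k10 1 2)))))), (.s k3
  k2 0 (.s k169 k253 13 (.s k161 k173 1 (.s k240 k82 12 (.s k80 k160 11 (.d k90 k95 k15 2 14))))))]
  (.c k13 (.l (.s k3 k2 0 (.s k5 k245 11 (.s k15 k10 2 (.s k7 k11 1 (.s k86 k244 12 (.d k169 k253
  k252 13 14))))))) .n))

def s170_175_177 : T TT 256 :=
  (.q k1 [(.s k5 k245 11 (.s k13 k9 1 (.s k89 k241 13 (.s k93 k81 1 (.d k253 k173 k169 11 13))))),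
  (.s k3 k2 0 (.s k5 k245 11 (.s k9 k13 1 (.s k6 k12 2 (.s k7 k4 0 (.d k15 k11 k10 1 2)))))), (.s k3
  k2 0 (.s k169 k253 13 (.s k161 k173 1 (.s k240 k82 12 (.s k80 k160 11 (.d k90 k95 k15 2 14))))))]
  (.c k13 (.l (.s k3 k2 0 (.s k5 k245 11 (.s k15 k10 2 (.s k7 k11 1 (.s k86 k244 12 (.d k169 k253
  k252 13 14))))))) .n))

def s170_175_178 : T TT 256 :=
  (.q k1 [(.s k5 k245 11 (.s k13 k9 1 (.s k89 k241 13 (.s k93 k81 1 (.d k253 k173 k169 11 13))))),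
  (.s k3 k2 0 (.s k5 k245 11 (.s k9 k13 1 (.s k6 k12 2 (.s k7 k4 0 (.d k15 k11 k10 1 2)))))), (.s k3
  k2 0 (.s k169 k253 13 (.s k161 k173 1 (.s k240 k82 12 (.s k80 k160 11 (.d k90 k95 k15 2 14))))))]
  (.c k13 (.l (.s k3 k2 0 (.s k5 k245 11 (.s k15 k10 2 (.s k7 k11 1 (.s k86 k244 12 (.d k169 k253
  k252 13 14))))))) .n))

def s170_175_179 : T TT 256 :=
  (.q k1 [(.s k5 k245 11 (.s k13 k9 1 (.s k89 k241 13 (.s k93 k81 1 (.d k253 k173 k169 11 13))))),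
  (.s k3 k2 0 (.s k5 k245 11 (.s k9 k13 1 (.s k6 k12 2 (.s k7 k4 0 (.d k15 k11 k10 1 2)))))), (.s k3
  k2 0 (.s k169 k253 13 (.s k161 k173 1 (.s k240 k82 12 (.s k80 k160 11 (.d k90 k95 k15 2 14))))))]
  (.c k13 (.l (.s k3 k2 0 (.s k5 k245 11 (.s k15 k10 2 (.s k7 k11 1 (.s k86 k244 12 (.d k169 k253
  k252 13 14))))))) .n))

def s170_175_180 : T TT 256 :=
  (.q k1 [(.s k5 k245 11 (.s k13 k9 1 (.s k89 k241 13 (.s k93 k81 1 (.d k253 k173 k169 11 13))))),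
  (.s k3 k2 0 (.s k5 k245 11 (.s k9 k13 1 (.s k6 k12 2 (.s k7 k4 0 (.d k15 k11 k10 1 2)))))), (.s k3
  k2 0 (.s k169 k253 13 (.s k161 k173 1 (.s k240 k82 12 (.s k80 k160 11 (.d k90 k95 k15 2 14))))))]
  (.c k13 (.l (.s k3 k2 0 (.s k5 k245 11 (.s k15 k10 2 (.s k7 k11 1 (.s k86 k244 12 (.d k169 k253
  k252 13 14))))))) .n))

def s170_175_181 : T TT 256 :=
  (.q k1 [(.s k245 k5 11 (.s k253 k169 13 (.s k241 k249 1 (.s k89 k13 13 (.d k81 k93 k161 1 11))))),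
  (.s k3 k2 0 (.s k5 k245 11 (.s k9 k13 1 (.s k6 k12 2 (.s k7 k4 0 (.d k15 k11 k10 1 2)))))), (.s k3
  k2 0 (.s k169 k253 13 (.s k161 k173 1 (.s k240 k82 12 (.s k80 k160 11 (.d k90 k95 k15 2 14))))))]
  (.c k13 (.l (.s k3 k2 0 (.s k5 k245 11 (.s k15 k10 2 (.s k7 k11 1 (.s k86 k244 12 (.d k169 k253
  k252 13 14))))))) .n))

def s170_175_182 : T TT 256 :=
  (.q k1 [(.s k5 k245 11 (.s k13 k9 1 (.s k89 k241 13 (.s k93 k81 1 (.d k253 k173 k169 11 13))))),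
  (.s k3 k2 0 (.s k5 k245 11 (.s k9 k13 1 (.s k6 k12 2 (.s k7 k4 0 (.d k15 k11 k10 1 2)))))), (.s k3
  k2 0 (.s k169 k253 13 (.s k161 k173 1 (.s k240 k82 12 (.s k80 k160 11 (.d k90 k95 k15 2 14))))))]
  (.c k13 (.l (.s k3 k2 0 (.s k5 k245 11 (.s k15 k10 2 (.s k7 k11 1 (.s k86 k244 12 (.d k169 k253
  k252 13 14))))))) .n))

def s170_175_183 : T TT 256 :=
  (.q k1 [(.s k5 k245 11 (.s k13 k9 1 (.s k89 k241 13 (.s k93 k81 1 (.d k253 k173 k169 11 13))))),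
  (.s k3 k2 0 (.s k5 k245 11 (.s k9 k13 1 (.s k6 k12 2 (.s k7 k4 0 (.d k15 k11 k10 1 2)))))), (.s k3
  k2 0 (.s k169 k253 13 (.s k161 k173 1 (.s k240 k82 12 (.s k80 k160 11 (.d k90 k95 k15 2 14))))))]
  (.c k13 (.l (.s k3 k2 0 (.s k5 k245 11 (.s k15 k10 2 (.s k7 k11 1 (.s k86 k244 12 (.d k169 k253
  k252 13 14))))))) .n))

def s170_175_184 : T TT 256 :=
  (.q k1 [(.s k5 k245 11 (.s k13 k9 1 (.s k89 k241 13 (.s k93 k81 1 (.d k253 k173 k169 11 13))))),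
  (.s k3 k2 0 (.s k5 k245 11 (.s k9 k13 1 (.s k6 k12 2 (.s k7 k4 0 (.d k15 k11 k10 1 2)))))), (.s k3
  k2 0 (.s k169 k253 13 (.s k161 k173 1 (.s k240 k82 12 (.s k80 k160 11 (.d k90 k95 k15 2 14))))))]
  (.c k13 (.l (.s k3 k2 0 (.s k5 k245 11 (.s k15 k10 2 (.s k7 k11 1 (.s k86 k244 12 (.d k169 k253
  k252 13 14))))))) .n))

def s170_175_185 : T TT 256 :=
  (.q k1 [(.s k5 k245 11 (.s k13 k9 1 (.s k89 k241 13 (.s k93 k81 1 (.d k253 k173 k169 11 13))))),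
  (.s k3 k2 0 (.s k5 k245 11 (.s k9 k13 1 (.s k6 k12 2 (.s k7 k4 0 (.d k15 k11 k10 1 2)))))), (.s k3
  k2 0 (.s k169 k253 13 (.s k161 k173 1 (.s k240 k82 12 (.s k80 k160 11 (.d k90 k95 k15 2 14))))))]
  (.c k13 (.l (.s k3 k2 0 (.s k5 k245 11 (.s k15 k10 2 (.s k7 k11 1 (.s k86 k244 12 (.d k169 k253
  k252 13 14))))))) .n))

def s170_175_186 : T TT 256 :=
  (.f k5 k245 11 (.q k154 [(.s k15 k10 2 (.s k16 k223 10 (.s k48 k32 3 (.s k90 k240 14 (.d k26 k37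
  k218 6 7))))), (.s k15 k10 2 (.s k143 k176 6 (.s k207 k79 7 (.s k69 k138 10 (.d k101 k117 k48 3
  14))))), (.s k16 k223 10 (.s k48 k32 3 (.s k101 k207 14 (.s k37 k229 7 (.s k53 k21 3 (.s k69 k117
  3 (.d k197 k133 k149 7 11))))))), (.s k15 k10 2 (.s k16 k223 10 (.s k90 k240 14 (.s k26 k218 7 (.s
  k31 k21 2 (.s k80 k95 2 (.d k208 k144 k149 7 10)))))))] .n))

def s170_175_187 : T TT 256 :=
  (.f k5 k245 11 (.q k192 [(.s k15 k10 2 (.s k64 k128 7 (.s k106 k127 6 (.s k47 k224 10 (.d k63 k149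
  k31 14 3))))), (.s k15 k10 2 (.s k128 k64 7 (.s k133 k74 10 (.s k69 k197 7 (.d k138 k143 k207 2
  10))))), (.s k64 k128 7 (.s k106 k127 6 (.s k149 k63 14 (.s k21 k213 7 (.s k53 k37 3 (.s k133 k181
  3 (.d k197 k69 k101 7 11))))))), (.s k15 k10 2 (.s k133 k74 10 (.s k149 k181 3 (.s k21 k213 7 (.d
  k63 k42 k106 6 14)))))] (.c k136 (.q k153 [(.s k15 k10 2 (.s k17 k221 9 (.s k51 k34 4 (.s k27 k39
  5 (.d k90 k216 k240 8 14))))), (.s k15 k10 2 (.s k64 k128 7 (.s k74 k133 10 (.s k90 k240 14 (.d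
  k106 k122 k127 3 6))))), (.s k17 k221 9 (.s k51 k34 4 (.s k64 k128 7 (.s k98 k145 12 (.s k102 k204
  14 (.d k106 k110 k127 1 6))))))] .n) (.c k153 (.q k136 [(.s k15 k10 2 (.s k64 k128 7 (.s k106 k127
  6 (.s k47 k224 10 (.d k63 k149 k31 14 3))))), (.s k64 k128 7 (.s k68 k204 9 (.s k72 k76 1 (.s k8
  k200 7 (.d k12 k4 k132 1 9))))), (.s k15 k10 2 (.s k133 k74 10 (.s k149 k181 3 (.s k21 k213 7 (.d
  k63 k42 k106 6 14))))), (.s k15 k10 2 (.s k128 k64 7 (.s k133 k74 10 (.s k69 k197 7 (.d k138 k143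
  k207 2 10)))))] .n) .n))))

def s170_175_188 : T TT 256 :=
  (.q k1 [(.s k5 k245 11 (.s k13 k9 1 (.s k89 k241 13 (.s k93 k81 1 (.d k253 k173 k169 11 13))))),
  (.s k3 k2 0 (.s k5 k245 11 (.s k9 k13 1 (.s k6 k12 2 (.s k7 k4 0 (.d k15 k11 k10 1 2)))))), (.s k3
  k2 0 (.s k169 k253 13 (.s k161 k173 1 (.s k240 k82 12 (.s k80 k160 11 (.d k90 k95 k15 2 14))))))]
  (.c k13 (.l (.s k3 k2 0 (.s k5 k245 11 (.s k15 k10 2 (.s k7 k11 1 (.s k86 k244 12 (.d k169 k253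
  k252 13 14))))))) .n))

def s170_175_189 : T TT 256 :=
  (.q k1 [(.s k5 k245 11 (.s k13 k9 1 (.s k89 k241 13 (.s k93 k81 1 (.d k253 k173 k169 11 13))))),
  (.s k3 k2 0 (.s k5 k245 11 (.s k9 k13 1 (.s k6 k12 2 (.s k7 k4 0 (.d k15 k11 k10 1 2)))))), (.s k3
  k2 0 (.s k169 k253 13 (.s k161 k173 1 (.s k240 k82 12 (.s k80 k160 11 (.d k90 k95 k15 2 14))))))]
  (.c k13 (.l (.s k3 k2 0 (.s k5 k245 11 (.s k15 k10 2 (.s k7 k11 1 (.s k86 k244 12 (.d k169 k253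
  k252 13 14))))))) .n))

def s170_175_190 : T TT 256 :=
  (.f k5 k245 11 (.q k192 [(.s k15 k10 2 (.s k64 k128 7 (.s k106 k127 6 (.s k47 k224 10 (.d k63 k149
  k31 14 3))))), (.s k15 k10 2 (.s k128 k64 7 (.s k133 k74 10 (.s k69 k197 7 (.d k138 k143 k207 2
  10))))), (.s k64 k128 7 (.s k106 k127 6 (.s k149 k63 14 (.s k21 k213 7 (.s k53 k37 3 (.s k133 k181
  3 (.d k197 k69 k101 7 11))))))), (.s k15 k10 2 (.s k133 k74 10 (.s k149 k181 3 (.s k21 k213 7 (.d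
  k63 k42 k106 6 14)))))] (.c k130 (.q k150 [(.s k15 k10 2 (.s k20 k215 8 (.s k60 k40 5 (.s k30 k45
  4 (.d k90 k210 k240 9 14))))), (.s k15 k10 2 (.s k64 k128 7 (.s k74 k133 10 (.s k90 k240 14 (.d
  k106 k122 k127 3 6))))), (.s k20 k215 8 (.s k60 k40 5 (.s k64 k128 7 (.s k104 k148 13 (.s k105
  k195 14 (.d k106 k107 k127 0 6))))))] .n) (.c k150 (.q k130 [(.s k15 k10 2 (.s k64 k128 7 (.s k106
  k127 6 (.s k47 k224 10 (.d k63 k149 k31 14 3))))), (.s k64 k128 7 (.s k65 k195 8 (.s k66 k67 0 (.s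
  k2 k194 7 (.d k3 k1 k129 0 8))))), (.s k15 k10 2 (.s k133 k74 10 (.s k149 k181 3 (.s k21 k213 7
  (.d k63 k42 k106 6 14))))), (.s k15 k10 2 (.s k128 k64 7 (.s k133 k74 10 (.s k69 k197 7 (.d k138
  k143 k207 2 10)))))] .n) .n))))

def s170_175_191 : T TT 256 :=
  (.f k5 k245 11 (.q k149 [(.s k21 k213 7 (.s k53 k37 3 (.s k133 k181 3 (.d k197 k69 k101 7 11)))),
  (.s k15 k10 2 (.s k90 k240 14 (.s k31 k208 10 (.s k63 k47 3 (.d k21 k42 k213 6 7))))), (.s k15 k10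
  2 (.s k133 k181 3 (.s k192 k74 10 (.s k64 k128 7 (.d k106 k127 k63 6 14)))))] (.c k143 (.q k159
  [(.s k15 k10 2 (.s k90 k240 14 (.s k95 k80 2 (.d k31 k223 k208 7 10)))), (.s k21 k213 7 (.s k53
  k37 3 (.s k133 k181 3 (.d k197 k69 k101 7 11))))] .n) (.c k159 (.q k143 [(.s k133 k181 3 (.s k138
  k128 2 (.d k69 k197 k207 7 10))), (.s k15 k10 2 (.s k21 k213 7 (.s k63 k42 6 (.s k31 k47 3 (.d k90
  k208 k240 10 14)))))] (.c k197 (.l (.s k15 k10 2 (.s k133 k181 3 (.s k128 k138 2 (.d k192 k74 k64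
  10 7))))) .n)) .n))))

def s170_175_192 : T TT 256 :=
  (.q k1 [(.s k5 k245 11 (.s k13 k9 1 (.s k89 k241 13 (.s k93 k81 1 (.d k253 k173 k169 11 13))))),
  (.s k3 k2 0 (.s k5 k245 11 (.s k9 k13 1 (.s k6 k12 2 (.s k7 k4 0 (.d k15 k11 k10 1 2)))))), (.s k3
  k2 0 (.s k169 k253 13 (.s k161 k173 1 (.s k240 k82 12 (.s k80 k160 11 (.d k90 k95 k15 2 14))))))]
  (.c k13 (.l (.s k3 k2 0 (.s k5 k245 11 (.s k15 k10 2 (.s k7 k11 1 (.s k86 k244 12 (.d k169 k253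
  k252 13 14))))))) .n))

def s170_175_193 : T TT 256 :=
  (.q k1 [(.s k5 k245 11 (.s k13 k9 1 (.s k89 k241 13 (.s k93 k81 1 (.d k253 k173 k169 11 13))))),
  (.s k3 k2 0 (.s k5 k245 11 (.s k9 k13 1 (.s k6 k12 2 (.s k7 k4 0 (.d k15 k11 k10 1 2)))))), (.s k3
  k2 0 (.s k169 k253 13 (.s k161 k173 1 (.s k240 k82 12 (.s k80 k160 11 (.d k90 k95 k15 2 14))))))]
  (.c k13 (.l (.s k3 k2 0 (.s k5 k245 11 (.s k15 k10 2 (.s k7 k11 1 (.s k86 k244 12 (.d k169 k253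
  k252 13 14))))))) .n))

def s170_175_194 : T TT 256 :=
  (.q k1 [(.s k5 k245 11 (.s k13 k9 1 (.s k89 k241 13 (.s k93 k81 1 (.d k253 k173 k169 11 13))))),
  (.s k3 k2 0 (.s k5 k245 11 (.s k9 k13 1 (.s k6 k12 2 (.s k7 k4 0 (.d k15 k11 k10 1 2)))))), (.s k3
  k2 0 (.s k169 k253 13 (.s k161 k173 1 (.s k240 k82 12 (.s k80 k160 11 (.d k90 k95 k15 2 14))))))]
  (.c k13 (.l (.s k3 k2 0 (.s k5 k245 11 (.s k15 k10 2 (.s k7 k11 1 (.s k86 k244 12 (.d k169 k253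
  k252 13 14))))))) .n))

def s170_175_195 : T TT 256 :=
  (.q k1 [(.s k5 k245 11 (.s k13 k9 1 (.s k89 k241 13 (.s k93 k81 1 (.d k253 k173 k169 11 13))))),
  (.s k3 k2 0 (.s k5 k245 11 (.s k9 k13 1 (.s k6 k12 2 (.s k7 k4 0 (.d k15 k11 k10 1 2)))))), (.s k3
  k2 0 (.s k169 k253 13 (.s k161 k173 1 (.s k240 k82 12 (.s k80 k160 11 (.d k90 k95 k15 2 14))))))]
  (.c k13 (.l (.s k3 k2 0 (.s k5 k245 11 (.s k15 k10 2 (.s k7 k11 1 (.s k86 k244 12 (.d k169 k253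
  k252 13 14))))))) .n))

def s170_175_196 : T TT 256 :=
  (.q k1 [(.s k5 k245 11 (.s k13 k9 1 (.s k89 k241 13 (.s k93 k81 1 (.d k253 k173 k169 11 13))))),
  (.s k3 k2 0 (.s k5 k245 11 (.s k9 k13 1 (.s k6 k12 2 (.s k7 k4 0 (.d k15 k11 k10 1 2)))))), (.s k3
  k2 0 (.s k169 k253 13 (.s k161 k173 1 (.s k240 k82 12 (.s k80 k160 11 (.d k90 k95 k15 2 14))))))]
  (.c k13 (.l (.s k3 k2 0 (.s k5 k245 11 (.s k15 k10 2 (.s k7 k11 1 (.s k86 k244 12 (.d k169 k253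
  k252 13 14))))))) .n))

def s170_175_197 : T TT 256 :=
  (.q k1 [(.s k5 k245 11 (.s k13 k9 1 (.s k89 k241 13 (.s k93 k81 1 (.d k253 k173 k169 11 13))))),
  (.s k3 k2 0 (.s k169 k253 13 (.s k161 k173 1 (.s k240 k82 12 (.s k80 k160 11 (.d k90 k95 k15 2
  14)))))), (.s k3 k2 0 (.s k5 k245 11 (.s k9 k13 1 (.s k6 k12 2 (.s k7 k4 0 (.d k15 k11 k10 1
  2))))))] (.c k13 (.l (.s k3 k2 0 (.s k5 k245 11 (.s k15 k10 2 (.s k7 k11 1 (.s k86 k244 12 (.d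
  k169 k253 k252 13 14))))))) .n))

def s170_175_198 : T TT 256 :=
  (.q k1 [(.s k5 k245 11 (.s k13 k9 1 (.s k89 k241 13 (.s k93 k81 1 (.d k253 k173 k169 11 13))))),
  (.s k3 k2 0 (.s k5 k245 11 (.s k9 k13 1 (.s k6 k12 2 (.s k7 k4 0 (.d k15 k11 k10 1 2)))))), (.s k3
  k2 0 (.s k169 k253 13 (.s k161 k173 1 (.s k240 k82 12 (.s k80 k160 11 (.d k90 k95 k15 2 14))))))]
  (.c k13 (.l (.s k3 k2 0 (.s k5 k245 11 (.s k15 k10 2 (.s k7 k11 1 (.s k86 k244 12 (.d k169 k253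
  k252 13 14))))))) .n))

def s170_175_199 : T TT 256 :=
  (.q k1 [(.s k5 k245 11 (.s k13 k9 1 (.s k89 k241 13 (.s k93 k81 1 (.d k253 k173 k169 11 13))))),
  (.s k3 k2 0 (.s k5 k245 11 (.s k9 k13 1 (.s k6 k12 2 (.s k7 k4 0 (.d k15 k11 k10 1 2)))))), (.s k3
  k2 0 (.s k169 k253 13 (.s k161 k173 1 (.s k240 k82 12 (.s k80 k160 11 (.d k90 k95 k15 2 14))))))]
  (.c k13 (.l (.s k3 k2 0 (.s k5 k245 11 (.s k15 k10 2 (.s k7 k11 1 (.s k86 k244 12 (.d k169 k253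
  k252 13 14))))))) .n))

def s170_175_200 : T TT 256 :=
  (.q k1 [(.s k5 k245 11 (.s k13 k9 1 (.s k89 k241 13 (.s k93 k81 1 (.d k253 k173 k169 11 13))))),
  (.s k3 k2 0 (.s k5 k245 11 (.s k9 k13 1 (.s k6 k12 2 (.s k7 k4 0 (.d k15 k11 k10 1 2)))))), (.s k3
  k2 0 (.s k169 k253 13 (.s k161 k173 1 (.s k240 k82 12 (.s k80 k160 11 (.d k90 k95 k15 2 14))))))]
  (.c k13 (.l (.s k3 k2 0 (.s k5 k245 11 (.s k15 k10 2 (.s k7 k11 1 (.s k86 k244 12 (.d k169 k253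
  k252 13 14))))))) .n))

def s170_175_201 : T TT 256 :=
  (.q k1 [(.s k5 k245 11 (.s k13 k9 1 (.s k89 k241 13 (.s k93 k81 1 (.d k253 k173 k169 11 13))))),
  (.s k3 k2 0 (.s k5 k245 11 (.s k9 k13 1 (.s k6 k12 2 (.s k7 k4 0 (.d k15 k11 k10 1 2)))))), (.s k3
  k2 0 (.s k169 k253 13 (.s k161 k173 1 (.s k240 k82 12 (.s k80 k160 11 (.d k90 k95 k15 2 14))))))]
  (.c k13 (.l (.s k3 k2 0 (.s k5 k245 11 (.s k15 k10 2 (.s k7 k11 1 (.s k86 k244 12 (.d k169 k253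
  k252 13 14))))))) .n))

def s170_175_202 : T TT 256 :=
  (.q k1 [(.s k5 k245 11 (.s k13 k9 1 (.s k89 k241 13 (.s k93 k81 1 (.d k253 k173 k169 11 13))))),
  (.s k3 k2 0 (.s k5 k245 11 (.s k9 k13 1 (.s k6 k12 2 (.s k7 k4 0 (.d k15 k11 k10 1 2)))))), (.s k3
  k2 0 (.s k169 k253 13 (.s k161 k173 1 (.s k240 k82 12 (.s k80 k160 11 (.d k90 k95 k15 2 14))))))]
  (.c k13 (.l (.s k3 k2 0 (.s k5 k245 11 (.s k15 k10 2 (.s k7 k11 1 (.s k86 k244 12 (.d k169 k253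
  k252 13 14))))))) .n))

def s170_175_203 : T TT 256 :=
  (.q k1 [(.s k5 k245 11 (.s k13 k9 1 (.s k89 k241 13 (.s k93 k81 1 (.d k253 k173 k169 11 13))))),
  (.s k3 k2 0 (.s k5 k245 11 (.s k9 k13 1 (.s k6 k12 2 (.s k7 k4 0 (.d k15 k11 k10 1 2)))))), (.s k3
  k2 0 (.s k169 k253 13 (.s k161 k173 1 (.s k240 k82 12 (.s k80 k160 11 (.d k90 k95 k15 2 14))))))]
  (.c k13 (.l (.s k3 k2 0 (.s k5 k245 11 (.s k15 k10 2 (.s k7 k11 1 (.s k86 k244 12 (.d k169 k253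
  k252 13 14))))))) .n))

def s170_175_204 : T TT 256 :=
  (.q k1 [(.s k5 k245 11 (.s k13 k9 1 (.s k89 k241 13 (.s k93 k81 1 (.d k253 k173 k169 11 13))))),
  (.s k3 k2 0 (.s k5 k245 11 (.s k9 k13 1 (.s k6 k12 2 (.s k7 k4 0 (.d k15 k11 k10 1 2)))))), (.s k3
  k2 0 (.s k169 k253 13 (.s k161 k173 1 (.s k240 k82 12 (.s k80 k160 11 (.d k90 k95 k15 2 14))))))]
  (.c k13 (.l (.s k3 k2 0 (.s k5 k245 11 (.s k15 k10 2 (.s k7 k11 1 (.s k86 k244 12 (.d k169 k253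
  k252 13 14))))))) .n))

def s170_175_205 : T TT 256 :=
  (.q k1 [(.s k5 k245 11 (.s k13 k9 1 (.s k89 k241 13 (.s k93 k81 1 (.d k253 k173 k169 11 13))))),
  (.s k3 k2 0 (.s k5 k245 11 (.s k9 k13 1 (.s k6 k12 2 (.s k7 k4 0 (.d k15 k11 k10 1 2)))))), (.s k3
  k2 0 (.s k169 k253 13 (.s k161 k173 1 (.s k240 k82 12 (.s k80 k160 11 (.d k90 k95 k15 2 14))))))]
  (.c k13 (.l (.s k3 k2 0 (.s k5 k245 11 (.s k15 k10 2 (.s k7 k11 1 (.s k86 k244 12 (.d k169 k253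
  k252 13 14))))))) .n))

def s170_175_206 : T TT 256 :=
  (.q k1 [(.s k5 k245 11 (.s k13 k9 1 (.s k89 k241 13 (.s k93 k81 1 (.d k253 k173 k169 11 13))))),
  (.s k3 k2 0 (.s k5 k245 11 (.s k9 k13 1 (.s k6 k12 2 (.s k7 k4 0 (.d k15 k11 k10 1 2)))))), (.s k3
  k2 0 (.s k169 k253 13 (.s k161 k173 1 (.s k240 k82 12 (.s k80 k160 11 (.d k90 k95 k15 2 14))))))]
  (.c k13 (.l (.s k3 k2 0 (.s k5 k245 11 (.s k15 k10 2 (.s k7 k11 1 (.s k86 k244 12 (.d k169 k253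
  k252 13 14))))))) .n))

def s170_175_207 : T TT 256 :=
  (.q k1 [(.s k5 k245 11 (.s k13 k9 1 (.s k89 k241 13 (.s k93 k81 1 (.d k253 k173 k169 11 13))))),
  (.s k3 k2 0 (.s k5 k245 11 (.s k9 k13 1 (.s k6 k12 2 (.s k7 k4 0 (.d k15 k11 k10 1 2)))))), (.s k3
  k2 0 (.s k169 k253 13 (.s k161 k173 1 (.s k240 k82 12 (.s k80 k160 11 (.d k90 k95 k15 2 14))))))]
  (.c k13 (.l (.s k3 k2 0 (.s k5 k245 11 (.s k15 k10 2 (.s k7 k11 1 (.s k86 k244 12 (.d k169 k253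
  k252 13 14))))))) .n))

def s170_175_208 : T TT 256 :=
  (.q k1 [(.s k5 k245 11 (.s k13 k9 1 (.s k89 k241 13 (.s k93 k81 1 (.d k253 k173 k169 11 13))))),
  (.s k3 k2 0 (.s k5 k245 11 (.s k9 k13 1 (.s k6 k12 2 (.s k7 k4 0 (.d k15 k11 k10 1 2)))))), (.s k3
  k2 0 (.s k169 k253 13 (.s k161 k173 1 (.s k240 k82 12 (.s k80 k160 11 (.d k90 k95 k15 2 14))))))]
  (.c k13 (.l (.s k3 k2 0 (.s k5 k245 11 (.s k15 k10 2 (.s k7 k11 1 (.s k86 k244 12 (.d k169 k253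
  k252 13 14))))))) .n))

def s170_175_209 : T TT 256 :=
  (.q k1 [(.s k245 k5 11 (.s k253 k169 13 (.s k241 k249 1 (.s k89 k13 13 (.d k81 k93 k161 1 11))))),
  (.s k3 k2 0 (.s k5 k245 11 (.s k9 k13 1 (.s k6 k12 2 (.s k7 k4 0 (.d k15 k11 k10 1 2)))))), (.s k3
  k2 0 (.s k169 k253 13 (.s k161 k173 1 (.s k240 k82 12 (.s k80 k160 11 (.d k90 k95 k15 2 14))))))]
  (.c k13 (.l (.s k3 k2 0 (.s k5 k245 11 (.s k15 k10 2 (.s k7 k11 1 (.s k86 k244 12 (.d k169 k253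
  k252 13 14))))))) .n))

def s170_175_210 : T TT 256 :=
  (.q k1 [(.s k5 k245 11 (.s k13 k9 1 (.s k89 k241 13 (.s k93 k81 1 (.d k253 k173 k169 11 13))))),
  (.s k3 k2 0 (.s k5 k245 11 (.s k9 k13 1 (.s k6 k12 2 (.s k7 k4 0 (.d k15 k11 k10 1 2)))))), (.s k3
  k2 0 (.s k169 k253 13 (.s k161 k173 1 (.s k240 k82 12 (.s k80 k160 11 (.d k90 k95 k15 2 14))))))]
  (.c k13 (.l (.s k3 k2 0 (.s k5 k245 11 (.s k15 k10 2 (.s k7 k11 1 (.s k86 k244 12 (.d k169 k253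
  k252 13 14))))))) .n))

def s170_175_211 : T TT 256 :=
  (.q k1 [(.s k5 k245 11 (.s k13 k9 1 (.s k89 k241 13 (.s k93 k81 1 (.d k253 k173 k169 11 13))))),
  (.s k3 k2 0 (.s k5 k245 11 (.s k9 k13 1 (.s k6 k12 2 (.s k7 k4 0 (.d k15 k11 k10 1 2)))))), (.s k3
  k2 0 (.s k169 k253 13 (.s k161 k173 1 (.s k240 k82 12 (.s k80 k160 11 (.d k90 k95 k15 2 14))))))]
  (.c k13 (.l (.s k3 k2 0 (.s k5 k245 11 (.s k15 k10 2 (.s k7 k11 1 (.s k86 k244 12 (.d k169 k253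
  k252 13 14))))))) .n))

def s170_175_212 : T TT 256 :=
  (.q k1 [(.s k5 k245 11 (.s k13 k9 1 (.s k89 k241 13 (.s k93 k81 1 (.d k253 k173 k169 11 13))))),
  (.s k3 k2 0 (.s k5 k245 11 (.s k9 k13 1 (.s k6 k12 2 (.s k7 k4 0 (.d k15 k11 k10 1 2)))))), (.s k3
  k2 0 (.s k169 k253 13 (.s k161 k173 1 (.s k240 k82 12 (.s k80 k160 11 (.d k90 k95 k15 2 14))))))]
  (.c k13 (.l (.s k3 k2 0 (.s k5 k245 11 (.s k15 k10 2 (.s k7 k11 1 (.s k86 k244 12 (.d k169 k253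
  k252 13 14))))))) .n))

def s170_175_213 : T TT 256 :=
  (.q k1 [(.s k5 k245 11 (.s k13 k9 1 (.s k89 k241 13 (.s k93 k81 1 (.d k253 k173 k169 11 13))))),
  (.s k3 k2 0 (.s k169 k253 13 (.s k161 k173 1 (.s k240 k82 12 (.s k80 k160 11 (.d k90 k95 k15 2
  14)))))), (.s k3 k2 0 (.s k5 k245 11 (.s k9 k13 1 (.s k6 k12 2 (.s k7 k4 0 (.d k15 k11 k10 1
  2))))))] (.c k13 (.l (.s k3 k2 0 (.s k5 k245 11 (.s k15 k10 2 (.s k7 k11 1 (.s k86 k244 12 (.d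
  k169 k253 k252 13 14))))))) .n))

def s170_175_214 : T TT 256 :=
  (.q k1 [(.s k5 k245 11 (.s k13 k9 1 (.s k89 k241 13 (.s k93 k81 1 (.d k253 k173 k169 11 13))))),
  (.s k3 k2 0 (.s k5 k245 11 (.s k9 k13 1 (.s k6 k12 2 (.s k7 k4 0 (.d k15 k11 k10 1 2)))))), (.s k3
  k2 0 (.s k169 k253 13 (.s k161 k173 1 (.s k240 k82 12 (.s k80 k160 11 (.d k90 k95 k15 2 14))))))]
  (.c k13 (.l (.s k3 k2 0 (.s k5 k245 11 (.s k15 k10 2 (.s k7 k11 1 (.s k86 k244 12 (.d k169 k253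
  k252 13 14))))))) .n))

def s170_175_215 : T TT 256 :=
  (.q k1 [(.s k5 k245 11 (.s k13 k9 1 (.s k89 k241 13 (.s k93 k81 1 (.d k253 k173 k169 11 13))))),
  (.s k3 k2 0 (.s k5 k245 11 (.s k9 k13 1 (.s k6 k12 2 (.s k7 k4 0 (.d k15 k11 k10 1 2)))))), (.s k3
  k2 0 (.s k169 k253 13 (.s k161 k173 1 (.s k240 k82 12 (.s k80 k160 11 (.d k90 k95 k15 2 14))))))]
  (.c k13 (.l (.s k3 k2 0 (.s k5 k245 11 (.s k15 k10 2 (.s k7 k11 1 (.s k86 k244 12 (.d k169 k253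
  k252 13 14))))))) .n))

def s170_175_216 : T TT 256 :=
  (.q k1 [(.s k5 k245 11 (.s k13 k9 1 (.s k89 k241 13 (.s k93 k81 1 (.d k253 k173 k169 11 13))))),
  (.s k3 k2 0 (.s k5 k245 11 (.s k9 k13 1 (.s k6 k12 2 (.s k7 k4 0 (.d k15 k11 k10 1 2)))))), (.s k3
  k2 0 (.s k169 k253 13 (.s k161 k173 1 (.s k240 k82 12 (.s k80 k160 11 (.d k90 k95 k15 2 14))))))]
  (.c k13 (.l (.s k3 k2 0 (.s k5 k245 11 (.s k15 k10 2 (.s k7 k11 1 (.s k86 k244 12 (.d k169 k253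
  k252 13 14))))))) .n))

def s170_175_217 : T TT 256 :=
  (.q k1 [(.s k5 k245 11 (.s k13 k9 1 (.s k89 k241 13 (.s k93 k81 1 (.d k253 k173 k169 11 13))))),
  (.s k3 k2 0 (.s k5 k245 11 (.s k9 k13 1 (.s k6 k12 2 (.s k7 k4 0 (.d k15 k11 k10 1 2)))))), (.s k3
  k2 0 (.s k169 k253 13 (.s k161 k173 1 (.s k240 k82 12 (.s k80 k160 11 (.d k90 k95 k15 2 14))))))]
  (.c k13 (.l (.s k3 k2 0 (.s k5 k245 11 (.s k15 k10 2 (.s k7 k11 1 (.s k86 k244 12 (.d k169 k253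
  k252 13 14))))))) .n))

def s170_175_218 : T TT 256 :=
  (.q k1 [(.s k5 k245 11 (.s k13 k9 1 (.s k89 k241 13 (.s k93 k81 1 (.d k253 k173 k169 11 13))))),
  (.s k3 k2 0 (.s k5 k245 11 (.s k9 k13 1 (.s k6 k12 2 (.s k7 k4 0 (.d k15 k11 k10 1 2)))))), (.s k3
  k2 0 (.s k169 k253 13 (.s k161 k173 1 (.s k240 k82 12 (.s k80 k160 11 (.d k90 k95 k15 2 14))))))]
  (.c k13 (.l (.s k3 k2 0 (.s k5 k245 11 (.s k15 k10 2 (.s k7 k11 1 (.s k86 k244 12 (.d k169 k253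
  k252 13 14))))))) .n))

def s170_175_219 : T TT 256 :=
  (.q k1 [(.s k5 k245 11 (.s k13 k9 1 (.s k89 k241 13 (.s k93 k81 1 (.d k253 k173 k169 11 13))))),
  (.s k3 k2 0 (.s k5 k245 11 (.s k9 k13 1 (.s k6 k12 2 (.s k7 k4 0 (.d k15 k11 k10 1 2)))))), (.s k3
  k2 0 (.s k169 k253 13 (.s k161 k173 1 (.s k240 k82 12 (.s k80 k160 11 (.d k90 k95 k15 2 14))))))]
  (.c k13 (.l (.s k3 k2 0 (.s k5 k245 11 (.s k15 k10 2 (.s k7 k11 1 (.s k86 k244 12 (.d k169 k253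
  k252 13 14))))))) .n))

def s170_175_220 : T TT 256 :=
  (.q k1 [(.s k5 k245 11 (.s k13 k9 1 (.s k89 k241 13 (.s k93 k81 1 (.d k253 k173 k169 11 13))))),
  (.s k3 k2 0 (.s k5 k245 11 (.s k9 k13 1 (.s k6 k12 2 (.s k7 k4 0 (.d k15 k11 k10 1 2)))))), (.s k3
  k2 0 (.s k169 k253 13 (.s k161 k173 1 (.s k240 k82 12 (.s k80 k160 11 (.d k90 k95 k15 2 14))))))]
  (.c k13 (.l (.s k3 k2 0 (.s k5 k245 11 (.s k15 k10 2 (.s k7 k11 1 (.s k86 k244 12 (.d k169 k253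
  k252 13 14))))))) .n))

def s170_175_221 : T TT 256 :=
  (.q k1 [(.s k5 k245 11 (.s k13 k9 1 (.s k89 k241 13 (.s k93 k81 1 (.d k253 k173 k169 11 13))))),
  (.s k3 k2 0 (.s k5 k245 11 (.s k9 k13 1 (.s k6 k12 2 (.s k7 k4 0 (.d k15 k11 k10 1 2)))))), (.s k3
  k2 0 (.s k169 k253 13 (.s k161 k173 1 (.s k240 k82 12 (.s k80 k160 11 (.d k90 k95 k15 2 14))))))]
  (.c k13 (.l (.s k3 k2 0 (.s k5 k245 11 (.s k15 k10 2 (.s k7 k11 1 (.s k86 k244 12 (.d k169 k253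
  k252 13 14))))))) .n))

def s170_175_222 : T TT 256 :=
  (.q k1 [(.s k5 k245 11 (.s k13 k9 1 (.s k89 k241 13 (.s k93 k81 1 (.d k253 k173 k169 11 13))))),
  (.s k3 k2 0 (.s k5 k245 11 (.s k9 k13 1 (.s k6 k12 2 (.s k7 k4 0 (.d k15 k11 k10 1 2)))))), (.s k3
  k2 0 (.s k169 k253 13 (.s k161 k173 1 (.s k240 k82 12 (.s k80 k160 11 (.d k90 k95 k15 2 14))))))]
  (.c k13 (.l (.s k3 k2 0 (.s k5 k245 11 (.s k15 k10 2 (.s k7 k11 1 (.s k86 k244 12 (.d k169 k253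
  k252 13 14))))))) .n))

def s170_175_223 : T TT 256 :=
  (.q k1 [(.s k5 k245 11 (.s k13 k9 1 (.s k89 k241 13 (.s k93 k81 1 (.d k253 k173 k169 11 13))))),
  (.s k3 k2 0 (.s k5 k245 11 (.s k9 k13 1 (.s k6 k12 2 (.s k7 k4 0 (.d k15 k11 k10 1 2)))))), (.s k3
  k2 0 (.s k169 k253 13 (.s k161 k173 1 (.s k240 k82 12 (.s k80 k160 11 (.d k90 k95 k15 2 14))))))]
  (.c k13 (.l (.s k3 k2 0 (.s k5 k245 11 (.s k15 k10 2 (.s k7 k11 1 (.s k86 k244 12 (.d k169 k253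
  k252 13 14))))))) .n))

def s170_175_224 : T TT 256 :=
  (.q k1 [(.s k5 k245 11 (.s k13 k9 1 (.s k89 k241 13 (.s k93 k81 1 (.d k253 k173 k169 11 13))))),
  (.s k3 k2 0 (.s k5 k245 11 (.s k9 k13 1 (.s k6 k12 2 (.s k7 k4 0 (.d k15 k11 k10 1 2)))))), (.s k3
  k2 0 (.s k169 k253 13 (.s k161 k173 1 (.s k240 k82 12 (.s k80 k160 11 (.d k90 k95 k15 2 14))))))]
  (.c k13 (.l (.s k3 k2 0 (.s k5 k245 11 (.s k15 k10 2 (.s k7 k11 1 (.s k86 k244 12 (.d k169 k253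
  k252 13 14))))))) .n))

def s170_175_225 : T TT 256 :=
  (.q k1 [(.s k5 k245 11 (.s k13 k9 1 (.s k89 k241 13 (.s k93 k81 1 (.d k253 k173 k169 11 13))))),
  (.s k3 k2 0 (.s k5 k245 11 (.s k9 k13 1 (.s k6 k12 2 (.s k7 k4 0 (.d k15 k11 k10 1 2)))))), (.s k3
  k2 0 (.s k169 k253 13 (.s k161 k173 1 (.s k240 k82 12 (.s k80 k160 11 (.d k90 k95 k15 2 14))))))]
  (.c k13 (.l (.s k3 k2 0 (.s k5 k245 11 (.s k15 k10 2 (.s k7 k11 1 (.s k86 k244 12 (.d k169 k253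
  k252 13 14))))))) .n))

def s170_175_226 : T TT 256 :=
  (.q k1 [(.s k5 k245 11 (.s k13 k9 1 (.s k89 k241 13 (.s k93 k81 1 (.d k253 k173 k169 11 13))))),
  (.s k3 k2 0 (.s k5 k245 11 (.s k9 k13 1 (.s k6 k12 2 (.s k7 k4 0 (.d k15 k11 k10 1 2)))))), (.s k3
  k2 0 (.s k169 k253 13 (.s k161 k173 1 (.s k240 k82 12 (.s k80 k160 11 (.d k90 k95 k15 2 14))))))]
  (.c k13 (.l (.s k3 k2 0 (.s k5 k245 11 (.s k15 k10 2 (.s k7 k11 1 (.s k86 k244 12 (.d k169 k253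
  k252 13 14))))))) .n))

def s170_175_227 : T TT 256 :=
  (.q k1 [(.s k5 k245 11 (.s k13 k9 1 (.s k89 k241 13 (.s k93 k81 1 (.d k253 k173 k169 11 13))))),
  (.s k3 k2 0 (.s k5 k245 11 (.s k9 k13 1 (.s k6 k12 2 (.s k7 k4 0 (.d k15 k11 k10 1 2)))))), (.s k3
  k2 0 (.s k169 k253 13 (.s k161 k173 1 (.s k240 k82 12 (.s k80 k160 11 (.d k90 k95 k15 2 14))))))]
  (.c k13 (.l (.s k3 k2 0 (.s k5 k245 11 (.s k15 k10 2 (.s k7 k11 1 (.s k86 k244 12 (.d k169 k253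
  k252 13 14))))))) .n))

def s170_175_228 : T TT 256 :=
  (.q k1 [(.s k5 k245 11 (.s k13 k9 1 (.s k89 k241 13 (.s k93 k81 1 (.d k253 k173 k169 11 13))))),
  (.s k3 k2 0 (.s k5 k245 11 (.s k9 k13 1 (.s k6 k12 2 (.s k7 k4 0 (.d k15 k11 k10 1 2)))))), (.s k3
  k2 0 (.s k169 k253 13 (.s k161 k173 1 (.s k240 k82 12 (.s k80 k160 11 (.d k90 k95 k15 2 14))))))]
  (.c k13 (.l (.s k3 k2 0 (.s k5 k245 11 (.s k15 k10 2 (.s k7 k11 1 (.s k86 k244 12 (.d k169 k253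
  k252 13 14))))))) .n))

def s170_175_229 : T TT 256 :=
  (.q k1 [(.s k245 k5 11 (.s k253 k169 13 (.s k241 k249 1 (.s k89 k13 13 (.d k81 k93 k161 1 11))))),
  (.s k3 k2 0 (.s k5 k245 11 (.s k9 k13 1 (.s k6 k12 2 (.s k7 k4 0 (.d k15 k11 k10 1 2)))))), (.s k3
  k2 0 (.s k169 k253 13 (.s k161 k173 1 (.s k240 k82 12 (.s k80 k160 11 (.d k90 k95 k15 2 14))))))]
  (.c k13 (.l (.s k3 k2 0 (.s k5 k245 11 (.s k15 k10 2 (.s k7 k11 1 (.s k86 k244 12 (.d k169 k253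
  k252 13 14))))))) .n))

def s170_175_230 : T TT 256 :=
  (.q k1 [(.s k5 k245 11 (.s k13 k9 1 (.s k89 k241 13 (.s k93 k81 1 (.d k253 k173 k169 11 13))))),
  (.s k3 k2 0 (.s k5 k245 11 (.s k9 k13 1 (.s k6 k12 2 (.s k7 k4 0 (.d k15 k11 k10 1 2)))))), (.s k3
  k2 0 (.s k169 k253 13 (.s k161 k173 1 (.s k240 k82 12 (.s k80 k160 11 (.d k90 k95 k15 2 14))))))]
  (.c k13 (.l (.s k3 k2 0 (.s k5 k245 11 (.s k15 k10 2 (.s k7 k11 1 (.s k86 k244 12 (.d k169 k253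
  k252 13 14))))))) .n))

def s170_175_231 : T TT 256 :=
  (.q k1 [(.s k5 k245 11 (.s k13 k9 1 (.s k89 k241 13 (.s k93 k81 1 (.d k253 k173 k169 11 13))))),
  (.s k3 k2 0 (.s k5 k245 11 (.s k9 k13 1 (.s k6 k12 2 (.s k7 k4 0 (.d k15 k11 k10 1 2)))))), (.s k3
  k2 0 (.s k169 k253 13 (.s k161 k173 1 (.s k240 k82 12 (.s k80 k160 11 (.d k90 k95 k15 2 14))))))]
  (.c k13 (.l (.s k3 k2 0 (.s k5 k245 11 (.s k15 k10 2 (.s k7 k11 1 (.s k86 k244 12 (.d k169 k253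
  k252 13 14))))))) .n))

def s170_175_232 : T TT 256 :=
  (.q k1 [(.s k5 k245 11 (.s k13 k9 1 (.s k89 k241 13 (.s k93 k81 1 (.d k253 k173 k169 11 13))))),
  (.s k3 k2 0 (.s k5 k245 11 (.s k9 k13 1 (.s k6 k12 2 (.s k7 k4 0 (.d k15 k11 k10 1 2)))))), (.s k3
  k2 0 (.s k169 k253 13 (.s k161 k173 1 (.s k240 k82 12 (.s k80 k160 11 (.d k90 k95 k15 2 14))))))]
  (.c k13 (.l (.s k3 k2 0 (.s k5 k245 11 (.s k15 k10 2 (.s k7 k11 1 (.s k86 k244 12 (.d k169 k253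
  k252 13 14))))))) .n))

def s170_175_233 : T TT 256 :=
  (.q k1 [(.s k5 k245 11 (.s k13 k9 1 (.s k89 k241 13 (.s k93 k81 1 (.d k253 k173 k169 11 13))))),
  (.s k3 k2 0 (.s k5 k245 11 (.s k9 k13 1 (.s k6 k12 2 (.s k7 k4 0 (.d k15 k11 k10 1 2)))))), (.s k3
  k2 0 (.s k169 k253 13 (.s k161 k173 1 (.s k240 k82 12 (.s k80 k160 11 (.d k90 k95 k15 2 14))))))]
  (.c k13 (.l (.s k3 k2 0 (.s k5 k245 11 (.s k15 k10 2 (.s k7 k11 1 (.s k86 k244 12 (.d k169 k253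
  k252 13 14))))))) .n))

def s170_175_234 : T TT 256 :=
  (.f k5 k245 11 (.q k106 [(.s k15 k10 2 (.s k47 k224 10 (.s k63 k31 3 (.s k64 k127 6 (.d k192 k128
  k149 7 14))))), (.s k64 k127 6 (.s k192 k128 7 (.s k149 k63 14 (.s k21 k213 7 (.s k53 k37 3 (.s
  k133 k181 3 (.d k197 k69 k101 7 11))))))), (.s k15 k10 2 (.s k64 k127 6 (.s k90 k240 14 (.s k74
  k122 3 (.s k79 k69 2 (.s k80 k95 2 (.d k112 k96 k101 3 6))))))), (.s k15 k10 2 (.s k47 k224 10 (.s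
  k63 k31 3 (.s k21 k42 6 (.d k149 k213 k192 7 14)))))] (.c k63 (.l (.s k15 k10 2 (.s k64 k127 6 (.s
  k90 k240 14 (.s k192 k128 7 (.d k74 k122 k133 3 10)))))) .n)))

def s170_175_235 : T TT 256 :=
  (.f k5 k245 11 (.q k149 [(.s k21 k213 7 (.s k53 k37 3 (.s k133 k181 3 (.d k197 k69 k101 7 11)))),
  (.s k15 k10 2 (.s k90 k240 14 (.s k31 k208 10 (.s k63 k47 3 (.d k21 k42 k213 6 7))))), (.s k15 k10
  2 (.s k133 k181 3 (.s k192 k74 10 (.s k64 k128 7 (.d k106 k127 k63 6 14)))))] (.c k40 (.q k105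
  [(.s k21 k213 7 (.s k53 k37 3 (.s k133 k181 3 (.d k197 k69 k101 7 11)))), (.s k15 k10 2 (.s k45
  k225 9 (.s k60 k30 4 (.s k65 k125 5 (.d k195 k130 k150 8 14)))))] .n) (.c k105 (.q k40 [(.s k21
  k213 7 (.s k53 k37 3 (.s k133 k181 3 (.d k197 k69 k101 7 11)))), (.s k15 k10 2 (.s k90 k240 14 (.s
  k31 k208 10 (.s k63 k47 3 (.d k21 k42 k213 6 7))))), (.s k15 k10 2 (.s k133 k181 3 (.s k192 k74 10
  (.s k64 k128 7 (.d k106 k127 k63 6 14)))))] .n) .n))))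

def s170_175_236 : T TT 256 :=
  (.q k1 [(.s k5 k245 11 (.s k13 k9 1 (.s k89 k241 13 (.s k93 k81 1 (.d k253 k173 k169 11 13))))),
  (.s k3 k2 0 (.s k5 k245 11 (.s k9 k13 1 (.s k6 k12 2 (.s k7 k4 0 (.d k15 k11 k10 1 2)))))), (.s k3
  k2 0 (.s k169 k253 13 (.s k161 k173 1 (.s k240 k82 12 (.s k80 k160 11 (.d k90 k95 k15 2 14))))))]
  (.c k13 (.l (.s k3 k2 0 (.s k5 k245 11 (.s k15 k10 2 (.s k7 k11 1 (.s k86 k244 12 (.d k169 k253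
  k252 13 14))))))) .n))

def s170_175_237 : T TT 256 :=
  (.q k1 [(.s k5 k245 11 (.s k13 k9 1 (.s k89 k241 13 (.s k93 k81 1 (.d k253 k173 k169 11 13))))),
  (.s k3 k2 0 (.s k5 k245 11 (.s k9 k13 1 (.s k6 k12 2 (.s k7 k4 0 (.d k15 k11 k10 1 2)))))), (.s k3
  k2 0 (.s k169 k253 13 (.s k161 k173 1 (.s k240 k82 12 (.s k80 k160 11 (.d k90 k95 k15 2 14))))))]
  (.c k13 (.l (.s k3 k2 0 (.s k5 k245 11 (.s k15 k10 2 (.s k7 k11 1 (.s k86 k244 12 (.d k169 k253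
  k252 13 14))))))) .n))

def s170_175_238 : T TT 256 :=
  (.f k5 k245 11 (.q k149 [(.s k21 k213 7 (.s k53 k37 3 (.s k133 k181 3 (.d k197 k69 k101 7 11)))),
  (.s k15 k10 2 (.s k90 k240 14 (.s k31 k208 10 (.s k63 k47 3 (.d k21 k42 k213 6 7))))), (.s k15 k10
  2 (.s k133 k181 3 (.s k192 k74 10 (.s k64 k128 7 (.d k106 k127 k63 6 14)))))] (.c k34 (.q k102
  [(.s k21 k213 7 (.s k53 k37 3 (.s k133 k181 3 (.d k197 k69 k101 7 11)))), (.s k15 k10 2 (.s k39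
  k228 8 (.s k51 k27 5 (.s k68 k119 4 (.d k204 k136 k153 9 14)))))] .n) (.c k102 (.q k34 [(.s k21
  k213 7 (.s k53 k37 3 (.s k133 k181 3 (.d k197 k69 k101 7 11)))), (.s k15 k10 2 (.s k90 k240 14 (.s
  k31 k208 10 (.s k63 k47 3 (.d k21 k42 k213 6 7))))), (.s k15 k10 2 (.s k133 k181 3 (.s k192 k74 10
  (.s k64 k128 7 (.d k106 k127 k63 6 14)))))] .n) .n))))

def s170_175_239 : T TT 256 :=
  (.f k5 k245 11 (.q k101 [(.s k37 k229 7 (.s k53 k21 3 (.s k69 k117 3 (.d k197 k133 k149 7 11)))),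
  (.s k15 k10 2 (.s k69 k117 3 (.s k90 k240 14 (.s k79 k112 6 (.d k207 k143 k138 7 10))))), (.s k15
  k10 2 (.s k37 k229 7 (.s k48 k26 6 (.s k16 k32 3 (.d k154 k223 k207 10 14)))))] (.c k47 (.q k111
  [(.s k15 k10 2 (.s k90 k240 14 (.s k95 k80 2 (.d k79 k127 k112 3 6)))), (.s k37 k229 7 (.s k53 k21
  3 (.s k69 k117 3 (.d k197 k133 k149 7 11))))] .n) (.c k111 (.q k47 [(.s k37 k229 7 (.s k42 k32 2
  (.d k21 k53 k63 3 6))), (.s k15 k10 2 (.s k63 k31 3 (.s k42 k21 6 (.d k37 k32 k229 2 7)))), (.s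
  k37 k229 7 (.s k53 k21 3 (.s k69 k117 3 (.d k197 k133 k149 7 11))))] (.c k21 (.l (.s k15 k10 2 (.s
  k37 k229 7 (.s k32 k42 2 (.d k48 k26 k16 6 3))))) (.c k37 (.l (.s k15 k10 2 (.s k63 k31 3 (.s k21
  k42 6 (.s k106 k224 10 (.d k149 k213 k192 7 14)))))) (.c k229 (.l (.s k15 k10 2 (.s k63 k31 3 (.s
  k21 k42 6 (.s k53 k37 3 (.d k149 k213 k197 7 11)))))) .n)))) .n))))

def s170_175_240 : T TT 256 :=
  (.f k5 k245 11 (.q k21 [(.s k53 k37 3 (.s k149 k213 7 (.s k133 k181 3 (.d k197 k69 k101 7 11)))),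
  (.s k15 k10 2 (.s k63 k42 6 (.s k47 k31 3 (.s k106 k224 10 (.d k149 k192 k213 14 7))))), (.s k15
  k10 2 (.s k37 k53 3 (.s k26 k48 6 (.s k31 k16 2 (.d k63 k47 k42 3 6)))))] (.c k63 (.l (.s k53 k37
  3 (.s k149 k213 7 (.s k197 k101 11 (.d k133 k181 k69 3 7))))) (.c k250 (.q k255 [(.s k53 k37 3 (.s
  k149 k213 7 (.s k133 k181 3 (.d k197 k69 k101 7 11)))), (.s k63 k42 6 (.s k127 k191 7 (.s k106 k64
  6 (.d k149 k213 k192 7 14)))), (.s k37 k53 3 (.s k42 k63 6 (.s k32 k47 2 (.s k48 k16 3 (.d k15 k10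
  k26 2 6)))))] (.c k10 (.q k90 [(.s k53 k37 3 (.s k149 k213 7 (.s k133 k181 3 (.d k197 k69 k101 7
  11)))), (.s k63 k42 6 (.s k127 k191 7 (.s k106 k64 6 (.d k149 k213 k192 7 14)))), (.s k37 k53 3
  (.s k42 k63 6 (.s k32 k47 2 (.s k48 k16 3 (.s k117 k186 10 (.d k101 k69 k229 3 7))))))] (.c k63
  (.l (.s k53 k37 3 (.s k149 k213 7 (.s k197 k101 11 (.d k133 k181 k69 3 7))))) .n)) (.c k63 (.l (.s
  k53 k37 3 (.s k149 k213 7 (.s k197 k101 11 (.d k133 k181 k69 3 7))))) (.c k90 (.l (.s k10 k15 2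
  (.s k53 k37 3 (.s k149 k213 7 (.s k133 k181 3 (.d k197 k69 k101 7 11)))))) .n)))) (.c k255 (.q
  k250 [(.s k53 k37 3 (.s k149 k213 7 (.s k133 k181 3 (.d k197 k69 k101 7 11)))), (.s k15 k10 2 (.s
  k37 k53 3 (.s k26 k48 6 (.s k31 k16 2 (.d k63 k47 k42 3 6))))), (.s k15 k10 2 (.s k63 k42 6 (.s
  k47 k31 3 (.s k106 k224 10 (.d k149 k192 k213 14 7)))))] (.c k15 (.q k95 [(.s k149 k213 7 (.s k133
  k181 3 (.s k197 k69 7 (.d k53 k37 k101 3 11)))), (.s k90 k80 2 (.s k149 k213 7 (.s k31 k208 10 (.s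
  k223 k159 7 (.d k16 k26 k154 2 10))))), (.s k37 k53 3 (.s k42 k63 6 (.s k47 k32 2 (.s k106 k224 10
  (.s k127 k64 6 (.s k111 k79 3 (.d k101 k96 k229 2 7)))))))] (.c k192 (.l (.s k37 k53 3 (.s k90 k80
  2 (.s k101 k229 7 (.s k79 k112 6 (.s k127 k111 3 (.s k64 k106 6 (.d k69 k117 k74 3 2)))))))) (.c
  k229 (.l (.s k53 k37 3 (.s k149 k213 7 (.s k197 k101 11 (.d k133 k181 k69 3 7))))) .n))) (.c k63
  (.l (.s k53 k37 3 (.s k149 k213 7 (.s k197 k101 11 (.d k133 k181 k69 3 7))))) (.c k95 (.l (.s k15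
  k10 2 (.s k37 k53 3 (.s k26 k48 6 (.s k31 k16 2 (.d k63 k47 k42 3 6)))))) .n)))) .n)))))

def s170_175_241 : T TT 256 :=
  (.q k4 [(.s k5 k245 11 (.s k7 k6 0 (.s k86 k244 12 (.s k87 k84 0 (.d k247 k167 k166 11 12))))),
  (.s k12 k8 1 (.s k166 k247 12 (.s k164 k167 0 (.s k240 k88 13 (.s k80 k160 11 (.d k90 k95 k15 2
  14)))))), (.s k5 k245 11 (.s k6 k7 0 (.s k10 k15 2 (.s k2 k14 1 (.s k3 k1 0 (.d k12 k8 k9 1
  2))))))] (.c k7 (.l (.s k5 k245 11 (.s k12 k8 1 (.s k15 k10 2 (.s k14 k13 0 (.s k90 k240 14 (.d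
  k166 k242 k247 13 12))))))) .n))

def s170_175_242 : T TT 256 :=
  (.q k1 [(.s k5 k245 11 (.s k13 k9 1 (.s k89 k241 13 (.s k93 k81 1 (.d k253 k173 k169 11 13))))),
  (.s k3 k2 0 (.s k5 k245 11 (.s k9 k13 1 (.s k6 k12 2 (.s k7 k4 0 (.d k15 k11 k10 1 2)))))), (.s k3
  k2 0 (.s k169 k253 13 (.s k86 k252 14 (.s k7 k244 12 (.s k15 k11 1 (.s k161 k173 1 (.d k240 k82
  k90 12 14)))))))] (.c k13 (.l (.s k3 k2 0 (.s k5 k245 11 (.s k15 k10 2 (.s k7 k11 1 (.s k86 k244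
  12 (.d k169 k253 k252 13 14))))))) .n))

def s170_175_243 : T TT 256 :=
  (.q k1 [(.s k5 k245 11 (.s k13 k9 1 (.s k89 k241 13 (.s k93 k81 1 (.d k253 k173 k169 11 13))))),
  (.s k3 k2 0 (.s k5 k245 11 (.s k9 k13 1 (.s k10 k15 2 (.s k8 k11 0 (.d k12 k4 k6 1 2)))))), (.s k3
  k2 0 (.s k169 k253 13 (.s k161 k173 1 (.s k240 k82 12 (.s k80 k160 11 (.d k90 k95 k15 2 14))))))]
  (.c k13 (.l (.s k3 k2 0 (.s k5 k245 11 (.s k15 k10 2 (.s k7 k11 1 (.s k86 k244 12 (.d k169 k253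
  k252 13 14))))))) .n))

def s170_175_244 : T TT 256 :=
  (.q k1 [(.s k5 k245 11 (.s k13 k9 1 (.s k89 k241 13 (.s k93 k81 1 (.d k253 k173 k169 11 13))))),
  (.s k3 k2 0 (.s k169 k253 13 (.s k161 k173 1 (.s k240 k82 12 (.s k80 k160 11 (.d k90 k95 k15 2
  14)))))), (.s k3 k2 0 (.s k5 k245 11 (.s k9 k13 1 (.s k6 k12 2 (.s k7 k4 0 (.d k15 k11 k10 1
  2))))))] (.c k13 (.l (.s k3 k2 0 (.s k5 k245 11 (.s k15 k10 2 (.s k11 k7 1 (.s k90 k240 14 (.d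
  k169 k248 k253 12 13))))))) .n))

def s170_175_245 : T TT 256 :=
  (.q k240 [(.s k80 k160 11 (.d k90 k95 k15 2 14))] (.c k15 (.f k80 k160 11 (.q k192 [(.s k64 k128 7
  (.s k106 k127 6 (.d k224 k208 k47 3 10))), (.s k208 k224 3 (.s k16 k144 7 (.s k154 k223 10 (.s
  k176 k143 6 (.d k48 k32 k112 3 7))))), (.s k224 k208 3 (.s k106 k47 10 (.d k64 k127 k128 6 7))),
  (.s k64 k128 7 (.s k96 k112 3 (.s k106 k127 6 (.s k101 k111 2 (.s k229 k37 7 (.s k207 k218 6 (.d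
  k48 k144 k154 11 14)))))))] (.c k95 (.q k255 [(.s k64 k128 7 (.s k224 k208 3 (.d k106 k127 k47 6
  10))), (.s k208 k224 3 (.s k213 k234 6 (.s k223 k218 2 (.d k16 k144 k154 7 10)))), (.s k64 k128 7
  (.s k106 k127 6 (.s k149 k63 14 (.d k213 k234 k21 6 7))))] (.c k106 (.l (.s k64 k128 7 (.s k96
  k112 3 (.s k144 k48 11 (.d k208 k224 k16 3 7))))) (.c k144 (.l (.s k224 k208 3 (.s k106 k47 10 (.d
  k64 k127 k128 6 7)))) .n))) (.c k128 (.l (.s k208 k224 3 (.s k144 k16 7 (.s k96 k48 11 (.s k64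
  k112 3 (.s k106 k127 6 (.s k149 k63 14 (.d k90 k31 k95 10 2)))))))) (.c k255 (.l (.s k95 k90 2 (.s
  k64 k128 7 (.s k106 k127 6 (.d k224 k208 k47 3 10))))) .n))))) (.c k80 (.q k1 [(.s k3 k2 0 (.s
  k169 k253 13 (.d k161 k173 k82 1 12))), (.s k3 k2 0 (.s k15 k90 14 (.s k7 k11 1 (.s k86 k244 12
  (.s k84 k87 0 (.d k252 k169 k168 14 13)))))), (.s k15 k90 14 (.s k169 k253 13 (.s k161 k173 1 (.s
  k241 k81 11 (.s k13 k89 13 (.d k5 k10 k9 2 1))))))] (.c k169 (.l (.s k3 k2 0 (.s k82 k161 12 (.s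
  k90 k15 14 (.s k86 k94 1 (.s k84 k87 0 (.s k244 k7 12 (.d k252 k248 k168 1 13)))))))) .n)) (.c k90
  (.f k160 k80 11 (.q k252 [(.s k84 k168 13 (.s k86 k87 0 (.d k244 k248 k7 1 12))), (.s k168 k84 13
  (.s k164 k172 1 (.s k88 k12 13 (.d k248 k244 k8 1 11)))), (.s k244 k248 1 (.s k86 k7 12 (.s k169
  k3 14 (.s k1 k253 13 (.s k161 k173 1 (.s k162 k163 0 (.d k81 k241 k243 11 12))))))), (.s k84 k168
  13 (.s k86 k87 0 (.s k169 k3 14 (.s k1 k253 13 (.s k161 k173 1 (.s k162 k163 0 (.d k81 k241 k243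
  11 12)))))))] (.c k10 (.q k250 [(.s k84 k168 13 (.s k86 k87 0 (.d k244 k248 k7 1 12))), (.s k168
  k84 13 (.s k164 k172 1 (.s k88 k12 13 (.d k248 k244 k8 1 11)))), (.s k244 k248 1 (.s k86 k7 12 (.s
  k169 k3 14 (.s k1 k253 13 (.s k161 k173 1 (.s k162 k163 0 (.d k81 k241 k243 11 12))))))), (.s k84
  k168 13 (.s k86 k87 0 (.s k169 k3 14 (.s k1 k253 13 (.s k161 k173 1 (.s k162 k163 0 (.d k81 k241
  k243 11 12)))))))] .n) (.c k250 (.q k10 [(.s k84 k168 13 (.s k86 k87 0 (.d k244 k248 k7 1 12))),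
  (.s k15 k5 2 (.s k173 k94 12 (.s k169 k161 1 (.s k1 k253 13 (.d k3 k86 k2 14 0))))), (.s k168 k84
  13 (.s k164 k172 1 (.s k88 k12 13 (.d k248 k244 k8 1 11))))] .n) .n)))) (.c k95 (.f k80 k160 11
  (.q k192 [(.s k224 k208 3 (.s k106 k47 10 (.d k64 k127 k128 6 7))), (.s k15 k90 14 (.s k133 k74 10
  (.s k149 k181 3 (.s k21 k213 7 (.d k63 k106 k42 14 6)))))] (.c k15 (.q k255 [(.s k64 k128 7 (.s
  k224 k208 3 (.d k106 k127 k47 6 10))), (.s k208 k224 3 (.s k213 k234 6 (.s k223 k218 2 (.d k16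
  k144 k154 7 10)))), (.s k64 k128 7 (.s k106 k127 6 (.s k149 k63 14 (.d k213 k234 k21 6 7))))] (.c
  k106 (.l (.s k64 k128 7 (.s k96 k112 3 (.s k144 k48 11 (.d k208 k224 k16 3 7))))) (.c k144 (.l (.s
  k224 k208 3 (.s k106 k47 10 (.d k64 k127 k128 6 7)))) .n))) (.c k106 (.l (.s k64 k128 7 (.s k96
  k112 3 (.s k144 k48 11 (.d k208 k224 k16 3 7))))) (.c k255 (.l (.s k15 k90 14 (.s k64 k128 7 (.s
  k106 k127 6 (.d k224 k208 k47 3 10))))) .n))))) (.c k160 (.q k1 [(.s k3 k2 0 (.s k161 k82 12 (.d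
  k169 k173 k253 1 13))), (.s k15 k90 14 (.s k169 k253 13 (.s k161 k173 1 (.s k241 k81 11 (.s k13
  k89 13 (.d k5 k10 k9 2 1)))))), (.s k3 k2 0 (.s k15 k90 14 (.s k161 k82 12 (.s k241 k81 11 (.s k13
  k89 13 (.d k5 k10 k9 2 1))))))] (.c k161 (.l (.s k3 k2 0 (.s k15 k90 14 (.s k7 k11 1 (.s k86 k244
  12 (.d k169 k253 k252 13 14)))))) .n)) .n))))))

def s170_175_246 : T TT 256 :=
  (.q k1 [(.s k5 k245 11 (.s k13 k9 1 (.s k89 k241 13 (.s k93 k81 1 (.d k253 k173 k169 11 13))))),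
  (.s k3 k2 0 (.s k169 k253 13 (.s k161 k173 1 (.s k240 k82 12 (.s k80 k160 11 (.d k90 k95 k15 2
  14)))))), (.s k3 k2 0 (.s k5 k245 11 (.s k9 k13 1 (.s k6 k12 2 (.s k7 k4 0 (.d k15 k11 k10 1
  2))))))] (.c k13 (.l (.s k3 k2 0 (.s k5 k245 11 (.s k15 k10 2 (.s k7 k11 1 (.s k169 k253 13 (.d
  k86 k244 k252 12 14))))))) .n))

def s170_175_247 : T TT 256 :=
  (.q k1 [(.s k5 k245 11 (.s k13 k9 1 (.s k89 k241 13 (.s k93 k81 1 (.d k253 k173 k169 11 13))))),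
  (.s k3 k2 0 (.s k169 k253 13 (.s k161 k173 1 (.s k240 k82 12 (.s k80 k160 11 (.d k90 k95 k15 2
  14)))))), (.s k3 k2 0 (.s k5 k245 11 (.s k9 k13 1 (.s k6 k12 2 (.s k7 k4 0 (.d k15 k11 k10 1
  2))))))] (.c k13 (.l (.s k3 k2 0 (.s k5 k245 11 (.s k15 k10 2 (.s k7 k11 1 (.s k169 k253 13 (.d
  k86 k244 k252 12 14))))))) .n))

def s170_175_248 : T TT 256 :=
  (.q k1 [(.s k5 k245 11 (.s k13 k9 1 (.s k89 k241 13 (.s k93 k81 1 (.d k253 k173 k169 11 13))))),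
  (.s k3 k2 0 (.s k5 k245 11 (.s k9 k13 1 (.s k6 k12 2 (.s k7 k4 0 (.d k15 k11 k10 1 2)))))), (.s k3
  k2 0 (.s k169 k253 13 (.s k161 k173 1 (.s k240 k82 12 (.s k80 k160 11 (.d k90 k95 k15 2 14))))))]
  (.c k13 (.l (.s k3 k2 0 (.s k5 k245 11 (.s k15 k10 2 (.s k7 k11 1 (.s k86 k244 12 (.d k169 k252
  k253 14 13))))))) .n))

def s170_175_249 : T TT 256 :=
  (.q k4 [(.s k5 k245 11 (.s k7 k6 0 (.s k86 k244 12 (.s k87 k84 0 (.d k247 k167 k166 11 12))))),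
  (.s k12 k8 1 (.s k166 k247 12 (.s k164 k167 0 (.s k240 k88 13 (.s k80 k160 11 (.d k90 k95 k15 2
  14)))))), (.s k5 k245 11 (.s k6 k7 0 (.s k10 k15 2 (.s k2 k14 1 (.s k3 k1 0 (.d k12 k8 k9 1
  2))))))] (.c k7 (.l (.s k5 k245 11 (.s k12 k8 1 (.s k15 k10 2 (.s k13 k14 0 (.s k166 k247 12 (.d
  k89 k241 k243 13 14))))))) .n))

def s170_175_250 : T TT 256 :=
  (.q k4 [(.s k5 k245 11 (.s k7 k6 0 (.s k86 k244 12 (.s k87 k84 0 (.d k247 k167 k166 11 12))))),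
  (.s k12 k8 1 (.s k166 k247 12 (.s k164 k167 0 (.s k240 k88 13 (.s k80 k160 11 (.d k90 k95 k15 2
  14)))))), (.s k5 k245 11 (.s k6 k7 0 (.s k10 k15 2 (.s k2 k14 1 (.s k3 k1 0 (.d k12 k8 k9 1
  2))))))] (.c k7 (.l (.s k5 k245 11 (.s k12 k8 1 (.s k166 k247 12 (.s k89 k243 14 (.s k13 k241 13
  (.d k15 k14 k10 0 2))))))) (.c k10 (.q k90 [(.s k80 k95 2 (.d k240 k15 k160 14 11)), (.s k5 k245
  11 (.s k7 k6 0 (.s k86 k244 12 (.s k87 k84 0 (.d k247 k167 k166 11 12)))))] (.c k240 (.l (.s k12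
  k8 1 (.s k166 k247 12 (.s k14 k242 13 (.s k13 k15 0 (.d k89 k241 k243 13 14)))))) (.c k255 (.l (.s
  k12 k8 1 (.s k166 k247 12 (.s k14 k242 13 (.d k15 k13 k240 0 14))))) .n))) (.c k90 (.q k10 [(.d k5
  k15 k245 2 11), (.s k12 k8 1 (.s k166 k247 12 (.s k164 k167 0 (.s k84 k244 11 (.s k88 k240 13 (.s
  k92 k80 1 (.d k252 k172 k168 11 13)))))))] (.c k245 (.l (.s k5 k15 2 (.s k6 k7 0 (.s k2 k14 1 (.s
  k3 k1 0 (.d k12 k8 k9 1 2)))))) .n)) (.c k240 (.l (.s k166 k247 12 (.s k164 k167 0 (.s k244 k84 11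
  (.s k7 k86 12 (.d k5 k6 k245 0 11)))))) .n)))))

def s170_175_251 : T TT 256 :=
  (.q k89 [(.s k5 k245 11 (.s k13 k241 13 (.s k1 k9 1 (.s k93 k81 1 (.d k253 k173 k169 11 13))))),
  (.s k5 k245 11 (.s k15 k10 2 (.s k81 k93 1 (.s k90 k240 14 (.s k91 k88 0 (.d k243 k162 k167 12
  13)))))), (.s k5 k245 11 (.s k13 k241 13 (.s k15 k10 2 (.s k12 k14 0 (.s k4 k8 1 (.d k166 k247
  k243 12 14)))))), (.s k81 k93 1 (.s k241 k13 13 (.s k243 k162 12 (.s k240 k242 0 (.s k80 k160 11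
  (.d k90 k95 k15 2 14))))))] .n)

def s170_175_252 : T TT 256 :=
  (.q k1 [(.s k5 k245 11 (.s k13 k9 1 (.s k89 k241 13 (.s k93 k81 1 (.d k253 k173 k169 11 13))))),
  (.s k3 k2 0 (.s k5 k245 11 (.s k15 k10 2 (.s k11 k7 1 (.s k90 k240 14 (.d k169 k248 k253 12
  13)))))), (.s k3 k2 0 (.s k169 k253 13 (.s k161 k173 1 (.s k240 k82 12 (.s k80 k160 11 (.d k90 k15
  k95 14 2)))))), (.s k3 k2 0 (.s k5 k245 11 (.s k9 k13 1 (.s k6 k12 2 (.s k7 k4 0 (.d k15 k11 k10 1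
  2))))))] .n)

def s170_175_253 : T TT 256 :=
  (.q k4 [(.s k5 k245 11 (.s k7 k6 0 (.s k86 k244 12 (.s k87 k84 0 (.d k247 k167 k166 11 12))))),
  (.s k12 k8 1 (.s k166 k247 12 (.s k164 k167 0 (.s k240 k88 13 (.s k80 k160 11 (.d k90 k95 k15 2
  14)))))), (.s k5 k245 11 (.s k6 k7 0 (.s k10 k15 2 (.s k2 k14 1 (.s k3 k1 0 (.d k12 k8 k9 1
  2))))))] (.c k7 (.l (.s k5 k245 11 (.s k12 k8 1 (.s k15 k10 2 (.s k13 k14 0 (.s k166 k247 12 (.d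
  k89 k241 k243 13 14))))))) .n))

def s170_175_254 : T TT 256 :=
  (.q k86 [(.s k5 k245 11 (.s k7 k244 12 (.s k4 k6 0 (.s k87 k84 0 (.d k247 k167 k166 11 12))))),
  (.s k5 k245 11 (.s k15 k10 2 (.s k84 k87 0 (.s k90 k240 14 (.s k94 k82 1 (.d k252 k173 k168 12
  13)))))), (.s k5 k245 11 (.s k7 k244 12 (.s k15 k10 2 (.s k3 k11 1 (.s k1 k2 0 (.d k169 k253 k252
  13 14)))))), (.s k84 k87 0 (.s k244 k7 12 (.s k252 k168 13 (.s k240 k248 1 (.s k80 k160 11 (.d k90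
  k95 k15 2 14))))))] .n)

def s170_175_255 : T TT 256 :=
  (.q k86 [(.s k5 k245 11 (.s k7 k244 12 (.s k4 k6 0 (.s k87 k84 0 (.d k247 k167 k166 11 12))))),
  (.s k5 k245 11 (.s k15 k10 2 (.s k84 k87 0 (.s k252 k168 13 (.s k94 k173 12 (.d k90 k240 k82 14
  1)))))), (.s k84 k87 0 (.s k244 k7 12 (.s k252 k168 13 (.s k240 k248 1 (.s k80 k160 11 (.d k90 k95
  k15 2 14)))))), (.s k5 k245 11 (.s k7 k244 12 (.s k15 k10 2 (.s k3 k11 1 (.s k1 k2 0 (.d k169 k253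
  k252 13 14))))))] (.c k15 (.q k95 [(.s k5 k245 11 (.s k7 k244 12 (.s k4 k6 0 (.s k87 k84 0 (.d
  k247 k167 k166 11 12))))), (.s k80 k90 2 (.s k84 k87 0 (.s k92 k88 1 (.s k89 k83 2 (.d k93 k94 k81
  0 1)))))] (.c k84 (.q k1 [(.s k3 k2 0 (.d k169 k253 k252 13 14)), (.s k5 k245 11 (.s k13 k9 1 (.s
  k89 k241 13 (.s k92 k83 2 (.d k93 k94 k81 0 1)))))] (.c k253 (.l (.s k3 k2 0 (.s k5 k245 11 (.s k7
  k244 12 (.s k9 k13 1 (.d k6 k4 k12 0 2)))))) .n)) (.c k87 (.l (.s k80 k90 2 (.s k240 k160 11 (.s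
  k244 k7 12 (.s k252 k248 1 (.s k84 k168 13 (.s k88 k92 1 (.d k164 k4 k12 11 13)))))))) (.c k250
  (.l (.s k7 k244 12 (.s k87 k84 0 (.s k247 k167 11 (.s k4 k166 12 (.d k5 k6 k245 0 11)))))) .n))))
  (.c k95 (.q k15 [(.d k5 k10 k245 2 11), (.s k7 k244 12 (.s k3 k11 1 (.s k1 k2 0 (.d k169 k253 k252
  13 14))))] .n) (.c k240 (.l (.s k7 k244 12 (.s k87 k84 0 (.s k247 k167 11 (.s k4 k166 12 (.d k5 k6
  k245 0 11)))))) .n))))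

def t170_175 : T TT 256 :=
  (.q k165 [] (.c k1 s170_175_1 (.c k2 s170_175_2 (.c k3 s170_175_3 (.c k4 s170_175_4 (.c k5
  s170_175_5 (.c k6 s170_175_6 (.c k7 s170_175_7 (.c k8 s170_175_8 (.c k9 s170_175_9 (.c k10
  s170_175_10 (.c k11 s170_175_11 (.c k12 s170_175_12 (.c k13 s170_175_13 (.c k14 s170_175_14 (.c
  k15 s170_175_15 (.c k16 s170_175_16 (.c k17 s170_175_17 (.c k18 s170_175_18 (.c k19 s170_175_19
  (.c k20 s170_175_20 (.c k21 s170_175_21 (.c k22 s170_175_22 (.c k23 s170_175_23 (.c k24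
  s170_175_24 (.c k25 s170_175_25 (.c k26 s170_175_26 (.c k27 s170_175_27 (.c k28 s170_175_28 (.c
  k29 s170_175_29 (.c k30 s170_175_30 (.c k31 s170_175_31 (.c k32 s170_175_32 (.c k33 s170_175_33
  (.c k34 s170_175_34 (.c k35 s170_175_35 (.c k36 s170_175_36 (.c k37 s170_175_37 (.c k38
  s170_175_38 (.c k39 s170_175_39 (.c k40 s170_175_40 (.c k41 s170_175_41 (.c k42 s170_175_42 (.c
  k43 s170_175_43 (.c k44 s170_175_44 (.c k45 s170_175_45 (.c k46 s170_175_46 (.c k47 s170_175_47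
  (.c k48 s170_175_48 (.c k49 s170_175_49 (.c k50 s170_175_50 (.c k51 s170_175_51 (.c k52
  s170_175_52 (.c k53 s170_175_53 (.c k54 s170_175_54 (.c k55 s170_175_55 (.c k56 s170_175_56 (.c
  k57 s170_175_57 (.c k58 s170_175_58 (.c k59 s170_175_59 (.c k60 s170_175_60 (.c k61 s170_175_61
  (.c k62 s170_175_62 (.c k63 s170_175_63 (.c k64 s170_175_64 (.c k65 s170_175_65 (.c k66
  s170_175_66 (.c k67 s170_175_67 (.c k68 s170_175_68 (.c k69 s170_175_69 (.c k70 s170_175_70 (.c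
  k71 s170_175_71 (.c k72 s170_175_72 (.c k73 s170_175_73 (.c k74 s170_175_74 (.c k75 s170_175_75
  (.c k76 s170_175_76 (.c k77 s170_175_77 (.c k78 s170_175_78 (.c k79 s170_175_79 (.c k80
  s170_175_80 (.c k81 s170_175_81 (.c k82 s170_175_82 (.c k83 s170_175_83 (.c k84 s170_175_84 (.c
  k86 s170_175_86 (.c k87 s170_175_87 (.c k88 s170_175_88 (.c k89 s170_175_89 (.c k90 s170_175_90
  (.c k91 s170_175_91 (.c k92 s170_175_92 (.c k93 s170_175_93 (.c k94 s170_175_94 (.c k95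
  s170_175_95 (.c k96 s170_175_96 (.c k97 s170_175_97 (.c k98 s170_175_98 (.c k99 s170_175_99 (.c
  k100 s170_175_100 (.c k101 s170_175_101 (.c k102 s170_175_102 (.c k103 s170_175_103 (.c k104
  s170_175_104 (.c k105 s170_175_105 (.c k106 s170_175_106 (.c k107 s170_175_107 (.c k108
  s170_175_108 (.c k109 s170_175_109 (.c k110 s170_175_110 (.c k111 s170_175_111 (.c k112
  s170_175_112 (.c k113 s170_175_113 (.c k114 s170_175_114 (.c k115 s170_175_115 (.c k116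
  s170_175_116 (.c k117 s170_175_117 (.c k118 s170_175_118 (.c k119 s170_175_119 (.c k120
  s170_175_120 (.c k121 s170_175_121 (.c k122 s170_175_122 (.c k123 s170_175_123 (.c k124
  s170_175_124 (.c k125 s170_175_125 (.c k126 s170_175_126 (.c k127 s170_175_127 (.c k128
  s170_175_128 (.c k129 s170_175_129 (.c k130 s170_175_130 (.c k131 s170_175_131 (.c k132
  s170_175_132 (.c k133 s170_175_133 (.c k134 s170_175_134 (.c k135 s170_175_135 (.c k136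
  s170_175_136 (.c k137 s170_175_137 (.c k138 s170_175_138 (.c k139 s170_175_139 (.c k140
  s170_175_140 (.c k141 s170_175_141 (.c k142 s170_175_142 (.c k143 s170_175_143 (.c k144
  s170_175_144 (.c k145 s170_175_145 (.c k146 s170_175_146 (.c k147 s170_175_147 (.c k148
  s170_175_148 (.c k149 s170_175_149 (.c k150 s170_175_150 (.c k151 s170_175_151 (.c k152
  s170_175_152 (.c k153 s170_175_153 (.c k154 s170_175_154 (.c k155 s170_175_155 (.c k156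
  s170_175_156 (.c k157 s170_175_157 (.c k158 s170_175_158 (.c k159 s170_175_159 (.c k160
  s170_175_160 (.c k161 s170_175_161 (.c k162 s170_175_162 (.c k163 s170_175_163 (.c k164
  s170_175_164 (.c k166 s170_175_166 (.c k167 s170_175_167 (.c k168 s170_175_168 (.c k169
  s170_175_169 (.c k171 s170_175_171 (.c k172 s170_175_172 (.c k173 s170_175_173 (.c k174
  s170_175_174 (.c k176 s170_175_176 (.c k177 s170_175_177 (.c k178 s170_175_178 (.c k179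
  s170_175_179 (.c k180 s170_175_180 (.c k181 s170_175_181 (.c k182 s170_175_182 (.c k183
  s170_175_183 (.c k184 s170_175_184 (.c k185 s170_175_185 (.c k186 s170_175_186 (.c k187
  s170_175_187 (.c k188 s170_175_188 (.c k189 s170_175_189 (.c k190 s170_175_190 (.c k191
  s170_175_191 (.c k192 s170_175_192 (.c k193 s170_175_193 (.c k194 s170_175_194 (.c k195
  s170_175_195 (.c k196 s170_175_196 (.c k197 s170_175_197 (.c k198 s170_175_198 (.c k199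
  s170_175_199 (.c k200 s170_175_200 (.c k201 s170_175_201 (.c k202 s170_175_202 (.c k203
  s170_175_203 (.c k204 s170_175_204 (.c k205 s170_175_205 (.c k206 s170_175_206 (.c k207
  s170_175_207 (.c k208 s170_175_208 (.c k209 s170_175_209 (.c k210 s170_175_210 (.c k211
  s170_175_211 (.c k212 s170_175_212 (.c k213 s170_175_213 (.c k214 s170_175_214 (.c k215
  s170_175_215 (.c k216 s170_175_216 (.c k217 s170_175_217 (.c k218 s170_175_218 (.c k219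
  s170_175_219 (.c k220 s170_175_220 (.c k221 s170_175_221 (.c k222 s170_175_222 (.c k223
  s170_175_223 (.c k224 s170_175_224 (.c k225 s170_175_225 (.c k226 s170_175_226 (.c k227
  s170_175_227 (.c k228 s170_175_228 (.c k229 s170_175_229 (.c k230 s170_175_230 (.c k231
  s170_175_231 (.c k232 s170_175_232 (.c k233 s170_175_233 (.c k234 s170_175_234 (.c k235
  s170_175_235 (.c k236 s170_175_236 (.c k237 s170_175_237 (.c k238 s170_175_238 (.c k239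
  s170_175_239 (.c k240 s170_175_240 (.c k241 s170_175_241 (.c k242 s170_175_242 (.c k243
  s170_175_243 (.c k244 s170_175_244 (.c k245 s170_175_245 (.c k246 s170_175_246 (.c k247
  s170_175_247 (.c k248 s170_175_248 (.c k249 s170_175_249 (.c k250 s170_175_250 (.c k251
  s170_175_251 (.c k252 s170_175_252 (.c k253 s170_175_253 (.c k254 s170_175_254 (.c k255
  s170_175_255 .n))))))))))))))))))))))))))))))))))))))))))))))))))))))))))))))))))))))))))))))))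
  ))))))))))))))))))))))))))))))))))))))))))))))))))))))))))))))))))))))))))))))))
  )))))))))))))))))))))))))))))))))))))))))))))))))))))))))))))))))))))))))))))))) ))))))))))))

/-- roots with certificates -/
def certs : List (Cell TT 256 × Cell TT 256 × T TT 256) :=
  [(k63, k207, t63_207), (k170, k171, t170_171), (k170, k175, t170_175)]

theorem c63_207 : rootOK k63 k207 t63_207 = true := by decide +kernel

theorem c170_171 : rootOK k170 k171 t170_171 = true := by decide +kernel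

theorem c170_175 : rootOK k170 k175 t170_175 = true := by decide +kernel

theorem ok : certsOK certs = true :=
  certsOK_cons c63_207 (certsOK_cons c170_171 (certsOK_cons c170_175 (certsOK_nil)))

theorem sound (k : Nat) (hk : (bits certs).testBit k = true) : PI k :=
  certs_sound certs ok k hk

end Pool.Agent.TTT.B11
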