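import Pool.Agent.TTT.Sym

set_option autoImplicit false
set_option maxRecDepth 100000

namespace Pool.Agent.TTT.B12

def s170_191_1 : T TT 256 :=
  (.q k4 [(.s k21 k213 7 (.s k55 k38 4 (.s k102 k196 12 (.s k119 k68 4 (.d k247 k183 k166 7 12))))),
  (.s k12 k8 1 (.s k21 k213 7 (.s k38 k55 4 (.s k25 k51 6 (.s k29 k17 1 (.d k63 k46 k42 4 6)))))),
  (.s k12 k8 1 (.s k166 k247 12 (.s k132 k183 4 (.s k192 k72 9 (.s k64 k128 7 (.d k106 k127 k63 6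
  14))))))] (.c k55 (.l (.s k12 k8 1 (.s k21 k213 7 (.s k63 k42 6 (.s k29 k46 4 (.s k89 k209 9 (.d
  k166 k247 k243 12 14))))))) .n))

def s170_191_2 : T TT 256 :=
  (.q k86 [(.s k84 k87 0 (.s k212 k23 8 (.s k20 k148 7 (.s k213 k21 7 (.d k215 k214 k150 0 8))))),
  (.s k21 k213 7 (.s k63 k42 6 (.s k84 k87 0 (.s k106 k192 14 (.s k126 k66 5 (.d k252 k189 k168 8
  13)))))), (.s k84 k87 0 (.s k212 k23 8 (.s k252 k168 13 (.s k192 k232 5 (.s k64 k128 7 (.d k106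
  k127 k63 6 14)))))), (.s k21 k213 7 (.s k23 k212 8 (.s k63 k42 6 (.s k3 k43 5 (.s k106 k192 14 (.s
  k126 k66 5 (.d k252 k189 k169 8 14)))))))] .n)

def s170_191_3 : T TT 256 :=
  (.q k4 [(.s k21 k213 7 (.s k55 k38 4 (.s k102 k196 12 (.s k119 k68 4 (.d k247 k183 k166 7 12))))),
  (.s k12 k8 1 (.s k21 k213 7 (.s k38 k55 4 (.s k25 k51 6 (.s k29 k17 1 (.d k63 k46 k42 4 6)))))),
  (.s k12 k8 1 (.s k166 k247 12 (.s k132 k183 4 (.s k192 k72 9 (.s k64 k128 7 (.d k106 k127 k63 6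
  14))))))] (.c k55 (.l (.s k12 k8 1 (.s k21 k213 7 (.s k63 k42 6 (.s k29 k46 4 (.s k89 k209 9 (.d
  k166 k247 k243 12 14))))))) .n))

def s170_191_4 : T TT 256 :=
  (.q k1 [(.s k21 k213 7 (.s k61 k41 5 (.s k105 k193 13 (.s k125 k65 5 (.d k253 k189 k169 7 13))))),
  (.s k3 k2 0 (.s k21 k213 7 (.s k41 k61 5 (.s k22 k60 6 (.s k23 k20 0 (.d k63 k43 k42 5 6)))))),
  (.s k3 k2 0 (.s k169 k253 13 (.s k129 k189 5 (.s k192 k66 8 (.s k64 k128 7 (.d k106 k127 k63 6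
  14))))))] (.c k61 (.l (.s k3 k2 0 (.s k21 k213 7 (.s k63 k42 6 (.s k23 k43 5 (.s k86 k212 8 (.d
  k169 k253 k252 13 14))))))) .n))

def s170_191_5 : T TT 256 :=
  (.q k1 [(.s k21 k213 7 (.s k61 k41 5 (.s k105 k193 13 (.s k125 k65 5 (.d k253 k189 k169 7 13))))),
  (.s k3 k2 0 (.s k21 k213 7 (.s k41 k61 5 (.s k22 k60 6 (.s k23 k20 0 (.d k63 k43 k42 5 6)))))),
  (.s k3 k2 0 (.s k169 k253 13 (.s k129 k189 5 (.s k192 k66 8 (.s k64 k128 7 (.d k106 k127 k63 6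
  14))))))] (.c k61 (.l (.s k3 k2 0 (.s k21 k213 7 (.s k63 k42 6 (.s k23 k43 5 (.s k86 k212 8 (.d
  k169 k253 k252 13 14))))))) .n))

def s170_191_6 : T TT 256 :=
  (.q k1 [(.s k21 k213 7 (.s k61 k41 5 (.s k105 k193 13 (.s k125 k65 5 (.d k253 k189 k169 7 13))))),
  (.s k3 k2 0 (.s k21 k213 7 (.s k41 k61 5 (.s k22 k60 6 (.s k23 k20 0 (.d k63 k43 k42 5 6)))))),
  (.s k3 k2 0 (.s k169 k253 13 (.s k129 k189 5 (.s k192 k66 8 (.s k64 k128 7 (.d k106 k127 k63 6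
  14))))))] (.c k61 (.l (.s k3 k2 0 (.s k21 k213 7 (.s k63 k42 6 (.s k23 k43 5 (.s k86 k212 8 (.d
  k169 k253 k252 13 14))))))) .n))

def s170_191_7 : T TT 256 :=
  (.q k1 [(.s k21 k213 7 (.s k61 k41 5 (.s k105 k193 13 (.s k125 k65 5 (.d k253 k189 k169 7 13))))),
  (.s k3 k2 0 (.s k21 k213 7 (.s k41 k61 5 (.s k22 k60 6 (.s k23 k20 0 (.d k63 k43 k42 5 6)))))),
  (.s k3 k2 0 (.s k169 k253 13 (.s k129 k189 5 (.s k192 k66 8 (.s k64 k128 7 (.d k106 k127 k63 6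
  14))))))] (.c k61 (.l (.s k3 k2 0 (.s k21 k213 7 (.s k63 k42 6 (.s k23 k43 5 (.s k86 k212 8 (.d
  k169 k253 k252 13 14))))))) .n))

def s170_191_8 : T TT 256 :=
  (.q k89 [(.s k81 k93 1 (.s k209 k29 9 (.s k17 k145 7 (.s k213 k21 7 (.d k221 k217 k153 1 9))))),
  (.s k21 k213 7 (.s k63 k42 6 (.s k81 k93 1 (.s k106 k192 14 (.s k123 k72 4 (.d k243 k183 k162 9
  12)))))), (.s k81 k93 1 (.s k209 k29 9 (.s k243 k162 12 (.s k192 k226 4 (.s k64 k128 7 (.d k106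
  k127 k63 6 14)))))), (.s k21 k213 7 (.s k29 k209 9 (.s k63 k42 6 (.s k12 k46 4 (.s k106 k192 14
  (.s k123 k72 4 (.d k243 k183 k166 9 14)))))))] .n)

def s170_191_9 : T TT 256 :=
  (.q k1 [(.s k21 k213 7 (.s k61 k41 5 (.s k105 k193 13 (.s k125 k65 5 (.d k253 k189 k169 7 13))))),
  (.s k3 k2 0 (.s k21 k213 7 (.s k41 k61 5 (.s k22 k60 6 (.s k23 k20 0 (.d k63 k43 k42 5 6)))))),
  (.s k3 k2 0 (.s k169 k253 13 (.s k129 k189 5 (.s k192 k66 8 (.s k64 k128 7 (.d k106 k127 k63 6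
  14))))))] (.c k61 (.l (.s k3 k2 0 (.s k21 k213 7 (.s k63 k42 6 (.s k23 k43 5 (.s k86 k212 8 (.d
  k169 k253 k252 13 14))))))) .n))

def s170_191_10 : T TT 256 :=
  (.q k90 [(.s k80 k95 2 (.s k208 k31 10 (.s k16 k144 7 (.s k213 k21 7 (.d k223 k218 k154 2 10))))),
  (.s k21 k213 7 (.s k63 k42 6 (.s k80 k95 2 (.s k106 k192 14 (.s k122 k74 3 (.d k240 k181 k160 10
  11)))))), (.s k80 k95 2 (.s k208 k31 10 (.s k240 k160 11 (.s k192 k224 3 (.s k64 k128 7 (.d k106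
  k127 k63 6 14)))))), (.s k21 k213 7 (.s k31 k208 10 (.s k63 k42 6 (.s k15 k47 3 (.s k106 k192 14
  (.s k122 k74 3 (.d k240 k181 k165 10 14)))))))] .n)

def s170_191_11 : T TT 256 :=
  (.q k1 [(.s k21 k213 7 (.s k61 k41 5 (.s k105 k193 13 (.s k125 k65 5 (.d k253 k189 k169 7 13))))),
  (.s k3 k2 0 (.s k21 k213 7 (.s k41 k61 5 (.s k22 k60 6 (.s k23 k20 0 (.d k63 k43 k42 5 6)))))),
  (.s k3 k2 0 (.s k169 k253 13 (.s k129 k189 5 (.s k192 k66 8 (.s k64 k128 7 (.d k106 k127 k63 6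
  14))))))] (.c k61 (.l (.s k3 k2 0 (.s k21 k213 7 (.s k63 k42 6 (.s k23 k43 5 (.s k86 k212 8 (.d
  k169 k253 k252 13 14))))))) .n))

def s170_191_12 : T TT 256 :=
  (.q k1 [(.s k21 k213 7 (.s k61 k41 5 (.s k105 k193 13 (.s k125 k65 5 (.d k253 k189 k169 7 13))))),
  (.s k3 k2 0 (.s k21 k213 7 (.s k41 k61 5 (.s k22 k60 6 (.s k23 k20 0 (.d k63 k43 k42 5 6)))))),
  (.s k3 k2 0 (.s k169 k253 13 (.s k129 k189 5 (.s k192 k66 8 (.s k64 k128 7 (.d k106 k127 k63 6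
  14))))))] (.c k61 (.l (.s k3 k2 0 (.s k21 k213 7 (.s k63 k42 6 (.s k23 k43 5 (.s k86 k212 8 (.d
  k169 k253 k252 13 14))))))) .n))

def s170_191_13 : T TT 256 :=
  (.q k1 [(.s k21 k213 7 (.s k61 k41 5 (.s k105 k193 13 (.s k125 k65 5 (.d k253 k189 k169 7 13))))),
  (.s k3 k2 0 (.s k21 k213 7 (.s k41 k61 5 (.s k22 k60 6 (.s k23 k20 0 (.d k63 k43 k42 5 6)))))),
  (.s k3 k2 0 (.s k169 k253 13 (.s k129 k189 5 (.s k192 k66 8 (.s k64 k128 7 (.d k106 k127 k63 6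
  14))))))] (.c k61 (.l (.s k3 k2 0 (.s k21 k213 7 (.s k63 k42 6 (.s k23 k43 5 (.s k86 k212 8 (.d
  k169 k253 k252 13 14))))))) .n))

def s170_191_14 : T TT 256 :=
  (.q k1 [(.s k21 k213 7 (.s k61 k41 5 (.s k105 k193 13 (.s k125 k65 5 (.d k253 k189 k169 7 13))))),
  (.s k3 k2 0 (.s k21 k213 7 (.s k41 k61 5 (.s k22 k60 6 (.s k23 k20 0 (.d k63 k43 k42 5 6)))))),
  (.s k3 k2 0 (.s k169 k253 13 (.s k129 k189 5 (.s k192 k66 8 (.s k64 k128 7 (.d k106 k127 k63 6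
  14))))))] (.c k61 (.l (.s k3 k2 0 (.s k21 k213 7 (.s k63 k42 6 (.s k23 k43 5 (.s k86 k212 8 (.d
  k169 k253 k252 13 14))))))) .n))

def s170_191_15 : T TT 256 :=
  (.q k1 [(.s k21 k213 7 (.s k61 k41 5 (.s k105 k193 13 (.s k125 k65 5 (.d k253 k189 k169 7 13))))),
  (.s k3 k2 0 (.s k21 k213 7 (.s k41 k61 5 (.s k22 k60 6 (.s k23 k20 0 (.d k63 k43 k42 5 6)))))),
  (.s k3 k2 0 (.s k169 k253 13 (.s k129 k189 5 (.s k192 k66 8 (.s k64 k128 7 (.d k106 k127 k63 6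
  14))))))] (.c k61 (.l (.s k3 k2 0 (.s k21 k213 7 (.s k63 k42 6 (.s k23 k43 5 (.s k86 k212 8 (.d
  k169 k253 k252 13 14))))))) .n))

def s170_191_16 : T TT 256 :=
  (.q k1 [(.s k21 k213 7 (.s k61 k41 5 (.s k105 k193 13 (.s k125 k65 5 (.d k253 k189 k169 7 13))))),
  (.s k3 k2 0 (.s k21 k213 7 (.s k41 k61 5 (.s k22 k60 6 (.s k23 k20 0 (.d k63 k43 k42 5 6)))))),
  (.s k3 k2 0 (.s k169 k253 13 (.s k129 k189 5 (.s k192 k66 8 (.s k64 k128 7 (.d k106 k127 k63 6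
  14))))))] (.c k61 (.l (.s k3 k2 0 (.s k21 k213 7 (.s k63 k42 6 (.s k23 k43 5 (.s k86 k212 8 (.d
  k169 k253 k252 13 14))))))) .n))

def s170_191_17 : T TT 256 :=
  (.q k1 [(.s k21 k213 7 (.s k61 k41 5 (.s k105 k193 13 (.s k125 k65 5 (.d k253 k189 k169 7 13))))),
  (.s k3 k2 0 (.s k21 k213 7 (.s k41 k61 5 (.s k22 k60 6 (.s k23 k20 0 (.d k63 k43 k42 5 6)))))),
  (.s k3 k2 0 (.s k169 k253 13 (.s k129 k189 5 (.s k192 k66 8 (.s k64 k128 7 (.d k106 k127 k63 6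
  14))))))] (.c k61 (.l (.s k3 k2 0 (.s k21 k213 7 (.s k63 k42 6 (.s k23 k43 5 (.s k86 k212 8 (.d
  k169 k253 k252 13 14))))))) .n))

def s170_191_18 : T TT 256 :=
  (.q k1 [(.s k21 k213 7 (.s k61 k41 5 (.s k105 k193 13 (.s k125 k65 5 (.d k253 k189 k169 7 13))))),
  (.s k3 k2 0 (.s k21 k213 7 (.s k41 k61 5 (.s k22 k60 6 (.s k23 k20 0 (.d k63 k43 k42 5 6)))))),
  (.s k3 k2 0 (.s k169 k253 13 (.s k129 k189 5 (.s k192 k66 8 (.s k64 k128 7 (.d k106 k127 k63 6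
  14))))))] (.c k61 (.l (.s k3 k2 0 (.s k21 k213 7 (.s k63 k42 6 (.s k23 k43 5 (.s k86 k212 8 (.d
  k169 k253 k252 13 14))))))) .n))

def s170_191_19 : T TT 256 :=
  (.q k1 [(.s k21 k213 7 (.s k61 k41 5 (.s k105 k193 13 (.s k125 k65 5 (.d k253 k189 k169 7 13))))),
  (.s k3 k2 0 (.s k21 k213 7 (.s k41 k61 5 (.s k22 k60 6 (.s k23 k20 0 (.d k63 k43 k42 5 6)))))),
  (.s k3 k2 0 (.s k169 k253 13 (.s k129 k189 5 (.s k192 k66 8 (.s k64 k128 7 (.d k106 k127 k63 6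
  14))))))] (.c k61 (.l (.s k3 k2 0 (.s k21 k213 7 (.s k63 k42 6 (.s k23 k43 5 (.s k86 k212 8 (.d
  k169 k253 k252 13 14))))))) .n))

def s170_191_20 : T TT 256 :=
  (.q k1 [(.s k21 k213 7 (.s k61 k41 5 (.s k105 k193 13 (.s k125 k65 5 (.d k253 k189 k169 7 13))))),
  (.s k3 k2 0 (.s k169 k253 13 (.s k129 k189 5 (.s k192 k66 8 (.s k64 k128 7 (.d k106 k127 k63 6
  14)))))), (.s k3 k2 0 (.s k21 k213 7 (.s k63 k42 6 (.s k23 k43 5 (.s k86 k212 8 (.d k169 k253 k252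
  13 14))))))] (.c k169 (.l (.s k21 k213 7 (.s k61 k41 5 (.s k63 k42 6 (.s k60 k62 0 (.s k105 k193
  13 (.s k65 k125 5 (.d k195 k130 k150 8 14)))))))) (.c k253 (.l (.s k3 k2 0 (.s k21 k213 7 (.s k61
  k41 5 (.s k63 k42 6 (.s k193 k105 13 (.s k129 k65 7 (.d k192 k106 k66 14 8)))))))) .n)))

def s170_191_21 : T TT 256 :=
  (.q k192 [(.s k64 k128 7 (.d k106 k127 k63 6 14))] (.c k63 (.f k64 k128 7 (.q k74 [(.s k15 k133 10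
  (.s k69 k79 2 (.s k138 k207 10 (.d k10 k5 k202 2 7)))), (.s k69 k79 2 (.s k101 k117 3 (.s k197 k53
  11 (.d k133 k5 k15 7 10)))), (.s k69 k79 2 (.s k101 k117 3 (.s k207 k138 10 (.d k197 k202 k53 2
  11)))), (.s k15 k133 10 (.s k5 k10 2 (.s k165 k245 11 (.s k90 k240 14 (.d k106 k122 k127 3 6)))))]
  (.c k127 (.q k255 [(.s k15 k133 10 (.s k69 k79 2 (.s k138 k207 10 (.d k10 k5 k202 2 7)))), (.s k69
  k79 2 (.s k101 k117 3 (.s k197 k53 11 (.d k133 k5 k15 7 10)))), (.s k15 k133 10 (.s k5 k10 2 (.s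
  k95 k175 11 (.s k90 k80 2 (.d k165 k245 k240 11 14))))), (.s k69 k79 2 (.s k101 k117 3 (.s k207
  k138 10 (.d k197 k202 k53 2 11))))] (.c k95 (.l (.s k15 k133 10 (.s k10 k5 2 (.s k138 k202 7 (.d
  k69 k79 k207 2 10))))) (.c k133 (.l (.s k69 k79 2 (.s k101 k117 3 (.s k197 k53 11 (.d k207 k202
  k138 2 10))))) .n))) (.c k133 (.l (.s k69 k79 2 (.s k101 k117 3 (.s k197 k53 11 (.d k207 k202 k138
  2 10))))) (.c k255 (.l (.s k127 k106 6 (.s k15 k133 10 (.s k10 k5 2 (.s k69 k79 2 (.d k138 k202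
  k207 7 10)))))) .n))))) (.c k64 (.q k1 [(.s k3 k2 0 (.s k169 k253 13 (.d k129 k189 k66 5 8))), (.s
  k3 k2 0 (.s k63 k106 14 (.s k23 k43 5 (.s k86 k212 8 (.s k84 k87 0 (.d k252 k169 k168 14 13)))))),
  (.s k63 k106 14 (.s k169 k253 13 (.s k189 k129 5 (.s k252 k126 8 (.s k84 k168 13 (.s k86 k87 0 (.d
  k212 k232 k23 5 8)))))))] (.c k86 (.l (.s k169 k253 13 (.s k129 k189 5 (.d k3 k2 k66 0 8)))) (.c
  k169 (.l (.s k3 k2 0 (.s k66 k129 8 (.s k106 k63 14 (.s k86 k126 5 (.s k84 k87 0 (.s k212 k23 8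
  (.d k252 k232 k168 5 13)))))))) .n))) (.c k106 (.f k64 k128 7 (.q k3 [(.s k1 k2 0 (.s k169 k253 13
  (.d k129 k189 k66 5 8))), (.s k2 k1 0 (.s k66 k129 8 (.s k65 k67 0 (.d k130 k194 k195 7 8)))), (.s
  k129 k66 8 (.s k169 k189 5 (.s k86 k252 14 (.s k84 k87 0 (.s k104 k124 5 (.s k212 k23 8 (.d k148
  k20 k60 7 13))))))), (.s k1 k2 0 (.s k169 k253 13 (.s k86 k252 14 (.s k84 k87 0 (.s k104 k124 5
  (.s k212 k23 8 (.d k148 k20 k60 7 13)))))))] (.c k42 (.q k234 [(.s k129 k66 8 (.s k169 k189 5 (.d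
  k1 k2 k253 0 13))), (.s k2 k1 0 (.s k66 k129 8 (.s k65 k67 0 (.d k130 k194 k195 7 8)))), (.s k129
  k66 8 (.s k169 k189 5 (.s k86 k252 14 (.s k87 k84 0 (.d k255 k213 k171 6 13))))), (.s k1 k2 0 (.s
  k169 k253 13 (.s k86 k252 14 (.s k87 k84 0 (.d k255 k213 k171 6 13)))))] .n) (.c k234 (.q k42 [(.s
  k1 k2 0 (.s k169 k253 13 (.d k129 k189 k66 5 8))), (.s k2 k1 0 (.s k66 k129 8 (.s k65 k67 0 (.d
  k130 k194 k195 7 8)))), (.s k129 k66 8 (.s k169 k189 5 (.s k86 k252 14 (.s k84 k87 0 (.s k104 k124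
  5 (.s k212 k23 8 (.d k148 k20 k60 7 13))))))), (.s k1 k2 0 (.s k169 k253 13 (.s k86 k252 14 (.s
  k84 k87 0 (.s k104 k124 5 (.s k212 k23 8 (.d k148 k20 k60 7 13)))))))] .n) .n)))) (.c k127 (.q
  k105 [(.s k193 k61 13 (.s k195 k194 0 (.d k65 k125 k130 5 8))), (.s k63 k106 14 (.s k65 k125 5 (.s
  k195 k130 8 (.s k150 k60 14 (.d k151 k148 k107 0 13))))), (.s k61 k193 13 (.s k63 k106 14 (.s k60
  k62 0 (.s k20 k40 5 (.d k150 k215 k195 8 14)))))] (.c k63 (.q k255 [(.s k65 k125 5 (.s k195 k130 8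
  (.d k193 k194 k61 0 13))), (.s k193 k61 13 (.s k195 k194 0 (.s k215 k235 5 (.d k150 k60 k20 14
  8)))), (.s k65 k125 5 (.s k195 k130 8 (.s k215 k235 5 (.d k150 k20 k60 8 14)))), (.s k64 k128 7
  (.s k65 k125 5 (.s k66 k67 0 (.s k193 k61 13 (.d k129 k1 k3 7 8)))))] .n) (.c k195 (.l (.s k64
  k128 7 (.s k65 k125 5 (.s k66 k67 0 (.s k193 k61 13 (.d k129 k1 k3 7 8)))))) (.c k255 (.l (.s k63
  k106 14 (.s k65 k125 5 (.s k193 k61 13 (.d k195 k194 k130 0 8))))) .n)))) (.c k128 (.q k1 [(.s k3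
  k2 0 (.s k169 k253 13 (.d k129 k189 k66 5 8))), (.s k3 k2 0 (.s k63 k106 14 (.s k23 k43 5 (.s k86
  k212 8 (.s k84 k87 0 (.d k252 k169 k168 14 13)))))), (.s k63 k106 14 (.s k169 k253 13 (.s k189
  k129 5 (.s k252 k126 8 (.s k84 k168 13 (.s k86 k87 0 (.d k212 k232 k23 5 8)))))))] (.c k86 (.l (.s
  k169 k253 13 (.s k129 k189 5 (.d k3 k2 k66 0 8)))) (.c k169 (.l (.s k3 k2 0 (.s k66 k129 8 (.s
  k106 k63 14 (.s k86 k126 5 (.s k84 k87 0 (.s k212 k23 8 (.d k252 k232 k168 5 13)))))))) .n)))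
  .n))))))

def s170_191_22 : T TT 256 :=
  (.q k1 [(.s k21 k213 7 (.s k61 k41 5 (.s k105 k193 13 (.s k125 k65 5 (.d k253 k189 k169 7 13))))),
  (.s k3 k2 0 (.s k169 k253 13 (.s k86 k252 14 (.s k23 k212 8 (.s k63 k43 5 (.d k21 k42 k213 6
  7)))))), (.s k3 k2 0 (.s k169 k253 13 (.s k129 k189 5 (.s k192 k66 8 (.s k64 k128 7 (.d k106 k127
  k63 6 14))))))] (.c k3 (.l (.s k21 k213 7 (.s k169 k253 13 (.s k129 k189 5 (.s k193 k65 7 (.d k61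
  k41 k105 5 13)))))) (.c k169 (.l (.s k21 k213 7 (.s k61 k41 5 (.s k63 k42 6 (.s k105 k193 13 (.s
  k65 k125 5 (.s k195 k130 8 (.d k60 k62 k150 0 14)))))))) (.c k253 (.l (.s k3 k2 0 (.s k21 k213 7
  (.s k61 k41 5 (.s k193 k105 13 (.s k129 k65 7 (.s k192 k66 8 (.d k63 k42 k106 6 14)))))))) .n))))

def s170_191_23 : T TT 256 :=
  (.q k1 [(.s k21 k213 7 (.s k61 k41 5 (.s k105 k193 13 (.s k125 k65 5 (.d k253 k189 k169 7 13))))),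
  (.s k3 k2 0 (.s k21 k213 7 (.s k41 k61 5 (.s k42 k63 6 (.s k40 k43 0 (.d k60 k20 k22 5 6)))))),
  (.s k3 k2 0 (.s k169 k253 13 (.s k129 k189 5 (.s k192 k66 8 (.s k64 k128 7 (.d k106 k127 k63 6
  14))))))] (.c k61 (.l (.s k3 k2 0 (.s k21 k213 7 (.s k63 k42 6 (.s k169 k253 13 (.s k189 k129 5
  (.d k252 k86 k126 14 8))))))) .n))

def s170_191_24 : T TT 256 :=
  (.q k1 [(.s k21 k213 7 (.s k61 k41 5 (.s k105 k193 13 (.s k125 k65 5 (.d k253 k189 k169 7 13))))),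
  (.s k3 k2 0 (.s k21 k213 7 (.s k41 k61 5 (.s k22 k60 6 (.s k23 k20 0 (.d k63 k43 k42 5 6)))))),
  (.s k3 k2 0 (.s k169 k253 13 (.s k129 k189 5 (.s k192 k66 8 (.s k64 k128 7 (.d k106 k127 k63 6
  14))))))] (.c k61 (.l (.s k3 k2 0 (.s k21 k213 7 (.s k63 k42 6 (.s k23 k43 5 (.s k86 k212 8 (.d
  k169 k253 k252 13 14))))))) .n))

def s170_191_25 : T TT 256 :=
  (.q k1 [(.s k21 k213 7 (.s k61 k41 5 (.s k105 k193 13 (.s k125 k65 5 (.d k253 k189 k169 7 13))))),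
  (.s k3 k2 0 (.s k21 k213 7 (.s k41 k61 5 (.s k22 k60 6 (.s k23 k20 0 (.d k63 k43 k42 5 6)))))),
  (.s k3 k2 0 (.s k169 k253 13 (.s k129 k189 5 (.s k192 k66 8 (.s k64 k128 7 (.d k106 k127 k63 6
  14))))))] (.c k61 (.l (.s k3 k2 0 (.s k21 k213 7 (.s k63 k42 6 (.s k23 k43 5 (.s k86 k212 8 (.d
  k169 k253 k252 13 14))))))) .n))

def s170_191_26 : T TT 256 :=
  (.q k1 [(.s k21 k213 7 (.s k61 k41 5 (.s k105 k193 13 (.s k125 k65 5 (.d k253 k189 k169 7 13))))),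
  (.s k3 k2 0 (.s k21 k213 7 (.s k41 k61 5 (.s k22 k60 6 (.s k23 k20 0 (.d k63 k43 k42 5 6)))))),
  (.s k3 k2 0 (.s k169 k253 13 (.s k129 k189 5 (.s k192 k66 8 (.s k64 k128 7 (.d k106 k127 k63 6
  14))))))] (.c k61 (.l (.s k3 k2 0 (.s k21 k213 7 (.s k63 k42 6 (.s k23 k43 5 (.s k86 k212 8 (.d
  k169 k253 k252 13 14))))))) .n))

def s170_191_27 : T TT 256 :=
  (.q k1 [(.s k21 k213 7 (.s k61 k41 5 (.s k105 k193 13 (.s k125 k65 5 (.d k253 k189 k169 7 13))))),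
  (.s k3 k2 0 (.s k21 k213 7 (.s k41 k61 5 (.s k22 k60 6 (.s k23 k20 0 (.d k63 k43 k42 5 6)))))),
  (.s k3 k2 0 (.s k169 k253 13 (.s k129 k189 5 (.s k192 k66 8 (.s k64 k128 7 (.d k106 k127 k63 6
  14))))))] (.c k61 (.l (.s k3 k2 0 (.s k21 k213 7 (.s k63 k42 6 (.s k23 k43 5 (.s k86 k212 8 (.d
  k169 k253 k252 13 14))))))) .n))

def s170_191_28 : T TT 256 :=
  (.q k1 [(.s k21 k213 7 (.s k61 k41 5 (.s k105 k193 13 (.s k125 k65 5 (.d k253 k189 k169 7 13))))),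
  (.s k3 k2 0 (.s k21 k213 7 (.s k41 k61 5 (.s k22 k60 6 (.s k23 k20 0 (.d k63 k43 k42 5 6)))))),
  (.s k3 k2 0 (.s k169 k253 13 (.s k129 k189 5 (.s k192 k66 8 (.s k64 k128 7 (.d k106 k127 k63 6
  14))))))] (.c k61 (.l (.s k3 k2 0 (.s k21 k213 7 (.s k63 k42 6 (.s k23 k43 5 (.s k86 k212 8 (.d
  k169 k253 k252 13 14))))))) .n))

def s170_191_29 : T TT 256 :=
  (.q k1 [(.s k21 k213 7 (.s k61 k41 5 (.s k105 k193 13 (.s k125 k65 5 (.d k253 k189 k169 7 13))))),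
  (.s k3 k2 0 (.s k21 k213 7 (.s k41 k61 5 (.s k22 k60 6 (.s k23 k20 0 (.d k63 k43 k42 5 6)))))),
  (.s k3 k2 0 (.s k169 k253 13 (.s k129 k189 5 (.s k192 k66 8 (.s k64 k128 7 (.d k106 k127 k63 6
  14))))))] (.c k61 (.l (.s k3 k2 0 (.s k21 k213 7 (.s k63 k42 6 (.s k23 k43 5 (.s k86 k212 8 (.d
  k169 k253 k252 13 14))))))) .n))

def s170_191_30 : T TT 256 :=
  (.q k1 [(.s k21 k213 7 (.s k61 k41 5 (.s k105 k193 13 (.s k125 k65 5 (.d k253 k189 k169 7 13))))),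
  (.s k3 k2 0 (.s k21 k213 7 (.s k41 k61 5 (.s k22 k60 6 (.s k23 k20 0 (.d k63 k43 k42 5 6)))))),
  (.s k3 k2 0 (.s k169 k253 13 (.s k129 k189 5 (.s k192 k66 8 (.s k64 k128 7 (.d k106 k127 k63 6
  14))))))] (.c k61 (.l (.s k3 k2 0 (.s k21 k213 7 (.s k63 k42 6 (.s k23 k43 5 (.s k86 k212 8 (.d
  k169 k253 k252 13 14))))))) .n))

def s170_191_31 : T TT 256 :=
  (.q k1 [(.s k21 k213 7 (.s k61 k41 5 (.s k105 k193 13 (.s k125 k65 5 (.d k253 k189 k169 7 13))))),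
  (.s k3 k2 0 (.s k21 k213 7 (.s k41 k61 5 (.s k22 k60 6 (.s k23 k20 0 (.d k63 k43 k42 5 6)))))),
  (.s k3 k2 0 (.s k169 k253 13 (.s k129 k189 5 (.s k192 k66 8 (.s k64 k128 7 (.d k106 k127 k63 6
  14))))))] (.c k61 (.l (.s k3 k2 0 (.s k21 k213 7 (.s k63 k42 6 (.s k23 k43 5 (.s k86 k212 8 (.d
  k169 k253 k252 13 14))))))) .n))

def s170_191_32 : T TT 256 :=
  (.q k101 [(.s k69 k117 3 (.s k197 k53 11 (.s k5 k133 7 (.s k213 k21 7 (.d k245 k229 k165 3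
  11))))), (.s k21 k213 7 (.s k63 k42 6 (.s k69 k117 3 (.s k106 k192 14 (.s k111 k96 2 (.d k207 k138
  k159 10 11)))))), (.s k69 k117 3 (.s k197 k53 11 (.s k207 k138 10 (.s k192 k202 2 (.s k64 k128 7
  (.d k106 k127 k63 6 14)))))), (.s k21 k213 7 (.s k53 k197 11 (.s k63 k42 6 (.s k48 k58 2 (.s k106
  k192 14 (.s k111 k96 2 (.d k207 k159 k154 11 14)))))))] .n)

def s170_191_33 : T TT 256 :=
  (.q k1 [(.s k21 k213 7 (.s k61 k41 5 (.s k105 k193 13 (.s k125 k65 5 (.d k253 k189 k169 7 13))))),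
  (.s k3 k2 0 (.s k21 k213 7 (.s k41 k61 5 (.s k22 k60 6 (.s k23 k20 0 (.d k63 k43 k42 5 6)))))),
  (.s k3 k2 0 (.s k169 k253 13 (.s k129 k189 5 (.s k192 k66 8 (.s k64 k128 7 (.d k106 k127 k63 6
  14))))))] (.c k61 (.l (.s k3 k2 0 (.s k21 k213 7 (.s k63 k42 6 (.s k23 k43 5 (.s k86 k212 8 (.d
  k169 k253 k252 13 14))))))) .n))

def s170_191_34 : T TT 256 :=
  (.q k102 [(.s k68 k119 4 (.s k196 k55 12 (.s k4 k132 7 (.s k213 k21 7 (.d k247 k230 k166 4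
  12))))), (.s k21 k213 7 (.s k63 k42 6 (.s k68 k119 4 (.s k106 k192 14 (.s k110 k98 1 (.d k204 k136
  k157 9 12)))))), (.s k68 k119 4 (.s k196 k55 12 (.s k204 k136 9 (.s k192 k200 1 (.s k64 k128 7 (.d
  k106 k127 k63 6 14)))))), (.s k21 k213 7 (.s k55 k196 12 (.s k63 k42 6 (.s k51 k59 1 (.s k106 k192
  14 (.s k110 k98 1 (.d k204 k157 k153 12 14)))))))] .n)

def s170_191_35 : T TT 256 :=
  (.q k1 [(.s k21 k213 7 (.s k61 k41 5 (.s k105 k193 13 (.s k125 k65 5 (.d k253 k189 k169 7 13))))),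
  (.s k3 k2 0 (.s k21 k213 7 (.s k41 k61 5 (.s k22 k60 6 (.s k23 k20 0 (.d k63 k43 k42 5 6)))))),
  (.s k3 k2 0 (.s k169 k253 13 (.s k129 k189 5 (.s k192 k66 8 (.s k64 k128 7 (.d k106 k127 k63 6
  14))))))] (.c k61 (.l (.s k3 k2 0 (.s k21 k213 7 (.s k63 k42 6 (.s k23 k43 5 (.s k86 k212 8 (.d
  k169 k253 k252 13 14))))))) .n))

def s170_191_36 : T TT 256 :=
  (.q k1 [(.s k21 k213 7 (.s k61 k41 5 (.s k105 k193 13 (.s k125 k65 5 (.d k253 k189 k169 7 13))))),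
  (.s k3 k2 0 (.s k21 k213 7 (.s k41 k61 5 (.s k22 k60 6 (.s k23 k20 0 (.d k63 k43 k42 5 6)))))),
  (.s k3 k2 0 (.s k169 k253 13 (.s k129 k189 5 (.s k192 k66 8 (.s k64 k128 7 (.d k106 k127 k63 6
  14))))))] (.c k61 (.l (.s k3 k2 0 (.s k21 k213 7 (.s k63 k42 6 (.s k23 k43 5 (.s k86 k212 8 (.d
  k169 k253 k252 13 14))))))) .n))

def s170_191_37 : T TT 256 :=
  (.q k1 [(.s k21 k213 7 (.s k61 k41 5 (.s k105 k193 13 (.s k125 k65 5 (.d k253 k189 k169 7 13))))),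
  (.s k3 k2 0 (.s k21 k213 7 (.s k41 k61 5 (.s k22 k60 6 (.s k23 k20 0 (.d k63 k43 k42 5 6)))))),
  (.s k3 k2 0 (.s k169 k253 13 (.s k129 k189 5 (.s k192 k66 8 (.s k64 k128 7 (.d k106 k127 k63 6
  14))))))] (.c k61 (.l (.s k3 k2 0 (.s k21 k213 7 (.s k63 k42 6 (.s k23 k43 5 (.s k86 k212 8 (.d
  k169 k253 k252 13 14))))))) .n))

def s170_191_38 : T TT 256 :=
  (.q k1 [(.s k21 k213 7 (.s k61 k41 5 (.s k105 k193 13 (.s k125 k65 5 (.d k253 k189 k169 7 13))))),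
  (.s k3 k2 0 (.s k21 k213 7 (.s k41 k61 5 (.s k22 k60 6 (.s k23 k20 0 (.d k63 k43 k42 5 6)))))),
  (.s k3 k2 0 (.s k169 k253 13 (.s k129 k189 5 (.s k192 k66 8 (.s k64 k128 7 (.d k106 k127 k63 6
  14))))))] (.c k61 (.l (.s k3 k2 0 (.s k21 k213 7 (.s k63 k42 6 (.s k23 k43 5 (.s k86 k212 8 (.d
  k169 k253 k252 13 14))))))) .n))

def s170_191_39 : T TT 256 :=
  (.q k1 [(.s k21 k213 7 (.s k61 k41 5 (.s k105 k193 13 (.s k125 k65 5 (.d k253 k189 k169 7 13))))),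
  (.s k3 k2 0 (.s k21 k213 7 (.s k41 k61 5 (.s k22 k60 6 (.s k23 k20 0 (.d k63 k43 k42 5 6)))))),
  (.s k3 k2 0 (.s k169 k253 13 (.s k129 k189 5 (.s k192 k66 8 (.s k64 k128 7 (.d k106 k127 k63 6
  14))))))] (.c k61 (.l (.s k3 k2 0 (.s k21 k213 7 (.s k63 k42 6 (.s k23 k43 5 (.s k86 k212 8 (.d
  k169 k253 k252 13 14))))))) .n))

def s170_191_40 : T TT 256 :=
  (.q k105 [(.s k65 k125 5 (.s k193 k61 13 (.s k1 k129 7 (.s k213 k21 7 (.d k253 k233 k169 5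
  13))))), (.s k21 k213 7 (.s k63 k42 6 (.s k65 k125 5 (.s k106 k192 14 (.s k107 k104 0 (.d k195
  k130 k151 8 13)))))), (.s k65 k125 5 (.s k193 k61 13 (.s k195 k130 8 (.s k192 k194 0 (.s k64 k128
  7 (.d k106 k127 k63 6 14)))))), (.s k21 k213 7 (.s k61 k193 13 (.s k63 k42 6 (.s k60 k62 0 (.s
  k106 k192 14 (.s k107 k104 0 (.d k195 k151 k150 13 14)))))))] .n)

def s170_191_41 : T TT 256 :=
  (.q k4 [(.s k21 k213 7 (.s k55 k38 4 (.s k102 k196 12 (.s k119 k68 4 (.d k247 k183 k166 7 12))))),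
  (.s k12 k8 1 (.s k21 k213 7 (.s k38 k55 4 (.s k25 k51 6 (.s k29 k17 1 (.d k63 k46 k42 4 6)))))),
  (.s k12 k8 1 (.s k166 k247 12 (.s k132 k183 4 (.s k192 k72 9 (.s k64 k128 7 (.d k106 k127 k63 6
  14))))))] (.c k55 (.l (.s k12 k8 1 (.s k21 k213 7 (.s k63 k42 6 (.s k29 k46 4 (.s k89 k209 9 (.d
  k166 k247 k243 12 14))))))) .n))

def s170_191_42 : T TT 256 :=
  (.f k21 k213 7 (.q k1 [(.s k61 k41 5 (.s k105 k193 13 (.s k125 k65 5 (.d k253 k189 k169 7 13)))),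
  (.s k3 k2 0 (.s k41 k61 5 (.s k22 k60 6 (.s k23 k20 0 (.s k86 k212 8 (.s k84 k87 0 (.d k252 k168
  k169 13 14))))))), (.s k3 k2 0 (.s k169 k253 13 (.s k86 k252 14 (.s k23 k212 8 (.s k87 k84 0 (.s
  k215 k151 7 (.d k20 k22 k150 0 8)))))))] (.c k106 (.q k234 [(.s k61 k41 5 (.s k105 k193 13 (.s
  k125 k65 5 (.d k253 k189 k169 7 13)))), (.s k3 k2 0 (.s k41 k61 5 (.s k22 k60 6 (.s k23 k20 0 (.s
  k86 k212 8 (.s k84 k87 0 (.d k252 k168 k169 13 14))))))), (.s k3 k2 0 (.s k169 k253 13 (.s k86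
  k252 14 (.s k23 k212 8 (.s k87 k84 0 (.s k215 k151 7 (.d k20 k22 k150 0 8)))))))] (.c k169 (.f k61
  k41 5 (.f k105 k193 13 (.l (.s k65 k125 5 (.s k195 k130 8 (.s k150 k60 14 (.s k20 k215 8 (.s k148
  k151 0 (.s k212 k84 7 (.d k23 k22 k86 0 8)))))))))) .n)) (.c k169 (.f k3 k2 0 (.f k61 k41 5 (.f
  k105 k193 13 (.l (.s k65 k125 5 (.s k195 k130 8 (.s k67 k131 7 (.s k86 k124 6 (.s k23 k212 8 (.s
  k22 k20 0 (.d k150 k214 k60 7 14))))))))))) (.c k234 (.q k106 [(.s k64 k127 6 (.d k192 k63 k128 14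
  7)), (.s k61 k41 5 (.s k105 k193 13 (.s k125 k65 5 (.d k253 k189 k169 7 13))))] (.c k192 (.q k255
  [(.s k61 k41 5 (.s k105 k193 13 (.s k125 k65 5 (.d k253 k189 k169 7 13)))), (.s k3 k2 0 (.s k87
  k171 13 (.s k86 k84 0 (.d k169 k253 k252 13 14)))), (.s k3 k2 0 (.s k41 k61 5 (.s k22 k60 6 (.s
  k23 k20 0 (.s k86 k212 8 (.d k87 k84 k171 0 13))))))] .n) (.c k255 (.l (.s k192 k63 14 (.s k127
  k64 6 (.s k3 k2 0 (.s k129 k66 8 (.d k169 k189 k253 5 13)))))) .n))) .n)))))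

def s170_191_43 : T TT 256 :=
  (.q k4 [(.s k21 k213 7 (.s k55 k38 4 (.s k102 k196 12 (.s k119 k68 4 (.d k247 k183 k166 7 12))))),
  (.s k12 k8 1 (.s k21 k213 7 (.s k38 k55 4 (.s k25 k51 6 (.s k29 k17 1 (.d k63 k46 k42 4 6)))))),
  (.s k12 k8 1 (.s k166 k247 12 (.s k132 k183 4 (.s k192 k72 9 (.s k64 k128 7 (.d k106 k127 k63 6
  14))))))] (.c k55 (.l (.s k12 k8 1 (.s k21 k213 7 (.s k63 k42 6 (.s k29 k46 4 (.s k89 k209 9 (.d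
  k166 k247 k243 12 14))))))) .n))

def s170_191_44 : T TT 256 :=
  (.q k1 [(.s k21 k213 7 (.s k61 k41 5 (.s k105 k193 13 (.s k125 k65 5 (.d k253 k189 k169 7 13))))),
  (.s k3 k2 0 (.s k21 k213 7 (.s k41 k61 5 (.s k22 k60 6 (.s k23 k20 0 (.d k63 k43 k42 5 6)))))),
  (.s k3 k2 0 (.s k169 k253 13 (.s k129 k189 5 (.s k192 k66 8 (.s k64 k128 7 (.d k106 k127 k63 6
  14))))))] (.c k61 (.l (.s k3 k2 0 (.s k21 k213 7 (.s k63 k42 6 (.s k23 k43 5 (.s k86 k212 8 (.d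
  k169 k253 k252 13 14))))))) .n))

def s170_191_45 : T TT 256 :=
  (.q k1 [(.s k21 k213 7 (.s k61 k41 5 (.s k105 k193 13 (.s k125 k65 5 (.d k253 k189 k169 7 13))))),
  (.s k3 k2 0 (.s k21 k213 7 (.s k41 k61 5 (.s k22 k60 6 (.s k23 k20 0 (.d k63 k43 k42 5 6)))))),
  (.s k3 k2 0 (.s k169 k253 13 (.s k129 k189 5 (.s k192 k66 8 (.s k64 k128 7 (.d k106 k127 k63 6
  14))))))] (.c k61 (.l (.s k3 k2 0 (.s k21 k213 7 (.s k63 k42 6 (.s k23 k43 5 (.s k86 k212 8 (.d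
  k169 k253 k252 13 14))))))) .n))

def s170_191_46 : T TT 256 :=
  (.q k1 [(.s k21 k213 7 (.s k61 k41 5 (.s k105 k193 13 (.s k125 k65 5 (.d k253 k189 k169 7 13))))),
  (.s k3 k2 0 (.s k21 k213 7 (.s k41 k61 5 (.s k22 k60 6 (.s k23 k20 0 (.d k63 k43 k42 5 6)))))),
  (.s k3 k2 0 (.s k169 k253 13 (.s k129 k189 5 (.s k192 k66 8 (.s k64 k128 7 (.d k106 k127 k63 6
  14))))))] (.c k61 (.l (.s k3 k2 0 (.s k21 k213 7 (.s k63 k42 6 (.s k23 k43 5 (.s k86 k212 8 (.d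
  k169 k253 k252 13 14))))))) .n))

def s170_191_47 : T TT 256 :=
  (.q k1 [(.s k21 k213 7 (.s k61 k41 5 (.s k105 k193 13 (.s k125 k65 5 (.d k253 k189 k169 7 13))))),
  (.s k3 k2 0 (.s k21 k213 7 (.s k41 k61 5 (.s k22 k60 6 (.s k23 k20 0 (.d k63 k43 k42 5 6)))))),
  (.s k3 k2 0 (.s k169 k253 13 (.s k129 k189 5 (.s k192 k66 8 (.s k64 k128 7 (.d k106 k127 k63 6
  14))))))] (.c k61 (.l (.s k3 k2 0 (.s k21 k213 7 (.s k63 k42 6 (.s k23 k43 5 (.s k86 k212 8 (.d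
  k169 k253 k252 13 14))))))) .n))

def s170_191_48 : T TT 256 :=
  (.q k1 [(.s k21 k213 7 (.s k61 k41 5 (.s k105 k193 13 (.s k125 k65 5 (.d k253 k189 k169 7 13))))),
  (.s k3 k2 0 (.s k21 k213 7 (.s k41 k61 5 (.s k22 k60 6 (.s k23 k20 0 (.d k63 k43 k42 5 6)))))),
  (.s k3 k2 0 (.s k169 k253 13 (.s k129 k189 5 (.s k192 k66 8 (.s k64 k128 7 (.d k106 k127 k63 6
  14))))))] (.c k61 (.l (.s k3 k2 0 (.s k21 k213 7 (.s k63 k42 6 (.s k23 k43 5 (.s k86 k212 8 (.d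
  k169 k253 k252 13 14))))))) .n))

def s170_191_49 : T TT 256 :=
  (.q k1 [(.s k21 k213 7 (.s k61 k41 5 (.s k105 k193 13 (.s k125 k65 5 (.d k253 k189 k169 7 13))))),
  (.s k3 k2 0 (.s k21 k213 7 (.s k41 k61 5 (.s k22 k60 6 (.s k23 k20 0 (.d k63 k43 k42 5 6)))))),
  (.s k3 k2 0 (.s k169 k253 13 (.s k129 k189 5 (.s k192 k66 8 (.s k64 k128 7 (.d k106 k127 k63 6
  14))))))] (.c k61 (.l (.s k3 k2 0 (.s k21 k213 7 (.s k63 k42 6 (.s k23 k43 5 (.s k86 k212 8 (.d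
  k169 k253 k252 13 14))))))) .n))

def s170_191_50 : T TT 256 :=
  (.q k1 [(.s k21 k213 7 (.s k61 k41 5 (.s k105 k193 13 (.s k125 k65 5 (.d k253 k189 k169 7 13))))),
  (.s k3 k2 0 (.s k21 k213 7 (.s k41 k61 5 (.s k22 k60 6 (.s k23 k20 0 (.d k63 k43 k42 5 6)))))),
  (.s k3 k2 0 (.s k169 k253 13 (.s k129 k189 5 (.s k192 k66 8 (.s k64 k128 7 (.d k106 k127 k63 6
  14))))))] (.c k61 (.l (.s k3 k2 0 (.s k21 k213 7 (.s k63 k42 6 (.s k23 k43 5 (.s k86 k212 8 (.d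
  k169 k253 k252 13 14))))))) .n))

def s170_191_51 : T TT 256 :=
  (.q k1 [(.s k21 k213 7 (.s k61 k41 5 (.s k105 k193 13 (.s k125 k65 5 (.d k253 k189 k169 7 13))))),
  (.s k3 k2 0 (.s k21 k213 7 (.s k41 k61 5 (.s k22 k60 6 (.s k23 k20 0 (.d k63 k43 k42 5 6)))))),
  (.s k3 k2 0 (.s k169 k253 13 (.s k129 k189 5 (.s k192 k66 8 (.s k64 k128 7 (.d k106 k127 k63 6
  14))))))] (.c k61 (.l (.s k3 k2 0 (.s k21 k213 7 (.s k63 k42 6 (.s k23 k43 5 (.s k86 k212 8 (.d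
  k169 k253 k252 13 14))))))) .n))

def s170_191_52 : T TT 256 :=
  (.q k1 [(.s k21 k213 7 (.s k61 k41 5 (.s k105 k193 13 (.s k125 k65 5 (.d k253 k189 k169 7 13))))),
  (.s k3 k2 0 (.s k21 k213 7 (.s k41 k61 5 (.s k22 k60 6 (.s k23 k20 0 (.d k63 k43 k42 5 6)))))),
  (.s k3 k2 0 (.s k169 k253 13 (.s k129 k189 5 (.s k192 k66 8 (.s k64 k128 7 (.d k106 k127 k63 6
  14))))))] (.c k61 (.l (.s k3 k2 0 (.s k21 k213 7 (.s k63 k42 6 (.s k23 k43 5 (.s k86 k212 8 (.d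
  k169 k253 k252 13 14))))))) .n))

def s170_191_53 : T TT 256 :=
  (.q k1 [(.s k21 k213 7 (.s k61 k41 5 (.s k105 k193 13 (.s k125 k65 5 (.d k253 k189 k169 7 13))))),
  (.s k3 k2 0 (.s k21 k213 7 (.s k41 k61 5 (.s k22 k60 6 (.s k23 k20 0 (.d k63 k43 k42 5 6)))))),
  (.s k3 k2 0 (.s k169 k253 13 (.s k129 k189 5 (.s k192 k66 8 (.s k64 k128 7 (.d k106 k127 k63 6
  14))))))] (.c k61 (.l (.s k3 k2 0 (.s k21 k213 7 (.s k63 k42 6 (.s k23 k43 5 (.s k86 k212 8 (.d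
  k169 k253 k252 13 14))))))) .n))

def s170_191_54 : T TT 256 :=
  (.q k1 [(.s k21 k213 7 (.s k61 k41 5 (.s k105 k193 13 (.s k125 k65 5 (.d k253 k189 k169 7 13))))),
  (.s k3 k2 0 (.s k21 k213 7 (.s k41 k61 5 (.s k22 k60 6 (.s k23 k20 0 (.d k63 k43 k42 5 6)))))),
  (.s k3 k2 0 (.s k169 k253 13 (.s k129 k189 5 (.s k192 k66 8 (.s k64 k128 7 (.d k106 k127 k63 6
  14))))))] (.c k61 (.l (.s k3 k2 0 (.s k21 k213 7 (.s k63 k42 6 (.s k23 k43 5 (.s k86 k212 8 (.d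
  k169 k253 k252 13 14))))))) .n))

def s170_191_55 : T TT 256 :=
  (.q k1 [(.s k21 k213 7 (.s k61 k41 5 (.s k105 k193 13 (.s k125 k65 5 (.d k253 k189 k169 7 13))))),
  (.s k3 k2 0 (.s k21 k213 7 (.s k41 k61 5 (.s k22 k60 6 (.s k23 k20 0 (.d k63 k43 k42 5 6)))))),
  (.s k3 k2 0 (.s k169 k253 13 (.s k129 k189 5 (.s k192 k66 8 (.s k64 k128 7 (.d k106 k127 k63 6
  14))))))] (.c k61 (.l (.s k3 k2 0 (.s k21 k213 7 (.s k63 k42 6 (.s k23 k43 5 (.s k86 k212 8 (.d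
  k169 k253 k252 13 14))))))) .n))

def s170_191_56 : T TT 256 :=
  (.q k1 [(.s k21 k213 7 (.s k61 k41 5 (.s k105 k193 13 (.s k125 k65 5 (.d k253 k189 k169 7 13))))),
  (.s k3 k2 0 (.s k21 k213 7 (.s k41 k61 5 (.s k22 k60 6 (.s k23 k20 0 (.d k63 k43 k42 5 6)))))),
  (.s k3 k2 0 (.s k169 k253 13 (.s k129 k189 5 (.s k192 k66 8 (.s k64 k128 7 (.d k106 k127 k63 6
  14))))))] (.c k61 (.l (.s k3 k2 0 (.s k21 k213 7 (.s k63 k42 6 (.s k23 k43 5 (.s k86 k212 8 (.d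
  k169 k253 k252 13 14))))))) .n))

def s170_191_57 : T TT 256 :=
  (.q k1 [(.s k21 k213 7 (.s k61 k41 5 (.s k105 k193 13 (.s k125 k65 5 (.d k253 k189 k169 7 13))))),
  (.s k3 k2 0 (.s k21 k213 7 (.s k41 k61 5 (.s k22 k60 6 (.s k23 k20 0 (.d k63 k43 k42 5 6)))))),
  (.s k3 k2 0 (.s k169 k253 13 (.s k129 k189 5 (.s k192 k66 8 (.s k64 k128 7 (.d k106 k127 k63 6
  14))))))] (.c k61 (.l (.s k3 k2 0 (.s k21 k213 7 (.s k63 k42 6 (.s k23 k43 5 (.s k86 k212 8 (.d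
  k169 k253 k252 13 14))))))) .n))

def s170_191_58 : T TT 256 :=
  (.q k1 [(.s k21 k213 7 (.s k61 k41 5 (.s k105 k193 13 (.s k125 k65 5 (.d k253 k189 k169 7 13))))),
  (.s k3 k2 0 (.s k21 k213 7 (.s k41 k61 5 (.s k22 k60 6 (.s k23 k20 0 (.d k63 k43 k42 5 6)))))),
  (.s k3 k2 0 (.s k169 k253 13 (.s k129 k189 5 (.s k192 k66 8 (.s k64 k128 7 (.d k106 k127 k63 6
  14))))))] (.c k61 (.l (.s k3 k2 0 (.s k21 k213 7 (.s k63 k42 6 (.s k23 k43 5 (.s k86 k212 8 (.d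
  k169 k253 k252 13 14))))))) .n))

def s170_191_59 : T TT 256 :=
  (.q k1 [(.s k21 k213 7 (.s k61 k41 5 (.s k105 k193 13 (.s k125 k65 5 (.d k253 k189 k169 7 13))))),
  (.s k3 k2 0 (.s k21 k213 7 (.s k41 k61 5 (.s k22 k60 6 (.s k23 k20 0 (.d k63 k43 k42 5 6)))))),
  (.s k3 k2 0 (.s k169 k253 13 (.s k129 k189 5 (.s k192 k66 8 (.s k64 k128 7 (.d k106 k127 k63 6
  14))))))] (.c k61 (.l (.s k3 k2 0 (.s k21 k213 7 (.s k63 k42 6 (.s k23 k43 5 (.s k86 k212 8 (.d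
  k169 k253 k252 13 14))))))) .n))

def s170_191_60 : T TT 256 :=
  (.q k3 [(.s k1 k2 0 (.s k21 k213 7 (.s k61 k41 5 (.s k105 k193 13 (.s k125 k65 5 (.d k253 k189
  k169 7 13)))))), (.s k21 k213 7 (.s k63 k42 6 (.s k23 k43 5 (.s k86 k212 8 (.s k84 k87 0 (.d k252
  k168 k169 13 14)))))), (.s k1 k2 0 (.s k169 k253 13 (.s k129 k189 5 (.s k192 k66 8 (.s k64 k128 7
  (.d k106 k127 k63 6 14))))))] (.c k86 (.l (.s k21 k213 7 (.s k63 k42 6 (.s k43 k23 5 (.s k106 k192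
  14 (.s k169 k232 8 (.d k1 k2 k253 0 13))))))) (.c k169 (.l (.s k21 k213 7 (.s k63 k42 6 (.s k23
  k43 5 (.s k20 k22 0 (.s k86 k212 8 (.s k87 k84 0 (.d k215 k151 k150 7 8)))))))) .n)))

def s170_191_61 : T TT 256 :=
  (.q k4 [(.s k21 k213 7 (.s k55 k38 4 (.s k102 k196 12 (.s k119 k68 4 (.d k247 k183 k166 7 12))))),
  (.s k12 k8 1 (.s k21 k213 7 (.s k38 k55 4 (.s k25 k51 6 (.s k29 k17 1 (.d k63 k46 k42 4 6)))))),
  (.s k12 k8 1 (.s k166 k247 12 (.s k132 k183 4 (.s k192 k72 9 (.s k64 k128 7 (.d k106 k127 k63 6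
  14))))))] (.c k55 (.l (.s k12 k8 1 (.s k21 k213 7 (.s k63 k42 6 (.s k29 k46 4 (.s k89 k209 9 (.d
  k166 k247 k243 12 14))))))) .n))

def s170_191_62 : T TT 256 :=
  (.q k1 [(.s k21 k213 7 (.s k61 k41 5 (.s k105 k193 13 (.s k125 k65 5 (.d k253 k189 k169 7 13))))),
  (.s k3 k2 0 (.s k21 k213 7 (.s k41 k61 5 (.s k22 k60 6 (.s k63 k42 6 (.d k23 k20 k43 0 5)))))),
  (.s k3 k2 0 (.s k169 k253 13 (.s k129 k189 5 (.s k192 k66 8 (.s k64 k128 7 (.d k106 k127 k63 6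
  14))))))] (.c k61 (.l (.s k3 k2 0 (.s k21 k213 7 (.s k169 k253 13 (.s k86 k252 14 (.s k23 k212 8
  (.d k63 k42 k43 6 5))))))) .n))

def s170_191_63 : T TT 256 :=
  (.f k21 k213 7 (.q k1 [(.s k61 k41 5 (.s k105 k193 13 (.s k125 k65 5 (.d k253 k189 k169 7 13)))),
  (.s k3 k2 0 (.s k169 k253 13 (.s k86 k252 14 (.s k23 k212 8 (.s k20 k22 0 (.s k87 k84 0 (.d k215
  k151 k150 7 8))))))), (.s k3 k2 0 (.s k41 k61 5 (.s k60 k22 6 (.s k20 k40 5 (.s k150 k215 8 (.s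
  k105 k195 14 (.d k169 k233 k253 7 13)))))))] (.c k127 (.q k255 [(.s k61 k41 5 (.s k105 k193 13 (.s
  k125 k65 5 (.d k253 k189 k169 7 13)))), (.s k3 k2 0 (.s k87 k171 13 (.s k86 k84 0 (.d k169 k253
  k252 13 14))))] (.c k169 (.l (.s k61 k41 5 (.s k105 k193 13 (.s k65 k125 5 (.s k195 k130 8 (.s
  k150 k60 14 (.d k215 k235 k20 5 8))))))) (.c k253 (.l (.s k3 k2 0 (.s k41 k61 5 (.s k87 k171 13
  (.s k86 k84 0 (.s k23 k212 8 (.d k22 k20 k60 0 6))))))) .n))) (.c k169 (.f k3 k2 0 (.f k41 k61 5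
  (.f k60 k22 6 (.l (.s k20 k40 5 (.s k150 k215 8 (.s k105 k195 14 (.s k65 k125 5 (.s k129 k193 7
  (.s k192 k66 8 (.d k148 k151 k104 0 13))))))))))) (.c k233 (.l (.s k61 k41 5 (.s k105 k193 13 (.s
  k253 k169 13 (.d k125 k65 k189 5 7))))) (.c k253 (.f k3 k2 0 (.f k41 k61 5 (.f k60 k22 6 (.l (.s
  k20 k40 5 (.s k150 k215 8 (.s k148 k151 0 (.s k192 k104 13 (.s k128 k64 7 (.s k168 k188 5 (.d k84
  k212 k252 7 13))))))))))) (.c k255 (.q k127 [(.s k61 k41 5 (.s k105 k193 13 (.s k125 k65 5 (.d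
  k253 k189 k169 7 13)))), (.s k3 k2 0 (.s k64 k106 6 (.s k192 k128 7 (.s k129 k66 8 (.d k169 k189
  k253 5 13))))), (.s k3 k2 0 (.s k61 k41 5 (.s k64 k106 6 (.s k192 k128 7 (.s k129 k66 8 (.d k193
  k65 k105 7 13))))))] (.c k192 (.q k234 [(.s k61 k41 5 (.s k105 k193 13 (.s k125 k65 5 (.d k253
  k189 k169 7 13)))), (.s k3 k2 0 (.s k41 k61 5 (.s k60 k22 6 (.s k40 k20 5 (.s k106 k64 6 (.s k169
  k253 13 (.d k43 k42 k232 0 8))))))), (.s k2 k3 0 (.s k61 k41 5 (.s k64 k106 6 (.s k193 k105 13 (.s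
  k65 k129 7 (.s k66 k67 0 (.d k130 k195 k194 8 7)))))))] (.c k41 (.q k4 [(.s k55 k38 4 (.s k102
  k196 12 (.s k119 k68 4 (.d k247 k183 k166 7 12)))), (.s k3 k2 0 (.s k12 k8 1 (.s k9 k6 2 (.s k169
  k253 13 (.s k89 k249 11 (.s k81 k93 1 (.d k243 k162 k166 12 14)))))))] (.c k166 (.l (.s k8 k12 1
  (.s k55 k38 4 (.s k64 k106 6 (.s k102 k196 12 (.s k68 k119 4 (.s k72 k76 1 (.d k136 k200 k204 7
  9)))))))) .n)) (.c k61 (.q k60 [(.s k3 k2 0 (.s k22 k41 6 (.d k20 k23 k40 0 5))), (.s k20 k40 5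
  (.s k23 k22 0 (.s k86 k212 8 (.s k87 k84 0 (.d k215 k151 k150 7 8))))), (.s k3 k2 0 (.s k41 k22 6
  (.s k106 k64 6 (.s k169 k253 13 (.s k232 k43 8 (.d k233 k235 k105 0 7))))))] (.c k22 (.l (.s k3 k2
  0 (.s k20 k40 5 (.s k150 k215 8 (.s k169 k253 13 (.s k131 k188 6 (.d k195 k105 k67 14 7))))))) (.c
  k86 (.l (.s k20 k40 5 (.s k22 k23 0 (.d k3 k2 k41 0 6)))) .n))) (.c k169 (.l (.s k2 k3 0 (.s k61
  k41 5 (.s k64 k106 6 (.s k105 k193 13 (.s k65 k125 5 (.s k66 k67 0 (.d k130 k194 k195 7 8))))))))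
  (.c k193 (.l (.s k41 k61 5 (.s k106 k64 6 (.s k169 k253 13 (.s k233 k105 7 (.d k232 k235 k43 0
  8)))))) (.c k233 (.l (.s k61 k41 5 (.s k105 k193 13 (.s k253 k169 13 (.d k125 k65 k189 5 7)))))
  .n)))))) (.c k234 (.q k192 [(.d k64 k106 k128 6 7), (.s k3 k2 0 (.s k129 k66 8 (.d k169 k189 k253
  5 13)))] (.c k42 (.l (.s k106 k64 6 (.s k3 k2 0 (.s k129 k66 8 (.d k169 k189 k253 5 13))))) (.c
  k106 (.q k42 [(.s k61 k41 5 (.s k105 k193 13 (.s k125 k65 5 (.d k253 k189 k169 7 13)))), (.s k3 k2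
  0 (.s k41 k61 5 (.s k60 k22 6 (.d k40 k43 k20 0 5)))), (.s k3 k2 0 (.s k129 k66 8 (.d k169 k189
  k253 5 13)))] .n) .n))) .n))) .n)))))))

def s170_191_64 : T TT 256 :=
  (.q k1 [(.s k21 k213 7 (.s k61 k41 5 (.s k105 k193 13 (.s k125 k65 5 (.d k253 k189 k169 7 13))))),
  (.s k3 k2 0 (.s k21 k213 7 (.s k41 k61 5 (.s k22 k60 6 (.s k23 k20 0 (.d k63 k43 k42 5 6)))))),
  (.s k3 k2 0 (.s k169 k253 13 (.s k86 k252 14 (.s k23 k212 8 (.s k63 k43 5 (.s k129 k189 5 (.d k192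
  k66 k106 8 14)))))))] (.c k61 (.l (.s k3 k2 0 (.s k21 k213 7 (.s k63 k42 6 (.s k23 k43 5 (.s k86
  k212 8 (.d k169 k253 k252 13 14))))))) .n))

def s170_191_65 : T TT 256 :=
  (.q k1 [(.s k3 k2 0 (.s k21 k213 7 (.s k41 k61 5 (.s k22 k60 6 (.s k23 k20 0 (.d k63 k43 k42 5
  6)))))), (.s k21 k213 7 (.s k63 k42 6 (.s k169 k253 13 (.s k189 k129 5 (.s k252 k126 8 (.s k84
  k168 13 (.d k86 k87 k3 0 14))))))), (.s k3 k2 0 (.s k169 k253 13 (.s k129 k189 5 (.s k192 k66 8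
  (.s k64 k128 7 (.d k106 k127 k63 6 14)))))), (.s k21 k213 7 (.s k61 k41 5 (.s k63 k42 6 (.s k60
  k62 0 (.s k105 k193 13 (.s k150 k195 14 (.d k20 k40 k215 5 8)))))))] (.c k63 (.l (.s k3 k2 0 (.s
  k21 k213 7 (.s k41 k61 5 (.s k169 k253 13 (.s k86 k252 14 (.s k23 k212 8 (.d k22 k60 k20 6
  0)))))))) .n))

def s170_191_66 : T TT 256 :=
  (.q k4 [(.s k21 k213 7 (.s k55 k38 4 (.s k102 k196 12 (.s k119 k68 4 (.d k247 k183 k166 7 12))))),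
  (.s k12 k8 1 (.s k21 k213 7 (.s k38 k55 4 (.s k25 k51 6 (.s k29 k17 1 (.d k63 k46 k42 4 6)))))),
  (.s k12 k8 1 (.s k166 k247 12 (.s k132 k183 4 (.s k192 k72 9 (.s k64 k128 7 (.d k106 k127 k63 6
  14))))))] (.c k55 (.l (.s k12 k8 1 (.s k21 k213 7 (.s k63 k42 6 (.s k29 k46 4 (.s k89 k209 9 (.d
  k166 k247 k243 12 14))))))) .n))

def s170_191_67 : T TT 256 :=
  (.q k1 [(.s k21 k213 7 (.s k61 k41 5 (.s k105 k193 13 (.s k125 k65 5 (.d k253 k189 k169 7 13))))),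
  (.s k3 k2 0 (.s k21 k213 7 (.s k41 k61 5 (.s k22 k60 6 (.s k23 k20 0 (.d k63 k43 k42 5 6)))))),
  (.s k3 k2 0 (.s k169 k253 13 (.s k129 k189 5 (.s k192 k66 8 (.s k64 k128 7 (.d k106 k127 k63 6
  14))))))] (.c k61 (.l (.s k3 k2 0 (.s k21 k213 7 (.s k63 k42 6 (.s k23 k43 5 (.s k86 k212 8 (.d
  k169 k253 k252 13 14))))))) .n))

def s170_191_68 : T TT 256 :=
  (.q k1 [(.s k21 k213 7 (.s k61 k41 5 (.s k105 k193 13 (.s k125 k65 5 (.d k253 k189 k169 7 13))))),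
  (.s k3 k2 0 (.s k21 k213 7 (.s k41 k61 5 (.s k22 k60 6 (.s k23 k20 0 (.d k63 k43 k42 5 6)))))),
  (.s k3 k2 0 (.s k169 k253 13 (.s k129 k189 5 (.s k192 k66 8 (.s k64 k128 7 (.d k106 k127 k63 6
  14))))))] (.c k61 (.l (.s k3 k2 0 (.s k21 k213 7 (.s k63 k42 6 (.s k23 k43 5 (.s k86 k212 8 (.d
  k169 k253 k252 13 14))))))) .n))

def s170_191_69 : T TT 256 :=
  (.q k1 [(.s k21 k213 7 (.s k61 k41 5 (.s k105 k193 13 (.s k125 k65 5 (.d k253 k189 k169 7 13))))),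
  (.s k3 k2 0 (.s k21 k213 7 (.s k41 k61 5 (.s k22 k60 6 (.s k23 k20 0 (.d k63 k43 k42 5 6)))))),
  (.s k3 k2 0 (.s k169 k253 13 (.s k129 k189 5 (.s k192 k66 8 (.s k64 k128 7 (.d k106 k127 k63 6
  14))))))] (.c k61 (.l (.s k3 k2 0 (.s k21 k213 7 (.s k63 k42 6 (.s k23 k43 5 (.s k86 k212 8 (.d
  k169 k253 k252 13 14))))))) .n))

def s170_191_70 : T TT 256 :=
  (.q k1 [(.s k21 k213 7 (.s k61 k41 5 (.s k105 k193 13 (.s k125 k65 5 (.d k253 k189 k169 7 13))))),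
  (.s k3 k2 0 (.s k21 k213 7 (.s k41 k61 5 (.s k22 k60 6 (.s k23 k20 0 (.d k63 k43 k42 5 6)))))),
  (.s k3 k2 0 (.s k169 k253 13 (.s k129 k189 5 (.s k192 k66 8 (.s k64 k128 7 (.d k106 k127 k63 6
  14))))))] (.c k61 (.l (.s k3 k2 0 (.s k21 k213 7 (.s k63 k42 6 (.s k23 k43 5 (.s k86 k212 8 (.d
  k169 k253 k252 13 14))))))) .n))

def s170_191_71 : T TT 256 :=
  (.q k1 [(.s k21 k213 7 (.s k61 k41 5 (.s k105 k193 13 (.s k125 k65 5 (.d k253 k189 k169 7 13))))),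
  (.s k3 k2 0 (.s k21 k213 7 (.s k41 k61 5 (.s k22 k60 6 (.s k23 k20 0 (.d k63 k43 k42 5 6)))))),
  (.s k3 k2 0 (.s k169 k253 13 (.s k129 k189 5 (.s k192 k66 8 (.s k64 k128 7 (.d k106 k127 k63 6
  14))))))] (.c k61 (.l (.s k3 k2 0 (.s k21 k213 7 (.s k63 k42 6 (.s k23 k43 5 (.s k86 k212 8 (.d
  k169 k253 k252 13 14))))))) .n))

def s170_191_72 : T TT 256 :=
  (.q k1 [(.s k21 k213 7 (.s k61 k41 5 (.s k105 k193 13 (.s k125 k65 5 (.d k253 k189 k169 7 13))))),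
  (.s k3 k2 0 (.s k21 k213 7 (.s k41 k61 5 (.s k22 k60 6 (.s k23 k20 0 (.d k63 k43 k42 5 6)))))),
  (.s k3 k2 0 (.s k169 k253 13 (.s k129 k189 5 (.s k192 k66 8 (.s k64 k128 7 (.d k106 k127 k63 6
  14))))))] (.c k61 (.l (.s k3 k2 0 (.s k21 k213 7 (.s k63 k42 6 (.s k23 k43 5 (.s k86 k212 8 (.d
  k169 k253 k252 13 14))))))) .n))

def s170_191_73 : T TT 256 :=
  (.q k1 [(.s k21 k213 7 (.s k61 k41 5 (.s k169 k253 13 (.s k129 k189 5 (.d k193 k65 k105 7 13))))),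
  (.s k3 k2 0 (.s k21 k213 7 (.s k41 k61 5 (.s k22 k60 6 (.s k23 k20 0 (.d k63 k43 k42 5 6)))))),
  (.s k3 k2 0 (.s k169 k253 13 (.s k129 k189 5 (.s k192 k66 8 (.s k64 k128 7 (.d k106 k127 k63 6
  14))))))] (.c k61 (.l (.s k3 k2 0 (.s k21 k213 7 (.s k63 k42 6 (.s k23 k43 5 (.s k86 k212 8 (.d
  k169 k253 k252 13 14))))))) .n))

def s170_191_74 : T TT 256 :=
  (.q k1 [(.s k21 k213 7 (.s k61 k41 5 (.s k105 k193 13 (.s k125 k65 5 (.d k253 k189 k169 7 13))))),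
  (.s k3 k2 0 (.s k21 k213 7 (.s k41 k61 5 (.s k22 k60 6 (.s k23 k20 0 (.d k63 k43 k42 5 6)))))),
  (.s k3 k2 0 (.s k169 k253 13 (.s k129 k189 5 (.s k192 k66 8 (.s k64 k128 7 (.d k106 k127 k63 6
  14))))))] (.c k61 (.l (.s k3 k2 0 (.s k21 k213 7 (.s k63 k42 6 (.s k23 k43 5 (.s k86 k212 8 (.d
  k169 k253 k252 13 14))))))) .n))

def s170_191_75 : T TT 256 :=
  (.q k1 [(.s k21 k213 7 (.s k61 k41 5 (.s k105 k193 13 (.s k125 k65 5 (.d k253 k189 k169 7 13))))),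
  (.s k3 k2 0 (.s k21 k213 7 (.s k41 k61 5 (.s k22 k60 6 (.s k23 k20 0 (.d k63 k43 k42 5 6)))))),
  (.s k3 k2 0 (.s k169 k253 13 (.s k129 k189 5 (.s k192 k66 8 (.s k64 k128 7 (.d k106 k127 k63 6
  14))))))] (.c k61 (.l (.s k3 k2 0 (.s k21 k213 7 (.s k63 k42 6 (.s k23 k43 5 (.s k86 k212 8 (.d
  k169 k253 k252 13 14))))))) .n))

def s170_191_76 : T TT 256 :=
  (.q k1 [(.s k21 k213 7 (.s k61 k41 5 (.s k105 k193 13 (.s k125 k65 5 (.d k253 k189 k169 7 13))))),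
  (.s k3 k2 0 (.s k21 k213 7 (.s k41 k61 5 (.s k22 k60 6 (.s k23 k20 0 (.d k63 k43 k42 5 6)))))),
  (.s k3 k2 0 (.s k169 k253 13 (.s k129 k189 5 (.s k192 k66 8 (.s k64 k128 7 (.d k106 k127 k63 6
  14))))))] (.c k61 (.l (.s k3 k2 0 (.s k21 k213 7 (.s k63 k42 6 (.s k23 k43 5 (.s k86 k212 8 (.d
  k169 k253 k252 13 14))))))) .n))

def s170_191_77 : T TT 256 :=
  (.q k1 [(.s k21 k213 7 (.s k61 k41 5 (.s k105 k193 13 (.s k125 k65 5 (.d k253 k189 k169 7 13))))),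
  (.s k3 k2 0 (.s k21 k213 7 (.s k41 k61 5 (.s k22 k60 6 (.s k23 k20 0 (.d k63 k43 k42 5 6)))))),
  (.s k3 k2 0 (.s k169 k253 13 (.s k129 k189 5 (.s k192 k66 8 (.s k64 k128 7 (.d k106 k127 k63 6
  14))))))] (.c k61 (.l (.s k3 k2 0 (.s k21 k213 7 (.s k63 k42 6 (.s k23 k43 5 (.s k86 k212 8 (.d
  k169 k253 k252 13 14))))))) .n))

def s170_191_78 : T TT 256 :=
  (.q k1 [(.s k21 k213 7 (.s k61 k41 5 (.s k105 k193 13 (.s k125 k65 5 (.d k253 k189 k169 7 13))))),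
  (.s k3 k2 0 (.s k21 k213 7 (.s k41 k61 5 (.s k22 k60 6 (.s k23 k20 0 (.d k63 k43 k42 5 6)))))),
  (.s k3 k2 0 (.s k169 k253 13 (.s k129 k189 5 (.s k192 k66 8 (.s k64 k128 7 (.d k106 k127 k63 6
  14))))))] (.c k61 (.l (.s k3 k2 0 (.s k21 k213 7 (.s k63 k42 6 (.s k23 k43 5 (.s k86 k212 8 (.d
  k169 k253 k252 13 14))))))) .n))

def s170_191_79 : T TT 256 :=
  (.q k1 [(.s k21 k213 7 (.s k61 k41 5 (.s k105 k193 13 (.s k125 k65 5 (.d k253 k189 k169 7 13))))),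
  (.s k3 k2 0 (.s k21 k213 7 (.s k41 k61 5 (.s k22 k60 6 (.s k23 k20 0 (.d k63 k43 k42 5 6)))))),
  (.s k3 k2 0 (.s k169 k253 13 (.s k129 k189 5 (.s k192 k66 8 (.s k64 k128 7 (.d k106 k127 k63 6
  14))))))] (.c k61 (.l (.s k3 k2 0 (.s k21 k213 7 (.s k63 k42 6 (.s k23 k43 5 (.s k86 k212 8 (.d
  k169 k253 k252 13 14))))))) .n))

def s170_191_80 : T TT 256 :=
  (.q k1 [(.s k21 k213 7 (.s k61 k41 5 (.s k105 k193 13 (.s k125 k65 5 (.d k253 k189 k169 7 13))))),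
  (.s k3 k2 0 (.s k21 k213 7 (.s k41 k61 5 (.s k22 k60 6 (.s k23 k20 0 (.d k63 k43 k42 5 6)))))),
  (.s k3 k2 0 (.s k169 k253 13 (.s k129 k189 5 (.s k192 k66 8 (.s k64 k128 7 (.d k106 k127 k63 6
  14))))))] (.c k61 (.l (.s k3 k2 0 (.s k21 k213 7 (.s k63 k42 6 (.s k23 k43 5 (.s k86 k212 8 (.d
  k169 k253 k252 13 14))))))) .n))

def s170_191_81 : T TT 256 :=
  (.q k1 [(.s k21 k213 7 (.s k61 k41 5 (.s k105 k193 13 (.s k125 k65 5 (.d k253 k189 k169 7 13))))),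
  (.s k3 k2 0 (.s k21 k213 7 (.s k41 k61 5 (.s k22 k60 6 (.s k23 k20 0 (.d k63 k43 k42 5 6)))))),
  (.s k3 k2 0 (.s k169 k253 13 (.s k129 k189 5 (.s k192 k66 8 (.s k64 k128 7 (.d k106 k127 k63 6
  14))))))] (.c k61 (.l (.s k3 k2 0 (.s k21 k213 7 (.s k63 k42 6 (.s k23 k43 5 (.s k86 k212 8 (.d
  k169 k253 k252 13 14))))))) .n))

def s170_191_82 : T TT 256 :=
  (.q k1 [(.s k21 k213 7 (.s k61 k41 5 (.s k105 k193 13 (.s k125 k65 5 (.d k253 k189 k169 7 13))))),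
  (.s k3 k2 0 (.s k21 k213 7 (.s k41 k61 5 (.s k22 k60 6 (.s k23 k20 0 (.d k63 k43 k42 5 6)))))),
  (.s k3 k2 0 (.s k169 k253 13 (.s k129 k189 5 (.s k192 k66 8 (.s k64 k128 7 (.d k106 k127 k63 6
  14))))))] (.c k61 (.l (.s k3 k2 0 (.s k21 k213 7 (.s k63 k42 6 (.s k23 k43 5 (.s k86 k212 8 (.d
  k169 k253 k252 13 14))))))) .n))

def s170_191_83 : T TT 256 :=
  (.q k1 [(.s k21 k213 7 (.s k61 k41 5 (.s k105 k193 13 (.s k125 k65 5 (.d k253 k189 k169 7 13))))),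
  (.s k3 k2 0 (.s k21 k213 7 (.s k41 k61 5 (.s k22 k60 6 (.s k23 k20 0 (.d k63 k43 k42 5 6)))))),
  (.s k3 k2 0 (.s k169 k253 13 (.s k129 k189 5 (.s k192 k66 8 (.s k64 k128 7 (.d k106 k127 k63 6
  14))))))] (.c k61 (.l (.s k3 k2 0 (.s k21 k213 7 (.s k63 k42 6 (.s k23 k43 5 (.s k86 k212 8 (.d
  k169 k253 k252 13 14))))))) .n))

def s170_191_84 : T TT 256 :=
  (.q k1 [(.s k21 k213 7 (.s k61 k41 5 (.s k105 k193 13 (.s k125 k65 5 (.d k253 k189 k169 7 13))))),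
  (.s k3 k2 0 (.s k21 k213 7 (.s k41 k61 5 (.s k22 k60 6 (.s k23 k20 0 (.d k63 k43 k42 5 6)))))),
  (.s k3 k2 0 (.s k169 k253 13 (.s k129 k189 5 (.s k192 k66 8 (.s k64 k128 7 (.d k106 k127 k63 6
  14))))))] (.c k61 (.l (.s k3 k2 0 (.s k21 k213 7 (.s k63 k42 6 (.s k23 k43 5 (.s k86 k212 8 (.d
  k169 k253 k252 13 14))))))) .n))

def s170_191_86 : T TT 256 :=
  (.f k21 k213 7 (.q k1 [(.s k61 k41 5 (.s k105 k193 13 (.s k125 k65 5 (.d k253 k189 k169 7 13)))),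
  (.s k41 k61 5 (.s k42 k63 6 (.s k40 k43 0 (.s k60 k20 5 (.d k3 k2 k22 0 6))))), (.s k63 k42 6 (.s
  k106 k192 14 (.s k169 k253 13 (.s k43 k232 8 (.d k3 k2 k23 0 5)))))] (.c k2 (.q k254 [(.s k61 k41
  5 (.s k105 k193 13 (.s k125 k65 5 (.d k253 k189 k169 7 13)))), (.s k63 k42 6 (.s k253 k169 13 (.s
  k252 k255 0 (.s k189 k126 8 (.d k61 k41 k125 5 7))))), (.s k61 k41 5 (.s k63 k42 6 (.s k193 k105
  13 (.s k65 k129 7 (.s k195 k130 8 (.d k192 k194 k106 0 14))))))] (.c k41 (.q k4 [(.s k55 k38 4 (.s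
  k102 k196 12 (.s k119 k68 4 (.d k247 k183 k166 7 12)))), (.s k12 k8 1 (.s k63 k42 6 (.s k46 k29 4
  (.s k106 k192 14 (.d k166 k226 k247 9 12))))), (.s k12 k8 1 (.s k38 k55 4 (.s k25 k51 6 (.s k29
  k17 1 (.d k63 k46 k42 4 6)))))] .n) (.c k61 (.q k4 [(.s k55 k38 4 (.s k102 k196 12 (.s k119 k68 4
  (.d k247 k183 k166 7 12)))), (.s k12 k8 1 (.s k63 k42 6 (.s k46 k29 4 (.s k106 k192 14 (.d k166
  k226 k247 9 12))))), (.s k12 k8 1 (.s k38 k55 4 (.s k25 k51 6 (.s k29 k17 1 (.d k63 k46 k42 4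
  6)))))] .n) (.c k169 (.l (.s k61 k41 5 (.s k63 k42 6 (.s k105 k193 13 (.s k65 k125 5 (.s k195 k130
  8 (.d k60 k62 k150 0 14))))))) .n)))) (.c k254 (.l (.s k2 k3 0 (.s k61 k41 5 (.s k105 k193 13 (.s
  k125 k65 5 (.d k253 k169 k189 13 7)))))) .n))))

def s170_191_87 : T TT 256 :=
  (.q k1 [(.s k21 k213 7 (.s k61 k41 5 (.s k105 k193 13 (.s k125 k65 5 (.d k253 k189 k169 7 13))))),
  (.s k3 k2 0 (.s k21 k213 7 (.s k41 k61 5 (.s k22 k60 6 (.s k23 k20 0 (.d k63 k43 k42 5 6)))))),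
  (.s k3 k2 0 (.s k169 k253 13 (.s k129 k189 5 (.s k192 k66 8 (.s k64 k128 7 (.d k106 k127 k63 6
  14))))))] (.c k61 (.l (.s k3 k2 0 (.s k21 k213 7 (.s k63 k42 6 (.s k23 k43 5 (.s k86 k212 8 (.d
  k169 k253 k252 13 14))))))) .n))

def s170_191_88 : T TT 256 :=
  (.q k1 [(.s k21 k213 7 (.s k61 k41 5 (.s k105 k193 13 (.s k125 k65 5 (.d k253 k189 k169 7 13))))),
  (.s k3 k2 0 (.s k21 k213 7 (.s k41 k61 5 (.s k22 k60 6 (.s k23 k20 0 (.d k63 k43 k42 5 6)))))),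
  (.s k3 k2 0 (.s k169 k253 13 (.s k129 k189 5 (.s k192 k66 8 (.s k64 k128 7 (.d k106 k127 k63 6
  14))))))] (.c k61 (.l (.s k3 k2 0 (.s k21 k213 7 (.s k63 k42 6 (.s k23 k43 5 (.s k86 k212 8 (.d
  k169 k253 k252 13 14))))))) .n))

def s170_191_89 : T TT 256 :=
  (.f k21 k213 7 (.q k4 [(.s k55 k38 4 (.s k102 k196 12 (.s k119 k68 4 (.d k247 k183 k166 7 12)))),
  (.s k38 k55 4 (.s k42 k63 6 (.s k34 k46 1 (.s k51 k17 4 (.d k12 k8 k25 1 6))))), (.s k63 k42 6 (.s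
  k106 k192 14 (.s k166 k247 12 (.s k46 k226 9 (.d k12 k8 k29 1 4)))))] (.c k8 (.q k251 [(.s k55 k38
  4 (.s k102 k196 12 (.s k119 k68 4 (.d k247 k183 k166 7 12)))), (.s k63 k42 6 (.s k247 k166 12 (.s
  k243 k255 1 (.s k183 k123 9 (.d k55 k38 k119 4 7))))), (.s k55 k38 4 (.s k63 k42 6 (.s k196 k102
  12 (.s k68 k132 7 (.s k204 k136 9 (.d k192 k200 k106 1 14))))))] (.c k38 (.q k1 [(.s k61 k41 5 (.s
  k105 k193 13 (.s k125 k65 5 (.d k253 k189 k169 7 13)))), (.s k3 k2 0 (.s k63 k42 6 (.s k43 k23 5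
  (.s k106 k192 14 (.d k169 k232 k253 8 13))))), (.s k3 k2 0 (.s k41 k61 5 (.s k22 k60 6 (.s k23 k20
  0 (.d k63 k43 k42 5 6)))))] .n) (.c k55 (.q k1 [(.s k61 k41 5 (.s k105 k193 13 (.s k125 k65 5 (.d
  k253 k189 k169 7 13)))), (.s k3 k2 0 (.s k63 k42 6 (.s k43 k23 5 (.s k106 k192 14 (.d k169 k232
  k253 8 13))))), (.s k3 k2 0 (.s k41 k61 5 (.s k22 k60 6 (.s k23 k20 0 (.d k63 k43 k42 5 6)))))]
  .n) (.c k166 (.l (.s k55 k38 4 (.s k63 k42 6 (.s k102 k196 12 (.s k68 k119 4 (.s k204 k136 9 (.d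
  k51 k59 k153 1 14))))))) .n)))) (.c k251 (.l (.s k8 k12 1 (.s k55 k38 4 (.s k102 k196 12 (.s k119
  k68 4 (.d k247 k166 k183 12 7)))))) .n))))

def s170_191_90 : T TT 256 :=
  (.f k21 k213 7 (.q k5 [(.s k53 k37 3 (.s k101 k197 11 (.s k117 k69 3 (.d k245 k181 k165 7 11)))),
  (.s k37 k53 3 (.s k42 k63 6 (.s k32 k47 2 (.s k48 k16 3 (.d k15 k10 k26 2 6))))), (.s k63 k42 6
  (.s k106 k192 14 (.s k165 k245 11 (.s k47 k224 10 (.d k15 k10 k31 2 3)))))] (.c k10 (.q k250 [(.s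
  k53 k37 3 (.s k101 k197 11 (.s k117 k69 3 (.d k245 k181 k165 7 11)))), (.s k63 k42 6 (.s k245 k165
  11 (.s k240 k255 2 (.s k181 k122 10 (.d k53 k37 k117 3 7))))), (.s k53 k37 3 (.s k63 k42 6 (.s
  k197 k101 11 (.s k69 k133 7 (.s k207 k138 10 (.d k192 k202 k106 2 14))))))] (.c k37 (.q k1 [(.s
  k61 k41 5 (.s k105 k193 13 (.s k125 k65 5 (.d k253 k189 k169 7 13)))), (.s k3 k2 0 (.s k63 k42 6
  (.s k43 k23 5 (.s k106 k192 14 (.d k169 k232 k253 8 13))))), (.s k3 k2 0 (.s k41 k61 5 (.s k22 k60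
  6 (.s k23 k20 0 (.d k63 k43 k42 5 6)))))] .n) (.c k53 (.q k1 [(.s k61 k41 5 (.s k105 k193 13 (.s
  k125 k65 5 (.d k253 k189 k169 7 13)))), (.s k3 k2 0 (.s k63 k42 6 (.s k43 k23 5 (.s k106 k192 14
  (.d k169 k232 k253 8 13))))), (.s k3 k2 0 (.s k41 k61 5 (.s k22 k60 6 (.s k23 k20 0 (.d k63 k43
  k42 5 6)))))] .n) (.c k165 (.l (.s k53 k37 3 (.s k63 k42 6 (.s k101 k197 11 (.s k69 k117 3 (.s
  k207 k138 10 (.d k48 k58 k154 2 14))))))) .n)))) (.c k250 (.l (.s k10 k15 2 (.s k53 k37 3 (.s k101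
  k197 11 (.s k117 k69 3 (.d k245 k165 k181 11 7)))))) .n))))

def s170_191_91 : T TT 256 :=
  (.q k1 [(.s k21 k213 7 (.s k61 k41 5 (.s k105 k193 13 (.s k125 k65 5 (.d k253 k189 k169 7 13))))),
  (.s k3 k2 0 (.s k21 k213 7 (.s k41 k61 5 (.s k22 k60 6 (.s k23 k20 0 (.d k63 k43 k42 5 6)))))),
  (.s k3 k2 0 (.s k169 k253 13 (.s k129 k189 5 (.s k192 k66 8 (.s k64 k128 7 (.d k106 k127 k63 6
  14))))))] (.c k61 (.l (.s k3 k2 0 (.s k21 k213 7 (.s k63 k42 6 (.s k23 k43 5 (.s k86 k212 8 (.d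
  k169 k253 k252 13 14))))))) .n))

def s170_191_92 : T TT 256 :=
  (.q k1 [(.s k21 k213 7 (.s k61 k41 5 (.s k105 k193 13 (.s k125 k65 5 (.d k253 k189 k169 7 13))))),
  (.s k3 k2 0 (.s k21 k213 7 (.s k41 k61 5 (.s k22 k60 6 (.s k23 k20 0 (.d k63 k43 k42 5 6)))))),
  (.s k3 k2 0 (.s k169 k253 13 (.s k129 k189 5 (.s k192 k66 8 (.s k64 k128 7 (.d k106 k127 k63 6
  14))))))] (.c k61 (.l (.s k3 k2 0 (.s k21 k213 7 (.s k63 k42 6 (.s k23 k43 5 (.s k86 k212 8 (.d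
  k169 k253 k252 13 14))))))) .n))

def s170_191_93 : T TT 256 :=
  (.q k1 [(.s k21 k213 7 (.s k61 k41 5 (.s k105 k193 13 (.s k125 k65 5 (.d k253 k189 k169 7 13))))),
  (.s k3 k2 0 (.s k21 k213 7 (.s k41 k61 5 (.s k22 k60 6 (.s k23 k20 0 (.d k63 k43 k42 5 6)))))),
  (.s k3 k2 0 (.s k169 k253 13 (.s k129 k189 5 (.s k192 k66 8 (.s k64 k128 7 (.d k106 k127 k63 6
  14))))))] (.c k61 (.l (.s k3 k2 0 (.s k21 k213 7 (.s k63 k42 6 (.s k23 k43 5 (.s k86 k212 8 (.d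
  k169 k253 k252 13 14))))))) .n))

def s170_191_94 : T TT 256 :=
  (.q k1 [(.s k21 k213 7 (.s k61 k41 5 (.s k105 k193 13 (.s k125 k65 5 (.d k253 k189 k169 7 13))))),
  (.s k3 k2 0 (.s k21 k213 7 (.s k41 k61 5 (.s k22 k60 6 (.s k23 k20 0 (.d k63 k43 k42 5 6)))))),
  (.s k3 k2 0 (.s k169 k253 13 (.s k129 k189 5 (.s k192 k66 8 (.s k64 k128 7 (.d k106 k127 k63 6
  14))))))] (.c k61 (.l (.s k3 k2 0 (.s k21 k213 7 (.s k63 k42 6 (.s k23 k43 5 (.s k86 k212 8 (.d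
  k169 k253 k252 13 14))))))) .n))

def s170_191_95 : T TT 256 :=
  (.q k1 [(.s k21 k213 7 (.s k61 k41 5 (.s k105 k193 13 (.s k125 k65 5 (.d k253 k189 k169 7 13))))),
  (.s k3 k2 0 (.s k21 k213 7 (.s k41 k61 5 (.s k22 k60 6 (.s k23 k20 0 (.d k63 k43 k42 5 6)))))),
  (.s k3 k2 0 (.s k169 k253 13 (.s k129 k189 5 (.s k192 k66 8 (.s k64 k128 7 (.d k106 k127 k63 6
  14))))))] (.c k61 (.l (.s k3 k2 0 (.s k21 k213 7 (.s k63 k42 6 (.s k23 k43 5 (.s k86 k212 8 (.d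
  k169 k253 k252 13 14))))))) .n))

def s170_191_96 : T TT 256 :=
  (.q k1 [(.s k21 k213 7 (.s k61 k41 5 (.s k105 k193 13 (.s k125 k65 5 (.d k253 k189 k169 7 13))))),
  (.s k3 k2 0 (.s k21 k213 7 (.s k41 k61 5 (.s k22 k60 6 (.s k23 k20 0 (.d k63 k43 k42 5 6)))))),
  (.s k3 k2 0 (.s k169 k253 13 (.s k129 k189 5 (.s k192 k66 8 (.s k64 k128 7 (.d k106 k127 k63 6
  14))))))] (.c k61 (.l (.s k3 k2 0 (.s k21 k213 7 (.s k63 k42 6 (.s k23 k43 5 (.s k86 k212 8 (.d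
  k169 k253 k252 13 14))))))) .n))

def s170_191_97 : T TT 256 :=
  (.q k1 [(.s k213 k21 7 (.s k253 k169 13 (.s k193 k233 5 (.s k105 k61 13 (.d k65 k125 k129 5
  7))))), (.s k3 k2 0 (.s k21 k213 7 (.s k41 k61 5 (.s k22 k60 6 (.s k23 k20 0 (.d k63 k43 k42 5
  6)))))), (.s k3 k2 0 (.s k169 k253 13 (.s k129 k189 5 (.s k192 k66 8 (.s k64 k128 7 (.d k106 k127
  k63 6 14))))))] (.c k61 (.l (.s k3 k2 0 (.s k21 k213 7 (.s k63 k42 6 (.s k23 k43 5 (.s k86 k212 8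
  (.d k169 k253 k252 13 14))))))) .n))

def s170_191_98 : T TT 256 :=
  (.q k1 [(.s k21 k213 7 (.s k61 k41 5 (.s k105 k193 13 (.s k125 k65 5 (.d k253 k189 k169 7 13))))),
  (.s k3 k2 0 (.s k21 k213 7 (.s k41 k61 5 (.s k22 k60 6 (.s k23 k20 0 (.d k63 k43 k42 5 6)))))),
  (.s k3 k2 0 (.s k169 k253 13 (.s k129 k189 5 (.s k192 k66 8 (.s k64 k128 7 (.d k106 k127 k63 6
  14))))))] (.c k61 (.l (.s k3 k2 0 (.s k21 k213 7 (.s k63 k42 6 (.s k23 k43 5 (.s k86 k212 8 (.d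
  k169 k253 k252 13 14))))))) .n))

def s170_191_99 : T TT 256 :=
  (.q k1 [(.s k21 k213 7 (.s k61 k41 5 (.s k105 k193 13 (.s k125 k65 5 (.d k253 k189 k169 7 13))))),
  (.s k3 k2 0 (.s k21 k213 7 (.s k41 k61 5 (.s k22 k60 6 (.s k23 k20 0 (.d k63 k43 k42 5 6)))))),
  (.s k3 k2 0 (.s k169 k253 13 (.s k129 k189 5 (.s k192 k66 8 (.s k64 k128 7 (.d k106 k127 k63 6
  14))))))] (.c k61 (.l (.s k3 k2 0 (.s k21 k213 7 (.s k63 k42 6 (.s k23 k43 5 (.s k86 k212 8 (.d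
  k169 k253 k252 13 14))))))) .n))

def s170_191_100 : T TT 256 :=
  (.q k1 [(.s k21 k213 7 (.s k61 k41 5 (.s k105 k193 13 (.s k125 k65 5 (.d k253 k189 k169 7 13))))),
  (.s k3 k2 0 (.s k21 k213 7 (.s k41 k61 5 (.s k22 k60 6 (.s k23 k20 0 (.d k63 k43 k42 5 6)))))),
  (.s k3 k2 0 (.s k169 k253 13 (.s k129 k189 5 (.s k192 k66 8 (.s k64 k128 7 (.d k106 k127 k63 6
  14))))))] (.c k61 (.l (.s k3 k2 0 (.s k21 k213 7 (.s k63 k42 6 (.s k23 k43 5 (.s k86 k212 8 (.d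
  k169 k253 k252 13 14))))))) .n))

def s170_191_101 : T TT 256 :=
  (.f k21 k213 7 (.q k16 [(.s k31 k26 2 (.s k90 k208 10 (.s k95 k80 2 (.d k223 k159 k154 7 10)))),
  (.s k26 k31 2 (.s k42 k63 6 (.s k10 k58 3 (.s k15 k5 2 (.d k48 k32 k37 3 6))))), (.s k63 k42 6 (.s
  k106 k192 14 (.s k154 k223 10 (.s k58 k202 11 (.d k48 k32 k53 3 2)))))] (.c k32 (.q k239 [(.s k31
  k26 2 (.s k90 k208 10 (.s k95 k80 2 (.d k223 k159 k154 7 10)))), (.s k63 k42 6 (.s k223 k154 10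
  (.s k207 k255 3 (.s k159 k111 11 (.d k31 k26 k95 2 7))))), (.s k31 k26 2 (.s k63 k42 6 (.s k208
  k90 10 (.s k80 k144 7 (.s k240 k160 11 (.d k192 k224 k106 3 14))))))] (.c k26 (.q k1 [(.s k61 k41
  5 (.s k105 k193 13 (.s k125 k65 5 (.d k253 k189 k169 7 13)))), (.s k3 k2 0 (.s k63 k42 6 (.s k43
  k23 5 (.s k106 k192 14 (.d k169 k232 k253 8 13))))), (.s k3 k2 0 (.s k41 k61 5 (.s k22 k60 6 (.s
  k23 k20 0 (.d k63 k43 k42 5 6)))))] .n) (.c k31 (.q k1 [(.s k61 k41 5 (.s k105 k193 13 (.s k125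
  k65 5 (.d k253 k189 k169 7 13)))), (.s k3 k2 0 (.s k63 k42 6 (.s k43 k23 5 (.s k106 k192 14 (.d
  k169 k232 k253 8 13))))), (.s k3 k2 0 (.s k41 k61 5 (.s k22 k60 6 (.s k23 k20 0 (.d k63 k43 k42 5
  6)))))] .n) (.c k154 (.l (.s k31 k26 2 (.s k63 k42 6 (.s k90 k208 10 (.s k80 k95 2 (.s k240 k160
  11 (.d k15 k47 k165 3 14))))))) .n)))) (.c k239 (.l (.s k32 k48 3 (.s k31 k26 2 (.s k90 k208 10
  (.s k95 k80 2 (.d k223 k154 k159 10 7)))))) .n))))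

def s170_191_102 : T TT 256 :=
  (.f k21 k213 7 (.q k17 [(.s k29 k25 1 (.s k89 k209 9 (.s k93 k81 1 (.d k221 k157 k153 7 9)))), (.s
  k25 k29 1 (.s k42 k63 6 (.s k8 k59 4 (.s k12 k4 1 (.d k51 k34 k38 4 6))))), (.s k63 k42 6 (.s k106
  k192 14 (.s k153 k221 9 (.s k59 k200 12 (.d k51 k34 k55 4 1)))))] (.c k34 (.q k238 [(.s k29 k25 1
  (.s k89 k209 9 (.s k93 k81 1 (.d k221 k157 k153 7 9)))), (.s k63 k42 6 (.s k221 k153 9 (.s k204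
  k255 4 (.s k157 k110 12 (.d k29 k25 k93 1 7))))), (.s k29 k25 1 (.s k63 k42 6 (.s k209 k89 9 (.s
  k81 k145 7 (.s k243 k162 12 (.d k192 k226 k106 4 14))))))] (.c k25 (.q k1 [(.s k61 k41 5 (.s k105
  k193 13 (.s k125 k65 5 (.d k253 k189 k169 7 13)))), (.s k3 k2 0 (.s k63 k42 6 (.s k43 k23 5 (.s
  k106 k192 14 (.d k169 k232 k253 8 13))))), (.s k3 k2 0 (.s k41 k61 5 (.s k22 k60 6 (.s k23 k20 0
  (.d k63 k43 k42 5 6)))))] .n) (.c k29 (.q k1 [(.s k61 k41 5 (.s k105 k193 13 (.s k125 k65 5 (.d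
  k253 k189 k169 7 13)))), (.s k3 k2 0 (.s k63 k42 6 (.s k43 k23 5 (.s k106 k192 14 (.d k169 k232
  k253 8 13))))), (.s k3 k2 0 (.s k41 k61 5 (.s k22 k60 6 (.s k23 k20 0 (.d k63 k43 k42 5 6)))))]
  .n) (.c k153 (.l (.s k29 k25 1 (.s k63 k42 6 (.s k89 k209 9 (.s k81 k93 1 (.s k243 k162 12 (.d k12
  k46 k166 4 14))))))) .n)))) (.c k238 (.l (.s k34 k51 4 (.s k29 k25 1 (.s k89 k209 9 (.s k93 k81 1
  (.d k221 k153 k157 9 7)))))) .n))))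

def s170_191_103 : T TT 256 :=
  (.q k1 [(.s k21 k213 7 (.s k61 k41 5 (.s k105 k193 13 (.s k125 k65 5 (.d k253 k189 k169 7 13))))),
  (.s k3 k2 0 (.s k21 k213 7 (.s k41 k61 5 (.s k22 k60 6 (.s k23 k20 0 (.d k63 k43 k42 5 6)))))),
  (.s k3 k2 0 (.s k169 k253 13 (.s k129 k189 5 (.s k192 k66 8 (.s k64 k128 7 (.d k106 k127 k63 6
  14))))))] (.c k61 (.l (.s k3 k2 0 (.s k21 k213 7 (.s k63 k42 6 (.s k23 k43 5 (.s k86 k212 8 (.d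
  k169 k253 k252 13 14))))))) .n))

def s170_191_104 : T TT 256 :=
  (.q k1 [(.s k21 k213 7 (.s k61 k41 5 (.s k105 k193 13 (.s k125 k65 5 (.d k253 k189 k169 7 13))))),
  (.s k3 k2 0 (.s k21 k213 7 (.s k41 k61 5 (.s k22 k60 6 (.s k23 k20 0 (.d k63 k43 k42 5 6)))))),
  (.s k3 k2 0 (.s k169 k253 13 (.s k129 k189 5 (.s k192 k66 8 (.s k64 k128 7 (.d k106 k127 k63 6
  14))))))] (.c k61 (.l (.s k3 k2 0 (.s k21 k213 7 (.s k63 k42 6 (.s k23 k43 5 (.s k86 k212 8 (.d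
  k169 k253 k252 13 14))))))) .n))

def s170_191_105 : T TT 256 :=
  (.f k21 k213 7 (.q k20 [(.s k23 k22 0 (.s k86 k212 8 (.s k87 k84 0 (.d k215 k151 k150 7 8)))), (.s
  k22 k23 0 (.s k42 k63 6 (.s k2 k62 5 (.s k3 k1 0 (.d k60 k40 k41 5 6))))), (.s k63 k42 6 (.s k106
  k192 14 (.s k150 k215 8 (.s k62 k194 13 (.d k60 k40 k61 5 0)))))] (.c k40 (.q k235 [(.s k23 k22 0
  (.s k86 k212 8 (.s k87 k84 0 (.d k215 k151 k150 7 8)))), (.s k63 k42 6 (.s k215 k150 8 (.s k195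
  k255 5 (.s k151 k107 13 (.d k23 k22 k87 0 7))))), (.s k23 k22 0 (.s k63 k42 6 (.s k212 k86 8 (.s
  k84 k148 7 (.s k252 k168 13 (.d k192 k232 k106 5 14))))))] (.c k22 (.q k1 [(.s k3 k2 0 (.s k169
  k253 13 (.s k86 k252 14 (.s k84 k87 0 (.d k212 k148 k23 7 8))))), (.s k63 k42 6 (.s k106 k192 14
  (.s k150 k215 8 (.s k62 k194 13 (.d k61 k41 k60 5 0))))), (.s k169 k253 13 (.s k129 k189 5 (.s
  k215 k150 8 (.s k195 k255 5 (.d k65 k193 k130 7 8))))), (.s k63 k42 6 (.s k150 k215 8 (.s k148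
  k151 0 (.s k212 k84 7 (.s k23 k86 8 (.d k3 k2 k43 0 5))))))] .n) (.c k23 (.q k1 [(.s k63 k42 6 (.s
  k106 k192 14 (.s k150 k215 8 (.s k62 k194 13 (.d k61 k41 k60 5 0))))), (.s k3 k2 0 (.s k169 k253
  13 (.s k129 k189 5 (.s k192 k66 8 (.d k63 k42 k106 6 14))))), (.s k3 k2 0 (.s k41 k61 5 (.s k150
  k215 8 (.s k169 k253 13 (.s k86 k252 14 (.d k22 k214 k60 7 6)))))), (.s k3 k2 0 (.s k63 k42 6 (.s
  k150 k215 8 (.s k151 k148 0 (.s k195 k107 13 (.s k131 k67 7 (.d k169 k188 k253 6 13)))))))] .n)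
  (.c k150 (.l (.s k23 k22 0 (.s k63 k42 6 (.s k86 k212 8 (.s k84 k87 0 (.s k252 k168 13 (.d k3 k43
  k169 5 14))))))) .n)))) (.c k235 (.l (.s k40 k60 5 (.s k23 k22 0 (.s k86 k212 8 (.s k87 k84 0 (.d
  k215 k150 k151 8 7)))))) .n))))

def s170_191_106 : T TT 256 :=
  (.f k21 k213 7 (.q k4 [(.s k55 k38 4 (.s k102 k196 12 (.s k119 k68 4 (.d k247 k183 k166 7 12)))),
  (.s k12 k8 1 (.s k38 k55 4 (.s k25 k51 6 (.s k29 k17 1 (.d k63 k42 k46 6 4))))), (.s k12 k8 1 (.s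
  k166 k247 12 (.s k89 k243 14 (.s k29 k209 9 (.d k63 k42 k46 6 4)))))] (.c k42 (.q k234 [(.s k55
  k38 4 (.s k102 k196 12 (.s k119 k68 4 (.d k247 k183 k166 7 12)))), (.s k12 k8 1 (.s k38 k55 4 (.s
  k25 k51 6 (.s k29 k17 1 (.s k89 k209 9 (.s k81 k93 1 (.d k243 k162 k166 12 14))))))), (.s k12 k8 1
  (.s k166 k247 12 (.s k89 k243 14 (.s k29 k209 9 (.s k93 k81 1 (.s k221 k157 7 (.d k17 k25 k153 1
  9)))))))] (.c k166 (.f k55 k38 4 (.f k102 k196 12 (.l (.s k68 k119 4 (.s k204 k136 9 (.s k153 k51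
  14 (.s k17 k221 9 (.s k145 k157 1 (.s k209 k81 7 (.d k29 k25 k89 1 9)))))))))) .n)) (.c k234 (.l
  (.s k42 k63 6 (.s k12 k8 1 (.s k38 k55 4 (.s k34 k46 1 (.d k51 k17 k25 4 6)))))) .n))))

def s170_191_107 : T TT 256 :=
  (.q k1 [(.s k21 k213 7 (.s k61 k41 5 (.s k105 k193 13 (.s k125 k65 5 (.d k253 k189 k169 7 13))))),
  (.s k3 k2 0 (.s k21 k213 7 (.s k41 k61 5 (.s k22 k60 6 (.s k23 k20 0 (.d k63 k43 k42 5 6)))))),
  (.s k3 k2 0 (.s k169 k253 13 (.s k129 k189 5 (.s k192 k66 8 (.s k64 k128 7 (.d k106 k127 k63 6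
  14))))))] (.c k61 (.l (.s k3 k2 0 (.s k21 k213 7 (.s k63 k42 6 (.s k23 k43 5 (.s k86 k212 8 (.d
  k169 k253 k252 13 14))))))) .n))

def s170_191_108 : T TT 256 :=
  (.q k1 [(.s k21 k213 7 (.s k61 k41 5 (.s k105 k193 13 (.s k125 k65 5 (.d k253 k189 k169 7 13))))),
  (.s k3 k2 0 (.s k21 k213 7 (.s k41 k61 5 (.s k22 k60 6 (.s k23 k20 0 (.d k63 k43 k42 5 6)))))),
  (.s k3 k2 0 (.s k169 k253 13 (.s k129 k189 5 (.s k192 k66 8 (.s k64 k128 7 (.d k106 k127 k63 6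
  14))))))] (.c k61 (.l (.s k3 k2 0 (.s k21 k213 7 (.s k63 k42 6 (.s k23 k43 5 (.s k86 k212 8 (.d
  k169 k253 k252 13 14))))))) .n))

def s170_191_109 : T TT 256 :=
  (.q k1 [(.s k21 k213 7 (.s k61 k41 5 (.s k105 k193 13 (.s k125 k65 5 (.d k253 k189 k169 7 13))))),
  (.s k3 k2 0 (.s k21 k213 7 (.s k41 k61 5 (.s k22 k60 6 (.s k23 k20 0 (.d k63 k43 k42 5 6)))))),
  (.s k3 k2 0 (.s k169 k253 13 (.s k129 k189 5 (.s k192 k66 8 (.s k64 k128 7 (.d k106 k127 k63 6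
  14))))))] (.c k61 (.l (.s k3 k2 0 (.s k21 k213 7 (.s k63 k42 6 (.s k23 k43 5 (.s k86 k212 8 (.d
  k169 k253 k252 13 14))))))) .n))

def s170_191_110 : T TT 256 :=
  (.q k1 [(.s k21 k213 7 (.s k61 k41 5 (.s k105 k193 13 (.s k125 k65 5 (.d k253 k189 k169 7 13))))),
  (.s k3 k2 0 (.s k21 k213 7 (.s k41 k61 5 (.s k22 k60 6 (.s k23 k20 0 (.d k63 k43 k42 5 6)))))),
  (.s k3 k2 0 (.s k169 k253 13 (.s k129 k189 5 (.s k192 k66 8 (.s k64 k128 7 (.d k106 k127 k63 6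
  14))))))] (.c k61 (.l (.s k3 k2 0 (.s k21 k213 7 (.s k63 k42 6 (.s k23 k43 5 (.s k86 k212 8 (.d
  k169 k253 k252 13 14))))))) .n))

def s170_191_111 : T TT 256 :=
  (.q k1 [(.s k21 k213 7 (.s k61 k41 5 (.s k105 k193 13 (.s k125 k65 5 (.d k253 k189 k169 7 13))))),
  (.s k3 k2 0 (.s k21 k213 7 (.s k41 k61 5 (.s k22 k60 6 (.s k23 k20 0 (.d k63 k43 k42 5 6)))))),
  (.s k3 k2 0 (.s k169 k253 13 (.s k129 k189 5 (.s k192 k66 8 (.s k64 k128 7 (.d k106 k127 k63 6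
  14))))))] (.c k61 (.l (.s k3 k2 0 (.s k21 k213 7 (.s k63 k42 6 (.s k23 k43 5 (.s k86 k212 8 (.d
  k169 k253 k252 13 14))))))) .n))

def s170_191_112 : T TT 256 :=
  (.q k1 [(.s k21 k213 7 (.s k61 k41 5 (.s k105 k193 13 (.s k125 k65 5 (.d k253 k189 k169 7 13))))),
  (.s k3 k2 0 (.s k21 k213 7 (.s k41 k61 5 (.s k22 k60 6 (.s k23 k20 0 (.d k63 k43 k42 5 6)))))),
  (.s k3 k2 0 (.s k169 k253 13 (.s k129 k189 5 (.s k192 k66 8 (.s k64 k128 7 (.d k106 k127 k63 6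
  14))))))] (.c k61 (.l (.s k3 k2 0 (.s k21 k213 7 (.s k63 k42 6 (.s k23 k43 5 (.s k86 k212 8 (.d
  k169 k253 k252 13 14))))))) .n))

def s170_191_113 : T TT 256 :=
  (.q k1 [(.s k21 k213 7 (.s k61 k41 5 (.s k105 k193 13 (.s k125 k65 5 (.d k253 k189 k169 7 13))))),
  (.s k3 k2 0 (.s k21 k213 7 (.s k41 k61 5 (.s k22 k60 6 (.s k23 k20 0 (.d k63 k43 k42 5 6)))))),
  (.s k3 k2 0 (.s k169 k253 13 (.s k129 k189 5 (.s k192 k66 8 (.s k64 k128 7 (.d k106 k127 k63 6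
  14))))))] (.c k61 (.l (.s k3 k2 0 (.s k21 k213 7 (.s k63 k42 6 (.s k23 k43 5 (.s k86 k212 8 (.d
  k169 k253 k252 13 14))))))) .n))

def s170_191_114 : T TT 256 :=
  (.q k1 [(.s k21 k213 7 (.s k61 k41 5 (.s k105 k193 13 (.s k125 k65 5 (.d k253 k189 k169 7 13))))),
  (.s k3 k2 0 (.s k21 k213 7 (.s k41 k61 5 (.s k22 k60 6 (.s k23 k20 0 (.d k63 k43 k42 5 6)))))),
  (.s k3 k2 0 (.s k169 k253 13 (.s k129 k189 5 (.s k192 k66 8 (.s k64 k128 7 (.d k106 k127 k63 6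
  14))))))] (.c k61 (.l (.s k3 k2 0 (.s k21 k213 7 (.s k63 k42 6 (.s k23 k43 5 (.s k86 k212 8 (.d
  k169 k253 k252 13 14))))))) .n))

def s170_191_115 : T TT 256 :=
  (.q k1 [(.s k21 k213 7 (.s k61 k41 5 (.s k105 k193 13 (.s k125 k65 5 (.d k253 k189 k169 7 13))))),
  (.s k3 k2 0 (.s k21 k213 7 (.s k41 k61 5 (.s k22 k60 6 (.s k23 k20 0 (.d k63 k43 k42 5 6)))))),
  (.s k3 k2 0 (.s k169 k253 13 (.s k129 k189 5 (.s k192 k66 8 (.s k64 k128 7 (.d k106 k127 k63 6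
  14))))))] (.c k61 (.l (.s k3 k2 0 (.s k21 k213 7 (.s k63 k42 6 (.s k23 k43 5 (.s k86 k212 8 (.d
  k169 k253 k252 13 14))))))) .n))

def s170_191_116 : T TT 256 :=
  (.q k1 [(.s k21 k213 7 (.s k61 k41 5 (.s k105 k193 13 (.s k125 k65 5 (.d k253 k189 k169 7 13))))),
  (.s k3 k2 0 (.s k21 k213 7 (.s k41 k61 5 (.s k22 k60 6 (.s k23 k20 0 (.d k63 k43 k42 5 6)))))),
  (.s k3 k2 0 (.s k169 k253 13 (.s k129 k189 5 (.s k192 k66 8 (.s k64 k128 7 (.d k106 k127 k63 6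
  14))))))] (.c k61 (.l (.s k3 k2 0 (.s k21 k213 7 (.s k63 k42 6 (.s k23 k43 5 (.s k86 k212 8 (.d
  k169 k253 k252 13 14))))))) .n))

def s170_191_117 : T TT 256 :=
  (.q k1 [(.s k21 k213 7 (.s k61 k41 5 (.s k105 k193 13 (.s k125 k65 5 (.d k253 k189 k169 7 13))))),
  (.s k3 k2 0 (.s k21 k213 7 (.s k41 k61 5 (.s k22 k60 6 (.s k23 k20 0 (.d k63 k43 k42 5 6)))))),
  (.s k3 k2 0 (.s k169 k253 13 (.s k129 k189 5 (.s k192 k66 8 (.s k64 k128 7 (.d k106 k127 k63 6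
  14))))))] (.c k61 (.l (.s k3 k2 0 (.s k21 k213 7 (.s k63 k42 6 (.s k23 k43 5 (.s k86 k212 8 (.d
  k169 k253 k252 13 14))))))) .n))

def s170_191_118 : T TT 256 :=
  (.q k1 [(.s k21 k213 7 (.s k61 k41 5 (.s k105 k193 13 (.s k125 k65 5 (.d k253 k189 k169 7 13))))),
  (.s k3 k2 0 (.s k21 k213 7 (.s k41 k61 5 (.s k22 k60 6 (.s k23 k20 0 (.d k63 k43 k42 5 6)))))),
  (.s k3 k2 0 (.s k169 k253 13 (.s k129 k189 5 (.s k192 k66 8 (.s k64 k128 7 (.d k106 k127 k63 6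
  14))))))] (.c k61 (.l (.s k3 k2 0 (.s k21 k213 7 (.s k63 k42 6 (.s k23 k43 5 (.s k86 k212 8 (.d
  k169 k253 k252 13 14))))))) .n))

def s170_191_119 : T TT 256 :=
  (.q k1 [(.s k21 k213 7 (.s k61 k41 5 (.s k105 k193 13 (.s k125 k65 5 (.d k253 k189 k169 7 13))))),
  (.s k3 k2 0 (.s k21 k213 7 (.s k41 k61 5 (.s k22 k60 6 (.s k23 k20 0 (.d k63 k43 k42 5 6)))))),
  (.s k3 k2 0 (.s k169 k253 13 (.s k129 k189 5 (.s k192 k66 8 (.s k64 k128 7 (.d k106 k127 k63 6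
  14))))))] (.c k61 (.l (.s k3 k2 0 (.s k21 k213 7 (.s k63 k42 6 (.s k23 k43 5 (.s k86 k212 8 (.d
  k169 k253 k252 13 14))))))) .n))

def s170_191_120 : T TT 256 :=
  (.q k1 [(.s k21 k213 7 (.s k61 k41 5 (.s k105 k193 13 (.s k125 k65 5 (.d k253 k189 k169 7 13))))),
  (.s k3 k2 0 (.s k21 k213 7 (.s k41 k61 5 (.s k22 k60 6 (.s k23 k20 0 (.d k63 k43 k42 5 6)))))),
  (.s k3 k2 0 (.s k169 k253 13 (.s k129 k189 5 (.s k192 k66 8 (.s k64 k128 7 (.d k106 k127 k63 6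
  14))))))] (.c k61 (.l (.s k3 k2 0 (.s k21 k213 7 (.s k63 k42 6 (.s k23 k43 5 (.s k86 k212 8 (.d
  k169 k253 k252 13 14))))))) .n))

def s170_191_121 : T TT 256 :=
  (.q k1 [(.s k21 k213 7 (.s k61 k41 5 (.s k105 k193 13 (.s k125 k65 5 (.d k253 k189 k169 7 13))))),
  (.s k3 k2 0 (.s k21 k213 7 (.s k41 k61 5 (.s k22 k60 6 (.s k23 k20 0 (.d k63 k43 k42 5 6)))))),
  (.s k3 k2 0 (.s k169 k253 13 (.s k129 k189 5 (.s k192 k66 8 (.s k64 k128 7 (.d k106 k127 k63 6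
  14))))))] (.c k61 (.l (.s k3 k2 0 (.s k21 k213 7 (.s k63 k42 6 (.s k23 k43 5 (.s k86 k212 8 (.d
  k169 k253 k252 13 14))))))) .n))

def s170_191_122 : T TT 256 :=
  (.q k1 [(.s k21 k213 7 (.s k61 k41 5 (.s k105 k193 13 (.s k125 k65 5 (.d k253 k189 k169 7 13))))),
  (.s k3 k2 0 (.s k21 k213 7 (.s k41 k61 5 (.s k22 k60 6 (.s k23 k20 0 (.d k63 k43 k42 5 6)))))),
  (.s k3 k2 0 (.s k169 k253 13 (.s k129 k189 5 (.s k192 k66 8 (.s k64 k128 7 (.d k106 k127 k63 6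
  14))))))] (.c k61 (.l (.s k3 k2 0 (.s k21 k213 7 (.s k63 k42 6 (.s k23 k43 5 (.s k86 k212 8 (.d
  k169 k253 k252 13 14))))))) .n))

def s170_191_123 : T TT 256 :=
  (.q k1 [(.s k21 k213 7 (.s k61 k41 5 (.s k105 k193 13 (.s k125 k65 5 (.d k253 k189 k169 7 13))))),
  (.s k3 k2 0 (.s k21 k213 7 (.s k41 k61 5 (.s k22 k60 6 (.s k23 k20 0 (.d k63 k43 k42 5 6)))))),
  (.s k3 k2 0 (.s k169 k253 13 (.s k129 k189 5 (.s k192 k66 8 (.s k64 k128 7 (.d k106 k127 k63 6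
  14))))))] (.c k61 (.l (.s k3 k2 0 (.s k21 k213 7 (.s k63 k42 6 (.s k23 k43 5 (.s k86 k212 8 (.d
  k169 k253 k252 13 14))))))) .n))

def s170_191_124 : T TT 256 :=
  (.q k1 [(.s k21 k213 7 (.s k61 k41 5 (.s k105 k193 13 (.s k125 k65 5 (.d k253 k189 k169 7 13))))),
  (.s k3 k2 0 (.s k21 k213 7 (.s k41 k61 5 (.s k22 k60 6 (.s k23 k20 0 (.d k63 k43 k42 5 6)))))),
  (.s k3 k2 0 (.s k169 k253 13 (.s k129 k189 5 (.s k192 k66 8 (.s k64 k128 7 (.d k106 k127 k63 6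
  14))))))] (.c k61 (.l (.s k3 k2 0 (.s k21 k213 7 (.s k63 k42 6 (.s k23 k43 5 (.s k86 k212 8 (.d
  k169 k253 k252 13 14))))))) .n))

def s170_191_125 : T TT 256 :=
  (.q k1 [(.s k21 k213 7 (.s k61 k41 5 (.s k169 k253 13 (.s k129 k189 5 (.d k193 k65 k105 7 13))))),
  (.s k3 k2 0 (.s k21 k213 7 (.s k63 k42 6 (.s k43 k23 5 (.s k106 k192 14 (.d k169 k232 k253 8
  13)))))), (.s k3 k2 0 (.s k169 k253 13 (.s k86 k252 14 (.s k23 k212 8 (.s k63 k43 5 (.s k192 k106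
  14 (.d k129 k189 k66 5 8))))))), (.s k3 k2 0 (.s k21 k213 7 (.s k63 k42 6 (.s k23 k43 5 (.s k22
  k20 0 (.d k41 k61 k60 5 6))))))] .n)

def s170_191_126 : T TT 256 :=
  (.q k1 [(.s k21 k213 7 (.s k61 k41 5 (.s k105 k193 13 (.s k125 k65 5 (.d k253 k189 k169 7 13))))),
  (.s k3 k2 0 (.s k21 k213 7 (.s k41 k61 5 (.s k22 k60 6 (.s k23 k20 0 (.d k63 k43 k42 5 6)))))),
  (.s k3 k2 0 (.s k169 k253 13 (.s k129 k189 5 (.s k192 k66 8 (.s k64 k128 7 (.d k106 k63 k127 14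
  6))))))] (.c k61 (.l (.s k3 k2 0 (.s k21 k213 7 (.s k63 k42 6 (.s k23 k43 5 (.s k86 k212 8 (.d
  k169 k253 k252 13 14))))))) .n))

def s170_191_127 : T TT 256 :=
  (.f k21 k213 7 (.q k102 [(.s k55 k196 12 (.s k4 k38 4 (.s k119 k68 4 (.d k247 k183 k166 7 12)))),
  (.s k63 k42 6 (.s k68 k119 4 (.s k106 k192 14 (.s k110 k98 1 (.d k204 k136 k157 9 12))))), (.s k55
  k196 12 (.s k63 k42 6 (.s k51 k59 1 (.s k17 k34 4 (.d k153 k221 k204 9 14)))))] (.c k63 (.q k255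
  [(.s k55 k196 12 (.s k4 k38 4 (.s k119 k68 4 (.d k247 k183 k166 7 12)))), (.s k68 k119 4 (.s k204
  k136 9 (.s k221 k238 4 (.d k153 k17 k51 9 14)))), (.s k55 k196 12 (.s k4 k38 4 (.s k12 k8 1 (.s
  k93 k174 12 (.s k89 k81 1 (.d k166 k247 k243 12 14))))))] .n) (.c k255 (.l (.s k63 k42 6 (.s k55
  k196 12 (.s k4 k38 4 (.s k119 k68 4 (.d k247 k183 k166 7 12)))))) .n))))

def s170_191_128 : T TT 256 :=
  (.q k1 [(.s k21 k213 7 (.s k61 k41 5 (.s k105 k193 13 (.s k125 k65 5 (.d k253 k189 k169 7 13))))),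
  (.s k3 k2 0 (.s k21 k213 7 (.s k41 k61 5 (.s k22 k60 6 (.s k23 k20 0 (.d k63 k43 k42 5 6)))))),
  (.s k3 k2 0 (.s k169 k253 13 (.s k86 k252 14 (.s k23 k212 8 (.s k63 k43 5 (.s k129 k189 5 (.d k192
  k66 k106 8 14)))))))] (.c k61 (.l (.s k3 k2 0 (.s k21 k213 7 (.s k63 k42 6 (.s k23 k43 5 (.s k86
  k212 8 (.d k169 k253 k252 13 14))))))) .n))

def s170_191_129 : T TT 256 :=
  (.q k4 [(.s k21 k213 7 (.s k55 k38 4 (.s k102 k196 12 (.s k119 k68 4 (.d k247 k183 k166 7 12))))),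
  (.s k12 k8 1 (.s k21 k213 7 (.s k38 k55 4 (.s k25 k51 6 (.s k29 k17 1 (.d k63 k46 k42 4 6)))))),
  (.s k12 k8 1 (.s k166 k247 12 (.s k132 k183 4 (.s k192 k72 9 (.s k64 k128 7 (.d k106 k127 k63 6
  14))))))] (.c k55 (.l (.s k12 k8 1 (.s k21 k213 7 (.s k63 k42 6 (.s k29 k46 4 (.s k89 k209 9 (.d
  k166 k247 k243 12 14))))))) .n))

def s170_191_130 : T TT 256 :=
  (.q k150 [(.s k151 k148 0 (.s k213 k21 7 (.s k215 k20 8 (.s k23 k87 7 (.d k212 k214 k86 0 8))))),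
  (.s k21 k213 7 (.s k63 k42 6 (.s k106 k192 14 (.s k62 k194 13 (.s k60 k61 0 (.s k151 k148 0 (.d
  k195 k107 k105 13 14))))))), (.s k20 k215 8 (.s k60 k40 5 (.s k148 k151 0 (.s k192 k104 13 (.s k64
  k128 7 (.d k106 k127 k63 6 14)))))), (.s k20 k215 8 (.s k21 k213 7 (.s k60 k40 5 (.s k63 k42 6 (.s
  k61 k62 0 (.d k105 k193 k195 13 14))))))] .n)

def s170_191_131 : T TT 256 :=
  (.f k21 k213 7 (.q k151 [(.s k63 k42 6 (.s k150 k148 0 (.s k195 k107 13 (.s k65 k130 8 (.d k105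
  k125 k60 5 14))))), (.s k150 k148 0 (.s k20 k215 8 (.s k22 k23 0 (.s k60 k40 5 (.s k105 k195 14
  (.s k61 k193 13 (.d k41 k3 k1 6 5))))))), (.s k63 k42 6 (.s k195 k107 13 (.s k65 k130 8 (.s k105
  k125 5 (.s k193 k61 13 (.d k192 k106 k194 14 0))))))] (.c k105 (.l (.s k63 k42 6 (.s k106 k192 14
  (.s k150 k148 0 (.s k20 k215 8 (.s k62 k194 13 (.d k60 k61 k40 0 5))))))) (.c k150 (.f k63 k42 6
  (.l (.s k106 k192 14 (.s k107 k195 13 (.s k105 k104 0 (.s k125 k65 5 (.s k127 k64 6 (.s k67 k87 5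
  (.d k124 k126 k86 0 6))))))))) (.c k195 (.l (.s k63 k42 6 (.s k106 k192 14 (.s k150 k148 0 (.s k20
  k215 8 (.s k60 k40 5 (.d k62 k194 k61 13 0))))))) .n)))))

def s170_191_132 : T TT 256 :=
  (.q k1 [(.s k21 k213 7 (.s k61 k41 5 (.s k105 k193 13 (.s k125 k65 5 (.d k253 k189 k169 7 13))))),
  (.s k3 k2 0 (.s k21 k213 7 (.s k41 k61 5 (.s k22 k60 6 (.s k23 k20 0 (.d k63 k43 k42 5 6)))))),
  (.s k3 k2 0 (.s k169 k253 13 (.s k129 k189 5 (.s k192 k66 8 (.s k64 k128 7 (.d k106 k127 k63 6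
  14))))))] (.c k61 (.l (.s k3 k2 0 (.s k21 k213 7 (.s k63 k42 6 (.s k23 k43 5 (.s k86 k212 8 (.d
  k169 k253 k252 13 14))))))) .n))

def s170_191_133 : T TT 256 :=
  (.q k1 [(.s k21 k213 7 (.s k61 k41 5 (.s k105 k193 13 (.s k125 k65 5 (.d k253 k189 k169 7 13))))),
  (.s k3 k2 0 (.s k21 k213 7 (.s k41 k61 5 (.s k22 k60 6 (.s k23 k20 0 (.d k63 k43 k42 5 6)))))),
  (.s k3 k2 0 (.s k169 k253 13 (.s k129 k189 5 (.s k192 k66 8 (.s k64 k128 7 (.d k106 k127 k63 6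
  14))))))] (.c k61 (.l (.s k3 k2 0 (.s k21 k213 7 (.s k63 k42 6 (.s k23 k43 5 (.s k86 k212 8 (.d
  k169 k253 k252 13 14))))))) .n))

def s170_191_134 : T TT 256 :=
  (.q k1 [(.s k21 k213 7 (.s k61 k41 5 (.s k105 k193 13 (.s k125 k65 5 (.d k253 k189 k169 7 13))))),
  (.s k3 k2 0 (.s k21 k213 7 (.s k41 k61 5 (.s k22 k60 6 (.s k23 k20 0 (.d k63 k43 k42 5 6)))))),
  (.s k3 k2 0 (.s k169 k253 13 (.s k129 k189 5 (.s k192 k66 8 (.s k64 k128 7 (.d k106 k127 k63 6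
  14))))))] (.c k61 (.l (.s k3 k2 0 (.s k21 k213 7 (.s k63 k42 6 (.s k23 k43 5 (.s k86 k212 8 (.d
  k169 k253 k252 13 14))))))) .n))

def s170_191_135 : T TT 256 :=
  (.q k1 [(.s k21 k213 7 (.s k61 k41 5 (.s k105 k193 13 (.s k125 k65 5 (.d k253 k189 k169 7 13))))),
  (.s k3 k2 0 (.s k21 k213 7 (.s k41 k61 5 (.s k22 k60 6 (.s k23 k20 0 (.d k63 k43 k42 5 6)))))),
  (.s k3 k2 0 (.s k169 k253 13 (.s k129 k189 5 (.s k192 k66 8 (.s k64 k128 7 (.d k106 k127 k63 6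
  14))))))] (.c k61 (.l (.s k3 k2 0 (.s k21 k213 7 (.s k63 k42 6 (.s k23 k43 5 (.s k86 k212 8 (.d
  k169 k253 k252 13 14))))))) .n))

def s170_191_136 : T TT 256 :=
  (.q k153 [(.s k157 k145 1 (.s k213 k21 7 (.s k221 k17 9 (.s k29 k93 7 (.d k209 k217 k89 1 9))))),
  (.s k21 k213 7 (.s k63 k42 6 (.s k106 k192 14 (.s k59 k200 12 (.s k51 k55 1 (.s k157 k145 1 (.d
  k204 k110 k102 12 14))))))), (.s k17 k221 9 (.s k51 k34 4 (.s k145 k157 1 (.s k192 k98 12 (.s k64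
  k128 7 (.d k106 k127 k63 6 14)))))), (.s k17 k221 9 (.s k21 k213 7 (.s k51 k34 4 (.s k63 k42 6 (.s
  k55 k59 1 (.d k102 k196 k204 12 14))))))] .n)

def s170_191_137 : T TT 256 :=
  (.q k1 [(.s k21 k213 7 (.s k61 k41 5 (.s k105 k193 13 (.s k125 k65 5 (.d k253 k189 k169 7 13))))),
  (.s k3 k2 0 (.s k21 k213 7 (.s k41 k61 5 (.s k22 k60 6 (.s k23 k20 0 (.d k63 k43 k42 5 6)))))),
  (.s k3 k2 0 (.s k169 k253 13 (.s k129 k189 5 (.s k192 k66 8 (.s k64 k128 7 (.d k106 k127 k63 6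
  14))))))] (.c k61 (.l (.s k3 k2 0 (.s k21 k213 7 (.s k63 k42 6 (.s k23 k43 5 (.s k86 k212 8 (.d
  k169 k253 k252 13 14))))))) .n))

def s170_191_138 : T TT 256 :=
  (.q k154 [(.s k159 k144 2 (.s k213 k21 7 (.s k223 k16 10 (.s k31 k95 7 (.d k208 k218 k90 2
  10))))), (.s k21 k213 7 (.s k63 k42 6 (.s k106 k192 14 (.s k58 k202 11 (.s k48 k53 2 (.s k159 k144
  2 (.d k207 k111 k101 11 14))))))), (.s k16 k223 10 (.s k48 k32 3 (.s k144 k159 2 (.s k192 k96 11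
  (.s k64 k128 7 (.d k106 k127 k63 6 14)))))), (.s k16 k223 10 (.s k21 k213 7 (.s k48 k32 3 (.s k63
  k42 6 (.s k53 k58 2 (.d k101 k197 k207 11 14))))))] .n)

def s170_191_139 : T TT 256 :=
  (.q k1 [(.s k21 k213 7 (.s k61 k41 5 (.s k105 k193 13 (.s k125 k65 5 (.d k253 k189 k169 7 13))))),
  (.s k3 k2 0 (.s k21 k213 7 (.s k41 k61 5 (.s k22 k60 6 (.s k23 k20 0 (.d k63 k43 k42 5 6)))))),
  (.s k3 k2 0 (.s k169 k253 13 (.s k129 k189 5 (.s k192 k66 8 (.s k64 k128 7 (.d k106 k127 k63 6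
  14))))))] (.c k61 (.l (.s k3 k2 0 (.s k21 k213 7 (.s k63 k42 6 (.s k23 k43 5 (.s k86 k212 8 (.d
  k169 k253 k252 13 14))))))) .n))

def s170_191_140 : T TT 256 :=
  (.f k21 k213 7 (.q k157 [(.s k63 k42 6 (.s k153 k145 1 (.s k204 k110 12 (.s k68 k136 9 (.d k102
  k119 k51 4 14))))), (.s k153 k145 1 (.s k17 k221 9 (.s k25 k29 1 (.s k51 k34 4 (.s k102 k204 14
  (.s k55 k196 12 (.d k38 k12 k4 6 4))))))), (.s k63 k42 6 (.s k204 k110 12 (.s k68 k136 9 (.s k102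
  k119 4 (.s k196 k55 12 (.d k192 k106 k200 14 1))))))] (.c k102 (.l (.s k63 k42 6 (.s k106 k192 14
  (.s k153 k145 1 (.s k17 k221 9 (.s k59 k200 12 (.d k51 k55 k34 1 4))))))) (.c k153 (.f k63 k42 6
  (.l (.s k106 k192 14 (.s k110 k204 12 (.s k102 k98 1 (.s k119 k68 4 (.s k127 k64 6 (.s k76 k93 4
  (.d k115 k123 k89 1 6))))))))) (.c k204 (.l (.s k63 k42 6 (.s k106 k192 14 (.s k153 k145 1 (.s k17
  k221 9 (.s k51 k34 4 (.d k59 k200 k55 12 1))))))) .n)))))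

def s170_191_141 : T TT 256 :=
  (.q k1 [(.s k21 k213 7 (.s k61 k41 5 (.s k105 k193 13 (.s k125 k65 5 (.d k253 k189 k169 7 13))))),
  (.s k3 k2 0 (.s k21 k213 7 (.s k41 k61 5 (.s k22 k60 6 (.s k23 k20 0 (.d k63 k43 k42 5 6)))))),
  (.s k3 k2 0 (.s k169 k253 13 (.s k129 k189 5 (.s k192 k66 8 (.s k64 k128 7 (.d k106 k127 k63 6
  14))))))] (.c k61 (.l (.s k3 k2 0 (.s k21 k213 7 (.s k63 k42 6 (.s k23 k43 5 (.s k86 k212 8 (.d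
  k169 k253 k252 13 14))))))) .n))

def s170_191_142 : T TT 256 :=
  (.q k1 [(.s k21 k213 7 (.s k61 k41 5 (.s k105 k193 13 (.s k125 k65 5 (.d k253 k189 k169 7 13))))),
  (.s k3 k2 0 (.s k21 k213 7 (.s k41 k61 5 (.s k22 k60 6 (.s k23 k20 0 (.d k63 k43 k42 5 6)))))),
  (.s k3 k2 0 (.s k169 k253 13 (.s k129 k189 5 (.s k192 k66 8 (.s k64 k128 7 (.d k106 k127 k63 6
  14))))))] (.c k61 (.l (.s k3 k2 0 (.s k21 k213 7 (.s k63 k42 6 (.s k23 k43 5 (.s k86 k212 8 (.d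
  k169 k253 k252 13 14))))))) .n))

def s170_191_143 : T TT 256 :=
  (.f k21 k213 7 (.q k159 [(.s k63 k42 6 (.s k154 k144 2 (.s k207 k111 11 (.s k69 k138 10 (.d k101
  k117 k48 3 14))))), (.s k154 k144 2 (.s k16 k223 10 (.s k26 k31 2 (.s k48 k32 3 (.s k101 k207 14
  (.s k53 k197 11 (.d k37 k15 k5 6 3))))))), (.s k63 k42 6 (.s k207 k111 11 (.s k69 k138 10 (.s k101
  k117 3 (.s k197 k53 11 (.d k192 k106 k202 14 2))))))] (.c k101 (.l (.s k63 k42 6 (.s k106 k192 14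
  (.s k154 k144 2 (.s k16 k223 10 (.s k58 k202 11 (.d k48 k53 k32 2 3))))))) (.c k154 (.f k63 k42 6
  (.l (.s k106 k192 14 (.s k111 k207 11 (.s k101 k96 2 (.s k117 k69 3 (.s k127 k64 6 (.s k79 k95 3
  (.d k112 k122 k90 2 6))))))))) (.c k207 (.l (.s k63 k42 6 (.s k106 k192 14 (.s k154 k144 2 (.s k16
  k223 10 (.s k48 k32 3 (.d k58 k202 k53 11 2))))))) .n)))))

def s170_191_144 : T TT 256 :=
  (.q k1 [(.s k21 k213 7 (.s k61 k41 5 (.s k105 k193 13 (.s k125 k65 5 (.d k253 k189 k169 7 13))))),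
  (.s k3 k2 0 (.s k21 k213 7 (.s k41 k61 5 (.s k22 k60 6 (.s k23 k20 0 (.d k63 k43 k42 5 6)))))),
  (.s k3 k2 0 (.s k169 k253 13 (.s k129 k189 5 (.s k192 k66 8 (.s k64 k128 7 (.d k106 k127 k63 6
  14))))))] (.c k61 (.l (.s k3 k2 0 (.s k21 k213 7 (.s k63 k42 6 (.s k23 k43 5 (.s k86 k212 8 (.d
  k169 k253 k252 13 14))))))) .n))

def s170_191_145 : T TT 256 :=
  (.q k1 [(.s k21 k213 7 (.s k61 k41 5 (.s k105 k193 13 (.s k125 k65 5 (.d k253 k189 k169 7 13))))),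
  (.s k3 k2 0 (.s k21 k213 7 (.s k41 k61 5 (.s k22 k60 6 (.s k23 k20 0 (.d k63 k43 k42 5 6)))))),
  (.s k3 k2 0 (.s k169 k253 13 (.s k129 k189 5 (.s k192 k66 8 (.s k64 k128 7 (.d k106 k127 k63 6
  14))))))] (.c k61 (.l (.s k3 k2 0 (.s k21 k213 7 (.s k63 k42 6 (.s k23 k43 5 (.s k86 k212 8 (.d
  k169 k253 k252 13 14))))))) .n))

def s170_191_146 : T TT 256 :=
  (.q k1 [(.s k21 k213 7 (.s k61 k41 5 (.s k105 k193 13 (.s k125 k65 5 (.d k253 k189 k169 7 13))))),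
  (.s k3 k2 0 (.s k21 k213 7 (.s k41 k61 5 (.s k22 k60 6 (.s k23 k20 0 (.d k63 k43 k42 5 6)))))),
  (.s k3 k2 0 (.s k169 k253 13 (.s k129 k189 5 (.s k192 k66 8 (.s k64 k128 7 (.d k106 k127 k63 6
  14))))))] (.c k61 (.l (.s k3 k2 0 (.s k21 k213 7 (.s k63 k42 6 (.s k23 k43 5 (.s k86 k212 8 (.d
  k169 k253 k252 13 14))))))) .n))

def s170_191_147 : T TT 256 :=
  (.q k1 [(.s k21 k213 7 (.s k61 k41 5 (.s k105 k193 13 (.s k125 k65 5 (.d k253 k189 k169 7 13))))),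
  (.s k3 k2 0 (.s k21 k213 7 (.s k41 k61 5 (.s k22 k60 6 (.s k23 k20 0 (.d k63 k43 k42 5 6)))))),
  (.s k3 k2 0 (.s k169 k253 13 (.s k129 k189 5 (.s k192 k66 8 (.s k64 k128 7 (.d k106 k127 k63 6
  14))))))] (.c k61 (.l (.s k3 k2 0 (.s k21 k213 7 (.s k63 k42 6 (.s k23 k43 5 (.s k86 k212 8 (.d
  k169 k253 k252 13 14))))))) .n))

def s170_191_148 : T TT 256 :=
  (.q k1 [(.s k21 k213 7 (.s k61 k41 5 (.s k105 k193 13 (.s k125 k65 5 (.d k253 k189 k169 7 13))))),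
  (.s k3 k2 0 (.s k21 k213 7 (.s k41 k61 5 (.s k22 k60 6 (.s k23 k20 0 (.d k63 k43 k42 5 6)))))),
  (.s k3 k2 0 (.s k169 k253 13 (.s k129 k189 5 (.s k192 k66 8 (.s k64 k128 7 (.d k106 k127 k63 6
  14))))))] (.c k61 (.l (.s k3 k2 0 (.s k21 k213 7 (.s k63 k42 6 (.s k23 k43 5 (.s k86 k212 8 (.d
  k169 k253 k252 13 14))))))) .n))

def s170_191_150 : T TT 256 :=
  (.f k21 k213 7 (.q k189 [(.s k63 k42 6 (.s k169 k129 5 (.s k252 k126 8 (.s k84 k168 13 (.d k86 k87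
  k3 0 14))))), (.s k169 k129 5 (.s k1 k253 13 (.s k3 k2 0 (.s k41 k61 5 (.s k86 k252 14 (.s k23
  k212 8 (.d k22 k20 k60 0 6))))))), (.s k63 k42 6 (.s k106 k192 14 (.s k126 k252 8 (.s k127 k64 6
  (.s k125 k124 0 (.s k61 k253 7 (.d k105 k193 k65 13 5)))))))] (.c k130 (.q k190 [(.s k63 k42 6 (.s
  k252 k126 8 (.s k84 k168 13 (.s k86 k87 0 (.d k169 k129 k3 5 14))))), (.s k169 k129 5 (.s k1 k253
  13 (.s k3 k2 0 (.s k41 k61 5 (.s k86 k252 14 (.s k23 k212 8 (.d k22 k20 k60 0 6))))))), (.s k63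
  k42 6 (.s k126 k252 8 (.s k62 k254 7 (.s k61 k60 0 (.s k105 k193 13 (.d k125 k253 k65 7 5))))))]
  (.c k86 (.l (.s k63 k42 6 (.s k106 k192 14 (.s k169 k129 5 (.s k1 k253 13 (.s k43 k232 8 (.d k3 k2
  k23 0 5))))))) (.c k252 (.l (.s k63 k42 6 (.s k106 k192 14 (.s k169 k129 5 (.s k1 k253 13 (.s k3
  k2 0 (.d k43 k232 k23 8 5))))))) .n))) (.c k190 (.q k130 [(.s k169 k129 5 (.s k253 k1 13 (.s k125
  k61 7 (.d k65 k105 k195 5 8)))), (.s k63 k42 6 (.s k169 k129 5 (.s k252 k126 8 (.s k84 k168 13 (.d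
  k86 k87 k3 0 14))))), (.s k63 k42 6 (.s k65 k195 8 (.s k106 k192 14 (.s k64 k127 6 (.s k66 k67 0
  (.d k126 k86 k252 5 8))))))] .n) (.c k252 (.l (.s k63 k42 6 (.s k106 k192 14 (.s k169 k129 5 (.s
  k1 k253 13 (.s k3 k2 0 (.d k43 k232 k23 8 5))))))) .n)))))

def s170_191_151 : T TT 256 :=
  (.f k21 k213 7 (.q k90 [(.s k31 k208 10 (.s k16 k26 2 (.s k95 k80 2 (.d k223 k159 k154 7 10)))),
  (.s k63 k42 6 (.s k80 k95 2 (.s k106 k192 14 (.s k122 k74 3 (.d k240 k181 k160 10 11))))), (.s k31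
  k208 10 (.s k63 k42 6 (.s k15 k47 3 (.s k5 k10 2 (.d k165 k245 k240 11 14)))))] (.c k131 (.q k171
  [(.s k31 k208 10 (.s k16 k26 2 (.s k95 k80 2 (.d k223 k159 k154 7 10)))), (.s k63 k42 6 (.s k80
  k95 2 (.s k106 k192 14 (.s k122 k74 3 (.d k240 k181 k160 10 11))))), (.s k31 k208 10 (.s k63 k42 6
  (.s k15 k47 3 (.s k5 k10 2 (.d k165 k245 k240 11 14)))))] .n) (.c k171 (.q k131 [(.s k31 k208 10
  (.s k16 k26 2 (.s k95 k80 2 (.d k223 k159 k154 7 10)))), (.s k63 k42 6 (.s k80 k95 2 (.s k106 k192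
  14 (.s k122 k74 3 (.d k240 k181 k160 10 11))))), (.s k31 k208 10 (.s k63 k42 6 (.s k15 k47 3 (.s
  k5 k10 2 (.d k165 k245 k240 11 14)))))] (.c k168 (.q k169 [(.s k31 k208 10 (.s k16 k26 2 (.s k95
  k80 2 (.d k223 k159 k154 7 10)))), (.s k1 k253 13 (.s k61 k41 5 (.s k129 k189 5 (.d k193 k65 k105
  7 13))))] .n) (.c k169 (.q k168 [(.s k31 k208 10 (.s k16 k26 2 (.s k95 k80 2 (.d k223 k159 k154 7
  10)))), (.s k63 k42 6 (.s k80 k95 2 (.s k106 k192 14 (.s k122 k74 3 (.d k240 k181 k160 10 11))))),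
  (.s k31 k208 10 (.s k63 k42 6 (.s k15 k47 3 (.s k5 k10 2 (.d k165 k245 k240 11 14)))))] .n) .n)))
  .n))))

def s170_191_152 : T TT 256 :=
  (.q k1 [(.s k21 k213 7 (.s k61 k41 5 (.s k105 k193 13 (.s k125 k65 5 (.d k253 k189 k169 7 13))))),
  (.s k3 k2 0 (.s k21 k213 7 (.s k41 k61 5 (.s k22 k60 6 (.s k23 k20 0 (.d k63 k43 k42 5 6)))))),
  (.s k3 k2 0 (.s k169 k253 13 (.s k129 k189 5 (.s k192 k66 8 (.s k64 k128 7 (.d k106 k127 k63 6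
  14))))))] (.c k61 (.l (.s k3 k2 0 (.s k21 k213 7 (.s k63 k42 6 (.s k23 k43 5 (.s k86 k212 8 (.d
  k169 k253 k252 13 14))))))) .n))

def s170_191_153 : T TT 256 :=
  (.f k21 k213 7 (.q k183 [(.s k63 k42 6 (.s k166 k132 4 (.s k243 k123 9 (.s k81 k162 12 (.d k89 k93
  k12 1 14))))), (.s k166 k132 4 (.s k4 k247 12 (.s k12 k8 1 (.s k38 k55 4 (.s k89 k243 14 (.s k29
  k209 9 (.d k25 k17 k51 1 6))))))), (.s k63 k42 6 (.s k106 k192 14 (.s k123 k243 9 (.s k127 k64 6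
  (.s k119 k115 1 (.s k55 k247 7 (.d k102 k196 k68 12 4)))))))] (.c k136 (.q k187 [(.s k63 k42 6 (.s
  k243 k123 9 (.s k81 k162 12 (.s k89 k93 1 (.d k166 k132 k12 4 14))))), (.s k166 k132 4 (.s k4 k247
  12 (.s k12 k8 1 (.s k38 k55 4 (.s k89 k243 14 (.s k29 k209 9 (.d k25 k17 k51 1 6))))))), (.s k63
  k42 6 (.s k123 k243 9 (.s k59 k251 7 (.s k55 k51 1 (.s k102 k196 12 (.d k119 k247 k68 7 4))))))]
  (.c k89 (.l (.s k63 k42 6 (.s k106 k192 14 (.s k166 k132 4 (.s k4 k247 12 (.s k46 k226 9 (.d k12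
  k8 k29 1 4))))))) (.c k243 (.l (.s k63 k42 6 (.s k106 k192 14 (.s k166 k132 4 (.s k4 k247 12 (.s
  k12 k8 1 (.d k46 k226 k29 9 4))))))) .n))) (.c k187 (.q k136 [(.s k166 k132 4 (.s k247 k4 12 (.s
  k119 k55 7 (.d k68 k102 k204 4 9)))), (.s k63 k42 6 (.s k166 k132 4 (.s k243 k123 9 (.s k81 k162
  12 (.d k89 k93 k12 1 14))))), (.s k63 k42 6 (.s k68 k204 9 (.s k106 k192 14 (.s k64 k127 6 (.s k72
  k76 1 (.d k123 k89 k243 4 9))))))] .n) (.c k243 (.l (.s k63 k42 6 (.s k106 k192 14 (.s k166 k132 4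
  (.s k4 k247 12 (.s k12 k8 1 (.d k46 k226 k29 9 4))))))) .n)))))

def s170_191_154 : T TT 256 :=
  (.f k21 k213 7 (.q k181 [(.s k63 k42 6 (.s k165 k133 3 (.s k240 k122 10 (.s k80 k160 11 (.d k90
  k95 k15 2 14))))), (.s k165 k133 3 (.s k5 k245 11 (.s k15 k10 2 (.s k37 k53 3 (.s k90 k240 14 (.s
  k31 k208 10 (.d k26 k16 k48 2 6))))))), (.s k63 k42 6 (.s k106 k192 14 (.s k122 k240 10 (.s k127
  k64 6 (.s k117 k112 2 (.s k53 k245 7 (.d k101 k197 k69 11 3)))))))] (.c k138 (.q k186 [(.s k63 k42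
  6 (.s k240 k122 10 (.s k80 k160 11 (.s k90 k95 2 (.d k165 k133 k15 3 14))))), (.s k165 k133 3 (.s
  k5 k245 11 (.s k15 k10 2 (.s k37 k53 3 (.s k90 k240 14 (.s k31 k208 10 (.d k26 k16 k48 2 6))))))),
  (.s k63 k42 6 (.s k122 k240 10 (.s k58 k250 7 (.s k53 k48 2 (.s k101 k197 11 (.d k117 k245 k69 7
  3))))))] (.c k90 (.l (.s k63 k42 6 (.s k106 k192 14 (.s k165 k133 3 (.s k5 k245 11 (.s k47 k224 10
  (.d k15 k10 k31 2 3))))))) (.c k240 (.l (.s k63 k42 6 (.s k106 k192 14 (.s k165 k133 3 (.s k5 k245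
  11 (.s k15 k10 2 (.d k47 k224 k31 10 3))))))) .n))) (.c k186 (.q k138 [(.s k165 k133 3 (.s k245 k5
  11 (.s k117 k53 7 (.d k69 k101 k207 3 10)))), (.s k63 k42 6 (.s k165 k133 3 (.s k240 k122 10 (.s
  k80 k160 11 (.d k90 k95 k15 2 14))))), (.s k63 k42 6 (.s k69 k207 10 (.s k106 k192 14 (.s k64 k127
  6 (.s k74 k79 2 (.d k122 k90 k240 3 10))))))] .n) (.c k240 (.l (.s k63 k42 6 (.s k106 k192 14 (.s
  k165 k133 3 (.s k5 k245 11 (.s k15 k10 2 (.d k47 k224 k31 10 3))))))) .n)))))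

def s170_191_155 : T TT 256 :=
  (.q k1 [(.s k21 k213 7 (.s k61 k41 5 (.s k105 k193 13 (.s k125 k65 5 (.d k253 k189 k169 7 13))))),
  (.s k3 k2 0 (.s k21 k213 7 (.s k41 k61 5 (.s k22 k60 6 (.s k23 k20 0 (.d k63 k43 k42 5 6)))))),
  (.s k3 k2 0 (.s k169 k253 13 (.s k129 k189 5 (.s k192 k66 8 (.s k64 k128 7 (.d k106 k127 k63 6
  14))))))] (.c k61 (.l (.s k3 k2 0 (.s k21 k213 7 (.s k63 k42 6 (.s k23 k43 5 (.s k86 k212 8 (.d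
  k169 k253 k252 13 14))))))) .n))

def s170_191_156 : T TT 256 :=
  (.q k1 [(.s k21 k213 7 (.s k61 k41 5 (.s k105 k193 13 (.s k125 k65 5 (.d k253 k189 k169 7 13))))),
  (.s k3 k2 0 (.s k21 k213 7 (.s k41 k61 5 (.s k22 k60 6 (.s k23 k20 0 (.d k63 k43 k42 5 6)))))),
  (.s k3 k2 0 (.s k169 k253 13 (.s k129 k189 5 (.s k192 k66 8 (.s k64 k128 7 (.d k106 k127 k63 6
  14))))))] (.c k61 (.l (.s k3 k2 0 (.s k21 k213 7 (.s k63 k42 6 (.s k23 k43 5 (.s k86 k212 8 (.d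
  k169 k253 k252 13 14))))))) .n))

def s170_191_157 : T TT 256 :=
  (.f k21 k213 7 (.q k90 [(.s k31 k208 10 (.s k16 k26 2 (.s k95 k80 2 (.d k223 k159 k154 7 10)))),
  (.s k63 k42 6 (.s k80 k95 2 (.s k106 k192 14 (.s k122 k74 3 (.d k240 k181 k160 10 11))))), (.s k31
  k208 10 (.s k63 k42 6 (.s k15 k47 3 (.s k5 k10 2 (.d k165 k245 k240 11 14)))))] (.c k140 (.q k174
  [(.s k31 k208 10 (.s k16 k26 2 (.s k95 k80 2 (.d k223 k159 k154 7 10)))), (.s k63 k42 6 (.s k80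
  k95 2 (.s k106 k192 14 (.s k122 k74 3 (.d k240 k181 k160 10 11))))), (.s k31 k208 10 (.s k63 k42 6
  (.s k15 k47 3 (.s k5 k10 2 (.d k165 k245 k240 11 14)))))] .n) (.c k174 (.q k140 [(.s k31 k208 10
  (.s k16 k26 2 (.s k95 k80 2 (.d k223 k159 k154 7 10)))), (.s k63 k42 6 (.s k80 k95 2 (.s k106 k192
  14 (.s k122 k74 3 (.d k240 k181 k160 10 11))))), (.s k31 k208 10 (.s k63 k42 6 (.s k15 k47 3 (.s
  k5 k10 2 (.d k165 k245 k240 11 14)))))] (.c k162 (.q k166 [(.s k31 k208 10 (.s k16 k26 2 (.s k95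
  k80 2 (.d k223 k159 k154 7 10)))), (.s k4 k247 12 (.s k55 k38 4 (.s k132 k183 4 (.d k196 k68 k102
  7 12))))] .n) (.c k166 (.q k162 [(.s k31 k208 10 (.s k16 k26 2 (.s k95 k80 2 (.d k223 k159 k154 7
  10)))), (.s k63 k42 6 (.s k80 k95 2 (.s k106 k192 14 (.s k122 k74 3 (.d k240 k181 k160 10 11))))),
  (.s k31 k208 10 (.s k63 k42 6 (.s k15 k47 3 (.s k5 k10 2 (.d k165 k245 k240 11 14)))))] .n) .n)))
  .n))))

def s170_191_158 : T TT 256 :=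
  (.q k1 [(.s k21 k213 7 (.s k61 k41 5 (.s k105 k193 13 (.s k125 k65 5 (.d k253 k189 k169 7 13))))),
  (.s k3 k2 0 (.s k21 k213 7 (.s k41 k61 5 (.s k22 k60 6 (.s k23 k20 0 (.d k63 k43 k42 5 6)))))),
  (.s k3 k2 0 (.s k169 k253 13 (.s k129 k189 5 (.s k192 k66 8 (.s k64 k128 7 (.d k106 k127 k63 6
  14))))))] (.c k61 (.l (.s k3 k2 0 (.s k21 k213 7 (.s k63 k42 6 (.s k23 k43 5 (.s k86 k212 8 (.d
  k169 k253 k252 13 14))))))) .n))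

def s170_191_159 : T TT 256 :=
  (.f k21 k213 7 (.q k53 [(.s k5 k37 3 (.s k101 k197 11 (.s k117 k69 3 (.d k245 k181 k165 7 11)))),
  (.s k37 k5 3 (.s k63 k42 6 (.s k48 k58 2 (.s k26 k15 6 (.d k16 k31 k32 2 3))))), (.s k63 k42 6 (.s
  k48 k58 2 (.s k101 k197 11 (.s k69 k117 3 (.d k207 k138 k154 10 14)))))] (.c k143 (.q k175 [(.s k5
  k37 3 (.s k101 k197 11 (.s k117 k69 3 (.d k245 k181 k165 7 11)))), (.s k37 k5 3 (.s k63 k42 6 (.s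
  k48 k58 2 (.s k16 k32 3 (.d k26 k31 k15 2 6))))), (.s k63 k42 6 (.s k48 k58 2 (.s k101 k197 11 (.s
  k69 k117 3 (.d k207 k138 k154 10 14)))))] (.c k101 (.l (.s k5 k37 3 (.s k15 k10 2 (.s k95 k255 11
  (.s k90 k80 2 (.d k165 k245 k240 11 14)))))) .n)) (.c k175 (.q k143 [(.s k5 k37 3 (.s k101 k197 11
  (.s k117 k69 3 (.d k245 k165 k181 11 7)))), (.s k37 k5 3 (.s k63 k42 6 (.s k48 k58 2 (.s k16 k32 3
  (.d k26 k31 k15 2 6))))), (.s k63 k42 6 (.s k48 k58 2 (.s k101 k197 11 (.s k69 k117 3 (.d k207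
  k138 k154 10 14)))))] (.c k101 (.l (.s k5 k37 3 (.s k165 k245 11 (.s k133 k181 3 (.s k138 k128 2
  (.d k69 k197 k207 7 10)))))) (.c k160 (.q k165 [(.d k5 k37 k245 3 11), (.s k181 k133 3 (.s k117
  k245 7 (.d k101 k197 k69 11 3)))] (.c k245 (.l (.s k37 k5 3 (.d k101 k229 k197 7 11))) .n)) (.c
  k165 (.q k160 [(.s k5 k37 3 (.s k15 k10 2 (.s k101 k197 11 (.s k69 k117 3 (.d k207 k79 k138 7
  10))))), (.s k63 k42 6 (.s k48 k58 2 (.s k32 k16 3 (.s k96 k224 7 (.d k192 k106 k144 14 11)))))]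
  (.c k10 (.l (.s k37 k5 3 (.s k63 k42 6 (.s k48 k58 2 (.s k26 k15 6 (.d k16 k31 k32 2 3)))))) .n))
  .n)))) .n))))

def s170_191_160 : T TT 256 :=
  (.q k165 [(.s k181 k133 3 (.s k213 k21 7 (.s k245 k5 11 (.s k53 k117 7 (.d k197 k229 k101 3
  11))))), (.s k21 k213 7 (.s k63 k42 6 (.s k106 k192 14 (.s k47 k224 10 (.s k15 k31 3 (.s k181 k133
  3 (.d k240 k122 k90 10 14))))))), (.s k5 k245 11 (.s k15 k10 2 (.s k133 k181 3 (.s k192 k74 10 (.s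
  k64 k128 7 (.d k106 k127 k63 6 14)))))), (.s k5 k245 11 (.s k15 k10 2 (.s k21 k213 7 (.s k63 k42 6
  (.s k31 k47 3 (.d k90 k208 k240 10 14))))))] .n)

def s170_191_161 : T TT 256 :=
  (.q k1 [(.s k21 k213 7 (.s k61 k41 5 (.s k105 k193 13 (.s k125 k65 5 (.d k253 k189 k169 7 13))))),
  (.s k3 k2 0 (.s k21 k213 7 (.s k41 k61 5 (.s k22 k60 6 (.s k23 k20 0 (.d k63 k43 k42 5 6)))))),
  (.s k3 k2 0 (.s k169 k253 13 (.s k129 k189 5 (.s k192 k66 8 (.s k64 k128 7 (.d k106 k127 k63 6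
  14))))))] (.c k61 (.l (.s k3 k2 0 (.s k21 k213 7 (.s k63 k42 6 (.s k23 k43 5 (.s k86 k212 8 (.d
  k169 k253 k252 13 14))))))) .n))

def s170_191_162 : T TT 256 :=
  (.q k166 [(.s k183 k132 4 (.s k213 k21 7 (.s k247 k4 12 (.s k55 k119 7 (.d k196 k230 k102 4
  12))))), (.s k21 k213 7 (.s k63 k42 6 (.s k106 k192 14 (.s k46 k226 9 (.s k12 k29 4 (.s k183 k132
  4 (.d k243 k123 k89 9 14))))))), (.s k4 k247 12 (.s k12 k8 1 (.s k132 k183 4 (.s k192 k72 9 (.s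
  k64 k128 7 (.d k106 k127 k63 6 14)))))), (.s k4 k247 12 (.s k12 k8 1 (.s k21 k213 7 (.s k63 k42 6
  (.s k29 k46 4 (.d k89 k209 k243 9 14))))))] .n)

def s170_191_163 : T TT 256 :=
  (.q k1 [(.s k21 k213 7 (.s k61 k41 5 (.s k105 k193 13 (.s k125 k65 5 (.d k253 k189 k169 7 13))))),
  (.s k3 k2 0 (.s k21 k213 7 (.s k41 k61 5 (.s k22 k60 6 (.s k23 k20 0 (.d k63 k43 k42 5 6)))))),
  (.s k3 k2 0 (.s k169 k253 13 (.s k129 k189 5 (.s k192 k66 8 (.s k64 k128 7 (.d k106 k127 k63 6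
  14))))))] (.c k61 (.l (.s k3 k2 0 (.s k21 k213 7 (.s k63 k42 6 (.s k23 k43 5 (.s k86 k212 8 (.d
  k169 k253 k252 13 14))))))) .n))

def s170_191_164 : T TT 256 :=
  (.q k1 [(.s k21 k213 7 (.s k61 k41 5 (.s k105 k193 13 (.s k125 k65 5 (.d k253 k189 k169 7 13))))),
  (.s k3 k2 0 (.s k21 k213 7 (.s k41 k61 5 (.s k22 k60 6 (.s k23 k20 0 (.d k63 k43 k42 5 6)))))),
  (.s k3 k2 0 (.s k169 k253 13 (.s k129 k189 5 (.s k192 k66 8 (.s k64 k128 7 (.d k106 k127 k63 6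
  14))))))] (.c k61 (.l (.s k3 k2 0 (.s k21 k213 7 (.s k63 k42 6 (.s k23 k43 5 (.s k86 k212 8 (.d
  k169 k253 k252 13 14))))))) .n))

def s170_191_165 : T TT 256 :=
  (.f k21 k213 7 (.q k159 [(.s k63 k42 6 (.s k154 k144 2 (.s k207 k111 11 (.s k69 k138 10 (.d k101
  k117 k48 3 14))))), (.s k154 k144 2 (.s k16 k223 10 (.s k26 k31 2 (.s k48 k32 3 (.s k101 k207 14
  (.s k53 k197 11 (.d k37 k5 k15 3 6))))))), (.s k63 k42 6 (.s k106 k192 14 (.s k111 k207 11 (.s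
  k127 k64 6 (.s k95 k79 3 (.s k31 k223 7 (.d k90 k208 k80 10 2)))))))] (.c k160 (.q k175 [(.s k63
  k42 6 (.s k207 k111 11 (.s k69 k138 10 (.s k101 k117 3 (.d k154 k144 k48 2 14))))), (.s k154 k144
  2 (.s k16 k223 10 (.s k26 k31 2 (.s k48 k32 3 (.s k101 k207 14 (.s k53 k197 11 (.d k37 k5 k15 3
  6))))))), (.s k63 k42 6 (.s k111 k207 11 (.s k47 k239 7 (.s k31 k15 3 (.s k90 k208 10 (.d k95 k223
  k80 7 2))))))] (.c k101 (.l (.s k63 k42 6 (.s k106 k192 14 (.s k154 k144 2 (.s k16 k223 10 (.s k58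
  k202 11 (.d k48 k53 k32 2 3))))))) (.c k207 (.l (.s k63 k42 6 (.s k106 k192 14 (.s k154 k144 2 (.s
  k16 k223 10 (.s k48 k32 3 (.d k58 k202 k53 11 2))))))) .n))) (.c k175 (.q k160 [(.s k154 k144 2
  (.s k223 k16 10 (.s k95 k31 7 (.d k80 k90 k240 2 11)))), (.s k63 k42 6 (.s k154 k144 2 (.s k207
  k111 11 (.s k69 k138 10 (.d k101 k117 k48 3 14))))), (.s k63 k42 6 (.s k80 k240 11 (.s k106 k192
  14 (.s k64 k127 6 (.s k96 k112 3 (.d k111 k101 k207 2 11))))))] .n) (.c k207 (.l (.s k63 k42 6 (.s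
  k106 k192 14 (.s k154 k144 2 (.s k16 k223 10 (.s k48 k32 3 (.d k58 k202 k53 11 2))))))) .n)))))

def s170_191_166 : T TT 256 :=
  (.f k21 k213 7 (.q k153 [(.s k17 k221 9 (.s k29 k25 1 (.s k145 k157 1 (.d k209 k81 k89 7 9)))),
  (.s k63 k42 6 (.s k157 k145 1 (.s k204 k110 12 (.s k68 k136 9 (.d k102 k119 k51 4 14))))), (.s k17
  k221 9 (.s k51 k34 4 (.s k63 k42 6 (.s k59 k55 1 (.d k106 k200 k192 12 14)))))] (.c k162 (.q k174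
  [(.s k17 k221 9 (.s k29 k25 1 (.s k145 k157 1 (.d k209 k81 k89 7 9)))), (.s k63 k42 6 (.s k157
  k145 1 (.s k204 k110 12 (.s k68 k136 9 (.d k102 k119 k51 4 14))))), (.s k17 k221 9 (.s k51 k34 4
  (.s k63 k42 6 (.s k59 k55 1 (.d k106 k200 k192 12 14)))))] .n) (.c k174 (.q k162 [(.s k17 k221 9
  (.s k81 k243 12 (.d k145 k157 k209 1 7))), (.s k63 k42 6 (.s k157 k145 1 (.s k204 k110 12 (.s k68
  k136 9 (.d k102 k119 k51 4 14)))))] (.c k140 (.l (.s k157 k145 1 (.s k81 k243 12 (.s k221 k17 9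
  (.d k93 k89 k29 1 7))))) (.c k145 (.l (.s k17 k221 9 (.s k25 k29 1 (.s k81 k243 12 (.d k89 k93
  k217 1 7))))) (.c k157 (.q k140 [(.s k17 k221 9 (.s k29 k25 1 (.s k81 k243 12 (.d k89 k93 k209 1
  9)))), (.s k63 k42 6 (.s k106 k192 14 (.s k59 k200 12 (.s k51 k55 1 (.d k17 k34 k221 4 9)))))] (.c
  k17 (.q k1 [(.s k61 k41 5 (.s k105 k193 13 (.s k125 k65 5 (.d k253 k189 k169 7 13)))), (.s k3 k2 0
  (.s k63 k42 6 (.s k43 k23 5 (.s k106 k192 14 (.d k169 k232 k253 8 13))))), (.s k3 k2 0 (.s k41 k61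
  5 (.s k22 k60 6 (.s k23 k20 0 (.d k63 k43 k42 5 6)))))] .n) (.c k221 (.l (.s k63 k42 6 (.s k106
  k192 14 (.s k59 k200 12 (.s k51 k55 1 (.s k34 k17 4 (.s k98 k226 7 (.d k102 k204 k110 14 1))))))))
  .n))) .n)))) .n))))

def s170_191_167 : T TT 256 :=
  (.q k1 [(.s k21 k213 7 (.s k61 k41 5 (.s k105 k193 13 (.s k125 k65 5 (.d k253 k189 k169 7 13))))),
  (.s k3 k2 0 (.s k21 k213 7 (.s k41 k61 5 (.s k22 k60 6 (.s k23 k20 0 (.d k63 k43 k42 5 6)))))),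
  (.s k3 k2 0 (.s k169 k253 13 (.s k129 k189 5 (.s k192 k66 8 (.s k64 k128 7 (.d k106 k127 k63 6
  14))))))] (.c k61 (.l (.s k3 k2 0 (.s k21 k213 7 (.s k63 k42 6 (.s k23 k43 5 (.s k86 k212 8 (.d
  k169 k253 k252 13 14))))))) .n))

def s170_191_168 : T TT 256 :=
  (.q k169 [(.s k189 k129 5 (.s k213 k21 7 (.s k253 k1 13 (.s k61 k125 7 (.d k193 k233 k105 5
  13))))), (.s k21 k213 7 (.s k63 k42 6 (.s k106 k192 14 (.s k43 k232 8 (.s k3 k23 5 (.s k189 k129 5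
  (.d k252 k126 k86 8 14))))))), (.s k1 k253 13 (.s k3 k2 0 (.s k129 k189 5 (.s k192 k66 8 (.s k64
  k128 7 (.d k106 k127 k63 6 14)))))), (.s k1 k253 13 (.s k3 k2 0 (.s k21 k213 7 (.s k63 k42 6 (.s
  k23 k43 5 (.d k86 k212 k252 8 14))))))] .n)

def s170_191_169 : T TT 256 :=
  (.f k21 k213 7 (.q k151 [(.s k63 k42 6 (.s k150 k148 0 (.s k195 k107 13 (.s k65 k130 8 (.d k105
  k125 k60 5 14))))), (.s k150 k148 0 (.s k20 k215 8 (.s k22 k23 0 (.s k60 k40 5 (.s k105 k195 14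
  (.s k61 k193 13 (.d k41 k1 k3 5 6))))))), (.s k63 k42 6 (.s k106 k192 14 (.s k107 k195 13 (.s k127
  k64 6 (.s k87 k67 5 (.s k23 k215 7 (.d k86 k212 k84 8 0)))))))] (.c k168 (.q k171 [(.s k63 k42 6
  (.s k195 k107 13 (.s k65 k130 8 (.s k105 k125 5 (.d k150 k148 k60 0 14))))), (.s k150 k148 0 (.s
  k20 k215 8 (.s k22 k23 0 (.s k60 k40 5 (.s k105 k195 14 (.s k61 k193 13 (.d k41 k1 k3 5 6))))))),
  (.s k63 k42 6 (.s k107 k195 13 (.s k43 k235 7 (.s k23 k3 5 (.s k86 k212 8 (.d k87 k215 k84 7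
  0))))))] (.c k105 (.l (.s k63 k42 6 (.s k106 k192 14 (.s k150 k148 0 (.s k20 k215 8 (.s k62 k194
  13 (.d k60 k61 k40 0 5))))))) (.c k195 (.l (.s k63 k42 6 (.s k106 k192 14 (.s k150 k148 0 (.s k20
  k215 8 (.s k60 k40 5 (.d k62 k194 k61 13 0))))))) .n))) (.c k171 (.q k168 [(.s k150 k148 0 (.s
  k215 k20 8 (.s k87 k23 7 (.d k84 k86 k252 0 13)))), (.s k63 k42 6 (.s k150 k148 0 (.s k195 k107 13
  (.s k65 k130 8 (.d k105 k125 k60 5 14))))), (.s k63 k42 6 (.s k84 k252 13 (.s k106 k192 14 (.s k64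
  k127 6 (.s k104 k124 5 (.d k107 k105 k195 0 13))))))] .n) (.c k195 (.l (.s k63 k42 6 (.s k106 k192
  14 (.s k150 k148 0 (.s k20 k215 8 (.s k60 k40 5 (.d k62 k194 k61 13 0))))))) .n)))))

def s170_191_171 : T TT 256 :=
  (.f k21 k213 7 (.q k169 [(.s k1 k253 13 (.s k61 k41 5 (.s k129 k189 5 (.d k193 k65 k105 7 13)))),
  (.s k63 k42 6 (.s k189 k129 5 (.s k252 k126 8 (.s k84 k168 13 (.d k86 k87 k3 0 14))))), (.s k1
  k253 13 (.s k3 k2 0 (.s k63 k42 6 (.s k43 k23 5 (.d k106 k232 k192 8 14)))))] (.c k131 (.q k151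
  [(.s k1 k253 13 (.s k61 k41 5 (.s k129 k189 5 (.d k193 k65 k105 7 13)))), (.s k63 k42 6 (.s k150
  k148 0 (.s k20 k215 8 (.s k60 k40 5 (.d k195 k105 k107 14 13))))), (.s k1 k253 13 (.s k3 k2 0 (.s
  k63 k42 6 (.s k43 k23 5 (.d k106 k232 k192 8 14)))))] .n) (.c k151 (.q k131 [(.s k1 k253 13 (.s
  k61 k41 5 (.s k129 k189 5 (.d k193 k65 k105 7 13)))), (.s k63 k42 6 (.s k129 k189 5 (.s k128 k130
  0 (.d k192 k106 k64 14 7)))), (.s k1 k253 13 (.s k3 k2 0 (.s k63 k42 6 (.s k23 k43 5 (.d k86 k212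
  k252 8 14)))))] .n) .n))))

def s170_191_172 : T TT 256 :=
  (.q k1 [(.s k21 k213 7 (.s k61 k41 5 (.s k105 k193 13 (.s k125 k65 5 (.d k253 k189 k169 7 13))))),
  (.s k3 k2 0 (.s k21 k213 7 (.s k41 k61 5 (.s k22 k60 6 (.s k23 k20 0 (.d k63 k43 k42 5 6)))))),
  (.s k3 k2 0 (.s k169 k253 13 (.s k129 k189 5 (.s k192 k66 8 (.s k64 k128 7 (.d k106 k127 k63 6
  14))))))] (.c k61 (.l (.s k3 k2 0 (.s k21 k213 7 (.s k63 k42 6 (.s k23 k43 5 (.s k86 k212 8 (.d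
  k169 k253 k252 13 14))))))) .n))

def s170_191_173 : T TT 256 :=
  (.q k1 [(.s k21 k213 7 (.s k61 k41 5 (.s k105 k193 13 (.s k125 k65 5 (.d k253 k189 k169 7 13))))),
  (.s k3 k2 0 (.s k21 k213 7 (.s k41 k61 5 (.s k22 k60 6 (.s k23 k20 0 (.d k63 k43 k42 5 6)))))),
  (.s k3 k2 0 (.s k169 k253 13 (.s k129 k189 5 (.s k192 k66 8 (.s k64 k128 7 (.d k106 k127 k63 6
  14))))))] (.c k61 (.l (.s k3 k2 0 (.s k21 k213 7 (.s k63 k42 6 (.s k23 k43 5 (.s k86 k212 8 (.d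
  k169 k253 k252 13 14))))))) .n))

def s170_191_174 : T TT 256 :=
  (.f k21 k213 7 (.q k166 [(.s k4 k247 12 (.s k55 k38 4 (.s k132 k183 4 (.d k196 k68 k102 7 12)))),
  (.s k63 k42 6 (.s k183 k132 4 (.s k243 k123 9 (.s k81 k162 12 (.d k89 k93 k12 1 14))))), (.s k4
  k247 12 (.s k12 k8 1 (.s k63 k42 6 (.s k46 k29 4 (.d k106 k226 k192 9 14)))))] (.c k140 (.q k157
  [(.s k4 k247 12 (.s k55 k38 4 (.s k132 k183 4 (.d k196 k68 k102 7 12)))), (.s k63 k42 6 (.s k153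
  k145 1 (.s k17 k221 9 (.s k51 k34 4 (.d k204 k102 k110 14 12))))), (.s k4 k247 12 (.s k12 k8 1 (.s
  k63 k42 6 (.s k46 k29 4 (.d k106 k226 k192 9 14)))))] .n) (.c k157 (.q k140 [(.s k4 k247 12 (.s
  k55 k38 4 (.s k132 k183 4 (.d k196 k68 k102 7 12)))), (.s k63 k42 6 (.s k132 k183 4 (.s k128 k136
  1 (.d k192 k106 k64 14 7)))), (.s k4 k247 12 (.s k12 k8 1 (.s k63 k42 6 (.s k29 k46 4 (.d k89 k209
  k243 9 14)))))] .n) .n))))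

def s170_191_175 : T TT 256 :=
  (.f k21 k213 7 (.q k159 [(.s k63 k42 6 (.s k154 k144 2 (.s k207 k111 11 (.s k69 k138 10 (.d k101
  k117 k48 3 14))))), (.s k154 k144 2 (.s k16 k223 10 (.s k26 k31 2 (.s k48 k32 3 (.s k101 k207 14
  (.s k53 k197 11 (.d k37 k5 k15 3 6))))))), (.s k63 k42 6 (.s k106 k192 14 (.s k111 k207 11 (.s
  k127 k64 6 (.s k95 k79 3 (.s k31 k223 7 (.d k90 k208 k80 10 2)))))))] (.c k160 (.q k165 [(.s k5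
  k245 11 (.s k53 k37 3 (.s k133 k181 3 (.d k197 k69 k101 7 11)))), (.s k63 k42 6 (.s k106 k192 14
  (.s k47 k224 10 (.s k15 k31 3 (.d k5 k10 k245 2 11))))), (.s k63 k42 6 (.s k154 k144 2 (.s k16
  k223 10 (.s k48 k32 3 (.d k207 k101 k111 14 11)))))] .n) (.c k165 (.q k160 [(.s k154 k144 2 (.s
  k223 k16 10 (.s k95 k31 7 (.d k80 k90 k240 2 11)))), (.s k63 k42 6 (.s k154 k144 2 (.s k207 k111
  11 (.s k69 k138 10 (.d k101 k117 k48 3 14))))), (.s k63 k42 6 (.s k80 k240 11 (.s k106 k192 14 (.s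
  k64 k127 6 (.s k96 k112 3 (.d k111 k101 k207 2 11))))))] .n) (.c k207 (.l (.s k63 k42 6 (.s k106
  k192 14 (.s k154 k144 2 (.s k16 k223 10 (.s k48 k32 3 (.d k58 k202 k53 11 2))))))) (.c k239 (.l
  (.s k63 k42 6 (.s k106 k192 14 (.s k154 k144 2 (.s k16 k223 10 (.s k58 k202 11 (.d k48 k53 k32 2
  3))))))) .n))))))

def s170_191_176 : T TT 256 :=
  (.f k21 k213 7 (.q k181 [(.s k63 k42 6 (.s k165 k133 3 (.s k240 k122 10 (.s k80 k160 11 (.d k90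
  k95 k15 2 14))))), (.s k165 k133 3 (.s k5 k245 11 (.s k15 k10 2 (.s k37 k53 3 (.s k90 k240 14 (.s
  k31 k208 10 (.d k26 k48 k16 6 2))))))), (.s k63 k42 6 (.s k240 k122 10 (.s k80 k160 11 (.s k90 k95
  2 (.s k208 k31 10 (.d k192 k106 k224 14 3))))))] (.c k90 (.l (.s k63 k42 6 (.s k106 k192 14 (.s
  k165 k133 3 (.s k5 k245 11 (.s k47 k224 10 (.d k15 k10 k31 2 3))))))) (.c k165 (.f k63 k42 6 (.l
  (.s k106 k192 14 (.s k122 k240 10 (.s k90 k74 3 (.s k95 k80 2 (.s k127 k64 6 (.s k79 k111 3 (.d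
  k112 k117 k101 2 6))))))))) (.c k240 (.l (.s k63 k42 6 (.s k106 k192 14 (.s k165 k133 3 (.s k5
  k245 11 (.s k15 k10 2 (.d k47 k224 k31 10 3))))))) .n)))))

def s170_191_177 : T TT 256 :=
  (.q k1 [(.s k21 k213 7 (.s k61 k41 5 (.s k105 k193 13 (.s k125 k65 5 (.d k253 k189 k169 7 13))))),
  (.s k3 k2 0 (.s k21 k213 7 (.s k41 k61 5 (.s k22 k60 6 (.s k23 k20 0 (.d k63 k43 k42 5 6)))))),
  (.s k3 k2 0 (.s k169 k253 13 (.s k129 k189 5 (.s k192 k66 8 (.s k64 k128 7 (.d k106 k127 k63 6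
  14))))))] (.c k61 (.l (.s k3 k2 0 (.s k21 k213 7 (.s k63 k42 6 (.s k23 k43 5 (.s k86 k212 8 (.d
  k169 k253 k252 13 14))))))) .n))

def s170_191_178 : T TT 256 :=
  (.q k1 [(.s k21 k213 7 (.s k61 k41 5 (.s k105 k193 13 (.s k125 k65 5 (.d k253 k189 k169 7 13))))),
  (.s k3 k2 0 (.s k21 k213 7 (.s k41 k61 5 (.s k22 k60 6 (.s k23 k20 0 (.d k63 k43 k42 5 6)))))),
  (.s k3 k2 0 (.s k169 k253 13 (.s k129 k189 5 (.s k192 k66 8 (.s k64 k128 7 (.d k106 k127 k63 6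
  14))))))] (.c k61 (.l (.s k3 k2 0 (.s k21 k213 7 (.s k63 k42 6 (.s k23 k43 5 (.s k86 k212 8 (.d
  k169 k253 k252 13 14))))))) .n))

def s170_191_179 : T TT 256 :=
  (.f k21 k213 7 (.q k183 [(.s k63 k42 6 (.s k166 k132 4 (.s k243 k123 9 (.s k81 k162 12 (.d k89 k93
  k12 1 14))))), (.s k166 k132 4 (.s k4 k247 12 (.s k12 k8 1 (.s k38 k55 4 (.s k89 k243 14 (.s k29
  k209 9 (.d k25 k51 k17 6 1))))))), (.s k63 k42 6 (.s k243 k123 9 (.s k81 k162 12 (.s k89 k93 1 (.s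
  k209 k29 9 (.d k192 k106 k226 14 4))))))] (.c k89 (.l (.s k63 k42 6 (.s k106 k192 14 (.s k166 k132
  4 (.s k4 k247 12 (.s k46 k226 9 (.d k12 k8 k29 1 4))))))) (.c k166 (.f k63 k42 6 (.l (.s k106 k192
  14 (.s k123 k243 9 (.s k89 k72 4 (.s k93 k81 1 (.s k127 k64 6 (.s k76 k110 4 (.d k115 k119 k102 1
  6))))))))) (.c k243 (.l (.s k63 k42 6 (.s k106 k192 14 (.s k166 k132 4 (.s k4 k247 12 (.s k12 k8 1
  (.d k46 k226 k29 9 4))))))) .n)))))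

def s170_191_180 : T TT 256 :=
  (.q k1 [(.s k21 k213 7 (.s k61 k41 5 (.s k105 k193 13 (.s k125 k65 5 (.d k253 k189 k169 7 13))))),
  (.s k3 k2 0 (.s k21 k213 7 (.s k41 k61 5 (.s k22 k60 6 (.s k23 k20 0 (.d k63 k43 k42 5 6)))))),
  (.s k3 k2 0 (.s k169 k253 13 (.s k129 k189 5 (.s k192 k66 8 (.s k64 k128 7 (.d k106 k127 k63 6
  14))))))] (.c k61 (.l (.s k3 k2 0 (.s k21 k213 7 (.s k63 k42 6 (.s k23 k43 5 (.s k86 k212 8 (.d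
  k169 k253 k252 13 14))))))) .n))

def s170_191_181 : T TT 256 :=
  (.f k21 k213 7 (.q k90 [(.s k31 k208 10 (.s k16 k26 2 (.s k95 k80 2 (.d k223 k159 k154 7 10)))),
  (.s k63 k42 6 (.s k80 k95 2 (.s k106 k192 14 (.s k64 k127 6 (.s k74 k122 3 (.s k79 k69 2 (.d k112
  k96 k101 3 6))))))), (.s k31 k208 10 (.s k63 k42 6 (.s k15 k47 3 (.s k5 k10 2 (.d k165 k245 k240
  11 14)))))] (.c k176 (.q k186 [(.s k31 k208 10 (.s k16 k26 2 (.s k95 k80 2 (.d k223 k159 k154 7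
  10)))), (.s k63 k42 6 (.s k80 k95 2 (.s k106 k192 14 (.s k64 k127 6 (.s k74 k122 3 (.s k79 k69 2
  (.d k112 k96 k101 3 6))))))), (.s k31 k208 10 (.s k63 k42 6 (.s k15 k47 3 (.s k5 k10 2 (.d k165
  k245 k240 11 14)))))] .n) (.c k186 (.q k176 [(.s k31 k208 10 (.s k16 k26 2 (.s k95 k80 2 (.d k223
  k154 k159 10 7)))), (.s k63 k42 6 (.s k80 k95 2 (.s k160 k240 11 (.s k128 k144 3 (.d k192 k106 k64
  14 7))))), (.s k31 k208 10 (.s k63 k42 6 (.s k15 k47 3 (.s k5 k10 2 (.d k165 k245 k240 11 14)))))]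
  (.c k138 (.q k154 [(.s k16 k223 10 (.d k26 k218 k31 7 2)), (.s k80 k95 2 (.s k160 k240 11 (.d k144
  k159 k128 2 3)))] .n) (.c k154 (.q k138 [(.s k80 k95 2 (.s k160 k240 11 (.s k144 k128 3 (.d k208
  k16 k31 7 10)))), (.s k63 k42 6 (.s k69 k207 10 (.s k106 k192 14 (.s k64 k127 6 (.d k74 k79 k122 2
  3))))), (.s k80 k95 2 (.s k208 k31 10 (.s k144 k16 7 (.d k160 k128 k240 3 11))))] .n) .n))) .n))))

def s170_191_182 : T TT 256 :=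
  (.q k1 [(.s k21 k213 7 (.s k61 k41 5 (.s k105 k193 13 (.s k125 k65 5 (.d k253 k189 k169 7 13))))),
  (.s k3 k2 0 (.s k21 k213 7 (.s k41 k61 5 (.s k22 k60 6 (.s k23 k20 0 (.d k63 k43 k42 5 6)))))),
  (.s k3 k2 0 (.s k169 k253 13 (.s k129 k189 5 (.s k192 k66 8 (.s k64 k128 7 (.d k106 k127 k63 6
  14))))))] (.c k61 (.l (.s k3 k2 0 (.s k21 k213 7 (.s k63 k42 6 (.s k23 k43 5 (.s k86 k212 8 (.d
  k169 k253 k252 13 14))))))) .n))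

def s170_191_183 : T TT 256 :=
  (.f k21 k213 7 (.q k90 [(.s k31 k208 10 (.s k16 k26 2 (.s k95 k80 2 (.d k223 k159 k154 7 10)))),
  (.s k63 k42 6 (.s k80 k95 2 (.s k106 k192 14 (.s k122 k74 3 (.d k240 k181 k160 10 11))))), (.s k31
  k208 10 (.s k63 k42 6 (.s k15 k47 3 (.s k5 k10 2 (.d k165 k245 k240 11 14)))))] (.c k179 (.q k187
  [(.s k31 k208 10 (.s k16 k26 2 (.s k95 k80 2 (.d k223 k159 k154 7 10)))), (.s k63 k42 6 (.s k80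
  k95 2 (.s k106 k192 14 (.s k122 k74 3 (.d k240 k181 k160 10 11))))), (.s k31 k208 10 (.s k63 k42 6
  (.s k15 k47 3 (.s k5 k10 2 (.d k165 k245 k240 11 14)))))] .n) (.c k187 (.q k179 [(.s k31 k208 10
  (.s k16 k26 2 (.s k95 k80 2 (.d k223 k159 k154 7 10)))), (.s k63 k42 6 (.s k80 k95 2 (.s k106 k192
  14 (.s k122 k74 3 (.d k240 k181 k160 10 11))))), (.s k31 k208 10 (.s k63 k42 6 (.s k15 k47 3 (.s
  k5 k10 2 (.d k165 k245 k240 11 14)))))] (.c k136 (.q k153 [(.s k31 k208 10 (.s k16 k26 2 (.s k95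
  k80 2 (.d k223 k159 k154 7 10)))), (.s k17 k221 9 (.s k29 k25 1 (.s k145 k157 1 (.d k209 k81 k89 7
  9))))] .n) (.c k153 (.q k136 [(.s k31 k208 10 (.s k16 k26 2 (.s k95 k80 2 (.d k223 k159 k154 7
  10)))), (.s k63 k42 6 (.s k80 k95 2 (.s k106 k192 14 (.s k122 k74 3 (.d k240 k181 k160 10 11))))),
  (.s k31 k208 10 (.s k63 k42 6 (.s k15 k47 3 (.s k5 k10 2 (.d k165 k245 k240 11 14)))))] .n) .n)))
  .n))))

def s170_191_184 : T TT 256 :=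
  (.q k1 [(.s k21 k213 7 (.s k61 k41 5 (.s k105 k193 13 (.s k125 k65 5 (.d k253 k189 k169 7 13))))),
  (.s k3 k2 0 (.s k21 k213 7 (.s k41 k61 5 (.s k22 k60 6 (.s k23 k20 0 (.d k63 k43 k42 5 6)))))),
  (.s k3 k2 0 (.s k169 k253 13 (.s k129 k189 5 (.s k192 k66 8 (.s k64 k128 7 (.d k106 k127 k63 6
  14))))))] (.c k61 (.l (.s k3 k2 0 (.s k21 k213 7 (.s k63 k42 6 (.s k23 k43 5 (.s k86 k212 8 (.d
  k169 k253 k252 13 14))))))) .n))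

def s170_191_185 : T TT 256 :=
  (.q k1 [(.s k21 k213 7 (.s k61 k41 5 (.s k105 k193 13 (.s k125 k65 5 (.d k253 k189 k169 7 13))))),
  (.s k3 k2 0 (.s k21 k213 7 (.s k41 k61 5 (.s k22 k60 6 (.s k23 k20 0 (.d k63 k43 k42 5 6)))))),
  (.s k3 k2 0 (.s k169 k253 13 (.s k129 k189 5 (.s k192 k66 8 (.s k64 k128 7 (.d k106 k127 k63 6
  14))))))] (.c k61 (.l (.s k3 k2 0 (.s k21 k213 7 (.s k63 k42 6 (.s k23 k43 5 (.s k86 k212 8 (.d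
  k169 k253 k252 13 14))))))) .n))

def s170_191_186 : T TT 256 :=
  (.f k21 k213 7 (.q k154 [(.s k16 k223 10 (.s k31 k26 2 (.s k144 k159 2 (.d k208 k80 k90 7 10)))),
  (.s k63 k42 6 (.s k159 k144 2 (.s k207 k111 11 (.s k69 k138 10 (.d k101 k117 k48 3 14))))), (.s
  k16 k223 10 (.s k48 k32 3 (.s k63 k42 6 (.s k58 k53 2 (.d k106 k202 k192 11 14)))))] (.c k176 (.q
  k181 [(.s k16 k223 10 (.s k31 k26 2 (.s k144 k159 2 (.d k208 k80 k90 7 10)))), (.s k63 k42 6 (.s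
  k159 k144 2 (.s k207 k111 11 (.s k69 k138 10 (.d k101 k117 k48 3 14))))), (.s k16 k223 10 (.s k48
  k32 3 (.s k63 k42 6 (.s k58 k53 2 (.d k106 k202 k192 11 14)))))] .n) (.c k181 (.q k176 [(.s k16
  k223 10 (.s k31 k26 2 (.s k144 k159 2 (.d k208 k80 k90 7 10)))), (.s k63 k42 6 (.s k144 k159 2 (.s
  k128 k160 3 (.d k192 k106 k64 14 7)))), (.s k16 k223 10 (.s k48 k32 3 (.s k63 k42 6 (.s k53 k58 2
  (.d k101 k197 k207 11 14)))))] .n) .n))))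

def s170_191_187 : T TT 256 :=
  (.f k21 k213 7 (.q k153 [(.s k17 k221 9 (.s k29 k25 1 (.s k145 k157 1 (.d k209 k81 k89 7 9)))),
  (.s k63 k42 6 (.s k157 k145 1 (.s k204 k110 12 (.s k68 k136 9 (.d k102 k119 k51 4 14))))), (.s k17
  k221 9 (.s k51 k34 4 (.s k63 k42 6 (.s k59 k55 1 (.d k106 k200 k192 12 14)))))] (.c k179 (.q k183
  [(.s k17 k221 9 (.s k29 k25 1 (.s k145 k157 1 (.d k209 k81 k89 7 9)))), (.s k63 k42 6 (.s k157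
  k145 1 (.s k204 k110 12 (.s k68 k136 9 (.d k102 k119 k51 4 14))))), (.s k17 k221 9 (.s k51 k34 4
  (.s k63 k42 6 (.s k59 k55 1 (.d k106 k200 k192 12 14)))))] .n) (.c k183 (.q k179 [(.s k17 k221 9
  (.s k29 k25 1 (.s k145 k157 1 (.d k209 k81 k89 7 9)))), (.s k63 k42 6 (.s k145 k157 1 (.s k128
  k162 4 (.d k192 k106 k64 14 7)))), (.s k17 k221 9 (.s k51 k34 4 (.s k63 k42 6 (.s k55 k59 1 (.d
  k102 k196 k204 12 14)))))] .n) .n))))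

def s170_191_188 : T TT 256 :=
  (.f k21 k213 7 (.q k189 [(.s k63 k42 6 (.s k169 k129 5 (.s k252 k126 8 (.s k84 k168 13 (.d k86 k87
  k3 0 14))))), (.s k169 k129 5 (.s k1 k253 13 (.s k3 k2 0 (.s k41 k61 5 (.s k86 k252 14 (.s k23
  k212 8 (.d k22 k60 k20 6 0))))))), (.s k63 k42 6 (.s k252 k126 8 (.s k84 k168 13 (.s k86 k87 0 (.s
  k212 k23 8 (.d k192 k106 k232 14 5))))))] (.c k86 (.l (.s k63 k42 6 (.s k106 k192 14 (.s k169 k129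
  5 (.s k1 k253 13 (.s k43 k232 8 (.d k3 k2 k23 0 5))))))) (.c k169 (.f k63 k42 6 (.l (.s k106 k192
  14 (.s k126 k252 8 (.s k86 k66 5 (.s k87 k84 0 (.s k127 k64 6 (.s k67 k107 5 (.d k124 k125 k105 0
  6))))))))) (.c k252 (.l (.s k63 k42 6 (.s k106 k192 14 (.s k169 k129 5 (.s k1 k253 13 (.s k3 k2 0
  (.d k43 k232 k23 8 5))))))) .n)))))

def s170_191_189 : T TT 256 :=
  (.f k21 k213 7 (.q k117 [(.s k101 k69 3 (.s k53 k197 11 (.s k5 k37 3 (.d k245 k181 k165 7 11)))),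
  (.s k63 k42 6 (.s k101 k69 3 (.s k106 k192 14 (.s k111 k96 2 (.s k127 k64 6 (.s k79 k95 3 (.d k112
  k122 k90 2 6))))))), (.s k63 k42 6 (.s k106 k192 14 (.s k127 k64 6 (.s k122 k112 2 (.s k181 k240
  10 (.s k165 k133 3 (.d k245 k53 k5 7 11)))))))] (.c k188 (.q k190 [(.s k101 k69 3 (.s k53 k197 11
  (.s k5 k37 3 (.d k245 k181 k165 7 11)))), (.s k63 k42 6 (.s k101 k69 3 (.s k106 k192 14 (.s k111
  k96 2 (.s k127 k64 6 (.s k79 k95 3 (.d k112 k122 k90 2 6))))))), (.s k63 k42 6 (.s k106 k192 14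
  (.s k127 k64 6 (.s k122 k112 2 (.s k181 k240 10 (.s k165 k133 3 (.d k245 k53 k5 7 11)))))))] .n)
  (.c k190 (.q k188 [(.s k101 k69 3 (.s k53 k197 11 (.s k5 k37 3 (.d k245 k181 k165 7 11)))), (.s
  k63 k42 6 (.s k101 k69 3 (.s k106 k192 14 (.s k111 k96 2 (.s k127 k64 6 (.s k79 k95 3 (.d k112
  k122 k90 2 6))))))), (.s k63 k42 6 (.s k106 k192 14 (.s k127 k64 6 (.s k122 k112 2 (.s k181 k240
  10 (.s k165 k133 3 (.d k245 k53 k5 7 11)))))))] (.c k130 (.q k150 [(.s k101 k69 3 (.s k53 k197 11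
  (.s k5 k37 3 (.d k245 k181 k165 7 11)))), (.s k20 k215 8 (.s k23 k22 0 (.s k148 k151 0 (.d k212
  k84 k86 7 8))))] .n) (.c k150 (.q k130 [(.s k101 k69 3 (.s k53 k197 11 (.s k5 k37 3 (.d k245 k181
  k165 7 11)))), (.s k69 k101 3 (.s k138 k207 10 (.s k134 k142 1 (.s k195 k65 8 (.s k12 k73 10 (.d
  k4 k199 k8 8 1)))))), (.s k63 k42 6 (.s k106 k192 14 (.s k127 k64 6 (.s k122 k112 2 (.s k181 k240
  10 (.s k165 k133 3 (.d k245 k53 k5 7 11)))))))] .n) .n))) .n))))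

def s170_191_190 : T TT 256 :=
  (.f k21 k213 7 (.q k150 [(.s k20 k215 8 (.s k23 k22 0 (.s k148 k151 0 (.d k212 k84 k86 7 8)))),
  (.s k63 k42 6 (.s k151 k148 0 (.s k195 k107 13 (.s k65 k130 8 (.d k105 k125 k60 5 14))))), (.s k20
  k215 8 (.s k60 k40 5 (.s k63 k42 6 (.s k62 k61 0 (.d k106 k194 k192 13 14)))))] (.c k188 (.q k189
  [(.s k20 k215 8 (.s k23 k22 0 (.s k148 k151 0 (.d k212 k84 k86 7 8)))), (.s k63 k42 6 (.s k151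
  k148 0 (.s k195 k107 13 (.s k65 k130 8 (.d k105 k125 k60 5 14))))), (.s k20 k215 8 (.s k60 k40 5
  (.s k63 k42 6 (.s k62 k61 0 (.d k106 k194 k192 13 14)))))] .n) (.c k189 (.q k188 [(.s k20 k215 8
  (.s k23 k22 0 (.s k148 k151 0 (.d k212 k84 k86 7 8)))), (.s k63 k42 6 (.s k148 k151 0 (.s k128
  k168 5 (.d k192 k106 k64 14 7)))), (.s k20 k215 8 (.s k60 k40 5 (.s k63 k42 6 (.s k61 k62 0 (.d
  k105 k193 k195 13 14)))))] .n) .n))))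

def s170_191_192 : T TT 256 :=
  (.f k213 k21 7 (.q k101 [(.s k69 k117 3 (.s k197 k53 11 (.s k245 k229 3 (.d k5 k133 k165 7 11)))),
  (.s k69 k117 3 (.s k207 k138 10 (.s k154 k48 14 (.s k223 k16 10 (.s k208 k218 2 (.s k31 k90 10 (.d
  k159 k144 k95 2 7)))))))] (.c k69 (.q k80 [(.s k90 k95 2 (.s k208 k31 10 (.s k223 k218 2 (.d k16
  k144 k154 7 10)))), (.s k90 k95 2 (.s k197 k53 11 (.s k229 k245 3 (.s k240 k160 11 (.d k165 k37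
  k15 7 14))))), (.s k197 k53 11 (.s k229 k245 3 (.s k240 k160 11 (.s k207 k218 6 (.s k154 k48 14
  (.s k16 k223 10 (.d k144 k159 k208 2 7)))))))] .n) (.c k117 (.q k69 [(.s k197 k53 11 (.s k245 k229
  3 (.d k5 k133 k165 7 11))), (.s k207 k138 10 (.s k154 k48 14 (.s k223 k16 10 (.s k208 k218 2 (.s
  k31 k90 10 (.d k159 k144 k95 2 7))))))] .n) .n))))

def s170_191_193 : T TT 256 :=
  (.q k4 [(.s k21 k213 7 (.s k55 k38 4 (.s k102 k196 12 (.s k119 k68 4 (.d k247 k183 k166 7 12))))),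
  (.s k12 k8 1 (.s k166 k247 12 (.s k132 k183 4 (.s k192 k72 9 (.s k64 k128 7 (.d k106 k127 k63 6
  14)))))), (.s k12 k8 1 (.s k21 k213 7 (.s k38 k55 4 (.s k25 k51 6 (.s k29 k17 1 (.d k63 k46 k42 4
  6))))))] (.c k55 (.l (.s k12 k8 1 (.s k21 k213 7 (.s k63 k42 6 (.s k29 k46 4 (.s k89 k209 9 (.d
  k166 k247 k243 12 14))))))) .n))

def s170_191_194 : T TT 256 :=
  (.q k1 [(.s k21 k213 7 (.s k61 k41 5 (.s k105 k193 13 (.s k125 k65 5 (.d k253 k189 k169 7 13))))),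
  (.s k3 k2 0 (.s k21 k213 7 (.s k41 k61 5 (.s k22 k60 6 (.s k23 k20 0 (.d k63 k43 k42 5 6)))))),
  (.s k3 k2 0 (.s k169 k253 13 (.s k86 k252 14 (.s k23 k212 8 (.s k63 k43 5 (.s k129 k189 5 (.d k192
  k66 k106 8 14)))))))] (.c k61 (.l (.s k3 k2 0 (.s k21 k213 7 (.s k63 k42 6 (.s k23 k43 5 (.s k86
  k212 8 (.d k169 k253 k252 13 14))))))) .n))

def s170_191_195 : T TT 256 :=
  (.q k1 [(.s k21 k213 7 (.s k61 k41 5 (.s k105 k193 13 (.s k125 k65 5 (.d k253 k189 k169 7 13))))),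
  (.s k3 k2 0 (.s k21 k213 7 (.s k41 k61 5 (.s k42 k63 6 (.s k40 k43 0 (.d k60 k20 k22 5 6)))))),
  (.s k3 k2 0 (.s k169 k253 13 (.s k129 k189 5 (.s k192 k66 8 (.s k64 k128 7 (.d k106 k127 k63 6
  14))))))] (.c k61 (.l (.s k3 k2 0 (.s k21 k213 7 (.s k63 k42 6 (.s k23 k43 5 (.s k86 k212 8 (.d
  k169 k253 k252 13 14))))))) .n))

def s170_191_196 : T TT 256 :=
  (.q k1 [(.s k21 k213 7 (.s k61 k41 5 (.s k105 k193 13 (.s k125 k65 5 (.d k253 k189 k169 7 13))))),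
  (.s k3 k2 0 (.s k169 k253 13 (.s k129 k189 5 (.s k192 k66 8 (.s k64 k128 7 (.d k106 k127 k63 6
  14)))))), (.s k3 k2 0 (.s k21 k213 7 (.s k41 k61 5 (.s k22 k60 6 (.s k23 k20 0 (.d k63 k43 k42 5
  6))))))] (.c k61 (.l (.s k3 k2 0 (.s k21 k213 7 (.s k63 k42 6 (.s k23 k43 5 (.s k86 k212 8 (.d
  k169 k253 k252 13 14))))))) .n))

def s170_191_197 : T TT 256 :=
  (.q k1 [(.s k213 k21 7 (.s k253 k169 13 (.s k193 k233 5 (.s k105 k61 13 (.d k65 k125 k129 5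
  7))))), (.s k3 k2 0 (.s k21 k213 7 (.s k41 k61 5 (.s k22 k60 6 (.s k23 k20 0 (.d k63 k43 k42 5
  6)))))), (.s k3 k2 0 (.s k169 k253 13 (.s k129 k189 5 (.s k192 k66 8 (.s k64 k128 7 (.d k106 k127
  k63 6 14))))))] (.c k61 (.l (.s k3 k2 0 (.s k21 k213 7 (.s k63 k42 6 (.s k23 k43 5 (.s k86 k212 8
  (.d k169 k253 k252 13 14))))))) .n))

def s170_191_198 : T TT 256 :=
  (.q k1 [(.s k21 k213 7 (.s k61 k41 5 (.s k105 k193 13 (.s k125 k65 5 (.d k253 k189 k169 7 13))))),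
  (.s k3 k2 0 (.s k21 k213 7 (.s k41 k61 5 (.s k22 k60 6 (.s k23 k20 0 (.d k63 k43 k42 5 6)))))),
  (.s k3 k2 0 (.s k169 k253 13 (.s k129 k189 5 (.s k192 k66 8 (.s k64 k128 7 (.d k106 k127 k63 6
  14))))))] (.c k61 (.l (.s k3 k2 0 (.s k21 k213 7 (.s k63 k42 6 (.s k23 k43 5 (.s k86 k212 8 (.d
  k169 k253 k252 13 14))))))) .n))

def s170_191_199 : T TT 256 :=
  (.q k1 [(.s k21 k213 7 (.s k61 k41 5 (.s k105 k193 13 (.s k125 k65 5 (.d k253 k189 k169 7 13))))),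
  (.s k3 k2 0 (.s k21 k213 7 (.s k41 k61 5 (.s k22 k60 6 (.s k23 k20 0 (.d k63 k43 k42 5 6)))))),
  (.s k3 k2 0 (.s k169 k253 13 (.s k129 k189 5 (.s k192 k66 8 (.s k64 k128 7 (.d k106 k127 k63 6
  14))))))] (.c k61 (.l (.s k3 k2 0 (.s k21 k213 7 (.s k63 k42 6 (.s k23 k43 5 (.s k86 k212 8 (.d
  k169 k253 k252 13 14))))))) .n))

def s170_191_200 : T TT 256 :=
  (.q k1 [(.s k21 k213 7 (.s k61 k41 5 (.s k105 k193 13 (.s k125 k65 5 (.d k253 k189 k169 7 13))))),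
  (.s k3 k2 0 (.s k21 k213 7 (.s k41 k61 5 (.s k22 k60 6 (.s k23 k20 0 (.d k63 k43 k42 5 6)))))),
  (.s k3 k2 0 (.s k169 k253 13 (.s k129 k189 5 (.s k192 k66 8 (.s k64 k128 7 (.d k106 k127 k63 6
  14))))))] (.c k61 (.l (.s k3 k2 0 (.s k21 k213 7 (.s k63 k42 6 (.s k23 k43 5 (.s k86 k212 8 (.d
  k169 k253 k252 13 14))))))) .n))

def s170_191_201 : T TT 256 :=
  (.q k1 [(.s k21 k213 7 (.s k61 k41 5 (.s k105 k193 13 (.s k125 k65 5 (.d k253 k189 k169 7 13))))),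
  (.s k3 k2 0 (.s k21 k213 7 (.s k41 k61 5 (.s k22 k60 6 (.s k23 k20 0 (.d k63 k43 k42 5 6)))))),
  (.s k3 k2 0 (.s k169 k253 13 (.s k129 k189 5 (.s k192 k66 8 (.s k64 k128 7 (.d k106 k127 k63 6
  14))))))] (.c k61 (.l (.s k3 k2 0 (.s k21 k213 7 (.s k63 k42 6 (.s k23 k43 5 (.s k86 k212 8 (.d
  k169 k253 k252 13 14))))))) .n))

def s170_191_202 : T TT 256 :=
  (.q k1 [(.s k21 k213 7 (.s k61 k41 5 (.s k105 k193 13 (.s k125 k65 5 (.d k253 k189 k169 7 13))))),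
  (.s k3 k2 0 (.s k21 k213 7 (.s k41 k61 5 (.s k22 k60 6 (.s k23 k20 0 (.d k63 k43 k42 5 6)))))),
  (.s k3 k2 0 (.s k169 k253 13 (.s k129 k189 5 (.s k192 k66 8 (.s k64 k128 7 (.d k106 k127 k63 6
  14))))))] (.c k61 (.l (.s k3 k2 0 (.s k21 k213 7 (.s k63 k42 6 (.s k23 k43 5 (.s k86 k212 8 (.d
  k169 k253 k252 13 14))))))) .n))

def s170_191_203 : T TT 256 :=
  (.q k1 [(.s k21 k213 7 (.s k61 k41 5 (.s k105 k193 13 (.s k125 k65 5 (.d k253 k189 k169 7 13))))),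
  (.s k3 k2 0 (.s k21 k213 7 (.s k41 k61 5 (.s k22 k60 6 (.s k23 k20 0 (.d k63 k43 k42 5 6)))))),
  (.s k3 k2 0 (.s k169 k253 13 (.s k129 k189 5 (.s k192 k66 8 (.s k64 k128 7 (.d k106 k127 k63 6
  14))))))] (.c k61 (.l (.s k3 k2 0 (.s k21 k213 7 (.s k63 k42 6 (.s k23 k43 5 (.s k86 k212 8 (.d
  k169 k253 k252 13 14))))))) .n))

def s170_191_204 : T TT 256 :=
  (.q k1 [(.s k21 k213 7 (.s k61 k41 5 (.s k105 k193 13 (.s k125 k65 5 (.d k253 k189 k169 7 13))))),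
  (.s k3 k2 0 (.s k21 k213 7 (.s k41 k61 5 (.s k22 k60 6 (.s k23 k20 0 (.d k63 k43 k42 5 6)))))),
  (.s k3 k2 0 (.s k169 k253 13 (.s k129 k189 5 (.s k192 k66 8 (.s k64 k128 7 (.d k106 k127 k63 6
  14))))))] (.c k61 (.l (.s k3 k2 0 (.s k21 k213 7 (.s k63 k42 6 (.s k23 k43 5 (.s k86 k212 8 (.d
  k169 k253 k252 13 14))))))) .n))

def s170_191_205 : T TT 256 :=
  (.q k1 [(.s k21 k213 7 (.s k61 k41 5 (.s k105 k193 13 (.s k125 k65 5 (.d k253 k189 k169 7 13))))),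
  (.s k3 k2 0 (.s k21 k213 7 (.s k41 k61 5 (.s k22 k60 6 (.s k23 k20 0 (.d k63 k43 k42 5 6)))))),
  (.s k3 k2 0 (.s k169 k253 13 (.s k129 k189 5 (.s k192 k66 8 (.s k64 k128 7 (.d k106 k127 k63 6
  14))))))] (.c k61 (.l (.s k3 k2 0 (.s k21 k213 7 (.s k63 k42 6 (.s k23 k43 5 (.s k86 k212 8 (.d
  k169 k253 k252 13 14))))))) .n))

def s170_191_206 : T TT 256 :=
  (.q k1 [(.s k21 k213 7 (.s k61 k41 5 (.s k105 k193 13 (.s k125 k65 5 (.d k253 k189 k169 7 13))))),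
  (.s k3 k2 0 (.s k21 k213 7 (.s k41 k61 5 (.s k22 k60 6 (.s k23 k20 0 (.d k63 k43 k42 5 6)))))),
  (.s k3 k2 0 (.s k169 k253 13 (.s k129 k189 5 (.s k192 k66 8 (.s k64 k128 7 (.d k106 k127 k63 6
  14))))))] (.c k61 (.l (.s k3 k2 0 (.s k21 k213 7 (.s k63 k42 6 (.s k23 k43 5 (.s k86 k212 8 (.d
  k169 k253 k252 13 14))))))) .n))

def s170_191_207 : T TT 256 :=
  (.q k1 [(.s k21 k213 7 (.s k61 k41 5 (.s k105 k193 13 (.s k125 k65 5 (.d k253 k189 k169 7 13))))),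
  (.s k3 k2 0 (.s k21 k213 7 (.s k41 k61 5 (.s k22 k60 6 (.s k23 k20 0 (.d k63 k43 k42 5 6)))))),
  (.s k3 k2 0 (.s k169 k253 13 (.s k129 k189 5 (.s k192 k66 8 (.s k64 k128 7 (.d k106 k127 k63 6
  14))))))] (.c k61 (.l (.s k3 k2 0 (.s k21 k213 7 (.s k63 k42 6 (.s k23 k43 5 (.s k86 k212 8 (.d
  k169 k253 k252 13 14))))))) .n))

def s170_191_208 : T TT 256 :=
  (.q k1 [(.s k21 k213 7 (.s k61 k41 5 (.s k105 k193 13 (.s k125 k65 5 (.d k253 k189 k169 7 13))))),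
  (.s k3 k2 0 (.s k169 k253 13 (.s k129 k189 5 (.s k192 k66 8 (.s k64 k128 7 (.d k106 k127 k63 6
  14)))))), (.s k3 k2 0 (.s k21 k213 7 (.s k41 k61 5 (.s k22 k60 6 (.s k23 k20 0 (.d k63 k43 k42 5
  6))))))] (.c k61 (.l (.s k3 k2 0 (.s k21 k213 7 (.s k63 k42 6 (.s k23 k43 5 (.s k86 k212 8 (.d
  k169 k253 k252 13 14))))))) .n))

def s170_191_209 : T TT 256 :=
  (.q k1 [(.s k213 k21 7 (.s k253 k169 13 (.s k193 k233 5 (.s k105 k61 13 (.d k65 k125 k129 5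
  7))))), (.s k3 k2 0 (.s k21 k213 7 (.s k41 k61 5 (.s k22 k60 6 (.s k23 k20 0 (.d k63 k43 k42 5
  6)))))), (.s k3 k2 0 (.s k169 k253 13 (.s k129 k189 5 (.s k192 k66 8 (.s k64 k128 7 (.d k106 k127
  k63 6 14))))))] (.c k61 (.l (.s k3 k2 0 (.s k21 k213 7 (.s k63 k42 6 (.s k23 k43 5 (.s k86 k212 8
  (.d k169 k253 k252 13 14))))))) .n))

def s170_191_210 : T TT 256 :=
  (.q k1 [(.s k21 k213 7 (.s k61 k41 5 (.s k105 k193 13 (.s k125 k65 5 (.d k253 k189 k169 7 13))))),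
  (.s k3 k2 0 (.s k21 k213 7 (.s k41 k61 5 (.s k22 k60 6 (.s k23 k20 0 (.d k63 k43 k42 5 6)))))),
  (.s k3 k2 0 (.s k169 k253 13 (.s k129 k189 5 (.s k192 k66 8 (.s k64 k128 7 (.d k106 k127 k63 6
  14))))))] (.c k61 (.l (.s k3 k2 0 (.s k21 k213 7 (.s k63 k42 6 (.s k23 k43 5 (.s k86 k212 8 (.d
  k169 k253 k252 13 14))))))) .n))

def s170_191_211 : T TT 256 :=
  (.q k1 [(.s k21 k213 7 (.s k61 k41 5 (.s k105 k193 13 (.s k125 k65 5 (.d k253 k189 k169 7 13))))),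
  (.s k3 k2 0 (.s k21 k213 7 (.s k41 k61 5 (.s k22 k60 6 (.s k23 k20 0 (.d k63 k43 k42 5 6)))))),
  (.s k3 k2 0 (.s k169 k253 13 (.s k129 k189 5 (.s k192 k66 8 (.s k64 k128 7 (.d k106 k127 k63 6
  14))))))] (.c k61 (.l (.s k3 k2 0 (.s k21 k213 7 (.s k63 k42 6 (.s k23 k43 5 (.s k86 k212 8 (.d
  k169 k253 k252 13 14))))))) .n))

def s170_191_212 : T TT 256 :=
  (.q k1 [(.s k21 k213 7 (.s k61 k41 5 (.s k105 k193 13 (.s k125 k65 5 (.d k253 k189 k169 7 13))))),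
  (.s k3 k2 0 (.s k169 k253 13 (.s k129 k189 5 (.s k192 k66 8 (.s k64 k128 7 (.d k106 k127 k63 6
  14)))))), (.s k3 k2 0 (.s k21 k213 7 (.s k41 k61 5 (.s k22 k60 6 (.s k23 k20 0 (.d k63 k43 k42 5
  6))))))] (.c k61 (.l (.s k3 k2 0 (.s k21 k213 7 (.s k63 k42 6 (.s k43 k23 5 (.s k106 k192 14 (.d
  k169 k232 k253 8 13))))))) .n))

def s170_191_213 : T TT 256 :=
  (.q k192 [(.s k64 k128 7 (.d k106 k127 k63 6 14))] (.c k63 (.f k64 k128 7 (.q k96 [(.s k48 k144 11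
  (.s k32 k16 3 (.s k80 k112 3 (.d k160 k224 k240 7 11)))), (.s k80 k112 3 (.s k90 k95 2 (.s k208
  k31 10 (.d k240 k224 k160 3 11)))), (.s k48 k144 11 (.s k16 k32 3 (.s k154 k223 10 (.s k101 k207
  14 (.d k106 k111 k127 2 6)))))] (.c k127 (.q k255 [(.s k48 k144 11 (.s k32 k16 3 (.s k160 k224 7
  (.d k80 k112 k240 3 11)))), (.s k80 k112 3 (.s k90 k95 2 (.s k208 k31 10 (.d k240 k224 k160 3
  11)))), (.s k48 k144 11 (.s k16 k32 3 (.s k117 k186 10 (.s k101 k69 3 (.d k154 k223 k207 10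
  14)))))] (.c k160 (.l (.s k80 k112 3 (.s k90 k95 2 (.s k144 k48 11 (.d k208 k16 k31 7 10))))) .n))
  (.c k160 (.l (.s k80 k112 3 (.s k90 k95 2 (.s k144 k48 11 (.d k208 k16 k31 7 10))))) (.c k208 (.l
  (.s k48 k144 11 (.s k32 k16 3 (.s k80 k112 3 (.d k160 k224 k240 7 11))))) (.c k255 (.l (.s k127
  k106 6 (.s k48 k144 11 (.s k32 k16 3 (.s k80 k112 3 (.d k160 k224 k240 7 11)))))) .n)))))) (.c k64
  (.q k1 [(.s k3 k2 0 (.s k169 k253 13 (.d k129 k189 k66 5 8))), (.s k3 k2 0 (.s k63 k106 14 (.s k23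
  k43 5 (.s k86 k212 8 (.s k84 k87 0 (.d k252 k169 k168 14 13)))))), (.s k63 k106 14 (.s k169 k253
  13 (.s k129 k189 5 (.s k193 k65 7 (.s k61 k105 13 (.d k21 k42 k41 6 5))))))] (.c k169 (.l (.s k3
  k2 0 (.s k66 k129 8 (.s k106 k63 14 (.s k86 k126 5 (.s k84 k87 0 (.s k212 k23 8 (.d k252 k232 k168
  5 13)))))))) .n)) (.c k106 (.f k64 k128 7 (.q k3 [(.s k2 k1 0 (.s k66 k129 8 (.s k65 k67 0 (.d
  k130 k194 k195 7 8)))), (.s k1 k2 0 (.s k169 k253 13 (.s k86 k252 14 (.s k84 k87 0 (.s k104 k124 5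
  (.s k212 k23 8 (.d k148 k60 k20 13 7))))))), (.s k66 k129 8 (.s k65 k67 0 (.s k105 k125 5 (.s k193
  k61 13 (.d k195 k130 k194 8 0)))))] (.c k42 (.q k234 [(.s k129 k66 8 (.s k169 k189 5 (.d k1 k2
  k253 0 13))), (.s k66 k129 8 (.s k65 k67 0 (.s k105 k125 5 (.s k193 k61 13 (.d k195 k130 k194 8
  0))))), (.s k1 k2 0 (.s k169 k253 13 (.s k86 k252 14 (.s k84 k87 0 (.s k104 k124 5 (.s k212 k23 8
  (.d k148 k60 k20 13 7)))))))] (.c k253 (.l (.s k2 k1 0 (.s k66 k129 8 (.s k65 k67 0 (.d k130 k194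
  k195 7 8))))) .n)) (.c k193 (.l (.s k1 k2 0 (.s k129 k66 8 (.d k169 k189 k253 5 13)))) (.c k234
  (.q k42 [(.s k2 k1 0 (.s k66 k129 8 (.s k65 k67 0 (.d k130 k194 k195 7 8)))), (.s k63 k21 6 (.s
  k23 k43 5 (.s k86 k212 8 (.s k84 k87 0 (.d k252 k169 k168 14 13)))))] .n) .n))))) (.c k127 (.q
  k102 [(.s k196 k55 12 (.s k204 k200 1 (.d k68 k119 k136 4 9))), (.s k63 k106 14 (.s k68 k119 4 (.s
  k204 k136 9 (.s k153 k51 14 (.d k157 k145 k110 1 12))))), (.s k55 k196 12 (.s k63 k106 14 (.s k51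
  k59 1 (.s k17 k34 4 (.d k153 k221 k204 9 14)))))] (.c k63 (.q k255 [(.s k196 k55 12 (.s k204 k200
  1 (.d k68 k119 k136 4 9))), (.s k68 k119 4 (.s k204 k136 9 (.s k221 k238 4 (.d k153 k17 k51 9
  14)))), (.s k196 k55 12 (.s k204 k200 1 (.s k221 k238 4 (.d k153 k51 k17 14 9))))] (.c k51 (.l (.s
  k68 k119 4 (.s k204 k136 9 (.d k196 k200 k55 1 12)))) (.c k204 (.l (.s k64 k128 7 (.s k68 k119 4
  (.s k72 k76 1 (.s k196 k55 12 (.d k132 k12 k4 9 7)))))) .n))) (.c k204 (.l (.s k64 k128 7 (.s k68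
  k119 4 (.s k72 k76 1 (.s k196 k55 12 (.d k132 k12 k4 9 7)))))) (.c k255 (.l (.s k63 k106 14 (.s
  k68 k119 4 (.s k196 k55 12 (.d k204 k200 k136 1 9))))) .n)))) (.c k128 (.q k1 [(.s k3 k2 0 (.s
  k129 k66 8 (.d k169 k189 k253 5 13))), (.s k63 k106 14 (.s k169 k253 13 (.s k129 k189 5 (.s k193
  k65 7 (.s k61 k105 13 (.d k21 k42 k41 6 5)))))), (.s k3 k2 0 (.s k63 k106 14 (.s k129 k66 8 (.s
  k193 k65 7 (.s k61 k105 13 (.d k21 k42 k41 6 5))))))] (.c k129 (.l (.s k3 k2 0 (.s k63 k106 14 (.s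
  k23 k43 5 (.s k86 k212 8 (.d k169 k253 k252 13 14)))))) .n)) .n))))))

def s170_191_214 : T TT 256 :=
  (.q k1 [(.s k21 k213 7 (.s k61 k41 5 (.s k105 k193 13 (.s k125 k65 5 (.d k253 k189 k169 7 13))))),
  (.s k3 k2 0 (.s k169 k253 13 (.s k129 k189 5 (.s k192 k66 8 (.s k64 k128 7 (.d k106 k127 k63 6
  14)))))), (.s k3 k2 0 (.s k21 k213 7 (.s k41 k61 5 (.s k22 k60 6 (.s k23 k20 0 (.d k63 k43 k42 5
  6))))))] (.c k61 (.l (.s k3 k2 0 (.s k21 k213 7 (.s k63 k42 6 (.s k23 k43 5 (.s k169 k253 13 (.d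
  k86 k212 k252 8 14))))))) .n))

def s170_191_215 : T TT 256 :=
  (.q k1 [(.s k21 k213 7 (.s k61 k41 5 (.s k105 k193 13 (.s k125 k65 5 (.d k253 k189 k169 7 13))))),
  (.s k3 k2 0 (.s k169 k253 13 (.s k129 k189 5 (.s k192 k66 8 (.s k64 k128 7 (.d k106 k127 k63 6
  14)))))), (.s k3 k2 0 (.s k21 k213 7 (.s k41 k61 5 (.s k22 k60 6 (.s k23 k20 0 (.d k63 k43 k42 5
  6))))))] (.c k61 (.l (.s k3 k2 0 (.s k21 k213 7 (.s k63 k42 6 (.s k23 k43 5 (.s k169 k253 13 (.d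
  k86 k212 k252 8 14))))))) .n))

def s170_191_216 : T TT 256 :=
  (.q k1 [(.s k21 k213 7 (.s k61 k41 5 (.s k105 k193 13 (.s k125 k65 5 (.d k253 k189 k169 7 13))))),
  (.s k3 k2 0 (.s k21 k213 7 (.s k41 k61 5 (.s k22 k60 6 (.s k23 k20 0 (.d k63 k43 k42 5 6)))))),
  (.s k3 k2 0 (.s k169 k253 13 (.s k129 k189 5 (.s k192 k66 8 (.s k64 k128 7 (.d k106 k127 k63 6
  14))))))] (.c k61 (.l (.s k3 k2 0 (.s k21 k213 7 (.s k63 k42 6 (.s k23 k43 5 (.s k86 k212 8 (.d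
  k169 k253 k252 13 14))))))) .n))

def s170_191_217 : T TT 256 :=
  (.q k1 [(.s k21 k213 7 (.s k61 k41 5 (.s k105 k193 13 (.s k125 k65 5 (.d k253 k189 k169 7 13))))),
  (.s k3 k2 0 (.s k169 k253 13 (.s k129 k189 5 (.s k192 k66 8 (.s k64 k128 7 (.d k106 k127 k63 6
  14)))))), (.s k3 k2 0 (.s k21 k213 7 (.s k41 k61 5 (.s k22 k60 6 (.s k23 k20 0 (.d k63 k43 k42 5
  6))))))] (.c k61 (.l (.s k3 k2 0 (.s k21 k213 7 (.s k63 k42 6 (.s k23 k43 5 (.s k86 k212 8 (.d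
  k169 k253 k252 13 14))))))) .n))

def s170_191_218 : T TT 256 :=
  (.q k1 [(.s k21 k213 7 (.s k61 k41 5 (.s k105 k193 13 (.s k125 k65 5 (.d k253 k189 k169 7 13))))),
  (.s k3 k2 0 (.s k169 k253 13 (.s k129 k189 5 (.s k192 k66 8 (.s k64 k128 7 (.d k106 k127 k63 6
  14)))))), (.s k3 k2 0 (.s k21 k213 7 (.s k41 k61 5 (.s k22 k60 6 (.s k23 k20 0 (.d k63 k43 k42 5
  6))))))] (.c k61 (.l (.s k3 k2 0 (.s k21 k213 7 (.s k63 k42 6 (.s k23 k43 5 (.s k86 k212 8 (.d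
  k169 k253 k252 13 14))))))) .n))

def s170_191_219 : T TT 256 :=
  (.q k1 [(.s k21 k213 7 (.s k61 k41 5 (.s k105 k193 13 (.s k125 k65 5 (.d k253 k189 k169 7 13))))),
  (.s k3 k2 0 (.s k21 k213 7 (.s k41 k61 5 (.s k22 k60 6 (.s k23 k20 0 (.d k63 k43 k42 5 6)))))),
  (.s k3 k2 0 (.s k169 k253 13 (.s k129 k189 5 (.s k192 k66 8 (.s k64 k128 7 (.d k106 k127 k63 6
  14))))))] (.c k61 (.l (.s k3 k2 0 (.s k21 k213 7 (.s k63 k42 6 (.s k23 k43 5 (.s k86 k212 8 (.d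
  k169 k253 k252 13 14))))))) .n))

def s170_191_220 : T TT 256 :=
  (.q k1 [(.s k21 k213 7 (.s k61 k41 5 (.s k105 k193 13 (.s k125 k65 5 (.d k253 k189 k169 7 13))))),
  (.s k3 k2 0 (.s k21 k213 7 (.s k41 k61 5 (.s k22 k60 6 (.s k23 k20 0 (.d k63 k43 k42 5 6)))))),
  (.s k3 k2 0 (.s k169 k253 13 (.s k129 k189 5 (.s k192 k66 8 (.s k64 k128 7 (.d k106 k127 k63 6
  14))))))] (.c k61 (.l (.s k3 k2 0 (.s k21 k213 7 (.s k63 k42 6 (.s k23 k43 5 (.s k86 k212 8 (.d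
  k169 k253 k252 13 14))))))) .n))

def s170_191_221 : T TT 256 :=
  (.q k1 [(.s k21 k213 7 (.s k61 k41 5 (.s k105 k193 13 (.s k125 k65 5 (.d k253 k189 k169 7 13))))),
  (.s k3 k2 0 (.s k169 k253 13 (.s k129 k189 5 (.s k192 k66 8 (.s k64 k128 7 (.d k106 k127 k63 6
  14)))))), (.s k3 k2 0 (.s k21 k213 7 (.s k41 k61 5 (.s k22 k60 6 (.s k23 k20 0 (.d k63 k43 k42 5
  6))))))] (.c k61 (.l (.s k3 k2 0 (.s k21 k213 7 (.s k63 k42 6 (.s k23 k43 5 (.s k86 k212 8 (.d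
  k169 k253 k252 13 14))))))) .n))

def s170_191_222 : T TT 256 :=
  (.q k1 [(.s k21 k213 7 (.s k61 k41 5 (.s k105 k193 13 (.s k125 k65 5 (.d k253 k189 k169 7 13))))),
  (.s k3 k2 0 (.s k21 k213 7 (.s k41 k61 5 (.s k22 k60 6 (.s k23 k20 0 (.d k63 k43 k42 5 6)))))),
  (.s k3 k2 0 (.s k169 k253 13 (.s k129 k189 5 (.s k192 k66 8 (.s k64 k128 7 (.d k106 k127 k63 6
  14))))))] (.c k61 (.l (.s k3 k2 0 (.s k21 k213 7 (.s k63 k42 6 (.s k23 k43 5 (.s k86 k212 8 (.d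
  k169 k253 k252 13 14))))))) .n))

def s170_191_223 : T TT 256 :=
  (.q k1 [(.s k21 k213 7 (.s k61 k41 5 (.s k105 k193 13 (.s k125 k65 5 (.d k253 k189 k169 7 13))))),
  (.s k3 k2 0 (.s k169 k253 13 (.s k129 k189 5 (.s k192 k66 8 (.s k64 k128 7 (.d k106 k127 k63 6
  14)))))), (.s k3 k2 0 (.s k21 k213 7 (.s k41 k61 5 (.s k22 k60 6 (.s k23 k20 0 (.d k63 k43 k42 5
  6))))))] (.c k61 (.l (.s k3 k2 0 (.s k21 k213 7 (.s k63 k42 6 (.s k23 k43 5 (.s k86 k212 8 (.d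
  k169 k253 k252 13 14))))))) .n))

def s170_191_224 : T TT 256 :=
  (.q k1 [(.s k21 k213 7 (.s k61 k41 5 (.s k105 k193 13 (.s k125 k65 5 (.d k253 k189 k169 7 13))))),
  (.s k3 k2 0 (.s k21 k213 7 (.s k41 k61 5 (.s k22 k60 6 (.s k23 k20 0 (.d k63 k43 k42 5 6)))))),
  (.s k3 k2 0 (.s k169 k253 13 (.s k129 k189 5 (.s k192 k66 8 (.s k64 k128 7 (.d k106 k127 k63 6
  14))))))] (.c k61 (.l (.s k3 k2 0 (.s k21 k213 7 (.s k63 k42 6 (.s k23 k43 5 (.s k86 k212 8 (.d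
  k169 k253 k252 13 14))))))) .n))

def s170_191_225 : T TT 256 :=
  (.q k1 [(.s k21 k213 7 (.s k61 k41 5 (.s k105 k193 13 (.s k125 k65 5 (.d k253 k189 k169 7 13))))),
  (.s k3 k2 0 (.s k21 k213 7 (.s k41 k61 5 (.s k22 k60 6 (.s k23 k20 0 (.d k63 k43 k42 5 6)))))),
  (.s k3 k2 0 (.s k169 k253 13 (.s k129 k189 5 (.s k192 k66 8 (.s k64 k128 7 (.d k106 k127 k63 6
  14))))))] (.c k61 (.l (.s k3 k2 0 (.s k21 k213 7 (.s k63 k42 6 (.s k23 k43 5 (.s k86 k212 8 (.d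
  k169 k253 k252 13 14))))))) .n))

def s170_191_226 : T TT 256 :=
  (.q k1 [(.s k21 k213 7 (.s k61 k41 5 (.s k105 k193 13 (.s k125 k65 5 (.d k253 k189 k169 7 13))))),
  (.s k3 k2 0 (.s k21 k213 7 (.s k41 k61 5 (.s k22 k60 6 (.s k23 k20 0 (.d k63 k43 k42 5 6)))))),
  (.s k3 k2 0 (.s k169 k253 13 (.s k129 k189 5 (.s k192 k66 8 (.s k64 k128 7 (.d k106 k127 k63 6
  14))))))] (.c k61 (.l (.s k3 k2 0 (.s k21 k213 7 (.s k63 k42 6 (.s k23 k43 5 (.s k86 k212 8 (.d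
  k169 k253 k252 13 14))))))) .n))

def s170_191_227 : T TT 256 :=
  (.q k1 [(.s k21 k213 7 (.s k61 k41 5 (.s k105 k193 13 (.s k125 k65 5 (.d k253 k189 k169 7 13))))),
  (.s k3 k2 0 (.s k21 k213 7 (.s k41 k61 5 (.s k22 k60 6 (.s k23 k20 0 (.d k63 k43 k42 5 6)))))),
  (.s k3 k2 0 (.s k169 k253 13 (.s k129 k189 5 (.s k192 k66 8 (.s k64 k128 7 (.d k106 k127 k63 6
  14))))))] (.c k61 (.l (.s k3 k2 0 (.s k21 k213 7 (.s k63 k42 6 (.s k23 k43 5 (.s k86 k212 8 (.d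
  k169 k253 k252 13 14))))))) .n))

def s170_191_228 : T TT 256 :=
  (.q k1 [(.s k21 k213 7 (.s k61 k41 5 (.s k105 k193 13 (.s k125 k65 5 (.d k253 k189 k169 7 13))))),
  (.s k3 k2 0 (.s k21 k213 7 (.s k41 k61 5 (.s k22 k60 6 (.s k23 k20 0 (.d k63 k43 k42 5 6)))))),
  (.s k3 k2 0 (.s k169 k253 13 (.s k129 k189 5 (.s k192 k66 8 (.s k64 k128 7 (.d k106 k127 k63 6
  14))))))] (.c k61 (.l (.s k3 k2 0 (.s k21 k213 7 (.s k63 k42 6 (.s k23 k43 5 (.s k86 k212 8 (.d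
  k169 k253 k252 13 14))))))) .n))

def s170_191_229 : T TT 256 :=
  (.q k1 [(.s k21 k213 7 (.s k61 k41 5 (.s k105 k193 13 (.s k125 k65 5 (.d k253 k189 k169 7 13))))),
  (.s k3 k2 0 (.s k169 k253 13 (.s k129 k189 5 (.s k192 k66 8 (.s k64 k128 7 (.d k106 k127 k63 6
  14)))))), (.s k3 k2 0 (.s k21 k213 7 (.s k41 k61 5 (.s k22 k60 6 (.s k23 k20 0 (.d k63 k43 k42 5
  6))))))] (.c k61 (.l (.s k3 k2 0 (.s k21 k213 7 (.s k63 k42 6 (.s k23 k43 5 (.s k86 k212 8 (.d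
  k169 k253 k252 13 14))))))) .n))

def s170_191_230 : T TT 256 :=
  (.q k1 [(.s k21 k213 7 (.s k61 k41 5 (.s k105 k193 13 (.s k125 k65 5 (.d k253 k189 k169 7 13))))),
  (.s k3 k2 0 (.s k169 k253 13 (.s k129 k189 5 (.s k192 k66 8 (.s k64 k128 7 (.d k106 k127 k63 6
  14)))))), (.s k3 k2 0 (.s k21 k213 7 (.s k41 k61 5 (.s k22 k60 6 (.s k23 k20 0 (.d k63 k43 k42 5
  6))))))] (.c k61 (.l (.s k3 k2 0 (.s k21 k213 7 (.s k63 k42 6 (.s k23 k43 5 (.s k86 k212 8 (.d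
  k169 k253 k252 13 14))))))) .n))

def s170_191_231 : T TT 256 :=
  (.q k1 [(.s k21 k213 7 (.s k61 k41 5 (.s k105 k193 13 (.s k125 k65 5 (.d k253 k189 k169 7 13))))),
  (.s k3 k2 0 (.s k21 k213 7 (.s k41 k61 5 (.s k22 k60 6 (.s k23 k20 0 (.d k63 k43 k42 5 6)))))),
  (.s k3 k2 0 (.s k169 k253 13 (.s k129 k189 5 (.s k192 k66 8 (.s k64 k128 7 (.d k106 k127 k63 6
  14))))))] (.c k61 (.l (.s k3 k2 0 (.s k21 k213 7 (.s k63 k42 6 (.s k23 k43 5 (.s k86 k212 8 (.d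
  k169 k253 k252 13 14))))))) .n))

def s170_191_232 : T TT 256 :=
  (.q k1 [(.s k21 k213 7 (.s k61 k41 5 (.s k105 k193 13 (.s k125 k65 5 (.d k253 k189 k169 7 13))))),
  (.s k3 k2 0 (.s k21 k213 7 (.s k41 k61 5 (.s k22 k60 6 (.s k23 k20 0 (.d k63 k43 k42 5 6)))))),
  (.s k3 k2 0 (.s k169 k253 13 (.s k129 k189 5 (.s k192 k66 8 (.s k64 k128 7 (.d k106 k127 k63 6
  14))))))] (.c k61 (.l (.s k3 k2 0 (.s k21 k213 7 (.s k63 k42 6 (.s k23 k43 5 (.s k86 k212 8 (.d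
  k169 k252 k253 14 13))))))) .n))

def s170_191_233 : T TT 256 :=
  (.q k4 [(.s k21 k213 7 (.s k55 k38 4 (.s k102 k196 12 (.s k119 k68 4 (.d k247 k183 k166 7 12))))),
  (.s k12 k8 1 (.s k166 k247 12 (.s k132 k183 4 (.s k192 k72 9 (.s k64 k128 7 (.d k106 k127 k63 6
  14)))))), (.s k12 k8 1 (.s k21 k213 7 (.s k38 k55 4 (.s k25 k51 6 (.s k29 k17 1 (.d k63 k46 k42 4
  6))))))] (.c k55 (.l (.s k12 k8 1 (.s k21 k213 7 (.s k63 k42 6 (.s k29 k46 4 (.s k89 k209 9 (.d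
  k166 k247 k243 12 14))))))) .n))

def s170_191_234 : T TT 256 :=
  (.q k1 [(.s k21 k213 7 (.s k61 k41 5 (.s k105 k193 13 (.s k125 k65 5 (.d k253 k189 k169 7 13))))),
  (.s k3 k2 0 (.s k169 k253 13 (.s k129 k189 5 (.s k192 k66 8 (.s k64 k128 7 (.d k106 k127 k63 6
  14)))))), (.s k3 k2 0 (.s k21 k213 7 (.s k41 k61 5 (.s k22 k60 6 (.s k23 k20 0 (.d k63 k42 k43 6
  5))))))] (.c k42 (.q k106 [(.s k64 k127 6 (.d k192 k63 k128 14 7)), (.s k3 k2 0 (.s k169 k253 13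
  (.s k129 k189 5 (.s k66 k192 8 (.d k86 k126 k252 5 14)))))] (.c k192 (.l (.s k3 k2 0 (.s k169 k253
  13 (.s k43 k232 8 (.s k23 k63 5 (.d k86 k212 k252 8 14)))))) (.c k255 (.l (.s k3 k2 0 (.s k169
  k253 13 (.s k43 k232 8 (.d k63 k23 k192 5 14))))) .n))) (.c k61 (.l (.s k3 k2 0 (.s k21 k213 7 (.s
  k169 k253 13 (.s k86 k252 14 (.s k23 k212 8 (.d k63 k43 k42 5 6))))))) (.c k106 (.q k42 [(.d k21
  k63 k213 6 7), (.s k3 k2 0 (.s k169 k253 13 (.s k129 k189 5 (.s k65 k193 7 (.s k66 k192 8 (.s k67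
  k64 0 (.d k195 k131 k130 7 8)))))))] (.c k213 (.l (.s k3 k2 0 (.s k21 k63 6 (.s k41 k61 5 (.s k40
  k43 0 (.d k60 k20 k22 5 6)))))) .n)) (.c k192 (.l (.s k169 k253 13 (.s k129 k189 5 (.s k193 k65 7
  (.s k61 k105 13 (.d k21 k41 k213 5 7)))))) .n)))))

def s170_191_235 : T TT 256 :=
  (.q k105 [(.s k21 k213 7 (.s k61 k193 13 (.s k1 k41 5 (.s k125 k65 5 (.d k253 k189 k169 7 13))))),
  (.s k21 k213 7 (.s k63 k42 6 (.s k65 k125 5 (.s k106 k192 14 (.s k107 k104 0 (.d k195 k130 k151 8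
  13)))))), (.s k21 k213 7 (.s k61 k193 13 (.s k63 k42 6 (.s k60 k62 0 (.s k20 k40 5 (.d k150 k215
  k195 8 14)))))), (.s k65 k125 5 (.s k193 k61 13 (.s k195 k130 8 (.s k192 k194 0 (.s k64 k128 7 (.d
  k106 k127 k63 6 14))))))] .n)

def s170_191_236 : T TT 256 :=
  (.q k1 [(.s k21 k213 7 (.s k61 k41 5 (.s k105 k193 13 (.s k125 k65 5 (.d k253 k189 k169 7 13))))),
  (.s k3 k2 0 (.s k21 k213 7 (.s k41 k61 5 (.s k22 k60 6 (.s k23 k20 0 (.d k63 k43 k42 5 6)))))),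
  (.s k3 k2 0 (.s k169 k253 13 (.s k129 k189 5 (.s k192 k66 8 (.s k64 k128 7 (.d k106 k127 k63 6
  14))))))] (.c k61 (.l (.s k3 k2 0 (.s k21 k213 7 (.s k63 k42 6 (.s k23 k43 5 (.s k86 k212 8 (.d
  k169 k253 k252 13 14))))))) .n))

def s170_191_237 : T TT 256 :=
  (.q k1 [(.s k21 k213 7 (.s k61 k41 5 (.s k105 k193 13 (.s k125 k65 5 (.d k253 k189 k169 7 13))))),
  (.s k3 k2 0 (.s k21 k213 7 (.s k41 k61 5 (.s k22 k60 6 (.s k23 k20 0 (.d k63 k43 k42 5 6)))))),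
  (.s k3 k2 0 (.s k169 k253 13 (.s k129 k189 5 (.s k192 k66 8 (.s k64 k128 7 (.d k106 k127 k63 6
  14))))))] (.c k61 (.l (.s k3 k2 0 (.s k21 k213 7 (.s k63 k42 6 (.s k23 k43 5 (.s k86 k212 8 (.d
  k169 k253 k252 13 14))))))) .n))

def s170_191_238 : T TT 256 :=
  (.q k102 [(.s k21 k213 7 (.s k55 k196 12 (.s k4 k38 4 (.s k119 k68 4 (.d k247 k183 k166 7 12))))),
  (.s k21 k213 7 (.s k63 k42 6 (.s k68 k119 4 (.s k106 k192 14 (.s k110 k98 1 (.d k204 k136 k157 9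
  12)))))), (.s k21 k213 7 (.s k55 k196 12 (.s k63 k42 6 (.s k51 k59 1 (.s k17 k34 4 (.d k153 k221
  k204 9 14)))))), (.s k68 k119 4 (.s k196 k55 12 (.s k204 k136 9 (.s k192 k200 1 (.s k64 k128 7 (.d
  k106 k127 k63 6 14))))))] .n)

def s170_191_239 : T TT 256 :=
  (.q k101 [(.s k21 k213 7 (.s k53 k197 11 (.s k5 k37 3 (.s k117 k69 3 (.d k245 k181 k165 7 11))))),
  (.s k21 k213 7 (.s k63 k42 6 (.s k69 k117 3 (.s k106 k192 14 (.s k111 k96 2 (.d k207 k138 k159 10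
  11)))))), (.s k21 k213 7 (.s k53 k197 11 (.s k63 k42 6 (.s k48 k58 2 (.s k16 k32 3 (.d k154 k223
  k207 10 14)))))), (.s k69 k117 3 (.s k197 k53 11 (.s k207 k138 10 (.s k192 k202 2 (.s k64 k128 7
  (.d k106 k127 k63 6 14))))))] .n)

def s170_191_240 : T TT 256 :=
  (.q k1 [(.s k21 k213 7 (.s k61 k41 5 (.s k105 k193 13 (.s k125 k65 5 (.d k253 k189 k169 7 13))))),
  (.s k3 k2 0 (.s k21 k213 7 (.s k41 k61 5 (.s k22 k60 6 (.s k23 k20 0 (.d k63 k43 k42 5 6)))))),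
  (.s k3 k2 0 (.s k169 k253 13 (.s k129 k189 5 (.s k192 k66 8 (.s k64 k128 7 (.d k106 k127 k63 6
  14))))))] (.c k61 (.l (.s k3 k2 0 (.s k21 k213 7 (.s k63 k42 6 (.s k23 k43 5 (.s k86 k212 8 (.d
  k169 k253 k252 13 14))))))) .n))

def s170_191_241 : T TT 256 :=
  (.q k1 [(.s k21 k213 7 (.s k61 k41 5 (.s k105 k193 13 (.s k125 k65 5 (.d k253 k189 k169 7 13))))),
  (.s k3 k2 0 (.s k21 k213 7 (.s k41 k61 5 (.s k22 k60 6 (.s k23 k20 0 (.d k63 k43 k42 5 6)))))),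
  (.s k3 k2 0 (.s k169 k253 13 (.s k129 k189 5 (.s k192 k66 8 (.s k64 k128 7 (.d k106 k127 k63 6
  14))))))] (.c k61 (.l (.s k3 k2 0 (.s k21 k213 7 (.s k63 k42 6 (.s k23 k43 5 (.s k86 k212 8 (.d
  k169 k253 k252 13 14))))))) .n))

def s170_191_242 : T TT 256 :=
  (.q k1 [(.s k21 k213 7 (.s k61 k41 5 (.s k105 k193 13 (.s k125 k65 5 (.d k253 k189 k169 7 13))))),
  (.s k3 k2 0 (.s k21 k213 7 (.s k41 k61 5 (.s k22 k60 6 (.s k23 k20 0 (.d k63 k43 k42 5 6)))))),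
  (.s k3 k2 0 (.s k169 k253 13 (.s k129 k189 5 (.s k192 k66 8 (.s k64 k128 7 (.d k106 k127 k63 6
  14))))))] (.c k61 (.l (.s k3 k2 0 (.s k21 k213 7 (.s k63 k42 6 (.s k23 k43 5 (.s k86 k212 8 (.d
  k169 k253 k252 13 14))))))) .n))

def s170_191_243 : T TT 256 :=
  (.q k1 [(.s k21 k213 7 (.s k61 k41 5 (.s k105 k193 13 (.s k125 k65 5 (.d k253 k189 k169 7 13))))),
  (.s k3 k2 0 (.s k21 k213 7 (.s k41 k61 5 (.s k22 k60 6 (.s k23 k20 0 (.d k63 k43 k42 5 6)))))),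
  (.s k3 k2 0 (.s k169 k253 13 (.s k129 k189 5 (.s k192 k66 8 (.s k64 k128 7 (.d k106 k127 k63 6
  14))))))] (.c k61 (.l (.s k3 k2 0 (.s k21 k213 7 (.s k63 k42 6 (.s k23 k43 5 (.s k86 k212 8 (.d
  k169 k253 k252 13 14))))))) .n))

def s170_191_244 : T TT 256 :=
  (.q k1 [(.s k21 k213 7 (.s k61 k41 5 (.s k105 k193 13 (.s k125 k65 5 (.d k253 k189 k169 7 13))))),
  (.s k3 k2 0 (.s k21 k213 7 (.s k41 k61 5 (.s k22 k60 6 (.s k23 k20 0 (.d k63 k43 k42 5 6)))))),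
  (.s k3 k2 0 (.s k169 k253 13 (.s k129 k189 5 (.s k192 k66 8 (.s k64 k128 7 (.d k106 k127 k63 6
  14))))))] (.c k61 (.l (.s k3 k2 0 (.s k21 k213 7 (.s k63 k42 6 (.s k23 k43 5 (.s k86 k212 8 (.d
  k169 k253 k252 13 14))))))) .n))

def s170_191_245 : T TT 256 :=
  (.q k1 [(.s k21 k213 7 (.s k61 k41 5 (.s k105 k193 13 (.s k125 k65 5 (.d k253 k189 k169 7 13))))),
  (.s k3 k2 0 (.s k169 k253 13 (.s k129 k189 5 (.s k192 k66 8 (.s k64 k128 7 (.d k106 k127 k63 6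
  14)))))), (.s k3 k2 0 (.s k21 k213 7 (.s k41 k61 5 (.s k22 k60 6 (.s k23 k20 0 (.d k63 k43 k42 5
  6))))))] (.c k61 (.l (.s k3 k2 0 (.s k21 k213 7 (.s k63 k42 6 (.s k23 k43 5 (.s k86 k212 8 (.d
  k169 k253 k252 13 14))))))) .n))

def s170_191_246 : T TT 256 :=
  (.q k1 [(.s k21 k213 7 (.s k61 k41 5 (.s k105 k193 13 (.s k125 k65 5 (.d k253 k189 k169 7 13))))),
  (.s k3 k2 0 (.s k21 k213 7 (.s k41 k61 5 (.s k22 k60 6 (.s k23 k20 0 (.d k63 k43 k42 5 6)))))),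
  (.s k3 k2 0 (.s k169 k253 13 (.s k129 k189 5 (.s k192 k66 8 (.s k64 k128 7 (.d k106 k127 k63 6
  14))))))] (.c k61 (.l (.s k3 k2 0 (.s k21 k213 7 (.s k63 k42 6 (.s k23 k43 5 (.s k86 k212 8 (.d
  k169 k253 k252 13 14))))))) .n))

def s170_191_247 : T TT 256 :=
  (.q k1 [(.s k21 k213 7 (.s k61 k41 5 (.s k105 k193 13 (.s k125 k65 5 (.d k253 k189 k169 7 13))))),
  (.s k3 k2 0 (.s k169 k253 13 (.s k129 k189 5 (.s k192 k66 8 (.s k64 k128 7 (.d k106 k127 k63 6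
  14)))))), (.s k3 k2 0 (.s k21 k213 7 (.s k41 k61 5 (.s k22 k60 6 (.s k23 k20 0 (.d k63 k43 k42 5
  6))))))] (.c k61 (.l (.s k3 k2 0 (.s k21 k213 7 (.s k63 k42 6 (.s k23 k43 5 (.s k86 k212 8 (.d
  k169 k253 k252 13 14))))))) .n))

def s170_191_248 : T TT 256 :=
  (.q k1 [(.s k21 k213 7 (.s k61 k41 5 (.s k105 k193 13 (.s k125 k65 5 (.d k253 k189 k169 7 13))))),
  (.s k3 k2 0 (.s k21 k213 7 (.s k41 k61 5 (.s k22 k60 6 (.s k23 k20 0 (.d k63 k43 k42 5 6)))))),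
  (.s k3 k2 0 (.s k169 k253 13 (.s k129 k189 5 (.s k192 k66 8 (.s k64 k128 7 (.d k106 k127 k63 6
  14))))))] (.c k61 (.l (.s k3 k2 0 (.s k21 k213 7 (.s k63 k42 6 (.s k23 k43 5 (.s k86 k212 8 (.d
  k169 k253 k252 13 14))))))) .n))

def s170_191_249 : T TT 256 :=
  (.q k1 [(.s k21 k213 7 (.s k61 k41 5 (.s k105 k193 13 (.s k125 k65 5 (.d k253 k189 k169 7 13))))),
  (.s k3 k2 0 (.s k21 k213 7 (.s k41 k61 5 (.s k22 k60 6 (.s k23 k20 0 (.d k63 k43 k42 5 6)))))),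
  (.s k3 k2 0 (.s k169 k253 13 (.s k129 k189 5 (.s k192 k66 8 (.s k64 k128 7 (.d k106 k127 k63 6
  14))))))] (.c k61 (.l (.s k3 k2 0 (.s k21 k213 7 (.s k63 k42 6 (.s k23 k43 5 (.s k86 k212 8 (.d
  k169 k253 k252 13 14))))))) .n))

def s170_191_250 : T TT 256 :=
  (.q k90 [(.s k21 k213 7 (.s k31 k208 10 (.s k16 k26 2 (.s k95 k80 2 (.d k223 k159 k154 7 10))))),
  (.s k21 k213 7 (.s k63 k42 6 (.s k80 k95 2 (.s k106 k192 14 (.s k122 k74 3 (.d k240 k181 k160 10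
  11)))))), (.s k21 k213 7 (.s k31 k208 10 (.s k63 k42 6 (.s k15 k47 3 (.s k5 k10 2 (.d k165 k245
  k240 11 14)))))), (.s k80 k95 2 (.s k208 k31 10 (.s k240 k160 11 (.s k192 k224 3 (.s k64 k128 7
  (.d k106 k127 k63 6 14))))))] .n)

def s170_191_251 : T TT 256 :=
  (.q k89 [(.s k21 k213 7 (.s k29 k209 9 (.s k17 k25 1 (.s k93 k81 1 (.d k221 k157 k153 7 9))))),
  (.s k21 k213 7 (.s k63 k42 6 (.s k81 k93 1 (.s k106 k192 14 (.s k123 k72 4 (.d k243 k183 k162 9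
  12)))))), (.s k21 k213 7 (.s k29 k209 9 (.s k63 k42 6 (.s k12 k46 4 (.s k4 k8 1 (.d k166 k247 k243
  12 14)))))), (.s k81 k93 1 (.s k209 k29 9 (.s k243 k162 12 (.s k192 k226 4 (.s k64 k128 7 (.d k106
  k127 k63 6 14))))))] .n)

def s170_191_252 : T TT 256 :=
  (.q k1 [(.s k21 k213 7 (.s k61 k41 5 (.s k105 k193 13 (.s k125 k65 5 (.d k253 k189 k169 7 13))))),
  (.s k3 k2 0 (.s k21 k213 7 (.s k63 k42 6 (.s k43 k23 5 (.s k106 k192 14 (.d k169 k232 k253 8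
  13)))))), (.s k3 k2 0 (.s k169 k253 13 (.s k129 k189 5 (.s k192 k66 8 (.s k64 k128 7 (.d k106 k63
  k127 14 6)))))), (.s k3 k2 0 (.s k21 k213 7 (.s k41 k61 5 (.s k22 k60 6 (.s k23 k20 0 (.d k63 k43
  k42 5 6))))))] .n)

def s170_191_253 : T TT 256 :=
  (.q k4 [(.s k21 k213 7 (.s k55 k38 4 (.s k102 k196 12 (.s k119 k68 4 (.d k247 k183 k166 7 12))))),
  (.s k12 k8 1 (.s k166 k247 12 (.s k132 k183 4 (.s k192 k72 9 (.s k64 k128 7 (.d k106 k127 k63 6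
  14)))))), (.s k12 k8 1 (.s k21 k213 7 (.s k38 k55 4 (.s k25 k51 6 (.s k29 k17 1 (.d k63 k46 k42 4
  6))))))] (.c k55 (.l (.s k12 k8 1 (.s k21 k213 7 (.s k63 k42 6 (.s k29 k46 4 (.s k89 k209 9 (.d
  k166 k247 k243 12 14))))))) .n))

def s170_191_254 : T TT 256 :=
  (.q k86 [(.s k21 k213 7 (.s k23 k212 8 (.s k20 k22 0 (.s k87 k84 0 (.d k215 k151 k150 7 8))))),
  (.s k21 k213 7 (.s k63 k42 6 (.s k84 k87 0 (.s k106 k192 14 (.s k126 k66 5 (.d k252 k189 k168 8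
  13)))))), (.s k21 k213 7 (.s k23 k212 8 (.s k63 k42 6 (.s k3 k43 5 (.s k1 k2 0 (.d k169 k253 k252
  13 14)))))), (.s k84 k87 0 (.s k212 k23 8 (.s k252 k168 13 (.s k192 k232 5 (.s k64 k128 7 (.d k106
  k127 k63 6 14))))))] .n)

def s170_191_255 : T TT 256 :=
  (.q k101 [(.s k21 k213 7 (.s k53 k197 11 (.s k5 k37 3 (.s k117 k69 3 (.d k245 k181 k165 7 11))))),
  (.s k21 k213 7 (.s k63 k42 6 (.s k69 k117 3 (.s k207 k138 10 (.s k111 k159 11 (.d k106 k192 k96 14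
  2)))))), (.s k69 k117 3 (.s k197 k53 11 (.s k207 k138 10 (.s k192 k202 2 (.s k64 k128 7 (.d k106
  k127 k63 6 14)))))), (.s k21 k213 7 (.s k53 k197 11 (.s k63 k42 6 (.s k48 k58 2 (.s k16 k32 3 (.d
  k154 k223 k207 10 14))))))] (.c k63 (.q k127 [(.s k21 k213 7 (.s k53 k197 11 (.s k5 k37 3 (.s k117
  k69 3 (.d k245 k181 k165 7 11))))), (.s k64 k106 6 (.s k69 k117 3 (.s k79 k74 2 (.s k90 k112 6 (.d
  k95 k80 k111 2 3)))))] (.c k69 (.q k1 [(.s k213 k21 7 (.s k253 k169 13 (.s k193 k233 5 (.s k65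
  k129 7 (.d k105 k125 k61 5 13))))), (.s k3 k2 0 (.s k64 k106 6 (.s k169 k253 13 (.s k192 k128 7
  (.d k129 k189 k66 5 8))))), (.s k21 k213 7 (.s k53 k197 11 (.s k61 k41 5 (.s k49 k57 1 (.s k17 k33
  3 (.d k153 k221 k205 9 13))))))] .n) (.c k117 (.l (.s k64 k106 6 (.s k192 k128 7 (.s k197 k53 11
  (.s k207 k202 2 (.s k69 k138 10 (.s k74 k79 2 (.d k133 k5 k15 7 10)))))))) (.c k234 (.l (.s k53
  k197 11 (.s k117 k69 3 (.s k245 k181 7 (.s k5 k165 11 (.d k21 k37 k213 3 7)))))) .n)))) (.c k127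
  (.q k63 [(.d k21 k42 k213 6 7), (.s k53 k197 11 (.s k48 k58 2 (.s k16 k32 3 (.d k154 k223 k207 10
  14))))] .n) (.c k192 (.l (.s k53 k197 11 (.s k117 k69 3 (.s k245 k181 7 (.s k5 k165 11 (.d k21 k37
  k213 3 7)))))) .n))))

def t170_191 : T TT 256 :=
  (.q k149 [] (.c k1 s170_191_1 (.c k2 s170_191_2 (.c k3 s170_191_3 (.c k4 s170_191_4 (.c k5
  s170_191_5 (.c k6 s170_191_6 (.c k7 s170_191_7 (.c k8 s170_191_8 (.c k9 s170_191_9 (.c k10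
  s170_191_10 (.c k11 s170_191_11 (.c k12 s170_191_12 (.c k13 s170_191_13 (.c k14 s170_191_14 (.c
  k15 s170_191_15 (.c k16 s170_191_16 (.c k17 s170_191_17 (.c k18 s170_191_18 (.c k19 s170_191_19
  (.c k20 s170_191_20 (.c k21 s170_191_21 (.c k22 s170_191_22 (.c k23 s170_191_23 (.c k24
  s170_191_24 (.c k25 s170_191_25 (.c k26 s170_191_26 (.c k27 s170_191_27 (.c k28 s170_191_28 (.c
  k29 s170_191_29 (.c k30 s170_191_30 (.c k31 s170_191_31 (.c k32 s170_191_32 (.c k33 s170_191_33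
  (.c k34 s170_191_34 (.c k35 s170_191_35 (.c k36 s170_191_36 (.c k37 s170_191_37 (.c k38
  s170_191_38 (.c k39 s170_191_39 (.c k40 s170_191_40 (.c k41 s170_191_41 (.c k42 s170_191_42 (.c
  k43 s170_191_43 (.c k44 s170_191_44 (.c k45 s170_191_45 (.c k46 s170_191_46 (.c k47 s170_191_47
  (.c k48 s170_191_48 (.c k49 s170_191_49 (.c k50 s170_191_50 (.c k51 s170_191_51 (.c k52
  s170_191_52 (.c k53 s170_191_53 (.c k54 s170_191_54 (.c k55 s170_191_55 (.c k56 s170_191_56 (.c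
  k57 s170_191_57 (.c k58 s170_191_58 (.c k59 s170_191_59 (.c k60 s170_191_60 (.c k61 s170_191_61
  (.c k62 s170_191_62 (.c k63 s170_191_63 (.c k64 s170_191_64 (.c k65 s170_191_65 (.c k66
  s170_191_66 (.c k67 s170_191_67 (.c k68 s170_191_68 (.c k69 s170_191_69 (.c k70 s170_191_70 (.c
  k71 s170_191_71 (.c k72 s170_191_72 (.c k73 s170_191_73 (.c k74 s170_191_74 (.c k75 s170_191_75
  (.c k76 s170_191_76 (.c k77 s170_191_77 (.c k78 s170_191_78 (.c k79 s170_191_79 (.c k80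
  s170_191_80 (.c k81 s170_191_81 (.c k82 s170_191_82 (.c k83 s170_191_83 (.c k84 s170_191_84 (.c
  k86 s170_191_86 (.c k87 s170_191_87 (.c k88 s170_191_88 (.c k89 s170_191_89 (.c k90 s170_191_90
  (.c k91 s170_191_91 (.c k92 s170_191_92 (.c k93 s170_191_93 (.c k94 s170_191_94 (.c k95
  s170_191_95 (.c k96 s170_191_96 (.c k97 s170_191_97 (.c k98 s170_191_98 (.c k99 s170_191_99 (.c
  k100 s170_191_100 (.c k101 s170_191_101 (.c k102 s170_191_102 (.c k103 s170_191_103 (.c k104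
  s170_191_104 (.c k105 s170_191_105 (.c k106 s170_191_106 (.c k107 s170_191_107 (.c k108
  s170_191_108 (.c k109 s170_191_109 (.c k110 s170_191_110 (.c k111 s170_191_111 (.c k112
  s170_191_112 (.c k113 s170_191_113 (.c k114 s170_191_114 (.c k115 s170_191_115 (.c k116
  s170_191_116 (.c k117 s170_191_117 (.c k118 s170_191_118 (.c k119 s170_191_119 (.c k120
  s170_191_120 (.c k121 s170_191_121 (.c k122 s170_191_122 (.c k123 s170_191_123 (.c k124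
  s170_191_124 (.c k125 s170_191_125 (.c k126 s170_191_126 (.c k127 s170_191_127 (.c k128
  s170_191_128 (.c k129 s170_191_129 (.c k130 s170_191_130 (.c k131 s170_191_131 (.c k132
  s170_191_132 (.c k133 s170_191_133 (.c k134 s170_191_134 (.c k135 s170_191_135 (.c k136
  s170_191_136 (.c k137 s170_191_137 (.c k138 s170_191_138 (.c k139 s170_191_139 (.c k140
  s170_191_140 (.c k141 s170_191_141 (.c k142 s170_191_142 (.c k143 s170_191_143 (.c k144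
  s170_191_144 (.c k145 s170_191_145 (.c k146 s170_191_146 (.c k147 s170_191_147 (.c k148
  s170_191_148 (.c k150 s170_191_150 (.c k151 s170_191_151 (.c k152 s170_191_152 (.c k153
  s170_191_153 (.c k154 s170_191_154 (.c k155 s170_191_155 (.c k156 s170_191_156 (.c k157
  s170_191_157 (.c k158 s170_191_158 (.c k159 s170_191_159 (.c k160 s170_191_160 (.c k161
  s170_191_161 (.c k162 s170_191_162 (.c k163 s170_191_163 (.c k164 s170_191_164 (.c k165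
  s170_191_165 (.c k166 s170_191_166 (.c k167 s170_191_167 (.c k168 s170_191_168 (.c k169
  s170_191_169 (.c k171 s170_191_171 (.c k172 s170_191_172 (.c k173 s170_191_173 (.c k174
  s170_191_174 (.c k175 s170_191_175 (.c k176 s170_191_176 (.c k177 s170_191_177 (.c k178
  s170_191_178 (.c k179 s170_191_179 (.c k180 s170_191_180 (.c k181 s170_191_181 (.c k182
  s170_191_182 (.c k183 s170_191_183 (.c k184 s170_191_184 (.c k185 s170_191_185 (.c k186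
  s170_191_186 (.c k187 s170_191_187 (.c k188 s170_191_188 (.c k189 s170_191_189 (.c k190
  s170_191_190 (.c k192 s170_191_192 (.c k193 s170_191_193 (.c k194 s170_191_194 (.c k195
  s170_191_195 (.c k196 s170_191_196 (.c k197 s170_191_197 (.c k198 s170_191_198 (.c k199
  s170_191_199 (.c k200 s170_191_200 (.c k201 s170_191_201 (.c k202 s170_191_202 (.c k203
  s170_191_203 (.c k204 s170_191_204 (.c k205 s170_191_205 (.c k206 s170_191_206 (.c k207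
  s170_191_207 (.c k208 s170_191_208 (.c k209 s170_191_209 (.c k210 s170_191_210 (.c k211
  s170_191_211 (.c k212 s170_191_212 (.c k213 s170_191_213 (.c k214 s170_191_214 (.c k215
  s170_191_215 (.c k216 s170_191_216 (.c k217 s170_191_217 (.c k218 s170_191_218 (.c k219
  s170_191_219 (.c k220 s170_191_220 (.c k221 s170_191_221 (.c k222 s170_191_222 (.c k223
  s170_191_223 (.c k224 s170_191_224 (.c k225 s170_191_225 (.c k226 s170_191_226 (.c k227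
  s170_191_227 (.c k228 s170_191_228 (.c k229 s170_191_229 (.c k230 s170_191_230 (.c k231
  s170_191_231 (.c k232 s170_191_232 (.c k233 s170_191_233 (.c k234 s170_191_234 (.c k235
  s170_191_235 (.c k236 s170_191_236 (.c k237 s170_191_237 (.c k238 s170_191_238 (.c k239
  s170_191_239 (.c k240 s170_191_240 (.c k241 s170_191_241 (.c k242 s170_191_242 (.c k243
  s170_191_243 (.c k244 s170_191_244 (.c k245 s170_191_245 (.c k246 s170_191_246 (.c k247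
  s170_191_247 (.c k248 s170_191_248 (.c k249 s170_191_249 (.c k250 s170_191_250 (.c k251
  s170_191_251 (.c k252 s170_191_252 (.c k253 s170_191_253 (.c k254 s170_191_254 (.c k255
  s170_191_255 .n))))))))))))))))))))))))))))))))))))))))))))))))))))))))))))))))))))))))))))))))
  ))))))))))))))))))))))))))))))))))))))))))))))))))))))))))))))))))))))))))))))))
  )))))))))))))))))))))))))))))))))))))))))))))))))))))))))))))))))))))))))))))))) ))))))))))))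

def s170_255_1 : T TT 256 :=
  (.q k86 [(.s k84 k87 0 (.d k252 k168 k169 13 14))] (.c k84 (.q k12 [(.s k6 k9 2 (.s k166 k246 11
  (.d k4 k8 k247 1 12))), (.s k9 k6 2 (.s k169 k252 14 (.s k89 k249 11 (.s k81 k93 1 (.s k83 k92 2
  (.d k243 k163 k162 11 12)))))), (.s k4 k8 1 (.s k166 k247 12 (.s k169 k252 14 (.s k163 k172 2 (.d
  k243 k89 k83 14 11)))))] .n) (.c k87 (.q k6 [(.s k12 k9 2 (.s k166 k246 11 (.d k4 k8 k247 1 12))),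
  (.s k166 k246 11 (.s k4 k247 12 (.s k12 k8 1 (.s k169 k252 14 (.s k163 k172 2 (.d k243 k89 k83 14
  11)))))), (.s k12 k9 2 (.s k8 k4 1 (.s k252 k169 14 (.s k168 k84 13 (.s k88 k248 11 (.s k164 k240
  13 (.d k172 k160 k92 1 11))))))), (.s k12 k9 2 (.s k166 k246 11 (.s k89 k243 14 (.s k92 k83 2 (.d
  k252 k172 k169 11 14)))))] (.c k12 (.l (.s k166 k246 11 (.s k4 k247 12 (.s k7 k5 0 (.s k244 k165
  12 (.s k84 k164 11 (.d k252 k168 k169 13 14))))))) .n)) (.c k168 (.q k195 [(.s k67 k131 7 (.s k105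
  k124 6 (.d k65 k125 k130 5 8))), (.s k65 k130 8 (.s k105 k125 5 (.s k169 k252 14 (.s k41 k233 7
  (.d k60 k150 k22 14 6))))), (.s k67 k131 7 (.s k105 k124 6 (.s k60 k150 14 (.s k41 k22 6 (.d k169
  k233 k252 7 14)))))] (.c k105 (.l (.s k65 k130 8 (.s k67 k131 7 (.s k64 k66 0 (.s k87 k84 0 (.d
  k127 k107 k106 5 6)))))) (.c k130 (.l (.s k67 k131 7 (.s k105 k124 6 (.s k150 k60 14 (.s k214 k22
  7 (.d k252 k233 k169 6 14)))))) (.c k169 (.q k171 [(.s k67 k131 7 (.s k105 k124 6 (.d k65 k125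
  k130 5 8))), (.s k87 k84 0 (.s k131 k67 7 (.s k151 k191 5 (.s k23 k215 7 (.d k63 k43 k107 5
  13)))))] (.c k67 (.q k4 [(.s k166 k247 12 (.s k6 k246 11 (.d k12 k8 k9 1 2))), (.s k12 k8 1 (.s
  k130 k65 8 (.s k134 k73 10 (.s k69 k199 8 (.d k138 k142 k207 1 10))))), (.s k84 k87 0 (.s k244
  k164 11 (.s k7 k165 12 (.s k5 k6 0 (.d k15 k11 k10 1 2)))))] .n) (.c k131 (.l (.s k65 k130 8 (.s
  k87 k84 0 (.s k105 k125 5 (.s k67 k124 6 (.s k64 k66 0 (.d k127 k107 k106 5 6))))))) .n))) (.c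
  k171 (.l (.s k169 k252 14 (.s k65 k130 8 (.s k67 k131 7 (.d k105 k125 k124 5 6))))) .n))))) (.c
  k169 (.f k84 k87 0 (.q k102 [(.s k70 k118 3 (.s k204 k137 10 (.d k68 k119 k136 4 9))), (.s k68
  k119 4 (.s k116 k100 3 (.s k71 k101 4 (.s k69 k70 0 (.d k207 k139 k138 9 10))))), (.s k68 k119 4
  (.s k100 k116 3 (.s k168 k252 13 (.s k32 k236 9 (.s k48 k16 3 (.d k204 k136 k152 9 13))))))] (.c
  k68 (.l (.s k70 k118 3 (.s k204 k137 10 (.s k153 k51 14 (.s k220 k19 10 (.d k252 k236 k168 3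
  13)))))) (.c k119 (.l (.s k70 k118 3 (.s k204 k137 10 (.s k68 k136 9 (.s k116 k100 3 (.d k71 k69
  k101 0 4)))))) (.c k168 (.q k171 [(.s k70 k118 3 (.s k204 k137 10 (.d k68 k119 k136 4 9))), (.s
  k68 k119 4 (.s k116 k100 3 (.s k71 k101 4 (.s k69 k70 0 (.d k207 k139 k138 9 10))))), (.s k68 k119
  4 (.s k100 k116 3 (.s k204 k136 9 (.s k152 k48 13 (.s k220 k16 9 (.d k153 k51 k19 14 10))))))] (.c
  k68 (.l (.s k70 k118 3 (.s k204 k137 10 (.s k153 k51 14 (.s k220 k19 10 (.s k16 k152 9 (.s k221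
  k17 9 (.d k223 k222 k154 0 10)))))))) (.c k119 (.l (.s k70 k118 3 (.s k204 k137 10 (.s k68 k136 9
  (.s k116 k100 3 (.d k71 k69 k101 0 4)))))) .n))) (.c k171 (.l (.s k168 k252 13 (.s k68 k119 4 (.s
  k70 k118 3 (.d k204 k136 k137 9 10))))) .n)))))) (.c k252 (.f k84 k87 0 (.q k68 [(.s k116 k100 3
  (.s k101 k71 4 (.s k117 k69 3 (.d k119 k118 k102 0 4)))), (.s k204 k136 9 (.s k70 k137 10 (.d k102
  k118 k119 3 4))), (.s k116 k100 3 (.s k71 k101 4 (.s k69 k70 0 (.d k207 k139 k138 9 10))))] (.c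
  k69 (.l (.s k102 k119 4 (.s k70 k118 3 (.d k204 k136 k137 9 10)))) (.c k102 (.l (.s k116 k100 3
  (.s k204 k136 9 (.s k70 k137 10 (.d k71 k69 k101 0 4))))) (.c k253 (.q k254 [(.s k116 k100 3 (.s
  k101 k71 4 (.s k117 k69 3 (.d k119 k118 k102 0 4)))), (.s k204 k136 9 (.s k70 k137 10 (.d k102
  k118 k119 3 4))), (.s k116 k100 3 (.s k71 k101 4 (.s k69 k70 0 (.d k207 k139 k138 9 10))))] (.c
  k69 (.l (.s k102 k119 4 (.s k70 k118 3 (.d k204 k136 k137 9 10)))) (.c k102 (.l (.s k116 k100 3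
  (.s k204 k136 9 (.s k70 k137 10 (.d k71 k69 k101 0 4))))) .n))) (.c k254 (.q k253 [(.s k102 k119 4
  (.s k204 k136 9 (.d k70 k118 k137 3 10))), (.s k116 k100 3 (.s k71 k101 4 (.s k69 k70 0 (.d k207
  k139 k138 9 10)))), (.s k204 k136 9 (.s k70 k137 10 (.d k102 k118 k119 3 4)))] (.c k70 (.l (.s
  k116 k100 3 (.s k101 k71 4 (.s k117 k69 3 (.d k119 k118 k102 0 4))))) (.c k102 (.l (.s k116 k100 3
  (.s k204 k136 9 (.s k70 k137 10 (.d k71 k69 k101 0 4))))) .n))) .n)))))) .n))))))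

def s170_255_2 : T TT 256 :=
  (.q k86 [(.s k84 k87 0 (.d k252 k168 k169 13 14))] (.c k84 (.q k7 [(.s k15 k11 1 (.s k165 k244 12
  (.d k5 k10 k245 2 11))), (.s k165 k244 12 (.s k169 k252 14 (.s k173 k161 1 (.s k245 k5 11 (.s k253
  k1 13 (.s k13 k93 11 (.d k241 k249 k89 1 13))))))), (.s k15 k11 1 (.s k5 k10 2 (.s k165 k245 11
  (.s k169 k252 14 (.s k161 k173 1 (.d k240 k90 k82 14 12)))))), (.s k15 k11 1 (.s k5 k10 2 (.s k6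
  k4 0 (.s k9 k12 2 (.s k1 k13 1 (.d k169 k253 k252 13 14))))))] (.c k5 (.l (.s k15 k11 1 (.s k165
  k244 12 (.s k90 k240 14 (.s k94 k82 1 (.d k252 k173 k169 12 14)))))) .n)) (.c k87 (.q k6 [(.s k12
  k9 2 (.s k166 k246 11 (.d k4 k8 k247 1 12))), (.s k166 k246 11 (.s k4 k247 12 (.s k7 k5 0 (.s k244
  k165 12 (.s k84 k164 11 (.d k252 k168 k169 13 14)))))), (.s k12 k9 2 (.s k4 k8 1 (.s k7 k5 0 (.s
  k244 k165 12 (.s k252 k169 14 (.d k84 k168 k164 13 11))))))] (.c k4 (.l (.s k12 k9 2 (.s k166 k246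
  11 (.s k89 k243 14 (.s k92 k83 2 (.d k252 k172 k169 11 14)))))) .n)) (.c k168 (.q k106 [(.s k66
  k126 5 (.s k192 k129 8 (.d k64 k127 k128 6 7))), (.s k66 k126 5 (.s k169 k252 14 (.s k43 k232 8
  (.s k63 k23 5 (.d k192 k129 k149 8 14))))), (.s k64 k127 6 (.s k169 k252 14 (.s k43 k232 8 (.s k63
  k23 5 (.d k192 k128 k149 7 14)))))] (.c k169 (.q k171 [(.s k66 k126 5 (.s k192 k129 8 (.d k64 k127
  k128 6 7))), (.s k64 k127 6 (.s k84 k87 0 (.s k124 k104 5 (.s k67 k105 6 (.s k65 k66 0 (.d k195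
  k130 k131 8 7))))))] (.c k64 (.q k4 [(.s k166 k247 12 (.s k6 k246 11 (.d k12 k8 k9 1 2))), (.s k84
  k87 0 (.s k244 k164 11 (.s k7 k165 12 (.s k5 k6 0 (.d k15 k10 k11 2 1)))))] (.c k6 (.l (.s k84 k87
  0 (.s k244 k164 11 (.s k165 k7 12 (.s k245 k5 11 (.d k247 k246 k166 0 12)))))) (.c k166 (.l (.s
  k12 k8 1 (.s k6 k9 2 (.s k7 k5 0 (.s k84 k87 0 (.d k244 k164 k165 11 12)))))) (.c k244 (.l (.s k12
  k8 1 (.s k6 k9 2 (.d k166 k246 k247 11 12)))) .n)))) (.c k66 (.l (.s k64 k127 6 (.s k84 k87 0 (.s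
  k104 k124 5 (.s k192 k128 7 (.s k148 k60 13 (.s k212 k20 7 (.d k149 k63 k23 14 8)))))))) (.c k127
  (.l (.s k66 k126 5 (.s k84 k87 0 (.s k192 k129 8 (.s k64 k128 7 (.s k67 k65 0 (.d k124 k104 k105 5
  6))))))) .n)))) (.c k171 (.l (.s k169 k252 14 (.s k64 k127 6 (.s k66 k126 5 (.d k192 k128 k129 7
  8))))) (.c k192 (.l (.s k64 k127 6 (.s k66 k126 5 (.s k67 k65 0 (.s k84 k87 0 (.d k124 k104 k105 5
  6)))))) .n)))) (.c k169 (.f k84 k87 0 (.q k102 [(.s k70 k118 3 (.s k204 k137 10 (.d k68 k119 k136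
  4 9))), (.s k68 k119 4 (.s k116 k100 3 (.s k71 k101 4 (.s k69 k70 0 (.d k207 k138 k139 10 9)))))]
  (.c k68 (.l (.s k70 k118 3 (.s k204 k137 10 (.s k153 k51 14 (.s k220 k19 10 (.d k252 k236 k168 3
  13)))))) (.c k70 (.l (.s k68 k119 4 (.s k100 k116 3 (.s k168 k252 13 (.s k32 k236 9 (.s k48 k16 3
  (.d k204 k136 k152 9 13))))))) (.c k119 (.l (.s k70 k118 3 (.s k204 k137 10 (.s k68 k136 9 (.s k71
  k69 0 (.d k116 k100 k101 3 4)))))) (.c k168 (.q k171 [(.s k70 k118 3 (.s k204 k137 10 (.d k68 k119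
  k136 4 9))), (.s k68 k119 4 (.s k116 k100 3 (.s k71 k101 4 (.s k69 k70 0 (.d k207 k138 k139 10
  9)))))] (.c k68 (.l (.s k70 k118 3 (.s k204 k137 10 (.s k153 k51 14 (.s k220 k19 10 (.s k16 k152 9
  (.s k221 k17 9 (.d k223 k222 k154 0 10)))))))) (.c k70 (.l (.s k68 k119 4 (.s k100 k116 3 (.s k204
  k136 9 (.s k152 k48 13 (.s k220 k16 9 (.d k153 k51 k19 14 10))))))) (.c k119 (.l (.s k70 k118 3
  (.s k204 k137 10 (.s k68 k136 9 (.s k71 k69 0 (.d k116 k100 k101 3 4)))))) .n)))) (.c k171 (.l (.s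
  k168 k252 13 (.s k68 k119 4 (.s k70 k118 3 (.d k204 k136 k137 9 10))))) .n))))))) (.c k252 (.f k87
  k84 0 (.q k83 [(.s k89 k92 2 (.s k243 k163 11 (.d k81 k93 k162 1 12))), (.s k92 k89 2 (.s k95 k91
  1 (.s k90 k80 2 (.d k94 k93 k82 0 1)))), (.s k95 k91 1 (.s k243 k163 11 (.s k81 k162 12 (.d k80
  k82 k90 0 2))))] (.c k80 (.l (.s k243 k163 11 (.s k81 k162 12 (.d k89 k93 k92 1 2)))) (.c k253 (.q
  k254 [(.s k89 k92 2 (.s k243 k163 11 (.d k81 k93 k162 1 12))), (.s k92 k89 2 (.s k95 k91 1 (.s k90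
  k80 2 (.d k94 k93 k82 0 1)))), (.s k95 k91 1 (.s k243 k163 11 (.s k81 k162 12 (.d k80 k82 k90 0
  2))))] (.c k80 (.l (.s k243 k163 11 (.s k81 k162 12 (.d k89 k93 k92 1 2)))) .n)) (.c k254 (.q k253
  [(.s k89 k92 2 (.s k243 k163 11 (.d k81 k93 k162 1 12))), (.s k92 k89 2 (.s k95 k91 1 (.s k90 k80
  2 (.d k94 k93 k82 0 1)))), (.s k95 k91 1 (.s k243 k163 11 (.s k81 k162 12 (.d k80 k82 k90 0 2))))]
  (.c k80 (.l (.s k243 k163 11 (.s k81 k162 12 (.d k89 k93 k92 1 2)))) .n)) .n))))) .n))))))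

def s170_255_4 : T TT 256 :=
  (.q k17 [(.s k2 k1 0 (.s k34 k51 4 (.s k18 k50 3 (.s k16 k19 0 (.d k48 k32 k33 3 4))))), (.s k1 k2
  0 (.s k49 k33 3 (.s k153 k221 9 (.s k101 k205 13 (.s k117 k69 3 (.d k253 k185 k169 9 13)))))), (.s
  k51 k34 4 (.s k19 k35 3 (.s k153 k221 9 (.s k86 k220 10 (.s k84 k87 0 (.d k252 k168 k169 13
  14))))))] (.c k33 (.l (.s k1 k2 0 (.s k51 k34 4 (.s k35 k19 3 (.s k153 k221 9 (.s k169 k253 13 (.d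
  k102 k204 k236 14 10))))))) .n))

def s170_255_5 : T TT 256 :=
  (.q k17 [(.s k1 k2 0 (.s k33 k49 3 (.s k18 k48 4 (.s k19 k16 0 (.d k51 k35 k34 3 4))))), (.s k51
  k34 4 (.s k19 k35 3 (.s k153 k221 9 (.s k86 k220 10 (.s k84 k87 0 (.d k252 k168 k169 13 14)))))),
  (.s k1 k2 0 (.s k49 k33 3 (.s k153 k221 9 (.s k101 k205 13 (.s k117 k69 3 (.d k253 k185 k169 9
  13))))))] (.c k33 (.l (.s k1 k2 0 (.s k51 k34 4 (.s k35 k19 3 (.s k153 k221 9 (.s k169 k253 13 (.d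
  k102 k204 k236 14 10))))))) (.c k86 (.l (.s k2 k1 0 (.s k34 k51 4 (.s k18 k50 3 (.s k16 k19 0 (.d
  k48 k32 k33 3 4)))))) .n)))

def s170_255_6 : T TT 256 :=
  (.q k17 [(.s k2 k1 0 (.s k34 k51 4 (.s k18 k50 3 (.s k16 k19 0 (.d k48 k32 k33 3 4))))), (.s k1 k2
  0 (.s k49 k33 3 (.s k153 k221 9 (.s k101 k205 13 (.s k117 k69 3 (.d k253 k185 k169 9 13)))))), (.s
  k51 k34 4 (.s k19 k35 3 (.s k153 k221 9 (.s k86 k220 10 (.s k84 k87 0 (.d k252 k168 k169 13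
  14))))))] (.c k33 (.l (.s k1 k2 0 (.s k51 k34 4 (.s k35 k19 3 (.s k153 k221 9 (.s k169 k253 13 (.d
  k102 k204 k236 14 10))))))) .n))

def s170_255_7 : T TT 256 :=
  (.q k17 [(.s k2 k1 0 (.s k34 k51 4 (.s k18 k50 3 (.s k16 k19 0 (.d k48 k32 k33 3 4))))), (.s k1 k2
  0 (.s k49 k33 3 (.s k153 k221 9 (.s k101 k205 13 (.s k117 k69 3 (.d k253 k185 k169 9 13)))))), (.s
  k51 k34 4 (.s k19 k35 3 (.s k153 k221 9 (.s k86 k220 10 (.s k84 k87 0 (.d k252 k168 k169 13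
  14))))))] (.c k33 (.l (.s k1 k2 0 (.s k51 k34 4 (.s k35 k19 3 (.s k153 k221 9 (.s k169 k253 13 (.d
  k102 k204 k236 14 10))))))) .n))

def s170_255_8 : T TT 256 :=
  (.q k89 [(.s k2 k1 0 (.s k81 k93 1 (.s k162 k243 12 (.s k82 k242 11 (.s k80 k83 0 (.d k240 k160
  k161 11 12)))))), (.s k1 k2 0 (.s k93 k81 1 (.s k253 k169 13 (.s k13 k173 11 (.s k5 k9 1 (.d k165
  k245 k241 11 13)))))), (.s k81 k93 1 (.s k243 k162 12 (.s k83 k163 11 (.s k86 k92 2 (.s k84 k87 0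
  (.d k252 k168 k169 13 14)))))), (.s k1 k2 0 (.s k169 k253 13 (.s k9 k249 11 (.s k12 k6 2 (.s k166
  k243 14 (.s k172 k163 2 (.d k252 k86 k92 14 11)))))))] .n)

def s170_255_9 : T TT 256 :=
  (.q k17 [(.s k1 k2 0 (.s k33 k49 3 (.s k18 k48 4 (.s k19 k16 0 (.d k51 k35 k34 3 4))))), (.s k51
  k34 4 (.s k19 k35 3 (.s k153 k221 9 (.s k86 k220 10 (.s k84 k87 0 (.d k252 k168 k169 13 14)))))),
  (.s k1 k2 0 (.s k49 k33 3 (.s k153 k221 9 (.s k101 k205 13 (.s k117 k69 3 (.d k253 k185 k169 9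
  13))))))] (.c k33 (.l (.s k1 k2 0 (.s k51 k34 4 (.s k35 k19 3 (.s k153 k221 9 (.s k169 k253 13 (.d
  k102 k204 k236 14 10))))))) (.c k86 (.l (.s k2 k1 0 (.s k34 k51 4 (.s k18 k50 3 (.s k16 k19 0 (.d
  k48 k32 k33 3 4)))))) .n)))

def s170_255_10 : T TT 256 :=
  (.q k51 [(.s k2 k1 0 (.s k34 k17 4 (.s k18 k50 3 (.s k33 k48 4 (.d k35 k32 k19 0 3))))), (.s k1 k2
  0 (.s k35 k19 3 (.s k169 k253 13 (.s k102 k236 10 (.s k68 k119 4 (.d k204 k136 k153 9 14)))))),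
  (.s k17 k34 4 (.s k19 k35 3 (.s k153 k221 9 (.s k86 k220 10 (.s k84 k87 0 (.d k252 k168 k169 13
  14)))))), (.s k1 k2 0 (.s k17 k34 4 (.s k153 k221 9 (.s k169 k253 13 (.s k137 k185 3 (.d k204 k102
  k70 14 10))))))] (.c k90 (.q k250 [(.s k2 k1 0 (.s k34 k17 4 (.s k18 k50 3 (.s k33 k48 4 (.d k35
  k32 k19 0 3))))), (.s k1 k2 0 (.s k35 k19 3 (.s k169 k253 13 (.s k102 k236 10 (.s k68 k119 4 (.d
  k204 k136 k153 9 14)))))), (.s k17 k34 4 (.s k19 k35 3 (.s k153 k221 9 (.s k86 k220 10 (.s k84 k87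
  0 (.d k252 k168 k169 13 14)))))), (.s k1 k2 0 (.s k17 k34 4 (.s k153 k221 9 (.s k169 k253 13 (.s
  k137 k185 3 (.d k204 k102 k70 14 10))))))] .n) (.c k250 (.q k90 [(.s k2 k1 0 (.s k34 k17 4 (.s k18
  k50 3 (.s k33 k48 4 (.d k35 k32 k19 0 3))))), (.s k1 k2 0 (.s k35 k19 3 (.s k169 k253 13 (.s k102
  k236 10 (.s k68 k119 4 (.d k204 k136 k153 9 14)))))), (.s k17 k34 4 (.s k19 k35 3 (.s k153 k221 9
  (.s k86 k220 10 (.s k84 k87 0 (.d k252 k168 k169 13 14)))))), (.s k1 k2 0 (.s k17 k34 4 (.s k153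
  k221 9 (.s k169 k253 13 (.s k137 k185 3 (.d k204 k102 k70 14 10))))))] (.c k240 (.q k245 [(.s k2
  k1 0 (.s k35 k19 3 (.s k34 k17 4 (.s k33 k32 0 (.d k18 k50 k48 3 4))))), (.s k1 k2 0 (.s k35 k19 3
  (.s k169 k253 13 (.s k102 k236 10 (.s k68 k119 4 (.d k204 k136 k153 9 14)))))), (.s k17 k34 4 (.s
  k19 k35 3 (.s k153 k221 9 (.s k86 k220 10 (.s k84 k87 0 (.d k252 k168 k169 13 14)))))), (.s k1 k2
  0 (.s k17 k34 4 (.s k153 k221 9 (.s k169 k253 13 (.s k137 k185 3 (.d k204 k102 k70 14 10))))))]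
  .n) (.c k245 (.q k240 [(.d k80 k95 k160 2 11), (.s k1 k2 0 (.s k82 k161 12 (.s k86 k94 1 (.d k169
  k253 k252 13 14))))] .n) .n))) .n)))

def s170_255_11 : T TT 256 :=
  (.q k17 [(.s k2 k1 0 (.s k34 k51 4 (.s k18 k50 3 (.s k16 k19 0 (.d k48 k32 k33 3 4))))), (.s k1 k2
  0 (.s k49 k33 3 (.s k153 k221 9 (.s k101 k205 13 (.s k117 k69 3 (.d k253 k185 k169 9 13)))))), (.s
  k51 k34 4 (.s k19 k35 3 (.s k153 k221 9 (.s k86 k220 10 (.s k84 k87 0 (.d k252 k168 k169 13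
  14))))))] (.c k33 (.l (.s k1 k2 0 (.s k51 k34 4 (.s k35 k19 3 (.s k153 k221 9 (.s k169 k253 13 (.d
  k102 k204 k236 14 10))))))) .n))

def s170_255_12 : T TT 256 :=
  (.q k48 [(.s k1 k2 0 (.s k32 k16 3 (.s k33 k18 4 (.s k17 k49 3 (.d k34 k35 k51 0 4))))), (.s k1 k2
  0 (.s k16 k32 3 (.s k154 k223 10 (.s k169 k253 13 (.s k139 k184 4 (.d k207 k101 k71 14 9)))))),
  (.s k16 k32 3 (.s k18 k33 4 (.s k154 k223 10 (.s k86 k222 9 (.s k84 k87 0 (.d k252 k168 k169 13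
  14)))))), (.s k1 k2 0 (.s k33 k18 4 (.s k169 k253 13 (.s k101 k237 9 (.s k69 k117 3 (.d k207 k138
  k154 10 14))))))] (.c k86 (.l (.s k2 k1 0 (.s k16 k32 3 (.s k18 k33 4 (.s k17 k19 0 (.d k34 k50
  k51 3 4)))))) (.c k93 (.q k174 [(.s k1 k2 0 (.s k32 k16 3 (.s k33 k18 4 (.s k17 k49 3 (.d k34 k35
  k51 0 4))))), (.s k1 k2 0 (.s k16 k32 3 (.s k154 k223 10 (.s k169 k253 13 (.s k139 k184 4 (.d k207
  k101 k71 14 9)))))), (.s k16 k32 3 (.s k18 k33 4 (.s k154 k223 10 (.s k86 k222 9 (.s k84 k87 0 (.d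
  k252 k168 k169 13 14)))))), (.s k1 k2 0 (.s k33 k18 4 (.s k169 k253 13 (.s k101 k237 9 (.s k69
  k117 3 (.d k207 k138 k154 10 14))))))] (.c k86 (.l (.s k2 k1 0 (.s k16 k32 3 (.s k18 k33 4 (.s k17
  k19 0 (.d k34 k50 k51 3 4)))))) .n)) (.c k174 (.q k93 [(.s k1 k2 0 (.s k32 k16 3 (.s k33 k18 4 (.s
  k17 k49 3 (.d k34 k35 k51 0 4))))), (.s k1 k2 0 (.s k16 k32 3 (.s k154 k223 10 (.s k169 k253 13
  (.s k139 k184 4 (.d k207 k101 k71 14 9)))))), (.s k16 k32 3 (.s k18 k33 4 (.s k154 k223 10 (.s k86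
  k222 9 (.s k84 k87 0 (.d k252 k168 k169 13 14)))))), (.s k1 k2 0 (.s k33 k18 4 (.s k169 k253 13
  (.s k101 k237 9 (.s k69 k117 3 (.d k207 k138 k154 10 14))))))] (.c k86 (.l (.s k2 k1 0 (.s k16 k32
  3 (.s k18 k33 4 (.s k17 k19 0 (.d k34 k50 k51 3 4)))))) (.c k162 (.q k166 [(.s k1 k2 0 (.s k32 k16
  3 (.s k33 k18 4 (.s k17 k49 3 (.d k34 k35 k51 0 4))))), (.s k16 k32 3 (.s k18 k33 4 (.s k154 k223
  10 (.s k86 k222 9 (.s k84 k87 0 (.d k252 k168 k169 13 14)))))), (.s k1 k2 0 (.s k16 k32 3 (.s k154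
  k223 10 (.s k169 k253 13 (.s k139 k184 4 (.d k207 k101 k71 14 9)))))), (.s k1 k2 0 (.s k33 k18 4
  (.s k169 k253 13 (.s k101 k237 9 (.s k69 k117 3 (.d k207 k138 k154 10 14))))))] (.c k86 (.l (.s k2
  k1 0 (.s k16 k32 3 (.s k18 k33 4 (.s k17 k19 0 (.d k34 k50 k51 3 4)))))) .n)) (.c k166 (.q k162
  [(.d k81 k89 k243 1 12)] (.c k81 (.l (.s k1 k2 0 (.s k32 k16 3 (.s k33 k18 4 (.s k17 k49 3 (.d k34
  k35 k51 0 4)))))) (.c k89 (.l (.s k243 k81 12 (.s k2 k1 0 (.s k82 k242 11 (.s k161 k240 12 (.d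
  k163 k160 k83 0 11)))))) (.c k243 (.l (.s k89 k81 1 (.s k1 k2 0 (.s k32 k16 3 (.s k33 k18 4 (.s
  k17 k49 3 (.d k34 k35 k51 0 4))))))) .n)))) .n)))) .n))))

def s170_255_13 : T TT 256 :=
  (.q k15 [(.s k2 k1 0 (.s k11 k7 1 (.s k10 k5 2 (.s k9 k8 0 (.d k6 k14 k12 1 2))))), (.s k1 k2 0
  (.s k11 k7 1 (.s k169 k253 13 (.s k90 k248 12 (.s k80 k95 2 (.d k240 k160 k165 11 14)))))), (.s k5
  k10 2 (.s k7 k11 1 (.s k165 k245 11 (.s k86 k244 12 (.s k84 k87 0 (.d k252 k168 k169 13 14)))))),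
  (.s k1 k2 0 (.s k5 k10 2 (.s k165 k245 11 (.s k169 k253 13 (.s k173 k161 1 (.d k252 k86 k94 14
  12))))))] .n)

def s170_255_14 : T TT 256 :=
  (.q k17 [(.s k2 k1 0 (.s k34 k51 4 (.s k18 k50 3 (.s k16 k19 0 (.d k48 k32 k33 3 4))))), (.s k1 k2
  0 (.s k49 k33 3 (.s k153 k221 9 (.s k101 k205 13 (.s k117 k69 3 (.d k253 k185 k169 9 13)))))), (.s
  k51 k34 4 (.s k19 k35 3 (.s k153 k221 9 (.s k86 k220 10 (.s k84 k87 0 (.d k252 k168 k169 13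
  14))))))] (.c k33 (.l (.s k1 k2 0 (.s k51 k34 4 (.s k35 k19 3 (.s k153 k221 9 (.s k169 k253 13 (.d
  k102 k204 k236 14 10))))))) .n))

def s170_255_15 : T TT 256 :=
  (.q k48 [(.s k1 k2 0 (.s k32 k16 3 (.s k33 k18 4 (.s k17 k49 3 (.d k34 k35 k51 0 4))))), (.s k1 k2
  0 (.s k16 k32 3 (.s k154 k223 10 (.s k169 k253 13 (.s k139 k184 4 (.d k207 k101 k71 14 9)))))),
  (.s k16 k32 3 (.s k18 k33 4 (.s k154 k223 10 (.s k86 k222 9 (.s k84 k87 0 (.d k252 k168 k169 13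
  14)))))), (.s k1 k2 0 (.s k33 k18 4 (.s k169 k253 13 (.s k101 k237 9 (.s k69 k117 3 (.d k207 k138
  k154 10 14))))))] (.c k86 (.l (.s k2 k1 0 (.s k16 k32 3 (.s k18 k33 4 (.s k17 k19 0 (.d k34 k50
  k51 3 4)))))) (.c k95 (.q k175 [(.s k1 k2 0 (.s k32 k16 3 (.s k33 k18 4 (.s k17 k49 3 (.d k34 k35
  k51 0 4))))), (.s k1 k2 0 (.s k16 k32 3 (.s k154 k223 10 (.s k169 k253 13 (.s k139 k184 4 (.d k207
  k101 k71 14 9)))))), (.s k16 k32 3 (.s k18 k33 4 (.s k154 k223 10 (.s k86 k222 9 (.s k84 k87 0 (.d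
  k252 k168 k169 13 14)))))), (.s k1 k2 0 (.s k33 k18 4 (.s k169 k253 13 (.s k101 k237 9 (.s k69
  k117 3 (.d k207 k138 k154 10 14))))))] (.c k86 (.l (.s k2 k1 0 (.s k16 k32 3 (.s k18 k33 4 (.s k17
  k19 0 (.d k34 k50 k51 3 4)))))) .n)) (.c k175 (.q k95 [(.s k1 k2 0 (.s k32 k16 3 (.s k33 k18 4 (.s
  k17 k49 3 (.d k34 k35 k51 0 4))))), (.s k1 k2 0 (.s k16 k32 3 (.s k154 k223 10 (.s k169 k253 13
  (.s k139 k184 4 (.d k207 k101 k71 14 9)))))), (.s k16 k32 3 (.s k18 k33 4 (.s k154 k223 10 (.s k86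
  k222 9 (.s k84 k87 0 (.d k252 k168 k169 13 14)))))), (.s k1 k2 0 (.s k33 k18 4 (.s k169 k253 13
  (.s k101 k237 9 (.s k69 k117 3 (.d k207 k138 k154 10 14))))))] (.c k86 (.l (.s k2 k1 0 (.s k16 k32
  3 (.s k18 k33 4 (.s k17 k19 0 (.d k34 k50 k51 3 4)))))) (.c k160 (.q k165 [(.s k1 k2 0 (.s k32 k16
  3 (.s k33 k18 4 (.s k17 k49 3 (.d k34 k35 k51 0 4))))), (.s k1 k2 0 (.s k5 k245 11 (.s k13 k9 1
  (.s k89 k241 13 (.s k93 k81 1 (.d k253 k173 k169 11 13)))))), (.s k16 k32 3 (.s k18 k33 4 (.s k154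
  k223 10 (.s k86 k222 9 (.s k84 k87 0 (.d k252 k168 k169 13 14))))))] (.c k86 (.l (.s k2 k1 0 (.s
  k16 k32 3 (.s k18 k33 4 (.s k17 k19 0 (.d k34 k50 k51 3 4)))))) .n)) (.c k165 (.q k160 [(.d k80
  k90 k240 2 11)] (.c k80 (.l (.s k1 k2 0 (.s k32 k16 3 (.s k33 k18 4 (.s k17 k49 3 (.d k34 k35 k51
  0 4)))))) (.c k90 (.l (.s k240 k80 11 (.s k1 k2 0 (.s k161 k82 12 (.s k81 k241 11 (.d k162 k163
  k243 0 12)))))) (.c k240 (.l (.s k90 k80 2 (.s k1 k2 0 (.s k32 k16 3 (.s k33 k18 4 (.s k17 k49 3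
  (.d k34 k35 k51 0 4))))))) .n)))) .n)))) .n))))

def s170_255_16 : T TT 256 :=
  (.q k5 [(.s k2 k1 0 (.s k10 k15 2 (.s k6 k14 1 (.s k4 k7 0 (.d k12 k8 k9 1 2))))), (.s k1 k2 0 (.s
  k13 k9 1 (.s k165 k245 11 (.s k89 k241 13 (.s k93 k81 1 (.d k253 k173 k169 11 13)))))), (.s k15
  k10 2 (.s k7 k11 1 (.s k165 k245 11 (.s k86 k244 12 (.s k84 k87 0 (.d k252 k168 k169 13 14))))))]
  (.c k9 (.l (.s k1 k2 0 (.s k15 k10 2 (.s k11 k7 1 (.s k165 k245 11 (.s k169 k253 13 (.d k90 k240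
  k248 14 12))))))) .n))

def s170_255_17 : T TT 256 :=
  (.q k5 [(.s k1 k2 0 (.s k9 k13 1 (.s k6 k12 2 (.s k7 k4 0 (.d k15 k11 k10 1 2))))), (.s k15 k10 2
  (.s k7 k11 1 (.s k165 k245 11 (.s k86 k244 12 (.s k84 k87 0 (.d k252 k168 k169 13 14)))))), (.s k1
  k2 0 (.s k13 k9 1 (.s k165 k245 11 (.s k89 k241 13 (.s k93 k81 1 (.d k253 k173 k169 11 13))))))]
  (.c k9 (.l (.s k1 k2 0 (.s k15 k10 2 (.s k11 k7 1 (.s k165 k245 11 (.s k169 k253 13 (.d k90 k240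
  k248 14 12))))))) (.c k86 (.l (.s k2 k1 0 (.s k10 k15 2 (.s k6 k14 1 (.s k4 k7 0 (.d k12 k8 k9 1
  2)))))) .n)))

def s170_255_18 : T TT 256 :=
  (.q k5 [(.s k2 k1 0 (.s k10 k15 2 (.s k6 k14 1 (.s k4 k7 0 (.d k12 k8 k9 1 2))))), (.s k1 k2 0 (.s
  k13 k9 1 (.s k165 k245 11 (.s k89 k241 13 (.s k93 k81 1 (.d k253 k173 k169 11 13)))))), (.s k15
  k10 2 (.s k7 k11 1 (.s k165 k245 11 (.s k86 k244 12 (.s k84 k87 0 (.d k252 k168 k169 13 14))))))]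
  (.c k9 (.l (.s k1 k2 0 (.s k15 k10 2 (.s k11 k7 1 (.s k165 k245 11 (.s k169 k253 13 (.d k90 k240
  k248 14 12))))))) .n))

def s170_255_19 : T TT 256 :=
  (.q k5 [(.s k2 k1 0 (.s k10 k15 2 (.s k6 k14 1 (.s k4 k7 0 (.d k12 k8 k9 1 2))))), (.s k1 k2 0 (.s
  k13 k9 1 (.s k165 k245 11 (.s k89 k241 13 (.s k93 k81 1 (.d k253 k173 k169 11 13)))))), (.s k15
  k10 2 (.s k7 k11 1 (.s k165 k245 11 (.s k86 k244 12 (.s k84 k87 0 (.d k252 k168 k169 13 14))))))]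
  (.c k9 (.l (.s k1 k2 0 (.s k15 k10 2 (.s k11 k7 1 (.s k165 k245 11 (.s k169 k253 13 (.d k90 k240
  k248 14 12))))))) .n))

def s170_255_20 : T TT 256 :=
  (.q k5 [(.s k2 k1 0 (.s k10 k15 2 (.s k6 k14 1 (.s k4 k7 0 (.d k12 k8 k9 1 2))))), (.s k1 k2 0 (.s
  k13 k9 1 (.s k165 k245 11 (.s k89 k241 13 (.s k93 k81 1 (.d k253 k173 k169 11 13)))))), (.s k15
  k10 2 (.s k7 k11 1 (.s k165 k245 11 (.s k86 k244 12 (.s k84 k87 0 (.d k252 k168 k169 13 14))))))]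
  (.c k9 (.l (.s k1 k2 0 (.s k15 k10 2 (.s k11 k7 1 (.s k165 k245 11 (.s k169 k253 13 (.d k90 k240
  k248 14 12))))))) .n))

def s170_255_21 : T TT 256 :=
  (.q k5 [(.s k1 k2 0 (.s k9 k13 1 (.s k10 k15 2 (.s k8 k11 0 (.d k12 k4 k6 1 2))))), (.s k15 k10 2
  (.s k7 k11 1 (.s k165 k245 11 (.s k86 k244 12 (.s k84 k87 0 (.d k252 k168 k169 13 14)))))), (.s k1
  k2 0 (.s k13 k9 1 (.s k165 k245 11 (.s k89 k241 13 (.s k93 k81 1 (.d k253 k173 k169 11 13))))))]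
  (.c k9 (.l (.s k1 k2 0 (.s k15 k10 2 (.s k11 k7 1 (.s k165 k245 11 (.s k169 k253 13 (.d k90 k240
  k248 14 12))))))) (.c k86 (.l (.s k2 k1 0 (.s k10 k15 2 (.s k6 k14 1 (.s k4 k7 0 (.d k12 k8 k9 1
  2)))))) .n)))

def s170_255_22 : T TT 256 :=
  (.q k5 [(.s k2 k1 0 (.s k10 k15 2 (.s k6 k14 1 (.s k12 k9 2 (.d k4 k7 k8 0 1))))), (.s k1 k2 0 (.s
  k13 k9 1 (.s k165 k245 11 (.s k89 k241 13 (.s k93 k81 1 (.d k253 k173 k169 11 13)))))), (.s k15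
  k10 2 (.s k7 k11 1 (.s k165 k245 11 (.s k86 k244 12 (.s k84 k87 0 (.d k252 k168 k169 13 14))))))]
  (.c k9 (.l (.s k1 k2 0 (.s k15 k10 2 (.s k11 k7 1 (.s k165 k245 11 (.s k169 k253 13 (.d k90 k240
  k248 14 12))))))) .n))

def s170_255_23 : T TT 256 :=
  (.q k5 [(.s k2 k1 0 (.s k10 k15 2 (.s k6 k14 1 (.s k12 k9 2 (.d k4 k7 k8 0 1))))), (.s k1 k2 0 (.s
  k13 k9 1 (.s k165 k245 11 (.s k89 k241 13 (.s k93 k81 1 (.d k253 k173 k169 11 13)))))), (.s k15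
  k10 2 (.s k7 k11 1 (.s k165 k245 11 (.s k86 k244 12 (.s k84 k87 0 (.d k252 k168 k169 13 14))))))]
  (.c k9 (.l (.s k1 k2 0 (.s k15 k10 2 (.s k11 k7 1 (.s k165 k245 11 (.s k169 k253 13 (.d k90 k240
  k248 14 12))))))) .n))

def s170_255_24 : T TT 256 :=
  (.q k5 [(.s k2 k1 0 (.s k10 k15 2 (.s k6 k14 1 (.s k4 k7 0 (.d k12 k8 k9 1 2))))), (.s k1 k2 0 (.s
  k13 k9 1 (.s k165 k245 11 (.s k89 k241 13 (.s k93 k81 1 (.d k253 k173 k169 11 13)))))), (.s k15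
  k10 2 (.s k7 k11 1 (.s k165 k245 11 (.s k86 k244 12 (.s k84 k87 0 (.d k252 k168 k169 13 14))))))]
  (.c k9 (.l (.s k1 k2 0 (.s k15 k10 2 (.s k11 k7 1 (.s k165 k245 11 (.s k169 k253 13 (.d k90 k240
  k248 14 12))))))) .n))

def s170_255_25 : T TT 256 :=
  (.q k5 [(.s k2 k1 0 (.s k10 k15 2 (.s k6 k14 1 (.s k4 k7 0 (.d k12 k8 k9 1 2))))), (.s k1 k2 0 (.s
  k13 k9 1 (.s k165 k245 11 (.s k89 k241 13 (.s k93 k81 1 (.d k253 k173 k169 11 13)))))), (.s k15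
  k10 2 (.s k7 k11 1 (.s k165 k245 11 (.s k86 k244 12 (.s k84 k87 0 (.d k252 k168 k169 13 14))))))]
  (.c k9 (.l (.s k1 k2 0 (.s k15 k10 2 (.s k11 k7 1 (.s k165 k245 11 (.s k169 k253 13 (.d k90 k240
  k248 14 12))))))) .n))

def s170_255_26 : T TT 256 :=
  (.q k5 [(.s k1 k2 0 (.s k9 k13 1 (.s k6 k12 2 (.s k7 k4 0 (.d k15 k11 k10 1 2))))), (.s k15 k10 2
  (.s k7 k11 1 (.s k165 k245 11 (.s k86 k244 12 (.s k84 k87 0 (.d k252 k168 k169 13 14)))))), (.s k1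
  k2 0 (.s k13 k9 1 (.s k165 k245 11 (.s k89 k241 13 (.s k93 k81 1 (.d k253 k173 k169 11 13))))))]
  (.c k9 (.l (.s k1 k2 0 (.s k15 k10 2 (.s k11 k7 1 (.s k165 k245 11 (.s k169 k253 13 (.d k90 k240
  k248 14 12))))))) (.c k86 (.l (.s k2 k1 0 (.s k10 k15 2 (.s k6 k14 1 (.s k4 k7 0 (.d k12 k8 k9 1
  2)))))) .n)))

def s170_255_27 : T TT 256 :=
  (.q k5 [(.s k1 k2 0 (.s k9 k13 1 (.s k6 k12 2 (.s k7 k4 0 (.d k15 k11 k10 1 2))))), (.s k15 k10 2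
  (.s k7 k11 1 (.s k165 k245 11 (.s k86 k244 12 (.s k84 k87 0 (.d k252 k168 k169 13 14)))))), (.s k1
  k2 0 (.s k13 k9 1 (.s k165 k245 11 (.s k89 k241 13 (.s k93 k81 1 (.d k253 k173 k169 11 13))))))]
  (.c k9 (.l (.s k1 k2 0 (.s k15 k10 2 (.s k11 k7 1 (.s k165 k245 11 (.s k169 k253 13 (.d k90 k240
  k248 14 12))))))) (.c k86 (.l (.s k2 k1 0 (.s k10 k15 2 (.s k6 k14 1 (.s k4 k7 0 (.d k12 k8 k9 1
  2)))))) .n)))

def s170_255_28 : T TT 256 :=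
  (.q k5 [(.s k2 k1 0 (.s k10 k15 2 (.s k6 k14 1 (.s k4 k7 0 (.d k12 k8 k9 1 2))))), (.s k1 k2 0 (.s
  k13 k9 1 (.s k165 k245 11 (.s k89 k241 13 (.s k93 k81 1 (.d k253 k173 k169 11 13)))))), (.s k15
  k10 2 (.s k7 k11 1 (.s k165 k245 11 (.s k86 k244 12 (.s k84 k87 0 (.d k252 k168 k169 13 14))))))]
  (.c k9 (.l (.s k1 k2 0 (.s k15 k10 2 (.s k11 k7 1 (.s k165 k245 11 (.s k169 k253 13 (.d k90 k240
  k248 14 12))))))) .n))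

def s170_255_29 : T TT 256 :=
  (.q k5 [(.s k2 k1 0 (.s k10 k15 2 (.s k6 k14 1 (.s k4 k7 0 (.d k12 k8 k9 1 2))))), (.s k1 k2 0 (.s
  k13 k9 1 (.s k165 k245 11 (.s k89 k241 13 (.s k93 k81 1 (.d k253 k173 k169 11 13)))))), (.s k15
  k10 2 (.s k7 k11 1 (.s k165 k245 11 (.s k86 k244 12 (.s k84 k87 0 (.d k252 k168 k169 13 14))))))]
  (.c k9 (.l (.s k1 k2 0 (.s k15 k10 2 (.s k11 k7 1 (.s k165 k245 11 (.s k169 k253 13 (.d k90 k240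
  k248 14 12))))))) .n))

def s170_255_30 : T TT 256 :=
  (.q k5 [(.s k1 k2 0 (.s k9 k13 1 (.s k6 k12 2 (.s k7 k4 0 (.d k15 k11 k10 1 2))))), (.s k15 k10 2
  (.s k7 k11 1 (.s k165 k245 11 (.s k86 k244 12 (.s k84 k87 0 (.d k252 k168 k169 13 14)))))), (.s k1
  k2 0 (.s k13 k9 1 (.s k165 k245 11 (.s k89 k241 13 (.s k93 k81 1 (.d k253 k173 k169 11 13))))))]
  (.c k9 (.l (.s k1 k2 0 (.s k15 k10 2 (.s k11 k7 1 (.s k165 k245 11 (.s k169 k253 13 (.d k90 k240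
  k248 14 12))))))) (.c k86 (.l (.s k2 k1 0 (.s k10 k15 2 (.s k6 k14 1 (.s k4 k7 0 (.d k12 k8 k9 1
  2)))))) .n)))

def s170_255_31 : T TT 256 :=
  (.q k5 [(.s k1 k2 0 (.s k9 k13 1 (.s k6 k12 2 (.s k7 k4 0 (.d k15 k11 k10 1 2))))), (.s k15 k10 2
  (.s k7 k11 1 (.s k165 k245 11 (.s k86 k244 12 (.s k84 k87 0 (.d k252 k168 k169 13 14)))))), (.s k1
  k2 0 (.s k13 k9 1 (.s k165 k245 11 (.s k89 k241 13 (.s k93 k81 1 (.d k253 k173 k169 11 13))))))]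
  (.c k9 (.l (.s k1 k2 0 (.s k15 k10 2 (.s k11 k7 1 (.s k165 k245 11 (.s k169 k253 13 (.d k90 k240
  k248 14 12))))))) (.c k86 (.l (.s k2 k1 0 (.s k10 k15 2 (.s k6 k14 1 (.s k4 k7 0 (.d k12 k8 k9 1
  2)))))) .n)))

def s170_255_32 : T TT 256 :=
  (.q k101 [(.s k2 k1 0 (.s k69 k117 3 (.s k138 k207 10 (.s k70 k206 9 (.s k68 k71 0 (.d k204 k136
  k137 9 10)))))), (.s k1 k2 0 (.s k117 k69 3 (.s k253 k169 13 (.s k49 k185 9 (.s k17 k33 3 (.d k153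
  k221 k205 9 13)))))), (.s k69 k117 3 (.s k207 k138 10 (.s k71 k139 9 (.s k86 k116 4 (.s k84 k87 0
  (.d k252 k168 k169 13 14)))))), (.s k1 k2 0 (.s k169 k253 13 (.s k33 k237 9 (.s k48 k18 4 (.s k154
  k207 14 (.s k184 k139 4 (.d k252 k86 k116 14 9)))))))] .n)

def s170_255_33 : T TT 256 :=
  (.q k5 [(.s k1 k2 0 (.s k9 k13 1 (.s k6 k12 2 (.s k7 k4 0 (.d k15 k11 k10 1 2))))), (.s k15 k10 2
  (.s k7 k11 1 (.s k165 k245 11 (.s k86 k244 12 (.s k84 k87 0 (.d k252 k168 k169 13 14)))))), (.s k1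
  k2 0 (.s k13 k9 1 (.s k165 k245 11 (.s k89 k241 13 (.s k93 k81 1 (.d k253 k173 k169 11 13))))))]
  (.c k9 (.l (.s k1 k2 0 (.s k15 k10 2 (.s k11 k7 1 (.s k165 k245 11 (.s k169 k253 13 (.d k90 k240
  k248 14 12))))))) (.c k86 (.l (.s k2 k1 0 (.s k10 k15 2 (.s k6 k14 1 (.s k4 k7 0 (.d k12 k8 k9 1
  2)))))) .n)))

def s170_255_34 : T TT 256 :=
  (.q k89 [(.s k2 k1 0 (.s k81 k93 1 (.s k162 k243 12 (.s k82 k242 11 (.s k80 k83 0 (.d k240 k160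
  k161 11 12)))))), (.s k1 k2 0 (.s k93 k81 1 (.s k253 k169 13 (.s k13 k173 11 (.s k5 k9 1 (.d k165
  k245 k241 11 13)))))), (.s k81 k93 1 (.s k243 k162 12 (.s k83 k163 11 (.s k86 k92 2 (.s k84 k87 0
  (.d k252 k168 k169 13 14)))))), (.s k1 k2 0 (.s k169 k253 13 (.s k9 k249 11 (.s k12 k6 2 (.s k4 k8
  1 (.d k166 k247 k243 12 14))))))] (.c k102 (.q k238 [(.s k2 k1 0 (.s k81 k93 1 (.s k162 k243 12
  (.s k82 k242 11 (.s k80 k83 0 (.d k240 k160 k161 11 12)))))), (.s k1 k2 0 (.s k93 k81 1 (.s k253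
  k169 13 (.s k13 k173 11 (.s k5 k9 1 (.d k165 k245 k241 11 13)))))), (.s k81 k93 1 (.s k243 k162 12
  (.s k83 k163 11 (.s k86 k92 2 (.s k84 k87 0 (.d k252 k168 k169 13 14)))))), (.s k1 k2 0 (.s k169
  k253 13 (.s k9 k249 11 (.s k12 k6 2 (.s k4 k8 1 (.d k166 k247 k243 12 14))))))] .n) (.c k238 (.q
  k102 [(.s k68 k119 4 (.s k76 k115 6 (.s k64 k72 1 (.s k93 k81 1 (.d k127 k110 k106 4 6))))), (.s
  k1 k2 0 (.s k81 k93 1 (.s k161 k241 11 (.s k82 k240 12 (.s k83 k80 0 (.d k243 k163 k162 11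
  12)))))), (.s k1 k2 0 (.s k68 k119 4 (.s k169 k253 13 (.s k35 k236 10 (.s k51 k19 3 (.d k204 k136
  k153 9 14))))))] (.c k204 (.q k221 [(.s k68 k119 4 (.s k76 k115 6 (.s k64 k72 1 (.s k93 k81 1 (.d
  k127 k110 k106 4 6))))), (.s k17 k153 9 (.s k81 k93 1 (.s k209 k145 7 (.s k149 k29 9 (.d k213 k217
  k21 1 7))))), (.s k1 k2 0 (.s k153 k17 9 (.s k169 k253 13 (.s k35 k236 10 (.s k19 k51 3 (.d k86
  k220 k252 10 14))))))] (.c k187 (.l (.s k76 k115 6 (.s k93 k81 1 (.s k127 k110 4 (.s k64 k106 6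
  (.d k68 k72 k119 1 4)))))) .n)) (.c k221 (.q k204 [(.d k68 k119 k136 4 9), (.s k1 k2 0 (.s k70
  k137 10 (.s k86 k118 3 (.d k169 k253 k252 13 14))))] .n) .n))) .n)))

def s170_255_35 : T TT 256 :=
  (.q k5 [(.s k2 k1 0 (.s k10 k15 2 (.s k6 k14 1 (.s k4 k7 0 (.d k12 k8 k9 1 2))))), (.s k1 k2 0 (.s
  k13 k9 1 (.s k165 k245 11 (.s k89 k241 13 (.s k93 k81 1 (.d k253 k173 k169 11 13)))))), (.s k15
  k10 2 (.s k7 k11 1 (.s k165 k245 11 (.s k86 k244 12 (.s k84 k87 0 (.d k252 k168 k169 13 14))))))]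
  (.c k9 (.l (.s k1 k2 0 (.s k15 k10 2 (.s k11 k7 1 (.s k165 k245 11 (.s k169 k253 13 (.d k90 k240
  k248 14 12))))))) .n))

def s170_255_36 : T TT 256 :=
  (.q k5 [(.s k2 k1 0 (.s k10 k15 2 (.s k6 k14 1 (.s k4 k7 0 (.d k12 k8 k9 1 2))))), (.s k1 k2 0 (.s
  k13 k9 1 (.s k165 k245 11 (.s k89 k241 13 (.s k93 k81 1 (.d k253 k173 k169 11 13)))))), (.s k15
  k10 2 (.s k7 k11 1 (.s k165 k245 11 (.s k86 k244 12 (.s k84 k87 0 (.d k252 k168 k169 13 14))))))]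
  (.c k9 (.l (.s k1 k2 0 (.s k15 k10 2 (.s k11 k7 1 (.s k165 k245 11 (.s k169 k253 13 (.d k90 k240
  k248 14 12))))))) .n))

def s170_255_37 : T TT 256 :=
  (.q k5 [(.s k2 k1 0 (.s k10 k15 2 (.s k6 k14 1 (.s k12 k9 2 (.d k4 k7 k8 0 1))))), (.s k1 k2 0 (.s
  k13 k9 1 (.s k165 k245 11 (.s k89 k241 13 (.s k93 k81 1 (.d k253 k173 k169 11 13)))))), (.s k15
  k10 2 (.s k7 k11 1 (.s k165 k245 11 (.s k86 k244 12 (.s k84 k87 0 (.d k252 k168 k169 13 14))))))]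
  (.c k9 (.l (.s k1 k2 0 (.s k15 k10 2 (.s k11 k7 1 (.s k165 k245 11 (.s k169 k253 13 (.d k90 k240
  k248 14 12))))))) .n))

def s170_255_38 : T TT 256 :=
  (.q k5 [(.s k1 k2 0 (.s k9 k13 1 (.s k10 k15 2 (.s k8 k11 0 (.d k12 k4 k6 1 2))))), (.s k15 k10 2
  (.s k7 k11 1 (.s k165 k245 11 (.s k86 k244 12 (.s k84 k87 0 (.d k252 k168 k169 13 14)))))), (.s k1
  k2 0 (.s k13 k9 1 (.s k165 k245 11 (.s k89 k241 13 (.s k93 k81 1 (.d k253 k173 k169 11 13))))))]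
  (.c k9 (.l (.s k1 k2 0 (.s k15 k10 2 (.s k11 k7 1 (.s k165 k245 11 (.s k169 k253 13 (.d k90 k240
  k248 14 12))))))) (.c k86 (.l (.s k2 k1 0 (.s k10 k15 2 (.s k6 k14 1 (.s k4 k7 0 (.d k12 k8 k9 1
  2)))))) .n)))

def s170_255_39 : T TT 256 :=
  (.q k5 [(.s k1 k2 0 (.s k9 k13 1 (.s k6 k12 2 (.s k7 k4 0 (.d k15 k11 k10 1 2))))), (.s k15 k10 2
  (.s k7 k11 1 (.s k165 k245 11 (.s k86 k244 12 (.s k84 k87 0 (.d k252 k168 k169 13 14)))))), (.s k1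
  k2 0 (.s k13 k9 1 (.s k165 k245 11 (.s k89 k241 13 (.s k93 k81 1 (.d k253 k173 k169 11 13))))))]
  (.c k9 (.l (.s k1 k2 0 (.s k15 k10 2 (.s k11 k7 1 (.s k165 k245 11 (.s k169 k253 13 (.d k90 k240
  k248 14 12))))))) (.c k86 (.l (.s k2 k1 0 (.s k10 k15 2 (.s k6 k14 1 (.s k4 k7 0 (.d k12 k8 k9 1
  2)))))) .n)))

def s170_255_40 : T TT 256 :=
  (.q k105 [(.s k2 k1 0 (.s k65 k125 5 (.s k130 k195 8 (.s k66 k194 7 (.s k64 k67 0 (.d k192 k128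
  k129 7 8)))))), (.s k1 k2 0 (.s k125 k65 5 (.s k253 k169 13 (.s k61 k189 7 (.s k21 k41 5 (.d k149
  k213 k193 7 13)))))), (.s k65 k125 5 (.s k195 k130 8 (.s k67 k131 7 (.s k86 k124 6 (.s k84 k87 0
  (.d k252 k168 k169 13 14)))))), (.s k1 k2 0 (.s k169 k253 13 (.s k41 k233 7 (.s k60 k22 6 (.s k150
  k195 14 (.s k188 k131 6 (.d k252 k86 k124 14 7)))))))] .n)

def s170_255_41 : T TT 256 :=
  (.q k5 [(.s k1 k2 0 (.s k9 k13 1 (.s k6 k12 2 (.s k7 k4 0 (.d k15 k11 k10 1 2))))), (.s k15 k10 2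
  (.s k7 k11 1 (.s k165 k245 11 (.s k86 k244 12 (.s k84 k87 0 (.d k252 k168 k169 13 14)))))), (.s k1
  k2 0 (.s k13 k9 1 (.s k165 k245 11 (.s k89 k241 13 (.s k93 k81 1 (.d k253 k173 k169 11 13))))))]
  (.c k9 (.l (.s k1 k2 0 (.s k15 k10 2 (.s k11 k7 1 (.s k165 k245 11 (.s k169 k253 13 (.d k90 k240
  k248 14 12))))))) (.c k86 (.l (.s k2 k1 0 (.s k10 k15 2 (.s k6 k14 1 (.s k4 k7 0 (.d k12 k8 k9 1
  2)))))) .n)))

def s170_255_42 : T TT 256 :=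
  (.q k89 [(.s k2 k1 0 (.s k81 k93 1 (.s k162 k243 12 (.s k82 k242 11 (.s k80 k83 0 (.d k240 k160
  k161 11 12)))))), (.s k1 k2 0 (.s k93 k81 1 (.s k253 k169 13 (.s k13 k173 11 (.s k5 k9 1 (.d k165
  k245 k241 11 13)))))), (.s k81 k93 1 (.s k243 k162 12 (.s k83 k163 11 (.s k86 k92 2 (.s k84 k87 0
  (.d k252 k168 k169 13 14)))))), (.s k1 k2 0 (.s k169 k253 13 (.s k9 k249 11 (.s k12 k6 2 (.s k4 k8
  1 (.d k166 k247 k243 12 14))))))] (.c k106 (.q k234 [(.s k2 k1 0 (.s k81 k93 1 (.s k162 k243 12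
  (.s k82 k242 11 (.s k80 k83 0 (.d k240 k160 k161 11 12)))))), (.s k1 k2 0 (.s k93 k81 1 (.s k253
  k169 13 (.s k13 k173 11 (.s k5 k9 1 (.d k165 k245 k241 11 13)))))), (.s k81 k93 1 (.s k243 k162 12
  (.s k83 k163 11 (.s k86 k92 2 (.s k84 k87 0 (.d k252 k168 k169 13 14)))))), (.s k1 k2 0 (.s k169
  k253 13 (.s k9 k249 11 (.s k12 k6 2 (.s k4 k8 1 (.d k166 k247 k243 12 14))))))] .n) (.c k234 (.q
  k106 [(.s k93 k81 1 (.s k123 k72 4 (.s k127 k64 6 (.s k76 k110 4 (.d k115 k119 k102 1 6))))), (.s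
  k1 k2 0 (.s k81 k93 1 (.s k161 k241 11 (.s k82 k240 12 (.s k83 k80 0 (.d k243 k163 k162 11
  12)))))), (.s k1 k2 0 (.s k64 k127 6 (.s k169 k253 13 (.s k43 k232 8 (.s k63 k23 5 (.d k192 k128
  k149 7 14))))))] (.c k192 (.q k213 [(.s k64 k127 6 (.s k72 k123 4 (.s k76 k68 1 (.s k81 k93 1 (.d
  k115 k98 k102 4 6))))), (.s k1 k2 0 (.s k149 k21 7 (.s k169 k253 13 (.s k43 k232 8 (.s k23 k63 5
  (.d k86 k212 k252 8 14)))))), (.s k81 k93 1 (.s k149 k21 7 (.s k209 k29 9 (.s k17 k145 7 (.d k221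
  k217 k153 1 9)))))] .n) (.c k213 (.q k192 [(.d k64 k127 k128 6 7), (.s k1 k2 0 (.s k66 k129 8 (.s
  k86 k126 5 (.d k169 k253 k252 13 14))))] .n) .n))) .n)))

def s170_255_43 : T TT 256 :=
  (.q k5 [(.s k2 k1 0 (.s k10 k15 2 (.s k6 k14 1 (.s k4 k7 0 (.d k12 k8 k9 1 2))))), (.s k1 k2 0 (.s
  k13 k9 1 (.s k165 k245 11 (.s k89 k241 13 (.s k93 k81 1 (.d k253 k173 k169 11 13)))))), (.s k15
  k10 2 (.s k7 k11 1 (.s k165 k245 11 (.s k86 k244 12 (.s k84 k87 0 (.d k252 k168 k169 13 14))))))]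
  (.c k9 (.l (.s k1 k2 0 (.s k15 k10 2 (.s k11 k7 1 (.s k165 k245 11 (.s k169 k253 13 (.d k90 k240
  k248 14 12))))))) .n))

def s170_255_44 : T TT 256 :=
  (.q k5 [(.s k2 k1 0 (.s k10 k15 2 (.s k6 k14 1 (.s k4 k7 0 (.d k12 k8 k9 1 2))))), (.s k1 k2 0 (.s
  k13 k9 1 (.s k165 k245 11 (.s k89 k241 13 (.s k93 k81 1 (.d k253 k173 k169 11 13)))))), (.s k15
  k10 2 (.s k7 k11 1 (.s k165 k245 11 (.s k86 k244 12 (.s k84 k87 0 (.d k252 k168 k169 13 14))))))]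
  (.c k9 (.l (.s k1 k2 0 (.s k15 k10 2 (.s k11 k7 1 (.s k165 k245 11 (.s k169 k253 13 (.d k90 k240
  k248 14 12))))))) .n))

def s170_255_45 : T TT 256 :=
  (.q k5 [(.s k2 k1 0 (.s k10 k15 2 (.s k6 k14 1 (.s k4 k7 0 (.d k12 k8 k9 1 2))))), (.s k1 k2 0 (.s
  k13 k9 1 (.s k165 k245 11 (.s k89 k241 13 (.s k93 k81 1 (.d k253 k173 k169 11 13)))))), (.s k15
  k10 2 (.s k7 k11 1 (.s k165 k245 11 (.s k86 k244 12 (.s k84 k87 0 (.d k252 k168 k169 13 14))))))]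
  (.c k9 (.l (.s k1 k2 0 (.s k15 k10 2 (.s k11 k7 1 (.s k165 k245 11 (.s k169 k253 13 (.d k90 k240
  k248 14 12))))))) .n))

def s170_255_46 : T TT 256 :=
  (.q k5 [(.s k1 k2 0 (.s k9 k13 1 (.s k10 k15 2 (.s k8 k11 0 (.d k12 k4 k6 1 2))))), (.s k15 k10 2
  (.s k7 k11 1 (.s k165 k245 11 (.s k86 k244 12 (.s k84 k87 0 (.d k252 k168 k169 13 14)))))), (.s k1
  k2 0 (.s k13 k9 1 (.s k165 k245 11 (.s k89 k241 13 (.s k93 k81 1 (.d k253 k173 k169 11 13))))))]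
  (.c k9 (.l (.s k1 k2 0 (.s k15 k10 2 (.s k11 k7 1 (.s k165 k245 11 (.s k169 k253 13 (.d k90 k240
  k248 14 12))))))) (.c k86 (.l (.s k2 k1 0 (.s k10 k15 2 (.s k6 k14 1 (.s k4 k7 0 (.d k12 k8 k9 1
  2)))))) .n)))

def s170_255_47 : T TT 256 :=
  (.q k5 [(.s k1 k2 0 (.s k9 k13 1 (.s k6 k12 2 (.s k7 k4 0 (.d k15 k11 k10 1 2))))), (.s k15 k10 2
  (.s k7 k11 1 (.s k165 k245 11 (.s k86 k244 12 (.s k84 k87 0 (.d k252 k168 k169 13 14)))))), (.s k1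
  k2 0 (.s k13 k9 1 (.s k165 k245 11 (.s k89 k241 13 (.s k93 k81 1 (.d k253 k173 k169 11 13))))))]
  (.c k9 (.l (.s k1 k2 0 (.s k15 k10 2 (.s k11 k7 1 (.s k165 k245 11 (.s k169 k253 13 (.d k90 k240
  k248 14 12))))))) (.c k86 (.l (.s k2 k1 0 (.s k10 k15 2 (.s k6 k14 1 (.s k4 k7 0 (.d k12 k8 k9 1
  2)))))) .n)))

def s170_255_48 : T TT 256 :=
  (.q k149 [(.s k1 k2 0 (.s k21 k213 7 (.s k61 k41 5 (.s k105 k193 13 (.s k125 k65 5 (.d k253 k189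
  k169 7 13)))))), (.s k21 k213 7 (.s k63 k42 6 (.s k23 k43 5 (.s k86 k212 8 (.s k84 k87 0 (.d k252
  k168 k169 13 14)))))), (.s k1 k2 0 (.s k169 k253 13 (.s k129 k189 5 (.s k192 k66 8 (.s k64 k128 7
  (.d k106 k127 k63 6 14)))))), (.s k2 k1 0 (.s k21 k213 7 (.s k42 k63 6 (.s k22 k62 5 (.s k20 k23 0
  (.d k60 k40 k41 5 6))))))] (.c k117 (.q k186 [(.s k1 k2 0 (.s k21 k213 7 (.s k61 k41 5 (.s k105
  k193 13 (.s k125 k65 5 (.d k253 k189 k169 7 13)))))), (.s k21 k213 7 (.s k63 k42 6 (.s k23 k43 5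
  (.s k86 k212 8 (.s k84 k87 0 (.d k252 k168 k169 13 14)))))), (.s k1 k2 0 (.s k169 k253 13 (.s k129
  k189 5 (.s k192 k66 8 (.s k64 k128 7 (.d k106 k127 k63 6 14)))))), (.s k2 k1 0 (.s k21 k213 7 (.s
  k42 k63 6 (.s k22 k62 5 (.s k20 k23 0 (.d k60 k40 k41 5 6))))))] (.c k192 (.l (.s k1 k2 0 (.s k169
  k253 13 (.s k129 k189 5 (.s k193 k65 7 (.s k61 k105 13 (.d k21 k41 k213 5 7))))))) .n)) (.c k186
  (.q k117 [(.s k101 k69 3 (.s k53 k197 11 (.s k245 k181 7 (.s k5 k165 11 (.d k21 k37 k213 3 7))))),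
  (.s k1 k2 0 (.s k21 k213 7 (.s k41 k61 5 (.s k22 k60 6 (.s k23 k20 0 (.d k63 k43 k42 5 6)))))),
  (.s k1 k2 0 (.s k69 k101 3 (.s k137 k205 9 (.s k70 k204 10 (.s k71 k68 0 (.d k207 k138 k139 10
  9))))))] (.c k138 (.q k154 [(.s k16 k223 10 (.s k144 k159 2 (.s k208 k80 7 (.s k31 k90 10 (.d k21
  k26 k213 2 7))))), (.s k21 k213 7 (.s k101 k69 3 (.s k53 k197 11 (.s k245 k181 7 (.d k5 k37 k165 3
  11))))), (.s k1 k2 0 (.s k101 k69 3 (.s k169 k253 13 (.s k139 k184 4 (.s k71 k207 9 (.d k86 k116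
  k252 4 14))))))] .n) (.c k154 (.q k138 [(.d k69 k101 k207 3 10)] (.c k69 (.l (.s k1 k2 0 (.s k21
  k213 7 (.s k41 k61 5 (.s k22 k60 6 (.s k23 k20 0 (.d k63 k43 k42 5 6))))))) (.c k101 (.l (.s k207
  k69 10 (.s k2 k1 0 (.s k70 k206 9 (.s k137 k204 10 (.d k139 k136 k71 0 9)))))) (.c k207 (.l (.s
  k101 k69 3 (.s k21 k213 7 (.s k53 k197 11 (.s k5 k37 3 (.d k245 k181 k165 7 11)))))) .n)))) .n)))
  (.c k192 (.l (.s k1 k2 0 (.s k169 k253 13 (.s k129 k189 5 (.s k193 k65 7 (.s k61 k105 13 (.d k21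
  k41 k213 5 7))))))) .n))))

def s170_255_49 : T TT 256 :=
  (.q k5 [(.s k2 k1 0 (.s k10 k15 2 (.s k6 k14 1 (.s k4 k7 0 (.d k12 k8 k9 1 2))))), (.s k1 k2 0 (.s
  k13 k9 1 (.s k165 k245 11 (.s k89 k241 13 (.s k93 k81 1 (.d k253 k173 k169 11 13)))))), (.s k15
  k10 2 (.s k7 k11 1 (.s k165 k245 11 (.s k86 k244 12 (.s k84 k87 0 (.d k252 k168 k169 13 14))))))]
  (.c k9 (.l (.s k1 k2 0 (.s k15 k10 2 (.s k11 k7 1 (.s k165 k245 11 (.s k169 k253 13 (.d k90 k240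
  k248 14 12))))))) .n))

def s170_255_50 : T TT 256 :=
  (.q k5 [(.s k2 k1 0 (.s k10 k15 2 (.s k6 k14 1 (.s k4 k7 0 (.d k12 k8 k9 1 2))))), (.s k1 k2 0 (.s
  k13 k9 1 (.s k165 k245 11 (.s k89 k241 13 (.s k93 k81 1 (.d k253 k173 k169 11 13)))))), (.s k15
  k10 2 (.s k7 k11 1 (.s k165 k245 11 (.s k86 k244 12 (.s k84 k87 0 (.d k252 k168 k169 13 14))))))]
  (.c k9 (.l (.s k1 k2 0 (.s k15 k10 2 (.s k11 k7 1 (.s k165 k245 11 (.s k169 k253 13 (.d k90 k240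
  k248 14 12))))))) .n))

def s170_255_51 : T TT 256 :=
  (.q k60 [(.s k1 k2 0 (.s k40 k20 5 (.s k41 k22 6 (.s k21 k61 5 (.d k42 k43 k63 0 6))))), (.s k1 k2
  0 (.s k20 k40 5 (.s k150 k215 8 (.s k169 k253 13 (.s k131 k188 6 (.d k195 k105 k67 14 7)))))), (.s
  k20 k40 5 (.s k22 k41 6 (.s k150 k215 8 (.s k86 k214 7 (.s k84 k87 0 (.d k252 k168 k169 13
  14)))))), (.s k1 k2 0 (.s k41 k22 6 (.s k169 k253 13 (.s k105 k233 7 (.s k65 k125 5 (.d k195 k130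
  k150 8 14))))))] (.c k86 (.l (.s k2 k1 0 (.s k20 k40 5 (.s k22 k41 6 (.s k21 k23 0 (.d k42 k62 k63
  5 6)))))) (.c k119 (.q k187 [(.s k1 k2 0 (.s k40 k20 5 (.s k41 k22 6 (.s k21 k61 5 (.d k42 k43 k63
  0 6))))), (.s k1 k2 0 (.s k20 k40 5 (.s k150 k215 8 (.s k169 k253 13 (.s k131 k188 6 (.d k195 k105
  k67 14 7)))))), (.s k20 k40 5 (.s k22 k41 6 (.s k150 k215 8 (.s k86 k214 7 (.s k84 k87 0 (.d k252
  k168 k169 13 14)))))), (.s k1 k2 0 (.s k41 k22 6 (.s k169 k253 13 (.s k105 k233 7 (.s k65 k125 5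
  (.d k195 k130 k150 8 14))))))] (.c k86 (.l (.s k2 k1 0 (.s k20 k40 5 (.s k22 k41 6 (.s k21 k23 0
  (.d k42 k62 k63 5 6)))))) .n)) (.c k187 (.q k119 [(.s k1 k2 0 (.s k40 k20 5 (.s k41 k22 6 (.s k21
  k61 5 (.d k42 k43 k63 0 6))))), (.s k1 k2 0 (.s k20 k40 5 (.s k150 k215 8 (.s k169 k253 13 (.s
  k131 k188 6 (.d k195 k105 k67 14 7)))))), (.s k20 k40 5 (.s k22 k41 6 (.s k150 k215 8 (.s k86 k214
  7 (.s k84 k87 0 (.d k252 k168 k169 13 14)))))), (.s k1 k2 0 (.s k41 k22 6 (.s k169 k253 13 (.s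
  k105 k233 7 (.s k65 k125 5 (.d k195 k130 k150 8 14))))))] (.c k86 (.l (.s k2 k1 0 (.s k20 k40 5
  (.s k22 k41 6 (.s k21 k23 0 (.d k42 k62 k63 5 6)))))) (.c k136 (.q k153 [(.s k1 k2 0 (.s k40 k20 5
  (.s k41 k22 6 (.s k21 k61 5 (.d k42 k43 k63 0 6))))), (.s k1 k2 0 (.s k17 k221 9 (.s k49 k33 3 (.s
  k101 k205 13 (.s k117 k69 3 (.d k253 k185 k169 9 13)))))), (.s k20 k40 5 (.s k22 k41 6 (.s k150
  k215 8 (.s k86 k214 7 (.s k84 k87 0 (.d k252 k168 k169 13 14))))))] (.c k86 (.l (.s k2 k1 0 (.s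
  k20 k40 5 (.s k22 k41 6 (.s k21 k23 0 (.d k42 k62 k63 5 6)))))) .n)) (.c k153 (.q k136 [(.d k68
  k102 k204 4 9)] (.c k68 (.l (.s k1 k2 0 (.s k40 k20 5 (.s k41 k22 6 (.s k21 k61 5 (.d k42 k43 k63
  0 6)))))) (.c k102 (.l (.s k204 k68 9 (.s k1 k2 0 (.s k137 k70 10 (.s k69 k205 9 (.d k138 k139
  k207 0 10)))))) (.c k204 (.l (.s k102 k68 4 (.s k1 k2 0 (.s k40 k20 5 (.s k41 k22 6 (.s k21 k61 5
  (.d k42 k43 k63 0 6))))))) .n)))) .n)))) .n))))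

def s170_255_52 : T TT 256 :=
  (.q k5 [(.s k2 k1 0 (.s k10 k15 2 (.s k6 k14 1 (.s k12 k9 2 (.d k4 k7 k8 0 1))))), (.s k1 k2 0 (.s
  k13 k9 1 (.s k165 k245 11 (.s k89 k241 13 (.s k93 k81 1 (.d k253 k173 k169 11 13)))))), (.s k15
  k10 2 (.s k7 k11 1 (.s k165 k245 11 (.s k86 k244 12 (.s k84 k87 0 (.d k252 k168 k169 13 14))))))]
  (.c k9 (.l (.s k1 k2 0 (.s k15 k10 2 (.s k11 k7 1 (.s k165 k245 11 (.s k169 k253 13 (.d k90 k240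
  k248 14 12))))))) .n))

def s170_255_53 : T TT 256 :=
  (.q k5 [(.s k2 k1 0 (.s k10 k15 2 (.s k6 k14 1 (.s k4 k7 0 (.d k12 k8 k9 1 2))))), (.s k1 k2 0 (.s
  k13 k9 1 (.s k165 k245 11 (.s k89 k241 13 (.s k93 k81 1 (.d k253 k173 k169 11 13)))))), (.s k15
  k10 2 (.s k7 k11 1 (.s k165 k245 11 (.s k86 k244 12 (.s k84 k87 0 (.d k252 k168 k169 13 14))))))]
  (.c k9 (.l (.s k1 k2 0 (.s k15 k10 2 (.s k11 k7 1 (.s k165 k245 11 (.s k169 k253 13 (.d k90 k240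
  k248 14 12))))))) .n))

def s170_255_54 : T TT 256 :=
  (.q k5 [(.s k2 k1 0 (.s k10 k15 2 (.s k6 k14 1 (.s k4 k7 0 (.d k12 k8 k9 1 2))))), (.s k1 k2 0 (.s
  k13 k9 1 (.s k165 k245 11 (.s k89 k241 13 (.s k93 k81 1 (.d k253 k173 k169 11 13)))))), (.s k15
  k10 2 (.s k7 k11 1 (.s k165 k245 11 (.s k86 k244 12 (.s k84 k87 0 (.d k252 k168 k169 13 14))))))]
  (.c k9 (.l (.s k1 k2 0 (.s k15 k10 2 (.s k11 k7 1 (.s k165 k245 11 (.s k169 k253 13 (.d k90 k240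
  k248 14 12))))))) .n))

def s170_255_55 : T TT 256 :=
  (.q k5 [(.s k2 k1 0 (.s k10 k15 2 (.s k6 k14 1 (.s k12 k9 2 (.d k4 k7 k8 0 1))))), (.s k1 k2 0 (.s
  k13 k9 1 (.s k165 k245 11 (.s k89 k241 13 (.s k93 k81 1 (.d k253 k173 k169 11 13)))))), (.s k15
  k10 2 (.s k7 k11 1 (.s k165 k245 11 (.s k86 k244 12 (.s k84 k87 0 (.d k252 k168 k169 13 14))))))]
  (.c k9 (.l (.s k1 k2 0 (.s k15 k10 2 (.s k11 k7 1 (.s k165 k245 11 (.s k169 k253 13 (.d k90 k240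
  k248 14 12))))))) .n))

def s170_255_56 : T TT 256 :=
  (.q k5 [(.s k2 k1 0 (.s k10 k15 2 (.s k6 k14 1 (.s k4 k7 0 (.d k12 k8 k9 1 2))))), (.s k1 k2 0 (.s
  k13 k9 1 (.s k165 k245 11 (.s k89 k241 13 (.s k93 k81 1 (.d k253 k173 k169 11 13)))))), (.s k15
  k10 2 (.s k7 k11 1 (.s k165 k245 11 (.s k86 k244 12 (.s k84 k87 0 (.d k252 k168 k169 13 14))))))]
  (.c k9 (.l (.s k1 k2 0 (.s k15 k10 2 (.s k11 k7 1 (.s k165 k245 11 (.s k169 k253 13 (.d k90 k240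
  k248 14 12))))))) .n))

def s170_255_57 : T TT 256 :=
  (.q k5 [(.s k2 k1 0 (.s k10 k15 2 (.s k6 k14 1 (.s k4 k7 0 (.d k12 k8 k9 1 2))))), (.s k1 k2 0 (.s
  k13 k9 1 (.s k165 k245 11 (.s k89 k241 13 (.s k93 k81 1 (.d k253 k173 k169 11 13)))))), (.s k15
  k10 2 (.s k7 k11 1 (.s k165 k245 11 (.s k86 k244 12 (.s k84 k87 0 (.d k252 k168 k169 13 14))))))]
  (.c k9 (.l (.s k1 k2 0 (.s k15 k10 2 (.s k11 k7 1 (.s k165 k245 11 (.s k169 k253 13 (.d k90 k240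
  k248 14 12))))))) .n))

def s170_255_58 : T TT 256 :=
  (.q k5 [(.s k2 k1 0 (.s k10 k15 2 (.s k6 k14 1 (.s k4 k7 0 (.d k12 k8 k9 1 2))))), (.s k1 k2 0 (.s
  k13 k9 1 (.s k165 k245 11 (.s k89 k241 13 (.s k93 k81 1 (.d k253 k173 k169 11 13)))))), (.s k15
  k10 2 (.s k7 k11 1 (.s k165 k245 11 (.s k86 k244 12 (.s k84 k87 0 (.d k252 k168 k169 13 14))))))]
  (.c k9 (.l (.s k1 k2 0 (.s k15 k10 2 (.s k11 k7 1 (.s k165 k245 11 (.s k169 k253 13 (.d k90 k240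
  k248 14 12))))))) .n))

def s170_255_59 : T TT 256 :=
  (.q k5 [(.s k2 k1 0 (.s k10 k15 2 (.s k6 k14 1 (.s k4 k7 0 (.d k12 k8 k9 1 2))))), (.s k1 k2 0 (.s
  k13 k9 1 (.s k165 k245 11 (.s k89 k241 13 (.s k93 k81 1 (.d k253 k173 k169 11 13)))))), (.s k15
  k10 2 (.s k7 k11 1 (.s k165 k245 11 (.s k86 k244 12 (.s k84 k87 0 (.d k252 k168 k169 13 14))))))]
  (.c k9 (.l (.s k1 k2 0 (.s k15 k10 2 (.s k11 k7 1 (.s k165 k245 11 (.s k169 k253 13 (.d k90 k240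
  k248 14 12))))))) .n))

def s170_255_60 : T TT 256 :=
  (.q k48 [(.s k1 k2 0 (.s k32 k16 3 (.s k33 k18 4 (.s k17 k49 3 (.d k34 k35 k51 0 4))))), (.s k1 k2
  0 (.s k16 k32 3 (.s k154 k223 10 (.s k169 k253 13 (.s k139 k184 4 (.d k207 k101 k71 14 9)))))),
  (.s k16 k32 3 (.s k18 k33 4 (.s k154 k223 10 (.s k86 k222 9 (.s k84 k87 0 (.d k252 k168 k169 13
  14)))))), (.s k1 k2 0 (.s k33 k18 4 (.s k169 k253 13 (.s k101 k237 9 (.s k69 k117 3 (.d k207 k138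
  k154 10 14))))))] (.c k86 (.l (.s k2 k1 0 (.s k16 k32 3 (.s k18 k33 4 (.s k17 k19 0 (.d k34 k50
  k51 3 4)))))) (.c k125 (.q k190 [(.s k1 k2 0 (.s k32 k16 3 (.s k33 k18 4 (.s k17 k49 3 (.d k34 k35
  k51 0 4))))), (.s k1 k2 0 (.s k16 k32 3 (.s k154 k223 10 (.s k169 k253 13 (.s k139 k184 4 (.d k207
  k101 k71 14 9)))))), (.s k16 k32 3 (.s k18 k33 4 (.s k154 k223 10 (.s k86 k222 9 (.s k84 k87 0 (.d
  k252 k168 k169 13 14)))))), (.s k1 k2 0 (.s k33 k18 4 (.s k169 k253 13 (.s k101 k237 9 (.s k69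
  k117 3 (.d k207 k138 k154 10 14))))))] (.c k86 (.l (.s k2 k1 0 (.s k16 k32 3 (.s k18 k33 4 (.s k17
  k19 0 (.d k34 k50 k51 3 4)))))) .n)) (.c k190 (.q k125 [(.s k1 k2 0 (.s k32 k16 3 (.s k33 k18 4
  (.s k17 k49 3 (.d k34 k35 k51 0 4))))), (.s k1 k2 0 (.s k16 k32 3 (.s k154 k223 10 (.s k169 k253
  13 (.s k139 k184 4 (.d k207 k101 k71 14 9)))))), (.s k16 k32 3 (.s k18 k33 4 (.s k154 k223 10 (.s
  k86 k222 9 (.s k84 k87 0 (.d k252 k168 k169 13 14)))))), (.s k1 k2 0 (.s k33 k18 4 (.s k169 k253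
  13 (.s k101 k237 9 (.s k69 k117 3 (.d k207 k138 k154 10 14))))))] (.c k86 (.l (.s k2 k1 0 (.s k16
  k32 3 (.s k18 k33 4 (.s k17 k19 0 (.d k34 k50 k51 3 4)))))) (.c k130 (.q k150 [(.s k2 k1 0 (.s k16
  k32 3 (.s k18 k33 4 (.s k34 k50 3 (.d k17 k19 k51 0 4))))), (.s k1 k2 0 (.s k16 k32 3 (.s k154
  k223 10 (.s k169 k253 13 (.s k139 k184 4 (.d k207 k101 k71 14 9)))))), (.s k1 k2 0 (.s k33 k18 4
  (.s k169 k253 13 (.s k101 k237 9 (.s k69 k117 3 (.d k207 k138 k154 10 14)))))), (.s k16 k32 3 (.s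
  k18 k33 4 (.s k154 k223 10 (.s k86 k222 9 (.s k84 k87 0 (.d k252 k168 k169 13 14))))))] (.c k101
  (.l (.s k1 k2 0 (.s k32 k16 3 (.s k33 k18 4 (.s k17 k49 3 (.d k34 k35 k51 0 4)))))) .n)) (.c k150
  (.q k130 [(.d k65 k105 k195 5 8)] (.c k65 (.l (.s k1 k2 0 (.s k32 k16 3 (.s k33 k18 4 (.s k17 k49
  3 (.d k34 k35 k51 0 4)))))) (.c k105 (.l (.s k195 k65 8 (.s k2 k1 0 (.s k66 k194 7 (.s k129 k192 8
  (.d k131 k128 k67 0 7)))))) (.c k195 (.l (.s k105 k65 5 (.s k1 k2 0 (.s k32 k16 3 (.s k33 k18 4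
  (.s k17 k49 3 (.d k34 k35 k51 0 4))))))) .n)))) .n)))) .n))))

def s170_255_61 : T TT 256 :=
  (.q k5 [(.s k2 k1 0 (.s k10 k15 2 (.s k6 k14 1 (.s k4 k7 0 (.d k12 k8 k9 1 2))))), (.s k1 k2 0 (.s
  k13 k9 1 (.s k165 k245 11 (.s k89 k241 13 (.s k93 k81 1 (.d k253 k173 k169 11 13)))))), (.s k15
  k10 2 (.s k7 k11 1 (.s k165 k245 11 (.s k86 k244 12 (.s k84 k87 0 (.d k252 k168 k169 13 14))))))]
  (.c k9 (.l (.s k1 k2 0 (.s k15 k10 2 (.s k11 k7 1 (.s k165 k245 11 (.s k169 k253 13 (.d k90 k240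
  k248 14 12))))))) .n))

def s170_255_62 : T TT 256 :=
  (.q k5 [(.s k2 k1 0 (.s k10 k15 2 (.s k6 k14 1 (.s k4 k7 0 (.d k12 k8 k9 1 2))))), (.s k1 k2 0 (.s
  k13 k9 1 (.s k165 k245 11 (.s k89 k241 13 (.s k93 k81 1 (.d k253 k173 k169 11 13)))))), (.s k15
  k10 2 (.s k7 k11 1 (.s k165 k245 11 (.s k86 k244 12 (.s k84 k87 0 (.d k252 k168 k169 13 14))))))]
  (.c k9 (.l (.s k1 k2 0 (.s k15 k10 2 (.s k11 k7 1 (.s k165 k245 11 (.s k169 k253 13 (.d k90 k240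
  k248 14 12))))))) .n))

def s170_255_63 : T TT 256 :=
  (.q k48 [(.s k1 k2 0 (.s k32 k16 3 (.s k33 k18 4 (.s k17 k49 3 (.d k34 k35 k51 0 4))))), (.s k1 k2
  0 (.s k16 k32 3 (.s k154 k223 10 (.s k169 k253 13 (.s k139 k184 4 (.d k207 k101 k71 14 9)))))),
  (.s k16 k32 3 (.s k18 k33 4 (.s k154 k223 10 (.s k86 k222 9 (.s k84 k87 0 (.d k252 k168 k169 13
  14)))))), (.s k1 k2 0 (.s k33 k18 4 (.s k169 k253 13 (.s k101 k237 9 (.s k69 k117 3 (.d k207 k138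
  k154 10 14))))))] (.c k86 (.l (.s k2 k1 0 (.s k16 k32 3 (.s k18 k33 4 (.s k17 k19 0 (.d k34 k50
  k51 3 4)))))) (.c k127 (.q k191 [(.s k1 k2 0 (.s k32 k16 3 (.s k33 k18 4 (.s k17 k49 3 (.d k34 k35
  k51 0 4))))), (.s k1 k2 0 (.s k16 k32 3 (.s k154 k223 10 (.s k169 k253 13 (.s k139 k184 4 (.d k207
  k101 k71 14 9)))))), (.s k16 k32 3 (.s k18 k33 4 (.s k154 k223 10 (.s k86 k222 9 (.s k84 k87 0 (.d
  k252 k168 k169 13 14)))))), (.s k1 k2 0 (.s k33 k18 4 (.s k169 k253 13 (.s k101 k237 9 (.s k69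
  k117 3 (.d k207 k138 k154 10 14))))))] (.c k86 (.l (.s k2 k1 0 (.s k16 k32 3 (.s k18 k33 4 (.s k17
  k19 0 (.d k34 k50 k51 3 4)))))) .n)) (.c k191 (.q k127 [(.s k1 k2 0 (.s k32 k16 3 (.s k33 k18 4
  (.s k17 k49 3 (.d k34 k35 k51 0 4))))), (.s k1 k2 0 (.s k16 k32 3 (.s k154 k223 10 (.s k169 k253
  13 (.s k139 k184 4 (.d k207 k101 k71 14 9)))))), (.s k16 k32 3 (.s k18 k33 4 (.s k154 k223 10 (.s
  k86 k222 9 (.s k84 k87 0 (.d k252 k168 k169 13 14)))))), (.s k1 k2 0 (.s k33 k18 4 (.s k169 k253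
  13 (.s k101 k237 9 (.s k69 k117 3 (.d k207 k138 k154 10 14))))))] (.c k86 (.l (.s k2 k1 0 (.s k16
  k32 3 (.s k18 k33 4 (.s k17 k19 0 (.d k34 k50 k51 3 4)))))) (.c k128 (.q k149 [(.s k1 k2 0 (.s k32
  k16 3 (.s k33 k18 4 (.s k17 k49 3 (.d k34 k35 k51 0 4))))), (.s k1 k2 0 (.s k21 k213 7 (.s k61 k41
  5 (.s k105 k193 13 (.s k125 k65 5 (.d k253 k189 k169 7 13)))))), (.s k16 k32 3 (.s k18 k33 4 (.s
  k154 k223 10 (.s k86 k222 9 (.s k84 k87 0 (.d k252 k168 k169 13 14))))))] (.c k86 (.l (.s k2 k1 0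
  (.s k16 k32 3 (.s k18 k33 4 (.s k17 k19 0 (.d k34 k50 k51 3 4)))))) .n)) (.c k149 (.q k128 [(.d
  k64 k106 k192 6 7)] (.c k64 (.l (.s k1 k2 0 (.s k32 k16 3 (.s k33 k18 4 (.s k17 k49 3 (.d k34 k35
  k51 0 4)))))) (.c k106 (.l (.s k192 k64 7 (.s k1 k2 0 (.s k129 k66 8 (.s k65 k193 7 (.d k130 k131
  k195 0 8)))))) (.c k192 (.l (.s k106 k64 6 (.s k1 k2 0 (.s k32 k16 3 (.s k33 k18 4 (.s k17 k49 3
  (.d k34 k35 k51 0 4))))))) .n)))) .n)))) .n))))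

def s170_255_64 : T TT 256 :=
  (.q k5 [(.s k2 k1 0 (.s k10 k15 2 (.s k6 k14 1 (.s k4 k7 0 (.d k12 k8 k9 1 2))))), (.s k1 k2 0 (.s
  k13 k9 1 (.s k165 k245 11 (.s k89 k241 13 (.s k93 k81 1 (.d k253 k173 k169 11 13)))))), (.s k15
  k10 2 (.s k7 k11 1 (.s k165 k245 11 (.s k86 k244 12 (.s k84 k87 0 (.d k252 k168 k169 13 14))))))]
  (.c k9 (.l (.s k1 k2 0 (.s k15 k10 2 (.s k11 k7 1 (.s k165 k245 11 (.s k169 k253 13 (.d k90 k240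
  k248 14 12))))))) .n))

def s170_255_65 : T TT 256 :=
  (.q k5 [(.s k1 k2 0 (.s k9 k13 1 (.s k6 k12 2 (.s k7 k4 0 (.d k15 k11 k10 1 2))))), (.s k15 k10 2
  (.s k7 k11 1 (.s k165 k245 11 (.s k86 k244 12 (.s k84 k87 0 (.d k252 k168 k169 13 14)))))), (.s k1
  k2 0 (.s k13 k9 1 (.s k165 k245 11 (.s k89 k241 13 (.s k93 k81 1 (.d k253 k173 k169 11 13))))))]
  (.c k9 (.l (.s k1 k2 0 (.s k15 k10 2 (.s k11 k7 1 (.s k165 k245 11 (.s k169 k253 13 (.d k90 k240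
  k248 14 12))))))) (.c k86 (.l (.s k2 k1 0 (.s k10 k15 2 (.s k6 k14 1 (.s k4 k7 0 (.d k12 k8 k9 1
  2)))))) .n)))

def s170_255_66 : T TT 256 :=
  (.q k5 [(.s k2 k1 0 (.s k10 k15 2 (.s k6 k14 1 (.s k4 k7 0 (.d k12 k8 k9 1 2))))), (.s k1 k2 0 (.s
  k13 k9 1 (.s k165 k245 11 (.s k89 k241 13 (.s k93 k81 1 (.d k253 k173 k169 11 13)))))), (.s k15
  k10 2 (.s k7 k11 1 (.s k165 k245 11 (.s k86 k244 12 (.s k84 k87 0 (.d k252 k168 k169 13 14))))))]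
  (.c k9 (.l (.s k1 k2 0 (.s k15 k10 2 (.s k11 k7 1 (.s k165 k245 11 (.s k169 k253 13 (.d k90 k240
  k248 14 12))))))) .n))

def s170_255_67 : T TT 256 :=
  (.q k5 [(.s k2 k1 0 (.s k10 k15 2 (.s k6 k14 1 (.s k4 k7 0 (.d k12 k8 k9 1 2))))), (.s k1 k2 0 (.s
  k13 k9 1 (.s k165 k245 11 (.s k89 k241 13 (.s k93 k81 1 (.d k253 k173 k169 11 13)))))), (.s k15
  k10 2 (.s k7 k11 1 (.s k165 k245 11 (.s k86 k244 12 (.s k84 k87 0 (.d k252 k168 k169 13 14))))))]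
  (.c k9 (.l (.s k1 k2 0 (.s k15 k10 2 (.s k11 k7 1 (.s k165 k245 11 (.s k169 k253 13 (.d k90 k240
  k248 14 12))))))) .n))

def s170_255_68 : T TT 256 :=
  (.q k5 [(.s k2 k1 0 (.s k10 k15 2 (.s k6 k14 1 (.s k4 k7 0 (.d k12 k8 k9 1 2))))), (.s k1 k2 0 (.s
  k13 k9 1 (.s k165 k245 11 (.s k89 k241 13 (.s k93 k81 1 (.d k253 k173 k169 11 13)))))), (.s k15
  k10 2 (.s k7 k11 1 (.s k165 k245 11 (.s k86 k244 12 (.s k84 k87 0 (.d k252 k168 k169 13 14))))))]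
  (.c k9 (.l (.s k1 k2 0 (.s k15 k10 2 (.s k11 k7 1 (.s k165 k245 11 (.s k169 k253 13 (.d k90 k240
  k248 14 12))))))) .n))

def s170_255_69 : T TT 256 :=
  (.q k5 [(.s k1 k2 0 (.s k9 k13 1 (.s k10 k15 2 (.s k8 k11 0 (.d k12 k4 k6 1 2))))), (.s k15 k10 2
  (.s k7 k11 1 (.s k165 k245 11 (.s k86 k244 12 (.s k84 k87 0 (.d k252 k168 k169 13 14)))))), (.s k1
  k2 0 (.s k13 k9 1 (.s k165 k245 11 (.s k89 k241 13 (.s k93 k81 1 (.d k253 k173 k169 11 13))))))]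
  (.c k9 (.l (.s k1 k2 0 (.s k15 k10 2 (.s k11 k7 1 (.s k165 k245 11 (.s k169 k253 13 (.d k90 k240
  k248 14 12))))))) (.c k86 (.l (.s k2 k1 0 (.s k10 k15 2 (.s k6 k14 1 (.s k4 k7 0 (.d k12 k8 k9 1
  2)))))) .n)))

def s170_255_70 : T TT 256 :=
  (.q k5 [(.s k2 k1 0 (.s k10 k15 2 (.s k6 k14 1 (.s k12 k9 2 (.d k4 k7 k8 0 1))))), (.s k1 k2 0 (.s
  k13 k9 1 (.s k165 k245 11 (.s k89 k241 13 (.s k93 k81 1 (.d k253 k173 k169 11 13)))))), (.s k15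
  k10 2 (.s k7 k11 1 (.s k165 k245 11 (.s k86 k244 12 (.s k84 k87 0 (.d k252 k168 k169 13 14))))))]
  (.c k9 (.l (.s k1 k2 0 (.s k15 k10 2 (.s k11 k7 1 (.s k165 k245 11 (.s k169 k253 13 (.d k90 k240
  k248 14 12))))))) .n))

def s170_255_71 : T TT 256 :=
  (.q k5 [(.s k2 k1 0 (.s k10 k15 2 (.s k6 k14 1 (.s k12 k9 2 (.d k4 k7 k8 0 1))))), (.s k1 k2 0 (.s
  k13 k9 1 (.s k165 k245 11 (.s k89 k241 13 (.s k93 k81 1 (.d k253 k173 k169 11 13)))))), (.s k15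
  k10 2 (.s k7 k11 1 (.s k165 k245 11 (.s k86 k244 12 (.s k84 k87 0 (.d k252 k168 k169 13 14))))))]
  (.c k9 (.l (.s k1 k2 0 (.s k15 k10 2 (.s k11 k7 1 (.s k165 k245 11 (.s k169 k253 13 (.d k90 k240
  k248 14 12))))))) .n))

def s170_255_72 : T TT 256 :=
  (.q k5 [(.s k2 k1 0 (.s k10 k15 2 (.s k6 k14 1 (.s k4 k7 0 (.d k12 k8 k9 1 2))))), (.s k1 k2 0 (.s
  k13 k9 1 (.s k165 k245 11 (.s k89 k241 13 (.s k93 k81 1 (.d k253 k173 k169 11 13)))))), (.s k15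
  k10 2 (.s k7 k11 1 (.s k165 k245 11 (.s k86 k244 12 (.s k84 k87 0 (.d k252 k168 k169 13 14))))))]
  (.c k9 (.l (.s k1 k2 0 (.s k15 k10 2 (.s k11 k7 1 (.s k165 k245 11 (.s k169 k253 13 (.d k90 k240
  k248 14 12))))))) .n))

def s170_255_73 : T TT 256 :=
  (.q k5 [(.s k2 k1 0 (.s k10 k15 2 (.s k6 k14 1 (.s k4 k7 0 (.d k12 k8 k9 1 2))))), (.s k1 k2 0 (.s
  k13 k9 1 (.s k165 k245 11 (.s k89 k241 13 (.s k93 k81 1 (.d k253 k173 k169 11 13)))))), (.s k15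
  k10 2 (.s k7 k11 1 (.s k165 k245 11 (.s k86 k244 12 (.s k84 k87 0 (.d k252 k168 k169 13 14))))))]
  (.c k9 (.l (.s k1 k2 0 (.s k15 k10 2 (.s k11 k7 1 (.s k165 k245 11 (.s k169 k253 13 (.d k90 k240
  k248 14 12))))))) .n))

def s170_255_74 : T TT 256 :=
  (.q k5 [(.s k1 k2 0 (.s k9 k13 1 (.s k6 k12 2 (.s k7 k4 0 (.d k15 k11 k10 1 2))))), (.s k15 k10 2
  (.s k7 k11 1 (.s k165 k245 11 (.s k86 k244 12 (.s k84 k87 0 (.d k252 k168 k169 13 14)))))), (.s k1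
  k2 0 (.s k13 k9 1 (.s k165 k245 11 (.s k89 k241 13 (.s k93 k81 1 (.d k253 k173 k169 11 13))))))]
  (.c k9 (.l (.s k1 k2 0 (.s k15 k10 2 (.s k11 k7 1 (.s k165 k245 11 (.s k169 k253 13 (.d k90 k240
  k248 14 12))))))) (.c k86 (.l (.s k2 k1 0 (.s k10 k15 2 (.s k6 k14 1 (.s k4 k7 0 (.d k12 k8 k9 1
  2)))))) .n)))

def s170_255_75 : T TT 256 :=
  (.q k5 [(.s k1 k2 0 (.s k9 k13 1 (.s k6 k12 2 (.s k7 k4 0 (.d k15 k11 k10 1 2))))), (.s k15 k10 2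
  (.s k7 k11 1 (.s k165 k245 11 (.s k86 k244 12 (.s k84 k87 0 (.d k252 k168 k169 13 14)))))), (.s k1
  k2 0 (.s k13 k9 1 (.s k165 k245 11 (.s k89 k241 13 (.s k93 k81 1 (.d k253 k173 k169 11 13))))))]
  (.c k9 (.l (.s k1 k2 0 (.s k15 k10 2 (.s k11 k7 1 (.s k165 k245 11 (.s k169 k253 13 (.d k90 k240
  k248 14 12))))))) (.c k86 (.l (.s k2 k1 0 (.s k10 k15 2 (.s k6 k14 1 (.s k4 k7 0 (.d k12 k8 k9 1
  2)))))) .n)))

def s170_255_76 : T TT 256 :=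
  (.q k5 [(.s k2 k1 0 (.s k10 k15 2 (.s k6 k14 1 (.s k4 k7 0 (.d k12 k8 k9 1 2))))), (.s k1 k2 0 (.s
  k13 k9 1 (.s k165 k245 11 (.s k89 k241 13 (.s k93 k81 1 (.d k253 k173 k169 11 13)))))), (.s k15
  k10 2 (.s k7 k11 1 (.s k165 k245 11 (.s k86 k244 12 (.s k84 k87 0 (.d k252 k168 k169 13 14))))))]
  (.c k9 (.l (.s k1 k2 0 (.s k15 k10 2 (.s k11 k7 1 (.s k165 k245 11 (.s k169 k253 13 (.d k90 k240
  k248 14 12))))))) .n))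

def s170_255_77 : T TT 256 :=
  (.q k5 [(.s k2 k1 0 (.s k10 k15 2 (.s k6 k14 1 (.s k4 k7 0 (.d k12 k8 k9 1 2))))), (.s k1 k2 0 (.s
  k13 k9 1 (.s k165 k245 11 (.s k89 k241 13 (.s k93 k81 1 (.d k253 k173 k169 11 13)))))), (.s k15
  k10 2 (.s k7 k11 1 (.s k165 k245 11 (.s k86 k244 12 (.s k84 k87 0 (.d k252 k168 k169 13 14))))))]
  (.c k9 (.l (.s k1 k2 0 (.s k15 k10 2 (.s k11 k7 1 (.s k165 k245 11 (.s k169 k253 13 (.d k90 k240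
  k248 14 12))))))) .n))

def s170_255_78 : T TT 256 :=
  (.q k5 [(.s k1 k2 0 (.s k9 k13 1 (.s k6 k12 2 (.s k7 k4 0 (.d k15 k11 k10 1 2))))), (.s k15 k10 2
  (.s k7 k11 1 (.s k165 k245 11 (.s k86 k244 12 (.s k84 k87 0 (.d k252 k168 k169 13 14)))))), (.s k1
  k2 0 (.s k13 k9 1 (.s k165 k245 11 (.s k89 k241 13 (.s k93 k81 1 (.d k253 k173 k169 11 13))))))]
  (.c k9 (.l (.s k1 k2 0 (.s k15 k10 2 (.s k11 k7 1 (.s k165 k245 11 (.s k169 k253 13 (.d k90 k240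
  k248 14 12))))))) (.c k86 (.l (.s k2 k1 0 (.s k10 k15 2 (.s k6 k14 1 (.s k4 k7 0 (.d k12 k8 k9 1
  2)))))) .n)))

def s170_255_79 : T TT 256 :=
  (.q k5 [(.s k1 k2 0 (.s k9 k13 1 (.s k6 k12 2 (.s k7 k4 0 (.d k15 k11 k10 1 2))))), (.s k15 k10 2
  (.s k7 k11 1 (.s k165 k245 11 (.s k86 k244 12 (.s k84 k87 0 (.d k252 k168 k169 13 14)))))), (.s k1
  k2 0 (.s k13 k9 1 (.s k165 k245 11 (.s k89 k241 13 (.s k93 k81 1 (.d k253 k173 k169 11 13))))))]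
  (.c k9 (.l (.s k1 k2 0 (.s k15 k10 2 (.s k11 k7 1 (.s k165 k245 11 (.s k169 k253 13 (.d k90 k240
  k248 14 12))))))) (.c k86 (.l (.s k2 k1 0 (.s k10 k15 2 (.s k6 k14 1 (.s k4 k7 0 (.d k12 k8 k9 1
  2)))))) .n)))

def s170_255_80 : T TT 256 :=
  (.q k5 [(.s k2 k1 0 (.s k10 k15 2 (.s k6 k14 1 (.s k4 k7 0 (.d k12 k8 k9 1 2))))), (.s k1 k2 0 (.s
  k13 k9 1 (.s k165 k245 11 (.s k89 k241 13 (.s k93 k81 1 (.d k253 k173 k169 11 13)))))), (.s k15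
  k10 2 (.s k7 k11 1 (.s k165 k245 11 (.s k86 k244 12 (.s k84 k87 0 (.d k252 k168 k169 13 14))))))]
  (.c k9 (.l (.s k1 k2 0 (.s k15 k10 2 (.s k11 k7 1 (.s k165 k245 11 (.s k169 k253 13 (.d k90 k240
  k248 14 12))))))) .n))

def s170_255_81 : T TT 256 :=
  (.q k5 [(.s k1 k2 0 (.s k9 k13 1 (.s k6 k12 2 (.s k7 k4 0 (.d k15 k11 k10 1 2))))), (.s k15 k10 2
  (.s k7 k11 1 (.s k165 k245 11 (.s k86 k244 12 (.s k84 k87 0 (.d k252 k168 k169 13 14)))))), (.s k1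
  k2 0 (.s k165 k245 11 (.s k169 k253 13 (.s k161 k173 1 (.s k240 k82 12 (.d k15 k10 k90 2 14))))))]
  (.c k10 (.l (.s k1 k2 0 (.s k9 k13 1 (.s k6 k12 2 (.s k4 k7 0 (.s k166 k247 12 (.s k86 k246 11 (.d
  k169 k253 k252 13 14)))))))) (.c k15 (.l (.s k1 k2 0 (.s k9 k13 1 (.s k12 k6 2 (.s k4 k8 1 (.s
  k166 k247 12 (.s k169 k253 13 (.d k89 k243 k249 14 11)))))))) (.c k86 (.l (.s k2 k1 0 (.s k10 k15
  2 (.s k6 k14 1 (.s k4 k7 0 (.d k12 k8 k9 1 2)))))) .n))))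

def s170_255_82 : T TT 256 :=
  (.q k5 [(.s k2 k1 0 (.s k10 k15 2 (.s k6 k14 1 (.s k4 k7 0 (.d k12 k8 k9 1 2))))), (.s k1 k2 0 (.s
  k13 k9 1 (.s k165 k245 11 (.s k89 k241 13 (.s k93 k81 1 (.d k253 k173 k169 11 13)))))), (.s k15
  k10 2 (.s k7 k11 1 (.s k165 k245 11 (.s k86 k244 12 (.s k84 k87 0 (.d k252 k168 k169 13 14))))))]
  (.c k9 (.l (.s k1 k2 0 (.s k15 k10 2 (.s k11 k7 1 (.s k165 k245 11 (.s k169 k253 13 (.d k90 k240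
  k248 14 12))))))) .n))

def s170_255_83 : T TT 256 :=
  (.q k5 [(.s k2 k1 0 (.s k10 k15 2 (.s k6 k14 1 (.s k4 k7 0 (.d k12 k8 k9 1 2))))), (.s k1 k2 0 (.s
  k13 k9 1 (.s k165 k245 11 (.s k89 k241 13 (.s k93 k81 1 (.d k253 k173 k169 11 13)))))), (.s k15
  k10 2 (.s k7 k11 1 (.s k165 k245 11 (.s k86 k244 12 (.s k84 k87 0 (.d k252 k168 k169 13 14))))))]
  (.c k9 (.l (.s k1 k2 0 (.s k15 k10 2 (.s k11 k7 1 (.s k165 k245 11 (.s k169 k253 13 (.d k90 k240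
  k248 14 12))))))) .n))

def s170_255_84 : T TT 256 :=
  (.q k5 [(.s k2 k1 0 (.s k10 k15 2 (.s k6 k14 1 (.s k4 k7 0 (.d k12 k8 k9 1 2))))), (.s k1 k2 0 (.s
  k13 k9 1 (.s k165 k245 11 (.s k89 k241 13 (.s k93 k81 1 (.d k253 k173 k169 11 13)))))), (.s k15
  k10 2 (.s k7 k11 1 (.s k165 k245 11 (.s k86 k244 12 (.s k169 k252 14 (.s k161 k173 1 (.d k240 k90
  k82 14 12)))))))] (.c k9 (.l (.s k1 k2 0 (.s k15 k10 2 (.s k11 k7 1 (.s k165 k245 11 (.s k169 k253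
  13 (.d k90 k240 k248 14 12))))))) .n))

def s170_255_86 : T TT 256 :=
  (.f k2 k1 0 (.q k34 [(.s k17 k51 4 (.s k18 k50 3 (.s k48 k33 4 (.d k16 k19 k32 0 3)))), (.s k18
  k50 3 (.s k33 k48 4 (.s k35 k32 0 (.d k51 k19 k17 3 4))))] (.c k17 (.q k162 [(.s k81 k243 12 (.s
  k82 k242 11 (.s k240 k161 12 (.d k80 k83 k160 0 11)))), (.s k50 k18 3 (.s k82 k242 11 (.s k98 k226
  7 (.s k66 k114 3 (.d k194 k130 k146 7 11))))), (.s k18 k50 3 (.s k33 k48 4 (.s k32 k35 0 (.s k97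
  k227 8 (.s k161 k225 7 (.s k163 k160 0 (.d k243 k83 k81 11 12)))))))] (.c k33 (.q k49 [(.s k81
  k243 12 (.s k82 k242 11 (.s k80 k83 0 (.d k240 k160 k161 11 12)))), (.s k50 k18 3 (.s k82 k242 11
  (.s k98 k226 7 (.s k66 k114 3 (.d k194 k130 k146 7 11))))), (.s k50 k18 3 (.s k48 k51 0 (.s k16
  k32 3 (.s k81 k243 12 (.s k98 k226 7 (.d k146 k211 k194 8 11))))))] .n) (.c k49 (.q k33 [(.d k18
  k50 k48 3 4), (.s k32 k35 0 (.s k82 k242 11 (.s k97 k227 8 (.d k161 k225 k240 7 12))))] .n) .n)))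
  (.c k18 (.q k38 [(.s k42 k46 1 (.s k21 k63 6 (.s k4 k55 4 (.s k12 k8 1 (.d k51 k17 k25 4 6))))),
  (.s k42 k46 1 (.s k22 k62 5 (.s k41 k60 6 (.s k43 k40 0 (.d k63 k23 k21 5 6))))), (.s k51 k17 4
  (.s k12 k25 6 (.s k6 k9 2 (.s k10 k14 1 (.s k5 k15 2 (.d k4 k7 k8 0 1))))))] (.c k21 (.l (.s k42
  k46 1 (.s k22 k62 5 (.s k6 k54 3 (.s k12 k9 2 (.d k51 k17 k25 4 6)))))) (.c k154 (.q k222 [(.s k42
  k46 1 (.s k21 k63 6 (.s k4 k55 4 (.s k12 k8 1 (.d k51 k17 k25 4 6))))), (.s k42 k46 1 (.s k22 k62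
  5 (.s k41 k60 6 (.s k43 k40 0 (.d k63 k23 k21 5 6))))), (.s k51 k17 4 (.s k12 k25 6 (.s k6 k9 2
  (.s k10 k14 1 (.s k5 k15 2 (.d k4 k7 k8 0 1))))))] (.c k21 (.l (.s k42 k46 1 (.s k22 k62 5 (.s k6
  k54 3 (.s k12 k9 2 (.d k51 k17 k25 4 6)))))) (.c k138 (.q k186 [(.s k42 k46 1 (.s k22 k62 5 (.s k6
  k54 3 (.s k12 k9 2 (.d k51 k17 k25 4 6))))), (.s k42 k46 1 (.s k21 k63 6 (.s k4 k55 4 (.s k12 k8 1
  (.d k51 k17 k25 4 6))))), (.s k42 k46 1 (.s k22 k62 5 (.s k41 k60 6 (.s k43 k40 0 (.d k63 k23 k21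
  5 6))))), (.s k51 k17 4 (.s k12 k25 6 (.s k6 k9 2 (.s k10 k14 1 (.s k5 k15 2 (.d k4 k7 k8 0
  1))))))] .n) (.c k186 (.q k138 [(.s k207 k69 10 (.s k139 k71 9 (.s k137 k136 0 (.d k70 k206 k204 9
  10)))), (.s k42 k46 1 (.s k21 k63 6 (.s k4 k55 4 (.s k12 k8 1 (.d k51 k17 k25 4 6)))))] (.c k48
  (.q k117 [(.d k69 k101 k207 3 10)] (.c k69 (.l (.s k42 k46 1 (.s k21 k63 6 (.s k4 k55 4 (.s k12 k8
  1 (.d k51 k17 k25 4 6)))))) (.c k101 (.l (.s k207 k69 10 (.s k70 k206 9 (.s k137 k204 10 (.d k139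
  k136 k71 0 9))))) (.c k207 (.l (.s k101 k69 3 (.s k42 k46 1 (.s k21 k63 6 (.s k4 k55 4 (.s k12 k8
  1 (.d k51 k17 k25 4 6))))))) .n)))) (.c k117 (.q k48 [(.s k32 k16 3 (.s k35 k33 0 (.d k51 k19 k17
  3 4))), (.s k69 k207 10 (.s k70 k206 9 (.s k68 k71 0 (.d k204 k136 k137 9 10))))] .n) .n))) .n))))
  (.c k222 (.q k154 [(.s k16 k223 10 (.s k32 k48 3 (.s k35 k33 0 (.d k51 k17 k19 4 3)))), (.s k42
  k46 1 (.s k21 k63 6 (.s k22 k62 5 (.s k20 k23 0 (.d k60 k40 k41 5 6)))))] .n) .n)))) (.c k19 (.f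
  k17 k51 4 (.f k153 k221 9 (.q k204 [(.s k68 k136 9 (.s k70 k137 10 (.s k138 k206 9 (.d k69 k71
  k207 0 10)))), (.s k18 k50 3 (.s k48 k33 4 (.s k16 k32 3 (.s k152 k100 13 (.d k154 k155 k223 0
  10)))))] (.c k119 (.q k187 [(.s k68 k136 9 (.s k70 k137 10 (.s k138 k206 9 (.d k69 k71 k207 0
  10)))), (.s k18 k50 3 (.s k48 k33 4 (.s k16 k32 3 (.s k152 k100 13 (.d k154 k155 k223 0 10)))))]
  .n) (.c k187 (.q k119 [(.d k68 k102 k136 4 9), (.s k18 k50 3 (.s k48 k33 4 (.s k16 k32 3 (.s k152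
  k100 13 (.d k154 k155 k223 0 10)))))] .n) .n))))) (.c k32 (.q k101 [(.s k18 k50 3 (.s k69 k117 3
  (.s k207 k138 10 (.d k48 k154 k33 14 4)))), (.s k69 k117 3 (.s k138 k207 10 (.s k70 k206 9 (.s k68
  k71 0 (.d k204 k136 k137 9 10))))), (.s k17 k51 4 (.s k18 k50 3 (.s k16 k19 0 (.s k48 k33 4 (.d
  k154 k223 k207 10 14)))))] (.c k48 (.q k42 [(.s k21 k63 6 (.s k22 k62 5 (.s k60 k41 6 (.d k20 k23
  k40 0 5)))), (.s k22 k62 5 (.s k38 k46 1 (.s k6 k54 3 (.s k12 k9 2 (.d k51 k17 k25 4 6))))), (.s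
  k21 k63 6 (.s k38 k46 1 (.s k4 k55 4 (.s k12 k8 1 (.d k51 k17 k25 4 6)))))] (.c k58 (.l (.s k22
  k62 5 (.s k41 k60 6 (.s k43 k40 0 (.d k63 k23 k21 5 6))))) (.c k117 (.q k186 [(.s k21 k63 6 (.s
  k22 k62 5 (.s k60 k41 6 (.d k20 k23 k40 0 5)))), (.s k22 k62 5 (.s k38 k46 1 (.s k6 k54 3 (.s k12
  k9 2 (.d k51 k17 k25 4 6))))), (.s k21 k63 6 (.s k38 k46 1 (.s k4 k55 4 (.s k12 k8 1 (.d k51 k17
  k25 4 6)))))] (.c k58 (.l (.s k22 k62 5 (.s k41 k60 6 (.s k43 k40 0 (.d k63 k23 k21 5 6))))) .n))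
  (.c k186 (.l (.s k117 k69 3 (.s k21 k63 6 (.s k22 k62 5 (.s k20 k23 0 (.d k60 k40 k41 5 6))))))
  .n)))) (.c k207 (.f k18 k50 3 (.l (.s k33 k48 4 (.s k51 k17 4 (.s k35 k19 3 (.s k169 k237 9 (.s
  k102 k236 10 (.s k68 k119 4 (.d k204 k153 k136 14 9))))))))) .n))) (.c k33 (.q k66 [(.s k129 k192
  8 (.s k130 k194 7 (.s k195 k65 8 (.d k131 k128 k67 0 7)))), (.s k50 k18 3 (.s k194 k130 7 (.s k98
  k146 11 (.s k82 k114 3 (.d k162 k226 k242 7 11))))), (.s k50 k18 3 (.s k51 k17 4 (.s k49 k48 0 (.s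
  k192 k129 8 (.s k98 k145 12 (.s k82 k114 3 (.d k162 k226 k242 7 11)))))))] (.c k17 (.q k49 [(.s
  k129 k192 8 (.s k130 k194 7 (.s k195 k65 8 (.d k131 k128 k67 0 7)))), (.s k50 k18 3 (.s k194 k130
  7 (.s k98 k146 11 (.s k82 k114 3 (.d k162 k226 k242 7 11))))), (.s k50 k18 3 (.s k51 k48 0 (.s
  k192 k129 8 (.s k98 k145 12 (.s k82 k114 3 (.d k162 k226 k242 7 11))))))] .n) (.c k49 (.l (.s k17
  k51 4 (.s k129 k192 8 (.s k130 k194 7 (.s k131 k128 0 (.d k195 k67 k65 7 8)))))) .n))) (.c k48 (.q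
  k42 [(.s k21 k63 6 (.s k22 k62 5 (.s k60 k41 6 (.d k20 k23 k40 0 5)))), (.s k22 k62 5 (.s k38 k46
  1 (.s k6 k54 3 (.s k12 k9 2 (.d k51 k17 k25 4 6))))), (.s k21 k63 6 (.s k38 k46 1 (.s k4 k55 4 (.s
  k12 k8 1 (.d k51 k17 k25 4 6)))))] (.c k58 (.l (.s k22 k62 5 (.s k41 k60 6 (.s k43 k40 0 (.d k63
  k23 k21 5 6))))) (.c k117 (.q k186 [(.s k21 k63 6 (.s k22 k62 5 (.s k60 k41 6 (.d k20 k23 k40 0
  5)))), (.s k22 k62 5 (.s k38 k46 1 (.s k6 k54 3 (.s k12 k9 2 (.d k51 k17 k25 4 6))))), (.s k21 k63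
  6 (.s k38 k46 1 (.s k4 k55 4 (.s k12 k8 1 (.d k51 k17 k25 4 6)))))] (.c k58 (.l (.s k22 k62 5 (.s
  k41 k60 6 (.s k43 k40 0 (.d k63 k23 k21 5 6))))) .n)) (.c k186 (.q k117 [(.s k21 k63 6 (.s k22 k62
  5 (.s k60 k41 6 (.d k20 k23 k40 0 5)))), (.s k22 k62 5 (.s k38 k46 1 (.s k6 k54 3 (.s k12 k9 2 (.d
  k51 k17 k25 4 6))))), (.s k21 k63 6 (.s k38 k46 1 (.s k4 k55 4 (.s k12 k8 1 (.d k51 k17 k25 4
  6)))))] (.c k58 (.l (.s k22 k62 5 (.s k41 k60 6 (.s k43 k40 0 (.d k63 k23 k21 5 6))))) (.c k138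
  (.q k154 [(.s k16 k223 10 (.s k17 k51 4 (.d k18 k50 k19 3 0))), (.s k21 k63 6 (.s k22 k62 5 (.s
  k20 k23 0 (.d k60 k40 k41 5 6))))] .n) (.c k154 (.q k138 [(.d k69 k101 k207 3 10)] (.c k18 (.q
  k222 [(.d k69 k101 k207 3 10)] (.c k69 (.l (.s k21 k63 6 (.s k22 k62 5 (.s k20 k23 0 (.d k60 k40
  k41 5 6))))) (.c k101 (.l (.s k207 k69 10 (.s k70 k206 9 (.s k137 k204 10 (.d k139 k136 k71 0
  9))))) (.c k207 (.l (.s k101 k69 3 (.s k21 k63 6 (.s k22 k62 5 (.s k20 k23 0 (.d k60 k40 k41 5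
  6)))))) .n)))) (.c k69 (.l (.s k21 k63 6 (.s k22 k62 5 (.s k20 k23 0 (.d k60 k40 k41 5 6))))) (.c
  k101 (.l (.s k207 k69 10 (.s k70 k206 9 (.s k137 k204 10 (.d k139 k136 k71 0 9))))) (.c k207 (.l
  (.s k101 k69 3 (.s k21 k63 6 (.s k22 k62 5 (.s k20 k23 0 (.d k60 k40 k41 5 6)))))) (.c k222 (.l
  (.s k18 k50 3 (.d k69 k101 k207 3 10))) .n)))))) .n)))) .n)))) (.c k49 (.l (.s k17 k51 4 (.s k18
  k50 3 (.s k48 k33 4 (.d k16 k19 k32 0 3))))) (.c k50 (.q k12 [(.s k6 k9 2 (.s k10 k14 1 (.s k5 k15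
  2 (.d k4 k7 k8 0 1)))), (.s k4 k8 1 (.s k51 k17 4 (.s k38 k25 6 (.s k21 k55 4 (.d k42 k46 k63 1
  6))))), (.s k6 k9 2 (.s k51 k17 4 (.s k38 k25 6 (.s k22 k54 3 (.d k42 k62 k46 5 1)))))] (.c k38
  (.l (.s k4 k8 1 (.s k6 k9 2 (.s k5 k7 0 (.d k10 k14 k15 1 2))))) .n)) (.c k51 (.q k21 [(.s k42 k63
  6 (.s k22 k62 5 (.s k60 k41 6 (.d k20 k23 k40 0 5)))), (.s k18 k50 3 (.s k48 k33 4 (.s k16 k32 3
  (.s k26 k31 2 (.s k22 k30 1 (.d k42 k62 k63 5 6)))))), (.s k18 k50 3 (.s k48 k33 4 (.s k16 k32 3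
  (.s k26 k31 2 (.s k22 k30 1 (.s k20 k23 0 (.d k60 k40 k41 5 6)))))))] (.c k22 (.l (.s k18 k50 3
  (.s k42 k63 6 (.s k48 k33 4 (.s k16 k32 3 (.s k26 k31 2 (.s k10 k58 3 (.d k15 k5 k37 2 6))))))))
  (.c k119 (.q k187 [(.s k42 k63 6 (.s k22 k62 5 (.s k60 k41 6 (.d k20 k23 k40 0 5)))), (.s k18 k50
  3 (.s k48 k33 4 (.s k16 k32 3 (.s k26 k31 2 (.s k22 k30 1 (.d k42 k62 k63 5 6)))))), (.s k18 k50 3
  (.s k48 k33 4 (.s k16 k32 3 (.s k26 k31 2 (.s k22 k30 1 (.s k20 k23 0 (.d k60 k40 k41 5 6)))))))]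
  (.c k22 (.l (.s k18 k50 3 (.s k42 k63 6 (.s k48 k33 4 (.s k16 k32 3 (.s k26 k31 2 (.s k10 k58 3
  (.d k15 k5 k37 2 6)))))))) .n)) (.c k187 (.q k119 [(.s k42 k63 6 (.s k22 k62 5 (.s k60 k41 6 (.d
  k20 k23 k40 0 5)))), (.s k102 k68 4 (.s k149 k213 7 (.s k55 k196 12 (.s k4 k38 4 (.d k247 k183
  k166 7 12)))))] (.c k55 (.l (.s k18 k50 3 (.s k48 k33 4 (.s k16 k32 3 (.s k26 k31 2 (.s k22 k30 1
  (.d k42 k62 k63 5 6))))))) (.c k136 (.q k153 [(.s k17 k221 9 (.s k18 k50 3 (.s k16 k19 0 (.d k48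
  k32 k33 3 4)))), (.s k42 k63 6 (.s k22 k62 5 (.s k20 k23 0 (.d k60 k40 k41 5 6))))] .n) (.c k153
  (.q k136 [(.d k68 k102 k204 4 9)] (.c k19 (.q k220 [(.d k68 k102 k204 4 9)] (.c k68 (.l (.s k42
  k63 6 (.s k22 k62 5 (.s k20 k23 0 (.d k60 k40 k41 5 6))))) (.c k102 (.l (.s k204 k68 9 (.s k18 k50
  3 (.s k48 k33 4 (.s k16 k32 3 (.d k152 k84 k100 9 13)))))) (.c k204 (.l (.s k102 k68 4 (.s k42 k63
  6 (.s k22 k62 5 (.s k20 k23 0 (.d k60 k40 k41 5 6)))))) .n)))) (.c k68 (.l (.s k42 k63 6 (.s k22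
  k62 5 (.s k20 k23 0 (.d k60 k40 k41 5 6))))) (.c k102 (.l (.s k204 k68 9 (.s k42 k63 6 (.s k22 k62
  5 (.s k20 k23 0 (.d k60 k40 k41 5 6)))))) (.c k204 (.l (.s k102 k68 4 (.s k42 k63 6 (.s k22 k62 5
  (.s k20 k23 0 (.d k60 k40 k41 5 6)))))) (.c k220 (.q k19 [(.d k68 k102 k204 4 9)] (.c k68 (.l (.s
  k18 k50 3 (.s k16 k17 0 (.d k48 k33 k32 4 3)))) (.c k102 (.l (.s k204 k68 9 (.s k18 k50 3 (.s k16
  k17 0 (.d k48 k33 k32 4 3))))) (.c k204 (.l (.s k102 k68 4 (.s k18 k50 3 (.s k16 k17 0 (.d k48 k33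
  k32 4 3))))) .n)))) .n)))))) .n)))) .n)))) .n)))))))))))

def s170_255_87 : T TT 256 :=
  (.q k5 [(.s k2 k1 0 (.s k10 k15 2 (.s k6 k14 1 (.s k12 k9 2 (.d k4 k7 k8 0 1))))), (.s k1 k2 0 (.s
  k13 k9 1 (.s k165 k245 11 (.s k89 k241 13 (.s k93 k81 1 (.d k253 k173 k169 11 13)))))), (.s k15
  k10 2 (.s k7 k11 1 (.s k165 k245 11 (.s k86 k244 12 (.s k169 k252 14 (.s k161 k173 1 (.d k240 k90
  k82 14 12)))))))] (.c k9 (.l (.s k1 k2 0 (.s k15 k10 2 (.s k11 k7 1 (.s k165 k245 11 (.s k169 k253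
  13 (.d k90 k240 k248 14 12))))))) .n))

def s170_255_88 : T TT 256 :=
  (.q k5 [(.s k2 k1 0 (.s k10 k15 2 (.s k6 k14 1 (.s k4 k7 0 (.d k12 k8 k9 1 2))))), (.s k1 k2 0 (.s
  k13 k9 1 (.s k165 k245 11 (.s k89 k241 13 (.s k93 k81 1 (.d k253 k173 k169 11 13)))))), (.s k15
  k10 2 (.s k7 k11 1 (.s k165 k245 11 (.s k86 k244 12 (.s k84 k87 0 (.d k252 k168 k169 13 14))))))]
  (.c k9 (.l (.s k1 k2 0 (.s k15 k10 2 (.s k11 k7 1 (.s k165 k245 11 (.s k169 k253 13 (.d k90 k240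
  k248 14 12))))))) .n))

def s170_255_89 : T TT 256 :=
  (.q k149 [(.s k1 k2 0 (.s k21 k213 7 (.s k61 k41 5 (.s k105 k193 13 (.s k125 k65 5 (.d k253 k189
  k169 7 13)))))), (.s k21 k213 7 (.s k63 k42 6 (.s k23 k43 5 (.s k86 k212 8 (.s k84 k87 0 (.d k252
  k168 k169 13 14)))))), (.s k1 k2 0 (.s k169 k253 13 (.s k129 k189 5 (.s k192 k66 8 (.s k64 k128 7
  (.d k106 k127 k63 6 14)))))), (.s k2 k1 0 (.s k21 k213 7 (.s k42 k63 6 (.s k22 k62 5 (.s k20 k23 0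
  (.d k60 k40 k41 5 6))))))] (.c k8 (.q k251 [(.s k1 k2 0 (.s k21 k213 7 (.s k61 k41 5 (.s k105 k193
  13 (.s k125 k65 5 (.d k253 k189 k169 7 13)))))), (.s k21 k213 7 (.s k63 k42 6 (.s k23 k43 5 (.s
  k86 k212 8 (.s k84 k87 0 (.d k252 k168 k169 13 14)))))), (.s k1 k2 0 (.s k169 k253 13 (.s k129
  k189 5 (.s k192 k66 8 (.s k64 k128 7 (.d k106 k127 k63 6 14)))))), (.s k2 k1 0 (.s k21 k213 7 (.s
  k42 k63 6 (.s k22 k62 5 (.s k20 k23 0 (.d k60 k40 k41 5 6))))))] (.c k192 (.l (.s k1 k2 0 (.s k169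
  k253 13 (.s k129 k189 5 (.s k193 k65 7 (.s k61 k105 13 (.d k21 k41 k213 5 7))))))) .n)) (.c k192
  (.l (.s k1 k2 0 (.s k169 k253 13 (.s k129 k189 5 (.s k193 k65 7 (.s k61 k105 13 (.d k21 k41 k213 5
  7))))))) (.c k251 (.q k8 [(.s k12 k4 1 (.s k9 k6 2 (.s k10 k11 0 (.s k5 k15 2 (.d k1 k2 k13 0
  1))))), (.s k4 k12 1 (.s k21 k213 7 (.s k55 k38 4 (.s k102 k196 12 (.s k119 k68 4 (.d k247 k166
  k183 12 7)))))), (.s k1 k2 0 (.s k21 k213 7 (.s k41 k61 5 (.s k22 k60 6 (.s k23 k20 0 (.d k63 k43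
  k42 5 6))))))] (.c k243 (.q k247 [(.d k4 k12 k166 1 12)] (.c k4 (.l (.s k1 k2 0 (.s k21 k213 7 (.s
  k41 k61 5 (.s k22 k60 6 (.s k23 k20 0 (.d k63 k43 k42 5 6))))))) (.c k12 (.l (.s k166 k4 12 (.s
  k183 k132 4 (.s k55 k119 7 (.s k196 k102 12 (.d k213 k230 k21 4 7)))))) (.c k166 (.l (.s k12 k4 1
  (.s k1 k2 0 (.s k9 k6 2 (.s k5 k13 1 (.d k10 k11 k15 0 2)))))) .n)))) (.c k247 (.q k243 [(.s k2 k1
  0 (.s k162 k81 12 (.s k82 k242 11 (.s k161 k240 12 (.d k163 k160 k83 0 11))))), (.s k12 k4 1 (.s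
  k21 k213 7 (.s k42 k63 6 (.s k25 k59 4 (.s k17 k29 1 (.d k51 k34 k38 4 6))))))] .n) .n))) .n))))

def s170_255_90 : T TT 256 :=
  (.q k149 [(.s k1 k2 0 (.s k21 k213 7 (.s k61 k41 5 (.s k105 k193 13 (.s k125 k65 5 (.d k253 k189
  k169 7 13)))))), (.s k21 k213 7 (.s k63 k42 6 (.s k23 k43 5 (.s k86 k212 8 (.s k84 k87 0 (.d k252
  k168 k169 13 14)))))), (.s k1 k2 0 (.s k169 k253 13 (.s k129 k189 5 (.s k192 k66 8 (.s k64 k128 7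
  (.d k106 k127 k63 6 14)))))), (.s k2 k1 0 (.s k21 k213 7 (.s k42 k63 6 (.s k22 k62 5 (.s k20 k23 0
  (.d k60 k40 k41 5 6))))))] (.c k10 (.q k250 [(.s k2 k1 0 (.s k21 k213 7 (.s k42 k63 6 (.s k22 k62
  5 (.s k20 k23 0 (.d k60 k40 k41 5 6)))))), (.s k1 k2 0 (.s k169 k253 13 (.s k129 k189 5 (.s k192
  k66 8 (.s k64 k128 7 (.d k106 k127 k63 6 14)))))), (.s k21 k213 7 (.s k63 k42 6 (.s k23 k43 5 (.s
  k86 k212 8 (.s k84 k87 0 (.d k252 k168 k169 13 14)))))), (.s k1 k2 0 (.s k169 k253 13 (.s k129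
  k189 5 (.s k193 k65 7 (.s k61 k105 13 (.d k21 k41 k213 5 7))))))] .n) (.c k192 (.l (.s k1 k2 0 (.s
  k169 k253 13 (.s k129 k189 5 (.s k193 k65 7 (.s k61 k105 13 (.d k21 k41 k213 5 7))))))) (.c k250
  (.q k10 [(.s k2 k1 0 (.s k5 k15 2 (.s k6 k14 1 (.s k4 k7 0 (.d k12 k8 k9 1 2))))), (.s k1 k2 0 (.s
  k21 k213 7 (.s k41 k61 5 (.s k22 k60 6 (.s k23 k20 0 (.d k63 k43 k42 5 6)))))), (.s k5 k15 2 (.s
  k21 k213 7 (.s k53 k37 3 (.s k101 k197 11 (.s k117 k69 3 (.d k245 k165 k181 11 7))))))] (.c k240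
  (.q k245 [(.d k5 k15 k165 2 11)] (.c k5 (.l (.s k1 k2 0 (.s k21 k213 7 (.s k41 k61 5 (.s k22 k60 6
  (.s k23 k20 0 (.d k63 k43 k42 5 6))))))) (.c k15 (.l (.s k165 k5 11 (.s k181 k133 3 (.s k53 k117 7
  (.s k197 k101 11 (.d k213 k229 k21 3 7)))))) (.c k165 (.l (.s k15 k5 2 (.s k2 k1 0 (.s k6 k14 1
  (.s k9 k12 2 (.d k11 k8 k7 0 1)))))) .n)))) (.c k245 (.q k240 [(.s k1 k2 0 (.s k5 k15 2 (.s k9 k13
  1 (.s k12 k6 2 (.d k8 k11 k4 0 1))))), (.s k15 k5 2 (.s k21 k213 7 (.s k42 k63 6 (.s k26 k58 3 (.s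
  k16 k31 2 (.d k48 k32 k37 3 6)))))), (.s k1 k2 0 (.s k160 k80 11 (.s k161 k82 12 (.s k81 k241 11
  (.d k162 k163 k243 0 12)))))] .n) .n))) .n))))

def s170_255_91 : T TT 256 :=
  (.q k5 [(.s k1 k2 0 (.s k9 k13 1 (.s k6 k12 2 (.s k7 k4 0 (.d k15 k11 k10 1 2))))), (.s k15 k10 2
  (.s k7 k11 1 (.s k165 k245 11 (.s k86 k244 12 (.s k84 k87 0 (.d k252 k168 k169 13 14)))))), (.s k1
  k2 0 (.s k13 k9 1 (.s k165 k245 11 (.s k89 k241 13 (.s k93 k81 1 (.d k253 k173 k169 11 13))))))]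
  (.c k9 (.l (.s k1 k2 0 (.s k15 k10 2 (.s k11 k7 1 (.s k165 k245 11 (.s k169 k253 13 (.d k90 k240
  k248 14 12))))))) (.c k86 (.l (.s k2 k1 0 (.s k10 k15 2 (.s k6 k14 1 (.s k4 k7 0 (.d k12 k8 k9 1
  2)))))) .n)))

def s170_255_92 : T TT 256 :=
  (.q k5 [(.s k2 k1 0 (.s k10 k15 2 (.s k6 k14 1 (.s k4 k7 0 (.d k12 k8 k9 1 2))))), (.s k1 k2 0 (.s
  k13 k9 1 (.s k165 k245 11 (.s k89 k241 13 (.s k93 k81 1 (.d k253 k173 k169 11 13)))))), (.s k15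
  k10 2 (.s k7 k11 1 (.s k165 k245 11 (.s k86 k244 12 (.s k84 k87 0 (.d k252 k168 k169 13 14))))))]
  (.c k9 (.l (.s k1 k2 0 (.s k15 k10 2 (.s k11 k7 1 (.s k165 k245 11 (.s k169 k253 13 (.d k90 k240
  k248 14 12))))))) .n))

def s170_255_93 : T TT 256 :=
  (.q k12 [(.s k2 k1 0 (.s k4 k8 1 (.s k6 k9 2 (.s k10 k14 1 (.d k5 k7 k15 0 2))))), (.s k1 k2 0 (.s
  k4 k8 1 (.s k166 k247 12 (.s k169 k253 13 (.s k163 k172 2 (.d k243 k89 k83 14 11)))))), (.s k4 k8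
  1 (.s k6 k9 2 (.s k166 k247 12 (.s k86 k246 11 (.s k84 k87 0 (.d k252 k168 k169 13 14)))))), (.s
  k1 k2 0 (.s k8 k4 1 (.s k9 k6 2 (.s k5 k13 1 (.d k10 k11 k15 0 2))))), (.s k1 k2 0 (.s k9 k6 2 (.s
  k169 k253 13 (.s k89 k249 11 (.s k166 k243 14 (.s k172 k163 2 (.d k252 k86 k92 14 11)))))))] .n)

def s170_255_94 : T TT 256 :=
  (.q k5 [(.s k1 k2 0 (.s k9 k13 1 (.s k6 k12 2 (.s k7 k4 0 (.d k15 k11 k10 1 2))))), (.s k15 k10 2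
  (.s k7 k11 1 (.s k165 k245 11 (.s k86 k244 12 (.s k84 k87 0 (.d k252 k168 k169 13 14)))))), (.s k1
  k2 0 (.s k13 k9 1 (.s k165 k245 11 (.s k89 k241 13 (.s k93 k81 1 (.d k253 k173 k169 11 13))))))]
  (.c k9 (.l (.s k1 k2 0 (.s k15 k10 2 (.s k11 k7 1 (.s k165 k245 11 (.s k169 k253 13 (.d k90 k240
  k248 14 12))))))) (.c k86 (.l (.s k2 k1 0 (.s k10 k15 2 (.s k6 k14 1 (.s k4 k7 0 (.d k12 k8 k9 1
  2)))))) .n)))

def s170_255_95 : T TT 256 :=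
  (.q k15 [(.s k2 k1 0 (.s k10 k5 2 (.s k6 k14 1 (.s k9 k12 2 (.d k11 k8 k7 0 1))))), (.s k1 k2 0
  (.s k11 k7 1 (.s k169 k253 13 (.s k90 k248 12 (.s k165 k240 14 (.s k173 k161 1 (.d k252 k86 k94 14
  12))))))), (.s k5 k10 2 (.s k7 k11 1 (.s k165 k245 11 (.s k86 k244 12 (.s k84 k87 0 (.d k252 k168
  k169 13 14)))))), (.s k1 k2 0 (.s k5 k10 2 (.s k165 k245 11 (.s k169 k253 13 (.s k161 k173 1 (.d
  k240 k90 k82 14 12))))))] .n)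

def s170_255_96 : T TT 256 :=
  (.q k5 [(.s k2 k1 0 (.s k10 k15 2 (.s k6 k14 1 (.s k4 k7 0 (.d k12 k8 k9 1 2))))), (.s k1 k2 0 (.s
  k13 k9 1 (.s k165 k245 11 (.s k89 k241 13 (.s k93 k81 1 (.d k253 k173 k169 11 13)))))), (.s k15
  k10 2 (.s k7 k11 1 (.s k165 k245 11 (.s k86 k244 12 (.s k84 k87 0 (.d k252 k168 k169 13 14))))))]
  (.c k9 (.l (.s k1 k2 0 (.s k15 k10 2 (.s k11 k7 1 (.s k165 k245 11 (.s k169 k253 13 (.d k90 k240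
  k248 14 12))))))) .n))

def s170_255_97 : T TT 256 :=
  (.q k5 [(.s k2 k1 0 (.s k10 k15 2 (.s k6 k14 1 (.s k4 k7 0 (.d k12 k8 k9 1 2))))), (.s k1 k2 0 (.s
  k13 k9 1 (.s k165 k245 11 (.s k89 k241 13 (.s k93 k81 1 (.d k253 k173 k169 11 13)))))), (.s k15
  k10 2 (.s k7 k11 1 (.s k165 k245 11 (.s k86 k244 12 (.s k84 k87 0 (.d k252 k168 k169 13 14))))))]
  (.c k9 (.l (.s k1 k2 0 (.s k15 k10 2 (.s k11 k7 1 (.s k165 k245 11 (.s k169 k253 13 (.d k90 k240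
  k248 14 12))))))) .n))

def s170_255_98 : T TT 256 :=
  (.q k5 [(.s k2 k1 0 (.s k10 k15 2 (.s k6 k14 1 (.s k4 k7 0 (.d k12 k8 k9 1 2))))), (.s k1 k2 0 (.s
  k13 k9 1 (.s k165 k245 11 (.s k89 k241 13 (.s k93 k81 1 (.d k253 k173 k169 11 13)))))), (.s k15
  k10 2 (.s k7 k11 1 (.s k165 k245 11 (.s k86 k244 12 (.s k84 k87 0 (.d k252 k168 k169 13 14))))))]
  (.c k9 (.l (.s k1 k2 0 (.s k15 k10 2 (.s k11 k7 1 (.s k165 k245 11 (.s k169 k253 13 (.d k90 k240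
  k248 14 12))))))) .n))

def s170_255_99 : T TT 256 :=
  (.q k5 [(.s k2 k1 0 (.s k10 k15 2 (.s k6 k14 1 (.s k4 k7 0 (.d k12 k8 k9 1 2))))), (.s k1 k2 0 (.s
  k13 k9 1 (.s k165 k245 11 (.s k89 k241 13 (.s k93 k81 1 (.d k253 k173 k169 11 13)))))), (.s k15
  k10 2 (.s k7 k11 1 (.s k165 k245 11 (.s k86 k244 12 (.s k84 k87 0 (.d k252 k168 k169 13 14))))))]
  (.c k9 (.l (.s k1 k2 0 (.s k15 k10 2 (.s k11 k7 1 (.s k165 k245 11 (.s k169 k253 13 (.d k90 k240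
  k248 14 12))))))) .n))

def s170_255_100 : T TT 256 :=
  (.q k5 [(.s k2 k1 0 (.s k10 k15 2 (.s k6 k14 1 (.s k4 k7 0 (.d k12 k8 k9 1 2))))), (.s k1 k2 0 (.s
  k13 k9 1 (.s k165 k245 11 (.s k89 k241 13 (.s k93 k81 1 (.d k253 k173 k169 11 13)))))), (.s k15
  k10 2 (.s k7 k11 1 (.s k165 k245 11 (.s k86 k244 12 (.s k84 k87 0 (.d k252 k168 k169 13 14))))))]
  (.c k9 (.l (.s k1 k2 0 (.s k15 k10 2 (.s k11 k7 1 (.s k165 k245 11 (.s k169 k253 13 (.d k90 k240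
  k248 14 12))))))) .n))

def s170_255_101 : T TT 256 :=
  (.q k21 [(.s k2 k1 0 (.s k42 k63 6 (.s k22 k62 5 (.s k20 k23 0 (.d k60 k40 k41 5 6))))), (.s k1 k2
  0 (.s k61 k41 5 (.s k149 k213 7 (.s k105 k193 13 (.s k125 k65 5 (.d k253 k189 k169 7 13)))))), (.s
  k63 k42 6 (.s k23 k43 5 (.s k149 k213 7 (.s k86 k212 8 (.s k84 k87 0 (.d k252 k168 k169 13
  14))))))] (.c k32 (.q k239 [(.s k2 k1 0 (.s k42 k63 6 (.s k22 k62 5 (.s k20 k23 0 (.d k60 k40 k41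
  5 6))))), (.s k1 k2 0 (.s k61 k41 5 (.s k149 k213 7 (.s k105 k193 13 (.s k125 k65 5 (.d k253 k189
  k169 7 13)))))), (.s k63 k42 6 (.s k23 k43 5 (.s k149 k213 7 (.s k86 k212 8 (.s k84 k87 0 (.d k252
  k168 k169 13 14))))))] (.c k41 (.l (.s k1 k2 0 (.s k63 k42 6 (.s k43 k23 5 (.s k149 k213 7 (.s
  k169 k253 13 (.d k106 k192 k232 14 8))))))) .n)) (.c k41 (.l (.s k1 k2 0 (.s k63 k42 6 (.s k43 k23
  5 (.s k149 k213 7 (.s k169 k253 13 (.d k106 k192 k232 14 8))))))) (.c k239 (.q k32 [(.s k2 k1 0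
  (.s k42 k63 6 (.s k22 k62 5 (.s k20 k23 0 (.d k60 k40 k41 5 6))))), (.s k1 k2 0 (.s k48 k16 3 (.s
  k33 k18 4 (.s k17 k49 3 (.d k34 k35 k51 0 4))))), (.s k42 k63 6 (.s k37 k47 2 (.s k5 k53 3 (.s k15
  k10 2 (.d k48 k16 k26 3 6)))))] (.c k207 (.q k223 [(.d k16 k48 k154 3 10)] (.c k16 (.l (.s k1 k2 0
  (.s k41 k61 5 (.s k22 k60 6 (.s k23 k20 0 (.d k63 k43 k42 5 6)))))) (.c k48 (.l (.s k154 k16 10
  (.s k1 k2 0 (.s k41 k61 5 (.s k22 k60 6 (.s k23 k20 0 (.d k63 k43 k42 5 6))))))) (.c k154 (.l (.s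
  k48 k16 3 (.s k1 k2 0 (.s k33 k18 4 (.s k17 k49 3 (.d k34 k35 k51 0 4)))))) .n)))) (.c k223 (.q
  k207 [(.s k2 k1 0 (.s k42 k63 6 (.s k22 k62 5 (.s k20 k23 0 (.d k60 k40 k41 5 6))))), (.s k1 k2 0
  (.s k48 k16 3 (.s k33 k18 4 (.s k17 k49 3 (.d k34 k35 k51 0 4))))), (.s k42 k63 6 (.s k37 k47 2
  (.s k5 k53 3 (.s k15 k10 2 (.d k48 k16 k26 3 6)))))] .n) .n))) .n))))

def s170_255_102 : T TT 256 :=
  (.q k149 [(.s k1 k2 0 (.s k21 k213 7 (.s k61 k41 5 (.s k105 k193 13 (.s k125 k65 5 (.d k253 k189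
  k169 7 13)))))), (.s k21 k213 7 (.s k63 k42 6 (.s k23 k43 5 (.s k86 k212 8 (.s k84 k87 0 (.d k252
  k168 k169 13 14)))))), (.s k1 k2 0 (.s k169 k253 13 (.s k129 k189 5 (.s k192 k66 8 (.s k64 k128 7
  (.d k106 k127 k63 6 14)))))), (.s k2 k1 0 (.s k21 k213 7 (.s k42 k63 6 (.s k22 k62 5 (.s k20 k23 0
  (.d k60 k40 k41 5 6))))))] (.c k34 (.q k238 [(.s k2 k1 0 (.s k21 k213 7 (.s k42 k63 6 (.s k22 k62
  5 (.s k20 k23 0 (.d k60 k40 k41 5 6)))))), (.s k1 k2 0 (.s k169 k253 13 (.s k129 k189 5 (.s k192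
  k66 8 (.s k64 k128 7 (.d k106 k127 k63 6 14)))))), (.s k21 k213 7 (.s k63 k42 6 (.s k23 k43 5 (.s
  k86 k212 8 (.s k84 k87 0 (.d k252 k168 k169 13 14)))))), (.s k1 k2 0 (.s k169 k253 13 (.s k129
  k189 5 (.s k193 k65 7 (.s k61 k105 13 (.d k21 k41 k213 5 7))))))] .n) (.c k192 (.l (.s k1 k2 0 (.s
  k169 k253 13 (.s k129 k189 5 (.s k193 k65 7 (.s k61 k105 13 (.d k21 k41 k213 5 7))))))) (.c k238
  (.q k34 [(.s k2 k1 0 (.s k17 k51 4 (.s k18 k50 3 (.s k16 k19 0 (.d k48 k32 k33 3 4))))), (.s k1 k2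
  0 (.s k21 k213 7 (.s k41 k61 5 (.s k22 k60 6 (.s k23 k20 0 (.d k63 k43 k42 5 6)))))), (.s k17 k51
  4 (.s k21 k213 7 (.s k29 k25 1 (.s k89 k209 9 (.s k93 k81 1 (.d k221 k153 k157 9 7))))))] (.c k204
  (.q k221 [(.d k17 k51 k153 4 9)] (.c k17 (.l (.s k1 k2 0 (.s k21 k213 7 (.s k41 k61 5 (.s k22 k60
  6 (.s k23 k20 0 (.d k63 k43 k42 5 6))))))) (.c k51 (.l (.s k153 k17 9 (.s k157 k145 1 (.s k29 k93
  7 (.s k209 k89 9 (.d k213 k217 k21 1 7)))))) (.c k153 (.l (.s k51 k17 4 (.s k2 k1 0 (.s k18 k50 3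
  (.s k33 k48 4 (.d k35 k32 k19 0 3)))))) .n)))) (.c k221 (.q k204 [(.s k1 k2 0 (.s k17 k51 4 (.s
  k33 k49 3 (.s k48 k18 4 (.d k32 k35 k16 0 3))))), (.s k21 k213 7 (.s k42 k63 6 (.s k38 k46 1 (.s
  k4 k55 4 (.s k12 k8 1 (.d k51 k17 k25 4 6)))))), (.s k1 k2 0 (.s k136 k68 9 (.s k137 k70 10 (.s
  k69 k205 9 (.d k138 k139 k207 0 10)))))] .n) .n))) .n))))

def s170_255_103 : T TT 256 :=
  (.q k5 [(.s k2 k1 0 (.s k10 k15 2 (.s k6 k14 1 (.s k4 k7 0 (.d k12 k8 k9 1 2))))), (.s k1 k2 0 (.s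
  k13 k9 1 (.s k165 k245 11 (.s k89 k241 13 (.s k93 k81 1 (.d k253 k173 k169 11 13)))))), (.s k15
  k10 2 (.s k7 k11 1 (.s k165 k245 11 (.s k86 k244 12 (.s k84 k87 0 (.d k252 k168 k169 13 14))))))]
  (.c k9 (.l (.s k1 k2 0 (.s k15 k10 2 (.s k11 k7 1 (.s k165 k245 11 (.s k169 k253 13 (.d k90 k240
  k248 14 12))))))) .n))

def s170_255_104 : T TT 256 :=
  (.q k5 [(.s k2 k1 0 (.s k10 k15 2 (.s k6 k14 1 (.s k4 k7 0 (.d k12 k8 k9 1 2))))), (.s k1 k2 0 (.s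
  k13 k9 1 (.s k165 k245 11 (.s k89 k241 13 (.s k93 k81 1 (.d k253 k173 k169 11 13)))))), (.s k15
  k10 2 (.s k7 k11 1 (.s k165 k245 11 (.s k86 k244 12 (.s k84 k87 0 (.d k252 k168 k169 13 14))))))]
  (.c k9 (.l (.s k1 k2 0 (.s k15 k10 2 (.s k11 k7 1 (.s k165 k245 11 (.s k169 k253 13 (.d k90 k240
  k248 14 12))))))) .n))

def s170_255_105 : T TT 256 :=
  (.q k89 [(.s k2 k1 0 (.s k81 k93 1 (.s k162 k243 12 (.s k82 k242 11 (.s k80 k83 0 (.d k240 k160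
  k161 11 12)))))), (.s k1 k2 0 (.s k93 k81 1 (.s k253 k169 13 (.s k13 k173 11 (.s k5 k9 1 (.d k165
  k245 k241 11 13)))))), (.s k81 k93 1 (.s k243 k162 12 (.s k83 k163 11 (.s k86 k92 2 (.s k84 k87 0
  (.d k252 k168 k169 13 14)))))), (.s k1 k2 0 (.s k169 k253 13 (.s k9 k249 11 (.s k12 k6 2 (.s k4 k8
  1 (.d k166 k247 k243 12 14))))))] (.c k40 (.q k235 [(.s k2 k1 0 (.s k81 k93 1 (.s k162 k243 12 (.s
  k82 k242 11 (.s k80 k83 0 (.d k240 k160 k161 11 12)))))), (.s k1 k2 0 (.s k93 k81 1 (.s k253 k169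
  13 (.s k13 k173 11 (.s k5 k9 1 (.d k165 k245 k241 11 13)))))), (.s k81 k93 1 (.s k243 k162 12 (.s
  k83 k163 11 (.s k86 k92 2 (.s k84 k87 0 (.d k252 k168 k169 13 14)))))), (.s k1 k2 0 (.s k169 k253
  13 (.s k9 k249 11 (.s k12 k6 2 (.s k4 k8 1 (.d k166 k247 k243 12 14))))))] .n) (.c k235 (.q k40
  [(.s k60 k20 5 (.s k41 k22 6 (.s k42 k43 0 (.s k21 k63 6 (.d k1 k2 k61 0 5))))), (.s k81 k93 1 (.s
  k243 k162 12 (.s k83 k163 11 (.s k86 k92 2 (.s k84 k87 0 (.d k252 k168 k169 13 14))))))] (.c k195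
  (.q k215 [(.d k20 k60 k150 5 8)] (.c k20 (.l (.s k1 k2 0 (.s k81 k93 1 (.s k161 k241 11 (.s k82
  k240 12 (.s k83 k80 0 (.d k243 k163 k162 11 12))))))) (.c k60 (.l (.s k150 k20 8 (.s k81 k93 1 (.s
  k211 k28 10 (.s k16 k146 8 (.d k223 k219 k154 1 10)))))) (.c k150 (.l (.s k60 k20 5 (.s k1 k2 0
  (.s k41 k22 6 (.s k21 k61 5 (.d k42 k43 k63 0 6)))))) .n)))) (.c k215 (.q k195 [(.s k2 k1 0 (.s
  k130 k65 8 (.s k66 k194 7 (.s k129 k192 8 (.d k131 k128 k67 0 7))))), (.s k20 k60 5 (.s k81 k93 1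
  (.s k243 k162 12 (.s k211 k227 3 (.s k16 k146 8 (.d k28 k24 k150 1 10))))))] (.c k130 (.l (.s k1
  k2 0 (.s k60 k20 5 (.s k41 k22 6 (.s k21 k61 5 (.d k42 k43 k63 0 6)))))) .n)) .n))) .n)))

def s170_255_106 : T TT 256 :=
  (.q k153 [(.s k1 k2 0 (.s k17 k221 9 (.s k49 k33 3 (.s k101 k205 13 (.s k117 k69 3 (.d k253 k185
  k169 9 13)))))), (.s k17 k221 9 (.s k51 k34 4 (.s k19 k35 3 (.s k86 k220 10 (.s k84 k87 0 (.d k252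
  k168 k169 13 14)))))), (.s k1 k2 0 (.s k169 k253 13 (.s k137 k185 3 (.s k204 k70 10 (.s k68 k136 9
  (.d k102 k119 k51 4 14)))))), (.s k2 k1 0 (.s k17 k221 9 (.s k34 k51 4 (.s k18 k50 3 (.s k16 k19 0
  (.d k48 k32 k33 3 4))))))] (.c k42 (.q k234 [(.s k2 k1 0 (.s k17 k221 9 (.s k34 k51 4 (.s k18 k50
  3 (.s k16 k19 0 (.d k48 k32 k33 3 4)))))), (.s k1 k2 0 (.s k169 k253 13 (.s k137 k185 3 (.s k204
  k70 10 (.s k68 k136 9 (.d k102 k119 k51 4 14)))))), (.s k17 k221 9 (.s k51 k34 4 (.s k19 k35 3 (.s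
  k86 k220 10 (.s k84 k87 0 (.d k252 k168 k169 13 14)))))), (.s k1 k2 0 (.s k169 k253 13 (.s k137
  k185 3 (.s k205 k69 9 (.s k49 k101 13 (.d k17 k33 k221 3 9))))))] .n) (.c k204 (.l (.s k1 k2 0 (.s
  k169 k253 13 (.s k137 k185 3 (.s k205 k69 9 (.s k49 k101 13 (.d k17 k33 k221 3 9))))))) (.c k234
  (.q k42 [(.s k2 k1 0 (.s k21 k63 6 (.s k22 k62 5 (.s k20 k23 0 (.d k60 k40 k41 5 6))))), (.s k1 k2
  0 (.s k17 k221 9 (.s k33 k49 3 (.s k18 k48 4 (.s k19 k16 0 (.d k51 k35 k34 3 4)))))), (.s k17 k221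
  9 (.s k21 k63 6 (.s k25 k29 1 (.s k8 k59 4 (.s k12 k4 1 (.d k51 k34 k38 4 6))))))] (.c k192 (.q
  k213 [(.d k21 k63 k149 6 7)] (.c k21 (.l (.s k1 k2 0 (.s k17 k221 9 (.s k33 k49 3 (.s k18 k48 4
  (.s k19 k16 0 (.d k51 k35 k34 3 4))))))) (.c k63 (.l (.s k149 k21 7 (.s k157 k145 1 (.s k221 k17 9
  (.s k29 k93 7 (.d k209 k217 k89 1 9)))))) (.c k149 (.l (.s k63 k21 6 (.s k2 k1 0 (.s k22 k62 5 (.s
  k41 k60 6 (.d k43 k40 k23 0 5)))))) .n)))) (.c k213 (.q k192 [(.s k1 k2 0 (.s k21 k63 6 (.s k41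
  k61 5 (.s k60 k22 6 (.d k40 k43 k20 0 5))))), (.s k17 k221 9 (.s k21 k63 6 (.s k25 k29 1 (.s k8
  k59 4 (.s k12 k4 1 (.d k51 k34 k38 4 6)))))), (.s k1 k2 0 (.s k128 k64 7 (.s k129 k66 8 (.s k65
  k193 7 (.d k130 k131 k195 0 8)))))] .n) .n))) .n))))

def s170_255_107 : T TT 256 :=
  (.q k5 [(.s k2 k1 0 (.s k10 k15 2 (.s k6 k14 1 (.s k4 k7 0 (.d k12 k8 k9 1 2))))), (.s k1 k2 0 (.s
  k13 k9 1 (.s k165 k245 11 (.s k89 k241 13 (.s k93 k81 1 (.d k253 k173 k169 11 13)))))), (.s k15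
  k10 2 (.s k7 k11 1 (.s k165 k245 11 (.s k86 k244 12 (.s k84 k87 0 (.d k252 k168 k169 13 14))))))]
  (.c k9 (.l (.s k1 k2 0 (.s k15 k10 2 (.s k11 k7 1 (.s k165 k245 11 (.s k169 k253 13 (.d k90 k240
  k248 14 12))))))) .n))

def s170_255_108 : T TT 256 :=
  (.q k5 [(.s k2 k1 0 (.s k10 k15 2 (.s k6 k14 1 (.s k4 k7 0 (.d k12 k8 k9 1 2))))), (.s k1 k2 0 (.s
  k13 k9 1 (.s k165 k245 11 (.s k89 k241 13 (.s k93 k81 1 (.d k253 k173 k169 11 13)))))), (.s k15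
  k10 2 (.s k7 k11 1 (.s k165 k245 11 (.s k86 k244 12 (.s k84 k87 0 (.d k252 k168 k169 13 14))))))]
  (.c k9 (.l (.s k1 k2 0 (.s k15 k10 2 (.s k11 k7 1 (.s k165 k245 11 (.s k169 k253 13 (.d k90 k240
  k248 14 12))))))) .n))

def s170_255_109 : T TT 256 :=
  (.q k5 [(.s k2 k1 0 (.s k10 k15 2 (.s k6 k14 1 (.s k4 k7 0 (.d k12 k8 k9 1 2))))), (.s k1 k2 0 (.s
  k13 k9 1 (.s k165 k245 11 (.s k89 k241 13 (.s k93 k81 1 (.d k253 k173 k169 11 13)))))), (.s k15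
  k10 2 (.s k7 k11 1 (.s k165 k245 11 (.s k86 k244 12 (.s k84 k87 0 (.d k252 k168 k169 13 14))))))]
  (.c k9 (.l (.s k1 k2 0 (.s k15 k10 2 (.s k11 k7 1 (.s k165 k245 11 (.s k169 k253 13 (.d k90 k240
  k248 14 12))))))) .n))

def s170_255_110 : T TT 256 :=
  (.q k5 [(.s k2 k1 0 (.s k10 k15 2 (.s k6 k14 1 (.s k4 k7 0 (.d k12 k8 k9 1 2))))), (.s k1 k2 0 (.s
  k13 k9 1 (.s k165 k245 11 (.s k89 k241 13 (.s k93 k81 1 (.d k253 k173 k169 11 13)))))), (.s k15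
  k10 2 (.s k7 k11 1 (.s k165 k245 11 (.s k86 k244 12 (.s k84 k87 0 (.d k252 k168 k169 13 14))))))]
  (.c k9 (.l (.s k1 k2 0 (.s k15 k10 2 (.s k11 k7 1 (.s k165 k245 11 (.s k169 k253 13 (.d k90 k240
  k248 14 12))))))) .n))

def s170_255_111 : T TT 256 :=
  (.q k5 [(.s k2 k1 0 (.s k10 k15 2 (.s k6 k14 1 (.s k4 k7 0 (.d k12 k8 k9 1 2))))), (.s k1 k2 0 (.s
  k13 k9 1 (.s k165 k245 11 (.s k89 k241 13 (.s k93 k81 1 (.d k253 k173 k169 11 13)))))), (.s k15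
  k10 2 (.s k7 k11 1 (.s k165 k245 11 (.s k86 k244 12 (.s k84 k87 0 (.d k252 k168 k169 13 14))))))]
  (.c k9 (.l (.s k1 k2 0 (.s k15 k10 2 (.s k11 k7 1 (.s k165 k245 11 (.s k169 k253 13 (.d k90 k240
  k248 14 12))))))) .n))

def s170_255_112 : T TT 256 :=
  (.q k5 [(.s k2 k1 0 (.s k10 k15 2 (.s k6 k14 1 (.s k4 k7 0 (.d k12 k8 k9 1 2))))), (.s k1 k2 0 (.s
  k13 k9 1 (.s k165 k245 11 (.s k89 k241 13 (.s k93 k81 1 (.d k253 k173 k169 11 13)))))), (.s k15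
  k10 2 (.s k7 k11 1 (.s k165 k245 11 (.s k86 k244 12 (.s k84 k87 0 (.d k252 k168 k169 13 14))))))]
  (.c k9 (.l (.s k1 k2 0 (.s k15 k10 2 (.s k11 k7 1 (.s k165 k245 11 (.s k169 k253 13 (.d k90 k240
  k248 14 12))))))) .n))

def s170_255_113 : T TT 256 :=
  (.q k5 [(.s k2 k1 0 (.s k10 k15 2 (.s k6 k14 1 (.s k4 k7 0 (.d k12 k8 k9 1 2))))), (.s k1 k2 0 (.s
  k13 k9 1 (.s k165 k245 11 (.s k89 k241 13 (.s k93 k81 1 (.d k253 k173 k169 11 13)))))), (.s k15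
  k10 2 (.s k7 k11 1 (.s k165 k245 11 (.s k86 k244 12 (.s k84 k87 0 (.d k252 k168 k169 13 14))))))]
  (.c k9 (.l (.s k1 k2 0 (.s k15 k10 2 (.s k11 k7 1 (.s k165 k245 11 (.s k169 k253 13 (.d k90 k240
  k248 14 12))))))) .n))

def s170_255_114 : T TT 256 :=
  (.q k5 [(.s k2 k1 0 (.s k10 k15 2 (.s k6 k14 1 (.s k4 k7 0 (.d k12 k8 k9 1 2))))), (.s k1 k2 0 (.s
  k13 k9 1 (.s k165 k245 11 (.s k89 k241 13 (.s k93 k81 1 (.d k253 k173 k169 11 13)))))), (.s k15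
  k10 2 (.s k7 k11 1 (.s k165 k245 11 (.s k86 k244 12 (.s k84 k87 0 (.d k252 k168 k169 13 14))))))]
  (.c k9 (.l (.s k1 k2 0 (.s k15 k10 2 (.s k11 k7 1 (.s k165 k245 11 (.s k169 k253 13 (.d k90 k240
  k248 14 12))))))) .n))

def s170_255_115 : T TT 256 :=
  (.q k5 [(.s k2 k1 0 (.s k10 k15 2 (.s k6 k14 1 (.s k4 k7 0 (.d k12 k8 k9 1 2))))), (.s k1 k2 0 (.s
  k13 k9 1 (.s k165 k245 11 (.s k89 k241 13 (.s k93 k81 1 (.d k253 k173 k169 11 13)))))), (.s k15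
  k10 2 (.s k7 k11 1 (.s k165 k245 11 (.s k86 k244 12 (.s k84 k87 0 (.d k252 k168 k169 13 14))))))]
  (.c k9 (.l (.s k1 k2 0 (.s k15 k10 2 (.s k11 k7 1 (.s k165 k245 11 (.s k169 k253 13 (.d k90 k240
  k248 14 12))))))) .n))

def s170_255_116 : T TT 256 :=
  (.q k5 [(.s k2 k1 0 (.s k10 k15 2 (.s k6 k14 1 (.s k4 k7 0 (.d k12 k8 k9 1 2))))), (.s k1 k2 0 (.s
  k13 k9 1 (.s k165 k245 11 (.s k89 k241 13 (.s k93 k81 1 (.d k253 k173 k169 11 13)))))), (.s k15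
  k10 2 (.s k7 k11 1 (.s k165 k245 11 (.s k86 k244 12 (.s k84 k87 0 (.d k252 k168 k169 13 14))))))]
  (.c k9 (.l (.s k1 k2 0 (.s k15 k10 2 (.s k11 k7 1 (.s k165 k245 11 (.s k169 k253 13 (.d k90 k240
  k248 14 12))))))) .n))

def s170_255_117 : T TT 256 :=
  (.q k48 [(.s k2 k1 0 (.s k16 k32 3 (.s k18 k33 4 (.s k34 k50 3 (.d k17 k19 k51 0 4))))), (.s k1 k2
  0 (.s k16 k32 3 (.s k154 k223 10 (.s k169 k253 13 (.s k139 k184 4 (.d k207 k101 k71 14 9)))))),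
  (.s k16 k32 3 (.s k18 k33 4 (.s k154 k223 10 (.s k86 k222 9 (.s k84 k87 0 (.d k252 k168 k169 13
  14)))))), (.s k1 k2 0 (.s k32 k16 3 (.s k33 k18 4 (.s k17 k49 3 (.d k34 k35 k51 0 4))))), (.s k1
  k2 0 (.s k33 k18 4 (.s k169 k253 13 (.s k101 k237 9 (.s k154 k207 14 (.s k184 k139 4 (.d k252 k86
  k116 14 9)))))))] .n)

def s170_255_118 : T TT 256 :=
  (.q k5 [(.s k2 k1 0 (.s k10 k15 2 (.s k6 k14 1 (.s k4 k7 0 (.d k12 k8 k9 1 2))))), (.s k1 k2 0 (.s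
  k13 k9 1 (.s k165 k245 11 (.s k89 k241 13 (.s k93 k81 1 (.d k253 k173 k169 11 13)))))), (.s k15
  k10 2 (.s k7 k11 1 (.s k165 k245 11 (.s k86 k244 12 (.s k84 k87 0 (.d k252 k168 k169 13 14))))))]
  (.c k9 (.l (.s k1 k2 0 (.s k15 k10 2 (.s k11 k7 1 (.s k165 k245 11 (.s k169 k253 13 (.d k90 k240
  k248 14 12))))))) .n))

def s170_255_119 : T TT 256 :=
  (.q k51 [(.s k2 k1 0 (.s k34 k17 4 (.s k18 k50 3 (.s k33 k48 4 (.d k35 k32 k19 0 3))))), (.s k1 k2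
  0 (.s k35 k19 3 (.s k169 k253 13 (.s k102 k236 10 (.s k153 k204 14 (.s k185 k137 3 (.d k252 k86
  k118 14 10))))))), (.s k17 k34 4 (.s k19 k35 3 (.s k153 k221 9 (.s k86 k220 10 (.s k84 k87 0 (.d
  k252 k168 k169 13 14)))))), (.s k1 k2 0 (.s k17 k34 4 (.s k153 k221 9 (.s k169 k253 13 (.s k137
  k185 3 (.d k204 k102 k70 14 10))))))] .n)

def s170_255_120 : T TT 256 :=
  (.q k5 [(.s k2 k1 0 (.s k10 k15 2 (.s k6 k14 1 (.s k4 k7 0 (.d k12 k8 k9 1 2))))), (.s k1 k2 0 (.s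
  k13 k9 1 (.s k165 k245 11 (.s k89 k241 13 (.s k93 k81 1 (.d k253 k173 k169 11 13)))))), (.s k15
  k10 2 (.s k7 k11 1 (.s k165 k245 11 (.s k86 k244 12 (.s k84 k87 0 (.d k252 k168 k169 13 14))))))]
  (.c k9 (.l (.s k1 k2 0 (.s k15 k10 2 (.s k11 k7 1 (.s k165 k245 11 (.s k169 k253 13 (.d k90 k240
  k248 14 12))))))) .n))

def s170_255_121 : T TT 256 :=
  (.q k5 [(.s k2 k1 0 (.s k10 k15 2 (.s k6 k14 1 (.s k4 k7 0 (.d k12 k8 k9 1 2))))), (.s k1 k2 0 (.s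
  k13 k9 1 (.s k165 k245 11 (.s k89 k241 13 (.s k93 k81 1 (.d k253 k173 k169 11 13)))))), (.s k15
  k10 2 (.s k7 k11 1 (.s k165 k245 11 (.s k86 k244 12 (.s k84 k87 0 (.d k252 k168 k169 13 14))))))]
  (.c k9 (.l (.s k1 k2 0 (.s k15 k10 2 (.s k11 k7 1 (.s k165 k245 11 (.s k169 k253 13 (.d k90 k240
  k248 14 12))))))) .n))

def s170_255_122 : T TT 256 :=
  (.q k5 [(.s k2 k1 0 (.s k10 k15 2 (.s k6 k14 1 (.s k4 k7 0 (.d k12 k8 k9 1 2))))), (.s k1 k2 0 (.s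
  k13 k9 1 (.s k165 k245 11 (.s k89 k241 13 (.s k93 k81 1 (.d k253 k173 k169 11 13)))))), (.s k15
  k10 2 (.s k7 k11 1 (.s k165 k245 11 (.s k86 k244 12 (.s k84 k87 0 (.d k252 k168 k169 13 14))))))]
  (.c k9 (.l (.s k1 k2 0 (.s k15 k10 2 (.s k11 k7 1 (.s k165 k245 11 (.s k169 k253 13 (.d k90 k240
  k248 14 12))))))) .n))

def s170_255_123 : T TT 256 :=
  (.q k5 [(.s k2 k1 0 (.s k10 k15 2 (.s k6 k14 1 (.s k4 k7 0 (.d k12 k8 k9 1 2))))), (.s k1 k2 0 (.s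
  k13 k9 1 (.s k165 k245 11 (.s k89 k241 13 (.s k93 k81 1 (.d k253 k173 k169 11 13)))))), (.s k15
  k10 2 (.s k7 k11 1 (.s k165 k245 11 (.s k86 k244 12 (.s k84 k87 0 (.d k252 k168 k169 13 14))))))]
  (.c k9 (.l (.s k1 k2 0 (.s k15 k10 2 (.s k11 k7 1 (.s k165 k245 11 (.s k169 k253 13 (.d k90 k240
  k248 14 12))))))) .n))

def s170_255_124 : T TT 256 :=
  (.q k5 [(.s k2 k1 0 (.s k10 k15 2 (.s k6 k14 1 (.s k4 k7 0 (.d k12 k8 k9 1 2))))), (.s k1 k2 0 (.s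
  k13 k9 1 (.s k165 k245 11 (.s k89 k241 13 (.s k93 k81 1 (.d k253 k173 k169 11 13)))))), (.s k15
  k10 2 (.s k7 k11 1 (.s k165 k245 11 (.s k86 k244 12 (.s k84 k87 0 (.d k252 k168 k169 13 14))))))]
  (.c k9 (.l (.s k1 k2 0 (.s k15 k10 2 (.s k11 k7 1 (.s k165 k245 11 (.s k169 k253 13 (.d k90 k240
  k248 14 12))))))) .n))

def s170_255_125 : T TT 256 :=
  (.q k60 [(.s k2 k1 0 (.s k20 k40 5 (.s k22 k41 6 (.s k42 k62 5 (.d k21 k23 k63 0 6))))), (.s k1 k2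
  0 (.s k20 k40 5 (.s k150 k215 8 (.s k169 k253 13 (.s k131 k188 6 (.d k195 k105 k67 14 7)))))), (.s
  k20 k40 5 (.s k22 k41 6 (.s k150 k215 8 (.s k86 k214 7 (.s k84 k87 0 (.d k252 k168 k169 13
  14)))))), (.s k1 k2 0 (.s k40 k20 5 (.s k41 k22 6 (.s k21 k61 5 (.d k42 k43 k63 0 6))))), (.s k1
  k2 0 (.s k41 k22 6 (.s k169 k253 13 (.s k105 k233 7 (.s k150 k195 14 (.s k188 k131 6 (.d k252 k86
  k124 14 7)))))))] .n)

def s170_255_126 : T TT 256 :=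
  (.q k5 [(.s k2 k1 0 (.s k10 k15 2 (.s k6 k14 1 (.s k4 k7 0 (.d k12 k8 k9 1 2))))), (.s k1 k2 0 (.s
  k13 k9 1 (.s k165 k245 11 (.s k89 k241 13 (.s k93 k81 1 (.d k253 k173 k169 11 13)))))), (.s k15
  k10 2 (.s k7 k11 1 (.s k165 k245 11 (.s k86 k244 12 (.s k84 k87 0 (.d k252 k168 k169 13 14))))))]
  (.c k9 (.l (.s k1 k2 0 (.s k15 k10 2 (.s k11 k7 1 (.s k165 k245 11 (.s k169 k253 13 (.d k90 k240
  k248 14 12))))))) .n))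

def s170_255_127 : T TT 256 :=
  (.q k63 [(.s k2 k1 0 (.s k42 k21 6 (.s k22 k62 5 (.s k41 k60 6 (.d k43 k40 k23 0 5))))), (.s k1 k2
  0 (.s k43 k23 5 (.s k169 k253 13 (.s k106 k232 8 (.s k149 k192 14 (.s k189 k129 5 (.d k252 k86
  k126 14 8))))))), (.s k21 k42 6 (.s k23 k43 5 (.s k149 k213 7 (.s k86 k212 8 (.s k84 k87 0 (.d
  k252 k168 k169 13 14)))))), (.s k1 k2 0 (.s k21 k42 6 (.s k149 k213 7 (.s k169 k253 13 (.s k129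
  k189 5 (.d k192 k106 k66 14 8))))))] .n)

def s170_255_128 : T TT 256 :=
  (.q k149 [(.s k1 k2 0 (.s k21 k213 7 (.s k61 k41 5 (.s k105 k193 13 (.s k125 k65 5 (.d k253 k189
  k169 7 13)))))), (.s k21 k213 7 (.s k63 k42 6 (.s k23 k43 5 (.s k86 k212 8 (.s k84 k87 0 (.d k252
  k168 k169 13 14)))))), (.s k1 k2 0 (.s k169 k253 13 (.s k129 k189 5 (.s k192 k66 8 (.s k63 k106 14
  (.s k23 k43 5 (.d k86 k252 k212 14 8))))))), (.s k2 k1 0 (.s k21 k213 7 (.s k42 k63 6 (.s k22 k62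
  5 (.s k20 k23 0 (.d k60 k40 k41 5 6)))))), (.s k1 k2 0 (.s k169 k253 13 (.s k129 k189 5 (.s k193
  k65 7 (.s k61 k105 13 (.d k21 k41 k213 5 7))))))] .n)

def s170_255_129 : T TT 256 :=
  (.q k5 [(.s k1 k2 0 (.s k9 k13 1 (.s k6 k12 2 (.s k7 k4 0 (.d k15 k11 k10 1 2))))), (.s k15 k10 2
  (.s k7 k11 1 (.s k165 k245 11 (.s k86 k244 12 (.s k84 k87 0 (.d k252 k168 k169 13 14)))))), (.s k1
  k2 0 (.s k13 k9 1 (.s k165 k245 11 (.s k89 k241 13 (.s k93 k81 1 (.d k253 k173 k169 11 13))))))]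
  (.c k9 (.l (.s k1 k2 0 (.s k15 k10 2 (.s k11 k7 1 (.s k165 k245 11 (.s k169 k253 13 (.d k90 k240
  k248 14 12))))))) (.c k86 (.l (.s k2 k1 0 (.s k10 k15 2 (.s k6 k14 1 (.s k4 k7 0 (.d k12 k8 k9 1
  2)))))) .n)))

def s170_255_130 : T TT 256 :=
  (.q k48 [(.s k2 k1 0 (.s k16 k32 3 (.s k18 k33 4 (.s k34 k50 3 (.d k17 k19 k51 0 4))))), (.s k1 k2
  0 (.s k16 k32 3 (.s k154 k223 10 (.s k169 k253 13 (.s k139 k184 4 (.d k207 k101 k71 14 9)))))),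
  (.s k1 k2 0 (.s k33 k18 4 (.s k169 k253 13 (.s k101 k237 9 (.s k69 k117 3 (.d k207 k138 k154 10
  14)))))), (.s k16 k32 3 (.s k18 k33 4 (.s k154 k223 10 (.s k86 k222 9 (.s k84 k87 0 (.d k252 k168
  k169 13 14))))))] (.c k101 (.l (.s k1 k2 0 (.s k32 k16 3 (.s k33 k18 4 (.s k17 k49 3 (.d k34 k35
  k51 0 4)))))) (.c k150 (.q k190 [(.s k2 k1 0 (.s k16 k32 3 (.s k18 k33 4 (.s k34 k50 3 (.d k17 k19
  k51 0 4))))), (.s k1 k2 0 (.s k16 k32 3 (.s k154 k223 10 (.s k169 k253 13 (.s k139 k184 4 (.d k207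
  k101 k71 14 9)))))), (.s k1 k2 0 (.s k33 k18 4 (.s k169 k253 13 (.s k101 k237 9 (.s k69 k117 3 (.d
  k207 k138 k154 10 14)))))), (.s k16 k32 3 (.s k18 k33 4 (.s k154 k223 10 (.s k86 k222 9 (.s k84
  k87 0 (.d k252 k168 k169 13 14))))))] (.c k101 (.l (.s k1 k2 0 (.s k32 k16 3 (.s k33 k18 4 (.s k17
  k49 3 (.d k34 k35 k51 0 4)))))) .n)) (.c k190 (.q k150 [(.s k2 k1 0 (.s k16 k32 3 (.s k18 k33 4
  (.s k34 k50 3 (.d k17 k19 k51 0 4))))), (.s k1 k2 0 (.s k20 k215 8 (.s k60 k40 5 (.s k22 k41 6 (.s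
  k86 k214 7 (.d k169 k253 k252 13 14)))))), (.s k16 k32 3 (.s k18 k33 4 (.s k154 k223 10 (.s k86
  k222 9 (.s k84 k87 0 (.d k252 k168 k169 13 14))))))] (.c k60 (.q k125 [(.s k2 k1 0 (.s k16 k32 3
  (.s k18 k33 4 (.s k34 k50 3 (.d k17 k19 k51 0 4))))), (.s k1 k2 0 (.s k16 k32 3 (.s k154 k223 10
  (.s k169 k253 13 (.s k139 k184 4 (.d k207 k101 k71 14 9)))))), (.s k1 k2 0 (.s k33 k18 4 (.s k169
  k253 13 (.s k101 k237 9 (.s k69 k117 3 (.d k207 k138 k154 10 14)))))), (.s k16 k32 3 (.s k18 k33 4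
  (.s k154 k223 10 (.s k86 k222 9 (.s k84 k87 0 (.d k252 k168 k169 13 14))))))] (.c k101 (.l (.s k1
  k2 0 (.s k32 k16 3 (.s k33 k18 4 (.s k17 k49 3 (.d k34 k35 k51 0 4)))))) .n)) (.c k125 (.q k60
  [(.d k20 k40 k215 5 8), (.s k1 k2 0 (.s k22 k41 6 (.s k86 k214 7 (.d k169 k253 k252 13 14))))] .n)
  .n))) .n))))

def s170_255_131 : T TT 256 :=
  (.q k5 [(.s k2 k1 0 (.s k10 k15 2 (.s k6 k14 1 (.s k4 k7 0 (.d k12 k8 k9 1 2))))), (.s k1 k2 0 (.s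
  k13 k9 1 (.s k165 k245 11 (.s k89 k241 13 (.s k93 k81 1 (.d k253 k173 k169 11 13)))))), (.s k15
  k10 2 (.s k7 k11 1 (.s k165 k245 11 (.s k86 k244 12 (.s k84 k87 0 (.d k252 k168 k169 13 14))))))]
  (.c k9 (.l (.s k1 k2 0 (.s k15 k10 2 (.s k11 k7 1 (.s k165 k245 11 (.s k169 k253 13 (.d k90 k240
  k248 14 12))))))) .n))

def s170_255_132 : T TT 256 :=
  (.q k5 [(.s k2 k1 0 (.s k10 k15 2 (.s k6 k14 1 (.s k4 k7 0 (.d k12 k8 k9 1 2))))), (.s k1 k2 0 (.s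
  k13 k9 1 (.s k165 k245 11 (.s k89 k241 13 (.s k93 k81 1 (.d k253 k173 k169 11 13)))))), (.s k15
  k10 2 (.s k7 k11 1 (.s k165 k245 11 (.s k86 k244 12 (.s k84 k87 0 (.d k252 k168 k169 13 14))))))]
  (.c k9 (.l (.s k1 k2 0 (.s k15 k10 2 (.s k11 k7 1 (.s k165 k245 11 (.s k169 k253 13 (.d k90 k240
  k248 14 12))))))) .n))

def s170_255_133 : T TT 256 :=
  (.q k5 [(.s k2 k1 0 (.s k10 k15 2 (.s k6 k14 1 (.s k12 k9 2 (.d k4 k7 k8 0 1))))), (.s k1 k2 0 (.s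
  k13 k9 1 (.s k165 k245 11 (.s k89 k241 13 (.s k93 k81 1 (.d k253 k173 k169 11 13)))))), (.s k15
  k10 2 (.s k7 k11 1 (.s k165 k245 11 (.s k86 k244 12 (.s k84 k87 0 (.d k252 k168 k169 13 14))))))]
  (.c k9 (.l (.s k1 k2 0 (.s k15 k10 2 (.s k11 k7 1 (.s k165 k245 11 (.s k169 k253 13 (.d k90 k240
  k248 14 12))))))) .n))

def s170_255_134 : T TT 256 :=
  (.q k5 [(.s k1 k2 0 (.s k9 k13 1 (.s k10 k15 2 (.s k8 k11 0 (.d k12 k4 k6 1 2))))), (.s k15 k10 2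
  (.s k7 k11 1 (.s k165 k245 11 (.s k86 k244 12 (.s k84 k87 0 (.d k252 k168 k169 13 14)))))), (.s k1
  k2 0 (.s k13 k9 1 (.s k165 k245 11 (.s k89 k241 13 (.s k93 k81 1 (.d k253 k173 k169 11 13))))))]
  (.c k9 (.l (.s k1 k2 0 (.s k15 k10 2 (.s k11 k7 1 (.s k165 k245 11 (.s k169 k253 13 (.d k90 k240
  k248 14 12))))))) (.c k86 (.l (.s k2 k1 0 (.s k10 k15 2 (.s k6 k14 1 (.s k4 k7 0 (.d k12 k8 k9 1
  2)))))) .n)))

def s170_255_135 : T TT 256 :=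
  (.q k5 [(.s k1 k2 0 (.s k9 k13 1 (.s k6 k12 2 (.s k7 k4 0 (.d k15 k11 k10 1 2))))), (.s k15 k10 2
  (.s k7 k11 1 (.s k165 k245 11 (.s k86 k244 12 (.s k84 k87 0 (.d k252 k168 k169 13 14)))))), (.s k1
  k2 0 (.s k13 k9 1 (.s k165 k245 11 (.s k89 k241 13 (.s k93 k81 1 (.d k253 k173 k169 11 13))))))]
  (.c k9 (.l (.s k1 k2 0 (.s k15 k10 2 (.s k11 k7 1 (.s k165 k245 11 (.s k169 k253 13 (.d k90 k240
  k248 14 12))))))) (.c k86 (.l (.s k2 k1 0 (.s k10 k15 2 (.s k6 k14 1 (.s k4 k7 0 (.d k12 k8 k9 1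
  2)))))) .n)))

def s170_255_136 : T TT 256 :=
  (.q k153 [(.s k1 k2 0 (.s k17 k221 9 (.s k49 k33 3 (.s k101 k205 13 (.s k117 k69 3 (.d k253 k185
  k169 9 13)))))), (.s k17 k221 9 (.s k51 k34 4 (.s k19 k35 3 (.s k86 k220 10 (.s k84 k87 0 (.d k252
  k168 k169 13 14)))))), (.s k1 k2 0 (.s k169 k253 13 (.s k137 k185 3 (.s k204 k70 10 (.s k51 k102
  14 (.s k19 k35 3 (.d k86 k252 k220 14 10))))))), (.s k2 k1 0 (.s k17 k221 9 (.s k34 k51 4 (.s k18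
  k50 3 (.s k16 k19 0 (.d k48 k32 k33 3 4)))))), (.s k1 k2 0 (.s k169 k253 13 (.s k137 k185 3 (.s
  k205 k69 9 (.s k49 k101 13 (.d k17 k33 k221 3 9))))))] .n)

def s170_255_137 : T TT 256 :=
  (.q k5 [(.s k1 k2 0 (.s k9 k13 1 (.s k6 k12 2 (.s k7 k4 0 (.d k15 k11 k10 1 2))))), (.s k15 k10 2
  (.s k7 k11 1 (.s k165 k245 11 (.s k86 k244 12 (.s k84 k87 0 (.d k252 k168 k169 13 14)))))), (.s k1
  k2 0 (.s k13 k9 1 (.s k165 k245 11 (.s k89 k241 13 (.s k93 k81 1 (.d k253 k173 k169 11 13))))))]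
  (.c k9 (.l (.s k1 k2 0 (.s k15 k10 2 (.s k11 k7 1 (.s k165 k245 11 (.s k169 k253 13 (.d k90 k240
  k248 14 12))))))) (.c k86 (.l (.s k2 k1 0 (.s k10 k15 2 (.s k6 k14 1 (.s k4 k7 0 (.d k12 k8 k9 1
  2)))))) .n)))

def s170_255_138 : T TT 256 :=
  (.q k149 [(.s k2 k1 0 (.s k21 k213 7 (.s k42 k63 6 (.s k22 k62 5 (.s k20 k23 0 (.d k60 k40 k41 5
  6)))))), (.s k1 k2 0 (.s k169 k253 13 (.s k129 k189 5 (.s k192 k66 8 (.s k64 k128 7 (.d k106 k127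
  k63 6 14)))))), (.s k21 k213 7 (.s k63 k42 6 (.s k23 k43 5 (.s k86 k212 8 (.s k84 k87 0 (.d k252
  k168 k169 13 14)))))), (.s k1 k2 0 (.s k169 k253 13 (.s k129 k189 5 (.s k193 k65 7 (.s k61 k105 13
  (.d k21 k41 k213 5 7))))))] (.c k154 (.q k186 [(.s k2 k1 0 (.s k21 k213 7 (.s k42 k63 6 (.s k22
  k62 5 (.s k20 k23 0 (.d k60 k40 k41 5 6)))))), (.s k1 k2 0 (.s k169 k253 13 (.s k129 k189 5 (.s
  k192 k66 8 (.s k64 k128 7 (.d k106 k127 k63 6 14)))))), (.s k21 k213 7 (.s k63 k42 6 (.s k23 k43 5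
  (.s k86 k212 8 (.s k84 k87 0 (.d k252 k168 k169 13 14)))))), (.s k1 k2 0 (.s k169 k253 13 (.s k129
  k189 5 (.s k193 k65 7 (.s k61 k105 13 (.d k21 k41 k213 5 7))))))] .n) (.c k186 (.q k154 [(.s k159
  k144 2 (.s k213 k21 7 (.s k223 k16 10 (.s k208 k218 2 (.d k31 k95 k90 7 10))))), (.s k1 k2 0 (.s
  k21 k213 7 (.s k41 k61 5 (.s k22 k60 6 (.s k23 k20 0 (.d k63 k43 k42 5 6)))))), (.s k1 k2 0 (.s
  k16 k223 10 (.s k48 k32 3 (.s k18 k33 4 (.s k86 k222 9 (.d k169 k253 k252 13 14))))))] (.c k48 (.q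
  k117 [(.s k16 k223 10 (.s k144 k159 2 (.s k208 k80 7 (.s k31 k90 10 (.d k21 k26 k213 2 7))))), (.s
  k21 k213 7 (.s k101 k69 3 (.s k53 k197 11 (.s k245 k181 7 (.d k5 k37 k165 3 11))))), (.s k1 k2 0
  (.s k101 k69 3 (.s k169 k253 13 (.s k139 k184 4 (.s k71 k207 9 (.d k86 k116 k252 4 14))))))] .n)
  (.c k117 (.q k48 [(.d k16 k32 k223 3 10), (.s k1 k2 0 (.s k18 k33 4 (.s k86 k222 9 (.d k169 k253
  k252 13 14))))] .n) .n))) .n)))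

def s170_255_139 : T TT 256 :=
  (.q k5 [(.s k2 k1 0 (.s k10 k15 2 (.s k6 k14 1 (.s k4 k7 0 (.d k12 k8 k9 1 2))))), (.s k1 k2 0 (.s
  k13 k9 1 (.s k165 k245 11 (.s k89 k241 13 (.s k93 k81 1 (.d k253 k173 k169 11 13)))))), (.s k15
  k10 2 (.s k7 k11 1 (.s k165 k245 11 (.s k86 k244 12 (.s k84 k87 0 (.d k252 k168 k169 13 14))))))]
  (.c k9 (.l (.s k1 k2 0 (.s k15 k10 2 (.s k11 k7 1 (.s k165 k245 11 (.s k169 k253 13 (.d k90 k240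
  k248 14 12))))))) .n))

def s170_255_140 : T TT 256 :=
  (.q k5 [(.s k2 k1 0 (.s k10 k15 2 (.s k6 k14 1 (.s k4 k7 0 (.d k12 k8 k9 1 2))))), (.s k1 k2 0 (.s
  k13 k9 1 (.s k165 k245 11 (.s k89 k241 13 (.s k93 k81 1 (.d k253 k173 k169 11 13)))))), (.s k15
  k10 2 (.s k7 k11 1 (.s k165 k245 11 (.s k86 k244 12 (.s k84 k87 0 (.d k252 k168 k169 13 14))))))]
  (.c k9 (.l (.s k1 k2 0 (.s k15 k10 2 (.s k11 k7 1 (.s k165 k245 11 (.s k169 k253 13 (.d k90 k240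
  k248 14 12))))))) .n))

def s170_255_141 : T TT 256 :=
  (.q k5 [(.s k2 k1 0 (.s k10 k15 2 (.s k6 k14 1 (.s k4 k7 0 (.d k12 k8 k9 1 2))))), (.s k1 k2 0 (.s
  k13 k9 1 (.s k165 k245 11 (.s k89 k241 13 (.s k93 k81 1 (.d k253 k173 k169 11 13)))))), (.s k15
  k10 2 (.s k7 k11 1 (.s k165 k245 11 (.s k86 k244 12 (.s k84 k87 0 (.d k252 k168 k169 13 14))))))]
  (.c k9 (.l (.s k1 k2 0 (.s k15 k10 2 (.s k11 k7 1 (.s k165 k245 11 (.s k169 k253 13 (.d k90 k240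
  k248 14 12))))))) .n))

def s170_255_142 : T TT 256 :=
  (.q k5 [(.s k1 k2 0 (.s k9 k13 1 (.s k10 k15 2 (.s k8 k11 0 (.d k12 k4 k6 1 2))))), (.s k15 k10 2
  (.s k7 k11 1 (.s k165 k245 11 (.s k86 k244 12 (.s k84 k87 0 (.d k252 k168 k169 13 14)))))), (.s k1
  k2 0 (.s k13 k9 1 (.s k165 k245 11 (.s k89 k241 13 (.s k93 k81 1 (.d k253 k173 k169 11 13))))))]
  (.c k9 (.l (.s k1 k2 0 (.s k15 k10 2 (.s k11 k7 1 (.s k165 k245 11 (.s k169 k253 13 (.d k90 k240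
  k248 14 12))))))) (.c k86 (.l (.s k2 k1 0 (.s k10 k15 2 (.s k6 k14 1 (.s k4 k7 0 (.d k12 k8 k9 1
  2)))))) .n)))

def s170_255_143 : T TT 256 :=
  (.q k5 [(.s k1 k2 0 (.s k9 k13 1 (.s k6 k12 2 (.s k7 k4 0 (.d k15 k11 k10 1 2))))), (.s k15 k10 2
  (.s k7 k11 1 (.s k165 k245 11 (.s k86 k244 12 (.s k84 k87 0 (.d k252 k168 k169 13 14)))))), (.s k1
  k2 0 (.s k13 k9 1 (.s k165 k245 11 (.s k89 k241 13 (.s k93 k81 1 (.d k253 k173 k169 11 13))))))]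
  (.c k9 (.l (.s k1 k2 0 (.s k15 k10 2 (.s k11 k7 1 (.s k165 k245 11 (.s k169 k253 13 (.d k90 k240
  k248 14 12))))))) (.c k86 (.l (.s k2 k1 0 (.s k10 k15 2 (.s k6 k14 1 (.s k4 k7 0 (.d k12 k8 k9 1
  2)))))) .n)))

def s170_255_144 : T TT 256 :=
  (.q k5 [(.s k2 k1 0 (.s k10 k15 2 (.s k6 k14 1 (.s k4 k7 0 (.d k12 k8 k9 1 2))))), (.s k1 k2 0 (.s
  k13 k9 1 (.s k165 k245 11 (.s k89 k241 13 (.s k93 k81 1 (.d k253 k173 k169 11 13)))))), (.s k15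
  k10 2 (.s k7 k11 1 (.s k165 k245 11 (.s k86 k244 12 (.s k84 k87 0 (.d k252 k168 k169 13 14))))))]
  (.c k9 (.l (.s k1 k2 0 (.s k15 k10 2 (.s k11 k7 1 (.s k165 k245 11 (.s k169 k253 13 (.d k90 k240
  k248 14 12))))))) .n))

def s170_255_145 : T TT 256 :=
  (.q k5 [(.s k2 k1 0 (.s k10 k15 2 (.s k6 k14 1 (.s k4 k7 0 (.d k12 k8 k9 1 2))))), (.s k1 k2 0 (.s
  k13 k9 1 (.s k165 k245 11 (.s k89 k241 13 (.s k93 k81 1 (.d k253 k173 k169 11 13)))))), (.s k15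
  k10 2 (.s k7 k11 1 (.s k165 k245 11 (.s k86 k244 12 (.s k84 k87 0 (.d k252 k168 k169 13 14))))))]
  (.c k9 (.l (.s k1 k2 0 (.s k15 k10 2 (.s k11 k7 1 (.s k165 k245 11 (.s k169 k253 13 (.d k90 k240
  k248 14 12))))))) .n))

def s170_255_146 : T TT 256 :=
  (.q k5 [(.s k2 k1 0 (.s k10 k15 2 (.s k6 k14 1 (.s k4 k7 0 (.d k12 k8 k9 1 2))))), (.s k1 k2 0 (.s
  k13 k9 1 (.s k165 k245 11 (.s k89 k241 13 (.s k93 k81 1 (.d k253 k173 k169 11 13)))))), (.s k15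
  k10 2 (.s k7 k11 1 (.s k165 k245 11 (.s k86 k244 12 (.s k84 k87 0 (.d k252 k168 k169 13 14))))))]
  (.c k9 (.l (.s k1 k2 0 (.s k15 k10 2 (.s k11 k7 1 (.s k165 k245 11 (.s k169 k253 13 (.d k90 k240
  k248 14 12))))))) .n))

def s170_255_147 : T TT 256 :=
  (.q k5 [(.s k2 k1 0 (.s k10 k15 2 (.s k6 k14 1 (.s k4 k7 0 (.d k12 k8 k9 1 2))))), (.s k1 k2 0 (.s
  k13 k9 1 (.s k165 k245 11 (.s k89 k241 13 (.s k93 k81 1 (.d k253 k173 k169 11 13)))))), (.s k15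
  k10 2 (.s k7 k11 1 (.s k165 k245 11 (.s k86 k244 12 (.s k84 k87 0 (.d k252 k168 k169 13 14))))))]
  (.c k9 (.l (.s k1 k2 0 (.s k15 k10 2 (.s k11 k7 1 (.s k165 k245 11 (.s k169 k253 13 (.d k90 k240
  k248 14 12))))))) .n))

def s170_255_148 : T TT 256 :=
  (.q k5 [(.s k2 k1 0 (.s k10 k15 2 (.s k6 k14 1 (.s k4 k7 0 (.d k12 k8 k9 1 2))))), (.s k1 k2 0 (.s
  k13 k9 1 (.s k165 k245 11 (.s k89 k241 13 (.s k93 k81 1 (.d k253 k173 k169 11 13)))))), (.s k15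
  k10 2 (.s k7 k11 1 (.s k165 k245 11 (.s k86 k244 12 (.s k84 k87 0 (.d k252 k168 k169 13 14))))))]
  (.c k9 (.l (.s k1 k2 0 (.s k15 k10 2 (.s k11 k7 1 (.s k165 k245 11 (.s k169 k253 13 (.d k90 k240
  k248 14 12))))))) .n))

def s170_255_149 : T TT 256 :=
  (.q k48 [(.s k1 k2 0 (.s k32 k16 3 (.s k33 k18 4 (.s k17 k49 3 (.d k34 k35 k51 0 4))))), (.s k1 k2
  0 (.s k16 k32 3 (.s k154 k223 10 (.s k169 k253 13 (.s k139 k184 4 (.d k207 k101 k71 14 9)))))),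
  (.s k16 k32 3 (.s k18 k33 4 (.s k154 k223 10 (.s k86 k222 9 (.s k84 k87 0 (.d k252 k168 k169 13
  14)))))), (.s k1 k2 0 (.s k33 k18 4 (.s k169 k253 13 (.s k101 k237 9 (.s k69 k117 3 (.d k207 k138
  k154 10 14))))))] (.c k86 (.l (.s k2 k1 0 (.s k16 k32 3 (.s k18 k33 4 (.s k17 k19 0 (.d k34 k50
  k51 3 4)))))) (.c k128 (.q k191 [(.s k1 k2 0 (.s k32 k16 3 (.s k33 k18 4 (.s k17 k49 3 (.d k34 k35
  k51 0 4))))), (.s k1 k2 0 (.s k16 k32 3 (.s k154 k223 10 (.s k169 k253 13 (.s k139 k184 4 (.d k207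
  k101 k71 14 9)))))), (.s k16 k32 3 (.s k18 k33 4 (.s k154 k223 10 (.s k86 k222 9 (.s k84 k87 0 (.d
  k252 k168 k169 13 14)))))), (.s k1 k2 0 (.s k33 k18 4 (.s k169 k253 13 (.s k101 k237 9 (.s k69
  k117 3 (.d k207 k138 k154 10 14))))))] (.c k86 (.l (.s k2 k1 0 (.s k16 k32 3 (.s k18 k33 4 (.s k17
  k19 0 (.d k34 k50 k51 3 4)))))) .n)) (.c k191 (.q k128 [(.s k1 k2 0 (.s k32 k16 3 (.s k33 k18 4
  (.s k17 k49 3 (.d k34 k35 k51 0 4))))), (.s k16 k32 3 (.s k192 k64 7 (.s k144 k96 11 (.s k80 k208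
  7 (.d k160 k176 k240 3 11))))), (.s k1 k2 0 (.s k192 k64 7 (.s k129 k66 8 (.s k65 k193 7 (.d k130
  k131 k195 0 8)))))] (.c k63 (.q k127 [(.d k64 k106 k192 6 7)] (.c k64 (.l (.s k1 k2 0 (.s k32 k16
  3 (.s k33 k18 4 (.s k17 k49 3 (.d k34 k35 k51 0 4)))))) (.c k106 (.l (.s k192 k64 7 (.s k1 k2 0
  (.s k129 k66 8 (.s k65 k193 7 (.d k130 k131 k195 0 8)))))) (.c k192 (.l (.s k106 k64 6 (.s k1 k2 0
  (.s k32 k16 3 (.s k33 k18 4 (.s k17 k49 3 (.d k34 k35 k51 0 4))))))) .n)))) (.c k127 (.q k63 [(.s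
  k1 k2 0 (.s k32 k16 3 (.s k33 k18 4 (.s k17 k49 3 (.d k34 k35 k51 0 4))))), (.s k16 k32 3 (.s k21
  k42 6 (.s k26 k31 2 (.s k37 k15 6 (.d k53 k58 k5 2 3))))), (.s k1 k2 0 (.s k21 k42 6 (.s k23 k43 5
  (.s k22 k20 0 (.d k41 k61 k60 5 6)))))] .n) .n))) .n))))

def s170_255_150 : T TT 256 :=
  (.q k51 [(.s k2 k1 0 (.s k34 k17 4 (.s k18 k50 3 (.s k33 k48 4 (.d k35 k32 k19 0 3))))), (.s k1 k2
  0 (.s k35 k19 3 (.s k169 k253 13 (.s k102 k236 10 (.s k68 k119 4 (.d k204 k136 k153 9 14)))))),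
  (.s k17 k34 4 (.s k19 k35 3 (.s k153 k221 9 (.s k86 k220 10 (.s k84 k87 0 (.d k252 k168 k169 13
  14)))))), (.s k1 k2 0 (.s k17 k34 4 (.s k153 k221 9 (.s k169 k253 13 (.s k137 k185 3 (.d k204 k102
  k70 14 10))))))] (.c k130 (.q k190 [(.s k2 k1 0 (.s k34 k17 4 (.s k18 k50 3 (.s k33 k48 4 (.d k35
  k32 k19 0 3))))), (.s k1 k2 0 (.s k35 k19 3 (.s k169 k253 13 (.s k102 k236 10 (.s k68 k119 4 (.d
  k204 k136 k153 9 14)))))), (.s k17 k34 4 (.s k19 k35 3 (.s k153 k221 9 (.s k86 k220 10 (.s k84 k87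
  0 (.d k252 k168 k169 13 14)))))), (.s k1 k2 0 (.s k17 k34 4 (.s k153 k221 9 (.s k169 k253 13 (.s
  k137 k185 3 (.d k204 k102 k70 14 10))))))] .n) (.c k190 (.q k130 [(.s k2 k1 0 (.s k34 k17 4 (.s
  k18 k50 3 (.s k33 k48 4 (.d k35 k32 k19 0 3))))), (.s k1 k2 0 (.s k65 k195 8 (.s k129 k193 7 (.s
  k128 k131 0 (.d k192 k64 k66 7 8))))), (.s k17 k34 4 (.s k19 k35 3 (.s k153 k221 9 (.s k86 k220 10
  (.s k84 k87 0 (.d k252 k168 k169 13 14))))))] (.c k60 (.q k125 [(.d k65 k105 k195 5 8)] (.c k65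
  (.l (.s k1 k2 0 (.s k17 k34 4 (.s k19 k35 3 (.s k18 k16 0 (.d k33 k49 k48 3 4)))))) (.c k105 (.l
  (.s k195 k65 8 (.s k2 k1 0 (.s k66 k194 7 (.s k129 k192 8 (.d k131 k128 k67 0 7)))))) (.c k195 (.l
  (.s k105 k65 5 (.s k1 k2 0 (.s k17 k34 4 (.s k19 k35 3 (.s k18 k16 0 (.d k33 k49 k48 3 4)))))))
  .n)))) (.c k125 (.q k60 [(.s k2 k1 0 (.s k20 k40 5 (.s k22 k41 6 (.s k21 k23 0 (.d k42 k62 k63 5
  6))))), (.s k1 k2 0 (.s k17 k34 4 (.s k19 k35 3 (.s k18 k16 0 (.d k33 k49 k48 3 4))))), (.s k19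
  k35 3 (.s k22 k41 6 (.s k25 k28 2 (.s k38 k12 6 (.d k54 k57 k6 2 3)))))] .n) .n))) .n)))

def s170_255_151 : T TT 256 :=
  (.q k5 [(.s k2 k1 0 (.s k10 k15 2 (.s k6 k14 1 (.s k4 k7 0 (.d k12 k8 k9 1 2))))), (.s k1 k2 0 (.s
  k13 k9 1 (.s k165 k245 11 (.s k89 k241 13 (.s k93 k81 1 (.d k253 k173 k169 11 13)))))), (.s k15
  k10 2 (.s k7 k11 1 (.s k165 k245 11 (.s k86 k244 12 (.s k84 k87 0 (.d k252 k168 k169 13 14))))))]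
  (.c k9 (.l (.s k1 k2 0 (.s k15 k10 2 (.s k11 k7 1 (.s k165 k245 11 (.s k169 k253 13 (.d k90 k240
  k248 14 12))))))) .n))

def s170_255_152 : T TT 256 :=
  (.q k5 [(.s k2 k1 0 (.s k10 k15 2 (.s k6 k14 1 (.s k4 k7 0 (.d k12 k8 k9 1 2))))), (.s k1 k2 0 (.s
  k13 k9 1 (.s k165 k245 11 (.s k89 k241 13 (.s k93 k81 1 (.d k253 k173 k169 11 13)))))), (.s k15
  k10 2 (.s k7 k11 1 (.s k165 k245 11 (.s k86 k244 12 (.s k84 k87 0 (.d k252 k168 k169 13 14))))))]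
  (.c k9 (.l (.s k1 k2 0 (.s k15 k10 2 (.s k11 k7 1 (.s k165 k245 11 (.s k169 k253 13 (.d k90 k240
  k248 14 12))))))) .n))

def s170_255_153 : T TT 256 :=
  (.q k149 [(.s k1 k2 0 (.s k21 k213 7 (.s k61 k41 5 (.s k105 k193 13 (.s k125 k65 5 (.d k253 k189
  k169 7 13)))))), (.s k21 k213 7 (.s k63 k42 6 (.s k23 k43 5 (.s k86 k212 8 (.s k84 k87 0 (.d k252
  k168 k169 13 14)))))), (.s k1 k2 0 (.s k169 k253 13 (.s k129 k189 5 (.s k192 k66 8 (.s k64 k128 7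
  (.d k106 k127 k63 6 14)))))), (.s k2 k1 0 (.s k21 k213 7 (.s k42 k63 6 (.s k22 k62 5 (.s k20 k23 0
  (.d k60 k40 k41 5 6))))))] (.c k136 (.q k187 [(.s k1 k2 0 (.s k21 k213 7 (.s k61 k41 5 (.s k105
  k193 13 (.s k125 k65 5 (.d k253 k189 k169 7 13)))))), (.s k21 k213 7 (.s k63 k42 6 (.s k23 k43 5
  (.s k86 k212 8 (.s k84 k87 0 (.d k252 k168 k169 13 14)))))), (.s k1 k2 0 (.s k169 k253 13 (.s k129
  k189 5 (.s k192 k66 8 (.s k64 k128 7 (.d k106 k127 k63 6 14)))))), (.s k2 k1 0 (.s k21 k213 7 (.s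
  k42 k63 6 (.s k22 k62 5 (.s k20 k23 0 (.d k60 k40 k41 5 6))))))] (.c k192 (.l (.s k1 k2 0 (.s k169
  k253 13 (.s k129 k189 5 (.s k193 k65 7 (.s k61 k105 13 (.d k21 k41 k213 5 7))))))) .n)) (.c k187
  (.q k136 [(.s k204 k68 9 (.s k137 k70 10 (.s k138 k139 0 (.s k69 k207 10 (.d k1 k2 k205 0 9))))),
  (.s k21 k213 7 (.s k63 k42 6 (.s k23 k43 5 (.s k86 k212 8 (.s k84 k87 0 (.d k252 k168 k169 13
  14))))))] (.c k51 (.q k119 [(.d k68 k102 k204 4 9)] (.c k68 (.l (.s k1 k2 0 (.s k21 k213 7 (.s k41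
  k61 5 (.s k22 k60 6 (.s k23 k20 0 (.d k63 k43 k42 5 6))))))) (.c k102 (.l (.s k204 k68 9 (.s k1 k2
  0 (.s k137 k70 10 (.s k69 k205 9 (.d k138 k139 k207 0 10)))))) (.c k204 (.l (.s k102 k68 4 (.s k21
  k213 7 (.s k55 k196 12 (.s k4 k38 4 (.d k247 k183 k166 7 12)))))) .n)))) (.c k119 (.q k51 [(.s k2
  k1 0 (.s k34 k17 4 (.s k18 k50 3 (.s k33 k48 4 (.d k35 k32 k19 0 3))))), (.s k17 k34 4 (.s k21
  k213 7 (.s k25 k29 1 (.s k12 k38 6 (.s k8 k4 1 (.d k42 k59 k63 4 6)))))), (.s k1 k2 0 (.s k204 k68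
  9 (.s k137 k70 10 (.s k69 k205 9 (.d k138 k139 k207 0 10)))))] .n) .n))) (.c k192 (.l (.s k1 k2 0
  (.s k169 k253 13 (.s k129 k189 5 (.s k193 k65 7 (.s k61 k105 13 (.d k21 k41 k213 5 7))))))) .n))))

def s170_255_154 : T TT 256 :=
  (.q k51 [(.s k2 k1 0 (.s k35 k19 3 (.s k34 k17 4 (.s k33 k32 0 (.d k18 k50 k48 3 4))))), (.s k1 k2
  0 (.s k35 k19 3 (.s k169 k253 13 (.s k102 k236 10 (.s k68 k119 4 (.d k204 k136 k153 9 14)))))),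
  (.s k17 k34 4 (.s k19 k35 3 (.s k153 k221 9 (.s k86 k220 10 (.s k84 k87 0 (.d k252 k168 k169 13
  14)))))), (.s k1 k2 0 (.s k17 k34 4 (.s k153 k221 9 (.s k169 k253 13 (.s k137 k185 3 (.d k204 k102
  k70 14 10))))))] (.c k138 (.q k186 [(.s k2 k1 0 (.s k35 k19 3 (.s k34 k17 4 (.s k33 k32 0 (.d k18
  k50 k48 3 4))))), (.s k1 k2 0 (.s k35 k19 3 (.s k169 k253 13 (.s k102 k236 10 (.s k68 k119 4 (.d
  k204 k136 k153 9 14)))))), (.s k17 k34 4 (.s k19 k35 3 (.s k153 k221 9 (.s k86 k220 10 (.s k84 k87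
  0 (.d k252 k168 k169 13 14)))))), (.s k1 k2 0 (.s k17 k34 4 (.s k153 k221 9 (.s k169 k253 13 (.s
  k137 k185 3 (.d k204 k70 k102 10 14))))))] .n) (.c k186 (.q k138 [(.s k2 k1 0 (.s k17 k34 4 (.s
  k70 k206 9 (.s k153 k221 9 (.d k204 k102 k137 14 10))))), (.s k1 k2 0 (.s k69 k207 10 (.s k137
  k205 9 (.s k136 k139 0 (.d k204 k68 k70 9 10))))), (.s k17 k34 4 (.s k19 k35 3 (.s k153 k221 9 (.s
  k86 k220 10 (.s k84 k87 0 (.d k252 k168 k169 13 14))))))] (.c k48 (.q k117 [(.d k69 k101 k207 3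
  10)] (.c k69 (.l (.s k1 k2 0 (.s k17 k34 4 (.s k49 k33 3 (.d k253 k185 k169 9 13))))) (.c k101 (.l
  (.s k207 k69 10 (.s k1 k2 0 (.s k17 k34 4 (.s k49 k33 3 (.d k253 k169 k185 13 9)))))) (.c k207 (.l
  (.s k101 k69 3 (.s k1 k2 0 (.s k17 k34 4 (.s k33 k49 3 (.d k169 k237 k253 9 13)))))) .n)))) (.c
  k117 (.q k48 [(.s k2 k1 0 (.s k18 k33 4 (.d k34 k17 k50 4 3))), (.s k1 k2 0 (.s k69 k207 10 (.s
  k137 k205 9 (.s k136 k139 0 (.d k204 k68 k70 9 10))))), (.s k16 k32 3 (.s k17 k34 4 (.d k18 k33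
  k19 4 0)))] .n) (.c k204 (.l (.s k1 k2 0 (.s k17 k34 4 (.s k19 k35 3 (.s k18 k16 0 (.d k33 k49 k48
  3 4)))))) .n)))) .n)))

def s170_255_155 : T TT 256 :=
  (.q k5 [(.s k2 k1 0 (.s k10 k15 2 (.s k6 k14 1 (.s k4 k7 0 (.d k12 k8 k9 1 2))))), (.s k1 k2 0 (.s
  k13 k9 1 (.s k165 k245 11 (.s k89 k241 13 (.s k93 k81 1 (.d k253 k173 k169 11 13)))))), (.s k15
  k10 2 (.s k7 k11 1 (.s k165 k245 11 (.s k86 k244 12 (.s k84 k87 0 (.d k252 k168 k169 13 14))))))]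
  (.c k9 (.l (.s k1 k2 0 (.s k15 k10 2 (.s k11 k7 1 (.s k165 k245 11 (.s k169 k253 13 (.d k90 k240
  k248 14 12))))))) .n))

def s170_255_156 : T TT 256 :=
  (.q k5 [(.s k2 k1 0 (.s k10 k15 2 (.s k6 k14 1 (.s k4 k7 0 (.d k12 k8 k9 1 2))))), (.s k1 k2 0 (.s
  k13 k9 1 (.s k165 k245 11 (.s k89 k241 13 (.s k93 k81 1 (.d k253 k173 k169 11 13)))))), (.s k15
  k10 2 (.s k7 k11 1 (.s k165 k245 11 (.s k86 k244 12 (.s k84 k87 0 (.d k252 k168 k169 13 14))))))]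
  (.c k9 (.l (.s k1 k2 0 (.s k15 k10 2 (.s k11 k7 1 (.s k165 k245 11 (.s k169 k253 13 (.d k90 k240
  k248 14 12))))))) .n))

def s170_255_157 : T TT 256 :=
  (.q k5 [(.s k2 k1 0 (.s k10 k15 2 (.s k6 k14 1 (.s k4 k7 0 (.d k12 k8 k9 1 2))))), (.s k1 k2 0 (.s
  k13 k9 1 (.s k165 k245 11 (.s k89 k241 13 (.s k93 k81 1 (.d k253 k173 k169 11 13)))))), (.s k15
  k10 2 (.s k7 k11 1 (.s k165 k245 11 (.s k86 k244 12 (.s k84 k87 0 (.d k252 k168 k169 13 14))))))]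
  (.c k9 (.l (.s k1 k2 0 (.s k15 k10 2 (.s k11 k7 1 (.s k165 k245 11 (.s k169 k253 13 (.d k90 k240
  k248 14 12))))))) .n))

def s170_255_158 : T TT 256 :=
  (.q k5 [(.s k2 k1 0 (.s k10 k15 2 (.s k6 k14 1 (.s k4 k7 0 (.d k12 k8 k9 1 2))))), (.s k1 k2 0 (.s
  k13 k9 1 (.s k165 k245 11 (.s k89 k241 13 (.s k93 k81 1 (.d k253 k173 k169 11 13)))))), (.s k15
  k10 2 (.s k7 k11 1 (.s k165 k245 11 (.s k86 k244 12 (.s k84 k87 0 (.d k252 k168 k169 13 14))))))]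
  (.c k9 (.l (.s k1 k2 0 (.s k15 k10 2 (.s k11 k7 1 (.s k165 k245 11 (.s k169 k253 13 (.d k90 k240
  k248 14 12))))))) .n))

def s170_255_159 : T TT 256 :=
  (.q k5 [(.s k2 k1 0 (.s k10 k15 2 (.s k6 k14 1 (.s k4 k7 0 (.d k12 k8 k9 1 2))))), (.s k1 k2 0 (.s
  k13 k9 1 (.s k165 k245 11 (.s k89 k241 13 (.s k93 k81 1 (.d k253 k173 k169 11 13)))))), (.s k15
  k10 2 (.s k7 k11 1 (.s k165 k245 11 (.s k86 k244 12 (.s k84 k87 0 (.d k252 k168 k169 13 14))))))]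
  (.c k9 (.l (.s k1 k2 0 (.s k15 k10 2 (.s k11 k7 1 (.s k165 k245 11 (.s k169 k253 13 (.d k90 k240
  k248 14 12))))))) .n))

def s170_255_160 : T TT 256 :=
  (.q k165 [(.s k1 k2 0 (.s k5 k245 11 (.s k13 k9 1 (.s k89 k241 13 (.s k93 k81 1 (.d k253 k173 k169
  11 13)))))), (.s k5 k245 11 (.s k15 k10 2 (.s k7 k11 1 (.s k86 k244 12 (.s k84 k87 0 (.d k252 k168
  k169 13 14)))))), (.s k1 k2 0 (.s k169 k253 13 (.s k161 k173 1 (.s k240 k82 12 (.s k15 k90 14 (.s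
  k7 k11 1 (.d k86 k252 k244 14 12))))))), (.s k2 k1 0 (.s k5 k245 11 (.s k10 k15 2 (.s k6 k14 1 (.s
  k4 k7 0 (.d k12 k8 k9 1 2)))))), (.s k1 k2 0 (.s k169 k253 13 (.s k161 k173 1 (.s k241 k81 11 (.s
  k13 k89 13 (.d k5 k9 k245 1 11))))))] .n)

def s170_255_161 : T TT 256 :=
  (.q k5 [(.s k1 k2 0 (.s k9 k13 1 (.s k6 k12 2 (.s k7 k4 0 (.d k15 k11 k10 1 2))))), (.s k15 k10 2
  (.s k7 k11 1 (.s k165 k245 11 (.s k86 k244 12 (.s k84 k87 0 (.d k252 k168 k169 13 14)))))), (.s k1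
  k2 0 (.s k13 k9 1 (.s k165 k245 11 (.s k89 k241 13 (.s k93 k81 1 (.d k253 k173 k169 11 13))))))]
  (.c k9 (.l (.s k1 k2 0 (.s k15 k10 2 (.s k11 k7 1 (.s k165 k245 11 (.s k169 k253 13 (.d k90 k240
  k248 14 12))))))) (.c k86 (.l (.s k2 k1 0 (.s k10 k15 2 (.s k6 k14 1 (.s k4 k7 0 (.d k12 k8 k9 1
  2)))))) .n)))

def s170_255_162 : T TT 256 :=
  (.q k48 [(.s k1 k2 0 (.s k32 k16 3 (.s k33 k18 4 (.s k17 k49 3 (.d k34 k35 k51 0 4))))), (.s k16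
  k32 3 (.s k18 k33 4 (.s k154 k223 10 (.s k86 k222 9 (.s k84 k87 0 (.d k252 k168 k169 13 14)))))),
  (.s k1 k2 0 (.s k16 k32 3 (.s k154 k223 10 (.s k169 k253 13 (.s k139 k184 4 (.d k207 k101 k71 14
  9)))))), (.s k1 k2 0 (.s k33 k18 4 (.s k169 k253 13 (.s k101 k237 9 (.s k69 k117 3 (.d k207 k138
  k154 10 14))))))] (.c k86 (.l (.s k2 k1 0 (.s k16 k32 3 (.s k18 k33 4 (.s k17 k19 0 (.d k34 k50
  k51 3 4)))))) (.c k166 (.q k174 [(.s k1 k2 0 (.s k32 k16 3 (.s k33 k18 4 (.s k17 k49 3 (.d k34 k35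
  k51 0 4))))), (.s k16 k32 3 (.s k18 k33 4 (.s k154 k223 10 (.s k86 k222 9 (.s k84 k87 0 (.d k252
  k168 k169 13 14)))))), (.s k1 k2 0 (.s k16 k32 3 (.s k154 k223 10 (.s k169 k253 13 (.s k139 k184 4
  (.d k207 k101 k71 14 9)))))), (.s k1 k2 0 (.s k33 k18 4 (.s k169 k253 13 (.s k101 k237 9 (.s k69
  k117 3 (.d k207 k138 k154 10 14))))))] (.c k86 (.l (.s k2 k1 0 (.s k16 k32 3 (.s k18 k33 4 (.s k17
  k19 0 (.d k34 k50 k51 3 4)))))) .n)) (.c k174 (.q k166 [(.s k1 k2 0 (.s k32 k16 3 (.s k33 k18 4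
  (.s k17 k49 3 (.d k34 k35 k51 0 4))))), (.s k4 k247 12 (.s k12 k8 1 (.s k6 k9 2 (.s k86 k246 11
  (.s k84 k87 0 (.d k252 k168 k169 13 14))))))] (.c k12 (.q k93 [(.s k1 k2 0 (.s k32 k16 3 (.s k33
  k18 4 (.s k17 k49 3 (.d k34 k35 k51 0 4))))), (.s k16 k32 3 (.s k18 k33 4 (.s k154 k223 10 (.s k86
  k222 9 (.s k84 k87 0 (.d k252 k168 k169 13 14)))))), (.s k1 k2 0 (.s k16 k32 3 (.s k154 k223 10
  (.s k169 k253 13 (.s k139 k184 4 (.d k207 k101 k71 14 9)))))), (.s k1 k2 0 (.s k33 k18 4 (.s k169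
  k253 13 (.s k101 k237 9 (.s k69 k117 3 (.d k207 k138 k154 10 14))))))] (.c k86 (.l (.s k2 k1 0 (.s
  k16 k32 3 (.s k18 k33 4 (.s k17 k19 0 (.d k34 k50 k51 3 4)))))) .n)) (.c k86 (.l (.s k2 k1 0 (.s
  k16 k32 3 (.s k18 k33 4 (.s k17 k19 0 (.d k34 k50 k51 3 4)))))) (.c k93 (.q k12 [(.d k4 k8 k247 1
  12), (.s k1 k2 0 (.s k6 k9 2 (.s k86 k246 11 (.d k169 k253 k252 13 14))))] .n) .n)))) .n))))

def s170_255_163 : T TT 256 :=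
  (.q k5 [(.s k2 k1 0 (.s k10 k15 2 (.s k6 k14 1 (.s k4 k7 0 (.d k12 k8 k9 1 2))))), (.s k1 k2 0 (.s
  k13 k9 1 (.s k165 k245 11 (.s k89 k241 13 (.s k93 k81 1 (.d k253 k173 k169 11 13)))))), (.s k15
  k10 2 (.s k7 k11 1 (.s k165 k245 11 (.s k86 k244 12 (.s k84 k87 0 (.d k252 k168 k169 13 14))))))]
  (.c k9 (.l (.s k1 k2 0 (.s k15 k10 2 (.s k11 k7 1 (.s k165 k245 11 (.s k169 k253 13 (.d k90 k240
  k248 14 12))))))) .n))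

def s170_255_164 : T TT 256 :=
  (.q k5 [(.s k2 k1 0 (.s k10 k15 2 (.s k6 k14 1 (.s k4 k7 0 (.d k12 k8 k9 1 2))))), (.s k1 k2 0 (.s
  k13 k9 1 (.s k165 k245 11 (.s k89 k241 13 (.s k93 k81 1 (.d k253 k173 k169 11 13)))))), (.s k15
  k10 2 (.s k7 k11 1 (.s k165 k245 11 (.s k86 k244 12 (.s k84 k87 0 (.d k252 k168 k169 13 14))))))]
  (.c k9 (.l (.s k1 k2 0 (.s k15 k10 2 (.s k11 k7 1 (.s k165 k245 11 (.s k169 k253 13 (.d k90 k240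
  k248 14 12))))))) .n))

def s170_255_165 : T TT 256 :=
  (.q k48 [(.s k1 k2 0 (.s k32 k16 3 (.s k33 k18 4 (.s k17 k49 3 (.d k34 k35 k51 0 4))))), (.s k1 k2
  0 (.s k16 k32 3 (.s k154 k223 10 (.s k169 k253 13 (.s k139 k184 4 (.d k207 k101 k71 14 9)))))),
  (.s k16 k32 3 (.s k18 k33 4 (.s k154 k223 10 (.s k86 k222 9 (.s k84 k87 0 (.d k252 k168 k169 13
  14)))))), (.s k1 k2 0 (.s k33 k18 4 (.s k169 k253 13 (.s k101 k237 9 (.s k69 k117 3 (.d k207 k138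
  k154 10 14))))))] (.c k86 (.l (.s k2 k1 0 (.s k16 k32 3 (.s k18 k33 4 (.s k17 k19 0 (.d k34 k50
  k51 3 4)))))) (.c k160 (.q k175 [(.s k1 k2 0 (.s k32 k16 3 (.s k33 k18 4 (.s k17 k49 3 (.d k34 k35
  k51 0 4))))), (.s k1 k2 0 (.s k16 k32 3 (.s k154 k223 10 (.s k169 k253 13 (.s k139 k184 4 (.d k207
  k101 k71 14 9)))))), (.s k16 k32 3 (.s k18 k33 4 (.s k154 k223 10 (.s k86 k222 9 (.s k84 k87 0 (.d
  k252 k168 k169 13 14)))))), (.s k1 k2 0 (.s k33 k18 4 (.s k169 k253 13 (.s k101 k237 9 (.s k69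
  k117 3 (.d k207 k138 k154 10 14))))))] (.c k86 (.l (.s k2 k1 0 (.s k16 k32 3 (.s k18 k33 4 (.s k17
  k19 0 (.d k34 k50 k51 3 4)))))) .n)) (.c k175 (.q k160 [(.s k1 k2 0 (.s k32 k16 3 (.s k33 k18 4
  (.s k17 k49 3 (.d k34 k35 k51 0 4))))), (.s k16 k32 3 (.s k80 k240 11 (.s k144 k208 7 (.s k128
  k176 3 (.d k192 k64 k96 7 11))))), (.s k1 k2 0 (.s k240 k80 11 (.s k161 k82 12 (.s k81 k241 11 (.d
  k162 k163 k243 0 12)))))] (.c k15 (.q k95 [(.d k80 k90 k240 2 11)] (.c k80 (.l (.s k1 k2 0 (.s k32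
  k16 3 (.s k33 k18 4 (.s k17 k49 3 (.d k34 k35 k51 0 4)))))) (.c k90 (.l (.s k240 k80 11 (.s k1 k2
  0 (.s k161 k82 12 (.s k81 k241 11 (.d k162 k163 k243 0 12)))))) (.c k240 (.l (.s k90 k80 2 (.s k1
  k2 0 (.s k32 k16 3 (.s k33 k18 4 (.s k17 k49 3 (.d k34 k35 k51 0 4))))))) .n)))) (.c k95 (.q k15
  [(.s k2 k1 0 (.s k10 k5 2 (.s k6 k14 1 (.s k9 k12 2 (.d k11 k8 k7 0 1))))), (.s k5 k10 2 (.s k32
  k16 3 (.s k37 k26 6 (.s k21 k53 3 (.d k42 k47 k63 2 6))))), (.s k1 k2 0 (.s k32 k16 3 (.s k33 k18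
  4 (.s k17 k49 3 (.d k34 k35 k51 0 4)))))] .n) .n))) .n))))

def s170_255_166 : T TT 256 :=
  (.q k149 [(.s k1 k2 0 (.s k21 k213 7 (.s k61 k41 5 (.s k105 k193 13 (.s k125 k65 5 (.d k253 k189
  k169 7 13)))))), (.s k21 k213 7 (.s k63 k42 6 (.s k23 k43 5 (.s k86 k212 8 (.s k84 k87 0 (.d k252
  k168 k169 13 14)))))), (.s k1 k2 0 (.s k169 k253 13 (.s k129 k189 5 (.s k192 k66 8 (.s k64 k128 7
  (.d k106 k127 k63 6 14)))))), (.s k2 k1 0 (.s k21 k213 7 (.s k42 k63 6 (.s k22 k62 5 (.s k20 k23 0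
  (.d k60 k40 k41 5 6))))))] (.c k162 (.q k174 [(.s k2 k1 0 (.s k21 k213 7 (.s k42 k63 6 (.s k22 k62
  5 (.s k20 k23 0 (.d k60 k40 k41 5 6)))))), (.s k1 k2 0 (.s k169 k253 13 (.s k129 k189 5 (.s k192
  k66 8 (.s k64 k128 7 (.d k106 k127 k63 6 14)))))), (.s k21 k213 7 (.s k63 k42 6 (.s k23 k43 5 (.s
  k86 k212 8 (.s k84 k87 0 (.d k252 k168 k169 13 14)))))), (.s k1 k2 0 (.s k169 k253 13 (.s k129
  k189 5 (.s k193 k65 7 (.s k61 k105 13 (.d k21 k41 k213 5 7))))))] .n) (.c k174 (.q k162 [(.s k2 k1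
  0 (.s k81 k243 12 (.s k82 k242 11 (.s k80 k83 0 (.d k240 k160 k161 11 12))))), (.s k21 k213 7 (.s
  k63 k42 6 (.s k23 k43 5 (.s k86 k212 8 (.s k84 k87 0 (.d k252 k168 k169 13 14))))))] (.c k12 (.q
  k93 [(.d k81 k89 k243 1 12)] (.c k81 (.l (.s k1 k2 0 (.s k21 k213 7 (.s k41 k61 5 (.s k22 k60 6
  (.s k23 k20 0 (.d k63 k43 k42 5 6))))))) (.c k89 (.l (.s k243 k81 12 (.s k2 k1 0 (.s k82 k242 11
  (.s k161 k240 12 (.d k163 k160 k83 0 11)))))) (.c k243 (.l (.s k89 k81 1 (.s k21 k213 7 (.s k29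
  k209 9 (.s k17 k25 1 (.d k221 k157 k153 7 9)))))) .n)))) (.c k93 (.q k12 [(.s k2 k1 0 (.s k4 k8 1
  (.s k6 k9 2 (.s k5 k7 0 (.d k10 k14 k15 1 2))))), (.s k1 k2 0 (.s k81 k243 12 (.s k161 k241 11 (.s
  k160 k163 0 (.d k240 k80 k82 11 12))))), (.s k4 k8 1 (.s k21 k213 7 (.s k38 k55 4 (.s k25 k51 6
  (.s k29 k17 1 (.d k63 k46 k42 4 6))))))] (.c k251 (.l (.s k1 k2 0 (.s k8 k4 1 (.s k9 k6 2 (.s k5
  k13 1 (.d k10 k11 k15 0 2)))))) .n)) .n))) (.c k192 (.l (.s k1 k2 0 (.s k169 k253 13 (.s k129 k189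
  5 (.s k193 k65 7 (.s k61 k105 13 (.d k21 k41 k213 5 7))))))) .n))))

def s170_255_167 : T TT 256 :=
  (.q k5 [(.s k1 k2 0 (.s k9 k13 1 (.s k6 k12 2 (.s k7 k4 0 (.d k15 k11 k10 1 2))))), (.s k15 k10 2
  (.s k7 k11 1 (.s k165 k245 11 (.s k86 k244 12 (.s k84 k87 0 (.d k252 k168 k169 13 14)))))), (.s k1
  k2 0 (.s k13 k9 1 (.s k165 k245 11 (.s k89 k241 13 (.s k93 k81 1 (.d k253 k173 k169 11 13))))))]
  (.c k9 (.l (.s k1 k2 0 (.s k15 k10 2 (.s k11 k7 1 (.s k165 k245 11 (.s k169 k253 13 (.d k90 k240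
  k248 14 12))))))) (.c k86 (.l (.s k2 k1 0 (.s k10 k15 2 (.s k6 k14 1 (.s k4 k7 0 (.d k12 k8 k9 1
  2)))))) .n)))

def s170_255_168 : T TT 256 :=
  (.q k63 [(.s k2 k1 0 (.s k42 k21 6 (.s k22 k62 5 (.s k41 k60 6 (.d k43 k40 k23 0 5))))), (.s k1 k2
  0 (.s k43 k23 5 (.s k169 k253 13 (.s k106 k232 8 (.s k64 k127 6 (.d k192 k128 k149 7 14)))))), (.s
  k1 k2 0 (.s k21 k42 6 (.s k149 k213 7 (.s k169 k253 13 (.s k129 k189 5 (.d k192 k106 k66 14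
  8)))))), (.s k21 k42 6 (.s k23 k43 5 (.s k149 k213 7 (.s k86 k212 8 (.s k87 k84 0 (.s k215 k151 7
  (.d k20 k22 k150 0 8)))))))] (.c k169 (.q k171 [(.s k2 k1 0 (.s k42 k21 6 (.s k22 k62 5 (.s k41
  k60 6 (.d k43 k40 k23 0 5))))), (.s k43 k23 5 (.s k107 k235 7 (.s k195 k151 13 (.s k65 k130 8 (.s
  k67 k131 7 (.s k64 k66 0 (.d k127 k87 k106 5 6))))))), (.s k21 k42 6 (.s k23 k43 5 (.s k149 k213 7
  (.s k86 k212 8 (.s k87 k84 0 (.s k215 k151 7 (.d k20 k22 k150 0 8)))))))] (.c k23 (.f k1 k2 0 (.l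
  (.s k21 k42 6 (.s k61 k41 5 (.s k149 k213 7 (.s k105 k193 13 (.s k65 k125 5 (.s k195 k130 8 (.d
  k60 k62 k150 0 14))))))))) (.c k40 (.l (.s k1 k2 0 (.s k21 k42 6 (.s k23 k43 5 (.s k41 k61 5 (.d
  k22 k20 k60 0 6)))))) (.c k43 (.q k106 [(.s k64 k127 6 (.d k192 k128 k149 7 14)), (.s k2 k1 0 (.s
  k42 k21 6 (.s k62 k22 5 (.s k150 k194 13 (.s k20 k215 8 (.d k60 k61 k40 0 5))))))] .n) .n)))) (.c
  k171 (.q k169 [(.d k1 k2 k253 0 13), (.s k21 k42 6 (.s k23 k43 5 (.s k149 k213 7 (.d k86 k212 k252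
  8 14))))] .n) .n)))

def s170_255_169 : T TT 256 :=
  (.q k15 [(.s k2 k1 0 (.s k10 k5 2 (.s k6 k14 1 (.s k9 k12 2 (.d k11 k8 k7 0 1))))), (.s k5 k10 2
  (.s k7 k11 1 (.s k165 k245 11 (.s k86 k244 12 (.s k87 k84 0 (.s k247 k167 11 (.d k4 k6 k166 0
  12)))))))] (.c k5 (.q k138 [(.s k2 k1 0 (.s k69 k207 10 (.s k70 k206 9 (.s k68 k71 0 (.d k204 k136
  k137 9 10))))), (.s k7 k11 1 (.s k207 k69 10 (.s k71 k139 9 (.s k79 k143 7 (.s k75 k67 1 (.d k135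
  k199 k195 7 9)))))), (.s k2 k1 0 (.s k7 k11 1 (.s k70 k206 9 (.s k133 k196 8 (.s k128 k143 2 (.d
  k192 k64 k74 7 10))))))] (.c k168 (.q k171 [(.s k2 k1 0 (.s k69 k207 10 (.s k70 k206 9 (.s k68 k71
  0 (.d k204 k136 k137 9 10))))), (.s k7 k11 1 (.s k207 k69 10 (.s k71 k139 9 (.s k79 k143 7 (.s k75
  k67 1 (.d k135 k199 k195 7 9)))))), (.s k2 k1 0 (.s k7 k11 1 (.s k70 k206 9 (.s k133 k196 8 (.s
  k128 k143 2 (.d k192 k64 k74 7 10))))))] .n) (.c k171 (.q k168 [(.s k2 k1 0 (.s k69 k207 10 (.s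
  k70 k206 9 (.s k68 k71 0 (.d k204 k136 k137 9 10))))), (.s k7 k11 1 (.s k207 k69 10 (.s k71 k139 9
  (.s k79 k143 7 (.s k75 k67 1 (.d k135 k199 k195 7 9)))))), (.s k2 k1 0 (.s k7 k11 1 (.s k70 k206 9
  (.s k133 k196 8 (.s k128 k143 2 (.d k192 k64 k74 7 10))))))] .n) .n))) (.c k6 (.f k2 k1 0 (.q k133
  [(.s k7 k11 1 (.s k70 k196 8 (.s k74 k192 10 (.s k78 k66 1 (.d k204 k141 k137 8 10))))), (.s k5
  k10 2 (.s k69 k197 7 (.s k74 k192 10 (.s k79 k64 2 (.d k207 k143 k138 7 10))))), (.s k5 k10 2 (.s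
  k7 k11 1 (.s k69 k197 7 (.s k70 k196 8 (.d k138 k206 k207 9 10)))))] (.c k90 (.l (.s k10 k5 2 (.s
  k74 k192 10 (.s k138 k202 7 (.s k70 k206 9 (.d k7 k11 k196 1 8)))))) (.c k168 (.q k171 [(.s k7 k11
  1 (.s k70 k196 8 (.s k74 k192 10 (.s k78 k66 1 (.d k204 k141 k137 8 10))))), (.s k5 k10 2 (.s k69
  k197 7 (.s k74 k192 10 (.s k79 k64 2 (.d k207 k143 k138 7 10))))), (.s k5 k10 2 (.s k7 k11 1 (.s
  k69 k197 7 (.s k70 k196 8 (.d k138 k206 k207 9 10)))))] (.c k90 (.l (.s k10 k5 2 (.s k74 k192 10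
  (.s k138 k202 7 (.s k70 k206 9 (.d k7 k11 k196 1 8)))))) .n)) (.c k171 (.q k168 [(.s k5 k10 2 (.s
  k69 k197 7 (.s k74 k192 10 (.s k79 k64 2 (.d k207 k143 k138 7 10))))), (.s k5 k10 2 (.s k7 k11 1
  (.s k84 k252 13 (.s k86 k87 0 (.d k165 k245 k244 11 12))))), (.s k7 k11 1 (.s k70 k196 8 (.s k74
  k192 10 (.s k78 k66 1 (.d k204 k141 k137 8 10)))))] (.c k90 (.l (.s k10 k5 2 (.s k74 k192 10 (.s
  k138 k202 7 (.s k70 k206 9 (.d k7 k11 k196 1 8)))))) .n)) .n))))) (.c k7 (.f k1 k2 0 (.l (.s k5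
  k10 2 (.s k13 k9 1 (.s k165 k245 11 (.s k89 k241 13 (.s k81 k93 1 (.s k243 k162 12 (.d k12 k14
  k166 0 14))))))))) (.c k8 (.l (.s k1 k2 0 (.s k5 k10 2 (.s k7 k11 1 (.s k9 k13 1 (.d k6 k4 k12 0
  2)))))) (.c k9 (.f k11 k7 1 (.q k89 [(.s k1 k2 0 (.s k81 k93 1 (.s k241 k161 11 (.s k165 k13 13
  (.d k5 k10 k245 2 11))))), (.s k5 k10 2 (.s k165 k245 11 (.s k13 k241 13 (.s k12 k14 0 (.s k4 k8 1
  (.d k166 k247 k243 12 14)))))), (.s k1 k2 0 (.s k81 k93 1 (.s k161 k241 11 (.s k162 k243 12 (.s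
  k160 k163 0 (.d k240 k80 k82 11 12))))))] (.c k2 (.l (.s k5 k10 2 (.s k81 k93 1 (.s k165 k245 11
  (.s k13 k241 13 (.s k243 k162 12 (.d k12 k14 k166 0 14))))))) (.c k12 (.l (.s k1 k2 0 (.s k5 k10 2
  (.s k165 k245 11 (.s k241 k13 13 (.d k81 k93 k161 1 11)))))) (.c k168 (.q k171 [(.s k91 k251 11
  (.s k243 k167 13 (.d k81 k93 k162 1 12))), (.s k1 k2 0 (.s k5 k10 2 (.s k81 k93 1 (.s k165 k245 11
  (.d k241 k161 k13 11 13))))), (.s k5 k10 2 (.s k91 k251 11 (.s k90 k88 0 (.d k165 k245 k240 11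
  14))))] .n) (.c k171 (.q k168 [(.s k1 k2 0 (.s k81 k93 1 (.s k241 k161 11 (.s k165 k13 13 (.d k5
  k10 k245 2 11))))), (.s k81 k93 1 (.s k84 k252 13 (.s k86 k87 0 (.s k83 k92 2 (.d k243 k163 k162
  11 12))))), (.s k5 k10 2 (.s k165 k245 11 (.s k13 k241 13 (.s k12 k14 0 (.s k4 k8 1 (.d k166 k247
  k243 12 14)))))), (.s k1 k2 0 (.s k5 k10 2 (.s k165 k245 11 (.s k241 k13 13 (.d k81 k93 k161 1
  11)))))] .n) (.c k241 (.l (.s k2 k1 0 (.s k81 k93 1 (.s k162 k243 12 (.s k82 k242 11 (.s k240 k161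
  12 (.d k80 k83 k160 0 11))))))) .n))))))) (.c k10 (.f k11 k7 1 (.q k48 [(.s k26 k37 6 (.s k41 k56
  4 (.s k22 k60 6 (.d k18 k30 k33 1 4)))), (.s k1 k2 0 (.s k32 k16 3 (.s k33 k18 4 (.s k17 k49 3 (.d
  k34 k35 k51 0 4))))), (.s k1 k2 0 (.s k16 k32 3 (.s k26 k37 6 (.s k21 k31 2 (.d k41 k56 k61 4
  5)))))] (.c k90 (.q k250 [(.s k26 k37 6 (.s k41 k56 4 (.s k22 k60 6 (.d k18 k30 k33 1 4)))), (.s
  k1 k2 0 (.s k32 k16 3 (.s k33 k18 4 (.s k17 k49 3 (.d k34 k35 k51 0 4))))), (.s k1 k2 0 (.s k16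
  k32 3 (.s k26 k37 6 (.s k21 k31 2 (.d k41 k56 k61 4 5)))))] (.c k168 (.q k171 [(.s k26 k37 6 (.s
  k41 k56 4 (.s k22 k60 6 (.d k18 k30 k33 1 4)))), (.s k1 k2 0 (.s k32 k16 3 (.s k33 k18 4 (.s k17
  k49 3 (.d k34 k35 k51 0 4))))), (.s k1 k2 0 (.s k16 k32 3 (.s k26 k37 6 (.s k21 k31 2 (.d k41 k56
  k61 4 5)))))] .n) (.c k171 (.q k168 [(.s k26 k37 6 (.s k41 k56 4 (.s k22 k60 6 (.d k18 k30 k33 1
  4)))), (.s k1 k2 0 (.s k32 k16 3 (.s k33 k18 4 (.s k17 k49 3 (.d k34 k35 k51 0 4))))), (.s k1 k2 0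
  (.s k16 k32 3 (.s k26 k37 6 (.s k21 k31 2 (.d k41 k56 k61 4 5)))))] .n) .n))) (.c k168 (.q k171
  [(.s k26 k37 6 (.s k41 k56 4 (.s k22 k60 6 (.d k18 k30 k33 1 4)))), (.s k1 k2 0 (.s k32 k16 3 (.s
  k33 k18 4 (.s k17 k49 3 (.d k34 k35 k51 0 4))))), (.s k1 k2 0 (.s k16 k32 3 (.s k26 k37 6 (.s k21
  k31 2 (.d k41 k56 k61 4 5)))))] (.c k90 (.q k250 [(.s k26 k37 6 (.s k41 k56 4 (.s k22 k60 6 (.d
  k18 k30 k33 1 4)))), (.s k1 k2 0 (.s k32 k16 3 (.s k33 k18 4 (.s k17 k49 3 (.d k34 k35 k51 0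
  4))))), (.s k1 k2 0 (.s k16 k32 3 (.s k26 k37 6 (.s k21 k31 2 (.d k41 k56 k61 4 5)))))] .n) (.c
  k250 (.q k90 [(.s k80 k95 2 (.d k240 k160 k165 11 14)), (.s k16 k32 3 (.s k26 k37 6 (.d k154 k218
  k223 7 10)))] (.c k240 (.q k245 [(.s k16 k32 3 (.s k154 k223 10 (.d k26 k37 k218 6 7))), (.s k91
  k251 11 (.s k89 k88 0 (.s k81 k93 1 (.d k243 k162 k167 12 13))))] .n) (.c k245 (.l (.s k240 k165
  14 (.d k80 k160 k95 11 2))) .n))) .n))) (.c k171 (.q k168 [(.s k26 k37 6 (.s k41 k56 4 (.s k22 k60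
  6 (.d k18 k30 k33 1 4)))), (.s k1 k2 0 (.s k32 k16 3 (.s k33 k18 4 (.s k17 k49 3 (.d k34 k35 k51 0
  4))))), (.s k1 k2 0 (.s k16 k32 3 (.s k26 k37 6 (.s k21 k31 2 (.d k41 k56 k61 4 5)))))] (.c k90
  (.q k250 [(.s k26 k37 6 (.s k41 k56 4 (.s k22 k60 6 (.d k18 k30 k33 1 4)))), (.s k1 k2 0 (.s k32
  k16 3 (.s k33 k18 4 (.s k17 k49 3 (.d k34 k35 k51 0 4))))), (.s k1 k2 0 (.s k16 k32 3 (.s k26 k37
  6 (.s k21 k31 2 (.d k41 k56 k61 4 5)))))] .n) (.c k250 (.q k90 [(.s k80 k95 2 (.d k240 k160 k165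
  11 14)), (.s k16 k32 3 (.s k26 k37 6 (.d k154 k218 k223 7 10)))] (.c k240 (.q k245 [(.s k16 k32 3
  (.s k154 k223 10 (.d k26 k37 k218 6 7))), (.s k1 k2 0 (.s k32 k16 3 (.s k33 k18 4 (.s k17 k49 3
  (.d k34 k35 k51 0 4))))), (.s k18 k33 4 (.s k26 k37 6 (.s k22 k30 1 (.d k41 k56 k60 4 6))))] .n)
  (.c k245 (.l (.s k240 k165 14 (.d k80 k160 k95 11 2))) .n))) .n))) (.c k250 (.q k90 [(.s k80 k95 2
  (.d k240 k160 k165 11 14)), (.s k16 k32 3 (.s k26 k37 6 (.d k154 k218 k223 7 10)))] (.c k168 (.q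
  k171 [(.s k80 k95 2 (.d k240 k160 k165 11 14)), (.s k16 k32 3 (.s k26 k37 6 (.d k154 k218 k223 7
  10)))] (.c k240 (.q k245 [(.s k16 k32 3 (.s k154 k223 10 (.d k26 k37 k218 6 7))), (.s k91 k251 11
  (.s k89 k88 0 (.s k81 k93 1 (.d k243 k162 k167 12 13))))] .n) (.c k245 (.l (.s k240 k165 14 (.d
  k80 k160 k95 11 2))) .n))) (.c k171 (.q k168 [(.s k80 k95 2 (.d k240 k160 k165 11 14)), (.s k16
  k32 3 (.s k26 k37 6 (.d k154 k218 k223 7 10)))] (.c k240 (.q k245 [(.s k16 k32 3 (.s k154 k223 10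
  (.d k26 k37 k218 6 7))), (.s k1 k2 0 (.s k32 k16 3 (.s k33 k18 4 (.s k17 k49 3 (.d k34 k35 k51 0
  4))))), (.s k18 k33 4 (.s k26 k37 6 (.s k22 k30 1 (.d k41 k56 k60 4 6))))] .n) (.c k245 (.l (.s
  k240 k165 14 (.d k80 k160 k95 11 2))) .n))) (.c k240 (.q k245 [(.s k16 k32 3 (.s k154 k223 10 (.d
  k26 k37 k218 6 7))), (.s k1 k2 0 (.s k32 k16 3 (.s k33 k18 4 (.s k17 k49 3 (.d k34 k35 k51 0
  4))))), (.s k18 k33 4 (.s k26 k37 6 (.s k22 k30 1 (.d k41 k56 k60 4 6))))] (.c k168 (.q k171 [(.s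
  k16 k32 3 (.s k154 k223 10 (.d k26 k37 k218 6 7))), (.s k91 k251 11 (.s k89 k88 0 (.s k81 k93 1
  (.d k243 k162 k167 12 13))))] .n) (.c k171 (.q k168 [(.s k16 k32 3 (.s k154 k223 10 (.d k26 k37
  k218 6 7))), (.s k1 k2 0 (.s k32 k16 3 (.s k33 k18 4 (.s k17 k49 3 (.d k34 k35 k51 0 4))))), (.s
  k18 k33 4 (.s k26 k37 6 (.s k22 k30 1 (.d k41 k56 k60 4 6))))] .n) .n))) (.c k245 (.l (.s k240
  k165 14 (.d k80 k160 k95 11 2))) .n))))) .n)))))) (.c k11 (.f k5 k10 2 (.f k165 k245 11 (.f k1 k2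
  0 (.f k9 k13 1 (.f k6 k12 2 (.l (.s k4 k7 0 (.s k166 k247 12 (.s k167 k164 0 (.s k243 k91 13 (.s
  k81 k162 12 (.s k161 k241 11 (.d k240 k82 k90 12 14))))))))))))) (.c k168 (.q k171 [(.s k2 k1 0
  (.s k10 k5 2 (.s k6 k14 1 (.s k9 k12 2 (.d k11 k8 k7 0 1))))), (.s k11 k7 1 (.s k91 k251 11 (.s
  k243 k167 13 (.s k81 k162 12 (.s k83 k163 11 (.s k80 k82 0 (.d k95 k87 k90 1 2))))))), (.s k5 k10
  2 (.s k7 k11 1 (.s k165 k245 11 (.s k86 k244 12 (.s k87 k84 0 (.s k247 k167 11 (.d k4 k6 k166 0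
  12)))))))] (.c k7 (.f k1 k2 0 (.l (.s k5 k10 2 (.s k13 k9 1 (.s k165 k245 11 (.s k89 k241 13 (.s
  k81 k93 1 (.s k243 k162 12 (.d k12 k14 k166 0 14))))))))) (.c k8 (.l (.s k1 k2 0 (.s k5 k10 2 (.s
  k7 k11 1 (.s k9 k13 1 (.d k6 k4 k12 0 2)))))) (.c k11 (.q k90 [(.s k80 k95 2 (.d k240 k160 k165 11
  14)), (.s k2 k1 0 (.s k10 k5 2 (.s k14 k6 1 (.s k166 k242 13 (.s k4 k247 12 (.d k12 k13 k8 0
  1))))))] .n) .n)))) (.c k171 (.q k168 [(.s k2 k1 0 (.s k10 k5 2 (.s k6 k14 1 (.s k9 k12 2 (.d k11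
  k8 k7 0 1))))), (.s k5 k10 2 (.s k84 k252 13 (.s k86 k87 0 (.s k165 k245 11 (.d k7 k11 k244 1
  12)))))] (.c k5 (.q k4 [(.s k84 k252 13 (.s k86 k87 0 (.s k244 k164 11 (.d k7 k11 k165 1 12)))),
  (.s k12 k8 1 (.s k14 k13 0 (.s k166 k247 12 (.s k90 k242 13 (.s k80 k95 2 (.d k240 k160 k165 11
  14))))))] (.c k165 (.l (.s k7 k11 1 (.s k84 k252 13 (.s k87 k86 0 (.d k247 k167 k166 11 12)))))
  .n)) (.c k7 (.f k1 k2 0 (.l (.s k5 k10 2 (.s k13 k9 1 (.s k165 k245 11 (.s k89 k241 13 (.s k81 k93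
  1 (.s k243 k162 12 (.d k12 k14 k166 0 14))))))))) (.c k10 (.l (.s k7 k11 1 (.s k84 k252 13 (.s k86
  k87 0 (.s k244 k165 12 (.s k4 k164 11 (.s k6 k5 0 (.d k12 k8 k9 1 2)))))))) (.c k11 (.f k1 k2 0
  (.l (.s k5 k10 2 (.s k9 k13 1 (.s k6 k12 2 (.s k4 k7 0 (.s k84 k252 13 (.s k86 k87 0 (.d k166 k247
  k246 12 11))))))))) .n))))) .n))))))))))

def s170_255_171 : T TT 256 :=
  (.q k65 [(.s k2 k1 0 (.s k130 k195 8 (.s k66 k194 7 (.s k64 k67 0 (.d k192 k128 k129 7 8))))), (.s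
  k1 k2 0 (.s k105 k125 5 (.s k169 k253 13 (.s k41 k233 7 (.s k61 k21 5 (.d k193 k129 k149 7
  13)))))), (.s k105 k125 5 (.s k195 k130 8 (.s k67 k131 7 (.s k86 k124 6 (.s k84 k87 0 (.d k252
  k168 k169 13 14))))))] (.c k129 (.l (.s k1 k2 0 (.s k105 k125 5 (.s k169 k253 13 (.s k41 k233 7
  (.s k60 k22 6 (.d k195 k130 k150 8 14))))))) (.c k168 (.q k169 [(.d k1 k2 k253 0 13), (.s k105
  k125 5 (.s k41 k233 7 (.s k60 k22 6 (.d k195 k130 k150 8 14))))] .n) (.c k169 (.q k168 [(.s k2 k1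
  0 (.s k130 k195 8 (.s k66 k194 7 (.s k64 k67 0 (.d k192 k128 k129 7 8))))), (.s k84 k252 13 (.s
  k86 k87 0 (.s k105 k125 5 (.s k67 k124 6 (.d k195 k131 k130 7 8))))), (.s k1 k2 0 (.s k84 k252 13
  (.s k86 k87 0 (.s k105 k125 5 (.s k67 k124 6 (.s k66 k64 0 (.d k129 k193 k192 7 8)))))))] (.c k67
  (.l (.s k1 k2 0 (.s k129 k193 7 (.s k130 k195 8 (.s k128 k131 0 (.d k192 k64 k66 7 8)))))) .n))
  .n))))

def s170_255_172 : T TT 256 :=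
  (.q k5 [(.s k2 k1 0 (.s k10 k15 2 (.s k6 k14 1 (.s k4 k7 0 (.d k12 k8 k9 1 2))))), (.s k1 k2 0 (.s
  k13 k9 1 (.s k165 k245 11 (.s k89 k241 13 (.s k93 k81 1 (.d k253 k173 k169 11 13)))))), (.s k15
  k10 2 (.s k7 k11 1 (.s k165 k245 11 (.s k86 k244 12 (.s k84 k87 0 (.d k252 k168 k169 13 14))))))]
  (.c k9 (.l (.s k1 k2 0 (.s k15 k10 2 (.s k11 k7 1 (.s k165 k245 11 (.s k169 k253 13 (.d k90 k240
  k248 14 12))))))) .n))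

def s170_255_173 : T TT 256 :=
  (.q k12 [(.s k2 k1 0 (.s k4 k8 1 (.s k6 k9 2 (.s k10 k14 1 (.d k5 k7 k15 0 2))))), (.s k1 k2 0 (.s
  k4 k8 1 (.s k166 k247 12 (.s k169 k253 13 (.s k163 k172 2 (.d k243 k89 k83 14 11)))))), (.s k4 k8
  1 (.s k6 k9 2 (.s k166 k247 12 (.s k86 k246 11 (.s k84 k87 0 (.d k252 k168 k169 13 14)))))), (.s
  k1 k2 0 (.s k9 k6 2 (.s k169 k253 13 (.s k89 k249 11 (.s k243 k166 14 (.d k81 k93 k162 1 12))))))]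
  (.c k89 (.l (.s k1 k2 0 (.s k8 k4 1 (.s k9 k6 2 (.s k5 k13 1 (.d k10 k11 k15 0 2)))))) .n))

def s170_255_174 : T TT 256 :=
  (.q k12 [(.s k1 k2 0 (.s k8 k4 1 (.s k9 k6 2 (.s k5 k13 1 (.d k10 k11 k15 0 2))))), (.s k1 k2 0
  (.s k4 k8 1 (.s k166 k247 12 (.s k169 k253 13 (.s k163 k172 2 (.d k243 k89 k83 14 11)))))), (.s k4
  k8 1 (.s k6 k9 2 (.s k166 k247 12 (.s k86 k246 11 (.s k84 k87 0 (.d k252 k168 k169 13 14)))))),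
  (.s k1 k2 0 (.s k9 k6 2 (.s k169 k253 13 (.s k89 k249 11 (.s k81 k93 1 (.d k243 k162 k166 12
  14))))))] (.c k86 (.l (.s k2 k1 0 (.s k4 k8 1 (.s k6 k9 2 (.s k5 k7 0 (.d k10 k14 k15 1 2))))))
  (.c k162 (.q k166 [(.d k4 k8 k247 1 12), (.s k1 k2 0 (.s k6 k9 2 (.s k86 k246 11 (.d k169 k253
  k252 13 14))))] .n) (.c k166 (.q k162 [(.s k2 k1 0 (.s k4 k8 1 (.s k6 k9 2 (.s k5 k7 0 (.d k10 k14
  k15 1 2))))), (.s k1 k2 0 (.s k81 k243 12 (.s k161 k241 11 (.s k160 k163 0 (.d k240 k80 k82 11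
  12)))))] (.c k1 (.q k2 [(.s k4 k8 1 (.s k6 k9 2 (.s k5 k7 0 (.d k10 k14 k15 1 2)))), (.s k243 k81
  12 (.s k163 k83 11 (.s k161 k160 0 (.d k82 k242 k240 11 12))))] .n) (.c k2 (.l (.s k9 k6 2 (.s k81
  k243 12 (.s k89 k93 1 (.s k169 k249 11 (.s k1 k253 13 (.s k13 k5 1 (.d k241 k161 k165 11
  13)))))))) (.c k251 (.l (.s k1 k2 0 (.s k8 k4 1 (.s k9 k6 2 (.s k5 k13 1 (.d k10 k11 k15 0 2))))))
  .n)))) .n))))

def s170_255_175 : T TT 256 :=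
  (.q k165 [(.s k1 k2 0 (.s k5 k245 11 (.s k9 k13 1 (.s k12 k6 2 (.s k8 k4 1 (.d k10 k15 k11 2
  0)))))), (.s k1 k2 0 (.s k169 k253 13 (.s k161 k173 1 (.s k240 k82 12 (.s k80 k160 11 (.d k90 k95
  k15 2 14)))))), (.s k5 k245 11 (.s k15 k10 2 (.s k7 k11 1 (.s k86 k244 12 (.s k84 k87 0 (.d k252
  k168 k169 13 14))))))] (.c k15 (.q k95 [(.s k1 k2 0 (.s k80 k90 2 (.s k169 k253 13 (.s k240 k160
  11 (.d k161 k173 k82 1 12))))), (.s k1 k2 0 (.s k245 k5 11 (.s k253 k169 13 (.s k241 k249 1 (.s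
  k81 k161 11 (.d k89 k93 k13 1 13)))))), (.s k80 k90 2 (.s k240 k160 11 (.s k82 k161 12 (.s k81 k83
  0 (.s k89 k93 1 (.s k241 k13 13 (.d k243 k162 k242 12 0)))))))] (.c k161 (.l (.s k1 k2 0 (.s k5
  k245 11 (.s k13 k9 1 (.s k89 k241 13 (.s k93 k81 1 (.d k253 k173 k169 11 13))))))) (.c k253 (.l
  (.s k2 k1 0 (.s k80 k90 2 (.s k240 k160 11 (.s k82 k161 12 (.s k81 k83 0 (.d k162 k242 k243 11
  12))))))) .n))) (.c k86 (.l (.s k5 k245 11 (.s k15 k10 2 (.s k7 k11 1 (.s k6 k4 0 (.s k9 k12 2 (.d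
  k1 k2 k13 0 1))))))) (.c k95 (.q k15 [(.d k5 k10 k245 2 11), (.s k1 k2 0 (.s k7 k11 1 (.s k86 k244
  12 (.d k169 k253 k252 13 14))))] .n) (.c k240 (.l (.s k1 k2 0 (.s k169 k253 13 (.s k161 k173 1 (.s
  k241 k81 11 (.s k13 k89 13 (.d k5 k9 k245 1 11))))))) .n)))))

def s170_255_176 : T TT 256 :=
  (.q k5 [(.s k2 k1 0 (.s k10 k15 2 (.s k6 k14 1 (.s k4 k7 0 (.d k12 k8 k9 1 2))))), (.s k1 k2 0 (.s
  k13 k9 1 (.s k165 k245 11 (.s k89 k241 13 (.s k93 k81 1 (.d k253 k173 k169 11 13)))))), (.s k15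
  k10 2 (.s k7 k11 1 (.s k165 k245 11 (.s k86 k244 12 (.s k84 k87 0 (.d k252 k168 k169 13 14))))))]
  (.c k9 (.l (.s k1 k2 0 (.s k15 k10 2 (.s k11 k7 1 (.s k165 k245 11 (.s k169 k253 13 (.d k90 k240
  k248 14 12))))))) .n))

def s170_255_177 : T TT 256 :=
  (.q k5 [(.s k2 k1 0 (.s k10 k15 2 (.s k6 k14 1 (.s k4 k7 0 (.d k12 k8 k9 1 2))))), (.s k1 k2 0 (.s
  k13 k9 1 (.s k165 k245 11 (.s k89 k241 13 (.s k93 k81 1 (.d k253 k173 k169 11 13)))))), (.s k15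
  k10 2 (.s k7 k11 1 (.s k165 k245 11 (.s k86 k244 12 (.s k84 k87 0 (.d k252 k168 k169 13 14))))))]
  (.c k9 (.l (.s k1 k2 0 (.s k15 k10 2 (.s k11 k7 1 (.s k165 k245 11 (.s k169 k253 13 (.d k90 k240
  k248 14 12))))))) .n))

def s170_255_178 : T TT 256 :=
  (.q k5 [(.s k2 k1 0 (.s k10 k15 2 (.s k6 k14 1 (.s k4 k7 0 (.d k12 k8 k9 1 2))))), (.s k1 k2 0 (.s
  k13 k9 1 (.s k165 k245 11 (.s k89 k241 13 (.s k93 k81 1 (.d k253 k173 k169 11 13)))))), (.s k15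
  k10 2 (.s k7 k11 1 (.s k165 k245 11 (.s k86 k244 12 (.s k84 k87 0 (.d k252 k168 k169 13 14))))))]
  (.c k9 (.l (.s k1 k2 0 (.s k15 k10 2 (.s k11 k7 1 (.s k165 k245 11 (.s k169 k253 13 (.d k90 k240
  k248 14 12))))))) .n))

def s170_255_179 : T TT 256 :=
  (.q k5 [(.s k2 k1 0 (.s k10 k15 2 (.s k6 k14 1 (.s k4 k7 0 (.d k12 k8 k9 1 2))))), (.s k1 k2 0 (.s
  k13 k9 1 (.s k165 k245 11 (.s k89 k241 13 (.s k93 k81 1 (.d k253 k173 k169 11 13)))))), (.s k15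
  k10 2 (.s k7 k11 1 (.s k165 k245 11 (.s k86 k244 12 (.s k84 k87 0 (.d k252 k168 k169 13 14))))))]
  (.c k9 (.l (.s k1 k2 0 (.s k15 k10 2 (.s k11 k7 1 (.s k165 k245 11 (.s k169 k253 13 (.d k90 k240
  k248 14 12))))))) .n))

def s170_255_180 : T TT 256 :=
  (.q k5 [(.s k2 k1 0 (.s k10 k15 2 (.s k6 k14 1 (.s k4 k7 0 (.d k12 k8 k9 1 2))))), (.s k1 k2 0 (.s
  k13 k9 1 (.s k165 k245 11 (.s k89 k241 13 (.s k93 k81 1 (.d k253 k173 k169 11 13)))))), (.s k15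
  k10 2 (.s k7 k11 1 (.s k165 k245 11 (.s k86 k244 12 (.s k84 k87 0 (.d k252 k168 k169 13 14))))))]
  (.c k9 (.l (.s k1 k2 0 (.s k15 k10 2 (.s k11 k7 1 (.s k165 k245 11 (.s k169 k253 13 (.d k90 k240
  k248 14 12))))))) .n))

def s170_255_181 : T TT 256 :=
  (.q k5 [(.s k2 k1 0 (.s k10 k15 2 (.s k6 k14 1 (.s k4 k7 0 (.d k12 k8 k9 1 2))))), (.s k1 k2 0 (.s
  k13 k9 1 (.s k165 k245 11 (.s k89 k241 13 (.s k93 k81 1 (.d k253 k173 k169 11 13)))))), (.s k15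
  k10 2 (.s k7 k11 1 (.s k165 k245 11 (.s k86 k244 12 (.s k84 k87 0 (.d k252 k168 k169 13 14))))))]
  (.c k9 (.l (.s k1 k2 0 (.s k15 k10 2 (.s k11 k7 1 (.s k165 k245 11 (.s k169 k253 13 (.d k90 k240
  k248 14 12))))))) .n))

def s170_255_182 : T TT 256 :=
  (.q k5 [(.s k2 k1 0 (.s k10 k15 2 (.s k6 k14 1 (.s k4 k7 0 (.d k12 k8 k9 1 2))))), (.s k1 k2 0 (.s
  k13 k9 1 (.s k165 k245 11 (.s k89 k241 13 (.s k93 k81 1 (.d k253 k173 k169 11 13)))))), (.s k15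
  k10 2 (.s k7 k11 1 (.s k165 k245 11 (.s k86 k244 12 (.s k84 k87 0 (.d k252 k168 k169 13 14))))))]
  (.c k9 (.l (.s k1 k2 0 (.s k15 k10 2 (.s k11 k7 1 (.s k165 k245 11 (.s k169 k253 13 (.d k90 k240
  k248 14 12))))))) .n))

def s170_255_183 : T TT 256 :=
  (.q k5 [(.s k2 k1 0 (.s k10 k15 2 (.s k6 k14 1 (.s k4 k7 0 (.d k12 k8 k9 1 2))))), (.s k1 k2 0 (.s
  k13 k9 1 (.s k165 k245 11 (.s k89 k241 13 (.s k93 k81 1 (.d k253 k173 k169 11 13)))))), (.s k15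
  k10 2 (.s k7 k11 1 (.s k165 k245 11 (.s k86 k244 12 (.s k84 k87 0 (.d k252 k168 k169 13 14))))))]
  (.c k9 (.l (.s k1 k2 0 (.s k15 k10 2 (.s k11 k7 1 (.s k165 k245 11 (.s k169 k253 13 (.d k90 k240
  k248 14 12))))))) .n))

def s170_255_184 : T TT 256 :=
  (.q k5 [(.s k2 k1 0 (.s k10 k15 2 (.s k6 k14 1 (.s k4 k7 0 (.d k12 k8 k9 1 2))))), (.s k1 k2 0 (.s
  k13 k9 1 (.s k165 k245 11 (.s k89 k241 13 (.s k93 k81 1 (.d k253 k173 k169 11 13)))))), (.s k15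
  k10 2 (.s k7 k11 1 (.s k165 k245 11 (.s k86 k244 12 (.s k84 k87 0 (.d k252 k168 k169 13 14))))))]
  (.c k9 (.l (.s k1 k2 0 (.s k15 k10 2 (.s k11 k7 1 (.s k165 k245 11 (.s k169 k253 13 (.d k90 k240
  k248 14 12))))))) .n))

def s170_255_185 : T TT 256 :=
  (.q k5 [(.s k2 k1 0 (.s k10 k15 2 (.s k6 k14 1 (.s k4 k7 0 (.d k12 k8 k9 1 2))))), (.s k1 k2 0 (.s
  k13 k9 1 (.s k165 k245 11 (.s k89 k241 13 (.s k93 k81 1 (.d k253 k173 k169 11 13)))))), (.s k15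
  k10 2 (.s k7 k11 1 (.s k165 k245 11 (.s k86 k244 12 (.s k84 k87 0 (.d k252 k168 k169 13 14))))))]
  (.c k9 (.l (.s k1 k2 0 (.s k15 k10 2 (.s k11 k7 1 (.s k165 k245 11 (.s k169 k253 13 (.d k90 k240
  k248 14 12))))))) .n))

def s170_255_186 : T TT 256 :=
  (.q k48 [(.s k1 k2 0 (.s k32 k16 3 (.s k33 k18 4 (.s k17 k49 3 (.d k34 k35 k51 0 4))))), (.s k1 k2
  0 (.s k16 k32 3 (.s k154 k223 10 (.s k169 k253 13 (.s k139 k184 4 (.d k207 k101 k71 14 9)))))),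
  (.s k16 k32 3 (.s k18 k33 4 (.s k154 k223 10 (.s k86 k222 9 (.s k84 k87 0 (.d k252 k168 k169 13
  14)))))), (.s k1 k2 0 (.s k33 k18 4 (.s k169 k253 13 (.s k101 k237 9 (.s k69 k117 3 (.d k207 k138
  k154 10 14))))))] (.c k86 (.l (.s k2 k1 0 (.s k16 k32 3 (.s k18 k33 4 (.s k17 k19 0 (.d k34 k50
  k51 3 4)))))) (.c k138 (.q k154 [(.d k16 k32 k223 3 10), (.s k1 k2 0 (.s k18 k33 4 (.s k86 k222 9
  (.d k169 k253 k252 13 14))))] .n) (.c k154 (.q k138 [(.s k2 k1 0 (.s k16 k32 3 (.s k18 k33 4 (.s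
  k17 k19 0 (.d k34 k50 k51 3 4))))), (.s k1 k2 0 (.s k69 k207 10 (.s k137 k205 9 (.s k136 k139 0
  (.d k204 k68 k70 9 10)))))] (.c k1 (.q k2 [(.s k16 k32 3 (.s k18 k33 4 (.s k17 k19 0 (.d k34 k50
  k51 3 4)))), (.s k207 k69 10 (.s k139 k71 9 (.s k137 k136 0 (.d k70 k206 k204 9 10))))] .n) (.c k2
  (.l (.s k33 k18 4 (.s k69 k207 10 (.s k101 k117 3 (.s k169 k237 9 (.s k1 k253 13 (.s k49 k17 3 (.d
  k205 k137 k153 9 13)))))))) (.c k239 (.l (.s k1 k2 0 (.s k32 k16 3 (.s k33 k18 4 (.s k17 k49 3 (.d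
  k34 k35 k51 0 4)))))) .n)))) .n))))

def s170_255_187 : T TT 256 :=
  (.q k153 [(.s k1 k2 0 (.s k17 k221 9 (.s k33 k49 3 (.s k48 k18 4 (.s k32 k16 3 (.d k34 k51 k35 4
  0)))))), (.s k1 k2 0 (.s k169 k253 13 (.s k137 k185 3 (.s k204 k70 10 (.s k68 k136 9 (.d k102 k119
  k51 4 14)))))), (.s k17 k221 9 (.s k51 k34 4 (.s k19 k35 3 (.s k86 k220 10 (.s k84 k87 0 (.d k252
  k168 k169 13 14))))))] (.c k51 (.q k119 [(.s k1 k2 0 (.s k68 k102 4 (.s k169 k253 13 (.s k204 k136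
  9 (.d k137 k185 k70 3 10))))), (.s k1 k2 0 (.s k221 k17 9 (.s k253 k169 13 (.s k205 k237 3 (.s k69
  k137 9 (.d k101 k117 k49 3 13)))))), (.s k68 k102 4 (.s k204 k136 9 (.s k70 k137 10 (.s k69 k71 0
  (.s k101 k117 3 (.s k205 k49 13 (.d k207 k138 k206 10 0)))))))] (.c k137 (.l (.s k1 k2 0 (.s k17
  k221 9 (.s k49 k33 3 (.s k101 k205 13 (.s k117 k69 3 (.d k253 k185 k169 9 13))))))) (.c k253 (.l
  (.s k2 k1 0 (.s k68 k102 4 (.s k204 k136 9 (.s k70 k137 10 (.s k69 k71 0 (.d k138 k206 k207 9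
  10))))))) .n))) (.c k86 (.l (.s k17 k221 9 (.s k51 k34 4 (.s k19 k35 3 (.s k18 k16 0 (.s k33 k48 4
  (.d k1 k2 k49 0 3))))))) (.c k119 (.q k51 [(.d k17 k34 k221 4 9), (.s k1 k2 0 (.s k19 k35 3 (.s
  k86 k220 10 (.d k169 k253 k252 13 14))))] .n) (.c k204 (.l (.s k1 k2 0 (.s k169 k253 13 (.s k137
  k185 3 (.s k205 k69 9 (.s k49 k101 13 (.d k17 k33 k221 3 9))))))) .n)))))

def s170_255_188 : T TT 256 :=
  (.q k5 [(.s k2 k1 0 (.s k10 k15 2 (.s k6 k14 1 (.s k4 k7 0 (.d k12 k8 k9 1 2))))), (.s k1 k2 0 (.s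
  k13 k9 1 (.s k165 k245 11 (.s k89 k241 13 (.s k93 k81 1 (.d k253 k173 k169 11 13)))))), (.s k15
  k10 2 (.s k7 k11 1 (.s k165 k245 11 (.s k86 k244 12 (.s k84 k87 0 (.d k252 k168 k169 13 14))))))]
  (.c k9 (.l (.s k1 k2 0 (.s k15 k10 2 (.s k11 k7 1 (.s k165 k245 11 (.s k169 k253 13 (.d k90 k240
  k248 14 12))))))) .n))

def s170_255_189 : T TT 256 :=
  (.q k5 [(.s k2 k1 0 (.s k10 k15 2 (.s k6 k14 1 (.s k4 k7 0 (.d k12 k8 k9 1 2))))), (.s k1 k2 0 (.s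
  k13 k9 1 (.s k165 k245 11 (.s k89 k241 13 (.s k93 k81 1 (.d k253 k173 k169 11 13)))))), (.s k15
  k10 2 (.s k7 k11 1 (.s k165 k245 11 (.s k86 k244 12 (.s k84 k87 0 (.d k252 k168 k169 13 14))))))]
  (.c k9 (.l (.s k1 k2 0 (.s k15 k10 2 (.s k11 k7 1 (.s k165 k245 11 (.s k169 k253 13 (.d k90 k240
  k248 14 12))))))) .n))

def s170_255_190 : T TT 256 :=
  (.q k60 [(.s k1 k2 0 (.s k40 k20 5 (.s k41 k22 6 (.s k21 k61 5 (.d k42 k43 k63 0 6))))), (.s k1 k2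
  0 (.s k20 k40 5 (.s k150 k215 8 (.s k169 k253 13 (.s k131 k188 6 (.d k195 k105 k67 14 7)))))), (.s
  k20 k40 5 (.s k22 k41 6 (.s k150 k215 8 (.s k86 k214 7 (.s k84 k87 0 (.d k252 k168 k169 13
  14)))))), (.s k1 k2 0 (.s k41 k22 6 (.s k169 k253 13 (.s k105 k233 7 (.s k65 k125 5 (.d k195 k130
  k150 8 14))))))] (.c k86 (.l (.s k2 k1 0 (.s k20 k40 5 (.s k22 k41 6 (.s k21 k23 0 (.d k42 k62 k63
  5 6)))))) (.c k130 (.q k150 [(.d k20 k40 k215 5 8), (.s k1 k2 0 (.s k22 k41 6 (.s k86 k214 7 (.d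
  k169 k253 k252 13 14))))] .n) (.c k150 (.q k130 [(.s k2 k1 0 (.s k20 k40 5 (.s k22 k41 6 (.s k21
  k23 0 (.d k42 k62 k63 5 6))))), (.s k1 k2 0 (.s k65 k195 8 (.s k129 k193 7 (.s k128 k131 0 (.d
  k192 k64 k66 7 8)))))] (.c k1 (.q k2 [(.s k20 k40 5 (.s k22 k41 6 (.s k21 k23 0 (.d k42 k62 k63 5
  6)))), (.s k195 k65 8 (.s k131 k67 7 (.s k129 k128 0 (.d k66 k194 k192 7 8))))] .n) (.c k2 (.l (.s
  k41 k22 6 (.s k65 k195 8 (.s k105 k125 5 (.s k169 k233 7 (.s k1 k253 13 (.s k61 k21 5 (.d k193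
  k129 k149 7 13)))))))) (.c k235 (.l (.s k1 k2 0 (.s k40 k20 5 (.s k41 k22 6 (.s k21 k61 5 (.d k42
  k43 k63 0 6)))))) .n)))) .n))))

def s170_255_191 : T TT 256 :=
  (.q k63 [(.s k2 k1 0 (.s k42 k21 6 (.s k22 k62 5 (.s k41 k60 6 (.d k43 k40 k23 0 5))))), (.s k1 k2
  0 (.s k43 k23 5 (.s k169 k253 13 (.s k106 k232 8 (.s k64 k127 6 (.d k192 k128 k149 7 14)))))), (.s
  k21 k42 6 (.s k23 k43 5 (.s k149 k213 7 (.s k86 k212 8 (.s k84 k87 0 (.d k252 k168 k169 13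
  14)))))), (.s k1 k2 0 (.s k21 k42 6 (.s k149 k213 7 (.s k169 k253 13 (.s k129 k189 5 (.d k192 k106
  k66 14 8))))))] (.c k128 (.q k149 [(.d k21 k42 k213 6 7), (.s k1 k2 0 (.s k23 k43 5 (.s k86 k212 8
  (.d k169 k253 k252 13 14))))] .n) (.c k149 (.q k128 [(.s k2 k1 0 (.s k42 k21 6 (.s k22 k62 5 (.s
  k41 k60 6 (.d k43 k40 k23 0 5))))), (.s k1 k2 0 (.s k192 k64 7 (.s k129 k66 8 (.s k65 k193 7 (.d
  k130 k131 k195 0 8)))))] (.c k1 (.q k4 [(.s k12 k8 1 (.s k46 k29 4 (.s k166 k247 12 (.s k106 k226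
  9 (.d k64 k127 k192 6 7))))), (.s k21 k42 6 (.s k23 k43 5 (.s k55 k38 4 (.s k7 k39 3 (.s k5 k6 0
  (.d k15 k11 k10 1 2)))))), (.s k12 k8 1 (.s k192 k64 7 (.s k132 k72 9 (.s k68 k196 7 (.d k136 k140
  k204 1 9)))))] .n) (.c k2 (.q k86 [(.s k84 k87 0 (.d k252 k168 k169 13 14)), (.s k43 k23 5 (.s k64
  k192 7 (.s k106 k127 6 (.d k169 k232 k252 8 14)))), (.s k21 k42 6 (.s k23 k43 5 (.s k87 k84 0 (.s
  k215 k151 7 (.d k20 k22 k150 0 8)))))] .n) (.c k61 (.l (.s k1 k2 0 (.s k43 k23 5 (.s k64 k192 7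
  (.s k106 k127 6 (.d k169 k232 k253 8 13)))))) .n)))) .n)))

def s170_255_192 : T TT 256 :=
  (.q k153 [(.s k1 k2 0 (.s k17 k221 9 (.s k49 k33 3 (.s k101 k205 13 (.s k117 k69 3 (.d k253 k185
  k169 9 13)))))), (.s k17 k221 9 (.s k51 k34 4 (.s k19 k35 3 (.s k86 k220 10 (.s k84 k87 0 (.d k252
  k168 k169 13 14)))))), (.s k1 k2 0 (.s k169 k253 13 (.s k137 k185 3 (.s k204 k70 10 (.s k68 k136 9
  (.d k102 k119 k51 4 14)))))), (.s k2 k1 0 (.s k17 k221 9 (.s k34 k51 4 (.s k18 k50 3 (.s k16 k19 0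
  (.d k48 k32 k33 3 4))))))] (.c k204 (.l (.s k1 k2 0 (.s k169 k253 13 (.s k137 k185 3 (.s k205 k69
  9 (.s k49 k101 13 (.d k17 k33 k221 3 9))))))) (.c k213 (.q k234 [(.s k1 k2 0 (.s k17 k221 9 (.s
  k49 k33 3 (.s k101 k205 13 (.s k117 k69 3 (.d k253 k185 k169 9 13)))))), (.s k17 k221 9 (.s k51
  k34 4 (.s k19 k35 3 (.s k86 k220 10 (.s k84 k87 0 (.d k252 k168 k169 13 14)))))), (.s k1 k2 0 (.s
  k169 k253 13 (.s k137 k185 3 (.s k204 k70 10 (.s k68 k136 9 (.d k102 k119 k51 4 14)))))), (.s k2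
  k1 0 (.s k17 k221 9 (.s k34 k51 4 (.s k18 k50 3 (.s k16 k19 0 (.d k48 k32 k33 3 4))))))] (.c k204
  (.l (.s k1 k2 0 (.s k169 k253 13 (.s k137 k185 3 (.s k205 k69 9 (.s k49 k101 13 (.d k17 k33 k221 3
  9))))))) .n)) (.c k234 (.q k213 [(.s k149 k21 7 (.s k221 k17 9 (.s k209 k217 1 (.s k29 k89 9 (.d
  k157 k145 k93 1 7))))), (.s k1 k2 0 (.s k21 k149 7 (.s k41 k61 5 (.s k22 k60 6 (.s k23 k20 0 (.d
  k63 k42 k43 6 5)))))), (.s k1 k2 0 (.s k17 k221 9 (.s k33 k49 3 (.s k18 k48 4 (.s k19 k16 0 (.d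
  k51 k35 k34 3 4))))))] (.c k42 (.q k106 [(.s k149 k21 7 (.s k221 k17 9 (.s k209 k217 1 (.s k29 k89
  9 (.d k157 k145 k93 1 7))))), (.s k1 k2 0 (.s k149 k21 7 (.s k169 k253 13 (.s k43 k232 8 (.s k23
  k63 5 (.d k86 k212 k252 8 14)))))), (.s k1 k2 0 (.s k17 k221 9 (.s k33 k49 3 (.s k18 k48 4 (.s k19
  k16 0 (.d k51 k35 k34 3 4))))))] .n) (.c k106 (.q k42 [(.d k21 k63 k149 6 7)] (.c k21 (.l (.s k1
  k2 0 (.s k17 k221 9 (.s k33 k49 3 (.s k18 k48 4 (.s k19 k16 0 (.d k51 k35 k34 3 4))))))) (.c k63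
  (.l (.s k149 k21 7 (.s k157 k145 1 (.s k221 k17 9 (.s k29 k93 7 (.d k209 k217 k89 1 9)))))) (.c
  k149 (.l (.s k63 k21 6 (.s k2 k1 0 (.s k22 k62 5 (.s k41 k60 6 (.d k43 k40 k23 0 5)))))) .n))))
  .n))) .n))))

def s170_255_193 : T TT 256 :=
  (.q k5 [(.s k2 k1 0 (.s k10 k15 2 (.s k6 k14 1 (.s k4 k7 0 (.d k12 k8 k9 1 2))))), (.s k1 k2 0 (.s
  k13 k9 1 (.s k165 k245 11 (.s k89 k241 13 (.s k93 k81 1 (.d k253 k173 k169 11 13)))))), (.s k15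
  k10 2 (.s k7 k11 1 (.s k165 k245 11 (.s k86 k244 12 (.s k84 k87 0 (.d k252 k168 k169 13 14))))))]
  (.c k9 (.l (.s k1 k2 0 (.s k15 k10 2 (.s k11 k7 1 (.s k165 k245 11 (.s k169 k253 13 (.d k90 k240
  k248 14 12))))))) .n))

def s170_255_194 : T TT 256 :=
  (.q k5 [(.s k2 k1 0 (.s k10 k15 2 (.s k6 k14 1 (.s k4 k7 0 (.d k12 k8 k9 1 2))))), (.s k1 k2 0 (.s
  k13 k9 1 (.s k165 k245 11 (.s k89 k241 13 (.s k93 k81 1 (.d k253 k173 k169 11 13)))))), (.s k15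
  k10 2 (.s k7 k11 1 (.s k165 k245 11 (.s k86 k244 12 (.s k84 k87 0 (.d k252 k168 k169 13 14))))))]
  (.c k9 (.l (.s k1 k2 0 (.s k15 k10 2 (.s k11 k7 1 (.s k165 k245 11 (.s k169 k253 13 (.d k90 k240
  k248 14 12))))))) .n))

def s170_255_195 : T TT 256 :=
  (.q k48 [(.s k1 k2 0 (.s k32 k16 3 (.s k33 k18 4 (.s k17 k49 3 (.d k34 k35 k51 0 4))))), (.s k1 k2
  0 (.s k16 k32 3 (.s k154 k223 10 (.s k169 k253 13 (.s k139 k184 4 (.d k207 k101 k71 14 9)))))),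
  (.s k16 k32 3 (.s k18 k33 4 (.s k154 k223 10 (.s k86 k222 9 (.s k84 k87 0 (.d k252 k168 k169 13
  14)))))), (.s k1 k2 0 (.s k33 k18 4 (.s k169 k253 13 (.s k101 k237 9 (.s k69 k117 3 (.d k207 k138
  k154 10 14))))))] (.c k86 (.l (.s k2 k1 0 (.s k16 k32 3 (.s k18 k33 4 (.s k17 k19 0 (.d k34 k50
  k51 3 4)))))) (.c k215 (.q k235 [(.s k1 k2 0 (.s k32 k16 3 (.s k33 k18 4 (.s k17 k49 3 (.d k34 k35
  k51 0 4))))), (.s k1 k2 0 (.s k16 k32 3 (.s k154 k223 10 (.s k169 k253 13 (.s k139 k184 4 (.d k207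
  k101 k71 14 9)))))), (.s k16 k32 3 (.s k18 k33 4 (.s k154 k223 10 (.s k86 k222 9 (.s k84 k87 0 (.d
  k252 k168 k169 13 14)))))), (.s k1 k2 0 (.s k33 k18 4 (.s k169 k253 13 (.s k101 k237 9 (.s k69
  k117 3 (.d k207 k138 k154 10 14))))))] (.c k86 (.l (.s k2 k1 0 (.s k16 k32 3 (.s k18 k33 4 (.s k17
  k19 0 (.d k34 k50 k51 3 4)))))) .n)) (.c k235 (.q k215 [(.s k1 k2 0 (.s k32 k16 3 (.s k33 k18 4
  (.s k17 k49 3 (.d k34 k35 k51 0 4))))), (.s k1 k2 0 (.s k16 k32 3 (.s k154 k223 10 (.s k169 k253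
  13 (.s k139 k184 4 (.d k207 k101 k71 14 9)))))), (.s k16 k32 3 (.s k18 k33 4 (.s k154 k223 10 (.s
  k86 k222 9 (.s k84 k87 0 (.d k252 k168 k169 13 14)))))), (.s k1 k2 0 (.s k33 k18 4 (.s k169 k253
  13 (.s k101 k237 9 (.s k69 k117 3 (.d k207 k138 k154 10 14))))))] (.c k40 (.q k105 [(.s k1 k2 0
  (.s k32 k16 3 (.s k33 k18 4 (.s k17 k49 3 (.d k34 k35 k51 0 4))))), (.s k1 k2 0 (.s k20 k150 8 (.s
  k169 k253 13 (.s k41 k233 7 (.s k21 k61 5 (.d k22 k23 k60 0 6)))))), (.s k16 k32 3 (.s k18 k33 4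
  (.s k154 k223 10 (.s k86 k222 9 (.s k84 k87 0 (.d k252 k168 k169 13 14))))))] (.c k86 (.l (.s k2
  k1 0 (.s k16 k32 3 (.s k18 k33 4 (.s k17 k19 0 (.d k34 k50 k51 3 4)))))) .n)) (.c k86 (.l (.s k2
  k1 0 (.s k16 k32 3 (.s k18 k33 4 (.s k17 k19 0 (.d k34 k50 k51 3 4)))))) (.c k105 (.q k40 [(.d k20
  k60 k150 5 8)] (.c k20 (.l (.s k1 k2 0 (.s k32 k16 3 (.s k33 k18 4 (.s k17 k49 3 (.d k34 k35 k51 0
  4)))))) (.c k60 (.l (.s k150 k20 8 (.s k1 k2 0 (.s k32 k16 3 (.s k33 k18 4 (.s k17 k49 3 (.d k34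
  k35 k51 0 4))))))) (.c k150 (.l (.s k60 k20 5 (.s k1 k2 0 (.s k41 k22 6 (.s k21 k61 5 (.d k42 k43
  k63 0 6)))))) .n)))) .n)))) .n))))

def s170_255_196 : T TT 256 :=
  (.q k5 [(.s k2 k1 0 (.s k10 k15 2 (.s k6 k14 1 (.s k12 k9 2 (.d k4 k7 k8 0 1))))), (.s k1 k2 0 (.s
  k13 k9 1 (.s k165 k245 11 (.s k89 k241 13 (.s k93 k81 1 (.d k253 k173 k169 11 13)))))), (.s k15
  k10 2 (.s k7 k11 1 (.s k165 k245 11 (.s k86 k244 12 (.s k84 k87 0 (.d k252 k168 k169 13 14))))))]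
  (.c k9 (.l (.s k1 k2 0 (.s k15 k10 2 (.s k11 k7 1 (.s k165 k245 11 (.s k169 k253 13 (.d k90 k240
  k248 14 12))))))) .n))

def s170_255_197 : T TT 256 :=
  (.q k5 [(.s k2 k1 0 (.s k10 k15 2 (.s k6 k14 1 (.s k4 k7 0 (.d k12 k8 k9 1 2))))), (.s k1 k2 0 (.s
  k13 k9 1 (.s k165 k245 11 (.s k89 k241 13 (.s k93 k81 1 (.d k253 k173 k169 11 13)))))), (.s k15
  k10 2 (.s k7 k11 1 (.s k165 k245 11 (.s k86 k244 12 (.s k84 k87 0 (.d k252 k168 k169 13 14))))))]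
  (.c k9 (.l (.s k1 k2 0 (.s k15 k10 2 (.s k11 k7 1 (.s k165 k245 11 (.s k169 k253 13 (.d k90 k240
  k248 14 12))))))) .n))

def s170_255_198 : T TT 256 :=
  (.q k5 [(.s k2 k1 0 (.s k10 k15 2 (.s k6 k14 1 (.s k4 k7 0 (.d k12 k8 k9 1 2))))), (.s k1 k2 0 (.s
  k13 k9 1 (.s k165 k245 11 (.s k89 k241 13 (.s k93 k81 1 (.d k253 k173 k169 11 13)))))), (.s k15
  k10 2 (.s k7 k11 1 (.s k165 k245 11 (.s k86 k244 12 (.s k84 k87 0 (.d k252 k168 k169 13 14))))))]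
  (.c k9 (.l (.s k1 k2 0 (.s k15 k10 2 (.s k11 k7 1 (.s k165 k245 11 (.s k169 k253 13 (.d k90 k240
  k248 14 12))))))) .n))

def s170_255_199 : T TT 256 :=
  (.q k5 [(.s k2 k1 0 (.s k10 k15 2 (.s k6 k14 1 (.s k12 k9 2 (.d k4 k7 k8 0 1))))), (.s k1 k2 0 (.s
  k13 k9 1 (.s k165 k245 11 (.s k89 k241 13 (.s k93 k81 1 (.d k253 k173 k169 11 13)))))), (.s k15
  k10 2 (.s k7 k11 1 (.s k165 k245 11 (.s k86 k244 12 (.s k84 k87 0 (.d k252 k168 k169 13 14))))))]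
  (.c k9 (.l (.s k1 k2 0 (.s k15 k10 2 (.s k11 k7 1 (.s k165 k245 11 (.s k169 k253 13 (.d k90 k240
  k248 14 12))))))) .n))

def s170_255_200 : T TT 256 :=
  (.q k5 [(.s k2 k1 0 (.s k10 k15 2 (.s k6 k14 1 (.s k4 k7 0 (.d k12 k8 k9 1 2))))), (.s k1 k2 0 (.s
  k13 k9 1 (.s k165 k245 11 (.s k89 k241 13 (.s k93 k81 1 (.d k253 k173 k169 11 13)))))), (.s k15
  k10 2 (.s k7 k11 1 (.s k165 k245 11 (.s k86 k244 12 (.s k84 k87 0 (.d k252 k168 k169 13 14))))))]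
  (.c k9 (.l (.s k1 k2 0 (.s k15 k10 2 (.s k11 k7 1 (.s k165 k245 11 (.s k169 k253 13 (.d k90 k240
  k248 14 12))))))) .n))

def s170_255_201 : T TT 256 :=
  (.q k5 [(.s k2 k1 0 (.s k10 k15 2 (.s k6 k14 1 (.s k4 k7 0 (.d k12 k8 k9 1 2))))), (.s k1 k2 0 (.s
  k13 k9 1 (.s k165 k245 11 (.s k89 k241 13 (.s k93 k81 1 (.d k253 k173 k169 11 13)))))), (.s k15
  k10 2 (.s k7 k11 1 (.s k165 k245 11 (.s k86 k244 12 (.s k84 k87 0 (.d k252 k168 k169 13 14))))))]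
  (.c k9 (.l (.s k1 k2 0 (.s k15 k10 2 (.s k11 k7 1 (.s k165 k245 11 (.s k169 k253 13 (.d k90 k240
  k248 14 12))))))) .n))

def s170_255_202 : T TT 256 :=
  (.q k5 [(.s k2 k1 0 (.s k10 k15 2 (.s k6 k14 1 (.s k4 k7 0 (.d k12 k8 k9 1 2))))), (.s k1 k2 0 (.s
  k13 k9 1 (.s k165 k245 11 (.s k89 k241 13 (.s k93 k81 1 (.d k253 k173 k169 11 13)))))), (.s k15
  k10 2 (.s k7 k11 1 (.s k165 k245 11 (.s k86 k244 12 (.s k84 k87 0 (.d k252 k168 k169 13 14))))))]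
  (.c k9 (.l (.s k1 k2 0 (.s k15 k10 2 (.s k11 k7 1 (.s k165 k245 11 (.s k169 k253 13 (.d k90 k240
  k248 14 12))))))) .n))

def s170_255_203 : T TT 256 :=
  (.q k5 [(.s k2 k1 0 (.s k10 k15 2 (.s k6 k14 1 (.s k4 k7 0 (.d k12 k8 k9 1 2))))), (.s k1 k2 0 (.s
  k13 k9 1 (.s k165 k245 11 (.s k89 k241 13 (.s k93 k81 1 (.d k253 k173 k169 11 13)))))), (.s k15
  k10 2 (.s k7 k11 1 (.s k165 k245 11 (.s k86 k244 12 (.s k84 k87 0 (.d k252 k168 k169 13 14))))))]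
  (.c k9 (.l (.s k1 k2 0 (.s k15 k10 2 (.s k11 k7 1 (.s k165 k245 11 (.s k169 k253 13 (.d k90 k240
  k248 14 12))))))) .n))

def s170_255_204 : T TT 256 :=
  (.q k149 [(.s k1 k2 0 (.s k21 k213 7 (.s k61 k41 5 (.s k105 k193 13 (.s k125 k65 5 (.d k253 k189
  k169 7 13)))))), (.s k21 k213 7 (.s k63 k42 6 (.s k23 k43 5 (.s k86 k212 8 (.s k84 k87 0 (.d k252
  k168 k169 13 14)))))), (.s k1 k2 0 (.s k169 k253 13 (.s k129 k189 5 (.s k192 k66 8 (.s k64 k128 7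
  (.d k106 k127 k63 6 14)))))), (.s k2 k1 0 (.s k21 k213 7 (.s k42 k63 6 (.s k22 k62 5 (.s k20 k23 0
  (.d k60 k40 k41 5 6))))))] (.c k192 (.l (.s k1 k2 0 (.s k169 k253 13 (.s k129 k189 5 (.s k193 k65
  7 (.s k61 k105 13 (.d k21 k41 k213 5 7))))))) (.c k221 (.q k238 [(.s k1 k2 0 (.s k21 k213 7 (.s
  k61 k41 5 (.s k105 k193 13 (.s k125 k65 5 (.d k253 k189 k169 7 13)))))), (.s k21 k213 7 (.s k63
  k42 6 (.s k23 k43 5 (.s k86 k212 8 (.s k84 k87 0 (.d k252 k168 k169 13 14)))))), (.s k1 k2 0 (.s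
  k169 k253 13 (.s k129 k189 5 (.s k192 k66 8 (.s k64 k128 7 (.d k106 k127 k63 6 14)))))), (.s k2 k1
  0 (.s k21 k213 7 (.s k42 k63 6 (.s k22 k62 5 (.s k20 k23 0 (.d k60 k40 k41 5 6))))))] (.c k192 (.l
  (.s k1 k2 0 (.s k169 k253 13 (.s k129 k189 5 (.s k193 k65 7 (.s k61 k105 13 (.d k21 k41 k213 5
  7))))))) .n)) (.c k238 (.q k221 [(.s k153 k17 9 (.s k213 k21 7 (.s k157 k145 1 (.s k209 k217 1 (.d
  k29 k93 k89 7 9))))), (.s k1 k2 0 (.s k21 k213 7 (.s k41 k61 5 (.s k22 k60 6 (.s k23 k20 0 (.d k63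
  k43 k42 5 6)))))), (.s k1 k2 0 (.s k17 k153 9 (.s k33 k49 3 (.s k18 k48 4 (.s k19 k16 0 (.d k51
  k34 k35 4 3))))))] (.c k34 (.q k102 [(.s k17 k153 9 (.s k21 k213 7 (.s k29 k25 1 (.s k89 k209 9
  (.d k93 k81 k157 1 7))))), (.s k1 k2 0 (.s k153 k17 9 (.s k169 k253 13 (.s k35 k236 10 (.s k19 k51
  3 (.d k86 k220 k252 10 14)))))), (.s k21 k213 7 (.s k55 k196 12 (.s k4 k38 4 (.s k119 k68 4 (.d
  k247 k183 k166 7 12)))))] .n) (.c k102 (.q k34 [(.d k17 k51 k153 4 9)] (.c k17 (.l (.s k1 k2 0 (.s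
  k21 k213 7 (.s k41 k61 5 (.s k22 k60 6 (.s k23 k20 0 (.d k63 k43 k42 5 6))))))) (.c k51 (.l (.s
  k153 k17 9 (.s k157 k145 1 (.s k29 k93 7 (.s k209 k89 9 (.d k213 k217 k21 1 7)))))) (.c k153 (.l
  (.s k51 k17 4 (.s k2 k1 0 (.s k18 k50 3 (.s k33 k48 4 (.d k35 k32 k19 0 3)))))) .n)))) .n)))
  .n))))

def s170_255_205 : T TT 256 :=
  (.q k5 [(.s k2 k1 0 (.s k10 k15 2 (.s k6 k14 1 (.s k4 k7 0 (.d k12 k8 k9 1 2))))), (.s k1 k2 0 (.s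
  k13 k9 1 (.s k165 k245 11 (.s k89 k241 13 (.s k93 k81 1 (.d k253 k173 k169 11 13)))))), (.s k15
  k10 2 (.s k7 k11 1 (.s k165 k245 11 (.s k86 k244 12 (.s k84 k87 0 (.d k252 k168 k169 13 14))))))]
  (.c k9 (.l (.s k1 k2 0 (.s k15 k10 2 (.s k11 k7 1 (.s k165 k245 11 (.s k169 k253 13 (.d k90 k240
  k248 14 12))))))) .n))

def s170_255_206 : T TT 256 :=
  (.q k5 [(.s k2 k1 0 (.s k10 k15 2 (.s k6 k14 1 (.s k4 k7 0 (.d k12 k8 k9 1 2))))), (.s k1 k2 0 (.s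
  k13 k9 1 (.s k165 k245 11 (.s k89 k241 13 (.s k93 k81 1 (.d k253 k173 k169 11 13)))))), (.s k15
  k10 2 (.s k7 k11 1 (.s k165 k245 11 (.s k86 k244 12 (.s k84 k87 0 (.d k252 k168 k169 13 14))))))]
  (.c k9 (.l (.s k1 k2 0 (.s k15 k10 2 (.s k11 k7 1 (.s k165 k245 11 (.s k169 k253 13 (.d k90 k240
  k248 14 12))))))) .n))

def s170_255_207 : T TT 256 :=
  (.q k60 [(.s k1 k2 0 (.s k40 k20 5 (.s k41 k22 6 (.s k21 k61 5 (.d k42 k43 k63 0 6))))), (.s k1 k2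
  0 (.s k20 k40 5 (.s k150 k215 8 (.s k169 k253 13 (.s k131 k188 6 (.d k195 k105 k67 14 7)))))), (.s
  k20 k40 5 (.s k22 k41 6 (.s k150 k215 8 (.s k86 k214 7 (.s k84 k87 0 (.d k252 k168 k169 13
  14)))))), (.s k1 k2 0 (.s k41 k22 6 (.s k169 k253 13 (.s k105 k233 7 (.s k65 k125 5 (.d k195 k130
  k150 8 14))))))] (.c k86 (.l (.s k2 k1 0 (.s k20 k40 5 (.s k22 k41 6 (.s k21 k23 0 (.d k42 k62 k63
  5 6)))))) (.c k223 (.q k239 [(.s k1 k2 0 (.s k40 k20 5 (.s k41 k22 6 (.s k21 k61 5 (.d k42 k43 k63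
  0 6))))), (.s k1 k2 0 (.s k20 k40 5 (.s k150 k215 8 (.s k169 k253 13 (.s k131 k188 6 (.d k195 k105
  k67 14 7)))))), (.s k20 k40 5 (.s k22 k41 6 (.s k150 k215 8 (.s k86 k214 7 (.s k84 k87 0 (.d k252
  k168 k169 13 14)))))), (.s k1 k2 0 (.s k41 k22 6 (.s k169 k253 13 (.s k105 k233 7 (.s k65 k125 5
  (.d k195 k130 k150 8 14))))))] (.c k86 (.l (.s k2 k1 0 (.s k20 k40 5 (.s k22 k41 6 (.s k21 k23 0
  (.d k42 k62 k63 5 6)))))) .n)) (.c k239 (.q k223 [(.s k1 k2 0 (.s k40 k20 5 (.s k41 k22 6 (.s k21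
  k61 5 (.d k42 k43 k63 0 6))))), (.s k16 k154 10 (.s k20 k40 5 (.s k28 k24 1 (.s k93 k158 8 (.s k89
  k81 1 (.d k150 k215 k211 8 10)))))), (.s k1 k2 0 (.s k41 k22 6 (.s k169 k253 13 (.s k105 k233 7
  (.s k65 k125 5 (.d k195 k130 k150 8 14))))))] (.c k32 (.q k101 [(.s k1 k2 0 (.s k40 k20 5 (.s k41
  k22 6 (.s k21 k61 5 (.d k42 k43 k63 0 6))))), (.s k16 k154 10 (.s k20 k40 5 (.s k28 k24 1 (.s k93
  k158 8 (.s k89 k81 1 (.d k150 k215 k211 8 10)))))), (.s k1 k2 0 (.s k16 k154 10 (.s k169 k253 13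
  (.s k33 k237 9 (.s k17 k49 3 (.d k18 k19 k48 0 4))))))] .n) (.c k101 (.q k32 [(.d k16 k48 k154 3
  10)] (.c k16 (.l (.s k1 k2 0 (.s k40 k20 5 (.s k41 k22 6 (.s k21 k61 5 (.d k42 k43 k63 0 6))))))
  (.c k48 (.l (.s k154 k16 10 (.s k1 k2 0 (.s k40 k20 5 (.s k41 k22 6 (.s k21 k61 5 (.d k42 k43 k63
  0 6))))))) (.c k154 (.l (.s k48 k16 3 (.s k1 k2 0 (.s k33 k18 4 (.s k17 k49 3 (.d k34 k35 k51 0
  4)))))) .n)))) .n))) .n))))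

def s170_255_208 : T TT 256 :=
  (.q k5 [(.s k2 k1 0 (.s k10 k15 2 (.s k6 k14 1 (.s k4 k7 0 (.d k12 k8 k9 1 2))))), (.s k1 k2 0 (.s
  k13 k9 1 (.s k165 k245 11 (.s k89 k241 13 (.s k93 k81 1 (.d k253 k173 k169 11 13)))))), (.s k15
  k10 2 (.s k7 k11 1 (.s k165 k245 11 (.s k86 k244 12 (.s k84 k87 0 (.d k252 k168 k169 13 14))))))]
  (.c k9 (.l (.s k1 k2 0 (.s k15 k10 2 (.s k11 k7 1 (.s k165 k245 11 (.s k169 k253 13 (.d k90 k240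
  k248 14 12))))))) .n))

def s170_255_209 : T TT 256 :=
  (.q k5 [(.s k2 k1 0 (.s k10 k15 2 (.s k6 k14 1 (.s k4 k7 0 (.d k12 k8 k9 1 2))))), (.s k1 k2 0 (.s
  k13 k9 1 (.s k165 k245 11 (.s k89 k241 13 (.s k93 k81 1 (.d k253 k173 k169 11 13)))))), (.s k15
  k10 2 (.s k7 k11 1 (.s k165 k245 11 (.s k86 k244 12 (.s k84 k87 0 (.d k252 k168 k169 13 14))))))]
  (.c k9 (.l (.s k1 k2 0 (.s k15 k10 2 (.s k11 k7 1 (.s k165 k245 11 (.s k169 k253 13 (.d k90 k240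
  k248 14 12))))))) .n))

def s170_255_210 : T TT 256 :=
  (.q k5 [(.s k2 k1 0 (.s k10 k15 2 (.s k6 k14 1 (.s k4 k7 0 (.d k12 k8 k9 1 2))))), (.s k1 k2 0 (.s
  k13 k9 1 (.s k165 k245 11 (.s k89 k241 13 (.s k93 k81 1 (.d k253 k173 k169 11 13)))))), (.s k15
  k10 2 (.s k7 k11 1 (.s k165 k245 11 (.s k86 k244 12 (.s k84 k87 0 (.d k252 k168 k169 13 14))))))]
  (.c k9 (.l (.s k1 k2 0 (.s k15 k10 2 (.s k11 k7 1 (.s k165 k245 11 (.s k169 k253 13 (.d k90 k240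
  k248 14 12))))))) .n))

def s170_255_211 : T TT 256 :=
  (.q k5 [(.s k2 k1 0 (.s k10 k15 2 (.s k6 k14 1 (.s k4 k7 0 (.d k12 k8 k9 1 2))))), (.s k1 k2 0 (.s
  k13 k9 1 (.s k165 k245 11 (.s k89 k241 13 (.s k93 k81 1 (.d k253 k173 k169 11 13)))))), (.s k15
  k10 2 (.s k7 k11 1 (.s k165 k245 11 (.s k86 k244 12 (.s k84 k87 0 (.d k252 k168 k169 13 14))))))]
  (.c k9 (.l (.s k1 k2 0 (.s k15 k10 2 (.s k11 k7 1 (.s k165 k245 11 (.s k169 k253 13 (.d k90 k240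
  k248 14 12))))))) .n))

def s170_255_212 : T TT 256 :=
  (.q k5 [(.s k2 k1 0 (.s k10 k15 2 (.s k6 k14 1 (.s k4 k7 0 (.d k12 k8 k9 1 2))))), (.s k1 k2 0 (.s
  k13 k9 1 (.s k165 k245 11 (.s k89 k241 13 (.s k93 k81 1 (.d k253 k173 k169 11 13)))))), (.s k15
  k10 2 (.s k7 k11 1 (.s k165 k245 11 (.s k86 k244 12 (.s k84 k87 0 (.d k252 k168 k169 13 14))))))]
  (.c k9 (.l (.s k1 k2 0 (.s k15 k10 2 (.s k11 k7 1 (.s k165 k245 11 (.s k169 k253 13 (.d k90 k240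
  k248 14 12))))))) .n))

def s170_255_213 : T TT 256 :=
  (.q k192 [(.s k2 k1 0 (.s k64 k128 7 (.s k66 k129 8 (.s k65 k67 0 (.d k130 k194 k195 7 8))))), (.s
  k1 k2 0 (.s k64 k128 7 (.s k106 k127 6 (.s k169 k253 13 (.s k43 k232 8 (.d k63 k149 k23 14
  5)))))), (.s k64 k128 7 (.s k66 k129 8 (.s k106 k127 6 (.s k86 k126 5 (.s k84 k87 0 (.d k252 k168
  k169 13 14)))))), (.s k1 k2 0 (.s k129 k66 8 (.s k169 k253 13 (.s k149 k189 5 (.s k63 k106 14 (.s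
  k23 k43 5 (.d k86 k252 k212 14 8)))))))] (.c k149 (.l (.s k1 k2 0 (.s k128 k64 7 (.s k129 k66 8
  (.s k65 k193 7 (.d k130 k131 k195 0 8)))))) .n))

def s170_255_214 : T TT 256 :=
  (.q k5 [(.s k2 k1 0 (.s k10 k15 2 (.s k6 k14 1 (.s k4 k7 0 (.d k12 k8 k9 1 2))))), (.s k1 k2 0 (.s
  k13 k9 1 (.s k165 k245 11 (.s k89 k241 13 (.s k93 k81 1 (.d k253 k173 k169 11 13)))))), (.s k15
  k10 2 (.s k7 k11 1 (.s k165 k245 11 (.s k86 k244 12 (.s k84 k87 0 (.d k252 k168 k169 13 14))))))]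
  (.c k9 (.l (.s k1 k2 0 (.s k15 k10 2 (.s k11 k7 1 (.s k165 k245 11 (.s k169 k253 13 (.d k90 k240
  k248 14 12))))))) .n))

def s170_255_215 : T TT 256 :=
  (.q k195 [(.s k2 k1 0 (.s k130 k65 8 (.s k66 k194 7 (.s k129 k192 8 (.d k131 k128 k67 0 7))))),
  (.s k1 k2 0 (.s k131 k67 7 (.s k169 k253 13 (.s k150 k188 6 (.s k60 k105 14 (.s k22 k41 6 (.d k86
  k252 k214 14 7))))))), (.s k65 k130 8 (.s k67 k131 7 (.s k105 k125 5 (.s k86 k124 6 (.s k84 k87 0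
  (.d k252 k168 k169 13 14)))))), (.s k1 k2 0 (.s k65 k130 8 (.s k105 k125 5 (.s k169 k253 13 (.s
  k41 k233 7 (.d k60 k150 k22 14 6))))))] .n)

def s170_255_216 : T TT 256 :=
  (.q k5 [(.s k2 k1 0 (.s k10 k15 2 (.s k6 k14 1 (.s k4 k7 0 (.d k12 k8 k9 1 2))))), (.s k1 k2 0 (.s
  k13 k9 1 (.s k165 k245 11 (.s k89 k241 13 (.s k93 k81 1 (.d k253 k173 k169 11 13)))))), (.s k15
  k10 2 (.s k7 k11 1 (.s k165 k245 11 (.s k86 k244 12 (.s k84 k87 0 (.d k252 k168 k169 13 14))))))]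
  (.c k9 (.l (.s k1 k2 0 (.s k15 k10 2 (.s k11 k7 1 (.s k165 k245 11 (.s k169 k253 13 (.d k90 k240
  k248 14 12))))))) .n))

def s170_255_217 : T TT 256 :=
  (.q k5 [(.s k2 k1 0 (.s k10 k15 2 (.s k6 k14 1 (.s k4 k7 0 (.d k12 k8 k9 1 2))))), (.s k1 k2 0 (.s
  k13 k9 1 (.s k165 k245 11 (.s k89 k241 13 (.s k93 k81 1 (.d k253 k173 k169 11 13)))))), (.s k15
  k10 2 (.s k7 k11 1 (.s k165 k245 11 (.s k86 k244 12 (.s k84 k87 0 (.d k252 k168 k169 13 14))))))]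
  (.c k9 (.l (.s k1 k2 0 (.s k15 k10 2 (.s k11 k7 1 (.s k165 k245 11 (.s k169 k253 13 (.d k90 k240
  k248 14 12))))))) .n))

def s170_255_218 : T TT 256 :=
  (.q k5 [(.s k2 k1 0 (.s k10 k15 2 (.s k6 k14 1 (.s k4 k7 0 (.d k12 k8 k9 1 2))))), (.s k1 k2 0 (.s
  k13 k9 1 (.s k165 k245 11 (.s k89 k241 13 (.s k93 k81 1 (.d k253 k173 k169 11 13)))))), (.s k15
  k10 2 (.s k7 k11 1 (.s k165 k245 11 (.s k86 k244 12 (.s k84 k87 0 (.d k252 k168 k169 13 14))))))]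
  (.c k9 (.l (.s k1 k2 0 (.s k15 k10 2 (.s k11 k7 1 (.s k165 k245 11 (.s k169 k253 13 (.d k90 k240
  k248 14 12))))))) .n))

def s170_255_219 : T TT 256 :=
  (.q k5 [(.s k2 k1 0 (.s k10 k15 2 (.s k6 k14 1 (.s k4 k7 0 (.d k12 k8 k9 1 2))))), (.s k1 k2 0 (.s
  k13 k9 1 (.s k165 k245 11 (.s k89 k241 13 (.s k93 k81 1 (.d k253 k173 k169 11 13)))))), (.s k15
  k10 2 (.s k7 k11 1 (.s k165 k245 11 (.s k86 k244 12 (.s k84 k87 0 (.d k252 k168 k169 13 14))))))]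
  (.c k9 (.l (.s k1 k2 0 (.s k15 k10 2 (.s k11 k7 1 (.s k165 k245 11 (.s k169 k253 13 (.d k90 k240
  k248 14 12))))))) .n))

def s170_255_220 : T TT 256 :=
  (.q k5 [(.s k2 k1 0 (.s k10 k15 2 (.s k6 k14 1 (.s k4 k7 0 (.d k12 k8 k9 1 2))))), (.s k1 k2 0 (.s
  k13 k9 1 (.s k165 k245 11 (.s k89 k241 13 (.s k93 k81 1 (.d k253 k173 k169 11 13)))))), (.s k15
  k10 2 (.s k7 k11 1 (.s k165 k245 11 (.s k86 k244 12 (.s k84 k87 0 (.d k252 k168 k169 13 14))))))]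
  (.c k9 (.l (.s k1 k2 0 (.s k15 k10 2 (.s k11 k7 1 (.s k165 k245 11 (.s k169 k253 13 (.d k90 k240
  k248 14 12))))))) .n))

def s170_255_221 : T TT 256 :=
  (.q k204 [(.s k2 k1 0 (.s k68 k136 9 (.s k70 k137 10 (.s k69 k71 0 (.d k138 k206 k207 9 10))))),
  (.s k1 k2 0 (.s k68 k136 9 (.s k102 k119 4 (.s k169 k253 13 (.s k35 k236 10 (.d k51 k153 k19 14
  3)))))), (.s k68 k136 9 (.s k70 k137 10 (.s k102 k119 4 (.s k86 k118 3 (.s k84 k87 0 (.d k252 k168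
  k169 13 14)))))), (.s k1 k2 0 (.s k137 k70 10 (.s k169 k253 13 (.s k153 k185 3 (.s k51 k102 14 (.s
  k19 k35 3 (.d k86 k252 k220 14 10)))))))] (.c k153 (.l (.s k1 k2 0 (.s k136 k68 9 (.s k137 k70 10
  (.s k69 k205 9 (.d k138 k139 k207 0 10)))))) .n))

def s170_255_222 : T TT 256 :=
  (.q k5 [(.s k2 k1 0 (.s k10 k15 2 (.s k6 k14 1 (.s k4 k7 0 (.d k12 k8 k9 1 2))))), (.s k1 k2 0 (.s
  k13 k9 1 (.s k165 k245 11 (.s k89 k241 13 (.s k93 k81 1 (.d k253 k173 k169 11 13)))))), (.s k15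
  k10 2 (.s k7 k11 1 (.s k165 k245 11 (.s k86 k244 12 (.s k84 k87 0 (.d k252 k168 k169 13 14))))))]
  (.c k9 (.l (.s k1 k2 0 (.s k15 k10 2 (.s k11 k7 1 (.s k165 k245 11 (.s k169 k253 13 (.d k90 k240
  k248 14 12))))))) .n))

def s170_255_223 : T TT 256 :=
  (.q k207 [(.s k2 k1 0 (.s k138 k69 10 (.s k70 k206 9 (.s k137 k204 10 (.d k139 k136 k71 0 9))))),
  (.s k1 k2 0 (.s k139 k71 9 (.s k169 k253 13 (.s k154 k184 4 (.s k48 k101 14 (.s k18 k33 4 (.d k86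
  k252 k222 14 9))))))), (.s k69 k138 10 (.s k71 k139 9 (.s k101 k117 3 (.s k86 k116 4 (.s k84 k87 0
  (.d k252 k168 k169 13 14)))))), (.s k1 k2 0 (.s k69 k138 10 (.s k101 k117 3 (.s k169 k253 13 (.s
  k33 k237 9 (.d k48 k154 k18 14 4))))))] .n)

def s170_255_224 : T TT 256 :=
  (.q k5 [(.s k2 k1 0 (.s k10 k15 2 (.s k6 k14 1 (.s k4 k7 0 (.d k12 k8 k9 1 2))))), (.s k1 k2 0 (.s
  k13 k9 1 (.s k165 k245 11 (.s k89 k241 13 (.s k93 k81 1 (.d k253 k173 k169 11 13)))))), (.s k15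
  k10 2 (.s k7 k11 1 (.s k165 k245 11 (.s k86 k244 12 (.s k84 k87 0 (.d k252 k168 k169 13 14))))))]
  (.c k9 (.l (.s k1 k2 0 (.s k15 k10 2 (.s k11 k7 1 (.s k165 k245 11 (.s k169 k253 13 (.d k90 k240
  k248 14 12))))))) .n))

def s170_255_225 : T TT 256 :=
  (.q k5 [(.s k2 k1 0 (.s k10 k15 2 (.s k6 k14 1 (.s k4 k7 0 (.d k12 k8 k9 1 2))))), (.s k1 k2 0 (.s
  k13 k9 1 (.s k165 k245 11 (.s k89 k241 13 (.s k93 k81 1 (.d k253 k173 k169 11 13)))))), (.s k15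
  k10 2 (.s k7 k11 1 (.s k165 k245 11 (.s k86 k244 12 (.s k84 k87 0 (.d k252 k168 k169 13 14))))))]
  (.c k9 (.l (.s k1 k2 0 (.s k15 k10 2 (.s k11 k7 1 (.s k165 k245 11 (.s k169 k253 13 (.d k90 k240
  k248 14 12))))))) .n))

def s170_255_226 : T TT 256 :=
  (.q k5 [(.s k2 k1 0 (.s k10 k15 2 (.s k6 k14 1 (.s k4 k7 0 (.d k12 k8 k9 1 2))))), (.s k1 k2 0 (.s
  k13 k9 1 (.s k165 k245 11 (.s k89 k241 13 (.s k93 k81 1 (.d k253 k173 k169 11 13)))))), (.s k15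
  k10 2 (.s k7 k11 1 (.s k165 k245 11 (.s k86 k244 12 (.s k84 k87 0 (.d k252 k168 k169 13 14))))))]
  (.c k9 (.l (.s k1 k2 0 (.s k15 k10 2 (.s k11 k7 1 (.s k165 k245 11 (.s k169 k253 13 (.d k90 k240
  k248 14 12))))))) .n))

def s170_255_227 : T TT 256 :=
  (.q k5 [(.s k2 k1 0 (.s k10 k15 2 (.s k6 k14 1 (.s k4 k7 0 (.d k12 k8 k9 1 2))))), (.s k1 k2 0 (.s
  k13 k9 1 (.s k165 k245 11 (.s k89 k241 13 (.s k93 k81 1 (.d k253 k173 k169 11 13)))))), (.s k15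
  k10 2 (.s k7 k11 1 (.s k165 k245 11 (.s k86 k244 12 (.s k84 k87 0 (.d k252 k168 k169 13 14))))))]
  (.c k9 (.l (.s k1 k2 0 (.s k15 k10 2 (.s k11 k7 1 (.s k165 k245 11 (.s k169 k253 13 (.d k90 k240
  k248 14 12))))))) .n))

def s170_255_228 : T TT 256 :=
  (.q k5 [(.s k2 k1 0 (.s k10 k15 2 (.s k6 k14 1 (.s k4 k7 0 (.d k12 k8 k9 1 2))))), (.s k1 k2 0 (.s
  k13 k9 1 (.s k165 k245 11 (.s k89 k241 13 (.s k93 k81 1 (.d k253 k173 k169 11 13)))))), (.s k15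
  k10 2 (.s k7 k11 1 (.s k165 k245 11 (.s k86 k244 12 (.s k84 k87 0 (.d k252 k168 k169 13 14))))))]
  (.c k9 (.l (.s k1 k2 0 (.s k15 k10 2 (.s k11 k7 1 (.s k165 k245 11 (.s k169 k253 13 (.d k90 k240
  k248 14 12))))))) .n))

def s170_255_229 : T TT 256 :=
  (.q k5 [(.s k2 k1 0 (.s k10 k15 2 (.s k6 k14 1 (.s k4 k7 0 (.d k12 k8 k9 1 2))))), (.s k1 k2 0 (.s
  k13 k9 1 (.s k165 k245 11 (.s k89 k241 13 (.s k93 k81 1 (.d k253 k173 k169 11 13)))))), (.s k15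
  k10 2 (.s k7 k11 1 (.s k165 k245 11 (.s k86 k244 12 (.s k84 k87 0 (.d k252 k168 k169 13 14))))))]
  (.c k9 (.l (.s k1 k2 0 (.s k15 k10 2 (.s k11 k7 1 (.s k165 k245 11 (.s k169 k253 13 (.d k90 k240
  k248 14 12))))))) .n))

def s170_255_230 : T TT 256 :=
  (.q k5 [(.s k2 k1 0 (.s k10 k15 2 (.s k6 k14 1 (.s k4 k7 0 (.d k12 k8 k9 1 2))))), (.s k1 k2 0 (.s
  k13 k9 1 (.s k165 k245 11 (.s k89 k241 13 (.s k93 k81 1 (.d k253 k173 k169 11 13)))))), (.s k15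
  k10 2 (.s k7 k11 1 (.s k165 k245 11 (.s k86 k244 12 (.s k84 k87 0 (.d k252 k168 k169 13 14))))))]
  (.c k9 (.l (.s k1 k2 0 (.s k15 k10 2 (.s k11 k7 1 (.s k165 k245 11 (.s k169 k253 13 (.d k90 k240
  k248 14 12))))))) .n))

def s170_255_231 : T TT 256 :=
  (.q k5 [(.s k2 k1 0 (.s k10 k15 2 (.s k6 k14 1 (.s k4 k7 0 (.d k12 k8 k9 1 2))))), (.s k1 k2 0 (.s
  k13 k9 1 (.s k165 k245 11 (.s k89 k241 13 (.s k93 k81 1 (.d k253 k173 k169 11 13)))))), (.s k15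
  k10 2 (.s k7 k11 1 (.s k165 k245 11 (.s k86 k244 12 (.s k84 k87 0 (.d k252 k168 k169 13 14))))))]
  (.c k9 (.l (.s k1 k2 0 (.s k15 k10 2 (.s k11 k7 1 (.s k165 k245 11 (.s k169 k253 13 (.d k90 k240
  k248 14 12))))))) .n))

def s170_255_232 : T TT 256 :=
  (.q k5 [(.s k2 k1 0 (.s k10 k15 2 (.s k6 k14 1 (.s k4 k7 0 (.d k12 k8 k9 1 2))))), (.s k1 k2 0 (.s
  k13 k9 1 (.s k165 k245 11 (.s k89 k241 13 (.s k93 k81 1 (.d k253 k173 k169 11 13)))))), (.s k15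
  k10 2 (.s k7 k11 1 (.s k165 k245 11 (.s k86 k244 12 (.s k84 k87 0 (.d k252 k168 k169 13 14))))))]
  (.c k9 (.l (.s k1 k2 0 (.s k15 k10 2 (.s k11 k7 1 (.s k165 k245 11 (.s k169 k253 13 (.d k90 k240
  k248 14 12))))))) .n))

def s170_255_233 : T TT 256 :=
  (.q k5 [(.s k2 k1 0 (.s k10 k15 2 (.s k6 k14 1 (.s k4 k7 0 (.d k12 k8 k9 1 2))))), (.s k1 k2 0 (.s
  k13 k9 1 (.s k165 k245 11 (.s k89 k241 13 (.s k93 k81 1 (.d k253 k173 k169 11 13)))))), (.s k15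
  k10 2 (.s k7 k11 1 (.s k165 k245 11 (.s k86 k244 12 (.s k84 k87 0 (.d k252 k168 k169 13 14))))))]
  (.c k9 (.l (.s k1 k2 0 (.s k15 k10 2 (.s k11 k7 1 (.s k165 k245 11 (.s k169 k253 13 (.d k90 k240
  k248 14 12))))))) .n))

def s170_255_234 : T TT 256 :=
  (.q k192 [(.s k1 k2 0 (.s k128 k64 7 (.s k129 k66 8 (.s k65 k193 7 (.d k130 k131 k195 0 8))))),
  (.s k1 k2 0 (.s k64 k128 7 (.s k106 k127 6 (.s k169 k253 13 (.s k43 k232 8 (.d k63 k149 k23 14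
  5)))))), (.s k64 k128 7 (.s k66 k129 8 (.s k106 k127 6 (.s k86 k126 5 (.s k84 k87 0 (.d k252 k168
  k169 13 14)))))), (.s k1 k2 0 (.s k129 k66 8 (.s k169 k253 13 (.s k149 k189 5 (.s k21 k213 7 (.d
  k63 k42 k106 6 14))))))] (.c k42 (.q k106 [(.d k64 k127 k128 6 7), (.s k1 k2 0 (.s k66 k129 8 (.s
  k86 k126 5 (.d k169 k253 k252 13 14))))] .n) (.c k86 (.l (.s k2 k1 0 (.s k64 k128 7 (.s k66 k129 8
  (.s k65 k67 0 (.d k130 k194 k195 7 8)))))) (.c k106 (.q k42 [(.s k1 k2 0 (.s k128 k64 7 (.s k129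
  k66 8 (.s k65 k193 7 (.d k130 k131 k195 0 8))))), (.s k2 k1 0 (.s k21 k63 6 (.s k22 k62 5 (.s k20
  k23 0 (.d k60 k40 k41 5 6))))), (.s k21 k63 6 (.s k129 k66 8 (.s k149 k213 7 (.s k169 k189 5 (.s
  k1 k253 13 (.s k61 k41 5 (.d k193 k65 k105 7 13)))))))] (.c k1 (.q k2 [(.s k64 k128 7 (.s k66 k129
  8 (.s k65 k67 0 (.d k130 k194 k195 7 8)))), (.s k63 k21 6 (.s k43 k23 5 (.s k41 k40 0 (.d k22 k62
  k60 5 6))))] .n) .n)) .n))))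

def s170_255_235 : T TT 256 :=
  (.q k105 [(.s k1 k2 0 (.s k65 k125 5 (.s k129 k193 7 (.s k192 k66 8 (.s k128 k64 7 (.d k130 k195
  k131 8 0)))))), (.s k1 k2 0 (.s k169 k253 13 (.s k41 k233 7 (.s k60 k22 6 (.s k20 k40 5 (.d k150
  k215 k195 8 14)))))), (.s k65 k125 5 (.s k195 k130 8 (.s k67 k131 7 (.s k86 k124 6 (.s k84 k87 0
  (.d k252 k168 k169 13 14))))))] (.c k60 (.l (.s k1 k2 0 (.s k125 k65 5 (.s k253 k169 13 (.s k61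
  k189 7 (.s k21 k41 5 (.d k149 k213 k193 7 13))))))) (.c k86 (.l (.s k65 k125 5 (.s k195 k130 8 (.s
  k67 k131 7 (.s k66 k64 0 (.s k129 k192 8 (.d k1 k2 k193 0 7))))))) (.c k195 (.q k215 [(.s k1 k2 0
  (.s k20 k150 8 (.s k60 k40 5 (.s k169 k253 13 (.d k41 k22 k233 6 7))))), (.s k1 k2 0 (.s k125 k65
  5 (.s k253 k169 13 (.s k61 k189 7 (.s k21 k41 5 (.d k149 k213 k193 7 13)))))), (.s k20 k150 8 (.s
  k60 k40 5 (.s k22 k41 6 (.s k21 k23 0 (.s k149 k213 7 (.s k61 k193 13 (.d k63 k42 k62 6 0)))))))]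
  (.c k41 (.l (.s k1 k2 0 (.s k65 k125 5 (.s k193 k129 7 (.s k149 k61 13 (.s k213 k21 7 (.d k253
  k233 k169 5 13))))))) (.c k253 (.l (.s k2 k1 0 (.s k20 k150 8 (.s k60 k40 5 (.s k22 k41 6 (.s k21
  k23 0 (.d k42 k62 k63 5 6))))))) .n))) (.c k215 (.q k195 [(.d k65 k125 k130 5 8), (.s k1 k2 0 (.s
  k67 k131 7 (.s k86 k124 6 (.d k169 k253 k252 13 14))))] .n) .n)))))

def s170_255_236 : T TT 256 :=
  (.q k5 [(.s k2 k1 0 (.s k10 k15 2 (.s k6 k14 1 (.s k4 k7 0 (.d k12 k8 k9 1 2))))), (.s k1 k2 0 (.s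
  k13 k9 1 (.s k165 k245 11 (.s k89 k241 13 (.s k93 k81 1 (.d k253 k173 k169 11 13)))))), (.s k15
  k10 2 (.s k7 k11 1 (.s k165 k245 11 (.s k86 k244 12 (.s k84 k87 0 (.d k252 k168 k169 13 14))))))]
  (.c k9 (.l (.s k1 k2 0 (.s k15 k10 2 (.s k11 k7 1 (.s k165 k245 11 (.s k169 k253 13 (.d k90 k240
  k248 14 12))))))) .n))

def s170_255_237 : T TT 256 :=
  (.q k5 [(.s k2 k1 0 (.s k10 k15 2 (.s k6 k14 1 (.s k4 k7 0 (.d k12 k8 k9 1 2))))), (.s k1 k2 0 (.s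
  k13 k9 1 (.s k165 k245 11 (.s k89 k241 13 (.s k93 k81 1 (.d k253 k173 k169 11 13)))))), (.s k15
  k10 2 (.s k7 k11 1 (.s k165 k245 11 (.s k86 k244 12 (.s k84 k87 0 (.d k252 k168 k169 13 14))))))]
  (.c k9 (.l (.s k1 k2 0 (.s k15 k10 2 (.s k11 k7 1 (.s k165 k245 11 (.s k169 k253 13 (.d k90 k240
  k248 14 12))))))) .n))

def s170_255_238 : T TT 256 :=
  (.q k204 [(.s k1 k2 0 (.s k136 k68 9 (.s k137 k70 10 (.s k69 k205 9 (.d k138 k139 k207 0 10))))),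
  (.s k1 k2 0 (.s k68 k136 9 (.s k102 k119 4 (.s k169 k253 13 (.s k35 k236 10 (.d k51 k153 k19 14
  3)))))), (.s k68 k136 9 (.s k70 k137 10 (.s k102 k119 4 (.s k86 k118 3 (.s k84 k87 0 (.d k252 k168
  k169 13 14)))))), (.s k1 k2 0 (.s k137 k70 10 (.s k169 k253 13 (.s k153 k185 3 (.s k17 k221 9 (.d
  k51 k34 k102 4 14))))))] (.c k34 (.q k102 [(.d k68 k119 k136 4 9), (.s k1 k2 0 (.s k70 k137 10 (.s
  k86 k118 3 (.d k169 k253 k252 13 14))))] .n) (.c k86 (.l (.s k2 k1 0 (.s k68 k136 9 (.s k70 k137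
  10 (.s k69 k71 0 (.d k138 k206 k207 9 10)))))) (.c k102 (.q k34 [(.s k1 k2 0 (.s k136 k68 9 (.s
  k137 k70 10 (.s k69 k205 9 (.d k138 k139 k207 0 10))))), (.s k2 k1 0 (.s k17 k51 4 (.s k18 k50 3
  (.s k16 k19 0 (.d k48 k32 k33 3 4))))), (.s k17 k51 4 (.s k137 k70 10 (.s k153 k221 9 (.s k169
  k185 3 (.s k1 k253 13 (.s k49 k33 3 (.d k205 k69 k101 9 13)))))))] (.c k1 (.q k2 [(.s k68 k136 9
  (.s k70 k137 10 (.s k69 k71 0 (.d k138 k206 k207 9 10)))), (.s k51 k17 4 (.s k35 k19 3 (.s k33 k32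
  0 (.d k18 k50 k48 3 4))))] .n) .n)) .n))))

def s170_255_239 : T TT 256 :=
  (.q k101 [(.s k1 k2 0 (.s k69 k117 3 (.s k137 k205 9 (.s k204 k70 10 (.s k136 k68 9 (.d k138 k207
  k139 10 0)))))), (.s k1 k2 0 (.s k169 k253 13 (.s k33 k237 9 (.s k48 k18 4 (.s k16 k32 3 (.d k154
  k223 k207 10 14)))))), (.s k69 k117 3 (.s k207 k138 10 (.s k71 k139 9 (.s k86 k116 4 (.s k84 k87 0
  (.d k252 k168 k169 13 14))))))] (.c k48 (.l (.s k1 k2 0 (.s k117 k69 3 (.s k253 k169 13 (.s k49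
  k185 9 (.s k17 k33 3 (.d k153 k221 k205 9 13))))))) (.c k86 (.l (.s k69 k117 3 (.s k207 k138 10
  (.s k71 k139 9 (.s k70 k68 0 (.s k137 k204 10 (.d k1 k2 k205 0 9))))))) (.c k207 (.q k223 [(.s k1
  k2 0 (.s k16 k154 10 (.s k48 k32 3 (.s k169 k253 13 (.d k33 k18 k237 4 9))))), (.s k1 k2 0 (.s
  k117 k69 3 (.s k253 k169 13 (.s k49 k185 9 (.s k17 k33 3 (.d k153 k221 k205 9 13)))))), (.s k16
  k154 10 (.s k48 k32 3 (.s k18 k33 4 (.s k17 k19 0 (.s k153 k221 9 (.s k49 k205 13 (.d k51 k34 k50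
  4 0)))))))] (.c k33 (.l (.s k1 k2 0 (.s k69 k117 3 (.s k205 k137 9 (.s k153 k49 13 (.s k221 k17 9
  (.d k253 k237 k169 3 13))))))) (.c k253 (.l (.s k2 k1 0 (.s k16 k154 10 (.s k48 k32 3 (.s k18 k33
  4 (.s k17 k19 0 (.d k34 k50 k51 3 4))))))) .n))) (.c k223 (.q k207 [(.d k69 k117 k138 3 10), (.s
  k1 k2 0 (.s k71 k139 9 (.s k86 k116 4 (.d k169 k253 k252 13 14))))] .n) .n)))))

def s170_255_240 : T TT 256 :=
  (.q k192 [(.s k1 k2 0 (.s k128 k64 7 (.s k129 k66 8 (.s k65 k193 7 (.d k130 k131 k195 0 8))))),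
  (.s k1 k2 0 (.s k64 k128 7 (.s k106 k127 6 (.s k169 k253 13 (.s k43 k232 8 (.d k63 k149 k23 14
  5)))))), (.s k64 k128 7 (.s k66 k129 8 (.s k106 k127 6 (.s k86 k126 5 (.s k84 k87 0 (.d k252 k168
  k169 13 14)))))), (.s k1 k2 0 (.s k129 k66 8 (.s k169 k253 13 (.s k149 k189 5 (.s k21 k213 7 (.d
  k63 k42 k106 6 14))))))] (.c k86 (.l (.s k2 k1 0 (.s k64 k128 7 (.s k66 k129 8 (.s k65 k67 0 (.d
  k130 k194 k195 7 8)))))) (.c k245 (.q k250 [(.s k1 k2 0 (.s k128 k64 7 (.s k129 k66 8 (.s k65 k193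
  7 (.d k130 k131 k195 0 8))))), (.s k1 k2 0 (.s k64 k128 7 (.s k106 k127 6 (.s k169 k253 13 (.s k43
  k232 8 (.d k63 k149 k23 14 5)))))), (.s k64 k128 7 (.s k66 k129 8 (.s k106 k127 6 (.s k86 k126 5
  (.s k84 k87 0 (.d k252 k168 k169 13 14)))))), (.s k1 k2 0 (.s k129 k66 8 (.s k169 k253 13 (.s k149
  k189 5 (.s k21 k213 7 (.d k63 k42 k106 6 14))))))] (.c k86 (.l (.s k2 k1 0 (.s k64 k128 7 (.s k66
  k129 8 (.s k65 k67 0 (.d k130 k194 k195 7 8)))))) .n)) (.c k250 (.q k245 [(.s k1 k2 0 (.s k128 k64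
  7 (.s k129 k66 8 (.s k65 k193 7 (.d k130 k131 k195 0 8))))), (.s k1 k2 0 (.s k5 k165 11 (.s k9 k13
  1 (.s k6 k12 2 (.s k7 k4 0 (.d k15 k10 k11 2 1)))))), (.s k64 k128 7 (.s k66 k129 8 (.s k106 k127
  6 (.s k86 k126 5 (.s k84 k87 0 (.d k252 k168 k169 13 14))))))] (.c k10 (.q k90 [(.s k2 k1 0 (.s
  k64 k128 7 (.s k66 k129 8 (.s k65 k67 0 (.d k130 k194 k195 7 8))))), (.s k5 k165 11 (.s k64 k128 7
  (.s k106 k127 6 (.s k74 k122 3 (.s k69 k79 2 (.d k133 k197 k15 7 10)))))), (.s k1 k2 0 (.s k129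
  k66 8 (.s k169 k253 13 (.s k149 k189 5 (.s k21 k213 7 (.d k63 k42 k106 6 14))))))] (.c k149 (.l
  (.s k1 k2 0 (.s k128 k64 7 (.s k129 k66 8 (.s k65 k193 7 (.d k130 k131 k195 0 8)))))) .n)) (.c k86
  (.l (.s k2 k1 0 (.s k64 k128 7 (.s k66 k129 8 (.s k65 k67 0 (.d k130 k194 k195 7 8)))))) (.c k90
  (.q k10 [(.d k5 k15 k165 2 11)] (.c k5 (.l (.s k1 k2 0 (.s k128 k64 7 (.s k129 k66 8 (.s k65 k193
  7 (.d k130 k131 k195 0 8)))))) (.c k15 (.l (.s k165 k5 11 (.s k1 k2 0 (.s k128 k64 7 (.s k129 k66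
  8 (.s k65 k193 7 (.d k130 k131 k195 0 8))))))) (.c k165 (.l (.s k15 k5 2 (.s k2 k1 0 (.s k6 k14 1
  (.s k9 k12 2 (.d k11 k8 k7 0 1)))))) .n)))) .n)))) .n))))

def s170_255_241 : T TT 256 :=
  (.q k5 [(.s k2 k1 0 (.s k10 k15 2 (.s k6 k14 1 (.s k4 k7 0 (.d k12 k8 k9 1 2))))), (.s k15 k10 2
  (.s k7 k11 1 (.s k165 k245 11 (.s k86 k244 12 (.s k84 k87 0 (.d k252 k168 k169 13 14)))))), (.s k1
  k2 0 (.s k15 k10 2 (.s k11 k7 1 (.s k169 k253 13 (.s k90 k248 12 (.d k165 k245 k240 11 14)))))),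
  (.s k1 k2 0 (.s k9 k13 1 (.s k12 k6 2 (.s k4 k8 1 (.s k166 k247 12 (.s k169 k253 13 (.d k89 k249
  k243 11 14)))))))] (.c k10 (.l (.s k1 k2 0 (.s k9 k13 1 (.s k6 k12 2 (.s k4 k7 0 (.s k166 k247 12
  (.s k86 k246 11 (.d k169 k253 k252 13 14)))))))) .n))

def s170_255_242 : T TT 256 :=
  (.q k5 [(.s k2 k1 0 (.s k10 k15 2 (.s k6 k14 1 (.s k4 k7 0 (.d k12 k8 k9 1 2))))), (.s k1 k2 0 (.s
  k13 k9 1 (.s k165 k245 11 (.s k89 k241 13 (.s k93 k81 1 (.d k253 k173 k169 11 13)))))), (.s k15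
  k10 2 (.s k7 k11 1 (.s k165 k245 11 (.s k86 k244 12 (.s k84 k87 0 (.d k252 k168 k169 13 14))))))]
  (.c k9 (.l (.s k1 k2 0 (.s k15 k10 2 (.s k11 k7 1 (.s k165 k245 11 (.s k169 k253 13 (.d k90 k240
  k248 14 12))))))) .n))

def s170_255_243 : T TT 256 :=
  (.q k48 [(.s k1 k2 0 (.s k32 k16 3 (.s k33 k18 4 (.s k17 k49 3 (.d k34 k35 k51 0 4))))), (.s k1 k2
  0 (.s k16 k32 3 (.s k154 k223 10 (.s k169 k253 13 (.s k139 k184 4 (.d k207 k101 k71 14 9)))))),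
  (.s k16 k32 3 (.s k18 k33 4 (.s k154 k223 10 (.s k86 k222 9 (.s k84 k87 0 (.d k252 k168 k169 13
  14)))))), (.s k1 k2 0 (.s k33 k18 4 (.s k169 k253 13 (.s k101 k237 9 (.s k69 k117 3 (.d k207 k138
  k154 10 14))))))] (.c k86 (.l (.s k2 k1 0 (.s k16 k32 3 (.s k18 k33 4 (.s k17 k19 0 (.d k34 k50
  k51 3 4)))))) (.c k247 (.q k251 [(.s k1 k2 0 (.s k32 k16 3 (.s k33 k18 4 (.s k17 k49 3 (.d k34 k35
  k51 0 4))))), (.s k1 k2 0 (.s k16 k32 3 (.s k154 k223 10 (.s k169 k253 13 (.s k139 k184 4 (.d k207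
  k101 k71 14 9)))))), (.s k16 k32 3 (.s k18 k33 4 (.s k154 k223 10 (.s k86 k222 9 (.s k84 k87 0 (.d
  k252 k168 k169 13 14)))))), (.s k1 k2 0 (.s k33 k18 4 (.s k169 k253 13 (.s k101 k237 9 (.s k69
  k117 3 (.d k207 k138 k154 10 14))))))] (.c k86 (.l (.s k2 k1 0 (.s k16 k32 3 (.s k18 k33 4 (.s k17
  k19 0 (.d k34 k50 k51 3 4)))))) .n)) (.c k251 (.q k247 [(.s k1 k2 0 (.s k32 k16 3 (.s k33 k18 4
  (.s k17 k49 3 (.d k34 k35 k51 0 4))))), (.s k1 k2 0 (.s k16 k32 3 (.s k154 k223 10 (.s k169 k253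
  13 (.s k139 k184 4 (.d k207 k101 k71 14 9)))))), (.s k16 k32 3 (.s k18 k33 4 (.s k154 k223 10 (.s
  k86 k222 9 (.s k84 k87 0 (.d k252 k168 k169 13 14)))))), (.s k1 k2 0 (.s k33 k18 4 (.s k169 k253
  13 (.s k101 k237 9 (.s k69 k117 3 (.d k207 k138 k154 10 14))))))] (.c k8 (.q k89 [(.s k1 k2 0 (.s
  k32 k16 3 (.s k33 k18 4 (.s k17 k49 3 (.d k34 k35 k51 0 4))))), (.s k4 k166 12 (.s k16 k32 3 (.s
  k154 k223 10 (.s k24 k219 8 (.s k20 k28 1 (.d k36 k52 k12 3 5)))))), (.s k1 k2 0 (.s k4 k166 12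
  (.s k169 k253 13 (.s k9 k249 11 (.s k5 k13 1 (.d k6 k7 k12 0 2))))))] .n) (.c k86 (.l (.s k2 k1 0
  (.s k16 k32 3 (.s k18 k33 4 (.s k17 k19 0 (.d k34 k50 k51 3 4)))))) (.c k89 (.q k8 [(.d k4 k12
  k166 1 12)] (.c k4 (.l (.s k1 k2 0 (.s k32 k16 3 (.s k33 k18 4 (.s k17 k49 3 (.d k34 k35 k51 0
  4)))))) (.c k12 (.l (.s k166 k4 12 (.s k1 k2 0 (.s k32 k16 3 (.s k33 k18 4 (.s k17 k49 3 (.d k34
  k35 k51 0 4))))))) (.c k166 (.l (.s k12 k4 1 (.s k1 k2 0 (.s k9 k6 2 (.s k5 k13 1 (.d k10 k11 k15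
  0 2)))))) .n)))) .n)))) .n))))

def s170_255_244 : T TT 256 :=
  (.q k17 [(.s k2 k1 0 (.s k34 k51 4 (.s k18 k50 3 (.s k16 k19 0 (.d k48 k32 k33 3 4))))), (.s k1 k2
  0 (.s k49 k33 3 (.s k153 k221 9 (.s k101 k205 13 (.s k117 k69 3 (.d k253 k185 k169 9 13)))))), (.s
  k51 k34 4 (.s k19 k35 3 (.s k153 k221 9 (.s k86 k220 10 (.s k84 k87 0 (.d k252 k168 k169 13
  14))))))] (.c k33 (.l (.s k1 k2 0 (.s k51 k34 4 (.s k35 k19 3 (.s k153 k221 9 (.s k169 k253 13 (.d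
  k102 k204 k236 14 10))))))) .n))

def s170_255_245 : T TT 256 :=
  (.q k240 [(.s k2 k1 0 (.s k80 k160 11 (.s k82 k161 12 (.s k81 k83 0 (.d k162 k242 k243 11 12))))),
  (.s k1 k2 0 (.s k80 k160 11 (.s k90 k95 2 (.s k169 k253 13 (.s k11 k248 12 (.d k15 k165 k7 14
  1)))))), (.s k80 k160 11 (.s k82 k161 12 (.s k90 k95 2 (.s k86 k94 1 (.s k84 k87 0 (.d k252 k168
  k169 13 14)))))), (.s k1 k2 0 (.s k161 k82 12 (.s k169 k253 13 (.s k165 k173 1 (.s k15 k90 14 (.s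
  k7 k11 1 (.d k86 k252 k244 14 12)))))))] (.c k165 (.l (.s k1 k2 0 (.s k160 k80 11 (.s k161 k82 12
  (.s k81 k241 11 (.d k162 k163 k243 0 12)))))) .n))

def s170_255_246 : T TT 256 :=
  (.q k17 [(.s k2 k1 0 (.s k34 k51 4 (.s k18 k50 3 (.s k16 k19 0 (.d k48 k32 k33 3 4))))), (.s k1 k2
  0 (.s k49 k33 3 (.s k153 k221 9 (.s k101 k205 13 (.s k117 k69 3 (.d k253 k185 k169 9 13)))))), (.s
  k51 k34 4 (.s k19 k35 3 (.s k153 k221 9 (.s k86 k220 10 (.s k84 k87 0 (.d k252 k168 k169 13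
  14))))))] (.c k33 (.l (.s k1 k2 0 (.s k51 k34 4 (.s k35 k19 3 (.s k153 k221 9 (.s k169 k253 13 (.d
  k102 k204 k236 14 10))))))) .n))

def s170_255_247 : T TT 256 :=
  (.q k243 [(.s k2 k1 0 (.s k162 k81 12 (.s k82 k242 11 (.s k161 k240 12 (.d k163 k160 k83 0
  11))))), (.s k1 k2 0 (.s k163 k83 11 (.s k169 k253 13 (.s k166 k172 2 (.s k12 k89 14 (.s k6 k9 2
  (.d k86 k252 k246 14 11))))))), (.s k81 k162 12 (.s k83 k163 11 (.s k89 k93 1 (.s k86 k92 2 (.s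
  k84 k87 0 (.d k252 k168 k169 13 14)))))), (.s k1 k2 0 (.s k81 k162 12 (.s k89 k93 1 (.s k169 k253
  13 (.s k9 k249 11 (.d k12 k166 k6 14 2))))))] .n)

def s170_255_248 : T TT 256 :=
  (.q k5 [(.s k2 k1 0 (.s k10 k15 2 (.s k6 k14 1 (.s k4 k7 0 (.d k12 k8 k9 1 2))))), (.s k1 k2 0 (.s
  k13 k9 1 (.s k165 k245 11 (.s k89 k241 13 (.s k93 k81 1 (.d k253 k173 k169 11 13)))))), (.s k15
  k10 2 (.s k7 k11 1 (.s k165 k245 11 (.s k86 k244 12 (.s k84 k87 0 (.d k252 k169 k168 14 13))))))]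
  (.c k9 (.l (.s k1 k2 0 (.s k15 k10 2 (.s k165 k245 11 (.s k169 k253 13 (.s k161 k173 1 (.d k240
  k90 k82 14 12))))))) .n))

def s170_255_249 : T TT 256 :=
  (.q k5 [(.s k2 k1 0 (.s k10 k15 2 (.s k6 k14 1 (.s k4 k7 0 (.d k12 k8 k9 1 2))))), (.s k1 k2 0 (.s
  k13 k9 1 (.s k165 k245 11 (.s k89 k241 13 (.s k253 k169 13 (.d k93 k81 k173 1 11)))))), (.s k15
  k10 2 (.s k7 k11 1 (.s k165 k245 11 (.s k86 k244 12 (.s k84 k87 0 (.d k252 k168 k169 13 14))))))]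
  (.c k9 (.l (.s k1 k2 0 (.s k15 k10 2 (.s k11 k7 1 (.s k169 k253 13 (.s k90 k248 12 (.d k165 k245
  k240 11 14))))))) .n))

def s170_255_250 : T TT 256 :=
  (.q k240 [(.s k1 k2 0 (.s k160 k80 11 (.s k161 k82 12 (.s k81 k241 11 (.d k162 k163 k243 0
  12))))), (.s k1 k2 0 (.s k80 k160 11 (.s k90 k95 2 (.s k169 k253 13 (.s k11 k248 12 (.d k15 k165
  k7 14 1)))))), (.s k80 k160 11 (.s k82 k161 12 (.s k90 k95 2 (.s k86 k94 1 (.s k84 k87 0 (.d k252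
  k168 k169 13 14)))))), (.s k1 k2 0 (.s k161 k82 12 (.s k169 k253 13 (.s k165 k173 1 (.s k5 k245 11
  (.d k15 k10 k90 2 14))))))] (.c k10 (.q k90 [(.d k80 k95 k160 2 11), (.s k1 k2 0 (.s k82 k161 12
  (.s k86 k94 1 (.d k169 k253 k252 13 14))))] .n) (.c k86 (.l (.s k2 k1 0 (.s k80 k160 11 (.s k82
  k161 12 (.s k81 k83 0 (.d k162 k242 k243 11 12)))))) (.c k90 (.q k10 [(.s k1 k2 0 (.s k160 k80 11
  (.s k161 k82 12 (.s k81 k241 11 (.d k162 k163 k243 0 12))))), (.s k2 k1 0 (.s k5 k15 2 (.s k6 k14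
  1 (.s k4 k7 0 (.d k12 k8 k9 1 2))))), (.s k5 k15 2 (.s k161 k82 12 (.s k165 k245 11 (.s k169 k173
  1 (.s k1 k253 13 (.s k13 k9 1 (.d k241 k81 k89 11 13)))))))] (.c k1 (.q k2 [(.s k80 k160 11 (.s
  k82 k161 12 (.s k81 k83 0 (.d k162 k242 k243 11 12)))), (.s k15 k5 2 (.s k11 k7 1 (.s k9 k8 0 (.d
  k6 k14 k12 1 2))))] .n) .n)) .n))))

def s170_255_251 : T TT 256 :=
  (.q k89 [(.s k1 k2 0 (.s k81 k93 1 (.s k161 k241 11 (.s k240 k82 12 (.s k160 k80 11 (.d k162 k243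
  k163 12 0)))))), (.s k1 k2 0 (.s k169 k253 13 (.s k9 k249 11 (.s k12 k6 2 (.s k4 k8 1 (.d k166
  k247 k243 12 14)))))), (.s k81 k93 1 (.s k243 k162 12 (.s k83 k163 11 (.s k86 k92 2 (.s k84 k87 0
  (.d k252 k168 k169 13 14))))))] (.c k12 (.l (.s k1 k2 0 (.s k93 k81 1 (.s k253 k169 13 (.s k13
  k173 11 (.s k5 k9 1 (.d k165 k245 k241 11 13))))))) (.c k86 (.l (.s k81 k93 1 (.s k243 k162 12 (.s
  k83 k163 11 (.s k82 k80 0 (.s k161 k240 12 (.d k1 k2 k241 0 11))))))) (.c k243 (.q k247 [(.s k1 k2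
  0 (.s k4 k166 12 (.s k12 k8 1 (.s k169 k253 13 (.d k9 k6 k249 2 11))))), (.s k1 k2 0 (.s k93 k81 1
  (.s k253 k169 13 (.s k13 k173 11 (.s k5 k9 1 (.d k165 k245 k241 11 13)))))), (.s k4 k166 12 (.s
  k12 k8 1 (.s k6 k9 2 (.s k5 k7 0 (.s k165 k245 11 (.s k13 k241 13 (.d k15 k10 k14 2 0)))))))] (.c
  k9 (.l (.s k1 k2 0 (.s k81 k93 1 (.s k241 k161 11 (.s k165 k13 13 (.s k245 k5 11 (.d k253 k249
  k169 1 13))))))) (.c k253 (.l (.s k2 k1 0 (.s k4 k166 12 (.s k12 k8 1 (.s k6 k9 2 (.s k5 k7 0 (.d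
  k10 k14 k15 1 2))))))) .n))) (.c k247 (.q k243 [(.d k81 k93 k162 1 12), (.s k1 k2 0 (.s k83 k163
  11 (.s k86 k92 2 (.d k169 k253 k252 13 14))))] .n) .n)))))

def s170_255_252 : T TT 256 :=
  (.q k81 [(.s k2 k1 0 (.s k162 k243 12 (.s k82 k242 11 (.s k80 k83 0 (.d k240 k160 k161 11 12))))),
  (.s k1 k2 0 (.s k89 k93 1 (.s k241 k161 11 (.s k13 k165 13 (.s k9 k5 1 (.d k169 k253 k249 13
  11)))))), (.s k89 k93 1 (.s k243 k162 12 (.s k83 k163 11 (.s k86 k92 2 (.s k87 k84 0 (.s k95 k91 1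
  (.d k80 k82 k90 0 2)))))))] (.c k160 (.l (.s k1 k2 0 (.s k161 k241 11 (.s k82 k240 12 (.s k83 k80
  0 (.d k243 k163 k162 11 12)))))) (.c k161 (.f k2 k1 0 (.q k34 [(.s k17 k51 4 (.s k18 k50 3 (.s k16
  k19 0 (.d k48 k32 k33 3 4)))), (.s k162 k243 12 (.s k98 k226 7 (.s k64 k115 4 (.s k192 k128 7 (.d
  k51 k17 k145 4 12))))), (.s k18 k50 3 (.s k162 k243 12 (.s k82 k242 11 (.s k146 k210 7 (.s k16
  k211 8 (.d k48 k32 k33 3 4))))))] (.c k253 (.q k254 [(.s k17 k51 4 (.s k18 k50 3 (.s k16 k19 0 (.d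
  k48 k32 k33 3 4)))), (.s k162 k243 12 (.s k98 k226 7 (.s k64 k115 4 (.s k192 k128 7 (.d k51 k17
  k145 4 12))))), (.s k18 k50 3 (.s k162 k243 12 (.s k82 k242 11 (.s k146 k210 7 (.s k16 k211 8 (.d
  k48 k32 k33 3 4))))))] .n) (.c k254 (.q k253 [(.s k51 k17 4 (.s k35 k19 3 (.s k33 k32 0 (.d k18
  k50 k48 3 4)))), (.s k162 k243 12 (.s k98 k226 7 (.s k64 k115 4 (.s k192 k128 7 (.d k51 k17 k145 4
  12))))), (.s k18 k50 3 (.s k162 k243 12 (.s k82 k242 11 (.s k146 k210 7 (.s k16 k211 8 (.d k48 k32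
  k33 3 4))))))] .n) .n)))) (.c k253 (.q k254 [(.s k1 k2 0 (.s k243 k162 12 (.s k83 k163 11 (.s k82
  k80 0 (.d k161 k241 k240 11 12))))), (.s k1 k2 0 (.s k89 k93 1 (.s k241 k161 11 (.s k13 k165 13
  (.s k9 k5 1 (.s k12 k6 2 (.d k243 k162 k166 12 14))))))), (.s k1 k2 0 (.s k161 k241 11 (.s k82
  k240 12 (.s k83 k80 0 (.d k243 k163 k162 11 12))))), (.s k89 k93 1 (.s k243 k162 12 (.s k83 k163
  11 (.s k86 k92 2 (.s k87 k84 0 (.s k95 k91 1 (.d k80 k82 k90 0 2)))))))] (.c k161 (.q k5 [(.s k1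
  k2 0 (.s k13 k9 1 (.s k89 k93 1 (.d k165 k245 k241 11 13)))), (.s k2 k1 0 (.s k10 k15 2 (.s k6 k14
  1 (.s k12 k9 2 (.d k4 k7 k8 0 1))))), (.s k15 k10 2 (.s k89 k93 1 (.s k165 k245 11 (.s k243 k162
  12 (.s k91 k167 13 (.d k90 k240 k88 14 0))))))] (.c k12 (.l (.s k1 k2 0 (.s k13 k9 1 (.s k165 k245
  11 (.d k89 k241 k93 13 1))))) (.c k13 (.l (.s k2 k1 0 (.s k10 k15 2 (.s k6 k14 1 (.s k12 k9 2 (.d
  k4 k7 k8 0 1)))))) .n))) (.c k162 (.f k1 k2 0 (.l (.s k89 k93 1 (.s k241 k161 11 (.s k13 k165 13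
  (.s k9 k5 1 (.s k12 k6 2 (.s k4 k8 1 (.d k166 k247 k243 12 14))))))))) (.c k243 (.f k1 k2 0 (.f
  k161 k241 11 (.f k240 k82 12 (.f k80 k160 11 (.l (.s k89 k93 1 (.s k90 k95 2 (.s k88 k91 0 (.s k12
  k164 13 (.s k9 k6 2 (.s k13 k5 1 (.d k15 k14 k165 0 14)))))))))))) .n)))) (.c k254 (.q k253 [(.d
  k1 k2 k169 0 13), (.s k89 k93 1 (.s k243 k162 12 (.s k83 k163 11 (.s k80 k82 0 (.s k86 k92 2 (.s
  k87 k84 0 (.d k95 k91 k90 1 2)))))))] (.c k2 (.q k86 [(.s k89 k93 1 (.s k83 k92 2 (.d k243 k163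
  k162 11 12))), (.s k1 k169 13 (.s k89 k93 1 (.s k241 k161 11 (.s k165 k13 13 (.d k245 k249 k5 1
  11))))), (.s k1 k169 13 (.s k161 k241 11 (.s k82 k240 12 (.s k80 k83 0 (.d k90 k94 k95 1 2)))))]
  .n) (.c k86 (.l (.s k2 k1 0 (.s k162 k243 12 (.s k82 k242 11 (.s k80 k83 0 (.d k240 k160 k161 11
  12)))))) .n))) .n)))))

def s170_255_253 : T TT 256 :=
  (.q k81 [(.s k2 k1 0 (.s k162 k243 12 (.s k82 k242 11 (.s k80 k83 0 (.d k240 k160 k161 11 12))))),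
  (.s k89 k93 1 (.s k243 k162 12 (.s k83 k163 11 (.s k86 k92 2 (.s k84 k87 0 (.d k252 k168 k169 13
  14))))))] (.c k83 (.l (.s k1 k2 0 (.s k161 k241 11 (.s k162 k243 12 (.s k160 k163 0 (.d k240 k80
  k82 11 12)))))) (.c k160 (.l (.s k1 k2 0 (.s k161 k241 11 (.s k82 k240 12 (.s k83 k80 0 (.d k243
  k163 k162 11 12)))))) (.c k161 (.f k2 k1 0 (.l (.s k89 k93 1 (.s k162 k243 12 (.s k82 k242 11 (.s
  k83 k80 0 (.s k86 k92 2 (.s k84 k87 0 (.d k252 k168 k169 13 14))))))))) (.c k162 (.f k1 k2 0 (.l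
  (.s k89 k93 1 (.s k161 k241 11 (.s k82 k240 12 (.s k83 k80 0 (.s k86 k92 2 (.s k84 k87 0 (.d k252
  k168 k169 13 14))))))))) (.c k243 (.f k1 k2 0 (.f k89 k93 1 (.f k161 k241 11 (.f k240 k82 12 (.l
  (.s k80 k160 11 (.s k90 k95 2 (.s k88 k91 0 (.s k12 k164 13 (.s k8 k4 1 (.s k168 k248 11 (.d k84
  k92 k252 1 13)))))))))))) (.c k252 (.q k254 [(.s k1 k2 0 (.s k243 k162 12 (.s k83 k163 11 (.s k82
  k80 0 (.d k161 k241 k240 11 12))))), (.s k1 k2 0 (.s k89 k93 1 (.s k241 k161 11 (.s k13 k165 13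
  (.s k9 k5 1 (.s k12 k6 2 (.d k243 k162 k166 12 14))))))), (.s k1 k2 0 (.s k161 k241 11 (.s k82
  k240 12 (.s k83 k80 0 (.d k243 k163 k162 11 12))))), (.s k89 k93 1 (.s k243 k162 12 (.s k83 k163
  11 (.s k86 k92 2 (.s k87 k84 0 (.s k95 k91 1 (.d k80 k82 k90 0 2)))))))] (.c k161 (.q k5 [(.s k1
  k2 0 (.s k13 k9 1 (.s k89 k93 1 (.d k165 k245 k241 11 13)))), (.s k2 k1 0 (.s k10 k15 2 (.s k6 k14
  1 (.s k12 k9 2 (.d k4 k7 k8 0 1))))), (.s k15 k10 2 (.s k89 k93 1 (.s k165 k245 11 (.s k243 k162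
  12 (.s k91 k167 13 (.d k90 k240 k88 14 0))))))] (.c k12 (.l (.s k1 k2 0 (.s k13 k9 1 (.s k165 k245
  11 (.d k89 k241 k93 13 1))))) (.c k13 (.l (.s k2 k1 0 (.s k10 k15 2 (.s k6 k14 1 (.s k12 k9 2 (.d
  k4 k7 k8 0 1)))))) .n))) (.c k162 (.f k1 k2 0 (.l (.s k89 k93 1 (.s k241 k161 11 (.s k13 k165 13
  (.s k9 k5 1 (.s k12 k6 2 (.s k4 k8 1 (.d k166 k247 k243 12 14))))))))) (.c k243 (.f k1 k2 0 (.f
  k161 k241 11 (.f k240 k82 12 (.f k80 k160 11 (.l (.s k89 k93 1 (.s k90 k95 2 (.s k88 k91 0 (.s k12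
  k164 13 (.s k9 k6 2 (.s k13 k5 1 (.d k15 k14 k165 0 14)))))))))))) .n)))) (.c k254 (.q k252 [(.s
  k84 k168 13 (.d k86 k169 k87 14 0)), (.s k2 k1 0 (.s k162 k243 12 (.s k82 k242 11 (.s k80 k83 0
  (.d k240 k160 k161 11 12)))))] (.c k2 (.l (.s k86 k169 14 (.d k84 k168 k87 13 0))) (.c k86 (.l (.s
  k2 k1 0 (.s k162 k243 12 (.s k82 k242 11 (.s k80 k83 0 (.d k240 k160 k161 11 12)))))) .n)))
  .n))))))))

def s170_255_254 : T TT 256 :=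
  (.q k86 [(.s k1 k2 0 (.d k169 k253 k252 13 14)), (.s k84 k87 0 (.d k252 k168 k169 13 14))] (.c
  k169 (.f k2 k1 0 (.f k84 k87 0 (.q k64 [(.s k106 k127 6 (.s k192 k128 7 (.d k66 k126 k129 5 8))),
  (.s k124 k104 5 (.s k67 k105 6 (.s k65 k66 0 (.d k195 k131 k130 7 8)))), (.s k192 k128 7 (.s k66
  k129 8 (.d k106 k126 k127 5 6)))] (.c k66 (.l (.s k124 k104 5 (.s k105 k67 6 (.s k125 k65 5 (.d
  k127 k126 k106 0 6))))) (.c k106 (.l (.s k124 k104 5 (.s k192 k128 7 (.s k66 k129 8 (.d k67 k65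
  k105 0 6))))) (.c k168 (.q k171 [(.s k106 k127 6 (.s k192 k128 7 (.d k66 k126 k129 5 8))), (.s
  k124 k104 5 (.s k67 k105 6 (.s k65 k66 0 (.d k195 k131 k130 7 8)))), (.s k192 k128 7 (.s k66 k129
  8 (.d k106 k126 k127 5 6)))] (.c k66 (.l (.s k124 k104 5 (.s k105 k67 6 (.s k125 k65 5 (.d k127
  k126 k106 0 6))))) (.c k106 (.l (.s k124 k104 5 (.s k192 k128 7 (.s k66 k129 8 (.d k67 k65 k105 0
  6))))) (.c k252 (.q k253 [(.s k106 k127 6 (.s k192 k128 7 (.d k66 k126 k129 5 8))), (.s k124 k104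
  5 (.s k67 k105 6 (.s k65 k66 0 (.d k195 k131 k130 7 8)))), (.s k192 k128 7 (.s k66 k129 8 (.d k106
  k126 k127 5 6)))] (.c k66 (.l (.s k124 k104 5 (.s k105 k67 6 (.s k125 k65 5 (.d k127 k126 k106 0
  6))))) (.c k106 (.l (.s k124 k104 5 (.s k192 k128 7 (.s k66 k129 8 (.d k67 k65 k105 0 6))))) .n)))
  (.c k253 (.q k252 [(.s k106 k127 6 (.s k192 k128 7 (.d k66 k126 k129 5 8))), (.s k124 k104 5 (.s
  k67 k105 6 (.s k65 k66 0 (.d k195 k131 k130 7 8)))), (.s k104 k124 5 (.s k192 k128 7 (.s k148 k60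
  13 (.d k212 k232 k20 5 7))))] .n) .n))))) (.c k171 (.f k168 k252 13 (.q k253 [(.s k106 k127 6 (.s
  k192 k128 7 (.d k66 k126 k129 5 8))), (.s k104 k124 5 (.s k40 k232 7 (.s k60 k20 5 (.d k192 k128
  k148 7 13)))), (.s k106 k127 6 (.s k66 k126 5 (.s k67 k65 0 (.d k124 k104 k105 5 6))))] (.c k106
  (.l (.s k104 k124 5 (.s k192 k128 7 (.s k60 k148 13 (.d k40 k20 k232 5 7))))) .n))) (.c k252 (.q
  k253 [(.s k106 k127 6 (.s k192 k128 7 (.d k66 k126 k129 5 8))), (.s k124 k104 5 (.s k67 k105 6 (.s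
  k65 k66 0 (.d k195 k131 k130 7 8)))), (.s k192 k128 7 (.s k66 k129 8 (.d k106 k126 k127 5 6)))]
  (.c k66 (.l (.s k124 k104 5 (.s k105 k67 6 (.s k125 k65 5 (.d k127 k126 k106 0 6))))) (.c k106 (.l
  (.s k124 k104 5 (.s k192 k128 7 (.s k66 k129 8 (.d k67 k65 k105 0 6))))) (.c k168 (.q k171 [(.s
  k106 k127 6 (.s k192 k128 7 (.d k66 k126 k129 5 8))), (.s k124 k104 5 (.s k67 k105 6 (.s k65 k66 0
  (.d k195 k131 k130 7 8)))), (.s k192 k128 7 (.s k66 k129 8 (.d k106 k126 k127 5 6)))] (.c k66 (.l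
  (.s k124 k104 5 (.s k105 k67 6 (.s k125 k65 5 (.d k127 k126 k106 0 6))))) (.c k106 (.l (.s k124
  k104 5 (.s k192 k128 7 (.s k66 k129 8 (.d k67 k65 k105 0 6))))) .n))) (.c k171 (.q k168 [(.s k106
  k127 6 (.s k192 k128 7 (.d k66 k126 k129 5 8))), (.s k104 k124 5 (.s k40 k232 7 (.s k60 k20 5 (.d
  k192 k128 k148 7 13)))), (.s k106 k127 6 (.s k66 k126 5 (.s k67 k65 0 (.d k124 k104 k105 5 6))))]
  (.c k106 (.l (.s k104 k124 5 (.s k192 k128 7 (.s k60 k148 13 (.d k40 k20 k232 5 7))))) .n))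
  .n))))) (.c k253 (.f k252 k168 13 (.q k171 [(.s k106 k127 6 (.s k192 k128 7 (.d k66 k126 k129 5
  8))), (.s k124 k104 5 (.s k67 k105 6 (.s k65 k66 0 (.d k195 k131 k130 7 8)))), (.s k104 k124 5 (.s
  k192 k128 7 (.s k148 k60 13 (.d k212 k232 k20 5 7))))] .n)) .n))))))))) (.c k252 (.q k253 [(.d k1
  k2 k169 0 13)] (.c k1 (.q k4 [(.s k12 k8 1 (.s k166 k247 12 (.d k6 k9 k246 2 11))), (.s k84 k87 0
  (.s k244 k164 11 (.s k7 k165 12 (.s k5 k6 0 (.d k15 k11 k10 1 2)))))] (.c k6 (.l (.s k84 k87 0 (.s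
  k244 k164 11 (.s k165 k7 12 (.s k245 k5 11 (.d k247 k246 k166 0 12)))))) (.c k166 (.l (.s k12 k8 1
  (.s k6 k9 2 (.s k84 k87 0 (.s k244 k164 11 (.d k7 k5 k165 0 12)))))) .n))) (.c k2 (.q k4 [(.s k12
  k8 1 (.s k166 k247 12 (.d k6 k9 k246 2 11))), (.s k84 k87 0 (.s k244 k164 11 (.s k7 k165 12 (.s k5
  k6 0 (.d k15 k10 k11 2 1)))))] (.c k6 (.l (.s k12 k8 1 (.s k166 k247 12 (.s k169 k1 13 (.s k163
  k172 2 (.d k243 k89 k83 14 11)))))) (.c k166 (.l (.s k12 k8 1 (.s k6 k9 2 (.s k7 k5 0 (.s k84 k87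
  0 (.d k244 k164 k165 11 12)))))) .n))) (.c k169 (.f k87 k84 0 (.f k2 k1 0 (.q k67 [(.s k195 k131 7
  (.s k65 k130 8 (.d k105 k125 k124 5 6))), (.s k124 k105 6 (.s k127 k107 5 (.s k106 k64 6 (.d k126
  k125 k66 0 5)))), (.s k127 k107 5 (.s k195 k131 7 (.s k65 k130 8 (.d k64 k66 k106 0 6))))] (.c
  k168 (.q k171 [(.s k195 k131 7 (.s k65 k130 8 (.d k105 k125 k124 5 6))), (.s k107 k127 5 (.s k43
  k235 7 (.s k63 k23 5 (.d k195 k131 k151 7 13)))), (.s k105 k124 6 (.s k65 k125 5 (.s k64 k66 0 (.d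
  k127 k107 k106 5 6))))] (.c k105 (.l (.s k107 k127 5 (.s k195 k131 7 (.s k63 k151 13 (.d k43 k23
  k235 5 7))))) .n)) (.c k171 (.q k168 [(.s k105 k124 6 (.s k65 k125 5 (.d k195 k131 k130 7 8))),
  (.s k124 k105 6 (.s k127 k107 5 (.s k106 k64 6 (.d k126 k125 k66 0 5)))), (.s k127 k107 5 (.s k195
  k131 7 (.s k65 k130 8 (.d k64 k66 k106 0 6)))), (.s k195 k131 7 (.s k65 k130 8 (.d k105 k125 k124
  5 6)))] .n) .n))))) .n)))) (.c k253 (.l (.s k252 k169 14 (.d k84 k168 k87 13 0))) .n))))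

def t170_255 : T TT 256 :=
  (.q k3 [] (.c k1 s170_255_1 (.c k2 s170_255_2 (.c k4 s170_255_4 (.c k5 s170_255_5 (.c k6
  s170_255_6 (.c k7 s170_255_7 (.c k8 s170_255_8 (.c k9 s170_255_9 (.c k10 s170_255_10 (.c k11
  s170_255_11 (.c k12 s170_255_12 (.c k13 s170_255_13 (.c k14 s170_255_14 (.c k15 s170_255_15 (.c
  k16 s170_255_16 (.c k17 s170_255_17 (.c k18 s170_255_18 (.c k19 s170_255_19 (.c k20 s170_255_20
  (.c k21 s170_255_21 (.c k22 s170_255_22 (.c k23 s170_255_23 (.c k24 s170_255_24 (.c k25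
  s170_255_25 (.c k26 s170_255_26 (.c k27 s170_255_27 (.c k28 s170_255_28 (.c k29 s170_255_29 (.c
  k30 s170_255_30 (.c k31 s170_255_31 (.c k32 s170_255_32 (.c k33 s170_255_33 (.c k34 s170_255_34
  (.c k35 s170_255_35 (.c k36 s170_255_36 (.c k37 s170_255_37 (.c k38 s170_255_38 (.c k39
  s170_255_39 (.c k40 s170_255_40 (.c k41 s170_255_41 (.c k42 s170_255_42 (.c k43 s170_255_43 (.c
  k44 s170_255_44 (.c k45 s170_255_45 (.c k46 s170_255_46 (.c k47 s170_255_47 (.c k48 s170_255_48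
  (.c k49 s170_255_49 (.c k50 s170_255_50 (.c k51 s170_255_51 (.c k52 s170_255_52 (.c k53
  s170_255_53 (.c k54 s170_255_54 (.c k55 s170_255_55 (.c k56 s170_255_56 (.c k57 s170_255_57 (.c
  k58 s170_255_58 (.c k59 s170_255_59 (.c k60 s170_255_60 (.c k61 s170_255_61 (.c k62 s170_255_62
  (.c k63 s170_255_63 (.c k64 s170_255_64 (.c k65 s170_255_65 (.c k66 s170_255_66 (.c k67
  s170_255_67 (.c k68 s170_255_68 (.c k69 s170_255_69 (.c k70 s170_255_70 (.c k71 s170_255_71 (.c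
  k72 s170_255_72 (.c k73 s170_255_73 (.c k74 s170_255_74 (.c k75 s170_255_75 (.c k76 s170_255_76
  (.c k77 s170_255_77 (.c k78 s170_255_78 (.c k79 s170_255_79 (.c k80 s170_255_80 (.c k81
  s170_255_81 (.c k82 s170_255_82 (.c k83 s170_255_83 (.c k84 s170_255_84 (.c k86 s170_255_86 (.c
  k87 s170_255_87 (.c k88 s170_255_88 (.c k89 s170_255_89 (.c k90 s170_255_90 (.c k91 s170_255_91
  (.c k92 s170_255_92 (.c k93 s170_255_93 (.c k94 s170_255_94 (.c k95 s170_255_95 (.c k96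
  s170_255_96 (.c k97 s170_255_97 (.c k98 s170_255_98 (.c k99 s170_255_99 (.c k100 s170_255_100 (.c
  k101 s170_255_101 (.c k102 s170_255_102 (.c k103 s170_255_103 (.c k104 s170_255_104 (.c k105
  s170_255_105 (.c k106 s170_255_106 (.c k107 s170_255_107 (.c k108 s170_255_108 (.c k109
  s170_255_109 (.c k110 s170_255_110 (.c k111 s170_255_111 (.c k112 s170_255_112 (.c k113
  s170_255_113 (.c k114 s170_255_114 (.c k115 s170_255_115 (.c k116 s170_255_116 (.c k117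
  s170_255_117 (.c k118 s170_255_118 (.c k119 s170_255_119 (.c k120 s170_255_120 (.c k121
  s170_255_121 (.c k122 s170_255_122 (.c k123 s170_255_123 (.c k124 s170_255_124 (.c k125
  s170_255_125 (.c k126 s170_255_126 (.c k127 s170_255_127 (.c k128 s170_255_128 (.c k129
  s170_255_129 (.c k130 s170_255_130 (.c k131 s170_255_131 (.c k132 s170_255_132 (.c k133
  s170_255_133 (.c k134 s170_255_134 (.c k135 s170_255_135 (.c k136 s170_255_136 (.c k137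
  s170_255_137 (.c k138 s170_255_138 (.c k139 s170_255_139 (.c k140 s170_255_140 (.c k141
  s170_255_141 (.c k142 s170_255_142 (.c k143 s170_255_143 (.c k144 s170_255_144 (.c k145
  s170_255_145 (.c k146 s170_255_146 (.c k147 s170_255_147 (.c k148 s170_255_148 (.c k149
  s170_255_149 (.c k150 s170_255_150 (.c k151 s170_255_151 (.c k152 s170_255_152 (.c k153
  s170_255_153 (.c k154 s170_255_154 (.c k155 s170_255_155 (.c k156 s170_255_156 (.c k157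
  s170_255_157 (.c k158 s170_255_158 (.c k159 s170_255_159 (.c k160 s170_255_160 (.c k161
  s170_255_161 (.c k162 s170_255_162 (.c k163 s170_255_163 (.c k164 s170_255_164 (.c k165
  s170_255_165 (.c k166 s170_255_166 (.c k167 s170_255_167 (.c k168 s170_255_168 (.c k169
  s170_255_169 (.c k171 s170_255_171 (.c k172 s170_255_172 (.c k173 s170_255_173 (.c k174
  s170_255_174 (.c k175 s170_255_175 (.c k176 s170_255_176 (.c k177 s170_255_177 (.c k178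
  s170_255_178 (.c k179 s170_255_179 (.c k180 s170_255_180 (.c k181 s170_255_181 (.c k182
  s170_255_182 (.c k183 s170_255_183 (.c k184 s170_255_184 (.c k185 s170_255_185 (.c k186
  s170_255_186 (.c k187 s170_255_187 (.c k188 s170_255_188 (.c k189 s170_255_189 (.c k190
  s170_255_190 (.c k191 s170_255_191 (.c k192 s170_255_192 (.c k193 s170_255_193 (.c k194
  s170_255_194 (.c k195 s170_255_195 (.c k196 s170_255_196 (.c k197 s170_255_197 (.c k198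
  s170_255_198 (.c k199 s170_255_199 (.c k200 s170_255_200 (.c k201 s170_255_201 (.c k202
  s170_255_202 (.c k203 s170_255_203 (.c k204 s170_255_204 (.c k205 s170_255_205 (.c k206
  s170_255_206 (.c k207 s170_255_207 (.c k208 s170_255_208 (.c k209 s170_255_209 (.c k210
  s170_255_210 (.c k211 s170_255_211 (.c k212 s170_255_212 (.c k213 s170_255_213 (.c k214
  s170_255_214 (.c k215 s170_255_215 (.c k216 s170_255_216 (.c k217 s170_255_217 (.c k218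
  s170_255_218 (.c k219 s170_255_219 (.c k220 s170_255_220 (.c k221 s170_255_221 (.c k222
  s170_255_222 (.c k223 s170_255_223 (.c k224 s170_255_224 (.c k225 s170_255_225 (.c k226
  s170_255_226 (.c k227 s170_255_227 (.c k228 s170_255_228 (.c k229 s170_255_229 (.c k230
  s170_255_230 (.c k231 s170_255_231 (.c k232 s170_255_232 (.c k233 s170_255_233 (.c k234
  s170_255_234 (.c k235 s170_255_235 (.c k236 s170_255_236 (.c k237 s170_255_237 (.c k238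
  s170_255_238 (.c k239 s170_255_239 (.c k240 s170_255_240 (.c k241 s170_255_241 (.c k242
  s170_255_242 (.c k243 s170_255_243 (.c k244 s170_255_244 (.c k245 s170_255_245 (.c k246
  s170_255_246 (.c k247 s170_255_247 (.c k248 s170_255_248 (.c k249 s170_255_249 (.c k250
  s170_255_250 (.c k251 s170_255_251 (.c k252 s170_255_252 (.c k253 s170_255_253 (.c k254
  s170_255_254 .n))))))))))))))))))))))))))))))))))))))))))))))))))))))))))))))))))))))))))))))))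
  ))))))))))))))))))))))))))))))))))))))))))))))))))))))))))))))))))))))))))))))))
  )))))))))))))))))))))))))))))))))))))))))))))))))))))))))))))))))))))))))))))))) ))))))))))))

/-- roots with certificates -/
def certs : List (Cell TT 256 × Cell TT 256 × T TT 256) :=
  [(k170, k191, t170_191), (k170, k255, t170_255)]

theorem c170_191 : rootOK k170 k191 t170_191 = true := by decide +kernel

theorem c170_255 : rootOK k170 k255 t170_255 = true := by decide +kernel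

theorem ok : certsOK certs = true :=
  certsOK_cons c170_191 (certsOK_cons c170_255 (certsOK_nil))

theorem sound (k : Nat) (hk : (bits certs).testBit k = true) : PI k :=
  certs_sound certs ok k hk

end Pool.Agent.TTT.B12
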