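import Pool.Agent.TTT.Sym2

set_option autoImplicit false
set_option maxRecDepth 100000

namespace Pool.Agent.TTT.C01

def t1 : T TT 256 :=
  (.f k84 k168 13 (.q k12 [(.s k4 k8 1 (.s k164 k244 11 (.s k92 k172 11 (.d k88 k80 k240 1 13))))]
  (.c k4 (.q k20 [(.s k60 k40 5 (.s k148 k212 7 (.s k124 k188 7 (.d k104 k64 k192 5 13)))), (.s k92
  k172 11 (.s k148 k212 7 (.s k88 k80 1 (.s k28 k208 9 (.s k16 k24 1 (.d k220 k156 k152 7 9)))))),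
  (.s k60 k40 5 (.s k28 k44 3 (.s k92 k172 11 (.s k16 k24 1 (.d k220 k156 k152 7 9)))))] .n) (.c k8
  (.q k16 [(.s k48 k32 3 (.s k152 k220 9 (.s k116 k184 9 (.d k100 k68 k204 3 13)))), (.s k92 k172 11
  (.s k220 k152 9 (.s k28 k156 7 (.s k60 k44 3 (.d k20 k24 k40 1 5))))), (.s k92 k172 11 (.s k152
  k220 9 (.s k88 k80 1 (.s k24 k216 7 (.d k48 k32 k36 3 5))))), (.s k48 k32 3 (.s k36 k24 5 (.s k92
  k172 11 (.s k88 k80 1 (.s k164 k240 13 (.s k100 k228 7 (.d k116 k68 k184 3 9)))))))] (.c k88 (.q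
  k248 [(.s k48 k32 3 (.s k152 k220 9 (.s k116 k184 9 (.d k100 k68 k204 3 13)))), (.s k92 k172 11
  (.s k220 k152 9 (.s k28 k156 7 (.s k60 k44 3 (.d k20 k24 k40 1 5))))), (.s k48 k32 3 (.s k24 k36 5
  (.s k20 k28 1 (.s k184 k116 9 (.s k56 k120 7 (.d k60 k40 k52 5 1))))))] (.c k184 (.l (.s k48 k32 3
  (.s k24 k36 5 (.s k92 k172 11 (.s k28 k20 1 (.d k220 k156 k152 7 9)))))) (.c k236 (.l (.s k152
  k220 9 (.s k48 k32 3 (.s k100 k204 13 (.d k116 k68 k184 3 9))))) .n))) (.c k248 (.q k88 [(.d k92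
  k80 k172 1 11), (.s k48 k32 3 (.s k24 k36 5 (.d k152 k216 k220 7 9)))] .n) .n))) (.c k80 (.q k20
  [(.s k60 k40 5 (.s k148 k212 7 (.s k124 k188 7 (.d k104 k64 k192 5 13)))), (.s k4 k8 1 (.s k36 k52
  3 (.s k164 k244 11 (.s k100 k228 7 (.s k116 k68 3 (.d k48 k24 k184 5 9))))))] (.c k212 (.l (.s k4
  k8 1 (.s k40 k60 5 (.s k36 k52 3 (.s k48 k24 5 (.d k32 k44 k16 1 3)))))) .n)) (.c k88 (.q k16 [(.s
  k48 k32 3 (.s k152 k220 9 (.s k116 k184 9 (.d k100 k68 k204 3 13)))), (.s k92 k172 11 (.s k220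
  k152 9 (.s k28 k156 7 (.s k60 k44 3 (.d k20 k24 k40 1 5))))), (.s k8 k4 1 (.s k48 k32 3 (.s k24
  k36 5 (.s k40 k56 3 (.d k20 k28 k60 1 5)))))] (.c k8 (.q k248 [(.s k48 k32 3 (.s k152 k220 9 (.s
  k116 k184 9 (.d k100 k68 k204 3 13)))), (.s k92 k172 11 (.s k220 k152 9 (.s k28 k156 7 (.s k60 k44
  3 (.d k20 k24 k40 1 5))))), (.s k48 k32 3 (.s k24 k36 5 (.s k20 k28 1 (.s k184 k116 9 (.s k56 k120
  7 (.d k60 k40 k52 5 1))))))] (.c k184 (.l (.s k48 k32 3 (.s k24 k36 5 (.s k92 k172 11 (.s k28 k20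
  1 (.d k220 k156 k152 7 9)))))) (.c k236 (.l (.s k152 k220 9 (.s k48 k32 3 (.s k100 k204 13 (.d
  k116 k68 k184 3 9))))) .n))) (.c k236 (.l (.s k152 k220 9 (.s k48 k32 3 (.s k100 k204 13 (.d k116
  k68 k184 3 9))))) (.c k248 (.l (.s k8 k4 1 (.s k48 k32 3 (.s k24 k36 5 (.s k40 k56 3 (.d k20 k28
  k60 1 5)))))) .n)))) (.c k92 (.q k20 [(.s k60 k40 5 (.s k148 k212 7 (.s k124 k188 7 (.d k104 k64
  k192 5 13)))), (.s k4 k8 1 (.s k36 k52 3 (.s k164 k244 11 (.s k100 k228 7 (.s k116 k68 3 (.d k48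
  k24 k184 5 9))))))] (.c k212 (.l (.s k4 k8 1 (.s k40 k60 5 (.s k36 k52 3 (.s k48 k24 5 (.d k32 k44
  k16 1 3)))))) .n)) (.c k164 (.q k20 [(.s k60 k40 5 (.s k148 k212 7 (.s k124 k188 7 (.d k104 k64
  k192 5 13)))), (.s k4 k8 1 (.s k36 k52 3 (.s k48 k24 5 (.s k16 k32 3 (.s k152 k220 9 (.s k100 k204
  13 (.d k116 k68 k184 3 9)))))))] (.c k40 (.l (.s k4 k8 1 (.s k36 k52 3 (.s k24 k48 5 (.s k16 k28 1
  (.s k152 k220 9 (.s k88 k216 7 (.d k92 k80 k172 1 11)))))))) (.c k160 (.l (.s k172 k92 11 (.s k60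
  k40 5 (.s k148 k212 7 (.s k104 k192 13 (.d k124 k64 k188 5 7)))))) (.c k172 (.q k160 [(.s k60 k40
  5 (.s k148 k212 7 (.s k104 k192 13 (.d k124 k64 k188 5 7)))), (.s k4 k8 1 (.s k80 k240 11 (.s k36
  k52 3 (.s k24 k48 5 (.s k16 k28 1 (.s k152 k220 9 (.d k88 k92 k216 1 7)))))))] (.c k60 (.l (.s k4
  k8 1 (.s k80 k240 11 (.s k36 k52 3 (.s k148 k212 7 (.s k88 k92 1 (.s k28 k208 9 (.d k24 k48 k16 5
  1)))))))) .n)) .n)))) (.c k172 (.q k20 [(.s k60 k40 5 (.s k148 k212 7 (.s k104 k192 13 (.d k124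
  k64 k188 5 7)))), (.s k4 k8 1 (.s k36 k52 3 (.s k164 k244 11 (.s k100 k228 7 (.s k116 k68 3 (.d
  k48 k24 k184 5 9))))))] (.c k160 (.q k164 [(.d k4 k8 k244 1 11), (.s k60 k40 5 (.s k28 k44 3 (.s
  k88 k240 13 (.d k148 k212 k208 7 9))))] .n) (.c k164 (.q k160 [(.s k60 k40 5 (.s k148 k212 7 (.s
  k104 k192 13 (.d k124 k64 k188 5 7)))), (.s k4 k8 1 (.s k80 k240 11 (.s k36 k52 3 (.s k24 k48 5
  (.s k16 k28 1 (.s k152 k220 9 (.d k88 k92 k216 1 7)))))))] (.c k60 (.l (.s k4 k8 1 (.s k80 k240 11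
  (.s k36 k52 3 (.s k148 k212 7 (.s k88 k92 1 (.s k28 k208 9 (.d k24 k48 k16 5 1)))))))) .n)) (.c
  k212 (.l (.s k4 k8 1 (.s k40 k60 5 (.s k36 k52 3 (.s k48 k24 5 (.d k32 k44 k16 1 3)))))) .n))))
  (.c k240 (.q k20 [(.s k60 k40 5 (.s k148 k212 7 (.s k124 k188 7 (.d k104 k64 k192 5 13)))), (.s k4
  k8 1 (.s k36 k52 3 (.s k164 k244 11 (.s k100 k228 7 (.s k116 k68 3 (.d k48 k24 k184 5 9))))))] (.c
  k82 (.q k161 [(.s k60 k40 5 (.s k148 k212 7 (.s k124 k188 7 (.d k104 k64 k192 5 13)))), (.s k4 k8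
  1 (.s k36 k52 3 (.s k164 k244 11 (.s k100 k228 7 (.s k116 k68 3 (.d k48 k24 k184 5 9))))))] (.c
  k212 (.l (.s k4 k8 1 (.s k40 k60 5 (.s k36 k52 3 (.s k48 k24 5 (.d k32 k44 k16 1 3)))))) .n)) (.c
  k161 (.q k82 [(.s k60 k40 5 (.s k148 k212 7 (.s k124 k188 7 (.d k104 k64 k192 5 13)))), (.s k4 k8
  1 (.s k36 k52 3 (.s k164 k244 11 (.s k100 k228 7 (.s k116 k68 3 (.d k48 k24 k184 5 9))))))] (.c
  k81 (.q k241 [(.s k60 k40 5 (.s k148 k212 7 (.s k124 k188 7 (.d k104 k64 k192 5 13)))), (.s k4 k8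
  1 (.s k36 k52 3 (.s k164 k244 11 (.s k100 k228 7 (.s k116 k68 3 (.d k48 k24 k184 5 9))))))] (.c
  k212 (.l (.s k4 k8 1 (.s k40 k60 5 (.s k36 k52 3 (.s k48 k24 5 (.d k32 k44 k16 1 3)))))) .n)) (.c
  k212 (.l (.s k4 k8 1 (.s k40 k60 5 (.s k36 k52 3 (.s k48 k24 5 (.d k32 k44 k16 1 3)))))) (.c k241
  (.q k81 [(.s k80 k83 0 (.d k92 k88 k172 1 11)), (.s k60 k40 5 (.s k148 k212 7 (.s k104 k192 13 (.d
  k124 k64 k188 5 7))))] (.c k242 (.l (.s k243 k162 12 (.s k92 k172 11 (.d k80 k83 k88 0 1)))) (.c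
  k243 (.q k242 [(.s k92 k172 11 (.d k80 k83 k88 0 1)), (.s k60 k40 5 (.s k148 k212 7 (.s k104 k192
  13 (.d k124 k64 k188 5 7))))] (.c k83 (.q k163 [(.s k60 k40 5 (.s k148 k212 7 (.s k124 k188 7 (.d
  k104 k64 k192 5 13)))), (.s k4 k8 1 (.s k162 k2 11 (.s k172 k92 11 (.s k166 k169 2 (.s k85 k247 12
  (.d k170 k255 k174 14 1))))))] .n) (.c k163 (.l (.s k83 k80 0 (.s k60 k40 5 (.s k148 k212 7 (.s
  k104 k192 13 (.d k124 k64 k188 5 7)))))) .n))) .n))) .n)))) (.c k212 (.l (.s k4 k8 1 (.s k40 k60 5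
  (.s k36 k52 3 (.s k48 k24 5 (.d k32 k44 k16 1 3)))))) .n)))) (.c k244 (.q k20 [(.s k60 k40 5 (.s
  k124 k188 7 (.s k104 k64 5 (.d k148 k212 k192 7 13)))), (.s k92 k172 11 (.s k148 k212 7 (.s k88
  k80 1 (.s k28 k208 9 (.s k16 k24 1 (.d k220 k156 k152 7 9)))))), (.s k4 k8 1 (.s k40 k60 5 (.s k36
  k52 3 (.s k48 k24 5 (.d k32 k44 k16 1 3)))))] .n) (.c k248 (.l (.s k92 k172 11 (.s k4 k8 1 (.s k88
  k80 1 (.d k164 k244 k240 11 13))))) .n))))))))))))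

def t4 : T TT 256 :=
  (.q k192 [(.s k64 k128 7 (.s k84 k168 13 (.s k104 k124 5 (.s k212 k232 5 (.d k148 k20 k60 7
  13)))))] (.c k20 (.l (.s k128 k64 7 (.s k168 k84 13 (.s k148 k188 5 (.s k104 k60 13 (.d k232 k212
  k40 5 7)))))) (.c k60 (.f k232 k212 5 (.q k85 [(.s k64 k128 7 (.s k255 k170 14 (.s k106 k127 6 (.s
  k253 k254 0 (.d k169 k43 k1 8 13))))), (.s k255 k170 14 (.s k234 k213 6 (.s k233 k235 0 (.s k214
  k195 6 (.d k254 k253 k194 0 5))))), (.s k64 k128 7 (.s k84 k168 13 (.s k106 k127 6 (.s k86 k87 0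
  (.s k126 k66 5 (.d k63 k189 k149 8 14))))))] (.c k22 (.q k41 [(.s k64 k128 7 (.s k170 k255 14 (.s
  k106 k127 6 (.s k42 k234 7 (.d k63 k21 k149 6 14))))), (.s k64 k128 7 (.s k168 k84 13 (.s k40 k104
  7 (.s k43 k42 0 (.d k106 k127 k169 6 8))))), (.s k168 k84 13 (.s k170 k255 14 (.s k40 k104 7 (.s
  k105 k235 8 (.d k169 k171 k233 0 7)))))] (.c k64 (.l (.s k255 k170 14 (.s k213 k234 6 (.s k21 k149
  7 (.s k1 k61 5 (.d k253 k254 k169 0 13)))))) .n)) (.c k41 (.q k22 [(.s k64 k128 7 (.s k255 k170 14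
  (.s k106 k127 6 (.s k253 k254 0 (.d k169 k43 k1 8 13))))), (.s k255 k170 14 (.s k234 k213 6 (.s
  k233 k235 0 (.s k214 k195 6 (.d k254 k253 k194 0 5))))), (.s k64 k128 7 (.s k84 k168 13 (.s k106
  k127 6 (.s k86 k87 0 (.s k126 k66 5 (.d k63 k189 k149 8 14))))))] (.c k255 (.l (.s k64 k128 7 (.s
  k84 k168 13 (.s k106 k127 6 (.s k63 k149 14 (.s k126 k189 8 (.d k86 k87 k66 0 5))))))) .n)) (.c
  k255 (.l (.s k64 k128 7 (.s k84 k168 13 (.s k106 k127 6 (.s k63 k149 14 (.s k126 k189 8 (.d k86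
  k87 k66 0 5))))))) .n))))) (.c k64 (.q k85 [(.s k255 k170 14 (.s k212 k232 5 (.s k213 k234 6 (.s
  k214 k215 0 (.s k233 k195 6 (.d k253 k254 k193 0 5)))))), (.s k84 k168 13 (.s k86 k87 0 (.s k212
  k232 5 (.s k20 k148 7 (.s k150 k215 8 (.s k22 k214 7 (.d k23 k21 k149 0 8))))))), (.s k255 k170 14
  (.s k213 k234 6 (.s k149 k21 7 (.s k253 k254 0 (.s k169 k1 13 (.s k189 k129 5 (.d k63 k106 k126 14
  8)))))))] (.c k214 (.l (.s k84 k168 13 (.s k255 k170 14 (.s k86 k87 0 (.s k212 k232 5 (.s k149 k23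
  8 (.d k213 k234 k21 6 7))))))) (.c k255 (.l (.s k84 k168 13 (.s k212 k232 5 (.s k20 k148 7 (.s
  k215 k150 8 (.s k213 k214 0 (.s k149 k21 7 (.d k86 k87 k23 0 8)))))))) .n))) (.c k84 (.q k244 [(.s
  k212 k232 5 (.s k228 k196 3 (.s k240 k248 1 (.s k208 k224 3 (.d k216 k220 k204 1 5))))), (.s k64
  k128 7 (.s k240 k248 1 (.s k80 k160 11 (.s k96 k112 3 (.s k144 k48 11 (.d k208 k224 k16 3 7))))))]
  (.c k208 (.q k85 [(.s k64 k128 7 (.s k170 k255 14 (.s k106 k127 6 (.s k42 k234 7 (.d k63 k21 k149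
  6 14))))), (.s k170 k255 14 (.s k240 k248 1 (.s k80 k160 11 (.s k90 k95 2 (.s k10 k250 11 (.d k15
  k5 k165 2 14)))))), (.s k64 k128 7 (.s k106 k127 6 (.s k240 k248 1 (.s k80 k160 11 (.s k90 k95 2
  (.s k74 k122 3 (.d k15 k133 k165 10 14)))))))] .n) (.c k224 (.q k85 [(.s k64 k128 7 (.s k255 k170
  14 (.s k106 k127 6 (.s k149 k63 14 (.d k213 k234 k21 6 7))))), (.s k170 k255 14 (.s k240 k248 1
  (.s k80 k160 11 (.s k90 k95 2 (.s k10 k250 11 (.d k15 k5 k165 2 14)))))), (.s k64 k128 7 (.s k106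
  k127 6 (.s k240 k248 1 (.s k80 k160 11 (.s k90 k95 2 (.s k74 k122 3 (.d k15 k133 k165 10
  14)))))))] .n) (.c k240 (.q k52 [(.s k116 k180 7 (.s k48 k184 9 (.s k60 k56 1 (.s k212 k232 5 (.s
  k196 k228 3 (.d k148 k100 k104 11 13)))))), (.s k64 k128 7 (.s k116 k180 7 (.s k48 k184 9 (.s k60
  k56 1 (.s k96 k144 11 (.s k112 k80 3 (.d k124 k120 k188 1 7))))))), (.s k128 k64 7 (.s k212 k232 5
  (.s k196 k228 3 (.s k148 k100 11 (.s k188 k168 5 (.d k60 k124 k104 7 13)))))), (.s k212 k232 5 (.s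
  k196 k228 3 (.s k100 k148 11 (.s k204 k200 1 (.s k48 k152 13 (.d k116 k180 k184 7 9))))))] (.c k82
  (.q k161 [(.s k116 k180 7 (.s k48 k184 9 (.s k60 k56 1 (.s k212 k232 5 (.s k196 k228 3 (.d k148
  k100 k104 11 13)))))), (.s k64 k128 7 (.s k116 k180 7 (.s k48 k184 9 (.s k60 k56 1 (.s k96 k144 11
  (.s k112 k80 3 (.d k124 k120 k188 1 7))))))), (.s k128 k64 7 (.s k212 k232 5 (.s k196 k228 3 (.s
  k148 k100 11 (.s k188 k168 5 (.d k60 k124 k104 7 13)))))), (.s k212 k232 5 (.s k196 k228 3 (.s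
  k100 k148 11 (.s k204 k200 1 (.s k48 k152 13 (.d k116 k180 k184 7 9))))))] (.c k116 (.l (.s k212
  k232 5 (.s k196 k228 3 (.s k100 k148 11 (.s k204 k200 1 (.s k236 k220 3 (.s k32 k168 9 (.d k48 k16
  k152 3 13)))))))) .n)) (.c k116 (.l (.s k212 k232 5 (.s k196 k228 3 (.s k100 k148 11 (.s k204 k200
  1 (.s k236 k220 3 (.s k32 k168 9 (.d k48 k16 k152 3 13)))))))) (.c k161 (.q k82 [(.s k116 k180 7
  (.s k48 k184 9 (.s k60 k56 1 (.s k212 k232 5 (.s k196 k228 3 (.d k148 k100 k104 11 13)))))), (.s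
  k64 k128 7 (.s k116 k180 7 (.s k48 k184 9 (.s k60 k56 1 (.s k96 k144 11 (.s k112 k80 3 (.d k124
  k120 k188 1 7))))))), (.s k128 k64 7 (.s k212 k232 5 (.s k196 k228 3 (.s k148 k100 11 (.s k188
  k168 5 (.d k60 k124 k104 7 13)))))), (.s k212 k232 5 (.s k196 k228 3 (.s k100 k148 11 (.s k204
  k200 1 (.s k48 k152 13 (.d k116 k180 k184 7 9))))))] (.c k116 (.l (.s k212 k232 5 (.s k196 k228 3
  (.s k100 k148 11 (.s k204 k200 1 (.s k236 k220 3 (.s k32 k168 9 (.d k48 k16 k152 3 13)))))))) .n))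
  .n)))) (.c k248 (.q k148 [(.s k128 k64 7 (.s k188 k168 5 (.d k60 k124 k104 7 13))), (.s k212 k232
  5 (.s k196 k228 3 (.s k52 k100 11 (.s k116 k180 7 (.s k48 k184 9 (.d k60 k56 k104 1 13))))))] (.c
  k60 (.l (.s k128 k64 7 (.s k168 k188 5 (.s k212 k232 5 (.s k196 k228 3 (.s k100 k52 11 (.s k236
  k32 9 (.d k204 k200 k220 1 3)))))))) (.c k104 (.q k52 [(.s k196 k100 11 (.d k212 k228 k232 3 5)),
  (.s k64 k128 7 (.s k116 k180 7 (.s k48 k184 9 (.s k32 k16 3 (.s k96 k144 11 (.s k160 k224 7 (.d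
  k80 k112 k240 3 11))))))), (.s k212 k232 5 (.d k196 k228 k100 3 11))] (.c k64 (.q k124 [(.s k196
  k100 11 (.d k212 k228 k232 3 5)), (.s k116 k180 7 (.s k48 k184 9 (.d k60 k56 k188 1 7)))] (.c k116
  (.l (.s k212 k232 5 (.d k196 k228 k100 3 11))) .n)) (.c k124 (.l (.s k64 k128 7 (.s k196 k100 11
  (.d k212 k228 k232 3 5)))) .n))) (.c k188 (.l (.s k60 k104 13 (.s k212 k232 5 (.s k196 k228 3 (.s
  k52 k100 11 (.s k48 k56 1 (.d k116 k184 k180 9 7))))))) .n)))) .n))))) (.c k104 (.q k85 [(.s k64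
  k128 7 (.s k170 k255 14 (.s k106 k127 6 (.s k42 k234 7 (.d k63 k21 k149 6 14))))), (.s k64 k128 7
  (.s k255 k170 14 (.s k106 k127 6 (.s k232 k212 5 (.s k253 k254 0 (.d k169 k43 k1 8 13)))))), (.s
  k84 k168 13 (.s k255 k170 14 (.s k86 k87 0 (.s k213 k234 6 (.s k149 k21 7 (.d k212 k232 k23 5
  8))))))] (.c k106 (.l (.s k128 k64 7 (.s k170 k255 14 (.s k149 k191 6 (.s k212 k232 5 (.s k86 k23
  8 (.d k84 k87 k168 0 13))))))) (.c k149 (.l (.s k64 k128 7 (.s k168 k84 13 (.s k170 k255 14 (.s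
  k106 k127 6 (.s k232 k212 5 (.d k169 k171 k43 0 8))))))) (.c k170 (.l (.s k64 k128 7 (.s k84 k168
  13 (.s k106 k127 6 (.s k149 k63 14 (.s k86 k87 0 (.d k212 k232 k23 5 8))))))) (.c k255 (.l (.s k64
  k128 7 (.s k84 k168 13 (.s k106 k127 6 (.s k63 k149 14 (.s k126 k189 8 (.d k86 k87 k66 0 5)))))))
  .n))))) (.c k124 (.l (.s k128 k64 7 (.s k232 k212 5 (.s k168 k84 13 (.s k104 k40 7 (.d k148 k188
  k60 5 13)))))) (.c k128 (.q k236 [(.s k232 k212 5 (.s k204 k220 3 (.s k228 k224 1 (.s k216 k240 5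
  (.d k200 k196 k248 1 3))))), (.s k168 k84 13 (.s k100 k32 9 (.s k204 k220 3 (.s k152 k48 13 (.d
  k136 k184 k68 3 9))))), (.s k168 k84 13 (.s k32 k100 9 (.s k232 k212 5 (.s k224 k228 1 (.s k96
  k160 7 (.d k48 k144 k16 11 3))))))] .n) (.c k148 (.q k85 [(.s k128 k64 7 (.s k170 k255 14 (.s k149
  k191 6 (.s k63 k106 14 (.d k21 k42 k213 6 7))))), (.s k64 k128 7 (.s k255 k170 14 (.s k106 k127 6
  (.s k232 k212 5 (.s k253 k254 0 (.d k169 k43 k1 8 13)))))), (.s k84 k168 13 (.s k255 k170 14 (.s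
  k86 k87 0 (.s k212 k232 5 (.s k149 k23 8 (.d k213 k234 k21 6 7))))))] (.c k128 (.l (.s k255 k170
  14 (.s k212 k232 5 (.s k213 k234 6 (.s k149 k21 7 (.s k86 k23 8 (.d k84 k87 k168 0 13))))))) (.c
  k149 (.l (.s k64 k128 7 (.s k170 k255 14 (.s k106 k127 6 (.s k232 k212 5 (.s k169 k43 8 (.d k168
  k171 k84 0 13))))))) (.c k170 (.l (.s k84 k168 13 (.s k86 k87 0 (.s k212 k232 5 (.s k149 k23 8 (.s
  k21 k213 7 (.d k63 k42 k106 6 14))))))) (.c k255 (.l (.s k64 k128 7 (.s k106 k127 6 (.s k63 k149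
  14 (.s k126 k189 8 (.s k86 k66 5 (.d k84 k168 k87 13 0))))))) .n))))) (.c k168 (.f k232 k212 5 (.q
  k85 [(.s k128 k64 7 (.s k170 k255 14 (.s k149 k191 6 (.s k63 k106 14 (.d k21 k42 k213 6 7))))),
  (.s k255 k170 14 (.s k234 k213 6 (.s k233 k235 0 (.s k214 k195 6 (.d k254 k253 k194 0 5))))), (.s
  k64 k128 7 (.s k106 k127 6 (.s k169 k43 8 (.s k253 k1 13 (.d k255 k254 k170 0 14)))))] (.c k170
  (.l (.s k64 k128 7 (.s k106 k127 6 (.s k169 k43 8 (.s k253 k1 13 (.s k255 k254 0 (.s k213 k234 6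
  (.d k149 k63 k21 14 7)))))))) (.c k255 (.q k236 [(.s k204 k220 3 (.s k200 k196 1 (.s k228 k224 1
  (.d k216 k248 k240 3 5)))), (.s k64 k128 7 (.s k106 k127 6 (.s k169 k43 8 (.s k102 k35 10 (.s k68
  k119 4 (.d k204 k220 k136 3 9)))))), (.s k64 k128 7 (.s k106 k127 6 (.s k169 k43 8 (.s k35 k102 10
  (.s k224 k228 1 (.s k161 k98 8 (.d k165 k173 k47 1 10)))))))] (.c k87 (.q k171 [(.s k204 k220 3
  (.s k200 k196 1 (.s k228 k224 1 (.d k216 k248 k240 3 5)))), (.s k64 k128 7 (.s k106 k127 6 (.s k43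
  k169 8 (.s k107 k235 7 (.s k104 k105 0 (.s k124 k84 5 (.d k60 k188 k148 7 13)))))))] (.c k244 (.l
  (.s k204 k220 3 (.s k200 k196 1 (.s k228 k224 1 (.d k216 k248 k240 3 5))))) .n)) (.c k171 (.q k87
  [(.s k204 k220 3 (.s k200 k196 1 (.s k228 k224 1 (.d k216 k248 k240 3 5)))), (.s k64 k128 7 (.s
  k106 k127 6 (.s k63 k149 14 (.s k126 k189 8 (.d k86 k84 k66 0 5)))))] (.c k169 (.q k170 [(.s k64
  k128 7 (.s k106 k127 6 (.s k42 k234 7 (.d k63 k21 k149 6 14)))), (.s k204 k220 3 (.s k200 k196 1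
  (.s k216 k248 3 (.d k228 k224 k240 1 5))))] .n) (.c k170 (.q k169 [(.s k64 k128 7 (.d k106 k127
  k43 6 8)), (.s k102 k35 10 (.s k68 k119 4 (.d k204 k220 k136 3 9)))] .n) .n))) .n))) .n)))) (.c
  k188 (.l (.s k64 k128 7 (.s k212 k232 5 (.s k84 k168 13 (.s k148 k20 7 (.d k104 k124 k60 5
  13)))))) (.c k212 (.q k85 [(.s k64 k128 7 (.s k170 k255 14 (.s k106 k127 6 (.s k42 k234 7 (.d k63
  k21 k149 6 14))))), (.s k64 k128 7 (.s k84 k168 13 (.s k124 k104 5 (.s k106 k127 6 (.s k86 k87 0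
  (.s k66 k126 5 (.d k67 k65 k105 0 6))))))), (.s k255 k170 14 (.s k213 k234 6 (.s k149 k21 7 (.s
  k253 k254 0 (.s k169 k1 13 (.s k189 k129 5 (.d k63 k106 k126 14 8)))))))] (.c k106 (.q k236 [(.s
  k128 k64 7 (.s k204 k220 3 (.s k136 k68 9 (.s k132 k140 1 (.s k72 k12 9 (.d k200 k196 k8 1
  7)))))), (.s k168 k84 13 (.s k170 k255 14 (.s k32 k100 9 (.s k101 k239 10 (.s k69 k117 3 (.s k207
  k138 10 (.d k48 k16 k154 3 14)))))))] (.c k68 (.l (.s k128 k64 7 (.s k168 k84 13 (.s k100 k32 9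
  (.s k148 k188 5 (.s k196 k52 11 (.d k204 k200 k220 1 3))))))) .n)) (.c k255 (.l (.s k64 k128 7 (.s
  k84 k168 13 (.s k106 k127 6 (.s k63 k149 14 (.s k126 k189 8 (.d k86 k87 k66 0 5))))))) .n))) (.c
  k232 (.q k236 [(.s k168 k84 13 (.s k100 k32 9 (.s k204 k220 3 (.s k136 k68 9 (.d k152 k184 k48 3
  13))))), (.s k128 k64 7 (.s k204 k220 3 (.s k136 k68 9 (.s k132 k140 1 (.s k72 k12 9 (.d k200 k196
  k8 1 7)))))), (.s k64 k128 7 (.s k168 k84 13 (.s k32 k100 9 (.s k48 k16 3 (.s k96 k144 11 (.s k160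
  k224 7 (.d k80 k112 k240 3 11)))))))] (.c k68 (.l (.s k128 k64 7 (.s k168 k84 13 (.s k100 k32 9
  (.s k148 k188 5 (.s k196 k52 11 (.d k204 k200 k220 1 3))))))) (.c k220 (.q k85 [(.s k64 k128 7 (.s
  k255 k170 14 (.s k106 k127 6 (.s k149 k63 14 (.d k213 k234 k21 6 7))))), (.s k168 k84 13 (.s k170
  k255 14 (.s k32 k100 9 (.s k101 k239 10 (.s k69 k117 3 (.s k207 k138 10 (.d k48 k16 k154 3
  14)))))))] (.c k170 (.l (.s k64 k128 7 (.s k84 k168 13 (.s k106 k127 6 (.s k86 k87 0 (.s k126 k66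
  5 (.d k63 k149 k189 14 8))))))) (.c k255 (.l (.s k64 k128 7 (.s k84 k168 13 (.s k106 k127 6 (.s
  k63 k149 14 (.s k126 k189 8 (.d k86 k87 k66 0 5))))))) .n))) .n))) .n)))))))))))))

def t5 : T TT 256 :=
  (.f k168 k84 13 (.q k136 [(.s k204 k68 9 (.s k152 k184 3 (.s k236 k220 3 (.d k100 k32 k48 9
  13))))] (.c k32 (.q k88 [(.s k248 k8 11 (.s k240 k244 1 (.s k160 k80 11 (.d k164 k172 k12 1
  13)))), (.s k8 k248 11 (.s k200 k72 7 (.s k152 k184 3 (.s k24 k216 7 (.d k56 k40 k104 3 11))))),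
  (.s k204 k68 9 (.s k152 k184 3 (.s k216 k24 7 (.s k240 k228 5 (.s k160 k80 11 (.d k164 k172 k12 1
  13))))))] .n) (.c k48 (.q k88 [(.s k248 k8 11 (.s k240 k244 1 (.s k160 k80 11 (.d k164 k172 k12 1
  13)))), (.s k8 k248 11 (.s k200 k72 7 (.s k152 k184 3 (.s k24 k216 7 (.d k56 k40 k104 3 11))))),
  (.s k204 k68 9 (.s k152 k184 3 (.s k216 k24 7 (.s k240 k228 5 (.s k160 k80 11 (.d k164 k12 k172 13
  1))))))] (.c k18 (.q k33 [(.s k248 k8 11 (.s k240 k244 1 (.s k160 k80 11 (.d k164 k172 k12 1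
  13)))), (.s k8 k248 11 (.s k200 k72 7 (.s k152 k184 3 (.s k24 k216 7 (.d k56 k40 k104 3 11))))),
  (.s k204 k68 9 (.s k152 k184 3 (.s k216 k24 7 (.s k240 k228 5 (.s k160 k80 11 (.d k164 k12 k172 13
  1))))))] .n) (.c k33 (.q k18 [(.s k248 k8 11 (.s k240 k244 1 (.s k160 k80 11 (.d k164 k172 k12 1
  13)))), (.s k8 k248 11 (.s k200 k72 7 (.s k152 k184 3 (.s k24 k216 7 (.d k56 k40 k104 3 11))))),
  (.s k204 k68 9 (.s k152 k184 3 (.s k216 k24 7 (.s k240 k228 5 (.s k160 k80 11 (.d k164 k12 k172 13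
  1))))))] .n) .n))) (.c k68 (.q k128 [(.s k192 k64 7 (.s k148 k188 5 (.s k232 k212 5 (.d k104 k40
  k60 7 13)))), (.s k140 k132 1 (.s k148 k188 5 (.s k152 k184 3 (.s k176 k164 5 (.d k144 k156 k160 1
  3))))), (.s k192 k64 7 (.s k132 k140 1 (.s k72 k12 9 (.s k8 k200 7 (.s k88 k248 11 (.s k104 k120 3
  (.d k232 k212 k40 5 7)))))))] (.c k100 (.q k116 [(.d k184 k152 k48 3 9), (.s k192 k64 7 (.s k148
  k188 5 (.s k104 k60 13 (.d k232 k212 k40 5 7))))] .n) (.c k116 (.q k100 [(.s k236 k32 9 (.s k152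
  k184 3 (.d k204 k220 k48 3 13))), (.s k192 k64 7 (.s k148 k188 5 (.s k104 k60 13 (.d k232 k212 k40
  5 7))))] .n) .n))) (.c k100 (.q k12 [(.s k172 k92 11 (.s k164 k160 1 (.s k88 k240 13 (.d k8 k4
  k248 1 11)))), (.s k4 k8 1 (.s k68 k204 9 (.s k132 k196 7 (.s k192 k72 9 (.d k128 k140 k64 1
  7))))), (.s k172 k92 11 (.s k152 k184 3 (.s k164 k160 1 (.s k140 k176 5 (.d k204 k68 k76 9 7)))))]
  (.c k68 (.q k116 [(.d k184 k152 k48 3 9), (.s k8 k4 1 (.s k88 k248 11 (.s k164 k240 13 (.d k172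
  k160 k92 1 11))))] .n) (.c k116 (.l (.s k68 k204 9 (.s k4 k8 1 (.s k132 k196 7 (.s k192 k72 9 (.d
  k128 k140 k64 1 7)))))) .n))) (.c k116 (.l (.s k152 k184 3 (.s k204 k68 9 (.s k100 k48 13 (.d k236
  k220 k32 3 9))))) (.c k152 (.q k12 [(.s k172 k92 11 (.s k164 k160 1 (.s k88 k240 13 (.d k8 k4 k248
  1 11)))), (.s k4 k8 1 (.s k68 k204 9 (.s k132 k196 7 (.s k192 k72 9 (.d k128 k140 k64 1 7))))),
  (.s k204 k68 9 (.s k140 k76 7 (.s k172 k92 11 (.s k188 k156 3 (.d k128 k148 k132 5 1)))))] (.c k16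
  (.q k220 [(.d k204 k236 k68 3 9), (.s k8 k4 1 (.s k88 k248 11 (.s k164 k240 13 (.d k172 k160 k92 1
  11))))] .n) (.c k220 (.q k16 [(.s k8 k4 1 (.s k88 k248 11 (.s k164 k240 13 (.d k172 k160 k92 1
  11)))), (.s k4 k8 1 (.s k68 k204 9 (.s k132 k196 7 (.s k192 k72 9 (.d k128 k140 k64 1 7))))), (.s
  k32 k48 3 (.s k204 k68 9 (.s k76 k140 7 (.s k172 k92 11 (.s k100 k236 9 (.s k88 k112 5 (.d k164
  k240 k160 13 1)))))))] .n) .n))) (.c k184 (.q k88 [(.s k248 k8 11 (.s k240 k244 1 (.s k160 k80 11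
  (.d k164 k172 k12 1 13)))), (.s k68 k204 9 (.s k8 k248 11 (.s k72 k200 7 (.s k64 k76 1 (.s k192
  k128 7 (.d k12 k4 k132 1 9)))))), (.s k204 k68 9 (.s k236 k220 3 (.s k100 k32 9 (.s k76 k112 5 (.s
  k12 k140 7 (.s k164 k240 13 (.d k172 k160 k92 1 11)))))))] (.c k12 (.l (.s k204 k68 9 (.s k248 k8
  11 (.s k220 k236 3 (.s k240 k244 1 (.s k216 k228 5 (.s k232 k200 3 (.d k212 k208 k192 1 5))))))))
  .n)) (.c k204 (.q k12 [(.s k8 k4 1 (.s k88 k248 11 (.s k172 k92 11 (.d k164 k160 k240 1 13)))),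
  (.s k4 k8 1 (.s k184 k152 3 (.s k48 k116 9 (.s k36 k24 5 (.s k20 k52 3 (.s k40 k60 5 (.d k32 k16
  k44 3 1))))))), (.s k172 k92 11 (.s k152 k184 3 (.s k164 k160 1 (.s k140 k176 5 (.s k128 k132 1
  (.d k188 k156 k148 3 5))))))] (.c k70 (.q k137 [(.s k8 k4 1 (.s k88 k248 11 (.s k172 k92 11 (.d
  k164 k160 k240 1 13)))), (.s k139 k138 0 (.s k184 k152 3 (.s k169 k154 4 (.s k153 k185 3 (.d k170
  k171 k187 0 4)))))] .n) (.c k88 (.l (.s k8 k4 1 (.s k72 k200 7 (.s k192 k132 9 (.s k128 k64 7 (.s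
  k148 k188 5 (.s k104 k60 13 (.d k232 k212 k40 5 7)))))))) (.c k137 (.q k70 [(.s k8 k4 1 (.s k88
  k248 11 (.s k172 k92 11 (.d k164 k160 k240 1 13)))), (.s k4 k8 1 (.s k184 k152 3 (.s k48 k116 9
  (.s k36 k24 5 (.s k20 k52 3 (.s k40 k60 5 (.d k32 k16 k44 3 1))))))), (.s k172 k92 11 (.s k152
  k184 3 (.s k164 k160 1 (.s k140 k176 5 (.s k128 k132 1 (.d k188 k156 k148 3 5))))))] (.c k88 (.l
  (.s k8 k4 1 (.s k72 k200 7 (.s k192 k132 9 (.s k128 k64 7 (.s k148 k188 5 (.s k104 k60 13 (.d k232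
  k212 k40 5 7)))))))) .n)) .n)))) (.c k220 (.q k12 [(.s k8 k4 1 (.s k88 k248 11 (.s k164 k240 13
  (.d k172 k160 k92 1 11)))), (.s k4 k8 1 (.s k68 k204 9 (.s k132 k196 7 (.s k192 k72 9 (.d k128
  k140 k64 1 7))))), (.s k204 k68 9 (.s k140 k76 7 (.s k172 k92 11 (.s k152 k184 3 (.d k164 k160
  k176 1 5)))))] (.c k16 (.l (.s k152 k184 3 (.s k8 k4 1 (.s k88 k248 11 (.s k164 k240 13 (.d k172
  k160 k92 1 11)))))) (.c k152 (.q k16 [(.s k8 k4 1 (.s k88 k248 11 (.s k164 k240 13 (.d k172 k160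
  k92 1 11)))), (.s k4 k8 1 (.s k68 k204 9 (.s k132 k196 7 (.s k192 k72 9 (.d k128 k140 k64 1
  7))))), (.s k32 k48 3 (.s k204 k68 9 (.s k76 k140 7 (.s k172 k92 11 (.s k100 k236 9 (.s k88 k112 5
  (.d k164 k240 k160 13 1)))))))] .n) .n))) (.c k236 (.q k88 [(.s k248 k8 11 (.s k240 k244 1 (.s
  k160 k80 11 (.d k164 k172 k12 1 13)))), (.s k8 k248 11 (.s k200 k72 7 (.s k152 k184 3 (.s k24 k216
  7 (.d k56 k40 k104 3 11))))), (.s k204 k68 9 (.s k152 k184 3 (.s k216 k24 7 (.s k240 k228 5 (.s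
  k160 k80 11 (.d k164 k172 k12 1 13))))))] .n) .n))))))))))))

def t6 : T TT 256 :=
  (.f k84 k168 13 (.q k12 [(.s k4 k8 1 (.s k164 k244 11 (.s k92 k172 11 (.d k88 k80 k240 1 13))))]
  (.c k4 (.q k16 [(.s k48 k32 3 (.s k152 k220 9 (.s k116 k184 9 (.d k100 k68 k204 3 13)))), (.s k92
  k172 11 (.s k220 k152 9 (.s k28 k156 7 (.s k60 k44 3 (.d k20 k24 k40 1 5))))), (.s k92 k172 11 (.s
  k152 k220 9 (.s k88 k80 1 (.s k24 k216 7 (.d k48 k32 k36 3 5))))), (.s k48 k32 3 (.s k36 k24 5 (.s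
  k92 k172 11 (.s k88 k80 1 (.s k164 k240 13 (.s k100 k228 7 (.d k116 k68 k184 3 9)))))))] (.c k5
  (.q k7 [(.s k48 k32 3 (.s k152 k220 9 (.s k116 k184 9 (.d k100 k68 k204 3 13)))), (.s k92 k172 11
  (.s k220 k152 9 (.s k28 k156 7 (.s k60 k44 3 (.d k20 k24 k40 1 5))))), (.s k92 k172 11 (.s k152
  k220 9 (.s k88 k80 1 (.s k24 k216 7 (.d k48 k32 k36 3 5))))), (.s k48 k32 3 (.s k36 k24 5 (.s k92
  k172 11 (.s k88 k80 1 (.s k164 k240 13 (.s k100 k228 7 (.d k116 k68 k184 3 9)))))))] .n) (.c k7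
  (.q k5 [(.s k48 k32 3 (.s k152 k220 9 (.s k116 k184 9 (.d k100 k68 k204 3 13)))), (.s k15 k10 2
  (.s k14 k13 0 (.s k92 k172 11 (.s k94 k173 12 (.s k174 k254 11 (.d k93 k95 k255 0 12))))))] (.c
  k11 (.l (.s k15 k10 2 (.s k48 k32 3 (.s k152 k220 9 (.s k100 k204 13 (.d k116 k68 k184 3 9))))))
  (.c k15 (.q k11 [(.s k48 k32 3 (.s k152 k220 9 (.s k116 k184 9 (.d k100 k68 k204 3 13)))), (.s k92
  k172 11 (.s k220 k152 9 (.s k28 k156 7 (.s k60 k44 3 (.d k20 k24 k40 1 5))))), (.s k92 k172 11 (.s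
  k152 k220 9 (.s k88 k80 1 (.s k24 k216 7 (.d k48 k32 k36 3 5))))), (.s k48 k32 3 (.s k36 k24 5 (.s
  k92 k172 11 (.s k88 k80 1 (.s k164 k240 13 (.s k100 k228 7 (.d k116 k68 k184 3 9)))))))] .n) .n)))
  .n))) (.c k8 (.q k16 [(.s k48 k32 3 (.s k152 k220 9 (.s k116 k184 9 (.d k100 k68 k204 3 13)))),
  (.s k92 k172 11 (.s k220 k152 9 (.s k28 k156 7 (.s k60 k44 3 (.d k20 k24 k40 1 5))))), (.s k92
  k172 11 (.s k152 k220 9 (.s k88 k80 1 (.s k24 k216 7 (.d k48 k32 k36 3 5))))), (.s k48 k32 3 (.s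
  k36 k24 5 (.s k92 k172 11 (.s k88 k80 1 (.s k164 k240 13 (.s k100 k228 7 (.d k116 k68 k184 3
  9)))))))] (.c k88 (.q k248 [(.s k48 k32 3 (.s k152 k220 9 (.s k116 k184 9 (.d k100 k68 k204 3
  13)))), (.s k92 k172 11 (.s k220 k152 9 (.s k28 k156 7 (.s k60 k44 3 (.d k20 k24 k40 1 5))))), (.s
  k48 k32 3 (.s k24 k36 5 (.s k20 k28 1 (.s k184 k116 9 (.s k56 k120 7 (.d k60 k40 k52 5 1))))))]
  (.c k184 (.l (.s k48 k32 3 (.s k24 k36 5 (.s k92 k172 11 (.s k28 k20 1 (.d k220 k156 k152 7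
  9)))))) (.c k236 (.l (.s k152 k220 9 (.s k48 k32 3 (.s k100 k204 13 (.d k116 k68 k184 3 9)))))
  .n))) (.c k248 (.q k88 [(.d k92 k80 k172 1 11), (.s k48 k32 3 (.s k24 k36 5 (.d k152 k216 k220 7
  9)))] .n) .n))) (.c k80 (.q k20 [(.s k60 k40 5 (.s k148 k212 7 (.s k124 k188 7 (.d k104 k64 k192 5
  13)))), (.s k4 k8 1 (.s k36 k52 3 (.s k164 k244 11 (.s k100 k228 7 (.s k116 k68 3 (.d k48 k24 k184
  5 9))))))] (.c k212 (.l (.s k4 k8 1 (.s k40 k60 5 (.s k36 k52 3 (.s k48 k24 5 (.d k32 k44 k16 1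
  3)))))) .n)) (.c k88 (.q k16 [(.s k48 k32 3 (.s k152 k220 9 (.s k116 k184 9 (.d k100 k68 k204 3
  13)))), (.s k92 k172 11 (.s k220 k152 9 (.s k28 k156 7 (.s k60 k44 3 (.d k20 k24 k40 1 5))))), (.s
  k8 k4 1 (.s k48 k32 3 (.s k24 k36 5 (.s k40 k56 3 (.d k20 k28 k60 1 5)))))] (.c k8 (.q k248 [(.s
  k48 k32 3 (.s k152 k220 9 (.s k116 k184 9 (.d k100 k68 k204 3 13)))), (.s k92 k172 11 (.s k220
  k152 9 (.s k28 k156 7 (.s k60 k44 3 (.d k20 k24 k40 1 5))))), (.s k48 k32 3 (.s k24 k36 5 (.s k20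
  k28 1 (.s k184 k116 9 (.s k56 k120 7 (.d k60 k40 k52 5 1))))))] (.c k184 (.l (.s k48 k32 3 (.s k24
  k36 5 (.s k92 k172 11 (.s k28 k20 1 (.d k220 k156 k152 7 9)))))) (.c k236 (.l (.s k152 k220 9 (.s
  k48 k32 3 (.s k100 k204 13 (.d k116 k68 k184 3 9))))) .n))) (.c k236 (.l (.s k152 k220 9 (.s k48
  k32 3 (.s k100 k204 13 (.d k116 k68 k184 3 9))))) (.c k248 (.l (.s k8 k4 1 (.s k48 k32 3 (.s k24
  k36 5 (.s k40 k56 3 (.d k20 k28 k60 1 5)))))) .n)))) (.c k92 (.q k20 [(.s k60 k40 5 (.s k148 k212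
  7 (.s k124 k188 7 (.d k104 k64 k192 5 13)))), (.s k4 k8 1 (.s k36 k52 3 (.s k164 k244 11 (.s k100
  k228 7 (.s k116 k68 3 (.d k48 k24 k184 5 9))))))] (.c k212 (.l (.s k4 k8 1 (.s k40 k60 5 (.s k36
  k52 3 (.s k48 k24 5 (.d k32 k44 k16 1 3)))))) .n)) (.c k164 (.q k20 [(.s k60 k40 5 (.s k148 k212 7
  (.s k124 k188 7 (.d k104 k64 k192 5 13)))), (.s k4 k8 1 (.s k36 k52 3 (.s k48 k24 5 (.s k16 k32 3
  (.s k152 k220 9 (.s k100 k204 13 (.d k116 k68 k184 3 9)))))))] (.c k40 (.l (.s k4 k8 1 (.s k36 k52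
  3 (.s k24 k48 5 (.s k16 k28 1 (.s k152 k220 9 (.s k88 k216 7 (.d k92 k80 k172 1 11)))))))) (.c
  k160 (.l (.s k172 k92 11 (.s k60 k40 5 (.s k148 k212 7 (.s k104 k192 13 (.d k124 k64 k188 5
  7)))))) (.c k172 (.q k160 [(.s k60 k40 5 (.s k148 k212 7 (.s k104 k192 13 (.d k124 k64 k188 5
  7)))), (.s k4 k8 1 (.s k80 k240 11 (.s k36 k52 3 (.s k24 k48 5 (.s k16 k28 1 (.s k152 k220 9 (.d
  k88 k92 k216 1 7)))))))] (.c k60 (.l (.s k4 k8 1 (.s k80 k240 11 (.s k36 k52 3 (.s k148 k212 7 (.s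
  k88 k92 1 (.s k28 k208 9 (.d k24 k48 k16 5 1)))))))) .n)) .n)))) (.c k172 (.q k20 [(.s k60 k40 5
  (.s k148 k212 7 (.s k104 k192 13 (.d k124 k64 k188 5 7)))), (.s k4 k8 1 (.s k36 k52 3 (.s k164
  k244 11 (.s k100 k228 7 (.s k116 k68 3 (.d k48 k24 k184 5 9))))))] (.c k160 (.q k164 [(.d k4 k8
  k244 1 11), (.s k60 k40 5 (.s k28 k44 3 (.s k88 k240 13 (.d k148 k212 k208 7 9))))] .n) (.c k164
  (.q k160 [(.s k60 k40 5 (.s k148 k212 7 (.s k104 k192 13 (.d k124 k64 k188 5 7)))), (.s k4 k8 1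
  (.s k80 k240 11 (.s k36 k52 3 (.s k24 k48 5 (.s k16 k28 1 (.s k152 k220 9 (.d k88 k92 k216 1
  7)))))))] (.c k60 (.l (.s k4 k8 1 (.s k80 k240 11 (.s k36 k52 3 (.s k148 k212 7 (.s k88 k92 1 (.s
  k28 k208 9 (.d k24 k48 k16 5 1)))))))) .n)) (.c k212 (.l (.s k4 k8 1 (.s k40 k60 5 (.s k36 k52 3
  (.s k48 k24 5 (.d k32 k44 k16 1 3)))))) .n)))) (.c k240 (.q k20 [(.s k60 k40 5 (.s k148 k212 7 (.s
  k124 k188 7 (.d k104 k64 k192 5 13)))), (.s k4 k8 1 (.s k36 k52 3 (.s k164 k244 11 (.s k100 k228 7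
  (.s k116 k68 3 (.d k48 k24 k184 5 9))))))] (.c k82 (.q k161 [(.s k60 k40 5 (.s k148 k212 7 (.s
  k124 k188 7 (.d k104 k64 k192 5 13)))), (.s k4 k8 1 (.s k36 k52 3 (.s k164 k244 11 (.s k100 k228 7
  (.s k116 k68 3 (.d k48 k24 k184 5 9))))))] (.c k212 (.l (.s k4 k8 1 (.s k40 k60 5 (.s k36 k52 3
  (.s k48 k24 5 (.d k32 k44 k16 1 3)))))) .n)) (.c k161 (.q k82 [(.s k60 k40 5 (.s k148 k212 7 (.s
  k124 k188 7 (.d k104 k64 k192 5 13)))), (.s k4 k8 1 (.s k36 k52 3 (.s k164 k244 11 (.s k100 k228 7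
  (.s k116 k68 3 (.d k48 k24 k184 5 9))))))] (.c k212 (.l (.s k4 k8 1 (.s k40 k60 5 (.s k36 k52 3
  (.s k48 k24 5 (.d k32 k44 k16 1 3)))))) .n)) (.c k212 (.l (.s k4 k8 1 (.s k40 k60 5 (.s k36 k52 3
  (.s k48 k24 5 (.d k32 k44 k16 1 3)))))) .n)))) (.c k244 (.q k20 [(.s k60 k40 5 (.s k124 k188 7 (.s
  k104 k64 5 (.d k148 k212 k192 7 13)))), (.s k92 k172 11 (.s k148 k212 7 (.s k88 k80 1 (.s k28 k208
  9 (.s k16 k24 1 (.d k220 k156 k152 7 9)))))), (.s k4 k8 1 (.s k40 k60 5 (.s k36 k52 3 (.s k48 k24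
  5 (.d k32 k44 k16 1 3)))))] .n) (.c k248 (.l (.s k92 k172 11 (.s k4 k8 1 (.s k88 k80 1 (.d k164
  k244 k240 11 13))))) .n))))))))))))

def t7 : T TT 256 :=
  (.q k60 [(.s k20 k40 5 (.s k84 k168 13 (.s k148 k212 7 (.s k124 k188 7 (.d k104 k64 k192 5
  13)))))] (.c k11 (.q k15 [(.s k20 k40 5 (.s k84 k168 13 (.s k148 k212 7 (.s k124 k188 7 (.d k104
  k64 k192 5 13))))), (.s k30 k45 4 (.s k94 k173 12 (.s k158 k222 7 (.s k109 k207 12 (.d k124 k79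
  k188 4 7)))))] (.c k124 (.q k12 [(.s k13 k14 0 (.s k44 k28 3 (.s k45 k30 4 (.s k29 k61 3 (.d k46
  k47 k63 0 4))))), (.s k4 k8 1 (.s k84 k168 13 (.s k164 k244 11 (.s k88 k240 13 (.d k92 k80 k172 1
  11)))))] .n) (.c k188 (.q k12 [(.s k13 k14 0 (.s k44 k28 3 (.s k45 k30 4 (.s k29 k61 3 (.d k46 k47
  k63 0 4))))), (.s k4 k8 1 (.s k84 k168 13 (.s k164 k244 11 (.s k88 k240 13 (.d k92 k80 k172 1
  11)))))] .n) .n))) (.c k15 (.q k11 [(.s k20 k40 5 (.s k84 k168 13 (.s k148 k212 7 (.s k124 k188 7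
  (.d k104 k64 k192 5 13)))))] (.c k20 (.q k12 [(.s k4 k8 1 (.s k84 k168 13 (.s k92 k172 11 (.s k88
  k80 1 (.d k164 k244 k240 11 13))))), (.s k28 k44 3 (.s k92 k172 11 (.s k156 k220 7 (.s k108 k204
  11 (.d k124 k76 k188 3 7))))), (.s k4 k8 1 (.s k84 k168 13 (.s k164 k244 11 (.s k44 k28 3 (.s k104
  k224 9 (.d k124 k64 k188 5 7))))))] .n) (.c k40 (.q k12 [(.s k8 k4 1 (.s k172 k92 11 (.s k168 k84
  13 (.s k164 k160 1 (.d k88 k248 k240 11 13))))), (.s k28 k44 3 (.s k92 k172 11 (.s k156 k220 7 (.s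
  k108 k204 11 (.d k124 k76 k188 3 7))))), (.s k4 k8 1 (.s k84 k168 13 (.s k164 k244 11 (.s k44 k28
  3 (.s k104 k224 9 (.d k124 k64 k188 5 7))))))] .n) (.c k64 (.l (.s k40 k20 5 (.s k168 k84 13 (.s
  k104 k232 7 (.s k148 k192 13 (.d k188 k124 k128 7 5)))))) (.c k84 (.q k12 [(.s k4 k8 1 (.s k20 k40
  5 (.s k36 k52 3 (.s k28 k44 3 (.d k24 k16 k48 1 5))))), (.s k28 k44 3 (.s k92 k172 11 (.s k156
  k220 7 (.s k108 k204 11 (.d k124 k76 k188 3 7)))))] (.c k16 (.l (.s k8 k4 1 (.s k40 k20 5 (.s k24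
  k56 3 (.s k36 k48 5 (.d k44 k28 k32 3 1)))))) (.c k28 (.q k16 [(.s k4 k8 1 (.s k48 k32 3 (.s k20
  k40 5 (.d k36 k24 k52 5 3)))), (.s k48 k32 3 (.s k52 k56 1 (.s k116 k184 9 (.s k124 k188 7 (.s
  k120 k112 1 (.d k180 k244 k240 7 9)))))), (.s k8 k4 1 (.s k40 k20 5 (.s k10 k9 0 (.s k56 k24 3 (.s
  k26 k41 4 (.s k42 k58 3 (.d k21 k31 k63 2 6))))))), (.s k32 k48 3 (.s k40 k20 5 (.s k172 k92 11
  (.s k188 k124 7 (.s k156 k140 3 (.s k108 k204 11 (.d k44 k36 k236 1 7)))))))] .n) (.c k44 (.l (.s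
  k8 k4 1 (.s k40 k20 5 (.s k9 k10 0 (.s k56 k24 3 (.s k41 k26 4 (.s k25 k57 3 (.d k42 k43 k59 0
  4)))))))) .n)))) (.c k104 (.q k12 [(.s k4 k8 1 (.s k20 k40 5 (.s k28 k44 3 (.s k24 k16 1 (.d k36
  k52 k48 3 5))))), (.s k28 k44 3 (.s k92 k172 11 (.s k156 k220 7 (.s k108 k204 11 (.d k124 k76 k188
  3 7))))), (.s k4 k8 1 (.s k84 k168 13 (.s k164 k244 11 (.s k88 k240 13 (.d k92 k80 k172 1 11)))))]
  (.c k164 (.l (.s k4 k8 1 (.s k20 k40 5 (.s k36 k52 3 (.s k24 k48 5 (.d k28 k16 k44 1 3)))))) .n))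
  (.c k124 (.q k12 [(.s k4 k8 1 (.s k20 k40 5 (.s k28 k44 3 (.s k24 k16 1 (.d k36 k52 k48 3 5))))),
  (.s k4 k8 1 (.s k84 k168 13 (.s k164 k244 11 (.s k88 k240 13 (.d k92 k80 k172 1 11))))), (.s k20
  k40 5 (.s k84 k168 13 (.s k28 k44 3 (.s k92 k172 11 (.s k148 k212 7 (.d k88 k80 k208 1 9))))))]
  .n) (.c k148 (.q k12 [(.s k4 k8 1 (.s k20 k40 5 (.s k28 k44 3 (.s k24 k16 1 (.d k36 k52 k48 3
  5))))), (.s k28 k44 3 (.s k92 k172 11 (.s k156 k220 7 (.s k108 k204 11 (.d k124 k76 k188 3 7))))),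
  (.s k4 k8 1 (.s k84 k168 13 (.s k164 k244 11 (.s k88 k240 13 (.d k92 k80 k172 1 11)))))] .n) (.c
  k168 (.q k12 [(.s k4 k8 1 (.s k20 k40 5 (.s k28 k44 3 (.s k24 k16 1 (.d k36 k52 k48 3 5))))), (.s
  k28 k44 3 (.s k92 k172 11 (.s k156 k220 7 (.s k108 k204 11 (.d k124 k76 k188 3 7)))))] (.c k28 (.q
  k16 [(.s k8 k4 1 (.s k48 k32 3 (.s k40 k20 5 (.d k24 k36 k56 5 3)))), (.s k48 k32 3 (.s k52 k56 1
  (.s k116 k184 9 (.s k180 k244 7 (.s k120 k240 9 (.d k124 k112 k188 1 7)))))), (.s k8 k4 1 (.s k40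
  k20 5 (.s k10 k9 0 (.s k56 k24 3 (.s k26 k41 4 (.s k42 k58 3 (.d k21 k31 k63 2 6))))))), (.s k32
  k48 3 (.s k40 k20 5 (.s k172 k92 11 (.s k188 k124 7 (.s k156 k140 3 (.s k108 k204 11 (.d k44 k36
  k236 1 7)))))))] .n) (.c k44 (.l (.s k8 k4 1 (.s k40 k20 5 (.s k9 k10 0 (.s k56 k24 3 (.s k41 k26
  4 (.s k25 k57 3 (.d k42 k43 k59 0 4)))))))) .n))) (.c k188 (.q k12 [(.s k4 k8 1 (.s k20 k40 5 (.s
  k28 k44 3 (.s k24 k16 1 (.d k36 k52 k48 3 5))))), (.s k4 k8 1 (.s k84 k168 13 (.s k164 k244 11 (.s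
  k88 k240 13 (.d k92 k80 k172 1 11))))), (.s k20 k40 5 (.s k84 k168 13 (.s k28 k44 3 (.s k92 k172
  11 (.s k148 k212 7 (.d k88 k80 k208 1 9))))))] .n) (.c k192 (.f k20 k40 5 (.f k124 k188 7 (.q k204
  [(.s k108 k156 11 (.s k92 k76 3 (.s k236 k220 3 (.d k172 k44 k12 7 11)))), (.s k68 k136 9 (.s k84
  k168 13 (.s k100 k116 3 (.s k152 k48 13 (.d k220 k236 k16 3 9))))), (.s k68 k136 9 (.s k84 k168 13
  (.s k108 k156 11 (.s k104 k64 5 (.d k100 k96 k116 1 3)))))] (.c k66 (.q k129 [(.s k108 k156 11 (.s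
  k92 k76 3 (.s k236 k220 3 (.d k172 k44 k12 7 11)))), (.s k68 k136 9 (.s k84 k168 13 (.s k100 k116
  3 (.s k152 k48 13 (.d k220 k236 k16 3 9))))), (.s k68 k136 9 (.s k84 k168 13 (.s k108 k156 11 (.s
  k104 k64 5 (.d k100 k96 k116 1 3)))))] (.c k74 (.q k133 [(.s k108 k156 11 (.s k92 k76 3 (.s k236
  k220 3 (.d k172 k44 k12 7 11)))), (.s k68 k136 9 (.s k84 k168 13 (.s k100 k116 3 (.s k152 k48 13
  (.d k220 k236 k16 3 9))))), (.s k68 k136 9 (.s k84 k168 13 (.s k108 k156 11 (.s k104 k64 5 (.d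
  k100 k96 k116 1 3)))))] (.c k70 (.q k78 [(.s k108 k156 11 (.s k92 k76 3 (.s k236 k220 3 (.d k172
  k44 k12 7 11)))), (.s k68 k136 9 (.s k84 k168 13 (.s k100 k116 3 (.s k152 k48 13 (.d k220 k236 k16
  3 9))))), (.s k68 k136 9 (.s k84 k168 13 (.s k108 k156 11 (.s k104 k64 5 (.d k100 k96 k116 1
  3)))))] .n) (.c k78 (.q k70 [(.s k108 k156 11 (.s k92 k76 3 (.s k236 k220 3 (.d k172 k44 k12 7
  11)))), (.s k68 k136 9 (.s k84 k168 13 (.s k100 k116 3 (.s k152 k48 13 (.d k220 k236 k16 3 9))))),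
  (.s k68 k136 9 (.s k84 k168 13 (.s k108 k156 11 (.s k104 k64 5 (.d k100 k96 k116 1 3)))))] .n)
  .n))) (.c k133 (.q k74 [(.s k108 k156 11 (.s k92 k76 3 (.s k236 k220 3 (.d k172 k44 k12 7 11)))),
  (.s k68 k136 9 (.s k84 k168 13 (.s k100 k116 3 (.s k152 k48 13 (.d k220 k236 k16 3 9))))), (.s k68
  k136 9 (.s k84 k168 13 (.s k108 k156 11 (.s k104 k64 5 (.d k100 k96 k116 1 3)))))] (.c k70 (.q
  k196 [(.s k68 k136 9 (.s k84 k168 13 (.s k148 k212 7 (.d k100 k116 k52 3 11)))), (.s k108 k156 11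
  (.s k92 k76 3 (.s k172 k12 11 (.d k236 k220 k44 3 7))))] .n) (.c k196 (.q k70 [(.s k108 k156 11
  (.s k92 k76 3 (.s k172 k12 11 (.d k236 k220 k44 3 7)))), (.s k68 k136 9 (.s k84 k168 13 (.s k69
  k71 0 (.d k64 k104 k79 5 2))))] .n) .n))) .n))) (.c k74 (.q k133 [(.s k108 k156 11 (.s k92 k76 3
  (.s k236 k220 3 (.d k172 k44 k12 7 11)))), (.s k68 k136 9 (.s k84 k168 13 (.s k100 k116 3 (.s k152
  k48 13 (.d k220 k236 k16 3 9))))), (.s k68 k136 9 (.s k84 k168 13 (.s k108 k156 11 (.s k104 k64 5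
  (.d k100 k96 k116 1 3)))))] (.c k66 (.q k129 [(.s k108 k156 11 (.s k92 k76 3 (.s k236 k220 3 (.d
  k172 k44 k12 7 11)))), (.s k68 k136 9 (.s k84 k168 13 (.s k100 k116 3 (.s k152 k48 13 (.d k220
  k236 k16 3 9))))), (.s k68 k136 9 (.s k84 k168 13 (.s k108 k156 11 (.s k104 k64 5 (.d k100 k96
  k116 1 3)))))] (.c k70 (.q k78 [(.s k108 k156 11 (.s k92 k76 3 (.s k236 k220 3 (.d k172 k44 k12 7
  11)))), (.s k68 k136 9 (.s k84 k168 13 (.s k100 k116 3 (.s k152 k48 13 (.d k220 k236 k16 3 9))))),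
  (.s k68 k136 9 (.s k84 k168 13 (.s k108 k156 11 (.s k104 k64 5 (.d k100 k96 k116 1 3)))))] .n) (.c
  k78 (.q k70 [(.s k108 k156 11 (.s k92 k76 3 (.s k236 k220 3 (.d k172 k44 k12 7 11)))), (.s k68
  k136 9 (.s k84 k168 13 (.s k100 k116 3 (.s k152 k48 13 (.d k220 k236 k16 3 9))))), (.s k68 k136 9
  (.s k84 k168 13 (.s k108 k156 11 (.s k104 k64 5 (.d k100 k96 k116 1 3)))))] .n) .n))) (.c k129 (.q
  k66 [(.s k108 k156 11 (.s k92 k76 3 (.s k236 k220 3 (.d k172 k44 k12 7 11)))), (.s k68 k136 9 (.s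
  k84 k168 13 (.s k100 k116 3 (.s k152 k48 13 (.d k220 k236 k16 3 9))))), (.s k68 k136 9 (.s k84
  k168 13 (.s k108 k156 11 (.s k104 k64 5 (.d k100 k96 k116 1 3)))))] .n) .n))) (.c k129 (.q k66
  [(.s k108 k156 11 (.s k92 k76 3 (.s k236 k220 3 (.d k172 k44 k12 7 11)))), (.s k68 k136 9 (.s k84
  k168 13 (.s k100 k116 3 (.s k152 k48 13 (.d k220 k236 k16 3 9))))), (.s k68 k136 9 (.s k84 k168 13
  (.s k108 k156 11 (.s k104 k64 5 (.d k100 k96 k116 1 3)))))] (.c k74 (.q k133 [(.s k108 k156 11 (.s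
  k92 k76 3 (.s k236 k220 3 (.d k172 k44 k12 7 11)))), (.s k68 k136 9 (.s k84 k168 13 (.s k100 k116
  3 (.s k152 k48 13 (.d k220 k236 k16 3 9))))), (.s k68 k136 9 (.s k84 k168 13 (.s k108 k156 11 (.s
  k104 k64 5 (.d k100 k96 k116 1 3)))))] .n) (.c k133 (.q k74 [(.s k108 k156 11 (.s k92 k76 3 (.s
  k236 k220 3 (.d k172 k44 k12 7 11)))), (.s k68 k136 9 (.s k84 k168 13 (.s k70 k78 1 (.s k69 k71 0
  (.d k64 k104 k79 5 2)))))] (.c k70 (.q k196 [(.s k68 k136 9 (.s k84 k168 13 (.s k148 k212 7 (.d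
  k100 k116 k52 3 11)))), (.s k108 k156 11 (.s k92 k76 3 (.s k172 k12 11 (.d k236 k220 k44 3 7))))]
  (.c k137 (.q k141 [(.s k84 k168 13 (.s k148 k212 7 (.s k100 k52 11 (.d k68 k116 k136 3 9)))), (.s
  k108 k156 11 (.s k92 k76 3 (.s k172 k12 11 (.d k236 k220 k44 3 7))))] .n) (.c k141 (.l (.s k137
  k200 8 (.s k68 k136 9 (.s k84 k168 13 (.s k148 k212 7 (.d k100 k116 k52 3 11)))))) .n))) (.c k137
  (.q k141 [(.s k108 k156 11 (.s k92 k76 3 (.s k236 k220 3 (.d k172 k44 k12 7 11)))), (.s k68 k136 9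
  (.s k84 k168 13 (.s k70 k78 1 (.s k69 k71 0 (.d k64 k104 k79 5 2)))))] (.c k70 (.q k196 [(.s k84
  k168 13 (.s k148 k212 7 (.s k100 k52 11 (.d k68 k116 k136 3 9)))), (.s k108 k156 11 (.s k92 k76 3
  (.s k172 k12 11 (.d k236 k220 k44 3 7))))] .n) (.c k196 (.l (.s k70 k78 1 (.s k68 k136 9 (.s k84
  k168 13 (.s k69 k71 0 (.d k64 k104 k79 5 2)))))) .n))) (.c k141 (.l (.s k137 k200 8 (.s k108 k156
  11 (.s k92 k76 3 (.s k172 k12 11 (.d k236 k220 k44 3 7)))))) (.c k196 (.l (.s k70 k78 1 (.s k68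
  k136 9 (.s k84 k168 13 (.s k69 k71 0 (.d k64 k104 k79 5 2)))))) .n))))) .n))) (.c k133 (.q k74
  [(.s k108 k156 11 (.s k92 k76 3 (.s k236 k220 3 (.d k172 k44 k12 7 11)))), (.s k68 k136 9 (.s k84
  k168 13 (.s k100 k116 3 (.s k152 k48 13 (.d k220 k236 k16 3 9))))), (.s k68 k136 9 (.s k84 k168 13
  (.s k108 k156 11 (.s k104 k64 5 (.d k100 k96 k116 1 3)))))] (.c k66 (.q k129 [(.s k108 k156 11 (.s
  k92 k76 3 (.s k236 k220 3 (.d k172 k44 k12 7 11)))), (.s k68 k136 9 (.s k84 k168 13 (.s k100 k116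
  3 (.s k152 k48 13 (.d k220 k236 k16 3 9))))), (.s k68 k136 9 (.s k84 k168 13 (.s k108 k156 11 (.s
  k104 k64 5 (.d k100 k96 k116 1 3)))))] (.c k70 (.q k196 [(.s k68 k136 9 (.s k84 k168 13 (.s k148
  k212 7 (.d k100 k116 k52 3 11)))), (.s k108 k156 11 (.s k92 k76 3 (.s k172 k12 11 (.d k236 k220
  k44 3 7))))] .n) (.c k196 (.q k70 [(.s k108 k156 11 (.s k92 k76 3 (.s k172 k12 11 (.d k236 k220
  k44 3 7)))), (.s k68 k136 9 (.s k84 k168 13 (.s k69 k71 0 (.d k64 k104 k79 5 2))))] .n) .n))) (.c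
  k70 (.q k196 [(.s k68 k136 9 (.s k84 k168 13 (.s k148 k212 7 (.d k100 k116 k52 3 11)))), (.s k108
  k156 11 (.s k92 k76 3 (.s k172 k12 11 (.d k236 k220 k44 3 7))))] (.c k66 (.q k129 [(.s k68 k136 9
  (.s k84 k168 13 (.s k148 k212 7 (.d k100 k116 k52 3 11)))), (.s k108 k156 11 (.s k92 k76 3 (.s
  k172 k12 11 (.d k236 k220 k44 3 7))))] .n) (.c k129 (.q k66 [(.s k68 k136 9 (.s k84 k168 13 (.s
  k148 k212 7 (.d k100 k116 k52 3 11)))), (.s k108 k156 11 (.s k92 k76 3 (.s k172 k12 11 (.d k236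
  k220 k44 3 7))))] (.c k137 (.q k141 [(.s k84 k168 13 (.s k148 k212 7 (.s k100 k52 11 (.d k68 k116
  k136 3 9)))), (.s k108 k156 11 (.s k92 k76 3 (.s k172 k12 11 (.d k236 k220 k44 3 7))))] .n) (.c
  k141 (.l (.s k137 k200 8 (.s k68 k136 9 (.s k84 k168 13 (.s k148 k212 7 (.d k100 k116 k52 3
  11)))))) .n))) .n))) (.c k129 (.q k66 [(.s k108 k156 11 (.s k92 k76 3 (.s k236 k220 3 (.d k172 k44
  k12 7 11)))), (.s k68 k136 9 (.s k84 k168 13 (.s k70 k78 1 (.s k69 k71 0 (.d k64 k104 k79 5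
  2)))))] (.c k70 (.q k196 [(.s k68 k136 9 (.s k84 k168 13 (.s k148 k212 7 (.d k100 k116 k52 3
  11)))), (.s k108 k156 11 (.s k92 k76 3 (.s k172 k12 11 (.d k236 k220 k44 3 7))))] (.c k137 (.q
  k141 [(.s k84 k168 13 (.s k148 k212 7 (.s k100 k52 11 (.d k68 k116 k136 3 9)))), (.s k108 k156 11
  (.s k92 k76 3 (.s k172 k12 11 (.d k236 k220 k44 3 7))))] .n) (.c k141 (.l (.s k137 k200 8 (.s k68
  k136 9 (.s k84 k168 13 (.s k148 k212 7 (.d k100 k116 k52 3 11)))))) .n))) (.c k137 (.q k141 [(.s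
  k108 k156 11 (.s k92 k76 3 (.s k236 k220 3 (.d k172 k44 k12 7 11)))), (.s k68 k136 9 (.s k84 k168
  13 (.s k70 k78 1 (.s k69 k71 0 (.d k64 k104 k79 5 2)))))] (.c k70 (.q k196 [(.s k84 k168 13 (.s
  k148 k212 7 (.s k100 k52 11 (.d k68 k116 k136 3 9)))), (.s k108 k156 11 (.s k92 k76 3 (.s k172 k12
  11 (.d k236 k220 k44 3 7))))] .n) (.c k196 (.l (.s k70 k78 1 (.s k68 k136 9 (.s k84 k168 13 (.s
  k69 k71 0 (.d k64 k104 k79 5 2)))))) .n))) (.c k141 (.l (.s k137 k200 8 (.s k108 k156 11 (.s k92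
  k76 3 (.s k172 k12 11 (.d k236 k220 k44 3 7)))))) (.c k196 (.l (.s k70 k78 1 (.s k68 k136 9 (.s
  k84 k168 13 (.s k69 k71 0 (.d k64 k104 k79 5 2)))))) .n))))) (.c k196 (.q k70 [(.s k108 k156 11
  (.s k92 k76 3 (.s k172 k12 11 (.d k236 k220 k44 3 7)))), (.s k68 k136 9 (.s k84 k168 13 (.s k69
  k71 0 (.d k64 k104 k79 5 2))))] (.c k66 (.q k129 [(.s k108 k156 11 (.s k92 k76 3 (.s k172 k12 11
  (.d k236 k220 k44 3 7)))), (.s k68 k136 9 (.s k84 k168 13 (.s k69 k71 0 (.d k64 k104 k79 5 2))))]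
  .n) (.c k129 (.l (.s k66 k78 1 (.s k68 k136 9 (.s k84 k168 13 (.s k69 k71 0 (.d k64 k104 k79 5
  2)))))) .n))) .n))))) .n))))))) (.c k212 (.l (.s k40 k20 5 (.s k188 k124 7 (.s k168 k84 13 (.s
  k148 k128 5 (.d k104 k232 k192 7 13)))))) (.c k232 (.l (.s k20 k40 5 (.s k124 k188 7 (.s k84 k168
  13 (.s k104 k64 5 (.d k148 k212 k192 7 13)))))) .n))))))))))))) (.c k20 (.f k84 k168 13 (.q k12
  [(.s k4 k8 1 (.s k92 k172 11 (.s k88 k80 1 (.d k164 k244 k240 11 13)))), (.s k44 k28 3 (.s k172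
  k92 11 (.s k108 k236 7 (.s k156 k204 11 (.d k188 k140 k124 3 7))))), (.s k4 k8 1 (.s k164 k244 11
  (.s k44 k28 3 (.s k104 k224 9 (.d k124 k64 k188 5 7)))))] (.c k11 (.q k15 [(.s k92 k172 11 (.s k88
  k80 1 (.s k164 k240 13 (.d k4 k8 k244 1 11)))), (.s k13 k14 0 (.s k44 k28 3 (.s k45 k30 4 (.s k29
  k61 3 (.d k46 k47 k63 0 4)))))] .n) (.c k15 (.q k11 [(.s k4 k8 1 (.s k92 k172 11 (.s k88 k80 1 (.d
  k164 k244 k240 11 13)))), (.s k44 k28 3 (.s k172 k92 11 (.s k108 k236 7 (.s k156 k204 11 (.d k188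
  k140 k124 3 7))))), (.s k4 k8 1 (.s k164 k244 11 (.s k44 k28 3 (.s k104 k224 9 (.d k124 k64 k188 5
  7)))))] .n) .n)))) (.c k40 (.q k12 [(.s k8 k4 1 (.s k172 k92 11 (.s k168 k84 13 (.s k164 k160 1
  (.d k88 k248 k240 11 13))))), (.s k28 k44 3 (.s k92 k172 11 (.s k156 k220 7 (.s k108 k204 11 (.d
  k124 k76 k188 3 7))))), (.s k4 k8 1 (.s k84 k168 13 (.s k164 k244 11 (.s k44 k28 3 (.s k104 k224 9
  (.d k124 k64 k188 5 7))))))] (.c k11 (.q k15 [(.s k13 k14 0 (.s k44 k28 3 (.s k45 k30 4 (.s k29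
  k61 3 (.d k46 k47 k63 0 4))))), (.s k4 k8 1 (.s k84 k168 13 (.s k164 k244 11 (.s k88 k240 13 (.d
  k92 k80 k172 1 11)))))] .n) (.c k15 (.q k11 [(.s k8 k4 1 (.s k172 k92 11 (.s k168 k84 13 (.s k164
  k160 1 (.d k88 k248 k240 11 13))))), (.s k28 k44 3 (.s k92 k172 11 (.s k156 k220 7 (.s k108 k204
  11 (.d k124 k76 k188 3 7))))), (.s k4 k8 1 (.s k84 k168 13 (.s k164 k244 11 (.s k44 k28 3 (.s k104
  k224 9 (.d k124 k64 k188 5 7))))))] .n) .n))) (.c k64 (.l (.s k40 k20 5 (.s k168 k84 13 (.s k104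
  k232 7 (.s k148 k192 13 (.d k188 k124 k128 7 5)))))) (.c k84 (.f k20 k40 5 (.q k12 [(.s k4 k8 1
  (.s k36 k52 3 (.s k28 k44 3 (.d k24 k16 k48 1 5)))), (.s k44 k28 3 (.s k172 k92 11 (.s k108 k236 7
  (.s k156 k204 11 (.d k188 k140 k124 3 7)))))] (.c k11 (.q k15 [(.s k13 k14 0 (.s k44 k28 3 (.s k45
  k30 4 (.s k29 k61 3 (.d k46 k47 k63 0 4))))), (.s k4 k8 1 (.s k36 k52 3 (.s k24 k48 5 (.d k28 k16
  k44 1 3)))), (.s k13 k14 0 (.s k172 k92 11 (.s k173 k94 12 (.s k93 k253 11 (.d k174 k175 k255 0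
  12)))))] .n) (.c k15 (.q k11 [(.s k4 k8 1 (.s k36 k52 3 (.s k28 k44 3 (.d k24 k16 k48 1 5)))), (.s
  k44 k28 3 (.s k172 k92 11 (.s k108 k236 7 (.s k156 k204 11 (.d k188 k140 k124 3 7)))))] (.c k28
  (.q k88 [(.s k8 k4 1 (.s k248 k168 11 (.d k240 k244 k164 1 13))), (.s k240 k164 13 (.s k244 k248 1
  (.s k180 k120 9 (.s k116 k52 7 (.s k184 k48 9 (.d k188 k176 k124 1 7))))))] (.c k4 (.l (.s k240
  k164 13 (.s k244 k248 1 (.s k180 k120 9 (.s k116 k52 7 (.s k184 k48 9 (.d k188 k176 k124 1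
  7))))))) (.c k164 (.f k4 k8 1 (.l (.s k36 k52 3 (.s k92 k172 11 (.s k124 k188 7 (.s k76 k108 3 (.s
  k112 k100 5 (.s k116 k120 1 (.d k48 k24 k184 5 9))))))))) (.c k240 (.l (.s k8 k4 1 (.s k10 k9 0
  (.s k248 k168 11 (.s k90 k169 12 (.s k170 k250 11 (.d k89 k91 k251 0 12))))))) (.c k244 (.l (.s k8
  k4 1 (.s k164 k240 13 (.s k168 k248 11 (.d k172 k160 k92 1 11))))) (.c k248 (.l (.s k4 k8 1 (.s
  k52 k36 3 (.s k240 k164 13 (.s k180 k120 9 (.s k116 k244 7 (.d k48 k56 k184 1 9))))))) .n))))))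
  (.c k44 (.f k4 k8 1 (.l (.s k36 k52 3 (.s k24 k48 5 (.s k92 k172 11 (.s k28 k16 1 (.s k124 k188 7
  (.s k108 k76 3 (.d k156 k220 k204 7 11))))))))) .n))) (.c k28 (.f k4 k8 1 (.q k15 [(.s k14 k13 0
  (.s k92 k172 11 (.s k94 k173 12 (.s k174 k254 11 (.d k93 k95 k255 0 12))))), (.s k30 k45 4 (.s k94
  k173 12 (.s k158 k222 7 (.s k109 k207 12 (.d k124 k79 k188 4 7))))), (.s k10 k5 2 (.s k14 k13 0
  (.s k2 k6 1 (.s k30 k45 4 (.s k62 k46 3 (.s k42 k22 5 (.d k63 k61 k21 0 6)))))))] (.c k24 (.q k56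
  [(.d k52 k48 k36 1 3), (.s k13 k14 0 (.s k172 k92 11 (.s k173 k94 12 (.s k93 k253 11 (.d k174 k175
  k255 0 12)))))] .n) (.c k56 (.q k24 [(.d k36 k52 k48 3 5), (.s k13 k14 0 (.s k172 k92 11 (.s k173
  k94 12 (.s k93 k253 11 (.d k174 k175 k255 0 12)))))] .n) .n)))) (.c k44 (.f k4 k8 1 (.l (.s k36
  k52 3 (.s k24 k48 5 (.s k92 k172 11 (.s k28 k16 1 (.s k124 k188 7 (.s k108 k76 3 (.d k156 k220
  k204 7 11))))))))) .n)))))) (.c k104 (.q k12 [(.s k28 k44 3 (.s k92 k172 11 (.s k156 k220 7 (.s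
  k108 k204 11 (.d k124 k76 k188 3 7))))), (.s k4 k8 1 (.s k20 k40 5 (.s k36 k52 3 (.s k24 k48 5 (.d
  k28 k16 k44 1 3))))), (.s k4 k8 1 (.s k84 k168 13 (.s k164 k244 11 (.s k88 k240 13 (.d k92 k80
  k172 1 11)))))] (.c k11 (.q k15 [(.s k13 k14 0 (.s k44 k28 3 (.s k45 k30 4 (.s k29 k61 3 (.d k46
  k47 k63 0 4))))), (.s k4 k8 1 (.s k84 k168 13 (.s k164 k244 11 (.s k88 k240 13 (.d k92 k80 k172 1
  11)))))] .n) (.c k15 (.q k11 [(.s k4 k8 1 (.s k20 k40 5 (.s k28 k44 3 (.s k24 k16 1 (.d k36 k52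
  k48 3 5))))), (.s k28 k44 3 (.s k92 k172 11 (.s k156 k220 7 (.s k108 k204 11 (.d k124 k76 k188 3
  7))))), (.s k4 k8 1 (.s k84 k168 13 (.s k164 k244 11 (.s k88 k240 13 (.d k92 k80 k172 1 11)))))]
  (.c k164 (.l (.s k4 k8 1 (.s k20 k40 5 (.s k36 k52 3 (.s k24 k48 5 (.d k28 k16 k44 1 3)))))) .n))
  .n))) (.c k124 (.f k84 k168 13 (.q k12 [(.s k4 k8 1 (.s k92 k172 11 (.s k88 k80 1 (.d k164 k244
  k240 11 13)))), (.s k8 k4 1 (.s k40 k20 5 (.s k24 k56 3 (.s k36 k48 5 (.d k44 k32 k28 1 3))))),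
  (.s k20 k40 5 (.s k28 k44 3 (.s k92 k172 11 (.s k148 k212 7 (.d k88 k80 k208 1 9)))))] (.c k11 (.q
  k15 [(.s k92 k172 11 (.s k88 k80 1 (.s k164 k240 13 (.d k4 k8 k244 1 11)))), (.s k8 k4 1 (.s k40
  k20 5 (.s k24 k56 3 (.s k36 k48 5 (.d k44 k32 k28 1 3))))), (.s k20 k40 5 (.s k28 k44 3 (.s k92
  k172 11 (.s k148 k212 7 (.d k88 k80 k208 1 9)))))] .n) (.c k15 (.q k11 [(.s k4 k8 1 (.s k92 k172
  11 (.s k88 k80 1 (.d k164 k244 k240 11 13)))), (.s k8 k4 1 (.s k40 k20 5 (.s k24 k56 3 (.s k36 k48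
  5 (.d k44 k32 k28 1 3))))), (.s k20 k40 5 (.s k28 k44 3 (.s k92 k172 11 (.s k148 k212 7 (.d k88
  k80 k208 1 9)))))] .n) .n)))) (.c k148 (.f k20 k40 5 (.q k12 [(.s k4 k8 1 (.s k28 k44 3 (.s k24
  k16 1 (.d k36 k52 k48 3 5)))), (.s k8 k4 1 (.s k168 k84 13 (.s k88 k248 11 (.s k164 k240 13 (.d
  k172 k160 k92 1 11))))), (.s k84 k168 13 (.s k28 k44 3 (.s k92 k172 11 (.s k220 k156 7 (.d k16
  k152 k24 9 1)))))] (.c k11 (.q k15 [(.s k28 k44 3 (.s k24 k16 1 (.s k36 k48 5 (.d k4 k8 k52 1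
  3)))), (.s k8 k4 1 (.s k168 k84 13 (.s k88 k248 11 (.s k164 k240 13 (.d k172 k160 k92 1 11))))),
  (.s k84 k168 13 (.s k28 k44 3 (.s k92 k172 11 (.s k220 k156 7 (.d k16 k152 k24 9 1)))))] .n) (.c
  k15 (.q k11 [(.s k4 k8 1 (.s k28 k44 3 (.s k24 k16 1 (.d k36 k52 k48 3 5)))), (.s k8 k4 1 (.s k168
  k84 13 (.s k88 k248 11 (.s k164 k240 13 (.d k172 k160 k92 1 11))))), (.s k84 k168 13 (.s k28 k44 3
  (.s k92 k172 11 (.s k220 k156 7 (.d k16 k152 k24 9 1)))))] .n) .n)))) (.c k168 (.q k12 [(.s k28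
  k44 3 (.s k92 k172 11 (.s k156 k220 7 (.s k108 k204 11 (.d k124 k76 k188 3 7))))), (.s k4 k8 1 (.s
  k20 k40 5 (.s k36 k52 3 (.s k24 k48 5 (.d k28 k16 k44 1 3)))))] (.c k11 (.q k15 [(.s k13 k14 0 (.s
  k44 k28 3 (.s k45 k30 4 (.s k29 k61 3 (.d k46 k47 k63 0 4))))), (.s k4 k8 1 (.s k20 k40 5 (.s k36
  k52 3 (.s k24 k48 5 (.d k28 k16 k44 1 3))))), (.s k13 k14 0 (.s k172 k92 11 (.s k173 k94 12 (.s
  k93 k253 11 (.d k174 k175 k255 0 12)))))] .n) (.c k15 (.q k11 [(.s k4 k8 1 (.s k20 k40 5 (.s k28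
  k44 3 (.s k24 k16 1 (.d k36 k52 k48 3 5))))), (.s k28 k44 3 (.s k92 k172 11 (.s k156 k220 7 (.s
  k108 k204 11 (.d k124 k76 k188 3 7)))))] (.c k28 (.q k16 [(.s k8 k4 1 (.s k48 k32 3 (.s k40 k20 5
  (.d k24 k36 k56 5 3)))), (.s k48 k32 3 (.s k52 k56 1 (.s k116 k184 9 (.s k180 k244 7 (.s k120 k240
  9 (.d k124 k112 k188 1 7)))))), (.s k8 k4 1 (.s k40 k20 5 (.s k10 k9 0 (.s k56 k24 3 (.s k26 k41 4
  (.s k42 k58 3 (.d k21 k31 k63 2 6))))))), (.s k32 k48 3 (.s k40 k20 5 (.s k172 k92 11 (.s k188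
  k124 7 (.s k156 k140 3 (.s k108 k204 11 (.d k44 k36 k236 1 7)))))))] .n) (.c k44 (.l (.s k8 k4 1
  (.s k40 k20 5 (.s k9 k10 0 (.s k56 k24 3 (.s k41 k26 4 (.s k25 k57 3 (.d k42 k43 k59 0 4))))))))
  .n))) (.c k28 (.q k15 [(.s k30 k45 4 (.s k94 k173 12 (.s k158 k222 7 (.s k109 k207 12 (.d k124 k79
  k188 4 7))))), (.s k13 k14 0 (.s k172 k92 11 (.s k173 k94 12 (.s k93 k253 11 (.d k174 k175 k255 0
  12)))))] (.c k94 (.q k84 [(.s k4 k8 1 (.s k92 k172 11 (.s k88 k80 1 (.d k164 k244 k240 11 13)))),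
  (.s k20 k40 5 (.s k148 k212 7 (.s k104 k192 13 (.d k124 k64 k188 5 7))))] .n) (.c k173 (.q k84
  [(.s k20 k40 5 (.s k148 k212 7 (.s k104 k192 13 (.d k124 k64 k188 5 7)))), (.s k4 k8 1 (.s k164
  k244 11 (.s k88 k240 13 (.d k92 k80 k172 1 11))))] .n) .n))) (.c k44 (.q k15 [(.s k13 k14 0 (.s
  k172 k92 11 (.s k173 k94 12 (.s k93 k253 11 (.d k174 k175 k255 0 12))))), (.s k30 k45 4 (.s k94
  k173 12 (.s k158 k222 7 (.s k109 k207 12 (.d k124 k79 k188 4 7))))), (.s k5 k10 2 (.s k13 k14 0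
  (.s k1 k9 1 (.s k45 k30 4 (.s k61 k29 3 (.s k21 k41 5 (.d k63 k62 k42 0 6)))))))] .n) .n))))) (.c
  k188 (.f k20 k40 5 (.q k12 [(.s k4 k8 1 (.s k28 k44 3 (.s k24 k16 1 (.d k36 k52 k48 3 5)))), (.s
  k8 k4 1 (.s k168 k84 13 (.s k88 k248 11 (.s k164 k240 13 (.d k172 k160 k92 1 11))))), (.s k84 k168
  13 (.s k28 k44 3 (.s k92 k172 11 (.s k148 k212 7 (.d k88 k80 k208 1 9)))))] (.c k11 (.q k15 [(.s
  k28 k44 3 (.s k24 k16 1 (.s k36 k48 5 (.d k4 k8 k52 1 3)))), (.s k8 k4 1 (.s k168 k84 13 (.s k88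
  k248 11 (.s k164 k240 13 (.d k172 k160 k92 1 11))))), (.s k84 k168 13 (.s k28 k44 3 (.s k92 k172
  11 (.s k148 k212 7 (.d k88 k80 k208 1 9)))))] .n) (.c k15 (.q k11 [(.s k4 k8 1 (.s k28 k44 3 (.s
  k24 k16 1 (.d k36 k52 k48 3 5)))), (.s k8 k4 1 (.s k168 k84 13 (.s k88 k248 11 (.s k164 k240 13
  (.d k172 k160 k92 1 11))))), (.s k84 k168 13 (.s k28 k44 3 (.s k92 k172 11 (.s k148 k212 7 (.d k88
  k80 k208 1 9)))))] .n) .n)))) (.c k192 (.f k20 k40 5 (.f k124 k188 7 (.q k204 [(.s k108 k156 11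
  (.s k92 k76 3 (.s k236 k220 3 (.d k172 k44 k12 7 11)))), (.s k68 k136 9 (.s k84 k168 13 (.s k100
  k116 3 (.s k152 k48 13 (.d k220 k236 k16 3 9))))), (.s k68 k136 9 (.s k84 k168 13 (.s k108 k156 11
  (.s k104 k64 5 (.d k100 k96 k116 1 3)))))] (.c k11 (.q k15 [(.s k30 k45 4 (.s k94 k173 12 (.s k158
  k222 7 (.d k109 k79 k207 4 12)))), (.s k108 k156 11 (.s k92 k76 3 (.s k172 k12 11 (.d k236 k220
  k44 3 7))))] (.c k66 (.q k129 [(.s k30 k45 4 (.s k94 k173 12 (.s k158 k222 7 (.d k109 k79 k207 4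
  12)))), (.s k108 k156 11 (.s k92 k76 3 (.s k172 k12 11 (.d k236 k220 k44 3 7))))] .n) (.c k129 (.q
  k66 [(.s k30 k45 4 (.s k94 k173 12 (.s k158 k222 7 (.d k109 k79 k207 4 12)))), (.s k108 k156 11
  (.s k92 k76 3 (.s k172 k12 11 (.d k236 k220 k44 3 7))))] .n) .n))) (.c k15 (.q k11 [(.s k108 k156
  11 (.s k92 k76 3 (.s k236 k220 3 (.d k172 k44 k12 7 11)))), (.s k68 k136 9 (.s k84 k168 13 (.s
  k100 k116 3 (.s k152 k48 13 (.d k220 k236 k16 3 9))))), (.s k68 k136 9 (.s k84 k168 13 (.s k108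
  k156 11 (.s k104 k64 5 (.d k100 k96 k116 1 3)))))] (.c k66 (.q k129 [(.s k108 k156 11 (.s k92 k76
  3 (.s k236 k220 3 (.d k172 k44 k12 7 11)))), (.s k68 k136 9 (.s k84 k168 13 (.s k100 k116 3 (.s
  k152 k48 13 (.d k220 k236 k16 3 9))))), (.s k68 k136 9 (.s k84 k168 13 (.s k108 k156 11 (.s k104
  k64 5 (.d k100 k96 k116 1 3)))))] (.c k74 (.q k133 [(.s k108 k156 11 (.s k92 k76 3 (.s k236 k220 3
  (.d k172 k44 k12 7 11)))), (.s k68 k136 9 (.s k84 k168 13 (.s k100 k116 3 (.s k152 k48 13 (.d k220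
  k236 k16 3 9))))), (.s k68 k136 9 (.s k84 k168 13 (.s k108 k156 11 (.s k104 k64 5 (.d k100 k96
  k116 1 3)))))] (.c k70 (.q k78 [(.s k108 k156 11 (.s k92 k76 3 (.s k236 k220 3 (.d k172 k44 k12 7
  11)))), (.s k68 k136 9 (.s k84 k168 13 (.s k100 k116 3 (.s k152 k48 13 (.d k220 k236 k16 3 9))))),
  (.s k68 k136 9 (.s k84 k168 13 (.s k108 k156 11 (.s k104 k64 5 (.d k100 k96 k116 1 3)))))] .n) (.c
  k78 (.q k70 [(.s k108 k156 11 (.s k92 k76 3 (.s k236 k220 3 (.d k172 k44 k12 7 11)))), (.s k68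
  k136 9 (.s k84 k168 13 (.s k100 k116 3 (.s k152 k48 13 (.d k220 k236 k16 3 9))))), (.s k68 k136 9
  (.s k84 k168 13 (.s k108 k156 11 (.s k104 k64 5 (.d k100 k96 k116 1 3)))))] .n) .n))) (.c k133 (.q
  k74 [(.s k108 k156 11 (.s k92 k76 3 (.s k236 k220 3 (.d k172 k44 k12 7 11)))), (.s k68 k136 9 (.s
  k84 k168 13 (.s k100 k116 3 (.s k152 k48 13 (.d k220 k236 k16 3 9))))), (.s k68 k136 9 (.s k84
  k168 13 (.s k108 k156 11 (.s k104 k64 5 (.d k100 k96 k116 1 3)))))] (.c k70 (.q k196 [(.s k68 k136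
  9 (.s k84 k168 13 (.s k148 k212 7 (.d k100 k116 k52 3 11)))), (.s k108 k156 11 (.s k92 k76 3 (.s
  k172 k12 11 (.d k236 k220 k44 3 7))))] .n) (.c k196 (.q k70 [(.s k108 k156 11 (.s k92 k76 3 (.s
  k172 k12 11 (.d k236 k220 k44 3 7)))), (.s k68 k136 9 (.s k84 k168 13 (.s k69 k71 0 (.d k64 k104
  k79 5 2))))] .n) .n))) .n))) (.c k74 (.q k133 [(.s k108 k156 11 (.s k92 k76 3 (.s k236 k220 3 (.d
  k172 k44 k12 7 11)))), (.s k68 k136 9 (.s k84 k168 13 (.s k100 k116 3 (.s k152 k48 13 (.d k220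
  k236 k16 3 9))))), (.s k68 k136 9 (.s k84 k168 13 (.s k108 k156 11 (.s k104 k64 5 (.d k100 k96
  k116 1 3)))))] (.c k66 (.q k129 [(.s k108 k156 11 (.s k92 k76 3 (.s k236 k220 3 (.d k172 k44 k12 7
  11)))), (.s k68 k136 9 (.s k84 k168 13 (.s k100 k116 3 (.s k152 k48 13 (.d k220 k236 k16 3 9))))),
  (.s k68 k136 9 (.s k84 k168 13 (.s k108 k156 11 (.s k104 k64 5 (.d k100 k96 k116 1 3)))))] (.c k70
  (.q k78 [(.s k108 k156 11 (.s k92 k76 3 (.s k236 k220 3 (.d k172 k44 k12 7 11)))), (.s k68 k136 9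
  (.s k84 k168 13 (.s k100 k116 3 (.s k152 k48 13 (.d k220 k236 k16 3 9))))), (.s k68 k136 9 (.s k84
  k168 13 (.s k108 k156 11 (.s k104 k64 5 (.d k100 k96 k116 1 3)))))] .n) (.c k78 (.q k70 [(.s k108
  k156 11 (.s k92 k76 3 (.s k236 k220 3 (.d k172 k44 k12 7 11)))), (.s k68 k136 9 (.s k84 k168 13
  (.s k100 k116 3 (.s k152 k48 13 (.d k220 k236 k16 3 9))))), (.s k68 k136 9 (.s k84 k168 13 (.s
  k108 k156 11 (.s k104 k64 5 (.d k100 k96 k116 1 3)))))] .n) .n))) (.c k129 (.q k66 [(.s k108 k156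
  11 (.s k92 k76 3 (.s k236 k220 3 (.d k172 k44 k12 7 11)))), (.s k68 k136 9 (.s k84 k168 13 (.s
  k100 k116 3 (.s k152 k48 13 (.d k220 k236 k16 3 9))))), (.s k68 k136 9 (.s k84 k168 13 (.s k108
  k156 11 (.s k104 k64 5 (.d k100 k96 k116 1 3)))))] .n) .n))) (.c k129 (.q k66 [(.s k108 k156 11
  (.s k92 k76 3 (.s k236 k220 3 (.d k172 k44 k12 7 11)))), (.s k68 k136 9 (.s k84 k168 13 (.s k100
  k116 3 (.s k152 k48 13 (.d k220 k236 k16 3 9))))), (.s k68 k136 9 (.s k84 k168 13 (.s k108 k156 11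
  (.s k104 k64 5 (.d k100 k96 k116 1 3)))))] (.c k74 (.q k133 [(.s k108 k156 11 (.s k92 k76 3 (.s
  k236 k220 3 (.d k172 k44 k12 7 11)))), (.s k68 k136 9 (.s k84 k168 13 (.s k100 k116 3 (.s k152 k48
  13 (.d k220 k236 k16 3 9))))), (.s k68 k136 9 (.s k84 k168 13 (.s k108 k156 11 (.s k104 k64 5 (.d
  k100 k96 k116 1 3)))))] .n) (.c k133 (.q k74 [(.s k108 k156 11 (.s k92 k76 3 (.s k236 k220 3 (.d
  k172 k44 k12 7 11)))), (.s k68 k136 9 (.s k84 k168 13 (.s k70 k78 1 (.s k69 k71 0 (.d k64 k104 k79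
  5 2)))))] (.c k70 (.q k196 [(.s k68 k136 9 (.s k84 k168 13 (.s k148 k212 7 (.d k100 k116 k52 3
  11)))), (.s k108 k156 11 (.s k92 k76 3 (.s k172 k12 11 (.d k236 k220 k44 3 7))))] (.c k137 (.q
  k141 [(.s k84 k168 13 (.s k148 k212 7 (.s k100 k52 11 (.d k68 k116 k136 3 9)))), (.s k108 k156 11
  (.s k92 k76 3 (.s k172 k12 11 (.d k236 k220 k44 3 7))))] .n) (.c k141 (.l (.s k137 k200 8 (.s k68
  k136 9 (.s k84 k168 13 (.s k148 k212 7 (.d k100 k116 k52 3 11)))))) .n))) (.c k137 (.q k141 [(.s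
  k108 k156 11 (.s k92 k76 3 (.s k236 k220 3 (.d k172 k44 k12 7 11)))), (.s k68 k136 9 (.s k84 k168
  13 (.s k70 k78 1 (.s k69 k71 0 (.d k64 k104 k79 5 2)))))] (.c k70 (.q k196 [(.s k84 k168 13 (.s
  k148 k212 7 (.s k100 k52 11 (.d k68 k116 k136 3 9)))), (.s k108 k156 11 (.s k92 k76 3 (.s k172 k12
  11 (.d k236 k220 k44 3 7))))] .n) (.c k196 (.l (.s k70 k78 1 (.s k68 k136 9 (.s k84 k168 13 (.s
  k69 k71 0 (.d k64 k104 k79 5 2)))))) .n))) (.c k141 (.l (.s k137 k200 8 (.s k108 k156 11 (.s k92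
  k76 3 (.s k172 k12 11 (.d k236 k220 k44 3 7)))))) (.c k196 (.l (.s k70 k78 1 (.s k68 k136 9 (.s
  k84 k168 13 (.s k69 k71 0 (.d k64 k104 k79 5 2)))))) .n))))) .n))) (.c k133 (.q k74 [(.s k108 k156
  11 (.s k92 k76 3 (.s k236 k220 3 (.d k172 k44 k12 7 11)))), (.s k68 k136 9 (.s k84 k168 13 (.s
  k100 k116 3 (.s k152 k48 13 (.d k220 k236 k16 3 9))))), (.s k68 k136 9 (.s k84 k168 13 (.s k108
  k156 11 (.s k104 k64 5 (.d k100 k96 k116 1 3)))))] (.c k66 (.q k129 [(.s k108 k156 11 (.s k92 k76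
  3 (.s k236 k220 3 (.d k172 k44 k12 7 11)))), (.s k68 k136 9 (.s k84 k168 13 (.s k100 k116 3 (.s
  k152 k48 13 (.d k220 k236 k16 3 9))))), (.s k68 k136 9 (.s k84 k168 13 (.s k108 k156 11 (.s k104
  k64 5 (.d k100 k96 k116 1 3)))))] (.c k70 (.q k196 [(.s k68 k136 9 (.s k84 k168 13 (.s k148 k212 7
  (.d k100 k116 k52 3 11)))), (.s k108 k156 11 (.s k92 k76 3 (.s k172 k12 11 (.d k236 k220 k44 3
  7))))] .n) (.c k196 (.q k70 [(.s k108 k156 11 (.s k92 k76 3 (.s k172 k12 11 (.d k236 k220 k44 3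
  7)))), (.s k68 k136 9 (.s k84 k168 13 (.s k69 k71 0 (.d k64 k104 k79 5 2))))] .n) .n))) (.c k70
  (.q k196 [(.s k68 k136 9 (.s k84 k168 13 (.s k148 k212 7 (.d k100 k116 k52 3 11)))), (.s k108 k156
  11 (.s k92 k76 3 (.s k172 k12 11 (.d k236 k220 k44 3 7))))] (.c k66 (.q k129 [(.s k68 k136 9 (.s
  k84 k168 13 (.s k148 k212 7 (.d k100 k116 k52 3 11)))), (.s k108 k156 11 (.s k92 k76 3 (.s k172
  k12 11 (.d k236 k220 k44 3 7))))] .n) (.c k129 (.q k66 [(.s k68 k136 9 (.s k84 k168 13 (.s k148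
  k212 7 (.d k100 k116 k52 3 11)))), (.s k108 k156 11 (.s k92 k76 3 (.s k172 k12 11 (.d k236 k220
  k44 3 7))))] (.c k137 (.q k141 [(.s k84 k168 13 (.s k148 k212 7 (.s k100 k52 11 (.d k68 k116 k136
  3 9)))), (.s k108 k156 11 (.s k92 k76 3 (.s k172 k12 11 (.d k236 k220 k44 3 7))))] .n) (.c k141
  (.l (.s k137 k200 8 (.s k68 k136 9 (.s k84 k168 13 (.s k148 k212 7 (.d k100 k116 k52 3 11))))))
  .n))) .n))) (.c k129 (.q k66 [(.s k108 k156 11 (.s k92 k76 3 (.s k236 k220 3 (.d k172 k44 k12 7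
  11)))), (.s k68 k136 9 (.s k84 k168 13 (.s k70 k78 1 (.s k69 k71 0 (.d k64 k104 k79 5 2)))))] (.c
  k70 (.q k196 [(.s k68 k136 9 (.s k84 k168 13 (.s k148 k212 7 (.d k100 k116 k52 3 11)))), (.s k108
  k156 11 (.s k92 k76 3 (.s k172 k12 11 (.d k236 k220 k44 3 7))))] (.c k137 (.q k141 [(.s k84 k168
  13 (.s k148 k212 7 (.s k100 k52 11 (.d k68 k116 k136 3 9)))), (.s k108 k156 11 (.s k92 k76 3 (.s
  k172 k12 11 (.d k236 k220 k44 3 7))))] .n) (.c k141 (.l (.s k137 k200 8 (.s k68 k136 9 (.s k84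
  k168 13 (.s k148 k212 7 (.d k100 k116 k52 3 11)))))) .n))) (.c k137 (.q k141 [(.s k108 k156 11 (.s
  k92 k76 3 (.s k236 k220 3 (.d k172 k44 k12 7 11)))), (.s k68 k136 9 (.s k84 k168 13 (.s k70 k78 1
  (.s k69 k71 0 (.d k64 k104 k79 5 2)))))] (.c k70 (.q k196 [(.s k84 k168 13 (.s k148 k212 7 (.s
  k100 k52 11 (.d k68 k116 k136 3 9)))), (.s k108 k156 11 (.s k92 k76 3 (.s k172 k12 11 (.d k236
  k220 k44 3 7))))] .n) (.c k196 (.l (.s k70 k78 1 (.s k68 k136 9 (.s k84 k168 13 (.s k69 k71 0 (.d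
  k64 k104 k79 5 2)))))) .n))) (.c k141 (.l (.s k137 k200 8 (.s k108 k156 11 (.s k92 k76 3 (.s k172
  k12 11 (.d k236 k220 k44 3 7)))))) (.c k196 (.l (.s k70 k78 1 (.s k68 k136 9 (.s k84 k168 13 (.s
  k69 k71 0 (.d k64 k104 k79 5 2)))))) .n))))) (.c k196 (.q k70 [(.s k108 k156 11 (.s k92 k76 3 (.s
  k172 k12 11 (.d k236 k220 k44 3 7)))), (.s k68 k136 9 (.s k84 k168 13 (.s k69 k71 0 (.d k64 k104
  k79 5 2))))] (.c k66 (.q k129 [(.s k108 k156 11 (.s k92 k76 3 (.s k172 k12 11 (.d k236 k220 k44 3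
  7)))), (.s k68 k136 9 (.s k84 k168 13 (.s k69 k71 0 (.d k64 k104 k79 5 2))))] .n) (.c k129 (.l (.s
  k66 k78 1 (.s k68 k136 9 (.s k84 k168 13 (.s k69 k71 0 (.d k64 k104 k79 5 2)))))) .n))) .n)))))
  .n))))) (.c k66 (.q k129 [(.s k108 k156 11 (.s k92 k76 3 (.s k236 k220 3 (.d k172 k44 k12 7
  11)))), (.s k68 k136 9 (.s k84 k168 13 (.s k100 k116 3 (.s k152 k48 13 (.d k220 k236 k16 3 9))))),
  (.s k68 k136 9 (.s k84 k168 13 (.s k108 k156 11 (.s k104 k64 5 (.d k100 k96 k116 1 3)))))] (.c k11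
  (.q k15 [(.s k30 k45 4 (.s k94 k173 12 (.s k158 k222 7 (.d k109 k79 k207 4 12)))), (.s k108 k156
  11 (.s k92 k76 3 (.s k172 k12 11 (.d k236 k220 k44 3 7))))] .n) (.c k15 (.q k11 [(.s k108 k156 11
  (.s k92 k76 3 (.s k236 k220 3 (.d k172 k44 k12 7 11)))), (.s k68 k136 9 (.s k84 k168 13 (.s k100
  k116 3 (.s k152 k48 13 (.d k220 k236 k16 3 9))))), (.s k68 k136 9 (.s k84 k168 13 (.s k108 k156 11
  (.s k104 k64 5 (.d k100 k96 k116 1 3)))))] (.c k74 (.q k133 [(.s k108 k156 11 (.s k92 k76 3 (.s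
  k236 k220 3 (.d k172 k44 k12 7 11)))), (.s k68 k136 9 (.s k84 k168 13 (.s k100 k116 3 (.s k152 k48
  13 (.d k220 k236 k16 3 9))))), (.s k68 k136 9 (.s k84 k168 13 (.s k108 k156 11 (.s k104 k64 5 (.d
  k100 k96 k116 1 3)))))] (.c k70 (.q k78 [(.s k108 k156 11 (.s k92 k76 3 (.s k236 k220 3 (.d k172
  k44 k12 7 11)))), (.s k68 k136 9 (.s k84 k168 13 (.s k100 k116 3 (.s k152 k48 13 (.d k220 k236 k16
  3 9))))), (.s k68 k136 9 (.s k84 k168 13 (.s k108 k156 11 (.s k104 k64 5 (.d k100 k96 k116 1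
  3)))))] .n) (.c k78 (.q k70 [(.s k108 k156 11 (.s k92 k76 3 (.s k236 k220 3 (.d k172 k44 k12 7
  11)))), (.s k68 k136 9 (.s k84 k168 13 (.s k100 k116 3 (.s k152 k48 13 (.d k220 k236 k16 3 9))))),
  (.s k68 k136 9 (.s k84 k168 13 (.s k108 k156 11 (.s k104 k64 5 (.d k100 k96 k116 1 3)))))] .n)
  .n))) (.c k133 (.q k74 [(.s k108 k156 11 (.s k92 k76 3 (.s k236 k220 3 (.d k172 k44 k12 7 11)))),
  (.s k68 k136 9 (.s k84 k168 13 (.s k100 k116 3 (.s k152 k48 13 (.d k220 k236 k16 3 9))))), (.s k68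
  k136 9 (.s k84 k168 13 (.s k108 k156 11 (.s k104 k64 5 (.d k100 k96 k116 1 3)))))] (.c k70 (.q
  k196 [(.s k68 k136 9 (.s k84 k168 13 (.s k148 k212 7 (.d k100 k116 k52 3 11)))), (.s k108 k156 11
  (.s k92 k76 3 (.s k172 k12 11 (.d k236 k220 k44 3 7))))] .n) (.c k196 (.q k70 [(.s k108 k156 11
  (.s k92 k76 3 (.s k172 k12 11 (.d k236 k220 k44 3 7)))), (.s k68 k136 9 (.s k84 k168 13 (.s k69
  k71 0 (.d k64 k104 k79 5 2))))] .n) .n))) .n))) .n))) (.c k129 (.q k66 [(.s k108 k156 11 (.s k92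
  k76 3 (.s k236 k220 3 (.d k172 k44 k12 7 11)))), (.s k68 k136 9 (.s k84 k168 13 (.s k100 k116 3
  (.s k152 k48 13 (.d k220 k236 k16 3 9))))), (.s k68 k136 9 (.s k84 k168 13 (.s k108 k156 11 (.s
  k104 k64 5 (.d k100 k96 k116 1 3)))))] (.c k11 (.q k15 [(.s k30 k45 4 (.s k94 k173 12 (.s k158
  k222 7 (.d k109 k79 k207 4 12)))), (.s k108 k156 11 (.s k92 k76 3 (.s k172 k12 11 (.d k236 k220
  k44 3 7))))] .n) (.c k15 (.q k11 [(.s k108 k156 11 (.s k92 k76 3 (.s k236 k220 3 (.d k172 k44 k12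
  7 11)))), (.s k68 k136 9 (.s k84 k168 13 (.s k100 k116 3 (.s k152 k48 13 (.d k220 k236 k16 3
  9))))), (.s k68 k136 9 (.s k84 k168 13 (.s k108 k156 11 (.s k104 k64 5 (.d k100 k96 k116 1 3)))))]
  (.c k74 (.q k133 [(.s k108 k156 11 (.s k92 k76 3 (.s k236 k220 3 (.d k172 k44 k12 7 11)))), (.s
  k68 k136 9 (.s k84 k168 13 (.s k100 k116 3 (.s k152 k48 13 (.d k220 k236 k16 3 9))))), (.s k68
  k136 9 (.s k84 k168 13 (.s k108 k156 11 (.s k104 k64 5 (.d k100 k96 k116 1 3)))))] .n) (.c k133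
  (.q k74 [(.s k108 k156 11 (.s k92 k76 3 (.s k236 k220 3 (.d k172 k44 k12 7 11)))), (.s k68 k136 9
  (.s k84 k168 13 (.s k70 k78 1 (.s k69 k71 0 (.d k64 k104 k79 5 2)))))] (.c k70 (.q k196 [(.s k68
  k136 9 (.s k84 k168 13 (.s k148 k212 7 (.d k100 k116 k52 3 11)))), (.s k108 k156 11 (.s k92 k76 3
  (.s k172 k12 11 (.d k236 k220 k44 3 7))))] (.c k137 (.q k141 [(.s k84 k168 13 (.s k148 k212 7 (.s
  k100 k52 11 (.d k68 k116 k136 3 9)))), (.s k108 k156 11 (.s k92 k76 3 (.s k172 k12 11 (.d k236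
  k220 k44 3 7))))] .n) (.c k141 (.l (.s k137 k200 8 (.s k68 k136 9 (.s k84 k168 13 (.s k148 k212 7
  (.d k100 k116 k52 3 11)))))) .n))) (.c k137 (.q k141 [(.s k108 k156 11 (.s k92 k76 3 (.s k236 k220
  3 (.d k172 k44 k12 7 11)))), (.s k68 k136 9 (.s k84 k168 13 (.s k70 k78 1 (.s k69 k71 0 (.d k64
  k104 k79 5 2)))))] (.c k70 (.q k196 [(.s k84 k168 13 (.s k148 k212 7 (.s k100 k52 11 (.d k68 k116
  k136 3 9)))), (.s k108 k156 11 (.s k92 k76 3 (.s k172 k12 11 (.d k236 k220 k44 3 7))))] .n) (.c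
  k196 (.l (.s k70 k78 1 (.s k68 k136 9 (.s k84 k168 13 (.s k69 k71 0 (.d k64 k104 k79 5 2))))))
  .n))) (.c k141 (.l (.s k137 k200 8 (.s k108 k156 11 (.s k92 k76 3 (.s k172 k12 11 (.d k236 k220
  k44 3 7)))))) (.c k196 (.l (.s k70 k78 1 (.s k68 k136 9 (.s k84 k168 13 (.s k69 k71 0 (.d k64 k104
  k79 5 2)))))) .n))))) .n))) .n))) .n))))))) (.c k212 (.l (.s k40 k20 5 (.s k188 k124 7 (.s k168
  k84 13 (.s k148 k128 5 (.d k104 k232 k192 7 13)))))) (.c k232 (.l (.s k20 k40 5 (.s k124 k188 7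
  (.s k84 k168 13 (.s k104 k64 5 (.d k148 k212 k192 7 13)))))) .n)))))))))))))))

def t12 : T TT 256 :=
  (.f k84 k168 13 (.q k148 [(.s k20 k212 7 (.s k60 k40 5 (.s k124 k188 7 (.d k104 k64 k192 5 13))))]
  (.c k6 (.q k9 [(.s k20 k212 7 (.s k60 k40 5 (.s k124 k188 7 (.d k104 k64 k192 5 13))))] (.c k20
  (.q k100 [(.s k68 k116 3 (.s k204 k136 9 (.s k220 k236 3 (.d k152 k16 k48 9 13)))), (.s k196 k52
  11 (.s k68 k116 3 (.s k4 k132 7 (.s k244 k164 11 (.s k212 k228 3 (.s k192 k232 5 (.d k204 k200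
  k136 1 9))))))), (.s k52 k196 11 (.s k116 k68 3 (.s k48 k184 9 (.s k60 k56 1 (.s k124 k188 7 (.d
  k104 k64 k192 5 13))))))] (.c k68 (.q k60 [(.s k124 k188 7 (.d k104 k64 k192 5 13)), (.s k52 k196
  11 (.s k48 k56 1 (.s k16 k32 3 (.d k152 k220 k204 9 13))))] .n) (.c k116 (.q k60 [(.s k124 k188 7
  (.d k104 k64 k192 5 13)), (.s k52 k196 11 (.s k48 k56 1 (.s k16 k32 3 (.d k152 k220 k204 9 13))))]
  .n) (.c k136 (.l (.s k116 k68 3 (.s k48 k184 9 (.s k152 k204 13 (.d k16 k32 k220 3 9))))) .n))))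
  (.c k40 (.l (.s k212 k20 7 (.s k192 k232 5 (.s k104 k60 13 (.d k64 k124 k128 5 7))))) (.c k60 (.q
  k28 [(.s k20 k212 7 (.s k88 k208 9 (.s k92 k80 1 (.s k220 k156 7 (.d k16 k24 k152 1 9))))), (.s
  k20 k212 7 (.s k16 k24 1 (.s k48 k32 3 (.s k116 k184 9 (.s k100 k68 3 (.d k152 k220 k204 9
  13)))))), (.s k212 k20 7 (.s k208 k88 9 (.s k192 k232 5 (.s k240 k224 3 (.s k216 k220 1 (.s k228
  k204 5 (.d k244 k248 k196 1 3))))))), (.s k88 k208 9 (.s k92 k80 1 (.s k220 k156 7 (.s k204 k236 3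
  (.s k68 k136 9 (.s k100 k116 3 (.d k152 k16 k48 9 13)))))))] (.c k22 (.q k41 [(.s k20 k212 7 (.s
  k88 k208 9 (.s k92 k80 1 (.s k220 k156 7 (.d k16 k24 k152 1 9))))), (.s k20 k212 7 (.s k16 k24 1
  (.s k48 k32 3 (.s k116 k184 9 (.s k100 k68 3 (.d k152 k220 k204 9 13)))))), (.s k212 k20 7 (.s
  k208 k88 9 (.s k192 k232 5 (.s k240 k224 3 (.s k216 k220 1 (.s k228 k204 5 (.d k244 k248 k196 1
  3))))))), (.s k88 k208 9 (.s k92 k80 1 (.s k220 k156 7 (.s k204 k236 3 (.s k68 k136 9 (.s k100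
  k116 3 (.d k152 k16 k48 9 13)))))))] (.c k38 (.q k54 [(.s k20 k212 7 (.s k88 k208 9 (.s k92 k80 1
  (.s k220 k156 7 (.d k16 k24 k152 1 9))))), (.s k20 k212 7 (.s k16 k24 1 (.s k48 k32 3 (.s k116
  k184 9 (.s k100 k68 3 (.d k152 k220 k204 9 13)))))), (.s k212 k20 7 (.s k208 k88 9 (.s k192 k232 5
  (.s k240 k224 3 (.s k216 k220 1 (.s k228 k204 5 (.d k244 k248 k196 1 3))))))), (.s k88 k208 9 (.s
  k92 k80 1 (.s k220 k156 7 (.s k204 k236 3 (.s k68 k136 9 (.s k100 k116 3 (.d k152 k16 k48 9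
  13)))))))] (.c k25 (.q k51 [(.s k20 k212 7 (.s k88 k208 9 (.s k92 k80 1 (.s k220 k156 7 (.d k16
  k24 k152 1 9))))), (.s k17 k34 4 (.s k212 k20 7 (.s k192 k232 5 (.s k128 k64 7 (.s k145 k98 12 (.s
  k81 k209 7 (.d k162 k179 k243 4 12))))))), (.s k88 k208 9 (.s k92 k80 1 (.s k220 k156 7 (.s k204
  k236 3 (.s k68 k136 9 (.s k100 k116 3 (.d k152 k16 k48 9 13)))))))] .n) (.c k51 (.l (.s k25 k57 3
  (.s k20 k212 7 (.s k16 k24 1 (.s k152 k220 9 (.s k208 k88 9 (.d k144 k156 k80 1 7))))))) (.c k204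
  (.l (.s k20 k212 7 (.s k16 k24 1 (.s k152 k220 9 (.s k208 k88 9 (.d k144 k156 k80 1 7)))))) (.c
  k220 (.q k51 [(.s k57 k25 3 (.s k185 k118 10 (.s k249 k121 7 (.s k169 k89 11 (.s k105 k233 7 (.d
  k153 k137 k201 3 11)))))), (.s k17 k34 4 (.s k25 k57 3 (.s k21 k29 1 (.s k1 k61 5 (.s k13 k5 1 (.d
  k49 k33 k37 3 5)))))), (.s k17 k34 4 (.s k212 k20 7 (.s k192 k232 5 (.s k128 k64 7 (.s k145 k98 12
  (.s k81 k209 7 (.d k162 k179 k243 4 12)))))))] .n) .n))))) (.c k54 (.q k38 [(.s k20 k212 7 (.s k88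
  k208 9 (.s k92 k80 1 (.s k220 k156 7 (.d k16 k24 k152 1 9))))), (.s k212 k20 7 (.s k208 k88 9 (.s
  k44 k35 2 (.s k192 k232 5 (.s k64 k128 7 (.s k104 k124 5 (.d k224 k240 k164 3 9))))))), (.s k88
  k208 9 (.s k92 k80 1 (.s k220 k156 7 (.s k204 k236 3 (.s k68 k136 9 (.s k100 k116 3 (.d k152 k16
  k48 9 13))))))), (.s k20 k212 7 (.s k16 k24 1 (.s k48 k32 3 (.s k116 k184 9 (.s k100 k68 3 (.d
  k152 k220 k204 9 13))))))] (.c k51 (.l (.s k57 k25 3 (.s k20 k212 7 (.s k16 k24 1 (.s k152 k220 9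
  (.s k208 k88 9 (.d k144 k156 k80 1 7))))))) (.c k57 (.q k51 [(.s k34 k17 4 (.s k20 k212 7 (.s k16
  k24 1 (.s k35 k44 2 (.d k32 k48 k33 3 0))))), (.s k212 k20 7 (.s k208 k88 9 (.s k220 k216 1 (.s
  k152 k16 9 (.d k156 k144 k92 1 7))))), (.s k34 k17 4 (.s k42 k46 1 (.s k35 k44 2 (.s k32 k33 0 (.s
  k47 k37 2 (.d k43 k40 k39 0 1))))))] .n) .n))) (.c k204 (.l (.s k20 k212 7 (.s k16 k24 1 (.s k152
  k220 9 (.s k208 k88 9 (.d k144 k156 k80 1 7)))))) (.c k220 (.q k100 [(.s k116 k68 3 (.s k48 k184 9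
  (.s k16 k32 3 (.d k20 k24 k212 1 7)))), (.s k88 k208 9 (.s k52 k196 11 (.s k116 k68 3 (.s k244
  k180 7 (.s k80 k92 1 (.d k240 k248 k160 1 11)))))), (.s k20 k212 7 (.s k16 k24 1 (.s k48 k32 3 (.s
  k208 k88 9 (.s k144 k80 7 (.d k152 k156 k204 1 13))))))] (.c k38 (.q k54 [(.s k116 k68 3 (.s k48
  k184 9 (.s k16 k32 3 (.d k20 k24 k212 1 7)))), (.s k88 k208 9 (.s k52 k196 11 (.s k116 k68 3 (.s
  k244 k180 7 (.s k80 k92 1 (.d k240 k248 k160 1 11)))))), (.s k20 k212 7 (.s k16 k24 1 (.s k48 k32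
  3 (.s k208 k88 9 (.s k144 k80 7 (.d k152 k156 k204 1 13))))))] (.c k25 (.q k51 [(.s k116 k68 3 (.s
  k48 k184 9 (.s k16 k32 3 (.d k20 k24 k212 1 7)))), (.s k118 k185 10 (.s k52 k196 11 (.s k55 k53 0
  (.s k244 k181 8 (.d k116 k68 k180 3 7))))), (.s k20 k212 7 (.s k16 k24 1 (.s k48 k32 3 (.s k208
  k88 9 (.s k144 k80 7 (.d k152 k156 k204 1 13))))))] .n) (.c k51 (.l (.s k25 k57 3 (.s k20 k212 7
  (.s k16 k24 1 (.s k48 k32 3 (.d k116 k68 k184 3 9)))))) (.c k212 (.l (.s k208 k88 9 (.s k116 k68 3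
  (.s k48 k184 9 (.s k16 k32 3 (.s k144 k80 7 (.d k152 k156 k204 1 13))))))) .n)))) (.c k54 (.q k38
  [(.s k116 k68 3 (.s k48 k184 9 (.s k16 k32 3 (.d k20 k24 k212 1 7)))), (.s k88 k208 9 (.s k52 k196
  11 (.s k116 k68 3 (.s k244 k180 7 (.s k80 k92 1 (.d k240 k248 k160 1 11)))))), (.s k20 k212 7 (.s
  k16 k24 1 (.s k48 k32 3 (.s k208 k88 9 (.s k144 k80 7 (.d k152 k156 k204 1 13))))))] (.c k51 (.l
  (.s k57 k25 3 (.s k20 k212 7 (.s k16 k24 1 (.s k48 k32 3 (.d k116 k68 k184 3 9)))))) (.c k57 (.q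
  k51 [(.s k116 k68 3 (.s k48 k184 9 (.s k16 k32 3 (.d k20 k24 k212 1 7)))), (.s k20 k212 7 (.s k52
  k196 11 (.s k116 k68 3 (.s k244 k180 7 (.d k4 k36 k164 3 11))))), (.s k34 k17 4 (.s k35 k44 2 (.s
  k32 k33 0 (.s k48 k16 3 (.d k116 k68 k184 3 9))))), (.s k34 k17 4 (.s k20 k212 7 (.s k16 k24 1 (.s
  k35 k44 2 (.d k32 k48 k33 3 0)))))] .n) (.c k212 (.l (.s k208 k88 9 (.s k116 k68 3 (.s k48 k184 9
  (.s k16 k32 3 (.s k144 k80 7 (.d k152 k156 k204 1 13))))))) .n)))) (.c k212 (.l (.s k208 k88 9 (.s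
  k116 k68 3 (.s k48 k184 9 (.s k16 k32 3 (.s k144 k80 7 (.d k152 k156 k204 1 13))))))) .n))))
  .n))))) (.c k41 (.q k22 [(.s k20 k212 7 (.s k88 k208 9 (.s k92 k80 1 (.s k220 k156 7 (.d k16 k24
  k152 1 9))))), (.s k19 k25 2 (.s k20 k212 7 (.s k16 k24 1 (.s k18 k17 0 (.s k26 k30 1 (.d k21 k23
  k31 0 2)))))), (.s k19 k25 2 (.s k88 k208 9 (.s k92 k80 1 (.s k220 k156 7 (.s k86 k153 10 (.s k150
  k214 7 (.d k89 k83 k211 2 10)))))))] (.c k16 (.l (.s k19 k25 2 (.s k212 k20 7 (.s k208 k88 9 (.s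
  k220 k216 1 (.s k86 k153 10 (.s k150 k214 7 (.d k149 k151 k23 0 8)))))))) .n)) (.c k204 (.l (.s
  k20 k212 7 (.s k16 k24 1 (.s k152 k220 9 (.s k208 k88 9 (.d k144 k156 k80 1 7)))))) (.c k220 (.q
  k100 [(.s k116 k68 3 (.s k48 k184 9 (.s k16 k32 3 (.d k20 k24 k212 1 7)))), (.s k88 k208 9 (.s k52
  k196 11 (.s k116 k68 3 (.s k244 k180 7 (.s k80 k92 1 (.d k240 k248 k160 1 11)))))), (.s k20 k212 7
  (.s k16 k24 1 (.s k48 k32 3 (.s k208 k88 9 (.s k144 k80 7 (.d k152 k156 k204 1 13))))))] (.c k22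
  (.q k41 [(.s k116 k68 3 (.s k48 k184 9 (.s k16 k32 3 (.d k20 k24 k212 1 7)))), (.s k88 k208 9 (.s
  k52 k196 11 (.s k116 k68 3 (.s k244 k180 7 (.s k80 k92 1 (.d k240 k248 k160 1 11)))))), (.s k20
  k212 7 (.s k16 k24 1 (.s k48 k32 3 (.s k208 k88 9 (.s k144 k80 7 (.d k152 k156 k204 1 13))))))]
  (.c k38 (.q k54 [(.s k116 k68 3 (.s k48 k184 9 (.s k16 k32 3 (.d k20 k24 k212 1 7)))), (.s k88
  k208 9 (.s k52 k196 11 (.s k116 k68 3 (.s k244 k180 7 (.s k80 k92 1 (.d k240 k248 k160 1 11)))))),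
  (.s k20 k212 7 (.s k16 k24 1 (.s k48 k32 3 (.s k208 k88 9 (.s k144 k80 7 (.d k152 k156 k204 1
  13))))))] (.c k25 (.q k51 [(.s k116 k68 3 (.s k48 k184 9 (.s k16 k32 3 (.d k20 k24 k212 1 7)))),
  (.s k118 k185 10 (.s k52 k196 11 (.s k55 k53 0 (.s k244 k181 8 (.d k116 k68 k180 3 7))))), (.s k20
  k212 7 (.s k16 k24 1 (.s k48 k32 3 (.s k208 k88 9 (.s k144 k80 7 (.d k152 k156 k204 1 13))))))]
  .n) (.c k51 (.l (.s k25 k57 3 (.s k20 k212 7 (.s k16 k24 1 (.s k48 k32 3 (.d k116 k68 k184 3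
  9)))))) (.c k212 (.l (.s k208 k88 9 (.s k116 k68 3 (.s k48 k184 9 (.s k16 k32 3 (.s k144 k80 7 (.d
  k152 k156 k204 1 13))))))) .n)))) (.c k54 (.q k38 [(.s k116 k68 3 (.s k48 k184 9 (.s k16 k32 3 (.d
  k20 k24 k212 1 7)))), (.s k88 k208 9 (.s k52 k196 11 (.s k116 k68 3 (.s k244 k180 7 (.s k80 k92 1
  (.d k240 k248 k160 1 11)))))), (.s k20 k212 7 (.s k16 k24 1 (.s k48 k32 3 (.s k208 k88 9 (.s k144
  k80 7 (.d k152 k156 k204 1 13))))))] (.c k51 (.l (.s k57 k25 3 (.s k20 k212 7 (.s k16 k24 1 (.s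
  k48 k32 3 (.d k116 k68 k184 3 9)))))) (.c k57 (.q k51 [(.s k116 k68 3 (.s k48 k184 9 (.s k16 k32 3
  (.d k20 k24 k212 1 7)))), (.s k20 k212 7 (.s k52 k196 11 (.s k116 k68 3 (.s k244 k180 7 (.d k4 k36
  k164 3 11))))), (.s k34 k17 4 (.s k35 k44 2 (.s k32 k33 0 (.s k48 k16 3 (.d k116 k68 k184 3
  9))))), (.s k34 k17 4 (.s k20 k212 7 (.s k16 k24 1 (.s k35 k44 2 (.d k32 k48 k33 3 0)))))] .n) (.c
  k212 (.l (.s k208 k88 9 (.s k116 k68 3 (.s k48 k184 9 (.s k16 k32 3 (.s k144 k80 7 (.d k152 k156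
  k204 1 13))))))) .n)))) (.c k212 (.l (.s k208 k88 9 (.s k116 k68 3 (.s k48 k184 9 (.s k16 k32 3
  (.s k144 k80 7 (.d k152 k156 k204 1 13))))))) .n)))) (.c k41 (.q k22 [(.s k116 k68 3 (.s k48 k184
  9 (.s k16 k32 3 (.d k20 k24 k212 1 7)))), (.s k88 k208 9 (.s k52 k196 11 (.s k116 k68 3 (.s k244
  k180 7 (.s k80 k92 1 (.d k240 k248 k160 1 11)))))), (.s k19 k25 2 (.s k20 k212 7 (.s k16 k24 1 (.s
  k18 k17 0 (.s k26 k30 1 (.d k21 k23 k31 0 2))))))] (.c k212 (.l (.s k208 k88 9 (.s k116 k68 3 (.s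
  k48 k184 9 (.s k16 k32 3 (.s k144 k80 7 (.d k152 k156 k204 1 13))))))) .n)) (.c k212 (.l (.s k208
  k88 9 (.s k116 k68 3 (.s k48 k184 9 (.s k16 k32 3 (.s k144 k80 7 (.d k152 k156 k204 1 13)))))))
  .n)))) .n))))) (.c k64 (.q k16 [(.s k48 k32 3 (.s k152 k220 9 (.s k116 k184 9 (.d k100 k68 k204 3
  13)))), (.s k152 k220 9 (.s k20 k212 7 (.s k144 k156 1 (.s k208 k80 7 (.d k28 k24 k88 1 9))))),
  (.s k48 k32 3 (.s k20 k212 7 (.s k60 k40 5 (.s k52 k56 1 (.s k100 k196 11 (.d k116 k68 k184 3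
  9))))))] .n) (.c k104 (.q k100 [(.s k68 k116 3 (.s k204 k136 9 (.s k220 k236 3 (.d k152 k16 k48 9
  13)))), (.s k20 k212 7 (.s k52 k196 11 (.s k116 k68 3 (.s k244 k180 7 (.d k4 k36 k164 3 11)))))]
  (.c k40 (.q k232 [(.d k212 k192 k20 5 7), (.s k68 k116 3 (.s k204 k136 9 (.s k152 k48 13 (.d k220
  k236 k16 3 9))))] .n) (.c k68 (.l (.s k20 k212 7 (.s k52 k196 11 (.s k4 k36 3 (.s k244 k164 11 (.s
  k116 k180 7 (.s k48 k184 9 (.d k60 k56 k40 1 5)))))))) (.c k116 (.l (.s k212 k20 7 (.s k196 k52 11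
  (.s k244 k228 3 (.s k4 k164 11 (.s k68 k132 7 (.s k204 k136 9 (.d k192 k200 k232 1 5)))))))) (.c
  k232 (.q k40 [(.d k20 k60 k212 5 7), (.s k68 k116 3 (.s k204 k136 9 (.s k152 k48 13 (.d k220 k236
  k16 3 9))))] .n) .n))))) (.c k124 (.q k16 [(.s k48 k32 3 (.s k152 k220 9 (.s k116 k184 9 (.d k100
  k68 k204 3 13)))), (.s k152 k220 9 (.s k20 k212 7 (.s k144 k156 1 (.s k208 k80 7 (.d k28 k24 k88 1
  9))))), (.s k48 k32 3 (.s k20 k212 7 (.s k60 k40 5 (.s k52 k56 1 (.s k100 k196 11 (.d k116 k68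
  k184 3 9))))))] .n) (.c k188 (.l (.s k212 k20 7 (.s k192 k232 5 (.s k64 k128 7 (.d k104 k124 k60 5
  13))))) (.c k192 (.f k20 k212 7 (.q k100 [(.s k52 k196 11 (.s k116 k68 3 (.s k244 k180 7 (.d k4
  k36 k164 3 11)))), (.s k68 k116 3 (.s k204 k136 9 (.s k152 k48 13 (.d k220 k236 k16 3 9)))), (.s
  k60 k40 5 (.s k52 k196 11 (.s k48 k56 1 (.s k16 k32 3 (.d k152 k204 k220 13 9))))), (.s k60 k40 5
  (.s k116 k68 3 (.s k48 k184 9 (.d k52 k56 k196 1 11))))] (.c k66 (.q k129 [(.s k52 k196 11 (.s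
  k116 k68 3 (.s k244 k180 7 (.d k4 k36 k164 3 11)))), (.s k68 k116 3 (.s k204 k136 9 (.s k152 k48
  13 (.d k220 k236 k16 3 9)))), (.s k60 k40 5 (.s k52 k196 11 (.s k48 k56 1 (.s k16 k32 3 (.d k152
  k204 k220 13 9))))), (.s k60 k40 5 (.s k116 k68 3 (.s k48 k184 9 (.d k52 k56 k196 1 11))))] (.c
  k72 (.q k132 [(.s k196 k52 11 (.d k68 k116 k4 3 7)), (.s k68 k116 3 (.s k204 k136 9 (.s k152 k48
  13 (.d k220 k236 k16 3 9)))), (.s k52 k196 11 (.s k4 k36 3 (.d k164 k244 k180 11 3)))] .n) (.c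
  k132 (.q k72 [(.s k60 k40 5 (.s k124 k188 7 (.s k68 k116 3 (.d k64 k104 k76 5 1)))), (.s k52 k196
  11 (.s k4 k36 3 (.s k244 k164 11 (.d k116 k68 k180 3 7))))] (.c k68 (.l (.s k60 k40 5 (.s k52 k196
  11 (.s k4 k36 3 (.s k244 k164 11 (.s k48 k56 1 (.d k116 k180 k184 7 9))))))) (.c k116 (.l (.s k60
  k40 5 (.s k52 k196 11 (.s k48 k56 1 (.s k16 k32 3 (.d k152 k204 k220 13 9)))))) .n))) .n))) (.c
  k72 (.q k132 [(.s k196 k52 11 (.d k68 k116 k4 3 7)), (.s k68 k116 3 (.s k204 k136 9 (.s k152 k48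
  13 (.d k220 k236 k16 3 9)))), (.s k52 k196 11 (.s k4 k36 3 (.d k164 k244 k180 11 3)))] (.c k66 (.q
  k129 [(.s k196 k52 11 (.d k68 k116 k4 3 7)), (.s k68 k116 3 (.s k204 k136 9 (.s k152 k48 13 (.d
  k220 k236 k16 3 9)))), (.s k52 k196 11 (.s k4 k36 3 (.d k164 k244 k180 11 3)))] .n) (.c k129 (.q
  k66 [(.s k196 k52 11 (.d k68 k116 k4 3 7)), (.s k68 k116 3 (.s k204 k136 9 (.s k152 k48 13 (.d
  k220 k236 k16 3 9)))), (.s k52 k196 11 (.s k4 k36 3 (.d k164 k244 k180 11 3)))] .n) .n))) (.c k129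
  (.q k66 [(.s k52 k196 11 (.s k116 k68 3 (.s k244 k180 7 (.d k4 k36 k164 3 11)))), (.s k68 k116 3
  (.s k204 k136 9 (.s k152 k48 13 (.d k220 k236 k16 3 9)))), (.s k60 k40 5 (.s k52 k196 11 (.s k48
  k56 1 (.s k16 k32 3 (.d k152 k204 k220 13 9))))), (.s k60 k40 5 (.s k116 k68 3 (.s k48 k184 9 (.d
  k52 k56 k196 1 11))))] (.c k72 (.q k132 [(.s k196 k52 11 (.d k68 k116 k4 3 7)), (.s k68 k116 3 (.s
  k204 k136 9 (.s k152 k48 13 (.d k220 k236 k16 3 9)))), (.s k52 k196 11 (.s k4 k36 3 (.d k164 k244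
  k180 11 3)))] .n) (.c k132 (.q k72 [(.s k60 k40 5 (.s k124 k188 7 (.s k68 k116 3 (.d k64 k104 k76
  5 1)))), (.s k52 k196 11 (.s k4 k36 3 (.s k244 k164 11 (.d k116 k68 k180 3 7))))] (.c k68 (.l (.s
  k60 k40 5 (.s k52 k196 11 (.s k4 k36 3 (.s k244 k164 11 (.s k48 k56 1 (.d k116 k180 k184 7
  9))))))) (.c k116 (.l (.s k60 k40 5 (.s k52 k196 11 (.s k48 k56 1 (.s k16 k32 3 (.d k152 k204 k220
  13 9)))))) .n))) .n))) (.c k132 (.q k72 [(.s k60 k40 5 (.s k124 k188 7 (.s k68 k116 3 (.d k64 k104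
  k76 5 1)))), (.s k52 k196 11 (.s k4 k36 3 (.s k244 k164 11 (.d k116 k68 k180 3 7))))] (.c k66 (.q
  k129 [(.s k60 k40 5 (.s k124 k188 7 (.s k68 k116 3 (.d k64 k104 k76 5 1)))), (.s k52 k196 11 (.s
  k4 k36 3 (.s k244 k164 11 (.d k116 k68 k180 3 7))))] (.c k68 (.l (.s k60 k40 5 (.s k52 k196 11 (.s
  k4 k36 3 (.s k244 k164 11 (.s k48 k56 1 (.d k116 k180 k184 7 9))))))) (.c k116 (.l (.s k60 k40 5
  (.s k52 k196 11 (.s k48 k56 1 (.s k16 k32 3 (.d k152 k204 k220 13 9)))))) .n))) (.c k68 (.l (.s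
  k60 k40 5 (.s k52 k196 11 (.s k4 k36 3 (.s k244 k164 11 (.s k48 k56 1 (.d k116 k180 k184 7
  9))))))) (.c k116 (.l (.s k60 k40 5 (.s k52 k196 11 (.s k48 k56 1 (.s k16 k32 3 (.d k152 k204 k220
  13 9)))))) (.c k129 (.q k66 [(.s k60 k40 5 (.s k124 k188 7 (.s k68 k116 3 (.d k64 k104 k76 5
  1)))), (.s k52 k196 11 (.s k4 k36 3 (.s k244 k164 11 (.d k116 k68 k180 3 7))))] (.c k68 (.l (.s
  k60 k40 5 (.s k52 k196 11 (.s k4 k36 3 (.s k244 k164 11 (.s k48 k56 1 (.d k116 k180 k184 7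
  9))))))) (.c k116 (.l (.s k60 k40 5 (.s k52 k196 11 (.s k48 k56 1 (.s k16 k32 3 (.d k152 k204 k220
  13 9)))))) .n))) .n))))) .n)))))) (.c k212 (.q k100 [(.s k68 k116 3 (.s k204 k136 9 (.s k220 k236
  3 (.d k152 k16 k48 9 13)))), (.s k52 k196 11 (.s k116 k68 3 (.s k244 k180 7 (.s k4 k164 11 (.s k20
  k36 3 (.s k60 k40 5 (.d k48 k56 k184 1 9)))))))] (.c k48 (.l (.s k196 k52 11 (.s k68 k116 3 (.s
  k204 k136 9 (.s k192 k200 1 (.s k64 k128 7 (.d k104 k60 k124 13 5))))))) (.c k68 (.q k60 [(.s k124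
  k188 7 (.d k104 k64 k192 5 13)), (.s k52 k196 11 (.s k48 k56 1 (.s k16 k32 3 (.d k152 k220 k204 9
  13))))] .n) (.c k116 (.q k60 [(.s k124 k188 7 (.d k104 k64 k192 5 13)), (.s k52 k196 11 (.s k48
  k56 1 (.s k16 k32 3 (.d k152 k220 k204 9 13))))] .n) (.c k184 (.l (.s k68 k116 3 (.s k204 k136 9
  (.s k152 k48 13 (.d k220 k236 k16 3 9))))) .n))))) (.c k232 (.l (.s k20 k212 7 (.s k60 k40 5 (.s
  k104 k192 13 (.d k124 k64 k188 5 7))))) .n))))))))))) (.c k9 (.q k6 [(.s k20 k212 7 (.s k60 k40 5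
  (.s k124 k188 7 (.d k104 k64 k192 5 13))))] (.c k20 (.q k100 [(.s k68 k116 3 (.s k204 k136 9 (.s
  k220 k236 3 (.d k152 k16 k48 9 13)))), (.s k196 k52 11 (.s k68 k116 3 (.s k4 k132 7 (.s k7 k5 0
  (.s k70 k133 8 (.s k134 k198 7 (.d k69 k71 k199 0 8)))))))] (.c k68 (.q k60 [(.s k124 k188 7 (.d
  k104 k64 k192 5 13)), (.s k52 k196 11 (.s k48 k56 1 (.s k16 k32 3 (.d k152 k220 k204 9 13))))] .n)
  (.c k116 (.q k60 [(.s k124 k188 7 (.d k104 k64 k192 5 13)), (.s k52 k196 11 (.s k48 k56 1 (.s k16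
  k32 3 (.d k152 k220 k204 9 13))))] .n) .n))) (.c k40 (.l (.s k212 k20 7 (.s k192 k232 5 (.s k104
  k60 13 (.d k64 k124 k128 5 7))))) (.c k60 (.q k28 [(.s k20 k212 7 (.s k88 k208 9 (.s k92 k80 1 (.s
  k220 k156 7 (.d k16 k24 k152 1 9))))), (.s k20 k212 7 (.s k16 k24 1 (.s k48 k32 3 (.s k116 k184 9
  (.s k100 k68 3 (.d k152 k220 k204 9 13)))))), (.s k212 k20 7 (.s k208 k88 9 (.s k192 k232 5 (.s
  k240 k224 3 (.s k216 k220 1 (.s k228 k204 5 (.d k244 k248 k196 1 3))))))), (.s k88 k208 9 (.s k92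
  k80 1 (.s k220 k156 7 (.s k204 k236 3 (.s k68 k136 9 (.s k100 k116 3 (.d k152 k16 k48 9 13)))))))]
  (.c k22 (.q k41 [(.s k20 k212 7 (.s k88 k208 9 (.s k92 k80 1 (.s k220 k156 7 (.d k16 k24 k152 1
  9))))), (.s k20 k212 7 (.s k16 k24 1 (.s k48 k32 3 (.s k116 k184 9 (.s k100 k68 3 (.d k152 k220
  k204 9 13)))))), (.s k212 k20 7 (.s k208 k88 9 (.s k192 k232 5 (.s k240 k224 3 (.s k216 k220 1 (.s
  k228 k204 5 (.d k244 k248 k196 1 3))))))), (.s k88 k208 9 (.s k92 k80 1 (.s k220 k156 7 (.s k204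
  k236 3 (.s k68 k136 9 (.s k100 k116 3 (.d k152 k16 k48 9 13)))))))] (.c k204 (.l (.s k20 k212 7
  (.s k16 k24 1 (.s k152 k220 9 (.s k208 k88 9 (.d k144 k156 k80 1 7)))))) (.c k220 (.f k20 k212 7
  (.l (.s k16 k24 1 (.s k48 k32 3 (.s k208 k88 9 (.s k144 k80 7 (.s k116 k184 9 (.s k100 k68 3 (.d
  k152 k156 k204 1 13))))))))) .n))) (.c k41 (.q k22 [(.s k20 k212 7 (.s k88 k208 9 (.s k92 k80 1
  (.s k220 k156 7 (.d k16 k24 k152 1 9))))), (.s k38 k54 3 (.s k20 k212 7 (.s k21 k23 0 (.s k4 k55 4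
  (.s k7 k5 0 (.d k52 k36 k37 3 4)))))), (.s k88 k208 9 (.s k92 k80 1 (.s k220 k156 7 (.s k204 k236
  3 (.s k68 k136 9 (.s k100 k116 3 (.d k152 k16 k48 9 13)))))))] (.c k25 (.q k57 [(.s k20 k212 7 (.s
  k88 k208 9 (.s k92 k80 1 (.s k220 k156 7 (.d k16 k24 k152 1 9))))), (.s k38 k54 3 (.s k20 k212 7
  (.s k21 k23 0 (.s k4 k55 4 (.s k7 k5 0 (.d k52 k36 k37 3 4)))))), (.s k88 k208 9 (.s k92 k80 1 (.s
  k220 k156 7 (.s k204 k236 3 (.s k68 k136 9 (.s k100 k116 3 (.d k152 k16 k48 9 13)))))))] (.c k38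
  (.q k51 [(.s k20 k212 7 (.s k88 k208 9 (.s k92 k80 1 (.s k220 k156 7 (.d k16 k24 k152 1 9))))),
  (.s k17 k34 4 (.s k212 k20 7 (.s k192 k232 5 (.s k128 k64 7 (.s k145 k98 12 (.s k81 k209 7 (.d
  k162 k179 k243 4 12))))))), (.s k88 k208 9 (.s k92 k80 1 (.s k220 k156 7 (.s k204 k236 3 (.s k68
  k136 9 (.s k100 k116 3 (.d k152 k16 k48 9 13)))))))] (.c k35 (.q k44 [(.s k20 k212 7 (.s k88 k208
  9 (.s k92 k80 1 (.s k220 k156 7 (.d k16 k24 k152 1 9))))), (.s k212 k20 7 (.s k208 k88 9 (.s k192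
  k232 5 (.s k64 k128 7 (.s k104 k124 5 (.d k224 k240 k164 3 9)))))), (.s k88 k208 9 (.s k92 k80 1
  (.s k220 k156 7 (.s k204 k236 3 (.s k68 k136 9 (.s k100 k116 3 (.d k152 k16 k48 9 13))))))), (.s
  k17 k34 4 (.s k20 k212 7 (.s k16 k24 1 (.s k18 k19 0 (.s k26 k30 1 (.d k21 k23 k31 0 2))))))] .n)
  (.c k44 (.q k35 [(.s k34 k17 4 (.s k20 k212 7 (.s k16 k24 1 (.d k32 k48 k33 3 0)))), (.s k212 k20
  7 (.s k208 k88 9 (.s k192 k232 5 (.s k98 k145 12 (.d k224 k240 k161 3 8))))), (.s k34 k17 4 (.s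
  k88 k208 9 (.s k32 k33 0 (.s k92 k80 1 (.s k220 k156 7 (.d k16 k48 k152 3 9))))))] .n) .n))) (.c
  k51 (.l (.s k38 k54 3 (.s k20 k212 7 (.s k16 k24 1 (.s k152 k220 9 (.s k208 k88 9 (.d k144 k156
  k80 1 7))))))) .n))) (.c k57 (.l (.s k25 k19 2 (.s k20 k212 7 (.s k16 k24 1 (.s k152 k220 9 (.s
  k208 k88 9 (.d k144 k156 k80 1 7))))))) .n))) (.c k204 (.l (.s k20 k212 7 (.s k16 k24 1 (.s k152
  k220 9 (.s k208 k88 9 (.d k144 k156 k80 1 7)))))) (.c k220 (.q k22 [(.s k38 k54 3 (.s k20 k212 7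
  (.s k21 k23 0 (.s k4 k55 4 (.s k7 k5 0 (.d k52 k36 k37 3 4)))))), (.s k19 k25 2 (.s k20 k212 7 (.s
  k16 k24 1 (.s k18 k17 0 (.s k26 k30 1 (.d k21 k23 k31 0 2)))))), (.s k25 k19 2 (.s k20 k212 7 (.s
  k21 k23 0 (.s k29 k17 1 (.s k31 k30 0 (.d k16 k24 k26 1 2))))))] (.c k20 (.q k100 [(.s k52 k196 11
  (.s k7 k37 4 (.s k116 k68 3 (.s k244 k180 7 (.d k4 k5 k164 0 11))))), (.s k88 k208 9 (.s k68 k116
  3 (.s k76 k112 5 (.s k64 k72 1 (.s k124 k104 5 (.d k92 k80 k108 1 3)))))), (.s k88 k208 9 (.s k52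
  k196 11 (.s k7 k37 4 (.s k4 k5 0 (.s k244 k164 11 (.s k80 k92 1 (.d k240 k160 k248 11 1)))))))]
  .n) (.c k21 (.q k100 [(.s k116 k68 3 (.s k48 k184 9 (.s k16 k32 3 (.d k20 k24 k212 1 7)))), (.s
  k52 k196 11 (.s k7 k37 4 (.s k116 k68 3 (.s k244 k180 7 (.d k4 k5 k164 0 11))))), (.s k20 k212 7
  (.s k52 k196 11 (.s k4 k36 3 (.d k7 k5 k37 0 4))))] .n) (.c k23 (.f k20 k212 7 (.l (.s k16 k24 1
  (.s k48 k32 3 (.s k208 k88 9 (.s k144 k80 7 (.s k116 k184 9 (.s k100 k68 3 (.d k152 k156 k204 1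
  13))))))))) (.c k51 (.l (.s k20 k212 7 (.s k16 k24 1 (.s k21 k23 0 (.s k26 k31 2 (.s k18 k30 1 (.d
  k19 k17 k25 0 2))))))) (.c k208 (.q k100 [(.s k116 k68 3 (.s k48 k184 9 (.s k16 k32 3 (.d k20 k212
  k24 7 1)))), (.s k52 k196 11 (.s k7 k37 4 (.s k4 k5 0 (.d k20 k212 k36 7 3))))] (.c k20 (.l (.s
  k52 k196 11 (.s k7 k37 4 (.s k4 k5 0 (.s k244 k164 11 (.d k116 k68 k180 3 7)))))) (.c k212 (.q
  k216 [(.s k116 k68 3 (.s k48 k184 9 (.s k16 k32 3 (.s k24 k20 1 (.d k152 k88 k204 7 13))))), (.s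
  k52 k196 11 (.s k7 k37 4 (.s k4 k5 0 (.s k36 k20 3 (.d k164 k228 k244 7 11)))))] (.c k20 (.l (.s
  k52 k196 11 (.s k7 k37 4 (.s k4 k5 0 (.s k244 k164 11 (.d k116 k68 k180 3 7)))))) .n)) (.c k216
  (.l (.s k212 k20 7 (.s k196 k52 11 (.s k68 k116 3 (.s k204 k136 9 (.d k192 k200 k232 1 5))))))
  .n)))) (.c k212 (.q k100 [(.s k52 k196 11 (.s k7 k37 4 (.s k4 k5 0 (.s k36 k20 3 (.d k164 k228
  k244 7 11))))), (.s k208 k88 9 (.s k116 k68 3 (.s k48 k184 9 (.s k16 k32 3 (.s k144 k80 7 (.d k152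
  k156 k204 1 13))))))] (.c k164 (.l (.s k38 k54 3 (.s k52 k196 11 (.s k7 k37 4 (.s k4 k5 0 (.s k20
  k36 3 (.d k21 k23 k55 0 4))))))) (.c k208 (.q k216 [(.s k116 k68 3 (.s k48 k184 9 (.s k16 k32 3
  (.s k24 k20 1 (.d k152 k88 k204 7 13))))), (.s k52 k196 11 (.s k7 k37 4 (.s k4 k5 0 (.s k36 k20 3
  (.d k164 k228 k244 7 11)))))] (.c k20 (.l (.s k52 k196 11 (.s k7 k37 4 (.s k4 k5 0 (.s k244 k164
  11 (.d k116 k68 k180 3 7)))))) .n)) (.c k216 (.l (.s k208 k88 9 (.s k52 k196 11 (.s k7 k37 4 (.s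
  k4 k5 0 (.s k36 k20 3 (.d k164 k228 k244 7 11))))))) .n)))) (.c k216 (.l (.s k38 k54 3 (.s k20
  k212 7 (.s k208 k88 9 (.s k21 k23 0 (.s k4 k55 4 (.s k7 k5 0 (.d k52 k36 k37 3 4))))))))
  .n)))))))) .n))))) (.c k64 (.q k16 [(.s k48 k32 3 (.s k152 k220 9 (.s k116 k184 9 (.d k100 k68
  k204 3 13)))), (.s k152 k220 9 (.s k20 k212 7 (.s k144 k156 1 (.s k208 k80 7 (.d k28 k24 k88 1
  9))))), (.s k48 k32 3 (.s k20 k212 7 (.s k60 k40 5 (.s k52 k56 1 (.s k100 k196 11 (.d k116 k68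
  k184 3 9))))))] .n) (.c k104 (.f k20 k212 7 (.q k100 [(.s k52 k196 11 (.s k116 k68 3 (.s k244 k180
  7 (.d k4 k36 k164 3 11)))), (.s k68 k116 3 (.s k204 k136 9 (.s k152 k48 13 (.d k220 k236 k16 3
  9)))), (.s k52 k196 11 (.s k4 k36 3 (.s k7 k5 0 (.s k22 k37 4 (.s k38 k54 3 (.d k21 k23 k55 0
  4))))))] (.c k36 (.l (.s k52 k196 11 (.s k116 k68 3 (.s k48 k184 9 (.d k60 k56 k40 1 5))))) (.c
  k40 (.q k232 [(.s k68 k116 3 (.s k204 k136 9 (.s k220 k236 3 (.d k152 k16 k48 9 13)))), (.s k52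
  k196 11 (.s k4 k36 3 (.s k7 k5 0 (.s k22 k37 4 (.s k38 k54 3 (.d k21 k23 k55 0 4))))))] (.c k48
  (.l (.s k52 k196 11 (.s k116 k68 3 (.s k244 k180 7 (.d k4 k36 k164 3 11))))) .n)) (.c k232 (.l (.s
  k40 k60 5 (.s k52 k196 11 (.s k4 k36 3 (.s k244 k164 11 (.d k116 k68 k180 3 7)))))) .n))))) (.c
  k124 (.q k16 [(.s k48 k32 3 (.s k152 k220 9 (.s k116 k184 9 (.d k100 k68 k204 3 13)))), (.s k152
  k220 9 (.s k20 k212 7 (.s k144 k156 1 (.s k208 k80 7 (.d k28 k24 k88 1 9))))), (.s k48 k32 3 (.s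
  k20 k212 7 (.s k60 k40 5 (.s k52 k56 1 (.s k100 k196 11 (.d k116 k68 k184 3 9))))))] .n) (.c k188
  (.l (.s k212 k20 7 (.s k192 k232 5 (.s k64 k128 7 (.d k104 k124 k60 5 13))))) (.c k192 (.f k212
  k20 7 (.q k100 [(.s k196 k52 11 (.s k68 k116 3 (.s k244 k228 3 (.d k4 k132 k164 7 11)))), (.s k68
  k116 3 (.s k204 k136 9 (.s k220 k236 3 (.d k152 k16 k48 9 13)))), (.s k196 k52 11 (.s k244 k228 3
  (.s k4 k164 11 (.s k7 k5 0 (.s k86 k165 12 (.s k166 k246 11 (.d k85 k87 k247 0 12)))))))] (.c k66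
  (.q k129 [(.s k196 k52 11 (.s k68 k116 3 (.s k244 k228 3 (.d k4 k132 k164 7 11)))), (.s k68 k116 3
  (.s k204 k136 9 (.s k220 k236 3 (.d k152 k16 k48 9 13)))), (.s k196 k52 11 (.s k244 k228 3 (.s k4
  k164 11 (.s k7 k5 0 (.s k86 k165 12 (.s k166 k246 11 (.d k85 k87 k247 0 12)))))))] (.c k72 (.q
  k132 [(.s k68 k116 3 (.d k196 k4 k52 7 11)), (.s k68 k116 3 (.s k204 k136 9 (.s k152 k48 13 (.d
  k220 k236 k16 3 9))))] (.c k68 (.l (.s k196 k52 11 (.s k164 k180 3 (.d k228 k244 k36 3 7)))) (.c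
  k116 (.l (.s k196 k52 11 (.s k4 k68 7 (.d k164 k180 k244 3 11)))) .n))) (.c k132 (.q k72 [(.s k68
  k116 3 (.s k204 k136 9 (.s k220 k236 3 (.d k152 k16 k48 9 13)))), (.s k196 k52 11 (.s k244 k228 3
  (.s k4 k164 11 (.s k7 k5 0 (.s k86 k165 12 (.s k166 k246 11 (.d k85 k87 k247 0 12)))))))] .n)
  .n))) (.c k72 (.q k132 [(.s k68 k116 3 (.d k196 k4 k52 7 11)), (.s k68 k116 3 (.s k204 k136 9 (.s
  k152 k48 13 (.d k220 k236 k16 3 9))))] (.c k66 (.q k129 [(.s k68 k116 3 (.d k196 k4 k52 7 11)),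
  (.s k68 k116 3 (.s k204 k136 9 (.s k152 k48 13 (.d k220 k236 k16 3 9))))] (.c k68 (.l (.s k196 k52
  11 (.s k164 k180 3 (.d k228 k244 k36 3 7)))) (.c k116 (.l (.s k196 k52 11 (.s k4 k68 7 (.d k164
  k180 k244 3 11)))) .n))) (.c k68 (.l (.s k196 k52 11 (.s k164 k180 3 (.d k228 k244 k36 3 7)))) (.c
  k116 (.l (.s k196 k52 11 (.s k4 k68 7 (.d k164 k180 k244 3 11)))) (.c k129 (.q k66 [(.s k68 k116 3
  (.d k196 k4 k52 7 11)), (.s k68 k116 3 (.s k204 k136 9 (.s k152 k48 13 (.d k220 k236 k16 3 9))))]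
  (.c k68 (.l (.s k196 k52 11 (.s k164 k180 3 (.d k228 k244 k36 3 7)))) (.c k116 (.l (.s k196 k52 11
  (.s k4 k68 7 (.d k164 k180 k244 3 11)))) .n))) .n))))) (.c k129 (.q k66 [(.s k196 k52 11 (.s k68
  k116 3 (.s k244 k228 3 (.d k4 k132 k164 7 11)))), (.s k68 k116 3 (.s k204 k136 9 (.s k220 k236 3
  (.d k152 k16 k48 9 13)))), (.s k196 k52 11 (.s k244 k228 3 (.s k4 k164 11 (.s k7 k5 0 (.s k86 k165
  12 (.s k166 k246 11 (.d k85 k87 k247 0 12)))))))] (.c k72 (.q k132 [(.s k68 k116 3 (.d k196 k4 k52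
  7 11)), (.s k68 k116 3 (.s k204 k136 9 (.s k152 k48 13 (.d k220 k236 k16 3 9))))] (.c k68 (.l (.s
  k196 k52 11 (.s k164 k180 3 (.d k228 k244 k36 3 7)))) (.c k116 (.l (.s k196 k52 11 (.s k4 k68 7
  (.d k164 k180 k244 3 11)))) .n))) (.c k132 (.q k72 [(.s k68 k116 3 (.s k204 k136 9 (.s k220 k236 3
  (.d k152 k16 k48 9 13)))), (.s k196 k52 11 (.s k244 k228 3 (.s k4 k164 11 (.s k7 k5 0 (.s k86 k165
  12 (.s k166 k246 11 (.d k85 k87 k247 0 12)))))))] .n) .n))) (.c k132 (.q k72 [(.s k68 k116 3 (.s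
  k204 k136 9 (.s k220 k236 3 (.d k152 k16 k48 9 13)))), (.s k196 k52 11 (.s k244 k228 3 (.s k4 k164
  11 (.s k7 k5 0 (.s k86 k165 12 (.s k166 k246 11 (.d k85 k87 k247 0 12)))))))] (.c k66 (.q k129
  [(.s k68 k116 3 (.s k204 k136 9 (.s k220 k236 3 (.d k152 k16 k48 9 13)))), (.s k196 k52 11 (.s
  k244 k228 3 (.s k4 k164 11 (.s k7 k5 0 (.s k86 k165 12 (.s k166 k246 11 (.d k85 k87 k247 0
  12)))))))] .n) (.c k129 (.q k66 [(.s k68 k116 3 (.s k204 k136 9 (.s k220 k236 3 (.d k152 k16 k48 9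
  13)))), (.s k196 k52 11 (.s k244 k228 3 (.s k4 k164 11 (.s k7 k5 0 (.s k86 k165 12 (.s k166 k246
  11 (.d k85 k87 k247 0 12)))))))] .n) .n))) .n)))))) (.c k212 (.q k100 [(.s k68 k116 3 (.s k204
  k136 9 (.s k220 k236 3 (.d k152 k16 k48 9 13)))), (.s k52 k196 11 (.s k116 k68 3 (.s k244 k180 7
  (.s k4 k164 11 (.s k20 k36 3 (.s k60 k40 5 (.d k48 k56 k184 1 9)))))))] (.c k48 (.l (.s k196 k52
  11 (.s k68 k116 3 (.s k204 k136 9 (.s k192 k200 1 (.s k64 k128 7 (.d k104 k60 k124 13 5))))))) (.c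
  k68 (.q k60 [(.s k124 k188 7 (.d k104 k64 k192 5 13)), (.s k52 k196 11 (.s k48 k56 1 (.s k16 k32 3
  (.d k152 k220 k204 9 13))))] .n) (.c k116 (.q k60 [(.s k124 k188 7 (.d k104 k64 k192 5 13)), (.s
  k52 k196 11 (.s k48 k56 1 (.s k16 k32 3 (.d k152 k220 k204 9 13))))] .n) (.c k184 (.l (.s k68 k116
  3 (.s k204 k136 9 (.s k152 k48 13 (.d k220 k236 k16 3 9))))) .n))))) (.c k232 (.l (.s k20 k212 7
  (.s k60 k40 5 (.s k104 k192 13 (.d k124 k64 k188 5 7))))) .n))))))))))) (.c k20 (.q k100 [(.s k68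
  k116 3 (.s k204 k136 9 (.s k220 k236 3 (.d k152 k16 k48 9 13)))), (.s k196 k52 11 (.s k68 k116 3
  (.s k4 k132 7 (.s k244 k164 11 (.s k212 k228 3 (.s k192 k232 5 (.d k204 k200 k136 1 9))))))), (.s
  k52 k196 11 (.s k116 k68 3 (.s k48 k184 9 (.s k60 k56 1 (.s k124 k188 7 (.d k104 k64 k192 5
  13))))))] (.c k6 (.q k9 [(.s k68 k116 3 (.s k204 k136 9 (.s k220 k236 3 (.d k152 k16 k48 9 13)))),
  (.s k196 k52 11 (.s k68 k116 3 (.s k4 k132 7 (.s k244 k164 11 (.s k212 k228 3 (.s k192 k232 5 (.d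
  k204 k200 k136 1 9))))))), (.s k52 k196 11 (.s k116 k68 3 (.s k48 k184 9 (.s k60 k56 1 (.s k124
  k188 7 (.d k104 k64 k192 5 13))))))] (.c k68 (.q k60 [(.s k124 k188 7 (.d k104 k64 k192 5 13)),
  (.s k52 k196 11 (.s k48 k56 1 (.s k16 k32 3 (.d k152 k220 k204 9 13))))] .n) (.c k116 (.q k60 [(.s
  k124 k188 7 (.d k104 k64 k192 5 13)), (.s k52 k196 11 (.s k48 k56 1 (.s k16 k32 3 (.d k152 k220
  k204 9 13))))] .n) (.c k136 (.l (.s k116 k68 3 (.s k48 k184 9 (.s k152 k204 13 (.d k16 k32 k220 3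
  9))))) .n)))) (.c k9 (.q k6 [(.s k68 k116 3 (.s k204 k136 9 (.s k220 k236 3 (.d k152 k16 k48 9
  13)))), (.s k196 k52 11 (.s k68 k116 3 (.s k4 k132 7 (.s k7 k5 0 (.s k70 k133 8 (.s k134 k198 7
  (.d k69 k71 k199 0 8)))))))] (.c k68 (.q k60 [(.s k124 k188 7 (.d k104 k64 k192 5 13)), (.s k52
  k196 11 (.s k48 k56 1 (.s k16 k32 3 (.d k152 k220 k204 9 13))))] .n) (.c k116 (.q k60 [(.s k124
  k188 7 (.d k104 k64 k192 5 13)), (.s k52 k196 11 (.s k48 k56 1 (.s k16 k32 3 (.d k152 k220 k204 9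
  13))))] .n) .n))) (.c k68 (.q k60 [(.s k124 k188 7 (.d k104 k64 k192 5 13)), (.s k52 k196 11 (.s
  k48 k56 1 (.s k16 k32 3 (.d k152 k220 k204 9 13))))] (.c k6 (.q k9 [(.s k124 k188 7 (.d k104 k64
  k192 5 13)), (.s k52 k196 11 (.s k48 k56 1 (.s k16 k32 3 (.d k152 k220 k204 9 13))))] .n) (.c k9
  (.q k6 [(.s k124 k188 7 (.d k104 k64 k192 5 13)), (.s k52 k196 11 (.s k48 k56 1 (.s k16 k32 3 (.d
  k152 k220 k204 9 13))))] .n) .n))) (.c k116 (.q k60 [(.s k124 k188 7 (.d k104 k64 k192 5 13)), (.s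
  k52 k196 11 (.s k48 k56 1 (.s k16 k32 3 (.d k152 k220 k204 9 13))))] (.c k6 (.q k9 [(.s k124 k188
  7 (.d k104 k64 k192 5 13)), (.s k52 k196 11 (.s k48 k56 1 (.s k16 k32 3 (.d k152 k220 k204 9
  13))))] .n) (.c k9 (.q k6 [(.s k124 k188 7 (.d k104 k64 k192 5 13)), (.s k52 k196 11 (.s k48 k56 1
  (.s k16 k32 3 (.d k152 k220 k204 9 13))))] .n) .n))) (.c k136 (.l (.s k116 k68 3 (.s k48 k184 9
  (.s k152 k204 13 (.d k16 k32 k220 3 9))))) .n)))))) (.c k40 (.l (.s k212 k20 7 (.s k192 k232 5 (.s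
  k104 k60 13 (.d k64 k124 k128 5 7))))) (.c k60 (.q k28 [(.s k20 k212 7 (.s k88 k208 9 (.s k92 k80
  1 (.s k220 k156 7 (.d k16 k24 k152 1 9))))), (.s k20 k212 7 (.s k16 k24 1 (.s k48 k32 3 (.s k116
  k184 9 (.s k100 k68 3 (.d k152 k220 k204 9 13)))))), (.s k212 k20 7 (.s k208 k88 9 (.s k192 k232 5
  (.s k240 k224 3 (.s k216 k220 1 (.s k228 k204 5 (.d k244 k248 k196 1 3))))))), (.s k88 k208 9 (.s
  k92 k80 1 (.s k220 k156 7 (.s k204 k236 3 (.s k68 k136 9 (.s k100 k116 3 (.d k152 k16 k48 9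
  13)))))))] (.c k6 (.q k9 [(.s k20 k212 7 (.s k88 k208 9 (.s k92 k80 1 (.s k220 k156 7 (.d k16 k24
  k152 1 9))))), (.s k20 k212 7 (.s k16 k24 1 (.s k48 k32 3 (.s k116 k184 9 (.s k100 k68 3 (.d k152
  k220 k204 9 13)))))), (.s k212 k20 7 (.s k208 k88 9 (.s k192 k232 5 (.s k240 k224 3 (.s k216 k220
  1 (.s k228 k204 5 (.d k244 k248 k196 1 3))))))), (.s k88 k208 9 (.s k92 k80 1 (.s k220 k156 7 (.s
  k204 k236 3 (.s k68 k136 9 (.s k100 k116 3 (.d k152 k16 k48 9 13)))))))] (.c k22 (.q k41 [(.s k20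
  k212 7 (.s k88 k208 9 (.s k92 k80 1 (.s k220 k156 7 (.d k16 k24 k152 1 9))))), (.s k20 k212 7 (.s
  k16 k24 1 (.s k48 k32 3 (.s k116 k184 9 (.s k100 k68 3 (.d k152 k220 k204 9 13)))))), (.s k212 k20
  7 (.s k208 k88 9 (.s k192 k232 5 (.s k240 k224 3 (.s k216 k220 1 (.s k228 k204 5 (.d k244 k248
  k196 1 3))))))), (.s k88 k208 9 (.s k92 k80 1 (.s k220 k156 7 (.s k204 k236 3 (.s k68 k136 9 (.s
  k100 k116 3 (.d k152 k16 k48 9 13)))))))] (.c k38 (.q k54 [(.s k20 k212 7 (.s k88 k208 9 (.s k92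
  k80 1 (.s k220 k156 7 (.d k16 k24 k152 1 9))))), (.s k20 k212 7 (.s k16 k24 1 (.s k48 k32 3 (.s
  k116 k184 9 (.s k100 k68 3 (.d k152 k220 k204 9 13)))))), (.s k212 k20 7 (.s k208 k88 9 (.s k192
  k232 5 (.s k240 k224 3 (.s k216 k220 1 (.s k228 k204 5 (.d k244 k248 k196 1 3))))))), (.s k88 k208
  9 (.s k92 k80 1 (.s k220 k156 7 (.s k204 k236 3 (.s k68 k136 9 (.s k100 k116 3 (.d k152 k16 k48 9
  13)))))))] (.c k25 (.q k51 [(.s k20 k212 7 (.s k88 k208 9 (.s k92 k80 1 (.s k220 k156 7 (.d k16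
  k24 k152 1 9))))), (.s k17 k34 4 (.s k212 k20 7 (.s k192 k232 5 (.s k128 k64 7 (.s k145 k98 12 (.s
  k81 k209 7 (.d k162 k179 k243 4 12))))))), (.s k88 k208 9 (.s k92 k80 1 (.s k220 k156 7 (.s k204
  k236 3 (.s k68 k136 9 (.s k100 k116 3 (.d k152 k16 k48 9 13)))))))] .n) (.c k51 (.l (.s k25 k57 3
  (.s k20 k212 7 (.s k16 k24 1 (.s k152 k220 9 (.s k208 k88 9 (.d k144 k156 k80 1 7))))))) (.c k204
  (.l (.s k20 k212 7 (.s k16 k24 1 (.s k152 k220 9 (.s k208 k88 9 (.d k144 k156 k80 1 7)))))) (.c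
  k220 (.q k51 [(.s k57 k25 3 (.s k185 k118 10 (.s k249 k121 7 (.s k169 k89 11 (.s k105 k233 7 (.d
  k153 k137 k201 3 11)))))), (.s k17 k34 4 (.s k25 k57 3 (.s k21 k29 1 (.s k1 k61 5 (.s k13 k5 1 (.d
  k49 k33 k37 3 5)))))), (.s k17 k34 4 (.s k212 k20 7 (.s k192 k232 5 (.s k128 k64 7 (.s k145 k98 12
  (.s k81 k209 7 (.d k162 k179 k243 4 12)))))))] .n) .n))))) (.c k54 (.q k38 [(.s k20 k212 7 (.s k88
  k208 9 (.s k92 k80 1 (.s k220 k156 7 (.d k16 k24 k152 1 9))))), (.s k212 k20 7 (.s k208 k88 9 (.s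
  k44 k35 2 (.s k192 k232 5 (.s k64 k128 7 (.s k104 k124 5 (.d k224 k240 k164 3 9))))))), (.s k88
  k208 9 (.s k92 k80 1 (.s k220 k156 7 (.s k204 k236 3 (.s k68 k136 9 (.s k100 k116 3 (.d k152 k16
  k48 9 13))))))), (.s k20 k212 7 (.s k16 k24 1 (.s k48 k32 3 (.s k116 k184 9 (.s k100 k68 3 (.d
  k152 k220 k204 9 13))))))] (.c k51 (.l (.s k57 k25 3 (.s k20 k212 7 (.s k16 k24 1 (.s k152 k220 9
  (.s k208 k88 9 (.d k144 k156 k80 1 7))))))) (.c k57 (.q k51 [(.s k34 k17 4 (.s k20 k212 7 (.s k16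
  k24 1 (.s k35 k44 2 (.d k32 k48 k33 3 0))))), (.s k212 k20 7 (.s k208 k88 9 (.s k220 k216 1 (.s
  k152 k16 9 (.d k156 k144 k92 1 7))))), (.s k34 k17 4 (.s k42 k46 1 (.s k35 k44 2 (.s k32 k33 0 (.s
  k47 k37 2 (.d k43 k40 k39 0 1))))))] .n) .n))) (.c k204 (.l (.s k20 k212 7 (.s k16 k24 1 (.s k152
  k220 9 (.s k208 k88 9 (.d k144 k156 k80 1 7)))))) (.c k220 (.q k100 [(.s k116 k68 3 (.s k48 k184 9
  (.s k16 k32 3 (.d k20 k24 k212 1 7)))), (.s k88 k208 9 (.s k52 k196 11 (.s k116 k68 3 (.s k244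
  k180 7 (.s k80 k92 1 (.d k240 k248 k160 1 11)))))), (.s k20 k212 7 (.s k16 k24 1 (.s k48 k32 3 (.s
  k208 k88 9 (.s k144 k80 7 (.d k152 k156 k204 1 13))))))] (.c k38 (.q k54 [(.s k116 k68 3 (.s k48
  k184 9 (.s k16 k32 3 (.d k20 k24 k212 1 7)))), (.s k88 k208 9 (.s k52 k196 11 (.s k116 k68 3 (.s
  k244 k180 7 (.s k80 k92 1 (.d k240 k248 k160 1 11)))))), (.s k20 k212 7 (.s k16 k24 1 (.s k48 k32
  3 (.s k208 k88 9 (.s k144 k80 7 (.d k152 k156 k204 1 13))))))] (.c k25 (.q k51 [(.s k116 k68 3 (.s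
  k48 k184 9 (.s k16 k32 3 (.d k20 k24 k212 1 7)))), (.s k118 k185 10 (.s k52 k196 11 (.s k55 k53 0
  (.s k244 k181 8 (.d k116 k68 k180 3 7))))), (.s k20 k212 7 (.s k16 k24 1 (.s k48 k32 3 (.s k208
  k88 9 (.s k144 k80 7 (.d k152 k156 k204 1 13))))))] .n) (.c k51 (.l (.s k25 k57 3 (.s k20 k212 7
  (.s k16 k24 1 (.s k48 k32 3 (.d k116 k68 k184 3 9)))))) (.c k212 (.l (.s k208 k88 9 (.s k116 k68 3
  (.s k48 k184 9 (.s k16 k32 3 (.s k144 k80 7 (.d k152 k156 k204 1 13))))))) .n)))) (.c k54 (.q k38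
  [(.s k116 k68 3 (.s k48 k184 9 (.s k16 k32 3 (.d k20 k24 k212 1 7)))), (.s k88 k208 9 (.s k52 k196
  11 (.s k116 k68 3 (.s k244 k180 7 (.s k80 k92 1 (.d k240 k248 k160 1 11)))))), (.s k20 k212 7 (.s
  k16 k24 1 (.s k48 k32 3 (.s k208 k88 9 (.s k144 k80 7 (.d k152 k156 k204 1 13))))))] (.c k51 (.l
  (.s k57 k25 3 (.s k20 k212 7 (.s k16 k24 1 (.s k48 k32 3 (.d k116 k68 k184 3 9)))))) (.c k57 (.q
  k51 [(.s k116 k68 3 (.s k48 k184 9 (.s k16 k32 3 (.d k20 k24 k212 1 7)))), (.s k20 k212 7 (.s k52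
  k196 11 (.s k116 k68 3 (.s k244 k180 7 (.d k4 k36 k164 3 11))))), (.s k34 k17 4 (.s k35 k44 2 (.s
  k32 k33 0 (.s k48 k16 3 (.d k116 k68 k184 3 9))))), (.s k34 k17 4 (.s k20 k212 7 (.s k16 k24 1 (.s
  k35 k44 2 (.d k32 k48 k33 3 0)))))] .n) (.c k212 (.l (.s k208 k88 9 (.s k116 k68 3 (.s k48 k184 9
  (.s k16 k32 3 (.s k144 k80 7 (.d k152 k156 k204 1 13))))))) .n)))) (.c k212 (.l (.s k208 k88 9 (.s
  k116 k68 3 (.s k48 k184 9 (.s k16 k32 3 (.s k144 k80 7 (.d k152 k156 k204 1 13))))))) .n))))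
  .n))))) (.c k41 (.q k22 [(.s k20 k212 7 (.s k88 k208 9 (.s k92 k80 1 (.s k220 k156 7 (.d k16 k24
  k152 1 9))))), (.s k19 k25 2 (.s k20 k212 7 (.s k16 k24 1 (.s k18 k17 0 (.s k26 k30 1 (.d k21 k23
  k31 0 2)))))), (.s k19 k25 2 (.s k88 k208 9 (.s k92 k80 1 (.s k220 k156 7 (.s k86 k153 10 (.s k150
  k214 7 (.d k89 k83 k211 2 10)))))))] (.c k16 (.l (.s k19 k25 2 (.s k212 k20 7 (.s k208 k88 9 (.s
  k220 k216 1 (.s k86 k153 10 (.s k150 k214 7 (.d k149 k151 k23 0 8)))))))) .n)) (.c k204 (.l (.s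
  k20 k212 7 (.s k16 k24 1 (.s k152 k220 9 (.s k208 k88 9 (.d k144 k156 k80 1 7)))))) (.c k220 (.q
  k100 [(.s k116 k68 3 (.s k48 k184 9 (.s k16 k32 3 (.d k20 k24 k212 1 7)))), (.s k88 k208 9 (.s k52
  k196 11 (.s k116 k68 3 (.s k244 k180 7 (.s k80 k92 1 (.d k240 k248 k160 1 11)))))), (.s k20 k212 7
  (.s k16 k24 1 (.s k48 k32 3 (.s k208 k88 9 (.s k144 k80 7 (.d k152 k156 k204 1 13))))))] (.c k22
  (.q k41 [(.s k116 k68 3 (.s k48 k184 9 (.s k16 k32 3 (.d k20 k24 k212 1 7)))), (.s k88 k208 9 (.s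
  k52 k196 11 (.s k116 k68 3 (.s k244 k180 7 (.s k80 k92 1 (.d k240 k248 k160 1 11)))))), (.s k20
  k212 7 (.s k16 k24 1 (.s k48 k32 3 (.s k208 k88 9 (.s k144 k80 7 (.d k152 k156 k204 1 13))))))]
  (.c k38 (.q k54 [(.s k116 k68 3 (.s k48 k184 9 (.s k16 k32 3 (.d k20 k24 k212 1 7)))), (.s k88
  k208 9 (.s k52 k196 11 (.s k116 k68 3 (.s k244 k180 7 (.s k80 k92 1 (.d k240 k248 k160 1 11)))))),
  (.s k20 k212 7 (.s k16 k24 1 (.s k48 k32 3 (.s k208 k88 9 (.s k144 k80 7 (.d k152 k156 k204 1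
  13))))))] (.c k25 (.q k51 [(.s k116 k68 3 (.s k48 k184 9 (.s k16 k32 3 (.d k20 k24 k212 1 7)))),
  (.s k118 k185 10 (.s k52 k196 11 (.s k55 k53 0 (.s k244 k181 8 (.d k116 k68 k180 3 7))))), (.s k20
  k212 7 (.s k16 k24 1 (.s k48 k32 3 (.s k208 k88 9 (.s k144 k80 7 (.d k152 k156 k204 1 13))))))]
  .n) (.c k51 (.l (.s k25 k57 3 (.s k20 k212 7 (.s k16 k24 1 (.s k48 k32 3 (.d k116 k68 k184 3
  9)))))) (.c k212 (.l (.s k208 k88 9 (.s k116 k68 3 (.s k48 k184 9 (.s k16 k32 3 (.s k144 k80 7 (.d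
  k152 k156 k204 1 13))))))) .n)))) (.c k54 (.q k38 [(.s k116 k68 3 (.s k48 k184 9 (.s k16 k32 3 (.d
  k20 k24 k212 1 7)))), (.s k88 k208 9 (.s k52 k196 11 (.s k116 k68 3 (.s k244 k180 7 (.s k80 k92 1
  (.d k240 k248 k160 1 11)))))), (.s k20 k212 7 (.s k16 k24 1 (.s k48 k32 3 (.s k208 k88 9 (.s k144
  k80 7 (.d k152 k156 k204 1 13))))))] (.c k51 (.l (.s k57 k25 3 (.s k20 k212 7 (.s k16 k24 1 (.s
  k48 k32 3 (.d k116 k68 k184 3 9)))))) (.c k57 (.q k51 [(.s k116 k68 3 (.s k48 k184 9 (.s k16 k32 3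
  (.d k20 k24 k212 1 7)))), (.s k20 k212 7 (.s k52 k196 11 (.s k116 k68 3 (.s k244 k180 7 (.d k4 k36
  k164 3 11))))), (.s k34 k17 4 (.s k35 k44 2 (.s k32 k33 0 (.s k48 k16 3 (.d k116 k68 k184 3
  9))))), (.s k34 k17 4 (.s k20 k212 7 (.s k16 k24 1 (.s k35 k44 2 (.d k32 k48 k33 3 0)))))] .n) (.c
  k212 (.l (.s k208 k88 9 (.s k116 k68 3 (.s k48 k184 9 (.s k16 k32 3 (.s k144 k80 7 (.d k152 k156
  k204 1 13))))))) .n)))) (.c k212 (.l (.s k208 k88 9 (.s k116 k68 3 (.s k48 k184 9 (.s k16 k32 3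
  (.s k144 k80 7 (.d k152 k156 k204 1 13))))))) .n)))) (.c k41 (.q k22 [(.s k116 k68 3 (.s k48 k184
  9 (.s k16 k32 3 (.d k20 k24 k212 1 7)))), (.s k88 k208 9 (.s k52 k196 11 (.s k116 k68 3 (.s k244
  k180 7 (.s k80 k92 1 (.d k240 k248 k160 1 11)))))), (.s k19 k25 2 (.s k20 k212 7 (.s k16 k24 1 (.s
  k18 k17 0 (.s k26 k30 1 (.d k21 k23 k31 0 2))))))] (.c k212 (.l (.s k208 k88 9 (.s k116 k68 3 (.s
  k48 k184 9 (.s k16 k32 3 (.s k144 k80 7 (.d k152 k156 k204 1 13))))))) .n)) (.c k212 (.l (.s k208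
  k88 9 (.s k116 k68 3 (.s k48 k184 9 (.s k16 k32 3 (.s k144 k80 7 (.d k152 k156 k204 1 13)))))))
  .n)))) .n))))) (.c k9 (.q k6 [(.s k20 k212 7 (.s k88 k208 9 (.s k92 k80 1 (.s k220 k156 7 (.d k16
  k24 k152 1 9))))), (.s k20 k212 7 (.s k16 k24 1 (.s k48 k32 3 (.s k116 k184 9 (.s k100 k68 3 (.d
  k152 k220 k204 9 13)))))), (.s k212 k20 7 (.s k208 k88 9 (.s k192 k232 5 (.s k240 k224 3 (.s k216
  k220 1 (.s k228 k204 5 (.d k244 k248 k196 1 3))))))), (.s k88 k208 9 (.s k92 k80 1 (.s k220 k156 7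
  (.s k204 k236 3 (.s k68 k136 9 (.s k100 k116 3 (.d k152 k16 k48 9 13)))))))] (.c k22 (.q k41 [(.s
  k20 k212 7 (.s k88 k208 9 (.s k92 k80 1 (.s k220 k156 7 (.d k16 k24 k152 1 9))))), (.s k20 k212 7
  (.s k16 k24 1 (.s k48 k32 3 (.s k116 k184 9 (.s k100 k68 3 (.d k152 k220 k204 9 13)))))), (.s k212
  k20 7 (.s k208 k88 9 (.s k192 k232 5 (.s k240 k224 3 (.s k216 k220 1 (.s k228 k204 5 (.d k244 k248
  k196 1 3))))))), (.s k88 k208 9 (.s k92 k80 1 (.s k220 k156 7 (.s k204 k236 3 (.s k68 k136 9 (.s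
  k100 k116 3 (.d k152 k16 k48 9 13)))))))] (.c k204 (.l (.s k20 k212 7 (.s k16 k24 1 (.s k152 k220
  9 (.s k208 k88 9 (.d k144 k156 k80 1 7)))))) (.c k220 (.f k20 k212 7 (.l (.s k16 k24 1 (.s k48 k32
  3 (.s k208 k88 9 (.s k144 k80 7 (.s k116 k184 9 (.s k100 k68 3 (.d k152 k156 k204 1 13)))))))))
  .n))) (.c k41 (.q k22 [(.s k20 k212 7 (.s k88 k208 9 (.s k92 k80 1 (.s k220 k156 7 (.d k16 k24
  k152 1 9))))), (.s k38 k54 3 (.s k20 k212 7 (.s k21 k23 0 (.s k4 k55 4 (.s k7 k5 0 (.d k52 k36 k37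
  3 4)))))), (.s k88 k208 9 (.s k92 k80 1 (.s k220 k156 7 (.s k204 k236 3 (.s k68 k136 9 (.s k100
  k116 3 (.d k152 k16 k48 9 13)))))))] (.c k25 (.q k57 [(.s k20 k212 7 (.s k88 k208 9 (.s k92 k80 1
  (.s k220 k156 7 (.d k16 k24 k152 1 9))))), (.s k38 k54 3 (.s k20 k212 7 (.s k21 k23 0 (.s k4 k55 4
  (.s k7 k5 0 (.d k52 k36 k37 3 4)))))), (.s k88 k208 9 (.s k92 k80 1 (.s k220 k156 7 (.s k204 k236
  3 (.s k68 k136 9 (.s k100 k116 3 (.d k152 k16 k48 9 13)))))))] (.c k38 (.q k51 [(.s k20 k212 7 (.s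
  k88 k208 9 (.s k92 k80 1 (.s k220 k156 7 (.d k16 k24 k152 1 9))))), (.s k17 k34 4 (.s k212 k20 7
  (.s k192 k232 5 (.s k128 k64 7 (.s k145 k98 12 (.s k81 k209 7 (.d k162 k179 k243 4 12))))))), (.s
  k88 k208 9 (.s k92 k80 1 (.s k220 k156 7 (.s k204 k236 3 (.s k68 k136 9 (.s k100 k116 3 (.d k152
  k16 k48 9 13)))))))] (.c k35 (.q k44 [(.s k20 k212 7 (.s k88 k208 9 (.s k92 k80 1 (.s k220 k156 7
  (.d k16 k24 k152 1 9))))), (.s k212 k20 7 (.s k208 k88 9 (.s k192 k232 5 (.s k64 k128 7 (.s k104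
  k124 5 (.d k224 k240 k164 3 9)))))), (.s k88 k208 9 (.s k92 k80 1 (.s k220 k156 7 (.s k204 k236 3
  (.s k68 k136 9 (.s k100 k116 3 (.d k152 k16 k48 9 13))))))), (.s k17 k34 4 (.s k20 k212 7 (.s k16
  k24 1 (.s k18 k19 0 (.s k26 k30 1 (.d k21 k23 k31 0 2))))))] .n) (.c k44 (.q k35 [(.s k34 k17 4
  (.s k20 k212 7 (.s k16 k24 1 (.d k32 k48 k33 3 0)))), (.s k212 k20 7 (.s k208 k88 9 (.s k192 k232
  5 (.s k98 k145 12 (.d k224 k240 k161 3 8))))), (.s k34 k17 4 (.s k88 k208 9 (.s k32 k33 0 (.s k92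
  k80 1 (.s k220 k156 7 (.d k16 k48 k152 3 9))))))] .n) .n))) (.c k51 (.l (.s k38 k54 3 (.s k20 k212
  7 (.s k16 k24 1 (.s k152 k220 9 (.s k208 k88 9 (.d k144 k156 k80 1 7))))))) .n))) (.c k57 (.l (.s
  k25 k19 2 (.s k20 k212 7 (.s k16 k24 1 (.s k152 k220 9 (.s k208 k88 9 (.d k144 k156 k80 1 7)))))))
  .n))) (.c k204 (.l (.s k20 k212 7 (.s k16 k24 1 (.s k152 k220 9 (.s k208 k88 9 (.d k144 k156 k80 1
  7)))))) (.c k220 (.q k22 [(.s k38 k54 3 (.s k20 k212 7 (.s k21 k23 0 (.s k4 k55 4 (.s k7 k5 0 (.d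
  k52 k36 k37 3 4)))))), (.s k19 k25 2 (.s k20 k212 7 (.s k16 k24 1 (.s k18 k17 0 (.s k26 k30 1 (.d
  k21 k23 k31 0 2)))))), (.s k25 k19 2 (.s k20 k212 7 (.s k21 k23 0 (.s k29 k17 1 (.s k31 k30 0 (.d
  k16 k24 k26 1 2))))))] (.c k20 (.q k100 [(.s k52 k196 11 (.s k7 k37 4 (.s k116 k68 3 (.s k244 k180
  7 (.d k4 k5 k164 0 11))))), (.s k88 k208 9 (.s k68 k116 3 (.s k76 k112 5 (.s k64 k72 1 (.s k124
  k104 5 (.d k92 k80 k108 1 3)))))), (.s k88 k208 9 (.s k52 k196 11 (.s k7 k37 4 (.s k4 k5 0 (.s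
  k244 k164 11 (.s k80 k92 1 (.d k240 k160 k248 11 1)))))))] .n) (.c k21 (.q k100 [(.s k116 k68 3
  (.s k48 k184 9 (.s k16 k32 3 (.d k20 k24 k212 1 7)))), (.s k52 k196 11 (.s k7 k37 4 (.s k116 k68 3
  (.s k244 k180 7 (.d k4 k5 k164 0 11))))), (.s k20 k212 7 (.s k52 k196 11 (.s k4 k36 3 (.d k7 k5
  k37 0 4))))] .n) (.c k23 (.f k20 k212 7 (.l (.s k16 k24 1 (.s k48 k32 3 (.s k208 k88 9 (.s k144
  k80 7 (.s k116 k184 9 (.s k100 k68 3 (.d k152 k156 k204 1 13))))))))) (.c k51 (.l (.s k20 k212 7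
  (.s k16 k24 1 (.s k21 k23 0 (.s k26 k31 2 (.s k18 k30 1 (.d k19 k17 k25 0 2))))))) (.c k208 (.q
  k100 [(.s k116 k68 3 (.s k48 k184 9 (.s k16 k32 3 (.d k20 k212 k24 7 1)))), (.s k52 k196 11 (.s k7
  k37 4 (.s k4 k5 0 (.d k20 k212 k36 7 3))))] (.c k20 (.l (.s k52 k196 11 (.s k7 k37 4 (.s k4 k5 0
  (.s k244 k164 11 (.d k116 k68 k180 3 7)))))) (.c k212 (.q k216 [(.s k116 k68 3 (.s k48 k184 9 (.s
  k16 k32 3 (.s k24 k20 1 (.d k152 k88 k204 7 13))))), (.s k52 k196 11 (.s k7 k37 4 (.s k4 k5 0 (.s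
  k36 k20 3 (.d k164 k228 k244 7 11)))))] (.c k20 (.l (.s k52 k196 11 (.s k7 k37 4 (.s k4 k5 0 (.s
  k244 k164 11 (.d k116 k68 k180 3 7)))))) .n)) (.c k216 (.l (.s k212 k20 7 (.s k196 k52 11 (.s k68
  k116 3 (.s k204 k136 9 (.d k192 k200 k232 1 5)))))) .n)))) (.c k212 (.q k100 [(.s k52 k196 11 (.s
  k7 k37 4 (.s k4 k5 0 (.s k36 k20 3 (.d k164 k228 k244 7 11))))), (.s k208 k88 9 (.s k116 k68 3 (.s
  k48 k184 9 (.s k16 k32 3 (.s k144 k80 7 (.d k152 k156 k204 1 13))))))] (.c k164 (.l (.s k38 k54 3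
  (.s k52 k196 11 (.s k7 k37 4 (.s k4 k5 0 (.s k20 k36 3 (.d k21 k23 k55 0 4))))))) (.c k208 (.q
  k216 [(.s k116 k68 3 (.s k48 k184 9 (.s k16 k32 3 (.s k24 k20 1 (.d k152 k88 k204 7 13))))), (.s
  k52 k196 11 (.s k7 k37 4 (.s k4 k5 0 (.s k36 k20 3 (.d k164 k228 k244 7 11)))))] (.c k20 (.l (.s
  k52 k196 11 (.s k7 k37 4 (.s k4 k5 0 (.s k244 k164 11 (.d k116 k68 k180 3 7)))))) .n)) (.c k216
  (.l (.s k208 k88 9 (.s k52 k196 11 (.s k7 k37 4 (.s k4 k5 0 (.s k36 k20 3 (.d k164 k228 k244 7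
  11))))))) .n)))) (.c k216 (.l (.s k38 k54 3 (.s k20 k212 7 (.s k208 k88 9 (.s k21 k23 0 (.s k4 k55
  4 (.s k7 k5 0 (.d k52 k36 k37 3 4)))))))) .n)))))))) .n))))) (.c k22 (.q k41 [(.s k20 k212 7 (.s
  k88 k208 9 (.s k92 k80 1 (.s k220 k156 7 (.d k16 k24 k152 1 9))))), (.s k20 k212 7 (.s k16 k24 1
  (.s k48 k32 3 (.s k116 k184 9 (.s k100 k68 3 (.d k152 k220 k204 9 13)))))), (.s k212 k20 7 (.s
  k208 k88 9 (.s k192 k232 5 (.s k240 k224 3 (.s k216 k220 1 (.s k228 k204 5 (.d k244 k248 k196 1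
  3))))))), (.s k88 k208 9 (.s k92 k80 1 (.s k220 k156 7 (.s k204 k236 3 (.s k68 k136 9 (.s k100
  k116 3 (.d k152 k16 k48 9 13)))))))] (.c k6 (.q k9 [(.s k20 k212 7 (.s k88 k208 9 (.s k92 k80 1
  (.s k220 k156 7 (.d k16 k24 k152 1 9))))), (.s k20 k212 7 (.s k16 k24 1 (.s k48 k32 3 (.s k116
  k184 9 (.s k100 k68 3 (.d k152 k220 k204 9 13)))))), (.s k212 k20 7 (.s k208 k88 9 (.s k192 k232 5
  (.s k240 k224 3 (.s k216 k220 1 (.s k228 k204 5 (.d k244 k248 k196 1 3))))))), (.s k88 k208 9 (.s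
  k92 k80 1 (.s k220 k156 7 (.s k204 k236 3 (.s k68 k136 9 (.s k100 k116 3 (.d k152 k16 k48 9
  13)))))))] (.c k38 (.q k54 [(.s k20 k212 7 (.s k88 k208 9 (.s k92 k80 1 (.s k220 k156 7 (.d k16
  k24 k152 1 9))))), (.s k20 k212 7 (.s k16 k24 1 (.s k48 k32 3 (.s k116 k184 9 (.s k100 k68 3 (.d
  k152 k220 k204 9 13)))))), (.s k212 k20 7 (.s k208 k88 9 (.s k192 k232 5 (.s k240 k224 3 (.s k216
  k220 1 (.s k228 k204 5 (.d k244 k248 k196 1 3))))))), (.s k88 k208 9 (.s k92 k80 1 (.s k220 k156 7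
  (.s k204 k236 3 (.s k68 k136 9 (.s k100 k116 3 (.d k152 k16 k48 9 13)))))))] (.c k25 (.q k51 [(.s
  k20 k212 7 (.s k88 k208 9 (.s k92 k80 1 (.s k220 k156 7 (.d k16 k24 k152 1 9))))), (.s k17 k34 4
  (.s k212 k20 7 (.s k192 k232 5 (.s k128 k64 7 (.s k145 k98 12 (.s k81 k209 7 (.d k162 k179 k243 4
  12))))))), (.s k88 k208 9 (.s k92 k80 1 (.s k220 k156 7 (.s k204 k236 3 (.s k68 k136 9 (.s k100
  k116 3 (.d k152 k16 k48 9 13)))))))] .n) (.c k51 (.l (.s k25 k57 3 (.s k20 k212 7 (.s k16 k24 1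
  (.s k152 k220 9 (.s k208 k88 9 (.d k144 k156 k80 1 7))))))) (.c k204 (.l (.s k20 k212 7 (.s k16
  k24 1 (.s k152 k220 9 (.s k208 k88 9 (.d k144 k156 k80 1 7)))))) (.c k220 (.q k51 [(.s k57 k25 3
  (.s k185 k118 10 (.s k249 k121 7 (.s k169 k89 11 (.s k105 k233 7 (.d k153 k137 k201 3 11)))))),
  (.s k17 k34 4 (.s k25 k57 3 (.s k21 k29 1 (.s k1 k61 5 (.s k13 k5 1 (.d k49 k33 k37 3 5)))))), (.s
  k17 k34 4 (.s k212 k20 7 (.s k192 k232 5 (.s k128 k64 7 (.s k145 k98 12 (.s k81 k209 7 (.d k162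
  k179 k243 4 12)))))))] .n) .n))))) (.c k54 (.q k38 [(.s k20 k212 7 (.s k88 k208 9 (.s k92 k80 1
  (.s k220 k156 7 (.d k16 k24 k152 1 9))))), (.s k212 k20 7 (.s k208 k88 9 (.s k44 k35 2 (.s k192
  k232 5 (.s k64 k128 7 (.s k104 k124 5 (.d k224 k240 k164 3 9))))))), (.s k88 k208 9 (.s k92 k80 1
  (.s k220 k156 7 (.s k204 k236 3 (.s k68 k136 9 (.s k100 k116 3 (.d k152 k16 k48 9 13))))))), (.s
  k20 k212 7 (.s k16 k24 1 (.s k48 k32 3 (.s k116 k184 9 (.s k100 k68 3 (.d k152 k220 k204 9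
  13))))))] (.c k51 (.l (.s k57 k25 3 (.s k20 k212 7 (.s k16 k24 1 (.s k152 k220 9 (.s k208 k88 9
  (.d k144 k156 k80 1 7))))))) (.c k57 (.q k51 [(.s k34 k17 4 (.s k20 k212 7 (.s k16 k24 1 (.s k35
  k44 2 (.d k32 k48 k33 3 0))))), (.s k212 k20 7 (.s k208 k88 9 (.s k220 k216 1 (.s k152 k16 9 (.d
  k156 k144 k92 1 7))))), (.s k34 k17 4 (.s k42 k46 1 (.s k35 k44 2 (.s k32 k33 0 (.s k47 k37 2 (.d
  k43 k40 k39 0 1))))))] .n) .n))) (.c k204 (.l (.s k20 k212 7 (.s k16 k24 1 (.s k152 k220 9 (.s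
  k208 k88 9 (.d k144 k156 k80 1 7)))))) (.c k220 (.q k100 [(.s k116 k68 3 (.s k48 k184 9 (.s k16
  k32 3 (.d k20 k24 k212 1 7)))), (.s k88 k208 9 (.s k52 k196 11 (.s k116 k68 3 (.s k244 k180 7 (.s
  k80 k92 1 (.d k240 k248 k160 1 11)))))), (.s k20 k212 7 (.s k16 k24 1 (.s k48 k32 3 (.s k208 k88 9
  (.s k144 k80 7 (.d k152 k156 k204 1 13))))))] (.c k38 (.q k54 [(.s k116 k68 3 (.s k48 k184 9 (.s
  k16 k32 3 (.d k20 k24 k212 1 7)))), (.s k88 k208 9 (.s k52 k196 11 (.s k116 k68 3 (.s k244 k180 7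
  (.s k80 k92 1 (.d k240 k248 k160 1 11)))))), (.s k20 k212 7 (.s k16 k24 1 (.s k48 k32 3 (.s k208
  k88 9 (.s k144 k80 7 (.d k152 k156 k204 1 13))))))] (.c k25 (.q k51 [(.s k116 k68 3 (.s k48 k184 9
  (.s k16 k32 3 (.d k20 k24 k212 1 7)))), (.s k118 k185 10 (.s k52 k196 11 (.s k55 k53 0 (.s k244
  k181 8 (.d k116 k68 k180 3 7))))), (.s k20 k212 7 (.s k16 k24 1 (.s k48 k32 3 (.s k208 k88 9 (.s
  k144 k80 7 (.d k152 k156 k204 1 13))))))] .n) (.c k51 (.l (.s k25 k57 3 (.s k20 k212 7 (.s k16 k24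
  1 (.s k48 k32 3 (.d k116 k68 k184 3 9)))))) (.c k212 (.l (.s k208 k88 9 (.s k116 k68 3 (.s k48
  k184 9 (.s k16 k32 3 (.s k144 k80 7 (.d k152 k156 k204 1 13))))))) .n)))) (.c k54 (.q k38 [(.s
  k116 k68 3 (.s k48 k184 9 (.s k16 k32 3 (.d k20 k24 k212 1 7)))), (.s k88 k208 9 (.s k52 k196 11
  (.s k116 k68 3 (.s k244 k180 7 (.s k80 k92 1 (.d k240 k248 k160 1 11)))))), (.s k20 k212 7 (.s k16
  k24 1 (.s k48 k32 3 (.s k208 k88 9 (.s k144 k80 7 (.d k152 k156 k204 1 13))))))] (.c k51 (.l (.s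
  k57 k25 3 (.s k20 k212 7 (.s k16 k24 1 (.s k48 k32 3 (.d k116 k68 k184 3 9)))))) (.c k57 (.q k51
  [(.s k116 k68 3 (.s k48 k184 9 (.s k16 k32 3 (.d k20 k24 k212 1 7)))), (.s k20 k212 7 (.s k52 k196
  11 (.s k116 k68 3 (.s k244 k180 7 (.d k4 k36 k164 3 11))))), (.s k34 k17 4 (.s k35 k44 2 (.s k32
  k33 0 (.s k48 k16 3 (.d k116 k68 k184 3 9))))), (.s k34 k17 4 (.s k20 k212 7 (.s k16 k24 1 (.s k35
  k44 2 (.d k32 k48 k33 3 0)))))] .n) (.c k212 (.l (.s k208 k88 9 (.s k116 k68 3 (.s k48 k184 9 (.s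
  k16 k32 3 (.s k144 k80 7 (.d k152 k156 k204 1 13))))))) .n)))) (.c k212 (.l (.s k208 k88 9 (.s
  k116 k68 3 (.s k48 k184 9 (.s k16 k32 3 (.s k144 k80 7 (.d k152 k156 k204 1 13))))))) .n))))
  .n))))) (.c k9 (.q k6 [(.s k20 k212 7 (.s k88 k208 9 (.s k92 k80 1 (.s k220 k156 7 (.d k16 k24
  k152 1 9))))), (.s k20 k212 7 (.s k16 k24 1 (.s k48 k32 3 (.s k116 k184 9 (.s k100 k68 3 (.d k152
  k220 k204 9 13)))))), (.s k212 k20 7 (.s k208 k88 9 (.s k192 k232 5 (.s k240 k224 3 (.s k216 k220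
  1 (.s k228 k204 5 (.d k244 k248 k196 1 3))))))), (.s k88 k208 9 (.s k92 k80 1 (.s k220 k156 7 (.s
  k204 k236 3 (.s k68 k136 9 (.s k100 k116 3 (.d k152 k16 k48 9 13)))))))] (.c k204 (.l (.s k20 k212
  7 (.s k16 k24 1 (.s k152 k220 9 (.s k208 k88 9 (.d k144 k156 k80 1 7)))))) (.c k220 (.f k20 k212 7
  (.l (.s k16 k24 1 (.s k48 k32 3 (.s k208 k88 9 (.s k144 k80 7 (.s k116 k184 9 (.s k100 k68 3 (.d
  k152 k156 k204 1 13))))))))) .n))) (.c k204 (.l (.s k20 k212 7 (.s k16 k24 1 (.s k152 k220 9 (.s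
  k208 k88 9 (.d k144 k156 k80 1 7)))))) (.c k220 (.f k20 k212 7 (.l (.s k16 k24 1 (.s k48 k32 3 (.s
  k208 k88 9 (.s k144 k80 7 (.s k116 k184 9 (.s k100 k68 3 (.d k152 k156 k204 1 13))))))))) .n)))))
  (.c k41 (.q k22 [(.s k20 k212 7 (.s k88 k208 9 (.s k92 k80 1 (.s k220 k156 7 (.d k16 k24 k152 1
  9))))), (.s k19 k25 2 (.s k20 k212 7 (.s k16 k24 1 (.s k18 k17 0 (.s k26 k30 1 (.d k21 k23 k31 0
  2)))))), (.s k19 k25 2 (.s k88 k208 9 (.s k92 k80 1 (.s k220 k156 7 (.s k86 k153 10 (.s k150 k214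
  7 (.d k89 k83 k211 2 10)))))))] (.c k6 (.q k9 [(.s k20 k212 7 (.s k88 k208 9 (.s k92 k80 1 (.s
  k220 k156 7 (.d k16 k24 k152 1 9))))), (.s k19 k25 2 (.s k20 k212 7 (.s k16 k24 1 (.s k18 k17 0
  (.s k26 k30 1 (.d k21 k23 k31 0 2)))))), (.s k19 k25 2 (.s k88 k208 9 (.s k92 k80 1 (.s k220 k156
  7 (.s k86 k153 10 (.s k150 k214 7 (.d k89 k83 k211 2 10)))))))] (.c k16 (.l (.s k19 k25 2 (.s k212
  k20 7 (.s k208 k88 9 (.s k220 k216 1 (.s k86 k153 10 (.s k150 k214 7 (.d k149 k151 k23 0 8))))))))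
  .n)) (.c k9 (.q k6 [(.s k20 k212 7 (.s k88 k208 9 (.s k92 k80 1 (.s k220 k156 7 (.d k16 k24 k152 1
  9))))), (.s k38 k54 3 (.s k20 k212 7 (.s k21 k23 0 (.s k4 k55 4 (.s k7 k5 0 (.d k52 k36 k37 3
  4)))))), (.s k88 k208 9 (.s k92 k80 1 (.s k220 k156 7 (.s k204 k236 3 (.s k68 k136 9 (.s k100 k116
  3 (.d k152 k16 k48 9 13)))))))] (.c k25 (.q k57 [(.s k20 k212 7 (.s k88 k208 9 (.s k92 k80 1 (.s
  k220 k156 7 (.d k16 k24 k152 1 9))))), (.s k38 k54 3 (.s k20 k212 7 (.s k21 k23 0 (.s k4 k55 4 (.s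
  k7 k5 0 (.d k52 k36 k37 3 4)))))), (.s k88 k208 9 (.s k92 k80 1 (.s k220 k156 7 (.s k204 k236 3
  (.s k68 k136 9 (.s k100 k116 3 (.d k152 k16 k48 9 13)))))))] (.c k38 (.q k51 [(.s k20 k212 7 (.s
  k88 k208 9 (.s k92 k80 1 (.s k220 k156 7 (.d k16 k24 k152 1 9))))), (.s k17 k34 4 (.s k212 k20 7
  (.s k192 k232 5 (.s k128 k64 7 (.s k145 k98 12 (.s k81 k209 7 (.d k162 k179 k243 4 12))))))), (.s
  k88 k208 9 (.s k92 k80 1 (.s k220 k156 7 (.s k204 k236 3 (.s k68 k136 9 (.s k100 k116 3 (.d k152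
  k16 k48 9 13)))))))] (.c k35 (.q k44 [(.s k20 k212 7 (.s k88 k208 9 (.s k92 k80 1 (.s k220 k156 7
  (.d k16 k24 k152 1 9))))), (.s k212 k20 7 (.s k208 k88 9 (.s k192 k232 5 (.s k64 k128 7 (.s k104
  k124 5 (.d k224 k240 k164 3 9)))))), (.s k88 k208 9 (.s k92 k80 1 (.s k220 k156 7 (.s k204 k236 3
  (.s k68 k136 9 (.s k100 k116 3 (.d k152 k16 k48 9 13))))))), (.s k17 k34 4 (.s k20 k212 7 (.s k16
  k24 1 (.s k18 k19 0 (.s k26 k30 1 (.d k21 k23 k31 0 2))))))] .n) (.c k44 (.q k35 [(.s k34 k17 4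
  (.s k20 k212 7 (.s k16 k24 1 (.d k32 k48 k33 3 0)))), (.s k212 k20 7 (.s k208 k88 9 (.s k192 k232
  5 (.s k98 k145 12 (.d k224 k240 k161 3 8))))), (.s k34 k17 4 (.s k88 k208 9 (.s k32 k33 0 (.s k92
  k80 1 (.s k220 k156 7 (.d k16 k48 k152 3 9))))))] .n) .n))) (.c k51 (.l (.s k38 k54 3 (.s k20 k212
  7 (.s k16 k24 1 (.s k152 k220 9 (.s k208 k88 9 (.d k144 k156 k80 1 7))))))) .n))) (.c k57 (.l (.s
  k25 k19 2 (.s k20 k212 7 (.s k16 k24 1 (.s k152 k220 9 (.s k208 k88 9 (.d k144 k156 k80 1 7)))))))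
  .n))) (.c k16 (.l (.s k19 k25 2 (.s k212 k20 7 (.s k208 k88 9 (.s k220 k216 1 (.s k86 k153 10 (.s
  k150 k214 7 (.d k149 k151 k23 0 8)))))))) .n)))) (.c k204 (.l (.s k20 k212 7 (.s k16 k24 1 (.s
  k152 k220 9 (.s k208 k88 9 (.d k144 k156 k80 1 7)))))) (.c k220 (.f k20 k212 7 (.l (.s k16 k24 1
  (.s k48 k32 3 (.s k208 k88 9 (.s k144 k80 7 (.s k116 k184 9 (.s k100 k68 3 (.d k152 k156 k204 1
  13))))))))) .n))))))) (.c k64 (.f k20 k212 7 (.q k100 [(.s k52 k196 11 (.s k116 k68 3 (.s k244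
  k180 7 (.d k4 k36 k164 3 11)))), (.s k68 k116 3 (.s k204 k136 9 (.s k152 k48 13 (.d k220 k236 k16
  3 9)))), (.s k60 k40 5 (.s k52 k196 11 (.s k48 k56 1 (.s k16 k32 3 (.d k152 k220 k204 9 13)))))]
  (.c k6 (.q k9 [(.s k52 k196 11 (.s k116 k68 3 (.s k244 k180 7 (.d k4 k36 k164 3 11)))), (.s k68
  k116 3 (.s k204 k136 9 (.s k152 k48 13 (.d k220 k236 k16 3 9)))), (.s k60 k40 5 (.s k52 k196 11
  (.s k48 k56 1 (.s k16 k32 3 (.d k152 k220 k204 9 13)))))] (.c k36 (.l (.s k60 k40 5 (.s k52 k196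
  11 (.s k48 k56 1 (.d k116 k68 k184 3 9))))) .n)) (.c k9 (.q k6 [(.s k52 k196 11 (.s k116 k68 3 (.s
  k244 k180 7 (.d k4 k36 k164 3 11)))), (.s k68 k116 3 (.s k204 k136 9 (.s k152 k48 13 (.d k220 k236
  k16 3 9)))), (.s k60 k40 5 (.s k52 k196 11 (.s k48 k56 1 (.s k16 k32 3 (.d k152 k220 k204 9
  13)))))] (.c k36 (.l (.s k60 k40 5 (.s k52 k196 11 (.s k48 k56 1 (.d k116 k68 k184 3 9))))) .n))
  (.c k36 (.l (.s k60 k40 5 (.s k52 k196 11 (.s k48 k56 1 (.d k116 k68 k184 3 9))))) .n))))) (.c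
  k104 (.f k20 k212 7 (.q k88 [(.s k28 k208 9 (.s k92 k80 1 (.s k220 k156 7 (.d k16 k24 k152 1
  9)))), (.s k80 k92 1 (.s k240 k160 11 (.s k244 k248 1 (.s k164 k4 11 (.s k180 k132 3 (.d k60 k40
  k120 5 9)))))), (.s k28 k208 9 (.s k16 k24 1 (.s k48 k32 3 (.s k116 k184 9 (.s k100 k68 3 (.d k152
  k220 k204 9 13))))))] (.c k6 (.q k9 [(.s k28 k208 9 (.s k92 k80 1 (.s k220 k156 7 (.d k16 k24 k152
  1 9)))), (.s k80 k92 1 (.s k240 k160 11 (.s k244 k248 1 (.s k164 k4 11 (.s k180 k132 3 (.d k60 k40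
  k120 5 9)))))), (.s k28 k208 9 (.s k16 k24 1 (.s k48 k32 3 (.s k116 k184 9 (.s k100 k68 3 (.d k152
  k220 k204 9 13))))))] (.c k40 (.q k232 [(.s k28 k208 9 (.s k92 k80 1 (.s k220 k156 7 (.d k16 k24
  k152 1 9)))), (.s k208 k28 9 (.s k80 k92 1 (.s k240 k160 11 (.s k224 k192 3 (.s k228 k236 1 (.s
  k216 k204 5 (.d k248 k200 k244 3 1))))))), (.s k80 k92 1 (.s k240 k160 11 (.s k248 k244 1 (.s k216
  k200 3 (.s k152 k24 7 (.s k220 k16 9 (.d k204 k228 k236 5 3))))))), (.s k28 k208 9 (.s k16 k24 1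
  (.s k48 k32 3 (.s k116 k184 9 (.s k100 k68 3 (.d k152 k220 k204 9 13))))))] (.c k216 (.l (.s k92
  k80 1 (.s k28 k208 9 (.s k220 k156 7 (.d k16 k24 k152 1 9))))) (.c k220 (.l (.s k80 k92 1 (.s k240
  k160 11 (.s k248 k244 1 (.s k28 k208 9 (.s k216 k200 3 (.d k24 k152 k16 7 1))))))) .n))) (.c k232
  (.l (.s k40 k60 5 (.s k28 k208 9 (.s k16 k24 1 (.s k220 k152 9 (.d k92 k80 k156 1 7)))))) .n)))
  (.c k9 (.q k6 [(.s k28 k208 9 (.s k92 k80 1 (.s k220 k156 7 (.d k16 k24 k152 1 9)))), (.s k80 k92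
  1 (.s k240 k160 11 (.s k244 k248 1 (.s k164 k4 11 (.s k180 k132 3 (.d k60 k40 k120 5 9)))))), (.s
  k28 k208 9 (.s k16 k24 1 (.s k48 k32 3 (.s k116 k184 9 (.s k100 k68 3 (.d k152 k220 k204 9
  13))))))] (.c k40 (.q k232 [(.s k28 k208 9 (.s k92 k80 1 (.s k220 k156 7 (.d k16 k24 k152 1 9)))),
  (.s k208 k28 9 (.s k80 k92 1 (.s k240 k160 11 (.s k224 k192 3 (.s k228 k236 1 (.s k216 k204 5 (.d
  k248 k200 k244 3 1))))))), (.s k80 k92 1 (.s k240 k160 11 (.s k248 k244 1 (.s k216 k200 3 (.s k152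
  k24 7 (.s k220 k16 9 (.d k204 k228 k236 5 3))))))), (.s k28 k208 9 (.s k16 k24 1 (.s k48 k32 3 (.s
  k116 k184 9 (.s k100 k68 3 (.d k152 k220 k204 9 13))))))] (.c k216 (.l (.s k92 k80 1 (.s k28 k208
  9 (.s k220 k156 7 (.d k16 k24 k152 1 9))))) (.c k220 (.l (.s k80 k92 1 (.s k240 k160 11 (.s k248
  k244 1 (.s k28 k208 9 (.s k216 k200 3 (.d k24 k152 k16 7 1))))))) .n))) (.c k232 (.l (.s k40 k60 5
  (.s k28 k208 9 (.s k16 k24 1 (.s k220 k152 9 (.d k92 k80 k156 1 7)))))) .n))) (.c k40 (.q k232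
  [(.s k28 k208 9 (.s k92 k80 1 (.s k220 k156 7 (.d k16 k24 k152 1 9)))), (.s k208 k28 9 (.s k80 k92
  1 (.s k240 k160 11 (.s k224 k192 3 (.s k228 k236 1 (.s k216 k204 5 (.d k248 k200 k244 3 1))))))),
  (.s k80 k92 1 (.s k240 k160 11 (.s k248 k244 1 (.s k216 k200 3 (.s k152 k24 7 (.s k220 k16 9 (.d
  k204 k228 k236 5 3))))))), (.s k28 k208 9 (.s k16 k24 1 (.s k48 k32 3 (.s k116 k184 9 (.s k100 k68
  3 (.d k152 k220 k204 9 13))))))] (.c k6 (.q k9 [(.s k28 k208 9 (.s k92 k80 1 (.s k220 k156 7 (.d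
  k16 k24 k152 1 9)))), (.s k208 k28 9 (.s k80 k92 1 (.s k240 k160 11 (.s k224 k192 3 (.s k228 k236
  1 (.s k216 k204 5 (.d k248 k200 k244 3 1))))))), (.s k80 k92 1 (.s k240 k160 11 (.s k248 k244 1
  (.s k216 k200 3 (.s k152 k24 7 (.s k220 k16 9 (.d k204 k228 k236 5 3))))))), (.s k28 k208 9 (.s
  k16 k24 1 (.s k48 k32 3 (.s k116 k184 9 (.s k100 k68 3 (.d k152 k220 k204 9 13))))))] (.c k216 (.l
  (.s k92 k80 1 (.s k28 k208 9 (.s k220 k156 7 (.d k16 k24 k152 1 9))))) (.c k220 (.l (.s k80 k92 1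
  (.s k240 k160 11 (.s k248 k244 1 (.s k28 k208 9 (.s k216 k200 3 (.d k24 k152 k16 7 1))))))) .n)))
  (.c k9 (.q k6 [(.s k28 k208 9 (.s k92 k80 1 (.s k220 k156 7 (.d k16 k24 k152 1 9)))), (.s k208 k28
  9 (.s k80 k92 1 (.s k240 k160 11 (.s k224 k192 3 (.s k228 k236 1 (.s k216 k204 5 (.d k248 k200
  k244 3 1))))))), (.s k80 k92 1 (.s k240 k160 11 (.s k248 k244 1 (.s k216 k200 3 (.s k152 k24 7 (.s
  k220 k16 9 (.d k204 k228 k236 5 3))))))), (.s k28 k208 9 (.s k16 k24 1 (.s k48 k32 3 (.s k116 k184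
  9 (.s k100 k68 3 (.d k152 k220 k204 9 13))))))] (.c k216 (.l (.s k92 k80 1 (.s k28 k208 9 (.s k220
  k156 7 (.d k16 k24 k152 1 9))))) (.c k220 (.l (.s k80 k92 1 (.s k240 k160 11 (.s k248 k244 1 (.s
  k28 k208 9 (.s k216 k200 3 (.d k24 k152 k16 7 1))))))) .n))) (.c k216 (.l (.s k92 k80 1 (.s k28
  k208 9 (.s k220 k156 7 (.d k16 k24 k152 1 9))))) (.c k220 (.l (.s k80 k92 1 (.s k240 k160 11 (.s
  k248 k244 1 (.s k28 k208 9 (.s k216 k200 3 (.d k24 k152 k16 7 1))))))) .n))))) (.c k232 (.l (.s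
  k40 k60 5 (.s k28 k208 9 (.s k16 k24 1 (.s k220 k152 9 (.d k92 k80 k156 1 7)))))) .n)))))) (.c
  k124 (.f k20 k212 7 (.q k100 [(.s k52 k196 11 (.s k116 k68 3 (.s k244 k180 7 (.d k4 k36 k164 3
  11)))), (.s k68 k116 3 (.s k204 k136 9 (.s k152 k48 13 (.d k220 k236 k16 3 9)))), (.s k60 k40 5
  (.s k52 k196 11 (.s k48 k56 1 (.s k16 k32 3 (.d k152 k220 k204 9 13)))))] (.c k6 (.q k9 [(.s k52
  k196 11 (.s k116 k68 3 (.s k244 k180 7 (.d k4 k36 k164 3 11)))), (.s k68 k116 3 (.s k204 k136 9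
  (.s k152 k48 13 (.d k220 k236 k16 3 9)))), (.s k60 k40 5 (.s k52 k196 11 (.s k48 k56 1 (.s k16 k32
  3 (.d k152 k220 k204 9 13)))))] (.c k36 (.l (.s k60 k40 5 (.s k52 k196 11 (.s k48 k56 1 (.d k116
  k68 k184 3 9))))) .n)) (.c k9 (.q k6 [(.s k52 k196 11 (.s k116 k68 3 (.s k244 k180 7 (.d k4 k36
  k164 3 11)))), (.s k68 k116 3 (.s k204 k136 9 (.s k152 k48 13 (.d k220 k236 k16 3 9)))), (.s k60
  k40 5 (.s k52 k196 11 (.s k48 k56 1 (.s k16 k32 3 (.d k152 k220 k204 9 13)))))] (.c k36 (.l (.s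
  k60 k40 5 (.s k52 k196 11 (.s k48 k56 1 (.d k116 k68 k184 3 9))))) .n)) (.c k36 (.l (.s k60 k40 5
  (.s k52 k196 11 (.s k48 k56 1 (.d k116 k68 k184 3 9))))) .n))))) (.c k188 (.l (.s k212 k20 7 (.s
  k192 k232 5 (.s k64 k128 7 (.d k104 k124 k60 5 13))))) (.c k192 (.f k20 k212 7 (.q k100 [(.s k52
  k196 11 (.s k116 k68 3 (.s k244 k180 7 (.d k4 k36 k164 3 11)))), (.s k68 k116 3 (.s k204 k136 9
  (.s k152 k48 13 (.d k220 k236 k16 3 9)))), (.s k60 k40 5 (.s k52 k196 11 (.s k48 k56 1 (.s k16 k32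
  3 (.d k152 k204 k220 13 9))))), (.s k60 k40 5 (.s k116 k68 3 (.s k48 k184 9 (.d k52 k56 k196 1
  11))))] (.c k6 (.q k9 [(.s k52 k196 11 (.s k116 k68 3 (.s k244 k180 7 (.d k4 k36 k164 3 11)))),
  (.s k68 k116 3 (.s k204 k136 9 (.s k152 k48 13 (.d k220 k236 k16 3 9)))), (.s k60 k40 5 (.s k52
  k196 11 (.s k48 k56 1 (.s k16 k32 3 (.d k152 k204 k220 13 9))))), (.s k60 k40 5 (.s k116 k68 3 (.s
  k48 k184 9 (.d k52 k56 k196 1 11))))] (.c k66 (.q k129 [(.s k52 k196 11 (.s k116 k68 3 (.s k244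
  k180 7 (.d k4 k36 k164 3 11)))), (.s k68 k116 3 (.s k204 k136 9 (.s k152 k48 13 (.d k220 k236 k16
  3 9)))), (.s k60 k40 5 (.s k52 k196 11 (.s k48 k56 1 (.s k16 k32 3 (.d k152 k204 k220 13 9))))),
  (.s k60 k40 5 (.s k116 k68 3 (.s k48 k184 9 (.d k52 k56 k196 1 11))))] (.c k72 (.q k132 [(.s k196
  k52 11 (.d k68 k116 k4 3 7)), (.s k68 k116 3 (.s k204 k136 9 (.s k152 k48 13 (.d k220 k236 k16 3
  9)))), (.s k52 k196 11 (.s k4 k36 3 (.d k164 k244 k180 11 3)))] .n) (.c k132 (.q k72 [(.s k60 k40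
  5 (.s k124 k188 7 (.s k68 k116 3 (.d k64 k104 k76 5 1)))), (.s k52 k196 11 (.s k4 k36 3 (.s k244
  k164 11 (.d k116 k68 k180 3 7))))] (.c k68 (.l (.s k60 k40 5 (.s k52 k196 11 (.s k4 k36 3 (.s k244
  k164 11 (.s k48 k56 1 (.d k116 k180 k184 7 9))))))) (.c k116 (.l (.s k60 k40 5 (.s k52 k196 11 (.s
  k48 k56 1 (.s k16 k32 3 (.d k152 k204 k220 13 9)))))) .n))) .n))) (.c k72 (.q k132 [(.s k196 k52
  11 (.d k68 k116 k4 3 7)), (.s k68 k116 3 (.s k204 k136 9 (.s k152 k48 13 (.d k220 k236 k16 3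
  9)))), (.s k52 k196 11 (.s k4 k36 3 (.d k164 k244 k180 11 3)))] (.c k66 (.q k129 [(.s k196 k52 11
  (.d k68 k116 k4 3 7)), (.s k68 k116 3 (.s k204 k136 9 (.s k152 k48 13 (.d k220 k236 k16 3 9)))),
  (.s k52 k196 11 (.s k4 k36 3 (.d k164 k244 k180 11 3)))] .n) (.c k129 (.q k66 [(.s k196 k52 11 (.d
  k68 k116 k4 3 7)), (.s k68 k116 3 (.s k204 k136 9 (.s k152 k48 13 (.d k220 k236 k16 3 9)))), (.s
  k52 k196 11 (.s k4 k36 3 (.d k164 k244 k180 11 3)))] .n) .n))) (.c k129 (.q k66 [(.s k52 k196 11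
  (.s k116 k68 3 (.s k244 k180 7 (.d k4 k36 k164 3 11)))), (.s k68 k116 3 (.s k204 k136 9 (.s k152
  k48 13 (.d k220 k236 k16 3 9)))), (.s k60 k40 5 (.s k52 k196 11 (.s k48 k56 1 (.s k16 k32 3 (.d
  k152 k204 k220 13 9))))), (.s k60 k40 5 (.s k116 k68 3 (.s k48 k184 9 (.d k52 k56 k196 1 11))))]
  (.c k72 (.q k132 [(.s k196 k52 11 (.d k68 k116 k4 3 7)), (.s k68 k116 3 (.s k204 k136 9 (.s k152
  k48 13 (.d k220 k236 k16 3 9)))), (.s k52 k196 11 (.s k4 k36 3 (.d k164 k244 k180 11 3)))] .n) (.c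
  k132 (.q k72 [(.s k60 k40 5 (.s k124 k188 7 (.s k68 k116 3 (.d k64 k104 k76 5 1)))), (.s k52 k196
  11 (.s k4 k36 3 (.s k244 k164 11 (.d k116 k68 k180 3 7))))] (.c k68 (.l (.s k60 k40 5 (.s k52 k196
  11 (.s k4 k36 3 (.s k244 k164 11 (.s k48 k56 1 (.d k116 k180 k184 7 9))))))) (.c k116 (.l (.s k60
  k40 5 (.s k52 k196 11 (.s k48 k56 1 (.s k16 k32 3 (.d k152 k204 k220 13 9)))))) .n))) .n))) (.c
  k132 (.q k72 [(.s k60 k40 5 (.s k124 k188 7 (.s k68 k116 3 (.d k64 k104 k76 5 1)))), (.s k52 k196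
  11 (.s k4 k36 3 (.s k244 k164 11 (.d k116 k68 k180 3 7))))] (.c k66 (.q k129 [(.s k60 k40 5 (.s
  k124 k188 7 (.s k68 k116 3 (.d k64 k104 k76 5 1)))), (.s k52 k196 11 (.s k4 k36 3 (.s k244 k164 11
  (.d k116 k68 k180 3 7))))] (.c k68 (.l (.s k60 k40 5 (.s k52 k196 11 (.s k4 k36 3 (.s k244 k164 11
  (.s k48 k56 1 (.d k116 k180 k184 7 9))))))) (.c k116 (.l (.s k60 k40 5 (.s k52 k196 11 (.s k48 k56
  1 (.s k16 k32 3 (.d k152 k204 k220 13 9)))))) .n))) (.c k68 (.l (.s k60 k40 5 (.s k52 k196 11 (.s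
  k4 k36 3 (.s k244 k164 11 (.s k48 k56 1 (.d k116 k180 k184 7 9))))))) (.c k116 (.l (.s k60 k40 5
  (.s k52 k196 11 (.s k48 k56 1 (.s k16 k32 3 (.d k152 k204 k220 13 9)))))) (.c k129 (.q k66 [(.s
  k60 k40 5 (.s k124 k188 7 (.s k68 k116 3 (.d k64 k104 k76 5 1)))), (.s k52 k196 11 (.s k4 k36 3
  (.s k244 k164 11 (.d k116 k68 k180 3 7))))] (.c k68 (.l (.s k60 k40 5 (.s k52 k196 11 (.s k4 k36 3
  (.s k244 k164 11 (.s k48 k56 1 (.d k116 k180 k184 7 9))))))) (.c k116 (.l (.s k60 k40 5 (.s k52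
  k196 11 (.s k48 k56 1 (.s k16 k32 3 (.d k152 k204 k220 13 9)))))) .n))) .n))))) .n))))) (.c k9 (.q
  k6 [(.s k52 k196 11 (.s k116 k68 3 (.s k244 k180 7 (.d k4 k36 k164 3 11)))), (.s k68 k116 3 (.s
  k204 k136 9 (.s k152 k48 13 (.d k220 k236 k16 3 9)))), (.s k60 k40 5 (.s k52 k196 11 (.s k48 k56 1
  (.s k16 k32 3 (.d k152 k204 k220 13 9))))), (.s k60 k40 5 (.s k116 k68 3 (.s k48 k184 9 (.d k52
  k56 k196 1 11))))] (.c k66 (.q k129 [(.s k52 k196 11 (.s k116 k68 3 (.s k244 k180 7 (.d k4 k36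
  k164 3 11)))), (.s k68 k116 3 (.s k204 k136 9 (.s k152 k48 13 (.d k220 k236 k16 3 9)))), (.s k60
  k40 5 (.s k52 k196 11 (.s k48 k56 1 (.s k16 k32 3 (.d k152 k204 k220 13 9))))), (.s k60 k40 5 (.s
  k116 k68 3 (.s k48 k184 9 (.d k52 k56 k196 1 11))))] (.c k72 (.q k132 [(.s k196 k52 11 (.d k68
  k116 k4 3 7)), (.s k68 k116 3 (.s k204 k136 9 (.s k152 k48 13 (.d k220 k236 k16 3 9)))), (.s k52
  k196 11 (.s k4 k36 3 (.d k164 k244 k180 11 3)))] .n) (.c k132 (.q k72 [(.s k60 k40 5 (.s k124 k188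
  7 (.s k68 k116 3 (.d k64 k104 k76 5 1)))), (.s k52 k196 11 (.s k4 k36 3 (.s k244 k164 11 (.d k116
  k68 k180 3 7))))] (.c k68 (.l (.s k60 k40 5 (.s k52 k196 11 (.s k4 k36 3 (.s k244 k164 11 (.s k48
  k56 1 (.d k116 k180 k184 7 9))))))) (.c k116 (.l (.s k60 k40 5 (.s k52 k196 11 (.s k48 k56 1 (.s
  k16 k32 3 (.d k152 k204 k220 13 9)))))) .n))) .n))) (.c k72 (.q k132 [(.s k196 k52 11 (.d k68 k116
  k4 3 7)), (.s k68 k116 3 (.s k204 k136 9 (.s k152 k48 13 (.d k220 k236 k16 3 9)))), (.s k52 k196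
  11 (.s k4 k36 3 (.d k164 k244 k180 11 3)))] (.c k66 (.q k129 [(.s k196 k52 11 (.d k68 k116 k4 3
  7)), (.s k68 k116 3 (.s k204 k136 9 (.s k152 k48 13 (.d k220 k236 k16 3 9)))), (.s k52 k196 11 (.s
  k4 k36 3 (.d k164 k244 k180 11 3)))] .n) (.c k129 (.q k66 [(.s k196 k52 11 (.d k68 k116 k4 3 7)),
  (.s k68 k116 3 (.s k204 k136 9 (.s k152 k48 13 (.d k220 k236 k16 3 9)))), (.s k52 k196 11 (.s k4
  k36 3 (.d k164 k244 k180 11 3)))] .n) .n))) (.c k129 (.q k66 [(.s k52 k196 11 (.s k116 k68 3 (.s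
  k244 k180 7 (.d k4 k36 k164 3 11)))), (.s k68 k116 3 (.s k204 k136 9 (.s k152 k48 13 (.d k220 k236
  k16 3 9)))), (.s k60 k40 5 (.s k52 k196 11 (.s k48 k56 1 (.s k16 k32 3 (.d k152 k204 k220 13
  9))))), (.s k60 k40 5 (.s k116 k68 3 (.s k48 k184 9 (.d k52 k56 k196 1 11))))] (.c k72 (.q k132
  [(.s k196 k52 11 (.d k68 k116 k4 3 7)), (.s k68 k116 3 (.s k204 k136 9 (.s k152 k48 13 (.d k220
  k236 k16 3 9)))), (.s k52 k196 11 (.s k4 k36 3 (.d k164 k244 k180 11 3)))] .n) (.c k132 (.q k72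
  [(.s k60 k40 5 (.s k124 k188 7 (.s k68 k116 3 (.d k64 k104 k76 5 1)))), (.s k52 k196 11 (.s k4 k36
  3 (.s k244 k164 11 (.d k116 k68 k180 3 7))))] (.c k68 (.l (.s k60 k40 5 (.s k52 k196 11 (.s k4 k36
  3 (.s k244 k164 11 (.s k48 k56 1 (.d k116 k180 k184 7 9))))))) (.c k116 (.l (.s k60 k40 5 (.s k52
  k196 11 (.s k48 k56 1 (.s k16 k32 3 (.d k152 k204 k220 13 9)))))) .n))) .n))) (.c k132 (.q k72
  [(.s k60 k40 5 (.s k124 k188 7 (.s k68 k116 3 (.d k64 k104 k76 5 1)))), (.s k52 k196 11 (.s k4 k36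
  3 (.s k244 k164 11 (.d k116 k68 k180 3 7))))] (.c k66 (.q k129 [(.s k60 k40 5 (.s k124 k188 7 (.s
  k68 k116 3 (.d k64 k104 k76 5 1)))), (.s k52 k196 11 (.s k4 k36 3 (.s k244 k164 11 (.d k116 k68
  k180 3 7))))] (.c k68 (.l (.s k60 k40 5 (.s k52 k196 11 (.s k4 k36 3 (.s k244 k164 11 (.s k48 k56
  1 (.d k116 k180 k184 7 9))))))) (.c k116 (.l (.s k60 k40 5 (.s k52 k196 11 (.s k48 k56 1 (.s k16
  k32 3 (.d k152 k204 k220 13 9)))))) .n))) (.c k68 (.l (.s k60 k40 5 (.s k52 k196 11 (.s k4 k36 3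
  (.s k244 k164 11 (.s k48 k56 1 (.d k116 k180 k184 7 9))))))) (.c k116 (.l (.s k60 k40 5 (.s k52
  k196 11 (.s k48 k56 1 (.s k16 k32 3 (.d k152 k204 k220 13 9)))))) (.c k129 (.q k66 [(.s k60 k40 5
  (.s k124 k188 7 (.s k68 k116 3 (.d k64 k104 k76 5 1)))), (.s k52 k196 11 (.s k4 k36 3 (.s k244
  k164 11 (.d k116 k68 k180 3 7))))] (.c k68 (.l (.s k60 k40 5 (.s k52 k196 11 (.s k4 k36 3 (.s k244
  k164 11 (.s k48 k56 1 (.d k116 k180 k184 7 9))))))) (.c k116 (.l (.s k60 k40 5 (.s k52 k196 11 (.s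
  k48 k56 1 (.s k16 k32 3 (.d k152 k204 k220 13 9)))))) .n))) .n))))) .n))))) (.c k66 (.q k129 [(.s
  k52 k196 11 (.s k116 k68 3 (.s k244 k180 7 (.d k4 k36 k164 3 11)))), (.s k68 k116 3 (.s k204 k136
  9 (.s k152 k48 13 (.d k220 k236 k16 3 9)))), (.s k60 k40 5 (.s k52 k196 11 (.s k48 k56 1 (.s k16
  k32 3 (.d k152 k204 k220 13 9))))), (.s k60 k40 5 (.s k116 k68 3 (.s k48 k184 9 (.d k52 k56 k196 1
  11))))] (.c k6 (.q k9 [(.s k52 k196 11 (.s k116 k68 3 (.s k244 k180 7 (.d k4 k36 k164 3 11)))),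
  (.s k68 k116 3 (.s k204 k136 9 (.s k152 k48 13 (.d k220 k236 k16 3 9)))), (.s k60 k40 5 (.s k52
  k196 11 (.s k48 k56 1 (.s k16 k32 3 (.d k152 k204 k220 13 9))))), (.s k60 k40 5 (.s k116 k68 3 (.s
  k48 k184 9 (.d k52 k56 k196 1 11))))] (.c k72 (.q k132 [(.s k196 k52 11 (.d k68 k116 k4 3 7)), (.s
  k68 k116 3 (.s k204 k136 9 (.s k152 k48 13 (.d k220 k236 k16 3 9)))), (.s k52 k196 11 (.s k4 k36 3
  (.d k164 k244 k180 11 3)))] .n) (.c k132 (.q k72 [(.s k60 k40 5 (.s k124 k188 7 (.s k68 k116 3 (.d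
  k64 k104 k76 5 1)))), (.s k52 k196 11 (.s k4 k36 3 (.s k244 k164 11 (.d k116 k68 k180 3 7))))] (.c
  k68 (.l (.s k60 k40 5 (.s k52 k196 11 (.s k4 k36 3 (.s k244 k164 11 (.s k48 k56 1 (.d k116 k180
  k184 7 9))))))) (.c k116 (.l (.s k60 k40 5 (.s k52 k196 11 (.s k48 k56 1 (.s k16 k32 3 (.d k152
  k204 k220 13 9)))))) .n))) .n))) (.c k9 (.q k6 [(.s k52 k196 11 (.s k116 k68 3 (.s k244 k180 7 (.d
  k4 k36 k164 3 11)))), (.s k68 k116 3 (.s k204 k136 9 (.s k152 k48 13 (.d k220 k236 k16 3 9)))),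
  (.s k60 k40 5 (.s k52 k196 11 (.s k48 k56 1 (.s k16 k32 3 (.d k152 k204 k220 13 9))))), (.s k60
  k40 5 (.s k116 k68 3 (.s k48 k184 9 (.d k52 k56 k196 1 11))))] (.c k72 (.q k132 [(.s k196 k52 11
  (.d k68 k116 k4 3 7)), (.s k68 k116 3 (.s k204 k136 9 (.s k152 k48 13 (.d k220 k236 k16 3 9)))),
  (.s k52 k196 11 (.s k4 k36 3 (.d k164 k244 k180 11 3)))] .n) (.c k132 (.q k72 [(.s k60 k40 5 (.s
  k124 k188 7 (.s k68 k116 3 (.d k64 k104 k76 5 1)))), (.s k52 k196 11 (.s k4 k36 3 (.s k244 k164 11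
  (.d k116 k68 k180 3 7))))] (.c k68 (.l (.s k60 k40 5 (.s k52 k196 11 (.s k4 k36 3 (.s k244 k164 11
  (.s k48 k56 1 (.d k116 k180 k184 7 9))))))) (.c k116 (.l (.s k60 k40 5 (.s k52 k196 11 (.s k48 k56
  1 (.s k16 k32 3 (.d k152 k204 k220 13 9)))))) .n))) .n))) (.c k72 (.q k132 [(.s k196 k52 11 (.d
  k68 k116 k4 3 7)), (.s k68 k116 3 (.s k204 k136 9 (.s k152 k48 13 (.d k220 k236 k16 3 9)))), (.s
  k52 k196 11 (.s k4 k36 3 (.d k164 k244 k180 11 3)))] (.c k6 (.q k9 [(.s k196 k52 11 (.d k68 k116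
  k4 3 7)), (.s k68 k116 3 (.s k204 k136 9 (.s k152 k48 13 (.d k220 k236 k16 3 9)))), (.s k52 k196
  11 (.s k4 k36 3 (.d k164 k244 k180 11 3)))] .n) (.c k9 (.q k6 [(.s k196 k52 11 (.d k68 k116 k4 3
  7)), (.s k68 k116 3 (.s k204 k136 9 (.s k152 k48 13 (.d k220 k236 k16 3 9)))), (.s k52 k196 11 (.s
  k4 k36 3 (.d k164 k244 k180 11 3)))] .n) .n))) (.c k132 (.q k72 [(.s k60 k40 5 (.s k124 k188 7 (.s
  k68 k116 3 (.d k64 k104 k76 5 1)))), (.s k52 k196 11 (.s k4 k36 3 (.s k244 k164 11 (.d k116 k68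
  k180 3 7))))] (.c k6 (.q k9 [(.s k60 k40 5 (.s k124 k188 7 (.s k68 k116 3 (.d k64 k104 k76 5
  1)))), (.s k52 k196 11 (.s k4 k36 3 (.s k244 k164 11 (.d k116 k68 k180 3 7))))] (.c k68 (.l (.s
  k60 k40 5 (.s k52 k196 11 (.s k4 k36 3 (.s k244 k164 11 (.s k48 k56 1 (.d k116 k180 k184 7
  9))))))) (.c k116 (.l (.s k60 k40 5 (.s k52 k196 11 (.s k48 k56 1 (.s k16 k32 3 (.d k152 k204 k220
  13 9)))))) .n))) (.c k9 (.q k6 [(.s k60 k40 5 (.s k124 k188 7 (.s k68 k116 3 (.d k64 k104 k76 5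
  1)))), (.s k52 k196 11 (.s k4 k36 3 (.s k244 k164 11 (.d k116 k68 k180 3 7))))] (.c k68 (.l (.s
  k60 k40 5 (.s k52 k196 11 (.s k4 k36 3 (.s k244 k164 11 (.s k48 k56 1 (.d k116 k180 k184 7
  9))))))) (.c k116 (.l (.s k60 k40 5 (.s k52 k196 11 (.s k48 k56 1 (.s k16 k32 3 (.d k152 k204 k220
  13 9)))))) .n))) (.c k68 (.l (.s k60 k40 5 (.s k52 k196 11 (.s k4 k36 3 (.s k244 k164 11 (.s k48
  k56 1 (.d k116 k180 k184 7 9))))))) (.c k116 (.l (.s k60 k40 5 (.s k52 k196 11 (.s k48 k56 1 (.s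
  k16 k32 3 (.d k152 k204 k220 13 9)))))) .n))))) .n))))) (.c k72 (.q k132 [(.s k196 k52 11 (.d k68
  k116 k4 3 7)), (.s k68 k116 3 (.s k204 k136 9 (.s k152 k48 13 (.d k220 k236 k16 3 9)))), (.s k52
  k196 11 (.s k4 k36 3 (.d k164 k244 k180 11 3)))] (.c k6 (.q k9 [(.s k196 k52 11 (.d k68 k116 k4 3
  7)), (.s k68 k116 3 (.s k204 k136 9 (.s k152 k48 13 (.d k220 k236 k16 3 9)))), (.s k52 k196 11 (.s
  k4 k36 3 (.d k164 k244 k180 11 3)))] (.c k66 (.q k129 [(.s k196 k52 11 (.d k68 k116 k4 3 7)), (.s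
  k68 k116 3 (.s k204 k136 9 (.s k152 k48 13 (.d k220 k236 k16 3 9)))), (.s k52 k196 11 (.s k4 k36 3
  (.d k164 k244 k180 11 3)))] .n) (.c k129 (.q k66 [(.s k196 k52 11 (.d k68 k116 k4 3 7)), (.s k68
  k116 3 (.s k204 k136 9 (.s k152 k48 13 (.d k220 k236 k16 3 9)))), (.s k52 k196 11 (.s k4 k36 3 (.d
  k164 k244 k180 11 3)))] .n) .n))) (.c k9 (.q k6 [(.s k196 k52 11 (.d k68 k116 k4 3 7)), (.s k68
  k116 3 (.s k204 k136 9 (.s k152 k48 13 (.d k220 k236 k16 3 9)))), (.s k52 k196 11 (.s k4 k36 3 (.d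
  k164 k244 k180 11 3)))] (.c k66 (.q k129 [(.s k196 k52 11 (.d k68 k116 k4 3 7)), (.s k68 k116 3
  (.s k204 k136 9 (.s k152 k48 13 (.d k220 k236 k16 3 9)))), (.s k52 k196 11 (.s k4 k36 3 (.d k164
  k244 k180 11 3)))] .n) (.c k129 (.q k66 [(.s k196 k52 11 (.d k68 k116 k4 3 7)), (.s k68 k116 3 (.s
  k204 k136 9 (.s k152 k48 13 (.d k220 k236 k16 3 9)))), (.s k52 k196 11 (.s k4 k36 3 (.d k164 k244
  k180 11 3)))] .n) .n))) (.c k66 (.q k129 [(.s k196 k52 11 (.d k68 k116 k4 3 7)), (.s k68 k116 3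
  (.s k204 k136 9 (.s k152 k48 13 (.d k220 k236 k16 3 9)))), (.s k52 k196 11 (.s k4 k36 3 (.d k164
  k244 k180 11 3)))] (.c k6 (.q k9 [(.s k196 k52 11 (.d k68 k116 k4 3 7)), (.s k68 k116 3 (.s k204
  k136 9 (.s k152 k48 13 (.d k220 k236 k16 3 9)))), (.s k52 k196 11 (.s k4 k36 3 (.d k164 k244 k180
  11 3)))] .n) (.c k9 (.q k6 [(.s k196 k52 11 (.d k68 k116 k4 3 7)), (.s k68 k116 3 (.s k204 k136 9
  (.s k152 k48 13 (.d k220 k236 k16 3 9)))), (.s k52 k196 11 (.s k4 k36 3 (.d k164 k244 k180 11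
  3)))] .n) .n))) (.c k129 (.q k66 [(.s k196 k52 11 (.d k68 k116 k4 3 7)), (.s k68 k116 3 (.s k204
  k136 9 (.s k152 k48 13 (.d k220 k236 k16 3 9)))), (.s k52 k196 11 (.s k4 k36 3 (.d k164 k244 k180
  11 3)))] (.c k6 (.q k9 [(.s k196 k52 11 (.d k68 k116 k4 3 7)), (.s k68 k116 3 (.s k204 k136 9 (.s
  k152 k48 13 (.d k220 k236 k16 3 9)))), (.s k52 k196 11 (.s k4 k36 3 (.d k164 k244 k180 11 3)))]
  .n) (.c k9 (.q k6 [(.s k196 k52 11 (.d k68 k116 k4 3 7)), (.s k68 k116 3 (.s k204 k136 9 (.s k152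
  k48 13 (.d k220 k236 k16 3 9)))), (.s k52 k196 11 (.s k4 k36 3 (.d k164 k244 k180 11 3)))] .n)
  .n))) .n))))) (.c k129 (.q k66 [(.s k52 k196 11 (.s k116 k68 3 (.s k244 k180 7 (.d k4 k36 k164 3
  11)))), (.s k68 k116 3 (.s k204 k136 9 (.s k152 k48 13 (.d k220 k236 k16 3 9)))), (.s k60 k40 5
  (.s k52 k196 11 (.s k48 k56 1 (.s k16 k32 3 (.d k152 k204 k220 13 9))))), (.s k60 k40 5 (.s k116
  k68 3 (.s k48 k184 9 (.d k52 k56 k196 1 11))))] (.c k6 (.q k9 [(.s k52 k196 11 (.s k116 k68 3 (.s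
  k244 k180 7 (.d k4 k36 k164 3 11)))), (.s k68 k116 3 (.s k204 k136 9 (.s k152 k48 13 (.d k220 k236
  k16 3 9)))), (.s k60 k40 5 (.s k52 k196 11 (.s k48 k56 1 (.s k16 k32 3 (.d k152 k204 k220 13
  9))))), (.s k60 k40 5 (.s k116 k68 3 (.s k48 k184 9 (.d k52 k56 k196 1 11))))] (.c k72 (.q k132
  [(.s k196 k52 11 (.d k68 k116 k4 3 7)), (.s k68 k116 3 (.s k204 k136 9 (.s k152 k48 13 (.d k220
  k236 k16 3 9)))), (.s k52 k196 11 (.s k4 k36 3 (.d k164 k244 k180 11 3)))] .n) (.c k132 (.q k72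
  [(.s k60 k40 5 (.s k124 k188 7 (.s k68 k116 3 (.d k64 k104 k76 5 1)))), (.s k52 k196 11 (.s k4 k36
  3 (.s k244 k164 11 (.d k116 k68 k180 3 7))))] (.c k68 (.l (.s k60 k40 5 (.s k52 k196 11 (.s k4 k36
  3 (.s k244 k164 11 (.s k48 k56 1 (.d k116 k180 k184 7 9))))))) (.c k116 (.l (.s k60 k40 5 (.s k52
  k196 11 (.s k48 k56 1 (.s k16 k32 3 (.d k152 k204 k220 13 9)))))) .n))) .n))) (.c k9 (.q k6 [(.s
  k52 k196 11 (.s k116 k68 3 (.s k244 k180 7 (.d k4 k36 k164 3 11)))), (.s k68 k116 3 (.s k204 k136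
  9 (.s k152 k48 13 (.d k220 k236 k16 3 9)))), (.s k60 k40 5 (.s k52 k196 11 (.s k48 k56 1 (.s k16
  k32 3 (.d k152 k204 k220 13 9))))), (.s k60 k40 5 (.s k116 k68 3 (.s k48 k184 9 (.d k52 k56 k196 1
  11))))] (.c k72 (.q k132 [(.s k196 k52 11 (.d k68 k116 k4 3 7)), (.s k68 k116 3 (.s k204 k136 9
  (.s k152 k48 13 (.d k220 k236 k16 3 9)))), (.s k52 k196 11 (.s k4 k36 3 (.d k164 k244 k180 11
  3)))] .n) (.c k132 (.q k72 [(.s k60 k40 5 (.s k124 k188 7 (.s k68 k116 3 (.d k64 k104 k76 5 1)))),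
  (.s k52 k196 11 (.s k4 k36 3 (.s k244 k164 11 (.d k116 k68 k180 3 7))))] (.c k68 (.l (.s k60 k40 5
  (.s k52 k196 11 (.s k4 k36 3 (.s k244 k164 11 (.s k48 k56 1 (.d k116 k180 k184 7 9))))))) (.c k116
  (.l (.s k60 k40 5 (.s k52 k196 11 (.s k48 k56 1 (.s k16 k32 3 (.d k152 k204 k220 13 9)))))) .n)))
  .n))) (.c k72 (.q k132 [(.s k196 k52 11 (.d k68 k116 k4 3 7)), (.s k68 k116 3 (.s k204 k136 9 (.s
  k152 k48 13 (.d k220 k236 k16 3 9)))), (.s k52 k196 11 (.s k4 k36 3 (.d k164 k244 k180 11 3)))]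
  (.c k6 (.q k9 [(.s k196 k52 11 (.d k68 k116 k4 3 7)), (.s k68 k116 3 (.s k204 k136 9 (.s k152 k48
  13 (.d k220 k236 k16 3 9)))), (.s k52 k196 11 (.s k4 k36 3 (.d k164 k244 k180 11 3)))] .n) (.c k9
  (.q k6 [(.s k196 k52 11 (.d k68 k116 k4 3 7)), (.s k68 k116 3 (.s k204 k136 9 (.s k152 k48 13 (.d
  k220 k236 k16 3 9)))), (.s k52 k196 11 (.s k4 k36 3 (.d k164 k244 k180 11 3)))] .n) .n))) (.c k132
  (.q k72 [(.s k60 k40 5 (.s k124 k188 7 (.s k68 k116 3 (.d k64 k104 k76 5 1)))), (.s k52 k196 11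
  (.s k4 k36 3 (.s k244 k164 11 (.d k116 k68 k180 3 7))))] (.c k6 (.q k9 [(.s k60 k40 5 (.s k124
  k188 7 (.s k68 k116 3 (.d k64 k104 k76 5 1)))), (.s k52 k196 11 (.s k4 k36 3 (.s k244 k164 11 (.d
  k116 k68 k180 3 7))))] (.c k68 (.l (.s k60 k40 5 (.s k52 k196 11 (.s k4 k36 3 (.s k244 k164 11 (.s
  k48 k56 1 (.d k116 k180 k184 7 9))))))) (.c k116 (.l (.s k60 k40 5 (.s k52 k196 11 (.s k48 k56 1
  (.s k16 k32 3 (.d k152 k204 k220 13 9)))))) .n))) (.c k9 (.q k6 [(.s k60 k40 5 (.s k124 k188 7 (.s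
  k68 k116 3 (.d k64 k104 k76 5 1)))), (.s k52 k196 11 (.s k4 k36 3 (.s k244 k164 11 (.d k116 k68
  k180 3 7))))] (.c k68 (.l (.s k60 k40 5 (.s k52 k196 11 (.s k4 k36 3 (.s k244 k164 11 (.s k48 k56
  1 (.d k116 k180 k184 7 9))))))) (.c k116 (.l (.s k60 k40 5 (.s k52 k196 11 (.s k48 k56 1 (.s k16
  k32 3 (.d k152 k204 k220 13 9)))))) .n))) (.c k68 (.l (.s k60 k40 5 (.s k52 k196 11 (.s k4 k36 3
  (.s k244 k164 11 (.s k48 k56 1 (.d k116 k180 k184 7 9))))))) (.c k116 (.l (.s k60 k40 5 (.s k52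
  k196 11 (.s k48 k56 1 (.s k16 k32 3 (.d k152 k204 k220 13 9)))))) .n))))) .n))))) (.c k132 (.q k72
  [(.s k60 k40 5 (.s k124 k188 7 (.s k68 k116 3 (.d k64 k104 k76 5 1)))), (.s k52 k196 11 (.s k4 k36
  3 (.s k244 k164 11 (.d k116 k68 k180 3 7))))] (.c k6 (.q k9 [(.s k60 k40 5 (.s k124 k188 7 (.s k68
  k116 3 (.d k64 k104 k76 5 1)))), (.s k52 k196 11 (.s k4 k36 3 (.s k244 k164 11 (.d k116 k68 k180 3
  7))))] (.c k66 (.q k129 [(.s k60 k40 5 (.s k124 k188 7 (.s k68 k116 3 (.d k64 k104 k76 5 1)))),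
  (.s k52 k196 11 (.s k4 k36 3 (.s k244 k164 11 (.d k116 k68 k180 3 7))))] (.c k68 (.l (.s k60 k40 5
  (.s k52 k196 11 (.s k4 k36 3 (.s k244 k164 11 (.s k48 k56 1 (.d k116 k180 k184 7 9))))))) (.c k116
  (.l (.s k60 k40 5 (.s k52 k196 11 (.s k48 k56 1 (.s k16 k32 3 (.d k152 k204 k220 13 9)))))) .n)))
  (.c k68 (.l (.s k60 k40 5 (.s k52 k196 11 (.s k4 k36 3 (.s k244 k164 11 (.s k48 k56 1 (.d k116
  k180 k184 7 9))))))) (.c k116 (.l (.s k60 k40 5 (.s k52 k196 11 (.s k48 k56 1 (.s k16 k32 3 (.d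
  k152 k204 k220 13 9)))))) (.c k129 (.q k66 [(.s k60 k40 5 (.s k124 k188 7 (.s k68 k116 3 (.d k64
  k104 k76 5 1)))), (.s k52 k196 11 (.s k4 k36 3 (.s k244 k164 11 (.d k116 k68 k180 3 7))))] (.c k68
  (.l (.s k60 k40 5 (.s k52 k196 11 (.s k4 k36 3 (.s k244 k164 11 (.s k48 k56 1 (.d k116 k180 k184 7
  9))))))) (.c k116 (.l (.s k60 k40 5 (.s k52 k196 11 (.s k48 k56 1 (.s k16 k32 3 (.d k152 k204 k220
  13 9)))))) .n))) .n))))) (.c k9 (.q k6 [(.s k60 k40 5 (.s k124 k188 7 (.s k68 k116 3 (.d k64 k104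
  k76 5 1)))), (.s k52 k196 11 (.s k4 k36 3 (.s k244 k164 11 (.d k116 k68 k180 3 7))))] (.c k66 (.q
  k129 [(.s k60 k40 5 (.s k124 k188 7 (.s k68 k116 3 (.d k64 k104 k76 5 1)))), (.s k52 k196 11 (.s
  k4 k36 3 (.s k244 k164 11 (.d k116 k68 k180 3 7))))] (.c k68 (.l (.s k60 k40 5 (.s k52 k196 11 (.s
  k4 k36 3 (.s k244 k164 11 (.s k48 k56 1 (.d k116 k180 k184 7 9))))))) (.c k116 (.l (.s k60 k40 5
  (.s k52 k196 11 (.s k48 k56 1 (.s k16 k32 3 (.d k152 k204 k220 13 9)))))) .n))) (.c k68 (.l (.s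
  k60 k40 5 (.s k52 k196 11 (.s k4 k36 3 (.s k244 k164 11 (.s k48 k56 1 (.d k116 k180 k184 7
  9))))))) (.c k116 (.l (.s k60 k40 5 (.s k52 k196 11 (.s k48 k56 1 (.s k16 k32 3 (.d k152 k204 k220
  13 9)))))) (.c k129 (.q k66 [(.s k60 k40 5 (.s k124 k188 7 (.s k68 k116 3 (.d k64 k104 k76 5
  1)))), (.s k52 k196 11 (.s k4 k36 3 (.s k244 k164 11 (.d k116 k68 k180 3 7))))] (.c k68 (.l (.s
  k60 k40 5 (.s k52 k196 11 (.s k4 k36 3 (.s k244 k164 11 (.s k48 k56 1 (.d k116 k180 k184 7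
  9))))))) (.c k116 (.l (.s k60 k40 5 (.s k52 k196 11 (.s k48 k56 1 (.s k16 k32 3 (.d k152 k204 k220
  13 9)))))) .n))) .n))))) (.c k66 (.q k129 [(.s k60 k40 5 (.s k124 k188 7 (.s k68 k116 3 (.d k64
  k104 k76 5 1)))), (.s k52 k196 11 (.s k4 k36 3 (.s k244 k164 11 (.d k116 k68 k180 3 7))))] (.c k6
  (.q k9 [(.s k60 k40 5 (.s k124 k188 7 (.s k68 k116 3 (.d k64 k104 k76 5 1)))), (.s k52 k196 11 (.s
  k4 k36 3 (.s k244 k164 11 (.d k116 k68 k180 3 7))))] (.c k68 (.l (.s k60 k40 5 (.s k52 k196 11 (.s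
  k4 k36 3 (.s k244 k164 11 (.s k48 k56 1 (.d k116 k180 k184 7 9))))))) (.c k116 (.l (.s k60 k40 5
  (.s k52 k196 11 (.s k48 k56 1 (.s k16 k32 3 (.d k152 k204 k220 13 9)))))) .n))) (.c k9 (.q k6 [(.s
  k60 k40 5 (.s k124 k188 7 (.s k68 k116 3 (.d k64 k104 k76 5 1)))), (.s k52 k196 11 (.s k4 k36 3
  (.s k244 k164 11 (.d k116 k68 k180 3 7))))] (.c k68 (.l (.s k60 k40 5 (.s k52 k196 11 (.s k4 k36 3
  (.s k244 k164 11 (.s k48 k56 1 (.d k116 k180 k184 7 9))))))) (.c k116 (.l (.s k60 k40 5 (.s k52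
  k196 11 (.s k48 k56 1 (.s k16 k32 3 (.d k152 k204 k220 13 9)))))) .n))) (.c k68 (.l (.s k60 k40 5
  (.s k52 k196 11 (.s k4 k36 3 (.s k244 k164 11 (.s k48 k56 1 (.d k116 k180 k184 7 9))))))) (.c k116
  (.l (.s k60 k40 5 (.s k52 k196 11 (.s k48 k56 1 (.s k16 k32 3 (.d k152 k204 k220 13 9))))))
  .n))))) (.c k68 (.l (.s k60 k40 5 (.s k52 k196 11 (.s k4 k36 3 (.s k244 k164 11 (.s k48 k56 1 (.d
  k116 k180 k184 7 9))))))) (.c k116 (.l (.s k60 k40 5 (.s k52 k196 11 (.s k48 k56 1 (.s k16 k32 3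
  (.d k152 k204 k220 13 9)))))) (.c k129 (.q k66 [(.s k60 k40 5 (.s k124 k188 7 (.s k68 k116 3 (.d
  k64 k104 k76 5 1)))), (.s k52 k196 11 (.s k4 k36 3 (.s k244 k164 11 (.d k116 k68 k180 3 7))))] (.c
  k6 (.q k9 [(.s k60 k40 5 (.s k124 k188 7 (.s k68 k116 3 (.d k64 k104 k76 5 1)))), (.s k52 k196 11
  (.s k4 k36 3 (.s k244 k164 11 (.d k116 k68 k180 3 7))))] (.c k68 (.l (.s k60 k40 5 (.s k52 k196 11
  (.s k4 k36 3 (.s k244 k164 11 (.s k48 k56 1 (.d k116 k180 k184 7 9))))))) (.c k116 (.l (.s k60 k40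
  5 (.s k52 k196 11 (.s k48 k56 1 (.s k16 k32 3 (.d k152 k204 k220 13 9)))))) .n))) (.c k9 (.q k6
  [(.s k60 k40 5 (.s k124 k188 7 (.s k68 k116 3 (.d k64 k104 k76 5 1)))), (.s k52 k196 11 (.s k4 k36
  3 (.s k244 k164 11 (.d k116 k68 k180 3 7))))] (.c k68 (.l (.s k60 k40 5 (.s k52 k196 11 (.s k4 k36
  3 (.s k244 k164 11 (.s k48 k56 1 (.d k116 k180 k184 7 9))))))) (.c k116 (.l (.s k60 k40 5 (.s k52
  k196 11 (.s k48 k56 1 (.s k16 k32 3 (.d k152 k204 k220 13 9)))))) .n))) (.c k68 (.l (.s k60 k40 5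
  (.s k52 k196 11 (.s k4 k36 3 (.s k244 k164 11 (.s k48 k56 1 (.d k116 k180 k184 7 9))))))) (.c k116
  (.l (.s k60 k40 5 (.s k52 k196 11 (.s k48 k56 1 (.s k16 k32 3 (.d k152 k204 k220 13 9))))))
  .n))))) .n))))))) .n)))))))) (.c k212 (.q k100 [(.s k68 k116 3 (.s k204 k136 9 (.s k220 k236 3 (.d
  k152 k16 k48 9 13)))), (.s k52 k196 11 (.s k116 k68 3 (.s k244 k180 7 (.s k4 k164 11 (.s k20 k36 3
  (.s k60 k40 5 (.d k48 k56 k184 1 9)))))))] (.c k6 (.q k9 [(.s k68 k116 3 (.s k204 k136 9 (.s k220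
  k236 3 (.d k152 k16 k48 9 13)))), (.s k52 k196 11 (.s k116 k68 3 (.s k244 k180 7 (.s k4 k164 11
  (.s k20 k36 3 (.s k60 k40 5 (.d k48 k56 k184 1 9)))))))] (.c k48 (.l (.s k196 k52 11 (.s k68 k116
  3 (.s k204 k136 9 (.s k192 k200 1 (.s k64 k128 7 (.d k104 k60 k124 13 5))))))) (.c k68 (.q k60
  [(.s k124 k188 7 (.d k104 k64 k192 5 13)), (.s k52 k196 11 (.s k48 k56 1 (.s k16 k32 3 (.d k152
  k220 k204 9 13))))] .n) (.c k116 (.q k60 [(.s k124 k188 7 (.d k104 k64 k192 5 13)), (.s k52 k196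
  11 (.s k48 k56 1 (.s k16 k32 3 (.d k152 k220 k204 9 13))))] .n) (.c k184 (.l (.s k68 k116 3 (.s
  k204 k136 9 (.s k152 k48 13 (.d k220 k236 k16 3 9))))) .n))))) (.c k9 (.q k6 [(.s k68 k116 3 (.s
  k204 k136 9 (.s k220 k236 3 (.d k152 k16 k48 9 13)))), (.s k52 k196 11 (.s k116 k68 3 (.s k244
  k180 7 (.s k4 k164 11 (.s k20 k36 3 (.s k60 k40 5 (.d k48 k56 k184 1 9)))))))] (.c k48 (.l (.s
  k196 k52 11 (.s k68 k116 3 (.s k204 k136 9 (.s k192 k200 1 (.s k64 k128 7 (.d k104 k60 k124 13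
  5))))))) (.c k68 (.q k60 [(.s k124 k188 7 (.d k104 k64 k192 5 13)), (.s k52 k196 11 (.s k48 k56 1
  (.s k16 k32 3 (.d k152 k220 k204 9 13))))] .n) (.c k116 (.q k60 [(.s k124 k188 7 (.d k104 k64 k192
  5 13)), (.s k52 k196 11 (.s k48 k56 1 (.s k16 k32 3 (.d k152 k220 k204 9 13))))] .n) (.c k184 (.l
  (.s k68 k116 3 (.s k204 k136 9 (.s k152 k48 13 (.d k220 k236 k16 3 9))))) .n))))) (.c k48 (.l (.s
  k196 k52 11 (.s k68 k116 3 (.s k204 k136 9 (.s k192 k200 1 (.s k64 k128 7 (.d k104 k60 k124 13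
  5))))))) (.c k68 (.q k60 [(.s k124 k188 7 (.d k104 k64 k192 5 13)), (.s k52 k196 11 (.s k48 k56 1
  (.s k16 k32 3 (.d k152 k220 k204 9 13))))] (.c k6 (.q k9 [(.s k124 k188 7 (.d k104 k64 k192 5
  13)), (.s k52 k196 11 (.s k48 k56 1 (.s k16 k32 3 (.d k152 k220 k204 9 13))))] .n) (.c k9 (.q k6
  [(.s k124 k188 7 (.d k104 k64 k192 5 13)), (.s k52 k196 11 (.s k48 k56 1 (.s k16 k32 3 (.d k152
  k220 k204 9 13))))] .n) .n))) (.c k116 (.q k60 [(.s k124 k188 7 (.d k104 k64 k192 5 13)), (.s k52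
  k196 11 (.s k48 k56 1 (.s k16 k32 3 (.d k152 k220 k204 9 13))))] (.c k6 (.q k9 [(.s k124 k188 7
  (.d k104 k64 k192 5 13)), (.s k52 k196 11 (.s k48 k56 1 (.s k16 k32 3 (.d k152 k220 k204 9 13))))]
  .n) (.c k9 (.q k6 [(.s k124 k188 7 (.d k104 k64 k192 5 13)), (.s k52 k196 11 (.s k48 k56 1 (.s k16
  k32 3 (.d k152 k220 k204 9 13))))] .n) .n))) (.c k184 (.l (.s k68 k116 3 (.s k204 k136 9 (.s k152
  k48 13 (.d k220 k236 k16 3 9))))) .n))))))) (.c k232 (.l (.s k20 k212 7 (.s k60 k40 5 (.s k104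
  k192 13 (.d k124 k64 k188 5 7))))) .n))))))))))))))

def t13 : T TT 256 :=
  (.f k84 k168 13 (.q k12 [(.s k4 k8 1 (.s k164 k244 11 (.s k92 k172 11 (.d k88 k80 k240 1 13))))]
  (.c k4 (.q k16 [(.s k48 k32 3 (.s k152 k220 9 (.s k116 k184 9 (.d k100 k68 k204 3 13)))), (.s k92
  k172 11 (.s k220 k152 9 (.s k28 k156 7 (.s k60 k44 3 (.d k20 k24 k40 1 5))))), (.s k92 k172 11 (.s
  k152 k220 9 (.s k88 k80 1 (.s k24 k216 7 (.d k48 k32 k36 3 5))))), (.s k48 k32 3 (.s k36 k24 5 (.s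
  k92 k172 11 (.s k88 k80 1 (.s k164 k240 13 (.s k100 k228 7 (.d k116 k68 k184 3 9)))))))] .n) (.c
  k8 (.q k16 [(.s k48 k32 3 (.s k152 k220 9 (.s k116 k184 9 (.d k100 k68 k204 3 13)))), (.s k92 k172
  11 (.s k220 k152 9 (.s k28 k156 7 (.s k60 k44 3 (.d k20 k24 k40 1 5))))), (.s k92 k172 11 (.s k152
  k220 9 (.s k88 k80 1 (.s k24 k216 7 (.d k48 k32 k36 3 5))))), (.s k48 k32 3 (.s k36 k24 5 (.s k92
  k172 11 (.s k88 k80 1 (.s k164 k240 13 (.s k100 k228 7 (.d k116 k68 k184 3 9)))))))] (.c k88 (.q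
  k248 [(.s k48 k32 3 (.s k152 k220 9 (.s k116 k184 9 (.d k100 k68 k204 3 13)))), (.s k92 k172 11
  (.s k220 k152 9 (.s k28 k156 7 (.s k60 k44 3 (.d k20 k24 k40 1 5))))), (.s k48 k32 3 (.s k24 k36 5
  (.s k20 k28 1 (.s k184 k116 9 (.s k56 k120 7 (.d k60 k40 k52 5 1))))))] (.c k184 (.l (.s k48 k32 3
  (.s k24 k36 5 (.s k92 k172 11 (.s k28 k20 1 (.d k220 k156 k152 7 9)))))) (.c k236 (.l (.s k152
  k220 9 (.s k48 k32 3 (.s k100 k204 13 (.d k116 k68 k184 3 9))))) .n))) (.c k248 (.q k88 [(.d k92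
  k80 k172 1 11), (.s k48 k32 3 (.s k24 k36 5 (.d k152 k216 k220 7 9)))] .n) .n))) (.c k80 (.q k16
  [(.s k48 k32 3 (.s k152 k220 9 (.s k116 k184 9 (.d k100 k68 k204 3 13)))), (.s k92 k172 11 (.s
  k220 k152 9 (.s k28 k156 7 (.s k60 k44 3 (.d k20 k24 k40 1 5))))), (.s k8 k4 1 (.s k48 k32 3 (.s
  k24 k36 5 (.s k40 k56 3 (.d k20 k28 k60 1 5)))))] (.c k236 (.l (.s k152 k220 9 (.s k48 k32 3 (.s
  k100 k204 13 (.d k116 k68 k184 3 9))))) .n)) (.c k88 (.q k16 [(.s k48 k32 3 (.s k152 k220 9 (.s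
  k116 k184 9 (.d k100 k68 k204 3 13)))), (.s k92 k172 11 (.s k220 k152 9 (.s k28 k156 7 (.s k60 k44
  3 (.d k20 k24 k40 1 5))))), (.s k8 k4 1 (.s k48 k32 3 (.s k24 k36 5 (.s k40 k56 3 (.d k20 k28 k60
  1 5)))))] (.c k8 (.q k248 [(.s k48 k32 3 (.s k152 k220 9 (.s k116 k184 9 (.d k100 k68 k204 3
  13)))), (.s k92 k172 11 (.s k220 k152 9 (.s k28 k156 7 (.s k60 k44 3 (.d k20 k24 k40 1 5))))), (.s
  k48 k32 3 (.s k24 k36 5 (.s k20 k28 1 (.s k184 k116 9 (.s k56 k120 7 (.d k60 k40 k52 5 1))))))]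
  (.c k184 (.l (.s k48 k32 3 (.s k24 k36 5 (.s k92 k172 11 (.s k28 k20 1 (.d k220 k156 k152 7
  9)))))) (.c k236 (.l (.s k152 k220 9 (.s k48 k32 3 (.s k100 k204 13 (.d k116 k68 k184 3 9)))))
  .n))) (.c k236 (.l (.s k152 k220 9 (.s k48 k32 3 (.s k100 k204 13 (.d k116 k68 k184 3 9))))) (.c
  k248 (.l (.s k8 k4 1 (.s k48 k32 3 (.s k24 k36 5 (.s k40 k56 3 (.d k20 k28 k60 1 5)))))) .n))))
  (.c k92 (.q k16 [(.s k48 k32 3 (.s k116 k184 9 (.s k100 k68 3 (.d k152 k220 k204 9 13)))), (.s k4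
  k8 1 (.s k164 k244 11 (.s k88 k240 13 (.s k152 k220 9 (.s k24 k216 7 (.s k36 k48 5 (.d k20 k28 k52
  1 3))))))), (.s k8 k4 1 (.s k48 k32 3 (.s k24 k36 5 (.s k40 k56 3 (.d k20 k28 k60 1 5)))))] (.c
  k48 (.l (.s k8 k4 1 (.s k220 k152 9 (.s k204 k236 3 (.s k136 k68 9 (.s k72 k200 7 (.s k132 k192 9
  (.d k140 k128 k76 1 7)))))))) .n)) (.c k164 (.q k20 [(.s k60 k40 5 (.s k148 k212 7 (.s k124 k188 7
  (.d k104 k64 k192 5 13)))), (.s k4 k8 1 (.s k36 k52 3 (.s k48 k24 5 (.s k16 k32 3 (.s k152 k220 9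
  (.s k100 k204 13 (.d k116 k68 k184 3 9)))))))] (.c k40 (.l (.s k4 k8 1 (.s k36 k52 3 (.s k24 k48 5
  (.s k16 k28 1 (.s k152 k220 9 (.s k88 k216 7 (.d k92 k80 k172 1 11)))))))) (.c k160 (.l (.s k172
  k92 11 (.s k60 k40 5 (.s k148 k212 7 (.s k104 k192 13 (.d k124 k64 k188 5 7)))))) (.c k172 (.q
  k160 [(.s k60 k40 5 (.s k148 k212 7 (.s k104 k192 13 (.d k124 k64 k188 5 7)))), (.s k4 k8 1 (.s
  k80 k240 11 (.s k36 k52 3 (.s k24 k48 5 (.s k16 k28 1 (.s k152 k220 9 (.d k88 k92 k216 1 7)))))))]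
  (.c k60 (.l (.s k4 k8 1 (.s k80 k240 11 (.s k36 k52 3 (.s k148 k212 7 (.s k88 k92 1 (.s k28 k208 9
  (.d k24 k48 k16 5 1)))))))) .n)) .n)))) (.c k172 (.q k20 [(.s k60 k40 5 (.s k148 k212 7 (.s k104
  k192 13 (.d k124 k64 k188 5 7)))), (.s k4 k8 1 (.s k36 k52 3 (.s k164 k244 11 (.s k100 k228 7 (.s
  k116 k68 3 (.d k48 k24 k184 5 9))))))] (.c k160 (.q k164 [(.d k4 k8 k244 1 11), (.s k60 k40 5 (.s
  k28 k44 3 (.s k88 k240 13 (.d k148 k212 k208 7 9))))] .n) (.c k164 (.q k160 [(.s k60 k40 5 (.s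
  k148 k212 7 (.s k104 k192 13 (.d k124 k64 k188 5 7)))), (.s k4 k8 1 (.s k80 k240 11 (.s k36 k52 3
  (.s k24 k48 5 (.s k16 k28 1 (.s k152 k220 9 (.d k88 k92 k216 1 7)))))))] (.c k60 (.l (.s k4 k8 1
  (.s k80 k240 11 (.s k36 k52 3 (.s k148 k212 7 (.s k88 k92 1 (.s k28 k208 9 (.d k24 k48 k16 5
  1)))))))) .n)) (.c k212 (.l (.s k4 k8 1 (.s k40 k60 5 (.s k36 k52 3 (.s k48 k24 5 (.d k32 k44 k16
  1 3)))))) .n)))) (.c k240 (.q k16 [(.s k48 k32 3 (.s k152 k220 9 (.s k116 k184 9 (.d k100 k68 k204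
  3 13)))), (.s k92 k172 11 (.s k220 k152 9 (.s k28 k156 7 (.s k60 k44 3 (.d k20 k24 k40 1 5))))),
  (.s k8 k4 1 (.s k48 k32 3 (.s k24 k36 5 (.s k40 k56 3 (.d k20 k28 k60 1 5)))))] (.c k82 (.q k161
  [(.s k48 k32 3 (.s k152 k220 9 (.s k116 k184 9 (.d k100 k68 k204 3 13)))), (.s k92 k172 11 (.s
  k220 k152 9 (.s k28 k156 7 (.s k60 k44 3 (.d k20 k24 k40 1 5))))), (.s k8 k4 1 (.s k48 k32 3 (.s
  k24 k36 5 (.s k40 k56 3 (.d k20 k28 k60 1 5)))))] (.c k236 (.l (.s k152 k220 9 (.s k48 k32 3 (.s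
  k100 k204 13 (.d k116 k68 k184 3 9))))) .n)) (.c k161 (.q k82 [(.s k48 k32 3 (.s k152 k220 9 (.s
  k116 k184 9 (.d k100 k68 k204 3 13)))), (.s k92 k172 11 (.s k220 k152 9 (.s k28 k156 7 (.s k60 k44
  3 (.d k20 k24 k40 1 5))))), (.s k8 k4 1 (.s k48 k32 3 (.s k24 k36 5 (.s k40 k56 3 (.d k20 k28 k60
  1 5)))))] (.c k236 (.l (.s k152 k220 9 (.s k48 k32 3 (.s k100 k204 13 (.d k116 k68 k184 3 9)))))
  .n)) (.c k236 (.l (.s k152 k220 9 (.s k48 k32 3 (.s k100 k204 13 (.d k116 k68 k184 3 9))))) .n))))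
  (.c k244 (.q k16 [(.s k48 k32 3 (.s k152 k220 9 (.s k116 k184 9 (.d k100 k68 k204 3 13)))), (.s
  k92 k172 11 (.s k220 k152 9 (.s k28 k156 7 (.s k60 k44 3 (.d k20 k24 k40 1 5))))), (.s k8 k4 1 (.s
  k48 k32 3 (.s k24 k36 5 (.s k40 k56 3 (.d k20 k28 k60 1 5)))))] (.c k236 (.l (.s k152 k220 9 (.s
  k48 k32 3 (.s k100 k204 13 (.d k116 k68 k184 3 9))))) .n)) (.c k248 (.l (.s k92 k172 11 (.s k4 k8
  1 (.s k88 k80 1 (.d k164 k244 k240 11 13))))) .n))))))))))))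

theorem c1 : rootOK2 k252 k3 k1 t1 = true := by decide +kernel

theorem c4 : rootOK2 k252 k3 k4 t4 = true := by decide +kernel

theorem c5 : rootOK2 k252 k3 k5 t5 = true := by decide +kernel

theorem c6 : rootOK2 k252 k3 k6 t6 = true := by decide +kernel

theorem c7 : rootOK2 k252 k3 k7 t7 = true := by decide +kernel

theorem c12 : rootOK2 k252 k3 k12 t12 = true := by decide +kernel

theorem c13 : rootOK2 k252 k3 k13 t13 = true := by decide +kernel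

def l : List Nat :=
  [k1.c, k4.c, k5.c, k6.c, k7.c, k12.c, k13.c]

theorem ok : AllQ k252.c k3.c l :=
  allQ_cons c1 (allQ_cons c4 (allQ_cons c5 (allQ_cons c6 (allQ_cons c7 (allQ_cons c12 (
  allQ_cons c13 (allQ_nil _ _)))))))

end Pool.Agent.TTT.C01
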