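import Pool.Agent.TTT.Sym2

set_option autoImplicit false
set_option maxRecDepth 100000

namespace Pool.Agent.TTT.C02

def t15 : T TT 256 :=
  (.q k240 [(.s k80 k160 11 (.s k84 k168 13 (.s k88 k92 1 (.s k244 k248 1 (.d k164 k4 k12 11
  13)))))] (.c k4 (.l (.s k160 k80 11 (.s k168 k84 13 (.s k164 k172 1 (.s k88 k12 13 (.d k248 k244
  k8 1 11)))))) (.c k7 (.q k11 [(.s k80 k160 11 (.s k84 k168 13 (.s k88 k92 1 (.s k244 k248 1 (.d
  k164 k4 k12 11 13))))), (.s k168 k84 13 (.s k248 k244 1 (.s k8 k88 11 (.s k9 k10 0 (.s k169 k90 12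
  (.s k89 k249 11 (.d k170 k171 k251 0 12)))))))] (.c k4 (.l (.s k160 k80 11 (.s k168 k84 13 (.s
  k164 k172 1 (.s k88 k12 13 (.d k248 k244 k8 1 11)))))) (.c k80 (.q k20 [(.s k60 k40 5 (.s k84 k168
  13 (.s k148 k212 7 (.s k124 k188 7 (.d k104 k64 k192 5 13))))), (.s k84 k168 13 (.s k148 k212 7
  (.s k244 k248 1 (.s k4 k164 11 (.s k52 k36 3 (.s k100 k196 11 (.d k116 k68 k180 3 7))))))), (.s
  k60 k40 5 (.s k120 k180 9 (.s k124 k188 7 (.s k116 k112 1 (.s k184 k48 9 (.d k248 k244 k56 1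
  7))))))] .n) (.c k84 (.f k160 k80 11 (.q k164 [(.s k172 k168 1 (.d k12 k92 k88 11 13))] (.c k12
  (.l (.s k172 k168 1 (.s k248 k244 1 (.s k169 k90 12 (.s k166 k163 2 (.s k165 k167 0 (.s k175 k170
  2 (.d k173 k174 k161 0 1)))))))) (.c k88 (.q k92 [(.d k172 k168 k12 1 11)] (.c k12 (.l (.s k172
  k168 1 (.s k248 k244 1 (.s k169 k90 12 (.s k166 k163 2 (.s k165 k167 0 (.s k175 k170 2 (.d k173
  k174 k161 0 1)))))))) (.c k168 (.l (.s k172 k12 11 (.s k248 k244 1 (.s k169 k90 12 (.s k166 k163 2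
  (.s k165 k167 0 (.s k175 k170 2 (.d k173 k174 k161 0 1)))))))) (.c k172 (.f k248 k244 1 (.f k90
  k169 12 (.q k165 [(.s k170 k175 2 (.s k250 k10 11 (.d k255 k245 k85 2 14))), (.s k166 k167 0 (.s
  k242 k14 13 (.s k243 k241 0 (.s k246 k249 2 (.s k86 k6 11 (.d k89 k12 k83 14 2)))))), (.s k170
  k175 2 (.s k166 k167 0 (.s k242 k14 13 (.s k243 k241 0 (.d k162 k174 k81 1 12)))))] (.c k163 (.l
  (.s k166 k167 0 (.s k242 k14 13 (.s k243 k241 0 (.s k162 k81 12 (.d k170 k175 k174 2 1)))))) (.c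
  k166 (.q k163 [(.s k170 k175 2 (.s k250 k10 11 (.d k255 k245 k85 2 14))), (.s k162 k161 0 (.s k243
  k81 12 (.s k241 k242 0 (.s k249 k246 2 (.s k245 k253 1 (.d k250 k251 k255 0 2)))))), (.s k162 k161
  0 (.s k243 k81 12 (.s k170 k175 2 (.s k250 k10 11 (.d k249 k251 k246 0 2)))))] (.c k250 (.l (.s
  k162 k161 0 (.s k243 k81 12 (.s k170 k175 2 (.s k255 k85 14 (.s k241 k242 0 (.s k89 k13 13 (.d
  k251 k247 k8 1 12)))))))) (.c k255 (.l (.s k162 k161 0 (.s k243 k81 12 (.s k249 k246 2 (.s k250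
  k251 0 (.d k170 k175 k10 2 11)))))) .n))) .n))))) .n)))) (.c k92 (.l (.s k88 k12 13 (.s k168 k172
  1 (.d k248 k244 k8 1 11)))) (.c k168 (.f k248 k244 1 (.f k90 k169 12 (.f k12 k88 13 (.l (.s k92
  k172 11 (.s k8 k4 1 (.s k10 k9 0 (.s k170 k250 11 (.s k89 k251 12 (.s k166 k243 14 (.d k165 k167
  k175 0 2))))))))))) (.c k172 (.l (.s k88 k12 13 (.s k248 k244 1 (.s k8 k168 11 (.s k90 k169 12 (.s
  k89 k91 0 (.s k170 k251 12 (.d k10 k9 k250 0 11)))))))) .n))))))) (.c k88 (.q k20 [(.s k60 k40 5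
  (.s k84 k168 13 (.s k148 k212 7 (.s k124 k188 7 (.d k104 k64 k192 5 13))))), (.s k60 k40 5 (.s
  k120 k180 9 (.s k124 k188 7 (.s k116 k112 1 (.s k184 k48 9 (.d k248 k244 k56 1 7)))))), (.s k84
  k168 13 (.s k212 k148 7 (.s k232 k192 5 (.s k248 k244 1 (.s k216 k200 3 (.s k204 k228 5 (.d k220
  k208 k236 1 3)))))))] (.c k60 (.l (.s k80 k160 11 (.s k84 k168 13 (.s k212 k148 7 (.s k192 k232 5
  (.s k208 k224 3 (.s k16 k144 7 (.d k220 k152 k216 9 1)))))))) (.c k188 (.l (.s k60 k40 5 (.s k84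
  k168 13 (.s k148 k212 7 (.s k180 k120 9 (.s k164 k132 3 (.d k244 k248 k4 1 11))))))) (.c k248 (.l
  (.s k60 k40 5 (.s k80 k160 11 (.s k120 k180 9 (.s k124 k188 7 (.s k112 k116 1 (.s k64 k96 3 (.d
  k84 k104 k168 5 13)))))))) .n)))) (.c k92 (.l (.s k160 k80 11 (.s k248 k244 1 (.s k168 k84 13 (.s
  k88 k8 11 (.d k164 k172 k12 1 13)))))) (.c k164 (.q k20 [(.s k60 k40 5 (.s k84 k168 13 (.s k148
  k212 7 (.s k124 k188 7 (.d k104 k64 k192 5 13))))), (.s k60 k40 5 (.s k180 k120 9 (.s k188 k124 7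
  (.s k184 k176 1 (.s k116 k48 9 (.d k244 k248 k52 1 7)))))), (.s k84 k168 13 (.s k212 k148 7 (.s
  k232 k192 5 (.s k244 k248 1 (.s k228 k196 3 (.s k204 k216 5 (.d k236 k224 k220 1 3)))))))] (.c k60
  (.l (.s k84 k168 13 (.s k212 k148 7 (.s k192 k232 5 (.s k208 k224 3 (.s k216 k220 1 (.s k228 k204
  5 (.d k244 k248 k196 1 3)))))))) (.c k188 (.l (.s k60 k40 5 (.s k84 k168 13 (.s k148 k212 7 (.s
  k104 k192 13 (.s k120 k180 9 (.s k88 k72 3 (.d k80 k160 k92 11 1)))))))) .n))) (.c k168 (.f k248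
  k244 1 (.q k16 [(.s k48 k32 3 (.s k176 k112 7 (.s k184 k116 9 (.s k120 k56 7 (.d k180 k188 k60 1
  9))))), (.s k80 k160 11 (.s k90 k169 12 (.s k208 k144 7 (.s k31 k149 10 (.s k26 k21 2 (.s k154
  k218 7 (.d k85 k95 k223 2 10)))))))] (.c k86 (.q k165 [(.s k48 k32 3 (.s k80 k160 11 (.s k144 k208
  7 (.s k112 k176 7 (.d k96 k64 k192 3 11))))), (.s k80 k160 11 (.s k90 k169 12 (.s k85 k95 2 (.s
  k245 k5 11 (.d k255 k170 k250 14 2))))), (.s k48 k32 3 (.s k169 k90 12 (.s k176 k112 7 (.s k184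
  k116 9 (.d k154 k139 k143 4 6)))))] .n) (.c k165 (.q k86 [(.s k48 k32 3 (.s k80 k160 11 (.s k144
  k208 7 (.s k112 k176 7 (.d k96 k64 k192 3 11))))), (.s k48 k32 3 (.s k169 k90 12 (.s k116 k184 9
  (.s k101 k71 4 (.s k237 k33 9 (.d k207 k222 k154 4 14)))))), (.s k80 k160 11 (.s k90 k169 12 (.s
  k208 k144 7 (.s k149 k31 10 (.s k212 k23 8 (.d k192 k224 k232 3 5))))))] .n) (.c k176 (.l (.s k32
  k48 3 (.s k160 k80 11 (.s k224 k96 7 (.s k192 k208 3 (.s k232 k212 5 (.s k216 k200 3 (.d k228 k236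
  k204 1 5)))))))) .n))))) (.c k244 (.f k84 k168 13 (.q k16 [(.s k48 k32 3 (.s k152 k220 9 (.s k116
  k184 9 (.d k100 k68 k204 3 13)))), (.s k80 k160 11 (.s k208 k144 7 (.s k220 k152 9 (.s k212 k216 1
  (.d k192 k224 k232 3 5))))), (.s k48 k32 3 (.s k80 k160 11 (.s k144 k208 7 (.s k96 k192 11 (.d
  k112 k64 k176 3 7)))))] (.c k86 (.q k165 [(.s k48 k32 3 (.s k116 k184 9 (.s k100 k68 3 (.d k152
  k220 k204 9 13)))), (.s k80 k160 11 (.s k208 k144 7 (.s k220 k152 9 (.s k212 k216 1 (.d k192 k224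
  k232 3 5))))), (.s k48 k32 3 (.s k80 k160 11 (.s k144 k208 7 (.s k96 k192 11 (.d k112 k64 k176 3
  7)))))] .n) (.c k165 (.q k86 [(.s k48 k32 3 (.s k152 k220 9 (.s k116 k184 9 (.d k100 k68 k204 3
  13)))), (.s k80 k160 11 (.s k208 k144 7 (.s k220 k152 9 (.s k212 k216 1 (.d k192 k224 k232 3
  5))))), (.s k48 k32 3 (.s k80 k160 11 (.s k144 k208 7 (.s k96 k192 11 (.d k112 k64 k176 3 7)))))]
  .n) .n)))) (.c k248 (.q k16 [(.s k48 k32 3 (.s k80 k160 11 (.s k144 k208 7 (.s k112 k176 7 (.d k96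
  k64 k192 3 11))))), (.s k48 k32 3 (.s k84 k168 13 (.s k152 k220 9 (.s k100 k204 13 (.d k116 k68
  k184 3 9))))), (.s k80 k160 11 (.s k84 k168 13 (.s k208 k144 7 (.s k220 k152 9 (.s k212 k216 1 (.d
  k192 k232 k224 5 3))))))] .n) .n)))))))))) (.c k11 (.q k7 [(.s k80 k160 11 (.s k84 k168 13 (.s k88
  k92 1 (.s k244 k248 1 (.d k164 k4 k12 11 13))))), (.s k160 k80 11 (.s k168 k84 13 (.s k164 k172 1
  (.s k88 k12 13 (.d k248 k244 k8 1 11))))), (.s k84 k168 13 (.s k244 k248 1 (.s k4 k164 11 (.s k6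
  k5 0 (.s k86 k165 12 (.s k166 k246 11 (.d k85 k87 k247 0 12)))))))] (.c k84 (.q k16 [(.s k48 k32 3
  (.s k80 k160 11 (.s k144 k208 7 (.s k112 k176 7 (.d k96 k64 k192 3 11))))), (.s k48 k32 3 (.s k112
  k176 7 (.s k116 k184 9 (.s k244 k248 1 (.s k180 k52 7 (.d k120 k124 k60 1 9)))))), (.s k80 k160 11
  (.s k208 k144 7 (.s k192 k224 3 (.s k212 k232 5 (.s k216 k220 1 (.s k228 k204 5 (.d k244 k248 k196
  1 3)))))))] (.c k32 (.q k20 [(.s k60 k40 5 (.s k120 k180 9 (.s k124 k188 7 (.s k116 k112 1 (.s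
  k184 k48 9 (.d k248 k244 k56 1 7)))))), (.s k80 k160 11 (.s k28 k24 1 (.s k208 k144 7 (.s k88 k148
  9 (.s k248 k244 1 (.s k8 k168 11 (.d k12 k4 k164 1 13))))))), (.s k60 k40 5 (.s k80 k160 11 (.s
  k28 k24 1 (.s k208 k144 7 (.s k88 k148 9 (.d k12 k44 k164 3 13))))))] (.c k176 (.l (.s k40 k60 5
  (.s k24 k28 1 (.s k8 k56 3 (.s k248 k244 1 (.s k88 k168 11 (.d k12 k4 k164 1 13))))))) .n)) (.c
  k176 (.q k20 [(.s k48 k32 3 (.s k116 k184 9 (.s k244 k248 1 (.s k180 k52 7 (.d k60 k120 k40 9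
  5))))), (.s k48 k32 3 (.s k40 k60 5 (.s k24 k28 1 (.s k8 k56 3 (.d k12 k4 k36 1 5))))), (.s k48
  k32 3 (.s k24 k28 1 (.s k36 k12 5 (.s k52 k4 3 (.s k116 k184 9 (.d k244 k180 k248 7 1))))))] (.c
  k32 (.l (.s k40 k60 5 (.s k24 k28 1 (.s k8 k56 3 (.s k248 k244 1 (.s k88 k168 11 (.d k12 k4 k164 1
  13))))))) (.c k48 (.l (.s k60 k40 5 (.s k80 k160 11 (.s k28 k24 1 (.s k12 k44 3 (.s k88 k164 13
  (.d k208 k144 k148 7 9))))))) (.c k60 (.l (.s k48 k32 3 (.s k24 k28 1 (.s k12 k36 5 (.s k184 k116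
  9 (.s k248 k244 1 (.s k56 k120 7 (.d k8 k4 k40 1 3)))))))) .n)))) .n))) (.c k88 (.q k20 [(.s k60
  k40 5 (.s k84 k168 13 (.s k148 k212 7 (.s k124 k188 7 (.d k104 k64 k192 5 13))))), (.s k60 k40 5
  (.s k120 k180 9 (.s k124 k188 7 (.s k116 k112 1 (.s k184 k48 9 (.d k248 k244 k56 1 7)))))), (.s
  k84 k168 13 (.s k212 k148 7 (.s k232 k192 5 (.s k248 k244 1 (.s k216 k200 3 (.s k204 k228 5 (.d
  k220 k208 k236 1 3)))))))] (.c k60 (.l (.s k80 k160 11 (.s k84 k168 13 (.s k212 k148 7 (.s k192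
  k232 5 (.s k208 k224 3 (.s k16 k144 7 (.d k220 k152 k216 9 1)))))))) (.c k188 (.l (.s k60 k40 5
  (.s k84 k168 13 (.s k148 k212 7 (.s k180 k120 9 (.s k164 k132 3 (.d k244 k248 k4 1 11))))))) (.c
  k248 (.l (.s k60 k40 5 (.s k80 k160 11 (.s k120 k180 9 (.s k124 k188 7 (.s k112 k116 1 (.s k64 k96
  3 (.d k84 k104 k168 5 13)))))))) .n)))) (.c k160 (.q k20 [(.s k60 k40 5 (.s k84 k168 13 (.s k148
  k212 7 (.s k124 k188 7 (.d k104 k64 k192 5 13))))), (.s k60 k40 5 (.s k120 k180 9 (.s k124 k188 7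
  (.s k116 k112 1 (.s k184 k48 9 (.d k248 k244 k56 1 7)))))), (.s k84 k168 13 (.s k212 k148 7 (.s
  k232 k192 5 (.s k244 k248 1 (.s k228 k196 3 (.s k204 k216 5 (.d k236 k224 k220 1 3)))))))] (.c k60
  (.l (.s k84 k168 13 (.s k212 k148 7 (.s k192 k232 5 (.s k208 k224 3 (.s k216 k220 1 (.s k228 k204
  5 (.d k244 k248 k196 1 3)))))))) (.c k188 (.l (.s k60 k40 5 (.s k84 k168 13 (.s k148 k212 7 (.s
  k180 k120 9 (.s k164 k132 3 (.d k244 k248 k4 1 11))))))) .n))) (.c k164 (.q k20 [(.s k60 k40 5 (.s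
  k84 k168 13 (.s k148 k212 7 (.s k124 k188 7 (.d k104 k64 k192 5 13))))), (.s k60 k40 5 (.s k180
  k120 9 (.s k188 k124 7 (.s k184 k176 1 (.s k116 k48 9 (.d k244 k248 k52 1 7)))))), (.s k84 k168 13
  (.s k212 k148 7 (.s k232 k192 5 (.s k244 k248 1 (.s k228 k196 3 (.s k204 k216 5 (.d k236 k224 k220
  1 3)))))))] (.c k60 (.l (.s k84 k168 13 (.s k212 k148 7 (.s k192 k232 5 (.s k208 k224 3 (.s k216
  k220 1 (.s k228 k204 5 (.d k244 k248 k196 1 3)))))))) (.c k188 (.l (.s k60 k40 5 (.s k84 k168 13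
  (.s k148 k212 7 (.s k104 k192 13 (.s k120 k180 9 (.s k88 k72 3 (.d k80 k160 k92 11 1)))))))) .n)))
  (.c k168 (.q k16 [(.s k48 k32 3 (.s k80 k160 11 (.s k144 k208 7 (.s k112 k176 7 (.d k96 k64 k192 3
  11))))), (.s k48 k32 3 (.s k112 k176 7 (.s k116 k184 9 (.s k120 k124 1 (.s k180 k60 9 (.d k244
  k248 k52 1 7)))))), (.s k80 k160 11 (.s k208 k144 7 (.s k192 k224 3 (.s k212 k232 5 (.s k216 k220
  1 (.s k228 k204 5 (.d k244 k248 k196 1 3)))))))] (.c k32 (.f k248 k244 1 (.q k20 [(.s k60 k40 5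
  (.s k120 k180 9 (.s k124 k188 7 (.s k116 k112 1 (.d k184 k56 k48 7 9))))), (.s k80 k160 11 (.s k28
  k24 1 (.s k208 k144 7 (.s k88 k148 9 (.s k92 k84 1 (.d k12 k172 k164 11 13)))))), (.s k60 k40 5
  (.s k120 k180 9 (.s k184 k56 7 (.s k116 k48 9 (.d k124 k112 k188 1 7)))))] (.c k100 (.q k236 [(.s
  k60 k40 5 (.s k28 k24 1 (.s k204 k220 3 (.s k108 k156 11 (.d k44 k12 k172 3 7))))), (.s k80 k160
  11 (.s k208 k144 7 (.s k224 k192 3 (.s k204 k220 3 (.d k228 k232 k216 1 5))))), (.s k60 k40 5 (.s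
  k120 k180 9 (.s k124 k188 7 (.s k116 k112 1 (.d k184 k56 k48 7 9)))))] (.c k232 (.l (.s k80 k160
  11 (.s k28 k24 1 (.s k220 k204 3 (.s k92 k156 7 (.d k84 k152 k88 9 1)))))) .n)) (.c k188 (.l (.s
  k60 k40 5 (.s k80 k160 11 (.s k28 k24 1 (.s k208 k144 7 (.s k148 k88 9 (.d k192 k224 k104 3
  13))))))) (.c k236 (.q k100 [(.s k60 k40 5 (.s k120 k180 9 (.s k124 k188 7 (.s k116 k112 1 (.d
  k184 k56 k48 7 9))))), (.s k80 k160 11 (.s k28 k24 1 (.s k208 k144 7 (.s k88 k148 9 (.s k92 k84 1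
  (.d k12 k172 k164 11 13)))))), (.s k60 k40 5 (.s k120 k180 9 (.s k184 k56 7 (.s k116 k48 9 (.d
  k124 k112 k188 1 7)))))] (.c k188 (.l (.s k40 k60 5 (.s k24 k28 1 (.s k8 k56 3 (.s k12 k4 1 (.s
  k164 k88 13 (.d k36 k48 k228 5 7))))))) .n)) .n))))) (.c k176 (.q k84 [(.s k48 k32 3 (.s k152 k220
  9 (.s k116 k184 9 (.d k100 k68 k204 3 13)))), (.s k80 k160 11 (.s k88 k92 1 (.s k164 k12 13 (.d
  k244 k248 k4 1 11))))] .n) (.c k236 (.l (.s k80 k160 11 (.s k208 k144 7 (.s k192 k224 3 (.s k244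
  k248 1 (.s k212 k232 5 (.s k228 k196 3 (.d k216 k220 k204 1 5)))))))) .n)))) (.c k172 (.l (.s k80
  k160 11 (.s k244 k248 1 (.s k84 k168 13 (.s k164 k4 11 (.d k88 k92 k12 1 13)))))) (.c k244 (.q k16
  [(.s k48 k32 3 (.s k80 k160 11 (.s k144 k208 7 (.s k112 k176 7 (.d k96 k64 k192 3 11))))), (.s k48
  k32 3 (.s k84 k168 13 (.s k152 k220 9 (.s k100 k204 13 (.d k116 k68 k184 3 9))))), (.s k80 k160 11
  (.s k84 k168 13 (.s k208 k144 7 (.s k220 k152 9 (.s k212 k216 1 (.d k192 k224 k232 3 5))))))] .n)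
  (.c k248 (.q k16 [(.s k48 k32 3 (.s k80 k160 11 (.s k144 k208 7 (.s k112 k176 7 (.d k96 k64 k192 3
  11))))), (.s k48 k32 3 (.s k84 k168 13 (.s k152 k220 9 (.s k100 k204 13 (.d k116 k68 k184 3
  9))))), (.s k80 k160 11 (.s k84 k168 13 (.s k208 k144 7 (.s k220 k152 9 (.s k212 k216 1 (.d k192
  k232 k224 5 3))))))] (.c k90 (.q k169 [(.s k48 k32 3 (.s k80 k160 11 (.s k112 k176 7 (.s k96 k64 3
  (.d k144 k208 k192 7 11))))), (.s k48 k32 3 (.s k84 k168 13 (.s k152 k220 9 (.s k100 k204 13 (.d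
  k116 k68 k184 3 9))))), (.s k80 k160 11 (.s k84 k168 13 (.s k208 k144 7 (.s k220 k152 9 (.s k212
  k216 1 (.d k192 k232 k224 5 3))))))] .n) (.c k169 (.q k90 [(.s k48 k32 3 (.s k80 k160 11 (.s k144
  k208 7 (.s k112 k176 7 (.d k96 k64 k192 3 11))))), (.s k48 k32 3 (.s k84 k168 13 (.s k152 k220 9
  (.s k100 k204 13 (.d k116 k68 k184 3 9))))), (.s k80 k160 11 (.s k84 k168 13 (.s k208 k144 7 (.s
  k220 k152 9 (.s k212 k216 1 (.d k192 k232 k224 5 3))))))] .n) .n))) .n))))))))) (.c k12 (.f k80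
  k160 11 (.q k16 [(.s k48 k32 3 (.s k144 k208 7 (.s k112 k176 7 (.d k96 k64 k192 3 11)))), (.s k48
  k32 3 (.s k84 k168 13 (.s k152 k220 9 (.s k100 k204 13 (.d k116 k68 k184 3 9))))), (.s k84 k168 13
  (.s k208 k144 7 (.s k220 k152 9 (.s k212 k216 1 (.d k192 k224 k232 3 5)))))] (.c k6 (.q k9 [(.s
  k48 k32 3 (.s k144 k208 7 (.s k112 k176 7 (.d k96 k64 k192 3 11)))), (.s k48 k32 3 (.s k84 k168 13
  (.s k152 k220 9 (.s k100 k204 13 (.d k116 k68 k184 3 9))))), (.s k84 k168 13 (.s k208 k144 7 (.s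
  k220 k152 9 (.s k212 k216 1 (.d k192 k224 k232 3 5)))))] (.c k7 (.q k11 [(.s k168 k84 13 (.s k8
  k10 0 (.d k248 k244 k88 1 11))), (.s k48 k32 3 (.s k144 k208 7 (.s k96 k192 11 (.d k112 k64 k176 3
  7))))] (.c k4 (.q k5 [(.s k168 k84 13 (.s k8 k10 0 (.d k248 k244 k88 1 11))), (.s k48 k32 3 (.s
  k144 k208 7 (.s k96 k192 11 (.d k112 k64 k176 3 7))))] (.c k13 (.q k14 [(.s k168 k84 13 (.s k8 k10
  0 (.d k248 k244 k88 1 11))), (.s k48 k32 3 (.s k144 k208 7 (.s k96 k192 11 (.d k112 k64 k176 3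
  7))))] .n) (.c k14 (.l (.s k13 k1 1 (.s k48 k32 3 (.s k144 k208 7 (.s k96 k192 11 (.d k112 k64
  k176 3 7)))))) .n))) (.c k5 (.q k4 [(.s k244 k248 1 (.d k84 k164 k168 11 13)), (.s k48 k32 3 (.s
  k144 k208 7 (.s k96 k192 11 (.d k112 k64 k176 3 7))))] (.c k13 (.q k14 [(.s k244 k248 1 (.d k84
  k164 k168 11 13)), (.s k48 k32 3 (.s k144 k208 7 (.s k96 k192 11 (.d k112 k64 k176 3 7))))] .n)
  (.c k14 (.q k13 [(.s k244 k248 1 (.d k84 k164 k168 11 13)), (.s k48 k32 3 (.s k144 k208 7 (.s k96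
  k192 11 (.d k112 k64 k176 3 7))))] (.c k2 (.l (.s k10 k8 0 (.s k84 k168 13 (.d k244 k248 k164 1
  11)))) (.c k10 (.q k2 [(.s k244 k248 1 (.d k84 k164 k168 11 13)), (.s k48 k32 3 (.s k144 k208 7
  (.s k96 k192 11 (.d k112 k64 k176 3 7))))] .n) .n))) .n))) (.c k13 (.q k14 [(.s k168 k84 13 (.s k8
  k10 0 (.d k248 k244 k88 1 11))), (.s k48 k32 3 (.s k144 k208 7 (.s k96 k192 11 (.d k112 k64 k176 3
  7))))] (.c k4 (.q k5 [(.s k168 k84 13 (.s k8 k10 0 (.d k248 k244 k88 1 11))), (.s k48 k32 3 (.s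
  k144 k208 7 (.s k96 k192 11 (.d k112 k64 k176 3 7))))] .n) (.c k5 (.q k4 [(.s k244 k248 1 (.d k84
  k164 k168 11 13)), (.s k48 k32 3 (.s k144 k208 7 (.s k96 k192 11 (.d k112 k64 k176 3 7))))] .n)
  .n))) (.c k14 (.q k13 [(.s k168 k84 13 (.s k248 k244 1 (.d k8 k10 k88 0 11))), (.s k5 k1 1 (.s k48
  k32 3 (.s k144 k208 7 (.s k96 k192 11 (.d k112 k64 k176 3 7)))))] (.c k2 (.l (.s k10 k8 0 (.s k48
  k32 3 (.s k144 k208 7 (.s k96 k192 11 (.d k112 k64 k176 3 7)))))) (.c k4 (.l (.s k5 k1 1 (.s k48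
  k32 3 (.s k144 k208 7 (.s k96 k192 11 (.d k112 k64 k176 3 7)))))) (.c k5 (.q k4 [(.s k244 k248 1
  (.d k84 k164 k168 11 13)), (.s k48 k32 3 (.s k144 k208 7 (.s k96 k192 11 (.d k112 k64 k176 3
  7))))] (.c k2 (.l (.s k10 k8 0 (.s k84 k168 13 (.d k244 k248 k164 1 11)))) (.c k10 (.q k2 [(.s
  k244 k248 1 (.d k84 k164 k168 11 13)), (.s k48 k32 3 (.s k144 k208 7 (.s k96 k192 11 (.d k112 k64
  k176 3 7))))] .n) .n))) (.c k10 (.q k2 [(.s k48 k32 3 (.s k144 k208 7 (.s k112 k176 7 (.d k96 k64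
  k192 3 11)))), (.s k48 k32 3 (.s k84 k168 13 (.s k152 k220 9 (.s k100 k204 13 (.d k116 k68 k184 3
  9))))), (.s k84 k168 13 (.s k208 k144 7 (.s k220 k152 9 (.s k212 k216 1 (.d k192 k224 k232 3
  5)))))] (.c k4 (.l (.s k5 k1 1 (.s k48 k32 3 (.s k144 k208 7 (.s k96 k192 11 (.d k112 k64 k176 3
  7)))))) (.c k5 (.q k4 [(.s k244 k248 1 (.d k84 k164 k168 11 13)), (.s k48 k32 3 (.s k144 k208 7
  (.s k96 k192 11 (.d k112 k64 k176 3 7))))] .n) (.c k224 (.l (.s k144 k208 7 (.s k48 k32 3 (.s k96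
  k192 11 (.d k112 k64 k176 3 7))))) .n)))) .n))))) .n))))) (.c k11 (.q k7 [(.s k48 k32 3 (.s k144
  k208 7 (.s k112 k176 7 (.d k96 k64 k192 3 11)))), (.s k48 k32 3 (.s k84 k168 13 (.s k152 k220 9
  (.s k100 k204 13 (.d k116 k68 k184 3 9))))), (.s k84 k168 13 (.s k208 k144 7 (.s k220 k152 9 (.s
  k212 k216 1 (.d k192 k224 k232 3 5)))))] (.c k13 (.q k14 [(.s k48 k32 3 (.s k144 k208 7 (.s k112
  k176 7 (.d k96 k64 k192 3 11)))), (.s k48 k32 3 (.s k84 k168 13 (.s k152 k220 9 (.s k100 k204 13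
  (.d k116 k68 k184 3 9))))), (.s k84 k168 13 (.s k208 k144 7 (.s k220 k152 9 (.s k212 k216 1 (.d
  k192 k224 k232 3 5)))))] (.c k224 (.l (.s k144 k208 7 (.s k48 k32 3 (.s k96 k192 11 (.d k112 k64
  k176 3 7))))) .n)) (.c k14 (.q k13 [(.s k48 k32 3 (.s k144 k208 7 (.s k112 k176 7 (.d k96 k64 k192
  3 11)))), (.s k48 k32 3 (.s k84 k168 13 (.s k152 k220 9 (.s k100 k204 13 (.d k116 k68 k184 3
  9))))), (.s k84 k168 13 (.s k208 k144 7 (.s k220 k152 9 (.s k212 k216 1 (.d k192 k224 k232 3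
  5)))))] (.c k2 (.q k10 [(.s k48 k32 3 (.s k144 k208 7 (.s k112 k176 7 (.d k96 k64 k192 3 11)))),
  (.s k48 k32 3 (.s k84 k168 13 (.s k152 k220 9 (.s k100 k204 13 (.d k116 k68 k184 3 9))))), (.s k84
  k168 13 (.s k208 k144 7 (.s k220 k152 9 (.s k212 k216 1 (.d k192 k224 k232 3 5)))))] (.c k224 (.l
  (.s k144 k208 7 (.s k48 k32 3 (.s k96 k192 11 (.d k112 k64 k176 3 7))))) .n)) (.c k10 (.q k2 [(.s
  k48 k32 3 (.s k144 k208 7 (.s k112 k176 7 (.d k96 k64 k192 3 11)))), (.s k48 k32 3 (.s k84 k168 13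
  (.s k152 k220 9 (.s k100 k204 13 (.d k116 k68 k184 3 9))))), (.s k84 k168 13 (.s k208 k144 7 (.s
  k220 k152 9 (.s k212 k216 1 (.d k192 k224 k232 3 5)))))] (.c k224 (.l (.s k144 k208 7 (.s k48 k32
  3 (.s k96 k192 11 (.d k112 k64 k176 3 7))))) .n)) (.c k224 (.l (.s k144 k208 7 (.s k48 k32 3 (.s
  k96 k192 11 (.d k112 k64 k176 3 7))))) .n)))) (.c k224 (.l (.s k144 k208 7 (.s k48 k32 3 (.s k96
  k192 11 (.d k112 k64 k176 3 7))))) .n)))) (.c k13 (.q k14 [(.s k48 k32 3 (.s k144 k208 7 (.s k112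
  k176 7 (.d k96 k64 k192 3 11)))), (.s k48 k32 3 (.s k84 k168 13 (.s k152 k220 9 (.s k100 k204 13
  (.d k116 k68 k184 3 9))))), (.s k84 k168 13 (.s k208 k144 7 (.s k220 k152 9 (.s k212 k216 1 (.d
  k192 k224 k232 3 5)))))] (.c k7 (.q k11 [(.s k168 k84 13 (.s k8 k10 0 (.d k248 k244 k88 1 11))),
  (.s k48 k32 3 (.s k144 k208 7 (.s k96 k192 11 (.d k112 k64 k176 3 7))))] (.c k4 (.q k5 [(.s k168
  k84 13 (.s k8 k10 0 (.d k248 k244 k88 1 11))), (.s k48 k32 3 (.s k144 k208 7 (.s k96 k192 11 (.d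
  k112 k64 k176 3 7))))] .n) (.c k5 (.q k4 [(.s k244 k248 1 (.d k84 k164 k168 11 13)), (.s k48 k32 3
  (.s k144 k208 7 (.s k96 k192 11 (.d k112 k64 k176 3 7))))] .n) .n))) (.c k11 (.q k7 [(.s k48 k32 3
  (.s k144 k208 7 (.s k112 k176 7 (.d k96 k64 k192 3 11)))), (.s k48 k32 3 (.s k84 k168 13 (.s k152
  k220 9 (.s k100 k204 13 (.d k116 k68 k184 3 9))))), (.s k84 k168 13 (.s k208 k144 7 (.s k220 k152
  9 (.s k212 k216 1 (.d k192 k224 k232 3 5)))))] (.c k224 (.l (.s k144 k208 7 (.s k48 k32 3 (.s k96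
  k192 11 (.d k112 k64 k176 3 7))))) .n)) (.c k224 (.l (.s k144 k208 7 (.s k48 k32 3 (.s k96 k192 11
  (.d k112 k64 k176 3 7))))) .n)))) (.c k14 (.q k13 [(.s k48 k32 3 (.s k144 k208 7 (.s k112 k176 7
  (.d k96 k64 k192 3 11)))), (.s k48 k32 3 (.s k84 k168 13 (.s k152 k220 9 (.s k100 k204 13 (.d k116
  k68 k184 3 9))))), (.s k84 k168 13 (.s k208 k144 7 (.s k220 k152 9 (.s k212 k216 1 (.d k192 k224
  k232 3 5)))))] (.c k2 (.q k10 [(.s k168 k84 13 (.s k248 k244 1 (.d k8 k11 k88 0 11))), (.s k48 k32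
  3 (.s k144 k208 7 (.s k96 k192 11 (.d k112 k64 k176 3 7))))] (.c k7 (.l (.s k11 k8 0 (.s k48 k32 3
  (.s k144 k208 7 (.s k96 k192 11 (.d k112 k64 k176 3 7)))))) (.c k11 (.q k7 [(.s k48 k32 3 (.s k144
  k208 7 (.s k112 k176 7 (.d k96 k64 k192 3 11)))), (.s k48 k32 3 (.s k84 k168 13 (.s k152 k220 9
  (.s k100 k204 13 (.d k116 k68 k184 3 9))))), (.s k84 k168 13 (.s k208 k144 7 (.s k220 k152 9 (.s
  k212 k216 1 (.d k192 k224 k232 3 5)))))] (.c k224 (.l (.s k144 k208 7 (.s k48 k32 3 (.s k96 k192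
  11 (.d k112 k64 k176 3 7))))) .n)) .n))) (.c k7 (.q k11 [(.s k168 k84 13 (.s k248 k244 1 (.d k8
  k10 k88 0 11))), (.s k5 k1 1 (.s k48 k32 3 (.s k144 k208 7 (.s k96 k192 11 (.d k112 k64 k176 3
  7)))))] (.c k2 (.l (.s k10 k8 0 (.s k48 k32 3 (.s k144 k208 7 (.s k96 k192 11 (.d k112 k64 k176 3
  7)))))) (.c k4 (.l (.s k5 k1 1 (.s k48 k32 3 (.s k144 k208 7 (.s k96 k192 11 (.d k112 k64 k176 3
  7)))))) (.c k5 (.q k4 [(.s k244 k248 1 (.d k84 k164 k168 11 13)), (.s k48 k32 3 (.s k144 k208 7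
  (.s k96 k192 11 (.d k112 k64 k176 3 7))))] (.c k2 (.l (.s k10 k8 0 (.s k84 k168 13 (.d k244 k248
  k164 1 11)))) (.c k10 (.q k2 [(.s k244 k248 1 (.d k84 k164 k168 11 13)), (.s k48 k32 3 (.s k144
  k208 7 (.s k96 k192 11 (.d k112 k64 k176 3 7))))] .n) .n))) (.c k10 (.q k2 [(.s k48 k32 3 (.s k144
  k208 7 (.s k112 k176 7 (.d k96 k64 k192 3 11)))), (.s k48 k32 3 (.s k84 k168 13 (.s k152 k220 9
  (.s k100 k204 13 (.d k116 k68 k184 3 9))))), (.s k84 k168 13 (.s k208 k144 7 (.s k220 k152 9 (.s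
  k212 k216 1 (.d k192 k224 k232 3 5)))))] (.c k4 (.l (.s k5 k1 1 (.s k48 k32 3 (.s k144 k208 7 (.s
  k96 k192 11 (.d k112 k64 k176 3 7)))))) (.c k5 (.q k4 [(.s k244 k248 1 (.d k84 k164 k168 11 13)),
  (.s k48 k32 3 (.s k144 k208 7 (.s k96 k192 11 (.d k112 k64 k176 3 7))))] .n) (.c k224 (.l (.s k144
  k208 7 (.s k48 k32 3 (.s k96 k192 11 (.d k112 k64 k176 3 7))))) .n)))) .n))))) (.c k10 (.q k2 [(.s
  k48 k32 3 (.s k144 k208 7 (.s k112 k176 7 (.d k96 k64 k192 3 11)))), (.s k48 k32 3 (.s k84 k168 13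
  (.s k152 k220 9 (.s k100 k204 13 (.d k116 k68 k184 3 9))))), (.s k84 k168 13 (.s k208 k144 7 (.s
  k220 k152 9 (.s k212 k216 1 (.d k192 k224 k232 3 5)))))] (.c k7 (.q k11 [(.s k48 k32 3 (.s k144
  k208 7 (.s k112 k176 7 (.d k96 k64 k192 3 11)))), (.s k48 k32 3 (.s k84 k168 13 (.s k152 k220 9
  (.s k100 k204 13 (.d k116 k68 k184 3 9))))), (.s k84 k168 13 (.s k208 k144 7 (.s k220 k152 9 (.s
  k212 k216 1 (.d k192 k224 k232 3 5)))))] (.c k4 (.l (.s k5 k1 1 (.s k48 k32 3 (.s k144 k208 7 (.s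
  k96 k192 11 (.d k112 k64 k176 3 7)))))) (.c k5 (.q k4 [(.s k244 k248 1 (.d k84 k164 k168 11 13)),
  (.s k48 k32 3 (.s k144 k208 7 (.s k96 k192 11 (.d k112 k64 k176 3 7))))] .n) (.c k224 (.l (.s k144
  k208 7 (.s k48 k32 3 (.s k96 k192 11 (.d k112 k64 k176 3 7))))) .n)))) (.c k11 (.q k7 [(.s k48 k32
  3 (.s k144 k208 7 (.s k112 k176 7 (.d k96 k64 k192 3 11)))), (.s k48 k32 3 (.s k84 k168 13 (.s
  k152 k220 9 (.s k100 k204 13 (.d k116 k68 k184 3 9))))), (.s k84 k168 13 (.s k208 k144 7 (.s k220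
  k152 9 (.s k212 k216 1 (.d k192 k224 k232 3 5)))))] (.c k224 (.l (.s k144 k208 7 (.s k48 k32 3 (.s
  k96 k192 11 (.d k112 k64 k176 3 7))))) .n)) (.c k224 (.l (.s k144 k208 7 (.s k48 k32 3 (.s k96
  k192 11 (.d k112 k64 k176 3 7))))) .n)))) (.c k11 (.q k7 [(.s k48 k32 3 (.s k144 k208 7 (.s k112
  k176 7 (.d k96 k64 k192 3 11)))), (.s k48 k32 3 (.s k84 k168 13 (.s k152 k220 9 (.s k100 k204 13
  (.d k116 k68 k184 3 9))))), (.s k84 k168 13 (.s k208 k144 7 (.s k220 k152 9 (.s k212 k216 1 (.d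
  k192 k224 k232 3 5)))))] (.c k2 (.q k10 [(.s k48 k32 3 (.s k144 k208 7 (.s k112 k176 7 (.d k96 k64
  k192 3 11)))), (.s k48 k32 3 (.s k84 k168 13 (.s k152 k220 9 (.s k100 k204 13 (.d k116 k68 k184 3
  9))))), (.s k84 k168 13 (.s k208 k144 7 (.s k220 k152 9 (.s k212 k216 1 (.d k192 k224 k232 3
  5)))))] (.c k224 (.l (.s k144 k208 7 (.s k48 k32 3 (.s k96 k192 11 (.d k112 k64 k176 3 7))))) .n))
  (.c k10 (.q k2 [(.s k48 k32 3 (.s k144 k208 7 (.s k112 k176 7 (.d k96 k64 k192 3 11)))), (.s k48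
  k32 3 (.s k84 k168 13 (.s k152 k220 9 (.s k100 k204 13 (.d k116 k68 k184 3 9))))), (.s k84 k168 13
  (.s k208 k144 7 (.s k220 k152 9 (.s k212 k216 1 (.d k192 k224 k232 3 5)))))] (.c k224 (.l (.s k144
  k208 7 (.s k48 k32 3 (.s k96 k192 11 (.d k112 k64 k176 3 7))))) .n)) (.c k224 (.l (.s k144 k208 7
  (.s k48 k32 3 (.s k96 k192 11 (.d k112 k64 k176 3 7))))) .n)))) (.c k224 (.l (.s k144 k208 7 (.s
  k48 k32 3 (.s k96 k192 11 (.d k112 k64 k176 3 7))))) .n)))))) (.c k224 (.l (.s k144 k208 7 (.s k48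
  k32 3 (.s k96 k192 11 (.d k112 k64 k176 3 7))))) .n)))))) (.c k7 (.q k11 [(.s k48 k32 3 (.s k144
  k208 7 (.s k112 k176 7 (.d k96 k64 k192 3 11)))), (.s k48 k32 3 (.s k84 k168 13 (.s k152 k220 9
  (.s k100 k204 13 (.d k116 k68 k184 3 9))))), (.s k84 k168 13 (.s k208 k144 7 (.s k220 k152 9 (.s
  k212 k216 1 (.d k192 k224 k232 3 5)))))] (.c k6 (.q k9 [(.s k168 k84 13 (.s k8 k10 0 (.d k248 k244
  k88 1 11))), (.s k48 k32 3 (.s k144 k208 7 (.s k96 k192 11 (.d k112 k64 k176 3 7))))] (.c k4 (.q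
  k5 [(.s k168 k84 13 (.s k8 k10 0 (.d k248 k244 k88 1 11))), (.s k48 k32 3 (.s k144 k208 7 (.s k96
  k192 11 (.d k112 k64 k176 3 7))))] (.c k13 (.q k14 [(.s k168 k84 13 (.s k8 k10 0 (.d k248 k244 k88
  1 11))), (.s k48 k32 3 (.s k144 k208 7 (.s k96 k192 11 (.d k112 k64 k176 3 7))))] .n) (.c k14 (.l
  (.s k13 k1 1 (.s k48 k32 3 (.s k144 k208 7 (.s k96 k192 11 (.d k112 k64 k176 3 7)))))) .n))) (.c
  k5 (.q k4 [(.s k244 k248 1 (.d k84 k164 k168 11 13)), (.s k48 k32 3 (.s k144 k208 7 (.s k96 k192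
  11 (.d k112 k64 k176 3 7))))] (.c k13 (.q k14 [(.s k244 k248 1 (.d k84 k164 k168 11 13)), (.s k48
  k32 3 (.s k144 k208 7 (.s k96 k192 11 (.d k112 k64 k176 3 7))))] .n) (.c k14 (.q k13 [(.s k244
  k248 1 (.d k84 k164 k168 11 13)), (.s k48 k32 3 (.s k144 k208 7 (.s k96 k192 11 (.d k112 k64 k176
  3 7))))] (.c k2 (.l (.s k10 k8 0 (.s k84 k168 13 (.d k244 k248 k164 1 11)))) (.c k10 (.q k2 [(.s
  k244 k248 1 (.d k84 k164 k168 11 13)), (.s k48 k32 3 (.s k144 k208 7 (.s k96 k192 11 (.d k112 k64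
  k176 3 7))))] .n) .n))) .n))) (.c k13 (.q k14 [(.s k168 k84 13 (.s k8 k10 0 (.d k248 k244 k88 1
  11))), (.s k48 k32 3 (.s k144 k208 7 (.s k96 k192 11 (.d k112 k64 k176 3 7))))] (.c k4 (.q k5 [(.s
  k168 k84 13 (.s k8 k10 0 (.d k248 k244 k88 1 11))), (.s k48 k32 3 (.s k144 k208 7 (.s k96 k192 11
  (.d k112 k64 k176 3 7))))] .n) (.c k5 (.q k4 [(.s k244 k248 1 (.d k84 k164 k168 11 13)), (.s k48
  k32 3 (.s k144 k208 7 (.s k96 k192 11 (.d k112 k64 k176 3 7))))] .n) .n))) (.c k14 (.q k13 [(.s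
  k168 k84 13 (.s k248 k244 1 (.d k8 k10 k88 0 11))), (.s k5 k1 1 (.s k48 k32 3 (.s k144 k208 7 (.s
  k96 k192 11 (.d k112 k64 k176 3 7)))))] (.c k2 (.l (.s k10 k8 0 (.s k48 k32 3 (.s k144 k208 7 (.s
  k96 k192 11 (.d k112 k64 k176 3 7)))))) (.c k4 (.l (.s k5 k1 1 (.s k48 k32 3 (.s k144 k208 7 (.s
  k96 k192 11 (.d k112 k64 k176 3 7)))))) (.c k5 (.q k4 [(.s k244 k248 1 (.d k84 k164 k168 11 13)),
  (.s k48 k32 3 (.s k144 k208 7 (.s k96 k192 11 (.d k112 k64 k176 3 7))))] (.c k2 (.l (.s k10 k8 0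
  (.s k84 k168 13 (.d k244 k248 k164 1 11)))) (.c k10 (.q k2 [(.s k244 k248 1 (.d k84 k164 k168 11
  13)), (.s k48 k32 3 (.s k144 k208 7 (.s k96 k192 11 (.d k112 k64 k176 3 7))))] .n) .n))) (.c k10
  (.q k2 [(.s k48 k32 3 (.s k144 k208 7 (.s k112 k176 7 (.d k96 k64 k192 3 11)))), (.s k48 k32 3 (.s
  k84 k168 13 (.s k152 k220 9 (.s k100 k204 13 (.d k116 k68 k184 3 9))))), (.s k84 k168 13 (.s k208
  k144 7 (.s k220 k152 9 (.s k212 k216 1 (.d k192 k224 k232 3 5)))))] (.c k4 (.l (.s k5 k1 1 (.s k48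
  k32 3 (.s k144 k208 7 (.s k96 k192 11 (.d k112 k64 k176 3 7)))))) (.c k5 (.q k4 [(.s k244 k248 1
  (.d k84 k164 k168 11 13)), (.s k48 k32 3 (.s k144 k208 7 (.s k96 k192 11 (.d k112 k64 k176 3
  7))))] .n) (.c k224 (.l (.s k144 k208 7 (.s k48 k32 3 (.s k96 k192 11 (.d k112 k64 k176 3 7)))))
  .n)))) .n))))) .n))))) (.c k9 (.q k6 [(.s k48 k32 3 (.s k144 k208 7 (.s k112 k176 7 (.d k96 k64
  k192 3 11)))), (.s k48 k32 3 (.s k84 k168 13 (.s k152 k220 9 (.s k100 k204 13 (.d k116 k68 k184 3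
  9))))), (.s k84 k168 13 (.s k208 k144 7 (.s k220 k152 9 (.s k212 k216 1 (.d k192 k224 k232 3
  5)))))] (.c k13 (.q k14 [(.s k48 k32 3 (.s k144 k208 7 (.s k112 k176 7 (.d k96 k64 k192 3 11)))),
  (.s k48 k32 3 (.s k84 k168 13 (.s k152 k220 9 (.s k100 k204 13 (.d k116 k68 k184 3 9))))), (.s k84
  k168 13 (.s k208 k144 7 (.s k220 k152 9 (.s k212 k216 1 (.d k192 k224 k232 3 5)))))] (.c k1 (.q k5
  [(.s k48 k32 3 (.s k144 k208 7 (.s k112 k176 7 (.d k96 k64 k192 3 11)))), (.s k48 k32 3 (.s k84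
  k168 13 (.s k152 k220 9 (.s k100 k204 13 (.d k116 k68 k184 3 9))))), (.s k84 k168 13 (.s k208 k144
  7 (.s k220 k152 9 (.s k212 k216 1 (.d k192 k224 k232 3 5)))))] (.c k224 (.l (.s k144 k208 7 (.s
  k48 k32 3 (.s k96 k192 11 (.d k112 k64 k176 3 7))))) .n)) (.c k5 (.q k1 [(.s k48 k32 3 (.s k144
  k208 7 (.s k112 k176 7 (.d k96 k64 k192 3 11)))), (.s k48 k32 3 (.s k84 k168 13 (.s k152 k220 9
  (.s k100 k204 13 (.d k116 k68 k184 3 9))))), (.s k84 k168 13 (.s k208 k144 7 (.s k220 k152 9 (.s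
  k212 k216 1 (.d k192 k224 k232 3 5)))))] (.c k224 (.l (.s k144 k208 7 (.s k48 k32 3 (.s k96 k192
  11 (.d k112 k64 k176 3 7))))) .n)) (.c k224 (.l (.s k144 k208 7 (.s k48 k32 3 (.s k96 k192 11 (.d
  k112 k64 k176 3 7))))) .n)))) (.c k14 (.q k13 [(.s k48 k32 3 (.s k144 k208 7 (.s k112 k176 7 (.d
  k96 k64 k192 3 11)))), (.s k48 k32 3 (.s k84 k168 13 (.s k152 k220 9 (.s k100 k204 13 (.d k116 k68
  k184 3 9))))), (.s k84 k168 13 (.s k208 k144 7 (.s k220 k152 9 (.s k212 k216 1 (.d k192 k224 k232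
  3 5)))))] (.c k224 (.l (.s k144 k208 7 (.s k48 k32 3 (.s k96 k192 11 (.d k112 k64 k176 3 7)))))
  .n)) (.c k224 (.l (.s k144 k208 7 (.s k48 k32 3 (.s k96 k192 11 (.d k112 k64 k176 3 7))))) .n))))
  (.c k13 (.q k14 [(.s k48 k32 3 (.s k144 k208 7 (.s k112 k176 7 (.d k96 k64 k192 3 11)))), (.s k48
  k32 3 (.s k84 k168 13 (.s k152 k220 9 (.s k100 k204 13 (.d k116 k68 k184 3 9))))), (.s k84 k168 13
  (.s k208 k144 7 (.s k220 k152 9 (.s k212 k216 1 (.d k192 k224 k232 3 5)))))] (.c k6 (.q k9 [(.s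
  k168 k84 13 (.s k8 k10 0 (.d k248 k244 k88 1 11))), (.s k48 k32 3 (.s k144 k208 7 (.s k96 k192 11
  (.d k112 k64 k176 3 7))))] (.c k4 (.q k5 [(.s k168 k84 13 (.s k8 k10 0 (.d k248 k244 k88 1 11))),
  (.s k48 k32 3 (.s k144 k208 7 (.s k96 k192 11 (.d k112 k64 k176 3 7))))] .n) (.c k5 (.q k4 [(.s
  k244 k248 1 (.d k84 k164 k168 11 13)), (.s k48 k32 3 (.s k144 k208 7 (.s k96 k192 11 (.d k112 k64
  k176 3 7))))] .n) .n))) (.c k9 (.q k6 [(.s k48 k32 3 (.s k144 k208 7 (.s k112 k176 7 (.d k96 k64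
  k192 3 11)))), (.s k48 k32 3 (.s k84 k168 13 (.s k152 k220 9 (.s k100 k204 13 (.d k116 k68 k184 3
  9))))), (.s k84 k168 13 (.s k208 k144 7 (.s k220 k152 9 (.s k212 k216 1 (.d k192 k224 k232 3
  5)))))] (.c k1 (.q k5 [(.s k48 k32 3 (.s k144 k208 7 (.s k112 k176 7 (.d k96 k64 k192 3 11)))),
  (.s k48 k32 3 (.s k84 k168 13 (.s k152 k220 9 (.s k100 k204 13 (.d k116 k68 k184 3 9))))), (.s k84
  k168 13 (.s k208 k144 7 (.s k220 k152 9 (.s k212 k216 1 (.d k192 k224 k232 3 5)))))] (.c k224 (.l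
  (.s k144 k208 7 (.s k48 k32 3 (.s k96 k192 11 (.d k112 k64 k176 3 7))))) .n)) (.c k5 (.q k1 [(.s
  k48 k32 3 (.s k144 k208 7 (.s k112 k176 7 (.d k96 k64 k192 3 11)))), (.s k48 k32 3 (.s k84 k168 13
  (.s k152 k220 9 (.s k100 k204 13 (.d k116 k68 k184 3 9))))), (.s k84 k168 13 (.s k208 k144 7 (.s
  k220 k152 9 (.s k212 k216 1 (.d k192 k224 k232 3 5)))))] (.c k224 (.l (.s k144 k208 7 (.s k48 k32
  3 (.s k96 k192 11 (.d k112 k64 k176 3 7))))) .n)) (.c k224 (.l (.s k144 k208 7 (.s k48 k32 3 (.s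
  k96 k192 11 (.d k112 k64 k176 3 7))))) .n)))) (.c k224 (.l (.s k144 k208 7 (.s k48 k32 3 (.s k96
  k192 11 (.d k112 k64 k176 3 7))))) .n)))) (.c k14 (.q k13 [(.s k48 k32 3 (.s k144 k208 7 (.s k112
  k176 7 (.d k96 k64 k192 3 11)))), (.s k48 k32 3 (.s k84 k168 13 (.s k152 k220 9 (.s k100 k204 13
  (.d k116 k68 k184 3 9))))), (.s k84 k168 13 (.s k208 k144 7 (.s k220 k152 9 (.s k212 k216 1 (.d
  k192 k224 k232 3 5)))))] (.c k6 (.q k9 [(.s k168 k84 13 (.s k248 k244 1 (.d k8 k10 k88 0 11))),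
  (.s k5 k1 1 (.s k48 k32 3 (.s k144 k208 7 (.s k96 k192 11 (.d k112 k64 k176 3 7)))))] (.c k2 (.l
  (.s k10 k8 0 (.s k48 k32 3 (.s k144 k208 7 (.s k96 k192 11 (.d k112 k64 k176 3 7)))))) (.c k4 (.l
  (.s k5 k1 1 (.s k48 k32 3 (.s k144 k208 7 (.s k96 k192 11 (.d k112 k64 k176 3 7)))))) (.c k5 (.q
  k4 [(.s k244 k248 1 (.d k84 k164 k168 11 13)), (.s k48 k32 3 (.s k144 k208 7 (.s k96 k192 11 (.d
  k112 k64 k176 3 7))))] (.c k2 (.l (.s k10 k8 0 (.s k84 k168 13 (.d k244 k248 k164 1 11)))) (.c k10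
  (.q k2 [(.s k244 k248 1 (.d k84 k164 k168 11 13)), (.s k48 k32 3 (.s k144 k208 7 (.s k96 k192 11
  (.d k112 k64 k176 3 7))))] .n) .n))) (.c k10 (.q k2 [(.s k48 k32 3 (.s k144 k208 7 (.s k112 k176 7
  (.d k96 k64 k192 3 11)))), (.s k48 k32 3 (.s k84 k168 13 (.s k152 k220 9 (.s k100 k204 13 (.d k116
  k68 k184 3 9))))), (.s k84 k168 13 (.s k208 k144 7 (.s k220 k152 9 (.s k212 k216 1 (.d k192 k224
  k232 3 5)))))] (.c k4 (.l (.s k5 k1 1 (.s k48 k32 3 (.s k144 k208 7 (.s k96 k192 11 (.d k112 k64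
  k176 3 7)))))) (.c k5 (.q k4 [(.s k244 k248 1 (.d k84 k164 k168 11 13)), (.s k48 k32 3 (.s k144
  k208 7 (.s k96 k192 11 (.d k112 k64 k176 3 7))))] .n) (.c k224 (.l (.s k144 k208 7 (.s k48 k32 3
  (.s k96 k192 11 (.d k112 k64 k176 3 7))))) .n)))) .n))))) (.c k9 (.q k6 [(.s k48 k32 3 (.s k144
  k208 7 (.s k112 k176 7 (.d k96 k64 k192 3 11)))), (.s k48 k32 3 (.s k84 k168 13 (.s k152 k220 9
  (.s k100 k204 13 (.d k116 k68 k184 3 9))))), (.s k84 k168 13 (.s k208 k144 7 (.s k220 k152 9 (.s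
  k212 k216 1 (.d k192 k224 k232 3 5)))))] (.c k224 (.l (.s k144 k208 7 (.s k48 k32 3 (.s k96 k192
  11 (.d k112 k64 k176 3 7))))) .n)) (.c k224 (.l (.s k144 k208 7 (.s k48 k32 3 (.s k96 k192 11 (.d
  k112 k64 k176 3 7))))) .n)))) (.c k224 (.l (.s k144 k208 7 (.s k48 k32 3 (.s k96 k192 11 (.d k112
  k64 k176 3 7))))) .n)))))) (.c k9 (.q k6 [(.s k48 k32 3 (.s k144 k208 7 (.s k112 k176 7 (.d k96
  k64 k192 3 11)))), (.s k48 k32 3 (.s k84 k168 13 (.s k152 k220 9 (.s k100 k204 13 (.d k116 k68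
  k184 3 9))))), (.s k84 k168 13 (.s k208 k144 7 (.s k220 k152 9 (.s k212 k216 1 (.d k192 k224 k232
  3 5)))))] (.c k7 (.q k11 [(.s k48 k32 3 (.s k144 k208 7 (.s k112 k176 7 (.d k96 k64 k192 3 11)))),
  (.s k48 k32 3 (.s k84 k168 13 (.s k152 k220 9 (.s k100 k204 13 (.d k116 k68 k184 3 9))))), (.s k84
  k168 13 (.s k208 k144 7 (.s k220 k152 9 (.s k212 k216 1 (.d k192 k224 k232 3 5)))))] (.c k13 (.q
  k14 [(.s k48 k32 3 (.s k144 k208 7 (.s k112 k176 7 (.d k96 k64 k192 3 11)))), (.s k48 k32 3 (.s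
  k84 k168 13 (.s k152 k220 9 (.s k100 k204 13 (.d k116 k68 k184 3 9))))), (.s k84 k168 13 (.s k208
  k144 7 (.s k220 k152 9 (.s k212 k216 1 (.d k192 k224 k232 3 5)))))] (.c k1 (.q k5 [(.s k48 k32 3
  (.s k144 k208 7 (.s k112 k176 7 (.d k96 k64 k192 3 11)))), (.s k48 k32 3 (.s k84 k168 13 (.s k152
  k220 9 (.s k100 k204 13 (.d k116 k68 k184 3 9))))), (.s k84 k168 13 (.s k208 k144 7 (.s k220 k152
  9 (.s k212 k216 1 (.d k192 k224 k232 3 5)))))] (.c k224 (.l (.s k144 k208 7 (.s k48 k32 3 (.s k96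
  k192 11 (.d k112 k64 k176 3 7))))) .n)) (.c k5 (.q k1 [(.s k48 k32 3 (.s k144 k208 7 (.s k112 k176
  7 (.d k96 k64 k192 3 11)))), (.s k48 k32 3 (.s k84 k168 13 (.s k152 k220 9 (.s k100 k204 13 (.d
  k116 k68 k184 3 9))))), (.s k84 k168 13 (.s k208 k144 7 (.s k220 k152 9 (.s k212 k216 1 (.d k192
  k224 k232 3 5)))))] (.c k224 (.l (.s k144 k208 7 (.s k48 k32 3 (.s k96 k192 11 (.d k112 k64 k176 3
  7))))) .n)) (.c k224 (.l (.s k144 k208 7 (.s k48 k32 3 (.s k96 k192 11 (.d k112 k64 k176 3 7)))))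
  .n)))) (.c k14 (.q k13 [(.s k48 k32 3 (.s k144 k208 7 (.s k112 k176 7 (.d k96 k64 k192 3 11)))),
  (.s k48 k32 3 (.s k84 k168 13 (.s k152 k220 9 (.s k100 k204 13 (.d k116 k68 k184 3 9))))), (.s k84
  k168 13 (.s k208 k144 7 (.s k220 k152 9 (.s k212 k216 1 (.d k192 k224 k232 3 5)))))] (.c k224 (.l
  (.s k144 k208 7 (.s k48 k32 3 (.s k96 k192 11 (.d k112 k64 k176 3 7))))) .n)) (.c k224 (.l (.s
  k144 k208 7 (.s k48 k32 3 (.s k96 k192 11 (.d k112 k64 k176 3 7))))) .n)))) (.c k11 (.q k7 [(.s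
  k84 k168 13 (.s k4 k5 0 (.d k244 k164 k248 11 1))), (.s k48 k32 3 (.s k144 k208 7 (.s k96 k192 11
  (.d k112 k64 k176 3 7))))] (.c k8 (.q k10 [(.s k84 k168 13 (.s k4 k5 0 (.d k244 k248 k164 1 11))),
  (.s k48 k32 3 (.s k144 k208 7 (.s k96 k192 11 (.d k112 k64 k176 3 7))))] (.c k13 (.l (.s k14 k2 1
  (.s k48 k32 3 (.s k144 k208 7 (.s k96 k192 11 (.d k112 k64 k176 3 7)))))) (.c k14 (.q k13 [(.s k84
  k168 13 (.s k4 k5 0 (.d k244 k248 k164 1 11))), (.s k48 k32 3 (.s k144 k208 7 (.s k96 k192 11 (.d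
  k112 k64 k176 3 7))))] .n) .n))) (.c k10 (.q k8 [(.s k168 k84 13 (.d k248 k244 k88 1 11)), (.s k48
  k32 3 (.s k144 k208 7 (.s k96 k192 11 (.d k112 k64 k176 3 7))))] (.c k13 (.q k14 [(.s k168 k84 13
  (.d k248 k244 k88 1 11)), (.s k48 k32 3 (.s k144 k208 7 (.s k96 k192 11 (.d k112 k64 k176 3 7))))]
  (.c k1 (.l (.s k5 k4 0 (.s k168 k84 13 (.d k248 k244 k88 1 11)))) (.c k5 (.q k1 [(.s k168 k84 13
  (.d k248 k244 k88 1 11)), (.s k48 k32 3 (.s k144 k208 7 (.s k96 k192 11 (.d k112 k64 k176 3 7))))]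
  .n) .n))) (.c k14 (.q k13 [(.s k168 k84 13 (.d k248 k244 k88 1 11)), (.s k48 k32 3 (.s k144 k208 7
  (.s k96 k192 11 (.d k112 k64 k176 3 7))))] .n) .n))) (.c k13 (.q k14 [(.s k84 k168 13 (.s k244
  k248 1 (.d k4 k5 k164 0 11))), (.s k48 k32 3 (.s k144 k208 7 (.s k96 k192 11 (.d k112 k64 k176 3
  7))))] (.c k1 (.l (.s k5 k4 0 (.s k48 k32 3 (.s k144 k208 7 (.s k96 k192 11 (.d k112 k64 k176 3
  7)))))) (.c k5 (.q k1 [(.s k48 k32 3 (.s k144 k208 7 (.s k112 k176 7 (.d k96 k64 k192 3 11)))),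
  (.s k48 k32 3 (.s k84 k168 13 (.s k152 k220 9 (.s k100 k204 13 (.d k116 k68 k184 3 9))))), (.s k84
  k168 13 (.s k208 k144 7 (.s k220 k152 9 (.s k212 k216 1 (.d k192 k224 k232 3 5)))))] (.c k8 (.l
  (.s k10 k2 1 (.s k48 k32 3 (.s k144 k208 7 (.s k96 k192 11 (.d k112 k64 k176 3 7)))))) (.c k10 (.q
  k8 [(.s k168 k84 13 (.d k248 k244 k88 1 11)), (.s k48 k32 3 (.s k144 k208 7 (.s k96 k192 11 (.d
  k112 k64 k176 3 7))))] .n) (.c k224 (.l (.s k144 k208 7 (.s k48 k32 3 (.s k96 k192 11 (.d k112 k64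
  k176 3 7))))) .n)))) (.c k8 (.l (.s k10 k2 1 (.s k48 k32 3 (.s k144 k208 7 (.s k96 k192 11 (.d
  k112 k64 k176 3 7)))))) (.c k10 (.q k8 [(.s k168 k84 13 (.d k248 k244 k88 1 11)), (.s k48 k32 3
  (.s k144 k208 7 (.s k96 k192 11 (.d k112 k64 k176 3 7))))] (.c k1 (.l (.s k5 k4 0 (.s k168 k84 13
  (.d k248 k244 k88 1 11)))) (.c k5 (.q k1 [(.s k168 k84 13 (.d k248 k244 k88 1 11)), (.s k48 k32 3
  (.s k144 k208 7 (.s k96 k192 11 (.d k112 k64 k176 3 7))))] .n) .n))) .n))))) (.c k14 (.q k13 [(.s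
  k84 k168 13 (.s k4 k5 0 (.d k244 k164 k248 11 1))), (.s k48 k32 3 (.s k144 k208 7 (.s k96 k192 11
  (.d k112 k64 k176 3 7))))] (.c k8 (.q k10 [(.s k84 k168 13 (.s k4 k5 0 (.d k244 k248 k164 1 11))),
  (.s k48 k32 3 (.s k144 k208 7 (.s k96 k192 11 (.d k112 k64 k176 3 7))))] .n) (.c k10 (.q k8 [(.s
  k168 k84 13 (.d k248 k244 k88 1 11)), (.s k48 k32 3 (.s k144 k208 7 (.s k96 k192 11 (.d k112 k64
  k176 3 7))))] .n) .n))) .n))))) (.c k13 (.q k14 [(.s k48 k32 3 (.s k144 k208 7 (.s k112 k176 7 (.d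
  k96 k64 k192 3 11)))), (.s k48 k32 3 (.s k84 k168 13 (.s k152 k220 9 (.s k100 k204 13 (.d k116 k68
  k184 3 9))))), (.s k84 k168 13 (.s k208 k144 7 (.s k220 k152 9 (.s k212 k216 1 (.d k192 k224 k232
  3 5)))))] (.c k1 (.q k5 [(.s k84 k168 13 (.s k244 k248 1 (.d k4 k7 k164 0 11))), (.s k48 k32 3 (.s
  k144 k208 7 (.s k96 k192 11 (.d k112 k64 k176 3 7))))] (.c k7 (.q k11 [(.s k48 k32 3 (.s k144 k208
  7 (.s k112 k176 7 (.d k96 k64 k192 3 11)))), (.s k48 k32 3 (.s k84 k168 13 (.s k152 k220 9 (.s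
  k100 k204 13 (.d k116 k68 k184 3 9))))), (.s k84 k168 13 (.s k208 k144 7 (.s k220 k152 9 (.s k212
  k216 1 (.d k192 k224 k232 3 5)))))] (.c k224 (.l (.s k144 k208 7 (.s k48 k32 3 (.s k96 k192 11 (.d
  k112 k64 k176 3 7))))) .n)) (.c k11 (.l (.s k7 k4 0 (.s k48 k32 3 (.s k144 k208 7 (.s k96 k192 11
  (.d k112 k64 k176 3 7)))))) .n))) (.c k5 (.q k1 [(.s k48 k32 3 (.s k144 k208 7 (.s k112 k176 7 (.d
  k96 k64 k192 3 11)))), (.s k48 k32 3 (.s k84 k168 13 (.s k152 k220 9 (.s k100 k204 13 (.d k116 k68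
  k184 3 9))))), (.s k84 k168 13 (.s k208 k144 7 (.s k220 k152 9 (.s k212 k216 1 (.d k192 k224 k232
  3 5)))))] (.c k7 (.q k11 [(.s k48 k32 3 (.s k144 k208 7 (.s k112 k176 7 (.d k96 k64 k192 3 11)))),
  (.s k48 k32 3 (.s k84 k168 13 (.s k152 k220 9 (.s k100 k204 13 (.d k116 k68 k184 3 9))))), (.s k84
  k168 13 (.s k208 k144 7 (.s k220 k152 9 (.s k212 k216 1 (.d k192 k224 k232 3 5)))))] (.c k224 (.l
  (.s k144 k208 7 (.s k48 k32 3 (.s k96 k192 11 (.d k112 k64 k176 3 7))))) .n)) (.c k11 (.q k7 [(.s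
  k48 k32 3 (.s k144 k208 7 (.s k112 k176 7 (.d k96 k64 k192 3 11)))), (.s k48 k32 3 (.s k84 k168 13
  (.s k152 k220 9 (.s k100 k204 13 (.d k116 k68 k184 3 9))))), (.s k84 k168 13 (.s k208 k144 7 (.s
  k220 k152 9 (.s k212 k216 1 (.d k192 k224 k232 3 5)))))] (.c k8 (.l (.s k10 k2 1 (.s k48 k32 3 (.s
  k144 k208 7 (.s k96 k192 11 (.d k112 k64 k176 3 7)))))) (.c k10 (.q k8 [(.s k168 k84 13 (.d k248
  k244 k88 1 11)), (.s k48 k32 3 (.s k144 k208 7 (.s k96 k192 11 (.d k112 k64 k176 3 7))))] .n) (.c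
  k224 (.l (.s k144 k208 7 (.s k48 k32 3 (.s k96 k192 11 (.d k112 k64 k176 3 7))))) .n)))) (.c k224
  (.l (.s k144 k208 7 (.s k48 k32 3 (.s k96 k192 11 (.d k112 k64 k176 3 7))))) .n)))) (.c k7 (.q k11
  [(.s k48 k32 3 (.s k144 k208 7 (.s k112 k176 7 (.d k96 k64 k192 3 11)))), (.s k48 k32 3 (.s k84
  k168 13 (.s k152 k220 9 (.s k100 k204 13 (.d k116 k68 k184 3 9))))), (.s k84 k168 13 (.s k208 k144
  7 (.s k220 k152 9 (.s k212 k216 1 (.d k192 k224 k232 3 5)))))] (.c k1 (.q k5 [(.s k48 k32 3 (.s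
  k144 k208 7 (.s k112 k176 7 (.d k96 k64 k192 3 11)))), (.s k48 k32 3 (.s k84 k168 13 (.s k152 k220
  9 (.s k100 k204 13 (.d k116 k68 k184 3 9))))), (.s k84 k168 13 (.s k208 k144 7 (.s k220 k152 9 (.s
  k212 k216 1 (.d k192 k224 k232 3 5)))))] (.c k224 (.l (.s k144 k208 7 (.s k48 k32 3 (.s k96 k192
  11 (.d k112 k64 k176 3 7))))) .n)) (.c k5 (.q k1 [(.s k48 k32 3 (.s k144 k208 7 (.s k112 k176 7
  (.d k96 k64 k192 3 11)))), (.s k48 k32 3 (.s k84 k168 13 (.s k152 k220 9 (.s k100 k204 13 (.d k116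
  k68 k184 3 9))))), (.s k84 k168 13 (.s k208 k144 7 (.s k220 k152 9 (.s k212 k216 1 (.d k192 k224
  k232 3 5)))))] (.c k224 (.l (.s k144 k208 7 (.s k48 k32 3 (.s k96 k192 11 (.d k112 k64 k176 3
  7))))) .n)) (.c k224 (.l (.s k144 k208 7 (.s k48 k32 3 (.s k96 k192 11 (.d k112 k64 k176 3 7)))))
  .n)))) (.c k11 (.q k7 [(.s k84 k168 13 (.s k244 k248 1 (.d k4 k5 k164 0 11))), (.s k48 k32 3 (.s
  k144 k208 7 (.s k96 k192 11 (.d k112 k64 k176 3 7))))] (.c k1 (.l (.s k5 k4 0 (.s k48 k32 3 (.s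
  k144 k208 7 (.s k96 k192 11 (.d k112 k64 k176 3 7)))))) (.c k5 (.q k1 [(.s k48 k32 3 (.s k144 k208
  7 (.s k112 k176 7 (.d k96 k64 k192 3 11)))), (.s k48 k32 3 (.s k84 k168 13 (.s k152 k220 9 (.s
  k100 k204 13 (.d k116 k68 k184 3 9))))), (.s k84 k168 13 (.s k208 k144 7 (.s k220 k152 9 (.s k212
  k216 1 (.d k192 k224 k232 3 5)))))] (.c k8 (.l (.s k10 k2 1 (.s k48 k32 3 (.s k144 k208 7 (.s k96
  k192 11 (.d k112 k64 k176 3 7)))))) (.c k10 (.q k8 [(.s k168 k84 13 (.d k248 k244 k88 1 11)), (.s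
  k48 k32 3 (.s k144 k208 7 (.s k96 k192 11 (.d k112 k64 k176 3 7))))] .n) (.c k224 (.l (.s k144
  k208 7 (.s k48 k32 3 (.s k96 k192 11 (.d k112 k64 k176 3 7))))) .n)))) (.c k8 (.l (.s k10 k2 1 (.s
  k48 k32 3 (.s k144 k208 7 (.s k96 k192 11 (.d k112 k64 k176 3 7)))))) (.c k10 (.q k8 [(.s k168 k84
  13 (.d k248 k244 k88 1 11)), (.s k48 k32 3 (.s k144 k208 7 (.s k96 k192 11 (.d k112 k64 k176 3
  7))))] (.c k1 (.l (.s k5 k4 0 (.s k168 k84 13 (.d k248 k244 k88 1 11)))) (.c k5 (.q k1 [(.s k168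
  k84 13 (.d k248 k244 k88 1 11)), (.s k48 k32 3 (.s k144 k208 7 (.s k96 k192 11 (.d k112 k64 k176 3
  7))))] .n) .n))) .n))))) (.c k224 (.l (.s k144 k208 7 (.s k48 k32 3 (.s k96 k192 11 (.d k112 k64
  k176 3 7))))) .n)))))) (.c k14 (.q k13 [(.s k48 k32 3 (.s k144 k208 7 (.s k112 k176 7 (.d k96 k64
  k192 3 11)))), (.s k48 k32 3 (.s k84 k168 13 (.s k152 k220 9 (.s k100 k204 13 (.d k116 k68 k184 3
  9))))), (.s k84 k168 13 (.s k208 k144 7 (.s k220 k152 9 (.s k212 k216 1 (.d k192 k224 k232 3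
  5)))))] (.c k7 (.q k11 [(.s k48 k32 3 (.s k144 k208 7 (.s k112 k176 7 (.d k96 k64 k192 3 11)))),
  (.s k48 k32 3 (.s k84 k168 13 (.s k152 k220 9 (.s k100 k204 13 (.d k116 k68 k184 3 9))))), (.s k84
  k168 13 (.s k208 k144 7 (.s k220 k152 9 (.s k212 k216 1 (.d k192 k224 k232 3 5)))))] (.c k224 (.l
  (.s k144 k208 7 (.s k48 k32 3 (.s k96 k192 11 (.d k112 k64 k176 3 7))))) .n)) (.c k11 (.q k7 [(.s
  k84 k168 13 (.s k4 k5 0 (.d k244 k164 k248 11 1))), (.s k48 k32 3 (.s k144 k208 7 (.s k96 k192 11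
  (.d k112 k64 k176 3 7))))] (.c k8 (.q k10 [(.s k84 k168 13 (.s k4 k5 0 (.d k244 k248 k164 1 11))),
  (.s k48 k32 3 (.s k144 k208 7 (.s k96 k192 11 (.d k112 k64 k176 3 7))))] .n) (.c k10 (.q k8 [(.s
  k168 k84 13 (.d k248 k244 k88 1 11)), (.s k48 k32 3 (.s k144 k208 7 (.s k96 k192 11 (.d k112 k64
  k176 3 7))))] .n) .n))) (.c k224 (.l (.s k144 k208 7 (.s k48 k32 3 (.s k96 k192 11 (.d k112 k64
  k176 3 7))))) .n)))) (.c k224 (.l (.s k144 k208 7 (.s k48 k32 3 (.s k96 k192 11 (.d k112 k64 k176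
  3 7))))) .n)))))) (.c k11 (.q k7 [(.s k48 k32 3 (.s k144 k208 7 (.s k112 k176 7 (.d k96 k64 k192 3
  11)))), (.s k48 k32 3 (.s k84 k168 13 (.s k152 k220 9 (.s k100 k204 13 (.d k116 k68 k184 3 9))))),
  (.s k84 k168 13 (.s k208 k144 7 (.s k220 k152 9 (.s k212 k216 1 (.d k192 k224 k232 3 5)))))] (.c
  k6 (.q k9 [(.s k48 k32 3 (.s k144 k208 7 (.s k112 k176 7 (.d k96 k64 k192 3 11)))), (.s k48 k32 3
  (.s k84 k168 13 (.s k152 k220 9 (.s k100 k204 13 (.d k116 k68 k184 3 9))))), (.s k84 k168 13 (.s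
  k208 k144 7 (.s k220 k152 9 (.s k212 k216 1 (.d k192 k224 k232 3 5)))))] (.c k13 (.q k14 [(.s k48
  k32 3 (.s k144 k208 7 (.s k112 k176 7 (.d k96 k64 k192 3 11)))), (.s k48 k32 3 (.s k84 k168 13 (.s
  k152 k220 9 (.s k100 k204 13 (.d k116 k68 k184 3 9))))), (.s k84 k168 13 (.s k208 k144 7 (.s k220
  k152 9 (.s k212 k216 1 (.d k192 k224 k232 3 5)))))] (.c k224 (.l (.s k144 k208 7 (.s k48 k32 3 (.s
  k96 k192 11 (.d k112 k64 k176 3 7))))) .n)) (.c k14 (.q k13 [(.s k48 k32 3 (.s k144 k208 7 (.s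
  k112 k176 7 (.d k96 k64 k192 3 11)))), (.s k48 k32 3 (.s k84 k168 13 (.s k152 k220 9 (.s k100 k204
  13 (.d k116 k68 k184 3 9))))), (.s k84 k168 13 (.s k208 k144 7 (.s k220 k152 9 (.s k212 k216 1 (.d
  k192 k224 k232 3 5)))))] (.c k2 (.q k10 [(.s k48 k32 3 (.s k144 k208 7 (.s k112 k176 7 (.d k96 k64
  k192 3 11)))), (.s k48 k32 3 (.s k84 k168 13 (.s k152 k220 9 (.s k100 k204 13 (.d k116 k68 k184 3
  9))))), (.s k84 k168 13 (.s k208 k144 7 (.s k220 k152 9 (.s k212 k216 1 (.d k192 k224 k232 3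
  5)))))] (.c k224 (.l (.s k144 k208 7 (.s k48 k32 3 (.s k96 k192 11 (.d k112 k64 k176 3 7))))) .n))
  (.c k10 (.q k2 [(.s k48 k32 3 (.s k144 k208 7 (.s k112 k176 7 (.d k96 k64 k192 3 11)))), (.s k48
  k32 3 (.s k84 k168 13 (.s k152 k220 9 (.s k100 k204 13 (.d k116 k68 k184 3 9))))), (.s k84 k168 13
  (.s k208 k144 7 (.s k220 k152 9 (.s k212 k216 1 (.d k192 k224 k232 3 5)))))] (.c k224 (.l (.s k144
  k208 7 (.s k48 k32 3 (.s k96 k192 11 (.d k112 k64 k176 3 7))))) .n)) (.c k224 (.l (.s k144 k208 7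
  (.s k48 k32 3 (.s k96 k192 11 (.d k112 k64 k176 3 7))))) .n)))) (.c k224 (.l (.s k144 k208 7 (.s
  k48 k32 3 (.s k96 k192 11 (.d k112 k64 k176 3 7))))) .n)))) (.c k9 (.q k6 [(.s k84 k168 13 (.s k4
  k5 0 (.d k244 k164 k248 11 1))), (.s k48 k32 3 (.s k144 k208 7 (.s k96 k192 11 (.d k112 k64 k176 3
  7))))] (.c k8 (.q k10 [(.s k84 k168 13 (.s k4 k5 0 (.d k244 k248 k164 1 11))), (.s k48 k32 3 (.s
  k144 k208 7 (.s k96 k192 11 (.d k112 k64 k176 3 7))))] (.c k13 (.l (.s k14 k2 1 (.s k48 k32 3 (.s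
  k144 k208 7 (.s k96 k192 11 (.d k112 k64 k176 3 7)))))) (.c k14 (.q k13 [(.s k84 k168 13 (.s k4 k5
  0 (.d k244 k248 k164 1 11))), (.s k48 k32 3 (.s k144 k208 7 (.s k96 k192 11 (.d k112 k64 k176 3
  7))))] .n) .n))) (.c k10 (.q k8 [(.s k168 k84 13 (.d k248 k244 k88 1 11)), (.s k48 k32 3 (.s k144
  k208 7 (.s k96 k192 11 (.d k112 k64 k176 3 7))))] (.c k13 (.q k14 [(.s k168 k84 13 (.d k248 k244
  k88 1 11)), (.s k48 k32 3 (.s k144 k208 7 (.s k96 k192 11 (.d k112 k64 k176 3 7))))] (.c k1 (.l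
  (.s k5 k4 0 (.s k168 k84 13 (.d k248 k244 k88 1 11)))) (.c k5 (.q k1 [(.s k168 k84 13 (.d k248
  k244 k88 1 11)), (.s k48 k32 3 (.s k144 k208 7 (.s k96 k192 11 (.d k112 k64 k176 3 7))))] .n)
  .n))) (.c k14 (.q k13 [(.s k168 k84 13 (.d k248 k244 k88 1 11)), (.s k48 k32 3 (.s k144 k208 7 (.s
  k96 k192 11 (.d k112 k64 k176 3 7))))] .n) .n))) (.c k13 (.q k14 [(.s k84 k168 13 (.s k244 k248 1
  (.d k4 k5 k164 0 11))), (.s k48 k32 3 (.s k144 k208 7 (.s k96 k192 11 (.d k112 k64 k176 3 7))))]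
  (.c k1 (.l (.s k5 k4 0 (.s k48 k32 3 (.s k144 k208 7 (.s k96 k192 11 (.d k112 k64 k176 3 7))))))
  (.c k5 (.q k1 [(.s k48 k32 3 (.s k144 k208 7 (.s k112 k176 7 (.d k96 k64 k192 3 11)))), (.s k48
  k32 3 (.s k84 k168 13 (.s k152 k220 9 (.s k100 k204 13 (.d k116 k68 k184 3 9))))), (.s k84 k168 13
  (.s k208 k144 7 (.s k220 k152 9 (.s k212 k216 1 (.d k192 k224 k232 3 5)))))] (.c k8 (.l (.s k10 k2
  1 (.s k48 k32 3 (.s k144 k208 7 (.s k96 k192 11 (.d k112 k64 k176 3 7)))))) (.c k10 (.q k8 [(.s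
  k168 k84 13 (.d k248 k244 k88 1 11)), (.s k48 k32 3 (.s k144 k208 7 (.s k96 k192 11 (.d k112 k64
  k176 3 7))))] .n) (.c k224 (.l (.s k144 k208 7 (.s k48 k32 3 (.s k96 k192 11 (.d k112 k64 k176 3
  7))))) .n)))) (.c k8 (.l (.s k10 k2 1 (.s k48 k32 3 (.s k144 k208 7 (.s k96 k192 11 (.d k112 k64
  k176 3 7)))))) (.c k10 (.q k8 [(.s k168 k84 13 (.d k248 k244 k88 1 11)), (.s k48 k32 3 (.s k144
  k208 7 (.s k96 k192 11 (.d k112 k64 k176 3 7))))] (.c k1 (.l (.s k5 k4 0 (.s k168 k84 13 (.d k248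
  k244 k88 1 11)))) (.c k5 (.q k1 [(.s k168 k84 13 (.d k248 k244 k88 1 11)), (.s k48 k32 3 (.s k144
  k208 7 (.s k96 k192 11 (.d k112 k64 k176 3 7))))] .n) .n))) .n))))) (.c k14 (.q k13 [(.s k84 k168
  13 (.s k4 k5 0 (.d k244 k164 k248 11 1))), (.s k48 k32 3 (.s k144 k208 7 (.s k96 k192 11 (.d k112
  k64 k176 3 7))))] (.c k8 (.q k10 [(.s k84 k168 13 (.s k4 k5 0 (.d k244 k248 k164 1 11))), (.s k48
  k32 3 (.s k144 k208 7 (.s k96 k192 11 (.d k112 k64 k176 3 7))))] .n) (.c k10 (.q k8 [(.s k168 k84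
  13 (.d k248 k244 k88 1 11)), (.s k48 k32 3 (.s k144 k208 7 (.s k96 k192 11 (.d k112 k64 k176 3
  7))))] .n) .n))) .n))))) (.c k13 (.q k14 [(.s k48 k32 3 (.s k144 k208 7 (.s k112 k176 7 (.d k96
  k64 k192 3 11)))), (.s k48 k32 3 (.s k84 k168 13 (.s k152 k220 9 (.s k100 k204 13 (.d k116 k68
  k184 3 9))))), (.s k84 k168 13 (.s k208 k144 7 (.s k220 k152 9 (.s k212 k216 1 (.d k192 k224 k232
  3 5)))))] (.c k6 (.q k9 [(.s k48 k32 3 (.s k144 k208 7 (.s k112 k176 7 (.d k96 k64 k192 3 11)))),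
  (.s k48 k32 3 (.s k84 k168 13 (.s k152 k220 9 (.s k100 k204 13 (.d k116 k68 k184 3 9))))), (.s k84
  k168 13 (.s k208 k144 7 (.s k220 k152 9 (.s k212 k216 1 (.d k192 k224 k232 3 5)))))] (.c k224 (.l
  (.s k144 k208 7 (.s k48 k32 3 (.s k96 k192 11 (.d k112 k64 k176 3 7))))) .n)) (.c k9 (.q k6 [(.s
  k84 k168 13 (.s k244 k248 1 (.d k4 k5 k164 0 11))), (.s k48 k32 3 (.s k144 k208 7 (.s k96 k192 11
  (.d k112 k64 k176 3 7))))] (.c k1 (.l (.s k5 k4 0 (.s k48 k32 3 (.s k144 k208 7 (.s k96 k192 11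
  (.d k112 k64 k176 3 7)))))) (.c k5 (.q k1 [(.s k48 k32 3 (.s k144 k208 7 (.s k112 k176 7 (.d k96
  k64 k192 3 11)))), (.s k48 k32 3 (.s k84 k168 13 (.s k152 k220 9 (.s k100 k204 13 (.d k116 k68
  k184 3 9))))), (.s k84 k168 13 (.s k208 k144 7 (.s k220 k152 9 (.s k212 k216 1 (.d k192 k224 k232
  3 5)))))] (.c k8 (.l (.s k10 k2 1 (.s k48 k32 3 (.s k144 k208 7 (.s k96 k192 11 (.d k112 k64 k176
  3 7)))))) (.c k10 (.q k8 [(.s k168 k84 13 (.d k248 k244 k88 1 11)), (.s k48 k32 3 (.s k144 k208 7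
  (.s k96 k192 11 (.d k112 k64 k176 3 7))))] .n) (.c k224 (.l (.s k144 k208 7 (.s k48 k32 3 (.s k96
  k192 11 (.d k112 k64 k176 3 7))))) .n)))) (.c k8 (.l (.s k10 k2 1 (.s k48 k32 3 (.s k144 k208 7
  (.s k96 k192 11 (.d k112 k64 k176 3 7)))))) (.c k10 (.q k8 [(.s k168 k84 13 (.d k248 k244 k88 1
  11)), (.s k48 k32 3 (.s k144 k208 7 (.s k96 k192 11 (.d k112 k64 k176 3 7))))] (.c k1 (.l (.s k5
  k4 0 (.s k168 k84 13 (.d k248 k244 k88 1 11)))) (.c k5 (.q k1 [(.s k168 k84 13 (.d k248 k244 k88 1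
  11)), (.s k48 k32 3 (.s k144 k208 7 (.s k96 k192 11 (.d k112 k64 k176 3 7))))] .n) .n))) .n)))))
  (.c k224 (.l (.s k144 k208 7 (.s k48 k32 3 (.s k96 k192 11 (.d k112 k64 k176 3 7))))) .n)))) (.c
  k14 (.q k13 [(.s k48 k32 3 (.s k144 k208 7 (.s k112 k176 7 (.d k96 k64 k192 3 11)))), (.s k48 k32
  3 (.s k84 k168 13 (.s k152 k220 9 (.s k100 k204 13 (.d k116 k68 k184 3 9))))), (.s k84 k168 13 (.s
  k208 k144 7 (.s k220 k152 9 (.s k212 k216 1 (.d k192 k224 k232 3 5)))))] (.c k6 (.q k9 [(.s k48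
  k32 3 (.s k144 k208 7 (.s k112 k176 7 (.d k96 k64 k192 3 11)))), (.s k48 k32 3 (.s k84 k168 13 (.s
  k152 k220 9 (.s k100 k204 13 (.d k116 k68 k184 3 9))))), (.s k84 k168 13 (.s k208 k144 7 (.s k220
  k152 9 (.s k212 k216 1 (.d k192 k224 k232 3 5)))))] (.c k2 (.q k10 [(.s k48 k32 3 (.s k144 k208 7
  (.s k112 k176 7 (.d k96 k64 k192 3 11)))), (.s k48 k32 3 (.s k84 k168 13 (.s k152 k220 9 (.s k100
  k204 13 (.d k116 k68 k184 3 9))))), (.s k84 k168 13 (.s k208 k144 7 (.s k220 k152 9 (.s k212 k216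
  1 (.d k192 k224 k232 3 5)))))] (.c k224 (.l (.s k144 k208 7 (.s k48 k32 3 (.s k96 k192 11 (.d k112
  k64 k176 3 7))))) .n)) (.c k10 (.q k2 [(.s k48 k32 3 (.s k144 k208 7 (.s k112 k176 7 (.d k96 k64
  k192 3 11)))), (.s k48 k32 3 (.s k84 k168 13 (.s k152 k220 9 (.s k100 k204 13 (.d k116 k68 k184 3
  9))))), (.s k84 k168 13 (.s k208 k144 7 (.s k220 k152 9 (.s k212 k216 1 (.d k192 k224 k232 3
  5)))))] (.c k224 (.l (.s k144 k208 7 (.s k48 k32 3 (.s k96 k192 11 (.d k112 k64 k176 3 7))))) .n))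
  (.c k224 (.l (.s k144 k208 7 (.s k48 k32 3 (.s k96 k192 11 (.d k112 k64 k176 3 7))))) .n)))) (.c
  k9 (.q k6 [(.s k84 k168 13 (.s k4 k5 0 (.d k244 k164 k248 11 1))), (.s k48 k32 3 (.s k144 k208 7
  (.s k96 k192 11 (.d k112 k64 k176 3 7))))] (.c k8 (.q k10 [(.s k84 k168 13 (.s k4 k5 0 (.d k244
  k248 k164 1 11))), (.s k48 k32 3 (.s k144 k208 7 (.s k96 k192 11 (.d k112 k64 k176 3 7))))] .n)
  (.c k10 (.q k8 [(.s k168 k84 13 (.d k248 k244 k88 1 11)), (.s k48 k32 3 (.s k144 k208 7 (.s k96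
  k192 11 (.d k112 k64 k176 3 7))))] .n) .n))) (.c k224 (.l (.s k144 k208 7 (.s k48 k32 3 (.s k96
  k192 11 (.d k112 k64 k176 3 7))))) .n)))) (.c k224 (.l (.s k144 k208 7 (.s k48 k32 3 (.s k96 k192
  11 (.d k112 k64 k176 3 7))))) .n)))))) (.c k13 (.q k14 [(.s k48 k32 3 (.s k144 k208 7 (.s k112
  k176 7 (.d k96 k64 k192 3 11)))), (.s k48 k32 3 (.s k84 k168 13 (.s k152 k220 9 (.s k100 k204 13
  (.d k116 k68 k184 3 9))))), (.s k84 k168 13 (.s k208 k144 7 (.s k220 k152 9 (.s k212 k216 1 (.d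
  k192 k224 k232 3 5)))))] (.c k6 (.q k9 [(.s k48 k32 3 (.s k144 k208 7 (.s k112 k176 7 (.d k96 k64
  k192 3 11)))), (.s k48 k32 3 (.s k84 k168 13 (.s k152 k220 9 (.s k100 k204 13 (.d k116 k68 k184 3
  9))))), (.s k84 k168 13 (.s k208 k144 7 (.s k220 k152 9 (.s k212 k216 1 (.d k192 k224 k232 3
  5)))))] (.c k7 (.q k11 [(.s k168 k84 13 (.s k8 k10 0 (.d k248 k244 k88 1 11))), (.s k48 k32 3 (.s
  k144 k208 7 (.s k96 k192 11 (.d k112 k64 k176 3 7))))] (.c k4 (.q k5 [(.s k168 k84 13 (.s k8 k10 0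
  (.d k248 k244 k88 1 11))), (.s k48 k32 3 (.s k144 k208 7 (.s k96 k192 11 (.d k112 k64 k176 3
  7))))] .n) (.c k5 (.q k4 [(.s k244 k248 1 (.d k84 k164 k168 11 13)), (.s k48 k32 3 (.s k144 k208 7
  (.s k96 k192 11 (.d k112 k64 k176 3 7))))] .n) .n))) (.c k11 (.q k7 [(.s k48 k32 3 (.s k144 k208 7
  (.s k112 k176 7 (.d k96 k64 k192 3 11)))), (.s k48 k32 3 (.s k84 k168 13 (.s k152 k220 9 (.s k100
  k204 13 (.d k116 k68 k184 3 9))))), (.s k84 k168 13 (.s k208 k144 7 (.s k220 k152 9 (.s k212 k216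
  1 (.d k192 k224 k232 3 5)))))] (.c k224 (.l (.s k144 k208 7 (.s k48 k32 3 (.s k96 k192 11 (.d k112
  k64 k176 3 7))))) .n)) (.c k224 (.l (.s k144 k208 7 (.s k48 k32 3 (.s k96 k192 11 (.d k112 k64
  k176 3 7))))) .n)))) (.c k7 (.q k11 [(.s k48 k32 3 (.s k144 k208 7 (.s k112 k176 7 (.d k96 k64
  k192 3 11)))), (.s k48 k32 3 (.s k84 k168 13 (.s k152 k220 9 (.s k100 k204 13 (.d k116 k68 k184 3
  9))))), (.s k84 k168 13 (.s k208 k144 7 (.s k220 k152 9 (.s k212 k216 1 (.d k192 k224 k232 3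
  5)))))] (.c k6 (.q k9 [(.s k168 k84 13 (.s k8 k10 0 (.d k248 k244 k88 1 11))), (.s k48 k32 3 (.s
  k144 k208 7 (.s k96 k192 11 (.d k112 k64 k176 3 7))))] (.c k4 (.q k5 [(.s k168 k84 13 (.s k8 k10 0
  (.d k248 k244 k88 1 11))), (.s k48 k32 3 (.s k144 k208 7 (.s k96 k192 11 (.d k112 k64 k176 3
  7))))] .n) (.c k5 (.q k4 [(.s k244 k248 1 (.d k84 k164 k168 11 13)), (.s k48 k32 3 (.s k144 k208 7
  (.s k96 k192 11 (.d k112 k64 k176 3 7))))] .n) .n))) (.c k9 (.q k6 [(.s k48 k32 3 (.s k144 k208 7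
  (.s k112 k176 7 (.d k96 k64 k192 3 11)))), (.s k48 k32 3 (.s k84 k168 13 (.s k152 k220 9 (.s k100
  k204 13 (.d k116 k68 k184 3 9))))), (.s k84 k168 13 (.s k208 k144 7 (.s k220 k152 9 (.s k212 k216
  1 (.d k192 k224 k232 3 5)))))] (.c k1 (.q k5 [(.s k48 k32 3 (.s k144 k208 7 (.s k112 k176 7 (.d
  k96 k64 k192 3 11)))), (.s k48 k32 3 (.s k84 k168 13 (.s k152 k220 9 (.s k100 k204 13 (.d k116 k68
  k184 3 9))))), (.s k84 k168 13 (.s k208 k144 7 (.s k220 k152 9 (.s k212 k216 1 (.d k192 k224 k232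
  3 5)))))] (.c k224 (.l (.s k144 k208 7 (.s k48 k32 3 (.s k96 k192 11 (.d k112 k64 k176 3 7)))))
  .n)) (.c k5 (.q k1 [(.s k48 k32 3 (.s k144 k208 7 (.s k112 k176 7 (.d k96 k64 k192 3 11)))), (.s
  k48 k32 3 (.s k84 k168 13 (.s k152 k220 9 (.s k100 k204 13 (.d k116 k68 k184 3 9))))), (.s k84
  k168 13 (.s k208 k144 7 (.s k220 k152 9 (.s k212 k216 1 (.d k192 k224 k232 3 5)))))] (.c k224 (.l
  (.s k144 k208 7 (.s k48 k32 3 (.s k96 k192 11 (.d k112 k64 k176 3 7))))) .n)) (.c k224 (.l (.s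
  k144 k208 7 (.s k48 k32 3 (.s k96 k192 11 (.d k112 k64 k176 3 7))))) .n)))) (.c k224 (.l (.s k144
  k208 7 (.s k48 k32 3 (.s k96 k192 11 (.d k112 k64 k176 3 7))))) .n)))) (.c k9 (.q k6 [(.s k48 k32
  3 (.s k144 k208 7 (.s k112 k176 7 (.d k96 k64 k192 3 11)))), (.s k48 k32 3 (.s k84 k168 13 (.s
  k152 k220 9 (.s k100 k204 13 (.d k116 k68 k184 3 9))))), (.s k84 k168 13 (.s k208 k144 7 (.s k220
  k152 9 (.s k212 k216 1 (.d k192 k224 k232 3 5)))))] (.c k1 (.q k5 [(.s k84 k168 13 (.s k244 k248 1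
  (.d k4 k7 k164 0 11))), (.s k48 k32 3 (.s k144 k208 7 (.s k96 k192 11 (.d k112 k64 k176 3 7))))]
  (.c k7 (.q k11 [(.s k48 k32 3 (.s k144 k208 7 (.s k112 k176 7 (.d k96 k64 k192 3 11)))), (.s k48
  k32 3 (.s k84 k168 13 (.s k152 k220 9 (.s k100 k204 13 (.d k116 k68 k184 3 9))))), (.s k84 k168 13
  (.s k208 k144 7 (.s k220 k152 9 (.s k212 k216 1 (.d k192 k224 k232 3 5)))))] (.c k224 (.l (.s k144
  k208 7 (.s k48 k32 3 (.s k96 k192 11 (.d k112 k64 k176 3 7))))) .n)) (.c k11 (.l (.s k7 k4 0 (.s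
  k48 k32 3 (.s k144 k208 7 (.s k96 k192 11 (.d k112 k64 k176 3 7)))))) .n))) (.c k5 (.q k1 [(.s k48
  k32 3 (.s k144 k208 7 (.s k112 k176 7 (.d k96 k64 k192 3 11)))), (.s k48 k32 3 (.s k84 k168 13 (.s
  k152 k220 9 (.s k100 k204 13 (.d k116 k68 k184 3 9))))), (.s k84 k168 13 (.s k208 k144 7 (.s k220
  k152 9 (.s k212 k216 1 (.d k192 k224 k232 3 5)))))] (.c k7 (.q k11 [(.s k48 k32 3 (.s k144 k208 7
  (.s k112 k176 7 (.d k96 k64 k192 3 11)))), (.s k48 k32 3 (.s k84 k168 13 (.s k152 k220 9 (.s k100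
  k204 13 (.d k116 k68 k184 3 9))))), (.s k84 k168 13 (.s k208 k144 7 (.s k220 k152 9 (.s k212 k216
  1 (.d k192 k224 k232 3 5)))))] (.c k224 (.l (.s k144 k208 7 (.s k48 k32 3 (.s k96 k192 11 (.d k112
  k64 k176 3 7))))) .n)) (.c k11 (.q k7 [(.s k48 k32 3 (.s k144 k208 7 (.s k112 k176 7 (.d k96 k64
  k192 3 11)))), (.s k48 k32 3 (.s k84 k168 13 (.s k152 k220 9 (.s k100 k204 13 (.d k116 k68 k184 3
  9))))), (.s k84 k168 13 (.s k208 k144 7 (.s k220 k152 9 (.s k212 k216 1 (.d k192 k224 k232 3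
  5)))))] (.c k8 (.l (.s k10 k2 1 (.s k48 k32 3 (.s k144 k208 7 (.s k96 k192 11 (.d k112 k64 k176 3
  7)))))) (.c k10 (.q k8 [(.s k168 k84 13 (.d k248 k244 k88 1 11)), (.s k48 k32 3 (.s k144 k208 7
  (.s k96 k192 11 (.d k112 k64 k176 3 7))))] .n) (.c k224 (.l (.s k144 k208 7 (.s k48 k32 3 (.s k96
  k192 11 (.d k112 k64 k176 3 7))))) .n)))) (.c k224 (.l (.s k144 k208 7 (.s k48 k32 3 (.s k96 k192
  11 (.d k112 k64 k176 3 7))))) .n)))) (.c k7 (.q k11 [(.s k48 k32 3 (.s k144 k208 7 (.s k112 k176 7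
  (.d k96 k64 k192 3 11)))), (.s k48 k32 3 (.s k84 k168 13 (.s k152 k220 9 (.s k100 k204 13 (.d k116
  k68 k184 3 9))))), (.s k84 k168 13 (.s k208 k144 7 (.s k220 k152 9 (.s k212 k216 1 (.d k192 k224
  k232 3 5)))))] (.c k1 (.q k5 [(.s k48 k32 3 (.s k144 k208 7 (.s k112 k176 7 (.d k96 k64 k192 3
  11)))), (.s k48 k32 3 (.s k84 k168 13 (.s k152 k220 9 (.s k100 k204 13 (.d k116 k68 k184 3 9))))),
  (.s k84 k168 13 (.s k208 k144 7 (.s k220 k152 9 (.s k212 k216 1 (.d k192 k224 k232 3 5)))))] (.c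
  k224 (.l (.s k144 k208 7 (.s k48 k32 3 (.s k96 k192 11 (.d k112 k64 k176 3 7))))) .n)) (.c k5 (.q
  k1 [(.s k48 k32 3 (.s k144 k208 7 (.s k112 k176 7 (.d k96 k64 k192 3 11)))), (.s k48 k32 3 (.s k84
  k168 13 (.s k152 k220 9 (.s k100 k204 13 (.d k116 k68 k184 3 9))))), (.s k84 k168 13 (.s k208 k144
  7 (.s k220 k152 9 (.s k212 k216 1 (.d k192 k224 k232 3 5)))))] (.c k224 (.l (.s k144 k208 7 (.s
  k48 k32 3 (.s k96 k192 11 (.d k112 k64 k176 3 7))))) .n)) (.c k224 (.l (.s k144 k208 7 (.s k48 k32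
  3 (.s k96 k192 11 (.d k112 k64 k176 3 7))))) .n)))) (.c k11 (.q k7 [(.s k84 k168 13 (.s k244 k248
  1 (.d k4 k5 k164 0 11))), (.s k48 k32 3 (.s k144 k208 7 (.s k96 k192 11 (.d k112 k64 k176 3 7))))]
  (.c k1 (.l (.s k5 k4 0 (.s k48 k32 3 (.s k144 k208 7 (.s k96 k192 11 (.d k112 k64 k176 3 7))))))
  (.c k5 (.q k1 [(.s k48 k32 3 (.s k144 k208 7 (.s k112 k176 7 (.d k96 k64 k192 3 11)))), (.s k48
  k32 3 (.s k84 k168 13 (.s k152 k220 9 (.s k100 k204 13 (.d k116 k68 k184 3 9))))), (.s k84 k168 13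
  (.s k208 k144 7 (.s k220 k152 9 (.s k212 k216 1 (.d k192 k224 k232 3 5)))))] (.c k8 (.l (.s k10 k2
  1 (.s k48 k32 3 (.s k144 k208 7 (.s k96 k192 11 (.d k112 k64 k176 3 7)))))) (.c k10 (.q k8 [(.s
  k168 k84 13 (.d k248 k244 k88 1 11)), (.s k48 k32 3 (.s k144 k208 7 (.s k96 k192 11 (.d k112 k64
  k176 3 7))))] .n) (.c k224 (.l (.s k144 k208 7 (.s k48 k32 3 (.s k96 k192 11 (.d k112 k64 k176 3
  7))))) .n)))) (.c k8 (.l (.s k10 k2 1 (.s k48 k32 3 (.s k144 k208 7 (.s k96 k192 11 (.d k112 k64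
  k176 3 7)))))) (.c k10 (.q k8 [(.s k168 k84 13 (.d k248 k244 k88 1 11)), (.s k48 k32 3 (.s k144
  k208 7 (.s k96 k192 11 (.d k112 k64 k176 3 7))))] (.c k1 (.l (.s k5 k4 0 (.s k168 k84 13 (.d k248
  k244 k88 1 11)))) (.c k5 (.q k1 [(.s k168 k84 13 (.d k248 k244 k88 1 11)), (.s k48 k32 3 (.s k144
  k208 7 (.s k96 k192 11 (.d k112 k64 k176 3 7))))] .n) .n))) .n))))) (.c k224 (.l (.s k144 k208 7
  (.s k48 k32 3 (.s k96 k192 11 (.d k112 k64 k176 3 7))))) .n)))))) (.c k11 (.q k7 [(.s k48 k32 3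
  (.s k144 k208 7 (.s k112 k176 7 (.d k96 k64 k192 3 11)))), (.s k48 k32 3 (.s k84 k168 13 (.s k152
  k220 9 (.s k100 k204 13 (.d k116 k68 k184 3 9))))), (.s k84 k168 13 (.s k208 k144 7 (.s k220 k152
  9 (.s k212 k216 1 (.d k192 k224 k232 3 5)))))] (.c k6 (.q k9 [(.s k48 k32 3 (.s k144 k208 7 (.s
  k112 k176 7 (.d k96 k64 k192 3 11)))), (.s k48 k32 3 (.s k84 k168 13 (.s k152 k220 9 (.s k100 k204
  13 (.d k116 k68 k184 3 9))))), (.s k84 k168 13 (.s k208 k144 7 (.s k220 k152 9 (.s k212 k216 1 (.d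
  k192 k224 k232 3 5)))))] (.c k224 (.l (.s k144 k208 7 (.s k48 k32 3 (.s k96 k192 11 (.d k112 k64
  k176 3 7))))) .n)) (.c k9 (.q k6 [(.s k84 k168 13 (.s k244 k248 1 (.d k4 k5 k164 0 11))), (.s k48
  k32 3 (.s k144 k208 7 (.s k96 k192 11 (.d k112 k64 k176 3 7))))] (.c k1 (.l (.s k5 k4 0 (.s k48
  k32 3 (.s k144 k208 7 (.s k96 k192 11 (.d k112 k64 k176 3 7)))))) (.c k5 (.q k1 [(.s k48 k32 3 (.s
  k144 k208 7 (.s k112 k176 7 (.d k96 k64 k192 3 11)))), (.s k48 k32 3 (.s k84 k168 13 (.s k152 k220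
  9 (.s k100 k204 13 (.d k116 k68 k184 3 9))))), (.s k84 k168 13 (.s k208 k144 7 (.s k220 k152 9 (.s
  k212 k216 1 (.d k192 k224 k232 3 5)))))] (.c k8 (.l (.s k10 k2 1 (.s k48 k32 3 (.s k144 k208 7 (.s
  k96 k192 11 (.d k112 k64 k176 3 7)))))) (.c k10 (.q k8 [(.s k168 k84 13 (.d k248 k244 k88 1 11)),
  (.s k48 k32 3 (.s k144 k208 7 (.s k96 k192 11 (.d k112 k64 k176 3 7))))] .n) (.c k224 (.l (.s k144
  k208 7 (.s k48 k32 3 (.s k96 k192 11 (.d k112 k64 k176 3 7))))) .n)))) (.c k8 (.l (.s k10 k2 1 (.s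
  k48 k32 3 (.s k144 k208 7 (.s k96 k192 11 (.d k112 k64 k176 3 7)))))) (.c k10 (.q k8 [(.s k168 k84
  13 (.d k248 k244 k88 1 11)), (.s k48 k32 3 (.s k144 k208 7 (.s k96 k192 11 (.d k112 k64 k176 3
  7))))] (.c k1 (.l (.s k5 k4 0 (.s k168 k84 13 (.d k248 k244 k88 1 11)))) (.c k5 (.q k1 [(.s k168
  k84 13 (.d k248 k244 k88 1 11)), (.s k48 k32 3 (.s k144 k208 7 (.s k96 k192 11 (.d k112 k64 k176 3
  7))))] .n) .n))) .n))))) (.c k224 (.l (.s k144 k208 7 (.s k48 k32 3 (.s k96 k192 11 (.d k112 k64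
  k176 3 7))))) .n)))) (.c k224 (.l (.s k144 k208 7 (.s k48 k32 3 (.s k96 k192 11 (.d k112 k64 k176
  3 7))))) .n)))))) (.c k14 (.q k13 [(.s k48 k32 3 (.s k144 k208 7 (.s k112 k176 7 (.d k96 k64 k192
  3 11)))), (.s k48 k32 3 (.s k84 k168 13 (.s k152 k220 9 (.s k100 k204 13 (.d k116 k68 k184 3
  9))))), (.s k84 k168 13 (.s k208 k144 7 (.s k220 k152 9 (.s k212 k216 1 (.d k192 k224 k232 3
  5)))))] (.c k6 (.q k9 [(.s k48 k32 3 (.s k144 k208 7 (.s k112 k176 7 (.d k96 k64 k192 3 11)))),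
  (.s k48 k32 3 (.s k84 k168 13 (.s k152 k220 9 (.s k100 k204 13 (.d k116 k68 k184 3 9))))), (.s k84
  k168 13 (.s k208 k144 7 (.s k220 k152 9 (.s k212 k216 1 (.d k192 k224 k232 3 5)))))] (.c k2 (.q
  k10 [(.s k168 k84 13 (.s k248 k244 1 (.d k8 k11 k88 0 11))), (.s k48 k32 3 (.s k144 k208 7 (.s k96
  k192 11 (.d k112 k64 k176 3 7))))] (.c k7 (.l (.s k11 k8 0 (.s k48 k32 3 (.s k144 k208 7 (.s k96
  k192 11 (.d k112 k64 k176 3 7)))))) (.c k11 (.q k7 [(.s k48 k32 3 (.s k144 k208 7 (.s k112 k176 7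
  (.d k96 k64 k192 3 11)))), (.s k48 k32 3 (.s k84 k168 13 (.s k152 k220 9 (.s k100 k204 13 (.d k116
  k68 k184 3 9))))), (.s k84 k168 13 (.s k208 k144 7 (.s k220 k152 9 (.s k212 k216 1 (.d k192 k224
  k232 3 5)))))] (.c k224 (.l (.s k144 k208 7 (.s k48 k32 3 (.s k96 k192 11 (.d k112 k64 k176 3
  7))))) .n)) .n))) (.c k7 (.q k11 [(.s k168 k84 13 (.s k248 k244 1 (.d k8 k10 k88 0 11))), (.s k5
  k1 1 (.s k48 k32 3 (.s k144 k208 7 (.s k96 k192 11 (.d k112 k64 k176 3 7)))))] (.c k2 (.l (.s k10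
  k8 0 (.s k48 k32 3 (.s k144 k208 7 (.s k96 k192 11 (.d k112 k64 k176 3 7)))))) (.c k4 (.l (.s k5
  k1 1 (.s k48 k32 3 (.s k144 k208 7 (.s k96 k192 11 (.d k112 k64 k176 3 7)))))) (.c k5 (.q k4 [(.s
  k244 k248 1 (.d k84 k164 k168 11 13)), (.s k48 k32 3 (.s k144 k208 7 (.s k96 k192 11 (.d k112 k64
  k176 3 7))))] (.c k2 (.l (.s k10 k8 0 (.s k84 k168 13 (.d k244 k248 k164 1 11)))) (.c k10 (.q k2
  [(.s k244 k248 1 (.d k84 k164 k168 11 13)), (.s k48 k32 3 (.s k144 k208 7 (.s k96 k192 11 (.d k112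
  k64 k176 3 7))))] .n) .n))) (.c k10 (.q k2 [(.s k48 k32 3 (.s k144 k208 7 (.s k112 k176 7 (.d k96
  k64 k192 3 11)))), (.s k48 k32 3 (.s k84 k168 13 (.s k152 k220 9 (.s k100 k204 13 (.d k116 k68
  k184 3 9))))), (.s k84 k168 13 (.s k208 k144 7 (.s k220 k152 9 (.s k212 k216 1 (.d k192 k224 k232
  3 5)))))] (.c k4 (.l (.s k5 k1 1 (.s k48 k32 3 (.s k144 k208 7 (.s k96 k192 11 (.d k112 k64 k176 3
  7)))))) (.c k5 (.q k4 [(.s k244 k248 1 (.d k84 k164 k168 11 13)), (.s k48 k32 3 (.s k144 k208 7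
  (.s k96 k192 11 (.d k112 k64 k176 3 7))))] .n) (.c k224 (.l (.s k144 k208 7 (.s k48 k32 3 (.s k96
  k192 11 (.d k112 k64 k176 3 7))))) .n)))) .n))))) (.c k10 (.q k2 [(.s k48 k32 3 (.s k144 k208 7
  (.s k112 k176 7 (.d k96 k64 k192 3 11)))), (.s k48 k32 3 (.s k84 k168 13 (.s k152 k220 9 (.s k100
  k204 13 (.d k116 k68 k184 3 9))))), (.s k84 k168 13 (.s k208 k144 7 (.s k220 k152 9 (.s k212 k216
  1 (.d k192 k224 k232 3 5)))))] (.c k7 (.q k11 [(.s k48 k32 3 (.s k144 k208 7 (.s k112 k176 7 (.d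
  k96 k64 k192 3 11)))), (.s k48 k32 3 (.s k84 k168 13 (.s k152 k220 9 (.s k100 k204 13 (.d k116 k68
  k184 3 9))))), (.s k84 k168 13 (.s k208 k144 7 (.s k220 k152 9 (.s k212 k216 1 (.d k192 k224 k232
  3 5)))))] (.c k4 (.l (.s k5 k1 1 (.s k48 k32 3 (.s k144 k208 7 (.s k96 k192 11 (.d k112 k64 k176 3
  7)))))) (.c k5 (.q k4 [(.s k244 k248 1 (.d k84 k164 k168 11 13)), (.s k48 k32 3 (.s k144 k208 7
  (.s k96 k192 11 (.d k112 k64 k176 3 7))))] .n) (.c k224 (.l (.s k144 k208 7 (.s k48 k32 3 (.s k96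
  k192 11 (.d k112 k64 k176 3 7))))) .n)))) (.c k11 (.q k7 [(.s k48 k32 3 (.s k144 k208 7 (.s k112
  k176 7 (.d k96 k64 k192 3 11)))), (.s k48 k32 3 (.s k84 k168 13 (.s k152 k220 9 (.s k100 k204 13
  (.d k116 k68 k184 3 9))))), (.s k84 k168 13 (.s k208 k144 7 (.s k220 k152 9 (.s k212 k216 1 (.d
  k192 k224 k232 3 5)))))] (.c k224 (.l (.s k144 k208 7 (.s k48 k32 3 (.s k96 k192 11 (.d k112 k64
  k176 3 7))))) .n)) (.c k224 (.l (.s k144 k208 7 (.s k48 k32 3 (.s k96 k192 11 (.d k112 k64 k176 3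
  7))))) .n)))) (.c k11 (.q k7 [(.s k48 k32 3 (.s k144 k208 7 (.s k112 k176 7 (.d k96 k64 k192 3
  11)))), (.s k48 k32 3 (.s k84 k168 13 (.s k152 k220 9 (.s k100 k204 13 (.d k116 k68 k184 3 9))))),
  (.s k84 k168 13 (.s k208 k144 7 (.s k220 k152 9 (.s k212 k216 1 (.d k192 k224 k232 3 5)))))] (.c
  k2 (.q k10 [(.s k48 k32 3 (.s k144 k208 7 (.s k112 k176 7 (.d k96 k64 k192 3 11)))), (.s k48 k32 3
  (.s k84 k168 13 (.s k152 k220 9 (.s k100 k204 13 (.d k116 k68 k184 3 9))))), (.s k84 k168 13 (.s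
  k208 k144 7 (.s k220 k152 9 (.s k212 k216 1 (.d k192 k224 k232 3 5)))))] (.c k224 (.l (.s k144
  k208 7 (.s k48 k32 3 (.s k96 k192 11 (.d k112 k64 k176 3 7))))) .n)) (.c k10 (.q k2 [(.s k48 k32 3
  (.s k144 k208 7 (.s k112 k176 7 (.d k96 k64 k192 3 11)))), (.s k48 k32 3 (.s k84 k168 13 (.s k152
  k220 9 (.s k100 k204 13 (.d k116 k68 k184 3 9))))), (.s k84 k168 13 (.s k208 k144 7 (.s k220 k152
  9 (.s k212 k216 1 (.d k192 k224 k232 3 5)))))] (.c k224 (.l (.s k144 k208 7 (.s k48 k32 3 (.s k96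
  k192 11 (.d k112 k64 k176 3 7))))) .n)) (.c k224 (.l (.s k144 k208 7 (.s k48 k32 3 (.s k96 k192 11
  (.d k112 k64 k176 3 7))))) .n)))) (.c k224 (.l (.s k144 k208 7 (.s k48 k32 3 (.s k96 k192 11 (.d
  k112 k64 k176 3 7))))) .n)))))) (.c k7 (.q k11 [(.s k48 k32 3 (.s k144 k208 7 (.s k112 k176 7 (.d
  k96 k64 k192 3 11)))), (.s k48 k32 3 (.s k84 k168 13 (.s k152 k220 9 (.s k100 k204 13 (.d k116 k68
  k184 3 9))))), (.s k84 k168 13 (.s k208 k144 7 (.s k220 k152 9 (.s k212 k216 1 (.d k192 k224 k232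
  3 5)))))] (.c k6 (.q k9 [(.s k168 k84 13 (.s k248 k244 1 (.d k8 k10 k88 0 11))), (.s k5 k1 1 (.s
  k48 k32 3 (.s k144 k208 7 (.s k96 k192 11 (.d k112 k64 k176 3 7)))))] (.c k2 (.l (.s k10 k8 0 (.s
  k48 k32 3 (.s k144 k208 7 (.s k96 k192 11 (.d k112 k64 k176 3 7)))))) (.c k4 (.l (.s k5 k1 1 (.s
  k48 k32 3 (.s k144 k208 7 (.s k96 k192 11 (.d k112 k64 k176 3 7)))))) (.c k5 (.q k4 [(.s k244 k248
  1 (.d k84 k164 k168 11 13)), (.s k48 k32 3 (.s k144 k208 7 (.s k96 k192 11 (.d k112 k64 k176 3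
  7))))] (.c k2 (.l (.s k10 k8 0 (.s k84 k168 13 (.d k244 k248 k164 1 11)))) (.c k10 (.q k2 [(.s
  k244 k248 1 (.d k84 k164 k168 11 13)), (.s k48 k32 3 (.s k144 k208 7 (.s k96 k192 11 (.d k112 k64
  k176 3 7))))] .n) .n))) (.c k10 (.q k2 [(.s k48 k32 3 (.s k144 k208 7 (.s k112 k176 7 (.d k96 k64
  k192 3 11)))), (.s k48 k32 3 (.s k84 k168 13 (.s k152 k220 9 (.s k100 k204 13 (.d k116 k68 k184 3
  9))))), (.s k84 k168 13 (.s k208 k144 7 (.s k220 k152 9 (.s k212 k216 1 (.d k192 k224 k232 3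
  5)))))] (.c k4 (.l (.s k5 k1 1 (.s k48 k32 3 (.s k144 k208 7 (.s k96 k192 11 (.d k112 k64 k176 3
  7)))))) (.c k5 (.q k4 [(.s k244 k248 1 (.d k84 k164 k168 11 13)), (.s k48 k32 3 (.s k144 k208 7
  (.s k96 k192 11 (.d k112 k64 k176 3 7))))] .n) (.c k224 (.l (.s k144 k208 7 (.s k48 k32 3 (.s k96
  k192 11 (.d k112 k64 k176 3 7))))) .n)))) .n))))) (.c k9 (.q k6 [(.s k48 k32 3 (.s k144 k208 7 (.s
  k112 k176 7 (.d k96 k64 k192 3 11)))), (.s k48 k32 3 (.s k84 k168 13 (.s k152 k220 9 (.s k100 k204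
  13 (.d k116 k68 k184 3 9))))), (.s k84 k168 13 (.s k208 k144 7 (.s k220 k152 9 (.s k212 k216 1 (.d
  k192 k224 k232 3 5)))))] (.c k224 (.l (.s k144 k208 7 (.s k48 k32 3 (.s k96 k192 11 (.d k112 k64
  k176 3 7))))) .n)) (.c k224 (.l (.s k144 k208 7 (.s k48 k32 3 (.s k96 k192 11 (.d k112 k64 k176 3
  7))))) .n)))) (.c k9 (.q k6 [(.s k48 k32 3 (.s k144 k208 7 (.s k112 k176 7 (.d k96 k64 k192 3
  11)))), (.s k48 k32 3 (.s k84 k168 13 (.s k152 k220 9 (.s k100 k204 13 (.d k116 k68 k184 3 9))))),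
  (.s k84 k168 13 (.s k208 k144 7 (.s k220 k152 9 (.s k212 k216 1 (.d k192 k224 k232 3 5)))))] (.c
  k7 (.q k11 [(.s k48 k32 3 (.s k144 k208 7 (.s k112 k176 7 (.d k96 k64 k192 3 11)))), (.s k48 k32 3
  (.s k84 k168 13 (.s k152 k220 9 (.s k100 k204 13 (.d k116 k68 k184 3 9))))), (.s k84 k168 13 (.s
  k208 k144 7 (.s k220 k152 9 (.s k212 k216 1 (.d k192 k224 k232 3 5)))))] (.c k224 (.l (.s k144
  k208 7 (.s k48 k32 3 (.s k96 k192 11 (.d k112 k64 k176 3 7))))) .n)) (.c k11 (.q k7 [(.s k84 k168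
  13 (.s k4 k5 0 (.d k244 k164 k248 11 1))), (.s k48 k32 3 (.s k144 k208 7 (.s k96 k192 11 (.d k112
  k64 k176 3 7))))] (.c k8 (.q k10 [(.s k84 k168 13 (.s k4 k5 0 (.d k244 k248 k164 1 11))), (.s k48
  k32 3 (.s k144 k208 7 (.s k96 k192 11 (.d k112 k64 k176 3 7))))] .n) (.c k10 (.q k8 [(.s k168 k84
  13 (.d k248 k244 k88 1 11)), (.s k48 k32 3 (.s k144 k208 7 (.s k96 k192 11 (.d k112 k64 k176 3
  7))))] .n) .n))) (.c k224 (.l (.s k144 k208 7 (.s k48 k32 3 (.s k96 k192 11 (.d k112 k64 k176 3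
  7))))) .n)))) (.c k11 (.q k7 [(.s k48 k32 3 (.s k144 k208 7 (.s k112 k176 7 (.d k96 k64 k192 3
  11)))), (.s k48 k32 3 (.s k84 k168 13 (.s k152 k220 9 (.s k100 k204 13 (.d k116 k68 k184 3 9))))),
  (.s k84 k168 13 (.s k208 k144 7 (.s k220 k152 9 (.s k212 k216 1 (.d k192 k224 k232 3 5)))))] (.c
  k6 (.q k9 [(.s k48 k32 3 (.s k144 k208 7 (.s k112 k176 7 (.d k96 k64 k192 3 11)))), (.s k48 k32 3
  (.s k84 k168 13 (.s k152 k220 9 (.s k100 k204 13 (.d k116 k68 k184 3 9))))), (.s k84 k168 13 (.s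
  k208 k144 7 (.s k220 k152 9 (.s k212 k216 1 (.d k192 k224 k232 3 5)))))] (.c k2 (.q k10 [(.s k48
  k32 3 (.s k144 k208 7 (.s k112 k176 7 (.d k96 k64 k192 3 11)))), (.s k48 k32 3 (.s k84 k168 13 (.s
  k152 k220 9 (.s k100 k204 13 (.d k116 k68 k184 3 9))))), (.s k84 k168 13 (.s k208 k144 7 (.s k220
  k152 9 (.s k212 k216 1 (.d k192 k224 k232 3 5)))))] (.c k224 (.l (.s k144 k208 7 (.s k48 k32 3 (.s
  k96 k192 11 (.d k112 k64 k176 3 7))))) .n)) (.c k10 (.q k2 [(.s k48 k32 3 (.s k144 k208 7 (.s k112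
  k176 7 (.d k96 k64 k192 3 11)))), (.s k48 k32 3 (.s k84 k168 13 (.s k152 k220 9 (.s k100 k204 13
  (.d k116 k68 k184 3 9))))), (.s k84 k168 13 (.s k208 k144 7 (.s k220 k152 9 (.s k212 k216 1 (.d
  k192 k224 k232 3 5)))))] (.c k224 (.l (.s k144 k208 7 (.s k48 k32 3 (.s k96 k192 11 (.d k112 k64
  k176 3 7))))) .n)) (.c k224 (.l (.s k144 k208 7 (.s k48 k32 3 (.s k96 k192 11 (.d k112 k64 k176 3
  7))))) .n)))) (.c k9 (.q k6 [(.s k84 k168 13 (.s k4 k5 0 (.d k244 k164 k248 11 1))), (.s k48 k32 3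
  (.s k144 k208 7 (.s k96 k192 11 (.d k112 k64 k176 3 7))))] (.c k8 (.q k10 [(.s k84 k168 13 (.s k4
  k5 0 (.d k244 k248 k164 1 11))), (.s k48 k32 3 (.s k144 k208 7 (.s k96 k192 11 (.d k112 k64 k176 3
  7))))] .n) (.c k10 (.q k8 [(.s k168 k84 13 (.d k248 k244 k88 1 11)), (.s k48 k32 3 (.s k144 k208 7
  (.s k96 k192 11 (.d k112 k64 k176 3 7))))] .n) .n))) (.c k224 (.l (.s k144 k208 7 (.s k48 k32 3
  (.s k96 k192 11 (.d k112 k64 k176 3 7))))) .n)))) (.c k224 (.l (.s k144 k208 7 (.s k48 k32 3 (.s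
  k96 k192 11 (.d k112 k64 k176 3 7))))) .n)))))) (.c k224 (.l (.s k144 k208 7 (.s k48 k32 3 (.s k96
  k192 11 (.d k112 k64 k176 3 7))))) .n))))))))) (.c k80 (.f k84 k168 13 (.q k16 [(.s k48 k32 3 (.s
  k152 k220 9 (.s k116 k184 9 (.d k100 k68 k204 3 13)))), (.s k152 k220 9 (.s k244 k248 1 (.s k164
  k4 11 (.s k176 k140 5 (.d k48 k32 k112 3 7))))), (.s k48 k32 3 (.s k176 k112 7 (.s k184 k116 9 (.s
  k180 k188 1 (.s k120 k60 9 (.d k248 k244 k56 1 7))))))] (.c k7 (.q k11 [(.s k48 k32 3 (.s k152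
  k220 9 (.s k116 k184 9 (.d k100 k68 k204 3 13)))), (.s k152 k220 9 (.s k244 k248 1 (.s k164 k4 11
  (.s k176 k140 5 (.d k48 k32 k112 3 7))))), (.s k48 k32 3 (.s k176 k112 7 (.s k184 k116 9 (.s k180
  k188 1 (.s k120 k60 9 (.d k248 k244 k56 1 7))))))] (.c k32 (.l (.s k152 k220 9 (.s k244 k248 1 (.s
  k164 k4 11 (.s k176 k140 5 (.s k48 k112 7 (.s k100 k204 13 (.d k116 k68 k184 3 9)))))))) (.c k48
  (.l (.s k220 k152 9 (.s k204 k236 3 (.s k216 k228 5 (.s k212 k208 1 (.s k232 k192 5 (.d k248 k244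
  k200 1 3))))))) .n))) (.c k11 (.q k7 [(.s k48 k32 3 (.s k152 k220 9 (.s k116 k184 9 (.d k100 k68
  k204 3 13)))), (.s k244 k248 1 (.s k4 k164 11 (.s k6 k5 0 (.s k86 k165 12 (.s k166 k246 11 (.d k85
  k87 k247 0 12))))))] .n) (.c k32 (.l (.s k152 k220 9 (.s k244 k248 1 (.s k164 k4 11 (.s k176 k140
  5 (.s k48 k112 7 (.s k100 k204 13 (.d k116 k68 k184 3 9)))))))) (.c k48 (.l (.s k220 k152 9 (.s
  k204 k236 3 (.s k216 k228 5 (.s k212 k208 1 (.s k232 k192 5 (.d k248 k244 k200 1 3))))))) .n))))))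
  (.c k84 (.q k48 [(.s k16 k32 3 (.s k80 k160 11 (.s k144 k208 7 (.s k112 k176 7 (.d k96 k64 k192 3
  11))))), (.s k112 k176 7 (.s k116 k184 9 (.s k120 k124 1 (.s k180 k60 9 (.d k244 k248 k52 1
  7)))))] (.c k7 (.q k11 [(.s k16 k32 3 (.s k80 k160 11 (.s k144 k208 7 (.s k112 k176 7 (.d k96 k64
  k192 3 11))))), (.s k184 k116 9 (.s k248 k244 1 (.s k169 k90 12 (.s k56 k120 7 (.s k41 k26 4 (.s
  k105 k233 7 (.d k154 k139 k203 4 12)))))))] (.c k112 (.f k16 k32 3 (.l (.s k80 k160 11 (.s k248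
  k244 1 (.s k90 k169 12 (.s k85 k95 2 (.s k154 k223 10 (.s k218 k26 7 (.d k207 k229 k101 6
  14))))))))) .n)) (.c k11 (.q k7 [(.s k16 k32 3 (.s k80 k160 11 (.s k144 k208 7 (.s k112 k176 7 (.d
  k96 k64 k192 3 11))))), (.s k116 k184 9 (.s k244 k248 1 (.s k86 k165 12 (.s k52 k180 7 (.s k22 k37
  4 (.s k150 k214 7 (.d k101 k71 k199 4 12)))))))] (.c k176 (.f k160 k80 11 (.l (.s k32 k16 3 (.s
  k244 k248 1 (.s k165 k86 12 (.s k170 k175 2 (.s k101 k239 10 (.s k229 k37 7 (.d k207 k218 k154 6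
  14))))))))) .n)) (.c k64 (.l (.s k32 k16 3 (.s k160 k80 11 (.s k96 k224 7 (.s k144 k192 11 (.d
  k176 k112 k128 7 3)))))) (.c k112 (.f k160 k80 11 (.f k248 k244 1 (.l (.s k32 k16 3 (.s k96 k224 7
  (.s k144 k192 11 (.s k184 k116 9 (.s k120 k56 7 (.s k180 k60 9 (.d k176 k188 k128 1 3))))))))))
  (.c k176 (.f k16 k32 3 (.q k20 [(.s k116 k184 9 (.s k244 k248 1 (.s k180 k52 7 (.d k60 k120 k40 9
  5)))), (.s k40 k60 5 (.s k24 k28 1 (.s k8 k56 3 (.d k12 k4 k36 1 5)))), (.s k24 k28 1 (.s k36 k12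
  5 (.s k52 k4 3 (.s k116 k184 9 (.d k244 k180 k248 7 1)))))] (.c k7 (.q k11 [(.s k116 k184 9 (.s
  k244 k248 1 (.s k180 k52 7 (.d k60 k120 k40 9 5)))), (.s k40 k60 5 (.s k24 k28 1 (.s k8 k56 3 (.d
  k12 k4 k36 1 5)))), (.s k24 k28 1 (.s k36 k12 5 (.s k52 k4 3 (.s k116 k184 9 (.d k244 k180 k248 7
  1)))))] (.c k60 (.l (.s k24 k28 1 (.s k12 k36 5 (.s k184 k116 9 (.s k248 k244 1 (.s k56 k120 7 (.d
  k8 k4 k40 1 3))))))) .n)) (.c k11 (.q k7 [(.s k116 k184 9 (.s k244 k248 1 (.s k180 k52 7 (.d k60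
  k120 k40 9 5)))), (.s k40 k60 5 (.s k24 k28 1 (.s k8 k56 3 (.d k12 k4 k36 1 5)))), (.s k24 k28 1
  (.s k36 k12 5 (.s k52 k4 3 (.s k116 k184 9 (.d k244 k180 k248 7 1)))))] (.c k60 (.l (.s k24 k28 1
  (.s k12 k36 5 (.s k184 k116 9 (.s k248 k244 1 (.s k56 k120 7 (.d k8 k4 k40 1 3))))))) .n)) (.c k60
  (.l (.s k24 k28 1 (.s k12 k36 5 (.s k184 k116 9 (.s k248 k244 1 (.s k56 k120 7 (.d k8 k4 k40 1
  3))))))) .n))))) .n)))))) (.c k88 (.f k160 k80 11 (.f k84 k168 13 (.f k248 k244 1 (.q k20 [(.s k60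
  k40 5 (.s k148 k212 7 (.s k124 k188 7 (.d k104 k64 k192 5 13)))), (.s k60 k40 5 (.s k120 k180 9
  (.s k184 k56 7 (.s k116 k48 9 (.d k124 k112 k188 1 7))))), (.s k212 k148 7 (.s k232 k192 5 (.s
  k216 k200 3 (.s k204 k228 5 (.d k220 k208 k236 1 3)))))] (.c k7 (.q k11 [(.s k60 k40 5 (.s k148
  k212 7 (.s k124 k188 7 (.d k104 k64 k192 5 13)))), (.s k60 k40 5 (.s k120 k180 9 (.s k184 k56 7
  (.s k116 k48 9 (.d k124 k112 k188 1 7))))), (.s k212 k148 7 (.s k232 k192 5 (.s k216 k200 3 (.s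
  k204 k228 5 (.d k220 k208 k236 1 3)))))] (.c k60 (.l (.s k212 k148 7 (.s k192 k232 5 (.s k128 k64
  7 (.s k144 k176 3 (.s k96 k48 11 (.d k224 k208 k32 3 7))))))) (.c k86 (.q k165 [(.s k60 k40 5 (.s
  k124 k188 7 (.s k104 k64 5 (.d k148 k212 k192 7 13)))), (.s k90 k169 12 (.s k170 k175 2 (.s k255
  k85 14 (.d k250 k245 k10 2 11))))] .n) (.c k104 (.l (.s k212 k148 7 (.s k60 k40 5 (.s k232 k192 5
  (.s k216 k200 3 (.s k204 k228 5 (.d k220 k208 k236 1 3))))))) (.c k165 (.q k86 [(.s k60 k40 5 (.s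
  k148 k212 7 (.s k124 k188 7 (.d k104 k64 k192 5 13)))), (.s k169 k90 12 (.s k85 k87 0 (.s k255
  k170 14 (.d k253 k254 k1 0 13))))] .n) (.c k188 (.l (.s k60 k40 5 (.s k148 k212 7 (.s k104 k192 13
  (.s k120 k180 9 (.s k184 k56 7 (.s k116 k48 9 (.d k124 k112 k64 1 5)))))))) (.c k232 (.l (.s k148
  k212 7 (.s k60 k40 5 (.s k104 k192 13 (.d k124 k64 k188 5 7))))) .n))))))) (.c k11 (.q k7 [(.s k60
  k40 5 (.s k148 k212 7 (.s k124 k188 7 (.d k104 k64 k192 5 13)))), (.s k60 k40 5 (.s k120 k180 9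
  (.s k184 k56 7 (.s k116 k48 9 (.d k124 k112 k188 1 7))))), (.s k212 k148 7 (.s k232 k192 5 (.s
  k216 k200 3 (.s k204 k228 5 (.d k220 k208 k236 1 3)))))] (.c k60 (.l (.s k212 k148 7 (.s k192 k232
  5 (.s k128 k64 7 (.s k144 k176 3 (.s k96 k48 11 (.d k224 k208 k32 3 7))))))) (.c k104 (.l (.s k212
  k148 7 (.s k60 k40 5 (.s k232 k192 5 (.s k216 k200 3 (.s k204 k228 5 (.d k220 k208 k236 1 3)))))))
  (.c k188 (.l (.s k60 k40 5 (.s k148 k212 7 (.s k104 k192 13 (.s k120 k180 9 (.s k184 k56 7 (.s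
  k116 k48 9 (.d k124 k112 k64 1 5)))))))) (.c k232 (.l (.s k148 k212 7 (.s k60 k40 5 (.s k104 k192
  13 (.d k124 k64 k188 5 7))))) .n))))) (.c k60 (.l (.s k212 k148 7 (.s k192 k232 5 (.s k128 k64 7
  (.s k144 k176 3 (.s k96 k48 11 (.d k224 k208 k32 3 7))))))) (.c k104 (.l (.s k212 k148 7 (.s k60
  k40 5 (.s k232 k192 5 (.s k216 k200 3 (.s k204 k228 5 (.d k220 k208 k236 1 3))))))) (.c k188 (.l
  (.s k60 k40 5 (.s k148 k212 7 (.s k104 k192 13 (.s k120 k180 9 (.s k184 k56 7 (.s k116 k48 9 (.d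
  k124 k112 k64 1 5)))))))) (.c k232 (.l (.s k148 k212 7 (.s k60 k40 5 (.s k104 k192 13 (.d k124 k64
  k188 5 7))))) .n)))))))))) (.c k92 (.l (.s k160 k80 11 (.s k248 k244 1 (.s k168 k84 13 (.s k88 k8
  11 (.d k164 k172 k12 1 13)))))) (.c k160 (.q k20 [(.s k60 k40 5 (.s k84 k168 13 (.s k148 k212 7
  (.s k124 k188 7 (.d k104 k64 k192 5 13))))), (.s k60 k40 5 (.s k120 k180 9 (.s k124 k188 7 (.s
  k116 k112 1 (.s k184 k48 9 (.d k248 k244 k56 1 7)))))), (.s k84 k168 13 (.s k212 k148 7 (.s k232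
  k192 5 (.s k244 k248 1 (.s k228 k196 3 (.s k204 k216 5 (.d k236 k224 k220 1 3)))))))] (.c k7 (.q
  k11 [(.s k60 k40 5 (.s k84 k168 13 (.s k148 k212 7 (.s k124 k188 7 (.d k104 k64 k192 5 13))))),
  (.s k60 k40 5 (.s k120 k180 9 (.s k124 k188 7 (.s k116 k112 1 (.s k184 k48 9 (.d k248 k244 k56 1
  7)))))), (.s k84 k168 13 (.s k212 k148 7 (.s k232 k192 5 (.s k244 k248 1 (.s k228 k196 3 (.s k204
  k216 5 (.d k236 k224 k220 1 3)))))))] (.c k60 (.l (.s k84 k168 13 (.s k212 k148 7 (.s k192 k232 5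
  (.s k208 k224 3 (.s k216 k220 1 (.s k228 k204 5 (.d k244 k248 k196 1 3)))))))) (.c k188 (.l (.s
  k60 k40 5 (.s k84 k168 13 (.s k148 k212 7 (.s k180 k120 9 (.s k164 k132 3 (.d k244 k248 k4 1
  11))))))) .n))) (.c k11 (.q k7 [(.s k60 k40 5 (.s k84 k168 13 (.s k148 k212 7 (.s k124 k188 7 (.d
  k104 k64 k192 5 13))))), (.s k60 k40 5 (.s k120 k180 9 (.s k124 k188 7 (.s k116 k112 1 (.s k184
  k48 9 (.d k248 k244 k56 1 7)))))), (.s k84 k168 13 (.s k212 k148 7 (.s k232 k192 5 (.s k244 k248 1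
  (.s k228 k196 3 (.s k204 k216 5 (.d k236 k224 k220 1 3)))))))] (.c k60 (.l (.s k84 k168 13 (.s
  k212 k148 7 (.s k192 k232 5 (.s k208 k224 3 (.s k216 k220 1 (.s k228 k204 5 (.d k244 k248 k196 1
  3)))))))) (.c k188 (.l (.s k60 k40 5 (.s k84 k168 13 (.s k148 k212 7 (.s k180 k120 9 (.s k164 k132
  3 (.d k244 k248 k4 1 11))))))) .n))) (.c k60 (.l (.s k84 k168 13 (.s k212 k148 7 (.s k192 k232 5
  (.s k208 k224 3 (.s k216 k220 1 (.s k228 k204 5 (.d k244 k248 k196 1 3)))))))) (.c k188 (.l (.s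
  k60 k40 5 (.s k84 k168 13 (.s k148 k212 7 (.s k180 k120 9 (.s k164 k132 3 (.d k244 k248 k4 1
  11))))))) .n))))) (.c k164 (.f k160 k80 11 (.q k236 [(.s k168 k84 13 (.s k100 k32 9 (.s k204 k220
  3 (.s k136 k68 9 (.d k152 k184 k48 3 13))))), (.s k204 k220 3 (.s k228 k216 5 (.s k232 k224 1 (.s
  k212 k192 5 (.d k244 k248 k196 1 3))))), (.s k168 k84 13 (.s k32 k100 9 (.s k224 k96 7 (.s k192
  k208 3 (.d k232 k228 k212 1 5)))))] (.c k7 (.q k11 [(.s k168 k84 13 (.s k100 k32 9 (.s k204 k220 3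
  (.s k136 k68 9 (.d k152 k184 k48 3 13))))), (.s k204 k220 3 (.s k228 k216 5 (.s k232 k224 1 (.s
  k212 k192 5 (.d k244 k248 k196 1 3))))), (.s k168 k84 13 (.s k32 k100 9 (.s k224 k96 7 (.s k192
  k208 3 (.d k232 k228 k212 1 5)))))] (.c k244 (.l (.s k204 k220 3 (.s k228 k216 5 (.s k224 k232 1
  (.s k32 k96 7 (.d k168 k100 k84 9 13)))))) .n)) (.c k11 (.q k7 [(.s k168 k84 13 (.s k100 k32 9 (.s
  k204 k220 3 (.s k136 k68 9 (.d k152 k184 k48 3 13))))), (.s k204 k220 3 (.s k228 k216 5 (.s k232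
  k224 1 (.s k212 k192 5 (.d k244 k248 k196 1 3))))), (.s k168 k84 13 (.s k32 k100 9 (.s k224 k96 7
  (.s k192 k208 3 (.d k232 k228 k212 1 5)))))] (.c k244 (.l (.s k204 k220 3 (.s k228 k216 5 (.s k224
  k232 1 (.s k32 k96 7 (.d k168 k100 k84 9 13)))))) .n)) (.c k244 (.l (.s k204 k220 3 (.s k228 k216
  5 (.s k224 k232 1 (.s k32 k96 7 (.d k168 k100 k84 9 13)))))) .n))))) (.c k168 (.f k160 k80 11 (.q
  k48 [(.s k32 k16 3 (.s k96 k224 7 (.s k176 k112 7 (.d k144 k128 k192 3 11)))), (.s k112 k176 7 (.s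
  k116 k184 9 (.s k120 k124 1 (.s k180 k60 9 (.d k244 k248 k52 1 7)))))] (.c k7 (.q k11 [(.s k32 k16
  3 (.s k96 k224 7 (.s k176 k112 7 (.d k144 k128 k192 3 11)))), (.s k184 k116 9 (.s k248 k244 1 (.s
  k169 k90 12 (.s k56 k120 7 (.s k41 k26 4 (.s k105 k233 7 (.d k154 k139 k203 4 12)))))))] (.c k112
  (.f k248 k244 1 (.l (.s k16 k32 3 (.s k169 k90 12 (.s k184 k116 9 (.s k154 k139 4 (.s k85 k223 10
  (.s k255 k170 14 (.d k253 k254 k1 0 13))))))))) .n)) (.c k11 (.q k7 [(.s k32 k16 3 (.s k96 k224 7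
  (.s k176 k112 7 (.d k144 k128 k192 3 11)))), (.s k112 k176 7 (.s k116 k184 9 (.s k120 k124 1 (.s
  k180 k60 9 (.d k244 k248 k52 1 7))))), (.s k32 k16 3 (.s k244 k248 1 (.s k165 k86 12 (.s k170 k175
  2 (.s k101 k239 10 (.s k229 k37 7 (.d k207 k218 k154 6 14)))))))] .n) (.c k112 (.f k248 k244 1 (.l
  (.s k32 k16 3 (.s k96 k224 7 (.s k144 k192 11 (.s k184 k116 9 (.s k120 k56 7 (.s k180 k60 9 (.d
  k176 k188 k128 1 3))))))))) (.c k176 (.q k84 [(.s k16 k32 3 (.s k152 k220 9 (.s k116 k184 9 (.d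
  k100 k68 k204 3 13)))), (.s k32 k16 3 (.s k224 k96 7 (.s k244 k248 1 (.s k164 k4 11 (.s k104 k44 9
  (.s k64 k124 5 (.d k192 k208 k128 3 7))))))), (.s k116 k184 9 (.s k100 k68 3 (.s k244 k248 1 (.s
  k164 k4 11 (.s k36 k228 7 (.d k12 k88 k24 13 5))))))] (.c k7 (.q k11 [(.s k16 k32 3 (.s k152 k220
  9 (.s k116 k184 9 (.d k100 k68 k204 3 13)))), (.s k32 k16 3 (.s k224 k96 7 (.s k244 k248 1 (.s
  k164 k4 11 (.s k104 k44 9 (.s k64 k124 5 (.d k192 k208 k128 3 7))))))), (.s k116 k184 9 (.s k100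
  k68 3 (.s k244 k248 1 (.s k164 k4 11 (.s k36 k228 7 (.d k12 k88 k24 13 5))))))] .n) (.c k11 (.q k7
  [(.s k16 k32 3 (.s k152 k220 9 (.s k116 k184 9 (.d k100 k68 k204 3 13)))), (.s k244 k248 1 (.s k4
  k164 11 (.s k5 k6 0 (.s k165 k86 12 (.s k85 k245 11 (.d k170 k175 k255 2 14))))))] (.c k152 (.l
  (.s k16 k32 3 (.s k244 k248 1 (.s k86 k165 12 (.s k85 k87 0 (.s k154 k223 10 (.s k222 k18 9 (.d
  k207 k237 k101 4 14)))))))) .n)) .n))) .n)))))) (.c k172 (.l (.s k80 k160 11 (.s k244 k248 1 (.s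
  k84 k168 13 (.s k164 k4 11 (.d k88 k92 k12 1 13)))))) (.c k244 (.f k84 k168 13 (.q k16 [(.s k48
  k32 3 (.s k152 k220 9 (.s k116 k184 9 (.d k100 k68 k204 3 13)))), (.s k80 k160 11 (.s k208 k144 7
  (.s k220 k152 9 (.s k212 k216 1 (.d k192 k224 k232 3 5))))), (.s k48 k32 3 (.s k80 k160 11 (.s
  k144 k208 7 (.s k96 k192 11 (.d k112 k64 k176 3 7)))))] (.c k7 (.q k11 [(.s k48 k32 3 (.s k152
  k220 9 (.s k116 k184 9 (.d k100 k68 k204 3 13)))), (.s k80 k160 11 (.s k208 k144 7 (.s k220 k152 9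
  (.s k212 k216 1 (.d k192 k224 k232 3 5))))), (.s k48 k32 3 (.s k80 k160 11 (.s k144 k208 7 (.s k96
  k192 11 (.d k112 k64 k176 3 7)))))] (.c k86 (.q k165 [(.s k48 k32 3 (.s k116 k184 9 (.s k100 k68 3
  (.d k152 k220 k204 9 13)))), (.s k80 k160 11 (.s k208 k144 7 (.s k220 k152 9 (.s k212 k216 1 (.d
  k192 k224 k232 3 5))))), (.s k48 k32 3 (.s k80 k160 11 (.s k144 k208 7 (.s k96 k192 11 (.d k112
  k64 k176 3 7)))))] .n) (.c k165 (.q k86 [(.s k48 k32 3 (.s k152 k220 9 (.s k116 k184 9 (.d k100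
  k68 k204 3 13)))), (.s k80 k160 11 (.s k208 k144 7 (.s k220 k152 9 (.s k212 k216 1 (.d k192 k224
  k232 3 5))))), (.s k48 k32 3 (.s k80 k160 11 (.s k144 k208 7 (.s k96 k192 11 (.d k112 k64 k176 3
  7)))))] .n) .n))) (.c k11 (.q k7 [(.s k48 k32 3 (.s k152 k220 9 (.s k116 k184 9 (.d k100 k68 k204
  3 13)))), (.s k80 k160 11 (.s k208 k144 7 (.s k220 k152 9 (.s k212 k216 1 (.d k192 k224 k232 3
  5))))), (.s k48 k32 3 (.s k80 k160 11 (.s k144 k208 7 (.s k96 k192 11 (.d k112 k64 k176 3 7)))))]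
  .n) .n)))) (.c k248 (.q k16 [(.s k48 k32 3 (.s k80 k160 11 (.s k144 k208 7 (.s k112 k176 7 (.d k96
  k64 k192 3 11))))), (.s k48 k32 3 (.s k84 k168 13 (.s k152 k220 9 (.s k100 k204 13 (.d k116 k68
  k184 3 9))))), (.s k80 k160 11 (.s k84 k168 13 (.s k208 k144 7 (.s k220 k152 9 (.s k212 k216 1 (.d
  k192 k232 k224 5 3))))))] (.c k7 (.q k11 [(.s k48 k32 3 (.s k80 k160 11 (.s k144 k208 7 (.s k112
  k176 7 (.d k96 k64 k192 3 11))))), (.s k48 k32 3 (.s k84 k168 13 (.s k152 k220 9 (.s k100 k204 13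
  (.d k116 k68 k184 3 9))))), (.s k80 k160 11 (.s k84 k168 13 (.s k208 k144 7 (.s k220 k152 9 (.s
  k212 k216 1 (.d k192 k232 k224 5 3))))))] .n) (.c k11 (.q k7 [(.s k48 k32 3 (.s k80 k160 11 (.s
  k144 k208 7 (.s k112 k176 7 (.d k96 k64 k192 3 11))))), (.s k48 k32 3 (.s k84 k168 13 (.s k152
  k220 9 (.s k100 k204 13 (.d k116 k68 k184 3 9))))), (.s k80 k160 11 (.s k84 k168 13 (.s k208 k144
  7 (.s k220 k152 9 (.s k212 k216 1 (.d k192 k232 k224 5 3))))))] (.c k90 (.q k169 [(.s k48 k32 3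
  (.s k80 k160 11 (.s k112 k176 7 (.s k96 k64 3 (.d k144 k208 k192 7 11))))), (.s k48 k32 3 (.s k84
  k168 13 (.s k152 k220 9 (.s k100 k204 13 (.d k116 k68 k184 3 9))))), (.s k80 k160 11 (.s k84 k168
  13 (.s k208 k144 7 (.s k220 k152 9 (.s k212 k216 1 (.d k192 k232 k224 5 3))))))] .n) (.c k169 (.q
  k90 [(.s k48 k32 3 (.s k80 k160 11 (.s k144 k208 7 (.s k112 k176 7 (.d k96 k64 k192 3 11))))), (.s
  k48 k32 3 (.s k84 k168 13 (.s k152 k220 9 (.s k100 k204 13 (.d k116 k68 k184 3 9))))), (.s k80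
  k160 11 (.s k84 k168 13 (.s k208 k144 7 (.s k220 k152 9 (.s k212 k216 1 (.d k192 k232 k224 5
  3))))))] .n) .n))) .n))) .n)))))))))))))))

def t20 : T TT 256 :=
  (.q k192 [(.s k128 k64 7 (.s k168 k84 13 (.s k148 k188 5 (.s k232 k212 5 (.d k104 k40 k60 7
  13)))))] (.c k40 (.q k85 [(.s k64 k128 7 (.s k170 k255 14 (.s k106 k127 6 (.s k42 k234 7 (.d k63
  k21 k149 6 14))))), (.s k64 k128 7 (.s k255 k170 14 (.s k106 k127 6 (.s k232 k212 5 (.s k253 k254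
  0 (.d k169 k43 k1 8 13)))))), (.s k84 k168 13 (.s k255 k170 14 (.s k86 k87 0 (.s k213 k234 6 (.s
  k149 k21 7 (.d k212 k232 k23 5 8))))))] (.c k106 (.l (.s k128 k64 7 (.s k170 k255 14 (.s k149 k191
  6 (.s k212 k232 5 (.s k86 k23 8 (.d k84 k87 k168 0 13))))))) (.c k149 (.l (.s k64 k128 7 (.s k170
  k255 14 (.s k106 k127 6 (.s k232 k212 5 (.s k169 k43 8 (.d k168 k171 k84 0 13))))))) (.c k170 (.l
  (.s k64 k128 7 (.s k84 k168 13 (.s k106 k127 6 (.s k149 k63 14 (.s k86 k87 0 (.d k212 k232 k23 5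
  8))))))) (.c k255 (.l (.s k64 k128 7 (.s k84 k168 13 (.s k106 k127 6 (.s k63 k149 14 (.s k126 k189
  8 (.d k86 k87 k66 0 5))))))) .n))))) (.c k60 (.f k212 k232 5 (.q k12 [(.s k4 k8 1 (.s k128 k64 7
  (.s k132 k72 9 (.s k68 k196 7 (.d k136 k140 k204 1 9))))), (.s k4 k8 1 (.s k84 k168 13 (.s k164
  k244 11 (.s k88 k240 13 (.d k92 k80 k172 1 11))))), (.s k64 k128 7 (.s k84 k168 13 (.s k72 k132 9
  (.s k92 k172 11 (.s k104 k124 5 (.d k88 k80 k120 1 3))))))] (.c k22 (.q k41 [(.s k4 k8 1 (.s k128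
  k64 7 (.s k132 k72 9 (.s k68 k196 7 (.d k136 k140 k204 1 9))))), (.s k4 k8 1 (.s k84 k168 13 (.s
  k164 k244 11 (.s k88 k240 13 (.d k92 k80 k172 1 11))))), (.s k64 k128 7 (.s k84 k168 13 (.s k72
  k132 9 (.s k92 k172 11 (.s k104 k124 5 (.d k88 k80 k120 1 3))))))] (.c k21 (.q k23 [(.s k4 k8 1
  (.s k128 k64 7 (.s k132 k72 9 (.s k68 k196 7 (.d k136 k140 k204 1 9))))), (.s k4 k8 1 (.s k84 k168
  13 (.s k164 k244 11 (.s k88 k240 13 (.d k92 k80 k172 1 11))))), (.s k64 k128 7 (.s k84 k168 13 (.s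
  k72 k132 9 (.s k92 k172 11 (.s k104 k124 5 (.d k88 k80 k120 1 3))))))] .n) (.c k23 (.q k21 [(.s k4
  k8 1 (.s k128 k64 7 (.s k132 k72 9 (.s k68 k196 7 (.d k136 k140 k204 1 9))))), (.s k4 k8 1 (.s k63
  k42 6 (.s k38 k55 4 (.s k25 k51 6 (.d k29 k17 k46 1 4))))), (.s k63 k42 6 (.s k128 k64 7 (.s k149
  k106 14 (.s k85 k213 7 (.d k170 k191 k255 6 14)))))] (.c k43 (.l (.s k63 k42 6 (.s k4 k8 1 (.s k38
  k55 4 (.s k25 k51 6 (.d k29 k17 k46 1 4)))))) (.c k63 (.q k43 [(.s k4 k8 1 (.s k128 k64 7 (.s k132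
  k72 9 (.s k68 k196 7 (.d k136 k140 k204 1 9))))), (.s k4 k8 1 (.s k84 k168 13 (.s k164 k244 11 (.s
  k88 k240 13 (.d k92 k80 k172 1 11))))), (.s k64 k128 7 (.s k84 k168 13 (.s k72 k132 9 (.s k92 k172
  11 (.s k104 k124 5 (.d k88 k80 k120 1 3))))))] (.c k61 (.q k62 [(.s k4 k8 1 (.s k128 k64 7 (.s
  k132 k72 9 (.s k68 k196 7 (.d k136 k140 k204 1 9))))), (.s k4 k8 1 (.s k84 k168 13 (.s k164 k244
  11 (.s k88 k240 13 (.d k92 k80 k172 1 11))))), (.s k64 k128 7 (.s k84 k168 13 (.s k72 k132 9 (.s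
  k92 k172 11 (.s k104 k124 5 (.d k88 k80 k120 1 3))))))] .n) (.c k62 (.l (.s k61 k1 5 (.s k4 k8 1
  (.s k128 k64 7 (.s k132 k72 9 (.s k68 k196 7 (.d k136 k140 k204 1 9))))))) .n))) .n))) .n))) (.c
  k41 (.q k22 [(.s k4 k8 1 (.s k128 k64 7 (.s k132 k72 9 (.s k68 k196 7 (.d k136 k140 k204 1 9))))),
  (.s k4 k8 1 (.s k84 k168 13 (.s k164 k244 11 (.s k88 k240 13 (.d k92 k80 k172 1 11))))), (.s k64
  k128 7 (.s k84 k168 13 (.s k72 k132 9 (.s k92 k172 11 (.s k104 k124 5 (.d k88 k80 k120 1 3))))))]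
  .n) .n)))) (.c k64 (.q k244 [(.s k212 k232 5 (.s k228 k196 3 (.s k240 k248 1 (.s k208 k224 3 (.d
  k216 k220 k204 1 5))))), (.s k84 k168 13 (.s k164 k4 11 (.s k240 k248 1 (.s k80 k160 11 (.d k88
  k92 k12 1 13))))), (.s k84 k168 13 (.s k4 k164 11 (.s k212 k232 5 (.s k196 k228 3 (.s k68 k132 7
  (.d k204 k200 k136 1 9))))))] .n) (.c k84 (.q k244 [(.s k212 k232 5 (.s k228 k196 3 (.s k240 k248
  1 (.s k208 k224 3 (.d k216 k220 k204 1 5))))), (.s k64 k128 7 (.s k240 k248 1 (.s k80 k160 11 (.s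
  k96 k112 3 (.s k144 k48 11 (.d k208 k224 k16 3 7)))))), (.s k64 k128 7 (.s k212 k232 5 (.s k196
  k228 3 (.s k204 k200 1 (.s k68 k136 9 (.s k132 k4 7 (.d k72 k76 k12 1 9)))))))] (.c k148 (.l (.s
  k212 k232 5 (.s k228 k196 3 (.s k240 k248 1 (.s k208 k224 3 (.d k216 k220 k204 1 5)))))) (.c k212
  (.q k148 [(.s k128 k64 7 (.s k188 k168 5 (.d k60 k124 k104 7 13))), (.s k64 k128 7 (.s k240 k248 1
  (.s k80 k160 11 (.s k96 k112 3 (.s k144 k48 11 (.d k208 k224 k16 3 7)))))), (.s k104 k60 13 (.s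
  k240 k248 1 (.s k208 k224 3 (.s k88 k28 9 (.s k12 k164 13 (.d k72 k120 k132 3 9))))))] .n) (.c
  k224 (.q k148 [(.s k128 k64 7 (.s k188 k168 5 (.d k60 k124 k104 7 13))), (.s k60 k104 13 (.s k212
  k232 5 (.s k240 k248 1 (.s k180 k120 9 (.s k52 k116 7 (.d k196 k228 k100 3 11))))))] (.c k60 (.l
  (.s k128 k64 7 (.s k168 k188 5 (.s k240 k248 1 (.s k160 k80 11 (.s k164 k172 1 (.s k132 k180 3 (.d
  k12 k88 k72 13 9)))))))) (.c k64 (.l (.s k60 k104 13 (.s k124 k188 7 (.s k212 k232 5 (.s k240 k248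
  1 (.s k180 k120 9 (.s k52 k116 7 (.d k196 k228 k100 3 11)))))))) (.c k104 (.f k232 k212 5 (.l (.s
  k248 k240 1 (.s k200 k216 3 (.s k204 k196 1 (.s k136 k68 9 (.s k72 k8 7 (.s k132 k12 9 (.d k128
  k140 k64 1 7))))))))) (.c k124 (.l (.s k128 k64 7 (.s k104 k60 13 (.s k168 k188 5 (.d k232 k212
  k40 5 7))))) (.c k168 (.l (.s k60 k104 13 (.s k240 k248 1 (.s k180 k120 9 (.s k116 k52 7 (.s k184
  k48 9 (.d k188 k124 k176 7 1))))))) .n)))))) (.c k248 (.q k148 [(.s k128 k64 7 (.s k188 k168 5 (.d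
  k60 k124 k104 7 13))), (.s k212 k232 5 (.s k196 k228 3 (.s k52 k100 11 (.s k116 k180 7 (.s k48
  k184 9 (.d k60 k56 k104 1 13))))))] (.c k60 (.l (.s k128 k64 7 (.s k168 k188 5 (.s k212 k232 5 (.s
  k196 k228 3 (.s k100 k52 11 (.s k236 k32 9 (.d k204 k200 k220 1 3)))))))) (.c k104 (.q k52 [(.s
  k196 k100 11 (.d k212 k228 k232 3 5)), (.s k64 k128 7 (.s k116 k180 7 (.s k48 k184 9 (.s k32 k16 3
  (.s k96 k144 11 (.s k160 k224 7 (.d k80 k112 k240 3 11))))))), (.s k212 k232 5 (.d k196 k228 k100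
  3 11))] (.c k64 (.q k124 [(.s k196 k100 11 (.d k212 k228 k232 3 5)), (.s k116 k180 7 (.s k48 k184
  9 (.d k60 k56 k188 1 7)))] (.c k116 (.l (.s k212 k232 5 (.d k196 k228 k100 3 11))) .n)) (.c k124
  (.l (.s k64 k128 7 (.s k196 k100 11 (.d k212 k228 k232 3 5)))) .n))) (.c k188 (.l (.s k60 k104 13
  (.s k212 k232 5 (.s k196 k228 3 (.s k52 k100 11 (.s k48 k56 1 (.d k116 k184 k180 9 7))))))) .n))))
  .n))))) (.c k104 (.q k85 [(.s k64 k128 7 (.s k170 k255 14 (.s k106 k127 6 (.s k42 k234 7 (.d k63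
  k21 k149 6 14))))), (.s k64 k128 7 (.s k255 k170 14 (.s k106 k127 6 (.s k232 k212 5 (.s k253 k254
  0 (.d k169 k43 k1 8 13)))))), (.s k84 k168 13 (.s k255 k170 14 (.s k86 k87 0 (.s k213 k234 6 (.s
  k149 k21 7 (.d k212 k232 k23 5 8))))))] (.c k106 (.l (.s k128 k64 7 (.s k170 k255 14 (.s k149 k191
  6 (.s k212 k232 5 (.s k86 k23 8 (.d k84 k87 k168 0 13))))))) (.c k149 (.l (.s k64 k128 7 (.s k170
  k255 14 (.s k106 k127 6 (.s k232 k212 5 (.s k169 k43 8 (.d k168 k171 k84 0 13))))))) (.c k170 (.l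
  (.s k64 k128 7 (.s k84 k168 13 (.s k106 k127 6 (.s k149 k63 14 (.s k86 k87 0 (.d k212 k232 k23 5
  8))))))) (.c k255 (.l (.s k64 k128 7 (.s k84 k168 13 (.s k106 k127 6 (.s k63 k149 14 (.s k126 k189
  8 (.d k86 k87 k66 0 5))))))) .n))))) (.c k124 (.q k85 [(.s k64 k128 7 (.s k255 k170 14 (.s k213
  k234 6 (.s k149 k21 7 (.d k106 k127 k63 6 14))))), (.s k64 k128 7 (.s k84 k168 13 (.s k106 k127 6
  (.s k63 k149 14 (.s k126 k189 8 (.d k86 k87 k66 0 5)))))), (.s k84 k168 13 (.s k255 k170 14 (.s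
  k86 k87 0 (.s k212 k232 5 (.s k149 k23 8 (.d k213 k21 k234 7 6))))))] (.c k63 (.l (.s k64 k128 7
  (.s k255 k170 14 (.s k106 k127 6 (.s k232 k212 5 (.s k253 k254 0 (.d k169 k43 k1 8 13))))))) (.c
  k149 (.l (.s k64 k128 7 (.s k170 k255 14 (.s k106 k127 6 (.s k232 k212 5 (.s k169 k43 8 (.d k168
  k171 k84 0 13))))))) (.c k170 (.l (.s k64 k128 7 (.s k84 k168 13 (.s k106 k127 6 (.s k149 k63 14
  (.s k86 k87 0 (.d k212 k23 k232 8 5))))))) .n)))) (.c k128 (.q k244 [(.s k212 k232 5 (.s k228 k196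
  3 (.s k240 k248 1 (.s k208 k224 3 (.d k216 k220 k204 1 5))))), (.s k84 k168 13 (.s k164 k4 11 (.s
  k240 k248 1 (.s k80 k160 11 (.d k88 k92 k12 1 13))))), (.s k84 k168 13 (.s k4 k164 11 (.s k212
  k232 5 (.s k196 k228 3 (.s k68 k132 7 (.d k204 k136 k200 9 1))))))] .n) (.c k148 (.q k244 [(.s
  k212 k232 5 (.s k228 k196 3 (.s k240 k248 1 (.s k208 k224 3 (.d k216 k220 k204 1 5))))), (.s k84
  k168 13 (.s k240 k248 1 (.s k80 k160 11 (.s k88 k92 1 (.d k164 k4 k12 11 13))))), (.s k84 k168 13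
  (.s k4 k164 11 (.s k212 k232 5 (.s k196 k228 3 (.s k132 k68 7 (.d k12 k8 k72 1 9))))))] (.c k84
  (.l (.s k212 k232 5 (.s k228 k196 3 (.s k240 k248 1 (.s k208 k224 3 (.d k216 k220 k204 1 5))))))
  (.c k212 (.l (.s k84 k168 13 (.s k164 k4 11 (.s k240 k248 1 (.s k80 k160 11 (.d k88 k92 k12 1
  13)))))) .n))) (.c k168 (.q k85 [(.s k128 k64 7 (.s k170 k255 14 (.s k149 k191 6 (.s k63 k106 14
  (.d k21 k42 k213 6 7))))), (.s k255 k170 14 (.s k232 k212 5 (.s k234 k213 6 (.s k233 k235 0 (.s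
  k214 k195 6 (.d k254 k253 k194 0 5)))))), (.s k64 k128 7 (.s k106 k127 6 (.s k232 k212 5 (.s k169
  k43 8 (.s k253 k1 13 (.d k255 k254 k170 0 14))))))] (.c k170 (.f k232 k212 5 (.l (.s k64 k128 7
  (.s k106 k127 6 (.s k169 k43 8 (.s k253 k1 13 (.s k255 k254 0 (.s k213 k234 6 (.d k149 k63 k21 14
  7))))))))) (.c k255 (.q k12 [(.s k4 k8 1 (.s k128 k64 7 (.s k132 k72 9 (.s k68 k196 7 (.d k136
  k140 k204 1 9))))), (.s k64 k128 7 (.s k72 k132 9 (.s k106 k127 6 (.s k89 k123 4 (.s k243 k166 14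
  (.d k81 k93 k162 1 12)))))), (.s k4 k8 1 (.s k64 k128 7 (.s k166 k247 12 (.s k243 k89 14 (.s k106
  k127 6 (.d k226 k209 k46 4 9)))))), (.s k4 k8 1 (.s k166 k247 12 (.s k132 k72 9 (.s k149 k183 4
  (.s k21 k213 7 (.d k63 k42 k106 6 14))))))] (.c k87 (.q k171 [(.s k4 k8 1 (.s k128 k64 7 (.s k132
  k72 9 (.s k68 k196 7 (.d k136 k140 k204 1 9))))), (.s k64 k128 7 (.s k72 k132 9 (.s k106 k127 6
  (.s k89 k123 4 (.s k243 k166 14 (.d k81 k93 k162 1 12)))))), (.s k4 k8 1 (.s k64 k128 7 (.s k166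
  k247 12 (.s k243 k89 14 (.s k106 k127 6 (.d k226 k209 k46 4 9)))))), (.s k4 k8 1 (.s k166 k247 12
  (.s k132 k72 9 (.s k149 k183 4 (.s k21 k213 7 (.d k63 k42 k106 6 14))))))] .n) (.c k171 (.q k87
  [(.s k4 k8 1 (.s k128 k64 7 (.s k132 k72 9 (.s k68 k196 7 (.d k136 k140 k204 1 9))))), (.s k64
  k128 7 (.s k106 k127 6 (.s k63 k149 14 (.s k126 k189 8 (.d k86 k84 k66 0 5))))), (.s k4 k8 1 (.s
  k166 k247 12 (.s k243 k89 14 (.s k86 k84 0 (.d k246 k249 k6 2 11)))))] (.c k169 (.q k170 [(.s k64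
  k128 7 (.s k106 k127 6 (.s k42 k234 7 (.d k63 k21 k149 6 14)))), (.s k4 k8 1 (.s k166 k247 12 (.s
  k243 k89 14 (.d k162 k174 k81 1 12))))] .n) (.c k170 (.q k169 [(.s k4 k8 1 (.s k172 k92 11 (.d
  k166 k163 k247 2 12))), (.s k64 k128 7 (.s k106 k127 6 (.d k232 k212 k43 5 8)))] .n) .n))) .n)))
  .n))) (.c k188 (.q k244 [(.s k212 k232 5 (.s k228 k196 3 (.s k240 k248 1 (.s k208 k224 3 (.d k216
  k220 k204 1 5))))), (.s k84 k168 13 (.s k164 k4 11 (.s k240 k248 1 (.s k80 k160 11 (.d k88 k92 k12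
  1 13))))), (.s k84 k168 13 (.s k4 k164 11 (.s k212 k232 5 (.s k196 k228 3 (.s k68 k132 7 (.d k204
  k200 k136 1 9))))))] .n) (.c k212 (.q k12 [(.s k4 k8 1 (.s k84 k168 13 (.s k92 k172 11 (.s k88 k80
  1 (.d k164 k244 k240 11 13))))), (.s k4 k8 1 (.s k128 k64 7 (.s k132 k72 9 (.s k136 k140 1 (.d k68
  k196 k204 7 9))))), (.s k64 k128 7 (.s k84 k168 13 (.s k72 k132 9 (.s k92 k172 11 (.s k104 k124 5
  (.d k88 k80 k120 1 3))))))] (.c k84 (.q k148 [(.s k128 k64 7 (.s k188 k168 5 (.d k60 k124 k104 7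
  13))), (.s k72 k132 9 (.s k104 k60 13 (.s k88 k120 3 (.s k240 k164 13 (.d k208 k224 k28 3 9))))),
  (.s k4 k8 1 (.s k132 k72 9 (.s k68 k196 7 (.s k136 k204 9 (.d k128 k140 k64 1 7)))))] .n) (.c k148
  (.l (.s k84 k168 13 (.s k4 k8 1 (.s k164 k244 11 (.s k88 k240 13 (.d k92 k80 k172 1 11)))))) .n)))
  (.c k232 (.q k12 [(.s k4 k8 1 (.s k128 k64 7 (.s k132 k72 9 (.s k68 k196 7 (.d k136 k140 k204 1
  9))))), (.s k4 k8 1 (.s k84 k168 13 (.s k164 k244 11 (.s k88 k240 13 (.d k92 k80 k172 1 11))))),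
  (.s k64 k128 7 (.s k84 k168 13 (.s k72 k132 9 (.s k92 k172 11 (.s k104 k124 5 (.d k88 k80 k120 1
  3))))))] .n) .n)))))))))))))

def t21 : T TT 256 :=
  (.q k192 [(.s k64 k128 7 (.s k84 k168 13 (.s k104 k124 5 (.s k212 k232 5 (.d k148 k20 k60 7
  13)))))] (.c k20 (.l (.s k128 k64 7 (.s k168 k84 13 (.s k148 k188 5 (.s k104 k60 13 (.d k232 k212
  k40 5 7)))))) (.c k60 (.q k170 [(.s k128 k64 7 (.s k255 k85 14 (.s k149 k191 6 (.s k234 k213 6 (.d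
  k106 k42 k63 7 14))))), (.s k64 k128 7 (.s k168 k84 13 (.s k169 k171 0 (.s k232 k212 5 (.s k106
  k43 8 (.d k85 k255 k127 14 6)))))), (.s k168 k84 13 (.s k255 k85 14 (.s k169 k171 0 (.s k232 k212
  5 (.s k106 k43 8 (.d k234 k213 k42 6 7))))))] (.c k22 (.q k41 [(.s k128 k64 7 (.s k255 k85 14 (.s
  k149 k191 6 (.s k234 k213 6 (.d k106 k42 k63 7 14))))), (.s k168 k84 13 (.s k169 k171 0 (.s k105
  k233 7 (.s k40 k235 8 (.d k232 k212 k104 5 7))))), (.s k168 k84 13 (.s k232 k212 5 (.s k40 k104 7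
  (.s k43 k42 0 (.d k169 k171 k106 0 8)))))] (.c k20 (.q k23 [(.s k128 k64 7 (.s k149 k191 6 (.d
  k212 k232 k86 5 8))), (.s k168 k84 13 (.s k169 k171 0 (.s k105 k233 7 (.s k40 k235 8 (.d k232 k212
  k104 5 7))))), (.s k128 k64 7 (.s k255 k85 14 (.s k149 k191 6 (.s k106 k63 14 (.d k234 k213 k42 6
  7)))))] .n) (.c k23 (.q k20 [(.s k84 k168 13 (.d k212 k232 k148 5 7)), (.s k128 k64 7 (.s k255 k85
  14 (.s k149 k191 6 (.s k234 k213 6 (.d k106 k63 k42 14 7)))))] (.c k43 (.q k63 [(.s k128 k64 7 (.d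
  k149 k191 k106 6 14)), (.s k84 k168 13 (.d k212 k232 k148 5 7))] .n) (.c k63 (.q k43 [(.s k84 k168
  13 (.d k212 k232 k148 5 7)), (.s k255 k85 14 (.s k42 k40 0 (.d k234 k213 k106 6 7)))] (.c k61 (.q
  k62 [(.s k84 k168 13 (.d k212 k232 k148 5 7)), (.s k255 k85 14 (.s k42 k40 0 (.d k234 k213 k106 6
  7)))] .n) (.c k62 (.q k61 [(.s k84 k168 13 (.d k212 k232 k148 5 7)), (.s k255 k85 14 (.s k42 k40 0
  (.d k234 k213 k106 6 7)))] (.c k2 (.l (.s k42 k40 0 (.s k84 k168 13 (.d k212 k232 k148 5 7)))) (.c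
  k42 (.q k2 [(.s k84 k168 13 (.d k212 k232 k148 5 7)), (.s k255 k85 14 (.d k254 k253 k86 0 13))]
  .n) .n))) .n))) .n))) .n))) (.c k41 (.q k22 [(.s k128 k64 7 (.s k255 k85 14 (.s k149 k191 6 (.s
  k234 k213 6 (.d k106 k42 k63 7 14))))), (.s k255 k85 14 (.s k254 k253 0 (.s k86 k2 13 (.s k214
  k150 7 (.d k234 k213 k194 6 5))))), (.s k128 k64 7 (.s k168 k84 13 (.s k149 k191 6 (.s k106 k63 14
  (.s k169 k171 0 (.d k232 k43 k212 8 5))))))] (.c k1 (.q k61 [(.s k128 k64 7 (.s k255 k85 14 (.s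
  k149 k191 6 (.s k234 k213 6 (.d k106 k42 k63 7 14))))), (.s k84 k168 13 (.s k85 k255 14 (.s k212
  k232 5 (.s k20 k148 7 (.s k150 k215 8 (.d k86 k87 k214 0 7)))))), (.s k128 k64 7 (.s k168 k84 13
  (.s k149 k191 6 (.s k105 k193 13 (.s k40 k235 8 (.d k232 k104 k212 7 5))))))] (.c k128 (.l (.s
  k168 k84 13 (.s k255 k85 14 (.s k169 k171 0 (.s k232 k212 5 (.s k106 k43 8 (.d k234 k213 k42 6
  7))))))) .n)) (.c k61 (.q k1 [(.s k168 k84 13 (.s k169 k171 0 (.d k85 k255 k253 14 13))), (.s k128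
  k64 7 (.s k255 k85 14 (.s k149 k191 6 (.s k234 k213 6 (.d k106 k63 k42 14 7)))))] (.c k62 (.q k63
  [(.s k128 k64 7 (.d k149 k191 k106 6 14)), (.s k168 k84 13 (.s k85 k255 14 (.d k169 k171 k253 0
  13)))] .n) (.c k63 (.q k62 [(.s k168 k84 13 (.s k169 k171 0 (.d k85 k255 k253 14 13))), (.s k128
  k64 7 (.s k2 k42 5 (.s k86 k254 13 (.s k212 k232 5 (.d k149 k23 k191 8 6)))))] (.c k23 (.q k43
  [(.s k168 k84 13 (.s k169 k171 0 (.d k85 k255 k253 14 13))), (.s k255 k85 14 (.s k2 k42 5 (.d k254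
  k253 k86 0 13))), (.s k168 k84 13 (.s k232 k212 5 (.d k169 k171 k106 0 8)))] .n) (.c k43 (.q k23
  [(.s k42 k2 5 (.s k255 k85 14 (.d k234 k213 k106 6 7))), (.s k128 k64 7 (.s k149 k191 6 (.d k212
  k232 k86 5 8)))] (.c k40 (.l (.s k42 k2 5 (.s k255 k85 14 (.d k234 k213 k106 6 7)))) (.c k42 (.q
  k40 [(.s k168 k84 13 (.d k232 k212 k104 5 7)), (.s k128 k64 7 (.s k149 k191 6 (.d k212 k232 k86 5
  8))), (.s k168 k84 13 (.s k85 k255 14 (.d k169 k171 k253 0 13)))] .n) (.c k149 (.l (.s k168 k84 13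
  (.s k85 k255 14 (.d k169 k171 k253 0 13)))) (.c k255 (.l (.s k128 k64 7 (.s k212 k232 5 (.d k149
  k191 k86 6 8)))) .n))))) .n))) (.c k85 (.l (.s k128 k64 7 (.s k168 k84 13 (.s k149 k191 6 (.s k169
  k171 0 (.s k189 k129 5 (.d k63 k106 k126 14 8))))))) (.c k255 (.l (.s k128 k64 7 (.s k168 k84 13
  (.s k149 k191 6 (.s k63 k106 14 (.s k189 k126 8 (.d k169 k171 k129 0 5))))))) .n))))) (.c k149 (.l
  (.s k64 k128 7 (.s k168 k84 13 (.s k85 k255 14 (.s k106 k127 6 (.s k232 k212 5 (.d k169 k171 k43 0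
  8))))))) (.c k255 (.l (.s k128 k64 7 (.s k168 k84 13 (.s k149 k191 6 (.s k63 k106 14 (.s k189 k126
  8 (.d k169 k171 k129 0 5))))))) .n))))) (.c k63 (.l (.s k128 k64 7 (.s k255 k85 14 (.s k149 k191 6
  (.s k212 k232 5 (.s k254 k253 0 (.d k86 k23 k2 8 13))))))) (.c k85 (.l (.s k128 k64 7 (.s k168 k84
  13 (.s k149 k191 6 (.s k106 k63 14 (.s k169 k171 0 (.d k232 k43 k212 8 5))))))) (.c k106 (.l (.s
  k128 k64 7 (.s k84 k168 13 (.s k85 k255 14 (.s k149 k191 6 (.s k212 k232 5 (.d k86 k87 k23 0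
  8))))))) (.c k255 (.l (.s k128 k64 7 (.s k168 k84 13 (.s k149 k191 6 (.s k63 k106 14 (.s k189 k126
  8 (.d k169 k171 k129 0 5))))))) .n))))))) (.c k64 (.q k244 [(.s k212 k232 5 (.s k228 k196 3 (.s
  k240 k248 1 (.s k208 k224 3 (.d k216 k220 k204 1 5))))), (.s k84 k168 13 (.s k164 k4 11 (.s k240
  k248 1 (.s k80 k160 11 (.d k88 k92 k12 1 13))))), (.s k84 k168 13 (.s k4 k164 11 (.s k212 k232 5
  (.s k196 k228 3 (.s k68 k132 7 (.d k204 k200 k136 1 9))))))] .n) (.c k84 (.q k255 [(.s k212 k232 5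
  (.s k213 k234 6 (.s k214 k215 0 (.s k233 k195 6 (.d k253 k254 k193 0 5))))), (.s k128 k64 7 (.s
  k170 k85 14 (.s k149 k191 6 (.s k106 k63 14 (.d k234 k213 k42 6 7))))), (.s k64 k128 7 (.s k85
  k170 14 (.s k106 k127 6 (.s k232 k212 5 (.s k169 k43 8 (.d k253 k254 k1 0 13))))))] .n) (.c k104
  (.q k255 [(.s k128 k64 7 (.s k170 k85 14 (.s k149 k191 6 (.s k234 k213 6 (.d k106 k42 k63 7
  14))))), (.s k212 k232 5 (.s k213 k234 6 (.s k214 k215 0 (.s k233 k195 6 (.d k253 k254 k193 0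
  5))))), (.s k64 k128 7 (.s k85 k170 14 (.s k106 k127 6 (.s k232 k212 5 (.s k169 k43 8 (.d k253
  k254 k1 0 13))))))] .n) (.c k124 (.l (.s k128 k64 7 (.s k232 k212 5 (.s k168 k84 13 (.s k104 k40 7
  (.d k148 k188 k60 5 13)))))) (.c k128 (.q k244 [(.s k212 k232 5 (.s k228 k196 3 (.s k240 k248 1
  (.s k208 k224 3 (.d k216 k220 k204 1 5))))), (.s k84 k168 13 (.s k164 k4 11 (.s k240 k248 1 (.s
  k80 k160 11 (.d k88 k92 k12 1 13))))), (.s k84 k168 13 (.s k4 k164 11 (.s k212 k232 5 (.s k196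
  k228 3 (.s k68 k132 7 (.d k204 k136 k200 9 1))))))] .n) (.c k148 (.q k244 [(.s k212 k232 5 (.s
  k228 k196 3 (.s k240 k248 1 (.s k208 k224 3 (.d k216 k220 k204 1 5))))), (.s k84 k168 13 (.s k164
  k4 11 (.s k240 k248 1 (.s k80 k160 11 (.d k88 k92 k12 1 13))))), (.s k84 k168 13 (.s k4 k164 11
  (.s k212 k232 5 (.s k196 k228 3 (.s k132 k68 7 (.d k12 k8 k72 1 9))))))] .n) (.c k168 (.q k255
  [(.s k128 k64 7 (.s k170 k85 14 (.s k149 k191 6 (.s k234 k213 6 (.d k106 k42 k63 7 14))))), (.s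
  k212 k232 5 (.s k213 k234 6 (.s k214 k215 0 (.s k233 k195 6 (.d k253 k254 k193 0 5))))), (.s k64
  k128 7 (.s k85 k170 14 (.s k106 k127 6 (.s k232 k212 5 (.s k169 k43 8 (.d k253 k254 k1 0 13))))))]
  .n) (.c k188 (.l (.s k64 k128 7 (.s k212 k232 5 (.s k84 k168 13 (.s k148 k20 7 (.d k104 k124 k60 5
  13)))))) (.c k212 (.q k12 [(.s k4 k8 1 (.s k84 k168 13 (.s k92 k172 11 (.s k88 k80 1 (.d k164 k244
  k240 11 13))))), (.s k4 k8 1 (.s k128 k64 7 (.s k132 k72 9 (.s k136 k140 1 (.d k68 k196 k204 7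
  9))))), (.s k64 k128 7 (.s k84 k168 13 (.s k72 k132 9 (.s k92 k172 11 (.s k104 k124 5 (.d k88 k80
  k120 1 3))))))] .n) (.c k232 (.q k12 [(.s k4 k8 1 (.s k128 k64 7 (.s k132 k72 9 (.s k68 k196 7 (.d
  k136 k140 k204 1 9))))), (.s k4 k8 1 (.s k84 k168 13 (.s k164 k244 11 (.s k88 k240 13 (.d k92 k80
  k172 1 11))))), (.s k64 k128 7 (.s k84 k168 13 (.s k72 k132 9 (.s k92 k172 11 (.s k104 k124 5 (.d
  k88 k80 k120 1 3))))))] .n) .n)))))))))))))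

def t22 : T TT 256 :=
  (.q k60 [(.s k20 k40 5 (.s k84 k168 13 (.s k148 k212 7 (.s k124 k188 7 (.d k104 k64 k192 5
  13)))))] (.c k20 (.q k12 [(.s k4 k8 1 (.s k84 k168 13 (.s k164 k244 11 (.s k92 k172 11 (.d k88 k80
  k240 1 13))))), (.s k28 k44 3 (.s k92 k172 11 (.s k156 k220 7 (.s k108 k204 11 (.d k124 k76 k188 3
  7))))), (.s k4 k8 1 (.s k84 k168 13 (.s k164 k244 11 (.s k44 k28 3 (.s k104 k224 9 (.d k124 k64
  k188 5 7))))))] (.c k21 (.q k23 [(.s k4 k8 1 (.s k84 k168 13 (.s k164 k244 11 (.s k92 k172 11 (.d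
  k88 k80 k240 1 13))))), (.s k28 k44 3 (.s k92 k172 11 (.s k156 k220 7 (.s k108 k204 11 (.d k124
  k76 k188 3 7))))), (.s k4 k8 1 (.s k84 k168 13 (.s k164 k244 11 (.s k44 k28 3 (.s k104 k224 9 (.d
  k124 k64 k188 5 7))))))] .n) (.c k23 (.q k21 [(.s k4 k8 1 (.s k84 k168 13 (.s k164 k244 11 (.s k88
  k240 13 (.d k92 k80 k172 1 11))))), (.s k4 k8 1 (.s k63 k42 6 (.s k38 k55 4 (.s k25 k51 6 (.d k29
  k17 k46 1 4))))), (.s k28 k44 3 (.s k92 k172 11 (.s k156 k220 7 (.s k108 k204 11 (.d k124 k76 k188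
  3 7)))))] (.c k43 (.l (.s k63 k42 6 (.s k4 k8 1 (.s k38 k55 4 (.s k25 k51 6 (.d k29 k17 k46 1
  4)))))) (.c k63 (.q k43 [(.s k4 k8 1 (.s k84 k168 13 (.s k164 k244 11 (.s k92 k172 11 (.d k88 k80
  k240 1 13))))), (.s k28 k44 3 (.s k92 k172 11 (.s k156 k220 7 (.s k108 k204 11 (.d k124 k76 k188 3
  7))))), (.s k4 k8 1 (.s k84 k168 13 (.s k164 k244 11 (.s k44 k28 3 (.s k104 k224 9 (.d k124 k64
  k188 5 7))))))] .n) .n))) .n))) (.c k40 (.q k12 [(.s k8 k4 1 (.s k172 k92 11 (.s k168 k84 13 (.s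
  k164 k160 1 (.d k88 k248 k240 11 13))))), (.s k28 k44 3 (.s k92 k172 11 (.s k156 k220 7 (.s k108
  k204 11 (.d k124 k76 k188 3 7))))), (.s k4 k8 1 (.s k84 k168 13 (.s k164 k244 11 (.s k44 k28 3 (.s
  k104 k224 9 (.d k124 k64 k188 5 7))))))] .n) (.c k64 (.l (.s k40 k20 5 (.s k168 k84 13 (.s k104
  k232 7 (.s k148 k192 13 (.d k188 k124 k128 7 5)))))) (.c k84 (.q k85 [(.s k20 k40 5 (.s k170 k255
  14 (.s k150 k215 8 (.s k195 k105 14 (.d k130 k190 k65 5 8))))), (.s k255 k170 14 (.s k188 k124 7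
  (.s k190 k125 8 (.s k189 k191 0 (.s k126 k63 8 (.d k254 k253 k62 0 7))))))] (.c k170 (.q k12 [(.s
  k28 k44 3 (.s k92 k172 11 (.s k156 k220 7 (.s k108 k204 11 (.d k124 k76 k188 3 7))))), (.s k4 k8 1
  (.s k20 k40 5 (.s k166 k247 12 (.s k150 k215 8 (.s k134 k182 3 (.d k195 k105 k73 14 10))))))] .n)
  (.c k190 (.l (.s k40 k20 5 (.s k170 k255 14 (.s k105 k235 8 (.s k195 k150 14 (.d k65 k125 k130 5
  8)))))) (.c k255 (.q k12 [(.s k4 k8 1 (.s k20 k40 5 (.s k36 k52 3 (.s k28 k44 3 (.d k24 k16 k48 1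
  5))))), (.s k28 k44 3 (.s k92 k172 11 (.s k156 k220 7 (.s k108 k204 11 (.d k124 k76 k188 3 7))))),
  (.s k4 k8 1 (.s k20 k40 5 (.s k166 k247 12 (.s k243 k89 14 (.s k150 k215 8 (.d k182 k134 k121 3
  10))))))] (.c k87 (.q k171 [(.s k4 k8 1 (.s k20 k40 5 (.s k36 k52 3 (.s k28 k44 3 (.d k24 k16 k48
  1 5))))), (.s k28 k44 3 (.s k92 k172 11 (.s k156 k220 7 (.s k108 k204 11 (.d k124 k76 k188 3
  7))))), (.s k4 k8 1 (.s k20 k40 5 (.s k166 k247 12 (.s k243 k89 14 (.s k150 k215 8 (.d k182 k134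
  k121 3 10))))))] .n) (.c k171 (.q k87 [(.s k4 k8 1 (.s k20 k40 5 (.s k36 k52 3 (.s k28 k44 3 (.d
  k24 k16 k48 1 5))))), (.s k28 k44 3 (.s k92 k172 11 (.s k156 k220 7 (.s k108 k204 11 (.d k124 k76
  k188 3 7))))), (.s k4 k8 1 (.s k20 k40 5 (.s k166 k247 12 (.s k243 k89 14 (.s k150 k215 8 (.d k182
  k134 k121 3 10))))))] .n) .n))) .n)))) (.c k104 (.q k12 [(.s k28 k44 3 (.s k92 k172 11 (.s k156
  k220 7 (.s k108 k204 11 (.d k124 k76 k188 3 7))))), (.s k4 k8 1 (.s k20 k40 5 (.s k36 k52 3 (.s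
  k24 k48 5 (.d k28 k16 k44 1 3))))), (.s k4 k8 1 (.s k84 k168 13 (.s k164 k244 11 (.s k88 k240 13
  (.d k92 k80 k172 1 11)))))] .n) (.c k124 (.q k12 [(.s k4 k8 1 (.s k20 k40 5 (.s k28 k44 3 (.s k24
  k16 1 (.d k36 k52 k48 3 5))))), (.s k4 k8 1 (.s k84 k168 13 (.s k164 k244 11 (.s k88 k240 13 (.d
  k92 k80 k172 1 11))))), (.s k20 k40 5 (.s k84 k168 13 (.s k28 k44 3 (.s k92 k172 11 (.s k148 k212
  7 (.d k88 k80 k208 1 9))))))] .n) (.c k148 (.q k12 [(.s k4 k8 1 (.s k20 k40 5 (.s k28 k44 3 (.s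
  k24 k16 1 (.d k36 k52 k48 3 5))))), (.s k28 k44 3 (.s k92 k172 11 (.s k156 k220 7 (.s k108 k204 11
  (.d k124 k76 k188 3 7))))), (.s k4 k8 1 (.s k84 k168 13 (.s k164 k244 11 (.s k88 k240 13 (.d k92
  k80 k172 1 11)))))] .n) (.c k168 (.q k170 [(.s k20 k40 5 (.s k85 k255 14 (.s k150 k215 8 (.s k195
  k105 14 (.d k130 k190 k65 5 8))))), (.s k255 k85 14 (.s k124 k188 7 (.s k125 k190 8 (.s k126 k127
  0 (.s k189 k63 8 (.d k253 k254 k61 0 7))))))] (.c k85 (.q k12 [(.s k28 k44 3 (.s k92 k172 11 (.s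
  k156 k220 7 (.s k108 k204 11 (.d k124 k76 k188 3 7))))), (.s k8 k4 1 (.s k40 k20 5 (.s k89 k251 12
  (.s k105 k235 8 (.s k73 k121 3 (.d k195 k150 k134 14 10))))))] .n) (.c k190 (.l (.s k40 k20 5 (.s
  k85 k255 14 (.s k105 k235 8 (.s k195 k150 14 (.d k65 k125 k130 5 8)))))) (.c k255 (.q k12 [(.s k4
  k8 1 (.s k20 k40 5 (.s k28 k44 3 (.s k24 k16 1 (.d k36 k52 k48 3 5))))), (.s k28 k44 3 (.s k92
  k172 11 (.s k156 k220 7 (.s k108 k204 11 (.d k124 k76 k188 3 7))))), (.s k8 k4 1 (.s k40 k20 5 (.s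
  k89 k251 12 (.s k243 k166 14 (.s k105 k235 8 (.d k121 k73 k182 3 10))))))] (.c k87 (.q k171 [(.s
  k4 k8 1 (.s k20 k40 5 (.s k28 k44 3 (.s k24 k16 1 (.d k36 k52 k48 3 5))))), (.s k28 k44 3 (.s k92
  k172 11 (.s k156 k220 7 (.s k108 k204 11 (.d k124 k76 k188 3 7))))), (.s k8 k4 1 (.s k40 k20 5 (.s
  k89 k251 12 (.s k243 k166 14 (.s k105 k235 8 (.d k121 k73 k182 3 10))))))] .n) (.c k171 (.q k87
  [(.s k4 k8 1 (.s k20 k40 5 (.s k28 k44 3 (.s k24 k16 1 (.d k36 k52 k48 3 5))))), (.s k28 k44 3 (.s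
  k92 k172 11 (.s k156 k220 7 (.s k108 k204 11 (.d k124 k76 k188 3 7))))), (.s k8 k4 1 (.s k40 k20 5
  (.s k89 k251 12 (.s k243 k166 14 (.s k105 k235 8 (.d k121 k73 k182 3 10))))))] .n) .n))) .n))))
  (.c k188 (.q k12 [(.s k4 k8 1 (.s k20 k40 5 (.s k28 k44 3 (.s k24 k16 1 (.d k36 k52 k48 3 5))))),
  (.s k4 k8 1 (.s k84 k168 13 (.s k164 k244 11 (.s k88 k240 13 (.d k92 k80 k172 1 11))))), (.s k20
  k40 5 (.s k84 k168 13 (.s k28 k44 3 (.s k92 k172 11 (.s k148 k212 7 (.d k88 k80 k208 1 9))))))]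
  .n) (.c k192 (.q k12 [(.s k4 k8 1 (.s k20 k40 5 (.s k28 k44 3 (.s k24 k16 1 (.d k36 k52 k48 3
  5))))), (.s k28 k44 3 (.s k92 k172 11 (.s k156 k220 7 (.s k108 k204 11 (.d k124 k76 k188 3 7))))),
  (.s k4 k8 1 (.s k84 k168 13 (.s k164 k244 11 (.s k88 k240 13 (.d k92 k80 k172 1 11)))))] (.c k66
  (.q k129 [(.s k4 k8 1 (.s k20 k40 5 (.s k28 k44 3 (.s k24 k16 1 (.d k36 k52 k48 3 5))))), (.s k28
  k44 3 (.s k92 k172 11 (.s k156 k220 7 (.s k108 k204 11 (.d k124 k76 k188 3 7))))), (.s k4 k8 1 (.s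
  k84 k168 13 (.s k164 k244 11 (.s k88 k240 13 (.d k92 k80 k172 1 11)))))] .n) (.c k129 (.q k66 [(.s
  k4 k8 1 (.s k20 k40 5 (.s k28 k44 3 (.s k24 k16 1 (.d k36 k52 k48 3 5))))), (.s k28 k44 3 (.s k92
  k172 11 (.s k156 k220 7 (.s k108 k204 11 (.d k124 k76 k188 3 7))))), (.s k4 k8 1 (.s k84 k168 13
  (.s k164 k244 11 (.s k88 k240 13 (.d k92 k80 k172 1 11)))))] .n) .n))) (.c k212 (.l (.s k40 k20 5
  (.s k188 k124 7 (.s k168 k84 13 (.s k148 k128 5 (.d k104 k232 k192 7 13)))))) (.c k232 (.l (.s k20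
  k40 5 (.s k124 k188 7 (.s k84 k168 13 (.s k104 k64 5 (.d k148 k212 k192 7 13)))))) .n)))))))))))))

def t23 : T TT 256 :=
  (.q k192 [(.s k64 k128 7 (.s k84 k168 13 (.s k104 k124 5 (.s k212 k232 5 (.d k148 k20 k60 7
  13)))))] (.c k20 (.l (.s k128 k64 7 (.s k168 k84 13 (.s k148 k188 5 (.s k104 k60 13 (.d k232 k212
  k40 5 7)))))) (.c k43 (.q k63 [(.s k64 k128 7 (.s k84 k168 13 (.s k104 k124 5 (.s k148 k60 13 (.d
  k212 k232 k20 5 7))))), (.s k21 k42 6 (.s k128 k64 7 (.s k149 k106 14 (.s k85 k213 7 (.d k170 k191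
  k255 6 14))))), (.s k42 k21 6 (.s k64 k128 7 (.s k106 k149 14 (.s k170 k234 7 (.d k85 k127 k255 6
  14))))), (.s k21 k42 6 (.s k168 k84 13 (.s k149 k106 14 (.s k85 k213 7 (.s k170 k255 14 (.s k189
  k126 8 (.d k169 k171 k129 0 5)))))))] .n) (.c k60 (.q k63 [(.s k21 k42 6 (.s k128 k64 7 (.s k149
  k106 14 (.s k85 k213 7 (.d k170 k191 k255 6 14))))), (.s k128 k64 7 (.s k168 k84 13 (.s k189 k126
  8 (.s k188 k148 5 (.s k191 k190 0 (.d k149 k170 k106 6 14)))))), (.s k42 k21 6 (.s k168 k84 13 (.s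
  k106 k149 14 (.s k170 k234 7 (.s k169 k171 0 (.d k232 k212 k43 5 8))))))] (.c k22 (.q k41 [(.s
  k168 k84 13 (.s k232 k212 5 (.s k40 k104 7 (.d k42 k21 k43 6 0)))), (.s k21 k42 6 (.s k1 k61 5 (.s
  k149 k106 14 (.s k85 k213 7 (.s k169 k253 13 (.d k189 k129 k126 5 8)))))), (.s k64 k128 7 (.s k84
  k168 13 (.s k126 k189 8 (.s k124 k104 5 (.s k127 k125 0 (.s k85 k106 6 (.d k255 k191 k170 7
  14)))))))] (.c k20 (.l (.s k21 k42 6 (.s k128 k64 7 (.s k149 k106 14 (.s k85 k213 7 (.d k170 k191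
  k255 6 14)))))) (.c k21 (.q k20 [(.s k84 k168 13 (.d k212 k232 k148 5 7)), (.s k64 k128 7 (.s k106
  k149 14 (.s k85 k127 6 (.s k170 k255 14 (.s k42 k234 7 (.s k43 k40 0 (.d k232 k212 k169 5
  8)))))))] (.c k212 (.l (.s k64 k128 7 (.s k84 k168 13 (.s k126 k189 8 (.s k106 k149 14 (.s k86 k66
  5 (.d k85 k87 k127 0 6))))))) (.c k232 (.l (.s k64 k128 7 (.s k84 k168 13 (.s k106 k149 14 (.s
  k126 k189 8 (.s k85 k127 6 (.d k86 k87 k66 0 5))))))) .n))) .n))) (.c k41 (.q k22 [(.s k21 k42 6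
  (.s k128 k64 7 (.s k149 k106 14 (.s k85 k213 7 (.d k170 k191 k255 6 14))))), (.s k128 k64 7 (.s
  k168 k84 13 (.s k189 k126 8 (.s k188 k148 5 (.s k191 k190 0 (.d k149 k170 k106 6 14)))))), (.s k42
  k21 6 (.s k62 k2 5 (.s k106 k149 14 (.s k150 k194 13 (.s k86 k214 7 (.d k126 k66 k189 5 8))))))]
  (.c k106 (.l (.s k128 k64 7 (.s k168 k84 13 (.s k189 k126 8 (.s k188 k148 5 (.s k191 k190 0 (.s
  k170 k149 6 (.d k255 k127 k85 7 14)))))))) (.c k149 (.l (.s k64 k128 7 (.s k84 k168 13 (.s k126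
  k189 8 (.s k124 k104 5 (.s k127 k125 0 (.s k85 k106 6 (.d k255 k191 k170 7 14)))))))) .n))) (.c
  k106 (.l (.s k128 k64 7 (.s k168 k84 13 (.s k189 k126 8 (.s k188 k148 5 (.s k191 k190 0 (.s k170
  k149 6 (.d k255 k127 k85 7 14)))))))) (.c k149 (.l (.s k64 k128 7 (.s k84 k168 13 (.s k126 k189 8
  (.s k124 k104 5 (.s k127 k125 0 (.s k85 k106 6 (.d k255 k191 k170 7 14)))))))) (.c k170 (.l (.s
  k64 k128 7 (.s k84 k168 13 (.s k126 k189 8 (.s k124 k104 5 (.s k127 k125 0 (.d k106 k149 k85 14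
  6))))))) (.c k255 (.l (.s k64 k128 7 (.s k84 k168 13 (.s k106 k149 14 (.s k126 k189 8 (.s k124
  k104 5 (.d k127 k125 k85 0 6))))))) .n))))))) (.c k63 (.q k43 [(.s k64 k128 7 (.s k84 k168 13 (.s
  k104 k124 5 (.s k212 k232 5 (.d k148 k20 k60 7 13))))), (.s k168 k84 13 (.s k232 k212 5 (.s k40
  k104 7 (.s k41 k42 0 (.s k169 k106 8 (.s k105 k233 7 (.d k170 k171 k235 0 8)))))))] (.c k20 (.l
  (.s k128 k64 7 (.s k168 k84 13 (.s k148 k188 5 (.s k104 k60 13 (.d k232 k212 k40 5 7)))))) (.c k64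
  (.q k244 [(.s k84 k168 13 (.s k164 k4 11 (.s k240 k248 1 (.s k80 k160 11 (.d k88 k92 k12 1
  13))))), (.s k212 k232 5 (.s k228 k196 3 (.s k240 k248 1 (.s k208 k224 3 (.d k216 k220 k204 1
  5))))), (.s k84 k168 13 (.s k4 k164 11 (.s k212 k232 5 (.s k196 k228 3 (.s k68 k132 7 (.d k204
  k200 k136 1 9))))))] .n) (.c k84 (.q k85 [(.s k64 k128 7 (.s k106 k127 6 (.d k232 k212 k169 5
  8))), (.s k255 k170 14 (.s k232 k212 5 (.s k234 k213 6 (.s k233 k235 0 (.s k214 k195 6 (.d k254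
  k253 k194 0 5))))))] (.c k212 (.l (.s k64 k128 7 (.s k255 k170 14 (.s k106 k127 6 (.s k169 k232 8
  (.d k253 k254 k1 0 13)))))) (.c k232 (.q k12 [(.s k4 k8 1 (.s k128 k64 7 (.s k132 k72 9 (.s k68
  k196 7 (.d k136 k140 k204 1 9))))), (.s k4 k8 1 (.s k170 k255 14 (.s k166 k247 12 (.s k243 k89 14
  (.d k162 k174 k81 1 12))))), (.s k64 k128 7 (.s k255 k170 14 (.s k72 k132 9 (.s k93 k174 12 (.s
  k106 k127 6 (.d k89 k81 k123 1 4))))))] .n) (.c k255 (.l (.s k64 k128 7 (.s k232 k212 5 (.d k106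
  k127 k169 6 8)))) .n)))) (.c k104 (.q k12 [(.s k8 k4 1 (.s k64 k128 7 (.s k72 k132 9 (.s k136 k200
  7 (.d k68 k76 k204 1 9))))), (.s k4 k8 1 (.s k84 k168 13 (.s k164 k244 11 (.s k88 k240 13 (.d k92
  k80 k172 1 11))))), (.s k168 k84 13 (.s k132 k72 9 (.s k172 k92 11 (.s k164 k160 1 (.s k148 k180 3
  (.d k128 k64 k188 7 5))))))] .n) (.c k124 (.l (.s k128 k64 7 (.s k232 k212 5 (.s k168 k84 13 (.s
  k104 k40 7 (.d k148 k188 k60 5 13)))))) (.c k148 (.q k12 [(.s k4 k8 1 (.s k128 k64 7 (.s k132 k72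
  9 (.s k136 k140 1 (.d k68 k196 k204 7 9))))), (.s k8 k4 1 (.s k168 k84 13 (.s k88 k248 11 (.s k164
  k240 13 (.d k172 k160 k92 1 11))))), (.s k84 k168 13 (.s k72 k132 9 (.s k92 k172 11 (.s k88 k80 1
  (.s k104 k120 3 (.d k64 k128 k124 7 5))))))] .n) (.c k168 (.q k170 [(.s k255 k85 14 (.s k234 k213
  6 (.s k106 k42 7 (.d k232 k212 k169 5 8)))), (.s k255 k85 14 (.s k212 k232 5 (.s k213 k234 6 (.s
  k214 k215 0 (.s k233 k195 6 (.d k253 k254 k193 0 5)))))), (.s k232 k212 5 (.s k106 k169 8 (.s k234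
  k42 7 (.s k235 k233 0 (.s k105 k40 8 (.d k107 k104 k171 0 7))))))] (.c k212 (.l (.s k255 k85 14
  (.s k234 k213 6 (.s k42 k106 7 (.s k40 k41 0 (.s k235 k105 8 (.s k233 k232 0 (.d k195 k215 k214 5
  6)))))))) (.c k232 (.l (.s k255 k85 14 (.s k234 k213 6 (.s k254 k253 0 (.s k2 k86 13 (.s k194 k214
  5 (.s k130 k66 7 (.d k195 k193 k65 0 8)))))))) (.c k234 (.l (.s k64 k128 7 (.s k85 k255 14 (.s
  k232 k212 5 (.d k106 k127 k169 6 8))))) .n)))) (.c k212 (.q k170 [(.s k64 k128 7 (.s k168 k84 13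
  (.s k169 k171 0 (.s k106 k232 8 (.d k85 k255 k127 14 6))))), (.s k255 k85 14 (.s k234 k213 6 (.s
  k42 k106 7 (.s k40 k41 0 (.s k235 k105 8 (.s k233 k232 0 (.d k195 k215 k214 5 6))))))), (.s k168
  k84 13 (.s k171 k169 0 (.s k235 k107 7 (.s k40 k105 8 (.s k104 k232 7 (.d k60 k20 k148 5 13))))))]
  (.c k86 (.q k149 [(.d k128 k191 k64 6 7), (.s k168 k84 13 (.s k169 k171 0 (.s k106 k232 8 (.s k234
  k42 7 (.d k255 k85 k213 14 6)))))] .n) (.c k106 (.l (.s k168 k84 13 (.s k171 k169 0 (.s k235 k107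
  7 (.s k40 k105 8 (.s k104 k232 7 (.d k60 k20 k148 5 13))))))) (.c k149 (.q k86 [(.s k84 k168 13
  (.d k85 k87 k255 0 14)), (.s k255 k85 14 (.d k254 k253 k2 0 13)), (.s k64 k128 7 (.s k84 k168 13
  (.s k124 k104 5 (.s k105 k67 6 (.s k40 k235 8 (.d k60 k188 k20 7 5))))))] .n) (.c k169 (.l (.s
  k168 k84 13 (.s k255 k85 14 (.s k234 k213 6 (.s k42 k106 7 (.s k40 k41 0 (.s k104 k232 7 (.d k60
  k20 k148 5 13)))))))) (.c k232 (.l (.s k128 k64 7 (.s k168 k84 13 (.s k148 k188 5 (.s k171 k169 0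
  (.s k235 k107 7 (.s k40 k105 8 (.d k60 k20 k104 5 13)))))))) .n)))))) (.c k232 (.q k12 [(.s k4 k8
  1 (.s k128 k64 7 (.s k132 k72 9 (.s k68 k196 7 (.d k136 k140 k204 1 9))))), (.s k4 k8 1 (.s k84
  k168 13 (.s k164 k244 11 (.s k88 k240 13 (.d k92 k80 k172 1 11))))), (.s k64 k128 7 (.s k84 k168
  13 (.s k72 k132 9 (.s k92 k172 11 (.s k104 k124 5 (.d k88 k80 k120 1 3))))))] .n) .n)))))))))) (.c
  k64 (.q k244 [(.s k84 k168 13 (.s k164 k4 11 (.s k240 k248 1 (.s k80 k160 11 (.d k88 k92 k12 1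
  13))))), (.s k212 k232 5 (.s k228 k196 3 (.s k240 k248 1 (.s k208 k224 3 (.d k216 k220 k204 1
  5))))), (.s k84 k168 13 (.s k4 k164 11 (.s k212 k232 5 (.s k196 k228 3 (.s k68 k132 7 (.d k204
  k200 k136 1 9))))))] (.c k43 (.q k63 [(.s k84 k168 13 (.s k164 k4 11 (.s k240 k248 1 (.s k80 k160
  11 (.d k88 k92 k12 1 13))))), (.s k189 k126 8 (.s k240 k248 1 (.s k181 k122 10 (.s k118 k55 8 (.d
  k185 k177 k51 1 10))))), (.s k21 k42 6 (.s k84 k168 13 (.s k4 k164 11 (.s k55 k38 4 (.s k51 k59 1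
  (.d k118 k181 k185 8 10))))))] .n) (.c k63 (.q k43 [(.s k84 k168 13 (.s k164 k4 11 (.s k240 k248 1
  (.s k80 k160 11 (.d k88 k92 k12 1 13))))), (.s k212 k232 5 (.s k228 k196 3 (.s k240 k248 1 (.s
  k208 k224 3 (.d k216 k220 k204 1 5))))), (.s k84 k168 13 (.s k4 k164 11 (.s k212 k232 5 (.s k196
  k228 3 (.s k68 k132 7 (.d k204 k200 k136 1 9))))))] .n) .n))) (.c k84 (.q k244 [(.s k212 k232 5
  (.s k228 k196 3 (.s k240 k248 1 (.s k208 k224 3 (.d k216 k220 k204 1 5))))), (.s k64 k128 7 (.s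
  k240 k248 1 (.s k80 k160 11 (.s k96 k112 3 (.s k144 k48 11 (.d k208 k224 k16 3 7)))))), (.s k64
  k128 7 (.s k212 k232 5 (.s k196 k228 3 (.s k204 k200 1 (.s k68 k136 9 (.s k132 k4 7 (.d k72 k76
  k12 1 9)))))))] (.c k43 (.q k63 [(.s k189 k126 8 (.s k240 k248 1 (.s k181 k122 10 (.s k118 k55 8
  (.d k185 k177 k51 1 10))))), (.s k21 k42 6 (.s k128 k64 7 (.s k149 k106 14 (.s k85 k213 7 (.d k170
  k191 k255 6 14)))))] .n) (.c k63 (.q k43 [(.s k212 k232 5 (.s k228 k196 3 (.s k240 k248 1 (.s k208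
  k224 3 (.d k216 k220 k204 1 5))))), (.s k64 k128 7 (.s k240 k248 1 (.s k80 k160 11 (.s k96 k112 3
  (.s k144 k48 11 (.d k208 k224 k16 3 7)))))), (.s k64 k128 7 (.s k212 k232 5 (.s k196 k228 3 (.s
  k204 k200 1 (.s k68 k136 9 (.s k132 k4 7 (.d k72 k76 k12 1 9)))))))] (.c k224 (.q k170 [(.s k255
  k85 14 (.s k234 k213 6 (.s k106 k42 7 (.d k232 k212 k169 5 8)))), (.s k85 k255 14 (.s k240 k248 1
  (.s k80 k160 11 (.s k90 k95 2 (.s k10 k250 11 (.d k15 k5 k165 2 14)))))), (.s k232 k212 5 (.s k106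
  k169 8 (.s k42 k234 7 (.s k40 k41 0 (.s k104 k168 7 (.d k60 k20 k148 5 13))))))] .n) (.c k248 (.q
  k12 [(.s k132 k72 9 (.s k212 k232 5 (.s k196 k228 3 (.d k4 k8 k68 1 7)))), (.s k8 k4 1 (.s k64
  k128 7 (.s k72 k132 9 (.s k68 k76 1 (.d k136 k200 k204 7 9))))), (.s k64 k128 7 (.s k72 k132 9 (.s
  k68 k76 1 (.s k212 k232 5 (.s k196 k228 3 (.d k204 k200 k136 1 9))))))] (.c k68 (.l (.s k8 k4 1
  (.s k212 k232 5 (.s k72 k132 9 (.s k196 k228 3 (.d k200 k204 k136 1 7)))))) (.c k72 (.l (.s k4 k8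
  1 (.s k212 k232 5 (.s k196 k228 3 (.s k68 k132 7 (.d k204 k200 k136 1 9)))))) (.c k132 (.q k236
  [(.s k212 k232 5 (.s k196 k228 3 (.d k204 k200 k220 1 3))), (.s k172 k92 11 (.s k108 k44 7 (.s
  k204 k220 3 (.s k140 k76 7 (.d k156 k188 k60 3 11))))), (.s k172 k92 11 (.s k44 k108 7 (.s k232
  k212 5 (.s k224 k228 1 (.s k104 k164 9 (.d k60 k148 k28 13 3))))))] .n) (.c k196 (.l (.s k8 k4 1
  (.s k64 k128 7 (.s k72 k132 9 (.s k68 k76 1 (.d k136 k200 k204 7 9)))))) (.c k200 (.l (.s k4 k8 1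
  (.s k128 k64 7 (.s k132 k72 9 (.s k136 k140 1 (.d k68 k196 k204 7 9)))))) .n)))))) .n))) (.c k224
  (.q k63 [(.s k189 k126 8 (.s k240 k248 1 (.s k181 k122 10 (.s k118 k55 8 (.d k185 k177 k51 1
  10))))), (.s k21 k42 6 (.s k128 k64 7 (.s k149 k106 14 (.s k85 k213 7 (.d k170 k191 k255 6
  14)))))] .n) (.c k248 (.q k63 [(.s k21 k42 6 (.s k149 k106 14 (.s k85 k213 7 (.s k170 k255 14 (.d
  k128 k191 k64 6 7))))), (.s k149 k106 14 (.s k212 k232 5 (.s k196 k228 3 (.s k55 k102 12 (.s k51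
  k59 1 (.d k118 k185 k181 10 8))))))] (.c k106 (.q k149 [(.s k21 k42 6 (.s k85 k213 7 (.s k170 k255
  14 (.d k128 k191 k64 6 7)))), (.s k212 k232 5 (.s k196 k228 3 (.s k55 k102 12 (.s k51 k59 1 (.d
  k118 k185 k181 10 8)))))] .n) (.c k149 (.q k60 [(.s k61 k62 0 (.s k189 k126 8 (.s k125 k253 7 (.s
  k190 k255 8 (.d k188 k191 k124 0 7))))), (.s k148 k104 13 (.s k212 k232 5 (.s k196 k228 3 (.s k52
  k100 11 (.s k48 k56 1 (.d k116 k184 k180 9 7))))))] (.c k86 (.l (.s k212 k232 5 (.s k61 k62 0 (.s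
  k188 k124 7 (.s k189 k126 8 (.s k125 k253 7 (.d k190 k191 k255 0 8))))))) (.c k124 (.l (.s k64
  k128 7 (.s k148 k104 13 (.s k212 k232 5 (.s k196 k228 3 (.s k52 k100 11 (.s k48 k56 1 (.d k116
  k184 k180 9 7)))))))) (.c k212 (.q k86 [(.s k20 k40 5 (.s k104 k148 13 (.s k124 k188 7 (.s k105
  k67 6 (.s k107 k106 0 (.d k195 k151 k150 13 14)))))), (.s k42 k21 6 (.s k62 k61 0 (.s k126 k189 8
  (.s k254 k190 7 (.d k2 k22 k170 5 13)))))] (.c k20 (.l (.s k148 k104 13 (.s k64 k128 7 (.s k124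
  k188 7 (.s k126 k189 8 (.s k66 k106 5 (.d k67 k105 k65 6 0))))))) (.c k105 (.l (.s k64 k128 7 (.s
  k124 k188 7 (.s k126 k189 8 (.s k106 k66 5 (.d k127 k125 k85 0 6)))))) (.c k148 (.l (.s k20 k40 5
  (.s k42 k21 6 (.s k62 k61 0 (.s k2 k22 5 (.s k254 k170 13 (.d k126 k190 k189 7 8))))))) (.c k188
  (.l (.s k20 k40 5 (.s k42 k21 6 (.s k62 k61 0 (.s k2 k22 5 (.s k254 k170 13 (.d k126 k190 k189 7
  8))))))) .n))))) .n)))) .n))) .n))))) (.c k104 (.q k12 [(.s k8 k4 1 (.s k64 k128 7 (.s k72 k132 9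
  (.s k136 k200 7 (.d k68 k76 k204 1 9))))), (.s k4 k8 1 (.s k84 k168 13 (.s k164 k244 11 (.s k88
  k240 13 (.d k92 k80 k172 1 11))))), (.s k168 k84 13 (.s k132 k72 9 (.s k172 k92 11 (.s k164 k160 1
  (.s k148 k180 3 (.d k128 k64 k188 7 5))))))] (.c k43 (.q k63 [(.s k4 k8 1 (.s k21 k42 6 (.s k29
  k46 4 (.s k25 k17 1 (.d k38 k55 k51 4 6))))), (.s k4 k8 1 (.s k128 k64 7 (.s k132 k72 9 (.s k68
  k196 7 (.d k136 k140 k204 1 9))))), (.s k21 k42 6 (.s k128 k64 7 (.s k149 k106 14 (.s k85 k213 7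
  (.d k170 k191 k255 6 14)))))] .n) (.c k63 (.q k43 [(.s k8 k4 1 (.s k64 k128 7 (.s k72 k132 9 (.s
  k136 k200 7 (.d k68 k76 k204 1 9))))), (.s k4 k8 1 (.s k84 k168 13 (.s k164 k244 11 (.s k88 k240
  13 (.d k92 k80 k172 1 11))))), (.s k168 k84 13 (.s k132 k72 9 (.s k172 k92 11 (.s k164 k160 1 (.s
  k148 k180 3 (.d k128 k64 k188 7 5))))))] .n) .n))) (.c k124 (.l (.s k128 k64 7 (.s k232 k212 5 (.s
  k168 k84 13 (.s k104 k40 7 (.d k148 k188 k60 5 13)))))) (.c k128 (.q k170 [(.s k168 k84 13 (.s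
  k255 k85 14 (.s k169 k171 0 (.s k234 k213 6 (.s k106 k42 7 (.d k232 k43 k212 8 5)))))), (.s k255
  k85 14 (.s k212 k232 5 (.s k213 k234 6 (.s k214 k215 0 (.s k233 k195 6 (.d k253 k254 k193 0
  5)))))), (.s k168 k84 13 (.s k232 k212 5 (.s k40 k104 7 (.s k235 k105 8 (.s k234 k233 0 (.s k106
  k42 7 (.d k169 k43 k171 8 0))))))), (.s k255 k85 14 (.s k234 k213 6 (.s k106 k42 7 (.s k254 k253 0
  (.s k86 k2 13 (.s k126 k66 5 (.d k63 k149 k189 14 8)))))))] (.c k43 (.q k63 [(.s k42 k21 6 (.d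
  k106 k234 k149 7 14)), (.s k168 k84 13 (.s k149 k106 14 (.s k189 k126 8 (.d k169 k171 k129 0
  5))))] (.c k106 (.l (.s k21 k42 6 (.s k168 k84 13 (.s k85 k255 14 (.s k149 k213 7 (.s k189 k126 8
  (.d k169 k171 k129 0 5))))))) (.c k149 (.l (.s k42 k21 6 (.s k234 k106 7 (.d k255 k213 k85 6
  14)))) .n))) (.c k63 (.q k43 [(.s k168 k84 13 (.s k169 k171 0 (.d k232 k212 k106 5 8))), (.s k255
  k85 14 (.s k232 k212 5 (.s k106 k169 8 (.d k234 k213 k42 6 7)))), (.s k168 k84 13 (.s k171 k169 0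
  (.s k235 k107 7 (.s k232 k212 5 (.d k40 k104 k105 7 8))))), (.s k168 k84 13 (.s k255 k85 14 (.s
  k171 k169 0 (.s k235 k107 7 (.s k40 k105 8 (.s k234 k213 6 (.d k42 k41 k106 0 7)))))))] (.c k169
  (.l (.s k168 k84 13 (.s k255 k85 14 (.s k232 k212 5 (.s k40 k104 7 (.s k42 k41 0 (.d k234 k213
  k106 6 7))))))) .n)) (.c k234 (.l (.s k168 k84 13 (.s k169 k171 0 (.s k232 k212 5 (.s k40 k104 7
  (.s k105 k235 8 (.s k41 k233 7 (.d k43 k42 k106 0 8)))))))) .n)))) (.c k148 (.q k12 [(.s k4 k8 1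
  (.s k128 k64 7 (.s k132 k72 9 (.s k136 k140 1 (.d k68 k196 k204 7 9))))), (.s k8 k4 1 (.s k168 k84
  13 (.s k88 k248 11 (.s k164 k240 13 (.d k172 k160 k92 1 11))))), (.s k84 k168 13 (.s k72 k132 9
  (.s k92 k172 11 (.s k88 k80 1 (.s k104 k120 3 (.d k64 k128 k124 7 5))))))] (.c k43 (.q k63 [(.s k4
  k8 1 (.s k21 k42 6 (.s k29 k46 4 (.s k25 k17 1 (.d k38 k55 k51 4 6))))), (.s k4 k8 1 (.s k128 k64
  7 (.s k132 k72 9 (.s k68 k196 7 (.d k136 k140 k204 1 9))))), (.s k21 k42 6 (.s k128 k64 7 (.s k149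
  k106 14 (.s k85 k213 7 (.d k170 k191 k255 6 14)))))] .n) (.c k63 (.q k43 [(.s k4 k8 1 (.s k128 k64
  7 (.s k132 k72 9 (.s k136 k140 1 (.d k68 k196 k204 7 9))))), (.s k8 k4 1 (.s k168 k84 13 (.s k88
  k248 11 (.s k164 k240 13 (.d k172 k160 k92 1 11))))), (.s k84 k168 13 (.s k72 k132 9 (.s k92 k172
  11 (.s k88 k80 1 (.s k104 k120 3 (.d k64 k128 k124 7 5))))))] .n) .n))) (.c k168 (.q k236 [(.s
  k232 k212 5 (.s k204 k220 3 (.s k200 k196 1 (.s k228 k224 1 (.d k216 k248 k240 3 5))))), (.s k64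
  k128 7 (.s k204 k220 3 (.s k68 k136 9 (.s k72 k76 1 (.s k132 k12 9 (.d k196 k200 k4 1 7)))))), (.s
  k128 k64 7 (.s k232 k212 5 (.s k224 k228 1 (.s k240 k208 3 (.s k160 k80 11 (.s k96 k32 7 (.d k144
  k176 k48 3 11)))))))] (.c k43 (.q k63 [(.s k126 k189 8 (.s k204 k220 3 (.s k110 k157 12 (.s k173
  k47 8 (.d k94 k78 k15 3 12))))), (.s k21 k42 6 (.s k128 k64 7 (.s k149 k106 14 (.s k85 k213 7 (.d
  k170 k191 k255 6 14)))))] .n) (.c k63 (.q k43 [(.s k232 k212 5 (.s k204 k220 3 (.s k200 k196 1 (.s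
  k228 k224 1 (.d k216 k248 k240 3 5))))), (.s k64 k128 7 (.s k204 k220 3 (.s k68 k136 9 (.s k72 k76
  1 (.s k132 k12 9 (.d k196 k200 k4 1 7)))))), (.s k128 k64 7 (.s k232 k212 5 (.s k224 k228 1 (.s
  k240 k208 3 (.s k160 k80 11 (.s k96 k32 7 (.d k144 k176 k48 3 11)))))))] (.c k196 (.q k60 [(.s
  k124 k188 7 (.s k204 k220 3 (.s k108 k156 11 (.s k172 k44 7 (.d k92 k76 k12 3 11))))), (.s k40 k20
  5 (.s k42 k41 0 (.s k232 k212 5 (.s k106 k169 8 (.s k170 k234 7 (.s k85 k255 14 (.d k64 k127 k128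
  6 7))))))), (.s k204 k220 3 (.s k108 k156 11 (.s k172 k44 7 (.s k92 k12 11 (.d k124 k76 k188 3
  7)))))] .n) (.c k220 (.q k12 [(.s k4 k8 1 (.s k128 k64 7 (.s k132 k72 9 (.s k68 k196 7 (.d k136
  k140 k204 1 9))))), (.s k172 k92 11 (.s k44 k108 7 (.s k232 k212 5 (.s k224 k228 1 (.s k104 k164 9
  (.d k60 k28 k148 3 13))))))] (.c k76 (.l (.s k4 k8 1 (.s k128 k64 7 (.s k132 k72 9 (.s k68 k196 7
  (.d k136 k140 k204 1 9)))))) (.c k196 (.l (.s k8 k4 1 (.s k64 k128 7 (.s k72 k132 9 (.s k68 k76 1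
  (.d k136 k200 k204 7 9)))))) .n))) .n))) (.c k196 (.q k63 [(.s k126 k189 8 (.s k204 k220 3 (.s
  k110 k157 12 (.s k173 k47 8 (.d k94 k78 k15 3 12))))), (.s k21 k42 6 (.s k128 k64 7 (.s k149 k106
  14 (.s k85 k213 7 (.d k170 k191 k255 6 14)))))] .n) (.c k220 (.q k12 [(.s k4 k8 1 (.s k128 k64 7
  (.s k132 k72 9 (.s k68 k196 7 (.d k136 k140 k204 1 9))))), (.s k172 k92 11 (.s k44 k108 7 (.s k232
  k212 5 (.s k224 k228 1 (.s k104 k164 9 (.d k60 k28 k148 3 13))))))] (.c k43 (.q k63 [(.s k4 k8 1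
  (.s k128 k64 7 (.s k132 k72 9 (.s k68 k196 7 (.d k136 k140 k204 1 9))))), (.s k21 k42 6 (.s k128
  k64 7 (.s k149 k106 14 (.s k85 k213 7 (.d k170 k191 k255 6 14))))), (.s k4 k8 1 (.s k21 k42 6 (.s
  k38 k55 4 (.s k25 k51 6 (.d k29 k17 k46 1 4)))))] .n) (.c k63 (.q k43 [(.s k4 k8 1 (.s k128 k64 7
  (.s k132 k72 9 (.s k68 k196 7 (.d k136 k140 k204 1 9))))), (.s k172 k92 11 (.s k44 k108 7 (.s k232
  k212 5 (.s k224 k228 1 (.s k104 k164 9 (.d k60 k28 k148 3 13))))))] (.c k76 (.l (.s k4 k8 1 (.s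
  k128 k64 7 (.s k132 k72 9 (.s k68 k196 7 (.d k136 k140 k204 1 9)))))) (.c k196 (.l (.s k8 k4 1 (.s
  k64 k128 7 (.s k72 k132 9 (.s k68 k76 1 (.d k136 k200 k204 7 9)))))) .n))) (.c k76 (.l (.s k4 k8 1
  (.s k128 k64 7 (.s k132 k72 9 (.s k68 k196 7 (.d k136 k140 k204 1 9)))))) (.c k196 (.l (.s k8 k4 1
  (.s k64 k128 7 (.s k72 k132 9 (.s k68 k76 1 (.d k136 k200 k204 7 9)))))) .n))))) .n))))) (.c k188
  (.l (.s k64 k128 7 (.s k212 k232 5 (.s k84 k168 13 (.s k148 k20 7 (.d k104 k124 k60 5 13)))))) (.c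
  k212 (.q k63 [(.s k21 k42 6 (.s k128 k64 7 (.s k149 k106 14 (.s k170 k191 6 (.d k85 k213 k255 7
  14))))), (.s k64 k128 7 (.s k84 k168 13 (.s k126 k189 8 (.s k124 k104 5 (.s k127 k125 0 (.d k106
  k149 k85 14 6)))))), (.s k21 k42 6 (.s k168 k84 13 (.s k149 k106 14 (.s k85 k213 7 (.s k170 k255
  14 (.s k189 k126 8 (.d k169 k171 k129 0 5)))))))] (.c k85 (.l (.s k168 k84 13 (.s k149 k106 14 (.s
  k189 k126 8 (.s k169 k129 5 (.s k170 k171 0 (.d k128 k64 k191 7 6))))))) (.c k86 (.l (.s k149 k106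
  14 (.s k21 k42 6 (.s k128 k64 7 (.s k85 k213 7 (.d k170 k191 k255 6 14)))))) (.c k106 (.q k149
  [(.s k21 k42 6 (.s k128 k64 7 (.s k170 k191 6 (.d k85 k213 k255 7 14)))), (.s k168 k84 13 (.s k189
  k126 8 (.s k169 k129 5 (.s k170 k171 0 (.d k128 k191 k64 6 7))))), (.s k21 k42 6 (.s k168 k84 13
  (.s k85 k213 7 (.s k170 k255 14 (.s k189 k126 8 (.d k169 k171 k129 0 5))))))] (.c k170 (.q k12
  [(.s k29 k46 4 (.s k132 k72 9 (.s k89 k209 9 (.d k166 k183 k243 4 14)))), (.s k4 k8 1 (.s k84 k168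
  13 (.s k164 k244 11 (.s k88 k240 13 (.d k92 k80 k172 1 11)))))] (.c k42 (.q k234 [(.s k132 k72 9
  (.s k166 k183 4 (.s k89 k243 14 (.d k29 k46 k209 4 9)))), (.s k4 k8 1 (.s k84 k168 13 (.s k164
  k244 11 (.s k88 k240 13 (.d k92 k80 k172 1 11)))))] (.c k89 (.l (.s k8 k4 1 (.s k64 k128 7 (.s k72
  k132 9 (.s k136 k200 7 (.d k68 k76 k204 1 9)))))) .n)) (.c k89 (.l (.s k8 k4 1 (.s k42 k21 6 (.s
  k25 k59 4 (.s k38 k51 6 (.d k46 k34 k29 1 4)))))) (.c k234 (.l (.s k42 k21 6 (.s k8 k4 1 (.s k25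
  k59 4 (.s k38 k51 6 (.d k46 k34 k29 1 4)))))) .n)))) (.c k255 (.l (.s k128 k64 7 (.s k168 k84 13
  (.s k189 k126 8 (.s k170 k191 6 (.d k169 k171 k129 0 5)))))) .n))) (.c k149 (.q k86 [(.s k64 k128
  7 (.s k126 k189 8 (.s k106 k66 5 (.s k85 k127 6 (.d k84 k87 k168 0 13))))), (.s k64 k128 7 (.s k84
  k168 13 (.s k85 k87 0 (.s k127 k106 6 (.d k255 k191 k170 7 14))))), (.s k42 k21 6 (.s k84 k168 13
  (.s k126 k189 8 (.s k106 k66 5 (.s k170 k234 7 (.d k85 k87 k255 0 14)))))), (.s k42 k21 6 (.s k64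
  k128 7 (.s k126 k189 8 (.s k106 k66 5 (.s k170 k234 7 (.d k85 k127 k255 6 14))))))] (.c k85 (.l
  (.s k64 k128 7 (.s k84 k168 13 (.s k126 k189 8 (.s k124 k104 5 (.s k66 k106 5 (.d k67 k105 k65 6
  0))))))) (.c k106 (.l (.s k64 k128 7 (.s k84 k168 13 (.s k126 k189 8 (.s k124 k104 5 (.s k105 k67
  6 (.s k85 k87 0 (.d k125 k127 k65 0 5)))))))) (.c k170 (.l (.s k84 k168 13 (.s k126 k189 8 (.s
  k106 k66 5 (.s k85 k87 0 (.d k64 k127 k128 6 7)))))) .n)))) .n))))) (.c k232 (.q k63 [(.s k21 k42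
  6 (.s k128 k64 7 (.s k149 k106 14 (.s k85 k213 7 (.d k170 k191 k255 6 14))))), (.s k128 k64 7 (.s
  k168 k84 13 (.s k189 k126 8 (.s k188 k148 5 (.s k191 k190 0 (.d k149 k170 k106 6 14)))))), (.s k21
  k42 6 (.s k168 k84 13 (.s k149 k106 14 (.s k85 k213 7 (.s k170 k255 14 (.s k189 k126 8 (.d k169
  k171 k129 0 5)))))))] (.c k106 (.l (.s k128 k64 7 (.s k168 k84 13 (.s k189 k126 8 (.s k188 k148 5
  (.s k191 k190 0 (.s k170 k149 6 (.d k255 k127 k85 7 14)))))))) (.c k149 (.q k86 [(.s k64 k128 7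
  (.s k126 k189 8 (.s k106 k66 5 (.s k85 k127 6 (.d k84 k87 k168 0 13))))), (.s k42 k21 6 (.s k84
  k168 13 (.s k126 k189 8 (.s k106 k66 5 (.s k170 k234 7 (.d k85 k87 k255 0 14)))))), (.s k64 k128 7
  (.s k84 k168 13 (.s k85 k87 0 (.s k127 k106 6 (.d k255 k191 k170 7 14))))), (.s k42 k21 6 (.s k64
  k128 7 (.s k126 k189 8 (.s k106 k66 5 (.s k170 k234 7 (.d k85 k127 k255 6 14))))))] (.c k85 (.l
  (.s k64 k128 7 (.s k84 k168 13 (.s k126 k189 8 (.s k66 k106 5 (.s k67 k65 0 (.d k124 k104 k105 5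
  6))))))) (.c k106 (.q k244 [(.s k84 k168 13 (.s k164 k4 11 (.s k240 k248 1 (.s k80 k160 11 (.d k88
  k92 k12 1 13))))), (.s k189 k126 8 (.s k240 k248 1 (.s k181 k122 10 (.s k118 k55 8 (.d k185 k177
  k51 1 10))))), (.s k21 k42 6 (.s k84 k168 13 (.s k4 k164 11 (.s k55 k38 4 (.s k118 k181 8 (.d k51
  k59 k185 1 10))))))] (.c k43 (.q k169 [(.s k165 k7 12 (.s k173 k161 1 (.s k15 k94 12 (.d k240 k248
  k90 1 14)))), (.s k84 k168 13 (.s k85 k87 0 (.s k255 k170 14 (.d k253 k254 k1 0 13))))] .n) (.c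
  k169 (.q k43 [(.s k84 k168 13 (.s k164 k4 11 (.s k240 k248 1 (.s k80 k160 11 (.d k88 k92 k12 1
  13))))), (.s k189 k126 8 (.s k240 k248 1 (.s k181 k122 10 (.s k118 k55 8 (.d k185 k177 k51 1
  10))))), (.s k21 k42 6 (.s k84 k168 13 (.s k4 k164 11 (.s k55 k38 4 (.s k118 k181 8 (.d k51 k59
  k185 1 10))))))] (.c k129 (.l (.s k189 k126 8 (.s k240 k248 1 (.s k181 k122 10 (.s k118 k55 8 (.d
  k185 k177 k51 1 10)))))) (.c k189 (.q k129 [(.s k84 k168 13 (.s k164 k4 11 (.s k240 k248 1 (.s k80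
  k160 11 (.d k88 k92 k12 1 13))))), (.s k42 k21 6 (.s k128 k64 7 (.s k168 k84 13 (.s k40 k41 0 (.s
  k148 k188 5 (.d k60 k20 k104 5 13)))))), (.s k64 k128 7 (.s k240 k248 1 (.s k80 k160 11 (.s k96
  k112 3 (.s k144 k48 11 (.d k208 k224 k16 3 7))))))] .n) .n))) .n))) (.c k169 (.l (.s k64 k128 7
  (.s k84 k168 13 (.s k85 k87 0 (.s k106 k127 6 (.d k126 k66 k189 5 8)))))) (.c k170 (.l (.s k84
  k168 13 (.s k126 k189 8 (.s k106 k66 5 (.s k85 k87 0 (.d k64 k127 k128 6 7)))))) .n))))) (.c k170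
  (.l (.s k84 k168 13 (.s k106 k149 14 (.s k126 k189 8 (.s k86 k66 5 (.s k85 k87 0 (.d k64 k128 k127
  7 6))))))) .n)))) .n)))))))))))))))

def t24 : T TT 256 :=
  (.q k12 [(.s k8 k4 1 (.s k172 k92 11 (.s k168 k84 13 (.s k164 k160 1 (.d k88 k248 k240 11 13)))))]
  (.c k4 (.q k60 [(.s k28 k44 3 (.s k92 k172 11 (.s k156 k220 7 (.s k108 k204 11 (.d k124 k76 k188 3
  7))))), (.s k20 k40 5 (.s k84 k168 13 (.s k148 k212 7 (.s k104 k192 13 (.d k124 k64 k188 5 7))))),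
  (.s k20 k40 5 (.s k84 k168 13 (.s k28 k44 3 (.s k92 k172 11 (.s k148 k212 7 (.d k88 k80 k208 1
  9))))))] .n) (.c k8 (.q k60 [(.s k40 k20 5 (.s k168 k84 13 (.s k104 k232 7 (.s k188 k124 7 (.d
  k148 k128 k192 5 13))))), (.s k28 k44 3 (.s k92 k172 11 (.s k156 k220 7 (.s k108 k204 11 (.d k124
  k76 k188 3 7))))), (.s k40 k20 5 (.s k168 k84 13 (.s k172 k92 11 (.s k104 k232 7 (.s k164 k160 1
  (.d k44 k28 k224 3 9))))))] (.c k28 (.l (.s k84 k168 13 (.s k124 k188 7 (.s k104 k64 5 (.s k148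
  k192 13 (.d k20 k40 k212 5 7)))))) (.c k40 (.q k56 [(.s k28 k44 3 (.s k92 k172 11 (.s k156 k220 7
  (.s k124 k188 7 (.d k108 k76 k204 3 11))))), (.s k48 k52 1 (.s k184 k116 9 (.s k120 k248 7 (.s
  k180 k240 9 (.d k188 k176 k124 1 7))))), (.s k84 k168 13 (.s k92 k172 11 (.s k48 k52 1 (.s k16 k32
  3 (.s k220 k152 9 (.d k28 k44 k156 3 7))))))] .n) (.c k56 (.l (.s k40 k20 5 (.s k168 k84 13 (.s
  k104 k232 7 (.s k148 k192 13 (.d k188 k128 k124 5 7)))))) .n)))) (.c k80 (.l (.s k8 k4 1 (.s k168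
  k84 13 (.s k88 k248 11 (.s k164 k240 13 (.d k172 k92 k160 11 1)))))) (.c k84 (.q k85 [(.s k8 k4 1
  (.s k170 k255 14 (.s k89 k251 12 (.s k243 k166 14 (.d k81 k93 k162 1 12))))), (.s k255 k170 14 (.s
  k172 k92 11 (.s k174 k93 12 (.s k173 k175 0 (.s k94 k15 12 (.d k254 k253 k14 0 11))))))] (.c k93
  (.l (.s k4 k8 1 (.s k170 k255 14 (.s k166 k247 12 (.s k243 k89 14 (.d k162 k174 k81 1 12)))))) (.c
  k170 (.q k60 [(.s k28 k44 3 (.s k92 k172 11 (.s k124 k188 7 (.s k108 k76 3 (.d k156 k220 k204 7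
  11))))), (.s k4 k8 1 (.s k166 k247 12 (.s k28 k44 3 (.s k89 k243 14 (.s k150 k211 10 (.d k20 k40
  k215 5 8)))))), (.s k4 k8 1 (.s k166 k247 12 (.s k172 k92 11 (.s k188 k124 7 (.s k169 k163 2 (.s
  k150 k131 6 (.d k20 k40 k215 5 8)))))))] .n) (.c k255 (.q k60 [(.s k28 k44 3 (.s k92 k172 11 (.s
  k124 k188 7 (.s k108 k76 3 (.d k156 k220 k204 7 11))))), (.s k4 k8 1 (.s k166 k247 12 (.s k243 k89
  14 (.s k182 k121 10 (.s k150 k134 3 (.d k20 k40 k215 5 8))))))] (.c k87 (.q k171 [(.s k28 k44 3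
  (.s k92 k172 11 (.s k124 k188 7 (.s k108 k76 3 (.d k156 k220 k204 7 11))))), (.s k4 k8 1 (.s k166
  k247 12 (.s k243 k89 14 (.s k182 k121 10 (.s k150 k134 3 (.d k20 k40 k215 5 8))))))] .n) (.c k171
  (.q k87 [(.s k28 k44 3 (.s k92 k172 11 (.s k124 k188 7 (.s k108 k76 3 (.d k156 k220 k204 7
  11))))), (.s k4 k8 1 (.s k166 k247 12 (.s k243 k89 14 (.s k182 k121 10 (.s k150 k134 3 (.d k20 k40
  k215 5 8))))))] .n) .n))) .n)))) (.c k88 (.q k60 [(.s k28 k44 3 (.s k92 k172 11 (.s k156 k220 7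
  (.s k108 k204 11 (.d k124 k76 k188 3 7))))), (.s k20 k40 5 (.s k84 k168 13 (.s k148 k212 7 (.s
  k104 k192 13 (.d k124 k64 k188 5 7))))), (.s k20 k40 5 (.s k84 k168 13 (.s k44 k28 3 (.s k148 k212
  7 (.s k104 k192 13 (.s k164 k224 9 (.d k4 k8 k244 1 11)))))))] (.c k152 (.q k216 [(.s k28 k44 3
  (.s k92 k172 11 (.s k124 k188 7 (.s k108 k76 3 (.d k156 k220 k204 7 11))))), (.s k20 k40 5 (.s k84
  k168 13 (.s k148 k212 7 (.s k104 k192 13 (.d k124 k64 k188 5 7)))))] (.c k124 (.l (.s k20 k40 5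
  (.s k84 k168 13 (.s k28 k44 3 (.s k92 k172 11 (.s k212 k148 7 (.d k220 k156 k208 7 1))))))) (.c
  k188 (.l (.s k8 k4 1 (.s k40 k20 5 (.s k168 k84 13 (.s k232 k104 7 (.s k200 k248 3 (.s k72 k136 7
  (.d k192 k212 k132 5 9)))))))) .n))) (.c k216 (.q k152 [(.s k84 k168 13 (.s k28 k44 3 (.s k220 k16
  9 (.d k92 k156 k172 7 11)))), (.s k20 k40 5 (.s k84 k168 13 (.s k124 k188 7 (.s k104 k64 5 (.d
  k148 k212 k192 7 13))))), (.s k28 k44 3 (.s k92 k172 11 (.s k156 k220 7 (.s k108 k204 11 (.d k124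
  k76 k188 3 7)))))] .n) .n))) (.c k92 (.q k192 [(.s k8 k4 1 (.s k64 k128 7 (.s k72 k132 9 (.s k136
  k200 7 (.d k68 k76 k204 1 9))))), (.s k64 k128 7 (.s k84 k168 13 (.s k104 k124 5 (.s k148 k60 13
  (.d k212 k232 k20 5 7))))), (.s k4 k8 1 (.s k84 k168 13 (.s k164 k244 11 (.s k132 k72 9 (.s k148
  k180 3 (.d k212 k232 k20 5 7))))))] .n) (.c k160 (.l (.s k4 k8 1 (.s k84 k168 13 (.s k164 k244 11
  (.s k88 k240 13 (.d k92 k172 k80 11 1)))))) (.c k164 (.q k192 [(.s k4 k8 1 (.s k128 k64 7 (.s k132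
  k72 9 (.s k68 k196 7 (.d k136 k140 k204 1 9))))), (.s k64 k128 7 (.s k84 k168 13 (.s k104 k124 5
  (.s k148 k60 13 (.d k212 k232 k20 5 7))))), (.s k168 k84 13 (.s k72 k132 9 (.s k232 k212 5 (.s
  k104 k40 7 (.s k88 k120 3 (.d k8 k4 k248 1 11))))))] .n) (.c k168 (.q k170 [(.s k8 k4 1 (.s k85
  k255 14 (.s k89 k251 12 (.s k243 k166 14 (.d k81 k93 k162 1 12))))), (.s k255 k85 14 (.s k92 k172
  11 (.s k93 k174 12 (.s k94 k95 0 (.s k173 k15 12 (.d k253 k254 k13 0 11))))))] (.c k85 (.q k60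
  [(.s k44 k28 3 (.s k188 k124 7 (.s k172 k92 11 (.s k156 k140 3 (.d k108 k236 k204 7 11))))), (.s
  k8 k4 1 (.s k40 k20 5 (.s k89 k251 12 (.s k105 k235 8 (.s k73 k121 3 (.d k195 k150 k134 14
  10)))))), (.s k28 k44 3 (.s k92 k172 11 (.s k156 k220 7 (.s k108 k204 11 (.d k124 k76 k188 3
  7)))))] (.c k28 (.l (.s k8 k4 1 (.s k89 k251 12 (.s k92 k172 11 (.s k124 k188 7 (.s k86 k83 2 (.s
  k105 k67 6 (.d k40 k20 k235 5 8)))))))) .n)) (.c k93 (.l (.s k4 k8 1 (.s k85 k255 14 (.s k166 k247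
  12 (.s k243 k89 14 (.d k162 k174 k81 1 12)))))) (.c k255 (.q k60 [(.s k44 k28 3 (.s k188 k124 7
  (.s k172 k92 11 (.s k156 k140 3 (.d k108 k236 k204 7 11))))), (.s k8 k4 1 (.s k89 k251 12 (.s k243
  k166 14 (.s k121 k182 10 (.s k105 k73 3 (.d k40 k20 k235 5 8))))))] (.c k20 (.l (.s k28 k44 3 (.s
  k92 k172 11 (.s k156 k220 7 (.s k108 k204 11 (.d k124 k76 k188 3 7)))))) (.c k87 (.q k171 [(.s k44
  k28 3 (.s k188 k124 7 (.s k172 k92 11 (.s k156 k140 3 (.d k108 k236 k204 7 11))))), (.s k8 k4 1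
  (.s k89 k251 12 (.s k243 k166 14 (.s k121 k182 10 (.s k105 k73 3 (.d k40 k20 k235 5 8))))))] (.c
  k20 (.l (.s k28 k44 3 (.s k92 k172 11 (.s k156 k220 7 (.s k108 k204 11 (.d k124 k76 k188 3 7))))))
  .n)) (.c k171 (.q k87 [(.s k44 k28 3 (.s k188 k124 7 (.s k172 k92 11 (.s k156 k140 3 (.d k108 k236
  k204 7 11))))), (.s k8 k4 1 (.s k89 k251 12 (.s k243 k166 14 (.s k121 k182 10 (.s k105 k73 3 (.d
  k40 k20 k235 5 8))))))] (.c k20 (.l (.s k28 k44 3 (.s k92 k172 11 (.s k156 k220 7 (.s k108 k204 11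
  (.d k124 k76 k188 3 7)))))) .n)) .n)))) .n)))) (.c k172 (.q k192 [(.s k8 k4 1 (.s k64 k128 7 (.s
  k72 k132 9 (.s k136 k200 7 (.d k68 k76 k204 1 9))))), (.s k64 k128 7 (.s k84 k168 13 (.s k104 k124
  5 (.s k148 k60 13 (.d k212 k232 k20 5 7))))), (.s k4 k8 1 (.s k84 k168 13 (.s k164 k244 11 (.s
  k132 k72 9 (.s k148 k180 3 (.d k212 k232 k20 5 7))))))] .n) (.c k240 (.f k168 k84 13 (.q k60 [(.s
  k40 k20 5 (.s k104 k232 7 (.s k188 k124 7 (.d k148 k128 k192 5 13)))), (.s k28 k44 3 (.s k92 k172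
  11 (.s k156 k220 7 (.s k108 k204 11 (.d k124 k76 k188 3 7))))), (.s k188 k124 7 (.s k148 k128 5
  (.s k104 k192 13 (.d k40 k20 k232 5 7)))), (.s k40 k20 5 (.s k172 k92 11 (.s k104 k232 7 (.s k164
  k160 1 (.d k44 k28 k224 3 9)))))] (.c k82 (.q k161 [(.s k40 k20 5 (.s k104 k232 7 (.s k188 k124 7
  (.d k148 k128 k192 5 13)))), (.s k28 k44 3 (.s k92 k172 11 (.s k156 k220 7 (.s k108 k204 11 (.d
  k124 k76 k188 3 7))))), (.s k188 k124 7 (.s k148 k128 5 (.s k104 k192 13 (.d k40 k20 k232 5 7)))),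
  (.s k40 k20 5 (.s k172 k92 11 (.s k104 k232 7 (.s k164 k160 1 (.d k44 k28 k224 3 9)))))] .n) (.c
  k161 (.q k82 [(.s k40 k20 5 (.s k104 k232 7 (.s k188 k124 7 (.d k148 k128 k192 5 13)))), (.s k28
  k44 3 (.s k92 k172 11 (.s k156 k220 7 (.s k108 k204 11 (.d k124 k76 k188 3 7))))), (.s k188 k124 7
  (.s k148 k128 5 (.s k104 k192 13 (.d k40 k20 k232 5 7)))), (.s k40 k20 5 (.s k172 k92 11 (.s k104
  k232 7 (.s k164 k160 1 (.d k44 k28 k224 3 9)))))] .n) .n)))) (.c k244 (.l (.s k8 k4 1 (.s k172 k92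
  11 (.s k168 k84 13 (.s k164 k160 1 (.d k88 k248 k240 11 13)))))) (.c k248 (.l (.s k4 k8 1 (.s k92
  k172 11 (.s k84 k168 13 (.s k88 k80 1 (.d k164 k244 k240 11 13)))))) .n))))))))))))))

def t25 : T TT 256 :=
  (.f k84 k168 13 (.q k60 [(.s k20 k40 5 (.s k148 k212 7 (.s k124 k188 7 (.d k104 k64 k192 5 13))))]
  (.c k20 (.q k12 [(.s k92 k172 11 (.s k88 k80 1 (.s k164 k240 13 (.d k4 k8 k244 1 11)))), (.s k44
  k28 3 (.s k172 k92 11 (.s k108 k236 7 (.s k156 k204 11 (.d k188 k140 k124 3 7))))), (.s k4 k8 1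
  (.s k164 k244 11 (.s k44 k28 3 (.s k104 k224 9 (.d k124 k64 k188 5 7)))))] .n) (.c k40 (.q k12
  [(.s k92 k172 11 (.s k88 k80 1 (.s k164 k240 13 (.d k4 k8 k244 1 11)))), (.s k44 k28 3 (.s k172
  k92 11 (.s k108 k236 7 (.s k156 k204 11 (.d k188 k140 k124 3 7))))), (.s k4 k8 1 (.s k164 k244 11
  (.s k44 k28 3 (.s k104 k224 9 (.d k124 k64 k188 5 7)))))] (.c k104 (.q k232 [(.s k92 k172 11 (.s
  k88 k80 1 (.s k164 k240 13 (.d k4 k8 k244 1 11)))), (.s k44 k28 3 (.s k172 k92 11 (.s k108 k236 7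
  (.s k156 k204 11 (.d k188 k140 k124 3 7))))), (.s k4 k8 1 (.s k164 k244 11 (.s k28 k44 3 (.s k88
  k240 13 (.s k148 k208 9 (.d k212 k192 k20 5 7))))))] .n) (.c k232 (.q k104 [(.d k124 k64 k188 5
  7), (.s k4 k8 1 (.s k164 k244 11 (.d k44 k28 k224 3 9)))] .n) .n))) (.c k64 (.q k12 [(.s k4 k8 1
  (.s k164 k244 11 (.s k92 k172 11 (.d k88 k80 k240 1 13)))), (.s k8 k4 1 (.s k40 k20 5 (.s k24 k56
  3 (.s k36 k48 5 (.d k44 k32 k28 1 3))))), (.s k20 k40 5 (.s k28 k44 3 (.s k92 k172 11 (.s k148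
  k212 7 (.d k88 k80 k208 1 9)))))] .n) (.c k104 (.q k12 [(.s k92 k172 11 (.s k88 k80 1 (.s k164
  k240 13 (.d k4 k8 k244 1 11)))), (.s k8 k4 1 (.s k40 k20 5 (.s k24 k56 3 (.s k36 k48 5 (.d k44 k32
  k28 1 3))))), (.s k28 k44 3 (.s k92 k172 11 (.s k156 k220 7 (.s k108 k204 11 (.d k124 k76 k188 3
  7)))))] (.c k40 (.q k232 [(.s k92 k172 11 (.s k88 k80 1 (.s k164 k240 13 (.d k4 k8 k244 1 11)))),
  (.s k44 k28 3 (.s k172 k92 11 (.s k108 k236 7 (.s k156 k204 11 (.d k188 k140 k124 3 7))))), (.s k4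
  k8 1 (.s k164 k244 11 (.s k28 k44 3 (.s k88 k240 13 (.s k148 k208 9 (.d k212 k192 k20 5 7))))))]
  .n) (.c k232 (.l (.s k40 k20 5 (.s k4 k8 1 (.s k164 k244 11 (.s k88 k240 13 (.d k92 k80 k172 1
  11)))))) .n))) (.c k124 (.q k12 [(.s k92 k172 11 (.s k88 k80 1 (.s k164 k240 13 (.d k4 k8 k244 1
  11)))), (.s k8 k4 1 (.s k40 k20 5 (.s k24 k56 3 (.s k36 k48 5 (.d k44 k32 k28 1 3))))), (.s k20
  k40 5 (.s k28 k44 3 (.s k92 k172 11 (.s k148 k212 7 (.d k88 k80 k208 1 9)))))] .n) (.c k148 (.q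
  k12 [(.s k92 k172 11 (.s k88 k80 1 (.s k164 k240 13 (.d k4 k8 k244 1 11)))), (.s k8 k4 1 (.s k40
  k20 5 (.s k24 k56 3 (.s k36 k48 5 (.d k44 k32 k28 1 3))))), (.s k20 k40 5 (.s k28 k44 3 (.s k92
  k172 11 (.s k220 k156 7 (.d k16 k152 k24 9 1)))))] (.c k128 (.l (.s k188 k124 7 (.s k4 k8 1 (.s
  k164 k244 11 (.s k88 k240 13 (.d k92 k80 k172 1 11)))))) (.c k188 (.q k128 [(.s k4 k8 1 (.s k164
  k244 11 (.s k88 k240 13 (.d k92 k80 k172 1 11)))), (.s k8 k4 1 (.s k40 k20 5 (.s k24 k56 3 (.s k36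
  k48 5 (.d k44 k32 k28 1 3))))), (.s k64 k192 7 (.s k28 k44 3 (.s k92 k172 11 (.s k156 k220 7 (.s
  k108 k204 11 (.d k124 k76 k104 3 5))))))] .n) .n))) (.c k188 (.q k12 [(.s k4 k8 1 (.s k164 k244 11
  (.s k88 k240 13 (.d k92 k80 k172 1 11)))), (.s k8 k4 1 (.s k40 k20 5 (.s k24 k56 3 (.s k36 k48 5
  (.d k44 k32 k28 1 3))))), (.s k20 k40 5 (.s k28 k44 3 (.s k92 k172 11 (.s k148 k212 7 (.d k88 k80
  k208 1 9)))))] (.c k128 (.q k148 [(.d k20 k40 k212 5 7), (.s k28 k44 3 (.s k92 k172 11 (.d k88 k80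
  k208 1 9)))] .n) (.c k148 (.q k128 [(.s k4 k8 1 (.s k164 k244 11 (.s k88 k240 13 (.d k92 k80 k172
  1 11)))), (.s k8 k4 1 (.s k40 k20 5 (.s k24 k56 3 (.s k36 k48 5 (.d k44 k32 k28 1 3))))), (.s k64
  k192 7 (.s k28 k44 3 (.s k92 k172 11 (.s k156 k220 7 (.s k108 k204 11 (.d k124 k76 k104 3 5))))))]
  .n) .n))) (.c k192 (.q k12 [(.s k4 k8 1 (.s k164 k244 11 (.s k92 k172 11 (.d k88 k80 k240 1
  13)))), (.s k8 k4 1 (.s k40 k20 5 (.s k24 k56 3 (.s k36 k48 5 (.d k44 k32 k28 1 3))))), (.s k20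
  k40 5 (.s k28 k44 3 (.s k92 k172 11 (.s k148 k212 7 (.d k88 k80 k208 1 9)))))] (.c k66 (.q k129
  [(.s k4 k8 1 (.s k164 k244 11 (.s k92 k172 11 (.d k88 k80 k240 1 13)))), (.s k8 k4 1 (.s k40 k20 5
  (.s k24 k56 3 (.s k36 k48 5 (.d k44 k32 k28 1 3))))), (.s k20 k40 5 (.s k28 k44 3 (.s k92 k172 11
  (.s k148 k212 7 (.d k88 k80 k208 1 9)))))] .n) (.c k129 (.q k66 [(.s k4 k8 1 (.s k164 k244 11 (.s
  k92 k172 11 (.d k88 k80 k240 1 13)))), (.s k8 k4 1 (.s k40 k20 5 (.s k24 k56 3 (.s k36 k48 5 (.d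
  k44 k32 k28 1 3))))), (.s k20 k40 5 (.s k28 k44 3 (.s k92 k172 11 (.s k148 k212 7 (.d k88 k80 k208
  1 9)))))] .n) .n))) (.c k212 (.q k12 [(.s k92 k172 11 (.s k88 k80 1 (.s k164 k240 13 (.d k4 k8
  k244 1 11)))), (.s k8 k4 1 (.s k40 k20 5 (.s k24 k56 3 (.s k36 k48 5 (.d k44 k32 k28 1 3))))), (.s
  k20 k40 5 (.s k28 k44 3 (.s k92 k172 11 (.s k220 k156 7 (.d k16 k24 k152 1 9)))))] .n) (.c k232
  (.l (.s k124 k188 7 (.s k20 k40 5 (.s k104 k64 5 (.d k148 k212 k192 7 13))))) .n))))))))))))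

def t27 : T TT 256 :=
  (.f k84 k168 13 (.q k192 [(.s k64 k128 7 (.s k104 k124 5 (.s k212 k232 5 (.d k148 k20 k60 7
  13))))] (.c k20 (.q k12 [(.s k4 k8 1 (.s k164 k244 11 (.s k92 k172 11 (.d k88 k80 k240 1 13)))),
  (.s k8 k4 1 (.s k64 k128 7 (.s k72 k132 9 (.s k136 k200 7 (.d k68 k76 k204 1 9))))), (.s k64 k128
  7 (.s k72 k132 9 (.s k92 k172 11 (.s k104 k124 5 (.d k88 k80 k120 1 3)))))] .n) (.c k60 (.q k12
  [(.s k4 k8 1 (.s k164 k244 11 (.s k92 k172 11 (.d k88 k80 k240 1 13)))), (.s k8 k4 1 (.s k64 k128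
  7 (.s k72 k132 9 (.s k136 k200 7 (.d k68 k76 k204 1 9))))), (.s k64 k128 7 (.s k72 k132 9 (.s k92
  k172 11 (.s k104 k124 5 (.d k88 k80 k120 1 3)))))] (.c k22 (.q k41 [(.s k4 k8 1 (.s k164 k244 11
  (.s k92 k172 11 (.d k88 k80 k240 1 13)))), (.s k8 k4 1 (.s k64 k128 7 (.s k72 k132 9 (.s k136 k200
  7 (.d k68 k76 k204 1 9))))), (.s k64 k128 7 (.s k72 k132 9 (.s k92 k172 11 (.s k104 k124 5 (.d k88
  k80 k120 1 3)))))] .n) (.c k41 (.q k22 [(.s k4 k8 1 (.s k164 k244 11 (.s k92 k172 11 (.d k88 k80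
  k240 1 13)))), (.s k8 k4 1 (.s k64 k128 7 (.s k72 k132 9 (.s k136 k200 7 (.d k68 k76 k204 1
  9))))), (.s k64 k128 7 (.s k72 k132 9 (.s k92 k172 11 (.s k104 k124 5 (.d k88 k80 k120 1 3)))))]
  .n) .n))) (.c k64 (.q k12 [(.s k4 k8 1 (.s k164 k244 11 (.s k92 k172 11 (.d k88 k80 k240 1 13)))),
  (.s k132 k72 9 (.s k212 k232 5 (.s k148 k20 7 (.s k164 k180 3 (.d k4 k8 k244 1 11))))), (.s k72
  k132 9 (.s k212 k232 5 (.s k148 k20 7 (.s k104 k60 13 (.s k88 k120 3 (.d k92 k80 k172 1 11))))))]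
  .n) (.c k104 (.q k12 [(.s k4 k8 1 (.s k164 k244 11 (.s k92 k172 11 (.d k88 k80 k240 1 13)))), (.s
  k8 k4 1 (.s k64 k128 7 (.s k72 k132 9 (.s k136 k200 7 (.d k68 k76 k204 1 9))))), (.s k132 k72 9
  (.s k92 k172 11 (.s k88 k80 1 (.s k164 k240 13 (.s k148 k180 3 (.d k212 k232 k20 5 7))))))] (.c
  k40 (.l (.s k232 k212 5 (.s k4 k8 1 (.s k164 k244 11 (.s k88 k240 13 (.d k92 k80 k172 1 11))))))
  (.c k232 (.q k40 [(.s k4 k8 1 (.s k164 k244 11 (.s k92 k172 11 (.d k88 k80 k240 1 13)))), (.s k8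
  k4 1 (.s k20 k60 5 (.s k24 k56 3 (.s k48 k36 5 (.d k16 k28 k32 1 3))))), (.s k20 k60 5 (.s k132
  k72 9 (.s k92 k172 11 (.s k148 k212 7 (.s k88 k80 1 (.d k164 k180 k240 3 13))))))] .n) .n))) (.c
  k124 (.q k12 [(.s k4 k8 1 (.s k164 k244 11 (.s k92 k172 11 (.d k88 k80 k240 1 13)))), (.s k8 k4 1
  (.s k64 k128 7 (.s k72 k132 9 (.s k136 k200 7 (.d k68 k76 k204 1 9))))), (.s k72 k132 9 (.s k92
  k172 11 (.s k88 k80 1 (.s k104 k120 3 (.s k148 k60 13 (.d k212 k232 k20 5 7))))))] .n) (.c k128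
  (.q k12 [(.s k4 k8 1 (.s k164 k244 11 (.s k92 k172 11 (.d k88 k80 k240 1 13)))), (.s k132 k72 9
  (.s k212 k232 5 (.s k148 k20 7 (.s k164 k180 3 (.d k4 k8 k244 1 11))))), (.s k72 k132 9 (.s k212
  k232 5 (.s k148 k20 7 (.s k104 k60 13 (.s k88 k120 3 (.d k92 k80 k172 1 11))))))] (.c k148 (.q
  k188 [(.s k4 k8 1 (.s k164 k244 11 (.s k92 k172 11 (.d k88 k80 k240 1 13)))), (.s k72 k132 9 (.s
  k92 k172 11 (.s k124 k60 7 (.s k64 k104 5 (.d k76 k68 k108 1 3))))), (.s k4 k8 1 (.s k132 k72 9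
  (.s k196 k68 7 (.s k212 k232 5 (.d k244 k228 k164 3 11)))))] (.c k164 (.l (.s k172 k92 11 (.s k60
  k124 7 (.s k44 k28 3 (.s k108 k236 7 (.d k156 k140 k204 3 11)))))) .n)) (.c k188 (.q k148 [(.d
  k212 k232 k20 5 7), (.s k4 k8 1 (.s k164 k244 11 (.d k132 k180 k72 3 9)))] .n) .n))) (.c k148 (.q
  k12 [(.s k4 k8 1 (.s k164 k244 11 (.s k92 k172 11 (.d k88 k80 k240 1 13)))), (.s k8 k4 1 (.s k72
  k132 9 (.s k136 k200 7 (.s k68 k204 9 (.d k64 k128 k76 7 1))))), (.s k72 k132 9 (.s k92 k172 11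
  (.s k88 k80 1 (.s k104 k120 3 (.d k64 k128 k124 7 5)))))] (.c k128 (.q k188 [(.s k4 k8 1 (.s k164
  k244 11 (.s k92 k172 11 (.d k88 k80 k240 1 13)))), (.s k72 k132 9 (.s k92 k172 11 (.s k124 k60 7
  (.s k64 k104 5 (.d k76 k68 k108 1 3))))), (.s k4 k8 1 (.s k132 k72 9 (.s k196 k68 7 (.s k212 k232
  5 (.d k244 k228 k164 3 11)))))] (.c k164 (.l (.s k172 k92 11 (.s k60 k124 7 (.s k44 k28 3 (.s k108
  k236 7 (.d k156 k140 k204 3 11)))))) .n)) (.c k164 (.l (.s k4 k8 1 (.s k128 k64 7 (.s k132 k72 9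
  (.s k68 k196 7 (.d k136 k140 k204 1 9)))))) (.c k188 (.l (.s k128 k64 7 (.s k4 k8 1 (.s k164 k244
  11 (.s k88 k240 13 (.d k92 k80 k172 1 11)))))) .n)))) (.c k188 (.l (.s k212 k232 5 (.s k64 k128 7
  (.s k148 k20 7 (.d k104 k124 k60 5 13))))) (.c k212 (.q k12 [(.s k4 k8 1 (.s k92 k172 11 (.s k88
  k80 1 (.d k164 k244 k240 11 13)))), (.s k8 k4 1 (.s k64 k128 7 (.s k72 k132 9 (.s k136 k200 7 (.d
  k68 k76 k204 1 9))))), (.s k64 k128 7 (.s k72 k132 9 (.s k92 k172 11 (.s k104 k124 5 (.d k88 k80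
  k120 1 3)))))] .n) (.c k232 (.q k12 [(.s k4 k8 1 (.s k164 k244 11 (.s k92 k172 11 (.d k88 k80 k240
  1 13)))), (.s k8 k4 1 (.s k64 k128 7 (.s k72 k132 9 (.s k136 k200 7 (.d k68 k76 k204 1 9))))), (.s
  k64 k128 7 (.s k72 k132 9 (.s k92 k172 11 (.s k104 k124 5 (.d k88 k80 k120 1 3)))))] (.c k40 (.q
  k104 [(.d k64 k124 k128 5 7), (.s k72 k132 9 (.s k92 k172 11 (.d k88 k80 k120 1 3)))] .n) (.c k104
  (.q k40 [(.s k4 k8 1 (.s k164 k244 11 (.s k92 k172 11 (.d k88 k80 k240 1 13)))), (.s k8 k4 1 (.s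
  k20 k60 5 (.s k24 k56 3 (.s k48 k36 5 (.d k16 k28 k32 1 3))))), (.s k20 k60 5 (.s k132 k72 9 (.s
  k92 k172 11 (.s k148 k212 7 (.s k88 k80 1 (.d k164 k180 k240 3 13))))))] .n) .n))) .n))))))))))))

def t28 : T TT 256 :=
  (.q k48 [(.s k16 k32 3 (.s k84 k168 13 (.s k116 k184 9 (.s k100 k68 3 (.d k152 k220 k204 9
  13)))))] (.c k16 (.q k20 [(.s k60 k40 5 (.s k84 k168 13 (.s k148 k212 7 (.s k124 k188 7 (.d k104
  k64 k192 5 13))))), (.s k84 k168 13 (.s k148 k212 7 (.s k116 k184 9 (.s k100 k68 3 (.s k52 k196 11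
  (.s k4 k36 3 (.d k244 k180 k164 7 11))))))), (.s k60 k40 5 (.s k52 k56 1 (.s k116 k184 9 (.s k180
  k244 7 (.s k120 k240 9 (.d k124 k112 k188 1 7))))))] .n) (.c k32 (.q k20 [(.s k60 k40 5 (.s k84
  k168 13 (.s k148 k212 7 (.s k124 k188 7 (.d k104 k64 k192 5 13))))), (.s k60 k40 5 (.s k52 k56 1
  (.s k116 k184 9 (.s k180 k244 7 (.s k120 k240 9 (.d k124 k112 k188 1 7)))))), (.s k84 k168 13 (.s
  k148 k212 7 (.s k116 k184 9 (.s k100 k68 3 (.s k52 k196 11 (.d k60 k56 k40 1 5)))))), (.s k84 k168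
  13 (.s k148 k212 7 (.s k116 k184 9 (.s k100 k68 3 (.s k52 k196 11 (.s k244 k180 7 (.d k4 k36 k164
  3 11)))))))] .n) (.c k68 (.l (.s k32 k16 3 (.s k168 k84 13 (.s k100 k236 9 (.s k152 k204 13 (.d
  k184 k116 k136 9 3)))))) (.c k84 (.q k60 [(.s k52 k56 1 (.s k116 k184 9 (.s k124 k188 7 (.s k120
  k112 1 (.d k180 k244 k240 7 9))))), (.s k32 k16 3 (.s k56 k52 1 (.s k40 k20 5 (.s k24 k8 3 (.d k36
  k44 k12 1 5)))))] (.c k52 (.q k168 [(.s k188 k124 7 (.s k148 k128 5 (.s k104 k192 13 (.d k40 k20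
  k232 5 7)))), (.s k184 k116 9 (.s k152 k136 3 (.s k100 k204 13 (.d k32 k16 k236 3 9))))] .n) (.c
  k56 (.q k168 [(.s k188 k124 7 (.s k148 k128 5 (.s k104 k192 13 (.d k40 k20 k232 5 7)))), (.s k184
  k116 9 (.s k152 k136 3 (.s k100 k204 13 (.d k32 k16 k236 3 9))))] .n) .n))) (.c k100 (.q k12 [(.s
  k4 k8 1 (.s k32 k16 3 (.s k36 k24 5 (.s k20 k52 3 (.d k40 k44 k60 1 5))))), (.s k8 k4 1 (.s k168
  k84 13 (.s k88 k248 11 (.s k164 k240 13 (.d k172 k160 k92 1 11))))), (.s k84 k168 13 (.s k24 k36 5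
  (.s k92 k172 11 (.s k88 k80 1 (.s k152 k216 7 (.d k16 k32 k220 3 9))))))] .n) (.c k116 (.q k12
  [(.s k4 k8 1 (.s k84 k168 13 (.s k92 k172 11 (.s k88 k80 1 (.d k164 k244 k240 11 13))))), (.s k4
  k8 1 (.s k32 k16 3 (.s k36 k24 5 (.s k20 k52 3 (.d k40 k44 k60 1 5))))), (.s k16 k32 3 (.s k84
  k168 13 (.s k24 k36 5 (.s k92 k172 11 (.s k152 k220 9 (.d k88 k80 k216 1 7))))))] .n) (.c k136 (.l
  (.s k16 k32 3 (.s k84 k168 13 (.s k152 k220 9 (.s k100 k204 13 (.d k116 k184 k68 9 3)))))) (.c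
  k152 (.q k192 [(.s k16 k32 3 (.s k128 k64 7 (.s k144 k96 11 (.s k80 k208 7 (.d k160 k176 k240 3
  11))))), (.s k64 k128 7 (.s k84 k168 13 (.s k104 k124 5 (.s k148 k60 13 (.d k212 k232 k20 5
  7))))), (.s k168 k84 13 (.s k96 k144 11 (.s k232 k212 5 (.s k104 k40 7 (.s k100 k108 1 (.d k32 k16
  k236 3 9))))))] (.c k148 (.l (.s k16 k32 3 (.s k128 k64 7 (.s k144 k96 11 (.s k160 k176 3 (.d k80
  k208 k240 7 11)))))) .n)) (.c k168 (.q k60 [(.s k32 k16 3 (.s k56 k52 1 (.s k40 k20 5 (.s k24 k8 3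
  (.d k36 k44 k12 1 5))))), (.s k52 k56 1 (.s k116 k184 9 (.s k180 k244 7 (.s k120 k240 9 (.d k124
  k112 k188 1 7)))))] (.c k52 (.q k63 [(.s k61 k62 0 (.s k188 k124 7 (.s k189 k126 8 (.s k125 k253 7
  (.d k190 k191 k255 0 8))))), (.s k16 k32 3 (.s k21 k42 6 (.s k26 k31 2 (.s k37 k15 6 (.d k53 k58
  k5 2 3)))))] .n) (.c k56 (.q k63 [(.s k61 k62 0 (.s k188 k124 7 (.s k189 k126 8 (.s k125 k253 7
  (.d k190 k191 k255 0 8))))), (.s k16 k32 3 (.s k21 k42 6 (.s k26 k31 2 (.s k37 k15 6 (.d k53 k58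
  k5 2 3)))))] .n) (.c k248 (.l (.s k52 k56 1 (.s k124 k188 7 (.s k116 k184 9 (.s k120 k112 1 (.d
  k180 k244 k240 7 9)))))) .n)))) (.c k184 (.q k192 [(.s k16 k32 3 (.s k128 k64 7 (.s k144 k96 11
  (.s k80 k208 7 (.d k160 k176 k240 3 11))))), (.s k64 k128 7 (.s k84 k168 13 (.s k104 k124 5 (.s
  k148 k60 13 (.d k212 k232 k20 5 7))))), (.s k16 k32 3 (.s k84 k168 13 (.s k152 k220 9 (.s k144 k96
  11 (.s k212 k232 5 (.d k148 k156 k20 1 7))))))] (.c k148 (.l (.s k16 k32 3 (.s k128 k64 7 (.s k144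
  k96 11 (.s k160 k176 3 (.d k80 k208 k240 7 11)))))) .n)) (.c k204 (.f k168 k84 13 (.q k60 [(.s k40
  k20 5 (.s k104 k232 7 (.s k188 k124 7 (.d k148 k128 k192 5 13)))), (.s k52 k56 1 (.s k116 k184 9
  (.s k180 k244 7 (.s k120 k240 9 (.d k124 k112 k188 1 7))))), (.s k32 k16 3 (.s k56 k52 1 (.s k40
  k20 5 (.s k24 k8 3 (.d k36 k44 k12 1 5)))))] (.c k70 (.q k137 [(.s k40 k20 5 (.s k104 k232 7 (.s
  k188 k124 7 (.d k148 k128 k192 5 13)))), (.s k52 k56 1 (.s k116 k184 9 (.s k180 k244 7 (.s k120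
  k240 9 (.d k124 k112 k188 1 7))))), (.s k32 k16 3 (.s k56 k52 1 (.s k40 k20 5 (.s k24 k8 3 (.d k36
  k44 k12 1 5)))))] .n) (.c k137 (.q k70 [(.s k40 k20 5 (.s k104 k232 7 (.s k188 k124 7 (.d k148
  k128 k192 5 13)))), (.s k52 k56 1 (.s k116 k184 9 (.s k180 k244 7 (.s k120 k240 9 (.d k124 k112
  k188 1 7))))), (.s k32 k16 3 (.s k56 k52 1 (.s k40 k20 5 (.s k24 k8 3 (.d k36 k44 k12 1 5)))))]
  .n) .n)))) (.c k220 (.l (.s k32 k16 3 (.s k184 k116 9 (.s k168 k84 13 (.s k152 k136 3 (.d k100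
  k236 k204 9 13)))))) (.c k236 (.l (.s k16 k32 3 (.s k116 k184 9 (.s k84 k168 13 (.s k100 k68 3 (.d
  k152 k220 k204 9 13)))))) .n))))))))))))))

def t29 : T TT 256 :=
  (.f k84 k168 13 (.q k48 [(.s k16 k32 3 (.s k152 k220 9 (.s k116 k184 9 (.d k100 k68 k204 3 13))))]
  (.c k16 (.q k60 [(.s k20 k40 5 (.s k148 k212 7 (.s k124 k188 7 (.d k104 k64 k192 5 13)))), (.s k52
  k56 1 (.s k116 k184 9 (.s k180 k244 7 (.s k120 k240 9 (.d k124 k112 k188 1 7))))), (.s k20 k40 5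
  (.s k148 k212 7 (.s k52 k56 1 (.s k116 k184 9 (.d k100 k68 k196 3 11)))))] .n) (.c k32 (.q k60
  [(.s k124 k188 7 (.s k104 k64 5 (.s k148 k192 13 (.d k20 k40 k212 5 7)))), (.s k52 k56 1 (.s k116
  k184 9 (.s k180 k244 7 (.s k120 k240 9 (.d k124 k112 k188 1 7))))), (.s k20 k40 5 (.s k148 k212 7
  (.s k52 k56 1 (.s k116 k184 9 (.d k100 k68 k196 3 11)))))] (.c k100 (.q k236 [(.s k124 k188 7 (.s
  k104 k64 5 (.s k148 k192 13 (.d k20 k40 k212 5 7)))), (.s k52 k56 1 (.s k116 k184 9 (.s k180 k244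
  7 (.s k120 k240 9 (.d k124 k112 k188 1 7))))), (.s k20 k40 5 (.s k148 k212 7 (.s k56 k52 1 (.s
  k104 k192 13 (.s k152 k200 11 (.d k220 k204 k16 3 9))))))] .n) (.c k236 (.q k100 [(.d k116 k68
  k184 3 9), (.s k20 k40 5 (.s k148 k212 7 (.d k52 k56 k196 1 11)))] .n) .n))) (.c k68 (.q k60 [(.s
  k20 k40 5 (.s k148 k212 7 (.s k124 k188 7 (.d k104 k64 k192 5 13)))), (.s k32 k16 3 (.s k40 k20 5
  (.s k36 k44 1 (.s k24 k12 5 (.d k56 k52 k8 1 3))))), (.s k16 k32 3 (.s k152 k220 9 (.s k56 k52 1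
  (.s k104 k200 11 (.d k124 k64 k188 5 7)))))] .n) (.c k100 (.q k60 [(.s k20 k40 5 (.s k148 k212 7
  (.s k124 k188 7 (.d k104 k64 k192 5 13)))), (.s k52 k56 1 (.s k116 k184 9 (.s k180 k244 7 (.s k120
  k240 9 (.d k124 k112 k188 1 7))))), (.s k32 k16 3 (.s k40 k20 5 (.s k36 k44 1 (.s k24 k12 5 (.d
  k56 k52 k8 1 3)))))] (.c k32 (.q k236 [(.s k124 k188 7 (.s k104 k64 5 (.s k148 k192 13 (.d k20 k40
  k212 5 7)))), (.s k52 k56 1 (.s k116 k184 9 (.s k180 k244 7 (.s k120 k240 9 (.d k124 k112 k188 1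
  7))))), (.s k20 k40 5 (.s k148 k212 7 (.s k56 k52 1 (.s k104 k192 13 (.s k152 k200 11 (.d k220
  k204 k16 3 9))))))] .n) (.c k236 (.l (.s k32 k16 3 (.s k20 k40 5 (.s k148 k212 7 (.s k104 k192 13
  (.d k124 k64 k188 5 7)))))) .n))) (.c k116 (.q k60 [(.s k20 k40 5 (.s k148 k212 7 (.s k124 k188 7
  (.d k104 k64 k192 5 13)))), (.s k32 k16 3 (.s k40 k20 5 (.s k36 k44 1 (.s k24 k12 5 (.d k56 k52 k8
  1 3))))), (.s k16 k32 3 (.s k152 k220 9 (.s k56 k52 1 (.s k104 k200 11 (.d k124 k64 k188 5 7)))))]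
  .n) (.c k152 (.q k60 [(.s k20 k40 5 (.s k148 k212 7 (.s k124 k188 7 (.d k104 k64 k192 5 13)))),
  (.s k56 k52 1 (.s k184 k116 9 (.s k120 k248 7 (.s k180 k240 9 (.d k188 k176 k124 1 7))))), (.s k16
  k32 3 (.s k20 k40 5 (.s k24 k28 1 (.s k36 k12 5 (.d k52 k56 k4 1 3)))))] (.c k136 (.l (.s k184
  k116 9 (.s k20 k40 5 (.s k148 k212 7 (.s k104 k192 13 (.d k124 k64 k188 5 7)))))) (.c k184 (.q
  k136 [(.s k20 k40 5 (.s k148 k212 7 (.s k104 k192 13 (.d k124 k64 k188 5 7)))), (.s k32 k16 3 (.s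
  k40 k20 5 (.s k36 k44 1 (.s k24 k12 5 (.d k56 k52 k8 1 3))))), (.s k68 k204 9 (.s k52 k56 1 (.s
  k124 k188 7 (.s k104 k64 5 (.s k148 k192 13 (.d k100 k196 k116 11 3))))))] .n) .n))) (.c k184 (.q
  k60 [(.s k20 k40 5 (.s k148 k212 7 (.s k104 k192 13 (.d k124 k64 k188 5 7)))), (.s k32 k16 3 (.s
  k40 k20 5 (.s k36 k44 1 (.s k24 k12 5 (.d k56 k52 k8 1 3))))), (.s k16 k32 3 (.s k152 k220 9 (.s
  k56 k52 1 (.s k104 k200 11 (.d k124 k64 k188 5 7)))))] (.c k136 (.q k152 [(.d k16 k32 k220 3 9),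
  (.s k56 k52 1 (.s k104 k200 11 (.d k124 k64 k188 5 7)))] .n) (.c k152 (.q k136 [(.s k20 k40 5 (.s
  k148 k212 7 (.s k104 k192 13 (.d k124 k64 k188 5 7)))), (.s k32 k16 3 (.s k40 k20 5 (.s k36 k44 1
  (.s k24 k12 5 (.d k56 k52 k8 1 3))))), (.s k68 k204 9 (.s k52 k56 1 (.s k124 k188 7 (.s k104 k64 5
  (.s k148 k192 13 (.d k100 k196 k116 11 3))))))] .n) .n))) (.c k204 (.q k60 [(.s k20 k40 5 (.s k148
  k212 7 (.s k124 k188 7 (.d k104 k64 k192 5 13)))), (.s k32 k16 3 (.s k40 k20 5 (.s k36 k44 1 (.s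
  k24 k12 5 (.d k56 k52 k8 1 3))))), (.s k16 k32 3 (.s k152 k220 9 (.s k56 k52 1 (.s k104 k200 11
  (.d k124 k64 k188 5 7)))))] (.c k70 (.q k137 [(.s k20 k40 5 (.s k148 k212 7 (.s k124 k188 7 (.d
  k104 k64 k192 5 13)))), (.s k32 k16 3 (.s k40 k20 5 (.s k36 k44 1 (.s k24 k12 5 (.d k56 k52 k8 1
  3))))), (.s k16 k32 3 (.s k152 k220 9 (.s k56 k52 1 (.s k104 k200 11 (.d k124 k64 k188 5 7)))))]
  .n) (.c k137 (.q k70 [(.s k20 k40 5 (.s k148 k212 7 (.s k124 k188 7 (.d k104 k64 k192 5 13)))),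
  (.s k32 k16 3 (.s k40 k20 5 (.s k36 k44 1 (.s k24 k12 5 (.d k56 k52 k8 1 3))))), (.s k16 k32 3 (.s
  k152 k220 9 (.s k56 k52 1 (.s k104 k200 11 (.d k124 k64 k188 5 7)))))] .n) .n))) (.c k220 (.q k60
  [(.s k20 k40 5 (.s k124 k188 7 (.s k104 k64 5 (.d k148 k212 k192 7 13)))), (.s k52 k56 1 (.s k116
  k184 9 (.s k180 k244 7 (.s k120 k240 9 (.d k124 k112 k188 1 7))))), (.s k16 k32 3 (.s k20 k40 5
  (.s k24 k28 1 (.s k36 k12 5 (.d k52 k56 k4 1 3)))))] .n) (.c k236 (.l (.s k116 k184 9 (.s k16 k32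
  3 (.s k100 k68 3 (.d k152 k220 k204 9 13))))) .n))))))))))))

def t30 : T TT 256 :=
  (.f k84 k168 13 (.q k48 [(.s k16 k32 3 (.s k152 k220 9 (.s k116 k184 9 (.d k100 k68 k204 3 13))))]
  (.c k16 (.q k60 [(.s k20 k40 5 (.s k148 k212 7 (.s k124 k188 7 (.d k104 k64 k192 5 13)))), (.s k52
  k56 1 (.s k116 k184 9 (.s k180 k244 7 (.s k120 k240 9 (.d k124 k112 k188 1 7))))), (.s k20 k40 5
  (.s k148 k212 7 (.s k52 k56 1 (.s k116 k184 9 (.d k100 k68 k196 3 11)))))] .n) (.c k32 (.q k60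
  [(.s k124 k188 7 (.s k104 k64 5 (.s k148 k192 13 (.d k20 k40 k212 5 7)))), (.s k52 k56 1 (.s k116
  k184 9 (.s k180 k244 7 (.s k120 k240 9 (.d k124 k112 k188 1 7))))), (.s k20 k40 5 (.s k148 k212 7
  (.s k52 k56 1 (.s k116 k184 9 (.d k100 k68 k196 3 11)))))] (.c k100 (.q k236 [(.s k124 k188 7 (.s
  k104 k64 5 (.s k148 k192 13 (.d k20 k40 k212 5 7)))), (.s k52 k56 1 (.s k116 k184 9 (.s k180 k244
  7 (.s k120 k240 9 (.d k124 k112 k188 1 7))))), (.s k20 k40 5 (.s k148 k212 7 (.s k56 k52 1 (.s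
  k104 k192 13 (.s k152 k200 11 (.d k220 k204 k16 3 9))))))] .n) (.c k236 (.q k100 [(.d k116 k68
  k184 3 9), (.s k20 k40 5 (.s k148 k212 7 (.d k52 k56 k196 1 11)))] .n) .n))) (.c k68 (.q k60 [(.s
  k20 k40 5 (.s k148 k212 7 (.s k124 k188 7 (.d k104 k64 k192 5 13)))), (.s k32 k16 3 (.s k40 k20 5
  (.s k36 k44 1 (.s k24 k12 5 (.d k56 k52 k8 1 3))))), (.s k16 k32 3 (.s k152 k220 9 (.s k56 k52 1
  (.s k104 k200 11 (.d k124 k64 k188 5 7)))))] .n) (.c k100 (.q k60 [(.s k20 k40 5 (.s k148 k212 7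
  (.s k124 k188 7 (.d k104 k64 k192 5 13)))), (.s k52 k56 1 (.s k116 k184 9 (.s k180 k244 7 (.s k120
  k240 9 (.d k124 k112 k188 1 7))))), (.s k32 k16 3 (.s k40 k20 5 (.s k36 k44 1 (.s k24 k12 5 (.d
  k56 k52 k8 1 3)))))] (.c k32 (.q k236 [(.s k124 k188 7 (.s k104 k64 5 (.s k148 k192 13 (.d k20 k40
  k212 5 7)))), (.s k52 k56 1 (.s k116 k184 9 (.s k180 k244 7 (.s k120 k240 9 (.d k124 k112 k188 1
  7))))), (.s k20 k40 5 (.s k148 k212 7 (.s k56 k52 1 (.s k104 k192 13 (.s k152 k200 11 (.d k220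
  k204 k16 3 9))))))] .n) (.c k236 (.l (.s k32 k16 3 (.s k20 k40 5 (.s k148 k212 7 (.s k104 k192 13
  (.d k124 k64 k188 5 7)))))) .n))) (.c k116 (.q k60 [(.s k20 k40 5 (.s k148 k212 7 (.s k124 k188 7
  (.d k104 k64 k192 5 13)))), (.s k32 k16 3 (.s k40 k20 5 (.s k36 k44 1 (.s k24 k12 5 (.d k56 k52 k8
  1 3))))), (.s k16 k32 3 (.s k152 k220 9 (.s k56 k52 1 (.s k104 k200 11 (.d k124 k64 k188 5 7)))))]
  .n) (.c k152 (.q k60 [(.s k20 k40 5 (.s k148 k212 7 (.s k124 k188 7 (.d k104 k64 k192 5 13)))),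
  (.s k56 k52 1 (.s k184 k116 9 (.s k120 k248 7 (.s k180 k240 9 (.d k188 k176 k124 1 7))))), (.s k16
  k32 3 (.s k20 k40 5 (.s k24 k28 1 (.s k36 k12 5 (.d k52 k56 k4 1 3)))))] (.c k136 (.l (.s k184
  k116 9 (.s k20 k40 5 (.s k148 k212 7 (.s k104 k192 13 (.d k124 k64 k188 5 7)))))) (.c k184 (.q
  k136 [(.s k20 k40 5 (.s k148 k212 7 (.s k104 k192 13 (.d k124 k64 k188 5 7)))), (.s k32 k16 3 (.s
  k40 k20 5 (.s k36 k44 1 (.s k24 k12 5 (.d k56 k52 k8 1 3))))), (.s k68 k204 9 (.s k52 k56 1 (.s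
  k124 k188 7 (.s k104 k64 5 (.s k148 k192 13 (.d k100 k196 k116 11 3))))))] .n) .n))) (.c k184 (.q
  k60 [(.s k20 k40 5 (.s k148 k212 7 (.s k104 k192 13 (.d k124 k64 k188 5 7)))), (.s k32 k16 3 (.s
  k40 k20 5 (.s k36 k44 1 (.s k24 k12 5 (.d k56 k52 k8 1 3))))), (.s k16 k32 3 (.s k152 k220 9 (.s
  k56 k52 1 (.s k104 k200 11 (.d k124 k64 k188 5 7)))))] (.c k136 (.q k152 [(.d k16 k32 k220 3 9),
  (.s k56 k52 1 (.s k104 k200 11 (.d k124 k64 k188 5 7)))] .n) (.c k152 (.q k136 [(.s k20 k40 5 (.s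
  k148 k212 7 (.s k104 k192 13 (.d k124 k64 k188 5 7)))), (.s k32 k16 3 (.s k40 k20 5 (.s k36 k44 1
  (.s k24 k12 5 (.d k56 k52 k8 1 3))))), (.s k68 k204 9 (.s k52 k56 1 (.s k124 k188 7 (.s k104 k64 5
  (.s k148 k192 13 (.d k100 k196 k116 11 3))))))] .n) .n))) (.c k204 (.q k60 [(.s k20 k40 5 (.s k148
  k212 7 (.s k124 k188 7 (.d k104 k64 k192 5 13)))), (.s k32 k16 3 (.s k40 k20 5 (.s k36 k44 1 (.s
  k24 k12 5 (.d k56 k52 k8 1 3))))), (.s k16 k32 3 (.s k152 k220 9 (.s k56 k52 1 (.s k104 k200 11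
  (.d k124 k64 k188 5 7)))))] (.c k70 (.q k137 [(.s k20 k40 5 (.s k148 k212 7 (.s k124 k188 7 (.d
  k104 k64 k192 5 13)))), (.s k32 k16 3 (.s k40 k20 5 (.s k36 k44 1 (.s k24 k12 5 (.d k56 k52 k8 1
  3))))), (.s k16 k32 3 (.s k152 k220 9 (.s k56 k52 1 (.s k104 k200 11 (.d k124 k64 k188 5 7)))))]
  .n) (.c k137 (.q k70 [(.s k20 k40 5 (.s k148 k212 7 (.s k124 k188 7 (.d k104 k64 k192 5 13)))),
  (.s k32 k16 3 (.s k40 k20 5 (.s k36 k44 1 (.s k24 k12 5 (.d k56 k52 k8 1 3))))), (.s k16 k32 3 (.s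
  k152 k220 9 (.s k56 k52 1 (.s k104 k200 11 (.d k124 k64 k188 5 7)))))] .n) .n))) (.c k220 (.q k60
  [(.s k20 k40 5 (.s k124 k188 7 (.s k104 k64 5 (.d k148 k212 k192 7 13)))), (.s k52 k56 1 (.s k116
  k184 9 (.s k180 k244 7 (.s k120 k240 9 (.d k124 k112 k188 1 7))))), (.s k16 k32 3 (.s k20 k40 5
  (.s k24 k28 1 (.s k36 k12 5 (.d k52 k56 k4 1 3)))))] .n) (.c k236 (.l (.s k116 k184 9 (.s k16 k32
  3 (.s k100 k68 3 (.d k152 k220 k204 9 13))))) .n))))))))))))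

def t31 : T TT 256 :=
  (.f k84 k168 13 (.q k60 [(.s k20 k40 5 (.s k148 k212 7 (.s k124 k188 7 (.d k104 k64 k192 5 13))))]
  (.c k20 (.q k48 [(.s k16 k32 3 (.s k116 k184 9 (.s k100 k68 3 (.d k152 k220 k204 9 13)))), (.s k56
  k52 1 (.s k184 k116 9 (.s k120 k248 7 (.s k180 k240 9 (.d k188 k176 k124 1 7))))), (.s k16 k32 3
  (.s k152 k220 9 (.s k56 k52 1 (.s k104 k200 11 (.d k124 k64 k188 5 7)))))] .n) (.c k40 (.q k48
  [(.s k116 k184 9 (.s k100 k68 3 (.s k152 k204 13 (.d k16 k32 k220 3 9)))), (.s k56 k52 1 (.s k184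
  k116 9 (.s k120 k248 7 (.s k180 k240 9 (.d k188 k176 k124 1 7))))), (.s k16 k32 3 (.s k152 k220 9
  (.s k56 k52 1 (.s k104 k200 11 (.d k124 k64 k188 5 7)))))] (.c k104 (.q k232 [(.s k116 k184 9 (.s
  k100 k68 3 (.s k152 k204 13 (.d k16 k32 k220 3 9)))), (.s k56 k52 1 (.s k184 k116 9 (.s k120 k248
  7 (.s k180 k240 9 (.d k188 k176 k124 1 7))))), (.s k16 k32 3 (.s k152 k220 9 (.s k52 k56 1 (.s
  k100 k204 13 (.s k148 k196 11 (.d k212 k192 k20 5 7))))))] .n) (.c k232 (.q k104 [(.d k124 k64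
  k188 5 7), (.s k16 k32 3 (.s k152 k220 9 (.d k56 k52 k200 1 11)))] .n) .n))) (.c k64 (.q k48 [(.s
  k16 k32 3 (.s k152 k220 9 (.s k116 k184 9 (.d k100 k68 k204 3 13)))), (.s k32 k16 3 (.s k40 k20 5
  (.s k36 k44 1 (.s k24 k12 5 (.d k56 k52 k8 1 3))))), (.s k20 k40 5 (.s k148 k212 7 (.s k52 k56 1
  (.s k116 k184 9 (.d k100 k68 k196 3 11)))))] .n) (.c k104 (.q k48 [(.s k16 k32 3 (.s k116 k184 9
  (.s k100 k68 3 (.d k152 k220 k204 9 13)))), (.s k32 k16 3 (.s k40 k20 5 (.s k36 k44 1 (.s k24 k12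
  5 (.d k56 k52 k8 1 3))))), (.s k52 k56 1 (.s k116 k184 9 (.s k180 k244 7 (.s k120 k240 9 (.d k124
  k112 k188 1 7)))))] (.c k40 (.q k232 [(.s k116 k184 9 (.s k100 k68 3 (.s k152 k204 13 (.d k16 k32
  k220 3 9)))), (.s k56 k52 1 (.s k184 k116 9 (.s k120 k248 7 (.s k180 k240 9 (.d k188 k176 k124 1
  7))))), (.s k16 k32 3 (.s k152 k220 9 (.s k52 k56 1 (.s k100 k204 13 (.s k148 k196 11 (.d k212
  k192 k20 5 7))))))] .n) (.c k232 (.l (.s k40 k20 5 (.s k16 k32 3 (.s k152 k220 9 (.s k100 k204 13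
  (.d k116 k68 k184 3 9)))))) .n))) (.c k124 (.q k48 [(.s k16 k32 3 (.s k116 k184 9 (.s k100 k68 3
  (.d k152 k220 k204 9 13)))), (.s k32 k16 3 (.s k40 k20 5 (.s k36 k44 1 (.s k24 k12 5 (.d k56 k52
  k8 1 3))))), (.s k20 k40 5 (.s k148 k212 7 (.s k52 k56 1 (.s k116 k184 9 (.d k100 k68 k196 3
  11)))))] .n) (.c k148 (.q k48 [(.s k16 k32 3 (.s k116 k184 9 (.s k100 k68 3 (.d k152 k220 k204 9
  13)))), (.s k32 k16 3 (.s k40 k20 5 (.s k36 k44 1 (.s k24 k12 5 (.d k56 k52 k8 1 3))))), (.s k20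
  k40 5 (.s k52 k56 1 (.s k116 k184 9 (.s k244 k180 7 (.d k4 k164 k36 11 3)))))] (.c k128 (.l (.s
  k188 k124 7 (.s k16 k32 3 (.s k152 k220 9 (.s k100 k204 13 (.d k116 k68 k184 3 9)))))) (.c k188
  (.q k128 [(.s k16 k32 3 (.s k116 k184 9 (.s k100 k68 3 (.d k152 k220 k204 9 13)))), (.s k32 k16 3
  (.s k40 k20 5 (.s k36 k44 1 (.s k24 k12 5 (.d k56 k52 k8 1 3))))), (.s k64 k192 7 (.s k52 k56 1
  (.s k116 k184 9 (.s k180 k244 7 (.s k120 k240 9 (.d k124 k112 k104 1 5))))))] .n) .n))) (.c k188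
  (.q k48 [(.s k16 k32 3 (.s k116 k184 9 (.s k100 k68 3 (.d k152 k220 k204 9 13)))), (.s k32 k16 3
  (.s k40 k20 5 (.s k36 k44 1 (.s k24 k12 5 (.d k56 k52 k8 1 3))))), (.s k20 k40 5 (.s k148 k212 7
  (.s k52 k56 1 (.s k116 k184 9 (.d k100 k68 k196 3 11)))))] (.c k128 (.q k148 [(.d k20 k40 k212 5
  7), (.s k52 k56 1 (.s k116 k184 9 (.d k100 k68 k196 3 11)))] .n) (.c k148 (.q k128 [(.s k16 k32 3
  (.s k116 k184 9 (.s k100 k68 3 (.d k152 k220 k204 9 13)))), (.s k32 k16 3 (.s k40 k20 5 (.s k36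
  k44 1 (.s k24 k12 5 (.d k56 k52 k8 1 3))))), (.s k64 k192 7 (.s k52 k56 1 (.s k116 k184 9 (.s k180
  k244 7 (.s k120 k240 9 (.d k124 k112 k104 1 5))))))] .n) .n))) (.c k192 (.q k48 [(.s k16 k32 3 (.s
  k116 k184 9 (.s k100 k68 3 (.d k152 k220 k204 9 13)))), (.s k32 k16 3 (.s k40 k20 5 (.s k36 k44 1
  (.s k24 k12 5 (.d k56 k52 k8 1 3))))), (.s k20 k40 5 (.s k148 k212 7 (.s k52 k56 1 (.s k116 k184 9
  (.d k100 k68 k196 3 11)))))] (.c k66 (.q k129 [(.s k16 k32 3 (.s k116 k184 9 (.s k100 k68 3 (.d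
  k152 k220 k204 9 13)))), (.s k32 k16 3 (.s k40 k20 5 (.s k36 k44 1 (.s k24 k12 5 (.d k56 k52 k8 1
  3))))), (.s k20 k40 5 (.s k148 k212 7 (.s k52 k56 1 (.s k116 k184 9 (.d k100 k68 k196 3 11)))))]
  .n) (.c k129 (.q k66 [(.s k16 k32 3 (.s k116 k184 9 (.s k100 k68 3 (.d k152 k220 k204 9 13)))),
  (.s k32 k16 3 (.s k40 k20 5 (.s k36 k44 1 (.s k24 k12 5 (.d k56 k52 k8 1 3))))), (.s k20 k40 5 (.s
  k148 k212 7 (.s k52 k56 1 (.s k116 k184 9 (.d k100 k68 k196 3 11)))))] .n) .n))) (.c k212 (.q k48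
  [(.s k16 k32 3 (.s k116 k184 9 (.s k100 k68 3 (.d k152 k220 k204 9 13)))), (.s k32 k16 3 (.s k40
  k20 5 (.s k36 k44 1 (.s k24 k12 5 (.d k56 k52 k8 1 3))))), (.s k20 k40 5 (.s k52 k56 1 (.s k116
  k184 9 (.s k244 k180 7 (.d k4 k36 k164 3 11)))))] .n) (.c k232 (.l (.s k124 k188 7 (.s k20 k40 5
  (.s k104 k64 5 (.d k148 k212 k192 7 13))))) .n))))))))))))

def t60 : T TT 256 :=
  (.q k48 [(.s k16 k32 3 (.s k84 k168 13 (.s k152 k220 9 (.s k116 k184 9 (.d k100 k68 k204 3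
  13)))))] (.c k16 (.q k85 [(.s k84 k168 13 (.s k255 k170 14 (.s k117 k186 10 (.s k101 k69 3 (.s k86
  k87 0 (.d k116 k71 k184 4 9)))))), (.s k255 k170 14 (.s k116 k184 9 (.s k117 k186 10 (.s k118 k119
  0 (.s k185 k51 10 (.d k253 k254 k49 0 9)))))), (.s k84 k168 13 (.s k116 k184 9 (.s k68 k100 3 (.s
  k102 k119 4 (.s k86 k87 0 (.s k70 k118 3 (.d k71 k69 k101 0 4))))))), (.s k255 k170 14 (.s k117
  k186 10 (.s k101 k69 3 (.s k253 k254 0 (.s k169 k1 13 (.s k237 k33 9 (.d k207 k154 k222 14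
  4)))))))] (.c k22 (.q k41 [(.s k84 k168 13 (.s k255 k170 14 (.s k117 k186 10 (.s k101 k69 3 (.s
  k86 k87 0 (.d k116 k71 k184 4 9)))))), (.s k255 k170 14 (.s k116 k184 9 (.s k117 k186 10 (.s k118
  k119 0 (.s k185 k51 10 (.d k253 k254 k49 0 9)))))), (.s k84 k168 13 (.s k116 k184 9 (.s k68 k100 3
  (.s k102 k119 4 (.s k86 k87 0 (.s k70 k118 3 (.d k71 k69 k101 0 4))))))), (.s k255 k170 14 (.s
  k117 k186 10 (.s k101 k69 3 (.s k253 k254 0 (.s k169 k1 13 (.s k237 k33 9 (.d k207 k154 k222 14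
  4)))))))] (.c k255 (.l (.s k84 k168 13 (.s k116 k184 9 (.s k68 k100 3 (.s k119 k102 4 (.s k117
  k118 0 (.s k101 k69 3 (.d k86 k87 k71 0 4)))))))) .n)) (.c k41 (.q k22 [(.s k84 k168 13 (.s k255
  k170 14 (.s k117 k186 10 (.s k101 k69 3 (.s k86 k87 0 (.d k116 k71 k184 4 9)))))), (.s k84 k168 13
  (.s k86 k87 0 (.s k150 k214 7 (.s k20 k215 8 (.s k23 k21 0 (.d k212 k148 k149 7 8)))))), (.s k255
  k170 14 (.s k116 k184 9 (.s k117 k186 10 (.s k118 k119 0 (.s k185 k51 10 (.d k253 k254 k49 0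
  9))))))] (.c k255 (.l (.s k84 k168 13 (.s k116 k184 9 (.s k68 k100 3 (.s k119 k102 4 (.s k117 k118
  0 (.s k101 k69 3 (.d k86 k87 k71 0 4)))))))) .n)) (.c k255 (.l (.s k84 k168 13 (.s k116 k184 9 (.s
  k68 k100 3 (.s k119 k102 4 (.s k117 k118 0 (.s k101 k69 3 (.d k86 k87 k71 0 4)))))))) .n)))) (.c
  k22 (.q k41 [(.s k16 k32 3 (.s k84 k168 13 (.s k152 k220 9 (.s k116 k184 9 (.d k100 k68 k204 3
  13)))))] (.c k16 (.q k85 [(.s k84 k168 13 (.s k255 k170 14 (.s k117 k186 10 (.s k101 k69 3 (.s k86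
  k87 0 (.d k116 k71 k184 4 9)))))), (.s k255 k170 14 (.s k116 k184 9 (.s k117 k186 10 (.s k118 k119
  0 (.s k185 k51 10 (.d k253 k254 k49 0 9)))))), (.s k84 k168 13 (.s k116 k184 9 (.s k68 k100 3 (.s
  k102 k119 4 (.s k86 k87 0 (.s k70 k118 3 (.d k71 k69 k101 0 4))))))), (.s k255 k170 14 (.s k117
  k186 10 (.s k101 k69 3 (.s k253 k254 0 (.s k169 k1 13 (.s k237 k33 9 (.d k207 k154 k222 14
  4)))))))] (.c k255 (.l (.s k84 k168 13 (.s k116 k184 9 (.s k68 k100 3 (.s k119 k102 4 (.s k117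
  k118 0 (.s k101 k69 3 (.d k86 k87 k71 0 4)))))))) .n)) (.c k32 (.q k170 [(.s k168 k84 13 (.s k255
  k85 14 (.s k186 k117 10 (.s k154 k138 3 (.s k169 k171 0 (.d k184 k139 k116 4 9)))))), (.s k255 k85
  14 (.s k116 k184 9 (.s k117 k186 10 (.s k118 k119 0 (.s k185 k51 10 (.d k253 k254 k49 0 9)))))),
  (.s k168 k84 13 (.s k169 k171 0 (.s k105 k233 7 (.s k40 k235 8 (.s k43 k42 0 (.d k232 k104 k106 7
  8))))))] (.c k255 (.l (.s k168 k84 13 (.s k184 k116 9 (.s k136 k152 3 (.s k187 k153 4 (.s k186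
  k185 0 (.s k154 k138 3 (.d k169 k171 k139 0 4)))))))) .n)) (.c k68 (.l (.s k32 k16 3 (.s k168 k84
  13 (.s k100 k236 9 (.s k152 k204 13 (.d k184 k116 k136 9 3)))))) (.c k84 (.f k16 k32 3 (.q k85
  [(.s k170 k255 14 (.s k154 k223 10 (.s k207 k101 14 (.d k138 k186 k69 3 10)))), (.s k154 k223 10
  (.s k184 k116 9 (.s k169 k139 4 (.s k105 k233 7 (.s k56 k203 12 (.s k11 k26 4 (.d k248 k120 k90 7
  12))))))), (.s k255 k170 14 (.s k184 k116 9 (.s k186 k117 10 (.s k185 k187 0 (.s k118 k51 10 (.d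
  k254 k253 k50 0 9))))))] .n)) (.c k100 (.q k170 [(.s k32 k16 3 (.s k255 k85 14 (.s k101 k239 10
  (.s k154 k207 14 (.d k186 k138 k117 3 10))))), (.s k168 k84 13 (.s k255 k85 14 (.s k186 k117 10
  (.s k154 k138 3 (.s k169 k171 0 (.d k184 k116 k139 9 4)))))), (.s k32 k16 3 (.s k84 k168 13 (.s
  k85 k255 14 (.s k101 k239 10 (.s k116 k184 9 (.d k86 k87 k71 0 4))))))] (.c k85 (.l (.s k32 k16 3
  (.s k168 k84 13 (.s k101 k239 10 (.s k154 k207 14 (.s k169 k171 0 (.d k184 k139 k116 4 9)))))))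
  (.c k101 (.l (.s k16 k32 3 (.s k85 k255 14 (.s k154 k223 10 (.s k184 k116 9 (.s k169 k139 4 (.d
  k168 k171 k84 0 13))))))) (.c k255 (.l (.s k32 k16 3 (.s k168 k84 13 (.s k101 k239 10 (.s k207
  k154 14 (.s k237 k222 4 (.d k169 k171 k33 0 9))))))) .n)))) (.c k116 (.q k170 [(.s k32 k16 3 (.s
  k255 k85 14 (.s k101 k239 10 (.s k154 k207 14 (.d k186 k138 k117 3 10))))), (.s k168 k84 13 (.s
  k169 k171 0 (.s k105 k233 7 (.s k40 k235 8 (.s k43 k42 0 (.d k232 k104 k106 7 8))))))] (.c k255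
  (.l (.s k32 k16 3 (.s k168 k84 13 (.s k101 k239 10 (.s k207 k154 14 (.s k237 k222 4 (.d k169 k171
  k33 0 9))))))) .n)) (.c k152 (.q k170 [(.s k16 k32 3 (.s k85 k255 14 (.s k154 k223 10 (.s k207
  k101 14 (.d k138 k186 k69 3 10))))), (.s k255 k85 14 (.s k116 k184 9 (.s k117 k186 10 (.s k118
  k119 0 (.s k185 k51 10 (.d k253 k254 k49 0 9)))))), (.s k32 k16 3 (.s k101 k239 10 (.s k207 k154
  14 (.s k237 k222 4 (.s k169 k33 9 (.d k168 k84 k171 13 0))))))] (.c k85 (.l (.s k168 k84 13 (.s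
  k184 k116 9 (.s k169 k171 0 (.s k154 k139 4 (.s k207 k101 14 (.d k138 k69 k186 10 3))))))) .n))
  (.c k168 (.f k16 k32 3 (.q k85 [(.s k154 k223 10 (.s k184 k116 9 (.s k169 k139 4 (.s k253 k1 13
  (.d k255 k254 k170 0 14))))), (.s k170 k255 14 (.s k154 k223 10 (.s k207 k101 14 (.d k138 k186 k69
  3 10)))), (.s k255 k170 14 (.s k184 k116 9 (.s k186 k117 10 (.s k185 k187 0 (.s k118 k51 10 (.d
  k254 k253 k50 0 9)))))), (.s k154 k223 10 (.s k184 k116 9 (.s k169 k139 4 (.s k105 k233 7 (.s k56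
  k203 12 (.s k11 k26 4 (.d k248 k120 k90 7 12)))))))] (.c k100 (.q k236 [(.s k170 k255 14 (.s k154
  k223 10 (.s k138 k186 3 (.d k207 k69 k101 10 14)))), (.s k154 k223 10 (.s k184 k116 9 (.s k169
  k139 4 (.s k253 k1 13 (.d k255 k254 k170 0 14))))), (.s k170 k255 14 (.s k204 k220 3 (.s k68 k136
  9 (.s k102 k119 4 (.s k34 k238 9 (.d k51 k17 k153 4 14))))))] (.c k170 (.l (.s k154 k223 10 (.s
  k101 k207 14 (.s k220 k204 3 (.s k84 k152 9 (.s k86 k87 0 (.d k116 k71 k184 4 9))))))) (.c k255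
  (.l (.s k154 k223 10 (.s k207 k101 14 (.s k204 k220 3 (.s k68 k136 9 (.s k102 k119 4 (.d k206 k205
  k50 0 13))))))) .n))) (.c k236 (.q k100 [(.s k116 k184 9 (.s k68 k84 3 (.d k204 k136 k152 9 13))),
  (.s k170 k255 14 (.s k154 k223 10 (.s k207 k101 14 (.d k138 k186 k69 3 10))))] .n) .n)))) (.c k184
  (.q k170 [(.s k16 k32 3 (.s k85 k255 14 (.s k154 k223 10 (.s k207 k101 14 (.d k138 k186 k69 3
  10))))), (.s k168 k84 13 (.s k169 k171 0 (.s k105 k233 7 (.s k40 k235 8 (.s k43 k42 0 (.d k232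
  k104 k106 7 8)))))), (.s k32 k16 3 (.s k255 k85 14 (.s k101 k239 10 (.s k154 k207 14 (.d k186 k138
  k117 3 10)))))] (.c k255 (.l (.s k32 k16 3 (.s k168 k84 13 (.s k101 k239 10 (.s k207 k154 14 (.s
  k237 k222 4 (.d k169 k171 k33 0 9))))))) .n)) (.c k204 (.f k16 k32 3 (.f k116 k184 9 (.q k255 [(.s
  k85 k170 14 (.s k154 k223 10 (.s k117 k186 10 (.d k101 k69 k207 3 14)))), (.s k117 k186 10 (.s
  k118 k119 0 (.s k185 k51 10 (.d k253 k254 k49 0 9)))), (.s k84 k168 13 (.s k85 k170 14 (.s k154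
  k223 10 (.s k101 k207 14 (.d k86 k71 k87 4 0)))))] (.c k70 (.q k137 [(.s k85 k170 14 (.s k154 k223
  10 (.s k117 k186 10 (.d k101 k69 k207 3 14)))), (.s k117 k186 10 (.s k118 k119 0 (.s k185 k51 10
  (.d k253 k254 k49 0 9)))), (.s k84 k168 13 (.s k85 k170 14 (.s k154 k223 10 (.s k101 k207 14 (.d
  k86 k71 k87 4 0)))))] (.c k108 (.q k156 [(.s k85 k170 14 (.s k154 k223 10 (.s k117 k186 10 (.d
  k101 k69 k207 3 14)))), (.s k117 k186 10 (.s k118 k119 0 (.s k185 k51 10 (.d k253 k254 k49 0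
  9)))), (.s k84 k168 13 (.s k85 k170 14 (.s k154 k223 10 (.s k101 k207 14 (.d k86 k71 k87 4 0)))))]
  .n) (.c k156 (.q k108 [(.s k85 k170 14 (.s k154 k223 10 (.s k117 k186 10 (.d k101 k69 k207 3
  14)))), (.s k117 k186 10 (.s k118 k119 0 (.s k185 k51 10 (.d k253 k254 k49 0 9)))), (.s k84 k168
  13 (.s k85 k170 14 (.s k154 k223 10 (.s k101 k207 14 (.d k86 k71 k87 4 0)))))] .n) .n))) (.c k108
  (.q k156 [(.s k85 k170 14 (.s k154 k223 10 (.s k117 k186 10 (.d k101 k69 k207 3 14)))), (.s k117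
  k186 10 (.s k118 k119 0 (.s k185 k51 10 (.d k253 k254 k49 0 9)))), (.s k84 k168 13 (.s k85 k170 14
  (.s k154 k223 10 (.s k101 k207 14 (.d k86 k71 k87 4 0)))))] (.c k70 (.q k137 [(.s k85 k170 14 (.s
  k154 k223 10 (.s k117 k186 10 (.d k101 k69 k207 3 14)))), (.s k117 k186 10 (.s k118 k119 0 (.s
  k185 k51 10 (.d k253 k254 k49 0 9)))), (.s k84 k168 13 (.s k85 k170 14 (.s k154 k223 10 (.s k101
  k207 14 (.d k86 k71 k87 4 0)))))] .n) (.c k137 (.q k70 [(.s k85 k170 14 (.s k154 k223 10 (.s k117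
  k186 10 (.d k101 k69 k207 3 14)))), (.s k117 k186 10 (.s k118 k119 0 (.s k185 k51 10 (.d k253 k254
  k49 0 9)))), (.s k84 k168 13 (.s k85 k170 14 (.s k154 k223 10 (.s k101 k207 14 (.d k86 k71 k87 4
  0)))))] .n) .n))) (.c k137 (.q k70 [(.s k85 k170 14 (.s k154 k223 10 (.s k117 k186 10 (.d k101 k69
  k207 3 14)))), (.s k117 k186 10 (.s k118 k119 0 (.s k185 k51 10 (.d k253 k254 k49 0 9)))), (.s k84
  k168 13 (.s k85 k170 14 (.s k154 k223 10 (.s k101 k207 14 (.d k86 k71 k87 4 0)))))] (.c k108 (.q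
  k156 [(.s k85 k170 14 (.s k154 k223 10 (.s k117 k186 10 (.d k101 k69 k207 3 14)))), (.s k117 k186
  10 (.s k118 k119 0 (.s k185 k51 10 (.d k253 k254 k49 0 9)))), (.s k84 k168 13 (.s k85 k170 14 (.s
  k154 k223 10 (.s k101 k207 14 (.d k86 k71 k87 4 0)))))] .n) (.c k156 (.q k108 [(.s k85 k170 14 (.s
  k154 k223 10 (.s k117 k186 10 (.d k101 k69 k207 3 14)))), (.s k117 k186 10 (.s k118 k119 0 (.s
  k185 k51 10 (.d k253 k254 k49 0 9)))), (.s k84 k168 13 (.s k85 k170 14 (.s k154 k223 10 (.s k101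
  k207 14 (.d k86 k71 k87 4 0)))))] .n) .n))) (.c k156 (.q k108 [(.s k85 k170 14 (.s k154 k223 10
  (.s k117 k186 10 (.d k101 k69 k207 3 14)))), (.s k117 k186 10 (.s k118 k119 0 (.s k185 k51 10 (.d
  k253 k254 k49 0 9)))), (.s k84 k168 13 (.s k85 k170 14 (.s k154 k223 10 (.s k101 k207 14 (.d k86
  k71 k87 4 0)))))] (.c k70 (.q k137 [(.s k85 k170 14 (.s k154 k223 10 (.s k117 k186 10 (.d k101 k69
  k207 3 14)))), (.s k117 k186 10 (.s k118 k119 0 (.s k185 k51 10 (.d k253 k254 k49 0 9)))), (.s k84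
  k168 13 (.s k85 k170 14 (.s k154 k223 10 (.s k101 k207 14 (.d k86 k71 k87 4 0)))))] .n) (.c k137
  (.q k70 [(.s k85 k170 14 (.s k154 k223 10 (.s k117 k186 10 (.d k101 k69 k207 3 14)))), (.s k117
  k186 10 (.s k118 k119 0 (.s k185 k51 10 (.d k253 k254 k49 0 9)))), (.s k84 k168 13 (.s k85 k170 14
  (.s k154 k223 10 (.s k101 k207 14 (.d k86 k71 k87 4 0)))))] .n) .n))) .n))))))) (.c k220 (.l (.s
  k32 k16 3 (.s k184 k116 9 (.s k168 k84 13 (.s k152 k136 3 (.d k100 k236 k204 9 13)))))) (.c k236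
  (.l (.s k16 k32 3 (.s k116 k184 9 (.s k84 k168 13 (.s k100 k68 3 (.d k152 k220 k204 9 13))))))
  .n))))))))))))) (.c k32 (.q k170 [(.s k168 k84 13 (.s k255 k85 14 (.s k186 k117 10 (.s k154 k138 3
  (.s k169 k171 0 (.d k184 k139 k116 4 9)))))), (.s k255 k85 14 (.s k116 k184 9 (.s k117 k186 10 (.s
  k118 k119 0 (.s k185 k51 10 (.d k253 k254 k49 0 9)))))), (.s k168 k84 13 (.s k184 k116 9 (.s k136
  k152 3 (.s k153 k187 4 (.s k169 k171 0 (.s k137 k185 3 (.d k139 k138 k154 0 4))))))), (.s k255 k85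
  14 (.s k186 k117 10 (.s k154 k138 3 (.s k254 k253 0 (.s k86 k2 13 (.s k222 k18 9 (.d k207 k101
  k237 14 4)))))))] (.c k22 (.q k41 [(.s k168 k84 13 (.s k255 k85 14 (.s k186 k117 10 (.s k154 k138
  3 (.s k169 k171 0 (.d k184 k139 k116 4 9)))))), (.s k255 k85 14 (.s k116 k184 9 (.s k117 k186 10
  (.s k118 k119 0 (.s k185 k51 10 (.d k253 k254 k49 0 9)))))), (.s k168 k84 13 (.s k169 k171 0 (.s
  k105 k233 7 (.s k40 k235 8 (.s k43 k42 0 (.d k232 k104 k106 7 8))))))] (.c k255 (.l (.s k168 k84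
  13 (.s k184 k116 9 (.s k136 k152 3 (.s k187 k153 4 (.s k186 k185 0 (.s k154 k138 3 (.d k169 k171
  k139 0 4)))))))) .n)) (.c k41 (.q k22 [(.s k168 k84 13 (.s k255 k85 14 (.s k186 k117 10 (.s k154
  k138 3 (.s k169 k171 0 (.d k184 k139 k116 4 9)))))), (.s k255 k85 14 (.s k116 k184 9 (.s k117 k186
  10 (.s k118 k119 0 (.s k185 k51 10 (.d k253 k254 k49 0 9)))))), (.s k168 k84 13 (.s k184 k116 9
  (.s k136 k152 3 (.s k153 k187 4 (.s k169 k171 0 (.s k137 k185 3 (.d k139 k138 k154 0 4))))))), (.s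
  k255 k85 14 (.s k186 k117 10 (.s k154 k138 3 (.s k254 k253 0 (.s k86 k2 13 (.s k222 k18 9 (.d k207
  k101 k237 14 4)))))))] (.c k255 (.l (.s k168 k84 13 (.s k184 k116 9 (.s k136 k152 3 (.s k187 k153
  4 (.s k186 k185 0 (.s k154 k138 3 (.d k169 k171 k139 0 4)))))))) .n)) (.c k255 (.l (.s k168 k84 13
  (.s k184 k116 9 (.s k136 k152 3 (.s k187 k153 4 (.s k186 k185 0 (.s k154 k138 3 (.d k169 k171 k139
  0 4)))))))) .n)))) (.c k41 (.q k22 [(.s k16 k32 3 (.s k84 k168 13 (.s k152 k220 9 (.s k116 k184 9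
  (.d k100 k68 k204 3 13)))))] (.c k16 (.q k85 [(.s k84 k168 13 (.s k255 k170 14 (.s k117 k186 10
  (.s k101 k69 3 (.s k86 k87 0 (.d k116 k71 k184 4 9)))))), (.s k84 k168 13 (.s k86 k87 0 (.s k150
  k214 7 (.s k20 k215 8 (.s k23 k21 0 (.d k212 k148 k149 7 8)))))), (.s k255 k170 14 (.s k116 k184 9
  (.s k117 k186 10 (.s k118 k119 0 (.s k185 k51 10 (.d k253 k254 k49 0 9))))))] (.c k255 (.l (.s k84
  k168 13 (.s k116 k184 9 (.s k68 k100 3 (.s k119 k102 4 (.s k117 k118 0 (.s k101 k69 3 (.d k86 k87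
  k71 0 4)))))))) .n)) (.c k32 (.q k170 [(.s k168 k84 13 (.s k255 k85 14 (.s k186 k117 10 (.s k154
  k138 3 (.s k169 k171 0 (.d k184 k139 k116 4 9)))))), (.s k255 k85 14 (.s k116 k184 9 (.s k117 k186
  10 (.s k118 k119 0 (.s k185 k51 10 (.d k253 k254 k49 0 9)))))), (.s k168 k84 13 (.s k184 k116 9
  (.s k136 k152 3 (.s k153 k187 4 (.s k169 k171 0 (.s k137 k185 3 (.d k139 k138 k154 0 4))))))), (.s
  k255 k85 14 (.s k186 k117 10 (.s k154 k138 3 (.s k254 k253 0 (.s k86 k2 13 (.s k222 k18 9 (.d k207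
  k101 k237 14 4)))))))] (.c k255 (.l (.s k168 k84 13 (.s k184 k116 9 (.s k136 k152 3 (.s k187 k153
  4 (.s k186 k185 0 (.s k154 k138 3 (.d k169 k171 k139 0 4)))))))) .n)) (.c k68 (.l (.s k32 k16 3
  (.s k168 k84 13 (.s k100 k236 9 (.s k152 k204 13 (.d k184 k116 k136 9 3)))))) (.c k84 (.f k16 k32
  3 (.q k85 [(.s k170 k255 14 (.s k154 k223 10 (.s k207 k101 14 (.d k138 k186 k69 3 10)))), (.s k154
  k223 10 (.s k184 k116 9 (.s k169 k139 4 (.s k253 k1 13 (.d k255 k254 k170 0 14))))), (.s k255 k170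
  14 (.s k184 k116 9 (.s k186 k117 10 (.s k185 k187 0 (.s k118 k51 10 (.d k254 k253 k50 0 9))))))]
  (.c k170 (.l (.s k154 k223 10 (.s k101 k207 14 (.s k184 k116 9 (.s k117 k69 3 (.s k255 k186 10 (.s
  k253 k254 0 (.d k169 k139 k1 4 13)))))))) (.c k255 (.f k184 k116 9 (.l (.s k154 k223 10 (.s k207
  k101 14 (.s k138 k69 10 (.s k139 k169 4 (.s k136 k137 0 (.s k152 k168 3 (.d k204 k100 k68 13
  9))))))))) .n)))) (.c k100 (.q k170 [(.s k32 k16 3 (.s k255 k85 14 (.s k101 k239 10 (.s k154 k207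
  14 (.d k186 k138 k117 3 10))))), (.s k168 k84 13 (.s k255 k85 14 (.s k186 k117 10 (.s k154 k138 3
  (.s k169 k171 0 (.d k184 k116 k139 9 4)))))), (.s k32 k16 3 (.s k84 k168 13 (.s k85 k255 14 (.s
  k101 k239 10 (.s k116 k184 9 (.d k86 k87 k71 0 4))))))] (.c k85 (.l (.s k32 k16 3 (.s k168 k84 13
  (.s k101 k239 10 (.s k154 k207 14 (.s k169 k171 0 (.d k184 k139 k116 4 9))))))) (.c k101 (.l (.s
  k16 k32 3 (.s k85 k255 14 (.s k154 k223 10 (.s k184 k116 9 (.s k169 k139 4 (.d k168 k171 k84 0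
  13))))))) (.c k255 (.l (.s k32 k16 3 (.s k168 k84 13 (.s k101 k239 10 (.s k207 k154 14 (.s k237
  k222 4 (.d k169 k171 k33 0 9))))))) .n)))) (.c k116 (.q k85 [(.s k16 k32 3 (.s k170 k255 14 (.s
  k154 k223 10 (.s k138 k186 3 (.d k207 k69 k101 10 14))))), (.s k84 k168 13 (.s k86 k87 0 (.s k150
  k214 7 (.s k20 k215 8 (.s k23 k21 0 (.d k212 k148 k149 7 8)))))), (.s k16 k32 3 (.s k255 k170 14
  (.s k154 k223 10 (.s k101 k207 14 (.d k117 k69 k186 3 10)))))] (.c k255 (.l (.s k16 k32 3 (.s k84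
  k168 13 (.s k154 k223 10 (.s k207 k101 14 (.s k222 k237 4 (.d k86 k87 k18 0 9))))))) .n)) (.c k152
  (.q k85 [(.s k16 k32 3 (.s k170 k255 14 (.s k154 k223 10 (.s k207 k101 14 (.d k138 k186 k69 3
  10))))), (.s k16 k32 3 (.s k255 k170 14 (.s k154 k223 10 (.s k184 k116 9 (.s k253 k254 0 (.d k169
  k139 k1 4 13)))))), (.s k84 k168 13 (.s k255 k170 14 (.s k117 k186 10 (.s k101 k69 3 (.s k86 k87 0
  (.d k116 k184 k71 9 4))))))] (.c k101 (.l (.s k16 k32 3 (.s k168 k84 13 (.s k170 k255 14 (.s k154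
  k223 10 (.s k184 k116 9 (.d k169 k171 k139 0 4))))))) (.c k154 (.l (.s k32 k16 3 (.s k170 k255 14
  (.s k101 k239 10 (.s k116 k184 9 (.s k86 k71 4 (.d k84 k87 k168 0 13))))))) (.c k170 (.l (.s k16
  k32 3 (.s k84 k168 13 (.s k154 k223 10 (.s k101 k207 14 (.s k86 k87 0 (.d k116 k71 k184 4 9)))))))
  (.c k255 (.l (.s k16 k32 3 (.s k84 k168 13 (.s k154 k223 10 (.s k207 k101 14 (.s k222 k237 4 (.d
  k86 k87 k18 0 9))))))) .n))))) (.c k168 (.q k17 [(.s k51 k34 4 (.s k49 k50 0 (.s k184 k116 9 (.s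
  k185 k118 10 (.s k117 k253 9 (.d k186 k187 k255 0 10)))))), (.s k16 k32 3 (.s k19 k18 0 (.s k25
  k28 2 (.s k21 k29 1 (.s k31 k26 2 (.d k23 k20 k27 0 1))))))] (.c k18 (.l (.s k51 k34 4 (.s k50 k49
  0 (.s k116 k184 9 (.s k118 k185 10 (.s k186 k254 9 (.d k117 k119 k255 0 10))))))) .n)) (.c k184
  (.q k85 [(.s k16 k32 3 (.s k170 k255 14 (.s k154 k223 10 (.s k207 k101 14 (.d k138 k186 k69 3
  10))))), (.s k84 k168 13 (.s k86 k87 0 (.s k150 k214 7 (.s k20 k215 8 (.s k23 k21 0 (.d k212 k148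
  k149 7 8)))))), (.s k16 k32 3 (.s k255 k170 14 (.s k154 k223 10 (.s k101 k207 14 (.d k117 k69 k186
  3 10)))))] (.c k255 (.l (.s k16 k32 3 (.s k84 k168 13 (.s k154 k223 10 (.s k207 k101 14 (.s k222
  k237 4 (.d k86 k87 k18 0 9))))))) .n)) (.c k204 (.f k16 k32 3 (.f k116 k184 9 (.q k17 [(.s k51 k34
  4 (.s k50 k49 0 (.s k118 k185 10 (.s k186 k254 9 (.d k117 k119 k255 0 10))))), (.s k19 k18 0 (.s
  k25 k28 2 (.s k21 k29 1 (.s k31 k26 2 (.d k23 k20 k27 0 1)))))] (.c k70 (.q k137 [(.s k51 k34 4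
  (.s k50 k49 0 (.s k118 k185 10 (.s k186 k254 9 (.d k117 k119 k255 0 10))))), (.s k19 k18 0 (.s k25
  k28 2 (.s k21 k29 1 (.s k31 k26 2 (.d k23 k20 k27 0 1)))))] (.c k108 (.q k156 [(.s k19 k18 0 (.s
  k28 k25 2 (.s k220 k92 7 (.d k84 k152 k168 9 13)))), (.s k51 k34 4 (.s k50 k49 0 (.s k118 k185 10
  (.s k186 k254 9 (.d k117 k119 k255 0 10)))))] .n) (.c k156 (.q k108 [(.s k51 k34 4 (.s k50 k49 0
  (.s k118 k185 10 (.s k186 k254 9 (.d k117 k119 k255 0 10))))), (.s k19 k18 0 (.s k25 k28 2 (.s k21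
  k29 1 (.s k31 k26 2 (.d k23 k20 k27 0 1)))))] .n) .n))) (.c k108 (.q k156 [(.s k19 k18 0 (.s k28
  k25 2 (.s k220 k92 7 (.d k84 k152 k168 9 13)))), (.s k51 k34 4 (.s k50 k49 0 (.s k118 k185 10 (.s
  k186 k254 9 (.d k117 k119 k255 0 10)))))] (.c k70 (.q k137 [(.s k19 k18 0 (.s k28 k25 2 (.s k220
  k92 7 (.d k84 k152 k168 9 13)))), (.s k51 k34 4 (.s k50 k49 0 (.s k118 k185 10 (.s k186 k254 9 (.d
  k117 k119 k255 0 10)))))] .n) (.c k137 (.q k70 [(.s k19 k18 0 (.s k28 k25 2 (.s k220 k92 7 (.d k84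
  k152 k168 9 13)))), (.s k51 k34 4 (.s k50 k49 0 (.s k118 k185 10 (.s k186 k254 9 (.d k117 k119
  k255 0 10)))))] .n) .n))) (.c k137 (.q k70 [(.s k19 k18 0 (.s k25 k28 2 (.s k21 k29 1 (.s k31 k26
  2 (.d k23 k20 k27 0 1))))), (.s k51 k34 4 (.s k50 k49 0 (.s k118 k185 10 (.s k186 k254 9 (.d k117
  k119 k255 0 10)))))] (.c k108 (.q k156 [(.s k19 k18 0 (.s k28 k25 2 (.s k220 k92 7 (.d k84 k152
  k168 9 13)))), (.s k51 k34 4 (.s k50 k49 0 (.s k118 k185 10 (.s k186 k254 9 (.d k117 k119 k255 0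
  10)))))] .n) (.c k156 (.q k108 [(.s k51 k34 4 (.s k50 k49 0 (.s k118 k185 10 (.s k186 k254 9 (.d
  k117 k119 k255 0 10))))), (.s k19 k18 0 (.s k25 k28 2 (.s k21 k29 1 (.s k31 k26 2 (.d k23 k20 k27
  0 1)))))] .n) .n))) (.c k156 (.q k108 [(.s k51 k34 4 (.s k50 k49 0 (.s k118 k185 10 (.s k186 k254
  9 (.d k117 k119 k255 0 10))))), (.s k19 k18 0 (.s k25 k28 2 (.s k21 k29 1 (.s k31 k26 2 (.d k23
  k20 k27 0 1)))))] (.c k70 (.q k137 [(.s k51 k34 4 (.s k50 k49 0 (.s k118 k185 10 (.s k186 k254 9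
  (.d k117 k119 k255 0 10))))), (.s k19 k18 0 (.s k25 k28 2 (.s k21 k29 1 (.s k31 k26 2 (.d k23 k20
  k27 0 1)))))] .n) (.c k137 (.q k70 [(.s k51 k34 4 (.s k50 k49 0 (.s k118 k185 10 (.s k186 k254 9
  (.d k117 k119 k255 0 10))))), (.s k19 k18 0 (.s k25 k28 2 (.s k21 k29 1 (.s k31 k26 2 (.d k23 k20
  k27 0 1)))))] .n) .n))) .n))))))) (.c k220 (.l (.s k32 k16 3 (.s k184 k116 9 (.s k168 k84 13 (.s
  k152 k136 3 (.d k100 k236 k204 9 13)))))) (.c k236 (.l (.s k16 k32 3 (.s k116 k184 9 (.s k84 k168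
  13 (.s k100 k68 3 (.d k152 k220 k204 9 13)))))) .n))))))))))))) (.c k68 (.l (.s k32 k16 3 (.s k168
  k84 13 (.s k100 k236 9 (.s k152 k204 13 (.d k184 k116 k136 9 3)))))) (.c k84 (.f k16 k32 3 (.q k85
  [(.s k170 k255 14 (.s k154 k223 10 (.s k207 k101 14 (.d k138 k186 k69 3 10)))), (.s k154 k223 10
  (.s k184 k116 9 (.s k169 k139 4 (.s k253 k1 13 (.d k255 k254 k170 0 14))))), (.s k255 k170 14 (.s
  k184 k116 9 (.s k186 k117 10 (.s k185 k187 0 (.s k118 k51 10 (.d k254 k253 k50 0 9))))))] (.c k22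
  (.q k41 [(.s k170 k255 14 (.s k154 k223 10 (.s k207 k101 14 (.d k138 k186 k69 3 10)))), (.s k154
  k223 10 (.s k184 k116 9 (.s k169 k139 4 (.s k105 k233 7 (.s k56 k203 12 (.s k11 k26 4 (.d k248
  k120 k90 7 12))))))), (.s k255 k170 14 (.s k184 k116 9 (.s k186 k117 10 (.s k185 k187 0 (.s k118
  k51 10 (.d k254 k253 k50 0 9))))))] .n) (.c k41 (.q k22 [(.s k170 k255 14 (.s k154 k223 10 (.s
  k207 k101 14 (.d k138 k186 k69 3 10)))), (.s k154 k223 10 (.s k184 k116 9 (.s k169 k139 4 (.s k253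
  k1 13 (.d k255 k254 k170 0 14))))), (.s k255 k170 14 (.s k184 k116 9 (.s k186 k117 10 (.s k185
  k187 0 (.s k118 k51 10 (.d k254 k253 k50 0 9))))))] (.c k170 (.l (.s k154 k223 10 (.s k101 k207 14
  (.s k184 k116 9 (.s k117 k69 3 (.s k255 k186 10 (.s k253 k254 0 (.d k169 k139 k1 4 13)))))))) (.c
  k255 (.f k184 k116 9 (.l (.s k154 k223 10 (.s k207 k101 14 (.s k138 k69 10 (.s k139 k169 4 (.s
  k136 k137 0 (.s k152 k168 3 (.d k204 k100 k68 13 9))))))))) .n))) (.c k170 (.l (.s k154 k223 10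
  (.s k101 k207 14 (.s k184 k116 9 (.s k117 k69 3 (.s k255 k186 10 (.s k253 k254 0 (.d k169 k139 k1
  4 13)))))))) (.c k255 (.f k184 k116 9 (.l (.s k154 k223 10 (.s k207 k101 14 (.s k138 k69 10 (.s
  k139 k169 4 (.s k136 k137 0 (.s k152 k168 3 (.d k204 k100 k68 13 9))))))))) .n)))))) (.c k100 (.q
  k85 [(.s k32 k16 3 (.s k170 k255 14 (.s k101 k239 10 (.s k207 k154 14 (.d k69 k117 k138 3 10))))),
  (.s k16 k32 3 (.s k255 k170 14 (.s k154 k223 10 (.s k184 k116 9 (.s k253 k254 0 (.d k169 k139 k1 4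
  13)))))), (.s k255 k170 14 (.s k116 k184 9 (.s k117 k186 10 (.s k101 k69 3 (.s k86 k71 4 (.d k84
  k87 k168 0 13))))))] (.c k22 (.q k41 [(.s k32 k16 3 (.s k170 k255 14 (.s k101 k239 10 (.s k207
  k154 14 (.d k69 k117 k138 3 10))))), (.s k16 k32 3 (.s k255 k170 14 (.s k154 k223 10 (.s k184 k116
  9 (.s k253 k254 0 (.d k169 k139 k1 4 13)))))), (.s k255 k170 14 (.s k116 k184 9 (.s k117 k186 10
  (.s k101 k69 3 (.s k86 k71 4 (.d k84 k87 k168 0 13))))))] (.c k101 (.l (.s k16 k32 3 (.s k170 k255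
  14 (.s k154 k223 10 (.s k184 k116 9 (.s k169 k139 4 (.d k168 k171 k84 0 13))))))) (.c k154 (.l (.s
  k32 k16 3 (.s k84 k168 13 (.s k170 k255 14 (.s k101 k239 10 (.s k116 k184 9 (.d k86 k87 k71 0
  4))))))) (.c k170 (.l (.s k84 k168 13 (.s k116 k184 9 (.s k86 k87 0 (.s k101 k71 4 (.s k207 k154
  14 (.d k69 k138 k117 10 3))))))) (.c k255 (.l (.s k16 k32 3 (.s k154 k223 10 (.s k207 k101 14 (.s
  k222 k237 4 (.s k86 k18 9 (.d k84 k168 k87 13 0))))))) .n))))) (.c k41 (.q k22 [(.s k32 k16 3 (.s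
  k170 k255 14 (.s k101 k239 10 (.s k207 k154 14 (.d k69 k117 k138 3 10))))), (.s k16 k32 3 (.s k255
  k170 14 (.s k154 k223 10 (.s k184 k116 9 (.s k253 k254 0 (.d k169 k139 k1 4 13)))))), (.s k255
  k170 14 (.s k116 k184 9 (.s k117 k186 10 (.s k101 k69 3 (.s k86 k71 4 (.d k84 k87 k168 0 13))))))]
  (.c k101 (.l (.s k16 k32 3 (.s k170 k255 14 (.s k154 k223 10 (.s k184 k116 9 (.s k169 k139 4 (.d
  k168 k171 k84 0 13))))))) (.c k154 (.l (.s k32 k16 3 (.s k84 k168 13 (.s k170 k255 14 (.s k101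
  k239 10 (.s k116 k184 9 (.d k86 k87 k71 0 4))))))) (.c k170 (.l (.s k84 k168 13 (.s k116 k184 9
  (.s k86 k87 0 (.s k101 k71 4 (.s k207 k154 14 (.d k69 k138 k117 10 3))))))) (.c k255 (.l (.s k16
  k32 3 (.s k154 k223 10 (.s k207 k101 14 (.s k222 k237 4 (.s k86 k18 9 (.d k84 k168 k87 13 0)))))))
  .n))))) (.c k101 (.l (.s k16 k32 3 (.s k170 k255 14 (.s k154 k223 10 (.s k184 k116 9 (.s k169 k139
  4 (.d k168 k171 k84 0 13))))))) (.c k154 (.l (.s k32 k16 3 (.s k84 k168 13 (.s k170 k255 14 (.s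
  k101 k239 10 (.s k116 k184 9 (.d k86 k87 k71 0 4))))))) (.c k170 (.l (.s k84 k168 13 (.s k116 k184
  9 (.s k86 k87 0 (.s k101 k71 4 (.s k207 k154 14 (.d k69 k138 k117 10 3))))))) (.c k255 (.l (.s k16
  k32 3 (.s k154 k223 10 (.s k207 k101 14 (.s k222 k237 4 (.s k86 k18 9 (.d k84 k168 k87 13 0)))))))
  .n))))))) (.c k116 (.f k16 k32 3 (.q k85 [(.s k170 k255 14 (.s k154 k223 10 (.s k138 k186 3 (.d
  k207 k69 k101 10 14)))), (.s k84 k168 13 (.s k220 k152 9 (.s k154 k223 10 (.s k86 k87 0 (.s k18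
  k222 9 (.d k19 k17 k153 0 10)))))), (.s k255 k170 14 (.s k117 k186 10 (.s k101 k69 3 (.s k253 k254
  0 (.s k169 k1 13 (.s k237 k33 9 (.d k207 k154 k222 14 4)))))))] (.c k22 (.q k41 [(.s k170 k255 14
  (.s k154 k223 10 (.s k138 k186 3 (.d k207 k69 k101 10 14)))), (.s k84 k168 13 (.s k220 k152 9 (.s
  k154 k223 10 (.s k86 k87 0 (.s k18 k222 9 (.d k19 k17 k153 0 10)))))), (.s k255 k170 14 (.s k117
  k186 10 (.s k101 k69 3 (.s k253 k254 0 (.s k169 k1 13 (.s k237 k33 9 (.d k207 k154 k222 14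
  4)))))))] (.c k154 (.l (.s k84 k168 13 (.s k255 k170 14 (.s k220 k152 9 (.s k86 k87 0 (.s k153 k19
  10 (.s k221 k17 9 (.d k204 k236 k238 3 4)))))))) (.c k255 (.l (.s k84 k168 13 (.s k154 k223 10 (.s
  k207 k101 14 (.s k222 k237 4 (.d k86 k87 k18 0 9)))))) .n))) (.c k41 (.q k22 [(.s k170 k255 14 (.s
  k154 k223 10 (.s k138 k186 3 (.d k207 k69 k101 10 14)))), (.s k84 k168 13 (.s k86 k87 0 (.s k150
  k214 7 (.s k20 k215 8 (.s k23 k21 0 (.d k212 k148 k149 7 8)))))), (.s k255 k170 14 (.s k154 k223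
  10 (.s k101 k207 14 (.d k117 k69 k186 3 10))))] (.c k255 (.l (.s k84 k168 13 (.s k154 k223 10 (.s
  k207 k101 14 (.s k222 k237 4 (.d k86 k87 k18 0 9)))))) .n)) (.c k154 (.l (.s k84 k168 13 (.s k255
  k170 14 (.s k220 k152 9 (.s k86 k87 0 (.s k153 k19 10 (.s k221 k17 9 (.d k204 k236 k238 3
  4)))))))) (.c k255 (.l (.s k84 k168 13 (.s k154 k223 10 (.s k207 k101 14 (.s k222 k237 4 (.d k86
  k87 k18 0 9)))))) .n)))))) (.c k152 (.f k16 k32 3 (.q k85 [(.s k170 k255 14 (.s k154 k223 10 (.s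
  k207 k101 14 (.d k138 k186 k69 3 10)))), (.s k255 k170 14 (.s k184 k116 9 (.s k186 k117 10 (.s
  k185 k187 0 (.s k118 k51 10 (.d k254 k253 k50 0 9)))))), (.s k84 k168 13 (.s k154 k223 10 (.s k101
  k207 14 (.s k86 k87 0 (.d k116 k71 k184 4 9)))))] (.c k22 (.q k41 [(.s k170 k255 14 (.s k154 k223
  10 (.s k207 k101 14 (.d k138 k186 k69 3 10)))), (.s k255 k170 14 (.s k184 k116 9 (.s k186 k117 10
  (.s k185 k187 0 (.s k118 k51 10 (.d k254 k253 k50 0 9)))))), (.s k84 k168 13 (.s k154 k223 10 (.s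
  k101 k207 14 (.s k86 k87 0 (.d k116 k71 k184 4 9)))))] (.c k101 (.l (.s k168 k84 13 (.s k170 k255
  14 (.s k154 k223 10 (.s k184 k116 9 (.d k169 k171 k139 0 4)))))) (.c k239 (.l (.s k170 k255 14 (.s
  k154 k223 10 (.s k207 k101 14 (.d k138 k186 k69 3 10))))) (.c k255 (.l (.s k84 k168 13 (.s k154
  k223 10 (.s k207 k101 14 (.s k222 k237 4 (.d k86 k87 k18 0 9)))))) .n)))) (.c k41 (.q k22 [(.s
  k170 k255 14 (.s k154 k223 10 (.s k207 k101 14 (.d k138 k186 k69 3 10)))), (.s k84 k168 13 (.s k86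
  k87 0 (.s k150 k214 7 (.s k20 k215 8 (.s k23 k21 0 (.d k212 k148 k149 7 8)))))), (.s k255 k170 14
  (.s k154 k223 10 (.s k101 k207 14 (.d k117 k69 k186 3 10))))] (.c k255 (.l (.s k84 k168 13 (.s
  k154 k223 10 (.s k207 k101 14 (.s k222 k237 4 (.d k86 k87 k18 0 9)))))) .n)) (.c k101 (.l (.s k168
  k84 13 (.s k170 k255 14 (.s k154 k223 10 (.s k184 k116 9 (.d k169 k171 k139 0 4)))))) (.c k239 (.l
  (.s k170 k255 14 (.s k154 k223 10 (.s k207 k101 14 (.d k138 k186 k69 3 10))))) (.c k255 (.l (.s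
  k84 k168 13 (.s k154 k223 10 (.s k207 k101 14 (.s k222 k237 4 (.d k86 k87 k18 0 9)))))) .n)))))))
  (.c k168 (.q k255 [(.s k32 k16 3 (.s k186 k117 10 (.s k170 k85 14 (.s k154 k138 3 (.d k101 k239
  k207 10 14))))), (.s k116 k184 9 (.s k117 k186 10 (.s k118 k119 0 (.s k185 k51 10 (.d k253 k254
  k49 0 9))))), (.s k16 k32 3 (.s k85 k170 14 (.s k154 k223 10 (.s k184 k116 9 (.s k169 k139 4 (.d
  k253 k254 k1 0 13))))))] (.c k22 (.q k41 [(.s k32 k16 3 (.s k186 k117 10 (.s k170 k85 14 (.s k154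
  k138 3 (.d k101 k239 k207 10 14))))), (.s k116 k184 9 (.s k117 k186 10 (.s k118 k119 0 (.s k185
  k51 10 (.d k253 k254 k49 0 9))))), (.s k16 k32 3 (.s k85 k170 14 (.s k154 k223 10 (.s k184 k116 9
  (.s k169 k139 4 (.d k253 k254 k1 0 13))))))] .n) (.c k41 (.q k22 [(.s k32 k16 3 (.s k186 k117 10
  (.s k170 k85 14 (.s k154 k138 3 (.d k101 k239 k207 10 14))))), (.s k116 k184 9 (.s k117 k186 10
  (.s k118 k119 0 (.s k185 k51 10 (.d k253 k254 k49 0 9))))), (.s k16 k32 3 (.s k85 k170 14 (.s k154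
  k223 10 (.s k184 k116 9 (.s k169 k139 4 (.d k253 k254 k1 0 13))))))] .n) .n))) (.c k184 (.f k16
  k32 3 (.q k192 [(.s k128 k64 7 (.s k144 k96 11 (.s k80 k208 7 (.d k160 k176 k240 3 11)))), (.s k64
  k128 7 (.s k84 k168 13 (.s k152 k220 9 (.s k104 k124 5 (.s k200 k56 11 (.d k204 k100 k196 13
  1)))))), (.s k84 k168 13 (.s k152 k220 9 (.s k144 k96 11 (.s k148 k156 1 (.d k212 k232 k20 5
  7)))))] (.c k22 (.q k41 [(.s k128 k64 7 (.s k144 k96 11 (.s k80 k208 7 (.d k160 k176 k240 3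
  11)))), (.s k64 k128 7 (.s k84 k168 13 (.s k152 k220 9 (.s k104 k124 5 (.s k200 k56 11 (.d k204
  k100 k196 13 1)))))), (.s k84 k168 13 (.s k152 k220 9 (.s k144 k96 11 (.s k148 k156 1 (.d k212
  k232 k20 5 7)))))] .n) (.c k41 (.q k22 [(.s k128 k64 7 (.s k144 k96 11 (.s k80 k208 7 (.d k160
  k176 k240 3 11)))), (.s k64 k128 7 (.s k84 k168 13 (.s k152 k220 9 (.s k104 k124 5 (.s k200 k56 11
  (.d k204 k100 k196 13 1)))))), (.s k84 k168 13 (.s k152 k220 9 (.s k144 k96 11 (.s k148 k156 1 (.d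
  k212 k232 k20 5 7)))))] .n) .n)))) (.c k204 (.f k16 k32 3 (.q k85 [(.s k255 k170 14 (.s k154 k223
  10 (.s k184 k116 9 (.s k253 k254 0 (.d k169 k139 k1 4 13))))), (.s k170 k255 14 (.s k154 k223 10
  (.s k207 k101 14 (.d k138 k186 k69 3 10)))), (.s k84 k168 13 (.s k255 k170 14 (.s k116 k184 9 (.s
  k86 k87 0 (.s k101 k71 4 (.d k117 k69 k186 3 10))))))] (.c k22 (.q k41 [(.s k255 k170 14 (.s k154
  k223 10 (.s k184 k116 9 (.s k253 k254 0 (.d k169 k139 k1 4 13))))), (.s k170 k255 14 (.s k154 k223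
  10 (.s k207 k101 14 (.d k138 k186 k69 3 10)))), (.s k84 k168 13 (.s k255 k170 14 (.s k116 k184 9
  (.s k86 k87 0 (.s k101 k71 4 (.d k117 k69 k186 3 10))))))] (.c k70 (.q k137 [(.s k168 k84 13 (.s
  k154 k223 10 (.s k184 k116 9 (.s k136 k152 3 (.d k139 k138 k169 0 4))))), (.s k255 k170 14 (.s
  k253 k254 0 (.s k1 k169 13 (.s k69 k205 9 (.d k117 k101 k186 3 10))))), (.s k170 k255 14 (.s k154
  k223 10 (.s k207 k101 14 (.d k138 k186 k69 3 10))))] (.c k108 (.q k156 [(.s k168 k84 13 (.s k154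
  k223 10 (.s k184 k116 9 (.s k136 k152 3 (.d k139 k138 k169 0 4))))), (.s k255 k170 14 (.s k253
  k254 0 (.s k1 k169 13 (.s k69 k205 9 (.d k117 k101 k186 3 10))))), (.s k170 k255 14 (.s k154 k223
  10 (.s k207 k101 14 (.d k138 k186 k69 3 10))))] .n) (.c k156 (.q k108 [(.s k168 k84 13 (.s k154
  k223 10 (.s k184 k116 9 (.s k136 k152 3 (.d k139 k138 k169 0 4))))), (.s k255 k170 14 (.s k253
  k254 0 (.s k1 k169 13 (.s k69 k205 9 (.d k117 k101 k186 3 10))))), (.s k170 k255 14 (.s k154 k223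
  10 (.s k207 k101 14 (.d k138 k186 k69 3 10))))] .n) .n))) (.c k101 (.l (.s k168 k84 13 (.s k170
  k255 14 (.s k154 k223 10 (.s k184 k116 9 (.d k169 k171 k139 0 4)))))) (.c k108 (.q k156 [(.s k255
  k170 14 (.s k154 k223 10 (.s k184 k116 9 (.s k253 k254 0 (.d k169 k139 k1 4 13))))), (.s k170 k255
  14 (.s k154 k223 10 (.s k207 k101 14 (.d k138 k186 k69 3 10)))), (.s k84 k168 13 (.s k255 k170 14
  (.s k116 k184 9 (.s k86 k87 0 (.s k101 k71 4 (.d k117 k69 k186 3 10))))))] (.c k70 (.q k137 [(.s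
  k168 k84 13 (.s k154 k223 10 (.s k184 k116 9 (.s k136 k152 3 (.d k139 k138 k169 0 4))))), (.s k255
  k170 14 (.s k253 k254 0 (.s k1 k169 13 (.s k69 k205 9 (.d k117 k101 k186 3 10))))), (.s k170 k255
  14 (.s k154 k223 10 (.s k207 k101 14 (.d k138 k186 k69 3 10))))] .n) (.c k101 (.l (.s k168 k84 13
  (.s k170 k255 14 (.s k154 k223 10 (.s k184 k116 9 (.d k169 k171 k139 0 4)))))) (.c k137 (.q k70
  [(.s k170 k255 14 (.s k154 k223 10 (.s k207 k101 14 (.d k138 k186 k69 3 10)))), (.s k84 k168 13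
  (.s k116 k184 9 (.s k86 k87 0 (.s k102 k118 3 (.d k68 k100 k119 3 4))))), (.s k255 k170 14 (.s
  k154 k223 10 (.s k101 k207 14 (.d k117 k69 k186 3 10))))] (.c k255 (.l (.s k84 k168 13 (.s k154
  k223 10 (.s k207 k101 14 (.s k222 k237 4 (.d k86 k87 k18 0 9)))))) .n)) (.c k170 (.l (.s k84 k168
  13 (.s k154 k223 10 (.s k101 k207 14 (.s k116 k184 9 (.d k86 k71 k87 4 0)))))) (.c k239 (.l (.s
  k170 k255 14 (.s k154 k223 10 (.s k207 k101 14 (.d k138 k186 k69 3 10))))) (.c k255 (.l (.s k84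
  k168 13 (.s k154 k223 10 (.s k207 k101 14 (.s k222 k237 4 (.d k86 k87 k18 0 9)))))) .n))))))) (.c
  k137 (.q k70 [(.s k170 k255 14 (.s k154 k223 10 (.s k207 k101 14 (.d k138 k186 k69 3 10)))), (.s
  k84 k168 13 (.s k116 k184 9 (.s k86 k87 0 (.s k102 k118 3 (.d k68 k100 k119 3 4))))), (.s k255
  k170 14 (.s k154 k223 10 (.s k101 k207 14 (.d k117 k69 k186 3 10))))] (.c k108 (.q k156 [(.s k170
  k255 14 (.s k154 k223 10 (.s k207 k101 14 (.d k138 k186 k69 3 10)))), (.s k84 k168 13 (.s k116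
  k184 9 (.s k86 k87 0 (.s k102 k118 3 (.d k68 k100 k119 3 4))))), (.s k255 k170 14 (.s k154 k223 10
  (.s k101 k207 14 (.d k117 k69 k186 3 10))))] (.c k255 (.l (.s k84 k168 13 (.s k154 k223 10 (.s
  k207 k101 14 (.s k222 k237 4 (.d k86 k87 k18 0 9)))))) .n)) (.c k156 (.q k108 [(.s k170 k255 14
  (.s k154 k223 10 (.s k207 k101 14 (.d k138 k186 k69 3 10)))), (.s k84 k168 13 (.s k116 k184 9 (.s
  k86 k87 0 (.s k102 k118 3 (.d k68 k100 k119 3 4))))), (.s k255 k170 14 (.s k154 k223 10 (.s k101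
  k207 14 (.d k117 k69 k186 3 10))))] (.c k255 (.l (.s k84 k168 13 (.s k154 k223 10 (.s k207 k101 14
  (.s k222 k237 4 (.d k86 k87 k18 0 9)))))) .n)) (.c k255 (.l (.s k84 k168 13 (.s k154 k223 10 (.s
  k207 k101 14 (.s k222 k237 4 (.d k86 k87 k18 0 9)))))) .n)))) (.c k156 (.q k108 [(.s k255 k170 14
  (.s k154 k223 10 (.s k184 k116 9 (.s k253 k254 0 (.d k169 k139 k1 4 13))))), (.s k170 k255 14 (.s
  k154 k223 10 (.s k207 k101 14 (.d k138 k186 k69 3 10)))), (.s k84 k168 13 (.s k255 k170 14 (.s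
  k116 k184 9 (.s k86 k87 0 (.s k101 k71 4 (.d k117 k69 k186 3 10))))))] (.c k70 (.q k137 [(.s k168
  k84 13 (.s k154 k223 10 (.s k184 k116 9 (.s k136 k152 3 (.d k139 k138 k169 0 4))))), (.s k255 k170
  14 (.s k253 k254 0 (.s k1 k169 13 (.s k69 k205 9 (.d k117 k101 k186 3 10))))), (.s k170 k255 14
  (.s k154 k223 10 (.s k207 k101 14 (.d k138 k186 k69 3 10))))] .n) (.c k101 (.l (.s k168 k84 13 (.s
  k170 k255 14 (.s k154 k223 10 (.s k184 k116 9 (.d k169 k171 k139 0 4)))))) (.c k137 (.q k70 [(.s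
  k170 k255 14 (.s k154 k223 10 (.s k207 k101 14 (.d k138 k186 k69 3 10)))), (.s k84 k168 13 (.s
  k116 k184 9 (.s k86 k87 0 (.s k102 k118 3 (.d k68 k100 k119 3 4))))), (.s k255 k170 14 (.s k154
  k223 10 (.s k101 k207 14 (.d k117 k69 k186 3 10))))] (.c k255 (.l (.s k84 k168 13 (.s k154 k223 10
  (.s k207 k101 14 (.s k222 k237 4 (.d k86 k87 k18 0 9)))))) .n)) (.c k170 (.l (.s k84 k168 13 (.s
  k154 k223 10 (.s k101 k207 14 (.s k116 k184 9 (.d k86 k71 k87 4 0)))))) (.c k239 (.l (.s k170 k255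
  14 (.s k154 k223 10 (.s k207 k101 14 (.d k138 k186 k69 3 10))))) (.c k255 (.l (.s k84 k168 13 (.s
  k154 k223 10 (.s k207 k101 14 (.s k222 k237 4 (.d k86 k87 k18 0 9)))))) .n))))))) (.c k170 (.l (.s
  k84 k168 13 (.s k154 k223 10 (.s k101 k207 14 (.s k116 k184 9 (.d k86 k71 k87 4 0)))))) (.c k239
  (.l (.s k170 k255 14 (.s k154 k223 10 (.s k207 k101 14 (.d k138 k186 k69 3 10))))) (.c k255 (.l
  (.s k84 k168 13 (.s k154 k223 10 (.s k207 k101 14 (.s k222 k237 4 (.d k86 k87 k18 0 9))))))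
  .n))))))))) (.c k41 (.q k22 [(.s k255 k170 14 (.s k154 k223 10 (.s k184 k116 9 (.s k253 k254 0 (.d
  k169 k139 k1 4 13))))), (.s k170 k255 14 (.s k154 k223 10 (.s k207 k101 14 (.d k138 k186 k69 3
  10)))), (.s k84 k168 13 (.s k255 k170 14 (.s k116 k184 9 (.s k86 k87 0 (.s k101 k71 4 (.d k117 k69
  k186 3 10))))))] (.c k70 (.q k137 [(.s k168 k84 13 (.s k154 k223 10 (.s k184 k116 9 (.s k136 k152
  3 (.d k139 k138 k169 0 4))))), (.s k255 k170 14 (.s k253 k254 0 (.s k1 k169 13 (.s k69 k205 9 (.d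
  k117 k101 k186 3 10))))), (.s k170 k255 14 (.s k154 k223 10 (.s k207 k101 14 (.d k138 k186 k69 3
  10))))] (.c k108 (.q k156 [(.s k170 k255 14 (.s k154 k223 10 (.s k207 k101 14 (.d k138 k186 k69 3
  10)))), (.s k84 k168 13 (.s k220 k152 9 (.s k28 k92 7 (.s k19 k25 2 (.d k86 k87 k153 0 10)))))]
  (.c k87 (.l (.s k255 k170 14 (.s k154 k223 10 (.s k101 k207 14 (.d k117 k69 k186 3 10))))) .n))
  (.c k156 (.q k108 [(.s k168 k84 13 (.s k154 k223 10 (.s k184 k116 9 (.s k136 k152 3 (.d k139 k138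
  k169 0 4))))), (.s k255 k170 14 (.s k253 k254 0 (.s k1 k169 13 (.s k69 k205 9 (.d k117 k101 k186 3
  10))))), (.s k170 k255 14 (.s k154 k223 10 (.s k207 k101 14 (.d k138 k186 k69 3 10))))] .n) .n)))
  (.c k101 (.l (.s k168 k84 13 (.s k170 k255 14 (.s k154 k223 10 (.s k184 k116 9 (.d k169 k171 k139
  0 4)))))) (.c k108 (.q k156 [(.s k170 k255 14 (.s k154 k223 10 (.s k207 k101 14 (.d k138 k186 k69
  3 10)))), (.s k84 k168 13 (.s k220 k152 9 (.s k28 k92 7 (.s k19 k25 2 (.d k86 k87 k153 0 10)))))]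
  (.c k70 (.q k137 [(.s k170 k255 14 (.s k154 k223 10 (.s k207 k101 14 (.d k138 k186 k69 3 10)))),
  (.s k84 k168 13 (.s k220 k152 9 (.s k28 k92 7 (.s k19 k25 2 (.d k86 k87 k153 0 10)))))] (.c k87
  (.l (.s k255 k170 14 (.s k154 k223 10 (.s k101 k207 14 (.d k117 k69 k186 3 10))))) .n)) (.c k87
  (.l (.s k255 k170 14 (.s k154 k223 10 (.s k101 k207 14 (.d k117 k69 k186 3 10))))) (.c k137 (.q
  k70 [(.s k170 k255 14 (.s k154 k223 10 (.s k207 k101 14 (.d k138 k186 k69 3 10)))), (.s k84 k168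
  13 (.s k220 k152 9 (.s k28 k92 7 (.s k19 k25 2 (.d k86 k87 k153 0 10)))))] (.c k87 (.l (.s k255
  k170 14 (.s k154 k223 10 (.s k101 k207 14 (.d k117 k69 k186 3 10))))) .n)) .n)))) (.c k137 (.q k70
  [(.s k170 k255 14 (.s k154 k223 10 (.s k207 k101 14 (.d k138 k186 k69 3 10)))), (.s k84 k168 13
  (.s k116 k184 9 (.s k86 k87 0 (.s k102 k118 3 (.d k68 k100 k119 3 4))))), (.s k255 k170 14 (.s
  k154 k223 10 (.s k101 k207 14 (.d k117 k69 k186 3 10))))] (.c k108 (.q k156 [(.s k170 k255 14 (.s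
  k154 k223 10 (.s k207 k101 14 (.d k138 k186 k69 3 10)))), (.s k84 k168 13 (.s k220 k152 9 (.s k28
  k92 7 (.s k19 k25 2 (.d k86 k87 k153 0 10)))))] (.c k87 (.l (.s k255 k170 14 (.s k154 k223 10 (.s
  k101 k207 14 (.d k117 k69 k186 3 10))))) .n)) (.c k156 (.q k108 [(.s k170 k255 14 (.s k154 k223 10
  (.s k207 k101 14 (.d k138 k186 k69 3 10)))), (.s k84 k168 13 (.s k116 k184 9 (.s k86 k87 0 (.s
  k102 k118 3 (.d k68 k100 k119 3 4))))), (.s k255 k170 14 (.s k154 k223 10 (.s k101 k207 14 (.d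
  k117 k69 k186 3 10))))] (.c k255 (.l (.s k84 k168 13 (.s k154 k223 10 (.s k207 k101 14 (.s k222
  k237 4 (.d k86 k87 k18 0 9)))))) .n)) (.c k255 (.l (.s k84 k168 13 (.s k154 k223 10 (.s k207 k101
  14 (.s k222 k237 4 (.d k86 k87 k18 0 9)))))) .n)))) (.c k156 (.q k108 [(.s k255 k170 14 (.s k154
  k223 10 (.s k184 k116 9 (.s k253 k254 0 (.d k169 k139 k1 4 13))))), (.s k170 k255 14 (.s k154 k223
  10 (.s k207 k101 14 (.d k138 k186 k69 3 10)))), (.s k84 k168 13 (.s k255 k170 14 (.s k116 k184 9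
  (.s k86 k87 0 (.s k101 k71 4 (.d k117 k69 k186 3 10))))))] (.c k70 (.q k137 [(.s k168 k84 13 (.s
  k154 k223 10 (.s k184 k116 9 (.s k136 k152 3 (.d k139 k138 k169 0 4))))), (.s k255 k170 14 (.s
  k253 k254 0 (.s k1 k169 13 (.s k69 k205 9 (.d k117 k101 k186 3 10))))), (.s k170 k255 14 (.s k154
  k223 10 (.s k207 k101 14 (.d k138 k186 k69 3 10))))] .n) (.c k101 (.l (.s k168 k84 13 (.s k170
  k255 14 (.s k154 k223 10 (.s k184 k116 9 (.d k169 k171 k139 0 4)))))) (.c k137 (.q k70 [(.s k170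
  k255 14 (.s k154 k223 10 (.s k207 k101 14 (.d k138 k186 k69 3 10)))), (.s k84 k168 13 (.s k116
  k184 9 (.s k86 k87 0 (.s k102 k118 3 (.d k68 k100 k119 3 4))))), (.s k255 k170 14 (.s k154 k223 10
  (.s k101 k207 14 (.d k117 k69 k186 3 10))))] (.c k255 (.l (.s k84 k168 13 (.s k154 k223 10 (.s
  k207 k101 14 (.s k222 k237 4 (.d k86 k87 k18 0 9)))))) .n)) (.c k170 (.l (.s k84 k168 13 (.s k154
  k223 10 (.s k101 k207 14 (.s k116 k184 9 (.d k86 k71 k87 4 0)))))) (.c k239 (.l (.s k170 k255 14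
  (.s k154 k223 10 (.s k207 k101 14 (.d k138 k186 k69 3 10))))) (.c k255 (.l (.s k84 k168 13 (.s
  k154 k223 10 (.s k207 k101 14 (.s k222 k237 4 (.d k86 k87 k18 0 9)))))) .n))))))) (.c k170 (.l (.s
  k84 k168 13 (.s k154 k223 10 (.s k101 k207 14 (.s k116 k184 9 (.d k86 k71 k87 4 0)))))) (.c k239
  (.l (.s k170 k255 14 (.s k154 k223 10 (.s k207 k101 14 (.d k138 k186 k69 3 10))))) (.c k255 (.l
  (.s k84 k168 13 (.s k154 k223 10 (.s k207 k101 14 (.s k222 k237 4 (.d k86 k87 k18 0 9))))))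
  .n))))))))) (.c k70 (.q k137 [(.s k168 k84 13 (.s k154 k223 10 (.s k184 k116 9 (.s k136 k152 3 (.d
  k139 k138 k169 0 4))))), (.s k255 k170 14 (.s k253 k254 0 (.s k1 k169 13 (.s k69 k205 9 (.d k117
  k101 k186 3 10))))), (.s k170 k255 14 (.s k154 k223 10 (.s k207 k101 14 (.d k138 k186 k69 3
  10))))] (.c k22 (.q k41 [(.s k168 k84 13 (.s k154 k223 10 (.s k184 k116 9 (.s k136 k152 3 (.d k139
  k138 k169 0 4))))), (.s k255 k170 14 (.s k253 k254 0 (.s k1 k169 13 (.s k69 k205 9 (.d k117 k101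
  k186 3 10))))), (.s k170 k255 14 (.s k154 k223 10 (.s k207 k101 14 (.d k138 k186 k69 3 10))))] (.c
  k108 (.q k156 [(.s k168 k84 13 (.s k154 k223 10 (.s k184 k116 9 (.s k136 k152 3 (.d k139 k138 k169
  0 4))))), (.s k255 k170 14 (.s k253 k254 0 (.s k1 k169 13 (.s k69 k205 9 (.d k117 k101 k186 3
  10))))), (.s k170 k255 14 (.s k154 k223 10 (.s k207 k101 14 (.d k138 k186 k69 3 10))))] .n) (.c
  k156 (.q k108 [(.s k168 k84 13 (.s k154 k223 10 (.s k184 k116 9 (.s k136 k152 3 (.d k139 k138 k169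
  0 4))))), (.s k255 k170 14 (.s k253 k254 0 (.s k1 k169 13 (.s k69 k205 9 (.d k117 k101 k186 3
  10))))), (.s k170 k255 14 (.s k154 k223 10 (.s k207 k101 14 (.d k138 k186 k69 3 10))))] .n) .n)))
  (.c k41 (.q k22 [(.s k168 k84 13 (.s k154 k223 10 (.s k184 k116 9 (.s k136 k152 3 (.d k139 k138
  k169 0 4))))), (.s k255 k170 14 (.s k253 k254 0 (.s k1 k169 13 (.s k69 k205 9 (.d k117 k101 k186 3
  10))))), (.s k170 k255 14 (.s k154 k223 10 (.s k207 k101 14 (.d k138 k186 k69 3 10))))] (.c k108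
  (.q k156 [(.s k170 k255 14 (.s k154 k223 10 (.s k207 k101 14 (.d k138 k186 k69 3 10)))), (.s k84
  k168 13 (.s k220 k152 9 (.s k28 k92 7 (.s k19 k25 2 (.d k86 k87 k153 0 10)))))] (.c k87 (.l (.s
  k255 k170 14 (.s k154 k223 10 (.s k101 k207 14 (.d k117 k69 k186 3 10))))) .n)) (.c k156 (.q k108
  [(.s k168 k84 13 (.s k154 k223 10 (.s k184 k116 9 (.s k136 k152 3 (.d k139 k138 k169 0 4))))), (.s
  k255 k170 14 (.s k253 k254 0 (.s k1 k169 13 (.s k69 k205 9 (.d k117 k101 k186 3 10))))), (.s k170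
  k255 14 (.s k154 k223 10 (.s k207 k101 14 (.d k138 k186 k69 3 10))))] .n) .n))) (.c k108 (.q k156
  [(.s k168 k84 13 (.s k154 k223 10 (.s k184 k116 9 (.s k136 k152 3 (.d k139 k138 k169 0 4))))), (.s
  k255 k170 14 (.s k253 k254 0 (.s k1 k169 13 (.s k69 k205 9 (.d k117 k101 k186 3 10))))), (.s k170
  k255 14 (.s k154 k223 10 (.s k207 k101 14 (.d k138 k186 k69 3 10))))] (.c k22 (.q k41 [(.s k168
  k84 13 (.s k154 k223 10 (.s k184 k116 9 (.s k136 k152 3 (.d k139 k138 k169 0 4))))), (.s k255 k170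
  14 (.s k253 k254 0 (.s k1 k169 13 (.s k69 k205 9 (.d k117 k101 k186 3 10))))), (.s k170 k255 14
  (.s k154 k223 10 (.s k207 k101 14 (.d k138 k186 k69 3 10))))] .n) (.c k41 (.q k22 [(.s k170 k255
  14 (.s k154 k223 10 (.s k207 k101 14 (.d k138 k186 k69 3 10)))), (.s k84 k168 13 (.s k220 k152 9
  (.s k28 k92 7 (.s k19 k25 2 (.d k86 k87 k153 0 10)))))] (.c k87 (.l (.s k255 k170 14 (.s k154 k223
  10 (.s k101 k207 14 (.d k117 k69 k186 3 10))))) .n)) .n))) (.c k156 (.q k108 [(.s k168 k84 13 (.s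
  k154 k223 10 (.s k184 k116 9 (.s k136 k152 3 (.d k139 k138 k169 0 4))))), (.s k255 k170 14 (.s
  k253 k254 0 (.s k1 k169 13 (.s k69 k205 9 (.d k117 k101 k186 3 10))))), (.s k170 k255 14 (.s k154
  k223 10 (.s k207 k101 14 (.d k138 k186 k69 3 10))))] (.c k22 (.q k41 [(.s k168 k84 13 (.s k154
  k223 10 (.s k184 k116 9 (.s k136 k152 3 (.d k139 k138 k169 0 4))))), (.s k255 k170 14 (.s k253
  k254 0 (.s k1 k169 13 (.s k69 k205 9 (.d k117 k101 k186 3 10))))), (.s k170 k255 14 (.s k154 k223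
  10 (.s k207 k101 14 (.d k138 k186 k69 3 10))))] .n) (.c k41 (.q k22 [(.s k168 k84 13 (.s k154 k223
  10 (.s k184 k116 9 (.s k136 k152 3 (.d k139 k138 k169 0 4))))), (.s k255 k170 14 (.s k253 k254 0
  (.s k1 k169 13 (.s k69 k205 9 (.d k117 k101 k186 3 10))))), (.s k170 k255 14 (.s k154 k223 10 (.s
  k207 k101 14 (.d k138 k186 k69 3 10))))] .n) .n))) .n))))) (.c k101 (.l (.s k168 k84 13 (.s k170
  k255 14 (.s k154 k223 10 (.s k184 k116 9 (.d k169 k171 k139 0 4)))))) (.c k108 (.q k156 [(.s k255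
  k170 14 (.s k154 k223 10 (.s k184 k116 9 (.s k253 k254 0 (.d k169 k139 k1 4 13))))), (.s k170 k255
  14 (.s k154 k223 10 (.s k207 k101 14 (.d k138 k186 k69 3 10)))), (.s k84 k168 13 (.s k255 k170 14
  (.s k116 k184 9 (.s k86 k87 0 (.s k101 k71 4 (.d k117 k69 k186 3 10))))))] (.c k22 (.q k41 [(.s
  k255 k170 14 (.s k154 k223 10 (.s k184 k116 9 (.s k253 k254 0 (.d k169 k139 k1 4 13))))), (.s k170
  k255 14 (.s k154 k223 10 (.s k207 k101 14 (.d k138 k186 k69 3 10)))), (.s k84 k168 13 (.s k255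
  k170 14 (.s k116 k184 9 (.s k86 k87 0 (.s k101 k71 4 (.d k117 k69 k186 3 10))))))] (.c k70 (.q
  k137 [(.s k168 k84 13 (.s k154 k223 10 (.s k184 k116 9 (.s k136 k152 3 (.d k139 k138 k169 0
  4))))), (.s k255 k170 14 (.s k253 k254 0 (.s k1 k169 13 (.s k69 k205 9 (.d k117 k101 k186 3
  10))))), (.s k170 k255 14 (.s k154 k223 10 (.s k207 k101 14 (.d k138 k186 k69 3 10))))] .n) (.c
  k101 (.l (.s k168 k84 13 (.s k170 k255 14 (.s k154 k223 10 (.s k184 k116 9 (.d k169 k171 k139 0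
  4)))))) (.c k137 (.q k70 [(.s k170 k255 14 (.s k154 k223 10 (.s k207 k101 14 (.d k138 k186 k69 3
  10)))), (.s k84 k168 13 (.s k116 k184 9 (.s k86 k87 0 (.s k102 k118 3 (.d k68 k100 k119 3 4))))),
  (.s k255 k170 14 (.s k154 k223 10 (.s k101 k207 14 (.d k117 k69 k186 3 10))))] (.c k255 (.l (.s
  k84 k168 13 (.s k154 k223 10 (.s k207 k101 14 (.s k222 k237 4 (.d k86 k87 k18 0 9)))))) .n)) (.c
  k170 (.l (.s k84 k168 13 (.s k154 k223 10 (.s k101 k207 14 (.s k116 k184 9 (.d k86 k71 k87 4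
  0)))))) (.c k239 (.l (.s k170 k255 14 (.s k154 k223 10 (.s k207 k101 14 (.d k138 k186 k69 3
  10))))) (.c k255 (.l (.s k84 k168 13 (.s k154 k223 10 (.s k207 k101 14 (.s k222 k237 4 (.d k86 k87
  k18 0 9)))))) .n))))))) (.c k41 (.q k22 [(.s k170 k255 14 (.s k154 k223 10 (.s k207 k101 14 (.d
  k138 k186 k69 3 10)))), (.s k84 k168 13 (.s k220 k152 9 (.s k28 k92 7 (.s k19 k25 2 (.d k86 k87
  k153 0 10)))))] (.c k70 (.q k137 [(.s k170 k255 14 (.s k154 k223 10 (.s k207 k101 14 (.d k138 k186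
  k69 3 10)))), (.s k84 k168 13 (.s k220 k152 9 (.s k28 k92 7 (.s k19 k25 2 (.d k86 k87 k153 0
  10)))))] (.c k87 (.l (.s k255 k170 14 (.s k154 k223 10 (.s k101 k207 14 (.d k117 k69 k186 3
  10))))) .n)) (.c k87 (.l (.s k255 k170 14 (.s k154 k223 10 (.s k101 k207 14 (.d k117 k69 k186 3
  10))))) (.c k137 (.q k70 [(.s k170 k255 14 (.s k154 k223 10 (.s k207 k101 14 (.d k138 k186 k69 3
  10)))), (.s k84 k168 13 (.s k220 k152 9 (.s k28 k92 7 (.s k19 k25 2 (.d k86 k87 k153 0 10)))))]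
  (.c k87 (.l (.s k255 k170 14 (.s k154 k223 10 (.s k101 k207 14 (.d k117 k69 k186 3 10))))) .n))
  .n)))) (.c k70 (.q k137 [(.s k168 k84 13 (.s k154 k223 10 (.s k184 k116 9 (.s k136 k152 3 (.d k139
  k138 k169 0 4))))), (.s k255 k170 14 (.s k253 k254 0 (.s k1 k169 13 (.s k69 k205 9 (.d k117 k101
  k186 3 10))))), (.s k170 k255 14 (.s k154 k223 10 (.s k207 k101 14 (.d k138 k186 k69 3 10))))] (.c
  k22 (.q k41 [(.s k168 k84 13 (.s k154 k223 10 (.s k184 k116 9 (.s k136 k152 3 (.d k139 k138 k169 0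
  4))))), (.s k255 k170 14 (.s k253 k254 0 (.s k1 k169 13 (.s k69 k205 9 (.d k117 k101 k186 3
  10))))), (.s k170 k255 14 (.s k154 k223 10 (.s k207 k101 14 (.d k138 k186 k69 3 10))))] .n) (.c
  k41 (.q k22 [(.s k170 k255 14 (.s k154 k223 10 (.s k207 k101 14 (.d k138 k186 k69 3 10)))), (.s
  k84 k168 13 (.s k220 k152 9 (.s k28 k92 7 (.s k19 k25 2 (.d k86 k87 k153 0 10)))))] (.c k87 (.l
  (.s k255 k170 14 (.s k154 k223 10 (.s k101 k207 14 (.d k117 k69 k186 3 10))))) .n)) .n))) (.c k101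
  (.l (.s k168 k84 13 (.s k170 k255 14 (.s k154 k223 10 (.s k184 k116 9 (.d k169 k171 k139 0 4))))))
  (.c k137 (.q k70 [(.s k170 k255 14 (.s k154 k223 10 (.s k207 k101 14 (.d k138 k186 k69 3 10)))),
  (.s k84 k168 13 (.s k116 k184 9 (.s k86 k87 0 (.s k102 k118 3 (.d k68 k100 k119 3 4))))), (.s k255
  k170 14 (.s k154 k223 10 (.s k101 k207 14 (.d k117 k69 k186 3 10))))] (.c k22 (.q k41 [(.s k170
  k255 14 (.s k154 k223 10 (.s k207 k101 14 (.d k138 k186 k69 3 10)))), (.s k84 k168 13 (.s k116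
  k184 9 (.s k86 k87 0 (.s k102 k118 3 (.d k68 k100 k119 3 4))))), (.s k255 k170 14 (.s k154 k223 10
  (.s k101 k207 14 (.d k117 k69 k186 3 10))))] (.c k255 (.l (.s k84 k168 13 (.s k154 k223 10 (.s
  k207 k101 14 (.s k222 k237 4 (.d k86 k87 k18 0 9)))))) .n)) (.c k41 (.q k22 [(.s k170 k255 14 (.s
  k154 k223 10 (.s k207 k101 14 (.d k138 k186 k69 3 10)))), (.s k84 k168 13 (.s k220 k152 9 (.s k28
  k92 7 (.s k19 k25 2 (.d k86 k87 k153 0 10)))))] (.c k87 (.l (.s k255 k170 14 (.s k154 k223 10 (.s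
  k101 k207 14 (.d k117 k69 k186 3 10))))) .n)) (.c k255 (.l (.s k84 k168 13 (.s k154 k223 10 (.s
  k207 k101 14 (.s k222 k237 4 (.d k86 k87 k18 0 9)))))) .n)))) (.c k170 (.l (.s k84 k168 13 (.s
  k154 k223 10 (.s k101 k207 14 (.s k116 k184 9 (.d k86 k71 k87 4 0)))))) (.c k239 (.l (.s k170 k255
  14 (.s k154 k223 10 (.s k207 k101 14 (.d k138 k186 k69 3 10))))) (.c k255 (.l (.s k84 k168 13 (.s
  k154 k223 10 (.s k207 k101 14 (.s k222 k237 4 (.d k86 k87 k18 0 9)))))) .n))))))))) (.c k137 (.q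
  k70 [(.s k170 k255 14 (.s k154 k223 10 (.s k207 k101 14 (.d k138 k186 k69 3 10)))), (.s k84 k168
  13 (.s k116 k184 9 (.s k86 k87 0 (.s k102 k118 3 (.d k68 k100 k119 3 4))))), (.s k255 k170 14 (.s
  k154 k223 10 (.s k101 k207 14 (.d k117 k69 k186 3 10))))] (.c k22 (.q k41 [(.s k170 k255 14 (.s
  k154 k223 10 (.s k207 k101 14 (.d k138 k186 k69 3 10)))), (.s k84 k168 13 (.s k116 k184 9 (.s k86
  k87 0 (.s k102 k118 3 (.d k68 k100 k119 3 4))))), (.s k255 k170 14 (.s k154 k223 10 (.s k101 k207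
  14 (.d k117 k69 k186 3 10))))] (.c k108 (.q k156 [(.s k170 k255 14 (.s k154 k223 10 (.s k207 k101
  14 (.d k138 k186 k69 3 10)))), (.s k84 k168 13 (.s k116 k184 9 (.s k86 k87 0 (.s k102 k118 3 (.d
  k68 k100 k119 3 4))))), (.s k255 k170 14 (.s k154 k223 10 (.s k101 k207 14 (.d k117 k69 k186 3
  10))))] (.c k255 (.l (.s k84 k168 13 (.s k154 k223 10 (.s k207 k101 14 (.s k222 k237 4 (.d k86 k87
  k18 0 9)))))) .n)) (.c k156 (.q k108 [(.s k170 k255 14 (.s k154 k223 10 (.s k207 k101 14 (.d k138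
  k186 k69 3 10)))), (.s k84 k168 13 (.s k116 k184 9 (.s k86 k87 0 (.s k102 k118 3 (.d k68 k100 k119
  3 4))))), (.s k255 k170 14 (.s k154 k223 10 (.s k101 k207 14 (.d k117 k69 k186 3 10))))] (.c k255
  (.l (.s k84 k168 13 (.s k154 k223 10 (.s k207 k101 14 (.s k222 k237 4 (.d k86 k87 k18 0 9))))))
  .n)) (.c k255 (.l (.s k84 k168 13 (.s k154 k223 10 (.s k207 k101 14 (.s k222 k237 4 (.d k86 k87
  k18 0 9)))))) .n)))) (.c k41 (.q k22 [(.s k170 k255 14 (.s k154 k223 10 (.s k207 k101 14 (.d k138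
  k186 k69 3 10)))), (.s k84 k168 13 (.s k116 k184 9 (.s k86 k87 0 (.s k102 k118 3 (.d k68 k100 k119
  3 4))))), (.s k255 k170 14 (.s k154 k223 10 (.s k101 k207 14 (.d k117 k69 k186 3 10))))] (.c k108
  (.q k156 [(.s k170 k255 14 (.s k154 k223 10 (.s k207 k101 14 (.d k138 k186 k69 3 10)))), (.s k84
  k168 13 (.s k220 k152 9 (.s k28 k92 7 (.s k19 k25 2 (.d k86 k87 k153 0 10)))))] (.c k87 (.l (.s
  k255 k170 14 (.s k154 k223 10 (.s k101 k207 14 (.d k117 k69 k186 3 10))))) .n)) (.c k156 (.q k108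
  [(.s k170 k255 14 (.s k154 k223 10 (.s k207 k101 14 (.d k138 k186 k69 3 10)))), (.s k84 k168 13
  (.s k116 k184 9 (.s k86 k87 0 (.s k102 k118 3 (.d k68 k100 k119 3 4))))), (.s k255 k170 14 (.s
  k154 k223 10 (.s k101 k207 14 (.d k117 k69 k186 3 10))))] (.c k255 (.l (.s k84 k168 13 (.s k154
  k223 10 (.s k207 k101 14 (.s k222 k237 4 (.d k86 k87 k18 0 9)))))) .n)) (.c k255 (.l (.s k84 k168
  13 (.s k154 k223 10 (.s k207 k101 14 (.s k222 k237 4 (.d k86 k87 k18 0 9)))))) .n)))) (.c k108 (.q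
  k156 [(.s k170 k255 14 (.s k154 k223 10 (.s k207 k101 14 (.d k138 k186 k69 3 10)))), (.s k84 k168
  13 (.s k116 k184 9 (.s k86 k87 0 (.s k102 k118 3 (.d k68 k100 k119 3 4))))), (.s k255 k170 14 (.s
  k154 k223 10 (.s k101 k207 14 (.d k117 k69 k186 3 10))))] (.c k22 (.q k41 [(.s k170 k255 14 (.s
  k154 k223 10 (.s k207 k101 14 (.d k138 k186 k69 3 10)))), (.s k84 k168 13 (.s k116 k184 9 (.s k86
  k87 0 (.s k102 k118 3 (.d k68 k100 k119 3 4))))), (.s k255 k170 14 (.s k154 k223 10 (.s k101 k207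
  14 (.d k117 k69 k186 3 10))))] (.c k255 (.l (.s k84 k168 13 (.s k154 k223 10 (.s k207 k101 14 (.s
  k222 k237 4 (.d k86 k87 k18 0 9)))))) .n)) (.c k41 (.q k22 [(.s k170 k255 14 (.s k154 k223 10 (.s
  k207 k101 14 (.d k138 k186 k69 3 10)))), (.s k84 k168 13 (.s k220 k152 9 (.s k28 k92 7 (.s k19 k25
  2 (.d k86 k87 k153 0 10)))))] (.c k87 (.l (.s k255 k170 14 (.s k154 k223 10 (.s k101 k207 14 (.d
  k117 k69 k186 3 10))))) .n)) (.c k255 (.l (.s k84 k168 13 (.s k154 k223 10 (.s k207 k101 14 (.s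
  k222 k237 4 (.d k86 k87 k18 0 9)))))) .n)))) (.c k156 (.q k108 [(.s k170 k255 14 (.s k154 k223 10
  (.s k207 k101 14 (.d k138 k186 k69 3 10)))), (.s k84 k168 13 (.s k116 k184 9 (.s k86 k87 0 (.s
  k102 k118 3 (.d k68 k100 k119 3 4))))), (.s k255 k170 14 (.s k154 k223 10 (.s k101 k207 14 (.d
  k117 k69 k186 3 10))))] (.c k22 (.q k41 [(.s k170 k255 14 (.s k154 k223 10 (.s k207 k101 14 (.d
  k138 k186 k69 3 10)))), (.s k84 k168 13 (.s k116 k184 9 (.s k86 k87 0 (.s k102 k118 3 (.d k68 k100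
  k119 3 4))))), (.s k255 k170 14 (.s k154 k223 10 (.s k101 k207 14 (.d k117 k69 k186 3 10))))] (.c
  k255 (.l (.s k84 k168 13 (.s k154 k223 10 (.s k207 k101 14 (.s k222 k237 4 (.d k86 k87 k18 0
  9)))))) .n)) (.c k41 (.q k22 [(.s k170 k255 14 (.s k154 k223 10 (.s k207 k101 14 (.d k138 k186 k69
  3 10)))), (.s k84 k168 13 (.s k116 k184 9 (.s k86 k87 0 (.s k102 k118 3 (.d k68 k100 k119 3
  4))))), (.s k255 k170 14 (.s k154 k223 10 (.s k101 k207 14 (.d k117 k69 k186 3 10))))] (.c k255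
  (.l (.s k84 k168 13 (.s k154 k223 10 (.s k207 k101 14 (.s k222 k237 4 (.d k86 k87 k18 0 9))))))
  .n)) (.c k255 (.l (.s k84 k168 13 (.s k154 k223 10 (.s k207 k101 14 (.s k222 k237 4 (.d k86 k87
  k18 0 9)))))) .n)))) (.c k255 (.l (.s k84 k168 13 (.s k154 k223 10 (.s k207 k101 14 (.s k222 k237
  4 (.d k86 k87 k18 0 9)))))) .n)))))) (.c k156 (.q k108 [(.s k255 k170 14 (.s k154 k223 10 (.s k184
  k116 9 (.s k253 k254 0 (.d k169 k139 k1 4 13))))), (.s k170 k255 14 (.s k154 k223 10 (.s k207 k101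
  14 (.d k138 k186 k69 3 10)))), (.s k84 k168 13 (.s k255 k170 14 (.s k116 k184 9 (.s k86 k87 0 (.s
  k101 k71 4 (.d k117 k69 k186 3 10))))))] (.c k22 (.q k41 [(.s k255 k170 14 (.s k154 k223 10 (.s
  k184 k116 9 (.s k253 k254 0 (.d k169 k139 k1 4 13))))), (.s k170 k255 14 (.s k154 k223 10 (.s k207
  k101 14 (.d k138 k186 k69 3 10)))), (.s k84 k168 13 (.s k255 k170 14 (.s k116 k184 9 (.s k86 k87 0
  (.s k101 k71 4 (.d k117 k69 k186 3 10))))))] (.c k70 (.q k137 [(.s k168 k84 13 (.s k154 k223 10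
  (.s k184 k116 9 (.s k136 k152 3 (.d k139 k138 k169 0 4))))), (.s k255 k170 14 (.s k253 k254 0 (.s
  k1 k169 13 (.s k69 k205 9 (.d k117 k101 k186 3 10))))), (.s k170 k255 14 (.s k154 k223 10 (.s k207
  k101 14 (.d k138 k186 k69 3 10))))] .n) (.c k101 (.l (.s k168 k84 13 (.s k170 k255 14 (.s k154
  k223 10 (.s k184 k116 9 (.d k169 k171 k139 0 4)))))) (.c k137 (.q k70 [(.s k170 k255 14 (.s k154
  k223 10 (.s k207 k101 14 (.d k138 k186 k69 3 10)))), (.s k84 k168 13 (.s k116 k184 9 (.s k86 k87 0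
  (.s k102 k118 3 (.d k68 k100 k119 3 4))))), (.s k255 k170 14 (.s k154 k223 10 (.s k101 k207 14 (.d
  k117 k69 k186 3 10))))] (.c k255 (.l (.s k84 k168 13 (.s k154 k223 10 (.s k207 k101 14 (.s k222
  k237 4 (.d k86 k87 k18 0 9)))))) .n)) (.c k170 (.l (.s k84 k168 13 (.s k154 k223 10 (.s k101 k207
  14 (.s k116 k184 9 (.d k86 k71 k87 4 0)))))) (.c k239 (.l (.s k170 k255 14 (.s k154 k223 10 (.s
  k207 k101 14 (.d k138 k186 k69 3 10))))) (.c k255 (.l (.s k84 k168 13 (.s k154 k223 10 (.s k207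
  k101 14 (.s k222 k237 4 (.d k86 k87 k18 0 9)))))) .n))))))) (.c k41 (.q k22 [(.s k255 k170 14 (.s
  k154 k223 10 (.s k184 k116 9 (.s k253 k254 0 (.d k169 k139 k1 4 13))))), (.s k170 k255 14 (.s k154
  k223 10 (.s k207 k101 14 (.d k138 k186 k69 3 10)))), (.s k84 k168 13 (.s k255 k170 14 (.s k116
  k184 9 (.s k86 k87 0 (.s k101 k71 4 (.d k117 k69 k186 3 10))))))] (.c k70 (.q k137 [(.s k168 k84
  13 (.s k154 k223 10 (.s k184 k116 9 (.s k136 k152 3 (.d k139 k138 k169 0 4))))), (.s k255 k170 14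
  (.s k253 k254 0 (.s k1 k169 13 (.s k69 k205 9 (.d k117 k101 k186 3 10))))), (.s k170 k255 14 (.s
  k154 k223 10 (.s k207 k101 14 (.d k138 k186 k69 3 10))))] .n) (.c k101 (.l (.s k168 k84 13 (.s
  k170 k255 14 (.s k154 k223 10 (.s k184 k116 9 (.d k169 k171 k139 0 4)))))) (.c k137 (.q k70 [(.s
  k170 k255 14 (.s k154 k223 10 (.s k207 k101 14 (.d k138 k186 k69 3 10)))), (.s k84 k168 13 (.s
  k116 k184 9 (.s k86 k87 0 (.s k102 k118 3 (.d k68 k100 k119 3 4))))), (.s k255 k170 14 (.s k154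
  k223 10 (.s k101 k207 14 (.d k117 k69 k186 3 10))))] (.c k255 (.l (.s k84 k168 13 (.s k154 k223 10
  (.s k207 k101 14 (.s k222 k237 4 (.d k86 k87 k18 0 9)))))) .n)) (.c k170 (.l (.s k84 k168 13 (.s
  k154 k223 10 (.s k101 k207 14 (.s k116 k184 9 (.d k86 k71 k87 4 0)))))) (.c k239 (.l (.s k170 k255
  14 (.s k154 k223 10 (.s k207 k101 14 (.d k138 k186 k69 3 10))))) (.c k255 (.l (.s k84 k168 13 (.s
  k154 k223 10 (.s k207 k101 14 (.s k222 k237 4 (.d k86 k87 k18 0 9)))))) .n))))))) (.c k70 (.q k137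
  [(.s k168 k84 13 (.s k154 k223 10 (.s k184 k116 9 (.s k136 k152 3 (.d k139 k138 k169 0 4))))), (.s
  k255 k170 14 (.s k253 k254 0 (.s k1 k169 13 (.s k69 k205 9 (.d k117 k101 k186 3 10))))), (.s k170
  k255 14 (.s k154 k223 10 (.s k207 k101 14 (.d k138 k186 k69 3 10))))] (.c k22 (.q k41 [(.s k168
  k84 13 (.s k154 k223 10 (.s k184 k116 9 (.s k136 k152 3 (.d k139 k138 k169 0 4))))), (.s k255 k170
  14 (.s k253 k254 0 (.s k1 k169 13 (.s k69 k205 9 (.d k117 k101 k186 3 10))))), (.s k170 k255 14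
  (.s k154 k223 10 (.s k207 k101 14 (.d k138 k186 k69 3 10))))] .n) (.c k41 (.q k22 [(.s k168 k84 13
  (.s k154 k223 10 (.s k184 k116 9 (.s k136 k152 3 (.d k139 k138 k169 0 4))))), (.s k255 k170 14 (.s
  k253 k254 0 (.s k1 k169 13 (.s k69 k205 9 (.d k117 k101 k186 3 10))))), (.s k170 k255 14 (.s k154
  k223 10 (.s k207 k101 14 (.d k138 k186 k69 3 10))))] .n) .n))) (.c k101 (.l (.s k168 k84 13 (.s
  k170 k255 14 (.s k154 k223 10 (.s k184 k116 9 (.d k169 k171 k139 0 4)))))) (.c k137 (.q k70 [(.s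
  k170 k255 14 (.s k154 k223 10 (.s k207 k101 14 (.d k138 k186 k69 3 10)))), (.s k84 k168 13 (.s
  k116 k184 9 (.s k86 k87 0 (.s k102 k118 3 (.d k68 k100 k119 3 4))))), (.s k255 k170 14 (.s k154
  k223 10 (.s k101 k207 14 (.d k117 k69 k186 3 10))))] (.c k22 (.q k41 [(.s k170 k255 14 (.s k154
  k223 10 (.s k207 k101 14 (.d k138 k186 k69 3 10)))), (.s k84 k168 13 (.s k116 k184 9 (.s k86 k87 0
  (.s k102 k118 3 (.d k68 k100 k119 3 4))))), (.s k255 k170 14 (.s k154 k223 10 (.s k101 k207 14 (.d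
  k117 k69 k186 3 10))))] (.c k255 (.l (.s k84 k168 13 (.s k154 k223 10 (.s k207 k101 14 (.s k222
  k237 4 (.d k86 k87 k18 0 9)))))) .n)) (.c k41 (.q k22 [(.s k170 k255 14 (.s k154 k223 10 (.s k207
  k101 14 (.d k138 k186 k69 3 10)))), (.s k84 k168 13 (.s k116 k184 9 (.s k86 k87 0 (.s k102 k118 3
  (.d k68 k100 k119 3 4))))), (.s k255 k170 14 (.s k154 k223 10 (.s k101 k207 14 (.d k117 k69 k186 3
  10))))] (.c k255 (.l (.s k84 k168 13 (.s k154 k223 10 (.s k207 k101 14 (.s k222 k237 4 (.d k86 k87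
  k18 0 9)))))) .n)) (.c k255 (.l (.s k84 k168 13 (.s k154 k223 10 (.s k207 k101 14 (.s k222 k237 4
  (.d k86 k87 k18 0 9)))))) .n)))) (.c k170 (.l (.s k84 k168 13 (.s k154 k223 10 (.s k101 k207 14
  (.s k116 k184 9 (.d k86 k71 k87 4 0)))))) (.c k239 (.l (.s k170 k255 14 (.s k154 k223 10 (.s k207
  k101 14 (.d k138 k186 k69 3 10))))) (.c k255 (.l (.s k84 k168 13 (.s k154 k223 10 (.s k207 k101 14
  (.s k222 k237 4 (.d k86 k87 k18 0 9)))))) .n))))))))) (.c k170 (.l (.s k84 k168 13 (.s k154 k223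
  10 (.s k101 k207 14 (.s k116 k184 9 (.d k86 k71 k87 4 0)))))) (.c k239 (.l (.s k170 k255 14 (.s
  k154 k223 10 (.s k207 k101 14 (.d k138 k186 k69 3 10))))) (.c k255 (.l (.s k84 k168 13 (.s k154
  k223 10 (.s k207 k101 14 (.s k222 k237 4 (.d k86 k87 k18 0 9)))))) .n)))))))))))) (.c k220 (.l (.s
  k32 k16 3 (.s k184 k116 9 (.s k168 k84 13 (.s k152 k136 3 (.d k100 k236 k204 9 13)))))) (.c k236
  (.l (.s k16 k32 3 (.s k116 k184 9 (.s k84 k168 13 (.s k100 k68 3 (.d k152 k220 k204 9 13))))))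
  .n)))))))))))))))

def t61 : T TT 256 :=
  (.q k12 [(.s k4 k8 1 (.s k84 k168 13 (.s k164 k244 11 (.s k92 k172 11 (.d k88 k80 k240 1 13)))))]
  (.c k4 (.q k20 [(.s k60 k40 5 (.s k84 k168 13 (.s k148 k212 7 (.s k124 k188 7 (.d k104 k64 k192 5
  13))))), (.s k84 k168 13 (.s k92 k172 11 (.s k148 k212 7 (.s k88 k80 1 (.s k28 k208 9 (.s k16 k24
  1 (.d k220 k156 k152 7 9))))))), (.s k60 k40 5 (.s k28 k44 3 (.s k92 k172 11 (.s k156 k220 7 (.s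
  k108 k204 11 (.d k124 k76 k188 3 7))))))] .n) (.c k8 (.q k20 [(.s k60 k40 5 (.s k84 k168 13 (.s
  k148 k212 7 (.s k124 k188 7 (.d k104 k64 k192 5 13))))), (.s k60 k40 5 (.s k28 k44 3 (.s k92 k172
  11 (.s k156 k220 7 (.s k108 k204 11 (.d k124 k76 k188 3 7)))))), (.s k84 k168 13 (.s k92 k172 11
  (.s k148 k212 7 (.s k88 k80 1 (.s k28 k208 9 (.d k60 k44 k40 3 5)))))), (.s k84 k168 13 (.s k92
  k172 11 (.s k148 k212 7 (.s k88 k80 1 (.s k28 k208 9 (.s k220 k156 7 (.d k16 k24 k152 1 9)))))))]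
  .n) (.c k80 (.l (.s k8 k4 1 (.s k168 k84 13 (.s k88 k248 11 (.s k164 k240 13 (.d k172 k92 k160 11
  1)))))) (.c k84 (.q k236 [(.s k172 k92 11 (.s k108 k44 7 (.s k204 k220 3 (.s k140 k76 7 (.d k156
  k188 k60 3 11))))), (.s k4 k8 1 (.s k204 k220 3 (.s k68 k136 9 (.s k132 k196 7 (.s k72 k192 9 (.d
  k76 k64 k140 1 7)))))), (.s k8 k4 1 (.s k172 k92 11 (.s k44 k108 7 (.s k60 k28 3 (.s k40 k20 5 (.s
  k24 k56 3 (.d k36 k32 k48 1 5)))))))] (.c k16 (.l (.s k8 k4 1 (.s k172 k92 11 (.s k44 k108 7 (.s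
  k60 k28 3 (.s k40 k20 5 (.s k24 k56 3 (.d k36 k32 k48 1 5)))))))) (.c k76 (.f k4 k8 1 (.l (.s k92
  k172 11 (.s k220 k204 3 (.s k28 k156 7 (.s k60 k44 3 (.s k20 k40 5 (.s k36 k52 3 (.d k24 k16 k48 1
  5))))))))) (.c k220 (.q k20 [(.s k60 k40 5 (.s k44 k28 3 (.d k172 k92 k108 11 7))), (.s k4 k8 1
  (.s k40 k60 5 (.s k36 k52 3 (.s k48 k24 5 (.d k32 k16 k44 3 1)))))] (.c k16 (.q k152 [(.s k60 k40
  5 (.s k44 k28 3 (.d k172 k92 k108 11 7))), (.s k4 k8 1 (.s k36 k52 3 (.s k48 k24 5 (.s k100 k204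
  13 (.s k168 k32 9 (.d k184 k136 k116 3 9))))))] (.c k40 (.f k4 k8 1 (.l (.s k36 k52 3 (.s k24 k48
  5 (.s k172 k92 11 (.s k88 k216 7 (.s k164 k240 13 (.s k168 k160 1 (.d k100 k228 k32 7 9)))))))))
  .n)) (.c k40 (.l (.s k4 k8 1 (.s k36 k52 3 (.s k24 k48 5 (.s k172 k92 11 (.s k44 k108 7 (.d k28
  k60 k16 3 1))))))) (.c k44 (.l (.s k8 k4 1 (.s k40 k60 5 (.s k24 k56 3 (.s k48 k36 5 (.d k16 k28
  k32 1 3)))))) (.c k60 (.l (.s k4 k8 1 (.s k36 k52 3 (.s k48 k24 5 (.s k172 k92 11 (.s k44 k108 7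
  (.d k32 k40 k16 1 3))))))) (.c k152 (.q k16 [(.s k48 k32 3 (.d k24 k28 k36 1 5)), (.s k60 k40 5
  (.s k44 k28 3 (.d k172 k92 k108 11 7)))] (.c k28 (.l (.s k4 k8 1 (.s k48 k32 3 (.d k36 k52 k24 3
  5)))) .n)) .n)))))) .n)))) (.c k88 (.q k16 [(.s k8 k4 1 (.s k48 k32 3 (.s k24 k36 5 (.s k40 k56 3
  (.d k20 k28 k60 1 5))))), (.s k48 k32 3 (.s k84 k168 13 (.s k152 k220 9 (.s k100 k204 13 (.d k116
  k68 k184 3 9))))), (.s k84 k168 13 (.s k92 k172 11 (.s k220 k152 9 (.s k28 k156 7 (.s k60 k44 3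
  (.d k20 k24 k40 1 5))))))] (.c k8 (.l (.s k48 k32 3 (.s k24 k36 5 (.s k92 k172 11 (.s k28 k20 1
  (.s k220 k156 7 (.d k84 k152 k168 9 13))))))) .n)) (.c k92 (.q k20 [(.s k60 k40 5 (.s k84 k168 13
  (.s k148 k212 7 (.s k104 k192 13 (.d k124 k64 k188 5 7))))), (.s k4 k8 1 (.s k40 k60 5 (.s k36 k52
  3 (.s k48 k24 5 (.d k32 k44 k16 1 3))))), (.s k4 k8 1 (.s k84 k168 13 (.s k36 k52 3 (.s k164 k244
  11 (.s k100 k228 7 (.s k116 k68 3 (.d k48 k24 k184 5 9)))))))] .n) (.c k164 (.q k236 [(.s k168 k84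
  13 (.s k100 k32 9 (.s k204 k220 3 (.s k136 k68 9 (.d k152 k184 k48 3 13))))), (.s k172 k92 11 (.s
  k108 k44 7 (.s k204 k220 3 (.s k140 k76 7 (.d k156 k188 k60 3 11))))), (.s k168 k84 13 (.s k172
  k92 11 (.s k32 k100 9 (.s k44 k108 7 (.s k36 k40 1 (.d k48 k16 k24 3 5))))))] .n) (.c k168 (.q
  k236 [(.s k172 k92 11 (.s k108 k44 7 (.s k204 k220 3 (.s k140 k76 7 (.d k156 k188 k60 3 11))))),
  (.s k4 k8 1 (.s k204 k220 3 (.s k68 k136 9 (.s k132 k196 7 (.s k72 k192 9 (.d k76 k64 k140 1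
  7)))))), (.s k8 k4 1 (.s k172 k92 11 (.s k44 k108 7 (.s k60 k28 3 (.s k40 k20 5 (.s k24 k56 3 (.d
  k36 k32 k48 1 5)))))))] (.c k76 (.q k20 [(.s k60 k40 5 (.s k44 k28 3 (.d k172 k108 k92 7 11))),
  (.s k8 k4 1 (.s k40 k60 5 (.s k24 k56 3 (.s k48 k36 5 (.d k16 k28 k32 1 3))))), (.s k4 k8 1 (.s
  k36 k52 3 (.s k48 k24 5 (.s k32 k16 3 (.s k172 k92 11 (.d k44 k40 k108 1 7))))))] (.c k40 (.l (.s
  k4 k8 1 (.s k36 k52 3 (.s k24 k48 5 (.s k92 k172 11 (.s k28 k16 1 (.d k220 k204 k156 3 7)))))))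
  .n)) (.c k220 (.q k20 [(.s k60 k40 5 (.s k44 k28 3 (.d k172 k92 k108 11 7))), (.s k4 k8 1 (.s k40
  k60 5 (.s k36 k52 3 (.s k48 k24 5 (.d k32 k44 k16 1 3)))))] (.c k40 (.l (.s k4 k8 1 (.s k36 k52 3
  (.s k24 k48 5 (.s k172 k92 11 (.s k28 k16 1 (.d k44 k60 k108 3 7))))))) (.c k44 (.l (.s k8 k4 1
  (.s k40 k60 5 (.s k24 k56 3 (.s k48 k36 5 (.d k16 k28 k32 1 3)))))) (.c k60 (.l (.s k4 k8 1 (.s
  k36 k52 3 (.s k48 k24 5 (.s k32 k16 3 (.s k172 k92 11 (.d k44 k40 k108 1 7))))))) .n)))) .n))) (.c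
  k172 (.q k20 [(.s k4 k8 1 (.s k60 k40 5 (.s k36 k52 3 (.s k24 k48 5 (.d k28 k16 k44 1 3))))), (.s
  k60 k40 5 (.s k84 k168 13 (.s k148 k212 7 (.s k104 k192 13 (.d k124 k64 k188 5 7))))), (.s k4 k8 1
  (.s k84 k168 13 (.s k36 k52 3 (.s k164 k244 11 (.s k100 k228 7 (.s k116 k68 3 (.d k48 k24 k184 5
  9)))))))] .n) (.c k240 (.f k4 k8 1 (.q k20 [(.s k60 k40 5 (.s k36 k52 3 (.s k24 k48 5 (.d k28 k16
  k44 1 3)))), (.s k84 k168 13 (.s k52 k36 3 (.s k164 k244 11 (.s k148 k212 7 (.s k196 k100 11 (.d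
  k132 k180 k68 3 7)))))), (.s k60 k40 5 (.s k84 k168 13 (.s k148 k212 7 (.s k104 k192 13 (.d k124
  k64 k188 5 7)))))] (.c k82 (.q k161 [(.s k60 k40 5 (.s k36 k52 3 (.s k24 k48 5 (.d k28 k16 k44 1
  3)))), (.s k84 k168 13 (.s k52 k36 3 (.s k164 k244 11 (.s k148 k212 7 (.s k196 k100 11 (.d k132
  k180 k68 3 7)))))), (.s k60 k40 5 (.s k84 k168 13 (.s k148 k212 7 (.s k104 k192 13 (.d k124 k64
  k188 5 7)))))] .n) (.c k161 (.q k82 [(.s k60 k40 5 (.s k36 k52 3 (.s k24 k48 5 (.d k28 k16 k44 1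
  3)))), (.s k84 k168 13 (.s k52 k36 3 (.s k164 k244 11 (.s k148 k212 7 (.s k196 k100 11 (.d k132
  k180 k68 3 7)))))), (.s k60 k40 5 (.s k84 k168 13 (.s k148 k212 7 (.s k104 k192 13 (.d k124 k64
  k188 5 7)))))] .n) .n)))) (.c k244 (.l (.s k8 k4 1 (.s k172 k92 11 (.s k168 k84 13 (.s k164 k160 1
  (.d k88 k248 k240 11 13)))))) (.c k248 (.l (.s k4 k8 1 (.s k92 k172 11 (.s k84 k168 13 (.s k88 k80
  1 (.d k164 k244 k240 11 13)))))) .n)))))))))))))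

theorem c15 : rootOK2 k252 k3 k15 t15 = true := by decide +kernel

theorem c20 : rootOK2 k252 k3 k20 t20 = true := by decide +kernel

theorem c21 : rootOK2 k252 k3 k21 t21 = true := by decide +kernel

theorem c22 : rootOK2 k252 k3 k22 t22 = true := by decide +kernel

theorem c23 : rootOK2 k252 k3 k23 t23 = true := by decide +kernel

theorem c24 : rootOK2 k252 k3 k24 t24 = true := by decide +kernel

theorem c25 : rootOK2 k252 k3 k25 t25 = true := by decide +kernel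

theorem c27 : rootOK2 k252 k3 k27 t27 = true := by decide +kernel

theorem c28 : rootOK2 k252 k3 k28 t28 = true := by decide +kernel

theorem c29 : rootOK2 k252 k3 k29 t29 = true := by decide +kernel

theorem c30 : rootOK2 k252 k3 k30 t30 = true := by decide +kernel

theorem c31 : rootOK2 k252 k3 k31 t31 = true := by decide +kernel

theorem c60 : rootOK2 k252 k3 k60 t60 = true := by decide +kernel

theorem c61 : rootOK2 k252 k3 k61 t61 = true := by decide +kernel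

def l : List Nat :=
  [k15.c, k20.c, k21.c, k22.c, k23.c, k24.c, k25.c, k27.c, k28.c, k29.c, k30.c, k31.c, k60.c, k61.c]

theorem ok : AllQ k252.c k3.c l :=
  allQ_cons c15 (allQ_cons c20 (allQ_cons c21 (allQ_cons c22 (allQ_cons c23 (allQ_cons c24 (
  allQ_cons c25 (allQ_cons c27 (allQ_cons c28 (allQ_cons c29 (allQ_cons c30 (allQ_cons c31 (
  allQ_cons c60 (allQ_cons c61 (allQ_nil _ _))))))))))))))

end Pool.Agent.TTT.C02
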