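import Pool.Agent.TTT.Sym2

set_option autoImplicit false
set_option maxRecDepth 100000

namespace Pool.Agent.TTT.C03

def t63 : T TT 256 :=
  (.q k48 [(.s k16 k32 3 (.s k84 k168 13 (.s k152 k220 9 (.s k116 k184 9 (.d k100 k68 k204 3
  13)))))] (.c k16 (.q k20 [(.s k60 k40 5 (.s k84 k168 13 (.s k148 k212 7 (.s k124 k188 7 (.d k104
  k64 k192 5 13))))), (.s k84 k168 13 (.s k148 k212 7 (.s k116 k184 9 (.s k100 k68 3 (.s k52 k196 11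
  (.s k4 k36 3 (.d k244 k180 k164 7 11))))))), (.s k60 k40 5 (.s k52 k56 1 (.s k116 k184 9 (.s k180
  k244 7 (.s k120 k240 9 (.d k124 k112 k188 1 7))))))] (.c k23 (.q k43 [(.s k60 k40 5 (.s k84 k168
  13 (.s k124 k188 7 (.s k104 k64 5 (.d k148 k212 k192 7 13))))), (.s k84 k168 13 (.s k148 k212 7
  (.s k116 k184 9 (.s k100 k68 3 (.s k52 k196 11 (.s k4 k36 3 (.d k244 k180 k164 7 11))))))), (.s
  k60 k40 5 (.s k52 k56 1 (.s k116 k184 9 (.s k180 k244 7 (.s k120 k240 9 (.d k124 k112 k188 1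
  7))))))] .n) (.c k43 (.q k23 [(.s k60 k40 5 (.s k84 k168 13 (.s k148 k212 7 (.s k124 k188 7 (.d
  k104 k64 k192 5 13))))), (.s k84 k168 13 (.s k22 k21 0 (.s k212 k148 7 (.s k86 k149 8 (.s k150
  k214 7 (.d k85 k87 k215 0 8)))))), (.s k60 k40 5 (.s k52 k56 1 (.s k116 k184 9 (.s k180 k244 7 (.s
  k120 k240 9 (.d k124 k112 k188 1 7))))))] (.c k188 (.l (.s k60 k40 5 (.s k84 k168 13 (.s k148 k212
  7 (.s k52 k56 1 (.s k116 k184 9 (.d k100 k68 k196 3 11))))))) .n)) .n))) (.c k23 (.q k43 [(.s k16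
  k32 3 (.s k84 k168 13 (.s k152 k220 9 (.s k116 k184 9 (.d k100 k68 k204 3 13)))))] (.c k16 (.q k20
  [(.s k60 k40 5 (.s k84 k168 13 (.s k124 k188 7 (.s k104 k64 5 (.d k148 k212 k192 7 13))))), (.s
  k84 k168 13 (.s k148 k212 7 (.s k116 k184 9 (.s k100 k68 3 (.s k52 k196 11 (.s k4 k36 3 (.d k244
  k180 k164 7 11))))))), (.s k60 k40 5 (.s k52 k56 1 (.s k116 k184 9 (.s k180 k244 7 (.s k120 k240 9
  (.d k124 k112 k188 1 7))))))] .n) (.c k32 (.q k20 [(.s k60 k40 5 (.s k84 k168 13 (.s k124 k188 7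
  (.s k104 k64 5 (.d k148 k212 k192 7 13))))), (.s k60 k40 5 (.s k52 k56 1 (.s k116 k184 9 (.s k180
  k244 7 (.s k120 k240 9 (.d k124 k112 k188 1 7)))))), (.s k84 k168 13 (.s k148 k212 7 (.s k116 k184
  9 (.s k100 k68 3 (.s k52 k196 11 (.d k60 k56 k40 1 5)))))), (.s k84 k168 13 (.s k148 k212 7 (.s
  k116 k184 9 (.s k100 k68 3 (.s k52 k196 11 (.s k244 k180 7 (.d k4 k36 k164 3 11)))))))] .n) (.c
  k68 (.l (.s k32 k16 3 (.s k168 k84 13 (.s k100 k236 9 (.s k152 k204 13 (.d k184 k116 k136 9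
  3)))))) (.c k84 (.f k16 k32 3 (.q k240 [(.s k80 k160 11 (.s k144 k208 7 (.s k112 k176 7 (.d k96
  k64 k192 3 11)))), (.s k112 k176 7 (.s k116 k184 9 (.s k244 k248 1 (.s k180 k52 7 (.d k120 k124
  k60 1 9)))))] (.c k112 (.q k20 [(.s k116 k184 9 (.s k244 k248 1 (.s k52 k180 7 (.d k60 k56 k40 1
  5)))), (.s k40 k60 5 (.s k24 k28 1 (.s k8 k56 3 (.d k12 k4 k36 1 5)))), (.s k24 k28 1 (.s k36 k12
  5 (.s k52 k4 3 (.s k116 k184 9 (.d k244 k248 k180 1 7)))))] (.c k60 (.l (.s k24 k28 1 (.s k116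
  k184 9 (.s k244 k248 1 (.s k52 k180 7 (.d k36 k12 k4 5 3)))))) .n)) (.c k176 (.q k20 [(.s k116
  k184 9 (.s k244 k248 1 (.s k180 k52 7 (.d k60 k120 k40 9 5)))), (.s k40 k60 5 (.s k24 k28 1 (.s k8
  k56 3 (.d k12 k4 k36 1 5)))), (.s k24 k28 1 (.s k36 k12 5 (.s k52 k4 3 (.s k116 k184 9 (.d k244
  k180 k248 7 1)))))] (.c k60 (.l (.s k24 k28 1 (.s k12 k36 5 (.s k184 k116 9 (.s k248 k244 1 (.s
  k56 k120 7 (.d k8 k4 k40 1 3))))))) .n)) .n)))) (.c k100 (.q k12 [(.s k4 k8 1 (.s k32 k16 3 (.s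
  k36 k24 5 (.s k40 k44 1 (.d k20 k52 k60 3 5))))), (.s k8 k4 1 (.s k168 k84 13 (.s k88 k248 11 (.s
  k164 k240 13 (.d k172 k160 k92 1 11))))), (.s k84 k168 13 (.s k24 k36 5 (.s k92 k172 11 (.s k88
  k80 1 (.s k152 k216 7 (.d k16 k32 k220 3 9))))))] .n) (.c k116 (.q k12 [(.s k4 k8 1 (.s k84 k168
  13 (.s k92 k172 11 (.s k88 k80 1 (.d k164 k244 k240 11 13))))), (.s k4 k8 1 (.s k32 k16 3 (.s k36
  k24 5 (.s k40 k44 1 (.d k20 k52 k60 3 5))))), (.s k16 k32 3 (.s k84 k168 13 (.s k24 k36 5 (.s k92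
  k172 11 (.s k152 k220 9 (.d k88 k80 k216 1 7))))))] .n) (.c k152 (.q k12 [(.s k8 k4 1 (.s k16 k32
  3 (.s k24 k36 5 (.s k40 k56 3 (.d k20 k28 k60 1 5))))), (.s k4 k8 1 (.s k84 k168 13 (.s k164 k244
  11 (.s k88 k240 13 (.d k92 k80 k172 1 11))))), (.s k168 k84 13 (.s k36 k24 5 (.s k172 k92 11 (.s
  k164 k160 1 (.s k100 k228 7 (.d k32 k16 k236 3 9))))))] .n) (.c k168 (.q k240 [(.s k32 k16 3 (.s
  k176 k112 7 (.s k160 k80 11 (.s k144 k128 3 (.d k96 k224 k192 7 11))))), (.s k112 k176 7 (.s k116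
  k184 9 (.s k120 k124 1 (.s k180 k60 9 (.d k244 k248 k52 1 7)))))] (.c k112 (.q k255 [(.s k32 k16 3
  (.s k186 k117 10 (.s k170 k85 14 (.s k154 k138 3 (.d k101 k239 k207 10 14))))), (.s k80 k160 11
  (.s k85 k170 14 (.s k90 k95 2 (.s k165 k15 14 (.d k245 k250 k5 2 11))))), (.s k116 k184 9 (.s k117
  k186 10 (.s k118 k119 0 (.s k185 k51 10 (.d k253 k254 k49 0 9)))))] .n) (.c k176 (.q k255 [(.s k32
  k16 3 (.s k186 k117 10 (.s k170 k85 14 (.s k154 k138 3 (.d k101 k239 k207 10 14))))), (.s k80 k160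
  11 (.s k85 k170 14 (.s k90 k95 2 (.s k165 k15 14 (.d k245 k250 k5 2 11))))), (.s k116 k184 9 (.s
  k117 k186 10 (.s k118 k119 0 (.s k185 k51 10 (.d k253 k254 k49 0 9)))))] .n) (.c k188 (.l (.s k16
  k32 3 (.s k80 k160 11 (.s k144 k208 7 (.s k96 k192 11 (.d k112 k64 k176 3 7)))))) .n)))) (.c k184
  (.q k12 [(.s k4 k8 1 (.s k32 k16 3 (.s k36 k24 5 (.s k20 k52 3 (.d k40 k44 k60 1 5))))), (.s k4 k8
  1 (.s k84 k168 13 (.s k164 k244 11 (.s k88 k240 13 (.d k92 k80 k172 1 11))))), (.s k16 k32 3 (.s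
  k84 k168 13 (.s k24 k36 5 (.s k92 k172 11 (.s k152 k220 9 (.d k88 k80 k216 1 7))))))] .n) (.c k204
  (.f k16 k32 3 (.f k116 k184 9 (.q k240 [(.s k80 k160 11 (.s k144 k208 7 (.s k112 k176 7 (.d k96
  k64 k192 3 11)))), (.s k112 k176 7 (.s k120 k124 1 (.s k180 k60 9 (.d k244 k248 k52 1 7)))), (.s
  k80 k160 11 (.s k84 k168 13 (.s k88 k92 1 (.s k164 k12 13 (.d k244 k248 k4 1 11)))))] (.c k70 (.q
  k137 [(.s k80 k160 11 (.s k144 k208 7 (.s k112 k176 7 (.d k96 k64 k192 3 11)))), (.s k112 k176 7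
  (.s k120 k124 1 (.s k180 k60 9 (.d k244 k248 k52 1 7)))), (.s k80 k160 11 (.s k84 k168 13 (.s k88
  k92 1 (.s k164 k12 13 (.d k244 k248 k4 1 11)))))] (.c k110 (.q k157 [(.s k80 k160 11 (.s k144 k208
  7 (.s k112 k176 7 (.d k96 k64 k192 3 11)))), (.s k112 k176 7 (.s k120 k124 1 (.s k180 k60 9 (.d
  k244 k248 k52 1 7)))), (.s k80 k160 11 (.s k84 k168 13 (.s k88 k92 1 (.s k164 k12 13 (.d k244 k248
  k4 1 11)))))] .n) (.c k157 (.q k110 [(.s k80 k160 11 (.s k144 k208 7 (.s k112 k176 7 (.d k96 k64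
  k192 3 11)))), (.s k112 k176 7 (.s k120 k124 1 (.s k180 k60 9 (.d k244 k248 k52 1 7)))), (.s k80
  k160 11 (.s k84 k168 13 (.s k88 k92 1 (.s k164 k12 13 (.d k244 k248 k4 1 11)))))] .n) .n))) (.c
  k110 (.q k157 [(.s k80 k160 11 (.s k144 k208 7 (.s k112 k176 7 (.d k96 k64 k192 3 11)))), (.s k112
  k176 7 (.s k120 k124 1 (.s k180 k60 9 (.d k244 k248 k52 1 7)))), (.s k80 k160 11 (.s k84 k168 13
  (.s k88 k92 1 (.s k164 k12 13 (.d k244 k248 k4 1 11)))))] (.c k70 (.q k137 [(.s k80 k160 11 (.s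
  k144 k208 7 (.s k112 k176 7 (.d k96 k64 k192 3 11)))), (.s k112 k176 7 (.s k120 k124 1 (.s k180
  k60 9 (.d k244 k248 k52 1 7)))), (.s k80 k160 11 (.s k84 k168 13 (.s k88 k92 1 (.s k164 k12 13 (.d
  k244 k248 k4 1 11)))))] .n) (.c k137 (.q k70 [(.s k80 k160 11 (.s k144 k208 7 (.s k112 k176 7 (.d
  k96 k64 k192 3 11)))), (.s k112 k176 7 (.s k120 k124 1 (.s k180 k60 9 (.d k244 k248 k52 1 7)))),
  (.s k80 k160 11 (.s k84 k168 13 (.s k88 k92 1 (.s k164 k12 13 (.d k244 k248 k4 1 11)))))] .n)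
  .n))) (.c k137 (.q k70 [(.s k80 k160 11 (.s k144 k208 7 (.s k112 k176 7 (.d k96 k64 k192 3 11)))),
  (.s k112 k176 7 (.s k120 k124 1 (.s k180 k60 9 (.d k244 k248 k52 1 7)))), (.s k80 k160 11 (.s k84
  k168 13 (.s k88 k92 1 (.s k164 k12 13 (.d k244 k248 k4 1 11)))))] (.c k110 (.q k157 [(.s k80 k160
  11 (.s k144 k208 7 (.s k112 k176 7 (.d k96 k64 k192 3 11)))), (.s k112 k176 7 (.s k120 k124 1 (.s
  k180 k60 9 (.d k244 k248 k52 1 7)))), (.s k80 k160 11 (.s k84 k168 13 (.s k88 k92 1 (.s k164 k12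
  13 (.d k244 k248 k4 1 11)))))] .n) (.c k157 (.q k110 [(.s k80 k160 11 (.s k144 k208 7 (.s k112
  k176 7 (.d k96 k64 k192 3 11)))), (.s k112 k176 7 (.s k120 k124 1 (.s k180 k60 9 (.d k244 k248 k52
  1 7)))), (.s k80 k160 11 (.s k84 k168 13 (.s k88 k92 1 (.s k164 k12 13 (.d k244 k248 k4 1 11)))))]
  .n) .n))) (.c k157 (.q k110 [(.s k80 k160 11 (.s k144 k208 7 (.s k112 k176 7 (.d k96 k64 k192 3
  11)))), (.s k112 k176 7 (.s k120 k124 1 (.s k180 k60 9 (.d k244 k248 k52 1 7)))), (.s k80 k160 11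
  (.s k84 k168 13 (.s k88 k92 1 (.s k164 k12 13 (.d k244 k248 k4 1 11)))))] (.c k70 (.q k137 [(.s
  k80 k160 11 (.s k144 k208 7 (.s k112 k176 7 (.d k96 k64 k192 3 11)))), (.s k112 k176 7 (.s k120
  k124 1 (.s k180 k60 9 (.d k244 k248 k52 1 7)))), (.s k80 k160 11 (.s k84 k168 13 (.s k88 k92 1 (.s
  k164 k12 13 (.d k244 k248 k4 1 11)))))] .n) (.c k137 (.q k70 [(.s k80 k160 11 (.s k144 k208 7 (.s
  k112 k176 7 (.d k96 k64 k192 3 11)))), (.s k112 k176 7 (.s k120 k124 1 (.s k180 k60 9 (.d k244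
  k248 k52 1 7)))), (.s k80 k160 11 (.s k84 k168 13 (.s k88 k92 1 (.s k164 k12 13 (.d k244 k248 k4 1
  11)))))] .n) .n))) .n))))))) (.c k220 (.l (.s k32 k16 3 (.s k184 k116 9 (.s k168 k84 13 (.s k152
  k136 3 (.d k100 k236 k204 9 13)))))) (.c k236 (.l (.s k16 k32 3 (.s k116 k184 9 (.s k84 k168 13
  (.s k100 k68 3 (.d k152 k220 k204 9 13)))))) .n))))))))))))) (.c k32 (.q k20 [(.s k60 k40 5 (.s
  k84 k168 13 (.s k148 k212 7 (.s k124 k188 7 (.d k104 k64 k192 5 13))))), (.s k60 k40 5 (.s k52 k56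
  1 (.s k116 k184 9 (.s k180 k244 7 (.s k120 k240 9 (.d k124 k112 k188 1 7)))))), (.s k84 k168 13
  (.s k148 k212 7 (.s k116 k184 9 (.s k100 k68 3 (.s k52 k196 11 (.d k60 k56 k40 1 5)))))), (.s k84
  k168 13 (.s k148 k212 7 (.s k116 k184 9 (.s k100 k68 3 (.s k52 k196 11 (.s k244 k180 7 (.d k4 k36
  k164 3 11)))))))] (.c k23 (.q k43 [(.s k60 k40 5 (.s k84 k168 13 (.s k124 k188 7 (.s k104 k64 5
  (.d k148 k212 k192 7 13))))), (.s k60 k40 5 (.s k52 k56 1 (.s k116 k184 9 (.s k180 k244 7 (.s k120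
  k240 9 (.d k124 k112 k188 1 7)))))), (.s k84 k168 13 (.s k148 k212 7 (.s k116 k184 9 (.s k100 k68
  3 (.s k52 k196 11 (.d k60 k56 k40 1 5)))))), (.s k84 k168 13 (.s k148 k212 7 (.s k116 k184 9 (.s
  k100 k68 3 (.s k52 k196 11 (.s k244 k180 7 (.d k4 k36 k164 3 11)))))))] .n) (.c k43 (.q k23 [(.s
  k60 k40 5 (.s k84 k168 13 (.s k148 k212 7 (.s k124 k188 7 (.d k104 k64 k192 5 13))))), (.s k84
  k168 13 (.s k22 k21 0 (.s k212 k148 7 (.s k86 k149 8 (.s k150 k214 7 (.d k85 k87 k215 0 8)))))),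
  (.s k60 k40 5 (.s k52 k56 1 (.s k116 k184 9 (.s k180 k244 7 (.s k120 k240 9 (.d k124 k112 k188 1
  7))))))] (.c k188 (.l (.s k60 k40 5 (.s k84 k168 13 (.s k148 k212 7 (.s k52 k56 1 (.s k116 k184 9
  (.d k100 k68 k196 3 11))))))) .n)) .n))) (.c k43 (.q k23 [(.s k16 k32 3 (.s k84 k168 13 (.s k152
  k220 9 (.s k116 k184 9 (.d k100 k68 k204 3 13)))))] (.c k16 (.q k20 [(.s k60 k40 5 (.s k84 k168 13
  (.s k148 k212 7 (.s k124 k188 7 (.d k104 k64 k192 5 13))))), (.s k84 k168 13 (.s k22 k21 0 (.s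
  k212 k148 7 (.s k86 k149 8 (.s k150 k214 7 (.d k85 k87 k215 0 8)))))), (.s k60 k40 5 (.s k52 k56 1
  (.s k116 k184 9 (.s k180 k244 7 (.s k120 k240 9 (.d k124 k112 k188 1 7))))))] (.c k188 (.l (.s k60
  k40 5 (.s k84 k168 13 (.s k148 k212 7 (.s k52 k56 1 (.s k116 k184 9 (.d k100 k68 k196 3 11)))))))
  .n)) (.c k32 (.q k20 [(.s k60 k40 5 (.s k84 k168 13 (.s k148 k212 7 (.s k124 k188 7 (.d k104 k64
  k192 5 13))))), (.s k84 k168 13 (.s k22 k21 0 (.s k212 k148 7 (.s k86 k149 8 (.s k150 k214 7 (.d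
  k85 k87 k215 0 8)))))), (.s k60 k40 5 (.s k52 k56 1 (.s k116 k184 9 (.s k180 k244 7 (.s k120 k240
  9 (.d k124 k112 k188 1 7))))))] (.c k188 (.l (.s k60 k40 5 (.s k84 k168 13 (.s k148 k212 7 (.s k52
  k56 1 (.s k116 k184 9 (.d k100 k68 k196 3 11))))))) .n)) (.c k68 (.l (.s k32 k16 3 (.s k168 k84 13
  (.s k100 k236 9 (.s k152 k204 13 (.d k184 k116 k136 9 3)))))) (.c k84 (.f k16 k32 3 (.q k240 [(.s
  k80 k160 11 (.s k144 k208 7 (.s k112 k176 7 (.d k96 k64 k192 3 11)))), (.s k112 k176 7 (.s k116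
  k184 9 (.s k244 k248 1 (.s k180 k52 7 (.d k120 k124 k60 1 9)))))] (.c k112 (.q k12 [(.s k8 k4 1
  (.s k24 k36 5 (.s k40 k56 3 (.d k20 k28 k60 1 5)))), (.s k4 k8 1 (.s k116 k184 9 (.s k244 k248 1
  (.s k52 k180 7 (.d k36 k20 k24 3 5))))), (.s k80 k160 11 (.s k88 k164 13 (.s k208 k144 7 (.s k28
  k148 9 (.s k20 k24 1 (.d k60 k44 k40 3 5))))))] (.c k4 (.l (.s k80 k160 11 (.s k24 k36 5 (.s k88
  k164 13 (.s k244 k248 1 (.s k208 k144 7 (.d k28 k20 k148 1 9))))))) (.c k20 (.l (.s k8 k4 1 (.s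
  k116 k184 9 (.s k244 k248 1 (.s k24 k36 5 (.s k52 k180 7 (.d k56 k40 k60 3 1))))))) (.c k24 (.l
  (.s k4 k8 1 (.s k116 k184 9 (.s k244 k248 1 (.s k52 k180 7 (.s k20 k36 3 (.d k60 k56 k40 1
  5))))))) (.c k244 (.l (.s k24 k36 5 (.s k20 k28 1 (.s k40 k60 5 (.d k8 k4 k56 1 3))))) .n))))) (.c
  k176 (.q k20 [(.s k116 k184 9 (.s k244 k248 1 (.s k180 k52 7 (.d k60 k120 k40 9 5)))), (.s k40 k60
  5 (.s k24 k28 1 (.s k8 k56 3 (.d k12 k4 k36 1 5)))), (.s k24 k28 1 (.s k36 k12 5 (.s k52 k4 3 (.s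
  k116 k184 9 (.d k244 k180 k248 7 1)))))] (.c k60 (.l (.s k24 k28 1 (.s k12 k36 5 (.s k184 k116 9
  (.s k248 k244 1 (.s k56 k120 7 (.d k8 k4 k40 1 3))))))) .n)) .n)))) (.c k100 (.q k20 [(.s k32 k16
  3 (.s k40 k60 5 (.s k36 k44 1 (.s k12 k24 5 (.d k4 k8 k52 1 3))))), (.s k84 k168 13 (.s k22 k21 0
  (.s k212 k148 7 (.s k86 k149 8 (.s k150 k214 7 (.d k85 k87 k215 0 8)))))), (.s k60 k40 5 (.s k84
  k168 13 (.s k148 k212 7 (.s k104 k192 13 (.d k124 k64 k188 5 7)))))] (.c k32 (.l (.s k60 k40 5 (.s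
  k52 k56 1 (.s k116 k184 9 (.s k180 k244 7 (.s k120 k240 9 (.d k124 k112 k188 1 7))))))) .n)) (.c
  k116 (.q k20 [(.s k16 k32 3 (.s k24 k28 1 (.s k12 k36 5 (.s k8 k4 1 (.d k40 k56 k60 3 5))))), (.s
  k84 k168 13 (.s k22 k21 0 (.s k212 k148 7 (.s k86 k149 8 (.s k150 k214 7 (.d k85 k87 k215 0
  8))))))] .n) (.c k152 (.q k20 [(.s k16 k32 3 (.s k24 k28 1 (.s k12 k36 5 (.s k8 k4 1 (.d k40 k56
  k60 3 5))))), (.s k84 k168 13 (.s k22 k21 0 (.s k212 k148 7 (.s k86 k149 8 (.s k150 k214 7 (.d k85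
  k87 k215 0 8))))))] .n) (.c k168 (.q k240 [(.s k32 k16 3 (.s k176 k112 7 (.s k160 k80 11 (.s k144
  k128 3 (.d k96 k224 k192 7 11))))), (.s k112 k176 7 (.s k116 k184 9 (.s k120 k124 1 (.s k180 k60 9
  (.d k244 k248 k52 1 7)))))] (.c k112 (.q k232 [(.s k32 k16 3 (.s k160 k80 11 (.s k96 k224 7 (.d
  k192 k144 k212 11 5)))), (.s k212 k192 5 (.s k244 k248 1 (.s k228 k196 3 (.s k204 k216 5 (.d k236
  k224 k220 1 3)))))] (.c k192 (.l (.s k16 k32 3 (.s k80 k160 11 (.s k208 k144 7 (.s k248 k244 1 (.s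
  k216 k200 3 (.s k204 k228 5 (.d k220 k212 k236 1 3)))))))) (.c k212 (.l (.s k32 k16 3 (.s k160 k80
  11 (.s k248 k244 1 (.s k216 k200 3 (.s k228 k204 5 (.d k224 k96 k236 7 1))))))) (.c k224 (.l (.s
  k212 k192 5 (.s k248 k244 1 (.s k216 k200 3 (.s k204 k228 5 (.d k220 k208 k236 1 3)))))) .n))))
  (.c k176 (.q k232 [(.s k32 k16 3 (.s k160 k80 11 (.s k96 k224 7 (.d k192 k144 k212 11 5)))), (.s
  k212 k192 5 (.s k244 k248 1 (.s k228 k196 3 (.s k204 k216 5 (.d k236 k224 k220 1 3))))), (.s k32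
  k16 3 (.s k160 k80 11 (.s k224 k96 7 (.s k228 k236 1 (.s k216 k204 5 (.d k248 k244 k200 1 3))))))]
  (.c k224 (.l (.s k212 k192 5 (.s k248 k244 1 (.s k216 k200 3 (.s k204 k228 5 (.d k220 k208 k236 1
  3)))))) .n)) (.c k188 (.l (.s k16 k32 3 (.s k80 k160 11 (.s k144 k208 7 (.s k96 k192 11 (.d k112
  k64 k176 3 7)))))) .n)))) (.c k184 (.q k20 [(.s k16 k32 3 (.s k24 k28 1 (.s k12 k36 5 (.s k8 k4 1
  (.d k40 k56 k60 3 5))))), (.s k84 k168 13 (.s k22 k21 0 (.s k212 k148 7 (.s k86 k149 8 (.s k150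
  k214 7 (.d k85 k87 k215 0 8))))))] .n) (.c k204 (.f k16 k32 3 (.f k116 k184 9 (.q k240 [(.s k80
  k160 11 (.s k144 k208 7 (.s k112 k176 7 (.d k96 k64 k192 3 11)))), (.s k112 k176 7 (.s k120 k124 1
  (.s k180 k60 9 (.d k244 k248 k52 1 7)))), (.s k80 k160 11 (.s k84 k168 13 (.s k88 k92 1 (.s k164
  k12 13 (.d k244 k248 k4 1 11)))))] (.c k70 (.q k137 [(.s k80 k160 11 (.s k144 k208 7 (.s k112 k176
  7 (.d k96 k64 k192 3 11)))), (.s k112 k176 7 (.s k120 k124 1 (.s k180 k60 9 (.d k244 k248 k52 1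
  7)))), (.s k80 k160 11 (.s k84 k168 13 (.s k88 k92 1 (.s k164 k12 13 (.d k244 k248 k4 1 11)))))]
  (.c k110 (.q k157 [(.s k80 k160 11 (.s k144 k208 7 (.s k112 k176 7 (.d k96 k64 k192 3 11)))), (.s
  k112 k176 7 (.s k120 k124 1 (.s k180 k60 9 (.d k244 k248 k52 1 7)))), (.s k80 k160 11 (.s k84 k168
  13 (.s k88 k92 1 (.s k164 k12 13 (.d k244 k248 k4 1 11)))))] .n) (.c k157 (.q k110 [(.s k80 k160
  11 (.s k144 k208 7 (.s k112 k176 7 (.d k96 k64 k192 3 11)))), (.s k112 k176 7 (.s k120 k124 1 (.s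
  k180 k60 9 (.d k244 k248 k52 1 7)))), (.s k80 k160 11 (.s k84 k168 13 (.s k88 k92 1 (.s k164 k12
  13 (.d k244 k248 k4 1 11)))))] .n) .n))) (.c k110 (.q k157 [(.s k80 k160 11 (.s k144 k208 7 (.s
  k112 k176 7 (.d k96 k64 k192 3 11)))), (.s k112 k176 7 (.s k120 k124 1 (.s k180 k60 9 (.d k244
  k248 k52 1 7)))), (.s k80 k160 11 (.s k84 k168 13 (.s k88 k92 1 (.s k164 k12 13 (.d k244 k248 k4 1
  11)))))] (.c k70 (.q k137 [(.s k80 k160 11 (.s k144 k208 7 (.s k112 k176 7 (.d k96 k64 k192 3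
  11)))), (.s k112 k176 7 (.s k120 k124 1 (.s k180 k60 9 (.d k244 k248 k52 1 7)))), (.s k80 k160 11
  (.s k84 k168 13 (.s k88 k92 1 (.s k164 k12 13 (.d k244 k248 k4 1 11)))))] .n) (.c k137 (.q k70
  [(.s k80 k160 11 (.s k144 k208 7 (.s k112 k176 7 (.d k96 k64 k192 3 11)))), (.s k112 k176 7 (.s
  k120 k124 1 (.s k180 k60 9 (.d k244 k248 k52 1 7)))), (.s k80 k160 11 (.s k84 k168 13 (.s k88 k92
  1 (.s k164 k12 13 (.d k244 k248 k4 1 11)))))] .n) .n))) (.c k137 (.q k70 [(.s k80 k160 11 (.s k144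
  k208 7 (.s k112 k176 7 (.d k96 k64 k192 3 11)))), (.s k112 k176 7 (.s k120 k124 1 (.s k180 k60 9
  (.d k244 k248 k52 1 7)))), (.s k80 k160 11 (.s k84 k168 13 (.s k88 k92 1 (.s k164 k12 13 (.d k244
  k248 k4 1 11)))))] (.c k110 (.q k157 [(.s k80 k160 11 (.s k144 k208 7 (.s k112 k176 7 (.d k96 k64
  k192 3 11)))), (.s k112 k176 7 (.s k120 k124 1 (.s k180 k60 9 (.d k244 k248 k52 1 7)))), (.s k80
  k160 11 (.s k84 k168 13 (.s k88 k92 1 (.s k164 k12 13 (.d k244 k248 k4 1 11)))))] .n) (.c k157 (.q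
  k110 [(.s k80 k160 11 (.s k144 k208 7 (.s k112 k176 7 (.d k96 k64 k192 3 11)))), (.s k112 k176 7
  (.s k120 k124 1 (.s k180 k60 9 (.d k244 k248 k52 1 7)))), (.s k80 k160 11 (.s k84 k168 13 (.s k88
  k92 1 (.s k164 k12 13 (.d k244 k248 k4 1 11)))))] .n) .n))) (.c k157 (.q k110 [(.s k80 k160 11 (.s
  k144 k208 7 (.s k112 k176 7 (.d k96 k64 k192 3 11)))), (.s k112 k176 7 (.s k120 k124 1 (.s k180
  k60 9 (.d k244 k248 k52 1 7)))), (.s k80 k160 11 (.s k84 k168 13 (.s k88 k92 1 (.s k164 k12 13 (.d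
  k244 k248 k4 1 11)))))] (.c k70 (.q k137 [(.s k80 k160 11 (.s k144 k208 7 (.s k112 k176 7 (.d k96
  k64 k192 3 11)))), (.s k112 k176 7 (.s k120 k124 1 (.s k180 k60 9 (.d k244 k248 k52 1 7)))), (.s
  k80 k160 11 (.s k84 k168 13 (.s k88 k92 1 (.s k164 k12 13 (.d k244 k248 k4 1 11)))))] .n) (.c k137
  (.q k70 [(.s k80 k160 11 (.s k144 k208 7 (.s k112 k176 7 (.d k96 k64 k192 3 11)))), (.s k112 k176
  7 (.s k120 k124 1 (.s k180 k60 9 (.d k244 k248 k52 1 7)))), (.s k80 k160 11 (.s k84 k168 13 (.s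
  k88 k92 1 (.s k164 k12 13 (.d k244 k248 k4 1 11)))))] .n) .n))) .n))))))) (.c k220 (.l (.s k32 k16
  3 (.s k184 k116 9 (.s k168 k84 13 (.s k152 k136 3 (.d k100 k236 k204 9 13)))))) (.c k236 (.l (.s
  k16 k32 3 (.s k116 k184 9 (.s k84 k168 13 (.s k100 k68 3 (.d k152 k220 k204 9 13))))))
  .n))))))))))))) (.c k68 (.l (.s k32 k16 3 (.s k168 k84 13 (.s k100 k236 9 (.s k152 k204 13 (.d
  k184 k116 k136 9 3)))))) (.c k84 (.q k255 [(.s k16 k32 3 (.s k85 k170 14 (.s k154 k223 10 (.s k117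
  k186 10 (.d k101 k69 k207 3 14))))), (.s k116 k184 9 (.s k117 k186 10 (.s k118 k119 0 (.s k185 k51
  10 (.d k253 k254 k49 0 9))))), (.s k16 k32 3 (.s k85 k170 14 (.s k154 k223 10 (.s k184 k116 9 (.s
  k169 k139 4 (.d k253 k254 k1 0 13))))))] (.c k23 (.q k43 [(.s k16 k32 3 (.s k85 k170 14 (.s k154
  k223 10 (.s k117 k186 10 (.d k101 k69 k207 3 14))))), (.s k116 k184 9 (.s k117 k186 10 (.s k118
  k119 0 (.s k185 k51 10 (.d k253 k254 k49 0 9))))), (.s k16 k32 3 (.s k85 k170 14 (.s k154 k223 10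
  (.s k184 k116 9 (.s k169 k139 4 (.d k253 k254 k1 0 13))))))] .n) (.c k43 (.q k23 [(.s k16 k32 3
  (.s k85 k170 14 (.s k154 k223 10 (.s k117 k186 10 (.d k101 k69 k207 3 14))))), (.s k116 k184 9 (.s
  k117 k186 10 (.s k118 k119 0 (.s k185 k51 10 (.d k253 k254 k49 0 9))))), (.s k16 k32 3 (.s k85
  k170 14 (.s k154 k223 10 (.s k184 k116 9 (.s k169 k139 4 (.d k253 k254 k1 0 13))))))] .n) .n)))
  (.c k100 (.q k12 [(.s k4 k8 1 (.s k32 k16 3 (.s k36 k24 5 (.s k40 k44 1 (.d k20 k52 k60 3 5))))),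
  (.s k8 k4 1 (.s k168 k84 13 (.s k88 k248 11 (.s k164 k240 13 (.d k172 k160 k92 1 11))))), (.s k84
  k168 13 (.s k24 k36 5 (.s k92 k172 11 (.s k88 k80 1 (.s k152 k216 7 (.d k16 k32 k220 3 9))))))]
  (.c k23 (.q k43 [(.s k4 k8 1 (.s k32 k16 3 (.s k36 k24 5 (.s k40 k44 1 (.d k20 k52 k60 3 5))))),
  (.s k8 k4 1 (.s k168 k84 13 (.s k88 k248 11 (.s k164 k240 13 (.d k172 k160 k92 1 11))))), (.s k84
  k168 13 (.s k24 k36 5 (.s k92 k172 11 (.s k88 k80 1 (.s k152 k216 7 (.d k16 k32 k220 3 9))))))]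
  .n) (.c k43 (.q k23 [(.s k4 k8 1 (.s k32 k16 3 (.s k36 k24 5 (.s k40 k44 1 (.d k20 k52 k60 3
  5))))), (.s k8 k4 1 (.s k168 k84 13 (.s k88 k248 11 (.s k164 k240 13 (.d k172 k160 k92 1 11))))),
  (.s k84 k168 13 (.s k24 k36 5 (.s k92 k172 11 (.s k88 k80 1 (.s k152 k216 7 (.d k16 k32 k220 3
  9))))))] .n) .n))) (.c k116 (.f k16 k32 3 (.q k20 [(.s k40 k60 5 (.s k24 k28 1 (.s k8 k56 3 (.d
  k12 k4 k36 1 5)))), (.s k84 k168 13 (.s k28 k24 1 (.s k152 k220 9 (.s k148 k212 7 (.s k208 k88 9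
  (.d k144 k156 k80 1 7)))))), (.s k60 k40 5 (.s k84 k168 13 (.s k148 k212 7 (.s k104 k192 13 (.d
  k124 k64 k188 5 7)))))] (.c k23 (.q k43 [(.s k40 k60 5 (.s k24 k28 1 (.s k8 k56 3 (.d k12 k4 k36 1
  5)))), (.s k84 k168 13 (.s k28 k24 1 (.s k152 k220 9 (.s k148 k212 7 (.s k208 k88 9 (.d k144 k156
  k80 1 7)))))), (.s k60 k40 5 (.s k84 k168 13 (.s k148 k212 7 (.s k104 k192 13 (.d k124 k64 k188 5
  7)))))] .n) (.c k43 (.q k23 [(.s k24 k28 1 (.s k12 k36 5 (.s k8 k4 1 (.d k40 k56 k60 3 5)))), (.s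
  k84 k168 13 (.s k28 k24 1 (.s k152 k220 9 (.s k148 k212 7 (.s k208 k88 9 (.d k144 k156 k80 1
  7)))))), (.s k60 k40 5 (.s k84 k168 13 (.s k148 k212 7 (.s k104 k192 13 (.d k124 k64 k188 5
  7)))))] .n) .n)))) (.c k152 (.f k16 k32 3 (.f k184 k116 9 (.q k240 [(.s k80 k160 11 (.s k144 k208
  7 (.s k112 k176 7 (.d k96 k64 k192 3 11)))), (.s k176 k112 7 (.s k180 k188 1 (.s k120 k60 9 (.d
  k248 k244 k56 1 7)))), (.s k80 k160 11 (.s k84 k168 13 (.s k88 k92 1 (.s k164 k12 13 (.d k244 k248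
  k4 1 11)))))] (.c k23 (.q k43 [(.s k80 k160 11 (.s k144 k208 7 (.s k112 k176 7 (.d k96 k64 k192 3
  11)))), (.s k176 k112 7 (.s k180 k188 1 (.s k120 k60 9 (.d k248 k244 k56 1 7)))), (.s k80 k160 11
  (.s k84 k168 13 (.s k88 k92 1 (.s k164 k12 13 (.d k244 k248 k4 1 11)))))] .n) (.c k43 (.q k23 [(.s
  k80 k160 11 (.s k144 k208 7 (.s k112 k176 7 (.d k96 k64 k192 3 11)))), (.s k176 k112 7 (.s k180
  k188 1 (.s k120 k60 9 (.d k248 k244 k56 1 7)))), (.s k80 k160 11 (.s k84 k168 13 (.s k88 k92 1 (.s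
  k164 k12 13 (.d k244 k248 k4 1 11)))))] .n) .n))))) (.c k168 (.q k255 [(.s k32 k16 3 (.s k186 k117
  10 (.s k170 k85 14 (.s k154 k138 3 (.d k101 k239 k207 10 14))))), (.s k116 k184 9 (.s k117 k186 10
  (.s k118 k119 0 (.s k185 k51 10 (.d k253 k254 k49 0 9))))), (.s k16 k32 3 (.s k85 k170 14 (.s k154
  k223 10 (.s k184 k116 9 (.s k169 k139 4 (.d k253 k254 k1 0 13))))))] (.c k23 (.q k43 [(.s k32 k16
  3 (.s k186 k117 10 (.s k170 k85 14 (.s k154 k138 3 (.d k101 k239 k207 10 14))))), (.s k116 k184 9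
  (.s k117 k186 10 (.s k118 k119 0 (.s k185 k51 10 (.d k253 k254 k49 0 9))))), (.s k16 k32 3 (.s k85
  k170 14 (.s k154 k223 10 (.s k184 k116 9 (.s k169 k139 4 (.d k253 k254 k1 0 13))))))] .n) (.c k43
  (.q k23 [(.s k32 k16 3 (.s k186 k117 10 (.s k170 k85 14 (.s k154 k138 3 (.d k101 k239 k207 10
  14))))), (.s k116 k184 9 (.s k117 k186 10 (.s k118 k119 0 (.s k185 k51 10 (.d k253 k254 k49 0
  9))))), (.s k16 k32 3 (.s k85 k170 14 (.s k154 k223 10 (.s k184 k116 9 (.s k169 k139 4 (.d k253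
  k254 k1 0 13))))))] .n) .n))) (.c k184 (.f k16 k32 3 (.q k20 [(.s k60 k40 5 (.s k24 k28 1 (.s k36
  k12 5 (.d k52 k56 k4 1 3)))), (.s k84 k168 13 (.s k28 k24 1 (.s k152 k220 9 (.s k148 k212 7 (.s
  k208 k88 9 (.d k144 k156 k80 1 7)))))), (.s k60 k40 5 (.s k84 k168 13 (.s k148 k212 7 (.s k104
  k192 13 (.d k124 k64 k188 5 7)))))] (.c k23 (.q k43 [(.s k60 k40 5 (.s k24 k28 1 (.s k36 k12 5 (.d
  k52 k56 k4 1 3)))), (.s k84 k168 13 (.s k28 k24 1 (.s k152 k220 9 (.s k148 k212 7 (.s k208 k88 9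
  (.d k144 k156 k80 1 7)))))), (.s k60 k40 5 (.s k84 k168 13 (.s k148 k212 7 (.s k104 k192 13 (.d
  k124 k64 k188 5 7)))))] .n) (.c k43 (.q k23 [(.s k24 k28 1 (.s k12 k36 5 (.s k8 k4 1 (.d k40 k56
  k60 3 5)))), (.s k84 k168 13 (.s k28 k24 1 (.s k152 k220 9 (.s k148 k212 7 (.s k208 k88 9 (.d k144
  k156 k80 1 7)))))), (.s k60 k40 5 (.s k84 k168 13 (.s k148 k212 7 (.s k104 k192 13 (.d k124 k64
  k188 5 7)))))] .n) .n)))) (.c k204 (.f k16 k32 3 (.f k116 k184 9 (.q k240 [(.s k80 k160 11 (.s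
  k144 k208 7 (.s k112 k176 7 (.d k96 k64 k192 3 11)))), (.s k112 k176 7 (.s k120 k124 1 (.s k180
  k60 9 (.d k244 k248 k52 1 7)))), (.s k80 k160 11 (.s k84 k168 13 (.s k88 k92 1 (.s k164 k12 13 (.d
  k244 k248 k4 1 11)))))] (.c k23 (.q k43 [(.s k80 k160 11 (.s k144 k208 7 (.s k112 k176 7 (.d k96
  k64 k192 3 11)))), (.s k112 k176 7 (.s k120 k124 1 (.s k180 k60 9 (.d k244 k248 k52 1 7)))), (.s
  k80 k160 11 (.s k84 k168 13 (.s k88 k92 1 (.s k164 k12 13 (.d k244 k248 k4 1 11)))))] (.c k70 (.q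
  k137 [(.s k80 k160 11 (.s k144 k208 7 (.s k112 k176 7 (.d k96 k64 k192 3 11)))), (.s k112 k176 7
  (.s k120 k124 1 (.s k180 k60 9 (.d k244 k248 k52 1 7)))), (.s k80 k160 11 (.s k84 k168 13 (.s k88
  k92 1 (.s k164 k12 13 (.d k244 k248 k4 1 11)))))] (.c k110 (.q k157 [(.s k80 k160 11 (.s k144 k208
  7 (.s k112 k176 7 (.d k96 k64 k192 3 11)))), (.s k112 k176 7 (.s k120 k124 1 (.s k180 k60 9 (.d
  k244 k248 k52 1 7)))), (.s k80 k160 11 (.s k84 k168 13 (.s k88 k92 1 (.s k164 k12 13 (.d k244 k248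
  k4 1 11)))))] .n) (.c k157 (.q k110 [(.s k80 k160 11 (.s k144 k208 7 (.s k112 k176 7 (.d k96 k64
  k192 3 11)))), (.s k112 k176 7 (.s k120 k124 1 (.s k180 k60 9 (.d k244 k248 k52 1 7)))), (.s k80
  k160 11 (.s k84 k168 13 (.s k88 k92 1 (.s k164 k12 13 (.d k244 k248 k4 1 11)))))] .n) .n))) (.c
  k110 (.q k157 [(.s k80 k160 11 (.s k144 k208 7 (.s k112 k176 7 (.d k96 k64 k192 3 11)))), (.s k112
  k176 7 (.s k120 k124 1 (.s k180 k60 9 (.d k244 k248 k52 1 7)))), (.s k80 k160 11 (.s k84 k168 13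
  (.s k88 k92 1 (.s k164 k12 13 (.d k244 k248 k4 1 11)))))] (.c k70 (.q k137 [(.s k80 k160 11 (.s
  k144 k208 7 (.s k112 k176 7 (.d k96 k64 k192 3 11)))), (.s k112 k176 7 (.s k120 k124 1 (.s k180
  k60 9 (.d k244 k248 k52 1 7)))), (.s k80 k160 11 (.s k84 k168 13 (.s k88 k92 1 (.s k164 k12 13 (.d
  k244 k248 k4 1 11)))))] .n) (.c k137 (.q k70 [(.s k80 k160 11 (.s k144 k208 7 (.s k112 k176 7 (.d
  k96 k64 k192 3 11)))), (.s k112 k176 7 (.s k120 k124 1 (.s k180 k60 9 (.d k244 k248 k52 1 7)))),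
  (.s k80 k160 11 (.s k84 k168 13 (.s k88 k92 1 (.s k164 k12 13 (.d k244 k248 k4 1 11)))))] .n)
  .n))) (.c k137 (.q k70 [(.s k80 k160 11 (.s k144 k208 7 (.s k112 k176 7 (.d k96 k64 k192 3 11)))),
  (.s k112 k176 7 (.s k120 k124 1 (.s k180 k60 9 (.d k244 k248 k52 1 7)))), (.s k80 k160 11 (.s k84
  k168 13 (.s k88 k92 1 (.s k164 k12 13 (.d k244 k248 k4 1 11)))))] (.c k110 (.q k157 [(.s k80 k160
  11 (.s k144 k208 7 (.s k112 k176 7 (.d k96 k64 k192 3 11)))), (.s k112 k176 7 (.s k120 k124 1 (.s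
  k180 k60 9 (.d k244 k248 k52 1 7)))), (.s k80 k160 11 (.s k84 k168 13 (.s k88 k92 1 (.s k164 k12
  13 (.d k244 k248 k4 1 11)))))] .n) (.c k157 (.q k110 [(.s k80 k160 11 (.s k144 k208 7 (.s k112
  k176 7 (.d k96 k64 k192 3 11)))), (.s k112 k176 7 (.s k120 k124 1 (.s k180 k60 9 (.d k244 k248 k52
  1 7)))), (.s k80 k160 11 (.s k84 k168 13 (.s k88 k92 1 (.s k164 k12 13 (.d k244 k248 k4 1 11)))))]
  .n) .n))) (.c k157 (.q k110 [(.s k80 k160 11 (.s k144 k208 7 (.s k112 k176 7 (.d k96 k64 k192 3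
  11)))), (.s k112 k176 7 (.s k120 k124 1 (.s k180 k60 9 (.d k244 k248 k52 1 7)))), (.s k80 k160 11
  (.s k84 k168 13 (.s k88 k92 1 (.s k164 k12 13 (.d k244 k248 k4 1 11)))))] (.c k70 (.q k137 [(.s
  k80 k160 11 (.s k144 k208 7 (.s k112 k176 7 (.d k96 k64 k192 3 11)))), (.s k112 k176 7 (.s k120
  k124 1 (.s k180 k60 9 (.d k244 k248 k52 1 7)))), (.s k80 k160 11 (.s k84 k168 13 (.s k88 k92 1 (.s
  k164 k12 13 (.d k244 k248 k4 1 11)))))] .n) (.c k137 (.q k70 [(.s k80 k160 11 (.s k144 k208 7 (.s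
  k112 k176 7 (.d k96 k64 k192 3 11)))), (.s k112 k176 7 (.s k120 k124 1 (.s k180 k60 9 (.d k244
  k248 k52 1 7)))), (.s k80 k160 11 (.s k84 k168 13 (.s k88 k92 1 (.s k164 k12 13 (.d k244 k248 k4 1
  11)))))] .n) .n))) .n))))) (.c k43 (.q k23 [(.s k80 k160 11 (.s k144 k208 7 (.s k112 k176 7 (.d
  k96 k64 k192 3 11)))), (.s k112 k176 7 (.s k120 k124 1 (.s k180 k60 9 (.d k244 k248 k52 1 7)))),
  (.s k80 k160 11 (.s k84 k168 13 (.s k88 k92 1 (.s k164 k12 13 (.d k244 k248 k4 1 11)))))] (.c k70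
  (.q k137 [(.s k80 k160 11 (.s k144 k208 7 (.s k112 k176 7 (.d k96 k64 k192 3 11)))), (.s k112 k176
  7 (.s k120 k124 1 (.s k180 k60 9 (.d k244 k248 k52 1 7)))), (.s k80 k160 11 (.s k84 k168 13 (.s
  k88 k92 1 (.s k164 k12 13 (.d k244 k248 k4 1 11)))))] (.c k110 (.q k157 [(.s k80 k160 11 (.s k144
  k208 7 (.s k112 k176 7 (.d k96 k64 k192 3 11)))), (.s k112 k176 7 (.s k120 k124 1 (.s k180 k60 9
  (.d k244 k248 k52 1 7)))), (.s k80 k160 11 (.s k84 k168 13 (.s k88 k92 1 (.s k164 k12 13 (.d k244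
  k248 k4 1 11)))))] .n) (.c k157 (.q k110 [(.s k80 k160 11 (.s k144 k208 7 (.s k112 k176 7 (.d k96
  k64 k192 3 11)))), (.s k112 k176 7 (.s k120 k124 1 (.s k180 k60 9 (.d k244 k248 k52 1 7)))), (.s
  k80 k160 11 (.s k84 k168 13 (.s k88 k92 1 (.s k164 k12 13 (.d k244 k248 k4 1 11)))))] .n) .n)))
  (.c k110 (.q k157 [(.s k80 k160 11 (.s k144 k208 7 (.s k112 k176 7 (.d k96 k64 k192 3 11)))), (.s
  k112 k176 7 (.s k120 k124 1 (.s k180 k60 9 (.d k244 k248 k52 1 7)))), (.s k80 k160 11 (.s k84 k168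
  13 (.s k88 k92 1 (.s k164 k12 13 (.d k244 k248 k4 1 11)))))] (.c k70 (.q k137 [(.s k80 k160 11 (.s
  k144 k208 7 (.s k112 k176 7 (.d k96 k64 k192 3 11)))), (.s k112 k176 7 (.s k120 k124 1 (.s k180
  k60 9 (.d k244 k248 k52 1 7)))), (.s k80 k160 11 (.s k84 k168 13 (.s k88 k92 1 (.s k164 k12 13 (.d
  k244 k248 k4 1 11)))))] .n) (.c k137 (.q k70 [(.s k80 k160 11 (.s k144 k208 7 (.s k112 k176 7 (.d
  k96 k64 k192 3 11)))), (.s k112 k176 7 (.s k120 k124 1 (.s k180 k60 9 (.d k244 k248 k52 1 7)))),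
  (.s k80 k160 11 (.s k84 k168 13 (.s k88 k92 1 (.s k164 k12 13 (.d k244 k248 k4 1 11)))))] .n)
  .n))) (.c k137 (.q k70 [(.s k80 k160 11 (.s k144 k208 7 (.s k112 k176 7 (.d k96 k64 k192 3 11)))),
  (.s k112 k176 7 (.s k120 k124 1 (.s k180 k60 9 (.d k244 k248 k52 1 7)))), (.s k80 k160 11 (.s k84
  k168 13 (.s k88 k92 1 (.s k164 k12 13 (.d k244 k248 k4 1 11)))))] (.c k110 (.q k157 [(.s k80 k160
  11 (.s k144 k208 7 (.s k112 k176 7 (.d k96 k64 k192 3 11)))), (.s k112 k176 7 (.s k120 k124 1 (.s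
  k180 k60 9 (.d k244 k248 k52 1 7)))), (.s k80 k160 11 (.s k84 k168 13 (.s k88 k92 1 (.s k164 k12
  13 (.d k244 k248 k4 1 11)))))] .n) (.c k157 (.q k110 [(.s k80 k160 11 (.s k144 k208 7 (.s k112
  k176 7 (.d k96 k64 k192 3 11)))), (.s k112 k176 7 (.s k120 k124 1 (.s k180 k60 9 (.d k244 k248 k52
  1 7)))), (.s k80 k160 11 (.s k84 k168 13 (.s k88 k92 1 (.s k164 k12 13 (.d k244 k248 k4 1 11)))))]
  .n) .n))) (.c k157 (.q k110 [(.s k80 k160 11 (.s k144 k208 7 (.s k112 k176 7 (.d k96 k64 k192 3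
  11)))), (.s k112 k176 7 (.s k120 k124 1 (.s k180 k60 9 (.d k244 k248 k52 1 7)))), (.s k80 k160 11
  (.s k84 k168 13 (.s k88 k92 1 (.s k164 k12 13 (.d k244 k248 k4 1 11)))))] (.c k70 (.q k137 [(.s
  k80 k160 11 (.s k144 k208 7 (.s k112 k176 7 (.d k96 k64 k192 3 11)))), (.s k112 k176 7 (.s k120
  k124 1 (.s k180 k60 9 (.d k244 k248 k52 1 7)))), (.s k80 k160 11 (.s k84 k168 13 (.s k88 k92 1 (.s
  k164 k12 13 (.d k244 k248 k4 1 11)))))] .n) (.c k137 (.q k70 [(.s k80 k160 11 (.s k144 k208 7 (.s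
  k112 k176 7 (.d k96 k64 k192 3 11)))), (.s k112 k176 7 (.s k120 k124 1 (.s k180 k60 9 (.d k244
  k248 k52 1 7)))), (.s k80 k160 11 (.s k84 k168 13 (.s k88 k92 1 (.s k164 k12 13 (.d k244 k248 k4 1
  11)))))] .n) .n))) .n))))) (.c k70 (.q k137 [(.s k80 k160 11 (.s k144 k208 7 (.s k112 k176 7 (.d
  k96 k64 k192 3 11)))), (.s k112 k176 7 (.s k120 k124 1 (.s k180 k60 9 (.d k244 k248 k52 1 7)))),
  (.s k80 k160 11 (.s k84 k168 13 (.s k88 k92 1 (.s k164 k12 13 (.d k244 k248 k4 1 11)))))] (.c k23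
  (.q k43 [(.s k80 k160 11 (.s k144 k208 7 (.s k112 k176 7 (.d k96 k64 k192 3 11)))), (.s k112 k176
  7 (.s k120 k124 1 (.s k180 k60 9 (.d k244 k248 k52 1 7)))), (.s k80 k160 11 (.s k84 k168 13 (.s
  k88 k92 1 (.s k164 k12 13 (.d k244 k248 k4 1 11)))))] (.c k110 (.q k157 [(.s k80 k160 11 (.s k144
  k208 7 (.s k112 k176 7 (.d k96 k64 k192 3 11)))), (.s k112 k176 7 (.s k120 k124 1 (.s k180 k60 9
  (.d k244 k248 k52 1 7)))), (.s k80 k160 11 (.s k84 k168 13 (.s k88 k92 1 (.s k164 k12 13 (.d k244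
  k248 k4 1 11)))))] .n) (.c k157 (.q k110 [(.s k80 k160 11 (.s k144 k208 7 (.s k112 k176 7 (.d k96
  k64 k192 3 11)))), (.s k112 k176 7 (.s k120 k124 1 (.s k180 k60 9 (.d k244 k248 k52 1 7)))), (.s
  k80 k160 11 (.s k84 k168 13 (.s k88 k92 1 (.s k164 k12 13 (.d k244 k248 k4 1 11)))))] .n) .n)))
  (.c k43 (.q k23 [(.s k80 k160 11 (.s k144 k208 7 (.s k112 k176 7 (.d k96 k64 k192 3 11)))), (.s
  k112 k176 7 (.s k120 k124 1 (.s k180 k60 9 (.d k244 k248 k52 1 7)))), (.s k80 k160 11 (.s k84 k168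
  13 (.s k88 k92 1 (.s k164 k12 13 (.d k244 k248 k4 1 11)))))] (.c k110 (.q k157 [(.s k80 k160 11
  (.s k144 k208 7 (.s k112 k176 7 (.d k96 k64 k192 3 11)))), (.s k112 k176 7 (.s k120 k124 1 (.s
  k180 k60 9 (.d k244 k248 k52 1 7)))), (.s k80 k160 11 (.s k84 k168 13 (.s k88 k92 1 (.s k164 k12
  13 (.d k244 k248 k4 1 11)))))] .n) (.c k157 (.q k110 [(.s k80 k160 11 (.s k144 k208 7 (.s k112
  k176 7 (.d k96 k64 k192 3 11)))), (.s k112 k176 7 (.s k120 k124 1 (.s k180 k60 9 (.d k244 k248 k52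
  1 7)))), (.s k80 k160 11 (.s k84 k168 13 (.s k88 k92 1 (.s k164 k12 13 (.d k244 k248 k4 1 11)))))]
  .n) .n))) (.c k110 (.q k157 [(.s k80 k160 11 (.s k144 k208 7 (.s k112 k176 7 (.d k96 k64 k192 3
  11)))), (.s k112 k176 7 (.s k120 k124 1 (.s k180 k60 9 (.d k244 k248 k52 1 7)))), (.s k80 k160 11
  (.s k84 k168 13 (.s k88 k92 1 (.s k164 k12 13 (.d k244 k248 k4 1 11)))))] (.c k23 (.q k43 [(.s k80
  k160 11 (.s k144 k208 7 (.s k112 k176 7 (.d k96 k64 k192 3 11)))), (.s k112 k176 7 (.s k120 k124 1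
  (.s k180 k60 9 (.d k244 k248 k52 1 7)))), (.s k80 k160 11 (.s k84 k168 13 (.s k88 k92 1 (.s k164
  k12 13 (.d k244 k248 k4 1 11)))))] .n) (.c k43 (.q k23 [(.s k80 k160 11 (.s k144 k208 7 (.s k112
  k176 7 (.d k96 k64 k192 3 11)))), (.s k112 k176 7 (.s k120 k124 1 (.s k180 k60 9 (.d k244 k248 k52
  1 7)))), (.s k80 k160 11 (.s k84 k168 13 (.s k88 k92 1 (.s k164 k12 13 (.d k244 k248 k4 1 11)))))]
  .n) .n))) (.c k157 (.q k110 [(.s k80 k160 11 (.s k144 k208 7 (.s k112 k176 7 (.d k96 k64 k192 3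
  11)))), (.s k112 k176 7 (.s k120 k124 1 (.s k180 k60 9 (.d k244 k248 k52 1 7)))), (.s k80 k160 11
  (.s k84 k168 13 (.s k88 k92 1 (.s k164 k12 13 (.d k244 k248 k4 1 11)))))] (.c k23 (.q k43 [(.s k80
  k160 11 (.s k144 k208 7 (.s k112 k176 7 (.d k96 k64 k192 3 11)))), (.s k112 k176 7 (.s k120 k124 1
  (.s k180 k60 9 (.d k244 k248 k52 1 7)))), (.s k80 k160 11 (.s k84 k168 13 (.s k88 k92 1 (.s k164
  k12 13 (.d k244 k248 k4 1 11)))))] .n) (.c k43 (.q k23 [(.s k80 k160 11 (.s k144 k208 7 (.s k112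
  k176 7 (.d k96 k64 k192 3 11)))), (.s k112 k176 7 (.s k120 k124 1 (.s k180 k60 9 (.d k244 k248 k52
  1 7)))), (.s k80 k160 11 (.s k84 k168 13 (.s k88 k92 1 (.s k164 k12 13 (.d k244 k248 k4 1 11)))))]
  .n) .n))) .n))))) (.c k110 (.q k157 [(.s k80 k160 11 (.s k144 k208 7 (.s k112 k176 7 (.d k96 k64
  k192 3 11)))), (.s k112 k176 7 (.s k120 k124 1 (.s k180 k60 9 (.d k244 k248 k52 1 7)))), (.s k80
  k160 11 (.s k84 k168 13 (.s k88 k92 1 (.s k164 k12 13 (.d k244 k248 k4 1 11)))))] (.c k23 (.q k43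
  [(.s k80 k160 11 (.s k144 k208 7 (.s k112 k176 7 (.d k96 k64 k192 3 11)))), (.s k112 k176 7 (.s
  k120 k124 1 (.s k180 k60 9 (.d k244 k248 k52 1 7)))), (.s k80 k160 11 (.s k84 k168 13 (.s k88 k92
  1 (.s k164 k12 13 (.d k244 k248 k4 1 11)))))] (.c k70 (.q k137 [(.s k80 k160 11 (.s k144 k208 7
  (.s k112 k176 7 (.d k96 k64 k192 3 11)))), (.s k112 k176 7 (.s k120 k124 1 (.s k180 k60 9 (.d k244
  k248 k52 1 7)))), (.s k80 k160 11 (.s k84 k168 13 (.s k88 k92 1 (.s k164 k12 13 (.d k244 k248 k4 1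
  11)))))] .n) (.c k137 (.q k70 [(.s k80 k160 11 (.s k144 k208 7 (.s k112 k176 7 (.d k96 k64 k192 3
  11)))), (.s k112 k176 7 (.s k120 k124 1 (.s k180 k60 9 (.d k244 k248 k52 1 7)))), (.s k80 k160 11
  (.s k84 k168 13 (.s k88 k92 1 (.s k164 k12 13 (.d k244 k248 k4 1 11)))))] .n) .n))) (.c k43 (.q
  k23 [(.s k80 k160 11 (.s k144 k208 7 (.s k112 k176 7 (.d k96 k64 k192 3 11)))), (.s k112 k176 7
  (.s k120 k124 1 (.s k180 k60 9 (.d k244 k248 k52 1 7)))), (.s k80 k160 11 (.s k84 k168 13 (.s k88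
  k92 1 (.s k164 k12 13 (.d k244 k248 k4 1 11)))))] (.c k70 (.q k137 [(.s k80 k160 11 (.s k144 k208
  7 (.s k112 k176 7 (.d k96 k64 k192 3 11)))), (.s k112 k176 7 (.s k120 k124 1 (.s k180 k60 9 (.d
  k244 k248 k52 1 7)))), (.s k80 k160 11 (.s k84 k168 13 (.s k88 k92 1 (.s k164 k12 13 (.d k244 k248
  k4 1 11)))))] .n) (.c k137 (.q k70 [(.s k80 k160 11 (.s k144 k208 7 (.s k112 k176 7 (.d k96 k64
  k192 3 11)))), (.s k112 k176 7 (.s k120 k124 1 (.s k180 k60 9 (.d k244 k248 k52 1 7)))), (.s k80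
  k160 11 (.s k84 k168 13 (.s k88 k92 1 (.s k164 k12 13 (.d k244 k248 k4 1 11)))))] .n) .n))) (.c
  k70 (.q k137 [(.s k80 k160 11 (.s k144 k208 7 (.s k112 k176 7 (.d k96 k64 k192 3 11)))), (.s k112
  k176 7 (.s k120 k124 1 (.s k180 k60 9 (.d k244 k248 k52 1 7)))), (.s k80 k160 11 (.s k84 k168 13
  (.s k88 k92 1 (.s k164 k12 13 (.d k244 k248 k4 1 11)))))] (.c k23 (.q k43 [(.s k80 k160 11 (.s
  k144 k208 7 (.s k112 k176 7 (.d k96 k64 k192 3 11)))), (.s k112 k176 7 (.s k120 k124 1 (.s k180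
  k60 9 (.d k244 k248 k52 1 7)))), (.s k80 k160 11 (.s k84 k168 13 (.s k88 k92 1 (.s k164 k12 13 (.d
  k244 k248 k4 1 11)))))] .n) (.c k43 (.q k23 [(.s k80 k160 11 (.s k144 k208 7 (.s k112 k176 7 (.d
  k96 k64 k192 3 11)))), (.s k112 k176 7 (.s k120 k124 1 (.s k180 k60 9 (.d k244 k248 k52 1 7)))),
  (.s k80 k160 11 (.s k84 k168 13 (.s k88 k92 1 (.s k164 k12 13 (.d k244 k248 k4 1 11)))))] .n)
  .n))) (.c k137 (.q k70 [(.s k80 k160 11 (.s k144 k208 7 (.s k112 k176 7 (.d k96 k64 k192 3 11)))),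
  (.s k112 k176 7 (.s k120 k124 1 (.s k180 k60 9 (.d k244 k248 k52 1 7)))), (.s k80 k160 11 (.s k84
  k168 13 (.s k88 k92 1 (.s k164 k12 13 (.d k244 k248 k4 1 11)))))] (.c k23 (.q k43 [(.s k80 k160 11
  (.s k144 k208 7 (.s k112 k176 7 (.d k96 k64 k192 3 11)))), (.s k112 k176 7 (.s k120 k124 1 (.s
  k180 k60 9 (.d k244 k248 k52 1 7)))), (.s k80 k160 11 (.s k84 k168 13 (.s k88 k92 1 (.s k164 k12
  13 (.d k244 k248 k4 1 11)))))] .n) (.c k43 (.q k23 [(.s k80 k160 11 (.s k144 k208 7 (.s k112 k176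
  7 (.d k96 k64 k192 3 11)))), (.s k112 k176 7 (.s k120 k124 1 (.s k180 k60 9 (.d k244 k248 k52 1
  7)))), (.s k80 k160 11 (.s k84 k168 13 (.s k88 k92 1 (.s k164 k12 13 (.d k244 k248 k4 1 11)))))]
  .n) .n))) .n))))) (.c k137 (.q k70 [(.s k80 k160 11 (.s k144 k208 7 (.s k112 k176 7 (.d k96 k64
  k192 3 11)))), (.s k112 k176 7 (.s k120 k124 1 (.s k180 k60 9 (.d k244 k248 k52 1 7)))), (.s k80
  k160 11 (.s k84 k168 13 (.s k88 k92 1 (.s k164 k12 13 (.d k244 k248 k4 1 11)))))] (.c k23 (.q k43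
  [(.s k80 k160 11 (.s k144 k208 7 (.s k112 k176 7 (.d k96 k64 k192 3 11)))), (.s k112 k176 7 (.s
  k120 k124 1 (.s k180 k60 9 (.d k244 k248 k52 1 7)))), (.s k80 k160 11 (.s k84 k168 13 (.s k88 k92
  1 (.s k164 k12 13 (.d k244 k248 k4 1 11)))))] (.c k110 (.q k157 [(.s k80 k160 11 (.s k144 k208 7
  (.s k112 k176 7 (.d k96 k64 k192 3 11)))), (.s k112 k176 7 (.s k120 k124 1 (.s k180 k60 9 (.d k244
  k248 k52 1 7)))), (.s k80 k160 11 (.s k84 k168 13 (.s k88 k92 1 (.s k164 k12 13 (.d k244 k248 k4 1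
  11)))))] .n) (.c k157 (.q k110 [(.s k80 k160 11 (.s k144 k208 7 (.s k112 k176 7 (.d k96 k64 k192 3
  11)))), (.s k112 k176 7 (.s k120 k124 1 (.s k180 k60 9 (.d k244 k248 k52 1 7)))), (.s k80 k160 11
  (.s k84 k168 13 (.s k88 k92 1 (.s k164 k12 13 (.d k244 k248 k4 1 11)))))] .n) .n))) (.c k43 (.q
  k23 [(.s k80 k160 11 (.s k144 k208 7 (.s k112 k176 7 (.d k96 k64 k192 3 11)))), (.s k112 k176 7
  (.s k120 k124 1 (.s k180 k60 9 (.d k244 k248 k52 1 7)))), (.s k80 k160 11 (.s k84 k168 13 (.s k88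
  k92 1 (.s k164 k12 13 (.d k244 k248 k4 1 11)))))] (.c k110 (.q k157 [(.s k80 k160 11 (.s k144 k208
  7 (.s k112 k176 7 (.d k96 k64 k192 3 11)))), (.s k112 k176 7 (.s k120 k124 1 (.s k180 k60 9 (.d
  k244 k248 k52 1 7)))), (.s k80 k160 11 (.s k84 k168 13 (.s k88 k92 1 (.s k164 k12 13 (.d k244 k248
  k4 1 11)))))] .n) (.c k157 (.q k110 [(.s k80 k160 11 (.s k144 k208 7 (.s k112 k176 7 (.d k96 k64
  k192 3 11)))), (.s k112 k176 7 (.s k120 k124 1 (.s k180 k60 9 (.d k244 k248 k52 1 7)))), (.s k80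
  k160 11 (.s k84 k168 13 (.s k88 k92 1 (.s k164 k12 13 (.d k244 k248 k4 1 11)))))] .n) .n))) (.c
  k110 (.q k157 [(.s k80 k160 11 (.s k144 k208 7 (.s k112 k176 7 (.d k96 k64 k192 3 11)))), (.s k112
  k176 7 (.s k120 k124 1 (.s k180 k60 9 (.d k244 k248 k52 1 7)))), (.s k80 k160 11 (.s k84 k168 13
  (.s k88 k92 1 (.s k164 k12 13 (.d k244 k248 k4 1 11)))))] (.c k23 (.q k43 [(.s k80 k160 11 (.s
  k144 k208 7 (.s k112 k176 7 (.d k96 k64 k192 3 11)))), (.s k112 k176 7 (.s k120 k124 1 (.s k180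
  k60 9 (.d k244 k248 k52 1 7)))), (.s k80 k160 11 (.s k84 k168 13 (.s k88 k92 1 (.s k164 k12 13 (.d
  k244 k248 k4 1 11)))))] .n) (.c k43 (.q k23 [(.s k80 k160 11 (.s k144 k208 7 (.s k112 k176 7 (.d
  k96 k64 k192 3 11)))), (.s k112 k176 7 (.s k120 k124 1 (.s k180 k60 9 (.d k244 k248 k52 1 7)))),
  (.s k80 k160 11 (.s k84 k168 13 (.s k88 k92 1 (.s k164 k12 13 (.d k244 k248 k4 1 11)))))] .n)
  .n))) (.c k157 (.q k110 [(.s k80 k160 11 (.s k144 k208 7 (.s k112 k176 7 (.d k96 k64 k192 3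
  11)))), (.s k112 k176 7 (.s k120 k124 1 (.s k180 k60 9 (.d k244 k248 k52 1 7)))), (.s k80 k160 11
  (.s k84 k168 13 (.s k88 k92 1 (.s k164 k12 13 (.d k244 k248 k4 1 11)))))] (.c k23 (.q k43 [(.s k80
  k160 11 (.s k144 k208 7 (.s k112 k176 7 (.d k96 k64 k192 3 11)))), (.s k112 k176 7 (.s k120 k124 1
  (.s k180 k60 9 (.d k244 k248 k52 1 7)))), (.s k80 k160 11 (.s k84 k168 13 (.s k88 k92 1 (.s k164
  k12 13 (.d k244 k248 k4 1 11)))))] .n) (.c k43 (.q k23 [(.s k80 k160 11 (.s k144 k208 7 (.s k112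
  k176 7 (.d k96 k64 k192 3 11)))), (.s k112 k176 7 (.s k120 k124 1 (.s k180 k60 9 (.d k244 k248 k52
  1 7)))), (.s k80 k160 11 (.s k84 k168 13 (.s k88 k92 1 (.s k164 k12 13 (.d k244 k248 k4 1 11)))))]
  .n) .n))) .n))))) (.c k157 (.q k110 [(.s k80 k160 11 (.s k144 k208 7 (.s k112 k176 7 (.d k96 k64
  k192 3 11)))), (.s k112 k176 7 (.s k120 k124 1 (.s k180 k60 9 (.d k244 k248 k52 1 7)))), (.s k80
  k160 11 (.s k84 k168 13 (.s k88 k92 1 (.s k164 k12 13 (.d k244 k248 k4 1 11)))))] (.c k23 (.q k43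
  [(.s k80 k160 11 (.s k144 k208 7 (.s k112 k176 7 (.d k96 k64 k192 3 11)))), (.s k112 k176 7 (.s
  k120 k124 1 (.s k180 k60 9 (.d k244 k248 k52 1 7)))), (.s k80 k160 11 (.s k84 k168 13 (.s k88 k92
  1 (.s k164 k12 13 (.d k244 k248 k4 1 11)))))] (.c k70 (.q k137 [(.s k80 k160 11 (.s k144 k208 7
  (.s k112 k176 7 (.d k96 k64 k192 3 11)))), (.s k112 k176 7 (.s k120 k124 1 (.s k180 k60 9 (.d k244
  k248 k52 1 7)))), (.s k80 k160 11 (.s k84 k168 13 (.s k88 k92 1 (.s k164 k12 13 (.d k244 k248 k4 1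
  11)))))] .n) (.c k137 (.q k70 [(.s k80 k160 11 (.s k144 k208 7 (.s k112 k176 7 (.d k96 k64 k192 3
  11)))), (.s k112 k176 7 (.s k120 k124 1 (.s k180 k60 9 (.d k244 k248 k52 1 7)))), (.s k80 k160 11
  (.s k84 k168 13 (.s k88 k92 1 (.s k164 k12 13 (.d k244 k248 k4 1 11)))))] .n) .n))) (.c k43 (.q
  k23 [(.s k80 k160 11 (.s k144 k208 7 (.s k112 k176 7 (.d k96 k64 k192 3 11)))), (.s k112 k176 7
  (.s k120 k124 1 (.s k180 k60 9 (.d k244 k248 k52 1 7)))), (.s k80 k160 11 (.s k84 k168 13 (.s k88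
  k92 1 (.s k164 k12 13 (.d k244 k248 k4 1 11)))))] (.c k70 (.q k137 [(.s k80 k160 11 (.s k144 k208
  7 (.s k112 k176 7 (.d k96 k64 k192 3 11)))), (.s k112 k176 7 (.s k120 k124 1 (.s k180 k60 9 (.d
  k244 k248 k52 1 7)))), (.s k80 k160 11 (.s k84 k168 13 (.s k88 k92 1 (.s k164 k12 13 (.d k244 k248
  k4 1 11)))))] .n) (.c k137 (.q k70 [(.s k80 k160 11 (.s k144 k208 7 (.s k112 k176 7 (.d k96 k64
  k192 3 11)))), (.s k112 k176 7 (.s k120 k124 1 (.s k180 k60 9 (.d k244 k248 k52 1 7)))), (.s k80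
  k160 11 (.s k84 k168 13 (.s k88 k92 1 (.s k164 k12 13 (.d k244 k248 k4 1 11)))))] .n) .n))) (.c
  k70 (.q k137 [(.s k80 k160 11 (.s k144 k208 7 (.s k112 k176 7 (.d k96 k64 k192 3 11)))), (.s k112
  k176 7 (.s k120 k124 1 (.s k180 k60 9 (.d k244 k248 k52 1 7)))), (.s k80 k160 11 (.s k84 k168 13
  (.s k88 k92 1 (.s k164 k12 13 (.d k244 k248 k4 1 11)))))] (.c k23 (.q k43 [(.s k80 k160 11 (.s
  k144 k208 7 (.s k112 k176 7 (.d k96 k64 k192 3 11)))), (.s k112 k176 7 (.s k120 k124 1 (.s k180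
  k60 9 (.d k244 k248 k52 1 7)))), (.s k80 k160 11 (.s k84 k168 13 (.s k88 k92 1 (.s k164 k12 13 (.d
  k244 k248 k4 1 11)))))] .n) (.c k43 (.q k23 [(.s k80 k160 11 (.s k144 k208 7 (.s k112 k176 7 (.d
  k96 k64 k192 3 11)))), (.s k112 k176 7 (.s k120 k124 1 (.s k180 k60 9 (.d k244 k248 k52 1 7)))),
  (.s k80 k160 11 (.s k84 k168 13 (.s k88 k92 1 (.s k164 k12 13 (.d k244 k248 k4 1 11)))))] .n)
  .n))) (.c k137 (.q k70 [(.s k80 k160 11 (.s k144 k208 7 (.s k112 k176 7 (.d k96 k64 k192 3 11)))),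
  (.s k112 k176 7 (.s k120 k124 1 (.s k180 k60 9 (.d k244 k248 k52 1 7)))), (.s k80 k160 11 (.s k84
  k168 13 (.s k88 k92 1 (.s k164 k12 13 (.d k244 k248 k4 1 11)))))] (.c k23 (.q k43 [(.s k80 k160 11
  (.s k144 k208 7 (.s k112 k176 7 (.d k96 k64 k192 3 11)))), (.s k112 k176 7 (.s k120 k124 1 (.s
  k180 k60 9 (.d k244 k248 k52 1 7)))), (.s k80 k160 11 (.s k84 k168 13 (.s k88 k92 1 (.s k164 k12
  13 (.d k244 k248 k4 1 11)))))] .n) (.c k43 (.q k23 [(.s k80 k160 11 (.s k144 k208 7 (.s k112 k176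
  7 (.d k96 k64 k192 3 11)))), (.s k112 k176 7 (.s k120 k124 1 (.s k180 k60 9 (.d k244 k248 k52 1
  7)))), (.s k80 k160 11 (.s k84 k168 13 (.s k88 k92 1 (.s k164 k12 13 (.d k244 k248 k4 1 11)))))]
  .n) .n))) .n))))) .n))))))))) (.c k220 (.l (.s k32 k16 3 (.s k184 k116 9 (.s k168 k84 13 (.s k152
  k136 3 (.d k100 k236 k204 9 13)))))) (.c k236 (.l (.s k16 k32 3 (.s k116 k184 9 (.s k84 k168 13
  (.s k100 k68 3 (.d k152 k220 k204 9 13)))))) .n)))))))))))))))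

def t84_1 : T TT 256 :=
  (.q k255 [(.s k4 k8 1 (.s k85 k170 14 (.s k166 k247 12 (.s k93 k174 12 (.d k89 k81 k243 1 14))))),
  (.s k92 k172 11 (.s k93 k174 12 (.s k94 k95 0 (.s k173 k15 12 (.d k253 k254 k13 0 11))))), (.s k8
  k4 1 (.s k170 k85 14 (.s k89 k251 12 (.s k92 k172 11 (.s k86 k83 2 (.d k254 k253 k2 0 13))))))]
  .n)

def t84_2 : T TT 256 :=
  (.q k255 [(.s k92 k172 11 (.s k93 k174 12 (.s k94 k95 0 (.s k173 k15 12 (.d k253 k254 k13 0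
  11))))), (.s k8 k4 1 (.s k170 k85 14 (.s k89 k251 12 (.s k166 k243 14 (.d k174 k162 k93 1 12))))),
  (.s k4 k8 1 (.s k85 k170 14 (.s k166 k247 12 (.s k172 k92 11 (.s k169 k163 2 (.d k253 k254 k1 0
  13))))))] .n)

def t84_4 : T TT 256 :=
  (.q k255 [(.s k92 k172 11 (.s k93 k174 12 (.s k94 k95 0 (.s k253 k254 0 (.d k173 k13 k15 11
  12))))), (.s k170 k85 14 (.s k92 k172 11 (.s k254 k253 0 (.s k86 k2 13 (.s k89 k83 2 (.s k251 k8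
  12 (.d k243 k247 k166 1 14))))))), (.s k85 k170 14 (.s k93 k174 12 (.s k89 k81 1 (.s k253 k254 0
  (.s k169 k1 13 (.s k249 k9 11 (.d k243 k166 k246 14 2)))))))] (.c k164 (.q k244 [(.s k92 k172 11
  (.s k93 k174 12 (.s k94 k95 0 (.s k253 k254 0 (.d k173 k13 k15 11 12))))), (.s k240 k248 1 (.s
  k245 k250 2 (.s k246 k247 0 (.s k249 k243 2 (.d k253 k254 k241 0 1))))), (.s k85 k170 14 (.s k93
  k174 12 (.s k240 k248 1 (.s k80 k160 11 (.s k95 k90 2 (.d k92 k172 k94 11 0))))))] .n) (.c k244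
  (.q k164 [(.s k172 k92 11 (.s k160 k168 1 (.d k240 k80 k88 11 13))), (.s k92 k172 11 (.s k93 k174
  12 (.s k94 k95 0 (.s k173 k15 12 (.d k253 k254 k13 0 11)))))] (.c k92 (.l (.s k85 k170 14 (.s k240
  k88 13 (.s k80 k160 11 (.s k90 k95 2 (.s k165 k15 14 (.d k245 k250 k5 2 11))))))) (.c k172 (.l (.s
  k85 k170 14 (.s k240 k88 13 (.s k80 k160 11 (.s k90 k95 2 (.s k165 k15 14 (.d k245 k250 k5 2
  11))))))) .n))) (.c k253 (.q k164 [(.s k172 k92 11 (.s k160 k168 1 (.d k240 k80 k88 11 13))), (.s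
  k170 k85 14 (.s k174 k93 12 (.s k166 k162 1 (.s k165 k167 0 (.s k160 k175 2 (.d k172 k168 k92 1
  11)))))), (.s k85 k170 14 (.s k240 k88 13 (.s k80 k160 11 (.s k90 k95 2 (.s k165 k15 14 (.d k245
  k250 k5 2 11))))))] (.c k92 (.l (.s k85 k170 14 (.s k240 k88 13 (.s k80 k160 11 (.s k90 k95 2 (.s
  k165 k15 14 (.d k245 k250 k5 2 11))))))) (.c k160 (.l (.s k85 k170 14 (.s k88 k240 13 (.s k92 k172
  11 (.s k93 k174 12 (.s k89 k81 1 (.s k90 k91 0 (.d k95 k94 k80 0 2)))))))) .n))) (.c k254 (.l (.s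
  k170 k85 14 (.s k172 k92 11 (.s k174 k93 12 (.s k175 k173 0 (.s k160 k165 2 (.s k164 k168 1 (.d
  k240 k80 k88 11 13)))))))) .n)))))

def t84_5 : T TT 256 :=
  (.q k255 [(.s k4 k8 1 (.s k85 k170 14 (.s k166 k247 12 (.s k93 k174 12 (.d k89 k81 k243 1 14))))),
  (.s k92 k172 11 (.s k93 k174 12 (.s k94 k95 0 (.s k173 k15 12 (.d k253 k254 k13 0 11))))), (.s k4
  k8 1 (.s k85 k170 14 (.s k166 k247 12 (.s k172 k92 11 (.s k169 k163 2 (.d k253 k254 k1 0 13))))))]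
  .n)

def t84_6 : T TT 256 :=
  (.q k255 [(.s k4 k8 1 (.s k85 k170 14 (.s k166 k247 12 (.s k93 k174 12 (.d k89 k81 k243 1 14))))),
  (.s k92 k172 11 (.s k93 k174 12 (.s k94 k95 0 (.s k173 k15 12 (.d k253 k254 k13 0 11))))), (.s k4
  k8 1 (.s k85 k170 14 (.s k166 k247 12 (.s k172 k92 11 (.s k169 k163 2 (.d k253 k254 k1 0 13))))))]
  .n)

def t84_7 : T TT 256 :=
  (.f k92 k172 11 (.q k255 [(.s k93 k174 12 (.s k94 k95 0 (.s k253 k254 0 (.d k173 k15 k13 12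
  11)))), (.s k4 k8 1 (.s k85 k170 14 (.s k166 k247 12 (.s k89 k243 14 (.d k93 k81 k174 1 12))))),
  (.s k8 k4 1 (.s k170 k85 14 (.s k89 k251 12 (.s k86 k83 2 (.d k254 k253 k2 0 13)))))] (.c k11 (.q
  k15 [(.s k93 k174 12 (.d k94 k173 k95 12 0)), (.s k8 k4 1 (.s k170 k85 14 (.s k89 k251 12 (.s k86
  k83 2 (.d k254 k253 k2 0 13)))))] .n) (.c k15 (.q k11 [(.s k4 k8 1 (.s k85 k170 14 (.s k93 k174 12
  (.s k89 k81 1 (.d k166 k247 k243 12 14))))), (.s k170 k85 14 (.s k254 k253 0 (.s k86 k2 13 (.s k89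
  k83 2 (.d k8 k4 k251 1 12))))), (.s k85 k170 14 (.s k93 k174 12 (.s k95 k94 0 (.s k90 k80 2 (.s
  k169 k248 12 (.d k253 k254 k1 0 13))))))] (.c k85 (.q k86 [(.s k89 k83 2 (.s k254 k253 0 (.s k170
  k2 13 (.d k8 k4 k251 1 12)))), (.s k8 k4 1 (.s k10 k9 0 (.s k93 k174 12 (.s k94 k95 0 (.s k90 k82
  1 (.s k170 k250 11 (.d k254 k253 k2 0 13))))))), (.s k8 k4 1 (.s k89 k83 2 (.s k251 k170 12 (.d
  k243 k247 k166 1 14)))), (.s k174 k93 12 (.s k89 k83 2 (.s k254 k253 0 (.s k170 k2 13 (.d k166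
  k243 k162 14 1)))))] (.c k170 (.l (.s k8 k4 1 (.s k9 k10 0 (.s k89 k83 2 (.s k249 k169 11 (.d k243
  k166 k246 14 2)))))) .n)) (.c k170 (.q k24 [(.s k48 k36 5 (.s k116 k184 9 (.s k117 k186 10 (.s
  k118 k119 0 (.s k185 k51 10 (.d k253 k254 k49 0 9)))))), (.s k8 k4 1 (.s k10 k9 0 (.s k56 k40 3
  (.s k26 k41 4 (.s k42 k58 3 (.d k25 k27 k59 0 4))))))] (.c k27 (.l (.s k4 k8 1 (.s k36 k48 5 (.s
  k20 k52 3 (.s k60 k40 5 (.d k28 k16 k44 1 3)))))) .n)) .n))) .n))))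

def t84_8 : T TT 256 :=
  (.q k255 [(.s k92 k172 11 (.s k93 k174 12 (.s k94 k95 0 (.s k253 k254 0 (.d k173 k13 k15 11
  12))))), (.s k85 k170 14 (.s k172 k92 11 (.s k253 k254 0 (.s k169 k1 13 (.s k166 k163 2 (.s k247
  k4 12 (.d k243 k251 k89 1 14))))))), (.s k85 k170 14 (.s k93 k174 12 (.s k89 k81 1 (.s k253 k254 0
  (.s k169 k1 13 (.s k249 k9 11 (.d k243 k166 k246 14 2)))))))] (.c k253 (.q k5 [(.s k92 k172 11 (.s
  k93 k174 12 (.s k94 k95 0 (.d k15 k173 k10 12 2)))), (.s k15 k10 2 (.s k85 k170 14 (.s k165 k245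
  11 (.s k90 k240 14 (.d k95 k80 k175 2 11))))), (.s k15 k10 2 (.s k85 k170 14 (.s k165 k245 11 (.s
  k13 k14 0 (.s k93 k174 12 (.d k89 k241 k81 13 1))))))] (.c k10 (.l (.s k85 k170 14 (.s k165 k245
  11 (.s k92 k172 11 (.s k93 k174 12 (.s k95 k94 0 (.s k90 k80 2 (.d k15 k175 k240 11 14)))))))) (.c
  k15 (.l (.s k85 k170 14 (.s k245 k165 11 (.s k92 k172 11 (.s k93 k174 12 (.s k95 k94 0 (.s k80 k90
  2 (.d k240 k250 k160 2 11)))))))) .n))) (.c k254 (.l (.s k170 k85 14 (.s k172 k92 11 (.s k174 k93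
  12 (.s k175 k173 0 (.s k160 k165 2 (.s k164 k168 1 (.d k240 k80 k88 11 13)))))))) .n)))

def t84_9 : T TT 256 :=
  (.q k255 [(.s k92 k172 11 (.s k93 k174 12 (.s k94 k95 0 (.s k173 k15 12 (.d k253 k254 k13 0
  11))))), (.s k8 k4 1 (.s k170 k85 14 (.s k89 k251 12 (.s k166 k243 14 (.d k174 k162 k93 1 12))))),
  (.s k4 k8 1 (.s k85 k170 14 (.s k166 k247 12 (.s k172 k92 11 (.s k169 k163 2 (.d k253 k254 k1 0
  13))))))] .n)

def t84_10 : T TT 256 :=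
  (.q k255 [(.s k92 k172 11 (.s k93 k174 12 (.s k94 k95 0 (.s k173 k15 12 (.d k253 k254 k13 0
  11))))), (.s k8 k4 1 (.s k170 k85 14 (.s k89 k251 12 (.s k166 k243 14 (.d k174 k162 k93 1 12))))),
  (.s k4 k8 1 (.s k85 k170 14 (.s k166 k247 12 (.s k172 k92 11 (.s k169 k163 2 (.d k253 k254 k1 0
  13))))))] .n)

def t84_11 : T TT 256 :=
  (.q k255 [(.s k92 k172 11 (.s k93 k174 12 (.s k94 k95 0 (.s k253 k254 0 (.d k173 k15 k13 12
  11))))), (.s k4 k8 1 (.s k85 k170 14 (.s k166 k247 12 (.s k89 k243 14 (.d k93 k81 k174 1 12))))),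
  (.s k4 k8 1 (.s k85 k170 14 (.s k166 k247 12 (.s k172 k92 11 (.s k169 k163 2 (.d k253 k254 k1 0
  13))))))] (.c k7 (.q k15 [(.s k13 k14 0 (.s k93 k174 12 (.d k173 k94 k253 12 11))), (.s k5 k10 2
  (.s k85 k170 14 (.s k165 k245 11 (.s k90 k240 14 (.d k95 k80 k175 2 11)))))] .n) (.c k15 (.q k7
  [(.s k4 k8 1 (.s k85 k170 14 (.s k166 k247 12 (.s k93 k174 12 (.d k89 k81 k243 1 14))))), (.s k85
  k170 14 (.s k172 k92 11 (.s k253 k254 0 (.s k169 k1 13 (.s k166 k163 2 (.d k4 k8 k247 1 12)))))),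
  (.s k85 k170 14 (.s k172 k92 11 (.s k93 k174 12 (.s k89 k81 1 (.s k166 k243 14 (.s k253 k254 0 (.d
  k169 k163 k1 2 13)))))))] (.c k85 (.q k86 [(.s k4 k8 1 (.s k6 k5 0 (.s k166 k246 11 (.s k92 k172
  11 (.d k89 k83 k243 2 14))))), (.s k165 k244 12 (.s k92 k172 11 (.s k93 k174 12 (.s k89 k83 2 (.s
  k13 k241 13 (.d k253 k173 k254 11 0)))))), (.s k4 k8 1 (.s k6 k5 0 (.s k166 k246 11 (.s k254 k253
  0 (.s k170 k2 13 (.d k174 k162 k93 1 12))))))] (.c k4 (.l (.s k244 k165 12 (.s k92 k172 11 (.s k89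
  k83 2 (.s k243 k166 14 (.s k247 k251 1 (.d k246 k245 k249 0 2))))))) (.c k165 (.l (.s k8 k4 1 (.s
  k92 k172 11 (.s k89 k83 2 (.s k170 k251 12 (.d k254 k253 k2 0 13)))))) .n))) (.c k166 (.l (.s k170
  k85 14 (.s k92 k172 11 (.s k254 k253 0 (.s k86 k2 13 (.s k89 k83 2 (.d k8 k4 k251 1 12))))))) (.c
  k170 (.q k86 [(.s k92 k172 11 (.s k93 k174 12 (.s k89 k83 2 (.s k81 k85 1 (.d k243 k162 k166 12
  14))))), (.s k4 k8 1 (.s k6 k5 0 (.s k166 k246 11 (.s k247 k85 12 (.s k165 k244 12 (.d k167 k164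
  k87 0 11)))))), (.s k165 k244 12 (.s k92 k172 11 (.s k89 k83 2 (.s k13 k241 13 (.s k253 k254 0 (.d
  k93 k173 k174 11 12))))))] (.c k89 (.l (.s k244 k165 12 (.s k240 k248 1 (.s k245 k250 2 (.s k246
  k247 0 (.s k6 k166 11 (.d k4 k5 k8 0 1))))))) .n)) (.c k243 (.l (.s k4 k8 1 (.s k85 k170 14 (.s
  k166 k247 12 (.s k172 k92 11 (.s k253 k254 0 (.d k169 k163 k1 2 13))))))) .n))))) .n)))

def t84_13 : T TT 256 :=
  (.q k255 [(.s k4 k8 1 (.s k85 k170 14 (.s k166 k247 12 (.s k93 k174 12 (.d k89 k81 k243 1 14))))),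
  (.s k172 k92 11 (.s k174 k93 12 (.s k173 k175 0 (.s k94 k15 12 (.d k254 k253 k14 0 11))))), (.s k4
  k8 1 (.s k85 k170 14 (.s k166 k247 12 (.s k172 k92 11 (.s k169 k163 2 (.d k253 k254 k1 0 13))))))]
  .n)

def t84_14 : T TT 256 :=
  (.q k255 [(.s k4 k8 1 (.s k85 k170 14 (.s k166 k247 12 (.s k89 k243 14 (.d k93 k81 k174 1 12))))),
  (.s k92 k172 11 (.s k93 k174 12 (.s k94 k95 0 (.s k173 k15 12 (.d k253 k254 k13 0 11))))), (.s k4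
  k8 1 (.s k85 k170 14 (.s k166 k247 12 (.s k172 k92 11 (.s k169 k163 2 (.d k253 k254 k1 0 13))))))]
  .n)

def t84_15 : T TT 256 :=
  (.q k60 [(.s k4 k8 1 (.s k20 k40 5 (.s k36 k52 3 (.s k28 k44 3 (.d k24 k16 k48 1 5))))), (.s k28
  k44 3 (.s k92 k172 11 (.s k156 k220 7 (.s k108 k204 11 (.d k124 k76 k188 3 7)))))] (.c k7 (.q k11
  [(.s k4 k8 1 (.s k20 k40 5 (.s k36 k52 3 (.s k28 k44 3 (.d k24 k16 k48 1 5))))), (.s k28 k44 3 (.s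
  k92 k172 11 (.s k156 k220 7 (.s k108 k204 11 (.d k124 k76 k188 3 7)))))] (.c k16 (.l (.s k8 k4 1
  (.s k40 k20 5 (.s k24 k56 3 (.s k36 k48 5 (.d k44 k28 k32 3 1)))))) (.c k28 (.q k255 [(.s k4 k8 1
  (.s k85 k170 14 (.s k93 k174 12 (.s k89 k81 1 (.d k166 k247 k243 12 14))))), (.s k124 k188 7 (.s
  k125 k190 8 (.s k126 k127 0 (.s k189 k63 8 (.d k253 k254 k61 0 7)))))] .n) (.c k44 (.l (.s k8 k4 1
  (.s k40 k20 5 (.s k9 k10 0 (.s k56 k24 3 (.s k41 k26 4 (.s k25 k57 3 (.d k42 k43 k59 0 4))))))))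
  .n)))) (.c k11 (.q k7 [(.s k4 k8 1 (.s k20 k40 5 (.s k36 k52 3 (.s k28 k44 3 (.d k24 k16 k48 1
  5))))), (.s k28 k44 3 (.s k92 k172 11 (.s k156 k220 7 (.s k108 k204 11 (.d k124 k76 k188 3 7))))),
  (.s k4 k8 1 (.s k20 k40 5 (.s k6 k5 0 (.s k52 k36 3 (.s k22 k37 4 (.s k38 k54 3 (.d k21 k23 k55 0
  4)))))))] (.c k44 (.q k255 [(.s k4 k8 1 (.s k85 k170 14 (.s k166 k247 12 (.s k93 k174 12 (.d k89
  k81 k243 1 14))))), (.s k124 k188 7 (.s k125 k190 8 (.s k126 k127 0 (.s k189 k63 8 (.d k253 k254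
  k61 0 7)))))] .n) .n)) (.c k16 (.l (.s k8 k4 1 (.s k40 k20 5 (.s k24 k56 3 (.s k36 k48 5 (.d k44
  k28 k32 3 1)))))) (.c k28 (.q k255 [(.s k4 k8 1 (.s k85 k170 14 (.s k166 k247 12 (.s k93 k174 12
  (.d k89 k81 k243 1 14))))), (.s k124 k188 7 (.s k125 k190 8 (.s k126 k127 0 (.s k189 k63 8 (.d
  k253 k254 k61 0 7)))))] (.c k7 (.q k11 [(.s k4 k8 1 (.s k85 k170 14 (.s k93 k174 12 (.s k89 k81 1
  (.d k166 k247 k243 12 14))))), (.s k124 k188 7 (.s k125 k190 8 (.s k126 k127 0 (.s k189 k63 8 (.d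
  k253 k254 k61 0 7)))))] .n) (.c k11 (.q k7 [(.s k4 k8 1 (.s k85 k170 14 (.s k166 k247 12 (.s k93
  k174 12 (.d k89 k81 k243 1 14))))), (.s k124 k188 7 (.s k125 k190 8 (.s k126 k127 0 (.s k189 k63 8
  (.d k253 k254 k61 0 7)))))] .n) .n))) (.c k44 (.q k255 [(.s k4 k8 1 (.s k85 k170 14 (.s k166 k247
  12 (.s k93 k174 12 (.d k89 k81 k243 1 14))))), (.s k124 k188 7 (.s k125 k190 8 (.s k126 k127 0 (.s
  k189 k63 8 (.d k253 k254 k61 0 7)))))] (.c k7 (.q k11 [(.s k4 k8 1 (.s k85 k170 14 (.s k93 k174 12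
  (.s k89 k81 1 (.d k166 k247 k243 12 14))))), (.s k124 k188 7 (.s k125 k190 8 (.s k126 k127 0 (.s
  k189 k63 8 (.d k253 k254 k61 0 7)))))] .n) (.c k11 (.q k7 [(.s k4 k8 1 (.s k85 k170 14 (.s k166
  k247 12 (.s k93 k174 12 (.d k89 k81 k243 1 14))))), (.s k124 k188 7 (.s k125 k190 8 (.s k126 k127
  0 (.s k189 k63 8 (.d k253 k254 k61 0 7)))))] .n) .n))) .n))))))

def t84_16 : T TT 256 :=
  (.q k255 [(.s k4 k8 1 (.s k85 k170 14 (.s k166 k247 12 (.s k93 k174 12 (.d k89 k81 k243 1 14))))),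
  (.s k92 k172 11 (.s k93 k174 12 (.s k94 k95 0 (.s k173 k15 12 (.d k253 k254 k13 0 11))))), (.s k4
  k8 1 (.s k85 k170 14 (.s k166 k247 12 (.s k172 k92 11 (.s k169 k163 2 (.d k253 k254 k1 0 13))))))]
  (.c k152 (.q k220 [(.s k4 k8 1 (.s k85 k170 14 (.s k166 k247 12 (.s k93 k174 12 (.d k89 k81 k243 1
  14))))), (.s k92 k172 11 (.s k156 k28 7 (.s k204 k236 3 (.s k76 k140 7 (.d k108 k124 k60 3
  11)))))] .n) (.c k220 (.q k152 [(.s k4 k8 1 (.s k85 k170 14 (.s k166 k247 12 (.s k93 k174 12 (.d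
  k89 k81 k243 1 14))))), (.s k92 k172 11 (.s k93 k174 12 (.s k94 k95 0 (.s k173 k15 12 (.d k253
  k254 k13 0 11))))), (.s k4 k8 1 (.s k85 k170 14 (.s k166 k247 12 (.s k172 k92 11 (.s k169 k163 2
  (.d k253 k254 k1 0 13))))))] .n) .n)))

def t84_17 : T TT 256 :=
  (.q k255 [(.s k4 k8 1 (.s k85 k170 14 (.s k166 k247 12 (.s k93 k174 12 (.d k89 k81 k243 1 14))))),
  (.s k92 k172 11 (.s k93 k174 12 (.s k94 k95 0 (.s k173 k15 12 (.d k253 k254 k13 0 11))))), (.s k4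
  k8 1 (.s k85 k170 14 (.s k166 k247 12 (.s k172 k92 11 (.s k169 k163 2 (.d k253 k254 k1 0 13))))))]
  .n)

def t84_18 : T TT 256 :=
  (.q k255 [(.s k4 k8 1 (.s k85 k170 14 (.s k166 k247 12 (.s k93 k174 12 (.d k89 k81 k243 1 14))))),
  (.s k92 k172 11 (.s k93 k174 12 (.s k94 k95 0 (.s k173 k15 12 (.d k253 k254 k13 0 11))))), (.s k4
  k8 1 (.s k85 k170 14 (.s k166 k247 12 (.s k172 k92 11 (.s k169 k163 2 (.d k253 k254 k1 0 13))))))]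
  (.c k33 (.q k48 [(.s k4 k8 1 (.s k85 k170 14 (.s k166 k247 12 (.s k89 k243 14 (.d k93 k81 k174 1
  12))))), (.s k4 k8 1 (.s k32 k16 3 (.s k36 k24 5 (.s k20 k52 3 (.d k40 k44 k60 1 5))))), (.s k16
  k32 3 (.s k85 k170 14 (.s k154 k223 10 (.s k101 k207 14 (.d k117 k69 k186 3 10)))))] .n) (.c k48
  (.q k33 [(.s k4 k8 1 (.s k85 k170 14 (.s k166 k247 12 (.s k93 k174 12 (.d k89 k81 k243 1 14))))),
  (.s k92 k172 11 (.s k93 k174 12 (.s k94 k95 0 (.s k173 k15 12 (.d k253 k254 k13 0 11))))), (.s k4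
  k8 1 (.s k85 k170 14 (.s k166 k247 12 (.s k172 k92 11 (.s k169 k163 2 (.d k253 k254 k1 0 13))))))]
  .n) .n)))

def t84_19 : T TT 256 :=
  (.q k255 [(.s k4 k8 1 (.s k85 k170 14 (.s k166 k247 12 (.s k93 k174 12 (.d k89 k81 k243 1 14))))),
  (.s k92 k172 11 (.s k93 k174 12 (.s k94 k95 0 (.s k173 k15 12 (.d k253 k254 k13 0 11))))), (.s k4
  k8 1 (.s k85 k170 14 (.s k166 k247 12 (.s k172 k92 11 (.s k169 k163 2 (.d k253 k254 k1 0 13))))))]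
  (.c k35 (.q k51 [(.s k4 k8 1 (.s k85 k170 14 (.s k166 k247 12 (.s k89 k243 14 (.d k93 k81 k174 1
  12))))), (.s k4 k8 1 (.s k34 k17 4 (.s k38 k25 6 (.s k21 k55 4 (.d k42 k46 k63 1 6))))), (.s k17
  k34 4 (.s k85 k170 14 (.s k153 k221 9 (.s k102 k204 14 (.d k119 k68 k187 4 9)))))] .n) (.c k51 (.q
  k35 [(.s k4 k8 1 (.s k85 k170 14 (.s k166 k247 12 (.s k93 k174 12 (.d k89 k81 k243 1 14))))), (.s
  k92 k172 11 (.s k93 k174 12 (.s k94 k95 0 (.s k173 k15 12 (.d k253 k254 k13 0 11))))), (.s k4 k8 1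
  (.s k85 k170 14 (.s k166 k247 12 (.s k172 k92 11 (.s k169 k163 2 (.d k253 k254 k1 0 13))))))] .n)
  .n)))

def t84_20 : T TT 256 :=
  (.q k255 [(.s k4 k8 1 (.s k85 k170 14 (.s k166 k247 12 (.s k93 k174 12 (.d k89 k81 k243 1 14))))),
  (.s k92 k172 11 (.s k93 k174 12 (.s k94 k95 0 (.s k173 k15 12 (.d k253 k254 k13 0 11))))), (.s k4
  k8 1 (.s k85 k170 14 (.s k166 k247 12 (.s k172 k92 11 (.s k169 k163 2 (.d k253 k254 k1 0 13))))))]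
  (.c k148 (.q k212 [(.s k4 k8 1 (.s k85 k170 14 (.s k166 k247 12 (.s k93 k174 12 (.d k89 k81 k243 1
  14))))), (.s k192 k232 5 (.s k213 k234 6 (.s k214 k215 0 (.s k233 k195 6 (.d k253 k254 k193 0
  5)))))] (.c k85 (.l (.s k92 k172 11 (.s k93 k174 12 (.s k94 k95 0 (.s k173 k15 12 (.d k253 k254
  k13 0 11)))))) .n)) (.c k212 (.q k148 [(.s k4 k8 1 (.s k85 k170 14 (.s k166 k247 12 (.s k93 k174
  12 (.d k89 k81 k243 1 14))))), (.s k92 k172 11 (.s k93 k174 12 (.s k94 k95 0 (.s k173 k15 12 (.d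
  k253 k254 k13 0 11))))), (.s k4 k8 1 (.s k85 k170 14 (.s k166 k247 12 (.s k172 k92 11 (.s k169
  k163 2 (.d k253 k254 k1 0 13))))))] .n) .n)))

def t84_21 : T TT 256 :=
  (.q k255 [(.s k4 k8 1 (.s k85 k170 14 (.s k166 k247 12 (.s k93 k174 12 (.d k89 k81 k243 1 14))))),
  (.s k92 k172 11 (.s k93 k174 12 (.s k94 k95 0 (.s k173 k15 12 (.d k253 k254 k13 0 11))))), (.s k4
  k8 1 (.s k85 k170 14 (.s k166 k247 12 (.s k172 k92 11 (.s k169 k163 2 (.d k253 k254 k1 0 13))))))]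
  .n)

def t84_22 : T TT 256 :=
  (.q k255 [(.s k4 k8 1 (.s k85 k170 14 (.s k166 k247 12 (.s k93 k174 12 (.d k89 k81 k243 1 14))))),
  (.s k92 k172 11 (.s k93 k174 12 (.s k94 k95 0 (.s k173 k15 12 (.d k253 k254 k13 0 11))))), (.s k4
  k8 1 (.s k85 k170 14 (.s k166 k247 12 (.s k172 k92 11 (.s k169 k163 2 (.d k253 k254 k1 0 13))))))]
  (.c k41 (.q k60 [(.s k4 k8 1 (.s k85 k170 14 (.s k166 k247 12 (.s k89 k243 14 (.d k93 k81 k174 1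
  12))))), (.s k4 k8 1 (.s k20 k40 5 (.s k36 k52 3 (.s k24 k48 5 (.d k28 k16 k44 1 3))))), (.s k20
  k40 5 (.s k85 k170 14 (.s k150 k215 8 (.s k105 k195 14 (.d k125 k65 k190 5 8)))))] .n) (.c k60 (.q
  k41 [(.s k4 k8 1 (.s k85 k170 14 (.s k166 k247 12 (.s k93 k174 12 (.d k89 k81 k243 1 14))))), (.s
  k92 k172 11 (.s k93 k174 12 (.s k94 k95 0 (.s k173 k15 12 (.d k253 k254 k13 0 11))))), (.s k4 k8 1
  (.s k85 k170 14 (.s k166 k247 12 (.s k172 k92 11 (.s k169 k163 2 (.d k253 k254 k1 0 13))))))] .n)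
  .n)))

def t84_23 : T TT 256 :=
  (.q k255 [(.s k4 k8 1 (.s k85 k170 14 (.s k166 k247 12 (.s k93 k174 12 (.d k89 k81 k243 1 14))))),
  (.s k92 k172 11 (.s k93 k174 12 (.s k94 k95 0 (.s k173 k15 12 (.d k253 k254 k13 0 11))))), (.s k4
  k8 1 (.s k85 k170 14 (.s k166 k247 12 (.s k172 k92 11 (.s k169 k163 2 (.d k253 k254 k1 0 13))))))]
  (.c k43 (.q k63 [(.s k4 k8 1 (.s k85 k170 14 (.s k166 k247 12 (.s k89 k243 14 (.d k93 k81 k174 1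
  12))))), (.s k4 k8 1 (.s k21 k42 6 (.s k38 k55 4 (.s k25 k51 6 (.d k29 k17 k46 1 4))))), (.s k21
  k42 6 (.s k85 k170 14 (.s k149 k213 7 (.s k106 k192 14 (.d k127 k64 k191 6 7)))))] .n) (.c k63 (.q
  k43 [(.s k4 k8 1 (.s k85 k170 14 (.s k166 k247 12 (.s k93 k174 12 (.d k89 k81 k243 1 14))))), (.s
  k92 k172 11 (.s k93 k174 12 (.s k94 k95 0 (.s k173 k15 12 (.d k253 k254 k13 0 11))))), (.s k4 k8 1
  (.s k85 k170 14 (.s k166 k247 12 (.s k172 k92 11 (.s k169 k163 2 (.d k253 k254 k1 0 13))))))] .n)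
  .n)))

def t84_24 : T TT 256 :=
  (.q k255 [(.s k92 k172 11 (.s k93 k174 12 (.s k94 k95 0 (.s k173 k15 12 (.d k253 k254 k13 0
  11))))), (.s k4 k8 1 (.s k85 k170 14 (.s k166 k247 12 (.s k89 k243 14 (.d k93 k81 k174 1 12))))),
  (.s k4 k8 1 (.s k85 k170 14 (.s k166 k247 12 (.s k172 k92 11 (.s k169 k163 2 (.d k253 k254 k1 0
  13))))))] .n)

def t84_25 : T TT 256 :=
  (.q k255 [(.s k92 k172 11 (.s k93 k174 12 (.s k94 k95 0 (.s k173 k15 12 (.d k253 k254 k13 0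
  11))))), (.s k4 k8 1 (.s k85 k170 14 (.s k166 k247 12 (.s k89 k243 14 (.d k93 k81 k174 1 12))))),
  (.s k4 k8 1 (.s k85 k170 14 (.s k166 k247 12 (.s k172 k92 11 (.s k169 k163 2 (.d k253 k254 k1 0
  13))))))] .n)

def t84_26 : T TT 256 :=
  (.q k255 [(.s k4 k8 1 (.s k85 k170 14 (.s k166 k247 12 (.s k93 k174 12 (.d k89 k81 k243 1 14))))),
  (.s k92 k172 11 (.s k93 k174 12 (.s k94 k95 0 (.s k173 k15 12 (.d k253 k254 k13 0 11))))), (.s k4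
  k8 1 (.s k85 k170 14 (.s k166 k247 12 (.s k172 k92 11 (.s k169 k163 2 (.d k253 k254 k1 0 13))))))]
  .n)

def t84_27 : T TT 256 :=
  (.q k255 [(.s k4 k8 1 (.s k85 k170 14 (.s k166 k247 12 (.s k93 k174 12 (.d k89 k81 k243 1 14))))),
  (.s k92 k172 11 (.s k93 k174 12 (.s k94 k95 0 (.s k173 k15 12 (.d k253 k254 k13 0 11))))), (.s k4
  k8 1 (.s k85 k170 14 (.s k166 k247 12 (.s k172 k92 11 (.s k169 k163 2 (.d k253 k254 k1 0 13))))))]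
  .n)

def t84_28 : T TT 256 :=
  (.q k255 [(.s k4 k8 1 (.s k85 k170 14 (.s k166 k247 12 (.s k93 k174 12 (.d k89 k81 k243 1 14))))),
  (.s k92 k172 11 (.s k93 k174 12 (.s k94 k95 0 (.s k173 k15 12 (.d k253 k254 k13 0 11))))), (.s k4
  k8 1 (.s k85 k170 14 (.s k166 k247 12 (.s k172 k92 11 (.s k169 k163 2 (.d k253 k254 k1 0 13))))))]
  .n)

def t84_29 : T TT 256 :=
  (.q k255 [(.s k4 k8 1 (.s k85 k170 14 (.s k166 k247 12 (.s k93 k174 12 (.d k89 k81 k243 1 14))))),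
  (.s k92 k172 11 (.s k93 k174 12 (.s k94 k95 0 (.s k173 k15 12 (.d k253 k254 k13 0 11))))), (.s k4
  k8 1 (.s k85 k170 14 (.s k166 k247 12 (.s k172 k92 11 (.s k169 k163 2 (.d k253 k254 k1 0 13))))))]
  .n)

def t84_30 : T TT 256 :=
  (.q k255 [(.s k4 k8 1 (.s k85 k170 14 (.s k166 k247 12 (.s k93 k174 12 (.d k89 k81 k243 1 14))))),
  (.s k92 k172 11 (.s k93 k174 12 (.s k94 k95 0 (.s k173 k15 12 (.d k253 k254 k13 0 11))))), (.s k4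
  k8 1 (.s k85 k170 14 (.s k166 k247 12 (.s k172 k92 11 (.s k169 k163 2 (.d k253 k254 k1 0 13))))))]
  .n)

def t84_31 : T TT 256 :=
  (.q k255 [(.s k4 k8 1 (.s k85 k170 14 (.s k166 k247 12 (.s k93 k174 12 (.d k89 k81 k243 1 14))))),
  (.s k92 k172 11 (.s k93 k174 12 (.s k94 k95 0 (.s k173 k15 12 (.d k253 k254 k13 0 11))))), (.s k4
  k8 1 (.s k85 k170 14 (.s k166 k247 12 (.s k172 k92 11 (.s k169 k163 2 (.d k253 k254 k1 0 13))))))]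
  .n)

def t84_32 : T TT 256 :=
  (.q k255 [(.s k92 k172 11 (.s k93 k174 12 (.s k94 k95 0 (.s k173 k15 12 (.d k253 k254 k13 0
  11))))), (.s k4 k8 1 (.s k85 k170 14 (.s k166 k247 12 (.s k89 k243 14 (.d k93 k81 k174 1 12))))),
  (.s k4 k8 1 (.s k85 k170 14 (.s k166 k247 12 (.s k172 k92 11 (.s k169 k163 2 (.d k253 k254 k1 0
  13))))))] .n)

def t84_33 : T TT 256 :=
  (.q k255 [(.s k4 k8 1 (.s k85 k170 14 (.s k166 k247 12 (.s k93 k174 12 (.d k89 k81 k243 1 14))))),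
  (.s k92 k172 11 (.s k93 k174 12 (.s k94 k95 0 (.s k173 k15 12 (.d k253 k254 k13 0 11))))), (.s k4
  k8 1 (.s k85 k170 14 (.s k166 k247 12 (.s k172 k92 11 (.s k169 k163 2 (.d k253 k254 k1 0 13))))))]
  (.c k18 (.q k48 [(.s k4 k8 1 (.s k85 k170 14 (.s k166 k247 12 (.s k89 k243 14 (.d k93 k81 k174 1
  12))))), (.s k4 k8 1 (.s k32 k16 3 (.s k36 k24 5 (.s k20 k52 3 (.d k40 k44 k60 1 5))))), (.s k16
  k32 3 (.s k85 k170 14 (.s k154 k223 10 (.s k101 k207 14 (.d k117 k69 k186 3 10)))))] .n) (.c k48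
  (.q k18 [(.s k4 k8 1 (.s k85 k170 14 (.s k166 k247 12 (.s k93 k174 12 (.d k89 k81 k243 1 14))))),
  (.s k92 k172 11 (.s k93 k174 12 (.s k94 k95 0 (.s k173 k15 12 (.d k253 k254 k13 0 11))))), (.s k4
  k8 1 (.s k85 k170 14 (.s k166 k247 12 (.s k172 k92 11 (.s k169 k163 2 (.d k253 k254 k1 0 13))))))]
  .n) .n)))

def t84_34 : T TT 256 :=
  (.q k255 [(.s k92 k172 11 (.s k93 k174 12 (.s k94 k95 0 (.s k173 k15 12 (.d k253 k254 k13 0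
  11))))), (.s k4 k8 1 (.s k85 k170 14 (.s k166 k247 12 (.s k89 k243 14 (.d k93 k81 k174 1 12))))),
  (.s k4 k8 1 (.s k85 k170 14 (.s k166 k247 12 (.s k172 k92 11 (.s k169 k163 2 (.d k253 k254 k1 0
  13))))))] .n)

def t84_35 : T TT 256 :=
  (.q k255 [(.s k4 k8 1 (.s k85 k170 14 (.s k166 k247 12 (.s k93 k174 12 (.d k89 k81 k243 1 14))))),
  (.s k92 k172 11 (.s k93 k174 12 (.s k94 k95 0 (.s k173 k15 12 (.d k253 k254 k13 0 11))))), (.s k4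
  k8 1 (.s k85 k170 14 (.s k166 k247 12 (.s k172 k92 11 (.s k169 k163 2 (.d k253 k254 k1 0 13))))))]
  (.c k19 (.q k51 [(.s k4 k8 1 (.s k85 k170 14 (.s k166 k247 12 (.s k89 k243 14 (.d k93 k81 k174 1
  12))))), (.s k4 k8 1 (.s k34 k17 4 (.s k38 k25 6 (.s k21 k55 4 (.d k42 k46 k63 1 6))))), (.s k17
  k34 4 (.s k85 k170 14 (.s k153 k221 9 (.s k102 k204 14 (.d k119 k68 k187 4 9)))))] .n) (.c k51 (.q
  k19 [(.s k4 k8 1 (.s k85 k170 14 (.s k166 k247 12 (.s k93 k174 12 (.d k89 k81 k243 1 14))))), (.s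
  k92 k172 11 (.s k93 k174 12 (.s k94 k95 0 (.s k173 k15 12 (.d k253 k254 k13 0 11))))), (.s k4 k8 1
  (.s k85 k170 14 (.s k166 k247 12 (.s k172 k92 11 (.s k169 k163 2 (.d k253 k254 k1 0 13))))))] .n)
  .n)))

def t84_36 : T TT 256 :=
  (.q k255 [(.s k4 k8 1 (.s k85 k170 14 (.s k166 k247 12 (.s k93 k174 12 (.d k89 k81 k243 1 14))))),
  (.s k92 k172 11 (.s k93 k174 12 (.s k94 k95 0 (.s k173 k15 12 (.d k253 k254 k13 0 11))))), (.s k4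
  k8 1 (.s k85 k170 14 (.s k166 k247 12 (.s k172 k92 11 (.s k169 k163 2 (.d k253 k254 k1 0 13))))))]
  .n)

def t84_37 : T TT 256 :=
  (.q k255 [(.s k4 k8 1 (.s k85 k170 14 (.s k166 k247 12 (.s k93 k174 12 (.d k89 k81 k243 1 14))))),
  (.s k92 k172 11 (.s k93 k174 12 (.s k94 k95 0 (.s k173 k15 12 (.d k253 k254 k13 0 11))))), (.s k4
  k8 1 (.s k85 k170 14 (.s k166 k247 12 (.s k172 k92 11 (.s k169 k163 2 (.d k253 k254 k1 0 13))))))]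
  .n)

def t84_38 : T TT 256 :=
  (.q k255 [(.s k4 k8 1 (.s k85 k170 14 (.s k166 k247 12 (.s k93 k174 12 (.d k89 k81 k243 1 14))))),
  (.s k92 k172 11 (.s k93 k174 12 (.s k94 k95 0 (.s k173 k15 12 (.d k253 k254 k13 0 11))))), (.s k4
  k8 1 (.s k85 k170 14 (.s k166 k247 12 (.s k172 k92 11 (.s k169 k163 2 (.d k253 k254 k1 0 13))))))]
  .n)

def t84_39 : T TT 256 :=
  (.q k255 [(.s k4 k8 1 (.s k85 k170 14 (.s k166 k247 12 (.s k93 k174 12 (.d k89 k81 k243 1 14))))),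
  (.s k92 k172 11 (.s k93 k174 12 (.s k94 k95 0 (.s k173 k15 12 (.d k253 k254 k13 0 11))))), (.s k4
  k8 1 (.s k85 k170 14 (.s k166 k247 12 (.s k172 k92 11 (.s k169 k163 2 (.d k253 k254 k1 0 13))))))]
  .n)

def t84_40 : T TT 256 :=
  (.q k255 [(.s k92 k172 11 (.s k93 k174 12 (.s k94 k95 0 (.s k173 k15 12 (.d k253 k254 k13 0
  11))))), (.s k4 k8 1 (.s k85 k170 14 (.s k166 k247 12 (.s k89 k243 14 (.d k93 k81 k174 1 12))))),
  (.s k4 k8 1 (.s k85 k170 14 (.s k166 k247 12 (.s k172 k92 11 (.s k169 k163 2 (.d k253 k254 k1 0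
  13))))))] .n)

def t84_41 : T TT 256 :=
  (.q k255 [(.s k4 k8 1 (.s k85 k170 14 (.s k166 k247 12 (.s k93 k174 12 (.d k89 k81 k243 1 14))))),
  (.s k92 k172 11 (.s k93 k174 12 (.s k94 k95 0 (.s k173 k15 12 (.d k253 k254 k13 0 11))))), (.s k4
  k8 1 (.s k85 k170 14 (.s k166 k247 12 (.s k172 k92 11 (.s k169 k163 2 (.d k253 k254 k1 0 13))))))]
  (.c k22 (.q k60 [(.s k4 k8 1 (.s k85 k170 14 (.s k166 k247 12 (.s k89 k243 14 (.d k93 k81 k174 1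
  12))))), (.s k4 k8 1 (.s k20 k40 5 (.s k36 k52 3 (.s k24 k48 5 (.d k28 k16 k44 1 3))))), (.s k20
  k40 5 (.s k85 k170 14 (.s k150 k215 8 (.s k105 k195 14 (.d k125 k65 k190 5 8)))))] .n) (.c k60 (.q
  k22 [(.s k4 k8 1 (.s k85 k170 14 (.s k166 k247 12 (.s k93 k174 12 (.d k89 k81 k243 1 14))))), (.s
  k92 k172 11 (.s k93 k174 12 (.s k94 k95 0 (.s k173 k15 12 (.d k253 k254 k13 0 11))))), (.s k4 k8 1
  (.s k85 k170 14 (.s k166 k247 12 (.s k172 k92 11 (.s k169 k163 2 (.d k253 k254 k1 0 13))))))] .n)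
  .n)))

def t84_42 : T TT 256 :=
  (.q k255 [(.s k92 k172 11 (.s k93 k174 12 (.s k94 k95 0 (.s k173 k15 12 (.d k253 k254 k13 0
  11))))), (.s k4 k8 1 (.s k85 k170 14 (.s k166 k247 12 (.s k89 k243 14 (.d k93 k81 k174 1 12))))),
  (.s k4 k8 1 (.s k85 k170 14 (.s k166 k247 12 (.s k172 k92 11 (.s k169 k163 2 (.d k253 k254 k1 0
  13))))))] .n)

def t84_43 : T TT 256 :=
  (.q k255 [(.s k4 k8 1 (.s k85 k170 14 (.s k166 k247 12 (.s k93 k174 12 (.d k89 k81 k243 1 14))))),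
  (.s k92 k172 11 (.s k93 k174 12 (.s k94 k95 0 (.s k173 k15 12 (.d k253 k254 k13 0 11))))), (.s k4
  k8 1 (.s k85 k170 14 (.s k166 k247 12 (.s k172 k92 11 (.s k169 k163 2 (.d k253 k254 k1 0 13))))))]
  (.c k23 (.q k63 [(.s k4 k8 1 (.s k85 k170 14 (.s k166 k247 12 (.s k89 k243 14 (.d k93 k81 k174 1
  12))))), (.s k4 k8 1 (.s k21 k42 6 (.s k38 k55 4 (.s k25 k51 6 (.d k29 k17 k46 1 4))))), (.s k21
  k42 6 (.s k85 k170 14 (.s k149 k213 7 (.s k106 k192 14 (.d k127 k64 k191 6 7)))))] .n) (.c k63 (.q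
  k23 [(.s k4 k8 1 (.s k85 k170 14 (.s k166 k247 12 (.s k93 k174 12 (.d k89 k81 k243 1 14))))), (.s
  k92 k172 11 (.s k93 k174 12 (.s k94 k95 0 (.s k173 k15 12 (.d k253 k254 k13 0 11))))), (.s k4 k8 1
  (.s k85 k170 14 (.s k166 k247 12 (.s k172 k92 11 (.s k169 k163 2 (.d k253 k254 k1 0 13))))))] .n)
  .n)))

def t84_44 : T TT 256 :=
  (.q k255 [(.s k4 k8 1 (.s k85 k170 14 (.s k166 k247 12 (.s k89 k243 14 (.d k93 k81 k174 1 12))))),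
  (.s k92 k172 11 (.s k93 k174 12 (.s k94 k95 0 (.s k173 k15 12 (.d k253 k254 k13 0 11))))), (.s k4
  k8 1 (.s k85 k170 14 (.s k166 k247 12 (.s k172 k92 11 (.s k169 k163 2 (.d k253 k254 k1 0 13))))))]
  .n)

def t84_45 : T TT 256 :=
  (.q k255 [(.s k4 k8 1 (.s k85 k170 14 (.s k166 k247 12 (.s k93 k174 12 (.d k89 k81 k243 1 14))))),
  (.s k92 k172 11 (.s k93 k174 12 (.s k94 k95 0 (.s k173 k15 12 (.d k253 k254 k13 0 11))))), (.s k4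
  k8 1 (.s k85 k170 14 (.s k166 k247 12 (.s k172 k92 11 (.s k169 k163 2 (.d k253 k254 k1 0 13))))))]
  .n)

def t84_46 : T TT 256 :=
  (.q k255 [(.s k4 k8 1 (.s k85 k170 14 (.s k166 k247 12 (.s k89 k243 14 (.d k93 k81 k174 1 12))))),
  (.s k92 k172 11 (.s k93 k174 12 (.s k94 k95 0 (.s k173 k15 12 (.d k253 k254 k13 0 11))))), (.s k4
  k8 1 (.s k85 k170 14 (.s k166 k247 12 (.s k172 k92 11 (.s k169 k163 2 (.d k253 k254 k1 0 13))))))]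
  .n)

def t84_47 : T TT 256 :=
  (.q k255 [(.s k4 k8 1 (.s k85 k170 14 (.s k166 k247 12 (.s k93 k174 12 (.d k89 k81 k243 1 14))))),
  (.s k92 k172 11 (.s k93 k174 12 (.s k94 k95 0 (.s k173 k15 12 (.d k253 k254 k13 0 11))))), (.s k4
  k8 1 (.s k85 k170 14 (.s k166 k247 12 (.s k172 k92 11 (.s k169 k163 2 (.d k253 k254 k1 0 13))))))]
  .n)

def t84_48 : T TT 256 :=
  (.q k255 [(.s k4 k8 1 (.s k85 k170 14 (.s k166 k247 12 (.s k93 k174 12 (.d k89 k81 k243 1 14))))),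
  (.s k92 k172 11 (.s k93 k174 12 (.s k94 k95 0 (.s k173 k15 12 (.d k253 k254 k13 0 11))))), (.s k4
  k8 1 (.s k85 k170 14 (.s k166 k247 12 (.s k172 k92 11 (.s k169 k163 2 (.d k253 k254 k1 0 13))))))]
  (.c k18 (.q k33 [(.s k4 k8 1 (.s k85 k170 14 (.s k166 k247 12 (.s k93 k174 12 (.d k89 k81 k243 1
  14))))), (.s k92 k172 11 (.s k93 k174 12 (.s k94 k95 0 (.s k173 k15 12 (.d k253 k254 k13 0
  11))))), (.s k4 k8 1 (.s k85 k170 14 (.s k166 k247 12 (.s k172 k92 11 (.s k169 k163 2 (.d k253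
  k254 k1 0 13))))))] .n) (.c k33 (.q k18 [(.s k4 k8 1 (.s k85 k170 14 (.s k166 k247 12 (.s k93 k174
  12 (.d k89 k81 k243 1 14))))), (.s k92 k172 11 (.s k93 k174 12 (.s k94 k95 0 (.s k173 k15 12 (.d
  k253 k254 k13 0 11))))), (.s k4 k8 1 (.s k85 k170 14 (.s k166 k247 12 (.s k172 k92 11 (.s k169
  k163 2 (.d k253 k254 k1 0 13))))))] .n) .n)))

def t84_49 : T TT 256 :=
  (.q k255 [(.s k4 k8 1 (.s k85 k170 14 (.s k166 k247 12 (.s k93 k174 12 (.d k89 k81 k243 1 14))))),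
  (.s k92 k172 11 (.s k93 k174 12 (.s k94 k95 0 (.s k173 k15 12 (.d k253 k254 k13 0 11))))), (.s k4
  k8 1 (.s k85 k170 14 (.s k166 k247 12 (.s k172 k92 11 (.s k169 k163 2 (.d k253 k254 k1 0 13))))))]
  .n)

def t84_50 : T TT 256 :=
  (.q k255 [(.s k4 k8 1 (.s k85 k170 14 (.s k166 k247 12 (.s k93 k174 12 (.d k89 k81 k243 1 14))))),
  (.s k92 k172 11 (.s k93 k174 12 (.s k94 k95 0 (.s k173 k15 12 (.d k253 k254 k13 0 11))))), (.s k4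
  k8 1 (.s k85 k170 14 (.s k166 k247 12 (.s k172 k92 11 (.s k169 k163 2 (.d k253 k254 k1 0 13))))))]
  .n)

def t84_51 : T TT 256 :=
  (.q k255 [(.s k4 k8 1 (.s k85 k170 14 (.s k166 k247 12 (.s k93 k174 12 (.d k89 k81 k243 1 14))))),
  (.s k92 k172 11 (.s k93 k174 12 (.s k94 k95 0 (.s k173 k15 12 (.d k253 k254 k13 0 11))))), (.s k4
  k8 1 (.s k85 k170 14 (.s k166 k247 12 (.s k172 k92 11 (.s k169 k163 2 (.d k253 k254 k1 0 13))))))]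
  (.c k19 (.q k35 [(.s k4 k8 1 (.s k85 k170 14 (.s k166 k247 12 (.s k93 k174 12 (.d k89 k81 k243 1
  14))))), (.s k92 k172 11 (.s k93 k174 12 (.s k94 k95 0 (.s k173 k15 12 (.d k253 k254 k13 0
  11))))), (.s k4 k8 1 (.s k85 k170 14 (.s k166 k247 12 (.s k172 k92 11 (.s k169 k163 2 (.d k253
  k254 k1 0 13))))))] .n) (.c k35 (.q k19 [(.s k4 k8 1 (.s k85 k170 14 (.s k166 k247 12 (.s k93 k174
  12 (.d k89 k81 k243 1 14))))), (.s k92 k172 11 (.s k93 k174 12 (.s k94 k95 0 (.s k173 k15 12 (.d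
  k253 k254 k13 0 11))))), (.s k4 k8 1 (.s k85 k170 14 (.s k166 k247 12 (.s k172 k92 11 (.s k169
  k163 2 (.d k253 k254 k1 0 13))))))] .n) .n)))

def t84_52 : T TT 256 :=
  (.q k255 [(.s k4 k8 1 (.s k85 k170 14 (.s k93 k174 12 (.s k89 k81 1 (.d k166 k247 k243 12 14))))),
  (.s k92 k172 11 (.s k93 k174 12 (.s k94 k95 0 (.s k173 k15 12 (.d k253 k254 k13 0 11))))), (.s k4
  k8 1 (.s k85 k170 14 (.s k166 k247 12 (.s k172 k92 11 (.s k169 k163 2 (.d k253 k254 k1 0 13))))))]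
  .n)

def t84_53 : T TT 256 :=
  (.q k255 [(.s k4 k8 1 (.s k85 k170 14 (.s k166 k247 12 (.s k93 k174 12 (.d k89 k81 k243 1 14))))),
  (.s k92 k172 11 (.s k93 k174 12 (.s k94 k95 0 (.s k173 k15 12 (.d k253 k254 k13 0 11))))), (.s k4
  k8 1 (.s k85 k170 14 (.s k166 k247 12 (.s k172 k92 11 (.s k169 k163 2 (.d k253 k254 k1 0 13))))))]
  .n)

def t84_54 : T TT 256 :=
  (.q k255 [(.s k4 k8 1 (.s k85 k170 14 (.s k166 k247 12 (.s k93 k174 12 (.d k89 k81 k243 1 14))))),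
  (.s k92 k172 11 (.s k93 k174 12 (.s k94 k95 0 (.s k173 k15 12 (.d k253 k254 k13 0 11))))), (.s k4
  k8 1 (.s k85 k170 14 (.s k166 k247 12 (.s k172 k92 11 (.s k169 k163 2 (.d k253 k254 k1 0 13))))))]
  .n)

def t84_55 : T TT 256 :=
  (.q k255 [(.s k4 k8 1 (.s k85 k170 14 (.s k93 k174 12 (.s k89 k81 1 (.d k166 k247 k243 12 14))))),
  (.s k92 k172 11 (.s k93 k174 12 (.s k94 k95 0 (.s k173 k15 12 (.d k253 k254 k13 0 11))))), (.s k4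
  k8 1 (.s k85 k170 14 (.s k166 k247 12 (.s k172 k92 11 (.s k169 k163 2 (.d k253 k254 k1 0 13))))))]
  .n)

def t84_56 : T TT 256 :=
  (.q k255 [(.s k92 k172 11 (.s k93 k174 12 (.s k94 k95 0 (.s k173 k15 12 (.d k253 k254 k13 0
  11))))), (.s k4 k8 1 (.s k85 k170 14 (.s k166 k247 12 (.s k89 k243 14 (.d k93 k81 k174 1 12))))),
  (.s k4 k8 1 (.s k85 k170 14 (.s k166 k247 12 (.s k172 k92 11 (.s k169 k163 2 (.d k253 k254 k1 0
  13))))))] .n)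

def t84_57 : T TT 256 :=
  (.q k255 [(.s k4 k8 1 (.s k85 k170 14 (.s k166 k247 12 (.s k93 k174 12 (.d k89 k81 k243 1 14))))),
  (.s k92 k172 11 (.s k93 k174 12 (.s k94 k95 0 (.s k173 k15 12 (.d k253 k254 k13 0 11))))), (.s k4
  k8 1 (.s k85 k170 14 (.s k166 k247 12 (.s k172 k92 11 (.s k169 k163 2 (.d k253 k254 k1 0 13))))))]
  .n)

def t84_58 : T TT 256 :=
  (.q k255 [(.s k4 k8 1 (.s k85 k170 14 (.s k166 k247 12 (.s k93 k174 12 (.d k89 k81 k243 1 14))))),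
  (.s k92 k172 11 (.s k93 k174 12 (.s k94 k95 0 (.s k173 k15 12 (.d k253 k254 k13 0 11))))), (.s k4
  k8 1 (.s k85 k170 14 (.s k166 k247 12 (.s k172 k92 11 (.s k169 k163 2 (.d k253 k254 k1 0 13))))))]
  .n)

def t84_59 : T TT 256 :=
  (.q k255 [(.s k92 k172 11 (.s k93 k174 12 (.s k94 k95 0 (.s k173 k15 12 (.d k253 k254 k13 0
  11))))), (.s k4 k8 1 (.s k85 k170 14 (.s k166 k247 12 (.s k89 k243 14 (.d k93 k81 k174 1 12))))),
  (.s k4 k8 1 (.s k85 k170 14 (.s k166 k247 12 (.s k172 k92 11 (.s k169 k163 2 (.d k253 k254 k1 0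
  13))))))] .n)

def t84_60 : T TT 256 :=
  (.q k255 [(.s k4 k8 1 (.s k85 k170 14 (.s k166 k247 12 (.s k93 k174 12 (.d k89 k81 k243 1 14))))),
  (.s k92 k172 11 (.s k93 k174 12 (.s k94 k95 0 (.s k173 k15 12 (.d k253 k254 k13 0 11))))), (.s k4
  k8 1 (.s k85 k170 14 (.s k166 k247 12 (.s k172 k92 11 (.s k169 k163 2 (.d k253 k254 k1 0 13))))))]
  (.c k22 (.q k41 [(.s k4 k8 1 (.s k85 k170 14 (.s k166 k247 12 (.s k93 k174 12 (.d k89 k81 k243 1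
  14))))), (.s k92 k172 11 (.s k93 k174 12 (.s k94 k95 0 (.s k173 k15 12 (.d k253 k254 k13 0
  11))))), (.s k4 k8 1 (.s k85 k170 14 (.s k166 k247 12 (.s k172 k92 11 (.s k169 k163 2 (.d k253
  k254 k1 0 13))))))] .n) (.c k41 (.q k22 [(.s k4 k8 1 (.s k85 k170 14 (.s k166 k247 12 (.s k93 k174
  12 (.d k89 k81 k243 1 14))))), (.s k92 k172 11 (.s k93 k174 12 (.s k94 k95 0 (.s k173 k15 12 (.d
  k253 k254 k13 0 11))))), (.s k4 k8 1 (.s k85 k170 14 (.s k166 k247 12 (.s k172 k92 11 (.s k169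
  k163 2 (.d k253 k254 k1 0 13))))))] .n) .n)))

def t84_61 : T TT 256 :=
  (.q k255 [(.s k4 k8 1 (.s k85 k170 14 (.s k166 k247 12 (.s k93 k174 12 (.d k89 k81 k243 1 14))))),
  (.s k92 k172 11 (.s k93 k174 12 (.s k94 k95 0 (.s k173 k15 12 (.d k253 k254 k13 0 11))))), (.s k4
  k8 1 (.s k85 k170 14 (.s k166 k247 12 (.s k172 k92 11 (.s k169 k163 2 (.d k253 k254 k1 0 13))))))]
  .n)

def t84_62 : T TT 256 :=
  (.q k255 [(.s k4 k8 1 (.s k85 k170 14 (.s k166 k247 12 (.s k93 k174 12 (.d k89 k81 k243 1 14))))),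
  (.s k92 k172 11 (.s k93 k174 12 (.s k94 k95 0 (.s k173 k15 12 (.d k253 k254 k13 0 11))))), (.s k4
  k8 1 (.s k85 k170 14 (.s k166 k247 12 (.s k172 k92 11 (.s k169 k163 2 (.d k253 k254 k1 0 13))))))]
  .n)

def t84_63 : T TT 256 :=
  (.q k255 [(.s k4 k8 1 (.s k85 k170 14 (.s k166 k247 12 (.s k93 k174 12 (.d k89 k81 k243 1 14))))),
  (.s k92 k172 11 (.s k93 k174 12 (.s k94 k95 0 (.s k173 k15 12 (.d k253 k254 k13 0 11))))), (.s k4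
  k8 1 (.s k85 k170 14 (.s k166 k247 12 (.s k172 k92 11 (.s k169 k163 2 (.d k253 k254 k1 0 13))))))]
  (.c k23 (.q k43 [(.s k4 k8 1 (.s k85 k170 14 (.s k166 k247 12 (.s k93 k174 12 (.d k89 k81 k243 1
  14))))), (.s k92 k172 11 (.s k93 k174 12 (.s k94 k95 0 (.s k173 k15 12 (.d k253 k254 k13 0
  11))))), (.s k4 k8 1 (.s k85 k170 14 (.s k166 k247 12 (.s k172 k92 11 (.s k169 k163 2 (.d k253
  k254 k1 0 13))))))] .n) (.c k43 (.q k23 [(.s k4 k8 1 (.s k85 k170 14 (.s k166 k247 12 (.s k93 k174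
  12 (.d k89 k81 k243 1 14))))), (.s k92 k172 11 (.s k93 k174 12 (.s k94 k95 0 (.s k173 k15 12 (.d
  k253 k254 k13 0 11))))), (.s k4 k8 1 (.s k85 k170 14 (.s k166 k247 12 (.s k172 k92 11 (.s k169
  k163 2 (.d k253 k254 k1 0 13))))))] .n) .n)))

def t84_64 : T TT 256 :=
  (.q k255 [(.s k4 k8 1 (.s k85 k170 14 (.s k166 k247 12 (.s k93 k174 12 (.d k89 k81 k243 1 14))))),
  (.s k92 k172 11 (.s k93 k174 12 (.s k94 k95 0 (.s k173 k15 12 (.d k253 k254 k13 0 11))))), (.s k4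
  k8 1 (.s k85 k170 14 (.s k166 k247 12 (.s k172 k92 11 (.s k169 k163 2 (.d k253 k254 k1 0 13))))))]
  (.c k104 (.q k124 [(.s k4 k8 1 (.s k85 k170 14 (.s k166 k247 12 (.s k93 k174 12 (.d k89 k81 k243 1
  14))))), (.s k92 k172 11 (.s k60 k188 7 (.s k28 k44 3 (.s k156 k220 7 (.d k108 k76 k204 3 11)))))]
  .n) (.c k124 (.q k104 [(.s k4 k8 1 (.s k85 k170 14 (.s k166 k247 12 (.s k93 k174 12 (.d k89 k81
  k243 1 14))))), (.s k92 k172 11 (.s k93 k174 12 (.s k94 k95 0 (.s k173 k15 12 (.d k253 k254 k13 0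
  11))))), (.s k4 k8 1 (.s k85 k170 14 (.s k166 k247 12 (.s k172 k92 11 (.s k169 k163 2 (.d k253
  k254 k1 0 13))))))] .n) .n)))

def t84_65 : T TT 256 :=
  (.q k255 [(.s k4 k8 1 (.s k85 k170 14 (.s k166 k247 12 (.s k93 k174 12 (.d k89 k81 k243 1 14))))),
  (.s k92 k172 11 (.s k93 k174 12 (.s k94 k95 0 (.s k173 k15 12 (.d k253 k254 k13 0 11))))), (.s k4
  k8 1 (.s k85 k170 14 (.s k166 k247 12 (.s k172 k92 11 (.s k169 k163 2 (.d k253 k254 k1 0 13))))))]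
  .n)

def t84_66 : T TT 256 :=
  (.q k255 [(.s k4 k8 1 (.s k85 k170 14 (.s k166 k247 12 (.s k93 k174 12 (.d k89 k81 k243 1 14))))),
  (.s k92 k172 11 (.s k93 k174 12 (.s k94 k95 0 (.s k173 k15 12 (.d k253 k254 k13 0 11))))), (.s k4
  k8 1 (.s k85 k170 14 (.s k166 k247 12 (.s k172 k92 11 (.s k169 k163 2 (.d k253 k254 k1 0 13))))))]
  (.c k129 (.q k192 [(.s k4 k8 1 (.s k85 k170 14 (.s k166 k247 12 (.s k89 k243 14 (.d k93 k81 k174 1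
  12))))), (.s k4 k8 1 (.s k128 k64 7 (.s k132 k72 9 (.s k68 k196 7 (.d k136 k140 k204 1 9))))), (.s
  k64 k128 7 (.s k85 k170 14 (.s k106 k127 6 (.s k149 k63 14 (.d k213 k234 k21 6 7)))))] .n) (.c
  k192 (.q k129 [(.s k4 k8 1 (.s k85 k170 14 (.s k166 k247 12 (.s k93 k174 12 (.d k89 k81 k243 1
  14))))), (.s k92 k172 11 (.s k93 k174 12 (.s k94 k95 0 (.s k173 k15 12 (.d k253 k254 k13 0
  11))))), (.s k4 k8 1 (.s k85 k170 14 (.s k166 k247 12 (.s k172 k92 11 (.s k169 k163 2 (.d k253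
  k254 k1 0 13))))))] .n) .n)))

def t84_67 : T TT 256 :=
  (.q k255 [(.s k4 k8 1 (.s k85 k170 14 (.s k166 k247 12 (.s k93 k174 12 (.d k89 k81 k243 1 14))))),
  (.s k92 k172 11 (.s k93 k174 12 (.s k94 k95 0 (.s k173 k15 12 (.d k253 k254 k13 0 11))))), (.s k4
  k8 1 (.s k85 k170 14 (.s k166 k247 12 (.s k172 k92 11 (.s k169 k163 2 (.d k253 k254 k1 0 13))))))]
  (.c k131 (.q k195 [(.s k4 k8 1 (.s k85 k170 14 (.s k166 k247 12 (.s k89 k243 14 (.d k93 k81 k174 1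
  12))))), (.s k4 k8 1 (.s k130 k65 8 (.s k134 k73 10 (.s k69 k199 8 (.d k138 k142 k207 1 10))))),
  (.s k65 k130 8 (.s k85 k170 14 (.s k105 k125 5 (.s k150 k60 14 (.d k215 k235 k20 5 8)))))] .n) (.c
  k195 (.q k131 [(.s k4 k8 1 (.s k85 k170 14 (.s k166 k247 12 (.s k93 k174 12 (.d k89 k81 k243 1
  14))))), (.s k92 k172 11 (.s k93 k174 12 (.s k94 k95 0 (.s k173 k15 12 (.d k253 k254 k13 0
  11))))), (.s k4 k8 1 (.s k85 k170 14 (.s k166 k247 12 (.s k172 k92 11 (.s k169 k163 2 (.d k253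
  k254 k1 0 13))))))] .n) .n)))

def t84_68 : T TT 256 :=
  (.q k255 [(.s k4 k8 1 (.s k85 k170 14 (.s k166 k247 12 (.s k93 k174 12 (.d k89 k81 k243 1 14))))),
  (.s k92 k172 11 (.s k93 k174 12 (.s k94 k95 0 (.s k173 k15 12 (.d k253 k254 k13 0 11))))), (.s k4
  k8 1 (.s k85 k170 14 (.s k166 k247 12 (.s k172 k92 11 (.s k169 k163 2 (.d k253 k254 k1 0 13))))))]
  (.c k100 (.q k116 [(.s k4 k8 1 (.s k85 k170 14 (.s k166 k247 12 (.s k93 k174 12 (.d k89 k81 k243 1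
  14))))), (.s k48 k184 9 (.s k117 k186 10 (.s k118 k119 0 (.s k185 k51 10 (.d k253 k254 k49 0
  9)))))] (.c k85 (.l (.s k92 k172 11 (.s k93 k174 12 (.s k94 k95 0 (.s k173 k15 12 (.d k253 k254
  k13 0 11)))))) .n)) (.c k116 (.q k100 [(.s k4 k8 1 (.s k85 k170 14 (.s k166 k247 12 (.s k93 k174
  12 (.d k89 k81 k243 1 14))))), (.s k92 k172 11 (.s k93 k174 12 (.s k94 k95 0 (.s k173 k15 12 (.d
  k253 k254 k13 0 11))))), (.s k4 k8 1 (.s k85 k170 14 (.s k166 k247 12 (.s k172 k92 11 (.s k169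
  k163 2 (.d k253 k254 k1 0 13))))))] .n) .n)))

def t84_69 : T TT 256 :=
  (.q k255 [(.s k4 k8 1 (.s k85 k170 14 (.s k166 k247 12 (.s k93 k174 12 (.d k89 k81 k243 1 14))))),
  (.s k92 k172 11 (.s k93 k174 12 (.s k94 k95 0 (.s k173 k15 12 (.d k253 k254 k13 0 11))))), (.s k4
  k8 1 (.s k85 k170 14 (.s k166 k247 12 (.s k172 k92 11 (.s k169 k163 2 (.d k253 k254 k1 0 13))))))]
  .n)

def t84_70 : T TT 256 :=
  (.q k255 [(.s k4 k8 1 (.s k85 k170 14 (.s k166 k247 12 (.s k93 k174 12 (.d k89 k81 k243 1 14))))),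
  (.s k92 k172 11 (.s k93 k174 12 (.s k94 k95 0 (.s k173 k15 12 (.d k253 k254 k13 0 11))))), (.s k4
  k8 1 (.s k85 k170 14 (.s k166 k247 12 (.s k172 k92 11 (.s k169 k163 2 (.d k253 k254 k1 0 13))))))]
  (.c k137 (.q k204 [(.s k4 k8 1 (.s k85 k170 14 (.s k166 k247 12 (.s k89 k243 14 (.d k93 k81 k174 1
  12))))), (.s k4 k8 1 (.s k68 k136 9 (.s k132 k196 7 (.s k72 k192 9 (.d k76 k64 k140 1 7))))), (.s
  k68 k136 9 (.s k85 k170 14 (.s k102 k119 4 (.s k153 k51 14 (.d k221 k238 k17 4 9)))))] .n) (.c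
  k204 (.q k137 [(.s k4 k8 1 (.s k85 k170 14 (.s k166 k247 12 (.s k93 k174 12 (.d k89 k81 k243 1
  14))))), (.s k92 k172 11 (.s k93 k174 12 (.s k94 k95 0 (.s k173 k15 12 (.d k253 k254 k13 0
  11))))), (.s k4 k8 1 (.s k85 k170 14 (.s k166 k247 12 (.s k172 k92 11 (.s k169 k163 2 (.d k253
  k254 k1 0 13))))))] .n) .n)))

def t84_71 : T TT 256 :=
  (.q k255 [(.s k4 k8 1 (.s k85 k170 14 (.s k166 k247 12 (.s k93 k174 12 (.d k89 k81 k243 1 14))))),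
  (.s k92 k172 11 (.s k93 k174 12 (.s k94 k95 0 (.s k173 k15 12 (.d k253 k254 k13 0 11))))), (.s k4
  k8 1 (.s k85 k170 14 (.s k166 k247 12 (.s k172 k92 11 (.s k169 k163 2 (.d k253 k254 k1 0 13))))))]
  (.c k139 (.q k207 [(.s k4 k8 1 (.s k85 k170 14 (.s k166 k247 12 (.s k89 k243 14 (.d k93 k81 k174 1
  12))))), (.s k4 k8 1 (.s k69 k138 10 (.s k134 k199 8 (.s k73 k195 10 (.d k77 k65 k142 1 8))))),
  (.s k69 k138 10 (.s k85 k170 14 (.s k101 k117 3 (.s k154 k48 14 (.d k223 k239 k16 3 10)))))] .n)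
  (.c k207 (.q k139 [(.s k4 k8 1 (.s k85 k170 14 (.s k166 k247 12 (.s k93 k174 12 (.d k89 k81 k243 1
  14))))), (.s k92 k172 11 (.s k93 k174 12 (.s k94 k95 0 (.s k173 k15 12 (.d k253 k254 k13 0
  11))))), (.s k4 k8 1 (.s k85 k170 14 (.s k166 k247 12 (.s k172 k92 11 (.s k169 k163 2 (.d k253
  k254 k1 0 13))))))] .n) .n)))

def t84_72 : T TT 256 :=
  (.q k255 [(.s k92 k172 11 (.s k93 k174 12 (.s k94 k95 0 (.s k173 k15 12 (.d k253 k254 k13 0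
  11))))), (.s k4 k8 1 (.s k85 k170 14 (.s k166 k247 12 (.s k89 k243 14 (.d k93 k81 k174 1 12))))),
  (.s k4 k8 1 (.s k85 k170 14 (.s k166 k247 12 (.s k172 k92 11 (.s k169 k163 2 (.d k253 k254 k1 0
  13))))))] .n)

def t84_73 : T TT 256 :=
  (.q k255 [(.s k92 k172 11 (.s k93 k174 12 (.s k94 k95 0 (.s k173 k15 12 (.d k253 k254 k13 0
  11))))), (.s k4 k8 1 (.s k85 k170 14 (.s k166 k247 12 (.s k89 k243 14 (.d k93 k81 k174 1 12))))),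
  (.s k4 k8 1 (.s k85 k170 14 (.s k166 k247 12 (.s k172 k92 11 (.s k169 k163 2 (.d k253 k254 k1 0
  13))))))] .n)

def t84_74 : T TT 256 :=
  (.q k255 [(.s k4 k8 1 (.s k85 k170 14 (.s k166 k247 12 (.s k93 k174 12 (.d k89 k81 k243 1 14))))),
  (.s k92 k172 11 (.s k93 k174 12 (.s k94 k95 0 (.s k173 k15 12 (.d k253 k254 k13 0 11))))), (.s k4
  k8 1 (.s k85 k170 14 (.s k166 k247 12 (.s k172 k92 11 (.s k169 k163 2 (.d k253 k254 k1 0 13))))))]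
  .n)

def t84_75 : T TT 256 :=
  (.q k255 [(.s k4 k8 1 (.s k85 k170 14 (.s k166 k247 12 (.s k93 k174 12 (.d k89 k81 k243 1 14))))),
  (.s k92 k172 11 (.s k93 k174 12 (.s k94 k95 0 (.s k173 k15 12 (.d k253 k254 k13 0 11))))), (.s k4
  k8 1 (.s k85 k170 14 (.s k166 k247 12 (.s k172 k92 11 (.s k169 k163 2 (.d k253 k254 k1 0 13))))))]
  .n)

def t84_76 : T TT 256 :=
  (.q k255 [(.s k4 k8 1 (.s k85 k170 14 (.s k166 k247 12 (.s k93 k174 12 (.d k89 k81 k243 1 14))))),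
  (.s k92 k172 11 (.s k93 k174 12 (.s k94 k95 0 (.s k173 k15 12 (.d k253 k254 k13 0 11))))), (.s k4
  k8 1 (.s k85 k170 14 (.s k166 k247 12 (.s k172 k92 11 (.s k169 k163 2 (.d k253 k254 k1 0 13))))))]
  .n)

def t84_77 : T TT 256 :=
  (.q k255 [(.s k4 k8 1 (.s k85 k170 14 (.s k166 k247 12 (.s k93 k174 12 (.d k89 k81 k243 1 14))))),
  (.s k92 k172 11 (.s k93 k174 12 (.s k94 k95 0 (.s k173 k15 12 (.d k253 k254 k13 0 11))))), (.s k4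
  k8 1 (.s k85 k170 14 (.s k166 k247 12 (.s k172 k92 11 (.s k169 k163 2 (.d k253 k254 k1 0 13))))))]
  .n)

def t84_78 : T TT 256 :=
  (.q k255 [(.s k4 k8 1 (.s k85 k170 14 (.s k166 k247 12 (.s k93 k174 12 (.d k89 k81 k243 1 14))))),
  (.s k92 k172 11 (.s k93 k174 12 (.s k94 k95 0 (.s k173 k15 12 (.d k253 k254 k13 0 11))))), (.s k4
  k8 1 (.s k85 k170 14 (.s k166 k247 12 (.s k172 k92 11 (.s k169 k163 2 (.d k253 k254 k1 0 13))))))]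
  .n)

def t84_79 : T TT 256 :=
  (.q k255 [(.s k4 k8 1 (.s k85 k170 14 (.s k166 k247 12 (.s k93 k174 12 (.d k89 k81 k243 1 14))))),
  (.s k92 k172 11 (.s k93 k174 12 (.s k94 k95 0 (.s k173 k15 12 (.d k253 k254 k13 0 11))))), (.s k4
  k8 1 (.s k85 k170 14 (.s k166 k247 12 (.s k172 k92 11 (.s k169 k163 2 (.d k253 k254 k1 0 13))))))]
  .n)

def t84_80 : T TT 256 :=
  (.q k255 [(.s k4 k8 1 (.s k85 k170 14 (.s k166 k247 12 (.s k93 k174 12 (.d k89 k81 k243 1 14))))),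
  (.s k92 k172 11 (.s k93 k174 12 (.s k253 k254 0 (.s k173 k13 11 (.d k94 k95 k15 0 12))))), (.s k4
  k8 1 (.s k85 k170 14 (.s k166 k247 12 (.s k253 k254 0 (.s k169 k1 13 (.d k172 k92 k163 11 2))))))]
  (.c k88 (.l (.s k92 k172 11 (.s k93 k174 12 (.s k94 k95 0 (.s k173 k15 12 (.d k253 k254 k13 0
  11)))))) (.c k92 (.q k88 [(.s k8 k4 1 (.s k248 k168 11 (.d k240 k244 k164 1 13))), (.s k4 k8 1 (.s
  k85 k170 14 (.s k166 k247 12 (.s k89 k243 14 (.d k93 k81 k174 1 12)))))] (.c k4 (.l (.s k240 k164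
  13 (.s k244 k248 1 (.s k245 k250 2 (.s k246 k247 0 (.s k249 k243 2 (.d k253 k254 k241 0 1)))))))
  (.c k8 (.l (.s k240 k164 13 (.s k244 k248 1 (.s k245 k250 2 (.s k246 k247 0 (.s k249 k243 2 (.d
  k253 k254 k241 0 1))))))) .n))) .n)))

def t84_81 : T TT 256 :=
  (.q k255 [(.s k92 k172 11 (.s k93 k174 12 (.s k94 k95 0 (.s k173 k15 12 (.d k253 k254 k13 0
  11))))), (.s k8 k4 1 (.s k170 k85 14 (.s k89 k251 12 (.s k166 k243 14 (.d k174 k93 k162 12 1))))),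
  (.s k4 k8 1 (.s k85 k170 14 (.s k166 k247 12 (.s k172 k92 11 (.s k169 k163 2 (.d k253 k254 k1 0
  13))))))] .n)

def t84_82 : T TT 256 :=
  (.q k255 [(.s k4 k8 1 (.s k85 k170 14 (.s k166 k247 12 (.s k93 k174 12 (.d k89 k81 k243 1 14))))),
  (.s k92 k172 11 (.s k93 k174 12 (.s k94 k95 0 (.s k173 k15 12 (.d k253 k254 k13 0 11))))), (.s k4
  k8 1 (.s k85 k170 14 (.s k166 k247 12 (.s k172 k92 11 (.s k169 k163 2 (.d k253 k254 k1 0 13))))))]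
  (.c k161 (.q k240 [(.s k4 k8 1 (.s k85 k170 14 (.s k166 k247 12 (.s k93 k174 12 (.d k89 k81 k243 1
  14))))), (.s k92 k172 11 (.s k93 k174 12 (.s k94 k95 0 (.s k173 k15 12 (.d k253 k254 k13 0
  11))))), (.s k4 k8 1 (.s k244 k248 1 (.s k245 k250 2 (.s k247 k246 0 (.d k85 k166 k170 12 14)))))]
  .n) (.c k240 (.q k161 [(.s k4 k8 1 (.s k85 k170 14 (.s k166 k247 12 (.s k93 k174 12 (.d k89 k81
  k243 1 14))))), (.s k92 k172 11 (.s k93 k174 12 (.s k94 k95 0 (.s k173 k15 12 (.d k253 k254 k13 0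
  11))))), (.s k4 k8 1 (.s k85 k170 14 (.s k166 k247 12 (.s k172 k92 11 (.s k169 k163 2 (.d k253
  k254 k1 0 13))))))] .n) .n)))

def t84_83 : T TT 256 :=
  (.q k255 [(.s k4 k8 1 (.s k85 k170 14 (.s k166 k247 12 (.s k93 k174 12 (.d k89 k243 k81 14 1))))),
  (.s k92 k172 11 (.s k93 k174 12 (.s k94 k95 0 (.s k173 k15 12 (.d k253 k254 k13 0 11))))), (.s k4
  k8 1 (.s k85 k170 14 (.s k166 k247 12 (.s k172 k92 11 (.s k253 k254 0 (.d k169 k163 k1 2 13))))))]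
  (.c k163 (.q k243 [(.s k4 k8 1 (.s k85 k170 14 (.d k166 k89 k247 14 12))), (.s k92 k172 11 (.s k93
  k174 12 (.s k94 k95 0 (.s k173 k15 12 (.d k253 k254 k13 0 11)))))] (.c k166 (.l (.s k172 k92 11
  (.s k174 k93 12 (.s k173 k175 0 (.s k94 k15 12 (.d k254 k253 k14 0 11)))))) .n)) (.c k243 (.q k163
  [(.s k4 k8 1 (.s k85 k170 14 (.s k166 k247 12 (.d k172 k169 k92 2 11)))), (.s k92 k172 11 (.s k93
  k174 12 (.s k94 k95 0 (.s k173 k15 12 (.d k253 k254 k13 0 11)))))] (.c k92 (.l (.s k4 k8 1 (.s k85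
  k170 14 (.s k166 k247 12 (.s k169 k172 2 (.d k253 k254 k1 0 13)))))) (.c k172 (.q k204 [(.s k4 k8
  1 (.s k68 k136 9 (.s k132 k196 7 (.s k76 k140 7 (.d k72 k64 k192 1 9))))), (.s k68 k136 9 (.s k85
  k170 14 (.s k102 k119 4 (.s k153 k51 14 (.d k221 k238 k17 4 9))))), (.s k76 k140 7 (.s k93 k174 12
  (.s k110 k127 4 (.s k157 k63 12 (.d k221 k238 k29 4 7)))))] .n) .n))) .n)))

def t84_85 : T TT 256 :=
  (.q k220 [(.s k92 k172 11 (.s k156 k28 7 (.s k204 k236 3 (.s k76 k140 7 (.d k108 k124 k60 3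
  11))))), (.s k4 k8 1 (.s k204 k236 3 (.s k68 k136 9 (.s k132 k196 7 (.s k72 k192 9 (.d k76 k64
  k140 1 7)))))), (.s k4 k8 1 (.s k92 k172 11 (.s k28 k156 7 (.s k60 k44 3 (.s k20 k40 5 (.s k36 k52
  3 (.d k24 k16 k48 1 5)))))))] (.c k86 (.q k87 [(.s k92 k172 11 (.s k156 k28 7 (.s k204 k236 3 (.s
  k76 k140 7 (.d k108 k124 k60 3 11))))), (.s k4 k8 1 (.s k204 k236 3 (.s k68 k136 9 (.s k132 k196 7
  (.s k72 k192 9 (.d k76 k64 k140 1 7)))))), (.s k4 k8 1 (.s k92 k172 11 (.s k28 k156 7 (.s k60 k44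
  3 (.s k20 k40 5 (.s k36 k52 3 (.d k24 k16 k48 1 5)))))))] (.c k140 (.q k207 [(.s k4 k8 1 (.s k69
  k138 10 (.s k134 k199 8 (.s k73 k195 10 (.d k77 k65 k142 1 8))))), (.s k204 k236 3 (.s k206 k205 0
  (.s k222 k237 4 (.s k238 k254 3 (.d k221 k223 k255 0 4)))))] .n) (.c k236 (.q k207 [(.s k4 k8 1
  (.s k69 k138 10 (.s k134 k199 8 (.s k77 k142 8 (.d k73 k65 k195 1 10))))), (.s k92 k172 11 (.s k28
  k156 7 (.s k222 k237 4 (.s k223 k221 0 (.s k93 k158 8 (.d k255 k239 k174 3 12))))))] .n) .n))) (.c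
  k87 (.q k86 [(.s k92 k172 11 (.s k156 k28 7 (.s k204 k236 3 (.s k76 k140 7 (.d k108 k124 k60 3
  11))))), (.s k4 k8 1 (.s k204 k236 3 (.s k68 k136 9 (.s k132 k196 7 (.s k72 k192 9 (.d k76 k64
  k140 1 7)))))), (.s k92 k172 11 (.s k19 k153 10 (.s k28 k156 7 (.s k22 k25 2 (.s k150 k214 7 (.d
  k89 k83 k211 2 10))))))] (.c k140 (.l (.s k92 k172 11 (.s k153 k19 10 (.s k89 k83 2 (.s k243 k166
  14 (.s k217 k25 7 (.d k204 k236 k230 3 6))))))) (.c k171 (.q k255 [(.s k92 k172 11 (.s k93 k174 12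
  (.s k253 k254 0 (.s k173 k13 11 (.d k94 k95 k15 0 12))))), (.s k153 k19 10 (.s k204 k236 3 (.s
  k136 k68 9 (.s k170 k187 4 (.d k254 k253 k2 0 13))))), (.s k8 k4 1 (.s k92 k172 11 (.s k89 k83 2
  (.s k251 k170 12 (.d k243 k247 k166 1 14)))))] .n) (.c k255 (.q k171 [(.s k92 k172 11 (.s k156 k28
  7 (.s k204 k236 3 (.s k76 k140 7 (.d k108 k124 k60 3 11))))), (.s k4 k8 1 (.s k204 k236 3 (.s k68
  k136 9 (.s k132 k196 7 (.s k72 k192 9 (.d k76 k64 k140 1 7)))))), (.s k92 k172 11 (.s k19 k153 10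
  (.s k28 k156 7 (.s k22 k25 2 (.s k150 k214 7 (.d k89 k83 k211 2 10))))))] (.c k140 (.l (.s k92
  k172 11 (.s k153 k19 10 (.s k89 k83 2 (.s k243 k166 14 (.s k217 k25 7 (.d k204 k236 k230 3
  6))))))) .n)) .n)))) (.c k140 (.q k255 [(.s k204 k236 3 (.s k221 k238 4 (.s k222 k223 0 (.s k237
  k207 4 (.d k253 k254 k205 0 3))))), (.s k92 k172 11 (.s k93 k174 12 (.s k94 k95 0 (.s k173 k15 12
  (.d k253 k254 k13 0 11))))), (.s k92 k172 11 (.s k93 k174 12 (.s k94 k95 0 (.s k157 k31 8 (.s k221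
  k29 7 (.d k204 k236 k238 3 4))))))] (.c k86 (.q k87 [(.s k204 k236 3 (.s k221 k238 4 (.s k222 k223
  0 (.s k237 k207 4 (.d k253 k254 k205 0 3))))), (.s k92 k172 11 (.s k93 k174 12 (.s k94 k95 0 (.s
  k173 k15 12 (.d k253 k254 k13 0 11))))), (.s k92 k172 11 (.s k93 k174 12 (.s k94 k95 0 (.s k157
  k31 8 (.s k221 k29 7 (.d k204 k236 k238 3 4))))))] .n) (.c k87 (.q k86 [(.s k92 k172 11 (.s k93
  k174 12 (.s k253 k254 0 (.s k173 k13 11 (.d k94 k95 k15 0 12))))), (.s k153 k19 10 (.s k204 k236 3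
  (.s k136 k68 9 (.s k170 k187 4 (.d k254 k253 k2 0 13))))), (.s k8 k4 1 (.s k92 k172 11 (.s k89 k83
  2 (.s k251 k170 12 (.d k243 k247 k166 1 14)))))] .n) .n))) (.c k236 (.q k207 [(.s k4 k8 1 (.s k69
  k138 10 (.s k134 k199 8 (.s k77 k142 8 (.d k73 k65 k195 1 10))))), (.s k92 k172 11 (.s k28 k156 7
  (.s k222 k237 4 (.s k223 k221 0 (.s k93 k158 8 (.d k255 k239 k174 3 12))))))] (.c k86 (.q k87 [(.s
  k4 k8 1 (.s k69 k138 10 (.s k134 k199 8 (.s k77 k142 8 (.d k73 k65 k195 1 10))))), (.s k92 k172 11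
  (.s k28 k156 7 (.s k222 k237 4 (.s k223 k221 0 (.s k93 k158 8 (.d k255 k239 k174 3 12))))))] .n)
  (.c k87 (.q k86 [(.s k4 k8 1 (.s k69 k138 10 (.s k134 k199 8 (.s k77 k142 8 (.d k73 k65 k195 1
  10))))), (.s k92 k172 11 (.s k19 k153 10 (.s k28 k156 7 (.s k22 k25 2 (.s k150 k214 7 (.d k89 k83
  k211 2 10))))))] (.c k171 (.q k255 [(.s k222 k237 4 (.d k223 k239 k221 3 0)), (.s k4 k8 1 (.s k69
  k138 10 (.s k134 k199 8 (.s k73 k195 10 (.d k77 k65 k142 1 8)))))] .n) (.c k255 (.q k171 [(.s k4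
  k8 1 (.s k69 k138 10 (.s k134 k199 8 (.s k77 k142 8 (.d k73 k65 k195 1 10))))), (.s k92 k172 11
  (.s k19 k153 10 (.s k28 k156 7 (.s k22 k25 2 (.s k150 k214 7 (.d k89 k83 k211 2 10))))))] .n)
  .n))) .n))) .n)))))

def t84_86 : T TT 256 :=
  (.q k85 [(.s k4 k8 1 (.s k170 k255 14 (.s k166 k247 12 (.s k162 k174 1 (.d k243 k81 k89 12
  14))))), (.s k255 k170 14 (.s k172 k92 11 (.s k174 k93 12 (.s k173 k175 0 (.s k94 k15 12 (.d k254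
  k253 k14 0 11))))))] (.c k89 (.l (.s k255 k170 14 (.s k92 k172 11 (.s k93 k174 12 (.s k94 k95 0
  (.s k173 k15 12 (.d k253 k254 k13 0 11))))))) (.c k170 (.q k88 [(.s k8 k4 1 (.s k248 k168 11 (.d
  k240 k244 k164 1 13))), (.s k4 k8 1 (.s k166 k247 12 (.s k89 k243 14 (.s k92 k172 11 (.s k93 k81 1
  (.s k90 k91 0 (.d k95 k94 k80 0 2)))))))] (.c k2 (.q k254 [(.s k8 k4 1 (.s k248 k168 11 (.d k240
  k244 k164 1 13))), (.s k172 k92 11 (.s k255 k253 0 (.s k174 k93 12 (.s k94 k14 11 (.d k173 k175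
  k15 0 12)))))] .n) (.c k4 (.l (.s k240 k164 13 (.s k244 k248 1 (.s k80 k160 11 (.s k90 k95 2 (.s
  k89 k91 0 (.s k243 k166 14 (.d k81 k162 k93 12 1)))))))) (.c k8 (.l (.s k240 k164 13 (.s k80 k160
  11 (.s k90 k95 2 (.s k89 k91 0 (.s k243 k166 14 (.d k81 k162 k93 12 1))))))) (.c k254 (.q k2 [(.s
  k8 k4 1 (.s k248 k168 11 (.d k240 k244 k164 1 13))), (.s k4 k8 1 (.s k166 k247 12 (.s k89 k243 14
  (.s k92 k172 11 (.s k93 k81 1 (.s k90 k91 0 (.d k95 k94 k80 0 2)))))))] (.c k4 (.l (.s k240 k164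
  13 (.s k244 k248 1 (.s k80 k160 11 (.s k90 k95 2 (.s k89 k91 0 (.s k243 k166 14 (.d k81 k162 k93
  12 1)))))))) (.c k8 (.l (.s k240 k164 13 (.s k80 k160 11 (.s k90 k95 2 (.s k89 k91 0 (.s k243 k166
  14 (.d k81 k162 k93 12 1))))))) .n))) .n))))) (.c k174 (.l (.s k8 k4 1 (.s k170 k255 14 (.s k89
  k251 12 (.s k243 k166 14 (.d k81 k93 k162 1 12)))))) (.c k255 (.q k240 [(.s k4 k8 1 (.s k80 k160
  11 (.s k166 k247 12 (.s k88 k164 13 (.s k90 k95 2 (.d k89 k243 k91 14 0)))))), (.s k8 k4 1 (.s k80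
  k160 11 (.s k90 k95 2 (.s k15 k165 14 (.s k10 k5 2 (.s k11 k9 0 (.d k248 k244 k169 1 12))))))),
  (.s k4 k8 1 (.s k160 k80 11 (.s k166 k247 12 (.s k243 k89 14 (.s k162 k81 12 (.s k163 k161 0 (.d
  k172 k92 k169 11 2)))))))] (.c k4 (.l (.s k80 k160 11 (.s k88 k164 13 (.s k244 k248 1 (.s k90 k95
  2 (.s k89 k91 0 (.s k243 k166 14 (.d k81 k93 k162 1 12)))))))) (.c k8 (.l (.s k80 k160 11 (.s k88
  k164 13 (.s k90 k95 2 (.s k89 k91 0 (.s k243 k166 14 (.d k81 k93 k162 1 12))))))) (.c k80 (.l (.s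
  k4 k8 1 (.s k166 k247 12 (.s k164 k88 13 (.s k92 k172 11 (.s k165 k167 0 (.s k5 k245 11 (.d k15
  k10 k90 2 14)))))))) (.c k87 (.q k171 [(.s k4 k8 1 (.s k80 k160 11 (.s k166 k247 12 (.s k88 k164
  13 (.s k90 k95 2 (.d k89 k91 k243 0 14)))))), (.s k80 k160 11 (.s k90 k95 2 (.s k15 k165 14 (.s
  k10 k5 2 (.s k170 k250 11 (.s k169 k168 0 (.d k248 k244 k11 1 12))))))), (.s k4 k8 1 (.s k166 k247
  12 (.s k243 k89 14 (.s k162 k81 12 (.s k170 k174 1 (.s k169 k168 0 (.d k172 k92 k163 11 2))))))),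
  (.s k80 k160 11 (.s k90 k95 2 (.s k248 k244 1 (.s k11 k169 12 (.s k91 k251 11 (.d k88 k164 k89 13
  0))))))] (.c k7 (.l (.s k80 k160 11 (.s k88 k164 13 (.s k90 k95 2 (.s k91 k89 0 (.s k11 k251 11
  (.d k248 k244 k169 1 12))))))) (.c k83 (.l (.s k4 k8 1 (.s k166 k247 12 (.s k164 k88 13 (.s k167
  k165 0 (.s k163 k175 1 (.d k172 k92 k169 11 2))))))) .n))) (.c k160 (.l (.s k4 k8 1 (.s k166 k247
  12 (.s k164 k88 13 (.s k165 k167 0 (.s k5 k245 11 (.d k15 k10 k90 2 14))))))) (.c k171 (.q k87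
  [(.s k4 k8 1 (.s k80 k160 11 (.s k166 k247 12 (.s k88 k164 13 (.s k90 k95 2 (.d k89 k243 k91 14
  0)))))), (.s k8 k4 1 (.s k80 k160 11 (.s k90 k95 2 (.s k15 k165 14 (.s k10 k5 2 (.s k11 k9 0 (.d
  k248 k244 k169 1 12))))))), (.s k4 k8 1 (.s k160 k80 11 (.s k166 k247 12 (.s k243 k89 14 (.s k162
  k81 12 (.s k163 k161 0 (.d k172 k92 k169 11 2)))))))] (.c k4 (.l (.s k80 k160 11 (.s k88 k164 13
  (.s k244 k248 1 (.s k90 k95 2 (.s k89 k91 0 (.s k243 k166 14 (.d k81 k93 k162 1 12)))))))) (.c k8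
  (.l (.s k80 k160 11 (.s k88 k164 13 (.s k90 k95 2 (.s k89 k91 0 (.s k243 k166 14 (.d k81 k93 k162
  1 12))))))) (.c k80 (.l (.s k4 k8 1 (.s k166 k247 12 (.s k164 k88 13 (.s k92 k172 11 (.s k165 k167
  0 (.s k5 k245 11 (.d k15 k10 k90 2 14)))))))) (.c k160 (.l (.s k4 k8 1 (.s k166 k247 12 (.s k164
  k88 13 (.s k165 k167 0 (.s k5 k245 11 (.d k15 k10 k90 2 14))))))) .n))))) .n))))))) .n)))))

def t84_87 : T TT 256 :=
  (.q k255 [(.s k4 k8 1 (.s k85 k170 14 (.s k93 k174 12 (.s k89 k81 1 (.d k166 k247 k243 12 14))))),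
  (.s k92 k172 11 (.s k93 k174 12 (.s k94 k95 0 (.s k173 k15 12 (.d k253 k254 k13 0 11))))), (.s k4
  k8 1 (.s k85 k170 14 (.s k166 k247 12 (.s k172 k92 11 (.s k169 k163 2 (.d k253 k254 k1 0 13))))))]
  (.c k85 (.q k86 [(.s k92 k172 11 (.s k93 k174 12 (.s k253 k254 0 (.s k173 k13 11 (.d k94 k95 k15 0
  12))))), (.s k8 k4 1 (.s k92 k172 11 (.s k89 k83 2 (.s k251 k170 12 (.d k243 k247 k166 1 14))))),
  (.s k8 k4 1 (.s k174 k93 12 (.s k254 k253 0 (.s k170 k2 13 (.s k89 k251 12 (.d k166 k162 k243 1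
  14))))))] .n) (.c k86 (.l (.s k85 k170 14 (.s k4 k8 1 (.s k166 k247 12 (.s k89 k243 14 (.d k93 k81
  k174 1 12)))))) .n)))

def t84_88 : T TT 256 :=
  (.q k255 [(.s k92 k172 11 (.s k93 k174 12 (.s k94 k95 0 (.s k173 k15 12 (.d k253 k254 k13 0
  11))))), (.s k4 k8 1 (.s k85 k170 14 (.s k166 k247 12 (.s k89 k243 14 (.d k93 k81 k174 1 12))))),
  (.s k4 k8 1 (.s k85 k170 14 (.s k166 k247 12 (.s k253 k254 0 (.s k169 k1 13 (.d k172 k92 k163 11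
  2))))))] (.c k80 (.l (.s k92 k172 11 (.s k93 k174 12 (.s k94 k95 0 (.s k173 k15 12 (.d k253 k254
  k13 0 11)))))) (.c k92 (.q k80 [(.s k240 k160 11 (.s k85 k170 14 (.s k245 k250 2 (.s k165 k5 11
  (.d k90 k95 k15 2 14))))), (.s k4 k8 1 (.s k85 k170 14 (.s k166 k247 12 (.s k89 k243 14 (.d k93
  k81 k174 1 12))))), (.s k240 k160 11 (.s k244 k248 1 (.s k245 k250 2 (.s k246 k247 0 (.s k249 k243
  2 (.d k253 k254 k241 0 1))))))] .n) .n)))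

def t84_89 : T TT 256 :=
  (.q k204 [(.s k4 k8 1 (.s k68 k136 9 (.s k132 k196 7 (.s k76 k140 7 (.d k72 k64 k192 1 9))))), (.s
  k76 k140 7 (.s k92 k172 11 (.s k108 k124 3 (.s k156 k60 11 (.d k220 k236 k28 3 7)))))] (.c k64 (.l
  (.s k8 k4 1 (.s k136 k68 9 (.s k72 k200 7 (.s k132 k192 9 (.d k140 k76 k128 7 1)))))) (.c k76 (.q
  k102 [(.s k68 k136 9 (.s k51 k153 14 (.s k34 k17 4 (.s k170 k238 9 (.d k85 k119 k255 4 14))))),
  (.s k8 k4 1 (.s k51 k153 14 (.s k17 k34 4 (.s k25 k38 6 (.s k42 k59 4 (.d k21 k29 k63 1 6)))))),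
  (.s k68 k136 9 (.s k85 k119 4 (.s k255 k170 14 (.s k236 k220 3 (.s k253 k254 0 (.d k169 k35 k1 10
  13))))))] (.c k153 (.l (.s k68 k136 9 (.s k85 k119 4 (.s k236 k220 3 (.s k169 k35 10 (.s k253 k1
  13 (.d k255 k170 k254 14 0))))))) .n)) (.c k140 (.q k102 [(.s k68 k136 9 (.s k153 k51 14 (.s k85
  k119 4 (.s k255 k170 14 (.d k221 k238 k17 4 9))))), (.s k8 k4 1 (.s k51 k153 14 (.s k17 k34 4 (.s
  k25 k38 6 (.s k42 k59 4 (.d k21 k29 k63 1 6)))))), (.s k68 k136 9 (.s k85 k119 4 (.s k236 k220 3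
  (.s k169 k35 10 (.s k253 k1 13 (.d k255 k254 k170 0 14))))))] (.c k51 (.l (.s k68 k136 9 (.s k85
  k119 4 (.s k255 k170 14 (.s k236 k220 3 (.s k253 k254 0 (.d k169 k35 k1 10 13))))))) .n)) .n))))

def t84_90 : T TT 256 :=
  (.q k255 [(.s k92 k172 11 (.s k93 k174 12 (.s k253 k254 0 (.s k173 k13 11 (.d k94 k95 k15 0
  12))))), (.s k4 k8 1 (.s k85 k170 14 (.s k166 k247 12 (.s k89 k243 14 (.d k93 k81 k174 1 12))))),
  (.s k4 k8 1 (.s k85 k170 14 (.s k166 k247 12 (.s k172 k92 11 (.s k169 k163 2 (.d k253 k254 k1 0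
  13))))))] .n)

def t84_91 : T TT 256 :=
  (.q k255 [(.s k4 k8 1 (.s k85 k170 14 (.s k166 k247 12 (.s k93 k174 12 (.d k89 k81 k243 1 14))))),
  (.s k92 k172 11 (.s k93 k174 12 (.s k94 k95 0 (.s k253 k254 0 (.d k173 k13 k15 11 12))))), (.s k4
  k8 1 (.s k85 k170 14 (.s k166 k247 12 (.s k172 k92 11 (.s k169 k163 2 (.d k253 k254 k1 0 13))))))]
  .n)

def t84_92 : T TT 256 :=
  (.q k85 [(.s k4 k8 1 (.s k170 k255 14 (.s k166 k247 12 (.s k162 k174 1 (.d k243 k81 k89 12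
  14))))), (.s k255 k170 14 (.s k93 k174 12 (.s k253 k254 0 (.s k1 k169 13 (.s k13 k173 11 (.s k5 k9
  1 (.d k15 k14 k10 0 2))))))), (.s k4 k8 1 (.s k255 k170 14 (.s k166 k247 12 (.s k89 k243 14 (.d
  k93 k81 k174 1 12)))))] (.c k80 (.q k88 [(.s k8 k4 1 (.s k248 k168 11 (.d k240 k244 k164 1 13))),
  (.s k4 k8 1 (.s k170 k255 14 (.s k166 k247 12 (.s k243 k89 14 (.d k162 k174 k81 1 12)))))] (.c k4
  (.l (.s k255 k170 14 (.s k240 k164 13 (.s k244 k248 1 (.s k245 k250 2 (.s k246 k247 0 (.s k249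
  k243 2 (.d k253 k254 k241 0 1)))))))) (.c k8 (.l (.s k255 k170 14 (.s k240 k164 13 (.s k93 k174 12
  (.s k89 k81 1 (.s k90 k91 0 (.s k165 k15 14 (.d k245 k250 k5 2 11)))))))) .n))) (.c k88 (.q k80
  [(.s k240 k160 11 (.s k170 k255 14 (.s k90 k95 2 (.s k10 k250 11 (.d k15 k5 k165 2 14))))), (.s k4
  k8 1 (.s k255 k170 14 (.s k166 k247 12 (.s k89 k243 14 (.d k93 k81 k174 1 12))))), (.s k4 k8 1 (.s
  k240 k160 11 (.s k166 k247 12 (.s k90 k95 2 (.s k14 k242 13 (.d k15 k13 k165 0 14))))))] (.c k93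
  (.l (.s k4 k8 1 (.s k170 k255 14 (.s k166 k247 12 (.s k243 k89 14 (.d k162 k174 k81 1 12))))))
  .n)) (.c k89 (.f k255 k170 14 (.l (.s k93 k174 12 (.s k253 k254 0 (.s k169 k1 13 (.s k173 k13 11
  (.s k165 k161 1 (.s k5 k245 11 (.d k15 k94 k10 12 2))))))))) (.c k166 (.q k80 [(.s k240 k160 11
  (.s k255 k170 14 (.s k245 k250 2 (.s k165 k5 11 (.d k90 k95 k15 2 14))))), (.s k8 k4 1 (.s k240
  k160 11 (.s k170 k255 14 (.s k89 k251 12 (.s k90 k95 2 (.d k88 k164 k91 13 0)))))), (.s k240 k160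
  11 (.s k255 k170 14 (.s k248 k244 1 (.s k250 k245 2 (.s k249 k251 0 (.s k246 k243 2 (.d k254 k253
  k242 0 1))))))), (.s k255 k170 14 (.s k174 k93 12 (.s k95 k90 2 (.s k254 k253 0 (.s k14 k94 11 (.d
  k15 k13 k175 0 11))))))] (.c k170 (.l (.s k4 k8 1 (.s k240 k160 11 (.s k90 k95 2 (.s k165 k15 14
  (.s k5 k245 11 (.s k7 k6 0 (.d k244 k86 k248 12 1)))))))) (.c k175 (.l (.s k240 k160 11 (.s k170
  k255 14 (.s k90 k95 2 (.s k15 k165 14 (.d k10 k5 k250 2 11)))))) (.c k255 (.l (.s k8 k4 1 (.s k240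
  k160 11 (.s k90 k95 2 (.s k15 k165 14 (.s k10 k5 2 (.s k11 k9 0 (.d k248 k244 k169 1 12))))))))
  .n)))) (.c k170 (.q k240 [(.s k80 k160 11 (.s k4 k8 1 (.s k166 k247 12 (.s k90 k95 2 (.s k14 k242
  13 (.d k15 k165 k13 14 0)))))), (.s k80 k160 11 (.s k88 k164 13 (.s k244 k248 1 (.s k90 k95 2 (.s
  k89 k91 0 (.s k243 k166 14 (.d k81 k93 k162 1 12))))))), (.s k88 k164 13 (.s k4 k8 1 (.s k166 k247
  12 (.s k89 k243 14 (.s k90 k91 0 (.s k14 k242 13 (.d k15 k13 k165 0 14)))))))] (.c k4 (.l (.s k80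
  k160 11 (.s k88 k164 13 (.s k244 k248 1 (.s k90 k95 2 (.s k89 k91 0 (.s k243 k166 14 (.d k81 k93
  k162 1 12)))))))) (.c k80 (.l (.s k88 k164 13 (.s k4 k8 1 (.s k166 k247 12 (.s k89 k243 14 (.s k90
  k91 0 (.s k14 k242 13 (.d k15 k13 k165 0 14)))))))) (.c k88 (.l (.s k80 k160 11 (.s k4 k8 1 (.s
  k166 k247 12 (.s k90 k95 2 (.s k14 k242 13 (.d k15 k165 k13 14 0))))))) (.c k89 (.l (.s k80 k160
  11 (.s k164 k88 13 (.s k90 k95 2 (.s k165 k15 14 (.s k166 k167 0 (.d k4 k8 k247 1 12))))))) (.c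
  k90 (.f k80 k160 11 (.l (.s k4 k8 1 (.s k166 k247 12 (.s k164 k88 13 (.s k165 k167 0 (.s k5 k245
  11 (.s k7 k6 0 (.d k244 k248 k86 1 12))))))))) (.c k165 (.l (.s k4 k8 1 (.s k166 k247 12 (.s k88
  k164 13 (.s k89 k243 14 (.s k90 k91 0 (.d k80 k95 k160 2 11))))))) (.c k166 (.l (.s k4 k8 1 (.s
  k80 k160 11 (.s k90 k95 2 (.s k165 k15 14 (.s k5 k245 11 (.s k7 k6 0 (.d k244 k86 k248 12
  1)))))))) .n)))))))) (.c k174 (.l (.s k8 k4 1 (.s k170 k255 14 (.s k89 k251 12 (.s k243 k166 14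
  (.d k81 k93 k162 1 12)))))) (.c k255 (.q k15 [(.s k5 k10 2 (.s k13 k14 0 (.s k1 k9 1 (.s k253 k169
  13 (.d k173 k93 k94 11 12))))), (.s k4 k8 1 (.s k5 k10 2 (.s k166 k247 12 (.s k165 k245 11 (.s k14
  k13 0 (.d k90 k240 k242 14 13)))))), (.s k4 k8 1 (.s k166 k247 12 (.s k13 k14 0 (.s k173 k94 12
  (.s k93 k253 11 (.d k89 k243 k81 14 1)))))), (.s k4 k8 1 (.s k5 k10 2 (.s k6 k7 0 (.s k166 k247 12
  (.s k246 k86 11 (.d k243 k89 k249 14 2))))))] (.c k8 (.l (.s k5 k10 2 (.s k165 k245 11 (.s k13 k14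
  0 (.s k89 k241 13 (.s k243 k166 14 (.d k81 k93 k162 1 12))))))) (.c k80 (.q k88 [(.s k8 k4 1 (.s
  k248 k168 11 (.d k240 k244 k164 1 13))), (.s k5 k10 2 (.s k165 k245 11 (.d k240 k164 k90 13 14))),
  (.s k4 k8 1 (.s k166 k247 12 (.s k14 k13 0 (.s k90 k242 13 (.d k89 k243 k91 14 0)))))] (.c k87 (.q
  k171 [(.s k8 k4 1 (.s k248 k168 11 (.d k240 k244 k164 1 13))), (.s k5 k10 2 (.s k165 k245 11 (.d
  k240 k164 k90 13 14))), (.s k4 k8 1 (.s k166 k247 12 (.s k14 k13 0 (.s k90 k242 13 (.d k89 k243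
  k91 14 0)))))] .n) (.c k171 (.q k87 [(.s k5 k10 2 (.s k165 k245 11 (.d k240 k164 k90 13 14))), (.s
  k8 k4 1 (.s k248 k168 11 (.d k240 k244 k164 1 13))), (.s k4 k8 1 (.s k5 k10 2 (.s k7 k6 0 (.d k247
  k167 k166 11 12))))] .n) .n))) (.c k87 (.q k171 [(.s k5 k10 2 (.s k13 k14 0 (.s k1 k9 1 (.s k253
  k169 13 (.d k173 k93 k94 11 12))))), (.s k4 k8 1 (.s k5 k10 2 (.s k166 k247 12 (.s k165 k245 11
  (.s k243 k89 14 (.d k167 k164 k91 0 13)))))), (.s k4 k8 1 (.s k166 k247 12 (.s k13 k14 0 (.s k173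
  k94 12 (.s k93 k253 11 (.d k89 k243 k81 14 1))))))] (.c k8 (.l (.s k5 k10 2 (.s k165 k245 11 (.s
  k13 k14 0 (.s k89 k241 13 (.s k243 k166 14 (.d k81 k93 k162 1 12))))))) (.c k80 (.q k88 [(.s k8 k4
  1 (.s k248 k168 11 (.d k240 k244 k164 1 13))), (.s k5 k10 2 (.s k165 k245 11 (.d k240 k164 k90 13
  14))), (.s k4 k8 1 (.s k166 k247 12 (.s k14 k13 0 (.s k90 k242 13 (.d k89 k243 k91 14 0)))))] .n)
  (.c k88 (.q k80 [(.s k240 k160 11 (.d k90 k95 k165 2 14)), (.s k5 k10 2 (.s k13 k14 0 (.s k1 k9 1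
  (.s k253 k169 13 (.d k173 k93 k94 11 12)))))] .n) (.c k89 (.l (.s k5 k10 2 (.s k13 k14 0 (.s k1 k9
  1 (.s k173 k94 12 (.d k253 k93 k169 11 13)))))) .n))))) (.c k88 (.q k80 [(.s k240 k160 11 (.d k90
  k95 k165 2 14)), (.s k5 k10 2 (.s k13 k14 0 (.s k1 k9 1 (.s k253 k169 13 (.d k173 k93 k94 11
  12)))))] (.c k87 (.q k171 [(.s k240 k160 11 (.d k90 k95 k165 2 14)), (.s k5 k10 2 (.s k13 k14 0
  (.s k1 k9 1 (.s k253 k169 13 (.d k173 k93 k94 11 12)))))] .n) (.c k171 (.q k87 [(.s k240 k160 11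
  (.d k90 k95 k165 2 14)), (.s k4 k8 1 (.s k5 k10 2 (.s k7 k6 0 (.d k247 k167 k166 11 12))))] .n)
  .n))) (.c k171 (.q k87 [(.s k4 k8 1 (.s k5 k10 2 (.s k247 k166 12 (.d k7 k6 k167 0 11)))), (.s k4
  k8 1 (.s k166 k247 12 (.s k13 k14 0 (.s k173 k94 12 (.s k93 k253 11 (.d k89 k243 k81 14 1)))))),
  (.s k5 k10 2 (.s k13 k14 0 (.s k1 k9 1 (.s k253 k169 13 (.d k173 k93 k94 11 12)))))] (.c k8 (.l
  (.s k5 k10 2 (.s k165 k245 11 (.s k13 k14 0 (.s k89 k241 13 (.s k243 k166 14 (.d k81 k93 k162 1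
  12))))))) (.c k80 (.q k88 [(.s k5 k10 2 (.s k165 k245 11 (.d k240 k164 k90 13 14))), (.s k8 k4 1
  (.s k248 k168 11 (.d k240 k244 k164 1 13))), (.s k4 k8 1 (.s k5 k10 2 (.s k7 k6 0 (.d k247 k167
  k166 11 12))))] .n) (.c k88 (.q k80 [(.s k240 k160 11 (.d k90 k95 k165 2 14)), (.s k4 k8 1 (.s k5
  k10 2 (.s k7 k6 0 (.d k247 k167 k166 11 12))))] .n) .n)))) .n)))))) .n))))))))

def t84_93 : T TT 256 :=
  (.q k204 [(.s k4 k8 1 (.s k68 k136 9 (.s k132 k196 7 (.s k76 k140 7 (.d k72 k64 k192 1 9))))), (.s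
  k76 k140 7 (.s k92 k172 11 (.s k108 k124 3 (.s k156 k60 11 (.d k220 k236 k28 3 7)))))] (.c k64 (.l
  (.s k8 k4 1 (.s k136 k68 9 (.s k72 k200 7 (.s k132 k192 9 (.d k140 k76 k128 7 1)))))) (.c k76 (.q
  k110 [(.s k157 k63 12 (.s k220 k236 3 (.s k94 k31 8 (.s k15 k173 12 (.d k78 k126 k141 3 8))))),
  (.s k4 k8 1 (.s k63 k157 12 (.s k21 k42 6 (.s k38 k55 4 (.s k25 k51 6 (.d k29 k17 k46 1 4)))))),
  (.s k172 k92 11 (.s k236 k220 3 (.s k173 k47 8 (.s k174 k175 0 (.s k238 k46 7 (.s k239 k237 0 (.d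
  k44 k108 k109 7 8)))))))] .n) (.c k140 (.q k110 [(.s k157 k63 12 (.s k220 k236 3 (.s k94 k31 8 (.s
  k15 k173 12 (.d k78 k126 k141 3 8))))), (.s k4 k8 1 (.s k63 k157 12 (.s k21 k42 6 (.s k38 k55 4
  (.s k25 k51 6 (.d k29 k17 k46 1 4)))))), (.s k172 k92 11 (.s k236 k220 3 (.s k44 k108 7 (.s k173
  k47 8 (.s k174 k175 0 (.s k239 k109 8 (.d k238 k237 k46 0 7)))))))] .n) .n))))

def t84_94 : T TT 256 :=
  (.q k85 [(.s k4 k8 1 (.s k170 k255 14 (.s k166 k247 12 (.s k243 k89 14 (.d k162 k174 k81 1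
  12))))), (.s k4 k8 1 (.s k166 k247 12 (.s k172 k92 11 (.s k169 k163 2 (.s k253 k1 13 (.d k255 k254
  k170 0 14))))))] (.c k4 (.q k240 [(.s k255 k170 14 (.s k250 k245 2 (.s k254 k253 0 (.s k246 k242 1
  (.s k249 k243 2 (.d k248 k244 k251 1 0)))))), (.s k80 k160 11 (.s k170 k255 14 (.s k90 k95 2 (.s
  k10 k250 11 (.d k15 k5 k165 2 14))))), (.s k80 k160 11 (.s k88 k164 13 (.s k244 k248 1 (.s k90 k95
  2 (.s k89 k91 0 (.s k243 k166 14 (.d k81 k93 k162 1 12)))))))] (.c k164 (.l (.s k244 k248 1 (.s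
  k80 k160 11 (.s k170 k255 14 (.s k90 k95 2 (.s k10 k250 11 (.d k15 k5 k165 2 14))))))) (.c k244
  (.l (.s k164 k88 13 (.s k80 k160 11 (.s k170 k255 14 (.s k90 k95 2 (.s k10 k250 11 (.d k15 k5 k165
  2 14))))))) .n))) (.c k8 (.l (.s k255 k170 14 (.s k172 k92 11 (.s k253 k254 0 (.s k169 k1 13 (.s
  k166 k163 2 (.s k247 k4 12 (.d k243 k251 k89 1 14)))))))) (.c k166 (.q k240 [(.s k80 k160 11 (.s
  k255 k170 14 (.s k245 k250 2 (.s k165 k5 11 (.d k90 k95 k15 2 14))))), (.s k255 k170 14 (.s k248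
  k244 1 (.s k250 k245 2 (.s k249 k251 0 (.s k246 k243 2 (.d k254 k253 k242 0 1)))))), (.s k8 k4 1
  (.s k80 k160 11 (.s k90 k95 2 (.s k15 k165 14 (.s k10 k5 2 (.s k11 k9 0 (.d k248 k244 k169 1
  12)))))))] (.c k170 (.l (.s k4 k8 1 (.s k80 k160 11 (.s k90 k95 2 (.s k165 k15 14 (.s k5 k245 11
  (.s k7 k6 0 (.d k244 k86 k248 12 1)))))))) .n)) (.c k170 (.q k240 [(.s k4 k8 1 (.s k80 k160 11 (.s
  k166 k247 12 (.s k90 k95 2 (.s k14 k242 13 (.d k15 k165 k13 14 0)))))), (.s k80 k160 11 (.s k88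
  k164 13 (.s k244 k248 1 (.s k90 k95 2 (.s k89 k91 0 (.s k243 k166 14 (.d k81 k93 k162 1 12))))))),
  (.s k4 k8 1 (.s k166 k247 12 (.s k88 k164 13 (.s k89 k243 14 (.s k90 k91 0 (.s k14 k242 13 (.d k15
  k13 k165 0 14)))))))] (.c k4 (.l (.s k80 k160 11 (.s k88 k164 13 (.s k244 k248 1 (.s k90 k95 2 (.s
  k89 k91 0 (.s k243 k166 14 (.d k81 k93 k162 1 12)))))))) (.c k89 (.l (.s k80 k160 11 (.s k164 k88
  13 (.s k90 k95 2 (.s k165 k15 14 (.s k166 k167 0 (.d k4 k8 k247 1 12))))))) (.c k90 (.l (.s k4 k8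
  1 (.s k80 k160 11 (.s k166 k247 12 (.s k89 k243 14 (.s k92 k172 11 (.s k81 k93 1 (.d k83 k82 k86 0
  2)))))))) (.c k165 (.l (.s k4 k8 1 (.s k166 k247 12 (.s k88 k164 13 (.s k89 k243 14 (.s k90 k91 0
  (.d k80 k95 k160 2 11))))))) (.c k166 (.l (.s k4 k8 1 (.s k80 k160 11 (.s k90 k95 2 (.s k165 k15
  14 (.s k5 k245 11 (.s k7 k6 0 (.d k244 k86 k248 12 1)))))))) .n)))))) (.c k243 (.l (.s k4 k8 1 (.s
  k255 k170 14 (.s k166 k247 12 (.s k172 k92 11 (.s k253 k254 0 (.d k169 k163 k1 2 13))))))) (.c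
  k247 (.l (.s k8 k4 1 (.s k170 k255 14 (.s k89 k251 12 (.s k243 k166 14 (.d k81 k93 k162 1 12))))))
  (.c k255 (.q k240 [(.s k4 k8 1 (.s k80 k160 11 (.s k166 k247 12 (.s k243 k89 14 (.s k242 k241 0
  (.d k90 k95 k14 2 13)))))), (.s k80 k160 11 (.s k88 k164 13 (.s k244 k248 1 (.s k90 k95 2 (.s k89
  k91 0 (.s k243 k166 14 (.d k81 k93 k162 1 12))))))), (.s k4 k8 1 (.s k166 k247 12 (.s k164 k88 13
  (.s k92 k172 11 (.s k165 k167 0 (.s k5 k245 11 (.d k15 k10 k90 2 14))))))), (.s k4 k8 1 (.s k160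
  k80 11 (.s k166 k247 12 (.s k243 k89 14 (.s k162 k81 12 (.s k163 k161 0 (.d k172 k92 k169 11
  2))))))), (.s k8 k4 1 (.s k80 k160 11 (.s k90 k95 2 (.s k15 k165 14 (.s k10 k5 2 (.s k11 k9 0 (.d
  k248 k244 k169 1 12)))))))] (.c k4 (.l (.s k80 k160 11 (.s k88 k164 13 (.s k244 k248 1 (.s k90 k95
  2 (.s k89 k91 0 (.s k243 k166 14 (.d k81 k93 k162 1 12)))))))) (.c k80 (.l (.s k4 k8 1 (.s k166
  k247 12 (.s k164 k88 13 (.s k92 k172 11 (.s k165 k167 0 (.s k5 k245 11 (.d k15 k10 k90 2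
  14)))))))) (.c k87 (.q k171 [(.s k4 k8 1 (.s k80 k160 11 (.s k166 k247 12 (.s k243 k89 14 (.s k242
  k241 0 (.d k90 k95 k14 2 13)))))), (.s k80 k160 11 (.s k90 k95 2 (.s k15 k165 14 (.s k10 k5 2 (.s
  k170 k250 11 (.s k169 k168 0 (.d k248 k244 k11 1 12))))))), (.s k4 k8 1 (.s k166 k247 12 (.s k243
  k89 14 (.s k162 k81 12 (.s k170 k174 1 (.s k169 k168 0 (.d k172 k163 k92 2 11)))))))] (.c k170 (.l
  (.s k4 k8 1 (.s k80 k160 11 (.s k166 k247 12 (.s k88 k164 13 (.s k90 k95 2 (.d k89 k91 k243 0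
  14))))))) .n)) (.c k171 (.q k87 [(.s k4 k8 1 (.s k80 k160 11 (.s k166 k247 12 (.s k243 k89 14 (.s
  k242 k241 0 (.d k90 k95 k14 2 13)))))), (.s k4 k8 1 (.s k247 k166 12 (.s k7 k167 11 (.s k5 k6 0
  (.s k165 k245 11 (.d k244 k86 k248 12 1)))))), (.s k80 k160 11 (.s k88 k164 13 (.s k244 k248 1 (.s
  k90 k95 2 (.s k89 k91 0 (.s k243 k166 14 (.d k81 k93 k162 1 12)))))))] (.c k4 (.l (.s k80 k160 11
  (.s k88 k164 13 (.s k244 k248 1 (.s k90 k95 2 (.s k89 k91 0 (.s k243 k166 14 (.d k81 k93 k162 1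
  12)))))))) (.c k165 (.l (.s k4 k8 1 (.s k80 k160 11 (.s k166 k247 12 (.s k88 k164 13 (.s k90 k95 2
  (.d k89 k243 k91 14 0))))))) (.c k166 (.l (.s k8 k4 1 (.s k80 k160 11 (.s k90 k95 2 (.s k15 k165
  14 (.s k10 k5 2 (.s k11 k9 0 (.d k248 k244 k169 1 12)))))))) .n)))) .n))))) .n))))))))

def t84_95 : T TT 256 :=
  (.q k255 [(.s k4 k8 1 (.s k85 k170 14 (.s k166 k247 12 (.s k93 k174 12 (.d k89 k81 k243 1 14))))),
  (.s k172 k92 11 (.s k254 k253 0 (.s k174 k93 12 (.s k94 k14 11 (.d k173 k175 k15 0 12))))), (.s k4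
  k8 1 (.s k85 k170 14 (.s k166 k247 12 (.s k253 k254 0 (.s k169 k1 13 (.d k172 k163 k92 2 11))))))]
  .n)

def t84_96 : T TT 256 :=
  (.q k255 [(.s k4 k8 1 (.s k85 k170 14 (.s k166 k247 12 (.s k93 k174 12 (.d k89 k81 k243 1 14))))),
  (.s k92 k172 11 (.s k93 k174 12 (.s k94 k95 0 (.s k173 k15 12 (.d k253 k254 k13 0 11))))), (.s k4
  k8 1 (.s k85 k170 14 (.s k166 k247 12 (.s k172 k92 11 (.s k169 k163 2 (.d k253 k254 k1 0 13))))))]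
  .n)

def t84_97 : T TT 256 :=
  (.q k255 [(.s k4 k8 1 (.s k85 k170 14 (.s k166 k247 12 (.s k93 k174 12 (.d k89 k81 k243 1 14))))),
  (.s k92 k172 11 (.s k93 k174 12 (.s k94 k95 0 (.s k173 k15 12 (.d k253 k254 k13 0 11))))), (.s k4
  k8 1 (.s k85 k170 14 (.s k166 k247 12 (.s k172 k92 11 (.s k169 k163 2 (.d k253 k254 k1 0 13))))))]
  .n)

def t84_98 : T TT 256 :=
  (.q k255 [(.s k4 k8 1 (.s k85 k170 14 (.s k166 k247 12 (.s k93 k174 12 (.d k89 k81 k243 1 14))))),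
  (.s k92 k172 11 (.s k93 k174 12 (.s k94 k95 0 (.s k173 k15 12 (.d k253 k254 k13 0 11))))), (.s k4
  k8 1 (.s k85 k170 14 (.s k166 k247 12 (.s k172 k92 11 (.s k169 k163 2 (.d k253 k254 k1 0 13))))))]
  .n)

def t84_99 : T TT 256 :=
  (.q k255 [(.s k4 k8 1 (.s k85 k170 14 (.s k166 k247 12 (.s k93 k174 12 (.d k89 k81 k243 1 14))))),
  (.s k92 k172 11 (.s k93 k174 12 (.s k94 k95 0 (.s k173 k15 12 (.d k253 k254 k13 0 11))))), (.s k4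
  k8 1 (.s k85 k170 14 (.s k166 k247 12 (.s k172 k92 11 (.s k169 k163 2 (.d k253 k254 k1 0 13))))))]
  .n)

def t84_100 : T TT 256 :=
  (.q k255 [(.s k4 k8 1 (.s k85 k170 14 (.s k166 k247 12 (.s k93 k174 12 (.d k89 k81 k243 1 14))))),
  (.s k92 k172 11 (.s k93 k174 12 (.s k94 k95 0 (.s k173 k15 12 (.d k253 k254 k13 0 11))))), (.s k4
  k8 1 (.s k85 k170 14 (.s k166 k247 12 (.s k172 k92 11 (.s k169 k163 2 (.d k253 k254 k1 0 13))))))]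
  (.c k68 (.q k116 [(.s k4 k8 1 (.s k85 k170 14 (.s k166 k247 12 (.s k93 k174 12 (.d k89 k81 k243 1
  14))))), (.s k48 k184 9 (.s k117 k186 10 (.s k118 k119 0 (.s k185 k51 10 (.d k253 k254 k49 0
  9)))))] (.c k85 (.l (.s k92 k172 11 (.s k93 k174 12 (.s k94 k95 0 (.s k173 k15 12 (.d k253 k254
  k13 0 11)))))) .n)) (.c k116 (.q k68 [(.s k4 k8 1 (.s k85 k170 14 (.s k166 k247 12 (.s k89 k243 14
  (.d k93 k81 k174 1 12))))), (.s k4 k8 1 (.s k136 k204 9 (.s k132 k196 7 (.s k192 k72 9 (.d k128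
  k140 k64 1 7))))), (.s k204 k136 9 (.s k85 k170 14 (.s k102 k119 4 (.s k153 k51 14 (.d k221 k238
  k17 4 9)))))] .n) .n)))

def t84_101 : T TT 256 :=
  (.q k255 [(.s k92 k172 11 (.s k93 k174 12 (.s k94 k95 0 (.s k173 k15 12 (.d k253 k254 k13 0
  11))))), (.s k4 k8 1 (.s k85 k170 14 (.s k166 k247 12 (.s k89 k243 14 (.d k93 k81 k174 1 12))))),
  (.s k4 k8 1 (.s k85 k170 14 (.s k166 k247 12 (.s k172 k92 11 (.s k169 k163 2 (.d k253 k254 k1 0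
  13))))))] .n)

def t84_102 : T TT 256 :=
  (.q k255 [(.s k92 k172 11 (.s k93 k174 12 (.s k94 k95 0 (.s k173 k15 12 (.d k253 k254 k13 0
  11))))), (.s k4 k8 1 (.s k85 k170 14 (.s k166 k247 12 (.s k89 k243 14 (.d k93 k81 k174 1 12))))),
  (.s k4 k8 1 (.s k85 k170 14 (.s k166 k247 12 (.s k172 k92 11 (.s k169 k163 2 (.d k253 k254 k1 0
  13))))))] .n)

def t84_103 : T TT 256 :=
  (.q k255 [(.s k4 k8 1 (.s k85 k170 14 (.s k166 k247 12 (.s k93 k174 12 (.d k89 k81 k243 1 14))))),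
  (.s k92 k172 11 (.s k93 k174 12 (.s k94 k95 0 (.s k173 k15 12 (.d k253 k254 k13 0 11))))), (.s k4
  k8 1 (.s k85 k170 14 (.s k166 k247 12 (.s k172 k92 11 (.s k169 k163 2 (.d k253 k254 k1 0 13))))))]
  .n)

def t84_104 : T TT 256 :=
  (.q k255 [(.s k4 k8 1 (.s k85 k170 14 (.s k166 k247 12 (.s k93 k174 12 (.d k89 k81 k243 1 14))))),
  (.s k92 k172 11 (.s k93 k174 12 (.s k94 k95 0 (.s k173 k15 12 (.d k253 k254 k13 0 11))))), (.s k4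
  k8 1 (.s k85 k170 14 (.s k166 k247 12 (.s k172 k92 11 (.s k169 k163 2 (.d k253 k254 k1 0 13))))))]
  (.c k64 (.q k124 [(.s k4 k8 1 (.s k85 k170 14 (.s k166 k247 12 (.s k93 k174 12 (.d k89 k81 k243 1
  14))))), (.s k92 k172 11 (.s k60 k188 7 (.s k28 k44 3 (.s k156 k220 7 (.d k108 k76 k204 3 11)))))]
  .n) (.c k124 (.q k64 [(.s k4 k8 1 (.s k85 k170 14 (.s k166 k247 12 (.s k93 k174 12 (.d k89 k81
  k243 1 14))))), (.s k192 k128 7 (.s k85 k170 14 (.s k106 k127 6 (.s k149 k63 14 (.d k213 k234 k21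
  6 7))))), (.s k8 k4 1 (.s k192 k128 7 (.s k72 k132 9 (.s k136 k200 7 (.d k68 k76 k204 1 9)))))]
  .n) .n)))

def t84_105 : T TT 256 :=
  (.q k255 [(.s k92 k172 11 (.s k93 k174 12 (.s k94 k95 0 (.s k173 k15 12 (.d k253 k254 k13 0
  11))))), (.s k4 k8 1 (.s k85 k170 14 (.s k166 k247 12 (.s k89 k243 14 (.d k93 k81 k174 1 12))))),
  (.s k4 k8 1 (.s k85 k170 14 (.s k166 k247 12 (.s k172 k92 11 (.s k169 k163 2 (.d k253 k254 k1 0
  13))))))] .n)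

def t84_106 : T TT 256 :=
  (.q k255 [(.s k92 k172 11 (.s k93 k174 12 (.s k94 k95 0 (.s k173 k15 12 (.d k253 k254 k13 0
  11))))), (.s k4 k8 1 (.s k85 k170 14 (.s k166 k247 12 (.s k89 k243 14 (.d k93 k81 k174 1 12))))),
  (.s k4 k8 1 (.s k85 k170 14 (.s k166 k247 12 (.s k172 k92 11 (.s k169 k163 2 (.d k253 k254 k1 0
  13))))))] .n)

def t84_107 : T TT 256 :=
  (.q k255 [(.s k4 k8 1 (.s k85 k170 14 (.s k166 k247 12 (.s k93 k174 12 (.d k89 k81 k243 1 14))))),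
  (.s k92 k172 11 (.s k93 k174 12 (.s k94 k95 0 (.s k173 k15 12 (.d k253 k254 k13 0 11))))), (.s k4
  k8 1 (.s k85 k170 14 (.s k166 k247 12 (.s k172 k92 11 (.s k169 k163 2 (.d k253 k254 k1 0 13))))))]
  .n)

def t84_108 : T TT 256 :=
  (.q k255 [(.s k4 k8 1 (.s k85 k170 14 (.s k166 k247 12 (.s k93 k174 12 (.d k89 k81 k243 1 14))))),
  (.s k92 k172 11 (.s k93 k174 12 (.s k94 k95 0 (.s k173 k15 12 (.d k253 k254 k13 0 11))))), (.s k4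
  k8 1 (.s k85 k170 14 (.s k166 k247 12 (.s k172 k92 11 (.s k169 k163 2 (.d k253 k254 k1 0 13))))))]
  .n)

def t84_109 : T TT 256 :=
  (.q k255 [(.s k4 k8 1 (.s k85 k170 14 (.s k166 k247 12 (.s k89 k243 14 (.d k93 k81 k174 1 12))))),
  (.s k92 k172 11 (.s k93 k174 12 (.s k94 k95 0 (.s k173 k15 12 (.d k253 k254 k13 0 11))))), (.s k4
  k8 1 (.s k85 k170 14 (.s k166 k247 12 (.s k172 k92 11 (.s k169 k163 2 (.d k253 k254 k1 0 13))))))]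
  .n)

def t84_110 : T TT 256 :=
  (.q k255 [(.s k4 k8 1 (.s k85 k170 14 (.s k166 k247 12 (.s k89 k243 14 (.d k93 k81 k174 1 12))))),
  (.s k92 k172 11 (.s k93 k174 12 (.s k94 k95 0 (.s k173 k15 12 (.d k253 k254 k13 0 11))))), (.s k4
  k8 1 (.s k85 k170 14 (.s k166 k247 12 (.s k172 k92 11 (.s k169 k163 2 (.d k253 k254 k1 0 13))))))]
  .n)

def t84_111 : T TT 256 :=
  (.q k255 [(.s k4 k8 1 (.s k85 k170 14 (.s k166 k247 12 (.s k93 k174 12 (.d k89 k81 k243 1 14))))),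
  (.s k92 k172 11 (.s k93 k174 12 (.s k94 k95 0 (.s k173 k15 12 (.d k253 k254 k13 0 11))))), (.s k4
  k8 1 (.s k85 k170 14 (.s k166 k247 12 (.s k172 k92 11 (.s k169 k163 2 (.d k253 k254 k1 0 13))))))]
  .n)

def t84_112 : T TT 256 :=
  (.q k255 [(.s k4 k8 1 (.s k85 k170 14 (.s k166 k247 12 (.s k93 k174 12 (.d k89 k81 k243 1 14))))),
  (.s k92 k172 11 (.s k93 k174 12 (.s k94 k95 0 (.s k173 k15 12 (.d k253 k254 k13 0 11))))), (.s k4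
  k8 1 (.s k85 k170 14 (.s k166 k247 12 (.s k172 k92 11 (.s k169 k163 2 (.d k253 k254 k1 0 13))))))]
  .n)

def t84_113 : T TT 256 :=
  (.q k255 [(.s k4 k8 1 (.s k85 k170 14 (.s k166 k247 12 (.s k93 k174 12 (.d k89 k81 k243 1 14))))),
  (.s k92 k172 11 (.s k93 k174 12 (.s k94 k95 0 (.s k173 k15 12 (.d k253 k254 k13 0 11))))), (.s k4
  k8 1 (.s k85 k170 14 (.s k166 k247 12 (.s k172 k92 11 (.s k169 k163 2 (.d k253 k254 k1 0 13))))))]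
  .n)

def t84_114 : T TT 256 :=
  (.q k255 [(.s k4 k8 1 (.s k85 k170 14 (.s k166 k247 12 (.s k93 k174 12 (.d k89 k81 k243 1 14))))),
  (.s k92 k172 11 (.s k93 k174 12 (.s k94 k95 0 (.s k173 k15 12 (.d k253 k254 k13 0 11))))), (.s k4
  k8 1 (.s k85 k170 14 (.s k166 k247 12 (.s k172 k92 11 (.s k169 k163 2 (.d k253 k254 k1 0 13))))))]
  .n)

def t84_115 : T TT 256 :=
  (.q k255 [(.s k4 k8 1 (.s k85 k170 14 (.s k166 k247 12 (.s k93 k174 12 (.d k89 k81 k243 1 14))))),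
  (.s k92 k172 11 (.s k93 k174 12 (.s k94 k95 0 (.s k173 k15 12 (.d k253 k254 k13 0 11))))), (.s k4
  k8 1 (.s k85 k170 14 (.s k166 k247 12 (.s k172 k92 11 (.s k169 k163 2 (.d k253 k254 k1 0 13))))))]
  .n)

def t84_116 : T TT 256 :=
  (.q k255 [(.s k4 k8 1 (.s k85 k170 14 (.s k166 k247 12 (.s k93 k174 12 (.d k89 k81 k243 1 14))))),
  (.s k92 k172 11 (.s k93 k174 12 (.s k94 k95 0 (.s k173 k15 12 (.d k253 k254 k13 0 11))))), (.s k4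
  k8 1 (.s k85 k170 14 (.s k166 k247 12 (.s k172 k92 11 (.s k169 k163 2 (.d k253 k254 k1 0 13))))))]
  (.c k68 (.q k100 [(.s k4 k8 1 (.s k85 k170 14 (.s k166 k247 12 (.s k93 k174 12 (.d k89 k81 k243 1
  14))))), (.s k92 k172 11 (.s k93 k174 12 (.s k94 k95 0 (.s k173 k15 12 (.d k253 k254 k13 0
  11))))), (.s k4 k8 1 (.s k85 k170 14 (.s k166 k247 12 (.s k172 k92 11 (.s k169 k163 2 (.d k253
  k254 k1 0 13))))))] .n) (.c k100 (.q k68 [(.s k4 k8 1 (.s k85 k170 14 (.s k166 k247 12 (.s k89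
  k243 14 (.d k93 k81 k174 1 12))))), (.s k4 k8 1 (.s k136 k204 9 (.s k132 k196 7 (.s k192 k72 9 (.d
  k128 k140 k64 1 7))))), (.s k204 k136 9 (.s k85 k170 14 (.s k102 k119 4 (.s k153 k51 14 (.d k221
  k238 k17 4 9)))))] .n) .n)))

def t84_117 : T TT 256 :=
  (.q k255 [(.s k4 k8 1 (.s k85 k170 14 (.s k93 k174 12 (.s k89 k81 1 (.d k166 k247 k243 12 14))))),
  (.s k92 k172 11 (.s k93 k174 12 (.s k94 k95 0 (.s k173 k15 12 (.d k253 k254 k13 0 11))))), (.s k4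
  k8 1 (.s k85 k170 14 (.s k166 k247 12 (.s k172 k92 11 (.s k169 k163 2 (.d k253 k254 k1 0 13))))))]
  .n)

def t84_118 : T TT 256 :=
  (.q k255 [(.s k4 k8 1 (.s k85 k170 14 (.s k166 k247 12 (.s k93 k174 12 (.d k89 k81 k243 1 14))))),
  (.s k92 k172 11 (.s k93 k174 12 (.s k94 k95 0 (.s k173 k15 12 (.d k253 k254 k13 0 11))))), (.s k4
  k8 1 (.s k85 k170 14 (.s k166 k247 12 (.s k172 k92 11 (.s k169 k163 2 (.d k253 k254 k1 0 13))))))]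
  .n)

def t84_119 : T TT 256 :=
  (.q k255 [(.s k4 k8 1 (.s k85 k170 14 (.s k93 k174 12 (.s k89 k81 1 (.d k166 k247 k243 12 14))))),
  (.s k92 k172 11 (.s k93 k174 12 (.s k94 k95 0 (.s k173 k15 12 (.d k253 k254 k13 0 11))))), (.s k4
  k8 1 (.s k85 k170 14 (.s k166 k247 12 (.s k172 k92 11 (.s k169 k163 2 (.d k253 k254 k1 0 13))))))]
  .n)

def t84_120 : T TT 256 :=
  (.q k255 [(.s k4 k8 1 (.s k85 k170 14 (.s k166 k247 12 (.s k93 k174 12 (.d k89 k81 k243 1 14))))),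
  (.s k92 k172 11 (.s k93 k174 12 (.s k94 k95 0 (.s k173 k15 12 (.d k253 k254 k13 0 11))))), (.s k4
  k8 1 (.s k85 k170 14 (.s k166 k247 12 (.s k172 k92 11 (.s k169 k163 2 (.d k253 k254 k1 0 13))))))]
  .n)

def t84_121 : T TT 256 :=
  (.q k255 [(.s k4 k8 1 (.s k85 k170 14 (.s k166 k247 12 (.s k93 k174 12 (.d k89 k81 k243 1 14))))),
  (.s k92 k172 11 (.s k93 k174 12 (.s k94 k95 0 (.s k173 k15 12 (.d k253 k254 k13 0 11))))), (.s k4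
  k8 1 (.s k85 k170 14 (.s k166 k247 12 (.s k172 k92 11 (.s k169 k163 2 (.d k253 k254 k1 0 13))))))]
  .n)

def t84_122 : T TT 256 :=
  (.q k255 [(.s k4 k8 1 (.s k85 k170 14 (.s k166 k247 12 (.s k93 k174 12 (.d k89 k81 k243 1 14))))),
  (.s k92 k172 11 (.s k93 k174 12 (.s k94 k95 0 (.s k173 k15 12 (.d k253 k254 k13 0 11))))), (.s k4
  k8 1 (.s k85 k170 14 (.s k166 k247 12 (.s k172 k92 11 (.s k169 k163 2 (.d k253 k254 k1 0 13))))))]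
  .n)

def t84_123 : T TT 256 :=
  (.q k255 [(.s k4 k8 1 (.s k85 k170 14 (.s k166 k247 12 (.s k93 k174 12 (.d k89 k81 k243 1 14))))),
  (.s k92 k172 11 (.s k93 k174 12 (.s k94 k95 0 (.s k173 k15 12 (.d k253 k254 k13 0 11))))), (.s k4
  k8 1 (.s k85 k170 14 (.s k166 k247 12 (.s k172 k92 11 (.s k169 k163 2 (.d k253 k254 k1 0 13))))))]
  .n)

def t84_124 : T TT 256 :=
  (.q k255 [(.s k4 k8 1 (.s k85 k170 14 (.s k166 k247 12 (.s k93 k174 12 (.d k89 k81 k243 1 14))))),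
  (.s k92 k172 11 (.s k93 k174 12 (.s k94 k95 0 (.s k173 k15 12 (.d k253 k254 k13 0 11))))), (.s k4
  k8 1 (.s k85 k170 14 (.s k166 k247 12 (.s k172 k92 11 (.s k169 k163 2 (.d k253 k254 k1 0 13))))))]
  (.c k64 (.q k104 [(.s k4 k8 1 (.s k85 k170 14 (.s k166 k247 12 (.s k93 k174 12 (.d k89 k81 k243 1
  14))))), (.s k92 k172 11 (.s k93 k174 12 (.s k94 k95 0 (.s k173 k15 12 (.d k253 k254 k13 0
  11))))), (.s k4 k8 1 (.s k85 k170 14 (.s k166 k247 12 (.s k172 k92 11 (.s k169 k163 2 (.d k253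
  k254 k1 0 13))))))] .n) (.c k104 (.q k64 [(.s k4 k8 1 (.s k85 k170 14 (.s k166 k247 12 (.s k93
  k174 12 (.d k89 k81 k243 1 14))))), (.s k192 k128 7 (.s k85 k170 14 (.s k106 k127 6 (.s k149 k63
  14 (.d k213 k234 k21 6 7))))), (.s k8 k4 1 (.s k192 k128 7 (.s k72 k132 9 (.s k136 k200 7 (.d k68
  k76 k204 1 9)))))] .n) .n)))

def t84_125 : T TT 256 :=
  (.q k255 [(.s k4 k8 1 (.s k85 k170 14 (.s k166 k247 12 (.s k93 k174 12 (.d k89 k81 k243 1 14))))),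
  (.s k92 k172 11 (.s k93 k174 12 (.s k94 k95 0 (.s k173 k15 12 (.d k253 k254 k13 0 11))))), (.s k4
  k8 1 (.s k85 k170 14 (.s k166 k247 12 (.s k172 k92 11 (.s k169 k163 2 (.d k253 k254 k1 0 13))))))]
  .n)

def t84_126 : T TT 256 :=
  (.q k255 [(.s k4 k8 1 (.s k85 k170 14 (.s k166 k247 12 (.s k93 k174 12 (.d k89 k81 k243 1 14))))),
  (.s k92 k172 11 (.s k93 k174 12 (.s k94 k95 0 (.s k173 k15 12 (.d k253 k254 k13 0 11))))), (.s k4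
  k8 1 (.s k85 k170 14 (.s k166 k247 12 (.s k172 k92 11 (.s k169 k163 2 (.d k253 k254 k1 0 13))))))]
  .n)

def t84_127 : T TT 256 :=
  (.q k255 [(.s k4 k8 1 (.s k85 k170 14 (.s k166 k247 12 (.s k93 k174 12 (.d k89 k81 k243 1 14))))),
  (.s k92 k172 11 (.s k93 k174 12 (.s k94 k95 0 (.s k173 k15 12 (.d k253 k254 k13 0 11))))), (.s k4
  k8 1 (.s k85 k170 14 (.s k166 k247 12 (.s k172 k92 11 (.s k169 k163 2 (.d k253 k254 k1 0 13))))))]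
  .n)

def t84_128 : T TT 256 :=
  (.q k255 [(.s k92 k172 11 (.s k93 k174 12 (.s k94 k95 0 (.s k173 k15 12 (.d k253 k254 k13 0
  11))))), (.s k4 k8 1 (.s k85 k170 14 (.s k166 k247 12 (.s k89 k243 14 (.d k93 k81 k174 1 12))))),
  (.s k4 k8 1 (.s k85 k170 14 (.s k166 k247 12 (.s k172 k92 11 (.s k169 k163 2 (.d k253 k254 k1 0
  13))))))] .n)

def t84_129 : T TT 256 :=
  (.q k255 [(.s k4 k8 1 (.s k85 k170 14 (.s k166 k247 12 (.s k93 k174 12 (.d k89 k81 k243 1 14))))),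
  (.s k92 k172 11 (.s k93 k174 12 (.s k94 k95 0 (.s k173 k15 12 (.d k253 k254 k13 0 11))))), (.s k4
  k8 1 (.s k85 k170 14 (.s k166 k247 12 (.s k172 k92 11 (.s k169 k163 2 (.d k253 k254 k1 0 13))))))]
  (.c k66 (.q k192 [(.s k4 k8 1 (.s k85 k170 14 (.s k166 k247 12 (.s k89 k243 14 (.d k93 k81 k174 1
  12))))), (.s k4 k8 1 (.s k128 k64 7 (.s k132 k72 9 (.s k68 k196 7 (.d k136 k140 k204 1 9))))), (.s
  k64 k128 7 (.s k85 k170 14 (.s k106 k127 6 (.s k149 k63 14 (.d k213 k234 k21 6 7)))))] .n) (.c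
  k192 (.q k66 [(.s k4 k8 1 (.s k85 k170 14 (.s k166 k247 12 (.s k93 k174 12 (.d k89 k81 k243 1
  14))))), (.s k92 k172 11 (.s k93 k174 12 (.s k94 k95 0 (.s k173 k15 12 (.d k253 k254 k13 0
  11))))), (.s k4 k8 1 (.s k85 k170 14 (.s k166 k247 12 (.s k172 k92 11 (.s k169 k163 2 (.d k253
  k254 k1 0 13))))))] .n) .n)))

def t84_130 : T TT 256 :=
  (.q k255 [(.s k92 k172 11 (.s k93 k174 12 (.s k94 k95 0 (.s k173 k15 12 (.d k253 k254 k13 0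
  11))))), (.s k4 k8 1 (.s k85 k170 14 (.s k166 k247 12 (.s k89 k243 14 (.d k93 k81 k174 1 12))))),
  (.s k4 k8 1 (.s k85 k170 14 (.s k166 k247 12 (.s k172 k92 11 (.s k169 k163 2 (.d k253 k254 k1 0
  13))))))] .n)

def t84_131 : T TT 256 :=
  (.q k255 [(.s k4 k8 1 (.s k85 k170 14 (.s k166 k247 12 (.s k93 k174 12 (.d k89 k81 k243 1 14))))),
  (.s k92 k172 11 (.s k93 k174 12 (.s k94 k95 0 (.s k173 k15 12 (.d k253 k254 k13 0 11))))), (.s k4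
  k8 1 (.s k85 k170 14 (.s k166 k247 12 (.s k172 k92 11 (.s k169 k163 2 (.d k253 k254 k1 0 13))))))]
  (.c k67 (.q k195 [(.s k4 k8 1 (.s k85 k170 14 (.s k166 k247 12 (.s k89 k243 14 (.d k93 k81 k174 1
  12))))), (.s k4 k8 1 (.s k130 k65 8 (.s k134 k73 10 (.s k69 k199 8 (.d k138 k142 k207 1 10))))),
  (.s k65 k130 8 (.s k85 k170 14 (.s k105 k125 5 (.s k150 k60 14 (.d k215 k235 k20 5 8)))))] .n) (.c
  k195 (.q k67 [(.s k4 k8 1 (.s k85 k170 14 (.s k166 k247 12 (.s k93 k174 12 (.d k89 k81 k243 1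
  14))))), (.s k92 k172 11 (.s k93 k174 12 (.s k94 k95 0 (.s k173 k15 12 (.d k253 k254 k13 0
  11))))), (.s k4 k8 1 (.s k85 k170 14 (.s k166 k247 12 (.s k172 k92 11 (.s k169 k163 2 (.d k253
  k254 k1 0 13))))))] .n) .n)))

def t84_132 : T TT 256 :=
  (.q k255 [(.s k4 k8 1 (.s k85 k170 14 (.s k166 k247 12 (.s k93 k174 12 (.d k89 k81 k243 1 14))))),
  (.s k92 k172 11 (.s k93 k174 12 (.s k94 k95 0 (.s k173 k15 12 (.d k253 k254 k13 0 11))))), (.s k4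
  k8 1 (.s k85 k170 14 (.s k166 k247 12 (.s k172 k92 11 (.s k169 k163 2 (.d k253 k254 k1 0 13))))))]
  .n)

def t84_133 : T TT 256 :=
  (.q k255 [(.s k4 k8 1 (.s k85 k170 14 (.s k166 k247 12 (.s k93 k174 12 (.d k89 k81 k243 1 14))))),
  (.s k92 k172 11 (.s k93 k174 12 (.s k94 k95 0 (.s k173 k15 12 (.d k253 k254 k13 0 11))))), (.s k4
  k8 1 (.s k85 k170 14 (.s k166 k247 12 (.s k172 k92 11 (.s k169 k163 2 (.d k253 k254 k1 0 13))))))]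
  .n)

def t84_134 : T TT 256 :=
  (.q k255 [(.s k4 k8 1 (.s k85 k170 14 (.s k166 k247 12 (.s k93 k174 12 (.d k89 k81 k243 1 14))))),
  (.s k92 k172 11 (.s k93 k174 12 (.s k94 k95 0 (.s k173 k15 12 (.d k253 k254 k13 0 11))))), (.s k4
  k8 1 (.s k85 k170 14 (.s k166 k247 12 (.s k172 k92 11 (.s k169 k163 2 (.d k253 k254 k1 0 13))))))]
  .n)

def t84_135 : T TT 256 :=
  (.q k255 [(.s k4 k8 1 (.s k85 k170 14 (.s k166 k247 12 (.s k93 k174 12 (.d k89 k81 k243 1 14))))),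
  (.s k92 k172 11 (.s k93 k174 12 (.s k94 k95 0 (.s k173 k15 12 (.d k253 k254 k13 0 11))))), (.s k4
  k8 1 (.s k85 k170 14 (.s k166 k247 12 (.s k172 k92 11 (.s k169 k163 2 (.d k253 k254 k1 0 13))))))]
  .n)

def t84_136 : T TT 256 :=
  (.q k255 [(.s k92 k172 11 (.s k93 k174 12 (.s k94 k95 0 (.s k173 k15 12 (.d k253 k254 k13 0
  11))))), (.s k4 k8 1 (.s k85 k170 14 (.s k166 k247 12 (.s k89 k243 14 (.d k93 k81 k174 1 12))))),
  (.s k4 k8 1 (.s k85 k170 14 (.s k166 k247 12 (.s k172 k92 11 (.s k169 k163 2 (.d k253 k254 k1 0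
  13))))))] .n)

def t84_137 : T TT 256 :=
  (.q k255 [(.s k4 k8 1 (.s k85 k170 14 (.s k166 k247 12 (.s k93 k174 12 (.d k89 k81 k243 1 14))))),
  (.s k92 k172 11 (.s k93 k174 12 (.s k94 k95 0 (.s k173 k15 12 (.d k253 k254 k13 0 11))))), (.s k4
  k8 1 (.s k85 k170 14 (.s k166 k247 12 (.s k172 k92 11 (.s k169 k163 2 (.d k253 k254 k1 0 13))))))]
  (.c k70 (.q k204 [(.s k4 k8 1 (.s k85 k170 14 (.s k166 k247 12 (.s k89 k243 14 (.d k93 k81 k174 1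
  12))))), (.s k4 k8 1 (.s k68 k136 9 (.s k132 k196 7 (.s k72 k192 9 (.d k76 k64 k140 1 7))))), (.s
  k68 k136 9 (.s k85 k170 14 (.s k102 k119 4 (.s k153 k51 14 (.d k221 k238 k17 4 9)))))] .n) (.c
  k204 (.q k70 [(.s k4 k8 1 (.s k85 k170 14 (.s k166 k247 12 (.s k93 k174 12 (.d k89 k81 k243 1
  14))))), (.s k92 k172 11 (.s k93 k174 12 (.s k94 k95 0 (.s k173 k15 12 (.d k253 k254 k13 0
  11))))), (.s k4 k8 1 (.s k85 k170 14 (.s k166 k247 12 (.s k172 k92 11 (.s k169 k163 2 (.d k253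
  k254 k1 0 13))))))] .n) .n)))

def t84_138 : T TT 256 :=
  (.q k255 [(.s k92 k172 11 (.s k93 k174 12 (.s k94 k95 0 (.s k173 k15 12 (.d k253 k254 k13 0
  11))))), (.s k4 k8 1 (.s k85 k170 14 (.s k166 k247 12 (.s k89 k243 14 (.d k93 k81 k174 1 12))))),
  (.s k4 k8 1 (.s k85 k170 14 (.s k166 k247 12 (.s k172 k92 11 (.s k169 k163 2 (.d k253 k254 k1 0
  13))))))] .n)

def t84_139 : T TT 256 :=
  (.q k255 [(.s k4 k8 1 (.s k85 k170 14 (.s k166 k247 12 (.s k93 k174 12 (.d k89 k81 k243 1 14))))),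
  (.s k92 k172 11 (.s k93 k174 12 (.s k94 k95 0 (.s k173 k15 12 (.d k253 k254 k13 0 11))))), (.s k4
  k8 1 (.s k85 k170 14 (.s k166 k247 12 (.s k172 k92 11 (.s k169 k163 2 (.d k253 k254 k1 0 13))))))]
  (.c k71 (.q k207 [(.s k4 k8 1 (.s k85 k170 14 (.s k166 k247 12 (.s k89 k243 14 (.d k93 k81 k174 1
  12))))), (.s k4 k8 1 (.s k69 k138 10 (.s k134 k199 8 (.s k73 k195 10 (.d k77 k65 k142 1 8))))),
  (.s k69 k138 10 (.s k85 k170 14 (.s k101 k117 3 (.s k154 k48 14 (.d k223 k239 k16 3 10)))))] .n)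
  (.c k207 (.q k71 [(.s k4 k8 1 (.s k85 k170 14 (.s k166 k247 12 (.s k93 k174 12 (.d k89 k81 k243 1
  14))))), (.s k92 k172 11 (.s k93 k174 12 (.s k94 k95 0 (.s k173 k15 12 (.d k253 k254 k13 0
  11))))), (.s k4 k8 1 (.s k85 k170 14 (.s k166 k247 12 (.s k172 k92 11 (.s k169 k163 2 (.d k253
  k254 k1 0 13))))))] .n) .n)))

def t84_140 : T TT 256 :=
  (.q k255 [(.s k4 k8 1 (.s k85 k170 14 (.s k166 k247 12 (.s k89 k243 14 (.d k93 k81 k174 1 12))))),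
  (.s k92 k172 11 (.s k93 k174 12 (.s k94 k95 0 (.s k173 k15 12 (.d k253 k254 k13 0 11))))), (.s k4
  k8 1 (.s k85 k170 14 (.s k166 k247 12 (.s k172 k92 11 (.s k169 k163 2 (.d k253 k254 k1 0 13))))))]
  .n)

def t84_141 : T TT 256 :=
  (.q k255 [(.s k4 k8 1 (.s k85 k170 14 (.s k166 k247 12 (.s k93 k174 12 (.d k89 k81 k243 1 14))))),
  (.s k92 k172 11 (.s k93 k174 12 (.s k94 k95 0 (.s k173 k15 12 (.d k253 k254 k13 0 11))))), (.s k4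
  k8 1 (.s k85 k170 14 (.s k166 k247 12 (.s k172 k92 11 (.s k169 k163 2 (.d k253 k254 k1 0 13))))))]
  .n)

def t84_142 : T TT 256 :=
  (.q k255 [(.s k4 k8 1 (.s k85 k170 14 (.s k166 k247 12 (.s k89 k243 14 (.d k93 k81 k174 1 12))))),
  (.s k92 k172 11 (.s k93 k174 12 (.s k94 k95 0 (.s k173 k15 12 (.d k253 k254 k13 0 11))))), (.s k4
  k8 1 (.s k85 k170 14 (.s k166 k247 12 (.s k172 k92 11 (.s k169 k163 2 (.d k253 k254 k1 0 13))))))]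
  .n)

def t84_143 : T TT 256 :=
  (.q k255 [(.s k4 k8 1 (.s k85 k170 14 (.s k166 k247 12 (.s k93 k174 12 (.d k89 k81 k243 1 14))))),
  (.s k92 k172 11 (.s k93 k174 12 (.s k94 k95 0 (.s k173 k15 12 (.d k253 k254 k13 0 11))))), (.s k4
  k8 1 (.s k85 k170 14 (.s k166 k247 12 (.s k172 k92 11 (.s k169 k163 2 (.d k253 k254 k1 0 13))))))]
  .n)

def t84_144 : T TT 256 :=
  (.q k255 [(.s k4 k8 1 (.s k85 k170 14 (.s k166 k247 12 (.s k93 k174 12 (.d k89 k81 k243 1 14))))),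
  (.s k92 k172 11 (.s k93 k174 12 (.s k94 k95 0 (.s k173 k15 12 (.d k253 k254 k13 0 11))))), (.s k4
  k8 1 (.s k85 k170 14 (.s k166 k247 12 (.s k172 k92 11 (.s k169 k163 2 (.d k253 k254 k1 0 13))))))]
  .n)

def t84_145 : T TT 256 :=
  (.q k255 [(.s k4 k8 1 (.s k85 k170 14 (.s k166 k247 12 (.s k93 k174 12 (.d k89 k81 k243 1 14))))),
  (.s k92 k172 11 (.s k93 k174 12 (.s k94 k95 0 (.s k173 k15 12 (.d k253 k254 k13 0 11))))), (.s k4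
  k8 1 (.s k85 k170 14 (.s k166 k247 12 (.s k172 k92 11 (.s k169 k163 2 (.d k253 k254 k1 0 13))))))]
  .n)

def t84_146 : T TT 256 :=
  (.q k255 [(.s k4 k8 1 (.s k85 k170 14 (.s k166 k247 12 (.s k93 k174 12 (.d k89 k81 k243 1 14))))),
  (.s k92 k172 11 (.s k93 k174 12 (.s k94 k95 0 (.s k173 k15 12 (.d k253 k254 k13 0 11))))), (.s k4
  k8 1 (.s k85 k170 14 (.s k166 k247 12 (.s k172 k92 11 (.s k169 k163 2 (.d k253 k254 k1 0 13))))))]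
  .n)

def t84_147 : T TT 256 :=
  (.q k255 [(.s k4 k8 1 (.s k85 k170 14 (.s k166 k247 12 (.s k93 k174 12 (.d k89 k81 k243 1 14))))),
  (.s k92 k172 11 (.s k93 k174 12 (.s k94 k95 0 (.s k173 k15 12 (.d k253 k254 k13 0 11))))), (.s k4
  k8 1 (.s k85 k170 14 (.s k166 k247 12 (.s k172 k92 11 (.s k169 k163 2 (.d k253 k254 k1 0 13))))))]
  .n)

def t84_148 : T TT 256 :=
  (.q k255 [(.s k4 k8 1 (.s k85 k170 14 (.s k166 k247 12 (.s k93 k174 12 (.d k89 k81 k243 1 14))))),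
  (.s k92 k172 11 (.s k93 k174 12 (.s k94 k95 0 (.s k173 k15 12 (.d k253 k254 k13 0 11))))), (.s k4
  k8 1 (.s k85 k170 14 (.s k166 k247 12 (.s k172 k92 11 (.s k169 k163 2 (.d k253 k254 k1 0 13))))))]
  (.c k20 (.q k212 [(.s k4 k8 1 (.s k85 k170 14 (.s k166 k247 12 (.s k93 k174 12 (.d k89 k81 k243 1
  14))))), (.s k192 k232 5 (.s k213 k234 6 (.s k214 k215 0 (.s k233 k195 6 (.d k253 k254 k193 0
  5)))))] (.c k85 (.l (.s k92 k172 11 (.s k93 k174 12 (.s k94 k95 0 (.s k173 k15 12 (.d k253 k254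
  k13 0 11)))))) .n)) (.c k212 (.q k20 [(.s k4 k8 1 (.s k85 k170 14 (.s k166 k247 12 (.s k89 k243 14
  (.d k93 k81 k174 1 12))))), (.s k4 k8 1 (.s k40 k60 5 (.s k36 k52 3 (.s k48 k24 5 (.d k32 k44 k16
  1 3))))), (.s k60 k40 5 (.s k85 k170 14 (.s k150 k215 8 (.s k105 k195 14 (.d k125 k65 k190 5
  8)))))] .n) .n)))

def t84_149 : T TT 256 :=
  (.q k255 [(.s k92 k172 11 (.s k93 k174 12 (.s k94 k95 0 (.s k173 k15 12 (.d k253 k254 k13 0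
  11))))), (.s k4 k8 1 (.s k85 k170 14 (.s k166 k247 12 (.s k89 k243 14 (.d k93 k81 k174 1 12))))),
  (.s k4 k8 1 (.s k85 k170 14 (.s k166 k247 12 (.s k172 k92 11 (.s k169 k163 2 (.d k253 k254 k1 0
  13))))))] .n)

def t84_150 : T TT 256 :=
  (.q k255 [(.s k92 k172 11 (.s k93 k174 12 (.s k94 k95 0 (.s k173 k15 12 (.d k253 k254 k13 0
  11))))), (.s k4 k8 1 (.s k85 k170 14 (.s k166 k247 12 (.s k89 k243 14 (.d k93 k81 k174 1 12))))),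
  (.s k4 k8 1 (.s k85 k170 14 (.s k166 k247 12 (.s k172 k92 11 (.s k169 k163 2 (.d k253 k254 k1 0
  13))))))] .n)

def t84_151 : T TT 256 :=
  (.q k255 [(.s k4 k8 1 (.s k85 k170 14 (.s k166 k247 12 (.s k93 k174 12 (.d k89 k81 k243 1 14))))),
  (.s k92 k172 11 (.s k93 k174 12 (.s k94 k95 0 (.s k173 k15 12 (.d k253 k254 k13 0 11))))), (.s k4
  k8 1 (.s k85 k170 14 (.s k166 k247 12 (.s k172 k92 11 (.s k169 k163 2 (.d k253 k254 k1 0 13))))))]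
  .n)

def t84_152 : T TT 256 :=
  (.q k255 [(.s k4 k8 1 (.s k85 k170 14 (.s k166 k247 12 (.s k93 k174 12 (.d k89 k81 k243 1 14))))),
  (.s k92 k172 11 (.s k93 k174 12 (.s k94 k95 0 (.s k173 k15 12 (.d k253 k254 k13 0 11))))), (.s k4
  k8 1 (.s k85 k170 14 (.s k166 k247 12 (.s k172 k92 11 (.s k169 k163 2 (.d k253 k254 k1 0 13))))))]
  (.c k16 (.q k220 [(.s k4 k8 1 (.s k85 k170 14 (.s k166 k247 12 (.s k93 k174 12 (.d k89 k81 k243 1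
  14))))), (.s k92 k172 11 (.s k156 k28 7 (.s k204 k236 3 (.s k76 k140 7 (.d k108 k124 k60 3
  11)))))] .n) (.c k220 (.q k16 [(.s k4 k8 1 (.s k85 k170 14 (.s k166 k247 12 (.s k93 k174 12 (.d
  k89 k81 k243 1 14))))), (.s k48 k32 3 (.s k85 k170 14 (.s k154 k223 10 (.s k101 k207 14 (.d k117
  k69 k186 3 10))))), (.s k8 k4 1 (.s k48 k32 3 (.s k24 k36 5 (.s k40 k56 3 (.d k20 k28 k60 1
  5)))))] .n) .n)))

def t84_153 : T TT 256 :=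
  (.q k255 [(.s k92 k172 11 (.s k93 k174 12 (.s k94 k95 0 (.s k173 k15 12 (.d k253 k254 k13 0
  11))))), (.s k4 k8 1 (.s k85 k170 14 (.s k166 k247 12 (.s k89 k243 14 (.d k93 k81 k174 1 12))))),
  (.s k4 k8 1 (.s k85 k170 14 (.s k166 k247 12 (.s k172 k92 11 (.s k169 k163 2 (.d k253 k254 k1 0
  13))))))] .n)

def t84_154 : T TT 256 :=
  (.q k255 [(.s k92 k172 11 (.s k93 k174 12 (.s k94 k95 0 (.s k173 k15 12 (.d k253 k254 k13 0
  11))))), (.s k4 k8 1 (.s k85 k170 14 (.s k166 k247 12 (.s k89 k243 14 (.d k93 k81 k174 1 12))))),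
  (.s k4 k8 1 (.s k85 k170 14 (.s k166 k247 12 (.s k172 k92 11 (.s k169 k163 2 (.d k253 k254 k1 0
  13))))))] .n)

def t84_155 : T TT 256 :=
  (.q k255 [(.s k4 k8 1 (.s k85 k170 14 (.s k166 k247 12 (.s k93 k174 12 (.d k89 k81 k243 1 14))))),
  (.s k92 k172 11 (.s k93 k174 12 (.s k94 k95 0 (.s k173 k15 12 (.d k253 k254 k13 0 11))))), (.s k4
  k8 1 (.s k85 k170 14 (.s k166 k247 12 (.s k172 k92 11 (.s k169 k163 2 (.d k253 k254 k1 0 13))))))]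
  .n)

def t84_156 : T TT 256 :=
  (.q k255 [(.s k4 k8 1 (.s k85 k170 14 (.s k166 k247 12 (.s k93 k174 12 (.d k89 k81 k243 1 14))))),
  (.s k92 k172 11 (.s k93 k174 12 (.s k94 k95 0 (.s k173 k15 12 (.d k253 k254 k13 0 11))))), (.s k4
  k8 1 (.s k85 k170 14 (.s k166 k247 12 (.s k172 k92 11 (.s k169 k163 2 (.d k253 k254 k1 0 13))))))]
  .n)

def t84_157 : T TT 256 :=
  (.q k255 [(.s k4 k8 1 (.s k85 k170 14 (.s k166 k247 12 (.s k89 k243 14 (.d k93 k81 k174 1 12))))),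
  (.s k92 k172 11 (.s k93 k174 12 (.s k94 k95 0 (.s k173 k15 12 (.d k253 k254 k13 0 11))))), (.s k4
  k8 1 (.s k85 k170 14 (.s k166 k247 12 (.s k172 k92 11 (.s k169 k163 2 (.d k253 k254 k1 0 13))))))]
  .n)

def t84_158 : T TT 256 :=
  (.q k255 [(.s k4 k8 1 (.s k85 k170 14 (.s k166 k247 12 (.s k89 k243 14 (.d k93 k81 k174 1 12))))),
  (.s k92 k172 11 (.s k93 k174 12 (.s k94 k95 0 (.s k173 k15 12 (.d k253 k254 k13 0 11))))), (.s k4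
  k8 1 (.s k85 k170 14 (.s k166 k247 12 (.s k172 k92 11 (.s k169 k163 2 (.d k253 k254 k1 0 13))))))]
  .n)

def t84_159 : T TT 256 :=
  (.q k255 [(.s k4 k8 1 (.s k85 k170 14 (.s k166 k247 12 (.s k93 k174 12 (.d k89 k81 k243 1 14))))),
  (.s k92 k172 11 (.s k93 k174 12 (.s k94 k95 0 (.s k173 k15 12 (.d k253 k254 k13 0 11))))), (.s k4
  k8 1 (.s k85 k170 14 (.s k166 k247 12 (.s k172 k92 11 (.s k169 k163 2 (.d k253 k254 k1 0 13))))))]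
  .n)

def t84_160 : T TT 256 :=
  (.q k255 [(.s k4 k8 1 (.s k85 k170 14 (.s k166 k247 12 (.s k93 k174 12 (.d k89 k81 k243 1 14))))),
  (.s k92 k172 11 (.s k93 k174 12 (.s k94 k95 0 (.s k173 k15 12 (.d k253 k254 k13 0 11))))), (.s k4
  k8 1 (.s k85 k170 14 (.s k166 k247 12 (.s k172 k92 11 (.s k169 k163 2 (.d k253 k254 k1 0 13))))))]
  (.c k175 (.l (.s k8 k4 1 (.s k170 k85 14 (.s k89 k251 12 (.s k166 k243 14 (.d k174 k162 k93 1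
  12)))))) .n))

def t84_161 : T TT 256 :=
  (.q k255 [(.s k4 k8 1 (.s k85 k170 14 (.s k166 k247 12 (.s k93 k174 12 (.d k89 k81 k243 1 14))))),
  (.s k92 k172 11 (.s k93 k174 12 (.s k94 k95 0 (.s k173 k15 12 (.d k253 k254 k13 0 11))))), (.s k4
  k8 1 (.s k85 k170 14 (.s k166 k247 12 (.s k172 k92 11 (.s k169 k163 2 (.d k253 k254 k1 0 13))))))]
  (.c k82 (.q k240 [(.s k4 k8 1 (.s k85 k170 14 (.s k166 k247 12 (.s k93 k174 12 (.d k89 k81 k243 1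
  14))))), (.s k92 k172 11 (.s k93 k174 12 (.s k94 k95 0 (.s k173 k15 12 (.d k253 k254 k13 0
  11))))), (.s k4 k8 1 (.s k244 k248 1 (.s k245 k250 2 (.s k247 k246 0 (.d k85 k166 k170 12 14)))))]
  .n) (.c k240 (.q k82 [(.s k4 k8 1 (.s k85 k170 14 (.s k166 k247 12 (.s k93 k174 12 (.d k89 k81
  k243 1 14))))), (.s k92 k172 11 (.s k93 k174 12 (.s k94 k95 0 (.s k173 k15 12 (.d k253 k254 k13 0
  11))))), (.s k4 k8 1 (.s k85 k170 14 (.s k166 k247 12 (.s k172 k92 11 (.s k169 k163 2 (.d k253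
  k254 k1 0 13))))))] .n) .n)))

def t84_162 : T TT 256 :=
  (.q k255 [(.s k4 k8 1 (.s k85 k170 14 (.s k166 k247 12 (.s k93 k174 12 (.d k89 k81 k243 1 14))))),
  (.s k172 k92 11 (.s k174 k93 12 (.s k173 k175 0 (.s k94 k15 12 (.d k254 k253 k14 0 11)))))] (.c
  k93 (.l (.s k4 k8 1 (.s k85 k170 14 (.s k166 k247 12 (.s k172 k92 11 (.s k169 k163 2 (.d k253 k254
  k1 0 13))))))) (.c k174 (.l (.s k4 k8 1 (.s k85 k170 14 (.s k166 k247 12 (.s k172 k92 11 (.s k169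
  k163 2 (.d k253 k254 k1 0 13))))))) .n)))

def t84_163 : T TT 256 :=
  (.q k255 [(.s k4 k8 1 (.s k85 k170 14 (.s k166 k247 12 (.s k93 k174 12 (.d k89 k243 k81 14 1))))),
  (.s k172 k92 11 (.s k174 k93 12 (.s k173 k175 0 (.s k94 k15 12 (.d k254 k253 k14 0 11))))), (.s k8
  k4 1 (.s k170 k85 14 (.s k89 k251 12 (.s k92 k172 11 (.s k254 k253 0 (.d k86 k83 k2 2 13))))))]
  (.c k83 (.q k243 [(.s k4 k8 1 (.s k85 k170 14 (.d k166 k89 k247 14 12))), (.s k92 k172 11 (.s k93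
  k174 12 (.s k94 k95 0 (.s k173 k15 12 (.d k253 k254 k13 0 11)))))] (.c k166 (.l (.s k172 k92 11
  (.s k174 k93 12 (.s k173 k175 0 (.s k94 k15 12 (.d k254 k253 k14 0 11)))))) .n)) (.c k243 (.q k83
  [(.s k170 k85 14 (.s k254 k253 0 (.s k86 k2 13 (.d k92 k89 k172 2 11)))), (.s k92 k172 11 (.s k93
  k174 12 (.s k94 k95 0 (.s k173 k15 12 (.d k253 k254 k13 0 11))))), (.s k8 k4 1 (.s k170 k85 14 (.s
  k89 k251 12 (.d k92 k86 k172 2 11))))] (.c k92 (.l (.s k85 k170 14 (.s k93 k174 12 (.s k253 k254 0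
  (.s k1 k169 13 (.s k13 k173 11 (.s k5 k9 1 (.d k15 k14 k10 0 2)))))))) (.c k172 (.l (.s k8 k4 1
  (.s k170 k85 14 (.s k89 k251 12 (.s k86 k92 2 (.d k254 k253 k2 0 13)))))) .n))) .n)))

def t84_164 : T TT 256 :=
  (.q k255 [(.s k4 k8 1 (.s k85 k170 14 (.s k166 k247 12 (.s k93 k174 12 (.d k89 k81 k243 1 14))))),
  (.s k92 k172 11 (.s k93 k174 12 (.s k94 k95 0 (.s k173 k15 12 (.d k253 k254 k13 0 11))))), (.s k4
  k8 1 (.s k85 k170 14 (.s k166 k247 12 (.s k172 k92 11 (.s k169 k163 2 (.d k253 k254 k1 0 13))))))]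
  (.c k4 (.q k244 [(.s k92 k172 11 (.s k93 k174 12 (.s k94 k95 0 (.s k253 k254 0 (.d k173 k13 k15 11
  12))))), (.s k240 k248 1 (.s k245 k250 2 (.s k246 k247 0 (.s k249 k243 2 (.d k253 k254 k241 0
  1))))), (.s k85 k170 14 (.s k93 k174 12 (.s k240 k248 1 (.s k80 k160 11 (.s k95 k90 2 (.d k92 k172
  k94 11 0))))))] .n) (.c k244 (.l (.s k4 k8 1 (.s k85 k170 14 (.s k166 k247 12 (.s k89 k243 14 (.d
  k93 k81 k174 1 12)))))) .n)))

def t84_165 : T TT 256 :=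
  (.q k255 [(.s k4 k8 1 (.s k85 k170 14 (.s k166 k247 12 (.s k93 k174 12 (.d k89 k81 k243 1 14))))),
  (.s k92 k172 11 (.s k93 k174 12 (.s k94 k95 0 (.s k173 k15 12 (.d k253 k254 k13 0 11))))), (.s k4
  k8 1 (.s k85 k170 14 (.s k166 k247 12 (.s k172 k92 11 (.s k169 k163 2 (.d k253 k254 k1 0 13))))))]
  (.c k175 (.l (.s k8 k4 1 (.s k170 k85 14 (.s k89 k251 12 (.s k166 k243 14 (.d k174 k162 k93 1
  12)))))) .n))

def t84_166 : T TT 256 :=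
  (.q k204 [(.s k4 k8 1 (.s k68 k136 9 (.s k132 k196 7 (.s k72 k192 9 (.d k76 k64 k140 1 7))))), (.s
  k76 k140 7 (.s k92 k172 11 (.s k108 k124 3 (.s k156 k60 11 (.d k220 k236 k28 3 7)))))] (.c k64 (.l
  (.s k8 k4 1 (.s k136 k68 9 (.s k72 k200 7 (.s k132 k192 9 (.d k140 k76 k128 7 1)))))) (.c k76 (.q
  k255 [(.s k68 k136 9 (.s k85 k170 14 (.s k102 k119 4 (.s k221 k238 4 (.d k153 k17 k51 9 14))))),
  (.s k172 k92 11 (.s k174 k93 12 (.s k173 k175 0 (.s k94 k15 12 (.d k254 k253 k14 0 11)))))] (.c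
  k174 (.l (.s k136 k68 9 (.s k170 k85 14 (.s k153 k187 4 (.s k102 k51 14 (.d k238 k221 k34 4
  9)))))) .n)) (.c k140 (.q k153 [(.s k68 k136 9 (.s k102 k51 14 (.s k85 k119 4 (.s k221 k17 9 (.d
  k255 k238 k170 4 14))))), (.s k4 k8 1 (.s k51 k102 14 (.s k34 k17 4 (.s k38 k25 6 (.s k21 k55 4
  (.d k42 k46 k63 1 6)))))), (.s k136 k68 9 (.s k170 k187 4 (.s k255 k85 14 (.s k220 k236 3 (.s k254
  k253 0 (.d k86 k19 k2 10 13))))))] (.c k102 (.l (.s k136 k68 9 (.s k170 k187 4 (.s k220 k236 3 (.s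
  k86 k19 10 (.s k254 k2 13 (.d k255 k85 k253 14 0))))))) .n)) .n))))

def t84_167 : T TT 256 :=
  (.q k255 [(.s k92 k172 11 (.s k93 k174 12 (.s k94 k95 0 (.s k253 k254 0 (.d k173 k13 k15 11
  12))))), (.s k4 k8 1 (.s k85 k170 14 (.s k93 k174 12 (.s k89 k81 1 (.d k166 k247 k243 12 14))))),
  (.s k4 k8 1 (.s k85 k170 14 (.s k166 k247 12 (.s k172 k92 11 (.s k169 k163 2 (.d k253 k254 k1 0
  13))))))] .n)

def t84_168 : T TT 256 :=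
  (.q k255 [(.s k92 k172 11 (.s k93 k174 12 (.s k94 k95 0 (.s k173 k15 12 (.d k253 k254 k13 0
  11))))), (.s k4 k8 1 (.s k85 k170 14 (.s k166 k247 12 (.s k89 k243 14 (.d k93 k81 k174 1 12))))),
  (.s k4 k8 1 (.s k85 k170 14 (.s k166 k247 12 (.s k172 k92 11 (.s k169 k163 2 (.d k253 k254 k1 0
  13))))))] .n)

def t84_169 : T TT 256 :=
  (.q k255 [(.s k4 k8 1 (.s k85 k170 14 (.s k166 k247 12 (.s k93 k174 12 (.d k89 k81 k243 1 14))))),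
  (.s k172 k92 11 (.s k174 k93 12 (.s k173 k175 0 (.s k94 k15 12 (.d k254 k253 k14 0 11))))), (.s k8
  k4 1 (.s k170 k85 14 (.s k89 k251 12 (.s k92 k172 11 (.s k86 k83 2 (.d k254 k253 k2 0 13))))))]
  .n)

def t84_170 : T TT 256 :=
  (.q k220 [(.s k92 k172 11 (.s k156 k28 7 (.s k204 k236 3 (.s k76 k140 7 (.d k108 k124 k60 3
  11))))), (.s k4 k8 1 (.s k204 k236 3 (.s k68 k136 9 (.s k132 k196 7 (.s k72 k192 9 (.d k76 k64
  k140 1 7)))))), (.s k4 k8 1 (.s k92 k172 11 (.s k28 k156 7 (.s k60 k44 3 (.s k20 k40 5 (.s k36 k52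
  3 (.d k24 k16 k48 1 5)))))))] (.c k140 (.q k255 [(.s k172 k92 11 (.s k254 k253 0 (.s k174 k93 12
  (.s k94 k14 11 (.d k173 k175 k15 0 12))))), (.s k204 k236 3 (.s k221 k238 4 (.s k222 k223 0 (.s
  k237 k207 4 (.d k253 k254 k205 0 3))))), (.s k92 k172 11 (.s k93 k174 12 (.s k94 k95 0 (.s k157
  k31 8 (.s k221 k29 7 (.d k204 k236 k238 3 4))))))] .n) (.c k236 (.q k212 [(.s k4 k8 1 (.s k192
  k232 5 (.s k132 k72 9 (.s k68 k196 7 (.s k136 k204 9 (.d k128 k140 k64 1 7)))))), (.s k8 k4 1 (.s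
  k92 k172 11 (.s k28 k156 7 (.s k208 k216 1 (.s k88 k148 9 (.s k248 k168 11 (.d k240 k244 k164 1
  13))))))), (.s k92 k172 11 (.s k28 k156 7 (.s k192 k232 5 (.s k208 k216 1 (.s k88 k148 9 (.d k240
  k224 k164 3 13))))))] (.c k140 (.l (.s k8 k4 1 (.s k192 k232 5 (.s k64 k128 7 (.s k72 k132 9 (.s
  k136 k200 7 (.d k68 k76 k204 1 9))))))) .n)) .n)))

def t84_171 : T TT 256 :=
  (.q k255 [(.s k92 k172 11 (.s k93 k174 12 (.s k94 k95 0 (.s k173 k15 12 (.d k253 k254 k13 0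
  11))))), (.s k4 k8 1 (.s k85 k170 14 (.s k166 k247 12 (.s k89 k243 14 (.d k93 k81 k174 1 12))))),
  (.s k4 k8 1 (.s k85 k170 14 (.s k166 k247 12 (.s k172 k92 11 (.s k169 k163 2 (.d k253 k254 k1 0
  13))))))] .n)

def t84_172 : T TT 256 :=
  (.q k85 [(.s k4 k8 1 (.s k170 k255 14 (.s k166 k247 12 (.s k243 k89 14 (.d k162 k174 k81 1
  12))))), (.s k255 k170 14 (.s k93 k174 12 (.s k89 k81 1 (.s k253 k254 0 (.s k169 k1 13 (.s k249 k9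
  11 (.d k243 k166 k246 14 2)))))))] (.c k81 (.q k243 [(.s k4 k8 1 (.d k166 k247 k89 12 14)), (.s
  k255 k170 14 (.s k89 k166 14 (.s k249 k246 2 (.s k169 k9 11 (.d k253 k254 k1 0 13)))))] (.c k89
  (.l (.s k4 k8 1 (.s k247 k166 12 (.d k255 k251 k170 1 14)))) (.c k166 (.l (.s k255 k170 14 (.s
  k246 k249 2 (.s k247 k251 1 (.s k245 k244 0 (.s k250 k240 2 (.d k254 k253 k242 0 1))))))) .n)))
  (.c k89 (.f k255 k170 14 (.l (.s k93 k174 12 (.s k253 k254 0 (.s k169 k1 13 (.s k173 k13 11 (.s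
  k165 k161 1 (.s k5 k245 11 (.d k15 k94 k10 12 2))))))))) (.c k162 (.l (.s k4 k8 1 (.s k255 k170 14
  (.s k166 k247 12 (.s k89 k243 14 (.d k93 k174 k81 12 1)))))) (.c k166 (.q k16 [(.s k48 k32 3 (.s
  k170 k255 14 (.s k154 k223 10 (.s k138 k186 3 (.d k207 k69 k101 10 14))))), (.s k8 k4 1 (.s k48
  k32 3 (.s k24 k36 5 (.s k40 k56 3 (.d k20 k28 k60 1 5))))), (.s k8 k4 1 (.s k170 k255 14 (.s k89
  k251 12 (.s k154 k223 10 (.s k24 k219 8 (.s k40 k56 3 (.d k20 k28 k60 1 5)))))))] (.c k163 (.q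
  k169 [(.s k253 k1 13 (.d k255 k254 k170 0 14)), (.s k48 k32 3 (.s k154 k223 10 (.d k184 k139 k116
  4 9)))] (.c k83 (.q k243 [(.s k253 k1 13 (.d k255 k254 k170 0 14)), (.s k48 k32 3 (.s k154 k223 10
  (.d k184 k139 k116 4 9)))] .n) (.c k243 (.q k83 [(.s k253 k1 13 (.d k255 k254 k170 0 14)), (.s k48
  k32 3 (.s k154 k223 10 (.d k184 k139 k116 4 9)))] .n) .n))) (.c k169 (.q k163 [(.s k48 k32 3 (.s
  k170 k255 14 (.s k154 k223 10 (.s k138 k186 3 (.d k207 k69 k101 10 14))))), (.s k8 k4 1 (.s k48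
  k32 3 (.s k24 k36 5 (.s k40 k56 3 (.d k20 k28 k60 1 5))))), (.s k8 k4 1 (.s k170 k255 14 (.s k89
  k251 12 (.s k154 k223 10 (.s k24 k219 8 (.s k40 k56 3 (.d k20 k28 k60 1 5)))))))] .n) .n))) (.c
  k170 (.q k240 [(.s k4 k8 1 (.s k80 k160 11 (.s k166 k247 12 (.s k164 k88 13 (.s k90 k95 2 (.d k165
  k167 k15 0 14)))))), (.s k80 k160 11 (.s k164 k88 13 (.s k90 k95 2 (.s k165 k15 14 (.s k166 k167 0
  (.s k242 k14 13 (.d k243 k241 k89 0 14))))))), (.s k4 k8 1 (.s k166 k247 12 (.s k164 k88 13 (.s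
  k165 k167 0 (.s k5 k245 11 (.s k7 k6 0 (.d k244 k248 k86 1 12))))))), (.s k4 k8 1 (.s k80 k160 11
  (.s k90 k95 2 (.s k165 k15 14 (.s k5 k245 11 (.s k7 k6 0 (.d k244 k248 k86 1 12)))))))] (.c k80
  (.l (.s k4 k8 1 (.s k166 k247 12 (.s k88 k164 13 (.s k89 k243 14 (.s k90 k91 0 (.s k14 k242 13 (.d
  k15 k13 k165 0 14)))))))) (.c k89 (.l (.s k80 k160 11 (.s k164 k88 13 (.s k90 k95 2 (.s k165 k15
  14 (.s k166 k167 0 (.d k4 k8 k247 1 12))))))) (.c k164 (.l (.s k4 k8 1 (.s k247 k166 12 (.s k244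
  k248 1 (.s k245 k246 0 (.s k165 k5 11 (.s k90 k15 14 (.d k80 k95 k160 2 11)))))))) (.c k165 (.l
  (.s k4 k8 1 (.s k166 k247 12 (.s k88 k164 13 (.s k89 k243 14 (.s k90 k91 0 (.d k80 k160 k95 11
  2))))))) (.c k168 (.l (.s k80 k160 11 (.s k164 k88 13 (.s k90 k95 2 (.s k165 k15 14 (.s k166 k167
  0 (.d k4 k8 k247 1 12))))))) .n)))))) (.c k174 (.l (.s k8 k4 1 (.s k170 k255 14 (.s k89 k251 12
  (.s k243 k166 14 (.d k81 k93 k162 1 12)))))) (.c k243 (.f k255 k170 14 (.l (.s k93 k174 12 (.s k89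
  k81 1 (.s k253 k254 0 (.s k169 k1 13 (.s k249 k9 11 (.s k241 k245 1 (.d k13 k173 k165 11
  13))))))))) (.c k255 (.q k240 [(.s k4 k8 1 (.s k166 k247 12 (.s k243 k89 14 (.s k242 k241 0 (.s
  k90 k14 13 (.d k80 k95 k160 2 11)))))), (.s k4 k8 1 (.s k166 k247 12 (.s k164 k88 13 (.s k165 k167
  0 (.s k5 k245 11 (.s k7 k6 0 (.d k244 k248 k86 1 12))))))), (.s k8 k4 1 (.s k80 k160 11 (.s k90
  k95 2 (.s k15 k165 14 (.s k10 k5 2 (.s k11 k9 0 (.d k248 k244 k169 1 12))))))), (.s k80 k160 11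
  (.s k90 k95 2 (.s k15 k165 14 (.s k14 k13 0 (.s k166 k242 13 (.s k89 k243 14 (.d k88 k164 k91 13
  0)))))))] (.c k80 (.l (.s k4 k8 1 (.s k166 k247 12 (.s k243 k89 14 (.s k242 k241 0 (.s k90 k14 13
  (.s k165 k15 14 (.d k164 k167 k88 0 13)))))))) (.c k87 (.q k171 [(.s k4 k8 1 (.s k166 k247 12 (.s
  k243 k89 14 (.s k242 k241 0 (.s k90 k14 13 (.d k80 k95 k160 2 11)))))), (.s k80 k160 11 (.s k90
  k95 2 (.s k248 k244 1 (.s k169 k11 12 (.s k168 k170 0 (.d k8 k4 k88 1 11)))))), (.s k80 k160 11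
  (.s k90 k95 2 (.s k248 k244 1 (.s k11 k169 12 (.s k91 k251 11 (.d k88 k164 k89 13 0)))))), (.s k4
  k8 1 (.s k166 k247 12 (.s k243 k89 14 (.s k242 k241 0 (.s k90 k14 13 (.s k165 k15 14 (.d k164 k167
  k88 0 13)))))))] (.c k4 (.l (.s k80 k160 11 (.s k90 k95 2 (.s k15 k165 14 (.s k14 k13 0 (.s k166
  k242 13 (.s k89 k243 14 (.d k88 k91 k164 0 13)))))))) (.c k90 (.q k243 [(.s k4 k8 1 (.d k166 k247
  k89 12 14)), (.s k81 k162 12 (.d k89 k93 k166 1 14))] (.c k89 (.l (.s k4 k8 1 (.s k247 k166 12 (.s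
  k244 k248 1 (.d k246 k245 k249 0 2))))) (.c k166 (.l (.s k8 k4 1 (.s k81 k162 12 (.s k89 k93 1 (.s
  k170 k251 12 (.s k169 k168 0 (.d k249 k246 k9 2 11))))))) .n))) (.c k95 (.l (.s k4 k8 1 (.s k166
  k247 12 (.s k164 k88 13 (.s k243 k89 14 (.s k242 k241 0 (.s k90 k14 13 (.d k165 k167 k15 0
  14)))))))) .n)))) (.c k165 (.l (.s k4 k8 1 (.s k80 k160 11 (.s k166 k247 12 (.s k243 k89 14 (.s
  k90 k95 2 (.d k242 k241 k14 0 13))))))) (.c k171 (.q k87 [(.s k4 k8 1 (.s k166 k247 12 (.s k243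
  k89 14 (.s k242 k241 0 (.s k90 k14 13 (.d k80 k95 k160 2 11)))))), (.s k4 k8 1 (.s k247 k166 12
  (.s k7 k167 11 (.s k5 k6 0 (.s k165 k245 11 (.d k244 k86 k248 12 1)))))), (.s k80 k160 11 (.s k95
  k90 2 (.s k83 k91 1 (.s k81 k82 0 (.s k243 k162 12 (.d k89 k93 k166 1 14))))))] (.c k166 (.l (.s
  k8 k4 1 (.s k80 k160 11 (.s k90 k95 2 (.s k15 k165 14 (.s k10 k5 2 (.s k11 k9 0 (.d k248 k244 k169
  1 12)))))))) .n)) .n))))) .n)))))))))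

def t84_173 : T TT 256 :=
  (.q k204 [(.s k4 k8 1 (.s k68 k136 9 (.s k132 k196 7 (.s k76 k140 7 (.d k72 k64 k192 1 9))))), (.s
  k76 k140 7 (.s k92 k172 11 (.s k108 k124 3 (.s k156 k60 11 (.d k220 k236 k28 3 7)))))] (.c k64 (.l
  (.s k8 k4 1 (.s k136 k68 9 (.s k72 k200 7 (.s k132 k192 9 (.d k140 k76 k128 7 1)))))) (.c k76 (.q
  k153 [(.s k68 k136 9 (.s k102 k51 14 (.s k85 k119 4 (.s k255 k170 14 (.d k221 k238 k17 4 9))))),
  (.s k4 k8 1 (.s k51 k102 14 (.s k34 k17 4 (.s k38 k25 6 (.s k21 k55 4 (.d k42 k46 k63 1 6)))))),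
  (.s k8 k4 1 (.s k136 k68 9 (.s k170 k187 4 (.s k89 k251 12 (.s k243 k166 14 (.d k217 k230 k25 6
  7))))))] .n) (.c k140 (.q k153 [(.s k136 k68 9 (.s k51 k102 14 (.s k17 k34 4 (.s k85 k221 9 (.d
  k170 k187 k255 4 14))))), (.s k4 k8 1 (.s k51 k102 14 (.s k34 k17 4 (.s k38 k25 6 (.s k21 k55 4
  (.d k42 k46 k63 1 6)))))), (.s k8 k4 1 (.s k136 k68 9 (.s k170 k187 4 (.s k89 k251 12 (.s k243
  k166 14 (.d k217 k230 k25 6 7))))))] .n) .n))))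

def t84_174 : T TT 256 :=
  (.q k204 [(.s k4 k8 1 (.s k68 k136 9 (.s k132 k196 7 (.s k72 k192 9 (.d k76 k64 k140 1 7))))), (.s
  k76 k140 7 (.s k92 k172 11 (.s k108 k124 3 (.s k156 k60 11 (.d k220 k236 k28 3 7)))))] (.c k64 (.l
  (.s k8 k4 1 (.s k136 k68 9 (.s k72 k200 7 (.s k132 k192 9 (.d k140 k76 k128 7 1)))))) (.c k76 (.q
  k153 [(.s k68 k136 9 (.s k102 k51 14 (.s k85 k119 4 (.s k221 k17 9 (.d k255 k238 k170 4 14))))),
  (.s k4 k8 1 (.s k51 k102 14 (.s k34 k17 4 (.s k38 k25 6 (.s k21 k55 4 (.d k42 k46 k63 1 6)))))),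
  (.s k8 k4 1 (.s k136 k68 9 (.s k170 k187 4 (.s k89 k251 12 (.s k243 k166 14 (.d k217 k230 k25 6
  7))))))] .n) (.c k140 (.q k157 [(.s k63 k110 12 (.s k189 k126 8 (.s k220 k236 3 (.s k94 k31 8 (.d
  k173 k141 k15 3 12))))), (.s k4 k8 1 (.s k63 k110 12 (.s k21 k42 6 (.s k38 k55 4 (.s k25 k51 6 (.d
  k29 k46 k17 4 1)))))), (.s k92 k172 11 (.s k220 k236 3 (.s k94 k31 8 (.s k93 k95 0 (.s k221 k29 7
  (.s k223 k222 0 (.d k28 k156 k158 7 8)))))))] .n) .n))))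

def t84_175 : T TT 256 :=
  (.q k255 [(.s k92 k172 11 (.s k253 k254 0 (.s k93 k174 12 (.s k173 k13 11 (.d k94 k95 k15 0
  12))))), (.s k4 k8 1 (.s k85 k170 14 (.s k166 k247 12 (.s k89 k243 14 (.d k93 k81 k174 1 12))))),
  (.s k4 k8 1 (.s k85 k170 14 (.s k166 k247 12 (.s k172 k92 11 (.s k169 k163 2 (.d k253 k254 k1 0
  13))))))] .n)

def t84_176 : T TT 256 :=
  (.q k255 [(.s k4 k8 1 (.s k85 k170 14 (.s k166 k247 12 (.s k93 k174 12 (.d k89 k81 k243 1 14))))),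
  (.s k92 k172 11 (.s k93 k174 12 (.s k94 k95 0 (.s k173 k15 12 (.d k253 k254 k13 0 11))))), (.s k4
  k8 1 (.s k85 k170 14 (.s k166 k247 12 (.s k172 k92 11 (.s k169 k163 2 (.d k253 k254 k1 0 13))))))]
  .n)

def t84_177 : T TT 256 :=
  (.q k255 [(.s k4 k8 1 (.s k85 k170 14 (.s k166 k247 12 (.s k93 k174 12 (.d k89 k81 k243 1 14))))),
  (.s k92 k172 11 (.s k93 k174 12 (.s k94 k95 0 (.s k173 k15 12 (.d k253 k254 k13 0 11))))), (.s k4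
  k8 1 (.s k85 k170 14 (.s k166 k247 12 (.s k172 k92 11 (.s k169 k163 2 (.d k253 k254 k1 0 13))))))]
  .n)

def t84_178 : T TT 256 :=
  (.q k255 [(.s k4 k8 1 (.s k85 k170 14 (.s k166 k247 12 (.s k93 k174 12 (.d k89 k81 k243 1 14))))),
  (.s k92 k172 11 (.s k93 k174 12 (.s k94 k95 0 (.s k173 k15 12 (.d k253 k254 k13 0 11))))), (.s k4
  k8 1 (.s k85 k170 14 (.s k166 k247 12 (.s k172 k92 11 (.s k169 k163 2 (.d k253 k254 k1 0 13))))))]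
  .n)

def t84_179 : T TT 256 :=
  (.q k255 [(.s k4 k8 1 (.s k85 k170 14 (.s k166 k247 12 (.s k93 k174 12 (.d k89 k81 k243 1 14))))),
  (.s k92 k172 11 (.s k93 k174 12 (.s k94 k95 0 (.s k173 k15 12 (.d k253 k254 k13 0 11))))), (.s k4
  k8 1 (.s k85 k170 14 (.s k166 k247 12 (.s k172 k92 11 (.s k169 k163 2 (.d k253 k254 k1 0 13))))))]
  .n)

def t84_180 : T TT 256 :=
  (.q k255 [(.s k4 k8 1 (.s k85 k170 14 (.s k166 k247 12 (.s k93 k174 12 (.d k89 k81 k243 1 14))))),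
  (.s k92 k172 11 (.s k93 k174 12 (.s k94 k95 0 (.s k173 k15 12 (.d k253 k254 k13 0 11))))), (.s k4
  k8 1 (.s k85 k170 14 (.s k166 k247 12 (.s k172 k92 11 (.s k169 k163 2 (.d k253 k254 k1 0 13))))))]
  .n)

def t84_181 : T TT 256 :=
  (.q k255 [(.s k4 k8 1 (.s k85 k170 14 (.s k166 k247 12 (.s k93 k174 12 (.d k89 k81 k243 1 14))))),
  (.s k92 k172 11 (.s k93 k174 12 (.s k94 k95 0 (.s k173 k15 12 (.d k253 k254 k13 0 11))))), (.s k4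
  k8 1 (.s k85 k170 14 (.s k166 k247 12 (.s k172 k92 11 (.s k169 k163 2 (.d k253 k254 k1 0 13))))))]
  .n)

def t84_182 : T TT 256 :=
  (.q k255 [(.s k4 k8 1 (.s k85 k170 14 (.s k93 k174 12 (.s k89 k81 1 (.d k166 k247 k243 12 14))))),
  (.s k92 k172 11 (.s k93 k174 12 (.s k94 k95 0 (.s k173 k15 12 (.d k253 k254 k13 0 11))))), (.s k4
  k8 1 (.s k85 k170 14 (.s k166 k247 12 (.s k172 k92 11 (.s k169 k163 2 (.d k253 k254 k1 0 13))))))]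
  .n)

def t84_183 : T TT 256 :=
  (.q k255 [(.s k4 k8 1 (.s k85 k170 14 (.s k93 k174 12 (.s k89 k81 1 (.d k166 k247 k243 12 14))))),
  (.s k92 k172 11 (.s k93 k174 12 (.s k94 k95 0 (.s k173 k15 12 (.d k253 k254 k13 0 11))))), (.s k4
  k8 1 (.s k85 k170 14 (.s k166 k247 12 (.s k172 k92 11 (.s k169 k163 2 (.d k253 k254 k1 0 13))))))]
  .n)

def t84_184 : T TT 256 :=
  (.q k255 [(.s k4 k8 1 (.s k85 k170 14 (.s k166 k247 12 (.s k93 k174 12 (.d k89 k81 k243 1 14))))),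
  (.s k92 k172 11 (.s k93 k174 12 (.s k94 k95 0 (.s k173 k15 12 (.d k253 k254 k13 0 11))))), (.s k4
  k8 1 (.s k85 k170 14 (.s k166 k247 12 (.s k172 k92 11 (.s k169 k163 2 (.d k253 k254 k1 0 13))))))]
  .n)

def t84_185 : T TT 256 :=
  (.q k255 [(.s k4 k8 1 (.s k85 k170 14 (.s k166 k247 12 (.s k93 k174 12 (.d k89 k81 k243 1 14))))),
  (.s k92 k172 11 (.s k93 k174 12 (.s k94 k95 0 (.s k173 k15 12 (.d k253 k254 k13 0 11))))), (.s k4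
  k8 1 (.s k85 k170 14 (.s k166 k247 12 (.s k172 k92 11 (.s k169 k163 2 (.d k253 k254 k1 0 13))))))]
  .n)

def t84_186 : T TT 256 :=
  (.q k255 [(.s k92 k172 11 (.s k93 k174 12 (.s k94 k95 0 (.s k173 k15 12 (.d k253 k254 k13 0
  11))))), (.s k4 k8 1 (.s k85 k170 14 (.s k166 k247 12 (.s k89 k243 14 (.d k93 k81 k174 1 12))))),
  (.s k4 k8 1 (.s k85 k170 14 (.s k166 k247 12 (.s k172 k92 11 (.s k169 k163 2 (.d k253 k254 k1 0
  13))))))] .n)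

def t84_187 : T TT 256 :=
  (.q k255 [(.s k92 k172 11 (.s k93 k174 12 (.s k94 k95 0 (.s k173 k15 12 (.d k253 k254 k13 0
  11))))), (.s k4 k8 1 (.s k85 k170 14 (.s k166 k247 12 (.s k89 k243 14 (.d k93 k81 k174 1 12))))),
  (.s k4 k8 1 (.s k85 k170 14 (.s k166 k247 12 (.s k172 k92 11 (.s k169 k163 2 (.d k253 k254 k1 0
  13))))))] .n)

def t84_188 : T TT 256 :=
  (.q k255 [(.s k4 k8 1 (.s k85 k170 14 (.s k166 k247 12 (.s k93 k174 12 (.d k89 k81 k243 1 14))))),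
  (.s k92 k172 11 (.s k93 k174 12 (.s k94 k95 0 (.s k173 k15 12 (.d k253 k254 k13 0 11))))), (.s k4
  k8 1 (.s k85 k170 14 (.s k166 k247 12 (.s k172 k92 11 (.s k169 k163 2 (.d k253 k254 k1 0 13))))))]
  .n)

def t84_189 : T TT 256 :=
  (.q k255 [(.s k4 k8 1 (.s k85 k170 14 (.s k166 k247 12 (.s k93 k174 12 (.d k89 k81 k243 1 14))))),
  (.s k92 k172 11 (.s k93 k174 12 (.s k94 k95 0 (.s k173 k15 12 (.d k253 k254 k13 0 11))))), (.s k4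
  k8 1 (.s k85 k170 14 (.s k166 k247 12 (.s k172 k92 11 (.s k169 k163 2 (.d k253 k254 k1 0 13))))))]
  .n)

def t84_190 : T TT 256 :=
  (.q k255 [(.s k4 k8 1 (.s k85 k170 14 (.s k166 k247 12 (.s k89 k243 14 (.d k93 k81 k174 1 12))))),
  (.s k92 k172 11 (.s k93 k174 12 (.s k94 k95 0 (.s k173 k15 12 (.d k253 k254 k13 0 11))))), (.s k4
  k8 1 (.s k85 k170 14 (.s k166 k247 12 (.s k172 k92 11 (.s k169 k163 2 (.d k253 k254 k1 0 13))))))]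
  .n)

def t84_191 : T TT 256 :=
  (.q k255 [(.s k4 k8 1 (.s k85 k170 14 (.s k166 k247 12 (.s k89 k243 14 (.d k93 k81 k174 1 12))))),
  (.s k92 k172 11 (.s k93 k174 12 (.s k94 k95 0 (.s k173 k15 12 (.d k253 k254 k13 0 11))))), (.s k4
  k8 1 (.s k85 k170 14 (.s k166 k247 12 (.s k172 k92 11 (.s k169 k163 2 (.d k253 k254 k1 0 13))))))]
  .n)

def t84_192 : T TT 256 :=
  (.q k255 [(.s k4 k8 1 (.s k85 k170 14 (.s k166 k247 12 (.s k93 k174 12 (.d k89 k81 k243 1 14))))),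
  (.s k92 k172 11 (.s k93 k174 12 (.s k94 k95 0 (.s k173 k15 12 (.d k253 k254 k13 0 11))))), (.s k4
  k8 1 (.s k85 k170 14 (.s k166 k247 12 (.s k172 k92 11 (.s k169 k163 2 (.d k253 k254 k1 0 13))))))]
  (.c k66 (.q k129 [(.s k4 k8 1 (.s k85 k170 14 (.s k166 k247 12 (.s k93 k174 12 (.d k89 k81 k243 1
  14))))), (.s k92 k172 11 (.s k93 k174 12 (.s k94 k95 0 (.s k173 k15 12 (.d k253 k254 k13 0
  11))))), (.s k4 k8 1 (.s k85 k170 14 (.s k166 k247 12 (.s k172 k92 11 (.s k169 k163 2 (.d k253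
  k254 k1 0 13))))))] .n) (.c k129 (.q k66 [(.s k4 k8 1 (.s k85 k170 14 (.s k166 k247 12 (.s k93
  k174 12 (.d k89 k81 k243 1 14))))), (.s k92 k172 11 (.s k93 k174 12 (.s k94 k95 0 (.s k173 k15 12
  (.d k253 k254 k13 0 11))))), (.s k4 k8 1 (.s k85 k170 14 (.s k166 k247 12 (.s k172 k92 11 (.s k169
  k163 2 (.d k253 k254 k1 0 13))))))] .n) .n)))

def t84_193 : T TT 256 :=
  (.q k255 [(.s k4 k8 1 (.s k85 k170 14 (.s k166 k247 12 (.s k93 k174 12 (.d k89 k81 k243 1 14))))),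
  (.s k92 k172 11 (.s k93 k174 12 (.s k94 k95 0 (.s k173 k15 12 (.d k253 k254 k13 0 11))))), (.s k4
  k8 1 (.s k85 k170 14 (.s k166 k247 12 (.s k172 k92 11 (.s k169 k163 2 (.d k253 k254 k1 0 13))))))]
  .n)

def t84_194 : T TT 256 :=
  (.q k255 [(.s k4 k8 1 (.s k85 k170 14 (.s k166 k247 12 (.s k93 k174 12 (.d k89 k81 k243 1 14))))),
  (.s k92 k172 11 (.s k93 k174 12 (.s k94 k95 0 (.s k173 k15 12 (.d k253 k254 k13 0 11))))), (.s k4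
  k8 1 (.s k85 k170 14 (.s k166 k247 12 (.s k172 k92 11 (.s k169 k163 2 (.d k253 k254 k1 0 13))))))]
  .n)

def t84_195 : T TT 256 :=
  (.q k255 [(.s k4 k8 1 (.s k85 k170 14 (.s k166 k247 12 (.s k93 k174 12 (.d k89 k81 k243 1 14))))),
  (.s k92 k172 11 (.s k93 k174 12 (.s k94 k95 0 (.s k173 k15 12 (.d k253 k254 k13 0 11))))), (.s k4
  k8 1 (.s k85 k170 14 (.s k166 k247 12 (.s k172 k92 11 (.s k169 k163 2 (.d k253 k254 k1 0 13))))))]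
  (.c k67 (.q k131 [(.s k4 k8 1 (.s k85 k170 14 (.s k166 k247 12 (.s k93 k174 12 (.d k89 k81 k243 1
  14))))), (.s k92 k172 11 (.s k93 k174 12 (.s k94 k95 0 (.s k173 k15 12 (.d k253 k254 k13 0
  11))))), (.s k4 k8 1 (.s k85 k170 14 (.s k166 k247 12 (.s k172 k92 11 (.s k169 k163 2 (.d k253
  k254 k1 0 13))))))] .n) (.c k131 (.q k67 [(.s k4 k8 1 (.s k85 k170 14 (.s k166 k247 12 (.s k93
  k174 12 (.d k89 k81 k243 1 14))))), (.s k92 k172 11 (.s k93 k174 12 (.s k94 k95 0 (.s k173 k15 12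
  (.d k253 k254 k13 0 11))))), (.s k4 k8 1 (.s k85 k170 14 (.s k166 k247 12 (.s k172 k92 11 (.s k169
  k163 2 (.d k253 k254 k1 0 13))))))] .n) .n)))

def t84_196 : T TT 256 :=
  (.q k255 [(.s k4 k8 1 (.s k85 k170 14 (.s k93 k174 12 (.s k89 k81 1 (.d k166 k247 k243 12 14))))),
  (.s k92 k172 11 (.s k93 k174 12 (.s k94 k95 0 (.s k173 k15 12 (.d k253 k254 k13 0 11))))), (.s k4
  k8 1 (.s k85 k170 14 (.s k166 k247 12 (.s k172 k92 11 (.s k169 k163 2 (.d k253 k254 k1 0 13))))))]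
  .n)

def t84_197 : T TT 256 :=
  (.q k255 [(.s k4 k8 1 (.s k85 k170 14 (.s k166 k247 12 (.s k93 k174 12 (.d k89 k81 k243 1 14))))),
  (.s k92 k172 11 (.s k93 k174 12 (.s k94 k95 0 (.s k173 k15 12 (.d k253 k254 k13 0 11))))), (.s k4
  k8 1 (.s k85 k170 14 (.s k166 k247 12 (.s k172 k92 11 (.s k169 k163 2 (.d k253 k254 k1 0 13))))))]
  .n)

def t84_198 : T TT 256 :=
  (.q k255 [(.s k4 k8 1 (.s k85 k170 14 (.s k166 k247 12 (.s k93 k174 12 (.d k89 k81 k243 1 14))))),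
  (.s k92 k172 11 (.s k93 k174 12 (.s k94 k95 0 (.s k173 k15 12 (.d k253 k254 k13 0 11))))), (.s k4
  k8 1 (.s k85 k170 14 (.s k166 k247 12 (.s k172 k92 11 (.s k169 k163 2 (.d k253 k254 k1 0 13))))))]
  .n)

def t84_199 : T TT 256 :=
  (.q k255 [(.s k4 k8 1 (.s k85 k170 14 (.s k93 k174 12 (.s k89 k81 1 (.d k166 k247 k243 12 14))))),
  (.s k92 k172 11 (.s k93 k174 12 (.s k94 k95 0 (.s k173 k15 12 (.d k253 k254 k13 0 11))))), (.s k4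
  k8 1 (.s k85 k170 14 (.s k166 k247 12 (.s k172 k92 11 (.s k169 k163 2 (.d k253 k254 k1 0 13))))))]
  .n)

def t84_200 : T TT 256 :=
  (.q k255 [(.s k92 k172 11 (.s k93 k174 12 (.s k94 k95 0 (.s k173 k15 12 (.d k253 k254 k13 0
  11))))), (.s k4 k8 1 (.s k85 k170 14 (.s k166 k247 12 (.s k89 k243 14 (.d k93 k81 k174 1 12))))),
  (.s k4 k8 1 (.s k85 k170 14 (.s k166 k247 12 (.s k172 k92 11 (.s k169 k163 2 (.d k253 k254 k1 0
  13))))))] .n)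

def t84_201 : T TT 256 :=
  (.q k255 [(.s k4 k8 1 (.s k85 k170 14 (.s k166 k247 12 (.s k93 k174 12 (.d k89 k81 k243 1 14))))),
  (.s k92 k172 11 (.s k93 k174 12 (.s k94 k95 0 (.s k173 k15 12 (.d k253 k254 k13 0 11))))), (.s k4
  k8 1 (.s k85 k170 14 (.s k166 k247 12 (.s k172 k92 11 (.s k169 k163 2 (.d k253 k254 k1 0 13))))))]
  .n)

def t84_202 : T TT 256 :=
  (.q k255 [(.s k4 k8 1 (.s k85 k170 14 (.s k166 k247 12 (.s k93 k174 12 (.d k89 k81 k243 1 14))))),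
  (.s k92 k172 11 (.s k93 k174 12 (.s k94 k95 0 (.s k173 k15 12 (.d k253 k254 k13 0 11))))), (.s k4
  k8 1 (.s k85 k170 14 (.s k166 k247 12 (.s k172 k92 11 (.s k169 k163 2 (.d k253 k254 k1 0 13))))))]
  .n)

def t84_203 : T TT 256 :=
  (.q k255 [(.s k92 k172 11 (.s k93 k174 12 (.s k94 k95 0 (.s k173 k15 12 (.d k253 k254 k13 0
  11))))), (.s k4 k8 1 (.s k85 k170 14 (.s k166 k247 12 (.s k89 k243 14 (.d k93 k81 k174 1 12))))),
  (.s k4 k8 1 (.s k85 k170 14 (.s k166 k247 12 (.s k172 k92 11 (.s k169 k163 2 (.d k253 k254 k1 0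
  13))))))] .n)

def t84_204 : T TT 256 :=
  (.q k255 [(.s k4 k8 1 (.s k85 k170 14 (.s k166 k247 12 (.s k93 k174 12 (.d k89 k81 k243 1 14))))),
  (.s k92 k172 11 (.s k93 k174 12 (.s k94 k95 0 (.s k173 k15 12 (.d k253 k254 k13 0 11))))), (.s k4
  k8 1 (.s k85 k170 14 (.s k166 k247 12 (.s k172 k92 11 (.s k169 k163 2 (.d k253 k254 k1 0 13))))))]
  (.c k70 (.q k137 [(.s k4 k8 1 (.s k85 k170 14 (.s k166 k247 12 (.s k93 k174 12 (.d k89 k81 k243 1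
  14))))), (.s k92 k172 11 (.s k93 k174 12 (.s k94 k95 0 (.s k173 k15 12 (.d k253 k254 k13 0
  11))))), (.s k4 k8 1 (.s k85 k170 14 (.s k166 k247 12 (.s k172 k92 11 (.s k169 k163 2 (.d k253
  k254 k1 0 13))))))] .n) (.c k137 (.q k70 [(.s k4 k8 1 (.s k85 k170 14 (.s k166 k247 12 (.s k93
  k174 12 (.d k89 k81 k243 1 14))))), (.s k92 k172 11 (.s k93 k174 12 (.s k94 k95 0 (.s k173 k15 12
  (.d k253 k254 k13 0 11))))), (.s k4 k8 1 (.s k85 k170 14 (.s k166 k247 12 (.s k172 k92 11 (.s k169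
  k163 2 (.d k253 k254 k1 0 13))))))] .n) .n)))

def t84_205 : T TT 256 :=
  (.q k255 [(.s k4 k8 1 (.s k85 k170 14 (.s k166 k247 12 (.s k93 k174 12 (.d k89 k81 k243 1 14))))),
  (.s k92 k172 11 (.s k93 k174 12 (.s k94 k95 0 (.s k173 k15 12 (.d k253 k254 k13 0 11))))), (.s k4
  k8 1 (.s k85 k170 14 (.s k166 k247 12 (.s k172 k92 11 (.s k169 k163 2 (.d k253 k254 k1 0 13))))))]
  .n)

def t84_206 : T TT 256 :=
  (.q k255 [(.s k4 k8 1 (.s k85 k170 14 (.s k166 k247 12 (.s k93 k174 12 (.d k89 k81 k243 1 14))))),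
  (.s k92 k172 11 (.s k93 k174 12 (.s k94 k95 0 (.s k173 k15 12 (.d k253 k254 k13 0 11))))), (.s k4
  k8 1 (.s k85 k170 14 (.s k166 k247 12 (.s k172 k92 11 (.s k169 k163 2 (.d k253 k254 k1 0 13))))))]
  .n)

def t84_207 : T TT 256 :=
  (.q k255 [(.s k4 k8 1 (.s k85 k170 14 (.s k166 k247 12 (.s k93 k174 12 (.d k89 k81 k243 1 14))))),
  (.s k92 k172 11 (.s k93 k174 12 (.s k94 k95 0 (.s k173 k15 12 (.d k253 k254 k13 0 11))))), (.s k4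
  k8 1 (.s k85 k170 14 (.s k166 k247 12 (.s k172 k92 11 (.s k169 k163 2 (.d k253 k254 k1 0 13))))))]
  (.c k71 (.q k139 [(.s k4 k8 1 (.s k85 k170 14 (.s k166 k247 12 (.s k93 k174 12 (.d k89 k81 k243 1
  14))))), (.s k92 k172 11 (.s k93 k174 12 (.s k94 k95 0 (.s k173 k15 12 (.d k253 k254 k13 0
  11))))), (.s k4 k8 1 (.s k85 k170 14 (.s k166 k247 12 (.s k172 k92 11 (.s k169 k163 2 (.d k253
  k254 k1 0 13))))))] .n) (.c k139 (.q k71 [(.s k4 k8 1 (.s k85 k170 14 (.s k166 k247 12 (.s k93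
  k174 12 (.d k89 k81 k243 1 14))))), (.s k92 k172 11 (.s k93 k174 12 (.s k94 k95 0 (.s k173 k15 12
  (.d k253 k254 k13 0 11))))), (.s k4 k8 1 (.s k85 k170 14 (.s k166 k247 12 (.s k172 k92 11 (.s k169
  k163 2 (.d k253 k254 k1 0 13))))))] .n) .n)))

def t84_208 : T TT 256 :=
  (.q k255 [(.s k4 k8 1 (.s k85 k170 14 (.s k166 k247 12 (.s k93 k174 12 (.d k89 k81 k243 1 14))))),
  (.s k92 k172 11 (.s k93 k174 12 (.s k94 k95 0 (.s k173 k15 12 (.d k253 k254 k13 0 11))))), (.s k4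
  k8 1 (.s k85 k170 14 (.s k166 k247 12 (.s k172 k92 11 (.s k169 k163 2 (.d k253 k254 k1 0 13))))))]
  .n)

def t84_209 : T TT 256 :=
  (.q k255 [(.s k4 k8 1 (.s k85 k170 14 (.s k166 k247 12 (.s k93 k174 12 (.d k89 k81 k243 1 14))))),
  (.s k92 k172 11 (.s k93 k174 12 (.s k94 k95 0 (.s k173 k15 12 (.d k253 k254 k13 0 11))))), (.s k4
  k8 1 (.s k85 k170 14 (.s k166 k247 12 (.s k172 k92 11 (.s k169 k163 2 (.d k253 k254 k1 0 13))))))]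
  .n)

def t84_210 : T TT 256 :=
  (.q k255 [(.s k4 k8 1 (.s k85 k170 14 (.s k166 k247 12 (.s k93 k174 12 (.d k89 k81 k243 1 14))))),
  (.s k92 k172 11 (.s k93 k174 12 (.s k94 k95 0 (.s k173 k15 12 (.d k253 k254 k13 0 11))))), (.s k4
  k8 1 (.s k85 k170 14 (.s k166 k247 12 (.s k172 k92 11 (.s k169 k163 2 (.d k253 k254 k1 0 13))))))]
  .n)

def t84_211 : T TT 256 :=
  (.q k255 [(.s k4 k8 1 (.s k85 k170 14 (.s k166 k247 12 (.s k93 k174 12 (.d k89 k81 k243 1 14))))),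
  (.s k92 k172 11 (.s k93 k174 12 (.s k94 k95 0 (.s k173 k15 12 (.d k253 k254 k13 0 11))))), (.s k4
  k8 1 (.s k85 k170 14 (.s k166 k247 12 (.s k172 k92 11 (.s k169 k163 2 (.d k253 k254 k1 0 13))))))]
  .n)

def t84_212 : T TT 256 :=
  (.q k255 [(.s k4 k8 1 (.s k85 k170 14 (.s k166 k247 12 (.s k93 k174 12 (.d k89 k81 k243 1 14))))),
  (.s k92 k172 11 (.s k93 k174 12 (.s k94 k95 0 (.s k173 k15 12 (.d k253 k254 k13 0 11))))), (.s k4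
  k8 1 (.s k85 k170 14 (.s k166 k247 12 (.s k172 k92 11 (.s k169 k163 2 (.d k253 k254 k1 0 13))))))]
  (.c k20 (.q k148 [(.s k4 k8 1 (.s k85 k170 14 (.s k166 k247 12 (.s k93 k174 12 (.d k89 k81 k243 1
  14))))), (.s k92 k172 11 (.s k93 k174 12 (.s k94 k95 0 (.s k173 k15 12 (.d k253 k254 k13 0
  11))))), (.s k4 k8 1 (.s k85 k170 14 (.s k166 k247 12 (.s k172 k92 11 (.s k169 k163 2 (.d k253
  k254 k1 0 13))))))] .n) (.c k148 (.q k20 [(.s k4 k8 1 (.s k85 k170 14 (.s k166 k247 12 (.s k89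
  k243 14 (.d k93 k81 k174 1 12))))), (.s k4 k8 1 (.s k40 k60 5 (.s k36 k52 3 (.s k48 k24 5 (.d k32
  k44 k16 1 3))))), (.s k60 k40 5 (.s k85 k170 14 (.s k150 k215 8 (.s k105 k195 14 (.d k125 k65 k190
  5 8)))))] .n) .n)))

def t84_213 : T TT 256 :=
  (.q k255 [(.s k4 k8 1 (.s k85 k170 14 (.s k93 k174 12 (.s k89 k81 1 (.d k166 k247 k243 12 14))))),
  (.s k92 k172 11 (.s k93 k174 12 (.s k94 k95 0 (.s k173 k15 12 (.d k253 k254 k13 0 11))))), (.s k4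
  k8 1 (.s k85 k170 14 (.s k166 k247 12 (.s k172 k92 11 (.s k169 k163 2 (.d k253 k254 k1 0 13))))))]
  .n)

def t84_214 : T TT 256 :=
  (.q k255 [(.s k4 k8 1 (.s k85 k170 14 (.s k166 k247 12 (.s k93 k174 12 (.d k89 k81 k243 1 14))))),
  (.s k92 k172 11 (.s k93 k174 12 (.s k94 k95 0 (.s k173 k15 12 (.d k253 k254 k13 0 11))))), (.s k4
  k8 1 (.s k85 k170 14 (.s k166 k247 12 (.s k172 k92 11 (.s k169 k163 2 (.d k253 k254 k1 0 13))))))]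
  .n)

def t84_215 : T TT 256 :=
  (.q k255 [(.s k4 k8 1 (.s k85 k170 14 (.s k93 k174 12 (.s k89 k81 1 (.d k166 k247 k243 12 14))))),
  (.s k92 k172 11 (.s k93 k174 12 (.s k94 k95 0 (.s k173 k15 12 (.d k253 k254 k13 0 11))))), (.s k4
  k8 1 (.s k85 k170 14 (.s k166 k247 12 (.s k172 k92 11 (.s k169 k163 2 (.d k253 k254 k1 0 13))))))]
  .n)

def t84_216 : T TT 256 :=
  (.q k255 [(.s k4 k8 1 (.s k85 k170 14 (.s k166 k247 12 (.s k93 k174 12 (.d k89 k81 k243 1 14))))),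
  (.s k92 k172 11 (.s k93 k174 12 (.s k94 k95 0 (.s k173 k15 12 (.d k253 k254 k13 0 11))))), (.s k4
  k8 1 (.s k85 k170 14 (.s k166 k247 12 (.s k172 k92 11 (.s k169 k163 2 (.d k253 k254 k1 0 13))))))]
  .n)

def t84_217 : T TT 256 :=
  (.q k255 [(.s k4 k8 1 (.s k85 k170 14 (.s k166 k247 12 (.s k93 k174 12 (.d k89 k81 k243 1 14))))),
  (.s k92 k172 11 (.s k93 k174 12 (.s k94 k95 0 (.s k173 k15 12 (.d k253 k254 k13 0 11))))), (.s k4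
  k8 1 (.s k85 k170 14 (.s k166 k247 12 (.s k172 k92 11 (.s k169 k163 2 (.d k253 k254 k1 0 13))))))]
  .n)

def t84_218 : T TT 256 :=
  (.q k255 [(.s k4 k8 1 (.s k85 k170 14 (.s k166 k247 12 (.s k93 k174 12 (.d k89 k81 k243 1 14))))),
  (.s k92 k172 11 (.s k93 k174 12 (.s k94 k95 0 (.s k173 k15 12 (.d k253 k254 k13 0 11))))), (.s k4
  k8 1 (.s k85 k170 14 (.s k166 k247 12 (.s k172 k92 11 (.s k169 k163 2 (.d k253 k254 k1 0 13))))))]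
  .n)

def t84_219 : T TT 256 :=
  (.q k255 [(.s k4 k8 1 (.s k85 k170 14 (.s k166 k247 12 (.s k93 k174 12 (.d k89 k81 k243 1 14))))),
  (.s k92 k172 11 (.s k93 k174 12 (.s k94 k95 0 (.s k173 k15 12 (.d k253 k254 k13 0 11))))), (.s k4
  k8 1 (.s k85 k170 14 (.s k166 k247 12 (.s k172 k92 11 (.s k169 k163 2 (.d k253 k254 k1 0 13))))))]
  .n)

def t84_220 : T TT 256 :=
  (.q k255 [(.s k4 k8 1 (.s k85 k170 14 (.s k166 k247 12 (.s k93 k174 12 (.d k89 k81 k243 1 14))))),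
  (.s k92 k172 11 (.s k93 k174 12 (.s k94 k95 0 (.s k173 k15 12 (.d k253 k254 k13 0 11))))), (.s k4
  k8 1 (.s k85 k170 14 (.s k166 k247 12 (.s k172 k92 11 (.s k169 k163 2 (.d k253 k254 k1 0 13))))))]
  (.c k16 (.q k152 [(.s k4 k8 1 (.s k85 k170 14 (.s k166 k247 12 (.s k93 k174 12 (.d k89 k81 k243 1
  14))))), (.s k92 k172 11 (.s k93 k174 12 (.s k94 k95 0 (.s k173 k15 12 (.d k253 k254 k13 0
  11))))), (.s k4 k8 1 (.s k85 k170 14 (.s k166 k247 12 (.s k172 k92 11 (.s k169 k163 2 (.d k253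
  k254 k1 0 13))))))] .n) (.c k152 (.q k16 [(.s k4 k8 1 (.s k85 k170 14 (.s k166 k247 12 (.s k93
  k174 12 (.d k89 k81 k243 1 14))))), (.s k48 k32 3 (.s k85 k170 14 (.s k154 k223 10 (.s k101 k207
  14 (.d k117 k69 k186 3 10))))), (.s k8 k4 1 (.s k48 k32 3 (.s k24 k36 5 (.s k40 k56 3 (.d k20 k28
  k60 1 5)))))] .n) .n)))

def t84_221 : T TT 256 :=
  (.q k255 [(.s k4 k8 1 (.s k85 k170 14 (.s k166 k247 12 (.s k93 k174 12 (.d k89 k81 k243 1 14))))),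
  (.s k92 k172 11 (.s k93 k174 12 (.s k94 k95 0 (.s k173 k15 12 (.d k253 k254 k13 0 11))))), (.s k4
  k8 1 (.s k85 k170 14 (.s k166 k247 12 (.s k172 k92 11 (.s k169 k163 2 (.d k253 k254 k1 0 13))))))]
  .n)

def t84_222 : T TT 256 :=
  (.q k255 [(.s k4 k8 1 (.s k85 k170 14 (.s k166 k247 12 (.s k93 k174 12 (.d k89 k81 k243 1 14))))),
  (.s k92 k172 11 (.s k93 k174 12 (.s k94 k95 0 (.s k173 k15 12 (.d k253 k254 k13 0 11))))), (.s k4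
  k8 1 (.s k85 k170 14 (.s k166 k247 12 (.s k172 k92 11 (.s k169 k163 2 (.d k253 k254 k1 0 13))))))]
  .n)

def t84_223 : T TT 256 :=
  (.q k255 [(.s k4 k8 1 (.s k85 k170 14 (.s k166 k247 12 (.s k93 k174 12 (.d k89 k81 k243 1 14))))),
  (.s k92 k172 11 (.s k93 k174 12 (.s k94 k95 0 (.s k173 k15 12 (.d k253 k254 k13 0 11))))), (.s k4
  k8 1 (.s k85 k170 14 (.s k166 k247 12 (.s k172 k92 11 (.s k169 k163 2 (.d k253 k254 k1 0 13))))))]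
  .n)

def t84_224 : T TT 256 :=
  (.q k255 [(.s k4 k8 1 (.s k85 k170 14 (.s k166 k247 12 (.s k93 k174 12 (.d k89 k81 k243 1 14))))),
  (.s k92 k172 11 (.s k93 k174 12 (.s k94 k95 0 (.s k173 k15 12 (.d k253 k254 k13 0 11))))), (.s k4
  k8 1 (.s k85 k170 14 (.s k166 k247 12 (.s k172 k92 11 (.s k169 k163 2 (.d k253 k254 k1 0 13))))))]
  .n)

def t84_225 : T TT 256 :=
  (.q k255 [(.s k4 k8 1 (.s k85 k170 14 (.s k166 k247 12 (.s k93 k174 12 (.d k89 k81 k243 1 14))))),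
  (.s k92 k172 11 (.s k93 k174 12 (.s k94 k95 0 (.s k173 k15 12 (.d k253 k254 k13 0 11))))), (.s k4
  k8 1 (.s k85 k170 14 (.s k166 k247 12 (.s k172 k92 11 (.s k169 k163 2 (.d k253 k254 k1 0 13))))))]
  .n)

def t84_226 : T TT 256 :=
  (.q k255 [(.s k4 k8 1 (.s k85 k170 14 (.s k166 k247 12 (.s k93 k174 12 (.d k89 k81 k243 1 14))))),
  (.s k92 k172 11 (.s k93 k174 12 (.s k94 k95 0 (.s k173 k15 12 (.d k253 k254 k13 0 11))))), (.s k4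
  k8 1 (.s k85 k170 14 (.s k166 k247 12 (.s k172 k92 11 (.s k169 k163 2 (.d k253 k254 k1 0 13))))))]
  .n)

def t84_227 : T TT 256 :=
  (.q k255 [(.s k4 k8 1 (.s k85 k170 14 (.s k166 k247 12 (.s k93 k174 12 (.d k89 k81 k243 1 14))))),
  (.s k92 k172 11 (.s k93 k174 12 (.s k94 k95 0 (.s k173 k15 12 (.d k253 k254 k13 0 11))))), (.s k4
  k8 1 (.s k85 k170 14 (.s k166 k247 12 (.s k172 k92 11 (.s k169 k163 2 (.d k253 k254 k1 0 13))))))]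
  .n)

def t84_228 : T TT 256 :=
  (.q k255 [(.s k4 k8 1 (.s k85 k170 14 (.s k166 k247 12 (.s k93 k174 12 (.d k89 k81 k243 1 14))))),
  (.s k92 k172 11 (.s k93 k174 12 (.s k94 k95 0 (.s k173 k15 12 (.d k253 k254 k13 0 11))))), (.s k4
  k8 1 (.s k85 k170 14 (.s k166 k247 12 (.s k172 k92 11 (.s k169 k163 2 (.d k253 k254 k1 0 13))))))]
  .n)

def t84_229 : T TT 256 :=
  (.q k255 [(.s k4 k8 1 (.s k85 k170 14 (.s k166 k247 12 (.s k93 k174 12 (.d k89 k81 k243 1 14))))),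
  (.s k92 k172 11 (.s k93 k174 12 (.s k94 k95 0 (.s k173 k15 12 (.d k253 k254 k13 0 11))))), (.s k4
  k8 1 (.s k85 k170 14 (.s k166 k247 12 (.s k172 k92 11 (.s k169 k163 2 (.d k253 k254 k1 0 13))))))]
  .n)

def t84_230 : T TT 256 :=
  (.q k255 [(.s k4 k8 1 (.s k85 k170 14 (.s k93 k174 12 (.s k89 k81 1 (.d k166 k247 k243 12 14))))),
  (.s k92 k172 11 (.s k93 k174 12 (.s k94 k95 0 (.s k173 k15 12 (.d k253 k254 k13 0 11))))), (.s k4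
  k8 1 (.s k85 k170 14 (.s k166 k247 12 (.s k172 k92 11 (.s k169 k163 2 (.d k253 k254 k1 0 13))))))]
  .n)

def t84_231 : T TT 256 :=
  (.q k255 [(.s k4 k8 1 (.s k85 k170 14 (.s k93 k174 12 (.s k89 k81 1 (.d k166 k247 k243 12 14))))),
  (.s k92 k172 11 (.s k93 k174 12 (.s k94 k95 0 (.s k173 k15 12 (.d k253 k254 k13 0 11))))), (.s k4
  k8 1 (.s k85 k170 14 (.s k166 k247 12 (.s k172 k92 11 (.s k169 k163 2 (.d k253 k254 k1 0 13))))))]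
  .n)

def t84_232 : T TT 256 :=
  (.q k255 [(.s k4 k8 1 (.s k85 k170 14 (.s k166 k247 12 (.s k93 k174 12 (.d k89 k81 k243 1 14))))),
  (.s k92 k172 11 (.s k93 k174 12 (.s k94 k95 0 (.s k173 k15 12 (.d k253 k254 k13 0 11))))), (.s k4
  k8 1 (.s k85 k170 14 (.s k166 k247 12 (.s k172 k92 11 (.s k169 k163 2 (.d k253 k254 k1 0 13))))))]
  .n)

def t84_233 : T TT 256 :=
  (.q k255 [(.s k4 k8 1 (.s k85 k170 14 (.s k166 k247 12 (.s k93 k174 12 (.d k89 k81 k243 1 14))))),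
  (.s k92 k172 11 (.s k93 k174 12 (.s k94 k95 0 (.s k173 k15 12 (.d k253 k254 k13 0 11))))), (.s k4
  k8 1 (.s k85 k170 14 (.s k166 k247 12 (.s k172 k92 11 (.s k169 k163 2 (.d k253 k254 k1 0 13))))))]
  .n)

def t84_234 : T TT 256 :=
  (.q k255 [(.s k92 k172 11 (.s k93 k174 12 (.s k94 k95 0 (.s k173 k15 12 (.d k253 k254 k13 0
  11))))), (.s k4 k8 1 (.s k85 k170 14 (.s k166 k247 12 (.s k89 k243 14 (.d k93 k81 k174 1 12))))),
  (.s k4 k8 1 (.s k85 k170 14 (.s k166 k247 12 (.s k172 k92 11 (.s k169 k163 2 (.d k253 k254 k1 0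
  13))))))] .n)

def t84_235 : T TT 256 :=
  (.q k255 [(.s k92 k172 11 (.s k93 k174 12 (.s k94 k95 0 (.s k173 k15 12 (.d k253 k254 k13 0
  11))))), (.s k4 k8 1 (.s k85 k170 14 (.s k166 k247 12 (.s k89 k243 14 (.d k93 k81 k174 1 12))))),
  (.s k4 k8 1 (.s k85 k170 14 (.s k166 k247 12 (.s k172 k92 11 (.s k169 k163 2 (.d k253 k254 k1 0
  13))))))] .n)

def t84_236 : T TT 256 :=
  (.q k255 [(.s k4 k8 1 (.s k85 k170 14 (.s k166 k247 12 (.s k93 k174 12 (.d k89 k81 k243 1 14))))),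
  (.s k92 k172 11 (.s k93 k174 12 (.s k94 k95 0 (.s k173 k15 12 (.d k253 k254 k13 0 11))))), (.s k4
  k8 1 (.s k85 k170 14 (.s k166 k247 12 (.s k172 k92 11 (.s k169 k163 2 (.d k253 k254 k1 0 13))))))]
  .n)

def t84_237 : T TT 256 :=
  (.q k255 [(.s k4 k8 1 (.s k85 k170 14 (.s k166 k247 12 (.s k93 k174 12 (.d k89 k81 k243 1 14))))),
  (.s k92 k172 11 (.s k93 k174 12 (.s k94 k95 0 (.s k173 k15 12 (.d k253 k254 k13 0 11))))), (.s k4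
  k8 1 (.s k85 k170 14 (.s k166 k247 12 (.s k172 k92 11 (.s k169 k163 2 (.d k253 k254 k1 0 13))))))]
  .n)

def t84_238 : T TT 256 :=
  (.q k255 [(.s k4 k8 1 (.s k85 k170 14 (.s k166 k247 12 (.s k89 k243 14 (.d k93 k81 k174 1 12))))),
  (.s k92 k172 11 (.s k93 k174 12 (.s k94 k95 0 (.s k173 k15 12 (.d k253 k254 k13 0 11))))), (.s k4
  k8 1 (.s k85 k170 14 (.s k166 k247 12 (.s k172 k92 11 (.s k169 k163 2 (.d k253 k254 k1 0 13))))))]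
  .n)

def t84_239 : T TT 256 :=
  (.q k255 [(.s k4 k8 1 (.s k85 k170 14 (.s k166 k247 12 (.s k89 k243 14 (.d k93 k81 k174 1 12))))),
  (.s k92 k172 11 (.s k93 k174 12 (.s k94 k95 0 (.s k173 k15 12 (.d k253 k254 k13 0 11))))), (.s k4
  k8 1 (.s k85 k170 14 (.s k166 k247 12 (.s k172 k92 11 (.s k169 k163 2 (.d k253 k254 k1 0 13))))))]
  .n)

def t84_240 : T TT 256 :=
  (.q k255 [(.s k4 k8 1 (.s k85 k170 14 (.s k166 k247 12 (.s k93 k174 12 (.d k89 k81 k243 1 14))))),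
  (.s k92 k172 11 (.s k93 k174 12 (.s k94 k95 0 (.s k173 k15 12 (.d k253 k254 k13 0 11))))), (.s k4
  k8 1 (.s k85 k170 14 (.s k166 k247 12 (.s k172 k92 11 (.s k169 k163 2 (.d k253 k254 k1 0 13))))))]
  (.c k82 (.q k161 [(.s k4 k8 1 (.s k85 k170 14 (.s k166 k247 12 (.s k93 k174 12 (.d k89 k81 k243 1
  14))))), (.s k92 k172 11 (.s k93 k174 12 (.s k94 k95 0 (.s k173 k15 12 (.d k253 k254 k13 0
  11))))), (.s k4 k8 1 (.s k85 k170 14 (.s k166 k247 12 (.s k172 k92 11 (.s k169 k163 2 (.d k253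
  k254 k1 0 13))))))] .n) (.c k161 (.q k82 [(.s k4 k8 1 (.s k85 k170 14 (.s k166 k247 12 (.s k93
  k174 12 (.d k89 k81 k243 1 14))))), (.s k92 k172 11 (.s k93 k174 12 (.s k94 k95 0 (.s k173 k15 12
  (.d k253 k254 k13 0 11))))), (.s k4 k8 1 (.s k85 k170 14 (.s k166 k247 12 (.s k172 k92 11 (.s k169
  k163 2 (.d k253 k254 k1 0 13))))))] .n) .n)))

def t84_241 : T TT 256 :=
  (.q k255 [(.s k4 k8 1 (.s k85 k170 14 (.s k166 k247 12 (.s k93 k174 12 (.d k89 k81 k243 1 14))))),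
  (.s k92 k172 11 (.s k93 k174 12 (.s k94 k95 0 (.s k173 k15 12 (.d k253 k254 k13 0 11))))), (.s k4
  k8 1 (.s k85 k170 14 (.s k166 k247 12 (.s k172 k92 11 (.s k169 k163 2 (.d k253 k254 k1 0 13))))))]
  .n)

def t84_242 : T TT 256 :=
  (.q k255 [(.s k4 k8 1 (.s k85 k170 14 (.s k166 k247 12 (.s k93 k174 12 (.d k89 k81 k243 1 14))))),
  (.s k92 k172 11 (.s k93 k174 12 (.s k94 k95 0 (.s k173 k15 12 (.d k253 k254 k13 0 11))))), (.s k4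
  k8 1 (.s k85 k170 14 (.s k166 k247 12 (.s k172 k92 11 (.s k169 k163 2 (.d k253 k254 k1 0 13))))))]
  .n)

def t84_243 : T TT 256 :=
  (.q k255 [(.s k92 k172 11 (.s k93 k174 12 (.s k94 k95 0 (.s k253 k254 0 (.d k173 k13 k15 11
  12))))), (.s k4 k8 1 (.s k85 k170 14 (.s k166 k247 12 (.s k172 k92 11 (.s k253 k254 0 (.d k169
  k163 k1 2 13))))))] (.c k83 (.q k163 [(.s k4 k8 1 (.s k85 k170 14 (.s k166 k247 12 (.d k172 k169
  k92 2 11)))), (.s k92 k172 11 (.s k93 k174 12 (.s k94 k95 0 (.s k173 k15 12 (.d k253 k254 k13 0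
  11)))))] (.c k92 (.l (.s k4 k8 1 (.s k85 k170 14 (.s k166 k247 12 (.s k169 k172 2 (.d k253 k254 k1
  0 13)))))) (.c k172 (.q k16 [(.s k8 k4 1 (.s k48 k32 3 (.s k24 k36 5 (.s k40 k56 3 (.d k20 k28 k60
  1 5))))), (.s k48 k32 3 (.s k85 k170 14 (.s k154 k223 10 (.s k101 k207 14 (.d k117 k69 k186 3
  10))))), (.s k85 k170 14 (.s k93 k174 12 (.s k223 k154 10 (.s k28 k158 8 (.s k60 k44 3 (.d k20 k24
  k40 1 5))))))] .n) .n))) (.c k92 (.l (.s k85 k170 14 (.s k93 k174 12 (.s k253 k254 0 (.s k1 k169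
  13 (.s k13 k173 11 (.s k5 k9 1 (.d k15 k14 k10 0 2)))))))) (.c k163 (.q k83 [(.s k170 k85 14 (.s
  k254 k253 0 (.s k86 k2 13 (.d k92 k89 k172 2 11)))), (.s k92 k172 11 (.s k93 k174 12 (.s k94 k95 0
  (.s k173 k15 12 (.d k253 k254 k13 0 11))))), (.s k8 k4 1 (.s k170 k85 14 (.s k89 k251 12 (.d k92
  k86 k172 2 11))))] (.c k92 (.l (.s k85 k170 14 (.s k93 k174 12 (.s k253 k254 0 (.s k1 k169 13 (.s
  k13 k173 11 (.s k5 k9 1 (.d k15 k14 k10 0 2)))))))) (.c k172 (.l (.s k8 k4 1 (.s k170 k85 14 (.s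
  k89 k251 12 (.s k86 k92 2 (.d k254 k253 k2 0 13)))))) .n))) (.c k172 (.q k16 [(.s k8 k4 1 (.s k48
  k32 3 (.s k24 k36 5 (.s k40 k56 3 (.d k20 k28 k60 1 5))))), (.s k48 k32 3 (.s k85 k170 14 (.s k154
  k223 10 (.s k101 k207 14 (.d k117 k69 k186 3 10))))), (.s k85 k170 14 (.s k93 k174 12 (.s k223
  k154 10 (.s k28 k158 8 (.s k60 k44 3 (.d k20 k24 k40 1 5))))))] (.c k83 (.q k163 [(.s k8 k4 1 (.s
  k48 k32 3 (.s k24 k36 5 (.s k40 k56 3 (.d k20 k28 k60 1 5))))), (.s k48 k32 3 (.s k85 k170 14 (.s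
  k154 k223 10 (.s k101 k207 14 (.d k117 k69 k186 3 10))))), (.s k85 k170 14 (.s k93 k174 12 (.s
  k223 k154 10 (.s k28 k158 8 (.s k60 k44 3 (.d k20 k24 k40 1 5))))))] .n) (.c k163 (.q k83 [(.s k8
  k4 1 (.s k48 k32 3 (.s k24 k36 5 (.s k40 k56 3 (.d k20 k28 k60 1 5))))), (.s k48 k32 3 (.s k85
  k170 14 (.s k154 k223 10 (.s k101 k207 14 (.d k117 k69 k186 3 10))))), (.s k8 k4 1 (.s k170 k85 14
  (.s k89 k251 12 (.s k86 k92 2 (.d k254 k253 k2 0 13)))))] (.c k166 (.q k169 [(.s k253 k254 0 (.d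
  k85 k1 k170 13 14)), (.s k48 k32 3 (.s k24 k36 5 (.s k20 k28 1 (.s k40 k60 5 (.d k8 k4 k56 1
  3)))))] .n) (.c k169 (.q k166 [(.s k4 k8 1 (.d k85 k247 k170 12 14)), (.s k170 k85 14 (.d k174
  k162 k93 1 12)), (.s k8 k4 1 (.s k48 k32 3 (.s k24 k36 5 (.s k40 k56 3 (.d k20 k28 k60 1 5)))))]
  .n) .n))) .n))) (.c k253 (.q k16 [(.s k8 k4 1 (.s k48 k32 3 (.s k24 k36 5 (.s k40 k56 3 (.d k20
  k28 k60 1 5))))), (.s k48 k32 3 (.s k85 k170 14 (.s k154 k223 10 (.s k101 k207 14 (.d k117 k69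
  k186 3 10))))), (.s k85 k170 14 (.s k93 k174 12 (.s k223 k154 10 (.s k28 k158 8 (.s k60 k44 3 (.d
  k20 k24 k40 1 5))))))] (.c k83 (.q k163 [(.s k4 k8 1 (.s k85 k170 14 (.s k166 k247 12 (.d k172
  k169 k92 2 11)))), (.s k8 k4 1 (.s k48 k32 3 (.s k24 k36 5 (.s k40 k56 3 (.d k20 k28 k60 1 5))))),
  (.s k170 k85 14 (.s k172 k92 11 (.s k174 k93 12 (.d k166 k169 k162 2 1))))] .n) (.c k163 (.q k83
  [(.s k85 k170 14 (.s k93 k174 12 (.s k89 k81 1 (.d k92 k86 k172 2 11)))), (.s k8 k4 1 (.s k48 k32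
  3 (.s k24 k36 5 (.s k40 k56 3 (.d k20 k28 k60 1 5)))))] .n) .n))) (.c k254 (.l (.s k170 k85 14 (.s
  k172 k92 11 (.s k174 k93 12 (.s k175 k173 0 (.s k160 k165 2 (.s k164 k168 1 (.d k240 k80 k88 11
  13)))))))) .n)))))))

def t84_244 : T TT 256 :=
  (.q k255 [(.s k4 k8 1 (.s k85 k170 14 (.s k93 k174 12 (.s k89 k81 1 (.d k166 k247 k243 12 14))))),
  (.s k92 k172 11 (.s k93 k174 12 (.s k94 k95 0 (.s k173 k15 12 (.d k253 k254 k13 0 11))))), (.s k4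
  k8 1 (.s k85 k170 14 (.s k166 k247 12 (.s k172 k92 11 (.s k169 k163 2 (.d k253 k254 k1 0 13))))))]
  (.c k4 (.q k164 [(.s k172 k92 11 (.s k160 k168 1 (.d k240 k80 k88 11 13))), (.s k92 k172 11 (.s
  k93 k174 12 (.s k94 k95 0 (.s k173 k15 12 (.d k253 k254 k13 0 11)))))] (.c k92 (.l (.s k85 k170 14
  (.s k240 k88 13 (.s k80 k160 11 (.s k90 k95 2 (.s k165 k15 14 (.d k245 k250 k5 2 11))))))) (.c
  k172 (.l (.s k85 k170 14 (.s k240 k88 13 (.s k80 k160 11 (.s k90 k95 2 (.s k165 k15 14 (.d k245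
  k250 k5 2 11))))))) .n))) (.c k164 (.l (.s k4 k8 1 (.s k85 k170 14 (.s k166 k247 12 (.s k89 k243
  14 (.d k93 k81 k174 1 12)))))) .n)))

def t84_245 : T TT 256 :=
  (.q k255 [(.s k4 k8 1 (.s k85 k170 14 (.s k93 k174 12 (.s k89 k81 1 (.d k166 k247 k243 12 14))))),
  (.s k92 k172 11 (.s k93 k174 12 (.s k94 k95 0 (.s k173 k15 12 (.d k253 k254 k13 0 11))))), (.s k4
  k8 1 (.s k85 k170 14 (.s k166 k247 12 (.s k172 k92 11 (.s k169 k163 2 (.d k253 k254 k1 0 13))))))]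
  .n)

def t84_246 : T TT 256 :=
  (.q k255 [(.s k4 k8 1 (.s k85 k170 14 (.s k93 k174 12 (.s k89 k81 1 (.d k166 k247 k243 12 14))))),
  (.s k92 k172 11 (.s k93 k174 12 (.s k94 k95 0 (.s k173 k15 12 (.d k253 k254 k13 0 11))))), (.s k4
  k8 1 (.s k85 k170 14 (.s k166 k247 12 (.s k172 k92 11 (.s k169 k163 2 (.d k253 k254 k1 0 13))))))]
  .n)

def t84_247 : T TT 256 :=
  (.q k255 [(.s k92 k172 11 (.s k93 k174 12 (.s k94 k95 0 (.s k173 k15 12 (.d k253 k254 k13 0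
  11))))), (.s k8 k4 1 (.s k174 k93 12 (.s k170 k85 14 (.s k166 k162 1 (.d k89 k251 k243 12 14))))),
  (.s k170 k85 14 (.s k92 k172 11 (.s k254 k253 0 (.s k86 k2 13 (.s k89 k83 2 (.d k8 k4 k251 1
  12))))))] .n)

def t84_248 : T TT 256 :=
  (.q k255 [(.s k92 k172 11 (.s k93 k174 12 (.s k94 k95 0 (.s k173 k15 12 (.d k253 k254 k13 0
  11))))), (.s k4 k8 1 (.s k85 k170 14 (.s k166 k247 12 (.s k89 k243 14 (.d k93 k81 k174 1 12))))),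
  (.s k4 k8 1 (.s k85 k170 14 (.s k166 k247 12 (.s k172 k92 11 (.s k169 k163 2 (.d k253 k254 k1 0
  13))))))] .n)

def t84_249 : T TT 256 :=
  (.q k255 [(.s k4 k8 1 (.s k85 k170 14 (.s k166 k247 12 (.s k93 k174 12 (.d k89 k81 k243 1 14))))),
  (.s k92 k172 11 (.s k93 k174 12 (.s k94 k95 0 (.s k173 k15 12 (.d k253 k254 k13 0 11))))), (.s k4
  k8 1 (.s k85 k170 14 (.s k166 k247 12 (.s k172 k92 11 (.s k169 k163 2 (.d k253 k254 k1 0 13))))))]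
  .n)

def t84_250 : T TT 256 :=
  (.q k255 [(.s k92 k172 11 (.s k93 k174 12 (.s k94 k95 0 (.s k173 k15 12 (.d k253 k254 k13 0
  11))))), (.s k4 k8 1 (.s k85 k170 14 (.s k166 k247 12 (.s k89 k243 14 (.d k93 k81 k174 1 12))))),
  (.s k4 k8 1 (.s k85 k170 14 (.s k166 k247 12 (.s k172 k92 11 (.s k169 k163 2 (.d k253 k254 k1 0
  13))))))] .n)

def t84_251 : T TT 256 :=
  (.q k255 [(.s k4 k8 1 (.s k93 k174 12 (.s k85 k170 14 (.s k89 k81 1 (.d k166 k247 k243 12 14))))),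
  (.s k92 k172 11 (.s k93 k174 12 (.s k94 k95 0 (.s k173 k15 12 (.d k253 k254 k13 0 11))))), (.s k85
  k170 14 (.s k172 k92 11 (.s k253 k254 0 (.s k169 k1 13 (.s k166 k163 2 (.d k4 k8 k247 1 12))))))]
  .n)

def t84_253 : T TT 256 :=
  (.q k20 [(.s k4 k8 1 (.s k40 k60 5 (.s k36 k52 3 (.s k48 k24 5 (.d k32 k44 k16 1 3))))), (.s k60
  k40 5 (.s k44 k28 3 (.s k172 k92 11 (.s k108 k236 7 (.s k156 k204 11 (.d k188 k140 k124 3 7))))))]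
  (.c k40 (.q k204 [(.s k4 k8 1 (.s k68 k136 9 (.s k132 k196 7 (.s k76 k140 7 (.d k72 k64 k192 1
  9))))), (.s k76 k140 7 (.s k92 k172 11 (.s k108 k124 3 (.s k156 k60 11 (.d k220 k236 k28 3 7))))),
  (.s k4 k8 1 (.s k36 k52 3 (.s k24 k48 5 (.s k92 k172 11 (.s k28 k16 1 (.d k220 k236 k156 3
  7))))))] .n) (.c k44 (.l (.s k8 k4 1 (.s k40 k60 5 (.s k24 k56 3 (.s k48 k36 5 (.d k16 k28 k32 1
  3)))))) (.c k60 (.q k164 [(.s k172 k92 11 (.s k160 k168 1 (.d k240 k80 k88 11 13))), (.s k4 k8 1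
  (.s k36 k52 3 (.s k48 k24 5 (.s k32 k16 3 (.s k100 k228 7 (.s k236 k168 9 (.d k204 k220 k152 3
  13)))))))] (.c k22 (.q k41 [(.s k172 k92 11 (.s k160 k168 1 (.d k240 k80 k88 11 13))), (.s k4 k8 1
  (.s k36 k52 3 (.s k48 k24 5 (.s k32 k16 3 (.s k100 k228 7 (.s k236 k168 9 (.d k204 k220 k152 3
  13)))))))] (.c k88 (.l (.s k4 k8 1 (.s k36 k52 3 (.s k48 k24 5 (.s k32 k16 3 (.s k100 k228 7 (.s
  k168 k236 9 (.d k172 k160 k92 1 11)))))))) (.c k168 (.l (.s k4 k8 1 (.s k36 k52 3 (.s k48 k24 5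
  (.s k88 k240 13 (.s k100 k228 7 (.s k204 k152 13 (.d k76 k112 k140 5 7)))))))) .n))) (.c k41 (.q
  k22 [(.s k172 k92 11 (.s k160 k168 1 (.d k240 k80 k88 11 13))), (.s k4 k8 1 (.s k52 k36 3 (.s k7
  k37 4 (.s k6 k5 0 (.s k38 k54 3 (.d k21 k23 k55 0 4))))))] .n) (.c k88 (.l (.s k4 k8 1 (.s k36 k52
  3 (.s k48 k24 5 (.s k32 k16 3 (.s k100 k228 7 (.s k168 k236 9 (.d k172 k160 k92 1 11)))))))) (.c
  k168 (.l (.s k4 k8 1 (.s k36 k52 3 (.s k48 k24 5 (.s k88 k240 13 (.s k100 k228 7 (.s k204 k152 13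
  (.d k76 k112 k140 5 7)))))))) .n))))) .n))))

def t84_254 : T TT 256 :=
  (.q k166 [(.s k4 k8 1 (.s k85 k247 12 (.s k170 k255 14 (.s k243 k89 14 (.d k162 k174 k81 1
  12))))), (.s k243 k89 14 (.s k162 k81 12 (.s k172 k92 11 (.s k163 k169 2 (.s k160 k161 0 (.s k164
  k168 1 (.d k240 k80 k88 11 13))))))), (.s k8 k4 1 (.s k89 k243 14 (.s k170 k251 12 (.s k255 k85 14
  (.d k174 k162 k93 1 12)))))] (.c k85 (.q k86 [(.s k246 k6 11 (.d k243 k249 k89 2 14)), (.s k89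
  k243 14 (.d k92 k83 k172 2 11)), (.s k4 k8 1 (.s k6 k246 11 (.s k5 k7 0 (.s k15 k10 2 (.s k14 k13
  0 (.s k94 k173 12 (.d k90 k242 k82 13 1)))))))] .n) (.c k89 (.q k15 [(.s k13 k14 0 (.s k172 k92 11
  (.s k173 k94 12 (.s k174 k175 0 (.d k93 k253 k255 11 12))))), (.s k4 k8 1 (.s k5 k10 2 (.s k85
  k247 12 (.s k165 k245 11 (.s k14 k13 0 (.d k90 k242 k240 13 14))))))] (.c k13 (.l (.s k172 k92 11
  (.s k173 k94 12 (.s k174 k175 0 (.s k170 k162 1 (.d k255 k93 k85 12 14)))))) (.c k14 (.l (.s k172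
  k92 11 (.s k173 k94 12 (.s k174 k175 0 (.s k170 k162 1 (.d k255 k93 k85 12 14)))))) .n))) (.c k162
  (.l (.s k4 k8 1 (.s k85 k247 12 (.s k255 k170 14 (.s k89 k243 14 (.d k93 k81 k174 1 12)))))) (.c
  k170 (.q k86 [(.s k246 k6 11 (.d k243 k249 k89 2 14)), (.s k89 k243 14 (.d k92 k83 k172 2 11))]
  (.c k89 (.q k15 [(.s k5 k10 2 (.s k6 k246 11 (.d k4 k8 k7 1 0))), (.s k14 k13 0 (.s k94 k173 12
  (.d k90 k82 k242 1 13))), (.s k10 k5 2 (.s k14 k13 0 (.d k6 k2 k246 1 11)))] (.c k8 (.q k251 [(.s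
  k10 k5 2 (.s k6 k246 11 (.d k14 k13 k2 0 1))), (.s k14 k13 0 (.s k94 k173 12 (.d k90 k82 k242 1
  13))), (.s k5 k10 2 (.s k6 k246 11 (.s k7 k4 0 (.s k165 k244 12 (.s k164 k167 0 (.d k240 k90 k88
  14 13))))))] (.c k242 (.l (.s k10 k5 2 (.s k14 k13 0 (.d k6 k2 k246 1 11)))) .n)) (.c k251 (.l (.s
  k8 k4 1 (.s k10 k5 2 (.s k6 k246 11 (.d k14 k13 k2 0 1))))) .n))) (.c k243 (.l (.s k4 k8 1 (.s
  k247 k85 12 (.s k6 k246 11 (.s k7 k5 0 (.s k165 k244 12 (.d k167 k164 k87 0 11))))))) .n))) (.c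
  k243 (.f k92 k172 11 (.q k15 [(.s k4 k8 1 (.s k85 k247 12 (.s k94 k173 12 (.s k93 k95 0 (.d k255
  k174 k170 12 14))))), (.s k10 k5 2 (.s k14 k13 0 (.s k6 k2 1 (.s k86 k246 11 (.s k94 k173 12 (.d
  k90 k242 k82 13 1)))))), (.s k4 k8 1 (.s k5 k10 2 (.s k85 k247 12 (.s k165 k245 11 (.s k14 k13 0
  (.d k90 k242 k240 13 14))))))] (.c k83 (.q k163 [(.s k4 k8 1 (.s k85 k247 12 (.s k94 k173 12 (.s
  k93 k95 0 (.d k255 k174 k170 12 14))))), (.s k10 k5 2 (.s k14 k13 0 (.s k6 k2 1 (.s k86 k246 11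
  (.s k94 k173 12 (.d k90 k242 k82 13 1)))))), (.s k4 k8 1 (.s k5 k10 2 (.s k85 k247 12 (.s k165
  k245 11 (.s k14 k13 0 (.d k90 k242 k240 13 14))))))] .n) (.c k163 (.q k83 [(.s k4 k8 1 (.s k5 k10
  2 (.s k6 k7 0 (.d k86 k89 k246 2 11)))), (.s k4 k8 1 (.s k85 k247 12 (.s k94 k173 12 (.s k93 k95 0
  (.d k255 k174 k170 12 14))))), (.s k10 k5 2 (.s k14 k13 0 (.s k6 k2 1 (.d k86 k89 k246 2 11))))]
  .n) .n)))) .n))))))

def t84_255 : T TT 256 :=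
  (.q k204 [(.s k4 k8 1 (.s k68 k136 9 (.s k132 k196 7 (.s k76 k140 7 (.d k72 k64 k192 1 9))))), (.s
  k76 k140 7 (.s k92 k172 11 (.s k108 k124 3 (.s k156 k60 11 (.d k220 k236 k28 3 7)))))] (.c k64 (.l
  (.s k8 k4 1 (.s k136 k68 9 (.s k72 k200 7 (.s k132 k192 9 (.d k140 k76 k128 7 1)))))) (.c k76 (.q
  k20 [(.s k60 k40 5 (.s k28 k44 3 (.s k92 k172 11 (.d k156 k108 k220 11 7)))), (.s k4 k8 1 (.s k40
  k60 5 (.s k36 k52 3 (.s k48 k24 5 (.d k32 k44 k16 1 3))))), (.s k4 k8 1 (.s k36 k52 3 (.s k24 k48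
  5 (.s k92 k172 11 (.s k28 k16 1 (.d k220 k236 k156 3 7))))))] (.c k36 (.l (.s k60 k40 5 (.s k44
  k28 3 (.s k172 k92 11 (.d k108 k156 k236 11 7))))) (.c k60 (.l (.s k4 k8 1 (.s k36 k52 3 (.s k92
  k172 11 (.s k220 k236 3 (.s k28 k156 7 (.d k24 k48 k16 5 1))))))) (.c k87 (.q k171 [(.s k60 k40 5
  (.s k28 k44 3 (.s k92 k172 11 (.d k156 k108 k220 11 7)))), (.s k4 k8 1 (.s k40 k60 5 (.s k36 k52 3
  (.s k48 k24 5 (.d k32 k44 k16 1 3))))), (.s k4 k8 1 (.s k36 k52 3 (.s k24 k48 5 (.s k92 k172 11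
  (.s k28 k16 1 (.d k220 k236 k156 3 7))))))] (.c k36 (.l (.s k60 k40 5 (.s k44 k28 3 (.s k172 k92
  11 (.d k108 k156 k236 11 7))))) (.c k60 (.l (.s k4 k8 1 (.s k36 k52 3 (.s k92 k172 11 (.s k220
  k236 3 (.s k28 k156 7 (.d k24 k48 k16 5 1))))))) (.c k85 (.q k86 [(.s k60 k40 5 (.s k28 k44 3 (.s
  k92 k172 11 (.d k156 k108 k220 11 7)))), (.s k4 k8 1 (.s k40 k60 5 (.s k36 k52 3 (.s k48 k24 5 (.d
  k32 k44 k16 1 3))))), (.s k4 k8 1 (.s k36 k52 3 (.s k24 k48 5 (.s k92 k172 11 (.s k28 k16 1 (.d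
  k220 k236 k156 3 7))))))] (.c k36 (.l (.s k60 k40 5 (.s k44 k28 3 (.s k172 k92 11 (.d k108 k156
  k236 11 7))))) (.c k60 (.l (.s k4 k8 1 (.s k36 k52 3 (.s k92 k172 11 (.s k220 k236 3 (.s k28 k156
  7 (.d k24 k48 k16 5 1))))))) .n))) (.c k86 (.q k85 [(.s k60 k40 5 (.s k28 k44 3 (.s k92 k172 11
  (.d k156 k108 k220 11 7)))), (.s k4 k8 1 (.s k68 k136 9 (.s k166 k247 12 (.s k243 k89 14 (.s k102
  k119 4 (.d k230 k217 k38 6 7))))))] (.c k92 (.l (.s k4 k8 1 (.s k40 k60 5 (.s k36 k52 3 (.s k48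
  k24 5 (.d k32 k44 k16 1 3)))))) .n)) .n))))) (.c k171 (.q k87 [(.s k60 k40 5 (.s k28 k44 3 (.s k92
  k172 11 (.d k156 k108 k220 11 7)))), (.s k4 k8 1 (.s k40 k60 5 (.s k36 k52 3 (.s k48 k24 5 (.d k32
  k44 k16 1 3))))), (.s k4 k8 1 (.s k36 k52 3 (.s k24 k48 5 (.s k92 k172 11 (.s k28 k16 1 (.d k220
  k236 k156 3 7))))))] (.c k36 (.l (.s k60 k40 5 (.s k44 k28 3 (.s k172 k92 11 (.d k108 k156 k236 11
  7))))) (.c k60 (.l (.s k4 k8 1 (.s k36 k52 3 (.s k92 k172 11 (.s k220 k236 3 (.s k28 k156 7 (.d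
  k24 k48 k16 5 1))))))) .n))) .n))))) (.c k87 (.q k171 [(.s k4 k8 1 (.s k68 k136 9 (.s k132 k196 7
  (.s k76 k140 7 (.d k72 k64 k192 1 9))))), (.s k76 k140 7 (.s k92 k172 11 (.s k108 k124 3 (.s k156
  k60 11 (.d k220 k236 k28 3 7)))))] (.c k64 (.l (.s k8 k4 1 (.s k136 k68 9 (.s k72 k200 7 (.s k132
  k192 9 (.d k140 k76 k128 7 1)))))) (.c k76 (.q k85 [(.s k68 k136 9 (.s k102 k119 4 (.s k51 k153 14
  (.s k34 k17 4 (.s k170 k238 9 (.s k169 k168 0 (.d k236 k220 k35 3 10))))))), (.s k4 k8 1 (.s k166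
  k247 12 (.s k172 k92 11 (.s k169 k163 2 (.s k170 k168 0 (.s k162 k174 1 (.d k243 k81 k89 12
  14))))))), (.s k4 k8 1 (.s k68 k136 9 (.s k196 k132 7 (.s k247 k166 12 (.s k102 k119 4 (.s k149
  k55 12 (.d k213 k230 k21 4 7)))))))] .n) (.c k85 (.q k86 [(.s k4 k8 1 (.s k68 k136 9 (.s k132 k196
  7 (.s k76 k140 7 (.d k72 k64 k192 1 9))))), (.s k92 k172 11 (.s k89 k83 2 (.s k243 k166 14 (.s
  k217 k230 6 (.s k153 k25 7 (.d k220 k236 k19 3 10))))))] (.c k4 (.l (.s k76 k140 7 (.s k92 k172 11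
  (.s k108 k124 3 (.s k156 k60 11 (.d k220 k236 k28 3 7)))))) .n)) (.c k86 (.q k85 [(.s k4 k8 1 (.s
  k68 k136 9 (.s k132 k196 7 (.s k76 k140 7 (.d k72 k64 k192 1 9))))), (.s k76 k140 7 (.s k92 k172
  11 (.s k108 k124 3 (.s k156 k60 11 (.d k220 k236 k28 3 7))))), (.s k4 k8 1 (.s k68 k136 9 (.s k166
  k247 12 (.s k243 k89 14 (.s k102 k119 4 (.d k230 k217 k38 6 7))))))] .n) (.c k140 (.q k85 [(.s k4
  k8 1 (.s k166 k247 12 (.s k243 k89 14 (.s k230 k217 6 (.s k102 k38 7 (.d k68 k119 k136 4 9)))))),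
  (.s k68 k136 9 (.s k102 k119 4 (.s k236 k220 3 (.s k169 k35 10 (.s k170 k168 0 (.s k34 k238 9 (.d
  k51 k17 k153 4 14))))))), (.s k4 k8 1 (.s k166 k247 12 (.s k243 k89 14 (.s k162 k81 12 (.s k172
  k92 11 (.s k170 k174 1 (.d k169 k168 k163 0 2)))))))] (.c k170 (.l (.s k4 k8 1 (.s k68 k136 9 (.s
  k166 k247 12 (.s k102 k119 4 (.s k38 k230 7 (.d k51 k153 k25 14 6))))))) .n)) .n)))))) (.c k140
  (.q k20 [(.s k60 k40 5 (.s k44 k28 3 (.s k172 k92 11 (.d k108 k156 k236 11 7)))), (.s k4 k8 1 (.s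
  k40 k60 5 (.s k36 k52 3 (.s k48 k24 5 (.d k32 k44 k16 1 3))))), (.s k4 k8 1 (.s k36 k52 3 (.s k24
  k48 5 (.s k92 k172 11 (.s k28 k16 1 (.d k220 k156 k236 7 3))))))] (.c k60 (.l (.s k4 k8 1 (.s k36
  k52 3 (.s k48 k24 5 (.s k172 k92 11 (.s k236 k220 3 (.s k44 k108 7 (.d k32 k40 k16 1 3)))))))) (.c
  k87 (.q k171 [(.s k60 k40 5 (.s k44 k28 3 (.s k172 k92 11 (.d k108 k156 k236 11 7)))), (.s k4 k8 1
  (.s k40 k60 5 (.s k36 k52 3 (.s k48 k24 5 (.d k32 k44 k16 1 3))))), (.s k4 k8 1 (.s k36 k52 3 (.s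
  k24 k48 5 (.s k92 k172 11 (.s k28 k16 1 (.d k220 k156 k236 7 3))))))] (.c k60 (.l (.s k4 k8 1 (.s
  k36 k52 3 (.s k48 k24 5 (.s k172 k92 11 (.s k236 k220 3 (.s k44 k108 7 (.d k32 k40 k16 1 3))))))))
  (.c k85 (.q k86 [(.s k60 k40 5 (.s k44 k28 3 (.s k172 k92 11 (.d k108 k156 k236 11 7)))), (.s k4
  k8 1 (.s k40 k60 5 (.s k36 k52 3 (.s k48 k24 5 (.d k32 k44 k16 1 3))))), (.s k92 k172 11 (.s k89
  k83 2 (.s k243 k166 14 (.s k217 k230 6 (.s k153 k25 7 (.d k220 k236 k19 3 10))))))] .n) (.c k86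
  (.q k85 [(.s k60 k40 5 (.s k28 k44 3 (.s k92 k172 11 (.d k156 k108 k220 11 7)))), (.s k4 k8 1 (.s
  k68 k136 9 (.s k166 k247 12 (.s k243 k89 14 (.s k102 k119 4 (.d k230 k217 k38 6 7))))))] (.c k92
  (.l (.s k4 k8 1 (.s k40 k60 5 (.s k36 k52 3 (.s k48 k24 5 (.d k32 k44 k16 1 3)))))) .n)) .n))))
  (.c k171 (.q k87 [(.s k60 k40 5 (.s k44 k28 3 (.s k172 k92 11 (.d k108 k156 k236 11 7)))), (.s k4
  k8 1 (.s k40 k60 5 (.s k36 k52 3 (.s k48 k24 5 (.d k32 k44 k16 1 3))))), (.s k4 k8 1 (.s k36 k52 3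
  (.s k24 k48 5 (.s k92 k172 11 (.s k28 k16 1 (.d k220 k156 k236 7 3))))))] (.c k60 (.l (.s k4 k8 1
  (.s k36 k52 3 (.s k48 k24 5 (.s k172 k92 11 (.s k236 k220 3 (.s k44 k108 7 (.d k32 k40 k16 1
  3)))))))) .n)) .n)))) (.c k171 (.q k87 [(.s k4 k8 1 (.s k68 k136 9 (.s k132 k196 7 (.s k76 k140 7
  (.d k72 k64 k192 1 9))))), (.s k76 k140 7 (.s k92 k172 11 (.s k108 k124 3 (.s k156 k60 11 (.d k220
  k236 k28 3 7)))))] (.c k64 (.l (.s k8 k4 1 (.s k136 k68 9 (.s k72 k200 7 (.s k132 k192 9 (.d k140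
  k76 k128 7 1)))))) (.c k76 (.q k20 [(.s k60 k40 5 (.s k28 k44 3 (.s k92 k172 11 (.d k156 k108 k220
  11 7)))), (.s k4 k8 1 (.s k40 k60 5 (.s k36 k52 3 (.s k48 k24 5 (.d k32 k44 k16 1 3))))), (.s k4
  k8 1 (.s k36 k52 3 (.s k24 k48 5 (.s k92 k172 11 (.s k28 k16 1 (.d k220 k236 k156 3 7))))))] (.c
  k36 (.l (.s k60 k40 5 (.s k44 k28 3 (.s k172 k92 11 (.d k108 k156 k236 11 7))))) (.c k60 (.l (.s
  k4 k8 1 (.s k36 k52 3 (.s k92 k172 11 (.s k220 k236 3 (.s k28 k156 7 (.d k24 k48 k16 5 1)))))))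
  .n))) (.c k140 (.q k20 [(.s k60 k40 5 (.s k44 k28 3 (.s k172 k92 11 (.d k108 k156 k236 11 7)))),
  (.s k4 k8 1 (.s k40 k60 5 (.s k36 k52 3 (.s k48 k24 5 (.d k32 k44 k16 1 3))))), (.s k4 k8 1 (.s
  k36 k52 3 (.s k24 k48 5 (.s k92 k172 11 (.s k28 k16 1 (.d k220 k156 k236 7 3))))))] (.c k60 (.l
  (.s k4 k8 1 (.s k36 k52 3 (.s k48 k24 5 (.s k172 k92 11 (.s k236 k220 3 (.s k44 k108 7 (.d k32 k40
  k16 1 3)))))))) .n)) .n)))) .n))))))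

def t84 : T TT 256 :=
  (.q k12 [] (.c k1 t84_1 (.c k2 t84_2 (.c k4 t84_4 (.c k5 t84_5 (.c k6 t84_6 (.c k7 t84_7 (.c k8
  t84_8 (.c k9 t84_9 (.c k10 t84_10 (.c k11 t84_11 (.c k13 t84_13 (.c k14 t84_14 (.c k15 t84_15 (.c
  k16 t84_16 (.c k17 t84_17 (.c k18 t84_18 (.c k19 t84_19 (.c k20 t84_20 (.c k21 t84_21 (.c k22
  t84_22 (.c k23 t84_23 (.c k24 t84_24 (.c k25 t84_25 (.c k26 t84_26 (.c k27 t84_27 (.c k28 t84_28
  (.c k29 t84_29 (.c k30 t84_30 (.c k31 t84_31 (.c k32 t84_32 (.c k33 t84_33 (.c k34 t84_34 (.c k35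
  t84_35 (.c k36 t84_36 (.c k37 t84_37 (.c k38 t84_38 (.c k39 t84_39 (.c k40 t84_40 (.c k41 t84_41
  (.c k42 t84_42 (.c k43 t84_43 (.c k44 t84_44 (.c k45 t84_45 (.c k46 t84_46 (.c k47 t84_47 (.c k48
  t84_48 (.c k49 t84_49 (.c k50 t84_50 (.c k51 t84_51 (.c k52 t84_52 (.c k53 t84_53 (.c k54 t84_54
  (.c k55 t84_55 (.c k56 t84_56 (.c k57 t84_57 (.c k58 t84_58 (.c k59 t84_59 (.c k60 t84_60 (.c k61
  t84_61 (.c k62 t84_62 (.c k63 t84_63 (.c k64 t84_64 (.c k65 t84_65 (.c k66 t84_66 (.c k67 t84_67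
  (.c k68 t84_68 (.c k69 t84_69 (.c k70 t84_70 (.c k71 t84_71 (.c k72 t84_72 (.c k73 t84_73 (.c k74
  t84_74 (.c k75 t84_75 (.c k76 t84_76 (.c k77 t84_77 (.c k78 t84_78 (.c k79 t84_79 (.c k80 t84_80
  (.c k81 t84_81 (.c k82 t84_82 (.c k83 t84_83 (.c k85 t84_85 (.c k86 t84_86 (.c k87 t84_87 (.c k88
  t84_88 (.c k89 t84_89 (.c k90 t84_90 (.c k91 t84_91 (.c k92 t84_92 (.c k93 t84_93 (.c k94 t84_94
  (.c k95 t84_95 (.c k96 t84_96 (.c k97 t84_97 (.c k98 t84_98 (.c k99 t84_99 (.c k100 t84_100 (.c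
  k101 t84_101 (.c k102 t84_102 (.c k103 t84_103 (.c k104 t84_104 (.c k105 t84_105 (.c k106 t84_106
  (.c k107 t84_107 (.c k108 t84_108 (.c k109 t84_109 (.c k110 t84_110 (.c k111 t84_111 (.c k112
  t84_112 (.c k113 t84_113 (.c k114 t84_114 (.c k115 t84_115 (.c k116 t84_116 (.c k117 t84_117 (.c
  k118 t84_118 (.c k119 t84_119 (.c k120 t84_120 (.c k121 t84_121 (.c k122 t84_122 (.c k123 t84_123
  (.c k124 t84_124 (.c k125 t84_125 (.c k126 t84_126 (.c k127 t84_127 (.c k128 t84_128 (.c k129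
  t84_129 (.c k130 t84_130 (.c k131 t84_131 (.c k132 t84_132 (.c k133 t84_133 (.c k134 t84_134 (.c
  k135 t84_135 (.c k136 t84_136 (.c k137 t84_137 (.c k138 t84_138 (.c k139 t84_139 (.c k140 t84_140
  (.c k141 t84_141 (.c k142 t84_142 (.c k143 t84_143 (.c k144 t84_144 (.c k145 t84_145 (.c k146
  t84_146 (.c k147 t84_147 (.c k148 t84_148 (.c k149 t84_149 (.c k150 t84_150 (.c k151 t84_151 (.c
  k152 t84_152 (.c k153 t84_153 (.c k154 t84_154 (.c k155 t84_155 (.c k156 t84_156 (.c k157 t84_157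
  (.c k158 t84_158 (.c k159 t84_159 (.c k160 t84_160 (.c k161 t84_161 (.c k162 t84_162 (.c k163
  t84_163 (.c k164 t84_164 (.c k165 t84_165 (.c k166 t84_166 (.c k167 t84_167 (.c k168 t84_168 (.c
  k169 t84_169 (.c k170 t84_170 (.c k171 t84_171 (.c k172 t84_172 (.c k173 t84_173 (.c k174 t84_174
  (.c k175 t84_175 (.c k176 t84_176 (.c k177 t84_177 (.c k178 t84_178 (.c k179 t84_179 (.c k180
  t84_180 (.c k181 t84_181 (.c k182 t84_182 (.c k183 t84_183 (.c k184 t84_184 (.c k185 t84_185 (.c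
  k186 t84_186 (.c k187 t84_187 (.c k188 t84_188 (.c k189 t84_189 (.c k190 t84_190 (.c k191 t84_191
  (.c k192 t84_192 (.c k193 t84_193 (.c k194 t84_194 (.c k195 t84_195 (.c k196 t84_196 (.c k197
  t84_197 (.c k198 t84_198 (.c k199 t84_199 (.c k200 t84_200 (.c k201 t84_201 (.c k202 t84_202 (.c
  k203 t84_203 (.c k204 t84_204 (.c k205 t84_205 (.c k206 t84_206 (.c k207 t84_207 (.c k208 t84_208
  (.c k209 t84_209 (.c k210 t84_210 (.c k211 t84_211 (.c k212 t84_212 (.c k213 t84_213 (.c k214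
  t84_214 (.c k215 t84_215 (.c k216 t84_216 (.c k217 t84_217 (.c k218 t84_218 (.c k219 t84_219 (.c
  k220 t84_220 (.c k221 t84_221 (.c k222 t84_222 (.c k223 t84_223 (.c k224 t84_224 (.c k225 t84_225
  (.c k226 t84_226 (.c k227 t84_227 (.c k228 t84_228 (.c k229 t84_229 (.c k230 t84_230 (.c k231
  t84_231 (.c k232 t84_232 (.c k233 t84_233 (.c k234 t84_234 (.c k235 t84_235 (.c k236 t84_236 (.c
  k237 t84_237 (.c k238 t84_238 (.c k239 t84_239 (.c k240 t84_240 (.c k241 t84_241 (.c k242 t84_242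
  (.c k243 t84_243 (.c k244 t84_244 (.c k245 t84_245 (.c k246 t84_246 (.c k247 t84_247 (.c k248
  t84_248 (.c k249 t84_249 (.c k250 t84_250 (.c k251 t84_251 (.c k253 t84_253 (.c k254 t84_254 (.c
  k255 t84_255 .n))))))))))))))))))))))))))))))))))))))))))))))))))))))))))))))))))))))))))))))))
  ))))))))))))))))))))))))))))))))))))))))))))))))))))))))))))))))))))))))))))))))
  )))))))))))))))))))))))))))))))))))))))))))))))))))))))))))))))))))))))))))))))) ))))))))))))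

def t85 : T TT 256 :=
  (.q k60 [(.s k20 k40 5 (.s k84 k168 13 (.s k148 k212 7 (.s k124 k188 7 (.d k104 k64 k192 5
  13)))))] (.c k20 (.q k12 [(.s k4 k8 1 (.s k84 k168 13 (.s k164 k244 11 (.s k92 k172 11 (.d k88 k80
  k240 1 13))))), (.s k28 k44 3 (.s k92 k172 11 (.s k156 k220 7 (.s k108 k204 11 (.d k124 k76 k188 3
  7))))), (.s k4 k8 1 (.s k84 k168 13 (.s k164 k244 11 (.s k44 k28 3 (.s k104 k224 9 (.d k124 k64
  k188 5 7))))))] (.c k150 (.q k215 [(.s k4 k8 1 (.s k84 k168 13 (.s k164 k244 11 (.s k92 k172 11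
  (.d k88 k80 k240 1 13))))), (.s k28 k44 3 (.s k92 k172 11 (.s k156 k220 7 (.s k108 k204 11 (.d
  k124 k76 k188 3 7))))), (.s k4 k8 1 (.s k84 k168 13 (.s k164 k244 11 (.s k44 k28 3 (.s k104 k224 9
  (.d k124 k64 k188 5 7))))))] .n) (.c k215 (.q k150 [(.s k4 k8 1 (.s k84 k168 13 (.s k164 k244 11
  (.s k92 k172 11 (.d k88 k80 k240 1 13))))), (.s k28 k44 3 (.s k89 k211 10 (.s k166 k243 14 (.s
  k195 k105 14 (.d k134 k182 k73 3 10)))))] .n) .n))) (.c k40 (.q k12 [(.s k28 k44 3 (.s k92 k172 11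
  (.s k156 k220 7 (.s k108 k204 11 (.d k124 k76 k188 3 7))))), (.s k4 k8 1 (.s k84 k168 13 (.s k164
  k244 11 (.s k88 k240 13 (.d k92 k80 k172 1 11))))), (.s k4 k8 1 (.s k84 k168 13 (.s k164 k244 11
  (.s k44 k28 3 (.s k104 k224 9 (.d k124 k64 k188 5 7))))))] .n) (.c k64 (.l (.s k40 k20 5 (.s k168
  k84 13 (.s k104 k232 7 (.s k148 k192 13 (.d k188 k124 k128 7 5)))))) (.c k84 (.f k124 k188 7 (.f
  k20 k40 5 (.q k12 [(.s k4 k8 1 (.s k36 k52 3 (.s k28 k44 3 (.d k24 k16 k48 1 5)))), (.s k92 k172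
  11 (.s k108 k76 3 (.s k156 k204 11 (.d k28 k44 k220 3 7))))] (.c k28 (.q k204 [(.s k76 k140 7 (.d
  k92 k172 k108 11 3)), (.s k4 k8 1 (.s k68 k136 9 (.s k52 k36 3 (.s k196 k132 7 (.s k100 k148 11
  (.d k48 k56 k152 1 13))))))] (.c k86 (.q k87 [(.s k76 k140 7 (.d k92 k172 k108 11 3)), (.s k4 k8 1
  (.s k68 k136 9 (.s k52 k36 3 (.s k196 k132 7 (.s k100 k148 11 (.d k48 k56 k152 1 13))))))] (.c
  k140 (.l (.s k4 k8 1 (.s k68 k136 9 (.s k132 k196 7 (.s k72 k192 9 (.s k76 k64 1 (.d k92 k108 k172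
  3 11))))))) .n)) (.c k87 (.q k86 [(.s k76 k140 7 (.d k92 k172 k108 11 3)), (.s k4 k8 1 (.s k68
  k136 9 (.s k132 k196 7 (.s k72 k192 9 (.d k76 k64 k140 1 7))))), (.s k156 k108 11 (.s k105 k67 6
  (.s k220 k236 3 (.s k153 k19 10 (.d k150 k195 k147 14 2)))))] (.c k171 (.q k255 [(.s k76 k140 7
  (.d k92 k172 k108 11 3)), (.s k125 k190 8 (.s k126 k127 0 (.s k189 k63 8 (.d k253 k254 k61 0
  7))))] .n) (.c k255 (.q k171 [(.s k76 k140 7 (.d k92 k172 k108 11 3)), (.s k4 k8 1 (.s k68 k136 9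
  (.s k132 k196 7 (.s k72 k192 9 (.d k76 k64 k140 1 7))))), (.s k156 k108 11 (.s k105 k67 6 (.s k220
  k236 3 (.s k153 k19 10 (.d k150 k195 k147 14 2)))))] .n) .n))) (.c k140 (.l (.s k4 k8 1 (.s k68
  k136 9 (.s k132 k196 7 (.s k72 k192 9 (.s k76 k64 1 (.d k92 k108 k172 3 11))))))) .n)))) (.c k44
  (.l (.s k4 k8 1 (.s k36 k52 3 (.s k24 k48 5 (.s k92 k172 11 (.s k28 k16 1 (.s k108 k76 3 (.d k156
  k220 k204 7 11)))))))) (.c k86 (.q k87 [(.s k4 k8 1 (.s k36 k52 3 (.s k28 k44 3 (.d k24 k16 k48 1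
  5)))), (.s k92 k172 11 (.s k108 k76 3 (.s k156 k204 11 (.d k28 k44 k220 3 7))))] (.c k28 (.q k204
  [(.s k76 k140 7 (.d k92 k172 k108 11 3)), (.s k4 k8 1 (.s k68 k136 9 (.s k52 k36 3 (.s k196 k132 7
  (.s k100 k148 11 (.d k48 k56 k152 1 13))))))] (.c k140 (.l (.s k4 k8 1 (.s k68 k136 9 (.s k132
  k196 7 (.s k72 k192 9 (.s k76 k64 1 (.d k92 k108 k172 3 11))))))) .n)) (.c k44 (.l (.s k4 k8 1 (.s
  k36 k52 3 (.s k24 k48 5 (.s k92 k172 11 (.s k28 k16 1 (.s k108 k76 3 (.d k156 k220 k204 7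
  11)))))))) .n))) (.c k87 (.q k86 [(.s k4 k8 1 (.s k36 k52 3 (.s k28 k44 3 (.d k24 k16 k48 1 5)))),
  (.s k92 k172 11 (.s k105 k67 6 (.s k195 k150 14 (.s k73 k134 10 (.d k89 k83 k121 2 3)))))] (.c
  k171 (.q k255 [(.s k4 k8 1 (.s k36 k52 3 (.s k28 k44 3 (.d k24 k16 k48 1 5)))), (.s k125 k190 8
  (.s k126 k127 0 (.s k189 k63 8 (.d k253 k254 k61 0 7))))] .n) (.c k255 (.q k171 [(.s k4 k8 1 (.s
  k36 k52 3 (.s k28 k44 3 (.d k24 k16 k48 1 5)))), (.s k92 k172 11 (.s k105 k67 6 (.s k195 k150 14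
  (.s k73 k134 10 (.d k89 k83 k121 2 3)))))] .n) .n))) .n))))))) (.c k104 (.q k12 [(.s k4 k8 1 (.s
  k20 k40 5 (.s k36 k52 3 (.s k24 k48 5 (.d k28 k16 k44 1 3))))), (.s k28 k44 3 (.s k92 k172 11 (.s
  k156 k220 7 (.s k108 k204 11 (.d k124 k76 k188 3 7))))), (.s k4 k8 1 (.s k84 k168 13 (.s k164 k244
  11 (.s k88 k240 13 (.d k92 k80 k172 1 11)))))] .n) (.c k124 (.q k12 [(.s k4 k8 1 (.s k20 k40 5 (.s
  k36 k52 3 (.s k28 k44 3 (.d k24 k16 k48 1 5))))), (.s k4 k8 1 (.s k84 k168 13 (.s k164 k244 11 (.s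
  k88 k240 13 (.d k92 k80 k172 1 11))))), (.s k20 k40 5 (.s k84 k168 13 (.s k28 k44 3 (.s k92 k172
  11 (.s k148 k212 7 (.d k88 k80 k208 1 9))))))] .n) (.c k148 (.q k12 [(.s k28 k44 3 (.s k92 k172 11
  (.s k156 k220 7 (.s k108 k204 11 (.d k124 k76 k188 3 7))))), (.s k4 k8 1 (.s k20 k40 5 (.s k36 k52
  3 (.s k24 k48 5 (.d k28 k16 k44 1 3))))), (.s k4 k8 1 (.s k84 k168 13 (.s k164 k244 11 (.s k88
  k240 13 (.d k92 k80 k172 1 11)))))] .n) (.c k168 (.q k12 [(.s k28 k44 3 (.s k92 k172 11 (.s k156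
  k220 7 (.s k108 k204 11 (.d k124 k76 k188 3 7))))), (.s k4 k8 1 (.s k20 k40 5 (.s k36 k52 3 (.s
  k24 k48 5 (.d k28 k16 k44 1 3)))))] (.c k28 (.q k255 [(.s k92 k172 11 (.s k93 k174 12 (.s k253
  k254 0 (.s k173 k13 11 (.d k94 k95 k15 0 12))))), (.s k124 k188 7 (.s k125 k190 8 (.s k126 k127 0
  (.s k189 k63 8 (.d k253 k254 k61 0 7))))), (.s k92 k172 11 (.s k93 k174 12 (.s k124 k188 7 (.s
  k125 k190 8 (.s k76 k108 3 (.d k127 k126 k110 0 4))))))] .n) (.c k44 (.q k255 [(.s k172 k92 11 (.s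
  k174 k93 12 (.s k173 k175 0 (.s k94 k15 12 (.d k254 k253 k14 0 11))))), (.s k124 k188 7 (.s k125
  k190 8 (.s k126 k127 0 (.s k189 k63 8 (.d k253 k254 k61 0 7))))), (.s k92 k172 11 (.s k93 k174 12
  (.s k124 k188 7 (.s k125 k190 8 (.s k109 k77 3 (.d k94 k95 k79 0 4))))))] .n) .n))) (.c k188 (.q
  k12 [(.s k4 k8 1 (.s k20 k40 5 (.s k36 k52 3 (.s k28 k44 3 (.d k24 k16 k48 1 5))))), (.s k4 k8 1
  (.s k84 k168 13 (.s k164 k244 11 (.s k88 k240 13 (.d k92 k80 k172 1 11))))), (.s k20 k40 5 (.s k84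
  k168 13 (.s k28 k44 3 (.s k92 k172 11 (.s k148 k212 7 (.d k88 k80 k208 1 9))))))] .n) (.c k192 (.f
  k20 k40 5 (.f k124 k188 7 (.q k12 [(.s k4 k8 1 (.s k36 k52 3 (.s k28 k44 3 (.d k24 k16 k48 1
  5)))), (.s k92 k172 11 (.s k108 k76 3 (.s k156 k204 11 (.d k28 k44 k220 3 7)))), (.s k4 k8 1 (.s
  k84 k168 13 (.s k164 k244 11 (.s k88 k240 13 (.d k92 k80 k172 1 11)))))] (.c k66 (.q k129 [(.s k4
  k8 1 (.s k36 k52 3 (.s k28 k44 3 (.d k24 k16 k48 1 5)))), (.s k92 k172 11 (.s k108 k76 3 (.s k156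
  k204 11 (.d k28 k44 k220 3 7)))), (.s k4 k8 1 (.s k84 k168 13 (.s k164 k244 11 (.s k88 k240 13 (.d
  k92 k80 k172 1 11)))))] .n) (.c k129 (.q k66 [(.s k4 k8 1 (.s k36 k52 3 (.s k28 k44 3 (.d k24 k16
  k48 1 5)))), (.s k92 k172 11 (.s k108 k76 3 (.s k156 k204 11 (.d k28 k44 k220 3 7)))), (.s k4 k8 1
  (.s k84 k168 13 (.s k164 k244 11 (.s k88 k240 13 (.d k92 k80 k172 1 11)))))] .n) .n))))) (.c k212
  (.l (.s k40 k20 5 (.s k188 k124 7 (.s k168 k84 13 (.s k148 k128 5 (.d k104 k232 k192 7 13))))))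
  (.c k232 (.l (.s k20 k40 5 (.s k124 k188 7 (.s k84 k168 13 (.s k104 k64 5 (.d k148 k212 k192 7
  13)))))) .n)))))))))))))

def t86 : T TT 256 :=
  (.q k48 [(.s k16 k32 3 (.s k84 k168 13 (.s k116 k184 9 (.s k100 k68 3 (.d k152 k220 k204 9
  13)))))] (.c k16 (.q k240 [(.s k80 k160 11 (.s k84 k168 13 (.s k244 k248 1 (.s k164 k4 11 (.d k88
  k92 k12 1 13))))), (.s k112 k176 7 (.s k116 k184 9 (.s k120 k124 1 (.s k180 k60 9 (.d k244 k248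
  k52 1 7))))), (.s k80 k160 11 (.s k84 k168 13 (.s k112 k176 7 (.s k116 k184 9 (.s k64 k96 3 (.d
  k124 k120 k104 1 5))))))] .n) (.c k32 (.q k240 [(.s k160 k80 11 (.s k168 k84 13 (.s k164 k172 1
  (.s k88 k12 13 (.d k248 k244 k8 1 11))))), (.s k112 k176 7 (.s k116 k184 9 (.s k120 k124 1 (.s
  k180 k60 9 (.d k244 k248 k52 1 7))))), (.s k80 k160 11 (.s k84 k168 13 (.s k112 k176 7 (.s k116
  k184 9 (.s k100 k68 3 (.d k88 k92 k76 1 5))))))] .n) (.c k68 (.l (.s k32 k16 3 (.s k168 k84 13 (.s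
  k100 k236 9 (.s k152 k204 13 (.d k184 k116 k136 9 3)))))) (.c k84 (.q k85 [(.s k16 k32 3 (.s k170
  k255 14 (.s k154 k223 10 (.s k138 k186 3 (.d k207 k69 k101 10 14))))), (.s k255 k170 14 (.s k184
  k116 9 (.s k186 k117 10 (.s k185 k187 0 (.s k118 k51 10 (.d k254 k253 k50 0 9))))))] (.c k101 (.l
  (.s k255 k170 14 (.s k116 k184 9 (.s k117 k186 10 (.s k118 k119 0 (.s k185 k51 10 (.d k253 k254
  k49 0 9))))))) (.c k170 (.f k116 k184 9 (.f k16 k32 3 (.l (.s k154 k223 10 (.s k101 k207 14 (.s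
  k117 k69 3 (.s k255 k186 10 (.s k118 k119 0 (.s k185 k51 10 (.d k253 k254 k49 0 9)))))))))) (.c
  k186 (.l (.s k32 k16 3 (.s k170 k255 14 (.s k101 k239 10 (.s k207 k154 14 (.d k69 k117 k138 3
  10)))))) (.c k255 (.f k16 k32 3 (.f k116 k184 9 (.q k240 [(.s k112 k176 7 (.s k244 k248 1 (.s k180
  k52 7 (.d k120 k124 k60 1 9)))), (.s k80 k160 11 (.s k154 k223 10 (.s k207 k101 14 (.s k90 k95 2
  (.d k218 k229 k26 6 7)))))] (.c k87 (.q k171 [(.s k112 k176 7 (.s k244 k248 1 (.s k180 k52 7 (.d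
  k120 k124 k60 1 9)))), (.s k80 k160 11 (.s k154 k223 10 (.s k207 k101 14 (.s k90 k95 2 (.d k218
  k229 k26 6 7)))))] .n) (.c k171 (.q k87 [(.s k112 k176 7 (.s k244 k248 1 (.s k180 k52 7 (.d k120
  k124 k60 1 9)))), (.s k80 k160 11 (.s k154 k223 10 (.s k207 k101 14 (.s k90 k95 2 (.d k218 k229
  k26 6 7)))))] .n) .n))))) .n))))) (.c k100 (.q k240 [(.s k32 k16 3 (.s k160 k80 11 (.s k96 k224 7
  (.s k144 k192 11 (.d k176 k128 k112 3 7))))), (.s k160 k80 11 (.s k168 k84 13 (.s k164 k172 1 (.s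
  k88 k12 13 (.d k248 k244 k8 1 11))))), (.s k112 k176 7 (.s k116 k184 9 (.s k120 k124 1 (.s k180
  k60 9 (.d k244 k248 k52 1 7)))))] .n) (.c k116 (.q k240 [(.s k16 k32 3 (.s k80 k160 11 (.s k144
  k208 7 (.s k112 k176 7 (.d k96 k64 k192 3 11))))), (.s k80 k160 11 (.s k84 k168 13 (.s k88 k92 1
  (.s k164 k12 13 (.d k244 k248 k4 1 11))))), (.s k16 k32 3 (.s k84 k168 13 (.s k152 k220 9 (.s k176
  k112 7 (.s k164 k140 5 (.d k244 k248 k4 1 11))))))] (.c k71 (.q k101 [(.s k16 k32 3 (.s k80 k160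
  11 (.s k144 k208 7 (.s k112 k176 7 (.d k96 k64 k192 3 11))))), (.s k80 k160 11 (.s k84 k168 13 (.s
  k88 k92 1 (.s k164 k12 13 (.d k244 k248 k4 1 11))))), (.s k32 k16 3 (.s k170 k239 10 (.s k85 k255
  14 (.s k207 k154 14 (.d k69 k117 k138 3 10)))))] (.c k139 (.l (.s k207 k154 14 (.s k32 k16 3 (.s
  k69 k138 10 (.s k170 k239 10 (.d k85 k117 k255 3 14)))))) (.c k207 (.q k139 [(.s k16 k32 3 (.s k80
  k160 11 (.s k144 k208 7 (.s k112 k176 7 (.d k96 k64 k192 3 11))))), (.s k80 k160 11 (.s k84 k168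
  13 (.s k88 k92 1 (.s k164 k12 13 (.d k244 k248 k4 1 11))))), (.s k16 k32 3 (.s k84 k168 13 (.s
  k152 k220 9 (.s k176 k112 7 (.s k164 k140 5 (.d k244 k248 k4 1 11))))))] .n) .n))) (.c k101 (.q
  k71 [(.s k32 k16 3 (.s k160 k80 11 (.s k96 k224 7 (.s k144 k192 11 (.d k176 k128 k112 3 7))))),
  (.s k80 k160 11 (.s k84 k168 13 (.s k88 k92 1 (.s k164 k12 13 (.d k244 k248 k4 1 11))))), (.s k16
  k32 3 (.s k84 k168 13 (.s k152 k220 9 (.s k176 k112 7 (.s k164 k140 5 (.d k244 k248 k4 1 11))))))]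
  .n) .n))) (.c k136 (.l (.s k16 k32 3 (.s k84 k168 13 (.s k152 k220 9 (.s k100 k204 13 (.d k116
  k184 k68 9 3)))))) (.c k152 (.q k240 [(.s k16 k32 3 (.s k80 k160 11 (.s k144 k208 7 (.s k96 k192
  11 (.d k112 k64 k176 3 7))))), (.s k80 k160 11 (.s k84 k168 13 (.s k88 k92 1 (.s k164 k12 13 (.d
  k244 k248 k4 1 11))))), (.s k112 k176 7 (.s k116 k184 9 (.s k120 k124 1 (.s k180 k60 9 (.d k244
  k248 k52 1 7)))))] .n) (.c k168 (.q k240 [(.s k32 k16 3 (.s k160 k80 11 (.s k96 k224 7 (.s k144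
  k192 11 (.d k176 k128 k112 3 7))))), (.s k112 k176 7 (.s k116 k184 9 (.s k120 k124 1 (.s k180 k60
  9 (.d k244 k248 k52 1 7)))))] (.c k112 (.q k101 [(.s k16 k32 3 (.s k154 k207 14 (.s k85 k223 10
  (.s k117 k69 3 (.d k255 k186 k170 10 14))))), (.s k207 k154 14 (.s k116 k184 9 (.s k229 k218 6 (.s
  k244 k248 1 (.s k52 k180 7 (.d k199 k214 k150 4 12)))))), (.s k32 k16 3 (.s k160 k80 11 (.s k170
  k239 10 (.s k165 k175 2 (.s k37 k229 7 (.d k15 k26 k90 6 14))))))] .n) (.c k176 (.q k101 [(.s k16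
  k32 3 (.s k154 k207 14 (.s k85 k223 10 (.s k117 k69 3 (.d k255 k186 k170 10 14))))), (.s k207 k154
  14 (.s k116 k184 9 (.s k229 k218 6 (.s k244 k248 1 (.s k199 k214 4 (.d k52 k180 k150 7 12)))))),
  (.s k32 k16 3 (.s k160 k80 11 (.s k170 k239 10 (.s k165 k175 2 (.s k15 k90 14 (.d k37 k26 k229 6
  7))))))] .n) .n))) (.c k184 (.q k240 [(.s k32 k16 3 (.s k176 k112 7 (.s k160 k80 11 (.s k144 k128
  3 (.d k96 k224 k192 7 11))))), (.s k80 k160 11 (.s k84 k168 13 (.s k88 k92 1 (.s k164 k12 13 (.d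
  k244 k248 k4 1 11))))), (.s k16 k32 3 (.s k84 k168 13 (.s k152 k220 9 (.s k176 k112 7 (.s k164
  k140 5 (.d k244 k248 k4 1 11))))))] .n) (.c k204 (.q k240 [(.s k16 k32 3 (.s k80 k160 11 (.s k144
  k208 7 (.s k112 k176 7 (.d k96 k64 k192 3 11))))), (.s k80 k160 11 (.s k84 k168 13 (.s k88 k92 1
  (.s k164 k12 13 (.d k244 k248 k4 1 11))))), (.s k112 k176 7 (.s k116 k184 9 (.s k120 k124 1 (.s
  k180 k60 9 (.d k244 k248 k52 1 7)))))] (.c k70 (.q k137 [(.s k16 k32 3 (.s k80 k160 11 (.s k144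
  k208 7 (.s k112 k176 7 (.d k96 k64 k192 3 11))))), (.s k80 k160 11 (.s k84 k168 13 (.s k88 k92 1
  (.s k164 k12 13 (.d k244 k248 k4 1 11))))), (.s k112 k176 7 (.s k116 k184 9 (.s k120 k124 1 (.s
  k180 k60 9 (.d k244 k248 k52 1 7)))))] (.c k102 (.q k118 [(.s k16 k32 3 (.s k80 k160 11 (.s k144
  k208 7 (.s k112 k176 7 (.d k96 k64 k192 3 11))))), (.s k51 k185 10 (.s k50 k49 0 (.s k116 k184 9
  (.s k186 k254 9 (.d k117 k119 k255 0 10)))))] (.c k51 (.q k153 [(.s k16 k32 3 (.s k80 k160 11 (.s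
  k144 k208 7 (.s k112 k176 7 (.d k96 k64 k192 3 11))))), (.s k168 k84 13 (.s k184 k116 9 (.s k136
  k152 3 (.s k139 k138 0 (.d k169 k185 k154 3 4)))))] (.c k16 (.l (.s k80 k160 11 (.s k84 k168 13
  (.s k88 k92 1 (.s k164 k12 13 (.d k244 k248 k4 1 11)))))) (.c k19 (.q k35 [(.s k16 k32 3 (.s k80
  k160 11 (.s k112 k176 7 (.s k96 k64 3 (.d k144 k208 k192 7 11))))), (.s k168 k84 13 (.s k184 k116
  9 (.s k136 k152 3 (.s k139 k138 0 (.d k169 k185 k154 3 4)))))] (.c k16 (.l (.s k80 k160 11 (.s k84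
  k168 13 (.s k88 k92 1 (.s k164 k12 13 (.d k244 k248 k4 1 11)))))) .n)) (.c k35 (.q k19 [(.s k32
  k16 3 (.s k176 k112 7 (.s k160 k80 11 (.s k144 k128 3 (.d k96 k224 k192 7 11))))), (.s k168 k84 13
  (.s k184 k116 9 (.s k136 k152 3 (.s k139 k138 0 (.d k169 k185 k154 3 4)))))] (.c k16 (.l (.s k80
  k160 11 (.s k84 k168 13 (.s k88 k92 1 (.s k164 k12 13 (.d k244 k248 k4 1 11)))))) (.c k169 (.q
  k236 [(.s k32 k16 3 (.d k168 k100 k84 9 13)), (.s k80 k160 11 (.s k84 k168 13 (.s k88 k92 1 (.s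
  k164 k12 13 (.d k244 k248 k4 1 11))))), (.s k16 k32 3 (.s k80 k160 11 (.s k144 k208 7 (.s k96 k192
  11 (.d k112 k64 k176 3 7)))))] .n) (.c k236 (.l (.s k169 k185 3 (.s k168 k84 13 (.s k184 k116 9
  (.s k136 k152 3 (.d k139 k138 k154 0 4)))))) .n)))) .n)))) (.c k153 (.l (.s k51 k185 10 (.s k50
  k49 0 (.s k116 k184 9 (.s k186 k254 9 (.d k117 k119 k255 0 10)))))) .n))) (.c k118 (.q k102 [(.s
  k16 k32 3 (.s k80 k160 11 (.s k144 k208 7 (.s k112 k176 7 (.d k96 k64 k192 3 11))))), (.s k80 k160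
  11 (.s k84 k168 13 (.s k88 k92 1 (.s k164 k12 13 (.d k244 k248 k4 1 11))))), (.s k112 k176 7 (.s
  k116 k184 9 (.s k120 k124 1 (.s k180 k60 9 (.d k244 k248 k52 1 7)))))] .n) .n))) (.c k137 (.q k70
  [(.s k16 k32 3 (.s k80 k160 11 (.s k144 k208 7 (.s k112 k176 7 (.d k96 k64 k192 3 11))))), (.s k80
  k160 11 (.s k84 k168 13 (.s k88 k92 1 (.s k164 k12 13 (.d k244 k248 k4 1 11))))), (.s k112 k176 7
  (.s k116 k184 9 (.s k120 k124 1 (.s k180 k60 9 (.d k244 k248 k52 1 7)))))] .n) .n))) (.c k220 (.l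
  (.s k32 k16 3 (.s k184 k116 9 (.s k168 k84 13 (.s k152 k136 3 (.d k100 k236 k204 9 13)))))) (.c
  k236 (.l (.s k16 k32 3 (.s k116 k184 9 (.s k84 k168 13 (.s k100 k68 3 (.d k152 k220 k204 9
  13)))))) .n))))))))))))))

def t87 : T TT 256 :=
  (.q k60 [(.s k20 k40 5 (.s k84 k168 13 (.s k148 k212 7 (.s k124 k188 7 (.d k104 k64 k192 5
  13)))))] (.c k20 (.q k255 [(.s k124 k188 7 (.s k125 k190 8 (.s k253 k254 0 (.s k189 k61 7 (.d k126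
  k127 k63 0 8))))), (.s k170 k85 14 (.s k124 k188 7 (.s k254 k253 0 (.s k86 k2 13 (.s k105 k67 6
  (.s k235 k40 8 (.d k195 k215 k150 5 14))))))), (.s k85 k170 14 (.s k125 k190 8 (.s k105 k65 5 (.s
  k253 k254 0 (.s k169 k1 13 (.s k233 k41 7 (.d k195 k150 k214 14 6))))))), (.s k84 k168 13 (.s k85
  k170 14 (.s k124 k188 7 (.s k125 k190 8 (.s k64 k104 5 (.d k127 k126 k106 0 6))))))] .n) (.c k40
  (.q k255 [(.s k124 k188 7 (.s k125 k190 8 (.s k253 k254 0 (.s k189 k61 7 (.d k126 k127 k63 0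
  8))))), (.s k85 k170 14 (.s k188 k124 7 (.s k253 k254 0 (.s k169 k1 13 (.s k150 k131 6 (.s k215
  k20 8 (.d k195 k235 k105 5 14))))))), (.s k85 k170 14 (.s k125 k190 8 (.s k105 k65 5 (.s k253 k254
  0 (.s k169 k1 13 (.s k233 k41 7 (.d k195 k150 k214 14 6))))))), (.s k170 k85 14 (.s k188 k124 7
  (.s k190 k125 8 (.s k150 k130 5 (.s k169 k131 6 (.d k168 k84 k171 13 0))))))] .n) (.c k64 (.l (.s
  k40 k20 5 (.s k168 k84 13 (.s k104 k232 7 (.s k148 k192 13 (.d k188 k124 k128 7 5)))))) (.c k84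
  (.q k255 [(.s k20 k40 5 (.s k85 k170 14 (.s k125 k190 8 (.s k105 k65 5 (.d k150 k215 k195 8
  14))))), (.s k124 k188 7 (.s k125 k190 8 (.s k126 k127 0 (.s k189 k63 8 (.d k253 k254 k61 0
  7))))), (.s k20 k40 5 (.s k85 k170 14 (.s k150 k215 8 (.s k188 k124 7 (.s k169 k131 6 (.d k253
  k254 k1 0 13))))))] (.c k85 (.q k86 [(.s k124 k188 7 (.s k125 k190 8 (.s k253 k254 0 (.s k189 k61
  7 (.d k126 k127 k63 0 8))))), (.s k40 k20 5 (.s k124 k188 7 (.s k105 k67 6 (.s k235 k170 8 (.d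
  k195 k215 k150 5 14))))), (.s k40 k20 5 (.s k190 k125 8 (.s k254 k253 0 (.s k170 k2 13 (.s k105
  k235 8 (.d k150 k130 k195 5 14))))))] .n) (.c k86 (.l (.s k85 k170 14 (.s k20 k40 5 (.s k150 k215
  8 (.s k105 k195 14 (.d k125 k65 k190 5 8)))))) .n))) (.c k104 (.q k255 [(.s k20 k40 5 (.s k85 k170
  14 (.s k125 k190 8 (.s k105 k65 5 (.d k150 k215 k195 8 14))))), (.s k124 k188 7 (.s k125 k190 8
  (.s k126 k127 0 (.s k189 k63 8 (.d k253 k254 k61 0 7))))), (.s k20 k40 5 (.s k85 k170 14 (.s k150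
  k215 8 (.s k188 k124 7 (.s k169 k131 6 (.d k253 k254 k1 0 13))))))] .n) (.c k124 (.f k20 k40 5 (.q
  k12 [(.s k4 k8 1 (.s k36 k52 3 (.s k28 k44 3 (.d k24 k16 k48 1 5)))), (.s k8 k4 1 (.s k168 k84 13
  (.s k88 k248 11 (.s k164 k240 13 (.d k172 k160 k92 1 11))))), (.s k84 k168 13 (.s k28 k44 3 (.s
  k92 k172 11 (.s k148 k212 7 (.d k88 k80 k208 1 9)))))] (.c k171 (.q k255 [(.s k4 k8 1 (.s k36 k52
  3 (.s k28 k44 3 (.d k24 k16 k48 1 5)))), (.s k85 k170 14 (.s k150 k215 8 (.s k105 k195 14 (.d k125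
  k65 k190 5 8))))] .n) (.c k255 (.q k171 [(.s k4 k8 1 (.s k36 k52 3 (.s k28 k44 3 (.d k24 k16 k48 1
  5)))), (.s k8 k4 1 (.s k168 k84 13 (.s k88 k248 11 (.s k164 k240 13 (.d k172 k160 k92 1 11))))),
  (.s k84 k168 13 (.s k28 k44 3 (.s k92 k172 11 (.s k148 k212 7 (.d k88 k80 k208 1 9)))))] .n)
  .n)))) (.c k148 (.q k255 [(.s k20 k40 5 (.s k85 k170 14 (.s k125 k190 8 (.s k105 k65 5 (.d k150
  k215 k195 8 14))))), (.s k124 k188 7 (.s k125 k190 8 (.s k126 k127 0 (.s k189 k63 8 (.d k253 k254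
  k61 0 7))))), (.s k20 k40 5 (.s k85 k170 14 (.s k150 k215 8 (.s k188 k124 7 (.s k169 k131 6 (.d
  k253 k254 k1 0 13))))))] .n) (.c k168 (.q k255 [(.s k40 k20 5 (.s k190 k125 8 (.s k170 k85 14 (.s
  k150 k130 5 (.d k105 k235 k195 8 14))))), (.s k124 k188 7 (.s k125 k190 8 (.s k126 k127 0 (.s k189
  k63 8 (.d k253 k254 k61 0 7))))), (.s k20 k40 5 (.s k85 k170 14 (.s k150 k215 8 (.s k188 k124 7
  (.s k169 k131 6 (.d k253 k254 k1 0 13))))))] .n) (.c k171 (.q k255 [(.s k20 k40 5 (.s k84 k168 13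
  (.s k148 k212 7 (.s k124 k188 7 (.d k104 k64 k192 5 13))))), (.s k124 k188 7 (.s k125 k190 8 (.s
  k126 k127 0 (.s k189 k63 8 (.d k253 k254 k61 0 7))))), (.s k20 k40 5 (.s k85 k170 14 (.s k150 k215
  8 (.s k105 k195 14 (.d k125 k65 k190 5 8)))))] .n) (.c k188 (.f k20 k40 5 (.q k12 [(.s k4 k8 1 (.s
  k36 k52 3 (.s k28 k44 3 (.d k24 k16 k48 1 5)))), (.s k8 k4 1 (.s k168 k84 13 (.s k88 k248 11 (.s
  k164 k240 13 (.d k172 k160 k92 1 11))))), (.s k84 k168 13 (.s k28 k44 3 (.s k92 k172 11 (.s k148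
  k212 7 (.d k88 k80 k208 1 9)))))] (.c k171 (.q k255 [(.s k4 k8 1 (.s k36 k52 3 (.s k28 k44 3 (.d
  k24 k16 k48 1 5)))), (.s k85 k170 14 (.s k150 k215 8 (.s k105 k195 14 (.d k125 k65 k190 5 8))))]
  .n) (.c k255 (.q k171 [(.s k4 k8 1 (.s k36 k52 3 (.s k28 k44 3 (.d k24 k16 k48 1 5)))), (.s k8 k4
  1 (.s k168 k84 13 (.s k88 k248 11 (.s k164 k240 13 (.d k172 k160 k92 1 11))))), (.s k84 k168 13
  (.s k28 k44 3 (.s k92 k172 11 (.s k148 k212 7 (.d k88 k80 k208 1 9)))))] .n) .n)))) (.c k192 (.f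
  k20 k40 5 (.q k255 [(.s k85 k170 14 (.s k125 k190 8 (.s k105 k65 5 (.d k150 k215 k195 8 14)))),
  (.s k124 k188 7 (.s k125 k190 8 (.s k126 k127 0 (.s k189 k63 8 (.d k253 k254 k61 0 7))))), (.s k85
  k170 14 (.s k150 k215 8 (.s k188 k124 7 (.s k169 k131 6 (.d k253 k254 k1 0 13)))))] (.c k66 (.q
  k129 [(.s k85 k170 14 (.s k150 k215 8 (.s k125 k190 8 (.d k105 k65 k195 5 14)))), (.s k124 k188 7
  (.s k125 k190 8 (.s k126 k127 0 (.s k189 k63 8 (.d k253 k254 k61 0 7))))), (.s k85 k170 14 (.s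
  k150 k215 8 (.s k188 k124 7 (.s k169 k131 6 (.d k253 k254 k1 0 13)))))] (.c k23 (.l (.s k85 k170
  14 (.s k125 k190 8 (.s k105 k65 5 (.d k150 k215 k195 8 14))))) .n)) (.c k129 (.q k66 [(.s k85 k170
  14 (.s k150 k215 8 (.s k125 k190 8 (.d k105 k65 k195 5 14)))), (.s k124 k188 7 (.s k125 k190 8 (.s
  k126 k127 0 (.s k189 k63 8 (.d k253 k254 k61 0 7))))), (.s k85 k170 14 (.s k150 k215 8 (.s k188
  k124 7 (.s k169 k131 6 (.d k253 k254 k1 0 13)))))] (.c k23 (.l (.s k85 k170 14 (.s k125 k190 8 (.s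
  k105 k65 5 (.d k150 k215 k195 8 14))))) .n)) .n)))) (.c k212 (.l (.s k40 k20 5 (.s k188 k124 7 (.s
  k168 k84 13 (.s k148 k128 5 (.d k104 k232 k192 7 13)))))) (.c k232 (.l (.s k20 k40 5 (.s k124 k188
  7 (.s k84 k168 13 (.s k104 k64 5 (.d k148 k212 k192 7 13)))))) (.c k255 (.q k171 [(.s k20 k40 5
  (.s k84 k168 13 (.s k148 k212 7 (.s k124 k188 7 (.d k104 k64 k192 5 13)))))] (.c k20 (.q k12 [(.s
  k4 k8 1 (.s k84 k168 13 (.s k164 k244 11 (.s k92 k172 11 (.d k88 k80 k240 1 13))))), (.s k28 k44 3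
  (.s k92 k172 11 (.s k156 k220 7 (.s k108 k204 11 (.d k124 k76 k188 3 7))))), (.s k4 k8 1 (.s k84
  k168 13 (.s k164 k244 11 (.s k44 k28 3 (.s k104 k224 9 (.d k124 k64 k188 5 7))))))] .n) (.c k40
  (.q k12 [(.s k8 k4 1 (.s k172 k92 11 (.s k168 k84 13 (.s k164 k160 1 (.d k88 k248 k240 11 13))))),
  (.s k28 k44 3 (.s k92 k172 11 (.s k156 k220 7 (.s k108 k204 11 (.d k124 k76 k188 3 7))))), (.s k4
  k8 1 (.s k84 k168 13 (.s k164 k244 11 (.s k44 k28 3 (.s k104 k224 9 (.d k124 k64 k188 5 7))))))]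
  .n) (.c k64 (.l (.s k40 k20 5 (.s k168 k84 13 (.s k104 k232 7 (.s k148 k192 13 (.d k188 k124 k128
  7 5)))))) (.c k84 (.f k124 k188 7 (.f k20 k40 5 (.q k12 [(.s k4 k8 1 (.s k36 k52 3 (.s k28 k44 3
  (.d k24 k16 k48 1 5)))), (.s k92 k172 11 (.s k108 k76 3 (.s k156 k204 11 (.d k28 k44 k220 3 7))))]
  (.c k28 (.q k86 [(.s k105 k67 6 (.s k195 k150 14 (.s k73 k134 10 (.s k89 k121 3 (.d k92 k83 k172 2
  11))))), (.s k92 k172 11 (.s k67 k105 6 (.s k76 k108 3 (.s k70 k73 2 (.s k89 k83 2 (.d k102 k118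
  k115 3 6)))))), (.s k4 k8 1 (.s k105 k67 6 (.s k195 k150 14 (.s k130 k65 8 (.s k134 k73 10 (.s k69
  k199 8 (.d k138 k142 k207 1 10))))))), (.s k92 k172 11 (.s k76 k108 3 (.s k89 k83 2 (.s k243 k166
  14 (.s k121 k182 10 (.d k115 k118 k102 2 6))))))] (.c k89 (.q k150 [(.d k105 k67 k195 6 14), (.s
  k4 k8 1 (.s k52 k36 3 (.s k101 k199 12 (.s k116 k71 4 (.d k48 k56 k184 1 9)))))] .n) .n)) (.c k44
  (.l (.s k4 k8 1 (.s k36 k52 3 (.s k24 k48 5 (.s k92 k172 11 (.s k28 k16 1 (.s k108 k76 3 (.d k156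
  k220 k204 7 11)))))))) (.c k85 (.q k86 [(.s k4 k8 1 (.s k36 k52 3 (.s k28 k44 3 (.d k24 k16 k48 1
  5)))), (.s k92 k172 11 (.s k105 k67 6 (.s k195 k150 14 (.s k73 k134 10 (.d k89 k83 k121 2 3)))))]
  .n) (.c k86 (.q k85 [(.s k4 k8 1 (.s k36 k52 3 (.s k28 k44 3 (.d k24 k16 k48 1 5)))), (.s k92 k172
  11 (.s k108 k76 3 (.s k156 k204 11 (.d k28 k44 k220 3 7)))), (.s k4 k8 1 (.s k166 k247 12 (.s k243
  k89 14 (.s k150 k215 8 (.d k182 k134 k121 3 10)))))] .n) .n))))))) (.c k104 (.q k12 [(.s k4 k8 1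
  (.s k20 k40 5 (.s k36 k52 3 (.s k28 k44 3 (.d k24 k16 k48 1 5))))), (.s k28 k44 3 (.s k92 k172 11
  (.s k156 k220 7 (.s k108 k204 11 (.d k124 k76 k188 3 7))))), (.s k4 k8 1 (.s k84 k168 13 (.s k164
  k244 11 (.s k88 k240 13 (.d k92 k80 k172 1 11)))))] (.c k164 (.l (.s k4 k8 1 (.s k20 k40 5 (.s k36
  k52 3 (.s k24 k48 5 (.d k28 k16 k44 1 3)))))) .n)) (.c k124 (.q k12 [(.s k4 k8 1 (.s k20 k40 5 (.s
  k36 k52 3 (.s k28 k44 3 (.d k24 k16 k48 1 5))))), (.s k4 k8 1 (.s k84 k168 13 (.s k164 k244 11 (.s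
  k88 k240 13 (.d k92 k80 k172 1 11))))), (.s k20 k40 5 (.s k84 k168 13 (.s k28 k44 3 (.s k92 k172
  11 (.s k148 k212 7 (.d k88 k80 k208 1 9))))))] .n) (.c k148 (.q k12 [(.s k4 k8 1 (.s k20 k40 5 (.s
  k28 k44 3 (.s k24 k16 1 (.d k36 k52 k48 3 5))))), (.s k28 k44 3 (.s k92 k172 11 (.s k156 k220 7
  (.s k108 k204 11 (.d k124 k76 k188 3 7))))), (.s k4 k8 1 (.s k84 k168 13 (.s k164 k244 11 (.s k88
  k240 13 (.d k92 k80 k172 1 11)))))] .n) (.c k168 (.q k12 [(.s k8 k4 1 (.s k44 k28 3 (.s k40 k20 5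
  (.s k36 k32 1 (.d k24 k56 k48 3 5))))), (.s k28 k44 3 (.s k92 k172 11 (.s k156 k220 7 (.s k108
  k204 11 (.d k124 k76 k188 3 7)))))] (.c k28 (.q k204 [(.s k76 k140 7 (.s k108 k156 11 (.d k92 k172
  k124 11 3))), (.s k4 k8 1 (.s k20 k40 5 (.s k68 k136 9 (.s k52 k36 3 (.s k196 k132 7 (.s k100 k148
  11 (.d k48 k56 k152 1 13))))))), (.s k4 k8 1 (.s k68 k136 9 (.s k132 k196 7 (.s k72 k192 9 (.s k92
  k172 11 (.s k76 k64 1 (.d k108 k124 k156 3 11)))))))] .n) (.c k44 (.q k204 [(.s k76 k140 7 (.s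
  k108 k156 11 (.d k92 k172 k124 11 3))), (.s k4 k8 1 (.s k68 k136 9 (.s k132 k196 7 (.s k72 k192 9
  (.d k76 k64 k140 1 7))))), (.s k4 k8 1 (.s k20 k40 5 (.s k36 k52 3 (.s k24 k48 5 (.s k92 k172 11
  (.s k28 k16 1 (.d k156 k108 k220 11 7)))))))] .n) (.c k236 (.l (.s k4 k8 1 (.s k20 k40 5 (.s k36
  k52 3 (.s k24 k48 5 (.d k28 k16 k44 1 3)))))) .n)))) (.c k188 (.q k12 [(.s k4 k8 1 (.s k20 k40 5
  (.s k36 k52 3 (.s k28 k44 3 (.d k24 k16 k48 1 5))))), (.s k4 k8 1 (.s k84 k168 13 (.s k164 k244 11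
  (.s k88 k240 13 (.d k92 k80 k172 1 11))))), (.s k20 k40 5 (.s k84 k168 13 (.s k28 k44 3 (.s k92
  k172 11 (.s k148 k212 7 (.d k88 k80 k208 1 9))))))] .n) (.c k192 (.f k20 k40 5 (.f k124 k188 7 (.q
  k12 [(.s k4 k8 1 (.s k36 k52 3 (.s k28 k44 3 (.d k24 k16 k48 1 5)))), (.s k92 k172 11 (.s k108 k76
  3 (.s k156 k204 11 (.d k28 k44 k220 3 7)))), (.s k4 k8 1 (.s k84 k168 13 (.s k164 k244 11 (.s k88
  k240 13 (.d k92 k80 k172 1 11)))))] (.c k66 (.q k129 [(.s k4 k8 1 (.s k36 k52 3 (.s k28 k44 3 (.d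
  k24 k16 k48 1 5)))), (.s k92 k172 11 (.s k108 k76 3 (.s k156 k204 11 (.d k28 k44 k220 3 7)))), (.s
  k4 k8 1 (.s k84 k168 13 (.s k164 k244 11 (.s k88 k240 13 (.d k92 k80 k172 1 11)))))] (.c k213 (.q
  k234 [(.s k4 k8 1 (.s k36 k52 3 (.s k28 k44 3 (.d k24 k16 k48 1 5)))), (.s k92 k172 11 (.s k108
  k76 3 (.s k156 k204 11 (.d k28 k44 k220 3 7)))), (.s k4 k8 1 (.s k84 k168 13 (.s k164 k244 11 (.s
  k88 k240 13 (.d k92 k80 k172 1 11)))))] .n) (.c k234 (.q k213 [(.s k4 k8 1 (.s k36 k52 3 (.s k28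
  k44 3 (.d k24 k16 k48 1 5)))), (.s k92 k172 11 (.s k108 k76 3 (.s k156 k204 11 (.d k28 k44 k220 3
  7)))), (.s k4 k8 1 (.s k84 k168 13 (.s k164 k244 11 (.s k88 k240 13 (.d k92 k80 k172 1 11)))))]
  .n) .n))) (.c k129 (.q k66 [(.s k4 k8 1 (.s k36 k52 3 (.s k28 k44 3 (.d k24 k16 k48 1 5)))), (.s
  k92 k172 11 (.s k108 k76 3 (.s k156 k204 11 (.d k28 k44 k220 3 7)))), (.s k4 k8 1 (.s k84 k168 13
  (.s k164 k244 11 (.s k88 k240 13 (.d k92 k80 k172 1 11)))))] (.c k213 (.q k234 [(.s k4 k8 1 (.s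
  k36 k52 3 (.s k28 k44 3 (.d k24 k16 k48 1 5)))), (.s k92 k172 11 (.s k108 k76 3 (.s k156 k204 11
  (.d k28 k44 k220 3 7)))), (.s k4 k8 1 (.s k84 k168 13 (.s k164 k244 11 (.s k88 k240 13 (.d k92 k80
  k172 1 11)))))] .n) (.c k234 (.q k213 [(.s k4 k8 1 (.s k36 k52 3 (.s k28 k44 3 (.d k24 k16 k48 1
  5)))), (.s k92 k172 11 (.s k108 k76 3 (.s k156 k204 11 (.d k28 k44 k220 3 7)))), (.s k4 k8 1 (.s
  k84 k168 13 (.s k164 k244 11 (.s k88 k240 13 (.d k92 k80 k172 1 11)))))] .n) .n))) (.c k213 (.q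
  k234 [(.s k4 k8 1 (.s k36 k52 3 (.s k28 k44 3 (.d k24 k16 k48 1 5)))), (.s k92 k172 11 (.s k108
  k76 3 (.s k156 k204 11 (.d k28 k44 k220 3 7)))), (.s k4 k8 1 (.s k84 k168 13 (.s k164 k244 11 (.s
  k88 k240 13 (.d k92 k80 k172 1 11)))))] (.c k66 (.q k129 [(.s k4 k8 1 (.s k36 k52 3 (.s k28 k44 3
  (.d k24 k16 k48 1 5)))), (.s k92 k172 11 (.s k108 k76 3 (.s k156 k204 11 (.d k28 k44 k220 3 7)))),
  (.s k4 k8 1 (.s k84 k168 13 (.s k164 k244 11 (.s k88 k240 13 (.d k92 k80 k172 1 11)))))] .n) (.c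
  k129 (.q k66 [(.s k4 k8 1 (.s k36 k52 3 (.s k28 k44 3 (.d k24 k16 k48 1 5)))), (.s k92 k172 11 (.s
  k108 k76 3 (.s k156 k204 11 (.d k28 k44 k220 3 7)))), (.s k4 k8 1 (.s k84 k168 13 (.s k164 k244 11
  (.s k88 k240 13 (.d k92 k80 k172 1 11)))))] .n) .n))) (.c k234 (.q k213 [(.s k4 k8 1 (.s k36 k52 3
  (.s k28 k44 3 (.d k24 k16 k48 1 5)))), (.s k92 k172 11 (.s k108 k76 3 (.s k156 k204 11 (.d k28 k44
  k220 3 7)))), (.s k4 k8 1 (.s k84 k168 13 (.s k164 k244 11 (.s k88 k240 13 (.d k92 k80 k172 1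
  11)))))] (.c k66 (.q k129 [(.s k4 k8 1 (.s k36 k52 3 (.s k28 k44 3 (.d k24 k16 k48 1 5)))), (.s
  k92 k172 11 (.s k108 k76 3 (.s k156 k204 11 (.d k28 k44 k220 3 7)))), (.s k4 k8 1 (.s k84 k168 13
  (.s k164 k244 11 (.s k88 k240 13 (.d k92 k80 k172 1 11)))))] .n) (.c k129 (.q k66 [(.s k4 k8 1 (.s
  k36 k52 3 (.s k28 k44 3 (.d k24 k16 k48 1 5)))), (.s k92 k172 11 (.s k108 k76 3 (.s k156 k204 11
  (.d k28 k44 k220 3 7)))), (.s k4 k8 1 (.s k84 k168 13 (.s k164 k244 11 (.s k88 k240 13 (.d k92 k80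
  k172 1 11)))))] .n) .n))) .n))))))) (.c k212 (.l (.s k40 k20 5 (.s k188 k124 7 (.s k168 k84 13 (.s
  k148 k128 5 (.d k104 k232 k192 7 13)))))) (.c k232 (.l (.s k20 k40 5 (.s k124 k188 7 (.s k84 k168
  13 (.s k104 k64 5 (.d k148 k212 k192 7 13)))))) .n))))))))))))) .n)))))))))))))))

def t88 : T TT 256 :=
  (.q k48 [(.s k16 k32 3 (.s k84 k168 13 (.s k152 k220 9 (.s k116 k184 9 (.d k100 k68 k204 3
  13))))), (.s k32 k16 3 (.s k168 k84 13 (.s k100 k236 9 (.s k152 k204 13 (.d k184 k136 k116 3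
  9)))))] (.c k16 (.q k85 [(.s k255 k170 14 (.s k116 k184 9 (.s k117 k186 10 (.s k118 k119 0 (.s
  k185 k51 10 (.d k253 k254 k49 0 9)))))), (.s k84 k168 13 (.s k116 k184 9 (.s k68 k100 3 (.s k102
  k119 4 (.s k86 k87 0 (.s k70 k118 3 (.d k71 k69 k101 0 4))))))), (.s k255 k170 14 (.s k117 k186 10
  (.s k101 k69 3 (.s k253 k254 0 (.s k169 k1 13 (.s k237 k33 9 (.d k207 k154 k222 14 4)))))))] (.c
  k118 (.l (.s k84 k168 13 (.s k255 k170 14 (.s k116 k184 9 (.s k117 k186 10 (.s k101 k69 3 (.d k86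
  k87 k71 0 4))))))) (.c k255 (.l (.s k84 k168 13 (.s k116 k184 9 (.s k68 k100 3 (.s k119 k102 4 (.s
  k117 k118 0 (.s k101 k69 3 (.d k86 k87 k71 0 4)))))))) .n))) (.c k32 (.q k20 [(.s k60 k40 5 (.s
  k56 k52 1 (.s k184 k116 9 (.s k188 k124 7 (.s k180 k176 1 (.d k120 k248 k240 7 9)))))), (.s k60
  k40 5 (.s k84 k168 13 (.s k148 k212 7 (.s k104 k192 13 (.d k124 k64 k188 5 7))))), (.s k84 k168 13
  (.s k148 k212 7 (.s k116 k184 9 (.s k100 k68 3 (.s k52 k196 11 (.d k60 k56 k40 1 5)))))), (.s k84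
  k168 13 (.s k148 k212 7 (.s k116 k184 9 (.s k100 k68 3 (.s k52 k196 11 (.s k244 k180 7 (.d k4 k36
  k164 3 11)))))))] (.c k248 (.l (.s k60 k40 5 (.s k52 k56 1 (.s k124 k188 7 (.s k116 k184 9 (.s
  k120 k112 1 (.d k180 k244 k240 7 9))))))) .n)) (.c k84 (.f k16 k32 3 (.q k85 [(.s k170 k255 14 (.s
  k154 k223 10 (.s k207 k101 14 (.d k138 k186 k69 3 10)))), (.s k154 k223 10 (.s k184 k116 9 (.s
  k169 k139 4 (.s k253 k1 13 (.d k255 k254 k170 0 14))))), (.s k255 k170 14 (.s k184 k116 9 (.s k186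
  k117 10 (.s k185 k187 0 (.s k118 k51 10 (.d k254 k253 k50 0 9))))))] (.c k80 (.q k92 [(.s k170
  k255 14 (.s k154 k223 10 (.s k207 k101 14 (.d k138 k186 k69 3 10)))), (.s k12 k172 11 (.s k8 k4 1
  (.s k24 k36 5 (.s k40 k56 3 (.d k20 k28 k60 1 5)))))] .n) (.c k92 (.q k80 [(.s k170 k255 14 (.s
  k154 k223 10 (.s k207 k101 14 (.d k138 k186 k69 3 10)))), (.s k160 k240 11 (.s k144 k208 7 (.s
  k192 k96 11 (.d k128 k176 k64 3 7))))] .n) (.c k170 (.l (.s k154 k223 10 (.s k101 k207 14 (.s k184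
  k116 9 (.s k117 k69 3 (.s k255 k186 10 (.s k253 k254 0 (.d k169 k139 k1 4 13)))))))) (.c k255 (.f
  k116 k184 9 (.q k80 [(.s k240 k160 11 (.s k112 k176 7 (.s k96 k64 3 (.d k144 k208 k192 7 11)))),
  (.s k208 k144 7 (.s k154 k223 10 (.s k90 k95 2 (.s k26 k218 7 (.d k31 k21 k149 2 10))))), (.s k240
  k160 11 (.s k154 k223 10 (.s k207 k101 14 (.s k90 k95 2 (.d k218 k229 k26 6 7)))))] (.c k87 (.q
  k171 [(.s k240 k160 11 (.s k112 k176 7 (.s k96 k64 3 (.d k144 k208 k192 7 11)))), (.s k208 k144 7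
  (.s k154 k223 10 (.s k90 k95 2 (.s k26 k218 7 (.d k31 k21 k149 2 10))))), (.s k240 k160 11 (.s
  k154 k223 10 (.s k207 k101 14 (.s k90 k95 2 (.d k218 k229 k26 6 7)))))] .n) (.c k171 (.q k87 [(.s
  k240 k160 11 (.s k112 k176 7 (.s k96 k64 3 (.d k144 k208 k192 7 11)))), (.s k208 k144 7 (.s k154
  k223 10 (.s k90 k95 2 (.s k26 k218 7 (.d k31 k21 k149 2 10))))), (.s k240 k160 11 (.s k154 k223 10
  (.s k207 k101 14 (.s k90 k95 2 (.d k218 k229 k26 6 7)))))] .n) .n)))) .n)))))) (.c k100 (.f k116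
  k184 9 (.q k85 [(.s k16 k32 3 (.s k255 k170 14 (.s k154 k223 10 (.s k101 k207 14 (.d k117 k69 k186
  3 10))))), (.s k255 k170 14 (.s k117 k186 10 (.s k118 k119 0 (.s k185 k51 10 (.d k253 k254 k49 0
  9))))), (.s k32 k16 3 (.s k84 k168 13 (.s k170 k255 14 (.s k101 k239 10 (.d k86 k87 k71 0 4)))))]
  (.c k76 (.q k112 [(.s k240 k176 7 (.s k120 k124 1 (.s k180 k60 9 (.d k244 k248 k52 1 7)))), (.s
  k16 k32 3 (.s k170 k255 14 (.s k154 k223 10 (.s k207 k101 14 (.d k138 k186 k69 3 10)))))] .n) (.c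
  k112 (.q k76 [(.s k16 k32 3 (.s k255 k170 14 (.s k154 k223 10 (.s k101 k207 14 (.d k117 k69 k186 3
  10))))), (.s k255 k170 14 (.s k117 k186 10 (.s k118 k119 0 (.s k185 k51 10 (.d k253 k254 k49 0
  9))))), (.s k32 k16 3 (.s k84 k168 13 (.s k170 k255 14 (.s k101 k239 10 (.d k86 k87 k71 0 4)))))]
  (.c k170 (.l (.s k84 k168 13 (.s k86 k87 0 (.s k101 k71 4 (.s k207 k154 14 (.d k69 k138 k117 10
  3)))))) (.c k255 (.l (.s k16 k32 3 (.s k154 k223 10 (.s k207 k101 14 (.s k222 k237 4 (.s k86 k18 9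
  (.d k84 k168 k87 13 0))))))) .n))) (.c k170 (.l (.s k84 k168 13 (.s k86 k87 0 (.s k101 k71 4 (.s
  k207 k154 14 (.d k69 k138 k117 10 3)))))) (.c k255 (.l (.s k16 k32 3 (.s k154 k223 10 (.s k207
  k101 14 (.s k222 k237 4 (.s k86 k18 9 (.d k84 k168 k87 13 0))))))) .n)))))) (.c k116 (.q k20 [(.s
  k16 k32 3 (.s k60 k40 5 (.s k52 k56 1 (.s k36 k4 3 (.d k24 k28 k12 1 5))))), (.s k60 k40 5 (.s k84
  k168 13 (.s k148 k212 7 (.s k104 k192 13 (.d k124 k64 k188 5 7)))))] (.c k8 (.l (.s k16 k32 3 (.s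
  k60 k40 5 (.s k24 k28 1 (.s k36 k12 5 (.d k52 k56 k4 1 3)))))) (.c k40 (.q k85 [(.s k32 k16 3 (.s
  k170 k255 14 (.s k101 k239 10 (.s k207 k154 14 (.d k69 k117 k138 3 10))))), (.s k84 k168 13 (.s
  k255 k170 14 (.s k212 k148 7 (.s k215 k150 8 (.s k213 k214 0 (.d k192 k232 k234 5 6)))))), (.s k16
  k32 3 (.s k28 k24 1 (.s k154 k223 10 (.s k150 k215 8 (.s k211 k89 10 (.d k146 k158 k81 1 8))))))]
  .n) (.c k60 (.l (.s k16 k32 3 (.s k84 k168 13 (.s k220 k152 9 (.s k212 k148 7 (.s k192 k232 5 (.s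
  k144 k96 11 (.d k208 k216 k80 1 7)))))))) .n)))) (.c k152 (.f k16 k32 3 (.q k85 [(.s k170 k255 14
  (.s k154 k223 10 (.s k207 k101 14 (.d k138 k186 k69 3 10)))), (.s k255 k170 14 (.s k184 k116 9 (.s
  k186 k117 10 (.s k185 k187 0 (.s k118 k51 10 (.d k254 k253 k50 0 9)))))), (.s k84 k168 13 (.s k154
  k223 10 (.s k101 k207 14 (.s k86 k87 0 (.d k116 k71 k184 4 9)))))] (.c k24 (.q k216 [(.s k170 k255
  14 (.s k154 k223 10 (.s k207 k101 14 (.d k138 k186 k69 3 10)))), (.s k255 k170 14 (.s k184 k116 9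
  (.s k186 k117 10 (.s k185 k187 0 (.s k118 k51 10 (.d k254 k253 k50 0 9)))))), (.s k84 k168 13 (.s
  k154 k223 10 (.s k101 k207 14 (.s k86 k87 0 (.d k116 k71 k184 4 9)))))] (.c k101 (.l (.s k168 k84
  13 (.s k170 k255 14 (.s k154 k223 10 (.s k184 k116 9 (.d k169 k171 k139 0 4)))))) (.c k239 (.l (.s
  k170 k255 14 (.s k154 k223 10 (.s k207 k101 14 (.d k138 k186 k69 3 10))))) (.c k255 (.l (.s k84
  k168 13 (.s k154 k223 10 (.s k207 k101 14 (.s k222 k237 4 (.d k86 k87 k18 0 9)))))) .n)))) (.c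
  k101 (.l (.s k168 k84 13 (.s k170 k255 14 (.s k154 k223 10 (.s k184 k116 9 (.d k169 k171 k139 0
  4)))))) (.c k216 (.q k24 [(.s k170 k255 14 (.s k154 k223 10 (.s k207 k101 14 (.d k138 k186 k69 3
  10)))), (.s k12 k36 5 (.s k8 k4 1 (.s k40 k56 3 (.d k20 k28 k60 1 5))))] .n) (.c k239 (.l (.s k170
  k255 14 (.s k154 k223 10 (.s k207 k101 14 (.d k138 k186 k69 3 10))))) (.c k255 (.l (.s k84 k168 13
  (.s k154 k223 10 (.s k207 k101 14 (.s k222 k237 4 (.d k86 k87 k18 0 9)))))) .n))))))) (.c k168 (.q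
  k240 [(.s k248 k244 1 (.s k176 k112 7 (.s k184 k116 9 (.s k120 k56 7 (.d k180 k188 k60 1 9))))),
  (.s k32 k16 3 (.s k160 k80 11 (.s k96 k224 7 (.s k144 k192 11 (.d k176 k128 k112 3 7)))))] (.c k8
  (.l (.s k248 k244 1 (.s k176 k112 7 (.s k184 k116 9 (.s k120 k56 7 (.d k180 k188 k60 1 9)))))) (.c
  k112 (.q k85 [(.s k32 k16 3 (.s k170 k255 14 (.s k101 k239 10 (.s k207 k154 14 (.d k69 k117 k138 3
  10))))), (.s k80 k160 11 (.s k170 k255 14 (.s k90 k95 2 (.s k10 k250 11 (.d k15 k5 k165 2 14))))),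
  (.s k16 k32 3 (.s k80 k160 11 (.s k154 k223 10 (.s k90 k95 2 (.s k26 k218 7 (.d k15 k37 k165 6
  14))))))] (.c k8 (.l (.s k248 k244 1 (.s k16 k32 3 (.s k170 k255 14 (.s k154 k223 10 (.s k207 k101
  14 (.d k138 k186 k69 3 10))))))) (.c k76 (.q k100 [(.s k116 k184 9 (.s k68 k84 3 (.d k204 k136
  k152 9 13))), (.s k16 k32 3 (.s k170 k255 14 (.s k154 k223 10 (.s k207 k101 14 (.d k138 k186 k69 3
  10)))))] (.c k8 (.l (.s k248 k244 1 (.s k116 k184 9 (.s k68 k84 3 (.d k204 k136 k152 9 13))))) (.c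
  k248 (.q k8 [(.s k116 k184 9 (.s k68 k84 3 (.d k204 k136 k152 9 13))), (.s k12 k4 1 (.s k36 k24 5
  (.s k228 k164 7 (.d k204 k216 k152 5 13)))), (.s k12 k4 1 (.s k16 k32 3 (.s k24 k36 5 (.s k40 k56
  3 (.d k20 k28 k60 1 5)))))] .n) .n))) (.c k100 (.q k76 [(.s k32 k16 3 (.s k170 k255 14 (.s k101
  k239 10 (.s k207 k154 14 (.d k69 k117 k138 3 10))))), (.s k80 k160 11 (.s k90 k95 2 (.s k15 k165
  14 (.s k10 k5 2 (.d k170 k250 k255 11 14))))), (.s k80 k160 11 (.s k184 k116 9 (.s k90 k95 2 (.s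
  k248 k244 1 (.s k169 k11 12 (.s k154 k139 4 (.d k16 k32 k223 3 10)))))))] (.c k8 (.l (.s k248 k244
  1 (.s k32 k16 3 (.s k170 k255 14 (.s k101 k239 10 (.s k207 k154 14 (.d k69 k117 k138 3 10)))))))
  (.c k32 (.q k236 [(.s k80 k160 11 (.s k90 k95 2 (.s k15 k165 14 (.s k10 k5 2 (.d k170 k250 k255 11
  14))))), (.s k170 k255 14 (.s k204 k220 3 (.s k68 k136 9 (.s k102 k119 4 (.s k34 k238 9 (.d k51
  k17 k153 4 14)))))), (.s k204 k220 3 (.s k228 k216 5 (.s k232 k224 1 (.s k212 k192 5 (.d k244 k248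
  k196 1 3)))))] (.c k8 (.l (.s k248 k244 1 (.s k80 k160 11 (.s k170 k255 14 (.s k90 k95 2 (.s k10
  k250 11 (.d k15 k5 k165 2 14))))))) (.c k248 (.q k8 [(.s k12 k4 1 (.d k204 k220 k140 3 7)), (.s
  k80 k160 11 (.s k170 k255 14 (.s k90 k95 2 (.s k10 k250 11 (.d k15 k5 k165 2 14)))))] .n) .n)))
  (.c k236 (.l (.s k32 k16 3 (.s k170 k255 14 (.s k101 k239 10 (.s k207 k154 14 (.d k69 k117 k138 3
  10)))))) (.c k248 (.q k8 [(.s k32 k16 3 (.s k170 k255 14 (.s k101 k239 10 (.s k207 k154 14 (.d k69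
  k117 k138 3 10))))), (.s k12 k4 1 (.s k24 k36 5 (.s k40 k56 3 (.s k20 k60 5 (.d k16 k32 k28 3
  1)))))] (.c k16 (.l (.s k12 k4 1 (.s k170 k255 14 (.s k89 k251 12 (.s k243 k166 14 (.d k81 k93
  k162 1 12)))))) (.c k32 (.q k236 [(.s k12 k4 1 (.d k204 k220 k140 3 7)), (.s k80 k160 11 (.s k170
  k255 14 (.s k90 k95 2 (.s k10 k250 11 (.d k15 k5 k165 2 14)))))] .n) (.c k236 (.l (.s k32 k16 3
  (.s k170 k255 14 (.s k101 k239 10 (.s k207 k154 14 (.d k69 k117 k138 3 10)))))) .n)))) .n))))) (.c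
  k248 (.q k8 [(.s k12 k4 1 (.s k16 k32 3 (.s k24 k36 5 (.s k40 k56 3 (.d k20 k28 k60 1 5))))), (.s
  k12 k4 1 (.s k170 k255 14 (.s k89 k251 12 (.s k243 k166 14 (.d k81 k93 k162 1 12))))), (.s k16 k32
  3 (.s k170 k255 14 (.s k154 k223 10 (.s k207 k101 14 (.d k138 k186 k69 3 10)))))] (.c k76 (.q k100
  [(.s k116 k184 9 (.s k68 k84 3 (.d k204 k136 k152 9 13))), (.s k12 k4 1 (.s k36 k24 5 (.s k228
  k164 7 (.d k204 k216 k152 5 13)))), (.s k12 k4 1 (.s k16 k32 3 (.s k24 k36 5 (.s k40 k56 3 (.d k20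
  k28 k60 1 5)))))] .n) (.c k100 (.q k76 [(.s k32 k16 3 (.s k170 k255 14 (.s k101 k239 10 (.s k207
  k154 14 (.d k69 k117 k138 3 10))))), (.s k12 k4 1 (.s k24 k36 5 (.s k40 k56 3 (.s k20 k60 5 (.d
  k16 k32 k28 3 1)))))] (.c k16 (.l (.s k12 k4 1 (.s k170 k255 14 (.s k89 k251 12 (.s k243 k166 14
  (.d k81 k93 k162 1 12)))))) (.c k32 (.q k236 [(.s k12 k4 1 (.d k204 k220 k140 3 7)), (.s k80 k160
  11 (.s k170 k255 14 (.s k90 k95 2 (.s k10 k250 11 (.d k15 k5 k165 2 14)))))] .n) (.c k236 (.l (.s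
  k32 k16 3 (.s k170 k255 14 (.s k101 k239 10 (.s k207 k154 14 (.d k69 k117 k138 3 10)))))) .n))))
  .n))) .n))))) (.c k176 (.f k16 k32 3 (.f k116 k184 9 (.l (.s k80 k160 11 (.s k144 k208 7 (.s k96
  k192 11 (.s k112 k64 3 (.s k120 k124 1 (.s k180 k60 9 (.d k244 k248 k52 1 7)))))))))) (.c k248 (.q
  k8 [(.s k12 k4 1 (.s k24 k36 5 (.s k40 k56 3 (.s k20 k60 5 (.d k16 k28 k32 1 3))))), (.s k16 k32 3
  (.s k80 k160 11 (.s k112 k176 7 (.s k96 k64 3 (.d k144 k208 k192 7 11))))), (.s k12 k4 1 (.s k24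
  k36 5 (.s k40 k56 3 (.s k112 k176 7 (.s k116 k184 9 (.s k120 k124 1 (.d k60 k20 k180 5 9)))))))]
  .n) .n))))) (.c k184 (.q k20 [(.s k32 k16 3 (.s k40 k60 5 (.s k36 k44 1 (.s k4 k52 3 (.d k12 k8
  k24 1 5))))), (.s k60 k40 5 (.s k84 k168 13 (.s k148 k212 7 (.s k104 k192 13 (.d k124 k64 k188 5
  7)))))] (.c k8 (.l (.s k16 k32 3 (.s k60 k40 5 (.s k24 k28 1 (.s k36 k12 5 (.d k52 k56 k4 1
  3)))))) (.c k40 (.q k85 [(.s k16 k32 3 (.s k170 k255 14 (.s k154 k223 10 (.s k207 k101 14 (.d k138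
  k186 k69 3 10))))), (.s k84 k168 13 (.s k255 k170 14 (.s k212 k148 7 (.s k215 k150 8 (.s k213 k214
  0 (.d k192 k232 k234 5 6)))))), (.s k16 k32 3 (.s k28 k24 1 (.s k154 k223 10 (.s k150 k215 8 (.s
  k211 k89 10 (.d k146 k158 k81 1 8))))))] .n) (.c k60 (.l (.s k16 k32 3 (.s k84 k168 13 (.s k212
  k148 7 (.s k192 k232 5 (.s k144 k96 11 (.s k208 k80 7 (.d k220 k152 k216 9 1)))))))) .n)))) (.c
  k204 (.f k116 k184 9 (.f k16 k32 3 (.q k20 [(.s k60 k40 5 (.s k52 k56 1 (.s k36 k4 3 (.d k24 k28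
  k12 1 5)))), (.s k60 k40 5 (.s k84 k168 13 (.s k148 k212 7 (.s k104 k192 13 (.d k124 k64 k188 5
  7))))), (.s k84 k168 13 (.s k24 k28 1 (.s k148 k212 7 (.s k100 k68 3 (.s k52 k196 11 (.d k36 k4
  k12 3 5)))))), (.s k60 k40 5 (.s k24 k28 1 (.s k36 k12 5 (.d k52 k56 k4 1 3))))] (.c k36 (.l (.s
  k84 k168 13 (.s k148 k212 7 (.s k100 k68 3 (.s k52 k196 11 (.d k60 k56 k40 1 5)))))) (.c k70 (.q
  k137 [(.s k60 k40 5 (.s k52 k56 1 (.s k36 k4 3 (.d k24 k28 k12 1 5)))), (.s k60 k40 5 (.s k84 k168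
  13 (.s k148 k212 7 (.s k104 k192 13 (.d k124 k64 k188 5 7))))), (.s k84 k168 13 (.s k24 k28 1 (.s
  k148 k212 7 (.s k100 k68 3 (.s k52 k196 11 (.d k36 k4 k12 3 5)))))), (.s k60 k40 5 (.s k24 k28 1
  (.s k36 k12 5 (.d k52 k56 k4 1 3))))] (.c k36 (.l (.s k84 k168 13 (.s k148 k212 7 (.s k100 k68 3
  (.s k52 k196 11 (.d k60 k56 k40 1 5)))))) .n)) (.c k137 (.q k70 [(.s k60 k40 5 (.s k52 k56 1 (.s
  k36 k4 3 (.d k24 k28 k12 1 5)))), (.s k60 k40 5 (.s k84 k168 13 (.s k148 k212 7 (.s k104 k192 13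
  (.d k124 k64 k188 5 7))))), (.s k84 k168 13 (.s k24 k28 1 (.s k148 k212 7 (.s k100 k68 3 (.s k52
  k196 11 (.d k36 k4 k12 3 5)))))), (.s k60 k40 5 (.s k24 k28 1 (.s k36 k12 5 (.d k52 k56 k4 1
  3))))] (.c k36 (.l (.s k84 k168 13 (.s k148 k212 7 (.s k100 k68 3 (.s k52 k196 11 (.d k60 k56 k40
  1 5)))))) .n)) .n)))))) (.c k220 (.l (.s k32 k16 3 (.s k184 k116 9 (.s k168 k84 13 (.s k152 k136 3
  (.d k100 k236 k204 9 13)))))) (.c k236 (.l (.s k16 k32 3 (.s k116 k184 9 (.s k84 k168 13 (.s k100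
  k68 3 (.d k152 k220 k204 9 13)))))) .n))))))))))))

def t89 : T TT 256 :=
  (.q k48 [(.s k16 k32 3 (.s k84 k168 13 (.s k152 k220 9 (.s k116 k184 9 (.d k100 k68 k204 3
  13)))))] (.c k16 (.q k240 [(.s k80 k160 11 (.s k84 k168 13 (.s k244 k248 1 (.s k164 k4 11 (.d k88
  k92 k12 1 13))))), (.s k112 k176 7 (.s k116 k184 9 (.s k120 k124 1 (.s k180 k60 9 (.d k244 k248
  k52 1 7))))), (.s k80 k160 11 (.s k84 k168 13 (.s k112 k176 7 (.s k116 k184 9 (.s k64 k96 3 (.d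
  k124 k120 k104 1 5))))))] .n) (.c k32 (.q k240 [(.s k112 k176 7 (.s k116 k184 9 (.s k120 k124 1
  (.s k180 k60 9 (.d k244 k248 k52 1 7))))), (.s k80 k160 11 (.s k84 k168 13 (.s k88 k92 1 (.s k164
  k12 13 (.d k244 k248 k4 1 11))))), (.s k80 k160 11 (.s k84 k168 13 (.s k112 k176 7 (.s k116 k184 9
  (.s k100 k68 3 (.d k88 k92 k76 1 5))))))] .n) (.c k68 (.l (.s k32 k16 3 (.s k168 k84 13 (.s k100
  k236 9 (.s k152 k204 13 (.d k184 k116 k136 9 3)))))) (.c k84 (.f k16 k32 3 (.q k85 [(.s k170 k255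
  14 (.s k154 k223 10 (.s k138 k186 3 (.d k207 k69 k101 10 14)))), (.s k154 k223 10 (.s k184 k116 9
  (.s k169 k139 4 (.s k253 k1 13 (.d k255 k254 k170 0 14))))), (.s k255 k170 14 (.s k184 k116 9 (.s
  k186 k117 10 (.s k185 k187 0 (.s k118 k51 10 (.d k254 k253 k50 0 9))))))] (.c k170 (.l (.s k154
  k223 10 (.s k101 k207 14 (.s k184 k116 9 (.s k117 k69 3 (.s k255 k186 10 (.s k253 k254 0 (.d k169
  k139 k1 4 13)))))))) (.c k255 (.q k240 [(.s k80 k160 11 (.s k144 k208 7 (.s k112 k176 7 (.d k96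
  k64 k192 3 11)))), (.s k154 k223 10 (.s k176 k112 7 (.s k165 k143 6 (.s k5 k245 11 (.d k15 k10 k90
  2 14))))), (.s k80 k160 11 (.s k154 k223 10 (.s k207 k101 14 (.s k90 k95 2 (.d k218 k229 k26 6
  7)))))] (.c k87 (.q k171 [(.s k80 k160 11 (.s k144 k208 7 (.s k112 k176 7 (.d k96 k64 k192 3
  11)))), (.s k154 k223 10 (.s k176 k112 7 (.s k165 k143 6 (.s k5 k245 11 (.d k15 k10 k90 2 14))))),
  (.s k80 k160 11 (.s k154 k223 10 (.s k207 k101 14 (.s k90 k95 2 (.d k218 k229 k26 6 7)))))] .n)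
  (.c k171 (.q k87 [(.s k80 k160 11 (.s k144 k208 7 (.s k112 k176 7 (.d k96 k64 k192 3 11)))), (.s
  k154 k223 10 (.s k176 k112 7 (.s k165 k143 6 (.s k5 k245 11 (.d k15 k10 k90 2 14))))), (.s k80
  k160 11 (.s k154 k223 10 (.s k207 k101 14 (.s k90 k95 2 (.d k218 k229 k26 6 7)))))] .n) .n)))
  .n)))) (.c k100 (.q k240 [(.s k32 k16 3 (.s k160 k80 11 (.s k96 k224 7 (.s k144 k192 11 (.d k176
  k128 k112 3 7))))), (.s k160 k80 11 (.s k168 k84 13 (.s k164 k172 1 (.s k88 k12 13 (.d k248 k244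
  k8 1 11))))), (.s k112 k176 7 (.s k116 k184 9 (.s k120 k124 1 (.s k180 k60 9 (.d k244 k248 k52 1
  7)))))] .n) (.c k116 (.q k240 [(.s k16 k32 3 (.s k80 k160 11 (.s k144 k208 7 (.s k112 k176 7 (.d
  k96 k64 k192 3 11))))), (.s k80 k160 11 (.s k84 k168 13 (.s k88 k92 1 (.s k164 k12 13 (.d k244
  k248 k4 1 11))))), (.s k16 k32 3 (.s k84 k168 13 (.s k152 k220 9 (.s k176 k112 7 (.s k164 k140 5
  (.d k244 k248 k4 1 11))))))] .n) (.c k152 (.q k240 [(.s k16 k32 3 (.s k80 k160 11 (.s k144 k208 7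
  (.s k96 k192 11 (.d k112 k64 k176 3 7))))), (.s k80 k160 11 (.s k84 k168 13 (.s k88 k92 1 (.s k164
  k12 13 (.d k244 k248 k4 1 11))))), (.s k112 k176 7 (.s k116 k184 9 (.s k120 k124 1 (.s k180 k60 9
  (.d k244 k248 k52 1 7)))))] .n) (.c k168 (.q k240 [(.s k32 k16 3 (.s k160 k80 11 (.s k96 k224 7
  (.s k144 k192 11 (.d k176 k128 k112 3 7))))), (.s k112 k176 7 (.s k116 k184 9 (.s k120 k124 1 (.s
  k180 k60 9 (.d k244 k248 k52 1 7)))))] (.c k112 (.q k85 [(.s k80 k160 11 (.s k170 k255 14 (.s k90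
  k95 2 (.s k10 k250 11 (.d k15 k5 k165 2 14))))), (.s k16 k32 3 (.s k154 k223 10 (.s k101 k207 14
  (.s k117 k69 3 (.d k255 k186 k170 10 14))))), (.s k16 k32 3 (.s k80 k160 11 (.s k154 k223 10 (.s
  k90 k95 2 (.s k26 k218 7 (.d k15 k37 k165 6 14))))))] .n) (.c k176 (.q k85 [(.s k16 k32 3 (.s k154
  k223 10 (.s k101 k207 14 (.s k117 k69 3 (.d k255 k186 k170 10 14))))), (.s k80 k160 11 (.s k170
  k255 14 (.s k90 k95 2 (.s k10 k250 11 (.d k15 k5 k165 2 14))))), (.s k16 k32 3 (.s k80 k160 11 (.s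
  k154 k223 10 (.s k90 k95 2 (.s k26 k218 7 (.d k15 k37 k165 6 14))))))] .n) .n))) (.c k184 (.q k240
  [(.s k32 k16 3 (.s k176 k112 7 (.s k160 k80 11 (.s k144 k128 3 (.d k96 k224 k192 7 11))))), (.s
  k80 k160 11 (.s k84 k168 13 (.s k88 k92 1 (.s k164 k12 13 (.d k244 k248 k4 1 11))))), (.s k16 k32
  3 (.s k84 k168 13 (.s k152 k220 9 (.s k176 k112 7 (.s k164 k140 5 (.d k244 k248 k4 1 11))))))] .n)
  (.c k204 (.f k16 k32 3 (.q k240 [(.s k80 k160 11 (.s k144 k208 7 (.s k112 k176 7 (.d k96 k64 k192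
  3 11)))), (.s k84 k168 13 (.s k152 k220 9 (.s k176 k112 7 (.s k164 k140 5 (.d k244 k248 k4 1
  11))))), (.s k80 k160 11 (.s k84 k168 13 (.s k88 k92 1 (.s k164 k12 13 (.d k244 k248 k4 1 11)))))]
  (.c k70 (.q k137 [(.s k80 k160 11 (.s k144 k208 7 (.s k112 k176 7 (.d k96 k64 k192 3 11)))), (.s
  k84 k168 13 (.s k152 k220 9 (.s k176 k112 7 (.s k164 k140 5 (.d k244 k248 k4 1 11))))), (.s k80
  k160 11 (.s k84 k168 13 (.s k88 k92 1 (.s k164 k12 13 (.d k244 k248 k4 1 11)))))] .n) (.c k137 (.q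
  k70 [(.s k80 k160 11 (.s k144 k208 7 (.s k112 k176 7 (.d k96 k64 k192 3 11)))), (.s k84 k168 13
  (.s k152 k220 9 (.s k176 k112 7 (.s k164 k140 5 (.d k244 k248 k4 1 11))))), (.s k80 k160 11 (.s
  k84 k168 13 (.s k88 k92 1 (.s k164 k12 13 (.d k244 k248 k4 1 11)))))] .n) .n)))) (.c k220 (.l (.s
  k32 k16 3 (.s k184 k116 9 (.s k168 k84 13 (.s k152 k136 3 (.d k100 k236 k204 9 13)))))) (.c k236
  (.l (.s k16 k32 3 (.s k116 k184 9 (.s k84 k168 13 (.s k100 k68 3 (.d k152 k220 k204 9 13))))))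
  .n)))))))))))))

theorem c63 : rootOK2 k252 k3 k63 t63 = true := by decide +kernel

theorem c84 : rootOK2 k252 k3 k84 t84 = true := by decide +kernel

theorem c85 : rootOK2 k252 k3 k85 t85 = true := by decide +kernel

theorem c86 : rootOK2 k252 k3 k86 t86 = true := by decide +kernel

theorem c87 : rootOK2 k252 k3 k87 t87 = true := by decide +kernel

theorem c88 : rootOK2 k252 k3 k88 t88 = true := by decide +kernel

theorem c89 : rootOK2 k252 k3 k89 t89 = true := by decide +kernel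

def l : List Nat :=
  [k63.c, k84.c, k85.c, k86.c, k87.c, k88.c, k89.c]

theorem ok : AllQ k252.c k3.c l :=
  allQ_cons c63 (allQ_cons c84 (allQ_cons c85 (allQ_cons c86 (allQ_cons c87 (allQ_cons c88 (
  allQ_cons c89 (allQ_nil _ _)))))))

end Pool.Agent.TTT.C03
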