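import Pool.Agent.TTT.Sym2

set_option autoImplicit false
set_option maxRecDepth 100000

namespace Pool.Agent.TTT.C04

def t90 : T TT 256 :=
  (.q k48 [(.s k16 k32 3 (.s k84 k168 13 (.s k152 k220 9 (.s k116 k184 9 (.d k100 k68 k204 3
  13)))))] (.c k16 (.q k240 [(.s k80 k160 11 (.s k84 k168 13 (.s k88 k92 1 (.s k164 k12 13 (.d k244
  k248 k4 1 11))))), (.s k112 k176 7 (.s k116 k184 9 (.s k120 k124 1 (.s k180 k60 9 (.d k244 k248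
  k52 1 7))))), (.s k80 k160 11 (.s k84 k168 13 (.s k112 k176 7 (.s k116 k184 9 (.s k64 k96 3 (.d
  k124 k120 k104 1 5))))))] .n) (.c k32 (.q k240 [(.s k112 k176 7 (.s k116 k184 9 (.s k120 k124 1
  (.s k180 k60 9 (.d k244 k248 k52 1 7))))), (.s k80 k160 11 (.s k84 k168 13 (.s k88 k92 1 (.s k164
  k12 13 (.d k244 k248 k4 1 11))))), (.s k80 k160 11 (.s k84 k168 13 (.s k112 k176 7 (.s k116 k184 9
  (.s k100 k68 3 (.d k88 k92 k76 1 5))))))] .n) (.c k68 (.l (.s k32 k16 3 (.s k168 k84 13 (.s k100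
  k236 9 (.s k152 k204 13 (.d k184 k116 k136 9 3)))))) (.c k84 (.f k16 k32 3 (.q k240 [(.s k80 k160
  11 (.s k144 k208 7 (.s k112 k176 7 (.d k96 k64 k192 3 11)))), (.s k112 k176 7 (.s k116 k184 9 (.s
  k244 k248 1 (.s k180 k52 7 (.d k120 k124 k60 1 9)))))] (.c k112 (.q k101 [(.s k154 k207 14 (.s k85
  k223 10 (.s k117 k69 3 (.d k255 k186 k170 10 14)))), (.s k116 k184 9 (.s k244 k248 1 (.s k52 k180
  7 (.s k199 k150 12 (.s k229 k214 4 (.s k165 k37 7 (.d k86 k71 k7 4 12)))))))] (.c k71 (.l (.s k207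
  k154 14 (.s k116 k184 9 (.s k244 k248 1 (.s k52 k180 7 (.s k199 k150 12 (.d k229 k218 k214 6
  4))))))) .n)) (.c k176 (.q k20 [(.s k40 k60 5 (.s k24 k28 1 (.s k8 k56 3 (.d k12 k4 k36 1 5)))),
  (.s k116 k184 9 (.s k244 k248 1 (.s k180 k52 7 (.d k60 k120 k40 9 5)))), (.s k24 k28 1 (.s k36 k12
  5 (.s k52 k4 3 (.s k116 k184 9 (.d k244 k180 k248 7 1)))))] (.c k60 (.l (.s k24 k28 1 (.s k12 k36
  5 (.s k184 k116 9 (.s k248 k244 1 (.s k56 k120 7 (.d k8 k4 k40 1 3))))))) .n)) .n)))) (.c k100 (.q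
  k240 [(.s k112 k176 7 (.s k116 k184 9 (.s k120 k124 1 (.s k180 k60 9 (.d k244 k248 k52 1 7))))),
  (.s k16 k32 3 (.s k80 k160 11 (.s k144 k208 7 (.s k96 k192 11 (.d k112 k64 k176 3 7))))), (.s k80
  k160 11 (.s k84 k168 13 (.s k88 k92 1 (.s k164 k12 13 (.d k244 k248 k4 1 11)))))] .n) (.c k116 (.q
  k240 [(.s k16 k32 3 (.s k80 k160 11 (.s k112 k176 7 (.s k96 k64 3 (.d k144 k208 k192 7 11))))),
  (.s k80 k160 11 (.s k84 k168 13 (.s k88 k92 1 (.s k164 k12 13 (.d k244 k248 k4 1 11))))), (.s k16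
  k32 3 (.s k84 k168 13 (.s k152 k220 9 (.s k176 k112 7 (.s k164 k140 5 (.d k244 k248 k4 1 11))))))]
  .n) (.c k152 (.q k240 [(.s k16 k32 3 (.s k80 k160 11 (.s k112 k176 7 (.s k96 k64 3 (.d k144 k208
  k192 7 11))))), (.s k80 k160 11 (.s k84 k168 13 (.s k88 k92 1 (.s k164 k12 13 (.d k244 k248 k4 1
  11))))), (.s k112 k176 7 (.s k116 k184 9 (.s k120 k124 1 (.s k180 k60 9 (.d k244 k248 k52 1
  7)))))] (.c k164 (.l (.s k16 k32 3 (.s k80 k160 11 (.s k144 k208 7 (.s k96 k192 11 (.d k112 k64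
  k176 3 7)))))) .n)) (.c k168 (.q k240 [(.s k112 k176 7 (.s k116 k184 9 (.s k120 k124 1 (.s k180
  k60 9 (.d k244 k248 k52 1 7))))), (.s k16 k32 3 (.s k80 k160 11 (.s k144 k208 7 (.s k96 k192 11
  (.d k112 k64 k176 3 7)))))] (.c k112 (.q k101 [(.s k16 k32 3 (.s k154 k207 14 (.s k85 k223 10 (.s
  k117 k69 3 (.d k255 k186 k170 10 14))))), (.s k207 k154 14 (.s k116 k184 9 (.s k86 k71 4 (.s k244
  k248 1 (.s k165 k7 12 (.d k229 k218 k37 6 7)))))), (.s k32 k16 3 (.s k170 k239 10 (.s k85 k255 14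
  (.s k207 k154 14 (.d k69 k117 k138 3 10)))))] (.c k154 (.l (.s k32 k16 3 (.s k170 k239 10 (.s k116
  k184 9 (.s k86 k71 4 (.s k254 k2 13 (.d k255 k85 k253 14 0))))))) (.c k207 (.l (.s k32 k16 3 (.s
  k170 k239 10 (.s k255 k85 14 (.s k116 k184 9 (.s k254 k253 0 (.d k86 k71 k2 4 13))))))) .n))) (.c
  k176 (.q k101 [(.s k16 k32 3 (.s k154 k207 14 (.s k85 k223 10 (.s k117 k69 3 (.d k255 k186 k170 10
  14))))), (.s k207 k154 14 (.s k116 k184 9 (.s k86 k71 4 (.s k244 k248 1 (.s k165 k7 12 (.d k229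
  k218 k37 6 7)))))), (.s k32 k16 3 (.s k170 k239 10 (.s k85 k255 14 (.s k207 k154 14 (.d k69 k117
  k138 3 10)))))] (.c k154 (.l (.s k32 k16 3 (.s k170 k239 10 (.s k116 k184 9 (.s k86 k71 4 (.s k254
  k2 13 (.d k255 k85 k253 14 0))))))) (.c k207 (.l (.s k32 k16 3 (.s k170 k239 10 (.s k255 k85 14
  (.s k116 k184 9 (.s k254 k253 0 (.d k86 k71 k2 4 13))))))) .n))) .n))) (.c k184 (.q k240 [(.s k16
  k32 3 (.s k80 k160 11 (.s k112 k176 7 (.s k96 k64 3 (.d k144 k208 k192 7 11))))), (.s k80 k160 11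
  (.s k84 k168 13 (.s k88 k92 1 (.s k164 k12 13 (.d k244 k248 k4 1 11))))), (.s k16 k32 3 (.s k84
  k168 13 (.s k152 k220 9 (.s k176 k112 7 (.s k164 k140 5 (.d k244 k248 k4 1 11))))))] .n) (.c k204
  (.f k16 k32 3 (.q k240 [(.s k80 k160 11 (.s k112 k176 7 (.s k96 k64 3 (.d k144 k208 k192 7 11)))),
  (.s k84 k168 13 (.s k152 k220 9 (.s k176 k112 7 (.s k164 k140 5 (.d k244 k248 k4 1 11))))), (.s
  k80 k160 11 (.s k84 k168 13 (.s k88 k92 1 (.s k164 k12 13 (.d k244 k248 k4 1 11)))))] (.c k70 (.q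
  k137 [(.s k80 k160 11 (.s k112 k176 7 (.s k96 k64 3 (.d k144 k208 k192 7 11)))), (.s k84 k168 13
  (.s k152 k220 9 (.s k176 k112 7 (.s k164 k140 5 (.d k244 k248 k4 1 11))))), (.s k80 k160 11 (.s
  k84 k168 13 (.s k88 k92 1 (.s k164 k12 13 (.d k244 k248 k4 1 11)))))] .n) (.c k137 (.q k70 [(.s
  k80 k160 11 (.s k112 k176 7 (.s k96 k64 3 (.d k144 k208 k192 7 11)))), (.s k84 k168 13 (.s k152
  k220 9 (.s k176 k112 7 (.s k164 k140 5 (.d k244 k248 k4 1 11))))), (.s k80 k160 11 (.s k84 k168 13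
  (.s k88 k92 1 (.s k164 k12 13 (.d k244 k248 k4 1 11)))))] .n) .n)))) (.c k220 (.l (.s k32 k16 3
  (.s k184 k116 9 (.s k168 k84 13 (.s k152 k136 3 (.d k100 k236 k204 9 13)))))) (.c k236 (.l (.s k16
  k32 3 (.s k116 k184 9 (.s k84 k168 13 (.s k100 k68 3 (.d k152 k220 k204 9 13)))))) .n)))))))))))))

def t91 : T TT 256 :=
  (.q k48 [(.s k16 k32 3 (.s k84 k168 13 (.s k152 k220 9 (.s k116 k184 9 (.d k100 k68 k204 3
  13)))))] (.c k16 (.q k240 [(.s k80 k160 11 (.s k84 k168 13 (.s k88 k92 1 (.s k244 k248 1 (.d k164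
  k4 k12 11 13))))), (.s k112 k176 7 (.s k116 k184 9 (.s k120 k124 1 (.s k180 k60 9 (.d k244 k248
  k52 1 7))))), (.s k80 k160 11 (.s k84 k168 13 (.s k112 k176 7 (.s k116 k184 9 (.s k64 k96 3 (.d
  k124 k120 k104 1 5))))))] .n) (.c k32 (.q k240 [(.s k160 k80 11 (.s k248 k244 1 (.s k168 k84 13
  (.s k88 k8 11 (.d k164 k172 k12 1 13))))), (.s k112 k176 7 (.s k116 k184 9 (.s k120 k124 1 (.s
  k180 k60 9 (.d k244 k248 k52 1 7))))), (.s k80 k160 11 (.s k84 k168 13 (.s k112 k176 7 (.s k116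
  k184 9 (.s k100 k68 3 (.d k88 k92 k76 1 5))))))] .n) (.c k68 (.l (.s k32 k16 3 (.s k168 k84 13 (.s
  k100 k236 9 (.s k152 k204 13 (.d k184 k116 k136 9 3)))))) (.c k84 (.f k16 k32 3 (.q k240 [(.s k80
  k160 11 (.s k144 k208 7 (.s k112 k176 7 (.d k96 k64 k192 3 11)))), (.s k112 k176 7 (.s k116 k184 9
  (.s k244 k248 1 (.s k180 k52 7 (.d k120 k124 k60 1 9)))))] (.c k112 (.q k101 [(.s k154 k207 14 (.s
  k85 k223 10 (.s k255 k170 14 (.d k117 k69 k186 3 10)))), (.s k116 k184 9 (.s k244 k248 1 (.s k52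
  k180 7 (.s k199 k150 12 (.s k229 k214 4 (.s k165 k37 7 (.d k86 k71 k7 4 12)))))))] (.c k71 (.l (.s
  k207 k154 14 (.s k116 k184 9 (.s k229 k218 6 (.s k244 k248 1 (.s k52 k180 7 (.d k199 k214 k150 4
  12))))))) .n)) (.c k176 (.q k20 [(.s k116 k184 9 (.s k244 k248 1 (.s k180 k52 7 (.d k60 k120 k40 9
  5)))), (.s k40 k60 5 (.s k24 k28 1 (.s k8 k56 3 (.d k12 k4 k36 1 5)))), (.s k24 k28 1 (.s k36 k12
  5 (.s k52 k4 3 (.s k116 k184 9 (.d k244 k180 k248 7 1)))))] (.c k60 (.l (.s k24 k28 1 (.s k12 k36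
  5 (.s k184 k116 9 (.s k248 k244 1 (.s k56 k120 7 (.d k8 k4 k40 1 3))))))) .n)) .n)))) (.c k100 (.q
  k240 [(.s k32 k16 3 (.s k160 k80 11 (.s k96 k224 7 (.s k144 k192 11 (.d k176 k128 k112 3 7))))),
  (.s k160 k80 11 (.s k168 k84 13 (.s k164 k172 1 (.s k88 k12 13 (.d k248 k244 k8 1 11))))), (.s
  k112 k176 7 (.s k116 k184 9 (.s k120 k124 1 (.s k180 k60 9 (.d k244 k248 k52 1 7)))))] .n) (.c
  k116 (.q k240 [(.s k16 k32 3 (.s k80 k160 11 (.s k144 k208 7 (.s k112 k176 7 (.d k96 k64 k192 3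
  11))))), (.s k80 k160 11 (.s k84 k168 13 (.s k88 k92 1 (.s k164 k12 13 (.d k244 k248 k4 1 11))))),
  (.s k16 k32 3 (.s k84 k168 13 (.s k152 k220 9 (.s k176 k112 7 (.s k164 k140 5 (.d k244 k248 k4 1
  11))))))] .n) (.c k152 (.q k240 [(.s k16 k32 3 (.s k80 k160 11 (.s k144 k208 7 (.s k96 k192 11 (.d
  k112 k64 k176 3 7))))), (.s k80 k160 11 (.s k84 k168 13 (.s k88 k92 1 (.s k164 k12 13 (.d k244
  k248 k4 1 11))))), (.s k112 k176 7 (.s k116 k184 9 (.s k120 k124 1 (.s k180 k60 9 (.d k244 k248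
  k52 1 7)))))] .n) (.c k168 (.q k240 [(.s k32 k16 3 (.s k160 k80 11 (.s k96 k224 7 (.s k144 k192 11
  (.d k176 k128 k112 3 7))))), (.s k112 k176 7 (.s k116 k184 9 (.s k120 k124 1 (.s k180 k60 9 (.d
  k244 k248 k52 1 7)))))] (.c k112 (.q k20 [(.s k60 k40 5 (.s k56 k52 1 (.s k184 k116 9 (.d k120
  k180 k248 9 7)))), (.s k16 k32 3 (.s k40 k60 5 (.s k24 k28 1 (.s k8 k56 3 (.d k12 k4 k36 1 5))))),
  (.s k16 k32 3 (.s k24 k28 1 (.s k36 k12 5 (.s k52 k4 3 (.s k116 k184 9 (.d k244 k248 k180 1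
  7))))))] (.c k60 (.l (.s k16 k32 3 (.s k24 k28 1 (.s k116 k184 9 (.s k244 k248 1 (.s k52 k180 7
  (.d k36 k12 k4 5 3))))))) .n)) (.c k176 (.q k20 [(.s k60 k40 5 (.s k56 k52 1 (.s k184 k116 9 (.d
  k120 k180 k248 9 7)))), (.s k16 k32 3 (.s k40 k60 5 (.s k24 k28 1 (.s k8 k56 3 (.d k12 k4 k36 1
  5))))), (.s k16 k32 3 (.s k24 k28 1 (.s k36 k12 5 (.s k52 k4 3 (.s k116 k184 9 (.d k244 k180 k248
  7 1))))))] (.c k60 (.l (.s k16 k32 3 (.s k24 k28 1 (.s k12 k36 5 (.s k8 k4 1 (.s k184 k116 9 (.s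
  k248 k244 1 (.d k56 k40 k120 3 7)))))))) .n)) .n))) (.c k184 (.q k240 [(.s k32 k16 3 (.s k176 k112
  7 (.s k160 k80 11 (.s k144 k128 3 (.d k96 k224 k192 7 11))))), (.s k80 k160 11 (.s k84 k168 13 (.s
  k88 k92 1 (.s k164 k12 13 (.d k244 k248 k4 1 11))))), (.s k16 k32 3 (.s k84 k168 13 (.s k152 k220
  9 (.s k176 k112 7 (.s k164 k140 5 (.d k244 k248 k4 1 11))))))] .n) (.c k204 (.f k16 k32 3 (.q k240
  [(.s k80 k160 11 (.s k144 k208 7 (.s k112 k176 7 (.d k96 k64 k192 3 11)))), (.s k84 k168 13 (.s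
  k152 k220 9 (.s k176 k112 7 (.s k164 k140 5 (.d k244 k248 k4 1 11))))), (.s k80 k160 11 (.s k84
  k168 13 (.s k88 k92 1 (.s k164 k12 13 (.d k244 k248 k4 1 11)))))] (.c k70 (.q k137 [(.s k80 k160
  11 (.s k144 k208 7 (.s k112 k176 7 (.d k96 k64 k192 3 11)))), (.s k84 k168 13 (.s k152 k220 9 (.s
  k176 k112 7 (.s k164 k140 5 (.d k244 k248 k4 1 11))))), (.s k80 k160 11 (.s k84 k168 13 (.s k88
  k92 1 (.s k164 k12 13 (.d k244 k248 k4 1 11)))))] .n) (.c k137 (.q k70 [(.s k80 k160 11 (.s k144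
  k208 7 (.s k112 k176 7 (.d k96 k64 k192 3 11)))), (.s k84 k168 13 (.s k152 k220 9 (.s k176 k112 7
  (.s k164 k140 5 (.d k244 k248 k4 1 11))))), (.s k80 k160 11 (.s k84 k168 13 (.s k88 k92 1 (.s k164
  k12 13 (.d k244 k248 k4 1 11)))))] .n) .n)))) (.c k220 (.l (.s k32 k16 3 (.s k184 k116 9 (.s k168
  k84 13 (.s k152 k136 3 (.d k100 k236 k204 9 13)))))) (.c k236 (.l (.s k16 k32 3 (.s k116 k184 9
  (.s k84 k168 13 (.s k100 k68 3 (.d k152 k220 k204 9 13)))))) .n)))))))))))))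

def t92 : T TT 256 :=
  (.q k48 [(.s k16 k32 3 (.s k84 k168 13 (.s k116 k184 9 (.s k100 k68 3 (.d k152 k220 k204 9
  13)))))] (.c k16 (.q k240 [(.s k160 k80 11 (.s k248 k244 1 (.s k168 k84 13 (.s k88 k8 11 (.d k164
  k172 k12 1 13))))), (.s k112 k176 7 (.s k116 k184 9 (.s k120 k124 1 (.s k180 k60 9 (.d k244 k248
  k52 1 7))))), (.s k80 k160 11 (.s k84 k168 13 (.s k112 k176 7 (.s k116 k184 9 (.s k64 k96 3 (.d
  k124 k120 k104 1 5))))))] .n) (.c k32 (.q k240 [(.s k160 k80 11 (.s k248 k244 1 (.s k168 k84 13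
  (.s k88 k8 11 (.d k164 k172 k12 1 13))))), (.s k112 k176 7 (.s k116 k184 9 (.s k120 k124 1 (.s
  k180 k60 9 (.d k244 k248 k52 1 7)))))] (.c k244 (.l (.s k80 k160 11 (.s k84 k168 13 (.s k112 k176
  7 (.s k116 k184 9 (.s k124 k120 1 (.d k64 k96 k104 3 5))))))) (.c k248 (.l (.s k160 k80 11 (.s
  k176 k112 7 (.s k184 k116 9 (.s k128 k144 3 (.s k188 k180 1 (.d k168 k84 k148 13 5))))))) .n)))
  (.c k68 (.l (.s k32 k16 3 (.s k168 k84 13 (.s k100 k236 9 (.s k152 k204 13 (.d k184 k116 k136 9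
  3)))))) (.c k84 (.f k16 k32 3 (.q k240 [(.s k80 k160 11 (.s k144 k208 7 (.s k112 k176 7 (.d k96
  k64 k192 3 11)))), (.s k112 k176 7 (.s k116 k184 9 (.s k244 k248 1 (.s k180 k52 7 (.d k120 k124
  k60 1 9)))))] (.c k80 (.q k88 [(.s k248 k244 1 (.s k8 k168 11 (.d k12 k4 k164 1 13))), (.s k112
  k176 7 (.s k116 k184 9 (.s k120 k124 1 (.s k180 k60 9 (.d k244 k248 k52 1 7))))), (.s k164 k12 13
  (.s k112 k176 7 (.s k100 k76 5 (.s k228 k36 7 (.d k204 k216 k152 5 13)))))] .n) (.c k88 (.l (.s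
  k80 k160 11 (.s k144 k208 7 (.s k96 k192 11 (.d k112 k64 k176 3 7))))) (.c k112 (.q k12 [(.s k8 k4
  1 (.s k24 k36 5 (.s k40 k56 3 (.d k20 k28 k60 1 5)))), (.s k4 k8 1 (.s k116 k184 9 (.s k244 k248 1
  (.s k52 k180 7 (.d k36 k20 k24 3 5))))), (.s k80 k160 11 (.s k88 k164 13 (.s k208 k144 7 (.s k28
  k148 9 (.s k20 k24 1 (.d k60 k44 k40 3 5))))))] (.c k4 (.l (.s k80 k160 11 (.s k24 k36 5 (.s k88
  k164 13 (.s k244 k248 1 (.s k208 k144 7 (.d k28 k20 k148 1 9))))))) (.c k20 (.l (.s k8 k4 1 (.s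
  k116 k184 9 (.s k244 k248 1 (.s k24 k36 5 (.s k52 k180 7 (.d k56 k40 k60 3 1))))))) (.c k24 (.l
  (.s k4 k8 1 (.s k116 k184 9 (.s k244 k248 1 (.s k52 k180 7 (.s k20 k36 3 (.d k60 k56 k40 1
  5))))))) (.c k80 (.l (.s k88 k164 13 (.s k24 k36 5 (.s k20 k28 1 (.s k40 k60 5 (.d k8 k4 k56 1
  3)))))) (.c k88 (.l (.s k80 k160 11 (.s k8 k4 1 (.s k24 k36 5 (.s k40 k56 3 (.d k20 k28 k60 1
  5)))))) (.c k244 (.l (.s k24 k36 5 (.s k20 k28 1 (.s k40 k60 5 (.d k8 k4 k56 1 3))))) .n)))))))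
  (.c k176 (.q k20 [(.s k116 k184 9 (.s k244 k248 1 (.s k180 k52 7 (.d k60 k120 k40 9 5)))), (.s k40
  k60 5 (.s k24 k28 1 (.s k8 k56 3 (.d k12 k4 k36 1 5)))), (.s k24 k28 1 (.s k36 k12 5 (.s k52 k4 3
  (.s k116 k184 9 (.d k244 k180 k248 7 1)))))] (.c k60 (.l (.s k24 k28 1 (.s k12 k36 5 (.s k184 k116
  9 (.s k248 k244 1 (.s k56 k120 7 (.d k8 k4 k40 1 3))))))) (.c k80 (.q k88 [(.s k24 k28 1 (.d k12
  k36 k164 5 13)), (.s k248 k244 1 (.s k8 k168 11 (.d k12 k4 k164 1 13)))] (.c k12 (.l (.s k40 k60 5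
  (.s k248 k244 1 (.s k8 k168 11 (.d k24 k28 k56 1 3))))) (.c k164 (.l (.s k40 k60 5 (.s k24 k28 1
  (.s k8 k56 3 (.d k12 k4 k36 1 5))))) .n))) (.c k88 (.l (.s k80 k160 11 (.s k40 k60 5 (.s k24 k28 1
  (.s k8 k56 3 (.d k12 k4 k36 1 5)))))) .n)))) .n)))))) (.c k100 (.q k240 [(.s k160 k80 11 (.s k248
  k244 1 (.s k168 k84 13 (.s k88 k8 11 (.d k164 k172 k12 1 13))))), (.s k16 k32 3 (.s k80 k160 11
  (.s k144 k208 7 (.s k96 k192 11 (.d k112 k64 k176 3 7))))), (.s k112 k176 7 (.s k116 k184 9 (.s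
  k120 k124 1 (.s k180 k60 9 (.d k244 k248 k52 1 7)))))] .n) (.c k116 (.q k240 [(.s k16 k32 3 (.s
  k80 k160 11 (.s k144 k208 7 (.s k112 k176 7 (.d k96 k64 k192 3 11))))), (.s k160 k80 11 (.s k248
  k244 1 (.s k168 k84 13 (.s k88 k8 11 (.d k164 k172 k12 1 13))))), (.s k16 k32 3 (.s k84 k168 13
  (.s k152 k220 9 (.s k176 k112 7 (.s k164 k140 5 (.d k244 k248 k4 1 11))))))] .n) (.c k136 (.l (.s
  k16 k32 3 (.s k84 k168 13 (.s k152 k220 9 (.s k100 k204 13 (.d k116 k184 k68 9 3)))))) (.c k152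
  (.q k240 [(.s k16 k32 3 (.s k80 k160 11 (.s k144 k208 7 (.s k96 k192 11 (.d k112 k64 k176 3
  7))))), (.s k112 k176 7 (.s k116 k184 9 (.s k120 k124 1 (.s k180 k60 9 (.d k244 k248 k52 1 7))))),
  (.s k160 k80 11 (.s k248 k244 1 (.s k168 k84 13 (.s k88 k8 11 (.d k164 k172 k12 1 13)))))] .n) (.c
  k168 (.q k240 [(.s k32 k16 3 (.s k160 k80 11 (.s k96 k224 7 (.s k144 k192 11 (.d k176 k128 k112 3
  7))))), (.s k112 k176 7 (.s k116 k184 9 (.s k120 k124 1 (.s k180 k60 9 (.d k244 k248 k52 1 7)))))]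
  (.c k112 (.q k20 [(.s k60 k40 5 (.s k56 k52 1 (.s k184 k116 9 (.d k120 k180 k248 9 7)))), (.s k16
  k32 3 (.s k40 k60 5 (.s k24 k28 1 (.s k8 k56 3 (.d k12 k4 k36 1 5))))), (.s k16 k32 3 (.s k24 k28
  1 (.s k36 k12 5 (.s k52 k4 3 (.s k116 k184 9 (.d k244 k248 k180 1 7))))))] (.c k60 (.l (.s k16 k32
  3 (.s k24 k28 1 (.s k116 k184 9 (.s k244 k248 1 (.s k52 k180 7 (.d k36 k12 k4 5 3))))))) .n)) (.c
  k176 (.q k20 [(.s k60 k40 5 (.s k56 k52 1 (.s k184 k116 9 (.d k120 k180 k248 9 7)))), (.s k16 k32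
  3 (.s k40 k60 5 (.s k24 k28 1 (.s k8 k56 3 (.d k12 k4 k36 1 5))))), (.s k16 k32 3 (.s k24 k28 1
  (.s k36 k12 5 (.s k52 k4 3 (.s k116 k184 9 (.d k244 k180 k248 7 1))))))] (.c k60 (.l (.s k16 k32 3
  (.s k24 k28 1 (.s k12 k36 5 (.s k8 k4 1 (.s k184 k116 9 (.s k248 k244 1 (.d k56 k40 k120 3
  7)))))))) .n)) .n))) (.c k184 (.q k240 [(.s k160 k80 11 (.s k248 k244 1 (.s k168 k84 13 (.s k88 k8
  11 (.d k164 k172 k12 1 13))))), (.s k16 k32 3 (.s k80 k160 11 (.s k144 k208 7 (.s k96 k192 11 (.d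
  k112 k64 k176 3 7))))), (.s k16 k32 3 (.s k84 k168 13 (.s k152 k220 9 (.s k176 k112 7 (.s k164
  k140 5 (.d k244 k248 k4 1 11))))))] .n) (.c k204 (.f k16 k32 3 (.q k240 [(.s k80 k160 11 (.s k144
  k208 7 (.s k112 k176 7 (.d k96 k64 k192 3 11)))), (.s k160 k80 11 (.s k248 k244 1 (.s k168 k84 13
  (.s k88 k8 11 (.d k164 k172 k12 1 13))))), (.s k84 k168 13 (.s k152 k220 9 (.s k176 k112 7 (.s
  k164 k140 5 (.d k244 k248 k4 1 11)))))] (.c k70 (.q k137 [(.s k80 k160 11 (.s k144 k208 7 (.s k112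
  k176 7 (.d k96 k64 k192 3 11)))), (.s k160 k80 11 (.s k248 k244 1 (.s k168 k84 13 (.s k88 k8 11
  (.d k164 k172 k12 1 13))))), (.s k84 k168 13 (.s k152 k220 9 (.s k176 k112 7 (.s k164 k140 5 (.d
  k244 k248 k4 1 11)))))] .n) (.c k137 (.q k70 [(.s k80 k160 11 (.s k144 k208 7 (.s k112 k176 7 (.d
  k96 k64 k192 3 11)))), (.s k160 k80 11 (.s k248 k244 1 (.s k168 k84 13 (.s k88 k8 11 (.d k164 k172
  k12 1 13))))), (.s k84 k168 13 (.s k152 k220 9 (.s k176 k112 7 (.s k164 k140 5 (.d k244 k248 k4 1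
  11)))))] .n) .n)))) (.c k220 (.l (.s k32 k16 3 (.s k184 k116 9 (.s k168 k84 13 (.s k152 k136 3 (.d
  k100 k236 k204 9 13)))))) (.c k236 (.l (.s k16 k32 3 (.s k116 k184 9 (.s k84 k168 13 (.s k100 k68
  3 (.d k152 k220 k204 9 13)))))) .n))))))))))))))

def t93 : T TT 256 :=
  (.q k48 [(.s k16 k32 3 (.s k84 k168 13 (.s k152 k220 9 (.s k116 k184 9 (.d k100 k68 k204 3
  13)))))] (.c k16 (.q k240 [(.s k80 k160 11 (.s k84 k168 13 (.s k244 k248 1 (.s k164 k4 11 (.d k88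
  k92 k12 1 13))))), (.s k112 k176 7 (.s k116 k184 9 (.s k120 k124 1 (.s k180 k60 9 (.d k244 k248
  k52 1 7))))), (.s k80 k160 11 (.s k84 k168 13 (.s k112 k176 7 (.s k116 k184 9 (.s k64 k96 3 (.d
  k124 k120 k104 1 5))))))] .n) (.c k32 (.q k240 [(.s k160 k80 11 (.s k248 k244 1 (.s k168 k84 13
  (.s k88 k8 11 (.d k164 k172 k12 1 13))))), (.s k112 k176 7 (.s k116 k184 9 (.s k120 k124 1 (.s
  k180 k60 9 (.d k244 k248 k52 1 7))))), (.s k80 k160 11 (.s k84 k168 13 (.s k112 k176 7 (.s k116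
  k184 9 (.s k100 k68 3 (.d k88 k92 k76 1 5))))))] .n) (.c k68 (.l (.s k32 k16 3 (.s k168 k84 13 (.s
  k100 k236 9 (.s k152 k204 13 (.d k184 k116 k136 9 3)))))) (.c k84 (.f k16 k32 3 (.q k240 [(.s k80
  k160 11 (.s k144 k208 7 (.s k112 k176 7 (.d k96 k64 k192 3 11)))), (.s k112 k176 7 (.s k116 k184 9
  (.s k244 k248 1 (.s k180 k52 7 (.d k120 k124 k60 1 9)))))] (.c k112 (.q k20 [(.s k116 k184 9 (.s
  k244 k248 1 (.s k52 k180 7 (.d k60 k56 k40 1 5)))), (.s k40 k60 5 (.s k24 k28 1 (.s k8 k56 3 (.d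
  k12 k4 k36 1 5)))), (.s k24 k28 1 (.s k36 k12 5 (.s k52 k4 3 (.s k116 k184 9 (.d k244 k248 k180 1
  7)))))] (.c k60 (.l (.s k24 k28 1 (.s k116 k184 9 (.s k244 k248 1 (.s k52 k180 7 (.d k36 k12 k4 5
  3)))))) .n)) (.c k176 (.q k20 [(.s k116 k184 9 (.s k244 k248 1 (.s k180 k52 7 (.d k60 k120 k40 9
  5)))), (.s k40 k60 5 (.s k24 k28 1 (.s k8 k56 3 (.d k12 k4 k36 1 5)))), (.s k24 k28 1 (.s k36 k12
  5 (.s k52 k4 3 (.s k116 k184 9 (.d k244 k180 k248 7 1)))))] (.c k60 (.l (.s k24 k28 1 (.s k12 k36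
  5 (.s k184 k116 9 (.s k248 k244 1 (.s k56 k120 7 (.d k8 k4 k40 1 3))))))) .n)) .n)))) (.c k100 (.q
  k240 [(.s k32 k16 3 (.s k160 k80 11 (.s k96 k224 7 (.s k144 k192 11 (.d k176 k128 k112 3 7))))),
  (.s k160 k80 11 (.s k168 k84 13 (.s k164 k172 1 (.s k88 k12 13 (.d k248 k244 k8 1 11))))), (.s
  k112 k176 7 (.s k116 k184 9 (.s k120 k124 1 (.s k180 k60 9 (.d k244 k248 k52 1 7)))))] .n) (.c
  k116 (.q k240 [(.s k16 k32 3 (.s k80 k160 11 (.s k144 k208 7 (.s k112 k176 7 (.d k96 k64 k192 3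
  11))))), (.s k80 k160 11 (.s k84 k168 13 (.s k88 k92 1 (.s k164 k12 13 (.d k244 k248 k4 1 11))))),
  (.s k16 k32 3 (.s k84 k168 13 (.s k152 k220 9 (.s k176 k112 7 (.s k164 k140 5 (.d k244 k248 k4 1
  11))))))] .n) (.c k152 (.q k240 [(.s k16 k32 3 (.s k80 k160 11 (.s k144 k208 7 (.s k96 k192 11 (.d
  k112 k64 k176 3 7))))), (.s k80 k160 11 (.s k84 k168 13 (.s k88 k92 1 (.s k164 k12 13 (.d k244
  k248 k4 1 11))))), (.s k112 k176 7 (.s k116 k184 9 (.s k120 k124 1 (.s k180 k60 9 (.d k244 k248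
  k52 1 7)))))] .n) (.c k168 (.q k240 [(.s k32 k16 3 (.s k160 k80 11 (.s k96 k224 7 (.s k144 k192 11
  (.d k176 k128 k112 3 7))))), (.s k112 k176 7 (.s k116 k184 9 (.s k120 k124 1 (.s k180 k60 9 (.d
  k244 k248 k52 1 7)))))] (.c k112 (.q k20 [(.s k60 k40 5 (.s k56 k52 1 (.s k184 k116 9 (.d k120
  k180 k248 9 7)))), (.s k16 k32 3 (.s k40 k60 5 (.s k24 k28 1 (.s k8 k56 3 (.d k12 k4 k36 1 5))))),
  (.s k16 k32 3 (.s k24 k28 1 (.s k36 k12 5 (.s k52 k4 3 (.s k116 k184 9 (.d k244 k248 k180 1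
  7))))))] (.c k60 (.l (.s k16 k32 3 (.s k24 k28 1 (.s k116 k184 9 (.s k244 k248 1 (.s k52 k180 7
  (.d k36 k12 k4 5 3))))))) .n)) (.c k176 (.q k20 [(.s k60 k40 5 (.s k56 k52 1 (.s k184 k116 9 (.d
  k120 k180 k248 9 7)))), (.s k16 k32 3 (.s k40 k60 5 (.s k24 k28 1 (.s k8 k56 3 (.d k12 k4 k36 1
  5))))), (.s k16 k32 3 (.s k24 k28 1 (.s k36 k12 5 (.s k52 k4 3 (.s k116 k184 9 (.d k244 k180 k248
  7 1))))))] (.c k60 (.l (.s k16 k32 3 (.s k24 k28 1 (.s k12 k36 5 (.s k8 k4 1 (.s k184 k116 9 (.s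
  k248 k244 1 (.d k56 k40 k120 3 7)))))))) .n)) .n))) (.c k184 (.q k240 [(.s k32 k16 3 (.s k176 k112
  7 (.s k160 k80 11 (.s k144 k128 3 (.d k96 k224 k192 7 11))))), (.s k80 k160 11 (.s k84 k168 13 (.s
  k88 k92 1 (.s k164 k12 13 (.d k244 k248 k4 1 11))))), (.s k16 k32 3 (.s k84 k168 13 (.s k152 k220
  9 (.s k176 k112 7 (.s k164 k140 5 (.d k244 k248 k4 1 11))))))] .n) (.c k204 (.f k16 k32 3 (.q k240
  [(.s k80 k160 11 (.s k144 k208 7 (.s k112 k176 7 (.d k96 k64 k192 3 11)))), (.s k84 k168 13 (.s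
  k152 k220 9 (.s k176 k112 7 (.s k164 k140 5 (.d k244 k248 k4 1 11))))), (.s k80 k160 11 (.s k84
  k168 13 (.s k88 k92 1 (.s k164 k12 13 (.d k244 k248 k4 1 11)))))] (.c k70 (.q k137 [(.s k80 k160
  11 (.s k144 k208 7 (.s k112 k176 7 (.d k96 k64 k192 3 11)))), (.s k84 k168 13 (.s k152 k220 9 (.s
  k176 k112 7 (.s k164 k140 5 (.d k244 k248 k4 1 11))))), (.s k80 k160 11 (.s k84 k168 13 (.s k88
  k92 1 (.s k164 k12 13 (.d k244 k248 k4 1 11)))))] .n) (.c k137 (.q k70 [(.s k80 k160 11 (.s k144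
  k208 7 (.s k112 k176 7 (.d k96 k64 k192 3 11)))), (.s k84 k168 13 (.s k152 k220 9 (.s k176 k112 7
  (.s k164 k140 5 (.d k244 k248 k4 1 11))))), (.s k80 k160 11 (.s k84 k168 13 (.s k88 k92 1 (.s k164
  k12 13 (.d k244 k248 k4 1 11)))))] .n) .n)))) (.c k220 (.l (.s k32 k16 3 (.s k184 k116 9 (.s k168
  k84 13 (.s k152 k136 3 (.d k100 k236 k204 9 13)))))) (.c k236 (.l (.s k16 k32 3 (.s k116 k184 9
  (.s k84 k168 13 (.s k100 k68 3 (.d k152 k220 k204 9 13)))))) .n)))))))))))))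

def t94 : T TT 256 :=
  (.q k48 [(.s k16 k32 3 (.s k84 k168 13 (.s k116 k184 9 (.s k100 k68 3 (.d k152 k220 k204 9
  13)))))] (.c k16 (.q k240 [(.s k80 k160 11 (.s k84 k168 13 (.s k244 k248 1 (.s k164 k4 11 (.d k88
  k92 k12 1 13))))), (.s k112 k176 7 (.s k116 k184 9 (.s k120 k124 1 (.s k180 k60 9 (.d k244 k248
  k52 1 7))))), (.s k80 k160 11 (.s k84 k168 13 (.s k112 k176 7 (.s k116 k184 9 (.s k64 k96 3 (.d
  k124 k120 k104 1 5))))))] .n) (.c k32 (.q k240 [(.s k160 k80 11 (.s k248 k244 1 (.s k168 k84 13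
  (.s k88 k8 11 (.d k164 k172 k12 1 13))))), (.s k112 k176 7 (.s k116 k184 9 (.s k120 k124 1 (.s
  k180 k60 9 (.d k244 k248 k52 1 7))))), (.s k80 k160 11 (.s k84 k168 13 (.s k112 k176 7 (.s k116
  k184 9 (.s k100 k68 3 (.d k88 k92 k76 1 5))))))] .n) (.c k68 (.l (.s k32 k16 3 (.s k168 k84 13 (.s
  k100 k236 9 (.s k152 k204 13 (.d k184 k116 k136 9 3)))))) (.c k84 (.f k16 k32 3 (.q k240 [(.s k80
  k160 11 (.s k144 k208 7 (.s k112 k176 7 (.d k96 k64 k192 3 11)))), (.s k112 k176 7 (.s k116 k184 9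
  (.s k244 k248 1 (.s k180 k52 7 (.d k120 k124 k60 1 9)))))] (.c k112 (.q k20 [(.s k40 k60 5 (.s k24
  k28 1 (.s k8 k56 3 (.d k12 k4 k36 1 5)))), (.s k116 k184 9 (.s k244 k248 1 (.s k52 k180 7 (.d k60
  k56 k40 1 5)))), (.s k24 k28 1 (.s k36 k12 5 (.s k52 k4 3 (.s k116 k184 9 (.d k244 k248 k180 1
  7)))))] (.c k60 (.l (.s k24 k28 1 (.s k116 k184 9 (.s k244 k248 1 (.s k52 k180 7 (.d k36 k12 k4 5
  3)))))) .n)) (.c k176 (.q k20 [(.s k116 k184 9 (.s k244 k248 1 (.s k180 k52 7 (.d k60 k120 k40 9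
  5)))), (.s k40 k60 5 (.s k24 k28 1 (.s k8 k56 3 (.d k12 k4 k36 1 5)))), (.s k24 k28 1 (.s k36 k12
  5 (.s k52 k4 3 (.s k116 k184 9 (.d k244 k180 k248 7 1)))))] (.c k60 (.l (.s k24 k28 1 (.s k12 k36
  5 (.s k184 k116 9 (.s k248 k244 1 (.s k56 k120 7 (.d k8 k4 k40 1 3))))))) .n)) .n)))) (.c k100 (.q
  k240 [(.s k32 k16 3 (.s k160 k80 11 (.s k96 k224 7 (.s k144 k192 11 (.d k176 k128 k112 3 7))))),
  (.s k160 k80 11 (.s k168 k84 13 (.s k164 k172 1 (.s k88 k12 13 (.d k248 k244 k8 1 11))))), (.s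
  k112 k176 7 (.s k116 k184 9 (.s k120 k124 1 (.s k180 k60 9 (.d k244 k248 k52 1 7)))))] .n) (.c
  k116 (.q k240 [(.s k16 k32 3 (.s k80 k160 11 (.s k144 k208 7 (.s k112 k176 7 (.d k96 k64 k192 3
  11))))), (.s k80 k160 11 (.s k84 k168 13 (.s k88 k92 1 (.s k164 k12 13 (.d k244 k248 k4 1 11))))),
  (.s k16 k32 3 (.s k84 k168 13 (.s k152 k220 9 (.s k176 k112 7 (.s k164 k140 5 (.d k244 k248 k4 1
  11))))))] .n) (.c k136 (.l (.s k16 k32 3 (.s k84 k168 13 (.s k152 k220 9 (.s k100 k204 13 (.d k116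
  k184 k68 9 3)))))) (.c k152 (.q k240 [(.s k16 k32 3 (.s k80 k160 11 (.s k144 k208 7 (.s k96 k192
  11 (.d k112 k64 k176 3 7))))), (.s k80 k160 11 (.s k84 k168 13 (.s k88 k92 1 (.s k164 k12 13 (.d
  k244 k248 k4 1 11))))), (.s k112 k176 7 (.s k116 k184 9 (.s k120 k124 1 (.s k180 k60 9 (.d k244
  k248 k52 1 7)))))] .n) (.c k168 (.q k240 [(.s k32 k16 3 (.s k160 k80 11 (.s k96 k224 7 (.s k144
  k192 11 (.d k176 k128 k112 3 7))))), (.s k112 k176 7 (.s k116 k184 9 (.s k120 k124 1 (.s k180 k60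
  9 (.d k244 k248 k52 1 7)))))] (.c k112 (.q k20 [(.s k60 k40 5 (.s k56 k52 1 (.s k184 k116 9 (.d
  k120 k180 k248 9 7)))), (.s k16 k32 3 (.s k40 k60 5 (.s k24 k28 1 (.s k8 k56 3 (.d k12 k4 k36 1
  5))))), (.s k16 k32 3 (.s k24 k28 1 (.s k36 k12 5 (.s k52 k4 3 (.s k116 k184 9 (.d k244 k248 k180
  1 7))))))] (.c k60 (.l (.s k16 k32 3 (.s k24 k28 1 (.s k116 k184 9 (.s k244 k248 1 (.s k52 k180 7
  (.d k36 k12 k4 5 3))))))) .n)) (.c k176 (.q k20 [(.s k60 k40 5 (.s k56 k52 1 (.s k184 k116 9 (.d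
  k120 k180 k248 9 7)))), (.s k16 k32 3 (.s k40 k60 5 (.s k24 k28 1 (.s k8 k56 3 (.d k12 k4 k36 1
  5))))), (.s k16 k32 3 (.s k24 k28 1 (.s k36 k12 5 (.s k52 k4 3 (.s k116 k184 9 (.d k244 k180 k248
  7 1))))))] (.c k60 (.l (.s k16 k32 3 (.s k24 k28 1 (.s k12 k36 5 (.s k8 k4 1 (.s k184 k116 9 (.s
  k248 k244 1 (.d k56 k40 k120 3 7)))))))) .n)) .n))) (.c k184 (.q k240 [(.s k32 k16 3 (.s k176 k112
  7 (.s k160 k80 11 (.s k144 k128 3 (.d k96 k224 k192 7 11))))), (.s k80 k160 11 (.s k84 k168 13 (.s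
  k88 k92 1 (.s k164 k12 13 (.d k244 k248 k4 1 11))))), (.s k16 k32 3 (.s k84 k168 13 (.s k152 k220
  9 (.s k176 k112 7 (.s k164 k140 5 (.d k244 k248 k4 1 11))))))] .n) (.c k204 (.f k16 k32 3 (.q k240
  [(.s k80 k160 11 (.s k144 k208 7 (.s k112 k176 7 (.d k96 k64 k192 3 11)))), (.s k84 k168 13 (.s
  k152 k220 9 (.s k176 k112 7 (.s k164 k140 5 (.d k244 k248 k4 1 11))))), (.s k80 k160 11 (.s k84
  k168 13 (.s k88 k92 1 (.s k164 k12 13 (.d k244 k248 k4 1 11)))))] (.c k70 (.q k137 [(.s k80 k160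
  11 (.s k144 k208 7 (.s k112 k176 7 (.d k96 k64 k192 3 11)))), (.s k84 k168 13 (.s k152 k220 9 (.s
  k176 k112 7 (.s k164 k140 5 (.d k244 k248 k4 1 11))))), (.s k80 k160 11 (.s k84 k168 13 (.s k88
  k92 1 (.s k164 k12 13 (.d k244 k248 k4 1 11)))))] .n) (.c k137 (.q k70 [(.s k80 k160 11 (.s k144
  k208 7 (.s k112 k176 7 (.d k96 k64 k192 3 11)))), (.s k84 k168 13 (.s k152 k220 9 (.s k176 k112 7
  (.s k164 k140 5 (.d k244 k248 k4 1 11))))), (.s k80 k160 11 (.s k84 k168 13 (.s k88 k92 1 (.s k164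
  k12 13 (.d k244 k248 k4 1 11)))))] .n) .n)))) (.c k220 (.l (.s k32 k16 3 (.s k184 k116 9 (.s k168
  k84 13 (.s k152 k136 3 (.d k100 k236 k204 9 13)))))) (.c k236 (.l (.s k16 k32 3 (.s k116 k184 9
  (.s k84 k168 13 (.s k100 k68 3 (.d k152 k220 k204 9 13)))))) .n))))))))))))))

def t95 : T TT 256 :=
  (.q k48 [(.s k16 k32 3 (.s k84 k168 13 (.s k152 k220 9 (.s k116 k184 9 (.d k100 k68 k204 3
  13)))))] (.c k16 (.q k240 [(.s k80 k160 11 (.s k84 k168 13 (.s k244 k248 1 (.s k164 k4 11 (.d k88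
  k92 k12 1 13))))), (.s k112 k176 7 (.s k116 k184 9 (.s k120 k124 1 (.s k180 k60 9 (.d k244 k248
  k52 1 7))))), (.s k80 k160 11 (.s k84 k168 13 (.s k112 k176 7 (.s k116 k184 9 (.s k64 k96 3 (.d
  k124 k120 k104 1 5))))))] .n) (.c k32 (.q k240 [(.s k112 k176 7 (.s k116 k184 9 (.s k120 k124 1
  (.s k180 k60 9 (.d k244 k248 k52 1 7))))), (.s k80 k160 11 (.s k84 k168 13 (.s k88 k92 1 (.s k164
  k12 13 (.d k244 k248 k4 1 11))))), (.s k80 k160 11 (.s k84 k168 13 (.s k112 k176 7 (.s k116 k184 9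
  (.s k100 k68 3 (.d k88 k92 k76 1 5))))))] .n) (.c k68 (.l (.s k32 k16 3 (.s k168 k84 13 (.s k100
  k236 9 (.s k152 k204 13 (.d k184 k116 k136 9 3)))))) (.c k84 (.f k16 k32 3 (.q k240 [(.s k80 k160
  11 (.s k144 k208 7 (.s k112 k176 7 (.d k96 k64 k192 3 11)))), (.s k112 k176 7 (.s k116 k184 9 (.s
  k244 k248 1 (.s k180 k52 7 (.d k120 k124 k60 1 9)))))] (.c k112 (.q k20 [(.s k40 k60 5 (.s k24 k28
  1 (.s k8 k56 3 (.d k12 k4 k36 1 5)))), (.s k116 k184 9 (.s k244 k248 1 (.s k52 k180 7 (.d k60 k56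
  k40 1 5)))), (.s k24 k28 1 (.s k36 k12 5 (.s k52 k4 3 (.s k116 k184 9 (.d k244 k248 k180 1 7)))))]
  (.c k60 (.l (.s k24 k28 1 (.s k116 k184 9 (.s k244 k248 1 (.s k52 k180 7 (.d k36 k12 k4 5 3))))))
  .n)) (.c k176 (.q k20 [(.s k116 k184 9 (.s k244 k248 1 (.s k180 k52 7 (.d k60 k120 k40 9 5)))),
  (.s k40 k60 5 (.s k24 k28 1 (.s k8 k56 3 (.d k12 k4 k36 1 5)))), (.s k24 k28 1 (.s k36 k12 5 (.s
  k52 k4 3 (.s k116 k184 9 (.d k244 k180 k248 7 1)))))] (.c k60 (.l (.s k24 k28 1 (.s k12 k36 5 (.s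
  k184 k116 9 (.s k248 k244 1 (.s k56 k120 7 (.d k8 k4 k40 1 3))))))) .n)) .n)))) (.c k100 (.q k240
  [(.s k16 k32 3 (.s k80 k160 11 (.s k144 k208 7 (.s k112 k176 7 (.d k96 k64 k192 3 11))))), (.s
  k112 k176 7 (.s k116 k184 9 (.s k120 k124 1 (.s k180 k60 9 (.d k244 k248 k52 1 7))))), (.s k80
  k160 11 (.s k84 k168 13 (.s k88 k92 1 (.s k164 k12 13 (.d k244 k248 k4 1 11)))))] .n) (.c k116 (.q
  k240 [(.s k16 k32 3 (.s k80 k160 11 (.s k144 k208 7 (.s k112 k176 7 (.d k96 k64 k192 3 11))))),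
  (.s k80 k160 11 (.s k84 k168 13 (.s k88 k92 1 (.s k164 k12 13 (.d k244 k248 k4 1 11))))), (.s k16
  k32 3 (.s k84 k168 13 (.s k152 k220 9 (.s k176 k112 7 (.s k164 k140 5 (.d k244 k248 k4 1 11))))))]
  .n) (.c k152 (.q k240 [(.s k16 k32 3 (.s k80 k160 11 (.s k144 k208 7 (.s k96 k192 11 (.d k112 k64
  k176 3 7))))), (.s k80 k160 11 (.s k84 k168 13 (.s k88 k92 1 (.s k164 k12 13 (.d k244 k248 k4 1
  11))))), (.s k112 k176 7 (.s k116 k184 9 (.s k120 k124 1 (.s k180 k60 9 (.d k244 k248 k52 1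
  7)))))] .n) (.c k168 (.q k240 [(.s k112 k176 7 (.s k116 k184 9 (.s k120 k124 1 (.s k180 k60 9 (.d
  k244 k248 k52 1 7))))), (.s k16 k32 3 (.s k80 k160 11 (.s k144 k208 7 (.s k96 k192 11 (.d k112 k64
  k176 3 7)))))] (.c k112 (.q k20 [(.s k60 k40 5 (.s k56 k52 1 (.s k184 k116 9 (.d k120 k180 k248 9
  7)))), (.s k16 k32 3 (.s k40 k60 5 (.s k24 k28 1 (.s k8 k56 3 (.d k12 k4 k36 1 5))))), (.s k16 k32
  3 (.s k24 k28 1 (.s k36 k12 5 (.s k52 k4 3 (.s k116 k184 9 (.d k244 k248 k180 1 7))))))] (.c k60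
  (.l (.s k16 k32 3 (.s k24 k28 1 (.s k116 k184 9 (.s k244 k248 1 (.s k52 k180 7 (.d k36 k12 k4 5
  3))))))) .n)) (.c k176 (.q k20 [(.s k60 k40 5 (.s k56 k52 1 (.s k184 k116 9 (.d k120 k180 k248 9
  7)))), (.s k16 k32 3 (.s k40 k60 5 (.s k24 k28 1 (.s k8 k56 3 (.d k12 k4 k36 1 5))))), (.s k16 k32
  3 (.s k24 k28 1 (.s k36 k12 5 (.s k52 k4 3 (.s k116 k184 9 (.d k244 k180 k248 7 1))))))] (.c k60
  (.l (.s k16 k32 3 (.s k24 k28 1 (.s k12 k36 5 (.s k8 k4 1 (.s k184 k116 9 (.s k248 k244 1 (.d k56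
  k40 k120 3 7)))))))) .n)) .n))) (.c k184 (.q k240 [(.s k16 k32 3 (.s k80 k160 11 (.s k144 k208 7
  (.s k96 k192 11 (.d k112 k64 k176 3 7))))), (.s k80 k160 11 (.s k84 k168 13 (.s k88 k92 1 (.s k164
  k12 13 (.d k244 k248 k4 1 11))))), (.s k16 k32 3 (.s k84 k168 13 (.s k152 k220 9 (.s k176 k112 7
  (.s k164 k140 5 (.d k244 k248 k4 1 11))))))] .n) (.c k204 (.f k16 k32 3 (.q k240 [(.s k80 k160 11
  (.s k144 k208 7 (.s k112 k176 7 (.d k96 k64 k192 3 11)))), (.s k84 k168 13 (.s k152 k220 9 (.s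
  k176 k112 7 (.s k164 k140 5 (.d k244 k248 k4 1 11))))), (.s k80 k160 11 (.s k84 k168 13 (.s k88
  k92 1 (.s k164 k12 13 (.d k244 k248 k4 1 11)))))] (.c k70 (.q k137 [(.s k80 k160 11 (.s k144 k208
  7 (.s k112 k176 7 (.d k96 k64 k192 3 11)))), (.s k84 k168 13 (.s k152 k220 9 (.s k176 k112 7 (.s
  k164 k140 5 (.d k244 k248 k4 1 11))))), (.s k80 k160 11 (.s k84 k168 13 (.s k88 k92 1 (.s k164 k12
  13 (.d k244 k248 k4 1 11)))))] .n) (.c k137 (.q k70 [(.s k80 k160 11 (.s k144 k208 7 (.s k112 k176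
  7 (.d k96 k64 k192 3 11)))), (.s k84 k168 13 (.s k152 k220 9 (.s k176 k112 7 (.s k164 k140 5 (.d
  k244 k248 k4 1 11))))), (.s k80 k160 11 (.s k84 k168 13 (.s k88 k92 1 (.s k164 k12 13 (.d k244
  k248 k4 1 11)))))] .n) .n)))) (.c k220 (.l (.s k32 k16 3 (.s k184 k116 9 (.s k168 k84 13 (.s k152
  k136 3 (.d k100 k236 k204 9 13)))))) (.c k236 (.l (.s k16 k32 3 (.s k116 k184 9 (.s k84 k168 13
  (.s k100 k68 3 (.d k152 k220 k204 9 13)))))) .n)))))))))))))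

def t108 : T TT 256 :=
  (.q k48 [(.s k16 k32 3 (.s k84 k168 13 (.s k152 k220 9 (.s k116 k184 9 (.d k100 k68 k204 3
  13)))))] (.c k16 (.q k60 [(.s k20 k40 5 (.s k84 k168 13 (.s k148 k212 7 (.s k124 k188 7 (.d k104
  k64 k192 5 13))))), (.s k52 k56 1 (.s k116 k184 9 (.s k180 k244 7 (.s k120 k240 9 (.d k124 k112
  k188 1 7))))), (.s k20 k40 5 (.s k84 k168 13 (.s k148 k212 7 (.s k52 k56 1 (.s k116 k184 9 (.d
  k100 k68 k196 3 11))))))] .n) (.c k32 (.q k60 [(.s k52 k56 1 (.s k116 k184 9 (.s k180 k244 7 (.s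
  k120 k240 9 (.d k124 k112 k188 1 7))))), (.s k20 k40 5 (.s k84 k168 13 (.s k148 k212 7 (.s k104
  k192 13 (.d k124 k64 k188 5 7))))), (.s k20 k40 5 (.s k84 k168 13 (.s k148 k212 7 (.s k52 k56 1
  (.s k116 k184 9 (.d k100 k68 k196 3 11))))))] .n) (.c k68 (.l (.s k32 k16 3 (.s k168 k84 13 (.s
  k100 k236 9 (.s k152 k204 13 (.d k184 k116 k136 9 3)))))) (.c k84 (.f k16 k32 3 (.q k60 [(.s k20
  k40 5 (.s k24 k28 1 (.s k52 k56 1 (.d k36 k4 k12 3 5)))), (.s k52 k56 1 (.s k116 k184 9 (.s k124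
  k188 7 (.s k120 k112 1 (.d k180 k244 k240 7 9)))))] (.c k52 (.q k240 [(.s k112 k176 7 (.s k116
  k184 9 (.d k120 k180 k124 9 1))), (.s k20 k40 5 (.s k80 k160 11 (.s k28 k24 1 (.s k208 k144 7 (.s
  k88 k148 9 (.d k12 k44 k164 3 13))))))] (.c k176 (.l (.s k80 k160 11 (.s k144 k208 7 (.s k96 k192
  11 (.s k116 k184 9 (.s k112 k64 3 (.d k120 k124 k180 1 9))))))) .n)) (.c k56 (.q k240 [(.s k112
  k176 7 (.s k116 k184 9 (.d k120 k180 k124 9 1))), (.s k80 k160 11 (.s k144 k208 7 (.s k96 k192 11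
  (.d k112 k64 k176 3 7)))), (.s k20 k40 5 (.s k24 k28 1 (.s k36 k12 5 (.s k52 k4 3 (.s k116 k184 9
  (.d k180 k244 k120 7 9))))))] .n) .n)))) (.c k100 (.q k96 [(.s k32 k16 3 (.s k160 k224 7 (.s k240
  k80 11 (.s k144 k192 11 (.d k176 k128 k112 3 7))))), (.s k168 k84 13 (.s k192 k144 11 (.s k128 k64
  7 (.s k148 k188 5 (.s k104 k60 13 (.d k232 k212 k40 5 7)))))), (.s k32 k16 3 (.s k168 k84 13 (.s
  k160 k224 7 (.s k240 k80 11 (.s k164 k172 1 (.s k88 k12 13 (.d k248 k244 k8 1 11)))))))] (.c k144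
  (.q k60 [(.s k16 k32 3 (.s k20 k40 5 (.s k24 k28 1 (.s k52 k56 1 (.d k36 k4 k12 3 5))))), (.s k40
  k20 5 (.s k168 k84 13 (.s k104 k232 7 (.s k148 k192 13 (.d k188 k128 k124 5 7))))), (.s k84 k168
  13 (.s k116 k184 9 (.s k124 k188 7 (.s k112 k120 1 (.d k64 k80 k104 3 5)))))] (.c k168 (.l (.s k32
  k16 3 (.s k40 k20 5 (.s k36 k44 1 (.s k24 k12 5 (.d k56 k52 k8 1 3)))))) .n)) .n)) (.c k116 (.q
  k60 [(.s k16 k32 3 (.s k20 k40 5 (.s k24 k28 1 (.s k52 k56 1 (.d k36 k4 k12 3 5))))), (.s k20 k40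
  5 (.s k84 k168 13 (.s k148 k212 7 (.s k104 k192 13 (.d k124 k64 k188 5 7))))), (.s k16 k32 3 (.s
  k84 k168 13 (.s k152 k220 9 (.s k56 k52 1 (.s k104 k200 11 (.d k124 k64 k188 5 7))))))] .n) (.c
  k152 (.q k60 [(.s k16 k32 3 (.s k20 k40 5 (.s k24 k28 1 (.s k36 k12 5 (.d k52 k56 k4 1 3))))), (.s
  k20 k40 5 (.s k84 k168 13 (.s k148 k212 7 (.s k104 k192 13 (.d k124 k64 k188 5 7))))), (.s k52 k56
  1 (.s k116 k184 9 (.s k180 k244 7 (.s k120 k240 9 (.d k124 k112 k188 1 7)))))] .n) (.c k168 (.q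
  k60 [(.s k32 k16 3 (.s k56 k52 1 (.s k40 k20 5 (.s k24 k8 3 (.d k36 k44 k12 1 5))))), (.s k52 k56
  1 (.s k116 k184 9 (.s k180 k244 7 (.s k120 k240 9 (.d k124 k112 k188 1 7)))))] (.c k52 (.q k240
  [(.s k112 k176 7 (.s k120 k180 9 (.d k116 k184 k124 9 1))), (.s k16 k32 3 (.s k20 k40 5 (.s k80
  k160 11 (.s k28 k24 1 (.s k208 k144 7 (.s k88 k148 9 (.d k12 k44 k164 3 13))))))), (.s k16 k32 3
  (.s k80 k160 11 (.s k144 k208 7 (.s k96 k192 11 (.s k116 k184 9 (.s k112 k64 3 (.d k120 k124 k180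
  1 9)))))))] .n) (.c k56 (.q k240 [(.s k112 k176 7 (.s k120 k180 9 (.d k116 k184 k124 9 1))), (.s
  k16 k32 3 (.s k80 k160 11 (.s k144 k208 7 (.s k96 k192 11 (.d k112 k64 k176 3 7))))), (.s k16 k32
  3 (.s k20 k40 5 (.s k24 k28 1 (.s k36 k12 5 (.s k52 k4 3 (.s k116 k184 9 (.d k180 k120 k244 9
  7)))))))] .n) (.c k248 (.l (.s k16 k32 3 (.s k20 k40 5 (.s k24 k28 1 (.s k36 k12 5 (.d k52 k56 k4
  1 3)))))) .n)))) (.c k184 (.q k60 [(.s k32 k16 3 (.s k56 k52 1 (.s k40 k20 5 (.s k24 k8 3 (.d k36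
  k44 k12 1 5))))), (.s k20 k40 5 (.s k84 k168 13 (.s k148 k212 7 (.s k104 k192 13 (.d k124 k64 k188
  5 7))))), (.s k16 k32 3 (.s k84 k168 13 (.s k152 k220 9 (.s k56 k52 1 (.s k104 k200 11 (.d k124
  k64 k188 5 7))))))] .n) (.c k204 (.f k16 k32 3 (.q k60 [(.s k20 k40 5 (.s k24 k28 1 (.s k52 k56 1
  (.d k36 k4 k12 3 5)))), (.s k84 k168 13 (.s k152 k220 9 (.s k56 k52 1 (.s k104 k200 11 (.d k124
  k64 k188 5 7))))), (.s k20 k40 5 (.s k84 k168 13 (.s k148 k212 7 (.s k104 k192 13 (.d k124 k64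
  k188 5 7)))))] (.c k70 (.q k137 [(.s k20 k40 5 (.s k24 k28 1 (.s k52 k56 1 (.d k36 k4 k12 3 5)))),
  (.s k84 k168 13 (.s k152 k220 9 (.s k56 k52 1 (.s k104 k200 11 (.d k124 k64 k188 5 7))))), (.s k20
  k40 5 (.s k84 k168 13 (.s k148 k212 7 (.s k104 k192 13 (.d k124 k64 k188 5 7)))))] .n) (.c k137
  (.q k70 [(.s k20 k40 5 (.s k24 k28 1 (.s k52 k56 1 (.d k36 k4 k12 3 5)))), (.s k84 k168 13 (.s
  k152 k220 9 (.s k56 k52 1 (.s k104 k200 11 (.d k124 k64 k188 5 7))))), (.s k20 k40 5 (.s k84 k168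
  13 (.s k148 k212 7 (.s k104 k192 13 (.d k124 k64 k188 5 7)))))] .n) .n)))) (.c k220 (.l (.s k32
  k16 3 (.s k184 k116 9 (.s k168 k84 13 (.s k152 k136 3 (.d k100 k236 k204 9 13)))))) (.c k236 (.l
  (.s k16 k32 3 (.s k116 k184 9 (.s k84 k168 13 (.s k100 k68 3 (.d k152 k220 k204 9 13))))))
  .n)))))))))))))

def t109 : T TT 256 :=
  (.q k48 [(.s k16 k32 3 (.s k84 k168 13 (.s k152 k220 9 (.s k116 k184 9 (.d k100 k68 k204 3
  13)))))] (.c k16 (.q k60 [(.s k20 k40 5 (.s k84 k168 13 (.s k148 k212 7 (.s k124 k188 7 (.d k104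
  k64 k192 5 13))))), (.s k52 k56 1 (.s k116 k184 9 (.s k180 k244 7 (.s k120 k240 9 (.d k124 k112
  k188 1 7))))), (.s k20 k40 5 (.s k84 k168 13 (.s k148 k212 7 (.s k52 k56 1 (.s k116 k184 9 (.d
  k100 k68 k196 3 11))))))] .n) (.c k32 (.q k60 [(.s k52 k56 1 (.s k116 k184 9 (.s k180 k244 7 (.s
  k120 k240 9 (.d k124 k112 k188 1 7))))), (.s k20 k40 5 (.s k84 k168 13 (.s k148 k212 7 (.s k104
  k192 13 (.d k124 k64 k188 5 7))))), (.s k20 k40 5 (.s k84 k168 13 (.s k148 k212 7 (.s k52 k56 1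
  (.s k116 k184 9 (.d k100 k68 k196 3 11))))))] .n) (.c k68 (.l (.s k32 k16 3 (.s k168 k84 13 (.s
  k100 k236 9 (.s k152 k204 13 (.d k184 k116 k136 9 3)))))) (.c k84 (.f k16 k32 3 (.q k60 [(.s k20
  k40 5 (.s k24 k28 1 (.s k52 k56 1 (.d k36 k4 k12 3 5)))), (.s k52 k56 1 (.s k116 k184 9 (.s k124
  k188 7 (.s k120 k112 1 (.d k180 k244 k240 7 9)))))] (.c k52 (.q k96 [(.s k144 k192 11 (.s k80 k208
  7 (.s k240 k160 11 (.d k112 k64 k176 3 7)))), (.s k192 k144 11 (.s k184 k116 9 (.s k104 k148 13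
  (.s k100 k108 1 (.s k152 k204 13 (.s k168 k136 3 (.d k40 k20 k232 5 7))))))), (.s k116 k184 9 (.s
  k124 k188 7 (.s k112 k120 1 (.s k80 k64 3 (.d k240 k176 k160 7 11)))))] .n) (.c k56 (.q k240 [(.s
  k112 k176 7 (.s k116 k184 9 (.d k120 k180 k124 9 1))), (.s k80 k160 11 (.s k144 k208 7 (.s k96
  k192 11 (.d k112 k64 k176 3 7)))), (.s k20 k40 5 (.s k24 k28 1 (.s k36 k12 5 (.s k52 k4 3 (.s k116
  k184 9 (.d k180 k244 k120 7 9))))))] .n) .n)))) (.c k100 (.q k60 [(.s k16 k32 3 (.s k20 k40 5 (.s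
  k24 k28 1 (.s k52 k56 1 (.d k36 k4 k12 3 5))))), (.s k52 k56 1 (.s k116 k184 9 (.s k180 k244 7 (.s
  k120 k240 9 (.d k124 k112 k188 1 7))))), (.s k20 k40 5 (.s k84 k168 13 (.s k148 k212 7 (.s k104
  k192 13 (.d k124 k64 k188 5 7)))))] .n) (.c k116 (.q k60 [(.s k16 k32 3 (.s k20 k40 5 (.s k24 k28
  1 (.s k52 k56 1 (.d k36 k4 k12 3 5))))), (.s k20 k40 5 (.s k84 k168 13 (.s k148 k212 7 (.s k104
  k192 13 (.d k124 k64 k188 5 7))))), (.s k16 k32 3 (.s k84 k168 13 (.s k152 k220 9 (.s k56 k52 1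
  (.s k104 k200 11 (.d k124 k64 k188 5 7))))))] .n) (.c k152 (.q k60 [(.s k16 k32 3 (.s k20 k40 5
  (.s k24 k28 1 (.s k36 k12 5 (.d k52 k56 k4 1 3))))), (.s k20 k40 5 (.s k84 k168 13 (.s k148 k212 7
  (.s k104 k192 13 (.d k124 k64 k188 5 7))))), (.s k52 k56 1 (.s k116 k184 9 (.s k180 k244 7 (.s
  k120 k240 9 (.d k124 k112 k188 1 7)))))] .n) (.c k168 (.q k60 [(.s k32 k16 3 (.s k56 k52 1 (.s k40
  k20 5 (.s k24 k8 3 (.d k36 k44 k12 1 5))))), (.s k52 k56 1 (.s k116 k184 9 (.s k180 k244 7 (.s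
  k120 k240 9 (.d k124 k112 k188 1 7)))))] (.c k52 (.q k240 [(.s k112 k176 7 (.s k120 k180 9 (.d
  k116 k184 k124 9 1))), (.s k16 k32 3 (.s k20 k40 5 (.s k80 k160 11 (.s k28 k24 1 (.s k208 k144 7
  (.s k88 k148 9 (.d k12 k44 k164 3 13))))))), (.s k16 k32 3 (.s k80 k160 11 (.s k144 k208 7 (.s k96
  k192 11 (.s k116 k184 9 (.s k112 k64 3 (.d k120 k124 k180 1 9)))))))] .n) (.c k56 (.q k240 [(.s
  k112 k176 7 (.s k120 k180 9 (.d k116 k184 k124 9 1))), (.s k16 k32 3 (.s k80 k160 11 (.s k144 k208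
  7 (.s k96 k192 11 (.d k112 k64 k176 3 7))))), (.s k16 k32 3 (.s k20 k40 5 (.s k24 k28 1 (.s k36
  k12 5 (.s k52 k4 3 (.s k116 k184 9 (.d k180 k120 k244 9 7)))))))] .n) (.c k248 (.l (.s k16 k32 3
  (.s k20 k40 5 (.s k24 k28 1 (.s k36 k12 5 (.d k52 k56 k4 1 3)))))) .n)))) (.c k184 (.q k60 [(.s
  k32 k16 3 (.s k56 k52 1 (.s k40 k20 5 (.s k24 k8 3 (.d k36 k44 k12 1 5))))), (.s k20 k40 5 (.s k84
  k168 13 (.s k148 k212 7 (.s k104 k192 13 (.d k124 k64 k188 5 7))))), (.s k16 k32 3 (.s k84 k168 13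
  (.s k152 k220 9 (.s k56 k52 1 (.s k104 k200 11 (.d k124 k64 k188 5 7))))))] .n) (.c k204 (.f k16
  k32 3 (.q k60 [(.s k20 k40 5 (.s k24 k28 1 (.s k52 k56 1 (.d k36 k4 k12 3 5)))), (.s k84 k168 13
  (.s k152 k220 9 (.s k56 k52 1 (.s k104 k200 11 (.d k124 k64 k188 5 7))))), (.s k20 k40 5 (.s k84
  k168 13 (.s k148 k212 7 (.s k104 k192 13 (.d k124 k64 k188 5 7)))))] (.c k70 (.q k137 [(.s k20 k40
  5 (.s k24 k28 1 (.s k52 k56 1 (.d k36 k4 k12 3 5)))), (.s k84 k168 13 (.s k152 k220 9 (.s k56 k52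
  1 (.s k104 k200 11 (.d k124 k64 k188 5 7))))), (.s k20 k40 5 (.s k84 k168 13 (.s k148 k212 7 (.s
  k104 k192 13 (.d k124 k64 k188 5 7)))))] .n) (.c k137 (.q k70 [(.s k20 k40 5 (.s k24 k28 1 (.s k52
  k56 1 (.d k36 k4 k12 3 5)))), (.s k84 k168 13 (.s k152 k220 9 (.s k56 k52 1 (.s k104 k200 11 (.d
  k124 k64 k188 5 7))))), (.s k20 k40 5 (.s k84 k168 13 (.s k148 k212 7 (.s k104 k192 13 (.d k124
  k64 k188 5 7)))))] .n) .n)))) (.c k220 (.l (.s k32 k16 3 (.s k184 k116 9 (.s k168 k84 13 (.s k152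
  k136 3 (.d k100 k236 k204 9 13)))))) (.c k236 (.l (.s k16 k32 3 (.s k116 k184 9 (.s k84 k168 13
  (.s k100 k68 3 (.d k152 k220 k204 9 13)))))) .n)))))))))))))

def t111 : T TT 256 :=
  (.q k48 [(.s k16 k32 3 (.s k84 k168 13 (.s k152 k220 9 (.s k116 k184 9 (.d k100 k68 k204 3
  13)))))] (.c k16 (.q k60 [(.s k20 k40 5 (.s k84 k168 13 (.s k148 k212 7 (.s k124 k188 7 (.d k104
  k64 k192 5 13))))), (.s k52 k56 1 (.s k116 k184 9 (.s k180 k244 7 (.s k120 k240 9 (.d k124 k112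
  k188 1 7))))), (.s k20 k40 5 (.s k84 k168 13 (.s k148 k212 7 (.s k52 k56 1 (.s k116 k184 9 (.d
  k100 k68 k196 3 11))))))] .n) (.c k32 (.q k60 [(.s k40 k20 5 (.s k188 k124 7 (.s k168 k84 13 (.s
  k148 k128 5 (.d k104 k232 k192 7 13))))), (.s k52 k56 1 (.s k116 k184 9 (.s k180 k244 7 (.s k120
  k240 9 (.d k124 k112 k188 1 7))))), (.s k20 k40 5 (.s k84 k168 13 (.s k148 k212 7 (.s k52 k56 1
  (.s k116 k184 9 (.d k100 k68 k196 3 11))))))] .n) (.c k68 (.l (.s k32 k16 3 (.s k168 k84 13 (.s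
  k100 k236 9 (.s k152 k204 13 (.d k184 k116 k136 9 3)))))) (.c k84 (.f k16 k32 3 (.q k60 [(.s k20
  k40 5 (.s k24 k28 1 (.s k52 k56 1 (.d k36 k4 k12 3 5)))), (.s k52 k56 1 (.s k116 k184 9 (.s k124
  k188 7 (.s k120 k112 1 (.d k180 k244 k240 7 9)))))] (.c k52 (.q k240 [(.s k112 k176 7 (.s k116
  k184 9 (.d k120 k180 k124 9 1))), (.s k20 k40 5 (.s k80 k160 11 (.s k28 k24 1 (.s k208 k144 7 (.s
  k88 k148 9 (.d k12 k44 k164 3 13))))))] (.c k176 (.l (.s k80 k160 11 (.s k144 k208 7 (.s k96 k192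
  11 (.s k116 k184 9 (.s k112 k64 3 (.d k120 k124 k180 1 9))))))) .n)) (.c k56 (.q k240 [(.s k112
  k176 7 (.s k116 k184 9 (.d k120 k180 k124 9 1))), (.s k80 k160 11 (.s k144 k208 7 (.s k96 k192 11
  (.d k112 k64 k176 3 7)))), (.s k20 k40 5 (.s k24 k28 1 (.s k36 k12 5 (.s k52 k4 3 (.s k116 k184 9
  (.d k180 k244 k120 7 9))))))] .n) .n)))) (.c k100 (.q k60 [(.s k32 k16 3 (.s k40 k20 5 (.s k36 k44
  1 (.s k24 k12 5 (.d k56 k52 k8 1 3))))), (.s k52 k56 1 (.s k116 k184 9 (.s k180 k244 7 (.s k120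
  k240 9 (.d k124 k112 k188 1 7))))), (.s k20 k40 5 (.s k84 k168 13 (.s k148 k212 7 (.s k104 k192 13
  (.d k124 k64 k188 5 7)))))] .n) (.c k116 (.q k60 [(.s k16 k32 3 (.s k20 k40 5 (.s k24 k28 1 (.s
  k52 k56 1 (.d k36 k4 k12 3 5))))), (.s k20 k40 5 (.s k84 k168 13 (.s k148 k212 7 (.s k104 k192 13
  (.d k124 k64 k188 5 7))))), (.s k16 k32 3 (.s k84 k168 13 (.s k152 k220 9 (.s k56 k52 1 (.s k104
  k200 11 (.d k124 k64 k188 5 7))))))] .n) (.c k152 (.q k60 [(.s k16 k32 3 (.s k20 k40 5 (.s k24 k28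
  1 (.s k36 k12 5 (.d k52 k56 k4 1 3))))), (.s k20 k40 5 (.s k84 k168 13 (.s k148 k212 7 (.s k104
  k192 13 (.d k124 k64 k188 5 7))))), (.s k52 k56 1 (.s k116 k184 9 (.s k180 k244 7 (.s k120 k240 9
  (.d k124 k112 k188 1 7)))))] .n) (.c k168 (.q k60 [(.s k32 k16 3 (.s k40 k20 5 (.s k36 k44 1 (.s
  k24 k12 5 (.d k56 k52 k8 1 3))))), (.s k52 k56 1 (.s k116 k184 9 (.s k180 k244 7 (.s k120 k240 9
  (.d k124 k112 k188 1 7)))))] (.c k52 (.q k240 [(.s k112 k176 7 (.s k120 k180 9 (.d k116 k184 k124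
  9 1))), (.s k16 k32 3 (.s k20 k40 5 (.s k80 k160 11 (.s k28 k24 1 (.s k208 k144 7 (.s k88 k148 9
  (.d k12 k44 k164 3 13))))))), (.s k16 k32 3 (.s k80 k160 11 (.s k144 k208 7 (.s k96 k192 11 (.s
  k116 k184 9 (.s k112 k64 3 (.d k120 k124 k180 1 9)))))))] .n) (.c k56 (.q k240 [(.s k112 k176 7
  (.s k120 k180 9 (.d k116 k184 k124 9 1))), (.s k16 k32 3 (.s k80 k160 11 (.s k144 k208 7 (.s k96
  k192 11 (.d k112 k64 k176 3 7))))), (.s k16 k32 3 (.s k20 k40 5 (.s k24 k28 1 (.s k36 k12 5 (.s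
  k52 k4 3 (.s k116 k184 9 (.d k180 k120 k244 9 7)))))))] .n) .n))) (.c k184 (.q k60 [(.s k32 k16 3
  (.s k56 k52 1 (.s k40 k20 5 (.s k24 k8 3 (.d k36 k44 k12 1 5))))), (.s k20 k40 5 (.s k84 k168 13
  (.s k148 k212 7 (.s k104 k192 13 (.d k124 k64 k188 5 7))))), (.s k16 k32 3 (.s k84 k168 13 (.s
  k152 k220 9 (.s k56 k52 1 (.s k104 k200 11 (.d k124 k64 k188 5 7))))))] .n) (.c k204 (.f k16 k32 3
  (.q k60 [(.s k20 k40 5 (.s k24 k28 1 (.s k52 k56 1 (.d k36 k4 k12 3 5)))), (.s k84 k168 13 (.s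
  k152 k220 9 (.s k56 k52 1 (.s k104 k200 11 (.d k124 k64 k188 5 7))))), (.s k20 k40 5 (.s k84 k168
  13 (.s k148 k212 7 (.s k104 k192 13 (.d k124 k64 k188 5 7)))))] (.c k70 (.q k137 [(.s k20 k40 5
  (.s k24 k28 1 (.s k52 k56 1 (.d k36 k4 k12 3 5)))), (.s k84 k168 13 (.s k152 k220 9 (.s k56 k52 1
  (.s k104 k200 11 (.d k124 k64 k188 5 7))))), (.s k20 k40 5 (.s k84 k168 13 (.s k148 k212 7 (.s
  k104 k192 13 (.d k124 k64 k188 5 7)))))] .n) (.c k137 (.q k70 [(.s k20 k40 5 (.s k24 k28 1 (.s k52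
  k56 1 (.d k36 k4 k12 3 5)))), (.s k84 k168 13 (.s k152 k220 9 (.s k56 k52 1 (.s k104 k200 11 (.d
  k124 k64 k188 5 7))))), (.s k20 k40 5 (.s k84 k168 13 (.s k148 k212 7 (.s k104 k192 13 (.d k124
  k64 k188 5 7)))))] .n) .n)))) (.c k220 (.l (.s k32 k16 3 (.s k184 k116 9 (.s k168 k84 13 (.s k152
  k136 3 (.d k100 k236 k204 9 13)))))) (.c k236 (.l (.s k16 k32 3 (.s k116 k184 9 (.s k84 k168 13
  (.s k100 k68 3 (.d k152 k220 k204 9 13)))))) .n)))))))))))))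

def t124 : T TT 256 :=
  (.q k48 [(.s k16 k32 3 (.s k84 k168 13 (.s k152 k220 9 (.s k116 k184 9 (.d k100 k68 k204 3
  13)))))] (.c k16 (.q k240 [(.s k176 k112 7 (.s k248 k244 1 (.s k184 k116 9 (.s k120 k56 7 (.d k180
  k188 k60 1 9))))), (.s k80 k160 11 (.s k84 k168 13 (.s k88 k92 1 (.s k164 k12 13 (.d k244 k248 k4
  1 11))))), (.s k80 k160 11 (.s k84 k168 13 (.s k112 k176 7 (.s k116 k184 9 (.s k100 k68 3 (.d k88
  k92 k76 1 5))))))] .n) (.c k32 (.q k240 [(.s k176 k112 7 (.s k248 k244 1 (.s k184 k116 9 (.s k120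
  k56 7 (.d k180 k188 k60 1 9))))), (.s k80 k160 11 (.s k84 k168 13 (.s k88 k92 1 (.s k164 k12 13
  (.d k244 k248 k4 1 11))))), (.s k80 k160 11 (.s k84 k168 13 (.s k112 k176 7 (.s k116 k184 9 (.s
  k100 k68 3 (.d k88 k92 k76 1 5))))))] .n) (.c k68 (.l (.s k32 k16 3 (.s k168 k84 13 (.s k100 k236
  9 (.s k152 k204 13 (.d k184 k116 k136 9 3)))))) (.c k84 (.q k240 [(.s k16 k32 3 (.s k80 k160 11
  (.s k144 k208 7 (.s k112 k176 7 (.d k96 k64 k192 3 11))))), (.s k176 k112 7 (.s k248 k244 1 (.s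
  k184 k116 9 (.s k120 k56 7 (.d k180 k188 k60 1 9)))))] (.c k64 (.q k104 [(.s k32 k16 3 (.s k160
  k80 11 (.s k96 k224 7 (.s k144 k192 11 (.d k176 k112 k128 7 3))))), (.s k184 k116 9 (.s k248 k244
  1 (.s k120 k56 7 (.s k180 k60 9 (.d k176 k112 k188 7 1)))))] (.c k112 (.l (.s k32 k16 3 (.s k160
  k80 11 (.s k96 k224 7 (.s k100 k108 1 (.s k236 k168 9 (.d k204 k220 k152 3 13))))))) (.c k176 (.l
  (.s k32 k16 3 (.s k160 k80 11 (.s k96 k224 7 (.s k100 k108 1 (.s k236 k168 9 (.d k204 k220 k152 3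
  13))))))) .n))) (.c k104 (.q k64 [(.s k80 k160 11 (.d k112 k96 k176 3 7)), (.s k176 k112 7 (.s
  k248 k244 1 (.s k184 k116 9 (.s k120 k56 7 (.d k180 k188 k60 1 9)))))] (.c k112 (.l (.s k16 k32 3
  (.s k192 k128 7 (.s k80 k160 11 (.d k144 k96 k208 11 7))))) (.c k176 (.l (.s k80 k160 11 (.s k96
  k112 3 (.d k192 k128 k144 7 11)))) .n))) (.c k112 (.q k120 [(.s k184 k116 9 (.d k248 k244 k56 1
  7)), (.s k16 k32 3 (.s k60 k180 9 (.s k20 k40 5 (.s k24 k28 1 (.s k36 k12 5 (.d k52 k56 k4 1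
  3))))))] (.c k56 (.l (.s k116 k184 9 (.s k180 k60 9 (.d k244 k248 k52 1 7)))) (.c k64 (.q k104
  [(.s k184 k116 9 (.d k248 k244 k56 1 7)), (.s k60 k180 9 (.s k40 k20 5 (.s k232 k168 7 (.d k192
  k212 k148 5 13))))] (.c k80 (.q k96 [(.s k192 k144 11 (.d k60 k180 k148 9 13)), (.s k184 k116 9
  (.d k248 k244 k56 1 7))] (.c k88 (.q k92 [(.s k184 k116 9 (.d k248 k244 k56 1 7)), (.s k192 k144
  11 (.d k60 k180 k148 9 13))] (.c k76 (.l (.s k100 k108 1 (.s k192 k144 11 (.d k60 k180 k148 9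
  13)))) (.c k100 (.q k76 [(.s k60 k180 9 (.d k192 k144 k148 11 13)), (.s k248 k244 1 (.d k184 k116
  k56 9 7))] (.c k68 (.l (.s k116 k184 9 (.s k192 k144 11 (.d k60 k180 k148 9 13)))) (.c k116 (.q
  k68 [(.s k204 k136 9 (.d k12 k140 k172 7 11)), (.s k192 k144 11 (.d k60 k180 k148 9 13))] .n)
  .n))) .n))) (.c k92 (.l (.s k88 k72 3 (.s k192 k144 11 (.d k60 k180 k148 9 13)))) .n))) (.c k96
  (.l (.s k80 k160 11 (.s k184 k116 9 (.d k248 k244 k56 1 7)))) .n))) (.c k104 (.q k64 [(.s k184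
  k116 9 (.d k248 k244 k56 1 7)), (.s k16 k32 3 (.s k192 k128 7 (.s k80 k160 11 (.d k144 k96 k208 11
  7))))] .n) .n)))) (.c k176 (.q k104 [(.s k32 k16 3 (.s k160 k80 11 (.s k96 k224 7 (.s k100 k108 1
  (.s k236 k168 9 (.d k204 k220 k152 3 13)))))), (.s k184 k116 9 (.s k248 k244 1 (.s k120 k56 7 (.s
  k88 k72 3 (.s k8 k168 11 (.d k12 k4 k164 1 13))))))] (.c k88 (.q k92 [(.s k32 k16 3 (.s k160 k80
  11 (.s k224 k96 7 (.s k164 k44 9 (.d k172 k168 k12 1 11))))), (.s k12 k172 11 (.s k4 k8 1 (.s k36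
  k24 5 (.s k52 k20 3 (.s k116 k184 9 (.d k244 k248 k180 1 7)))))), (.s k32 k16 3 (.s k160 k80 11
  (.s k96 k224 7 (.s k100 k108 1 (.s k236 k168 9 (.d k204 k220 k152 3 13)))))), (.s k160 k80 11 (.s
  k172 k12 11 (.s k164 k168 1 (.s k224 k44 9 (.s k96 k32 7 (.d k192 k208 k144 3 11))))))] (.c k168
  (.l (.s k16 k32 3 (.s k12 k172 11 (.s k8 k4 1 (.s k24 k36 5 (.s k40 k56 3 (.d k20 k28 k60 1
  5))))))) .n)) (.c k100 (.l (.s k32 k16 3 (.s k160 k80 11 (.s k224 k96 7 (.s k164 k44 9 (.s k172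
  k168 1 (.d k12 k92 k88 11 13))))))) (.c k168 (.l (.s k32 k16 3 (.s k160 k80 11 (.s k224 k96 7 (.s
  k44 k164 9 (.s k40 k36 1 (.s k60 k20 5 (.d k192 k208 k148 3 13)))))))) .n)))) .n))))) (.c k100 (.q
  k240 [(.s k32 k16 3 (.s k160 k80 11 (.s k96 k224 7 (.s k144 k192 11 (.d k176 k128 k112 3 7))))),
  (.s k160 k80 11 (.s k168 k84 13 (.s k164 k172 1 (.s k88 k12 13 (.d k248 k244 k8 1 11))))), (.s
  k176 k112 7 (.s k248 k244 1 (.s k184 k116 9 (.s k120 k56 7 (.d k180 k188 k60 1 9)))))] .n) (.c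
  k116 (.q k240 [(.s k16 k32 3 (.s k80 k160 11 (.s k144 k208 7 (.s k112 k176 7 (.d k96 k64 k192 3
  11))))), (.s k80 k160 11 (.s k84 k168 13 (.s k88 k92 1 (.s k164 k12 13 (.d k244 k248 k4 1 11))))),
  (.s k16 k32 3 (.s k84 k168 13 (.s k152 k220 9 (.s k244 k248 1 (.s k164 k4 11 (.d k176 k112 k140 7
  5))))))] (.c k112 (.q k120 [(.s k248 k244 1 (.s k56 k184 7 (.d k60 k52 k180 1 9))), (.s k80 k160
  11 (.s k84 k168 13 (.s k88 k92 1 (.s k164 k12 13 (.d k244 k248 k4 1 11)))))] (.c k244 (.l (.s k16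
  k32 3 (.s k60 k180 9 (.s k52 k56 1 (.s k20 k40 5 (.s k36 k4 3 (.d k24 k28 k12 1 5))))))) (.c k248
  (.l (.s k16 k32 3 (.s k60 k180 9 (.s k20 k40 5 (.s k24 k28 1 (.s k36 k12 5 (.d k52 k56 k4 1
  3))))))) .n))) (.c k120 (.l (.s k112 k176 7 (.s k16 k32 3 (.s k80 k160 11 (.s k144 k208 7 (.d k96
  k64 k192 3 11)))))) .n))) (.c k152 (.q k240 [(.s k16 k32 3 (.s k80 k160 11 (.s k144 k208 7 (.s k96
  k192 11 (.d k112 k64 k176 3 7))))), (.s k80 k160 11 (.s k84 k168 13 (.s k88 k92 1 (.s k164 k12 13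
  (.d k244 k248 k4 1 11))))), (.s k176 k112 7 (.s k248 k244 1 (.s k184 k116 9 (.s k120 k56 7 (.d
  k180 k188 k60 1 9)))))] .n) (.c k168 (.q k240 [(.s k176 k112 7 (.s k248 k244 1 (.s k184 k116 9 (.s
  k120 k56 7 (.d k180 k188 k60 1 9))))), (.s k16 k32 3 (.s k80 k160 11 (.s k144 k208 7 (.s k96 k192
  11 (.d k112 k64 k176 3 7)))))] (.c k112 (.q k120 [(.s k184 k116 9 (.d k248 k244 k56 1 7)), (.s k16
  k32 3 (.s k60 k180 9 (.s k20 k40 5 (.s k24 k28 1 (.s k36 k12 5 (.d k52 k56 k4 1 3))))))] (.c k56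
  (.l (.s k116 k184 9 (.s k180 k60 9 (.d k244 k248 k52 1 7)))) .n)) (.c k176 (.q k60 [(.s k52 k56 1
  (.s k180 k120 9 (.d k116 k184 k244 9 7))), (.s k16 k32 3 (.s k20 k40 5 (.s k24 k28 1 (.s k36 k12 5
  (.d k52 k56 k4 1 3)))))] (.c k52 (.l (.s k32 k16 3 (.s k40 k20 5 (.s k36 k44 1 (.s k24 k12 5 (.s
  k56 k8 3 (.s k184 k116 9 (.d k120 k248 k180 7 9)))))))) (.c k56 (.l (.s k16 k32 3 (.s k20 k40 5
  (.s k24 k28 1 (.s k36 k12 5 (.s k52 k4 3 (.s k116 k184 9 (.d k180 k120 k244 9 7)))))))) .n)))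
  .n))) (.c k184 (.q k240 [(.s k16 k32 3 (.s k80 k160 11 (.s k144 k208 7 (.s k96 k192 11 (.d k112
  k64 k176 3 7))))), (.s k80 k160 11 (.s k84 k168 13 (.s k88 k92 1 (.s k164 k12 13 (.d k244 k248 k4
  1 11))))), (.s k16 k32 3 (.s k84 k168 13 (.s k152 k220 9 (.s k176 k112 7 (.s k164 k140 5 (.d k244
  k248 k4 1 11))))))] .n) (.c k204 (.f k16 k32 3 (.q k240 [(.s k80 k160 11 (.s k144 k208 7 (.s k112
  k176 7 (.d k96 k64 k192 3 11)))), (.s k84 k168 13 (.s k152 k220 9 (.s k176 k112 7 (.s k164 k140 5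
  (.d k244 k248 k4 1 11))))), (.s k80 k160 11 (.s k84 k168 13 (.s k88 k92 1 (.s k164 k12 13 (.d k244
  k248 k4 1 11)))))] (.c k70 (.q k137 [(.s k80 k160 11 (.s k144 k208 7 (.s k112 k176 7 (.d k96 k64
  k192 3 11)))), (.s k84 k168 13 (.s k152 k220 9 (.s k176 k112 7 (.s k164 k140 5 (.d k244 k248 k4 1
  11))))), (.s k80 k160 11 (.s k84 k168 13 (.s k88 k92 1 (.s k164 k12 13 (.d k244 k248 k4 1 11)))))]
  .n) (.c k137 (.q k70 [(.s k80 k160 11 (.s k144 k208 7 (.s k112 k176 7 (.d k96 k64 k192 3 11)))),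
  (.s k84 k168 13 (.s k152 k220 9 (.s k176 k112 7 (.s k164 k140 5 (.d k244 k248 k4 1 11))))), (.s
  k80 k160 11 (.s k84 k168 13 (.s k88 k92 1 (.s k164 k12 13 (.d k244 k248 k4 1 11)))))] .n) .n))))
  (.c k220 (.l (.s k32 k16 3 (.s k184 k116 9 (.s k168 k84 13 (.s k152 k136 3 (.d k100 k236 k204 9
  13)))))) (.c k236 (.l (.s k16 k32 3 (.s k116 k184 9 (.s k84 k168 13 (.s k100 k68 3 (.d k152 k220
  k204 9 13)))))) .n)))))))))))))

def t125 : T TT 256 :=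
  (.q k48 [(.s k16 k32 3 (.s k84 k168 13 (.s k152 k220 9 (.s k116 k184 9 (.d k100 k68 k204 3
  13)))))] (.c k16 (.q k240 [(.s k80 k160 11 (.s k84 k168 13 (.s k88 k92 1 (.s k244 k248 1 (.d k164
  k4 k12 11 13))))), (.s k112 k176 7 (.s k116 k184 9 (.s k120 k124 1 (.s k180 k60 9 (.d k244 k248
  k52 1 7))))), (.s k80 k160 11 (.s k84 k168 13 (.s k112 k176 7 (.s k116 k184 9 (.s k64 k96 3 (.d
  k124 k120 k104 1 5))))))] .n) (.c k32 (.q k240 [(.s k160 k80 11 (.s k248 k244 1 (.s k168 k84 13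
  (.s k88 k8 11 (.d k164 k172 k12 1 13))))), (.s k112 k176 7 (.s k116 k184 9 (.s k120 k124 1 (.s
  k180 k60 9 (.d k244 k248 k52 1 7))))), (.s k80 k160 11 (.s k84 k168 13 (.s k112 k176 7 (.s k116
  k184 9 (.s k100 k68 3 (.d k88 k92 k76 1 5))))))] .n) (.c k68 (.l (.s k32 k16 3 (.s k168 k84 13 (.s
  k100 k236 9 (.s k152 k204 13 (.d k184 k116 k136 9 3)))))) (.c k84 (.f k16 k32 3 (.q k240 [(.s k80
  k160 11 (.s k144 k208 7 (.s k112 k176 7 (.d k96 k64 k192 3 11)))), (.s k112 k176 7 (.s k116 k184 9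
  (.s k244 k248 1 (.s k180 k52 7 (.d k120 k124 k60 1 9)))))] (.c k112 (.q k120 [(.s k184 k116 9 (.d
  k248 k244 k56 1 7)), (.s k60 k180 9 (.s k20 k40 5 (.s k24 k28 1 (.s k36 k12 5 (.d k52 k56 k4 1
  3)))))] (.c k56 (.l (.s k116 k184 9 (.s k180 k60 9 (.d k244 k248 k52 1 7)))) .n)) (.c k176 (.q
  k120 [(.s k184 k116 9 (.d k248 k244 k56 1 7)), (.s k116 k184 9 (.s k124 k112 1 (.d k60 k188 k180 7
  9)))] (.c k116 (.l (.s k248 k244 1 (.s k56 k184 7 (.d k60 k52 k180 1 9)))) (.c k184 (.l (.s k80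
  k160 11 (.s k144 k208 7 (.s k96 k192 11 (.s k112 k64 3 (.s k124 k116 1 (.d k60 k188 k180 7
  9))))))) .n))) .n)))) (.c k100 (.q k240 [(.s k32 k16 3 (.s k160 k80 11 (.s k96 k224 7 (.s k144
  k192 11 (.d k176 k128 k112 3 7))))), (.s k160 k80 11 (.s k168 k84 13 (.s k164 k172 1 (.s k88 k12
  13 (.d k248 k244 k8 1 11))))), (.s k112 k176 7 (.s k116 k184 9 (.s k120 k124 1 (.s k180 k60 9 (.d
  k244 k248 k52 1 7)))))] .n) (.c k116 (.q k240 [(.s k16 k32 3 (.s k80 k160 11 (.s k144 k208 7 (.s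
  k112 k176 7 (.d k96 k64 k192 3 11))))), (.s k80 k160 11 (.s k84 k168 13 (.s k88 k92 1 (.s k164 k12
  13 (.d k244 k248 k4 1 11))))), (.s k16 k32 3 (.s k84 k168 13 (.s k152 k220 9 (.s k176 k112 7 (.s
  k164 k140 5 (.d k244 k248 k4 1 11))))))] .n) (.c k152 (.q k240 [(.s k16 k32 3 (.s k80 k160 11 (.s
  k144 k208 7 (.s k96 k192 11 (.d k112 k64 k176 3 7))))), (.s k80 k160 11 (.s k84 k168 13 (.s k88
  k92 1 (.s k164 k12 13 (.d k244 k248 k4 1 11))))), (.s k112 k176 7 (.s k116 k184 9 (.s k120 k124 1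
  (.s k180 k60 9 (.d k244 k248 k52 1 7)))))] .n) (.c k168 (.q k240 [(.s k32 k16 3 (.s k160 k80 11
  (.s k96 k224 7 (.s k144 k192 11 (.d k176 k128 k112 3 7))))), (.s k112 k176 7 (.s k116 k184 9 (.s
  k120 k124 1 (.s k180 k60 9 (.d k244 k248 k52 1 7)))))] (.c k112 (.q k120 [(.s k184 k116 9 (.d k248
  k244 k56 1 7)), (.s k16 k32 3 (.s k60 k180 9 (.s k20 k40 5 (.s k24 k28 1 (.s k36 k12 5 (.d k52 k56
  k4 1 3))))))] (.c k56 (.l (.s k116 k184 9 (.s k180 k60 9 (.d k244 k248 k52 1 7)))) .n)) (.c k176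
  (.q k120 [(.s k184 k116 9 (.d k248 k244 k56 1 7)), (.s k16 k32 3 (.s k80 k160 11 (.s k144 k208 7
  (.s k96 k192 11 (.s k112 k64 3 (.s k124 k116 1 (.d k60 k188 k180 7 9)))))))] (.c k116 (.l (.s k248
  k244 1 (.s k56 k184 7 (.d k60 k52 k180 1 9)))) .n)) .n))) (.c k184 (.q k240 [(.s k32 k16 3 (.s
  k176 k112 7 (.s k160 k80 11 (.s k144 k128 3 (.d k96 k224 k192 7 11))))), (.s k80 k160 11 (.s k84
  k168 13 (.s k88 k92 1 (.s k164 k12 13 (.d k244 k248 k4 1 11))))), (.s k16 k32 3 (.s k84 k168 13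
  (.s k152 k220 9 (.s k176 k112 7 (.s k164 k140 5 (.d k244 k248 k4 1 11))))))] .n) (.c k204 (.f k16
  k32 3 (.q k240 [(.s k80 k160 11 (.s k144 k208 7 (.s k112 k176 7 (.d k96 k64 k192 3 11)))), (.s k84
  k168 13 (.s k152 k220 9 (.s k176 k112 7 (.s k164 k140 5 (.d k244 k248 k4 1 11))))), (.s k80 k160
  11 (.s k84 k168 13 (.s k88 k92 1 (.s k164 k12 13 (.d k244 k248 k4 1 11)))))] (.c k70 (.q k137 [(.s
  k80 k160 11 (.s k144 k208 7 (.s k112 k176 7 (.d k96 k64 k192 3 11)))), (.s k84 k168 13 (.s k152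
  k220 9 (.s k176 k112 7 (.s k164 k140 5 (.d k244 k248 k4 1 11))))), (.s k80 k160 11 (.s k84 k168 13
  (.s k88 k92 1 (.s k164 k12 13 (.d k244 k248 k4 1 11)))))] .n) (.c k137 (.q k70 [(.s k80 k160 11
  (.s k144 k208 7 (.s k112 k176 7 (.d k96 k64 k192 3 11)))), (.s k84 k168 13 (.s k152 k220 9 (.s
  k176 k112 7 (.s k164 k140 5 (.d k244 k248 k4 1 11))))), (.s k80 k160 11 (.s k84 k168 13 (.s k88
  k92 1 (.s k164 k12 13 (.d k244 k248 k4 1 11)))))] .n) .n)))) (.c k220 (.l (.s k32 k16 3 (.s k184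
  k116 9 (.s k168 k84 13 (.s k152 k136 3 (.d k100 k236 k204 9 13)))))) (.c k236 (.l (.s k16 k32 3
  (.s k116 k184 9 (.s k84 k168 13 (.s k100 k68 3 (.d k152 k220 k204 9 13)))))) .n)))))))))))))

def t126 : T TT 256 :=
  (.q k60 [(.s k20 k40 5 (.s k84 k168 13 (.s k148 k212 7 (.s k124 k188 7 (.d k104 k64 k192 5
  13)))))] (.c k20 (.q k12 [(.s k4 k8 1 (.s k84 k168 13 (.s k164 k244 11 (.s k92 k172 11 (.d k88 k80
  k240 1 13))))), (.s k28 k44 3 (.s k92 k172 11 (.s k156 k220 7 (.s k108 k204 11 (.d k124 k76 k188 3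
  7))))), (.s k4 k8 1 (.s k84 k168 13 (.s k164 k244 11 (.s k44 k28 3 (.s k104 k224 9 (.d k124 k64
  k188 5 7))))))] .n) (.c k40 (.q k12 [(.s k8 k4 1 (.s k172 k92 11 (.s k168 k84 13 (.s k164 k160 1
  (.d k88 k248 k240 11 13))))), (.s k28 k44 3 (.s k92 k172 11 (.s k156 k220 7 (.s k108 k204 11 (.d
  k124 k76 k188 3 7))))), (.s k4 k8 1 (.s k84 k168 13 (.s k164 k244 11 (.s k44 k28 3 (.s k104 k224 9
  (.d k124 k64 k188 5 7))))))] .n) (.c k64 (.l (.s k40 k20 5 (.s k168 k84 13 (.s k104 k232 7 (.s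
  k148 k192 13 (.d k188 k124 k128 7 5)))))) (.c k84 (.f k20 k40 5 (.f k124 k188 7 (.q k12 [(.s k4 k8
  1 (.s k36 k52 3 (.s k28 k44 3 (.d k24 k16 k48 1 5)))), (.s k92 k172 11 (.s k108 k76 3 (.s k156
  k204 11 (.d k28 k44 k220 3 7))))] (.c k28 (.q k15 [(.s k30 k45 4 (.s k94 k173 12 (.s k158 k222 7
  (.d k109 k79 k207 4 12)))), (.s k4 k8 1 (.s k5 k10 2 (.s k7 k6 0 (.s k52 k36 3 (.s k37 k22 4 (.d
  k48 k56 k26 1 6))))))] .n) (.c k44 (.l (.s k4 k8 1 (.s k36 k52 3 (.s k24 k48 5 (.s k92 k172 11 (.s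
  k28 k16 1 (.s k108 k76 3 (.d k156 k220 k204 7 11)))))))) .n))))) (.c k104 (.q k12 [(.s k4 k8 1 (.s
  k20 k40 5 (.s k36 k52 3 (.s k24 k48 5 (.d k28 k16 k44 1 3))))), (.s k28 k44 3 (.s k92 k172 11 (.s
  k156 k220 7 (.s k108 k204 11 (.d k124 k76 k188 3 7))))), (.s k4 k8 1 (.s k84 k168 13 (.s k164 k244
  11 (.s k88 k240 13 (.d k92 k80 k172 1 11)))))] .n) (.c k124 (.f k20 k40 5 (.q k12 [(.s k4 k8 1 (.s
  k36 k52 3 (.s k28 k44 3 (.d k24 k16 k48 1 5)))), (.s k8 k4 1 (.s k168 k84 13 (.s k88 k248 11 (.s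
  k164 k240 13 (.d k172 k160 k92 1 11))))), (.s k84 k168 13 (.s k28 k44 3 (.s k92 k172 11 (.s k148
  k212 7 (.d k88 k80 k208 1 9)))))] (.c k125 (.q k127 [(.s k4 k8 1 (.s k36 k52 3 (.s k28 k44 3 (.d
  k24 k16 k48 1 5)))), (.s k8 k4 1 (.s k168 k84 13 (.s k88 k248 11 (.s k164 k240 13 (.d k172 k160
  k92 1 11))))), (.s k84 k168 13 (.s k28 k44 3 (.s k92 k172 11 (.s k148 k212 7 (.d k88 k80 k208 1
  9)))))] .n) (.c k127 (.q k125 [(.s k4 k8 1 (.s k36 k52 3 (.s k28 k44 3 (.d k24 k16 k48 1 5)))),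
  (.s k255 k190 8 (.s k85 k170 14 (.s k150 k215 8 (.d k105 k65 k195 5 14))))] .n) .n)))) (.c k148
  (.q k12 [(.s k4 k8 1 (.s k20 k40 5 (.s k28 k44 3 (.s k24 k16 1 (.d k36 k52 k48 3 5))))), (.s k28
  k44 3 (.s k92 k172 11 (.s k156 k220 7 (.s k108 k204 11 (.d k124 k76 k188 3 7))))), (.s k4 k8 1 (.s
  k84 k168 13 (.s k164 k244 11 (.s k88 k240 13 (.d k92 k80 k172 1 11)))))] .n) (.c k168 (.q k12 [(.s
  k8 k4 1 (.s k40 k20 5 (.s k24 k56 3 (.s k36 k48 5 (.d k44 k32 k28 1 3))))), (.s k28 k44 3 (.s k92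
  k172 11 (.s k156 k220 7 (.s k108 k204 11 (.d k124 k76 k188 3 7)))))] (.c k28 (.q k15 [(.s k30 k45
  4 (.s k94 k173 12 (.s k158 k222 7 (.s k109 k207 12 (.d k124 k79 k188 4 7))))), (.s k4 k8 1 (.s k5
  k10 2 (.s k20 k40 5 (.s k7 k6 0 (.s k52 k36 3 (.s k37 k22 4 (.d k48 k56 k26 1 6)))))))] .n) (.c
  k44 (.q k15 [(.s k13 k14 0 (.s k172 k92 11 (.s k173 k94 12 (.s k93 k253 11 (.d k174 k175 k255 0
  12))))), (.s k8 k4 1 (.s k10 k5 2 (.s k40 k20 5 (.s k11 k9 0 (.s k56 k24 3 (.s k26 k41 4 (.d k48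
  k52 k37 1 6)))))))] (.c k13 (.l (.s k30 k45 4 (.s k94 k173 12 (.s k158 k222 7 (.s k109 k207 12 (.d
  k124 k79 k188 4 7)))))) .n)) .n))) (.c k188 (.q k12 [(.s k4 k8 1 (.s k20 k40 5 (.s k36 k52 3 (.s
  k28 k44 3 (.d k24 k16 k48 1 5))))), (.s k4 k8 1 (.s k84 k168 13 (.s k164 k244 11 (.s k88 k240 13
  (.d k92 k80 k172 1 11))))), (.s k20 k40 5 (.s k84 k168 13 (.s k28 k44 3 (.s k92 k172 11 (.s k148
  k212 7 (.d k88 k80 k208 1 9))))))] .n) (.c k192 (.f k20 k40 5 (.f k124 k188 7 (.q k12 [(.s k4 k8 1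
  (.s k36 k52 3 (.s k28 k44 3 (.d k24 k16 k48 1 5)))), (.s k92 k172 11 (.s k108 k76 3 (.s k156 k204
  11 (.d k28 k44 k220 3 7)))), (.s k4 k8 1 (.s k84 k168 13 (.s k164 k244 11 (.s k88 k240 13 (.d k92
  k80 k172 1 11)))))] (.c k66 (.q k129 [(.s k4 k8 1 (.s k36 k52 3 (.s k28 k44 3 (.d k24 k16 k48 1
  5)))), (.s k92 k172 11 (.s k108 k76 3 (.s k156 k204 11 (.d k28 k44 k220 3 7)))), (.s k4 k8 1 (.s
  k84 k168 13 (.s k164 k244 11 (.s k88 k240 13 (.d k92 k80 k172 1 11)))))] (.c k86 (.q k106 [(.s k4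
  k8 1 (.s k36 k52 3 (.s k28 k44 3 (.d k24 k16 k48 1 5)))), (.s k92 k172 11 (.s k108 k76 3 (.s k156
  k204 11 (.d k28 k44 k220 3 7)))), (.s k4 k8 1 (.s k84 k168 13 (.s k164 k244 11 (.s k88 k240 13 (.d
  k92 k80 k172 1 11)))))] .n) (.c k106 (.q k86 [(.s k4 k8 1 (.s k36 k52 3 (.s k28 k44 3 (.d k24 k16
  k48 1 5)))), (.s k84 k168 13 (.s k105 k67 6 (.s k85 k87 0 (.d k150 k195 k215 14 8))))] (.c k63 (.q
  k149 [(.s k84 k168 13 (.d k212 k148 k23 7 8)), (.s k4 k8 1 (.s k36 k52 3 (.s k24 k48 5 (.d k28 k16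
  k44 1 3))))] (.c k23 (.q k43 [(.s k4 k8 1 (.s k36 k52 3 (.s k28 k44 3 (.d k24 k16 k48 1 5)))), (.s
  k84 k168 13 (.s k148 k212 7 (.s k105 k67 6 (.d k150 k195 k151 14 0))))] .n) (.c k43 (.l (.s k23
  k212 8 (.s k84 k168 13 (.s k21 k22 0 (.d k85 k87 k213 0 7))))) .n))) (.c k149 (.q k63 [(.s k4 k8 1
  (.s k36 k52 3 (.s k28 k44 3 (.d k24 k16 k48 1 5)))), (.s k21 k42 6 (.s k22 k23 0 (.s k150 k214 7
  (.d k105 k67 k195 6 14))))] .n) .n))) .n))) (.c k129 (.q k66 [(.s k4 k8 1 (.s k36 k52 3 (.s k28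
  k44 3 (.d k24 k16 k48 1 5)))), (.s k92 k172 11 (.s k108 k76 3 (.s k156 k204 11 (.d k28 k44 k220 3
  7)))), (.s k4 k8 1 (.s k84 k168 13 (.s k164 k244 11 (.s k88 k240 13 (.d k92 k80 k172 1 11)))))]
  .n) .n))))) (.c k212 (.l (.s k40 k20 5 (.s k188 k124 7 (.s k168 k84 13 (.s k148 k128 5 (.d k104
  k232 k192 7 13)))))) (.c k232 (.l (.s k20 k40 5 (.s k124 k188 7 (.s k84 k168 13 (.s k104 k64 5 (.d
  k148 k212 k192 7 13)))))) .n)))))))))))))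

def t127 : T TT 256 :=
  (.q k48 [(.s k16 k32 3 (.s k84 k168 13 (.s k152 k220 9 (.s k116 k184 9 (.d k100 k68 k204 3
  13)))))] (.c k16 (.q k240 [(.s k80 k160 11 (.s k84 k168 13 (.s k88 k92 1 (.s k244 k248 1 (.d k164
  k4 k12 11 13))))), (.s k112 k176 7 (.s k116 k184 9 (.s k120 k124 1 (.s k180 k60 9 (.d k244 k248
  k52 1 7))))), (.s k80 k160 11 (.s k84 k168 13 (.s k112 k176 7 (.s k116 k184 9 (.s k64 k96 3 (.d
  k124 k120 k104 1 5))))))] .n) (.c k32 (.q k240 [(.s k160 k80 11 (.s k248 k244 1 (.s k168 k84 13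
  (.s k88 k8 11 (.d k164 k172 k12 1 13))))), (.s k112 k176 7 (.s k116 k184 9 (.s k120 k124 1 (.s
  k180 k60 9 (.d k244 k248 k52 1 7))))), (.s k80 k160 11 (.s k84 k168 13 (.s k112 k176 7 (.s k116
  k184 9 (.s k100 k68 3 (.d k88 k92 k76 1 5))))))] .n) (.c k68 (.l (.s k32 k16 3 (.s k168 k84 13 (.s
  k100 k236 9 (.s k152 k204 13 (.d k184 k116 k136 9 3)))))) (.c k84 (.f k16 k32 3 (.q k240 [(.s k80
  k160 11 (.s k144 k208 7 (.s k112 k176 7 (.d k96 k64 k192 3 11)))), (.s k112 k176 7 (.s k116 k184 9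
  (.s k244 k248 1 (.s k180 k52 7 (.d k120 k124 k60 1 9)))))] (.c k112 (.q k117 [(.s k255 k186 10 (.s
  k85 k170 14 (.s k154 k223 10 (.d k101 k69 k207 3 14)))), (.s k116 k184 9 (.s k118 k119 0 (.s k244
  k248 1 (.s k181 k55 8 (.s k53 k245 7 (.d k63 k58 k122 2 10))))))] .n) (.c k176 (.q k117 [(.s k255
  k186 10 (.s k85 k170 14 (.s k154 k223 10 (.d k101 k69 k207 3 14)))), (.s k116 k184 9 (.s k118 k119
  0 (.s k244 k248 1 (.s k181 k55 8 (.s k53 k245 7 (.d k63 k58 k122 2 10))))))] (.c k181 (.l (.s k116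
  k184 9 (.s k186 k255 10 (.s k118 k119 0 (.s k50 k254 9 (.d k51 k49 k185 0 10)))))) .n)) .n)))) (.c
  k100 (.q k240 [(.s k32 k16 3 (.s k160 k80 11 (.s k96 k224 7 (.s k144 k192 11 (.d k176 k128 k112 3
  7))))), (.s k160 k80 11 (.s k168 k84 13 (.s k164 k172 1 (.s k88 k12 13 (.d k248 k244 k8 1 11))))),
  (.s k112 k176 7 (.s k116 k184 9 (.s k120 k124 1 (.s k180 k60 9 (.d k244 k248 k52 1 7)))))] .n) (.c
  k116 (.q k240 [(.s k16 k32 3 (.s k80 k160 11 (.s k144 k208 7 (.s k112 k176 7 (.d k96 k64 k192 3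
  11))))), (.s k80 k160 11 (.s k84 k168 13 (.s k88 k92 1 (.s k164 k12 13 (.d k244 k248 k4 1 11))))),
  (.s k16 k32 3 (.s k84 k168 13 (.s k152 k220 9 (.s k176 k112 7 (.s k164 k140 5 (.d k244 k248 k4 1
  11))))))] .n) (.c k152 (.q k240 [(.s k16 k32 3 (.s k80 k160 11 (.s k144 k208 7 (.s k96 k192 11 (.d
  k112 k64 k176 3 7))))), (.s k80 k160 11 (.s k84 k168 13 (.s k88 k92 1 (.s k164 k12 13 (.d k244
  k248 k4 1 11))))), (.s k112 k176 7 (.s k116 k184 9 (.s k120 k124 1 (.s k180 k60 9 (.d k244 k248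
  k52 1 7)))))] .n) (.c k168 (.q k240 [(.s k32 k16 3 (.s k160 k80 11 (.s k96 k224 7 (.s k144 k192 11
  (.d k176 k128 k112 3 7))))), (.s k112 k176 7 (.s k116 k184 9 (.s k120 k124 1 (.s k180 k60 9 (.d
  k244 k248 k52 1 7)))))] (.c k112 (.q k117 [(.s k16 k32 3 (.s k255 k186 10 (.s k85 k170 14 (.s k154
  k223 10 (.d k101 k69 k207 3 14))))), (.s k116 k184 9 (.s k118 k119 0 (.s k244 k248 1 (.s k181 k55
  8 (.s k53 k245 7 (.d k63 k58 k122 2 10))))))] .n) (.c k176 (.q k117 [(.s k116 k184 9 (.s k118 k119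
  0 (.s k51 k185 10 (.s k50 k49 0 (.d k186 k254 k255 9 10))))), (.s k16 k32 3 (.s k255 k186 10 (.s
  k85 k170 14 (.s k154 k223 10 (.d k101 k69 k207 3 14))))), (.s k116 k184 9 (.s k118 k119 0 (.s k244
  k248 1 (.s k181 k55 8 (.s k53 k245 7 (.d k63 k58 k122 2 10))))))] .n) .n))) (.c k184 (.q k240 [(.s
  k16 k32 3 (.s k80 k160 11 (.s k144 k208 7 (.s k96 k192 11 (.d k112 k64 k176 3 7))))), (.s k80 k160
  11 (.s k84 k168 13 (.s k88 k92 1 (.s k164 k12 13 (.d k244 k248 k4 1 11))))), (.s k16 k32 3 (.s k84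
  k168 13 (.s k152 k220 9 (.s k176 k112 7 (.s k164 k140 5 (.d k244 k248 k4 1 11))))))] .n) (.c k204
  (.f k16 k32 3 (.q k240 [(.s k80 k160 11 (.s k144 k208 7 (.s k112 k176 7 (.d k96 k64 k192 3 11)))),
  (.s k84 k168 13 (.s k152 k220 9 (.s k176 k112 7 (.s k164 k140 5 (.d k244 k248 k4 1 11))))), (.s
  k80 k160 11 (.s k84 k168 13 (.s k88 k92 1 (.s k164 k12 13 (.d k244 k248 k4 1 11)))))] (.c k70 (.q
  k137 [(.s k80 k160 11 (.s k144 k208 7 (.s k112 k176 7 (.d k96 k64 k192 3 11)))), (.s k84 k168 13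
  (.s k152 k220 9 (.s k176 k112 7 (.s k164 k140 5 (.d k244 k248 k4 1 11))))), (.s k80 k160 11 (.s
  k84 k168 13 (.s k88 k92 1 (.s k164 k12 13 (.d k244 k248 k4 1 11)))))] .n) (.c k137 (.q k70 [(.s
  k80 k160 11 (.s k144 k208 7 (.s k112 k176 7 (.d k96 k64 k192 3 11)))), (.s k84 k168 13 (.s k152
  k220 9 (.s k176 k112 7 (.s k164 k140 5 (.d k244 k248 k4 1 11))))), (.s k80 k160 11 (.s k84 k168 13
  (.s k88 k92 1 (.s k164 k12 13 (.d k244 k248 k4 1 11)))))] .n) .n)))) (.c k220 (.l (.s k32 k16 3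
  (.s k184 k116 9 (.s k168 k84 13 (.s k152 k136 3 (.d k100 k236 k204 9 13)))))) (.c k236 (.l (.s k16
  k32 3 (.s k116 k184 9 (.s k84 k168 13 (.s k100 k68 3 (.d k152 k220 k204 9 13)))))) .n)))))))))))))

def t253 : T TT 256 :=
  (.q k48 [(.s k16 k32 3 (.s k84 k168 13 (.s k152 k220 9 (.s k116 k184 9 (.d k100 k68 k204 3
  13)))))] (.c k16 (.q k240 [(.s k80 k160 11 (.s k84 k168 13 (.s k88 k92 1 (.s k244 k248 1 (.d k164
  k4 k12 11 13))))), (.s k112 k176 7 (.s k116 k184 9 (.s k120 k124 1 (.s k180 k60 9 (.d k244 k248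
  k52 1 7))))), (.s k80 k160 11 (.s k84 k168 13 (.s k112 k176 7 (.s k116 k184 9 (.s k64 k96 3 (.d
  k124 k120 k104 1 5))))))] .n) (.c k32 (.q k240 [(.s k160 k80 11 (.s k248 k244 1 (.s k168 k84 13
  (.s k88 k8 11 (.d k164 k172 k12 1 13))))), (.s k112 k176 7 (.s k116 k184 9 (.s k120 k124 1 (.s
  k180 k60 9 (.d k244 k248 k52 1 7))))), (.s k80 k160 11 (.s k84 k168 13 (.s k112 k176 7 (.s k116
  k184 9 (.s k100 k68 3 (.d k88 k92 k76 1 5))))))] .n) (.c k68 (.l (.s k32 k16 3 (.s k168 k84 13 (.s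
  k100 k236 9 (.s k152 k204 13 (.d k184 k116 k136 9 3)))))) (.c k84 (.f k16 k32 3 (.q k240 [(.s k80
  k160 11 (.s k144 k208 7 (.s k112 k176 7 (.d k96 k64 k192 3 11)))), (.s k112 k176 7 (.s k116 k184 9
  (.s k244 k248 1 (.s k180 k52 7 (.d k120 k124 k60 1 9)))))] (.c k112 (.q k117 [(.s k255 k186 10 (.s
  k85 k170 14 (.s k154 k223 10 (.d k101 k69 k207 3 14)))), (.s k116 k184 9 (.s k118 k119 0 (.s k244
  k248 1 (.s k181 k55 8 (.s k53 k245 7 (.d k63 k58 k122 2 10))))))] .n) (.c k176 (.q k117 [(.s k255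
  k186 10 (.s k85 k170 14 (.s k154 k223 10 (.d k101 k69 k207 3 14)))), (.s k116 k184 9 (.s k118 k119
  0 (.s k244 k248 1 (.s k181 k55 8 (.s k53 k245 7 (.d k63 k58 k122 2 10))))))] (.c k181 (.l (.s k116
  k184 9 (.s k186 k255 10 (.s k118 k119 0 (.s k50 k254 9 (.d k51 k49 k185 0 10)))))) .n)) .n)))) (.c
  k100 (.q k240 [(.s k32 k16 3 (.s k160 k80 11 (.s k96 k224 7 (.s k144 k192 11 (.d k176 k128 k112 3
  7))))), (.s k160 k80 11 (.s k168 k84 13 (.s k164 k172 1 (.s k88 k12 13 (.d k248 k244 k8 1 11))))),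
  (.s k112 k176 7 (.s k116 k184 9 (.s k120 k124 1 (.s k180 k60 9 (.d k244 k248 k52 1 7)))))] .n) (.c
  k116 (.q k240 [(.s k16 k32 3 (.s k80 k160 11 (.s k144 k208 7 (.s k112 k176 7 (.d k96 k64 k192 3
  11))))), (.s k80 k160 11 (.s k84 k168 13 (.s k88 k92 1 (.s k164 k12 13 (.d k244 k248 k4 1 11))))),
  (.s k16 k32 3 (.s k84 k168 13 (.s k152 k220 9 (.s k176 k112 7 (.s k164 k140 5 (.d k244 k248 k4 1
  11))))))] .n) (.c k152 (.q k240 [(.s k16 k32 3 (.s k80 k160 11 (.s k144 k208 7 (.s k96 k192 11 (.d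
  k112 k64 k176 3 7))))), (.s k80 k160 11 (.s k84 k168 13 (.s k88 k92 1 (.s k164 k12 13 (.d k244
  k248 k4 1 11))))), (.s k112 k176 7 (.s k116 k184 9 (.s k120 k124 1 (.s k180 k60 9 (.d k244 k248
  k52 1 7)))))] .n) (.c k168 (.q k240 [(.s k32 k16 3 (.s k160 k80 11 (.s k96 k224 7 (.s k144 k192 11
  (.d k176 k128 k112 3 7))))), (.s k112 k176 7 (.s k116 k184 9 (.s k120 k124 1 (.s k180 k60 9 (.d
  k244 k248 k52 1 7)))))] (.c k112 (.q k117 [(.s k116 k184 9 (.s k118 k119 0 (.s k51 k185 10 (.s k50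
  k49 0 (.d k186 k254 k255 9 10))))), (.s k16 k32 3 (.s k255 k186 10 (.s k85 k170 14 (.s k154 k223
  10 (.d k101 k69 k207 3 14))))), (.s k116 k184 9 (.s k118 k119 0 (.s k244 k248 1 (.s k181 k55 8 (.s
  k53 k245 7 (.d k63 k58 k122 2 10))))))] .n) (.c k176 (.q k117 [(.s k116 k184 9 (.s k118 k119 0 (.s
  k51 k185 10 (.s k50 k49 0 (.d k186 k254 k255 9 10))))), (.s k16 k32 3 (.s k255 k186 10 (.s k85
  k170 14 (.s k154 k223 10 (.d k101 k69 k207 3 14))))), (.s k116 k184 9 (.s k118 k119 0 (.s k244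
  k248 1 (.s k181 k55 8 (.s k53 k245 7 (.d k63 k58 k122 2 10))))))] .n) .n))) (.c k184 (.q k240 [(.s
  k32 k16 3 (.s k176 k112 7 (.s k160 k80 11 (.s k144 k128 3 (.d k96 k224 k192 7 11))))), (.s k80
  k160 11 (.s k84 k168 13 (.s k88 k92 1 (.s k164 k12 13 (.d k244 k248 k4 1 11))))), (.s k16 k32 3
  (.s k84 k168 13 (.s k152 k220 9 (.s k176 k112 7 (.s k164 k140 5 (.d k244 k248 k4 1 11))))))] .n)
  (.c k204 (.f k16 k32 3 (.q k240 [(.s k80 k160 11 (.s k144 k208 7 (.s k112 k176 7 (.d k96 k64 k192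
  3 11)))), (.s k84 k168 13 (.s k152 k220 9 (.s k176 k112 7 (.s k164 k140 5 (.d k244 k248 k4 1
  11))))), (.s k80 k160 11 (.s k84 k168 13 (.s k88 k92 1 (.s k164 k12 13 (.d k244 k248 k4 1 11)))))]
  (.c k70 (.q k137 [(.s k80 k160 11 (.s k144 k208 7 (.s k112 k176 7 (.d k96 k64 k192 3 11)))), (.s
  k84 k168 13 (.s k152 k220 9 (.s k176 k112 7 (.s k164 k140 5 (.d k244 k248 k4 1 11))))), (.s k80
  k160 11 (.s k84 k168 13 (.s k88 k92 1 (.s k164 k12 13 (.d k244 k248 k4 1 11)))))] .n) (.c k137 (.q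
  k70 [(.s k80 k160 11 (.s k144 k208 7 (.s k112 k176 7 (.d k96 k64 k192 3 11)))), (.s k84 k168 13
  (.s k152 k220 9 (.s k176 k112 7 (.s k164 k140 5 (.d k244 k248 k4 1 11))))), (.s k80 k160 11 (.s
  k84 k168 13 (.s k88 k92 1 (.s k164 k12 13 (.d k244 k248 k4 1 11)))))] .n) .n)))) (.c k220 (.l (.s
  k32 k16 3 (.s k184 k116 9 (.s k168 k84 13 (.s k152 k136 3 (.d k100 k236 k204 9 13)))))) (.c k236
  (.l (.s k16 k32 3 (.s k116 k184 9 (.s k84 k168 13 (.s k100 k68 3 (.d k152 k220 k204 9 13))))))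
  .n)))))))))))))

def t255 : T TT 256 :=
  (.q k204 [(.s k68 k136 9 (.s k84 k168 13 (.s k100 k116 3 (.s k220 k236 3 (.d k152 k16 k48 9
  13)))))] (.c k16 (.l (.s k136 k68 9 (.s k168 k84 13 (.s k152 k184 3 (.s k100 k48 13 (.d k236 k220
  k32 3 9)))))) (.c k48 (.f k68 k136 9 (.f k220 k236 3 (.q k12 [(.s k4 k8 1 (.s k132 k196 7 (.s k76
  k140 7 (.d k72 k64 k192 1 9)))), (.s k92 k172 11 (.s k156 k28 7 (.s k108 k60 11 (.d k76 k124 k140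
  3 7)))), (.s k4 k8 1 (.s k84 k168 13 (.s k164 k244 11 (.s k88 k240 13 (.d k92 k80 k172 1 11)))))]
  (.c k18 (.q k33 [(.s k4 k8 1 (.s k132 k196 7 (.s k76 k140 7 (.d k72 k64 k192 1 9)))), (.s k92 k172
  11 (.s k156 k28 7 (.s k108 k60 11 (.d k76 k124 k140 3 7)))), (.s k4 k8 1 (.s k84 k168 13 (.s k164
  k244 11 (.s k88 k240 13 (.d k92 k80 k172 1 11)))))] (.c k87 (.q k171 [(.s k4 k8 1 (.s k132 k196 7
  (.s k76 k140 7 (.d k72 k64 k192 1 9)))), (.s k92 k172 11 (.s k156 k28 7 (.s k108 k60 11 (.d k76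
  k124 k140 3 7)))), (.s k4 k8 1 (.s k84 k168 13 (.s k164 k244 11 (.s k88 k240 13 (.d k92 k80 k172 1
  11)))))] (.c k117 (.q k186 [(.s k4 k8 1 (.s k132 k196 7 (.s k76 k140 7 (.d k72 k64 k192 1 9)))),
  (.s k92 k172 11 (.s k156 k28 7 (.s k108 k60 11 (.d k76 k124 k140 3 7)))), (.s k4 k8 1 (.s k84 k168
  13 (.s k164 k244 11 (.s k88 k240 13 (.d k92 k80 k172 1 11)))))] .n) (.c k186 (.q k117 [(.s k4 k8 1
  (.s k132 k196 7 (.s k76 k140 7 (.d k72 k64 k192 1 9)))), (.s k92 k172 11 (.s k156 k28 7 (.s k108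
  k60 11 (.d k76 k124 k140 3 7)))), (.s k4 k8 1 (.s k84 k168 13 (.s k164 k244 11 (.s k88 k240 13 (.d
  k92 k80 k172 1 11)))))] .n) .n))) (.c k117 (.q k186 [(.s k4 k8 1 (.s k132 k196 7 (.s k76 k140 7
  (.d k72 k64 k192 1 9)))), (.s k92 k172 11 (.s k156 k28 7 (.s k108 k60 11 (.d k76 k124 k140 3
  7)))), (.s k4 k8 1 (.s k84 k168 13 (.s k164 k244 11 (.s k88 k240 13 (.d k92 k80 k172 1 11)))))]
  (.c k87 (.q k171 [(.s k4 k8 1 (.s k132 k196 7 (.s k76 k140 7 (.d k72 k64 k192 1 9)))), (.s k92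
  k172 11 (.s k156 k28 7 (.s k108 k60 11 (.d k76 k124 k140 3 7)))), (.s k4 k8 1 (.s k84 k168 13 (.s
  k164 k244 11 (.s k88 k240 13 (.d k92 k80 k172 1 11)))))] .n) (.c k171 (.q k87 [(.s k4 k8 1 (.s
  k132 k196 7 (.s k76 k140 7 (.d k72 k64 k192 1 9)))), (.s k92 k172 11 (.s k156 k28 7 (.s k108 k60
  11 (.d k76 k124 k140 3 7)))), (.s k4 k8 1 (.s k84 k168 13 (.s k164 k244 11 (.s k88 k240 13 (.d k92
  k80 k172 1 11)))))] .n) .n))) (.c k171 (.q k87 [(.s k4 k8 1 (.s k132 k196 7 (.s k76 k140 7 (.d k72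
  k64 k192 1 9)))), (.s k92 k172 11 (.s k156 k28 7 (.s k108 k60 11 (.d k76 k124 k140 3 7)))), (.s k4
  k8 1 (.s k84 k168 13 (.s k164 k244 11 (.s k88 k240 13 (.d k92 k80 k172 1 11)))))] (.c k117 (.q
  k186 [(.s k4 k8 1 (.s k132 k196 7 (.s k76 k140 7 (.d k72 k64 k192 1 9)))), (.s k92 k172 11 (.s
  k156 k28 7 (.s k108 k60 11 (.d k76 k124 k140 3 7)))), (.s k4 k8 1 (.s k84 k168 13 (.s k164 k244 11
  (.s k88 k240 13 (.d k92 k80 k172 1 11)))))] .n) (.c k186 (.q k117 [(.s k4 k8 1 (.s k132 k196 7 (.s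
  k76 k140 7 (.d k72 k64 k192 1 9)))), (.s k84 k168 13 (.s k85 k86 0 (.s k119 k102 4 (.d k116 k118
  k100 0 3))))] .n) .n))) (.c k186 (.q k117 [(.s k4 k8 1 (.s k132 k196 7 (.s k76 k140 7 (.d k72 k64
  k192 1 9)))), (.s k92 k172 11 (.s k156 k28 7 (.s k108 k60 11 (.d k76 k124 k140 3 7)))), (.s k4 k8
  1 (.s k84 k168 13 (.s k164 k244 11 (.s k88 k240 13 (.d k92 k80 k172 1 11)))))] (.c k87 (.q k171
  [(.s k4 k8 1 (.s k132 k196 7 (.s k76 k140 7 (.d k72 k64 k192 1 9)))), (.s k92 k172 11 (.s k156 k28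
  7 (.s k108 k60 11 (.d k76 k124 k140 3 7)))), (.s k4 k8 1 (.s k84 k168 13 (.s k164 k244 11 (.s k88
  k240 13 (.d k92 k80 k172 1 11)))))] .n) (.c k171 (.q k87 [(.s k4 k8 1 (.s k132 k196 7 (.s k76 k140
  7 (.d k72 k64 k192 1 9)))), (.s k84 k168 13 (.s k85 k86 0 (.s k119 k102 4 (.d k116 k118 k100 0
  3))))] .n) .n))) .n))))) (.c k33 (.q k18 [(.s k4 k8 1 (.s k132 k196 7 (.s k76 k140 7 (.d k72 k64
  k192 1 9)))), (.s k92 k172 11 (.s k156 k28 7 (.s k108 k60 11 (.d k76 k124 k140 3 7)))), (.s k4 k8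
  1 (.s k84 k168 13 (.s k164 k244 11 (.s k88 k240 13 (.d k92 k80 k172 1 11)))))] (.c k87 (.q k171
  [(.s k4 k8 1 (.s k132 k196 7 (.s k76 k140 7 (.d k72 k64 k192 1 9)))), (.s k92 k172 11 (.s k156 k28
  7 (.s k108 k60 11 (.d k76 k124 k140 3 7)))), (.s k4 k8 1 (.s k84 k168 13 (.s k164 k244 11 (.s k88
  k240 13 (.d k92 k80 k172 1 11)))))] (.c k117 (.q k186 [(.s k4 k8 1 (.s k132 k196 7 (.s k76 k140 7
  (.d k72 k64 k192 1 9)))), (.s k92 k172 11 (.s k156 k28 7 (.s k108 k60 11 (.d k76 k124 k140 3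
  7)))), (.s k4 k8 1 (.s k84 k168 13 (.s k164 k244 11 (.s k88 k240 13 (.d k92 k80 k172 1 11)))))]
  .n) (.c k186 (.q k117 [(.s k4 k8 1 (.s k132 k196 7 (.s k76 k140 7 (.d k72 k64 k192 1 9)))), (.s
  k92 k172 11 (.s k156 k28 7 (.s k108 k60 11 (.d k76 k124 k140 3 7)))), (.s k4 k8 1 (.s k84 k168 13
  (.s k164 k244 11 (.s k88 k240 13 (.d k92 k80 k172 1 11)))))] .n) .n))) (.c k117 (.q k186 [(.s k4
  k8 1 (.s k132 k196 7 (.s k76 k140 7 (.d k72 k64 k192 1 9)))), (.s k92 k172 11 (.s k156 k28 7 (.s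
  k108 k60 11 (.d k76 k124 k140 3 7)))), (.s k4 k8 1 (.s k84 k168 13 (.s k164 k244 11 (.s k88 k240
  13 (.d k92 k80 k172 1 11)))))] (.c k87 (.q k171 [(.s k4 k8 1 (.s k132 k196 7 (.s k76 k140 7 (.d
  k72 k64 k192 1 9)))), (.s k92 k172 11 (.s k156 k28 7 (.s k108 k60 11 (.d k76 k124 k140 3 7)))),
  (.s k4 k8 1 (.s k84 k168 13 (.s k164 k244 11 (.s k88 k240 13 (.d k92 k80 k172 1 11)))))] .n) (.c
  k171 (.q k87 [(.s k4 k8 1 (.s k132 k196 7 (.s k76 k140 7 (.d k72 k64 k192 1 9)))), (.s k84 k168 13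
  (.s k86 k85 0 (.s k19 k153 10 (.d k16 k17 k152 0 9))))] .n) .n))) (.c k171 (.q k87 [(.s k4 k8 1
  (.s k132 k196 7 (.s k76 k140 7 (.d k72 k64 k192 1 9)))), (.s k84 k168 13 (.s k86 k85 0 (.s k19
  k153 10 (.d k16 k17 k152 0 9))))] (.c k117 (.q k186 [(.s k4 k8 1 (.s k132 k196 7 (.s k76 k140 7
  (.d k72 k64 k192 1 9)))), (.s k84 k168 13 (.s k86 k85 0 (.s k19 k153 10 (.d k16 k17 k152 0 9))))]
  .n) (.c k186 (.q k117 [(.s k4 k8 1 (.s k132 k196 7 (.s k76 k140 7 (.d k72 k64 k192 1 9)))), (.s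
  k84 k168 13 (.s k85 k86 0 (.s k119 k102 4 (.d k116 k118 k100 0 3))))] .n) .n))) (.c k186 (.q k117
  [(.s k4 k8 1 (.s k132 k196 7 (.s k76 k140 7 (.d k72 k64 k192 1 9)))), (.s k92 k172 11 (.s k156 k28
  7 (.s k108 k60 11 (.d k76 k124 k140 3 7)))), (.s k4 k8 1 (.s k84 k168 13 (.s k164 k244 11 (.s k88
  k240 13 (.d k92 k80 k172 1 11)))))] (.c k87 (.q k171 [(.s k4 k8 1 (.s k132 k196 7 (.s k76 k140 7
  (.d k72 k64 k192 1 9)))), (.s k92 k172 11 (.s k156 k28 7 (.s k108 k60 11 (.d k76 k124 k140 3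
  7)))), (.s k4 k8 1 (.s k84 k168 13 (.s k164 k244 11 (.s k88 k240 13 (.d k92 k80 k172 1 11)))))]
  .n) (.c k171 (.q k87 [(.s k4 k8 1 (.s k132 k196 7 (.s k76 k140 7 (.d k72 k64 k192 1 9)))), (.s k84
  k168 13 (.s k85 k86 0 (.s k119 k102 4 (.d k116 k118 k100 0 3))))] .n) .n))) .n))))) (.c k87 (.q
  k171 [(.s k4 k8 1 (.s k132 k196 7 (.s k76 k140 7 (.d k72 k64 k192 1 9)))), (.s k92 k172 11 (.s
  k156 k28 7 (.s k108 k60 11 (.d k76 k124 k140 3 7)))), (.s k4 k8 1 (.s k84 k168 13 (.s k164 k244 11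
  (.s k88 k240 13 (.d k92 k80 k172 1 11)))))] (.c k18 (.q k33 [(.s k4 k8 1 (.s k132 k196 7 (.s k76
  k140 7 (.d k72 k64 k192 1 9)))), (.s k92 k172 11 (.s k156 k28 7 (.s k108 k60 11 (.d k76 k124 k140
  3 7)))), (.s k4 k8 1 (.s k84 k168 13 (.s k164 k244 11 (.s k88 k240 13 (.d k92 k80 k172 1 11)))))]
  (.c k117 (.q k186 [(.s k4 k8 1 (.s k132 k196 7 (.s k76 k140 7 (.d k72 k64 k192 1 9)))), (.s k92
  k172 11 (.s k156 k28 7 (.s k108 k60 11 (.d k76 k124 k140 3 7)))), (.s k4 k8 1 (.s k84 k168 13 (.s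
  k164 k244 11 (.s k88 k240 13 (.d k92 k80 k172 1 11)))))] .n) (.c k186 (.q k117 [(.s k4 k8 1 (.s
  k132 k196 7 (.s k76 k140 7 (.d k72 k64 k192 1 9)))), (.s k92 k172 11 (.s k156 k28 7 (.s k108 k60
  11 (.d k76 k124 k140 3 7)))), (.s k4 k8 1 (.s k84 k168 13 (.s k164 k244 11 (.s k88 k240 13 (.d k92
  k80 k172 1 11)))))] .n) .n))) (.c k33 (.q k18 [(.s k4 k8 1 (.s k132 k196 7 (.s k76 k140 7 (.d k72
  k64 k192 1 9)))), (.s k92 k172 11 (.s k156 k28 7 (.s k108 k60 11 (.d k76 k124 k140 3 7)))), (.s k4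
  k8 1 (.s k84 k168 13 (.s k164 k244 11 (.s k88 k240 13 (.d k92 k80 k172 1 11)))))] (.c k117 (.q
  k186 [(.s k4 k8 1 (.s k132 k196 7 (.s k76 k140 7 (.d k72 k64 k192 1 9)))), (.s k92 k172 11 (.s
  k156 k28 7 (.s k108 k60 11 (.d k76 k124 k140 3 7)))), (.s k4 k8 1 (.s k84 k168 13 (.s k164 k244 11
  (.s k88 k240 13 (.d k92 k80 k172 1 11)))))] .n) (.c k186 (.q k117 [(.s k4 k8 1 (.s k132 k196 7 (.s
  k76 k140 7 (.d k72 k64 k192 1 9)))), (.s k92 k172 11 (.s k156 k28 7 (.s k108 k60 11 (.d k76 k124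
  k140 3 7)))), (.s k4 k8 1 (.s k84 k168 13 (.s k164 k244 11 (.s k88 k240 13 (.d k92 k80 k172 1
  11)))))] .n) .n))) (.c k117 (.q k186 [(.s k4 k8 1 (.s k132 k196 7 (.s k76 k140 7 (.d k72 k64 k192
  1 9)))), (.s k92 k172 11 (.s k156 k28 7 (.s k108 k60 11 (.d k76 k124 k140 3 7)))), (.s k4 k8 1 (.s
  k84 k168 13 (.s k164 k244 11 (.s k88 k240 13 (.d k92 k80 k172 1 11)))))] (.c k18 (.q k33 [(.s k4
  k8 1 (.s k132 k196 7 (.s k76 k140 7 (.d k72 k64 k192 1 9)))), (.s k92 k172 11 (.s k156 k28 7 (.s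
  k108 k60 11 (.d k76 k124 k140 3 7)))), (.s k4 k8 1 (.s k84 k168 13 (.s k164 k244 11 (.s k88 k240
  13 (.d k92 k80 k172 1 11)))))] .n) (.c k33 (.q k18 [(.s k4 k8 1 (.s k132 k196 7 (.s k76 k140 7 (.d
  k72 k64 k192 1 9)))), (.s k92 k172 11 (.s k156 k28 7 (.s k108 k60 11 (.d k76 k124 k140 3 7)))),
  (.s k4 k8 1 (.s k84 k168 13 (.s k164 k244 11 (.s k88 k240 13 (.d k92 k80 k172 1 11)))))] .n) .n)))
  (.c k186 (.q k117 [(.s k4 k8 1 (.s k132 k196 7 (.s k76 k140 7 (.d k72 k64 k192 1 9)))), (.s k92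
  k172 11 (.s k156 k28 7 (.s k108 k60 11 (.d k76 k124 k140 3 7)))), (.s k4 k8 1 (.s k84 k168 13 (.s
  k164 k244 11 (.s k88 k240 13 (.d k92 k80 k172 1 11)))))] (.c k18 (.q k33 [(.s k4 k8 1 (.s k132
  k196 7 (.s k76 k140 7 (.d k72 k64 k192 1 9)))), (.s k92 k172 11 (.s k156 k28 7 (.s k108 k60 11 (.d
  k76 k124 k140 3 7)))), (.s k4 k8 1 (.s k84 k168 13 (.s k164 k244 11 (.s k88 k240 13 (.d k92 k80
  k172 1 11)))))] .n) (.c k33 (.q k18 [(.s k4 k8 1 (.s k132 k196 7 (.s k76 k140 7 (.d k72 k64 k192 1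
  9)))), (.s k92 k172 11 (.s k156 k28 7 (.s k108 k60 11 (.d k76 k124 k140 3 7)))), (.s k4 k8 1 (.s
  k84 k168 13 (.s k164 k244 11 (.s k88 k240 13 (.d k92 k80 k172 1 11)))))] .n) .n))) .n))))) (.c
  k117 (.q k186 [(.s k4 k8 1 (.s k132 k196 7 (.s k76 k140 7 (.d k72 k64 k192 1 9)))), (.s k92 k172
  11 (.s k156 k28 7 (.s k108 k60 11 (.d k76 k124 k140 3 7)))), (.s k4 k8 1 (.s k84 k168 13 (.s k164
  k244 11 (.s k88 k240 13 (.d k92 k80 k172 1 11)))))] (.c k18 (.q k33 [(.s k4 k8 1 (.s k132 k196 7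
  (.s k76 k140 7 (.d k72 k64 k192 1 9)))), (.s k92 k172 11 (.s k156 k28 7 (.s k108 k60 11 (.d k76
  k124 k140 3 7)))), (.s k4 k8 1 (.s k84 k168 13 (.s k164 k244 11 (.s k88 k240 13 (.d k92 k80 k172 1
  11)))))] (.c k87 (.q k171 [(.s k4 k8 1 (.s k132 k196 7 (.s k76 k140 7 (.d k72 k64 k192 1 9)))),
  (.s k92 k172 11 (.s k156 k28 7 (.s k108 k60 11 (.d k76 k124 k140 3 7)))), (.s k4 k8 1 (.s k84 k168
  13 (.s k164 k244 11 (.s k88 k240 13 (.d k92 k80 k172 1 11)))))] .n) (.c k171 (.q k87 [(.s k4 k8 1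
  (.s k132 k196 7 (.s k76 k140 7 (.d k72 k64 k192 1 9)))), (.s k92 k172 11 (.s k156 k28 7 (.s k108
  k60 11 (.d k76 k124 k140 3 7)))), (.s k4 k8 1 (.s k84 k168 13 (.s k164 k244 11 (.s k88 k240 13 (.d
  k92 k80 k172 1 11)))))] .n) .n))) (.c k33 (.q k18 [(.s k4 k8 1 (.s k132 k196 7 (.s k76 k140 7 (.d
  k72 k64 k192 1 9)))), (.s k92 k172 11 (.s k156 k28 7 (.s k108 k60 11 (.d k76 k124 k140 3 7)))),
  (.s k4 k8 1 (.s k84 k168 13 (.s k164 k244 11 (.s k88 k240 13 (.d k92 k80 k172 1 11)))))] (.c k87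
  (.q k171 [(.s k4 k8 1 (.s k132 k196 7 (.s k76 k140 7 (.d k72 k64 k192 1 9)))), (.s k92 k172 11 (.s
  k156 k28 7 (.s k108 k60 11 (.d k76 k124 k140 3 7)))), (.s k4 k8 1 (.s k84 k168 13 (.s k164 k244 11
  (.s k88 k240 13 (.d k92 k80 k172 1 11)))))] .n) (.c k171 (.q k87 [(.s k4 k8 1 (.s k132 k196 7 (.s
  k76 k140 7 (.d k72 k64 k192 1 9)))), (.s k84 k168 13 (.s k86 k85 0 (.s k19 k153 10 (.d k16 k17
  k152 0 9))))] .n) .n))) (.c k87 (.q k171 [(.s k4 k8 1 (.s k132 k196 7 (.s k76 k140 7 (.d k72 k64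
  k192 1 9)))), (.s k92 k172 11 (.s k156 k28 7 (.s k108 k60 11 (.d k76 k124 k140 3 7)))), (.s k4 k8
  1 (.s k84 k168 13 (.s k164 k244 11 (.s k88 k240 13 (.d k92 k80 k172 1 11)))))] (.c k18 (.q k33
  [(.s k4 k8 1 (.s k132 k196 7 (.s k76 k140 7 (.d k72 k64 k192 1 9)))), (.s k92 k172 11 (.s k156 k28
  7 (.s k108 k60 11 (.d k76 k124 k140 3 7)))), (.s k4 k8 1 (.s k84 k168 13 (.s k164 k244 11 (.s k88
  k240 13 (.d k92 k80 k172 1 11)))))] .n) (.c k33 (.q k18 [(.s k4 k8 1 (.s k132 k196 7 (.s k76 k140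
  7 (.d k72 k64 k192 1 9)))), (.s k92 k172 11 (.s k156 k28 7 (.s k108 k60 11 (.d k76 k124 k140 3
  7)))), (.s k4 k8 1 (.s k84 k168 13 (.s k164 k244 11 (.s k88 k240 13 (.d k92 k80 k172 1 11)))))]
  .n) .n))) (.c k171 (.q k87 [(.s k4 k8 1 (.s k132 k196 7 (.s k76 k140 7 (.d k72 k64 k192 1 9)))),
  (.s k92 k172 11 (.s k156 k28 7 (.s k108 k60 11 (.d k76 k124 k140 3 7)))), (.s k4 k8 1 (.s k84 k168
  13 (.s k164 k244 11 (.s k88 k240 13 (.d k92 k80 k172 1 11)))))] (.c k18 (.q k33 [(.s k4 k8 1 (.s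
  k132 k196 7 (.s k76 k140 7 (.d k72 k64 k192 1 9)))), (.s k92 k172 11 (.s k156 k28 7 (.s k108 k60
  11 (.d k76 k124 k140 3 7)))), (.s k4 k8 1 (.s k84 k168 13 (.s k164 k244 11 (.s k88 k240 13 (.d k92
  k80 k172 1 11)))))] .n) (.c k33 (.q k18 [(.s k4 k8 1 (.s k132 k196 7 (.s k76 k140 7 (.d k72 k64
  k192 1 9)))), (.s k84 k168 13 (.s k86 k85 0 (.s k19 k153 10 (.d k16 k17 k152 0 9))))] .n) .n)))
  .n))))) (.c k171 (.q k87 [(.s k4 k8 1 (.s k132 k196 7 (.s k76 k140 7 (.d k72 k64 k192 1 9)))), (.s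
  k92 k172 11 (.s k156 k28 7 (.s k108 k60 11 (.d k76 k124 k140 3 7)))), (.s k4 k8 1 (.s k84 k168 13
  (.s k164 k244 11 (.s k88 k240 13 (.d k92 k80 k172 1 11)))))] (.c k18 (.q k33 [(.s k4 k8 1 (.s k132
  k196 7 (.s k76 k140 7 (.d k72 k64 k192 1 9)))), (.s k92 k172 11 (.s k156 k28 7 (.s k108 k60 11 (.d
  k76 k124 k140 3 7)))), (.s k4 k8 1 (.s k84 k168 13 (.s k164 k244 11 (.s k88 k240 13 (.d k92 k80
  k172 1 11)))))] (.c k117 (.q k186 [(.s k4 k8 1 (.s k132 k196 7 (.s k76 k140 7 (.d k72 k64 k192 1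
  9)))), (.s k92 k172 11 (.s k156 k28 7 (.s k108 k60 11 (.d k76 k124 k140 3 7)))), (.s k4 k8 1 (.s
  k84 k168 13 (.s k164 k244 11 (.s k88 k240 13 (.d k92 k80 k172 1 11)))))] .n) (.c k186 (.q k117
  [(.s k4 k8 1 (.s k132 k196 7 (.s k76 k140 7 (.d k72 k64 k192 1 9)))), (.s k84 k168 13 (.s k85 k86
  0 (.s k119 k102 4 (.d k116 k118 k100 0 3))))] .n) .n))) (.c k33 (.q k18 [(.s k4 k8 1 (.s k132 k196
  7 (.s k76 k140 7 (.d k72 k64 k192 1 9)))), (.s k84 k168 13 (.s k86 k85 0 (.s k19 k153 10 (.d k16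
  k17 k152 0 9))))] (.c k117 (.q k186 [(.s k4 k8 1 (.s k132 k196 7 (.s k76 k140 7 (.d k72 k64 k192 1
  9)))), (.s k84 k168 13 (.s k86 k85 0 (.s k19 k153 10 (.d k16 k17 k152 0 9))))] .n) (.c k186 (.q
  k117 [(.s k4 k8 1 (.s k132 k196 7 (.s k76 k140 7 (.d k72 k64 k192 1 9)))), (.s k84 k168 13 (.s k85
  k86 0 (.s k119 k102 4 (.d k116 k118 k100 0 3))))] .n) .n))) (.c k117 (.q k186 [(.s k4 k8 1 (.s
  k132 k196 7 (.s k76 k140 7 (.d k72 k64 k192 1 9)))), (.s k92 k172 11 (.s k156 k28 7 (.s k108 k60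
  11 (.d k76 k124 k140 3 7)))), (.s k4 k8 1 (.s k84 k168 13 (.s k164 k244 11 (.s k88 k240 13 (.d k92
  k80 k172 1 11)))))] (.c k18 (.q k33 [(.s k4 k8 1 (.s k132 k196 7 (.s k76 k140 7 (.d k72 k64 k192 1
  9)))), (.s k92 k172 11 (.s k156 k28 7 (.s k108 k60 11 (.d k76 k124 k140 3 7)))), (.s k4 k8 1 (.s
  k84 k168 13 (.s k164 k244 11 (.s k88 k240 13 (.d k92 k80 k172 1 11)))))] .n) (.c k33 (.q k18 [(.s
  k4 k8 1 (.s k132 k196 7 (.s k76 k140 7 (.d k72 k64 k192 1 9)))), (.s k84 k168 13 (.s k86 k85 0 (.s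
  k19 k153 10 (.d k16 k17 k152 0 9))))] .n) .n))) (.c k186 (.q k117 [(.s k4 k8 1 (.s k132 k196 7 (.s
  k76 k140 7 (.d k72 k64 k192 1 9)))), (.s k84 k168 13 (.s k85 k86 0 (.s k119 k102 4 (.d k116 k118
  k100 0 3))))] (.c k18 (.q k33 [(.s k4 k8 1 (.s k132 k196 7 (.s k76 k140 7 (.d k72 k64 k192 1
  9)))), (.s k84 k168 13 (.s k85 k86 0 (.s k119 k102 4 (.d k116 k118 k100 0 3))))] .n) (.c k33 (.q
  k18 [(.s k4 k8 1 (.s k132 k196 7 (.s k76 k140 7 (.d k72 k64 k192 1 9)))), (.s k84 k168 13 (.s k85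
  k86 0 (.s k119 k102 4 (.d k116 k118 k100 0 3))))] .n) .n))) .n))))) (.c k186 (.q k117 [(.s k4 k8 1
  (.s k132 k196 7 (.s k76 k140 7 (.d k72 k64 k192 1 9)))), (.s k92 k172 11 (.s k156 k28 7 (.s k108
  k60 11 (.d k76 k124 k140 3 7)))), (.s k4 k8 1 (.s k84 k168 13 (.s k164 k244 11 (.s k88 k240 13 (.d
  k92 k80 k172 1 11)))))] (.c k18 (.q k33 [(.s k4 k8 1 (.s k132 k196 7 (.s k76 k140 7 (.d k72 k64
  k192 1 9)))), (.s k92 k172 11 (.s k156 k28 7 (.s k108 k60 11 (.d k76 k124 k140 3 7)))), (.s k4 k8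
  1 (.s k84 k168 13 (.s k164 k244 11 (.s k88 k240 13 (.d k92 k80 k172 1 11)))))] (.c k87 (.q k171
  [(.s k4 k8 1 (.s k132 k196 7 (.s k76 k140 7 (.d k72 k64 k192 1 9)))), (.s k92 k172 11 (.s k156 k28
  7 (.s k108 k60 11 (.d k76 k124 k140 3 7)))), (.s k4 k8 1 (.s k84 k168 13 (.s k164 k244 11 (.s k88
  k240 13 (.d k92 k80 k172 1 11)))))] .n) (.c k171 (.q k87 [(.s k4 k8 1 (.s k132 k196 7 (.s k76 k140
  7 (.d k72 k64 k192 1 9)))), (.s k84 k168 13 (.s k85 k86 0 (.s k119 k102 4 (.d k116 k118 k100 0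
  3))))] .n) .n))) (.c k33 (.q k18 [(.s k4 k8 1 (.s k132 k196 7 (.s k76 k140 7 (.d k72 k64 k192 1
  9)))), (.s k92 k172 11 (.s k156 k28 7 (.s k108 k60 11 (.d k76 k124 k140 3 7)))), (.s k4 k8 1 (.s
  k84 k168 13 (.s k164 k244 11 (.s k88 k240 13 (.d k92 k80 k172 1 11)))))] (.c k87 (.q k171 [(.s k4
  k8 1 (.s k132 k196 7 (.s k76 k140 7 (.d k72 k64 k192 1 9)))), (.s k92 k172 11 (.s k156 k28 7 (.s
  k108 k60 11 (.d k76 k124 k140 3 7)))), (.s k4 k8 1 (.s k84 k168 13 (.s k164 k244 11 (.s k88 k240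
  13 (.d k92 k80 k172 1 11)))))] .n) (.c k171 (.q k87 [(.s k4 k8 1 (.s k132 k196 7 (.s k76 k140 7
  (.d k72 k64 k192 1 9)))), (.s k84 k168 13 (.s k85 k86 0 (.s k119 k102 4 (.d k116 k118 k100 0
  3))))] .n) .n))) (.c k87 (.q k171 [(.s k4 k8 1 (.s k132 k196 7 (.s k76 k140 7 (.d k72 k64 k192 1
  9)))), (.s k92 k172 11 (.s k156 k28 7 (.s k108 k60 11 (.d k76 k124 k140 3 7)))), (.s k4 k8 1 (.s
  k84 k168 13 (.s k164 k244 11 (.s k88 k240 13 (.d k92 k80 k172 1 11)))))] (.c k18 (.q k33 [(.s k4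
  k8 1 (.s k132 k196 7 (.s k76 k140 7 (.d k72 k64 k192 1 9)))), (.s k92 k172 11 (.s k156 k28 7 (.s
  k108 k60 11 (.d k76 k124 k140 3 7)))), (.s k4 k8 1 (.s k84 k168 13 (.s k164 k244 11 (.s k88 k240
  13 (.d k92 k80 k172 1 11)))))] .n) (.c k33 (.q k18 [(.s k4 k8 1 (.s k132 k196 7 (.s k76 k140 7 (.d
  k72 k64 k192 1 9)))), (.s k92 k172 11 (.s k156 k28 7 (.s k108 k60 11 (.d k76 k124 k140 3 7)))),
  (.s k4 k8 1 (.s k84 k168 13 (.s k164 k244 11 (.s k88 k240 13 (.d k92 k80 k172 1 11)))))] .n) .n)))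
  (.c k171 (.q k87 [(.s k4 k8 1 (.s k132 k196 7 (.s k76 k140 7 (.d k72 k64 k192 1 9)))), (.s k84
  k168 13 (.s k85 k86 0 (.s k119 k102 4 (.d k116 k118 k100 0 3))))] (.c k18 (.q k33 [(.s k4 k8 1 (.s
  k132 k196 7 (.s k76 k140 7 (.d k72 k64 k192 1 9)))), (.s k84 k168 13 (.s k85 k86 0 (.s k119 k102 4
  (.d k116 k118 k100 0 3))))] .n) (.c k33 (.q k18 [(.s k4 k8 1 (.s k132 k196 7 (.s k76 k140 7 (.d
  k72 k64 k192 1 9)))), (.s k84 k168 13 (.s k85 k86 0 (.s k119 k102 4 (.d k116 k118 k100 0 3))))]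
  .n) .n))) .n))))) .n))))))))) (.c k68 (.f k220 k236 3 (.q k12 [(.s k76 k140 7 (.s k92 k172 11 (.s
  k156 k28 7 (.d k108 k124 k60 3 11)))), (.s k4 k8 1 (.s k84 k168 13 (.s k164 k244 11 (.s k140 k76 7
  (.d k152 k176 k16 5 9))))), (.s k4 k8 1 (.s k84 k168 13 (.s k164 k244 11 (.s k88 k240 13 (.d k92
  k80 k172 1 11)))))] (.c k87 (.q k171 [(.s k76 k140 7 (.s k92 k172 11 (.s k156 k28 7 (.d k108 k124
  k60 3 11)))), (.s k4 k8 1 (.s k84 k168 13 (.s k164 k244 11 (.s k140 k76 7 (.d k152 k176 k16 5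
  9))))), (.s k4 k8 1 (.s k84 k168 13 (.s k164 k244 11 (.s k88 k240 13 (.d k92 k80 k172 1 11)))))]
  .n) (.c k171 (.q k87 [(.s k76 k140 7 (.s k92 k172 11 (.s k156 k28 7 (.d k108 k124 k60 3 11)))),
  (.s k4 k8 1 (.s k84 k168 13 (.s k164 k244 11 (.s k140 k76 7 (.d k152 k176 k16 5 9))))), (.s k4 k8
  1 (.s k84 k168 13 (.s k164 k244 11 (.s k88 k240 13 (.d k92 k80 k172 1 11)))))] .n) .n)))) (.c k84
  (.f k68 k136 9 (.f k220 k236 3 (.q k12 [(.s k4 k8 1 (.s k132 k196 7 (.s k76 k140 7 (.d k72 k64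
  k192 1 9)))), (.s k92 k172 11 (.s k156 k28 7 (.s k108 k60 11 (.d k76 k124 k140 3 7))))] (.c k76
  (.q k192 [(.s k4 k8 1 (.d k132 k72 k196 9 7)), (.s k92 k172 11 (.s k28 k156 7 (.s k212 k232 5 (.s
  k208 k216 1 (.s k88 k148 9 (.d k240 k224 k164 3 13))))))] (.c k87 (.q k171 [(.s k4 k8 1 (.d k132
  k72 k196 9 7)), (.s k92 k172 11 (.s k28 k156 7 (.s k212 k232 5 (.s k208 k216 1 (.s k88 k148 9 (.d
  k240 k224 k164 3 13))))))] (.c k85 (.q k86 [(.s k4 k8 1 (.d k132 k72 k196 9 7)), (.s k92 k172 11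
  (.s k153 k19 10 (.s k51 k102 14 (.s k25 k38 6 (.d k89 k83 k217 2 7)))))] .n) (.c k86 (.q k85 [(.s
  k4 k8 1 (.d k132 k72 k196 9 7)), (.s k64 k128 7 (.s k106 k127 6 (.s k63 k149 14 (.s k110 k157 12
  (.d k102 k98 k119 1 4)))))] (.c k132 (.l (.s k196 k200 1 (.s k212 k232 5 (.s k228 k244 3 (.d k216
  k208 k240 1 5))))) .n)) (.c k200 (.l (.s k212 k232 5 (.s k216 k208 1 (.s k228 k240 5 (.s k196 k244
  3 (.d k4 k8 k132 1 7)))))) .n)))) (.c k171 (.q k87 [(.s k4 k8 1 (.d k132 k72 k196 9 7)), (.s k92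
  k172 11 (.s k28 k156 7 (.s k212 k232 5 (.s k208 k216 1 (.s k88 k148 9 (.d k240 k224 k164 3
  13))))))] (.c k200 (.l (.s k212 k232 5 (.s k216 k208 1 (.s k228 k240 5 (.s k196 k244 3 (.d k4 k8
  k132 1 7)))))) .n)) (.c k200 (.l (.s k212 k232 5 (.s k216 k208 1 (.s k228 k240 5 (.s k196 k244 3
  (.d k4 k8 k132 1 7)))))) .n)))) (.c k87 (.q k171 [(.s k4 k8 1 (.s k132 k196 7 (.s k76 k140 7 (.d
  k72 k64 k192 1 9)))), (.s k92 k172 11 (.s k156 k28 7 (.s k108 k60 11 (.d k76 k124 k140 3 7))))]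
  (.c k76 (.f k4 k8 1 (.q k85 [(.s k166 k247 12 (.s k243 k89 14 (.s k230 k217 6 (.d k102 k119 k38 4
  7)))), (.s k196 k132 7 (.s k247 k166 12 (.s k102 k119 4 (.s k149 k55 12 (.d k213 k230 k21 4
  7))))), (.s k166 k247 12 (.s k172 k92 11 (.s k169 k163 2 (.s k170 k168 0 (.s k162 k174 1 (.d k243
  k81 k89 12 14)))))), (.s k196 k132 7 (.s k102 k119 4 (.s k51 k153 14 (.s k38 k25 6 (.d k55 k21
  k149 4 12)))))] (.c k72 (.q k200 [(.d k196 k192 k132 1 7), (.s k166 k247 12 (.s k243 k89 14 (.s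
  k102 k119 4 (.d k230 k217 k38 6 7))))] .n) (.c k200 (.q k72 [(.d k132 k196 k192 7 9), (.s k166
  k247 12 (.s k243 k89 14 (.s k102 k119 4 (.d k230 k217 k38 6 7))))] .n) .n)))) (.c k85 (.q k86 [(.s
  k4 k8 1 (.s k132 k196 7 (.s k76 k140 7 (.d k72 k64 k192 1 9)))), (.s k92 k172 11 (.s k153 k19 10
  (.s k51 k102 14 (.s k25 k38 6 (.d k89 k83 k217 2 7)))))] .n) (.c k86 (.q k85 [(.s k4 k8 1 (.s k132
  k196 7 (.s k76 k140 7 (.d k72 k64 k192 1 9)))), (.s k92 k172 11 (.s k156 k28 7 (.s k108 k60 11 (.d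
  k76 k124 k140 3 7)))), (.s k4 k8 1 (.s k166 k247 12 (.s k243 k89 14 (.s k102 k119 4 (.d k230 k217
  k38 6 7)))))] .n) (.c k140 (.l (.s k4 k8 1 (.s k132 k196 7 (.s k72 k192 9 (.s k92 k172 11 (.s k156
  k28 7 (.s k108 k60 11 (.d k76 k64 k124 1 3)))))))) .n))))) (.c k140 (.l (.s k4 k8 1 (.s k132 k196
  7 (.s k72 k192 9 (.s k92 k172 11 (.s k156 k28 7 (.s k108 k60 11 (.d k76 k64 k124 1 3)))))))) (.c
  k171 (.q k87 [(.s k4 k8 1 (.s k132 k196 7 (.s k76 k140 7 (.d k72 k64 k192 1 9)))), (.s k92 k172 11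
  (.s k156 k28 7 (.s k108 k60 11 (.d k76 k124 k140 3 7))))] (.c k76 (.q k192 [(.s k4 k8 1 (.d k132
  k72 k196 9 7)), (.s k92 k172 11 (.s k28 k156 7 (.s k212 k232 5 (.s k208 k216 1 (.s k88 k148 9 (.d
  k240 k224 k164 3 13))))))] (.c k200 (.l (.s k212 k232 5 (.s k216 k208 1 (.s k228 k240 5 (.s k196
  k244 3 (.d k4 k8 k132 1 7)))))) .n)) (.c k140 (.l (.s k4 k8 1 (.s k132 k196 7 (.s k72 k192 9 (.s
  k92 k172 11 (.s k156 k28 7 (.s k108 k60 11 (.d k76 k64 k124 1 3)))))))) .n))) .n))))))) (.c k87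
  (.q k171 [(.s k68 k136 9 (.s k84 k168 13 (.s k100 k116 3 (.s k220 k236 3 (.d k152 k16 k48 9
  13)))))] (.c k16 (.l (.s k136 k68 9 (.s k168 k84 13 (.s k152 k184 3 (.s k100 k48 13 (.d k236 k220
  k32 3 9)))))) (.c k48 (.f k168 k84 13 (.f k170 k169 0 (.f k236 k220 3 (.f k32 k100 9 (.l (.s k239
  k101 10 (.s k103 k35 9 (.s k237 k238 0 (.s k207 k222 4 (.s k51 k155 13 (.s k153 k102 14 (.d k136
  k187 k68 4 9)))))))))))) (.c k68 (.q k12 [(.s k4 k8 1 (.s k84 k168 13 (.s k164 k244 11 (.s k92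
  k172 11 (.d k88 k80 k240 1 13))))), (.s k76 k140 7 (.s k92 k172 11 (.s k108 k124 3 (.s k156 k60 11
  (.d k220 k236 k28 3 7))))), (.s k4 k8 1 (.s k84 k168 13 (.s k164 k244 11 (.s k140 k76 7 (.s k152
  k176 5 (.d k220 k236 k16 3 9))))))] .n) (.c k84 (.f k68 k136 9 (.f k220 k236 3 (.q k12 [(.s k4 k8
  1 (.s k132 k196 7 (.s k76 k140 7 (.d k72 k64 k192 1 9)))), (.s k92 k172 11 (.s k156 k28 7 (.s k108
  k60 11 (.d k76 k124 k140 3 7))))] (.c k76 (.f k4 k8 1 (.q k85 [(.s k166 k247 12 (.s k243 k89 14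
  (.s k230 k217 6 (.d k102 k119 k38 4 7)))), (.s k196 k132 7 (.s k247 k166 12 (.s k102 k119 4 (.s
  k149 k55 12 (.d k213 k230 k21 4 7))))), (.s k166 k247 12 (.s k172 k92 11 (.s k169 k163 2 (.s k170
  k168 0 (.s k162 k174 1 (.d k243 k81 k89 12 14)))))), (.s k196 k132 7 (.s k102 k119 4 (.s k51 k153
  14 (.s k38 k25 6 (.d k55 k21 k149 4 12)))))] (.c k72 (.q k200 [(.d k196 k192 k132 1 7), (.s k166
  k247 12 (.s k243 k89 14 (.s k102 k119 4 (.d k230 k217 k38 6 7))))] .n) (.c k200 (.q k72 [(.d k132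
  k196 k192 7 9), (.s k166 k247 12 (.s k243 k89 14 (.s k102 k119 4 (.d k230 k217 k38 6 7))))] .n)
  .n)))) (.c k85 (.q k86 [(.s k4 k8 1 (.s k132 k196 7 (.s k76 k140 7 (.d k72 k64 k192 1 9)))), (.s
  k92 k172 11 (.s k153 k19 10 (.s k51 k102 14 (.s k25 k38 6 (.d k89 k83 k217 2 7)))))] .n) (.c k86
  (.q k85 [(.s k4 k8 1 (.s k132 k196 7 (.s k76 k140 7 (.d k72 k64 k192 1 9)))), (.s k92 k172 11 (.s
  k156 k28 7 (.s k108 k60 11 (.d k76 k124 k140 3 7)))), (.s k4 k8 1 (.s k166 k247 12 (.s k243 k89 14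
  (.s k102 k119 4 (.d k230 k217 k38 6 7)))))] .n) (.c k140 (.l (.s k4 k8 1 (.s k132 k196 7 (.s k72
  k192 9 (.s k92 k172 11 (.s k156 k28 7 (.s k108 k60 11 (.d k76 k64 k124 1 3)))))))) .n))))))) (.c
  k100 (.q k12 [(.s k4 k8 1 (.s k68 k136 9 (.s k76 k140 7 (.s k72 k64 1 (.d k132 k196 k192 7 9))))),
  (.s k76 k140 7 (.s k92 k172 11 (.s k108 k124 3 (.s k156 k60 11 (.d k220 k236 k28 3 7))))), (.s k4
  k8 1 (.s k84 k168 13 (.s k164 k244 11 (.s k88 k240 13 (.d k92 k80 k172 1 11)))))] .n) (.c k116 (.l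
  (.s k136 k68 9 (.s k236 k220 3 (.s k168 k84 13 (.s k100 k32 9 (.d k152 k184 k48 3 13)))))) (.c
  k136 (.q k12 [(.s k8 k4 1 (.s k172 k92 11 (.s k168 k84 13 (.s k164 k160 1 (.d k88 k248 k240 11
  13))))), (.s k76 k140 7 (.s k92 k172 11 (.s k108 k124 3 (.s k156 k60 11 (.d k220 k236 k28 3
  7))))), (.s k4 k8 1 (.s k84 k168 13 (.s k164 k244 11 (.s k140 k76 7 (.s k152 k176 5 (.d k220 k236
  k16 3 9))))))] .n) (.c k152 (.q k12 [(.s k4 k8 1 (.s k68 k136 9 (.s k132 k196 7 (.s k76 k140 7 (.d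
  k72 k64 k192 1 9))))), (.s k76 k140 7 (.s k92 k172 11 (.s k108 k124 3 (.s k156 k60 11 (.d k220
  k236 k28 3 7))))), (.s k4 k8 1 (.s k84 k168 13 (.s k164 k244 11 (.s k88 k240 13 (.d k92 k80 k172 1
  11)))))] (.c k164 (.l (.s k4 k8 1 (.s k68 k136 9 (.s k132 k196 7 (.s k72 k192 9 (.d k76 k64 k140 1
  7)))))) .n)) (.c k168 (.q k12 [(.s k8 k4 1 (.s k140 k76 7 (.s k136 k68 9 (.s k132 k128 1 (.d k72
  k200 k192 7 9))))), (.s k76 k140 7 (.s k92 k172 11 (.s k108 k124 3 (.s k156 k60 11 (.d k220 k236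
  k28 3 7)))))] (.c k76 (.q k192 [(.s k8 k4 1 (.s k136 k68 9 (.d k72 k132 k200 9 7))), (.s k196 k200
  1 (.s k212 k232 5 (.s k228 k244 3 (.s k216 k240 5 (.d k220 k208 k236 1 3)))))] (.c k196 (.l (.s k8
  k4 1 (.s k232 k212 5 (.s k236 k220 3 (.s k228 k224 1 (.s k216 k240 5 (.s k200 k248 3 (.d k136 k68
  k72 9 7)))))))) (.c k200 (.l (.s k4 k8 1 (.s k212 k232 5 (.s k220 k236 3 (.s k216 k208 1 (.s k228
  k240 5 (.s k196 k244 3 (.d k68 k136 k132 9 7)))))))) .n))) (.c k140 (.q k192 [(.s k8 k4 1 (.s k136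
  k68 9 (.d k72 k132 k200 9 7))), (.s k196 k200 1 (.s k212 k232 5 (.s k228 k244 3 (.s k216 k240 5
  (.d k220 k208 k236 1 3)))))] (.c k196 (.l (.s k8 k4 1 (.s k232 k212 5 (.s k236 k220 3 (.s k228
  k224 1 (.s k216 k240 5 (.s k200 k248 3 (.d k136 k68 k72 9 7)))))))) (.c k200 (.l (.s k4 k8 1 (.s
  k212 k232 5 (.s k220 k236 3 (.s k216 k208 1 (.s k228 k240 5 (.s k196 k244 3 (.d k68 k136 k132 9
  7)))))))) .n))) (.c k188 (.l (.s k4 k8 1 (.s k68 k136 9 (.s k132 k196 7 (.s k72 k192 9 (.d k76 k64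
  k140 1 7)))))) .n)))) (.c k184 (.l (.s k68 k136 9 (.s k220 k236 3 (.s k84 k168 13 (.s k152 k16 9
  (.d k100 k116 k48 3 13)))))) (.c k220 (.q k12 [(.s k4 k8 1 (.s k68 k136 9 (.s k132 k196 7 (.s k76
  k140 7 (.d k72 k64 k192 1 9))))), (.s k4 k8 1 (.s k84 k168 13 (.s k164 k244 11 (.s k88 k240 13 (.d
  k92 k80 k172 1 11))))), (.s k68 k136 9 (.s k84 k168 13 (.s k76 k140 7 (.s k92 k172 11 (.s k100
  k116 3 (.d k88 k80 k112 1 5))))))] .n) (.c k236 (.q k12 [(.s k4 k8 1 (.s k68 k136 9 (.s k132 k196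
  7 (.s k76 k140 7 (.d k72 k64 k192 1 9))))), (.s k4 k8 1 (.s k84 k168 13 (.s k164 k244 11 (.s k88
  k240 13 (.d k92 k80 k172 1 11))))), (.s k68 k136 9 (.s k84 k168 13 (.s k76 k140 7 (.s k92 k172 11
  (.s k100 k116 3 (.d k88 k80 k112 1 5))))))] .n) .n))))))))))))) (.c k100 (.f k68 k136 9 (.q k12
  [(.s k4 k8 1 (.s k76 k140 7 (.s k72 k64 1 (.d k132 k196 k192 7 9)))), (.s k8 k4 1 (.s k168 k84 13
  (.s k88 k248 11 (.s k164 k240 13 (.d k172 k160 k92 1 11))))), (.s k84 k168 13 (.s k76 k140 7 (.s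
  k92 k172 11 (.s k124 k108 3 (.d k64 k104 k72 5 1)))))] (.c k87 (.q k171 [(.s k4 k8 1 (.s k76 k140
  7 (.s k72 k64 1 (.d k132 k196 k192 7 9)))), (.s k8 k4 1 (.s k168 k84 13 (.s k88 k248 11 (.s k164
  k240 13 (.d k172 k160 k92 1 11))))), (.s k84 k168 13 (.s k76 k140 7 (.s k92 k172 11 (.s k124 k108
  3 (.d k64 k104 k72 5 1)))))] .n) (.c k171 (.q k87 [(.s k4 k8 1 (.s k76 k140 7 (.s k72 k64 1 (.d
  k132 k196 k192 7 9)))), (.s k8 k4 1 (.s k168 k84 13 (.s k88 k248 11 (.s k164 k240 13 (.d k172 k160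
  k92 1 11))))), (.s k84 k168 13 (.s k76 k140 7 (.s k92 k172 11 (.s k124 k108 3 (.d k64 k104 k72 5
  1)))))] .n) .n)))) (.c k116 (.l (.s k136 k68 9 (.s k236 k220 3 (.s k168 k84 13 (.s k100 k32 9 (.d
  k152 k184 k48 3 13)))))) (.c k136 (.f k220 k236 3 (.q k12 [(.s k76 k140 7 (.s k92 k172 11 (.s k156
  k28 7 (.d k108 k124 k60 3 11)))), (.s k4 k8 1 (.s k84 k168 13 (.s k164 k244 11 (.s k140 k76 7 (.d
  k152 k176 k16 5 9))))), (.s k4 k8 1 (.s k84 k168 13 (.s k164 k244 11 (.s k88 k240 13 (.d k92 k80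
  k172 1 11)))))] (.c k87 (.q k171 [(.s k76 k140 7 (.s k92 k172 11 (.s k156 k28 7 (.d k108 k124 k60
  3 11)))), (.s k4 k8 1 (.s k84 k168 13 (.s k164 k244 11 (.s k140 k76 7 (.d k152 k176 k16 5 9))))),
  (.s k4 k8 1 (.s k84 k168 13 (.s k164 k244 11 (.s k88 k240 13 (.d k92 k80 k172 1 11)))))] .n) (.c
  k171 (.q k87 [(.s k76 k140 7 (.s k92 k172 11 (.s k156 k28 7 (.d k108 k124 k60 3 11)))), (.s k4 k8
  1 (.s k84 k168 13 (.s k164 k244 11 (.s k140 k76 7 (.d k152 k176 k16 5 9))))), (.s k4 k8 1 (.s k84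
  k168 13 (.s k164 k244 11 (.s k88 k240 13 (.d k92 k80 k172 1 11)))))] .n) .n)))) (.c k152 (.f k220
  k236 3 (.q k12 [(.s k76 k140 7 (.s k92 k172 11 (.s k156 k28 7 (.d k108 k124 k60 3 11)))), (.s k4
  k8 1 (.s k68 k136 9 (.s k132 k196 7 (.s k72 k192 9 (.d k76 k64 k140 1 7))))), (.s k4 k8 1 (.s k84
  k168 13 (.s k164 k244 11 (.s k88 k240 13 (.d k92 k80 k172 1 11)))))] (.c k87 (.q k171 [(.s k76
  k140 7 (.s k92 k172 11 (.s k156 k28 7 (.d k108 k124 k60 3 11)))), (.s k4 k8 1 (.s k68 k136 9 (.s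
  k132 k196 7 (.s k72 k192 9 (.d k76 k64 k140 1 7))))), (.s k4 k8 1 (.s k84 k168 13 (.s k164 k244 11
  (.s k88 k240 13 (.d k92 k80 k172 1 11)))))] .n) (.c k171 (.q k87 [(.s k76 k140 7 (.s k92 k172 11
  (.s k156 k28 7 (.d k108 k124 k60 3 11)))), (.s k4 k8 1 (.s k68 k136 9 (.s k132 k196 7 (.s k72 k192
  9 (.d k76 k64 k140 1 7))))), (.s k4 k8 1 (.s k84 k168 13 (.s k164 k244 11 (.s k88 k240 13 (.d k92
  k80 k172 1 11)))))] .n) .n)))) (.c k168 (.f k136 k68 9 (.f k236 k220 3 (.q k192 [(.s k128 k64 7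
  (.s k132 k140 1 (.s k200 k196 1 (.d k72 k8 k12 7 9)))), (.s k232 k212 5 (.s k228 k224 1 (.s k216
  k240 5 (.d k200 k196 k248 1 3))))] (.c k87 (.q k171 [(.s k128 k64 7 (.s k132 k140 1 (.s k200 k196
  1 (.d k72 k8 k12 7 9)))), (.s k232 k212 5 (.s k228 k224 1 (.s k216 k240 5 (.d k200 k196 k248 1
  3))))] (.c k196 (.l (.s k128 k64 7 (.s k132 k140 1 (.s k72 k12 9 (.s k200 k8 7 (.s k232 k212 5 (.s
  k228 k224 1 (.d k216 k248 k240 3 5)))))))) (.c k200 (.q k12 [(.s k128 k64 7 (.d k132 k72 k140 9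
  1)), (.s k172 k92 11 (.s k44 k108 7 (.s k232 k212 5 (.s k224 k228 1 (.s k104 k164 9 (.d k60 k28
  k148 3 13))))))] (.c k76 (.l (.s k172 k92 11 (.s k108 k44 7 (.s k156 k60 11 (.s k140 k188 3 (.d
  k128 k132 k64 1 7)))))) .n)) .n))) (.c k171 (.q k87 [(.s k128 k64 7 (.s k132 k140 1 (.s k200 k196
  1 (.d k72 k8 k12 7 9)))), (.s k232 k212 5 (.s k228 k224 1 (.s k216 k240 5 (.d k200 k196 k248 1
  3))))] (.c k169 (.q k170 [(.s k128 k64 7 (.s k132 k140 1 (.s k200 k196 1 (.d k72 k8 k12 7 9)))),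
  (.s k232 k212 5 (.s k228 k224 1 (.s k216 k240 5 (.d k200 k196 k248 1 3)))), (.s k128 k64 7 (.s
  k149 k191 6 (.s k63 k106 14 (.s k157 k110 12 (.d k153 k145 k187 1 4)))))] .n) (.c k170 (.q k169
  [(.s k128 k64 7 (.s k132 k140 1 (.s k200 k196 1 (.d k72 k8 k12 7 9)))), (.s k102 k35 10 (.s k51
  k153 14 (.s k98 k145 12 (.s k106 k110 1 (.d k232 k212 k43 5 8)))))] .n) (.c k196 (.l (.s k128 k64
  7 (.s k132 k140 1 (.s k72 k12 9 (.s k200 k8 7 (.s k232 k212 5 (.s k228 k224 1 (.d k216 k248 k240 3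
  5)))))))) (.c k200 (.q k12 [(.s k128 k64 7 (.d k132 k72 k140 9 1)), (.s k172 k92 11 (.s k44 k108 7
  (.s k232 k212 5 (.s k224 k228 1 (.s k104 k164 9 (.d k60 k28 k148 3 13))))))] (.c k76 (.l (.s k172
  k92 11 (.s k108 k44 7 (.s k156 k60 11 (.s k140 k188 3 (.d k128 k132 k64 1 7)))))) (.c k169 (.q
  k170 [(.s k128 k64 7 (.d k132 k72 k140 9 1)), (.s k8 k4 1 (.s k89 k251 12 (.s k243 k166 14 (.s
  k153 k187 4 (.d k217 k230 k25 6 7)))))] (.c k132 (.l (.s k140 k76 7 (.s k172 k92 11 (.s k108 k44 7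
  (.d k156 k188 k60 3 11))))) .n)) (.c k170 (.q k169 [(.s k128 k64 7 (.d k132 k72 k140 9 1)), (.s
  k172 k92 11 (.s k102 k35 10 (.s k51 k153 14 (.s k38 k25 6 (.d k166 k163 k230 2 7)))))] .n) .n))))
  .n))))) (.c k196 (.l (.s k128 k64 7 (.s k132 k140 1 (.s k72 k12 9 (.s k200 k8 7 (.s k232 k212 5
  (.s k228 k224 1 (.d k216 k248 k240 3 5)))))))) (.c k200 (.q k12 [(.s k128 k64 7 (.d k132 k72 k140
  9 1)), (.s k172 k92 11 (.s k44 k108 7 (.s k232 k212 5 (.s k224 k228 1 (.s k104 k164 9 (.d k60 k28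
  k148 3 13))))))] (.c k76 (.l (.s k172 k92 11 (.s k108 k44 7 (.s k156 k60 11 (.s k140 k188 3 (.d
  k128 k132 k64 1 7)))))) (.c k87 (.q k171 [(.s k128 k64 7 (.d k132 k72 k140 9 1)), (.s k172 k92 11
  (.s k44 k108 7 (.s k232 k212 5 (.s k224 k228 1 (.s k104 k164 9 (.d k60 k28 k148 3 13))))))] (.c
  k76 (.l (.s k172 k92 11 (.s k108 k44 7 (.s k156 k60 11 (.s k140 k188 3 (.d k128 k132 k64 1 7))))))
  .n)) (.c k171 (.q k87 [(.s k128 k64 7 (.d k132 k72 k140 9 1)), (.s k172 k92 11 (.s k44 k108 7 (.s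
  k232 k212 5 (.s k224 k228 1 (.s k104 k164 9 (.d k60 k28 k148 3 13))))))] (.c k76 (.l (.s k172 k92
  11 (.s k108 k44 7 (.s k156 k60 11 (.s k140 k188 3 (.d k128 k132 k64 1 7)))))) (.c k169 (.q k170
  [(.s k128 k64 7 (.d k132 k72 k140 9 1)), (.s k8 k4 1 (.s k89 k251 12 (.s k243 k166 14 (.s k153
  k187 4 (.d k217 k230 k25 6 7)))))] (.c k132 (.l (.s k140 k76 7 (.s k172 k92 11 (.s k108 k44 7 (.d
  k156 k188 k60 3 11))))) .n)) (.c k170 (.q k169 [(.s k128 k64 7 (.d k132 k72 k140 9 1)), (.s k172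
  k92 11 (.s k102 k35 10 (.s k51 k153 14 (.s k38 k25 6 (.d k166 k163 k230 2 7)))))] .n) .n))))
  .n)))) .n))))))) (.c k171 (.q k87 [(.s k136 k68 9 (.s k236 k220 3 (.s k168 k84 13 (.s k100 k32 9
  (.d k152 k184 k48 3 13)))))] (.c k16 (.l (.s k136 k68 9 (.s k168 k84 13 (.s k152 k184 3 (.s k100
  k48 13 (.d k236 k220 k32 3 9)))))) (.c k32 (.l (.s k68 k136 9 (.s k84 k168 13 (.s k100 k116 3 (.s
  k152 k48 13 (.d k220 k236 k16 3 9)))))) (.c k48 (.f k84 k168 13 (.f k220 k236 3 (.f k85 k86 0 (.f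
  k16 k152 9 (.l (.s k223 k154 10 (.s k155 k19 9 (.s k222 k221 0 (.s k207 k237 4 (.s k51 k103 13 (.s
  k102 k153 14 (.d k68 k119 k136 4 9)))))))))))) (.c k68 (.q k12 [(.s k4 k8 1 (.s k84 k168 13 (.s
  k164 k244 11 (.s k92 k172 11 (.d k88 k80 k240 1 13))))), (.s k76 k140 7 (.s k92 k172 11 (.s k108
  k124 3 (.s k156 k60 11 (.d k220 k236 k28 3 7))))), (.s k4 k8 1 (.s k84 k168 13 (.s k164 k244 11
  (.s k140 k76 7 (.s k152 k176 5 (.d k220 k236 k16 3 9))))))] .n) (.c k84 (.f k68 k136 9 (.f k220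
  k236 3 (.q k12 [(.s k4 k8 1 (.s k132 k196 7 (.s k76 k140 7 (.d k72 k64 k192 1 9)))), (.s k92 k172
  11 (.s k156 k28 7 (.s k108 k60 11 (.d k76 k124 k140 3 7))))] (.c k76 (.q k192 [(.s k4 k8 1 (.d
  k132 k72 k196 9 7)), (.s k92 k172 11 (.s k28 k156 7 (.s k212 k232 5 (.s k208 k216 1 (.s k88 k148 9
  (.d k240 k224 k164 3 13))))))] (.c k200 (.l (.s k212 k232 5 (.s k216 k208 1 (.s k228 k240 5 (.s
  k196 k244 3 (.d k4 k8 k132 1 7)))))) .n)) (.c k140 (.l (.s k4 k8 1 (.s k132 k196 7 (.s k72 k192 9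
  (.s k92 k172 11 (.s k156 k28 7 (.s k108 k60 11 (.d k76 k64 k124 1 3)))))))) .n))))) (.c k100 (.q
  k12 [(.s k4 k8 1 (.s k68 k136 9 (.s k76 k140 7 (.s k72 k64 1 (.d k132 k196 k192 7 9))))), (.s k76
  k140 7 (.s k92 k172 11 (.s k108 k124 3 (.s k156 k60 11 (.d k220 k236 k28 3 7))))), (.s k4 k8 1 (.s
  k84 k168 13 (.s k164 k244 11 (.s k88 k240 13 (.d k92 k80 k172 1 11)))))] .n) (.c k116 (.l (.s k136
  k68 9 (.s k236 k220 3 (.s k168 k84 13 (.s k100 k32 9 (.d k152 k184 k48 3 13)))))) (.c k136 (.q k12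
  [(.s k8 k4 1 (.s k172 k92 11 (.s k168 k84 13 (.s k164 k160 1 (.d k88 k248 k240 11 13))))), (.s k76
  k140 7 (.s k92 k172 11 (.s k108 k124 3 (.s k156 k60 11 (.d k220 k236 k28 3 7))))), (.s k4 k8 1 (.s
  k84 k168 13 (.s k164 k244 11 (.s k140 k76 7 (.s k152 k176 5 (.d k220 k236 k16 3 9))))))] .n) (.c
  k152 (.q k12 [(.s k4 k8 1 (.s k68 k136 9 (.s k132 k196 7 (.s k76 k140 7 (.d k72 k64 k192 1 9))))),
  (.s k76 k140 7 (.s k92 k172 11 (.s k108 k124 3 (.s k156 k60 11 (.d k220 k236 k28 3 7))))), (.s k4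
  k8 1 (.s k84 k168 13 (.s k164 k244 11 (.s k88 k240 13 (.d k92 k80 k172 1 11)))))] (.c k164 (.l (.s
  k4 k8 1 (.s k68 k136 9 (.s k132 k196 7 (.s k72 k192 9 (.d k76 k64 k140 1 7)))))) .n)) (.c k168 (.q
  k12 [(.s k8 k4 1 (.s k140 k76 7 (.s k136 k68 9 (.s k132 k128 1 (.d k72 k200 k192 7 9))))), (.s k76
  k140 7 (.s k92 k172 11 (.s k108 k124 3 (.s k156 k60 11 (.d k220 k236 k28 3 7)))))] (.c k76 (.q
  k170 [(.s k8 k4 1 (.s k89 k251 12 (.s k243 k166 14 (.s k217 k230 6 (.s k153 k25 7 (.d k136 k187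
  k68 4 9)))))), (.s k136 k68 9 (.s k153 k187 4 (.s k220 k236 3 (.s k86 k19 10 (.s k85 k84 0 (.s k17
  k221 9 (.d k51 k34 k102 4 14))))))), (.s k8 k4 1 (.s k89 k251 12 (.s k243 k166 14 (.s k81 k162 12
  (.s k92 k172 11 (.s k85 k93 1 (.d k86 k84 k83 0 2)))))))] (.c k85 (.l (.s k8 k4 1 (.s k136 k68 9
  (.s k89 k251 12 (.s k153 k187 4 (.s k25 k217 7 (.d k51 k102 k38 14 6))))))) .n)) (.c k140 (.q k170
  [(.s k136 k68 9 (.s k153 k187 4 (.s k51 k102 14 (.s k17 k34 4 (.s k85 k221 9 (.s k86 k84 0 (.d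
  k220 k236 k19 3 10))))))), (.s k8 k4 1 (.s k89 k251 12 (.s k92 k172 11 (.s k86 k83 2 (.s k85 k84 0
  (.s k81 k93 1 (.d k243 k162 k166 12 14))))))), (.s k8 k4 1 (.s k136 k68 9 (.s k200 k72 7 (.s k251
  k89 12 (.s k153 k187 4 (.s k106 k59 12 (.d k234 k217 k42 4 7)))))))] .n) (.c k169 (.q k170 [(.s k8
  k4 1 (.s k140 k76 7 (.s k136 k68 9 (.s k132 k128 1 (.d k72 k200 k192 7 9))))), (.s k76 k140 7 (.s
  k92 k172 11 (.s k108 k124 3 (.s k156 k60 11 (.d k220 k236 k28 3 7))))), (.s k8 k4 1 (.s k136 k68 9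
  (.s k89 k251 12 (.s k243 k166 14 (.s k153 k187 4 (.d k217 k230 k25 6 7))))))] .n) (.c k170 (.q
  k169 [(.s k8 k4 1 (.s k136 k68 9 (.s k72 k200 7 (.s k132 k192 9 (.d k140 k128 k76 1 7))))), (.s
  k172 k92 11 (.s k166 k163 2 (.s k243 k89 14 (.s k230 k217 6 (.s k102 k38 7 (.d k236 k220 k35 3
  10))))))] (.c k8 (.l (.s k76 k140 7 (.s k92 k172 11 (.s k108 k124 3 (.s k156 k60 11 (.d k220 k236
  k28 3 7)))))) .n)) (.c k188 (.l (.s k4 k8 1 (.s k68 k136 9 (.s k132 k196 7 (.s k72 k192 9 (.d k76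
  k64 k140 1 7)))))) .n)))))) (.c k184 (.l (.s k68 k136 9 (.s k220 k236 3 (.s k84 k168 13 (.s k152
  k16 9 (.d k100 k116 k48 3 13)))))) (.c k220 (.q k12 [(.s k4 k8 1 (.s k68 k136 9 (.s k132 k196 7
  (.s k76 k140 7 (.d k72 k64 k192 1 9))))), (.s k4 k8 1 (.s k84 k168 13 (.s k164 k244 11 (.s k88
  k240 13 (.d k92 k80 k172 1 11))))), (.s k68 k136 9 (.s k84 k168 13 (.s k76 k140 7 (.s k92 k172 11
  (.s k100 k116 3 (.d k88 k80 k112 1 5))))))] .n) (.c k236 (.q k12 [(.s k4 k8 1 (.s k68 k136 9 (.s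
  k132 k196 7 (.s k76 k140 7 (.d k72 k64 k192 1 9))))), (.s k4 k8 1 (.s k84 k168 13 (.s k164 k244 11
  (.s k88 k240 13 (.d k92 k80 k172 1 11))))), (.s k68 k136 9 (.s k84 k168 13 (.s k76 k140 7 (.s k92
  k172 11 (.s k100 k116 3 (.d k88 k80 k112 1 5))))))] .n) .n)))))))))))))) (.c k184 (.l (.s k68 k136
  9 (.s k220 k236 3 (.s k84 k168 13 (.s k152 k16 9 (.d k100 k116 k48 3 13)))))) (.c k220 (.f k68
  k136 9 (.q k12 [(.s k4 k8 1 (.s k132 k196 7 (.s k76 k140 7 (.d k72 k64 k192 1 9)))), (.s k8 k4 1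
  (.s k168 k84 13 (.s k88 k248 11 (.s k164 k240 13 (.d k172 k160 k92 1 11))))), (.s k84 k168 13 (.s
  k76 k140 7 (.s k92 k172 11 (.s k100 k116 3 (.d k88 k80 k112 1 5)))))] (.c k87 (.q k171 [(.s k4 k8
  1 (.s k132 k196 7 (.s k76 k140 7 (.d k72 k64 k192 1 9)))), (.s k8 k4 1 (.s k168 k84 13 (.s k88
  k248 11 (.s k164 k240 13 (.d k172 k160 k92 1 11))))), (.s k84 k168 13 (.s k76 k140 7 (.s k92 k172
  11 (.s k100 k116 3 (.d k88 k80 k112 1 5)))))] .n) (.c k171 (.q k87 [(.s k4 k8 1 (.s k132 k196 7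
  (.s k76 k140 7 (.d k72 k64 k192 1 9)))), (.s k8 k4 1 (.s k168 k84 13 (.s k88 k248 11 (.s k164 k240
  13 (.d k172 k160 k92 1 11))))), (.s k84 k168 13 (.s k76 k140 7 (.s k92 k172 11 (.s k100 k116 3 (.d
  k88 k80 k112 1 5)))))] .n) .n)))) (.c k236 (.f k68 k136 9 (.q k12 [(.s k4 k8 1 (.s k132 k196 7 (.s
  k76 k140 7 (.d k72 k64 k192 1 9)))), (.s k8 k4 1 (.s k168 k84 13 (.s k88 k248 11 (.s k164 k240 13
  (.d k172 k160 k92 1 11))))), (.s k84 k168 13 (.s k76 k140 7 (.s k92 k172 11 (.s k100 k116 3 (.d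
  k88 k80 k112 1 5)))))] (.c k87 (.q k171 [(.s k4 k8 1 (.s k132 k196 7 (.s k76 k140 7 (.d k72 k64
  k192 1 9)))), (.s k8 k4 1 (.s k168 k84 13 (.s k88 k248 11 (.s k164 k240 13 (.d k172 k160 k92 1
  11))))), (.s k84 k168 13 (.s k76 k140 7 (.s k92 k172 11 (.s k100 k116 3 (.d k88 k80 k112 1 5)))))]
  .n) (.c k171 (.q k87 [(.s k4 k8 1 (.s k132 k196 7 (.s k76 k140 7 (.d k72 k64 k192 1 9)))), (.s k8
  k4 1 (.s k168 k84 13 (.s k88 k248 11 (.s k164 k240 13 (.d k172 k160 k92 1 11))))), (.s k84 k168 13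
  (.s k76 k140 7 (.s k92 k172 11 (.s k100 k116 3 (.d k88 k80 k112 1 5)))))] .n) .n))))
  .n)))))))))))))))

theorem c90 : rootOK2 k252 k3 k90 t90 = true := by decide +kernel

theorem c91 : rootOK2 k252 k3 k91 t91 = true := by decide +kernel

theorem c92 : rootOK2 k252 k3 k92 t92 = true := by decide +kernel

theorem c93 : rootOK2 k252 k3 k93 t93 = true := by decide +kernel

theorem c94 : rootOK2 k252 k3 k94 t94 = true := by decide +kernel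

theorem c95 : rootOK2 k252 k3 k95 t95 = true := by decide +kernel

theorem c108 : rootOK2 k252 k3 k108 t108 = true := by decide +kernel

theorem c109 : rootOK2 k252 k3 k109 t109 = true := by decide +kernel

theorem c111 : rootOK2 k252 k3 k111 t111 = true := by decide +kernel

theorem c124 : rootOK2 k252 k3 k124 t124 = true := by decide +kernel

theorem c125 : rootOK2 k252 k3 k125 t125 = true := by decide +kernel

theorem c126 : rootOK2 k252 k3 k126 t126 = true := by decide +kernel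

theorem c127 : rootOK2 k252 k3 k127 t127 = true := by decide +kernel

theorem c253 : rootOK2 k252 k3 k253 t253 = true := by decide +kernel

theorem c255 : rootOK2 k252 k3 k255 t255 = true := by decide +kernel

def l : List Nat :=
  [k90.c, k91.c, k92.c, k93.c, k94.c, k95.c, k108.c, k109.c, k111.c, k124.c, k125.c, k126.c, k127.c,
  k253.c, k255.c]

theorem ok : AllQ k252.c k3.c l :=
  allQ_cons c90 (allQ_cons c91 (allQ_cons c92 (allQ_cons c93 (allQ_cons c94 (allQ_cons c95 (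
  allQ_cons c108 (allQ_cons c109 (allQ_cons c111 (allQ_cons c124 (allQ_cons c125 (
  allQ_cons c126 (allQ_cons c127 (allQ_cons c253 (allQ_cons c255 (allQ_nil _ _)))))))))))))))

end Pool.Agent.TTT.C04
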