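import Pool.Agent.TTT.Sym2

set_option autoImplicit false
set_option maxRecDepth 100000

namespace Pool.Agent.TTT.D01

def t1 : T TT 256 :=
  (.f k85 k170 14 (.q k63 [(.s k21 k42 6 (.s k149 k213 7 (.s k127 k191 7 (.d k106 k64 k192 6 14))))]
  (.c k21 (.q k61 [(.s k60 k62 0 (.s k20 k40 5 (.s k150 k215 8 (.s k105 k195 14 (.d k125 k65 k190 5
  8))))), (.s k60 k62 0 (.s k125 k190 8 (.s k189 k253 7 (.s k126 k252 8 (.d k127 k124 k191 0 7))))),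
  (.s k127 k191 7 (.s k106 k64 6 (.s k149 k192 14 (.s k105 k193 13 (.s k65 k125 5 (.s k195 k130 8
  (.d k107 k104 k151 0 13))))))), (.s k60 k62 0 (.s k20 k40 5 (.s k150 k215 8 (.s k105 k195 14 (.s
  k149 k193 13 (.s k192 k106 14 (.d k148 k151 k104 0 13)))))))] (.c k150 (.l (.s k60 k62 0 (.s k127
  k191 7 (.s k106 k64 6 (.s k149 k192 14 (.s k105 k193 13 (.d k125 k65 k190 5 8))))))) .n)) (.c k42
  (.q k123 [(.s k183 k243 9 (.s k191 k127 7 (.s k187 k179 1 (.s k51 k119 9 (.d k59 k55 k251 1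
  7))))), (.s k243 k183 9 (.s k81 k162 12 (.s k89 k93 1 (.s k166 k12 14 (.d k247 k251 k4 1 12))))),
  (.s k127 k191 7 (.s k106 k64 6 (.s k89 k72 4 (.s k93 k81 1 (.s k76 k110 4 (.d k115 k119 k102 1
  6))))))] (.c k106 (.q k234 [(.s k243 k183 9 (.s k81 k162 12 (.s k89 k93 1 (.s k166 k12 14 (.d k247
  k251 k4 1 12))))), (.s k127 k191 7 (.s k119 k115 1 (.s k102 k68 4 (.s k213 k192 6 (.s k149 k21 7
  (.s k55 k196 12 (.d k51 k59 k187 1 9)))))))] (.c k4 (.l (.s k183 k243 9 (.s k127 k191 7 (.s k119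
  k115 1 (.s k51 k187 9 (.d k55 k59 k247 1 7)))))) .n)) (.c k234 (.q k106 [(.d k127 k64 k191 6 7),
  (.s k243 k183 9 (.s k81 k162 12 (.d k89 k93 k72 1 4)))] .n) .n))) (.c k64 (.q k61 [(.s k60 k62 0
  (.s k20 k40 5 (.s k150 k215 8 (.s k105 k195 14 (.d k125 k65 k190 5 8))))), (.s k60 k62 0 (.s k125
  k190 8 (.s k189 k253 7 (.s k126 k252 8 (.d k127 k124 k191 0 7))))), (.s k21 k42 6 (.s k149 k213 7
  (.s k105 k193 13 (.s k106 k192 14 (.s k65 k125 5 (.s k195 k130 8 (.d k107 k104 k151 0 13))))))),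
  (.s k21 k42 6 (.s k149 k213 7 (.s k60 k62 0 (.s k20 k40 5 (.s k150 k215 8 (.d k105 k193 k195 13
  14))))))] (.c k150 (.l (.s k21 k42 6 (.s k149 k213 7 (.s k60 k62 0 (.s k105 k193 13 (.d k125 k65
  k190 5 8)))))) .n)) (.c k106 (.q k123 [(.s k243 k183 9 (.s k81 k162 12 (.s k89 k93 1 (.s k166 k12
  14 (.d k247 k251 k4 1 12))))), (.s k127 k191 7 (.s k119 k115 1 (.s k51 k187 9 (.s k17 k34 4 (.s
  k153 k221 9 (.d k102 k68 k204 4 14))))))] (.c k42 (.q k234 [(.s k243 k183 9 (.s k81 k162 12 (.s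
  k89 k93 1 (.s k166 k12 14 (.d k247 k251 k4 1 12))))), (.s k127 k191 7 (.s k119 k115 1 (.s k102 k68
  4 (.s k213 k192 6 (.s k149 k21 7 (.s k55 k196 12 (.d k51 k59 k187 1 9)))))))] (.c k4 (.l (.s k183
  k243 9 (.s k127 k191 7 (.s k119 k115 1 (.s k51 k187 9 (.d k55 k59 k247 1 7)))))) .n)) (.c k183 (.f
  k127 k191 7 (.l (.s k119 k115 1 (.s k68 k102 4 (.s k204 k136 9 (.s k110 k157 12 (.s k238 k221 4
  (.s k174 k46 7 (.d k93 k76 k12 4 12))))))))) (.c k234 (.l (.s k42 k21 6 (.s k183 k243 9 (.s k127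
  k191 7 (.s k119 k115 1 (.s k51 k187 9 (.d k55 k59 k247 1 7))))))) .n)))) (.c k127 (.q k4 [(.s k12
  k8 1 (.s k166 k247 12 (.s k93 k174 12 (.d k89 k81 k243 1 14)))), (.s k21 k42 6 (.s k55 k38 4 (.s
  k247 k166 12 (.s k119 k183 7 (.d k51 k59 k187 1 9))))), (.s k12 k8 1 (.s k21 k42 6 (.s k38 k55 4
  (.s k25 k51 6 (.d k29 k17 k46 1 4)))))] .n) (.c k149 (.q k4 [(.s k12 k8 1 (.s k166 k247 12 (.s k93
  k174 12 (.d k89 k81 k243 1 14)))), (.s k21 k42 6 (.s k55 k38 4 (.s k247 k166 12 (.s k51 k59 1 (.d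
  k119 k183 k187 7 9))))), (.s k12 k8 1 (.s k21 k42 6 (.s k38 k55 4 (.s k25 k51 6 (.d k29 k17 k46 1
  4)))))] (.c k8 (.l (.s k21 k42 6 (.s k55 k38 4 (.s k247 k166 12 (.s k183 k119 7 (.d k243 k251 k123
  1 9)))))) (.c k128 (.l (.s k191 k127 7 (.s k12 k8 1 (.s k166 k247 12 (.s k89 k243 14 (.d k93 k81
  k174 1 12)))))) (.c k191 (.q k128 [(.s k12 k8 1 (.s k166 k247 12 (.s k89 k243 14 (.d k93 k81 k174
  1 12)))), (.s k21 k42 6 (.s k55 k38 4 (.s k247 k166 12 (.s k51 k59 1 (.d k119 k183 k187 7 9))))),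
  (.s k12 k8 1 (.s k21 k42 6 (.s k38 k55 4 (.s k25 k51 6 (.d k29 k17 k46 1 4)))))] (.c k8 (.l (.s
  k21 k42 6 (.s k55 k38 4 (.s k247 k166 12 (.s k183 k119 7 (.d k243 k251 k123 1 9)))))) .n)) .n))))
  (.c k191 (.q k4 [(.s k12 k8 1 (.s k166 k247 12 (.s k89 k243 14 (.d k93 k81 k174 1 12)))), (.s k21
  k42 6 (.s k55 k38 4 (.s k247 k166 12 (.s k119 k183 7 (.d k51 k187 k59 9 1))))), (.s k12 k8 1 (.s
  k21 k42 6 (.s k38 k55 4 (.s k25 k51 6 (.d k29 k17 k46 1 4)))))] (.c k128 (.q k149 [(.d k21 k42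
  k213 6 7), (.s k12 k8 1 (.s k166 k247 12 (.s k29 k46 4 (.d k89 k209 k243 9 14))))] .n) (.c k149
  (.q k128 [(.s k12 k8 1 (.s k166 k247 12 (.s k89 k243 14 (.d k93 k81 k174 1 12)))), (.s k21 k42 6
  (.s k55 k38 4 (.s k247 k166 12 (.s k51 k59 1 (.d k119 k183 k187 7 9))))), (.s k12 k8 1 (.s k21 k42
  6 (.s k38 k55 4 (.s k25 k51 6 (.d k29 k17 k46 1 4)))))] (.c k8 (.l (.s k21 k42 6 (.s k55 k38 4 (.s
  k247 k166 12 (.s k183 k119 7 (.d k243 k251 k123 1 9)))))) .n)) .n))) (.c k192 (.q k4 [(.s k12 k8 1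
  (.s k166 k247 12 (.s k93 k174 12 (.d k89 k81 k243 1 14)))), (.s k21 k42 6 (.s k55 k38 4 (.s k247
  k166 12 (.s k119 k183 7 (.d k51 k59 k187 1 9))))), (.s k12 k8 1 (.s k21 k42 6 (.s k38 k55 4 (.s
  k25 k51 6 (.d k29 k17 k46 1 4)))))] (.c k74 (.q k133 [(.s k12 k8 1 (.s k166 k247 12 (.s k93 k174
  12 (.d k89 k81 k243 1 14)))), (.s k21 k42 6 (.s k55 k38 4 (.s k247 k166 12 (.s k119 k183 7 (.d k51
  k59 k187 1 9))))), (.s k12 k8 1 (.s k21 k42 6 (.s k38 k55 4 (.s k25 k51 6 (.d k29 k17 k46 1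
  4)))))] .n) (.c k133 (.q k74 [(.s k12 k8 1 (.s k166 k247 12 (.s k93 k174 12 (.d k89 k81 k243 1
  14)))), (.s k21 k42 6 (.s k55 k38 4 (.s k247 k166 12 (.s k119 k183 7 (.d k51 k59 k187 1 9))))),
  (.s k12 k8 1 (.s k21 k42 6 (.s k38 k55 4 (.s k25 k51 6 (.d k29 k17 k46 1 4)))))] .n) .n))) (.c
  k213 (.q k4 [(.s k12 k8 1 (.s k166 k247 12 (.s k93 k174 12 (.d k89 k81 k243 1 14)))), (.s k21 k42
  6 (.s k55 k38 4 (.s k247 k166 12 (.s k119 k183 7 (.d k51 k59 k187 1 9))))), (.s k12 k8 1 (.s k21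
  k42 6 (.s k38 k55 4 (.s k25 k51 6 (.d k29 k17 k46 1 4)))))] .n) (.c k234 (.l (.s k127 k191 7 (.s
  k21 k42 6 (.s k106 k64 6 (.d k149 k213 k192 7 14))))) .n))))))))))))

def t3 : T TT 256 :=
  (.q k63 [(.s k21 k42 6 (.s k85 k170 14 (.s k149 k213 7 (.s k127 k191 7 (.d k106 k64 k192 6
  14)))))] (.c k7 (.q k11 [(.s k21 k42 6 (.s k85 k170 14 (.s k149 k213 7 (.s k127 k191 7 (.d k106
  k64 k192 6 14)))))] (.c k21 (.q k12 [(.s k4 k8 1 (.s k85 k170 14 (.s k93 k174 12 (.s k89 k81 1 (.d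
  k166 k247 k243 12 14))))), (.s k29 k46 4 (.s k93 k174 12 (.s k157 k221 7 (.s k110 k204 12 (.d k127
  k76 k191 4 7))))), (.s k4 k8 1 (.s k85 k170 14 (.s k166 k247 12 (.s k46 k29 4 (.s k106 k226 9 (.d
  k127 k64 k191 6 7))))))] .n) (.c k42 (.q k12 [(.s k8 k4 1 (.s k174 k93 12 (.s k170 k85 14 (.s k166
  k162 1 (.d k89 k251 k243 12 14))))), (.s k29 k46 4 (.s k93 k174 12 (.s k157 k221 7 (.s k110 k204
  12 (.d k127 k76 k191 4 7))))), (.s k4 k8 1 (.s k85 k170 14 (.s k166 k247 12 (.s k46 k29 4 (.s k106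
  k226 9 (.d k127 k64 k191 6 7))))))] .n) (.c k64 (.l (.s k42 k21 6 (.s k170 k85 14 (.s k106 k234 7
  (.s k149 k192 14 (.d k191 k127 k128 7 6)))))) (.c k85 (.q k12 [(.s k4 k8 1 (.s k21 k42 6 (.s k38
  k55 4 (.s k29 k46 4 (.d k25 k17 k51 1 6))))), (.s k29 k46 4 (.s k93 k174 12 (.s k157 k221 7 (.s
  k110 k204 12 (.d k127 k76 k191 4 7))))), (.s k8 k4 1 (.s k42 k21 6 (.s k9 k10 0 (.s k25 k59 4 (.s
  k41 k57 3 (.s k56 k26 4 (.d k40 k43 k24 0 3)))))))] .n) (.c k106 (.q k12 [(.s k4 k8 1 (.s k21 k42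
  6 (.s k29 k46 4 (.s k25 k17 1 (.d k38 k55 k51 4 6))))), (.s k29 k46 4 (.s k93 k174 12 (.s k157
  k221 7 (.s k110 k204 12 (.d k127 k76 k191 4 7))))), (.s k4 k8 1 (.s k85 k170 14 (.s k166 k247 12
  (.s k89 k243 14 (.d k93 k81 k174 1 12)))))] (.c k166 (.l (.s k4 k8 1 (.s k21 k42 6 (.s k38 k55 4
  (.s k25 k51 6 (.d k29 k17 k46 1 4)))))) .n)) (.c k127 (.q k12 [(.s k4 k8 1 (.s k21 k42 6 (.s k29
  k46 4 (.s k25 k17 1 (.d k38 k55 k51 4 6))))), (.s k4 k8 1 (.s k85 k170 14 (.s k166 k247 12 (.s k89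
  k243 14 (.d k93 k81 k174 1 12))))), (.s k21 k42 6 (.s k85 k170 14 (.s k29 k46 4 (.s k93 k174 12
  (.s k149 k213 7 (.d k89 k81 k209 1 9))))))] .n) (.c k149 (.q k12 [(.s k4 k8 1 (.s k21 k42 6 (.s
  k29 k46 4 (.s k25 k17 1 (.d k38 k55 k51 4 6))))), (.s k29 k46 4 (.s k93 k174 12 (.s k157 k221 7
  (.s k110 k204 12 (.d k127 k76 k191 4 7))))), (.s k4 k8 1 (.s k85 k170 14 (.s k166 k247 12 (.s k89
  k243 14 (.d k93 k81 k174 1 12)))))] .n) (.c k170 (.q k12 [(.s k4 k8 1 (.s k21 k42 6 (.s k29 k46 4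
  (.s k25 k17 1 (.d k38 k55 k51 4 6))))), (.s k29 k46 4 (.s k93 k174 12 (.s k157 k221 7 (.s k110
  k204 12 (.d k127 k76 k191 4 7))))), (.s k8 k4 1 (.s k42 k21 6 (.s k9 k10 0 (.s k25 k59 4 (.s k41
  k57 3 (.s k56 k26 4 (.d k40 k43 k24 0 3)))))))] .n) (.c k191 (.q k12 [(.s k4 k8 1 (.s k21 k42 6
  (.s k29 k46 4 (.s k25 k17 1 (.d k38 k55 k51 4 6))))), (.s k4 k8 1 (.s k85 k170 14 (.s k166 k247 12
  (.s k89 k243 14 (.d k93 k81 k174 1 12))))), (.s k21 k42 6 (.s k85 k170 14 (.s k29 k46 4 (.s k93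
  k174 12 (.s k149 k213 7 (.d k89 k81 k209 1 9))))))] .n) (.c k192 (.f k21 k42 6 (.q k204 [(.s k68
  k136 9 (.s k85 k170 14 (.s k102 k119 4 (.s k221 k238 4 (.d k153 k17 k51 9 14))))), (.s k110 k157
  12 (.s k127 k191 7 (.s k93 k76 4 (.s k174 k12 12 (.d k238 k221 k46 4 7))))), (.s k68 k136 9 (.s
  k85 k170 14 (.s k149 k213 7 (.s k157 k110 12 (.s k102 k119 4 (.d k153 k145 k51 1 14))))))] (.c k66
  (.q k129 [(.s k68 k136 9 (.s k85 k170 14 (.s k102 k119 4 (.s k221 k238 4 (.d k153 k17 k51 9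
  14))))), (.s k110 k157 12 (.s k127 k191 7 (.s k93 k76 4 (.s k174 k12 12 (.d k238 k221 k46 4
  7))))), (.s k68 k136 9 (.s k85 k170 14 (.s k149 k213 7 (.s k157 k110 12 (.s k102 k119 4 (.d k153
  k145 k51 1 14))))))] (.c k74 (.q k133 [(.s k85 k170 14 (.s k149 k213 7 (.s k157 k110 12 (.s k141
  k137 1 (.d k189 k173 k169 3 5))))), (.s k136 k68 9 (.s k170 k85 14 (.s k153 k187 4 (.s k102 k51 14
  (.d k238 k221 k34 4 9))))), (.s k110 k157 12 (.s k127 k191 7 (.s k93 k76 4 (.s k174 k12 12 (.d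
  k238 k221 k46 4 7)))))] (.c k70 (.q k78 [(.s k68 k136 9 (.s k85 k170 14 (.s k102 k119 4 (.s k221
  k238 4 (.d k153 k17 k51 9 14))))), (.s k110 k157 12 (.s k127 k191 7 (.s k93 k76 4 (.s k174 k12 12
  (.d k238 k221 k46 4 7))))), (.s k85 k170 14 (.s k149 k213 7 (.s k110 k157 12 (.s k126 k94 3 (.d
  k189 k252 k169 8 5)))))] .n) (.c k78 (.q k70 [(.s k68 k136 9 (.s k85 k170 14 (.s k102 k119 4 (.s
  k221 k238 4 (.d k153 k17 k51 9 14))))), (.s k68 k136 9 (.s k69 k71 0 (.s k207 k138 10 (.s k137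
  k141 1 (.d k205 k206 k1 0 9))))), (.s k85 k170 14 (.s k149 k213 7 (.s k157 k110 12 (.s k141 k137 1
  (.d k189 k173 k169 3 5)))))] .n) .n))) (.c k133 (.q k74 [(.s k68 k136 9 (.s k85 k170 14 (.s k102
  k119 4 (.s k221 k238 4 (.d k153 k17 k51 9 14))))), (.s k110 k157 12 (.s k127 k191 7 (.s k93 k76 4
  (.s k174 k12 12 (.d k238 k221 k46 4 7))))), (.s k68 k136 9 (.s k85 k170 14 (.s k149 k213 7 (.s
  k157 k110 12 (.s k102 k119 4 (.d k153 k145 k51 1 14))))))] (.c k70 (.q k196 [(.s k68 k136 9 (.s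
  k85 k170 14 (.s k149 k213 7 (.d k102 k119 k55 4 12)))), (.s k68 k136 9 (.s k4 k132 7 (.s k55 k38 4
  (.s k51 k59 1 (.d k102 k149 k153 12 14))))), (.s k68 k136 9 (.s k85 k170 14 (.s k4 k132 7 (.s k247
  k166 12 (.d k213 k149 k230 7 4))))), (.s k85 k170 14 (.s k149 k213 7 (.s k102 k55 12 (.s k153 k51
  14 (.d k157 k145 k110 1 12)))))] (.c k149 (.l (.s k68 k136 9 (.s k85 k170 14 (.s k102 k119 4 (.s
  k153 k51 14 (.d k221 k238 k17 4 9)))))) (.c k153 (.l (.s k85 k170 14 (.s k149 k213 7 (.s k102 k55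
  12 (.d k68 k136 k119 9 4))))) .n))) (.c k196 (.q k70 [(.s k85 k170 14 (.s k149 k213 7 (.s k157
  k110 12 (.s k153 k145 1 (.d k221 k238 k17 4 9))))), (.s k68 k136 9 (.s k137 k200 8 (.s k69 k71 0
  (.s k207 k138 10 (.d k205 k206 k1 0 9)))))] .n) .n))) .n))) (.c k74 (.q k133 [(.s k68 k136 9 (.s
  k85 k170 14 (.s k102 k119 4 (.s k221 k238 4 (.d k153 k17 k51 9 14))))), (.s k110 k157 12 (.s k127
  k191 7 (.s k93 k76 4 (.s k174 k12 12 (.d k238 k221 k46 4 7))))), (.s k68 k136 9 (.s k85 k170 14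
  (.s k149 k213 7 (.s k157 k110 12 (.s k102 k119 4 (.d k153 k145 k51 1 14))))))] (.c k66 (.q k129
  [(.s k85 k170 14 (.s k149 k213 7 (.s k157 k110 12 (.s k141 k137 1 (.d k189 k173 k169 3 5))))), (.s
  k136 k68 9 (.s k170 k85 14 (.s k153 k187 4 (.s k102 k51 14 (.d k238 k221 k34 4 9))))), (.s k110
  k157 12 (.s k127 k191 7 (.s k93 k76 4 (.s k174 k12 12 (.d k238 k221 k46 4 7)))))] (.c k70 (.q k78
  [(.s k68 k136 9 (.s k85 k170 14 (.s k102 k119 4 (.s k221 k238 4 (.d k153 k17 k51 9 14))))), (.s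
  k110 k157 12 (.s k127 k191 7 (.s k93 k76 4 (.s k174 k12 12 (.d k238 k221 k46 4 7))))), (.s k85
  k170 14 (.s k149 k213 7 (.s k110 k157 12 (.s k126 k94 3 (.d k189 k252 k169 8 5)))))] .n) (.c k78
  (.q k70 [(.s k68 k136 9 (.s k85 k170 14 (.s k102 k119 4 (.s k221 k238 4 (.d k153 k17 k51 9
  14))))), (.s k68 k136 9 (.s k69 k71 0 (.s k207 k138 10 (.s k137 k141 1 (.d k205 k206 k1 0 9))))),
  (.s k85 k170 14 (.s k149 k213 7 (.s k157 k110 12 (.s k141 k137 1 (.d k189 k173 k169 3 5)))))] .n)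
  .n))) (.c k129 (.q k66 [(.s k68 k136 9 (.s k85 k170 14 (.s k102 k119 4 (.s k221 k238 4 (.d k153
  k17 k51 9 14))))), (.s k110 k157 12 (.s k127 k191 7 (.s k93 k76 4 (.s k174 k12 12 (.d k238 k221
  k46 4 7))))), (.s k68 k136 9 (.s k85 k170 14 (.s k149 k213 7 (.s k157 k110 12 (.s k102 k119 4 (.d
  k153 k145 k51 1 14))))))] .n) .n))) (.c k129 (.q k66 [(.s k68 k136 9 (.s k85 k170 14 (.s k102 k119
  4 (.s k221 k238 4 (.d k153 k17 k51 9 14))))), (.s k110 k157 12 (.s k127 k191 7 (.s k93 k76 4 (.s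
  k174 k12 12 (.d k238 k221 k46 4 7))))), (.s k68 k136 9 (.s k85 k170 14 (.s k149 k213 7 (.s k157
  k110 12 (.s k102 k119 4 (.d k153 k145 k51 1 14))))))] (.c k74 (.q k133 [(.s k68 k136 9 (.s k85
  k170 14 (.s k102 k119 4 (.s k221 k238 4 (.d k153 k17 k51 9 14))))), (.s k110 k157 12 (.s k127 k191
  7 (.s k93 k76 4 (.s k174 k12 12 (.d k238 k221 k46 4 7))))), (.s k68 k136 9 (.s k85 k170 14 (.s
  k149 k213 7 (.s k157 k110 12 (.s k102 k119 4 (.d k153 k145 k51 1 14))))))] .n) (.c k133 (.q k74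
  [(.s k68 k136 9 (.s k85 k170 14 (.s k102 k119 4 (.s k221 k238 4 (.d k153 k17 k51 9 14))))), (.s
  k110 k157 12 (.s k127 k191 7 (.s k93 k76 4 (.s k174 k12 12 (.d k238 k221 k46 4 7))))), (.s k70 k78
  1 (.s k68 k136 9 (.s k85 k170 14 (.s k127 k191 7 (.s k69 k71 0 (.d k64 k106 k79 6 2))))))] (.c k70
  (.q k196 [(.s k68 k136 9 (.s k85 k170 14 (.s k149 k213 7 (.d k102 k119 k55 4 12)))), (.s k68 k136
  9 (.s k4 k132 7 (.s k55 k38 4 (.s k51 k59 1 (.d k102 k149 k153 12 14))))), (.s k68 k136 9 (.s k85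
  k170 14 (.s k4 k132 7 (.s k247 k166 12 (.d k213 k149 k230 7 4))))), (.s k85 k170 14 (.s k149 k213
  7 (.s k102 k55 12 (.s k153 k51 14 (.d k157 k145 k110 1 12)))))] (.c k137 (.q k141 [(.s k85 k170 14
  (.s k149 k213 7 (.s k102 k55 12 (.d k68 k119 k136 4 9)))), (.s k68 k136 9 (.s k4 k132 7 (.s k55
  k38 4 (.s k51 k59 1 (.d k102 k149 k153 12 14))))), (.s k68 k136 9 (.s k85 k170 14 (.s k4 k132 7
  (.s k247 k166 12 (.d k213 k149 k230 7 4))))), (.s k85 k170 14 (.s k149 k213 7 (.s k102 k55 12 (.s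
  k153 k51 14 (.d k157 k145 k110 1 12)))))] (.c k149 (.l (.s k68 k136 9 (.s k85 k170 14 (.s k102
  k119 4 (.s k153 k51 14 (.d k221 k238 k17 4 9)))))) .n)) (.c k141 (.l (.s k137 k200 8 (.s k68 k136
  9 (.s k85 k170 14 (.s k149 k213 7 (.d k102 k119 k55 4 12)))))) (.c k149 (.l (.s k68 k136 9 (.s k85
  k170 14 (.s k102 k119 4 (.s k153 k51 14 (.d k221 k238 k17 4 9)))))) (.c k153 (.l (.s k85 k170 14
  (.s k149 k213 7 (.s k102 k55 12 (.d k68 k136 k119 9 4))))) .n))))) (.c k137 (.q k141 [(.s k136 k68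
  9 (.s k238 k221 4 (.s k170 k85 14 (.s k102 k34 9 (.d k153 k187 k51 4 14))))), (.s k110 k157 12 (.s
  k127 k191 7 (.s k93 k76 4 (.s k174 k12 12 (.d k238 k221 k46 4 7))))), (.s k70 k78 1 (.s k68 k136 9
  (.s k85 k170 14 (.s k127 k191 7 (.s k69 k71 0 (.d k64 k106 k79 6 2))))))] (.c k70 (.q k196 [(.s
  k85 k170 14 (.s k149 k213 7 (.s k102 k55 12 (.d k68 k119 k136 4 9)))), (.s k68 k136 9 (.s k4 k132
  7 (.s k55 k38 4 (.s k51 k59 1 (.d k102 k149 k153 12 14))))), (.s k68 k136 9 (.s k85 k170 14 (.s k4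
  k132 7 (.s k247 k166 12 (.d k213 k149 k230 7 4))))), (.s k85 k170 14 (.s k149 k213 7 (.s k102 k55
  12 (.s k153 k51 14 (.d k157 k145 k110 1 12)))))] (.c k149 (.l (.s k68 k136 9 (.s k85 k170 14 (.s
  k102 k119 4 (.s k153 k51 14 (.d k221 k238 k17 4 9)))))) .n)) (.c k196 (.l (.s k70 k78 1 (.s k68
  k136 9 (.s k85 k170 14 (.s k127 k191 7 (.s k69 k71 0 (.d k64 k106 k79 6 2))))))) .n))) (.c k141
  (.l (.s k137 k200 8 (.s k68 k136 9 (.s k85 k170 14 (.s k102 k119 4 (.s k153 k51 14 (.d k221 k238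
  k17 4 9))))))) (.c k196 (.l (.s k70 k78 1 (.s k68 k136 9 (.s k85 k170 14 (.s k127 k191 7 (.s k69
  k71 0 (.d k64 k106 k79 6 2))))))) .n))))) .n))) (.c k133 (.q k74 [(.s k68 k136 9 (.s k85 k170 14
  (.s k102 k119 4 (.s k221 k238 4 (.d k153 k17 k51 9 14))))), (.s k110 k157 12 (.s k127 k191 7 (.s
  k93 k76 4 (.s k174 k12 12 (.d k238 k221 k46 4 7))))), (.s k68 k136 9 (.s k85 k170 14 (.s k149 k213
  7 (.s k157 k110 12 (.s k102 k119 4 (.d k153 k145 k51 1 14))))))] (.c k66 (.q k129 [(.s k68 k136 9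
  (.s k85 k170 14 (.s k102 k119 4 (.s k221 k238 4 (.d k153 k17 k51 9 14))))), (.s k110 k157 12 (.s
  k127 k191 7 (.s k93 k76 4 (.s k174 k12 12 (.d k238 k221 k46 4 7))))), (.s k68 k136 9 (.s k85 k170
  14 (.s k149 k213 7 (.s k157 k110 12 (.s k102 k119 4 (.d k153 k145 k51 1 14))))))] (.c k70 (.q k196
  [(.s k68 k136 9 (.s k85 k170 14 (.s k149 k213 7 (.d k102 k119 k55 4 12)))), (.s k68 k136 9 (.s k4
  k132 7 (.s k55 k38 4 (.s k51 k59 1 (.d k102 k149 k153 12 14))))), (.s k68 k136 9 (.s k85 k170 14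
  (.s k4 k132 7 (.s k247 k166 12 (.d k213 k149 k230 7 4))))), (.s k85 k170 14 (.s k149 k213 7 (.s
  k102 k55 12 (.s k153 k51 14 (.d k157 k145 k110 1 12)))))] (.c k149 (.l (.s k68 k136 9 (.s k85 k170
  14 (.s k102 k119 4 (.s k153 k51 14 (.d k221 k238 k17 4 9)))))) (.c k153 (.l (.s k85 k170 14 (.s
  k149 k213 7 (.s k102 k55 12 (.d k68 k136 k119 9 4))))) .n))) (.c k196 (.q k70 [(.s k85 k170 14 (.s
  k149 k213 7 (.s k157 k110 12 (.s k153 k145 1 (.d k221 k238 k17 4 9))))), (.s k68 k136 9 (.s k137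
  k200 8 (.s k69 k71 0 (.s k207 k138 10 (.d k205 k206 k1 0 9)))))] .n) .n))) (.c k70 (.q k196 [(.s
  k68 k136 9 (.s k85 k170 14 (.s k149 k213 7 (.d k102 k119 k55 4 12)))), (.s k68 k136 9 (.s k4 k132
  7 (.s k55 k38 4 (.s k51 k59 1 (.d k102 k149 k153 12 14))))), (.s k68 k136 9 (.s k85 k170 14 (.s k4
  k132 7 (.s k247 k166 12 (.d k213 k149 k230 7 4))))), (.s k85 k170 14 (.s k149 k213 7 (.s k102 k55
  12 (.s k153 k51 14 (.d k157 k145 k110 1 12)))))] (.c k66 (.q k129 [(.s k68 k136 9 (.s k85 k170 14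
  (.s k149 k213 7 (.d k102 k119 k55 4 12)))), (.s k68 k136 9 (.s k4 k132 7 (.s k55 k38 4 (.s k51 k59
  1 (.d k102 k149 k153 12 14))))), (.s k68 k136 9 (.s k85 k170 14 (.s k4 k132 7 (.s k247 k166 12 (.d
  k213 k149 k230 7 4))))), (.s k85 k170 14 (.s k149 k213 7 (.s k102 k55 12 (.s k153 k51 14 (.d k157
  k145 k110 1 12)))))] (.c k149 (.l (.s k68 k136 9 (.s k85 k170 14 (.s k102 k119 4 (.s k153 k51 14
  (.d k221 k238 k17 4 9)))))) (.c k153 (.l (.s k85 k170 14 (.s k149 k213 7 (.s k102 k55 12 (.d k68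
  k136 k119 9 4))))) .n))) (.c k129 (.q k66 [(.s k68 k136 9 (.s k85 k170 14 (.s k149 k213 7 (.d k102
  k119 k55 4 12)))), (.s k68 k136 9 (.s k4 k132 7 (.s k55 k38 4 (.s k51 k59 1 (.d k102 k149 k153 12
  14))))), (.s k68 k136 9 (.s k85 k170 14 (.s k4 k132 7 (.s k247 k166 12 (.d k213 k149 k230 7
  4))))), (.s k85 k170 14 (.s k149 k213 7 (.s k102 k55 12 (.s k153 k51 14 (.d k157 k145 k110 1
  12)))))] (.c k137 (.q k141 [(.s k85 k170 14 (.s k149 k213 7 (.s k102 k55 12 (.d k68 k119 k136 4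
  9)))), (.s k68 k136 9 (.s k4 k132 7 (.s k55 k38 4 (.s k51 k59 1 (.d k102 k149 k153 12 14))))), (.s
  k68 k136 9 (.s k85 k170 14 (.s k4 k132 7 (.s k247 k166 12 (.d k213 k149 k230 7 4))))), (.s k85
  k170 14 (.s k149 k213 7 (.s k102 k55 12 (.s k153 k51 14 (.d k157 k145 k110 1 12)))))] (.c k149 (.l
  (.s k68 k136 9 (.s k85 k170 14 (.s k102 k119 4 (.s k153 k51 14 (.d k221 k238 k17 4 9)))))) .n))
  (.c k141 (.l (.s k137 k200 8 (.s k68 k136 9 (.s k85 k170 14 (.s k149 k213 7 (.d k102 k119 k55 4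
  12)))))) (.c k149 (.l (.s k68 k136 9 (.s k85 k170 14 (.s k102 k119 4 (.s k153 k51 14 (.d k221 k238
  k17 4 9)))))) (.c k153 (.l (.s k85 k170 14 (.s k149 k213 7 (.s k102 k55 12 (.d k68 k136 k119 9
  4))))) .n))))) (.c k149 (.l (.s k68 k136 9 (.s k85 k170 14 (.s k102 k119 4 (.s k153 k51 14 (.d
  k221 k238 k17 4 9)))))) (.c k153 (.l (.s k85 k170 14 (.s k149 k213 7 (.s k102 k55 12 (.d k68 k136
  k119 9 4))))) .n))))) (.c k129 (.q k66 [(.s k68 k136 9 (.s k85 k170 14 (.s k102 k119 4 (.s k221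
  k238 4 (.d k153 k17 k51 9 14))))), (.s k110 k157 12 (.s k127 k191 7 (.s k93 k76 4 (.s k174 k12 12
  (.d k238 k221 k46 4 7))))), (.s k70 k78 1 (.s k68 k136 9 (.s k85 k170 14 (.s k127 k191 7 (.s k69
  k71 0 (.d k64 k106 k79 6 2))))))] (.c k70 (.q k196 [(.s k68 k136 9 (.s k85 k170 14 (.s k149 k213 7
  (.d k102 k119 k55 4 12)))), (.s k68 k136 9 (.s k4 k132 7 (.s k55 k38 4 (.s k51 k59 1 (.d k102 k149
  k153 12 14))))), (.s k68 k136 9 (.s k85 k170 14 (.s k4 k132 7 (.s k247 k166 12 (.d k213 k149 k230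
  7 4))))), (.s k85 k170 14 (.s k149 k213 7 (.s k102 k55 12 (.s k153 k51 14 (.d k157 k145 k110 1
  12)))))] (.c k137 (.q k141 [(.s k85 k170 14 (.s k149 k213 7 (.s k102 k55 12 (.d k68 k119 k136 4
  9)))), (.s k68 k136 9 (.s k4 k132 7 (.s k55 k38 4 (.s k51 k59 1 (.d k102 k149 k153 12 14))))), (.s
  k68 k136 9 (.s k85 k170 14 (.s k4 k132 7 (.s k247 k166 12 (.d k213 k149 k230 7 4))))), (.s k85
  k170 14 (.s k149 k213 7 (.s k102 k55 12 (.s k153 k51 14 (.d k157 k145 k110 1 12)))))] (.c k149 (.l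
  (.s k68 k136 9 (.s k85 k170 14 (.s k102 k119 4 (.s k153 k51 14 (.d k221 k238 k17 4 9)))))) .n))
  (.c k141 (.l (.s k137 k200 8 (.s k68 k136 9 (.s k85 k170 14 (.s k149 k213 7 (.d k102 k119 k55 4
  12)))))) (.c k149 (.l (.s k68 k136 9 (.s k85 k170 14 (.s k102 k119 4 (.s k153 k51 14 (.d k221 k238
  k17 4 9)))))) (.c k153 (.l (.s k85 k170 14 (.s k149 k213 7 (.s k102 k55 12 (.d k68 k136 k119 9
  4))))) .n))))) (.c k137 (.q k141 [(.s k136 k68 9 (.s k238 k221 4 (.s k170 k85 14 (.s k102 k34 9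
  (.d k153 k187 k51 4 14))))), (.s k110 k157 12 (.s k127 k191 7 (.s k93 k76 4 (.s k174 k12 12 (.d
  k238 k221 k46 4 7))))), (.s k70 k78 1 (.s k68 k136 9 (.s k85 k170 14 (.s k127 k191 7 (.s k69 k71 0
  (.d k64 k106 k79 6 2))))))] (.c k70 (.q k196 [(.s k85 k170 14 (.s k149 k213 7 (.s k102 k55 12 (.d
  k68 k119 k136 4 9)))), (.s k68 k136 9 (.s k4 k132 7 (.s k55 k38 4 (.s k51 k59 1 (.d k102 k149 k153
  12 14))))), (.s k68 k136 9 (.s k85 k170 14 (.s k4 k132 7 (.s k247 k166 12 (.d k213 k149 k230 7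
  4))))), (.s k85 k170 14 (.s k149 k213 7 (.s k102 k55 12 (.s k153 k51 14 (.d k157 k145 k110 1
  12)))))] (.c k149 (.l (.s k68 k136 9 (.s k85 k170 14 (.s k102 k119 4 (.s k153 k51 14 (.d k221 k238
  k17 4 9)))))) .n)) (.c k196 (.l (.s k70 k78 1 (.s k68 k136 9 (.s k85 k170 14 (.s k127 k191 7 (.s
  k69 k71 0 (.d k64 k106 k79 6 2))))))) .n))) (.c k141 (.l (.s k137 k200 8 (.s k68 k136 9 (.s k85
  k170 14 (.s k102 k119 4 (.s k153 k51 14 (.d k221 k238 k17 4 9))))))) (.c k196 (.l (.s k70 k78 1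
  (.s k68 k136 9 (.s k85 k170 14 (.s k127 k191 7 (.s k69 k71 0 (.d k64 k106 k79 6 2))))))) .n)))))
  (.c k196 (.q k70 [(.s k85 k170 14 (.s k149 k213 7 (.s k157 k110 12 (.s k153 k145 1 (.d k221 k238
  k17 4 9))))), (.s k68 k136 9 (.s k137 k200 8 (.s k69 k71 0 (.s k207 k138 10 (.d k205 k206 k1 0
  9)))))] (.c k66 (.q k129 [(.s k85 k170 14 (.s k149 k213 7 (.s k157 k110 12 (.s k153 k145 1 (.d
  k221 k238 k17 4 9))))), (.s k68 k136 9 (.s k137 k200 8 (.s k69 k71 0 (.s k207 k138 10 (.d k205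
  k206 k1 0 9)))))] .n) (.c k129 (.l (.s k66 k78 1 (.s k68 k136 9 (.s k85 k170 14 (.s k127 k191 7
  (.s k69 k71 0 (.d k64 k106 k79 6 2))))))) .n))) .n))))) .n)))))) (.c k213 (.l (.s k42 k21 6 (.s
  k191 k127 7 (.s k170 k85 14 (.s k149 k128 6 (.d k106 k234 k192 7 14)))))) (.c k234 (.l (.s k21 k42
  6 (.s k127 k191 7 (.s k85 k170 14 (.s k106 k64 6 (.d k149 k213 k192 7 14)))))) .n))))))))))))) (.c
  k11 (.q k7 [(.s k21 k42 6 (.s k85 k170 14 (.s k149 k213 7 (.s k127 k191 7 (.d k106 k64 k192 6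
  14)))))] (.c k21 (.q k12 [(.s k4 k8 1 (.s k85 k170 14 (.s k166 k247 12 (.s k93 k174 12 (.d k89 k81
  k243 1 14))))), (.s k29 k46 4 (.s k93 k174 12 (.s k157 k221 7 (.s k110 k204 12 (.d k127 k76 k191 4
  7))))), (.s k4 k8 1 (.s k85 k170 14 (.s k166 k247 12 (.s k46 k29 4 (.s k106 k226 9 (.d k127 k64
  k191 6 7))))))] .n) (.c k42 (.q k12 [(.s k8 k4 1 (.s k174 k93 12 (.s k170 k85 14 (.s k166 k162 1
  (.d k89 k251 k243 12 14))))), (.s k29 k46 4 (.s k93 k174 12 (.s k157 k221 7 (.s k110 k204 12 (.d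
  k127 k76 k191 4 7))))), (.s k4 k8 1 (.s k85 k170 14 (.s k166 k247 12 (.s k46 k29 4 (.s k106 k226 9
  (.d k127 k64 k191 6 7))))))] .n) (.c k64 (.l (.s k42 k21 6 (.s k170 k85 14 (.s k106 k234 7 (.s
  k149 k192 14 (.d k191 k127 k128 7 6)))))) (.c k85 (.q k12 [(.s k4 k8 1 (.s k21 k42 6 (.s k38 k55 4
  (.s k29 k46 4 (.d k25 k17 k51 1 6))))), (.s k29 k46 4 (.s k93 k174 12 (.s k157 k221 7 (.s k110
  k204 12 (.d k127 k76 k191 4 7))))), (.s k4 k8 1 (.s k21 k42 6 (.s k5 k6 0 (.s k38 k55 4 (.s k37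
  k53 3 (.s k52 k22 4 (.d k36 k39 k20 0 3)))))))] .n) (.c k106 (.q k12 [(.s k29 k46 4 (.s k93 k174
  12 (.s k157 k221 7 (.s k110 k204 12 (.d k127 k76 k191 4 7))))), (.s k4 k8 1 (.s k21 k42 6 (.s k38
  k55 4 (.s k25 k51 6 (.d k29 k17 k46 1 4))))), (.s k4 k8 1 (.s k85 k170 14 (.s k166 k247 12 (.s k89
  k243 14 (.d k93 k81 k174 1 12)))))] .n) (.c k127 (.q k12 [(.s k4 k8 1 (.s k21 k42 6 (.s k38 k55 4
  (.s k29 k46 4 (.d k25 k17 k51 1 6))))), (.s k4 k8 1 (.s k85 k170 14 (.s k166 k247 12 (.s k89 k243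
  14 (.d k93 k81 k174 1 12))))), (.s k21 k42 6 (.s k85 k170 14 (.s k29 k46 4 (.s k93 k174 12 (.s
  k149 k213 7 (.d k89 k81 k209 1 9))))))] .n) (.c k149 (.q k12 [(.s k4 k8 1 (.s k21 k42 6 (.s k29
  k46 4 (.s k25 k17 1 (.d k38 k55 k51 4 6))))), (.s k29 k46 4 (.s k93 k174 12 (.s k157 k221 7 (.s
  k110 k204 12 (.d k127 k76 k191 4 7))))), (.s k4 k8 1 (.s k85 k170 14 (.s k166 k247 12 (.s k89 k243
  14 (.d k93 k81 k174 1 12)))))] .n) (.c k170 (.q k12 [(.s k8 k4 1 (.s k46 k29 4 (.s k42 k21 6 (.s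
  k38 k34 1 (.d k25 k59 k51 4 6))))), (.s k29 k46 4 (.s k93 k174 12 (.s k157 k221 7 (.s k110 k204 12
  (.d k127 k76 k191 4 7))))), (.s k4 k8 1 (.s k21 k42 6 (.s k5 k6 0 (.s k38 k55 4 (.s k37 k53 3 (.s
  k52 k22 4 (.d k36 k39 k20 0 3)))))))] .n) (.c k191 (.q k12 [(.s k4 k8 1 (.s k21 k42 6 (.s k38 k55
  4 (.s k29 k46 4 (.d k25 k17 k51 1 6))))), (.s k4 k8 1 (.s k85 k170 14 (.s k166 k247 12 (.s k89
  k243 14 (.d k93 k81 k174 1 12))))), (.s k21 k42 6 (.s k85 k170 14 (.s k29 k46 4 (.s k93 k174 12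
  (.s k149 k213 7 (.d k89 k81 k209 1 9))))))] .n) (.c k192 (.f k21 k42 6 (.q k204 [(.s k68 k136 9
  (.s k85 k170 14 (.s k102 k119 4 (.s k221 k238 4 (.d k153 k17 k51 9 14))))), (.s k110 k157 12 (.s
  k127 k191 7 (.s k93 k76 4 (.s k174 k12 12 (.d k238 k221 k46 4 7))))), (.s k68 k136 9 (.s k85 k170
  14 (.s k149 k213 7 (.s k157 k110 12 (.s k102 k119 4 (.d k153 k145 k51 1 14))))))] (.c k66 (.q k129
  [(.s k68 k136 9 (.s k85 k170 14 (.s k102 k119 4 (.s k221 k238 4 (.d k153 k17 k51 9 14))))), (.s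
  k110 k157 12 (.s k127 k191 7 (.s k93 k76 4 (.s k174 k12 12 (.d k238 k221 k46 4 7))))), (.s k68
  k136 9 (.s k85 k170 14 (.s k149 k213 7 (.s k157 k110 12 (.s k102 k119 4 (.d k153 k145 k51 1
  14))))))] (.c k74 (.q k133 [(.s k68 k136 9 (.s k85 k170 14 (.s k149 k213 7 (.s k102 k119 4 (.d
  k196 k70 k55 8 12))))), (.s k110 k157 12 (.s k127 k191 7 (.s k93 k76 4 (.s k174 k12 12 (.d k238
  k221 k46 4 7)))))] (.c k70 (.q k78 [(.s k68 k136 9 (.s k85 k170 14 (.s k102 k119 4 (.s k221 k238 4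
  (.d k153 k17 k51 9 14))))), (.s k110 k157 12 (.s k127 k191 7 (.s k93 k76 4 (.s k174 k12 12 (.d
  k238 k221 k46 4 7))))), (.s k85 k170 14 (.s k149 k213 7 (.s k110 k157 12 (.s k126 k94 3 (.d k189
  k252 k169 8 5)))))] (.c k137 (.q k200 [(.s k68 k136 9 (.s k85 k170 14 (.s k102 k119 4 (.s k221
  k238 4 (.d k153 k17 k51 9 14))))), (.s k110 k157 12 (.s k127 k191 7 (.s k93 k76 4 (.s k174 k12 12
  (.d k238 k221 k46 4 7))))), (.s k85 k170 14 (.s k149 k213 7 (.s k110 k157 12 (.s k126 k94 3 (.d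
  k189 k252 k169 8 5)))))] .n) (.c k200 (.l (.s k137 k141 1 (.s k68 k136 9 (.s k85 k170 14 (.s k102
  k119 4 (.s k153 k51 14 (.d k221 k238 k17 4 9))))))) .n))) (.c k78 (.l (.s k70 k196 8 (.s k68 k136
  9 (.s k85 k170 14 (.s k102 k119 4 (.s k153 k51 14 (.d k221 k238 k17 4 9))))))) (.c k137 (.q k200
  [(.s k85 k170 14 (.s k149 k213 7 (.s k157 k110 12 (.s k153 k145 1 (.d k221 k238 k17 4 9))))), (.s
  k110 k157 12 (.s k127 k191 7 (.s k93 k76 4 (.s k174 k12 12 (.d k238 k221 k46 4 7))))), (.s k68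
  k136 9 (.s k85 k170 14 (.s k149 k213 7 (.s k102 k119 4 (.d k196 k70 k55 8 12)))))] (.c k70 (.q k78
  [(.s k68 k136 9 (.s k85 k170 14 (.s k102 k119 4 (.s k221 k238 4 (.d k153 k17 k51 9 14))))), (.s
  k110 k157 12 (.s k127 k191 7 (.s k93 k76 4 (.s k174 k12 12 (.d k238 k221 k46 4 7))))), (.s k85
  k170 14 (.s k149 k213 7 (.s k110 k157 12 (.s k126 k94 3 (.d k189 k252 k169 8 5)))))] .n) (.c k78
  (.l (.s k70 k196 8 (.s k68 k136 9 (.s k85 k170 14 (.s k102 k119 4 (.s k153 k51 14 (.d k221 k238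
  k17 4 9))))))) .n))) (.c k200 (.l (.s k137 k141 1 (.s k68 k136 9 (.s k85 k170 14 (.s k149 k213 7
  (.s k102 k119 4 (.d k196 k70 k55 8 12))))))) .n))))) (.c k133 (.q k74 [(.s k68 k136 9 (.s k85 k170
  14 (.s k102 k119 4 (.s k221 k238 4 (.d k153 k17 k51 9 14))))), (.s k110 k157 12 (.s k127 k191 7
  (.s k93 k76 4 (.s k174 k12 12 (.d k238 k221 k46 4 7))))), (.s k68 k136 9 (.s k85 k170 14 (.s k149
  k213 7 (.s k157 k110 12 (.s k102 k119 4 (.d k153 k145 k51 1 14))))))] .n) .n))) (.c k74 (.q k133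
  [(.s k85 k170 14 (.s k196 k70 8 (.s k149 k213 7 (.s k102 k55 12 (.d k68 k119 k136 4 9))))), (.s
  k110 k157 12 (.s k127 k191 7 (.s k93 k76 4 (.s k174 k12 12 (.d k238 k221 k46 4 7)))))] (.c k66 (.q
  k129 [(.s k68 k136 9 (.s k85 k170 14 (.s k149 k213 7 (.s k102 k119 4 (.d k196 k70 k55 8 12))))),
  (.s k110 k157 12 (.s k127 k191 7 (.s k93 k76 4 (.s k174 k12 12 (.d k238 k221 k46 4 7)))))] (.c k70
  (.q k78 [(.s k68 k136 9 (.s k85 k170 14 (.s k102 k119 4 (.s k221 k238 4 (.d k153 k17 k51 9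
  14))))), (.s k110 k157 12 (.s k127 k191 7 (.s k93 k76 4 (.s k174 k12 12 (.d k238 k221 k46 4
  7))))), (.s k85 k170 14 (.s k149 k213 7 (.s k110 k157 12 (.s k126 k94 3 (.d k189 k252 k169 8
  5)))))] (.c k137 (.q k200 [(.s k68 k136 9 (.s k85 k170 14 (.s k102 k119 4 (.s k221 k238 4 (.d k153
  k17 k51 9 14))))), (.s k110 k157 12 (.s k127 k191 7 (.s k93 k76 4 (.s k174 k12 12 (.d k238 k221
  k46 4 7))))), (.s k85 k170 14 (.s k149 k213 7 (.s k110 k157 12 (.s k126 k94 3 (.d k189 k252 k169 8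
  5)))))] .n) (.c k200 (.l (.s k137 k141 1 (.s k68 k136 9 (.s k85 k170 14 (.s k102 k119 4 (.s k153
  k51 14 (.d k221 k238 k17 4 9))))))) .n))) (.c k78 (.l (.s k70 k196 8 (.s k68 k136 9 (.s k85 k170
  14 (.s k102 k119 4 (.s k153 k51 14 (.d k221 k238 k17 4 9))))))) (.c k137 (.q k200 [(.s k85 k170 14
  (.s k149 k213 7 (.s k157 k110 12 (.s k153 k145 1 (.d k221 k238 k17 4 9))))), (.s k110 k157 12 (.s
  k127 k191 7 (.s k93 k76 4 (.s k174 k12 12 (.d k238 k221 k46 4 7))))), (.s k68 k136 9 (.s k85 k170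
  14 (.s k149 k213 7 (.s k102 k119 4 (.d k196 k70 k55 8 12)))))] (.c k70 (.q k78 [(.s k68 k136 9 (.s
  k85 k170 14 (.s k102 k119 4 (.s k221 k238 4 (.d k153 k17 k51 9 14))))), (.s k110 k157 12 (.s k127
  k191 7 (.s k93 k76 4 (.s k174 k12 12 (.d k238 k221 k46 4 7))))), (.s k85 k170 14 (.s k149 k213 7
  (.s k110 k157 12 (.s k126 k94 3 (.d k189 k252 k169 8 5)))))] .n) (.c k78 (.l (.s k70 k196 8 (.s
  k68 k136 9 (.s k85 k170 14 (.s k102 k119 4 (.s k153 k51 14 (.d k221 k238 k17 4 9))))))) .n))) (.c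
  k200 (.l (.s k137 k141 1 (.s k68 k136 9 (.s k85 k170 14 (.s k149 k213 7 (.s k102 k119 4 (.d k196
  k70 k55 8 12))))))) .n))))) (.c k129 (.q k66 [(.s k85 k170 14 (.s k196 k70 8 (.s k149 k213 7 (.s
  k102 k55 12 (.d k68 k119 k136 4 9))))), (.s k110 k157 12 (.s k127 k191 7 (.s k93 k76 4 (.s k174
  k12 12 (.d k238 k221 k46 4 7)))))] (.c k137 (.q k200 [(.s k85 k170 14 (.s k196 k70 8 (.s k149 k213
  7 (.s k102 k55 12 (.d k68 k119 k136 4 9))))), (.s k110 k157 12 (.s k127 k191 7 (.s k93 k76 4 (.s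
  k174 k12 12 (.d k238 k221 k46 4 7)))))] .n) (.c k200 (.q k137 [(.s k68 k136 9 (.s k70 k196 8 (.s
  k69 k71 0 (.s k207 k138 10 (.d k205 k206 k1 0 9))))), (.s k85 k170 14 (.s k149 k213 7 (.s k157
  k110 12 (.s k153 k145 1 (.d k221 k238 k17 4 9)))))] .n) .n))) (.c k137 (.q k200 [(.s k85 k170 14
  (.s k196 k70 8 (.s k149 k213 7 (.s k102 k55 12 (.d k68 k119 k136 4 9))))), (.s k110 k157 12 (.s
  k127 k191 7 (.s k93 k76 4 (.s k174 k12 12 (.d k238 k221 k46 4 7)))))] (.c k66 (.q k129 [(.s k85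
  k170 14 (.s k149 k213 7 (.s k157 k110 12 (.s k153 k145 1 (.d k221 k238 k17 4 9))))), (.s k110 k157
  12 (.s k127 k191 7 (.s k93 k76 4 (.s k174 k12 12 (.d k238 k221 k46 4 7))))), (.s k68 k136 9 (.s
  k85 k170 14 (.s k149 k213 7 (.s k102 k119 4 (.d k196 k70 k55 8 12)))))] (.c k70 (.q k78 [(.s k68
  k136 9 (.s k85 k170 14 (.s k102 k119 4 (.s k221 k238 4 (.d k153 k17 k51 9 14))))), (.s k110 k157
  12 (.s k127 k191 7 (.s k93 k76 4 (.s k174 k12 12 (.d k238 k221 k46 4 7))))), (.s k85 k170 14 (.s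
  k149 k213 7 (.s k110 k157 12 (.s k126 k94 3 (.d k189 k252 k169 8 5)))))] .n) (.c k78 (.l (.s k70
  k196 8 (.s k68 k136 9 (.s k85 k170 14 (.s k102 k119 4 (.s k153 k51 14 (.d k221 k238 k17 4 9)))))))
  .n))) (.c k129 (.q k66 [(.s k85 k170 14 (.s k196 k70 8 (.s k149 k213 7 (.s k102 k55 12 (.d k68
  k119 k136 4 9))))), (.s k110 k157 12 (.s k127 k191 7 (.s k93 k76 4 (.s k174 k12 12 (.d k238 k221
  k46 4 7)))))] .n) .n))) (.c k200 (.q k137 [(.s k136 k68 9 (.s k170 k85 14 (.s k191 k127 7 (.s k128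
  k149 6 (.d k138 k139 k143 0 2))))), (.s k85 k170 14 (.s k149 k213 7 (.s k157 k110 12 (.s k153 k145
  1 (.d k221 k238 k17 4 9))))), (.s k68 k136 9 (.s k70 k196 8 (.s k69 k71 0 (.s k207 k138 10 (.d
  k205 k206 k1 0 9)))))] (.c k66 (.l (.s k129 k141 1 (.s k68 k136 9 (.s k85 k170 14 (.s k149 k213 7
  (.s k102 k119 4 (.d k196 k70 k55 8 12))))))) (.c k129 (.q k66 [(.s k68 k136 9 (.s k70 k196 8 (.s
  k69 k71 0 (.s k207 k138 10 (.d k205 k206 k1 0 9))))), (.s k85 k170 14 (.s k149 k213 7 (.s k157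
  k110 12 (.s k153 k145 1 (.d k221 k238 k17 4 9)))))] .n) .n))) .n))))) (.c k129 (.q k66 [(.s k68
  k136 9 (.s k85 k170 14 (.s k102 k119 4 (.s k221 k238 4 (.d k153 k17 k51 9 14))))), (.s k110 k157
  12 (.s k127 k191 7 (.s k93 k76 4 (.s k174 k12 12 (.d k238 k221 k46 4 7))))), (.s k68 k136 9 (.s
  k85 k170 14 (.s k149 k213 7 (.s k157 k110 12 (.s k102 k119 4 (.d k153 k145 k51 1 14))))))] (.c k74
  (.q k133 [(.s k85 k170 14 (.s k196 k70 8 (.s k149 k213 7 (.s k102 k55 12 (.d k68 k119 k136 4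
  9))))), (.s k110 k157 12 (.s k127 k191 7 (.s k93 k76 4 (.s k174 k12 12 (.d k238 k221 k46 4 7)))))]
  (.c k137 (.q k200 [(.s k85 k170 14 (.s k196 k70 8 (.s k149 k213 7 (.s k102 k55 12 (.d k68 k119
  k136 4 9))))), (.s k110 k157 12 (.s k127 k191 7 (.s k93 k76 4 (.s k174 k12 12 (.d k238 k221 k46 4
  7)))))] .n) (.c k200 (.q k137 [(.s k68 k136 9 (.s k70 k196 8 (.s k69 k71 0 (.s k207 k138 10 (.d
  k205 k206 k1 0 9))))), (.s k85 k170 14 (.s k149 k213 7 (.s k157 k110 12 (.s k153 k145 1 (.d k221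
  k238 k17 4 9)))))] .n) .n))) (.c k133 (.q k74 [(.s k68 k136 9 (.s k85 k170 14 (.s k102 k119 4 (.s
  k221 k238 4 (.d k153 k17 k51 9 14))))), (.s k110 k157 12 (.s k127 k191 7 (.s k93 k76 4 (.s k174
  k12 12 (.d k238 k221 k46 4 7))))), (.s k68 k136 9 (.s k85 k170 14 (.s k149 k213 7 (.s k157 k110 12
  (.s k102 k119 4 (.d k153 k145 k51 1 14))))))] (.c k137 (.q k141 [(.s k136 k68 9 (.s k238 k221 4
  (.s k170 k85 14 (.s k102 k34 9 (.d k153 k187 k51 4 14))))), (.s k110 k157 12 (.s k127 k191 7 (.s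
  k93 k76 4 (.s k174 k12 12 (.d k238 k221 k46 4 7))))), (.s k68 k136 9 (.s k85 k170 14 (.s k149 k213
  7 (.s k157 k110 12 (.s k102 k119 4 (.d k153 k145 k51 1 14))))))] .n) (.c k141 (.q k137 [(.s k68
  k136 9 (.s k70 k78 1 (.s k69 k71 0 (.s k207 k138 10 (.d k205 k206 k1 0 9))))), (.s k85 k170 14 (.s
  k149 k213 7 (.s k157 k110 12 (.s k153 k145 1 (.d k221 k238 k17 4 9)))))] .n) .n))) .n))) (.c k133
  (.q k74 [(.s k68 k136 9 (.s k85 k170 14 (.s k102 k119 4 (.s k221 k238 4 (.d k153 k17 k51 9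
  14))))), (.s k110 k157 12 (.s k127 k191 7 (.s k93 k76 4 (.s k174 k12 12 (.d k238 k221 k46 4
  7))))), (.s k68 k136 9 (.s k85 k170 14 (.s k149 k213 7 (.s k157 k110 12 (.s k102 k119 4 (.d k153
  k145 k51 1 14))))))] (.c k66 (.q k129 [(.s k68 k136 9 (.s k85 k170 14 (.s k102 k119 4 (.s k221
  k238 4 (.d k153 k17 k51 9 14))))), (.s k110 k157 12 (.s k127 k191 7 (.s k93 k76 4 (.s k174 k12 12
  (.d k238 k221 k46 4 7))))), (.s k68 k136 9 (.s k85 k170 14 (.s k149 k213 7 (.s k157 k110 12 (.s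
  k102 k119 4 (.d k153 k145 k51 1 14))))))] .n) (.c k129 (.q k66 [(.s k68 k136 9 (.s k85 k170 14 (.s
  k102 k119 4 (.s k221 k238 4 (.d k153 k17 k51 9 14))))), (.s k110 k157 12 (.s k127 k191 7 (.s k93
  k76 4 (.s k174 k12 12 (.d k238 k221 k46 4 7))))), (.s k68 k136 9 (.s k85 k170 14 (.s k149 k213 7
  (.s k157 k110 12 (.s k102 k119 4 (.d k153 k145 k51 1 14))))))] (.c k137 (.q k141 [(.s k136 k68 9
  (.s k238 k221 4 (.s k170 k85 14 (.s k102 k34 9 (.d k153 k187 k51 4 14))))), (.s k110 k157 12 (.s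
  k127 k191 7 (.s k93 k76 4 (.s k174 k12 12 (.d k238 k221 k46 4 7))))), (.s k68 k136 9 (.s k85 k170
  14 (.s k149 k213 7 (.s k157 k110 12 (.s k102 k119 4 (.d k153 k145 k51 1 14))))))] .n) (.c k141 (.q
  k137 [(.s k68 k136 9 (.s k70 k78 1 (.s k69 k71 0 (.s k207 k138 10 (.d k205 k206 k1 0 9))))), (.s
  k85 k170 14 (.s k149 k213 7 (.s k157 k110 12 (.s k153 k145 1 (.d k221 k238 k17 4 9)))))] .n) .n)))
  .n))) .n)))))) (.c k213 (.l (.s k42 k21 6 (.s k191 k127 7 (.s k170 k85 14 (.s k149 k128 6 (.d k106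
  k234 k192 7 14)))))) (.c k234 (.l (.s k21 k42 6 (.s k127 k191 7 (.s k85 k170 14 (.s k106 k64 6 (.d
  k149 k213 k192 7 14)))))) .n))))))))))))) (.c k21 (.q k12 [(.s k4 k8 1 (.s k85 k170 14 (.s k166
  k247 12 (.s k93 k174 12 (.d k89 k81 k243 1 14))))), (.s k29 k46 4 (.s k93 k174 12 (.s k157 k221 7
  (.s k110 k204 12 (.d k127 k76 k191 4 7))))), (.s k4 k8 1 (.s k85 k170 14 (.s k166 k247 12 (.s k46
  k29 4 (.s k106 k226 9 (.d k127 k64 k191 6 7))))))] (.c k7 (.q k11 [(.s k4 k8 1 (.s k85 k170 14 (.s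
  k93 k174 12 (.s k89 k81 1 (.d k166 k247 k243 12 14))))), (.s k29 k46 4 (.s k93 k174 12 (.s k157
  k221 7 (.s k110 k204 12 (.d k127 k76 k191 4 7))))), (.s k4 k8 1 (.s k85 k170 14 (.s k166 k247 12
  (.s k46 k29 4 (.s k106 k226 9 (.d k127 k64 k191 6 7))))))] .n) (.c k11 (.q k7 [(.s k4 k8 1 (.s k85
  k170 14 (.s k166 k247 12 (.s k93 k174 12 (.d k89 k81 k243 1 14))))), (.s k29 k46 4 (.s k93 k174 12
  (.s k157 k221 7 (.s k110 k204 12 (.d k127 k76 k191 4 7))))), (.s k4 k8 1 (.s k85 k170 14 (.s k166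
  k247 12 (.s k46 k29 4 (.s k106 k226 9 (.d k127 k64 k191 6 7))))))] .n) .n))) (.c k42 (.q k12 [(.s
  k8 k4 1 (.s k174 k93 12 (.s k170 k85 14 (.s k166 k162 1 (.d k89 k251 k243 12 14))))), (.s k29 k46
  4 (.s k93 k174 12 (.s k157 k221 7 (.s k110 k204 12 (.d k127 k76 k191 4 7))))), (.s k4 k8 1 (.s k85
  k170 14 (.s k166 k247 12 (.s k46 k29 4 (.s k106 k226 9 (.d k127 k64 k191 6 7))))))] (.c k7 (.q k11
  [(.s k8 k4 1 (.s k174 k93 12 (.s k170 k85 14 (.s k166 k162 1 (.d k89 k251 k243 12 14))))), (.s k29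
  k46 4 (.s k93 k174 12 (.s k157 k221 7 (.s k110 k204 12 (.d k127 k76 k191 4 7))))), (.s k4 k8 1 (.s
  k85 k170 14 (.s k166 k247 12 (.s k46 k29 4 (.s k106 k226 9 (.d k127 k64 k191 6 7))))))] .n) (.c
  k11 (.q k7 [(.s k8 k4 1 (.s k174 k93 12 (.s k170 k85 14 (.s k166 k162 1 (.d k89 k251 k243 12
  14))))), (.s k29 k46 4 (.s k93 k174 12 (.s k157 k221 7 (.s k110 k204 12 (.d k127 k76 k191 4
  7))))), (.s k4 k8 1 (.s k85 k170 14 (.s k166 k247 12 (.s k46 k29 4 (.s k106 k226 9 (.d k127 k64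
  k191 6 7))))))] .n) .n))) (.c k64 (.l (.s k42 k21 6 (.s k170 k85 14 (.s k106 k234 7 (.s k149 k192
  14 (.d k191 k127 k128 7 6)))))) (.c k85 (.q k12 [(.s k4 k8 1 (.s k21 k42 6 (.s k38 k55 4 (.s k29
  k46 4 (.d k25 k17 k51 1 6))))), (.s k29 k46 4 (.s k93 k174 12 (.s k157 k221 7 (.s k110 k204 12 (.d
  k127 k76 k191 4 7)))))] (.c k7 (.q k11 [(.s k4 k8 1 (.s k21 k42 6 (.s k38 k55 4 (.s k29 k46 4 (.d
  k25 k17 k51 1 6))))), (.s k29 k46 4 (.s k93 k174 12 (.s k157 k221 7 (.s k110 k204 12 (.d k127 k76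
  k191 4 7))))), (.s k8 k4 1 (.s k42 k21 6 (.s k9 k10 0 (.s k25 k59 4 (.s k41 k57 3 (.s k56 k26 4
  (.d k40 k43 k24 0 3)))))))] .n) (.c k11 (.q k7 [(.s k4 k8 1 (.s k21 k42 6 (.s k38 k55 4 (.s k29
  k46 4 (.d k25 k17 k51 1 6))))), (.s k29 k46 4 (.s k93 k174 12 (.s k157 k221 7 (.s k110 k204 12 (.d
  k127 k76 k191 4 7))))), (.s k4 k8 1 (.s k21 k42 6 (.s k5 k6 0 (.s k38 k55 4 (.s k37 k53 3 (.s k52
  k22 4 (.d k36 k39 k20 0 3)))))))] .n) (.c k17 (.l (.s k8 k4 1 (.s k42 k21 6 (.s k25 k59 4 (.s k38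
  k51 6 (.d k46 k29 k34 4 1)))))) (.c k29 (.f k8 k4 1 (.f k174 k93 12 (.l (.s k42 k21 6 (.s k25 k59
  4 (.s k38 k51 6 (.s k46 k34 1 (.s k110 k238 7 (.s k157 k204 12 (.d k191 k140 k127 4 7))))))))))
  (.c k46 (.f k93 k174 12 (.f k21 k42 6 (.l (.s k4 k8 1 (.s k38 k55 4 (.s k25 k51 6 (.s k29 k17 1
  (.s k127 k191 7 (.s k110 k76 4 (.d k157 k221 k204 7 12)))))))))) .n)))))) (.c k106 (.q k12 [(.s k4
  k8 1 (.s k21 k42 6 (.s k38 k55 4 (.s k29 k46 4 (.d k25 k17 k51 1 6))))), (.s k29 k46 4 (.s k93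
  k174 12 (.s k157 k221 7 (.s k110 k204 12 (.d k127 k76 k191 4 7))))), (.s k4 k8 1 (.s k85 k170 14
  (.s k166 k247 12 (.s k89 k243 14 (.d k93 k81 k174 1 12)))))] (.c k7 (.q k11 [(.s k4 k8 1 (.s k21
  k42 6 (.s k29 k46 4 (.s k25 k17 1 (.d k38 k55 k51 4 6))))), (.s k29 k46 4 (.s k93 k174 12 (.s k157
  k221 7 (.s k110 k204 12 (.d k127 k76 k191 4 7))))), (.s k4 k8 1 (.s k85 k170 14 (.s k166 k247 12
  (.s k89 k243 14 (.d k93 k81 k174 1 12)))))] (.c k166 (.l (.s k4 k8 1 (.s k21 k42 6 (.s k38 k55 4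
  (.s k25 k51 6 (.d k29 k17 k46 1 4)))))) .n)) (.c k11 (.q k7 [(.s k29 k46 4 (.s k93 k174 12 (.s
  k157 k221 7 (.s k110 k204 12 (.d k127 k76 k191 4 7))))), (.s k4 k8 1 (.s k21 k42 6 (.s k38 k55 4
  (.s k25 k51 6 (.d k29 k17 k46 1 4))))), (.s k4 k8 1 (.s k85 k170 14 (.s k166 k247 12 (.s k89 k243
  14 (.d k93 k81 k174 1 12)))))] .n) (.c k166 (.l (.s k4 k8 1 (.s k21 k42 6 (.s k38 k55 4 (.s k25
  k51 6 (.d k29 k17 k46 1 4)))))) .n)))) (.c k127 (.q k12 [(.s k4 k8 1 (.s k21 k42 6 (.s k38 k55 4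
  (.s k29 k46 4 (.d k25 k17 k51 1 6))))), (.s k4 k8 1 (.s k85 k170 14 (.s k166 k247 12 (.s k89 k243
  14 (.d k93 k81 k174 1 12))))), (.s k21 k42 6 (.s k85 k170 14 (.s k29 k46 4 (.s k93 k174 12 (.s
  k149 k213 7 (.d k89 k81 k209 1 9))))))] (.c k7 (.q k11 [(.s k4 k8 1 (.s k21 k42 6 (.s k29 k46 4
  (.s k25 k17 1 (.d k38 k55 k51 4 6))))), (.s k4 k8 1 (.s k85 k170 14 (.s k166 k247 12 (.s k89 k243
  14 (.d k93 k81 k174 1 12))))), (.s k21 k42 6 (.s k85 k170 14 (.s k29 k46 4 (.s k93 k174 12 (.s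
  k149 k213 7 (.d k89 k81 k209 1 9))))))] .n) (.c k11 (.q k7 [(.s k4 k8 1 (.s k21 k42 6 (.s k38 k55
  4 (.s k29 k46 4 (.d k25 k17 k51 1 6))))), (.s k4 k8 1 (.s k85 k170 14 (.s k166 k247 12 (.s k89
  k243 14 (.d k93 k81 k174 1 12))))), (.s k21 k42 6 (.s k85 k170 14 (.s k29 k46 4 (.s k93 k174 12
  (.s k149 k213 7 (.d k89 k81 k209 1 9))))))] .n) .n))) (.c k149 (.q k12 [(.s k4 k8 1 (.s k21 k42 6
  (.s k29 k46 4 (.s k25 k17 1 (.d k38 k55 k51 4 6))))), (.s k29 k46 4 (.s k93 k174 12 (.s k157 k221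
  7 (.s k110 k204 12 (.d k127 k76 k191 4 7))))), (.s k4 k8 1 (.s k85 k170 14 (.s k166 k247 12 (.s
  k89 k243 14 (.d k93 k81 k174 1 12)))))] (.c k7 (.q k11 [(.s k4 k8 1 (.s k21 k42 6 (.s k29 k46 4
  (.s k25 k17 1 (.d k38 k55 k51 4 6))))), (.s k29 k46 4 (.s k93 k174 12 (.s k157 k221 7 (.s k110
  k204 12 (.d k127 k76 k191 4 7))))), (.s k4 k8 1 (.s k85 k170 14 (.s k166 k247 12 (.s k89 k243 14
  (.d k93 k81 k174 1 12)))))] .n) (.c k11 (.q k7 [(.s k4 k8 1 (.s k21 k42 6 (.s k29 k46 4 (.s k25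
  k17 1 (.d k38 k55 k51 4 6))))), (.s k29 k46 4 (.s k93 k174 12 (.s k157 k221 7 (.s k110 k204 12 (.d
  k127 k76 k191 4 7))))), (.s k4 k8 1 (.s k85 k170 14 (.s k166 k247 12 (.s k89 k243 14 (.d k93 k81
  k174 1 12)))))] .n) .n))) (.c k170 (.q k12 [(.s k8 k4 1 (.s k46 k29 4 (.s k42 k21 6 (.s k38 k34 1
  (.d k25 k59 k51 4 6))))), (.s k29 k46 4 (.s k93 k174 12 (.s k157 k221 7 (.s k110 k204 12 (.d k127
  k76 k191 4 7)))))] (.c k7 (.q k11 [(.s k4 k8 1 (.s k21 k42 6 (.s k29 k46 4 (.s k25 k17 1 (.d k38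
  k55 k51 4 6))))), (.s k29 k46 4 (.s k93 k174 12 (.s k157 k221 7 (.s k110 k204 12 (.d k127 k76 k191
  4 7))))), (.s k8 k4 1 (.s k42 k21 6 (.s k9 k10 0 (.s k25 k59 4 (.s k41 k57 3 (.s k56 k26 4 (.d k40
  k43 k24 0 3)))))))] .n) (.c k11 (.q k7 [(.s k8 k4 1 (.s k46 k29 4 (.s k42 k21 6 (.s k38 k34 1 (.d
  k25 k59 k51 4 6))))), (.s k29 k46 4 (.s k93 k174 12 (.s k157 k221 7 (.s k110 k204 12 (.d k127 k76
  k191 4 7))))), (.s k4 k8 1 (.s k21 k42 6 (.s k5 k6 0 (.s k38 k55 4 (.s k37 k53 3 (.s k52 k22 4 (.d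
  k36 k39 k20 0 3)))))))] .n) (.c k29 (.f k174 k93 12 (.q k204 [(.s k140 k76 7 (.d k157 k110 k191 12
  4)), (.s k8 k4 1 (.s k42 k21 6 (.s k25 k59 4 (.s k38 k51 6 (.s k46 k34 1 (.d k110 k238 k157 7
  12))))))] (.c k7 (.q k11 [(.s k140 k76 7 (.d k157 k110 k191 12 4)), (.s k8 k4 1 (.s k42 k21 6 (.s
  k25 k59 4 (.s k38 k51 6 (.s k46 k34 1 (.d k110 k238 k157 7 12))))))] (.c k110 (.l (.s k4 k8 1 (.s
  k68 k136 9 (.s k132 k196 7 (.s k72 k192 9 (.d k76 k64 k140 1 7)))))) (.c k157 (.l (.s k221 k238 4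
  (.s k4 k8 1 (.s k68 k136 9 (.s k132 k196 7 (.s k72 k192 9 (.d k76 k64 k140 1 7))))))) (.c k221 (.l
  (.s k157 k110 12 (.d k140 k76 k191 7 4))) .n)))) (.c k11 (.q k7 [(.s k140 k76 7 (.d k157 k110 k191
  12 4)), (.s k8 k4 1 (.s k42 k21 6 (.s k25 k59 4 (.s k38 k51 6 (.s k46 k34 1 (.d k110 k238 k157 7
  12))))))] (.c k110 (.l (.s k4 k8 1 (.s k68 k136 9 (.s k132 k196 7 (.s k72 k192 9 (.d k76 k64 k140
  1 7)))))) (.c k157 (.l (.s k221 k238 4 (.s k4 k8 1 (.s k68 k136 9 (.s k132 k196 7 (.s k72 k192 9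
  (.d k76 k64 k140 1 7))))))) (.c k221 (.l (.s k157 k110 12 (.d k140 k76 k191 7 4))) .n)))) (.c k110
  (.l (.s k4 k8 1 (.s k68 k136 9 (.s k132 k196 7 (.s k72 k192 9 (.d k76 k64 k140 1 7)))))) (.c k157
  (.l (.s k221 k238 4 (.s k4 k8 1 (.s k68 k136 9 (.s k132 k196 7 (.s k72 k192 9 (.d k76 k64 k140 1
  7))))))) (.c k221 (.l (.s k157 k110 12 (.d k140 k76 k191 7 4))) .n))))))) (.c k46 (.f k174 k93 12
  (.q k204 [(.s k140 k76 7 (.d k157 k110 k191 12 4)), (.s k8 k4 1 (.s k42 k21 6 (.s k136 k68 9 (.s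
  k59 k25 4 (.s k200 k72 7 (.s k106 k153 12 (.d k192 k196 k149 1 14)))))))] (.c k7 (.q k11 [(.s k140
  k76 7 (.d k157 k110 k191 12 4)), (.s k8 k4 1 (.s k42 k21 6 (.s k136 k68 9 (.s k59 k25 4 (.s k200
  k72 7 (.s k106 k153 12 (.d k192 k196 k149 1 14)))))))] (.c k76 (.l (.s k8 k4 1 (.s k136 k68 9 (.s
  k72 k200 7 (.s k132 k192 9 (.s k140 k128 1 (.d k157 k191 k110 4 12))))))) .n)) (.c k11 (.q k7 [(.s
  k140 k76 7 (.d k157 k110 k191 12 4)), (.s k4 k8 1 (.s k21 k42 6 (.s k5 k6 0 (.s k38 k55 4 (.s k37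
  k53 3 (.s k52 k22 4 (.d k36 k39 k20 0 3)))))))] .n) (.c k76 (.l (.s k8 k4 1 (.s k136 k68 9 (.s k72
  k200 7 (.s k132 k192 9 (.s k140 k128 1 (.d k157 k191 k110 4 12))))))) .n))))) (.c k238 (.l (.s k4
  k8 1 (.s k21 k42 6 (.s k38 k55 4 (.s k25 k51 6 (.d k29 k17 k46 1 4)))))) .n)))))) (.c k191 (.q k12
  [(.s k4 k8 1 (.s k21 k42 6 (.s k38 k55 4 (.s k29 k46 4 (.d k25 k17 k51 1 6))))), (.s k4 k8 1 (.s
  k85 k170 14 (.s k166 k247 12 (.s k89 k243 14 (.d k93 k81 k174 1 12))))), (.s k21 k42 6 (.s k85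
  k170 14 (.s k29 k46 4 (.s k93 k174 12 (.s k149 k213 7 (.d k89 k81 k209 1 9))))))] (.c k7 (.q k11
  [(.s k4 k8 1 (.s k21 k42 6 (.s k29 k46 4 (.s k25 k17 1 (.d k38 k55 k51 4 6))))), (.s k4 k8 1 (.s
  k85 k170 14 (.s k166 k247 12 (.s k89 k243 14 (.d k93 k81 k174 1 12))))), (.s k21 k42 6 (.s k85
  k170 14 (.s k29 k46 4 (.s k93 k174 12 (.s k149 k213 7 (.d k89 k81 k209 1 9))))))] .n) (.c k11 (.q
  k7 [(.s k4 k8 1 (.s k21 k42 6 (.s k38 k55 4 (.s k29 k46 4 (.d k25 k17 k51 1 6))))), (.s k4 k8 1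
  (.s k85 k170 14 (.s k166 k247 12 (.s k89 k243 14 (.d k93 k81 k174 1 12))))), (.s k21 k42 6 (.s k85
  k170 14 (.s k29 k46 4 (.s k93 k174 12 (.s k149 k213 7 (.d k89 k81 k209 1 9))))))] .n) .n))) (.c
  k192 (.f k21 k42 6 (.q k204 [(.s k68 k136 9 (.s k85 k170 14 (.s k102 k119 4 (.s k221 k238 4 (.d
  k153 k17 k51 9 14))))), (.s k110 k157 12 (.s k127 k191 7 (.s k93 k76 4 (.s k174 k12 12 (.d k238
  k221 k46 4 7))))), (.s k68 k136 9 (.s k85 k170 14 (.s k149 k213 7 (.s k157 k110 12 (.s k102 k119 4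
  (.d k153 k145 k51 1 14))))))] (.c k7 (.q k11 [(.s k68 k136 9 (.s k85 k170 14 (.s k102 k119 4 (.s
  k221 k238 4 (.d k153 k17 k51 9 14))))), (.s k110 k157 12 (.s k127 k191 7 (.s k93 k76 4 (.s k174
  k12 12 (.d k238 k221 k46 4 7))))), (.s k68 k136 9 (.s k85 k170 14 (.s k149 k213 7 (.s k157 k110 12
  (.s k102 k119 4 (.d k153 k145 k51 1 14))))))] (.c k66 (.q k129 [(.s k68 k136 9 (.s k85 k170 14 (.s
  k102 k119 4 (.s k221 k238 4 (.d k153 k17 k51 9 14))))), (.s k110 k157 12 (.s k127 k191 7 (.s k93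
  k76 4 (.s k174 k12 12 (.d k238 k221 k46 4 7))))), (.s k68 k136 9 (.s k85 k170 14 (.s k149 k213 7
  (.s k157 k110 12 (.s k102 k119 4 (.d k153 k145 k51 1 14))))))] (.c k74 (.q k133 [(.s k85 k170 14
  (.s k149 k213 7 (.s k157 k110 12 (.s k141 k137 1 (.d k189 k173 k169 3 5))))), (.s k136 k68 9 (.s
  k170 k85 14 (.s k153 k187 4 (.s k102 k51 14 (.d k238 k221 k34 4 9))))), (.s k110 k157 12 (.s k127
  k191 7 (.s k93 k76 4 (.s k174 k12 12 (.d k238 k221 k46 4 7)))))] (.c k70 (.q k78 [(.s k68 k136 9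
  (.s k85 k170 14 (.s k102 k119 4 (.s k221 k238 4 (.d k153 k17 k51 9 14))))), (.s k110 k157 12 (.s
  k127 k191 7 (.s k93 k76 4 (.s k174 k12 12 (.d k238 k221 k46 4 7))))), (.s k85 k170 14 (.s k149
  k213 7 (.s k110 k157 12 (.s k126 k94 3 (.d k189 k252 k169 8 5)))))] .n) (.c k78 (.q k70 [(.s k68
  k136 9 (.s k85 k170 14 (.s k102 k119 4 (.s k221 k238 4 (.d k153 k17 k51 9 14))))), (.s k68 k136 9
  (.s k69 k71 0 (.s k207 k138 10 (.s k137 k141 1 (.d k205 k206 k1 0 9))))), (.s k85 k170 14 (.s k149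
  k213 7 (.s k157 k110 12 (.s k141 k137 1 (.d k189 k173 k169 3 5)))))] .n) .n))) (.c k133 (.q k74
  [(.s k68 k136 9 (.s k85 k170 14 (.s k102 k119 4 (.s k221 k238 4 (.d k153 k17 k51 9 14))))), (.s
  k110 k157 12 (.s k127 k191 7 (.s k93 k76 4 (.s k174 k12 12 (.d k238 k221 k46 4 7))))), (.s k68
  k136 9 (.s k85 k170 14 (.s k149 k213 7 (.s k157 k110 12 (.s k102 k119 4 (.d k153 k145 k51 1
  14))))))] (.c k70 (.q k196 [(.s k68 k136 9 (.s k85 k170 14 (.s k149 k213 7 (.d k102 k119 k55 4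
  12)))), (.s k68 k136 9 (.s k4 k132 7 (.s k55 k38 4 (.s k51 k59 1 (.d k102 k149 k153 12 14))))),
  (.s k68 k136 9 (.s k85 k170 14 (.s k4 k132 7 (.s k247 k166 12 (.d k213 k149 k230 7 4))))), (.s k85
  k170 14 (.s k149 k213 7 (.s k102 k55 12 (.s k153 k51 14 (.d k157 k145 k110 1 12)))))] (.c k149 (.l
  (.s k68 k136 9 (.s k85 k170 14 (.s k102 k119 4 (.s k153 k51 14 (.d k221 k238 k17 4 9)))))) (.c
  k153 (.l (.s k85 k170 14 (.s k149 k213 7 (.s k102 k55 12 (.d k68 k136 k119 9 4))))) .n))) (.c k196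
  (.q k70 [(.s k85 k170 14 (.s k149 k213 7 (.s k157 k110 12 (.s k153 k145 1 (.d k221 k238 k17 4
  9))))), (.s k68 k136 9 (.s k137 k200 8 (.s k69 k71 0 (.s k207 k138 10 (.d k205 k206 k1 0 9)))))]
  .n) .n))) .n))) (.c k74 (.q k133 [(.s k68 k136 9 (.s k85 k170 14 (.s k102 k119 4 (.s k221 k238 4
  (.d k153 k17 k51 9 14))))), (.s k110 k157 12 (.s k127 k191 7 (.s k93 k76 4 (.s k174 k12 12 (.d
  k238 k221 k46 4 7))))), (.s k68 k136 9 (.s k85 k170 14 (.s k149 k213 7 (.s k157 k110 12 (.s k102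
  k119 4 (.d k153 k145 k51 1 14))))))] (.c k66 (.q k129 [(.s k85 k170 14 (.s k149 k213 7 (.s k157
  k110 12 (.s k141 k137 1 (.d k189 k173 k169 3 5))))), (.s k136 k68 9 (.s k170 k85 14 (.s k153 k187
  4 (.s k102 k51 14 (.d k238 k221 k34 4 9))))), (.s k110 k157 12 (.s k127 k191 7 (.s k93 k76 4 (.s
  k174 k12 12 (.d k238 k221 k46 4 7)))))] (.c k70 (.q k78 [(.s k68 k136 9 (.s k85 k170 14 (.s k102
  k119 4 (.s k221 k238 4 (.d k153 k17 k51 9 14))))), (.s k110 k157 12 (.s k127 k191 7 (.s k93 k76 4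
  (.s k174 k12 12 (.d k238 k221 k46 4 7))))), (.s k85 k170 14 (.s k149 k213 7 (.s k110 k157 12 (.s
  k126 k94 3 (.d k189 k252 k169 8 5)))))] .n) (.c k78 (.q k70 [(.s k68 k136 9 (.s k85 k170 14 (.s
  k102 k119 4 (.s k221 k238 4 (.d k153 k17 k51 9 14))))), (.s k68 k136 9 (.s k69 k71 0 (.s k207 k138
  10 (.s k137 k141 1 (.d k205 k206 k1 0 9))))), (.s k85 k170 14 (.s k149 k213 7 (.s k157 k110 12 (.s
  k141 k137 1 (.d k189 k173 k169 3 5)))))] .n) .n))) (.c k129 (.q k66 [(.s k68 k136 9 (.s k85 k170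
  14 (.s k102 k119 4 (.s k221 k238 4 (.d k153 k17 k51 9 14))))), (.s k110 k157 12 (.s k127 k191 7
  (.s k93 k76 4 (.s k174 k12 12 (.d k238 k221 k46 4 7))))), (.s k68 k136 9 (.s k85 k170 14 (.s k149
  k213 7 (.s k157 k110 12 (.s k102 k119 4 (.d k153 k145 k51 1 14))))))] .n) .n))) (.c k129 (.q k66
  [(.s k68 k136 9 (.s k85 k170 14 (.s k102 k119 4 (.s k221 k238 4 (.d k153 k17 k51 9 14))))), (.s
  k110 k157 12 (.s k127 k191 7 (.s k93 k76 4 (.s k174 k12 12 (.d k238 k221 k46 4 7))))), (.s k68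
  k136 9 (.s k85 k170 14 (.s k149 k213 7 (.s k157 k110 12 (.s k102 k119 4 (.d k153 k145 k51 1
  14))))))] (.c k74 (.q k133 [(.s k68 k136 9 (.s k85 k170 14 (.s k102 k119 4 (.s k221 k238 4 (.d
  k153 k17 k51 9 14))))), (.s k110 k157 12 (.s k127 k191 7 (.s k93 k76 4 (.s k174 k12 12 (.d k238
  k221 k46 4 7))))), (.s k68 k136 9 (.s k85 k170 14 (.s k149 k213 7 (.s k157 k110 12 (.s k102 k119 4
  (.d k153 k145 k51 1 14))))))] .n) (.c k133 (.q k74 [(.s k68 k136 9 (.s k85 k170 14 (.s k102 k119 4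
  (.s k221 k238 4 (.d k153 k17 k51 9 14))))), (.s k110 k157 12 (.s k127 k191 7 (.s k93 k76 4 (.s
  k174 k12 12 (.d k238 k221 k46 4 7))))), (.s k70 k78 1 (.s k68 k136 9 (.s k85 k170 14 (.s k127 k191
  7 (.s k69 k71 0 (.d k64 k106 k79 6 2))))))] (.c k70 (.q k196 [(.s k68 k136 9 (.s k85 k170 14 (.s
  k149 k213 7 (.d k102 k119 k55 4 12)))), (.s k68 k136 9 (.s k4 k132 7 (.s k55 k38 4 (.s k51 k59 1
  (.d k102 k149 k153 12 14))))), (.s k68 k136 9 (.s k85 k170 14 (.s k4 k132 7 (.s k247 k166 12 (.d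
  k213 k149 k230 7 4))))), (.s k85 k170 14 (.s k149 k213 7 (.s k102 k55 12 (.s k153 k51 14 (.d k157
  k145 k110 1 12)))))] (.c k137 (.q k141 [(.s k85 k170 14 (.s k149 k213 7 (.s k102 k55 12 (.d k68
  k119 k136 4 9)))), (.s k68 k136 9 (.s k4 k132 7 (.s k55 k38 4 (.s k51 k59 1 (.d k102 k149 k153 12
  14))))), (.s k68 k136 9 (.s k85 k170 14 (.s k4 k132 7 (.s k247 k166 12 (.d k213 k149 k230 7
  4))))), (.s k85 k170 14 (.s k149 k213 7 (.s k102 k55 12 (.s k153 k51 14 (.d k157 k145 k110 1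
  12)))))] (.c k149 (.l (.s k68 k136 9 (.s k85 k170 14 (.s k102 k119 4 (.s k153 k51 14 (.d k221 k238
  k17 4 9)))))) .n)) (.c k141 (.l (.s k137 k200 8 (.s k68 k136 9 (.s k85 k170 14 (.s k149 k213 7 (.d
  k102 k119 k55 4 12)))))) (.c k149 (.l (.s k68 k136 9 (.s k85 k170 14 (.s k102 k119 4 (.s k153 k51
  14 (.d k221 k238 k17 4 9)))))) (.c k153 (.l (.s k85 k170 14 (.s k149 k213 7 (.s k102 k55 12 (.d
  k68 k136 k119 9 4))))) .n))))) (.c k137 (.q k141 [(.s k136 k68 9 (.s k238 k221 4 (.s k170 k85 14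
  (.s k102 k34 9 (.d k153 k187 k51 4 14))))), (.s k110 k157 12 (.s k127 k191 7 (.s k93 k76 4 (.s
  k174 k12 12 (.d k238 k221 k46 4 7))))), (.s k70 k78 1 (.s k68 k136 9 (.s k85 k170 14 (.s k127 k191
  7 (.s k69 k71 0 (.d k64 k106 k79 6 2))))))] (.c k70 (.q k196 [(.s k85 k170 14 (.s k149 k213 7 (.s
  k102 k55 12 (.d k68 k119 k136 4 9)))), (.s k68 k136 9 (.s k4 k132 7 (.s k55 k38 4 (.s k51 k59 1
  (.d k102 k149 k153 12 14))))), (.s k68 k136 9 (.s k85 k170 14 (.s k4 k132 7 (.s k247 k166 12 (.d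
  k213 k149 k230 7 4))))), (.s k85 k170 14 (.s k149 k213 7 (.s k102 k55 12 (.s k153 k51 14 (.d k157
  k145 k110 1 12)))))] (.c k149 (.l (.s k68 k136 9 (.s k85 k170 14 (.s k102 k119 4 (.s k153 k51 14
  (.d k221 k238 k17 4 9)))))) .n)) (.c k196 (.l (.s k70 k78 1 (.s k68 k136 9 (.s k85 k170 14 (.s
  k127 k191 7 (.s k69 k71 0 (.d k64 k106 k79 6 2))))))) .n))) (.c k141 (.l (.s k137 k200 8 (.s k68
  k136 9 (.s k85 k170 14 (.s k102 k119 4 (.s k153 k51 14 (.d k221 k238 k17 4 9))))))) (.c k196 (.l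
  (.s k70 k78 1 (.s k68 k136 9 (.s k85 k170 14 (.s k127 k191 7 (.s k69 k71 0 (.d k64 k106 k79 6
  2))))))) .n))))) .n))) (.c k133 (.q k74 [(.s k68 k136 9 (.s k85 k170 14 (.s k102 k119 4 (.s k221
  k238 4 (.d k153 k17 k51 9 14))))), (.s k110 k157 12 (.s k127 k191 7 (.s k93 k76 4 (.s k174 k12 12
  (.d k238 k221 k46 4 7))))), (.s k68 k136 9 (.s k85 k170 14 (.s k149 k213 7 (.s k157 k110 12 (.s
  k102 k119 4 (.d k153 k145 k51 1 14))))))] (.c k66 (.q k129 [(.s k68 k136 9 (.s k85 k170 14 (.s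
  k102 k119 4 (.s k221 k238 4 (.d k153 k17 k51 9 14))))), (.s k110 k157 12 (.s k127 k191 7 (.s k93
  k76 4 (.s k174 k12 12 (.d k238 k221 k46 4 7))))), (.s k68 k136 9 (.s k85 k170 14 (.s k149 k213 7
  (.s k157 k110 12 (.s k102 k119 4 (.d k153 k145 k51 1 14))))))] (.c k70 (.q k196 [(.s k68 k136 9
  (.s k85 k170 14 (.s k149 k213 7 (.d k102 k119 k55 4 12)))), (.s k68 k136 9 (.s k4 k132 7 (.s k55
  k38 4 (.s k51 k59 1 (.d k102 k149 k153 12 14))))), (.s k68 k136 9 (.s k85 k170 14 (.s k4 k132 7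
  (.s k247 k166 12 (.d k213 k149 k230 7 4))))), (.s k85 k170 14 (.s k149 k213 7 (.s k102 k55 12 (.s
  k153 k51 14 (.d k157 k145 k110 1 12)))))] (.c k149 (.l (.s k68 k136 9 (.s k85 k170 14 (.s k102
  k119 4 (.s k153 k51 14 (.d k221 k238 k17 4 9)))))) (.c k153 (.l (.s k85 k170 14 (.s k149 k213 7
  (.s k102 k55 12 (.d k68 k136 k119 9 4))))) .n))) (.c k196 (.q k70 [(.s k85 k170 14 (.s k149 k213 7
  (.s k157 k110 12 (.s k153 k145 1 (.d k221 k238 k17 4 9))))), (.s k68 k136 9 (.s k137 k200 8 (.s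
  k69 k71 0 (.s k207 k138 10 (.d k205 k206 k1 0 9)))))] .n) .n))) (.c k70 (.q k196 [(.s k68 k136 9
  (.s k85 k170 14 (.s k149 k213 7 (.d k102 k119 k55 4 12)))), (.s k68 k136 9 (.s k4 k132 7 (.s k55
  k38 4 (.s k51 k59 1 (.d k102 k149 k153 12 14))))), (.s k68 k136 9 (.s k85 k170 14 (.s k4 k132 7
  (.s k247 k166 12 (.d k213 k149 k230 7 4))))), (.s k85 k170 14 (.s k149 k213 7 (.s k102 k55 12 (.s
  k153 k51 14 (.d k157 k145 k110 1 12)))))] (.c k66 (.q k129 [(.s k68 k136 9 (.s k85 k170 14 (.s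
  k149 k213 7 (.d k102 k119 k55 4 12)))), (.s k68 k136 9 (.s k4 k132 7 (.s k55 k38 4 (.s k51 k59 1
  (.d k102 k149 k153 12 14))))), (.s k68 k136 9 (.s k85 k170 14 (.s k4 k132 7 (.s k247 k166 12 (.d
  k213 k149 k230 7 4))))), (.s k85 k170 14 (.s k149 k213 7 (.s k102 k55 12 (.s k153 k51 14 (.d k157
  k145 k110 1 12)))))] (.c k149 (.l (.s k68 k136 9 (.s k85 k170 14 (.s k102 k119 4 (.s k153 k51 14
  (.d k221 k238 k17 4 9)))))) (.c k153 (.l (.s k85 k170 14 (.s k149 k213 7 (.s k102 k55 12 (.d k68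
  k136 k119 9 4))))) .n))) (.c k129 (.q k66 [(.s k68 k136 9 (.s k85 k170 14 (.s k149 k213 7 (.d k102
  k119 k55 4 12)))), (.s k68 k136 9 (.s k4 k132 7 (.s k55 k38 4 (.s k51 k59 1 (.d k102 k149 k153 12
  14))))), (.s k68 k136 9 (.s k85 k170 14 (.s k4 k132 7 (.s k247 k166 12 (.d k213 k149 k230 7
  4))))), (.s k85 k170 14 (.s k149 k213 7 (.s k102 k55 12 (.s k153 k51 14 (.d k157 k145 k110 1
  12)))))] (.c k137 (.q k141 [(.s k85 k170 14 (.s k149 k213 7 (.s k102 k55 12 (.d k68 k119 k136 4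
  9)))), (.s k68 k136 9 (.s k4 k132 7 (.s k55 k38 4 (.s k51 k59 1 (.d k102 k149 k153 12 14))))), (.s
  k68 k136 9 (.s k85 k170 14 (.s k4 k132 7 (.s k247 k166 12 (.d k213 k149 k230 7 4))))), (.s k85
  k170 14 (.s k149 k213 7 (.s k102 k55 12 (.s k153 k51 14 (.d k157 k145 k110 1 12)))))] (.c k149 (.l
  (.s k68 k136 9 (.s k85 k170 14 (.s k102 k119 4 (.s k153 k51 14 (.d k221 k238 k17 4 9)))))) .n))
  (.c k141 (.l (.s k137 k200 8 (.s k68 k136 9 (.s k85 k170 14 (.s k149 k213 7 (.d k102 k119 k55 4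
  12)))))) (.c k149 (.l (.s k68 k136 9 (.s k85 k170 14 (.s k102 k119 4 (.s k153 k51 14 (.d k221 k238
  k17 4 9)))))) (.c k153 (.l (.s k85 k170 14 (.s k149 k213 7 (.s k102 k55 12 (.d k68 k136 k119 9
  4))))) .n))))) (.c k149 (.l (.s k68 k136 9 (.s k85 k170 14 (.s k102 k119 4 (.s k153 k51 14 (.d
  k221 k238 k17 4 9)))))) (.c k153 (.l (.s k85 k170 14 (.s k149 k213 7 (.s k102 k55 12 (.d k68 k136
  k119 9 4))))) .n))))) (.c k129 (.q k66 [(.s k68 k136 9 (.s k85 k170 14 (.s k102 k119 4 (.s k221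
  k238 4 (.d k153 k17 k51 9 14))))), (.s k110 k157 12 (.s k127 k191 7 (.s k93 k76 4 (.s k174 k12 12
  (.d k238 k221 k46 4 7))))), (.s k70 k78 1 (.s k68 k136 9 (.s k85 k170 14 (.s k127 k191 7 (.s k69
  k71 0 (.d k64 k106 k79 6 2))))))] (.c k70 (.q k196 [(.s k68 k136 9 (.s k85 k170 14 (.s k149 k213 7
  (.d k102 k119 k55 4 12)))), (.s k68 k136 9 (.s k4 k132 7 (.s k55 k38 4 (.s k51 k59 1 (.d k102 k149
  k153 12 14))))), (.s k68 k136 9 (.s k85 k170 14 (.s k4 k132 7 (.s k247 k166 12 (.d k213 k149 k230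
  7 4))))), (.s k85 k170 14 (.s k149 k213 7 (.s k102 k55 12 (.s k153 k51 14 (.d k157 k145 k110 1
  12)))))] (.c k137 (.q k141 [(.s k85 k170 14 (.s k149 k213 7 (.s k102 k55 12 (.d k68 k119 k136 4
  9)))), (.s k68 k136 9 (.s k4 k132 7 (.s k55 k38 4 (.s k51 k59 1 (.d k102 k149 k153 12 14))))), (.s
  k68 k136 9 (.s k85 k170 14 (.s k4 k132 7 (.s k247 k166 12 (.d k213 k149 k230 7 4))))), (.s k85
  k170 14 (.s k149 k213 7 (.s k102 k55 12 (.s k153 k51 14 (.d k157 k145 k110 1 12)))))] (.c k149 (.l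
  (.s k68 k136 9 (.s k85 k170 14 (.s k102 k119 4 (.s k153 k51 14 (.d k221 k238 k17 4 9)))))) .n))
  (.c k141 (.l (.s k137 k200 8 (.s k68 k136 9 (.s k85 k170 14 (.s k149 k213 7 (.d k102 k119 k55 4
  12)))))) (.c k149 (.l (.s k68 k136 9 (.s k85 k170 14 (.s k102 k119 4 (.s k153 k51 14 (.d k221 k238
  k17 4 9)))))) (.c k153 (.l (.s k85 k170 14 (.s k149 k213 7 (.s k102 k55 12 (.d k68 k136 k119 9
  4))))) .n))))) (.c k137 (.q k141 [(.s k136 k68 9 (.s k238 k221 4 (.s k170 k85 14 (.s k102 k34 9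
  (.d k153 k187 k51 4 14))))), (.s k110 k157 12 (.s k127 k191 7 (.s k93 k76 4 (.s k174 k12 12 (.d
  k238 k221 k46 4 7))))), (.s k70 k78 1 (.s k68 k136 9 (.s k85 k170 14 (.s k127 k191 7 (.s k69 k71 0
  (.d k64 k106 k79 6 2))))))] (.c k70 (.q k196 [(.s k85 k170 14 (.s k149 k213 7 (.s k102 k55 12 (.d
  k68 k119 k136 4 9)))), (.s k68 k136 9 (.s k4 k132 7 (.s k55 k38 4 (.s k51 k59 1 (.d k102 k149 k153
  12 14))))), (.s k68 k136 9 (.s k85 k170 14 (.s k4 k132 7 (.s k247 k166 12 (.d k213 k149 k230 7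
  4))))), (.s k85 k170 14 (.s k149 k213 7 (.s k102 k55 12 (.s k153 k51 14 (.d k157 k145 k110 1
  12)))))] (.c k149 (.l (.s k68 k136 9 (.s k85 k170 14 (.s k102 k119 4 (.s k153 k51 14 (.d k221 k238
  k17 4 9)))))) .n)) (.c k196 (.l (.s k70 k78 1 (.s k68 k136 9 (.s k85 k170 14 (.s k127 k191 7 (.s
  k69 k71 0 (.d k64 k106 k79 6 2))))))) .n))) (.c k141 (.l (.s k137 k200 8 (.s k68 k136 9 (.s k85
  k170 14 (.s k102 k119 4 (.s k153 k51 14 (.d k221 k238 k17 4 9))))))) (.c k196 (.l (.s k70 k78 1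
  (.s k68 k136 9 (.s k85 k170 14 (.s k127 k191 7 (.s k69 k71 0 (.d k64 k106 k79 6 2))))))) .n)))))
  (.c k196 (.q k70 [(.s k85 k170 14 (.s k149 k213 7 (.s k157 k110 12 (.s k153 k145 1 (.d k221 k238
  k17 4 9))))), (.s k68 k136 9 (.s k137 k200 8 (.s k69 k71 0 (.s k207 k138 10 (.d k205 k206 k1 0
  9)))))] (.c k66 (.q k129 [(.s k85 k170 14 (.s k149 k213 7 (.s k157 k110 12 (.s k153 k145 1 (.d
  k221 k238 k17 4 9))))), (.s k68 k136 9 (.s k137 k200 8 (.s k69 k71 0 (.s k207 k138 10 (.d k205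
  k206 k1 0 9)))))] .n) (.c k129 (.l (.s k66 k78 1 (.s k68 k136 9 (.s k85 k170 14 (.s k127 k191 7
  (.s k69 k71 0 (.d k64 k106 k79 6 2))))))) .n))) .n))))) .n))))) (.c k11 (.q k7 [(.s k68 k136 9 (.s
  k85 k170 14 (.s k102 k119 4 (.s k221 k238 4 (.d k153 k17 k51 9 14))))), (.s k110 k157 12 (.s k127
  k191 7 (.s k93 k76 4 (.s k174 k12 12 (.d k238 k221 k46 4 7))))), (.s k68 k136 9 (.s k85 k170 14
  (.s k149 k213 7 (.s k157 k110 12 (.s k102 k119 4 (.d k153 k145 k51 1 14))))))] (.c k66 (.q k129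
  [(.s k68 k136 9 (.s k85 k170 14 (.s k102 k119 4 (.s k221 k238 4 (.d k153 k17 k51 9 14))))), (.s
  k110 k157 12 (.s k127 k191 7 (.s k93 k76 4 (.s k174 k12 12 (.d k238 k221 k46 4 7))))), (.s k68
  k136 9 (.s k85 k170 14 (.s k149 k213 7 (.s k157 k110 12 (.s k102 k119 4 (.d k153 k145 k51 1
  14))))))] (.c k74 (.q k133 [(.s k68 k136 9 (.s k85 k170 14 (.s k149 k213 7 (.s k102 k119 4 (.d
  k196 k70 k55 8 12))))), (.s k110 k157 12 (.s k127 k191 7 (.s k93 k76 4 (.s k174 k12 12 (.d k238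
  k221 k46 4 7)))))] (.c k70 (.q k78 [(.s k68 k136 9 (.s k85 k170 14 (.s k102 k119 4 (.s k221 k238 4
  (.d k153 k17 k51 9 14))))), (.s k110 k157 12 (.s k127 k191 7 (.s k93 k76 4 (.s k174 k12 12 (.d
  k238 k221 k46 4 7))))), (.s k85 k170 14 (.s k149 k213 7 (.s k110 k157 12 (.s k126 k94 3 (.d k189
  k252 k169 8 5)))))] (.c k137 (.q k200 [(.s k68 k136 9 (.s k85 k170 14 (.s k102 k119 4 (.s k221
  k238 4 (.d k153 k17 k51 9 14))))), (.s k110 k157 12 (.s k127 k191 7 (.s k93 k76 4 (.s k174 k12 12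
  (.d k238 k221 k46 4 7))))), (.s k85 k170 14 (.s k149 k213 7 (.s k110 k157 12 (.s k126 k94 3 (.d
  k189 k252 k169 8 5)))))] .n) (.c k200 (.l (.s k137 k141 1 (.s k68 k136 9 (.s k85 k170 14 (.s k102
  k119 4 (.s k153 k51 14 (.d k221 k238 k17 4 9))))))) .n))) (.c k78 (.l (.s k70 k196 8 (.s k68 k136
  9 (.s k85 k170 14 (.s k102 k119 4 (.s k153 k51 14 (.d k221 k238 k17 4 9))))))) (.c k137 (.q k200
  [(.s k85 k170 14 (.s k149 k213 7 (.s k157 k110 12 (.s k153 k145 1 (.d k221 k238 k17 4 9))))), (.s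
  k110 k157 12 (.s k127 k191 7 (.s k93 k76 4 (.s k174 k12 12 (.d k238 k221 k46 4 7))))), (.s k68
  k136 9 (.s k85 k170 14 (.s k149 k213 7 (.s k102 k119 4 (.d k196 k70 k55 8 12)))))] (.c k70 (.q k78
  [(.s k68 k136 9 (.s k85 k170 14 (.s k102 k119 4 (.s k221 k238 4 (.d k153 k17 k51 9 14))))), (.s
  k110 k157 12 (.s k127 k191 7 (.s k93 k76 4 (.s k174 k12 12 (.d k238 k221 k46 4 7))))), (.s k85
  k170 14 (.s k149 k213 7 (.s k110 k157 12 (.s k126 k94 3 (.d k189 k252 k169 8 5)))))] .n) (.c k78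
  (.l (.s k70 k196 8 (.s k68 k136 9 (.s k85 k170 14 (.s k102 k119 4 (.s k153 k51 14 (.d k221 k238
  k17 4 9))))))) .n))) (.c k200 (.l (.s k137 k141 1 (.s k68 k136 9 (.s k85 k170 14 (.s k149 k213 7
  (.s k102 k119 4 (.d k196 k70 k55 8 12))))))) .n))))) (.c k133 (.q k74 [(.s k68 k136 9 (.s k85 k170
  14 (.s k102 k119 4 (.s k221 k238 4 (.d k153 k17 k51 9 14))))), (.s k110 k157 12 (.s k127 k191 7
  (.s k93 k76 4 (.s k174 k12 12 (.d k238 k221 k46 4 7))))), (.s k68 k136 9 (.s k85 k170 14 (.s k149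
  k213 7 (.s k157 k110 12 (.s k102 k119 4 (.d k153 k145 k51 1 14))))))] .n) .n))) (.c k74 (.q k133
  [(.s k85 k170 14 (.s k196 k70 8 (.s k149 k213 7 (.s k102 k55 12 (.d k68 k119 k136 4 9))))), (.s
  k110 k157 12 (.s k127 k191 7 (.s k93 k76 4 (.s k174 k12 12 (.d k238 k221 k46 4 7)))))] (.c k66 (.q
  k129 [(.s k68 k136 9 (.s k85 k170 14 (.s k149 k213 7 (.s k102 k119 4 (.d k196 k70 k55 8 12))))),
  (.s k110 k157 12 (.s k127 k191 7 (.s k93 k76 4 (.s k174 k12 12 (.d k238 k221 k46 4 7)))))] (.c k70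
  (.q k78 [(.s k68 k136 9 (.s k85 k170 14 (.s k102 k119 4 (.s k221 k238 4 (.d k153 k17 k51 9
  14))))), (.s k110 k157 12 (.s k127 k191 7 (.s k93 k76 4 (.s k174 k12 12 (.d k238 k221 k46 4
  7))))), (.s k85 k170 14 (.s k149 k213 7 (.s k110 k157 12 (.s k126 k94 3 (.d k189 k252 k169 8
  5)))))] (.c k137 (.q k200 [(.s k68 k136 9 (.s k85 k170 14 (.s k102 k119 4 (.s k221 k238 4 (.d k153
  k17 k51 9 14))))), (.s k110 k157 12 (.s k127 k191 7 (.s k93 k76 4 (.s k174 k12 12 (.d k238 k221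
  k46 4 7))))), (.s k85 k170 14 (.s k149 k213 7 (.s k110 k157 12 (.s k126 k94 3 (.d k189 k252 k169 8
  5)))))] .n) (.c k200 (.l (.s k137 k141 1 (.s k68 k136 9 (.s k85 k170 14 (.s k102 k119 4 (.s k153
  k51 14 (.d k221 k238 k17 4 9))))))) .n))) (.c k78 (.l (.s k70 k196 8 (.s k68 k136 9 (.s k85 k170
  14 (.s k102 k119 4 (.s k153 k51 14 (.d k221 k238 k17 4 9))))))) (.c k137 (.q k200 [(.s k85 k170 14
  (.s k149 k213 7 (.s k157 k110 12 (.s k153 k145 1 (.d k221 k238 k17 4 9))))), (.s k110 k157 12 (.s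
  k127 k191 7 (.s k93 k76 4 (.s k174 k12 12 (.d k238 k221 k46 4 7))))), (.s k68 k136 9 (.s k85 k170
  14 (.s k149 k213 7 (.s k102 k119 4 (.d k196 k70 k55 8 12)))))] (.c k70 (.q k78 [(.s k68 k136 9 (.s
  k85 k170 14 (.s k102 k119 4 (.s k221 k238 4 (.d k153 k17 k51 9 14))))), (.s k110 k157 12 (.s k127
  k191 7 (.s k93 k76 4 (.s k174 k12 12 (.d k238 k221 k46 4 7))))), (.s k85 k170 14 (.s k149 k213 7
  (.s k110 k157 12 (.s k126 k94 3 (.d k189 k252 k169 8 5)))))] .n) (.c k78 (.l (.s k70 k196 8 (.s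
  k68 k136 9 (.s k85 k170 14 (.s k102 k119 4 (.s k153 k51 14 (.d k221 k238 k17 4 9))))))) .n))) (.c
  k200 (.l (.s k137 k141 1 (.s k68 k136 9 (.s k85 k170 14 (.s k149 k213 7 (.s k102 k119 4 (.d k196
  k70 k55 8 12))))))) .n))))) (.c k129 (.q k66 [(.s k85 k170 14 (.s k196 k70 8 (.s k149 k213 7 (.s
  k102 k55 12 (.d k68 k119 k136 4 9))))), (.s k110 k157 12 (.s k127 k191 7 (.s k93 k76 4 (.s k174
  k12 12 (.d k238 k221 k46 4 7)))))] (.c k137 (.q k200 [(.s k85 k170 14 (.s k196 k70 8 (.s k149 k213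
  7 (.s k102 k55 12 (.d k68 k119 k136 4 9))))), (.s k110 k157 12 (.s k127 k191 7 (.s k93 k76 4 (.s
  k174 k12 12 (.d k238 k221 k46 4 7)))))] .n) (.c k200 (.q k137 [(.s k68 k136 9 (.s k70 k196 8 (.s
  k69 k71 0 (.s k207 k138 10 (.d k205 k206 k1 0 9))))), (.s k85 k170 14 (.s k149 k213 7 (.s k157
  k110 12 (.s k153 k145 1 (.d k221 k238 k17 4 9)))))] .n) .n))) (.c k137 (.q k200 [(.s k85 k170 14
  (.s k196 k70 8 (.s k149 k213 7 (.s k102 k55 12 (.d k68 k119 k136 4 9))))), (.s k110 k157 12 (.s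
  k127 k191 7 (.s k93 k76 4 (.s k174 k12 12 (.d k238 k221 k46 4 7)))))] (.c k66 (.q k129 [(.s k85
  k170 14 (.s k149 k213 7 (.s k157 k110 12 (.s k153 k145 1 (.d k221 k238 k17 4 9))))), (.s k110 k157
  12 (.s k127 k191 7 (.s k93 k76 4 (.s k174 k12 12 (.d k238 k221 k46 4 7))))), (.s k68 k136 9 (.s
  k85 k170 14 (.s k149 k213 7 (.s k102 k119 4 (.d k196 k70 k55 8 12)))))] (.c k70 (.q k78 [(.s k68
  k136 9 (.s k85 k170 14 (.s k102 k119 4 (.s k221 k238 4 (.d k153 k17 k51 9 14))))), (.s k110 k157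
  12 (.s k127 k191 7 (.s k93 k76 4 (.s k174 k12 12 (.d k238 k221 k46 4 7))))), (.s k85 k170 14 (.s
  k149 k213 7 (.s k110 k157 12 (.s k126 k94 3 (.d k189 k252 k169 8 5)))))] .n) (.c k78 (.l (.s k70
  k196 8 (.s k68 k136 9 (.s k85 k170 14 (.s k102 k119 4 (.s k153 k51 14 (.d k221 k238 k17 4 9)))))))
  .n))) (.c k129 (.q k66 [(.s k85 k170 14 (.s k196 k70 8 (.s k149 k213 7 (.s k102 k55 12 (.d k68
  k119 k136 4 9))))), (.s k110 k157 12 (.s k127 k191 7 (.s k93 k76 4 (.s k174 k12 12 (.d k238 k221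
  k46 4 7)))))] .n) .n))) (.c k200 (.q k137 [(.s k136 k68 9 (.s k170 k85 14 (.s k191 k127 7 (.s k128
  k149 6 (.d k138 k139 k143 0 2))))), (.s k85 k170 14 (.s k149 k213 7 (.s k157 k110 12 (.s k153 k145
  1 (.d k221 k238 k17 4 9))))), (.s k68 k136 9 (.s k70 k196 8 (.s k69 k71 0 (.s k207 k138 10 (.d
  k205 k206 k1 0 9)))))] (.c k66 (.l (.s k129 k141 1 (.s k68 k136 9 (.s k85 k170 14 (.s k149 k213 7
  (.s k102 k119 4 (.d k196 k70 k55 8 12))))))) (.c k129 (.q k66 [(.s k68 k136 9 (.s k70 k196 8 (.s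
  k69 k71 0 (.s k207 k138 10 (.d k205 k206 k1 0 9))))), (.s k85 k170 14 (.s k149 k213 7 (.s k157
  k110 12 (.s k153 k145 1 (.d k221 k238 k17 4 9)))))] .n) .n))) .n))))) (.c k129 (.q k66 [(.s k68
  k136 9 (.s k85 k170 14 (.s k102 k119 4 (.s k221 k238 4 (.d k153 k17 k51 9 14))))), (.s k110 k157
  12 (.s k127 k191 7 (.s k93 k76 4 (.s k174 k12 12 (.d k238 k221 k46 4 7))))), (.s k68 k136 9 (.s
  k85 k170 14 (.s k149 k213 7 (.s k157 k110 12 (.s k102 k119 4 (.d k153 k145 k51 1 14))))))] (.c k74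
  (.q k133 [(.s k85 k170 14 (.s k196 k70 8 (.s k149 k213 7 (.s k102 k55 12 (.d k68 k119 k136 4
  9))))), (.s k110 k157 12 (.s k127 k191 7 (.s k93 k76 4 (.s k174 k12 12 (.d k238 k221 k46 4 7)))))]
  (.c k137 (.q k200 [(.s k85 k170 14 (.s k196 k70 8 (.s k149 k213 7 (.s k102 k55 12 (.d k68 k119
  k136 4 9))))), (.s k110 k157 12 (.s k127 k191 7 (.s k93 k76 4 (.s k174 k12 12 (.d k238 k221 k46 4
  7)))))] .n) (.c k200 (.q k137 [(.s k68 k136 9 (.s k70 k196 8 (.s k69 k71 0 (.s k207 k138 10 (.d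
  k205 k206 k1 0 9))))), (.s k85 k170 14 (.s k149 k213 7 (.s k157 k110 12 (.s k153 k145 1 (.d k221
  k238 k17 4 9)))))] .n) .n))) (.c k133 (.q k74 [(.s k68 k136 9 (.s k85 k170 14 (.s k102 k119 4 (.s
  k221 k238 4 (.d k153 k17 k51 9 14))))), (.s k110 k157 12 (.s k127 k191 7 (.s k93 k76 4 (.s k174
  k12 12 (.d k238 k221 k46 4 7))))), (.s k68 k136 9 (.s k85 k170 14 (.s k149 k213 7 (.s k157 k110 12
  (.s k102 k119 4 (.d k153 k145 k51 1 14))))))] (.c k137 (.q k141 [(.s k136 k68 9 (.s k238 k221 4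
  (.s k170 k85 14 (.s k102 k34 9 (.d k153 k187 k51 4 14))))), (.s k110 k157 12 (.s k127 k191 7 (.s
  k93 k76 4 (.s k174 k12 12 (.d k238 k221 k46 4 7))))), (.s k68 k136 9 (.s k85 k170 14 (.s k149 k213
  7 (.s k157 k110 12 (.s k102 k119 4 (.d k153 k145 k51 1 14))))))] .n) (.c k141 (.q k137 [(.s k68
  k136 9 (.s k70 k78 1 (.s k69 k71 0 (.s k207 k138 10 (.d k205 k206 k1 0 9))))), (.s k85 k170 14 (.s
  k149 k213 7 (.s k157 k110 12 (.s k153 k145 1 (.d k221 k238 k17 4 9)))))] .n) .n))) .n))) (.c k133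
  (.q k74 [(.s k68 k136 9 (.s k85 k170 14 (.s k102 k119 4 (.s k221 k238 4 (.d k153 k17 k51 9
  14))))), (.s k110 k157 12 (.s k127 k191 7 (.s k93 k76 4 (.s k174 k12 12 (.d k238 k221 k46 4
  7))))), (.s k68 k136 9 (.s k85 k170 14 (.s k149 k213 7 (.s k157 k110 12 (.s k102 k119 4 (.d k153
  k145 k51 1 14))))))] (.c k66 (.q k129 [(.s k68 k136 9 (.s k85 k170 14 (.s k102 k119 4 (.s k221
  k238 4 (.d k153 k17 k51 9 14))))), (.s k110 k157 12 (.s k127 k191 7 (.s k93 k76 4 (.s k174 k12 12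
  (.d k238 k221 k46 4 7))))), (.s k68 k136 9 (.s k85 k170 14 (.s k149 k213 7 (.s k157 k110 12 (.s
  k102 k119 4 (.d k153 k145 k51 1 14))))))] .n) (.c k129 (.q k66 [(.s k68 k136 9 (.s k85 k170 14 (.s
  k102 k119 4 (.s k221 k238 4 (.d k153 k17 k51 9 14))))), (.s k110 k157 12 (.s k127 k191 7 (.s k93
  k76 4 (.s k174 k12 12 (.d k238 k221 k46 4 7))))), (.s k68 k136 9 (.s k85 k170 14 (.s k149 k213 7
  (.s k157 k110 12 (.s k102 k119 4 (.d k153 k145 k51 1 14))))))] (.c k137 (.q k141 [(.s k136 k68 9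
  (.s k238 k221 4 (.s k170 k85 14 (.s k102 k34 9 (.d k153 k187 k51 4 14))))), (.s k110 k157 12 (.s
  k127 k191 7 (.s k93 k76 4 (.s k174 k12 12 (.d k238 k221 k46 4 7))))), (.s k68 k136 9 (.s k85 k170
  14 (.s k149 k213 7 (.s k157 k110 12 (.s k102 k119 4 (.d k153 k145 k51 1 14))))))] .n) (.c k141 (.q
  k137 [(.s k68 k136 9 (.s k70 k78 1 (.s k69 k71 0 (.s k207 k138 10 (.d k205 k206 k1 0 9))))), (.s
  k85 k170 14 (.s k149 k213 7 (.s k157 k110 12 (.s k153 k145 1 (.d k221 k238 k17 4 9)))))] .n) .n)))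
  .n))) .n))))) (.c k66 (.q k129 [(.s k68 k136 9 (.s k85 k170 14 (.s k102 k119 4 (.s k221 k238 4 (.d
  k153 k17 k51 9 14))))), (.s k110 k157 12 (.s k127 k191 7 (.s k93 k76 4 (.s k174 k12 12 (.d k238
  k221 k46 4 7))))), (.s k68 k136 9 (.s k85 k170 14 (.s k149 k213 7 (.s k157 k110 12 (.s k102 k119 4
  (.d k153 k145 k51 1 14))))))] (.c k7 (.q k11 [(.s k68 k136 9 (.s k85 k170 14 (.s k102 k119 4 (.s
  k221 k238 4 (.d k153 k17 k51 9 14))))), (.s k110 k157 12 (.s k127 k191 7 (.s k93 k76 4 (.s k174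
  k12 12 (.d k238 k221 k46 4 7))))), (.s k68 k136 9 (.s k85 k170 14 (.s k149 k213 7 (.s k157 k110 12
  (.s k102 k119 4 (.d k153 k145 k51 1 14))))))] (.c k74 (.q k133 [(.s k85 k170 14 (.s k149 k213 7
  (.s k157 k110 12 (.s k141 k137 1 (.d k189 k173 k169 3 5))))), (.s k136 k68 9 (.s k170 k85 14 (.s
  k153 k187 4 (.s k102 k51 14 (.d k238 k221 k34 4 9))))), (.s k110 k157 12 (.s k127 k191 7 (.s k93
  k76 4 (.s k174 k12 12 (.d k238 k221 k46 4 7)))))] (.c k70 (.q k78 [(.s k68 k136 9 (.s k85 k170 14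
  (.s k102 k119 4 (.s k221 k238 4 (.d k153 k17 k51 9 14))))), (.s k110 k157 12 (.s k127 k191 7 (.s
  k93 k76 4 (.s k174 k12 12 (.d k238 k221 k46 4 7))))), (.s k85 k170 14 (.s k149 k213 7 (.s k110
  k157 12 (.s k126 k94 3 (.d k189 k252 k169 8 5)))))] .n) (.c k78 (.q k70 [(.s k68 k136 9 (.s k85
  k170 14 (.s k102 k119 4 (.s k221 k238 4 (.d k153 k17 k51 9 14))))), (.s k68 k136 9 (.s k69 k71 0
  (.s k207 k138 10 (.s k137 k141 1 (.d k205 k206 k1 0 9))))), (.s k85 k170 14 (.s k149 k213 7 (.s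
  k157 k110 12 (.s k141 k137 1 (.d k189 k173 k169 3 5)))))] .n) .n))) (.c k133 (.q k74 [(.s k68 k136
  9 (.s k85 k170 14 (.s k102 k119 4 (.s k221 k238 4 (.d k153 k17 k51 9 14))))), (.s k110 k157 12 (.s
  k127 k191 7 (.s k93 k76 4 (.s k174 k12 12 (.d k238 k221 k46 4 7))))), (.s k68 k136 9 (.s k85 k170
  14 (.s k149 k213 7 (.s k157 k110 12 (.s k102 k119 4 (.d k153 k145 k51 1 14))))))] (.c k70 (.q k196
  [(.s k68 k136 9 (.s k85 k170 14 (.s k149 k213 7 (.d k102 k119 k55 4 12)))), (.s k68 k136 9 (.s k4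
  k132 7 (.s k55 k38 4 (.s k51 k59 1 (.d k102 k149 k153 12 14))))), (.s k68 k136 9 (.s k85 k170 14
  (.s k4 k132 7 (.s k247 k166 12 (.d k213 k149 k230 7 4))))), (.s k85 k170 14 (.s k149 k213 7 (.s
  k102 k55 12 (.s k153 k51 14 (.d k157 k145 k110 1 12)))))] (.c k149 (.l (.s k68 k136 9 (.s k85 k170
  14 (.s k102 k119 4 (.s k153 k51 14 (.d k221 k238 k17 4 9)))))) (.c k153 (.l (.s k85 k170 14 (.s
  k149 k213 7 (.s k102 k55 12 (.d k68 k136 k119 9 4))))) .n))) (.c k196 (.q k70 [(.s k85 k170 14 (.s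
  k149 k213 7 (.s k157 k110 12 (.s k153 k145 1 (.d k221 k238 k17 4 9))))), (.s k68 k136 9 (.s k137
  k200 8 (.s k69 k71 0 (.s k207 k138 10 (.d k205 k206 k1 0 9)))))] .n) .n))) .n))) (.c k11 (.q k7
  [(.s k68 k136 9 (.s k85 k170 14 (.s k102 k119 4 (.s k221 k238 4 (.d k153 k17 k51 9 14))))), (.s
  k110 k157 12 (.s k127 k191 7 (.s k93 k76 4 (.s k174 k12 12 (.d k238 k221 k46 4 7))))), (.s k68
  k136 9 (.s k85 k170 14 (.s k149 k213 7 (.s k157 k110 12 (.s k102 k119 4 (.d k153 k145 k51 1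
  14))))))] (.c k74 (.q k133 [(.s k68 k136 9 (.s k85 k170 14 (.s k149 k213 7 (.s k102 k119 4 (.d
  k196 k70 k55 8 12))))), (.s k110 k157 12 (.s k127 k191 7 (.s k93 k76 4 (.s k174 k12 12 (.d k238
  k221 k46 4 7)))))] (.c k70 (.q k78 [(.s k68 k136 9 (.s k85 k170 14 (.s k102 k119 4 (.s k221 k238 4
  (.d k153 k17 k51 9 14))))), (.s k110 k157 12 (.s k127 k191 7 (.s k93 k76 4 (.s k174 k12 12 (.d
  k238 k221 k46 4 7))))), (.s k85 k170 14 (.s k149 k213 7 (.s k110 k157 12 (.s k126 k94 3 (.d k189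
  k252 k169 8 5)))))] (.c k137 (.q k200 [(.s k68 k136 9 (.s k85 k170 14 (.s k102 k119 4 (.s k221
  k238 4 (.d k153 k17 k51 9 14))))), (.s k110 k157 12 (.s k127 k191 7 (.s k93 k76 4 (.s k174 k12 12
  (.d k238 k221 k46 4 7))))), (.s k85 k170 14 (.s k149 k213 7 (.s k110 k157 12 (.s k126 k94 3 (.d
  k189 k252 k169 8 5)))))] .n) (.c k200 (.l (.s k137 k141 1 (.s k68 k136 9 (.s k85 k170 14 (.s k102
  k119 4 (.s k153 k51 14 (.d k221 k238 k17 4 9))))))) .n))) (.c k78 (.l (.s k70 k196 8 (.s k68 k136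
  9 (.s k85 k170 14 (.s k102 k119 4 (.s k153 k51 14 (.d k221 k238 k17 4 9))))))) (.c k137 (.q k200
  [(.s k85 k170 14 (.s k149 k213 7 (.s k157 k110 12 (.s k153 k145 1 (.d k221 k238 k17 4 9))))), (.s
  k110 k157 12 (.s k127 k191 7 (.s k93 k76 4 (.s k174 k12 12 (.d k238 k221 k46 4 7))))), (.s k68
  k136 9 (.s k85 k170 14 (.s k149 k213 7 (.s k102 k119 4 (.d k196 k70 k55 8 12)))))] (.c k70 (.q k78
  [(.s k68 k136 9 (.s k85 k170 14 (.s k102 k119 4 (.s k221 k238 4 (.d k153 k17 k51 9 14))))), (.s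
  k110 k157 12 (.s k127 k191 7 (.s k93 k76 4 (.s k174 k12 12 (.d k238 k221 k46 4 7))))), (.s k85
  k170 14 (.s k149 k213 7 (.s k110 k157 12 (.s k126 k94 3 (.d k189 k252 k169 8 5)))))] .n) (.c k78
  (.l (.s k70 k196 8 (.s k68 k136 9 (.s k85 k170 14 (.s k102 k119 4 (.s k153 k51 14 (.d k221 k238
  k17 4 9))))))) .n))) (.c k200 (.l (.s k137 k141 1 (.s k68 k136 9 (.s k85 k170 14 (.s k149 k213 7
  (.s k102 k119 4 (.d k196 k70 k55 8 12))))))) .n))))) (.c k133 (.q k74 [(.s k68 k136 9 (.s k85 k170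
  14 (.s k102 k119 4 (.s k221 k238 4 (.d k153 k17 k51 9 14))))), (.s k110 k157 12 (.s k127 k191 7
  (.s k93 k76 4 (.s k174 k12 12 (.d k238 k221 k46 4 7))))), (.s k68 k136 9 (.s k85 k170 14 (.s k149
  k213 7 (.s k157 k110 12 (.s k102 k119 4 (.d k153 k145 k51 1 14))))))] .n) .n))) (.c k74 (.q k133
  [(.s k68 k136 9 (.s k85 k170 14 (.s k102 k119 4 (.s k221 k238 4 (.d k153 k17 k51 9 14))))), (.s
  k110 k157 12 (.s k127 k191 7 (.s k93 k76 4 (.s k174 k12 12 (.d k238 k221 k46 4 7))))), (.s k85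
  k170 14 (.s k149 k213 7 (.s k157 k110 12 (.s k141 k137 1 (.d k189 k173 k169 3 5)))))] (.c k7 (.q
  k11 [(.s k85 k170 14 (.s k149 k213 7 (.s k157 k110 12 (.s k141 k137 1 (.d k189 k173 k169 3 5))))),
  (.s k136 k68 9 (.s k170 k85 14 (.s k153 k187 4 (.s k102 k51 14 (.d k238 k221 k34 4 9))))), (.s
  k110 k157 12 (.s k127 k191 7 (.s k93 k76 4 (.s k174 k12 12 (.d k238 k221 k46 4 7)))))] (.c k70 (.q
  k78 [(.s k68 k136 9 (.s k85 k170 14 (.s k102 k119 4 (.s k221 k238 4 (.d k153 k17 k51 9 14))))),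
  (.s k110 k157 12 (.s k127 k191 7 (.s k93 k76 4 (.s k174 k12 12 (.d k238 k221 k46 4 7))))), (.s k85
  k170 14 (.s k149 k213 7 (.s k110 k157 12 (.s k126 k94 3 (.d k189 k252 k169 8 5)))))] .n) (.c k78
  (.q k70 [(.s k68 k136 9 (.s k85 k170 14 (.s k102 k119 4 (.s k221 k238 4 (.d k153 k17 k51 9
  14))))), (.s k68 k136 9 (.s k69 k71 0 (.s k207 k138 10 (.s k137 k141 1 (.d k205 k206 k1 0 9))))),
  (.s k85 k170 14 (.s k149 k213 7 (.s k157 k110 12 (.s k141 k137 1 (.d k189 k173 k169 3 5)))))] .n)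
  .n))) (.c k11 (.q k7 [(.s k68 k136 9 (.s k85 k170 14 (.s k149 k213 7 (.s k102 k119 4 (.d k196 k70
  k55 8 12))))), (.s k110 k157 12 (.s k127 k191 7 (.s k93 k76 4 (.s k174 k12 12 (.d k238 k221 k46 4
  7)))))] (.c k70 (.q k78 [(.s k68 k136 9 (.s k85 k170 14 (.s k102 k119 4 (.s k221 k238 4 (.d k153
  k17 k51 9 14))))), (.s k110 k157 12 (.s k127 k191 7 (.s k93 k76 4 (.s k174 k12 12 (.d k238 k221
  k46 4 7))))), (.s k85 k170 14 (.s k149 k213 7 (.s k110 k157 12 (.s k126 k94 3 (.d k189 k252 k169 8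
  5)))))] (.c k137 (.q k200 [(.s k68 k136 9 (.s k85 k170 14 (.s k102 k119 4 (.s k221 k238 4 (.d k153
  k17 k51 9 14))))), (.s k110 k157 12 (.s k127 k191 7 (.s k93 k76 4 (.s k174 k12 12 (.d k238 k221
  k46 4 7))))), (.s k85 k170 14 (.s k149 k213 7 (.s k110 k157 12 (.s k126 k94 3 (.d k189 k252 k169 8
  5)))))] .n) (.c k200 (.l (.s k137 k141 1 (.s k68 k136 9 (.s k85 k170 14 (.s k102 k119 4 (.s k153
  k51 14 (.d k221 k238 k17 4 9))))))) .n))) (.c k78 (.l (.s k70 k196 8 (.s k68 k136 9 (.s k85 k170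
  14 (.s k102 k119 4 (.s k153 k51 14 (.d k221 k238 k17 4 9))))))) (.c k137 (.q k200 [(.s k85 k170 14
  (.s k149 k213 7 (.s k157 k110 12 (.s k153 k145 1 (.d k221 k238 k17 4 9))))), (.s k110 k157 12 (.s
  k127 k191 7 (.s k93 k76 4 (.s k174 k12 12 (.d k238 k221 k46 4 7))))), (.s k68 k136 9 (.s k85 k170
  14 (.s k149 k213 7 (.s k102 k119 4 (.d k196 k70 k55 8 12)))))] (.c k70 (.q k78 [(.s k68 k136 9 (.s
  k85 k170 14 (.s k102 k119 4 (.s k221 k238 4 (.d k153 k17 k51 9 14))))), (.s k110 k157 12 (.s k127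
  k191 7 (.s k93 k76 4 (.s k174 k12 12 (.d k238 k221 k46 4 7))))), (.s k85 k170 14 (.s k149 k213 7
  (.s k110 k157 12 (.s k126 k94 3 (.d k189 k252 k169 8 5)))))] .n) (.c k78 (.l (.s k70 k196 8 (.s
  k68 k136 9 (.s k85 k170 14 (.s k102 k119 4 (.s k153 k51 14 (.d k221 k238 k17 4 9))))))) .n))) (.c
  k200 (.l (.s k137 k141 1 (.s k68 k136 9 (.s k85 k170 14 (.s k149 k213 7 (.s k102 k119 4 (.d k196
  k70 k55 8 12))))))) .n))))) (.c k70 (.q k78 [(.s k68 k136 9 (.s k85 k170 14 (.s k102 k119 4 (.s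
  k221 k238 4 (.d k153 k17 k51 9 14))))), (.s k110 k157 12 (.s k127 k191 7 (.s k93 k76 4 (.s k174
  k12 12 (.d k238 k221 k46 4 7))))), (.s k85 k170 14 (.s k149 k213 7 (.s k110 k157 12 (.s k126 k94 3
  (.d k189 k252 k169 8 5)))))] (.c k7 (.q k11 [(.s k68 k136 9 (.s k85 k170 14 (.s k102 k119 4 (.s
  k221 k238 4 (.d k153 k17 k51 9 14))))), (.s k110 k157 12 (.s k127 k191 7 (.s k93 k76 4 (.s k174
  k12 12 (.d k238 k221 k46 4 7))))), (.s k85 k170 14 (.s k149 k213 7 (.s k110 k157 12 (.s k126 k94 3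
  (.d k189 k252 k169 8 5)))))] .n) (.c k11 (.q k7 [(.s k68 k136 9 (.s k85 k170 14 (.s k102 k119 4
  (.s k221 k238 4 (.d k153 k17 k51 9 14))))), (.s k110 k157 12 (.s k127 k191 7 (.s k93 k76 4 (.s
  k174 k12 12 (.d k238 k221 k46 4 7))))), (.s k85 k170 14 (.s k149 k213 7 (.s k110 k157 12 (.s k126
  k94 3 (.d k189 k252 k169 8 5)))))] (.c k137 (.q k200 [(.s k68 k136 9 (.s k85 k170 14 (.s k102 k119
  4 (.s k221 k238 4 (.d k153 k17 k51 9 14))))), (.s k110 k157 12 (.s k127 k191 7 (.s k93 k76 4 (.s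
  k174 k12 12 (.d k238 k221 k46 4 7))))), (.s k85 k170 14 (.s k149 k213 7 (.s k110 k157 12 (.s k126
  k94 3 (.d k189 k252 k169 8 5)))))] .n) (.c k200 (.l (.s k137 k141 1 (.s k68 k136 9 (.s k85 k170 14
  (.s k102 k119 4 (.s k153 k51 14 (.d k221 k238 k17 4 9))))))) .n))) .n))) (.c k78 (.q k70 [(.s k68
  k136 9 (.s k85 k170 14 (.s k149 k213 7 (.s k102 k119 4 (.d k196 k7 k55 8 12))))), (.s k68 k136 9
  (.s k69 k71 0 (.s k207 k138 10 (.s k137 k141 1 (.d k205 k206 k1 0 9))))), (.s k85 k170 14 (.s k149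
  k213 7 (.s k157 k110 12 (.s k141 k137 1 (.d k189 k173 k169 3 5)))))] (.c k7 (.q k11 [(.s k68 k136
  9 (.s k85 k170 14 (.s k102 k119 4 (.s k221 k238 4 (.d k153 k17 k51 9 14))))), (.s k68 k136 9 (.s
  k69 k71 0 (.s k207 k138 10 (.s k137 k141 1 (.d k205 k206 k1 0 9))))), (.s k85 k170 14 (.s k149
  k213 7 (.s k157 k110 12 (.s k141 k137 1 (.d k189 k173 k169 3 5)))))] .n) (.c k11 (.l (.s k7 k196 8
  (.s k68 k136 9 (.s k85 k170 14 (.s k102 k119 4 (.s k153 k51 14 (.d k221 k238 k17 4 9))))))) .n)))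
  .n))))) (.c k133 (.q k74 [(.s k68 k136 9 (.s k85 k170 14 (.s k102 k119 4 (.s k221 k238 4 (.d k153
  k17 k51 9 14))))), (.s k110 k157 12 (.s k127 k191 7 (.s k93 k76 4 (.s k174 k12 12 (.d k238 k221
  k46 4 7))))), (.s k68 k136 9 (.s k85 k170 14 (.s k149 k213 7 (.s k157 k110 12 (.s k102 k119 4 (.d
  k153 k145 k51 1 14))))))] (.c k7 (.q k11 [(.s k68 k136 9 (.s k85 k170 14 (.s k102 k119 4 (.s k221
  k238 4 (.d k153 k17 k51 9 14))))), (.s k110 k157 12 (.s k127 k191 7 (.s k93 k76 4 (.s k174 k12 12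
  (.d k238 k221 k46 4 7))))), (.s k68 k136 9 (.s k85 k170 14 (.s k149 k213 7 (.s k157 k110 12 (.s
  k102 k119 4 (.d k153 k145 k51 1 14))))))] (.c k70 (.q k196 [(.s k68 k136 9 (.s k85 k170 14 (.s
  k149 k213 7 (.d k102 k119 k55 4 12)))), (.s k68 k136 9 (.s k4 k132 7 (.s k55 k38 4 (.s k51 k59 1
  (.d k102 k149 k153 12 14))))), (.s k68 k136 9 (.s k85 k170 14 (.s k4 k132 7 (.s k247 k166 12 (.d
  k213 k149 k230 7 4))))), (.s k85 k170 14 (.s k149 k213 7 (.s k102 k55 12 (.s k153 k51 14 (.d k157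
  k145 k110 1 12)))))] (.c k149 (.l (.s k68 k136 9 (.s k85 k170 14 (.s k102 k119 4 (.s k153 k51 14
  (.d k221 k238 k17 4 9)))))) (.c k153 (.l (.s k85 k170 14 (.s k149 k213 7 (.s k102 k55 12 (.d k68
  k136 k119 9 4))))) .n))) (.c k196 (.q k70 [(.s k85 k170 14 (.s k149 k213 7 (.s k157 k110 12 (.s
  k153 k145 1 (.d k221 k238 k17 4 9))))), (.s k68 k136 9 (.s k137 k200 8 (.s k69 k71 0 (.s k207 k138
  10 (.d k205 k206 k1 0 9)))))] .n) .n))) (.c k11 (.q k7 [(.s k68 k136 9 (.s k85 k170 14 (.s k102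
  k119 4 (.s k221 k238 4 (.d k153 k17 k51 9 14))))), (.s k110 k157 12 (.s k127 k191 7 (.s k93 k76 4
  (.s k174 k12 12 (.d k238 k221 k46 4 7))))), (.s k68 k136 9 (.s k85 k170 14 (.s k149 k213 7 (.s
  k157 k110 12 (.s k102 k119 4 (.d k153 k145 k51 1 14))))))] .n) .n))) .n))))) (.c k74 (.q k133 [(.s
  k68 k136 9 (.s k85 k170 14 (.s k102 k119 4 (.s k221 k238 4 (.d k153 k17 k51 9 14))))), (.s k110
  k157 12 (.s k127 k191 7 (.s k93 k76 4 (.s k174 k12 12 (.d k238 k221 k46 4 7))))), (.s k68 k136 9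
  (.s k85 k170 14 (.s k149 k213 7 (.s k157 k110 12 (.s k102 k119 4 (.d k153 k145 k51 1 14))))))] (.c
  k7 (.q k11 [(.s k68 k136 9 (.s k85 k170 14 (.s k102 k119 4 (.s k221 k238 4 (.d k153 k17 k51 9
  14))))), (.s k110 k157 12 (.s k127 k191 7 (.s k93 k76 4 (.s k174 k12 12 (.d k238 k221 k46 4
  7))))), (.s k68 k136 9 (.s k85 k170 14 (.s k149 k213 7 (.s k157 k110 12 (.s k102 k119 4 (.d k153
  k145 k51 1 14))))))] (.c k66 (.q k129 [(.s k85 k170 14 (.s k149 k213 7 (.s k157 k110 12 (.s k141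
  k137 1 (.d k189 k173 k169 3 5))))), (.s k136 k68 9 (.s k170 k85 14 (.s k153 k187 4 (.s k102 k51 14
  (.d k238 k221 k34 4 9))))), (.s k110 k157 12 (.s k127 k191 7 (.s k93 k76 4 (.s k174 k12 12 (.d
  k238 k221 k46 4 7)))))] (.c k70 (.q k78 [(.s k68 k136 9 (.s k85 k170 14 (.s k102 k119 4 (.s k221
  k238 4 (.d k153 k17 k51 9 14))))), (.s k110 k157 12 (.s k127 k191 7 (.s k93 k76 4 (.s k174 k12 12
  (.d k238 k221 k46 4 7))))), (.s k85 k170 14 (.s k149 k213 7 (.s k110 k157 12 (.s k126 k94 3 (.d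
  k189 k252 k169 8 5)))))] .n) (.c k78 (.q k70 [(.s k68 k136 9 (.s k85 k170 14 (.s k102 k119 4 (.s
  k221 k238 4 (.d k153 k17 k51 9 14))))), (.s k68 k136 9 (.s k69 k71 0 (.s k207 k138 10 (.s k137
  k141 1 (.d k205 k206 k1 0 9))))), (.s k85 k170 14 (.s k149 k213 7 (.s k157 k110 12 (.s k141 k137 1
  (.d k189 k173 k169 3 5)))))] .n) .n))) (.c k129 (.q k66 [(.s k68 k136 9 (.s k85 k170 14 (.s k102
  k119 4 (.s k221 k238 4 (.d k153 k17 k51 9 14))))), (.s k110 k157 12 (.s k127 k191 7 (.s k93 k76 4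
  (.s k174 k12 12 (.d k238 k221 k46 4 7))))), (.s k68 k136 9 (.s k85 k170 14 (.s k149 k213 7 (.s
  k157 k110 12 (.s k102 k119 4 (.d k153 k145 k51 1 14))))))] .n) .n))) (.c k11 (.q k7 [(.s k85 k170
  14 (.s k196 k70 8 (.s k149 k213 7 (.s k102 k55 12 (.d k68 k119 k136 4 9))))), (.s k110 k157 12 (.s
  k127 k191 7 (.s k93 k76 4 (.s k174 k12 12 (.d k238 k221 k46 4 7)))))] (.c k66 (.q k129 [(.s k68
  k136 9 (.s k85 k170 14 (.s k149 k213 7 (.s k102 k119 4 (.d k196 k70 k55 8 12))))), (.s k110 k157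
  12 (.s k127 k191 7 (.s k93 k76 4 (.s k174 k12 12 (.d k238 k221 k46 4 7)))))] (.c k70 (.q k78 [(.s
  k68 k136 9 (.s k85 k170 14 (.s k102 k119 4 (.s k221 k238 4 (.d k153 k17 k51 9 14))))), (.s k110
  k157 12 (.s k127 k191 7 (.s k93 k76 4 (.s k174 k12 12 (.d k238 k221 k46 4 7))))), (.s k85 k170 14
  (.s k149 k213 7 (.s k110 k157 12 (.s k126 k94 3 (.d k189 k252 k169 8 5)))))] (.c k137 (.q k200
  [(.s k68 k136 9 (.s k85 k170 14 (.s k102 k119 4 (.s k221 k238 4 (.d k153 k17 k51 9 14))))), (.s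
  k110 k157 12 (.s k127 k191 7 (.s k93 k76 4 (.s k174 k12 12 (.d k238 k221 k46 4 7))))), (.s k85
  k170 14 (.s k149 k213 7 (.s k110 k157 12 (.s k126 k94 3 (.d k189 k252 k169 8 5)))))] .n) (.c k200
  (.l (.s k137 k141 1 (.s k68 k136 9 (.s k85 k170 14 (.s k102 k119 4 (.s k153 k51 14 (.d k221 k238
  k17 4 9))))))) .n))) (.c k78 (.l (.s k70 k196 8 (.s k68 k136 9 (.s k85 k170 14 (.s k102 k119 4 (.s
  k153 k51 14 (.d k221 k238 k17 4 9))))))) (.c k137 (.q k200 [(.s k85 k170 14 (.s k149 k213 7 (.s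
  k157 k110 12 (.s k153 k145 1 (.d k221 k238 k17 4 9))))), (.s k110 k157 12 (.s k127 k191 7 (.s k93
  k76 4 (.s k174 k12 12 (.d k238 k221 k46 4 7))))), (.s k68 k136 9 (.s k85 k170 14 (.s k149 k213 7
  (.s k102 k119 4 (.d k196 k70 k55 8 12)))))] (.c k70 (.q k78 [(.s k68 k136 9 (.s k85 k170 14 (.s
  k102 k119 4 (.s k221 k238 4 (.d k153 k17 k51 9 14))))), (.s k110 k157 12 (.s k127 k191 7 (.s k93
  k76 4 (.s k174 k12 12 (.d k238 k221 k46 4 7))))), (.s k85 k170 14 (.s k149 k213 7 (.s k110 k157 12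
  (.s k126 k94 3 (.d k189 k252 k169 8 5)))))] .n) (.c k78 (.l (.s k70 k196 8 (.s k68 k136 9 (.s k85
  k170 14 (.s k102 k119 4 (.s k153 k51 14 (.d k221 k238 k17 4 9))))))) .n))) (.c k200 (.l (.s k137
  k141 1 (.s k68 k136 9 (.s k85 k170 14 (.s k149 k213 7 (.s k102 k119 4 (.d k196 k70 k55 8 12)))))))
  .n))))) (.c k129 (.q k66 [(.s k85 k170 14 (.s k196 k70 8 (.s k149 k213 7 (.s k102 k55 12 (.d k68
  k119 k136 4 9))))), (.s k110 k157 12 (.s k127 k191 7 (.s k93 k76 4 (.s k174 k12 12 (.d k238 k221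
  k46 4 7)))))] (.c k137 (.q k200 [(.s k85 k170 14 (.s k196 k70 8 (.s k149 k213 7 (.s k102 k55 12
  (.d k68 k119 k136 4 9))))), (.s k110 k157 12 (.s k127 k191 7 (.s k93 k76 4 (.s k174 k12 12 (.d
  k238 k221 k46 4 7)))))] .n) (.c k200 (.q k137 [(.s k68 k136 9 (.s k70 k196 8 (.s k69 k71 0 (.s
  k207 k138 10 (.d k205 k206 k1 0 9))))), (.s k85 k170 14 (.s k149 k213 7 (.s k157 k110 12 (.s k153
  k145 1 (.d k221 k238 k17 4 9)))))] .n) .n))) (.c k137 (.q k200 [(.s k85 k170 14 (.s k196 k70 8 (.s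
  k149 k213 7 (.s k102 k55 12 (.d k68 k119 k136 4 9))))), (.s k110 k157 12 (.s k127 k191 7 (.s k93
  k76 4 (.s k174 k12 12 (.d k238 k221 k46 4 7)))))] (.c k66 (.q k129 [(.s k85 k170 14 (.s k149 k213
  7 (.s k157 k110 12 (.s k153 k145 1 (.d k221 k238 k17 4 9))))), (.s k110 k157 12 (.s k127 k191 7
  (.s k93 k76 4 (.s k174 k12 12 (.d k238 k221 k46 4 7))))), (.s k68 k136 9 (.s k85 k170 14 (.s k149
  k213 7 (.s k102 k119 4 (.d k196 k70 k55 8 12)))))] (.c k70 (.q k78 [(.s k68 k136 9 (.s k85 k170 14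
  (.s k102 k119 4 (.s k221 k238 4 (.d k153 k17 k51 9 14))))), (.s k110 k157 12 (.s k127 k191 7 (.s
  k93 k76 4 (.s k174 k12 12 (.d k238 k221 k46 4 7))))), (.s k85 k170 14 (.s k149 k213 7 (.s k110
  k157 12 (.s k126 k94 3 (.d k189 k252 k169 8 5)))))] .n) (.c k78 (.l (.s k70 k196 8 (.s k68 k136 9
  (.s k85 k170 14 (.s k102 k119 4 (.s k153 k51 14 (.d k221 k238 k17 4 9))))))) .n))) (.c k129 (.q
  k66 [(.s k85 k170 14 (.s k196 k70 8 (.s k149 k213 7 (.s k102 k55 12 (.d k68 k119 k136 4 9))))),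
  (.s k110 k157 12 (.s k127 k191 7 (.s k93 k76 4 (.s k174 k12 12 (.d k238 k221 k46 4 7)))))] .n)
  .n))) (.c k200 (.q k137 [(.s k136 k68 9 (.s k170 k85 14 (.s k191 k127 7 (.s k128 k149 6 (.d k138
  k139 k143 0 2))))), (.s k85 k170 14 (.s k149 k213 7 (.s k157 k110 12 (.s k153 k145 1 (.d k221 k238
  k17 4 9))))), (.s k68 k136 9 (.s k70 k196 8 (.s k69 k71 0 (.s k207 k138 10 (.d k205 k206 k1 0
  9)))))] (.c k66 (.l (.s k129 k141 1 (.s k68 k136 9 (.s k85 k170 14 (.s k149 k213 7 (.s k102 k119 4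
  (.d k196 k70 k55 8 12))))))) (.c k129 (.q k66 [(.s k68 k136 9 (.s k70 k196 8 (.s k69 k71 0 (.s
  k207 k138 10 (.d k205 k206 k1 0 9))))), (.s k85 k170 14 (.s k149 k213 7 (.s k157 k110 12 (.s k153
  k145 1 (.d k221 k238 k17 4 9)))))] .n) .n))) .n))))) (.c k66 (.q k129 [(.s k68 k136 9 (.s k85 k170
  14 (.s k102 k119 4 (.s k221 k238 4 (.d k153 k17 k51 9 14))))), (.s k110 k157 12 (.s k127 k191 7
  (.s k93 k76 4 (.s k174 k12 12 (.d k238 k221 k46 4 7))))), (.s k85 k170 14 (.s k149 k213 7 (.s k157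
  k110 12 (.s k141 k137 1 (.d k189 k173 k169 3 5)))))] (.c k7 (.q k11 [(.s k85 k170 14 (.s k149 k213
  7 (.s k157 k110 12 (.s k141 k137 1 (.d k189 k173 k169 3 5))))), (.s k136 k68 9 (.s k170 k85 14 (.s
  k153 k187 4 (.s k102 k51 14 (.d k238 k221 k34 4 9))))), (.s k110 k157 12 (.s k127 k191 7 (.s k93
  k76 4 (.s k174 k12 12 (.d k238 k221 k46 4 7)))))] (.c k70 (.q k78 [(.s k68 k136 9 (.s k85 k170 14
  (.s k102 k119 4 (.s k221 k238 4 (.d k153 k17 k51 9 14))))), (.s k110 k157 12 (.s k127 k191 7 (.s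
  k93 k76 4 (.s k174 k12 12 (.d k238 k221 k46 4 7))))), (.s k85 k170 14 (.s k149 k213 7 (.s k110
  k157 12 (.s k126 k94 3 (.d k189 k252 k169 8 5)))))] .n) (.c k78 (.q k70 [(.s k68 k136 9 (.s k85
  k170 14 (.s k102 k119 4 (.s k221 k238 4 (.d k153 k17 k51 9 14))))), (.s k68 k136 9 (.s k69 k71 0
  (.s k207 k138 10 (.s k137 k141 1 (.d k205 k206 k1 0 9))))), (.s k85 k170 14 (.s k149 k213 7 (.s
  k157 k110 12 (.s k141 k137 1 (.d k189 k173 k169 3 5)))))] .n) .n))) (.c k11 (.q k7 [(.s k68 k136 9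
  (.s k85 k170 14 (.s k149 k213 7 (.s k102 k119 4 (.d k196 k70 k55 8 12))))), (.s k110 k157 12 (.s
  k127 k191 7 (.s k93 k76 4 (.s k174 k12 12 (.d k238 k221 k46 4 7)))))] (.c k70 (.q k78 [(.s k68
  k136 9 (.s k85 k170 14 (.s k102 k119 4 (.s k221 k238 4 (.d k153 k17 k51 9 14))))), (.s k110 k157
  12 (.s k127 k191 7 (.s k93 k76 4 (.s k174 k12 12 (.d k238 k221 k46 4 7))))), (.s k85 k170 14 (.s
  k149 k213 7 (.s k110 k157 12 (.s k126 k94 3 (.d k189 k252 k169 8 5)))))] (.c k137 (.q k200 [(.s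
  k68 k136 9 (.s k85 k170 14 (.s k102 k119 4 (.s k221 k238 4 (.d k153 k17 k51 9 14))))), (.s k110
  k157 12 (.s k127 k191 7 (.s k93 k76 4 (.s k174 k12 12 (.d k238 k221 k46 4 7))))), (.s k85 k170 14
  (.s k149 k213 7 (.s k110 k157 12 (.s k126 k94 3 (.d k189 k252 k169 8 5)))))] .n) (.c k200 (.l (.s
  k137 k141 1 (.s k68 k136 9 (.s k85 k170 14 (.s k102 k119 4 (.s k153 k51 14 (.d k221 k238 k17 4
  9))))))) .n))) (.c k78 (.l (.s k70 k196 8 (.s k68 k136 9 (.s k85 k170 14 (.s k102 k119 4 (.s k153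
  k51 14 (.d k221 k238 k17 4 9))))))) (.c k137 (.q k200 [(.s k85 k170 14 (.s k149 k213 7 (.s k157
  k110 12 (.s k153 k145 1 (.d k221 k238 k17 4 9))))), (.s k110 k157 12 (.s k127 k191 7 (.s k93 k76 4
  (.s k174 k12 12 (.d k238 k221 k46 4 7))))), (.s k68 k136 9 (.s k85 k170 14 (.s k149 k213 7 (.s
  k102 k119 4 (.d k196 k70 k55 8 12)))))] (.c k70 (.q k78 [(.s k68 k136 9 (.s k85 k170 14 (.s k102
  k119 4 (.s k221 k238 4 (.d k153 k17 k51 9 14))))), (.s k110 k157 12 (.s k127 k191 7 (.s k93 k76 4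
  (.s k174 k12 12 (.d k238 k221 k46 4 7))))), (.s k85 k170 14 (.s k149 k213 7 (.s k110 k157 12 (.s
  k126 k94 3 (.d k189 k252 k169 8 5)))))] .n) (.c k78 (.l (.s k70 k196 8 (.s k68 k136 9 (.s k85 k170
  14 (.s k102 k119 4 (.s k153 k51 14 (.d k221 k238 k17 4 9))))))) .n))) (.c k200 (.l (.s k137 k141 1
  (.s k68 k136 9 (.s k85 k170 14 (.s k149 k213 7 (.s k102 k119 4 (.d k196 k70 k55 8 12)))))))
  .n))))) (.c k70 (.q k78 [(.s k68 k136 9 (.s k85 k170 14 (.s k102 k119 4 (.s k221 k238 4 (.d k153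
  k17 k51 9 14))))), (.s k110 k157 12 (.s k127 k191 7 (.s k93 k76 4 (.s k174 k12 12 (.d k238 k221
  k46 4 7))))), (.s k85 k170 14 (.s k149 k213 7 (.s k110 k157 12 (.s k126 k94 3 (.d k189 k252 k169 8
  5)))))] (.c k7 (.q k11 [(.s k68 k136 9 (.s k85 k170 14 (.s k102 k119 4 (.s k221 k238 4 (.d k153
  k17 k51 9 14))))), (.s k110 k157 12 (.s k127 k191 7 (.s k93 k76 4 (.s k174 k12 12 (.d k238 k221
  k46 4 7))))), (.s k85 k170 14 (.s k149 k213 7 (.s k110 k157 12 (.s k126 k94 3 (.d k189 k252 k169 8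
  5)))))] .n) (.c k11 (.q k7 [(.s k68 k136 9 (.s k85 k170 14 (.s k102 k119 4 (.s k221 k238 4 (.d
  k153 k17 k51 9 14))))), (.s k110 k157 12 (.s k127 k191 7 (.s k93 k76 4 (.s k174 k12 12 (.d k238
  k221 k46 4 7))))), (.s k85 k170 14 (.s k149 k213 7 (.s k110 k157 12 (.s k126 k94 3 (.d k189 k252
  k169 8 5)))))] (.c k137 (.q k200 [(.s k68 k136 9 (.s k85 k170 14 (.s k102 k119 4 (.s k221 k238 4
  (.d k153 k17 k51 9 14))))), (.s k110 k157 12 (.s k127 k191 7 (.s k93 k76 4 (.s k174 k12 12 (.d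
  k238 k221 k46 4 7))))), (.s k85 k170 14 (.s k149 k213 7 (.s k110 k157 12 (.s k126 k94 3 (.d k189
  k252 k169 8 5)))))] .n) (.c k200 (.l (.s k137 k141 1 (.s k68 k136 9 (.s k85 k170 14 (.s k102 k119
  4 (.s k153 k51 14 (.d k221 k238 k17 4 9))))))) .n))) .n))) (.c k78 (.q k70 [(.s k68 k136 9 (.s k85
  k170 14 (.s k149 k213 7 (.s k102 k119 4 (.d k196 k7 k55 8 12))))), (.s k68 k136 9 (.s k69 k71 0
  (.s k207 k138 10 (.s k137 k141 1 (.d k205 k206 k1 0 9))))), (.s k85 k170 14 (.s k149 k213 7 (.s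
  k157 k110 12 (.s k141 k137 1 (.d k189 k173 k169 3 5)))))] (.c k7 (.q k11 [(.s k68 k136 9 (.s k85
  k170 14 (.s k102 k119 4 (.s k221 k238 4 (.d k153 k17 k51 9 14))))), (.s k68 k136 9 (.s k69 k71 0
  (.s k207 k138 10 (.s k137 k141 1 (.d k205 k206 k1 0 9))))), (.s k85 k170 14 (.s k149 k213 7 (.s
  k157 k110 12 (.s k141 k137 1 (.d k189 k173 k169 3 5)))))] .n) (.c k11 (.l (.s k7 k196 8 (.s k68
  k136 9 (.s k85 k170 14 (.s k102 k119 4 (.s k153 k51 14 (.d k221 k238 k17 4 9))))))) .n))) .n)))))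
  (.c k129 (.q k66 [(.s k68 k136 9 (.s k85 k170 14 (.s k102 k119 4 (.s k221 k238 4 (.d k153 k17 k51
  9 14))))), (.s k110 k157 12 (.s k127 k191 7 (.s k93 k76 4 (.s k174 k12 12 (.d k238 k221 k46 4
  7))))), (.s k68 k136 9 (.s k85 k170 14 (.s k149 k213 7 (.s k157 k110 12 (.s k102 k119 4 (.d k153
  k145 k51 1 14))))))] (.c k7 (.q k11 [(.s k68 k136 9 (.s k85 k170 14 (.s k102 k119 4 (.s k221 k238
  4 (.d k153 k17 k51 9 14))))), (.s k110 k157 12 (.s k127 k191 7 (.s k93 k76 4 (.s k174 k12 12 (.d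
  k238 k221 k46 4 7))))), (.s k68 k136 9 (.s k85 k170 14 (.s k149 k213 7 (.s k157 k110 12 (.s k102
  k119 4 (.d k153 k145 k51 1 14))))))] .n) (.c k11 (.q k7 [(.s k85 k170 14 (.s k196 k70 8 (.s k149
  k213 7 (.s k102 k55 12 (.d k68 k119 k136 4 9))))), (.s k110 k157 12 (.s k127 k191 7 (.s k93 k76 4
  (.s k174 k12 12 (.d k238 k221 k46 4 7)))))] (.c k137 (.q k200 [(.s k85 k170 14 (.s k196 k70 8 (.s
  k149 k213 7 (.s k102 k55 12 (.d k68 k119 k136 4 9))))), (.s k110 k157 12 (.s k127 k191 7 (.s k93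
  k76 4 (.s k174 k12 12 (.d k238 k221 k46 4 7)))))] .n) (.c k200 (.q k137 [(.s k68 k136 9 (.s k70
  k196 8 (.s k69 k71 0 (.s k207 k138 10 (.d k205 k206 k1 0 9))))), (.s k85 k170 14 (.s k149 k213 7
  (.s k157 k110 12 (.s k153 k145 1 (.d k221 k238 k17 4 9)))))] .n) .n))) .n))) .n))))) (.c k129 (.q
  k66 [(.s k68 k136 9 (.s k85 k170 14 (.s k102 k119 4 (.s k221 k238 4 (.d k153 k17 k51 9 14))))),
  (.s k110 k157 12 (.s k127 k191 7 (.s k93 k76 4 (.s k174 k12 12 (.d k238 k221 k46 4 7))))), (.s k68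
  k136 9 (.s k85 k170 14 (.s k149 k213 7 (.s k157 k110 12 (.s k102 k119 4 (.d k153 k145 k51 1
  14))))))] (.c k7 (.q k11 [(.s k68 k136 9 (.s k85 k170 14 (.s k102 k119 4 (.s k221 k238 4 (.d k153
  k17 k51 9 14))))), (.s k110 k157 12 (.s k127 k191 7 (.s k93 k76 4 (.s k174 k12 12 (.d k238 k221
  k46 4 7))))), (.s k68 k136 9 (.s k85 k170 14 (.s k149 k213 7 (.s k157 k110 12 (.s k102 k119 4 (.d
  k153 k145 k51 1 14))))))] (.c k74 (.q k133 [(.s k68 k136 9 (.s k85 k170 14 (.s k102 k119 4 (.s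
  k221 k238 4 (.d k153 k17 k51 9 14))))), (.s k110 k157 12 (.s k127 k191 7 (.s k93 k76 4 (.s k174
  k12 12 (.d k238 k221 k46 4 7))))), (.s k68 k136 9 (.s k85 k170 14 (.s k149 k213 7 (.s k157 k110 12
  (.s k102 k119 4 (.d k153 k145 k51 1 14))))))] .n) (.c k133 (.q k74 [(.s k68 k136 9 (.s k85 k170 14
  (.s k102 k119 4 (.s k221 k238 4 (.d k153 k17 k51 9 14))))), (.s k110 k157 12 (.s k127 k191 7 (.s
  k93 k76 4 (.s k174 k12 12 (.d k238 k221 k46 4 7))))), (.s k70 k78 1 (.s k68 k136 9 (.s k85 k170 14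
  (.s k127 k191 7 (.s k69 k71 0 (.d k64 k106 k79 6 2))))))] (.c k70 (.q k196 [(.s k68 k136 9 (.s k85
  k170 14 (.s k149 k213 7 (.d k102 k119 k55 4 12)))), (.s k68 k136 9 (.s k4 k132 7 (.s k55 k38 4 (.s
  k51 k59 1 (.d k102 k149 k153 12 14))))), (.s k68 k136 9 (.s k85 k170 14 (.s k4 k132 7 (.s k247
  k166 12 (.d k213 k149 k230 7 4))))), (.s k85 k170 14 (.s k149 k213 7 (.s k102 k55 12 (.s k153 k51
  14 (.d k157 k145 k110 1 12)))))] (.c k137 (.q k141 [(.s k85 k170 14 (.s k149 k213 7 (.s k102 k55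
  12 (.d k68 k119 k136 4 9)))), (.s k68 k136 9 (.s k4 k132 7 (.s k55 k38 4 (.s k51 k59 1 (.d k102
  k149 k153 12 14))))), (.s k68 k136 9 (.s k85 k170 14 (.s k4 k132 7 (.s k247 k166 12 (.d k213 k149
  k230 7 4))))), (.s k85 k170 14 (.s k149 k213 7 (.s k102 k55 12 (.s k153 k51 14 (.d k157 k145 k110
  1 12)))))] (.c k149 (.l (.s k68 k136 9 (.s k85 k170 14 (.s k102 k119 4 (.s k153 k51 14 (.d k221
  k238 k17 4 9)))))) .n)) (.c k141 (.l (.s k137 k200 8 (.s k68 k136 9 (.s k85 k170 14 (.s k149 k213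
  7 (.d k102 k119 k55 4 12)))))) (.c k149 (.l (.s k68 k136 9 (.s k85 k170 14 (.s k102 k119 4 (.s
  k153 k51 14 (.d k221 k238 k17 4 9)))))) (.c k153 (.l (.s k85 k170 14 (.s k149 k213 7 (.s k102 k55
  12 (.d k68 k136 k119 9 4))))) .n))))) (.c k137 (.q k141 [(.s k136 k68 9 (.s k238 k221 4 (.s k170
  k85 14 (.s k102 k34 9 (.d k153 k187 k51 4 14))))), (.s k110 k157 12 (.s k127 k191 7 (.s k93 k76 4
  (.s k174 k12 12 (.d k238 k221 k46 4 7))))), (.s k70 k78 1 (.s k68 k136 9 (.s k85 k170 14 (.s k127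
  k191 7 (.s k69 k71 0 (.d k64 k106 k79 6 2))))))] (.c k70 (.q k196 [(.s k85 k170 14 (.s k149 k213 7
  (.s k102 k55 12 (.d k68 k119 k136 4 9)))), (.s k68 k136 9 (.s k4 k132 7 (.s k55 k38 4 (.s k51 k59
  1 (.d k102 k149 k153 12 14))))), (.s k68 k136 9 (.s k85 k170 14 (.s k4 k132 7 (.s k247 k166 12 (.d
  k213 k149 k230 7 4))))), (.s k85 k170 14 (.s k149 k213 7 (.s k102 k55 12 (.s k153 k51 14 (.d k157
  k145 k110 1 12)))))] (.c k149 (.l (.s k68 k136 9 (.s k85 k170 14 (.s k102 k119 4 (.s k153 k51 14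
  (.d k221 k238 k17 4 9)))))) .n)) (.c k196 (.l (.s k70 k78 1 (.s k68 k136 9 (.s k85 k170 14 (.s
  k127 k191 7 (.s k69 k71 0 (.d k64 k106 k79 6 2))))))) .n))) (.c k141 (.l (.s k137 k200 8 (.s k68
  k136 9 (.s k85 k170 14 (.s k102 k119 4 (.s k153 k51 14 (.d k221 k238 k17 4 9))))))) (.c k196 (.l
  (.s k70 k78 1 (.s k68 k136 9 (.s k85 k170 14 (.s k127 k191 7 (.s k69 k71 0 (.d k64 k106 k79 6
  2))))))) .n))))) .n))) (.c k11 (.q k7 [(.s k68 k136 9 (.s k85 k170 14 (.s k102 k119 4 (.s k221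
  k238 4 (.d k153 k17 k51 9 14))))), (.s k110 k157 12 (.s k127 k191 7 (.s k93 k76 4 (.s k174 k12 12
  (.d k238 k221 k46 4 7))))), (.s k68 k136 9 (.s k85 k170 14 (.s k149 k213 7 (.s k157 k110 12 (.s
  k102 k119 4 (.d k153 k145 k51 1 14))))))] (.c k74 (.q k133 [(.s k85 k170 14 (.s k196 k70 8 (.s
  k149 k213 7 (.s k102 k55 12 (.d k68 k119 k136 4 9))))), (.s k110 k157 12 (.s k127 k191 7 (.s k93
  k76 4 (.s k174 k12 12 (.d k238 k221 k46 4 7)))))] (.c k137 (.q k200 [(.s k85 k170 14 (.s k196 k70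
  8 (.s k149 k213 7 (.s k102 k55 12 (.d k68 k119 k136 4 9))))), (.s k110 k157 12 (.s k127 k191 7 (.s
  k93 k76 4 (.s k174 k12 12 (.d k238 k221 k46 4 7)))))] .n) (.c k200 (.q k137 [(.s k68 k136 9 (.s
  k70 k196 8 (.s k69 k71 0 (.s k207 k138 10 (.d k205 k206 k1 0 9))))), (.s k85 k170 14 (.s k149 k213
  7 (.s k157 k110 12 (.s k153 k145 1 (.d k221 k238 k17 4 9)))))] .n) .n))) (.c k133 (.q k74 [(.s k68
  k136 9 (.s k85 k170 14 (.s k102 k119 4 (.s k221 k238 4 (.d k153 k17 k51 9 14))))), (.s k110 k157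
  12 (.s k127 k191 7 (.s k93 k76 4 (.s k174 k12 12 (.d k238 k221 k46 4 7))))), (.s k68 k136 9 (.s
  k85 k170 14 (.s k149 k213 7 (.s k157 k110 12 (.s k102 k119 4 (.d k153 k145 k51 1 14))))))] (.c
  k137 (.q k141 [(.s k136 k68 9 (.s k238 k221 4 (.s k170 k85 14 (.s k102 k34 9 (.d k153 k187 k51 4
  14))))), (.s k110 k157 12 (.s k127 k191 7 (.s k93 k76 4 (.s k174 k12 12 (.d k238 k221 k46 4
  7))))), (.s k68 k136 9 (.s k85 k170 14 (.s k149 k213 7 (.s k157 k110 12 (.s k102 k119 4 (.d k153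
  k145 k51 1 14))))))] .n) (.c k141 (.q k137 [(.s k68 k136 9 (.s k70 k78 1 (.s k69 k71 0 (.s k207
  k138 10 (.d k205 k206 k1 0 9))))), (.s k85 k170 14 (.s k149 k213 7 (.s k157 k110 12 (.s k153 k145
  1 (.d k221 k238 k17 4 9)))))] .n) .n))) .n))) (.c k74 (.q k133 [(.s k68 k136 9 (.s k85 k170 14 (.s
  k102 k119 4 (.s k221 k238 4 (.d k153 k17 k51 9 14))))), (.s k110 k157 12 (.s k127 k191 7 (.s k93
  k76 4 (.s k174 k12 12 (.d k238 k221 k46 4 7))))), (.s k68 k136 9 (.s k85 k170 14 (.s k149 k213 7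
  (.s k157 k110 12 (.s k102 k119 4 (.d k153 k145 k51 1 14))))))] (.c k7 (.q k11 [(.s k68 k136 9 (.s
  k85 k170 14 (.s k102 k119 4 (.s k221 k238 4 (.d k153 k17 k51 9 14))))), (.s k110 k157 12 (.s k127
  k191 7 (.s k93 k76 4 (.s k174 k12 12 (.d k238 k221 k46 4 7))))), (.s k68 k136 9 (.s k85 k170 14
  (.s k149 k213 7 (.s k157 k110 12 (.s k102 k119 4 (.d k153 k145 k51 1 14))))))] .n) (.c k11 (.q k7
  [(.s k85 k170 14 (.s k196 k70 8 (.s k149 k213 7 (.s k102 k55 12 (.d k68 k119 k136 4 9))))), (.s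
  k110 k157 12 (.s k127 k191 7 (.s k93 k76 4 (.s k174 k12 12 (.d k238 k221 k46 4 7)))))] (.c k137
  (.q k200 [(.s k85 k170 14 (.s k196 k70 8 (.s k149 k213 7 (.s k102 k55 12 (.d k68 k119 k136 4
  9))))), (.s k110 k157 12 (.s k127 k191 7 (.s k93 k76 4 (.s k174 k12 12 (.d k238 k221 k46 4 7)))))]
  .n) (.c k200 (.q k137 [(.s k68 k136 9 (.s k70 k196 8 (.s k69 k71 0 (.s k207 k138 10 (.d k205 k206
  k1 0 9))))), (.s k85 k170 14 (.s k149 k213 7 (.s k157 k110 12 (.s k153 k145 1 (.d k221 k238 k17 4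
  9)))))] .n) .n))) .n))) (.c k133 (.q k74 [(.s k68 k136 9 (.s k85 k170 14 (.s k102 k119 4 (.s k221
  k238 4 (.d k153 k17 k51 9 14))))), (.s k110 k157 12 (.s k127 k191 7 (.s k93 k76 4 (.s k174 k12 12
  (.d k238 k221 k46 4 7))))), (.s k68 k136 9 (.s k85 k170 14 (.s k149 k213 7 (.s k157 k110 12 (.s
  k102 k119 4 (.d k153 k145 k51 1 14))))))] (.c k7 (.q k11 [(.s k68 k136 9 (.s k85 k170 14 (.s k102
  k119 4 (.s k221 k238 4 (.d k153 k17 k51 9 14))))), (.s k110 k157 12 (.s k127 k191 7 (.s k93 k76 4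
  (.s k174 k12 12 (.d k238 k221 k46 4 7))))), (.s k70 k78 1 (.s k68 k136 9 (.s k85 k170 14 (.s k127
  k191 7 (.s k69 k71 0 (.d k64 k106 k79 6 2))))))] (.c k70 (.q k196 [(.s k68 k136 9 (.s k85 k170 14
  (.s k149 k213 7 (.d k102 k119 k55 4 12)))), (.s k68 k136 9 (.s k4 k132 7 (.s k55 k38 4 (.s k51 k59
  1 (.d k102 k149 k153 12 14))))), (.s k68 k136 9 (.s k85 k170 14 (.s k4 k132 7 (.s k247 k166 12 (.d
  k213 k149 k230 7 4))))), (.s k85 k170 14 (.s k149 k213 7 (.s k102 k55 12 (.s k153 k51 14 (.d k157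
  k145 k110 1 12)))))] (.c k137 (.q k141 [(.s k85 k170 14 (.s k149 k213 7 (.s k102 k55 12 (.d k68
  k119 k136 4 9)))), (.s k68 k136 9 (.s k4 k132 7 (.s k55 k38 4 (.s k51 k59 1 (.d k102 k149 k153 12
  14))))), (.s k68 k136 9 (.s k85 k170 14 (.s k4 k132 7 (.s k247 k166 12 (.d k213 k149 k230 7
  4))))), (.s k85 k170 14 (.s k149 k213 7 (.s k102 k55 12 (.s k153 k51 14 (.d k157 k145 k110 1
  12)))))] (.c k149 (.l (.s k68 k136 9 (.s k85 k170 14 (.s k102 k119 4 (.s k153 k51 14 (.d k221 k238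
  k17 4 9)))))) .n)) (.c k141 (.l (.s k137 k200 8 (.s k68 k136 9 (.s k85 k170 14 (.s k149 k213 7 (.d
  k102 k119 k55 4 12)))))) (.c k149 (.l (.s k68 k136 9 (.s k85 k170 14 (.s k102 k119 4 (.s k153 k51
  14 (.d k221 k238 k17 4 9)))))) (.c k153 (.l (.s k85 k170 14 (.s k149 k213 7 (.s k102 k55 12 (.d
  k68 k136 k119 9 4))))) .n))))) (.c k137 (.q k141 [(.s k136 k68 9 (.s k238 k221 4 (.s k170 k85 14
  (.s k102 k34 9 (.d k153 k187 k51 4 14))))), (.s k110 k157 12 (.s k127 k191 7 (.s k93 k76 4 (.s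
  k174 k12 12 (.d k238 k221 k46 4 7))))), (.s k70 k78 1 (.s k68 k136 9 (.s k85 k170 14 (.s k127 k191
  7 (.s k69 k71 0 (.d k64 k106 k79 6 2))))))] (.c k70 (.q k196 [(.s k85 k170 14 (.s k149 k213 7 (.s
  k102 k55 12 (.d k68 k119 k136 4 9)))), (.s k68 k136 9 (.s k4 k132 7 (.s k55 k38 4 (.s k51 k59 1
  (.d k102 k149 k153 12 14))))), (.s k68 k136 9 (.s k85 k170 14 (.s k4 k132 7 (.s k247 k166 12 (.d
  k213 k149 k230 7 4))))), (.s k85 k170 14 (.s k149 k213 7 (.s k102 k55 12 (.s k153 k51 14 (.d k157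
  k145 k110 1 12)))))] (.c k149 (.l (.s k68 k136 9 (.s k85 k170 14 (.s k102 k119 4 (.s k153 k51 14
  (.d k221 k238 k17 4 9)))))) .n)) (.c k196 (.l (.s k70 k78 1 (.s k68 k136 9 (.s k85 k170 14 (.s
  k127 k191 7 (.s k69 k71 0 (.d k64 k106 k79 6 2))))))) .n))) (.c k141 (.l (.s k137 k200 8 (.s k68
  k136 9 (.s k85 k170 14 (.s k102 k119 4 (.s k153 k51 14 (.d k221 k238 k17 4 9))))))) (.c k196 (.l
  (.s k70 k78 1 (.s k68 k136 9 (.s k85 k170 14 (.s k127 k191 7 (.s k69 k71 0 (.d k64 k106 k79 6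
  2))))))) .n))))) (.c k11 (.q k7 [(.s k68 k136 9 (.s k85 k170 14 (.s k102 k119 4 (.s k221 k238 4
  (.d k153 k17 k51 9 14))))), (.s k110 k157 12 (.s k127 k191 7 (.s k93 k76 4 (.s k174 k12 12 (.d
  k238 k221 k46 4 7))))), (.s k68 k136 9 (.s k85 k170 14 (.s k149 k213 7 (.s k157 k110 12 (.s k102
  k119 4 (.d k153 k145 k51 1 14))))))] (.c k137 (.q k141 [(.s k136 k68 9 (.s k238 k221 4 (.s k170
  k85 14 (.s k102 k34 9 (.d k153 k187 k51 4 14))))), (.s k110 k157 12 (.s k127 k191 7 (.s k93 k76 4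
  (.s k174 k12 12 (.d k238 k221 k46 4 7))))), (.s k68 k136 9 (.s k85 k170 14 (.s k149 k213 7 (.s
  k157 k110 12 (.s k102 k119 4 (.d k153 k145 k51 1 14))))))] .n) (.c k141 (.q k137 [(.s k68 k136 9
  (.s k70 k78 1 (.s k69 k71 0 (.s k207 k138 10 (.d k205 k206 k1 0 9))))), (.s k85 k170 14 (.s k149
  k213 7 (.s k157 k110 12 (.s k153 k145 1 (.d k221 k238 k17 4 9)))))] .n) .n))) (.c k137 (.q k141
  [(.s k136 k68 9 (.s k238 k221 4 (.s k170 k85 14 (.s k102 k34 9 (.d k153 k187 k51 4 14))))), (.s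
  k110 k157 12 (.s k127 k191 7 (.s k93 k76 4 (.s k174 k12 12 (.d k238 k221 k46 4 7))))), (.s k68
  k136 9 (.s k85 k170 14 (.s k149 k213 7 (.s k157 k110 12 (.s k102 k119 4 (.d k153 k145 k51 1
  14))))))] (.c k7 (.q k11 [(.s k136 k68 9 (.s k238 k221 4 (.s k170 k85 14 (.s k102 k34 9 (.d k153
  k187 k51 4 14))))), (.s k110 k157 12 (.s k127 k191 7 (.s k93 k76 4 (.s k174 k12 12 (.d k238 k221
  k46 4 7))))), (.s k70 k78 1 (.s k68 k136 9 (.s k85 k170 14 (.s k127 k191 7 (.s k69 k71 0 (.d k64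
  k106 k79 6 2))))))] (.c k70 (.q k196 [(.s k85 k170 14 (.s k149 k213 7 (.s k102 k55 12 (.d k68 k119
  k136 4 9)))), (.s k68 k136 9 (.s k4 k132 7 (.s k55 k38 4 (.s k51 k59 1 (.d k102 k149 k153 12
  14))))), (.s k68 k136 9 (.s k85 k170 14 (.s k4 k132 7 (.s k247 k166 12 (.d k213 k149 k230 7
  4))))), (.s k85 k170 14 (.s k149 k213 7 (.s k102 k55 12 (.s k153 k51 14 (.d k157 k145 k110 1
  12)))))] (.c k149 (.l (.s k68 k136 9 (.s k85 k170 14 (.s k102 k119 4 (.s k153 k51 14 (.d k221 k238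
  k17 4 9)))))) .n)) (.c k196 (.l (.s k70 k78 1 (.s k68 k136 9 (.s k85 k170 14 (.s k127 k191 7 (.s
  k69 k71 0 (.d k64 k106 k79 6 2))))))) .n))) (.c k11 (.q k7 [(.s k136 k68 9 (.s k238 k221 4 (.s
  k170 k85 14 (.s k102 k34 9 (.d k153 k187 k51 4 14))))), (.s k110 k157 12 (.s k127 k191 7 (.s k93
  k76 4 (.s k174 k12 12 (.d k238 k221 k46 4 7))))), (.s k68 k136 9 (.s k85 k170 14 (.s k149 k213 7
  (.s k157 k110 12 (.s k102 k119 4 (.d k153 k145 k51 1 14))))))] .n) .n))) (.c k141 (.q k137 [(.s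
  k68 k136 9 (.s k70 k78 1 (.s k69 k71 0 (.s k207 k138 10 (.d k205 k206 k1 0 9))))), (.s k85 k170 14
  (.s k149 k213 7 (.s k157 k110 12 (.s k153 k145 1 (.d k221 k238 k17 4 9)))))] (.c k7 (.l (.s k11
  k200 8 (.s k68 k136 9 (.s k85 k170 14 (.s k102 k119 4 (.s k153 k51 14 (.d k221 k238 k17 4 9)))))))
  (.c k11 (.q k7 [(.s k68 k136 9 (.s k70 k78 1 (.s k69 k71 0 (.s k207 k138 10 (.d k205 k206 k1 0
  9))))), (.s k85 k170 14 (.s k149 k213 7 (.s k157 k110 12 (.s k153 k145 1 (.d k221 k238 k17 4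
  9)))))] .n) .n))) .n))))) .n))))) (.c k133 (.q k74 [(.s k68 k136 9 (.s k85 k170 14 (.s k102 k119 4
  (.s k221 k238 4 (.d k153 k17 k51 9 14))))), (.s k110 k157 12 (.s k127 k191 7 (.s k93 k76 4 (.s
  k174 k12 12 (.d k238 k221 k46 4 7))))), (.s k68 k136 9 (.s k85 k170 14 (.s k149 k213 7 (.s k157
  k110 12 (.s k102 k119 4 (.d k153 k145 k51 1 14))))))] (.c k7 (.q k11 [(.s k68 k136 9 (.s k85 k170
  14 (.s k102 k119 4 (.s k221 k238 4 (.d k153 k17 k51 9 14))))), (.s k110 k157 12 (.s k127 k191 7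
  (.s k93 k76 4 (.s k174 k12 12 (.d k238 k221 k46 4 7))))), (.s k68 k136 9 (.s k85 k170 14 (.s k149
  k213 7 (.s k157 k110 12 (.s k102 k119 4 (.d k153 k145 k51 1 14))))))] (.c k66 (.q k129 [(.s k68
  k136 9 (.s k85 k170 14 (.s k102 k119 4 (.s k221 k238 4 (.d k153 k17 k51 9 14))))), (.s k110 k157
  12 (.s k127 k191 7 (.s k93 k76 4 (.s k174 k12 12 (.d k238 k221 k46 4 7))))), (.s k68 k136 9 (.s
  k85 k170 14 (.s k149 k213 7 (.s k157 k110 12 (.s k102 k119 4 (.d k153 k145 k51 1 14))))))] (.c k70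
  (.q k196 [(.s k68 k136 9 (.s k85 k170 14 (.s k149 k213 7 (.d k102 k119 k55 4 12)))), (.s k68 k136
  9 (.s k4 k132 7 (.s k55 k38 4 (.s k51 k59 1 (.d k102 k149 k153 12 14))))), (.s k68 k136 9 (.s k85
  k170 14 (.s k4 k132 7 (.s k247 k166 12 (.d k213 k149 k230 7 4))))), (.s k85 k170 14 (.s k149 k213
  7 (.s k102 k55 12 (.s k153 k51 14 (.d k157 k145 k110 1 12)))))] (.c k149 (.l (.s k68 k136 9 (.s
  k85 k170 14 (.s k102 k119 4 (.s k153 k51 14 (.d k221 k238 k17 4 9)))))) (.c k153 (.l (.s k85 k170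
  14 (.s k149 k213 7 (.s k102 k55 12 (.d k68 k136 k119 9 4))))) .n))) (.c k196 (.q k70 [(.s k85 k170
  14 (.s k149 k213 7 (.s k157 k110 12 (.s k153 k145 1 (.d k221 k238 k17 4 9))))), (.s k68 k136 9 (.s
  k137 k200 8 (.s k69 k71 0 (.s k207 k138 10 (.d k205 k206 k1 0 9)))))] .n) .n))) (.c k70 (.q k196
  [(.s k68 k136 9 (.s k85 k170 14 (.s k149 k213 7 (.d k102 k119 k55 4 12)))), (.s k68 k136 9 (.s k4
  k132 7 (.s k55 k38 4 (.s k51 k59 1 (.d k102 k149 k153 12 14))))), (.s k68 k136 9 (.s k85 k170 14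
  (.s k4 k132 7 (.s k247 k166 12 (.d k213 k149 k230 7 4))))), (.s k85 k170 14 (.s k149 k213 7 (.s
  k102 k55 12 (.s k153 k51 14 (.d k157 k145 k110 1 12)))))] (.c k66 (.q k129 [(.s k68 k136 9 (.s k85
  k170 14 (.s k149 k213 7 (.d k102 k119 k55 4 12)))), (.s k68 k136 9 (.s k4 k132 7 (.s k55 k38 4 (.s
  k51 k59 1 (.d k102 k149 k153 12 14))))), (.s k68 k136 9 (.s k85 k170 14 (.s k4 k132 7 (.s k247
  k166 12 (.d k213 k149 k230 7 4))))), (.s k85 k170 14 (.s k149 k213 7 (.s k102 k55 12 (.s k153 k51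
  14 (.d k157 k145 k110 1 12)))))] (.c k149 (.l (.s k68 k136 9 (.s k85 k170 14 (.s k102 k119 4 (.s
  k153 k51 14 (.d k221 k238 k17 4 9)))))) (.c k153 (.l (.s k85 k170 14 (.s k149 k213 7 (.s k102 k55
  12 (.d k68 k136 k119 9 4))))) .n))) (.c k129 (.q k66 [(.s k68 k136 9 (.s k85 k170 14 (.s k149 k213
  7 (.d k102 k119 k55 4 12)))), (.s k68 k136 9 (.s k4 k132 7 (.s k55 k38 4 (.s k51 k59 1 (.d k102
  k149 k153 12 14))))), (.s k68 k136 9 (.s k85 k170 14 (.s k4 k132 7 (.s k247 k166 12 (.d k213 k149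
  k230 7 4))))), (.s k85 k170 14 (.s k149 k213 7 (.s k102 k55 12 (.s k153 k51 14 (.d k157 k145 k110
  1 12)))))] (.c k137 (.q k141 [(.s k85 k170 14 (.s k149 k213 7 (.s k102 k55 12 (.d k68 k119 k136 4
  9)))), (.s k68 k136 9 (.s k4 k132 7 (.s k55 k38 4 (.s k51 k59 1 (.d k102 k149 k153 12 14))))), (.s
  k68 k136 9 (.s k85 k170 14 (.s k4 k132 7 (.s k247 k166 12 (.d k213 k149 k230 7 4))))), (.s k85
  k170 14 (.s k149 k213 7 (.s k102 k55 12 (.s k153 k51 14 (.d k157 k145 k110 1 12)))))] (.c k149 (.l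
  (.s k68 k136 9 (.s k85 k170 14 (.s k102 k119 4 (.s k153 k51 14 (.d k221 k238 k17 4 9)))))) .n))
  (.c k141 (.l (.s k137 k200 8 (.s k68 k136 9 (.s k85 k170 14 (.s k149 k213 7 (.d k102 k119 k55 4
  12)))))) (.c k149 (.l (.s k68 k136 9 (.s k85 k170 14 (.s k102 k119 4 (.s k153 k51 14 (.d k221 k238
  k17 4 9)))))) (.c k153 (.l (.s k85 k170 14 (.s k149 k213 7 (.s k102 k55 12 (.d k68 k136 k119 9
  4))))) .n))))) (.c k149 (.l (.s k68 k136 9 (.s k85 k170 14 (.s k102 k119 4 (.s k153 k51 14 (.d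
  k221 k238 k17 4 9)))))) (.c k153 (.l (.s k85 k170 14 (.s k149 k213 7 (.s k102 k55 12 (.d k68 k136
  k119 9 4))))) .n))))) (.c k129 (.q k66 [(.s k68 k136 9 (.s k85 k170 14 (.s k102 k119 4 (.s k221
  k238 4 (.d k153 k17 k51 9 14))))), (.s k110 k157 12 (.s k127 k191 7 (.s k93 k76 4 (.s k174 k12 12
  (.d k238 k221 k46 4 7))))), (.s k70 k78 1 (.s k68 k136 9 (.s k85 k170 14 (.s k127 k191 7 (.s k69
  k71 0 (.d k64 k106 k79 6 2))))))] (.c k70 (.q k196 [(.s k68 k136 9 (.s k85 k170 14 (.s k149 k213 7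
  (.d k102 k119 k55 4 12)))), (.s k68 k136 9 (.s k4 k132 7 (.s k55 k38 4 (.s k51 k59 1 (.d k102 k149
  k153 12 14))))), (.s k68 k136 9 (.s k85 k170 14 (.s k4 k132 7 (.s k247 k166 12 (.d k213 k149 k230
  7 4))))), (.s k85 k170 14 (.s k149 k213 7 (.s k102 k55 12 (.s k153 k51 14 (.d k157 k145 k110 1
  12)))))] (.c k137 (.q k141 [(.s k85 k170 14 (.s k149 k213 7 (.s k102 k55 12 (.d k68 k119 k136 4
  9)))), (.s k68 k136 9 (.s k4 k132 7 (.s k55 k38 4 (.s k51 k59 1 (.d k102 k149 k153 12 14))))), (.s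
  k68 k136 9 (.s k85 k170 14 (.s k4 k132 7 (.s k247 k166 12 (.d k213 k149 k230 7 4))))), (.s k85
  k170 14 (.s k149 k213 7 (.s k102 k55 12 (.s k153 k51 14 (.d k157 k145 k110 1 12)))))] (.c k149 (.l
  (.s k68 k136 9 (.s k85 k170 14 (.s k102 k119 4 (.s k153 k51 14 (.d k221 k238 k17 4 9)))))) .n))
  (.c k141 (.l (.s k137 k200 8 (.s k68 k136 9 (.s k85 k170 14 (.s k149 k213 7 (.d k102 k119 k55 4
  12)))))) (.c k149 (.l (.s k68 k136 9 (.s k85 k170 14 (.s k102 k119 4 (.s k153 k51 14 (.d k221 k238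
  k17 4 9)))))) (.c k153 (.l (.s k85 k170 14 (.s k149 k213 7 (.s k102 k55 12 (.d k68 k136 k119 9
  4))))) .n))))) (.c k137 (.q k141 [(.s k136 k68 9 (.s k238 k221 4 (.s k170 k85 14 (.s k102 k34 9
  (.d k153 k187 k51 4 14))))), (.s k110 k157 12 (.s k127 k191 7 (.s k93 k76 4 (.s k174 k12 12 (.d
  k238 k221 k46 4 7))))), (.s k70 k78 1 (.s k68 k136 9 (.s k85 k170 14 (.s k127 k191 7 (.s k69 k71 0
  (.d k64 k106 k79 6 2))))))] (.c k70 (.q k196 [(.s k85 k170 14 (.s k149 k213 7 (.s k102 k55 12 (.d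
  k68 k119 k136 4 9)))), (.s k68 k136 9 (.s k4 k132 7 (.s k55 k38 4 (.s k51 k59 1 (.d k102 k149 k153
  12 14))))), (.s k68 k136 9 (.s k85 k170 14 (.s k4 k132 7 (.s k247 k166 12 (.d k213 k149 k230 7
  4))))), (.s k85 k170 14 (.s k149 k213 7 (.s k102 k55 12 (.s k153 k51 14 (.d k157 k145 k110 1
  12)))))] (.c k149 (.l (.s k68 k136 9 (.s k85 k170 14 (.s k102 k119 4 (.s k153 k51 14 (.d k221 k238
  k17 4 9)))))) .n)) (.c k196 (.l (.s k70 k78 1 (.s k68 k136 9 (.s k85 k170 14 (.s k127 k191 7 (.s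
  k69 k71 0 (.d k64 k106 k79 6 2))))))) .n))) (.c k141 (.l (.s k137 k200 8 (.s k68 k136 9 (.s k85
  k170 14 (.s k102 k119 4 (.s k153 k51 14 (.d k221 k238 k17 4 9))))))) (.c k196 (.l (.s k70 k78 1
  (.s k68 k136 9 (.s k85 k170 14 (.s k127 k191 7 (.s k69 k71 0 (.d k64 k106 k79 6 2))))))) .n)))))
  (.c k196 (.q k70 [(.s k85 k170 14 (.s k149 k213 7 (.s k157 k110 12 (.s k153 k145 1 (.d k221 k238
  k17 4 9))))), (.s k68 k136 9 (.s k137 k200 8 (.s k69 k71 0 (.s k207 k138 10 (.d k205 k206 k1 0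
  9)))))] (.c k66 (.q k129 [(.s k85 k170 14 (.s k149 k213 7 (.s k157 k110 12 (.s k153 k145 1 (.d
  k221 k238 k17 4 9))))), (.s k68 k136 9 (.s k137 k200 8 (.s k69 k71 0 (.s k207 k138 10 (.d k205
  k206 k1 0 9)))))] .n) (.c k129 (.l (.s k66 k78 1 (.s k68 k136 9 (.s k85 k170 14 (.s k127 k191 7
  (.s k69 k71 0 (.d k64 k106 k79 6 2))))))) .n))) .n))))) (.c k11 (.q k7 [(.s k68 k136 9 (.s k85
  k170 14 (.s k102 k119 4 (.s k221 k238 4 (.d k153 k17 k51 9 14))))), (.s k110 k157 12 (.s k127 k191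
  7 (.s k93 k76 4 (.s k174 k12 12 (.d k238 k221 k46 4 7))))), (.s k68 k136 9 (.s k85 k170 14 (.s
  k149 k213 7 (.s k157 k110 12 (.s k102 k119 4 (.d k153 k145 k51 1 14))))))] (.c k66 (.q k129 [(.s
  k68 k136 9 (.s k85 k170 14 (.s k102 k119 4 (.s k221 k238 4 (.d k153 k17 k51 9 14))))), (.s k110
  k157 12 (.s k127 k191 7 (.s k93 k76 4 (.s k174 k12 12 (.d k238 k221 k46 4 7))))), (.s k68 k136 9
  (.s k85 k170 14 (.s k149 k213 7 (.s k157 k110 12 (.s k102 k119 4 (.d k153 k145 k51 1 14))))))] .n)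
  (.c k129 (.q k66 [(.s k68 k136 9 (.s k85 k170 14 (.s k102 k119 4 (.s k221 k238 4 (.d k153 k17 k51
  9 14))))), (.s k110 k157 12 (.s k127 k191 7 (.s k93 k76 4 (.s k174 k12 12 (.d k238 k221 k46 4
  7))))), (.s k68 k136 9 (.s k85 k170 14 (.s k149 k213 7 (.s k157 k110 12 (.s k102 k119 4 (.d k153
  k145 k51 1 14))))))] (.c k137 (.q k141 [(.s k136 k68 9 (.s k238 k221 4 (.s k170 k85 14 (.s k102
  k34 9 (.d k153 k187 k51 4 14))))), (.s k110 k157 12 (.s k127 k191 7 (.s k93 k76 4 (.s k174 k12 12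
  (.d k238 k221 k46 4 7))))), (.s k68 k136 9 (.s k85 k170 14 (.s k149 k213 7 (.s k157 k110 12 (.s
  k102 k119 4 (.d k153 k145 k51 1 14))))))] .n) (.c k141 (.q k137 [(.s k68 k136 9 (.s k70 k78 1 (.s
  k69 k71 0 (.s k207 k138 10 (.d k205 k206 k1 0 9))))), (.s k85 k170 14 (.s k149 k213 7 (.s k157
  k110 12 (.s k153 k145 1 (.d k221 k238 k17 4 9)))))] .n) .n))) .n))) (.c k66 (.q k129 [(.s k68 k136
  9 (.s k85 k170 14 (.s k102 k119 4 (.s k221 k238 4 (.d k153 k17 k51 9 14))))), (.s k110 k157 12 (.s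
  k127 k191 7 (.s k93 k76 4 (.s k174 k12 12 (.d k238 k221 k46 4 7))))), (.s k68 k136 9 (.s k85 k170
  14 (.s k149 k213 7 (.s k157 k110 12 (.s k102 k119 4 (.d k153 k145 k51 1 14))))))] (.c k7 (.q k11
  [(.s k68 k136 9 (.s k85 k170 14 (.s k102 k119 4 (.s k221 k238 4 (.d k153 k17 k51 9 14))))), (.s
  k110 k157 12 (.s k127 k191 7 (.s k93 k76 4 (.s k174 k12 12 (.d k238 k221 k46 4 7))))), (.s k68
  k136 9 (.s k85 k170 14 (.s k149 k213 7 (.s k157 k110 12 (.s k102 k119 4 (.d k153 k145 k51 1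
  14))))))] (.c k70 (.q k196 [(.s k68 k136 9 (.s k85 k170 14 (.s k149 k213 7 (.d k102 k119 k55 4
  12)))), (.s k68 k136 9 (.s k4 k132 7 (.s k55 k38 4 (.s k51 k59 1 (.d k102 k149 k153 12 14))))),
  (.s k68 k136 9 (.s k85 k170 14 (.s k4 k132 7 (.s k247 k166 12 (.d k213 k149 k230 7 4))))), (.s k85
  k170 14 (.s k149 k213 7 (.s k102 k55 12 (.s k153 k51 14 (.d k157 k145 k110 1 12)))))] (.c k149 (.l
  (.s k68 k136 9 (.s k85 k170 14 (.s k102 k119 4 (.s k153 k51 14 (.d k221 k238 k17 4 9)))))) (.c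
  k153 (.l (.s k85 k170 14 (.s k149 k213 7 (.s k102 k55 12 (.d k68 k136 k119 9 4))))) .n))) (.c k196
  (.q k70 [(.s k85 k170 14 (.s k149 k213 7 (.s k157 k110 12 (.s k153 k145 1 (.d k221 k238 k17 4
  9))))), (.s k68 k136 9 (.s k137 k200 8 (.s k69 k71 0 (.s k207 k138 10 (.d k205 k206 k1 0 9)))))]
  .n) .n))) (.c k11 (.q k7 [(.s k68 k136 9 (.s k85 k170 14 (.s k102 k119 4 (.s k221 k238 4 (.d k153
  k17 k51 9 14))))), (.s k110 k157 12 (.s k127 k191 7 (.s k93 k76 4 (.s k174 k12 12 (.d k238 k221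
  k46 4 7))))), (.s k68 k136 9 (.s k85 k170 14 (.s k149 k213 7 (.s k157 k110 12 (.s k102 k119 4 (.d
  k153 k145 k51 1 14))))))] .n) .n))) (.c k129 (.q k66 [(.s k68 k136 9 (.s k85 k170 14 (.s k102 k119
  4 (.s k221 k238 4 (.d k153 k17 k51 9 14))))), (.s k110 k157 12 (.s k127 k191 7 (.s k93 k76 4 (.s
  k174 k12 12 (.d k238 k221 k46 4 7))))), (.s k68 k136 9 (.s k85 k170 14 (.s k149 k213 7 (.s k157
  k110 12 (.s k102 k119 4 (.d k153 k145 k51 1 14))))))] (.c k7 (.q k11 [(.s k68 k136 9 (.s k85 k170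
  14 (.s k102 k119 4 (.s k221 k238 4 (.d k153 k17 k51 9 14))))), (.s k110 k157 12 (.s k127 k191 7
  (.s k93 k76 4 (.s k174 k12 12 (.d k238 k221 k46 4 7))))), (.s k70 k78 1 (.s k68 k136 9 (.s k85
  k170 14 (.s k127 k191 7 (.s k69 k71 0 (.d k64 k106 k79 6 2))))))] (.c k70 (.q k196 [(.s k68 k136 9
  (.s k85 k170 14 (.s k149 k213 7 (.d k102 k119 k55 4 12)))), (.s k68 k136 9 (.s k4 k132 7 (.s k55
  k38 4 (.s k51 k59 1 (.d k102 k149 k153 12 14))))), (.s k68 k136 9 (.s k85 k170 14 (.s k4 k132 7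
  (.s k247 k166 12 (.d k213 k149 k230 7 4))))), (.s k85 k170 14 (.s k149 k213 7 (.s k102 k55 12 (.s
  k153 k51 14 (.d k157 k145 k110 1 12)))))] (.c k137 (.q k141 [(.s k85 k170 14 (.s k149 k213 7 (.s
  k102 k55 12 (.d k68 k119 k136 4 9)))), (.s k68 k136 9 (.s k4 k132 7 (.s k55 k38 4 (.s k51 k59 1
  (.d k102 k149 k153 12 14))))), (.s k68 k136 9 (.s k85 k170 14 (.s k4 k132 7 (.s k247 k166 12 (.d
  k213 k149 k230 7 4))))), (.s k85 k170 14 (.s k149 k213 7 (.s k102 k55 12 (.s k153 k51 14 (.d k157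
  k145 k110 1 12)))))] (.c k149 (.l (.s k68 k136 9 (.s k85 k170 14 (.s k102 k119 4 (.s k153 k51 14
  (.d k221 k238 k17 4 9)))))) .n)) (.c k141 (.l (.s k137 k200 8 (.s k68 k136 9 (.s k85 k170 14 (.s
  k149 k213 7 (.d k102 k119 k55 4 12)))))) (.c k149 (.l (.s k68 k136 9 (.s k85 k170 14 (.s k102 k119
  4 (.s k153 k51 14 (.d k221 k238 k17 4 9)))))) (.c k153 (.l (.s k85 k170 14 (.s k149 k213 7 (.s
  k102 k55 12 (.d k68 k136 k119 9 4))))) .n))))) (.c k137 (.q k141 [(.s k136 k68 9 (.s k238 k221 4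
  (.s k170 k85 14 (.s k102 k34 9 (.d k153 k187 k51 4 14))))), (.s k110 k157 12 (.s k127 k191 7 (.s
  k93 k76 4 (.s k174 k12 12 (.d k238 k221 k46 4 7))))), (.s k70 k78 1 (.s k68 k136 9 (.s k85 k170 14
  (.s k127 k191 7 (.s k69 k71 0 (.d k64 k106 k79 6 2))))))] (.c k70 (.q k196 [(.s k85 k170 14 (.s
  k149 k213 7 (.s k102 k55 12 (.d k68 k119 k136 4 9)))), (.s k68 k136 9 (.s k4 k132 7 (.s k55 k38 4
  (.s k51 k59 1 (.d k102 k149 k153 12 14))))), (.s k68 k136 9 (.s k85 k170 14 (.s k4 k132 7 (.s k247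
  k166 12 (.d k213 k149 k230 7 4))))), (.s k85 k170 14 (.s k149 k213 7 (.s k102 k55 12 (.s k153 k51
  14 (.d k157 k145 k110 1 12)))))] (.c k149 (.l (.s k68 k136 9 (.s k85 k170 14 (.s k102 k119 4 (.s
  k153 k51 14 (.d k221 k238 k17 4 9)))))) .n)) (.c k196 (.l (.s k70 k78 1 (.s k68 k136 9 (.s k85
  k170 14 (.s k127 k191 7 (.s k69 k71 0 (.d k64 k106 k79 6 2))))))) .n))) (.c k141 (.l (.s k137 k200
  8 (.s k68 k136 9 (.s k85 k170 14 (.s k102 k119 4 (.s k153 k51 14 (.d k221 k238 k17 4 9))))))) (.c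
  k196 (.l (.s k70 k78 1 (.s k68 k136 9 (.s k85 k170 14 (.s k127 k191 7 (.s k69 k71 0 (.d k64 k106
  k79 6 2))))))) .n))))) (.c k11 (.q k7 [(.s k68 k136 9 (.s k85 k170 14 (.s k102 k119 4 (.s k221
  k238 4 (.d k153 k17 k51 9 14))))), (.s k110 k157 12 (.s k127 k191 7 (.s k93 k76 4 (.s k174 k12 12
  (.d k238 k221 k46 4 7))))), (.s k68 k136 9 (.s k85 k170 14 (.s k149 k213 7 (.s k157 k110 12 (.s
  k102 k119 4 (.d k153 k145 k51 1 14))))))] (.c k137 (.q k141 [(.s k136 k68 9 (.s k238 k221 4 (.s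
  k170 k85 14 (.s k102 k34 9 (.d k153 k187 k51 4 14))))), (.s k110 k157 12 (.s k127 k191 7 (.s k93
  k76 4 (.s k174 k12 12 (.d k238 k221 k46 4 7))))), (.s k68 k136 9 (.s k85 k170 14 (.s k149 k213 7
  (.s k157 k110 12 (.s k102 k119 4 (.d k153 k145 k51 1 14))))))] .n) (.c k141 (.q k137 [(.s k68 k136
  9 (.s k70 k78 1 (.s k69 k71 0 (.s k207 k138 10 (.d k205 k206 k1 0 9))))), (.s k85 k170 14 (.s k149
  k213 7 (.s k157 k110 12 (.s k153 k145 1 (.d k221 k238 k17 4 9)))))] .n) .n))) (.c k137 (.q k141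
  [(.s k136 k68 9 (.s k238 k221 4 (.s k170 k85 14 (.s k102 k34 9 (.d k153 k187 k51 4 14))))), (.s
  k110 k157 12 (.s k127 k191 7 (.s k93 k76 4 (.s k174 k12 12 (.d k238 k221 k46 4 7))))), (.s k68
  k136 9 (.s k85 k170 14 (.s k149 k213 7 (.s k157 k110 12 (.s k102 k119 4 (.d k153 k145 k51 1
  14))))))] (.c k7 (.q k11 [(.s k136 k68 9 (.s k238 k221 4 (.s k170 k85 14 (.s k102 k34 9 (.d k153
  k187 k51 4 14))))), (.s k110 k157 12 (.s k127 k191 7 (.s k93 k76 4 (.s k174 k12 12 (.d k238 k221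
  k46 4 7))))), (.s k70 k78 1 (.s k68 k136 9 (.s k85 k170 14 (.s k127 k191 7 (.s k69 k71 0 (.d k64
  k106 k79 6 2))))))] (.c k70 (.q k196 [(.s k85 k170 14 (.s k149 k213 7 (.s k102 k55 12 (.d k68 k119
  k136 4 9)))), (.s k68 k136 9 (.s k4 k132 7 (.s k55 k38 4 (.s k51 k59 1 (.d k102 k149 k153 12
  14))))), (.s k68 k136 9 (.s k85 k170 14 (.s k4 k132 7 (.s k247 k166 12 (.d k213 k149 k230 7
  4))))), (.s k85 k170 14 (.s k149 k213 7 (.s k102 k55 12 (.s k153 k51 14 (.d k157 k145 k110 1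
  12)))))] (.c k149 (.l (.s k68 k136 9 (.s k85 k170 14 (.s k102 k119 4 (.s k153 k51 14 (.d k221 k238
  k17 4 9)))))) .n)) (.c k196 (.l (.s k70 k78 1 (.s k68 k136 9 (.s k85 k170 14 (.s k127 k191 7 (.s
  k69 k71 0 (.d k64 k106 k79 6 2))))))) .n))) (.c k11 (.q k7 [(.s k136 k68 9 (.s k238 k221 4 (.s
  k170 k85 14 (.s k102 k34 9 (.d k153 k187 k51 4 14))))), (.s k110 k157 12 (.s k127 k191 7 (.s k93
  k76 4 (.s k174 k12 12 (.d k238 k221 k46 4 7))))), (.s k68 k136 9 (.s k85 k170 14 (.s k149 k213 7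
  (.s k157 k110 12 (.s k102 k119 4 (.d k153 k145 k51 1 14))))))] .n) .n))) (.c k141 (.q k137 [(.s
  k68 k136 9 (.s k70 k78 1 (.s k69 k71 0 (.s k207 k138 10 (.d k205 k206 k1 0 9))))), (.s k85 k170 14
  (.s k149 k213 7 (.s k157 k110 12 (.s k153 k145 1 (.d k221 k238 k17 4 9)))))] (.c k7 (.l (.s k11
  k200 8 (.s k68 k136 9 (.s k85 k170 14 (.s k102 k119 4 (.s k153 k51 14 (.d k221 k238 k17 4 9)))))))
  (.c k11 (.q k7 [(.s k68 k136 9 (.s k70 k78 1 (.s k69 k71 0 (.s k207 k138 10 (.d k205 k206 k1 0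
  9))))), (.s k85 k170 14 (.s k149 k213 7 (.s k157 k110 12 (.s k153 k145 1 (.d k221 k238 k17 4
  9)))))] .n) .n))) .n))))) .n))))) .n)))))))) (.c k213 (.l (.s k42 k21 6 (.s k191 k127 7 (.s k170
  k85 14 (.s k149 k128 6 (.d k106 k234 k192 7 14)))))) (.c k234 (.l (.s k21 k42 6 (.s k127 k191 7
  (.s k85 k170 14 (.s k106 k64 6 (.d k149 k213 k192 7 14)))))) .n)))))))))))))))

def t5 : T TT 256 :=
  (.f k85 k170 14 (.q k86 [(.s k84 k87 0 (.s k252 k168 13 (.s k253 k254 0 (.d k169 k1 k3 13 14))))]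
  (.c k1 (.f k84 k87 0 (.q k4 [(.s k12 k8 1 (.s k166 k247 12 (.s k93 k174 12 (.d k89 k81 k243 1
  14)))), (.s k168 k252 13 (.s k164 k244 11 (.s k160 k172 1 (.s k240 k80 11 (.d k12 k8 k88 1
  13))))), (.s k252 k168 13 (.s k244 k164 11 (.s k247 k166 12 (.s k245 k246 0 (.d k240 k248 k250 1
  2)))))] (.c k9 (.q k13 [(.s k252 k168 13 (.s k253 k254 0 (.s k93 k173 11 (.d k12 k8 k174 1 12)))),
  (.s k12 k8 1 (.s k166 k247 12 (.s k89 k243 14 (.d k93 k81 k174 1 12)))), (.s k252 k168 13 (.s k244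
  k164 11 (.s k247 k166 12 (.s k245 k246 0 (.d k240 k248 k250 1 2)))))] (.c k174 (.l (.s k12 k8 1
  (.s k168 k252 13 (.s k164 k244 11 (.s k240 k88 13 (.d k160 k172 k80 1 11)))))) .n)) (.c k13 (.q k9
  [(.s k12 k8 1 (.s k3 k6 2 (.d k252 k168 k169 13 14))), (.s k12 k8 1 (.s k166 k247 12 (.s k89 k243
  14 (.d k93 k81 k174 1 12)))), (.s k252 k168 13 (.s k166 k247 12 (.s k6 k246 11 (.d k3 k12 k169 2
  14))))] (.c k12 (.q k14 [(.s k252 k168 13 (.s k169 k3 14 (.s k166 k247 12 (.s k246 k6 11 (.d k249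
  k243 k89 2 11))))), (.s k166 k247 12 (.s k90 k242 13 (.s k80 k95 2 (.s k92 k88 1 (.s k83 k89 2 (.d
  k82 k81 k94 0 1)))))), (.s k252 k168 13 (.s k244 k164 11 (.s k240 k248 1 (.s k245 k250 2 (.d k247
  k246 k166 0 12))))), (.s k252 k168 13 (.s k169 k3 14 (.s k244 k164 11 (.s k89 k249 11 (.s k92 k83
  2 (.s k80 k88 1 (.d k240 k248 k160 1 11)))))))] .n) (.c k14 (.l (.s k12 k8 1 (.s k252 k168 13 (.d
  k3 k169 k6 14 2)))) .n))) .n)))) (.c k3 (.f k84 k87 0 (.q k4 [(.s k12 k8 1 (.s k166 k247 12 (.s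
  k93 k174 12 (.d k89 k81 k243 1 14)))), (.s k168 k252 13 (.s k164 k244 11 (.s k160 k172 1 (.s k240
  k80 11 (.d k12 k8 k88 1 13))))), (.s k252 k168 13 (.s k244 k164 11 (.s k247 k166 12 (.s k245 k246
  0 (.d k240 k248 k250 1 2)))))] (.c k7 (.q k11 [(.s k12 k8 1 (.s k93 k174 12 (.s k89 k81 1 (.d k166
  k247 k243 12 14)))), (.s k168 k252 13 (.s k164 k244 11 (.s k160 k172 1 (.s k240 k80 11 (.d k12 k8
  k88 1 13))))), (.s k252 k168 13 (.s k244 k164 11 (.s k247 k166 12 (.s k245 k246 0 (.d k240 k248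
  k250 1 2)))))] (.c k167 (.l (.s k247 k166 12 (.s k252 k168 13 (.s k243 k251 1 (.s k246 k249 2 (.d
  k244 k164 k245 11 0)))))) (.c k247 (.q k167 [(.s k12 k8 1 (.s k164 k244 11 (.s k93 k174 12 (.s k89
  k81 1 (.d k166 k165 k243 0 14))))), (.s k252 k168 13 (.s k244 k164 11 (.s k253 k254 0 (.s k169 k1
  13 (.d k248 k240 k90 1 12))))), (.s k12 k8 1 (.s k252 k168 13 (.s k93 k174 12 (.s k89 k81 1 (.d
  k92 k83 k172 2 11)))))] .n) .n))) (.c k11 (.q k7 [(.d k244 k164 k165 11 12), (.s k12 k8 1 (.s k166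
  k247 12 (.s k89 k243 14 (.d k93 k81 k174 1 12))))] .n) .n)))) (.c k84 (.q k20 [(.s k60 k40 5 (.s
  k150 k215 8 (.s k125 k190 8 (.d k105 k65 k195 5 14)))), (.s k150 k215 8 (.s k22 k214 7 (.s k21 k23
  0 (.s k63 k42 6 (.s k127 k191 7 (.s k106 k64 6 (.d k149 k213 k192 7 14)))))))] (.c k150 (.q k4
  [(.s k12 k8 1 (.s k166 k247 12 (.s k93 k174 12 (.d k89 k81 k243 1 14)))), (.s k40 k60 5 (.s k36
  k52 3 (.s k32 k44 1 (.s k48 k16 3 (.d k12 k8 k24 1 5))))), (.s k60 k40 5 (.s k52 k36 3 (.s k247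
  k166 12 (.s k182 k117 8 (.d k243 k251 k121 1 10)))))] (.c k130 (.q k190 [(.d k60 k40 k125 5 8),
  (.s k12 k8 1 (.s k166 k247 12 (.s k89 k243 14 (.d k93 k81 k174 1 12))))] .n) (.c k190 (.q k130
  [(.s k12 k8 1 (.s k166 k247 12 (.s k89 k243 14 (.d k93 k81 k174 1 12)))), (.s k40 k60 5 (.s k36
  k52 3 (.s k32 k44 1 (.s k48 k16 3 (.d k12 k8 k24 1 5))))), (.s k60 k40 5 (.s k52 k36 3 (.s k247
  k166 12 (.s k182 k117 8 (.d k243 k251 k121 1 10)))))] .n) .n))) (.c k215 (.l (.s k60 k40 5 (.s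
  k125 k190 8 (.s k105 k65 5 (.s k124 k67 6 (.s k252 k188 7 (.s k169 k3 14 (.d k253 k254 k1 0
  13)))))))) .n))) (.c k87 (.q k21 [(.s k63 k42 6 (.s k149 k213 7 (.s k127 k191 7 (.d k106 k64 k192
  6 14)))), (.s k149 k213 7 (.s k23 k212 8 (.s k20 k22 0 (.s k60 k40 5 (.s k125 k190 8 (.s k105 k65
  5 (.d k150 k215 k195 8 14)))))))] (.c k149 (.q k20 [(.s k22 k23 0 (.d k150 k215 k214 8 7)), (.s
  k60 k40 5 (.s k125 k190 8 (.s k105 k65 5 (.d k150 k215 k195 8 14)))), (.s k60 k40 5 (.s k63 k42 6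
  (.s k61 k62 0 (.s k41 k1 5 (.d k22 k23 k3 0 6)))))] (.c k128 (.q k191 [(.d k63 k42 k127 6 7), (.s
  k22 k23 0 (.d k150 k215 k214 8 7))] .n) (.c k191 (.q k128 [(.s k22 k23 0 (.d k150 k215 k214 8 7)),
  (.s k60 k40 5 (.s k125 k190 8 (.s k105 k65 5 (.d k150 k215 k195 8 14)))), (.s k60 k40 5 (.s k63
  k42 6 (.s k61 k62 0 (.s k41 k1 5 (.d k22 k23 k3 0 6)))))] .n) .n))) (.c k213 (.l (.s k63 k42 6 (.s
  k127 k191 7 (.s k106 k64 6 (.s k126 k66 5 (.s k252 k189 8 (.s k169 k3 14 (.d k253 k254 k1 0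
  13)))))))) .n))) (.c k168 (.l (.s k87 k84 0 (.s k3 k171 13 (.s k169 k252 14 (.d k1 k2 k253 0
  13))))) (.c k169 (.f k84 k87 0 (.q k20 [(.s k212 k148 7 (.s k150 k215 8 (.s k22 k214 7 (.d k23 k21
  k149 0 8)))), (.s k60 k40 5 (.s k125 k190 8 (.s k105 k65 5 (.d k150 k215 k195 8 14)))), (.s k60
  k40 5 (.s k168 k252 13 (.s k148 k212 7 (.s k192 k104 13 (.d k128 k188 k64 5 7)))))] (.c k168 (.q
  k171 [(.s k212 k148 7 (.s k150 k215 8 (.s k22 k214 7 (.d k23 k21 k149 0 8)))), (.s k60 k40 5 (.s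
  k125 k190 8 (.s k105 k65 5 (.d k150 k215 k195 8 14)))), (.s k60 k40 5 (.s k148 k212 7 (.s k104
  k192 13 (.s k124 k64 5 (.s k105 k67 6 (.d k125 k65 k190 5 8))))))] .n) (.c k171 (.l (.s k168 k252
  13 (.s k60 k40 5 (.s k148 k212 7 (.s k192 k104 13 (.d k128 k188 k64 5 7)))))) .n)))) (.c k171 (.l
  (.s k84 k87 0 (.s k252 k168 13 (.s k169 k3 14 (.d k253 k254 k1 0 13))))) (.c k252 (.f k84 k87 0
  (.q k20 [(.s k60 k40 5 (.s k125 k190 8 (.s k105 k65 5 (.d k150 k215 k195 8 14)))), (.s k212 k148 7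
  (.s k149 k23 8 (.s k21 k213 7 (.s k63 k42 6 (.s k106 k192 14 (.d k127 k64 k191 6 7))))))] (.c k60
  (.l (.s k212 k148 7 (.s k150 k215 8 (.s k22 k214 7 (.d k23 k21 k149 0 8))))) (.c k94 (.q k173 [(.s
  k60 k40 5 (.s k125 k190 8 (.s k105 k65 5 (.d k150 k215 k195 8 14)))), (.s k212 k148 7 (.s k149 k23
  8 (.s k21 k213 7 (.s k63 k42 6 (.s k106 k192 14 (.d k127 k64 k191 6 7))))))] (.c k60 (.l (.s k212
  k148 7 (.s k150 k215 8 (.s k22 k214 7 (.d k23 k21 k149 0 8))))) (.c k215 (.l (.s k60 k40 5 (.s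
  k148 k212 7 (.s k125 k190 8 (.s k105 k65 5 (.s k124 k67 6 (.d k104 k64 k192 5 13))))))) .n))) (.c
  k173 (.q k94 [(.s k60 k40 5 (.s k125 k190 8 (.s k105 k65 5 (.d k150 k215 k195 8 14)))), (.s k212
  k148 7 (.s k149 k23 8 (.s k21 k213 7 (.s k63 k42 6 (.s k106 k192 14 (.d k127 k64 k191 6 7))))))]
  (.c k60 (.l (.s k212 k148 7 (.s k150 k215 8 (.s k22 k214 7 (.d k23 k21 k149 0 8))))) (.c k215 (.l
  (.s k60 k40 5 (.s k148 k212 7 (.s k125 k190 8 (.s k105 k65 5 (.s k124 k67 6 (.d k104 k64 k192 5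
  13))))))) .n))) (.c k215 (.l (.s k60 k40 5 (.s k148 k212 7 (.s k125 k190 8 (.s k105 k65 5 (.s k124
  k67 6 (.d k104 k64 k192 5 13))))))) .n)))))) (.c k253 (.q k4 [(.s k12 k8 1 (.s k166 k247 12 (.s
  k93 k174 12 (.d k89 k81 k243 1 14)))), (.s k247 k166 12 (.s k84 k87 0 (.s k252 k168 13 (.s k244
  k164 11 (.s k245 k246 0 (.d k240 k248 k250 1 2)))))), (.s k12 k8 1 (.s k84 k87 0 (.s k168 k252 13
  (.s k164 k244 11 (.s k240 k88 13 (.d k160 k172 k80 1 11))))))] .n) (.c k254 (.l (.s k87 k84 0 (.s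
  k3 k171 13 (.s k1 k2 0 (.d k169 k253 k252 13 14))))) .n))))))))))))

def t6 : T TT 256 :=
  (.f k85 k170 14 (.q k150 [(.s k20 k215 8 (.s k60 k40 5 (.s k125 k190 8 (.d k105 k65 k195 5 14))))]
  (.c k20 (.q k69 [(.s k207 k138 10 (.s k101 k117 3 (.s k223 k239 3 (.d k154 k16 k48 10 14)))), (.s
  k101 k117 3 (.s k199 k52 12 (.s k4 k134 8 (.s k12 k8 1 (.s k93 k174 12 (.s k89 k81 1 (.d k166 k247
  k243 12 14)))))))] (.c k101 (.q k4 [(.s k134 k199 8 (.d k166 k182 k247 3 12)), (.s k12 k8 1 (.s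
  k166 k247 12 (.s k89 k243 14 (.d k93 k81 k174 1 12)))), (.s k12 k8 1 (.s k138 k207 10 (.s k134
  k199 8 (.s k195 k73 10 (.d k130 k142 k65 1 8)))))] (.c k32 (.q k239 [(.d k207 k223 k138 3 10), (.s
  k134 k199 8 (.d k166 k182 k247 3 12))] .n) (.c k239 (.q k32 [(.s k134 k199 8 (.d k166 k182 k247 3
  12)), (.s k12 k8 1 (.s k166 k247 12 (.s k89 k243 14 (.d k93 k81 k174 1 12)))), (.s k12 k8 1 (.s
  k138 k207 10 (.s k134 k199 8 (.s k195 k73 10 (.d k130 k142 k65 1 8)))))] .n) .n))) (.c k117 (.l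
  (.s k207 k138 10 (.s k223 k239 3 (.s k154 k16 10 (.s k158 k146 1 (.s k60 k109 12 (.s k105 k195 14
  (.d k125 k65 k190 5 8)))))))) .n))) (.c k40 (.l (.s k215 k20 8 (.s k195 k235 5 (.s k105 k60 14 (.d
  k65 k125 k130 5 8))))) (.c k60 (.q k4 [(.s k12 k8 1 (.s k166 k247 12 (.s k93 k174 12 (.d k89 k81
  k243 1 14)))), (.s k166 k247 12 (.s k20 k215 8 (.s k52 k36 3 (.s k199 k101 12 (.d k134 k182 k69 3
  8))))), (.s k12 k8 1 (.s k215 k20 8 (.s k195 k235 5 (.s k130 k65 8 (.s k134 k73 10 (.s k69 k199 8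
  (.d k138 k142 k207 1 10)))))))] (.c k30 (.q k45 [(.s k12 k8 1 (.s k166 k247 12 (.s k93 k174 12 (.d
  k89 k81 k243 1 14)))), (.s k166 k247 12 (.s k20 k215 8 (.s k52 k36 3 (.s k199 k101 12 (.d k134
  k182 k69 3 8))))), (.s k12 k8 1 (.s k215 k20 8 (.s k195 k235 5 (.s k130 k65 8 (.s k134 k73 10 (.s
  k69 k199 8 (.d k138 k142 k207 1 10)))))))] .n) (.c k45 (.q k30 [(.s k12 k8 1 (.s k166 k247 12 (.s
  k93 k174 12 (.d k89 k81 k243 1 14)))), (.s k166 k247 12 (.s k20 k215 8 (.s k52 k36 3 (.s k199 k101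
  12 (.d k134 k182 k69 3 8))))), (.s k12 k8 1 (.s k215 k20 8 (.s k195 k235 5 (.s k130 k65 8 (.s k134
  k73 10 (.s k69 k199 8 (.d k138 k142 k207 1 10)))))))] .n) .n))) (.c k65 (.q k4 [(.s k12 k8 1 (.s
  k166 k247 12 (.s k93 k174 12 (.d k89 k81 k243 1 14)))), (.s k166 k247 12 (.s k20 k215 8 (.s k52
  k36 3 (.s k199 k101 12 (.d k134 k182 k69 3 8))))), (.s k12 k8 1 (.s k20 k215 8 (.s k40 k60 5 (.s
  k36 k52 3 (.s k48 k24 5 (.d k32 k44 k16 1 3))))))] .n) (.c k105 (.q k4 [(.s k12 k8 1 (.s k166 k247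
  12 (.s k93 k174 12 (.d k89 k81 k243 1 14)))), (.s k166 k247 12 (.s k20 k215 8 (.s k52 k36 3 (.s
  k199 k101 12 (.d k134 k182 k69 3 8))))), (.s k12 k8 1 (.s k20 k215 8 (.s k40 k60 5 (.s k36 k52 3
  (.s k48 k24 5 (.d k32 k44 k16 1 3))))))] (.c k40 (.q k235 [(.d k215 k195 k20 5 8), (.s k12 k8 1
  (.s k166 k247 12 (.s k89 k243 14 (.d k93 k81 k174 1 12))))] .n) (.c k235 (.q k40 [(.d k20 k60 k215
  5 8), (.s k12 k8 1 (.s k166 k247 12 (.s k89 k243 14 (.d k93 k81 k174 1 12))))] .n) .n))) (.c k125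
  (.q k4 [(.s k12 k8 1 (.s k166 k247 12 (.s k93 k174 12 (.d k89 k81 k243 1 14)))), (.s k166 k247 12
  (.s k20 k215 8 (.s k52 k36 3 (.s k199 k101 12 (.d k134 k182 k69 3 8))))), (.s k12 k8 1 (.s k20
  k215 8 (.s k40 k60 5 (.s k36 k52 3 (.s k48 k24 5 (.d k32 k44 k16 1 3))))))] .n) (.c k190 (.l (.s
  k215 k20 8 (.s k195 k235 5 (.s k65 k130 8 (.d k105 k125 k60 5 14))))) (.c k195 (.q k4 [(.s k12 k8
  1 (.s k166 k247 12 (.s k93 k174 12 (.d k89 k81 k243 1 14)))), (.s k166 k247 12 (.s k20 k215 8 (.s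
  k52 k36 3 (.s k199 k101 12 (.d k134 k182 k69 3 8))))), (.s k12 k8 1 (.s k20 k215 8 (.s k40 k60 5
  (.s k36 k52 3 (.s k48 k24 5 (.d k32 k44 k16 1 3))))))] (.c k75 (.q k135 [(.s k12 k8 1 (.s k166
  k247 12 (.s k93 k174 12 (.d k89 k81 k243 1 14)))), (.s k166 k247 12 (.s k20 k215 8 (.s k52 k36 3
  (.s k199 k101 12 (.d k134 k182 k69 3 8))))), (.s k12 k8 1 (.s k20 k215 8 (.s k40 k60 5 (.s k36 k52
  3 (.s k48 k24 5 (.d k32 k44 k16 1 3))))))] .n) (.c k135 (.q k75 [(.s k12 k8 1 (.s k166 k247 12 (.s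
  k93 k174 12 (.d k89 k81 k243 1 14)))), (.s k166 k247 12 (.s k20 k215 8 (.s k52 k36 3 (.s k199 k101
  12 (.d k134 k182 k69 3 8))))), (.s k12 k8 1 (.s k20 k215 8 (.s k40 k60 5 (.s k36 k52 3 (.s k48 k24
  5 (.d k32 k44 k16 1 3))))))] .n) .n))) (.c k215 (.q k69 [(.s k207 k138 10 (.s k101 k117 3 (.s k223
  k239 3 (.d k154 k16 k48 10 14)))), (.s k101 k117 3 (.s k199 k52 12 (.s k4 k134 8 (.s k12 k8 1 (.s
  k93 k174 12 (.s k89 k81 1 (.d k166 k247 k243 12 14)))))))] (.c k101 (.q k4 [(.s k134 k199 8 (.d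
  k166 k247 k182 12 3)), (.s k12 k8 1 (.s k93 k174 12 (.s k89 k81 1 (.d k166 k247 k243 12 14)))),
  (.s k12 k8 1 (.s k207 k138 10 (.s k77 k142 8 (.s k73 k65 1 (.d k134 k199 k195 8 10)))))] (.c k32
  (.q k239 [(.d k207 k223 k138 3 10), (.s k134 k199 8 (.d k166 k247 k182 12 3))] .n) (.c k239 (.q
  k32 [(.s k134 k199 8 (.d k166 k247 k182 12 3)), (.s k12 k8 1 (.s k48 k16 3 (.s k36 k24 5 (.s k20
  k52 3 (.d k40 k44 k60 1 5)))))] .n) .n))) (.c k117 (.l (.s k207 k138 10 (.s k223 k239 3 (.s k154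
  k16 10 (.s k158 k146 1 (.s k60 k109 12 (.s k105 k195 14 (.d k125 k65 k190 5 8)))))))) .n))) (.c
  k235 (.l (.s k20 k215 8 (.s k60 k40 5 (.s k105 k195 14 (.d k125 k65 k190 5 8))))) .n))))))))))))

def t7 : T TT 256 :=
  (.q k3 [(.s k1 k2 0 (.s k85 k170 14 (.s k169 k253 13 (.s k87 k171 13 (.d k86 k84 k252 0 14)))))]
  (.c k1 (.q k195 [(.s k65 k130 8 (.s k85 k170 14 (.s k105 k125 5 (.s k215 k235 5 (.d k150 k20 k60 8
  14))))), (.s k67 k131 7 (.s k87 k171 13 (.s k107 k127 5 (.s k151 k63 13 (.d k215 k235 k23 5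
  7))))), (.s k65 k130 8 (.s k85 k170 14 (.s k67 k131 7 (.s k87 k171 13 (.s k64 k66 0 (.d k127 k107
  k106 5 6))))))] .n) (.c k2 (.q k195 [(.s k130 k65 8 (.s k235 k215 5 (.s k170 k85 14 (.s k105 k40 8
  (.d k150 k190 k60 5 14))))), (.s k67 k131 7 (.s k87 k171 13 (.s k107 k127 5 (.s k151 k63 13 (.d
  k215 k235 k23 5 7))))), (.s k65 k130 8 (.s k85 k170 14 (.s k67 k131 7 (.s k87 k171 13 (.s k105
  k125 5 (.d k86 k84 k124 0 6))))))] .n) (.c k84 (.l (.s k2 k1 0 (.s k170 k85 14 (.s k86 k254 13 (.s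
  k169 k252 14 (.d k171 k87 k168 13 0)))))) (.c k85 (.q k195 [(.s k1 k2 0 (.s k65 k130 8 (.s k129
  k193 7 (.s k67 k131 7 (.d k66 k64 k192 0 8))))), (.s k67 k131 7 (.s k87 k171 13 (.s k107 k127 5
  (.s k151 k63 13 (.d k215 k235 k23 5 7)))))] (.c k64 (.l (.s k2 k1 0 (.s k130 k65 8 (.s k66 k194 7
  (.s k129 k192 8 (.d k131 k67 k128 7 0)))))) (.c k67 (.q k69 [(.s k65 k130 8 (.s k138 k207 10 (.s
  k73 k77 1 (.s k8 k203 8 (.d k12 k4 k134 1 10))))), (.s k1 k2 0 (.s k207 k138 10 (.s k137 k205 9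
  (.s k70 k204 10 (.d k71 k68 k139 0 9))))), (.s k1 k2 0 (.s k65 k130 8 (.s k137 k205 9 (.s k73 k77
  1 (.s k9 k201 7 (.d k12 k6 k134 2 10))))))] .n) (.c k131 (.q k69 [(.s k1 k2 0 (.s k207 k138 10 (.s
  k137 k205 9 (.s k70 k204 10 (.d k71 k68 k139 0 9))))), (.s k65 k130 8 (.s k138 k207 10 (.s k73 k77
  1 (.s k8 k203 8 (.d k12 k4 k134 1 10))))), (.s k1 k2 0 (.s k65 k130 8 (.s k137 k205 9 (.s k73 k77
  1 (.s k9 k201 7 (.d k12 k6 k134 2 10))))))] .n) .n)))) (.c k86 (.f k2 k1 0 (.q k195 [(.s k130 k65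
  8 (.s k66 k194 7 (.s k129 k192 8 (.d k131 k128 k67 0 7)))), (.s k67 k131 7 (.s k87 k171 13 (.s
  k107 k127 5 (.s k151 k63 13 (.d k215 k235 k23 5 7))))), (.s k65 k130 8 (.s k85 k170 14 (.s k105
  k125 5 (.s k150 k60 14 (.d k215 k235 k20 5 8)))))] (.c k165 (.q k244 [(.s k130 k65 8 (.s k66 k194
  7 (.s k129 k192 8 (.d k131 k128 k67 0 7)))), (.s k67 k131 7 (.s k87 k171 13 (.s k107 k127 5 (.s
  k151 k63 13 (.d k215 k235 k23 5 7))))), (.s k65 k130 8 (.s k85 k170 14 (.s k105 k125 5 (.s k150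
  k60 14 (.d k215 k235 k20 5 8)))))] (.c k90 (.q k240 [(.s k130 k65 8 (.s k66 k194 7 (.s k129 k192 8
  (.d k131 k128 k67 0 7)))), (.s k80 k160 11 (.s k82 k161 12 (.s k162 k242 11 (.d k81 k83 k243 0
  12))))] (.c k82 (.q k94 [(.s k130 k65 8 (.s k66 k194 7 (.s k129 k192 8 (.d k131 k128 k67 0 7)))),
  (.s k80 k160 11 (.s k252 k248 1 (.s k84 k168 13 (.s k164 k4 11 (.d k88 k92 k12 1 13)))))] .n) (.c
  k94 (.l (.s k82 k161 12 (.s k80 k160 11 (.s k162 k242 11 (.d k81 k83 k243 0 12))))) .n))) (.c k240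
  (.q k90 [(.s k130 k65 8 (.s k66 k194 7 (.s k131 k67 7 (.d k129 k128 k192 0 8)))), (.s k67 k131 7
  (.s k87 k171 13 (.s k107 k127 5 (.s k151 k63 13 (.d k215 k235 k23 5 7))))), (.s k65 k130 8 (.s k85
  k170 14 (.s k105 k125 5 (.s k150 k60 14 (.d k215 k235 k20 5 8)))))] .n) .n))) (.c k244 (.q k165
  [(.s k130 k65 8 (.s k66 k194 7 (.s k129 k192 8 (.d k131 k128 k67 0 7)))), (.s k67 k131 7 (.s k87
  k171 13 (.s k107 k127 5 (.s k151 k63 13 (.d k215 k235 k23 5 7))))), (.s k65 k130 8 (.s k85 k170 14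
  (.s k105 k125 5 (.s k150 k60 14 (.d k215 k235 k20 5 8)))))] .n) .n)))) (.c k87 (.f k85 k170 14 (.q
  k247 [(.s k243 k251 1 (.s k81 k162 12 (.s k89 k93 1 (.d k166 k4 k12 12 14)))), (.s k1 k2 0 (.s
  k169 k253 13 (.s k166 k4 12 (.s k163 k172 2 (.d k243 k251 k83 1 11))))), (.s k2 k1 0 (.s k243 k251
  1 (.s k162 k81 12 (.s k82 k242 11 (.s k161 k240 12 (.d k163 k160 k83 0 11))))))] (.c k243 (.l (.s
  k1 k2 0 (.s k169 k253 13 (.s k4 k166 12 (.s k12 k8 1 (.s k9 k6 2 (.s k89 k249 11 (.d k93 k174 k81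
  12 1)))))))) (.c k251 (.l (.s k1 k2 0 (.s k169 k253 13 (.s k166 k4 12 (.s k163 k172 2 (.s k243 k83
  11 (.s k81 k162 12 (.d k89 k93 k12 1 14)))))))) .n)))) (.c k169 (.q k195 [(.s k1 k2 0 (.s k65 k130
  8 (.s k129 k193 7 (.s k66 k192 8 (.d k67 k64 k131 0 7))))), (.s k65 k130 8 (.s k85 k170 14 (.s
  k105 k125 5 (.s k150 k60 14 (.d k215 k235 k20 5 8))))), (.s k67 k131 7 (.s k87 k171 13 (.s k107
  k127 5 (.s k151 k63 13 (.d k215 k235 k23 5 7)))))] .n) (.c k170 (.f k2 k1 0 (.q k195 [(.s k130 k65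
  8 (.s k66 k194 7 (.s k131 k67 7 (.d k129 k128 k192 0 8)))), (.s k67 k131 7 (.s k87 k171 13 (.s
  k107 k127 5 (.s k151 k63 13 (.d k215 k235 k23 5 7)))))] (.c k67 (.q k85 [(.s k65 k130 8 (.s k105
  k125 5 (.s k215 k235 5 (.d k150 k20 k60 8 14)))), (.s k130 k65 8 (.s k66 k194 7 (.s k87 k171 13
  (.s k86 k84 0 (.s k106 k126 5 (.s k64 k127 6 (.d k192 k129 k128 8 7))))))), (.s k87 k171 13 (.s
  k86 k84 0 (.s k215 k235 5 (.s k150 k20 8 (.s k214 k22 7 (.d k252 k169 k233 14 6))))))] .n) (.c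
  k131 (.q k85 [(.s k65 k130 8 (.s k105 k125 5 (.s k215 k235 5 (.d k150 k20 k60 8 14)))), (.s k87
  k171 13 (.s k86 k84 0 (.s k215 k235 5 (.s k150 k20 8 (.s k214 k22 7 (.d k252 k169 k233 14 6)))))),
  (.s k130 k65 8 (.s k66 k194 7 (.s k87 k171 13 (.s k86 k84 0 (.s k106 k126 5 (.s k64 k127 6 (.d
  k192 k129 k128 8 7)))))))] .n) .n)))) (.c k171 (.q k195 [(.s k2 k1 0 (.s k131 k67 7 (.s k130 k65 8
  (.s k129 k128 0 (.d k66 k194 k192 7 8))))), (.s k65 k130 8 (.s k85 k170 14 (.s k105 k125 5 (.s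
  k150 k60 14 (.d k215 k235 k20 5 8))))), (.s k1 k2 0 (.s k85 k170 14 (.s k169 k253 13 (.s k131 k67
  7 (.s k150 k188 6 (.d k215 k235 k20 5 8))))))] .n) (.c k252 (.f k85 k170 14 (.f k2 k1 0 (.q k195
  [(.s k65 k130 8 (.s k105 k125 5 (.s k215 k235 5 (.d k150 k20 k60 8 14)))), (.s k130 k65 8 (.s k66
  k194 7 (.s k129 k192 8 (.d k131 k128 k67 0 7)))), (.s k67 k131 7 (.s k87 k171 13 (.s k107 k127 5
  (.s k151 k63 13 (.d k215 k235 k23 5 7)))))] (.c k94 (.q k173 [(.s k65 k130 8 (.s k105 k125 5 (.s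
  k215 k235 5 (.d k150 k20 k60 8 14)))), (.s k130 k65 8 (.s k66 k194 7 (.s k129 k192 8 (.d k131 k128
  k67 0 7)))), (.s k67 k131 7 (.s k87 k171 13 (.s k107 k127 5 (.s k151 k63 13 (.d k215 k235 k23 5
  7)))))] .n) (.c k173 (.q k94 [(.s k65 k130 8 (.s k105 k125 5 (.s k215 k235 5 (.d k150 k20 k60 8
  14)))), (.s k130 k65 8 (.s k66 k194 7 (.s k129 k192 8 (.d k131 k128 k67 0 7)))), (.s k67 k131 7
  (.s k87 k171 13 (.s k107 k127 5 (.s k151 k63 13 (.d k215 k235 k23 5 7)))))] .n) .n))))) (.c k253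
  (.l (.s k2 k1 0 (.s k171 k87 13 (.s k170 k85 14 (.s k169 k168 0 (.d k86 k254 k252 13 14)))))) (.c
  k254 (.l (.s k1 k2 0 (.s k87 k171 13 (.s k85 k170 14 (.s k86 k84 0 (.d k169 k253 k252 13 14))))))
  .n)))))))))))))

def t16 : T TT 256 :=
  (.q k60 [(.s k20 k40 5 (.s k85 k170 14 (.s k150 k215 8 (.s k125 k190 8 (.d k105 k65 k195 5
  14)))))] (.c k20 (.f k125 k190 8 (.q k84 [(.s k252 k168 13 (.s k85 k170 14 (.s k105 k65 5 (.s k86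
  k87 0 (.d k124 k67 k188 6 7))))), (.s k252 k168 13 (.s k124 k188 7 (.s k126 k127 0 (.s k189 k63 8
  (.d k253 k254 k61 0 7))))), (.s k85 k170 14 (.s k105 k65 5 (.s k86 k87 0 (.s k124 k67 6 (.s k64
  k104 5 (.d k127 k126 k106 0 6))))))] (.c k24 (.q k28 [(.s k12 k44 3 (.s k93 k174 12 (.s k109 k77 3
  (.d k158 k223 k207 8 12)))), (.s k252 k168 13 (.s k85 k170 14 (.s k124 k188 7 (.s k64 k104 5 (.d
  k127 k126 k106 0 6)))))] .n) (.c k28 (.q k24 [(.s k252 k168 13 (.s k85 k170 14 (.s k105 k65 5 (.s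
  k86 k87 0 (.d k124 k67 k188 6 7))))), (.s k252 k168 13 (.s k124 k188 7 (.s k126 k127 0 (.s k189
  k63 8 (.d k253 k254 k61 0 7))))), (.s k85 k170 14 (.s k105 k65 5 (.s k86 k87 0 (.s k124 k67 6 (.s
  k64 k104 5 (.d k127 k126 k106 0 6))))))] (.c k124 (.l (.s k252 k168 13 (.s k85 k170 14 (.s k86 k87
  0 (.s k169 k3 14 (.d k253 k254 k1 0 13)))))) .n)) (.c k124 (.l (.s k252 k168 13 (.s k85 k170 14
  (.s k86 k87 0 (.s k169 k3 14 (.d k253 k254 k1 0 13)))))) .n))))) (.c k40 (.q k61 [(.s k63 k62 0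
  (.s k125 k190 8 (.s k189 k253 7 (.s k127 k191 7 (.d k126 k124 k252 0 8))))), (.s k85 k170 14 (.s
  k63 k62 0 (.s k21 k42 6 (.s k149 k213 7 (.s k106 k192 14 (.d k127 k64 k191 6 7)))))), (.s k85 k170
  14 (.s k125 k190 8 (.s k253 k189 7 (.s k1 k169 13 (.s k3 k2 0 (.d k41 k21 k22 5 6))))))] (.c k191
  (.l (.s k85 k170 14 (.s k63 k62 0 (.s k21 k42 6 (.s k149 k213 7 (.s k125 k190 8 (.d k105 k65 k193
  5 13))))))) .n)) (.c k65 (.l (.s k40 k20 5 (.s k170 k85 14 (.s k105 k235 8 (.s k150 k195 14 (.d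
  k190 k125 k130 8 5)))))) (.c k85 (.f k20 k40 5 (.q k61 [(.s k63 k62 0 (.s k21 k42 6 (.s k22 k23 0
  (.d k41 k1 k3 5 6)))), (.s k125 k190 8 (.s k253 k189 7 (.s k252 k254 0 (.s k84 k168 13 (.s k148
  k212 7 (.s k104 k192 13 (.d k124 k188 k64 7 5)))))))] (.c k62 (.q k84 [(.s k252 k168 13 (.s k125
  k190 8 (.d k253 k254 k189 0 7))), (.s k168 k252 13 (.s k148 k212 7 (.s k192 k104 13 (.d k128 k188
  k64 5 7)))), (.s k125 k190 8 (.s k253 k189 7 (.d k252 k254 k168 0 13)))] (.c k154 (.q k223 [(.s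
  k252 k168 13 (.s k125 k190 8 (.d k253 k254 k189 0 7))), (.s k190 k125 8 (.s k207 k239 3 (.s k158
  k109 12 (.s k93 k28 8 (.d k174 k142 k12 3 12))))), (.s k168 k252 13 (.s k148 k212 7 (.s k192 k104
  13 (.d k128 k188 k64 5 7))))] .n) (.c k168 (.l (.s k148 k212 7 (.s k104 k192 13 (.s k125 k190 8
  (.s k253 k189 7 (.s k124 k64 5 (.d k252 k254 k188 0 7))))))) (.c k223 (.q k154 [(.s k252 k168 13
  (.s k125 k190 8 (.d k253 k254 k189 0 7))), (.s k168 k252 13 (.s k148 k212 7 (.s k192 k104 13 (.d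
  k128 k188 k64 5 7)))), (.s k125 k190 8 (.s k253 k189 7 (.d k252 k254 k168 0 13)))] (.c k168 (.l
  (.s k148 k212 7 (.s k104 k192 13 (.s k125 k190 8 (.s k253 k189 7 (.s k124 k64 5 (.d k252 k254 k188
  0 7))))))) (.c k252 (.f k125 k190 8 (.l (.s k148 k212 7 (.s k192 k104 13 (.s k253 k189 7 (.s k213
  k234 6 (.s k193 k233 5 (.s k105 k149 13 (.d k195 k194 k150 0 14))))))))) .n))) (.c k252 (.f k125
  k190 8 (.l (.s k148 k212 7 (.s k192 k104 13 (.s k253 k189 7 (.s k213 k234 6 (.s k193 k233 5 (.s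
  k105 k149 13 (.d k195 k194 k150 0 14))))))))) .n))))) (.c k154 (.q k223 [(.s k63 k62 0 (.s k21 k42
  6 (.s k22 k23 0 (.d k41 k1 k3 5 6)))), (.s k190 k125 8 (.s k207 k239 3 (.s k158 k109 12 (.s k93
  k28 8 (.d k174 k142 k12 3 12)))))] .n) (.c k223 (.q k154 [(.s k63 k62 0 (.s k21 k42 6 (.s k22 k23
  0 (.d k41 k1 k3 5 6)))), (.s k125 k190 8 (.s k253 k189 7 (.s k252 k254 0 (.s k84 k168 13 (.s k148
  k212 7 (.s k104 k192 13 (.d k124 k188 k64 7 5)))))))] (.c k62 (.q k84 [(.s k252 k168 13 (.s k125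
  k190 8 (.d k253 k254 k189 0 7))), (.s k168 k252 13 (.s k148 k212 7 (.s k192 k104 13 (.d k128 k188
  k64 5 7)))), (.s k125 k190 8 (.s k253 k189 7 (.d k252 k254 k168 0 13)))] (.c k168 (.l (.s k148
  k212 7 (.s k104 k192 13 (.s k125 k190 8 (.s k253 k189 7 (.s k124 k64 5 (.d k252 k254 k188 0
  7))))))) (.c k252 (.f k125 k190 8 (.l (.s k148 k212 7 (.s k192 k104 13 (.s k253 k189 7 (.s k213
  k234 6 (.s k193 k233 5 (.s k105 k149 13 (.d k195 k194 k150 0 14))))))))) .n))) .n)) .n))))) (.c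
  k105 (.q k61 [(.s k63 k62 0 (.s k125 k190 8 (.s k189 k253 7 (.s k126 k252 8 (.d k127 k124 k191 0
  7))))), (.s k20 k40 5 (.s k63 k62 0 (.s k21 k42 6 (.s k41 k1 5 (.d k22 k23 k3 0 6))))), (.s k85
  k170 14 (.s k125 k190 8 (.s k253 k189 7 (.s k1 k169 13 (.s k3 k2 0 (.d k41 k21 k22 5 6))))))] .n)
  (.c k125 (.q k84 [(.s k20 k40 5 (.s k168 k252 13 (.s k148 k212 7 (.s k192 k104 13 (.d k128 k188
  k64 5 7))))), (.s k252 k168 13 (.s k85 k170 14 (.s k86 k87 0 (.s k169 k3 14 (.d k253 k254 k1 0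
  13))))), (.s k20 k40 5 (.s k85 k170 14 (.s k148 k212 7 (.s k150 k215 8 (.s k149 k151 0 (.s k213
  k21 7 (.d k192 k234 k104 6 13)))))))] .n) (.c k150 (.q k4 [(.s k12 k8 1 (.s k85 k170 14 (.s k166
  k247 12 (.s k93 k174 12 (.d k89 k81 k243 1 14))))), (.s k12 k8 1 (.s k28 k44 3 (.s k93 k174 12 (.s
  k158 k223 8 (.s k109 k207 12 (.d k125 k77 k190 3 8)))))), (.s k20 k40 5 (.s k85 k170 14 (.s k52
  k36 3 (.s k247 k166 12 (.s k182 k117 8 (.d k243 k251 k121 1 10))))))] (.c k85 (.l (.s k12 k8 1 (.s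
  k28 k44 3 (.s k93 k174 12 (.s k125 k190 8 (.s k109 k77 3 (.d k158 k223 k207 8 12))))))) (.c k174
  (.l (.s k12 k8 1 (.s k85 k170 14 (.s k166 k247 12 (.s k44 k28 3 (.s k105 k227 10 (.d k125 k190 k65
  8 5))))))) (.c k190 (.l (.s k12 k8 1 (.s k170 k85 14 (.s k44 k28 3 (.s k174 k93 12 (.s k239 k109 8
  (.s k32 k101 10 (.d k40 k20 k36 5 1)))))))) .n)))) (.c k170 (.q k84 [(.s k20 k40 5 (.s k168 k252
  13 (.s k148 k212 7 (.s k192 k104 13 (.d k128 k188 k64 5 7))))), (.s k252 k168 13 (.s k188 k124 7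
  (.s k190 k125 8 (.s k189 k191 0 (.s k126 k63 8 (.d k254 k253 k62 0 7))))))] (.c k128 (.l (.s k20
  k40 5 (.s k252 k168 13 (.s k148 k212 7 (.s k104 k192 13 (.d k124 k188 k64 7 5)))))) (.c k168 (.f
  k125 k190 8 (.f k20 k40 5 (.l (.s k148 k212 7 (.s k104 k192 13 (.s k124 k64 5 (.s k252 k188 7 (.s
  k126 k127 0 (.s k189 k63 8 (.d k253 k254 k61 0 7)))))))))) (.c k188 (.l (.s k40 k20 5 (.s k168
  k252 13 (.s k104 k232 7 (.s k192 k148 13 (.d k64 k124 k128 5 7)))))) (.c k252 (.q k4 [(.s k12 k8 1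
  (.s k164 k244 11 (.s k240 k88 13 (.s k180 k120 9 (.s k148 k132 3 (.d k20 k40 k212 5 7)))))), (.s
  k12 k8 1 (.s k28 k44 3 (.s k93 k174 12 (.s k158 k223 8 (.s k109 k207 12 (.d k125 k77 k190 3
  8)))))), (.s k20 k40 5 (.s k52 k36 3 (.s k164 k244 11 (.s k148 k212 7 (.s k196 k100 11 (.d k132
  k180 k68 3 7))))))] (.c k94 (.q k173 [(.s k12 k8 1 (.s k164 k244 11 (.s k240 k88 13 (.s k160 k80
  11 (.s k174 k93 12 (.d k172 k168 k175 1 0)))))), (.s k20 k40 5 (.s k52 k36 3 (.s k164 k244 11 (.s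
  k148 k212 7 (.s k196 k100 11 (.d k132 k180 k68 3 7)))))), (.s k12 k8 1 (.s k28 k44 3 (.s k93 k174
  12 (.s k158 k223 8 (.s k109 k207 12 (.d k125 k77 k190 3 8))))))] .n) (.c k173 (.q k94 [(.s k12 k8
  1 (.s k164 k244 11 (.s k93 k174 12 (.s k92 k95 0 (.d k88 k240 k80 13 1))))), (.s k20 k40 5 (.s k52
  k36 3 (.s k164 k244 11 (.s k148 k212 7 (.s k196 k100 11 (.d k132 k180 k68 3 7)))))), (.s k12 k8 1
  (.s k28 k44 3 (.s k93 k174 12 (.s k158 k223 8 (.s k109 k207 12 (.d k125 k77 k190 3 8))))))] .n)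
  .n))) .n))))) (.c k190 (.q k84 [(.s k20 k40 5 (.s k168 k252 13 (.s k148 k212 7 (.s k192 k104 13
  (.d k128 k188 k64 5 7))))), (.s k252 k168 13 (.s k85 k170 14 (.s k86 k87 0 (.s k169 k3 14 (.d k253
  k254 k1 0 13))))), (.s k20 k40 5 (.s k85 k170 14 (.s k148 k212 7 (.s k150 k215 8 (.s k149 k151 0
  (.s k213 k21 7 (.d k192 k234 k104 6 13)))))))] .n) (.c k195 (.f k125 k190 8 (.f k20 k40 5 (.q k84
  [(.s k168 k252 13 (.s k148 k212 7 (.s k192 k104 13 (.d k128 k188 k64 5 7)))), (.s k85 k170 14 (.s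
  k105 k65 5 (.s k86 k87 0 (.s k124 k67 6 (.d k252 k188 k168 7 13))))), (.s k85 k170 14 (.s k148
  k212 7 (.s k150 k215 8 (.s k149 k151 0 (.s k213 k21 7 (.d k192 k234 k104 6 13))))))] (.c k75 (.q
  k135 [(.s k168 k252 13 (.s k148 k212 7 (.s k192 k104 13 (.d k128 k188 k64 5 7)))), (.s k85 k170 14
  (.s k105 k65 5 (.s k86 k87 0 (.s k124 k67 6 (.d k252 k188 k168 7 13))))), (.s k85 k170 14 (.s k148
  k212 7 (.s k150 k215 8 (.s k149 k151 0 (.s k213 k21 7 (.d k192 k234 k104 6 13))))))] .n) (.c k135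
  (.q k75 [(.s k168 k252 13 (.s k148 k212 7 (.s k192 k104 13 (.d k128 k188 k64 5 7)))), (.s k85 k170
  14 (.s k105 k65 5 (.s k86 k87 0 (.s k124 k67 6 (.d k252 k188 k168 7 13))))), (.s k85 k170 14 (.s
  k148 k212 7 (.s k150 k215 8 (.s k149 k151 0 (.s k213 k21 7 (.d k192 k234 k104 6 13))))))] .n)
  .n))))) (.c k215 (.l (.s k40 k20 5 (.s k190 k125 8 (.s k170 k85 14 (.s k150 k130 5 (.d k105 k235
  k195 8 14)))))) (.c k235 (.l (.s k20 k40 5 (.s k125 k190 8 (.s k85 k170 14 (.s k105 k65 5 (.d k150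
  k215 k195 8 14)))))) .n)))))))))))))

def t17 : T TT 256 :=
  (.f k85 k170 14 (.q k21 [(.s k63 k42 6 (.s k149 k213 7 (.s k127 k191 7 (.d k106 k64 k192 6 14))))]
  (.c k42 (.f k149 k213 7 (.q k61 [(.s k105 k193 13 (.s k125 k65 5 (.s k253 k189 7 (.d k1 k41 k169 5
  13)))), (.s k1 k41 5 (.s k3 k2 0 (.s k87 k171 13 (.s k86 k84 0 (.d k169 k253 k252 13 14))))), (.s
  k105 k193 13 (.s k65 k125 5 (.s k195 k130 8 (.s k150 k60 14 (.d k215 k235 k20 5 8)))))] (.c k106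
  (.q k234 [(.s k105 k193 13 (.s k125 k65 5 (.s k253 k189 7 (.d k1 k41 k169 5 13)))), (.s k1 k41 5
  (.s k3 k2 0 (.s k87 k171 13 (.s k86 k84 0 (.d k169 k253 k252 13 14))))), (.s k105 k193 13 (.s k65
  k125 5 (.s k195 k130 8 (.s k150 k60 14 (.d k215 k235 k20 5 8)))))] (.c k253 (.l (.s k41 k1 5 (.s
  k105 k193 13 (.s k233 k169 7 (.s k65 k125 5 (.s k195 k130 8 (.d k235 k232 k215 0 5))))))) .n)) (.c
  k234 (.q k106 [(.s k63 k192 14 (.d k127 k64 k191 6 7)), (.s k1 k41 5 (.s k169 k253 13 (.s k193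
  k105 13 (.d k129 k189 k65 5 7))))] .n) (.c k253 (.l (.s k1 k41 5 (.s k3 k2 0 (.s k87 k171 13 (.s
  k193 k105 13 (.s k129 k65 7 (.s k86 k84 0 (.d k169 k189 k252 5 14)))))))) .n))))) (.c k63 (.f k149
  k213 7 (.q k61 [(.s k1 k41 5 (.s k169 k253 13 (.s k193 k105 13 (.d k129 k189 k65 5 7)))), (.s k1
  k41 5 (.s k3 k2 0 (.s k87 k171 13 (.s k86 k84 0 (.d k169 k253 k252 13 14))))), (.s k105 k193 13
  (.s k65 k125 5 (.s k195 k130 8 (.s k150 k60 14 (.d k215 k235 k20 5 8)))))] (.c k31 (.q k47 [(.s k1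
  k41 5 (.s k169 k253 13 (.s k193 k105 13 (.d k129 k189 k65 5 7)))), (.s k1 k41 5 (.s k3 k2 0 (.s
  k87 k171 13 (.s k86 k84 0 (.d k169 k253 k252 13 14))))), (.s k105 k193 13 (.s k65 k125 5 (.s k195
  k130 8 (.s k150 k60 14 (.d k215 k235 k20 5 8)))))] (.c k253 (.l (.s k1 k41 5 (.s k3 k2 0 (.s k87
  k171 13 (.s k193 k105 13 (.s k129 k65 7 (.s k86 k84 0 (.d k169 k189 k252 5 14)))))))) .n)) (.c k47
  (.q k31 [(.s k1 k41 5 (.s k169 k253 13 (.s k193 k105 13 (.d k129 k189 k65 5 7)))), (.s k16 k26 2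
  (.s k154 k223 10 (.s k208 k90 10 (.d k144 k159 k80 2 7))))] .n) (.c k253 (.l (.s k1 k41 5 (.s k3
  k2 0 (.s k87 k171 13 (.s k193 k105 13 (.s k129 k65 7 (.s k86 k84 0 (.d k169 k189 k252 5 14))))))))
  .n))))) (.c k64 (.q k61 [(.s k1 k41 5 (.s k3 k2 0 (.s k169 k253 13 (.s k86 k252 14 (.d k87 k84
  k171 0 13))))), (.s k63 k42 6 (.s k149 k213 7 (.s k60 k62 0 (.s k125 k190 8 (.d k105 k65 k193 5
  13))))), (.s k63 k42 6 (.s k1 k41 5 (.s k253 k169 13 (.s k125 k189 7 (.d k60 k62 k190 0 8)))))]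
  .n) (.c k106 (.q k61 [(.s k1 k41 5 (.s k3 k2 0 (.s k169 k253 13 (.s k87 k171 13 (.d k86 k84 k252 0
  14))))), (.s k149 k213 7 (.s k105 k193 13 (.s k65 k125 5 (.s k195 k130 8 (.s k150 k60 14 (.d k215
  k235 k20 5 8))))))] (.c k42 (.q k234 [(.d k213 k192 k149 6 7), (.s k1 k41 5 (.s k3 k2 0 (.s k169
  k253 13 (.s k86 k252 14 (.d k87 k84 k171 0 13)))))] .n) (.c k234 (.l (.s k42 k63 6 (.s k1 k41 5
  (.s k3 k2 0 (.s k169 k253 13 (.s k86 k252 14 (.d k87 k84 k171 0 13))))))) (.c k253 (.l (.s k42 k63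
  6 (.s k41 k1 5 (.s k149 k213 7 (.s k40 k43 0 (.s k60 k20 5 (.s k125 k190 8 (.d k105 k193 k65 13
  5)))))))) .n)))) (.c k127 (.q k61 [(.s k1 k41 5 (.s k3 k2 0 (.s k169 k253 13 (.s k86 k252 14 (.d
  k87 k84 k171 0 13))))), (.s k63 k42 6 (.s k149 k213 7 (.s k60 k62 0 (.s k125 k190 8 (.d k105 k65
  k193 5 13))))), (.s k63 k42 6 (.s k1 k41 5 (.s k253 k169 13 (.s k125 k189 7 (.d k60 k62 k190 0
  8)))))] .n) (.c k149 (.q k61 [(.s k1 k41 5 (.s k3 k2 0 (.s k169 k253 13 (.s k86 k252 14 (.d k87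
  k84 k171 0 13))))), (.s k63 k42 6 (.s k60 k62 0 (.s k20 k40 5 (.s k150 k215 8 (.s k105 k195 14 (.d
  k125 k65 k190 5 8))))))] (.c k2 (.l (.s k63 k42 6 (.s k1 k41 5 (.s k253 k169 13 (.s k189 k125 7
  (.d k252 k254 k126 0 8)))))) (.c k41 (.l (.s k63 k42 6 (.s k60 k62 0 (.s k125 k190 8 (.s k189 k253
  7 (.s k126 k252 8 (.d k127 k124 k191 0 7))))))) (.c k128 (.q k191 [(.d k63 k42 k127 6 7), (.s k1
  k41 5 (.s k3 k2 0 (.s k169 k253 13 (.s k86 k252 14 (.d k87 k84 k171 0 13)))))] .n) (.c k191 (.q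
  k128 [(.s k1 k41 5 (.s k3 k2 0 (.s k169 k253 13 (.s k86 k252 14 (.d k87 k84 k171 0 13))))), (.s
  k63 k42 6 (.s k60 k62 0 (.s k20 k40 5 (.s k150 k215 8 (.s k105 k195 14 (.d k125 k65 k190 5
  8))))))] (.c k2 (.l (.s k63 k42 6 (.s k1 k41 5 (.s k253 k169 13 (.s k189 k125 7 (.d k252 k254 k126
  0 8)))))) (.c k41 (.l (.s k63 k42 6 (.s k60 k62 0 (.s k125 k190 8 (.s k105 k65 5 (.s k150 k195 14
  (.d k20 k40 k215 5 8))))))) .n))) .n))))) (.c k191 (.q k61 [(.s k1 k41 5 (.s k3 k2 0 (.s k169 k253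
  13 (.s k86 k252 14 (.d k87 k84 k171 0 13))))), (.s k63 k42 6 (.s k149 k213 7 (.s k60 k62 0 (.s
  k125 k190 8 (.d k105 k65 k193 5 13))))), (.s k63 k42 6 (.s k1 k41 5 (.s k253 k169 13 (.s k125 k189
  7 (.d k60 k190 k62 8 0)))))] (.c k128 (.l (.s k149 k213 7 (.s k63 k42 6 (.s k60 k62 0 (.s k125
  k190 8 (.d k105 k65 k193 5 13)))))) (.c k149 (.q k128 [(.s k1 k41 5 (.s k3 k2 0 (.s k169 k253 13
  (.s k86 k252 14 (.d k87 k84 k171 0 13))))), (.s k63 k42 6 (.s k60 k62 0 (.s k20 k40 5 (.s k150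
  k215 8 (.s k105 k195 14 (.d k125 k65 k190 5 8))))))] (.c k2 (.l (.s k63 k42 6 (.s k1 k41 5 (.s
  k253 k169 13 (.s k189 k125 7 (.d k252 k254 k126 0 8)))))) (.c k41 (.l (.s k63 k42 6 (.s k60 k62 0
  (.s k125 k190 8 (.s k105 k65 5 (.s k150 k195 14 (.d k20 k40 k215 5 8))))))) .n))) .n))) (.c k192
  (.f k149 k213 7 (.q k61 [(.s k1 k41 5 (.s k169 k253 13 (.s k193 k105 13 (.d k129 k189 k65 5 7)))),
  (.s k63 k42 6 (.s k60 k62 0 (.s k125 k190 8 (.d k105 k65 k193 5 13)))), (.s k63 k42 6 (.s k1 k41 5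
  (.s k60 k62 0 (.s k125 k190 8 (.d k253 k189 k169 7 13)))))] (.c k74 (.q k133 [(.s k1 k41 5 (.s
  k169 k253 13 (.s k193 k105 13 (.d k129 k189 k65 5 7)))), (.s k165 k181 3 (.s k5 k245 11 (.s k53
  k37 3 (.d k197 k69 k101 7 11))))] .n) (.c k133 (.q k74 [(.s k1 k41 5 (.s k169 k253 13 (.s k193
  k105 13 (.d k129 k189 k65 5 7)))), (.s k63 k42 6 (.s k60 k62 0 (.s k125 k190 8 (.d k105 k65 k193 5
  13)))), (.s k63 k42 6 (.s k1 k41 5 (.s k60 k62 0 (.s k125 k190 8 (.d k253 k189 k169 7 13)))))] .n)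
  .n)))) (.c k213 (.q k61 [(.s k1 k41 5 (.s k3 k2 0 (.s k169 k253 13 (.s k86 k252 14 (.d k87 k84
  k171 0 13))))), (.s k63 k42 6 (.s k60 k62 0 (.s k20 k40 5 (.s k150 k215 8 (.s k105 k195 14 (.d
  k125 k65 k190 5 8))))))] (.c k2 (.l (.s k63 k42 6 (.s k1 k41 5 (.s k253 k169 13 (.s k125 k189 7
  (.d k60 k62 k190 0 8)))))) (.c k41 (.l (.s k63 k42 6 (.s k60 k62 0 (.s k125 k190 8 (.s k189 k253 7
  (.s k126 k252 8 (.d k127 k124 k191 0 7))))))) .n))) (.c k234 (.l (.s k149 k213 7 (.s k63 k42 6 (.s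
  k106 k192 14 (.d k127 k64 k191 6 7))))) .n))))))))))))

def t18 : T TT 256 :=
  (.f k85 k170 14 (.q k21 [(.s k63 k42 6 (.s k149 k213 7 (.s k127 k191 7 (.d k106 k64 k192 6 14))))]
  (.c k42 (.f k149 k213 7 (.q k4 [(.s k55 k38 4 (.s k166 k247 12 (.s k196 k102 12 (.d k132 k183 k68
  4 7)))), (.s k12 k8 1 (.s k38 k55 4 (.s k25 k51 6 (.s k29 k17 1 (.s k89 k209 9 (.d k93 k81 k174 1
  12)))))), (.s k12 k8 1 (.s k166 k247 12 (.s k89 k243 14 (.d k93 k81 k174 1 12))))] (.c k106 (.q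
  k234 [(.s k12 k8 1 (.s k93 k174 12 (.s k89 k81 1 (.d k166 k247 k243 12 14)))), (.s k55 k38 4 (.s
  k166 k247 12 (.s k196 k102 12 (.d k132 k183 k68 4 7)))), (.s k12 k8 1 (.s k38 k55 4 (.s k25 k51 6
  (.s k29 k17 1 (.s k89 k209 9 (.d k93 k81 k174 1 12))))))] .n) (.c k234 (.q k106 [(.s k63 k192 14
  (.d k127 k64 k191 6 7)), (.s k12 k8 1 (.s k166 k247 12 (.s k89 k243 14 (.d k93 k81 k174 1 12))))]
  .n) .n)))) (.c k63 (.f k149 k213 7 (.q k4 [(.s k12 k8 1 (.s k93 k174 12 (.s k89 k81 1 (.d k166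
  k247 k243 12 14)))), (.s k55 k38 4 (.s k166 k247 12 (.s k196 k102 12 (.d k132 k183 k68 4 7))))]
  (.c k31 (.q k47 [(.s k12 k8 1 (.s k93 k174 12 (.s k89 k81 1 (.d k166 k247 k243 12 14)))), (.s k55
  k38 4 (.s k166 k247 12 (.s k196 k102 12 (.d k132 k183 k68 4 7))))] (.c k166 (.l (.s k55 k38 4 (.s
  k102 k196 12 (.s k68 k119 4 (.s k204 k136 9 (.s k153 k51 14 (.d k221 k238 k17 4 9))))))) (.c k247
  (.l (.s k12 k8 1 (.s k38 k55 4 (.s k93 k174 12 (.s k89 k81 1 (.s k29 k209 9 (.d k25 k17 k51 1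
  6))))))) .n))) (.c k47 (.q k31 [(.s k12 k8 1 (.s k93 k174 12 (.s k89 k81 1 (.d k166 k247 k243 12
  14)))), (.s k16 k26 2 (.s k154 k223 10 (.s k208 k90 10 (.d k144 k159 k80 2 7))))] .n) (.c k166 (.l
  (.s k55 k38 4 (.s k102 k196 12 (.s k68 k119 4 (.s k204 k136 9 (.s k153 k51 14 (.d k221 k238 k17 4
  9))))))) (.c k247 (.l (.s k12 k8 1 (.s k38 k55 4 (.s k93 k174 12 (.s k89 k81 1 (.s k29 k209 9 (.d
  k25 k17 k51 1 6))))))) .n)))))) (.c k64 (.q k3 [(.s k1 k2 0 (.s k169 k253 13 (.s k87 k171 13 (.d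
  k86 k84 k252 0 14)))), (.s k2 k1 0 (.s k42 k63 6 (.s k22 k62 5 (.s k60 k41 6 (.d k20 k23 k40 0
  5))))), (.s k63 k42 6 (.s k23 k43 5 (.s k87 k171 13 (.s k149 k213 7 (.d k86 k84 k212 0 8)))))] .n)
  (.c k106 (.q k3 [(.s k87 k171 13 (.s k86 k84 0 (.s k169 k252 14 (.d k1 k2 k253 0 13)))), (.s k2 k1
  0 (.s k42 k63 6 (.s k22 k62 5 (.s k60 k41 6 (.d k20 k23 k40 0 5))))), (.s k87 k171 13 (.s k149
  k213 7 (.s k86 k84 0 (.s k23 k212 8 (.d k63 k42 k43 6 5)))))] (.c k42 (.q k234 [(.d k213 k192 k149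
  6 7), (.s k1 k2 0 (.s k169 k253 13 (.s k86 k252 14 (.d k87 k84 k171 0 13))))] .n) (.c k234 (.l (.s
  k42 k63 6 (.s k1 k2 0 (.s k41 k61 5 (.s k60 k22 6 (.d k40 k43 k20 0 5)))))) .n))) (.c k127 (.q k3
  [(.s k87 k171 13 (.s k86 k84 0 (.s k169 k252 14 (.d k1 k2 k253 0 13)))), (.s k2 k1 0 (.s k42 k63 6
  (.s k22 k62 5 (.s k60 k41 6 (.d k20 k23 k40 0 5))))), (.s k63 k42 6 (.s k23 k43 5 (.s k87 k171 13
  (.s k149 k213 7 (.d k86 k84 k212 0 8)))))] .n) (.c k149 (.q k3 [(.s k87 k171 13 (.s k86 k84 0 (.s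
  k169 k252 14 (.d k1 k2 k253 0 13)))), (.s k2 k1 0 (.s k42 k63 6 (.s k22 k62 5 (.s k60 k41 6 (.d
  k20 k23 k40 0 5))))), (.s k63 k42 6 (.s k23 k43 5 (.s k87 k171 13 (.s k215 k151 7 (.d k20 k150 k22
  8 0)))))] (.c k128 (.q k191 [(.d k63 k42 k127 6 7), (.s k1 k2 0 (.s k169 k253 13 (.s k86 k252 14
  (.d k87 k84 k171 0 13))))] .n) (.c k191 (.q k128 [(.s k1 k2 0 (.s k169 k253 13 (.s k86 k252 14 (.d
  k87 k84 k171 0 13)))), (.s k2 k1 0 (.s k42 k63 6 (.s k22 k62 5 (.s k60 k41 6 (.d k20 k23 k40 0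
  5))))), (.s k63 k42 6 (.s k64 k192 7 (.s k23 k43 5 (.s k87 k171 13 (.s k151 k215 7 (.s k107 k195
  13 (.d k127 k106 k67 6 5)))))))] .n) .n))) (.c k191 (.q k3 [(.s k1 k2 0 (.s k169 k253 13 (.s k86
  k252 14 (.d k87 k84 k171 0 13)))), (.s k2 k1 0 (.s k42 k63 6 (.s k22 k62 5 (.s k60 k41 6 (.d k20
  k23 k40 0 5))))), (.s k63 k42 6 (.s k23 k43 5 (.s k87 k171 13 (.s k149 k213 7 (.d k86 k84 k212 0
  8)))))] (.c k128 (.l (.s k149 k213 7 (.s k1 k2 0 (.s k169 k253 13 (.s k86 k252 14 (.d k87 k84 k171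
  0 13)))))) (.c k149 (.q k128 [(.s k1 k2 0 (.s k169 k253 13 (.s k86 k252 14 (.d k87 k84 k171 0
  13)))), (.s k2 k1 0 (.s k42 k63 6 (.s k22 k62 5 (.s k60 k41 6 (.d k20 k23 k40 0 5))))), (.s k63
  k42 6 (.s k64 k192 7 (.s k23 k43 5 (.s k87 k171 13 (.s k151 k215 7 (.s k107 k195 13 (.d k127 k106
  k67 6 5)))))))] .n) .n))) (.c k192 (.f k149 k213 7 (.q k3 [(.s k1 k2 0 (.s k87 k171 13 (.s k86 k84
  0 (.d k169 k253 k252 13 14)))), (.s k2 k1 0 (.s k42 k63 6 (.s k22 k62 5 (.s k60 k41 6 (.d k20 k23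
  k40 0 5))))), (.s k63 k42 6 (.s k23 k43 5 (.s k87 k171 13 (.d k86 k84 k212 0 8))))] (.c k74 (.q
  k133 [(.s k165 k181 3 (.s k5 k245 11 (.s k53 k37 3 (.d k197 k69 k101 7 11)))), (.s k1 k2 0 (.s
  k169 k253 13 (.s k86 k252 14 (.d k87 k84 k171 0 13))))] .n) (.c k133 (.q k74 [(.s k1 k2 0 (.s k87
  k171 13 (.s k86 k84 0 (.d k169 k253 k252 13 14)))), (.s k2 k1 0 (.s k42 k63 6 (.s k22 k62 5 (.s
  k60 k41 6 (.d k20 k23 k40 0 5))))), (.s k63 k42 6 (.s k23 k43 5 (.s k87 k171 13 (.d k86 k84 k212 0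
  8))))] .n) .n)))) (.c k213 (.q k3 [(.s k87 k171 13 (.s k86 k84 0 (.s k169 k252 14 (.d k1 k2 k253 0
  13)))), (.s k2 k1 0 (.s k42 k63 6 (.s k22 k62 5 (.s k60 k41 6 (.d k20 k23 k40 0 5))))), (.s k63
  k42 6 (.s k23 k43 5 (.s k87 k171 13 (.s k215 k151 7 (.d k20 k22 k150 0 8)))))] .n) (.c k234 (.l
  (.s k149 k213 7 (.s k63 k42 6 (.s k106 k192 14 (.d k127 k64 k191 6 7))))) .n))))))))))))

def t19 : T TT 256 :=
  (.q k60 [(.s k20 k40 5 (.s k85 k170 14 (.s k150 k215 8 (.s k125 k190 8 (.d k105 k65 k195 5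
  14)))))] (.c k20 (.q k84 [(.s k252 k168 13 (.s k85 k170 14 (.s k253 k254 0 (.s k169 k1 13 (.d k86
  k87 k3 0 14))))), (.s k252 k168 13 (.s k124 k188 7 (.s k125 k190 8 (.s k126 k127 0 (.s k189 k63 8
  (.d k253 k254 k61 0 7)))))), (.s k85 k170 14 (.s k125 k190 8 (.s k105 k65 5 (.s k86 k87 0 (.s k124
  k67 6 (.s k64 k104 5 (.d k127 k126 k106 0 6)))))))] .n) (.c k40 (.q k84 [(.s k252 k168 13 (.s k85
  k170 14 (.s k253 k254 0 (.s k169 k1 13 (.d k86 k87 k3 0 14))))), (.s k252 k168 13 (.s k124 k188 7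
  (.s k125 k190 8 (.s k126 k127 0 (.s k189 k63 8 (.d k253 k254 k61 0 7)))))), (.s k85 k170 14 (.s
  k125 k190 8 (.s k105 k65 5 (.s k86 k87 0 (.s k124 k67 6 (.d k252 k188 k168 7 13)))))), (.s k85
  k170 14 (.s k125 k190 8 (.s k105 k65 5 (.s k86 k87 0 (.s k124 k67 6 (.s k127 k126 0 (.d k64 k104
  k106 5 6)))))))] .n) (.c k65 (.l (.s k40 k20 5 (.s k170 k85 14 (.s k105 k235 8 (.s k150 k195 14
  (.d k190 k125 k130 8 5)))))) (.c k85 (.f k20 k40 5 (.q k61 [(.s k63 k62 0 (.s k21 k42 6 (.s k41 k1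
  5 (.d k22 k23 k3 0 6)))), (.s k125 k190 8 (.s k253 k189 7 (.s k252 k254 0 (.s k84 k168 13 (.s k148
  k212 7 (.s k104 k192 13 (.d k124 k188 k64 7 5)))))))] (.c k62 (.q k84 [(.s k252 k168 13 (.s k125
  k190 8 (.d k253 k254 k189 0 7))), (.s k168 k252 13 (.s k148 k212 7 (.s k192 k104 13 (.d k128 k188
  k64 5 7)))), (.s k125 k190 8 (.s k253 k189 7 (.d k252 k254 k168 0 13)))] (.c k168 (.l (.s k148
  k212 7 (.s k104 k192 13 (.s k125 k190 8 (.s k253 k189 7 (.s k124 k64 5 (.d k252 k254 k188 0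
  7))))))) (.c k252 (.f k125 k190 8 (.l (.s k148 k212 7 (.s k192 k104 13 (.s k253 k189 7 (.s k213
  k234 6 (.s k193 k233 5 (.s k105 k149 13 (.d k195 k194 k150 0 14))))))))) .n))) (.c k253 (.l (.s
  k63 k62 0 (.s k21 k42 6 (.s k22 k23 0 (.d k41 k1 k3 5 6))))) .n)))) (.c k105 (.q k61 [(.s k63 k62
  0 (.s k125 k190 8 (.s k189 k253 7 (.s k126 k252 8 (.d k127 k124 k191 0 7))))), (.s k20 k40 5 (.s
  k63 k62 0 (.s k21 k42 6 (.s k41 k1 5 (.d k22 k23 k3 0 6))))), (.s k85 k170 14 (.s k125 k190 8 (.s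
  k253 k189 7 (.s k1 k169 13 (.s k3 k2 0 (.d k41 k21 k22 5 6))))))] .n) (.c k125 (.q k84 [(.s k20
  k40 5 (.s k168 k252 13 (.s k148 k212 7 (.s k192 k104 13 (.d k128 k188 k64 5 7))))), (.s k252 k168
  13 (.s k85 k170 14 (.s k86 k87 0 (.s k169 k3 14 (.d k253 k254 k1 0 13))))), (.s k20 k40 5 (.s k85
  k170 14 (.s k148 k212 7 (.s k150 k215 8 (.s k149 k151 0 (.s k213 k21 7 (.d k192 k234 k104 6
  13)))))))] .n) (.c k150 (.q k4 [(.s k12 k8 1 (.s k20 k40 5 (.s k36 k52 3 (.s k28 k44 3 (.d k24 k16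
  k48 1 5))))), (.s k12 k8 1 (.s k85 k170 14 (.s k166 k247 12 (.s k89 k243 14 (.d k93 k81 k174 1
  12))))), (.s k20 k40 5 (.s k85 k170 14 (.s k52 k36 3 (.s k247 k166 12 (.s k182 k117 8 (.d k243
  k251 k121 1 10))))))] .n) (.c k170 (.q k4 [(.s k12 k8 1 (.s k20 k40 5 (.s k36 k52 3 (.s k28 k44 3
  (.d k24 k16 k48 1 5))))), (.s k12 k8 1 (.s k28 k44 3 (.s k93 k174 12 (.s k158 k223 8 (.s k109 k207
  12 (.d k125 k77 k190 3 8)))))), (.s k20 k40 5 (.s k52 k36 3 (.s k48 k56 1 (.s k117 k186 10 (.s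
  k182 k247 8 (.s k121 k243 10 (.d k125 k113 k190 1 8)))))))] (.c k8 (.q k84 [(.s k40 k20 5 (.s k168
  k252 13 (.s k104 k232 7 (.s k192 k148 13 (.d k64 k124 k128 5 7))))), (.s k20 k40 5 (.s k52 k36 3
  (.s k164 k244 11 (.s k148 k212 7 (.s k196 k100 11 (.d k132 k180 k68 3 7)))))), (.s k252 k168 13
  (.s k124 k188 7 (.s k125 k190 8 (.s k126 k127 0 (.s k189 k63 8 (.d k253 k254 k61 0 7))))))] (.c
  k89 (.q k251 [(.s k40 k20 5 (.s k168 k252 13 (.s k104 k232 7 (.s k192 k148 13 (.d k64 k124 k128 5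
  7))))), (.s k252 k168 13 (.s k244 k164 11 (.s k248 k240 1 (.s k243 k247 1 (.d k249 k250 k246 0
  2))))), (.s k20 k40 5 (.s k52 k36 3 (.s k56 k48 1 (.s k121 k186 8 (.d k243 k247 k182 1 10)))))]
  .n) (.c k148 (.l (.s k20 k40 5 (.s k252 k168 13 (.s k52 k36 3 (.s k244 k164 11 (.s k180 k116 7 (.d
  k240 k248 k120 1 9))))))) (.c k251 (.q k89 [(.s k40 k20 5 (.s k168 k252 13 (.s k104 k232 7 (.s
  k192 k148 13 (.d k64 k124 k128 5 7))))), (.s k20 k40 5 (.s k52 k36 3 (.s k164 k244 11 (.s k148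
  k212 7 (.s k196 k100 11 (.d k132 k180 k68 3 7)))))), (.s k252 k168 13 (.s k124 k188 7 (.s k125
  k190 8 (.s k126 k127 0 (.s k189 k63 8 (.d k253 k254 k61 0 7))))))] (.c k148 (.l (.s k20 k40 5 (.s
  k252 k168 13 (.s k52 k36 3 (.s k244 k164 11 (.s k180 k116 7 (.d k240 k248 k120 1 9))))))) .n))
  .n)))) (.c k44 (.q k84 [(.s k12 k8 1 (.s k168 k252 13 (.s k164 k244 11 (.s k240 k88 13 (.d k160
  k172 k80 1 11))))), (.s k20 k40 5 (.s k168 k252 13 (.s k148 k212 7 (.s k128 k188 5 (.d k192 k64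
  k104 7 13))))), (.s k12 k8 1 (.s k20 k40 5 (.s k164 k244 11 (.s k148 k212 7 (.s k132 k180 3 (.d
  k192 k72 k104 9 13))))))] .n) (.c k251 (.l (.s k20 k40 5 (.s k52 k36 3 (.s k48 k56 1 (.s k125 k190
  8 (.s k117 k186 10 (.s k121 k113 1 (.d k182 k247 k243 8 10)))))))) .n)))) (.c k190 (.q k4 [(.s k12
  k8 1 (.s k20 k40 5 (.s k36 k52 3 (.s k28 k44 3 (.d k24 k16 k48 1 5))))), (.s k12 k8 1 (.s k85 k170
  14 (.s k166 k247 12 (.s k89 k243 14 (.d k93 k81 k174 1 12))))), (.s k20 k40 5 (.s k85 k170 14 (.s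
  k52 k36 3 (.s k247 k166 12 (.s k117 k182 8 (.d k48 k186 k56 10 1))))))] .n) (.c k195 (.f k125 k190
  8 (.f k20 k40 5 (.q k4 [(.s k12 k8 1 (.s k36 k52 3 (.s k28 k44 3 (.d k24 k16 k48 1 5)))), (.s k12
  k8 1 (.s k85 k170 14 (.s k166 k247 12 (.s k89 k243 14 (.d k93 k81 k174 1 12))))), (.s k85 k170 14
  (.s k52 k36 3 (.s k247 k166 12 (.s k117 k182 8 (.d k48 k186 k56 10 1)))))] (.c k56 (.l (.s k36 k52
  3 (.s k12 k8 1 (.s k24 k48 5 (.d k28 k16 k44 1 3))))) (.c k75 (.q k135 [(.s k12 k8 1 (.s k36 k52 3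
  (.s k28 k44 3 (.d k24 k16 k48 1 5)))), (.s k12 k8 1 (.s k85 k170 14 (.s k166 k247 12 (.s k89 k243
  14 (.d k93 k81 k174 1 12))))), (.s k85 k170 14 (.s k52 k36 3 (.s k247 k166 12 (.s k117 k182 8 (.d
  k48 k186 k56 10 1)))))] (.c k56 (.l (.s k36 k52 3 (.s k12 k8 1 (.s k24 k48 5 (.d k28 k16 k44 1
  3))))) .n)) (.c k135 (.q k75 [(.s k12 k8 1 (.s k36 k52 3 (.s k28 k44 3 (.d k24 k16 k48 1 5)))),
  (.s k12 k8 1 (.s k85 k170 14 (.s k166 k247 12 (.s k89 k243 14 (.d k93 k81 k174 1 12))))), (.s k85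
  k170 14 (.s k52 k36 3 (.s k247 k166 12 (.s k117 k182 8 (.d k48 k186 k56 10 1)))))] (.c k56 (.l (.s
  k36 k52 3 (.s k12 k8 1 (.s k24 k48 5 (.d k28 k16 k44 1 3))))) .n)) .n)))))) (.c k215 (.l (.s k40
  k20 5 (.s k190 k125 8 (.s k170 k85 14 (.s k150 k130 5 (.d k105 k235 k195 8 14)))))) (.c k235 (.l
  (.s k20 k40 5 (.s k125 k190 8 (.s k85 k170 14 (.s k105 k65 5 (.d k150 k215 k195 8 14))))))
  .n)))))))))))))

def t21 : T TT 256 :=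
  (.q k3 [(.s k1 k2 0 (.s k85 k170 14 (.s k169 k253 13 (.s k87 k171 13 (.d k86 k84 k252 0 14)))))]
  (.c k1 (.f k85 k170 14 (.q k195 [(.s k65 k130 8 (.s k105 k125 5 (.s k215 k235 5 (.d k150 k20 k60 8
  14)))), (.s k67 k131 7 (.s k87 k171 13 (.s k107 k127 5 (.s k151 k63 13 (.d k215 k235 k23 5 7))))),
  (.s k65 k130 8 (.s k67 k131 7 (.s k87 k171 13 (.s k64 k66 0 (.d k127 k107 k106 5 6)))))] (.c k41
  (.q k61 [(.s k65 k130 8 (.s k105 k125 5 (.s k215 k235 5 (.d k150 k20 k60 8 14)))), (.s k67 k131 7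
  (.s k87 k171 13 (.s k107 k127 5 (.s k151 k63 13 (.d k215 k235 k23 5 7))))), (.s k65 k130 8 (.s k67
  k131 7 (.s k87 k171 13 (.s k64 k66 0 (.d k127 k107 k106 5 6)))))] .n) (.c k61 (.q k41 [(.s k60 k22
  6 (.s k20 k40 5 (.d k150 k105 k215 14 8))), (.s k65 k130 8 (.s k67 k131 7 (.s k87 k171 13 (.s k64
  k66 0 (.d k127 k107 k106 5 6)))))] (.c k150 (.l (.s k60 k22 6 (.s k171 k87 13 (.s k235 k215 5 (.s
  k43 k107 7 (.d k40 k20 k42 5 0)))))) .n)) .n)))) (.c k2 (.q k195 [(.s k67 k131 7 (.s k87 k171 13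
  (.s k107 k127 5 (.s k151 k63 13 (.d k215 k235 k23 5 7))))), (.s k65 k130 8 (.s k85 k170 14 (.s
  k105 k125 5 (.s k150 k60 14 (.d k215 k235 k20 5 8))))), (.s k65 k130 8 (.s k85 k170 14 (.s k67
  k131 7 (.s k87 k171 13 (.s k105 k125 5 (.d k86 k84 k124 0 6))))))] .n) (.c k84 (.l (.s k2 k1 0 (.s
  k170 k85 14 (.s k86 k254 13 (.s k169 k252 14 (.d k171 k87 k168 13 0)))))) (.c k85 (.q k195 [(.s k1
  k2 0 (.s k65 k130 8 (.s k129 k193 7 (.s k67 k131 7 (.d k66 k64 k192 0 8))))), (.s k67 k131 7 (.s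
  k87 k171 13 (.s k107 k127 5 (.s k151 k63 13 (.d k215 k235 k23 5 7)))))] (.c k64 (.l (.s k2 k1 0
  (.s k130 k65 8 (.s k66 k194 7 (.s k129 k192 8 (.d k131 k67 k128 7 0)))))) (.c k67 (.q k149 [(.s k1
  k2 0 (.s k65 k130 8 (.s k129 k193 7 (.s k171 k87 13 (.s k169 k189 5 (.s k168 k170 0 (.d k252 k84
  k86 13 14))))))), (.s k87 k171 13 (.s k215 k235 5 (.s k23 k151 7 (.s k212 k86 8 (.s k213 k214 0
  (.s k192 k234 6 (.d k63 k43 k106 5 14))))))), (.s k130 k65 8 (.s k87 k171 13 (.s k215 k235 5 (.s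
  k151 k23 7 (.s k150 k148 0 (.s k190 k170 5 (.d k60 k125 k105 8 14))))))), (.s k1 k2 0 (.s k65 k130
  8 (.s k193 k129 7 (.s k105 k61 13 (.s k235 k215 5 (.s k40 k170 8 (.d k60 k20 k150 5 14)))))))] (.c
  k150 (.l (.s k2 k1 0 (.s k87 k171 13 (.s k215 k235 5 (.s k23 k151 7 (.s k86 k212 8 (.s k254 k170
  13 (.d k252 k253 k169 0 14)))))))) .n)) (.c k131 (.q k213 [(.s k1 k2 0 (.s k65 k130 8 (.s k129
  k193 7 (.d k192 k66 k234 8 6)))), (.s k234 k192 6 (.s k215 k235 5 (.s k214 k212 0 (.s k254 k194 5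
  (.d k252 k253 k233 0 6)))))] (.c k192 (.l (.s k2 k1 0 (.s k130 k65 8 (.s k194 k66 7 (.s k215 k235
  5 (.s k214 k212 0 (.s k254 k234 5 (.d k252 k253 k233 0 6)))))))) (.c k194 (.l (.s k234 k192 6 (.s
  k235 k215 5 (.s k233 k232 0 (.s k253 k193 5 (.d k252 k254 k214 0 6)))))) (.c k234 (.l (.s k1 k2 0
  (.s k65 k130 8 (.s k215 k235 5 (.s k214 k212 0 (.s k233 k252 6 (.d k193 k129 k253 7 5)))))))
  .n)))) (.c k149 (.q k213 [(.s k1 k2 0 (.s k65 k130 8 (.s k129 k193 7 (.d k192 k66 k234 8 6)))),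
  (.s k67 k131 7 (.s k87 k171 13 (.s k107 k127 5 (.s k215 k235 5 (.d k151 k23 k63 7 13)))))] .n) (.c
  k213 (.q k149 [(.s k1 k2 0 (.s k65 k130 8 (.s k129 k193 7 (.s k67 k131 7 (.d k66 k64 k192 0
  8))))), (.s k67 k131 7 (.s k87 k171 13 (.s k107 k127 5 (.s k151 k63 13 (.d k215 k235 k23 5 7))))),
  (.s k1 k2 0 (.s k65 k130 8 (.s k129 k193 7 (.s k171 k87 13 (.s k169 k189 5 (.s k168 k170 0 (.d
  k252 k84 k86 13 14)))))))] .n) .n)))))) (.c k86 (.q k195 [(.s k67 k131 7 (.s k87 k171 13 (.s k107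
  k127 5 (.s k151 k63 13 (.d k215 k235 k23 5 7))))), (.s k1 k2 0 (.s k65 k130 8 (.s k129 k193 7 (.s
  k66 k192 8 (.d k67 k64 k131 0 7))))), (.s k65 k130 8 (.s k85 k170 14 (.s k105 k125 5 (.s k150 k60
  14 (.d k215 k235 k20 5 8)))))] .n) (.c k87 (.q k195 [(.s k1 k2 0 (.s k65 k130 8 (.s k129 k193 7
  (.s k67 k131 7 (.d k66 k64 k192 0 8))))), (.s k65 k130 8 (.s k85 k170 14 (.s k105 k125 5 (.s k150
  k60 14 (.d k215 k235 k20 5 8))))), (.s k1 k2 0 (.s k85 k170 14 (.s k169 k253 13 (.s k131 k67 7 (.s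
  k150 k188 6 (.d k215 k235 k20 5 8))))))] .n) (.c k169 (.q k195 [(.s k1 k2 0 (.s k65 k130 8 (.s
  k129 k193 7 (.s k66 k192 8 (.d k67 k64 k131 0 7))))), (.s k65 k130 8 (.s k85 k170 14 (.s k105 k125
  5 (.s k150 k60 14 (.d k215 k235 k20 5 8))))), (.s k67 k131 7 (.s k87 k171 13 (.s k107 k127 5 (.s
  k151 k63 13 (.d k215 k235 k23 5 7)))))] .n) (.c k170 (.q k195 [(.s k67 k131 7 (.s k87 k171 13 (.s
  k107 k127 5 (.s k151 k63 13 (.d k215 k235 k23 5 7))))), (.s k1 k2 0 (.s k65 k130 8 (.s k129 k193 7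
  (.s k66 k192 8 (.d k67 k64 k131 0 7)))))] (.c k67 (.q k85 [(.s k1 k2 0 (.s k169 k253 13 (.s k87
  k171 13 (.d k86 k84 k252 0 14)))), (.s k65 k130 8 (.s k105 k125 5 (.s k150 k60 14 (.d k215 k235
  k20 5 8))))] .n) (.c k131 (.q k85 [(.s k1 k2 0 (.s k169 k253 13 (.s k86 k252 14 (.d k87 k84 k171 0
  13)))), (.s k65 k130 8 (.s k105 k125 5 (.s k150 k60 14 (.d k215 k235 k20 5 8))))] .n) .n))) (.c
  k171 (.q k195 [(.s k1 k2 0 (.s k65 k130 8 (.s k129 k193 7 (.s k66 k192 8 (.d k67 k64 k131 0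
  7))))), (.s k65 k130 8 (.s k85 k170 14 (.s k105 k125 5 (.s k150 k60 14 (.d k215 k235 k20 5 8))))),
  (.s k1 k2 0 (.s k85 k170 14 (.s k169 k253 13 (.s k131 k67 7 (.s k150 k188 6 (.d k215 k235 k20 5
  8))))))] .n) (.c k252 (.f k85 k170 14 (.q k195 [(.s k65 k130 8 (.s k105 k125 5 (.s k215 k235 5 (.d
  k150 k20 k60 8 14)))), (.s k2 k1 0 (.s k130 k65 8 (.s k66 k194 7 (.s k129 k192 8 (.d k131 k128 k67
  0 7))))), (.s k1 k2 0 (.s k169 k253 13 (.s k131 k67 7 (.s k150 k188 6 (.d k215 k235 k20 5 8)))))]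
  (.c k94 (.q k173 [(.s k65 k130 8 (.s k105 k125 5 (.s k215 k235 5 (.d k150 k20 k60 8 14)))), (.s k2
  k1 0 (.s k130 k65 8 (.s k66 k194 7 (.s k129 k192 8 (.d k131 k128 k67 0 7))))), (.s k1 k2 0 (.s
  k169 k253 13 (.s k131 k67 7 (.s k150 k188 6 (.d k215 k235 k20 5 8)))))] .n) (.c k173 (.q k94 [(.s
  k65 k130 8 (.s k105 k125 5 (.s k215 k235 5 (.d k150 k20 k60 8 14)))), (.s k2 k1 0 (.s k130 k65 8
  (.s k66 k194 7 (.s k129 k192 8 (.d k131 k128 k67 0 7))))), (.s k1 k2 0 (.s k169 k253 13 (.s k131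
  k67 7 (.s k150 k188 6 (.d k215 k235 k20 5 8)))))] .n) .n)))) (.c k253 (.l (.s k2 k1 0 (.s k171 k87
  13 (.s k170 k85 14 (.s k169 k168 0 (.d k86 k254 k252 13 14)))))) (.c k254 (.l (.s k1 k2 0 (.s k87
  k171 13 (.s k85 k170 14 (.s k86 k84 0 (.d k169 k253 k252 13 14)))))) .n)))))))))))))

def t22 : T TT 256 :=
  (.q k12 [(.s k4 k8 1 (.s k85 k170 14 (.s k166 k247 12 (.s k93 k174 12 (.d k89 k81 k243 1 14)))))]
  (.c k4 (.q k28 [(.s k60 k44 3 (.s k93 k174 12 (.s k158 k223 8 (.s k125 k190 8 (.d k109 k77 k207 3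
  12))))), (.s k85 k170 14 (.s k60 k44 3 (.s k20 k40 5 (.s k150 k215 8 (.s k105 k195 14 (.d k125 k65
  k190 5 8)))))), (.s k85 k170 14 (.s k93 k174 12 (.s k223 k158 8 (.s k16 k154 10 (.s k48 k32 3 (.d
  k24 k20 k36 1 5))))))] (.c k190 (.l (.s k85 k170 14 (.s k60 k44 3 (.s k20 k40 5 (.s k93 k174 12
  (.s k16 k24 1 (.d k223 k158 k154 8 10))))))) .n)) (.c k8 (.q k28 [(.s k60 k44 3 (.s k93 k174 12
  (.s k158 k223 8 (.s k125 k190 8 (.d k109 k77 k207 3 12))))), (.s k85 k170 14 (.s k60 k44 3 (.s k20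
  k40 5 (.s k150 k215 8 (.s k105 k195 14 (.d k125 k65 k190 5 8)))))), (.s k85 k170 14 (.s k93 k174
  12 (.s k223 k158 8 (.s k16 k154 10 (.s k48 k32 3 (.d k24 k20 k36 1 5))))))] (.c k190 (.l (.s k85
  k170 14 (.s k60 k44 3 (.s k20 k40 5 (.s k93 k174 12 (.s k150 k215 8 (.d k89 k81 k211 1 10)))))))
  .n)) (.c k81 (.l (.s k8 k4 1 (.s k170 k85 14 (.s k89 k251 12 (.s k166 k243 14 (.d k174 k93 k162 12
  1)))))) (.c k85 (.f k93 k174 12 (.q k28 [(.s k60 k44 3 (.s k125 k190 8 (.s k109 k77 3 (.d k158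
  k223 k207 8 12)))), (.s k4 k8 1 (.s k60 k44 3 (.s k20 k40 5 (.s k36 k52 3 (.d k24 k16 k48 1
  5)))))] (.c k44 (.q k20 [(.s k4 k8 1 (.s k36 k52 3 (.d k24 k16 k48 1 5))), (.s k60 k40 5 (.s k125
  k190 8 (.s k109 k77 3 (.d k158 k223 k207 8 12))))] (.c k36 (.l (.s k8 k4 1 (.s k40 k60 5 (.d k24
  k16 k56 1 3)))) (.c k109 (.q k239 [(.d k223 k207 k158 3 8), (.s k4 k8 1 (.s k36 k52 3 (.d k24 k16
  k48 1 5)))] .n) (.c k239 (.q k109 [(.s k60 k40 5 (.d k158 k223 k207 8 12)), (.s k4 k8 1 (.s k36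
  k52 3 (.d k24 k16 k48 1 5)))] (.c k36 (.l (.s k158 k223 8 (.d k60 k40 k207 5 12))) .n)) .n)))) (.c
  k60 (.l (.s k4 k8 1 (.s k223 k158 8 (.s k207 k239 3 (.s k69 k138 10 (.s k134 k199 8 (.s k73 k195
  10 (.d k77 k142 k65 8 1)))))))) (.c k109 (.l (.s k4 k8 1 (.s k223 k158 8 (.s k60 k44 3 (.s k239
  k207 3 (.s k20 k40 5 (.s k36 k52 3 (.d k24 k16 k48 1 5)))))))) (.c k239 (.l (.s k158 k223 8 (.s
  k60 k44 3 (.s k109 k207 12 (.d k125 k77 k190 3 8))))) .n)))))) (.c k89 (.q k28 [(.s k60 k44 3 (.s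
  k93 k174 12 (.s k158 k223 8 (.s k109 k207 12 (.d k125 k77 k190 3 8))))), (.s k4 k8 1 (.s k60 k44 3
  (.s k20 k40 5 (.s k36 k52 3 (.d k24 k16 k48 1 5))))), (.s k85 k170 14 (.s k93 k174 12 (.s k223
  k158 8 (.s k16 k154 10 (.s k48 k32 3 (.d k24 k20 k36 1 5))))))] .n) (.c k93 (.q k20 [(.s k4 k8 1
  (.s k60 k40 5 (.s k28 k44 3 (.s k24 k16 1 (.d k36 k52 k48 3 5))))), (.s k60 k40 5 (.s k85 k170 14
  (.s k150 k215 8 (.s k105 k195 14 (.d k125 k65 k190 5 8))))), (.s k4 k8 1 (.s k85 k170 14 (.s k36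
  k52 3 (.s k166 k247 12 (.s k101 k231 8 (.s k117 k69 3 (.d k48 k24 k186 5 10)))))))] .n) (.c k166
  (.q k234 [(.s k170 k85 14 (.s k192 k213 6 (.s k128 k64 7 (.s k149 k191 6 (.d k106 k42 k63 7
  14))))), (.s k4 k8 1 (.s k192 k213 6 (.s k128 k64 7 (.s k132 k72 9 (.s k68 k196 7 (.d k136 k140
  k204 1 9)))))), (.s k4 k8 1 (.s k170 k85 14 (.s k42 k106 7 (.s k21 k63 6 (.s k38 k55 4 (.s k51 k25
  6 (.d k34 k46 k17 1 4)))))))] (.c k4 (.l (.s k85 k170 14 (.s k192 k213 6 (.s k64 k128 7 (.s k72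
  k132 9 (.s k106 k127 6 (.s k89 k123 4 (.d k93 k174 k81 12 1)))))))) (.c k64 (.l (.s k8 k4 1 (.s
  k192 k213 6 (.s k72 k132 9 (.s k200 k136 7 (.s k251 k217 4 (.d k170 k85 k89 14 12))))))) (.c k192
  (.l (.s k170 k85 14 (.s k174 k93 12 (.s k42 k106 7 (.s k63 k21 6 (.s k46 k29 4 (.s k34 k38 1 (.d
  k238 k102 k110 9 7)))))))) .n)))) (.c k170 (.q k28 [(.s k60 k44 3 (.s k93 k174 12 (.s k158 k223 8
  (.s k109 k207 12 (.d k125 k77 k190 3 8))))), (.s k4 k8 1 (.s k60 k44 3 (.s k20 k40 5 (.s k36 k52 3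
  (.d k24 k16 k48 1 5)))))] (.c k44 (.q k20 [(.s k4 k8 1 (.s k24 k16 1 (.d k36 k52 k48 3 5))), (.s
  k60 k40 5 (.s k93 k174 12 (.s k158 k223 8 (.s k109 k207 12 (.d k125 k77 k190 3 8)))))] (.c k36 (.l
  (.s k8 k4 1 (.s k40 k60 5 (.d k24 k16 k56 1 3)))) .n)) (.c k60 (.f k93 k174 12 (.l (.s k4 k8 1 (.s
  k223 k158 8 (.s k207 k239 3 (.s k69 k138 10 (.s k134 k199 8 (.s k73 k195 10 (.d k77 k142 k65 8
  1))))))))) .n))) (.c k174 (.q k234 [(.s k170 k85 14 (.s k106 k42 7 (.s k192 k213 6 (.s k128 k64 7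
  (.d k149 k191 k63 6 14))))), (.s k4 k8 1 (.s k192 k213 6 (.s k128 k64 7 (.s k132 k72 9 (.s k68
  k196 7 (.d k136 k140 k204 1 9)))))), (.s k8 k4 1 (.s k170 k85 14 (.s k251 k89 12 (.s k106 k42 7
  (.s k200 k217 4 (.s k136 k72 7 (.d k153 k187 k59 4 12)))))))] .n) (.c k243 (.f k85 k170 14 (.q k28
  [(.s k4 k8 1 (.s k60 k44 3 (.s k20 k40 5 (.s k24 k16 1 (.d k36 k52 k48 3 5))))), (.s k60 k44 3 (.s
  k93 k174 12 (.s k158 k223 8 (.s k109 k207 12 (.d k125 k77 k190 3 8))))), (.s k93 k174 12 (.s k223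
  k158 8 (.s k16 k154 10 (.s k48 k32 3 (.d k24 k20 k36 1 5)))))] (.c k91 (.q k167 [(.s k4 k8 1 (.s
  k60 k44 3 (.s k20 k40 5 (.s k24 k16 1 (.d k36 k52 k48 3 5))))), (.s k60 k44 3 (.s k93 k174 12 (.s
  k158 k223 8 (.s k109 k207 12 (.d k125 k77 k190 3 8))))), (.s k93 k174 12 (.s k223 k158 8 (.s k16
  k154 10 (.s k48 k32 3 (.d k24 k20 k36 1 5)))))] .n) (.c k167 (.q k91 [(.s k4 k8 1 (.s k60 k44 3
  (.s k20 k40 5 (.s k24 k16 1 (.d k36 k52 k48 3 5))))), (.s k60 k44 3 (.s k93 k174 12 (.s k158 k223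
  8 (.s k109 k207 12 (.d k125 k77 k190 3 8))))), (.s k93 k174 12 (.s k223 k158 8 (.s k16 k154 10 (.s
  k48 k32 3 (.d k24 k20 k36 1 5)))))] .n) .n)))) (.c k247 (.l (.s k8 k4 1 (.s k174 k93 12 (.s k170
  k85 14 (.s k166 k162 1 (.d k89 k251 k243 12 14)))))) (.c k251 (.l (.s k4 k8 1 (.s k93 k174 12 (.s
  k85 k170 14 (.s k89 k81 1 (.d k166 k247 k243 12 14)))))) .n)))))))))))))

def t23 : T TT 256 :=
  (.q k60 [(.s k20 k40 5 (.s k85 k170 14 (.s k125 k190 8 (.s k105 k65 5 (.d k150 k215 k195 8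
  14)))))] (.c k20 (.q k21 [(.s k63 k42 6 (.s k85 k170 14 (.s k149 k213 7 (.s k127 k191 7 (.d k106
  k64 k192 6 14))))), (.s k85 k170 14 (.s k149 k213 7 (.s k125 k190 8 (.s k105 k65 5 (.s k61 k193 13
  (.s k1 k41 5 (.d k253 k189 k169 7 13))))))), (.s k63 k42 6 (.s k61 k62 0 (.s k125 k190 8 (.s k189
  k253 7 (.s k126 k252 8 (.d k127 k124 k191 0 7))))))] .n) (.c k40 (.q k21 [(.s k63 k42 6 (.s k85
  k170 14 (.s k149 k213 7 (.s k127 k191 7 (.d k106 k64 k192 6 14))))), (.s k63 k42 6 (.s k61 k62 0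
  (.s k125 k190 8 (.s k189 k253 7 (.s k126 k252 8 (.d k127 k124 k191 0 7)))))), (.s k85 k170 14 (.s
  k149 k213 7 (.s k125 k190 8 (.s k105 k65 5 (.s k61 k193 13 (.d k63 k62 k42 0 6)))))), (.s k85 k170
  14 (.s k149 k213 7 (.s k125 k190 8 (.s k105 k65 5 (.s k61 k193 13 (.s k253 k189 7 (.d k1 k41 k169
  5 13)))))))] .n) (.c k65 (.l (.s k40 k20 5 (.s k170 k85 14 (.s k105 k235 8 (.s k150 k195 14 (.d
  k190 k125 k130 8 5)))))) (.c k85 (.f k20 k40 5 (.f k125 k190 8 (.q k4 [(.s k12 k8 1 (.s k36 k52 3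
  (.s k28 k44 3 (.d k24 k16 k48 1 5)))), (.s k12 k8 1 (.s k93 k174 12 (.s k109 k77 3 (.s k158 k207
  12 (.d k28 k44 k223 3 8))))), (.s k52 k36 3 (.s k48 k56 1 (.s k117 k186 10 (.s k182 k247 8 (.d
  k121 k113 k243 1 10)))))] (.c k8 (.q k84 [(.s k168 k252 13 (.s k148 k212 7 (.s k192 k104 13 (.d
  k128 k188 k64 5 7)))), (.s k52 k36 3 (.s k164 k244 11 (.s k148 k212 7 (.s k196 k100 11 (.d k132
  k180 k68 3 7))))), (.s k252 k168 13 (.s k52 k36 3 (.s k244 k164 11 (.s k180 k116 7 (.d k240 k248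
  k120 1 9)))))] (.c k24 (.q k56 [(.d k52 k48 k36 1 3), (.s k168 k252 13 (.s k148 k212 7 (.s k192
  k104 13 (.d k128 k188 k64 5 7))))] .n) (.c k56 (.q k24 [(.s k36 k52 3 (.s k12 k48 5 (.d k28 k16
  k44 1 3))), (.s k168 k252 13 (.s k148 k212 7 (.s k192 k104 13 (.d k128 k188 k64 5 7))))] .n) .n)))
  (.c k24 (.l (.s k8 k12 1 (.s k52 k36 3 (.s k48 k56 1 (.s k117 k186 10 (.s k182 k247 8 (.d k121
  k113 k243 1 10))))))) (.c k44 (.l (.s k12 k8 1 (.s k36 k52 3 (.s k24 k48 5 (.s k93 k174 12 (.s k28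
  k16 1 (.s k109 k77 3 (.d k158 k223 k207 8 12)))))))) (.c k56 (.l (.s k36 k52 3 (.s k12 k8 1 (.s
  k24 k48 5 (.d k28 k16 k44 1 3))))) .n))))))) (.c k105 (.q k251 [(.s k170 k85 14 (.s k89 k8 12 (.s
  k243 k247 1 (.s k162 k81 12 (.d k166 k174 k12 1 14))))), (.s k125 k190 8 (.s k243 k247 1 (.s k121
  k182 10 (.s k186 k56 8 (.d k117 k113 k48 1 10))))), (.s k40 k20 5 (.s k170 k85 14 (.s k8 k89 12
  (.s k56 k24 3 (.s k48 k52 1 (.d k186 k121 k117 8 10))))))] (.c k125 (.l (.s k40 k20 5 (.s k243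
  k247 1 (.s k121 k182 10 (.s k56 k186 8 (.s k8 k24 3 (.d k170 k89 k85 12 14))))))) .n)) (.c k125
  (.q k21 [(.s k40 k20 5 (.s k42 k63 6 (.s k41 k43 0 (.s k3 k22 6 (.d k1 k2 k61 0 5))))), (.s k63
  k42 6 (.s k85 k170 14 (.s k149 k213 7 (.s k106 k192 14 (.d k127 k64 k191 6 7))))), (.s k20 k40 5
  (.s k85 k170 14 (.s k215 k150 8 (.s k213 k149 7 (.s k212 k214 0 (.s k148 k84 7 (.d k192 k234 k104
  6 13)))))))] .n) (.c k130 (.l (.s k20 k40 5 (.s k85 k170 14 (.s k150 k215 8 (.s k105 k195 14 (.d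
  k125 k190 k65 8 5)))))) (.c k150 (.q k4 [(.s k12 k8 1 (.s k20 k40 5 (.s k28 k44 3 (.s k24 k16 1
  (.d k36 k52 k48 3 5))))), (.s k12 k8 1 (.s k85 k170 14 (.s k166 k247 12 (.s k89 k243 14 (.d k93
  k81 k174 1 12))))), (.s k20 k40 5 (.s k85 k170 14 (.s k52 k36 3 (.s k247 k166 12 (.s k182 k117 8
  (.d k243 k251 k121 1 10))))))] .n) (.c k170 (.q k4 [(.s k12 k8 1 (.s k20 k40 5 (.s k36 k52 3 (.s
  k28 k44 3 (.d k24 k16 k48 1 5))))), (.s k12 k8 1 (.s k28 k44 3 (.s k93 k174 12 (.s k158 k223 8 (.s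
  k109 k207 12 (.d k125 k77 k190 3 8)))))), (.s k20 k40 5 (.s k52 k36 3 (.s k48 k56 1 (.s k117 k186
  10 (.s k182 k247 8 (.s k121 k243 10 (.d k125 k113 k190 1 8)))))))] (.c k8 (.q k251 [(.s k125 k190
  8 (.s k243 k247 1 (.s k121 k182 10 (.s k117 k113 1 (.d k186 k56 k48 8 10))))), (.s k125 k190 8 (.s
  k247 k243 1 (.s k85 k166 12 (.s k105 k65 5 (.s k150 k195 14 (.d k20 k40 k215 5 8)))))), (.s k20
  k40 5 (.s k52 k36 3 (.s k56 k48 1 (.s k121 k186 8 (.d k243 k247 k182 1 10)))))] (.c k243 (.q k84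
  [(.s k40 k20 5 (.s k168 k252 13 (.s k104 k232 7 (.s k192 k148 13 (.d k64 k124 k128 5 7))))), (.s
  k20 k40 5 (.s k52 k36 3 (.s k164 k244 11 (.s k148 k212 7 (.s k196 k100 11 (.d k132 k180 k68 3
  7)))))), (.s k252 k168 13 (.s k124 k188 7 (.s k125 k190 8 (.s k126 k127 0 (.s k189 k63 8 (.d k253
  k254 k61 0 7))))))] (.c k91 (.q k167 [(.s k40 k20 5 (.s k168 k252 13 (.s k104 k232 7 (.s k192 k148
  13 (.d k64 k124 k128 5 7))))), (.s k20 k40 5 (.s k52 k36 3 (.s k164 k244 11 (.s k148 k212 7 (.s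
  k196 k100 11 (.d k132 k180 k68 3 7)))))), (.s k252 k168 13 (.s k124 k188 7 (.s k125 k190 8 (.s
  k126 k127 0 (.s k189 k63 8 (.d k253 k254 k61 0 7))))))] (.c k148 (.l (.s k20 k40 5 (.s k252 k168
  13 (.s k52 k36 3 (.s k244 k164 11 (.s k180 k116 7 (.d k240 k248 k120 1 9))))))) .n)) (.c k148 (.l
  (.s k20 k40 5 (.s k252 k168 13 (.s k52 k36 3 (.s k244 k164 11 (.s k180 k116 7 (.d k240 k248 k120 1
  9))))))) (.c k167 (.q k91 [(.s k40 k20 5 (.s k168 k252 13 (.s k104 k232 7 (.s k192 k148 13 (.d k64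
  k124 k128 5 7))))), (.s k20 k40 5 (.s k52 k36 3 (.s k164 k244 11 (.s k148 k212 7 (.s k196 k100 11
  (.d k132 k180 k68 3 7)))))), (.s k252 k168 13 (.s k124 k188 7 (.s k125 k190 8 (.s k126 k127 0 (.s
  k189 k63 8 (.d k253 k254 k61 0 7))))))] (.c k148 (.l (.s k20 k40 5 (.s k252 k168 13 (.s k52 k36 3
  (.s k244 k164 11 (.s k180 k116 7 (.d k240 k248 k120 1 9))))))) .n)) .n)))) (.c k247 (.q k84 [(.s
  k40 k20 5 (.s k168 k252 13 (.s k104 k232 7 (.s k192 k148 13 (.d k64 k124 k128 5 7))))), (.s k20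
  k40 5 (.s k52 k36 3 (.s k164 k244 11 (.s k148 k212 7 (.s k196 k100 11 (.d k132 k180 k68 3 7)))))),
  (.s k252 k168 13 (.s k124 k188 7 (.s k125 k190 8 (.s k126 k127 0 (.s k189 k63 8 (.d k253 k254 k61
  0 7))))))] (.c k148 (.l (.s k20 k40 5 (.s k252 k168 13 (.s k52 k36 3 (.s k244 k164 11 (.s k180
  k116 7 (.d k240 k248 k120 1 9))))))) .n)) .n))) (.c k44 (.q k251 [(.s k125 k190 8 (.s k243 k247 1
  (.s k121 k182 10 (.s k186 k56 8 (.d k117 k113 k48 1 10))))), (.s k8 k12 1 (.s k40 k20 5 (.s k56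
  k24 3 (.s k48 k52 1 (.d k186 k121 k117 8 10))))), (.s k20 k40 5 (.s k125 k190 8 (.s k247 k243 1
  (.s k85 k166 12 (.s k150 k215 8 (.d k105 k65 k195 5 14))))))] .n) (.c k251 (.l (.s k20 k40 5 (.s
  k52 k36 3 (.s k48 k56 1 (.s k125 k190 8 (.s k117 k186 10 (.s k121 k113 1 (.d k182 k247 k243 8
  10)))))))) .n)))) (.c k190 (.q k4 [(.s k12 k8 1 (.s k20 k40 5 (.s k36 k52 3 (.s k28 k44 3 (.d k24
  k16 k48 1 5))))), (.s k12 k8 1 (.s k85 k170 14 (.s k166 k247 12 (.s k89 k243 14 (.d k93 k81 k174 1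
  12))))), (.s k20 k40 5 (.s k85 k170 14 (.s k52 k36 3 (.s k247 k166 12 (.s k117 k182 8 (.d k48 k186
  k56 10 1))))))] .n) (.c k195 (.f k20 k40 5 (.f k125 k190 8 (.q k4 [(.s k12 k8 1 (.s k36 k52 3 (.s
  k28 k44 3 (.d k24 k16 k48 1 5)))), (.s k12 k8 1 (.s k85 k170 14 (.s k166 k247 12 (.s k89 k243 14
  (.d k93 k81 k174 1 12))))), (.s k85 k170 14 (.s k52 k36 3 (.s k247 k166 12 (.s k117 k182 8 (.d k48
  k186 k56 10 1)))))] (.c k56 (.l (.s k36 k52 3 (.s k12 k8 1 (.s k24 k48 5 (.d k28 k16 k44 1 3)))))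
  (.c k75 (.q k135 [(.s k12 k8 1 (.s k36 k52 3 (.s k28 k44 3 (.d k24 k16 k48 1 5)))), (.s k12 k8 1
  (.s k85 k170 14 (.s k166 k247 12 (.s k89 k243 14 (.d k93 k81 k174 1 12))))), (.s k85 k170 14 (.s
  k52 k36 3 (.s k247 k166 12 (.s k117 k182 8 (.d k48 k186 k56 10 1)))))] (.c k56 (.l (.s k36 k52 3
  (.s k12 k8 1 (.s k24 k48 5 (.d k28 k16 k44 1 3))))) .n)) (.c k135 (.q k75 [(.s k12 k8 1 (.s k36
  k52 3 (.s k28 k44 3 (.d k24 k16 k48 1 5)))), (.s k12 k8 1 (.s k85 k170 14 (.s k166 k247 12 (.s k89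
  k243 14 (.d k93 k81 k174 1 12))))), (.s k85 k170 14 (.s k52 k36 3 (.s k247 k166 12 (.s k117 k182 8
  (.d k48 k186 k56 10 1)))))] (.c k56 (.l (.s k36 k52 3 (.s k12 k8 1 (.s k24 k48 5 (.d k28 k16 k44 1
  3))))) .n)) .n)))))) (.c k215 (.l (.s k40 k20 5 (.s k190 k125 8 (.s k170 k85 14 (.s k150 k130 5
  (.d k105 k235 k195 8 14)))))) (.c k235 (.l (.s k20 k40 5 (.s k125 k190 8 (.s k85 k170 14 (.s k105
  k65 5 (.d k150 k215 k195 8 14)))))) .n))))))))))))))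

def t26 : T TT 256 :=
  (.q k48 [(.s k16 k32 3 (.s k85 k170 14 (.s k154 k223 10 (.s k117 k186 10 (.d k101 k69 k207 3
  14)))))] (.c k16 (.q k21 [(.s k63 k42 6 (.s k85 k170 14 (.s k149 k213 7 (.s k127 k191 7 (.d k106
  k64 k192 6 14))))), (.s k85 k170 14 (.s k149 k213 7 (.s k117 k186 10 (.s k101 k69 3 (.s k53 k197
  11 (.s k5 k37 3 (.d k245 k181 k165 7 11))))))), (.s k63 k42 6 (.s k58 k53 2 (.s k186 k117 10 (.s
  k122 k250 7 (.s k181 k240 10 (.d k191 k176 k127 2 7))))))] .n) (.c k32 (.q k21 [(.s k63 k42 6 (.s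
  k85 k170 14 (.s k149 k213 7 (.s k127 k191 7 (.d k106 k64 k192 6 14))))), (.s k85 k170 14 (.s k149
  k213 7 (.s k117 k186 10 (.s k101 k69 3 (.s k53 k197 11 (.s k245 k181 7 (.d k5 k37 k165 3
  11))))))), (.s k63 k42 6 (.s k58 k53 2 (.s k186 k117 10 (.s k122 k250 7 (.s k181 k240 10 (.d k191
  k176 k127 2 7)))))), (.s k85 k170 14 (.s k149 k213 7 (.s k117 k186 10 (.s k101 k69 3 (.s k53 k197
  11 (.d k63 k58 k42 2 6))))))] .n) (.c k69 (.l (.s k32 k16 3 (.s k170 k85 14 (.s k101 k239 10 (.s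
  k154 k207 14 (.d k186 k117 k138 10 3)))))) (.c k85 (.q k240 [(.s k16 k32 3 (.s k80 k160 11 (.s
  k144 k208 7 (.s k112 k176 7 (.d k96 k64 k192 3 11))))), (.s k112 k176 7 (.s k117 k186 10 (.s k122
  k127 2 (.s k181 k63 10 (.d k245 k250 k53 2 7)))))] (.c k64 (.l (.s k32 k16 3 (.s k160 k80 11 (.s
  k96 k224 7 (.s k144 k192 11 (.d k176 k112 k128 7 3)))))) (.c k112 (.q k12 [(.s k4 k8 1 (.s k32 k16
  3 (.s k36 k24 5 (.s k20 k52 3 (.d k40 k44 k60 1 5))))), (.s k4 k8 1 (.s k160 k80 11 (.s k164 k88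
  13 (.s k84 k244 11 (.d k168 k172 k252 1 13))))), (.s k16 k32 3 (.s k80 k160 11 (.s k24 k36 5 (.s
  k88 k164 13 (.s k208 k144 7 (.d k28 k20 k148 1 9))))))] .n) (.c k176 (.q k12 [(.s k4 k8 1 (.s k160
  k80 11 (.s k164 k88 13 (.s k84 k244 11 (.d k168 k172 k252 1 13))))), (.s k4 k8 1 (.s k32 k16 3 (.s
  k36 k24 5 (.s k20 k52 3 (.d k40 k44 k60 1 5))))), (.s k16 k32 3 (.s k80 k160 11 (.s k24 k36 5 (.s
  k88 k164 13 (.s k152 k216 7 (.d k84 k92 k220 1 9))))))] .n) .n)))) (.c k101 (.q k12 [(.s k4 k8 1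
  (.s k85 k170 14 (.s k166 k247 12 (.s k89 k243 14 (.d k93 k81 k174 1 12))))), (.s k4 k8 1 (.s k32
  k16 3 (.s k36 k24 5 (.s k20 k52 3 (.d k40 k44 k60 1 5))))), (.s k85 k170 14 (.s k24 k36 5 (.s k93
  k174 12 (.s k89 k81 1 (.s k154 k219 8 (.d k16 k32 k223 3 10))))))] (.c k32 (.l (.s k8 k4 1 (.s
  k170 k85 14 (.s k89 k251 12 (.s k166 k243 14 (.d k174 k162 k93 1 12)))))) .n)) (.c k117 (.q k12
  [(.s k4 k8 1 (.s k85 k170 14 (.s k93 k174 12 (.s k89 k81 1 (.d k166 k247 k243 12 14))))), (.s k4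
  k8 1 (.s k32 k16 3 (.s k36 k24 5 (.s k40 k44 1 (.d k20 k52 k60 3 5))))), (.s k16 k32 3 (.s k85
  k170 14 (.s k24 k36 5 (.s k93 k174 12 (.s k154 k223 10 (.d k89 k81 k219 1 8))))))] .n) (.c k154
  (.q k12 [(.s k4 k8 1 (.s k85 k170 14 (.s k166 k247 12 (.s k89 k243 14 (.d k93 k81 k174 1 12))))),
  (.s k8 k4 1 (.s k16 k32 3 (.s k24 k36 5 (.s k40 k56 3 (.d k20 k28 k60 1 5))))), (.s k170 k85 14
  (.s k36 k24 5 (.s k174 k93 12 (.s k166 k162 1 (.s k101 k231 8 (.d k32 k16 k239 3 10))))))] (.c k90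
  (.q k218 [(.s k8 k4 1 (.s k16 k32 3 (.s k24 k36 5 (.s k40 k56 3 (.d k20 k28 k60 1 5))))), (.s k4
  k8 1 (.s k85 k170 14 (.s k166 k247 12 (.s k89 k243 14 (.d k93 k81 k174 1 12))))), (.s k170 k85 14
  (.s k36 k24 5 (.s k174 k93 12 (.s k166 k162 1 (.s k101 k231 8 (.d k32 k16 k239 3 10))))))] (.c
  k165 (.q k240 [(.s k16 k32 3 (.s k80 k160 11 (.s k144 k208 7 (.s k96 k192 11 (.d k112 k176 k64 7
  3))))), (.s k4 k8 1 (.s k160 k80 11 (.s k164 k88 13 (.s k84 k244 11 (.d k168 k172 k252 1 13))))),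
  (.s k4 k8 1 (.s k32 k16 3 (.s k36 k24 5 (.s k20 k52 3 (.d k40 k44 k60 1 5)))))] (.c k143 (.l (.s
  k176 k112 7 (.s k32 k16 3 (.s k160 k80 11 (.s k96 k224 7 (.d k144 k128 k192 3 11)))))) (.c k176
  (.q k143 [(.s k8 k4 1 (.s k16 k32 3 (.s k24 k36 5 (.s k40 k56 3 (.d k20 k28 k60 1 5))))), (.s k16
  k32 3 (.s k80 k160 11 (.s k207 k229 6 (.s k223 k239 3 (.d k208 k144 k213 7 2))))), (.s k4 k8 1 (.s
  k160 k80 11 (.s k164 k88 13 (.s k84 k244 11 (.d k168 k172 k252 1 13)))))] .n) .n))) (.c k240 (.q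
  k165 [(.s k8 k4 1 (.s k16 k32 3 (.s k24 k36 5 (.s k40 k56 3 (.d k20 k28 k60 1 5))))), (.s k4 k8 1
  (.s k85 k170 14 (.s k166 k247 12 (.s k89 k243 14 (.d k93 k81 k174 1 12))))), (.s k170 k85 14 (.s
  k36 k24 5 (.s k174 k93 12 (.s k166 k162 1 (.s k101 k231 8 (.d k32 k16 k239 3 10))))))] .n) .n)))
  (.c k218 (.q k90 [(.s k4 k8 1 (.s k85 k170 14 (.s k166 k247 12 (.s k89 k243 14 (.d k93 k81 k174 1
  12))))), (.s k8 k4 1 (.s k16 k32 3 (.s k24 k36 5 (.s k40 k56 3 (.d k20 k28 k60 1 5))))), (.s k85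
  k170 14 (.s k93 k174 12 (.s k80 k95 2 (.s k240 k160 11 (.s k88 k164 13 (.d k89 k91 k81 0 1))))))]
  .n) .n))) (.c k170 (.q k240 [(.s k112 k176 7 (.s k117 k186 10 (.s k122 k127 2 (.s k181 k63 10 (.d
  k245 k250 k53 2 7))))), (.s k16 k32 3 (.s k80 k160 11 (.s k144 k208 7 (.s k96 k192 11 (.d k112 k64
  k176 3 7)))))] (.c k112 (.q k12 [(.s k8 k4 1 (.s k16 k32 3 (.s k24 k36 5 (.s k40 k56 3 (.d k20 k28
  k60 1 5))))), (.s k4 k8 1 (.s k160 k80 11 (.s k164 k88 13 (.s k84 k244 11 (.d k168 k172 k252 1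
  13))))), (.s k16 k32 3 (.s k80 k160 11 (.s k24 k36 5 (.s k88 k164 13 (.s k208 k144 7 (.d k28 k20
  k148 1 9))))))] .n) (.c k176 (.q k12 [(.s k4 k8 1 (.s k160 k80 11 (.s k164 k88 13 (.s k84 k244 11
  (.d k168 k172 k252 1 13))))), (.s k8 k4 1 (.s k16 k32 3 (.s k24 k36 5 (.s k40 k56 3 (.d k20 k28
  k60 1 5))))), (.s k16 k32 3 (.s k80 k160 11 (.s k24 k36 5 (.s k88 k164 13 (.s k152 k216 7 (.d k84
  k92 k220 1 9))))))] .n) .n))) (.c k186 (.q k12 [(.s k4 k8 1 (.s k85 k170 14 (.s k166 k247 12 (.s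
  k89 k243 14 (.d k93 k81 k174 1 12))))), (.s k4 k8 1 (.s k32 k16 3 (.s k36 k24 5 (.s k20 k52 3 (.d
  k40 k44 k60 1 5))))), (.s k16 k32 3 (.s k85 k170 14 (.s k24 k36 5 (.s k93 k174 12 (.s k154 k223 10
  (.d k89 k81 k219 1 8))))))] .n) (.c k207 (.f k85 k170 14 (.q k240 [(.s k16 k32 3 (.s k154 k223 10
  (.s k176 k112 7 (.s k245 k250 2 (.d k165 k143 k5 6 11))))), (.s k32 k16 3 (.s k160 k80 11 (.s k96
  k224 7 (.s k144 k192 11 (.d k176 k128 k112 3 7))))), (.s k117 k186 10 (.s k245 k250 2 (.s k5 k165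
  11 (.s k53 k181 7 (.s k21 k37 3 (.d k63 k58 k42 2 6))))))] (.c k79 (.q k143 [(.s k16 k32 3 (.s
  k154 k223 10 (.d k176 k165 k112 6 7))), (.s k245 k250 2 (.s k165 k5 11 (.d k176 k154 k112 6 7))),
  (.s k32 k16 3 (.s k160 k80 11 (.s k96 k224 7 (.s k144 k192 11 (.d k176 k128 k112 3 7))))), (.s k16
  k32 3 (.s k80 k160 11 (.s k144 k208 7 (.s k154 k223 10 (.s k149 k159 2 (.s k213 k21 7 (.d k192 k96
  k234 11 6)))))))] .n) (.c k143 (.q k79 [(.s k80 k160 11 (.s k90 k95 2 (.d k112 k101 k176 6 7))),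
  (.s k32 k16 3 (.s k160 k80 11 (.s k96 k224 7 (.s k144 k192 11 (.d k176 k128 k112 3 7))))), (.s
  k112 k176 7 (.s k117 k186 10 (.d k101 k69 k90 3 6))), (.s k80 k160 11 (.s k117 k186 10 (.s k69
  k101 3 (.s k64 k74 2 (.s k127 k106 6 (.d k95 k90 k111 2 3))))))] .n) (.c k176 (.l (.s k16 k32 3
  (.s k80 k160 11 (.s k144 k208 7 (.s k154 k223 10 (.s k149 k159 2 (.s k213 k21 7 (.d k192 k96 k234
  11 6)))))))) .n))))) (.c k223 (.l (.s k32 k16 3 (.s k186 k117 10 (.s k170 k85 14 (.s k154 k138 3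
  (.d k101 k239 k207 10 14)))))) (.c k239 (.l (.s k16 k32 3 (.s k117 k186 10 (.s k85 k170 14 (.s
  k101 k69 3 (.d k154 k223 k207 10 14)))))) .n)))))))))))))

def t27 : T TT 256 :=
  (.q k51 [(.s k17 k34 4 (.s k85 k170 14 (.s k153 k221 9 (.s k119 k187 9 (.d k102 k68 k204 4
  14)))))] (.c k17 (.q k3 [(.s k1 k2 0 (.s k85 k170 14 (.s k169 k253 13 (.s k87 k171 13 (.d k86 k84
  k252 0 14))))), (.s k19 k35 3 (.s k87 k171 13 (.s k155 k223 9 (.s k103 k207 13 (.d k119 k71 k187 3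
  9))))), (.s k1 k2 0 (.s k85 k170 14 (.s k169 k253 13 (.s k35 k19 3 (.s k102 k236 10 (.d k119 k68
  k187 4 9))))))] .n) (.c k34 (.q k3 [(.s k2 k1 0 (.s k171 k87 13 (.s k170 k85 14 (.s k169 k168 0
  (.d k86 k254 k252 13 14))))), (.s k19 k35 3 (.s k87 k171 13 (.s k155 k223 9 (.s k103 k207 13 (.d
  k119 k71 k187 3 9))))), (.s k1 k2 0 (.s k85 k170 14 (.s k169 k253 13 (.s k35 k19 3 (.s k102 k236
  10 (.d k119 k68 k187 4 9))))))] .n) (.c k68 (.l (.s k34 k17 4 (.s k170 k85 14 (.s k102 k238 9 (.s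
  k153 k204 14 (.d k187 k119 k136 9 4)))))) (.c k85 (.q k21 [(.s k17 k34 4 (.s k63 k42 6 (.s k25 k29
  1 (.s k38 k12 6 (.d k55 k59 k4 1 4))))), (.s k63 k42 6 (.s k59 k55 1 (.s k187 k119 9 (.s k123 k251
  7 (.s k183 k243 9 (.d k191 k179 k127 1 7))))))] (.c k42 (.q k3 [(.s k19 k35 3 (.s k87 k171 13 (.s
  k155 k223 9 (.s k103 k207 13 (.d k119 k71 k187 3 9))))), (.s k1 k2 0 (.s k17 k34 4 (.s k41 k61 5
  (.s k25 k29 1 (.s k9 k57 3 (.d k12 k38 k6 6 2))))))] .n) (.c k55 (.l (.s k17 k34 4 (.s k42 k63 6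
  (.s k25 k29 1 (.s k8 k59 4 (.d k12 k4 k38 1 6)))))) (.c k59 (.l (.s k34 k17 4 (.s k42 k63 6 (.s
  k38 k46 1 (.s k4 k55 4 (.d k12 k8 k25 1 6)))))) (.c k63 (.q k3 [(.s k1 k2 0 (.s k17 k34 4 (.s k33
  k49 3 (.s k19 k35 3 (.d k18 k16 k48 0 4))))), (.s k19 k35 3 (.s k87 k171 13 (.s k155 k223 9 (.s
  k103 k207 13 (.d k119 k71 k187 3 9))))), (.s k1 k2 0 (.s k17 k34 4 (.s k41 k61 5 (.s k60 k22 6 (.s
  k25 k29 1 (.d k57 k54 k9 2 3))))))] (.c k31 (.q k47 [(.s k1 k2 0 (.s k17 k34 4 (.s k33 k49 3 (.s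
  k19 k35 3 (.d k18 k16 k48 0 4))))), (.s k19 k35 3 (.s k87 k171 13 (.s k155 k223 9 (.s k103 k207 13
  (.d k119 k71 k187 3 9))))), (.s k1 k2 0 (.s k17 k34 4 (.s k41 k61 5 (.s k60 k22 6 (.s k25 k29 1
  (.d k57 k54 k9 2 3))))))] (.c k19 (.q k23 [(.s k1 k2 0 (.s k41 k61 5 (.d k22 k60 k20 6 0))), (.s
  k1 k2 0 (.s k17 k34 4 (.s k49 k33 3 (.s k25 k29 1 (.s k12 k38 6 (.s k9 k6 2 (.d k13 k5 k37 1
  5))))))), (.s k17 k34 4 (.s k25 k29 1 (.s k12 k38 6 (.s k9 k6 2 (.s k41 k57 3 (.d k22 k20 k60 0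
  6))))))] (.c k22 (.l (.s k1 k2 0 (.s k17 k34 4 (.s k41 k61 5 (.s k25 k29 1 (.s k9 k57 3 (.d k12 k6
  k38 2 6))))))) .n)) (.c k23 (.l (.s k19 k35 3 (.s k1 k2 0 (.s k17 k34 4 (.s k33 k49 3 (.d k18 k16
  k48 0 4)))))) .n))) (.c k47 (.q k31 [(.s k17 k34 4 (.s k19 k35 3 (.d k16 k18 k26 0 2))), (.s k19
  k35 3 (.s k87 k171 13 (.s k155 k223 9 (.s k103 k207 13 (.d k119 k71 k187 3 9))))), (.s k1 k2 0 (.s
  k17 k34 4 (.s k33 k49 3 (.s k16 k26 2 (.d k48 k18 k32 4 3)))))] (.c k16 (.l (.s k2 k1 0 (.s k34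
  k17 4 (.s k18 k50 3 (.s k33 k48 4 (.d k35 k19 k32 3 0)))))) .n)) .n))) .n))))) (.c k102 (.q k3
  [(.s k1 k2 0 (.s k17 k34 4 (.s k33 k49 3 (.s k18 k48 4 (.d k19 k16 k35 0 3))))), (.s k19 k35 3 (.s
  k87 k171 13 (.s k155 k223 9 (.s k103 k207 13 (.d k119 k71 k187 3 9))))), (.s k1 k2 0 (.s k85 k170
  14 (.s k169 k253 13 (.s k86 k252 14 (.d k87 k84 k171 0 13)))))] .n) (.c k119 (.q k3 [(.s k1 k2 0
  (.s k17 k34 4 (.s k33 k49 3 (.s k19 k35 3 (.d k18 k16 k48 0 4))))), (.s k1 k2 0 (.s k85 k170 14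
  (.s k169 k253 13 (.s k86 k252 14 (.d k87 k84 k171 0 13))))), (.s k17 k34 4 (.s k85 k170 14 (.s k19
  k35 3 (.s k87 k171 13 (.s k153 k221 9 (.d k86 k84 k220 0 10))))))] .n) (.c k153 (.q k3 [(.s k1 k2
  0 (.s k17 k34 4 (.s k19 k35 3 (.s k18 k16 0 (.d k33 k49 k48 3 4))))), (.s k19 k35 3 (.s k87 k171
  13 (.s k155 k223 9 (.s k103 k207 13 (.d k119 k71 k187 3 9))))), (.s k1 k2 0 (.s k85 k170 14 (.s
  k169 k253 13 (.s k86 k252 14 (.d k87 k84 k171 0 13)))))] (.c k90 (.q k216 [(.s k1 k2 0 (.s k17 k34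
  4 (.s k19 k35 3 (.s k18 k16 0 (.d k33 k49 k48 3 4))))), (.s k19 k35 3 (.s k87 k171 13 (.s k155
  k223 9 (.s k103 k207 13 (.d k119 k71 k187 3 9))))), (.s k1 k2 0 (.s k85 k170 14 (.s k169 k253 13
  (.s k86 k252 14 (.d k87 k84 k171 0 13)))))] (.c k165 (.q k240 [(.s k1 k2 0 (.s k17 k34 4 (.s k19
  k35 3 (.s k18 k16 0 (.d k33 k49 k48 3 4))))), (.s k19 k35 3 (.s k82 k161 12 (.s k145 k208 8 (.s
  k98 k192 12 (.d k114 k177 k66 8 3))))), (.s k1 k2 0 (.s k160 k80 11 (.s k161 k82 12 (.s k81 k241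
  11 (.d k162 k163 k243 0 12)))))] (.c k141 (.l (.s k177 k114 8 (.s k35 k19 3 (.s k161 k82 12 (.s
  k98 k224 8 (.d k145 k129 k192 3 12)))))) (.c k177 (.q k141 [(.s k1 k2 0 (.s k17 k34 4 (.s k19 k35
  3 (.s k18 k16 0 (.d k33 k49 k48 3 4))))), (.s k19 k35 3 (.s k87 k171 13 (.s k155 k223 9 (.s k103
  k207 13 (.d k119 k71 k187 3 9))))), (.s k1 k2 0 (.s k160 k80 11 (.s k161 k82 12 (.s k81 k241 11
  (.d k162 k163 k243 0 12)))))] .n) .n))) (.c k240 (.q k165 [(.s k1 k2 0 (.s k17 k34 4 (.s k19 k35 3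
  (.s k18 k16 0 (.d k33 k49 k48 3 4))))), (.s k19 k35 3 (.s k87 k171 13 (.s k155 k223 9 (.s k103
  k207 13 (.d k119 k71 k187 3 9))))), (.s k1 k2 0 (.s k85 k170 14 (.s k169 k253 13 (.s k86 k252 14
  (.d k87 k84 k171 0 13)))))] .n) .n))) (.c k216 (.q k90 [(.s k1 k2 0 (.s k17 k34 4 (.s k19 k35 3
  (.s k18 k16 0 (.d k33 k49 k48 3 4))))), (.s k19 k35 3 (.s k87 k171 13 (.s k155 k223 9 (.s k103
  k207 13 (.d k119 k71 k187 3 9))))), (.s k1 k2 0 (.s k85 k170 14 (.s k169 k253 13 (.s k86 k252 14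
  (.d k87 k84 k171 0 13)))))] .n) .n))) (.c k170 (.q k3 [(.s k2 k1 0 (.s k34 k17 4 (.s k18 k50 3 (.s
  k33 k48 4 (.d k35 k32 k19 0 3))))), (.s k19 k35 3 (.s k87 k171 13 (.s k155 k223 9 (.s k103 k207 13
  (.d k119 k71 k187 3 9)))))] (.c k19 (.q k85 [(.s k1 k2 0 (.s k169 k253 13 (.s k87 k171 13 (.d k86
  k84 k252 0 14)))), (.s k17 k34 4 (.s k153 k221 9 (.s k102 k204 14 (.d k119 k68 k187 4 9))))] (.c
  k23 (.q k31 [(.s k1 k2 0 (.s k169 k253 13 (.s k87 k171 13 (.d k86 k84 k252 0 14)))), (.s k17 k34 4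
  (.s k153 k221 9 (.s k102 k204 14 (.d k119 k68 k187 4 9))))] .n) (.c k31 (.q k23 [(.s k1 k2 0 (.s
  k169 k253 13 (.s k87 k171 13 (.d k86 k84 k252 0 14)))), (.s k17 k34 4 (.s k153 k221 9 (.s k102
  k204 14 (.d k119 k68 k187 4 9))))] (.c k47 (.l (.s k63 k43 5 (.s k1 k2 0 (.s k21 k42 6 (.s k41 k61
  5 (.d k22 k20 k60 0 6)))))) (.c k63 (.q k47 [(.s k1 k2 0 (.s k169 k253 13 (.s k87 k171 13 (.d k86
  k84 k252 0 14)))), (.s k17 k34 4 (.s k153 k221 9 (.s k102 k204 14 (.d k119 k68 k187 4 9))))] .n)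
  .n))) .n))) (.c k35 (.q k85 [(.s k1 k2 0 (.s k169 k253 13 (.s k86 k252 14 (.d k87 k84 k171 0
  13)))), (.s k17 k34 4 (.s k153 k221 9 (.s k102 k204 14 (.d k119 k68 k187 4 9))))] .n) .n))) (.c
  k187 (.q k3 [(.s k1 k2 0 (.s k17 k34 4 (.s k33 k49 3 (.s k19 k35 3 (.d k18 k16 k48 0 4))))), (.s
  k1 k2 0 (.s k85 k170 14 (.s k169 k253 13 (.s k86 k252 14 (.d k87 k84 k171 0 13))))), (.s k17 k34 4
  (.s k85 k170 14 (.s k19 k35 3 (.s k87 k171 13 (.s k153 k221 9 (.d k86 k84 k220 0 10))))))] .n) (.c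
  k204 (.f k85 k170 14 (.q k3 [(.s k1 k2 0 (.s k169 k253 13 (.s k87 k171 13 (.d k86 k84 k252 0
  14)))), (.s k2 k1 0 (.s k34 k17 4 (.s k18 k50 3 (.s k33 k48 4 (.d k35 k32 k19 0 3))))), (.s k17
  k34 4 (.s k19 k35 3 (.s k87 k171 13 (.s k153 k221 9 (.d k86 k84 k220 0 10)))))] (.c k78 (.q k141
  [(.s k1 k2 0 (.s k169 k253 13 (.s k87 k171 13 (.d k86 k84 k252 0 14)))), (.s k2 k1 0 (.s k34 k17 4
  (.s k18 k50 3 (.s k33 k48 4 (.d k35 k32 k19 0 3))))), (.s k17 k34 4 (.s k19 k35 3 (.s k87 k171 13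
  (.s k153 k221 9 (.d k86 k84 k220 0 10)))))] .n) (.c k141 (.q k78 [(.s k1 k2 0 (.s k169 k253 13 (.s
  k87 k171 13 (.d k86 k84 k252 0 14)))), (.s k2 k1 0 (.s k34 k17 4 (.s k18 k50 3 (.s k33 k48 4 (.d
  k35 k32 k19 0 3))))), (.s k17 k34 4 (.s k19 k35 3 (.s k87 k171 13 (.s k153 k221 9 (.d k86 k84 k220
  0 10)))))] .n) .n)))) (.c k221 (.l (.s k34 k17 4 (.s k187 k119 9 (.s k170 k85 14 (.s k153 k136 4
  (.d k102 k238 k204 9 14)))))) (.c k238 (.l (.s k17 k34 4 (.s k119 k187 9 (.s k85 k170 14 (.s k102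
  k68 4 (.d k153 k221 k204 9 14)))))) .n)))))))))))))

theorem c1 : rootOK2 k255 k15 k1 t1 = true := by decide +kernel

theorem c3 : rootOK2 k255 k15 k3 t3 = true := by decide +kernel

theorem c5 : rootOK2 k255 k15 k5 t5 = true := by decide +kernel

theorem c6 : rootOK2 k255 k15 k6 t6 = true := by decide +kernel

theorem c7 : rootOK2 k255 k15 k7 t7 = true := by decide +kernel

theorem c16 : rootOK2 k255 k15 k16 t16 = true := by decide +kernel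

theorem c17 : rootOK2 k255 k15 k17 t17 = true := by decide +kernel

theorem c18 : rootOK2 k255 k15 k18 t18 = true := by decide +kernel

theorem c19 : rootOK2 k255 k15 k19 t19 = true := by decide +kernel

theorem c21 : rootOK2 k255 k15 k21 t21 = true := by decide +kernel

theorem c22 : rootOK2 k255 k15 k22 t22 = true := by decide +kernel

theorem c23 : rootOK2 k255 k15 k23 t23 = true := by decide +kernel

theorem c26 : rootOK2 k255 k15 k26 t26 = true := by decide +kernel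

theorem c27 : rootOK2 k255 k15 k27 t27 = true := by decide +kernel

def l : List Nat :=
  [k1.c, k3.c, k5.c, k6.c, k7.c, k16.c, k17.c, k18.c, k19.c, k21.c, k22.c, k23.c, k26.c, k27.c]

theorem ok : AllQ k255.c k15.c l :=
  allQ_cons c1 (allQ_cons c3 (allQ_cons c5 (allQ_cons c6 (allQ_cons c7 (allQ_cons c16 (
  allQ_cons c17 (allQ_cons c18 (allQ_cons c19 (allQ_cons c21 (allQ_cons c22 (allQ_cons c23 (
  allQ_cons c26 (allQ_cons c27 (allQ_nil _ _))))))))))))))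

end Pool.Agent.TTT.D01
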