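import Pool.Agent.TTT.Sym2

set_option autoImplicit false
set_option maxRecDepth 100000

namespace Pool.Agent.TTT.D02

def t48 : T TT 256 :=
  (.q k60 [(.s k20 k40 5 (.s k85 k170 14 (.s k150 k215 8 (.s k125 k190 8 (.d k105 k65 k195 5
  14)))))] (.c k20 (.f k125 k190 8 (.q k21 [(.s k85 k170 14 (.s k149 k213 7 (.s k105 k65 5 (.s k61
  k193 13 (.s k1 k41 5 (.d k253 k189 k169 7 13)))))), (.s k63 k42 6 (.s k61 k62 0 (.s k189 k253 7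
  (.s k126 k252 8 (.d k127 k124 k191 0 7))))), (.s k63 k42 6 (.s k85 k170 14 (.s k149 k213 7 (.s
  k106 k192 14 (.d k127 k64 k191 6 7)))))] (.c k26 (.q k37 [(.s k85 k170 14 (.s k149 k213 7 (.s k105
  k65 5 (.s k61 k193 13 (.d k63 k62 k42 0 6))))), (.s k63 k42 6 (.s k61 k62 0 (.s k189 k253 7 (.s
  k126 k252 8 (.d k127 k124 k191 0 7))))), (.s k63 k42 6 (.s k85 k170 14 (.s k149 k213 7 (.s k106
  k192 14 (.d k127 k64 k191 6 7))))), (.s k85 k170 14 (.s k149 k213 7 (.s k105 k65 5 (.s k61 k193 13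
  (.s k1 k41 5 (.d k253 k189 k169 7 13))))))] .n) (.c k37 (.q k26 [(.s k85 k170 14 (.s k149 k213 7
  (.s k105 k65 5 (.s k61 k193 13 (.d k63 k62 k42 0 6))))), (.s k63 k42 6 (.s k61 k62 0 (.s k189 k253
  7 (.s k126 k252 8 (.d k127 k124 k191 0 7))))), (.s k63 k42 6 (.s k85 k170 14 (.s k149 k213 7 (.s
  k106 k192 14 (.d k127 k64 k191 6 7))))), (.s k85 k170 14 (.s k149 k213 7 (.s k105 k65 5 (.s k61
  k193 13 (.s k1 k41 5 (.d k253 k189 k169 7 13))))))] .n) .n)))) (.c k26 (.q k37 [(.s k20 k40 5 (.s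
  k85 k170 14 (.s k150 k215 8 (.s k125 k190 8 (.d k105 k65 k195 5 14)))))] (.c k20 (.q k84 [(.s k252
  k168 13 (.s k85 k170 14 (.s k86 k87 0 (.s k253 k254 0 (.d k169 k1 k3 13 14))))), (.s k252 k168 13
  (.s k124 k188 7 (.s k125 k190 8 (.s k126 k127 0 (.s k189 k63 8 (.d k253 k254 k61 0 7)))))), (.s
  k85 k170 14 (.s k125 k190 8 (.s k105 k65 5 (.s k86 k87 0 (.s k124 k67 6 (.s k64 k104 5 (.d k127
  k126 k106 0 6)))))))] .n) (.c k40 (.q k84 [(.s k252 k168 13 (.s k85 k170 14 (.s k86 k87 0 (.s k253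
  k254 0 (.d k169 k1 k3 13 14))))), (.s k252 k168 13 (.s k124 k188 7 (.s k125 k190 8 (.s k126 k127 0
  (.s k189 k63 8 (.d k253 k254 k61 0 7)))))), (.s k85 k170 14 (.s k125 k190 8 (.s k105 k65 5 (.s k86
  k87 0 (.s k124 k67 6 (.d k252 k188 k168 7 13)))))), (.s k85 k170 14 (.s k125 k190 8 (.s k105 k65 5
  (.s k86 k87 0 (.s k124 k67 6 (.s k127 k126 0 (.d k64 k104 k106 5 6)))))))] .n) (.c k65 (.l (.s k40
  k20 5 (.s k170 k85 14 (.s k105 k235 8 (.s k150 k195 14 (.d k190 k125 k130 8 5)))))) (.c k85 (.q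
  k21 [(.s k20 k40 5 (.s k42 k63 6 (.s k22 k23 0 (.s k2 k62 5 (.d k3 k1 k41 0 6))))), (.s k63 k42 6
  (.s k62 k61 0 (.s k190 k125 8 (.s k126 k254 7 (.s k189 k252 8 (.d k191 k188 k127 0 7)))))), (.s
  k20 k40 5 (.s k53 k5 3 (.s k22 k23 0 (.s k52 k7 4 (.s k4 k36 3 (.d k55 k54 k38 0 4))))))] .n) (.c
  k105 (.q k21 [(.s k20 k40 5 (.s k42 k63 6 (.s k22 k23 0 (.s k2 k62 5 (.d k3 k1 k41 0 6))))), (.s
  k63 k42 6 (.s k85 k170 14 (.s k149 k213 7 (.s k106 k192 14 (.d k127 k64 k191 6 7))))), (.s k63 k42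
  6 (.s k61 k62 0 (.s k125 k190 8 (.s k189 k253 7 (.s k126 k252 8 (.d k127 k124 k191 0 7)))))), (.s
  k20 k40 5 (.s k53 k5 3 (.s k22 k23 0 (.s k52 k7 4 (.s k4 k36 3 (.d k55 k54 k38 0 4))))))] .n) (.c
  k125 (.q k21 [(.s k20 k40 5 (.s k22 k23 0 (.s k3 k41 6 (.s k2 k1 0 (.d k42 k62 k63 5 6))))), (.s
  k63 k42 6 (.s k85 k170 14 (.s k149 k213 7 (.s k106 k192 14 (.d k127 k64 k191 6 7))))), (.s k20 k40
  5 (.s k53 k5 3 (.s k22 k23 0 (.s k52 k7 4 (.s k4 k36 3 (.d k55 k54 k38 0 4))))))] .n) (.c k150 (.q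
  k21 [(.s k20 k40 5 (.s k22 k23 0 (.s k3 k41 6 (.s k2 k1 0 (.d k42 k62 k63 5 6))))), (.s k63 k42 6
  (.s k85 k170 14 (.s k149 k213 7 (.s k106 k192 14 (.d k127 k64 k191 6 7))))), (.s k20 k40 5 (.s k53
  k5 3 (.s k22 k23 0 (.s k52 k7 4 (.s k4 k36 3 (.d k55 k54 k38 0 4))))))] .n) (.c k170 (.q k21 [(.s
  k20 k40 5 (.s k22 k23 0 (.s k3 k41 6 (.s k2 k1 0 (.d k42 k62 k63 5 6))))), (.s k63 k42 6 (.s k62
  k61 0 (.s k190 k125 8 (.s k126 k254 7 (.s k189 k252 8 (.d k191 k188 k127 0 7)))))), (.s k20 k40 5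
  (.s k53 k5 3 (.s k22 k23 0 (.s k52 k7 4 (.s k4 k36 3 (.d k55 k54 k38 0 4))))))] .n) (.c k190 (.q
  k21 [(.s k20 k40 5 (.s k22 k23 0 (.s k3 k41 6 (.s k2 k1 0 (.d k42 k62 k63 5 6))))), (.s k63 k42 6
  (.s k85 k170 14 (.s k149 k213 7 (.s k106 k192 14 (.d k127 k64 k191 6 7))))), (.s k20 k40 5 (.s k53
  k5 3 (.s k22 k23 0 (.s k52 k7 4 (.s k4 k36 3 (.d k55 k54 k38 0 4))))))] .n) (.c k195 (.f k20 k40 5
  (.f k125 k190 8 (.q k21 [(.s k22 k23 0 (.s k3 k41 6 (.s k2 k1 0 (.d k42 k62 k63 5 6)))), (.s k63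
  k42 6 (.s k85 k170 14 (.s k149 k213 7 (.s k106 k192 14 (.d k127 k64 k191 6 7))))), (.s k53 k5 3
  (.s k22 k23 0 (.s k52 k7 4 (.s k4 k36 3 (.d k55 k54 k38 0 4)))))] (.c k75 (.q k135 [(.s k85 k170
  14 (.s k150 k215 8 (.s k165 k180 4 (.d k5 k53 k245 3 11)))), (.s k63 k42 6 (.s k22 k23 0 (.s k41
  k3 6 (.d k61 k62 k1 0 5))))] (.c k97 (.q k146 [(.s k85 k170 14 (.s k150 k215 8 (.s k165 k180 4 (.d
  k5 k53 k245 3 11)))), (.s k63 k42 6 (.s k22 k23 0 (.s k41 k3 6 (.d k61 k62 k1 0 5))))] .n) (.c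
  k146 (.q k97 [(.s k85 k170 14 (.s k150 k215 8 (.s k165 k180 4 (.d k5 k53 k245 3 11)))), (.s k63
  k42 6 (.s k22 k23 0 (.s k41 k3 6 (.d k61 k62 k1 0 5))))] .n) .n))) (.c k97 (.q k146 [(.s k22 k23 0
  (.s k3 k41 6 (.s k2 k1 0 (.d k42 k62 k63 5 6)))), (.s k63 k42 6 (.s k85 k170 14 (.s k149 k213 7
  (.s k106 k192 14 (.d k127 k64 k191 6 7))))), (.s k53 k5 3 (.s k22 k23 0 (.s k52 k7 4 (.s k4 k36 3
  (.d k55 k54 k38 0 4)))))] (.c k75 (.q k135 [(.s k85 k170 14 (.s k150 k215 8 (.s k165 k180 4 (.d k5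
  k53 k245 3 11)))), (.s k63 k42 6 (.s k22 k23 0 (.s k41 k3 6 (.d k61 k62 k1 0 5))))] .n) (.c k135
  (.q k75 [(.s k22 k23 0 (.s k3 k41 6 (.s k2 k1 0 (.d k42 k62 k63 5 6)))), (.s k63 k42 6 (.s k85
  k170 14 (.s k149 k213 7 (.s k106 k192 14 (.d k127 k64 k191 6 7))))), (.s k53 k5 3 (.s k22 k23 0
  (.s k52 k7 4 (.s k4 k36 3 (.d k55 k54 k38 0 4)))))] .n) .n))) (.c k135 (.q k75 [(.s k22 k23 0 (.s
  k3 k41 6 (.s k2 k1 0 (.d k42 k62 k63 5 6)))), (.s k63 k42 6 (.s k85 k170 14 (.s k149 k213 7 (.s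
  k106 k192 14 (.d k127 k64 k191 6 7))))), (.s k53 k5 3 (.s k22 k23 0 (.s k52 k7 4 (.s k4 k36 3 (.d
  k55 k54 k38 0 4)))))] (.c k97 (.q k146 [(.s k22 k23 0 (.s k3 k41 6 (.s k2 k1 0 (.d k42 k62 k63 5
  6)))), (.s k63 k42 6 (.s k85 k170 14 (.s k149 k213 7 (.s k106 k192 14 (.d k127 k64 k191 6 7))))),
  (.s k53 k5 3 (.s k22 k23 0 (.s k52 k7 4 (.s k4 k36 3 (.d k55 k54 k38 0 4)))))] .n) (.c k146 (.q
  k97 [(.s k22 k23 0 (.s k3 k41 6 (.s k2 k1 0 (.d k42 k62 k63 5 6)))), (.s k85 k170 14 (.s k53 k5 3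
  (.s k149 k213 7 (.s k101 k197 11 (.d k105 k109 k65 1 5)))))] .n) .n))) (.c k146 (.q k97 [(.s k22
  k23 0 (.s k3 k41 6 (.s k2 k1 0 (.d k42 k62 k63 5 6)))), (.s k85 k170 14 (.s k53 k5 3 (.s k149 k213
  7 (.s k101 k197 11 (.d k105 k109 k65 1 5)))))] (.c k75 (.q k135 [(.s k85 k170 14 (.s k150 k215 8
  (.s k165 k180 4 (.d k5 k53 k245 3 11)))), (.s k63 k42 6 (.s k22 k23 0 (.s k41 k3 6 (.d k61 k62 k1
  0 5))))] .n) (.c k135 (.q k75 [(.s k22 k23 0 (.s k3 k41 6 (.s k2 k1 0 (.d k42 k62 k63 5 6)))), (.s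
  k85 k170 14 (.s k53 k5 3 (.s k149 k213 7 (.s k101 k197 11 (.d k105 k109 k65 1 5)))))] .n) .n)))
  .n))))))) (.c k215 (.l (.s k40 k20 5 (.s k190 k125 8 (.s k170 k85 14 (.s k150 k130 5 (.d k105 k235
  k195 8 14)))))) (.c k235 (.l (.s k20 k40 5 (.s k125 k190 8 (.s k85 k170 14 (.s k105 k65 5 (.d k150
  k215 k195 8 14)))))) .n))))))))))))) (.c k37 (.q k26 [(.s k20 k40 5 (.s k85 k170 14 (.s k150 k215
  8 (.s k125 k190 8 (.d k105 k65 k195 5 14)))))] (.c k20 (.q k21 [(.s k63 k42 6 (.s k85 k170 14 (.s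
  k149 k213 7 (.s k127 k191 7 (.d k106 k64 k192 6 14))))), (.s k85 k170 14 (.s k149 k213 7 (.s k125
  k190 8 (.s k105 k65 5 (.s k61 k193 13 (.s k1 k41 5 (.d k253 k189 k169 7 13))))))), (.s k63 k42 6
  (.s k61 k62 0 (.s k125 k190 8 (.s k189 k253 7 (.s k126 k252 8 (.d k127 k124 k191 0 7))))))] .n)
  (.c k40 (.q k21 [(.s k63 k42 6 (.s k85 k170 14 (.s k149 k213 7 (.s k127 k191 7 (.d k106 k64 k192 6
  14))))), (.s k85 k170 14 (.s k149 k213 7 (.s k125 k190 8 (.s k105 k65 5 (.s k61 k193 13 (.d k63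
  k62 k42 0 6)))))), (.s k63 k42 6 (.s k61 k62 0 (.s k125 k190 8 (.s k189 k253 7 (.s k126 k252 8 (.d
  k127 k124 k191 0 7)))))), (.s k85 k170 14 (.s k149 k213 7 (.s k125 k190 8 (.s k105 k65 5 (.s k61
  k193 13 (.s k253 k189 7 (.d k1 k41 k169 5 13)))))))] .n) (.c k65 (.l (.s k40 k20 5 (.s k170 k85 14
  (.s k105 k235 8 (.s k150 k195 14 (.d k190 k125 k130 8 5)))))) (.c k85 (.f k20 k40 5 (.q k61 [(.s
  k63 k62 0 (.s k125 k190 8 (.s k127 k191 7 (.s k126 k124 0 (.d k189 k253 k252 7 8))))), (.s k63 k62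
  0 (.s k21 k42 6 (.s k22 k23 0 (.d k41 k1 k3 5 6))))] (.c k62 (.q k21 [(.s k22 k23 0 (.d k41 k1 k3
  5 6)), (.s k63 k42 6 (.s k125 k190 8 (.s k127 k191 7 (.s k126 k124 0 (.d k189 k253 k252 7 8)))))]
  (.c k22 (.l (.s k41 k1 5 (.s k16 k31 2 (.s k24 k28 1 (.s k25 k27 0 (.s k57 k9 3 (.s k51 k54 2 (.d
  k17 k29 k34 1 4)))))))) (.c k41 (.l (.s k16 k31 2 (.s k28 k24 1 (.s k22 k23 0 (.s k18 k30 1 (.d
  k19 k17 k25 0 2)))))) .n))) (.c k63 (.l (.s k125 k190 8 (.s k253 k189 7 (.s k252 k254 0 (.s k84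
  k168 13 (.s k148 k212 7 (.s k104 k192 13 (.d k124 k188 k64 7 5)))))))) .n)))) (.c k105 (.q k21
  [(.s k20 k40 5 (.s k42 k63 6 (.s k22 k23 0 (.s k2 k62 5 (.d k3 k1 k41 0 6))))), (.s k63 k42 6 (.s
  k85 k170 14 (.s k149 k213 7 (.s k106 k192 14 (.d k127 k64 k191 6 7))))), (.s k63 k42 6 (.s k61 k62
  0 (.s k125 k190 8 (.s k189 k253 7 (.s k126 k252 8 (.d k127 k124 k191 0 7))))))] (.c k42 (.l (.s
  k20 k40 5 (.s k16 k31 2 (.s k28 k24 1 (.s k22 k23 0 (.s k18 k30 1 (.d k19 k17 k25 0 2))))))) (.c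
  k47 (.l (.s k20 k40 5 (.s k22 k23 0 (.s k3 k41 6 (.s k2 k1 0 (.d k42 k62 k63 5 6)))))) (.c k63 (.f
  k20 k40 5 (.l (.s k170 k85 14 (.s k22 k23 0 (.s k3 k41 6 (.s k2 k1 0 (.s k86 k254 13 (.s k169 k252
  14 (.d k171 k168 k87 0 13))))))))) .n)))) (.c k125 (.q k21 [(.s k20 k40 5 (.s k22 k23 0 (.s k3 k41
  6 (.s k2 k1 0 (.d k42 k62 k63 5 6))))), (.s k63 k42 6 (.s k85 k170 14 (.s k149 k213 7 (.s k106
  k192 14 (.d k127 k64 k191 6 7)))))] (.c k42 (.l (.s k20 k40 5 (.s k16 k31 2 (.s k28 k24 1 (.s k22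
  k23 0 (.s k18 k30 1 (.d k19 k17 k25 0 2))))))) (.c k63 (.l (.s k20 k40 5 (.s k85 k170 14 (.s k22
  k23 0 (.s k3 k41 6 (.s k87 k171 13 (.s k150 k215 8 (.d k86 k84 k214 0 7)))))))) .n))) (.c k150 (.q
  k4 [(.s k12 k8 1 (.s k85 k170 14 (.s k166 k247 12 (.s k93 k174 12 (.d k89 k81 k243 1 14))))), (.s
  k12 k8 1 (.s k28 k44 3 (.s k93 k174 12 (.s k158 k223 8 (.s k109 k207 12 (.d k125 k77 k190 3
  8)))))), (.s k20 k40 5 (.s k85 k170 14 (.s k52 k36 3 (.s k247 k166 12 (.s k182 k117 8 (.d k243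
  k251 k121 1 10))))))] (.c k12 (.l (.s k20 k40 5 (.s k85 k170 14 (.s k247 k166 12 (.s k243 k251 1
  (.s k182 k121 10 (.d k52 k36 k117 3 8))))))) (.c k174 (.l (.s k12 k8 1 (.s k85 k170 14 (.s k166
  k247 12 (.s k44 k28 3 (.s k105 k227 10 (.d k125 k190 k65 8 5))))))) (.c k190 (.l (.s k12 k8 1 (.s
  k40 k20 5 (.s k44 k28 3 (.s k174 k93 12 (.s k32 k36 1 (.s k239 k109 8 (.d k170 k85 k101 14
  10)))))))) .n)))) (.c k170 (.q k21 [(.s k20 k40 5 (.s k22 k23 0 (.s k3 k41 6 (.s k2 k1 0 (.d k42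
  k62 k63 5 6))))), (.s k63 k42 6 (.s k62 k61 0 (.s k190 k125 8 (.s k126 k254 7 (.s k189 k252 8 (.d
  k191 k188 k127 0 7)))))), (.s k20 k40 5 (.s k16 k31 2 (.s k28 k24 1 (.s k22 k23 0 (.s k18 k30 1
  (.d k19 k17 k25 0 2))))))] (.c k63 (.f k20 k40 5 (.f k22 k23 0 (.l (.s k3 k41 6 (.s k2 k1 0 (.s
  k42 k62 5 (.s k18 k30 1 (.s k50 k34 3 (.s k14 k38 5 (.d k10 k6 k58 1 3)))))))))) .n)) (.c k190 (.q
  k21 [(.s k20 k40 5 (.s k22 k23 0 (.s k3 k41 6 (.s k2 k1 0 (.d k42 k62 k63 5 6))))), (.s k63 k42 6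
  (.s k85 k170 14 (.s k149 k213 7 (.s k106 k192 14 (.d k127 k64 k191 6 7)))))] (.c k42 (.l (.s k20
  k40 5 (.s k16 k31 2 (.s k28 k24 1 (.s k22 k23 0 (.s k18 k30 1 (.d k19 k17 k25 0 2))))))) (.c k63
  (.l (.s k20 k40 5 (.s k85 k170 14 (.s k22 k23 0 (.s k3 k41 6 (.s k87 k171 13 (.s k150 k215 8 (.d
  k86 k84 k214 0 7)))))))) .n))) (.c k195 (.f k20 k40 5 (.f k125 k190 8 (.q k21 [(.s k22 k23 0 (.s
  k3 k41 6 (.s k2 k1 0 (.d k42 k62 k63 5 6)))), (.s k16 k31 2 (.s k28 k24 1 (.s k22 k23 0 (.s k18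
  k30 1 (.d k19 k17 k25 0 2))))), (.s k63 k42 6 (.s k85 k170 14 (.s k149 k213 7 (.s k106 k192 14 (.d
  k127 k64 k191 6 7)))))] (.c k63 (.l (.s k85 k170 14 (.s k22 k23 0 (.s k3 k41 6 (.s k87 k171 13 (.s
  k150 k215 8 (.d k86 k84 k214 0 7))))))) (.c k75 (.q k135 [(.s k22 k23 0 (.s k3 k41 6 (.s k2 k1 0
  (.d k42 k62 k63 5 6)))), (.s k16 k31 2 (.s k28 k24 1 (.s k22 k23 0 (.s k18 k30 1 (.d k19 k17 k25 0
  2))))), (.s k63 k42 6 (.s k85 k170 14 (.s k149 k213 7 (.s k106 k192 14 (.d k127 k64 k191 6 7)))))]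
  (.c k63 (.l (.s k85 k170 14 (.s k22 k23 0 (.s k3 k41 6 (.s k87 k171 13 (.s k150 k215 8 (.d k86 k84
  k214 0 7))))))) (.c k97 (.q k146 [(.s k85 k170 14 (.s k150 k215 8 (.s k154 k158 1 (.d k16 k31 k223
  2 10)))), (.s k63 k42 6 (.s k22 k23 0 (.s k41 k3 6 (.d k61 k62 k1 0 5))))] .n) (.c k146 (.q k97
  [(.s k22 k23 0 (.s k3 k41 6 (.s k2 k1 0 (.d k42 k62 k63 5 6)))), (.s k16 k31 2 (.s k28 k24 1 (.s
  k22 k23 0 (.s k18 k30 1 (.d k19 k17 k25 0 2))))), (.s k63 k42 6 (.s k85 k170 14 (.s k149 k213 7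
  (.s k106 k192 14 (.d k127 k64 k191 6 7)))))] (.c k63 (.l (.s k85 k170 14 (.s k22 k23 0 (.s k3 k41
  6 (.s k87 k171 13 (.s k150 k215 8 (.d k86 k84 k214 0 7))))))) .n)) .n)))) (.c k97 (.q k146 [(.s
  k85 k170 14 (.s k150 k215 8 (.s k154 k158 1 (.d k16 k31 k223 2 10)))), (.s k63 k42 6 (.s k22 k23 0
  (.s k41 k3 6 (.d k61 k62 k1 0 5))))] (.c k75 (.q k135 [(.s k85 k170 14 (.s k150 k215 8 (.s k154
  k158 1 (.d k16 k31 k223 2 10)))), (.s k63 k42 6 (.s k22 k23 0 (.s k41 k3 6 (.d k61 k62 k1 0 5))))]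
  .n) (.c k135 (.q k75 [(.s k85 k170 14 (.s k150 k215 8 (.s k154 k158 1 (.d k16 k31 k223 2 10)))),
  (.s k63 k42 6 (.s k22 k23 0 (.s k41 k3 6 (.d k61 k62 k1 0 5))))] .n) .n))) (.c k135 (.q k75 [(.s
  k22 k23 0 (.s k3 k41 6 (.s k2 k1 0 (.d k42 k62 k63 5 6)))), (.s k85 k170 14 (.s k31 k16 2 (.s k149
  k213 7 (.s k90 k208 10 (.d k105 k120 k65 4 5)))))] (.c k97 (.q k146 [(.s k85 k170 14 (.s k150 k215
  8 (.s k154 k158 1 (.d k16 k31 k223 2 10)))), (.s k63 k42 6 (.s k22 k23 0 (.s k41 k3 6 (.d k61 k62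
  k1 0 5))))] .n) (.c k146 (.q k97 [(.s k22 k23 0 (.s k3 k41 6 (.s k2 k1 0 (.d k42 k62 k63 5 6)))),
  (.s k85 k170 14 (.s k31 k16 2 (.s k149 k213 7 (.s k90 k208 10 (.d k105 k120 k65 4 5)))))] .n)
  .n))) (.c k146 (.q k97 [(.s k22 k23 0 (.s k3 k41 6 (.s k2 k1 0 (.d k42 k62 k63 5 6)))), (.s k16
  k31 2 (.s k28 k24 1 (.s k22 k23 0 (.s k18 k30 1 (.d k19 k17 k25 0 2))))), (.s k63 k42 6 (.s k85
  k170 14 (.s k149 k213 7 (.s k106 k192 14 (.d k127 k64 k191 6 7)))))] (.c k63 (.l (.s k85 k170 14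
  (.s k22 k23 0 (.s k3 k41 6 (.s k87 k171 13 (.s k150 k215 8 (.d k86 k84 k214 0 7))))))) (.c k75 (.q
  k135 [(.s k22 k23 0 (.s k3 k41 6 (.s k2 k1 0 (.d k42 k62 k63 5 6)))), (.s k16 k31 2 (.s k28 k24 1
  (.s k22 k23 0 (.s k18 k30 1 (.d k19 k17 k25 0 2))))), (.s k63 k42 6 (.s k85 k170 14 (.s k149 k213
  7 (.s k106 k192 14 (.d k127 k64 k191 6 7)))))] (.c k63 (.l (.s k85 k170 14 (.s k22 k23 0 (.s k3
  k41 6 (.s k87 k171 13 (.s k150 k215 8 (.d k86 k84 k214 0 7))))))) .n)) (.c k135 (.q k75 [(.s k22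
  k23 0 (.s k3 k41 6 (.s k2 k1 0 (.d k42 k62 k63 5 6)))), (.s k85 k170 14 (.s k31 k16 2 (.s k149
  k213 7 (.s k90 k208 10 (.d k105 k120 k65 4 5)))))] .n) .n)))) .n)))))))) (.c k215 (.l (.s k40 k20
  5 (.s k190 k125 8 (.s k170 k85 14 (.s k150 k130 5 (.d k105 k235 k195 8 14)))))) (.c k235 (.l (.s
  k20 k40 5 (.s k125 k190 8 (.s k85 k170 14 (.s k105 k65 5 (.d k150 k215 k195 8 14))))))
  .n))))))))))))) (.c k40 (.f k125 k190 8 (.q k21 [(.s k85 k170 14 (.s k149 k213 7 (.s k105 k65 5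
  (.s k61 k193 13 (.d k63 k62 k42 0 6))))), (.s k63 k42 6 (.s k61 k62 0 (.s k189 k253 7 (.s k126
  k252 8 (.d k127 k124 k191 0 7))))), (.s k63 k42 6 (.s k85 k170 14 (.s k149 k213 7 (.s k106 k192 14
  (.d k127 k64 k191 6 7))))), (.s k85 k170 14 (.s k149 k213 7 (.s k105 k65 5 (.s k61 k193 13 (.s
  k253 k189 7 (.d k1 k41 k169 5 13))))))] (.c k26 (.q k37 [(.s k85 k170 14 (.s k149 k213 7 (.s k105
  k65 5 (.s k61 k193 13 (.d k63 k62 k42 0 6))))), (.s k63 k42 6 (.s k61 k62 0 (.s k189 k253 7 (.s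
  k126 k252 8 (.d k127 k124 k191 0 7))))), (.s k63 k42 6 (.s k85 k170 14 (.s k149 k213 7 (.s k106
  k192 14 (.d k127 k64 k191 6 7))))), (.s k85 k170 14 (.s k149 k213 7 (.s k105 k65 5 (.s k61 k193 13
  (.s k253 k189 7 (.d k1 k41 k169 5 13))))))] .n) (.c k37 (.q k26 [(.s k85 k170 14 (.s k149 k213 7
  (.s k105 k65 5 (.s k61 k193 13 (.d k63 k62 k42 0 6))))), (.s k63 k42 6 (.s k61 k62 0 (.s k189 k253
  7 (.s k126 k252 8 (.d k127 k124 k191 0 7))))), (.s k63 k42 6 (.s k85 k170 14 (.s k149 k213 7 (.s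
  k106 k192 14 (.d k127 k64 k191 6 7))))), (.s k85 k170 14 (.s k149 k213 7 (.s k105 k65 5 (.s k61
  k193 13 (.s k253 k189 7 (.d k1 k41 k169 5 13))))))] .n) .n)))) (.c k65 (.l (.s k40 k20 5 (.s k170
  k85 14 (.s k105 k235 8 (.s k150 k195 14 (.d k190 k125 k130 8 5)))))) (.c k85 (.q k63 [(.s k20 k40
  5 (.s k21 k42 6 (.s k22 k23 0 (.s k61 k62 0 (.d k41 k1 k3 5 6))))), (.s k61 k62 0 (.s k125 k190 8
  (.s k189 k253 7 (.s k126 k252 8 (.d k127 k124 k191 0 7)))))] (.c k1 (.l (.s k40 k20 5 (.s k42 k21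
  6 (.s k41 k43 0 (.s k22 k3 6 (.d k62 k61 k2 0 5)))))) (.c k26 (.q k37 [(.s k20 k40 5 (.s k21 k42 6
  (.s k22 k23 0 (.s k61 k62 0 (.d k41 k1 k3 5 6))))), (.s k61 k62 0 (.s k125 k190 8 (.s k189 k253 7
  (.s k126 k252 8 (.d k127 k124 k191 0 7))))), (.s k20 k40 5 (.s k21 k42 6 (.s k53 k5 3 (.s k22 k23
  0 (.s k52 k7 4 (.s k4 k36 3 (.d k55 k54 k38 0 4)))))))] .n) (.c k37 (.q k26 [(.s k20 k40 5 (.s k21
  k42 6 (.s k22 k23 0 (.s k61 k62 0 (.d k41 k1 k3 5 6))))), (.s k61 k62 0 (.s k125 k190 8 (.s k189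
  k253 7 (.s k126 k252 8 (.d k127 k124 k191 0 7))))), (.s k20 k40 5 (.s k21 k42 6 (.s k16 k31 2 (.s
  k28 k24 1 (.s k22 k23 0 (.s k18 k30 1 (.d k19 k17 k25 0 2)))))))] .n) (.c k61 (.f k20 k40 5 (.f
  k125 k190 8 (.q k4 [(.s k12 k8 1 (.s k21 k42 6 (.s k38 k55 4 (.s k29 k46 4 (.d k25 k17 k51 1
  6))))), (.s k12 k8 1 (.s k28 k44 3 (.s k93 k174 12 (.s k158 k223 8 (.d k109 k77 k207 3 12))))),
  (.s k21 k42 6 (.s k52 k36 3 (.s k55 k38 4 (.s k54 k53 0 (.d k51 k57 k59 2 1))))), (.s k21 k42 6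
  (.s k55 k38 4 (.s k51 k59 1 (.s k54 k57 2 (.d k52 k53 k36 0 3)))))] (.c k26 (.q k37 [(.s k36 k52 3
  (.s k38 k39 0 (.d k21 k55 k42 4 6))), (.s k12 k8 1 (.s k28 k44 3 (.s k93 k174 12 (.s k158 k223 8
  (.d k109 k77 k207 3 12)))))] (.c k36 (.l (.s k21 k42 6 (.s k5 k53 3 (.s k7 k6 0 (.d k22 k23 k52 0
  4))))) .n)) (.c k37 (.q k26 [(.s k21 k42 6 (.s k16 k31 2 (.s k28 k24 1 (.d k12 k8 k44 1 3)))), (.s
  k12 k8 1 (.s k93 k174 12 (.s k109 k77 3 (.s k158 k207 12 (.d k28 k44 k223 3 8))))), (.s k21 k42 6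
  (.s k16 k31 2 (.s k22 k23 0 (.s k18 k30 1 (.s k19 k17 0 (.d k28 k24 k25 1 2)))))), (.s k21 k42 6
  (.s k55 k38 4 (.s k51 k59 1 (.s k54 k57 2 (.d k52 k53 k36 0 3)))))] .n) .n))))) (.c k62 (.f k20
  k40 5 (.f k21 k42 6 (.l (.s k22 k23 0 (.s k41 k3 6 (.s k61 k1 5 (.s k125 k190 8 (.s k127 k191 7
  (.s k126 k124 0 (.d k189 k253 k252 7 8)))))))))) .n)))))) (.c k105 (.f k125 k190 8 (.q k4 [(.s k12
  k8 1 (.s k28 k44 3 (.s k93 k174 12 (.s k158 k223 8 (.d k109 k77 k207 3 12))))), (.s k8 k12 1 (.s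
  k40 k20 5 (.s k170 k85 14 (.s k251 k89 12 (.s k243 k247 1 (.s k121 k182 10 (.d k56 k24 k186 3
  8))))))), (.s k85 k170 14 (.s k247 k166 12 (.s k243 k251 1 (.s k182 k121 10 (.s k52 k117 8 (.d k20
  k40 k36 5 3))))))] (.c k8 (.q k21 [(.s k40 k20 5 (.s k42 k63 6 (.s k41 k43 0 (.s k3 k22 6 (.d k1
  k2 k61 0 5))))), (.s k63 k42 6 (.s k85 k170 14 (.s k149 k213 7 (.s k106 k192 14 (.d k127 k64 k191
  6 7))))), (.s k20 k40 5 (.s k52 k36 3 (.s k38 k55 4 (.s k22 k23 0 (.s k6 k54 3 (.d k7 k37 k5 4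
  0))))))] (.c k26 (.q k37 [(.s k20 k40 5 (.s k36 k52 3 (.d k38 k39 k55 0 4))), (.s k63 k42 6 (.s
  k85 k170 14 (.s k149 k213 7 (.s k106 k192 14 (.d k127 k64 k191 6 7))))), (.s k63 k42 6 (.s k55 k38
  4 (.s k53 k5 3 (.s k54 k52 0 (.d k51 k59 k57 1 2)))))] .n) (.c k37 (.q k26 [(.s k40 k20 5 (.s k42
  k63 6 (.s k41 k43 0 (.s k3 k22 6 (.d k1 k2 k61 0 5))))), (.s k85 k170 14 (.s k55 k38 4 (.s k166
  k247 12 (.s k149 k213 7 (.s k196 k102 12 (.d k132 k183 k68 4 7))))))] (.c k40 (.l (.s k63 k42 6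
  (.s k61 k62 0 (.s k189 k253 7 (.s k126 k252 8 (.d k127 k124 k191 0 7)))))) .n)) (.c k40 (.l (.s
  k63 k42 6 (.s k61 k62 0 (.s k189 k253 7 (.s k126 k252 8 (.d k127 k124 k191 0 7)))))) .n)))) (.c
  k26 (.q k37 [(.s k12 k8 1 (.s k28 k44 3 (.s k93 k174 12 (.s k158 k223 8 (.d k109 k77 k207 3
  12))))), (.s k20 k40 5 (.s k52 k36 3 (.s k22 k7 4 (.s k21 k23 0 (.s k55 k38 4 (.d k53 k54 k5 0
  3))))))] (.c k12 (.l (.s k85 k170 14 (.s k247 k166 12 (.s k243 k251 1 (.s k182 k121 10 (.s k52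
  k117 8 (.d k20 k40 k36 5 3))))))) (.c k44 (.l (.s k12 k8 1 (.s k85 k170 14 (.s k166 k247 12 (.s
  k89 k243 14 (.d k93 k81 k174 1 12)))))) .n))) (.c k37 (.q k26 [(.s k12 k8 1 (.s k28 k44 3 (.s k93
  k174 12 (.s k158 k223 8 (.d k109 k77 k207 3 12))))), (.s k8 k12 1 (.s k40 k20 5 (.s k170 k85 14
  (.s k251 k89 12 (.s k243 k247 1 (.s k121 k182 10 (.d k56 k24 k186 3 8))))))), (.s k85 k170 14 (.s
  k247 k166 12 (.s k243 k251 1 (.s k182 k121 10 (.s k52 k117 8 (.d k20 k40 k36 5 3))))))] (.c k8 (.q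
  k21 [(.s k40 k20 5 (.s k42 k63 6 (.s k41 k43 0 (.s k3 k22 6 (.d k1 k2 k61 0 5))))), (.s k85 k170
  14 (.s k55 k38 4 (.s k166 k247 12 (.s k149 k213 7 (.s k196 k102 12 (.d k132 k183 k68 4 7))))))]
  (.c k40 (.l (.s k63 k42 6 (.s k61 k62 0 (.s k189 k253 7 (.s k126 k252 8 (.d k127 k124 k191 0
  7)))))) .n)) (.c k166 (.l (.s k12 k8 1 (.s k93 k174 12 (.s k109 k77 3 (.s k158 k207 12 (.d k28 k44
  k223 3 8)))))) .n))) (.c k166 (.l (.s k12 k8 1 (.s k93 k174 12 (.s k109 k77 3 (.s k158 k207 12 (.d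
  k28 k44 k223 3 8)))))) .n)))))) (.c k125 (.f k20 k40 5 (.q k21 [(.s k42 k63 6 (.s k22 k23 0 (.s k2
  k62 5 (.d k3 k1 k41 0 6)))), (.s k85 k170 14 (.s k23 k22 0 (.s k150 k215 8 (.s k149 k213 7 (.s
  k212 k86 8 (.d k148 k151 k84 0 7)))))), (.s k63 k42 6 (.s k85 k170 14 (.s k149 k213 7 (.s k106
  k192 14 (.d k127 k64 k191 6 7)))))] (.c k26 (.q k37 [(.s k22 k23 0 (.s k3 k41 6 (.s k2 k1 0 (.d
  k42 k62 k63 5 6)))), (.s k63 k42 6 (.s k85 k170 14 (.s k149 k213 7 (.s k106 k192 14 (.d k127 k64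
  k191 6 7))))), (.s k53 k5 3 (.s k22 k23 0 (.s k52 k7 4 (.s k4 k36 3 (.d k55 k54 k38 0 4)))))] .n)
  (.c k37 (.q k26 [(.s k22 k23 0 (.s k3 k41 6 (.s k2 k1 0 (.d k42 k62 k63 5 6)))), (.s k16 k31 2 (.s
  k28 k24 1 (.s k22 k23 0 (.s k18 k30 1 (.d k19 k17 k25 0 2))))), (.s k63 k42 6 (.s k85 k170 14 (.s
  k149 k213 7 (.s k106 k192 14 (.d k127 k64 k191 6 7)))))] (.c k63 (.l (.s k85 k170 14 (.s k22 k23 0
  (.s k3 k41 6 (.s k87 k171 13 (.s k150 k215 8 (.d k86 k84 k214 0 7))))))) .n)) .n)))) (.c k150 (.f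
  k20 k40 5 (.q k21 [(.s k63 k42 6 (.s k22 k23 0 (.s k41 k3 6 (.d k61 k62 k1 0 5)))), (.s k63 k42 6
  (.s k85 k170 14 (.s k149 k213 7 (.s k106 k192 14 (.d k127 k64 k191 6 7)))))] (.c k26 (.q k37 [(.s
  k22 k23 0 (.s k3 k41 6 (.s k2 k1 0 (.d k42 k62 k63 5 6)))), (.s k63 k42 6 (.s k85 k170 14 (.s k149
  k213 7 (.s k106 k192 14 (.d k127 k64 k191 6 7))))), (.s k53 k5 3 (.s k22 k23 0 (.s k52 k7 4 (.s k4
  k36 3 (.d k55 k54 k38 0 4)))))] .n) (.c k37 (.q k26 [(.s k22 k23 0 (.s k3 k41 6 (.s k2 k1 0 (.d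
  k42 k62 k63 5 6)))), (.s k16 k31 2 (.s k28 k24 1 (.s k22 k23 0 (.s k18 k30 1 (.d k19 k17 k25 0
  2))))), (.s k63 k42 6 (.s k85 k170 14 (.s k149 k213 7 (.s k106 k192 14 (.d k127 k64 k191 6 7)))))]
  (.c k63 (.l (.s k85 k170 14 (.s k22 k23 0 (.s k3 k41 6 (.s k1 k2 0 (.s k169 k253 13 (.s k86 k252
  14 (.d k87 k84 k171 0 13)))))))) .n)) (.c k41 (.l (.s k85 k170 14 (.s k23 k22 0 (.s k63 k42 6 (.s
  k43 k3 5 (.s k149 k213 7 (.s k106 k192 14 (.d k127 k64 k191 6 7)))))))) (.c k42 (.l (.s k85 k170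
  14 (.s k22 k23 0 (.s k41 k3 6 (.s k1 k61 5 (.s k169 k253 13 (.s k105 k233 7 (.d k125 k190 k65 8
  5)))))))) (.c k43 (.l (.s k42 k63 6 (.s k22 k23 0 (.s k3 k41 6 (.d k2 k1 k62 0 5))))) (.c k63 (.l
  (.s k85 k170 14 (.s k22 k23 0 (.s k3 k41 6 (.s k1 k2 0 (.s k169 k253 13 (.s k86 k252 14 (.d k87
  k84 k171 0 13)))))))) .n)))))))) (.c k170 (.q k63 [(.s k40 k20 5 (.s k62 k61 0 (.s k42 k21 6 (.s
  k22 k2 5 (.d k41 k43 k3 0 6))))), (.s k61 k62 0 (.s k125 k190 8 (.s k189 k253 7 (.s k126 k252 8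
  (.d k127 k124 k191 0 7)))))] (.c k26 (.q k37 [(.s k40 k20 5 (.s k62 k61 0 (.s k42 k21 6 (.s k22 k2
  5 (.d k41 k43 k3 0 6))))), (.s k61 k62 0 (.s k125 k190 8 (.s k189 k253 7 (.s k126 k252 8 (.d k127
  k124 k191 0 7))))), (.s k20 k40 5 (.s k21 k42 6 (.s k53 k5 3 (.s k22 k23 0 (.s k52 k7 4 (.s k4 k36
  3 (.d k55 k54 k38 0 4)))))))] .n) (.c k37 (.q k26 [(.s k40 k20 5 (.s k62 k61 0 (.s k42 k21 6 (.s
  k22 k2 5 (.d k41 k43 k3 0 6))))), (.s k61 k62 0 (.s k125 k190 8 (.s k189 k253 7 (.s k126 k252 8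
  (.d k127 k124 k191 0 7))))), (.s k20 k40 5 (.s k21 k42 6 (.s k16 k31 2 (.s k28 k24 1 (.s k22 k23 0
  (.s k18 k30 1 (.d k19 k17 k25 0 2)))))))] .n) (.c k61 (.q k84 [(.s k252 k168 13 (.s k188 k124 7
  (.s k190 k125 8 (.d k189 k126 k191 8 0)))), (.s k20 k40 5 (.s k168 k252 13 (.s k148 k212 7 (.s
  k192 k104 13 (.d k128 k188 k64 5 7))))), (.s k20 k40 5 (.s k148 k212 7 (.s k125 k190 8 (.s k127
  k191 7 (.s k124 k126 0 (.d k104 k64 k192 5 13))))))] (.c k26 (.q k37 [(.s k252 k168 13 (.s k188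
  k124 7 (.s k190 k125 8 (.d k189 k126 k191 8 0)))), (.s k20 k40 5 (.s k168 k252 13 (.s k148 k212 7
  (.s k192 k104 13 (.d k128 k188 k64 5 7))))), (.s k20 k40 5 (.s k148 k212 7 (.s k125 k190 8 (.s
  k127 k191 7 (.s k124 k126 0 (.d k104 k64 k192 5 13))))))] (.c k188 (.l (.s k40 k20 5 (.s k168 k252
  13 (.s k104 k232 7 (.s k192 k148 13 (.d k64 k124 k128 5 7)))))) .n)) (.c k37 (.q k26 [(.s k252
  k168 13 (.s k188 k124 7 (.s k190 k125 8 (.d k189 k126 k191 8 0)))), (.s k20 k40 5 (.s k168 k252 13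
  (.s k148 k212 7 (.s k192 k104 13 (.d k128 k188 k64 5 7))))), (.s k20 k40 5 (.s k148 k212 7 (.s
  k125 k190 8 (.s k127 k191 7 (.s k124 k126 0 (.d k104 k64 k192 5 13))))))] (.c k188 (.l (.s k40 k20
  5 (.s k168 k252 13 (.s k104 k232 7 (.s k192 k148 13 (.d k64 k124 k128 5 7)))))) .n)) (.c k188 (.l
  (.s k40 k20 5 (.s k168 k252 13 (.s k104 k232 7 (.s k192 k148 13 (.d k64 k124 k128 5 7)))))) .n))))
  (.c k62 (.f k20 k40 5 (.f k125 k190 8 (.l (.s k21 k42 6 (.s k22 k23 0 (.s k41 k3 6 (.s k61 k1 5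
  (.s k189 k253 7 (.s k126 k252 8 (.d k127 k124 k191 0 7)))))))))) (.c k254 (.l (.s k20 k40 5 (.s
  k21 k42 6 (.s k22 k23 0 (.s k41 k3 6 (.d k61 k62 k1 0 5)))))) .n)))))) (.c k190 (.f k20 k40 5 (.q
  k21 [(.s k63 k42 6 (.s k22 k23 0 (.s k41 k3 6 (.d k61 k62 k1 0 5)))), (.s k85 k170 14 (.s k23 k22
  0 (.s k150 k215 8 (.s k149 k213 7 (.s k212 k86 8 (.d k148 k151 k84 0 7)))))), (.s k63 k42 6 (.s
  k85 k170 14 (.s k149 k213 7 (.s k106 k192 14 (.d k127 k64 k191 6 7)))))] (.c k26 (.q k37 [(.s k22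
  k23 0 (.s k3 k41 6 (.s k2 k1 0 (.d k42 k62 k63 5 6)))), (.s k63 k42 6 (.s k85 k170 14 (.s k149
  k213 7 (.s k106 k192 14 (.d k127 k64 k191 6 7))))), (.s k53 k5 3 (.s k22 k23 0 (.s k52 k7 4 (.s k4
  k36 3 (.d k55 k54 k38 0 4)))))] .n) (.c k37 (.q k26 [(.s k22 k23 0 (.s k3 k41 6 (.s k2 k1 0 (.d
  k42 k62 k63 5 6)))), (.s k16 k31 2 (.s k28 k24 1 (.s k22 k23 0 (.s k18 k30 1 (.d k19 k17 k25 0
  2))))), (.s k63 k42 6 (.s k85 k170 14 (.s k149 k213 7 (.s k106 k192 14 (.d k127 k64 k191 6 7)))))]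
  (.c k63 (.l (.s k85 k170 14 (.s k22 k23 0 (.s k3 k41 6 (.s k87 k171 13 (.s k150 k215 8 (.d k86 k84
  k214 0 7))))))) .n)) .n)))) (.c k195 (.f k20 k40 5 (.f k125 k190 8 (.q k21 [(.s k63 k42 6 (.s k22
  k23 0 (.s k41 k3 6 (.d k61 k62 k1 0 5)))), (.s k63 k42 6 (.s k85 k170 14 (.s k149 k213 7 (.s k106
  k192 14 (.d k127 k64 k191 6 7))))), (.s k85 k170 14 (.s k149 k213 7 (.s k105 k65 5 (.s k61 k193 13
  (.d k63 k62 k42 0 6)))))] (.c k26 (.q k37 [(.s k22 k23 0 (.s k3 k41 6 (.s k2 k1 0 (.d k42 k62 k63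
  5 6)))), (.s k63 k42 6 (.s k85 k170 14 (.s k149 k213 7 (.s k106 k192 14 (.d k127 k64 k191 6
  7))))), (.s k53 k5 3 (.s k22 k23 0 (.s k52 k7 4 (.s k4 k36 3 (.d k55 k54 k38 0 4)))))] (.c k75 (.q
  k135 [(.s k85 k170 14 (.s k150 k215 8 (.s k165 k180 4 (.d k5 k53 k245 3 11)))), (.s k63 k42 6 (.s
  k22 k23 0 (.s k41 k3 6 (.d k61 k62 k1 0 5))))] (.c k97 (.q k146 [(.s k85 k170 14 (.s k150 k215 8
  (.s k165 k180 4 (.d k5 k53 k245 3 11)))), (.s k63 k42 6 (.s k22 k23 0 (.s k41 k3 6 (.d k61 k62 k1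
  0 5))))] .n) (.c k146 (.q k97 [(.s k85 k170 14 (.s k150 k215 8 (.s k165 k180 4 (.d k5 k53 k245 3
  11)))), (.s k63 k42 6 (.s k22 k23 0 (.s k41 k3 6 (.d k61 k62 k1 0 5))))] .n) .n))) (.c k97 (.q
  k146 [(.s k22 k23 0 (.s k3 k41 6 (.s k2 k1 0 (.d k42 k62 k63 5 6)))), (.s k63 k42 6 (.s k85 k170
  14 (.s k149 k213 7 (.s k106 k192 14 (.d k127 k64 k191 6 7))))), (.s k53 k5 3 (.s k22 k23 0 (.s k52
  k7 4 (.s k4 k36 3 (.d k55 k54 k38 0 4)))))] (.c k75 (.q k135 [(.s k85 k170 14 (.s k150 k215 8 (.s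
  k165 k180 4 (.d k5 k53 k245 3 11)))), (.s k63 k42 6 (.s k22 k23 0 (.s k41 k3 6 (.d k61 k62 k1 0
  5))))] .n) (.c k135 (.q k75 [(.s k22 k23 0 (.s k3 k41 6 (.s k2 k1 0 (.d k42 k62 k63 5 6)))), (.s
  k63 k42 6 (.s k85 k170 14 (.s k149 k213 7 (.s k106 k192 14 (.d k127 k64 k191 6 7))))), (.s k53 k5
  3 (.s k22 k23 0 (.s k52 k7 4 (.s k4 k36 3 (.d k55 k54 k38 0 4)))))] .n) .n))) (.c k135 (.q k75
  [(.s k22 k23 0 (.s k3 k41 6 (.s k2 k1 0 (.d k42 k62 k63 5 6)))), (.s k63 k42 6 (.s k85 k170 14 (.s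
  k149 k213 7 (.s k106 k192 14 (.d k127 k64 k191 6 7))))), (.s k53 k5 3 (.s k22 k23 0 (.s k52 k7 4
  (.s k4 k36 3 (.d k55 k54 k38 0 4)))))] (.c k97 (.q k146 [(.s k22 k23 0 (.s k3 k41 6 (.s k2 k1 0
  (.d k42 k62 k63 5 6)))), (.s k63 k42 6 (.s k85 k170 14 (.s k149 k213 7 (.s k106 k192 14 (.d k127
  k64 k191 6 7))))), (.s k53 k5 3 (.s k22 k23 0 (.s k52 k7 4 (.s k4 k36 3 (.d k55 k54 k38 0 4)))))]
  .n) (.c k146 (.q k97 [(.s k22 k23 0 (.s k3 k41 6 (.s k2 k1 0 (.d k42 k62 k63 5 6)))), (.s k85 k170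
  14 (.s k53 k5 3 (.s k149 k213 7 (.s k101 k197 11 (.d k105 k109 k65 1 5)))))] .n) .n))) (.c k146
  (.q k97 [(.s k22 k23 0 (.s k3 k41 6 (.s k2 k1 0 (.d k42 k62 k63 5 6)))), (.s k85 k170 14 (.s k53
  k5 3 (.s k149 k213 7 (.s k101 k197 11 (.d k105 k109 k65 1 5)))))] (.c k75 (.q k135 [(.s k85 k170
  14 (.s k150 k215 8 (.s k165 k180 4 (.d k5 k53 k245 3 11)))), (.s k63 k42 6 (.s k22 k23 0 (.s k41
  k3 6 (.d k61 k62 k1 0 5))))] .n) (.c k135 (.q k75 [(.s k22 k23 0 (.s k3 k41 6 (.s k2 k1 0 (.d k42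
  k62 k63 5 6)))), (.s k85 k170 14 (.s k53 k5 3 (.s k149 k213 7 (.s k101 k197 11 (.d k105 k109 k65 1
  5)))))] .n) .n))) .n))))) (.c k37 (.q k26 [(.s k22 k23 0 (.s k3 k41 6 (.s k2 k1 0 (.d k42 k62 k63
  5 6)))), (.s k16 k31 2 (.s k28 k24 1 (.s k22 k23 0 (.s k18 k30 1 (.d k19 k17 k25 0 2))))), (.s k63
  k42 6 (.s k85 k170 14 (.s k149 k213 7 (.s k106 k192 14 (.d k127 k64 k191 6 7)))))] (.c k63 (.l (.s
  k85 k170 14 (.s k22 k23 0 (.s k3 k41 6 (.s k87 k171 13 (.s k150 k215 8 (.d k86 k84 k214 0 7)))))))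
  (.c k75 (.q k135 [(.s k22 k23 0 (.s k3 k41 6 (.s k2 k1 0 (.d k42 k62 k63 5 6)))), (.s k16 k31 2
  (.s k28 k24 1 (.s k22 k23 0 (.s k18 k30 1 (.d k19 k17 k25 0 2))))), (.s k63 k42 6 (.s k85 k170 14
  (.s k149 k213 7 (.s k106 k192 14 (.d k127 k64 k191 6 7)))))] (.c k63 (.l (.s k85 k170 14 (.s k22
  k23 0 (.s k3 k41 6 (.s k87 k171 13 (.s k150 k215 8 (.d k86 k84 k214 0 7))))))) (.c k97 (.q k146
  [(.s k85 k170 14 (.s k150 k215 8 (.s k154 k158 1 (.d k16 k31 k223 2 10)))), (.s k63 k42 6 (.s k22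
  k23 0 (.s k41 k3 6 (.d k61 k62 k1 0 5))))] .n) (.c k146 (.q k97 [(.s k22 k23 0 (.s k3 k41 6 (.s k2
  k1 0 (.d k42 k62 k63 5 6)))), (.s k16 k31 2 (.s k28 k24 1 (.s k22 k23 0 (.s k18 k30 1 (.d k19 k17
  k25 0 2))))), (.s k63 k42 6 (.s k85 k170 14 (.s k149 k213 7 (.s k106 k192 14 (.d k127 k64 k191 6
  7)))))] (.c k63 (.l (.s k85 k170 14 (.s k22 k23 0 (.s k3 k41 6 (.s k87 k171 13 (.s k150 k215 8 (.d
  k86 k84 k214 0 7))))))) .n)) .n)))) (.c k97 (.q k146 [(.s k85 k170 14 (.s k150 k215 8 (.s k154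
  k158 1 (.d k16 k31 k223 2 10)))), (.s k63 k42 6 (.s k22 k23 0 (.s k41 k3 6 (.d k61 k62 k1 0 5))))]
  (.c k75 (.q k135 [(.s k85 k170 14 (.s k150 k215 8 (.s k154 k158 1 (.d k16 k31 k223 2 10)))), (.s
  k63 k42 6 (.s k22 k23 0 (.s k41 k3 6 (.d k61 k62 k1 0 5))))] .n) (.c k135 (.q k75 [(.s k85 k170 14
  (.s k150 k215 8 (.s k154 k158 1 (.d k16 k31 k223 2 10)))), (.s k63 k42 6 (.s k22 k23 0 (.s k41 k3
  6 (.d k61 k62 k1 0 5))))] .n) .n))) (.c k135 (.q k75 [(.s k22 k23 0 (.s k3 k41 6 (.s k2 k1 0 (.d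
  k42 k62 k63 5 6)))), (.s k85 k170 14 (.s k31 k16 2 (.s k149 k213 7 (.s k90 k208 10 (.d k105 k120
  k65 4 5)))))] (.c k97 (.q k146 [(.s k85 k170 14 (.s k150 k215 8 (.s k154 k158 1 (.d k16 k31 k223 2
  10)))), (.s k63 k42 6 (.s k22 k23 0 (.s k41 k3 6 (.d k61 k62 k1 0 5))))] .n) (.c k146 (.q k97 [(.s
  k22 k23 0 (.s k3 k41 6 (.s k2 k1 0 (.d k42 k62 k63 5 6)))), (.s k85 k170 14 (.s k31 k16 2 (.s k149
  k213 7 (.s k90 k208 10 (.d k105 k120 k65 4 5)))))] .n) .n))) (.c k146 (.q k97 [(.s k22 k23 0 (.s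
  k3 k41 6 (.s k2 k1 0 (.d k42 k62 k63 5 6)))), (.s k16 k31 2 (.s k28 k24 1 (.s k22 k23 0 (.s k18
  k30 1 (.d k19 k17 k25 0 2))))), (.s k63 k42 6 (.s k85 k170 14 (.s k149 k213 7 (.s k106 k192 14 (.d
  k127 k64 k191 6 7)))))] (.c k63 (.l (.s k85 k170 14 (.s k22 k23 0 (.s k3 k41 6 (.s k87 k171 13 (.s
  k150 k215 8 (.d k86 k84 k214 0 7))))))) (.c k75 (.q k135 [(.s k22 k23 0 (.s k3 k41 6 (.s k2 k1 0
  (.d k42 k62 k63 5 6)))), (.s k16 k31 2 (.s k28 k24 1 (.s k22 k23 0 (.s k18 k30 1 (.d k19 k17 k25 0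
  2))))), (.s k63 k42 6 (.s k85 k170 14 (.s k149 k213 7 (.s k106 k192 14 (.d k127 k64 k191 6 7)))))]
  (.c k63 (.l (.s k85 k170 14 (.s k22 k23 0 (.s k3 k41 6 (.s k87 k171 13 (.s k150 k215 8 (.d k86 k84
  k214 0 7))))))) .n)) (.c k135 (.q k75 [(.s k22 k23 0 (.s k3 k41 6 (.s k2 k1 0 (.d k42 k62 k63 5
  6)))), (.s k85 k170 14 (.s k31 k16 2 (.s k149 k213 7 (.s k90 k208 10 (.d k105 k120 k65 4 5)))))]
  .n) .n)))) .n)))))) (.c k42 (.l (.s k85 k170 14 (.s k22 k23 0 (.s k41 k3 6 (.s k1 k61 5 (.s k169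
  k253 13 (.d k105 k65 k233 5 7))))))) (.c k63 (.l (.s k85 k170 14 (.s k22 k23 0 (.s k3 k41 6 (.s
  k87 k171 13 (.s k150 k215 8 (.d k86 k84 k214 0 7))))))) (.c k75 (.q k135 [(.s k63 k42 6 (.s k22
  k23 0 (.s k41 k3 6 (.d k61 k62 k1 0 5)))), (.s k63 k42 6 (.s k85 k170 14 (.s k149 k213 7 (.s k106
  k192 14 (.d k127 k64 k191 6 7))))), (.s k85 k170 14 (.s k149 k213 7 (.s k105 k65 5 (.s k61 k193 13
  (.d k63 k62 k42 0 6)))))] (.c k26 (.q k37 [(.s k85 k170 14 (.s k150 k215 8 (.s k165 k180 4 (.d k5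
  k53 k245 3 11)))), (.s k63 k42 6 (.s k22 k23 0 (.s k41 k3 6 (.d k61 k62 k1 0 5))))] (.c k97 (.q
  k146 [(.s k85 k170 14 (.s k150 k215 8 (.s k165 k180 4 (.d k5 k53 k245 3 11)))), (.s k63 k42 6 (.s
  k22 k23 0 (.s k41 k3 6 (.d k61 k62 k1 0 5))))] .n) (.c k146 (.q k97 [(.s k85 k170 14 (.s k150 k215
  8 (.s k165 k180 4 (.d k5 k53 k245 3 11)))), (.s k63 k42 6 (.s k22 k23 0 (.s k41 k3 6 (.d k61 k62
  k1 0 5))))] .n) .n))) (.c k37 (.q k26 [(.s k22 k23 0 (.s k3 k41 6 (.s k2 k1 0 (.d k42 k62 k63 5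
  6)))), (.s k16 k31 2 (.s k28 k24 1 (.s k22 k23 0 (.s k18 k30 1 (.d k19 k17 k25 0 2))))), (.s k63
  k42 6 (.s k85 k170 14 (.s k149 k213 7 (.s k106 k192 14 (.d k127 k64 k191 6 7)))))] (.c k63 (.l (.s
  k85 k170 14 (.s k22 k23 0 (.s k3 k41 6 (.s k87 k171 13 (.s k150 k215 8 (.d k86 k84 k214 0 7)))))))
  (.c k97 (.q k146 [(.s k85 k170 14 (.s k150 k215 8 (.s k154 k158 1 (.d k16 k31 k223 2 10)))), (.s
  k63 k42 6 (.s k22 k23 0 (.s k41 k3 6 (.d k61 k62 k1 0 5))))] .n) (.c k146 (.q k97 [(.s k22 k23 0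
  (.s k3 k41 6 (.s k2 k1 0 (.d k42 k62 k63 5 6)))), (.s k16 k31 2 (.s k28 k24 1 (.s k22 k23 0 (.s
  k18 k30 1 (.d k19 k17 k25 0 2))))), (.s k63 k42 6 (.s k85 k170 14 (.s k149 k213 7 (.s k106 k192 14
  (.d k127 k64 k191 6 7)))))] (.c k63 (.l (.s k85 k170 14 (.s k22 k23 0 (.s k3 k41 6 (.s k87 k171 13
  (.s k150 k215 8 (.d k86 k84 k214 0 7))))))) .n)) .n)))) (.c k42 (.l (.s k85 k170 14 (.s k22 k23 0
  (.s k41 k3 6 (.s k1 k61 5 (.s k169 k253 13 (.d k105 k65 k233 5 7))))))) (.c k63 (.l (.s k85 k170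
  14 (.s k22 k23 0 (.s k3 k41 6 (.s k87 k171 13 (.s k150 k215 8 (.d k86 k84 k214 0 7))))))) (.c k97
  (.q k146 [(.s k63 k42 6 (.s k22 k23 0 (.s k41 k3 6 (.d k61 k62 k1 0 5)))), (.s k63 k42 6 (.s k85
  k170 14 (.s k149 k213 7 (.s k106 k192 14 (.d k127 k64 k191 6 7))))), (.s k85 k170 14 (.s k149 k213
  7 (.s k105 k65 5 (.s k61 k193 13 (.d k63 k62 k42 0 6)))))] (.c k26 (.q k37 [(.s k85 k170 14 (.s
  k150 k215 8 (.s k165 k180 4 (.d k5 k53 k245 3 11)))), (.s k63 k42 6 (.s k22 k23 0 (.s k41 k3 6 (.d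
  k61 k62 k1 0 5))))] .n) (.c k37 (.q k26 [(.s k85 k170 14 (.s k150 k215 8 (.s k154 k158 1 (.d k16
  k31 k223 2 10)))), (.s k63 k42 6 (.s k22 k23 0 (.s k41 k3 6 (.d k61 k62 k1 0 5))))] .n) (.c k42
  (.l (.s k85 k170 14 (.s k22 k23 0 (.s k41 k3 6 (.s k1 k61 5 (.s k169 k253 13 (.d k105 k65 k233 5
  7))))))) (.c k63 (.l (.s k85 k170 14 (.s k22 k23 0 (.s k3 k41 6 (.s k87 k171 13 (.s k150 k215 8
  (.d k86 k84 k214 0 7))))))) .n))))) (.c k146 (.q k97 [(.s k63 k42 6 (.s k22 k23 0 (.s k41 k3 6 (.d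
  k61 k62 k1 0 5)))), (.s k63 k42 6 (.s k85 k170 14 (.s k149 k213 7 (.s k106 k192 14 (.d k127 k64
  k191 6 7))))), (.s k85 k170 14 (.s k149 k213 7 (.s k105 k65 5 (.s k61 k193 13 (.d k63 k62 k42 0
  6)))))] (.c k26 (.q k37 [(.s k85 k170 14 (.s k150 k215 8 (.s k165 k180 4 (.d k5 k53 k245 3 11)))),
  (.s k63 k42 6 (.s k22 k23 0 (.s k41 k3 6 (.d k61 k62 k1 0 5))))] .n) (.c k37 (.q k26 [(.s k22 k23
  0 (.s k3 k41 6 (.s k2 k1 0 (.d k42 k62 k63 5 6)))), (.s k16 k31 2 (.s k28 k24 1 (.s k22 k23 0 (.s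
  k18 k30 1 (.d k19 k17 k25 0 2))))), (.s k63 k42 6 (.s k85 k170 14 (.s k149 k213 7 (.s k106 k192 14
  (.d k127 k64 k191 6 7)))))] (.c k63 (.l (.s k85 k170 14 (.s k22 k23 0 (.s k3 k41 6 (.s k87 k171 13
  (.s k150 k215 8 (.d k86 k84 k214 0 7))))))) .n)) (.c k42 (.l (.s k85 k170 14 (.s k22 k23 0 (.s k41
  k3 6 (.s k1 k61 5 (.s k169 k253 13 (.d k105 k65 k233 5 7))))))) (.c k63 (.l (.s k85 k170 14 (.s
  k22 k23 0 (.s k3 k41 6 (.s k87 k171 13 (.s k150 k215 8 (.d k86 k84 k214 0 7))))))) .n)))))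
  .n))))))) (.c k97 (.q k146 [(.s k63 k42 6 (.s k22 k23 0 (.s k41 k3 6 (.d k61 k62 k1 0 5)))), (.s
  k63 k42 6 (.s k85 k170 14 (.s k149 k213 7 (.s k106 k192 14 (.d k127 k64 k191 6 7))))), (.s k85
  k170 14 (.s k149 k213 7 (.s k105 k65 5 (.s k61 k193 13 (.d k63 k62 k42 0 6)))))] (.c k26 (.q k37
  [(.s k22 k23 0 (.s k3 k41 6 (.s k2 k1 0 (.d k42 k62 k63 5 6)))), (.s k63 k42 6 (.s k85 k170 14 (.s
  k149 k213 7 (.s k106 k192 14 (.d k127 k64 k191 6 7))))), (.s k53 k5 3 (.s k22 k23 0 (.s k52 k7 4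
  (.s k4 k36 3 (.d k55 k54 k38 0 4)))))] (.c k75 (.q k135 [(.s k85 k170 14 (.s k150 k215 8 (.s k165
  k180 4 (.d k5 k53 k245 3 11)))), (.s k63 k42 6 (.s k22 k23 0 (.s k41 k3 6 (.d k61 k62 k1 0 5))))]
  .n) (.c k135 (.q k75 [(.s k22 k23 0 (.s k3 k41 6 (.s k2 k1 0 (.d k42 k62 k63 5 6)))), (.s k63 k42
  6 (.s k85 k170 14 (.s k149 k213 7 (.s k106 k192 14 (.d k127 k64 k191 6 7))))), (.s k53 k5 3 (.s
  k22 k23 0 (.s k52 k7 4 (.s k4 k36 3 (.d k55 k54 k38 0 4)))))] .n) .n))) (.c k37 (.q k26 [(.s k85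
  k170 14 (.s k150 k215 8 (.s k154 k158 1 (.d k16 k31 k223 2 10)))), (.s k63 k42 6 (.s k22 k23 0 (.s
  k41 k3 6 (.d k61 k62 k1 0 5))))] (.c k75 (.q k135 [(.s k85 k170 14 (.s k150 k215 8 (.s k154 k158 1
  (.d k16 k31 k223 2 10)))), (.s k63 k42 6 (.s k22 k23 0 (.s k41 k3 6 (.d k61 k62 k1 0 5))))] .n)
  (.c k135 (.q k75 [(.s k85 k170 14 (.s k150 k215 8 (.s k154 k158 1 (.d k16 k31 k223 2 10)))), (.s
  k63 k42 6 (.s k22 k23 0 (.s k41 k3 6 (.d k61 k62 k1 0 5))))] .n) .n))) (.c k42 (.l (.s k85 k170 14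
  (.s k22 k23 0 (.s k41 k3 6 (.s k1 k61 5 (.s k169 k253 13 (.d k105 k65 k233 5 7))))))) (.c k63 (.l
  (.s k85 k170 14 (.s k22 k23 0 (.s k3 k41 6 (.s k87 k171 13 (.s k150 k215 8 (.d k86 k84 k214 0
  7))))))) (.c k75 (.q k135 [(.s k63 k42 6 (.s k22 k23 0 (.s k41 k3 6 (.d k61 k62 k1 0 5)))), (.s
  k63 k42 6 (.s k85 k170 14 (.s k149 k213 7 (.s k106 k192 14 (.d k127 k64 k191 6 7))))), (.s k85
  k170 14 (.s k149 k213 7 (.s k105 k65 5 (.s k61 k193 13 (.d k63 k62 k42 0 6)))))] (.c k26 (.q k37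
  [(.s k85 k170 14 (.s k150 k215 8 (.s k165 k180 4 (.d k5 k53 k245 3 11)))), (.s k63 k42 6 (.s k22
  k23 0 (.s k41 k3 6 (.d k61 k62 k1 0 5))))] .n) (.c k37 (.q k26 [(.s k85 k170 14 (.s k150 k215 8
  (.s k154 k158 1 (.d k16 k31 k223 2 10)))), (.s k63 k42 6 (.s k22 k23 0 (.s k41 k3 6 (.d k61 k62 k1
  0 5))))] .n) (.c k42 (.l (.s k85 k170 14 (.s k22 k23 0 (.s k41 k3 6 (.s k1 k61 5 (.s k169 k253 13
  (.d k105 k65 k233 5 7))))))) (.c k63 (.l (.s k85 k170 14 (.s k22 k23 0 (.s k3 k41 6 (.s k87 k171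
  13 (.s k150 k215 8 (.d k86 k84 k214 0 7))))))) .n))))) (.c k135 (.q k75 [(.s k63 k42 6 (.s k22 k23
  0 (.s k41 k3 6 (.d k61 k62 k1 0 5)))), (.s k63 k42 6 (.s k85 k170 14 (.s k149 k213 7 (.s k106 k192
  14 (.d k127 k64 k191 6 7))))), (.s k85 k170 14 (.s k149 k213 7 (.s k105 k65 5 (.s k61 k193 13 (.d
  k63 k62 k42 0 6)))))] (.c k26 (.q k37 [(.s k22 k23 0 (.s k3 k41 6 (.s k2 k1 0 (.d k42 k62 k63 5
  6)))), (.s k63 k42 6 (.s k85 k170 14 (.s k149 k213 7 (.s k106 k192 14 (.d k127 k64 k191 6 7))))),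
  (.s k53 k5 3 (.s k22 k23 0 (.s k52 k7 4 (.s k4 k36 3 (.d k55 k54 k38 0 4)))))] .n) (.c k37 (.q k26
  [(.s k85 k170 14 (.s k150 k215 8 (.s k154 k158 1 (.d k16 k31 k223 2 10)))), (.s k63 k42 6 (.s k22
  k23 0 (.s k41 k3 6 (.d k61 k62 k1 0 5))))] .n) (.c k42 (.l (.s k85 k170 14 (.s k22 k23 0 (.s k41
  k3 6 (.s k1 k61 5 (.s k169 k253 13 (.d k105 k65 k233 5 7))))))) (.c k63 (.l (.s k85 k170 14 (.s
  k22 k23 0 (.s k3 k41 6 (.s k87 k171 13 (.s k150 k215 8 (.d k86 k84 k214 0 7))))))) .n)))))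
  .n))))))) (.c k135 (.q k75 [(.s k63 k42 6 (.s k22 k23 0 (.s k41 k3 6 (.d k61 k62 k1 0 5)))), (.s
  k63 k42 6 (.s k85 k170 14 (.s k149 k213 7 (.s k106 k192 14 (.d k127 k64 k191 6 7))))), (.s k85
  k170 14 (.s k149 k213 7 (.s k105 k65 5 (.s k61 k193 13 (.d k63 k62 k42 0 6)))))] (.c k26 (.q k37
  [(.s k22 k23 0 (.s k3 k41 6 (.s k2 k1 0 (.d k42 k62 k63 5 6)))), (.s k63 k42 6 (.s k85 k170 14 (.s
  k149 k213 7 (.s k106 k192 14 (.d k127 k64 k191 6 7))))), (.s k53 k5 3 (.s k22 k23 0 (.s k52 k7 4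
  (.s k4 k36 3 (.d k55 k54 k38 0 4)))))] (.c k97 (.q k146 [(.s k22 k23 0 (.s k3 k41 6 (.s k2 k1 0
  (.d k42 k62 k63 5 6)))), (.s k63 k42 6 (.s k85 k170 14 (.s k149 k213 7 (.s k106 k192 14 (.d k127
  k64 k191 6 7))))), (.s k53 k5 3 (.s k22 k23 0 (.s k52 k7 4 (.s k4 k36 3 (.d k55 k54 k38 0 4)))))]
  .n) (.c k146 (.q k97 [(.s k22 k23 0 (.s k3 k41 6 (.s k2 k1 0 (.d k42 k62 k63 5 6)))), (.s k85 k170
  14 (.s k53 k5 3 (.s k149 k213 7 (.s k101 k197 11 (.d k105 k109 k65 1 5)))))] .n) .n))) (.c k37 (.q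
  k26 [(.s k22 k23 0 (.s k3 k41 6 (.s k2 k1 0 (.d k42 k62 k63 5 6)))), (.s k85 k170 14 (.s k31 k16 2
  (.s k149 k213 7 (.s k90 k208 10 (.d k105 k120 k65 4 5)))))] (.c k97 (.q k146 [(.s k85 k170 14 (.s
  k150 k215 8 (.s k154 k158 1 (.d k16 k31 k223 2 10)))), (.s k63 k42 6 (.s k22 k23 0 (.s k41 k3 6
  (.d k61 k62 k1 0 5))))] .n) (.c k146 (.q k97 [(.s k22 k23 0 (.s k3 k41 6 (.s k2 k1 0 (.d k42 k62
  k63 5 6)))), (.s k85 k170 14 (.s k31 k16 2 (.s k149 k213 7 (.s k90 k208 10 (.d k105 k120 k65 4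
  5)))))] .n) .n))) (.c k42 (.l (.s k85 k170 14 (.s k22 k23 0 (.s k41 k3 6 (.s k1 k61 5 (.s k169
  k253 13 (.d k105 k65 k233 5 7))))))) (.c k63 (.l (.s k85 k170 14 (.s k22 k23 0 (.s k3 k41 6 (.s
  k87 k171 13 (.s k150 k215 8 (.d k86 k84 k214 0 7))))))) (.c k97 (.q k146 [(.s k63 k42 6 (.s k22
  k23 0 (.s k41 k3 6 (.d k61 k62 k1 0 5)))), (.s k63 k42 6 (.s k85 k170 14 (.s k149 k213 7 (.s k106
  k192 14 (.d k127 k64 k191 6 7))))), (.s k85 k170 14 (.s k149 k213 7 (.s k105 k65 5 (.s k61 k193 13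
  (.d k63 k62 k42 0 6)))))] (.c k26 (.q k37 [(.s k22 k23 0 (.s k3 k41 6 (.s k2 k1 0 (.d k42 k62 k63
  5 6)))), (.s k63 k42 6 (.s k85 k170 14 (.s k149 k213 7 (.s k106 k192 14 (.d k127 k64 k191 6
  7))))), (.s k53 k5 3 (.s k22 k23 0 (.s k52 k7 4 (.s k4 k36 3 (.d k55 k54 k38 0 4)))))] .n) (.c k37
  (.q k26 [(.s k85 k170 14 (.s k150 k215 8 (.s k154 k158 1 (.d k16 k31 k223 2 10)))), (.s k63 k42 6
  (.s k22 k23 0 (.s k41 k3 6 (.d k61 k62 k1 0 5))))] .n) (.c k42 (.l (.s k85 k170 14 (.s k22 k23 0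
  (.s k41 k3 6 (.s k1 k61 5 (.s k169 k253 13 (.d k105 k65 k233 5 7))))))) (.c k63 (.l (.s k85 k170
  14 (.s k22 k23 0 (.s k3 k41 6 (.s k87 k171 13 (.s k150 k215 8 (.d k86 k84 k214 0 7))))))) .n)))))
  (.c k146 (.q k97 [(.s k63 k42 6 (.s k22 k23 0 (.s k41 k3 6 (.d k61 k62 k1 0 5)))), (.s k63 k42 6
  (.s k85 k170 14 (.s k149 k213 7 (.s k106 k192 14 (.d k127 k64 k191 6 7))))), (.s k85 k170 14 (.s
  k149 k213 7 (.s k105 k65 5 (.s k61 k193 13 (.d k63 k62 k42 0 6)))))] (.c k26 (.q k37 [(.s k22 k23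
  0 (.s k3 k41 6 (.s k2 k1 0 (.d k42 k62 k63 5 6)))), (.s k85 k170 14 (.s k53 k5 3 (.s k149 k213 7
  (.s k101 k197 11 (.d k105 k109 k65 1 5)))))] .n) (.c k37 (.q k26 [(.s k22 k23 0 (.s k3 k41 6 (.s
  k2 k1 0 (.d k42 k62 k63 5 6)))), (.s k85 k170 14 (.s k31 k16 2 (.s k149 k213 7 (.s k90 k208 10 (.d
  k105 k120 k65 4 5)))))] .n) (.c k42 (.l (.s k85 k170 14 (.s k22 k23 0 (.s k41 k3 6 (.s k1 k61 5
  (.s k169 k253 13 (.d k105 k65 k233 5 7))))))) (.c k63 (.l (.s k85 k170 14 (.s k22 k23 0 (.s k3 k41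
  6 (.s k87 k171 13 (.s k150 k215 8 (.d k86 k84 k214 0 7))))))) .n))))) .n))))))) (.c k146 (.q k97
  [(.s k63 k42 6 (.s k22 k23 0 (.s k41 k3 6 (.d k61 k62 k1 0 5)))), (.s k63 k42 6 (.s k85 k170 14
  (.s k149 k213 7 (.s k106 k192 14 (.d k127 k64 k191 6 7))))), (.s k85 k170 14 (.s k149 k213 7 (.s
  k105 k65 5 (.s k61 k193 13 (.d k63 k62 k42 0 6)))))] (.c k26 (.q k37 [(.s k22 k23 0 (.s k3 k41 6
  (.s k2 k1 0 (.d k42 k62 k63 5 6)))), (.s k85 k170 14 (.s k53 k5 3 (.s k149 k213 7 (.s k101 k197 11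
  (.d k105 k109 k65 1 5)))))] (.c k75 (.q k135 [(.s k85 k170 14 (.s k150 k215 8 (.s k165 k180 4 (.d
  k5 k53 k245 3 11)))), (.s k63 k42 6 (.s k22 k23 0 (.s k41 k3 6 (.d k61 k62 k1 0 5))))] .n) (.c
  k135 (.q k75 [(.s k22 k23 0 (.s k3 k41 6 (.s k2 k1 0 (.d k42 k62 k63 5 6)))), (.s k85 k170 14 (.s
  k53 k5 3 (.s k149 k213 7 (.s k101 k197 11 (.d k105 k109 k65 1 5)))))] .n) .n))) (.c k37 (.q k26
  [(.s k22 k23 0 (.s k3 k41 6 (.s k2 k1 0 (.d k42 k62 k63 5 6)))), (.s k16 k31 2 (.s k28 k24 1 (.s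
  k22 k23 0 (.s k18 k30 1 (.d k19 k17 k25 0 2))))), (.s k63 k42 6 (.s k85 k170 14 (.s k149 k213 7
  (.s k106 k192 14 (.d k127 k64 k191 6 7)))))] (.c k63 (.l (.s k85 k170 14 (.s k22 k23 0 (.s k3 k41
  6 (.s k87 k171 13 (.s k150 k215 8 (.d k86 k84 k214 0 7))))))) (.c k75 (.q k135 [(.s k22 k23 0 (.s
  k3 k41 6 (.s k2 k1 0 (.d k42 k62 k63 5 6)))), (.s k16 k31 2 (.s k28 k24 1 (.s k22 k23 0 (.s k18
  k30 1 (.d k19 k17 k25 0 2))))), (.s k63 k42 6 (.s k85 k170 14 (.s k149 k213 7 (.s k106 k192 14 (.d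
  k127 k64 k191 6 7)))))] (.c k63 (.l (.s k85 k170 14 (.s k22 k23 0 (.s k3 k41 6 (.s k87 k171 13 (.s
  k150 k215 8 (.d k86 k84 k214 0 7))))))) .n)) (.c k135 (.q k75 [(.s k22 k23 0 (.s k3 k41 6 (.s k2
  k1 0 (.d k42 k62 k63 5 6)))), (.s k85 k170 14 (.s k31 k16 2 (.s k149 k213 7 (.s k90 k208 10 (.d
  k105 k120 k65 4 5)))))] .n) .n)))) (.c k42 (.l (.s k85 k170 14 (.s k22 k23 0 (.s k41 k3 6 (.s k1
  k61 5 (.s k169 k253 13 (.d k105 k65 k233 5 7))))))) (.c k63 (.l (.s k85 k170 14 (.s k22 k23 0 (.s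
  k3 k41 6 (.s k87 k171 13 (.s k150 k215 8 (.d k86 k84 k214 0 7))))))) (.c k75 (.q k135 [(.s k63 k42
  6 (.s k22 k23 0 (.s k41 k3 6 (.d k61 k62 k1 0 5)))), (.s k63 k42 6 (.s k85 k170 14 (.s k149 k213 7
  (.s k106 k192 14 (.d k127 k64 k191 6 7))))), (.s k85 k170 14 (.s k149 k213 7 (.s k105 k65 5 (.s
  k61 k193 13 (.d k63 k62 k42 0 6)))))] (.c k26 (.q k37 [(.s k85 k170 14 (.s k150 k215 8 (.s k165
  k180 4 (.d k5 k53 k245 3 11)))), (.s k63 k42 6 (.s k22 k23 0 (.s k41 k3 6 (.d k61 k62 k1 0 5))))]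
  .n) (.c k37 (.q k26 [(.s k22 k23 0 (.s k3 k41 6 (.s k2 k1 0 (.d k42 k62 k63 5 6)))), (.s k16 k31 2
  (.s k28 k24 1 (.s k22 k23 0 (.s k18 k30 1 (.d k19 k17 k25 0 2))))), (.s k63 k42 6 (.s k85 k170 14
  (.s k149 k213 7 (.s k106 k192 14 (.d k127 k64 k191 6 7)))))] (.c k63 (.l (.s k85 k170 14 (.s k22
  k23 0 (.s k3 k41 6 (.s k87 k171 13 (.s k150 k215 8 (.d k86 k84 k214 0 7))))))) .n)) (.c k42 (.l
  (.s k85 k170 14 (.s k22 k23 0 (.s k41 k3 6 (.s k1 k61 5 (.s k169 k253 13 (.d k105 k65 k233 5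
  7))))))) (.c k63 (.l (.s k85 k170 14 (.s k22 k23 0 (.s k3 k41 6 (.s k87 k171 13 (.s k150 k215 8
  (.d k86 k84 k214 0 7))))))) .n))))) (.c k135 (.q k75 [(.s k63 k42 6 (.s k22 k23 0 (.s k41 k3 6 (.d
  k61 k62 k1 0 5)))), (.s k63 k42 6 (.s k85 k170 14 (.s k149 k213 7 (.s k106 k192 14 (.d k127 k64
  k191 6 7))))), (.s k85 k170 14 (.s k149 k213 7 (.s k105 k65 5 (.s k61 k193 13 (.d k63 k62 k42 0
  6)))))] (.c k26 (.q k37 [(.s k22 k23 0 (.s k3 k41 6 (.s k2 k1 0 (.d k42 k62 k63 5 6)))), (.s k85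
  k170 14 (.s k53 k5 3 (.s k149 k213 7 (.s k101 k197 11 (.d k105 k109 k65 1 5)))))] .n) (.c k37 (.q
  k26 [(.s k22 k23 0 (.s k3 k41 6 (.s k2 k1 0 (.d k42 k62 k63 5 6)))), (.s k85 k170 14 (.s k31 k16 2
  (.s k149 k213 7 (.s k90 k208 10 (.d k105 k120 k65 4 5)))))] .n) (.c k42 (.l (.s k85 k170 14 (.s
  k22 k23 0 (.s k41 k3 6 (.s k1 k61 5 (.s k169 k253 13 (.d k105 k65 k233 5 7))))))) (.c k63 (.l (.s
  k85 k170 14 (.s k22 k23 0 (.s k3 k41 6 (.s k87 k171 13 (.s k150 k215 8 (.d k86 k84 k214 0 7)))))))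
  .n))))) .n))))))) .n))))))))))) (.c k215 (.l (.s k40 k20 5 (.s k190 k125 8 (.s k170 k85 14 (.s
  k150 k130 5 (.d k105 k235 k195 8 14)))))) (.c k235 (.l (.s k20 k40 5 (.s k125 k190 8 (.s k85 k170
  14 (.s k105 k65 5 (.d k150 k215 k195 8 14)))))) .n)))))))))))))))

def t49 : T TT 256 :=
  (.f k85 k170 14 (.q k149 [(.s k21 k213 7 (.s k63 k42 6 (.s k127 k191 7 (.d k106 k64 k192 6 14))))]
  (.c k21 (.q k3 [(.s k1 k2 0 (.s k87 k171 13 (.s k86 k84 0 (.d k169 k253 k252 13 14)))), (.s k1 k2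
  0 (.s k169 k253 13 (.s k129 k189 5 (.s k192 k66 8 (.s k64 k128 7 (.d k106 k127 k63 6 14)))))), (.s
  k87 k171 13 (.s k86 k84 0 (.s k23 k212 8 (.s k63 k43 5 (.s k106 k192 14 (.d k127 k64 k191 6
  7))))))] (.c k86 (.q k51 [(.s k17 k34 4 (.s k153 k221 9 (.s k119 k187 9 (.d k102 k68 k204 4
  14)))), (.s k19 k35 3 (.s k87 k171 13 (.s k155 k223 9 (.s k103 k207 13 (.d k119 k71 k187 3 9))))),
  (.s k2 k1 0 (.s k35 k19 3 (.s k34 k17 4 (.s k33 k32 0 (.d k18 k50 k48 3 4)))))] (.c k2 (.q k254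
  [(.s k119 k187 9 (.s k102 k68 4 (.s k153 k204 14 (.d k17 k34 k221 4 9)))), (.s k19 k35 3 (.s k87
  k171 13 (.s k155 k223 9 (.s k103 k207 13 (.d k119 k71 k187 3 9))))), (.s k17 k34 4 (.s k35 k19 3
  (.s k153 k221 9 (.s k102 k204 14 (.s k169 k236 10 (.d k253 k252 k1 0 13))))))] .n) (.c k254 (.l
  (.s k2 k1 0 (.s k17 k34 4 (.s k153 k221 9 (.s k102 k204 14 (.d k119 k68 k187 4 9)))))) .n))) (.c
  k169 (.q k51 [(.s k17 k34 4 (.s k153 k221 9 (.s k119 k187 9 (.d k102 k68 k204 4 14)))), (.s k35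
  k19 3 (.s k171 k87 13 (.s k103 k239 9 (.s k155 k207 13 (.d k187 k139 k119 3 9))))), (.s k2 k1 0
  (.s k35 k19 3 (.s k34 k17 4 (.s k33 k32 0 (.d k18 k50 k48 3 4)))))] (.c k168 (.l (.s k171 k87 13
  (.s k17 k34 4 (.s k153 k221 9 (.s k102 k204 14 (.d k119 k68 k187 4 9)))))) (.c k171 (.q k168 [(.s
  k17 k34 4 (.s k153 k221 9 (.s k102 k204 14 (.d k119 k68 k187 4 9)))), (.s k2 k1 0 (.s k35 k19 3
  (.s k34 k17 4 (.s k33 k32 0 (.d k18 k50 k48 3 4))))), (.s k84 k252 13 (.s k19 k35 3 (.s k119 k187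
  9 (.s k102 k68 4 (.s k153 k204 14 (.d k86 k220 k87 10 0))))))] .n) .n))) .n))) (.c k42 (.l (.s
  k213 k21 7 (.s k192 k234 6 (.s k106 k63 14 (.d k64 k127 k128 6 7))))) (.c k63 (.f k21 k213 7 (.q
  k4 [(.s k12 k8 1 (.s k93 k174 12 (.s k89 k81 1 (.d k166 k247 k243 12 14)))), (.s k55 k38 4 (.s
  k166 k247 12 (.s k196 k102 12 (.d k132 k183 k68 4 7))))] (.c k31 (.q k47 [(.s k12 k8 1 (.s k93
  k174 12 (.s k89 k81 1 (.d k166 k247 k243 12 14)))), (.s k55 k38 4 (.s k166 k247 12 (.s k196 k102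
  12 (.d k132 k183 k68 4 7))))] (.c k166 (.l (.s k55 k38 4 (.s k102 k196 12 (.s k68 k119 4 (.s k204
  k136 9 (.s k153 k51 14 (.d k221 k238 k17 4 9))))))) (.c k247 (.l (.s k12 k8 1 (.s k38 k55 4 (.s
  k93 k174 12 (.s k89 k81 1 (.s k29 k209 9 (.d k25 k17 k51 1 6))))))) .n))) (.c k47 (.q k31 [(.s k12
  k8 1 (.s k93 k174 12 (.s k89 k81 1 (.d k166 k247 k243 12 14)))), (.s k16 k26 2 (.s k154 k223 10
  (.s k208 k90 10 (.d k144 k159 k80 2 7))))] .n) (.c k166 (.l (.s k55 k38 4 (.s k102 k196 12 (.s k68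
  k119 4 (.s k204 k136 9 (.s k153 k51 14 (.d k221 k238 k17 4 9))))))) (.c k247 (.l (.s k12 k8 1 (.s
  k38 k55 4 (.s k93 k174 12 (.s k89 k81 1 (.s k29 k209 9 (.d k25 k17 k51 1 6))))))) .n)))))) (.c k64
  (.q k51 [(.s k17 k34 4 (.s k153 k221 9 (.s k119 k187 9 (.d k102 k68 k204 4 14)))), (.s k213 k21 7
  (.s k192 k234 6 (.s k145 k98 12 (.s k153 k157 1 (.d k17 k34 k221 4 9))))), (.s k21 k213 7 (.s k63
  k42 6 (.s k55 k59 1 (.s k102 k196 12 (.d k119 k68 k187 4 9)))))] .n) (.c k106 (.f k21 k213 7 (.q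
  k90 [(.s k31 k208 10 (.s k95 k80 2 (.s k223 k159 7 (.d k16 k26 k154 2 10)))), (.s k80 k95 2 (.s
  k240 k160 11 (.s k245 k250 2 (.s k165 k5 11 (.s k181 k133 3 (.d k63 k42 k122 6 10)))))), (.s k31
  k208 10 (.s k16 k26 2 (.s k48 k32 3 (.s k117 k186 10 (.s k101 k69 3 (.d k154 k223 k207 10
  14))))))] (.c k42 (.q k234 [(.s k31 k208 10 (.s k95 k80 2 (.s k223 k159 7 (.d k16 k26 k154 2
  10)))), (.s k208 k31 10 (.s k80 k95 2 (.s k240 k160 11 (.s k224 k192 3 (.s k229 k239 2 (.s k218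
  k207 6 (.d k250 k202 k245 3 2))))))), (.s k80 k95 2 (.s k240 k160 11 (.s k250 k245 2 (.s k218 k202
  3 (.s k154 k26 7 (.s k223 k16 10 (.d k207 k229 k239 6 3))))))), (.s k31 k208 10 (.s k16 k26 2 (.s
  k48 k32 3 (.s k117 k186 10 (.s k101 k69 3 (.d k154 k223 k207 10 14))))))] (.c k218 (.l (.s k95 k80
  2 (.s k31 k208 10 (.s k223 k159 7 (.d k16 k26 k154 2 10))))) (.c k223 (.l (.s k80 k95 2 (.s k240
  k160 11 (.s k250 k245 2 (.s k31 k208 10 (.s k218 k202 3 (.d k26 k154 k16 7 2))))))) .n))) (.c k234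
  (.l (.s k42 k63 6 (.s k31 k208 10 (.s k16 k26 2 (.s k223 k154 10 (.d k95 k80 k159 2 7)))))) .n))))
  (.c k127 (.q k51 [(.s k17 k34 4 (.s k153 k221 9 (.s k119 k187 9 (.d k102 k68 k204 4 14)))), (.s
  k213 k21 7 (.s k192 k234 6 (.s k145 k98 12 (.s k153 k157 1 (.d k17 k34 k221 4 9))))), (.s k21 k213
  7 (.s k63 k42 6 (.s k55 k59 1 (.s k102 k196 12 (.d k119 k68 k187 4 9)))))] .n) (.c k191 (.l (.s
  k213 k21 7 (.s k192 k234 6 (.s k64 k128 7 (.d k106 k127 k63 6 14))))) (.c k192 (.f k21 k213 7 (.q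
  k51 [(.s k17 k34 4 (.s k119 k187 9 (.s k102 k68 4 (.d k153 k221 k204 9 14)))), (.s k34 k17 4 (.s
  k42 k63 6 (.s k38 k46 1 (.s k4 k55 4 (.d k12 k8 k25 1 6))))), (.s k63 k42 6 (.s k55 k59 1 (.s k119
  k187 9 (.d k102 k68 k196 4 12))))] (.c k74 (.q k133 [(.s k17 k34 4 (.s k119 k187 9 (.s k102 k68 4
  (.d k153 k221 k204 9 14)))), (.s k165 k181 3 (.s k5 k245 11 (.s k53 k37 3 (.d k197 k69 k101 7
  11))))] .n) (.c k133 (.q k74 [(.s k17 k34 4 (.s k119 k187 9 (.s k102 k68 4 (.d k153 k221 k204 9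
  14)))), (.s k34 k17 4 (.s k42 k63 6 (.s k38 k46 1 (.s k4 k55 4 (.d k12 k8 k25 1 6))))), (.s k63
  k42 6 (.s k55 k59 1 (.s k119 k187 9 (.d k102 k68 k196 4 12))))] .n) .n)))) (.c k213 (.q k3 [(.s k1
  k2 0 (.s k87 k171 13 (.s k86 k84 0 (.d k169 k253 k252 13 14)))), (.s k1 k2 0 (.s k169 k253 13 (.s
  k129 k189 5 (.s k192 k66 8 (.s k64 k128 7 (.d k106 k127 k63 6 14)))))), (.s k87 k171 13 (.s k86
  k84 0 (.s k23 k212 8 (.s k63 k43 5 (.s k106 k192 14 (.d k127 k64 k191 6 7))))))] (.c k86 (.q k51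
  [(.s k17 k34 4 (.s k119 k187 9 (.s k102 k68 4 (.d k153 k221 k204 9 14)))), (.s k19 k35 3 (.s k87
  k171 13 (.s k155 k223 9 (.s k103 k207 13 (.d k119 k71 k187 3 9))))), (.s k2 k1 0 (.s k35 k19 3 (.s
  k34 k17 4 (.s k33 k32 0 (.d k18 k50 k48 3 4)))))] (.c k2 (.q k254 [(.s k119 k187 9 (.s k102 k68 4
  (.s k153 k204 14 (.d k17 k34 k221 4 9)))), (.s k19 k35 3 (.s k87 k171 13 (.s k155 k223 9 (.s k103
  k207 13 (.d k119 k71 k187 3 9))))), (.s k17 k34 4 (.s k35 k19 3 (.s k153 k221 9 (.s k102 k204 14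
  (.s k169 k236 10 (.d k253 k252 k1 0 13))))))] .n) (.c k254 (.l (.s k2 k1 0 (.s k17 k34 4 (.s k153
  k221 9 (.s k102 k204 14 (.d k119 k68 k187 4 9)))))) .n))) (.c k169 (.q k21 [(.s k63 k42 6 (.s k127
  k191 7 (.d k106 k64 k192 6 14))), (.s k1 k2 0 (.s k41 k61 5 (.s k22 k60 6 (.s k23 k20 0 (.s k86
  k212 8 (.d k87 k84 k171 0 13))))))] (.c k63 (.l (.s k1 k2 0 (.s k41 k61 5 (.s k60 k22 6 (.s k20
  k40 5 (.s k150 k215 8 (.s k105 k195 14 (.d k125 k65 k190 5 8)))))))) (.c k168 (.l (.s k171 k87 13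
  (.s k63 k42 6 (.s k106 k192 14 (.d k127 k64 k191 6 7))))) (.c k171 (.q k168 [(.s k63 k42 6 (.s
  k106 k192 14 (.d k127 k64 k191 6 7))), (.s k1 k2 0 (.s k84 k252 13 (.s k41 k61 5 (.s k22 k60 6 (.s
  k23 k20 0 (.d k86 k87 k212 0 8))))))] (.c k63 (.l (.s k1 k2 0 (.s k84 k252 13 (.s k41 k61 5 (.s
  k86 k87 0 (.s k23 k212 8 (.d k22 k60 k20 6 0))))))) .n)) .n)))) .n))) (.c k234 (.l (.s k21 k213 7
  (.s k63 k42 6 (.s k106 k192 14 (.d k127 k64 k191 6 7))))) .n))))))))))))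

def t51 : T TT 256 :=
  (.q k207 [(.s k69 k138 10 (.s k85 k170 14 (.s k101 k117 3 (.s k223 k239 3 (.d k154 k16 k48 10
  14)))))] (.c k16 (.l (.s k138 k69 10 (.s k170 k85 14 (.s k154 k186 3 (.s k101 k48 14 (.d k239 k223
  k32 3 10)))))) (.c k27 (.q k39 [(.s k69 k138 10 (.s k85 k170 14 (.s k101 k117 3 (.s k223 k239 3
  (.d k154 k16 k48 10 14)))))] (.c k16 (.l (.s k138 k69 10 (.s k170 k85 14 (.s k154 k186 3 (.s k101
  k48 14 (.d k239 k223 k32 3 10)))))) (.c k48 (.f k170 k85 14 (.f k239 k223 3 (.f k101 k32 10 (.q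
  k37 [(.s k36 k38 0 (.s k166 k231 8 (.s k165 k229 7 (.s k164 k167 0 (.d k228 k100 k102 7 8))))),
  (.s k229 k165 7 (.s k240 k218 6 (.s k234 k224 2 (.s k213 k192 6 (.d k245 k250 k197 2 3))))), (.s
  k36 k38 0 (.s k166 k231 8 (.s k162 k174 1 (.s k243 k81 12 (.s k251 k247 1 (.d k89 k12 k8 14
  12))))))] (.c k16 (.q k154 [(.d k138 k186 k69 3 10), (.s k36 k38 0 (.s k166 k231 8 (.s k165 k229 7
  (.s k228 k102 8 (.d k164 k167 k100 0 7)))))] (.c k49 (.q k50 [(.d k138 k186 k69 3 10), (.s k165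
  k229 7 (.d k102 k228 k206 8 13))] .n) (.c k50 (.q k49 [(.d k138 k186 k69 3 10), (.s k13 k25 5 (.s
  k165 k229 7 (.s k89 k241 13 (.s k205 k153 13 (.d k77 k113 k141 5 7)))))] .n) .n))) (.c k49 (.q k50
  [(.s k138 k69 10 (.s k165 k229 7 (.s k154 k186 3 (.d k102 k228 k206 8 13)))), (.s k229 k165 7 (.s
  k240 k218 6 (.s k234 k224 2 (.s k213 k192 6 (.d k245 k250 k197 2 3))))), (.s k138 k69 10 (.s k36
  k38 0 (.s k231 k166 8 (.s k154 k186 3 (.s k102 k206 13 (.d k103 k100 k167 0 7))))))] (.c k16 (.q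
  k154 [(.d k138 k186 k69 3 10), (.s k165 k229 7 (.d k102 k228 k206 8 13))] .n) (.c k154 (.q k16
  [(.s k36 k38 0 (.s k166 k231 8 (.s k165 k229 7 (.s k164 k167 0 (.d k228 k100 k102 7 8))))), (.s
  k229 k165 7 (.s k240 k218 6 (.s k80 k160 11 (.s k208 k144 7 (.d k224 k192 k234 3 2))))), (.s k36
  k38 0 (.s k166 k231 8 (.s k162 k174 1 (.s k243 k81 12 (.s k251 k247 1 (.d k89 k12 k8 14 12))))))]
  .n) .n))) (.c k50 (.q k49 [(.s k13 k25 5 (.s k165 k229 7 (.s k89 k241 13 (.s k77 k113 5 (.d k205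
  k141 k153 7 13))))), (.s k69 k138 10 (.s k205 k153 13 (.s k137 k1 9 (.s k204 k206 0 (.s k68 k136 9
  (.d k70 k71 k3 0 10)))))), (.s k36 k38 0 (.s k166 k231 8 (.s k165 k229 7 (.s k164 k167 0 (.d k228
  k100 k102 7 8)))))] (.c k16 (.q k154 [(.d k138 k186 k69 3 10), (.s k13 k25 5 (.s k165 k229 7 (.s
  k89 k241 13 (.s k205 k153 13 (.d k77 k113 k141 5 7)))))] .n) (.c k154 (.q k16 [(.s k36 k38 0 (.s
  k166 k231 8 (.s k165 k229 7 (.s k164 k167 0 (.d k228 k102 k100 8 7))))), (.s k165 k229 7 (.s k102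
  k228 8 (.s k238 k34 9 (.s k205 k153 13 (.d k204 k206 k221 0 4))))), (.s k25 k13 5 (.s k153 k205 13
  (.s k89 k217 7 (.s k8 k251 12 (.s k12 k4 1 (.d k77 k113 k142 5 8))))))] (.c k102 (.q k206 [(.d
  k205 k204 k153 0 13)] (.c k68 (.q k119 [(.d k205 k204 k153 0 13)] (.c k153 (.l (.s k204 k205 0 (.s
  k36 k38 0 (.s k229 k165 7 (.s k231 k166 8 (.s k230 k228 0 (.d k218 k240 k242 6 5))))))) (.c k204
  (.l (.s k153 k205 13 (.s k13 k25 5 (.s k165 k229 7 (.s k241 k89 13 (.d k177 k141 k113 5 7))))))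
  (.c k205 (.l (.s k36 k38 0 (.s k229 k165 7 (.s k231 k166 8 (.s k230 k228 0 (.d k218 k240 k242 6
  5)))))) .n)))) (.c k119 (.q k68 [(.d k205 k204 k153 0 13)] (.c k153 (.l (.d k204 k205 k136 0 9))
  (.c k204 (.l (.s k153 k205 13 (.s k13 k25 5 (.s k165 k229 7 (.s k241 k89 13 (.d k177 k141 k113 5
  7)))))) (.c k205 (.l (.s k204 k136 9 (.s k238 k221 4 (.s k222 k254 3 (.d k237 k236 k252 0 4)))))
  .n)))) (.c k153 (.l (.s k204 k205 0 (.s k138 k69 10 (.s k70 k2 9 (.s k137 k3 10 (.d k136 k139 k68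
  0 9)))))) (.c k204 (.l (.s k153 k205 13 (.s k13 k25 5 (.s k165 k229 7 (.s k241 k89 13 (.d k177
  k141 k113 5 7)))))) (.c k205 (.l (.s k138 k69 10 (.s k2 k70 9 (.s k86 k254 13 (.s k71 k116 4 (.d
  k3 k1 k139 0 9)))))) .n)))))) (.c k206 (.q k102 [(.d k165 k229 k228 7 8), (.s k36 k38 0 (.s k231
  k166 8 (.d k103 k100 k167 0 7)))] .n) (.c k229 (.l (.s k13 k25 5 (.s k205 k153 13 (.s k77 k141 7
  (.s k12 k142 8 (.s k8 k4 1 (.d k89 k113 k251 5 12))))))) .n)))) .n))) (.c k154 (.q k16 [(.s k36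
  k38 0 (.s k166 k231 8 (.s k165 k229 7 (.s k164 k167 0 (.d k228 k100 k102 7 8))))), (.s k229 k165 7
  (.s k240 k218 6 (.s k80 k160 11 (.s k208 k144 7 (.d k224 k192 k234 3 2))))), (.s k36 k38 0 (.s
  k166 k231 8 (.s k162 k174 1 (.s k243 k81 12 (.s k251 k247 1 (.d k89 k12 k8 14 12))))))] (.c k49
  (.q k50 [(.s k36 k38 0 (.s k166 k231 8 (.s k165 k229 7 (.s k164 k167 0 (.d k228 k100 k102 7
  8))))), (.s k229 k165 7 (.s k240 k218 6 (.s k80 k160 11 (.s k208 k144 7 (.d k224 k192 k234 3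
  2))))), (.s k36 k38 0 (.s k166 k231 8 (.s k162 k174 1 (.s k243 k81 12 (.s k251 k247 1 (.d k89 k12
  k8 14 12))))))] .n) (.c k50 (.q k49 [(.s k36 k38 0 (.s k166 k231 8 (.s k165 k229 7 (.s k164 k167 0
  (.d k228 k102 k100 8 7))))), (.s k165 k229 7 (.s k102 k228 8 (.s k238 k34 9 (.s k205 k153 13 (.d
  k204 k206 k221 0 4))))), (.s k25 k13 5 (.s k153 k205 13 (.s k89 k217 7 (.s k8 k251 12 (.s k12 k4 1
  (.d k77 k113 k142 5 8))))))] (.c k102 (.q k206 [(.d k205 k204 k153 0 13)] (.c k68 (.q k119 [(.d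
  k205 k204 k153 0 13)] (.c k153 (.l (.s k204 k205 0 (.s k36 k38 0 (.s k229 k165 7 (.s k231 k166 8
  (.s k230 k228 0 (.d k218 k240 k242 6 5))))))) (.c k204 (.l (.s k153 k205 13 (.s k13 k25 5 (.s k165
  k229 7 (.s k241 k89 13 (.d k177 k141 k113 5 7)))))) (.c k205 (.l (.s k36 k38 0 (.s k229 k165 7 (.s
  k231 k166 8 (.s k230 k228 0 (.d k218 k240 k242 6 5)))))) .n)))) (.c k119 (.q k68 [(.d k205 k204
  k153 0 13)] (.c k153 (.l (.d k204 k205 k136 0 9)) (.c k204 (.l (.s k153 k205 13 (.s k13 k25 5 (.s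
  k165 k229 7 (.s k241 k89 13 (.d k177 k141 k113 5 7)))))) (.c k205 (.l (.s k204 k136 9 (.s k238
  k221 4 (.s k222 k254 3 (.d k237 k236 k252 0 4))))) .n)))) (.c k153 (.l (.s k204 k205 0 (.s k138
  k69 10 (.s k70 k2 9 (.s k137 k3 10 (.d k136 k139 k68 0 9)))))) (.c k204 (.l (.s k153 k205 13 (.s
  k13 k25 5 (.s k165 k229 7 (.s k241 k89 13 (.d k177 k141 k113 5 7)))))) (.c k205 (.l (.s k138 k69
  10 (.s k2 k70 9 (.s k86 k254 13 (.s k71 k116 4 (.d k3 k1 k139 0 9)))))) .n)))))) (.c k206 (.q k102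
  [(.d k165 k229 k228 7 8), (.s k36 k38 0 (.s k231 k166 8 (.d k103 k100 k167 0 7)))] .n) (.c k229
  (.l (.s k13 k25 5 (.s k205 k153 13 (.s k77 k141 7 (.s k12 k142 8 (.s k8 k4 1 (.d k89 k113 k251 5
  12))))))) .n)))) .n))) .n)))))))) (.c k69 (.q k12 [(.s k4 k8 1 (.s k85 k170 14 (.s k166 k247 12
  (.s k93 k174 12 (.d k89 k81 k243 1 14))))), (.s k77 k142 8 (.s k93 k174 12 (.s k109 k125 3 (.s
  k158 k60 12 (.d k223 k239 k28 3 8))))), (.s k4 k8 1 (.s k85 k170 14 (.s k166 k247 12 (.s k142 k77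
  8 (.s k154 k178 5 (.d k223 k239 k16 3 10))))))] .n) (.c k85 (.f k69 k138 10 (.f k239 k223 3 (.q
  k195 [(.s k65 k130 8 (.s k73 k77 1 (.s k199 k203 1 (.d k134 k4 k12 8 10)))), (.s k235 k215 5 (.s
  k231 k227 1 (.s k103 k167 7 (.s k171 k35 9 (.s k107 k43 7 (.s k63 k151 13 (.d k111 k99 k159 1
  11)))))))] (.c k16 (.q k154 [(.s k65 k130 8 (.s k73 k77 1 (.s k199 k203 1 (.d k134 k4 k12 8
  10)))), (.s k203 k199 1 (.s k235 k215 5 (.s k219 k251 3 (.d k231 k227 k243 1 5)))), (.s k130 k65 8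
  (.s k48 k101 14 (.s k146 k97 12 (.s k150 k158 1 (.s k190 k170 5 (.d k60 k125 k105 8 14))))))] .n)
  (.c k154 (.q k16 [(.s k65 k130 8 (.s k73 k77 1 (.s k199 k203 1 (.d k134 k4 k12 8 10)))), (.s k32
  k48 3 (.s k235 k215 5 (.s k227 k231 1 (.s k162 k97 8 (.d k243 k211 k81 3 12)))))] (.c k170 (.q
  k186 [(.d k48 k32 k117 3 10), (.s k65 k130 8 (.s k73 k77 1 (.s k134 k12 10 (.d k199 k203 k4 1
  8))))] .n) (.c k186 (.q k170 [(.d k32 k48 k101 3 10), (.s k65 k130 8 (.s k73 k77 1 (.s k134 k12 10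
  (.d k199 k203 k4 1 8))))] .n) (.c k199 (.l (.s k48 k32 3 (.s k130 k65 8 (.s k146 k97 12 (.s k81
  k211 8 (.d k162 k178 k243 3 12)))))) .n)))) .n))))) (.c k101 (.q k12 [(.s k4 k8 1 (.s k69 k138 10
  (.s k77 k142 8 (.s k73 k65 1 (.d k134 k199 k195 8 10))))), (.s k77 k142 8 (.s k93 k174 12 (.s k109
  k125 3 (.s k158 k60 12 (.d k223 k239 k28 3 8))))), (.s k4 k8 1 (.s k85 k170 14 (.s k166 k247 12
  (.s k89 k243 14 (.d k93 k81 k174 1 12)))))] .n) (.c k117 (.l (.s k138 k69 10 (.s k239 k223 3 (.s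
  k170 k85 14 (.s k101 k32 10 (.d k154 k186 k48 3 14)))))) (.c k138 (.q k12 [(.s k8 k4 1 (.s k174
  k93 12 (.s k170 k85 14 (.s k166 k162 1 (.d k89 k251 k243 12 14))))), (.s k77 k142 8 (.s k93 k174
  12 (.s k109 k125 3 (.s k158 k60 12 (.d k223 k239 k28 3 8))))), (.s k4 k8 1 (.s k85 k170 14 (.s
  k166 k247 12 (.s k142 k77 8 (.s k154 k178 5 (.d k223 k239 k16 3 10))))))] .n) (.c k154 (.q k12
  [(.s k4 k8 1 (.s k69 k138 10 (.s k134 k199 8 (.s k77 k142 8 (.d k73 k65 k195 1 10))))), (.s k77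
  k142 8 (.s k93 k174 12 (.s k109 k125 3 (.s k158 k60 12 (.d k223 k239 k28 3 8))))), (.s k4 k8 1 (.s
  k85 k170 14 (.s k166 k247 12 (.s k89 k243 14 (.d k93 k81 k174 1 12)))))] (.c k166 (.l (.s k4 k8 1
  (.s k69 k138 10 (.s k134 k199 8 (.s k73 k195 10 (.d k77 k65 k142 1 8)))))) .n)) (.c k170 (.f k239
  k223 3 (.q k195 [(.s k203 k199 1 (.s k235 k215 5 (.s k231 k227 1 (.d k219 k251 k243 3 5)))), (.s
  k65 k130 8 (.s k69 k138 10 (.s k73 k77 1 (.s k134 k12 10 (.d k199 k203 k4 1 8))))), (.s k235 k215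
  5 (.s k231 k227 1 (.s k103 k167 7 (.s k171 k35 9 (.s k107 k43 7 (.s k63 k151 13 (.d k111 k99 k159
  1 11)))))))] .n)) (.c k186 (.l (.s k69 k138 10 (.s k223 k239 3 (.s k85 k170 14 (.s k154 k16 10 (.d
  k101 k117 k48 3 14)))))) (.c k223 (.q k12 [(.s k4 k8 1 (.s k69 k138 10 (.s k134 k199 8 (.s k77
  k142 8 (.d k73 k65 k195 1 10))))), (.s k4 k8 1 (.s k85 k170 14 (.s k166 k247 12 (.s k89 k243 14
  (.d k93 k81 k174 1 12))))), (.s k69 k138 10 (.s k85 k170 14 (.s k77 k142 8 (.s k93 k174 12 (.s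
  k101 k117 3 (.d k89 k81 k113 1 5))))))] .n) (.c k239 (.q k12 [(.s k4 k8 1 (.s k69 k138 10 (.s k134
  k199 8 (.s k77 k142 8 (.d k73 k65 k195 1 10))))), (.s k4 k8 1 (.s k85 k170 14 (.s k166 k247 12 (.s
  k89 k243 14 (.d k93 k81 k174 1 12))))), (.s k69 k138 10 (.s k85 k170 14 (.s k77 k142 8 (.s k93
  k174 12 (.s k101 k117 3 (.d k89 k81 k113 1 5))))))] .n) .n))))))))))))) (.c k39 (.q k27 [(.s k69
  k138 10 (.s k85 k170 14 (.s k101 k117 3 (.s k223 k239 3 (.d k154 k16 k48 10 14)))))] (.c k16 (.l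
  (.s k138 k69 10 (.s k170 k85 14 (.s k154 k186 3 (.s k101 k48 14 (.d k239 k223 k32 3 10)))))) (.c
  k48 (.f k85 k170 14 (.f k223 k239 3 (.f k154 k16 10 (.q k26 [(.s k24 k25 0 (.s k219 k89 8 (.s k90
  k218 7 (.s k153 k216 8 (.d k155 k152 k91 0 7))))), (.s k218 k90 7 (.s k240 k229 6 (.s k213 k208 2
  (.s k234 k192 6 (.d k250 k245 k202 2 3))))), (.s k24 k25 0 (.s k89 k219 8 (.s k81 k93 1 (.s k243
  k162 12 (.s k247 k251 1 (.d k166 k12 k4 14 12))))))] (.c k32 (.q k101 [(.d k69 k117 k138 3 10),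
  (.s k24 k25 0 (.s k89 k219 8 (.s k90 k218 7 (.s k216 k153 8 (.d k88 k91 k152 0 7)))))] (.c k49 (.q
  k50 [(.d k69 k117 k138 3 10), (.s k14 k38 5 (.s k90 k218 7 (.s k166 k242 13 (.s k206 k102 13 (.d
  k142 k178 k78 5 7)))))] .n) (.c k50 (.q k49 [(.d k69 k117 k138 3 10), (.s k90 k218 7 (.d k153 k216
  k205 8 13))] .n) .n))) (.c k49 (.q k50 [(.s k14 k38 5 (.s k90 k218 7 (.s k166 k242 13 (.s k142
  k178 5 (.d k206 k78 k102 7 13))))), (.s k138 k69 10 (.s k206 k102 13 (.s k70 k2 9 (.s k204 k205 0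
  (.s k136 k68 9 (.d k137 k139 k3 0 10)))))), (.s k24 k25 0 (.s k89 k219 8 (.s k90 k218 7 (.s k88
  k91 0 (.d k216 k152 k153 7 8)))))] (.c k32 (.q k101 [(.d k69 k117 k138 3 10), (.s k14 k38 5 (.s
  k90 k218 7 (.s k166 k242 13 (.s k206 k102 13 (.d k142 k178 k78 5 7)))))] .n) (.c k101 (.q k32 [(.s
  k24 k25 0 (.s k89 k219 8 (.s k90 k218 7 (.s k88 k91 0 (.d k216 k153 k152 8 7))))), (.s k90 k218 7
  (.s k153 k216 8 (.s k221 k17 9 (.s k206 k102 13 (.d k204 k205 k238 0 4))))), (.s k38 k14 5 (.s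
  k102 k206 13 (.s k166 k230 7 (.s k4 k247 12 (.s k12 k8 1 (.d k142 k178 k77 5 8))))))] (.c k153 (.q
  k205 [(.d k206 k204 k102 0 13)] (.c k102 (.l (.s k204 k206 0 (.s k69 k138 10 (.s k137 k1 9 (.s k70
  k3 10 (.d k68 k71 k136 0 9)))))) (.c k136 (.q k187 [(.d k206 k204 k102 0 13)] (.c k102 (.l (.s
  k204 k206 0 (.s k24 k25 0 (.s k218 k90 7 (.s k219 k89 8 (.s k217 k216 0 (.d k229 k240 k241 6
  5))))))) (.c k204 (.l (.s k102 k206 13 (.s k14 k38 5 (.s k90 k218 7 (.s k242 k166 13 (.d k114 k78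
  k178 5 7)))))) (.c k206 (.l (.s k24 k25 0 (.s k218 k90 7 (.s k219 k89 8 (.s k217 k216 0 (.d k229
  k240 k241 6 5)))))) .n)))) (.c k187 (.q k136 [(.d k206 k204 k102 0 13)] (.c k102 (.l (.d k204 k206
  k68 0 9)) (.c k204 (.l (.s k102 k206 13 (.s k14 k38 5 (.s k90 k218 7 (.s k242 k166 13 (.d k114 k78
  k178 5 7)))))) (.c k206 (.l (.s k204 k68 9 (.s k221 k238 4 (.s k237 k253 3 (.d k222 k220 k252 0
  4))))) .n)))) (.c k204 (.l (.s k102 k206 13 (.s k14 k38 5 (.s k90 k218 7 (.s k242 k166 13 (.d k114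
  k78 k178 5 7)))))) (.c k206 (.l (.s k69 k138 10 (.s k1 k137 9 (.s k169 k253 13 (.s k139 k184 4 (.d
  k3 k2 k71 0 9)))))) .n)))))) (.c k205 (.q k153 [(.d k90 k218 k216 7 8), (.s k24 k25 0 (.s k219 k89
  8 (.d k155 k152 k91 0 7)))] .n) (.c k218 (.l (.s k14 k38 5 (.s k206 k102 13 (.s k142 k78 7 (.s k12
  k77 8 (.s k4 k8 1 (.d k166 k178 k247 5 12))))))) .n)))) .n))) (.c k50 (.q k49 [(.s k69 k138 10 (.s
  k90 k218 7 (.s k101 k117 3 (.d k153 k216 k205 8 13)))), (.s k218 k90 7 (.s k240 k229 6 (.s k213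
  k208 2 (.s k234 k192 6 (.d k250 k245 k202 2 3))))), (.s k69 k138 10 (.s k24 k25 0 (.s k219 k89 8
  (.s k101 k117 3 (.s k153 k205 13 (.d k155 k152 k91 0 7))))))] (.c k32 (.q k101 [(.d k69 k117 k138
  3 10), (.s k90 k218 7 (.d k153 k216 k205 8 13))] .n) (.c k101 (.q k32 [(.s k24 k25 0 (.s k89 k219
  8 (.s k90 k218 7 (.s k88 k91 0 (.d k216 k152 k153 7 8))))), (.s k218 k90 7 (.s k240 k229 6 (.s
  k160 k80 11 (.s k224 k96 7 (.d k208 k192 k213 3 2))))), (.s k24 k25 0 (.s k89 k219 8 (.s k81 k93 1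
  (.s k243 k162 12 (.s k247 k251 1 (.d k166 k12 k4 14 12))))))] .n) .n))) (.c k101 (.q k32 [(.s k24
  k25 0 (.s k89 k219 8 (.s k90 k218 7 (.s k88 k91 0 (.d k216 k152 k153 7 8))))), (.s k218 k90 7 (.s
  k240 k229 6 (.s k160 k80 11 (.s k224 k96 7 (.d k208 k192 k213 3 2))))), (.s k24 k25 0 (.s k89 k219
  8 (.s k81 k93 1 (.s k243 k162 12 (.s k247 k251 1 (.d k166 k12 k4 14 12))))))] (.c k49 (.q k50 [(.s
  k24 k25 0 (.s k89 k219 8 (.s k90 k218 7 (.s k88 k91 0 (.d k216 k153 k152 8 7))))), (.s k90 k218 7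
  (.s k153 k216 8 (.s k221 k17 9 (.s k206 k102 13 (.d k204 k205 k238 0 4))))), (.s k38 k14 5 (.s
  k102 k206 13 (.s k166 k230 7 (.s k4 k247 12 (.s k12 k8 1 (.d k142 k178 k77 5 8))))))] (.c k153 (.q
  k205 [(.d k206 k204 k102 0 13)] (.c k102 (.l (.s k204 k206 0 (.s k69 k138 10 (.s k137 k1 9 (.s k70
  k3 10 (.d k68 k71 k136 0 9)))))) (.c k136 (.q k187 [(.d k206 k204 k102 0 13)] (.c k102 (.l (.s
  k204 k206 0 (.s k24 k25 0 (.s k218 k90 7 (.s k219 k89 8 (.s k217 k216 0 (.d k229 k240 k241 6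
  5))))))) (.c k204 (.l (.s k102 k206 13 (.s k14 k38 5 (.s k90 k218 7 (.s k242 k166 13 (.d k114 k78
  k178 5 7)))))) (.c k206 (.l (.s k24 k25 0 (.s k218 k90 7 (.s k219 k89 8 (.s k217 k216 0 (.d k229
  k240 k241 6 5)))))) .n)))) (.c k187 (.q k136 [(.d k206 k204 k102 0 13)] (.c k102 (.l (.d k204 k206
  k68 0 9)) (.c k204 (.l (.s k102 k206 13 (.s k14 k38 5 (.s k90 k218 7 (.s k242 k166 13 (.d k114 k78
  k178 5 7)))))) (.c k206 (.l (.s k204 k68 9 (.s k221 k238 4 (.s k237 k253 3 (.d k222 k220 k252 0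
  4))))) .n)))) (.c k204 (.l (.s k102 k206 13 (.s k14 k38 5 (.s k90 k218 7 (.s k242 k166 13 (.d k114
  k78 k178 5 7)))))) (.c k206 (.l (.s k69 k138 10 (.s k1 k137 9 (.s k169 k253 13 (.s k139 k184 4 (.d
  k3 k2 k71 0 9)))))) .n)))))) (.c k205 (.q k153 [(.d k90 k218 k216 7 8), (.s k24 k25 0 (.s k219 k89
  8 (.d k155 k152 k91 0 7)))] .n) (.c k218 (.l (.s k14 k38 5 (.s k206 k102 13 (.s k142 k78 7 (.s k12
  k77 8 (.s k4 k8 1 (.d k166 k178 k247 5 12))))))) .n)))) (.c k50 (.q k49 [(.s k24 k25 0 (.s k89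
  k219 8 (.s k90 k218 7 (.s k88 k91 0 (.d k216 k152 k153 7 8))))), (.s k218 k90 7 (.s k240 k229 6
  (.s k160 k80 11 (.s k224 k96 7 (.d k208 k192 k213 3 2))))), (.s k24 k25 0 (.s k89 k219 8 (.s k81
  k93 1 (.s k243 k162 12 (.s k247 k251 1 (.d k166 k12 k4 14 12))))))] .n) .n))) .n)))))))) (.c k69
  (.q k12 [(.s k4 k8 1 (.s k85 k170 14 (.s k166 k247 12 (.s k93 k174 12 (.d k89 k81 k243 1 14))))),
  (.s k77 k142 8 (.s k93 k174 12 (.s k109 k125 3 (.s k158 k60 12 (.d k223 k239 k28 3 8))))), (.s k4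
  k8 1 (.s k85 k170 14 (.s k166 k247 12 (.s k142 k77 8 (.s k154 k178 5 (.d k223 k239 k16 3 10))))))]
  .n) (.c k85 (.f k69 k138 10 (.q k12 [(.s k4 k8 1 (.s k134 k199 8 (.s k77 k142 8 (.d k73 k65 k195 1
  10)))), (.s k142 k77 8 (.s k174 k93 12 (.s k158 k190 3 (.s k109 k60 12 (.d k239 k223 k44 3 8)))))]
  (.c k77 (.q k195 [(.s k4 k8 1 (.d k134 k73 k199 10 8)), (.s k93 k174 12 (.s k215 k235 5 (.s k223
  k239 3 (.s k28 k158 8 (.s k211 k219 1 (.s k89 k150 10 (.d k243 k227 k166 3 14)))))))] (.c k203 (.l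
  (.s k215 k235 5 (.s k223 k239 3 (.s k219 k211 1 (.s k231 k243 5 (.s k199 k247 3 (.d k4 k8 k134 1
  8))))))) .n)) (.c k142 (.q k195 [(.s k4 k8 1 (.d k134 k73 k199 10 8)), (.s k93 k174 12 (.s k223
  k239 3 (.s k158 k28 8 (.s k109 k60 12 (.s k77 k125 3 (.d k65 k130 k73 8 1))))))] (.c k73 (.l (.s
  k203 k199 1 (.s k235 k215 5 (.s k219 k251 3 (.s k231 k243 5 (.d k239 k227 k223 1 3)))))) (.c k130
  (.l (.s k134 k73 10 (.d k4 k8 k199 1 8))) (.c k134 (.l (.s k130 k65 8 (.s k199 k203 1 (.s k215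
  k235 5 (.s k231 k247 3 (.s k219 k243 5 (.d k223 k211 k239 1 3))))))) .n)))) .n)))) (.c k101 (.q
  k12 [(.s k4 k8 1 (.s k69 k138 10 (.s k77 k142 8 (.s k73 k65 1 (.d k134 k199 k195 8 10))))), (.s
  k77 k142 8 (.s k93 k174 12 (.s k109 k125 3 (.s k158 k60 12 (.d k223 k239 k28 3 8))))), (.s k4 k8 1
  (.s k85 k170 14 (.s k166 k247 12 (.s k89 k243 14 (.d k93 k81 k174 1 12)))))] .n) (.c k117 (.l (.s
  k138 k69 10 (.s k239 k223 3 (.s k170 k85 14 (.s k101 k32 10 (.d k154 k186 k48 3 14)))))) (.c k138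
  (.q k12 [(.s k8 k4 1 (.s k174 k93 12 (.s k170 k85 14 (.s k166 k162 1 (.d k89 k251 k243 12 14))))),
  (.s k77 k142 8 (.s k93 k174 12 (.s k109 k125 3 (.s k158 k60 12 (.d k223 k239 k28 3 8))))), (.s k4
  k8 1 (.s k85 k170 14 (.s k166 k247 12 (.s k142 k77 8 (.s k154 k178 5 (.d k223 k239 k16 3 10))))))]
  .n) (.c k154 (.q k12 [(.s k4 k8 1 (.s k69 k138 10 (.s k134 k199 8 (.s k77 k142 8 (.d k73 k65 k195
  1 10))))), (.s k77 k142 8 (.s k93 k174 12 (.s k109 k125 3 (.s k158 k60 12 (.d k223 k239 k28 3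
  8))))), (.s k4 k8 1 (.s k85 k170 14 (.s k166 k247 12 (.s k89 k243 14 (.d k93 k81 k174 1 12)))))]
  (.c k166 (.l (.s k4 k8 1 (.s k69 k138 10 (.s k134 k199 8 (.s k73 k195 10 (.d k77 k65 k142 1
  8)))))) .n)) (.c k170 (.f k239 k223 3 (.q k195 [(.s k203 k199 1 (.s k235 k215 5 (.s k231 k227 1
  (.d k219 k251 k243 3 5)))), (.s k65 k130 8 (.s k69 k138 10 (.s k73 k77 1 (.s k134 k12 10 (.d k199
  k203 k4 1 8)))))] (.c k199 (.q k12 [(.s k130 k65 8 (.s k138 k69 10 (.d k134 k73 k142 10 1))), (.s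
  k142 k77 8 (.s k174 k93 12 (.s k109 k44 8 (.d k158 k190 k60 3 12)))), (.s k8 k4 1 (.s k235 k215 5
  (.s k231 k227 1 (.s k219 k243 5 (.s k203 k251 3 (.d k138 k69 k73 10 8))))))] .n) (.c k203 (.q k12
  [(.s k130 k65 8 (.s k138 k69 10 (.d k134 k73 k142 10 1))), (.s k174 k93 12 (.s k44 k109 8 (.s k235
  k215 5 (.s k227 k231 1 (.s k105 k166 10 (.d k60 k28 k150 3 14))))))] (.c k77 (.l (.s k130 k65 8
  (.s k174 k93 12 (.s k109 k44 8 (.s k158 k60 12 (.s k142 k190 3 (.d k134 k73 k138 10 1))))))) .n))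
  .n)))) (.c k186 (.l (.s k69 k138 10 (.s k223 k239 3 (.s k85 k170 14 (.s k154 k16 10 (.d k101 k117
  k48 3 14)))))) (.c k223 (.q k12 [(.s k4 k8 1 (.s k69 k138 10 (.s k134 k199 8 (.s k77 k142 8 (.d
  k73 k65 k195 1 10))))), (.s k4 k8 1 (.s k85 k170 14 (.s k166 k247 12 (.s k89 k243 14 (.d k93 k81
  k174 1 12))))), (.s k69 k138 10 (.s k85 k170 14 (.s k77 k142 8 (.s k93 k174 12 (.s k101 k117 3 (.d
  k89 k81 k113 1 5))))))] .n) (.c k239 (.q k12 [(.s k4 k8 1 (.s k69 k138 10 (.s k134 k199 8 (.s k77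
  k142 8 (.d k73 k65 k195 1 10))))), (.s k4 k8 1 (.s k85 k170 14 (.s k166 k247 12 (.s k89 k243 14
  (.d k93 k81 k174 1 12))))), (.s k69 k138 10 (.s k85 k170 14 (.s k77 k142 8 (.s k93 k174 12 (.s
  k101 k117 3 (.d k89 k81 k113 1 5))))))] .n) .n))))))))))))) (.c k48 (.f k69 k138 10 (.f k170 k85
  14 (.f k223 k239 3 (.q k12 [(.s k4 k8 1 (.s k134 k199 8 (.s k77 k142 8 (.d k73 k65 k195 1 10)))),
  (.s k8 k4 1 (.s k89 k251 12 (.s k166 k243 14 (.d k174 k162 k93 1 12)))), (.s k77 k142 8 (.s k93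
  k174 12 (.s k158 k28 8 (.d k109 k125 k60 3 12))))] (.c k26 (.q k37 [(.s k4 k8 1 (.s k134 k199 8
  (.s k77 k142 8 (.d k73 k65 k195 1 10)))), (.s k8 k4 1 (.s k89 k251 12 (.s k166 k243 14 (.d k174
  k162 k93 1 12)))), (.s k77 k142 8 (.s k93 k174 12 (.s k158 k28 8 (.d k109 k125 k60 3 12))))] (.c
  k27 (.q k39 [(.s k4 k8 1 (.s k134 k199 8 (.s k77 k142 8 (.d k73 k65 k195 1 10)))), (.s k8 k4 1 (.s
  k89 k251 12 (.s k166 k243 14 (.d k174 k162 k93 1 12)))), (.s k77 k142 8 (.s k93 k174 12 (.s k158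
  k28 8 (.d k109 k125 k60 3 12))))] (.c k24 (.q k25 [(.s k4 k8 1 (.s k134 k199 8 (.s k77 k142 8 (.d
  k73 k65 k195 1 10)))), (.s k8 k4 1 (.s k89 k251 12 (.s k166 k243 14 (.d k174 k162 k93 1 12)))),
  (.s k77 k142 8 (.s k93 k174 12 (.s k158 k28 8 (.d k109 k125 k60 3 12))))] (.c k49 (.q k50 [(.s k4
  k8 1 (.s k134 k199 8 (.s k77 k142 8 (.d k73 k65 k195 1 10)))), (.s k8 k4 1 (.s k89 k251 12 (.s
  k166 k243 14 (.d k174 k162 k93 1 12)))), (.s k77 k142 8 (.s k93 k174 12 (.s k158 k28 8 (.d k109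
  k125 k60 3 12))))] .n) (.c k50 (.l (.s k49 k13 5 (.s k4 k8 1 (.s k134 k199 8 (.s k73 k195 10 (.d
  k77 k65 k142 1 8)))))) .n))) (.c k25 (.q k24 [(.s k4 k8 1 (.s k134 k199 8 (.s k77 k142 8 (.d k73
  k65 k195 1 10)))), (.s k8 k4 1 (.s k89 k251 12 (.s k166 k243 14 (.d k174 k162 k93 1 12)))), (.s
  k77 k142 8 (.s k93 k174 12 (.s k158 k28 8 (.d k109 k125 k60 3 12))))] (.c k49 (.q k50 [(.s k4 k8 1
  (.s k134 k199 8 (.s k77 k142 8 (.d k73 k65 k195 1 10)))), (.s k8 k4 1 (.s k89 k251 12 (.s k166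
  k243 14 (.d k174 k162 k93 1 12)))), (.s k77 k142 8 (.s k93 k174 12 (.s k158 k28 8 (.d k109 k125
  k60 3 12))))] .n) (.c k50 (.q k49 [(.s k4 k8 1 (.s k134 k199 8 (.s k77 k142 8 (.d k73 k65 k195 1
  10)))), (.s k8 k4 1 (.s k89 k251 12 (.s k166 k243 14 (.d k174 k162 k93 1 12)))), (.s k77 k142 8
  (.s k93 k174 12 (.s k158 k28 8 (.d k109 k125 k60 3 12))))] (.c k14 (.l (.s k38 k36 0 (.s k4 k8 1
  (.s k134 k199 8 (.s k73 k195 10 (.d k77 k65 k142 1 8)))))) (.c k38 (.q k14 [(.s k4 k8 1 (.s k134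
  k199 8 (.s k77 k142 8 (.d k73 k65 k195 1 10)))), (.s k8 k4 1 (.s k89 k251 12 (.s k166 k243 14 (.d
  k174 k162 k93 1 12)))), (.s k77 k142 8 (.s k93 k174 12 (.s k158 k28 8 (.d k109 k125 k60 3 12))))]
  .n) .n))) .n))) (.c k49 (.q k50 [(.s k4 k8 1 (.s k134 k199 8 (.s k77 k142 8 (.d k73 k65 k195 1
  10)))), (.s k8 k4 1 (.s k89 k251 12 (.s k166 k243 14 (.d k174 k162 k93 1 12)))), (.s k77 k142 8
  (.s k93 k174 12 (.s k158 k28 8 (.d k109 k125 k60 3 12))))] (.c k24 (.q k25 [(.s k4 k8 1 (.s k134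
  k199 8 (.s k77 k142 8 (.d k73 k65 k195 1 10)))), (.s k8 k4 1 (.s k89 k251 12 (.s k166 k243 14 (.d
  k174 k162 k93 1 12)))), (.s k77 k142 8 (.s k93 k174 12 (.s k158 k28 8 (.d k109 k125 k60 3 12))))]
  .n) (.c k25 (.q k24 [(.s k4 k8 1 (.s k134 k199 8 (.s k77 k142 8 (.d k73 k65 k195 1 10)))), (.s k8
  k4 1 (.s k89 k251 12 (.s k166 k243 14 (.d k174 k162 k93 1 12)))), (.s k77 k142 8 (.s k93 k174 12
  (.s k158 k28 8 (.d k109 k125 k60 3 12))))] .n) .n))) (.c k50 (.q k49 [(.s k4 k8 1 (.s k134 k199 8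
  (.s k77 k142 8 (.d k73 k65 k195 1 10)))), (.s k8 k4 1 (.s k89 k251 12 (.s k166 k243 14 (.d k174
  k162 k93 1 12)))), (.s k77 k142 8 (.s k93 k174 12 (.s k158 k28 8 (.d k109 k125 k60 3 12))))] (.c
  k14 (.l (.s k38 k36 0 (.s k4 k8 1 (.s k134 k199 8 (.s k73 k195 10 (.d k77 k65 k142 1 8)))))) (.c
  k24 (.l (.s k25 k13 5 (.s k4 k8 1 (.s k134 k199 8 (.s k73 k195 10 (.d k77 k65 k142 1 8)))))) (.c
  k25 (.q k24 [(.s k4 k8 1 (.s k134 k199 8 (.s k77 k142 8 (.d k73 k65 k195 1 10)))), (.s k8 k4 1 (.s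
  k89 k251 12 (.s k166 k243 14 (.d k174 k162 k93 1 12)))), (.s k77 k142 8 (.s k93 k174 12 (.s k158
  k28 8 (.d k109 k125 k60 3 12))))] (.c k14 (.l (.s k38 k36 0 (.s k4 k8 1 (.s k134 k199 8 (.s k73
  k195 10 (.d k77 k65 k142 1 8)))))) (.c k38 (.q k14 [(.s k4 k8 1 (.s k134 k199 8 (.s k77 k142 8 (.d
  k73 k65 k195 1 10)))), (.s k8 k4 1 (.s k89 k251 12 (.s k166 k243 14 (.d k174 k162 k93 1 12)))),
  (.s k77 k142 8 (.s k93 k174 12 (.s k158 k28 8 (.d k109 k125 k60 3 12))))] .n) .n))) (.c k38 (.q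
  k14 [(.s k4 k8 1 (.s k134 k199 8 (.s k77 k142 8 (.d k73 k65 k195 1 10)))), (.s k8 k4 1 (.s k89
  k251 12 (.s k166 k243 14 (.d k174 k162 k93 1 12)))), (.s k77 k142 8 (.s k93 k174 12 (.s k158 k28 8
  (.d k109 k125 k60 3 12))))] (.c k24 (.l (.s k25 k13 5 (.s k4 k8 1 (.s k134 k199 8 (.s k73 k195 10
  (.d k77 k65 k142 1 8)))))) (.c k25 (.q k24 [(.s k4 k8 1 (.s k134 k199 8 (.s k77 k142 8 (.d k73 k65
  k195 1 10)))), (.s k8 k4 1 (.s k89 k251 12 (.s k166 k243 14 (.d k174 k162 k93 1 12)))), (.s k77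
  k142 8 (.s k93 k174 12 (.s k158 k28 8 (.d k109 k125 k60 3 12))))] .n) .n))) .n))))) .n))))) (.c
  k39 (.q k27 [(.s k4 k8 1 (.s k134 k199 8 (.s k77 k142 8 (.d k73 k65 k195 1 10)))), (.s k8 k4 1 (.s
  k89 k251 12 (.s k166 k243 14 (.d k174 k162 k93 1 12)))), (.s k77 k142 8 (.s k93 k174 12 (.s k158
  k28 8 (.d k109 k125 k60 3 12))))] (.c k49 (.q k50 [(.s k4 k8 1 (.s k134 k199 8 (.s k77 k142 8 (.d
  k73 k65 k195 1 10)))), (.s k8 k4 1 (.s k89 k251 12 (.s k166 k243 14 (.d k174 k162 k93 1 12)))),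
  (.s k77 k142 8 (.s k93 k174 12 (.s k158 k28 8 (.d k109 k125 k60 3 12))))] .n) (.c k50 (.q k49 [(.s
  k4 k8 1 (.s k134 k199 8 (.s k77 k142 8 (.d k73 k65 k195 1 10)))), (.s k8 k4 1 (.s k89 k251 12 (.s
  k166 k243 14 (.d k174 k162 k93 1 12)))), (.s k77 k142 8 (.s k93 k174 12 (.s k158 k28 8 (.d k109
  k125 k60 3 12))))] (.c k14 (.q k38 [(.s k4 k8 1 (.s k134 k199 8 (.s k77 k142 8 (.d k73 k65 k195 1
  10)))), (.s k8 k4 1 (.s k89 k251 12 (.s k166 k243 14 (.d k174 k162 k93 1 12)))), (.s k77 k142 8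
  (.s k93 k174 12 (.s k158 k28 8 (.d k109 k125 k60 3 12))))] .n) (.c k38 (.q k14 [(.s k4 k8 1 (.s
  k134 k199 8 (.s k77 k142 8 (.d k73 k65 k195 1 10)))), (.s k8 k4 1 (.s k89 k251 12 (.s k166 k243 14
  (.d k174 k162 k93 1 12)))), (.s k77 k142 8 (.s k93 k174 12 (.s k158 k28 8 (.d k109 k125 k60 3
  12))))] .n) .n))) .n))) (.c k49 (.q k50 [(.s k4 k8 1 (.s k134 k199 8 (.s k77 k142 8 (.d k73 k65
  k195 1 10)))), (.s k8 k4 1 (.s k89 k251 12 (.s k166 k243 14 (.d k174 k162 k93 1 12)))), (.s k77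
  k142 8 (.s k93 k174 12 (.s k158 k28 8 (.d k109 k125 k60 3 12))))] (.c k27 (.q k39 [(.s k4 k8 1 (.s
  k134 k199 8 (.s k77 k142 8 (.d k73 k65 k195 1 10)))), (.s k8 k4 1 (.s k89 k251 12 (.s k166 k243 14
  (.d k174 k162 k93 1 12)))), (.s k77 k142 8 (.s k93 k174 12 (.s k158 k28 8 (.d k109 k125 k60 3
  12))))] (.c k24 (.q k25 [(.s k4 k8 1 (.s k134 k199 8 (.s k77 k142 8 (.d k73 k65 k195 1 10)))), (.s
  k8 k4 1 (.s k89 k251 12 (.s k166 k243 14 (.d k174 k162 k93 1 12)))), (.s k77 k142 8 (.s k93 k174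
  12 (.s k158 k28 8 (.d k109 k125 k60 3 12))))] .n) (.c k25 (.q k24 [(.s k4 k8 1 (.s k134 k199 8 (.s
  k77 k142 8 (.d k73 k65 k195 1 10)))), (.s k8 k4 1 (.s k89 k251 12 (.s k166 k243 14 (.d k174 k162
  k93 1 12)))), (.s k77 k142 8 (.s k93 k174 12 (.s k158 k28 8 (.d k109 k125 k60 3 12))))] .n) .n)))
  (.c k39 (.q k27 [(.s k4 k8 1 (.s k134 k199 8 (.s k77 k142 8 (.d k73 k65 k195 1 10)))), (.s k8 k4 1
  (.s k89 k251 12 (.s k166 k243 14 (.d k174 k162 k93 1 12)))), (.s k77 k142 8 (.s k93 k174 12 (.s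
  k158 k28 8 (.d k109 k125 k60 3 12))))] .n) .n))) (.c k50 (.q k49 [(.s k4 k8 1 (.s k134 k199 8 (.s
  k77 k142 8 (.d k73 k65 k195 1 10)))), (.s k8 k4 1 (.s k89 k251 12 (.s k166 k243 14 (.d k174 k162
  k93 1 12)))), (.s k77 k142 8 (.s k93 k174 12 (.s k158 k28 8 (.d k109 k125 k60 3 12))))] (.c k14
  (.q k38 [(.s k4 k8 1 (.s k134 k199 8 (.s k77 k142 8 (.d k73 k65 k195 1 10)))), (.s k8 k4 1 (.s k89
  k251 12 (.s k166 k243 14 (.d k174 k162 k93 1 12)))), (.s k77 k142 8 (.s k93 k174 12 (.s k158 k28 8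
  (.d k109 k125 k60 3 12))))] (.c k27 (.l (.s k39 k36 0 (.s k4 k8 1 (.s k134 k199 8 (.s k73 k195 10
  (.d k77 k65 k142 1 8)))))) (.c k39 (.q k27 [(.s k4 k8 1 (.s k134 k199 8 (.s k77 k142 8 (.d k73 k65
  k195 1 10)))), (.s k8 k4 1 (.s k89 k251 12 (.s k166 k243 14 (.d k174 k162 k93 1 12)))), (.s k77
  k142 8 (.s k93 k174 12 (.s k158 k28 8 (.d k109 k125 k60 3 12))))] .n) .n))) (.c k27 (.q k39 [(.s
  k4 k8 1 (.s k134 k199 8 (.s k77 k142 8 (.d k73 k65 k195 1 10)))), (.s k8 k4 1 (.s k89 k251 12 (.s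
  k166 k243 14 (.d k174 k162 k93 1 12)))), (.s k77 k142 8 (.s k93 k174 12 (.s k158 k28 8 (.d k109
  k125 k60 3 12))))] (.c k14 (.l (.s k38 k36 0 (.s k4 k8 1 (.s k134 k199 8 (.s k73 k195 10 (.d k77
  k65 k142 1 8)))))) (.c k24 (.l (.s k25 k13 5 (.s k4 k8 1 (.s k134 k199 8 (.s k73 k195 10 (.d k77
  k65 k142 1 8)))))) (.c k25 (.q k24 [(.s k4 k8 1 (.s k134 k199 8 (.s k77 k142 8 (.d k73 k65 k195 1
  10)))), (.s k8 k4 1 (.s k89 k251 12 (.s k166 k243 14 (.d k174 k162 k93 1 12)))), (.s k77 k142 8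
  (.s k93 k174 12 (.s k158 k28 8 (.d k109 k125 k60 3 12))))] (.c k14 (.l (.s k38 k36 0 (.s k4 k8 1
  (.s k134 k199 8 (.s k73 k195 10 (.d k77 k65 k142 1 8)))))) (.c k38 (.q k14 [(.s k4 k8 1 (.s k134
  k199 8 (.s k77 k142 8 (.d k73 k65 k195 1 10)))), (.s k8 k4 1 (.s k89 k251 12 (.s k166 k243 14 (.d
  k174 k162 k93 1 12)))), (.s k77 k142 8 (.s k93 k174 12 (.s k158 k28 8 (.d k109 k125 k60 3 12))))]
  .n) .n))) (.c k38 (.q k14 [(.s k4 k8 1 (.s k134 k199 8 (.s k77 k142 8 (.d k73 k65 k195 1 10)))),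
  (.s k8 k4 1 (.s k89 k251 12 (.s k166 k243 14 (.d k174 k162 k93 1 12)))), (.s k77 k142 8 (.s k93
  k174 12 (.s k158 k28 8 (.d k109 k125 k60 3 12))))] (.c k24 (.l (.s k25 k13 5 (.s k4 k8 1 (.s k134
  k199 8 (.s k73 k195 10 (.d k77 k65 k142 1 8)))))) (.c k25 (.q k24 [(.s k4 k8 1 (.s k134 k199 8 (.s
  k77 k142 8 (.d k73 k65 k195 1 10)))), (.s k8 k4 1 (.s k89 k251 12 (.s k166 k243 14 (.d k174 k162
  k93 1 12)))), (.s k77 k142 8 (.s k93 k174 12 (.s k158 k28 8 (.d k109 k125 k60 3 12))))] .n) .n)))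
  .n))))) (.c k38 (.q k14 [(.s k4 k8 1 (.s k134 k199 8 (.s k77 k142 8 (.d k73 k65 k195 1 10)))), (.s
  k8 k4 1 (.s k89 k251 12 (.s k166 k243 14 (.d k174 k162 k93 1 12)))), (.s k77 k142 8 (.s k93 k174
  12 (.s k158 k28 8 (.d k109 k125 k60 3 12))))] (.c k27 (.q k39 [(.s k4 k8 1 (.s k134 k199 8 (.s k77
  k142 8 (.d k73 k65 k195 1 10)))), (.s k8 k4 1 (.s k89 k251 12 (.s k166 k243 14 (.d k174 k162 k93 1
  12)))), (.s k77 k142 8 (.s k93 k174 12 (.s k158 k28 8 (.d k109 k125 k60 3 12))))] (.c k24 (.l (.s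
  k25 k13 5 (.s k4 k8 1 (.s k134 k199 8 (.s k73 k195 10 (.d k77 k65 k142 1 8)))))) (.c k25 (.q k24
  [(.s k4 k8 1 (.s k134 k199 8 (.s k77 k142 8 (.d k73 k65 k195 1 10)))), (.s k8 k4 1 (.s k89 k251 12
  (.s k166 k243 14 (.d k174 k162 k93 1 12)))), (.s k77 k142 8 (.s k93 k174 12 (.s k158 k28 8 (.d
  k109 k125 k60 3 12))))] .n) .n))) (.c k39 (.q k27 [(.s k4 k8 1 (.s k134 k199 8 (.s k77 k142 8 (.d
  k73 k65 k195 1 10)))), (.s k8 k4 1 (.s k89 k251 12 (.s k166 k243 14 (.d k174 k162 k93 1 12)))),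
  (.s k77 k142 8 (.s k93 k174 12 (.s k158 k28 8 (.d k109 k125 k60 3 12))))] .n) .n))) (.c k39 (.q
  k27 [(.s k4 k8 1 (.s k134 k199 8 (.s k77 k142 8 (.d k73 k65 k195 1 10)))), (.s k8 k4 1 (.s k89
  k251 12 (.s k166 k243 14 (.d k174 k162 k93 1 12)))), (.s k77 k142 8 (.s k93 k174 12 (.s k158 k28 8
  (.d k109 k125 k60 3 12))))] (.c k14 (.q k38 [(.s k4 k8 1 (.s k134 k199 8 (.s k77 k142 8 (.d k73
  k65 k195 1 10)))), (.s k8 k4 1 (.s k89 k251 12 (.s k166 k243 14 (.d k174 k162 k93 1 12)))), (.s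
  k77 k142 8 (.s k93 k174 12 (.s k158 k28 8 (.d k109 k125 k60 3 12))))] .n) (.c k38 (.q k14 [(.s k4
  k8 1 (.s k134 k199 8 (.s k77 k142 8 (.d k73 k65 k195 1 10)))), (.s k8 k4 1 (.s k89 k251 12 (.s
  k166 k243 14 (.d k174 k162 k93 1 12)))), (.s k77 k142 8 (.s k93 k174 12 (.s k158 k28 8 (.d k109
  k125 k60 3 12))))] .n) .n))) .n))))) .n))))) (.c k27 (.q k39 [(.s k4 k8 1 (.s k134 k199 8 (.s k77
  k142 8 (.d k73 k65 k195 1 10)))), (.s k8 k4 1 (.s k89 k251 12 (.s k166 k243 14 (.d k174 k162 k93 1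
  12)))), (.s k77 k142 8 (.s k93 k174 12 (.s k158 k28 8 (.d k109 k125 k60 3 12))))] (.c k26 (.q k37
  [(.s k4 k8 1 (.s k134 k199 8 (.s k77 k142 8 (.d k73 k65 k195 1 10)))), (.s k8 k4 1 (.s k89 k251 12
  (.s k166 k243 14 (.d k174 k162 k93 1 12)))), (.s k77 k142 8 (.s k93 k174 12 (.s k158 k28 8 (.d
  k109 k125 k60 3 12))))] (.c k24 (.q k25 [(.s k4 k8 1 (.s k134 k199 8 (.s k77 k142 8 (.d k73 k65
  k195 1 10)))), (.s k8 k4 1 (.s k89 k251 12 (.s k166 k243 14 (.d k174 k162 k93 1 12)))), (.s k77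
  k142 8 (.s k93 k174 12 (.s k158 k28 8 (.d k109 k125 k60 3 12))))] (.c k49 (.q k50 [(.s k4 k8 1 (.s
  k134 k199 8 (.s k77 k142 8 (.d k73 k65 k195 1 10)))), (.s k8 k4 1 (.s k89 k251 12 (.s k166 k243 14
  (.d k174 k162 k93 1 12)))), (.s k77 k142 8 (.s k93 k174 12 (.s k158 k28 8 (.d k109 k125 k60 3
  12))))] .n) (.c k50 (.l (.s k49 k13 5 (.s k4 k8 1 (.s k134 k199 8 (.s k73 k195 10 (.d k77 k65 k142
  1 8)))))) .n))) (.c k25 (.q k24 [(.s k4 k8 1 (.s k134 k199 8 (.s k77 k142 8 (.d k73 k65 k195 1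
  10)))), (.s k8 k4 1 (.s k89 k251 12 (.s k166 k243 14 (.d k174 k162 k93 1 12)))), (.s k77 k142 8
  (.s k93 k174 12 (.s k158 k28 8 (.d k109 k125 k60 3 12))))] (.c k49 (.q k50 [(.s k4 k8 1 (.s k134
  k199 8 (.s k77 k142 8 (.d k73 k65 k195 1 10)))), (.s k8 k4 1 (.s k89 k251 12 (.s k166 k243 14 (.d
  k174 k162 k93 1 12)))), (.s k77 k142 8 (.s k93 k174 12 (.s k158 k28 8 (.d k109 k125 k60 3 12))))]
  .n) (.c k50 (.q k49 [(.s k4 k8 1 (.s k134 k199 8 (.s k77 k142 8 (.d k73 k65 k195 1 10)))), (.s k8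
  k4 1 (.s k89 k251 12 (.s k166 k243 14 (.d k174 k162 k93 1 12)))), (.s k77 k142 8 (.s k93 k174 12
  (.s k158 k28 8 (.d k109 k125 k60 3 12))))] (.c k14 (.l (.s k38 k36 0 (.s k4 k8 1 (.s k134 k199 8
  (.s k73 k195 10 (.d k77 k65 k142 1 8)))))) (.c k38 (.q k14 [(.s k4 k8 1 (.s k134 k199 8 (.s k77
  k142 8 (.d k73 k65 k195 1 10)))), (.s k8 k4 1 (.s k89 k251 12 (.s k166 k243 14 (.d k174 k162 k93 1
  12)))), (.s k77 k142 8 (.s k93 k174 12 (.s k158 k28 8 (.d k109 k125 k60 3 12))))] .n) .n))) .n)))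
  (.c k49 (.q k50 [(.s k4 k8 1 (.s k134 k199 8 (.s k77 k142 8 (.d k73 k65 k195 1 10)))), (.s k8 k4 1
  (.s k89 k251 12 (.s k166 k243 14 (.d k174 k162 k93 1 12)))), (.s k77 k142 8 (.s k93 k174 12 (.s
  k158 k28 8 (.d k109 k125 k60 3 12))))] (.c k24 (.q k25 [(.s k4 k8 1 (.s k134 k199 8 (.s k77 k142 8
  (.d k73 k65 k195 1 10)))), (.s k8 k4 1 (.s k89 k251 12 (.s k166 k243 14 (.d k174 k162 k93 1
  12)))), (.s k77 k142 8 (.s k93 k174 12 (.s k158 k28 8 (.d k109 k125 k60 3 12))))] .n) (.c k25 (.q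
  k24 [(.s k4 k8 1 (.s k134 k199 8 (.s k77 k142 8 (.d k73 k65 k195 1 10)))), (.s k8 k4 1 (.s k89
  k251 12 (.s k166 k243 14 (.d k174 k162 k93 1 12)))), (.s k77 k142 8 (.s k93 k174 12 (.s k158 k28 8
  (.d k109 k125 k60 3 12))))] .n) .n))) (.c k50 (.q k49 [(.s k4 k8 1 (.s k134 k199 8 (.s k77 k142 8
  (.d k73 k65 k195 1 10)))), (.s k8 k4 1 (.s k89 k251 12 (.s k166 k243 14 (.d k174 k162 k93 1
  12)))), (.s k77 k142 8 (.s k93 k174 12 (.s k158 k28 8 (.d k109 k125 k60 3 12))))] (.c k14 (.l (.s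
  k38 k36 0 (.s k4 k8 1 (.s k134 k199 8 (.s k73 k195 10 (.d k77 k65 k142 1 8)))))) (.c k24 (.l (.s
  k25 k13 5 (.s k4 k8 1 (.s k134 k199 8 (.s k73 k195 10 (.d k77 k65 k142 1 8)))))) (.c k25 (.q k24
  [(.s k4 k8 1 (.s k134 k199 8 (.s k77 k142 8 (.d k73 k65 k195 1 10)))), (.s k8 k4 1 (.s k89 k251 12
  (.s k166 k243 14 (.d k174 k162 k93 1 12)))), (.s k77 k142 8 (.s k93 k174 12 (.s k158 k28 8 (.d
  k109 k125 k60 3 12))))] (.c k14 (.l (.s k38 k36 0 (.s k4 k8 1 (.s k134 k199 8 (.s k73 k195 10 (.d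
  k77 k65 k142 1 8)))))) (.c k38 (.q k14 [(.s k4 k8 1 (.s k134 k199 8 (.s k77 k142 8 (.d k73 k65
  k195 1 10)))), (.s k8 k4 1 (.s k89 k251 12 (.s k166 k243 14 (.d k174 k162 k93 1 12)))), (.s k77
  k142 8 (.s k93 k174 12 (.s k158 k28 8 (.d k109 k125 k60 3 12))))] .n) .n))) (.c k38 (.q k14 [(.s
  k4 k8 1 (.s k134 k199 8 (.s k77 k142 8 (.d k73 k65 k195 1 10)))), (.s k8 k4 1 (.s k89 k251 12 (.s
  k166 k243 14 (.d k174 k162 k93 1 12)))), (.s k77 k142 8 (.s k93 k174 12 (.s k158 k28 8 (.d k109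
  k125 k60 3 12))))] (.c k24 (.l (.s k25 k13 5 (.s k4 k8 1 (.s k134 k199 8 (.s k73 k195 10 (.d k77
  k65 k142 1 8)))))) (.c k25 (.q k24 [(.s k4 k8 1 (.s k134 k199 8 (.s k77 k142 8 (.d k73 k65 k195 1
  10)))), (.s k8 k4 1 (.s k89 k251 12 (.s k166 k243 14 (.d k174 k162 k93 1 12)))), (.s k77 k142 8
  (.s k93 k174 12 (.s k158 k28 8 (.d k109 k125 k60 3 12))))] .n) .n))) .n))))) .n))))) (.c k37 (.q
  k26 [(.s k4 k8 1 (.s k134 k199 8 (.s k77 k142 8 (.d k73 k65 k195 1 10)))), (.s k8 k4 1 (.s k89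
  k251 12 (.s k166 k243 14 (.d k174 k162 k93 1 12)))), (.s k77 k142 8 (.s k93 k174 12 (.s k158 k28 8
  (.d k109 k125 k60 3 12))))] (.c k49 (.q k50 [(.s k4 k8 1 (.s k134 k199 8 (.s k77 k142 8 (.d k73
  k65 k195 1 10)))), (.s k8 k4 1 (.s k89 k251 12 (.s k166 k243 14 (.d k174 k162 k93 1 12)))), (.s
  k77 k142 8 (.s k93 k174 12 (.s k158 k28 8 (.d k109 k125 k60 3 12))))] (.c k13 (.q k25 [(.s k4 k8 1
  (.s k134 k199 8 (.s k77 k142 8 (.d k73 k65 k195 1 10)))), (.s k8 k4 1 (.s k89 k251 12 (.s k166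
  k243 14 (.d k174 k162 k93 1 12)))), (.s k77 k142 8 (.s k93 k174 12 (.s k158 k28 8 (.d k109 k125
  k60 3 12))))] .n) (.c k25 (.q k13 [(.s k4 k8 1 (.s k134 k199 8 (.s k77 k142 8 (.d k73 k65 k195 1
  10)))), (.s k8 k4 1 (.s k89 k251 12 (.s k166 k243 14 (.d k174 k162 k93 1 12)))), (.s k77 k142 8
  (.s k93 k174 12 (.s k158 k28 8 (.d k109 k125 k60 3 12))))] .n) .n))) (.c k50 (.q k49 [(.s k4 k8 1
  (.s k134 k199 8 (.s k77 k142 8 (.d k73 k65 k195 1 10)))), (.s k8 k4 1 (.s k89 k251 12 (.s k166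
  k243 14 (.d k174 k162 k93 1 12)))), (.s k77 k142 8 (.s k93 k174 12 (.s k158 k28 8 (.d k109 k125
  k60 3 12))))] .n) .n))) (.c k49 (.q k50 [(.s k4 k8 1 (.s k134 k199 8 (.s k77 k142 8 (.d k73 k65
  k195 1 10)))), (.s k8 k4 1 (.s k89 k251 12 (.s k166 k243 14 (.d k174 k162 k93 1 12)))), (.s k77
  k142 8 (.s k93 k174 12 (.s k158 k28 8 (.d k109 k125 k60 3 12))))] (.c k26 (.q k37 [(.s k4 k8 1 (.s
  k134 k199 8 (.s k77 k142 8 (.d k73 k65 k195 1 10)))), (.s k8 k4 1 (.s k89 k251 12 (.s k166 k243 14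
  (.d k174 k162 k93 1 12)))), (.s k77 k142 8 (.s k93 k174 12 (.s k158 k28 8 (.d k109 k125 k60 3
  12))))] (.c k24 (.q k25 [(.s k4 k8 1 (.s k134 k199 8 (.s k77 k142 8 (.d k73 k65 k195 1 10)))), (.s
  k8 k4 1 (.s k89 k251 12 (.s k166 k243 14 (.d k174 k162 k93 1 12)))), (.s k77 k142 8 (.s k93 k174
  12 (.s k158 k28 8 (.d k109 k125 k60 3 12))))] .n) (.c k25 (.q k24 [(.s k4 k8 1 (.s k134 k199 8 (.s
  k77 k142 8 (.d k73 k65 k195 1 10)))), (.s k8 k4 1 (.s k89 k251 12 (.s k166 k243 14 (.d k174 k162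
  k93 1 12)))), (.s k77 k142 8 (.s k93 k174 12 (.s k158 k28 8 (.d k109 k125 k60 3 12))))] .n) .n)))
  (.c k37 (.q k26 [(.s k4 k8 1 (.s k134 k199 8 (.s k77 k142 8 (.d k73 k65 k195 1 10)))), (.s k8 k4 1
  (.s k89 k251 12 (.s k166 k243 14 (.d k174 k162 k93 1 12)))), (.s k77 k142 8 (.s k93 k174 12 (.s
  k158 k28 8 (.d k109 k125 k60 3 12))))] (.c k13 (.q k25 [(.s k4 k8 1 (.s k134 k199 8 (.s k77 k142 8
  (.d k73 k65 k195 1 10)))), (.s k8 k4 1 (.s k89 k251 12 (.s k166 k243 14 (.d k174 k162 k93 1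
  12)))), (.s k77 k142 8 (.s k93 k174 12 (.s k158 k28 8 (.d k109 k125 k60 3 12))))] .n) (.c k25 (.q
  k13 [(.s k4 k8 1 (.s k134 k199 8 (.s k77 k142 8 (.d k73 k65 k195 1 10)))), (.s k8 k4 1 (.s k89
  k251 12 (.s k166 k243 14 (.d k174 k162 k93 1 12)))), (.s k77 k142 8 (.s k93 k174 12 (.s k158 k28 8
  (.d k109 k125 k60 3 12))))] .n) .n))) .n))) (.c k50 (.q k49 [(.s k4 k8 1 (.s k134 k199 8 (.s k77
  k142 8 (.d k73 k65 k195 1 10)))), (.s k8 k4 1 (.s k89 k251 12 (.s k166 k243 14 (.d k174 k162 k93 1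
  12)))), (.s k77 k142 8 (.s k93 k174 12 (.s k158 k28 8 (.d k109 k125 k60 3 12))))] (.c k26 (.q k37
  [(.s k4 k8 1 (.s k134 k199 8 (.s k77 k142 8 (.d k73 k65 k195 1 10)))), (.s k8 k4 1 (.s k89 k251 12
  (.s k166 k243 14 (.d k174 k162 k93 1 12)))), (.s k77 k142 8 (.s k93 k174 12 (.s k158 k28 8 (.d
  k109 k125 k60 3 12))))] (.c k14 (.l (.s k38 k36 0 (.s k4 k8 1 (.s k134 k199 8 (.s k73 k195 10 (.d
  k77 k65 k142 1 8)))))) (.c k24 (.l (.s k25 k13 5 (.s k4 k8 1 (.s k134 k199 8 (.s k73 k195 10 (.d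
  k77 k65 k142 1 8)))))) (.c k25 (.q k24 [(.s k4 k8 1 (.s k134 k199 8 (.s k77 k142 8 (.d k73 k65
  k195 1 10)))), (.s k8 k4 1 (.s k89 k251 12 (.s k166 k243 14 (.d k174 k162 k93 1 12)))), (.s k77
  k142 8 (.s k93 k174 12 (.s k158 k28 8 (.d k109 k125 k60 3 12))))] (.c k14 (.l (.s k38 k36 0 (.s k4
  k8 1 (.s k134 k199 8 (.s k73 k195 10 (.d k77 k65 k142 1 8)))))) (.c k38 (.q k14 [(.s k4 k8 1 (.s
  k134 k199 8 (.s k77 k142 8 (.d k73 k65 k195 1 10)))), (.s k8 k4 1 (.s k89 k251 12 (.s k166 k243 14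
  (.d k174 k162 k93 1 12)))), (.s k77 k142 8 (.s k93 k174 12 (.s k158 k28 8 (.d k109 k125 k60 3
  12))))] .n) .n))) (.c k38 (.q k14 [(.s k4 k8 1 (.s k134 k199 8 (.s k77 k142 8 (.d k73 k65 k195 1
  10)))), (.s k8 k4 1 (.s k89 k251 12 (.s k166 k243 14 (.d k174 k162 k93 1 12)))), (.s k77 k142 8
  (.s k93 k174 12 (.s k158 k28 8 (.d k109 k125 k60 3 12))))] (.c k24 (.l (.s k25 k13 5 (.s k4 k8 1
  (.s k134 k199 8 (.s k73 k195 10 (.d k77 k65 k142 1 8)))))) (.c k25 (.q k24 [(.s k4 k8 1 (.s k134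
  k199 8 (.s k77 k142 8 (.d k73 k65 k195 1 10)))), (.s k8 k4 1 (.s k89 k251 12 (.s k166 k243 14 (.d
  k174 k162 k93 1 12)))), (.s k77 k142 8 (.s k93 k174 12 (.s k158 k28 8 (.d k109 k125 k60 3 12))))]
  .n) .n))) .n))))) (.c k37 (.q k26 [(.s k4 k8 1 (.s k134 k199 8 (.s k77 k142 8 (.d k73 k65 k195 1
  10)))), (.s k8 k4 1 (.s k89 k251 12 (.s k166 k243 14 (.d k174 k162 k93 1 12)))), (.s k77 k142 8
  (.s k93 k174 12 (.s k158 k28 8 (.d k109 k125 k60 3 12))))] .n) .n))) .n))))) (.c k37 (.q k26 [(.s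
  k4 k8 1 (.s k134 k199 8 (.s k77 k142 8 (.d k73 k65 k195 1 10)))), (.s k8 k4 1 (.s k89 k251 12 (.s
  k166 k243 14 (.d k174 k162 k93 1 12)))), (.s k77 k142 8 (.s k93 k174 12 (.s k158 k28 8 (.d k109
  k125 k60 3 12))))] (.c k27 (.q k39 [(.s k4 k8 1 (.s k134 k199 8 (.s k77 k142 8 (.d k73 k65 k195 1
  10)))), (.s k8 k4 1 (.s k89 k251 12 (.s k166 k243 14 (.d k174 k162 k93 1 12)))), (.s k77 k142 8
  (.s k93 k174 12 (.s k158 k28 8 (.d k109 k125 k60 3 12))))] (.c k49 (.q k50 [(.s k4 k8 1 (.s k134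
  k199 8 (.s k77 k142 8 (.d k73 k65 k195 1 10)))), (.s k8 k4 1 (.s k89 k251 12 (.s k166 k243 14 (.d
  k174 k162 k93 1 12)))), (.s k77 k142 8 (.s k93 k174 12 (.s k158 k28 8 (.d k109 k125 k60 3 12))))]
  (.c k13 (.q k25 [(.s k4 k8 1 (.s k134 k199 8 (.s k77 k142 8 (.d k73 k65 k195 1 10)))), (.s k8 k4 1
  (.s k89 k251 12 (.s k166 k243 14 (.d k174 k162 k93 1 12)))), (.s k77 k142 8 (.s k93 k174 12 (.s
  k158 k28 8 (.d k109 k125 k60 3 12))))] .n) (.c k25 (.q k13 [(.s k4 k8 1 (.s k134 k199 8 (.s k77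
  k142 8 (.d k73 k65 k195 1 10)))), (.s k8 k4 1 (.s k89 k251 12 (.s k166 k243 14 (.d k174 k162 k93 1
  12)))), (.s k77 k142 8 (.s k93 k174 12 (.s k158 k28 8 (.d k109 k125 k60 3 12))))] .n) .n))) (.c
  k50 (.q k49 [(.s k4 k8 1 (.s k134 k199 8 (.s k77 k142 8 (.d k73 k65 k195 1 10)))), (.s k8 k4 1 (.s
  k89 k251 12 (.s k166 k243 14 (.d k174 k162 k93 1 12)))), (.s k77 k142 8 (.s k93 k174 12 (.s k158
  k28 8 (.d k109 k125 k60 3 12))))] .n) .n))) (.c k39 (.q k27 [(.s k4 k8 1 (.s k134 k199 8 (.s k77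
  k142 8 (.d k73 k65 k195 1 10)))), (.s k8 k4 1 (.s k89 k251 12 (.s k166 k243 14 (.d k174 k162 k93 1
  12)))), (.s k77 k142 8 (.s k93 k174 12 (.s k158 k28 8 (.d k109 k125 k60 3 12))))] (.c k36 (.q k38
  [(.s k4 k8 1 (.s k134 k199 8 (.s k77 k142 8 (.d k73 k65 k195 1 10)))), (.s k8 k4 1 (.s k89 k251 12
  (.s k166 k243 14 (.d k174 k162 k93 1 12)))), (.s k77 k142 8 (.s k93 k174 12 (.s k158 k28 8 (.d
  k109 k125 k60 3 12))))] (.c k49 (.l (.s k50 k14 5 (.s k4 k8 1 (.s k134 k199 8 (.s k73 k195 10 (.d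
  k77 k65 k142 1 8)))))) (.c k50 (.q k49 [(.s k4 k8 1 (.s k134 k199 8 (.s k77 k142 8 (.d k73 k65
  k195 1 10)))), (.s k8 k4 1 (.s k89 k251 12 (.s k166 k243 14 (.d k174 k162 k93 1 12)))), (.s k77
  k142 8 (.s k93 k174 12 (.s k158 k28 8 (.d k109 k125 k60 3 12))))] .n) .n))) (.c k38 (.q k36 [(.s
  k4 k8 1 (.s k134 k199 8 (.s k77 k142 8 (.d k73 k65 k195 1 10)))), (.s k8 k4 1 (.s k89 k251 12 (.s
  k166 k243 14 (.d k174 k162 k93 1 12)))), (.s k77 k142 8 (.s k93 k174 12 (.s k158 k28 8 (.d k109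
  k125 k60 3 12))))] (.c k49 (.q k50 [(.s k4 k8 1 (.s k134 k199 8 (.s k77 k142 8 (.d k73 k65 k195 1
  10)))), (.s k8 k4 1 (.s k89 k251 12 (.s k166 k243 14 (.d k174 k162 k93 1 12)))), (.s k77 k142 8
  (.s k93 k174 12 (.s k158 k28 8 (.d k109 k125 k60 3 12))))] (.c k13 (.l (.s k25 k24 0 (.s k4 k8 1
  (.s k134 k199 8 (.s k73 k195 10 (.d k77 k65 k142 1 8)))))) (.c k25 (.q k13 [(.s k4 k8 1 (.s k134
  k199 8 (.s k77 k142 8 (.d k73 k65 k195 1 10)))), (.s k8 k4 1 (.s k89 k251 12 (.s k166 k243 14 (.d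
  k174 k162 k93 1 12)))), (.s k77 k142 8 (.s k93 k174 12 (.s k158 k28 8 (.d k109 k125 k60 3 12))))]
  .n) .n))) (.c k50 (.q k49 [(.s k4 k8 1 (.s k134 k199 8 (.s k77 k142 8 (.d k73 k65 k195 1 10)))),
  (.s k8 k4 1 (.s k89 k251 12 (.s k166 k243 14 (.d k174 k162 k93 1 12)))), (.s k77 k142 8 (.s k93
  k174 12 (.s k158 k28 8 (.d k109 k125 k60 3 12))))] .n) .n))) (.c k49 (.q k50 [(.s k4 k8 1 (.s k134
  k199 8 (.s k77 k142 8 (.d k73 k65 k195 1 10)))), (.s k8 k4 1 (.s k89 k251 12 (.s k166 k243 14 (.d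
  k174 k162 k93 1 12)))), (.s k77 k142 8 (.s k93 k174 12 (.s k158 k28 8 (.d k109 k125 k60 3 12))))]
  (.c k13 (.l (.s k25 k24 0 (.s k4 k8 1 (.s k134 k199 8 (.s k73 k195 10 (.d k77 k65 k142 1 8))))))
  (.c k25 (.q k13 [(.s k4 k8 1 (.s k134 k199 8 (.s k77 k142 8 (.d k73 k65 k195 1 10)))), (.s k8 k4 1
  (.s k89 k251 12 (.s k166 k243 14 (.d k174 k162 k93 1 12)))), (.s k77 k142 8 (.s k93 k174 12 (.s
  k158 k28 8 (.d k109 k125 k60 3 12))))] (.c k36 (.l (.s k38 k14 5 (.s k4 k8 1 (.s k134 k199 8 (.s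
  k73 k195 10 (.d k77 k65 k142 1 8)))))) (.c k38 (.q k36 [(.s k4 k8 1 (.s k134 k199 8 (.s k77 k142 8
  (.d k73 k65 k195 1 10)))), (.s k8 k4 1 (.s k89 k251 12 (.s k166 k243 14 (.d k174 k162 k93 1
  12)))), (.s k77 k142 8 (.s k93 k174 12 (.s k158 k28 8 (.d k109 k125 k60 3 12))))] .n) .n))) (.c
  k36 (.l (.s k38 k14 5 (.s k4 k8 1 (.s k134 k199 8 (.s k73 k195 10 (.d k77 k65 k142 1 8)))))) (.c
  k38 (.q k36 [(.s k4 k8 1 (.s k134 k199 8 (.s k77 k142 8 (.d k73 k65 k195 1 10)))), (.s k8 k4 1 (.s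
  k89 k251 12 (.s k166 k243 14 (.d k174 k162 k93 1 12)))), (.s k77 k142 8 (.s k93 k174 12 (.s k158
  k28 8 (.d k109 k125 k60 3 12))))] (.c k13 (.l (.s k25 k24 0 (.s k4 k8 1 (.s k134 k199 8 (.s k73
  k195 10 (.d k77 k65 k142 1 8)))))) (.c k25 (.q k13 [(.s k4 k8 1 (.s k134 k199 8 (.s k77 k142 8 (.d
  k73 k65 k195 1 10)))), (.s k8 k4 1 (.s k89 k251 12 (.s k166 k243 14 (.d k174 k162 k93 1 12)))),
  (.s k77 k142 8 (.s k93 k174 12 (.s k158 k28 8 (.d k109 k125 k60 3 12))))] .n) .n))) .n))))) (.c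
  k50 (.q k49 [(.s k4 k8 1 (.s k134 k199 8 (.s k77 k142 8 (.d k73 k65 k195 1 10)))), (.s k8 k4 1 (.s
  k89 k251 12 (.s k166 k243 14 (.d k174 k162 k93 1 12)))), (.s k77 k142 8 (.s k93 k174 12 (.s k158
  k28 8 (.d k109 k125 k60 3 12))))] (.c k36 (.q k38 [(.s k4 k8 1 (.s k134 k199 8 (.s k77 k142 8 (.d
  k73 k65 k195 1 10)))), (.s k8 k4 1 (.s k89 k251 12 (.s k166 k243 14 (.d k174 k162 k93 1 12)))),
  (.s k77 k142 8 (.s k93 k174 12 (.s k158 k28 8 (.d k109 k125 k60 3 12))))] .n) (.c k38 (.q k36 [(.s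
  k4 k8 1 (.s k134 k199 8 (.s k77 k142 8 (.d k73 k65 k195 1 10)))), (.s k8 k4 1 (.s k89 k251 12 (.s
  k166 k243 14 (.d k174 k162 k93 1 12)))), (.s k77 k142 8 (.s k93 k174 12 (.s k158 k28 8 (.d k109
  k125 k60 3 12))))] .n) .n))) .n))))) (.c k49 (.q k50 [(.s k4 k8 1 (.s k134 k199 8 (.s k77 k142 8
  (.d k73 k65 k195 1 10)))), (.s k8 k4 1 (.s k89 k251 12 (.s k166 k243 14 (.d k174 k162 k93 1
  12)))), (.s k77 k142 8 (.s k93 k174 12 (.s k158 k28 8 (.d k109 k125 k60 3 12))))] (.c k13 (.q k25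
  [(.s k4 k8 1 (.s k134 k199 8 (.s k77 k142 8 (.d k73 k65 k195 1 10)))), (.s k8 k4 1 (.s k89 k251 12
  (.s k166 k243 14 (.d k174 k162 k93 1 12)))), (.s k77 k142 8 (.s k93 k174 12 (.s k158 k28 8 (.d
  k109 k125 k60 3 12))))] (.c k27 (.q k39 [(.s k4 k8 1 (.s k134 k199 8 (.s k77 k142 8 (.d k73 k65
  k195 1 10)))), (.s k8 k4 1 (.s k89 k251 12 (.s k166 k243 14 (.d k174 k162 k93 1 12)))), (.s k77
  k142 8 (.s k93 k174 12 (.s k158 k28 8 (.d k109 k125 k60 3 12))))] .n) (.c k39 (.l (.s k27 k24 0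
  (.s k4 k8 1 (.s k134 k199 8 (.s k73 k195 10 (.d k77 k65 k142 1 8)))))) .n))) (.c k25 (.q k13 [(.s
  k4 k8 1 (.s k134 k199 8 (.s k77 k142 8 (.d k73 k65 k195 1 10)))), (.s k8 k4 1 (.s k89 k251 12 (.s
  k166 k243 14 (.d k174 k162 k93 1 12)))), (.s k77 k142 8 (.s k93 k174 12 (.s k158 k28 8 (.d k109
  k125 k60 3 12))))] (.c k27 (.q k39 [(.s k4 k8 1 (.s k134 k199 8 (.s k77 k142 8 (.d k73 k65 k195 1
  10)))), (.s k8 k4 1 (.s k89 k251 12 (.s k166 k243 14 (.d k174 k162 k93 1 12)))), (.s k77 k142 8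
  (.s k93 k174 12 (.s k158 k28 8 (.d k109 k125 k60 3 12))))] .n) (.c k39 (.q k27 [(.s k4 k8 1 (.s
  k134 k199 8 (.s k77 k142 8 (.d k73 k65 k195 1 10)))), (.s k8 k4 1 (.s k89 k251 12 (.s k166 k243 14
  (.d k174 k162 k93 1 12)))), (.s k77 k142 8 (.s k93 k174 12 (.s k158 k28 8 (.d k109 k125 k60 3
  12))))] (.c k36 (.l (.s k38 k14 5 (.s k4 k8 1 (.s k134 k199 8 (.s k73 k195 10 (.d k77 k65 k142 1
  8)))))) (.c k38 (.q k36 [(.s k4 k8 1 (.s k134 k199 8 (.s k77 k142 8 (.d k73 k65 k195 1 10)))), (.s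
  k8 k4 1 (.s k89 k251 12 (.s k166 k243 14 (.d k174 k162 k93 1 12)))), (.s k77 k142 8 (.s k93 k174
  12 (.s k158 k28 8 (.d k109 k125 k60 3 12))))] .n) .n))) .n))) (.c k27 (.q k39 [(.s k4 k8 1 (.s
  k134 k199 8 (.s k77 k142 8 (.d k73 k65 k195 1 10)))), (.s k8 k4 1 (.s k89 k251 12 (.s k166 k243 14
  (.d k174 k162 k93 1 12)))), (.s k77 k142 8 (.s k93 k174 12 (.s k158 k28 8 (.d k109 k125 k60 3
  12))))] (.c k13 (.q k25 [(.s k4 k8 1 (.s k134 k199 8 (.s k77 k142 8 (.d k73 k65 k195 1 10)))), (.s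
  k8 k4 1 (.s k89 k251 12 (.s k166 k243 14 (.d k174 k162 k93 1 12)))), (.s k77 k142 8 (.s k93 k174
  12 (.s k158 k28 8 (.d k109 k125 k60 3 12))))] .n) (.c k25 (.q k13 [(.s k4 k8 1 (.s k134 k199 8 (.s
  k77 k142 8 (.d k73 k65 k195 1 10)))), (.s k8 k4 1 (.s k89 k251 12 (.s k166 k243 14 (.d k174 k162
  k93 1 12)))), (.s k77 k142 8 (.s k93 k174 12 (.s k158 k28 8 (.d k109 k125 k60 3 12))))] .n) .n)))
  (.c k39 (.q k27 [(.s k4 k8 1 (.s k134 k199 8 (.s k77 k142 8 (.d k73 k65 k195 1 10)))), (.s k8 k4 1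
  (.s k89 k251 12 (.s k166 k243 14 (.d k174 k162 k93 1 12)))), (.s k77 k142 8 (.s k93 k174 12 (.s
  k158 k28 8 (.d k109 k125 k60 3 12))))] (.c k13 (.l (.s k25 k24 0 (.s k4 k8 1 (.s k134 k199 8 (.s
  k73 k195 10 (.d k77 k65 k142 1 8)))))) (.c k25 (.q k13 [(.s k4 k8 1 (.s k134 k199 8 (.s k77 k142 8
  (.d k73 k65 k195 1 10)))), (.s k8 k4 1 (.s k89 k251 12 (.s k166 k243 14 (.d k174 k162 k93 1
  12)))), (.s k77 k142 8 (.s k93 k174 12 (.s k158 k28 8 (.d k109 k125 k60 3 12))))] (.c k36 (.l (.s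
  k38 k14 5 (.s k4 k8 1 (.s k134 k199 8 (.s k73 k195 10 (.d k77 k65 k142 1 8)))))) (.c k38 (.q k36
  [(.s k4 k8 1 (.s k134 k199 8 (.s k77 k142 8 (.d k73 k65 k195 1 10)))), (.s k8 k4 1 (.s k89 k251 12
  (.s k166 k243 14 (.d k174 k162 k93 1 12)))), (.s k77 k142 8 (.s k93 k174 12 (.s k158 k28 8 (.d
  k109 k125 k60 3 12))))] .n) .n))) (.c k36 (.l (.s k38 k14 5 (.s k4 k8 1 (.s k134 k199 8 (.s k73
  k195 10 (.d k77 k65 k142 1 8)))))) (.c k38 (.q k36 [(.s k4 k8 1 (.s k134 k199 8 (.s k77 k142 8 (.d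
  k73 k65 k195 1 10)))), (.s k8 k4 1 (.s k89 k251 12 (.s k166 k243 14 (.d k174 k162 k93 1 12)))),
  (.s k77 k142 8 (.s k93 k174 12 (.s k158 k28 8 (.d k109 k125 k60 3 12))))] (.c k13 (.l (.s k25 k24
  0 (.s k4 k8 1 (.s k134 k199 8 (.s k73 k195 10 (.d k77 k65 k142 1 8)))))) (.c k25 (.q k13 [(.s k4
  k8 1 (.s k134 k199 8 (.s k77 k142 8 (.d k73 k65 k195 1 10)))), (.s k8 k4 1 (.s k89 k251 12 (.s
  k166 k243 14 (.d k174 k162 k93 1 12)))), (.s k77 k142 8 (.s k93 k174 12 (.s k158 k28 8 (.d k109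
  k125 k60 3 12))))] .n) .n))) .n))))) .n))))) (.c k50 (.q k49 [(.s k4 k8 1 (.s k134 k199 8 (.s k77
  k142 8 (.d k73 k65 k195 1 10)))), (.s k8 k4 1 (.s k89 k251 12 (.s k166 k243 14 (.d k174 k162 k93 1
  12)))), (.s k77 k142 8 (.s k93 k174 12 (.s k158 k28 8 (.d k109 k125 k60 3 12))))] (.c k27 (.q k39
  [(.s k4 k8 1 (.s k134 k199 8 (.s k77 k142 8 (.d k73 k65 k195 1 10)))), (.s k8 k4 1 (.s k89 k251 12
  (.s k166 k243 14 (.d k174 k162 k93 1 12)))), (.s k77 k142 8 (.s k93 k174 12 (.s k158 k28 8 (.d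
  k109 k125 k60 3 12))))] .n) (.c k39 (.q k27 [(.s k4 k8 1 (.s k134 k199 8 (.s k77 k142 8 (.d k73
  k65 k195 1 10)))), (.s k8 k4 1 (.s k89 k251 12 (.s k166 k243 14 (.d k174 k162 k93 1 12)))), (.s
  k77 k142 8 (.s k93 k174 12 (.s k158 k28 8 (.d k109 k125 k60 3 12))))] (.c k36 (.q k38 [(.s k4 k8 1
  (.s k134 k199 8 (.s k77 k142 8 (.d k73 k65 k195 1 10)))), (.s k8 k4 1 (.s k89 k251 12 (.s k166
  k243 14 (.d k174 k162 k93 1 12)))), (.s k77 k142 8 (.s k93 k174 12 (.s k158 k28 8 (.d k109 k125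
  k60 3 12))))] .n) (.c k38 (.q k36 [(.s k4 k8 1 (.s k134 k199 8 (.s k77 k142 8 (.d k73 k65 k195 1
  10)))), (.s k8 k4 1 (.s k89 k251 12 (.s k166 k243 14 (.d k174 k162 k93 1 12)))), (.s k77 k142 8
  (.s k93 k174 12 (.s k158 k28 8 (.d k109 k125 k60 3 12))))] .n) .n))) .n))) .n))))) (.c k39 (.q k27
  [(.s k4 k8 1 (.s k134 k199 8 (.s k77 k142 8 (.d k73 k65 k195 1 10)))), (.s k8 k4 1 (.s k89 k251 12
  (.s k166 k243 14 (.d k174 k162 k93 1 12)))), (.s k77 k142 8 (.s k93 k174 12 (.s k158 k28 8 (.d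
  k109 k125 k60 3 12))))] (.c k26 (.q k37 [(.s k4 k8 1 (.s k134 k199 8 (.s k77 k142 8 (.d k73 k65
  k195 1 10)))), (.s k8 k4 1 (.s k89 k251 12 (.s k166 k243 14 (.d k174 k162 k93 1 12)))), (.s k77
  k142 8 (.s k93 k174 12 (.s k158 k28 8 (.d k109 k125 k60 3 12))))] (.c k49 (.q k50 [(.s k4 k8 1 (.s
  k134 k199 8 (.s k77 k142 8 (.d k73 k65 k195 1 10)))), (.s k8 k4 1 (.s k89 k251 12 (.s k166 k243 14
  (.d k174 k162 k93 1 12)))), (.s k77 k142 8 (.s k93 k174 12 (.s k158 k28 8 (.d k109 k125 k60 3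
  12))))] .n) (.c k50 (.q k49 [(.s k4 k8 1 (.s k134 k199 8 (.s k77 k142 8 (.d k73 k65 k195 1 10)))),
  (.s k8 k4 1 (.s k89 k251 12 (.s k166 k243 14 (.d k174 k162 k93 1 12)))), (.s k77 k142 8 (.s k93
  k174 12 (.s k158 k28 8 (.d k109 k125 k60 3 12))))] (.c k14 (.q k38 [(.s k4 k8 1 (.s k134 k199 8
  (.s k77 k142 8 (.d k73 k65 k195 1 10)))), (.s k8 k4 1 (.s k89 k251 12 (.s k166 k243 14 (.d k174
  k162 k93 1 12)))), (.s k77 k142 8 (.s k93 k174 12 (.s k158 k28 8 (.d k109 k125 k60 3 12))))] .n)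
  (.c k38 (.q k14 [(.s k4 k8 1 (.s k134 k199 8 (.s k77 k142 8 (.d k73 k65 k195 1 10)))), (.s k8 k4 1
  (.s k89 k251 12 (.s k166 k243 14 (.d k174 k162 k93 1 12)))), (.s k77 k142 8 (.s k93 k174 12 (.s
  k158 k28 8 (.d k109 k125 k60 3 12))))] .n) .n))) .n))) (.c k37 (.q k26 [(.s k4 k8 1 (.s k134 k199
  8 (.s k77 k142 8 (.d k73 k65 k195 1 10)))), (.s k8 k4 1 (.s k89 k251 12 (.s k166 k243 14 (.d k174
  k162 k93 1 12)))), (.s k77 k142 8 (.s k93 k174 12 (.s k158 k28 8 (.d k109 k125 k60 3 12))))] (.c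
  k36 (.q k38 [(.s k4 k8 1 (.s k134 k199 8 (.s k77 k142 8 (.d k73 k65 k195 1 10)))), (.s k8 k4 1 (.s
  k89 k251 12 (.s k166 k243 14 (.d k174 k162 k93 1 12)))), (.s k77 k142 8 (.s k93 k174 12 (.s k158
  k28 8 (.d k109 k125 k60 3 12))))] (.c k49 (.l (.s k50 k14 5 (.s k4 k8 1 (.s k134 k199 8 (.s k73
  k195 10 (.d k77 k65 k142 1 8)))))) (.c k50 (.q k49 [(.s k4 k8 1 (.s k134 k199 8 (.s k77 k142 8 (.d
  k73 k65 k195 1 10)))), (.s k8 k4 1 (.s k89 k251 12 (.s k166 k243 14 (.d k174 k162 k93 1 12)))),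
  (.s k77 k142 8 (.s k93 k174 12 (.s k158 k28 8 (.d k109 k125 k60 3 12))))] .n) .n))) (.c k38 (.q
  k36 [(.s k4 k8 1 (.s k134 k199 8 (.s k77 k142 8 (.d k73 k65 k195 1 10)))), (.s k8 k4 1 (.s k89
  k251 12 (.s k166 k243 14 (.d k174 k162 k93 1 12)))), (.s k77 k142 8 (.s k93 k174 12 (.s k158 k28 8
  (.d k109 k125 k60 3 12))))] (.c k49 (.q k50 [(.s k4 k8 1 (.s k134 k199 8 (.s k77 k142 8 (.d k73
  k65 k195 1 10)))), (.s k8 k4 1 (.s k89 k251 12 (.s k166 k243 14 (.d k174 k162 k93 1 12)))), (.s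
  k77 k142 8 (.s k93 k174 12 (.s k158 k28 8 (.d k109 k125 k60 3 12))))] (.c k13 (.l (.s k25 k24 0
  (.s k4 k8 1 (.s k134 k199 8 (.s k73 k195 10 (.d k77 k65 k142 1 8)))))) (.c k25 (.q k13 [(.s k4 k8
  1 (.s k134 k199 8 (.s k77 k142 8 (.d k73 k65 k195 1 10)))), (.s k8 k4 1 (.s k89 k251 12 (.s k166
  k243 14 (.d k174 k162 k93 1 12)))), (.s k77 k142 8 (.s k93 k174 12 (.s k158 k28 8 (.d k109 k125
  k60 3 12))))] .n) .n))) (.c k50 (.q k49 [(.s k4 k8 1 (.s k134 k199 8 (.s k77 k142 8 (.d k73 k65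
  k195 1 10)))), (.s k8 k4 1 (.s k89 k251 12 (.s k166 k243 14 (.d k174 k162 k93 1 12)))), (.s k77
  k142 8 (.s k93 k174 12 (.s k158 k28 8 (.d k109 k125 k60 3 12))))] .n) .n))) (.c k49 (.q k50 [(.s
  k4 k8 1 (.s k134 k199 8 (.s k77 k142 8 (.d k73 k65 k195 1 10)))), (.s k8 k4 1 (.s k89 k251 12 (.s
  k166 k243 14 (.d k174 k162 k93 1 12)))), (.s k77 k142 8 (.s k93 k174 12 (.s k158 k28 8 (.d k109
  k125 k60 3 12))))] (.c k13 (.l (.s k25 k24 0 (.s k4 k8 1 (.s k134 k199 8 (.s k73 k195 10 (.d k77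
  k65 k142 1 8)))))) (.c k25 (.q k13 [(.s k4 k8 1 (.s k134 k199 8 (.s k77 k142 8 (.d k73 k65 k195 1
  10)))), (.s k8 k4 1 (.s k89 k251 12 (.s k166 k243 14 (.d k174 k162 k93 1 12)))), (.s k77 k142 8
  (.s k93 k174 12 (.s k158 k28 8 (.d k109 k125 k60 3 12))))] (.c k36 (.l (.s k38 k14 5 (.s k4 k8 1
  (.s k134 k199 8 (.s k73 k195 10 (.d k77 k65 k142 1 8)))))) (.c k38 (.q k36 [(.s k4 k8 1 (.s k134
  k199 8 (.s k77 k142 8 (.d k73 k65 k195 1 10)))), (.s k8 k4 1 (.s k89 k251 12 (.s k166 k243 14 (.d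
  k174 k162 k93 1 12)))), (.s k77 k142 8 (.s k93 k174 12 (.s k158 k28 8 (.d k109 k125 k60 3 12))))]
  .n) .n))) (.c k36 (.l (.s k38 k14 5 (.s k4 k8 1 (.s k134 k199 8 (.s k73 k195 10 (.d k77 k65 k142 1
  8)))))) (.c k38 (.q k36 [(.s k4 k8 1 (.s k134 k199 8 (.s k77 k142 8 (.d k73 k65 k195 1 10)))), (.s
  k8 k4 1 (.s k89 k251 12 (.s k166 k243 14 (.d k174 k162 k93 1 12)))), (.s k77 k142 8 (.s k93 k174
  12 (.s k158 k28 8 (.d k109 k125 k60 3 12))))] (.c k13 (.l (.s k25 k24 0 (.s k4 k8 1 (.s k134 k199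
  8 (.s k73 k195 10 (.d k77 k65 k142 1 8)))))) (.c k25 (.q k13 [(.s k4 k8 1 (.s k134 k199 8 (.s k77
  k142 8 (.d k73 k65 k195 1 10)))), (.s k8 k4 1 (.s k89 k251 12 (.s k166 k243 14 (.d k174 k162 k93 1
  12)))), (.s k77 k142 8 (.s k93 k174 12 (.s k158 k28 8 (.d k109 k125 k60 3 12))))] .n) .n)))
  .n))))) (.c k50 (.q k49 [(.s k4 k8 1 (.s k134 k199 8 (.s k77 k142 8 (.d k73 k65 k195 1 10)))), (.s
  k8 k4 1 (.s k89 k251 12 (.s k166 k243 14 (.d k174 k162 k93 1 12)))), (.s k77 k142 8 (.s k93 k174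
  12 (.s k158 k28 8 (.d k109 k125 k60 3 12))))] (.c k36 (.q k38 [(.s k4 k8 1 (.s k134 k199 8 (.s k77
  k142 8 (.d k73 k65 k195 1 10)))), (.s k8 k4 1 (.s k89 k251 12 (.s k166 k243 14 (.d k174 k162 k93 1
  12)))), (.s k77 k142 8 (.s k93 k174 12 (.s k158 k28 8 (.d k109 k125 k60 3 12))))] .n) (.c k38 (.q
  k36 [(.s k4 k8 1 (.s k134 k199 8 (.s k77 k142 8 (.d k73 k65 k195 1 10)))), (.s k8 k4 1 (.s k89
  k251 12 (.s k166 k243 14 (.d k174 k162 k93 1 12)))), (.s k77 k142 8 (.s k93 k174 12 (.s k158 k28 8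
  (.d k109 k125 k60 3 12))))] .n) .n))) .n))))) (.c k49 (.q k50 [(.s k4 k8 1 (.s k134 k199 8 (.s k77
  k142 8 (.d k73 k65 k195 1 10)))), (.s k8 k4 1 (.s k89 k251 12 (.s k166 k243 14 (.d k174 k162 k93 1
  12)))), (.s k77 k142 8 (.s k93 k174 12 (.s k158 k28 8 (.d k109 k125 k60 3 12))))] (.c k26 (.q k37
  [(.s k4 k8 1 (.s k134 k199 8 (.s k77 k142 8 (.d k73 k65 k195 1 10)))), (.s k8 k4 1 (.s k89 k251 12
  (.s k166 k243 14 (.d k174 k162 k93 1 12)))), (.s k77 k142 8 (.s k93 k174 12 (.s k158 k28 8 (.d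
  k109 k125 k60 3 12))))] .n) (.c k37 (.q k26 [(.s k4 k8 1 (.s k134 k199 8 (.s k77 k142 8 (.d k73
  k65 k195 1 10)))), (.s k8 k4 1 (.s k89 k251 12 (.s k166 k243 14 (.d k174 k162 k93 1 12)))), (.s
  k77 k142 8 (.s k93 k174 12 (.s k158 k28 8 (.d k109 k125 k60 3 12))))] (.c k13 (.l (.s k25 k24 0
  (.s k4 k8 1 (.s k134 k199 8 (.s k73 k195 10 (.d k77 k65 k142 1 8)))))) (.c k25 (.q k13 [(.s k4 k8
  1 (.s k134 k199 8 (.s k77 k142 8 (.d k73 k65 k195 1 10)))), (.s k8 k4 1 (.s k89 k251 12 (.s k166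
  k243 14 (.d k174 k162 k93 1 12)))), (.s k77 k142 8 (.s k93 k174 12 (.s k158 k28 8 (.d k109 k125
  k60 3 12))))] (.c k36 (.l (.s k38 k14 5 (.s k4 k8 1 (.s k134 k199 8 (.s k73 k195 10 (.d k77 k65
  k142 1 8)))))) (.c k38 (.q k36 [(.s k4 k8 1 (.s k134 k199 8 (.s k77 k142 8 (.d k73 k65 k195 1
  10)))), (.s k8 k4 1 (.s k89 k251 12 (.s k166 k243 14 (.d k174 k162 k93 1 12)))), (.s k77 k142 8
  (.s k93 k174 12 (.s k158 k28 8 (.d k109 k125 k60 3 12))))] .n) .n))) (.c k36 (.l (.s k38 k14 5 (.s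
  k4 k8 1 (.s k134 k199 8 (.s k73 k195 10 (.d k77 k65 k142 1 8)))))) (.c k38 (.q k36 [(.s k4 k8 1
  (.s k134 k199 8 (.s k77 k142 8 (.d k73 k65 k195 1 10)))), (.s k8 k4 1 (.s k89 k251 12 (.s k166
  k243 14 (.d k174 k162 k93 1 12)))), (.s k77 k142 8 (.s k93 k174 12 (.s k158 k28 8 (.d k109 k125
  k60 3 12))))] (.c k13 (.l (.s k25 k24 0 (.s k4 k8 1 (.s k134 k199 8 (.s k73 k195 10 (.d k77 k65
  k142 1 8)))))) (.c k25 (.q k13 [(.s k4 k8 1 (.s k134 k199 8 (.s k77 k142 8 (.d k73 k65 k195 1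
  10)))), (.s k8 k4 1 (.s k89 k251 12 (.s k166 k243 14 (.d k174 k162 k93 1 12)))), (.s k77 k142 8
  (.s k93 k174 12 (.s k158 k28 8 (.d k109 k125 k60 3 12))))] .n) .n))) .n))))) .n))) (.c k50 (.q k49
  [(.s k4 k8 1 (.s k134 k199 8 (.s k77 k142 8 (.d k73 k65 k195 1 10)))), (.s k8 k4 1 (.s k89 k251 12
  (.s k166 k243 14 (.d k174 k162 k93 1 12)))), (.s k77 k142 8 (.s k93 k174 12 (.s k158 k28 8 (.d
  k109 k125 k60 3 12))))] (.c k26 (.q k37 [(.s k4 k8 1 (.s k134 k199 8 (.s k77 k142 8 (.d k73 k65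
  k195 1 10)))), (.s k8 k4 1 (.s k89 k251 12 (.s k166 k243 14 (.d k174 k162 k93 1 12)))), (.s k77
  k142 8 (.s k93 k174 12 (.s k158 k28 8 (.d k109 k125 k60 3 12))))] (.c k14 (.q k38 [(.s k4 k8 1 (.s
  k134 k199 8 (.s k77 k142 8 (.d k73 k65 k195 1 10)))), (.s k8 k4 1 (.s k89 k251 12 (.s k166 k243 14
  (.d k174 k162 k93 1 12)))), (.s k77 k142 8 (.s k93 k174 12 (.s k158 k28 8 (.d k109 k125 k60 3
  12))))] .n) (.c k38 (.q k14 [(.s k4 k8 1 (.s k134 k199 8 (.s k77 k142 8 (.d k73 k65 k195 1 10)))),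
  (.s k8 k4 1 (.s k89 k251 12 (.s k166 k243 14 (.d k174 k162 k93 1 12)))), (.s k77 k142 8 (.s k93
  k174 12 (.s k158 k28 8 (.d k109 k125 k60 3 12))))] .n) .n))) (.c k37 (.q k26 [(.s k4 k8 1 (.s k134
  k199 8 (.s k77 k142 8 (.d k73 k65 k195 1 10)))), (.s k8 k4 1 (.s k89 k251 12 (.s k166 k243 14 (.d
  k174 k162 k93 1 12)))), (.s k77 k142 8 (.s k93 k174 12 (.s k158 k28 8 (.d k109 k125 k60 3 12))))]
  (.c k36 (.q k38 [(.s k4 k8 1 (.s k134 k199 8 (.s k77 k142 8 (.d k73 k65 k195 1 10)))), (.s k8 k4 1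
  (.s k89 k251 12 (.s k166 k243 14 (.d k174 k162 k93 1 12)))), (.s k77 k142 8 (.s k93 k174 12 (.s
  k158 k28 8 (.d k109 k125 k60 3 12))))] .n) (.c k38 (.q k36 [(.s k4 k8 1 (.s k134 k199 8 (.s k77
  k142 8 (.d k73 k65 k195 1 10)))), (.s k8 k4 1 (.s k89 k251 12 (.s k166 k243 14 (.d k174 k162 k93 1
  12)))), (.s k77 k142 8 (.s k93 k174 12 (.s k158 k28 8 (.d k109 k125 k60 3 12))))] .n) .n))) .n)))
  .n))))) (.c k49 (.q k50 [(.s k4 k8 1 (.s k134 k199 8 (.s k77 k142 8 (.d k73 k65 k195 1 10)))), (.s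
  k8 k4 1 (.s k89 k251 12 (.s k166 k243 14 (.d k174 k162 k93 1 12)))), (.s k77 k142 8 (.s k93 k174
  12 (.s k158 k28 8 (.d k109 k125 k60 3 12))))] (.c k26 (.q k37 [(.s k4 k8 1 (.s k134 k199 8 (.s k77
  k142 8 (.d k73 k65 k195 1 10)))), (.s k8 k4 1 (.s k89 k251 12 (.s k166 k243 14 (.d k174 k162 k93 1
  12)))), (.s k77 k142 8 (.s k93 k174 12 (.s k158 k28 8 (.d k109 k125 k60 3 12))))] (.c k27 (.q k39
  [(.s k4 k8 1 (.s k134 k199 8 (.s k77 k142 8 (.d k73 k65 k195 1 10)))), (.s k8 k4 1 (.s k89 k251 12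
  (.s k166 k243 14 (.d k174 k162 k93 1 12)))), (.s k77 k142 8 (.s k93 k174 12 (.s k158 k28 8 (.d
  k109 k125 k60 3 12))))] (.c k24 (.q k25 [(.s k4 k8 1 (.s k134 k199 8 (.s k77 k142 8 (.d k73 k65
  k195 1 10)))), (.s k8 k4 1 (.s k89 k251 12 (.s k166 k243 14 (.d k174 k162 k93 1 12)))), (.s k77
  k142 8 (.s k93 k174 12 (.s k158 k28 8 (.d k109 k125 k60 3 12))))] .n) (.c k25 (.q k24 [(.s k4 k8 1
  (.s k134 k199 8 (.s k77 k142 8 (.d k73 k65 k195 1 10)))), (.s k8 k4 1 (.s k89 k251 12 (.s k166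
  k243 14 (.d k174 k162 k93 1 12)))), (.s k77 k142 8 (.s k93 k174 12 (.s k158 k28 8 (.d k109 k125
  k60 3 12))))] .n) .n))) (.c k39 (.q k27 [(.s k4 k8 1 (.s k134 k199 8 (.s k77 k142 8 (.d k73 k65
  k195 1 10)))), (.s k8 k4 1 (.s k89 k251 12 (.s k166 k243 14 (.d k174 k162 k93 1 12)))), (.s k77
  k142 8 (.s k93 k174 12 (.s k158 k28 8 (.d k109 k125 k60 3 12))))] .n) .n))) (.c k27 (.q k39 [(.s
  k4 k8 1 (.s k134 k199 8 (.s k77 k142 8 (.d k73 k65 k195 1 10)))), (.s k8 k4 1 (.s k89 k251 12 (.s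
  k166 k243 14 (.d k174 k162 k93 1 12)))), (.s k77 k142 8 (.s k93 k174 12 (.s k158 k28 8 (.d k109
  k125 k60 3 12))))] (.c k26 (.q k37 [(.s k4 k8 1 (.s k134 k199 8 (.s k77 k142 8 (.d k73 k65 k195 1
  10)))), (.s k8 k4 1 (.s k89 k251 12 (.s k166 k243 14 (.d k174 k162 k93 1 12)))), (.s k77 k142 8
  (.s k93 k174 12 (.s k158 k28 8 (.d k109 k125 k60 3 12))))] (.c k24 (.q k25 [(.s k4 k8 1 (.s k134
  k199 8 (.s k77 k142 8 (.d k73 k65 k195 1 10)))), (.s k8 k4 1 (.s k89 k251 12 (.s k166 k243 14 (.d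
  k174 k162 k93 1 12)))), (.s k77 k142 8 (.s k93 k174 12 (.s k158 k28 8 (.d k109 k125 k60 3 12))))]
  .n) (.c k25 (.q k24 [(.s k4 k8 1 (.s k134 k199 8 (.s k77 k142 8 (.d k73 k65 k195 1 10)))), (.s k8
  k4 1 (.s k89 k251 12 (.s k166 k243 14 (.d k174 k162 k93 1 12)))), (.s k77 k142 8 (.s k93 k174 12
  (.s k158 k28 8 (.d k109 k125 k60 3 12))))] .n) .n))) (.c k37 (.q k26 [(.s k4 k8 1 (.s k134 k199 8
  (.s k77 k142 8 (.d k73 k65 k195 1 10)))), (.s k8 k4 1 (.s k89 k251 12 (.s k166 k243 14 (.d k174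
  k162 k93 1 12)))), (.s k77 k142 8 (.s k93 k174 12 (.s k158 k28 8 (.d k109 k125 k60 3 12))))] (.c
  k13 (.q k25 [(.s k4 k8 1 (.s k134 k199 8 (.s k77 k142 8 (.d k73 k65 k195 1 10)))), (.s k8 k4 1 (.s
  k89 k251 12 (.s k166 k243 14 (.d k174 k162 k93 1 12)))), (.s k77 k142 8 (.s k93 k174 12 (.s k158
  k28 8 (.d k109 k125 k60 3 12))))] .n) (.c k25 (.q k13 [(.s k4 k8 1 (.s k134 k199 8 (.s k77 k142 8
  (.d k73 k65 k195 1 10)))), (.s k8 k4 1 (.s k89 k251 12 (.s k166 k243 14 (.d k174 k162 k93 1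
  12)))), (.s k77 k142 8 (.s k93 k174 12 (.s k158 k28 8 (.d k109 k125 k60 3 12))))] .n) .n))) .n)))
  (.c k37 (.q k26 [(.s k4 k8 1 (.s k134 k199 8 (.s k77 k142 8 (.d k73 k65 k195 1 10)))), (.s k8 k4 1
  (.s k89 k251 12 (.s k166 k243 14 (.d k174 k162 k93 1 12)))), (.s k77 k142 8 (.s k93 k174 12 (.s
  k158 k28 8 (.d k109 k125 k60 3 12))))] (.c k13 (.q k25 [(.s k4 k8 1 (.s k134 k199 8 (.s k77 k142 8
  (.d k73 k65 k195 1 10)))), (.s k8 k4 1 (.s k89 k251 12 (.s k166 k243 14 (.d k174 k162 k93 1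
  12)))), (.s k77 k142 8 (.s k93 k174 12 (.s k158 k28 8 (.d k109 k125 k60 3 12))))] (.c k27 (.q k39
  [(.s k4 k8 1 (.s k134 k199 8 (.s k77 k142 8 (.d k73 k65 k195 1 10)))), (.s k8 k4 1 (.s k89 k251 12
  (.s k166 k243 14 (.d k174 k162 k93 1 12)))), (.s k77 k142 8 (.s k93 k174 12 (.s k158 k28 8 (.d
  k109 k125 k60 3 12))))] .n) (.c k39 (.l (.s k27 k24 0 (.s k4 k8 1 (.s k134 k199 8 (.s k73 k195 10
  (.d k77 k65 k142 1 8)))))) .n))) (.c k25 (.q k13 [(.s k4 k8 1 (.s k134 k199 8 (.s k77 k142 8 (.d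
  k73 k65 k195 1 10)))), (.s k8 k4 1 (.s k89 k251 12 (.s k166 k243 14 (.d k174 k162 k93 1 12)))),
  (.s k77 k142 8 (.s k93 k174 12 (.s k158 k28 8 (.d k109 k125 k60 3 12))))] (.c k27 (.q k39 [(.s k4
  k8 1 (.s k134 k199 8 (.s k77 k142 8 (.d k73 k65 k195 1 10)))), (.s k8 k4 1 (.s k89 k251 12 (.s
  k166 k243 14 (.d k174 k162 k93 1 12)))), (.s k77 k142 8 (.s k93 k174 12 (.s k158 k28 8 (.d k109
  k125 k60 3 12))))] .n) (.c k39 (.q k27 [(.s k4 k8 1 (.s k134 k199 8 (.s k77 k142 8 (.d k73 k65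
  k195 1 10)))), (.s k8 k4 1 (.s k89 k251 12 (.s k166 k243 14 (.d k174 k162 k93 1 12)))), (.s k77
  k142 8 (.s k93 k174 12 (.s k158 k28 8 (.d k109 k125 k60 3 12))))] (.c k36 (.l (.s k38 k14 5 (.s k4
  k8 1 (.s k134 k199 8 (.s k73 k195 10 (.d k77 k65 k142 1 8)))))) (.c k38 (.q k36 [(.s k4 k8 1 (.s
  k134 k199 8 (.s k77 k142 8 (.d k73 k65 k195 1 10)))), (.s k8 k4 1 (.s k89 k251 12 (.s k166 k243 14
  (.d k174 k162 k93 1 12)))), (.s k77 k142 8 (.s k93 k174 12 (.s k158 k28 8 (.d k109 k125 k60 3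
  12))))] .n) .n))) .n))) (.c k27 (.q k39 [(.s k4 k8 1 (.s k134 k199 8 (.s k77 k142 8 (.d k73 k65
  k195 1 10)))), (.s k8 k4 1 (.s k89 k251 12 (.s k166 k243 14 (.d k174 k162 k93 1 12)))), (.s k77
  k142 8 (.s k93 k174 12 (.s k158 k28 8 (.d k109 k125 k60 3 12))))] (.c k13 (.q k25 [(.s k4 k8 1 (.s
  k134 k199 8 (.s k77 k142 8 (.d k73 k65 k195 1 10)))), (.s k8 k4 1 (.s k89 k251 12 (.s k166 k243 14
  (.d k174 k162 k93 1 12)))), (.s k77 k142 8 (.s k93 k174 12 (.s k158 k28 8 (.d k109 k125 k60 3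
  12))))] .n) (.c k25 (.q k13 [(.s k4 k8 1 (.s k134 k199 8 (.s k77 k142 8 (.d k73 k65 k195 1 10)))),
  (.s k8 k4 1 (.s k89 k251 12 (.s k166 k243 14 (.d k174 k162 k93 1 12)))), (.s k77 k142 8 (.s k93
  k174 12 (.s k158 k28 8 (.d k109 k125 k60 3 12))))] .n) .n))) (.c k39 (.q k27 [(.s k4 k8 1 (.s k134
  k199 8 (.s k77 k142 8 (.d k73 k65 k195 1 10)))), (.s k8 k4 1 (.s k89 k251 12 (.s k166 k243 14 (.d
  k174 k162 k93 1 12)))), (.s k77 k142 8 (.s k93 k174 12 (.s k158 k28 8 (.d k109 k125 k60 3 12))))]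
  (.c k13 (.l (.s k25 k24 0 (.s k4 k8 1 (.s k134 k199 8 (.s k73 k195 10 (.d k77 k65 k142 1 8))))))
  (.c k25 (.q k13 [(.s k4 k8 1 (.s k134 k199 8 (.s k77 k142 8 (.d k73 k65 k195 1 10)))), (.s k8 k4 1
  (.s k89 k251 12 (.s k166 k243 14 (.d k174 k162 k93 1 12)))), (.s k77 k142 8 (.s k93 k174 12 (.s
  k158 k28 8 (.d k109 k125 k60 3 12))))] (.c k36 (.l (.s k38 k14 5 (.s k4 k8 1 (.s k134 k199 8 (.s
  k73 k195 10 (.d k77 k65 k142 1 8)))))) (.c k38 (.q k36 [(.s k4 k8 1 (.s k134 k199 8 (.s k77 k142 8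
  (.d k73 k65 k195 1 10)))), (.s k8 k4 1 (.s k89 k251 12 (.s k166 k243 14 (.d k174 k162 k93 1
  12)))), (.s k77 k142 8 (.s k93 k174 12 (.s k158 k28 8 (.d k109 k125 k60 3 12))))] .n) .n))) (.c
  k36 (.l (.s k38 k14 5 (.s k4 k8 1 (.s k134 k199 8 (.s k73 k195 10 (.d k77 k65 k142 1 8)))))) (.c
  k38 (.q k36 [(.s k4 k8 1 (.s k134 k199 8 (.s k77 k142 8 (.d k73 k65 k195 1 10)))), (.s k8 k4 1 (.s
  k89 k251 12 (.s k166 k243 14 (.d k174 k162 k93 1 12)))), (.s k77 k142 8 (.s k93 k174 12 (.s k158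
  k28 8 (.d k109 k125 k60 3 12))))] (.c k13 (.l (.s k25 k24 0 (.s k4 k8 1 (.s k134 k199 8 (.s k73
  k195 10 (.d k77 k65 k142 1 8)))))) (.c k25 (.q k13 [(.s k4 k8 1 (.s k134 k199 8 (.s k77 k142 8 (.d
  k73 k65 k195 1 10)))), (.s k8 k4 1 (.s k89 k251 12 (.s k166 k243 14 (.d k174 k162 k93 1 12)))),
  (.s k77 k142 8 (.s k93 k174 12 (.s k158 k28 8 (.d k109 k125 k60 3 12))))] .n) .n))) .n)))))
  .n))))) (.c k39 (.q k27 [(.s k4 k8 1 (.s k134 k199 8 (.s k77 k142 8 (.d k73 k65 k195 1 10)))), (.s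
  k8 k4 1 (.s k89 k251 12 (.s k166 k243 14 (.d k174 k162 k93 1 12)))), (.s k77 k142 8 (.s k93 k174
  12 (.s k158 k28 8 (.d k109 k125 k60 3 12))))] (.c k26 (.q k37 [(.s k4 k8 1 (.s k134 k199 8 (.s k77
  k142 8 (.d k73 k65 k195 1 10)))), (.s k8 k4 1 (.s k89 k251 12 (.s k166 k243 14 (.d k174 k162 k93 1
  12)))), (.s k77 k142 8 (.s k93 k174 12 (.s k158 k28 8 (.d k109 k125 k60 3 12))))] .n) (.c k37 (.q
  k26 [(.s k4 k8 1 (.s k134 k199 8 (.s k77 k142 8 (.d k73 k65 k195 1 10)))), (.s k8 k4 1 (.s k89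
  k251 12 (.s k166 k243 14 (.d k174 k162 k93 1 12)))), (.s k77 k142 8 (.s k93 k174 12 (.s k158 k28 8
  (.d k109 k125 k60 3 12))))] (.c k13 (.l (.s k25 k24 0 (.s k4 k8 1 (.s k134 k199 8 (.s k73 k195 10
  (.d k77 k65 k142 1 8)))))) (.c k25 (.q k13 [(.s k4 k8 1 (.s k134 k199 8 (.s k77 k142 8 (.d k73 k65
  k195 1 10)))), (.s k8 k4 1 (.s k89 k251 12 (.s k166 k243 14 (.d k174 k162 k93 1 12)))), (.s k77
  k142 8 (.s k93 k174 12 (.s k158 k28 8 (.d k109 k125 k60 3 12))))] (.c k36 (.l (.s k38 k14 5 (.s k4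
  k8 1 (.s k134 k199 8 (.s k73 k195 10 (.d k77 k65 k142 1 8)))))) (.c k38 (.q k36 [(.s k4 k8 1 (.s
  k134 k199 8 (.s k77 k142 8 (.d k73 k65 k195 1 10)))), (.s k8 k4 1 (.s k89 k251 12 (.s k166 k243 14
  (.d k174 k162 k93 1 12)))), (.s k77 k142 8 (.s k93 k174 12 (.s k158 k28 8 (.d k109 k125 k60 3
  12))))] .n) .n))) (.c k36 (.l (.s k38 k14 5 (.s k4 k8 1 (.s k134 k199 8 (.s k73 k195 10 (.d k77
  k65 k142 1 8)))))) (.c k38 (.q k36 [(.s k4 k8 1 (.s k134 k199 8 (.s k77 k142 8 (.d k73 k65 k195 1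
  10)))), (.s k8 k4 1 (.s k89 k251 12 (.s k166 k243 14 (.d k174 k162 k93 1 12)))), (.s k77 k142 8
  (.s k93 k174 12 (.s k158 k28 8 (.d k109 k125 k60 3 12))))] (.c k13 (.l (.s k25 k24 0 (.s k4 k8 1
  (.s k134 k199 8 (.s k73 k195 10 (.d k77 k65 k142 1 8)))))) (.c k25 (.q k13 [(.s k4 k8 1 (.s k134
  k199 8 (.s k77 k142 8 (.d k73 k65 k195 1 10)))), (.s k8 k4 1 (.s k89 k251 12 (.s k166 k243 14 (.d
  k174 k162 k93 1 12)))), (.s k77 k142 8 (.s k93 k174 12 (.s k158 k28 8 (.d k109 k125 k60 3 12))))]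
  .n) .n))) .n))))) .n))) .n))))) (.c k50 (.q k49 [(.s k4 k8 1 (.s k134 k199 8 (.s k77 k142 8 (.d
  k73 k65 k195 1 10)))), (.s k8 k4 1 (.s k89 k251 12 (.s k166 k243 14 (.d k174 k162 k93 1 12)))),
  (.s k77 k142 8 (.s k93 k174 12 (.s k158 k28 8 (.d k109 k125 k60 3 12))))] (.c k26 (.q k37 [(.s k4
  k8 1 (.s k134 k199 8 (.s k77 k142 8 (.d k73 k65 k195 1 10)))), (.s k8 k4 1 (.s k89 k251 12 (.s
  k166 k243 14 (.d k174 k162 k93 1 12)))), (.s k77 k142 8 (.s k93 k174 12 (.s k158 k28 8 (.d k109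
  k125 k60 3 12))))] (.c k14 (.q k38 [(.s k4 k8 1 (.s k134 k199 8 (.s k77 k142 8 (.d k73 k65 k195 1
  10)))), (.s k8 k4 1 (.s k89 k251 12 (.s k166 k243 14 (.d k174 k162 k93 1 12)))), (.s k77 k142 8
  (.s k93 k174 12 (.s k158 k28 8 (.d k109 k125 k60 3 12))))] (.c k27 (.l (.s k39 k36 0 (.s k4 k8 1
  (.s k134 k199 8 (.s k73 k195 10 (.d k77 k65 k142 1 8)))))) (.c k39 (.q k27 [(.s k4 k8 1 (.s k134
  k199 8 (.s k77 k142 8 (.d k73 k65 k195 1 10)))), (.s k8 k4 1 (.s k89 k251 12 (.s k166 k243 14 (.d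
  k174 k162 k93 1 12)))), (.s k77 k142 8 (.s k93 k174 12 (.s k158 k28 8 (.d k109 k125 k60 3 12))))]
  .n) .n))) (.c k27 (.q k39 [(.s k4 k8 1 (.s k134 k199 8 (.s k77 k142 8 (.d k73 k65 k195 1 10)))),
  (.s k8 k4 1 (.s k89 k251 12 (.s k166 k243 14 (.d k174 k162 k93 1 12)))), (.s k77 k142 8 (.s k93
  k174 12 (.s k158 k28 8 (.d k109 k125 k60 3 12))))] (.c k14 (.l (.s k38 k36 0 (.s k4 k8 1 (.s k134
  k199 8 (.s k73 k195 10 (.d k77 k65 k142 1 8)))))) (.c k24 (.l (.s k25 k13 5 (.s k4 k8 1 (.s k134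
  k199 8 (.s k73 k195 10 (.d k77 k65 k142 1 8)))))) (.c k25 (.q k24 [(.s k4 k8 1 (.s k134 k199 8 (.s
  k77 k142 8 (.d k73 k65 k195 1 10)))), (.s k8 k4 1 (.s k89 k251 12 (.s k166 k243 14 (.d k174 k162
  k93 1 12)))), (.s k77 k142 8 (.s k93 k174 12 (.s k158 k28 8 (.d k109 k125 k60 3 12))))] (.c k14
  (.l (.s k38 k36 0 (.s k4 k8 1 (.s k134 k199 8 (.s k73 k195 10 (.d k77 k65 k142 1 8)))))) (.c k38
  (.q k14 [(.s k4 k8 1 (.s k134 k199 8 (.s k77 k142 8 (.d k73 k65 k195 1 10)))), (.s k8 k4 1 (.s k89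
  k251 12 (.s k166 k243 14 (.d k174 k162 k93 1 12)))), (.s k77 k142 8 (.s k93 k174 12 (.s k158 k28 8
  (.d k109 k125 k60 3 12))))] .n) .n))) (.c k38 (.q k14 [(.s k4 k8 1 (.s k134 k199 8 (.s k77 k142 8
  (.d k73 k65 k195 1 10)))), (.s k8 k4 1 (.s k89 k251 12 (.s k166 k243 14 (.d k174 k162 k93 1
  12)))), (.s k77 k142 8 (.s k93 k174 12 (.s k158 k28 8 (.d k109 k125 k60 3 12))))] (.c k24 (.l (.s
  k25 k13 5 (.s k4 k8 1 (.s k134 k199 8 (.s k73 k195 10 (.d k77 k65 k142 1 8)))))) (.c k25 (.q k24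
  [(.s k4 k8 1 (.s k134 k199 8 (.s k77 k142 8 (.d k73 k65 k195 1 10)))), (.s k8 k4 1 (.s k89 k251 12
  (.s k166 k243 14 (.d k174 k162 k93 1 12)))), (.s k77 k142 8 (.s k93 k174 12 (.s k158 k28 8 (.d
  k109 k125 k60 3 12))))] .n) .n))) .n))))) (.c k38 (.q k14 [(.s k4 k8 1 (.s k134 k199 8 (.s k77
  k142 8 (.d k73 k65 k195 1 10)))), (.s k8 k4 1 (.s k89 k251 12 (.s k166 k243 14 (.d k174 k162 k93 1
  12)))), (.s k77 k142 8 (.s k93 k174 12 (.s k158 k28 8 (.d k109 k125 k60 3 12))))] (.c k27 (.q k39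
  [(.s k4 k8 1 (.s k134 k199 8 (.s k77 k142 8 (.d k73 k65 k195 1 10)))), (.s k8 k4 1 (.s k89 k251 12
  (.s k166 k243 14 (.d k174 k162 k93 1 12)))), (.s k77 k142 8 (.s k93 k174 12 (.s k158 k28 8 (.d
  k109 k125 k60 3 12))))] (.c k24 (.l (.s k25 k13 5 (.s k4 k8 1 (.s k134 k199 8 (.s k73 k195 10 (.d
  k77 k65 k142 1 8)))))) (.c k25 (.q k24 [(.s k4 k8 1 (.s k134 k199 8 (.s k77 k142 8 (.d k73 k65
  k195 1 10)))), (.s k8 k4 1 (.s k89 k251 12 (.s k166 k243 14 (.d k174 k162 k93 1 12)))), (.s k77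
  k142 8 (.s k93 k174 12 (.s k158 k28 8 (.d k109 k125 k60 3 12))))] .n) .n))) (.c k39 (.q k27 [(.s
  k4 k8 1 (.s k134 k199 8 (.s k77 k142 8 (.d k73 k65 k195 1 10)))), (.s k8 k4 1 (.s k89 k251 12 (.s
  k166 k243 14 (.d k174 k162 k93 1 12)))), (.s k77 k142 8 (.s k93 k174 12 (.s k158 k28 8 (.d k109
  k125 k60 3 12))))] .n) .n))) (.c k39 (.q k27 [(.s k4 k8 1 (.s k134 k199 8 (.s k77 k142 8 (.d k73
  k65 k195 1 10)))), (.s k8 k4 1 (.s k89 k251 12 (.s k166 k243 14 (.d k174 k162 k93 1 12)))), (.s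
  k77 k142 8 (.s k93 k174 12 (.s k158 k28 8 (.d k109 k125 k60 3 12))))] (.c k14 (.q k38 [(.s k4 k8 1
  (.s k134 k199 8 (.s k77 k142 8 (.d k73 k65 k195 1 10)))), (.s k8 k4 1 (.s k89 k251 12 (.s k166
  k243 14 (.d k174 k162 k93 1 12)))), (.s k77 k142 8 (.s k93 k174 12 (.s k158 k28 8 (.d k109 k125
  k60 3 12))))] .n) (.c k38 (.q k14 [(.s k4 k8 1 (.s k134 k199 8 (.s k77 k142 8 (.d k73 k65 k195 1
  10)))), (.s k8 k4 1 (.s k89 k251 12 (.s k166 k243 14 (.d k174 k162 k93 1 12)))), (.s k77 k142 8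
  (.s k93 k174 12 (.s k158 k28 8 (.d k109 k125 k60 3 12))))] .n) .n))) .n))))) (.c k27 (.q k39 [(.s
  k4 k8 1 (.s k134 k199 8 (.s k77 k142 8 (.d k73 k65 k195 1 10)))), (.s k8 k4 1 (.s k89 k251 12 (.s
  k166 k243 14 (.d k174 k162 k93 1 12)))), (.s k77 k142 8 (.s k93 k174 12 (.s k158 k28 8 (.d k109
  k125 k60 3 12))))] (.c k26 (.q k37 [(.s k4 k8 1 (.s k134 k199 8 (.s k77 k142 8 (.d k73 k65 k195 1
  10)))), (.s k8 k4 1 (.s k89 k251 12 (.s k166 k243 14 (.d k174 k162 k93 1 12)))), (.s k77 k142 8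
  (.s k93 k174 12 (.s k158 k28 8 (.d k109 k125 k60 3 12))))] (.c k14 (.l (.s k38 k36 0 (.s k4 k8 1
  (.s k134 k199 8 (.s k73 k195 10 (.d k77 k65 k142 1 8)))))) (.c k24 (.l (.s k25 k13 5 (.s k4 k8 1
  (.s k134 k199 8 (.s k73 k195 10 (.d k77 k65 k142 1 8)))))) (.c k25 (.q k24 [(.s k4 k8 1 (.s k134
  k199 8 (.s k77 k142 8 (.d k73 k65 k195 1 10)))), (.s k8 k4 1 (.s k89 k251 12 (.s k166 k243 14 (.d
  k174 k162 k93 1 12)))), (.s k77 k142 8 (.s k93 k174 12 (.s k158 k28 8 (.d k109 k125 k60 3 12))))]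
  (.c k14 (.l (.s k38 k36 0 (.s k4 k8 1 (.s k134 k199 8 (.s k73 k195 10 (.d k77 k65 k142 1 8))))))
  (.c k38 (.q k14 [(.s k4 k8 1 (.s k134 k199 8 (.s k77 k142 8 (.d k73 k65 k195 1 10)))), (.s k8 k4 1
  (.s k89 k251 12 (.s k166 k243 14 (.d k174 k162 k93 1 12)))), (.s k77 k142 8 (.s k93 k174 12 (.s
  k158 k28 8 (.d k109 k125 k60 3 12))))] .n) .n))) (.c k38 (.q k14 [(.s k4 k8 1 (.s k134 k199 8 (.s
  k77 k142 8 (.d k73 k65 k195 1 10)))), (.s k8 k4 1 (.s k89 k251 12 (.s k166 k243 14 (.d k174 k162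
  k93 1 12)))), (.s k77 k142 8 (.s k93 k174 12 (.s k158 k28 8 (.d k109 k125 k60 3 12))))] (.c k24
  (.l (.s k25 k13 5 (.s k4 k8 1 (.s k134 k199 8 (.s k73 k195 10 (.d k77 k65 k142 1 8)))))) (.c k25
  (.q k24 [(.s k4 k8 1 (.s k134 k199 8 (.s k77 k142 8 (.d k73 k65 k195 1 10)))), (.s k8 k4 1 (.s k89
  k251 12 (.s k166 k243 14 (.d k174 k162 k93 1 12)))), (.s k77 k142 8 (.s k93 k174 12 (.s k158 k28 8
  (.d k109 k125 k60 3 12))))] .n) .n))) .n))))) (.c k37 (.q k26 [(.s k4 k8 1 (.s k134 k199 8 (.s k77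
  k142 8 (.d k73 k65 k195 1 10)))), (.s k8 k4 1 (.s k89 k251 12 (.s k166 k243 14 (.d k174 k162 k93 1
  12)))), (.s k77 k142 8 (.s k93 k174 12 (.s k158 k28 8 (.d k109 k125 k60 3 12))))] .n) .n))) (.c
  k37 (.q k26 [(.s k4 k8 1 (.s k134 k199 8 (.s k77 k142 8 (.d k73 k65 k195 1 10)))), (.s k8 k4 1 (.s
  k89 k251 12 (.s k166 k243 14 (.d k174 k162 k93 1 12)))), (.s k77 k142 8 (.s k93 k174 12 (.s k158
  k28 8 (.d k109 k125 k60 3 12))))] (.c k27 (.q k39 [(.s k4 k8 1 (.s k134 k199 8 (.s k77 k142 8 (.d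
  k73 k65 k195 1 10)))), (.s k8 k4 1 (.s k89 k251 12 (.s k166 k243 14 (.d k174 k162 k93 1 12)))),
  (.s k77 k142 8 (.s k93 k174 12 (.s k158 k28 8 (.d k109 k125 k60 3 12))))] .n) (.c k39 (.q k27 [(.s
  k4 k8 1 (.s k134 k199 8 (.s k77 k142 8 (.d k73 k65 k195 1 10)))), (.s k8 k4 1 (.s k89 k251 12 (.s
  k166 k243 14 (.d k174 k162 k93 1 12)))), (.s k77 k142 8 (.s k93 k174 12 (.s k158 k28 8 (.d k109
  k125 k60 3 12))))] (.c k36 (.q k38 [(.s k4 k8 1 (.s k134 k199 8 (.s k77 k142 8 (.d k73 k65 k195 1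
  10)))), (.s k8 k4 1 (.s k89 k251 12 (.s k166 k243 14 (.d k174 k162 k93 1 12)))), (.s k77 k142 8
  (.s k93 k174 12 (.s k158 k28 8 (.d k109 k125 k60 3 12))))] .n) (.c k38 (.q k36 [(.s k4 k8 1 (.s
  k134 k199 8 (.s k77 k142 8 (.d k73 k65 k195 1 10)))), (.s k8 k4 1 (.s k89 k251 12 (.s k166 k243 14
  (.d k174 k162 k93 1 12)))), (.s k77 k142 8 (.s k93 k174 12 (.s k158 k28 8 (.d k109 k125 k60 3
  12))))] .n) .n))) .n))) (.c k39 (.q k27 [(.s k4 k8 1 (.s k134 k199 8 (.s k77 k142 8 (.d k73 k65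
  k195 1 10)))), (.s k8 k4 1 (.s k89 k251 12 (.s k166 k243 14 (.d k174 k162 k93 1 12)))), (.s k77
  k142 8 (.s k93 k174 12 (.s k158 k28 8 (.d k109 k125 k60 3 12))))] (.c k26 (.q k37 [(.s k4 k8 1 (.s
  k134 k199 8 (.s k77 k142 8 (.d k73 k65 k195 1 10)))), (.s k8 k4 1 (.s k89 k251 12 (.s k166 k243 14
  (.d k174 k162 k93 1 12)))), (.s k77 k142 8 (.s k93 k174 12 (.s k158 k28 8 (.d k109 k125 k60 3
  12))))] (.c k14 (.q k38 [(.s k4 k8 1 (.s k134 k199 8 (.s k77 k142 8 (.d k73 k65 k195 1 10)))), (.s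
  k8 k4 1 (.s k89 k251 12 (.s k166 k243 14 (.d k174 k162 k93 1 12)))), (.s k77 k142 8 (.s k93 k174
  12 (.s k158 k28 8 (.d k109 k125 k60 3 12))))] .n) (.c k38 (.q k14 [(.s k4 k8 1 (.s k134 k199 8 (.s
  k77 k142 8 (.d k73 k65 k195 1 10)))), (.s k8 k4 1 (.s k89 k251 12 (.s k166 k243 14 (.d k174 k162
  k93 1 12)))), (.s k77 k142 8 (.s k93 k174 12 (.s k158 k28 8 (.d k109 k125 k60 3 12))))] .n) .n)))
  (.c k37 (.q k26 [(.s k4 k8 1 (.s k134 k199 8 (.s k77 k142 8 (.d k73 k65 k195 1 10)))), (.s k8 k4 1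
  (.s k89 k251 12 (.s k166 k243 14 (.d k174 k162 k93 1 12)))), (.s k77 k142 8 (.s k93 k174 12 (.s
  k158 k28 8 (.d k109 k125 k60 3 12))))] (.c k36 (.q k38 [(.s k4 k8 1 (.s k134 k199 8 (.s k77 k142 8
  (.d k73 k65 k195 1 10)))), (.s k8 k4 1 (.s k89 k251 12 (.s k166 k243 14 (.d k174 k162 k93 1
  12)))), (.s k77 k142 8 (.s k93 k174 12 (.s k158 k28 8 (.d k109 k125 k60 3 12))))] .n) (.c k38 (.q
  k36 [(.s k4 k8 1 (.s k134 k199 8 (.s k77 k142 8 (.d k73 k65 k195 1 10)))), (.s k8 k4 1 (.s k89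
  k251 12 (.s k166 k243 14 (.d k174 k162 k93 1 12)))), (.s k77 k142 8 (.s k93 k174 12 (.s k158 k28 8
  (.d k109 k125 k60 3 12))))] .n) .n))) .n))) .n))))) .n)))))))))) (.c k69 (.f k239 k223 3 (.f k85
  k170 14 (.q k12 [(.s k4 k8 1 (.s k166 k247 12 (.s k93 k174 12 (.d k89 k81 k243 1 14)))), (.s k142
  k77 8 (.s k174 k93 12 (.s k109 k44 8 (.d k158 k190 k60 3 12)))), (.s k4 k8 1 (.s k166 k247 12 (.s
  k77 k142 8 (.s k89 k243 14 (.s k101 k113 5 (.s k36 k231 8 (.d k48 k24 k154 5 14)))))))] (.c k27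
  (.q k39 [(.s k4 k8 1 (.s k166 k247 12 (.s k93 k174 12 (.d k89 k81 k243 1 14)))), (.s k142 k77 8
  (.s k174 k93 12 (.s k109 k44 8 (.d k158 k190 k60 3 12)))), (.s k4 k8 1 (.s k166 k247 12 (.s k77
  k142 8 (.s k89 k243 14 (.s k101 k113 5 (.s k36 k231 8 (.d k48 k24 k154 5 14)))))))] .n) (.c k39
  (.q k27 [(.s k4 k8 1 (.s k166 k247 12 (.s k93 k174 12 (.d k89 k81 k243 1 14)))), (.s k142 k77 8
  (.s k174 k93 12 (.s k109 k44 8 (.d k158 k190 k60 3 12)))), (.s k4 k8 1 (.s k166 k247 12 (.s k77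
  k142 8 (.s k89 k243 14 (.s k101 k113 5 (.s k36 k231 8 (.d k48 k24 k154 5 14)))))))] .n) .n)))))
  (.c k85 (.f k223 k239 3 (.f k69 k138 10 (.q k12 [(.s k4 k8 1 (.s k134 k199 8 (.s k77 k142 8 (.d
  k73 k65 k195 1 10)))), (.s k93 k174 12 (.s k158 k28 8 (.s k109 k60 12 (.d k77 k125 k142 3 8))))]
  (.c k27 (.q k39 [(.s k4 k8 1 (.s k134 k199 8 (.s k77 k142 8 (.d k73 k65 k195 1 10)))), (.s k93
  k174 12 (.s k158 k28 8 (.s k109 k60 12 (.d k77 k125 k142 3 8))))] (.c k77 (.q k195 [(.s k4 k8 1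
  (.d k134 k73 k199 10 8)), (.s k93 k174 12 (.s k28 k158 8 (.s k215 k235 5 (.s k211 k219 1 (.s k89
  k150 10 (.d k243 k227 k166 3 14))))))] (.c k203 (.l (.s k215 k235 5 (.s k219 k211 1 (.s k231 k243
  5 (.s k199 k247 3 (.d k4 k8 k134 1 8)))))) .n)) (.c k142 (.l (.s k4 k8 1 (.s k134 k199 8 (.s k73
  k195 10 (.s k93 k174 12 (.s k158 k28 8 (.s k109 k60 12 (.d k77 k65 k125 1 3)))))))) .n))) (.c k39
  (.q k27 [(.s k4 k8 1 (.s k134 k199 8 (.s k77 k142 8 (.d k73 k65 k195 1 10)))), (.s k93 k174 12 (.s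
  k158 k28 8 (.s k109 k60 12 (.d k77 k125 k142 3 8))))] (.c k77 (.q k195 [(.s k4 k8 1 (.d k134 k73
  k199 10 8)), (.s k93 k174 12 (.s k28 k158 8 (.s k215 k235 5 (.s k211 k219 1 (.s k89 k150 10 (.d
  k243 k227 k166 3 14))))))] (.c k203 (.l (.s k215 k235 5 (.s k219 k211 1 (.s k231 k243 5 (.s k199
  k247 3 (.d k4 k8 k134 1 8)))))) .n)) (.c k142 (.l (.s k4 k8 1 (.s k134 k199 8 (.s k73 k195 10 (.s
  k93 k174 12 (.s k158 k28 8 (.s k109 k60 12 (.d k77 k65 k125 1 3)))))))) .n))) (.c k77 (.q k195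
  [(.s k4 k8 1 (.d k134 k73 k199 10 8)), (.s k93 k174 12 (.s k28 k158 8 (.s k215 k235 5 (.s k211
  k219 1 (.s k89 k150 10 (.d k243 k227 k166 3 14))))))] (.c k27 (.q k39 [(.s k4 k8 1 (.d k134 k73
  k199 10 8)), (.s k93 k174 12 (.s k28 k158 8 (.s k215 k235 5 (.s k211 k219 1 (.s k89 k150 10 (.d
  k243 k227 k166 3 14))))))] (.c k203 (.l (.s k215 k235 5 (.s k219 k211 1 (.s k231 k243 5 (.s k199
  k247 3 (.d k4 k8 k134 1 8)))))) .n)) (.c k39 (.q k27 [(.s k4 k8 1 (.d k134 k73 k199 10 8)), (.s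
  k93 k174 12 (.s k28 k158 8 (.s k215 k235 5 (.s k211 k219 1 (.s k89 k150 10 (.d k243 k227 k166 3
  14))))))] (.c k203 (.l (.s k215 k235 5 (.s k219 k211 1 (.s k231 k243 5 (.s k199 k247 3 (.d k4 k8
  k134 1 8)))))) .n)) (.c k203 (.l (.s k215 k235 5 (.s k219 k211 1 (.s k231 k243 5 (.s k199 k247 3
  (.d k4 k8 k134 1 8)))))) .n)))) (.c k142 (.l (.s k4 k8 1 (.s k134 k199 8 (.s k73 k195 10 (.s k93
  k174 12 (.s k158 k28 8 (.s k109 k60 12 (.d k77 k65 k125 1 3)))))))) .n))))))) (.c k101 (.f k69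
  k138 10 (.f k239 k223 3 (.q k12 [(.s k4 k8 1 (.s k77 k142 8 (.s k73 k65 1 (.d k134 k199 k195 8
  10)))), (.s k142 k77 8 (.s k174 k93 12 (.s k109 k44 8 (.d k158 k190 k60 3 12)))), (.s k4 k8 1 (.s
  k85 k170 14 (.s k166 k247 12 (.s k89 k243 14 (.d k93 k81 k174 1 12)))))] (.c k27 (.q k39 [(.s k4
  k8 1 (.s k77 k142 8 (.s k73 k65 1 (.d k134 k199 k195 8 10)))), (.s k142 k77 8 (.s k174 k93 12 (.s
  k109 k44 8 (.d k158 k190 k60 3 12)))), (.s k4 k8 1 (.s k85 k170 14 (.s k166 k247 12 (.s k89 k243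
  14 (.d k93 k81 k174 1 12)))))] .n) (.c k39 (.q k27 [(.s k4 k8 1 (.s k77 k142 8 (.s k73 k65 1 (.d
  k134 k199 k195 8 10)))), (.s k142 k77 8 (.s k174 k93 12 (.s k109 k44 8 (.d k158 k190 k60 3 12)))),
  (.s k4 k8 1 (.s k85 k170 14 (.s k166 k247 12 (.s k89 k243 14 (.d k93 k81 k174 1 12)))))] .n)
  .n))))) (.c k117 (.l (.s k138 k69 10 (.s k239 k223 3 (.s k170 k85 14 (.s k101 k32 10 (.d k154 k186
  k48 3 14)))))) (.c k138 (.f k239 k223 3 (.q k195 [(.s k203 k199 1 (.s k235 k215 5 (.s k219 k251 3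
  (.d k231 k227 k243 1 5)))), (.s k65 k130 8 (.s k85 k170 14 (.s k105 k125 5 (.s k150 k60 14 (.d
  k215 k235 k20 5 8))))), (.s k130 k65 8 (.s k170 k85 14 (.s k101 k32 10 (.s k150 k190 5 (.d k199
  k203 k52 1 12)))))] (.c k27 (.q k39 [(.s k203 k199 1 (.s k235 k215 5 (.s k219 k251 3 (.d k231 k227
  k243 1 5)))), (.s k65 k130 8 (.s k85 k170 14 (.s k105 k125 5 (.s k150 k60 14 (.d k215 k235 k20 5
  8))))), (.s k130 k65 8 (.s k170 k85 14 (.s k101 k32 10 (.s k150 k190 5 (.d k199 k203 k52 1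
  12)))))] .n) (.c k39 (.q k27 [(.s k203 k199 1 (.s k235 k215 5 (.s k219 k251 3 (.d k231 k227 k243 1
  5)))), (.s k65 k130 8 (.s k85 k170 14 (.s k105 k125 5 (.s k150 k60 14 (.d k215 k235 k20 5 8))))),
  (.s k130 k65 8 (.s k170 k85 14 (.s k101 k32 10 (.s k150 k190 5 (.d k199 k203 k52 1 12)))))] .n)
  .n)))) (.c k154 (.q k12 [(.s k4 k8 1 (.s k69 k138 10 (.s k134 k199 8 (.s k77 k142 8 (.d k73 k65
  k195 1 10))))), (.s k77 k142 8 (.s k93 k174 12 (.s k109 k125 3 (.s k158 k60 12 (.d k223 k239 k28 3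
  8))))), (.s k4 k8 1 (.s k85 k170 14 (.s k166 k247 12 (.s k89 k243 14 (.d k93 k81 k174 1 12)))))]
  (.c k27 (.q k39 [(.s k4 k8 1 (.s k69 k138 10 (.s k134 k199 8 (.s k77 k142 8 (.d k73 k65 k195 1
  10))))), (.s k77 k142 8 (.s k93 k174 12 (.s k109 k125 3 (.s k158 k60 12 (.d k223 k239 k28 3
  8))))), (.s k4 k8 1 (.s k85 k170 14 (.s k166 k247 12 (.s k89 k243 14 (.d k93 k81 k174 1 12)))))]
  (.c k166 (.l (.s k4 k8 1 (.s k69 k138 10 (.s k134 k199 8 (.s k73 k195 10 (.d k77 k65 k142 1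
  8)))))) .n)) (.c k39 (.q k27 [(.s k4 k8 1 (.s k69 k138 10 (.s k134 k199 8 (.s k77 k142 8 (.d k73
  k65 k195 1 10))))), (.s k77 k142 8 (.s k93 k174 12 (.s k109 k125 3 (.s k158 k60 12 (.d k223 k239
  k28 3 8))))), (.s k4 k8 1 (.s k85 k170 14 (.s k166 k247 12 (.s k89 k243 14 (.d k93 k81 k174 1
  12)))))] (.c k166 (.l (.s k4 k8 1 (.s k69 k138 10 (.s k134 k199 8 (.s k73 k195 10 (.d k77 k65 k142
  1 8)))))) .n)) (.c k166 (.l (.s k4 k8 1 (.s k69 k138 10 (.s k134 k199 8 (.s k73 k195 10 (.d k77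
  k65 k142 1 8)))))) .n)))) (.c k170 (.f k239 k223 3 (.q k195 [(.s k203 k199 1 (.s k235 k215 5 (.s
  k231 k227 1 (.d k219 k251 k243 3 5)))), (.s k65 k130 8 (.s k69 k138 10 (.s k73 k77 1 (.s k134 k12
  10 (.d k199 k203 k4 1 8)))))] (.c k27 (.q k39 [(.s k203 k199 1 (.s k235 k215 5 (.s k231 k227 1 (.d
  k219 k251 k243 3 5)))), (.s k65 k130 8 (.s k69 k138 10 (.s k73 k77 1 (.s k134 k12 10 (.d k199 k203
  k4 1 8))))), (.s k235 k215 5 (.s k231 k227 1 (.s k103 k167 7 (.s k171 k35 9 (.s k107 k43 7 (.s k63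
  k151 13 (.d k111 k99 k159 1 11)))))))] .n) (.c k39 (.q k27 [(.s k203 k199 1 (.s k235 k215 5 (.s
  k231 k227 1 (.d k219 k251 k243 3 5)))), (.s k65 k130 8 (.s k69 k138 10 (.s k73 k77 1 (.s k134 k12
  10 (.d k199 k203 k4 1 8)))))] (.c k199 (.q k12 [(.s k130 k65 8 (.s k138 k69 10 (.d k134 k73 k142
  10 1))), (.s k142 k77 8 (.s k174 k93 12 (.s k109 k44 8 (.d k158 k190 k60 3 12)))), (.s k8 k4 1 (.s
  k235 k215 5 (.s k231 k227 1 (.s k219 k243 5 (.s k203 k251 3 (.d k138 k69 k73 10 8))))))] .n) (.c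
  k203 (.q k12 [(.s k130 k65 8 (.s k138 k69 10 (.d k134 k73 k142 10 1))), (.s k174 k93 12 (.s k44
  k109 8 (.s k235 k215 5 (.s k227 k231 1 (.s k105 k166 10 (.d k60 k28 k150 3 14))))))] (.c k77 (.l
  (.s k130 k65 8 (.s k174 k93 12 (.s k109 k44 8 (.s k158 k60 12 (.s k142 k190 3 (.d k134 k73 k138 10
  1))))))) .n)) .n))) (.c k199 (.q k12 [(.s k130 k65 8 (.s k138 k69 10 (.d k134 k73 k142 10 1))),
  (.s k142 k77 8 (.s k174 k93 12 (.s k109 k44 8 (.d k158 k190 k60 3 12)))), (.s k8 k4 1 (.s k235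
  k215 5 (.s k231 k227 1 (.s k219 k243 5 (.s k203 k251 3 (.d k138 k69 k73 10 8))))))] (.c k27 (.q
  k39 [(.s k130 k65 8 (.s k138 k69 10 (.d k134 k73 k142 10 1))), (.s k142 k77 8 (.s k174 k93 12 (.s
  k109 k44 8 (.d k158 k190 k60 3 12)))), (.s k8 k4 1 (.s k235 k215 5 (.s k231 k227 1 (.s k219 k243 5
  (.s k203 k251 3 (.d k138 k69 k73 10 8))))))] .n) (.c k39 (.q k27 [(.s k130 k65 8 (.s k138 k69 10
  (.d k134 k73 k142 10 1))), (.s k142 k77 8 (.s k174 k93 12 (.s k109 k44 8 (.d k158 k190 k60 3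
  12)))), (.s k8 k4 1 (.s k235 k215 5 (.s k231 k227 1 (.s k219 k243 5 (.s k203 k251 3 (.d k138 k69
  k73 10 8))))))] .n) .n))) (.c k203 (.q k12 [(.s k130 k65 8 (.s k138 k69 10 (.d k134 k73 k142 10
  1))), (.s k174 k93 12 (.s k44 k109 8 (.s k235 k215 5 (.s k227 k231 1 (.s k105 k166 10 (.d k60 k28
  k150 3 14))))))] (.c k27 (.q k39 [(.s k130 k65 8 (.s k138 k69 10 (.d k134 k73 k142 10 1))), (.s
  k174 k93 12 (.s k44 k109 8 (.s k235 k215 5 (.s k227 k231 1 (.s k105 k166 10 (.d k60 k28 k150 3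
  14))))))] (.c k77 (.l (.s k130 k65 8 (.s k174 k93 12 (.s k109 k44 8 (.s k158 k60 12 (.s k142 k190
  3 (.d k134 k73 k138 10 1))))))) .n)) (.c k39 (.q k27 [(.s k130 k65 8 (.s k138 k69 10 (.d k134 k73
  k142 10 1))), (.s k174 k93 12 (.s k44 k109 8 (.s k235 k215 5 (.s k227 k231 1 (.s k105 k166 10 (.d
  k60 k28 k150 3 14))))))] (.c k77 (.l (.s k130 k65 8 (.s k174 k93 12 (.s k109 k44 8 (.s k158 k60 12
  (.s k142 k190 3 (.d k134 k73 k138 10 1))))))) .n)) (.c k77 (.l (.s k130 k65 8 (.s k174 k93 12 (.s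
  k109 k44 8 (.s k158 k60 12 (.s k142 k190 3 (.d k134 k73 k138 10 1))))))) .n)))) .n)))))) (.c k186
  (.l (.s k69 k138 10 (.s k223 k239 3 (.s k85 k170 14 (.s k154 k16 10 (.d k101 k117 k48 3 14))))))
  (.c k223 (.f k85 k170 14 (.q k195 [(.s k65 k130 8 (.s k105 k125 5 (.s k215 k235 5 (.d k150 k20 k60
  8 14)))), (.s k130 k65 8 (.s k138 k69 10 (.s k134 k142 1 (.s k73 k12 10 (.d k203 k199 k8 1 8))))),
  (.s k69 k138 10 (.s k101 k117 3 (.s k199 k203 1 (.s k150 k52 12 (.d k215 k235 k20 5 8)))))] (.c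
  k27 (.q k39 [(.s k65 k130 8 (.s k105 k125 5 (.s k215 k235 5 (.d k150 k20 k60 8 14)))), (.s k130
  k65 8 (.s k138 k69 10 (.s k134 k142 1 (.s k73 k12 10 (.d k203 k199 k8 1 8))))), (.s k69 k138 10
  (.s k101 k117 3 (.s k199 k203 1 (.s k150 k52 12 (.d k215 k235 k20 5 8)))))] .n) (.c k39 (.q k27
  [(.s k65 k130 8 (.s k105 k125 5 (.s k215 k235 5 (.d k150 k20 k60 8 14)))), (.s k130 k65 8 (.s k138
  k69 10 (.s k134 k142 1 (.s k73 k12 10 (.d k203 k199 k8 1 8))))), (.s k69 k138 10 (.s k101 k117 3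
  (.s k199 k203 1 (.s k150 k52 12 (.d k215 k235 k20 5 8)))))] .n) .n)))) (.c k239 (.f k69 k138 10
  (.q k12 [(.s k4 k8 1 (.s k134 k199 8 (.s k77 k142 8 (.d k73 k65 k195 1 10)))), (.s k8 k4 1 (.s
  k170 k85 14 (.s k89 k251 12 (.s k166 k243 14 (.d k174 k162 k93 1 12))))), (.s k85 k170 14 (.s k77
  k142 8 (.s k93 k174 12 (.s k101 k117 3 (.d k89 k81 k113 1 5)))))] (.c k27 (.q k39 [(.s k4 k8 1 (.s
  k134 k199 8 (.s k77 k142 8 (.d k73 k65 k195 1 10)))), (.s k8 k4 1 (.s k170 k85 14 (.s k89 k251 12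
  (.s k166 k243 14 (.d k174 k162 k93 1 12))))), (.s k85 k170 14 (.s k77 k142 8 (.s k93 k174 12 (.s
  k101 k117 3 (.d k89 k81 k113 1 5)))))] .n) (.c k39 (.q k27 [(.s k4 k8 1 (.s k134 k199 8 (.s k77
  k142 8 (.d k73 k65 k195 1 10)))), (.s k8 k4 1 (.s k170 k85 14 (.s k89 k251 12 (.s k166 k243 14 (.d
  k174 k162 k93 1 12))))), (.s k85 k170 14 (.s k77 k142 8 (.s k93 k174 12 (.s k101 k117 3 (.d k89
  k81 k113 1 5)))))] .n) .n)))) .n)))))))))))))))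

def t53 : T TT 256 :=
  (.f k85 k170 14 (.q k51 [(.s k17 k34 4 (.s k153 k221 9 (.s k119 k187 9 (.d k102 k68 k204 4 14))))]
  (.c k17 (.q k63 [(.s k21 k42 6 (.s k149 k213 7 (.s k127 k191 7 (.d k106 k64 k192 6 14)))), (.s k55
  k59 1 (.s k119 k187 9 (.s k183 k247 7 (.s k123 k243 9 (.d k127 k115 k191 1 7))))), (.s k21 k42 6
  (.s k149 k213 7 (.s k55 k59 1 (.s k119 k187 9 (.d k102 k68 k196 4 12)))))] .n) (.c k34 (.q k63
  [(.s k127 k191 7 (.s k106 k64 6 (.s k149 k192 14 (.d k21 k42 k213 6 7)))), (.s k55 k59 1 (.s k119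
  k187 9 (.s k183 k247 7 (.s k123 k243 9 (.d k127 k115 k191 1 7))))), (.s k21 k42 6 (.s k149 k213 7
  (.s k55 k59 1 (.s k119 k187 9 (.d k102 k68 k196 4 12)))))] (.c k102 (.q k238 [(.s k127 k191 7 (.s
  k106 k64 6 (.s k149 k192 14 (.d k21 k42 k213 6 7)))), (.s k55 k59 1 (.s k119 k187 9 (.s k183 k247
  7 (.s k123 k243 9 (.d k127 k115 k191 1 7))))), (.s k21 k42 6 (.s k149 k213 7 (.s k59 k55 1 (.s
  k106 k192 14 (.s k153 k200 12 (.d k221 k204 k17 4 9))))))] .n) (.c k238 (.q k102 [(.d k119 k68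
  k187 4 9), (.s k21 k42 6 (.s k149 k213 7 (.d k55 k59 k196 1 12)))] .n) .n))) (.c k68 (.q k63 [(.s
  k21 k42 6 (.s k149 k213 7 (.s k127 k191 7 (.d k106 k64 k192 6 14)))), (.s k34 k17 4 (.s k42 k21 6
  (.s k38 k46 1 (.s k25 k12 6 (.d k59 k55 k8 1 4))))), (.s k17 k34 4 (.s k153 k221 9 (.s k59 k55 1
  (.s k106 k200 12 (.d k127 k64 k191 6 7)))))] .n) (.c k102 (.q k63 [(.s k21 k42 6 (.s k149 k213 7
  (.s k127 k191 7 (.d k106 k64 k192 6 14)))), (.s k55 k59 1 (.s k119 k187 9 (.s k183 k247 7 (.s k123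
  k243 9 (.d k127 k115 k191 1 7))))), (.s k34 k17 4 (.s k42 k21 6 (.s k38 k46 1 (.s k25 k12 6 (.d
  k59 k55 k8 1 4)))))] (.c k34 (.q k238 [(.s k127 k191 7 (.s k106 k64 6 (.s k149 k192 14 (.d k21 k42
  k213 6 7)))), (.s k55 k59 1 (.s k119 k187 9 (.s k183 k247 7 (.s k123 k243 9 (.d k127 k115 k191 1
  7))))), (.s k21 k42 6 (.s k149 k213 7 (.s k59 k55 1 (.s k106 k192 14 (.s k153 k200 12 (.d k221
  k204 k17 4 9))))))] .n) (.c k238 (.l (.s k34 k17 4 (.s k21 k42 6 (.s k149 k213 7 (.s k106 k192 14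
  (.d k127 k64 k191 6 7)))))) .n))) (.c k119 (.q k63 [(.s k21 k42 6 (.s k149 k213 7 (.s k127 k191 7
  (.d k106 k64 k192 6 14)))), (.s k34 k17 4 (.s k42 k21 6 (.s k38 k46 1 (.s k25 k12 6 (.d k59 k55 k8
  1 4))))), (.s k17 k34 4 (.s k153 k221 9 (.s k59 k55 1 (.s k106 k200 12 (.d k127 k64 k191 6 7)))))]
  .n) (.c k153 (.q k63 [(.s k21 k42 6 (.s k149 k213 7 (.s k127 k191 7 (.d k106 k64 k192 6 14)))),
  (.s k59 k55 1 (.s k187 k119 9 (.s k123 k251 7 (.s k183 k243 9 (.d k191 k179 k127 1 7))))), (.s k17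
  k34 4 (.s k21 k42 6 (.s k25 k29 1 (.s k38 k12 6 (.d k55 k59 k4 1 4)))))] (.c k136 (.l (.s k187
  k119 9 (.s k21 k42 6 (.s k149 k213 7 (.s k106 k192 14 (.d k127 k64 k191 6 7)))))) (.c k187 (.q
  k136 [(.s k21 k42 6 (.s k149 k213 7 (.s k106 k192 14 (.d k127 k64 k191 6 7)))), (.s k34 k17 4 (.s
  k42 k21 6 (.s k38 k46 1 (.s k25 k12 6 (.d k59 k55 k8 1 4))))), (.s k68 k204 9 (.s k55 k59 1 (.s
  k127 k191 7 (.s k106 k64 6 (.s k149 k192 14 (.d k102 k196 k119 12 4))))))] .n) .n))) (.c k187 (.q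
  k63 [(.s k21 k42 6 (.s k149 k213 7 (.s k106 k192 14 (.d k127 k64 k191 6 7)))), (.s k34 k17 4 (.s
  k42 k21 6 (.s k38 k46 1 (.s k25 k12 6 (.d k59 k55 k8 1 4))))), (.s k17 k34 4 (.s k153 k221 9 (.s
  k59 k55 1 (.s k106 k200 12 (.d k127 k64 k191 6 7)))))] (.c k136 (.q k153 [(.d k17 k34 k221 4 9),
  (.s k59 k55 1 (.s k106 k200 12 (.d k127 k64 k191 6 7)))] .n) (.c k153 (.q k136 [(.s k21 k42 6 (.s
  k149 k213 7 (.s k106 k192 14 (.d k127 k64 k191 6 7)))), (.s k34 k17 4 (.s k42 k21 6 (.s k38 k46 1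
  (.s k25 k12 6 (.d k59 k55 k8 1 4))))), (.s k68 k204 9 (.s k55 k59 1 (.s k127 k191 7 (.s k106 k64 6
  (.s k149 k192 14 (.d k102 k196 k119 12 4))))))] .n) .n))) (.c k204 (.q k63 [(.s k21 k42 6 (.s k149
  k213 7 (.s k127 k191 7 (.d k106 k64 k192 6 14)))), (.s k34 k17 4 (.s k42 k21 6 (.s k38 k46 1 (.s
  k25 k12 6 (.d k59 k55 k8 1 4))))), (.s k17 k34 4 (.s k153 k221 9 (.s k59 k55 1 (.s k106 k200 12
  (.d k127 k64 k191 6 7)))))] (.c k78 (.q k141 [(.s k21 k42 6 (.s k149 k213 7 (.s k127 k191 7 (.d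
  k106 k64 k192 6 14)))), (.s k34 k17 4 (.s k42 k21 6 (.s k38 k46 1 (.s k25 k12 6 (.d k59 k55 k8 1
  4))))), (.s k17 k34 4 (.s k153 k221 9 (.s k59 k55 1 (.s k106 k200 12 (.d k127 k64 k191 6 7)))))]
  .n) (.c k141 (.q k78 [(.s k21 k42 6 (.s k149 k213 7 (.s k127 k191 7 (.d k106 k64 k192 6 14)))),
  (.s k34 k17 4 (.s k42 k21 6 (.s k38 k46 1 (.s k25 k12 6 (.d k59 k55 k8 1 4))))), (.s k17 k34 4 (.s
  k153 k221 9 (.s k59 k55 1 (.s k106 k200 12 (.d k127 k64 k191 6 7)))))] .n) .n))) (.c k221 (.q k63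
  [(.s k21 k42 6 (.s k127 k191 7 (.s k106 k64 6 (.d k149 k213 k192 7 14)))), (.s k55 k59 1 (.s k119
  k187 9 (.s k183 k247 7 (.s k123 k243 9 (.d k127 k115 k191 1 7))))), (.s k17 k34 4 (.s k21 k42 6
  (.s k25 k29 1 (.s k38 k12 6 (.d k55 k59 k4 1 4)))))] .n) (.c k238 (.l (.s k119 k187 9 (.s k17 k34
  4 (.s k102 k68 4 (.d k153 k221 k204 9 14))))) .n))))))))))))

def t54 : T TT 256 :=
  (.f k85 k170 14 (.q k149 [(.s k21 k213 7 (.s k63 k42 6 (.s k127 k191 7 (.d k106 k64 k192 6 14))))]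
  (.c k21 (.q k4 [(.s k12 k8 1 (.s k166 k247 12 (.s k93 k174 12 (.d k89 k81 k243 1 14)))), (.s k166
  k247 12 (.s k132 k183 4 (.s k68 k196 7 (.s k204 k136 9 (.s k221 k238 4 (.s k153 k17 9 (.d k102
  k119 k51 4 14)))))))] (.c k166 (.q k63 [(.s k127 k191 7 (.d k106 k64 k192 6 14)), (.s k12 k8 1 (.s
  k29 k46 4 (.s k89 k209 9 (.d k93 k174 k81 12 1))))] (.c k106 (.l (.s k12 k8 1 (.s k46 k29 4 (.s
  k174 k93 12 (.s k110 k238 7 (.s k157 k204 12 (.d k191 k140 k127 4 7))))))) (.c k162 (.q k174 [(.d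
  k12 k8 k93 1 12), (.s k106 k192 14 (.d k127 k64 k191 6 7))] .n) (.c k174 (.q k162 [(.s k106 k192
  14 (.d k127 k64 k191 6 7)), (.s k12 k8 1 (.s k81 k243 12 (.s k89 k93 1 (.d k29 k46 k209 4 9))))]
  .n) .n)))) (.c k247 (.l (.s k12 k8 1 (.s k93 k174 12 (.s k89 k81 1 (.s k29 k209 9 (.s k63 k46 4
  (.s k106 k192 14 (.d k127 k64 k191 6 7)))))))) .n))) (.c k42 (.l (.s k213 k21 7 (.s k192 k234 6
  (.s k106 k63 14 (.d k64 k127 k128 6 7))))) (.c k63 (.f k21 k213 7 (.q k102 [(.s k68 k119 4 (.s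
  k204 k136 9 (.s k221 k238 4 (.d k153 k17 k51 9 14)))), (.s k55 k196 12 (.s k4 k38 4 (.s k12 k8 1
  (.s k93 k174 12 (.s k89 k81 1 (.d k166 k247 k243 12 14))))))] (.c k31 (.q k47 [(.s k68 k119 4 (.s
  k204 k136 9 (.s k221 k238 4 (.d k153 k17 k51 9 14)))), (.s k55 k196 12 (.s k4 k38 4 (.s k12 k8 1
  (.s k93 k174 12 (.s k89 k81 1 (.d k166 k247 k243 12 14))))))] .n) (.c k47 (.q k31 [(.s k90 k208 10
  (.s k95 k80 2 (.s k223 k159 7 (.d k16 k26 k154 2 10)))), (.s k55 k196 12 (.s k4 k38 4 (.s k247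
  k166 12 (.d k119 k68 k183 4 7))))] .n) .n)))) (.c k64 (.q k51 [(.s k17 k34 4 (.s k153 k221 9 (.s
  k119 k187 9 (.d k102 k68 k204 4 14)))), (.s k213 k21 7 (.s k192 k234 6 (.s k145 k98 12 (.s k153
  k157 1 (.d k17 k34 k221 4 9))))), (.s k21 k213 7 (.s k63 k42 6 (.s k55 k59 1 (.s k102 k196 12 (.d
  k119 k68 k187 4 9)))))] .n) (.c k106 (.f k21 k213 7 (.q k4 [(.s k12 k8 1 (.s k93 k174 12 (.s k89
  k81 1 (.d k166 k247 k243 12 14)))), (.s k55 k38 4 (.s k166 k247 12 (.s k196 k102 12 (.d k132 k183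
  k68 4 7)))), (.s k12 k8 1 (.s k42 k63 6 (.s k38 k55 4 (.s k51 k25 6 (.d k34 k46 k17 1 4)))))] (.c
  k42 (.q k234 [(.s k12 k8 1 (.s k93 k174 12 (.s k89 k81 1 (.d k166 k247 k243 12 14)))), (.s k55 k38
  4 (.s k166 k247 12 (.s k196 k102 12 (.d k132 k183 k68 4 7)))), (.s k12 k8 1 (.s k38 k55 4 (.s k25
  k51 6 (.s k29 k17 1 (.s k89 k209 9 (.d k93 k81 k174 1 12))))))] .n) (.c k234 (.l (.s k42 k63 6 (.s
  k12 k8 1 (.s k38 k55 4 (.s k51 k25 6 (.d k34 k46 k17 1 4)))))) .n)))) (.c k127 (.q k51 [(.s k17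
  k34 4 (.s k153 k221 9 (.s k119 k187 9 (.d k102 k68 k204 4 14)))), (.s k213 k21 7 (.s k192 k234 6
  (.s k145 k98 12 (.s k153 k157 1 (.d k17 k34 k221 4 9))))), (.s k21 k213 7 (.s k63 k42 6 (.s k55
  k59 1 (.s k102 k196 12 (.d k119 k68 k187 4 9)))))] .n) (.c k191 (.l (.s k213 k21 7 (.s k192 k234 6
  (.s k64 k128 7 (.d k106 k127 k63 6 14))))) (.c k192 (.f k21 k213 7 (.q k51 [(.s k17 k34 4 (.s k119
  k187 9 (.s k102 k68 4 (.d k153 k221 k204 9 14)))), (.s k34 k17 4 (.s k42 k63 6 (.s k38 k46 1 (.s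
  k4 k55 4 (.d k12 k8 k25 1 6))))), (.s k63 k42 6 (.s k55 k59 1 (.s k119 k187 9 (.d k102 k68 k196 4
  12))))] (.c k74 (.q k133 [(.s k17 k34 4 (.s k119 k187 9 (.s k102 k68 4 (.d k153 k221 k204 9
  14)))), (.s k165 k181 3 (.s k5 k245 11 (.s k53 k37 3 (.d k197 k69 k101 7 11))))] .n) (.c k133 (.q
  k74 [(.s k17 k34 4 (.s k119 k187 9 (.s k102 k68 4 (.d k153 k221 k204 9 14)))), (.s k34 k17 4 (.s
  k42 k63 6 (.s k38 k46 1 (.s k4 k55 4 (.d k12 k8 k25 1 6))))), (.s k63 k42 6 (.s k55 k59 1 (.s k119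
  k187 9 (.d k102 k68 k196 4 12))))] .n) .n)))) (.c k213 (.q k153 [(.s k221 k17 9 (.s k204 k238 4
  (.s k68 k136 9 (.d k102 k119 k51 4 14)))), (.s k221 k17 9 (.s k157 k145 1 (.s k93 k29 7 (.s k12
  k174 12 (.s k4 k8 1 (.s k166 k247 12 (.d k89 k81 k243 1 14)))))))] (.c k17 (.q k51 [(.s k119 k187
  9 (.d k102 k68 k204 4 14)), (.s k145 k157 1 (.s k192 k98 12 (.s k64 k128 7 (.d k106 k127 k63 6
  14))))] .n) (.c k221 (.q k51 [(.s k119 k187 9 (.d k102 k68 k204 4 14)), (.s k145 k157 1 (.s k192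
  k98 12 (.s k64 k128 7 (.d k106 k127 k63 6 14))))] (.c k209 (.q k217 [(.s k119 k187 9 (.d k102 k68
  k204 4 14)), (.s k145 k157 1 (.s k192 k98 12 (.s k64 k128 7 (.d k106 k127 k63 6 14))))] .n) (.c
  k217 (.q k209 [(.s k17 k34 4 (.d k145 k157 k81 1 7)), (.s k102 k204 14 (.d k119 k68 k187 4 9))]
  (.c k102 (.l (.s k145 k157 1 (.d k17 k34 k81 4 7))) .n)) .n))) .n))) (.c k234 (.l (.s k21 k213 7
  (.s k63 k42 6 (.s k106 k192 14 (.d k127 k64 k191 6 7))))) .n))))))))))))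

def t80 : T TT 256 :=
  (.f k85 k170 14 (.q k21 [(.s k63 k42 6 (.s k149 k213 7 (.s k127 k191 7 (.d k106 k64 k192 6 14))))]
  (.c k42 (.q k4 [(.s k12 k8 1 (.s k166 k247 12 (.s k93 k174 12 (.d k89 k81 k243 1 14)))), (.s k55
  k38 4 (.s k166 k247 12 (.s k149 k213 7 (.s k196 k102 12 (.d k132 k183 k68 4 7))))), (.s k12 k8 1
  (.s k38 k55 4 (.s k25 k51 6 (.s k17 k29 1 (.s k153 k221 9 (.s k89 k217 7 (.d k93 k81 k174 1
  12)))))))] (.c k106 (.q k234 [(.d k213 k192 k149 6 7), (.s k12 k8 1 (.s k166 k247 12 (.s k89 k243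
  14 (.d k93 k81 k174 1 12))))] .n) (.c k234 (.q k106 [(.s k149 k213 7 (.s k63 k192 14 (.d k127 k64
  k191 6 7))), (.s k12 k8 1 (.s k166 k247 12 (.s k89 k243 14 (.d k93 k81 k174 1 12))))] .n) .n)))
  (.c k63 (.f k149 k213 7 (.q k4 [(.s k55 k38 4 (.s k166 k247 12 (.s k196 k102 12 (.d k132 k183 k68
  4 7)))), (.s k12 k8 1 (.s k93 k174 12 (.s k89 k81 1 (.d k166 k247 k243 12 14))))] (.c k31 (.q k47
  [(.s k55 k38 4 (.s k166 k247 12 (.s k196 k102 12 (.d k132 k183 k68 4 7)))), (.s k12 k8 1 (.s k93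
  k174 12 (.s k89 k81 1 (.d k166 k247 k243 12 14))))] (.c k166 (.l (.s k55 k38 4 (.s k102 k196 12
  (.s k68 k119 4 (.s k204 k136 9 (.s k153 k51 14 (.d k221 k238 k17 4 9))))))) (.c k247 (.l (.s k12
  k8 1 (.s k38 k55 4 (.s k93 k174 12 (.s k89 k81 1 (.s k29 k209 9 (.d k25 k17 k51 1 6))))))) .n)))
  (.c k47 (.q k31 [(.s k55 k38 4 (.s k166 k247 12 (.s k196 k102 12 (.d k132 k183 k68 4 7)))), (.s
  k16 k26 2 (.s k48 k32 3 (.s k154 k223 10 (.s k101 k207 14 (.d k117 k69 k186 3 10)))))] .n) (.c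
  k166 (.l (.s k55 k38 4 (.s k102 k196 12 (.s k68 k119 4 (.s k204 k136 9 (.s k153 k51 14 (.d k221
  k238 k17 4 9))))))) (.c k247 (.l (.s k12 k8 1 (.s k38 k55 4 (.s k93 k174 12 (.s k89 k81 1 (.s k29
  k209 9 (.d k25 k17 k51 1 6))))))) .n)))))) (.c k64 (.f k149 k213 7 (.q k4 [(.s k55 k38 4 (.s k166
  k247 12 (.s k196 k102 12 (.d k132 k183 k68 4 7)))), (.s k12 k8 1 (.s k93 k174 12 (.s k89 k81 1 (.d
  k166 k247 k243 12 14)))), (.s k12 k8 1 (.s k42 k63 6 (.s k38 k55 4 (.s k51 k25 6 (.d k34 k46 k17 1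
  4)))))] (.c k96 (.q k112 [(.s k55 k38 4 (.s k166 k247 12 (.s k196 k102 12 (.d k132 k183 k68 4
  7)))), (.s k12 k8 1 (.s k93 k174 12 (.s k89 k81 1 (.d k166 k247 k243 12 14)))), (.s k12 k8 1 (.s
  k42 k63 6 (.s k38 k55 4 (.s k51 k25 6 (.d k34 k46 k17 1 4)))))] .n) (.c k112 (.q k96 [(.s k55 k38
  4 (.s k166 k247 12 (.s k196 k102 12 (.d k132 k183 k68 4 7)))), (.s k12 k8 1 (.s k93 k174 12 (.s
  k89 k81 1 (.d k166 k247 k243 12 14)))), (.s k12 k8 1 (.s k42 k63 6 (.s k38 k55 4 (.s k51 k25 6 (.d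
  k34 k46 k17 1 4)))))] .n) .n)))) (.c k106 (.q k4 [(.s k12 k8 1 (.s k166 k247 12 (.s k93 k174 12
  (.d k89 k81 k243 1 14)))), (.s k55 k38 4 (.s k166 k247 12 (.s k149 k213 7 (.s k196 k102 12 (.d
  k132 k183 k68 4 7))))), (.s k12 k8 1 (.s k42 k63 6 (.s k38 k55 4 (.s k51 k25 6 (.d k34 k46 k17 1
  4)))))] (.c k42 (.q k234 [(.d k213 k192 k149 6 7), (.s k12 k8 1 (.s k166 k247 12 (.s k89 k243 14
  (.d k93 k81 k174 1 12))))] .n) (.c k234 (.l (.s k42 k63 6 (.s k12 k8 1 (.s k38 k55 4 (.s k51 k25 6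
  (.d k34 k46 k17 1 4)))))) .n))) (.c k127 (.q k4 [(.s k12 k8 1 (.s k166 k247 12 (.s k93 k174 12 (.d
  k89 k81 k243 1 14)))), (.s k42 k63 6 (.s k38 k55 4 (.s k34 k46 1 (.s k51 k17 4 (.d k12 k8 k25 1
  6))))), (.s k63 k42 6 (.s k55 k38 4 (.s k247 k166 12 (.s k119 k183 7 (.d k51 k59 k187 1 9)))))]
  .n) (.c k149 (.q k4 [(.s k12 k8 1 (.s k166 k247 12 (.s k93 k174 12 (.d k89 k81 k243 1 14)))), (.s
  k42 k63 6 (.s k38 k55 4 (.s k34 k46 1 (.s k51 k17 4 (.d k12 k8 k25 1 6))))), (.s k63 k42 6 (.s k55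
  k38 4 (.s k247 k166 12 (.s k183 k119 7 (.d k243 k251 k123 1 9)))))] (.c k128 (.q k191 [(.d k63 k42
  k127 6 7), (.s k12 k8 1 (.s k166 k247 12 (.s k89 k243 14 (.d k93 k81 k174 1 12))))] .n) (.c k191
  (.q k128 [(.s k12 k8 1 (.s k166 k247 12 (.s k89 k243 14 (.d k93 k81 k174 1 12)))), (.s k42 k63 6
  (.s k38 k55 4 (.s k34 k46 1 (.s k51 k17 4 (.d k12 k8 k25 1 6))))), (.s k63 k42 6 (.s k55 k38 4 (.s
  k247 k166 12 (.s k183 k119 7 (.d k243 k251 k123 1 9)))))] .n) .n))) (.c k191 (.q k4 [(.s k12 k8 1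
  (.s k166 k247 12 (.s k89 k243 14 (.d k93 k81 k174 1 12)))), (.s k42 k63 6 (.s k38 k55 4 (.s k34
  k46 1 (.s k51 k17 4 (.d k12 k8 k25 1 6))))), (.s k63 k42 6 (.s k55 k38 4 (.s k247 k166 12 (.s k119
  k183 7 (.d k51 k187 k59 9 1)))))] (.c k128 (.l (.s k149 k213 7 (.s k12 k8 1 (.s k166 k247 12 (.s
  k89 k243 14 (.d k93 k81 k174 1 12)))))) (.c k149 (.q k128 [(.s k12 k8 1 (.s k166 k247 12 (.s k89
  k243 14 (.d k93 k81 k174 1 12)))), (.s k42 k63 6 (.s k38 k55 4 (.s k34 k46 1 (.s k51 k17 4 (.d k12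
  k8 k25 1 6))))), (.s k63 k42 6 (.s k55 k38 4 (.s k247 k166 12 (.s k183 k119 7 (.d k243 k251 k123 1
  9)))))] .n) .n))) (.c k192 (.f k149 k213 7 (.q k4 [(.s k55 k38 4 (.s k166 k247 12 (.s k196 k102 12
  (.d k132 k183 k68 4 7)))), (.s k12 k8 1 (.s k93 k174 12 (.s k89 k81 1 (.d k166 k247 k243 12
  14)))), (.s k12 k8 1 (.s k42 k63 6 (.s k38 k55 4 (.s k51 k25 6 (.d k34 k46 k17 1 4)))))] (.c k74
  (.q k133 [(.s k55 k38 4 (.s k166 k247 12 (.s k196 k102 12 (.d k132 k183 k68 4 7)))), (.s k165 k181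
  3 (.s k5 k245 11 (.s k53 k37 3 (.d k197 k69 k101 7 11))))] .n) (.c k133 (.q k74 [(.s k55 k38 4 (.s
  k166 k247 12 (.s k196 k102 12 (.d k132 k183 k68 4 7)))), (.s k12 k8 1 (.s k93 k174 12 (.s k89 k81
  1 (.d k166 k247 k243 12 14)))), (.s k12 k8 1 (.s k42 k63 6 (.s k38 k55 4 (.s k51 k25 6 (.d k34 k46
  k17 1 4)))))] .n) .n)))) (.c k213 (.q k4 [(.s k12 k8 1 (.s k166 k247 12 (.s k93 k174 12 (.d k89
  k81 k243 1 14)))), (.s k42 k63 6 (.s k38 k55 4 (.s k34 k46 1 (.s k51 k17 4 (.d k12 k8 k25 1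
  6))))), (.s k63 k42 6 (.s k55 k38 4 (.s k247 k166 12 (.s k119 k183 7 (.d k51 k59 k187 1 9)))))]
  .n) (.c k234 (.l (.s k149 k213 7 (.s k63 k42 6 (.s k106 k192 14 (.d k127 k64 k191 6 7)))))
  .n))))))))))))

def t81 : T TT 256 :=
  (.f k85 k170 14 (.q k21 [(.s k63 k42 6 (.s k149 k213 7 (.s k127 k191 7 (.d k106 k64 k192 6 14))))]
  (.c k42 (.f k149 k213 7 (.q k61 [(.s k1 k41 5 (.s k169 k253 13 (.s k129 k189 5 (.d k193 k65 k105 7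
  13)))), (.s k105 k193 13 (.s k65 k125 5 (.s k195 k130 8 (.s k150 k60 14 (.d k215 k235 k20 5
  8))))), (.s k1 k41 5 (.s k3 k2 0 (.s k87 k171 13 (.s k86 k84 0 (.d k169 k253 k252 13 14)))))] (.c
  k106 (.q k234 [(.s k1 k41 5 (.s k169 k253 13 (.s k129 k189 5 (.d k193 k65 k105 7 13)))), (.s k105
  k193 13 (.s k65 k125 5 (.s k195 k130 8 (.s k150 k60 14 (.d k215 k235 k20 5 8))))), (.s k1 k41 5
  (.s k3 k2 0 (.s k87 k171 13 (.s k86 k84 0 (.d k169 k253 k252 13 14)))))] (.c k253 (.l (.s k41 k1 5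
  (.s k105 k193 13 (.s k233 k169 7 (.s k65 k125 5 (.s k195 k130 8 (.d k235 k232 k215 0 5))))))) .n))
  (.c k234 (.q k106 [(.s k63 k192 14 (.d k127 k64 k191 6 7)), (.s k1 k41 5 (.s k169 k253 13 (.s k193
  k105 13 (.d k129 k189 k65 5 7))))] .n) (.c k253 (.l (.s k1 k41 5 (.s k3 k2 0 (.s k87 k171 13 (.s
  k193 k105 13 (.s k129 k65 7 (.s k86 k84 0 (.d k169 k189 k252 5 14)))))))) .n))))) (.c k63 (.f k149
  k213 7 (.q k61 [(.s k1 k41 5 (.s k169 k253 13 (.s k193 k105 13 (.d k129 k189 k65 5 7)))), (.s k1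
  k41 5 (.s k3 k2 0 (.s k87 k171 13 (.s k86 k84 0 (.d k169 k253 k252 13 14))))), (.s k105 k193 13
  (.s k65 k125 5 (.s k195 k130 8 (.s k150 k60 14 (.d k215 k235 k20 5 8)))))] (.c k31 (.q k47 [(.s k1
  k41 5 (.s k169 k253 13 (.s k193 k105 13 (.d k129 k189 k65 5 7)))), (.s k1 k41 5 (.s k3 k2 0 (.s
  k87 k171 13 (.s k86 k84 0 (.d k169 k253 k252 13 14))))), (.s k105 k193 13 (.s k65 k125 5 (.s k195
  k130 8 (.s k150 k60 14 (.d k215 k235 k20 5 8)))))] (.c k253 (.l (.s k1 k41 5 (.s k3 k2 0 (.s k87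
  k171 13 (.s k193 k105 13 (.s k129 k65 7 (.s k86 k84 0 (.d k169 k189 k252 5 14)))))))) .n)) (.c k47
  (.q k31 [(.s k1 k41 5 (.s k169 k253 13 (.s k193 k105 13 (.d k129 k189 k65 5 7)))), (.s k16 k26 2
  (.s k154 k223 10 (.s k208 k90 10 (.d k144 k159 k80 2 7))))] .n) (.c k253 (.l (.s k1 k41 5 (.s k3
  k2 0 (.s k87 k171 13 (.s k193 k105 13 (.s k129 k65 7 (.s k86 k84 0 (.d k169 k189 k252 5 14))))))))
  .n))))) (.c k64 (.f k149 k213 7 (.q k61 [(.s k1 k41 5 (.s k169 k253 13 (.s k193 k105 13 (.d k129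
  k189 k65 5 7)))), (.s k63 k42 6 (.s k60 k62 0 (.s k125 k190 8 (.d k105 k65 k193 5 13)))), (.s k63
  k42 6 (.s k1 k41 5 (.s k60 k62 0 (.s k125 k190 8 (.d k253 k189 k169 7 13)))))] (.c k98 (.q k115
  [(.s k1 k41 5 (.s k169 k253 13 (.s k193 k105 13 (.d k129 k189 k65 5 7)))), (.s k63 k42 6 (.s k60
  k62 0 (.s k125 k190 8 (.d k105 k65 k193 5 13)))), (.s k63 k42 6 (.s k1 k41 5 (.s k60 k62 0 (.s
  k125 k190 8 (.d k253 k189 k169 7 13)))))] .n) (.c k115 (.q k98 [(.s k1 k41 5 (.s k169 k253 13 (.s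
  k193 k105 13 (.d k129 k189 k65 5 7)))), (.s k63 k42 6 (.s k60 k62 0 (.s k125 k190 8 (.d k105 k65
  k193 5 13)))), (.s k63 k42 6 (.s k1 k41 5 (.s k60 k62 0 (.s k125 k190 8 (.d k253 k189 k169 7
  13)))))] .n) .n)))) (.c k106 (.q k61 [(.s k1 k41 5 (.s k3 k2 0 (.s k169 k253 13 (.s k87 k171 13
  (.d k86 k84 k252 0 14))))), (.s k149 k213 7 (.s k105 k193 13 (.s k65 k125 5 (.s k195 k130 8 (.s
  k150 k60 14 (.d k215 k235 k20 5 8))))))] (.c k42 (.q k234 [(.d k213 k192 k149 6 7), (.s k1 k41 5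
  (.s k3 k2 0 (.s k169 k253 13 (.s k86 k252 14 (.d k87 k84 k171 0 13)))))] .n) (.c k234 (.l (.s k42
  k63 6 (.s k1 k41 5 (.s k3 k2 0 (.s k169 k253 13 (.s k86 k252 14 (.d k87 k84 k171 0 13))))))) (.c
  k253 (.l (.s k42 k63 6 (.s k41 k1 5 (.s k149 k213 7 (.s k40 k43 0 (.s k60 k20 5 (.s k125 k190 8
  (.d k105 k193 k65 13 5)))))))) .n)))) (.c k127 (.q k61 [(.s k1 k41 5 (.s k3 k2 0 (.s k169 k253 13
  (.s k86 k252 14 (.d k87 k84 k171 0 13))))), (.s k63 k42 6 (.s k149 k213 7 (.s k60 k62 0 (.s k125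
  k190 8 (.d k105 k65 k193 5 13))))), (.s k63 k42 6 (.s k1 k41 5 (.s k253 k169 13 (.s k125 k189 7
  (.d k60 k62 k190 0 8)))))] .n) (.c k149 (.q k61 [(.s k1 k41 5 (.s k3 k2 0 (.s k169 k253 13 (.s k86
  k252 14 (.d k87 k84 k171 0 13))))), (.s k63 k42 6 (.s k60 k62 0 (.s k20 k40 5 (.s k150 k215 8 (.s
  k105 k195 14 (.d k125 k65 k190 5 8))))))] (.c k2 (.l (.s k63 k42 6 (.s k1 k41 5 (.s k253 k169 13
  (.s k189 k125 7 (.d k252 k254 k126 0 8)))))) (.c k41 (.l (.s k63 k42 6 (.s k60 k62 0 (.s k125 k190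
  8 (.s k189 k253 7 (.s k126 k252 8 (.d k127 k124 k191 0 7))))))) (.c k128 (.q k191 [(.d k63 k42
  k127 6 7), (.s k1 k41 5 (.s k3 k2 0 (.s k169 k253 13 (.s k86 k252 14 (.d k87 k84 k171 0 13)))))]
  .n) (.c k191 (.q k128 [(.s k1 k41 5 (.s k3 k2 0 (.s k169 k253 13 (.s k86 k252 14 (.d k87 k84 k171
  0 13))))), (.s k63 k42 6 (.s k60 k62 0 (.s k20 k40 5 (.s k150 k215 8 (.s k105 k195 14 (.d k125 k65
  k190 5 8))))))] (.c k2 (.l (.s k63 k42 6 (.s k1 k41 5 (.s k253 k169 13 (.s k189 k125 7 (.d k252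
  k254 k126 0 8)))))) (.c k41 (.l (.s k63 k42 6 (.s k60 k62 0 (.s k125 k190 8 (.s k105 k65 5 (.s
  k150 k195 14 (.d k20 k40 k215 5 8))))))) .n))) .n))))) (.c k191 (.q k61 [(.s k1 k41 5 (.s k3 k2 0
  (.s k169 k253 13 (.s k86 k252 14 (.d k87 k84 k171 0 13))))), (.s k63 k42 6 (.s k149 k213 7 (.s k60
  k62 0 (.s k125 k190 8 (.d k105 k65 k193 5 13))))), (.s k63 k42 6 (.s k1 k41 5 (.s k253 k169 13 (.s
  k125 k189 7 (.d k60 k190 k62 8 0)))))] (.c k128 (.l (.s k149 k213 7 (.s k63 k42 6 (.s k60 k62 0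
  (.s k125 k190 8 (.d k105 k65 k193 5 13)))))) (.c k149 (.q k128 [(.s k1 k41 5 (.s k3 k2 0 (.s k169
  k253 13 (.s k86 k252 14 (.d k87 k84 k171 0 13))))), (.s k63 k42 6 (.s k60 k62 0 (.s k20 k40 5 (.s
  k150 k215 8 (.s k105 k195 14 (.d k125 k65 k190 5 8))))))] (.c k2 (.l (.s k63 k42 6 (.s k1 k41 5
  (.s k253 k169 13 (.s k189 k125 7 (.d k252 k254 k126 0 8)))))) (.c k41 (.l (.s k63 k42 6 (.s k60
  k62 0 (.s k125 k190 8 (.s k105 k65 5 (.s k150 k195 14 (.d k20 k40 k215 5 8))))))) .n))) .n))) (.c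
  k192 (.f k149 k213 7 (.q k61 [(.s k1 k41 5 (.s k169 k253 13 (.s k193 k105 13 (.d k129 k189 k65 5
  7)))), (.s k63 k42 6 (.s k60 k62 0 (.s k125 k190 8 (.d k105 k65 k193 5 13)))), (.s k63 k42 6 (.s
  k1 k41 5 (.s k60 k62 0 (.s k125 k190 8 (.d k253 k189 k169 7 13)))))] (.c k74 (.q k133 [(.s k1 k41
  5 (.s k169 k253 13 (.s k193 k105 13 (.d k129 k189 k65 5 7)))), (.s k165 k181 3 (.s k5 k245 11 (.s
  k53 k37 3 (.d k197 k69 k101 7 11))))] .n) (.c k133 (.q k74 [(.s k1 k41 5 (.s k169 k253 13 (.s k193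
  k105 13 (.d k129 k189 k65 5 7)))), (.s k63 k42 6 (.s k60 k62 0 (.s k125 k190 8 (.d k105 k65 k193 5
  13)))), (.s k63 k42 6 (.s k1 k41 5 (.s k60 k62 0 (.s k125 k190 8 (.d k253 k189 k169 7 13)))))] .n)
  .n)))) (.c k213 (.q k61 [(.s k1 k41 5 (.s k3 k2 0 (.s k169 k253 13 (.s k86 k252 14 (.d k87 k84
  k171 0 13))))), (.s k63 k42 6 (.s k60 k62 0 (.s k20 k40 5 (.s k150 k215 8 (.s k105 k195 14 (.d
  k125 k65 k190 5 8))))))] (.c k2 (.l (.s k63 k42 6 (.s k1 k41 5 (.s k253 k169 13 (.s k125 k189 7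
  (.d k60 k62 k190 0 8)))))) (.c k41 (.l (.s k63 k42 6 (.s k60 k62 0 (.s k125 k190 8 (.s k189 k253 7
  (.s k126 k252 8 (.d k127 k124 k191 0 7))))))) .n))) (.c k234 (.l (.s k149 k213 7 (.s k63 k42 6 (.s
  k106 k192 14 (.d k127 k64 k191 6 7))))) .n))))))))))))

def t82 : T TT 256 :=
  (.f k85 k170 14 (.q k149 [(.s k21 k213 7 (.s k63 k42 6 (.s k127 k191 7 (.d k106 k64 k192 6 14))))]
  (.c k21 (.q k51 [(.s k17 k34 4 (.s k153 k221 9 (.s k119 k187 9 (.d k102 k68 k204 4 14)))), (.s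
  k119 k187 9 (.s k102 k68 4 (.s k55 k196 12 (.s k63 k59 1 (.s k106 k192 14 (.d k127 k64 k191 6
  7)))))), (.s k17 k34 4 (.s k153 k221 9 (.s k145 k157 1 (.s k192 k98 12 (.s k64 k128 7 (.d k106
  k127 k63 6 14))))))] (.c k102 (.q k3 [(.s k1 k2 0 (.s k169 k253 13 (.s k87 k171 13 (.d k86 k84
  k252 0 14)))), (.s k2 k1 0 (.s k34 k17 4 (.s k18 k50 3 (.s k33 k48 4 (.d k35 k32 k19 0 3))))), (.s
  k19 k35 3 (.s k87 k171 13 (.s k155 k223 9 (.s k103 k207 13 (.d k119 k71 k187 3 9)))))] (.c k34 (.q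
  k238 [(.s k87 k171 13 (.s k86 k84 0 (.s k169 k252 14 (.d k1 k2 k253 0 13)))), (.s k35 k19 3 (.s
  k171 k87 13 (.s k103 k239 9 (.s k155 k207 13 (.d k187 k139 k119 3 9))))), (.s k1 k2 0 (.s k169
  k253 13 (.s k19 k35 3 (.s k86 k252 14 (.s k153 k220 10 (.d k221 k204 k17 4 9))))))] .n) (.c k238
  (.l (.s k34 k17 4 (.s k1 k2 0 (.s k169 k253 13 (.s k86 k252 14 (.d k87 k84 k171 0 13)))))) .n)))
  (.c k153 (.q k3 [(.s k1 k2 0 (.s k169 k253 13 (.s k87 k171 13 (.d k86 k84 k252 0 14)))), (.s k2 k1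
  0 (.s k34 k17 4 (.s k18 k50 3 (.s k33 k48 4 (.d k35 k32 k19 0 3))))), (.s k17 k34 4 (.s k19 k35 3
  (.s k87 k171 13 (.s k223 k155 9 (.d k16 k154 k18 10 0)))))] (.c k136 (.l (.s k187 k119 9 (.s k1 k2
  0 (.s k169 k253 13 (.s k86 k252 14 (.d k87 k84 k171 0 13)))))) (.c k187 (.q k136 [(.s k1 k2 0 (.s
  k169 k253 13 (.s k86 k252 14 (.d k87 k84 k171 0 13)))), (.s k2 k1 0 (.s k34 k17 4 (.s k18 k50 3
  (.s k33 k48 4 (.d k35 k32 k19 0 3))))), (.s k68 k204 9 (.s k19 k35 3 (.s k87 k171 13 (.s k155 k223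
  9 (.s k103 k207 13 (.d k119 k71 k102 3 4))))))] .n) .n))) .n))) (.c k42 (.l (.s k213 k21 7 (.s
  k192 k234 6 (.s k106 k63 14 (.d k64 k127 k128 6 7))))) (.c k63 (.q k31 [(.s k21 k213 7 (.s k16 k26
  2 (.s k154 k223 10 (.s k144 k159 2 (.d k208 k80 k90 7 10))))), (.s k213 k21 7 (.s k208 k90 10 (.s
  k192 k234 6 (.s k240 k224 3 (.s k218 k223 2 (.s k229 k207 6 (.d k245 k250 k197 2 3))))))), (.s k21
  k213 7 (.s k16 k26 2 (.s k48 k32 3 (.s k117 k186 10 (.s k101 k69 3 (.d k154 k223 k207 10 14)))))),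
  (.s k90 k208 10 (.s k95 k80 2 (.s k223 k159 7 (.s k207 k239 3 (.s k69 k138 10 (.s k101 k117 3 (.d
  k154 k16 k48 10 14)))))))] (.c k207 (.l (.s k21 k213 7 (.s k16 k26 2 (.s k154 k223 10 (.s k208 k90
  10 (.d k144 k159 k80 2 7)))))) (.c k223 (.f k21 k213 7 (.l (.s k16 k26 2 (.s k48 k32 3 (.s k208
  k90 10 (.s k144 k80 7 (.s k117 k186 10 (.s k101 k69 3 (.d k154 k159 k207 2 14))))))))) .n))) (.c
  k64 (.q k4 [(.s k12 k8 1 (.s k166 k247 12 (.s k93 k174 12 (.d k89 k81 k243 1 14)))), (.s k166 k247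
  12 (.s k21 k213 7 (.s k55 k38 4 (.s k196 k102 12 (.d k132 k183 k68 4 7))))), (.s k12 k8 1 (.s k21
  k213 7 (.s k42 k63 6 (.s k38 k55 4 (.s k51 k25 6 (.d k34 k46 k17 1 4))))))] .n) (.c k106 (.f k21
  k213 7 (.q k4 [(.s k12 k8 1 (.s k166 k247 12 (.s k93 k174 12 (.d k89 k81 k243 1 14)))), (.s k55
  k38 4 (.s k166 k247 12 (.s k196 k102 12 (.d k132 k183 k68 4 7)))), (.s k12 k8 1 (.s k42 k63 6 (.s
  k38 k55 4 (.s k51 k25 6 (.d k34 k46 k17 1 4)))))] (.c k42 (.q k234 [(.s k12 k8 1 (.s k166 k247 12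
  (.s k93 k174 12 (.d k89 k81 k243 1 14)))), (.s k55 k38 4 (.s k166 k247 12 (.s k196 k102 12 (.d
  k132 k183 k68 4 7)))), (.s k12 k8 1 (.s k38 k55 4 (.s k25 k51 6 (.s k29 k17 1 (.s k89 k209 9 (.d
  k93 k81 k174 1 12))))))] .n) (.c k234 (.l (.s k42 k63 6 (.s k12 k8 1 (.s k38 k55 4 (.s k51 k25 6
  (.d k34 k46 k17 1 4)))))) .n)))) (.c k127 (.q k4 [(.s k12 k8 1 (.s k166 k247 12 (.s k93 k174 12
  (.d k89 k81 k243 1 14)))), (.s k166 k247 12 (.s k21 k213 7 (.s k55 k38 4 (.s k196 k102 12 (.d k132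
  k183 k68 4 7))))), (.s k12 k8 1 (.s k21 k213 7 (.s k42 k63 6 (.s k38 k55 4 (.s k51 k25 6 (.d k34
  k46 k17 1 4))))))] .n) (.c k191 (.l (.s k213 k21 7 (.s k192 k234 6 (.s k64 k128 7 (.d k106 k127
  k63 6 14))))) (.c k192 (.f k21 k213 7 (.q k4 [(.s k55 k38 4 (.s k166 k247 12 (.s k196 k102 12 (.d
  k132 k183 k68 4 7)))), (.s k12 k8 1 (.s k93 k174 12 (.s k89 k81 1 (.d k166 k247 k243 12 14)))),
  (.s k12 k8 1 (.s k42 k63 6 (.s k38 k55 4 (.s k51 k25 6 (.d k34 k46 k17 1 4)))))] (.c k74 (.q k133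
  [(.s k55 k38 4 (.s k166 k247 12 (.s k196 k102 12 (.d k132 k183 k68 4 7)))), (.s k165 k181 3 (.s k5
  k245 11 (.s k53 k37 3 (.d k197 k69 k101 7 11))))] .n) (.c k133 (.q k74 [(.s k55 k38 4 (.s k166
  k247 12 (.s k196 k102 12 (.d k132 k183 k68 4 7)))), (.s k12 k8 1 (.s k93 k174 12 (.s k89 k81 1 (.d
  k166 k247 k243 12 14)))), (.s k12 k8 1 (.s k42 k63 6 (.s k38 k55 4 (.s k51 k25 6 (.d k34 k46 k17 1
  4)))))] .n) .n)))) (.c k213 (.q k51 [(.s k17 k34 4 (.s k119 k187 9 (.s k102 k68 4 (.d k153 k221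
  k204 9 14)))), (.s k17 k34 4 (.s k153 k221 9 (.s k145 k157 1 (.s k192 k98 12 (.s k64 k128 7 (.d
  k106 k127 k63 6 14)))))), (.s k119 k187 9 (.s k102 k68 4 (.s k55 k196 12 (.s k63 k59 1 (.s k106
  k192 14 (.d k127 k64 k191 6 7))))))] (.c k102 (.q k4 [(.s k12 k8 1 (.s k166 k247 12 (.s k93 k174
  12 (.d k89 k81 k243 1 14)))), (.s k12 k8 1 (.s k34 k17 4 (.s k38 k25 6 (.s k21 k55 4 (.d k42 k46
  k63 1 6))))), (.s k247 k166 12 (.s k119 k187 9 (.s k55 k183 7 (.s k63 k59 1 (.d k21 k38 k42 4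
  6)))))] (.c k34 (.q k238 [(.s k12 k8 1 (.s k166 k247 12 (.s k93 k174 12 (.d k89 k81 k243 1 14)))),
  (.s k166 k247 12 (.s k132 k183 4 (.s k204 k221 4 (.d k68 k196 k136 7 9)))), (.s k12 k8 1 (.s k221
  k204 4 (.s k153 k17 9 (.s k157 k145 1 (.d k93 k29 k174 7 12)))))] .n) (.c k238 (.l (.s k34 k17 4
  (.s k12 k8 1 (.s k166 k247 12 (.s k89 k243 14 (.d k93 k81 k174 1 12)))))) (.c k251 (.l (.s k166
  k247 12 (.s k12 k8 1 (.s k89 k243 14 (.d k93 k81 k174 1 12))))) .n)))) (.c k153 (.q k4 [(.s k12 k8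
  1 (.s k166 k247 12 (.s k93 k174 12 (.d k89 k81 k243 1 14)))), (.s k166 k247 12 (.s k132 k183 4 (.s
  k196 k68 7 (.s k55 k102 12 (.s k21 k38 4 (.d k63 k59 k42 1 6)))))), (.s k12 k8 1 (.s k34 k17 4 (.s
  k38 k25 6 (.s k21 k55 4 (.d k42 k46 k63 1 6)))))] (.c k136 (.l (.s k187 k119 9 (.s k12 k8 1 (.s
  k166 k247 12 (.s k89 k243 14 (.d k93 k81 k174 1 12)))))) (.c k187 (.q k136 [(.s k68 k204 9 (.s
  k196 k132 7 (.d k102 k119 k55 4 12))), (.s k12 k8 1 (.s k93 k174 12 (.s k89 k81 1 (.d k166 k247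
  k243 12 14))))] .n) .n))) .n))) (.c k234 (.l (.s k21 k213 7 (.s k63 k42 6 (.s k106 k192 14 (.d
  k127 k64 k191 6 7))))) .n))))))))))))

theorem c48 : rootOK2 k255 k15 k48 t48 = true := by decide +kernel

theorem c49 : rootOK2 k255 k15 k49 t49 = true := by decide +kernel

theorem c51 : rootOK2 k255 k15 k51 t51 = true := by decide +kernel

theorem c53 : rootOK2 k255 k15 k53 t53 = true := by decide +kernel

theorem c54 : rootOK2 k255 k15 k54 t54 = true := by decide +kernel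

theorem c80 : rootOK2 k255 k15 k80 t80 = true := by decide +kernel

theorem c81 : rootOK2 k255 k15 k81 t81 = true := by decide +kernel

theorem c82 : rootOK2 k255 k15 k82 t82 = true := by decide +kernel

def l : List Nat :=
  [k48.c, k49.c, k51.c, k53.c, k54.c, k80.c, k81.c, k82.c]

theorem ok : AllQ k255.c k15.c l :=
  allQ_cons c48 (allQ_cons c49 (allQ_cons c51 (allQ_cons c53 (allQ_cons c54 (allQ_cons c80 (
  allQ_cons c81 (allQ_cons c82 (allQ_nil _ _))))))))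

end Pool.Agent.TTT.D02
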