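import Pool.Agent.TTT.Sym2

set_option autoImplicit false
set_option maxRecDepth 100000

namespace Pool.Agent.TTT.D03

def t85_1 : T TT 256 :=
  (.q k169 [(.s k171 k87 13 (.s k168 k170 0 (.d k252 k84 k86 13 14)))] (.c k84 (.q k51 [(.s k19 k35
  3 (.s k87 k171 13 (.s k119 k187 9 (.s k103 k71 3 (.d k155 k223 k207 9 13))))), (.s k34 k17 4 (.s
  k35 k19 3 (.s k102 k236 10 (.s k238 k170 9 (.d k204 k221 k153 4 14))))), (.s k34 k17 4 (.s k86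
  k252 14 (.s k171 k87 13 (.s k187 k119 9 (.s k170 k168 0 (.s k102 k238 9 (.d k153 k136 k204 4
  14)))))))] (.c k86 (.l (.s k87 k171 13 (.s k19 k35 3 (.s k155 k223 9 (.s k103 k207 13 (.d k119 k71
  k187 3 9)))))) (.c k87 (.l (.s k86 k252 14 (.s k19 k35 3 (.s k153 k220 10 (.s k204 k102 14 (.d
  k137 k185 k70 3 10)))))) .n))) (.c k86 (.f k87 k171 13 (.q k51 [(.s k19 k35 3 (.s k155 k223 9 (.s
  k119 k187 9 (.d k103 k71 k207 3 13)))), (.s k34 k17 4 (.s k35 k19 3 (.s k102 k236 10 (.s k238 k170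
  9 (.d k204 k221 k153 4 14)))))] (.c k16 (.l (.s k19 k35 3 (.s k119 k187 9 (.s k103 k71 3 (.d k155
  k223 k207 9 13))))) (.c k19 (.q k153 [(.s k137 k185 3 (.d k204 k70 k102 10 14)), (.s k187 k119 9
  (.s k136 k170 4 (.d k204 k68 k102 9 14))), (.s k119 k187 9 (.s k185 k137 3 (.s k118 k252 10 (.s
  k117 k116 0 (.s k48 k186 10 (.d k49 k50 k253 0 9))))))] .n) (.c k35 (.q k153 [(.s k137 k185 3 (.d
  k204 k70 k102 10 14)), (.s k187 k119 9 (.s k136 k170 4 (.d k204 k68 k102 9 14))), (.s k119 k187 9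
  (.s k185 k137 3 (.s k118 k252 10 (.s k117 k116 0 (.s k48 k186 10 (.d k49 k50 k253 0 9))))))] (.c
  k103 (.q k239 [(.s k137 k185 3 (.d k204 k70 k102 10 14)), (.s k187 k119 9 (.s k136 k170 4 (.d k204
  k68 k102 9 14))), (.s k137 k185 3 (.s k207 k223 3 (.s k138 k69 10 (.d k139 k136 k71 0 9))))] .n)
  (.c k239 (.q k103 [(.d k119 k71 k187 3 9), (.s k137 k185 3 (.d k204 k70 k102 10 14))] .n) .n)))
  .n))))) (.c k87 (.q k51 [(.s k19 k35 3 (.s k86 k252 14 (.s k153 k220 10 (.s k204 k102 14 (.d k137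
  k185 k70 3 10))))), (.s k252 k86 14 (.s k84 k168 13 (.s k118 k185 10 (.s k119 k187 9 (.s k117 k116
  0 (.s k186 k48 10 (.d k254 k253 k50 0 9))))))), (.s k34 k17 4 (.s k35 k19 3 (.s k102 k236 10 (.s
  k238 k170 9 (.d k204 k221 k153 4 14)))))] (.c k84 (.l (.s k86 k252 14 (.s k19 k35 3 (.s k153 k220
  10 (.s k204 k102 14 (.d k137 k185 k70 3 10)))))) (.c k86 (.q k84 [(.s k34 k17 4 (.s k168 k252 13
  (.s k170 k171 0 (.s k102 k238 9 (.d k35 k19 k236 3 10))))), (.s k252 k168 13 (.s k35 k19 3 (.s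
  k102 k236 10 (.s k153 k204 14 (.d k185 k137 k118 3 10))))), (.s k34 k17 4 (.s k168 k252 13 (.s
  k187 k119 9 (.s k170 k171 0 (.s k102 k238 9 (.d k153 k136 k204 4 14)))))), (.s k34 k17 4 (.s k35
  k19 3 (.s k102 k236 10 (.s k238 k170 9 (.d k204 k221 k153 4 14)))))] (.c k102 (.l (.s k168 k252 13
  (.s k35 k19 3 (.s k171 k170 0 (.s k103 k239 9 (.s k155 k207 13 (.d k187 k139 k119 3 9))))))) (.c
  k153 (.l (.s k168 k252 13 (.s k187 k119 9 (.s k171 k170 0 (.s k155 k139 3 (.s k103 k207 13 (.d k35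
  k19 k239 3 9))))))) .n))) .n))) (.c k168 (.q k51 [(.s k19 k35 3 (.s k86 k252 14 (.s k153 k220 10
  (.s k204 k102 14 (.d k137 k185 k70 3 10))))), (.s k19 k35 3 (.s k87 k171 13 (.s k155 k223 9 (.s
  k103 k207 13 (.d k119 k71 k187 3 9))))), (.s k252 k86 14 (.s k118 k185 10 (.s k119 k187 9 (.s k117
  k116 0 (.s k186 k48 10 (.d k254 k253 k50 0 9))))))] (.c k119 (.l (.s k34 k17 4 (.s k35 k19 3 (.s
  k102 k236 10 (.s k238 k170 9 (.d k204 k221 k153 4 14)))))) .n)) (.c k170 (.q k51 [(.s k19 k35 3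
  (.s k86 k252 14 (.s k153 k220 10 (.s k137 k185 3 (.d k204 k70 k102 10 14))))), (.s k19 k35 3 (.s
  k87 k171 13 (.s k155 k223 9 (.s k103 k207 13 (.d k119 k71 k187 3 9))))), (.s k252 k86 14 (.s k118
  k185 10 (.s k119 k187 9 (.s k117 k116 0 (.s k186 k48 10 (.d k254 k253 k50 0 9))))))] .n) (.c k171
  (.q k51 [(.s k34 k17 4 (.s k35 k19 3 (.s k102 k236 10 (.s k238 k170 9 (.d k204 k221 k153 4
  14))))), (.s k252 k86 14 (.s k118 k185 10 (.s k119 k187 9 (.s k117 k116 0 (.s k186 k48 10 (.d k254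
  k253 k50 0 9))))))] .n) (.c k252 (.q k51 [(.s k34 k17 4 (.s k35 k19 3 (.s k102 k236 10 (.s k238
  k170 9 (.d k204 k221 k153 4 14))))), (.s k19 k35 3 (.s k87 k171 13 (.s k155 k223 9 (.s k103 k207
  13 (.d k119 k71 k187 3 9))))), (.s k34 k17 4 (.s k171 k87 13 (.s k187 k119 9 (.s k170 k168 0 (.s
  k102 k238 9 (.d k153 k136 k204 4 14))))))] (.c k94 (.q k173 [(.s k34 k17 4 (.s k35 k19 3 (.s k102
  k236 10 (.s k238 k170 9 (.d k204 k221 k153 4 14))))), (.s k19 k35 3 (.s k87 k171 13 (.s k155 k223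
  9 (.s k103 k207 13 (.d k119 k71 k187 3 9))))), (.s k34 k17 4 (.s k171 k87 13 (.s k187 k119 9 (.s
  k170 k168 0 (.s k102 k238 9 (.d k153 k136 k204 4 14))))))] .n) (.c k173 (.q k94 [(.s k34 k17 4 (.s
  k171 k87 13 (.s k170 k168 0 (.s k102 k238 9 (.d k35 k19 k236 3 10))))), (.s k19 k35 3 (.s k87 k171
  13 (.s k155 k223 9 (.s k103 k207 13 (.d k119 k71 k187 3 9))))), (.s k34 k17 4 (.s k171 k87 13 (.s
  k187 k119 9 (.s k170 k168 0 (.s k102 k238 9 (.d k153 k136 k204 4 14)))))), (.s k34 k17 4 (.s k35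
  k19 3 (.s k102 k236 10 (.s k238 k170 9 (.d k204 k221 k153 4 14)))))] .n) .n))) .n))))))))

def t85_2 : T TT 256 :=
  (.q k51 [(.s k19 k35 3 (.s k87 k171 13 (.s k119 k187 9 (.s k103 k71 3 (.d k155 k223 k207 9
  13)))))] (.c k19 (.q k23 [(.s k63 k43 5 (.s k87 k171 13 (.s k127 k191 7 (.s k107 k67 5 (.d k151
  k215 k195 7 13))))), (.s k17 k34 4 (.s k63 k43 5 (.s k21 k42 6 (.s k25 k29 1 (.s k38 k12 6 (.d k55
  k59 k4 1 4)))))), (.s k87 k171 13 (.s k151 k215 7 (.s k119 k187 9 (.s k103 k71 3 (.s k55 k199 11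
  (.s k7 k39 3 (.d k247 k183 k167 7 11)))))))] .n) (.c k35 (.q k23 [(.s k63 k43 5 (.s k87 k171 13
  (.s k127 k191 7 (.s k107 k67 5 (.d k151 k215 k195 7 13))))), (.s k17 k34 4 (.s k63 k43 5 (.s k21
  k42 6 (.s k25 k29 1 (.s k38 k12 6 (.d k55 k59 k4 1 4)))))), (.s k87 k171 13 (.s k151 k215 7 (.s
  k119 k187 9 (.s k103 k71 3 (.s k55 k199 11 (.s k247 k183 7 (.d k7 k39 k167 3 11)))))))] (.c k39
  (.l (.s k87 k171 13 (.s k151 k215 7 (.s k119 k187 9 (.s k103 k71 3 (.s k55 k199 11 (.d k63 k59 k43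
  1 5))))))) .n)) (.c k71 (.l (.s k35 k19 3 (.s k171 k87 13 (.s k103 k239 9 (.s k155 k207 13 (.d
  k187 k119 k139 9 3)))))) (.c k87 (.q k86 [(.s k19 k35 3 (.s k153 k220 10 (.s k187 k119 9 (.s k136
  k170 4 (.d k204 k68 k102 9 14))))), (.s k252 k169 14 (.s k118 k185 10 (.s k119 k187 9 (.s k117
  k116 0 (.s k186 k48 10 (.d k254 k253 k50 0 9)))))), (.s k34 k17 4 (.s k252 k169 14 (.s k118 k185
  10 (.s k102 k70 3 (.s k238 k170 9 (.d k204 k221 k153 4 14))))))] (.c k153 (.l (.s k252 k169 14 (.s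
  k185 k118 10 (.s k187 k119 9 (.s k186 k184 0 (.s k117 k48 10 (.d k253 k254 k49 0 9))))))) .n)) (.c
  k103 (.q k86 [(.s k19 k35 3 (.s k153 k220 10 (.s k187 k119 9 (.s k136 k170 4 (.d k204 k68 k102 9
  14))))), (.s k34 k17 4 (.s k252 k169 14 (.s k118 k185 10 (.s k102 k70 3 (.s k238 k170 9 (.d k204
  k221 k153 4 14)))))), (.s k35 k19 3 (.s k169 k252 14 (.s k102 k236 10 (.s k204 k153 14 (.d k70
  k118 k137 3 10)))))] (.c k102 (.l (.s k19 k35 3 (.s k169 k252 14 (.s k171 k87 13 (.s k153 k220 10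
  (.s k170 k168 0 (.d k187 k119 k136 9 4))))))) (.c k153 (.l (.s k35 k19 3 (.s k169 k252 14 (.s k171
  k87 13 (.s k102 k236 10 (.s k170 k168 0 (.d k34 k17 k238 4 9))))))) (.c k204 (.l (.s k17 k34 4 (.s
  k19 k35 3 (.s k252 k169 14 (.s k84 k168 13 (.s k220 k153 10 (.d k16 k18 k152 0 9))))))) .n)))) (.c
  k119 (.f k19 k35 3 (.q k86 [(.s k169 k252 14 (.s k153 k220 10 (.s k137 k185 3 (.d k204 k102 k70 14
  10)))), (.s k17 k34 4 (.s k87 k171 13 (.s k18 k16 0 (.s k154 k222 9 (.s k153 k220 10 (.d k155 k152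
  k223 0 9)))))), (.s k17 k34 4 (.s k169 k252 14 (.s k18 k16 0 (.s k154 k222 9 (.s k139 k184 4 (.s
  k207 k71 9 (.d k48 k33 k101 4 14)))))))] (.c k68 (.q k102 [(.d k153 k220 k204 10 14), (.s k252
  k169 14 (.d k118 k70 k185 3 10))] .n) (.c k102 (.q k68 [(.s k204 k136 9 (.s k220 k153 10 (.d k252
  k236 k169 3 14))), (.s k204 k136 9 (.s k70 k137 10 (.s k87 k171 13 (.s k155 k223 9 (.s k69 k71 0
  (.d k207 k138 k103 10 13)))))), (.s k17 k34 4 (.s k87 k171 13 (.s k18 k16 0 (.s k154 k222 9 (.s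
  k153 k220 10 (.d k155 k152 k223 0 9))))))] (.c k169 (.q k236 [(.s k204 k136 9 (.d k220 k252 k153 3
  10)), (.s k17 k34 4 (.s k87 k171 13 (.s k18 k16 0 (.s k154 k222 9 (.s k153 k220 10 (.d k155 k152
  k223 0 9))))))] (.c k1 (.q k253 [(.s k204 k136 9 (.d k220 k252 k153 3 10)), (.s k17 k34 4 (.s k252
  k254 0 (.s k168 k84 13 (.s k32 k100 9 (.d k16 k18 k48 0 3)))))] (.c k252 (.l (.s k204 k136 9 (.s
  k87 k171 13 (.s k220 k153 10 (.s k223 k155 9 (.d k221 k222 k238 0 4)))))) .n)) (.c k153 (.l (.s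
  k204 k136 9 (.s k87 k171 13 (.s k223 k155 9 (.s k220 k252 3 (.d k221 k222 k238 0 4)))))) (.c k220
  (.l (.s k204 k136 9 (.s k87 k171 13 (.s k223 k155 9 (.s k238 k221 4 (.d k239 k237 k207 0 3))))))
  (.c k253 (.q k1 [(.s k204 k136 9 (.d k220 k252 k153 3 10)), (.s k17 k34 4 (.s k33 k49 3 (.d k18
  k16 k48 0 4)))] .n) .n))))) (.c k236 (.l (.s k169 k252 14 (.s k204 k136 9 (.s k137 k70 10 (.d k153
  k220 k185 10 3))))) .n))) .n)))) (.c k139 (.l (.s k19 k35 3 (.s k87 k171 13 (.s k155 k223 9 (.s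
  k103 k207 13 (.d k119 k187 k71 9 3)))))) (.c k155 (.q k86 [(.s k19 k35 3 (.s k153 k220 10 (.s k187
  k119 9 (.s k136 k170 4 (.d k204 k68 k102 9 14))))), (.s k34 k17 4 (.s k252 k169 14 (.s k118 k185
  10 (.s k102 k70 3 (.s k238 k170 9 (.d k204 k221 k153 4 14)))))), (.s k252 k169 14 (.s k185 k118 10
  (.s k187 k119 9 (.s k186 k184 0 (.s k117 k48 10 (.d k253 k254 k49 0 9))))))] (.c k102 (.l (.s k19
  k35 3 (.s k169 k252 14 (.s k171 k87 13 (.s k153 k220 10 (.s k170 k168 0 (.d k187 k136 k119 4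
  9))))))) .n)) (.c k171 (.q k86 [(.s k19 k35 3 (.s k153 k220 10 (.s k187 k119 9 (.s k136 k170 4 (.d
  k204 k68 k102 9 14))))), (.s k252 k169 14 (.s k118 k185 10 (.s k119 k187 9 (.s k117 k116 0 (.s
  k186 k48 10 (.d k254 k253 k50 0 9)))))), (.s k19 k35 3 (.s k169 k252 14 (.s k153 k220 10 (.s k137
  k185 3 (.d k204 k70 k102 10 14)))))] (.c k153 (.l (.s k252 k169 14 (.s k185 k118 10 (.s k187 k119
  9 (.s k186 k184 0 (.s k117 k48 10 (.d k253 k254 k49 0 9))))))) (.c k169 (.l (.s k34 k17 4 (.s k19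
  k35 3 (.s k153 k220 10 (.s k102 k204 14 (.s k170 k238 9 (.d k187 k136 k119 4 9))))))) .n))) (.c
  k187 (.q k86 [(.s k19 k35 3 (.s k169 k252 14 (.s k153 k220 10 (.s k204 k102 14 (.d k137 k185 k70 3
  10))))), (.s k17 k34 4 (.s k19 k35 3 (.s k87 k171 13 (.s k18 k16 0 (.s k154 k222 9 (.s k153 k220
  10 (.d k155 k152 k223 0 9))))))), (.s k34 k17 4 (.s k252 k169 14 (.s k118 k185 10 (.s k102 k70 3
  (.s k238 k170 9 (.d k204 k221 k153 4 14))))))] (.c k153 (.l (.s k35 k19 3 (.s k169 k252 14 (.s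
  k171 k87 13 (.s k102 k236 10 (.s k170 k168 0 (.d k34 k17 k238 4 9))))))) .n)) (.c k207 (.f k19 k35
  3 (.q k86 [(.s k153 k220 10 (.s k187 k119 9 (.s k136 k170 4 (.d k204 k68 k102 9 14)))), (.s k169
  k252 14 (.s k153 k220 10 (.s k137 k185 3 (.d k204 k70 k102 10 14)))), (.s k252 k169 14 (.s k185
  k118 10 (.s k187 k119 9 (.s k186 k184 0 (.s k117 k48 10 (.d k253 k254 k49 0 9))))))] (.c k79 (.q
  k143 [(.s k153 k220 10 (.s k187 k119 9 (.s k136 k170 4 (.d k204 k68 k102 9 14)))), (.s k169 k252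
  14 (.s k153 k220 10 (.s k137 k185 3 (.d k204 k70 k102 10 14)))), (.s k252 k169 14 (.s k185 k118 10
  (.s k187 k119 9 (.s k186 k184 0 (.s k117 k48 10 (.d k253 k254 k49 0 9))))))] (.c k102 (.l (.s k169
  k252 14 (.s k171 k87 13 (.s k153 k220 10 (.s k170 k168 0 (.d k187 k136 k119 4 9)))))) .n)) (.c
  k102 (.l (.s k169 k252 14 (.s k171 k87 13 (.s k153 k220 10 (.s k170 k168 0 (.d k187 k136 k119 4
  9)))))) (.c k143 (.q k79 [(.s k153 k220 10 (.s k187 k119 9 (.s k136 k170 4 (.d k204 k68 k102 9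
  14)))), (.s k169 k252 14 (.s k153 k220 10 (.s k137 k185 3 (.d k204 k70 k102 10 14)))), (.s k252
  k169 14 (.s k185 k118 10 (.s k187 k119 9 (.s k186 k184 0 (.s k117 k48 10 (.d k253 k254 k49 0
  9))))))] (.c k102 (.l (.s k169 k252 14 (.s k171 k87 13 (.s k153 k220 10 (.s k170 k168 0 (.d k187
  k136 k119 4 9)))))) .n)) .n))))) (.c k223 (.l (.s k35 k19 3 (.s k187 k119 9 (.s k171 k87 13 (.s
  k155 k139 3 (.d k103 k239 k207 9 13)))))) (.c k239 (.l (.s k19 k35 3 (.s k119 k187 9 (.s k87 k171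
  13 (.s k103 k71 3 (.d k155 k223 k207 9 13)))))) .n))))))))))))))

def t85_4 : T TT 256 :=
  (.f k1 k2 0 (.f k87 k171 13 (.q k17 [(.s k34 k51 4 (.s k33 k49 3 (.s k48 k18 4 (.d k32 k35 k16 0
  3)))), (.s k51 k34 4 (.s k119 k187 9 (.s k103 k71 3 (.s k155 k207 13 (.d k19 k35 k223 3 9)))))]
  (.c k18 (.l (.s k49 k33 3 (.s k51 k34 4 (.s k50 k48 0 (.s k119 k187 9 (.s k103 k71 3 (.s k155 k207
  13 (.d k19 k35 k223 3 9)))))))) (.c k34 (.l (.s k33 k49 3 (.s k18 k48 4 (.s k19 k16 0 (.s k51 k35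
  3 (.s k119 k187 9 (.s k103 k71 3 (.d k155 k223 k207 9 13)))))))) (.c k35 (.l (.s k51 k34 4 (.s k33
  k49 3 (.s k18 k48 4 (.s k19 k16 0 (.s k119 k187 9 (.s k103 k71 3 (.d k155 k223 k207 9 13))))))))
  (.c k50 (.l (.s k34 k51 4 (.s k33 k49 3 (.s k48 k18 4 (.d k32 k35 k16 0 3))))) (.c k51 (.q k247
  [(.s k243 k251 1 (.s k81 k162 12 (.s k161 k241 11 (.s k83 k163 11 (.d k82 k80 k240 0 12))))), (.s
  k33 k49 3 (.s k48 k18 4 (.s k117 k186 10 (.s k52 k182 8 (.s k60 k56 1 (.s k22 k41 6 (.d k7 k37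
  k167 4 11))))))), (.s k33 k49 3 (.s k48 k18 4 (.s k7 k167 11 (.s k117 k186 10 (.s k52 k182 8 (.s
  k22 k37 4 (.d k60 k56 k41 1 6)))))))] (.c k27 (.q k39 [(.s k243 k251 1 (.s k81 k162 12 (.s k161
  k241 11 (.s k83 k163 11 (.d k82 k80 k240 0 12))))), (.s k33 k49 3 (.s k48 k18 4 (.s k117 k186 10
  (.s k52 k182 8 (.s k60 k56 1 (.s k22 k41 6 (.d k7 k37 k167 4 11))))))), (.s k33 k49 3 (.s k48 k18
  4 (.s k7 k167 11 (.s k117 k186 10 (.s k52 k182 8 (.s k22 k37 4 (.d k60 k56 k41 1 6)))))))] (.c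
  k167 (.l (.s k243 k251 1 (.s k81 k162 12 (.s k161 k241 11 (.s k82 k240 12 (.d k83 k80 k163 0
  11)))))) .n)) (.c k39 (.q k27 [(.s k243 k251 1 (.s k81 k162 12 (.s k161 k241 11 (.s k83 k163 11
  (.d k82 k80 k240 0 12))))), (.s k33 k49 3 (.s k48 k18 4 (.s k117 k186 10 (.s k52 k182 8 (.s k60
  k56 1 (.s k22 k41 6 (.d k7 k37 k167 4 11))))))), (.s k33 k49 3 (.s k48 k18 4 (.s k7 k167 11 (.s
  k117 k186 10 (.s k52 k182 8 (.s k22 k37 4 (.d k60 k56 k41 1 6)))))))] (.c k167 (.l (.s k243 k251 1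
  (.s k81 k162 12 (.s k161 k241 11 (.s k82 k240 12 (.d k83 k80 k163 0 11)))))) .n)) (.c k167 (.l (.s
  k243 k251 1 (.s k81 k162 12 (.s k161 k241 11 (.s k82 k240 12 (.d k83 k80 k163 0 11)))))) .n))))
  (.c k166 (.q k247 [(.s k34 k51 4 (.s k33 k49 3 (.s k48 k18 4 (.d k32 k35 k16 0 3)))), (.s k243
  k251 1 (.s k81 k162 12 (.s k161 k241 11 (.s k82 k240 12 (.d k83 k80 k163 0 11)))))] .n) (.c k247
  (.q k166 [(.s k34 k51 4 (.s k33 k49 3 (.s k48 k18 4 (.d k32 k35 k16 0 3)))), (.s k51 k34 4 (.s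
  k119 k187 9 (.s k103 k71 3 (.s k155 k207 13 (.d k19 k35 k223 3 9)))))] (.c k18 (.l (.s k49 k33 3
  (.s k51 k34 4 (.s k50 k48 0 (.s k119 k187 9 (.s k103 k71 3 (.s k155 k207 13 (.d k19 k35 k223 3
  9)))))))) (.c k34 (.l (.s k33 k49 3 (.s k18 k48 4 (.s k19 k16 0 (.s k51 k35 3 (.s k119 k187 9 (.s
  k103 k71 3 (.d k155 k223 k207 9 13)))))))) (.c k35 (.l (.s k51 k34 4 (.s k33 k49 3 (.s k18 k48 4
  (.s k19 k16 0 (.s k119 k187 9 (.s k103 k71 3 (.d k155 k223 k207 9 13)))))))) (.c k50 (.l (.s k34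
  k51 4 (.s k33 k49 3 (.s k48 k18 4 (.d k32 k35 k16 0 3))))) (.c k51 (.f k49 k33 3 (.q k21 [(.s k41
  k61 5 (.s k25 k29 1 (.s k9 k57 3 (.d k13 k5 k37 1 5)))), (.s k63 k42 6 (.s k127 k191 7 (.s k107
  k67 5 (.s k151 k195 13 (.d k23 k43 k215 5 7)))))] (.c k27 (.q k39 [(.s k41 k61 5 (.s k25 k29 1 (.s
  k9 k57 3 (.d k13 k5 k37 1 5)))), (.s k63 k42 6 (.s k127 k191 7 (.s k107 k67 5 (.s k151 k195 13 (.d
  k23 k43 k215 5 7)))))] .n) (.c k39 (.q k27 [(.s k41 k61 5 (.s k25 k29 1 (.s k9 k57 3 (.d k13 k5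
  k37 1 5)))), (.s k63 k42 6 (.s k25 k29 1 (.s k26 k24 0 (.s k31 k16 2 (.d k23 k19 k43 1 5))))), (.s
  k42 k63 6 (.s k41 k61 5 (.s k60 k22 6 (.d k40 k43 k20 0 5))))] .n) .n)))) .n)))))) .n))))))))))

def t85_5 : T TT 256 :=
  (.f k1 k2 0 (.f k87 k171 13 (.q k17 [(.s k34 k51 4 (.s k33 k49 3 (.s k48 k18 4 (.d k32 k35 k16 0
  3)))), (.s k51 k34 4 (.s k119 k187 9 (.s k103 k71 3 (.s k155 k207 13 (.d k19 k35 k223 3 9)))))]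
  (.c k18 (.l (.s k49 k33 3 (.s k51 k34 4 (.s k50 k48 0 (.s k119 k187 9 (.s k103 k71 3 (.s k155 k207
  13 (.d k19 k35 k223 3 9)))))))) (.c k34 (.l (.s k33 k49 3 (.s k18 k48 4 (.s k19 k16 0 (.s k51 k35
  3 (.s k119 k187 9 (.s k103 k71 3 (.d k155 k223 k207 9 13)))))))) (.c k35 (.l (.s k51 k34 4 (.s k33
  k49 3 (.s k18 k48 4 (.s k19 k16 0 (.s k119 k187 9 (.s k103 k71 3 (.d k155 k223 k207 9 13))))))))
  (.c k50 (.l (.s k34 k51 4 (.s k33 k49 3 (.s k48 k18 4 (.d k32 k35 k16 0 3))))) (.c k51 (.q k240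
  [(.s k160 k80 11 (.s k161 k82 12 (.s k81 k241 11 (.d k162 k163 k243 0 12)))), (.s k80 k160 11 (.s
  k33 k49 3 (.s k48 k18 4 (.s k16 k32 3 (.s k144 k208 7 (.s k96 k192 11 (.d k112 k64 k176 3
  7))))))), (.s k33 k49 3 (.s k48 k18 4 (.s k161 k82 12 (.s k97 k225 7 (.s k146 k195 12 (.d k176
  k131 k112 4 7))))))] (.c k27 (.q k39 [(.s k160 k80 11 (.s k161 k82 12 (.s k81 k241 11 (.d k162
  k163 k243 0 12)))), (.s k80 k160 11 (.s k33 k49 3 (.s k48 k18 4 (.s k16 k32 3 (.s k144 k208 7 (.s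
  k96 k192 11 (.d k112 k64 k176 3 7))))))), (.s k33 k49 3 (.s k48 k18 4 (.s k161 k82 12 (.s k97 k225
  7 (.s k146 k195 12 (.d k176 k131 k112 4 7))))))] (.c k165 (.l (.s k245 k250 2 (.s k160 k80 11 (.s
  k161 k82 12 (.s k81 k241 11 (.d k162 k163 k243 0 12)))))) (.c k245 (.q k165 [(.s k160 k80 11 (.s
  k161 k82 12 (.s k81 k241 11 (.d k162 k163 k243 0 12)))), (.s k228 k102 8 (.s k204 k216 5 (.s k137
  k70 10 (.s k69 k205 9 (.s k138 k207 10 (.d k136 k68 k139 9 0))))))] (.c k90 (.l (.s k161 k82 12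
  (.s k81 k241 11 (.s k162 k243 12 (.d k160 k163 k80 0 11))))) .n)) .n))) (.c k39 (.q k27 [(.s k160
  k80 11 (.s k161 k82 12 (.s k81 k241 11 (.d k162 k163 k243 0 12)))), (.s k80 k160 11 (.s k33 k49 3
  (.s k48 k18 4 (.s k16 k32 3 (.s k144 k208 7 (.s k96 k192 11 (.d k112 k64 k176 3 7))))))), (.s k33
  k49 3 (.s k48 k18 4 (.s k161 k82 12 (.s k97 k225 7 (.s k146 k195 12 (.d k176 k131 k112 4 7))))))]
  (.c k165 (.l (.s k245 k250 2 (.s k160 k80 11 (.s k161 k82 12 (.s k81 k241 11 (.d k162 k163 k243 0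
  12)))))) (.c k245 (.q k165 [(.s k160 k80 11 (.s k161 k82 12 (.s k81 k241 11 (.d k162 k163 k243 0
  12)))), (.s k80 k160 11 (.s k33 k49 3 (.s k48 k18 4 (.s k16 k32 3 (.s k144 k208 7 (.s k96 k192 11
  (.d k112 k64 k176 3 7))))))), (.s k33 k49 3 (.s k48 k18 4 (.s k161 k82 12 (.s k97 k225 7 (.s k146
  k195 12 (.d k176 k131 k112 4 7))))))] .n) .n))) (.c k165 (.l (.s k245 k250 2 (.s k160 k80 11 (.s
  k161 k82 12 (.s k81 k241 11 (.d k162 k163 k243 0 12)))))) (.c k245 (.q k165 [(.s k160 k80 11 (.s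
  k161 k82 12 (.s k81 k241 11 (.d k162 k163 k243 0 12)))), (.s k80 k160 11 (.s k33 k49 3 (.s k48 k18
  4 (.s k16 k32 3 (.s k144 k208 7 (.s k96 k192 11 (.d k112 k64 k176 3 7))))))), (.s k33 k49 3 (.s
  k48 k18 4 (.s k161 k82 12 (.s k97 k225 7 (.s k146 k195 12 (.d k176 k131 k112 4 7))))))] (.c k27
  (.q k39 [(.s k160 k80 11 (.s k161 k82 12 (.s k81 k241 11 (.d k162 k163 k243 0 12)))), (.s k228
  k102 8 (.s k204 k216 5 (.s k137 k70 10 (.s k69 k205 9 (.s k138 k207 10 (.d k136 k68 k139 9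
  0))))))] (.c k90 (.l (.s k161 k82 12 (.s k81 k241 11 (.s k162 k243 12 (.d k160 k163 k80 0 11)))))
  .n)) (.c k39 (.q k27 [(.s k160 k80 11 (.s k161 k82 12 (.s k81 k241 11 (.d k162 k163 k243 0 12)))),
  (.s k80 k160 11 (.s k33 k49 3 (.s k48 k18 4 (.s k16 k32 3 (.s k144 k208 7 (.s k96 k192 11 (.d k112
  k64 k176 3 7))))))), (.s k33 k49 3 (.s k48 k18 4 (.s k161 k82 12 (.s k97 k225 7 (.s k146 k195 12
  (.d k176 k131 k112 4 7))))))] .n) .n))) .n))))) (.c k165 (.q k245 [(.s k34 k51 4 (.s k33 k49 3 (.s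
  k48 k18 4 (.d k32 k35 k16 0 3)))), (.s k240 k250 2 (.s k160 k80 11 (.s k161 k82 12 (.s k81 k241 11
  (.d k162 k163 k243 0 12)))))] (.c k90 (.l (.s k240 k250 2 (.s k34 k51 4 (.s k33 k49 3 (.s k48 k18
  4 (.d k32 k35 k16 0 3)))))) (.c k240 (.q k90 [(.s k34 k51 4 (.s k33 k49 3 (.s k48 k18 4 (.d k32
  k35 k16 0 3)))), (.s k51 k34 4 (.s k119 k187 9 (.s k103 k71 3 (.s k155 k207 13 (.d k19 k35 k223 3
  9)))))] (.c k18 (.l (.s k49 k33 3 (.s k51 k34 4 (.s k50 k48 0 (.s k119 k187 9 (.s k103 k71 3 (.s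
  k155 k207 13 (.d k19 k35 k223 3 9)))))))) (.c k34 (.l (.s k33 k49 3 (.s k18 k48 4 (.s k19 k16 0
  (.s k51 k35 3 (.s k119 k187 9 (.s k103 k71 3 (.d k155 k223 k207 9 13)))))))) (.c k35 (.l (.s k51
  k34 4 (.s k33 k49 3 (.s k18 k48 4 (.s k19 k16 0 (.s k119 k187 9 (.s k103 k71 3 (.d k155 k223 k207
  9 13)))))))) (.c k50 (.l (.s k34 k51 4 (.s k33 k49 3 (.s k48 k18 4 (.d k32 k35 k16 0 3))))) (.c
  k51 (.f k33 k49 3 (.f k48 k18 4 (.l (.s k117 k186 10 (.s k53 k181 7 (.s k63 k58 2 (.s k21 k42 6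
  (.s k41 k61 5 (.s k22 k60 6 (.d k23 k20 k43 0 5)))))))))) .n)))))) .n))) (.c k245 (.q k165 [(.s
  k34 k51 4 (.s k33 k49 3 (.s k48 k18 4 (.d k32 k35 k16 0 3)))), (.s k51 k34 4 (.s k119 k187 9 (.s
  k103 k71 3 (.s k155 k207 13 (.d k19 k35 k223 3 9)))))] (.c k18 (.l (.s k49 k33 3 (.s k51 k34 4 (.s
  k50 k48 0 (.s k119 k187 9 (.s k103 k71 3 (.s k155 k207 13 (.d k19 k35 k223 3 9)))))))) (.c k34 (.l
  (.s k33 k49 3 (.s k18 k48 4 (.s k19 k16 0 (.s k51 k35 3 (.s k119 k187 9 (.s k103 k71 3 (.d k155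
  k223 k207 9 13)))))))) (.c k35 (.l (.s k51 k34 4 (.s k33 k49 3 (.s k18 k48 4 (.s k19 k16 0 (.s
  k119 k187 9 (.s k103 k71 3 (.d k155 k223 k207 9 13)))))))) (.c k50 (.l (.s k34 k51 4 (.s k33 k49 3
  (.s k48 k18 4 (.d k32 k35 k16 0 3))))) (.c k51 (.q k240 [(.s k160 k80 11 (.s k161 k82 12 (.s k81
  k241 11 (.d k162 k163 k243 0 12)))), (.s k80 k160 11 (.s k33 k49 3 (.s k48 k18 4 (.s k16 k32 3 (.s
  k144 k208 7 (.s k96 k192 11 (.d k112 k64 k176 3 7))))))), (.s k33 k49 3 (.s k48 k18 4 (.s k161 k82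
  12 (.s k97 k225 7 (.s k146 k195 12 (.d k176 k131 k112 4 7))))))] (.c k27 (.q k39 [(.s k160 k80 11
  (.s k161 k82 12 (.s k81 k241 11 (.d k162 k163 k243 0 12)))), (.s k228 k102 8 (.s k204 k216 5 (.s
  k137 k70 10 (.s k69 k205 9 (.s k138 k207 10 (.d k136 k68 k139 9 0))))))] (.c k90 (.l (.s k161 k82
  12 (.s k81 k241 11 (.s k162 k243 12 (.d k160 k163 k80 0 11))))) .n)) (.c k39 (.q k27 [(.s k160 k80
  11 (.s k161 k82 12 (.s k81 k241 11 (.d k162 k163 k243 0 12)))), (.s k80 k160 11 (.s k33 k49 3 (.s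
  k48 k18 4 (.s k16 k32 3 (.s k144 k208 7 (.s k96 k192 11 (.d k112 k64 k176 3 7))))))), (.s k33 k49
  3 (.s k48 k18 4 (.s k161 k82 12 (.s k97 k225 7 (.s k146 k195 12 (.d k176 k131 k112 4 7))))))] .n)
  .n))) .n)))))) .n))))))))))

def t85_6 : T TT 256 :=
  (.q k19 [(.s k51 k35 3 (.s k87 k171 13 (.s k119 k187 9 (.s k103 k71 3 (.d k155 k223 k207 9
  13))))), (.s k1 k2 0 (.s k51 k35 3 (.s k17 k34 4 (.s k33 k49 3 (.d k18 k16 k48 0 4)))))] (.c k35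
  (.q k17 [(.s k1 k2 0 (.s k33 k49 3 (.d k18 k16 k48 0 4))), (.s k51 k34 4 (.s k87 k171 13 (.s k119
  k187 9 (.s k103 k71 3 (.d k155 k223 k207 9 13)))))] (.c k33 (.l (.s k2 k1 0 (.s k34 k51 4 (.d k18
  k16 k50 0 3)))) .n)) (.c k51 (.f k1 k2 0 (.l (.s k87 k171 13 (.s k223 k155 9 (.s k207 k239 3 (.s
  k69 k138 10 (.s k137 k205 9 (.s k70 k204 10 (.d k71 k139 k68 9 0))))))))) .n)))

def t85_7 : T TT 256 :=
  (.f k87 k171 13 (.q k23 [(.s k63 k43 5 (.s k127 k191 7 (.s k107 k67 5 (.d k151 k215 k195 7 13)))),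
  (.s k1 k2 0 (.s k63 k43 5 (.s k21 k42 6 (.s k41 k61 5 (.d k22 k20 k60 0 6)))))] (.c k43 (.q k21
  [(.s k1 k2 0 (.s k41 k61 5 (.d k22 k20 k60 0 6))), (.s k63 k42 6 (.s k127 k191 7 (.s k107 k67 5
  (.d k151 k215 k195 7 13))))] (.c k41 (.l (.s k2 k1 0 (.s k42 k63 6 (.d k22 k20 k62 0 5)))) (.c
  k107 (.q k235 [(.d k215 k195 k151 5 7), (.s k1 k2 0 (.s k41 k61 5 (.d k22 k20 k60 0 6)))] .n) (.c
  k235 (.q k107 [(.s k63 k42 6 (.d k151 k215 k195 7 13)), (.s k1 k2 0 (.s k41 k61 5 (.d k22 k20 k60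
  0 6)))] (.c k41 (.l (.s k151 k215 7 (.d k63 k42 k195 6 13))) .n)) .n)))) (.c k63 (.l (.s k1 k2 0
  (.s k215 k151 7 (.s k195 k235 5 (.s k65 k130 8 (.s k129 k193 7 (.s k66 k192 8 (.d k67 k131 k64 7
  0)))))))) (.c k107 (.l (.s k1 k2 0 (.s k215 k151 7 (.s k63 k43 5 (.s k235 k195 5 (.s k21 k42 6 (.s
  k41 k61 5 (.d k22 k20 k60 0 6)))))))) (.c k235 (.l (.s k151 k215 7 (.s k63 k43 5 (.s k107 k195 13
  (.d k127 k67 k191 5 7))))) .n))))))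

def t85_8 : T TT 256 :=
  (.f k87 k171 13 (.q k23 [(.s k63 k43 5 (.s k127 k191 7 (.s k107 k67 5 (.d k151 k215 k195 7 13)))),
  (.s k1 k2 0 (.s k63 k43 5 (.s k21 k42 6 (.s k41 k61 5 (.d k22 k20 k60 0 6)))))] (.c k43 (.f k1 k2
  0 (.q k107 [(.s k215 k151 7 (.s k67 k127 5 (.d k195 k131 k235 7 5))), (.s k151 k215 7 (.s k63 k195
  13 (.s k21 k42 6 (.s k41 k61 5 (.d k22 k20 k60 0 6))))), (.s k127 k67 5 (.s k63 k191 7 (.s k21 k42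
  6 (.s k41 k61 5 (.d k22 k20 k60 0 6)))))] (.c k151 (.q k21 [(.s k127 k67 5 (.d k63 k191 k42 7 6)),
  (.s k41 k61 5 (.d k22 k20 k60 0 6))] (.c k131 (.q k191 [(.d k63 k42 k127 6 7), (.s k41 k61 5 (.d
  k22 k20 k60 0 6))] .n) (.c k191 (.q k131 [(.d k67 k127 k195 5 7), (.s k41 k61 5 (.d k22 k20 k60 0
  6))] .n) .n))) .n))) (.c k63 (.l (.s k1 k2 0 (.s k215 k151 7 (.s k195 k235 5 (.s k65 k130 8 (.s
  k129 k193 7 (.s k66 k192 8 (.d k67 k131 k64 7 0)))))))) (.c k107 (.l (.s k1 k2 0 (.s k215 k151 7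
  (.s k63 k43 5 (.s k235 k195 5 (.s k21 k42 6 (.s k41 k61 5 (.d k22 k20 k60 0 6)))))))) (.c k235 (.l
  (.s k151 k215 7 (.s k63 k43 5 (.s k107 k195 13 (.d k127 k67 k191 5 7))))) .n))))))

def t85_9 : T TT 256 :=
  (.f k1 k2 0 (.f k87 k171 13 (.q k17 [(.s k34 k51 4 (.s k33 k49 3 (.s k48 k18 4 (.d k32 k35 k16 0
  3)))), (.s k51 k34 4 (.s k119 k187 9 (.s k103 k71 3 (.s k155 k207 13 (.d k19 k35 k223 3 9)))))]
  (.c k18 (.l (.s k49 k33 3 (.s k51 k34 4 (.s k50 k48 0 (.s k119 k187 9 (.s k103 k71 3 (.s k155 k207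
  13 (.d k19 k35 k223 3 9)))))))) (.c k34 (.l (.s k33 k49 3 (.s k18 k48 4 (.s k19 k16 0 (.s k51 k35
  3 (.s k119 k187 9 (.s k103 k71 3 (.d k155 k223 k207 9 13)))))))) (.c k35 (.l (.s k51 k34 4 (.s k33
  k49 3 (.s k18 k48 4 (.s k19 k16 0 (.s k119 k187 9 (.s k103 k71 3 (.d k155 k223 k207 9 13))))))))
  (.c k50 (.l (.s k34 k51 4 (.s k33 k49 3 (.s k48 k18 4 (.d k32 k35 k16 0 3))))) (.c k51 (.q k19
  [(.s k33 k49 3 (.d k18 k48 k16 4 0)), (.s k223 k155 9 (.s k207 k239 3 (.s k69 k138 10 (.s k137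
  k205 9 (.s k70 k204 10 (.d k71 k139 k68 9 0))))))] (.c k27 (.q k39 [(.s k33 k49 3 (.d k18 k48 k16
  4 0)), (.s k223 k155 9 (.s k207 k239 3 (.s k69 k138 10 (.s k137 k205 9 (.s k70 k204 10 (.d k71
  k139 k68 9 0))))))] .n) (.c k39 (.q k27 [(.s k33 k49 3 (.d k18 k48 k16 4 0)), (.s k23 k31 1 (.s
  k63 k43 5 (.s k21 k42 6 (.s k41 k61 5 (.d k22 k20 k60 0 6)))))] .n) .n))) .n))))))))

def t85_10 : T TT 256 :=
  (.f k87 k171 13 (.q k23 [(.s k63 k43 5 (.s k127 k191 7 (.s k107 k67 5 (.d k151 k215 k195 7 13)))),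
  (.s k1 k2 0 (.s k63 k43 5 (.s k21 k42 6 (.s k41 k61 5 (.d k22 k20 k60 0 6)))))] (.c k43 (.q k107
  [(.s k215 k151 7 (.s k67 k127 5 (.d k195 k131 k235 7 5))), (.s k1 k2 0 (.s k151 k215 7 (.s k63
  k195 13 (.s k21 k42 6 (.s k41 k61 5 (.d k22 k20 k60 0 6)))))), (.s k1 k2 0 (.s k127 k67 5 (.s k63
  k191 7 (.s k21 k42 6 (.s k41 k61 5 (.d k22 k20 k60 0 6))))))] (.c k151 (.q k21 [(.s k127 k67 5 (.d
  k63 k191 k42 7 6)), (.s k1 k2 0 (.s k41 k61 5 (.d k22 k20 k60 0 6)))] (.c k131 (.q k191 [(.d k63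
  k42 k127 6 7), (.s k1 k2 0 (.s k41 k61 5 (.d k22 k20 k60 0 6)))] .n) (.c k191 (.q k131 [(.d k67
  k127 k195 5 7), (.s k1 k2 0 (.s k41 k61 5 (.d k22 k20 k60 0 6)))] .n) .n))) .n)) (.c k63 (.l (.s
  k1 k2 0 (.s k215 k151 7 (.s k195 k235 5 (.s k65 k130 8 (.s k129 k193 7 (.s k66 k192 8 (.d k67 k131
  k64 7 0)))))))) (.c k107 (.l (.s k1 k2 0 (.s k215 k151 7 (.s k63 k43 5 (.s k235 k195 5 (.s k21 k42
  6 (.s k41 k61 5 (.d k22 k20 k60 0 6)))))))) (.c k235 (.l (.s k151 k215 7 (.s k63 k43 5 (.s k107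
  k195 13 (.d k127 k67 k191 5 7))))) .n))))))

def t85_11 : T TT 256 :=
  (.q k51 [(.s k1 k2 0 (.s k17 k34 4 (.s k33 k49 3 (.s k19 k35 3 (.d k18 k16 k48 0 4))))), (.s k19
  k35 3 (.s k87 k171 13 (.s k155 k223 9 (.s k103 k207 13 (.d k119 k71 k187 3 9)))))] (.c k16 (.l (.s
  k2 k1 0 (.s k34 k17 4 (.s k18 k50 3 (.s k33 k48 4 (.d k35 k19 k32 3 0)))))) (.c k19 (.q k68 [(.s
  k87 k171 13 (.s k119 k187 9 (.s k71 k103 3 (.s k69 k70 0 (.d k207 k139 k138 9 10))))), (.s k1 k2 0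
  (.s k17 k34 4 (.s k204 k136 9 (.s k49 k33 3 (.s k137 k70 10 (.s k205 k69 9 (.d k153 k101 k102 13
  14))))))), (.s k2 k1 0 (.s k136 k204 9 (.s k171 k87 13 (.s k187 k119 9 (.s k170 k153 4 (.s k86
  k254 13 (.d k169 k168 k252 0 14)))))))] .n) (.c k35 (.q k19 [(.s k1 k2 0 (.s k17 k34 4 (.s k33 k49
  3 (.d k18 k16 k48 0 4)))), (.s k87 k171 13 (.s k119 k187 9 (.s k103 k71 3 (.d k155 k223 k207 9
  13))))] .n) .n))))

def t85_12 : T TT 256 :=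
  (.q k51 [(.s k1 k2 0 (.s k17 k34 4 (.s k33 k49 3 (.s k19 k35 3 (.d k18 k16 k48 0 4))))), (.s k19
  k35 3 (.s k87 k171 13 (.s k155 k223 9 (.s k103 k207 13 (.d k119 k71 k187 3 9)))))] (.c k13 (.q k14
  [(.s k1 k2 0 (.s k17 k34 4 (.s k33 k49 3 (.s k19 k35 3 (.d k18 k16 k48 0 4))))), (.s k19 k35 3 (.s
  k87 k171 13 (.s k155 k223 9 (.s k103 k207 13 (.d k119 k71 k187 3 9)))))] (.c k16 (.l (.s k2 k1 0
  (.s k34 k17 4 (.s k18 k50 3 (.s k33 k48 4 (.d k35 k19 k32 3 0)))))) (.c k19 (.q k68 [(.s k87 k171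
  13 (.s k119 k187 9 (.s k71 k103 3 (.s k69 k70 0 (.d k207 k139 k138 9 10))))), (.s k1 k2 0 (.s k17
  k34 4 (.s k204 k136 9 (.s k49 k33 3 (.s k137 k70 10 (.s k205 k69 9 (.d k153 k101 k102 13
  14))))))), (.s k2 k1 0 (.s k136 k204 9 (.s k171 k87 13 (.s k187 k119 9 (.s k170 k153 4 (.s k86
  k254 13 (.d k169 k168 k252 0 14)))))))] .n) (.c k35 (.l (.s k2 k1 0 (.s k34 k17 4 (.s k6 k10 1 (.s
  k50 k18 3 (.s k38 k26 5 (.s k22 k54 3 (.d k42 k46 k62 1 5)))))))) .n)))) (.c k14 (.q k13 [(.s k1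
  k2 0 (.s k17 k34 4 (.s k33 k49 3 (.s k19 k35 3 (.d k18 k16 k48 0 4))))), (.s k19 k35 3 (.s k87
  k171 13 (.s k155 k223 9 (.s k103 k207 13 (.d k119 k71 k187 3 9))))), (.s k1 k2 0 (.s k17 k34 4 (.s
  k9 k5 1 (.s k49 k33 3 (.s k25 k37 5 (.s k41 k57 3 (.d k21 k29 k61 1 5)))))))] (.c k35 (.q k19 [(.s
  k87 k171 13 (.s k119 k187 9 (.s k103 k71 3 (.d k155 k223 k207 9 13)))), (.s k1 k2 0 (.s k17 k34 4
  (.s k33 k49 3 (.d k18 k16 k48 0 4))))] .n) .n)) (.c k16 (.l (.s k2 k1 0 (.s k34 k17 4 (.s k18 k50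
  3 (.s k33 k48 4 (.d k35 k19 k32 3 0)))))) (.c k19 (.q k68 [(.s k87 k171 13 (.s k119 k187 9 (.s k71
  k103 3 (.s k69 k70 0 (.d k207 k139 k138 9 10))))), (.s k1 k2 0 (.s k17 k34 4 (.s k204 k136 9 (.s
  k49 k33 3 (.s k137 k70 10 (.s k205 k69 9 (.d k153 k101 k102 13 14))))))), (.s k2 k1 0 (.s k136
  k204 9 (.s k171 k87 13 (.s k187 k119 9 (.s k170 k153 4 (.s k86 k254 13 (.d k169 k168 k252 0
  14)))))))] (.c k13 (.q k14 [(.s k87 k171 13 (.s k119 k187 9 (.s k71 k103 3 (.s k69 k70 0 (.d k207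
  k139 k138 9 10))))), (.s k1 k2 0 (.s k17 k34 4 (.s k204 k136 9 (.s k49 k33 3 (.s k137 k70 10 (.s
  k205 k69 9 (.d k153 k101 k102 13 14))))))), (.s k2 k1 0 (.s k136 k204 9 (.s k171 k87 13 (.s k187
  k119 9 (.s k170 k153 4 (.s k86 k254 13 (.d k169 k168 k252 0 14)))))))] .n) (.c k14 (.q k13 [(.s
  k87 k171 13 (.s k119 k187 9 (.s k71 k103 3 (.s k69 k70 0 (.d k207 k139 k138 9 10))))), (.s k1 k2 0
  (.s k17 k34 4 (.s k9 k5 1 (.s k49 k33 3 (.s k25 k37 5 (.s k41 k57 3 (.d k21 k29 k61 1 5)))))))]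
  (.c k35 (.l (.s k2 k1 0 (.s k204 k136 9 (.s k70 k137 10 (.s k138 k206 9 (.d k69 k71 k207 0
  10)))))) .n)) .n))) (.c k35 (.q k19 [(.s k1 k2 0 (.s k17 k34 4 (.s k33 k49 3 (.d k18 k16 k48 0
  4)))), (.s k87 k171 13 (.s k119 k187 9 (.s k103 k71 3 (.d k155 k223 k207 9 13))))] (.c k13 (.q k14
  [(.s k87 k171 13 (.s k119 k187 9 (.s k103 k71 3 (.d k155 k223 k207 9 13)))), (.s k1 k2 0 (.s k17
  k34 4 (.s k33 k49 3 (.d k18 k16 k48 0 4))))] .n) (.c k14 (.q k13 [(.s k87 k171 13 (.s k119 k187 9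
  (.s k103 k71 3 (.d k155 k223 k207 9 13)))), (.s k1 k2 0 (.s k17 k34 4 (.s k33 k49 3 (.d k18 k16
  k48 0 4))))] .n) .n))) .n))))))

def t85_13 : T TT 256 :=
  (.q k51 [(.s k1 k2 0 (.s k17 k34 4 (.s k33 k49 3 (.s k19 k35 3 (.d k18 k16 k48 0 4))))), (.s k19
  k35 3 (.s k87 k171 13 (.s k155 k223 9 (.s k103 k207 13 (.d k119 k71 k187 3 9)))))] (.c k12 (.q k14
  [(.s k1 k2 0 (.s k17 k34 4 (.s k33 k49 3 (.s k19 k35 3 (.d k18 k16 k48 0 4))))), (.s k19 k35 3 (.s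
  k87 k171 13 (.s k155 k223 9 (.s k103 k207 13 (.d k119 k71 k187 3 9)))))] (.c k16 (.l (.s k2 k1 0
  (.s k34 k17 4 (.s k18 k50 3 (.s k33 k48 4 (.d k35 k19 k32 3 0)))))) (.c k19 (.q k42 [(.s k34 k17 4
  (.s k38 k46 1 (.s k50 k26 5 (.d k2 k18 k1 3 0)))), (.s k63 k21 6 (.s k23 k43 5 (.s k87 k171 13 (.s
  k151 k215 7 (.s k107 k195 13 (.d k127 k67 k191 5 7))))))] (.c k63 (.l (.s k2 k1 0 (.s k34 k17 4
  (.s k62 k22 5 (.d k46 k38 k30 1 3))))) .n)) (.c k35 (.l (.s k2 k1 0 (.s k34 k17 4 (.s k6 k10 1 (.s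
  k50 k18 3 (.s k38 k26 5 (.s k22 k54 3 (.d k42 k46 k62 1 5)))))))) .n)))) (.c k14 (.q k12 [(.s k1
  k2 0 (.s k17 k34 4 (.s k33 k49 3 (.s k19 k35 3 (.d k18 k16 k48 0 4))))), (.s k4 k8 1 (.s k34 k17 4
  (.s k38 k25 6 (.s k21 k55 4 (.d k42 k46 k63 1 6))))), (.s k6 k9 2 (.s k35 k19 3 (.s k38 k25 6 (.s
  k22 k54 3 (.d k41 k44 k60 2 6))))), (.s k1 k2 0 (.s k17 k34 4 (.s k19 k35 3 (.s k18 k16 0 (.d k33
  k49 k48 3 4)))))] (.c k49 (.l (.s k2 k1 0 (.s k35 k19 3 (.s k34 k17 4 (.s k33 k32 0 (.d k18 k50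
  k48 3 4)))))) .n)) (.c k16 (.l (.s k2 k1 0 (.s k34 k17 4 (.s k18 k50 3 (.s k33 k48 4 (.d k35 k19
  k32 3 0)))))) (.c k19 (.q k12 [(.s k8 k4 1 (.s k17 k34 4 (.s k25 k38 6 (.s k42 k59 4 (.d k21 k29
  k63 1 6))))), (.s k8 k4 1 (.s k9 k6 2 (.s k171 k87 13 (.s k11 k10 0 (.s k251 k91 11 (.s k89 k170
  12 (.d k243 k247 k166 1 14))))))), (.s k1 k2 0 (.s k17 k34 4 (.s k9 k6 2 (.s k25 k38 6 (.s k41 k57
  3 (.d k21 k29 k61 1 5))))))] .n) (.c k35 (.q k12 [(.s k4 k8 1 (.s k38 k25 6 (.s k21 k55 4 (.s k42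
  k63 6 (.d k34 k46 k17 1 4))))), (.s k8 k4 1 (.s k9 k6 2 (.s k171 k87 13 (.s k11 k10 0 (.s k251 k91
  11 (.s k89 k170 12 (.d k243 k247 k166 1 14))))))), (.s k1 k2 0 (.s k17 k34 4 (.s k9 k6 2 (.s k25
  k38 6 (.s k41 k57 3 (.d k21 k29 k61 1 5))))))] .n) .n))))))

def t85_14 : T TT 256 :=
  (.q k21 [(.s k1 k2 0 (.s k42 k63 6 (.s k41 k61 5 (.s k60 k22 6 (.d k40 k43 k20 0 5))))), (.s k63
  k42 6 (.s k43 k23 5 (.s k171 k87 13 (.s k107 k235 7 (.s k151 k195 13 (.d k191 k131 k127 5 7))))))]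
  (.c k12 (.q k13 [(.s k1 k2 0 (.s k42 k63 6 (.s k41 k61 5 (.s k60 k22 6 (.d k40 k43 k20 0 5))))),
  (.s k63 k42 6 (.s k43 k23 5 (.s k171 k87 13 (.s k107 k235 7 (.s k151 k195 13 (.d k191 k131 k127 5
  7)))))), (.s k1 k2 0 (.s k5 k9 1 (.s k41 k61 5 (.s k37 k53 3 (.s k49 k25 5 (.d k33 k45 k17 1
  3))))))] .n) (.c k13 (.q k12 [(.s k4 k8 1 (.s k42 k63 6 (.s k38 k55 4 (.s k51 k25 6 (.d k34 k46
  k17 1 4))))), (.s k1 k2 0 (.s k63 k42 6 (.s k23 k43 5 (.s k22 k20 0 (.d k41 k61 k60 5 6))))), (.s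
  k1 k2 0 (.s k4 k8 1 (.s k41 k61 5 (.s k6 k9 2 (.s k38 k55 4 (.d k22 k54 k60 3 6))))))] .n) (.c k42
  (.f k87 k171 13 (.f k1 k2 0 (.l (.s k41 k61 5 (.s k22 k60 6 (.s k23 k20 0 (.s k63 k43 5 (.s k127
  k191 7 (.s k107 k67 5 (.d k151 k215 k195 7 13)))))))))) (.c k43 (.l (.s k2 k1 0 (.s k42 k63 6 (.s
  k22 k62 5 (.s k60 k41 6 (.d k20 k23 k40 0 5)))))) (.c k63 (.f k87 k171 13 (.f k1 k2 0 (.q k12 [(.s
  k4 k8 1 (.s k41 k61 5 (.s k6 k9 2 (.s k38 k55 4 (.d k22 k60 k54 6 3))))), (.s k4 k8 1 (.s k41 k61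
  5 (.s k60 k22 6 (.s k20 k40 5 (.s k36 k52 3 (.s k24 k48 5 (.d k28 k16 k44 1 3))))))), (.s k4 k8 1
  (.s k6 k9 2 (.s k7 k5 0 (.s k38 k55 4 (.s k22 k54 3 (.s k52 k37 4 (.d k20 k23 k36 0 3))))))), (.s
  k41 k61 5 (.s k60 k22 6 (.s k44 k28 3 (.s k38 k35 2 (.s k25 k51 6 (.d k9 k6 k57 2 3))))))] (.c k6
  (.q k10 [(.s k4 k8 1 (.s k41 k61 5 (.s k38 k55 4 (.s k35 k44 2 (.d k51 k19 k25 3 6))))), (.s k41
  k61 5 (.s k60 k22 6 (.s k28 k44 3 (.s k93 k174 12 (.s k158 k223 8 (.s k109 k207 12 (.d k125 k77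
  k190 3 8))))))), (.s k4 k8 1 (.s k38 k55 4 (.s k51 k25 6 (.s k17 k34 4 (.s k33 k49 3 (.s k18 k48 4
  (.d k19 k16 k35 0 3)))))))] (.c k31 (.q k47 [(.s k4 k8 1 (.s k41 k61 5 (.s k38 k55 4 (.s k35 k44 2
  (.d k51 k19 k25 3 6))))), (.s k8 k4 1 (.s k41 k61 5 (.s k60 k22 6 (.s k40 k20 5 (.s k11 k9 0 (.d
  k56 k24 k26 3 4)))))), (.s k4 k8 1 (.s k38 k55 4 (.s k51 k25 6 (.s k17 k34 4 (.s k33 k49 3 (.s k18
  k48 4 (.d k19 k16 k35 0 3))))))), (.s k41 k61 5 (.s k60 k22 6 (.s k40 k20 5 (.s k44 k28 3 (.s k42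
  k43 0 (.d k32 k36 k37 1 2))))))] (.c k38 (.l (.s k8 k4 1 (.s k41 k61 5 (.s k9 k11 0 (.s k5 k13 1
  (.s k37 k53 3 (.s k42 k32 2 (.d k25 k57 k59 3 4)))))))) .n)) (.c k38 (.l (.s k8 k4 1 (.s k41 k61 5
  (.s k9 k11 0 (.s k25 k57 3 (.s k17 k29 1 (.s k49 k33 3 (.d k13 k5 k37 1 5)))))))) (.c k47 (.q k31
  [(.s k41 k61 5 (.s k26 k16 2 (.s k11 k56 4 (.d k8 k9 k4 0 1)))), (.s k4 k8 1 (.s k38 k55 4 (.s k51
  k25 6 (.s k17 k34 4 (.s k19 k35 3 (.d k16 k18 k26 0 2)))))), (.s k41 k61 5 (.s k60 k22 6 (.s k20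
  k40 5 (.s k28 k44 3 (.d k16 k24 k26 1 2))))), (.s k4 k8 1 (.s k41 k61 5 (.s k60 k22 6 (.s k38 k55
  4 (.d k44 k35 k28 2 3)))))] .n) .n)))) (.c k10 (.l (.s k6 k9 2 (.s k41 k61 5 (.s k60 k22 6 (.s k44
  k28 3 (.s k38 k35 2 (.d k4 k8 k55 1 4))))))) (.c k22 (.l (.s k4 k8 1 (.s k41 k61 5 (.s k38 k55 4
  (.s k51 k25 6 (.d k35 k19 k44 3 2)))))) (.c k31 (.q k47 [(.s k4 k8 1 (.s k41 k61 5 (.s k6 k9 2 (.s
  k38 k55 4 (.d k22 k60 k54 6 3))))), (.s k41 k61 5 (.s k60 k22 6 (.s k40 k20 5 (.s k44 k28 3 (.s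
  k32 k36 1 (.d k42 k43 k37 0 2)))))), (.s k4 k8 1 (.s k6 k9 2 (.s k7 k5 0 (.s k38 k55 4 (.s k22 k54
  3 (.s k52 k37 4 (.d k20 k23 k36 0 3)))))))] (.c k4 (.l (.s k41 k61 5 (.s k60 k22 6 (.s k40 k20 5
  (.s k44 k28 3 (.s k35 k38 2 (.d k43 k42 k39 0 1))))))) (.c k6 (.q k10 [(.s k4 k8 1 (.s k41 k61 5
  (.s k38 k55 4 (.s k35 k44 2 (.d k51 k19 k25 3 6))))), (.s k8 k4 1 (.s k41 k61 5 (.s k60 k22 6 (.s
  k40 k20 5 (.s k11 k9 0 (.d k56 k24 k26 3 4)))))), (.s k4 k8 1 (.s k38 k55 4 (.s k51 k25 6 (.s k17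
  k34 4 (.s k33 k49 3 (.s k18 k48 4 (.d k19 k16 k35 0 3))))))), (.s k41 k61 5 (.s k60 k22 6 (.s k40
  k20 5 (.s k44 k28 3 (.s k42 k43 0 (.d k32 k36 k37 1 2))))))] (.c k38 (.l (.s k8 k4 1 (.s k41 k61 5
  (.s k9 k11 0 (.s k5 k13 1 (.s k37 k53 3 (.s k42 k32 2 (.d k25 k57 k59 3 4)))))))) .n)) (.c k10 (.l
  (.s k6 k9 2 (.s k41 k61 5 (.s k60 k22 6 (.s k44 k28 3 (.s k38 k35 2 (.d k4 k8 k55 1 4))))))) (.c
  k22 (.l (.s k4 k8 1 (.s k41 k61 5 (.s k38 k55 4 (.s k51 k25 6 (.d k35 k19 k44 3 2)))))) .n)))))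
  (.c k47 (.q k31 [(.s k4 k8 1 (.s k41 k61 5 (.s k6 k9 2 (.s k38 k55 4 (.d k22 k60 k54 6 3))))), (.s
  k41 k61 5 (.s k60 k22 6 (.s k20 k40 5 (.s k28 k44 3 (.d k16 k24 k26 1 2))))), (.s k4 k8 1 (.s k38
  k55 4 (.s k51 k25 6 (.s k17 k34 4 (.s k19 k35 3 (.d k16 k18 k26 0 2))))))] (.c k6 (.q k10 [(.s k41
  k61 5 (.s k26 k16 2 (.s k11 k56 4 (.d k8 k9 k4 0 1)))), (.s k4 k8 1 (.s k38 k55 4 (.s k51 k25 6
  (.s k17 k34 4 (.s k19 k35 3 (.d k16 k18 k26 0 2)))))), (.s k41 k61 5 (.s k60 k22 6 (.s k20 k40 5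
  (.s k28 k44 3 (.d k16 k24 k26 1 2))))), (.s k4 k8 1 (.s k41 k61 5 (.s k60 k22 6 (.s k38 k55 4 (.d
  k44 k35 k28 2 3)))))] .n) (.c k10 (.l (.s k6 k9 2 (.s k41 k61 5 (.s k60 k22 6 (.s k20 k40 5 (.s
  k28 k44 3 (.d k16 k24 k26 1 2))))))) .n))) .n)))))))) .n))))))

def t85_16 : T TT 256 :=
  (.q k223 [(.s k87 k171 13 (.s k155 k19 9 (.s k207 k239 3 (.s k71 k139 9 (.d k103 k119 k51 3
  13))))), (.s k1 k2 0 (.s k207 k239 3 (.s k69 k138 10 (.s k137 k205 9 (.s k70 k204 10 (.d k71 k68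
  k139 0 9))))))] (.c k71 (.q k86 [(.s k2 k1 0 (.s k254 k170 13 (.d k252 k253 k169 0 14))), (.s k87
  k171 13 (.s k19 k155 9 (.s k220 k153 10 (.s k221 k222 0 (.s k204 k238 4 (.d k252 k236 k169 3
  14)))))), (.s k87 k171 13 (.s k19 k155 9 (.s k51 k35 3 (.s k153 k220 10 (.s k187 k119 9 (.s k170
  k136 4 (.d k2 k1 k254 0 13)))))))] (.c k254 (.l (.s k252 k169 14 (.s k87 k171 13 (.s k19 k155 9
  (.s k220 k153 10 (.s k204 k236 3 (.d k221 k222 k238 0 4))))))) .n)) (.c k139 (.q k23 [(.s k1 k2 0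
  (.s k63 k43 5 (.s k21 k42 6 (.s k41 k61 5 (.d k22 k20 k60 0 6))))), (.s k87 k171 13 (.s k215 k151
  7 (.s k235 k195 5 (.s k207 k239 3 (.s k219 k211 1 (.s k251 k203 3 (.d k243 k247 k231 1 5)))))))]
  (.c k63 (.l (.s k87 k171 13 (.s k215 k151 7 (.s k195 k235 5 (.s k207 k239 3 (.s k199 k203 1 (.s
  k231 k247 3 (.d k219 k211 k243 1 5)))))))) .n)) (.c k207 (.q k23 [(.s k1 k2 0 (.s k63 k43 5 (.s
  k21 k42 6 (.s k41 k61 5 (.d k22 k20 k60 0 6))))), (.s k87 k171 13 (.s k19 k155 9 (.s k31 k27 1 (.s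
  k151 k215 7 (.s k91 k211 9 (.d k95 k83 k159 1 7))))))] (.c k20 (.l (.s k63 k43 5 (.s k87 k171 13
  (.s k127 k191 7 (.s k107 k67 5 (.d k151 k215 k195 7 13)))))) (.c k79 (.q k143 [(.s k1 k2 0 (.s k63
  k43 5 (.s k21 k42 6 (.s k41 k61 5 (.d k22 k20 k60 0 6))))), (.s k87 k171 13 (.s k19 k155 9 (.s k31
  k27 1 (.s k151 k215 7 (.s k91 k211 9 (.d k95 k83 k159 1 7))))))] (.c k20 (.l (.s k63 k43 5 (.s k87
  k171 13 (.s k127 k191 7 (.s k107 k67 5 (.d k151 k215 k195 7 13)))))) .n)) (.c k143 (.q k79 [(.s k1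
  k2 0 (.s k63 k43 5 (.s k21 k42 6 (.s k41 k61 5 (.d k22 k20 k60 0 6))))), (.s k87 k171 13 (.s k19
  k155 9 (.s k31 k27 1 (.s k151 k215 7 (.s k91 k211 9 (.d k95 k83 k159 1 7))))))] (.c k20 (.l (.s
  k63 k43 5 (.s k87 k171 13 (.s k127 k191 7 (.s k107 k67 5 (.d k151 k215 k195 7 13)))))) .n)) .n))))
  (.c k239 (.q k23 [(.s k1 k2 0 (.s k63 k43 5 (.s k21 k42 6 (.s k41 k61 5 (.d k22 k20 k60 0 6))))),
  (.s k87 k171 13 (.s k19 k155 9 (.s k31 k27 1 (.s k151 k215 7 (.s k91 k211 9 (.d k95 k83 k159 1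
  7))))))] (.c k20 (.l (.s k63 k43 5 (.s k87 k171 13 (.s k127 k191 7 (.s k107 k67 5 (.d k151 k215
  k195 7 13)))))) .n)) .n)))))

def t85_17 : T TT 256 :=
  (.q k223 [(.s k87 k171 13 (.s k155 k19 9 (.s k207 k239 3 (.s k71 k139 9 (.d k103 k119 k51 3
  13))))), (.s k1 k2 0 (.s k207 k239 3 (.s k69 k138 10 (.s k137 k205 9 (.s k70 k204 10 (.d k71 k68
  k139 0 9))))))] (.c k71 (.q k221 [(.s k1 k2 0 (.s k204 k238 4 (.s k137 k70 10 (.s k69 k205 9 (.d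
  k207 k138 k239 10 3))))), (.s k87 k171 13 (.s k19 k155 9 (.s k51 k35 3 (.s k204 k238 4 (.s k153
  k102 14 (.d k220 k222 k86 0 10)))))), (.s k1 k2 0 (.s k207 k239 3 (.s k69 k138 10 (.s k205 k137 9
  (.s k237 k253 3 (.d k222 k220 k252 0 4))))))] (.c k239 (.l (.s k1 k2 0 (.s k204 k238 4 (.s k136
  k68 9 (.s k137 k70 10 (.s k69 k205 9 (.d k138 k139 k207 0 10))))))) .n)) (.c k139 (.q k221 [(.s k1
  k2 0 (.s k204 k238 4 (.s k137 k70 10 (.s k69 k205 9 (.d k207 k138 k239 10 3))))), (.s k238 k204 4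
  (.s k207 k239 3 (.s k222 k220 0 (.s k254 k206 3 (.d k252 k253 k237 0 4))))), (.s k1 k2 0 (.s k207
  k239 3 (.s k222 k220 0 (.s k237 k252 4 (.s k205 k253 3 (.d k69 k137 k138 9 10))))))] (.c k204 (.l
  (.s k2 k1 0 (.s k207 k239 3 (.s k138 k69 10 (.s k206 k70 9 (.s k222 k220 0 (.s k254 k238 3 (.d
  k252 k253 k237 0 4)))))))) (.c k207 (.l (.s k87 k171 13 (.s k204 k238 4 (.s k220 k222 0 (.s k252
  k236 3 (.s k86 k169 14 (.d k19 k155 k153 9 10))))))) (.c k239 (.l (.s k2 k1 0 (.s k204 k238 4 (.s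
  k68 k136 9 (.s k70 k137 10 (.s k138 k206 9 (.d k69 k71 k207 0 10))))))) .n)))) (.c k153 (.q k221
  [(.s k1 k2 0 (.s k204 k238 4 (.s k137 k70 10 (.s k69 k205 9 (.d k207 k138 k239 10 3))))), (.s k87
  k171 13 (.s k155 k19 9 (.s k207 k239 3 (.s k71 k139 9 (.d k103 k119 k51 3 13)))))] (.c k207 (.l
  (.s k1 k2 0 (.s k204 k238 4 (.s k137 k70 10 (.s k205 k69 9 (.s k253 k237 3 (.s k220 k222 0 (.d
  k252 k254 k236 0 3)))))))) (.c k239 (.l (.s k1 k2 0 (.s k204 k238 4 (.s k136 k68 9 (.s k137 k70 10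
  (.s k69 k205 9 (.d k138 k139 k207 0 10))))))) .n))) (.c k207 (.q k23 [(.s k1 k2 0 (.s k63 k43 5
  (.s k21 k42 6 (.s k41 k61 5 (.d k22 k20 k60 0 6))))), (.s k87 k171 13 (.s k19 k155 9 (.s k31 k27 1
  (.s k151 k215 7 (.s k91 k211 9 (.d k95 k83 k159 1 7))))))] (.c k20 (.l (.s k63 k43 5 (.s k87 k171
  13 (.s k127 k191 7 (.s k107 k67 5 (.d k151 k215 k195 7 13)))))) (.c k79 (.q k143 [(.s k1 k2 0 (.s
  k63 k43 5 (.s k21 k42 6 (.s k41 k61 5 (.d k22 k20 k60 0 6))))), (.s k87 k171 13 (.s k19 k155 9 (.s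
  k31 k27 1 (.s k151 k215 7 (.s k91 k211 9 (.d k95 k83 k159 1 7))))))] (.c k20 (.l (.s k63 k43 5 (.s
  k87 k171 13 (.s k127 k191 7 (.s k107 k67 5 (.d k151 k215 k195 7 13)))))) (.c k153 (.q k221 [(.s k1
  k2 0 (.s k63 k43 5 (.s k21 k42 6 (.s k41 k61 5 (.d k22 k20 k60 0 6))))), (.s k87 k171 13 (.s k19
  k155 9 (.s k31 k27 1 (.s k151 k215 7 (.s k91 k211 9 (.d k95 k83 k159 1 7))))))] (.c k20 (.l (.s
  k63 k43 5 (.s k87 k171 13 (.s k127 k191 7 (.s k107 k67 5 (.d k151 k215 k195 7 13)))))) .n)) (.c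
  k221 (.q k153 [(.s k1 k2 0 (.s k63 k43 5 (.s k21 k42 6 (.s k41 k61 5 (.d k22 k20 k60 0 6))))), (.s
  k63 k43 5 (.s k87 k171 13 (.s k127 k191 7 (.s k107 k67 5 (.d k151 k215 k195 7 13))))), (.s k2 k1 0
  (.s k87 k171 13 (.s k19 k155 9 (.s k86 k220 10 (.s k254 k170 13 (.d k252 k253 k169 0 14))))))] .n)
  .n)))) (.c k143 (.q k79 [(.s k1 k2 0 (.s k63 k43 5 (.s k21 k42 6 (.s k41 k61 5 (.d k22 k20 k60 0
  6))))), (.s k87 k171 13 (.s k19 k155 9 (.s k31 k27 1 (.s k151 k215 7 (.s k91 k211 9 (.d k95 k83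
  k159 1 7))))))] (.c k20 (.l (.s k63 k43 5 (.s k87 k171 13 (.s k127 k191 7 (.s k107 k67 5 (.d k151
  k215 k195 7 13)))))) (.c k153 (.q k221 [(.s k1 k2 0 (.s k63 k43 5 (.s k21 k42 6 (.s k41 k61 5 (.d
  k22 k20 k60 0 6))))), (.s k87 k171 13 (.s k19 k155 9 (.s k31 k27 1 (.s k151 k215 7 (.s k91 k211 9
  (.d k95 k83 k159 1 7))))))] (.c k20 (.l (.s k63 k43 5 (.s k87 k171 13 (.s k127 k191 7 (.s k107 k67
  5 (.d k151 k215 k195 7 13)))))) .n)) (.c k221 (.q k153 [(.s k1 k2 0 (.s k63 k43 5 (.s k21 k42 6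
  (.s k41 k61 5 (.d k22 k20 k60 0 6))))), (.s k63 k43 5 (.s k87 k171 13 (.s k127 k191 7 (.s k107 k67
  5 (.d k151 k215 k195 7 13))))), (.s k2 k1 0 (.s k87 k171 13 (.s k19 k155 9 (.s k86 k220 10 (.s
  k254 k170 13 (.d k252 k253 k169 0 14))))))] .n) .n)))) (.c k153 (.q k221 [(.s k1 k2 0 (.s k63 k43
  5 (.s k21 k42 6 (.s k41 k61 5 (.d k22 k20 k60 0 6))))), (.s k87 k171 13 (.s k19 k155 9 (.s k31 k27
  1 (.s k151 k215 7 (.s k91 k211 9 (.d k95 k83 k159 1 7))))))] (.c k20 (.l (.s k63 k43 5 (.s k87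
  k171 13 (.s k127 k191 7 (.s k107 k67 5 (.d k151 k215 k195 7 13)))))) (.c k79 (.q k143 [(.s k1 k2 0
  (.s k63 k43 5 (.s k21 k42 6 (.s k41 k61 5 (.d k22 k20 k60 0 6))))), (.s k87 k171 13 (.s k19 k155 9
  (.s k31 k27 1 (.s k151 k215 7 (.s k91 k211 9 (.d k95 k83 k159 1 7))))))] (.c k20 (.l (.s k63 k43 5
  (.s k87 k171 13 (.s k127 k191 7 (.s k107 k67 5 (.d k151 k215 k195 7 13)))))) .n)) (.c k143 (.q k79
  [(.s k1 k2 0 (.s k63 k43 5 (.s k21 k42 6 (.s k41 k61 5 (.d k22 k20 k60 0 6))))), (.s k87 k171 13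
  (.s k19 k155 9 (.s k31 k27 1 (.s k151 k215 7 (.s k91 k211 9 (.d k95 k83 k159 1 7))))))] (.c k20
  (.l (.s k63 k43 5 (.s k87 k171 13 (.s k127 k191 7 (.s k107 k67 5 (.d k151 k215 k195 7 13))))))
  .n)) .n)))) (.c k221 (.q k153 [(.s k1 k2 0 (.s k63 k43 5 (.s k21 k42 6 (.s k41 k61 5 (.d k22 k20
  k60 0 6))))), (.s k63 k43 5 (.s k87 k171 13 (.s k127 k191 7 (.s k107 k67 5 (.d k151 k215 k195 7
  13))))), (.s k2 k1 0 (.s k87 k171 13 (.s k19 k155 9 (.s k86 k220 10 (.s k254 k170 13 (.d k252 k253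
  k169 0 14))))))] (.c k79 (.q k143 [(.s k1 k2 0 (.s k63 k43 5 (.s k21 k42 6 (.s k41 k61 5 (.d k22
  k20 k60 0 6))))), (.s k63 k43 5 (.s k87 k171 13 (.s k127 k191 7 (.s k107 k67 5 (.d k151 k215 k195
  7 13))))), (.s k2 k1 0 (.s k87 k171 13 (.s k19 k155 9 (.s k86 k220 10 (.s k254 k170 13 (.d k252
  k253 k169 0 14))))))] .n) (.c k143 (.q k79 [(.s k1 k2 0 (.s k63 k43 5 (.s k21 k42 6 (.s k41 k61 5
  (.d k22 k20 k60 0 6))))), (.s k63 k43 5 (.s k87 k171 13 (.s k127 k191 7 (.s k107 k67 5 (.d k151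
  k215 k195 7 13))))), (.s k2 k1 0 (.s k87 k171 13 (.s k19 k155 9 (.s k86 k220 10 (.s k254 k170 13
  (.d k252 k253 k169 0 14))))))] .n) .n))) .n)))))) (.c k221 (.q k153 [(.s k87 k171 13 (.s k155 k19
  9 (.s k207 k239 3 (.s k71 k139 9 (.d k103 k119 k51 3 13))))), (.s k1 k2 0 (.s k207 k239 3 (.s k69
  k138 10 (.s k137 k205 9 (.s k70 k204 10 (.d k71 k68 k139 0 9)))))), (.s k2 k1 0 (.s k87 k171 13
  (.s k19 k155 9 (.s k86 k220 10 (.s k254 k170 13 (.d k252 k253 k169 0 14))))))] (.c k139 (.l (.s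
  k87 k171 13 (.s k155 k19 9 (.s k154 k152 0 (.s k207 k239 3 (.s k138 k69 10 (.s k186 k170 3 (.d k48
  k117 k101 10 14)))))))) .n)) (.c k239 (.q k221 [(.s k1 k2 0 (.s k204 k238 4 (.s k137 k70 10 (.s
  k69 k205 9 (.s k138 k207 10 (.d k136 k139 k68 0 9)))))), (.s k2 k1 0 (.s k87 k171 13 (.s k19 k155
  9 (.s k220 k222 0 (.s k86 k153 10 (.s k254 k170 13 (.d k252 k253 k169 0 14))))))), (.s k87 k171 13
  (.s k19 k155 9 (.s k204 k238 4 (.s k220 k222 0 (.s k86 k153 10 (.d k252 k236 k169 3 14))))))] (.c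
  k139 (.l (.s k2 k1 0 (.s k204 k238 4 (.s k68 k136 9 (.s k70 k137 10 (.s k138 k206 9 (.d k69 k71
  k207 0 10))))))) .n)) .n)))))))

def t85_18 : T TT 256 :=
  (.f k87 k171 13 (.q k21 [(.s k63 k42 6 (.s k127 k191 7 (.s k107 k67 5 (.s k151 k195 13 (.d k23 k43
  k215 5 7))))), (.s k1 k2 0 (.s k42 k63 6 (.s k41 k61 5 (.s k60 k22 6 (.d k40 k43 k20 0 5)))))] (.c
  k42 (.f k1 k2 0 (.l (.s k41 k61 5 (.s k22 k60 6 (.s k23 k20 0 (.s k63 k43 5 (.s k127 k191 7 (.s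
  k107 k67 5 (.d k151 k215 k195 7 13))))))))) (.c k43 (.l (.s k2 k1 0 (.s k42 k63 6 (.s k22 k62 5
  (.s k60 k41 6 (.d k20 k23 k40 0 5)))))) (.c k63 (.q k12 [(.s k1 k2 0 (.s k4 k8 1 (.s k41 k61 5 (.s
  k6 k9 2 (.s k38 k55 4 (.d k22 k60 k54 6 3)))))), (.s k2 k1 0 (.s k6 k9 2 (.s k14 k10 1 (.s k174
  k93 12 (.s k254 k94 11 (.s k86 k170 13 (.d k252 k253 k169 0 14))))))), (.s k1 k2 0 (.s k4 k8 1 (.s
  k41 k61 5 (.s k60 k22 6 (.s k38 k55 4 (.d k44 k35 k28 2 3)))))), (.s k4 k8 1 (.s k6 k9 2 (.s k38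
  k55 4 (.s k22 k54 3 (.s k60 k41 6 (.d k20 k23 k40 0 5))))))] (.c k8 (.l (.s k1 k2 0 (.s k41 k61 5
  (.s k9 k6 2 (.s k25 k57 3 (.s k51 k38 6 (.d k17 k34 k29 4 1))))))) (.c k31 (.q k47 [(.s k1 k2 0
  (.s k4 k8 1 (.s k41 k61 5 (.s k6 k9 2 (.s k38 k55 4 (.d k22 k60 k54 6 3)))))), (.s k2 k1 0 (.s k6
  k9 2 (.s k14 k10 1 (.s k174 k93 12 (.s k254 k94 11 (.s k86 k170 13 (.d k252 k253 k169 0 14))))))),
  (.s k1 k2 0 (.s k4 k8 1 (.s k41 k61 5 (.s k60 k22 6 (.s k38 k55 4 (.d k44 k35 k28 2 3)))))), (.s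
  k4 k8 1 (.s k6 k9 2 (.s k38 k55 4 (.s k22 k54 3 (.s k60 k41 6 (.d k20 k23 k40 0 5))))))] (.c k8
  (.l (.s k1 k2 0 (.s k41 k61 5 (.s k9 k6 2 (.s k25 k57 3 (.s k51 k38 6 (.d k17 k34 k29 4 1)))))))
  .n)) (.c k47 (.q k31 [(.s k1 k2 0 (.s k4 k8 1 (.s k41 k61 5 (.s k6 k9 2 (.s k38 k55 4 (.d k22 k60
  k54 6 3)))))), (.s k2 k1 0 (.s k4 k8 1 (.s k6 k9 2 (.s k38 k55 4 (.s k26 k16 2 (.d k14 k10 k50 1
  5)))))), (.s k1 k2 0 (.s k4 k8 1 (.s k41 k61 5 (.s k60 k22 6 (.s k44 k28 3 (.d k38 k35 k55 2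
  4)))))), (.s k4 k8 1 (.s k6 k9 2 (.s k38 k55 4 (.s k22 k54 3 (.s k60 k41 6 (.d k20 k23 k40 0
  5)))))), (.s k1 k2 0 (.s k41 k61 5 (.s k9 k6 2 (.s k25 k57 3 (.s k51 k38 6 (.d k17 k34 k29 4
  1))))))] (.c k38 (.l (.s k1 k2 0 (.s k8 k4 1 (.s k41 k61 5 (.s k9 k6 2 (.s k26 k16 2 (.d k11 k10
  k56 0 4))))))) .n)) .n)))) .n)))))

def t85_19 : T TT 256 :=
  (.q k195 [(.s k1 k2 0 (.s k65 k130 8 (.s k129 k193 7 (.s k67 k131 7 (.d k66 k64 k192 0 8))))), (.s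
  k67 k131 7 (.s k87 k171 13 (.s k107 k127 5 (.s k151 k63 13 (.d k215 k235 k23 5 7)))))] (.c k64 (.l
  (.s k2 k1 0 (.s k130 k65 8 (.s k66 k194 7 (.s k129 k192 8 (.d k131 k67 k128 7 0)))))) (.c k67 (.q
  k23 [(.s k87 k171 13 (.d k215 k235 k151 5 7)), (.s k1 k2 0 (.s k63 k43 5 (.s k21 k42 6 (.s k41 k61
  5 (.d k22 k20 k60 0 6)))))] .n) (.c k131 (.q k23 [(.s k215 k235 5 (.d k87 k151 k171 7 13)), (.s k1
  k2 0 (.s k63 k43 5 (.s k21 k42 6 (.s k41 k61 5 (.d k22 k20 k60 0 6)))))] .n) .n))))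

def t85_20 : T TT 256 :=
  (.f k1 k2 0 (.q k19 [(.s k51 k35 3 (.s k17 k34 4 (.s k33 k49 3 (.d k18 k16 k48 0 4)))), (.s k87
  k171 13 (.s k223 k155 9 (.s k207 k239 3 (.s k69 k138 10 (.s k137 k205 9 (.s k70 k204 10 (.d k71
  k139 k68 9 0)))))))] (.c k35 (.q k215 [(.s k195 k235 5 (.s k65 k130 8 (.s k129 k193 7 (.s k66 k192
  8 (.d k67 k64 k131 0 7))))), (.s k87 k171 13 (.s k223 k155 9 (.s k151 k23 7 (.s k211 k219 1 (.s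
  k83 k147 7 (.d k91 k95 k31 1 9))))))] .n) (.c k150 (.q k215 [(.s k51 k35 3 (.s k17 k34 4 (.s k33
  k49 3 (.d k18 k16 k48 0 4)))), (.s k87 k171 13 (.s k151 k23 7 (.s k195 k235 5 (.s k67 k131 7 (.d
  k107 k127 k63 5 13)))))] .n) (.c k215 (.q k150 [(.s k51 k35 3 (.s k17 k34 4 (.s k33 k49 3 (.d k18
  k16 k48 0 4)))), (.s k87 k171 13 (.s k223 k155 9 (.s k207 k239 3 (.s k69 k138 10 (.s k137 k205 9
  (.s k70 k204 10 (.d k71 k139 k68 9 0)))))))] (.c k35 (.q k21 [(.s k41 k61 5 (.s k60 k22 6 (.s k190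
  k125 8 (.s k130 k170 5 (.d k195 k65 k105 8 14))))), (.s k63 k42 6 (.s k23 k43 5 (.s k31 k27 1 (.s
  k16 k26 2 (.s k48 k32 3 (.d k18 k33 k17 4 0))))))] (.c k22 (.q k12 [(.s k4 k8 1 (.s k42 k63 6 (.s
  k38 k55 4 (.s k51 k25 6 (.d k34 k46 k17 1 4))))), (.s k61 k41 5 (.s k9 k6 2 (.s k13 k5 1 (.s k29
  k45 3 (.d k63 k42 k46 6 4))))), (.s k41 k61 5 (.s k9 k6 2 (.s k25 k57 3 (.s k17 k29 1 (.d k51 k38
  k34 6 4)))))] (.c k38 (.l (.s k8 k4 1 (.s k42 k63 6 (.s k41 k61 5 (.s k25 k59 4 (.d k9 k6 k57 2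
  3)))))) (.c k42 (.q k62 [(.s k4 k8 1 (.s k41 k61 5 (.s k9 k6 2 (.s k38 k55 4 (.d k25 k57 k51 3
  6))))), (.s k61 k41 5 (.s k60 k63 0 (.s k190 k125 8 (.s k130 k170 5 (.d k195 k65 k105 8 14))))),
  (.s k4 k8 1 (.s k38 k55 4 (.s k25 k51 6 (.s k17 k29 1 (.s k33 k49 3 (.d k18 k48 k16 4 0))))))] (.c
  k38 (.l (.s k87 k171 13 (.s k174 k93 12 (.s k223 k155 9 (.s k239 k207 3 (.s k61 k41 5 (.s k44 k109
  8 (.d k60 k63 k28 0 3)))))))) .n)) (.c k62 (.l (.s k42 k63 6 (.s k4 k8 1 (.s k38 k55 4 (.s k51 k25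
  6 (.d k34 k46 k17 1 4)))))) .n)))) (.c k41 (.l (.s k63 k42 6 (.s k43 k23 5 (.s k191 k127 7 (.s
  k171 k87 13 (.s k151 k131 5 (.d k107 k235 k195 7 13))))))) (.c k42 (.l (.s k41 k61 5 (.s k22 k60 6
  (.s k25 k28 2 (.s k17 k29 1 (.s k33 k49 3 (.d k18 k16 k48 0 4))))))) (.c k62 (.l (.s k42 k63 6 (.s
  k41 k61 5 (.s k60 k22 6 (.s k190 k125 8 (.s k130 k170 5 (.d k195 k65 k105 8 14))))))) .n))))) .n))
  .n)))))

def t85_21 : T TT 256 :=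
  (.q k51 [(.s k1 k2 0 (.s k17 k34 4 (.s k33 k49 3 (.s k19 k35 3 (.d k18 k16 k48 0 4))))), (.s k19
  k35 3 (.s k87 k171 13 (.s k155 k223 9 (.s k103 k207 13 (.d k119 k71 k187 3 9)))))] (.c k16 (.l (.s
  k2 k1 0 (.s k34 k17 4 (.s k18 k50 3 (.s k33 k48 4 (.d k35 k19 k32 3 0)))))) (.c k19 (.q k103 [(.s
  k87 k171 13 (.d k119 k71 k187 3 9)), (.s k171 k87 13 (.s k239 k35 9 (.d k207 k223 k155 3 13)))]
  (.c k87 (.l (.s k1 k2 0 (.s k207 k155 13 (.s k223 k239 3 (.s k69 k138 10 (.s k137 k205 9 (.s k70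
  k204 10 (.d k71 k68 k139 0 9)))))))) (.c k149 (.q k213 [(.s k87 k171 13 (.d k119 k71 k187 3 9)),
  (.s k1 k2 0 (.s k192 k234 6 (.s k128 k64 7 (.s k129 k66 8 (.s k65 k193 7 (.d k130 k131 k195 0
  8))))))] .n) (.c k171 (.l (.s k119 k187 9 (.s k71 k87 3 (.d k207 k139 k155 9 13)))) (.c k213 (.q
  k149 [(.s k87 k171 13 (.d k119 k71 k187 3 9)), (.s k171 k87 13 (.s k239 k35 9 (.d k207 k223 k155 3
  13)))] (.c k87 (.l (.s k1 k2 0 (.s k207 k155 13 (.s k223 k239 3 (.s k69 k138 10 (.s k137 k205 9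
  (.s k70 k204 10 (.d k71 k68 k139 0 9)))))))) (.c k171 (.l (.s k119 k187 9 (.s k71 k87 3 (.d k207
  k139 k155 9 13)))) .n))) .n))))) (.c k35 (.f k87 k171 13 (.q k103 [(.d k119 k71 k187 3 9), (.s k1
  k2 0 (.s k17 k34 4 (.s k33 k49 3 (.s k18 k48 4 (.s k19 k16 0 (.d k155 k223 k207 9 13))))))] (.c
  k149 (.q k213 [(.d k119 k71 k187 3 9), (.s k1 k2 0 (.s k17 k34 4 (.s k33 k49 3 (.s k18 k48 4 (.s
  k19 k16 0 (.d k155 k223 k207 9 13))))))] .n) (.c k213 (.q k149 [(.d k119 k71 k187 3 9), (.s k1 k2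
  0 (.s k17 k34 4 (.s k33 k49 3 (.s k18 k48 4 (.s k19 k16 0 (.d k155 k223 k207 9 13))))))] .n)
  .n)))) (.c k149 (.q k213 [(.s k1 k2 0 (.s k17 k34 4 (.s k33 k49 3 (.s k19 k35 3 (.d k18 k16 k48 0
  4))))), (.s k1 k2 0 (.s k192 k234 6 (.s k128 k64 7 (.s k129 k66 8 (.s k65 k193 7 (.d k130 k131
  k195 0 8)))))), (.s k19 k35 3 (.s k87 k171 13 (.s k155 k223 9 (.s k103 k207 13 (.d k119 k71 k187 3
  9)))))] .n) (.c k213 (.q k149 [(.s k1 k2 0 (.s k17 k34 4 (.s k33 k49 3 (.s k19 k35 3 (.d k18 k16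
  k48 0 4))))), (.s k19 k35 3 (.s k87 k171 13 (.s k155 k223 9 (.s k103 k207 13 (.d k119 k71 k187 3
  9)))))] (.c k16 (.l (.s k2 k1 0 (.s k34 k17 4 (.s k18 k50 3 (.s k33 k48 4 (.d k35 k19 k32 3
  0)))))) (.c k19 (.q k169 [(.s k171 k87 13 (.s k168 k170 0 (.d k252 k84 k86 13 14))), (.s k86 k252
  14 (.s k23 k212 8 (.s k63 k43 5 (.s k192 k106 14 (.d k129 k189 k66 5 8))))), (.s k129 k189 5 (.s
  k192 k66 8 (.s k128 k64 7 (.s k170 k191 6 (.d k171 k168 k87 0 13)))))] .n) (.c k35 (.q k169 [(.s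
  k171 k87 13 (.s k168 k170 0 (.d k252 k84 k86 13 14))), (.s k86 k252 14 (.s k23 k212 8 (.s k63 k43
  5 (.s k192 k106 14 (.d k129 k189 k66 5 8))))), (.s k129 k189 5 (.s k192 k66 8 (.s k128 k64 7 (.s
  k170 k191 6 (.d k171 k168 k87 0 13)))))] .n) .n)))) .n))))))

def t85_22 : T TT 256 :=
  (.f k87 k171 13 (.q k19 [(.s k51 k35 3 (.s k119 k187 9 (.s k103 k71 3 (.d k155 k223 k207 9 13)))),
  (.s k1 k2 0 (.s k51 k35 3 (.s k17 k34 4 (.s k33 k49 3 (.d k18 k16 k48 0 4)))))] (.c k35 (.q k215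
  [(.s k151 k23 7 (.s k195 k235 5 (.s k67 k131 7 (.d k107 k127 k63 5 13)))), (.s k223 k155 9 (.s
  k151 k23 7 (.s k211 k219 1 (.s k83 k147 7 (.d k91 k95 k31 1 9))))), (.s k223 k155 9 (.s k195 k235
  5 (.s k211 k219 1 (.s k243 k227 3 (.d k83 k163 k147 11 7)))))] (.c k103 (.q k239 [(.d k223 k207
  k155 3 9), (.s k151 k23 7 (.s k195 k235 5 (.s k67 k131 7 (.d k107 k127 k63 5 13))))] .n) (.c k239
  (.q k103 [(.s k71 k119 3 (.s k207 k139 9 (.d k155 k223 k51 9 13))), (.s k151 k23 7 (.s k195 k235 5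
  (.s k67 k131 7 (.d k107 k127 k63 5 13))))] .n) .n))) (.c k51 (.l (.s k1 k2 0 (.s k223 k155 9 (.s
  k207 k239 3 (.s k69 k138 10 (.s k137 k205 9 (.s k70 k204 10 (.d k71 k139 k68 9 0)))))))) (.c k103
  (.l (.s k1 k2 0 (.s k223 k155 9 (.s k51 k35 3 (.s k239 k207 3 (.s k17 k34 4 (.s k33 k49 3 (.d k18
  k16 k48 0 4)))))))) (.c k239 (.l (.s k155 k223 9 (.s k51 k35 3 (.s k103 k207 13 (.d k119 k71 k187
  3 9))))) .n))))))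

def t85_23 : T TT 256 :=
  (.f k1 k2 0 (.q k19 [(.s k51 k35 3 (.s k17 k34 4 (.s k33 k49 3 (.d k18 k16 k48 0 4)))), (.s k87
  k171 13 (.s k223 k155 9 (.s k207 k239 3 (.s k69 k138 10 (.s k137 k205 9 (.s k70 k204 10 (.d k71
  k139 k68 9 0)))))))] (.c k35 (.f k87 k171 13 (.q k103 [(.s k223 k155 9 (.s k71 k119 3 (.d k207
  k139 k239 9 3))), (.s k155 k223 9 (.s k51 k207 13 (.s k17 k34 4 (.s k33 k49 3 (.d k18 k16 k48 0
  4))))), (.s k119 k71 3 (.s k51 k187 9 (.s k17 k34 4 (.s k33 k49 3 (.d k18 k16 k48 0 4)))))] (.c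
  k155 (.q k17 [(.s k119 k71 3 (.d k51 k187 k34 9 4)), (.s k33 k49 3 (.d k18 k16 k48 0 4))] (.c k139
  (.q k187 [(.d k51 k34 k119 4 9), (.s k33 k49 3 (.d k18 k16 k48 0 4))] .n) (.c k187 (.q k139 [(.d
  k71 k119 k207 3 9), (.s k33 k49 3 (.d k18 k16 k48 0 4))] .n) .n))) .n))) .n)))

def t85_24 : T TT 256 :=
  (.f k1 k2 0 (.f k87 k171 13 (.q k51 [(.s k19 k35 3 (.s k119 k187 9 (.s k103 k71 3 (.d k155 k223
  k207 9 13)))), (.s k17 k34 4 (.s k33 k49 3 (.s k18 k48 4 (.d k19 k16 k35 0 3))))] (.c k19 (.q k107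
  [(.s k127 k67 5 (.s k63 k191 7 (.s k23 k43 5 (.d k151 k215 k195 7 13)))), (.s k119 k187 9 (.s k67
  k127 5 (.s k103 k71 3 (.s k99 k111 1 (.d k195 k131 k147 7 11))))), (.s k119 k187 9 (.s k103 k71 3
  (.s k99 k111 1 (.s k195 k147 11 (.s k151 k63 13 (.d k215 k235 k23 5 7))))))] (.c k195 (.l (.s k119
  k187 9 (.s k127 k67 5 (.s k63 k191 7 (.s k55 k59 1 (.s k183 k247 7 (.d k123 k115 k243 1 9)))))))
  .n)) (.c k35 (.l (.s k17 k34 4 (.s k33 k49 3 (.s k18 k48 4 (.s k19 k16 0 (.s k119 k187 9 (.s k103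
  k71 3 (.d k155 k223 k207 9 13)))))))) .n)))))

def t85_25 : T TT 256 :=
  (.q k195 [(.s k1 k2 0 (.s k65 k130 8 (.s k129 k193 7 (.s k67 k131 7 (.d k66 k64 k192 0 8))))), (.s
  k67 k131 7 (.s k87 k171 13 (.s k107 k127 5 (.s k151 k63 13 (.d k215 k235 k23 5 7)))))] (.c k64 (.l
  (.s k2 k1 0 (.s k130 k65 8 (.s k66 k194 7 (.s k129 k192 8 (.d k131 k67 k128 7 0)))))) (.c k67 (.q
  k23 [(.s k87 k171 13 (.d k215 k235 k151 5 7)), (.s k1 k2 0 (.s k63 k43 5 (.s k21 k42 6 (.s k41 k61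
  5 (.d k22 k20 k60 0 6)))))] .n) (.c k131 (.q k23 [(.s k215 k235 5 (.d k87 k151 k171 7 13)), (.s k1
  k2 0 (.s k63 k43 5 (.s k21 k42 6 (.s k41 k61 5 (.d k22 k20 k60 0 6)))))] .n) .n))))

def t85_26 : T TT 256 :=
  (.f k1 k2 0 (.q k23 [(.s k63 k43 5 (.s k21 k42 6 (.s k41 k61 5 (.d k22 k20 k60 0 6)))), (.s k87
  k171 13 (.s k215 k151 7 (.s k195 k235 5 (.s k65 k130 8 (.s k129 k193 7 (.s k66 k192 8 (.d k67 k131
  k64 7 0)))))))] (.c k37 (.q k48 [(.s k63 k43 5 (.s k21 k42 6 (.s k41 k61 5 (.d k22 k20 k60 0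
  6)))), (.s k33 k18 4 (.s k17 k49 3 (.s k34 k51 4 (.d k32 k35 k16 0 3)))), (.s k63 k43 5 (.s k87
  k171 13 (.s k151 k215 7 (.s k107 k195 13 (.d k127 k67 k191 5 7)))))] .n) (.c k43 (.q k51 [(.s k17
  k34 4 (.s k33 k49 3 (.s k19 k35 3 (.d k18 k48 k16 4 0)))), (.s k87 k171 13 (.s k151 k215 7 (.s
  k119 k187 9 (.s k103 k71 3 (.s k55 k199 11 (.s k247 k183 7 (.d k7 k39 k167 3 11)))))))] (.c k37
  (.q k48 [(.s k17 k34 4 (.d k33 k18 k49 4 3)), (.s k19 k35 3 (.s k87 k171 13 (.s k155 k223 9 (.s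
  k103 k207 13 (.d k119 k71 k187 3 9)))))] .n) (.c k39 (.l (.s k35 k19 3 (.s k171 k87 13 (.s k103
  k239 9 (.s k155 k207 13 (.d k187 k139 k119 3 9)))))) (.c k48 (.q k37 [(.s k17 k34 4 (.s k33 k49 3
  (.s k41 k45 1 (.s k21 k61 5 (.d k22 k60 k20 6 0))))), (.s k19 k35 3 (.s k87 k171 13 (.s k155 k223
  9 (.s k103 k207 13 (.d k119 k71 k187 3 9)))))] .n) .n)))) (.c k48 (.q k37 [(.s k63 k43 5 (.s k21
  k42 6 (.s k41 k61 5 (.d k22 k20 k60 0 6)))), (.s k87 k171 13 (.s k215 k151 7 (.s k195 k235 5 (.s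
  k65 k130 8 (.s k129 k193 7 (.s k66 k192 8 (.d k67 k131 k64 7 0)))))))] (.c k43 (.q k51 [(.s k17
  k34 4 (.s k33 k49 3 (.s k41 k45 1 (.s k21 k61 5 (.d k22 k60 k20 6 0))))), (.s k19 k35 3 (.s k87
  k171 13 (.s k155 k223 9 (.s k103 k207 13 (.d k119 k71 k187 3 9)))))] .n) .n)) .n)))))

def t85_27 : T TT 256 :=
  (.q k51 [(.s k1 k2 0 (.s k17 k34 4 (.s k33 k49 3 (.s k19 k35 3 (.d k18 k16 k48 0 4))))), (.s k19
  k35 3 (.s k87 k171 13 (.s k155 k223 9 (.s k103 k207 13 (.d k119 k71 k187 3 9)))))] (.c k16 (.l (.s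
  k2 k1 0 (.s k34 k17 4 (.s k18 k50 3 (.s k33 k48 4 (.d k35 k19 k32 3 0)))))) (.c k19 (.q k23 [(.s
  k1 k2 0 (.s k63 k43 5 (.s k21 k42 6 (.s k41 k61 5 (.d k22 k20 k60 0 6))))), (.s k87 k171 13 (.s
  k151 k215 7 (.s k119 k187 9 (.s k103 k71 3 (.s k55 k199 11 (.s k7 k39 3 (.d k247 k183 k167 7
  11)))))))] (.c k20 (.l (.s k63 k43 5 (.s k87 k171 13 (.s k127 k191 7 (.s k107 k67 5 (.d k151 k215
  k195 7 13)))))) .n)) (.c k35 (.q k23 [(.s k1 k2 0 (.s k63 k43 5 (.s k21 k42 6 (.s k41 k61 5 (.d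
  k22 k20 k60 0 6))))), (.s k87 k171 13 (.s k151 k215 7 (.s k119 k187 9 (.s k103 k71 3 (.s k55 k199
  11 (.s k247 k183 7 (.d k7 k39 k167 3 11)))))))] (.c k20 (.l (.s k63 k43 5 (.s k87 k171 13 (.s k127
  k191 7 (.s k107 k67 5 (.d k151 k215 k195 7 13)))))) (.c k39 (.l (.s k87 k171 13 (.s k151 k215 7
  (.s k119 k187 9 (.s k103 k71 3 (.s k55 k199 11 (.d k63 k59 k43 1 5))))))) .n))) .n))))

def t85_28 : T TT 256 :=
  (.q k195 [(.s k1 k2 0 (.s k65 k130 8 (.s k129 k193 7 (.s k67 k131 7 (.d k66 k64 k192 0 8))))), (.s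
  k67 k131 7 (.s k87 k171 13 (.s k107 k127 5 (.s k151 k63 13 (.d k215 k235 k23 5 7)))))] (.c k64 (.l
  (.s k2 k1 0 (.s k130 k65 8 (.s k66 k194 7 (.s k129 k192 8 (.d k131 k67 k128 7 0)))))) (.c k67 (.q
  k51 [(.s k1 k2 0 (.s k17 k34 4 (.s k33 k49 3 (.s k19 k35 3 (.d k18 k16 k48 0 4))))), (.s k87 k171
  13 (.s k99 k147 11 (.s k119 k187 9 (.s k103 k71 3 (.s k107 k111 1 (.s k151 k63 13 (.d k215 k235
  k23 5 7)))))))] .n) (.c k131 (.q k51 [(.s k1 k2 0 (.s k17 k34 4 (.s k33 k49 3 (.s k19 k35 3 (.d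
  k18 k16 k48 0 4))))), (.s k87 k171 13 (.s k99 k147 11 (.s k119 k187 9 (.s k103 k71 3 (.s k107 k111
  1 (.s k151 k63 13 (.d k215 k235 k23 5 7)))))))] .n) .n))))

def t85_29 : T TT 256 :=
  (.f k1 k2 0 (.q k19 [(.s k51 k35 3 (.s k17 k34 4 (.s k33 k49 3 (.d k18 k16 k48 0 4)))), (.s k87
  k171 13 (.s k223 k155 9 (.s k207 k239 3 (.s k69 k138 10 (.s k137 k205 9 (.s k70 k204 10 (.d k71
  k139 k68 9 0)))))))] (.c k35 (.q k215 [(.s k87 k171 13 (.s k151 k23 7 (.s k195 k235 5 (.s k67 k131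
  7 (.d k107 k127 k63 5 13))))), (.s k195 k235 5 (.s k65 k130 8 (.s k129 k193 7 (.s k66 k192 8 (.d
  k67 k64 k131 0 7))))), (.s k87 k171 13 (.s k223 k155 9 (.s k151 k23 7 (.s k211 k219 1 (.s k83 k147
  7 (.d k91 k95 k31 1 9))))))] .n) .n)))

def t85_30 : T TT 256 :=
  (.f k1 k2 0 (.f k87 k171 13 (.q k51 [(.s k19 k35 3 (.s k119 k187 9 (.s k103 k71 3 (.d k155 k223
  k207 9 13)))), (.s k17 k34 4 (.s k33 k49 3 (.s k18 k48 4 (.d k19 k16 k35 0 3))))] (.c k19 (.q k60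
  [(.s k41 k22 6 (.s k21 k61 5 (.s k42 k63 6 (.d k40 k43 k20 0 5)))), (.s k17 k34 4 (.s k49 k33 3
  (.s k57 k54 2 (.s k61 k53 1 (.d k41 k21 k22 5 6))))), (.s k20 k40 5 (.s k22 k41 6 (.s k21 k23 0
  (.s k42 k63 6 (.s k54 k57 2 (.s k38 k6 3 (.d k34 k46 k17 1 4)))))))] (.c k21 (.l (.s k34 k17 4 (.s
  k41 k22 6 (.s k57 k54 2 (.s k25 k9 3 (.s k38 k12 6 (.s k42 k46 1 (.d k40 k20 k43 5 0)))))))) (.c
  k22 (.l (.s k17 k34 4 (.s k49 k33 3 (.s k57 k54 2 (.s k61 k53 1 (.s k21 k41 5 (.d k63 k62 k42 0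
  6))))))) (.c k41 (.q k23 [(.s k20 k40 5 (.s k21 k22 0 (.d k63 k43 k42 5 6))), (.s k151 k215 7 (.s
  k119 k187 9 (.s k103 k71 3 (.s k55 k199 11 (.s k7 k39 3 (.d k247 k183 k167 7 11))))))] (.c k20 (.l
  (.s k63 k43 5 (.s k127 k191 7 (.s k107 k67 5 (.d k151 k215 k195 7 13))))) .n)) .n)))) (.c k35 (.l
  (.s k17 k34 4 (.s k33 k49 3 (.s k18 k48 4 (.s k19 k16 0 (.s k119 k187 9 (.s k103 k71 3 (.d k155
  k223 k207 9 13)))))))) (.c k45 (.q k60 [(.s k17 k34 4 (.s k33 k49 3 (.s k18 k48 4 (.d k19 k16 k35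
  0 3)))), (.s k40 k20 5 (.s k41 k22 6 (.s k21 k61 5 (.d k42 k43 k63 0 6)))), (.s k19 k35 3 (.s k155
  k223 9 (.s k103 k207 13 (.d k119 k71 k187 3 9))))] .n) (.c k60 (.q k45 [(.s k19 k35 3 (.s k119
  k187 9 (.s k103 k71 3 (.d k155 k223 k207 9 13)))), (.s k17 k34 4 (.s k33 k49 3 (.s k41 k37 1 (.s
  k21 k61 5 (.s k25 k29 1 (.s k12 k38 6 (.d k9 k57 k6 3 2)))))))] .n) .n)))))))

def t85_31 : T TT 256 :=
  (.f k1 k2 0 (.q k19 [(.s k51 k35 3 (.s k17 k34 4 (.s k33 k49 3 (.d k18 k16 k48 0 4)))), (.s k87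
  k171 13 (.s k223 k155 9 (.s k207 k239 3 (.s k69 k138 10 (.s k137 k205 9 (.s k70 k204 10 (.d k71
  k139 k68 9 0)))))))] (.c k35 (.q k63 [(.s k21 k42 6 (.s k41 k61 5 (.s k22 k60 6 (.d k23 k20 k43 0
  5)))), (.s k23 k43 5 (.s k87 k171 13 (.s k127 k191 7 (.s k107 k67 5 (.d k151 k215 k195 7 13))))),
  (.s k21 k42 6 (.s k41 k61 5 (.s k22 k60 6 (.s k25 k28 2 (.s k9 k57 3 (.s k12 k6 2 (.d k29 k17 k46
  1 4)))))))] .n) (.c k47 (.q k63 [(.s k51 k35 3 (.s k17 k34 4 (.s k33 k49 3 (.d k18 k16 k48 0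
  4)))), (.s k21 k42 6 (.s k41 k61 5 (.s k22 k60 6 (.d k23 k20 k43 0 5)))), (.s k87 k171 13 (.s k155
  k223 9 (.s k127 k191 7 (.s k107 k67 5 (.s k59 k203 11 (.d k51 k55 k35 1 3))))))] .n) (.c k63 (.q
  k47 [(.s k51 k35 3 (.s k17 k34 4 (.s k33 k49 3 (.d k18 k16 k48 0 4)))), (.s k87 k171 13 (.s k223
  k155 9 (.s k207 k239 3 (.s k69 k138 10 (.s k137 k205 9 (.s k70 k204 10 (.d k71 k139 k68 9
  0)))))))] (.c k35 (.f k87 k171 13 (.q k103 [(.s k223 k155 9 (.s k71 k119 3 (.d k207 k139 k239 9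
  3))), (.s k155 k223 9 (.s k51 k207 13 (.s k17 k34 4 (.s k33 k49 3 (.d k18 k16 k48 0 4))))), (.s
  k119 k71 3 (.s k51 k187 9 (.s k17 k34 4 (.s k33 k49 3 (.d k18 k16 k48 0 4)))))] (.c k155 (.q k215
  [(.s k151 k23 7 (.s k199 k55 11 (.s k71 k119 3 (.s k247 k231 3 (.d k7 k135 k167 7 11))))), (.s
  k195 k235 5 (.s k65 k130 8 (.s k129 k193 7 (.s k66 k192 8 (.d k67 k64 k131 0 7)))))] (.c k139 (.q
  k187 [(.d k119 k71 k51 3 9), (.s k195 k235 5 (.s k65 k130 8 (.s k129 k193 7 (.s k66 k192 8 (.d k67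
  k64 k131 0 7)))))] .n) (.c k187 (.q k139 [(.d k71 k119 k207 3 9), (.s k195 k235 5 (.s k65 k130 8
  (.s k129 k193 7 (.s k66 k192 8 (.d k67 k64 k131 0 7)))))] .n) .n))) .n))) .n)) .n)))))

def t85_32 : T TT 256 :=
  (.q k195 [(.s k1 k2 0 (.s k65 k130 8 (.s k129 k193 7 (.s k67 k131 7 (.d k66 k64 k192 0 8))))), (.s
  k67 k131 7 (.s k87 k171 13 (.s k107 k127 5 (.s k151 k63 13 (.d k215 k235 k23 5 7)))))] (.c k64 (.l
  (.s k2 k1 0 (.s k130 k65 8 (.s k66 k194 7 (.s k129 k192 8 (.d k131 k67 k128 7 0)))))) (.c k67 (.q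
  k51 [(.s k1 k2 0 (.s k17 k34 4 (.s k33 k49 3 (.s k19 k35 3 (.d k18 k16 k48 0 4))))), (.s k87 k171
  13 (.s k99 k147 11 (.s k119 k187 9 (.s k103 k71 3 (.s k107 k111 1 (.s k151 k63 13 (.d k215 k235
  k23 5 7)))))))] .n) (.c k131 (.q k51 [(.s k1 k2 0 (.s k17 k34 4 (.s k33 k49 3 (.s k19 k35 3 (.d
  k18 k16 k48 0 4))))), (.s k87 k171 13 (.s k99 k147 11 (.s k119 k187 9 (.s k103 k71 3 (.s k107 k111
  1 (.s k151 k63 13 (.d k215 k235 k23 5 7)))))))] .n) .n))))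

def t85_33 : T TT 256 :=
  (.f k1 k2 0 (.q k23 [(.s k63 k43 5 (.s k21 k42 6 (.s k41 k61 5 (.d k22 k20 k60 0 6)))), (.s k87
  k171 13 (.s k215 k151 7 (.s k195 k235 5 (.s k65 k130 8 (.s k129 k193 7 (.s k66 k192 8 (.d k67 k131
  k64 7 0)))))))] (.c k43 (.f k87 k171 13 (.q k107 [(.s k215 k151 7 (.s k67 k127 5 (.d k195 k131
  k235 7 5))), (.s k151 k215 7 (.s k63 k195 13 (.s k21 k42 6 (.s k41 k61 5 (.d k22 k20 k60 0 6))))),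
  (.s k127 k67 5 (.s k63 k191 7 (.s k21 k42 6 (.s k41 k61 5 (.d k22 k20 k60 0 6)))))] (.c k151 (.q
  k21 [(.s k127 k67 5 (.d k63 k191 k42 7 6)), (.s k41 k61 5 (.d k22 k20 k60 0 6))] (.c k131 (.q k191
  [(.d k63 k42 k127 6 7), (.s k41 k61 5 (.d k22 k20 k60 0 6))] .n) (.c k191 (.q k131 [(.d k67 k127
  k195 5 7), (.s k41 k61 5 (.d k22 k20 k60 0 6))] .n) .n))) .n))) .n)))

def t85_34 : T TT 256 :=
  (.q k21 [(.s k1 k2 0 (.s k42 k63 6 (.s k41 k61 5 (.s k60 k22 6 (.d k40 k43 k20 0 5))))), (.s k63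
  k42 6 (.s k43 k23 5 (.s k171 k87 13 (.s k107 k235 7 (.s k151 k195 13 (.d k191 k131 k127 5 7))))))]
  (.c k42 (.f k1 k2 0 (.f k87 k171 13 (.l (.s k41 k61 5 (.s k22 k60 6 (.s k23 k20 0 (.s k63 k43 5
  (.s k127 k191 7 (.s k107 k67 5 (.d k151 k215 k195 7 13)))))))))) (.c k43 (.l (.s k2 k1 0 (.s k42
  k63 6 (.s k22 k62 5 (.s k60 k41 6 (.d k20 k23 k40 0 5)))))) (.c k63 (.f k87 k171 13 (.q k12 [(.s
  k1 k2 0 (.s k4 k8 1 (.s k41 k61 5 (.s k60 k22 6 (.s k38 k55 4 (.d k44 k35 k28 2 3)))))), (.s k2 k1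
  0 (.s k6 k9 2 (.s k14 k10 1 (.s k174 k93 12 (.s k254 k94 11 (.s k86 k170 13 (.d k252 k253 k169 0
  14))))))), (.s k4 k8 1 (.s k6 k9 2 (.s k38 k55 4 (.s k22 k54 3 (.s k60 k41 6 (.d k20 k23 k40 0
  5))))))] (.c k8 (.l (.s k1 k2 0 (.s k41 k61 5 (.s k9 k6 2 (.s k13 k5 1 (.s k25 k57 3 (.s k49 k37 5
  (.d k17 k29 k33 1 3)))))))) (.c k31 (.q k47 [(.s k1 k2 0 (.s k4 k8 1 (.s k41 k61 5 (.s k60 k22 6
  (.s k38 k55 4 (.d k44 k35 k28 2 3)))))), (.s k2 k1 0 (.s k6 k9 2 (.s k14 k10 1 (.s k174 k93 12 (.s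
  k254 k94 11 (.s k86 k170 13 (.d k252 k253 k169 0 14))))))), (.s k4 k8 1 (.s k6 k9 2 (.s k38 k55 4
  (.s k22 k54 3 (.s k60 k41 6 (.d k20 k23 k40 0 5))))))] (.c k8 (.l (.s k1 k2 0 (.s k41 k61 5 (.s k9
  k6 2 (.s k13 k5 1 (.s k25 k57 3 (.s k49 k37 5 (.d k17 k29 k33 1 3)))))))) .n)) (.c k47 (.q k31
  [(.s k1 k2 0 (.s k4 k8 1 (.s k41 k61 5 (.s k60 k22 6 (.s k38 k55 4 (.d k44 k35 k28 2 3)))))), (.s
  k4 k8 1 (.s k6 k9 2 (.s k38 k55 4 (.s k22 k54 3 (.s k60 k41 6 (.d k20 k23 k40 0 5)))))), (.s k1 k2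
  0 (.s k41 k61 5 (.s k60 k22 6 (.s k20 k40 5 (.s k28 k44 3 (.d k16 k24 k26 1 2)))))), (.s k2 k1 0
  (.s k4 k8 1 (.s k6 k9 2 (.s k38 k55 4 (.s k26 k16 2 (.d k14 k10 k50 1 5))))))] .n) .n))))) .n))))

def t85_35 : T TT 256 :=
  (.q k195 [(.s k1 k2 0 (.s k65 k130 8 (.s k129 k193 7 (.s k67 k131 7 (.d k66 k64 k192 0 8))))), (.s
  k67 k131 7 (.s k87 k171 13 (.s k107 k127 5 (.s k151 k63 13 (.d k215 k235 k23 5 7)))))] (.c k64 (.l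
  (.s k2 k1 0 (.s k130 k65 8 (.s k66 k194 7 (.s k129 k192 8 (.d k131 k67 k128 7 0)))))) (.c k67 (.q
  k23 [(.s k215 k235 5 (.d k87 k151 k171 7 13)), (.s k1 k2 0 (.s k63 k43 5 (.s k21 k42 6 (.s k41 k61
  5 (.d k22 k20 k60 0 6)))))] .n) (.c k131 (.q k23 [(.s k215 k235 5 (.d k87 k151 k171 7 13)), (.s k1
  k2 0 (.s k63 k43 5 (.s k21 k42 6 (.s k41 k61 5 (.d k22 k20 k60 0 6)))))] .n) .n))))

def t85_36 : T TT 256 :=
  (.q k195 [(.s k1 k2 0 (.s k65 k130 8 (.s k129 k193 7 (.s k67 k131 7 (.d k66 k64 k192 0 8))))), (.s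
  k67 k131 7 (.s k87 k171 13 (.s k107 k127 5 (.s k151 k63 13 (.d k215 k235 k23 5 7)))))] (.c k64 (.l
  (.s k2 k1 0 (.s k130 k65 8 (.s k66 k194 7 (.s k129 k192 8 (.d k131 k67 k128 7 0)))))) (.c k67 (.q
  k23 [(.s k87 k171 13 (.d k215 k235 k151 5 7)), (.s k1 k2 0 (.s k63 k43 5 (.s k21 k42 6 (.s k41 k61
  5 (.d k22 k20 k60 0 6)))))] .n) (.c k131 (.q k23 [(.s k215 k235 5 (.d k87 k151 k171 7 13)), (.s k1
  k2 0 (.s k63 k43 5 (.s k21 k42 6 (.s k41 k61 5 (.d k22 k20 k60 0 6)))))] .n) .n))))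

def t85_37 : T TT 256 :=
  (.q k195 [(.s k1 k2 0 (.s k65 k130 8 (.s k129 k193 7 (.s k67 k131 7 (.d k66 k64 k192 0 8))))), (.s
  k67 k131 7 (.s k87 k171 13 (.s k107 k127 5 (.s k151 k63 13 (.d k215 k235 k23 5 7)))))] (.c k26 (.q
  k48 [(.s k1 k2 0 (.s k65 k130 8 (.s k129 k193 7 (.s k66 k192 8 (.d k67 k64 k131 0 7))))), (.s k1
  k2 0 (.s k32 k16 3 (.s k33 k18 4 (.s k17 k49 3 (.d k34 k35 k51 0 4))))), (.s k16 k32 3 (.s k130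
  k65 8 (.s k146 k97 12 (.s k81 k211 8 (.d k162 k178 k243 3 12)))))] .n) (.c k48 (.q k26 [(.s k1 k2
  0 (.s k65 k130 8 (.s k129 k193 7 (.s k67 k131 7 (.d k66 k64 k192 0 8))))), (.s k67 k131 7 (.s k87
  k171 13 (.s k107 k127 5 (.s k151 k63 13 (.d k215 k235 k23 5 7)))))] (.c k64 (.l (.s k2 k1 0 (.s
  k130 k65 8 (.s k66 k194 7 (.s k129 k192 8 (.d k131 k67 k128 7 0)))))) (.c k67 (.q k23 [(.s k87
  k171 13 (.d k215 k235 k151 5 7)), (.s k1 k2 0 (.s k63 k43 5 (.s k21 k42 6 (.s k41 k61 5 (.d k22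
  k20 k60 0 6)))))] .n) (.c k131 (.q k23 [(.s k215 k235 5 (.d k87 k151 k171 7 13)), (.s k1 k2 0 (.s
  k63 k43 5 (.s k21 k42 6 (.s k41 k61 5 (.d k22 k20 k60 0 6)))))] .n) .n)))) (.c k64 (.l (.s k2 k1 0
  (.s k130 k65 8 (.s k66 k194 7 (.s k129 k192 8 (.d k131 k67 k128 7 0)))))) (.c k67 (.q k48 [(.s k1
  k2 0 (.s k32 k16 3 (.s k33 k18 4 (.s k34 k35 0 (.d k17 k49 k51 3 4))))), (.s k16 k32 3 (.s k130
  k65 8 (.s k146 k97 12 (.s k81 k211 8 (.d k162 k178 k243 3 12))))), (.s k1 k2 0 (.s k65 k130 8 (.s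
  k193 k129 7 (.s k33 k18 4 (.s k97 k146 12 (.d k49 k17 k145 3 11))))))] .n) (.c k131 (.q k48 [(.s
  k1 k2 0 (.s k32 k16 3 (.s k33 k18 4 (.s k34 k35 0 (.d k17 k49 k51 3 4))))), (.s k16 k32 3 (.s k130
  k65 8 (.s k146 k97 12 (.s k81 k211 8 (.d k162 k178 k243 3 12))))), (.s k1 k2 0 (.s k65 k130 8 (.s
  k33 k18 4 (.s k97 k146 12 (.s k161 k225 7 (.d k81 k113 k241 3 11))))))] .n) .n))))))

def t85_38 : T TT 256 :=
  (.f k1 k2 0 (.q k23 [(.s k63 k43 5 (.s k21 k42 6 (.s k41 k61 5 (.d k22 k20 k60 0 6)))), (.s k87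
  k171 13 (.s k215 k151 7 (.s k195 k235 5 (.s k65 k130 8 (.s k129 k193 7 (.s k66 k192 8 (.d k67 k131
  k64 7 0)))))))] (.c k43 (.q k51 [(.s k17 k34 4 (.s k33 k49 3 (.s k18 k48 4 (.d k19 k16 k35 0
  3)))), (.s k87 k171 13 (.s k151 k215 7 (.s k119 k187 9 (.s k103 k71 3 (.s k55 k199 11 (.s k247
  k183 7 (.d k7 k39 k167 3 11)))))))] .n) .n)))

def t85_39 : T TT 256 :=
  (.q k51 [(.s k1 k2 0 (.s k17 k34 4 (.s k33 k49 3 (.s k18 k48 4 (.d k19 k16 k35 0 3))))), (.s k19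
  k35 3 (.s k87 k171 13 (.s k155 k223 9 (.s k103 k207 13 (.d k119 k71 k187 3 9)))))] (.c k16 (.l (.s
  k2 k1 0 (.s k34 k17 4 (.s k18 k50 3 (.s k33 k48 4 (.d k35 k19 k32 3 0)))))) (.c k19 (.q k195 [(.s
  k1 k2 0 (.s k65 k130 8 (.s k129 k193 7 (.s k67 k131 7 (.d k66 k64 k192 0 8))))), (.s k87 k171 13
  (.s k99 k147 11 (.s k119 k187 9 (.s k103 k71 3 (.s k107 k111 1 (.s k151 k63 13 (.d k215 k235 k23 5
  7)))))))] .n) (.c k35 (.q k43 [(.s k63 k23 5 (.s k171 k87 13 (.s k107 k235 7 (.s k151 k195 13 (.d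
  k191 k131 k127 5 7))))), (.s k2 k1 0 (.s k63 k23 5 (.s k42 k21 6 (.s k22 k62 5 (.d k41 k40 k60 0
  6))))), (.s k171 k87 13 (.s k107 k235 7 (.s k187 k119 9 (.s k155 k139 3 (.s k59 k203 11 (.s k11
  k27 3 (.d k251 k123 k91 7 11)))))))] .n) .n))))

def t85_40 : T TT 256 :=
  (.f k87 k171 13 (.q k51 [(.s k19 k35 3 (.s k119 k187 9 (.s k103 k71 3 (.d k155 k223 k207 9 13)))),
  (.s k1 k2 0 (.s k17 k34 4 (.s k33 k49 3 (.s k18 k48 4 (.d k19 k16 k35 0 3)))))] (.c k19 (.q k12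
  [(.s k8 k4 1 (.s k17 k34 4 (.s k25 k38 6 (.s k42 k59 4 (.d k21 k29 k63 1 6))))), (.s k2 k1 0 (.s
  k6 k9 2 (.s k14 k10 1 (.s k174 k93 12 (.s k254 k94 11 (.s k86 k170 13 (.d k252 k253 k169 0
  14)))))))] (.c k8 (.l (.s k1 k2 0 (.s k17 k34 4 (.s k49 k33 3 (.s k9 k6 2 (.s k13 k5 1 (.d k25 k37
  k38 5 6))))))) .n)) (.c k35 (.q k103 [(.d k119 k71 k187 3 9), (.s k1 k2 0 (.s k17 k34 4 (.s k33
  k49 3 (.s k18 k48 4 (.s k19 k16 0 (.d k155 k223 k207 9 13))))))] .n) .n))))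

def t85_41 : T TT 256 :=
  (.f k1 k2 0 (.f k87 k171 13 (.q k51 [(.s k17 k34 4 (.s k33 k49 3 (.s k18 k48 4 (.d k19 k16 k35 0
  3)))), (.s k19 k35 3 (.s k119 k187 9 (.s k103 k71 3 (.d k155 k223 k207 9 13))))] (.c k19 (.q k23
  [(.s k63 k43 5 (.s k127 k191 7 (.s k107 k67 5 (.d k151 k215 k195 7 13)))), (.s k151 k215 7 (.s
  k119 k187 9 (.s k103 k71 3 (.s k55 k199 11 (.s k7 k39 3 (.d k247 k183 k167 7 11)))))), (.s k63 k43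
  5 (.s k55 k59 1 (.s k7 k39 3 (.s k247 k167 11 (.d k119 k183 k187 7 9)))))] .n) (.c k35 (.l (.s k17
  k34 4 (.s k33 k49 3 (.s k18 k48 4 (.s k19 k16 0 (.s k119 k187 9 (.s k103 k71 3 (.d k155 k223 k207
  9 13)))))))) .n)))))

def t85_42 : T TT 256 :=
  (.f k87 k171 13 (.q k51 [(.s k19 k35 3 (.s k119 k187 9 (.s k103 k71 3 (.d k155 k223 k207 9 13)))),
  (.s k1 k2 0 (.s k17 k34 4 (.s k33 k49 3 (.s k18 k48 4 (.d k19 k16 k35 0 3)))))] (.c k19 (.q k23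
  [(.s k63 k43 5 (.s k127 k191 7 (.s k107 k67 5 (.d k151 k215 k195 7 13)))), (.s k151 k215 7 (.s
  k119 k187 9 (.s k103 k71 3 (.s k55 k199 11 (.s k7 k39 3 (.d k247 k183 k167 7 11)))))), (.s k63 k43
  5 (.s k55 k59 1 (.s k7 k39 3 (.s k247 k167 11 (.d k119 k183 k187 7 9)))))] .n) (.c k35 (.f k1 k2 0
  (.l (.s k17 k34 4 (.s k33 k49 3 (.s k18 k48 4 (.s k19 k16 0 (.s k119 k187 9 (.s k103 k71 3 (.d
  k155 k223 k207 9 13))))))))) .n))))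

def t85_43 : T TT 256 :=
  (.q k51 [(.s k1 k2 0 (.s k17 k34 4 (.s k33 k49 3 (.s k18 k48 4 (.d k19 k16 k35 0 3))))), (.s k19
  k35 3 (.s k87 k171 13 (.s k155 k223 9 (.s k103 k207 13 (.d k119 k71 k187 3 9)))))] (.c k16 (.l (.s
  k2 k1 0 (.s k34 k17 4 (.s k18 k50 3 (.s k33 k48 4 (.d k35 k19 k32 3 0)))))) (.c k19 (.q k195 [(.s
  k1 k2 0 (.s k65 k130 8 (.s k129 k193 7 (.s k67 k131 7 (.d k66 k64 k192 0 8))))), (.s k87 k171 13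
  (.s k99 k147 11 (.s k119 k187 9 (.s k103 k71 3 (.s k107 k111 1 (.s k151 k63 13 (.d k215 k235 k23 5
  7)))))))] .n) (.c k35 (.q k195 [(.s k1 k2 0 (.s k65 k130 8 (.s k129 k193 7 (.s k67 k131 7 (.d k66
  k64 k192 0 8))))), (.s k87 k171 13 (.s k99 k147 11 (.s k119 k187 9 (.s k103 k71 3 (.s k107 k111 1
  (.s k151 k63 13 (.d k215 k235 k23 5 7)))))))] (.c k39 (.q k47 [(.s k1 k2 0 (.s k65 k130 8 (.s k129
  k193 7 (.s k67 k131 7 (.d k66 k64 k192 0 8))))), (.s k87 k171 13 (.s k99 k147 11 (.s k119 k187 9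
  (.s k103 k71 3 (.s k107 k111 1 (.s k151 k63 13 (.d k215 k235 k23 5 7)))))))] .n) (.c k47 (.q k39
  [(.s k1 k2 0 (.s k65 k130 8 (.s k129 k193 7 (.s k67 k131 7 (.d k66 k64 k192 0 8))))), (.s k87 k171
  13 (.s k99 k147 11 (.s k119 k187 9 (.s k103 k71 3 (.s k107 k111 1 (.s k215 k235 5 (.d k151 k63 k23
  13 7)))))))] (.c k31 (.q k63 [(.s k67 k131 7 (.s k107 k151 13 (.d k87 k171 k127 13 5))), (.s k1 k2
  0 (.s k65 k130 8 (.s k129 k193 7 (.s k66 k192 8 (.d k67 k64 k131 0 7))))), (.s k87 k171 13 (.s k55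
  k59 1 (.s k23 k7 3 (.d k151 k107 k215 13 7))))] .n) (.c k63 (.q k31 [(.s k1 k2 0 (.s k65 k130 8
  (.s k129 k193 7 (.s k67 k131 7 (.d k66 k64 k192 0 8))))), (.s k87 k171 13 (.s k147 k99 11 (.s k119
  k187 9 (.s k103 k71 3 (.s k155 k207 13 (.s k223 k19 9 (.d k159 k151 k95 1 7)))))))] .n) .n)))
  .n))) .n))))

def t85_44 : T TT 256 :=
  (.f k87 k171 13 (.q k51 [(.s k119 k187 9 (.s k103 k71 3 (.s k155 k207 13 (.d k19 k35 k223 3 9)))),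
  (.s k1 k2 0 (.s k17 k34 4 (.s k33 k49 3 (.s k18 k48 4 (.d k19 k16 k35 0 3)))))] (.c k19 (.q k12
  [(.s k4 k8 1 (.s k38 k25 6 (.s k21 k55 4 (.s k42 k63 6 (.d k34 k46 k17 1 4))))), (.s k2 k1 0 (.s
  k6 k9 2 (.s k14 k10 1 (.s k174 k93 12 (.s k254 k94 11 (.s k86 k170 13 (.d k252 k253 k169 0
  14)))))))] (.c k8 (.l (.s k1 k2 0 (.s k17 k34 4 (.s k49 k33 3 (.s k9 k6 2 (.s k13 k5 1 (.d k25 k37
  k38 5 6))))))) .n)) (.c k35 (.q k103 [(.d k119 k71 k187 3 9), (.s k1 k2 0 (.s k17 k34 4 (.s k33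
  k49 3 (.s k18 k48 4 (.s k19 k16 0 (.d k155 k223 k207 9 13))))))] (.c k38 (.q k41 [(.d k119 k71
  k187 3 9), (.s k1 k2 0 (.s k21 k61 5 (.s k42 k63 6 (.s k60 k22 6 (.d k40 k43 k20 0 5)))))] .n) (.c
  k41 (.q k38 [(.d k119 k71 k187 3 9), (.s k17 k34 4 (.s k25 k12 6 (.s k21 k29 1 (.s k63 k42 6 (.d
  k55 k59 k4 1 4)))))] .n) .n))) .n))))

def t85_45 : T TT 256 :=
  (.f k87 k171 13 (.f k1 k2 0 (.q k51 [(.s k19 k35 3 (.s k119 k187 9 (.s k103 k71 3 (.d k155 k223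
  k207 9 13)))), (.s k17 k34 4 (.s k33 k49 3 (.s k18 k48 4 (.d k19 k16 k35 0 3))))] (.c k19 (.q k23
  [(.s k63 k43 5 (.s k127 k191 7 (.s k107 k67 5 (.d k151 k215 k195 7 13)))), (.s k151 k215 7 (.s
  k119 k187 9 (.s k103 k71 3 (.s k55 k199 11 (.s k7 k39 3 (.d k247 k183 k167 7 11)))))), (.s k63 k43
  5 (.s k21 k42 6 (.s k41 k61 5 (.d k22 k60 k20 6 0))))] (.c k30 (.q k60 [(.s k20 k40 5 (.d k22 k21
  k41 0 6)), (.s k63 k43 5 (.s k151 k215 7 (.s k107 k195 13 (.d k127 k67 k191 5 7))))] (.c k20 (.l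
  (.s k41 k22 6 (.s k21 k61 5 (.d k63 k42 k43 6 5)))) .n)) (.c k60 (.q k30 [(.s k63 k43 5 (.s k127
  k191 7 (.s k107 k67 5 (.d k151 k215 k195 7 13)))), (.s k151 k215 7 (.s k119 k187 9 (.s k103 k71 3
  (.s k55 k199 11 (.s k7 k39 3 (.d k247 k183 k167 7 11)))))), (.s k63 k43 5 (.s k55 k59 1 (.s k7 k39
  3 (.s k247 k167 11 (.d k119 k183 k187 7 9)))))] .n) .n))) (.c k30 (.q k60 [(.s k17 k34 4 (.s k33
  k49 3 (.s k18 k48 4 (.d k19 k16 k35 0 3)))), (.s k40 k20 5 (.s k41 k22 6 (.s k21 k61 5 (.d k42 k43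
  k63 0 6)))), (.s k19 k35 3 (.s k155 k223 9 (.s k103 k207 13 (.d k119 k71 k187 3 9))))] .n) (.c k35
  (.l (.s k17 k34 4 (.s k33 k49 3 (.s k18 k48 4 (.s k19 k16 0 (.s k119 k187 9 (.s k103 k71 3 (.d
  k155 k223 k207 9 13)))))))) (.c k60 (.q k30 [(.s k19 k35 3 (.s k119 k187 9 (.s k103 k71 3 (.d k155
  k223 k207 9 13)))), (.s k17 k34 4 (.s k33 k49 3 (.s k18 k48 4 (.d k19 k16 k35 0 3))))] (.c k19 (.q
  k23 [(.s k63 k43 5 (.s k127 k191 7 (.s k107 k67 5 (.d k151 k215 k195 7 13)))), (.s k151 k215 7 (.s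
  k119 k187 9 (.s k103 k71 3 (.s k55 k199 11 (.s k7 k39 3 (.d k247 k183 k167 7 11)))))), (.s k63 k43
  5 (.s k55 k59 1 (.s k7 k39 3 (.s k247 k167 11 (.d k119 k183 k187 7 9)))))] .n) (.c k35 (.l (.s k17
  k34 4 (.s k33 k49 3 (.s k18 k48 4 (.s k19 k16 0 (.s k119 k187 9 (.s k103 k71 3 (.d k155 k223 k207
  9 13)))))))) .n))) .n)))))))

def t85_46 : T TT 256 :=
  (.f k87 k171 13 (.q k51 [(.s k19 k35 3 (.s k119 k187 9 (.s k103 k71 3 (.d k155 k223 k207 9 13)))),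
  (.s k1 k2 0 (.s k17 k34 4 (.s k33 k49 3 (.s k18 k48 4 (.d k19 k16 k35 0 3)))))] (.c k19 (.q k12
  [(.s k8 k4 1 (.s k17 k34 4 (.s k25 k38 6 (.s k42 k59 4 (.d k21 k29 k63 1 6))))), (.s k2 k1 0 (.s
  k6 k9 2 (.s k14 k10 1 (.s k174 k93 12 (.s k254 k94 11 (.s k86 k170 13 (.d k252 k253 k169 0
  14)))))))] (.c k8 (.l (.s k1 k2 0 (.s k17 k34 4 (.s k49 k33 3 (.s k9 k6 2 (.s k13 k5 1 (.d k25 k38
  k37 6 5))))))) .n)) (.c k35 (.q k103 [(.d k119 k71 k187 3 9), (.s k1 k2 0 (.s k17 k34 4 (.s k33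
  k49 3 (.s k18 k48 4 (.s k19 k16 0 (.d k155 k223 k207 9 13))))))] .n) .n))))

def t85_47 : T TT 256 :=
  (.f k1 k2 0 (.f k87 k171 13 (.q k63 [(.s k23 k43 5 (.s k127 k191 7 (.s k107 k67 5 (.d k151 k215
  k195 7 13)))), (.s k21 k42 6 (.s k41 k61 5 (.s k22 k60 6 (.d k23 k20 k43 0 5))))] (.c k23 (.q k12
  [(.s k29 k46 4 (.s k93 k174 12 (.s k157 k221 7 (.s k110 k204 12 (.d k127 k76 k191 4 7))))), (.s k4
  k8 1 (.s k21 k42 6 (.s k41 k61 5 (.s k6 k9 2 (.s k22 k60 6 (.d k38 k54 k55 3 4))))))] (.c k45 (.l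
  (.s k4 k8 1 (.s k21 k42 6 (.s k38 k55 4 (.s k25 k51 6 (.d k29 k17 k46 1 4)))))) .n)) (.c k43 (.l
  (.s k21 k42 6 (.s k41 k61 5 (.s k22 k60 6 (.s k23 k20 0 (.s k127 k191 7 (.s k107 k67 5 (.d k151
  k215 k195 7 13)))))))) .n)))))

def t85_48 : T TT 256 :=
  (.q k63 [(.s k1 k2 0 (.s k21 k42 6 (.s k41 k61 5 (.s k23 k43 5 (.d k22 k20 k60 0 6))))), (.s k23
  k43 5 (.s k87 k171 13 (.s k151 k215 7 (.s k107 k195 13 (.d k127 k67 k191 5 7)))))] (.c k20 (.l (.s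
  k2 k1 0 (.s k42 k21 6 (.s k22 k62 5 (.s k41 k60 6 (.d k43 k23 k40 5 0)))))) (.c k23 (.f k87 k171
  13 (.q k51 [(.s k19 k35 3 (.s k119 k187 9 (.s k103 k71 3 (.d k155 k223 k207 9 13)))), (.s k17 k34
  4 (.s k21 k42 6 (.s k25 k29 1 (.s k38 k12 6 (.d k55 k59 k4 1 4)))))] (.c k26 (.q k37 [(.s k19 k35
  3 (.s k119 k187 9 (.s k103 k71 3 (.d k155 k223 k207 9 13)))), (.s k1 k2 0 (.s k17 k34 4 (.s k21
  k42 6 (.s k33 k49 3 (.d k41 k45 k61 1 5)))))] .n) (.c k37 (.q k26 [(.s k19 k35 3 (.s k119 k187 9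
  (.s k103 k71 3 (.d k155 k223 k207 9 13)))), (.s k2 k1 0 (.s k34 k17 4 (.s k42 k21 6 (.s k18 k50 3
  (.d k22 k30 k62 1 5)))))] .n) .n)))) (.c k26 (.q k37 [(.s k1 k2 0 (.s k21 k42 6 (.s k41 k61 5 (.s
  k23 k43 5 (.d k22 k20 k60 0 6))))), (.s k23 k43 5 (.s k87 k171 13 (.s k151 k215 7 (.s k107 k195 13
  (.d k127 k67 k191 5 7))))), (.s k1 k2 0 (.s k21 k42 6 (.s k41 k61 5 (.s k5 k53 3 (.s k13 k9 1 (.s
  k49 k25 5 (.d k33 k45 k17 1 3)))))))] .n) (.c k37 (.q k26 [(.s k1 k2 0 (.s k21 k42 6 (.s k41 k61 5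
  (.s k23 k43 5 (.d k22 k20 k60 0 6))))), (.s k23 k43 5 (.s k87 k171 13 (.s k151 k215 7 (.s k107
  k195 13 (.d k127 k67 k191 5 7))))), (.s k2 k1 0 (.s k42 k21 6 (.s k22 k62 5 (.s k10 k58 3 (.s k14
  k6 1 (.s k50 k38 5 (.d k18 k30 k34 1 3)))))))] .n) (.c k43 (.q k51 [(.s k17 k34 4 (.s k21 k42 6
  (.s k25 k29 1 (.s k55 k59 1 (.d k38 k4 k12 4 6))))), (.s k19 k35 3 (.s k87 k171 13 (.s k155 k223 9
  (.s k103 k207 13 (.d k119 k71 k187 3 9)))))] (.c k26 (.q k37 [(.s k42 k21 6 (.s k35 k19 3 (.s k32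
  k47 2 (.d k34 k33 k17 0 4)))), (.s k19 k35 3 (.s k87 k171 13 (.s k155 k223 9 (.s k103 k207 13 (.d
  k119 k71 k187 3 9))))), (.s k1 k2 0 (.s k17 k34 4 (.s k21 k42 6 (.s k33 k49 3 (.d k41 k45 k61 1
  5)))))] .n) (.c k37 (.q k26 [(.s k17 k34 4 (.s k21 k42 6 (.s k16 k31 2 (.d k19 k18 k35 0 3)))),
  (.s k19 k35 3 (.s k87 k171 13 (.s k155 k223 9 (.s k103 k207 13 (.d k119 k71 k187 3 9))))), (.s k2
  k1 0 (.s k34 k17 4 (.s k42 k21 6 (.s k18 k50 3 (.d k22 k30 k62 1 5)))))] .n) .n))) .n))))))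

def t85_49 : T TT 256 :=
  (.f k1 k2 0 (.f k87 k171 13 (.q k63 [(.s k23 k43 5 (.s k127 k191 7 (.s k107 k67 5 (.d k151 k215
  k195 7 13)))), (.s k21 k42 6 (.s k41 k61 5 (.s k22 k60 6 (.d k23 k20 k43 0 5))))] (.c k23 (.q k12
  [(.s k29 k46 4 (.s k93 k174 12 (.s k157 k221 7 (.s k110 k204 12 (.d k127 k76 k191 4 7))))), (.s k4
  k8 1 (.s k21 k42 6 (.s k41 k61 5 (.s k6 k9 2 (.s k22 k60 6 (.d k38 k54 k55 3 4))))))] .n) (.c k43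
  (.l (.s k21 k42 6 (.s k41 k61 5 (.s k22 k60 6 (.s k23 k20 0 (.s k127 k191 7 (.s k107 k67 5 (.d
  k151 k215 k195 7 13)))))))) .n)))))

def t85_50 : T TT 256 :=
  (.q k51 [(.s k19 k35 3 (.s k87 k171 13 (.s k119 k187 9 (.s k103 k71 3 (.d k155 k223 k207 9
  13))))), (.s k1 k2 0 (.s k19 k35 3 (.s k17 k34 4 (.s k18 k16 0 (.d k33 k49 k48 3 4)))))] (.c k19
  (.q k195 [(.s k1 k2 0 (.s k65 k130 8 (.s k129 k193 7 (.s k67 k131 7 (.d k66 k64 k192 0 8))))), (.s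
  k87 k171 13 (.s k99 k147 11 (.s k119 k187 9 (.s k103 k71 3 (.s k107 k111 1 (.s k151 k63 13 (.d
  k215 k235 k23 5 7)))))))] .n) (.c k35 (.q k195 [(.s k1 k2 0 (.s k65 k130 8 (.s k129 k193 7 (.s k67
  k131 7 (.d k66 k64 k192 0 8))))), (.s k87 k171 13 (.s k99 k147 11 (.s k119 k187 9 (.s k103 k71 3
  (.s k107 k111 1 (.s k151 k63 13 (.d k215 k235 k23 5 7)))))))] .n) (.c k223 (.l (.s k35 k19 3 (.s
  k187 k119 9 (.s k171 k87 13 (.s k155 k139 3 (.d k103 k239 k207 9 13)))))) .n))))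

def t85_51 : T TT 256 :=
  (.f k1 k2 0 (.f k87 k171 13 (.q k63 [(.s k23 k43 5 (.s k127 k191 7 (.s k107 k67 5 (.d k151 k215
  k195 7 13)))), (.s k21 k42 6 (.s k41 k61 5 (.s k22 k60 6 (.d k23 k20 k43 0 5))))] (.c k23 (.q k31
  [(.s k127 k191 7 (.s k107 k67 5 (.s k151 k195 13 (.s k91 k211 9 (.s k83 k95 1 (.s k243 k163 11 (.d
  k123 k75 k183 3 9))))))), (.s k21 k42 6 (.s k41 k61 5 (.s k16 k26 2 (.s k48 k32 3 (.s k33 k18 4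
  (.s k37 k45 1 (.d k53 k58 k5 2 3)))))))] (.c k27 (.q k39 [(.s k127 k191 7 (.s k107 k67 5 (.s k151
  k195 13 (.s k91 k211 9 (.s k83 k95 1 (.s k243 k163 11 (.d k123 k75 k183 3 9))))))), (.s k21 k42 6
  (.s k41 k61 5 (.s k16 k26 2 (.s k48 k32 3 (.s k33 k18 4 (.s k37 k45 1 (.d k53 k58 k5 2 3)))))))]
  .n) (.c k39 (.q k27 [(.s k127 k191 7 (.s k107 k67 5 (.s k151 k195 13 (.s k91 k211 9 (.s k155 k219
  7 (.s k223 k19 9 (.d k95 k83 k159 1 7))))))), (.s k21 k42 6 (.s k41 k61 5 (.s k16 k26 2 (.s k48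
  k32 3 (.s k33 k18 4 (.s k37 k45 1 (.d k53 k58 k5 2 3)))))))] (.c k7 (.q k55 [(.s k127 k191 7 (.s
  k107 k67 5 (.s k151 k195 13 (.s k91 k211 9 (.s k155 k219 7 (.s k223 k19 9 (.d k95 k83 k159 1
  7))))))), (.s k21 k42 6 (.s k41 k61 5 (.s k4 k38 4 (.s k12 k8 1 (.s k9 k6 2 (.s k25 k57 3 (.d k29
  k46 k17 4 1)))))))] .n) (.c k55 (.q k7 [(.s k247 k167 11 (.s k243 k251 1 (.s k81 k162 12 (.s k161
  k241 11 (.s k82 k240 12 (.d k83 k163 k80 11 0)))))), (.s k21 k42 6 (.s k41 k61 5 (.s k22 k60 6 (.s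
  k37 k52 4 (.s k16 k26 2 (.s k48 k32 3 (.d k33 k45 k18 1 4)))))))] .n) .n))) .n))) (.c k27 (.q k39
  [(.s k23 k43 5 (.s k127 k191 7 (.s k107 k67 5 (.d k151 k215 k195 7 13)))), (.s k21 k42 6 (.s k41
  k61 5 (.s k22 k60 6 (.d k23 k20 k43 0 5))))] (.c k23 (.q k31 [(.s k127 k191 7 (.s k107 k67 5 (.s
  k151 k195 13 (.s k91 k211 9 (.s k83 k95 1 (.s k243 k163 11 (.d k123 k75 k183 3 9))))))), (.s k21
  k42 6 (.s k41 k61 5 (.s k16 k26 2 (.s k48 k32 3 (.s k33 k18 4 (.s k37 k45 1 (.d k53 k58 k5 2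
  3)))))))] .n) (.c k43 (.l (.s k21 k42 6 (.s k41 k61 5 (.s k22 k60 6 (.s k23 k20 0 (.s k127 k191 7
  (.s k107 k67 5 (.d k151 k215 k195 7 13)))))))) .n))) (.c k39 (.q k27 [(.s k23 k43 5 (.s k127 k191
  7 (.s k107 k67 5 (.d k151 k215 k195 7 13)))), (.s k21 k42 6 (.s k41 k61 5 (.s k22 k60 6 (.d k23
  k20 k43 0 5))))] (.c k23 (.q k7 [(.s k247 k167 11 (.s k243 k251 1 (.s k81 k162 12 (.s k161 k241 11
  (.s k82 k240 12 (.d k83 k163 k80 11 0)))))), (.s k21 k42 6 (.s k41 k61 5 (.s k22 k60 6 (.s k37 k52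
  4 (.s k5 k53 3 (.s k9 k13 1 (.d k6 k12 k4 2 0)))))))] .n) (.c k43 (.l (.s k21 k42 6 (.s k41 k61 5
  (.s k22 k60 6 (.s k23 k20 0 (.s k127 k191 7 (.s k107 k67 5 (.d k151 k215 k195 7 13)))))))) .n)))
  (.c k43 (.l (.s k21 k42 6 (.s k41 k61 5 (.s k22 k60 6 (.s k23 k20 0 (.s k127 k191 7 (.s k107 k67 5
  (.d k151 k215 k195 7 13)))))))) .n)))))))

def t85_52 : T TT 256 :=
  (.f k87 k171 13 (.f k1 k2 0 (.q k51 [(.s k19 k35 3 (.s k119 k187 9 (.s k103 k71 3 (.d k155 k223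
  k207 9 13)))), (.s k17 k34 4 (.s k33 k49 3 (.s k18 k48 4 (.d k19 k16 k35 0 3))))] (.c k19 (.q k23
  [(.s k63 k43 5 (.s k127 k191 7 (.s k107 k67 5 (.d k151 k215 k195 7 13)))), (.s k151 k215 7 (.s
  k119 k187 9 (.s k103 k71 3 (.s k55 k199 11 (.s k7 k39 3 (.d k247 k183 k167 7 11)))))), (.s k63 k43
  5 (.s k21 k42 6 (.s k41 k61 5 (.d k22 k20 k60 0 6))))] .n) (.c k35 (.l (.s k17 k34 4 (.s k33 k49 3
  (.s k18 k48 4 (.s k19 k16 0 (.s k119 k187 9 (.s k103 k71 3 (.d k155 k223 k207 9 13)))))))) .n)))))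

def t85_53 : T TT 256 :=
  (.q k51 [(.s k1 k2 0 (.s k17 k34 4 (.s k33 k49 3 (.s k19 k35 3 (.d k18 k16 k48 0 4))))), (.s k19
  k35 3 (.s k87 k171 13 (.s k155 k223 9 (.s k103 k207 13 (.d k119 k71 k187 3 9)))))] (.c k16 (.l (.s
  k2 k1 0 (.s k34 k17 4 (.s k18 k50 3 (.s k33 k48 4 (.d k35 k19 k32 3 0)))))) (.c k19 (.q k195 [(.s
  k1 k2 0 (.s k65 k130 8 (.s k129 k193 7 (.s k67 k131 7 (.d k66 k64 k192 0 8))))), (.s k87 k171 13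
  (.s k99 k147 11 (.s k119 k187 9 (.s k103 k71 3 (.s k107 k111 1 (.s k151 k63 13 (.d k215 k235 k23 5
  7)))))))] .n) (.c k35 (.q k195 [(.s k1 k2 0 (.s k65 k130 8 (.s k129 k193 7 (.s k67 k131 7 (.d k66
  k64 k192 0 8))))), (.s k87 k171 13 (.s k99 k147 11 (.s k119 k187 9 (.s k103 k71 3 (.s k107 k111 1
  (.s k151 k63 13 (.d k215 k235 k23 5 7)))))))] .n) .n))))

def t85_54 : T TT 256 :=
  (.f k87 k171 13 (.f k1 k2 0 (.q k51 [(.s k19 k35 3 (.s k119 k187 9 (.s k103 k71 3 (.d k155 k223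
  k207 9 13)))), (.s k17 k34 4 (.s k33 k49 3 (.s k18 k48 4 (.d k19 k16 k35 0 3))))] (.c k19 (.q k23
  [(.s k63 k43 5 (.s k127 k191 7 (.s k107 k67 5 (.d k151 k215 k195 7 13)))), (.s k151 k215 7 (.s
  k119 k187 9 (.s k103 k71 3 (.s k55 k199 11 (.s k7 k39 3 (.d k247 k183 k167 7 11)))))), (.s k63 k43
  5 (.s k21 k42 6 (.s k41 k61 5 (.d k22 k20 k60 0 6))))] .n) (.c k35 (.l (.s k17 k34 4 (.s k33 k49 3
  (.s k18 k48 4 (.s k19 k16 0 (.s k119 k187 9 (.s k103 k71 3 (.d k155 k223 k207 9 13)))))))) .n)))))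

def t85_55 : T TT 256 :=
  (.f k87 k171 13 (.f k1 k2 0 (.q k51 [(.s k19 k35 3 (.s k119 k187 9 (.s k103 k71 3 (.d k155 k223
  k207 9 13)))), (.s k17 k34 4 (.s k33 k49 3 (.s k18 k48 4 (.d k19 k16 k35 0 3))))] (.c k19 (.q k107
  [(.s k127 k67 5 (.s k63 k191 7 (.s k23 k43 5 (.d k151 k215 k195 7 13)))), (.s k119 k187 9 (.s k67
  k127 5 (.s k103 k71 3 (.s k99 k111 1 (.d k195 k131 k147 7 11))))), (.s k119 k187 9 (.s k103 k71 3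
  (.s k99 k111 1 (.s k195 k147 11 (.s k151 k63 13 (.d k215 k235 k23 5 7))))))] (.c k195 (.l (.s k119
  k187 9 (.s k127 k67 5 (.s k63 k191 7 (.s k103 k71 3 (.s k111 k99 1 (.d k207 k155 k159 13 11)))))))
  .n)) (.c k35 (.l (.s k17 k34 4 (.s k33 k49 3 (.s k18 k48 4 (.s k19 k16 0 (.s k119 k187 9 (.s k103
  k71 3 (.d k155 k223 k207 9 13)))))))) .n)))))

def t85_56 : T TT 256 :=
  (.f k87 k171 13 (.f k1 k2 0 (.q k51 [(.s k19 k35 3 (.s k119 k187 9 (.s k103 k71 3 (.d k155 k223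
  k207 9 13)))), (.s k17 k34 4 (.s k33 k49 3 (.s k18 k48 4 (.d k19 k16 k35 0 3))))] (.c k19 (.q k107
  [(.s k127 k67 5 (.s k63 k191 7 (.s k23 k43 5 (.d k151 k215 k195 7 13)))), (.s k119 k187 9 (.s k67
  k127 5 (.s k103 k71 3 (.s k99 k111 1 (.d k195 k131 k147 7 11))))), (.s k119 k187 9 (.s k103 k71 3
  (.s k99 k111 1 (.s k195 k147 11 (.s k151 k63 13 (.d k215 k235 k23 5 7))))))] (.c k195 (.l (.s k119
  k187 9 (.s k127 k67 5 (.s k63 k191 7 (.s k55 k59 1 (.s k183 k247 7 (.d k123 k115 k243 1 9)))))))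
  .n)) (.c k35 (.l (.s k17 k34 4 (.s k33 k49 3 (.s k18 k48 4 (.s k19 k16 0 (.s k119 k187 9 (.s k103
  k71 3 (.d k155 k223 k207 9 13)))))))) .n)))))

def t85_57 : T TT 256 :=
  (.q k51 [(.s k1 k2 0 (.s k17 k34 4 (.s k33 k49 3 (.s k19 k35 3 (.d k18 k16 k48 0 4))))), (.s k19
  k35 3 (.s k87 k171 13 (.s k155 k223 9 (.s k103 k207 13 (.d k119 k71 k187 3 9)))))] (.c k16 (.l (.s
  k2 k1 0 (.s k34 k17 4 (.s k18 k50 3 (.s k33 k48 4 (.d k35 k19 k32 3 0)))))) (.c k19 (.q k195 [(.s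
  k1 k2 0 (.s k65 k130 8 (.s k129 k193 7 (.s k67 k131 7 (.d k66 k64 k192 0 8))))), (.s k87 k171 13
  (.s k99 k147 11 (.s k119 k187 9 (.s k103 k71 3 (.s k107 k111 1 (.s k151 k63 13 (.d k215 k235 k23 5
  7)))))))] .n) (.c k35 (.q k195 [(.s k1 k2 0 (.s k65 k130 8 (.s k129 k193 7 (.s k67 k131 7 (.d k66
  k64 k192 0 8))))), (.s k87 k171 13 (.s k99 k147 11 (.s k119 k187 9 (.s k103 k71 3 (.s k107 k111 1
  (.s k151 k63 13 (.d k215 k235 k23 5 7)))))))] .n) .n))))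

def t85_58 : T TT 256 :=
  (.f k1 k2 0 (.f k87 k171 13 (.q k63 [(.s k23 k43 5 (.s k127 k191 7 (.s k107 k67 5 (.d k151 k215
  k195 7 13)))), (.s k21 k42 6 (.s k41 k61 5 (.s k22 k60 6 (.d k23 k20 k43 0 5))))] (.c k23 (.q k7
  [(.s k247 k167 11 (.s k243 k251 1 (.s k81 k162 12 (.s k161 k241 11 (.s k82 k240 12 (.d k83 k163
  k80 11 0)))))), (.s k21 k42 6 (.s k41 k61 5 (.s k22 k60 6 (.s k37 k52 4 (.s k5 k53 3 (.s k9 k13 1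
  (.d k6 k12 k4 2 0)))))))] .n) (.c k43 (.l (.s k21 k42 6 (.s k41 k61 5 (.s k22 k60 6 (.s k23 k20 0
  (.s k127 k191 7 (.s k107 k67 5 (.d k151 k215 k195 7 13)))))))) .n)))))

def t85_59 : T TT 256 :=
  (.f k87 k171 13 (.f k1 k2 0 (.q k51 [(.s k17 k34 4 (.s k33 k49 3 (.s k18 k48 4 (.d k19 k16 k35 0
  3)))), (.s k19 k35 3 (.s k119 k187 9 (.s k103 k71 3 (.d k155 k223 k207 9 13))))] (.c k19 (.q k107
  [(.s k67 k127 5 (.s k195 k131 7 (.s k215 k235 5 (.d k151 k23 k63 7 13)))), (.s k119 k187 9 (.s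
  k103 k71 3 (.s k99 k111 1 (.s k195 k147 11 (.s k151 k63 13 (.d k215 k235 k23 5 7)))))), (.s k119
  k187 9 (.s k67 k127 5 (.s k103 k71 3 (.s k99 k111 1 (.d k195 k131 k147 7 11)))))] (.c k195 (.l (.s
  k119 k187 9 (.s k127 k67 5 (.s k63 k191 7 (.s k103 k71 3 (.s k111 k99 1 (.d k207 k155 k159 13
  11))))))) .n)) (.c k35 (.l (.s k17 k34 4 (.s k33 k49 3 (.s k18 k48 4 (.s k19 k16 0 (.s k119 k187 9
  (.s k103 k71 3 (.d k155 k223 k207 9 13)))))))) .n)))))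

def t85_60 : T TT 256 :=
  (.f k1 k2 0 (.q k19 [(.s k51 k35 3 (.s k17 k34 4 (.s k33 k49 3 (.d k18 k16 k48 0 4)))), (.s k87
  k171 13 (.s k223 k155 9 (.s k207 k239 3 (.s k69 k138 10 (.s k137 k205 9 (.s k70 k204 10 (.d k71
  k139 k68 9 0)))))))] (.c k30 (.q k45 [(.s k51 k35 3 (.s k17 k34 4 (.s k33 k49 3 (.d k18 k16 k48 0
  4)))), (.s k87 k171 13 (.s k223 k155 9 (.s k207 k239 3 (.s k69 k138 10 (.s k137 k205 9 (.s k70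
  k204 10 (.d k71 k139 k68 9 0)))))))] (.c k35 (.q k63 [(.s k43 k23 5 (.s k171 k87 13 (.s k107 k235
  7 (.s k151 k195 13 (.d k191 k131 k127 5 7))))), (.s k21 k42 6 (.s k41 k61 5 (.s k33 k37 1 (.s k17
  k49 3 (.d k18 k48 k16 4 0)))))] .n) .n)) (.c k35 (.q k215 [(.s k87 k171 13 (.s k151 k23 7 (.s k195
  k235 5 (.s k67 k131 7 (.d k107 k127 k63 5 13))))), (.s k195 k235 5 (.s k65 k130 8 (.s k129 k193 7
  (.s k66 k192 8 (.d k67 k64 k131 0 7))))), (.s k87 k171 13 (.s k223 k155 9 (.s k151 k23 7 (.s k211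
  k219 1 (.s k83 k147 7 (.d k91 k95 k31 1 9))))))] (.c k30 (.q k45 [(.s k87 k171 13 (.s k151 k23 7
  (.s k195 k235 5 (.s k67 k131 7 (.d k107 k127 k63 5 13))))), (.s k195 k235 5 (.s k65 k130 8 (.s
  k129 k193 7 (.s k66 k192 8 (.d k67 k64 k131 0 7))))), (.s k87 k171 13 (.s k223 k155 9 (.s k151 k23
  7 (.s k211 k219 1 (.s k83 k147 7 (.d k91 k95 k31 1 9))))))] .n) (.c k45 (.q k30 [(.s k87 k171 13
  (.s k151 k23 7 (.s k195 k235 5 (.s k67 k131 7 (.d k107 k127 k63 5 13))))), (.s k195 k235 5 (.s k65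
  k130 8 (.s k129 k193 7 (.s k66 k192 8 (.d k67 k64 k131 0 7))))), (.s k87 k171 13 (.s k223 k155 9
  (.s k151 k23 7 (.s k211 k219 1 (.s k83 k147 7 (.d k91 k95 k31 1 9))))))] .n) .n))) (.c k45 (.q k30
  [(.s k51 k35 3 (.s k17 k34 4 (.s k33 k49 3 (.d k18 k16 k48 0 4)))), (.s k87 k171 13 (.s k223 k155
  9 (.s k207 k239 3 (.s k69 k138 10 (.s k137 k205 9 (.s k70 k204 10 (.d k71 k139 k68 9 0)))))))] (.c
  k35 (.q k31 [(.s k23 k27 1 (.s k28 k29 0 (.s k22 k25 2 (.s k26 k18 1 (.d k21 k20 k16 0 2))))), (.s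
  k87 k171 13 (.s k23 k27 1 (.s k63 k43 5 (.s k223 k155 9 (.s k159 k95 7 (.d k207 k239 k111 3
  11)))))), (.s k28 k29 0 (.s k22 k25 2 (.s k18 k26 1 (.s k48 k33 4 (.d k16 k17 k32 0 3)))))] (.c
  k27 (.l (.s k28 k29 0 (.s k22 k25 2 (.s k26 k18 1 (.s k21 k16 2 (.s k63 k42 6 (.d k23 k20 k43 0
  5))))))) .n)) .n)) .n)))))

def t85_61 : T TT 256 :=
  (.f k87 k171 13 (.f k1 k2 0 (.q k51 [(.s k19 k35 3 (.s k119 k187 9 (.s k103 k71 3 (.d k155 k223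
  k207 9 13)))), (.s k17 k34 4 (.s k33 k49 3 (.s k18 k48 4 (.d k19 k16 k35 0 3))))] (.c k19 (.q k107
  [(.s k127 k67 5 (.s k63 k191 7 (.s k23 k43 5 (.d k151 k215 k195 7 13)))), (.s k119 k187 9 (.s k67
  k127 5 (.s k103 k71 3 (.s k99 k111 1 (.d k195 k131 k147 7 11))))), (.s k119 k187 9 (.s k103 k71 3
  (.s k99 k111 1 (.s k195 k147 11 (.s k151 k63 13 (.d k215 k235 k23 5 7))))))] (.c k195 (.l (.s k119
  k187 9 (.s k127 k67 5 (.s k63 k191 7 (.s k55 k59 1 (.s k183 k247 7 (.d k123 k115 k243 1 9)))))))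
  .n)) (.c k35 (.l (.s k17 k34 4 (.s k33 k49 3 (.s k18 k48 4 (.s k19 k16 0 (.s k119 k187 9 (.s k103
  k71 3 (.d k155 k223 k207 9 13)))))))) .n)))))

def t85_62 : T TT 256 :=
  (.q k51 [(.s k1 k2 0 (.s k17 k34 4 (.s k33 k49 3 (.s k19 k35 3 (.d k18 k16 k48 0 4))))), (.s k19
  k35 3 (.s k87 k171 13 (.s k155 k223 9 (.s k103 k207 13 (.d k119 k71 k187 3 9)))))] (.c k16 (.l (.s
  k2 k1 0 (.s k34 k17 4 (.s k18 k50 3 (.s k33 k48 4 (.d k35 k19 k32 3 0)))))) (.c k19 (.q k195 [(.s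
  k1 k2 0 (.s k65 k130 8 (.s k129 k193 7 (.s k67 k131 7 (.d k66 k64 k192 0 8))))), (.s k87 k171 13
  (.s k99 k147 11 (.s k119 k187 9 (.s k103 k71 3 (.s k107 k111 1 (.s k151 k63 13 (.d k215 k235 k23 5
  7)))))))] .n) (.c k35 (.q k195 [(.s k1 k2 0 (.s k65 k130 8 (.s k129 k193 7 (.s k67 k131 7 (.d k66
  k64 k192 0 8))))), (.s k87 k171 13 (.s k99 k147 11 (.s k119 k187 9 (.s k103 k71 3 (.s k107 k111 1
  (.s k151 k63 13 (.d k215 k235 k23 5 7)))))))] .n) .n))))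

def t85_63 : T TT 256 :=
  (.q k35 [(.s k2 k1 0 (.s k51 k19 3 (.s k34 k17 4 (.s k18 k50 3 (.d k33 k32 k48 0 4))))), (.s k51
  k19 3 (.s k171 k87 13 (.s k103 k239 9 (.s k155 k207 13 (.d k187 k139 k119 3 9)))))] (.c k19 (.q
  k51 [(.s k2 k1 0 (.s k34 k17 4 (.s k18 k50 3 (.d k33 k32 k48 0 4)))), (.s k171 k87 13 (.s k103
  k239 9 (.s k155 k207 13 (.d k187 k139 k119 3 9))))] (.c k31 (.q k47 [(.s k2 k1 0 (.s k34 k17 4 (.s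
  k18 k50 3 (.d k33 k32 k48 0 4)))), (.s k171 k87 13 (.s k103 k239 9 (.s k155 k207 13 (.d k187 k139
  k119 3 9))))] (.c k23 (.q k27 [(.s k2 k1 0 (.s k34 k17 4 (.s k18 k50 3 (.d k33 k32 k48 0 4)))),
  (.s k171 k87 13 (.s k103 k239 9 (.s k155 k207 13 (.d k187 k139 k119 3 9))))] .n) (.c k27 (.q k23
  [(.s k2 k1 0 (.s k34 k17 4 (.s k18 k50 3 (.d k33 k32 k48 0 4)))), (.s k171 k87 13 (.s k103 k239 9
  (.s k155 k207 13 (.d k187 k139 k119 3 9))))] .n) .n))) (.c k47 (.q k31 [(.s k2 k1 0 (.s k34 k17 4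
  (.s k18 k50 3 (.d k33 k32 k48 0 4)))), (.s k171 k87 13 (.s k103 k239 9 (.s k155 k207 13 (.d k187
  k139 k119 3 9))))] .n) .n))) (.c k31 (.q k47 [(.s k2 k1 0 (.s k51 k19 3 (.s k34 k17 4 (.s k18 k50
  3 (.d k33 k32 k48 0 4))))), (.s k171 k87 13 (.s k39 k43 1 (.s k103 k239 9 (.s k167 k231 7 (.s k227
  k107 9 (.d k163 k175 k99 1 7))))))] .n) (.c k47 (.q k31 [(.s k2 k1 0 (.s k51 k19 3 (.s k34 k17 4
  (.s k18 k50 3 (.d k33 k32 k48 0 4))))), (.s k51 k19 3 (.s k171 k87 13 (.s k103 k239 9 (.s k155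
  k207 13 (.d k187 k139 k119 3 9)))))] (.c k19 (.q k51 [(.s k2 k1 0 (.s k34 k17 4 (.s k18 k50 3 (.d
  k33 k32 k48 0 4)))), (.s k171 k87 13 (.s k103 k239 9 (.s k155 k207 13 (.d k187 k139 k119 3 9))))]
  .n) (.c k51 (.f k1 k2 0 (.l (.s k171 k87 13 (.s k239 k103 9 (.s k207 k223 3 (.s k69 k138 10 (.s
  k137 k205 9 (.s k70 k204 10 (.d k71 k68 k139 0 9))))))))) .n))) (.c k51 (.f k1 k2 0 (.l (.s k171
  k87 13 (.s k239 k103 9 (.s k207 k223 3 (.s k69 k138 10 (.s k137 k205 9 (.s k70 k204 10 (.d k71 k68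
  k139 0 9))))))))) .n)))))

def t85_64 : T TT 256 :=
  (.f k1 k2 0 (.f k87 k171 13 (.q k63 [(.s k21 k42 6 (.s k41 k61 5 (.s k22 k60 6 (.d k23 k20 k43 0
  5)))), (.s k23 k43 5 (.s k127 k191 7 (.s k107 k67 5 (.d k151 k215 k195 7 13))))] (.c k23 (.q k19
  [(.s k51 k35 3 (.s k119 k187 9 (.s k103 k71 3 (.d k155 k223 k207 9 13)))), (.s k21 k42 6 (.s k41
  k61 5 (.s k22 k60 6 (.s k25 k28 2 (.s k9 k57 3 (.s k12 k6 2 (.d k29 k17 k46 1 4)))))))] (.c k51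
  (.l (.s k223 k155 9 (.s k207 k239 3 (.s k69 k138 10 (.s k137 k205 9 (.s k70 k204 10 (.d k71 k139
  k68 9 0))))))) (.c k106 (.l (.s k127 k191 7 (.s k51 k35 3 (.s k17 k34 4 (.s k33 k49 3 (.d k18 k16
  k48 0 4)))))) (.c k127 (.q k106 [(.s k42 k21 6 (.s k234 k170 7 (.d k192 k213 k149 6 14))), (.s k51
  k35 3 (.s k17 k34 4 (.s k33 k49 3 (.d k18 k16 k48 0 4))))] .n) .n)))) (.c k43 (.l (.s k21 k42 6
  (.s k41 k61 5 (.s k22 k60 6 (.s k23 k20 0 (.s k127 k191 7 (.s k107 k67 5 (.d k151 k215 k195 7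
  13)))))))) (.c k106 (.l (.s k127 k191 7 (.s k23 k43 5 (.s k151 k215 7 (.d k107 k67 k195 5 13)))))
  (.c k127 (.q k106 [(.s k42 k21 6 (.s k234 k170 7 (.d k192 k213 k149 6 14))), (.s k21 k42 6 (.s k41
  k61 5 (.s k22 k60 6 (.d k23 k20 k43 0 5)))), (.s k23 k43 5 (.s k149 k192 14 (.s k86 k212 8 (.s
  k252 k169 14 (.d k126 k66 k189 5 8)))))] .n) .n)))))))

def t85_65 : T TT 256 :=
  (.q k63 [(.s k1 k2 0 (.s k21 k42 6 (.s k41 k61 5 (.s k23 k43 5 (.d k22 k20 k60 0 6))))), (.s k23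
  k43 5 (.s k87 k171 13 (.s k151 k215 7 (.s k107 k195 13 (.d k127 k67 k191 5 7)))))] (.c k20 (.l (.s
  k2 k1 0 (.s k42 k21 6 (.s k22 k62 5 (.s k41 k60 6 (.d k43 k23 k40 5 0)))))) (.c k23 (.q k105 [(.s
  k1 k2 0 (.s k21 k42 6 (.s k41 k61 5 (.s k171 k87 13 (.s k169 k233 7 (.s k168 k170 0 (.d k252 k84
  k86 13 14))))))), (.s k87 k171 13 (.s k127 k191 7 (.s k67 k107 5 (.s k124 k86 6 (.s k125 k126 0
  (.s k60 k190 8 (.d k195 k131 k150 7 14))))))), (.s k42 k21 6 (.s k87 k171 13 (.s k127 k191 7 (.s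
  k107 k67 5 (.s k106 k104 0 (.s k234 k170 7 (.d k192 k213 k149 6 14))))))), (.s k1 k2 0 (.s k21 k42
  6 (.s k61 k41 5 (.s k149 k193 13 (.s k191 k127 7 (.s k128 k170 6 (.d k192 k64 k106 7 14)))))))]
  (.c k106 (.l (.s k2 k1 0 (.s k87 k171 13 (.s k127 k191 7 (.s k67 k107 5 (.s k86 k124 6 (.s k254
  k170 13 (.d k252 k253 k169 0 14)))))))) .n)) (.c k43 (.q k125 [(.s k1 k2 0 (.s k21 k42 6 (.s k41
  k61 5 (.d k60 k22 k190 6 8)))), (.s k190 k60 8 (.s k127 k191 7 (.s k126 k124 0 (.s k254 k62 7 (.d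
  k252 k253 k189 0 8)))))] (.c k60 (.l (.s k2 k1 0 (.s k42 k21 6 (.s k62 k22 5 (.s k127 k191 7 (.s
  k126 k124 0 (.s k254 k190 7 (.d k252 k253 k189 0 8)))))))) (.c k62 (.l (.s k190 k60 8 (.s k191
  k127 7 (.s k189 k188 0 (.s k253 k61 7 (.d k252 k254 k126 0 8)))))) (.c k190 (.l (.s k1 k2 0 (.s
  k21 k42 6 (.s k127 k191 7 (.s k126 k124 0 (.s k189 k252 8 (.d k61 k41 k253 5 7))))))) .n)))) (.c
  k105 (.q k125 [(.s k1 k2 0 (.s k21 k42 6 (.s k41 k61 5 (.d k60 k22 k190 6 8)))), (.s k23 k43 5 (.s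
  k87 k171 13 (.s k151 k215 7 (.s k127 k191 7 (.d k107 k67 k195 5 13)))))] .n) (.c k125 (.q k105
  [(.s k1 k2 0 (.s k21 k42 6 (.s k41 k61 5 (.s k23 k43 5 (.d k22 k20 k60 0 6))))), (.s k23 k43 5 (.s
  k87 k171 13 (.s k151 k215 7 (.s k107 k195 13 (.d k127 k67 k191 5 7))))), (.s k1 k2 0 (.s k21 k42 6
  (.s k41 k61 5 (.s k171 k87 13 (.s k169 k233 7 (.s k168 k170 0 (.d k252 k84 k86 13 14)))))))] .n)
  .n))))))

def t85_66 : T TT 256 :=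
  (.f k87 k171 13 (.q k19 [(.s k51 k35 3 (.s k119 k187 9 (.s k103 k71 3 (.d k155 k223 k207 9 13)))),
  (.s k1 k2 0 (.s k51 k35 3 (.s k17 k34 4 (.s k33 k49 3 (.d k18 k16 k48 0 4)))))] (.c k35 (.q k63
  [(.s k127 k191 7 (.s k107 k67 5 (.s k151 k195 13 (.d k23 k43 k215 5 7)))), (.s k1 k2 0 (.s k21 k42
  6 (.s k41 k61 5 (.s k22 k60 6 (.d k23 k20 k43 0 5))))), (.s k155 k223 9 (.s k127 k191 7 (.s k107
  k67 5 (.s k59 k203 11 (.s k51 k55 1 (.s k103 k207 13 (.d k119 k71 k187 3 9)))))))] (.c k103 (.q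
  k239 [(.d k223 k207 k155 3 9), (.s k23 k43 5 (.s k151 k215 7 (.s k107 k195 13 (.d k127 k67 k191 5
  7))))] .n) (.c k239 (.q k103 [(.s k71 k119 3 (.s k207 k139 9 (.d k155 k223 k51 9 13))), (.s k23
  k43 5 (.s k151 k215 7 (.s k107 k195 13 (.d k127 k67 k191 5 7))))] .n) .n))) (.c k51 (.l (.s k1 k2
  0 (.s k223 k155 9 (.s k207 k239 3 (.s k69 k138 10 (.s k137 k205 9 (.s k70 k204 10 (.d k71 k139 k68
  9 0)))))))) (.c k103 (.l (.s k1 k2 0 (.s k223 k155 9 (.s k51 k35 3 (.s k239 k207 3 (.s k17 k34 4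
  (.s k33 k49 3 (.d k18 k16 k48 0 4)))))))) (.c k239 (.l (.s k155 k223 9 (.s k51 k35 3 (.s k103 k207
  13 (.d k119 k71 k187 3 9))))) .n))))))

def t85_67 : T TT 256 :=
  (.f k1 k2 0 (.q k19 [(.s k51 k35 3 (.s k17 k34 4 (.s k33 k49 3 (.d k18 k16 k48 0 4)))), (.s k87
  k171 13 (.s k223 k155 9 (.s k207 k239 3 (.s k69 k138 10 (.s k137 k205 9 (.s k70 k204 10 (.d k71
  k139 k68 9 0)))))))] (.c k35 (.q k63 [(.s k21 k42 6 (.s k41 k61 5 (.s k22 k60 6 (.d k23 k20 k43 0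
  5)))), (.s k43 k23 5 (.s k171 k87 13 (.s k107 k235 7 (.s k151 k195 13 (.d k191 k127 k131 7 5))))),
  (.s k21 k42 6 (.s k41 k61 5 (.s k22 k60 6 (.s k25 k28 2 (.s k9 k57 3 (.s k12 k6 2 (.d k29 k17 k46
  1 4)))))))] .n) .n)))

def t85_68 : T TT 256 :=
  (.f k87 k171 13 (.q k51 [(.s k19 k35 3 (.s k155 k223 9 (.s k119 k187 9 (.d k103 k71 k207 3 13)))),
  (.s k1 k2 0 (.s k17 k34 4 (.s k33 k49 3 (.s k18 k48 4 (.d k19 k16 k35 0 3)))))] (.c k16 (.l (.s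
  k19 k35 3 (.s k119 k187 9 (.s k103 k71 3 (.d k155 k223 k207 9 13))))) (.c k19 (.q k63 [(.s k23 k43
  5 (.s k127 k191 7 (.s k107 k67 5 (.d k151 k215 k195 7 13)))), (.s k17 k34 4 (.s k21 k42 6 (.s k25
  k29 1 (.s k38 k12 6 (.d k55 k59 k4 1 4)))))] (.c k102 (.l (.s k119 k187 9 (.s k23 k43 5 (.s k151
  k215 7 (.s k55 k59 1 (.d k103 k71 k199 3 11)))))) (.c k119 (.q k102 [(.s k34 k17 4 (.s k238 k170 9
  (.d k204 k221 k153 4 14))), (.s k23 k43 5 (.s k151 k215 7 (.s k107 k195 13 (.d k127 k67 k191 5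
  7))))] .n) .n))) (.c k35 (.q k103 [(.d k119 k71 k187 3 9), (.s k1 k2 0 (.s k17 k34 4 (.s k33 k49 3
  (.s k18 k48 4 (.s k19 k16 0 (.d k155 k223 k207 9 13))))))] (.c k102 (.l (.d k119 k71 k187 3 9))
  (.c k119 (.q k102 [(.s k34 k17 4 (.s k238 k170 9 (.d k204 k221 k153 4 14))), (.s k1 k2 0 (.s k207
  k155 13 (.s k69 k138 10 (.s k137 k205 9 (.d k204 k70 k153 10 14))))), (.s k207 k155 13 (.s k101
  k100 0 (.s k239 k223 3 (.s k32 k170 10 (.d k48 k16 k154 3 14)))))] .n) .n))) (.c k102 (.l (.s k119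
  k187 9 (.s k19 k35 3 (.s k155 k223 9 (.d k103 k71 k207 3 13))))) (.c k119 (.q k102 [(.s k34 k17 4
  (.s k238 k170 9 (.d k204 k221 k153 4 14))), (.s k1 k2 0 (.s k17 k34 4 (.s k33 k49 3 (.s k18 k48 4
  (.d k19 k16 k35 0 3))))), (.s k19 k35 3 (.s k153 k204 14 (.s k86 k220 10 (.s k252 k169 14 (.d k118
  k70 k185 3 10)))))] .n) .n)))))))

def t85_69 : T TT 256 :=
  (.q k51 [(.s k1 k2 0 (.s k17 k34 4 (.s k33 k49 3 (.s k19 k35 3 (.d k18 k16 k48 0 4))))), (.s k19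
  k35 3 (.s k87 k171 13 (.s k155 k223 9 (.s k103 k207 13 (.d k119 k71 k187 3 9)))))] (.c k16 (.l (.s
  k2 k1 0 (.s k34 k17 4 (.s k18 k50 3 (.s k33 k48 4 (.d k35 k19 k32 3 0)))))) (.c k19 (.q k101 [(.s
  k1 k2 0 (.s k17 k34 4 (.s k33 k49 3 (.s k171 k87 13 (.s k169 k237 9 (.s k168 k170 0 (.d k252 k84
  k86 13 14))))))), (.s k87 k171 13 (.s k119 k187 9 (.s k71 k103 3 (.s k116 k86 4 (.s k117 k118 0
  (.s k48 k186 10 (.d k207 k139 k154 9 14))))))), (.s k34 k17 4 (.s k87 k171 13 (.s k119 k187 9 (.s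
  k103 k71 3 (.s k102 k100 0 (.s k238 k170 9 (.d k204 k221 k153 4 14))))))), (.s k1 k2 0 (.s k17 k34
  4 (.s k49 k33 3 (.s k153 k205 13 (.s k187 k119 9 (.s k136 k170 4 (.d k204 k68 k102 9 14)))))))]
  (.c k102 (.l (.s k2 k1 0 (.s k87 k171 13 (.s k119 k187 9 (.s k71 k103 3 (.s k86 k116 4 (.s k254
  k170 13 (.d k252 k253 k169 0 14)))))))) .n)) (.c k35 (.q k117 [(.s k1 k2 0 (.s k17 k34 4 (.s k33
  k49 3 (.d k48 k18 k186 4 10)))), (.s k186 k48 10 (.s k119 k187 9 (.s k118 k116 0 (.s k254 k50 9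
  (.d k252 k253 k185 0 10)))))] (.c k48 (.l (.s k2 k1 0 (.s k34 k17 4 (.s k50 k18 3 (.s k119 k187 9
  (.s k118 k116 0 (.s k254 k186 9 (.d k252 k253 k185 0 10)))))))) (.c k50 (.l (.s k186 k48 10 (.s
  k187 k119 9 (.s k185 k184 0 (.s k253 k49 9 (.d k252 k254 k118 0 10)))))) (.c k186 (.l (.s k1 k2 0
  (.s k17 k34 4 (.s k119 k187 9 (.s k118 k116 0 (.s k185 k252 10 (.d k49 k33 k253 3 9))))))) .n))))
  (.c k101 (.q k117 [(.s k1 k2 0 (.s k17 k34 4 (.s k33 k49 3 (.d k48 k18 k186 4 10)))), (.s k19 k35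
  3 (.s k87 k171 13 (.s k155 k223 9 (.s k119 k187 9 (.d k103 k71 k207 3 13)))))] .n) (.c k117 (.q
  k101 [(.s k1 k2 0 (.s k17 k34 4 (.s k33 k49 3 (.s k19 k35 3 (.d k18 k16 k48 0 4))))), (.s k19 k35
  3 (.s k87 k171 13 (.s k155 k223 9 (.s k103 k207 13 (.d k119 k71 k187 3 9))))), (.s k1 k2 0 (.s k17
  k34 4 (.s k33 k49 3 (.s k171 k87 13 (.s k169 k237 9 (.s k168 k170 0 (.d k252 k84 k86 13 14)))))))]
  .n) .n))))))

def t85_70 : T TT 256 :=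
  (.f k87 k171 13 (.q k63 [(.s k23 k43 5 (.s k151 k215 7 (.s k127 k191 7 (.d k107 k67 k195 5 13)))),
  (.s k1 k2 0 (.s k21 k42 6 (.s k41 k61 5 (.s k22 k60 6 (.d k23 k20 k43 0 5)))))] (.c k20 (.l (.s
  k23 k43 5 (.s k127 k191 7 (.s k107 k67 5 (.d k151 k215 k195 7 13))))) (.c k23 (.q k19 [(.s k51 k35
  3 (.s k155 k223 9 (.s k119 k187 9 (.d k103 k71 k207 3 13)))), (.s k1 k2 0 (.s k51 k35 3 (.s k17
  k34 4 (.s k33 k49 3 (.d k18 k16 k48 0 4))))), (.s k155 k223 9 (.s k127 k191 7 (.s k107 k67 5 (.s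
  k59 k203 11 (.s k51 k55 1 (.s k103 k207 13 (.d k119 k71 k187 3 9))))))), (.s k223 k155 9 (.s k127
  k191 7 (.s k67 k107 5 (.s k207 k239 3 (.s k111 k159 11 (.s k79 k95 3 (.d k71 k139 k75 9 1)))))))]
  (.c k103 (.l (.s k155 k223 9 (.s k127 k191 7 (.s k107 k67 5 (.s k59 k203 11 (.d k51 k55 k35 1
  3)))))) .n)) (.c k43 (.f k1 k2 0 (.l (.s k21 k42 6 (.s k41 k61 5 (.s k22 k60 6 (.s k23 k20 0 (.s
  k127 k191 7 (.s k107 k67 5 (.d k151 k215 k195 7 13))))))))) .n)))))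

def t85_71 : T TT 256 :=
  (.f k87 k171 13 (.q k63 [(.s k23 k43 5 (.s k151 k215 7 (.s k127 k191 7 (.d k107 k67 k195 5 13)))),
  (.s k1 k2 0 (.s k21 k42 6 (.s k41 k61 5 (.s k22 k60 6 (.d k23 k20 k43 0 5)))))] (.c k20 (.l (.s
  k23 k43 5 (.s k127 k191 7 (.s k107 k67 5 (.d k151 k215 k195 7 13))))) (.c k23 (.q k51 [(.s k1 k2 0
  (.s k17 k34 4 (.s k33 k49 3 (.s k18 k48 4 (.d k19 k16 k35 0 3))))), (.s k17 k34 4 (.s k21 k42 6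
  (.s k25 k29 1 (.s k38 k12 6 (.d k55 k59 k4 1 4))))), (.s k19 k35 3 (.s k155 k223 9 (.s k59 k55 1
  (.s k107 k203 11 (.d k127 k67 k191 5 7)))))] .n) (.c k43 (.q k107 [(.d k127 k67 k191 5 7), (.s k1
  k2 0 (.s k21 k42 6 (.s k41 k61 5 (.s k22 k60 6 (.s k23 k20 0 (.d k151 k215 k195 7 13))))))] .n)
  .n)))))

def t85_72 : T TT 256 :=
  (.f k87 k171 13 (.q k63 [(.s k23 k43 5 (.s k127 k191 7 (.s k107 k67 5 (.d k151 k215 k195 7 13)))),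
  (.s k1 k2 0 (.s k21 k42 6 (.s k41 k61 5 (.s k22 k60 6 (.d k23 k20 k43 0 5)))))] (.c k23 (.q k51
  [(.s k19 k35 3 (.s k119 k187 9 (.s k103 k71 3 (.d k155 k223 k207 9 13)))), (.s k17 k34 4 (.s k21
  k42 6 (.s k25 k29 1 (.s k38 k12 6 (.d k55 k59 k4 1 4)))))] .n) (.c k43 (.q k107 [(.d k127 k67 k191
  5 7), (.s k1 k2 0 (.s k21 k42 6 (.s k41 k61 5 (.s k22 k60 6 (.s k23 k20 0 (.d k151 k215 k195 7
  13))))))] .n) .n))))

def t85_73 : T TT 256 :=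
  (.f k87 k171 13 (.f k1 k2 0 (.q k63 [(.s k21 k42 6 (.s k41 k61 5 (.s k22 k60 6 (.d k23 k20 k43 0
  5)))), (.s k23 k43 5 (.s k127 k191 7 (.s k107 k67 5 (.d k151 k215 k195 7 13))))] (.c k23 (.q k19
  [(.s k51 k35 3 (.s k119 k187 9 (.s k103 k71 3 (.d k155 k223 k207 9 13)))), (.s k21 k42 6 (.s k41
  k61 5 (.s k22 k60 6 (.s k25 k28 2 (.s k9 k57 3 (.s k12 k6 2 (.d k29 k17 k46 1 4)))))))] (.c k51
  (.l (.s k223 k155 9 (.s k207 k239 3 (.s k69 k138 10 (.s k137 k205 9 (.s k70 k204 10 (.d k71 k139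
  k68 9 0))))))) .n)) (.c k43 (.l (.s k21 k42 6 (.s k41 k61 5 (.s k22 k60 6 (.s k23 k20 0 (.s k127
  k191 7 (.s k107 k67 5 (.d k151 k215 k195 7 13)))))))) .n)))))

def t85_74 : T TT 256 :=
  (.f k1 k2 0 (.q k19 [(.s k51 k35 3 (.s k17 k34 4 (.s k33 k49 3 (.d k18 k16 k48 0 4)))), (.s k87
  k171 13 (.s k223 k155 9 (.s k207 k239 3 (.s k69 k138 10 (.s k137 k205 9 (.s k70 k204 10 (.d k71
  k139 k68 9 0)))))))] (.c k35 (.q k192 [(.s k129 k66 8 (.s k65 k193 7 (.s k130 k195 8 (.d k128 k131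
  k64 0 7)))), (.s k87 k171 13 (.s k223 k155 9 (.s k213 k234 6 (.s k208 k218 2 (.s k82 k145 8 (.d
  k240 k224 k161 3 12))))))] .n) (.c k133 (.q k192 [(.s k51 k35 3 (.s k17 k34 4 (.s k33 k49 3 (.d
  k18 k16 k48 0 4)))), (.s k128 k64 7 (.s k129 k66 8 (.s k65 k193 7 (.d k130 k131 k195 0 8))))] .n)
  (.c k192 (.q k133 [(.s k51 k35 3 (.s k17 k34 4 (.s k33 k49 3 (.d k18 k16 k48 0 4)))), (.s k87 k171
  13 (.s k223 k155 9 (.s k207 k239 3 (.s k69 k138 10 (.s k137 k205 9 (.s k70 k204 10 (.d k71 k139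
  k68 9 0)))))))] (.c k35 (.q k63 [(.s k21 k42 6 (.s k41 k61 5 (.s k23 k43 5 (.d k22 k20 k60 0
  6)))), (.s k23 k43 5 (.s k87 k171 13 (.s k127 k191 7 (.s k107 k67 5 (.d k151 k215 k195 7 13))))),
  (.s k21 k42 6 (.s k41 k61 5 (.s k22 k60 6 (.s k25 k28 2 (.s k9 k57 3 (.s k12 k6 2 (.d k29 k17 k46
  1 4)))))))] .n) .n)) .n)))))

def t85_75 : T TT 256 :=
  (.f k87 k171 13 (.q k195 [(.s k67 k131 7 (.s k215 k235 5 (.s k151 k23 7 (.d k107 k127 k63 5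
  13)))), (.s k1 k2 0 (.s k65 k130 8 (.s k129 k193 7 (.s k66 k192 8 (.d k67 k64 k131 0 7)))))] (.c
  k67 (.q k103 [(.s k71 k119 3 (.s k207 k139 9 (.s k223 k239 3 (.d k155 k19 k51 9 13)))), (.s k71
  k119 3 (.s k215 k235 5 (.s k151 k23 7 (.s k199 k55 11 (.s k7 k135 7 (.d k247 k231 k167 3 11)))))),
  (.s k215 k235 5 (.s k151 k23 7 (.s k199 k55 11 (.s k207 k203 1 (.s k155 k51 13 (.d k223 k239 k19 3
  9))))))] (.c k71 (.q k79 [(.s k91 k115 5 (.s k83 k95 1 (.s k243 k163 11 (.s k215 k235 5 (.s k151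
  k23 7 (.d k211 k227 k31 3 9)))))), (.s k215 k235 5 (.s k151 k23 7 (.s k199 k55 11 (.s k207 k203 1
  (.s k155 k51 13 (.d k223 k239 k19 3 9)))))), (.s k1 k2 0 (.s k91 k115 5 (.s k83 k95 1 (.s k243
  k163 11 (.s k81 k162 12 (.s k161 k241 11 (.d k82 k80 k240 0 12)))))))] .n) (.c k79 (.l (.s k71
  k119 3 (.s k207 k139 9 (.s k155 k51 13 (.d k223 k239 k19 3 9))))) .n))) (.c k131 (.q k63 [(.s k23
  k43 5 (.d k151 k107 k215 13 7)), (.s k1 k2 0 (.s k65 k130 8 (.s k129 k193 7 (.s k66 k192 8 (.s k67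
  k64 0 (.d k107 k127 k151 5 13))))))] (.c k107 (.l (.s k1 k2 0 (.s k21 k42 6 (.s k41 k61 5 (.s k22
  k60 6 (.d k23 k20 k43 0 5)))))) (.c k151 (.l (.s k191 k127 7 (.s k1 k2 0 (.s k21 k42 6 (.s k41 k61
  5 (.s k22 k60 6 (.d k23 k20 k43 0 5))))))) (.c k191 (.l (.s k151 k107 13 (.d k23 k43 k215 5 7)))
  .n)))) .n))))

def t85_76 : T TT 256 :=
  (.f k87 k171 13 (.f k1 k2 0 (.q k63 [(.s k21 k42 6 (.s k41 k61 5 (.s k22 k60 6 (.d k23 k20 k43 0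
  5)))), (.s k23 k43 5 (.s k127 k191 7 (.s k107 k67 5 (.d k151 k215 k195 7 13))))] (.c k23 (.q k19
  [(.s k51 k35 3 (.s k119 k187 9 (.s k103 k71 3 (.d k155 k223 k207 9 13)))), (.s k21 k42 6 (.s k41
  k61 5 (.s k22 k60 6 (.s k25 k28 2 (.s k9 k57 3 (.s k12 k6 2 (.d k29 k17 k46 1 4)))))))] (.c k51
  (.l (.s k223 k155 9 (.s k207 k239 3 (.s k69 k138 10 (.s k137 k205 9 (.s k70 k204 10 (.d k71 k139
  k68 9 0))))))) .n)) (.c k43 (.l (.s k21 k42 6 (.s k41 k61 5 (.s k22 k60 6 (.s k23 k20 0 (.s k127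
  k191 7 (.s k107 k67 5 (.d k151 k215 k195 7 13)))))))) .n)))))

def t85_77 : T TT 256 :=
  (.f k87 k171 13 (.f k1 k2 0 (.q k63 [(.s k23 k43 5 (.s k127 k191 7 (.s k107 k67 5 (.d k151 k215
  k195 7 13)))), (.s k21 k42 6 (.s k41 k61 5 (.s k22 k60 6 (.d k23 k20 k43 0 5))))] (.c k23 (.q k19
  [(.s k51 k35 3 (.s k119 k187 9 (.s k103 k71 3 (.d k155 k223 k207 9 13)))), (.s k21 k42 6 (.s k41
  k61 5 (.s k22 k60 6 (.s k25 k28 2 (.s k9 k57 3 (.s k12 k6 2 (.d k29 k17 k46 1 4)))))))] (.c k51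
  (.l (.s k223 k155 9 (.s k207 k239 3 (.s k69 k138 10 (.s k137 k205 9 (.s k70 k204 10 (.d k71 k139
  k68 9 0))))))) .n)) (.c k43 (.l (.s k21 k42 6 (.s k41 k61 5 (.s k22 k60 6 (.s k23 k20 0 (.s k127
  k191 7 (.s k107 k67 5 (.d k151 k215 k195 7 13)))))))) .n)))))

def t85_78 : T TT 256 :=
  (.f k1 k2 0 (.q k23 [(.s k63 k43 5 (.s k21 k42 6 (.s k41 k61 5 (.d k22 k20 k60 0 6)))), (.s k87
  k171 13 (.s k215 k151 7 (.s k195 k235 5 (.s k65 k130 8 (.s k129 k193 7 (.s k66 k192 8 (.d k67 k131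
  k64 7 0)))))))] (.c k43 (.q k51 [(.s k17 k34 4 (.s k33 k49 3 (.s k18 k48 4 (.d k19 k16 k35 0
  3)))), (.s k87 k171 13 (.s k151 k215 7 (.s k119 k187 9 (.s k103 k71 3 (.s k55 k199 11 (.s k247
  k183 7 (.d k7 k39 k167 3 11)))))))] (.c k141 (.q k204 [(.s k17 k34 4 (.s k33 k49 3 (.s k18 k48 4
  (.d k19 k16 k35 0 3)))), (.s k136 k68 9 (.s k137 k70 10 (.s k69 k205 9 (.d k138 k139 k207 0
  10))))] .n) (.c k204 (.q k141 [(.s k17 k34 4 (.s k33 k49 3 (.s k19 k35 3 (.d k18 k16 k48 0 4)))),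
  (.s k87 k171 13 (.s k151 k215 7 (.s k119 k187 9 (.s k103 k71 3 (.s k55 k199 11 (.s k247 k183 7 (.d
  k7 k39 k167 3 11)))))))] (.c k39 (.l (.s k17 k34 4 (.s k33 k49 3 (.s k18 k48 4 (.d k19 k16 k35 0
  3))))) .n)) .n))) (.c k141 (.q k204 [(.s k63 k43 5 (.s k21 k42 6 (.s k41 k61 5 (.d k22 k20 k60 0
  6)))), (.s k136 k68 9 (.s k137 k70 10 (.s k69 k205 9 (.d k138 k139 k207 0 10))))] .n) (.c k204 (.q
  k141 [(.s k63 k43 5 (.s k21 k42 6 (.s k41 k61 5 (.d k22 k20 k60 0 6)))), (.s k87 k171 13 (.s k215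
  k151 7 (.s k195 k235 5 (.s k65 k130 8 (.s k129 k193 7 (.s k66 k192 8 (.d k67 k131 k64 7 0)))))))]
  (.c k43 (.q k51 [(.s k17 k34 4 (.s k33 k49 3 (.s k19 k35 3 (.d k18 k16 k48 0 4)))), (.s k87 k171
  13 (.s k151 k215 7 (.s k119 k187 9 (.s k103 k71 3 (.s k55 k199 11 (.s k247 k183 7 (.d k7 k39 k167
  3 11)))))))] (.c k39 (.l (.s k17 k34 4 (.s k33 k49 3 (.s k18 k48 4 (.d k19 k16 k35 0 3))))) .n))
  .n)) .n)))))

def t85_79 : T TT 256 :=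
  (.f k1 k2 0 (.f k87 k171 13 (.q k207 [(.s k71 k139 9 (.s k223 k239 3 (.s k155 k19 9 (.d k103 k119
  k51 3 13)))), (.s k69 k138 10 (.s k137 k205 9 (.s k70 k204 10 (.d k71 k68 k139 0 9))))] (.c k71
  (.q k67 [(.s k195 k131 7 (.s k215 k235 5 (.s k151 k23 7 (.d k107 k127 k63 5 13)))), (.s k69 k138
  10 (.s k137 k205 9 (.s k70 k204 10 (.s k73 k76 2 (.s k9 k201 7 (.s k12 k6 2 (.d k77 k65 k142 1
  8)))))))] (.c k195 (.l (.s k127 k107 5 (.s k63 k191 7 (.s k21 k42 6 (.s k41 k61 5 (.s k22 k60 6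
  (.d k23 k43 k20 5 0))))))) .n)) (.c k139 (.l (.s k69 k138 10 (.s k137 k205 9 (.s k70 k204 10 (.s
  k71 k68 0 (.s k223 k239 3 (.s k155 k19 9 (.d k103 k119 k51 3 13)))))))) .n)))))

def t85_80 : T TT 256 :=
  (.q k195 [(.s k1 k2 0 (.s k65 k130 8 (.s k129 k193 7 (.s k67 k131 7 (.d k66 k64 k192 0 8))))), (.s
  k67 k131 7 (.s k87 k171 13 (.s k107 k127 5 (.s k151 k63 13 (.d k215 k235 k23 5 7)))))] (.c k64 (.l
  (.s k2 k1 0 (.s k130 k65 8 (.s k66 k194 7 (.s k129 k192 8 (.d k131 k67 k128 7 0)))))) (.c k67 (.q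
  k51 [(.s k1 k2 0 (.s k17 k34 4 (.s k33 k49 3 (.s k19 k35 3 (.d k18 k16 k48 0 4))))), (.s k87 k171
  13 (.s k99 k147 11 (.s k119 k187 9 (.s k103 k71 3 (.s k107 k111 1 (.s k151 k63 13 (.d k215 k235
  k23 5 7)))))))] (.c k90 (.q k95 [(.s k19 k35 3 (.s k147 k99 11 (.s k83 k211 7 (.d k87 k91 k171 1
  13)))), (.s k1 k2 0 (.s k17 k34 4 (.s k65 k130 8 (.s k49 k33 3 (.s k193 k129 7 (.s k97 k145 11 (.d
  k48 k50 k146 0 12)))))))] (.c k35 (.l (.s k87 k171 13 (.s k147 k99 11 (.s k83 k91 1 (.s k211 k19 7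
  (.d k243 k227 k163 3 11)))))) (.c k165 (.q k240 [(.s k19 k35 3 (.s k147 k99 11 (.s k83 k211 7 (.d
  k87 k91 k171 1 13)))), (.s k1 k2 0 (.s k17 k34 4 (.s k33 k49 3 (.s k161 k82 12 (.d k225 k97 k210 7
  4)))))] (.c k5 (.l (.s k245 k250 2 (.s k19 k35 3 (.s k87 k171 13 (.s k147 k99 11 (.d k83 k91 k211
  1 7)))))) (.c k83 (.l (.s k1 k2 0 (.s k17 k34 4 (.s k33 k49 3 (.s k18 k48 4 (.d k19 k16 k35 0
  3)))))) (.c k245 (.q k5 [(.s k19 k35 3 (.s k147 k99 11 (.s k83 k211 7 (.d k87 k91 k171 1 13)))),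
  (.s k1 k2 0 (.s k17 k34 4 (.s k33 k49 3 (.s k161 k82 12 (.d k225 k97 k210 7 4)))))] (.c k83 (.l
  (.s k1 k2 0 (.s k17 k34 4 (.s k33 k49 3 (.s k18 k48 4 (.d k19 k16 k35 0 3)))))) .n)) .n)))) (.c
  k240 (.q k165 [(.s k19 k35 3 (.s k147 k99 11 (.s k83 k211 7 (.d k87 k91 k171 1 13)))), (.s k1 k2 0
  (.s k17 k34 4 (.s k65 k130 8 (.s k49 k33 3 (.s k193 k129 7 (.s k97 k145 11 (.d k48 k50 k146 0
  12)))))))] (.c k35 (.l (.s k87 k171 13 (.s k147 k99 11 (.s k83 k91 1 (.s k211 k19 7 (.d k243 k227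
  k163 3 11)))))) .n)) .n)))) (.c k95 (.q k90 [(.s k1 k2 0 (.s k17 k34 4 (.s k33 k49 3 (.s k19 k35 3
  (.d k18 k16 k48 0 4))))), (.s k87 k171 13 (.s k99 k147 11 (.s k119 k187 9 (.s k103 k71 3 (.s k107
  k111 1 (.s k151 k63 13 (.d k215 k235 k23 5 7)))))))] .n) .n))) (.c k90 (.q k95 [(.s k1 k2 0 (.s
  k65 k130 8 (.s k129 k193 7 (.s k67 k131 7 (.d k66 k64 k192 0 8))))), (.s k87 k171 13 (.s k83 k91 1
  (.s k243 k163 11 (.s k211 k227 3 (.s k215 k235 5 (.s k223 k219 1 (.d k19 k155 k147 9 7)))))))] (.c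
  k165 (.q k240 [(.s k1 k2 0 (.s k65 k130 8 (.s k129 k193 7 (.s k67 k131 7 (.d k66 k64 k192 0
  8))))), (.s k67 k131 7 (.s k82 k161 12 (.s k97 k112 4 (.s k146 k48 12 (.d k210 k225 k18 4 7))))),
  (.s k1 k2 0 (.s k65 k130 8 (.s k161 k82 12 (.s k81 k241 11 (.s k97 k113 3 (.d k225 k210 k33 4
  7))))))] (.c k5 (.l (.s k245 k250 2 (.s k1 k2 0 (.s k65 k130 8 (.s k129 k193 7 (.s k66 k192 8 (.d
  k67 k64 k131 0 7))))))) (.c k245 (.q k5 [(.s k1 k2 0 (.s k65 k130 8 (.s k129 k193 7 (.s k67 k131 7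
  (.d k66 k64 k192 0 8))))), (.s k67 k131 7 (.s k82 k161 12 (.s k97 k112 4 (.s k146 k48 12 (.d k210
  k225 k18 4 7))))), (.s k1 k2 0 (.s k65 k130 8 (.s k161 k82 12 (.s k81 k241 11 (.s k97 k113 3 (.d
  k225 k210 k33 4 7))))))] .n) .n))) (.c k240 (.q k165 [(.s k1 k2 0 (.s k65 k130 8 (.s k129 k193 7
  (.s k67 k131 7 (.d k66 k64 k192 0 8))))), (.s k87 k171 13 (.s k83 k91 1 (.s k243 k163 11 (.s k211
  k227 3 (.s k215 k235 5 (.s k223 k219 1 (.d k19 k155 k147 9 7)))))))] .n) .n))) (.c k95 (.q k90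
  [(.s k1 k2 0 (.s k65 k130 8 (.s k129 k193 7 (.s k67 k131 7 (.d k66 k64 k192 0 8))))), (.s k67 k131
  7 (.s k87 k171 13 (.s k107 k127 5 (.s k151 k63 13 (.d k215 k235 k23 5 7)))))] (.c k64 (.l (.s k2
  k1 0 (.s k130 k65 8 (.s k66 k194 7 (.s k129 k192 8 (.d k131 k67 k128 7 0)))))) (.c k67 (.q k240
  [(.s k2 k1 0 (.s k250 k245 2 (.s k170 k10 11 (.s k86 k254 13 (.d k82 k94 k161 1 12))))), (.s k130
  k65 8 (.s k210 k225 4 (.s k150 k30 9 (.s k170 k190 5 (.d k250 k245 k10 2 11))))), (.s k1 k2 0 (.s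
  k65 k130 8 (.s k193 k129 7 (.s k161 k82 12 (.s k225 k210 4 (.d k241 k81 k209 11 3))))))] .n) (.c
  k131 (.q k240 [(.s k130 k65 8 (.s k210 k225 4 (.s k150 k30 9 (.s k170 k190 5 (.d k250 k245 k10 2
  11))))), (.s k2 k1 0 (.s k82 k161 12 (.s k86 k94 1 (.s k254 k170 13 (.d k252 k253 k169 0 14)))))]
  (.c k170 (.l (.s k1 k2 0 (.s k65 k130 8 (.s k161 k82 12 (.s k81 k241 11 (.s k97 k113 3 (.d k225
  k210 k33 4 7))))))) .n)) .n)))) (.c k131 (.q k51 [(.s k1 k2 0 (.s k17 k34 4 (.s k33 k49 3 (.s k19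
  k35 3 (.d k18 k16 k48 0 4))))), (.s k87 k171 13 (.s k99 k147 11 (.s k119 k187 9 (.s k103 k71 3 (.s
  k107 k111 1 (.s k151 k63 13 (.d k215 k235 k23 5 7)))))))] (.c k90 (.q k95 [(.s k19 k35 3 (.s k147
  k99 11 (.s k83 k211 7 (.d k87 k91 k171 1 13)))), (.s k1 k2 0 (.s k17 k34 4 (.s k33 k49 3 (.s k18
  k48 4 (.d k19 k16 k35 0 3))))), (.s k87 k171 13 (.s k99 k147 11 (.s k83 k91 1 (.s k115 k67 3 (.d
  k243 k179 k163 7 11)))))] (.c k165 (.q k240 [(.s k19 k35 3 (.s k147 k99 11 (.s k83 k211 7 (.d k87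
  k91 k171 1 13)))), (.s k1 k2 0 (.s k17 k34 4 (.s k33 k49 3 (.s k161 k82 12 (.d k225 k210 k97 4
  7)))))] (.c k5 (.l (.s k245 k250 2 (.s k19 k35 3 (.s k87 k171 13 (.s k147 k99 11 (.d k83 k91 k211
  1 7)))))) (.c k83 (.l (.s k1 k2 0 (.s k17 k34 4 (.s k33 k49 3 (.s k18 k48 4 (.d k19 k16 k35 0
  3)))))) (.c k245 (.q k5 [(.s k19 k35 3 (.s k147 k99 11 (.s k83 k211 7 (.d k87 k91 k171 1 13)))),
  (.s k1 k2 0 (.s k17 k34 4 (.s k33 k49 3 (.s k161 k82 12 (.d k225 k210 k97 4 7)))))] (.c k83 (.l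
  (.s k1 k2 0 (.s k17 k34 4 (.s k33 k49 3 (.s k18 k48 4 (.d k19 k16 k35 0 3)))))) .n)) .n)))) (.c
  k240 (.q k165 [(.s k19 k35 3 (.s k147 k99 11 (.s k83 k211 7 (.d k87 k91 k171 1 13)))), (.s k1 k2 0
  (.s k17 k34 4 (.s k33 k49 3 (.s k18 k48 4 (.d k19 k16 k35 0 3))))), (.s k87 k171 13 (.s k99 k147
  11 (.s k83 k91 1 (.s k115 k67 3 (.d k243 k179 k163 7 11)))))] .n) .n))) (.c k95 (.q k90 [(.s k1 k2
  0 (.s k17 k34 4 (.s k33 k49 3 (.s k19 k35 3 (.d k18 k16 k48 0 4))))), (.s k87 k171 13 (.s k99 k147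
  11 (.s k119 k187 9 (.s k103 k71 3 (.s k107 k111 1 (.s k151 k63 13 (.d k215 k235 k23 5 7)))))))]
  .n) .n))) .n))))))

def t85_81 : T TT 256 :=
  (.q k195 [(.s k1 k2 0 (.s k65 k130 8 (.s k129 k193 7 (.s k67 k131 7 (.d k66 k64 k192 0 8))))), (.s
  k67 k131 7 (.s k87 k171 13 (.s k107 k127 5 (.s k151 k63 13 (.d k215 k235 k23 5 7)))))] (.c k64 (.l
  (.s k2 k1 0 (.s k130 k65 8 (.s k66 k194 7 (.s k129 k192 8 (.d k131 k67 k128 7 0)))))) (.c k67 (.q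
  k12 [(.s k8 k4 1 (.s k65 k130 8 (.s k73 k134 10 (.s k138 k203 8 (.d k69 k77 k207 1 10))))), (.s k8
  k4 1 (.s k9 k6 2 (.s k171 k87 13 (.s k11 k10 0 (.s k251 k91 11 (.s k89 k170 12 (.d k243 k247 k166
  1 14))))))), (.s k1 k2 0 (.s k65 k130 8 (.s k193 k129 7 (.s k9 k6 2 (.s k73 k134 10 (.d k13 k5
  k133 1 9))))))] (.c k89 (.l (.s k93 k174 12 (.s k4 k8 1 (.s k130 k65 8 (.s k134 k73 10 (.s k69
  k199 8 (.d k138 k142 k207 1 10))))))) (.c k93 (.q k89 [(.s k8 k4 1 (.s k251 k170 12 (.d k243 k247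
  k166 1 14))), (.s k6 k9 2 (.s k166 k243 14 (.s k86 k246 11 (.s k252 k169 14 (.d k92 k83 k172 2
  11))))), (.s k4 k8 1 (.s k130 k65 8 (.s k134 k73 10 (.s k69 k199 8 (.d k138 k142 k207 1 10)))))]
  .n) .n))) (.c k89 (.q k93 [(.s k1 k2 0 (.s k65 k130 8 (.s k129 k193 7 (.s k67 k131 7 (.d k66 k64
  k192 0 8))))), (.s k65 k130 8 (.s k12 k174 12 (.s k8 k4 1 (.s k73 k134 10 (.s k138 k203 8 (.d k69
  k77 k207 1 10)))))), (.s k67 k131 7 (.s k87 k171 13 (.s k107 k127 5 (.s k151 k63 13 (.d k215 k235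
  k23 5 7)))))] .n) (.c k93 (.q k89 [(.s k1 k2 0 (.s k65 k130 8 (.s k129 k193 7 (.s k67 k131 7 (.d
  k66 k64 k192 0 8))))), (.s k67 k131 7 (.s k87 k171 13 (.s k107 k127 5 (.s k151 k63 13 (.d k215
  k235 k23 5 7)))))] (.c k64 (.l (.s k2 k1 0 (.s k130 k65 8 (.s k66 k194 7 (.s k129 k192 8 (.d k131
  k67 k128 7 0)))))) (.c k67 (.q k63 [(.s k23 k43 5 (.s k87 k171 13 (.d k151 k107 k215 13 7))), (.s
  k1 k2 0 (.s k21 k42 6 (.s k65 k130 8 (.s k61 k41 5 (.s k193 k129 7 (.s k105 k149 13 (.d k60 k62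
  k150 0 14)))))))] (.c k43 (.l (.s k1 k2 0 (.s k21 k42 6 (.s k41 k61 5 (.s k22 k60 6 (.s k87 k171
  13 (.s k23 k20 0 (.d k151 k215 k107 7 13)))))))) .n)) (.c k131 (.q k63 [(.s k23 k43 5 (.s k87 k171
  13 (.d k151 k107 k215 13 7))), (.s k1 k2 0 (.s k21 k42 6 (.s k41 k61 5 (.s k22 k60 6 (.d k23 k20
  k43 0 5))))), (.s k1 k2 0 (.s k65 k130 8 (.s k129 k193 7 (.s k66 k192 8 (.s k87 k171 13 (.s k67
  k64 0 (.d k107 k127 k151 5 13)))))))] .n) .n)))) (.c k131 (.q k12 [(.s k4 k8 1 (.s k134 k73 10 (.s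
  k69 k199 8 (.s k138 k207 10 (.d k130 k142 k65 1 8))))), (.s k8 k4 1 (.s k9 k6 2 (.s k171 k87 13
  (.s k11 k10 0 (.s k251 k91 11 (.s k89 k170 12 (.d k243 k247 k166 1 14))))))), (.s k1 k2 0 (.s k65
  k130 8 (.s k9 k6 2 (.s k73 k134 10 (.s k137 k201 7 (.d k69 k77 k205 1 9))))))] (.c k89 (.l (.s k93
  k174 12 (.s k4 k8 1 (.s k130 k65 8 (.s k134 k73 10 (.s k69 k199 8 (.d k138 k142 k207 1 10)))))))
  (.c k93 (.q k89 [(.s k8 k4 1 (.s k251 k170 12 (.d k243 k247 k166 1 14))), (.s k6 k9 2 (.s k166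
  k243 14 (.s k86 k246 11 (.s k252 k169 14 (.d k92 k83 k172 2 11))))), (.s k4 k8 1 (.s k130 k65 8
  (.s k134 k73 10 (.s k69 k199 8 (.d k138 k142 k207 1 10)))))] .n) .n))) .n))))))

def t85_82 : T TT 256 :=
  (.f k87 k171 13 (.q k67 [(.s k195 k131 7 (.s k215 k235 5 (.s k151 k23 7 (.d k107 k127 k63 5
  13)))), (.s k1 k2 0 (.s k195 k131 7 (.s k65 k130 8 (.s k129 k193 7 (.d k66 k64 k192 0 8)))))] (.c
  k131 (.q k63 [(.d k127 k191 k107 7 5), (.s k1 k2 0 (.s k21 k42 6 (.s k41 k61 5 (.s k22 k60 6 (.d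
  k23 k20 k43 0 5)))))] (.c k151 (.l (.s k191 k127 7 (.s k1 k2 0 (.s k21 k42 6 (.s k41 k61 5 (.s k22
  k60 6 (.d k23 k20 k43 0 5))))))) (.c k191 (.q k151 [(.d k23 k43 k215 5 7), (.d k107 k127 k195 5
  13)] .n) .n))) (.c k151 (.l (.s k1 k2 0 (.s k127 k107 5 (.s k195 k131 7 (.s k191 k63 7 (.s k65
  k130 8 (.s k129 k193 7 (.d k66 k64 k192 0 8)))))))) (.c k191 (.l (.s k107 k127 5 (.s k195 k131 7
  (.s k151 k63 13 (.d k215 k235 k23 5 7))))) (.c k195 (.l (.s k1 k2 0 (.s k127 k107 5 (.s k63 k191 7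
  (.s k21 k42 6 (.s k41 k61 5 (.s k22 k60 6 (.d k23 k43 k20 5 0)))))))) .n))))))

def t85_83 : T TT 256 :=
  (.f k1 k2 0 (.q k23 [(.s k63 k43 5 (.s k21 k42 6 (.s k41 k61 5 (.d k22 k20 k60 0 6)))), (.s k87
  k171 13 (.s k215 k151 7 (.s k195 k235 5 (.s k65 k130 8 (.s k129 k193 7 (.s k66 k192 8 (.d k67 k131
  k64 7 0)))))))] (.c k43 (.q k51 [(.s k17 k34 4 (.s k33 k49 3 (.s k18 k48 4 (.d k19 k16 k35 0
  3)))), (.s k87 k171 13 (.s k151 k215 7 (.s k119 k187 9 (.s k103 k71 3 (.s k55 k199 11 (.s k247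
  k183 7 (.d k7 k39 k167 3 11)))))))] .n) .n)))

def t85_84 : T TT 256 :=
  (.f k87 k171 13 (.q k67 [(.s k195 k131 7 (.s k215 k235 5 (.s k151 k23 7 (.d k107 k127 k63 5
  13)))), (.s k1 k2 0 (.s k195 k131 7 (.s k65 k130 8 (.s k129 k193 7 (.d k66 k64 k192 0 8)))))] (.c
  k131 (.q k63 [(.d k127 k191 k107 7 5), (.s k1 k2 0 (.s k21 k42 6 (.s k41 k61 5 (.s k22 k60 6 (.d
  k23 k20 k43 0 5)))))] (.c k151 (.l (.s k191 k127 7 (.s k1 k2 0 (.s k21 k42 6 (.s k41 k61 5 (.s k22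
  k60 6 (.d k23 k20 k43 0 5))))))) (.c k191 (.q k151 [(.d k23 k43 k215 5 7), (.d k107 k127 k195 5
  13)] .n) .n))) (.c k151 (.l (.s k1 k2 0 (.s k127 k107 5 (.s k195 k131 7 (.s k191 k63 7 (.s k65
  k130 8 (.s k129 k193 7 (.d k66 k64 k192 0 8)))))))) (.c k191 (.l (.s k107 k127 5 (.s k195 k131 7
  (.s k151 k63 13 (.d k215 k235 k23 5 7))))) (.c k195 (.l (.s k1 k2 0 (.s k127 k107 5 (.s k63 k191 7
  (.s k21 k42 6 (.s k41 k61 5 (.s k22 k60 6 (.d k23 k43 k20 5 0)))))))) .n))))))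

def t85_86 : T TT 256 :=
  (.f k87 k171 13 (.q k67 [(.s k195 k131 7 (.s k107 k127 5 (.s k215 k235 5 (.d k151 k23 k63 7
  13)))), (.s k1 k2 0 (.s k195 k131 7 (.s k65 k130 8 (.s k129 k193 7 (.d k66 k64 k192 0 8))))), (.s
  k1 k2 0 (.s k127 k107 5 (.s k63 k191 7 (.s k21 k42 6 (.s k41 k61 5 (.s k22 k60 6 (.d k23 k43 k20 5
  0)))))))] (.c k131 (.q k63 [(.d k127 k191 k107 7 5), (.s k1 k2 0 (.s k21 k42 6 (.s k41 k61 5 (.s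
  k22 k60 6 (.d k23 k20 k43 0 5)))))] (.c k151 (.l (.s k191 k127 7 (.s k1 k2 0 (.s k21 k42 6 (.s k41
  k61 5 (.s k22 k60 6 (.d k23 k20 k43 0 5))))))) (.c k191 (.q k151 [(.d k23 k43 k215 5 7), (.d k107
  k127 k195 5 13)] .n) .n))) (.c k151 (.l (.s k1 k2 0 (.s k127 k107 5 (.s k195 k131 7 (.s k191 k63 7
  (.s k65 k130 8 (.s k129 k193 7 (.d k66 k64 k192 0 8)))))))) (.c k191 (.l (.s k107 k127 5 (.s k195
  k131 7 (.s k151 k63 13 (.d k215 k235 k23 5 7))))) .n)))))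

def t85_87 : T TT 256 :=
  (.q k86 [(.s k2 k1 0 (.s k254 k170 13 (.d k252 k253 k169 0 14)))] (.c k1 (.q k63 [(.s k23 k43 5
  (.s k169 k252 14 (.s k149 k212 8 (.s k129 k189 5 (.d k192 k66 k106 8 14))))), (.s k252 k169 14 (.s
  k253 k254 0 (.s k189 k126 8 (.s k125 k61 7 (.s k190 k60 8 (.d k191 k188 k127 0 7)))))), (.s k23
  k43 5 (.s k149 k212 8 (.s k191 k127 7 (.s k128 k170 6 (.d k192 k64 k106 7 14)))))] (.c k169 (.q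
  k253 [(.s k23 k43 5 (.s k149 k212 8 (.s k106 k192 14 (.s k126 k66 5 (.d k252 k254 k189 0 8))))),
  (.s k252 k254 0 (.s k189 k126 8 (.s k125 k61 7 (.s k190 k60 8 (.d k191 k188 k127 0 7))))), (.s k23
  k43 5 (.s k149 k212 8 (.s k191 k127 7 (.s k128 k170 6 (.d k192 k64 k106 7 14)))))] .n) (.c k253
  (.l (.s k169 k252 14 (.s k23 k43 5 (.s k149 k212 8 (.s k192 k106 14 (.d k129 k189 k66 5 8))))))
  .n))) (.c k2 (.q k63 [(.s k23 k43 5 (.s k149 k212 8 (.s k191 k127 7 (.s k128 k170 6 (.d k192 k64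
  k106 7 14))))), (.s k252 k169 14 (.s k126 k189 8 (.s k127 k191 7 (.s k125 k124 0 (.s k190 k60 8
  (.d k254 k253 k62 0 7)))))), (.s k42 k21 6 (.s k252 k169 14 (.s k126 k189 8 (.s k106 k66 5 (.s
  k234 k170 7 (.d k192 k213 k149 6 14))))))] (.c k149 (.l (.s k252 k169 14 (.s k189 k126 8 (.s k191
  k127 7 (.s k190 k188 0 (.s k125 k60 8 (.d k253 k254 k61 0 7))))))) .n)) (.c k169 (.f k1 k2 0 (.q
  k63 [(.s k21 k42 6 (.s k41 k61 5 (.s k22 k60 6 (.d k23 k20 k43 0 5)))), (.s k23 k43 5 (.s k149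
  k212 8 (.s k191 k127 7 (.s k128 k170 6 (.d k192 k64 k106 7 14)))))] (.c k23 (.q k67 [(.s k195 k131
  7 (.s k65 k130 8 (.s k129 k193 7 (.d k66 k64 k192 0 8)))), (.s k21 k42 6 (.s k41 k61 5 (.s k127
  k191 7 (.s k124 k105 6 (.s k125 k126 0 (.d k60 k22 k190 6 8)))))), (.s k21 k42 6 (.s k41 k61 5 (.s
  k195 k131 7 (.s k105 k124 6 (.d k60 k22 k150 6 14)))))] (.c k151 (.q k215 [(.d k195 k235 k131 5
  7), (.s k21 k42 6 (.s k41 k61 5 (.s k127 k191 7 (.s k124 k105 6 (.s k125 k126 0 (.d k60 k22 k190 6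
  8))))))] (.c k131 (.l (.s k195 k235 5 (.s k65 k130 8 (.s k129 k193 7 (.d k66 k64 k192 0 8)))))
  .n)) (.c k215 (.q k151 [(.d k195 k131 k107 7 13), (.s k21 k42 6 (.s k41 k61 5 (.s k127 k191 7 (.s
  k124 k105 6 (.s k125 k126 0 (.d k60 k22 k190 6 8))))))] (.c k20 (.q k150 [(.d k195 k131 k107 7
  13), (.s k21 k42 6 (.s k41 k61 5 (.d k22 k60 k214 6 7)))] (.c k21 (.l (.s k22 k214 7 (.d k195 k131
  k107 7 13))) (.c k22 (.f k21 k42 6 (.q k62 [(.d k61 k60 k41 0 5), (.d k195 k131 k107 7 13)] .n))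
  .n))) (.c k150 (.q k20 [(.d k195 k131 k107 7 13), (.s k60 k40 5 (.s k21 k42 6 (.d k41 k22 k61 6
  5)))] (.c k131 (.q k188 [(.s k60 k40 5 (.d k124 k105 k252 6 7)), (.s k195 k107 13 (.s k65 k130 8
  (.s k129 k193 7 (.d k66 k64 k192 0 8))))] .n) (.c k188 (.l (.s k131 k195 7 (.d k191 k171 k127 5
  7))) .n))) .n))) .n))) (.c k43 (.q k67 [(.s k195 k131 7 (.s k65 k130 8 (.s k129 k193 7 (.d k66 k64
  k192 0 8)))), (.s k21 k42 6 (.s k41 k61 5 (.s k127 k191 7 (.s k124 k105 6 (.s k125 k126 0 (.d k60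
  k22 k190 6 8)))))), (.s k21 k42 6 (.s k41 k61 5 (.s k195 k131 7 (.s k105 k124 6 (.d k60 k22 k150 6
  14)))))] (.c k106 (.q k232 [(.s k195 k131 7 (.s k65 k130 8 (.s k129 k193 7 (.d k66 k64 k192 0
  8)))), (.s k21 k42 6 (.s k41 k61 5 (.s k127 k191 7 (.s k124 k105 6 (.s k125 k126 0 (.d k60 k22
  k190 6 8)))))), (.s k127 k191 7 (.s k21 k42 6 (.s k41 k61 5 (.s k195 k131 7 (.s k105 k124 6 (.d
  k60 k22 k150 6 14))))))] (.c k64 (.l (.s k127 k191 7 (.s k21 k42 6 (.s k41 k61 5 (.s k195 k131 7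
  (.s k105 k124 6 (.d k60 k22 k150 6 14))))))) (.c k127 (.q k64 [(.s k192 k128 7 (.d k66 k65 k129 0
  8)), (.s k195 k131 7 (.d k65 k66 k130 0 8)), (.s k192 k128 7 (.s k195 k131 7 (.s k234 k213 6 (.d
  k235 k233 k215 0 5))))] .n) .n))) (.c k232 (.q k106 [(.s k66 k126 5 (.d k192 k129 k149 8 14)), (.s
  k42 k21 6 (.s k234 k170 7 (.d k192 k213 k149 6 14))), (.s k195 k131 7 (.s k65 k130 8 (.d k66 k64
  k126 0 5)))] .n) .n))) .n)))) (.c k170 (.q k63 [(.s k1 k2 0 (.s k21 k42 6 (.s k41 k61 5 (.s k23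
  k43 5 (.d k22 k20 k60 0 6))))), (.s k23 k43 5 (.s k169 k252 14 (.s k149 k212 8 (.s k129 k189 5 (.d
  k192 k66 k106 8 14))))), (.s k1 k2 0 (.s k21 k42 6 (.s k252 k169 14 (.s k189 k126 8 (.s k253 k254
  0 (.d k61 k41 k125 5 7))))))] (.c k106 (.l (.s k2 k1 0 (.s k42 k21 6 (.s k22 k62 5 (.s k41 k60 6
  (.d k43 k40 k23 0 5)))))) .n)) (.c k252 (.q k63 [(.s k1 k2 0 (.s k21 k42 6 (.s k41 k61 5 (.s k23
  k43 5 (.d k22 k20 k60 0 6))))), (.s k23 k43 5 (.s k149 k212 8 (.s k191 k127 7 (.s k128 k170 6 (.d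
  k192 k64 k106 7 14))))), (.s k2 k1 0 (.s k42 k21 6 (.s k170 k254 13 (.s k106 k234 7 (.s k149 k192
  14 (.d k191 k128 k127 6 7))))))] (.c k94 (.q k173 [(.s k1 k2 0 (.s k21 k42 6 (.s k41 k61 5 (.s k23
  k43 5 (.d k22 k20 k60 0 6))))), (.s k23 k43 5 (.s k149 k212 8 (.s k191 k127 7 (.s k128 k170 6 (.d
  k192 k64 k106 7 14))))), (.s k2 k1 0 (.s k42 k21 6 (.s k170 k254 13 (.s k106 k234 7 (.s k149 k192
  14 (.d k191 k128 k127 6 7))))))] .n) (.c k173 (.q k94 [(.s k1 k2 0 (.s k21 k42 6 (.s k41 k61 5 (.s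
  k23 k43 5 (.d k22 k20 k60 0 6))))), (.s k23 k43 5 (.s k149 k212 8 (.s k191 k127 7 (.s k128 k170 6
  (.d k192 k64 k106 7 14))))), (.s k2 k1 0 (.s k42 k21 6 (.s k170 k254 13 (.s k106 k234 7 (.s k149
  k192 14 (.d k191 k128 k127 6 7))))))] .n) .n))) (.c k253 (.q k63 [(.s k1 k2 0 (.s k21 k42 6 (.s
  k41 k61 5 (.s k23 k43 5 (.d k22 k20 k60 0 6))))), (.s k169 k252 14 (.s k23 k43 5 (.s k149 k212 8
  (.s k192 k106 14 (.d k129 k189 k66 5 8))))), (.s k1 k2 0 (.s k42 k21 6 (.s k252 k169 14 (.s k126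
  k189 8 (.s k106 k66 5 (.s k234 k170 7 (.d k192 k213 k149 6 14)))))))] (.c k1 (.l (.s k169 k252 14
  (.s k23 k43 5 (.s k149 k212 8 (.s k192 k106 14 (.d k129 k189 k66 5 8)))))) (.c k169 (.l (.s k1 k2
  0 (.s k21 k42 6 (.s k41 k61 5 (.s k22 k60 6 (.d k23 k20 k43 0 5)))))) (.c k189 (.l (.s k1 k2 0 (.s
  k21 k42 6 (.s k23 k43 5 (.s k22 k20 0 (.d k41 k61 k60 5 6)))))) .n)))) (.c k254 (.q k63 [(.s k1 k2
  0 (.s k21 k42 6 (.s k41 k61 5 (.s k23 k43 5 (.d k22 k20 k60 0 6))))), (.s k23 k43 5 (.s k169 k252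
  14 (.s k149 k212 8 (.s k192 k106 14 (.d k129 k189 k66 5 8))))), (.s k42 k21 6 (.s k252 k169 14 (.s
  k126 k189 8 (.s k106 k66 5 (.s k234 k170 7 (.d k192 k213 k149 6 14))))))] .n) .n))))))))

def t85_88 : T TT 256 :=
  (.f k1 k2 0 (.q k23 [(.s k63 k43 5 (.s k21 k42 6 (.s k41 k61 5 (.d k22 k20 k60 0 6)))), (.s k87
  k171 13 (.s k215 k151 7 (.s k195 k235 5 (.s k65 k130 8 (.s k129 k193 7 (.s k66 k192 8 (.d k67 k131
  k64 7 0)))))))] (.c k43 (.q k51 [(.s k17 k34 4 (.s k33 k49 3 (.s k18 k48 4 (.d k19 k16 k35 0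
  3)))), (.s k87 k171 13 (.s k151 k215 7 (.s k119 k187 9 (.s k103 k71 3 (.s k55 k199 11 (.s k247
  k183 7 (.d k7 k39 k167 3 11)))))))] .n) .n)))

def t85_89 : T TT 256 :=
  (.f k1 k2 0 (.f k87 k171 13 (.q k51 [(.s k19 k35 3 (.s k119 k187 9 (.s k103 k71 3 (.d k155 k223
  k207 9 13)))), (.s k17 k34 4 (.s k33 k49 3 (.s k18 k48 4 (.d k19 k16 k35 0 3))))] (.c k19 (.q k81
  [(.s k243 k162 12 (.s k161 k241 11 (.s k82 k240 12 (.d k83 k80 k163 0 11)))), (.s k17 k34 4 (.s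
  k162 k243 12 (.s k145 k209 7 (.s k192 k98 12 (.d k128 k179 k64 4 7))))), (.s k17 k34 4 (.s k161
  k241 11 (.s k145 k209 7 (.s k129 k177 3 (.d k192 k66 k98 8 12)))))] .n) (.c k35 (.l (.s k17 k34 4
  (.s k33 k49 3 (.s k18 k48 4 (.s k19 k16 0 (.s k119 k187 9 (.s k103 k71 3 (.d k155 k223 k207 9
  13)))))))) (.c k81 (.q k93 [(.s k19 k35 3 (.s k119 k187 9 (.s k103 k71 3 (.d k155 k223 k207 9
  13)))), (.s k17 k34 4 (.s k12 k174 12 (.s k8 k4 1 (.s k25 k38 6 (.s k42 k59 4 (.d k21 k29 k63 1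
  6))))))] .n) (.c k93 (.q k81 [(.s k17 k34 4 (.s k33 k49 3 (.s k18 k48 4 (.d k19 k16 k35 0 3)))),
  (.s k162 k243 12 (.s k161 k241 11 (.s k240 k82 12 (.d k160 k163 k80 0 11))))] .n) .n)))))))

def t85_90 : T TT 256 :=
  (.f k1 k2 0 (.q k51 [(.s k17 k34 4 (.s k33 k49 3 (.s k19 k35 3 (.d k18 k16 k48 0 4)))), (.s k19
  k35 3 (.s k87 k171 13 (.s k119 k187 9 (.s k103 k71 3 (.d k155 k223 k207 9 13)))))] (.c k19 (.f k87
  k171 13 (.q k240 [(.s k161 k82 12 (.s k81 k241 11 (.s k162 k243 12 (.d k160 k80 k163 11 0)))), (.s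
  k17 k34 4 (.s k49 k33 3 (.s k177 k114 8 (.s k241 k113 7 (.d k161 k81 k82 11 12))))), (.s k34 k17 4
  (.s k161 k82 12 (.s k177 k114 8 (.s k145 k129 3 (.s k98 k192 12 (.s k162 k226 7 (.d k160 k80 k163
  11 0)))))))] (.c k80 (.q k95 [(.s k83 k91 1 (.s k243 k163 11 (.s k81 k162 12 (.d k161 k82 k241 12
  11)))), (.s k17 k34 4 (.s k49 k33 3 (.s k177 k114 8 (.s k241 k113 7 (.d k161 k81 k82 11 12))))),
  (.s k119 k187 9 (.s k83 k91 1 (.s k243 k163 11 (.s k115 k179 7 (.s k67 k99 3 (.d k127 k123 k107 1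
  5))))))] .n) (.c k82 (.l (.s k17 k34 4 (.s k49 k33 3 (.s k177 k114 8 (.s k241 k113 7 (.s k81 k161
  11 (.d k243 k242 k162 0 12))))))) (.c k95 (.l (.s k80 k160 11 (.s k17 k34 4 (.s k49 k33 3 (.s k161
  k82 12 (.s k241 k81 11 (.d k177 k113 k114 7 8))))))) (.c k161 (.q k81 [(.s k80 k160 11 (.s k83 k82
  0 (.d k243 k163 k162 11 12))), (.s k17 k34 4 (.s k49 k33 3 (.s k145 k209 7 (.s k97 k193 11 (.s
  k177 k114 8 (.d k113 k241 k65 7 3))))))] (.c k80 (.q k95 [(.s k243 k162 12 (.d k83 k163 k91 11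
  1)), (.s k17 k34 4 (.s k49 k33 3 (.s k145 k209 7 (.s k97 k193 11 (.s k177 k114 8 (.d k113 k241 k65
  7 3))))))] .n) (.c k95 (.l (.s k80 k160 11 (.s k83 k82 0 (.d k243 k163 k162 11 12)))) (.c k145 (.l
  (.s k17 k34 4 (.s k243 k162 12 (.s k49 k33 3 (.s k177 k114 8 (.d k241 k242 k113 0 7)))))) .n))))
  .n)))))) (.c k35 (.f k87 k171 13 (.l (.s k17 k34 4 (.s k33 k49 3 (.s k18 k48 4 (.s k19 k16 0 (.s
  k119 k187 9 (.s k103 k71 3 (.d k155 k223 k207 9 13))))))))) (.c k80 (.q k95 [(.s k17 k34 4 (.s k33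
  k49 3 (.s k19 k35 3 (.d k18 k16 k48 0 4)))), (.s k87 k171 13 (.s k119 k187 9 (.s k83 k91 1 (.s
  k243 k163 11 (.s k115 k179 7 (.s k127 k123 1 (.d k67 k107 k99 5 3)))))))] (.c k165 (.q k240 [(.s
  k17 k34 4 (.s k33 k49 3 (.s k19 k35 3 (.d k18 k16 k48 0 4)))), (.s k19 k35 3 (.s k82 k161 12 (.s
  k145 k208 8 (.s k98 k192 12 (.d k114 k66 k177 3 8))))), (.s k17 k34 4 (.s k161 k82 12 (.s k81 k241
  11 (.s k145 k209 7 (.d k177 k129 k114 3 8)))))] (.c k5 (.l (.s k245 k250 2 (.s k17 k34 4 (.s k33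
  k49 3 (.s k18 k48 4 (.d k19 k16 k35 0 3)))))) (.c k245 (.q k5 [(.s k17 k34 4 (.s k33 k49 3 (.s k19
  k35 3 (.d k18 k16 k48 0 4)))), (.s k19 k35 3 (.s k82 k161 12 (.s k145 k208 8 (.s k98 k192 12 (.d
  k114 k66 k177 3 8))))), (.s k17 k34 4 (.s k161 k82 12 (.s k81 k241 11 (.s k145 k209 7 (.d k177
  k129 k114 3 8)))))] .n) .n))) (.c k240 (.q k165 [(.s k17 k34 4 (.s k33 k49 3 (.s k19 k35 3 (.d k18
  k16 k48 0 4)))), (.s k87 k171 13 (.s k119 k187 9 (.s k83 k91 1 (.s k243 k163 11 (.s k115 k179 7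
  (.s k127 k123 1 (.d k67 k107 k99 5 3)))))))] .n) .n))) (.c k95 (.q k80 [(.s k17 k34 4 (.s k33 k49
  3 (.s k19 k35 3 (.d k18 k16 k48 0 4)))), (.s k19 k35 3 (.s k87 k171 13 (.s k119 k187 9 (.s k103
  k71 3 (.d k155 k223 k207 9 13))))), (.s k17 k34 4 (.s k240 k160 11 (.s k161 k82 12 (.s k81 k241 11
  (.s k145 k209 7 (.d k177 k129 k114 3 8))))))] (.c k165 (.l (.s k240 k160 11 (.s k17 k34 4 (.s k33
  k49 3 (.s k18 k48 4 (.d k19 k16 k35 0 3)))))) (.c k240 (.q k165 [(.s k17 k34 4 (.s k33 k49 3 (.s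
  k19 k35 3 (.d k18 k16 k48 0 4)))), (.s k19 k35 3 (.s k87 k171 13 (.s k119 k187 9 (.s k103 k71 3
  (.d k155 k223 k207 9 13)))))] (.c k19 (.q k81 [(.s k243 k162 12 (.d k83 k82 k163 0 11)), (.s k17
  k34 4 (.s k161 k241 11 (.s k145 k209 7 (.s k129 k177 3 (.d k192 k66 k98 8 12))))), (.s k17 k34 4
  (.s k145 k209 7 (.s k192 k98 12 (.s k129 k66 8 (.d k161 k177 k241 3 11)))))] .n) (.c k35 (.q k81
  [(.s k243 k162 12 (.d k83 k82 k163 0 11)), (.s k17 k34 4 (.s k161 k241 11 (.s k145 k209 7 (.s k129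
  k177 3 (.d k192 k66 k98 8 12))))), (.s k17 k34 4 (.s k145 k209 7 (.s k192 k98 12 (.s k129 k66 8
  (.d k161 k177 k241 3 11)))))] .n) .n))) .n))) (.c k165 (.q k240 [(.s k17 k34 4 (.s k33 k49 3 (.s
  k19 k35 3 (.d k18 k16 k48 0 4)))), (.s k161 k82 12 (.s k81 k241 11 (.s k162 k243 12 (.d k160 k80
  k163 11 0))))] (.c k5 (.l (.s k245 k250 2 (.s k17 k34 4 (.s k33 k49 3 (.s k18 k48 4 (.d k19 k16
  k35 0 3)))))) (.c k80 (.q k95 [(.s k17 k34 4 (.s k33 k49 3 (.s k19 k35 3 (.d k18 k16 k48 0 4)))),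
  (.s k19 k35 3 (.s k82 k161 12 (.s k145 k208 8 (.s k98 k192 12 (.d k114 k66 k177 3 8))))), (.s k17
  k34 4 (.s k161 k82 12 (.s k81 k241 11 (.s k145 k209 7 (.d k177 k129 k114 3 8)))))] (.c k5 (.l (.s
  k245 k250 2 (.s k17 k34 4 (.s k33 k49 3 (.s k18 k48 4 (.d k19 k16 k35 0 3)))))) (.c k245 (.q k5
  [(.s k17 k34 4 (.s k33 k49 3 (.s k19 k35 3 (.d k18 k16 k48 0 4)))), (.s k19 k35 3 (.s k82 k161 12
  (.s k145 k208 8 (.s k98 k192 12 (.d k114 k66 k177 3 8))))), (.s k17 k34 4 (.s k161 k82 12 (.s k81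
  k241 11 (.s k145 k209 7 (.d k177 k129 k114 3 8)))))] .n) .n))) (.c k95 (.l (.s k80 k160 11 (.s k17
  k34 4 (.s k33 k49 3 (.s k18 k48 4 (.d k19 k16 k35 0 3)))))) (.c k245 (.q k5 [(.s k17 k34 4 (.s k33
  k49 3 (.s k19 k35 3 (.d k18 k16 k48 0 4)))), (.s k161 k82 12 (.s k81 k241 11 (.s k162 k243 12 (.d
  k160 k80 k163 11 0))))] (.c k80 (.q k95 [(.s k17 k34 4 (.s k33 k49 3 (.s k19 k35 3 (.d k18 k16 k48
  0 4)))), (.s k19 k35 3 (.s k82 k161 12 (.s k145 k208 8 (.s k98 k192 12 (.d k114 k66 k177 3 8))))),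
  (.s k17 k34 4 (.s k161 k82 12 (.s k81 k241 11 (.s k145 k209 7 (.d k177 k129 k114 3 8)))))] .n) (.c
  k95 (.l (.s k80 k160 11 (.s k17 k34 4 (.s k33 k49 3 (.s k18 k48 4 (.d k19 k16 k35 0 3)))))) .n)))
  .n))))) (.c k240 (.q k165 [(.s k17 k34 4 (.s k33 k49 3 (.s k19 k35 3 (.d k18 k16 k48 0 4)))), (.s
  k19 k35 3 (.s k87 k171 13 (.s k119 k187 9 (.s k103 k71 3 (.d k155 k223 k207 9 13)))))] (.c k19 (.f
  k87 k171 13 (.q k81 [(.s k17 k34 4 (.s k162 k243 12 (.s k145 k209 7 (.s k192 k98 12 (.d k128 k179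
  k64 4 7))))), (.s k243 k162 12 (.s k161 k241 11 (.s k169 k173 1 (.s k247 k251 1 (.s k7 k167 11 (.d
  k86 k252 k244 14 12)))))), (.s k17 k34 4 (.s k145 k209 7 (.s k98 k192 12 (.s k115 k64 4 (.d k243
  k179 k162 7 12)))))] (.c k80 (.q k95 [(.s k243 k162 12 (.d k83 k91 k163 1 11)), (.s k17 k34 4 (.s
  k161 k241 11 (.s k145 k209 7 (.s k129 k177 3 (.d k192 k66 k98 8 12))))), (.s k17 k34 4 (.s k145
  k209 7 (.s k192 k98 12 (.s k129 k66 8 (.d k161 k177 k241 3 11)))))] .n) (.c k95 (.q k80 [(.s k243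
  k162 12 (.d k83 k82 k163 0 11)), (.s k17 k34 4 (.s k161 k241 11 (.s k145 k209 7 (.s k129 k177 3
  (.d k192 k66 k98 8 12))))), (.s k17 k34 4 (.s k145 k209 7 (.s k192 k98 12 (.s k129 k66 8 (.d k161
  k177 k241 3 11)))))] .n) (.c k162 (.l (.s k17 k34 4 (.s k161 k241 11 (.s k145 k209 7 (.s k129 k177
  3 (.d k192 k98 k66 12 8)))))) (.c k243 (.l (.s k17 k34 4 (.s k145 k209 7 (.s k192 k98 12 (.s k129
  k66 8 (.d k161 k177 k241 3 11)))))) .n)))))) (.c k35 (.f k87 k171 13 (.l (.s k17 k34 4 (.s k33 k49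
  3 (.s k18 k48 4 (.s k19 k16 0 (.s k119 k187 9 (.s k103 k71 3 (.d k155 k223 k207 9 13))))))))) (.c
  k80 (.q k95 [(.s k17 k34 4 (.s k33 k49 3 (.s k19 k35 3 (.d k18 k16 k48 0 4)))), (.s k87 k171 13
  (.s k119 k187 9 (.s k83 k91 1 (.s k243 k163 11 (.s k115 k179 7 (.s k127 k123 1 (.d k67 k107 k99 5
  3)))))))] .n) (.c k95 (.q k80 [(.s k17 k34 4 (.s k33 k49 3 (.s k19 k35 3 (.d k18 k16 k48 0 4)))),
  (.s k19 k35 3 (.s k87 k171 13 (.s k119 k187 9 (.s k103 k71 3 (.d k155 k223 k207 9 13)))))] (.c k19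
  (.q k81 [(.s k243 k162 12 (.d k83 k82 k163 0 11)), (.s k17 k34 4 (.s k161 k241 11 (.s k145 k209 7
  (.s k129 k177 3 (.d k192 k66 k98 8 12))))), (.s k17 k34 4 (.s k145 k209 7 (.s k192 k98 12 (.s k129
  k66 8 (.d k161 k177 k241 3 11)))))] .n) (.c k35 (.q k81 [(.s k243 k162 12 (.d k83 k82 k163 0 11)),
  (.s k17 k34 4 (.s k161 k241 11 (.s k145 k209 7 (.s k129 k177 3 (.d k192 k66 k98 8 12))))), (.s k17
  k34 4 (.s k145 k209 7 (.s k192 k98 12 (.s k129 k66 8 (.d k161 k177 k241 3 11)))))] .n) .n)))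
  .n))))) .n))))))))

def t85_91 : T TT 256 :=
  (.f k1 k2 0 (.q k67 [(.s k195 k131 7 (.s k65 k130 8 (.s k129 k193 7 (.d k66 k64 k192 0 8)))), (.s
  k87 k171 13 (.s k127 k107 5 (.s k63 k191 7 (.s k21 k42 6 (.s k41 k61 5 (.s k22 k60 6 (.d k23 k43
  k20 5 0)))))))] (.c k131 (.q k243 [(.s k81 k162 12 (.s k161 k241 11 (.s k82 k240 12 (.d k83 k80
  k163 0 11)))), (.s k83 k163 11 (.s k87 k171 13 (.s k115 k99 3 (.s k127 k107 5 (.s k123 k119 1 (.d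
  k63 k191 k183 7 9)))))), (.s k81 k162 12 (.s k161 k241 11 (.s k82 k240 12 (.s k97 k112 4 (.s k33
  k225 7 (.s k48 k18 4 (.d k113 k65 k178 3 8)))))))] .n) (.c k167 (.q k243 [(.s k195 k131 7 (.s k65
  k130 8 (.s k129 k193 7 (.d k66 k64 k192 0 8)))), (.s k81 k162 12 (.s k161 k241 11 (.s k82 k240 12
  (.d k83 k80 k163 0 11))))] .n) (.c k243 (.q k167 [(.s k195 k131 7 (.s k65 k130 8 (.s k129 k193 7
  (.d k66 k64 k192 0 8)))), (.s k87 k171 13 (.s k127 k107 5 (.s k63 k191 7 (.s k21 k42 6 (.s k41 k61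
  5 (.s k22 k60 6 (.d k23 k43 k20 5 0)))))))] (.c k131 (.q k63 [(.s k127 k191 7 (.d k87 k171 k107 13
  5)), (.s k21 k42 6 (.s k41 k61 5 (.s k22 k60 6 (.d k23 k20 k43 0 5))))] .n) .n)) .n)))))

def t85_92 : T TT 256 :=
  (.f k1 k2 0 (.q k67 [(.s k195 k131 7 (.s k65 k130 8 (.s k129 k193 7 (.d k66 k64 k192 0 8)))), (.s
  k87 k171 13 (.s k127 k107 5 (.s k63 k191 7 (.s k21 k42 6 (.s k41 k61 5 (.s k22 k60 6 (.d k23 k43
  k20 5 0)))))))] (.c k131 (.q k63 [(.s k87 k171 13 (.d k127 k191 k107 7 5)), (.s k21 k42 6 (.s k41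
  k61 5 (.s k22 k60 6 (.d k23 k20 k43 0 5))))] .n) .n)))

def t85_93 : T TT 256 :=
  (.f k1 k2 0 (.f k87 k171 13 (.q k63 [(.s k23 k43 5 (.s k127 k191 7 (.s k107 k67 5 (.d k151 k215
  k195 7 13)))), (.s k21 k42 6 (.s k41 k61 5 (.s k22 k60 6 (.d k23 k20 k43 0 5))))] (.c k23 (.q k81
  [(.s k162 k243 12 (.s k161 k241 11 (.s k240 k82 12 (.d k160 k163 k80 0 11)))), (.s k243 k162 12
  (.s k123 k183 9 (.s k127 k191 7 (.s k67 k107 5 (.s k115 k119 1 (.d k83 k99 k163 3 11)))))), (.s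
  k21 k42 6 (.s k61 k41 5 (.s k241 k161 11 (.s k181 k121 9 (.s k240 k122 10 (.d k243 k242 k162 0
  12))))))] (.c k162 (.l (.s k161 k241 11 (.s k82 k240 12 (.s k127 k191 7 (.s k67 k107 5 (.s k97
  k112 4 (.s k65 k113 3 (.d k195 k131 k130 7 8)))))))) (.c k242 (.l (.s k162 k243 12 (.s k161 k241
  11 (.s k240 k82 12 (.d k160 k163 k80 0 11))))) (.c k243 (.l (.s k161 k241 11 (.s k240 k82 12 (.s
  k122 k181 10 (.s k127 k191 7 (.s k117 k112 2 (.s k186 k48 10 (.d k250 k245 k58 2 7)))))))) .n))))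
  (.c k43 (.l (.s k21 k42 6 (.s k41 k61 5 (.s k22 k60 6 (.s k23 k20 0 (.s k127 k191 7 (.s k107 k67 5
  (.d k151 k215 k195 7 13)))))))) (.c k81 (.q k89 [(.s k23 k43 5 (.s k127 k191 7 (.s k107 k67 5 (.d
  k151 k215 k195 7 13)))), (.s k21 k42 6 (.s k41 k61 5 (.s k22 k60 6 (.d k23 k20 k43 0 5))))] (.c
  k23 (.q k67 [(.d k127 k107 k191 5 7), (.s k195 k131 7 (.s k65 k130 8 (.s k129 k193 7 (.d k66 k64
  k192 0 8))))] (.c k191 (.l (.s k107 k127 5 (.d k195 k131 k151 7 13))) .n)) (.c k43 (.l (.s k21 k42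
  6 (.s k41 k61 5 (.s k22 k60 6 (.s k23 k20 0 (.s k127 k191 7 (.s k107 k67 5 (.d k151 k215 k195 7
  13)))))))) .n))) (.c k89 (.q k81 [(.s k21 k42 6 (.s k41 k61 5 (.s k22 k60 6 (.d k23 k20 k43 0
  5)))), (.s k162 k243 12 (.s k161 k241 11 (.s k240 k82 12 (.d k160 k163 k80 0 11))))] .n) .n)))))))

def t85_94 : T TT 256 :=
  (.q k195 [(.s k1 k2 0 (.s k65 k130 8 (.s k129 k193 7 (.s k67 k131 7 (.d k66 k64 k192 0 8))))), (.s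
  k67 k131 7 (.s k87 k171 13 (.s k107 k127 5 (.s k151 k63 13 (.d k215 k235 k23 5 7)))))] (.c k64 (.l
  (.s k2 k1 0 (.s k130 k65 8 (.s k66 k194 7 (.s k129 k192 8 (.d k131 k67 k128 7 0)))))) (.c k67 (.f
  k87 k171 13 (.q k63 [(.s k23 k43 5 (.d k151 k107 k215 13 7)), (.s k1 k2 0 (.s k21 k42 6 (.s k65
  k130 8 (.s k61 k41 5 (.s k193 k129 7 (.s k105 k149 13 (.d k60 k62 k150 0 14)))))))] (.c k43 (.l
  (.s k1 k2 0 (.s k21 k42 6 (.s k41 k61 5 (.s k22 k60 6 (.s k23 k20 0 (.d k151 k215 k107 7 13)))))))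
  (.c k173 (.q k252 [(.s k23 k43 5 (.d k151 k107 k215 13 7)), (.s k1 k2 0 (.s k21 k42 6 (.s k41 k61
  5 (.s k169 k86 14 (.d k233 k105 k214 7 6)))))] .n) (.c k252 (.q k173 [(.s k23 k43 5 (.d k151 k107
  k215 13 7)), (.s k1 k2 0 (.s k21 k42 6 (.s k65 k130 8 (.s k61 k41 5 (.s k193 k129 7 (.s k105 k149
  13 (.d k60 k62 k150 0 14)))))))] (.c k43 (.l (.s k1 k2 0 (.s k21 k42 6 (.s k41 k61 5 (.s k22 k60 6
  (.s k23 k20 0 (.d k151 k215 k107 7 13))))))) .n)) .n))))) (.c k131 (.f k87 k171 13 (.q k63 [(.s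
  k23 k43 5 (.d k151 k107 k215 13 7)), (.s k1 k2 0 (.s k65 k130 8 (.s k129 k193 7 (.s k66 k192 8 (.s
  k67 k64 0 (.d k107 k127 k151 5 13))))))] (.c k107 (.l (.s k1 k2 0 (.s k21 k42 6 (.s k41 k61 5 (.s
  k22 k60 6 (.d k23 k20 k43 0 5)))))) (.c k151 (.l (.s k191 k127 7 (.s k1 k2 0 (.s k21 k42 6 (.s k41
  k61 5 (.s k22 k60 6 (.d k23 k20 k43 0 5))))))) (.c k173 (.q k252 [(.s k23 k43 5 (.d k151 k107 k215
  13 7)), (.s k1 k2 0 (.s k21 k42 6 (.s k41 k61 5 (.s k169 k86 14 (.d k233 k214 k105 6 7)))))] (.c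
  k151 (.l (.s k191 k127 7 (.s k189 k126 8 (.s k190 k188 0 (.s k125 k60 8 (.d k253 k254 k61 0
  7)))))) (.c k191 (.l (.s k151 k107 13 (.d k23 k43 k215 5 7))) .n))) (.c k191 (.l (.s k151 k107 13
  (.d k23 k43 k215 5 7))) (.c k252 (.q k173 [(.s k23 k43 5 (.d k151 k107 k215 13 7)), (.s k1 k2 0
  (.s k65 k130 8 (.s k129 k193 7 (.s k66 k192 8 (.s k67 k64 0 (.d k107 k127 k151 5 13))))))] (.c
  k107 (.l (.s k1 k2 0 (.s k21 k42 6 (.s k41 k61 5 (.s k22 k60 6 (.d k23 k20 k43 0 5)))))) (.c k151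
  (.l (.s k191 k127 7 (.s k1 k2 0 (.s k21 k42 6 (.s k41 k61 5 (.s k22 k60 6 (.d k23 k20 k43 0
  5))))))) (.c k191 (.l (.s k151 k107 13 (.d k23 k43 k215 5 7))) .n)))) .n))))))) (.c k173 (.q k252
  [(.s k1 k2 0 (.s k65 k130 8 (.s k129 k193 7 (.s k67 k131 7 (.d k66 k64 k192 0 8))))), (.s k67 k131
  7 (.s k87 k171 13 (.s k107 k127 5 (.s k151 k63 13 (.d k215 k235 k23 5 7))))), (.s k1 k2 0 (.s k233
  k214 6 (.s k253 k254 0 (.s k193 k213 5 (.d k65 k129 k130 7 8)))))] .n) (.c k252 (.q k173 [(.s k1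
  k2 0 (.s k65 k130 8 (.s k129 k193 7 (.s k67 k131 7 (.d k66 k64 k192 0 8))))), (.s k67 k131 7 (.s
  k87 k171 13 (.s k107 k127 5 (.s k151 k63 13 (.d k215 k235 k23 5 7)))))] (.c k64 (.l (.s k2 k1 0
  (.s k130 k65 8 (.s k66 k194 7 (.s k129 k192 8 (.d k131 k67 k128 7 0)))))) (.c k67 (.q k12 [(.s k1
  k2 0 (.s k93 k174 12 (.s k13 k253 11 (.d k9 k5 k6 1 2)))), (.s k4 k8 1 (.s k130 k65 8 (.s k134 k73
  10 (.s k69 k199 8 (.d k138 k142 k207 1 10)))))] .n) (.c k131 (.q k12 [(.s k1 k2 0 (.s k93 k174 12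
  (.s k13 k253 11 (.d k9 k5 k6 1 2)))), (.s k4 k8 1 (.s k130 k65 8 (.s k134 k73 10 (.s k69 k199 8
  (.d k138 k142 k207 1 10)))))] .n) .n)))) .n))))))

def t85_95 : T TT 256 :=
  (.f k1 k2 0 (.q k67 [(.s k195 k131 7 (.s k65 k130 8 (.s k129 k193 7 (.d k66 k64 k192 0 8)))), (.s
  k87 k171 13 (.s k127 k107 5 (.s k63 k191 7 (.s k21 k42 6 (.s k41 k61 5 (.s k22 k60 6 (.d k23 k43
  k20 5 0)))))))] (.c k80 (.q k90 [(.s k195 k131 7 (.s k65 k130 8 (.s k129 k193 7 (.d k66 k64 k192 0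
  8)))), (.s k87 k171 13 (.s k127 k107 5 (.s k63 k191 7 (.s k21 k42 6 (.s k41 k61 5 (.s k22 k60 6
  (.d k23 k43 k20 5 0)))))))] (.c k131 (.q k63 [(.s k87 k171 13 (.d k127 k191 k107 7 5)), (.s k21
  k42 6 (.s k41 k61 5 (.s k22 k60 6 (.d k23 k20 k43 0 5))))] .n) .n)) (.c k90 (.q k80 [(.s k195 k131
  7 (.s k65 k130 8 (.s k129 k193 7 (.d k66 k64 k192 0 8)))), (.s k195 k131 7 (.s k87 k171 13 (.s
  k215 k235 5 (.s k151 k23 7 (.d k107 k127 k63 5 13))))), (.s k240 k160 11 (.s k82 k161 12 (.s k112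
  k97 4 (.s k64 k96 3 (.s k192 k128 7 (.d k66 k65 k129 0 8))))))] (.c k165 (.l (.s k240 k160 11 (.s
  k195 k131 7 (.s k65 k130 8 (.s k129 k193 7 (.d k66 k64 k192 0 8)))))) (.c k240 (.q k165 [(.s k195
  k131 7 (.s k65 k130 8 (.s k129 k193 7 (.d k66 k64 k192 0 8)))), (.s k87 k171 13 (.s k127 k107 5
  (.s k63 k191 7 (.s k21 k42 6 (.s k41 k61 5 (.s k22 k60 6 (.d k23 k43 k20 5 0)))))))] (.c k131 (.q
  k63 [(.s k87 k171 13 (.d k127 k191 k107 7 5)), (.s k21 k42 6 (.s k41 k61 5 (.s k22 k60 6 (.d k23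
  k20 k43 0 5))))] .n) .n)) .n))) (.c k131 (.q k63 [(.s k87 k171 13 (.d k127 k191 k107 7 5)), (.s
  k21 k42 6 (.s k41 k61 5 (.s k22 k60 6 (.d k23 k20 k43 0 5))))] (.c k80 (.q k90 [(.s k87 k171 13
  (.d k127 k191 k107 7 5)), (.s k21 k42 6 (.s k41 k61 5 (.s k22 k60 6 (.d k23 k20 k43 0 5))))] .n)
  (.c k90 (.q k80 [(.s k87 k171 13 (.d k127 k191 k107 7 5)), (.s k21 k42 6 (.s k41 k61 5 (.s k22 k60
  6 (.d k23 k20 k43 0 5))))] (.c k165 (.l (.s k240 k160 11 (.s k87 k171 13 (.d k127 k191 k107 7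
  5)))) (.c k240 (.q k165 [(.s k87 k171 13 (.d k127 k191 k107 7 5)), (.s k21 k42 6 (.s k41 k61 5 (.s
  k22 k60 6 (.d k23 k20 k43 0 5))))] .n) .n))) .n))) .n)))))

def t85_96 : T TT 256 :=
  (.f k1 k2 0 (.q k67 [(.s k195 k131 7 (.s k65 k130 8 (.s k129 k193 7 (.d k66 k64 k192 0 8)))), (.s
  k87 k171 13 (.s k127 k107 5 (.s k63 k191 7 (.s k21 k42 6 (.s k41 k61 5 (.s k22 k60 6 (.d k23 k43
  k20 5 0)))))))] (.c k131 (.q k63 [(.s k87 k171 13 (.d k127 k191 k107 7 5)), (.s k21 k42 6 (.s k41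
  k61 5 (.s k22 k60 6 (.d k23 k20 k43 0 5))))] .n) .n)))

def t85_97 : T TT 256 :=
  (.f k1 k2 0 (.q k67 [(.s k195 k131 7 (.s k65 k130 8 (.s k129 k193 7 (.d k66 k64 k192 0 8)))), (.s
  k87 k171 13 (.s k127 k107 5 (.s k63 k191 7 (.s k21 k42 6 (.s k41 k61 5 (.s k22 k60 6 (.d k23 k43
  k20 5 0)))))))] (.c k131 (.q k63 [(.s k87 k171 13 (.d k127 k191 k107 7 5)), (.s k21 k42 6 (.s k41
  k61 5 (.s k22 k60 6 (.d k23 k20 k43 0 5))))] .n) .n)))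

def t85_98 : T TT 256 :=
  (.f k1 k2 0 (.q k67 [(.s k195 k131 7 (.s k65 k130 8 (.s k129 k193 7 (.d k66 k64 k192 0 8)))), (.s
  k87 k171 13 (.s k127 k107 5 (.s k63 k191 7 (.s k21 k42 6 (.s k41 k61 5 (.s k22 k60 6 (.d k23 k43
  k20 5 0)))))))] (.c k131 (.q k63 [(.s k87 k171 13 (.d k127 k191 k107 7 5)), (.s k21 k42 6 (.s k41
  k61 5 (.s k22 k60 6 (.d k23 k20 k43 0 5))))] .n) .n)))

def t85_99 : T TT 256 :=
  (.f k1 k2 0 (.q k67 [(.s k195 k131 7 (.s k65 k130 8 (.s k129 k193 7 (.d k66 k64 k192 0 8)))), (.s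
  k87 k171 13 (.s k127 k107 5 (.s k63 k191 7 (.s k21 k42 6 (.s k41 k61 5 (.s k22 k60 6 (.d k23 k43
  k20 5 0)))))))] (.c k131 (.q k63 [(.s k87 k171 13 (.d k127 k191 k107 7 5)), (.s k21 k42 6 (.s k41
  k61 5 (.s k22 k60 6 (.d k23 k20 k43 0 5))))] .n) .n)))

def t85_100 : T TT 256 :=
  (.f k1 k2 0 (.q k67 [(.s k195 k131 7 (.s k65 k130 8 (.s k129 k193 7 (.d k66 k64 k192 0 8)))), (.s
  k87 k171 13 (.s k127 k107 5 (.s k63 k191 7 (.s k21 k42 6 (.s k41 k61 5 (.s k22 k60 6 (.d k23 k43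
  k20 5 0)))))))] (.c k131 (.q k63 [(.s k87 k171 13 (.d k127 k191 k107 7 5)), (.s k21 k42 6 (.s k41
  k61 5 (.s k22 k60 6 (.d k23 k20 k43 0 5))))] .n) .n)))

def t85_101 : T TT 256 :=
  (.f k87 k171 13 (.f k1 k2 0 (.q k67 [(.s k195 k131 7 (.s k215 k235 5 (.s k151 k23 7 (.d k107 k127
  k63 5 13)))), (.s k195 k131 7 (.s k65 k130 8 (.s k129 k193 7 (.d k66 k64 k192 0 8))))] (.c k69 (.q
  k117 [(.s k195 k131 7 (.s k215 k235 5 (.s k151 k23 7 (.d k107 k127 k63 5 13)))), (.s k48 k186 10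
  (.s k32 k16 3 (.s k33 k18 4 (.s k17 k49 3 (.d k34 k35 k51 0 4)))))] .n) (.c k117 (.q k69 [(.s k195
  k131 7 (.s k65 k130 8 (.s k129 k193 7 (.d k66 k64 k192 0 8)))), (.s k138 k207 10 (.s k137 k205 9
  (.s k204 k70 10 (.d k136 k139 k68 0 9))))] .n) (.c k131 (.q k117 [(.s k48 k186 10 (.s k33 k18 4
  (.s k17 k49 3 (.s k34 k51 4 (.d k32 k35 k16 0 3))))), (.s k127 k107 5 (.s k112 k122 2 (.s k82 k97
  4 (.s k161 k240 12 (.s k81 k241 11 (.s k243 k162 12 (.d k83 k80 k163 0 11)))))))] (.c k32 (.l (.s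
  k48 k186 10 (.s k127 k107 5 (.s k112 k122 2 (.s k240 k176 7 (.d k82 k161 k97 12 4)))))) (.c k151
  (.q k191 [(.d k127 k107 k63 5 7), (.s k48 k186 10 (.s k32 k16 3 (.s k33 k18 4 (.s k17 k49 3 (.d
  k34 k35 k51 0 4)))))] .n) (.c k191 (.q k151 [(.s k215 k23 7 (.s k107 k127 5 (.d k195 k235 k63 5
  13))), (.s k48 k186 10 (.s k32 k16 3 (.s k33 k18 4 (.s k17 k49 3 (.d k34 k35 k51 0 4)))))] .n)
  .n)))) (.c k151 (.l (.s k127 k107 5 (.s k195 k131 7 (.s k191 k63 7 (.s k65 k130 8 (.s k129 k193 7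
  (.d k66 k64 k192 0 8))))))) (.c k191 (.l (.s k107 k127 5 (.s k195 k131 7 (.s k151 k63 13 (.d k215
  k235 k23 5 7))))) (.c k195 (.l (.s k127 k107 5 (.s k63 k191 7 (.s k21 k42 6 (.s k41 k61 5 (.s k22
  k60 6 (.d k23 k43 k20 5 0))))))) .n)))))))))

def t85_102 : T TT 256 :=
  (.q k195 [(.s k1 k2 0 (.s k65 k130 8 (.s k129 k193 7 (.s k67 k131 7 (.d k66 k64 k192 0 8))))), (.s
  k67 k131 7 (.s k87 k171 13 (.s k107 k127 5 (.s k151 k63 13 (.d k215 k235 k23 5 7)))))] (.c k64 (.l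
  (.s k2 k1 0 (.s k130 k65 8 (.s k66 k194 7 (.s k129 k192 8 (.d k131 k67 k128 7 0)))))) (.c k67 (.q
  k51 [(.s k1 k2 0 (.s k17 k34 4 (.s k33 k49 3 (.s k18 k48 4 (.d k19 k16 k35 0 3))))), (.s k87 k171
  13 (.s k99 k147 11 (.s k119 k187 9 (.s k103 k71 3 (.s k107 k111 1 (.s k151 k63 13 (.d k215 k235
  k23 5 7)))))))] (.c k68 (.l (.s k119 k187 9 (.s k19 k35 3 (.s k87 k171 13 (.s k155 k223 9 (.d k103
  k71 k207 3 13)))))) (.c k119 (.q k68 [(.s k1 k2 0 (.s k17 k34 4 (.s k33 k49 3 (.s k18 k48 4 (.d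
  k19 k16 k35 0 3))))), (.s k19 k35 3 (.s k87 k171 13 (.s k155 k223 9 (.s k147 k99 11 (.s k151 k159
  1 (.d k215 k235 k23 5 7)))))), (.s k2 k1 0 (.s k204 k136 9 (.s k70 k137 10 (.s k138 k206 9 (.d k69
  k71 k207 0 10)))))] .n) .n))) (.c k68 (.q k119 [(.s k1 k2 0 (.s k65 k130 8 (.s k129 k193 7 (.s k67
  k131 7 (.d k66 k64 k192 0 8))))), (.s k87 k171 13 (.s k51 k187 9 (.s k19 k35 3 (.s k155 k223 9 (.d
  k103 k71 k207 3 13)))))] .n) (.c k119 (.q k68 [(.s k1 k2 0 (.s k65 k130 8 (.s k129 k193 7 (.s k67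
  k131 7 (.d k66 k64 k192 0 8))))), (.s k2 k1 0 (.s k204 k136 9 (.s k70 k137 10 (.s k138 k206 9 (.d
  k69 k71 k207 0 10))))), (.s k67 k131 7 (.s k87 k171 13 (.s k107 k127 5 (.s k151 k63 13 (.d k215
  k235 k23 5 7)))))] .n) (.c k131 (.q k119 [(.s k87 k171 13 (.s k103 k71 3 (.s k51 k187 9 (.s k155
  k207 13 (.d k19 k35 k223 3 9))))), (.s k1 k2 0 (.s k51 k187 9 (.s k17 k34 4 (.s k33 k49 3 (.s k18
  k48 4 (.d k19 k16 k35 0 3)))))), (.s k1 k2 0 (.s k87 k171 13 (.s k71 k103 3 (.s k207 k139 9 (.s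
  k69 k138 10 (.s k137 k205 9 (.d k70 k68 k204 0 10)))))))] (.c k35 (.l (.s k87 k171 13 (.s k51 k187
  9 (.s k99 k147 11 (.s k103 k71 3 (.s k107 k111 1 (.s k151 k63 13 (.d k215 k235 k23 5 7)))))))) (.c
  k187 (.q k51 [(.s k87 k171 13 (.s k103 k71 3 (.s k155 k207 13 (.d k19 k35 k223 3 9)))), (.s k1 k2
  0 (.s k17 k34 4 (.s k33 k49 3 (.s k18 k48 4 (.d k19 k16 k35 0 3))))), (.s k87 k171 13 (.s k99 k147
  11 (.s k103 k71 3 (.s k107 k111 1 (.s k151 k63 13 (.d k215 k235 k23 5 7))))))] .n) .n))) .n))))))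

def t85_103 : T TT 256 :=
  (.q k195 [(.s k1 k2 0 (.s k65 k130 8 (.s k129 k193 7 (.s k67 k131 7 (.d k66 k64 k192 0 8))))), (.s
  k67 k131 7 (.s k87 k171 13 (.s k107 k127 5 (.s k151 k63 13 (.d k215 k235 k23 5 7)))))] (.c k64 (.l
  (.s k2 k1 0 (.s k130 k65 8 (.s k66 k194 7 (.s k129 k192 8 (.d k131 k67 k128 7 0)))))) (.c k67 (.q
  k63 [(.s k23 k43 5 (.s k87 k171 13 (.d k151 k107 k215 13 7))), (.s k1 k2 0 (.s k21 k42 6 (.s k65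
  k130 8 (.s k61 k41 5 (.s k193 k129 7 (.s k105 k149 13 (.d k60 k62 k150 0 14)))))))] (.c k43 (.l
  (.s k1 k2 0 (.s k21 k42 6 (.s k41 k61 5 (.s k22 k60 6 (.s k87 k171 13 (.s k23 k20 0 (.d k151 k215
  k107 7 13)))))))) .n)) (.c k131 (.q k63 [(.s k23 k43 5 (.s k151 k107 13 (.d k87 k171 k215 13 7))),
  (.s k1 k2 0 (.s k21 k42 6 (.s k41 k61 5 (.s k22 k60 6 (.d k23 k20 k43 0 5))))), (.s k1 k2 0 (.s
  k65 k130 8 (.s k129 k193 7 (.s k66 k192 8 (.s k87 k171 13 (.s k67 k64 0 (.d k107 k127 k151 5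
  13)))))))] .n) .n))))

def t85_104 : T TT 256 :=
  (.f k87 k171 13 (.f k1 k2 0 (.q k67 [(.s k195 k131 7 (.s k215 k235 5 (.s k151 k23 7 (.d k107 k127
  k63 5 13)))), (.s k195 k131 7 (.s k65 k130 8 (.s k129 k193 7 (.d k66 k64 k192 0 8))))] (.c k131
  (.q k63 [(.d k127 k191 k107 7 5), (.s k21 k42 6 (.s k41 k61 5 (.s k22 k60 6 (.d k23 k20 k43 0
  5))))] (.c k151 (.l (.s k191 k127 7 (.s k21 k42 6 (.s k41 k61 5 (.s k22 k60 6 (.d k23 k20 k43 0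
  5)))))) (.c k191 (.q k151 [(.d k23 k43 k215 5 7), (.d k107 k127 k195 5 13)] .n) .n))) (.c k151 (.l
  (.s k127 k107 5 (.s k195 k131 7 (.s k191 k63 7 (.s k65 k130 8 (.s k129 k193 7 (.d k66 k64 k192 0
  8))))))) (.c k191 (.l (.s k107 k127 5 (.s k195 k131 7 (.s k151 k63 13 (.d k215 k235 k23 5 7)))))
  (.c k195 (.l (.s k127 k107 5 (.s k63 k191 7 (.s k21 k42 6 (.s k41 k61 5 (.s k22 k60 6 (.d k23 k43
  k20 5 0))))))) .n)))))))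

def t85_105 : T TT 256 :=
  (.f k87 k171 13 (.q k63 [(.s k23 k43 5 (.s k151 k215 7 (.s k127 k191 7 (.d k107 k67 k195 5 13)))),
  (.s k1 k2 0 (.s k21 k42 6 (.s k41 k61 5 (.s k22 k60 6 (.d k23 k20 k43 0 5))))), (.s k23 k43 5 (.s
  k127 k191 7 (.s k107 k67 5 (.d k151 k215 k195 7 13))))] (.c k23 (.q k125 [(.s k1 k2 0 (.s k21 k42
  6 (.s k41 k61 5 (.d k60 k22 k190 6 8)))), (.s k190 k60 8 (.s k127 k191 7 (.s k126 k124 0 (.s k254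
  k62 7 (.d k252 k253 k189 0 8))))), (.s k1 k2 0 (.s k21 k42 6 (.s k61 k41 5 (.s k189 k253 7 (.s
  k126 k252 8 (.d k127 k124 k191 0 7))))))] (.c k62 (.l (.s k190 k60 8 (.s k191 k127 7 (.s k189 k188
  0 (.s k253 k61 7 (.d k252 k254 k126 0 8)))))) .n)) (.c k43 (.q k195 [(.s k67 k131 7 (.d k107 k151
  k127 13 5)), (.s k1 k2 0 (.s k21 k42 6 (.s k41 k61 5 (.s k22 k60 6 (.s k23 k20 0 (.d k151 k215
  k107 7 13))))))] (.c k65 (.q k125 [(.s k67 k131 7 (.d k107 k151 k127 13 5)), (.s k1 k2 0 (.s k21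
  k42 6 (.s k41 k61 5 (.d k60 k22 k190 6 8))))] (.c k107 (.l (.s k235 k215 5 (.s k1 k2 0 (.s k21 k42
  6 (.s k41 k61 5 (.d k60 k22 k190 6 8)))))) (.c k235 (.l (.s k107 k151 13 (.d k67 k131 k127 7 5)))
  .n))) (.c k107 (.l (.s k235 k215 5 (.s k1 k2 0 (.s k65 k130 8 (.s k129 k193 7 (.s k66 k192 8 (.d
  k67 k64 k131 0 7))))))) (.c k125 (.l (.s k65 k130 8 (.s k67 k131 7 (.d k107 k151 k127 13 5)))) (.c
  k151 (.l (.s k1 k2 0 (.s k65 k130 8 (.s k129 k193 7 (.s k66 k192 8 (.d k67 k64 k131 0 7)))))) (.c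
  k235 (.l (.s k107 k151 13 (.d k67 k131 k127 7 5))) .n)))))) (.c k65 (.q k125 [(.s k1 k2 0 (.s k21
  k42 6 (.s k41 k61 5 (.d k60 k22 k190 6 8)))), (.s k23 k43 5 (.s k151 k215 7 (.s k127 k191 7 (.d
  k107 k67 k195 5 13))))] .n) (.c k125 (.q k65 [(.s k195 k130 8 (.s k23 k43 5 (.d k151 k107 k215 13
  7))), (.s k1 k2 0 (.s k21 k42 6 (.s k41 k61 5 (.s k22 k60 6 (.d k23 k20 k43 0 5))))), (.s k195
  k130 8 (.s k67 k131 7 (.d k107 k151 k127 13 5)))] (.c k195 (.l (.s k1 k2 0 (.s k21 k42 6 (.s k41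
  k61 5 (.s k23 k43 5 (.d k22 k20 k60 0 6)))))) .n)) (.c k195 (.l (.s k1 k2 0 (.s k21 k42 6 (.s k41
  k61 5 (.s k23 k43 5 (.d k22 k20 k60 0 6)))))) .n)))))))

def t85_106 : T TT 256 :=
  (.f k1 k2 0 (.f k87 k171 13 (.q k127 [(.s k107 k67 5 (.s k63 k191 7 (.s k151 k195 13 (.d k23 k43
  k215 5 7)))), (.s k63 k191 7 (.s k21 k42 6 (.s k41 k61 5 (.s k22 k60 6 (.d k23 k20 k43 0 5))))),
  (.s k67 k107 5 (.s k195 k131 7 (.s k65 k130 8 (.s k129 k193 7 (.d k66 k64 k192 0 8)))))] (.c k43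
  (.l (.s k63 k191 7 (.s k21 k42 6 (.s k41 k61 5 (.s k22 k60 6 (.s k23 k20 0 (.s k107 k67 5 (.d k151
  k215 k195 7 13)))))))) (.c k131 (.l (.s k107 k67 5 (.s k63 k191 7 (.s k151 k195 13 (.d k23 k43
  k215 5 7))))) (.c k151 (.l (.s k191 k63 7 (.s k67 k107 5 (.s k195 k131 7 (.s k65 k130 8 (.s k129
  k193 7 (.d k66 k192 k64 8 0))))))) (.c k191 (.q k79 [(.s k107 k67 5 (.s k111 k95 3 (.s k103 k99 1
  (.s k119 k71 3 (.d k115 k123 k91 1 5))))), (.s k95 k111 3 (.s k83 k91 1 (.s k243 k163 11 (.s k81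
  k162 12 (.s k161 k241 11 (.d k82 k80 k240 0 12)))))), (.s k67 k107 5 (.s k71 k75 1 (.s k207 k139 9
  (.s k69 k138 10 (.s k137 k205 9 (.d k70 k68 k204 0 10))))))] (.c k91 (.l (.s k107 k67 5 (.s k111
  k95 3 (.s k103 k99 1 (.s k71 k119 3 (.s k207 k139 9 (.s k155 k51 13 (.d k223 k239 k19 3 9))))))))
  (.c k131 (.q k151 [(.s k215 k23 7 (.s k107 k67 5 (.d k195 k235 k63 5 13))), (.s k23 k215 7 (.s k95
  k111 3 (.s k91 k83 1 (.s k31 k211 9 (.s k19 k27 1 (.d k223 k159 k155 7 9)))))), (.s k67 k107 5 (.s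
  k71 k75 1 (.s k103 k119 3 (.s k91 k115 5 (.d k95 k83 k111 1 3)))))] .n) (.c k151 (.q k131 [(.d k67
  k107 k195 5 7), (.s k95 k111 3 (.s k83 k91 1 (.s k243 k163 11 (.s k81 k162 12 (.s k161 k241 11 (.d
  k82 k80 k240 0 12))))))] .n) .n)))) .n)))))))

def t85_107 : T TT 256 :=
  (.f k1 k2 0 (.q k19 [(.s k51 k35 3 (.s k17 k34 4 (.s k33 k49 3 (.d k18 k16 k48 0 4)))), (.s k87
  k171 13 (.s k223 k155 9 (.s k207 k239 3 (.s k69 k138 10 (.s k137 k205 9 (.s k70 k204 10 (.d k71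
  k139 k68 9 0)))))))] (.c k35 (.q k69 [(.s k207 k138 10 (.s k223 k239 3 (.d k87 k171 k155 13 9))),
  (.s k138 k207 10 (.s k137 k205 9 (.s k204 k70 10 (.d k136 k139 k68 0 9)))), (.s k87 k171 13 (.s
  k223 k155 9 (.d k207 k239 k138 3 10)))] (.c k138 (.l (.s k137 k205 9 (.s k70 k204 10 (.s k87 k171
  13 (.s k223 k155 9 (.s k71 k68 0 (.d k207 k239 k139 3 9))))))) (.c k207 (.f k87 k171 13 (.l (.s
  k137 k205 9 (.s k204 k70 10 (.s k223 k155 9 (.s k221 k238 4 (.s k220 k222 0 (.s k86 k153 10 (.d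
  k252 k236 k169 3 14))))))))) .n))) .n)))

def t85_108 : T TT 256 :=
  (.q k119 [(.s k87 k171 13 (.s k51 k187 9 (.s k19 k35 3 (.s k103 k71 3 (.d k155 k223 k207 9
  13))))), (.s k1 k2 0 (.s k51 k187 9 (.s k17 k34 4 (.s k33 k49 3 (.s k18 k48 4 (.d k19 k16 k35 0
  3)))))), (.s k1 k2 0 (.s k87 k171 13 (.s k71 k103 3 (.s k207 k139 9 (.s k69 k138 10 (.s k137 k205
  9 (.d k70 k68 k204 0 10)))))))] (.c k35 (.q k23 [(.s k1 k2 0 (.s k63 k43 5 (.s k21 k42 6 (.s k41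
  k61 5 (.d k22 k20 k60 0 6))))), (.s k87 k171 13 (.s k151 k215 7 (.s k103 k71 3 (.s k55 k199 11 (.s
  k247 k183 7 (.d k7 k39 k167 3 11))))))] (.c k20 (.l (.s k63 k43 5 (.s k87 k171 13 (.s k127 k191 7
  (.s k107 k67 5 (.d k151 k215 k195 7 13)))))) (.c k39 (.l (.s k87 k171 13 (.s k151 k215 7 (.s k51
  k187 9 (.s k103 k71 3 (.s k55 k199 11 (.d k63 k59 k43 1 5))))))) .n))) (.c k187 (.q k23 [(.s k1 k2
  0 (.s k63 k43 5 (.s k21 k42 6 (.s k41 k61 5 (.d k22 k20 k60 0 6))))), (.s k87 k171 13 (.s k151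
  k215 7 (.s k103 k71 3 (.s k55 k199 11 (.s k7 k39 3 (.d k247 k183 k167 7 11))))))] (.c k20 (.l (.s
  k63 k43 5 (.s k87 k171 13 (.s k127 k191 7 (.s k107 k67 5 (.d k151 k215 k195 7 13)))))) .n)) .n)))

def t85_109 : T TT 256 :=
  (.q k119 [(.s k87 k171 13 (.s k51 k187 9 (.s k19 k35 3 (.s k103 k71 3 (.d k155 k223 k207 9
  13))))), (.s k1 k2 0 (.s k51 k187 9 (.s k17 k34 4 (.s k33 k49 3 (.s k18 k48 4 (.d k19 k16 k35 0
  3)))))), (.s k1 k2 0 (.s k87 k171 13 (.s k71 k103 3 (.s k207 k139 9 (.s k69 k138 10 (.s k137 k205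
  9 (.d k70 k68 k204 0 10)))))))] (.c k35 (.q k23 [(.s k1 k2 0 (.s k63 k43 5 (.s k21 k42 6 (.s k41
  k61 5 (.d k22 k20 k60 0 6))))), (.s k87 k171 13 (.s k151 k215 7 (.s k103 k71 3 (.s k55 k199 11 (.s
  k247 k183 7 (.d k7 k39 k167 3 11))))))] (.c k20 (.l (.s k63 k43 5 (.s k87 k171 13 (.s k127 k191 7
  (.s k107 k67 5 (.d k151 k215 k195 7 13)))))) (.c k39 (.l (.s k87 k171 13 (.s k151 k215 7 (.s k51
  k187 9 (.s k103 k71 3 (.s k55 k199 11 (.d k63 k59 k43 1 5))))))) .n))) (.c k187 (.q k23 [(.s k1 k2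
  0 (.s k63 k43 5 (.s k21 k42 6 (.s k41 k61 5 (.d k22 k20 k60 0 6))))), (.s k87 k171 13 (.s k151
  k215 7 (.s k103 k71 3 (.s k55 k199 11 (.s k7 k39 3 (.d k247 k183 k167 7 11))))))] (.c k20 (.l (.s
  k63 k43 5 (.s k87 k171 13 (.s k127 k191 7 (.s k107 k67 5 (.d k151 k215 k195 7 13)))))) .n)) .n)))

def t85_110 : T TT 256 :=
  (.f k1 k2 0 (.q k19 [(.s k51 k35 3 (.s k17 k34 4 (.s k33 k49 3 (.d k18 k16 k48 0 4)))), (.s k87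
  k171 13 (.s k223 k155 9 (.s k207 k239 3 (.s k69 k138 10 (.s k137 k205 9 (.s k70 k204 10 (.d k71
  k139 k68 9 0)))))))] (.c k35 (.q k63 [(.s k21 k42 6 (.s k41 k61 5 (.s k22 k60 6 (.d k23 k20 k43 0
  5)))), (.s k23 k43 5 (.s k87 k171 13 (.s k127 k191 7 (.s k107 k67 5 (.d k151 k215 k195 7 13))))),
  (.s k21 k42 6 (.s k41 k61 5 (.s k22 k60 6 (.s k25 k28 2 (.s k9 k57 3 (.s k12 k6 2 (.d k29 k17 k46
  1 4)))))))] .n) .n)))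

def t85_111 : T TT 256 :=
  (.q k119 [(.s k87 k171 13 (.s k51 k187 9 (.s k19 k35 3 (.s k103 k71 3 (.d k155 k223 k207 9
  13))))), (.s k1 k2 0 (.s k51 k187 9 (.s k17 k34 4 (.s k33 k49 3 (.s k18 k48 4 (.d k19 k16 k35 0
  3)))))), (.s k1 k2 0 (.s k87 k171 13 (.s k71 k103 3 (.s k207 k139 9 (.s k69 k138 10 (.s k137 k205
  9 (.d k70 k68 k204 0 10)))))))] (.c k35 (.q k23 [(.s k1 k2 0 (.s k63 k43 5 (.s k21 k42 6 (.s k41
  k61 5 (.d k22 k20 k60 0 6))))), (.s k87 k171 13 (.s k151 k215 7 (.s k103 k71 3 (.s k55 k199 11 (.s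
  k247 k183 7 (.d k7 k39 k167 3 11))))))] (.c k20 (.l (.s k63 k43 5 (.s k87 k171 13 (.s k127 k191 7
  (.s k107 k67 5 (.d k151 k215 k195 7 13)))))) (.c k39 (.l (.s k87 k171 13 (.s k151 k215 7 (.s k51
  k187 9 (.s k103 k71 3 (.s k55 k199 11 (.d k63 k59 k43 1 5))))))) .n))) (.c k187 (.q k23 [(.s k1 k2
  0 (.s k63 k43 5 (.s k21 k42 6 (.s k41 k61 5 (.d k22 k20 k60 0 6))))), (.s k87 k171 13 (.s k151
  k215 7 (.s k103 k71 3 (.s k55 k199 11 (.s k7 k39 3 (.d k247 k183 k167 7 11))))))] (.c k20 (.l (.s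
  k63 k43 5 (.s k87 k171 13 (.s k127 k191 7 (.s k107 k67 5 (.d k151 k215 k195 7 13)))))) .n)) .n)))

def t85_112 : T TT 256 :=
  (.q k119 [(.s k87 k171 13 (.s k51 k187 9 (.s k19 k35 3 (.s k103 k71 3 (.d k155 k223 k207 9
  13))))), (.s k1 k2 0 (.s k51 k187 9 (.s k17 k34 4 (.s k33 k49 3 (.s k18 k48 4 (.d k19 k16 k35 0
  3)))))), (.s k1 k2 0 (.s k87 k171 13 (.s k71 k103 3 (.s k207 k139 9 (.s k69 k138 10 (.s k137 k205
  9 (.d k70 k68 k204 0 10)))))))] (.c k35 (.q k23 [(.s k1 k2 0 (.s k63 k43 5 (.s k21 k42 6 (.s k41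
  k61 5 (.d k22 k20 k60 0 6))))), (.s k87 k171 13 (.s k151 k215 7 (.s k103 k71 3 (.s k55 k199 11 (.s
  k247 k183 7 (.d k7 k39 k167 3 11))))))] (.c k20 (.l (.s k63 k43 5 (.s k87 k171 13 (.s k127 k191 7
  (.s k107 k67 5 (.d k151 k215 k195 7 13)))))) (.c k39 (.l (.s k87 k171 13 (.s k151 k215 7 (.s k51
  k187 9 (.s k103 k71 3 (.s k55 k199 11 (.d k63 k59 k43 1 5))))))) .n))) (.c k187 (.q k23 [(.s k1 k2
  0 (.s k63 k43 5 (.s k21 k42 6 (.s k41 k61 5 (.d k22 k20 k60 0 6))))), (.s k87 k171 13 (.s k151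
  k215 7 (.s k103 k71 3 (.s k55 k199 11 (.s k7 k39 3 (.d k247 k183 k167 7 11))))))] (.c k20 (.l (.s
  k63 k43 5 (.s k87 k171 13 (.s k127 k191 7 (.s k107 k67 5 (.d k151 k215 k195 7 13)))))) .n)) .n)))

def t85_113 : T TT 256 :=
  (.f k1 k2 0 (.q k19 [(.s k51 k35 3 (.s k17 k34 4 (.s k33 k49 3 (.d k18 k16 k48 0 4)))), (.s k87
  k171 13 (.s k223 k155 9 (.s k207 k239 3 (.s k69 k138 10 (.s k137 k205 9 (.s k70 k204 10 (.d k71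
  k139 k68 9 0)))))))] (.c k35 (.q k63 [(.s k21 k42 6 (.s k41 k61 5 (.s k22 k60 6 (.d k23 k20 k43 0
  5)))), (.s k23 k43 5 (.s k87 k171 13 (.s k127 k191 7 (.s k107 k67 5 (.d k151 k215 k195 7 13))))),
  (.s k21 k42 6 (.s k41 k61 5 (.s k22 k60 6 (.s k25 k28 2 (.s k9 k57 3 (.s k12 k6 2 (.d k29 k17 k46
  1 4)))))))] .n) .n)))

def t85_114 : T TT 256 :=
  (.q k119 [(.s k87 k171 13 (.s k51 k187 9 (.s k19 k35 3 (.s k103 k71 3 (.d k155 k223 k207 9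
  13))))), (.s k1 k2 0 (.s k51 k187 9 (.s k17 k34 4 (.s k33 k49 3 (.s k18 k48 4 (.d k19 k16 k35 0
  3)))))), (.s k1 k2 0 (.s k87 k171 13 (.s k71 k103 3 (.s k207 k139 9 (.s k69 k138 10 (.s k137 k205
  9 (.d k70 k68 k204 0 10)))))))] (.c k35 (.q k23 [(.s k1 k2 0 (.s k63 k43 5 (.s k21 k42 6 (.s k41
  k61 5 (.d k22 k20 k60 0 6))))), (.s k87 k171 13 (.s k151 k215 7 (.s k103 k71 3 (.s k55 k199 11 (.s
  k247 k183 7 (.d k7 k39 k167 3 11))))))] (.c k20 (.l (.s k63 k43 5 (.s k87 k171 13 (.s k127 k191 7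
  (.s k107 k67 5 (.d k151 k215 k195 7 13)))))) (.c k39 (.l (.s k87 k171 13 (.s k151 k215 7 (.s k51
  k187 9 (.s k103 k71 3 (.s k55 k199 11 (.d k63 k59 k43 1 5))))))) .n))) (.c k187 (.q k23 [(.s k1 k2
  0 (.s k63 k43 5 (.s k21 k42 6 (.s k41 k61 5 (.d k22 k20 k60 0 6))))), (.s k87 k171 13 (.s k151
  k215 7 (.s k103 k71 3 (.s k55 k199 11 (.s k7 k39 3 (.d k247 k183 k167 7 11))))))] (.c k20 (.l (.s
  k63 k43 5 (.s k87 k171 13 (.s k127 k191 7 (.s k107 k67 5 (.d k151 k215 k195 7 13)))))) .n)) .n)))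

def t85_115 : T TT 256 :=
  (.f k1 k2 0 (.q k19 [(.s k51 k35 3 (.s k17 k34 4 (.s k33 k49 3 (.d k18 k16 k48 0 4)))), (.s k87
  k171 13 (.s k223 k155 9 (.s k207 k239 3 (.s k69 k138 10 (.s k137 k205 9 (.s k70 k204 10 (.d k71
  k139 k68 9 0)))))))] (.c k35 (.q k63 [(.s k21 k42 6 (.s k41 k61 5 (.s k22 k60 6 (.d k23 k20 k43 0
  5)))), (.s k23 k43 5 (.s k87 k171 13 (.s k127 k191 7 (.s k107 k67 5 (.d k151 k215 k195 7 13))))),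
  (.s k21 k42 6 (.s k41 k61 5 (.s k22 k60 6 (.s k25 k28 2 (.s k9 k57 3 (.s k12 k6 2 (.d k29 k17 k46
  1 4)))))))] .n) .n)))

def t85_116 : T TT 256 :=
  (.q k119 [(.s k87 k171 13 (.s k51 k187 9 (.s k19 k35 3 (.s k155 k223 9 (.d k103 k71 k207 3
  13))))), (.s k1 k2 0 (.s k51 k187 9 (.s k17 k34 4 (.s k33 k49 3 (.s k18 k48 4 (.d k19 k16 k35 0
  3)))))), (.s k1 k2 0 (.s k87 k171 13 (.s k71 k103 3 (.s k207 k139 9 (.s k69 k138 10 (.s k137 k205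
  9 (.d k70 k68 k204 0 10)))))))] (.c k35 (.q k23 [(.s k1 k2 0 (.s k63 k43 5 (.s k21 k42 6 (.s k41
  k61 5 (.d k22 k20 k60 0 6))))), (.s k87 k171 13 (.s k151 k215 7 (.s k103 k71 3 (.s k55 k199 11 (.s
  k247 k183 7 (.d k7 k39 k167 3 11))))))] (.c k20 (.l (.s k63 k43 5 (.s k87 k171 13 (.s k127 k191 7
  (.s k107 k67 5 (.d k151 k215 k195 7 13)))))) (.c k39 (.l (.s k87 k171 13 (.s k151 k215 7 (.s k51
  k187 9 (.s k103 k71 3 (.s k55 k199 11 (.d k63 k59 k43 1 5))))))) .n))) (.c k187 (.q k23 [(.s k1 k2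
  0 (.s k63 k43 5 (.s k21 k42 6 (.s k41 k61 5 (.d k22 k20 k60 0 6))))), (.s k87 k171 13 (.s k151
  k215 7 (.s k103 k71 3 (.s k55 k199 11 (.s k7 k39 3 (.d k247 k183 k167 7 11))))))] (.c k20 (.l (.s
  k63 k43 5 (.s k87 k171 13 (.s k127 k191 7 (.s k107 k67 5 (.d k151 k215 k195 7 13)))))) .n)) .n)))

def t85_117 : T TT 256 :=
  (.q k69 [(.s k1 k2 0 (.s k138 k207 10 (.s k137 k205 9 (.s k204 k70 10 (.d k136 k139 k68 0 9))))),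
  (.s k207 k138 10 (.s k139 k71 9 (.s k171 k87 13 (.s k155 k187 3 (.s k103 k51 13 (.d k239 k223 k35
  3 9))))))] (.c k138 (.q k195 [(.s k1 k2 0 (.s k65 k130 8 (.s k129 k193 7 (.s k67 k131 7 (.d k66
  k64 k192 0 8))))), (.s k67 k131 7 (.s k87 k171 13 (.s k107 k127 5 (.s k151 k63 13 (.d k215 k235
  k23 5 7))))), (.s k1 k2 0 (.s k65 k130 8 (.s k137 k205 9 (.s k73 k77 1 (.s k9 k201 7 (.d k12 k134
  k6 10 2))))))] .n) (.c k139 (.l (.s k2 k1 0 (.s k138 k207 10 (.s k70 k206 9 (.s k204 k137 10 (.d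
  k68 k71 k136 0 9)))))) (.c k207 (.q k195 [(.s k1 k2 0 (.s k65 k130 8 (.s k129 k193 7 (.s k67 k131
  7 (.d k66 k64 k192 0 8))))), (.s k67 k131 7 (.s k87 k171 13 (.s k107 k127 5 (.s k151 k63 13 (.d
  k215 k235 k23 5 7))))), (.s k1 k2 0 (.s k65 k130 8 (.s k137 k205 9 (.s k204 k70 10 (.s k73 k77 1
  (.d k201 k198 k9 2 7))))))] (.c k79 (.q k143 [(.s k1 k2 0 (.s k65 k130 8 (.s k129 k193 7 (.s k67
  k131 7 (.d k66 k64 k192 0 8))))), (.s k67 k131 7 (.s k87 k171 13 (.s k107 k127 5 (.s k151 k63 13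
  (.d k215 k235 k23 5 7))))), (.s k1 k2 0 (.s k65 k130 8 (.s k137 k205 9 (.s k204 k70 10 (.s k73 k77
  1 (.d k201 k198 k9 2 7))))))] .n) (.c k143 (.q k79 [(.s k65 k130 8 (.s k64 k74 2 (.d k67 k66 k131
  0 7))), (.s k1 k2 0 (.s k137 k205 9 (.s k67 k131 7 (.s k71 k75 1 (.d k70 k204 k68 10 0))))), (.s
  k1 k2 0 (.s k65 k130 8 (.s k129 k193 7 (.s k64 k74 2 (.d k192 k66 k128 8 7)))))] .n) .n))) .n))))

def t85_118 : T TT 256 :=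
  (.f k1 k2 0 (.q k19 [(.s k51 k35 3 (.s k17 k34 4 (.s k33 k49 3 (.d k18 k16 k48 0 4)))), (.s k87
  k171 13 (.s k223 k155 9 (.s k207 k239 3 (.s k69 k138 10 (.s k137 k205 9 (.s k70 k204 10 (.d k71
  k139 k68 9 0)))))))] (.c k35 (.q k63 [(.s k21 k42 6 (.s k41 k61 5 (.s k22 k60 6 (.d k23 k20 k43 0
  5)))), (.s k23 k43 5 (.s k87 k171 13 (.s k127 k191 7 (.s k107 k67 5 (.d k151 k215 k195 7 13))))),
  (.s k21 k42 6 (.s k41 k61 5 (.s k22 k60 6 (.s k25 k28 2 (.s k9 k57 3 (.s k12 k6 2 (.d k29 k17 k46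
  1 4)))))))] .n) .n)))

def t85_119 : T TT 256 :=
  (.f k1 k2 0 (.f k87 k171 13 (.q k63 [(.s k23 k43 5 (.s k127 k191 7 (.s k107 k67 5 (.d k151 k215
  k195 7 13)))), (.s k21 k42 6 (.s k41 k61 5 (.s k22 k60 6 (.d k23 k20 k43 0 5))))] (.c k23 (.q k19
  [(.s k51 k35 3 (.s k17 k34 4 (.s k33 k49 3 (.d k18 k16 k48 0 4)))), (.s k21 k42 6 (.s k41 k61 5
  (.s k22 k60 6 (.s k25 k28 2 (.s k9 k57 3 (.s k12 k6 2 (.d k29 k17 k46 1 4))))))), (.s k223 k155 9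
  (.s k207 k239 3 (.s k69 k138 10 (.s k137 k205 9 (.s k70 k204 10 (.d k71 k68 k139 0 9))))))] (.c
  k68 (.q k102 [(.s k51 k35 3 (.s k17 k34 4 (.s k33 k49 3 (.d k18 k16 k48 0 4)))), (.s k21 k42 6 (.s
  k41 k61 5 (.s k22 k60 6 (.s k25 k28 2 (.s k9 k57 3 (.s k12 k6 2 (.d k29 k17 k46 1 4))))))), (.s
  k51 k35 3 (.s k155 k223 9 (.s k59 k55 1 (.s k107 k203 11 (.d k127 k67 k191 5 7)))))] (.c k51 (.l
  (.s k21 k42 6 (.s k41 k61 5 (.s k22 k60 6 (.s k25 k28 2 (.s k17 k29 1 (.s k33 k49 3 (.d k18 k48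
  k16 4 0)))))))) .n)) (.c k102 (.q k68 [(.s k223 k155 9 (.s k207 k239 3 (.s k69 k138 10 (.d k71 k70
  k139 0 9)))), (.s k51 k35 3 (.s k17 k34 4 (.s k33 k49 3 (.d k18 k16 k48 0 4)))), (.s k204 k136 9
  (.s k70 k137 10 (.s k223 k155 9 (.s k69 k71 0 (.d k207 k138 k239 10 3)))))] (.c k239 (.l (.s k155
  k223 9 (.s k127 k191 7 (.s k107 k67 5 (.s k59 k203 11 (.d k51 k55 k35 1 3)))))) .n)) .n))) (.c k43
  (.l (.s k21 k42 6 (.s k41 k61 5 (.s k22 k60 6 (.s k23 k20 0 (.s k127 k191 7 (.s k107 k67 5 (.d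
  k151 k215 k195 7 13)))))))) (.c k68 (.q k102 [(.s k23 k43 5 (.s k127 k191 7 (.s k107 k67 5 (.d
  k151 k215 k195 7 13)))), (.s k21 k42 6 (.s k41 k61 5 (.s k22 k60 6 (.d k23 k20 k43 0 5))))] (.c
  k23 (.q k19 [(.s k51 k35 3 (.s k17 k34 4 (.s k33 k49 3 (.d k18 k16 k48 0 4)))), (.s k21 k42 6 (.s
  k41 k61 5 (.s k22 k60 6 (.s k25 k28 2 (.s k9 k57 3 (.s k12 k6 2 (.d k29 k17 k46 1 4))))))), (.s
  k51 k35 3 (.s k155 k223 9 (.s k59 k55 1 (.s k107 k203 11 (.d k127 k67 k191 5 7)))))] (.c k51 (.l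
  (.s k21 k42 6 (.s k41 k61 5 (.s k22 k60 6 (.s k25 k28 2 (.s k17 k29 1 (.s k33 k49 3 (.d k18 k48
  k16 4 0)))))))) .n)) (.c k43 (.l (.s k21 k42 6 (.s k41 k61 5 (.s k22 k60 6 (.s k23 k20 0 (.s k127
  k191 7 (.s k107 k67 5 (.d k151 k215 k195 7 13)))))))) .n))) (.c k102 (.q k68 [(.s k23 k43 5 (.s
  k127 k191 7 (.s k107 k67 5 (.d k151 k215 k195 7 13)))), (.s k21 k42 6 (.s k204 k136 9 (.s k137 k70
  10 (.s k205 k69 9 (.s k157 k110 12 (.d k61 k41 k109 5 11))))))] .n) .n)))))))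

def t85_120 : T TT 256 :=
  (.f k87 k171 13 (.q k195 [(.s k67 k131 7 (.s k215 k235 5 (.s k151 k23 7 (.d k107 k127 k63 5
  13)))), (.s k1 k2 0 (.s k65 k130 8 (.s k129 k193 7 (.s k66 k192 8 (.d k67 k64 k131 0 7)))))] (.c
  k67 (.q k252 [(.s k1 k2 0 (.s k65 k130 8 (.s k193 k129 7 (.s k233 k214 6 (.d k253 k254 k213 0
  5))))), (.s k214 k233 6 (.s k215 k235 5 (.s k23 k151 7 (.s k212 k213 0 (.d k86 k149 k169 8
  14))))), (.s k86 k169 14 (.s k215 k235 5 (.s k23 k151 7 (.s k212 k149 8 (.s k213 k214 0 (.d k192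
  k232 k234 5 6))))))] (.c k131 (.l (.s k1 k2 0 (.s k65 k130 8 (.s k233 k214 6 (.s k253 k254 0 (.d
  k193 k129 k213 7 5)))))) (.c k213 (.l (.s k1 k2 0 (.s k65 k130 8 (.s k193 k129 7 (.s k194 k192 0
  (.s k214 k233 6 (.d k254 k253 k234 0 5))))))) (.c k214 (.l (.s k1 k2 0 (.s k65 k130 8 (.s k193
  k129 7 (.s k253 k254 0 (.s k213 k233 5 (.d k192 k194 k234 0 6))))))) (.c k253 (.l (.s k1 k2 0 (.s
  k86 k169 14 (.s k214 k233 6 (.s k215 k235 5 (.s k23 k151 7 (.d k212 k213 k149 0 8))))))) .n)))))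
  (.c k131 (.f k65 k130 8 (.l (.s k1 k2 0 (.s k129 k193 7 (.s k66 k192 8 (.s k67 k64 0 (.s k215 k235
  5 (.s k151 k23 7 (.d k107 k127 k63 5 13))))))))) .n))))

def t85_121 : T TT 256 :=
  (.q k69 [(.s k1 k2 0 (.s k138 k207 10 (.s k137 k205 9 (.s k204 k70 10 (.d k136 k139 k68 0 9))))),
  (.s k207 k138 10 (.s k139 k71 9 (.s k171 k87 13 (.s k155 k187 3 (.s k103 k51 13 (.d k239 k223 k35
  3 9))))))] (.c k138 (.q k195 [(.s k67 k131 7 (.s k87 k171 13 (.s k107 k127 5 (.s k151 k63 13 (.d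
  k215 k235 k23 5 7))))), (.s k1 k2 0 (.s k65 k130 8 (.s k137 k205 9 (.s k73 k77 1 (.s k9 k201 7 (.d
  k12 k134 k6 10 2))))))] .n) (.c k139 (.l (.s k2 k1 0 (.s k138 k207 10 (.s k70 k206 9 (.s k204 k137
  10 (.d k68 k71 k136 0 9)))))) (.c k207 (.q k195 [(.s k1 k2 0 (.s k65 k130 8 (.s k129 k193 7 (.s
  k67 k131 7 (.d k66 k64 k192 0 8))))), (.s k67 k131 7 (.s k87 k171 13 (.s k107 k127 5 (.s k151 k63
  13 (.d k215 k235 k23 5 7))))), (.s k1 k2 0 (.s k65 k130 8 (.s k137 k205 9 (.s k204 k70 10 (.s k73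
  k77 1 (.d k201 k198 k9 2 7))))))] (.c k79 (.q k143 [(.s k1 k2 0 (.s k65 k130 8 (.s k129 k193 7 (.s
  k67 k131 7 (.d k66 k64 k192 0 8))))), (.s k67 k131 7 (.s k87 k171 13 (.s k107 k127 5 (.s k151 k63
  13 (.d k215 k235 k23 5 7))))), (.s k1 k2 0 (.s k65 k130 8 (.s k137 k205 9 (.s k204 k70 10 (.s k73
  k77 1 (.d k201 k198 k9 2 7))))))] .n) (.c k143 (.q k79 [(.s k65 k130 8 (.s k64 k74 2 (.d k67 k66
  k131 0 7))), (.s k1 k2 0 (.s k137 k205 9 (.s k67 k131 7 (.s k71 k75 1 (.d k70 k204 k68 10 0))))),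
  (.s k1 k2 0 (.s k65 k130 8 (.s k129 k193 7 (.s k64 k74 2 (.d k192 k66 k128 8 7)))))] .n) .n)))
  .n))))

def t85_122 : T TT 256 :=
  (.q k69 [(.s k1 k2 0 (.s k138 k207 10 (.s k137 k205 9 (.s k204 k70 10 (.d k136 k139 k68 0 9))))),
  (.s k207 k138 10 (.s k139 k71 9 (.s k171 k87 13 (.s k155 k187 3 (.s k103 k51 13 (.d k239 k223 k35
  3 9))))))] (.c k138 (.q k195 [(.s k1 k2 0 (.s k65 k130 8 (.s k129 k193 7 (.s k67 k131 7 (.d k66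
  k64 k192 0 8))))), (.s k67 k131 7 (.s k87 k171 13 (.s k107 k127 5 (.s k151 k63 13 (.d k215 k235
  k23 5 7))))), (.s k1 k2 0 (.s k65 k130 8 (.s k137 k205 9 (.s k73 k77 1 (.s k9 k201 7 (.d k12 k134
  k6 10 2))))))] .n) (.c k139 (.l (.s k2 k1 0 (.s k138 k207 10 (.s k70 k206 9 (.s k204 k137 10 (.d
  k68 k71 k136 0 9)))))) (.c k207 (.q k195 [(.s k1 k2 0 (.s k65 k130 8 (.s k129 k193 7 (.s k67 k131
  7 (.d k66 k64 k192 0 8))))), (.s k67 k131 7 (.s k87 k171 13 (.s k107 k127 5 (.s k151 k63 13 (.d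
  k215 k235 k23 5 7))))), (.s k1 k2 0 (.s k65 k130 8 (.s k137 k205 9 (.s k204 k70 10 (.s k73 k77 1
  (.d k201 k198 k9 2 7))))))] (.c k79 (.q k143 [(.s k1 k2 0 (.s k65 k130 8 (.s k129 k193 7 (.s k67
  k131 7 (.d k66 k64 k192 0 8))))), (.s k67 k131 7 (.s k87 k171 13 (.s k107 k127 5 (.s k151 k63 13
  (.d k215 k235 k23 5 7))))), (.s k1 k2 0 (.s k65 k130 8 (.s k137 k205 9 (.s k204 k70 10 (.s k73 k77
  1 (.d k201 k198 k9 2 7))))))] .n) (.c k143 (.q k79 [(.s k65 k130 8 (.s k67 k131 7 (.d k64 k66 k74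
  0 2))), (.s k1 k2 0 (.s k137 k205 9 (.s k67 k131 7 (.s k71 k75 1 (.d k70 k204 k68 10 0))))), (.s
  k1 k2 0 (.s k65 k130 8 (.s k129 k193 7 (.s k64 k74 2 (.d k192 k66 k128 8 7)))))] .n) .n))) .n))))

def t85_123 : T TT 256 :=
  (.f k87 k171 13 (.q k195 [(.s k67 k131 7 (.s k215 k235 5 (.s k151 k23 7 (.d k107 k127 k63 5
  13)))), (.s k1 k2 0 (.s k65 k130 8 (.s k129 k193 7 (.s k66 k192 8 (.d k67 k64 k131 0 7)))))] (.c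
  k67 (.q k252 [(.s k1 k2 0 (.s k65 k130 8 (.s k193 k129 7 (.s k233 k214 6 (.d k253 k254 k213 0
  5))))), (.s k214 k233 6 (.s k215 k235 5 (.s k23 k151 7 (.s k212 k213 0 (.d k86 k149 k169 8
  14))))), (.s k86 k169 14 (.s k215 k235 5 (.s k23 k151 7 (.s k212 k149 8 (.s k213 k214 0 (.d k192
  k232 k234 5 6))))))] (.c k131 (.l (.s k1 k2 0 (.s k65 k130 8 (.s k233 k214 6 (.s k253 k254 0 (.d
  k193 k129 k213 7 5)))))) (.c k213 (.l (.s k1 k2 0 (.s k65 k130 8 (.s k193 k129 7 (.s k194 k192 0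
  (.s k214 k233 6 (.d k254 k253 k234 0 5))))))) (.c k214 (.l (.s k1 k2 0 (.s k65 k130 8 (.s k193
  k129 7 (.s k253 k254 0 (.s k213 k233 5 (.d k192 k194 k234 0 6))))))) (.c k253 (.l (.s k1 k2 0 (.s
  k86 k169 14 (.s k214 k233 6 (.s k215 k235 5 (.s k23 k151 7 (.d k212 k213 k149 0 8))))))) .n)))))
  (.c k131 (.f k65 k130 8 (.l (.s k1 k2 0 (.s k129 k193 7 (.s k66 k192 8 (.s k67 k64 0 (.s k215 k235
  5 (.s k151 k23 7 (.d k107 k127 k63 5 13))))))))) .n))))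

def t85_124 : T TT 256 :=
  (.f k1 k2 0 (.f k87 k171 13 (.q k63 [(.s k21 k42 6 (.s k41 k61 5 (.s k23 k43 5 (.d k22 k20 k60 0
  6)))), (.s k23 k43 5 (.s k127 k191 7 (.s k107 k67 5 (.d k151 k215 k195 7 13)))), (.s k21 k42 6 (.s
  k41 k61 5 (.s k22 k60 6 (.d k23 k20 k43 0 5))))] (.c k23 (.q k19 [(.s k51 k35 3 (.s k119 k187 9
  (.s k103 k71 3 (.d k155 k223 k207 9 13)))), (.s k21 k42 6 (.s k41 k61 5 (.s k22 k60 6 (.s k25 k28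
  2 (.s k9 k57 3 (.s k12 k6 2 (.d k29 k17 k46 1 4)))))))] (.c k51 (.l (.s k223 k155 9 (.s k207 k239
  3 (.s k69 k138 10 (.s k137 k205 9 (.s k70 k204 10 (.d k71 k139 k68 9 0))))))) .n)) (.c k43 (.l (.s
  k21 k42 6 (.s k41 k61 5 (.s k22 k60 6 (.s k23 k20 0 (.s k127 k191 7 (.s k107 k67 5 (.d k151 k215
  k195 7 13)))))))) .n)))))

def t85_125 : T TT 256 :=
  (.q k195 [(.s k1 k2 0 (.s k65 k130 8 (.s k129 k193 7 (.s k67 k131 7 (.d k66 k64 k192 0 8))))), (.s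
  k67 k131 7 (.s k87 k171 13 (.s k215 k235 5 (.s k151 k23 7 (.d k107 k127 k63 5 13)))))] (.c k65 (.q
  k105 [(.s k235 k215 5 (.s k40 k170 8 (.d k60 k20 k150 5 14))), (.s k2 k1 0 (.s k67 k131 7 (.s k86
  k124 6 (.s k254 k170 13 (.d k252 k253 k169 0 14)))))] (.c k170 (.l (.s k67 k131 7 (.s k87 k171 13
  (.s k107 k127 5 (.s k151 k63 13 (.d k215 k235 k23 5 7)))))) .n)) (.c k67 (.q k105 [(.s k235 k215 5
  (.s k40 k170 8 (.d k60 k20 k150 5 14))), (.s k1 k2 0 (.s k65 k130 8 (.s k193 k129 7 (.s k60 k150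
  14 (.s k41 k22 6 (.d k61 k21 k149 5 13))))))] (.c k20 (.l (.s k130 k65 8 (.s k150 k60 14 (.s k170
  k190 5 (.d k235 k215 k40 5 8))))) (.c k60 (.l (.s k2 k1 0 (.s k171 k87 13 (.s k235 k215 5 (.s k170
  k40 8 (.s k86 k254 13 (.d k169 k168 k252 0 14))))))) (.c k150 (.q k20 [(.s k235 k215 5 (.d k40 k60
  k170 5 8)), (.s k87 k171 13 (.s k215 k235 5 (.s k23 k151 7 (.s k21 k22 0 (.d k63 k43 k42 5 6))))),
  (.s k2 k1 0 (.s k60 k40 5 (.s k22 k41 6 (.s k42 k62 5 (.d k21 k23 k63 0 6)))))] .n) (.c k170 (.l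
  (.s k1 k2 0 (.s k60 k150 14 (.s k41 k22 6 (.s k21 k61 5 (.s k42 k63 6 (.d k40 k20 k43 5 0)))))))
  (.c k215 (.l (.s k2 k1 0 (.s k60 k150 14 (.s k20 k40 5 (.s k22 k41 6 (.s k42 k62 5 (.d k21 k23 k63
  0 6))))))) .n)))))) (.c k105 (.l (.s k65 k130 8 (.s k1 k2 0 (.s k129 k193 7 (.s k66 k192 8 (.d k67
  k64 k131 0 7)))))) (.c k131 (.q k69 [(.s k1 k2 0 (.s k138 k207 10 (.s k137 k205 9 (.s k204 k70 10
  (.d k136 k139 k68 0 9))))), (.s k65 k130 8 (.s k138 k207 10 (.s k73 k77 1 (.s k8 k203 8 (.d k12 k4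
  k134 1 10))))), (.s k1 k2 0 (.s k65 k130 8 (.s k137 k205 9 (.s k73 k77 1 (.s k9 k201 7 (.d k12 k6
  k134 2 10))))))] (.c k65 (.q k105 [(.s k235 k215 5 (.s k40 k170 8 (.d k60 k20 k150 5 14))), (.s k1
  k2 0 (.s k138 k207 10 (.s k137 k205 9 (.s k204 k70 10 (.d k136 k139 k68 0 9)))))] .n) (.c k105 (.l
  (.s k65 k130 8 (.s k138 k207 10 (.s k73 k77 1 (.s k8 k203 8 (.d k12 k4 k134 1 10)))))) .n)))
  .n)))))

def t85_126 : T TT 256 :=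
  (.f k1 k2 0 (.f k87 k171 13 (.q k63 [(.s k23 k43 5 (.s k127 k191 7 (.s k107 k67 5 (.d k151 k215
  k195 7 13)))), (.s k21 k42 6 (.s k41 k61 5 (.s k22 k60 6 (.d k23 k20 k43 0 5))))] (.c k23 (.q k19
  [(.s k51 k35 3 (.s k119 k187 9 (.s k103 k71 3 (.d k155 k223 k207 9 13)))), (.s k21 k42 6 (.s k41
  k61 5 (.s k22 k60 6 (.s k25 k28 2 (.s k9 k57 3 (.s k12 k6 2 (.d k29 k17 k46 1 4)))))))] (.c k51
  (.l (.s k223 k155 9 (.s k207 k239 3 (.s k69 k138 10 (.s k137 k205 9 (.s k70 k204 10 (.d k71 k139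
  k68 9 0))))))) .n)) (.c k43 (.l (.s k21 k42 6 (.s k41 k61 5 (.s k22 k60 6 (.s k23 k20 0 (.s k127
  k191 7 (.s k107 k67 5 (.d k151 k215 k195 7 13)))))))) .n)))))

def t85_127 : T TT 256 :=
  (.f k1 k2 0 (.q k19 [(.s k51 k35 3 (.s k17 k34 4 (.s k33 k49 3 (.d k18 k16 k48 0 4)))), (.s k87
  k171 13 (.s k223 k155 9 (.s k207 k239 3 (.s k69 k138 10 (.s k137 k205 9 (.s k70 k204 10 (.d k71
  k139 k68 9 0)))))))] (.c k35 (.q k63 [(.s k21 k42 6 (.s k41 k61 5 (.s k22 k60 6 (.d k23 k20 k43 0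
  5)))), (.s k23 k43 5 (.s k87 k171 13 (.s k31 k27 1 (.s k223 k155 9 (.s k159 k95 7 (.d k207 k239
  k111 3 11)))))), (.s k21 k42 6 (.s k41 k61 5 (.s k22 k60 6 (.s k25 k28 2 (.s k9 k57 3 (.s k12 k6 2
  (.d k29 k17 k46 1 4)))))))] (.c k64 (.q k106 [(.s k42 k21 6 (.s k234 k170 7 (.d k192 k213 k149 6
  14))), (.s k21 k42 6 (.s k41 k61 5 (.s k22 k60 6 (.d k23 k20 k43 0 5)))), (.s k23 k43 5 (.s k149
  k192 14 (.s k86 k212 8 (.s k252 k169 14 (.d k126 k66 k189 5 8)))))] .n) (.c k106 (.q k64 [(.s k21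
  k42 6 (.s k41 k61 5 (.s k22 k60 6 (.d k23 k20 k43 0 5)))), (.s k23 k43 5 (.s k87 k171 13 (.s k31
  k27 1 (.s k223 k155 9 (.s k159 k95 7 (.d k207 k239 k111 3 11)))))), (.s k21 k42 6 (.s k41 k61 5
  (.s k22 k60 6 (.s k25 k28 2 (.s k9 k57 3 (.s k12 k6 2 (.d k29 k17 k46 1 4)))))))] .n) .n))) (.c
  k64 (.q k106 [(.s k51 k35 3 (.s k17 k34 4 (.s k33 k49 3 (.d k18 k16 k48 0 4)))), (.s k87 k171 13
  (.s k223 k155 9 (.s k207 k239 3 (.s k69 k138 10 (.s k137 k205 9 (.s k70 k204 10 (.d k71 k139 k68 9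
  0)))))))] (.c k35 (.q k63 [(.s k42 k21 6 (.s k234 k170 7 (.d k192 k213 k149 6 14))), (.s k21 k42 6
  (.s k41 k61 5 (.s k22 k60 6 (.d k23 k20 k43 0 5)))), (.s k23 k43 5 (.s k149 k192 14 (.s k86 k212 8
  (.s k252 k169 14 (.d k126 k66 k189 5 8)))))] .n) .n)) (.c k106 (.q k64 [(.s k51 k35 3 (.s k17 k34
  4 (.s k33 k49 3 (.d k18 k16 k48 0 4)))), (.s k192 k128 7 (.s k87 k171 13 (.s k223 k155 9 (.s k213
  k234 6 (.s k208 k218 2 (.s k82 k145 8 (.d k240 k224 k161 3 12)))))))] .n) .n)))))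

def t85_128 : T TT 256 :=
  (.f k87 k171 13 (.q k195 [(.s k215 k235 5 (.s k151 k23 7 (.s k107 k63 13 (.d k67 k127 k131 5
  7)))), (.s k1 k2 0 (.s k65 k130 8 (.s k129 k193 7 (.s k66 k192 8 (.d k67 k131 k64 7 0)))))] (.c
  k67 (.q k41 [(.s k1 k2 0 (.s k21 k61 5 (.s k42 k63 6 (.s k60 k22 6 (.d k40 k43 k20 0 5))))), (.s
  k22 k60 6 (.s k215 k235 5 (.s k23 k151 7 (.s k21 k20 0 (.d k63 k43 k42 5 6))))), (.s k1 k2 0 (.s
  k21 k61 5 (.s k215 k235 5 (.s k23 k151 7 (.d k63 k43 k42 5 6))))), (.s k1 k2 0 (.s k21 k61 5 (.s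
  k22 k60 6 (.s k23 k20 0 (.d k215 k235 k151 5 7)))))] (.c k21 (.l (.s k60 k22 6 (.s k215 k235 5 (.s
  k40 k20 5 (.s k23 k151 7 (.d k43 k42 k63 0 5)))))) (.c k63 (.l (.s k1 k2 0 (.s k21 k61 5 (.s k215
  k235 5 (.s k23 k151 7 (.d k22 k60 k20 6 0)))))) .n))) (.c k131 (.q k63 [(.s k23 k43 5 (.d k151
  k107 k215 13 7)), (.s k1 k2 0 (.s k65 k130 8 (.s k129 k193 7 (.s k66 k192 8 (.s k67 k64 0 (.d k107
  k127 k151 5 13))))))] (.c k107 (.l (.s k1 k2 0 (.s k21 k42 6 (.s k41 k61 5 (.s k22 k60 6 (.d k23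
  k20 k43 0 5)))))) (.c k129 (.l (.s k130 k65 8 (.s k23 k43 5 (.d k151 k107 k215 13 7)))) (.c k130
  (.q k129 [(.s k23 k43 5 (.d k151 k107 k215 13 7)), (.s k1 k2 0 (.s k193 k65 7 (.d k192 k194 k66 0
  8)))] (.c k151 (.l (.s k191 k127 7 (.s k1 k2 0 (.s k193 k65 7 (.d k192 k194 k66 0 8))))) (.c k191
  (.l (.s k151 k107 13 (.d k23 k43 k215 5 7))) .n))) (.c k151 (.l (.s k191 k127 7 (.s k1 k2 0 (.s
  k21 k42 6 (.s k41 k61 5 (.s k22 k60 6 (.d k23 k20 k43 0 5))))))) (.c k191 (.l (.s k151 k107 13 (.d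
  k23 k43 k215 5 7))) .n)))))) .n))))

def t85_129 : T TT 256 :=
  (.f k1 k2 0 (.q k19 [(.s k51 k35 3 (.s k17 k34 4 (.s k33 k49 3 (.d k18 k16 k48 0 4)))), (.s k87
  k171 13 (.s k223 k155 9 (.s k207 k239 3 (.s k69 k138 10 (.s k137 k205 9 (.s k70 k204 10 (.d k71
  k139 k68 9 0)))))))] (.c k35 (.q k63 [(.s k21 k42 6 (.s k41 k61 5 (.s k22 k60 6 (.d k23 k20 k43 0
  5)))), (.s k23 k43 5 (.s k87 k171 13 (.s k127 k191 7 (.s k107 k67 5 (.d k151 k215 k195 7 13))))),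
  (.s k21 k42 6 (.s k41 k61 5 (.s k22 k60 6 (.s k25 k28 2 (.s k9 k57 3 (.s k12 k6 2 (.d k29 k17 k46
  1 4)))))))] .n) .n)))

def t85_130 : T TT 256 :=
  (.f k87 k171 13 (.q k63 [(.s k23 k43 5 (.s k127 k191 7 (.s k107 k67 5 (.d k151 k215 k195 7 13)))),
  (.s k1 k2 0 (.s k21 k42 6 (.s k41 k61 5 (.s k22 k60 6 (.d k23 k20 k43 0 5)))))] (.c k23 (.q k41
  [(.s k21 k42 6 (.d k1 k2 k61 0 5)), (.s k42 k21 6 (.s k40 k43 0 (.d k60 k20 k22 5 6)))] (.c k21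
  (.l (.s k60 k22 6 (.s k20 k40 5 (.s k61 k62 0 (.s k125 k190 8 (.s k189 k253 7 (.s k126 k252 8 (.d
  k127 k124 k191 0 7)))))))) (.c k42 (.l (.s k1 k2 0 (.s k61 k21 5 (.d k60 k62 k22 0 6)))) .n))) (.c
  k43 (.q k107 [(.d k127 k67 k191 5 7), (.s k1 k2 0 (.s k21 k42 6 (.s k41 k61 5 (.s k22 k60 6 (.s
  k23 k20 0 (.d k151 k215 k195 7 13))))))] .n) .n))))

def t85_131 : T TT 256 :=
  (.f k1 k2 0 (.q k19 [(.s k51 k35 3 (.s k17 k34 4 (.s k33 k49 3 (.d k18 k16 k48 0 4)))), (.s k87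
  k171 13 (.s k223 k155 9 (.s k207 k239 3 (.s k69 k138 10 (.s k137 k205 9 (.s k70 k204 10 (.d k71
  k139 k68 9 0)))))))] (.c k35 (.q k63 [(.s k21 k42 6 (.s k41 k61 5 (.s k22 k60 6 (.d k23 k20 k43 0
  5)))), (.s k23 k43 5 (.s k87 k171 13 (.s k151 k215 7 (.s k107 k195 13 (.d k127 k191 k67 7 5))))),
  (.s k21 k42 6 (.s k41 k61 5 (.s k22 k60 6 (.s k25 k28 2 (.s k9 k57 3 (.s k12 k6 2 (.d k29 k17 k46
  1 4)))))))] .n) .n)))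

def t85_132 : T TT 256 :=
  (.f k1 k2 0 (.q k19 [(.s k51 k35 3 (.s k17 k34 4 (.s k33 k49 3 (.d k18 k16 k48 0 4)))), (.s k87
  k171 13 (.s k223 k155 9 (.s k207 k239 3 (.s k69 k138 10 (.s k137 k205 9 (.s k70 k204 10 (.d k71
  k139 k68 9 0)))))))] (.c k35 (.q k63 [(.s k21 k42 6 (.s k41 k61 5 (.s k22 k60 6 (.d k23 k20 k43 0
  5)))), (.s k23 k43 5 (.s k87 k171 13 (.s k127 k191 7 (.s k107 k67 5 (.d k151 k215 k195 7 13))))),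
  (.s k21 k42 6 (.s k41 k61 5 (.s k22 k60 6 (.s k25 k28 2 (.s k9 k57 3 (.s k12 k6 2 (.d k29 k17 k46
  1 4)))))))] .n) .n)))

def t85_133 : T TT 256 :=
  (.q k51 [(.s k1 k2 0 (.s k17 k34 4 (.s k33 k49 3 (.s k19 k35 3 (.d k18 k16 k48 0 4))))), (.s k19
  k35 3 (.s k87 k171 13 (.s k155 k223 9 (.s k103 k207 13 (.d k119 k71 k187 3 9)))))] (.c k16 (.l (.s
  k2 k1 0 (.s k34 k17 4 (.s k18 k50 3 (.s k33 k48 4 (.d k35 k19 k32 3 0)))))) (.c k19 (.q k192 [(.s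
  k17 k34 4 (.s k128 k64 7 (.s k145 k98 12 (.s k81 k209 7 (.d k162 k179 k243 4 12))))), (.s k1 k2 0
  (.s k129 k66 8 (.s k65 k193 7 (.s k130 k195 8 (.d k128 k131 k64 0 7))))), (.s k1 k2 0 (.s k17 k34
  4 (.s k49 k33 3 (.s k129 k66 8 (.s k145 k98 12 (.d k193 k65 k97 7 11))))))] .n) (.c k35 (.q k192
  [(.s k1 k2 0 (.s k128 k64 7 (.s k129 k66 8 (.s k130 k131 0 (.d k65 k193 k195 7 8))))), (.s k17 k34
  4 (.s k128 k64 7 (.s k145 k98 12 (.s k81 k209 7 (.d k162 k179 k243 4 12))))), (.s k1 k2 0 (.s k17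
  k34 4 (.s k129 k66 8 (.s k145 k98 12 (.s k81 k209 7 (.d k161 k177 k241 3 11))))))] .n) (.c k74 (.q
  k192 [(.s k1 k2 0 (.s k17 k34 4 (.s k33 k49 3 (.s k19 k35 3 (.d k18 k16 k48 0 4))))), (.s k17 k34
  4 (.s k128 k64 7 (.s k145 k98 12 (.s k81 k209 7 (.d k162 k179 k243 4 12))))), (.s k1 k2 0 (.s k128
  k64 7 (.s k129 k66 8 (.s k65 k193 7 (.d k130 k131 k195 0 8)))))] .n) (.c k192 (.q k74 [(.s k1 k2 0
  (.s k17 k34 4 (.s k33 k49 3 (.s k19 k35 3 (.d k18 k16 k48 0 4))))), (.s k19 k35 3 (.s k87 k171 13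
  (.s k155 k223 9 (.s k103 k207 13 (.d k119 k71 k187 3 9)))))] (.c k16 (.l (.s k2 k1 0 (.s k34 k17 4
  (.s k18 k50 3 (.s k33 k48 4 (.d k35 k19 k32 3 0)))))) (.c k19 (.q k195 [(.s k67 k131 7 (.s k87
  k171 13 (.s k107 k127 5 (.s k215 k235 5 (.d k151 k23 k63 7 13))))), (.s k1 k2 0 (.s k17 k34 4 (.s
  k65 k130 8 (.s k49 k33 3 (.s k193 k129 7 (.s k97 k145 11 (.d k48 k50 k146 0 12)))))))] (.c k131
  (.l (.s k2 k1 0 (.s k130 k65 8 (.s k194 k66 7 (.s k134 k14 9 (.s k138 k142 1 (.s k206 k70 9 (.d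
  k202 k198 k10 1 7)))))))) .n)) (.c k35 (.q k195 [(.s k67 k131 7 (.s k87 k171 13 (.s k215 k235 5
  (.s k151 k23 7 (.d k107 k127 k63 5 13))))), (.s k2 k1 0 (.s k34 k17 4 (.s k130 k65 8 (.s k50 k18 3
  (.s k194 k66 7 (.s k146 k98 11 (.d k48 k49 k97 0 12)))))))] (.c k67 (.l (.s k87 k171 13 (.s k99
  k147 11 (.s k119 k187 9 (.s k103 k71 3 (.s k107 k111 1 (.s k151 k63 13 (.d k215 k235 k23 5
  7)))))))) .n)) .n)))) .n))))))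

def t85_134 : T TT 256 :=
  (.f k1 k2 0 (.q k19 [(.s k51 k35 3 (.s k17 k34 4 (.s k33 k49 3 (.d k18 k16 k48 0 4)))), (.s k87
  k171 13 (.s k223 k155 9 (.s k207 k239 3 (.s k69 k138 10 (.s k137 k205 9 (.s k70 k204 10 (.d k71
  k139 k68 9 0)))))))] (.c k35 (.q k63 [(.s k21 k42 6 (.s k41 k61 5 (.s k22 k60 6 (.d k23 k20 k43 0
  5)))), (.s k23 k43 5 (.s k87 k171 13 (.s k127 k191 7 (.s k107 k67 5 (.d k151 k215 k195 7 13))))),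
  (.s k21 k42 6 (.s k41 k61 5 (.s k22 k60 6 (.s k25 k28 2 (.s k9 k57 3 (.s k12 k6 2 (.d k29 k17 k46
  1 4)))))))] .n) .n)))

def t85_135 : T TT 256 :=
  (.f k87 k171 13 (.q k195 [(.s k215 k235 5 (.s k151 k23 7 (.s k107 k63 13 (.d k67 k127 k131 5
  7)))), (.s k1 k2 0 (.s k65 k130 8 (.s k129 k193 7 (.s k66 k192 8 (.d k67 k64 k131 0 7)))))] (.c
  k67 (.q k63 [(.s k23 k43 5 (.d k151 k107 k215 13 7)), (.s k1 k2 0 (.s k21 k42 6 (.s k65 k130 8 (.s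
  k61 k41 5 (.s k193 k129 7 (.s k105 k149 13 (.d k60 k62 k150 0 14)))))))] (.c k43 (.l (.s k1 k2 0
  (.s k21 k42 6 (.s k41 k61 5 (.s k22 k60 6 (.s k23 k20 0 (.d k151 k215 k107 7 13))))))) .n)) (.c
  k131 (.f k65 k130 8 (.l (.s k1 k2 0 (.s k129 k193 7 (.s k66 k192 8 (.s k67 k64 0 (.s k215 k235 5
  (.s k151 k23 7 (.d k107 k127 k63 5 13))))))))) .n))))

def t85_136 : T TT 256 :=
  (.f k1 k2 0 (.q k19 [(.s k51 k35 3 (.s k17 k34 4 (.s k33 k49 3 (.d k18 k16 k48 0 4)))), (.s k87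
  k171 13 (.s k223 k155 9 (.s k207 k239 3 (.s k69 k138 10 (.s k137 k205 9 (.s k70 k204 10 (.d k71
  k139 k68 9 0)))))))] (.c k35 (.q k63 [(.s k21 k42 6 (.s k41 k61 5 (.s k22 k60 6 (.d k23 k20 k43 0
  5)))), (.s k23 k43 5 (.s k87 k171 13 (.s k127 k191 7 (.s k107 k67 5 (.d k151 k215 k195 7 13))))),
  (.s k21 k42 6 (.s k41 k61 5 (.s k22 k60 6 (.s k25 k28 2 (.s k9 k57 3 (.s k12 k6 2 (.d k29 k17 k46
  1 4)))))))] .n) .n)))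

def t85_137 : T TT 256 :=
  (.f k87 k171 13 (.q k195 [(.s k215 k235 5 (.s k151 k23 7 (.s k107 k63 13 (.d k67 k127 k131 5
  7)))), (.s k1 k2 0 (.s k65 k130 8 (.s k129 k193 7 (.s k66 k192 8 (.d k67 k64 k131 0 7)))))] (.c
  k67 (.q k63 [(.s k23 k43 5 (.d k151 k107 k215 13 7)), (.s k1 k2 0 (.s k21 k42 6 (.s k65 k130 8 (.s
  k61 k41 5 (.s k193 k129 7 (.s k105 k149 13 (.d k60 k62 k150 0 14)))))))] (.c k43 (.l (.s k1 k2 0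
  (.s k21 k42 6 (.s k41 k61 5 (.s k22 k60 6 (.s k23 k20 0 (.d k151 k215 k107 7 13))))))) .n)) (.c
  k131 (.f k65 k130 8 (.l (.s k1 k2 0 (.s k129 k193 7 (.s k66 k192 8 (.s k67 k64 0 (.s k215 k235 5
  (.s k151 k23 7 (.d k107 k127 k63 5 13))))))))) .n))))

def t85_138 : T TT 256 :=
  (.f k87 k171 13 (.q k67 [(.s k195 k131 7 (.s k215 k235 5 (.s k151 k23 7 (.d k107 k127 k63 5
  13)))), (.s k1 k2 0 (.s k195 k131 7 (.s k65 k130 8 (.s k129 k193 7 (.d k66 k64 k192 0 8)))))] (.c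
  k131 (.q k63 [(.d k127 k191 k107 7 5), (.s k1 k2 0 (.s k21 k42 6 (.s k41 k61 5 (.s k22 k60 6 (.d
  k23 k20 k43 0 5)))))] (.c k151 (.l (.s k191 k127 7 (.s k1 k2 0 (.s k21 k42 6 (.s k41 k61 5 (.s k22
  k60 6 (.d k23 k20 k43 0 5))))))) (.c k191 (.q k151 [(.d k23 k43 k215 5 7), (.d k107 k127 k195 5
  13)] .n) .n))) (.c k151 (.l (.s k1 k2 0 (.s k127 k107 5 (.s k195 k131 7 (.s k191 k63 7 (.s k65
  k130 8 (.s k129 k193 7 (.d k66 k64 k192 0 8)))))))) (.c k191 (.l (.s k107 k127 5 (.s k195 k131 7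
  (.s k151 k63 13 (.d k215 k235 k23 5 7))))) (.c k195 (.l (.s k1 k2 0 (.s k127 k107 5 (.s k63 k191 7
  (.s k21 k42 6 (.s k41 k61 5 (.s k22 k60 6 (.d k23 k43 k20 5 0)))))))) .n))))))

def t85_139 : T TT 256 :=
  (.q k195 [(.s k1 k2 0 (.s k65 k130 8 (.s k129 k193 7 (.s k66 k192 8 (.d k67 k64 k131 0 7))))), (.s
  k67 k131 7 (.s k87 k171 13 (.s k107 k127 5 (.s k151 k63 13 (.d k215 k235 k23 5 7)))))] (.c k64 (.l
  (.s k2 k1 0 (.s k130 k65 8 (.s k66 k194 7 (.s k129 k192 8 (.d k131 k67 k128 7 0)))))) (.c k67 (.q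
  k63 [(.s k23 k43 5 (.s k151 k107 13 (.d k87 k171 k215 13 7))), (.s k1 k2 0 (.s k21 k42 6 (.s k65
  k130 8 (.s k61 k41 5 (.s k193 k129 7 (.s k105 k149 13 (.d k60 k62 k150 0 14)))))))] (.c k43 (.l
  (.s k1 k2 0 (.s k21 k42 6 (.s k41 k61 5 (.s k22 k60 6 (.s k87 k171 13 (.s k23 k20 0 (.d k151 k215
  k107 7 13)))))))) .n)) (.c k131 (.f k87 k171 13 (.f k65 k130 8 (.l (.s k1 k2 0 (.s k129 k193 7 (.s
  k66 k192 8 (.s k67 k64 0 (.s k215 k235 5 (.s k151 k23 7 (.d k107 k127 k63 5 13)))))))))) .n))))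

def t85_140 : T TT 256 :=
  (.f k87 k171 13 (.f k1 k2 0 (.q k63 [(.s k21 k42 6 (.s k41 k61 5 (.s k22 k60 6 (.d k23 k20 k43 0
  5)))), (.s k23 k43 5 (.s k127 k191 7 (.s k107 k67 5 (.d k151 k215 k195 7 13))))] (.c k23 (.q k67
  [(.d k127 k107 k191 5 7), (.s k195 k131 7 (.s k65 k130 8 (.s k129 k193 7 (.d k66 k64 k192 0 8))))]
  (.c k191 (.l (.s k107 k127 5 (.d k195 k131 k151 7 13))) .n)) (.c k43 (.l (.s k21 k42 6 (.s k41 k61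
  5 (.s k22 k60 6 (.s k23 k20 0 (.s k127 k191 7 (.s k107 k67 5 (.d k151 k215 k195 7 13))))))))
  .n)))))

def t85_141 : T TT 256 :=
  (.f k1 k2 0 (.f k87 k171 13 (.q k63 [(.s k23 k43 5 (.s k127 k191 7 (.s k107 k67 5 (.d k151 k215
  k195 7 13)))), (.s k21 k42 6 (.s k41 k61 5 (.s k22 k60 6 (.d k23 k20 k43 0 5))))] (.c k23 (.q k204
  [(.s k137 k70 10 (.s k69 k205 9 (.s k138 k207 10 (.d k136 k139 k68 0 9)))), (.s k110 k157 12 (.s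
  k127 k191 7 (.s k93 k76 4 (.s k174 k12 12 (.d k238 k221 k46 4 7)))))] (.c k13 (.l (.s k136 k68 9
  (.s k137 k70 10 (.s k138 k139 0 (.d k69 k205 k207 9 10))))) .n)) (.c k43 (.l (.s k21 k42 6 (.s k41
  k61 5 (.s k22 k60 6 (.s k23 k20 0 (.s k127 k191 7 (.s k107 k67 5 (.d k151 k215 k195 7 13))))))))
  (.c k78 (.q k204 [(.s k21 k42 6 (.s k41 k61 5 (.s k22 k60 6 (.d k23 k20 k43 0 5)))), (.s k136 k68
  9 (.s k137 k70 10 (.s k69 k205 9 (.d k138 k139 k207 0 10))))] .n) (.c k204 (.q k78 [(.s k23 k43 5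
  (.s k127 k191 7 (.s k107 k67 5 (.d k151 k215 k195 7 13)))), (.s k21 k42 6 (.s k41 k61 5 (.s k22
  k60 6 (.d k23 k20 k43 0 5))))] (.c k23 (.q k67 [(.d k127 k107 k191 5 7), (.s k195 k131 7 (.s k65
  k130 8 (.s k129 k193 7 (.d k66 k64 k192 0 8))))] (.c k191 (.l (.s k107 k127 5 (.d k195 k131 k151 7
  13))) .n)) (.c k43 (.l (.s k21 k42 6 (.s k41 k61 5 (.s k22 k60 6 (.s k23 k20 0 (.s k127 k191 7 (.s
  k107 k67 5 (.d k151 k215 k195 7 13)))))))) .n))) .n)))))))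

def t85_142 : T TT 256 :=
  (.f k87 k171 13 (.q k195 [(.s k67 k131 7 (.s k215 k235 5 (.s k151 k23 7 (.d k107 k127 k63 5
  13)))), (.s k1 k2 0 (.s k65 k130 8 (.s k129 k193 7 (.s k66 k192 8 (.d k67 k64 k131 0 7)))))] (.c
  k67 (.q k63 [(.s k23 k43 5 (.d k151 k107 k215 13 7)), (.s k1 k2 0 (.s k21 k42 6 (.s k65 k130 8 (.s
  k61 k41 5 (.s k193 k129 7 (.s k105 k149 13 (.d k60 k62 k150 0 14)))))))] (.c k43 (.l (.s k1 k2 0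
  (.s k21 k42 6 (.s k41 k61 5 (.s k22 k60 6 (.s k23 k20 0 (.d k151 k215 k107 7 13))))))) .n)) (.c
  k131 (.q k63 [(.s k23 k43 5 (.d k151 k107 k215 13 7)), (.s k1 k2 0 (.s k65 k130 8 (.s k129 k193 7
  (.s k66 k192 8 (.s k67 k64 0 (.d k107 k127 k151 5 13))))))] (.c k107 (.l (.s k1 k2 0 (.s k21 k42 6
  (.s k41 k61 5 (.s k22 k60 6 (.d k23 k20 k43 0 5)))))) (.c k151 (.l (.s k191 k127 7 (.s k1 k2 0 (.s
  k21 k42 6 (.s k41 k61 5 (.s k22 k60 6 (.d k23 k20 k43 0 5))))))) (.c k191 (.l (.s k151 k107 13 (.d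
  k23 k43 k215 5 7))) .n)))) .n))))

def t85_143 : T TT 256 :=
  (.f k87 k171 13 (.f k1 k2 0 (.q k207 [(.s k71 k139 9 (.s k223 k239 3 (.s k155 k19 9 (.d k103 k119
  k51 3 13)))), (.s k69 k138 10 (.s k137 k205 9 (.s k70 k204 10 (.d k71 k68 k139 0 9))))] (.c k71
  (.q k215 [(.s k151 k23 7 (.s k195 k235 5 (.s k67 k131 7 (.d k107 k127 k63 5 13)))), (.s k235 k195
  5 (.s k223 k239 3 (.s k219 k211 1 (.s k251 k203 3 (.d k243 k247 k231 1 5))))), (.s k23 k151 7 (.s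
  k223 k239 3 (.s k19 k155 9 (.s k31 k27 1 (.s k159 k95 7 (.d k63 k43 k111 5 11))))))] .n) (.c k139
  (.l (.s k69 k138 10 (.s k137 k205 9 (.s k70 k204 10 (.s k71 k68 0 (.s k223 k239 3 (.s k155 k19 9
  (.d k103 k119 k51 3 13)))))))) .n)))))

def t85_144 : T TT 256 :=
  (.f k87 k171 13 (.q k195 [(.s k67 k131 7 (.s k215 k235 5 (.s k151 k23 7 (.d k107 k127 k63 5
  13)))), (.s k1 k2 0 (.s k65 k130 8 (.s k129 k193 7 (.s k66 k192 8 (.d k67 k64 k131 0 7)))))] (.c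
  k67 (.q k63 [(.s k23 k43 5 (.d k151 k107 k215 13 7)), (.s k1 k2 0 (.s k21 k42 6 (.s k65 k130 8 (.s
  k61 k41 5 (.s k193 k129 7 (.s k105 k149 13 (.d k60 k62 k150 0 14)))))))] (.c k43 (.l (.s k1 k2 0
  (.s k21 k42 6 (.s k41 k61 5 (.s k22 k60 6 (.s k23 k20 0 (.d k151 k215 k107 7 13))))))) .n)) (.c
  k131 (.q k63 [(.s k23 k43 5 (.d k151 k107 k215 13 7)), (.s k1 k2 0 (.s k65 k130 8 (.s k129 k193 7
  (.s k66 k192 8 (.s k67 k64 0 (.d k107 k127 k151 5 13))))))] (.c k107 (.l (.s k1 k2 0 (.s k21 k42 6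
  (.s k41 k61 5 (.s k22 k60 6 (.d k23 k20 k43 0 5)))))) (.c k151 (.l (.s k191 k127 7 (.s k1 k2 0 (.s
  k21 k42 6 (.s k41 k61 5 (.s k22 k60 6 (.d k23 k20 k43 0 5))))))) (.c k191 (.l (.s k151 k107 13 (.d
  k23 k43 k215 5 7))) .n)))) .n))))

def t85_145 : T TT 256 :=
  (.f k87 k171 13 (.q k195 [(.s k67 k131 7 (.s k215 k235 5 (.s k151 k23 7 (.d k107 k127 k63 5
  13)))), (.s k1 k2 0 (.s k65 k130 8 (.s k129 k193 7 (.s k66 k192 8 (.d k67 k64 k131 0 7)))))] (.c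
  k67 (.q k63 [(.s k23 k43 5 (.d k151 k107 k215 13 7)), (.s k1 k2 0 (.s k21 k42 6 (.s k65 k130 8 (.s
  k61 k41 5 (.s k193 k129 7 (.s k105 k149 13 (.d k60 k62 k150 0 14)))))))] (.c k43 (.l (.s k1 k2 0
  (.s k21 k42 6 (.s k41 k61 5 (.s k22 k60 6 (.s k23 k20 0 (.d k151 k215 k107 7 13))))))) .n)) (.c
  k131 (.q k63 [(.s k23 k43 5 (.d k151 k107 k215 13 7)), (.s k1 k2 0 (.s k65 k130 8 (.s k129 k193 7
  (.s k66 k192 8 (.s k67 k64 0 (.d k107 k127 k151 5 13))))))] (.c k107 (.l (.s k1 k2 0 (.s k21 k42 6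
  (.s k41 k61 5 (.s k22 k60 6 (.d k23 k20 k43 0 5)))))) (.c k151 (.l (.s k191 k127 7 (.s k1 k2 0 (.s
  k21 k42 6 (.s k41 k61 5 (.s k22 k60 6 (.d k23 k20 k43 0 5))))))) (.c k191 (.l (.s k151 k107 13 (.d
  k23 k43 k215 5 7))) .n)))) .n))))

def t85_146 : T TT 256 :=
  (.f k87 k171 13 (.f k1 k2 0 (.q k207 [(.s k71 k139 9 (.s k223 k239 3 (.s k155 k19 9 (.d k103 k119
  k51 3 13)))), (.s k69 k138 10 (.s k137 k205 9 (.s k70 k204 10 (.d k71 k68 k139 0 9))))] (.c k71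
  (.q k215 [(.s k151 k23 7 (.s k195 k235 5 (.s k67 k131 7 (.d k107 k127 k63 5 13)))), (.s k235 k195
  5 (.s k223 k239 3 (.s k219 k211 1 (.s k251 k203 3 (.d k243 k247 k231 1 5))))), (.s k23 k151 7 (.s
  k223 k239 3 (.s k19 k155 9 (.s k31 k27 1 (.s k159 k95 7 (.d k63 k43 k111 5 11))))))] .n) (.c k139
  (.l (.s k69 k138 10 (.s k137 k205 9 (.s k70 k204 10 (.s k71 k68 0 (.s k223 k239 3 (.s k155 k19 9
  (.d k103 k119 k51 3 13)))))))) .n)))))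

def t85_147 : T TT 256 :=
  (.q k51 [(.s k1 k2 0 (.s k17 k34 4 (.s k33 k49 3 (.s k19 k35 3 (.d k18 k16 k48 0 4))))), (.s k19
  k35 3 (.s k87 k171 13 (.s k155 k223 9 (.s k103 k207 13 (.d k119 k71 k187 3 9)))))] (.c k16 (.l (.s
  k2 k1 0 (.s k34 k17 4 (.s k18 k50 3 (.s k33 k48 4 (.d k35 k19 k32 3 0)))))) (.c k19 (.q k83 [(.s
  k1 k2 0 (.s k243 k163 11 (.s k81 k162 12 (.s k161 k241 11 (.d k82 k80 k240 0 12))))), (.s k87 k171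
  13 (.s k119 k187 9 (.s k103 k71 3 (.s k91 k95 1 (.s k115 k79 5 (.s k67 k99 3 (.d k127 k123 k107 1
  5)))))))] (.c k80 (.l (.s k17 k34 4 (.s k243 k163 11 (.s k81 k162 12 (.s k145 k209 7 (.s k98 k192
  12 (.d k115 k179 k64 7 4))))))) .n)) (.c k35 (.q k83 [(.s k1 k2 0 (.s k243 k163 11 (.s k81 k162 12
  (.s k161 k241 11 (.d k82 k80 k240 0 12))))), (.s k87 k171 13 (.s k119 k187 9 (.s k103 k71 3 (.s
  k91 k95 1 (.s k115 k79 5 (.s k127 k123 1 (.d k67 k99 k107 3 5)))))))] (.c k80 (.l (.s k17 k34 4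
  (.s k243 k163 11 (.s k81 k162 12 (.s k145 k209 7 (.s k98 k192 12 (.d k115 k179 k64 7 4))))))) (.c
  k99 (.l (.s k87 k171 13 (.s k119 k187 9 (.s k103 k71 3 (.s k91 k95 1 (.s k115 k79 5 (.d k243 k179
  k163 7 11))))))) .n))) .n))))

def t85_148 : T TT 256 :=
  (.f k87 k171 13 (.q k195 [(.s k67 k131 7 (.s k215 k235 5 (.s k151 k23 7 (.d k107 k127 k63 5
  13)))), (.s k1 k2 0 (.s k65 k130 8 (.s k129 k193 7 (.s k66 k192 8 (.d k67 k64 k131 0 7)))))] (.c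
  k67 (.q k63 [(.s k23 k43 5 (.d k151 k107 k215 13 7)), (.s k1 k2 0 (.s k21 k42 6 (.s k65 k130 8 (.s
  k61 k41 5 (.s k193 k129 7 (.s k105 k149 13 (.d k60 k62 k150 0 14)))))))] (.c k43 (.l (.s k1 k2 0
  (.s k21 k42 6 (.s k41 k61 5 (.s k22 k60 6 (.s k23 k20 0 (.d k151 k215 k107 7 13))))))) (.c k151
  (.l (.s k1 k2 0 (.s k21 k42 6 (.s k41 k61 5 (.s k22 k60 6 (.d k23 k20 k43 0 5)))))) .n))) (.c k131
  (.q k63 [(.s k23 k43 5 (.d k151 k107 k215 13 7)), (.s k1 k2 0 (.s k65 k130 8 (.s k129 k193 7 (.s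
  k66 k192 8 (.s k67 k64 0 (.d k107 k127 k151 5 13))))))] (.c k107 (.l (.s k1 k2 0 (.s k21 k42 6 (.s
  k41 k61 5 (.s k22 k60 6 (.d k23 k20 k43 0 5)))))) (.c k151 (.l (.s k191 k127 7 (.s k1 k2 0 (.s k21
  k42 6 (.s k41 k61 5 (.s k22 k60 6 (.d k23 k20 k43 0 5))))))) (.c k191 (.l (.s k151 k107 13 (.d k23
  k43 k215 5 7))) .n)))) .n))))

def t85_149 : T TT 256 :=
  (.f k87 k171 13 (.f k1 k2 0 (.q k207 [(.s k71 k139 9 (.s k223 k239 3 (.s k155 k19 9 (.d k103 k119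
  k51 3 13)))), (.s k69 k138 10 (.s k137 k205 9 (.s k70 k204 10 (.d k71 k68 k139 0 9))))] (.c k21
  (.q k213 [(.s k71 k139 9 (.s k223 k239 3 (.s k155 k19 9 (.d k103 k119 k51 3 13)))), (.s k192 k234
  6 (.s k128 k64 7 (.s k129 k66 8 (.s k65 k193 7 (.d k130 k131 k195 0 8)))))] .n) (.c k71 (.q k21
  [(.s k63 k42 6 (.s k41 k61 5 (.s k22 k60 6 (.d k23 k20 k43 0 5)))), (.s k69 k138 10 (.s k61 k41 5
  (.s k205 k137 9 (.s k109 k157 11 (.s k60 k158 12 (.d k63 k62 k42 0 6)))))), (.s k63 k42 6 (.s k127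
  k191 7 (.s k107 k67 5 (.s k151 k195 13 (.d k23 k43 k215 5 7)))))] (.c k42 (.l (.s k41 k61 5 (.s
  k22 k60 6 (.s k23 k20 0 (.s k63 k43 5 (.s k127 k191 7 (.s k107 k67 5 (.d k151 k215 k195 7
  13)))))))) (.c k62 (.l (.s k42 k63 6 (.s k41 k61 5 (.s k60 k22 6 (.d k40 k43 k20 0 5))))) (.c k63
  (.l (.s k41 k61 5 (.s k60 k22 6 (.s k109 k158 12 (.s k125 k190 8 (.s k93 k77 3 (.s k174 k12 12 (.d
  k239 k223 k44 3 8)))))))) .n)))) (.c k139 (.l (.s k69 k138 10 (.s k137 k205 9 (.s k70 k204 10 (.s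
  k71 k68 0 (.s k223 k239 3 (.s k155 k19 9 (.d k103 k119 k51 3 13)))))))) (.c k213 (.q k21 [(.s k69
  k138 10 (.s k137 k205 9 (.s k70 k204 10 (.d k71 k68 k139 0 9)))), (.s k42 k63 6 (.s k41 k61 5 (.s
  k60 k22 6 (.d k40 k43 k20 0 5))))] .n) .n)))))))

def t85_150 : T TT 256 :=
  (.f k87 k171 13 (.q k195 [(.s k215 k235 5 (.s k151 k23 7 (.s k107 k63 13 (.d k67 k127 k131 5
  7)))), (.s k1 k2 0 (.s k65 k130 8 (.s k129 k193 7 (.s k66 k192 8 (.d k67 k64 k131 0 7)))))] (.c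
  k20 (.l (.s k215 k235 5 (.s k67 k131 7 (.s k151 k23 7 (.d k107 k127 k63 5 13))))) (.c k67 (.q k63
  [(.s k23 k43 5 (.d k151 k215 k107 7 13)), (.s k1 k2 0 (.s k21 k42 6 (.s k65 k130 8 (.s k61 k41 5
  (.s k193 k129 7 (.s k149 k105 13 (.d k192 k194 k106 0 14)))))))] (.c k20 (.l (.s k215 k235 5 (.d
  k23 k43 k151 5 7))) (.c k43 (.l (.s k1 k2 0 (.s k21 k42 6 (.s k41 k61 5 (.s k22 k60 6 (.s k23 k20
  0 (.d k215 k235 k151 5 7))))))) (.c k215 (.q k20 [(.s k21 k42 6 (.d k23 k22 k43 0 5)), (.s k60 k40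
  5 (.s k61 k62 0 (.s k125 k190 8 (.s k189 k253 7 (.s k126 k252 8 (.d k127 k124 k191 0 7))))))] .n)
  .n)))) (.c k131 (.f k65 k130 8 (.l (.s k1 k2 0 (.s k129 k193 7 (.s k66 k192 8 (.s k67 k64 0 (.s
  k215 k235 5 (.s k151 k23 7 (.d k107 k127 k63 5 13))))))))) (.c k215 (.q k20 [(.s k1 k2 0 (.s k65
  k130 8 (.s k129 k193 7 (.s k66 k192 8 (.d k67 k64 k131 0 7))))), (.s k60 k40 5 (.s k22 k41 6 (.s
  k67 k131 7 (.s k21 k23 0 (.s k107 k127 5 (.d k63 k42 k151 6 13)))))), (.s k2 k1 0 (.s k60 k40 5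
  (.s k22 k41 6 (.s k42 k62 5 (.d k21 k23 k63 0 6)))))] .n) .n))))))

def t85_151 : T TT 256 :=
  (.q k51 [(.s k1 k2 0 (.s k17 k34 4 (.s k33 k49 3 (.s k19 k35 3 (.d k18 k16 k48 0 4))))), (.s k19
  k35 3 (.s k87 k171 13 (.s k155 k223 9 (.s k103 k207 13 (.d k119 k71 k187 3 9)))))] (.c k16 (.l (.s
  k2 k1 0 (.s k34 k17 4 (.s k18 k50 3 (.s k33 k48 4 (.d k35 k19 k32 3 0)))))) (.c k19 (.q k83 [(.s
  k1 k2 0 (.s k243 k163 11 (.s k81 k162 12 (.s k161 k241 11 (.d k82 k80 k240 0 12))))), (.s k87 k171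
  13 (.s k119 k187 9 (.s k103 k71 3 (.s k91 k95 1 (.s k115 k79 5 (.s k67 k99 3 (.d k127 k123 k107 1
  5)))))))] (.c k80 (.l (.s k17 k34 4 (.s k243 k163 11 (.s k81 k162 12 (.s k145 k209 7 (.s k98 k192
  12 (.d k115 k64 k179 4 7))))))) .n)) (.c k35 (.q k83 [(.s k1 k2 0 (.s k243 k163 11 (.s k81 k162 12
  (.s k161 k241 11 (.d k82 k80 k240 0 12))))), (.s k87 k171 13 (.s k119 k187 9 (.s k103 k71 3 (.s
  k91 k95 1 (.s k115 k79 5 (.s k127 k123 1 (.d k67 k99 k107 3 5)))))))] (.c k80 (.l (.s k17 k34 4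
  (.s k243 k163 11 (.s k81 k162 12 (.s k145 k209 7 (.s k98 k192 12 (.d k115 k64 k179 4 7))))))) (.c
  k99 (.l (.s k87 k171 13 (.s k119 k187 9 (.s k103 k71 3 (.s k91 k95 1 (.s k115 k79 5 (.d k243 k179
  k163 7 11))))))) .n))) .n))))

def t85_152 : T TT 256 :=
  (.q k51 [(.s k1 k2 0 (.s k17 k34 4 (.s k33 k49 3 (.s k19 k35 3 (.d k18 k16 k48 0 4))))), (.s k19
  k35 3 (.s k87 k171 13 (.s k155 k223 9 (.s k103 k207 13 (.d k119 k71 k187 3 9)))))] (.c k16 (.l (.s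
  k2 k1 0 (.s k34 k17 4 (.s k18 k50 3 (.s k33 k48 4 (.d k35 k19 k32 3 0)))))) (.c k19 (.q k83 [(.s
  k1 k2 0 (.s k243 k163 11 (.s k81 k162 12 (.s k161 k241 11 (.d k82 k80 k240 0 12))))), (.s k87 k171
  13 (.s k119 k187 9 (.s k103 k71 3 (.s k91 k95 1 (.s k115 k79 5 (.s k67 k99 3 (.d k127 k123 k107 1
  5)))))))] (.c k80 (.l (.s k17 k34 4 (.s k243 k163 11 (.s k81 k162 12 (.s k145 k209 7 (.s k98 k192
  12 (.d k115 k64 k179 4 7))))))) .n)) (.c k35 (.q k83 [(.s k1 k2 0 (.s k243 k163 11 (.s k81 k162 12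
  (.s k161 k241 11 (.d k82 k80 k240 0 12))))), (.s k87 k171 13 (.s k119 k187 9 (.s k103 k71 3 (.s
  k91 k95 1 (.s k115 k79 5 (.s k127 k123 1 (.d k67 k99 k107 3 5)))))))] (.c k80 (.l (.s k17 k34 4
  (.s k243 k163 11 (.s k81 k162 12 (.s k145 k209 7 (.s k98 k192 12 (.d k115 k64 k179 4 7))))))) (.c
  k99 (.l (.s k87 k171 13 (.s k119 k187 9 (.s k103 k71 3 (.s k91 k95 1 (.s k115 k79 5 (.d k243 k179
  k163 7 11))))))) .n))) .n))))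

def t85_153 : T TT 256 :=
  (.f k87 k171 13 (.q k195 [(.s k67 k131 7 (.s k215 k235 5 (.s k151 k23 7 (.d k107 k127 k63 5
  13)))), (.s k1 k2 0 (.s k65 k130 8 (.s k129 k193 7 (.s k66 k192 8 (.d k67 k64 k131 0 7)))))] (.c
  k17 (.q k221 [(.s k67 k131 7 (.s k215 k235 5 (.s k151 k23 7 (.d k107 k127 k63 5 13)))), (.s k1 k2
  0 (.s k204 k238 4 (.s k136 k68 9 (.s k137 k70 10 (.s k69 k205 9 (.d k138 k139 k207 0 10))))))] .n)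
  (.c k67 (.f k65 k130 8 (.q k17 [(.s k51 k34 4 (.s k119 k187 9 (.s k103 k71 3 (.s k155 k207 13 (.d
  k19 k35 k223 3 9))))), (.s k1 k2 0 (.s k33 k49 3 (.s k48 k18 4 (.s k97 k146 12 (.s k161 k225 7 (.d
  k81 k113 k241 3 11))))))] (.c k34 (.q k221 [(.s k2 k1 0 (.s k204 k238 4 (.s k68 k136 9 (.s k70
  k137 10 (.s k138 k206 9 (.d k69 k71 k207 0 10)))))), (.s k1 k2 0 (.s k49 k33 3 (.s k193 k129 7 (.s
  k145 k97 11 (.s k209 k81 7 (.s k213 k217 1 (.d k192 k194 k234 0 6))))))), (.s k204 k238 4 (.s k68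
  k136 9 (.s k70 k137 10 (.s k69 k71 0 (.s k73 k77 1 (.s k134 k12 10 (.d k198 k201 k6 2 7)))))))]
  .n) .n))) (.c k131 (.f k65 k130 8 (.l (.s k1 k2 0 (.s k129 k193 7 (.s k66 k192 8 (.s k67 k64 0 (.s
  k215 k235 5 (.s k151 k23 7 (.d k107 k127 k63 5 13))))))))) (.c k221 (.q k17 [(.s k67 k131 7 (.s
  k215 k235 5 (.s k151 k23 7 (.d k107 k127 k63 5 13)))), (.s k1 k2 0 (.s k34 k51 4 (.s k33 k49 3 (.s
  k48 k18 4 (.d k32 k35 k16 0 3)))))] .n) .n))))))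

def t85_154 : T TT 256 :=
  (.q k223 [(.s k87 k171 13 (.s k155 k19 9 (.s k207 k239 3 (.s k71 k139 9 (.d k103 k119 k51 3
  13))))), (.s k1 k2 0 (.s k207 k239 3 (.s k69 k138 10 (.s k137 k205 9 (.s k70 k204 10 (.d k71 k68
  k139 0 9)))))), (.s k1 k2 0 (.s k87 k171 13 (.s k19 k155 9 (.s k51 k35 3 (.s k17 k34 4 (.s k33 k49
  3 (.d k18 k16 k48 0 4)))))))] (.c k139 (.q k23 [(.s k1 k2 0 (.s k63 k43 5 (.s k21 k42 6 (.s k41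
  k61 5 (.d k22 k20 k60 0 6))))), (.s k87 k171 13 (.s k215 k151 7 (.s k235 k195 5 (.s k207 k239 3
  (.s k219 k211 1 (.s k251 k203 3 (.d k243 k247 k231 1 5)))))))] (.c k63 (.l (.s k87 k171 13 (.s
  k215 k151 7 (.s k195 k235 5 (.s k207 k239 3 (.s k199 k203 1 (.s k231 k247 3 (.d k219 k211 k243 1
  5)))))))) (.c k169 (.q k184 [(.s k1 k2 0 (.s k63 k43 5 (.s k21 k42 6 (.s k41 k61 5 (.d k22 k20 k60
  0 6))))), (.s k87 k171 13 (.s k215 k151 7 (.s k235 k195 5 (.s k207 k239 3 (.s k219 k211 1 (.s k251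
  k203 3 (.d k243 k247 k231 1 5)))))))] (.c k1 (.q k253 [(.s k63 k43 5 (.s k87 k171 13 (.s k127 k191
  7 (.s k107 k67 5 (.d k151 k215 k195 7 13))))), (.s k87 k171 13 (.s k252 k254 0 (.s k48 k116 9 (.s
  k16 k32 3 (.s k18 k33 4 (.d k19 k17 k155 0 9)))))), (.s k63 k43 5 (.s k191 k127 7 (.s k252 k254 0
  (.s k189 k126 8 (.s k125 k61 7 (.d k190 k188 k60 0 8))))))] .n) (.c k63 (.l (.s k87 k171 13 (.s
  k215 k151 7 (.s k195 k235 5 (.s k207 k239 3 (.s k199 k203 1 (.s k231 k247 3 (.d k219 k211 k243 1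
  5)))))))) (.c k253 (.l (.s k1 k2 0 (.s k63 k43 5 (.s k21 k42 6 (.s k41 k61 5 (.d k22 k20 k60 0
  6)))))) .n)))) (.c k184 (.q k169 [(.s k171 k87 13 (.s k168 k170 0 (.d k252 k84 k86 13 14))), (.s
  k1 k2 0 (.s k63 k43 5 (.s k21 k42 6 (.s k41 k61 5 (.d k22 k20 k60 0 6)))))] .n) .n)))) (.c k239
  (.q k23 [(.s k1 k2 0 (.s k63 k43 5 (.s k21 k42 6 (.s k41 k61 5 (.d k22 k20 k60 0 6))))), (.s k87
  k171 13 (.s k19 k155 9 (.s k31 k27 1 (.s k151 k215 7 (.s k91 k211 9 (.d k95 k83 k159 1 7))))))]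
  (.c k20 (.l (.s k63 k43 5 (.s k87 k171 13 (.s k127 k191 7 (.s k107 k67 5 (.d k151 k215 k195 7
  13)))))) .n)) .n)))

def t85_155 : T TT 256 :=
  (.f k1 k2 0 (.q k67 [(.s k195 k131 7 (.s k65 k130 8 (.s k129 k193 7 (.d k66 k64 k192 0 8)))), (.s
  k87 k171 13 (.s k127 k107 5 (.s k63 k191 7 (.s k21 k42 6 (.s k41 k61 5 (.s k22 k60 6 (.d k23 k43
  k20 5 0)))))))] (.c k131 (.q k63 [(.s k127 k191 7 (.d k87 k171 k107 13 5)), (.s k21 k42 6 (.s k41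
  k61 5 (.s k22 k60 6 (.d k23 k20 k43 0 5))))] .n) .n)))

def t85_156 : T TT 256 :=
  (.f k1 k2 0 (.q k67 [(.s k195 k131 7 (.s k65 k130 8 (.s k129 k193 7 (.d k66 k64 k192 0 8)))), (.s
  k87 k171 13 (.s k127 k107 5 (.s k63 k191 7 (.s k21 k42 6 (.s k41 k61 5 (.s k22 k60 6 (.d k23 k43
  k20 5 0)))))))] (.c k131 (.q k63 [(.s k87 k171 13 (.d k127 k191 k107 7 5)), (.s k21 k42 6 (.s k41
  k61 5 (.s k22 k60 6 (.d k23 k20 k43 0 5))))] .n) .n)))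

def t85_157 : T TT 256 :=
  (.f k1 k2 0 (.f k87 k171 13 (.q k51 [(.s k19 k35 3 (.s k119 k187 9 (.s k103 k71 3 (.d k155 k223
  k207 9 13)))), (.s k17 k34 4 (.s k33 k49 3 (.s k18 k48 4 (.d k19 k16 k35 0 3))))] (.c k19 (.q k81
  [(.s k243 k162 12 (.s k161 k241 11 (.s k82 k240 12 (.d k83 k80 k163 0 11)))), (.s k17 k34 4 (.s
  k162 k243 12 (.s k145 k209 7 (.s k192 k98 12 (.d k128 k179 k64 4 7))))), (.s k17 k34 4 (.s k161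
  k241 11 (.s k145 k209 7 (.s k129 k177 3 (.d k192 k66 k98 8 12)))))] .n) (.c k35 (.l (.s k17 k34 4
  (.s k33 k49 3 (.s k18 k48 4 (.s k19 k16 0 (.s k119 k187 9 (.s k103 k71 3 (.d k155 k223 k207 9
  13)))))))) .n)))))

def t85_158 : T TT 256 :=
  (.f k1 k2 0 (.q k67 [(.s k195 k131 7 (.s k65 k130 8 (.s k129 k193 7 (.d k66 k64 k192 0 8)))), (.s
  k87 k171 13 (.s k127 k107 5 (.s k63 k191 7 (.s k21 k42 6 (.s k41 k61 5 (.s k22 k60 6 (.d k23 k43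
  k20 5 0)))))))] (.c k131 (.q k63 [(.s k87 k171 13 (.d k127 k191 k107 7 5)), (.s k21 k42 6 (.s k41
  k61 5 (.s k22 k60 6 (.d k23 k20 k43 0 5))))] .n) .n)))

def t85_159 : T TT 256 :=
  (.f k1 k2 0 (.f k87 k171 13 (.q k51 [(.s k19 k35 3 (.s k119 k187 9 (.s k103 k71 3 (.d k155 k223
  k207 9 13)))), (.s k17 k34 4 (.s k33 k49 3 (.s k18 k48 4 (.d k19 k16 k35 0 3))))] (.c k19 (.q k81
  [(.s k243 k162 12 (.s k161 k241 11 (.s k82 k240 12 (.d k83 k80 k163 0 11)))), (.s k17 k34 4 (.s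
  k162 k243 12 (.s k145 k209 7 (.s k192 k98 12 (.d k128 k179 k64 4 7))))), (.s k17 k34 4 (.s k161
  k241 11 (.s k145 k209 7 (.s k129 k177 3 (.d k192 k66 k98 8 12)))))] .n) (.c k35 (.l (.s k17 k34 4
  (.s k33 k49 3 (.s k18 k48 4 (.s k19 k16 0 (.s k119 k187 9 (.s k103 k71 3 (.d k155 k223 k207 9
  13)))))))) .n)))))

def t85_160 : T TT 256 :=
  (.f k1 k2 0 (.q k67 [(.s k195 k131 7 (.s k65 k130 8 (.s k129 k193 7 (.d k66 k64 k192 0 8)))), (.s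
  k87 k171 13 (.s k127 k107 5 (.s k63 k191 7 (.s k21 k42 6 (.s k41 k61 5 (.s k22 k60 6 (.d k23 k43
  k20 5 0)))))))] (.c k131 (.q k63 [(.s k87 k171 13 (.d k127 k191 k107 7 5)), (.s k21 k42 6 (.s k41
  k61 5 (.s k22 k60 6 (.d k23 k20 k43 0 5))))] .n) .n)))

def t85_161 : T TT 256 :=
  (.f k1 k2 0 (.f k87 k171 13 (.q k51 [(.s k17 k34 4 (.s k33 k49 3 (.s k18 k48 4 (.d k19 k16 k35 0
  3)))), (.s k19 k35 3 (.s k119 k187 9 (.s k103 k71 3 (.d k155 k223 k207 9 13))))] (.c k19 (.q k81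
  [(.s k17 k34 4 (.s k162 k243 12 (.s k145 k209 7 (.s k128 k179 4 (.d k192 k64 k98 7 12))))), (.s
  k243 k162 12 (.s k179 k115 7 (.s k187 k119 9 (.s k183 k191 1 (.s k123 k63 9 (.d k251 k247 k59 1
  7)))))), (.s k17 k34 4 (.s k49 k33 3 (.s k145 k209 7 (.s k97 k193 11 (.s k65 k113 3 (.s k195 k130
  8 (.d k48 k50 k146 0 12)))))))] .n) (.c k35 (.l (.s k17 k34 4 (.s k33 k49 3 (.s k18 k48 4 (.s k19
  k16 0 (.s k119 k187 9 (.s k103 k71 3 (.d k155 k223 k207 9 13)))))))) .n)))))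

def t85_162 : T TT 256 :=
  (.f k87 k171 13 (.q k23 [(.s k63 k43 5 (.s k127 k191 7 (.s k107 k67 5 (.d k151 k215 k195 7 13)))),
  (.s k1 k2 0 (.s k63 k43 5 (.s k21 k42 6 (.s k41 k61 5 (.d k22 k20 k60 0 6)))))] (.c k43 (.q k107
  [(.s k215 k151 7 (.s k67 k127 5 (.d k195 k131 k235 7 5))), (.s k1 k2 0 (.s k151 k215 7 (.s k63
  k195 13 (.s k21 k42 6 (.s k41 k61 5 (.d k22 k20 k60 0 6)))))), (.s k1 k2 0 (.s k127 k67 5 (.s k63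
  k191 7 (.s k21 k42 6 (.s k41 k61 5 (.d k22 k20 k60 0 6))))))] (.c k151 (.q k131 [(.d k67 k127 k195
  5 7)] (.c k67 (.q k51 [(.s k119 k187 9 (.s k103 k71 3 (.s k155 k207 13 (.d k19 k35 k223 3 9)))),
  (.s k1 k2 0 (.s k17 k34 4 (.s k33 k49 3 (.s k18 k48 4 (.d k19 k16 k35 0 3))))), (.s k119 k187 9
  (.s k103 k71 3 (.s k155 k207 13 (.s k59 k203 11 (.s k55 k63 1 (.s k247 k183 7 (.d k7 k167 k39 11
  3)))))))] .n) (.c k127 (.l (.s k2 k1 0 (.s k195 k67 7 (.s k130 k65 8 (.s k66 k194 7 (.d k129 k128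
  k192 0 8)))))) (.c k195 (.l (.s k1 k2 0 (.s k127 k67 5 (.s k63 k191 7 (.s k21 k42 6 (.s k41 k61 5
  (.d k22 k20 k60 0 6))))))) .n)))) .n)) (.c k63 (.l (.s k1 k2 0 (.s k215 k151 7 (.s k195 k235 5 (.s
  k65 k130 8 (.s k129 k193 7 (.s k66 k192 8 (.d k67 k131 k64 7 0)))))))) (.c k107 (.l (.s k1 k2 0
  (.s k215 k151 7 (.s k63 k43 5 (.s k235 k195 5 (.s k21 k42 6 (.s k41 k61 5 (.d k22 k20 k60 0
  6)))))))) (.c k235 (.l (.s k151 k215 7 (.s k63 k43 5 (.s k107 k195 13 (.d k127 k67 k191 5 7)))))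
  .n))))))

def t85_163 : T TT 256 :=
  (.f k1 k2 0 (.q k67 [(.s k195 k131 7 (.s k65 k130 8 (.s k129 k193 7 (.d k66 k64 k192 0 8)))), (.s
  k87 k171 13 (.s k127 k107 5 (.s k63 k191 7 (.s k21 k42 6 (.s k41 k61 5 (.s k22 k60 6 (.d k23 k43
  k20 5 0)))))))] (.c k131 (.q k63 [(.s k127 k191 7 (.d k87 k171 k107 13 5)), (.s k21 k42 6 (.s k41
  k61 5 (.s k22 k60 6 (.d k23 k20 k43 0 5))))] (.c k147 (.q k179 [(.s k127 k191 7 (.d k87 k171 k107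
  13 5)), (.s k21 k42 6 (.s k41 k61 5 (.s k22 k60 6 (.d k23 k20 k43 0 5))))] .n) (.c k179 (.q k147
  [(.s k87 k171 13 (.d k127 k191 k107 7 5)), (.s k21 k42 6 (.s k41 k61 5 (.s k22 k60 6 (.d k23 k20
  k43 0 5))))] .n) .n))) .n)))

def t85_164 : T TT 256 :=
  (.f k87 k171 13 (.q k23 [(.s k63 k43 5 (.s k127 k191 7 (.s k107 k67 5 (.d k151 k215 k195 7 13)))),
  (.s k1 k2 0 (.s k63 k43 5 (.s k21 k42 6 (.s k41 k61 5 (.d k22 k20 k60 0 6)))))] (.c k43 (.q k107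
  [(.s k215 k151 7 (.s k67 k127 5 (.d k195 k131 k235 7 5))), (.s k1 k2 0 (.s k151 k215 7 (.s k63
  k195 13 (.s k21 k42 6 (.s k41 k61 5 (.d k22 k20 k60 0 6)))))), (.s k1 k2 0 (.s k127 k67 5 (.s k63
  k191 7 (.s k21 k42 6 (.s k41 k61 5 (.d k22 k20 k60 0 6))))))] (.c k151 (.q k131 [(.d k67 k127 k195
  5 7)] (.c k67 (.q k51 [(.s k119 k187 9 (.s k103 k71 3 (.s k155 k207 13 (.d k19 k35 k223 3 9)))),
  (.s k1 k2 0 (.s k17 k34 4 (.s k33 k49 3 (.s k18 k48 4 (.d k19 k16 k35 0 3))))), (.s k119 k187 9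
  (.s k103 k71 3 (.s k155 k207 13 (.s k59 k203 11 (.s k55 k63 1 (.s k247 k183 7 (.d k7 k167 k39 11
  3)))))))] .n) (.c k127 (.l (.s k2 k1 0 (.s k195 k67 7 (.s k130 k65 8 (.s k66 k194 7 (.d k129 k128
  k192 0 8)))))) (.c k195 (.l (.s k1 k2 0 (.s k127 k67 5 (.s k63 k191 7 (.s k21 k42 6 (.s k41 k61 5
  (.d k22 k20 k60 0 6))))))) .n)))) .n)) (.c k63 (.l (.s k1 k2 0 (.s k215 k151 7 (.s k195 k235 5 (.s
  k65 k130 8 (.s k129 k193 7 (.s k66 k192 8 (.d k67 k131 k64 7 0)))))))) (.c k107 (.l (.s k1 k2 0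
  (.s k215 k151 7 (.s k63 k43 5 (.s k235 k195 5 (.s k21 k42 6 (.s k41 k61 5 (.d k22 k20 k60 0
  6)))))))) (.c k235 (.l (.s k151 k215 7 (.s k63 k43 5 (.s k107 k195 13 (.d k127 k67 k191 5 7)))))
  .n))))))

def t85_165 : T TT 256 :=
  (.q k51 [(.s k1 k2 0 (.s k17 k34 4 (.s k33 k49 3 (.s k19 k35 3 (.d k18 k16 k48 0 4))))), (.s k19
  k35 3 (.s k87 k171 13 (.s k155 k223 9 (.s k103 k207 13 (.d k119 k71 k187 3 9)))))] (.c k5 (.q k245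
  [(.s k1 k2 0 (.s k17 k34 4 (.s k33 k49 3 (.s k19 k35 3 (.d k18 k16 k48 0 4))))), (.s k1 k2 0 (.s
  k240 k250 2 (.s k160 k80 11 (.s k161 k82 12 (.s k81 k241 11 (.d k162 k163 k243 0 12)))))), (.s k19
  k35 3 (.s k87 k171 13 (.s k155 k223 9 (.s k103 k207 13 (.d k119 k71 k187 3 9)))))] (.c k90 (.l (.s
  k240 k250 2 (.s k1 k2 0 (.s k17 k34 4 (.s k33 k49 3 (.s k18 k48 4 (.d k19 k16 k35 0 3))))))) (.c
  k240 (.q k90 [(.s k1 k2 0 (.s k17 k34 4 (.s k33 k49 3 (.s k19 k35 3 (.d k18 k16 k48 0 4))))), (.s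
  k19 k35 3 (.s k87 k171 13 (.s k155 k223 9 (.s k103 k207 13 (.d k119 k71 k187 3 9)))))] (.c k16 (.l
  (.s k2 k1 0 (.s k34 k17 4 (.s k18 k50 3 (.s k33 k48 4 (.d k35 k19 k32 3 0)))))) (.c k19 (.q k23
  [(.s k1 k2 0 (.s k63 k43 5 (.s k21 k42 6 (.s k41 k61 5 (.d k22 k20 k60 0 6))))), (.s k87 k171 13
  (.s k151 k215 7 (.s k119 k187 9 (.s k103 k71 3 (.s k55 k199 11 (.s k7 k39 3 (.d k247 k183 k167 7
  11)))))))] (.c k20 (.l (.s k63 k43 5 (.s k87 k171 13 (.s k127 k191 7 (.s k107 k67 5 (.d k151 k215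
  k195 7 13)))))) .n)) (.c k35 (.q k23 [(.s k1 k2 0 (.s k63 k43 5 (.s k21 k42 6 (.s k41 k61 5 (.d
  k22 k20 k60 0 6))))), (.s k87 k171 13 (.s k151 k215 7 (.s k119 k187 9 (.s k103 k71 3 (.s k55 k199
  11 (.s k247 k183 7 (.d k7 k39 k167 3 11)))))))] (.c k20 (.l (.s k63 k43 5 (.s k87 k171 13 (.s k127
  k191 7 (.s k107 k67 5 (.d k151 k215 k195 7 13)))))) (.c k39 (.l (.s k87 k171 13 (.s k151 k215 7
  (.s k119 k187 9 (.s k103 k71 3 (.s k55 k199 11 (.d k63 k59 k43 1 5))))))) .n))) .n)))) .n))) (.c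
  k16 (.l (.s k2 k1 0 (.s k34 k17 4 (.s k18 k50 3 (.s k33 k48 4 (.d k35 k19 k32 3 0)))))) (.c k19
  (.f k119 k187 9 (.q k23 [(.s k1 k2 0 (.s k63 k43 5 (.s k21 k42 6 (.s k41 k61 5 (.d k22 k20 k60 0
  6))))), (.s k87 k171 13 (.s k151 k215 7 (.s k103 k71 3 (.s k55 k199 11 (.s k7 k39 3 (.d k247 k183
  k167 7 11))))))] (.c k5 (.q k245 [(.s k1 k2 0 (.s k63 k43 5 (.s k21 k42 6 (.s k41 k61 5 (.d k22
  k20 k60 0 6))))), (.s k63 k43 5 (.s k87 k171 13 (.s k55 k59 1 (.s k7 k39 3 (.d k247 k183 k167 7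
  11))))), (.s k1 k2 0 (.s k240 k250 2 (.s k160 k80 11 (.s k161 k82 12 (.s k81 k241 11 (.d k162 k163
  k243 0 12))))))] (.c k90 (.l (.s k240 k250 2 (.s k1 k2 0 (.s k63 k43 5 (.s k21 k42 6 (.s k41 k61 5
  (.d k22 k20 k60 0 6))))))) (.c k240 (.q k90 [(.s k1 k2 0 (.s k63 k43 5 (.s k21 k42 6 (.s k41 k61 5
  (.d k22 k20 k60 0 6))))), (.s k87 k171 13 (.s k151 k215 7 (.s k103 k71 3 (.s k55 k199 11 (.s k7
  k39 3 (.d k247 k183 k167 7 11))))))] (.c k20 (.l (.s k63 k43 5 (.s k87 k171 13 (.s k55 k59 1 (.s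
  k7 k39 3 (.d k247 k183 k167 7 11)))))) .n)) .n))) (.c k20 (.l (.s k63 k43 5 (.s k87 k171 13 (.s
  k55 k59 1 (.s k7 k39 3 (.d k247 k183 k167 7 11)))))) (.c k90 (.q k240 [(.s k1 k2 0 (.s k63 k43 5
  (.s k21 k42 6 (.s k41 k61 5 (.d k22 k20 k60 0 6))))), (.s k1 k2 0 (.s k161 k82 12 (.s k81 k241 11
  (.s k162 k243 12 (.d k160 k80 k163 11 0))))), (.s k63 k43 5 (.s k87 k171 13 (.s k151 k215 7 (.s
  k55 k59 1 (.d k103 k71 k199 3 11)))))] (.c k5 (.l (.s k245 k250 2 (.s k1 k2 0 (.s k63 k43 5 (.s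
  k21 k42 6 (.s k41 k61 5 (.d k22 k20 k60 0 6))))))) (.c k80 (.q k95 [(.s k1 k2 0 (.s k63 k43 5 (.s
  k21 k42 6 (.s k41 k61 5 (.d k22 k20 k60 0 6))))), (.s k63 k43 5 (.s k87 k171 13 (.s k55 k59 1 (.s
  k7 k39 3 (.d k247 k183 k167 7 11))))), (.s k1 k2 0 (.s k17 k34 4 (.s k49 k33 3 (.s k161 k82 12 (.s
  k177 k114 8 (.d k241 k81 k113 11 7))))))] (.c k5 (.l (.s k245 k250 2 (.s k1 k2 0 (.s k63 k43 5 (.s
  k21 k42 6 (.s k41 k61 5 (.d k22 k20 k60 0 6))))))) (.c k245 (.q k5 [(.s k1 k2 0 (.s k63 k43 5 (.s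
  k21 k42 6 (.s k41 k61 5 (.d k22 k20 k60 0 6))))), (.s k1 k2 0 (.s k17 k34 4 (.s k49 k33 3 (.s k161
  k82 12 (.s k177 k114 8 (.d k241 k81 k113 11 7)))))), (.s k63 k43 5 (.s k21 k42 6 (.s k55 k59 1 (.s
  k4 k38 4 (.d k7 k6 k39 0 3)))))] .n) .n))) (.c k95 (.l (.s k80 k160 11 (.s k2 k1 0 (.s k82 k161 12
  (.s k162 k242 11 (.d k81 k83 k243 0 12)))))) (.c k245 (.q k5 [(.s k1 k2 0 (.s k63 k43 5 (.s k21
  k42 6 (.s k41 k61 5 (.d k22 k20 k60 0 6))))), (.s k1 k2 0 (.s k161 k82 12 (.s k81 k241 11 (.s k162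
  k243 12 (.d k160 k80 k163 11 0))))), (.s k63 k43 5 (.s k21 k42 6 (.s k55 k59 1 (.s k4 k38 4 (.d k7
  k6 k39 0 3)))))] (.c k80 (.q k95 [(.s k1 k2 0 (.s k63 k43 5 (.s k21 k42 6 (.s k41 k61 5 (.d k22
  k20 k60 0 6))))), (.s k1 k2 0 (.s k17 k34 4 (.s k49 k33 3 (.s k161 k82 12 (.s k177 k114 8 (.d k241
  k81 k113 11 7)))))), (.s k63 k43 5 (.s k21 k42 6 (.s k55 k59 1 (.s k4 k38 4 (.d k7 k6 k39 0
  3)))))] .n) (.c k95 (.l (.s k80 k160 11 (.s k2 k1 0 (.s k82 k161 12 (.s k162 k242 11 (.d k81 k83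
  k243 0 12)))))) .n))) .n))))) (.c k240 (.q k90 [(.s k1 k2 0 (.s k63 k43 5 (.s k21 k42 6 (.s k41
  k61 5 (.d k22 k20 k60 0 6))))), (.s k87 k171 13 (.s k151 k215 7 (.s k103 k71 3 (.s k55 k199 11 (.s
  k7 k39 3 (.d k247 k183 k167 7 11))))))] (.c k5 (.q k245 [(.s k1 k2 0 (.s k63 k43 5 (.s k21 k42 6
  (.s k41 k61 5 (.d k22 k20 k60 0 6))))), (.s k87 k171 13 (.s k151 k215 7 (.s k103 k71 3 (.s k55
  k199 11 (.s k7 k39 3 (.d k247 k183 k167 7 11))))))] (.c k20 (.l (.s k63 k43 5 (.s k87 k171 13 (.s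
  k55 k59 1 (.s k7 k39 3 (.d k247 k183 k167 7 11)))))) .n)) (.c k20 (.l (.s k63 k43 5 (.s k87 k171
  13 (.s k55 k59 1 (.s k7 k39 3 (.d k247 k183 k167 7 11)))))) (.c k245 (.q k5 [(.s k1 k2 0 (.s k63
  k43 5 (.s k21 k42 6 (.s k41 k61 5 (.d k22 k20 k60 0 6))))), (.s k87 k171 13 (.s k151 k215 7 (.s
  k103 k71 3 (.s k55 k199 11 (.s k7 k39 3 (.d k247 k183 k167 7 11))))))] (.c k20 (.l (.s k63 k43 5
  (.s k21 k42 6 (.s k55 k59 1 (.s k4 k38 4 (.d k7 k6 k39 0 3)))))) .n)) .n)))) (.c k245 (.q k5 [(.s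
  k1 k2 0 (.s k63 k43 5 (.s k21 k42 6 (.s k41 k61 5 (.d k22 k20 k60 0 6))))), (.s k87 k171 13 (.s
  k151 k215 7 (.s k103 k71 3 (.s k55 k199 11 (.s k7 k39 3 (.d k247 k183 k167 7 11))))))] (.c k20 (.l
  (.s k63 k43 5 (.s k21 k42 6 (.s k55 k59 1 (.s k4 k38 4 (.d k7 k6 k39 0 3)))))) (.c k90 (.q k240
  [(.s k1 k2 0 (.s k63 k43 5 (.s k21 k42 6 (.s k41 k61 5 (.d k22 k20 k60 0 6))))), (.s k1 k2 0 (.s
  k161 k82 12 (.s k81 k241 11 (.s k162 k243 12 (.d k160 k80 k163 11 0))))), (.s k63 k43 5 (.s k21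
  k42 6 (.s k55 k59 1 (.s k4 k38 4 (.d k7 k6 k39 0 3)))))] (.c k80 (.q k95 [(.s k1 k2 0 (.s k63 k43
  5 (.s k21 k42 6 (.s k41 k61 5 (.d k22 k20 k60 0 6))))), (.s k1 k2 0 (.s k17 k34 4 (.s k49 k33 3
  (.s k161 k82 12 (.s k177 k114 8 (.d k241 k81 k113 11 7)))))), (.s k63 k43 5 (.s k21 k42 6 (.s k55
  k59 1 (.s k4 k38 4 (.d k7 k6 k39 0 3)))))] .n) (.c k95 (.l (.s k80 k160 11 (.s k2 k1 0 (.s k82
  k161 12 (.s k162 k242 11 (.d k81 k83 k243 0 12)))))) .n))) (.c k240 (.q k90 [(.s k1 k2 0 (.s k63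
  k43 5 (.s k21 k42 6 (.s k41 k61 5 (.d k22 k20 k60 0 6))))), (.s k87 k171 13 (.s k151 k215 7 (.s
  k103 k71 3 (.s k55 k199 11 (.s k7 k39 3 (.d k247 k183 k167 7 11))))))] (.c k20 (.l (.s k63 k43 5
  (.s k21 k42 6 (.s k55 k59 1 (.s k4 k38 4 (.d k7 k6 k39 0 3)))))) .n)) .n)))) .n))))))) (.c k35 (.f
  k119 k187 9 (.q k240 [(.s k1 k2 0 (.s k161 k82 12 (.s k81 k241 11 (.s k162 k243 12 (.d k160 k163
  k80 0 11))))), (.s k2 k1 0 (.s k34 k17 4 (.s k50 k18 3 (.s k114 k177 8 (.s k242 k178 7 (.d k82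
  k162 k161 11 12)))))), (.s k17 k34 4 (.s k80 k160 11 (.s k82 k161 12 (.s k114 k177 8 (.s k98 k66 3
  (.s k145 k192 12 (.d k81 k83 k209 0 7)))))))] (.c k5 (.l (.s k245 k250 2 (.s k1 k2 0 (.s k160 k80
  11 (.s k161 k82 12 (.s k81 k241 11 (.d k162 k163 k243 0 12))))))) (.c k82 (.f k245 k250 2 (.q k23
  [(.s k1 k2 0 (.s k63 k43 5 (.s k21 k42 6 (.s k41 k61 5 (.d k22 k20 k60 0 6))))), (.s k87 k171 13
  (.s k151 k215 7 (.s k103 k71 3 (.s k55 k199 11 (.s k247 k183 7 (.d k7 k39 k167 3 11))))))] (.c k20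
  (.l (.s k63 k43 5 (.s k87 k171 13 (.s k55 k59 1 (.s k247 k183 7 (.d k7 k39 k167 3 11)))))) (.c k39
  (.l (.s k87 k171 13 (.s k151 k215 7 (.s k103 k71 3 (.s k55 k199 11 (.d k63 k59 k43 1 5))))))
  .n)))) (.c k161 (.l (.s k2 k1 0 (.s k34 k17 4 (.s k50 k18 3 (.s k114 k177 8 (.s k242 k178 7 (.s
  k162 k82 11 (.d k243 k241 k81 0 12)))))))) (.c k162 (.l (.s k17 k34 4 (.s k161 k82 12 (.s k177
  k114 8 (.s k145 k129 3 (.s k81 k209 7 (.d k1 k2 k241 0 11))))))) (.c k245 (.q k5 [(.s k1 k2 0 (.s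
  k160 k80 11 (.s k161 k82 12 (.s k162 k163 0 (.d k81 k241 k243 11 12))))), (.s k1 k2 0 (.s k17 k34
  4 (.s k9 k13 1 (.s k12 k6 2 (.s k25 k38 6 (.s k41 k57 3 (.d k21 k29 k61 1 5))))))), (.s k17 k34 4
  (.s k80 k160 11 (.s k82 k161 12 (.s k114 k177 8 (.s k98 k66 3 (.s k145 k192 12 (.d k81 k83 k209 0
  7)))))))] .n) .n))))))) (.c k90 (.q k240 [(.s k1 k2 0 (.s k17 k34 4 (.s k33 k49 3 (.s k19 k35 3
  (.d k18 k16 k48 0 4))))), (.s k19 k35 3 (.s k82 k161 12 (.s k145 k208 8 (.s k98 k192 12 (.d k114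
  k66 k177 3 8))))), (.s k1 k2 0 (.s k161 k82 12 (.s k81 k241 11 (.s k162 k243 12 (.d k160 k80 k163
  11 0)))))] (.c k5 (.l (.s k245 k250 2 (.s k1 k2 0 (.s k17 k34 4 (.s k33 k49 3 (.s k18 k48 4 (.d
  k19 k16 k35 0 3))))))) (.c k80 (.q k95 [(.s k1 k2 0 (.s k17 k34 4 (.s k33 k49 3 (.s k19 k35 3 (.d
  k18 k16 k48 0 4))))), (.s k19 k35 3 (.s k82 k161 12 (.s k145 k208 8 (.s k98 k192 12 (.d k114 k66
  k177 3 8))))), (.s k1 k2 0 (.s k17 k34 4 (.s k161 k82 12 (.s k81 k241 11 (.s k145 k209 7 (.d k177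
  k129 k114 3 8))))))] (.c k5 (.l (.s k245 k250 2 (.s k1 k2 0 (.s k17 k34 4 (.s k33 k49 3 (.s k18
  k48 4 (.d k19 k16 k35 0 3))))))) (.c k245 (.q k5 [(.s k1 k2 0 (.s k17 k34 4 (.s k33 k49 3 (.s k19
  k35 3 (.d k18 k16 k48 0 4))))), (.s k19 k35 3 (.s k82 k161 12 (.s k145 k208 8 (.s k98 k192 12 (.d
  k114 k66 k177 3 8))))), (.s k1 k2 0 (.s k17 k34 4 (.s k161 k82 12 (.s k81 k241 11 (.s k145 k209 7
  (.d k177 k129 k114 3 8))))))] .n) .n))) (.c k95 (.l (.s k80 k160 11 (.s k2 k1 0 (.s k82 k161 12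
  (.s k162 k242 11 (.d k81 k83 k243 0 12)))))) (.c k245 (.q k5 [(.s k1 k2 0 (.s k17 k34 4 (.s k33
  k49 3 (.s k19 k35 3 (.d k18 k16 k48 0 4))))), (.s k19 k35 3 (.s k82 k161 12 (.s k145 k208 8 (.s
  k98 k192 12 (.d k114 k66 k177 3 8))))), (.s k1 k2 0 (.s k161 k82 12 (.s k81 k241 11 (.s k162 k243
  12 (.d k160 k80 k163 11 0)))))] (.c k80 (.q k95 [(.s k1 k2 0 (.s k17 k34 4 (.s k33 k49 3 (.s k19
  k35 3 (.d k18 k16 k48 0 4))))), (.s k19 k35 3 (.s k82 k161 12 (.s k145 k208 8 (.s k98 k192 12 (.d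
  k114 k66 k177 3 8))))), (.s k1 k2 0 (.s k17 k34 4 (.s k161 k82 12 (.s k81 k241 11 (.s k145 k209 7
  (.d k177 k129 k114 3 8))))))] .n) (.c k95 (.l (.s k80 k160 11 (.s k2 k1 0 (.s k82 k161 12 (.s k162
  k242 11 (.d k81 k83 k243 0 12)))))) .n))) .n))))) (.c k240 (.q k90 [(.s k1 k2 0 (.s k17 k34 4 (.s
  k33 k49 3 (.s k19 k35 3 (.d k18 k16 k48 0 4))))), (.s k19 k35 3 (.s k87 k171 13 (.s k155 k223 9
  (.s k103 k207 13 (.d k119 k71 k187 3 9)))))] (.c k5 (.q k245 [(.s k1 k2 0 (.s k17 k34 4 (.s k33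
  k49 3 (.s k19 k35 3 (.d k18 k16 k48 0 4))))), (.s k19 k35 3 (.s k87 k171 13 (.s k155 k223 9 (.s
  k103 k207 13 (.d k119 k71 k187 3 9)))))] (.c k16 (.l (.s k2 k1 0 (.s k34 k17 4 (.s k18 k50 3 (.s
  k33 k48 4 (.d k35 k19 k32 3 0)))))) (.c k19 (.q k23 [(.s k1 k2 0 (.s k63 k43 5 (.s k21 k42 6 (.s
  k41 k61 5 (.d k22 k20 k60 0 6))))), (.s k87 k171 13 (.s k151 k215 7 (.s k119 k187 9 (.s k103 k71 3
  (.s k55 k199 11 (.s k7 k39 3 (.d k247 k183 k167 7 11)))))))] (.c k20 (.l (.s k63 k43 5 (.s k87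
  k171 13 (.s k127 k191 7 (.s k107 k67 5 (.d k151 k215 k195 7 13)))))) .n)) (.c k35 (.q k23 [(.s k1
  k2 0 (.s k63 k43 5 (.s k21 k42 6 (.s k41 k61 5 (.d k22 k20 k60 0 6))))), (.s k87 k171 13 (.s k151
  k215 7 (.s k119 k187 9 (.s k103 k71 3 (.s k55 k199 11 (.s k247 k183 7 (.d k7 k39 k167 3 11)))))))]
  (.c k20 (.l (.s k63 k43 5 (.s k87 k171 13 (.s k127 k191 7 (.s k107 k67 5 (.d k151 k215 k195 7
  13)))))) (.c k39 (.l (.s k87 k171 13 (.s k151 k215 7 (.s k119 k187 9 (.s k103 k71 3 (.s k55 k199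
  11 (.d k63 k59 k43 1 5))))))) .n))) .n)))) (.c k16 (.l (.s k2 k1 0 (.s k34 k17 4 (.s k18 k50 3 (.s
  k33 k48 4 (.d k35 k19 k32 3 0)))))) (.c k19 (.f k119 k187 9 (.q k23 [(.s k1 k2 0 (.s k63 k43 5 (.s
  k21 k42 6 (.s k41 k61 5 (.d k22 k20 k60 0 6))))), (.s k87 k171 13 (.s k151 k215 7 (.s k103 k71 3
  (.s k55 k199 11 (.s k7 k39 3 (.d k247 k183 k167 7 11))))))] (.c k5 (.q k245 [(.s k1 k2 0 (.s k63
  k43 5 (.s k21 k42 6 (.s k41 k61 5 (.d k22 k20 k60 0 6))))), (.s k87 k171 13 (.s k151 k215 7 (.s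
  k103 k71 3 (.s k55 k199 11 (.s k7 k39 3 (.d k247 k183 k167 7 11))))))] (.c k20 (.l (.s k63 k43 5
  (.s k87 k171 13 (.s k55 k59 1 (.s k7 k39 3 (.d k247 k183 k167 7 11)))))) .n)) (.c k20 (.l (.s k63
  k43 5 (.s k87 k171 13 (.s k55 k59 1 (.s k7 k39 3 (.d k247 k183 k167 7 11)))))) (.c k245 (.q k5
  [(.s k1 k2 0 (.s k63 k43 5 (.s k21 k42 6 (.s k41 k61 5 (.d k22 k20 k60 0 6))))), (.s k87 k171 13
  (.s k151 k215 7 (.s k103 k71 3 (.s k55 k199 11 (.s k7 k39 3 (.d k247 k183 k167 7 11))))))] (.c k20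
  (.l (.s k63 k43 5 (.s k21 k42 6 (.s k55 k59 1 (.s k4 k38 4 (.d k7 k6 k39 0 3)))))) .n)) .n)))))
  (.c k35 (.f k119 k187 9 (.q k23 [(.s k1 k2 0 (.s k63 k43 5 (.s k21 k42 6 (.s k41 k61 5 (.d k22 k20
  k60 0 6))))), (.s k87 k171 13 (.s k151 k215 7 (.s k103 k71 3 (.s k55 k199 11 (.s k247 k183 7 (.d
  k7 k39 k167 3 11))))))] (.c k5 (.q k245 [(.s k1 k2 0 (.s k63 k43 5 (.s k21 k42 6 (.s k41 k61 5 (.d
  k22 k20 k60 0 6))))), (.s k87 k171 13 (.s k151 k215 7 (.s k103 k71 3 (.s k55 k199 11 (.s k247 k183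
  7 (.d k7 k39 k167 3 11))))))] (.c k20 (.l (.s k63 k43 5 (.s k87 k171 13 (.s k55 k59 1 (.s k247
  k183 7 (.d k7 k39 k167 3 11)))))) (.c k39 (.l (.s k87 k171 13 (.s k151 k215 7 (.s k103 k71 3 (.s
  k55 k199 11 (.d k63 k59 k43 1 5)))))) .n))) (.c k20 (.l (.s k63 k43 5 (.s k87 k171 13 (.s k55 k59
  1 (.s k247 k183 7 (.d k7 k39 k167 3 11)))))) (.c k39 (.l (.s k87 k171 13 (.s k151 k215 7 (.s k103
  k71 3 (.s k55 k199 11 (.d k63 k59 k43 1 5)))))) (.c k245 (.q k5 [(.s k1 k2 0 (.s k63 k43 5 (.s k21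
  k42 6 (.s k41 k61 5 (.d k22 k20 k60 0 6))))), (.s k87 k171 13 (.s k151 k215 7 (.s k103 k71 3 (.s
  k55 k199 11 (.s k247 k183 7 (.d k7 k39 k167 3 11))))))] (.c k20 (.l (.s k63 k43 5 (.s k21 k42 6
  (.s k55 k59 1 (.s k4 k38 4 (.d k7 k39 k6 3 0)))))) (.c k39 (.l (.s k87 k171 13 (.s k151 k215 7 (.s
  k103 k71 3 (.s k55 k199 11 (.d k63 k59 k43 1 5)))))) .n))) .n)))))) (.c k245 (.q k5 [(.s k1 k2 0
  (.s k17 k34 4 (.s k33 k49 3 (.s k19 k35 3 (.d k18 k16 k48 0 4))))), (.s k19 k35 3 (.s k87 k171 13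
  (.s k155 k223 9 (.s k103 k207 13 (.d k119 k71 k187 3 9))))), (.s k1 k2 0 (.s k17 k34 4 (.s k9 k13
  1 (.s k12 k6 2 (.s k25 k38 6 (.s k41 k57 3 (.d k21 k29 k61 1 5)))))))] .n) .n)))))) (.c k245 (.q
  k5 [(.s k1 k2 0 (.s k17 k34 4 (.s k33 k49 3 (.s k19 k35 3 (.d k18 k16 k48 0 4))))), (.s k19 k35 3
  (.s k87 k171 13 (.s k155 k223 9 (.s k103 k207 13 (.d k119 k71 k187 3 9))))), (.s k1 k2 0 (.s k17
  k34 4 (.s k9 k13 1 (.s k12 k6 2 (.s k25 k38 6 (.s k41 k57 3 (.d k21 k29 k61 1 5)))))))] (.c k90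
  (.q k240 [(.s k1 k2 0 (.s k17 k34 4 (.s k33 k49 3 (.s k19 k35 3 (.d k18 k16 k48 0 4))))), (.s k19
  k35 3 (.s k82 k161 12 (.s k145 k208 8 (.s k98 k192 12 (.d k114 k66 k177 3 8))))), (.s k1 k2 0 (.s
  k161 k82 12 (.s k81 k241 11 (.s k162 k243 12 (.d k160 k80 k163 11 0)))))] (.c k80 (.q k95 [(.s k1
  k2 0 (.s k17 k34 4 (.s k33 k49 3 (.s k19 k35 3 (.d k18 k16 k48 0 4))))), (.s k19 k35 3 (.s k82
  k161 12 (.s k145 k208 8 (.s k98 k192 12 (.d k114 k66 k177 3 8))))), (.s k1 k2 0 (.s k17 k34 4 (.s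
  k161 k82 12 (.s k81 k241 11 (.s k145 k209 7 (.d k177 k129 k114 3 8))))))] .n) (.c k95 (.l (.s k80
  k160 11 (.s k2 k1 0 (.s k82 k161 12 (.s k162 k242 11 (.d k81 k83 k243 0 12)))))) .n))) (.c k240
  (.q k90 [(.s k1 k2 0 (.s k17 k34 4 (.s k33 k49 3 (.s k19 k35 3 (.d k18 k16 k48 0 4))))), (.s k19
  k35 3 (.s k87 k171 13 (.s k155 k223 9 (.s k103 k207 13 (.d k119 k71 k187 3 9))))), (.s k1 k2 0 (.s
  k17 k34 4 (.s k9 k13 1 (.s k12 k6 2 (.s k25 k38 6 (.s k41 k57 3 (.d k21 k29 k61 1 5)))))))] .n)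
  .n))) .n))))))))

def t85_166 : T TT 256 :=
  (.f k87 k171 13 (.f k1 k2 0 (.q k51 [(.s k19 k35 3 (.s k119 k187 9 (.s k103 k71 3 (.d k155 k223
  k207 9 13)))), (.s k17 k34 4 (.s k33 k49 3 (.s k18 k48 4 (.d k19 k16 k35 0 3))))] (.c k4 (.q k247
  [(.s k19 k35 3 (.s k119 k187 9 (.s k103 k71 3 (.d k155 k223 k207 9 13)))), (.s k17 k34 4 (.s k33
  k49 3 (.s k18 k48 4 (.d k19 k16 k35 0 3)))), (.s k7 k167 11 (.s k119 k187 9 (.s k55 k183 7 (.s k23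
  k39 3 (.d k63 k59 k43 1 5)))))] .n) (.c k19 (.q k247 [(.s k119 k187 9 (.s k183 k55 7 (.s k243 k251
  1 (.s k115 k179 7 (.d k123 k127 k63 1 9))))), (.s k243 k251 1 (.s k81 k162 12 (.s k161 k241 11 (.s
  k82 k240 12 (.d k83 k80 k163 0 11))))), (.s k7 k167 11 (.s k119 k187 9 (.s k55 k183 7 (.s k23 k39
  3 (.d k63 k59 k43 1 5))))), (.s k119 k187 9 (.s k55 k183 7 (.s k63 k59 1 (.s k23 k43 5 (.d k7 k39
  k167 3 11)))))] .n) (.c k35 (.l (.s k17 k34 4 (.s k33 k49 3 (.s k18 k48 4 (.s k19 k16 0 (.s k119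
  k187 9 (.s k103 k71 3 (.d k155 k223 k207 9 13)))))))) (.c k247 (.q k4 [(.s k19 k35 3 (.s k119 k187
  9 (.s k103 k71 3 (.d k155 k223 k207 9 13)))), (.s k12 k8 1 (.s k34 k17 4 (.s k38 k25 6 (.s k21 k55
  4 (.d k42 k46 k63 1 6)))))] (.c k119 (.l (.s k17 k34 4 (.s k33 k49 3 (.s k18 k48 4 (.d k19 k16 k35
  0 3))))) .n)) .n)))))))

def t85_167 : T TT 256 :=
  (.f k1 k2 0 (.q k67 [(.s k195 k131 7 (.s k65 k130 8 (.s k129 k193 7 (.d k66 k64 k192 0 8)))), (.s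
  k87 k171 13 (.s k127 k107 5 (.s k63 k191 7 (.s k21 k42 6 (.s k41 k61 5 (.s k22 k60 6 (.d k23 k43
  k20 5 0)))))))] (.c k91 (.q k243 [(.s k195 k131 7 (.s k65 k130 8 (.s k129 k193 7 (.d k66 k64 k192
  0 8)))), (.s k81 k162 12 (.s k161 k241 11 (.s k82 k240 12 (.d k83 k80 k163 0 11))))] .n) (.c k131
  (.q k63 [(.s k127 k191 7 (.d k87 k171 k107 13 5)), (.s k21 k42 6 (.s k41 k61 5 (.s k22 k60 6 (.d
  k23 k20 k43 0 5))))] (.c k91 (.q k243 [(.s k127 k191 7 (.d k87 k171 k107 13 5)), (.s k21 k42 6 (.s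
  k41 k61 5 (.s k22 k60 6 (.d k23 k20 k43 0 5))))] .n) (.c k243 (.q k91 [(.s k127 k191 7 (.d k87
  k171 k107 13 5)), (.s k21 k42 6 (.s k41 k61 5 (.s k22 k60 6 (.d k23 k20 k43 0 5))))] .n) .n))) (.c
  k243 (.q k91 [(.s k195 k131 7 (.s k65 k130 8 (.s k129 k193 7 (.d k66 k64 k192 0 8)))), (.s k87
  k171 13 (.s k107 k127 5 (.s k75 k123 3 (.s k79 k71 1 (.s k115 k103 5 (.d k83 k95 k99 1 3))))))]
  (.c k64 (.l (.s k195 k131 7 (.s k87 k171 13 (.s k215 k235 5 (.s k151 k23 7 (.d k107 k127 k63 5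
  13)))))) .n)) .n)))))

def t85_168 : T TT 256 :=
  (.f k1 k2 0 (.q k23 [(.s k63 k43 5 (.s k21 k42 6 (.s k41 k61 5 (.d k22 k20 k60 0 6)))), (.s k87
  k171 13 (.s k215 k151 7 (.s k195 k235 5 (.s k65 k130 8 (.s k129 k193 7 (.s k66 k192 8 (.d k67 k131
  k64 7 0)))))))] (.c k43 (.q k51 [(.s k17 k34 4 (.s k33 k49 3 (.s k18 k48 4 (.d k19 k16 k35 0
  3)))), (.s k87 k171 13 (.s k151 k215 7 (.s k119 k187 9 (.s k103 k71 3 (.s k55 k199 11 (.s k247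
  k183 7 (.d k7 k39 k167 3 11)))))))] .n) .n)))

def t85_169 : T TT 256 :=
  (.q k51 [(.s k1 k2 0 (.s k17 k34 4 (.s k33 k49 3 (.s k18 k48 4 (.d k19 k16 k35 0 3))))), (.s k19
  k35 3 (.s k87 k171 13 (.s k119 k187 9 (.s k103 k71 3 (.d k155 k223 k207 9 13)))))] (.c k1 (.q k253
  [(.s k35 k19 3 (.s k171 k87 13 (.s k103 k239 9 (.s k155 k207 13 (.d k187 k139 k119 3 9))))), (.s
  k187 k119 9 (.s k252 k254 0 (.s k185 k118 10 (.s k117 k49 9 (.d k186 k184 k48 0 10))))), (.s k17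
  k34 4 (.s k19 k35 3 (.s k16 k18 0 (.s k252 k254 0 (.s k185 k118 10 (.s k117 k49 9 (.d k48 k32 k186
  3 10)))))))] .n) (.c k19 (.q k253 [(.s k187 k119 9 (.s k252 k254 0 (.s k185 k118 10 (.s k117 k49 9
  (.d k186 k184 k48 0 10))))), (.s k1 k2 0 (.s k17 k34 4 (.s k49 k33 3 (.s k117 k185 9 (.d k48 k50
  k186 0 10))))), (.s k2 k1 0 (.s k187 k119 9 (.s k254 k252 0 (.s k170 k86 13 (.s k153 k136 4 (.s
  k102 k204 14 (.d k34 k17 k238 4 9)))))))] .n) (.c k35 (.f k87 k171 13 (.f k17 k34 4 (.l (.s k1 k2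
  0 (.s k33 k49 3 (.s k18 k48 4 (.s k19 k16 0 (.s k119 k187 9 (.s k103 k71 3 (.d k155 k223 k207 9
  13)))))))))) (.c k253 (.l (.s k1 k2 0 (.s k17 k34 4 (.s k33 k49 3 (.s k18 k48 4 (.d k19 k16 k35 0
  3)))))) .n)))))

def t85_170 : T TT 256 :=
  (.q k23 [(.s k1 k2 0 (.s k63 k43 5 (.s k21 k42 6 (.s k41 k61 5 (.d k22 k20 k60 0 6))))), (.s k63
  k43 5 (.s k87 k171 13 (.s k127 k191 7 (.s k107 k67 5 (.d k151 k215 k195 7 13)))))] (.c k43 (.q k51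
  [(.s k1 k2 0 (.s k17 k34 4 (.s k33 k49 3 (.s k18 k48 4 (.d k19 k16 k35 0 3))))), (.s k87 k171 13
  (.s k151 k215 7 (.s k119 k187 9 (.s k103 k71 3 (.s k55 k199 11 (.s k247 k183 7 (.d k7 k39 k167 3
  11)))))))] .n) (.c k63 (.f k1 k2 0 (.l (.s k87 k171 13 (.s k215 k151 7 (.s k195 k235 5 (.s k65
  k130 8 (.s k129 k193 7 (.s k66 k192 8 (.d k67 k131 k64 7 0))))))))) .n)))

def t85_171 : T TT 256 :=
  (.q k82 [(.s k1 k2 0 (.s k161 k240 12 (.s k81 k241 11 (.s k243 k162 12 (.d k83 k80 k163 0 11))))),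
  (.s k2 k1 0 (.s k242 k162 11 (.s k240 k161 12 (.s k250 k245 2 (.s k254 k246 1 (.s k86 k170 13 (.d
  k252 k253 k169 0 14))))))), (.s k2 k1 0 (.s k162 k242 11 (.s k81 k243 12 (.s k240 k161 12 (.d k80
  k83 k160 0 11)))))] (.c k1 (.f k240 k161 12 (.q k253 [(.s k80 k160 11 (.s k81 k83 0 (.s k245 k250
  2 (.s k241 k249 1 (.d k243 k162 k242 12 0))))), (.s k80 k160 11 (.s k252 k254 0 (.s k84 k168 13
  (.s k88 k92 1 (.s k164 k12 13 (.d k244 k248 k4 1 11)))))), (.s k245 k250 2 (.s k252 k254 0 (.s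
  k244 k248 1 (.s k246 k247 0 (.d k249 k241 k243 1 2)))))] (.c k81 (.q k241 [(.d k245 k249 k250 1
  2), (.s k80 k160 11 (.s k252 k254 0 (.s k84 k168 13 (.s k88 k92 1 (.s k164 k12 13 (.d k244 k248 k4
  1 11))))))] (.c k89 (.q k93 [(.d k245 k249 k250 1 2), (.s k80 k160 11 (.s k12 k174 12 (.s k88 k164
  13 (.s k84 k92 1 (.d k252 k168 k254 13 0)))))] .n) (.c k93 (.q k89 [(.d k245 k249 k250 1 2), (.s
  k165 k13 13 (.s k252 k254 0 (.s k86 k169 14 (.d k244 k248 k7 1 12))))] .n) .n))) (.c k241 (.q k81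
  [(.d k80 k83 k160 0 11), (.s k162 k243 12 (.s k242 k2 11 (.s k250 k245 2 (.d k254 k252 k246 0
  1))))] .n) (.c k248 (.l (.s k250 k245 2 (.s k254 k252 0 (.s k242 k246 1 (.s k162 k2 11 (.d k243
  k241 k81 0 12)))))) .n))))) (.c k2 (.q k51 [(.s k35 k19 3 (.s k161 k240 12 (.s k98 k224 8 (.s k192
  k145 12 (.d k66 k114 k129 3 8))))), (.s k17 k34 4 (.s k19 k35 3 (.s k145 k208 8 (.s k81 k209 7 (.s
  k243 k162 12 (.d k83 k80 k163 0 11)))))), (.s k17 k34 4 (.s k240 k161 12 (.s k80 k160 11 (.s k114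
  k177 8 (.s k98 k66 3 (.s k145 k192 12 (.d k81 k83 k209 0 7)))))))] (.c k98 (.l (.s k17 k34 4 (.s
  k19 k35 3 (.s k145 k208 8 (.s k81 k209 7 (.s k80 k83 0 (.d k240 k161 k160 12 11))))))) (.c k145
  (.l (.s k34 k17 4 (.s k35 k19 3 (.s k161 k240 12 (.s k98 k224 8 (.s k162 k226 7 (.s k163 k160 0
  (.d k243 k81 k83 12 11)))))))) .n))) (.c k81 (.f k240 k161 12 (.f k245 k250 2 (.f k1 k2 0 (.q k51
  [(.s k17 k34 4 (.s k33 k49 3 (.s k18 k48 4 (.d k19 k16 k35 0 3)))), (.s k114 k177 8 (.s k66 k98 3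
  (.s k129 k192 8 (.s k65 k193 7 (.s k195 k130 8 (.d k67 k64 k131 0 7))))))] (.c k35 (.l (.s k17 k34
  4 (.s k33 k49 3 (.s k18 k48 4 (.s k19 k16 0 (.s k145 k208 8 (.s k98 k192 12 (.d k114 k66 k177 3
  8)))))))) (.c k89 (.q k93 [(.s k17 k34 4 (.s k33 k49 3 (.s k18 k48 4 (.d k19 k16 k35 0 3)))), (.s
  k19 k35 3 (.s k145 k208 8 (.s k98 k192 12 (.d k114 k66 k177 3 8)))), (.s k17 k34 4 (.s k12 k174 12
  (.s k8 k4 1 (.s k25 k38 6 (.s k42 k59 4 (.d k21 k29 k63 1 6))))))] .n) (.c k93 (.q k89 [(.s k17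
  k34 4 (.s k33 k49 3 (.s k18 k48 4 (.d k19 k16 k35 0 3)))), (.s k114 k177 8 (.s k66 k98 3 (.s k129
  k192 8 (.s k65 k193 7 (.s k195 k130 8 (.d k67 k64 k131 0 7))))))] (.c k35 (.l (.s k17 k34 4 (.s
  k33 k49 3 (.s k18 k48 4 (.s k19 k16 0 (.s k145 k208 8 (.s k98 k192 12 (.d k114 k66 k177 3
  8)))))))) .n)) .n))))))) (.c k161 (.q k51 [(.s k1 k2 0 (.s k17 k34 4 (.s k33 k49 3 (.s k18 k48 4
  (.d k19 k16 k35 0 3))))), (.s k2 k1 0 (.s k162 k242 11 (.s k19 k35 3 (.s k145 k208 8 (.s k128 k179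
  4 (.d k192 k98 k64 12 7)))))), (.s k17 k34 4 (.s k19 k35 3 (.s k145 k208 8 (.s k81 k209 7 (.s k243
  k162 12 (.d k83 k163 k80 11 0)))))), (.s k2 k1 0 (.s k34 k17 4 (.s k162 k242 11 (.s k98 k226 7 (.s
  k192 k145 12 (.d k66 k129 k114 8 3))))))] .n) (.c k162 (.q k51 [(.s k1 k2 0 (.s k17 k34 4 (.s k33
  k49 3 (.s k18 k48 4 (.d k19 k16 k35 0 3))))), (.s k19 k35 3 (.s k161 k240 12 (.s k145 k208 8 (.s
  k129 k177 3 (.d k192 k66 k98 8 12))))), (.s k1 k2 0 (.s k17 k34 4 (.s k161 k240 12 (.s k81 k241 11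
  (.s k145 k209 7 (.s k129 k177 3 (.d k192 k98 k66 12 8)))))))] (.c k98 (.l (.s k2 k1 0 (.s k34 k17
  4 (.s k18 k50 3 (.s k33 k48 4 (.d k35 k32 k19 0 3)))))) .n)) (.c k240 (.q k51 [(.s k1 k2 0 (.s k17
  k34 4 (.s k33 k49 3 (.s k19 k35 3 (.d k18 k16 k48 0 4))))), (.s k2 k1 0 (.s k162 k242 11 (.s k243
  k81 12 (.s k19 k35 3 (.s k145 k208 8 (.d k179 k128 k115 4 7)))))), (.s k2 k1 0 (.s k34 k17 4 (.s
  k162 k242 11 (.s k98 k226 7 (.s k192 k145 12 (.d k66 k114 k129 3 8)))))), (.s k17 k34 4 (.s k19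
  k35 3 (.s k145 k208 8 (.s k81 k209 7 (.s k243 k162 12 (.d k83 k80 k163 0 11))))))] (.c k90 (.q
  k165 [(.s k1 k2 0 (.s k17 k34 4 (.s k33 k49 3 (.s k19 k35 3 (.d k18 k16 k48 0 4))))), (.s k2 k1 0
  (.s k162 k242 11 (.s k243 k81 12 (.s k19 k35 3 (.s k145 k208 8 (.d k179 k128 k115 4 7)))))), (.s
  k2 k1 0 (.s k34 k17 4 (.s k162 k242 11 (.s k98 k226 7 (.s k192 k145 12 (.d k66 k114 k129 3
  8)))))), (.s k17 k34 4 (.s k19 k35 3 (.s k145 k208 8 (.s k81 k209 7 (.s k243 k162 12 (.d k83 k80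
  k163 0 11))))))] (.c k80 (.q k95 [(.s k1 k2 0 (.s k17 k34 4 (.s k33 k49 3 (.s k19 k35 3 (.d k18
  k16 k48 0 4))))), (.s k2 k1 0 (.s k34 k17 4 (.s k162 k242 11 (.s k98 k226 7 (.s k192 k145 12 (.d
  k66 k114 k129 3 8)))))), (.s k2 k1 0 (.s k162 k242 11 (.s k243 k81 12 (.s k19 k35 3 (.s k145 k208
  8 (.d k179 k128 k115 4 7)))))), (.s k17 k34 4 (.s k19 k35 3 (.s k145 k208 8 (.s k81 k209 7 (.s
  k162 k243 12 (.s k192 k98 12 (.d k128 k179 k64 4 7)))))))] .n) (.c k95 (.q k80 [(.s k2 k1 0 (.s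
  k81 k83 0 (.d k162 k242 k243 11 12))), (.s k17 k34 4 (.s k19 k35 3 (.s k16 k18 0 (.d k208 k144
  k145 7 8))))] (.c k2 (.l (.s k17 k34 4 (.s k19 k35 3 (.s k145 k208 8 (.d k81 k83 k209 0 7)))))
  .n)) .n))) (.c k165 (.q k90 [(.s k2 k1 0 (.s k86 k94 1 (.s k254 k170 13 (.d k252 k253 k169 0
  14)))), (.s k17 k34 4 (.s k19 k35 3 (.s k145 k208 8 (.s k81 k209 7 (.s k243 k162 12 (.d k83 k80
  k163 0 11))))))] (.c k5 (.q k245 [(.s k2 k1 0 (.s k86 k94 1 (.s k254 k170 13 (.d k252 k253 k169 0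
  14)))), (.s k17 k34 4 (.s k19 k35 3 (.s k145 k208 8 (.s k81 k209 7 (.s k243 k162 12 (.d k83 k80
  k163 0 11))))))] .n) (.c k245 (.q k5 [(.s k2 k1 0 (.s k86 k94 1 (.s k254 k170 13 (.d k252 k253
  k169 0 14)))), (.s k17 k34 4 (.s k19 k35 3 (.s k145 k208 8 (.s k81 k209 7 (.s k243 k162 12 (.d k83
  k80 k163 0 11))))))] .n) .n))) .n))) (.c k241 (.l (.s k2 k1 0 (.s k162 k242 11 (.s k81 k243 12 (.s
  k240 k161 12 (.d k80 k83 k160 0 11)))))) (.c k242 (.l (.s k1 k2 0 (.s k161 k240 12 (.s k81 k241 11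
  (.s k243 k162 12 (.d k83 k80 k163 0 11)))))) .n)))))))))

def t85_172 : T TT 256 :=
  (.f k1 k2 0 (.q k67 [(.s k195 k131 7 (.s k65 k130 8 (.s k129 k193 7 (.d k66 k64 k192 0 8)))), (.s
  k87 k171 13 (.s k127 k107 5 (.s k63 k191 7 (.s k21 k42 6 (.s k41 k61 5 (.s k22 k60 6 (.d k23 k43
  k20 5 0)))))))] (.c k131 (.q k63 [(.s k87 k171 13 (.d k127 k191 k107 7 5)), (.s k21 k42 6 (.s k41
  k61 5 (.s k22 k60 6 (.d k23 k20 k43 0 5))))] .n) .n)))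

def t85_173 : T TT 256 :=
  (.f k1 k2 0 (.f k87 k171 13 (.q k63 [(.s k23 k43 5 (.s k127 k191 7 (.s k107 k67 5 (.d k151 k215
  k195 7 13)))), (.s k21 k42 6 (.s k41 k61 5 (.s k22 k60 6 (.d k23 k20 k43 0 5))))] (.c k23 (.q k252
  [(.s k21 k42 6 (.s k61 k41 5 (.s k189 k126 8 (.d k253 k254 k125 0 7)))), (.s k86 k169 14 (.s k126
  k189 8 (.s k127 k191 7 (.s k67 k107 5 (.d k124 k125 k105 0 6)))))] (.c k43 (.l (.s k21 k42 6 (.s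
  k189 k126 8 (.s k253 k254 0 (.d k61 k41 k125 5 7))))) (.c k125 (.l (.s k21 k42 6 (.s k61 k41 5 (.s
  k62 k60 0 (.s k126 k189 8 (.d k254 k253 k190 0 7)))))) (.c k126 (.l (.s k21 k42 6 (.s k61 k41 5
  (.s k253 k254 0 (.s k125 k189 7 (.d k60 k62 k190 0 8)))))) (.c k189 (.l (.s k86 k169 14 (.s k127
  k191 7 (.s k67 k107 5 (.s k124 k105 6 (.s k125 k126 0 (.d k60 k188 k190 7 8))))))) .n))))) (.c k43
  (.l (.s k21 k42 6 (.s k41 k61 5 (.s k22 k60 6 (.s k23 k20 0 (.s k127 k191 7 (.s k107 k67 5 (.d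
  k151 k215 k195 7 13)))))))) (.c k94 (.q k252 [(.s k21 k42 6 (.s k41 k61 5 (.s k22 k60 6 (.d k23
  k20 k43 0 5)))), (.s k23 k43 5 (.s k151 k215 7 (.s k107 k195 13 (.d k127 k67 k191 5 7)))), (.s k21
  k42 6 (.s k189 k126 8 (.s k253 k254 0 (.d k61 k41 k125 5 7))))] .n) (.c k252 (.q k94 [(.s k23 k43
  5 (.s k127 k191 7 (.s k107 k67 5 (.d k151 k215 k195 7 13)))), (.s k21 k42 6 (.s k41 k61 5 (.s k22
  k60 6 (.d k23 k20 k43 0 5))))] (.c k23 (.q k67 [(.d k127 k107 k191 5 7), (.s k195 k131 7 (.s k65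
  k130 8 (.s k129 k193 7 (.d k66 k64 k192 0 8))))] (.c k191 (.l (.s k107 k127 5 (.d k195 k131 k151 7
  13))) .n)) (.c k43 (.l (.s k21 k42 6 (.s k41 k61 5 (.s k22 k60 6 (.s k23 k20 0 (.s k127 k191 7 (.s
  k107 k67 5 (.d k151 k215 k195 7 13)))))))) .n))) .n)))))))

def t85_174 : T TT 256 :=
  (.f k87 k171 13 (.q k51 [(.s k19 k35 3 (.s k119 k187 9 (.s k103 k71 3 (.d k155 k223 k207 9 13)))),
  (.s k1 k2 0 (.s k17 k34 4 (.s k33 k49 3 (.s k18 k48 4 (.d k19 k16 k35 0 3)))))] (.c k19 (.q k253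
  [(.s k1 k2 0 (.s k17 k34 4 (.s k49 k33 3 (.s k117 k185 9 (.d k48 k50 k186 0 10))))), (.s k119 k187
  9 (.s k71 k103 3 (.s k252 k254 0 (.s k86 k169 14 (.s k118 k185 10 (.d k116 k117 k101 0 4)))))),
  (.s k2 k1 0 (.s k34 k17 4 (.s k187 k119 9 (.s k254 k252 0 (.s k170 k86 13 (.s k102 k238 9 (.d k153
  k136 k204 4 14)))))))] .n) (.c k35 (.f k17 k34 4 (.l (.s k1 k2 0 (.s k33 k49 3 (.s k18 k48 4 (.s
  k19 k16 0 (.s k119 k187 9 (.s k103 k71 3 (.d k155 k223 k207 9 13))))))))) .n))))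

def t85_175 : T TT 256 :=
  (.f k1 k2 0 (.q k67 [(.s k195 k131 7 (.s k65 k130 8 (.s k129 k193 7 (.d k66 k64 k192 0 8)))), (.s
  k87 k171 13 (.s k127 k107 5 (.s k63 k191 7 (.s k21 k42 6 (.s k41 k61 5 (.s k22 k60 6 (.d k23 k43
  k20 5 0)))))))] (.c k131 (.q k63 [(.s k87 k171 13 (.d k127 k191 k107 7 5)), (.s k21 k42 6 (.s k41
  k61 5 (.s k22 k60 6 (.d k23 k20 k43 0 5))))] .n) .n)))

def t85_176 : T TT 256 :=
  (.f k87 k171 13 (.q k51 [(.s k19 k35 3 (.s k119 k187 9 (.s k103 k71 3 (.d k155 k223 k207 9 13)))),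
  (.s k1 k2 0 (.s k17 k34 4 (.s k33 k49 3 (.s k18 k48 4 (.d k19 k16 k35 0 3)))))] (.c k19 (.q k253
  [(.s k1 k2 0 (.s k17 k34 4 (.s k49 k33 3 (.s k117 k185 9 (.d k48 k50 k186 0 10))))), (.s k119 k187
  9 (.s k71 k103 3 (.s k252 k254 0 (.s k86 k169 14 (.s k118 k185 10 (.d k116 k117 k101 0 4)))))),
  (.s k2 k1 0 (.s k34 k17 4 (.s k187 k119 9 (.s k254 k252 0 (.s k170 k86 13 (.s k102 k238 9 (.d k153
  k136 k204 4 14)))))))] .n) (.c k35 (.f k17 k34 4 (.l (.s k1 k2 0 (.s k33 k49 3 (.s k18 k48 4 (.s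
  k19 k16 0 (.s k119 k187 9 (.s k103 k71 3 (.d k155 k223 k207 9 13))))))))) .n))))

def t85_177 : T TT 256 :=
  (.f k1 k2 0 (.q k67 [(.s k195 k131 7 (.s k65 k130 8 (.s k129 k193 7 (.d k66 k64 k192 0 8)))), (.s
  k87 k171 13 (.s k127 k107 5 (.s k63 k191 7 (.s k21 k42 6 (.s k41 k61 5 (.s k22 k60 6 (.d k23 k43
  k20 5 0)))))))] (.c k131 (.q k63 [(.s k87 k171 13 (.d k127 k191 k107 7 5)), (.s k21 k42 6 (.s k41
  k61 5 (.s k22 k60 6 (.d k23 k20 k43 0 5))))] .n) .n)))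

def t85_178 : T TT 256 :=
  (.f k1 k2 0 (.q k67 [(.s k195 k131 7 (.s k65 k130 8 (.s k129 k193 7 (.d k66 k64 k192 0 8)))), (.s
  k87 k171 13 (.s k127 k107 5 (.s k63 k191 7 (.s k21 k42 6 (.s k41 k61 5 (.s k22 k60 6 (.d k23 k43
  k20 5 0)))))))] (.c k131 (.q k63 [(.s k87 k171 13 (.d k127 k191 k107 7 5)), (.s k21 k42 6 (.s k41
  k61 5 (.s k22 k60 6 (.d k23 k20 k43 0 5))))] .n) .n)))

def t85_179 : T TT 256 :=
  (.f k87 k171 13 (.q k51 [(.s k19 k35 3 (.s k119 k187 9 (.s k103 k71 3 (.d k155 k223 k207 9 13)))),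
  (.s k1 k2 0 (.s k17 k34 4 (.s k33 k49 3 (.s k18 k48 4 (.d k19 k16 k35 0 3)))))] (.c k19 (.q k253
  [(.s k187 k119 9 (.s k252 k254 0 (.s k185 k118 10 (.s k117 k49 9 (.d k186 k184 k48 0 10))))), (.s
  k1 k2 0 (.s k17 k34 4 (.s k49 k33 3 (.s k117 k185 9 (.d k48 k50 k186 0 10))))), (.s k2 k1 0 (.s
  k34 k17 4 (.s k187 k119 9 (.s k254 k252 0 (.s k170 k86 13 (.s k102 k238 9 (.d k153 k136 k204 4
  14)))))))] (.c k49 (.l (.s k119 k187 9 (.s k71 k103 3 (.s k252 k254 0 (.s k86 k169 14 (.s k118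
  k185 10 (.d k116 k117 k101 0 4))))))) .n)) (.c k35 (.f k17 k34 4 (.l (.s k1 k2 0 (.s k33 k49 3 (.s
  k18 k48 4 (.s k19 k16 0 (.s k119 k187 9 (.s k103 k71 3 (.d k155 k223 k207 9 13))))))))) .n))))

def t85_180 : T TT 256 :=
  (.f k1 k2 0 (.q k67 [(.s k195 k131 7 (.s k65 k130 8 (.s k129 k193 7 (.d k66 k64 k192 0 8)))), (.s
  k87 k171 13 (.s k127 k107 5 (.s k63 k191 7 (.s k21 k42 6 (.s k41 k61 5 (.s k22 k60 6 (.d k23 k43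
  k20 5 0)))))))] (.c k131 (.q k63 [(.s k87 k171 13 (.d k127 k191 k107 7 5)), (.s k21 k42 6 (.s k41
  k61 5 (.s k22 k60 6 (.d k23 k20 k43 0 5))))] .n) .n)))

def t85_181 : T TT 256 :=
  (.f k1 k2 0 (.q k67 [(.s k195 k131 7 (.s k65 k130 8 (.s k129 k193 7 (.d k66 k64 k192 0 8)))), (.s
  k87 k171 13 (.s k127 k107 5 (.s k63 k191 7 (.s k21 k42 6 (.s k41 k61 5 (.s k22 k60 6 (.d k23 k43
  k20 5 0)))))))] (.c k131 (.q k63 [(.s k87 k171 13 (.d k127 k191 k107 7 5)), (.s k21 k42 6 (.s k41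
  k61 5 (.s k22 k60 6 (.d k23 k20 k43 0 5))))] .n) .n)))

def t85_182 : T TT 256 :=
  (.f k1 k2 0 (.q k67 [(.s k195 k131 7 (.s k65 k130 8 (.s k129 k193 7 (.d k66 k64 k192 0 8)))), (.s
  k87 k171 13 (.s k127 k107 5 (.s k63 k191 7 (.s k21 k42 6 (.s k41 k61 5 (.s k22 k60 6 (.d k23 k43
  k20 5 0)))))))] (.c k131 (.q k63 [(.s k87 k171 13 (.d k127 k191 k107 7 5)), (.s k21 k42 6 (.s k41
  k61 5 (.s k22 k60 6 (.d k23 k20 k43 0 5))))] .n) .n)))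

def t85_183 : T TT 256 :=
  (.f k87 k171 13 (.q k51 [(.s k19 k35 3 (.s k119 k187 9 (.s k103 k71 3 (.d k155 k223 k207 9 13)))),
  (.s k1 k2 0 (.s k17 k34 4 (.s k33 k49 3 (.s k18 k48 4 (.d k19 k16 k35 0 3)))))] (.c k19 (.q k253
  [(.s k1 k2 0 (.s k17 k34 4 (.s k49 k33 3 (.s k117 k185 9 (.d k48 k50 k186 0 10))))), (.s k119 k187
  9 (.s k71 k103 3 (.s k252 k254 0 (.s k86 k169 14 (.s k118 k185 10 (.d k116 k117 k101 0 4)))))),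
  (.s k2 k1 0 (.s k34 k17 4 (.s k187 k119 9 (.s k254 k252 0 (.s k170 k86 13 (.s k102 k238 9 (.d k153
  k136 k204 4 14)))))))] .n) (.c k35 (.f k17 k34 4 (.l (.s k1 k2 0 (.s k33 k49 3 (.s k18 k48 4 (.s
  k19 k16 0 (.s k119 k187 9 (.s k103 k71 3 (.d k155 k223 k207 9 13))))))))) .n))))

def t85_184 : T TT 256 :=
  (.f k1 k2 0 (.q k67 [(.s k195 k131 7 (.s k65 k130 8 (.s k129 k193 7 (.d k66 k64 k192 0 8)))), (.s
  k87 k171 13 (.s k127 k107 5 (.s k63 k191 7 (.s k21 k42 6 (.s k41 k61 5 (.s k22 k60 6 (.d k23 k43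
  k20 5 0)))))))] (.c k131 (.q k63 [(.s k87 k171 13 (.d k127 k191 k107 7 5)), (.s k21 k42 6 (.s k41
  k61 5 (.s k22 k60 6 (.d k23 k20 k43 0 5))))] .n) .n)))

def t85_185 : T TT 256 :=
  (.f k1 k2 0 (.q k67 [(.s k195 k131 7 (.s k65 k130 8 (.s k129 k193 7 (.d k66 k64 k192 0 8)))), (.s
  k87 k171 13 (.s k127 k107 5 (.s k63 k191 7 (.s k21 k42 6 (.s k41 k61 5 (.s k22 k60 6 (.d k23 k43
  k20 5 0)))))))] (.c k131 (.q k63 [(.s k87 k171 13 (.d k127 k191 k107 7 5)), (.s k21 k42 6 (.s k41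
  k61 5 (.s k22 k60 6 (.d k23 k20 k43 0 5))))] .n) .n)))

def t85_186 : T TT 256 :=
  (.f k87 k171 13 (.q k51 [(.s k19 k35 3 (.s k119 k187 9 (.s k103 k71 3 (.d k155 k223 k207 9 13)))),
  (.s k1 k2 0 (.s k17 k34 4 (.s k33 k49 3 (.s k18 k48 4 (.d k19 k16 k35 0 3)))))] (.c k19 (.q k63
  [(.s k23 k43 5 (.s k127 k191 7 (.s k107 k67 5 (.d k151 k215 k195 7 13)))), (.s k17 k34 4 (.s k21
  k42 6 (.s k25 k29 1 (.s k38 k12 6 (.d k55 k59 k4 1 4)))))] .n) (.c k35 (.f k17 k34 4 (.l (.s k1 k2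
  0 (.s k33 k49 3 (.s k18 k48 4 (.s k19 k16 0 (.s k119 k187 9 (.s k103 k71 3 (.d k155 k223 k207 9
  13))))))))) .n))))

def t85_187 : T TT 256 :=
  (.f k1 k2 0 (.q k67 [(.s k195 k131 7 (.s k65 k130 8 (.s k129 k193 7 (.d k66 k64 k192 0 8)))), (.s
  k87 k171 13 (.s k127 k107 5 (.s k63 k191 7 (.s k21 k42 6 (.s k41 k61 5 (.s k22 k60 6 (.d k23 k43
  k20 5 0)))))))] (.c k131 (.q k63 [(.s k87 k171 13 (.d k127 k191 k107 7 5)), (.s k21 k42 6 (.s k41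
  k61 5 (.s k22 k60 6 (.d k23 k20 k43 0 5))))] .n) .n)))

def t85_188 : T TT 256 :=
  (.f k1 k2 0 (.f k87 k171 13 (.q k63 [(.s k21 k42 6 (.s k41 k61 5 (.s k23 k43 5 (.d k22 k20 k60 0
  6)))), (.s k23 k43 5 (.s k127 k191 7 (.s k107 k67 5 (.d k151 k215 k195 7 13)))), (.s k21 k42 6 (.s
  k41 k61 5 (.s k22 k60 6 (.d k23 k20 k43 0 5))))] (.c k23 (.q k67 [(.d k127 k107 k191 5 7), (.s
  k195 k131 7 (.s k65 k130 8 (.s k129 k193 7 (.d k66 k64 k192 0 8))))] (.c k191 (.l (.s k107 k127 5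
  (.d k195 k131 k151 7 13))) .n)) (.c k43 (.l (.s k21 k42 6 (.s k41 k61 5 (.s k22 k60 6 (.s k23 k20
  0 (.s k127 k191 7 (.s k107 k67 5 (.d k151 k215 k195 7 13)))))))) .n)))))

def t85_189 : T TT 256 :=
  (.f k87 k171 13 (.q k51 [(.s k19 k35 3 (.s k119 k187 9 (.s k103 k71 3 (.d k155 k223 k207 9 13)))),
  (.s k1 k2 0 (.s k17 k34 4 (.s k33 k49 3 (.s k18 k48 4 (.d k19 k16 k35 0 3)))))] (.c k19 (.q k63
  [(.s k23 k43 5 (.s k127 k191 7 (.s k107 k67 5 (.d k151 k215 k195 7 13)))), (.s k17 k34 4 (.s k21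
  k42 6 (.s k25 k29 1 (.s k38 k12 6 (.d k55 k59 k4 1 4)))))] .n) (.c k35 (.f k17 k34 4 (.l (.s k1 k2
  0 (.s k33 k49 3 (.s k18 k48 4 (.s k19 k16 0 (.s k119 k187 9 (.s k103 k71 3 (.d k155 k223 k207 9
  13))))))))) .n))))

def t85_190 : T TT 256 :=
  (.f k1 k2 0 (.f k87 k171 13 (.q k63 [(.s k21 k42 6 (.s k41 k61 5 (.s k22 k60 6 (.d k23 k20 k43 0
  5)))), (.s k23 k43 5 (.s k127 k191 7 (.s k107 k67 5 (.d k151 k215 k195 7 13))))] (.c k23 (.q k67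
  [(.d k127 k107 k191 5 7), (.s k195 k131 7 (.s k65 k130 8 (.s k129 k193 7 (.d k66 k64 k192 0 8))))]
  (.c k191 (.l (.s k107 k127 5 (.d k195 k131 k151 7 13))) .n)) (.c k43 (.l (.s k21 k42 6 (.s k41 k61
  5 (.s k22 k60 6 (.s k23 k20 0 (.s k127 k191 7 (.s k107 k67 5 (.d k151 k215 k195 7 13))))))))
  .n)))))

def t85_191 : T TT 256 :=
  (.f k87 k171 13 (.q k195 [(.s k215 k235 5 (.s k67 k131 7 (.s k151 k23 7 (.d k107 k127 k63 5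
  13)))), (.s k1 k2 0 (.s k65 k130 8 (.s k129 k193 7 (.s k66 k192 8 (.d k67 k131 k64 7 0)))))] (.c
  k67 (.f k65 k130 8 (.q k151 [(.d k215 k235 k23 5 7), (.s k1 k2 0 (.s k193 k129 7 (.s k63 k107 13
  (.s k21 k42 6 (.s k61 k41 5 (.s k105 k149 13 (.d k60 k62 k150 0 14)))))))] (.c k235 (.l (.s k23
  k215 7 (.d k63 k43 k107 5 13))) .n))) (.c k131 (.q k151 [(.d k215 k235 k23 5 7), (.s k1 k2 0 (.s
  k65 k130 8 (.s k129 k193 7 (.s k66 k192 8 (.s k107 k63 13 (.d k67 k64 k127 0 5))))))] .n) (.c k151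
  (.l (.s k131 k67 7 (.s k2 k1 0 (.s k130 k65 8 (.s k66 k194 7 (.d k129 k128 k192 0 8)))))) .n)))))

def t85_192 : T TT 256 :=
  (.f k1 k2 0 (.q k19 [(.s k51 k35 3 (.s k17 k34 4 (.s k33 k49 3 (.d k18 k16 k48 0 4)))), (.s k87
  k171 13 (.s k223 k155 9 (.s k207 k239 3 (.s k69 k138 10 (.s k137 k205 9 (.s k70 k204 10 (.d k71
  k139 k68 9 0)))))))] (.c k35 (.q k63 [(.s k21 k42 6 (.s k41 k61 5 (.s k23 k43 5 (.d k22 k20 k60 0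
  6)))), (.s k23 k43 5 (.s k87 k171 13 (.s k127 k191 7 (.s k107 k67 5 (.d k151 k215 k195 7 13))))),
  (.s k21 k42 6 (.s k41 k61 5 (.s k22 k60 6 (.s k25 k28 2 (.s k9 k57 3 (.s k12 k6 2 (.d k29 k17 k46
  1 4)))))))] (.c k74 (.q k133 [(.s k21 k42 6 (.s k41 k61 5 (.s k23 k43 5 (.d k22 k20 k60 0 6)))),
  (.s k23 k43 5 (.s k87 k171 13 (.s k127 k191 7 (.s k107 k67 5 (.d k151 k215 k195 7 13))))), (.s k21
  k42 6 (.s k41 k61 5 (.s k22 k60 6 (.s k25 k28 2 (.s k9 k57 3 (.s k12 k6 2 (.d k29 k17 k46 1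
  4)))))))] .n) (.c k133 (.q k74 [(.s k21 k42 6 (.s k41 k61 5 (.s k23 k43 5 (.d k22 k20 k60 0 6)))),
  (.s k23 k43 5 (.s k87 k171 13 (.s k127 k191 7 (.s k107 k67 5 (.d k151 k215 k195 7 13))))), (.s k21
  k42 6 (.s k41 k61 5 (.s k22 k60 6 (.s k25 k28 2 (.s k9 k57 3 (.s k12 k6 2 (.d k29 k17 k46 1
  4)))))))] .n) .n))) (.c k74 (.q k133 [(.s k51 k35 3 (.s k17 k34 4 (.s k33 k49 3 (.d k18 k16 k48 0
  4)))), (.s k87 k171 13 (.s k223 k155 9 (.s k207 k239 3 (.s k69 k138 10 (.s k137 k205 9 (.s k70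
  k204 10 (.d k71 k139 k68 9 0)))))))] (.c k35 (.q k63 [(.s k21 k42 6 (.s k41 k61 5 (.s k23 k43 5
  (.d k22 k20 k60 0 6)))), (.s k23 k43 5 (.s k87 k171 13 (.s k127 k191 7 (.s k107 k67 5 (.d k151
  k215 k195 7 13))))), (.s k21 k42 6 (.s k41 k61 5 (.s k22 k60 6 (.s k25 k28 2 (.s k9 k57 3 (.s k12
  k6 2 (.d k29 k17 k46 1 4)))))))] .n) .n)) (.c k133 (.q k74 [(.s k51 k35 3 (.s k17 k34 4 (.s k33
  k49 3 (.d k18 k16 k48 0 4)))), (.s k87 k171 13 (.s k223 k155 9 (.s k207 k239 3 (.s k69 k138 10 (.s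
  k137 k205 9 (.s k70 k204 10 (.d k71 k139 k68 9 0)))))))] (.c k35 (.q k63 [(.s k21 k42 6 (.s k41
  k61 5 (.s k23 k43 5 (.d k22 k20 k60 0 6)))), (.s k23 k43 5 (.s k87 k171 13 (.s k127 k191 7 (.s
  k107 k67 5 (.d k151 k215 k195 7 13))))), (.s k21 k42 6 (.s k41 k61 5 (.s k22 k60 6 (.s k25 k28 2
  (.s k9 k57 3 (.s k12 k6 2 (.d k29 k17 k46 1 4)))))))] .n) .n)) .n)))))

def t85_193 : T TT 256 :=
  (.f k1 k2 0 (.f k87 k171 13 (.q k51 [(.s k19 k35 3 (.s k119 k187 9 (.s k103 k71 3 (.d k155 k223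
  k207 9 13)))), (.s k17 k34 4 (.s k33 k49 3 (.s k18 k48 4 (.d k19 k16 k35 0 3))))] (.c k19 (.q k81
  [(.s k243 k162 12 (.s k161 k241 11 (.s k82 k240 12 (.d k83 k80 k163 0 11)))), (.s k17 k34 4 (.s
  k162 k243 12 (.s k145 k209 7 (.s k192 k98 12 (.d k128 k179 k64 4 7))))), (.s k17 k34 4 (.s k33 k49
  3 (.s k161 k241 11 (.s k145 k209 7 (.s k225 k97 7 (.s k177 k129 3 (.d k240 k114 k82 8 12))))))),
  (.s k243 k162 12 (.s k83 k163 11 (.s k82 k80 0 (.d k161 k241 k240 11 12))))] (.c k241 (.l (.s k17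
  k34 4 (.s k243 k162 12 (.s k115 k179 7 (.s k98 k64 4 (.d k145 k209 k192 7 12)))))) .n)) (.c k35
  (.l (.s k17 k34 4 (.s k33 k49 3 (.s k18 k48 4 (.s k19 k16 0 (.s k119 k187 9 (.s k103 k71 3 (.d
  k155 k223 k207 9 13)))))))) .n)))))

def t85_194 : T TT 256 :=
  (.f k87 k171 13 (.q k51 [(.s k19 k35 3 (.s k119 k187 9 (.s k103 k71 3 (.d k155 k223 k207 9 13)))),
  (.s k1 k2 0 (.s k17 k34 4 (.s k33 k49 3 (.s k18 k48 4 (.d k19 k16 k35 0 3)))))] (.c k19 (.q k81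
  [(.s k17 k34 4 (.s k162 k243 12 (.s k145 k209 7 (.s k192 k98 12 (.d k128 k179 k64 4 7))))), (.s k1
  k2 0 (.s k243 k162 12 (.s k161 k241 11 (.s k82 k240 12 (.d k83 k80 k163 0 11))))), (.s k1 k2 0 (.s
  k17 k34 4 (.s k161 k241 11 (.s k145 k209 7 (.s k129 k177 3 (.d k192 k66 k98 8 12))))))] .n) (.c
  k35 (.f k1 k2 0 (.l (.s k17 k34 4 (.s k33 k49 3 (.s k18 k48 4 (.s k19 k16 0 (.s k119 k187 9 (.s
  k103 k71 3 (.d k155 k223 k207 9 13))))))))) .n))))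

def t85_195 : T TT 256 :=
  (.f k87 k171 13 (.f k1 k2 0 (.q k51 [(.s k19 k35 3 (.s k119 k187 9 (.s k103 k71 3 (.d k155 k223
  k207 9 13)))), (.s k17 k34 4 (.s k33 k49 3 (.s k18 k48 4 (.d k19 k16 k35 0 3))))] (.c k19 (.q k81
  [(.s k243 k162 12 (.s k161 k241 11 (.s k82 k240 12 (.d k83 k80 k163 0 11)))), (.s k17 k34 4 (.s
  k162 k243 12 (.s k145 k209 7 (.s k192 k98 12 (.d k128 k179 k64 4 7))))), (.s k17 k34 4 (.s k161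
  k241 11 (.s k145 k209 7 (.s k129 k177 3 (.d k192 k66 k98 8 12)))))] (.c k75 (.q k135 [(.s k243
  k162 12 (.s k161 k241 11 (.s k82 k240 12 (.d k83 k80 k163 0 11)))), (.s k17 k34 4 (.s k162 k243 12
  (.s k145 k209 7 (.s k192 k98 12 (.d k128 k179 k64 4 7))))), (.s k17 k34 4 (.s k161 k241 11 (.s
  k145 k209 7 (.s k129 k177 3 (.d k192 k66 k98 8 12)))))] .n) (.c k135 (.q k75 [(.s k243 k162 12 (.s
  k161 k241 11 (.s k82 k240 12 (.d k83 k80 k163 0 11)))), (.s k17 k34 4 (.s k162 k243 12 (.s k145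
  k209 7 (.s k192 k98 12 (.d k128 k179 k64 4 7))))), (.s k17 k34 4 (.s k161 k241 11 (.s k145 k209 7
  (.s k129 k177 3 (.d k192 k66 k98 8 12)))))] .n) .n))) (.c k35 (.l (.s k17 k34 4 (.s k33 k49 3 (.s
  k18 k48 4 (.s k19 k16 0 (.s k119 k187 9 (.s k103 k71 3 (.d k155 k223 k207 9 13)))))))) (.c k75 (.q
  k135 [(.s k17 k34 4 (.s k33 k49 3 (.s k19 k35 3 (.d k18 k16 k48 0 4)))), (.s k119 k187 9 (.s k71
  k103 3 (.s k7 k199 7 (.s k247 k167 11 (.s k55 k183 7 (.s k63 k59 1 (.d k23 k39 k43 3 5))))))), (.s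
  k17 k34 4 (.s k33 k49 3 (.s k18 k48 4 (.d k19 k16 k35 0 3))))] (.c k35 (.l (.s k17 k34 4 (.s k33
  k49 3 (.s k18 k48 4 (.s k19 k16 0 (.s k119 k187 9 (.s k103 k71 3 (.d k155 k223 k207 9 13))))))))
  .n)) (.c k135 (.q k75 [(.s k17 k34 4 (.s k33 k49 3 (.s k19 k35 3 (.d k18 k16 k48 0 4)))), (.s k119
  k187 9 (.s k71 k103 3 (.s k67 k79 1 (.s k127 k107 5 (.s k115 k123 1 (.s k243 k179 7 (.d k83 k99
  k163 3 11))))))), (.s k17 k34 4 (.s k33 k49 3 (.s k18 k48 4 (.d k19 k16 k35 0 3))))] (.c k35 (.l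
  (.s k17 k34 4 (.s k33 k49 3 (.s k18 k48 4 (.s k19 k16 0 (.s k119 k187 9 (.s k103 k71 3 (.d k155
  k223 k207 9 13)))))))) .n)) .n)))))))

def t85_196 : T TT 256 :=
  (.f k1 k2 0 (.q k19 [(.s k51 k35 3 (.s k17 k34 4 (.s k33 k49 3 (.d k18 k16 k48 0 4)))), (.s k87
  k171 13 (.s k223 k155 9 (.s k207 k239 3 (.s k69 k138 10 (.s k137 k205 9 (.s k70 k204 10 (.d k71
  k139 k68 9 0)))))))] (.c k35 (.q k63 [(.s k21 k42 6 (.s k41 k61 5 (.s k22 k60 6 (.d k23 k20 k43 0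
  5)))), (.s k23 k43 5 (.s k87 k171 13 (.s k127 k191 7 (.s k107 k67 5 (.d k151 k215 k195 7 13))))),
  (.s k21 k42 6 (.s k41 k61 5 (.s k22 k60 6 (.s k25 k28 2 (.s k9 k57 3 (.s k12 k6 2 (.d k29 k17 k46
  1 4)))))))] .n) .n)))

def t85_197 : T TT 256 :=
  (.f k87 k171 13 (.q k195 [(.s k67 k131 7 (.s k215 k235 5 (.s k151 k23 7 (.d k107 k127 k63 5
  13)))), (.s k1 k2 0 (.s k65 k130 8 (.s k129 k193 7 (.s k66 k192 8 (.d k67 k64 k131 0 7)))))] (.c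
  k67 (.q k51 [(.s k19 k35 3 (.s k155 k223 9 (.s k119 k187 9 (.d k103 k71 k207 3 13)))), (.s k1 k2 0
  (.s k17 k34 4 (.s k33 k49 3 (.s k18 k48 4 (.d k19 k16 k35 0 3))))), (.s k99 k147 11 (.s k119 k187
  9 (.s k103 k71 3 (.s k107 k111 1 (.s k151 k63 13 (.d k215 k235 k23 5 7))))))] .n) (.c k131 (.f k65
  k130 8 (.l (.s k1 k2 0 (.s k129 k193 7 (.s k66 k192 8 (.s k67 k64 0 (.s k215 k235 5 (.s k151 k23 7
  (.d k107 k127 k63 5 13))))))))) .n))))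

def t85_198 : T TT 256 :=
  (.f k1 k2 0 (.q k19 [(.s k51 k35 3 (.s k17 k34 4 (.s k33 k49 3 (.d k18 k16 k48 0 4)))), (.s k87
  k171 13 (.s k223 k155 9 (.s k207 k239 3 (.s k69 k138 10 (.s k137 k205 9 (.s k70 k204 10 (.d k71
  k139 k68 9 0)))))))] (.c k35 (.q k63 [(.s k21 k42 6 (.s k41 k61 5 (.s k22 k60 6 (.d k23 k20 k43 0
  5)))), (.s k23 k43 5 (.s k87 k171 13 (.s k127 k191 7 (.s k107 k67 5 (.d k151 k215 k195 7 13))))),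
  (.s k21 k42 6 (.s k41 k61 5 (.s k22 k60 6 (.s k25 k28 2 (.s k9 k57 3 (.s k12 k6 2 (.d k29 k17 k46
  1 4)))))))] .n) .n)))

def t85_199 : T TT 256 :=
  (.f k1 k2 0 (.q k19 [(.s k51 k35 3 (.s k17 k34 4 (.s k33 k49 3 (.d k18 k16 k48 0 4)))), (.s k87
  k171 13 (.s k223 k155 9 (.s k207 k239 3 (.s k69 k138 10 (.s k137 k205 9 (.s k70 k204 10 (.d k71
  k139 k68 9 0)))))))] (.c k35 (.q k63 [(.s k21 k42 6 (.s k41 k61 5 (.s k22 k60 6 (.d k23 k20 k43 0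
  5)))), (.s k23 k43 5 (.s k87 k171 13 (.s k127 k191 7 (.s k107 k67 5 (.d k151 k215 k195 7 13))))),
  (.s k21 k42 6 (.s k41 k61 5 (.s k22 k60 6 (.s k25 k28 2 (.s k9 k57 3 (.s k12 k6 2 (.d k29 k17 k46
  1 4)))))))] .n) .n)))

def t85_200 : T TT 256 :=
  (.f k87 k171 13 (.f k1 k2 0 (.q k51 [(.s k19 k35 3 (.s k119 k187 9 (.s k103 k71 3 (.d k155 k223
  k207 9 13)))), (.s k17 k34 4 (.s k33 k49 3 (.s k18 k48 4 (.d k19 k16 k35 0 3))))] (.c k19 (.q k81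
  [(.s k243 k162 12 (.s k161 k241 11 (.s k82 k240 12 (.d k83 k80 k163 0 11)))), (.s k17 k34 4 (.s
  k162 k243 12 (.s k145 k209 7 (.s k192 k98 12 (.d k128 k179 k64 4 7))))), (.s k17 k34 4 (.s k161
  k241 11 (.s k145 k209 7 (.s k129 k177 3 (.d k192 k66 k98 8 12)))))] .n) (.c k35 (.l (.s k17 k34 4
  (.s k33 k49 3 (.s k18 k48 4 (.s k19 k16 0 (.s k119 k187 9 (.s k103 k71 3 (.d k155 k223 k207 9
  13)))))))) .n)))))

def t85_201 : T TT 256 :=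
  (.f k87 k171 13 (.f k1 k2 0 (.q k51 [(.s k19 k35 3 (.s k119 k187 9 (.s k103 k71 3 (.d k155 k223
  k207 9 13)))), (.s k17 k34 4 (.s k33 k49 3 (.s k18 k48 4 (.d k19 k16 k35 0 3))))] (.c k19 (.q k81
  [(.s k243 k162 12 (.s k161 k241 11 (.s k82 k240 12 (.d k83 k80 k163 0 11)))), (.s k17 k34 4 (.s
  k162 k243 12 (.s k145 k209 7 (.s k192 k98 12 (.d k128 k179 k64 4 7))))), (.s k17 k34 4 (.s k161
  k241 11 (.s k145 k209 7 (.s k129 k177 3 (.d k192 k66 k98 8 12)))))] .n) (.c k35 (.l (.s k17 k34 4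
  (.s k33 k49 3 (.s k18 k48 4 (.s k19 k16 0 (.s k119 k187 9 (.s k103 k71 3 (.d k155 k223 k207 9
  13)))))))) .n)))))

def t85_202 : T TT 256 :=
  (.f k1 k2 0 (.q k19 [(.s k51 k35 3 (.s k17 k34 4 (.s k33 k49 3 (.d k18 k16 k48 0 4)))), (.s k87
  k171 13 (.s k223 k155 9 (.s k207 k239 3 (.s k69 k138 10 (.s k137 k205 9 (.s k70 k204 10 (.d k71
  k139 k68 9 0)))))))] (.c k35 (.q k63 [(.s k21 k42 6 (.s k41 k61 5 (.s k22 k60 6 (.d k23 k20 k43 0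
  5)))), (.s k23 k43 5 (.s k87 k171 13 (.s k127 k191 7 (.s k107 k67 5 (.d k151 k215 k195 7 13))))),
  (.s k21 k42 6 (.s k41 k61 5 (.s k22 k60 6 (.s k25 k28 2 (.s k9 k57 3 (.s k12 k6 2 (.d k29 k17 k46
  1 4)))))))] .n) .n)))

def t85_203 : T TT 256 :=
  (.f k87 k171 13 (.q k195 [(.s k67 k131 7 (.s k215 k235 5 (.s k151 k23 7 (.d k107 k127 k63 5
  13)))), (.s k1 k2 0 (.s k65 k130 8 (.s k129 k193 7 (.s k66 k192 8 (.d k67 k64 k131 0 7)))))] (.c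
  k67 (.q k51 [(.s k19 k35 3 (.s k155 k223 9 (.s k119 k187 9 (.d k103 k71 k207 3 13)))), (.s k1 k2 0
  (.s k17 k34 4 (.s k33 k49 3 (.s k18 k48 4 (.d k19 k16 k35 0 3))))), (.s k99 k147 11 (.s k119 k187
  9 (.s k103 k71 3 (.s k107 k111 1 (.s k151 k63 13 (.d k215 k235 k23 5 7))))))] .n) (.c k131 (.f k65
  k130 8 (.l (.s k1 k2 0 (.s k129 k193 7 (.s k66 k192 8 (.s k67 k64 0 (.s k215 k235 5 (.s k151 k23 7
  (.d k107 k127 k63 5 13))))))))) .n))))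

def t85_204 : T TT 256 :=
  (.f k1 k2 0 (.q k23 [(.s k63 k43 5 (.s k21 k42 6 (.s k41 k61 5 (.d k22 k20 k60 0 6)))), (.s k87
  k171 13 (.s k215 k151 7 (.s k195 k235 5 (.s k65 k130 8 (.s k129 k193 7 (.s k66 k192 8 (.d k67 k131
  k64 7 0)))))))] (.c k43 (.q k51 [(.s k17 k34 4 (.s k33 k49 3 (.s k19 k35 3 (.d k18 k16 k48 0
  4)))), (.s k87 k171 13 (.s k151 k215 7 (.s k119 k187 9 (.s k103 k71 3 (.s k55 k199 11 (.s k247
  k183 7 (.d k7 k39 k167 3 11)))))))] (.c k39 (.l (.s k17 k34 4 (.s k33 k49 3 (.s k18 k48 4 (.d k19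
  k16 k35 0 3))))) (.c k78 (.q k141 [(.s k17 k34 4 (.s k33 k49 3 (.s k19 k35 3 (.d k18 k16 k48 0
  4)))), (.s k87 k171 13 (.s k151 k215 7 (.s k119 k187 9 (.s k103 k71 3 (.s k55 k199 11 (.s k247
  k183 7 (.d k7 k39 k167 3 11)))))))] (.c k39 (.l (.s k17 k34 4 (.s k33 k49 3 (.s k18 k48 4 (.d k19
  k16 k35 0 3))))) .n)) (.c k141 (.q k78 [(.s k17 k34 4 (.s k33 k49 3 (.s k19 k35 3 (.d k18 k16 k48
  0 4)))), (.s k87 k171 13 (.s k151 k215 7 (.s k119 k187 9 (.s k103 k71 3 (.s k55 k199 11 (.s k247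
  k183 7 (.d k7 k39 k167 3 11)))))))] (.c k39 (.l (.s k17 k34 4 (.s k33 k49 3 (.s k18 k48 4 (.d k19
  k16 k35 0 3))))) .n)) .n)))) (.c k78 (.q k141 [(.s k63 k43 5 (.s k21 k42 6 (.s k41 k61 5 (.d k22
  k20 k60 0 6)))), (.s k87 k171 13 (.s k215 k151 7 (.s k195 k235 5 (.s k65 k130 8 (.s k129 k193 7
  (.s k66 k192 8 (.d k67 k131 k64 7 0)))))))] (.c k43 (.q k51 [(.s k17 k34 4 (.s k33 k49 3 (.s k19
  k35 3 (.d k18 k16 k48 0 4)))), (.s k87 k171 13 (.s k151 k215 7 (.s k119 k187 9 (.s k103 k71 3 (.s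
  k55 k199 11 (.s k247 k183 7 (.d k7 k39 k167 3 11)))))))] (.c k39 (.l (.s k17 k34 4 (.s k33 k49 3
  (.s k18 k48 4 (.d k19 k16 k35 0 3))))) .n)) .n)) (.c k141 (.q k78 [(.s k63 k43 5 (.s k21 k42 6 (.s
  k41 k61 5 (.d k22 k20 k60 0 6)))), (.s k87 k171 13 (.s k215 k151 7 (.s k195 k235 5 (.s k65 k130 8
  (.s k129 k193 7 (.s k66 k192 8 (.d k67 k131 k64 7 0)))))))] (.c k43 (.q k51 [(.s k17 k34 4 (.s k33
  k49 3 (.s k19 k35 3 (.d k18 k16 k48 0 4)))), (.s k87 k171 13 (.s k151 k215 7 (.s k119 k187 9 (.s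
  k103 k71 3 (.s k55 k199 11 (.s k247 k183 7 (.d k7 k39 k167 3 11)))))))] (.c k39 (.l (.s k17 k34 4
  (.s k33 k49 3 (.s k18 k48 4 (.d k19 k16 k35 0 3))))) .n)) .n)) .n)))))

def t85_205 : T TT 256 :=
  (.f k1 k2 0 (.f k87 k171 13 (.q k63 [(.s k23 k43 5 (.s k127 k191 7 (.s k107 k67 5 (.d k151 k215
  k195 7 13)))), (.s k21 k42 6 (.s k41 k61 5 (.s k22 k60 6 (.d k23 k20 k43 0 5))))] (.c k23 (.q k19
  [(.s k51 k35 3 (.s k119 k187 9 (.s k103 k71 3 (.d k155 k223 k207 9 13)))), (.s k21 k42 6 (.s k41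
  k61 5 (.s k22 k60 6 (.s k25 k28 2 (.s k17 k29 1 (.s k33 k49 3 (.d k18 k16 k48 0 4)))))))] .n) (.c
  k43 (.l (.s k21 k42 6 (.s k41 k61 5 (.s k22 k60 6 (.s k23 k20 0 (.s k127 k191 7 (.s k107 k67 5 (.d
  k151 k215 k195 7 13)))))))) .n)))))

def t85_206 : T TT 256 :=
  (.f k87 k171 13 (.q k195 [(.s k67 k131 7 (.s k215 k235 5 (.s k151 k23 7 (.d k107 k127 k63 5
  13)))), (.s k1 k2 0 (.s k65 k130 8 (.s k129 k193 7 (.s k66 k192 8 (.d k67 k64 k131 0 7)))))] (.c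
  k67 (.q k51 [(.s k19 k35 3 (.s k155 k223 9 (.s k119 k187 9 (.d k103 k71 k207 3 13)))), (.s k1 k2 0
  (.s k17 k34 4 (.s k33 k49 3 (.s k18 k48 4 (.d k19 k16 k35 0 3))))), (.s k99 k147 11 (.s k119 k187
  9 (.s k103 k71 3 (.s k107 k111 1 (.s k151 k63 13 (.d k215 k235 k23 5 7))))))] .n) (.c k131 (.f k65
  k130 8 (.l (.s k1 k2 0 (.s k129 k193 7 (.s k66 k192 8 (.s k67 k64 0 (.s k215 k235 5 (.s k151 k23 7
  (.d k107 k127 k63 5 13))))))))) .n))))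

def t85_207 : T TT 256 :=
  (.f k1 k2 0 (.q k67 [(.s k195 k131 7 (.s k65 k130 8 (.s k129 k193 7 (.d k66 k64 k192 0 8)))), (.s
  k87 k171 13 (.s k127 k107 5 (.s k63 k191 7 (.s k21 k42 6 (.s k41 k61 5 (.s k22 k60 6 (.d k23 k43
  k20 5 0)))))))] (.c k79 (.q k143 [(.s k195 k131 7 (.s k65 k130 8 (.s k129 k193 7 (.d k66 k64 k192
  0 8)))), (.s k87 k171 13 (.s k127 k107 5 (.s k63 k191 7 (.s k21 k42 6 (.s k41 k61 5 (.s k22 k60 6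
  (.d k23 k43 k20 5 0)))))))] (.c k131 (.q k63 [(.s k87 k171 13 (.d k127 k191 k107 7 5)), (.s k21
  k42 6 (.s k41 k61 5 (.s k22 k60 6 (.d k23 k20 k43 0 5))))] .n) .n)) (.c k131 (.q k63 [(.s k87 k171
  13 (.d k127 k191 k107 7 5)), (.s k21 k42 6 (.s k41 k61 5 (.s k22 k60 6 (.d k23 k20 k43 0 5))))]
  (.c k79 (.q k143 [(.s k87 k171 13 (.d k127 k191 k107 7 5)), (.s k21 k42 6 (.s k41 k61 5 (.s k22
  k60 6 (.d k23 k20 k43 0 5))))] .n) (.c k143 (.q k79 [(.s k87 k171 13 (.d k127 k191 k107 7 5)), (.s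
  k21 k42 6 (.s k41 k61 5 (.s k22 k60 6 (.d k23 k20 k43 0 5))))] (.c k135 (.q k139 [(.s k87 k171 13
  (.d k127 k191 k107 7 5)), (.s k21 k42 6 (.s k41 k61 5 (.s k22 k60 6 (.d k23 k20 k43 0 5))))] (.c
  k75 (.q k195 [(.s k87 k171 13 (.d k107 k151 k127 13 5)), (.s k65 k130 8 (.s k129 k193 7 (.d k66
  k64 k192 0 8)))] .n) (.c k195 (.l (.s k75 k71 1 (.s k87 k171 13 (.d k127 k191 k107 7 5)))) .n)))
  (.c k139 (.q k135 [(.s k87 k171 13 (.d k127 k191 k107 7 5)), (.s k21 k42 6 (.s k41 k61 5 (.s k22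
  k60 6 (.d k23 k20 k43 0 5))))] .n) .n))) .n))) (.c k143 (.q k79 [(.s k195 k131 7 (.s k65 k130 8
  (.s k129 k193 7 (.d k66 k64 k192 0 8)))), (.s k87 k171 13 (.s k75 k71 1 (.s k107 k127 5 (.s k91
  k123 3 (.s k115 k103 5 (.d k83 k95 k99 1 3))))))] (.c k64 (.l (.s k195 k131 7 (.s k87 k171 13 (.s
  k215 k235 5 (.s k151 k23 7 (.d k107 k127 k63 5 13)))))) .n)) .n)))))

def t85_208 : T TT 256 :=
  (.f k1 k2 0 (.q k23 [(.s k63 k43 5 (.s k21 k42 6 (.s k41 k61 5 (.d k22 k20 k60 0 6)))), (.s k87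
  k171 13 (.s k215 k151 7 (.s k195 k235 5 (.s k65 k130 8 (.s k129 k193 7 (.s k66 k192 8 (.d k67 k131
  k64 7 0)))))))] (.c k43 (.q k51 [(.s k17 k34 4 (.s k33 k49 3 (.s k18 k48 4 (.d k19 k16 k35 0
  3)))), (.s k87 k171 13 (.s k151 k215 7 (.s k119 k187 9 (.s k103 k71 3 (.s k55 k199 11 (.s k247
  k183 7 (.d k7 k39 k167 3 11)))))))] .n) .n)))

def t85_209 : T TT 256 :=
  (.f k87 k171 13 (.q k195 [(.s k67 k131 7 (.s k215 k235 5 (.s k151 k23 7 (.d k107 k127 k63 5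
  13)))), (.s k1 k2 0 (.s k65 k130 8 (.s k129 k193 7 (.s k66 k192 8 (.d k67 k64 k131 0 7)))))] (.c
  k67 (.q k51 [(.s k19 k35 3 (.s k155 k223 9 (.s k119 k187 9 (.d k103 k71 k207 3 13)))), (.s k1 k2 0
  (.s k17 k34 4 (.s k33 k49 3 (.s k18 k48 4 (.d k19 k16 k35 0 3))))), (.s k99 k147 11 (.s k119 k187
  9 (.s k103 k71 3 (.s k107 k111 1 (.s k151 k63 13 (.d k215 k235 k23 5 7))))))] .n) (.c k131 (.f k65
  k130 8 (.l (.s k1 k2 0 (.s k129 k193 7 (.s k66 k192 8 (.s k67 k64 0 (.s k215 k235 5 (.s k151 k23 7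
  (.d k107 k127 k63 5 13))))))))) .n))))

def t85_210 : T TT 256 :=
  (.f k1 k2 0 (.q k23 [(.s k63 k43 5 (.s k21 k42 6 (.s k41 k61 5 (.d k22 k20 k60 0 6)))), (.s k87
  k171 13 (.s k215 k151 7 (.s k195 k235 5 (.s k65 k130 8 (.s k129 k193 7 (.s k66 k192 8 (.d k67 k131
  k64 7 0)))))))] (.c k43 (.q k51 [(.s k17 k34 4 (.s k33 k49 3 (.s k18 k48 4 (.d k19 k16 k35 0
  3)))), (.s k87 k171 13 (.s k151 k215 7 (.s k119 k187 9 (.s k103 k71 3 (.s k55 k199 11 (.s k247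
  k183 7 (.d k7 k39 k167 3 11)))))))] .n) .n)))

def t85_211 : T TT 256 :=
  (.f k1 k2 0 (.q k23 [(.s k63 k43 5 (.s k21 k42 6 (.s k41 k61 5 (.d k22 k20 k60 0 6)))), (.s k87
  k171 13 (.s k215 k151 7 (.s k195 k235 5 (.s k65 k130 8 (.s k129 k193 7 (.s k66 k192 8 (.d k67 k131
  k64 7 0)))))))] (.c k43 (.q k51 [(.s k17 k34 4 (.s k33 k49 3 (.s k18 k48 4 (.d k19 k16 k35 0
  3)))), (.s k87 k171 13 (.s k151 k215 7 (.s k119 k187 9 (.s k103 k71 3 (.s k55 k199 11 (.s k247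
  k183 7 (.d k7 k39 k167 3 11)))))))] .n) .n)))

def t85_212 : T TT 256 :=
  (.f k1 k2 0 (.q k23 [(.s k63 k43 5 (.s k21 k42 6 (.s k41 k61 5 (.d k22 k20 k60 0 6)))), (.s k87
  k171 13 (.s k215 k151 7 (.s k195 k235 5 (.s k65 k130 8 (.s k129 k193 7 (.s k66 k192 8 (.d k67 k131
  k64 7 0)))))))] (.c k43 (.q k51 [(.s k17 k34 4 (.s k33 k49 3 (.s k18 k48 4 (.d k19 k16 k35 0
  3)))), (.s k87 k171 13 (.s k151 k215 7 (.s k119 k187 9 (.s k103 k71 3 (.s k55 k199 11 (.s k247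
  k183 7 (.d k7 k39 k167 3 11)))))))] .n) .n)))

def t85_213 : T TT 256 :=
  (.f k87 k171 13 (.q k63 [(.s k23 k43 5 (.s k127 k191 7 (.s k107 k67 5 (.d k151 k215 k195 7 13)))),
  (.s k1 k2 0 (.s k21 k42 6 (.s k41 k61 5 (.s k22 k60 6 (.d k23 k20 k43 0 5)))))] (.c k21 (.q k149
  [(.s k191 k127 7 (.s k128 k170 6 (.d k192 k64 k106 7 14))), (.s k23 k43 5 (.s k151 k215 7 (.s k107
  k195 13 (.d k127 k67 k191 5 7)))), (.s k2 k1 0 (.s k23 k43 5 (.s k86 k212 8 (.s k254 k170 13 (.d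
  k252 k253 k169 0 14)))))] .n) (.c k23 (.q k22 [(.s k2 k1 0 (.d k42 k21 k62 6 5)), (.s k60 k41 6
  (.s k61 k62 0 (.s k125 k190 8 (.s k127 k191 7 (.s k126 k124 0 (.d k189 k253 k252 7 8)))))), (.s k1
  k2 0 (.s k21 k42 6 (.d k41 k61 k60 5 6)))] (.c k21 (.q k149 [(.s k2 k1 0 (.s k62 k42 5 (.d k60 k61
  k41 0 6))), (.s k191 k127 7 (.s k128 k170 6 (.d k192 k64 k106 7 14)))] (.c k169 (.l (.s k106 k192
  14 (.s k191 k127 7 (.s k170 k128 6 (.s k42 k234 7 (.d k2 k1 k62 0 5)))))) .n)) (.c k149 (.l (.s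
  k21 k42 6 (.s k1 k2 0 (.d k41 k61 k60 5 6)))) .n))) (.c k43 (.q k195 [(.s k67 k131 7 (.d k107 k151
  k127 13 5)), (.s k1 k2 0 (.s k21 k42 6 (.s k41 k61 5 (.s k22 k60 6 (.s k23 k20 0 (.d k151 k215
  k107 7 13))))))] (.c k21 (.q k149 [(.s k67 k131 7 (.d k107 k151 k127 13 5)), (.s k1 k2 0 (.s k65
  k130 8 (.s k129 k193 7 (.d k192 k66 k106 8 14))))] (.c k107 (.l (.s k235 k215 5 (.s k191 k127 7
  (.s k128 k170 6 (.d k192 k64 k106 7 14))))) (.c k235 (.l (.s k107 k151 13 (.d k67 k131 k127 7 5)))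
  .n))) (.c k107 (.l (.s k235 k215 5 (.s k1 k2 0 (.s k65 k130 8 (.s k129 k193 7 (.s k66 k192 8 (.d
  k67 k64 k131 0 7))))))) (.c k149 (.l (.s k21 k42 6 (.s k67 k131 7 (.d k107 k151 k127 13 5)))) (.c
  k151 (.l (.s k1 k2 0 (.s k65 k130 8 (.s k129 k193 7 (.s k66 k192 8 (.d k67 k64 k131 0 7)))))) (.c
  k235 (.l (.s k107 k151 13 (.d k67 k131 k127 7 5))) .n)))))) (.c k149 (.l (.s k21 k42 6 (.s k1 k2 0
  (.s k41 k61 5 (.s k22 k60 6 (.d k23 k20 k43 0 5)))))) .n))))))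

def t85_214 : T TT 256 :=
  (.f k1 k2 0 (.q k23 [(.s k63 k43 5 (.s k21 k42 6 (.s k41 k61 5 (.d k22 k20 k60 0 6)))), (.s k87
  k171 13 (.s k215 k151 7 (.s k195 k235 5 (.s k65 k130 8 (.s k129 k193 7 (.s k66 k192 8 (.d k67 k131
  k64 7 0)))))))] (.c k43 (.q k51 [(.s k17 k34 4 (.s k33 k49 3 (.s k18 k48 4 (.d k19 k16 k35 0
  3)))), (.s k87 k171 13 (.s k151 k215 7 (.s k119 k187 9 (.s k103 k71 3 (.s k55 k199 11 (.s k247
  k183 7 (.d k7 k39 k167 3 11)))))))] .n) .n)))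

def t85_215 : T TT 256 :=
  (.f k1 k2 0 (.f k87 k171 13 (.q k51 [(.s k19 k35 3 (.s k119 k187 9 (.s k103 k71 3 (.d k155 k223
  k207 9 13)))), (.s k17 k34 4 (.s k33 k49 3 (.s k18 k48 4 (.d k19 k16 k35 0 3))))] (.c k19 (.q k81
  [(.s k243 k162 12 (.s k161 k241 11 (.s k82 k240 12 (.d k83 k80 k163 0 11)))), (.s k17 k34 4 (.s
  k162 k243 12 (.s k145 k209 7 (.s k192 k98 12 (.d k128 k179 k64 4 7))))), (.s k17 k34 4 (.s k161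
  k241 11 (.s k145 k209 7 (.s k129 k177 3 (.d k192 k66 k98 8 12)))))] (.c k20 (.q k150 [(.s k243
  k162 12 (.s k161 k241 11 (.s k82 k240 12 (.d k83 k80 k163 0 11)))), (.s k17 k34 4 (.s k162 k243 12
  (.s k145 k209 7 (.s k192 k98 12 (.d k128 k179 k64 4 7))))), (.s k17 k34 4 (.s k161 k241 11 (.s
  k145 k209 7 (.s k129 k177 3 (.d k192 k66 k98 8 12)))))] .n) (.c k150 (.q k20 [(.s k243 k162 12 (.s
  k161 k241 11 (.s k82 k240 12 (.d k83 k80 k163 0 11)))), (.s k17 k34 4 (.s k162 k243 12 (.s k145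
  k209 7 (.s k192 k98 12 (.d k128 k179 k64 4 7))))), (.s k17 k34 4 (.s k161 k241 11 (.s k145 k209 7
  (.s k129 k177 3 (.d k192 k66 k98 8 12)))))] .n) .n))) (.c k20 (.q k150 [(.s k19 k35 3 (.s k119
  k187 9 (.s k103 k71 3 (.d k155 k223 k207 9 13)))), (.s k17 k34 4 (.s k33 k49 3 (.s k18 k48 4 (.d
  k19 k16 k35 0 3))))] (.c k19 (.q k81 [(.s k243 k162 12 (.s k161 k241 11 (.s k82 k240 12 (.d k83
  k80 k163 0 11)))), (.s k17 k34 4 (.s k162 k243 12 (.s k145 k209 7 (.s k192 k98 12 (.d k128 k179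
  k64 4 7))))), (.s k17 k34 4 (.s k161 k241 11 (.s k145 k209 7 (.s k129 k177 3 (.d k192 k66 k98 8
  12)))))] .n) (.c k35 (.l (.s k17 k34 4 (.s k33 k49 3 (.s k18 k48 4 (.s k19 k16 0 (.s k119 k187 9
  (.s k103 k71 3 (.d k155 k223 k207 9 13)))))))) .n))) (.c k35 (.l (.s k17 k34 4 (.s k33 k49 3 (.s
  k18 k48 4 (.s k19 k16 0 (.s k119 k187 9 (.s k103 k71 3 (.d k155 k223 k207 9 13)))))))) (.c k150
  (.q k20 [(.s k19 k35 3 (.s k119 k187 9 (.s k103 k71 3 (.d k155 k223 k207 9 13)))), (.s k17 k34 4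
  (.s k60 k40 5 (.s k41 k22 6 (.s k21 k61 5 (.s k25 k29 1 (.d k57 k54 k9 2 3))))))] .n) .n)))))))

def t85_216 : T TT 256 :=
  (.f k1 k2 0 (.f k87 k171 13 (.q k51 [(.s k19 k35 3 (.s k119 k187 9 (.s k103 k71 3 (.d k155 k223
  k207 9 13)))), (.s k17 k34 4 (.s k33 k49 3 (.s k18 k48 4 (.d k19 k16 k35 0 3))))] (.c k19 (.q k81
  [(.s k162 k243 12 (.s k161 k241 11 (.s k160 k163 0 (.d k240 k80 k82 11 12)))), (.s k17 k34 4 (.s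
  k161 k241 11 (.s k145 k209 7 (.s k129 k177 3 (.d k192 k66 k98 8 12))))), (.s k17 k34 4 (.s k162
  k243 12 (.s k145 k209 7 (.s k192 k98 12 (.d k128 k179 k64 4 7)))))] .n) (.c k35 (.l (.s k17 k34 4
  (.s k33 k49 3 (.s k18 k48 4 (.s k19 k16 0 (.s k119 k187 9 (.s k103 k71 3 (.d k155 k223 k207 9
  13)))))))) .n)))))

def t85_217 : T TT 256 :=
  (.f k1 k2 0 (.q k67 [(.s k195 k131 7 (.s k65 k130 8 (.s k129 k193 7 (.d k66 k64 k192 0 8)))), (.s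
  k87 k171 13 (.s k127 k107 5 (.s k63 k191 7 (.s k21 k42 6 (.s k41 k61 5 (.s k22 k60 6 (.d k23 k43
  k20 5 0)))))))] (.c k131 (.q k63 [(.s k87 k171 13 (.d k127 k191 k107 7 5)), (.s k21 k42 6 (.s k41
  k61 5 (.s k22 k60 6 (.d k23 k20 k43 0 5))))] .n) .n)))

def t85_218 : T TT 256 :=
  (.f k1 k2 0 (.f k87 k171 13 (.q k51 [(.s k19 k35 3 (.s k119 k187 9 (.s k103 k71 3 (.d k155 k223
  k207 9 13)))), (.s k17 k34 4 (.s k33 k49 3 (.s k18 k48 4 (.d k19 k16 k35 0 3))))] (.c k19 (.q k81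
  [(.s k162 k243 12 (.s k161 k241 11 (.s k160 k163 0 (.d k240 k80 k82 11 12)))), (.s k17 k34 4 (.s
  k161 k241 11 (.s k145 k209 7 (.s k129 k177 3 (.d k192 k66 k98 8 12))))), (.s k17 k34 4 (.s k162
  k243 12 (.s k145 k209 7 (.s k192 k98 12 (.d k128 k179 k64 4 7)))))] .n) (.c k35 (.l (.s k17 k34 4
  (.s k33 k49 3 (.s k18 k48 4 (.s k19 k16 0 (.s k119 k187 9 (.s k103 k71 3 (.d k155 k223 k207 9
  13)))))))) .n)))))

def t85_219 : T TT 256 :=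
  (.f k87 k171 13 (.q k63 [(.s k23 k43 5 (.s k127 k191 7 (.s k107 k67 5 (.d k151 k215 k195 7 13)))),
  (.s k1 k2 0 (.s k21 k42 6 (.s k41 k61 5 (.s k22 k60 6 (.d k23 k20 k43 0 5)))))] (.c k23 (.q k195
  [(.s k67 k131 7 (.d k107 k151 k127 13 5)), (.s k1 k2 0 (.s k21 k42 6 (.s k65 k130 8 (.s k61 k41 5
  (.s k193 k129 7 (.s k105 k149 13 (.d k60 k62 k150 0 14)))))))] (.c k131 (.l (.s k1 k2 0 (.s k65
  k130 8 (.s k129 k193 7 (.s k66 k192 8 (.s k67 k64 0 (.d k107 k127 k151 5 13))))))) .n)) (.c k43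
  (.q k195 [(.s k67 k131 7 (.d k107 k151 k127 13 5)), (.s k1 k2 0 (.s k21 k42 6 (.s k41 k61 5 (.s
  k22 k60 6 (.s k23 k20 0 (.d k151 k215 k107 7 13))))))] (.c k107 (.l (.s k235 k215 5 (.s k1 k2 0
  (.s k65 k130 8 (.s k129 k193 7 (.s k66 k192 8 (.d k67 k64 k131 0 7))))))) (.c k151 (.l (.s k1 k2 0
  (.s k65 k130 8 (.s k129 k193 7 (.s k66 k192 8 (.d k67 k64 k131 0 7)))))) (.c k235 (.l (.s k107
  k151 13 (.d k67 k131 k127 7 5))) .n)))) .n))))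

def t85_220 : T TT 256 :=
  (.f k1 k2 0 (.q k23 [(.s k63 k43 5 (.s k21 k42 6 (.s k41 k61 5 (.d k22 k20 k60 0 6)))), (.s k87
  k171 13 (.s k215 k151 7 (.s k195 k235 5 (.s k65 k130 8 (.s k129 k193 7 (.s k66 k192 8 (.d k67 k131
  k64 7 0)))))))] (.c k43 (.q k51 [(.s k17 k34 4 (.s k33 k49 3 (.s k18 k48 4 (.d k19 k16 k35 0
  3)))), (.s k87 k171 13 (.s k151 k215 7 (.s k119 k187 9 (.s k103 k71 3 (.s k55 k199 11 (.s k247
  k183 7 (.d k7 k39 k167 3 11)))))))] .n) .n)))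

def t85_221 : T TT 256 :=
  (.f k87 k171 13 (.f k1 k2 0 (.q k17 [(.s k34 k51 4 (.s k33 k49 3 (.s k48 k18 4 (.d k32 k35 k16 0
  3)))), (.s k51 k34 4 (.s k119 k187 9 (.s k103 k71 3 (.s k155 k207 13 (.d k19 k35 k223 3 9)))))]
  (.c k18 (.l (.s k49 k33 3 (.s k51 k34 4 (.s k50 k48 0 (.s k119 k187 9 (.s k103 k71 3 (.s k155 k207
  13 (.d k19 k35 k223 3 9)))))))) (.c k34 (.l (.s k33 k49 3 (.s k18 k48 4 (.s k19 k16 0 (.s k51 k35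
  3 (.s k119 k187 9 (.s k103 k71 3 (.d k155 k223 k207 9 13)))))))) (.c k35 (.l (.s k51 k34 4 (.s k33
  k49 3 (.s k18 k48 4 (.s k19 k16 0 (.s k119 k187 9 (.s k103 k71 3 (.d k155 k223 k207 9 13))))))))
  (.c k50 (.l (.s k34 k51 4 (.s k33 k49 3 (.s k48 k18 4 (.d k32 k35 k16 0 3))))) (.c k51 (.q k63
  [(.s k23 k43 5 (.s k127 k191 7 (.s k107 k67 5 (.d k151 k215 k195 7 13)))), (.s k21 k42 6 (.s k33
  k49 3 (.s k41 k61 5 (.s k48 k18 4 (.s k37 k45 1 (.d k53 k58 k5 2 3))))))] (.c k27 (.q k39 [(.s k23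
  k43 5 (.s k127 k191 7 (.s k107 k67 5 (.d k151 k215 k195 7 13)))), (.s k21 k42 6 (.s k33 k49 3 (.s
  k41 k61 5 (.s k48 k18 4 (.s k37 k45 1 (.d k53 k58 k5 2 3))))))] .n) (.c k39 (.q k27 [(.s k21 k42 6
  (.s k41 k61 5 (.s k22 k60 6 (.d k23 k20 k43 0 5)))), (.s k33 k49 3 (.s k23 k43 5 (.s k19 k31 1 (.d
  k18 k48 k16 4 0)))), (.s k21 k42 6 (.s k33 k49 3 (.s k41 k61 5 (.s k48 k18 4 (.s k37 k45 1 (.d k53
  k58 k5 2 3))))))] .n) .n))) .n))))))))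

def t85_222 : T TT 256 :=
  (.f k87 k171 13 (.q k63 [(.s k23 k43 5 (.s k127 k191 7 (.s k107 k67 5 (.d k151 k215 k195 7 13)))),
  (.s k1 k2 0 (.s k21 k42 6 (.s k41 k61 5 (.s k22 k60 6 (.d k23 k20 k43 0 5)))))] (.c k23 (.q k195
  [(.s k67 k131 7 (.d k107 k151 k127 13 5)), (.s k1 k2 0 (.s k21 k42 6 (.s k65 k130 8 (.s k61 k41 5
  (.s k193 k129 7 (.s k105 k149 13 (.d k60 k62 k150 0 14)))))))] (.c k131 (.l (.s k1 k2 0 (.s k65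
  k130 8 (.s k129 k193 7 (.s k66 k192 8 (.s k67 k64 0 (.d k107 k127 k151 5 13))))))) .n)) (.c k43
  (.q k195 [(.s k67 k131 7 (.d k107 k151 k127 13 5)), (.s k1 k2 0 (.s k21 k42 6 (.s k41 k61 5 (.s
  k22 k60 6 (.s k23 k20 0 (.d k151 k215 k107 7 13))))))] (.c k107 (.l (.s k235 k215 5 (.s k1 k2 0
  (.s k65 k130 8 (.s k129 k193 7 (.s k66 k192 8 (.d k67 k64 k131 0 7))))))) (.c k151 (.l (.s k1 k2 0
  (.s k65 k130 8 (.s k129 k193 7 (.s k66 k192 8 (.d k67 k64 k131 0 7)))))) (.c k235 (.l (.s k107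
  k151 13 (.d k67 k131 k127 7 5))) .n)))) .n))))

def t85_223 : T TT 256 :=
  (.q k51 [(.s k1 k2 0 (.s k17 k34 4 (.s k33 k49 3 (.s k19 k35 3 (.d k18 k16 k48 0 4))))), (.s k35
  k19 3 (.s k187 k119 9 (.s k171 k87 13 (.s k155 k139 3 (.d k103 k239 k207 9 13)))))] (.c k16 (.q
  k154 [(.s k2 k1 0 (.s k34 k17 4 (.s k18 k50 3 (.s k33 k48 4 (.d k35 k19 k32 3 0))))), (.s k171 k87
  13 (.s k187 k119 9 (.s k155 k139 3 (.s k103 k207 13 (.d k35 k19 k239 3 9)))))] (.c k19 (.l (.s k2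
  k1 0 (.s k34 k17 4 (.s k18 k50 3 (.s k86 k222 9 (.s k254 k170 13 (.d k252 k253 k169 0 14)))))))
  (.c k35 (.l (.s k2 k1 0 (.s k34 k17 4 (.s k18 k50 3 (.s k86 k222 9 (.s k254 k170 13 (.d k252 k253
  k169 0 14))))))) .n))) (.c k19 (.f k1 k2 0 (.f k87 k171 13 (.q k16 [(.s k48 k32 3 (.s k17 k34 4
  (.d k33 k18 k49 4 3))), (.s k48 k32 3 (.s k50 k49 0 (.s k186 k117 10 (.s k118 k254 9 (.s k185 k252
  10 (.d k187 k184 k119 0 9))))))] (.c k32 (.q k23 [(.s k63 k43 5 (.s k127 k191 7 (.s k107 k67 5 (.d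
  k151 k215 k195 7 13)))), (.s k151 k215 7 (.s k119 k187 9 (.s k103 k71 3 (.s k55 k199 11 (.s k7 k39
  3 (.d k247 k183 k167 7 11)))))), (.s k63 k43 5 (.s k21 k42 6 (.s k41 k61 5 (.d k22 k20 k60 0
  6))))] .n) (.c k48 (.q k23 [(.s k63 k43 5 (.s k127 k191 7 (.s k107 k67 5 (.d k151 k215 k195 7
  13)))), (.s k151 k215 7 (.s k119 k187 9 (.s k103 k71 3 (.s k55 k199 11 (.s k7 k39 3 (.d k247 k183
  k167 7 11)))))), (.s k63 k43 5 (.s k21 k42 6 (.s k41 k61 5 (.d k22 k20 k60 0 6))))] (.c k26 (.q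
  k37 [(.s k63 k43 5 (.s k127 k191 7 (.s k107 k67 5 (.d k151 k215 k195 7 13)))), (.s k17 k34 4 (.s
  k33 k49 3 (.s k41 k45 1 (.s k21 k61 5 (.d k22 k60 k20 6 0)))))] .n) (.c k37 (.q k26 [(.s k63 k43 5
  (.d k21 k31 k42 2 6)), (.s k151 k215 7 (.s k119 k187 9 (.s k103 k71 3 (.s k55 k199 11 (.s k7 k39 3
  (.d k247 k183 k167 7 11))))))] .n) .n))) (.c k49 (.l (.s k48 k32 3 (.s k117 k186 10 (.s k119 k187
  9 (.s k71 k103 3 (.s k116 k118 0 (.s k86 k101 4 (.d k252 k184 k169 9 14)))))))) (.c k50 (.l (.s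
  k48 k32 3 (.s k117 k186 10 (.s k119 k187 9 (.s k118 k116 0 (.s k185 k252 10 (.s k49 k253 9 (.d k17
  k33 k34 3 4)))))))) .n))))))) (.c k35 (.q k154 [(.s k2 k1 0 (.s k34 k17 4 (.s k18 k50 3 (.s k86
  k222 9 (.s k254 k170 13 (.d k252 k253 k169 0 14)))))), (.s k171 k87 13 (.s k187 k119 9 (.s k155
  k139 3 (.s k153 k152 0 (.s k136 k170 4 (.d k204 k68 k102 9 14))))))] (.c k86 (.l (.s k2 k1 0 (.s
  k34 k17 4 (.s k50 k18 3 (.s k102 k206 13 (.s k238 k170 9 (.d k204 k221 k153 4 14))))))) (.c k153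
  (.q k16 [(.s k1 k2 0 (.s k48 k32 3 (.s k17 k34 4 (.d k33 k18 k49 4 3)))), (.s k48 k32 3 (.s k186
  k117 10 (.s k138 k170 3 (.d k207 k69 k101 10 14))))] (.c k17 (.q k221 [(.s k48 k32 3 (.s k186 k117
  10 (.s k138 k170 3 (.d k207 k69 k101 10 14)))), (.s k1 k2 0 (.s k204 k238 4 (.s k136 k68 9 (.s
  k137 k70 10 (.s k138 k139 0 (.d k69 k205 k207 9 10)))))), (.s k48 k32 3 (.s k171 k87 13 (.s k187
  k119 9 (.s k155 k139 3 (.d k207 k103 k101 13 14)))))] (.c k207 (.l (.s k2 k1 0 (.s k48 k32 3 (.s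
  k186 k117 10 (.s k138 k170 3 (.s k70 k206 9 (.d k204 k238 k137 4 10))))))) .n)) (.c k32 (.l (.s k1
  k2 0 (.s k17 k34 4 (.s k33 k49 3 (.d k18 k19 k48 0 4))))) (.c k33 (.l (.s k2 k1 0 (.s k32 k48 3
  (.s k17 k34 4 (.s k18 k19 0 (.s k86 k222 9 (.s k254 k170 13 (.d k252 k253 k169 0 14)))))))) (.c
  k34 (.l (.s k48 k32 3 (.s k33 k18 4 (.s k186 k117 10 (.s k138 k170 3 (.d k207 k69 k101 10 14))))))
  (.c k48 (.l (.s k2 k1 0 (.s k17 k34 4 (.s k18 k19 0 (.s k86 k222 9 (.s k254 k170 13 (.d k252 k253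
  k169 0 14))))))) (.c k221 (.l (.s k17 k34 4 (.s k18 k19 0 (.d k48 k32 k33 3 4)))) .n))))))) (.c
  k170 (.l (.s k2 k1 0 (.s k34 k17 4 (.s k50 k18 3 (.s k206 k102 13 (.s k138 k70 9 (.s k207 k69 10
  (.d k48 k49 k101 0 14)))))))) .n)))) (.c k154 (.q k16 [(.s k17 k34 4 (.d k19 k18 k35 0 3)), (.s
  k35 k19 3 (.s k187 k119 9 (.s k171 k87 13 (.s k155 k139 3 (.d k103 k239 k207 9 13)))))] (.c k19
  (.l (.s k1 k2 0 (.s k48 k32 3 (.s k17 k34 4 (.d k33 k18 k49 4 3))))) (.c k35 (.l (.s k17 k34 4 (.s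
  k18 k19 0 (.d k48 k32 k33 3 4)))) .n))) .n)))))

def t85_224 : T TT 256 :=
  (.f k1 k2 0 (.f k87 k171 13 (.q k63 [(.s k23 k43 5 (.s k127 k191 7 (.s k107 k67 5 (.d k151 k215
  k195 7 13)))), (.s k21 k42 6 (.s k41 k61 5 (.s k22 k60 6 (.d k23 k20 k43 0 5))))] (.c k23 (.q k17
  [(.s k34 k51 4 (.s k33 k49 3 (.s k48 k18 4 (.d k32 k35 k16 0 3)))), (.s k21 k42 6 (.s k49 k33 3
  (.s k41 k61 5 (.s k25 k29 1 (.s k9 k57 3 (.d k13 k5 k37 1 5)))))), (.s k51 k34 4 (.s k21 k42 6 (.s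
  k25 k29 1 (.s k38 k12 6 (.d k55 k59 k4 1 4)))))] .n) (.c k43 (.l (.s k21 k42 6 (.s k41 k61 5 (.s
  k22 k60 6 (.s k23 k20 0 (.s k127 k191 7 (.s k107 k67 5 (.d k151 k215 k195 7 13)))))))) .n)))))

def t85_225 : T TT 256 :=
  (.f k87 k171 13 (.q k63 [(.s k23 k43 5 (.s k127 k191 7 (.s k107 k67 5 (.d k151 k215 k195 7 13)))),
  (.s k1 k2 0 (.s k21 k42 6 (.s k41 k61 5 (.s k22 k60 6 (.d k23 k20 k43 0 5)))))] (.c k23 (.q k195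
  [(.s k67 k131 7 (.d k107 k151 k127 13 5)), (.s k1 k2 0 (.s k21 k42 6 (.s k65 k130 8 (.s k61 k41 5
  (.s k193 k129 7 (.s k105 k149 13 (.d k60 k62 k150 0 14)))))))] (.c k131 (.l (.s k1 k2 0 (.s k65
  k130 8 (.s k129 k193 7 (.s k66 k192 8 (.s k67 k64 0 (.d k107 k127 k151 5 13))))))) .n)) (.c k43
  (.q k195 [(.s k67 k131 7 (.d k107 k151 k127 13 5)), (.s k1 k2 0 (.s k21 k42 6 (.s k41 k61 5 (.s
  k22 k60 6 (.s k23 k20 0 (.d k151 k215 k107 7 13))))))] (.c k107 (.l (.s k235 k215 5 (.s k1 k2 0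
  (.s k65 k130 8 (.s k129 k193 7 (.s k66 k192 8 (.d k67 k64 k131 0 7))))))) (.c k151 (.l (.s k1 k2 0
  (.s k65 k130 8 (.s k129 k193 7 (.s k66 k192 8 (.d k67 k64 k131 0 7)))))) (.c k235 (.l (.s k107
  k151 13 (.d k67 k131 k127 7 5))) .n)))) .n))))

def t85_226 : T TT 256 :=
  (.f k1 k2 0 (.f k87 k171 13 (.q k63 [(.s k23 k43 5 (.s k127 k191 7 (.s k107 k67 5 (.d k151 k215
  k195 7 13)))), (.s k21 k42 6 (.s k41 k61 5 (.s k22 k60 6 (.d k23 k20 k43 0 5))))] (.c k23 (.q k17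
  [(.s k34 k51 4 (.s k33 k49 3 (.s k48 k18 4 (.d k32 k35 k16 0 3)))), (.s k21 k42 6 (.s k49 k33 3
  (.s k41 k61 5 (.s k25 k29 1 (.s k9 k57 3 (.d k13 k5 k37 1 5)))))), (.s k51 k34 4 (.s k21 k42 6 (.s
  k25 k29 1 (.s k38 k12 6 (.d k55 k59 k4 1 4)))))] .n) (.c k43 (.l (.s k21 k42 6 (.s k41 k61 5 (.s
  k22 k60 6 (.s k23 k20 0 (.s k127 k191 7 (.s k107 k67 5 (.d k151 k215 k195 7 13)))))))) .n)))))

def t85_227 : T TT 256 :=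
  (.f k87 k171 13 (.q k63 [(.s k23 k43 5 (.s k127 k191 7 (.s k107 k67 5 (.d k151 k215 k195 7 13)))),
  (.s k1 k2 0 (.s k21 k42 6 (.s k41 k61 5 (.s k22 k60 6 (.d k23 k20 k43 0 5)))))] (.c k23 (.q k195
  [(.s k67 k131 7 (.d k107 k151 k127 13 5)), (.s k1 k2 0 (.s k21 k42 6 (.s k65 k130 8 (.s k61 k41 5
  (.s k193 k129 7 (.s k105 k149 13 (.d k60 k62 k150 0 14)))))))] (.c k131 (.l (.s k1 k2 0 (.s k65
  k130 8 (.s k129 k193 7 (.s k66 k192 8 (.s k67 k64 0 (.d k107 k127 k151 5 13))))))) .n)) (.c k43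
  (.q k195 [(.s k67 k131 7 (.d k107 k151 k127 13 5)), (.s k1 k2 0 (.s k21 k42 6 (.s k41 k61 5 (.s
  k22 k60 6 (.s k23 k20 0 (.d k151 k215 k107 7 13))))))] (.c k107 (.l (.s k235 k215 5 (.s k1 k2 0
  (.s k65 k130 8 (.s k129 k193 7 (.s k66 k192 8 (.d k67 k64 k131 0 7))))))) (.c k151 (.l (.s k1 k2 0
  (.s k65 k130 8 (.s k129 k193 7 (.s k66 k192 8 (.d k67 k64 k131 0 7)))))) (.c k235 (.l (.s k107
  k151 13 (.d k67 k131 k127 7 5))) .n)))) .n))))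

def t85_228 : T TT 256 :=
  (.f k1 k2 0 (.f k87 k171 13 (.q k63 [(.s k23 k43 5 (.s k127 k191 7 (.s k107 k67 5 (.d k151 k215
  k195 7 13)))), (.s k21 k42 6 (.s k41 k61 5 (.s k22 k60 6 (.d k23 k20 k43 0 5))))] (.c k23 (.q k17
  [(.s k34 k51 4 (.s k33 k49 3 (.s k48 k18 4 (.d k32 k35 k16 0 3)))), (.s k21 k42 6 (.s k49 k33 3
  (.s k41 k61 5 (.s k25 k29 1 (.s k9 k57 3 (.d k13 k5 k37 1 5)))))), (.s k51 k34 4 (.s k21 k42 6 (.s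
  k25 k29 1 (.s k38 k12 6 (.d k55 k59 k4 1 4)))))] .n) (.c k43 (.l (.s k21 k42 6 (.s k41 k61 5 (.s
  k22 k60 6 (.s k23 k20 0 (.s k127 k191 7 (.s k107 k67 5 (.d k151 k215 k195 7 13)))))))) .n)))))

def t85_229 : T TT 256 :=
  (.f k1 k2 0 (.f k87 k171 13 (.q k63 [(.s k23 k43 5 (.s k127 k191 7 (.s k107 k67 5 (.d k151 k215
  k195 7 13)))), (.s k21 k42 6 (.s k41 k61 5 (.s k22 k60 6 (.d k23 k20 k43 0 5))))] (.c k23 (.q k17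
  [(.s k34 k51 4 (.s k33 k49 3 (.s k48 k18 4 (.d k32 k35 k16 0 3)))), (.s k21 k42 6 (.s k49 k33 3
  (.s k41 k61 5 (.s k25 k29 1 (.s k9 k57 3 (.d k13 k5 k37 1 5)))))), (.s k51 k34 4 (.s k21 k42 6 (.s
  k25 k29 1 (.s k38 k12 6 (.d k55 k59 k4 1 4)))))] .n) (.c k43 (.l (.s k21 k42 6 (.s k41 k61 5 (.s
  k22 k60 6 (.s k23 k20 0 (.s k127 k191 7 (.s k107 k67 5 (.d k151 k215 k195 7 13)))))))) .n)))))

def t85_230 : T TT 256 :=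
  (.f k87 k171 13 (.q k63 [(.s k23 k43 5 (.s k127 k191 7 (.s k107 k67 5 (.d k151 k215 k195 7 13)))),
  (.s k1 k2 0 (.s k21 k42 6 (.s k41 k61 5 (.s k22 k60 6 (.d k23 k20 k43 0 5)))))] (.c k23 (.q k195
  [(.s k67 k131 7 (.d k107 k151 k127 13 5)), (.s k1 k2 0 (.s k21 k42 6 (.s k65 k130 8 (.s k61 k41 5
  (.s k193 k129 7 (.s k105 k149 13 (.d k60 k62 k150 0 14)))))))] (.c k131 (.l (.s k1 k2 0 (.s k65
  k130 8 (.s k129 k193 7 (.s k66 k192 8 (.s k67 k64 0 (.d k107 k127 k151 5 13))))))) .n)) (.c k43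
  (.q k195 [(.s k67 k131 7 (.d k107 k151 k127 13 5)), (.s k1 k2 0 (.s k21 k42 6 (.s k41 k61 5 (.s
  k22 k60 6 (.s k23 k20 0 (.d k151 k215 k107 7 13))))))] (.c k107 (.l (.s k235 k215 5 (.s k1 k2 0
  (.s k65 k130 8 (.s k129 k193 7 (.s k66 k192 8 (.d k67 k64 k131 0 7))))))) (.c k151 (.l (.s k1 k2 0
  (.s k65 k130 8 (.s k129 k193 7 (.s k66 k192 8 (.d k67 k64 k131 0 7)))))) (.c k235 (.l (.s k107
  k151 13 (.d k67 k131 k127 7 5))) .n)))) .n))))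

def t85_231 : T TT 256 :=
  (.f k1 k2 0 (.f k87 k171 13 (.q k63 [(.s k23 k43 5 (.s k127 k191 7 (.s k107 k67 5 (.d k151 k215
  k195 7 13)))), (.s k21 k42 6 (.s k41 k61 5 (.s k22 k60 6 (.d k23 k20 k43 0 5))))] (.c k23 (.q k17
  [(.s k34 k51 4 (.s k33 k49 3 (.s k48 k18 4 (.d k32 k35 k16 0 3)))), (.s k21 k42 6 (.s k49 k33 3
  (.s k41 k61 5 (.s k25 k29 1 (.s k9 k57 3 (.d k13 k5 k37 1 5)))))), (.s k51 k34 4 (.s k21 k42 6 (.s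
  k25 k29 1 (.s k38 k12 6 (.d k55 k59 k4 1 4)))))] .n) (.c k43 (.l (.s k21 k42 6 (.s k41 k61 5 (.s
  k22 k60 6 (.s k23 k20 0 (.s k127 k191 7 (.s k107 k67 5 (.d k151 k215 k195 7 13)))))))) .n)))))

def t85_232 : T TT 256 :=
  (.f k87 k171 13 (.q k195 [(.s k67 k131 7 (.s k215 k235 5 (.s k151 k23 7 (.d k107 k127 k63 5
  13)))), (.s k1 k2 0 (.s k65 k130 8 (.s k129 k193 7 (.s k66 k192 8 (.d k67 k64 k131 0 7)))))] (.c
  k67 (.q k63 [(.s k151 k107 13 (.d k23 k43 k215 5 7)), (.s k1 k2 0 (.s k21 k42 6 (.s k65 k130 8 (.s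
  k61 k41 5 (.s k193 k129 7 (.s k105 k149 13 (.d k60 k62 k150 0 14)))))))] (.c k43 (.l (.s k1 k2 0
  (.s k21 k42 6 (.s k41 k61 5 (.s k22 k60 6 (.s k23 k20 0 (.d k151 k215 k107 7 13))))))) .n)) (.c
  k131 (.q k63 [(.s k151 k107 13 (.d k23 k43 k215 5 7)), (.s k1 k2 0 (.s k65 k130 8 (.s k129 k193 7
  (.s k66 k192 8 (.s k67 k64 0 (.d k107 k127 k151 5 13))))))] (.c k107 (.l (.s k1 k2 0 (.s k21 k42 6
  (.s k41 k61 5 (.s k22 k60 6 (.d k23 k20 k43 0 5)))))) (.c k151 (.l (.s k191 k127 7 (.s k1 k2 0 (.s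
  k21 k42 6 (.s k41 k61 5 (.s k22 k60 6 (.d k23 k20 k43 0 5))))))) (.c k191 (.l (.s k151 k107 13 (.d
  k23 k43 k215 5 7))) .n)))) .n))))

def t85_233 : T TT 256 :=
  (.f k1 k2 0 (.f k87 k171 13 (.q k63 [(.s k23 k43 5 (.s k127 k191 7 (.s k107 k67 5 (.d k151 k215
  k195 7 13)))), (.s k21 k42 6 (.s k41 k61 5 (.s k22 k60 6 (.d k23 k20 k43 0 5))))] (.c k23 (.q k17
  [(.s k34 k51 4 (.s k33 k49 3 (.s k48 k18 4 (.d k32 k35 k16 0 3)))), (.s k21 k42 6 (.s k49 k33 3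
  (.s k41 k61 5 (.s k25 k29 1 (.s k9 k57 3 (.d k13 k5 k37 1 5)))))), (.s k51 k34 4 (.s k21 k42 6 (.s
  k25 k29 1 (.s k38 k12 6 (.d k55 k59 k4 1 4)))))] .n) (.c k43 (.l (.s k21 k42 6 (.s k41 k61 5 (.s
  k22 k60 6 (.s k23 k20 0 (.s k127 k191 7 (.s k107 k67 5 (.d k151 k215 k195 7 13)))))))) .n)))))

def t85_234 : T TT 256 :=
  (.f k1 k2 0 (.f k87 k171 13 (.q k63 [(.s k23 k43 5 (.s k127 k191 7 (.s k107 k67 5 (.d k151 k215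
  k195 7 13)))), (.s k21 k42 6 (.s k41 k61 5 (.s k22 k60 6 (.d k23 k20 k43 0 5))))] (.c k23 (.q k17
  [(.s k34 k51 4 (.s k33 k49 3 (.s k48 k18 4 (.d k32 k35 k16 0 3)))), (.s k21 k42 6 (.s k49 k33 3
  (.s k41 k61 5 (.s k25 k29 1 (.s k9 k57 3 (.d k13 k5 k37 1 5)))))), (.s k51 k34 4 (.s k21 k42 6 (.s
  k25 k29 1 (.s k38 k12 6 (.d k55 k59 k4 1 4)))))] .n) (.c k43 (.l (.s k21 k42 6 (.s k41 k61 5 (.s
  k22 k60 6 (.s k23 k20 0 (.s k127 k191 7 (.s k107 k67 5 (.d k151 k215 k195 7 13)))))))) .n)))))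

def t85_235 : T TT 256 :=
  (.f k87 k171 13 (.q k63 [(.s k127 k191 7 (.s k23 k43 5 (.s k107 k67 5 (.d k151 k215 k195 7 13)))),
  (.s k1 k2 0 (.s k21 k42 6 (.s k41 k61 5 (.s k22 k60 6 (.d k23 k43 k20 5 0)))))] (.c k23 (.q k195
  [(.s k67 k131 7 (.d k107 k151 k127 13 5)), (.s k1 k2 0 (.s k21 k42 6 (.s k65 k130 8 (.s k61 k41 5
  (.s k193 k129 7 (.s k105 k149 13 (.d k60 k62 k150 0 14)))))))] (.c k43 (.l (.s k107 k151 13 (.d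
  k67 k131 k127 7 5))) (.c k107 (.q k43 [(.s k1 k2 0 (.s k65 k130 8 (.s k129 k193 7 (.s k66 k192 8
  (.d k67 k64 k131 0 7))))), (.s k2 k1 0 (.s k42 k21 6 (.s k22 k62 5 (.d k41 k40 k60 0 6))))] (.c k1
  (.q k169 [(.s k86 k252 14 (.s k106 k232 8 (.s k66 k126 5 (.d k192 k129 k149 8 14)))), (.s k42 k21
  6 (.s k41 k40 0 (.s k105 k233 7 (.d k60 k22 k150 6 14)))), (.s k42 k21 6 (.s k252 k86 14 (.s k41
  k40 0 (.d k233 k105 k214 7 6))))] (.c k149 (.l (.s k65 k130 8 (.s k67 k131 7 (.s k86 k252 14 (.s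
  k106 k232 8 (.d k66 k64 k126 0 5)))))) (.c k233 (.l (.s k42 k21 6 (.s k106 k232 8 (.s k234 k170 7
  (.d k192 k213 k149 6 14))))) .n))) (.c k2 (.l (.s k130 k65 8 (.s k131 k67 7 (.s k191 k127 7 (.s
  k128 k129 0 (.s k149 k170 6 (.d k192 k64 k106 7 14))))))) .n))) (.c k131 (.l (.s k1 k2 0 (.s k65
  k130 8 (.s k129 k193 7 (.s k66 k192 8 (.s k67 k64 0 (.d k107 k127 k151 5 13))))))) .n)))) (.c k43
  (.q k107 [(.d k127 k67 k191 5 7), (.s k1 k2 0 (.s k21 k42 6 (.s k41 k61 5 (.s k22 k60 6 (.s k23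
  k20 0 (.d k151 k215 k195 7 13))))))] .n) (.c k107 (.l (.s k43 k23 5 (.s k2 k1 0 (.s k42 k21 6 (.s
  k22 k62 5 (.d k41 k40 k60 0 6)))))) .n)))))

def t85_236 : T TT 256 :=
  (.f k1 k2 0 (.f k87 k171 13 (.q k63 [(.s k23 k43 5 (.s k127 k191 7 (.s k107 k67 5 (.d k151 k215
  k195 7 13)))), (.s k21 k42 6 (.s k41 k61 5 (.s k22 k60 6 (.d k23 k20 k43 0 5))))] (.c k23 (.q k17
  [(.s k34 k51 4 (.s k33 k49 3 (.s k48 k18 4 (.d k32 k35 k16 0 3)))), (.s k21 k42 6 (.s k49 k33 3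
  (.s k41 k61 5 (.s k25 k29 1 (.s k9 k57 3 (.d k13 k5 k37 1 5)))))), (.s k51 k34 4 (.s k21 k42 6 (.s
  k25 k29 1 (.s k38 k12 6 (.d k55 k59 k4 1 4)))))] .n) (.c k43 (.l (.s k21 k42 6 (.s k41 k61 5 (.s
  k22 k60 6 (.s k23 k20 0 (.s k127 k191 7 (.s k107 k67 5 (.d k151 k215 k195 7 13)))))))) .n)))))

def t85_237 : T TT 256 :=
  (.f k1 k2 0 (.f k87 k171 13 (.q k63 [(.s k23 k43 5 (.s k127 k191 7 (.s k107 k67 5 (.d k151 k215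
  k195 7 13)))), (.s k21 k42 6 (.s k41 k61 5 (.s k22 k60 6 (.d k23 k20 k43 0 5))))] (.c k23 (.q k17
  [(.s k34 k51 4 (.s k33 k49 3 (.s k48 k18 4 (.d k32 k35 k16 0 3)))), (.s k21 k42 6 (.s k49 k33 3
  (.s k41 k61 5 (.s k25 k29 1 (.s k9 k57 3 (.d k13 k5 k37 1 5)))))), (.s k51 k34 4 (.s k21 k42 6 (.s
  k25 k29 1 (.s k38 k12 6 (.d k55 k59 k4 1 4)))))] .n) (.c k43 (.l (.s k21 k42 6 (.s k41 k61 5 (.s
  k22 k60 6 (.s k23 k20 0 (.s k127 k191 7 (.s k107 k67 5 (.d k151 k215 k195 7 13)))))))) .n)))))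

def t85_238 : T TT 256 :=
  (.f k1 k2 0 (.f k87 k171 13 (.q k63 [(.s k23 k43 5 (.s k127 k191 7 (.s k107 k67 5 (.d k151 k215
  k195 7 13)))), (.s k21 k42 6 (.s k41 k61 5 (.s k22 k60 6 (.d k23 k20 k43 0 5))))] (.c k23 (.q k17
  [(.s k34 k51 4 (.s k33 k49 3 (.s k48 k18 4 (.d k32 k35 k16 0 3)))), (.s k21 k42 6 (.s k49 k33 3
  (.s k41 k61 5 (.s k25 k29 1 (.s k9 k57 3 (.d k13 k5 k37 1 5)))))), (.s k51 k34 4 (.s k21 k42 6 (.s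
  k25 k29 1 (.s k38 k12 6 (.d k55 k59 k4 1 4)))))] .n) (.c k43 (.l (.s k21 k42 6 (.s k41 k61 5 (.s
  k22 k60 6 (.s k23 k20 0 (.s k127 k191 7 (.s k107 k67 5 (.d k151 k215 k195 7 13)))))))) .n)))))

def t85_239 : T TT 256 :=
  (.f k87 k171 13 (.q k51 [(.s k119 k187 9 (.s k19 k35 3 (.s k103 k71 3 (.d k155 k223 k207 9 13)))),
  (.s k1 k2 0 (.s k17 k34 4 (.s k33 k49 3 (.s k18 k48 4 (.d k19 k35 k16 3 0)))))] (.c k19 (.f k17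
  k34 4 (.q k103 [(.d k119 k71 k187 3 9), (.s k1 k2 0 (.s k49 k33 3 (.s k207 k155 13 (.s k69 k138 10
  (.s k205 k137 9 (.s k101 k153 13 (.d k48 k50 k154 0 14)))))))] (.c k187 (.l (.s k71 k119 3 (.d
  k207 k139 k155 9 13))) .n))) (.c k35 (.q k103 [(.d k119 k71 k187 3 9), (.s k1 k2 0 (.s k17 k34 4
  (.s k33 k49 3 (.s k18 k48 4 (.s k19 k16 0 (.d k155 k223 k207 9 13))))))] .n) (.c k103 (.l (.s k35
  k19 3 (.s k2 k1 0 (.s k34 k17 4 (.s k18 k50 3 (.d k33 k32 k48 0 4)))))) .n)))))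

def t85_240 : T TT 256 :=
  (.f k1 k2 0 (.q k67 [(.s k195 k131 7 (.s k65 k130 8 (.s k129 k193 7 (.d k66 k64 k192 0 8)))), (.s
  k87 k171 13 (.s k127 k107 5 (.s k63 k191 7 (.s k21 k42 6 (.s k41 k61 5 (.s k22 k60 6 (.d k23 k43
  k20 5 0)))))))] (.c k90 (.q k165 [(.s k195 k131 7 (.s k65 k130 8 (.s k129 k193 7 (.d k66 k64 k192
  0 8)))), (.s k87 k171 13 (.s k127 k107 5 (.s k63 k191 7 (.s k21 k42 6 (.s k41 k61 5 (.s k22 k60 6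
  (.d k23 k43 k20 5 0)))))))] (.c k80 (.q k95 [(.s k195 k131 7 (.s k65 k130 8 (.s k129 k193 7 (.d
  k66 k64 k192 0 8)))), (.s k87 k171 13 (.s k127 k107 5 (.s k79 k111 3 (.s k91 k83 1 (.s k103 k115 5
  (.d k71 k75 k119 1 3))))))] .n) (.c k95 (.q k80 [(.s k195 k131 7 (.s k65 k130 8 (.s k129 k193 7
  (.d k66 k64 k192 0 8)))), (.s k87 k171 13 (.s k127 k107 5 (.s k63 k191 7 (.s k21 k42 6 (.s k41 k61
  5 (.s k22 k60 6 (.d k23 k43 k20 5 0)))))))] (.c k131 (.q k63 [(.s k87 k171 13 (.d k127 k191 k107 7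
  5)), (.s k21 k42 6 (.s k41 k61 5 (.s k22 k60 6 (.d k23 k20 k43 0 5))))] .n) .n)) (.c k131 (.q k63
  [(.s k87 k171 13 (.d k127 k191 k107 7 5)), (.s k21 k42 6 (.s k41 k61 5 (.s k22 k60 6 (.d k23 k20
  k43 0 5))))] (.c k80 (.q k95 [(.s k87 k171 13 (.d k127 k191 k107 7 5)), (.s k21 k42 6 (.s k41 k61
  5 (.s k22 k60 6 (.d k23 k20 k43 0 5))))] .n) (.c k95 (.q k80 [(.s k87 k171 13 (.d k127 k191 k107 7
  5)), (.s k21 k42 6 (.s k41 k61 5 (.s k22 k60 6 (.d k23 k20 k43 0 5))))] .n) .n))) .n)))) (.c k131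
  (.q k63 [(.s k87 k171 13 (.d k127 k191 k107 7 5)), (.s k21 k42 6 (.s k41 k61 5 (.s k22 k60 6 (.d
  k23 k20 k43 0 5))))] (.c k90 (.q k165 [(.s k87 k171 13 (.d k127 k191 k107 7 5)), (.s k21 k42 6 (.s
  k41 k61 5 (.s k22 k60 6 (.d k23 k20 k43 0 5))))] (.c k80 (.q k95 [(.s k87 k171 13 (.d k127 k191
  k107 7 5)), (.s k21 k42 6 (.s k41 k61 5 (.s k22 k60 6 (.d k23 k20 k43 0 5))))] .n) (.c k95 (.q k80
  [(.s k87 k171 13 (.d k127 k191 k107 7 5)), (.s k21 k42 6 (.s k41 k61 5 (.s k22 k60 6 (.d k23 k20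
  k43 0 5))))] .n) .n))) (.c k165 (.q k90 [(.s k87 k171 13 (.d k127 k191 k107 7 5)), (.s k21 k42 6
  (.s k41 k61 5 (.s k22 k60 6 (.d k23 k20 k43 0 5))))] (.c k5 (.q k245 [(.s k87 k171 13 (.d k127
  k191 k107 7 5)), (.s k21 k42 6 (.s k41 k61 5 (.s k22 k60 6 (.d k23 k20 k43 0 5))))] .n) (.c k245
  (.q k5 [(.s k87 k171 13 (.d k127 k191 k107 7 5)), (.s k21 k42 6 (.s k41 k61 5 (.s k22 k60 6 (.d
  k23 k20 k43 0 5))))] .n) .n))) .n))) (.c k165 (.q k90 [(.s k195 k131 7 (.s k65 k130 8 (.s k129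
  k193 7 (.d k66 k64 k192 0 8)))), (.s k87 k171 13 (.s k127 k107 5 (.s k63 k191 7 (.s k21 k42 6 (.s
  k41 k61 5 (.s k22 k60 6 (.d k23 k43 k20 5 0)))))))] (.c k5 (.q k245 [(.s k195 k131 7 (.s k65 k130
  8 (.s k129 k193 7 (.d k66 k64 k192 0 8)))), (.s k87 k171 13 (.s k127 k107 5 (.s k63 k191 7 (.s k21
  k42 6 (.s k41 k61 5 (.s k22 k60 6 (.d k23 k43 k20 5 0)))))))] (.c k131 (.q k63 [(.s k87 k171 13
  (.d k127 k191 k107 7 5)), (.s k21 k42 6 (.s k41 k61 5 (.s k22 k60 6 (.d k23 k20 k43 0 5))))] .n)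
  .n)) (.c k131 (.q k63 [(.s k87 k171 13 (.d k127 k191 k107 7 5)), (.s k21 k42 6 (.s k41 k61 5 (.s
  k22 k60 6 (.d k23 k20 k43 0 5))))] (.c k5 (.q k245 [(.s k87 k171 13 (.d k127 k191 k107 7 5)), (.s
  k21 k42 6 (.s k41 k61 5 (.s k22 k60 6 (.d k23 k20 k43 0 5))))] .n) (.c k245 (.q k5 [(.s k87 k171
  13 (.d k127 k191 k107 7 5)), (.s k21 k42 6 (.s k41 k61 5 (.s k22 k60 6 (.d k23 k20 k43 0 5))))]
  .n) .n))) (.c k245 (.q k5 [(.s k195 k131 7 (.s k65 k130 8 (.s k129 k193 7 (.d k66 k64 k192 0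
  8)))), (.s k87 k171 13 (.s k127 k107 5 (.s k63 k191 7 (.s k21 k42 6 (.s k41 k61 5 (.s k22 k60 6
  (.d k23 k43 k20 5 0)))))))] (.c k131 (.q k63 [(.s k87 k171 13 (.d k127 k191 k107 7 5)), (.s k21
  k42 6 (.s k41 k61 5 (.s k22 k60 6 (.d k23 k20 k43 0 5))))] .n) .n)) .n)))) .n)))))

def t85_241 : T TT 256 :=
  (.f k87 k171 13 (.q k51 [(.s k19 k35 3 (.s k119 k187 9 (.s k103 k71 3 (.d k155 k223 k207 9 13)))),
  (.s k1 k2 0 (.s k17 k34 4 (.s k33 k49 3 (.s k18 k48 4 (.d k19 k16 k35 0 3)))))] (.c k19 (.q k63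
  [(.s k23 k43 5 (.s k127 k191 7 (.s k107 k67 5 (.d k151 k215 k195 7 13)))), (.s k17 k34 4 (.s k21
  k42 6 (.s k25 k29 1 (.s k38 k12 6 (.d k55 k59 k4 1 4)))))] .n) (.c k35 (.f k17 k34 4 (.l (.s k1 k2
  0 (.s k33 k49 3 (.s k18 k48 4 (.s k19 k16 0 (.s k119 k187 9 (.s k103 k71 3 (.d k155 k223 k207 9
  13))))))))) .n))))

def t85_242 : T TT 256 :=
  (.f k87 k171 13 (.q k51 [(.s k19 k35 3 (.s k119 k187 9 (.s k103 k71 3 (.d k155 k223 k207 9 13)))),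
  (.s k1 k2 0 (.s k17 k34 4 (.s k33 k49 3 (.s k18 k48 4 (.d k19 k16 k35 0 3)))))] (.c k19 (.q k63
  [(.s k23 k43 5 (.s k127 k191 7 (.s k107 k67 5 (.d k151 k215 k195 7 13)))), (.s k17 k34 4 (.s k21
  k42 6 (.s k25 k29 1 (.s k38 k12 6 (.d k55 k59 k4 1 4)))))] .n) (.c k35 (.f k17 k34 4 (.l (.s k1 k2
  0 (.s k33 k49 3 (.s k18 k48 4 (.s k19 k16 0 (.s k119 k187 9 (.s k103 k71 3 (.d k155 k223 k207 9
  13))))))))) .n))))

def t85_243 : T TT 256 :=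
  (.f k87 k171 13 (.q k51 [(.s k19 k35 3 (.s k119 k187 9 (.s k103 k71 3 (.d k155 k223 k207 9 13)))),
  (.s k1 k2 0 (.s k17 k34 4 (.s k33 k49 3 (.s k18 k48 4 (.d k19 k16 k35 0 3)))))] (.c k19 (.f k17
  k34 4 (.q k63 [(.s k21 k42 6 (.s k25 k29 1 (.s k55 k59 1 (.d k38 k4 k12 4 6)))), (.s k23 k43 5 (.s
  k151 k215 7 (.s k107 k195 13 (.d k127 k67 k191 5 7))))] (.c k91 (.q k167 [(.s k247 k7 11 (.s k55
  k59 1 (.d k119 k183 k187 7 9))), (.s k23 k43 5 (.s k151 k215 7 (.s k107 k195 13 (.d k127 k67 k191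
  5 7))))] (.c k11 (.q k251 [(.s k59 k55 1 (.d k187 k123 k119 7 9)), (.s k127 k191 7 (.s k107 k67 5
  (.s k151 k195 13 (.d k23 k43 k215 5 7))))] .n) (.c k251 (.q k11 [(.s k59 k55 1 (.d k43 k27 k23 3
  5)), (.s k247 k7 11 (.s k55 k59 1 (.d k119 k187 k183 9 7))), (.s k23 k43 5 (.s k151 k215 7 (.s
  k107 k195 13 (.d k127 k67 k191 5 7))))] .n) .n))) (.c k167 (.q k91 [(.s k21 k42 6 (.s k25 k29 1
  (.s k55 k59 1 (.d k38 k4 k12 4 6)))), (.s k23 k43 5 (.s k151 k215 7 (.s k107 k195 13 (.d k127 k67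
  k191 5 7))))] (.c k163 (.q k175 [(.s k21 k42 6 (.s k25 k29 1 (.s k55 k59 1 (.d k38 k4 k12 4 6)))),
  (.s k23 k43 5 (.s k151 k215 7 (.s k107 k195 13 (.d k127 k67 k191 5 7))))] .n) (.c k175 (.q k163
  [(.s k21 k42 6 (.s k25 k29 1 (.s k55 k59 1 (.d k38 k4 k12 4 6)))), (.s k23 k43 5 (.s k151 k215 7
  (.s k107 k195 13 (.d k127 k67 k191 5 7))))] .n) .n))) .n)))) (.c k35 (.f k17 k34 4 (.l (.s k1 k2 0
  (.s k33 k49 3 (.s k18 k48 4 (.s k19 k16 0 (.s k119 k187 9 (.s k103 k71 3 (.d k155 k223 k207 9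
  13))))))))) (.c k91 (.q k167 [(.s k19 k35 3 (.s k119 k187 9 (.s k103 k71 3 (.d k155 k223 k207 9
  13)))), (.s k1 k2 0 (.s k17 k34 4 (.s k33 k49 3 (.s k18 k48 4 (.d k19 k16 k35 0 3))))), (.s k247
  k7 11 (.s k119 k187 9 (.s k55 k183 7 (.s k103 k71 3 (.s k231 k39 7 (.d k199 k215 k151 3 11))))))]
  (.c k11 (.q k251 [(.s k19 k35 3 (.s k119 k187 9 (.s k103 k71 3 (.d k155 k223 k207 9 13)))), (.s k1
  k2 0 (.s k17 k34 4 (.s k33 k49 3 (.s k18 k48 4 (.d k19 k16 k35 0 3))))), (.s k247 k7 11 (.s k119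
  k187 9 (.s k55 k183 7 (.s k103 k71 3 (.s k231 k39 7 (.d k199 k215 k151 3 11))))))] .n) (.c k251
  (.q k11 [(.s k19 k35 3 (.s k119 k187 9 (.s k103 k71 3 (.d k155 k223 k207 9 13)))), (.s k1 k2 0 (.s
  k17 k34 4 (.s k33 k49 3 (.s k18 k48 4 (.d k19 k16 k35 0 3))))), (.s k247 k7 11 (.s k119 k187 9 (.s
  k55 k183 7 (.s k103 k71 3 (.s k231 k39 7 (.d k199 k215 k151 3 11))))))] .n) .n))) (.c k167 (.q k91
  [(.s k19 k35 3 (.s k119 k187 9 (.s k103 k71 3 (.d k155 k223 k207 9 13)))), (.s k1 k2 0 (.s k17 k34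
  4 (.s k33 k49 3 (.s k18 k48 4 (.d k19 k16 k35 0 3))))), (.s k119 k187 9 (.s k103 k71 3 (.s k115
  k79 5 (.s k83 k95 1 (.s k67 k99 3 (.d k127 k123 k107 1 5))))))] (.c k163 (.q k175 [(.s k19 k35 3
  (.s k119 k187 9 (.s k103 k71 3 (.d k155 k223 k207 9 13)))), (.s k1 k2 0 (.s k17 k34 4 (.s k33 k49
  3 (.s k18 k48 4 (.d k19 k16 k35 0 3))))), (.s k119 k187 9 (.s k103 k71 3 (.s k115 k79 5 (.s k83
  k95 1 (.s k127 k123 1 (.d k67 k99 k107 3 5))))))] .n) (.c k175 (.q k163 [(.s k19 k35 3 (.s k119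
  k187 9 (.s k103 k71 3 (.d k155 k223 k207 9 13)))), (.s k1 k2 0 (.s k17 k34 4 (.s k33 k49 3 (.s k18
  k48 4 (.d k19 k16 k35 0 3))))), (.s k119 k187 9 (.s k103 k71 3 (.s k115 k79 5 (.s k83 k95 1 (.s
  k67 k99 3 (.d k127 k123 k107 1 5))))))] .n) .n))) .n))))))

def t85_244 : T TT 256 :=
  (.f k1 k2 0 (.f k87 k171 13 (.q k51 [(.s k19 k35 3 (.s k119 k187 9 (.s k103 k71 3 (.d k155 k223
  k207 9 13)))), (.s k17 k34 4 (.s k33 k49 3 (.s k18 k48 4 (.d k19 k16 k35 0 3))))] (.c k19 (.q k23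
  [(.s k63 k43 5 (.s k127 k191 7 (.s k107 k67 5 (.d k151 k215 k195 7 13)))), (.s k151 k215 7 (.s
  k119 k187 9 (.s k103 k71 3 (.s k55 k199 11 (.s k7 k39 3 (.d k247 k183 k167 7 11)))))), (.s k63 k43
  5 (.s k21 k42 6 (.s k41 k61 5 (.d k22 k20 k60 0 6))))] .n) (.c k35 (.l (.s k17 k34 4 (.s k33 k49 3
  (.s k18 k48 4 (.s k19 k16 0 (.s k119 k187 9 (.s k103 k71 3 (.d k155 k223 k207 9 13)))))))) .n)))))

def t85_245 : T TT 256 :=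
  (.f k1 k2 0 (.f k87 k171 13 (.q k51 [(.s k19 k35 3 (.s k119 k187 9 (.s k103 k71 3 (.d k155 k223
  k207 9 13)))), (.s k17 k34 4 (.s k33 k49 3 (.s k18 k48 4 (.d k19 k16 k35 0 3))))] (.c k5 (.q k165
  [(.s k19 k35 3 (.s k119 k187 9 (.s k103 k71 3 (.d k155 k223 k207 9 13)))), (.s k17 k34 4 (.s k33
  k49 3 (.s k18 k48 4 (.d k19 k16 k35 0 3))))] (.c k19 (.q k23 [(.s k63 k43 5 (.s k127 k191 7 (.s
  k107 k67 5 (.d k151 k215 k195 7 13)))), (.s k151 k215 7 (.s k119 k187 9 (.s k103 k71 3 (.s k55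
  k199 11 (.s k7 k39 3 (.d k247 k183 k167 7 11)))))), (.s k63 k43 5 (.s k21 k42 6 (.s k41 k61 5 (.d
  k22 k20 k60 0 6))))] .n) (.c k35 (.l (.s k17 k34 4 (.s k33 k49 3 (.s k18 k48 4 (.s k19 k16 0 (.s
  k119 k187 9 (.s k103 k71 3 (.d k155 k223 k207 9 13)))))))) .n))) (.c k19 (.q k23 [(.s k63 k43 5
  (.s k127 k191 7 (.s k107 k67 5 (.d k151 k215 k195 7 13)))), (.s k151 k215 7 (.s k119 k187 9 (.s
  k103 k71 3 (.s k55 k199 11 (.s k7 k39 3 (.d k247 k183 k167 7 11)))))), (.s k63 k43 5 (.s k21 k42 6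
  (.s k41 k61 5 (.d k22 k20 k60 0 6))))] (.c k5 (.q k165 [(.s k63 k43 5 (.s k127 k191 7 (.s k107 k67
  5 (.d k151 k215 k195 7 13)))), (.s k151 k215 7 (.s k119 k187 9 (.s k103 k71 3 (.s k55 k199 11 (.s
  k7 k39 3 (.d k247 k183 k167 7 11)))))), (.s k63 k43 5 (.s k21 k42 6 (.s k41 k61 5 (.d k22 k20 k60
  0 6))))] .n) (.c k165 (.q k5 [(.s k63 k43 5 (.s k127 k191 7 (.s k107 k67 5 (.d k151 k215 k195 7
  13)))), (.s k17 k34 4 (.s k9 k13 1 (.s k12 k6 2 (.s k25 k38 6 (.s k41 k57 3 (.d k21 k29 k61 1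
  5))))))] (.c k90 (.q k240 [(.s k63 k43 5 (.s k127 k191 7 (.s k107 k67 5 (.d k151 k215 k195 7
  13)))), (.s k161 k82 12 (.s k81 k241 11 (.s k162 k243 12 (.d k160 k80 k163 11 0))))] (.c k80 (.q
  k95 [(.s k63 k43 5 (.s k127 k191 7 (.s k107 k67 5 (.d k151 k215 k195 7 13)))), (.s k161 k82 12 (.s
  k81 k241 11 (.s k83 k91 1 (.d k243 k162 k163 12 11))))] .n) (.c k95 (.l (.s k80 k160 11 (.s k63
  k43 5 (.s k21 k42 6 (.s k41 k61 5 (.d k22 k20 k60 0 6)))))) .n))) (.c k240 (.q k90 [(.s k63 k43 5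
  (.s k127 k191 7 (.s k107 k67 5 (.d k151 k215 k195 7 13)))), (.s k17 k34 4 (.s k9 k13 1 (.s k12 k6
  2 (.s k25 k38 6 (.s k41 k57 3 (.d k21 k29 k61 1 5))))))] .n) .n))) .n))) (.c k35 (.l (.s k17 k34 4
  (.s k33 k49 3 (.s k18 k48 4 (.s k19 k16 0 (.s k119 k187 9 (.s k103 k71 3 (.d k155 k223 k207 9
  13)))))))) (.c k165 (.q k5 [(.s k19 k35 3 (.s k119 k187 9 (.s k103 k71 3 (.d k155 k223 k207 9
  13)))), (.s k17 k34 4 (.s k9 k13 1 (.s k12 k6 2 (.s k25 k38 6 (.s k41 k57 3 (.d k21 k29 k61 1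
  5))))))] (.c k90 (.q k240 [(.s k19 k35 3 (.s k119 k187 9 (.s k103 k71 3 (.d k155 k223 k207 9
  13)))), (.s k161 k82 12 (.s k81 k241 11 (.s k162 k243 12 (.d k160 k80 k163 11 0))))] (.c k80 (.q
  k95 [(.s k19 k35 3 (.s k119 k187 9 (.s k103 k71 3 (.d k155 k223 k207 9 13)))), (.s k161 k82 12 (.s
  k81 k241 11 (.s k83 k91 1 (.d k243 k162 k163 12 11))))] .n) (.c k95 (.l (.s k80 k160 11 (.s k17
  k34 4 (.s k33 k49 3 (.s k18 k48 4 (.d k19 k16 k35 0 3)))))) .n))) (.c k240 (.q k90 [(.s k19 k35 3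
  (.s k119 k187 9 (.s k103 k71 3 (.d k155 k223 k207 9 13)))), (.s k17 k34 4 (.s k9 k13 1 (.s k12 k6
  2 (.s k25 k38 6 (.s k41 k57 3 (.d k21 k29 k61 1 5))))))] .n) .n))) .n)))))))

def t85_246 : T TT 256 :=
  (.f k87 k171 13 (.q k51 [(.s k19 k35 3 (.s k119 k187 9 (.s k103 k71 3 (.d k155 k223 k207 9 13)))),
  (.s k1 k2 0 (.s k17 k34 4 (.s k33 k49 3 (.s k18 k48 4 (.d k19 k16 k35 0 3)))))] (.c k19 (.q k63
  [(.s k23 k43 5 (.s k127 k191 7 (.s k107 k67 5 (.d k151 k215 k195 7 13)))), (.s k17 k34 4 (.s k21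
  k42 6 (.s k25 k29 1 (.s k38 k12 6 (.d k55 k59 k4 1 4)))))] .n) (.c k35 (.f k17 k34 4 (.l (.s k1 k2
  0 (.s k33 k49 3 (.s k18 k48 4 (.s k19 k16 0 (.s k119 k187 9 (.s k103 k71 3 (.d k155 k223 k207 9
  13))))))))) .n))))

def t85_247 : T TT 256 :=
  (.f k1 k2 0 (.f k87 k171 13 (.q k51 [(.s k19 k35 3 (.s k119 k187 9 (.s k103 k71 3 (.d k155 k223
  k207 9 13)))), (.s k17 k34 4 (.s k33 k49 3 (.s k18 k48 4 (.d k19 k16 k35 0 3))))] (.c k4 (.q k166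
  [(.s k19 k35 3 (.s k119 k187 9 (.s k103 k71 3 (.d k155 k223 k207 9 13)))), (.s k17 k34 4 (.s k33
  k49 3 (.s k18 k48 4 (.d k19 k16 k35 0 3))))] (.c k19 (.q k63 [(.s k23 k43 5 (.s k127 k191 7 (.s
  k107 k67 5 (.d k151 k215 k195 7 13)))), (.s k34 k17 4 (.s k42 k21 6 (.s k38 k46 1 (.s k25 k12 6
  (.d k59 k55 k8 1 4)))))] .n) (.c k35 (.l (.s k17 k34 4 (.s k33 k49 3 (.s k18 k48 4 (.s k19 k16 0
  (.s k119 k187 9 (.s k103 k71 3 (.d k155 k223 k207 9 13)))))))) .n))) (.c k19 (.q k63 [(.s k23 k43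
  5 (.s k127 k191 7 (.s k107 k67 5 (.d k151 k215 k195 7 13)))), (.s k17 k34 4 (.s k21 k42 6 (.s k25
  k29 1 (.s k38 k12 6 (.d k55 k4 k59 4 1)))))] (.c k4 (.q k166 [(.s k23 k43 5 (.s k127 k191 7 (.s
  k107 k67 5 (.d k151 k215 k195 7 13)))), (.s k34 k17 4 (.s k42 k21 6 (.s k38 k46 1 (.s k25 k12 6
  (.d k59 k55 k8 1 4)))))] .n) (.c k166 (.q k4 [(.s k55 k59 1 (.d k21 k38 k42 4 6)), (.s k23 k43 5
  (.s k151 k215 7 (.s k107 k195 13 (.d k127 k67 k191 5 7))))] .n) .n))) (.c k35 (.l (.s k17 k34 4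
  (.s k33 k49 3 (.s k18 k48 4 (.s k19 k16 0 (.s k119 k187 9 (.s k103 k71 3 (.d k155 k223 k207 9
  13)))))))) (.c k166 (.q k4 [(.s k19 k35 3 (.s k119 k187 9 (.s k103 k71 3 (.d k155 k223 k207 9
  13)))), (.s k12 k8 1 (.s k34 k17 4 (.s k38 k25 6 (.s k21 k55 4 (.d k42 k46 k63 1 6)))))] (.c k119
  (.l (.s k17 k34 4 (.s k33 k49 3 (.s k18 k48 4 (.d k19 k16 k35 0 3))))) .n)) .n)))))))

def t85_248 : T TT 256 :=
  (.f k1 k2 0 (.f k87 k171 13 (.q k51 [(.s k19 k35 3 (.s k119 k187 9 (.s k103 k71 3 (.d k155 k223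
  k207 9 13)))), (.s k17 k34 4 (.s k33 k49 3 (.s k18 k48 4 (.d k19 k16 k35 0 3))))] (.c k19 (.q k23
  [(.s k63 k43 5 (.s k127 k191 7 (.s k107 k67 5 (.d k151 k215 k195 7 13)))), (.s k151 k215 7 (.s
  k119 k187 9 (.s k103 k71 3 (.s k55 k199 11 (.s k7 k39 3 (.d k247 k183 k167 7 11)))))), (.s k63 k43
  5 (.s k21 k42 6 (.s k41 k61 5 (.d k22 k20 k60 0 6))))] .n) (.c k35 (.l (.s k17 k34 4 (.s k33 k49 3
  (.s k18 k48 4 (.s k19 k16 0 (.s k119 k187 9 (.s k103 k71 3 (.d k155 k223 k207 9 13)))))))) .n)))))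

def t85_249 : T TT 256 :=
  (.f k1 k2 0 (.f k87 k171 13 (.q k51 [(.s k19 k35 3 (.s k119 k187 9 (.s k103 k71 3 (.d k155 k223
  k207 9 13)))), (.s k17 k34 4 (.s k33 k49 3 (.s k18 k48 4 (.d k19 k16 k35 0 3))))] (.c k19 (.q k23
  [(.s k63 k43 5 (.s k127 k191 7 (.s k107 k67 5 (.d k151 k215 k195 7 13)))), (.s k151 k215 7 (.s
  k119 k187 9 (.s k103 k71 3 (.s k55 k199 11 (.s k7 k39 3 (.d k247 k183 k167 7 11)))))), (.s k63 k43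
  5 (.s k21 k42 6 (.s k41 k61 5 (.d k22 k20 k60 0 6))))] .n) (.c k35 (.l (.s k17 k34 4 (.s k33 k49 3
  (.s k18 k48 4 (.s k19 k16 0 (.s k119 k187 9 (.s k103 k71 3 (.d k155 k223 k207 9 13)))))))) .n)))))

def t85_250 : T TT 256 :=
  (.f k1 k2 0 (.f k87 k171 13 (.q k51 [(.s k19 k35 3 (.s k119 k187 9 (.s k103 k71 3 (.d k155 k223
  k207 9 13)))), (.s k17 k34 4 (.s k33 k49 3 (.s k18 k48 4 (.d k19 k16 k35 0 3))))] (.c k19 (.q k23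
  [(.s k63 k43 5 (.s k127 k191 7 (.s k107 k67 5 (.d k151 k215 k195 7 13)))), (.s k151 k215 7 (.s
  k119 k187 9 (.s k103 k71 3 (.s k55 k199 11 (.s k7 k39 3 (.d k247 k183 k167 7 11)))))), (.s k63 k43
  5 (.s k21 k42 6 (.s k41 k61 5 (.d k22 k20 k60 0 6))))] .n) (.c k35 (.l (.s k17 k34 4 (.s k33 k49 3
  (.s k18 k48 4 (.s k19 k16 0 (.s k119 k187 9 (.s k103 k71 3 (.d k155 k223 k207 9 13)))))))) .n)))))

def t85_251 : T TT 256 :=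
  (.f k1 k2 0 (.q k23 [(.s k63 k43 5 (.s k21 k42 6 (.s k41 k61 5 (.d k22 k20 k60 0 6)))), (.s k87
  k171 13 (.s k215 k151 7 (.s k195 k235 5 (.s k65 k130 8 (.s k129 k193 7 (.s k66 k192 8 (.d k67 k131
  k64 7 0)))))))] (.c k43 (.q k51 [(.s k17 k34 4 (.s k33 k49 3 (.s k18 k48 4 (.d k19 k16 k35 0
  3)))), (.s k87 k171 13 (.s k151 k215 7 (.s k119 k187 9 (.s k103 k71 3 (.s k55 k199 11 (.s k247
  k183 7 (.d k7 k39 k167 3 11)))))))] .n) .n)))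

def t85_252 : T TT 256 :=
  (.f k1 k2 0 (.q k23 [(.s k63 k43 5 (.s k21 k42 6 (.s k41 k61 5 (.d k22 k20 k60 0 6)))), (.s k87
  k171 13 (.s k215 k151 7 (.s k195 k235 5 (.s k65 k130 8 (.s k129 k193 7 (.s k66 k192 8 (.d k67 k131
  k64 7 0)))))))] (.c k43 (.q k51 [(.s k17 k34 4 (.s k33 k49 3 (.s k19 k35 3 (.d k18 k16 k48 0
  4)))), (.s k87 k171 13 (.s k151 k215 7 (.s k119 k187 9 (.s k103 k71 3 (.s k55 k199 11 (.s k247
  k183 7 (.d k7 k39 k167 3 11)))))))] (.c k39 (.l (.s k17 k34 4 (.s k33 k49 3 (.s k18 k48 4 (.d k19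
  k16 k35 0 3))))) (.c k94 (.q k173 [(.s k17 k34 4 (.s k33 k49 3 (.s k19 k35 3 (.d k18 k16 k48 0
  4)))), (.s k87 k171 13 (.s k151 k215 7 (.s k119 k187 9 (.s k103 k71 3 (.s k55 k199 11 (.s k247
  k183 7 (.d k7 k39 k167 3 11)))))))] (.c k39 (.l (.s k17 k34 4 (.s k33 k49 3 (.s k18 k48 4 (.d k19
  k16 k35 0 3))))) .n)) (.c k173 (.q k94 [(.s k17 k34 4 (.s k33 k49 3 (.s k19 k35 3 (.d k18 k16 k48
  0 4)))), (.s k87 k171 13 (.s k151 k215 7 (.s k119 k187 9 (.s k103 k71 3 (.s k55 k199 11 (.s k247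
  k183 7 (.d k7 k39 k167 3 11)))))))] (.c k39 (.l (.s k17 k34 4 (.s k33 k49 3 (.s k18 k48 4 (.d k19
  k16 k35 0 3))))) .n)) .n)))) (.c k94 (.q k173 [(.s k63 k43 5 (.s k21 k42 6 (.s k41 k61 5 (.d k22
  k20 k60 0 6)))), (.s k87 k171 13 (.s k215 k151 7 (.s k195 k235 5 (.s k65 k130 8 (.s k129 k193 7
  (.s k66 k192 8 (.d k67 k131 k64 7 0)))))))] (.c k43 (.q k51 [(.s k17 k34 4 (.s k33 k49 3 (.s k19
  k35 3 (.d k18 k16 k48 0 4)))), (.s k87 k171 13 (.s k151 k215 7 (.s k119 k187 9 (.s k103 k71 3 (.s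
  k55 k199 11 (.s k247 k183 7 (.d k7 k39 k167 3 11)))))))] (.c k39 (.l (.s k17 k34 4 (.s k33 k49 3
  (.s k18 k48 4 (.d k19 k16 k35 0 3))))) .n)) .n)) (.c k173 (.q k94 [(.s k63 k43 5 (.s k21 k42 6 (.s
  k41 k61 5 (.d k22 k20 k60 0 6)))), (.s k87 k171 13 (.s k215 k151 7 (.s k195 k235 5 (.s k65 k130 8
  (.s k129 k193 7 (.s k66 k192 8 (.d k67 k131 k64 7 0)))))))] (.c k43 (.q k51 [(.s k17 k34 4 (.s k33
  k49 3 (.s k19 k35 3 (.d k18 k16 k48 0 4)))), (.s k87 k171 13 (.s k151 k215 7 (.s k119 k187 9 (.s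
  k103 k71 3 (.s k55 k199 11 (.s k247 k183 7 (.d k7 k39 k167 3 11)))))))] (.c k39 (.l (.s k17 k34 4
  (.s k33 k49 3 (.s k18 k48 4 (.d k19 k16 k35 0 3))))) .n)) .n)) .n)))))

def t85_253 : T TT 256 :=
  (.f k1 k2 0 (.f k87 k171 13 (.q k51 [(.s k19 k35 3 (.s k119 k187 9 (.s k103 k71 3 (.d k155 k223
  k207 9 13)))), (.s k17 k34 4 (.s k33 k49 3 (.s k18 k48 4 (.d k19 k16 k35 0 3))))] (.c k19 (.q k63
  [(.s k23 k43 5 (.s k127 k191 7 (.s k107 k67 5 (.d k151 k215 k195 7 13)))), (.s k17 k34 4 (.s k21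
  k42 6 (.s k25 k29 1 (.s k38 k12 6 (.d k55 k59 k4 1 4)))))] .n) (.c k35 (.l (.s k17 k34 4 (.s k33
  k49 3 (.s k18 k48 4 (.s k19 k16 0 (.s k119 k187 9 (.s k103 k71 3 (.d k155 k223 k207 9 13))))))))
  .n)))))

def t85_254 : T TT 256 :=
  (.f k87 k171 13 (.q k51 [(.s k19 k35 3 (.s k119 k187 9 (.s k103 k71 3 (.d k155 k223 k207 9 13)))),
  (.s k1 k2 0 (.s k17 k34 4 (.s k33 k49 3 (.s k18 k48 4 (.d k19 k16 k35 0 3)))))] (.c k19 (.q k63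
  [(.s k23 k43 5 (.s k127 k191 7 (.s k107 k67 5 (.d k151 k215 k195 7 13)))), (.s k17 k34 4 (.s k21
  k42 6 (.s k25 k29 1 (.s k38 k12 6 (.d k55 k59 k4 1 4)))))] .n) (.c k35 (.f k1 k2 0 (.l (.s k17 k34
  4 (.s k33 k49 3 (.s k18 k48 4 (.s k19 k16 0 (.s k119 k187 9 (.s k103 k71 3 (.d k155 k223 k207 9
  13))))))))) .n))))

def t85 : T TT 256 :=
  (.q k3 [] (.c k1 t85_1 (.c k2 t85_2 (.c k4 t85_4 (.c k5 t85_5 (.c k6 t85_6 (.c k7 t85_7 (.c k8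
  t85_8 (.c k9 t85_9 (.c k10 t85_10 (.c k11 t85_11 (.c k12 t85_12 (.c k13 t85_13 (.c k14 t85_14 (.c
  k16 t85_16 (.c k17 t85_17 (.c k18 t85_18 (.c k19 t85_19 (.c k20 t85_20 (.c k21 t85_21 (.c k22
  t85_22 (.c k23 t85_23 (.c k24 t85_24 (.c k25 t85_25 (.c k26 t85_26 (.c k27 t85_27 (.c k28 t85_28
  (.c k29 t85_29 (.c k30 t85_30 (.c k31 t85_31 (.c k32 t85_32 (.c k33 t85_33 (.c k34 t85_34 (.c k35
  t85_35 (.c k36 t85_36 (.c k37 t85_37 (.c k38 t85_38 (.c k39 t85_39 (.c k40 t85_40 (.c k41 t85_41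
  (.c k42 t85_42 (.c k43 t85_43 (.c k44 t85_44 (.c k45 t85_45 (.c k46 t85_46 (.c k47 t85_47 (.c k48
  t85_48 (.c k49 t85_49 (.c k50 t85_50 (.c k51 t85_51 (.c k52 t85_52 (.c k53 t85_53 (.c k54 t85_54
  (.c k55 t85_55 (.c k56 t85_56 (.c k57 t85_57 (.c k58 t85_58 (.c k59 t85_59 (.c k60 t85_60 (.c k61
  t85_61 (.c k62 t85_62 (.c k63 t85_63 (.c k64 t85_64 (.c k65 t85_65 (.c k66 t85_66 (.c k67 t85_67
  (.c k68 t85_68 (.c k69 t85_69 (.c k70 t85_70 (.c k71 t85_71 (.c k72 t85_72 (.c k73 t85_73 (.c k74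
  t85_74 (.c k75 t85_75 (.c k76 t85_76 (.c k77 t85_77 (.c k78 t85_78 (.c k79 t85_79 (.c k80 t85_80
  (.c k81 t85_81 (.c k82 t85_82 (.c k83 t85_83 (.c k84 t85_84 (.c k86 t85_86 (.c k87 t85_87 (.c k88
  t85_88 (.c k89 t85_89 (.c k90 t85_90 (.c k91 t85_91 (.c k92 t85_92 (.c k93 t85_93 (.c k94 t85_94
  (.c k95 t85_95 (.c k96 t85_96 (.c k97 t85_97 (.c k98 t85_98 (.c k99 t85_99 (.c k100 t85_100 (.c
  k101 t85_101 (.c k102 t85_102 (.c k103 t85_103 (.c k104 t85_104 (.c k105 t85_105 (.c k106 t85_106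
  (.c k107 t85_107 (.c k108 t85_108 (.c k109 t85_109 (.c k110 t85_110 (.c k111 t85_111 (.c k112
  t85_112 (.c k113 t85_113 (.c k114 t85_114 (.c k115 t85_115 (.c k116 t85_116 (.c k117 t85_117 (.c
  k118 t85_118 (.c k119 t85_119 (.c k120 t85_120 (.c k121 t85_121 (.c k122 t85_122 (.c k123 t85_123
  (.c k124 t85_124 (.c k125 t85_125 (.c k126 t85_126 (.c k127 t85_127 (.c k128 t85_128 (.c k129
  t85_129 (.c k130 t85_130 (.c k131 t85_131 (.c k132 t85_132 (.c k133 t85_133 (.c k134 t85_134 (.c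
  k135 t85_135 (.c k136 t85_136 (.c k137 t85_137 (.c k138 t85_138 (.c k139 t85_139 (.c k140 t85_140
  (.c k141 t85_141 (.c k142 t85_142 (.c k143 t85_143 (.c k144 t85_144 (.c k145 t85_145 (.c k146
  t85_146 (.c k147 t85_147 (.c k148 t85_148 (.c k149 t85_149 (.c k150 t85_150 (.c k151 t85_151 (.c
  k152 t85_152 (.c k153 t85_153 (.c k154 t85_154 (.c k155 t85_155 (.c k156 t85_156 (.c k157 t85_157
  (.c k158 t85_158 (.c k159 t85_159 (.c k160 t85_160 (.c k161 t85_161 (.c k162 t85_162 (.c k163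
  t85_163 (.c k164 t85_164 (.c k165 t85_165 (.c k166 t85_166 (.c k167 t85_167 (.c k168 t85_168 (.c
  k169 t85_169 (.c k170 t85_170 (.c k171 t85_171 (.c k172 t85_172 (.c k173 t85_173 (.c k174 t85_174
  (.c k175 t85_175 (.c k176 t85_176 (.c k177 t85_177 (.c k178 t85_178 (.c k179 t85_179 (.c k180
  t85_180 (.c k181 t85_181 (.c k182 t85_182 (.c k183 t85_183 (.c k184 t85_184 (.c k185 t85_185 (.c
  k186 t85_186 (.c k187 t85_187 (.c k188 t85_188 (.c k189 t85_189 (.c k190 t85_190 (.c k191 t85_191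
  (.c k192 t85_192 (.c k193 t85_193 (.c k194 t85_194 (.c k195 t85_195 (.c k196 t85_196 (.c k197
  t85_197 (.c k198 t85_198 (.c k199 t85_199 (.c k200 t85_200 (.c k201 t85_201 (.c k202 t85_202 (.c
  k203 t85_203 (.c k204 t85_204 (.c k205 t85_205 (.c k206 t85_206 (.c k207 t85_207 (.c k208 t85_208
  (.c k209 t85_209 (.c k210 t85_210 (.c k211 t85_211 (.c k212 t85_212 (.c k213 t85_213 (.c k214
  t85_214 (.c k215 t85_215 (.c k216 t85_216 (.c k217 t85_217 (.c k218 t85_218 (.c k219 t85_219 (.c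
  k220 t85_220 (.c k221 t85_221 (.c k222 t85_222 (.c k223 t85_223 (.c k224 t85_224 (.c k225 t85_225
  (.c k226 t85_226 (.c k227 t85_227 (.c k228 t85_228 (.c k229 t85_229 (.c k230 t85_230 (.c k231
  t85_231 (.c k232 t85_232 (.c k233 t85_233 (.c k234 t85_234 (.c k235 t85_235 (.c k236 t85_236 (.c
  k237 t85_237 (.c k238 t85_238 (.c k239 t85_239 (.c k240 t85_240 (.c k241 t85_241 (.c k242 t85_242
  (.c k243 t85_243 (.c k244 t85_244 (.c k245 t85_245 (.c k246 t85_246 (.c k247 t85_247 (.c k248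
  t85_248 (.c k249 t85_249 (.c k250 t85_250 (.c k251 t85_251 (.c k252 t85_252 (.c k253 t85_253 (.c
  k254 t85_254 .n))))))))))))))))))))))))))))))))))))))))))))))))))))))))))))))))))))))))))))))))
  ))))))))))))))))))))))))))))))))))))))))))))))))))))))))))))))))))))))))))))))))
  )))))))))))))))))))))))))))))))))))))))))))))))))))))))))))))))))))))))))))))))) ))))))))))))

theorem c85 : rootOK2 k255 k15 k85 t85 = true := by decide +kernel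

def l : List Nat :=
  [k85.c]

theorem ok : AllQ k255.c k15.c l :=
  allQ_cons c85 (allQ_nil _ _)

end Pool.Agent.TTT.D03
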