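import Pool.Agent.TTT.Sym2

set_option autoImplicit false
set_option maxRecDepth 100000

namespace Pool.Agent.TTT.D04

def t86 : T TT 256 :=
  (.q k63 [(.s k21 k42 6 (.s k85 k170 14 (.s k149 k213 7 (.s k127 k191 7 (.d k106 k64 k192 6
  14))))), (.s k42 k21 6 (.s k170 k85 14 (.s k106 k234 7 (.s k149 k192 14 (.d k191 k128 k127 6
  7)))))] (.c k21 (.q k51 [(.s k55 k59 1 (.s k119 k187 9 (.s k183 k247 7 (.s k123 k243 9 (.d k127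
  k115 k191 1 7))))), (.s k17 k34 4 (.s k85 k170 14 (.s k153 k221 9 (.s k102 k204 14 (.d k119 k68
  k187 4 9))))), (.s k17 k34 4 (.s k85 k170 14 (.s k153 k221 9 (.s k59 k55 1 (.s k106 k200 12 (.d
  k127 k64 k191 6 7))))))] .n) (.c k42 (.q k51 [(.s k34 k17 4 (.s k187 k119 9 (.s k170 k85 14 (.s
  k153 k136 4 (.d k102 k238 k204 9 14))))), (.s k55 k59 1 (.s k119 k187 9 (.s k183 k247 7 (.s k123
  k243 9 (.d k127 k115 k191 1 7))))), (.s k17 k34 4 (.s k85 k170 14 (.s k153 k221 9 (.s k59 k55 1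
  (.s k106 k200 12 (.d k127 k64 k191 6 7))))))] .n) (.c k85 (.f k21 k42 6 (.q k3 [(.s k1 k2 0 (.s
  k41 k61 5 (.s k23 k43 5 (.d k22 k20 k60 0 6)))), (.s k87 k171 13 (.s k127 k191 7 (.s k107 k67 5
  (.s k151 k195 13 (.d k23 k43 k215 5 7)))))] (.c k23 (.f k87 k171 13 (.q k149 [(.s k191 k127 7 (.s
  k128 k170 6 (.d k192 k64 k106 7 14))), (.s k106 k192 14 (.s k127 k191 7 (.s k107 k67 5 (.s k105
  k104 0 (.s k61 k193 13 (.d k1 k2 k41 0 5)))))), (.s k1 k2 0 (.s k61 k41 5 (.s k193 k105 13 (.s k65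
  k129 7 (.s k195 k130 8 (.s k107 k151 13 (.d k67 k131 k127 7 5))))))), (.s k1 k2 0 (.s k61 k41 5
  (.s k193 k105 13 (.s k65 k129 7 (.s k195 k130 8 (.d k192 k194 k106 0 14))))))] (.c k2 (.l (.s k192
  k106 14 (.s k64 k128 7 (.s k66 k129 8 (.s k127 k191 7 (.d k67 k65 k107 0 5)))))) .n))) (.c k43 (.f
  k87 k171 13 (.l (.s k1 k2 0 (.s k41 k61 5 (.s k22 k60 6 (.s k23 k20 0 (.s k127 k191 7 (.s k107 k67
  5 (.d k151 k215 k195 7 13))))))))) (.c k84 (.l (.s k87 k171 13 (.s k1 k2 0 (.s k41 k61 5 (.s k22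
  k60 6 (.d k23 k20 k43 0 5)))))) (.c k87 (.q k84 [(.s k1 k2 0 (.s k41 k61 5 (.s k23 k43 5 (.d k22
  k20 k60 0 6)))), (.s k252 k168 13 (.s k126 k189 8 (.s k127 k191 7 (.s k125 k124 0 (.s k190 k60 8
  (.d k254 k253 k62 0 7)))))), (.s k23 k43 5 (.s k22 k20 0 (.s k41 k60 6 (.d k1 k2 k61 0 5))))] (.c
  k60 (.l (.s k1 k2 0 (.s k252 k168 13 (.s k61 k41 5 (.s k189 k126 8 (.d k253 k254 k125 0 7))))))
  .n)) .n)))))) (.c k106 (.q k51 [(.s k17 k34 4 (.s k21 k42 6 (.s k25 k29 1 (.s k38 k12 6 (.d k55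
  k59 k4 1 4))))), (.s k55 k59 1 (.s k119 k187 9 (.s k183 k247 7 (.s k123 k243 9 (.d k127 k115 k191
  1 7))))), (.s k17 k34 4 (.s k85 k170 14 (.s k153 k221 9 (.s k102 k204 14 (.d k119 k68 k187 4
  9)))))] (.c k66 (.q k126 [(.s k17 k34 4 (.s k21 k42 6 (.s k25 k29 1 (.s k38 k12 6 (.d k55 k59 k4 1
  4))))), (.s k55 k59 1 (.s k119 k187 9 (.s k183 k247 7 (.s k123 k243 9 (.d k127 k115 k191 1 7))))),
  (.s k17 k34 4 (.s k85 k170 14 (.s k153 k221 9 (.s k102 k204 14 (.d k119 k68 k187 4 9)))))] .n) (.c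
  k126 (.q k66 [(.s k17 k34 4 (.s k21 k42 6 (.s k25 k29 1 (.s k38 k12 6 (.d k55 k59 k4 1 4))))), (.s
  k55 k59 1 (.s k119 k187 9 (.s k183 k247 7 (.s k123 k243 9 (.d k127 k115 k191 1 7))))), (.s k17 k34
  4 (.s k85 k170 14 (.s k153 k221 9 (.s k102 k204 14 (.d k119 k68 k187 4 9)))))] .n) .n))) (.c k127
  (.q k51 [(.s k17 k34 4 (.s k21 k42 6 (.s k25 k29 1 (.s k55 k59 1 (.d k38 k4 k12 4 6))))), (.s k17
  k34 4 (.s k85 k170 14 (.s k153 k221 9 (.s k102 k204 14 (.d k119 k68 k187 4 9))))), (.s k21 k42 6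
  (.s k85 k170 14 (.s k149 k213 7 (.s k55 k59 1 (.s k119 k187 9 (.d k102 k68 k196 4 12))))))] .n)
  (.c k149 (.f k21 k42 6 (.q k51 [(.s k55 k59 1 (.s k17 k34 4 (.s k38 k4 4 (.d k25 k29 k12 1 6)))),
  (.s k34 k17 4 (.s k170 k85 14 (.s k102 k238 9 (.s k153 k204 14 (.d k187 k136 k119 4 9))))), (.s
  k85 k170 14 (.s k55 k59 1 (.s k119 k187 9 (.s k247 k183 7 (.d k4 k166 k38 12 4)))))] (.c k23 (.q
  k212 [(.s k55 k59 1 (.s k17 k34 4 (.s k38 k4 4 (.d k25 k29 k12 1 6)))), (.s k34 k17 4 (.s k170 k85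
  14 (.s k102 k238 9 (.s k153 k204 14 (.d k187 k136 k119 4 9))))), (.s k85 k170 14 (.s k55 k59 1 (.s
  k119 k187 9 (.s k247 k183 7 (.d k4 k166 k38 12 4)))))] .n) (.c k212 (.q k23 [(.s k17 k34 4 (.s k55
  k59 1 (.s k38 k4 4 (.d k25 k29 k12 1 6)))), (.s k3 k43 5 (.s k1 k2 0 (.s k41 k61 5 (.d k22 k20 k60
  0 6))))] .n) .n)))) (.c k170 (.q k3 [(.s k2 k1 0 (.s k42 k21 6 (.s k22 k62 5 (.s k41 k60 6 (.d k43
  k40 k23 0 5))))), (.s k23 k43 5 (.s k87 k171 13 (.s k151 k215 7 (.s k107 k195 13 (.d k127 k67 k191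
  5 7)))))] (.c k2 (.q k254 [(.s k23 k43 5 (.s k87 k171 13 (.s k151 k215 7 (.s k107 k195 13 (.d k127
  k67 k191 5 7))))), (.s k127 k191 7 (.s k252 k253 0 (.s k126 k189 8 (.s k190 k62 7 (.d k125 k124
  k60 0 8))))), (.s k21 k42 6 (.s k23 k43 5 (.s k22 k20 0 (.s k252 k253 0 (.s k126 k189 8 (.s k190
  k62 7 (.d k60 k41 k125 6 8)))))))] .n) (.c k23 (.q k51 [(.s k2 k1 0 (.s k34 k17 4 (.s k18 k50 3
  (.s k33 k48 4 (.d k35 k32 k19 0 3))))), (.s k17 k34 4 (.s k21 k42 6 (.s k25 k29 1 (.s k38 k12 6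
  (.d k55 k59 k4 1 4))))), (.s k19 k35 3 (.s k87 k171 13 (.s k155 k223 9 (.s k103 k207 13 (.d k119
  k71 k187 3 9)))))] (.c k2 (.q k254 [(.s k34 k17 4 (.s k42 k21 6 (.s k38 k46 1 (.s k25 k12 6 (.d
  k59 k55 k8 1 4))))), (.s k19 k35 3 (.s k87 k171 13 (.s k155 k223 9 (.s k103 k207 13 (.d k119 k71
  k187 3 9)))))] (.c k149 (.q k212 [(.s k19 k35 3 (.s k87 k171 13 (.s k155 k223 9 (.s k103 k207 13
  (.d k119 k71 k187 3 9))))), (.s k17 k34 4 (.s k21 k42 6 (.s k25 k29 1 (.s k38 k12 6 (.d k55 k59 k4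
  1 4)))))] (.c k128 (.l (.s k191 k127 7 (.s k59 k55 1 (.s k187 k119 9 (.s k123 k251 7 (.d k183 k179
  k243 1 9)))))) (.c k191 (.q k128 [(.s k192 k64 7 (.d k252 k253 k232 0 5)), (.s k17 k34 4 (.s k21
  k42 6 (.s k25 k29 1 (.s k38 k12 6 (.d k55 k59 k4 1 4)))))] .n) .n))) (.c k212 (.q k149 [(.s k21
  k42 6 (.s k213 k85 7 (.d k192 k234 k106 6 14))), (.s k252 k253 0 (.s k189 k126 8 (.s k129 k169 5
  (.d k192 k66 k106 8 14)))), (.s k34 k17 4 (.s k42 k21 6 (.s k38 k46 1 (.s k25 k12 6 (.d k59 k55 k8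
  1 4)))))] .n) .n))) (.c k149 (.q k212 [(.s k2 k1 0 (.s k34 k17 4 (.s k18 k50 3 (.s k33 k48 4 (.d
  k35 k32 k19 0 3))))), (.s k191 k127 7 (.s k59 k55 1 (.s k187 k119 9 (.s k123 k251 7 (.d k183 k179
  k243 1 9)))))] (.c k2 (.q k254 [(.s k19 k35 3 (.s k87 k171 13 (.s k155 k223 9 (.s k103 k207 13 (.d
  k119 k71 k187 3 9))))), (.s k17 k34 4 (.s k21 k42 6 (.s k25 k29 1 (.s k38 k12 6 (.d k55 k59 k4 1
  4)))))] (.c k128 (.l (.s k191 k127 7 (.s k59 k55 1 (.s k187 k119 9 (.s k123 k251 7 (.d k183 k179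
  k243 1 9)))))) (.c k191 (.q k128 [(.s k192 k64 7 (.d k252 k253 k232 0 5)), (.s k17 k34 4 (.s k21
  k42 6 (.s k25 k29 1 (.s k38 k12 6 (.d k55 k59 k4 1 4)))))] .n) .n))) (.c k128 (.l (.s k191 k127 7
  (.s k59 k55 1 (.s k187 k119 9 (.s k123 k251 7 (.d k183 k179 k243 1 9)))))) (.c k191 (.q k128 [(.s
  k2 k1 0 (.s k34 k17 4 (.s k18 k50 3 (.s k33 k48 4 (.d k35 k32 k19 0 3))))), (.s k192 k64 7 (.s
  k129 k66 8 (.s k130 k131 0 (.s k65 k195 8 (.d k1 k2 k193 0 7)))))] (.c k1 (.l (.s k17 k34 4 (.s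
  k21 k42 6 (.s k25 k29 1 (.s k38 k12 6 (.d k55 k59 k4 1 4)))))) (.c k2 (.q k254 [(.s k192 k64 7 (.d
  k252 k253 k232 0 5)), (.s k17 k34 4 (.s k21 k42 6 (.s k25 k29 1 (.s k38 k12 6 (.d k55 k59 k4 1
  4)))))] .n) (.c k254 (.l (.s k2 k1 0 (.s k34 k17 4 (.s k18 k50 3 (.s k33 k48 4 (.d k35 k32 k19 0
  3)))))) .n)))) (.c k254 (.l (.s k2 k1 0 (.s k34 k17 4 (.s k18 k50 3 (.s k33 k48 4 (.d k35 k32 k19
  0 3)))))) .n))))) (.c k212 (.q k149 [(.s k21 k42 6 (.s k213 k85 7 (.d k192 k234 k106 6 14))), (.s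
  k2 k1 0 (.s k34 k17 4 (.s k18 k50 3 (.s k33 k48 4 (.d k35 k32 k19 0 3)))))] (.c k2 (.q k254 [(.s
  k21 k42 6 (.s k213 k85 7 (.d k192 k234 k106 6 14))), (.s k252 k253 0 (.s k189 k126 8 (.s k129 k169
  5 (.d k192 k66 k106 8 14)))), (.s k34 k17 4 (.s k42 k21 6 (.s k38 k46 1 (.s k25 k12 6 (.d k59 k55
  k8 1 4)))))] .n) (.c k254 (.l (.s k2 k1 0 (.s k21 k42 6 (.s k213 k85 7 (.d k192 k234 k106 6
  14))))) .n))) (.c k254 (.l (.s k2 k1 0 (.s k34 k17 4 (.s k18 k50 3 (.s k33 k48 4 (.d k35 k32 k19 0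
  3)))))) .n))))) (.c k43 (.q k254 [(.s k127 k191 7 (.s k252 k253 0 (.s k126 k189 8 (.s k190 k62 7
  (.d k125 k124 k60 0 8))))), (.s k1 k2 0 (.s k127 k191 7 (.s k253 k252 0 (.s k85 k169 13 (.s k106
  k64 6 (.s k149 k192 14 (.d k21 k42 k213 6 7))))))), (.s k2 k1 0 (.s k42 k21 6 (.s k62 k22 5 (.s
  k190 k126 7 (.d k60 k61 k125 0 8)))))] .n) (.c k254 (.l (.s k2 k1 0 (.s k42 k21 6 (.s k22 k62 5
  (.s k41 k60 6 (.d k43 k40 k23 0 5)))))) .n))))) (.c k191 (.q k51 [(.s k17 k34 4 (.s k21 k42 6 (.s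
  k25 k29 1 (.s k55 k59 1 (.d k38 k4 k12 4 6))))), (.s k17 k34 4 (.s k85 k170 14 (.s k153 k221 9 (.s
  k102 k204 14 (.d k119 k68 k187 4 9))))), (.s k21 k42 6 (.s k85 k170 14 (.s k149 k213 7 (.s k55 k59
  1 (.s k119 k187 9 (.d k102 k68 k196 4 12))))))] .n) (.c k192 (.f k21 k42 6 (.q k51 [(.s k17 k34 4
  (.s k25 k29 1 (.s k55 k59 1 (.d k38 k4 k12 4 6)))), (.s k34 k17 4 (.s k170 k85 14 (.s k102 k238 9
  (.s k153 k204 14 (.d k187 k136 k119 4 9))))), (.s k85 k170 14 (.s k149 k213 7 (.s k55 k59 1 (.s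
  k119 k187 9 (.d k102 k68 k196 4 12)))))] (.c k74 (.q k133 [(.s k17 k34 4 (.s k25 k29 1 (.s k55 k59
  1 (.d k38 k4 k12 4 6)))), (.s k34 k17 4 (.s k170 k85 14 (.s k102 k238 9 (.s k153 k204 14 (.d k187
  k136 k119 4 9))))), (.s k85 k170 14 (.s k149 k213 7 (.s k55 k59 1 (.s k119 k187 9 (.d k102 k68
  k196 4 12)))))] .n) (.c k133 (.q k74 [(.s k17 k34 4 (.s k25 k29 1 (.s k55 k59 1 (.d k38 k4 k12 4
  6)))), (.s k34 k17 4 (.s k170 k85 14 (.s k102 k238 9 (.s k153 k204 14 (.d k187 k136 k119 4 9))))),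
  (.s k85 k170 14 (.s k149 k213 7 (.s k55 k59 1 (.s k119 k187 9 (.d k102 k68 k196 4 12)))))] .n)
  .n)))) (.c k213 (.l (.s k42 k21 6 (.s k191 k127 7 (.s k170 k85 14 (.s k149 k128 6 (.d k106 k234
  k192 7 14)))))) (.c k234 (.l (.s k21 k42 6 (.s k127 k191 7 (.s k85 k170 14 (.s k106 k64 6 (.d k149
  k213 k192 7 14)))))) .n))))))))))))

def t90 : T TT 256 :=
  (.q k63 [(.s k21 k42 6 (.s k85 k170 14 (.s k149 k213 7 (.s k127 k191 7 (.d k106 k64 k192 6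
  14))))), (.s k42 k21 6 (.s k170 k85 14 (.s k106 k234 7 (.s k149 k192 14 (.d k191 k128 k127 6
  7)))))] (.c k21 (.q k3 [(.s k23 k43 5 (.s k87 k171 13 (.s k151 k215 7 (.s k107 k195 13 (.d k127
  k67 k191 5 7))))), (.s k1 k2 0 (.s k85 k170 14 (.s k169 k253 13 (.s k86 k252 14 (.d k87 k84 k171 0
  13))))), (.s k1 k2 0 (.s k85 k170 14 (.s k169 k253 13 (.s k43 k23 5 (.s k106 k232 8 (.d k127 k64
  k191 6 7))))))] (.c k165 (.q k240 [(.s k23 k43 5 (.s k87 k171 13 (.s k151 k215 7 (.s k107 k195 13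
  (.d k127 k67 k191 5 7))))), (.s k1 k2 0 (.s k160 k80 11 (.s k161 k82 12 (.s k81 k241 11 (.d k162
  k163 k243 0 12)))))] .n) (.c k240 (.q k165 [(.s k1 k2 0 (.s k85 k170 14 (.s k169 k253 13 (.s k87
  k171 13 (.d k86 k84 k252 0 14))))), (.s k23 k43 5 (.s k87 k171 13 (.s k151 k215 7 (.s k107 k195 13
  (.d k127 k67 k191 5 7))))), (.s k1 k2 0 (.s k85 k170 14 (.s k169 k253 13 (.s k43 k23 5 (.s k106
  k232 8 (.d k127 k64 k191 6 7))))))] .n) .n))) (.c k42 (.q k3 [(.s k2 k1 0 (.s k171 k87 13 (.s k170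
  k85 14 (.s k169 k168 0 (.d k86 k254 k252 13 14))))), (.s k23 k43 5 (.s k87 k171 13 (.s k151 k215 7
  (.s k107 k195 13 (.d k127 k67 k191 5 7))))), (.s k1 k2 0 (.s k85 k170 14 (.s k169 k253 13 (.s k43
  k23 5 (.s k106 k232 8 (.d k127 k64 k191 6 7))))))] (.c k165 (.q k240 [(.s k23 k43 5 (.s k87 k171
  13 (.s k151 k215 7 (.s k107 k195 13 (.d k127 k67 k191 5 7))))), (.s k1 k2 0 (.s k160 k80 11 (.s
  k161 k82 12 (.s k81 k241 11 (.d k162 k163 k243 0 12)))))] .n) (.c k240 (.q k165 [(.s k2 k1 0 (.s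
  k171 k87 13 (.s k170 k85 14 (.s k169 k168 0 (.d k86 k254 k252 13 14))))), (.s k23 k43 5 (.s k87
  k171 13 (.s k151 k215 7 (.s k107 k195 13 (.d k127 k67 k191 5 7))))), (.s k1 k2 0 (.s k85 k170 14
  (.s k169 k253 13 (.s k43 k23 5 (.s k106 k232 8 (.d k127 k64 k191 6 7))))))] .n) .n))) (.c k85 (.f
  k127 k191 7 (.f k21 k42 6 (.q k3 [(.s k1 k2 0 (.s k41 k61 5 (.s k23 k43 5 (.d k22 k20 k60 0 6)))),
  (.s k87 k171 13 (.s k107 k67 5 (.s k151 k195 13 (.d k23 k43 k215 5 7))))] (.c k23 (.q k240 [(.s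
  k122 k181 10 (.s k117 k112 2 (.s k186 k48 10 (.d k250 k245 k58 2 7)))), (.s k80 k160 11 (.s k2 k1
  0 (.s k82 k161 12 (.s k162 k242 11 (.d k81 k83 k243 0 12)))))] (.c k80 (.q k95 [(.s k122 k181 10
  (.s k250 k245 2 (.s k186 k58 7 (.d k117 k112 k48 2 10)))), (.s k1 k2 0 (.s k161 k82 12 (.s k81
  k241 11 (.s k87 k171 13 (.s k83 k91 1 (.d k243 k162 k163 12 11))))))] .n) (.c k95 (.l (.s k80 k160
  11 (.s k2 k1 0 (.s k82 k161 12 (.s k162 k242 11 (.d k81 k83 k243 0 12)))))) .n))) (.c k43 (.l (.s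
  k1 k2 0 (.s k41 k61 5 (.s k22 k60 6 (.s k87 k171 13 (.s k23 k20 0 (.s k107 k67 5 (.d k151 k215
  k195 7 13)))))))) (.c k80 (.q k95 [(.s k1 k2 0 (.s k41 k61 5 (.s k23 k43 5 (.d k22 k20 k60 0
  6)))), (.s k87 k171 13 (.s k107 k67 5 (.s k79 k111 3 (.s k91 k83 1 (.s k123 k75 3 (.d k115 k119
  k103 1 5))))))] (.c k165 (.q k240 [(.s k1 k2 0 (.s k41 k61 5 (.s k23 k43 5 (.d k22 k20 k60 0
  6)))), (.s k122 k181 10 (.s k117 k112 2 (.s k186 k48 10 (.d k250 k245 k58 2 7))))] (.c k5 (.l (.s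
  k245 k250 2 (.s k1 k2 0 (.s k41 k61 5 (.s k22 k60 6 (.d k23 k20 k43 0 5)))))) (.c k245 (.q k5 [(.s
  k1 k2 0 (.s k41 k61 5 (.s k23 k43 5 (.d k22 k20 k60 0 6)))), (.s k53 k37 3 (.s k48 k58 2 (.s k112
  k176 7 (.d k117 k186 k122 10 2))))] .n) .n))) (.c k240 (.q k165 [(.s k1 k2 0 (.s k41 k61 5 (.s k23
  k43 5 (.d k22 k20 k60 0 6)))), (.s k87 k171 13 (.s k107 k67 5 (.s k79 k111 3 (.s k91 k83 1 (.s
  k123 k75 3 (.d k115 k119 k103 1 5))))))] .n) .n))) (.c k95 (.q k80 [(.s k1 k2 0 (.s k41 k61 5 (.s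
  k23 k43 5 (.d k22 k20 k60 0 6)))), (.s k2 k1 0 (.s k240 k160 11 (.s k82 k161 12 (.s k162 k242 11
  (.d k81 k83 k243 0 12))))), (.s k23 k43 5 (.s k87 k171 13 (.s k151 k215 7 (.d k107 k67 k195 5
  13))))] (.c k165 (.l (.s k240 k160 11 (.s k1 k2 0 (.s k41 k61 5 (.s k22 k60 6 (.d k23 k20 k43 0
  5)))))) (.c k240 (.q k165 [(.s k1 k2 0 (.s k41 k61 5 (.s k23 k43 5 (.d k22 k20 k60 0 6)))), (.s
  k87 k171 13 (.s k107 k67 5 (.s k151 k195 13 (.d k23 k43 k215 5 7))))] (.c k23 (.q k149 [(.s k87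
  k171 13 (.s k192 k106 14 (.s k64 k128 7 (.s k66 k129 8 (.d k67 k65 k107 0 5))))), (.s k1 k2 0 (.s
  k61 k41 5 (.s k87 k171 13 (.s k105 k193 13 (.s k107 k67 5 (.d k106 k104 k192 0 14)))))), (.s k1 k2
  0 (.s k61 k41 5 (.s k192 k106 14 (.s k129 k66 8 (.d k193 k65 k105 7 13))))), (.s k1 k2 0 (.s k61
  k41 5 (.s k87 k171 13 (.s k193 k105 13 (.s k65 k129 7 (.s k195 k130 8 (.d k67 k131 k107 7
  5)))))))] .n) (.c k43 (.l (.s k1 k2 0 (.s k41 k61 5 (.s k22 k60 6 (.s k87 k171 13 (.s k23 k20 0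
  (.s k107 k67 5 (.d k151 k215 k195 7 13)))))))) .n))) .n))) (.c k165 (.q k240 [(.s k1 k2 0 (.s k41
  k61 5 (.s k23 k43 5 (.d k22 k20 k60 0 6)))), (.s k122 k181 10 (.s k117 k112 2 (.s k186 k48 10 (.d
  k250 k245 k58 2 7))))] (.c k5 (.l (.s k245 k250 2 (.s k1 k2 0 (.s k41 k61 5 (.s k22 k60 6 (.d k23
  k20 k43 0 5)))))) (.c k80 (.q k95 [(.s k1 k2 0 (.s k41 k61 5 (.s k23 k43 5 (.d k22 k20 k60 0
  6)))), (.s k122 k181 10 (.s k117 k112 2 (.s k186 k48 10 (.d k250 k245 k58 2 7))))] (.c k5 (.l (.s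
  k245 k250 2 (.s k1 k2 0 (.s k41 k61 5 (.s k22 k60 6 (.d k23 k20 k43 0 5)))))) (.c k245 (.q k5 [(.s
  k1 k2 0 (.s k41 k61 5 (.s k23 k43 5 (.d k22 k20 k60 0 6)))), (.s k53 k37 3 (.s k48 k58 2 (.s k112
  k176 7 (.d k117 k186 k122 10 2))))] .n) .n))) (.c k95 (.l (.s k80 k160 11 (.s k1 k2 0 (.s k41 k61
  5 (.s k22 k60 6 (.d k23 k20 k43 0 5)))))) (.c k245 (.q k5 [(.s k1 k2 0 (.s k41 k61 5 (.s k23 k43 5
  (.d k22 k20 k60 0 6)))), (.s k53 k37 3 (.s k48 k58 2 (.s k112 k176 7 (.d k117 k186 k122 10 2))))]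
  (.c k80 (.q k95 [(.s k1 k2 0 (.s k41 k61 5 (.s k23 k43 5 (.d k22 k20 k60 0 6)))), (.s k53 k37 3
  (.s k48 k58 2 (.s k112 k176 7 (.d k117 k186 k122 10 2))))] .n) (.c k95 (.l (.s k80 k160 11 (.s k1
  k2 0 (.s k41 k61 5 (.s k22 k60 6 (.d k23 k20 k43 0 5)))))) .n))) .n))))) (.c k240 (.q k165 [(.s k1
  k2 0 (.s k41 k61 5 (.s k23 k43 5 (.d k22 k20 k60 0 6)))), (.s k87 k171 13 (.s k107 k67 5 (.s k151
  k195 13 (.d k23 k43 k215 5 7))))] (.c k23 (.q k95 [(.s k87 k171 13 (.s k67 k107 5 (.s k91 k83 1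
  (.s k79 k111 3 (.s k103 k115 5 (.d k71 k75 k119 1 3)))))), (.s k1 k2 0 (.s k111 k79 3 (.s k207
  k159 11 (.s k69 k138 10 (.s k137 k205 9 (.s k70 k204 10 (.d k71 k68 k139 0 9))))))), (.s k87 k171
  13 (.s k67 k107 5 (.s k83 k91 1 (.s k243 k163 11 (.s k123 k183 9 (.d k115 k119 k99 1 3))))))] .n)
  (.c k43 (.l (.s k1 k2 0 (.s k41 k61 5 (.s k22 k60 6 (.s k87 k171 13 (.s k23 k20 0 (.s k107 k67 5
  (.d k151 k215 k195 7 13)))))))) (.c k80 (.q k95 [(.s k1 k2 0 (.s k41 k61 5 (.s k23 k43 5 (.d k22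
  k20 k60 0 6)))), (.s k87 k171 13 (.s k107 k67 5 (.s k79 k111 3 (.s k91 k83 1 (.s k123 k75 3 (.d
  k115 k119 k103 1 5))))))] .n) (.c k95 (.q k80 [(.s k1 k2 0 (.s k41 k61 5 (.s k23 k43 5 (.d k22 k20
  k60 0 6)))), (.s k87 k171 13 (.s k107 k67 5 (.s k151 k195 13 (.d k23 k43 k215 5 7))))] (.c k23 (.q
  k149 [(.s k87 k171 13 (.s k192 k106 14 (.s k64 k128 7 (.s k66 k129 8 (.d k67 k65 k107 0 5))))),
  (.s k1 k2 0 (.s k61 k41 5 (.s k87 k171 13 (.s k105 k193 13 (.s k107 k67 5 (.d k106 k104 k192 0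
  14)))))), (.s k1 k2 0 (.s k61 k41 5 (.s k192 k106 14 (.s k129 k66 8 (.d k193 k65 k105 7 13))))),
  (.s k1 k2 0 (.s k61 k41 5 (.s k87 k171 13 (.s k193 k105 13 (.s k65 k129 7 (.s k195 k130 8 (.d k67
  k131 k107 7 5)))))))] .n) (.c k43 (.l (.s k1 k2 0 (.s k41 k61 5 (.s k22 k60 6 (.s k87 k171 13 (.s
  k23 k20 0 (.s k107 k67 5 (.d k151 k215 k195 7 13)))))))) .n))) .n))))) .n))))))))) (.c k106 (.q k2
  [(.s k3 k1 0 (.s k42 k21 6 (.s k43 k23 5 (.s k41 k40 0 (.d k22 k62 k60 5 6))))), (.s k3 k1 0 (.s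
  k170 k85 14 (.s k86 k254 13 (.s k169 k252 14 (.d k171 k168 k87 0 13))))), (.s k42 k21 6 (.s k170
  k85 14 (.s k62 k22 5 (.s k254 k86 13 (.s k126 k190 7 (.d k252 k253 k189 0 8))))))] (.c k74 (.q
  k122 [(.s k3 k1 0 (.s k42 k21 6 (.s k43 k23 5 (.s k41 k40 0 (.d k22 k62 k60 5 6))))), (.s k240
  k181 10 (.s k127 k191 7 (.s k117 k112 2 (.s k186 k48 10 (.d k250 k245 k58 2 7)))))] (.c k133 (.q
  k192 [(.s k3 k1 0 (.s k42 k21 6 (.s k43 k23 5 (.s k41 k40 0 (.d k22 k62 k60 5 6))))), (.s k64 k128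
  7 (.s k240 k181 10 (.s k80 k160 11 (.s k127 k191 7 (.d k112 k117 k96 2 3)))))] (.c k165 (.f k240
  k181 10 (.q k149 [(.s k21 k42 6 (.d k85 k170 k213 14 7)), (.s k64 k128 7 (.s k127 k191 7 (.s k112
  k117 2 (.d k80 k96 k160 3 11))))] (.c k47 (.l (.s k224 k208 3 (.s k21 k42 6 (.d k85 k170 k213 14
  7)))) (.c k224 (.q k47 [(.s k21 k42 6 (.d k85 k170 k213 14 7)), (.s k64 k128 7 (.s k127 k191 7 (.s
  k112 k117 2 (.d k80 k96 k160 3 11))))] .n) .n)))) (.c k240 (.q k165 [(.s k3 k1 0 (.s k42 k21 6 (.s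
  k43 k23 5 (.s k41 k40 0 (.d k22 k62 k60 5 6))))), (.s k3 k1 0 (.s k64 k128 7 (.s k66 k129 8 (.s
  k65 k67 0 (.d k130 k194 k195 7 8))))), (.s k42 k21 6 (.s k170 k85 14 (.s k62 k22 5 (.s k254 k86 13
  (.s k126 k190 7 (.d k252 k253 k189 0 8))))))] .n) .n))) (.c k165 (.l (.s k240 k181 10 (.s k127
  k191 7 (.s k117 k112 2 (.s k186 k48 10 (.d k250 k245 k58 2 7)))))) (.c k192 (.q k133 [(.s k3 k1 0
  (.s k42 k21 6 (.s k43 k23 5 (.s k41 k40 0 (.d k22 k62 k60 5 6))))), (.s k240 k181 10 (.s k127 k191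
  7 (.s k117 k112 2 (.s k186 k48 10 (.d k250 k245 k58 2 7)))))] (.c k165 (.l (.s k240 k181 10 (.s
  k127 k191 7 (.s k117 k112 2 (.s k186 k48 10 (.d k250 k245 k58 2 7)))))) (.c k240 (.q k165 [(.s k21
  k42 6 (.s k149 k181 3 (.d k85 k170 k213 14 7))), (.s k3 k1 0 (.s k42 k21 6 (.s k22 k62 5 (.s k41
  k60 6 (.d k43 k40 k23 0 5))))), (.s k170 k85 14 (.s k149 k181 3 (.d k191 k127 k128 7 6)))] (.c
  k208 (.q k224 [(.s k21 k42 6 (.s k149 k181 3 (.d k85 k170 k213 14 7))), (.s k3 k1 0 (.s k42 k21 6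
  (.s k22 k62 5 (.s k41 k60 6 (.d k43 k40 k23 0 5))))), (.s k170 k85 14 (.s k149 k181 3 (.d k191
  k127 k128 7 6)))] (.c k31 (.l (.s k149 k181 3 (.s k21 k42 6 (.d k85 k170 k213 14 7)))) (.c k149
  (.q k31 [(.s k3 k1 0 (.s k42 k21 6 (.s k43 k23 5 (.s k41 k40 0 (.d k22 k62 k60 5 6))))), (.s k21
  k42 6 (.s k16 k26 2 (.s k48 k32 3 (.s k58 k53 2 (.d k186 k250 k117 7 10))))), (.s k3 k1 0 (.s k23
  k43 5 (.s k87 k171 13 (.s k151 k215 7 (.s k107 k195 13 (.d k127 k67 k191 5 7))))))] .n) .n))) (.c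
  k224 (.q k208 [(.s k21 k42 6 (.s k149 k181 3 (.d k85 k170 k213 14 7))), (.s k3 k1 0 (.s k42 k21 6
  (.s k22 k62 5 (.s k41 k60 6 (.d k43 k40 k23 0 5))))), (.s k170 k85 14 (.s k149 k181 3 (.d k191
  k127 k128 7 6)))] .n) .n))) .n))) (.c k240 (.q k165 [(.s k3 k1 0 (.s k42 k21 6 (.s k43 k23 5 (.s
  k41 k40 0 (.d k22 k62 k60 5 6))))), (.s k3 k1 0 (.s k170 k85 14 (.s k86 k254 13 (.s k169 k252 14
  (.d k171 k168 k87 0 13))))), (.s k42 k21 6 (.s k170 k85 14 (.s k62 k22 5 (.s k254 k86 13 (.s k126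
  k190 7 (.d k252 k253 k189 0 8))))))] (.c k133 (.q k192 [(.s k3 k1 0 (.s k42 k21 6 (.s k43 k23 5
  (.s k41 k40 0 (.d k22 k62 k60 5 6))))), (.s k3 k1 0 (.s k64 k128 7 (.s k66 k129 8 (.s k65 k67 0
  (.d k130 k194 k195 7 8))))), (.s k42 k21 6 (.s k170 k85 14 (.s k62 k22 5 (.s k254 k86 13 (.s k126
  k190 7 (.d k252 k253 k189 0 8))))))] .n) (.c k192 (.q k133 [(.s k21 k42 6 (.s k149 k181 3 (.d k85
  k170 k213 14 7))), (.s k3 k1 0 (.s k42 k21 6 (.s k22 k62 5 (.s k41 k60 6 (.d k43 k40 k23 0 5))))),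
  (.s k170 k85 14 (.s k149 k181 3 (.d k191 k127 k128 7 6)))] (.c k208 (.q k224 [(.s k21 k42 6 (.s
  k149 k181 3 (.d k85 k170 k213 14 7))), (.s k3 k1 0 (.s k42 k21 6 (.s k22 k62 5 (.s k41 k60 6 (.d
  k43 k40 k23 0 5))))), (.s k170 k85 14 (.s k149 k181 3 (.d k191 k127 k128 7 6)))] (.c k31 (.l (.s
  k149 k181 3 (.s k21 k42 6 (.d k85 k170 k213 14 7)))) (.c k149 (.q k31 [(.s k3 k1 0 (.s k42 k21 6
  (.s k43 k23 5 (.s k41 k40 0 (.d k22 k62 k60 5 6))))), (.s k21 k42 6 (.s k16 k26 2 (.s k48 k32 3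
  (.s k58 k53 2 (.d k186 k250 k117 7 10))))), (.s k3 k1 0 (.s k23 k43 5 (.s k87 k171 13 (.s k151
  k215 7 (.s k107 k195 13 (.d k127 k67 k191 5 7))))))] .n) .n))) (.c k224 (.q k208 [(.s k21 k42 6
  (.s k149 k181 3 (.d k85 k170 k213 14 7))), (.s k3 k1 0 (.s k42 k21 6 (.s k22 k62 5 (.s k41 k60 6
  (.d k43 k40 k23 0 5))))), (.s k170 k85 14 (.s k149 k181 3 (.d k191 k127 k128 7 6)))] .n) .n)))
  .n))) .n))))) (.c k122 (.q k74 [(.s k3 k1 0 (.s k42 k21 6 (.s k43 k23 5 (.s k41 k40 0 (.d k22 k62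
  k60 5 6))))), (.s k3 k1 0 (.s k170 k85 14 (.s k86 k254 13 (.s k169 k252 14 (.d k171 k168 k87 0
  13))))), (.s k42 k21 6 (.s k170 k85 14 (.s k62 k22 5 (.s k254 k86 13 (.s k126 k190 7 (.d k252 k253
  k189 0 8))))))] (.c k165 (.q k240 [(.s k3 k1 0 (.s k42 k21 6 (.s k43 k23 5 (.s k41 k40 0 (.d k22
  k62 k60 5 6))))), (.s k3 k1 0 (.s k80 k160 11 (.s k82 k161 12 (.s k81 k83 0 (.d k162 k242 k243 11
  12))))), (.s k42 k21 6 (.s k170 k85 14 (.s k62 k22 5 (.s k254 k86 13 (.s k126 k190 7 (.d k252 k253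
  k189 0 8))))))] (.c k47 (.q k224 [(.s k3 k1 0 (.s k42 k21 6 (.s k43 k23 5 (.s k41 k40 0 (.d k22
  k62 k60 5 6))))), (.s k160 k80 11 (.s k96 k32 7 (.s k192 k208 3 (.s k128 k64 7 (.d k144 k176 k48 3
  11)))))] (.c k42 (.l (.s k3 k1 0 (.s k80 k160 11 (.s k82 k161 12 (.s k162 k242 11 (.d k81 k83 k243
  0 12)))))) .n)) (.c k224 (.q k47 [(.s k3 k1 0 (.s k42 k21 6 (.s k43 k23 5 (.s k41 k40 0 (.d k22
  k62 k60 5 6))))), (.s k3 k1 0 (.s k80 k160 11 (.s k82 k161 12 (.s k81 k83 0 (.d k162 k242 k243 11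
  12))))), (.s k42 k21 6 (.s k170 k85 14 (.s k62 k22 5 (.s k254 k86 13 (.s k126 k190 7 (.d k252 k253
  k189 0 8))))))] .n) .n))) (.c k240 (.q k165 [(.s k3 k1 0 (.s k42 k21 6 (.s k43 k23 5 (.s k41 k40 0
  (.d k22 k62 k60 5 6))))), (.s k3 k1 0 (.s k170 k85 14 (.s k86 k254 13 (.s k169 k252 14 (.d k171
  k168 k87 0 13))))), (.s k42 k21 6 (.s k170 k85 14 (.s k62 k22 5 (.s k254 k86 13 (.s k126 k190 7
  (.d k252 k253 k189 0 8))))))] .n) .n))) (.c k165 (.q k240 [(.s k3 k1 0 (.s k42 k21 6 (.s k43 k23 5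
  (.s k41 k40 0 (.d k22 k62 k60 5 6))))), (.s k122 k181 10 (.s k127 k191 7 (.s k117 k112 2 (.s k186
  k48 10 (.d k250 k245 k58 2 7)))))] (.c k47 (.q k224 [(.s k3 k1 0 (.s k42 k21 6 (.s k43 k23 5 (.s
  k41 k40 0 (.d k22 k62 k60 5 6))))), (.s k122 k181 10 (.s k127 k191 7 (.s k117 k112 2 (.s k186 k48
  10 (.d k250 k245 k58 2 7)))))] (.c k74 (.l (.s k122 k181 10 (.s k127 k191 7 (.s k117 k112 2 (.s
  k186 k48 10 (.d k250 k245 k58 2 7)))))) (.c k122 (.q k74 [(.s k3 k1 0 (.s k42 k21 6 (.s k43 k23 5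
  (.s k41 k40 0 (.d k22 k62 k60 5 6))))), (.s k160 k80 11 (.s k96 k32 7 (.s k192 k208 3 (.s k128 k64
  7 (.d k144 k176 k48 3 11)))))] (.c k42 (.l (.s k3 k1 0 (.s k80 k160 11 (.s k82 k161 12 (.s k162
  k242 11 (.d k81 k83 k243 0 12)))))) .n)) .n))) (.c k74 (.l (.s k122 k181 10 (.s k127 k191 7 (.s
  k117 k112 2 (.s k186 k48 10 (.d k250 k245 k58 2 7)))))) (.c k122 (.q k74 [(.s k3 k1 0 (.s k42 k21
  6 (.s k43 k23 5 (.s k41 k40 0 (.d k22 k62 k60 5 6))))), (.s k3 k1 0 (.s k80 k160 11 (.s k82 k161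
  12 (.s k81 k83 0 (.d k162 k242 k243 11 12))))), (.s k42 k21 6 (.s k170 k85 14 (.s k62 k22 5 (.s
  k254 k86 13 (.s k126 k190 7 (.d k252 k253 k189 0 8))))))] (.c k47 (.q k224 [(.s k3 k1 0 (.s k42
  k21 6 (.s k43 k23 5 (.s k41 k40 0 (.d k22 k62 k60 5 6))))), (.s k160 k80 11 (.s k96 k32 7 (.s k192
  k208 3 (.s k128 k64 7 (.d k144 k176 k48 3 11)))))] (.c k42 (.l (.s k3 k1 0 (.s k80 k160 11 (.s k82
  k161 12 (.s k162 k242 11 (.d k81 k83 k243 0 12)))))) .n)) (.c k224 (.q k47 [(.s k3 k1 0 (.s k42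
  k21 6 (.s k43 k23 5 (.s k41 k40 0 (.d k22 k62 k60 5 6))))), (.s k3 k1 0 (.s k80 k160 11 (.s k82
  k161 12 (.s k81 k83 0 (.d k162 k242 k243 11 12))))), (.s k42 k21 6 (.s k170 k85 14 (.s k62 k22 5
  (.s k254 k86 13 (.s k126 k190 7 (.d k252 k253 k189 0 8))))))] .n) .n))) (.c k224 (.q k47 [(.s k3
  k1 0 (.s k42 k21 6 (.s k43 k23 5 (.s k41 k40 0 (.d k22 k62 k60 5 6))))), (.s k122 k181 10 (.s k127
  k191 7 (.s k117 k112 2 (.s k186 k48 10 (.d k250 k245 k58 2 7)))))] (.c k74 (.l (.s k122 k181 10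
  (.s k127 k191 7 (.s k117 k112 2 (.s k186 k48 10 (.d k250 k245 k58 2 7)))))) (.c k122 (.q k74 [(.s
  k3 k1 0 (.s k42 k21 6 (.s k43 k23 5 (.s k41 k40 0 (.d k22 k62 k60 5 6))))), (.s k3 k1 0 (.s k80
  k160 11 (.s k82 k161 12 (.s k81 k83 0 (.d k162 k242 k243 11 12))))), (.s k42 k21 6 (.s k170 k85 14
  (.s k62 k22 5 (.s k254 k86 13 (.s k126 k190 7 (.d k252 k253 k189 0 8))))))] .n) .n))) .n))))) (.c
  k240 (.q k165 [(.s k3 k1 0 (.s k42 k21 6 (.s k43 k23 5 (.s k41 k40 0 (.d k22 k62 k60 5 6))))), (.s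
  k3 k1 0 (.s k170 k85 14 (.s k86 k254 13 (.s k169 k252 14 (.d k171 k168 k87 0 13))))), (.s k42 k21
  6 (.s k170 k85 14 (.s k62 k22 5 (.s k254 k86 13 (.s k126 k190 7 (.d k252 k253 k189 0 8))))))] (.c
  k74 (.q k122 [(.s k3 k1 0 (.s k42 k21 6 (.s k43 k23 5 (.s k41 k40 0 (.d k22 k62 k60 5 6))))), (.s
  k3 k1 0 (.s k170 k85 14 (.s k86 k254 13 (.s k169 k252 14 (.d k171 k168 k87 0 13))))), (.s k42 k21
  6 (.s k170 k85 14 (.s k62 k22 5 (.s k254 k86 13 (.s k126 k190 7 (.d k252 k253 k189 0 8))))))] (.c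
  k133 (.q k192 [(.s k3 k1 0 (.s k42 k21 6 (.s k43 k23 5 (.s k41 k40 0 (.d k22 k62 k60 5 6))))), (.s
  k3 k1 0 (.s k64 k128 7 (.s k66 k129 8 (.s k65 k67 0 (.d k130 k194 k195 7 8))))), (.s k42 k21 6 (.s
  k170 k85 14 (.s k62 k22 5 (.s k254 k86 13 (.s k126 k190 7 (.d k252 k253 k189 0 8))))))] .n) (.c
  k192 (.q k133 [(.s k21 k42 6 (.s k149 k181 3 (.d k85 k170 k213 14 7))), (.s k3 k1 0 (.s k42 k21 6
  (.s k22 k62 5 (.s k41 k60 6 (.d k43 k40 k23 0 5))))), (.s k170 k85 14 (.s k149 k181 3 (.d k191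
  k127 k128 7 6)))] (.c k208 (.q k224 [(.s k21 k42 6 (.s k149 k181 3 (.d k85 k170 k213 14 7))), (.s
  k3 k1 0 (.s k42 k21 6 (.s k22 k62 5 (.s k41 k60 6 (.d k43 k40 k23 0 5))))), (.s k170 k85 14 (.s
  k149 k181 3 (.d k191 k127 k128 7 6)))] (.c k31 (.l (.s k149 k181 3 (.s k21 k42 6 (.d k85 k170 k213
  14 7)))) (.c k149 (.q k31 [(.s k3 k1 0 (.s k42 k21 6 (.s k43 k23 5 (.s k41 k40 0 (.d k22 k62 k60 5
  6))))), (.s k21 k42 6 (.s k16 k26 2 (.s k48 k32 3 (.s k58 k53 2 (.d k186 k250 k117 7 10))))), (.s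
  k3 k1 0 (.s k23 k43 5 (.s k87 k171 13 (.s k151 k215 7 (.s k107 k195 13 (.d k127 k67 k191 5
  7))))))] .n) .n))) (.c k224 (.q k208 [(.s k21 k42 6 (.s k149 k181 3 (.d k85 k170 k213 14 7))), (.s
  k3 k1 0 (.s k42 k21 6 (.s k22 k62 5 (.s k41 k60 6 (.d k43 k40 k23 0 5))))), (.s k170 k85 14 (.s
  k149 k181 3 (.d k191 k127 k128 7 6)))] .n) .n))) .n))) (.c k122 (.q k74 [(.s k3 k1 0 (.s k42 k21 6
  (.s k43 k23 5 (.s k41 k40 0 (.d k22 k62 k60 5 6))))), (.s k3 k1 0 (.s k170 k85 14 (.s k86 k254 13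
  (.s k169 k252 14 (.d k171 k168 k87 0 13))))), (.s k42 k21 6 (.s k170 k85 14 (.s k62 k22 5 (.s k254
  k86 13 (.s k126 k190 7 (.d k252 k253 k189 0 8))))))] .n) .n))) .n))))) (.c k127 (.f k21 k42 6 (.q
  k3 [(.s k1 k2 0 (.s k41 k61 5 (.s k23 k43 5 (.d k22 k20 k60 0 6)))), (.s k2 k1 0 (.s k170 k85 14
  (.s k86 k254 13 (.s k169 k252 14 (.d k171 k168 k87 0 13))))), (.s k85 k170 14 (.s k23 k43 5 (.s
  k87 k171 13 (.s k149 k213 7 (.d k86 k84 k212 0 8)))))] (.c k165 (.q k240 [(.s k1 k2 0 (.s k41 k61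
  5 (.s k23 k43 5 (.d k22 k20 k60 0 6)))), (.s k2 k1 0 (.s k80 k160 11 (.s k82 k161 12 (.s k162 k242
  11 (.d k81 k83 k243 0 12))))), (.s k85 k170 14 (.s k23 k43 5 (.s k87 k171 13 (.s k149 k213 7 (.d
  k86 k84 k212 0 8)))))] .n) (.c k240 (.q k165 [(.s k1 k2 0 (.s k41 k61 5 (.s k23 k43 5 (.d k22 k20
  k60 0 6)))), (.s k2 k1 0 (.s k170 k85 14 (.s k86 k254 13 (.s k169 k252 14 (.d k171 k168 k87 0
  13))))), (.s k85 k170 14 (.s k23 k43 5 (.s k87 k171 13 (.s k149 k213 7 (.d k86 k84 k212 0 8)))))]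
  .n) .n)))) (.c k149 (.q k1 [(.s k3 k2 0 (.s k21 k42 6 (.s k23 k43 5 (.s k22 k20 0 (.d k41 k61 k60
  5 6))))), (.s k3 k2 0 (.s k85 k170 14 (.s k169 k253 13 (.s k86 k252 14 (.d k87 k84 k171 0 13))))),
  (.s k21 k42 6 (.s k85 k170 14 (.s k61 k41 5 (.s k253 k169 13 (.s k189 k125 7 (.d k252 k254 k126 0
  8))))))] (.c k31 (.q k208 [(.s k3 k2 0 (.s k21 k42 6 (.s k23 k43 5 (.s k22 k20 0 (.d k41 k61 k60 5
  6))))), (.s k3 k2 0 (.s k85 k170 14 (.s k169 k253 13 (.s k86 k252 14 (.d k87 k84 k171 0 13))))),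
  (.s k21 k42 6 (.s k85 k170 14 (.s k61 k41 5 (.s k253 k169 13 (.s k189 k125 7 (.d k252 k254 k126 0
  8))))))] (.c k165 (.q k240 [(.s k3 k2 0 (.s k21 k42 6 (.s k23 k43 5 (.s k22 k20 0 (.d k41 k61 k60
  5 6))))), (.s k181 k122 10 (.s k191 k127 7 (.s k186 k176 2 (.s k117 k48 10 (.d k245 k250 k53 2
  7)))))] (.c k133 (.l (.s k181 k122 10 (.s k191 k127 7 (.s k186 k176 2 (.s k117 k48 10 (.d k245
  k250 k53 2 7)))))) (.c k181 (.q k133 [(.s k3 k2 0 (.s k21 k42 6 (.s k23 k43 5 (.s k22 k20 0 (.d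
  k41 k61 k60 5 6))))), (.s k80 k160 11 (.s k144 k16 7 (.s k192 k224 3 (.s k64 k128 7 (.d k96 k112
  k48 3 11)))))] (.c k21 (.l (.s k3 k2 0 (.s k160 k80 11 (.s k161 k82 12 (.s k81 k241 11 (.d k162
  k163 k243 0 12)))))) .n)) .n))) (.c k240 (.q k165 [(.s k3 k2 0 (.s k21 k42 6 (.s k23 k43 5 (.s k22
  k20 0 (.d k41 k61 k60 5 6))))), (.s k3 k2 0 (.s k85 k170 14 (.s k169 k253 13 (.s k86 k252 14 (.d
  k87 k84 k171 0 13))))), (.s k21 k42 6 (.s k85 k170 14 (.s k61 k41 5 (.s k253 k169 13 (.s k189 k125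
  7 (.d k252 k254 k126 0 8))))))] .n) .n))) (.c k165 (.q k240 [(.s k3 k2 0 (.s k21 k42 6 (.s k23 k43
  5 (.s k22 k20 0 (.d k41 k61 k60 5 6))))), (.s k181 k122 10 (.s k191 k127 7 (.s k186 k176 2 (.s
  k117 k48 10 (.d k245 k250 k53 2 7)))))] (.c k31 (.q k208 [(.s k3 k2 0 (.s k21 k42 6 (.s k23 k43 5
  (.s k22 k20 0 (.d k41 k61 k60 5 6))))), (.s k181 k122 10 (.s k191 k127 7 (.s k186 k176 2 (.s k117
  k48 10 (.d k245 k250 k53 2 7)))))] (.c k133 (.l (.s k181 k122 10 (.s k191 k127 7 (.s k186 k176 2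
  (.s k117 k48 10 (.d k245 k250 k53 2 7)))))) (.c k181 (.q k133 [(.s k3 k2 0 (.s k21 k42 6 (.s k23
  k43 5 (.s k22 k20 0 (.d k41 k61 k60 5 6))))), (.s k80 k160 11 (.s k144 k16 7 (.s k192 k224 3 (.s
  k64 k128 7 (.d k96 k112 k48 3 11)))))] (.c k21 (.l (.s k3 k2 0 (.s k160 k80 11 (.s k161 k82 12 (.s
  k81 k241 11 (.d k162 k163 k243 0 12)))))) .n)) .n))) (.c k133 (.l (.s k181 k122 10 (.s k191 k127 7
  (.s k186 k176 2 (.s k117 k48 10 (.d k245 k250 k53 2 7)))))) (.c k181 (.q k133 [(.s k3 k2 0 (.s k21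
  k42 6 (.s k23 k43 5 (.s k22 k20 0 (.d k41 k61 k60 5 6))))), (.s k3 k2 0 (.s k160 k80 11 (.s k161
  k82 12 (.s k162 k163 0 (.d k81 k241 k243 11 12))))), (.s k21 k42 6 (.s k85 k170 14 (.s k61 k41 5
  (.s k253 k169 13 (.s k189 k125 7 (.d k252 k254 k126 0 8))))))] (.c k31 (.q k208 [(.s k3 k2 0 (.s
  k21 k42 6 (.s k23 k43 5 (.s k22 k20 0 (.d k41 k61 k60 5 6))))), (.s k80 k160 11 (.s k144 k16 7 (.s
  k192 k224 3 (.s k64 k128 7 (.d k96 k112 k48 3 11)))))] (.c k21 (.l (.s k3 k2 0 (.s k160 k80 11 (.s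
  k161 k82 12 (.s k81 k241 11 (.d k162 k163 k243 0 12)))))) .n)) (.c k208 (.q k31 [(.s k3 k2 0 (.s
  k21 k42 6 (.s k23 k43 5 (.s k22 k20 0 (.d k41 k61 k60 5 6))))), (.s k3 k2 0 (.s k160 k80 11 (.s
  k161 k82 12 (.s k162 k163 0 (.d k81 k241 k243 11 12))))), (.s k21 k42 6 (.s k85 k170 14 (.s k61
  k41 5 (.s k253 k169 13 (.s k189 k125 7 (.d k252 k254 k126 0 8))))))] .n) .n))) (.c k208 (.q k31
  [(.s k3 k2 0 (.s k21 k42 6 (.s k23 k43 5 (.s k22 k20 0 (.d k41 k61 k60 5 6))))), (.s k181 k122 10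
  (.s k191 k127 7 (.s k186 k176 2 (.s k117 k48 10 (.d k245 k250 k53 2 7)))))] (.c k133 (.l (.s k181
  k122 10 (.s k191 k127 7 (.s k186 k176 2 (.s k117 k48 10 (.d k245 k250 k53 2 7)))))) (.c k181 (.q
  k133 [(.s k3 k2 0 (.s k21 k42 6 (.s k23 k43 5 (.s k22 k20 0 (.d k41 k61 k60 5 6))))), (.s k3 k2 0
  (.s k160 k80 11 (.s k161 k82 12 (.s k162 k163 0 (.d k81 k241 k243 11 12))))), (.s k21 k42 6 (.s
  k85 k170 14 (.s k61 k41 5 (.s k253 k169 13 (.s k189 k125 7 (.d k252 k254 k126 0 8))))))] .n) .n)))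
  .n))))) (.c k208 (.q k31 [(.s k3 k2 0 (.s k21 k42 6 (.s k23 k43 5 (.s k22 k20 0 (.d k41 k61 k60 5
  6))))), (.s k3 k2 0 (.s k85 k170 14 (.s k169 k253 13 (.s k86 k252 14 (.d k87 k84 k171 0 13))))),
  (.s k21 k42 6 (.s k85 k170 14 (.s k61 k41 5 (.s k253 k169 13 (.s k189 k125 7 (.d k252 k254 k126 0
  8))))))] (.c k165 (.q k240 [(.s k3 k2 0 (.s k21 k42 6 (.s k23 k43 5 (.s k22 k20 0 (.d k41 k61 k60
  5 6))))), (.s k181 k122 10 (.s k191 k127 7 (.s k186 k176 2 (.s k117 k48 10 (.d k245 k250 k53 2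
  7)))))] (.c k133 (.l (.s k181 k122 10 (.s k191 k127 7 (.s k186 k176 2 (.s k117 k48 10 (.d k245
  k250 k53 2 7)))))) (.c k181 (.q k133 [(.s k3 k2 0 (.s k21 k42 6 (.s k23 k43 5 (.s k22 k20 0 (.d
  k41 k61 k60 5 6))))), (.s k3 k2 0 (.s k160 k80 11 (.s k161 k82 12 (.s k162 k163 0 (.d k81 k241
  k243 11 12))))), (.s k21 k42 6 (.s k85 k170 14 (.s k61 k41 5 (.s k253 k169 13 (.s k189 k125 7 (.d
  k252 k254 k126 0 8))))))] .n) .n))) (.c k240 (.q k165 [(.s k3 k2 0 (.s k21 k42 6 (.s k23 k43 5 (.s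
  k22 k20 0 (.d k41 k61 k60 5 6))))), (.s k3 k2 0 (.s k85 k170 14 (.s k169 k253 13 (.s k86 k252 14
  (.d k87 k84 k171 0 13))))), (.s k21 k42 6 (.s k85 k170 14 (.s k61 k41 5 (.s k253 k169 13 (.s k189
  k125 7 (.d k252 k254 k126 0 8))))))] (.c k192 (.q k224 [(.s k42 k21 6 (.s k106 k47 10 (.d k170 k85
  k234 14 7))), (.s k3 k2 0 (.s k21 k42 6 (.s k41 k61 5 (.s k22 k60 6 (.d k23 k20 k43 0 5))))), (.s
  k85 k170 14 (.s k106 k47 10 (.d k127 k191 k64 7 6)))] (.c k74 (.q k133 [(.s k42 k21 6 (.s k106 k47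
  10 (.d k170 k85 k234 14 7))), (.s k3 k2 0 (.s k21 k42 6 (.s k41 k61 5 (.s k22 k60 6 (.d k23 k20
  k43 0 5))))), (.s k85 k170 14 (.s k106 k47 10 (.d k127 k191 k64 7 6)))] (.c k106 (.q k122 [(.s k3
  k2 0 (.s k21 k42 6 (.s k23 k43 5 (.s k22 k20 0 (.d k41 k61 k60 5 6))))), (.s k21 k42 6 (.s k170
  k85 14 (.s k16 k26 2 (.s k160 k175 2 (.d k32 k48 k96 3 7))))), (.s k3 k2 0 (.s k23 k43 5 (.s k87
  k171 13 (.s k151 k215 7 (.s k107 k195 13 (.d k127 k67 k191 5 7))))))] .n) (.c k122 (.l (.s k106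
  k47 10 (.s k42 k21 6 (.d k170 k85 k234 14 7)))) .n))) (.c k133 (.q k74 [(.s k42 k21 6 (.s k106 k47
  10 (.d k170 k85 k234 14 7))), (.s k3 k2 0 (.s k21 k42 6 (.s k41 k61 5 (.s k22 k60 6 (.d k23 k20
  k43 0 5))))), (.s k85 k170 14 (.s k106 k47 10 (.d k127 k191 k64 7 6)))] .n) .n))) (.c k224 (.q
  k192 [(.s k3 k2 0 (.s k128 k64 7 (.s k129 k66 8 (.s k130 k131 0 (.d k65 k193 k195 7 8))))), (.s
  k21 k42 6 (.s k85 k170 14 (.s k61 k41 5 (.s k253 k169 13 (.s k189 k125 7 (.d k252 k254 k126 0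
  8)))))), (.s k3 k2 0 (.s k21 k42 6 (.s k41 k61 5 (.s k22 k60 6 (.d k23 k20 k43 0 5)))))] .n) .n)))
  .n))) (.c k240 (.q k165 [(.s k3 k2 0 (.s k21 k42 6 (.s k23 k43 5 (.s k22 k20 0 (.d k41 k61 k60 5
  6))))), (.s k3 k2 0 (.s k85 k170 14 (.s k169 k253 13 (.s k86 k252 14 (.d k87 k84 k171 0 13))))),
  (.s k21 k42 6 (.s k85 k170 14 (.s k61 k41 5 (.s k253 k169 13 (.s k189 k125 7 (.d k252 k254 k126 0
  8))))))] (.c k31 (.q k208 [(.s k3 k2 0 (.s k21 k42 6 (.s k23 k43 5 (.s k22 k20 0 (.d k41 k61 k60 5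
  6))))), (.s k3 k2 0 (.s k85 k170 14 (.s k169 k253 13 (.s k86 k252 14 (.d k87 k84 k171 0 13))))),
  (.s k21 k42 6 (.s k85 k170 14 (.s k61 k41 5 (.s k253 k169 13 (.s k189 k125 7 (.d k252 k254 k126 0
  8))))))] .n) (.c k208 (.q k31 [(.s k3 k2 0 (.s k21 k42 6 (.s k23 k43 5 (.s k22 k20 0 (.d k41 k61
  k60 5 6))))), (.s k3 k2 0 (.s k85 k170 14 (.s k169 k253 13 (.s k86 k252 14 (.d k87 k84 k171 0
  13))))), (.s k21 k42 6 (.s k85 k170 14 (.s k61 k41 5 (.s k253 k169 13 (.s k189 k125 7 (.d k252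
  k254 k126 0 8))))))] (.c k192 (.q k224 [(.s k42 k21 6 (.s k106 k47 10 (.d k170 k85 k234 14 7))),
  (.s k3 k2 0 (.s k21 k42 6 (.s k41 k61 5 (.s k22 k60 6 (.d k23 k20 k43 0 5))))), (.s k85 k170 14
  (.s k106 k47 10 (.d k127 k191 k64 7 6)))] (.c k74 (.q k133 [(.s k42 k21 6 (.s k106 k47 10 (.d k170
  k85 k234 14 7))), (.s k3 k2 0 (.s k21 k42 6 (.s k41 k61 5 (.s k22 k60 6 (.d k23 k20 k43 0 5))))),
  (.s k85 k170 14 (.s k106 k47 10 (.d k127 k191 k64 7 6)))] (.c k106 (.q k122 [(.s k3 k2 0 (.s k21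
  k42 6 (.s k23 k43 5 (.s k22 k20 0 (.d k41 k61 k60 5 6))))), (.s k21 k42 6 (.s k170 k85 14 (.s k16
  k26 2 (.s k160 k175 2 (.d k32 k48 k96 3 7))))), (.s k3 k2 0 (.s k23 k43 5 (.s k87 k171 13 (.s k151
  k215 7 (.s k107 k195 13 (.d k127 k67 k191 5 7))))))] .n) (.c k122 (.l (.s k106 k47 10 (.s k42 k21
  6 (.d k170 k85 k234 14 7)))) .n))) (.c k133 (.q k74 [(.s k42 k21 6 (.s k106 k47 10 (.d k170 k85
  k234 14 7))), (.s k3 k2 0 (.s k21 k42 6 (.s k41 k61 5 (.s k22 k60 6 (.d k23 k20 k43 0 5))))), (.s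
  k85 k170 14 (.s k106 k47 10 (.d k127 k191 k64 7 6)))] .n) .n))) (.c k224 (.q k192 [(.s k3 k2 0 (.s
  k128 k64 7 (.s k129 k66 8 (.s k130 k131 0 (.d k65 k193 k195 7 8))))), (.s k21 k42 6 (.s k85 k170
  14 (.s k61 k41 5 (.s k253 k169 13 (.s k189 k125 7 (.d k252 k254 k126 0 8)))))), (.s k3 k2 0 (.s
  k21 k42 6 (.s k41 k61 5 (.s k22 k60 6 (.d k23 k20 k43 0 5)))))] .n) .n))) .n))) .n))))) (.c k165
  (.q k240 [(.s k21 k42 6 (.s k85 k170 14 (.s k149 k213 7 (.s k127 k191 7 (.d k106 k64 k192 6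
  14))))), (.s k122 k181 10 (.s k127 k191 7 (.s k117 k112 2 (.s k186 k48 10 (.d k250 k245 k58 2
  7)))))] (.c k127 (.q k3 [(.s k1 k2 0 (.s k21 k42 6 (.s k41 k61 5 (.s k23 k43 5 (.d k22 k20 k60 0
  6))))), (.s k1 k2 0 (.s k160 k80 11 (.s k161 k82 12 (.s k81 k241 11 (.d k162 k163 k243 0 12))))),
  (.s k21 k42 6 (.s k85 k170 14 (.s k23 k43 5 (.s k87 k171 13 (.s k149 k213 7 (.d k86 k84 k212 0
  8))))))] .n) (.c k149 (.l (.s k181 k122 10 (.s k191 k127 7 (.s k186 k176 2 (.s k117 k48 10 (.d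
  k245 k250 k53 2 7)))))) (.c k191 (.q k3 [(.s k1 k2 0 (.s k21 k42 6 (.s k41 k61 5 (.s k23 k43 5 (.d
  k22 k20 k60 0 6))))), (.s k1 k2 0 (.s k160 k80 11 (.s k161 k82 12 (.s k81 k241 11 (.d k162 k163
  k243 0 12))))), (.s k21 k42 6 (.s k85 k170 14 (.s k23 k43 5 (.s k87 k171 13 (.s k149 k213 7 (.d
  k86 k84 k212 0 8))))))] .n) (.c k250 (.l (.s k42 k21 6 (.s k170 k85 14 (.s k106 k234 7 (.s k149
  k192 14 (.d k191 k128 k127 6 7)))))) .n))))) (.c k170 (.f k191 k127 7 (.f k42 k21 6 (.q k3 [(.s k2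
  k1 0 (.s k22 k62 5 (.s k43 k23 5 (.d k41 k40 k60 0 6)))), (.s k171 k87 13 (.s k151 k131 5 (.s k107
  k195 13 (.d k43 k23 k235 5 7))))] (.c k10 (.q k250 [(.s k2 k1 0 (.s k22 k62 5 (.s k43 k23 5 (.d
  k41 k40 k60 0 6)))), (.s k171 k87 13 (.s k151 k131 5 (.s k107 k195 13 (.d k43 k23 k235 5 7)))),
  (.s k1 k2 0 (.s k240 k245 2 (.s k160 k80 11 (.s k161 k82 12 (.s k81 k241 11 (.d k162 k163 k243 0
  12))))))] (.c k165 (.l (.s k240 k245 2 (.s k2 k1 0 (.s k22 k62 5 (.s k41 k60 6 (.d k43 k40 k23 0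
  5)))))) (.c k240 (.q k165 [(.s k2 k1 0 (.s k22 k62 5 (.s k43 k23 5 (.d k41 k40 k60 0 6)))), (.s
  k171 k87 13 (.s k151 k131 5 (.s k107 k195 13 (.d k43 k23 k235 5 7))))] (.c k23 (.l (.s k2 k1 0 (.s
  k22 k62 5 (.s k41 k60 6 (.s k171 k87 13 (.s k43 k40 0 (.s k151 k131 5 (.d k107 k235 k195 7
  13)))))))) (.c k43 (.q k149 [(.s k181 k133 3 (.s k186 k176 2 (.s k48 k117 10 (.d k58 k122 k53 7
  2)))), (.s k2 k1 0 (.s k62 k22 5 (.s k171 k87 13 (.s k151 k131 5 (.s k150 k148 0 (.d k106 k194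
  k192 13 14))))))] (.c k192 (.l (.s k171 k87 13 (.s k151 k131 5 (.s k133 k181 3 (.s k150 k148 0 (.s
  k135 k180 4 (.s k132 k134 0 (.d k183 k167 k166 3 4)))))))) .n)) .n))) .n))) (.c k23 (.l (.s k2 k1
  0 (.s k22 k62 5 (.s k41 k60 6 (.s k171 k87 13 (.s k43 k40 0 (.s k151 k131 5 (.d k107 k235 k195 7
  13)))))))) (.c k43 (.q k240 [(.s k181 k122 10 (.s k186 k176 2 (.s k117 k48 10 (.d k245 k250 k53 2
  7)))), (.s k1 k2 0 (.s k160 k80 11 (.s k161 k82 12 (.s k81 k241 11 (.d k162 k163 k243 0 12)))))]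
  (.c k10 (.l (.s k250 k245 2 (.s k1 k2 0 (.s k160 k80 11 (.s k161 k82 12 (.s k81 k241 11 (.d k162
  k163 k243 0 12))))))) (.c k250 (.q k10 [(.s k58 k26 3 (.s k48 k53 2 (.s k186 k117 10 (.d k176 k181
  k112 2 7)))), (.s k1 k2 0 (.s k160 k80 11 (.s k161 k82 12 (.s k81 k241 11 (.d k162 k163 k243 0
  12)))))] .n) .n))) (.c k165 (.q k240 [(.s k2 k1 0 (.s k22 k62 5 (.s k43 k23 5 (.d k41 k40 k60 0
  6)))), (.s k181 k122 10 (.s k186 k176 2 (.s k117 k48 10 (.d k245 k250 k53 2 7))))] (.c k10 (.l (.s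
  k250 k245 2 (.s k2 k1 0 (.s k22 k62 5 (.s k41 k60 6 (.d k43 k40 k23 0 5)))))) (.c k160 (.q k175
  [(.s k2 k1 0 (.s k22 k62 5 (.s k43 k23 5 (.d k41 k40 k60 0 6)))), (.s k181 k122 10 (.s k186 k176 2
  (.s k117 k48 10 (.d k245 k250 k53 2 7))))] (.c k10 (.l (.s k250 k245 2 (.s k2 k1 0 (.s k22 k62 5
  (.s k41 k60 6 (.d k43 k40 k23 0 5)))))) (.c k250 (.q k10 [(.s k2 k1 0 (.s k22 k62 5 (.s k43 k23 5
  (.d k41 k40 k60 0 6)))), (.s k58 k26 3 (.s k48 k53 2 (.s k176 k112 7 (.d k181 k122 k186 10 2))))]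
  .n) .n))) (.c k175 (.l (.s k160 k80 11 (.s k1 k2 0 (.s k161 k82 12 (.s k81 k241 11 (.d k162 k163
  k243 0 12)))))) (.c k250 (.q k10 [(.s k2 k1 0 (.s k22 k62 5 (.s k43 k23 5 (.d k41 k40 k60 0 6)))),
  (.s k58 k26 3 (.s k48 k53 2 (.s k176 k112 7 (.d k181 k122 k186 10 2))))] (.c k160 (.q k175 [(.s k2
  k1 0 (.s k22 k62 5 (.s k43 k23 5 (.d k41 k40 k60 0 6)))), (.s k58 k26 3 (.s k48 k53 2 (.s k176
  k112 7 (.d k181 k122 k186 10 2))))] .n) (.c k175 (.l (.s k160 k80 11 (.s k1 k2 0 (.s k161 k82 12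
  (.s k81 k241 11 (.d k162 k163 k243 0 12)))))) .n))) .n))))) (.c k240 (.q k165 [(.s k2 k1 0 (.s k22
  k62 5 (.s k43 k23 5 (.d k41 k40 k60 0 6)))), (.s k171 k87 13 (.s k151 k131 5 (.s k107 k195 13 (.d
  k43 k23 k235 5 7))))] (.c k10 (.q k250 [(.s k2 k1 0 (.s k22 k62 5 (.s k43 k23 5 (.d k41 k40 k60 0
  6)))), (.s k171 k87 13 (.s k151 k131 5 (.s k107 k195 13 (.d k43 k23 k235 5 7))))] (.c k23 (.l (.s
  k2 k1 0 (.s k22 k62 5 (.s k41 k60 6 (.s k171 k87 13 (.s k43 k40 0 (.s k151 k131 5 (.d k107 k235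
  k195 7 13)))))))) (.c k43 (.q k149 [(.s k181 k133 3 (.s k186 k176 2 (.s k48 k117 10 (.d k58 k122
  k53 7 2)))), (.s k2 k1 0 (.s k62 k22 5 (.s k171 k87 13 (.s k151 k131 5 (.s k150 k148 0 (.d k106
  k194 k192 13 14))))))] (.c k192 (.l (.s k171 k87 13 (.s k151 k131 5 (.s k133 k181 3 (.s k150 k148
  0 (.s k135 k180 4 (.s k132 k134 0 (.d k183 k167 k166 3 4)))))))) .n)) .n))) (.c k23 (.l (.s k2 k1
  0 (.s k22 k62 5 (.s k41 k60 6 (.s k171 k87 13 (.s k43 k40 0 (.s k151 k131 5 (.d k107 k235 k195 7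
  13)))))))) (.c k43 (.q k175 [(.s k171 k87 13 (.s k151 k131 5 (.s k143 k159 3 (.s k167 k163 1 (.s
  k183 k135 3 (.d k179 k187 k155 1 5)))))), (.s k1 k2 0 (.s k159 k143 3 (.s k207 k111 11 (.s k69
  k138 10 (.s k137 k205 9 (.s k70 k204 10 (.d k71 k68 k139 0 9))))))), (.s k171 k87 13 (.s k131 k151
  5 (.s k163 k167 1 (.s k243 k83 11 (.s k183 k123 9 (.d k179 k187 k147 1 3))))))] (.c k10 (.q k250
  [(.s k143 k159 3 (.s k176 k154 6 (.s k186 k181 2 (.s k48 k117 10 (.d k58 k53 k122 2 7))))), (.s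
  k171 k87 13 (.s k131 k151 5 (.s k163 k167 1 (.s k243 k83 11 (.s k183 k123 9 (.d k179 k187 k147 1
  3))))))] .n) (.c k250 (.q k10 [(.s k143 k159 3 (.s k176 k154 6 (.s k186 k181 2 (.s k48 k117 10 (.d
  k58 k53 k26 2 3))))), (.s k2 k1 0 (.s k6 k14 1 (.s k22 k62 5 (.s k12 k9 2 (.s k46 k29 4 (.d k38
  k34 k54 1 3))))))] .n) .n))) (.c k250 (.q k10 [(.s k2 k1 0 (.s k22 k62 5 (.s k43 k23 5 (.d k41 k40
  k60 0 6)))), (.s k171 k87 13 (.s k151 k131 5 (.s k107 k195 13 (.d k43 k23 k235 5 7)))), (.s k2 k1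
  0 (.s k6 k14 1 (.s k22 k62 5 (.s k12 k9 2 (.s k38 k54 3 (.d k46 k34 k29 1 4))))))] .n) .n))))) (.c
  k250 (.q k10 [(.s k2 k1 0 (.s k22 k62 5 (.s k43 k23 5 (.d k41 k40 k60 0 6)))), (.s k171 k87 13 (.s
  k151 k131 5 (.s k107 k195 13 (.d k43 k23 k235 5 7)))), (.s k2 k1 0 (.s k6 k14 1 (.s k22 k62 5 (.s
  k12 k9 2 (.s k38 k54 3 (.d k46 k34 k29 1 4))))))] (.c k165 (.q k240 [(.s k2 k1 0 (.s k22 k62 5 (.s
  k43 k23 5 (.d k41 k40 k60 0 6)))), (.s k58 k26 3 (.s k48 k53 2 (.s k176 k112 7 (.d k181 k122 k186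
  10 2))))] (.c k160 (.q k175 [(.s k2 k1 0 (.s k22 k62 5 (.s k43 k23 5 (.d k41 k40 k60 0 6)))), (.s
  k58 k26 3 (.s k48 k53 2 (.s k176 k112 7 (.d k181 k122 k186 10 2))))] .n) (.c k175 (.l (.s k160 k80
  11 (.s k1 k2 0 (.s k161 k82 12 (.s k81 k241 11 (.d k162 k163 k243 0 12)))))) .n))) (.c k240 (.q
  k165 [(.s k2 k1 0 (.s k22 k62 5 (.s k43 k23 5 (.d k41 k40 k60 0 6)))), (.s k171 k87 13 (.s k151
  k131 5 (.s k107 k195 13 (.d k43 k23 k235 5 7)))), (.s k2 k1 0 (.s k6 k14 1 (.s k22 k62 5 (.s k12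
  k9 2 (.s k38 k54 3 (.d k46 k34 k29 1 4))))))] .n) .n))) .n))))))))) (.c k191 (.f k21 k42 6 (.q k3
  [(.s k1 k2 0 (.s k41 k61 5 (.s k23 k43 5 (.d k22 k20 k60 0 6)))), (.s k2 k1 0 (.s k170 k85 14 (.s
  k86 k254 13 (.s k169 k252 14 (.d k171 k168 k87 0 13))))), (.s k85 k170 14 (.s k23 k43 5 (.s k87
  k171 13 (.s k149 k213 7 (.d k86 k84 k212 0 8)))))] (.c k165 (.q k240 [(.s k1 k2 0 (.s k41 k61 5
  (.s k23 k43 5 (.d k22 k20 k60 0 6)))), (.s k2 k1 0 (.s k80 k160 11 (.s k82 k161 12 (.s k162 k242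
  11 (.d k81 k83 k243 0 12))))), (.s k85 k170 14 (.s k23 k43 5 (.s k87 k171 13 (.s k149 k213 7 (.d
  k86 k84 k212 0 8)))))] .n) (.c k240 (.q k165 [(.s k1 k2 0 (.s k41 k61 5 (.s k23 k43 5 (.d k22 k20
  k60 0 6)))), (.s k2 k1 0 (.s k170 k85 14 (.s k86 k254 13 (.s k169 k252 14 (.d k171 k168 k87 0
  13))))), (.s k85 k170 14 (.s k23 k43 5 (.s k87 k171 13 (.s k149 k213 7 (.d k86 k84 k212 0 8)))))]
  .n) .n)))) (.c k192 (.q k1 [(.s k3 k2 0 (.s k21 k42 6 (.s k41 k61 5 (.s k23 k43 5 (.d k22 k20 k60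
  0 6))))), (.s k3 k2 0 (.s k85 k170 14 (.s k169 k253 13 (.s k86 k252 14 (.d k87 k84 k171 0 13))))),
  (.s k21 k42 6 (.s k85 k170 14 (.s k61 k41 5 (.s k253 k169 13 (.s k125 k189 7 (.d k60 k62 k190 0
  8))))))] (.c k74 (.q k133 [(.s k3 k2 0 (.s k21 k42 6 (.s k41 k61 5 (.s k23 k43 5 (.d k22 k20 k60 0
  6))))), (.s k3 k2 0 (.s k85 k170 14 (.s k169 k253 13 (.s k86 k252 14 (.d k87 k84 k171 0 13))))),
  (.s k21 k42 6 (.s k85 k170 14 (.s k61 k41 5 (.s k253 k169 13 (.s k125 k189 7 (.d k60 k62 k190 0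
  8))))))] (.c k106 (.q k122 [(.s k3 k2 0 (.s k21 k42 6 (.s k41 k61 5 (.s k23 k43 5 (.d k22 k20 k60
  0 6))))), (.s k240 k181 10 (.s k127 k191 7 (.s k117 k112 2 (.s k186 k48 10 (.d k250 k245 k58 2
  7)))))] (.c k165 (.l (.s k240 k181 10 (.s k127 k191 7 (.s k117 k112 2 (.s k186 k48 10 (.d k250
  k245 k58 2 7)))))) (.c k240 (.q k165 [(.s k21 k42 6 (.s k149 k181 3 (.d k85 k170 k213 14 7))), (.s
  k127 k191 7 (.s k117 k112 2 (.s k48 k186 10 (.s k53 k58 2 (.d k181 k149 k245 3 7))))), (.s k3 k2 0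
  (.s k21 k42 6 (.s k41 k61 5 (.s k22 k60 6 (.d k23 k20 k43 0 5)))))] (.c k208 (.q k224 [(.s k21 k42
  6 (.s k149 k181 3 (.d k85 k170 k213 14 7))), (.s k127 k191 7 (.s k117 k112 2 (.s k48 k186 10 (.s
  k53 k58 2 (.d k181 k149 k245 3 7)))))] (.c k31 (.l (.s k149 k181 3 (.s k21 k42 6 (.d k85 k170 k213
  14 7)))) (.c k149 (.q k31 [(.s k3 k2 0 (.s k21 k42 6 (.s k23 k43 5 (.s k22 k20 0 (.d k41 k61 k60 5
  6))))), (.s k21 k42 6 (.s k170 k85 14 (.s k16 k26 2 (.s k160 k175 2 (.d k32 k48 k96 3 7))))), (.s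
  k3 k2 0 (.s k23 k43 5 (.s k87 k171 13 (.s k151 k215 7 (.s k107 k195 13 (.d k127 k67 k191 5
  7))))))] .n) (.c k181 (.l (.s k3 k2 0 (.s k21 k42 6 (.s k41 k61 5 (.s k22 k60 6 (.d k23 k20 k43 0
  5)))))) .n)))) (.c k224 (.q k208 [(.s k21 k42 6 (.s k149 k181 3 (.d k85 k170 k213 14 7))), (.s
  k127 k191 7 (.s k117 k112 2 (.s k48 k186 10 (.s k53 k58 2 (.d k181 k149 k245 3 7))))), (.s k3 k2 0
  (.s k21 k42 6 (.s k41 k61 5 (.s k22 k60 6 (.d k23 k20 k43 0 5)))))] .n) .n))) .n))) (.c k122 (.q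
  k106 [(.s k42 k21 6 (.d k170 k234 k85 7 14)), (.s k85 k170 14 (.d k127 k64 k191 6 7)), (.s k3 k2 0
  (.s k21 k42 6 (.s k41 k61 5 (.s k22 k60 6 (.d k23 k20 k43 0 5)))))] (.c k165 (.q k240 [(.s k42 k21
  6 (.d k170 k234 k85 7 14)), (.s k85 k170 14 (.d k127 k64 k191 6 7)), (.s k3 k2 0 (.s k21 k42 6 (.s
  k41 k61 5 (.s k22 k60 6 (.d k23 k20 k43 0 5)))))] .n) (.c k240 (.q k165 [(.s k42 k21 6 (.d k170
  k234 k85 7 14)), (.s k85 k170 14 (.d k127 k64 k191 6 7))] (.c k85 (.l (.s k42 k21 6 (.s k170 k234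
  7 (.s k191 k127 7 (.d k149 k181 k128 3 6))))) (.c k170 (.l (.s k21 k42 6 (.s k127 k191 7 (.s k85
  k64 6 (.d k149 k181 k213 3 7))))) (.c k208 (.l (.s k224 k47 10 (.s k42 k21 6 (.d k170 k234 k85 7
  14)))) (.c k224 (.q k208 [(.s k42 k21 6 (.d k170 k234 k85 7 14)), (.s k85 k170 14 (.d k127 k64
  k191 6 7))] (.c k85 (.l (.s k42 k21 6 (.s k170 k234 7 (.s k191 k127 7 (.d k149 k181 k128 3 6)))))
  (.c k170 (.l (.s k21 k42 6 (.s k127 k191 7 (.s k85 k64 6 (.d k149 k181 k213 3 7))))) .n))) .n)))))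
  .n))) (.c k165 (.q k240 [(.s k3 k2 0 (.s k21 k42 6 (.s k41 k61 5 (.s k23 k43 5 (.d k22 k20 k60 0
  6))))), (.s k122 k181 10 (.s k127 k191 7 (.s k117 k112 2 (.s k186 k48 10 (.d k250 k245 k58 2
  7)))))] (.c k106 (.l (.s k122 k181 10 (.s k127 k191 7 (.s k117 k112 2 (.s k186 k48 10 (.d k250
  k245 k58 2 7)))))) (.c k122 (.q k106 [(.s k42 k21 6 (.d k170 k234 k85 7 14)), (.s k85 k170 14 (.d
  k127 k64 k191 6 7)), (.s k3 k2 0 (.s k21 k42 6 (.s k41 k61 5 (.s k22 k60 6 (.d k23 k20 k43 0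
  5)))))] .n) .n))) (.c k240 (.q k165 [(.s k21 k42 6 (.s k149 k181 3 (.d k85 k213 k170 7 14))), (.s
  k3 k2 0 (.s k21 k42 6 (.s k41 k61 5 (.s k22 k60 6 (.d k23 k20 k43 0 5))))), (.s k170 k85 14 (.s
  k191 k127 7 (.d k149 k181 k128 3 6)))] (.c k106 (.q k122 [(.s k21 k42 6 (.s k149 k181 3 (.d k85
  k170 k213 14 7))), (.s k127 k191 7 (.s k117 k112 2 (.s k48 k186 10 (.s k53 k58 2 (.d k181 k149
  k245 3 7))))), (.s k3 k2 0 (.s k21 k42 6 (.s k41 k61 5 (.s k22 k60 6 (.d k23 k20 k43 0 5)))))] (.c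
  k208 (.q k224 [(.s k21 k42 6 (.s k149 k181 3 (.d k85 k170 k213 14 7))), (.s k127 k191 7 (.s k117
  k112 2 (.s k48 k186 10 (.s k53 k58 2 (.d k181 k149 k245 3 7)))))] (.c k31 (.l (.s k149 k181 3 (.s
  k21 k42 6 (.d k85 k170 k213 14 7)))) (.c k149 (.q k31 [(.s k3 k2 0 (.s k21 k42 6 (.s k23 k43 5 (.s
  k22 k20 0 (.d k41 k61 k60 5 6))))), (.s k21 k42 6 (.s k170 k85 14 (.s k16 k26 2 (.s k160 k175 2
  (.d k32 k48 k96 3 7))))), (.s k3 k2 0 (.s k23 k43 5 (.s k87 k171 13 (.s k151 k215 7 (.s k107 k195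
  13 (.d k127 k67 k191 5 7))))))] .n) (.c k181 (.l (.s k3 k2 0 (.s k21 k42 6 (.s k41 k61 5 (.s k22
  k60 6 (.d k23 k20 k43 0 5)))))) .n)))) (.c k224 (.q k208 [(.s k21 k42 6 (.s k149 k181 3 (.d k85
  k170 k213 14 7))), (.s k127 k191 7 (.s k117 k112 2 (.s k48 k186 10 (.s k53 k58 2 (.d k181 k149
  k245 3 7))))), (.s k3 k2 0 (.s k21 k42 6 (.s k41 k61 5 (.s k22 k60 6 (.d k23 k20 k43 0 5)))))] .n)
  .n))) (.c k122 (.q k106 [(.s k42 k21 6 (.d k170 k234 k85 7 14)), (.s k85 k170 14 (.d k127 k64 k191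
  6 7))] (.c k85 (.l (.s k42 k21 6 (.s k170 k234 7 (.s k191 k127 7 (.d k149 k181 k128 3 6))))) (.c
  k170 (.l (.s k21 k42 6 (.s k127 k191 7 (.s k85 k64 6 (.d k149 k181 k213 3 7))))) (.c k208 (.l (.s
  k224 k47 10 (.s k42 k21 6 (.d k170 k234 k85 7 14)))) (.c k224 (.q k208 [(.s k42 k21 6 (.d k170
  k234 k85 7 14)), (.s k85 k170 14 (.d k127 k64 k191 6 7))] (.c k85 (.l (.s k42 k21 6 (.s k170 k234
  7 (.s k191 k127 7 (.d k149 k181 k128 3 6))))) (.c k170 (.l (.s k21 k42 6 (.s k127 k191 7 (.s k85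
  k64 6 (.d k149 k181 k213 3 7))))) .n))) .n))))) (.c k208 (.q k224 [(.s k21 k42 6 (.s k149 k181 3
  (.d k85 k213 k170 7 14))), (.s k85 k170 14 (.s k106 k47 10 (.d k127 k64 k191 6 7))), (.s k3 k2 0
  (.s k21 k42 6 (.s k41 k61 5 (.s k22 k60 6 (.d k23 k20 k43 0 5)))))] (.c k31 (.l (.s k149 k181 3
  (.s k21 k42 6 (.d k85 k213 k170 7 14)))) (.c k106 (.q k122 [(.s k21 k42 6 (.s k149 k181 3 (.d k85
  k170 k213 14 7))), (.s k127 k191 7 (.s k117 k112 2 (.s k48 k186 10 (.s k53 k58 2 (.d k181 k149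
  k245 3 7)))))] (.c k31 (.l (.s k149 k181 3 (.s k21 k42 6 (.d k85 k170 k213 14 7)))) (.c k149 (.q
  k31 [(.s k3 k2 0 (.s k21 k42 6 (.s k23 k43 5 (.s k22 k20 0 (.d k41 k61 k60 5 6))))), (.s k21 k42 6
  (.s k170 k85 14 (.s k16 k26 2 (.s k160 k175 2 (.d k32 k48 k96 3 7))))), (.s k3 k2 0 (.s k23 k43 5
  (.s k87 k171 13 (.s k151 k215 7 (.s k107 k195 13 (.d k127 k67 k191 5 7))))))] .n) (.c k181 (.l (.s
  k3 k2 0 (.s k21 k42 6 (.s k41 k61 5 (.s k22 k60 6 (.d k23 k20 k43 0 5)))))) .n)))) (.c k122 (.l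
  (.s k106 k47 10 (.s k42 k21 6 (.d k170 k234 k85 7 14)))) (.c k149 (.q k31 [(.s k42 k21 6 (.s k106
  k47 10 (.d k170 k85 k234 14 7))), (.s k3 k2 0 (.s k21 k42 6 (.s k41 k61 5 (.s k22 k60 6 (.d k23
  k20 k43 0 5))))), (.s k85 k170 14 (.s k106 k47 10 (.d k127 k191 k64 7 6)))] (.c k106 (.q k122 [(.s
  k3 k2 0 (.s k21 k42 6 (.s k23 k43 5 (.s k22 k20 0 (.d k41 k61 k60 5 6))))), (.s k21 k42 6 (.s k170
  k85 14 (.s k16 k26 2 (.s k160 k175 2 (.d k32 k48 k96 3 7))))), (.s k3 k2 0 (.s k23 k43 5 (.s k87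
  k171 13 (.s k151 k215 7 (.s k107 k195 13 (.d k127 k67 k191 5 7))))))] .n) (.c k122 (.l (.s k106
  k47 10 (.s k42 k21 6 (.d k170 k85 k234 14 7)))) .n))) .n))))) (.c k224 (.q k208 [(.s k21 k42 6 (.s
  k149 k181 3 (.d k85 k213 k170 7 14))), (.s k3 k2 0 (.s k21 k42 6 (.s k41 k61 5 (.s k22 k60 6 (.d
  k23 k20 k43 0 5))))), (.s k170 k85 14 (.s k191 k127 7 (.d k149 k181 k128 3 6)))] (.c k106 (.q k122
  [(.s k21 k42 6 (.s k149 k181 3 (.d k85 k170 k213 14 7))), (.s k127 k191 7 (.s k117 k112 2 (.s k48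
  k186 10 (.s k53 k58 2 (.d k181 k149 k245 3 7))))), (.s k3 k2 0 (.s k21 k42 6 (.s k41 k61 5 (.s k22
  k60 6 (.d k23 k20 k43 0 5)))))] .n) (.c k122 (.q k106 [(.s k42 k21 6 (.d k170 k234 k85 7 14)), (.s
  k85 k170 14 (.d k127 k64 k191 6 7))] (.c k85 (.l (.s k42 k21 6 (.s k170 k234 7 (.s k191 k127 7 (.d
  k149 k181 k128 3 6))))) (.c k170 (.l (.s k21 k42 6 (.s k127 k191 7 (.s k85 k64 6 (.d k149 k181
  k213 3 7))))) .n))) .n))) .n))))) .n))))) (.c k133 (.q k74 [(.s k3 k2 0 (.s k21 k42 6 (.s k41 k61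
  5 (.s k23 k43 5 (.d k22 k20 k60 0 6))))), (.s k3 k2 0 (.s k85 k170 14 (.s k169 k253 13 (.s k86
  k252 14 (.d k87 k84 k171 0 13))))), (.s k21 k42 6 (.s k85 k170 14 (.s k61 k41 5 (.s k253 k169 13
  (.s k125 k189 7 (.d k60 k62 k190 0 8))))))] (.c k165 (.q k240 [(.s k3 k2 0 (.s k21 k42 6 (.s k41
  k61 5 (.s k23 k43 5 (.d k22 k20 k60 0 6))))), (.s k181 k122 10 (.s k191 k127 7 (.s k186 k176 2 (.s
  k117 k48 10 (.d k245 k250 k53 2 7)))))] (.c k149 (.l (.s k181 k122 10 (.s k191 k127 7 (.s k186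
  k176 2 (.s k117 k48 10 (.d k245 k250 k53 2 7)))))) (.c k181 (.q k149 [(.s k21 k42 6 (.d k85 k213
  k170 7 14)), (.s k170 k85 14 (.d k191 k128 k127 6 7)), (.s k3 k2 0 (.s k21 k42 6 (.s k41 k61 5 (.s
  k22 k60 6 (.d k23 k20 k43 0 5)))))] .n) .n))) (.c k240 (.q k165 [(.s k3 k2 0 (.s k21 k42 6 (.s k41
  k61 5 (.s k23 k43 5 (.d k22 k20 k60 0 6))))), (.s k3 k2 0 (.s k85 k170 14 (.s k169 k253 13 (.s k86
  k252 14 (.d k87 k84 k171 0 13))))), (.s k21 k42 6 (.s k85 k170 14 (.s k61 k41 5 (.s k253 k169 13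
  (.s k125 k189 7 (.d k60 k62 k190 0 8))))))] (.c k208 (.q k224 [(.s k42 k21 6 (.s k106 k47 10 (.d
  k170 k234 k85 7 14))), (.s k3 k2 0 (.s k21 k42 6 (.s k41 k61 5 (.s k22 k60 6 (.d k23 k20 k43 0
  5))))), (.s k85 k170 14 (.s k106 k47 10 (.d k127 k64 k191 6 7)))] (.c k31 (.q k149 [(.s k21 k42 6
  (.d k85 k213 k170 7 14)), (.s k170 k85 14 (.d k191 k128 k127 6 7))] (.c k85 (.l (.s k42 k21 6 (.s
  k106 k47 10 (.s k170 k234 7 (.d k191 k128 k127 6 7))))) (.c k170 (.l (.s k21 k42 6 (.s k85 k213 7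
  (.s k106 k47 10 (.d k127 k64 k191 6 7))))) .n))) (.c k149 (.q k31 [(.s k42 k21 6 (.s k106 k47 10
  (.d k170 k85 k234 14 7))), (.s k3 k2 0 (.s k21 k42 6 (.s k41 k61 5 (.s k22 k60 6 (.d k23 k20 k43 0
  5))))), (.s k85 k170 14 (.s k106 k47 10 (.d k127 k191 k64 7 6)))] .n) .n))) (.c k224 (.q k208 [(.s
  k3 k2 0 (.s k21 k42 6 (.s k41 k61 5 (.s k23 k43 5 (.d k22 k20 k60 0 6))))), (.s k3 k2 0 (.s k85
  k170 14 (.s k169 k253 13 (.s k86 k252 14 (.d k87 k84 k171 0 13))))), (.s k21 k42 6 (.s k85 k170 14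
  (.s k61 k41 5 (.s k253 k169 13 (.s k125 k189 7 (.d k60 k62 k190 0 8))))))] .n) .n))) .n))) (.c
  k165 (.q k240 [(.s k3 k2 0 (.s k21 k42 6 (.s k41 k61 5 (.s k23 k43 5 (.d k22 k20 k60 0 6))))), (.s
  k122 k181 10 (.s k127 k191 7 (.s k117 k112 2 (.s k186 k48 10 (.d k250 k245 k58 2 7)))))] (.c k74
  (.q k133 [(.s k3 k2 0 (.s k21 k42 6 (.s k41 k61 5 (.s k23 k43 5 (.d k22 k20 k60 0 6))))), (.s k122
  k181 10 (.s k127 k191 7 (.s k117 k112 2 (.s k186 k48 10 (.d k250 k245 k58 2 7)))))] (.c k106 (.l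
  (.s k122 k181 10 (.s k127 k191 7 (.s k117 k112 2 (.s k186 k48 10 (.d k250 k245 k58 2 7)))))) (.c
  k122 (.q k106 [(.s k42 k21 6 (.d k170 k234 k85 7 14)), (.s k85 k170 14 (.d k127 k64 k191 6 7)),
  (.s k3 k2 0 (.s k21 k42 6 (.s k41 k61 5 (.s k22 k60 6 (.d k23 k20 k43 0 5)))))] .n) .n))) (.c k133
  (.q k74 [(.s k3 k2 0 (.s k21 k42 6 (.s k41 k61 5 (.s k23 k43 5 (.d k22 k20 k60 0 6))))), (.s k181
  k122 10 (.s k191 k127 7 (.s k186 k176 2 (.s k117 k48 10 (.d k245 k250 k53 2 7)))))] (.c k149 (.l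
  (.s k181 k122 10 (.s k191 k127 7 (.s k186 k176 2 (.s k117 k48 10 (.d k245 k250 k53 2 7)))))) (.c
  k181 (.q k149 [(.s k21 k42 6 (.d k85 k213 k170 7 14)), (.s k170 k85 14 (.d k191 k128 k127 6 7)),
  (.s k3 k2 0 (.s k21 k42 6 (.s k41 k61 5 (.s k22 k60 6 (.d k23 k20 k43 0 5)))))] .n) .n))) .n)))
  (.c k240 (.q k165 [(.s k3 k2 0 (.s k21 k42 6 (.s k41 k61 5 (.s k23 k43 5 (.d k22 k20 k60 0 6))))),
  (.s k3 k2 0 (.s k85 k170 14 (.s k169 k253 13 (.s k86 k252 14 (.d k87 k84 k171 0 13))))), (.s k21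
  k42 6 (.s k85 k170 14 (.s k61 k41 5 (.s k253 k169 13 (.s k125 k189 7 (.d k60 k62 k190 0 8))))))]
  (.c k74 (.q k133 [(.s k21 k42 6 (.s k149 k181 3 (.d k85 k213 k170 7 14))), (.s k3 k2 0 (.s k21 k42
  6 (.s k41 k61 5 (.s k22 k60 6 (.d k23 k20 k43 0 5))))), (.s k170 k85 14 (.s k191 k127 7 (.d k149
  k181 k128 3 6)))] (.c k106 (.q k122 [(.s k21 k42 6 (.s k149 k181 3 (.d k85 k170 k213 14 7))), (.s
  k127 k191 7 (.s k117 k112 2 (.s k48 k186 10 (.s k53 k58 2 (.d k181 k149 k245 3 7))))), (.s k3 k2 0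
  (.s k21 k42 6 (.s k41 k61 5 (.s k22 k60 6 (.d k23 k20 k43 0 5)))))] (.c k208 (.q k224 [(.s k21 k42
  6 (.s k149 k181 3 (.d k85 k170 k213 14 7))), (.s k127 k191 7 (.s k117 k112 2 (.s k48 k186 10 (.s
  k53 k58 2 (.d k181 k149 k245 3 7)))))] (.c k31 (.l (.s k149 k181 3 (.s k21 k42 6 (.d k85 k170 k213
  14 7)))) (.c k149 (.q k31 [(.s k3 k2 0 (.s k21 k42 6 (.s k23 k43 5 (.s k22 k20 0 (.d k41 k61 k60 5
  6))))), (.s k21 k42 6 (.s k170 k85 14 (.s k16 k26 2 (.s k160 k175 2 (.d k32 k48 k96 3 7))))), (.s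
  k3 k2 0 (.s k23 k43 5 (.s k87 k171 13 (.s k151 k215 7 (.s k107 k195 13 (.d k127 k67 k191 5
  7))))))] .n) (.c k181 (.l (.s k3 k2 0 (.s k21 k42 6 (.s k41 k61 5 (.s k22 k60 6 (.d k23 k20 k43 0
  5)))))) .n)))) (.c k224 (.q k208 [(.s k21 k42 6 (.s k149 k181 3 (.d k85 k170 k213 14 7))), (.s
  k127 k191 7 (.s k117 k112 2 (.s k48 k186 10 (.s k53 k58 2 (.d k181 k149 k245 3 7))))), (.s k3 k2 0
  (.s k21 k42 6 (.s k41 k61 5 (.s k22 k60 6 (.d k23 k20 k43 0 5)))))] .n) .n))) (.c k122 (.q k106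
  [(.s k42 k21 6 (.d k170 k234 k85 7 14)), (.s k85 k170 14 (.d k127 k64 k191 6 7))] (.c k85 (.l (.s
  k42 k21 6 (.s k170 k234 7 (.s k191 k127 7 (.d k149 k181 k128 3 6))))) (.c k170 (.l (.s k21 k42 6
  (.s k127 k191 7 (.s k85 k64 6 (.d k149 k181 k213 3 7))))) (.c k208 (.l (.s k224 k47 10 (.s k42 k21
  6 (.d k170 k234 k85 7 14)))) (.c k224 (.q k208 [(.s k42 k21 6 (.d k170 k234 k85 7 14)), (.s k85
  k170 14 (.d k127 k64 k191 6 7))] (.c k85 (.l (.s k42 k21 6 (.s k170 k234 7 (.s k191 k127 7 (.d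
  k149 k181 k128 3 6))))) (.c k170 (.l (.s k21 k42 6 (.s k127 k191 7 (.s k85 k64 6 (.d k149 k181
  k213 3 7))))) .n))) .n))))) (.c k208 (.q k224 [(.s k21 k42 6 (.s k149 k181 3 (.d k85 k213 k170 7
  14))), (.s k85 k170 14 (.s k106 k47 10 (.d k127 k64 k191 6 7))), (.s k3 k2 0 (.s k21 k42 6 (.s k41
  k61 5 (.s k22 k60 6 (.d k23 k20 k43 0 5)))))] (.c k31 (.l (.s k149 k181 3 (.s k21 k42 6 (.d k85
  k213 k170 7 14)))) (.c k106 (.q k122 [(.s k21 k42 6 (.s k149 k181 3 (.d k85 k170 k213 14 7))), (.s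
  k127 k191 7 (.s k117 k112 2 (.s k48 k186 10 (.s k53 k58 2 (.d k181 k149 k245 3 7)))))] (.c k31 (.l
  (.s k149 k181 3 (.s k21 k42 6 (.d k85 k170 k213 14 7)))) (.c k149 (.q k31 [(.s k3 k2 0 (.s k21 k42
  6 (.s k23 k43 5 (.s k22 k20 0 (.d k41 k61 k60 5 6))))), (.s k21 k42 6 (.s k170 k85 14 (.s k16 k26
  2 (.s k160 k175 2 (.d k32 k48 k96 3 7))))), (.s k3 k2 0 (.s k23 k43 5 (.s k87 k171 13 (.s k151
  k215 7 (.s k107 k195 13 (.d k127 k67 k191 5 7))))))] .n) (.c k181 (.l (.s k3 k2 0 (.s k21 k42 6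
  (.s k41 k61 5 (.s k22 k60 6 (.d k23 k20 k43 0 5)))))) .n)))) (.c k122 (.l (.s k106 k47 10 (.s k42
  k21 6 (.d k170 k234 k85 7 14)))) (.c k149 (.q k31 [(.s k42 k21 6 (.s k106 k47 10 (.d k170 k85 k234
  14 7))), (.s k3 k2 0 (.s k21 k42 6 (.s k41 k61 5 (.s k22 k60 6 (.d k23 k20 k43 0 5))))), (.s k85
  k170 14 (.s k106 k47 10 (.d k127 k191 k64 7 6)))] (.c k106 (.q k122 [(.s k3 k2 0 (.s k21 k42 6 (.s
  k23 k43 5 (.s k22 k20 0 (.d k41 k61 k60 5 6))))), (.s k21 k42 6 (.s k170 k85 14 (.s k16 k26 2 (.s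
  k160 k175 2 (.d k32 k48 k96 3 7))))), (.s k3 k2 0 (.s k23 k43 5 (.s k87 k171 13 (.s k151 k215 7
  (.s k107 k195 13 (.d k127 k67 k191 5 7))))))] .n) (.c k122 (.l (.s k106 k47 10 (.s k42 k21 6 (.d
  k170 k85 k234 14 7)))) .n))) .n))))) (.c k224 (.q k208 [(.s k21 k42 6 (.s k149 k181 3 (.d k85 k213
  k170 7 14))), (.s k3 k2 0 (.s k21 k42 6 (.s k41 k61 5 (.s k22 k60 6 (.d k23 k20 k43 0 5))))), (.s
  k170 k85 14 (.s k191 k127 7 (.d k149 k181 k128 3 6)))] (.c k106 (.q k122 [(.s k21 k42 6 (.s k149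
  k181 3 (.d k85 k170 k213 14 7))), (.s k127 k191 7 (.s k117 k112 2 (.s k48 k186 10 (.s k53 k58 2
  (.d k181 k149 k245 3 7))))), (.s k3 k2 0 (.s k21 k42 6 (.s k41 k61 5 (.s k22 k60 6 (.d k23 k20 k43
  0 5)))))] .n) (.c k122 (.q k106 [(.s k42 k21 6 (.d k170 k234 k85 7 14)), (.s k85 k170 14 (.d k127
  k64 k191 6 7))] (.c k85 (.l (.s k42 k21 6 (.s k170 k234 7 (.s k191 k127 7 (.d k149 k181 k128 3
  6))))) (.c k170 (.l (.s k21 k42 6 (.s k127 k191 7 (.s k85 k64 6 (.d k149 k181 k213 3 7))))) .n)))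
  .n))) .n))))) (.c k133 (.q k74 [(.s k3 k2 0 (.s k21 k42 6 (.s k41 k61 5 (.s k23 k43 5 (.d k22 k20
  k60 0 6))))), (.s k3 k2 0 (.s k85 k170 14 (.s k169 k253 13 (.s k86 k252 14 (.d k87 k84 k171 0
  13))))), (.s k21 k42 6 (.s k85 k170 14 (.s k61 k41 5 (.s k253 k169 13 (.s k125 k189 7 (.d k60 k62
  k190 0 8))))))] (.c k208 (.q k224 [(.s k42 k21 6 (.s k106 k47 10 (.d k170 k234 k85 7 14))), (.s k3
  k2 0 (.s k21 k42 6 (.s k41 k61 5 (.s k22 k60 6 (.d k23 k20 k43 0 5))))), (.s k85 k170 14 (.s k106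
  k47 10 (.d k127 k64 k191 6 7)))] (.c k31 (.q k149 [(.s k21 k42 6 (.d k85 k213 k170 7 14)), (.s
  k170 k85 14 (.d k191 k128 k127 6 7))] (.c k85 (.l (.s k42 k21 6 (.s k106 k47 10 (.s k170 k234 7
  (.d k191 k128 k127 6 7))))) (.c k170 (.l (.s k21 k42 6 (.s k85 k213 7 (.s k106 k47 10 (.d k127 k64
  k191 6 7))))) .n))) (.c k149 (.q k31 [(.s k42 k21 6 (.s k106 k47 10 (.d k170 k85 k234 14 7))), (.s
  k3 k2 0 (.s k21 k42 6 (.s k41 k61 5 (.s k22 k60 6 (.d k23 k20 k43 0 5))))), (.s k85 k170 14 (.s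
  k106 k47 10 (.d k127 k191 k64 7 6)))] .n) .n))) (.c k224 (.q k208 [(.s k3 k2 0 (.s k21 k42 6 (.s
  k41 k61 5 (.s k23 k43 5 (.d k22 k20 k60 0 6))))), (.s k3 k2 0 (.s k85 k170 14 (.s k169 k253 13 (.s
  k86 k252 14 (.d k87 k84 k171 0 13))))), (.s k21 k42 6 (.s k85 k170 14 (.s k61 k41 5 (.s k253 k169
  13 (.s k125 k189 7 (.d k60 k62 k190 0 8))))))] .n) .n))) (.c k208 (.q k224 [(.s k42 k21 6 (.s k106
  k47 10 (.d k170 k234 k85 7 14))), (.s k3 k2 0 (.s k21 k42 6 (.s k41 k61 5 (.s k22 k60 6 (.d k23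
  k20 k43 0 5))))), (.s k85 k170 14 (.s k106 k47 10 (.d k127 k64 k191 6 7)))] (.c k31 (.q k149 [(.s
  k21 k42 6 (.d k85 k213 k170 7 14)), (.s k170 k85 14 (.d k191 k128 k127 6 7))] (.c k74 (.l (.s k133
  k181 3 (.s k21 k42 6 (.d k85 k213 k170 7 14)))) (.c k85 (.l (.s k42 k21 6 (.s k106 k47 10 (.s k170
  k234 7 (.d k191 k128 k127 6 7))))) (.c k133 (.q k74 [(.s k21 k42 6 (.d k85 k213 k170 7 14)), (.s
  k170 k85 14 (.d k191 k128 k127 6 7))] (.c k85 (.l (.s k42 k21 6 (.s k106 k47 10 (.s k170 k234 7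
  (.d k191 k128 k127 6 7))))) (.c k170 (.l (.s k21 k42 6 (.s k85 k213 7 (.s k106 k47 10 (.d k127 k64
  k191 6 7))))) .n))) (.c k170 (.l (.s k21 k42 6 (.s k85 k213 7 (.s k106 k47 10 (.d k127 k64 k191 6
  7))))) .n))))) (.c k74 (.q k133 [(.s k21 k42 6 (.s k149 k181 3 (.d k85 k213 k170 7 14))), (.s k85
  k170 14 (.s k106 k47 10 (.d k127 k64 k191 6 7))), (.s k3 k2 0 (.s k21 k42 6 (.s k41 k61 5 (.s k22
  k60 6 (.d k23 k20 k43 0 5)))))] (.c k31 (.l (.s k149 k181 3 (.s k21 k42 6 (.d k85 k213 k170 7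
  14)))) (.c k106 (.q k122 [(.s k21 k42 6 (.s k149 k181 3 (.d k85 k170 k213 14 7))), (.s k127 k191 7
  (.s k117 k112 2 (.s k48 k186 10 (.s k53 k58 2 (.d k181 k149 k245 3 7)))))] (.c k31 (.l (.s k149
  k181 3 (.s k21 k42 6 (.d k85 k170 k213 14 7)))) (.c k149 (.q k31 [(.s k3 k2 0 (.s k21 k42 6 (.s
  k23 k43 5 (.s k22 k20 0 (.d k41 k61 k60 5 6))))), (.s k21 k42 6 (.s k170 k85 14 (.s k16 k26 2 (.s
  k160 k175 2 (.d k32 k48 k96 3 7))))), (.s k3 k2 0 (.s k23 k43 5 (.s k87 k171 13 (.s k151 k215 7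
  (.s k107 k195 13 (.d k127 k67 k191 5 7))))))] .n) (.c k181 (.l (.s k3 k2 0 (.s k21 k42 6 (.s k41
  k61 5 (.s k22 k60 6 (.d k23 k20 k43 0 5)))))) .n)))) (.c k122 (.l (.s k106 k47 10 (.s k42 k21 6
  (.d k170 k234 k85 7 14)))) (.c k149 (.q k31 [(.s k42 k21 6 (.s k106 k47 10 (.d k170 k85 k234 14
  7))), (.s k3 k2 0 (.s k21 k42 6 (.s k41 k61 5 (.s k22 k60 6 (.d k23 k20 k43 0 5))))), (.s k85 k170
  14 (.s k106 k47 10 (.d k127 k191 k64 7 6)))] (.c k106 (.q k122 [(.s k3 k2 0 (.s k21 k42 6 (.s k23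
  k43 5 (.s k22 k20 0 (.d k41 k61 k60 5 6))))), (.s k21 k42 6 (.s k170 k85 14 (.s k16 k26 2 (.s k160
  k175 2 (.d k32 k48 k96 3 7))))), (.s k3 k2 0 (.s k23 k43 5 (.s k87 k171 13 (.s k151 k215 7 (.s
  k107 k195 13 (.d k127 k67 k191 5 7))))))] .n) (.c k122 (.l (.s k106 k47 10 (.s k42 k21 6 (.d k170
  k85 k234 14 7)))) .n))) .n))))) (.c k133 (.q k74 [(.s k42 k21 6 (.s k106 k47 10 (.d k170 k234 k85
  7 14))), (.s k3 k2 0 (.s k21 k42 6 (.s k41 k61 5 (.s k22 k60 6 (.d k23 k20 k43 0 5))))), (.s k85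
  k170 14 (.s k106 k47 10 (.d k127 k64 k191 6 7)))] (.c k31 (.q k149 [(.s k21 k42 6 (.d k85 k213
  k170 7 14)), (.s k170 k85 14 (.d k191 k128 k127 6 7))] (.c k85 (.l (.s k42 k21 6 (.s k106 k47 10
  (.s k170 k234 7 (.d k191 k128 k127 6 7))))) (.c k170 (.l (.s k21 k42 6 (.s k85 k213 7 (.s k106 k47
  10 (.d k127 k64 k191 6 7))))) .n))) (.c k149 (.q k31 [(.s k42 k21 6 (.s k106 k47 10 (.d k170 k85
  k234 14 7))), (.s k3 k2 0 (.s k21 k42 6 (.s k41 k61 5 (.s k22 k60 6 (.d k23 k20 k43 0 5))))), (.s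
  k85 k170 14 (.s k106 k47 10 (.d k127 k191 k64 7 6)))] .n) .n))) (.c k149 (.q k31 [(.s k42 k21 6
  (.s k106 k47 10 (.d k170 k85 k234 14 7))), (.s k3 k2 0 (.s k21 k42 6 (.s k41 k61 5 (.s k22 k60 6
  (.d k23 k20 k43 0 5))))), (.s k85 k170 14 (.s k106 k47 10 (.d k127 k191 k64 7 6)))] (.c k74 (.q
  k133 [(.s k42 k21 6 (.s k106 k47 10 (.d k170 k85 k234 14 7))), (.s k3 k2 0 (.s k21 k42 6 (.s k41
  k61 5 (.s k22 k60 6 (.d k23 k20 k43 0 5))))), (.s k85 k170 14 (.s k106 k47 10 (.d k127 k191 k64 7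
  6)))] (.c k106 (.q k122 [(.s k3 k2 0 (.s k21 k42 6 (.s k23 k43 5 (.s k22 k20 0 (.d k41 k61 k60 5
  6))))), (.s k21 k42 6 (.s k170 k85 14 (.s k16 k26 2 (.s k160 k175 2 (.d k32 k48 k96 3 7))))), (.s
  k3 k2 0 (.s k23 k43 5 (.s k87 k171 13 (.s k151 k215 7 (.s k107 k195 13 (.d k127 k67 k191 5
  7))))))] .n) (.c k122 (.l (.s k106 k47 10 (.s k42 k21 6 (.d k170 k85 k234 14 7)))) .n))) (.c k133
  (.q k74 [(.s k42 k21 6 (.s k106 k47 10 (.d k170 k85 k234 14 7))), (.s k3 k2 0 (.s k21 k42 6 (.s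
  k41 k61 5 (.s k22 k60 6 (.d k23 k20 k43 0 5))))), (.s k85 k170 14 (.s k106 k47 10 (.d k127 k191
  k64 7 6)))] .n) .n))) .n))))) (.c k224 (.q k208 [(.s k3 k2 0 (.s k21 k42 6 (.s k41 k61 5 (.s k23
  k43 5 (.d k22 k20 k60 0 6))))), (.s k3 k2 0 (.s k85 k170 14 (.s k169 k253 13 (.s k86 k252 14 (.d
  k87 k84 k171 0 13))))), (.s k21 k42 6 (.s k85 k170 14 (.s k61 k41 5 (.s k253 k169 13 (.s k125 k189
  7 (.d k60 k62 k190 0 8))))))] (.c k74 (.q k133 [(.s k21 k42 6 (.s k149 k181 3 (.d k85 k213 k170 7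
  14))), (.s k3 k2 0 (.s k21 k42 6 (.s k41 k61 5 (.s k22 k60 6 (.d k23 k20 k43 0 5))))), (.s k170
  k85 14 (.s k191 k127 7 (.d k149 k181 k128 3 6)))] (.c k106 (.q k122 [(.s k21 k42 6 (.s k149 k181 3
  (.d k85 k170 k213 14 7))), (.s k127 k191 7 (.s k117 k112 2 (.s k48 k186 10 (.s k53 k58 2 (.d k181
  k149 k245 3 7))))), (.s k3 k2 0 (.s k21 k42 6 (.s k41 k61 5 (.s k22 k60 6 (.d k23 k20 k43 0
  5)))))] .n) (.c k122 (.q k106 [(.s k42 k21 6 (.d k170 k234 k85 7 14)), (.s k85 k170 14 (.d k127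
  k64 k191 6 7))] (.c k85 (.l (.s k42 k21 6 (.s k170 k234 7 (.s k191 k127 7 (.d k149 k181 k128 3
  6))))) (.c k170 (.l (.s k21 k42 6 (.s k127 k191 7 (.s k85 k64 6 (.d k149 k181 k213 3 7))))) .n)))
  .n))) (.c k133 (.q k74 [(.s k3 k2 0 (.s k21 k42 6 (.s k41 k61 5 (.s k23 k43 5 (.d k22 k20 k60 0
  6))))), (.s k3 k2 0 (.s k85 k170 14 (.s k169 k253 13 (.s k86 k252 14 (.d k87 k84 k171 0 13))))),
  (.s k21 k42 6 (.s k85 k170 14 (.s k61 k41 5 (.s k253 k169 13 (.s k125 k189 7 (.d k60 k62 k190 0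
  8))))))] .n) .n))) .n))))) .n))))) (.c k213 (.l (.s k42 k21 6 (.s k191 k127 7 (.s k170 k85 14 (.s
  k149 k128 6 (.d k106 k234 k192 7 14)))))) (.c k234 (.l (.s k21 k42 6 (.s k127 k191 7 (.s k85 k170
  14 (.s k106 k64 6 (.d k149 k213 k192 7 14)))))) (.c k240 (.q k165 [(.s k21 k42 6 (.s k85 k170 14
  (.s k149 k213 7 (.s k127 k191 7 (.d k106 k64 k192 6 14))))), (.s k170 k85 14 (.s k191 k127 7 (.s
  k149 k128 6 (.s k181 k133 3 (.s k175 k160 2 (.s k143 k159 3 (.d k176 k186 k154 2 6))))))), (.s k21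
  k42 6 (.s k85 k170 14 (.s k5 k245 11 (.s k53 k37 3 (.s k149 k213 7 (.s k197 k101 11 (.d k133 k181
  k69 3 7)))))))] (.c k85 (.q k3 [(.s k1 k2 0 (.s k21 k42 6 (.s k41 k61 5 (.s k23 k43 5 (.d k22 k20
  k60 0 6))))), (.s k23 k43 5 (.s k87 k171 13 (.s k151 k215 7 (.s k107 k195 13 (.d k127 k67 k191 5
  7)))))] (.c k20 (.l (.s k2 k1 0 (.s k42 k21 6 (.s k22 k62 5 (.s k41 k60 6 (.d k43 k23 k40 5
  0)))))) (.c k23 (.f k21 k42 6 (.q k51 [(.s k17 k34 4 (.s k25 k29 1 (.s k55 k59 1 (.d k38 k4 k12 4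
  6)))), (.s k2 k1 0 (.s k34 k17 4 (.s k18 k50 3 (.s k33 k48 4 (.d k35 k32 k19 0 3))))), (.s k1 k2 0
  (.s k41 k61 5 (.s k35 k19 3 (.s k38 k44 2 (.d k55 k59 k4 1 4)))))] (.c k80 (.q k95 [(.s k17 k34 4
  (.s k25 k29 1 (.s k55 k59 1 (.d k38 k4 k12 4 6)))), (.s k2 k1 0 (.s k34 k17 4 (.s k18 k50 3 (.s
  k33 k48 4 (.d k35 k32 k19 0 3))))), (.s k1 k2 0 (.s k41 k61 5 (.s k35 k19 3 (.s k38 k44 2 (.d k55
  k59 k4 1 4)))))] .n) (.c k95 (.q k80 [(.s k17 k34 4 (.s k25 k29 1 (.s k55 k59 1 (.d k38 k4 k12 4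
  6)))), (.s k2 k1 0 (.s k34 k17 4 (.s k18 k50 3 (.s k33 k48 4 (.d k35 k32 k19 0 3))))), (.s k1 k2 0
  (.s k41 k61 5 (.s k35 k19 3 (.s k38 k44 2 (.d k55 k59 k4 1 4)))))] .n) .n)))) (.c k43 (.q k51 [(.s
  k1 k2 0 (.s k17 k34 4 (.s k33 k49 3 (.s k19 k35 3 (.d k18 k16 k48 0 4))))), (.s k17 k34 4 (.s k21
  k42 6 (.s k25 k29 1 (.s k38 k12 6 (.d k55 k59 k4 1 4))))), (.s k19 k35 3 (.s k87 k171 13 (.s k155
  k223 9 (.s k103 k207 13 (.d k119 k71 k187 3 9)))))] (.c k80 (.q k95 [(.s k1 k2 0 (.s k17 k34 4 (.s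
  k33 k49 3 (.s k19 k35 3 (.d k18 k16 k48 0 4))))), (.s k17 k34 4 (.s k21 k42 6 (.s k25 k29 1 (.s
  k38 k12 6 (.d k55 k59 k4 1 4))))), (.s k19 k35 3 (.s k87 k171 13 (.s k155 k223 9 (.s k103 k207 13
  (.d k119 k71 k187 3 9)))))] .n) (.c k95 (.q k80 [(.s k1 k2 0 (.s k17 k34 4 (.s k33 k49 3 (.s k19
  k35 3 (.d k18 k16 k48 0 4))))), (.s k17 k34 4 (.s k21 k42 6 (.s k25 k29 1 (.s k38 k12 6 (.d k55
  k59 k4 1 4))))), (.s k19 k35 3 (.s k87 k171 13 (.s k155 k223 9 (.s k103 k207 13 (.d k119 k71 k187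
  3 9)))))] .n) .n))) (.c k80 (.q k95 [(.s k1 k2 0 (.s k21 k42 6 (.s k41 k61 5 (.s k23 k43 5 (.d k22
  k20 k60 0 6))))), (.s k87 k171 13 (.s k127 k191 7 (.s k107 k67 5 (.s k79 k111 3 (.s k91 k83 1 (.s
  k123 k75 3 (.d k115 k119 k103 1 5)))))))] .n) (.c k95 (.q k80 [(.s k1 k2 0 (.s k21 k42 6 (.s k41
  k61 5 (.s k23 k43 5 (.d k22 k20 k60 0 6))))), (.s k23 k43 5 (.s k87 k171 13 (.s k151 k215 7 (.s
  k107 k195 13 (.d k127 k67 k191 5 7)))))] (.c k20 (.l (.s k2 k1 0 (.s k42 k21 6 (.s k22 k62 5 (.s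
  k41 k60 6 (.d k43 k23 k40 5 0)))))) (.c k23 (.q k51 [(.s k1 k2 0 (.s k17 k34 4 (.s k33 k49 3 (.s
  k19 k35 3 (.d k18 k16 k48 0 4))))), (.s k17 k34 4 (.s k21 k42 6 (.s k25 k29 1 (.s k38 k12 6 (.d
  k55 k59 k4 1 4))))), (.s k19 k35 3 (.s k87 k171 13 (.s k155 k223 9 (.s k103 k207 13 (.d k119 k71
  k187 3 9)))))] .n) (.c k43 (.q k51 [(.s k1 k2 0 (.s k17 k34 4 (.s k33 k49 3 (.s k19 k35 3 (.d k18
  k16 k48 0 4))))), (.s k17 k34 4 (.s k21 k42 6 (.s k25 k29 1 (.s k38 k12 6 (.d k55 k59 k4 1 4))))),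
  (.s k19 k35 3 (.s k87 k171 13 (.s k155 k223 9 (.s k103 k207 13 (.d k119 k71 k187 3 9)))))] .n)
  .n)))) .n)))))) (.c k106 (.q k3 [(.s k1 k2 0 (.s k21 k42 6 (.s k41 k61 5 (.s k23 k43 5 (.d k22 k20
  k60 0 6))))), (.s k23 k43 5 (.s k87 k171 13 (.s k151 k215 7 (.s k107 k195 13 (.d k127 k67 k191 5
  7))))), (.s k1 k2 0 (.s k85 k170 14 (.s k169 k253 13 (.s k86 k252 14 (.d k87 k84 k171 0 13)))))]
  (.c k74 (.q k122 [(.s k1 k2 0 (.s k21 k42 6 (.s k41 k61 5 (.s k23 k43 5 (.d k22 k20 k60 0 6))))),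
  (.s k23 k43 5 (.s k87 k171 13 (.s k151 k215 7 (.s k107 k195 13 (.d k127 k67 k191 5 7))))), (.s k1
  k2 0 (.s k85 k170 14 (.s k169 k253 13 (.s k86 k252 14 (.d k87 k84 k171 0 13)))))] (.c k133 (.q
  k192 [(.s k1 k2 0 (.s k21 k42 6 (.s k41 k61 5 (.s k23 k43 5 (.d k22 k20 k60 0 6))))), (.s k64 k128
  7 (.s k66 k129 8 (.s k87 k171 13 (.s k127 k191 7 (.d k67 k65 k107 0 5)))))] (.c k170 (.l (.s k1 k2
  0 (.s k128 k64 7 (.s k129 k66 8 (.s k65 k193 7 (.d k130 k131 k195 0 8)))))) .n)) (.c k169 (.l (.s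
  k1 k2 0 (.s k21 k42 6 (.s k41 k61 5 (.s k22 k60 6 (.d k23 k20 k43 0 5)))))) (.c k192 (.q k133 [(.s
  k21 k42 6 (.s k149 k181 3 (.d k85 k170 k213 14 7))), (.s k2 k1 0 (.s k42 k21 6 (.s k22 k62 5 (.s
  k41 k60 6 (.d k43 k40 k23 0 5))))), (.s k170 k85 14 (.s k149 k181 3 (.d k191 k127 k128 7 6)))] (.c
  k208 (.q k224 [(.s k21 k42 6 (.s k149 k181 3 (.d k85 k170 k213 14 7))), (.s k2 k1 0 (.s k42 k21 6
  (.s k22 k62 5 (.s k41 k60 6 (.d k43 k40 k23 0 5))))), (.s k170 k85 14 (.s k149 k181 3 (.d k191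
  k127 k128 7 6)))] (.c k31 (.l (.s k149 k181 3 (.s k21 k42 6 (.d k85 k170 k213 14 7)))) (.c k149
  (.q k31 [(.s k1 k2 0 (.s k21 k42 6 (.s k23 k43 5 (.s k22 k20 0 (.d k41 k61 k60 5 6))))), (.s k21
  k42 6 (.s k170 k85 14 (.s k16 k26 2 (.s k160 k175 2 (.d k32 k48 k96 3 7))))), (.s k2 k1 0 (.s k170
  k85 14 (.s k86 k254 13 (.s k169 k252 14 (.d k171 k168 k87 0 13)))))] (.c k21 (.l (.s k1 k2 0 (.s
  k85 k170 14 (.s k169 k253 13 (.s k86 k252 14 (.d k87 k84 k171 0 13)))))) (.c k170 (.l (.s k2 k1 0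
  (.s k42 k21 6 (.s k22 k62 5 (.s k41 k60 6 (.d k43 k40 k23 0 5)))))) .n))) .n))) (.c k224 (.q k208
  [(.s k21 k42 6 (.s k149 k181 3 (.d k85 k170 k213 14 7))), (.s k2 k1 0 (.s k42 k21 6 (.s k22 k62 5
  (.s k41 k60 6 (.d k43 k40 k23 0 5))))), (.s k170 k85 14 (.s k149 k181 3 (.d k191 k127 k128 7 6)))]
  .n) .n))) .n)))) (.c k122 (.q k74 [(.s k1 k2 0 (.s k21 k42 6 (.s k41 k61 5 (.s k23 k43 5 (.d k22
  k20 k60 0 6))))), (.s k23 k43 5 (.s k87 k171 13 (.s k151 k215 7 (.s k107 k195 13 (.d k127 k67 k191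
  5 7))))), (.s k1 k2 0 (.s k85 k170 14 (.s k169 k253 13 (.s k86 k252 14 (.d k87 k84 k171 0 13)))))]
  (.c k169 (.l (.s k1 k2 0 (.s k21 k42 6 (.s k41 k61 5 (.s k22 k60 6 (.d k23 k20 k43 0 5)))))) .n))
  (.c k169 (.l (.s k1 k2 0 (.s k21 k42 6 (.s k41 k61 5 (.s k22 k60 6 (.d k23 k20 k43 0 5))))))
  .n)))) (.c k149 (.f k21 k42 6 (.f k85 k170 14 (.l (.s k5 k245 11 (.s k37 k53 3 (.s k101 k229 7 (.s
  k117 k69 3 (.s k48 k186 10 (.s k16 k32 3 (.d k154 k207 k223 14 10)))))))))) (.c k170 (.f k191 k127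
  7 (.q k149 [(.s k21 k42 6 (.s k213 k85 7 (.d k192 k234 k106 6 14))), (.s k181 k133 3 (.s k176 k186
  2 (.s k154 k143 6 (.s k144 k159 2 (.s k128 k160 3 (.d k192 k64 k106 7 14)))))), (.s k21 k42 6 (.s
  k85 k213 7 (.s k5 k245 11 (.s k53 k37 3 (.s k197 k101 11 (.d k133 k181 k69 3 7))))))] (.c k10 (.q
  k250 [(.s k21 k42 6 (.s k213 k85 7 (.d k192 k234 k106 6 14))), (.s k181 k133 3 (.s k186 k176 2 (.s
  k48 k117 10 (.d k58 k122 k53 7 2))))] (.c k58 (.l (.s k192 k106 14 (.s k181 k133 3 (.s k176 k186 2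
  (.s k154 k143 6 (.s k144 k159 2 (.d k128 k64 k160 7 3))))))) (.c k192 (.l (.s k21 k42 6 (.s k85
  k213 7 (.s k5 k245 11 (.s k53 k37 3 (.s k197 k101 11 (.d k133 k181 k69 3 7))))))) .n))) (.c k106
  (.l (.s k181 k133 3 (.s k186 k176 2 (.s k48 k117 10 (.s k53 k58 2 (.s k101 k197 11 (.s k37 k229 7
  (.d k21 k5 k42 3 6)))))))) (.c k250 (.q k10 [(.s k21 k42 6 (.s k213 k85 7 (.d k192 k234 k106 6
  14))), (.s k42 k21 6 (.s k58 k26 3 (.s k48 k53 2 (.s k186 k117 10 (.d k181 k176 k133 2 3))))), (.s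
  k181 k133 3 (.s k176 k186 2 (.s k154 k143 6 (.s k144 k159 2 (.s k128 k160 3 (.d k192 k64 k106 7
  14))))))] .n) .n))))) .n))))) .n))))))))))))))

def t96 : T TT 256 :=
  (.q k60 [(.s k20 k40 5 (.s k85 k170 14 (.s k150 k215 8 (.s k125 k190 8 (.d k105 k65 k195 5
  14)))))] (.c k20 (.q k21 [(.s k63 k42 6 (.s k85 k170 14 (.s k149 k213 7 (.s k127 k191 7 (.d k106
  k64 k192 6 14))))), (.s k85 k170 14 (.s k149 k213 7 (.s k125 k190 8 (.s k105 k65 5 (.s k61 k193 13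
  (.s k1 k41 5 (.d k253 k189 k169 7 13))))))), (.s k63 k42 6 (.s k61 k62 0 (.s k125 k190 8 (.s k189
  k253 7 (.s k126 k252 8 (.d k127 k124 k191 0 7))))))] .n) (.c k40 (.q k21 [(.s k63 k42 6 (.s k85
  k170 14 (.s k149 k213 7 (.s k127 k191 7 (.d k106 k64 k192 6 14))))), (.s k63 k42 6 (.s k61 k62 0
  (.s k125 k190 8 (.s k189 k253 7 (.s k126 k252 8 (.d k127 k124 k191 0 7)))))), (.s k85 k170 14 (.s
  k149 k213 7 (.s k125 k190 8 (.s k105 k65 5 (.s k61 k193 13 (.d k63 k62 k42 0 6)))))), (.s k85 k170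
  14 (.s k149 k213 7 (.s k125 k190 8 (.s k105 k65 5 (.s k61 k193 13 (.s k253 k189 7 (.d k1 k41 k169
  5 13)))))))] .n) (.c k65 (.l (.s k40 k20 5 (.s k170 k85 14 (.s k105 k235 8 (.s k150 k195 14 (.d
  k190 k125 k130 8 5)))))) (.c k85 (.f k125 k190 8 (.f k20 k40 5 (.q k4 [(.s k12 k8 1 (.s k36 k52 3
  (.s k28 k44 3 (.d k24 k16 k48 1 5)))), (.s k12 k8 1 (.s k93 k174 12 (.s k109 k77 3 (.s k158 k207
  12 (.d k28 k44 k223 3 8))))), (.s k52 k36 3 (.s k48 k56 1 (.s k117 k186 10 (.s k182 k247 8 (.d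
  k121 k113 k243 1 10)))))] (.c k8 (.q k21 [(.s k42 k63 6 (.s k22 k23 0 (.s k3 k41 6 (.d k2 k1 k62 0
  5)))), (.s k52 k36 3 (.s k38 k55 4 (.s k22 k23 0 (.s k6 k54 3 (.d k7 k5 k37 0 4))))), (.s k63 k42
  6 (.s k52 k36 3 (.s k55 k38 4 (.s k54 k53 0 (.d k51 k59 k57 1 2)))))] (.c k24 (.q k56 [(.d k52 k48
  k36 1 3), (.s k42 k63 6 (.s k22 k23 0 (.s k2 k62 5 (.d k3 k1 k41 0 6))))] .n) (.c k56 (.q k24 [(.s
  k36 k52 3 (.s k48 k12 5 (.d k16 k28 k32 1 3))), (.s k42 k63 6 (.s k22 k23 0 (.s k2 k62 5 (.d k3 k1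
  k41 0 6))))] .n) .n))) (.c k24 (.l (.s k8 k12 1 (.s k52 k36 3 (.s k48 k56 1 (.s k117 k186 10 (.s
  k182 k247 8 (.d k121 k113 k243 1 10))))))) (.c k44 (.l (.s k12 k8 1 (.s k36 k52 3 (.s k24 k48 5
  (.s k93 k174 12 (.s k28 k16 1 (.s k109 k77 3 (.d k158 k223 k207 8 12)))))))) (.c k56 (.l (.s k36
  k52 3 (.s k12 k8 1 (.s k24 k48 5 (.d k28 k16 k44 1 3))))) .n))))))) (.c k105 (.q k251 [(.s k170
  k85 14 (.s k89 k8 12 (.s k243 k247 1 (.s k162 k81 12 (.d k166 k174 k12 1 14))))), (.s k125 k190 8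
  (.s k243 k247 1 (.s k121 k182 10 (.s k186 k56 8 (.d k117 k113 k48 1 10))))), (.s k40 k20 5 (.s
  k170 k85 14 (.s k8 k89 12 (.s k56 k24 3 (.s k48 k52 1 (.d k186 k121 k117 8 10))))))] (.c k125 (.l
  (.s k40 k20 5 (.s k243 k247 1 (.s k121 k182 10 (.s k56 k186 8 (.s k8 k24 3 (.d k170 k89 k85 12
  14))))))) .n)) (.c k125 (.q k21 [(.s k20 k40 5 (.s k42 k63 6 (.s k22 k23 0 (.s k2 k62 5 (.d k3 k1
  k41 0 6))))), (.s k63 k42 6 (.s k85 k170 14 (.s k149 k213 7 (.s k106 k192 14 (.d k127 k64 k191 6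
  7))))), (.s k20 k40 5 (.s k85 k170 14 (.s k22 k23 0 (.s k150 k215 8 (.s k86 k214 7 (.s k87 k84 0
  (.d k3 k41 k171 6 13)))))))] .n) (.c k150 (.q k4 [(.s k12 k8 1 (.s k20 k40 5 (.s k28 k44 3 (.s k24
  k16 1 (.d k36 k52 k48 3 5))))), (.s k12 k8 1 (.s k85 k170 14 (.s k166 k247 12 (.s k89 k243 14 (.d
  k93 k81 k174 1 12))))), (.s k20 k40 5 (.s k85 k170 14 (.s k52 k36 3 (.s k247 k166 12 (.s k182 k117
  8 (.d k243 k251 k121 1 10))))))] .n) (.c k170 (.q k4 [(.s k12 k8 1 (.s k20 k40 5 (.s k36 k52 3 (.s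
  k28 k44 3 (.d k24 k16 k48 1 5))))), (.s k12 k8 1 (.s k28 k44 3 (.s k93 k174 12 (.s k158 k223 8 (.s
  k109 k207 12 (.d k125 k77 k190 3 8)))))), (.s k20 k40 5 (.s k52 k36 3 (.s k48 k56 1 (.s k117 k186
  10 (.s k182 k247 8 (.s k121 k243 10 (.d k125 k113 k190 1 8)))))))] (.c k8 (.q k21 [(.s k40 k20 5
  (.s k42 k63 6 (.s k41 k43 0 (.s k3 k22 6 (.d k1 k2 k61 0 5))))), (.s k20 k40 5 (.s k52 k36 3 (.s
  k38 k55 4 (.s k22 k23 0 (.s k6 k54 3 (.d k7 k5 k37 0 4)))))), (.s k63 k42 6 (.s k61 k62 0 (.s k125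
  k190 8 (.s k189 k253 7 (.s k126 k252 8 (.d k127 k124 k191 0 7))))))] (.c k22 (.l (.s k20 k40 5 (.s
  k63 k42 6 (.s k52 k36 3 (.s k55 k38 4 (.s k54 k53 0 (.d k51 k59 k57 1 2))))))) (.c k89 (.q k251
  [(.s k40 k20 5 (.s k42 k63 6 (.s k41 k43 0 (.s k1 k61 5 (.d k3 k2 k22 0 6))))), (.s k20 k40 5 (.s
  k52 k36 3 (.s k56 k48 1 (.s k121 k186 8 (.d k243 k247 k182 1 10))))), (.s k63 k42 6 (.s k55 k38 4
  (.s k59 k51 1 (.s k123 k187 7 (.d k243 k247 k183 1 9)))))] .n) (.c k251 (.q k89 [(.s k40 k20 5 (.s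
  k42 k63 6 (.s k41 k43 0 (.s k3 k22 6 (.d k1 k2 k61 0 5))))), (.s k20 k40 5 (.s k52 k36 3 (.s k38
  k55 4 (.s k22 k23 0 (.s k6 k54 3 (.d k7 k5 k37 0 4)))))), (.s k63 k42 6 (.s k61 k62 0 (.s k125
  k190 8 (.s k189 k253 7 (.s k126 k252 8 (.d k127 k124 k191 0 7))))))] (.c k22 (.l (.s k20 k40 5 (.s
  k63 k42 6 (.s k52 k36 3 (.s k55 k38 4 (.s k54 k53 0 (.d k51 k59 k57 1 2))))))) .n)) .n)))) (.c k44
  (.q k21 [(.s k12 k8 1 (.s k42 k63 6 (.s k38 k55 4 (.s k51 k25 6 (.d k34 k46 k17 1 4))))), (.s k20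
  k40 5 (.s k42 k63 6 (.s k22 k23 0 (.s k2 k62 5 (.d k3 k1 k41 0 6))))), (.s k12 k8 1 (.s k20 k40 5
  (.s k38 k55 4 (.s k22 k23 0 (.s k6 k54 3 (.d k3 k9 k41 2 6))))))] .n) (.c k251 (.l (.s k20 k40 5
  (.s k52 k36 3 (.s k48 k56 1 (.s k125 k190 8 (.s k117 k186 10 (.s k121 k113 1 (.d k182 k247 k243 8
  10)))))))) .n)))) (.c k190 (.q k4 [(.s k12 k8 1 (.s k20 k40 5 (.s k36 k52 3 (.s k28 k44 3 (.d k24
  k16 k48 1 5))))), (.s k12 k8 1 (.s k85 k170 14 (.s k166 k247 12 (.s k89 k243 14 (.d k93 k81 k174 1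
  12))))), (.s k20 k40 5 (.s k85 k170 14 (.s k52 k36 3 (.s k247 k166 12 (.s k117 k182 8 (.d k48 k186
  k56 10 1))))))] .n) (.c k195 (.f k20 k40 5 (.f k125 k190 8 (.q k4 [(.s k12 k8 1 (.s k36 k52 3 (.s
  k28 k44 3 (.d k24 k16 k48 1 5)))), (.s k12 k8 1 (.s k85 k170 14 (.s k166 k247 12 (.s k89 k243 14
  (.d k93 k81 k174 1 12))))), (.s k85 k170 14 (.s k52 k36 3 (.s k247 k166 12 (.s k117 k182 8 (.d k48
  k186 k56 10 1)))))] (.c k56 (.l (.s k36 k52 3 (.s k12 k8 1 (.s k24 k48 5 (.d k28 k16 k44 1 3)))))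
  (.c k75 (.q k135 [(.s k12 k8 1 (.s k36 k52 3 (.s k28 k44 3 (.d k24 k16 k48 1 5)))), (.s k12 k8 1
  (.s k85 k170 14 (.s k166 k247 12 (.s k89 k243 14 (.d k93 k81 k174 1 12))))), (.s k85 k170 14 (.s
  k52 k36 3 (.s k247 k166 12 (.s k117 k182 8 (.d k48 k186 k56 10 1)))))] (.c k56 (.l (.s k36 k52 3
  (.s k12 k8 1 (.s k24 k48 5 (.d k28 k16 k44 1 3))))) .n)) (.c k135 (.q k75 [(.s k12 k8 1 (.s k36
  k52 3 (.s k28 k44 3 (.d k24 k16 k48 1 5)))), (.s k12 k8 1 (.s k85 k170 14 (.s k166 k247 12 (.s k89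
  k243 14 (.d k93 k81 k174 1 12))))), (.s k85 k170 14 (.s k52 k36 3 (.s k247 k166 12 (.s k117 k182 8
  (.d k48 k186 k56 10 1)))))] (.c k56 (.l (.s k36 k52 3 (.s k12 k8 1 (.s k24 k48 5 (.d k28 k16 k44 1
  3))))) .n)) .n)))))) (.c k215 (.l (.s k40 k20 5 (.s k190 k125 8 (.s k170 k85 14 (.s k150 k130 5
  (.d k105 k235 k195 8 14)))))) (.c k235 (.l (.s k20 k40 5 (.s k125 k190 8 (.s k85 k170 14 (.s k105
  k65 5 (.d k150 k215 k195 8 14)))))) .n)))))))))))))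

def t97 : T TT 256 :=
  (.q k60 [(.s k20 k40 5 (.s k85 k170 14 (.s k150 k215 8 (.s k125 k190 8 (.d k105 k65 k195 5
  14)))))] (.c k20 (.q k48 [(.s k52 k56 1 (.s k117 k186 10 (.s k182 k247 8 (.s k121 k243 10 (.d k125
  k113 k190 1 8))))), (.s k16 k32 3 (.s k85 k170 14 (.s k154 k223 10 (.s k101 k207 14 (.d k117 k69
  k186 3 10))))), (.s k16 k32 3 (.s k85 k170 14 (.s k154 k223 10 (.s k56 k52 1 (.s k105 k203 12 (.d
  k125 k65 k190 5 8))))))] .n) (.c k40 (.q k48 [(.s k32 k16 3 (.s k186 k117 10 (.s k170 k85 14 (.s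
  k154 k138 3 (.d k101 k239 k207 10 14))))), (.s k52 k56 1 (.s k117 k186 10 (.s k182 k247 8 (.s k121
  k243 10 (.d k125 k113 k190 1 8))))), (.s k16 k32 3 (.s k85 k170 14 (.s k154 k223 10 (.s k56 k52 1
  (.s k105 k203 12 (.d k125 k65 k190 5 8))))))] .n) (.c k65 (.l (.s k40 k20 5 (.s k170 k85 14 (.s
  k105 k235 8 (.s k150 k195 14 (.d k190 k125 k130 8 5)))))) (.c k85 (.f k125 k190 8 (.f k20 k40 5
  (.q k48 [(.s k16 k32 3 (.s k24 k28 1 (.s k52 k56 1 (.d k36 k4 k12 3 5)))), (.s k117 k186 10 (.s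
  k121 k113 1 (.s k182 k243 10 (.d k52 k56 k247 1 8))))] (.c k52 (.q k21 [(.s k63 k42 6 (.s k22 k23
  0 (.s k41 k3 6 (.d k61 k62 k1 0 5)))), (.s k16 k32 3 (.s k28 k24 1 (.s k26 k31 2 (.s k22 k23 0 (.s
  k18 k30 1 (.d k19 k17 k25 0 2)))))), (.s k63 k42 6 (.s k127 k191 7 (.s k126 k124 0 (.s k189 k252 8
  (.d k61 k62 k253 0 7)))))] (.c k63 (.l (.s k16 k32 3 (.s k22 k23 0 (.s k3 k41 6 (.s k18 k33 4 (.d
  k26 k30 k31 1 2)))))) .n)) (.c k56 (.l (.s k16 k32 3 (.s k24 k28 1 (.s k36 k12 5 (.s k52 k4 3 (.s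
  k117 k186 10 (.s k121 k113 1 (.d k182 k247 k243 8 10)))))))) .n))))) (.c k105 (.f k125 k190 8 (.q
  k48 [(.s k52 k56 1 (.s k117 k186 10 (.s k182 k247 8 (.d k121 k113 k243 1 10)))), (.s k16 k32 3 (.s
  k20 k40 5 (.s k24 k28 1 (.s k36 k12 5 (.d k52 k56 k4 1 3))))), (.s k16 k32 3 (.s k85 k170 14 (.s
  k154 k223 10 (.s k101 k207 14 (.d k117 k69 k186 3 10)))))] (.c k101 (.q k109 [(.s k52 k56 1 (.s
  k117 k186 10 (.s k182 k247 8 (.d k121 k113 k243 1 10)))), (.s k207 k158 12 (.s k239 k223 3 (.s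
  k174 k44 8 (.d k93 k77 k12 3 12))))] .n) (.c k109 (.q k101 [(.s k32 k16 3 (.d k170 k239 k85 10
  14)), (.s k117 k186 10 (.s k69 k85 3 (.d k207 k138 k154 10 14)))] (.c k85 (.l (.s k32 k16 3 (.s
  k239 k170 10 (.d k207 k223 k154 3 14)))) .n)) .n)))) (.c k125 (.q k48 [(.s k16 k32 3 (.s k20 k40 5
  (.s k24 k28 1 (.s k52 k56 1 (.d k36 k4 k12 3 5))))), (.s k16 k32 3 (.s k85 k170 14 (.s k154 k223
  10 (.s k101 k207 14 (.d k117 k69 k186 3 10))))), (.s k20 k40 5 (.s k85 k170 14 (.s k150 k215 8 (.s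
  k52 k56 1 (.s k117 k186 10 (.d k101 k69 k199 3 12))))))] .n) (.c k150 (.q k48 [(.s k52 k56 1 (.s
  k117 k186 10 (.s k182 k247 8 (.s k121 k243 10 (.d k125 k113 k190 1 8))))), (.s k16 k32 3 (.s k20
  k40 5 (.s k24 k28 1 (.s k36 k12 5 (.d k52 k56 k4 1 3))))), (.s k16 k32 3 (.s k85 k170 14 (.s k154
  k223 10 (.s k101 k207 14 (.d k117 k69 k186 3 10)))))] .n) (.c k170 (.q k48 [(.s k32 k16 3 (.s k40
  k20 5 (.s k36 k44 1 (.s k24 k12 5 (.d k56 k52 k8 1 3))))), (.s k52 k56 1 (.s k117 k186 10 (.s k182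
  k247 8 (.s k121 k243 10 (.d k125 k113 k190 1 8)))))] (.c k52 (.q k21 [(.s k20 k40 5 (.s k42 k63 6
  (.s k22 k23 0 (.s k2 k62 5 (.d k3 k1 k41 0 6))))), (.s k63 k42 6 (.s k53 k58 2 (.s k117 k186 10
  (.s k181 k245 7 (.s k122 k240 10 (.d k127 k112 k191 2 7))))))] (.c k42 (.l (.s k16 k32 3 (.s k20
  k40 5 (.s k26 k31 2 (.s k22 k23 0 (.s k18 k30 1 (.d k3 k41 k33 6 4))))))) (.c k63 (.l (.s k16 k32
  3 (.s k20 k40 5 (.s k22 k23 0 (.s k3 k41 6 (.s k18 k33 4 (.d k26 k30 k31 1 2))))))) .n))) (.c k56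
  (.q k21 [(.s k40 k20 5 (.s k42 k63 6 (.s k41 k43 0 (.s k1 k61 5 (.d k3 k2 k22 0 6))))), (.s k63
  k42 6 (.s k53 k58 2 (.s k117 k186 10 (.s k181 k245 7 (.s k122 k240 10 (.d k127 k112 k191 2
  7))))))] (.c k42 (.l (.s k16 k32 3 (.s k20 k40 5 (.s k26 k31 2 (.s k22 k23 0 (.s k18 k30 1 (.d k3
  k41 k33 6 4))))))) (.c k63 (.l (.s k16 k32 3 (.s k20 k40 5 (.s k22 k23 0 (.s k3 k41 6 (.s k18 k33
  4 (.d k26 k30 k31 1 2))))))) .n))) .n))) (.c k190 (.q k48 [(.s k16 k32 3 (.s k20 k40 5 (.s k24 k28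
  1 (.s k52 k56 1 (.d k36 k4 k12 3 5))))), (.s k16 k32 3 (.s k85 k170 14 (.s k154 k223 10 (.s k101
  k207 14 (.d k117 k69 k186 3 10))))), (.s k20 k40 5 (.s k85 k170 14 (.s k150 k215 8 (.s k52 k56 1
  (.s k117 k186 10 (.d k101 k69 k199 3 12))))))] .n) (.c k195 (.f k20 k40 5 (.f k125 k190 8 (.q k48
  [(.s k16 k32 3 (.s k24 k28 1 (.s k52 k56 1 (.d k36 k4 k12 3 5)))), (.s k52 k56 1 (.s k117 k186 10
  (.s k182 k247 8 (.d k121 k113 k243 1 10)))), (.s k16 k32 3 (.s k85 k170 14 (.s k154 k223 10 (.s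
  k101 k207 14 (.d k117 k69 k186 3 10)))))] (.c k75 (.q k135 [(.s k16 k32 3 (.s k24 k28 1 (.s k52
  k56 1 (.d k36 k4 k12 3 5)))), (.s k52 k56 1 (.s k117 k186 10 (.s k182 k247 8 (.d k121 k113 k243 1
  10)))), (.s k16 k32 3 (.s k85 k170 14 (.s k154 k223 10 (.s k101 k207 14 (.d k117 k69 k186 3
  10)))))] .n) (.c k135 (.q k75 [(.s k16 k32 3 (.s k24 k28 1 (.s k52 k56 1 (.d k36 k4 k12 3 5)))),
  (.s k52 k56 1 (.s k117 k186 10 (.s k182 k247 8 (.d k121 k113 k243 1 10)))), (.s k16 k32 3 (.s k85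
  k170 14 (.s k154 k223 10 (.s k101 k207 14 (.d k117 k69 k186 3 10)))))] .n) .n))))) (.c k215 (.l
  (.s k40 k20 5 (.s k190 k125 8 (.s k170 k85 14 (.s k150 k130 5 (.d k105 k235 k195 8 14)))))) (.c
  k235 (.l (.s k20 k40 5 (.s k125 k190 8 (.s k85 k170 14 (.s k105 k65 5 (.d k150 k215 k195 8
  14)))))) .n)))))))))))))

def t102 : T TT 256 :=
  (.q k60 [(.s k20 k40 5 (.s k85 k170 14 (.s k150 k215 8 (.s k125 k190 8 (.d k105 k65 k195 5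
  14))))), (.s k40 k20 5 (.s k170 k85 14 (.s k105 k235 8 (.s k150 k195 14 (.d k190 k130 k125 5
  8)))))] (.c k20 (.q k48 [(.s k52 k56 1 (.s k117 k186 10 (.s k182 k247 8 (.s k121 k243 10 (.d k125
  k113 k190 1 8))))), (.s k16 k32 3 (.s k85 k170 14 (.s k154 k223 10 (.s k101 k207 14 (.d k117 k69
  k186 3 10))))), (.s k16 k32 3 (.s k85 k170 14 (.s k154 k223 10 (.s k56 k52 1 (.s k105 k203 12 (.d
  k125 k65 k190 5 8))))))] .n) (.c k40 (.q k48 [(.s k32 k16 3 (.s k186 k117 10 (.s k170 k85 14 (.s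
  k154 k138 3 (.d k101 k239 k207 10 14))))), (.s k52 k56 1 (.s k117 k186 10 (.s k182 k247 8 (.s k121
  k243 10 (.d k125 k113 k190 1 8))))), (.s k16 k32 3 (.s k85 k170 14 (.s k154 k223 10 (.s k56 k52 1
  (.s k105 k203 12 (.d k125 k65 k190 5 8))))))] .n) (.c k85 (.f k125 k190 8 (.f k20 k40 5 (.q k48
  [(.s k16 k32 3 (.s k24 k28 1 (.s k52 k56 1 (.d k36 k4 k12 3 5)))), (.s k117 k186 10 (.s k121 k113
  1 (.s k182 k243 10 (.d k52 k56 k247 1 8))))] (.c k52 (.q k119 [(.s k117 k186 10 (.s k51 k187 9 (.s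
  k54 k57 2 (.s k121 k113 1 (.s k182 k243 10 (.d k118 k116 k246 0 7)))))), (.s k16 k32 3 (.s k51
  k187 9 (.s k17 k34 4 (.s k18 k19 0 (.s k33 k3 4 (.d k49 k50 k1 0 3))))))] (.c k51 (.l (.s k117
  k186 10 (.s k116 k118 0 (.s k252 k184 9 (.s k124 k188 7 (.s k112 k120 1 (.d k127 k126 k122 0
  2))))))) (.c k187 (.l (.s k117 k186 10 (.s k121 k113 1 (.s k118 k116 0 (.s k124 k115 2 (.s k252
  k188 7 (.s k185 k51 10 (.d k253 k254 k49 0 9)))))))) .n))) (.c k56 (.l (.s k16 k32 3 (.s k24 k28 1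
  (.s k36 k12 5 (.s k52 k4 3 (.s k117 k186 10 (.s k121 k113 1 (.d k182 k247 k243 8 10)))))))) (.c
  k68 (.q k119 [(.s k16 k32 3 (.s k24 k28 1 (.s k52 k56 1 (.d k36 k4 k12 3 5)))), (.s k117 k186 10
  (.s k51 k187 9 (.s k49 k50 0 (.s k185 k253 9 (.d k118 k116 k252 0 10)))))] .n) (.c k119 (.q k68
  [(.s k16 k32 3 (.s k24 k28 1 (.s k52 k56 1 (.d k36 k4 k12 3 5)))), (.s k117 k186 10 (.s k121 k113
  1 (.s k182 k243 10 (.d k52 k56 k247 1 8)))), (.s k32 k16 3 (.s k204 k136 9 (.s k100 k152 13 (.s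
  k168 k236 9 (.d k84 k116 k252 3 13)))))] .n) .n))))))) (.c k105 (.f k125 k190 8 (.q k48 [(.s k117
  k186 10 (.s k121 k113 1 (.s k182 k243 10 (.d k52 k56 k247 1 8)))), (.s k16 k32 3 (.s k85 k170 14
  (.s k154 k223 10 (.s k101 k207 14 (.d k117 k69 k186 3 10))))), (.s k16 k32 3 (.s k20 k40 5 (.s k24
  k28 1 (.s k36 k12 5 (.d k52 k56 k4 1 3)))))] (.c k99 (.q k108 [(.s k117 k186 10 (.s k121 k113 1
  (.s k182 k243 10 (.d k52 k56 k247 1 8)))), (.s k16 k32 3 (.s k85 k170 14 (.s k154 k223 10 (.s k101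
  k207 14 (.d k117 k69 k186 3 10))))), (.s k16 k32 3 (.s k20 k40 5 (.s k24 k28 1 (.s k36 k12 5 (.d
  k52 k56 k4 1 3)))))] .n) (.c k108 (.q k99 [(.s k117 k186 10 (.s k121 k113 1 (.s k182 k243 10 (.d
  k52 k56 k247 1 8)))), (.s k16 k32 3 (.s k85 k170 14 (.s k154 k223 10 (.s k101 k207 14 (.d k117 k69
  k186 3 10))))), (.s k16 k32 3 (.s k20 k40 5 (.s k24 k28 1 (.s k36 k12 5 (.d k52 k56 k4 1 3)))))]
  .n) .n)))) (.c k125 (.q k48 [(.s k16 k32 3 (.s k20 k40 5 (.s k24 k28 1 (.s k52 k56 1 (.d k36 k4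
  k12 3 5))))), (.s k16 k32 3 (.s k85 k170 14 (.s k154 k223 10 (.s k101 k207 14 (.d k117 k69 k186 3
  10))))), (.s k20 k40 5 (.s k85 k170 14 (.s k150 k215 8 (.s k52 k56 1 (.s k117 k186 10 (.d k101 k69
  k199 3 12))))))] .n) (.c k150 (.f k20 k40 5 (.q k48 [(.s k52 k56 1 (.s k16 k32 3 (.s k36 k4 3 (.d
  k24 k28 k12 1 5)))), (.s k32 k16 3 (.s k170 k85 14 (.s k101 k239 10 (.s k154 k207 14 (.d k186 k138
  k117 3 10))))), (.s k85 k170 14 (.s k52 k56 1 (.s k117 k186 10 (.s k247 k182 8 (.d k4 k166 k36 12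
  3)))))] (.c k54 (.q k198 [(.s k52 k56 1 (.s k16 k32 3 (.s k36 k4 3 (.d k24 k28 k12 1 5)))), (.s
  k32 k16 3 (.s k170 k85 14 (.s k101 k239 10 (.s k154 k207 14 (.d k186 k138 k117 3 10))))), (.s k85
  k170 14 (.s k52 k56 1 (.s k117 k186 10 (.s k247 k182 8 (.d k4 k166 k36 12 3)))))] .n) (.c k198 (.q
  k54 [(.s k52 k56 1 (.s k16 k32 3 (.s k36 k4 3 (.d k24 k28 k12 1 5)))), (.s k32 k16 3 (.s k170 k85
  14 (.s k101 k239 10 (.s k154 k207 14 (.d k186 k138 k117 3 10))))), (.s k85 k170 14 (.s k52 k56 1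
  (.s k117 k186 10 (.s k247 k182 8 (.d k4 k166 k36 12 3)))))] .n) .n)))) (.c k170 (.q k48 [(.s k32
  k16 3 (.s k40 k20 5 (.s k36 k44 1 (.s k24 k12 5 (.d k56 k52 k8 1 3))))), (.s k52 k56 1 (.s k117
  k186 10 (.s k182 k247 8 (.s k121 k243 10 (.d k125 k113 k190 1 8)))))] (.c k34 (.q k238 [(.s k32
  k16 3 (.s k40 k20 5 (.s k36 k44 1 (.s k24 k12 5 (.d k56 k52 k8 1 3))))), (.s k52 k56 1 (.s k117
  k186 10 (.s k182 k247 8 (.s k121 k243 10 (.d k125 k113 k190 1 8))))), (.s k16 k32 3 (.s k204 k221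
  4 (.s k136 k68 9 (.s k152 k100 13 (.s k84 k220 9 (.d k168 k184 k252 3 13))))))] .n) (.c k52 (.q
  k21 [(.s k20 k40 5 (.s k42 k63 6 (.s k22 k23 0 (.s k2 k62 5 (.d k3 k1 k41 0 6))))), (.s k63 k42 6
  (.s k53 k58 2 (.s k117 k186 10 (.s k181 k245 7 (.s k122 k240 10 (.d k127 k112 k191 2 7))))))] (.c
  k34 (.q k238 [(.s k20 k40 5 (.s k42 k63 6 (.s k22 k23 0 (.s k2 k62 5 (.d k3 k1 k41 0 6))))), (.s
  k16 k32 3 (.s k204 k221 4 (.s k136 k68 9 (.s k152 k100 13 (.s k84 k220 9 (.d k168 k184 k252 3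
  13))))))] .n) (.c k42 (.l (.s k16 k32 3 (.s k20 k40 5 (.s k26 k31 2 (.s k22 k23 0 (.s k18 k30 1
  (.d k3 k41 k33 6 4))))))) (.c k63 (.l (.s k16 k32 3 (.s k20 k40 5 (.s k22 k23 0 (.s k3 k41 6 (.s
  k18 k33 4 (.d k26 k30 k31 1 2))))))) (.c k238 (.q k34 [(.s k32 k16 3 (.s k20 k40 5 (.s k22 k23 0
  (.s k3 k41 6 (.d k33 k35 k18 0 4))))), (.s k51 k17 4 (.s k42 k63 6 (.s k38 k46 1 (.s k4 k55 4 (.d
  k12 k8 k25 1 6)))))] (.c k42 (.l (.s k16 k32 3 (.s k17 k51 4 (.s k18 k19 0 (.s k2 k50 3 (.d k3 k1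
  k33 0 4)))))) .n)) .n))))) (.c k56 (.f k125 k190 8 (.f k20 k40 5 (.l (.s k16 k32 3 (.s k24 k28 1
  (.s k36 k12 5 (.s k52 k4 3 (.s k117 k186 10 (.s k182 k247 8 (.d k121 k113 k243 1 10)))))))))) (.c
  k238 (.q k34 [(.s k52 k56 1 (.s k117 k186 10 (.s k182 k247 8 (.s k121 k243 10 (.d k125 k113 k190 1
  8))))), (.s k16 k32 3 (.s k17 k51 4 (.s k18 k19 0 (.s k3 k33 4 (.d k2 k1 k50 0 3)))))] .n) .n)))))
  (.c k190 (.q k48 [(.s k16 k32 3 (.s k20 k40 5 (.s k24 k28 1 (.s k52 k56 1 (.d k36 k4 k12 3 5))))),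
  (.s k16 k32 3 (.s k85 k170 14 (.s k154 k223 10 (.s k101 k207 14 (.d k117 k69 k186 3 10))))), (.s
  k20 k40 5 (.s k85 k170 14 (.s k150 k215 8 (.s k52 k56 1 (.s k117 k186 10 (.d k101 k69 k199 3
  12))))))] .n) (.c k195 (.f k125 k190 8 (.f k20 k40 5 (.q k48 [(.s k16 k32 3 (.s k24 k28 1 (.s k52
  k56 1 (.d k36 k4 k12 3 5)))), (.s k117 k186 10 (.s k121 k113 1 (.s k182 k243 10 (.d k52 k56 k247 1
  8)))), (.s k16 k32 3 (.s k85 k170 14 (.s k154 k223 10 (.s k101 k207 14 (.d k117 k69 k186 3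
  10)))))] (.c k75 (.q k135 [(.s k16 k32 3 (.s k24 k28 1 (.s k52 k56 1 (.d k36 k4 k12 3 5)))), (.s
  k117 k186 10 (.s k121 k113 1 (.s k182 k243 10 (.d k52 k56 k247 1 8)))), (.s k16 k32 3 (.s k85 k170
  14 (.s k154 k223 10 (.s k101 k207 14 (.d k117 k69 k186 3 10)))))] .n) (.c k135 (.q k75 [(.s k16
  k32 3 (.s k24 k28 1 (.s k52 k56 1 (.d k36 k4 k12 3 5)))), (.s k117 k186 10 (.s k121 k113 1 (.s
  k182 k243 10 (.d k52 k56 k247 1 8)))), (.s k16 k32 3 (.s k85 k170 14 (.s k154 k223 10 (.s k101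
  k207 14 (.d k117 k69 k186 3 10)))))] .n) .n))))) (.c k215 (.l (.s k40 k20 5 (.s k190 k125 8 (.s
  k170 k85 14 (.s k150 k130 5 (.d k105 k235 k195 8 14)))))) (.c k235 (.l (.s k20 k40 5 (.s k125 k190
  8 (.s k85 k170 14 (.s k105 k65 5 (.d k150 k215 k195 8 14)))))) .n))))))))))))

def t112 : T TT 256 :=
  (.q k60 [(.s k20 k40 5 (.s k85 k170 14 (.s k150 k215 8 (.s k125 k190 8 (.d k105 k65 k195 5
  14)))))] (.c k20 (.q k48 [(.s k16 k32 3 (.s k85 k170 14 (.s k154 k223 10 (.s k117 k186 10 (.d k101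
  k69 k207 3 14))))), (.s k52 k56 1 (.s k117 k186 10 (.s k182 k247 8 (.s k121 k243 10 (.d k125 k113
  k190 1 8))))), (.s k16 k32 3 (.s k85 k170 14 (.s k154 k223 10 (.s k56 k52 1 (.s k105 k203 12 (.d
  k125 k65 k190 5 8))))))] .n) (.c k40 (.q k48 [(.s k32 k16 3 (.s k170 k85 14 (.s k101 k239 10 (.s
  k154 k207 14 (.d k186 k138 k117 3 10))))), (.s k52 k56 1 (.s k117 k186 10 (.s k182 k247 8 (.s k121
  k243 10 (.d k125 k113 k190 1 8))))), (.s k16 k32 3 (.s k85 k170 14 (.s k154 k223 10 (.s k56 k52 1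
  (.s k105 k203 12 (.d k125 k65 k190 5 8))))))] .n) (.c k65 (.l (.s k40 k20 5 (.s k170 k85 14 (.s
  k105 k235 8 (.s k150 k195 14 (.d k190 k125 k130 8 5)))))) (.c k85 (.f k20 k40 5 (.f k125 k190 8
  (.q k48 [(.s k16 k32 3 (.s k24 k28 1 (.s k52 k56 1 (.d k36 k4 k12 3 5)))), (.s k117 k186 10 (.s
  k121 k113 1 (.s k182 k243 10 (.d k52 k56 k247 1 8))))] (.c k52 (.q k21 [(.s k63 k42 6 (.s k22 k23
  0 (.s k41 k3 6 (.d k61 k62 k1 0 5)))), (.s k16 k32 3 (.s k28 k24 1 (.s k26 k31 2 (.s k22 k23 0 (.s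
  k18 k30 1 (.d k19 k17 k25 0 2)))))), (.s k63 k42 6 (.s k127 k191 7 (.s k126 k124 0 (.s k189 k252 8
  (.d k61 k62 k253 0 7)))))] (.c k63 (.l (.s k16 k32 3 (.s k22 k23 0 (.s k3 k41 6 (.s k18 k33 4 (.d
  k26 k30 k31 1 2)))))) .n)) (.c k56 (.l (.s k16 k32 3 (.s k24 k28 1 (.s k36 k12 5 (.s k52 k4 3 (.s
  k117 k186 10 (.s k121 k113 1 (.d k182 k247 k243 8 10)))))))) .n))))) (.c k105 (.q k48 [(.s k16 k32
  3 (.s k20 k40 5 (.s k24 k28 1 (.s k36 k12 5 (.d k52 k56 k4 1 3))))), (.s k52 k56 1 (.s k117 k186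
  10 (.s k182 k247 8 (.s k121 k243 10 (.d k125 k113 k190 1 8))))), (.s k16 k32 3 (.s k85 k170 14 (.s
  k154 k223 10 (.s k101 k207 14 (.d k117 k69 k186 3 10)))))] .n) (.c k125 (.q k48 [(.s k16 k32 3 (.s
  k20 k40 5 (.s k24 k28 1 (.s k52 k56 1 (.d k36 k4 k12 3 5))))), (.s k16 k32 3 (.s k85 k170 14 (.s
  k154 k223 10 (.s k101 k207 14 (.d k117 k69 k186 3 10))))), (.s k20 k40 5 (.s k85 k170 14 (.s k150
  k215 8 (.s k52 k56 1 (.s k117 k186 10 (.d k101 k69 k199 3 12))))))] .n) (.c k150 (.q k48 [(.s k16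
  k32 3 (.s k20 k40 5 (.s k52 k56 1 (.s k36 k4 3 (.d k24 k28 k12 1 5))))), (.s k16 k32 3 (.s k85
  k170 14 (.s k154 k223 10 (.s k101 k207 14 (.d k117 k69 k186 3 10))))), (.s k52 k56 1 (.s k117 k186
  10 (.s k182 k247 8 (.s k121 k243 10 (.d k125 k113 k190 1 8)))))] .n) (.c k170 (.q k48 [(.s k32 k16
  3 (.s k40 k20 5 (.s k36 k44 1 (.s k24 k12 5 (.d k56 k52 k8 1 3))))), (.s k52 k56 1 (.s k117 k186
  10 (.s k182 k247 8 (.s k121 k243 10 (.d k125 k113 k190 1 8)))))] (.c k52 (.q k21 [(.s k20 k40 5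
  (.s k42 k63 6 (.s k22 k23 0 (.s k2 k62 5 (.d k3 k1 k41 0 6))))), (.s k63 k42 6 (.s k58 k53 2 (.s
  k186 k117 10 (.s k122 k250 7 (.s k181 k240 10 (.d k191 k127 k176 7 2))))))] (.c k42 (.l (.s k16
  k32 3 (.s k20 k40 5 (.s k26 k31 2 (.s k22 k23 0 (.s k18 k30 1 (.d k3 k41 k33 6 4))))))) (.c k63
  (.l (.s k16 k32 3 (.s k20 k40 5 (.s k22 k23 0 (.s k3 k41 6 (.s k18 k33 4 (.d k26 k30 k31 1
  2))))))) .n))) (.c k56 (.q k21 [(.s k40 k20 5 (.s k42 k63 6 (.s k41 k43 0 (.s k1 k61 5 (.d k3 k2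
  k22 0 6))))), (.s k63 k42 6 (.s k58 k53 2 (.s k186 k117 10 (.s k122 k250 7 (.s k181 k240 10 (.d
  k191 k127 k176 7 2))))))] (.c k42 (.l (.s k16 k32 3 (.s k20 k40 5 (.s k26 k31 2 (.s k22 k23 0 (.s
  k18 k30 1 (.d k3 k41 k33 6 4))))))) (.c k63 (.l (.s k16 k32 3 (.s k20 k40 5 (.s k22 k23 0 (.s k3
  k41 6 (.s k18 k33 4 (.d k26 k30 k31 1 2))))))) .n))) .n))) (.c k190 (.q k48 [(.s k16 k32 3 (.s k20
  k40 5 (.s k24 k28 1 (.s k52 k56 1 (.d k36 k4 k12 3 5))))), (.s k16 k32 3 (.s k85 k170 14 (.s k154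
  k223 10 (.s k101 k207 14 (.d k117 k69 k186 3 10))))), (.s k20 k40 5 (.s k85 k170 14 (.s k150 k215
  8 (.s k52 k56 1 (.s k117 k186 10 (.d k101 k69 k199 3 12))))))] .n) (.c k195 (.f k125 k190 8 (.f
  k20 k40 5 (.q k48 [(.s k16 k32 3 (.s k24 k28 1 (.s k52 k56 1 (.d k36 k4 k12 3 5)))), (.s k117 k186
  10 (.s k121 k113 1 (.s k182 k243 10 (.d k52 k56 k247 1 8)))), (.s k16 k32 3 (.s k85 k170 14 (.s
  k154 k223 10 (.s k101 k207 14 (.d k117 k69 k186 3 10)))))] (.c k75 (.q k135 [(.s k16 k32 3 (.s k24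
  k28 1 (.s k52 k56 1 (.d k36 k4 k12 3 5)))), (.s k117 k186 10 (.s k121 k113 1 (.s k182 k243 10 (.d
  k52 k56 k247 1 8)))), (.s k16 k32 3 (.s k85 k170 14 (.s k154 k223 10 (.s k101 k207 14 (.d k117 k69
  k186 3 10)))))] .n) (.c k135 (.q k75 [(.s k16 k32 3 (.s k24 k28 1 (.s k52 k56 1 (.d k36 k4 k12 3
  5)))), (.s k117 k186 10 (.s k121 k113 1 (.s k182 k243 10 (.d k52 k56 k247 1 8)))), (.s k16 k32 3
  (.s k85 k170 14 (.s k154 k223 10 (.s k101 k207 14 (.d k117 k69 k186 3 10)))))] .n) .n))))) (.c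
  k215 (.l (.s k40 k20 5 (.s k190 k125 8 (.s k170 k85 14 (.s k150 k130 5 (.d k105 k235 k195 8
  14)))))) (.c k235 (.l (.s k20 k40 5 (.s k125 k190 8 (.s k85 k170 14 (.s k105 k65 5 (.d k150 k215
  k195 8 14)))))) .n)))))))))))))

def t113 : T TT 256 :=
  (.q k60 [(.s k20 k40 5 (.s k85 k170 14 (.s k150 k215 8 (.s k125 k190 8 (.d k105 k65 k195 5
  14)))))] (.c k20 (.q k48 [(.s k16 k32 3 (.s k85 k170 14 (.s k154 k223 10 (.s k117 k186 10 (.d k101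
  k69 k207 3 14))))), (.s k56 k52 1 (.s k186 k117 10 (.s k121 k251 8 (.s k182 k243 10 (.d k190 k125
  k178 8 1))))), (.s k16 k32 3 (.s k85 k170 14 (.s k154 k223 10 (.s k56 k52 1 (.s k105 k203 12 (.d
  k125 k65 k190 5 8))))))] .n) (.c k40 (.q k48 [(.s k56 k52 1 (.s k186 k117 10 (.s k121 k251 8 (.s
  k182 k243 10 (.d k190 k125 k178 8 1))))), (.s k16 k32 3 (.s k85 k170 14 (.s k154 k223 10 (.s k101
  k207 14 (.d k117 k69 k186 3 10))))), (.s k16 k32 3 (.s k85 k170 14 (.s k154 k223 10 (.s k56 k52 1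
  (.s k105 k203 12 (.d k125 k65 k190 5 8))))))] .n) (.c k65 (.l (.s k40 k20 5 (.s k170 k85 14 (.s
  k105 k235 8 (.s k150 k195 14 (.d k190 k125 k130 8 5)))))) (.c k85 (.f k20 k40 5 (.f k125 k190 8
  (.q k21 [(.s k63 k42 6 (.s k22 k23 0 (.s k41 k3 6 (.d k61 k62 k1 0 5)))), (.s k63 k42 6 (.s k127
  k191 7 (.s k126 k124 0 (.s k189 k252 8 (.d k61 k62 k253 0 7)))))] (.c k41 (.l (.s k23 k22 0 (.s
  k63 k42 6 (.s k43 k3 5 (.s k127 k191 7 (.s k126 k124 0 (.s k189 k252 8 (.d k61 k62 k253 0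
  7)))))))) (.c k42 (.l (.s k22 k23 0 (.s k41 k3 6 (.s k61 k1 5 (.s k63 k62 0 (.s k127 k191 7 (.s
  k126 k124 0 (.d k189 k253 k252 7 8)))))))) (.c k43 (.l (.s k42 k63 6 (.s k22 k23 0 (.s k3 k41 6
  (.d k2 k1 k62 0 5))))) (.c k61 (.l (.s k42 k63 6 (.s k22 k23 0 (.s k2 k62 5 (.d k3 k1 k41 0 6)))))
  (.c k62 (.l (.s k63 k42 6 (.s k22 k23 0 (.s k41 k3 6 (.s k61 k1 5 (.s k127 k191 7 (.s k126 k124 0
  (.d k189 k253 k252 7 8)))))))) (.c k63 (.q k48 [(.s k16 k32 3 (.s k24 k28 1 (.s k52 k56 1 (.d k36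
  k4 k12 3 5)))), (.s k22 k23 0 (.s k3 k41 6 (.s k18 k33 4 (.s k26 k30 1 (.d k16 k31 k32 2 3))))),
  (.s k22 k23 0 (.s k52 k56 1 (.s k37 k7 4 (.s k53 k5 3 (.s k55 k54 0 (.d k4 k36 k38 3 4))))))] (.c
  k31 (.q k47 [(.s k16 k32 3 (.s k24 k28 1 (.s k52 k56 1 (.d k36 k4 k12 3 5)))), (.s k32 k16 3 (.s
  k22 k23 0 (.s k3 k41 6 (.s k2 k1 0 (.d k42 k37 k62 2 5))))), (.s k22 k23 0 (.s k52 k56 1 (.s k37
  k7 4 (.s k53 k5 3 (.s k55 k54 0 (.d k4 k36 k38 3 4))))))] .n) (.c k47 (.q k31 [(.d k16 k26 k32 2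
  3), (.s k22 k23 0 (.s k52 k56 1 (.s k4 k36 3 (.s k38 k55 4 (.s k6 k54 3 (.d k7 k5 k37 0 4))))))]
  (.c k32 (.l (.s k16 k26 2 (.s k24 k28 1 (.s k36 k12 5 (.d k52 k56 k4 1 3))))) .n)) .n)))
  .n))))))))) (.c k105 (.q k48 [(.s k56 k52 1 (.s k186 k117 10 (.s k121 k251 8 (.s k182 k243 10 (.d
  k190 k125 k178 8 1))))), (.s k16 k32 3 (.s k20 k40 5 (.s k24 k28 1 (.s k36 k12 5 (.d k52 k56 k4 1
  3))))), (.s k16 k32 3 (.s k85 k170 14 (.s k154 k223 10 (.s k101 k207 14 (.d k117 k69 k186 3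
  10)))))] .n) (.c k125 (.q k48 [(.s k16 k32 3 (.s k20 k40 5 (.s k24 k28 1 (.s k52 k56 1 (.d k36 k4
  k12 3 5))))), (.s k16 k32 3 (.s k85 k170 14 (.s k154 k223 10 (.s k101 k207 14 (.d k117 k69 k186 3
  10))))), (.s k20 k40 5 (.s k85 k170 14 (.s k150 k215 8 (.s k52 k56 1 (.s k117 k186 10 (.d k101 k69
  k199 3 12))))))] (.c k117 (.q k121 [(.s k56 k52 1 (.s k251 k186 8 (.d k243 k247 k182 1 10))), (.s
  k16 k32 3 (.s k20 k40 5 (.s k24 k28 1 (.s k36 k12 5 (.d k52 k56 k4 1 3))))), (.s k40 k20 5 (.s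
  k170 k85 14 (.s k105 k235 8 (.s k89 k73 3 (.s k251 k8 12 (.d k243 k247 k182 1 10))))))] .n) (.c
  k121 (.l (.s k117 k186 10 (.s k16 k32 3 (.s k85 k170 14 (.s k154 k223 10 (.d k101 k69 k207 3
  14)))))) .n))) (.c k150 (.q k48 [(.s k16 k32 3 (.s k20 k40 5 (.s k52 k56 1 (.s k36 k4 3 (.d k24
  k28 k12 1 5))))), (.s k16 k32 3 (.s k85 k170 14 (.s k154 k223 10 (.s k101 k207 14 (.d k117 k69
  k186 3 10))))), (.s k56 k52 1 (.s k186 k117 10 (.s k121 k251 8 (.s k182 k243 10 (.d k190 k125 k178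
  8 1)))))] .n) (.c k170 (.q k48 [(.s k32 k16 3 (.s k40 k20 5 (.s k36 k44 1 (.s k24 k12 5 (.d k56
  k52 k8 1 3))))), (.s k56 k52 1 (.s k186 k117 10 (.s k121 k251 8 (.s k182 k243 10 (.d k190 k125
  k178 8 1)))))] (.c k8 (.l (.s k16 k32 3 (.s k20 k40 5 (.s k24 k28 1 (.s k36 k12 5 (.d k52 k56 k4 1
  3)))))) (.c k52 (.q k21 [(.s k20 k40 5 (.s k42 k63 6 (.s k22 k23 0 (.s k2 k62 5 (.d k3 k1 k41 0
  6))))), (.s k63 k42 6 (.s k53 k58 2 (.s k117 k186 10 (.s k181 k245 7 (.s k122 k240 10 (.d k127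
  k112 k191 2 7))))))] (.c k42 (.l (.s k16 k32 3 (.s k20 k40 5 (.s k26 k31 2 (.s k22 k23 0 (.s k18
  k30 1 (.d k3 k41 k33 6 4))))))) (.c k63 (.l (.s k16 k32 3 (.s k20 k40 5 (.s k22 k23 0 (.s k3 k41 6
  (.s k18 k33 4 (.d k26 k30 k31 1 2))))))) .n))) (.c k56 (.q k21 [(.s k40 k20 5 (.s k42 k63 6 (.s
  k41 k43 0 (.s k1 k61 5 (.d k3 k2 k22 0 6))))), (.s k63 k42 6 (.s k53 k58 2 (.s k117 k186 10 (.s
  k181 k245 7 (.s k122 k240 10 (.d k127 k112 k191 2 7))))))] (.c k42 (.l (.s k16 k32 3 (.s k20 k40 5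
  (.s k26 k31 2 (.s k22 k23 0 (.s k18 k30 1 (.d k3 k41 k33 6 4))))))) (.c k63 (.l (.s k16 k32 3 (.s
  k20 k40 5 (.s k22 k23 0 (.s k3 k41 6 (.s k18 k33 4 (.d k26 k30 k31 1 2))))))) .n))) .n)))) (.c
  k190 (.q k48 [(.s k16 k32 3 (.s k20 k40 5 (.s k24 k28 1 (.s k52 k56 1 (.d k36 k4 k12 3 5))))), (.s
  k16 k32 3 (.s k85 k170 14 (.s k154 k223 10 (.s k101 k207 14 (.d k117 k69 k186 3 10))))), (.s k20
  k40 5 (.s k85 k170 14 (.s k150 k215 8 (.s k52 k56 1 (.s k117 k186 10 (.d k101 k69 k199 3 12))))))]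
  .n) (.c k195 (.f k20 k40 5 (.f k125 k190 8 (.q k48 [(.s k16 k32 3 (.s k24 k28 1 (.s k52 k56 1 (.d
  k36 k4 k12 3 5)))), (.s k32 k16 3 (.s k170 k85 14 (.s k101 k239 10 (.s k154 k207 14 (.d k186 k138
  k117 3 10))))), (.s k85 k170 14 (.s k150 k215 8 (.s k52 k56 1 (.s k117 k186 10 (.d k101 k69 k199 3
  12)))))] (.c k75 (.q k135 [(.s k16 k32 3 (.s k24 k28 1 (.s k52 k56 1 (.d k36 k4 k12 3 5)))), (.s
  k32 k16 3 (.s k170 k85 14 (.s k101 k239 10 (.s k154 k207 14 (.d k186 k138 k117 3 10))))), (.s k85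
  k170 14 (.s k150 k215 8 (.s k52 k56 1 (.s k117 k186 10 (.d k101 k69 k199 3 12)))))] .n) (.c k135
  (.q k75 [(.s k16 k32 3 (.s k24 k28 1 (.s k52 k56 1 (.d k36 k4 k12 3 5)))), (.s k32 k16 3 (.s k170
  k85 14 (.s k101 k239 10 (.s k154 k207 14 (.d k186 k138 k117 3 10))))), (.s k85 k170 14 (.s k150
  k215 8 (.s k52 k56 1 (.s k117 k186 10 (.d k101 k69 k199 3 12)))))] .n) .n))))) (.c k215 (.l (.s
  k40 k20 5 (.s k190 k125 8 (.s k170 k85 14 (.s k150 k130 5 (.d k105 k235 k195 8 14)))))) (.c k235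
  (.l (.s k20 k40 5 (.s k125 k190 8 (.s k85 k170 14 (.s k105 k65 5 (.d k150 k215 k195 8 14))))))
  .n)))))))))))))

def t114 : T TT 256 :=
  (.q k60 [(.s k20 k40 5 (.s k85 k170 14 (.s k150 k215 8 (.s k125 k190 8 (.d k105 k65 k195 5
  14)))))] (.c k20 (.q k48 [(.s k16 k32 3 (.s k85 k170 14 (.s k154 k223 10 (.s k117 k186 10 (.d k101
  k69 k207 3 14))))), (.s k52 k56 1 (.s k117 k186 10 (.s k182 k247 8 (.s k121 k243 10 (.d k125 k113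
  k190 1 8))))), (.s k16 k32 3 (.s k85 k170 14 (.s k154 k223 10 (.s k56 k52 1 (.s k105 k203 12 (.d
  k125 k65 k190 5 8))))))] .n) (.c k40 (.q k48 [(.s k32 k16 3 (.s k186 k117 10 (.s k170 k85 14 (.s
  k154 k138 3 (.d k101 k239 k207 10 14))))), (.s k52 k56 1 (.s k117 k186 10 (.s k182 k247 8 (.s k121
  k243 10 (.d k125 k113 k190 1 8))))), (.s k16 k32 3 (.s k85 k170 14 (.s k154 k223 10 (.s k56 k52 1
  (.s k105 k203 12 (.d k125 k65 k190 5 8))))))] .n) (.c k65 (.l (.s k40 k20 5 (.s k170 k85 14 (.s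
  k105 k235 8 (.s k150 k195 14 (.d k190 k125 k130 8 5)))))) (.c k85 (.f k125 k190 8 (.f k20 k40 5
  (.q k48 [(.s k16 k32 3 (.s k24 k28 1 (.s k52 k56 1 (.d k36 k4 k12 3 5)))), (.s k117 k186 10 (.s
  k121 k113 1 (.s k182 k243 10 (.d k52 k56 k247 1 8))))] (.c k52 (.q k21 [(.s k63 k42 6 (.s k22 k23
  0 (.s k41 k3 6 (.d k61 k62 k1 0 5)))), (.s k16 k32 3 (.s k28 k24 1 (.s k26 k31 2 (.s k22 k23 0 (.s
  k18 k30 1 (.d k19 k17 k25 0 2)))))), (.s k63 k42 6 (.s k127 k191 7 (.s k126 k124 0 (.s k189 k252 8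
  (.d k61 k62 k253 0 7)))))] (.c k63 (.l (.s k16 k32 3 (.s k22 k23 0 (.s k3 k41 6 (.s k18 k33 4 (.d
  k26 k30 k31 1 2)))))) .n)) (.c k56 (.l (.s k16 k32 3 (.s k24 k28 1 (.s k36 k12 5 (.s k52 k4 3 (.s
  k117 k186 10 (.s k121 k113 1 (.d k182 k247 k243 8 10)))))))) .n))))) (.c k105 (.q k48 [(.s k16 k32
  3 (.s k20 k40 5 (.s k24 k28 1 (.s k36 k12 5 (.d k52 k56 k4 1 3))))), (.s k52 k56 1 (.s k117 k186
  10 (.s k182 k247 8 (.s k121 k243 10 (.d k125 k113 k190 1 8))))), (.s k16 k32 3 (.s k85 k170 14 (.s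
  k154 k223 10 (.s k101 k207 14 (.d k117 k69 k186 3 10)))))] .n) (.c k125 (.q k48 [(.s k16 k32 3 (.s
  k20 k40 5 (.s k24 k28 1 (.s k52 k56 1 (.d k36 k4 k12 3 5))))), (.s k16 k32 3 (.s k85 k170 14 (.s
  k154 k223 10 (.s k101 k207 14 (.d k117 k69 k186 3 10))))), (.s k20 k40 5 (.s k85 k170 14 (.s k150
  k215 8 (.s k52 k56 1 (.s k117 k186 10 (.d k101 k69 k199 3 12))))))] .n) (.c k150 (.q k48 [(.s k16
  k32 3 (.s k20 k40 5 (.s k52 k56 1 (.s k36 k4 3 (.d k24 k28 k12 1 5))))), (.s k16 k32 3 (.s k85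
  k170 14 (.s k154 k223 10 (.s k101 k207 14 (.d k117 k69 k186 3 10))))), (.s k52 k56 1 (.s k117 k186
  10 (.s k182 k247 8 (.s k121 k243 10 (.d k125 k113 k190 1 8)))))] .n) (.c k170 (.q k48 [(.s k32 k16
  3 (.s k40 k20 5 (.s k36 k44 1 (.s k24 k12 5 (.d k56 k52 k8 1 3))))), (.s k52 k56 1 (.s k117 k186
  10 (.s k182 k247 8 (.s k121 k243 10 (.d k125 k113 k190 1 8)))))] (.c k52 (.q k21 [(.s k20 k40 5
  (.s k42 k63 6 (.s k22 k23 0 (.s k2 k62 5 (.d k3 k1 k41 0 6))))), (.s k63 k42 6 (.s k53 k58 2 (.s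
  k117 k186 10 (.s k181 k245 7 (.s k122 k240 10 (.d k127 k112 k191 2 7))))))] (.c k42 (.l (.s k16
  k32 3 (.s k20 k40 5 (.s k26 k31 2 (.s k22 k23 0 (.s k18 k30 1 (.d k3 k41 k33 6 4))))))) (.c k63
  (.l (.s k16 k32 3 (.s k20 k40 5 (.s k22 k23 0 (.s k3 k41 6 (.s k18 k33 4 (.d k26 k30 k31 1
  2))))))) .n))) (.c k56 (.q k21 [(.s k40 k20 5 (.s k42 k63 6 (.s k41 k43 0 (.s k1 k61 5 (.d k3 k2
  k22 0 6))))), (.s k63 k42 6 (.s k53 k58 2 (.s k117 k186 10 (.s k181 k245 7 (.s k122 k240 10 (.d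
  k127 k112 k191 2 7))))))] (.c k42 (.l (.s k16 k32 3 (.s k20 k40 5 (.s k26 k31 2 (.s k22 k23 0 (.s
  k18 k30 1 (.d k3 k41 k33 6 4))))))) (.c k63 (.l (.s k16 k32 3 (.s k20 k40 5 (.s k22 k23 0 (.s k3
  k41 6 (.s k18 k33 4 (.d k26 k30 k31 1 2))))))) .n))) .n))) (.c k190 (.q k48 [(.s k16 k32 3 (.s k20
  k40 5 (.s k24 k28 1 (.s k52 k56 1 (.d k36 k4 k12 3 5))))), (.s k16 k32 3 (.s k85 k170 14 (.s k154
  k223 10 (.s k101 k207 14 (.d k117 k69 k186 3 10))))), (.s k20 k40 5 (.s k85 k170 14 (.s k150 k215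
  8 (.s k52 k56 1 (.s k117 k186 10 (.d k101 k69 k199 3 12))))))] .n) (.c k195 (.f k20 k40 5 (.f k125
  k190 8 (.q k48 [(.s k16 k32 3 (.s k24 k28 1 (.s k52 k56 1 (.d k36 k4 k12 3 5)))), (.s k117 k186 10
  (.s k121 k113 1 (.s k182 k243 10 (.d k52 k56 k247 1 8)))), (.s k16 k32 3 (.s k85 k170 14 (.s k154
  k223 10 (.s k101 k207 14 (.d k117 k69 k186 3 10)))))] (.c k75 (.q k135 [(.s k16 k32 3 (.s k24 k28
  1 (.s k52 k56 1 (.d k36 k4 k12 3 5)))), (.s k117 k186 10 (.s k121 k113 1 (.s k182 k243 10 (.d k52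
  k56 k247 1 8)))), (.s k16 k32 3 (.s k85 k170 14 (.s k154 k223 10 (.s k101 k207 14 (.d k117 k69
  k186 3 10)))))] .n) (.c k135 (.q k75 [(.s k16 k32 3 (.s k24 k28 1 (.s k52 k56 1 (.d k36 k4 k12 3
  5)))), (.s k117 k186 10 (.s k121 k113 1 (.s k182 k243 10 (.d k52 k56 k247 1 8)))), (.s k16 k32 3
  (.s k85 k170 14 (.s k154 k223 10 (.s k101 k207 14 (.d k117 k69 k186 3 10)))))] .n) .n))))) (.c
  k215 (.l (.s k40 k20 5 (.s k190 k125 8 (.s k170 k85 14 (.s k150 k130 5 (.d k105 k235 k195 8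
  14)))))) (.c k235 (.l (.s k20 k40 5 (.s k125 k190 8 (.s k85 k170 14 (.s k105 k65 5 (.d k150 k215
  k195 8 14)))))) .n)))))))))))))

theorem c86 : rootOK2 k255 k15 k86 t86 = true := by decide +kernel

theorem c90 : rootOK2 k255 k15 k90 t90 = true := by decide +kernel

theorem c96 : rootOK2 k255 k15 k96 t96 = true := by decide +kernel

theorem c97 : rootOK2 k255 k15 k97 t97 = true := by decide +kernel

theorem c102 : rootOK2 k255 k15 k102 t102 = true := by decide +kernel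

theorem c112 : rootOK2 k255 k15 k112 t112 = true := by decide +kernel

theorem c113 : rootOK2 k255 k15 k113 t113 = true := by decide +kernel

theorem c114 : rootOK2 k255 k15 k114 t114 = true := by decide +kernel

def l : List Nat :=
  [k86.c, k90.c, k96.c, k97.c, k102.c, k112.c, k113.c, k114.c]

theorem ok : AllQ k255.c k15.c l :=
  allQ_cons c86 (allQ_cons c90 (allQ_cons c96 (allQ_cons c97 (allQ_cons c102 (allQ_cons c112 (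
  allQ_cons c113 (allQ_cons c114 (allQ_nil _ _))))))))

end Pool.Agent.TTT.D04
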