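import Pool.Agent.TTT.Sym2

set_option autoImplicit false
set_option maxRecDepth 100000

namespace Pool.Agent.TTT.D05

def t240 : T TT 256 :=
  (.q k60 [(.s k20 k40 5 (.s k85 k170 14 (.s k150 k215 8 (.s k125 k190 8 (.d k105 k65 k195 5
  14)))))] (.c k20 (.f k125 k190 8 (.q k48 [(.s k52 k56 1 (.s k117 k186 10 (.s k182 k247 8 (.d k121
  k113 k243 1 10)))), (.s k16 k32 3 (.s k85 k170 14 (.s k154 k223 10 (.s k101 k207 14 (.d k117 k69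
  k186 3 10))))), (.s k16 k32 3 (.s k85 k170 14 (.s k154 k223 10 (.s k56 k52 1 (.d k105 k65 k203 5
  12)))))] (.c k90 (.q k165 [(.s k52 k56 1 (.s k117 k186 10 (.s k182 k247 8 (.d k121 k113 k243 1
  10)))), (.s k16 k32 3 (.s k85 k170 14 (.s k154 k223 10 (.s k101 k207 14 (.d k117 k69 k186 3
  10))))), (.s k16 k32 3 (.s k85 k170 14 (.s k154 k223 10 (.s k56 k52 1 (.d k105 k65 k203 5 12)))))]
  .n) (.c k165 (.q k90 [(.s k52 k56 1 (.s k117 k186 10 (.s k182 k247 8 (.d k121 k113 k243 1 10)))),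
  (.s k16 k32 3 (.s k85 k170 14 (.s k154 k223 10 (.s k101 k207 14 (.d k117 k69 k186 3 10))))), (.s
  k16 k32 3 (.s k85 k170 14 (.s k154 k223 10 (.s k56 k52 1 (.d k105 k65 k203 5 12)))))] .n) .n))))
  (.c k40 (.f k125 k190 8 (.q k48 [(.s k52 k56 1 (.s k117 k186 10 (.s k182 k247 8 (.d k121 k113 k243
  1 10)))), (.s k16 k32 3 (.s k85 k170 14 (.s k154 k223 10 (.s k101 k207 14 (.d k117 k69 k186 3
  10))))), (.s k16 k32 3 (.s k85 k170 14 (.s k154 k223 10 (.s k56 k52 1 (.d k105 k65 k203 5 12)))))]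
  (.c k90 (.q k165 [(.s k52 k56 1 (.s k117 k186 10 (.s k182 k247 8 (.d k121 k113 k243 1 10)))), (.s
  k16 k32 3 (.s k85 k170 14 (.s k154 k223 10 (.s k101 k207 14 (.d k117 k69 k186 3 10))))), (.s k16
  k32 3 (.s k85 k170 14 (.s k154 k223 10 (.s k56 k52 1 (.d k105 k65 k203 5 12)))))] .n) (.c k165 (.q
  k90 [(.s k52 k56 1 (.s k117 k186 10 (.s k182 k247 8 (.d k121 k113 k243 1 10)))), (.s k16 k32 3 (.s
  k85 k170 14 (.s k154 k223 10 (.s k101 k207 14 (.d k117 k69 k186 3 10))))), (.s k16 k32 3 (.s k85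
  k170 14 (.s k154 k223 10 (.s k56 k52 1 (.d k105 k65 k203 5 12)))))] .n) .n)))) (.c k65 (.l (.s k40
  k20 5 (.s k170 k85 14 (.s k105 k235 8 (.s k150 k195 14 (.d k190 k125 k130 8 5)))))) (.c k85 (.f
  k125 k190 8 (.q k52 [(.s k48 k56 1 (.s k117 k186 10 (.s k121 k113 1 (.d k182 k247 k243 8 10)))),
  (.s k20 k40 5 (.s k4 k36 3 (.s k12 k8 1 (.s k93 k174 12 (.s k109 k77 3 (.s k158 k207 12 (.d k28
  k44 k223 3 8)))))))] (.c k56 (.q k48 [(.s k117 k186 10 (.s k121 k113 1 (.d k182 k247 k243 8 10))),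
  (.s k16 k32 3 (.s k20 k40 5 (.s k24 k28 1 (.d k36 k4 k12 3 5))))] (.c k90 (.q k165 [(.s k117 k186
  10 (.s k121 k113 1 (.d k182 k247 k243 8 10))), (.s k16 k32 3 (.s k20 k40 5 (.s k24 k28 1 (.d k36
  k4 k12 3 5))))] (.c k80 (.q k95 [(.s k117 k186 10 (.s k121 k113 1 (.d k182 k247 k243 8 10))), (.s
  k16 k32 3 (.s k20 k40 5 (.s k24 k28 1 (.d k36 k4 k12 3 5))))] .n) (.c k95 (.q k80 [(.s k117 k186
  10 (.s k121 k113 1 (.d k182 k247 k243 8 10))), (.s k16 k32 3 (.s k20 k40 5 (.s k24 k28 1 (.d k36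
  k4 k12 3 5))))] .n) .n))) (.c k165 (.q k90 [(.s k117 k186 10 (.s k121 k113 1 (.d k182 k247 k243 8
  10))), (.s k16 k32 3 (.s k20 k40 5 (.s k24 k28 1 (.d k36 k4 k12 3 5))))] (.c k5 (.q k245 [(.s k117
  k186 10 (.s k121 k113 1 (.d k182 k247 k243 8 10))), (.s k16 k32 3 (.s k20 k40 5 (.s k24 k28 1 (.d
  k36 k4 k12 3 5))))] .n) (.c k245 (.q k5 [(.s k117 k186 10 (.s k121 k113 1 (.d k182 k247 k243 8
  10))), (.s k16 k32 3 (.s k20 k40 5 (.s k24 k28 1 (.d k36 k4 k12 3 5))))] .n) .n))) .n))) (.c k90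
  (.q k165 [(.s k48 k56 1 (.s k117 k186 10 (.s k121 k113 1 (.d k182 k247 k243 8 10)))), (.s k20 k40
  5 (.s k4 k36 3 (.s k12 k8 1 (.s k93 k174 12 (.s k109 k77 3 (.s k158 k207 12 (.d k28 k44 k223 3
  8)))))))] (.c k56 (.q k48 [(.s k117 k186 10 (.s k121 k113 1 (.d k182 k247 k243 8 10))), (.s k16
  k32 3 (.s k20 k40 5 (.s k24 k28 1 (.d k36 k4 k12 3 5))))] (.c k80 (.q k95 [(.s k117 k186 10 (.s
  k121 k113 1 (.d k182 k247 k243 8 10))), (.s k16 k32 3 (.s k20 k40 5 (.s k24 k28 1 (.d k36 k4 k12 3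
  5))))] .n) (.c k95 (.q k80 [(.s k117 k186 10 (.s k121 k113 1 (.d k182 k247 k243 8 10))), (.s k16
  k32 3 (.s k20 k40 5 (.s k24 k28 1 (.d k36 k4 k12 3 5))))] .n) .n))) (.c k80 (.q k95 [(.s k48 k56 1
  (.s k117 k186 10 (.s k121 k113 1 (.d k182 k247 k243 8 10)))), (.s k20 k40 5 (.s k4 k36 3 (.s k12
  k8 1 (.s k93 k174 12 (.s k109 k77 3 (.s k158 k207 12 (.d k28 k44 k223 3 8)))))))] (.c k56 (.q k48
  [(.s k117 k186 10 (.s k121 k113 1 (.d k182 k247 k243 8 10))), (.s k16 k32 3 (.s k20 k40 5 (.s k24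
  k28 1 (.d k36 k4 k12 3 5))))] .n) .n)) (.c k95 (.q k80 [(.s k48 k56 1 (.s k117 k186 10 (.s k121
  k113 1 (.d k182 k247 k243 8 10)))), (.s k20 k40 5 (.s k4 k36 3 (.s k12 k8 1 (.s k93 k174 12 (.s
  k109 k77 3 (.s k158 k207 12 (.d k28 k44 k223 3 8)))))))] (.c k56 (.q k48 [(.s k117 k186 10 (.s
  k121 k113 1 (.d k182 k247 k243 8 10))), (.s k16 k32 3 (.s k20 k40 5 (.s k24 k28 1 (.d k36 k4 k12 3
  5))))] .n) .n)) .n)))) (.c k165 (.q k90 [(.s k48 k56 1 (.s k117 k186 10 (.s k121 k113 1 (.d k182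
  k247 k243 8 10)))), (.s k20 k40 5 (.s k4 k36 3 (.s k12 k8 1 (.s k93 k174 12 (.s k109 k77 3 (.s
  k158 k207 12 (.d k28 k44 k223 3 8)))))))] (.c k5 (.q k245 [(.s k48 k56 1 (.s k117 k186 10 (.s k121
  k113 1 (.d k182 k247 k243 8 10)))), (.s k20 k40 5 (.s k4 k36 3 (.s k12 k8 1 (.s k93 k174 12 (.s
  k109 k77 3 (.s k158 k207 12 (.d k28 k44 k223 3 8)))))))] (.c k56 (.q k48 [(.s k117 k186 10 (.s
  k121 k113 1 (.d k182 k247 k243 8 10))), (.s k16 k32 3 (.s k20 k40 5 (.s k24 k28 1 (.d k36 k4 k12 3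
  5))))] .n) .n)) (.c k56 (.q k48 [(.s k117 k186 10 (.s k121 k113 1 (.d k182 k247 k243 8 10))), (.s
  k16 k32 3 (.s k20 k40 5 (.s k24 k28 1 (.d k36 k4 k12 3 5))))] (.c k5 (.q k245 [(.s k117 k186 10
  (.s k121 k113 1 (.d k182 k247 k243 8 10))), (.s k16 k32 3 (.s k20 k40 5 (.s k24 k28 1 (.d k36 k4
  k12 3 5))))] .n) (.c k245 (.q k5 [(.s k117 k186 10 (.s k121 k113 1 (.d k182 k247 k243 8 10))), (.s
  k16 k32 3 (.s k20 k40 5 (.s k24 k28 1 (.d k36 k4 k12 3 5))))] .n) .n))) (.c k245 (.q k5 [(.s k48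
  k56 1 (.s k117 k186 10 (.s k121 k113 1 (.d k182 k247 k243 8 10)))), (.s k20 k40 5 (.s k4 k36 3 (.s
  k12 k8 1 (.s k93 k174 12 (.s k109 k77 3 (.s k158 k207 12 (.d k28 k44 k223 3 8)))))))] (.c k56 (.q
  k48 [(.s k117 k186 10 (.s k121 k113 1 (.d k182 k247 k243 8 10))), (.s k16 k32 3 (.s k20 k40 5 (.s
  k24 k28 1 (.d k36 k4 k12 3 5))))] .n) .n)) .n)))) .n))))) (.c k90 (.q k165 [(.s k20 k40 5 (.s k85
  k170 14 (.s k150 k215 8 (.s k125 k190 8 (.d k105 k65 k195 5 14))))), (.s k40 k20 5 (.s k170 k85 14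
  (.s k105 k235 8 (.s k150 k195 14 (.d k190 k130 k125 5 8)))))] (.c k20 (.q k48 [(.s k16 k32 3 (.s
  k85 k170 14 (.s k154 k223 10 (.s k117 k186 10 (.d k101 k69 k207 3 14))))), (.s k52 k56 1 (.s k117
  k186 10 (.s k182 k247 8 (.s k121 k243 10 (.d k125 k113 k190 1 8))))), (.s k16 k32 3 (.s k85 k170
  14 (.s k154 k223 10 (.s k56 k52 1 (.s k105 k203 12 (.d k125 k65 k190 5 8))))))] .n) (.c k40 (.q
  k48 [(.s k32 k16 3 (.s k186 k117 10 (.s k170 k85 14 (.s k154 k138 3 (.d k101 k239 k207 10 14))))),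
  (.s k52 k56 1 (.s k117 k186 10 (.s k182 k247 8 (.s k121 k243 10 (.d k125 k113 k190 1 8))))), (.s
  k16 k32 3 (.s k85 k170 14 (.s k154 k223 10 (.s k56 k52 1 (.s k105 k203 12 (.d k125 k65 k190 5
  8))))))] .n) (.c k85 (.f k125 k190 8 (.f k20 k40 5 (.q k48 [(.s k16 k32 3 (.s k24 k28 1 (.s k52
  k56 1 (.d k36 k4 k12 3 5)))), (.s k117 k186 10 (.s k121 k113 1 (.s k182 k243 10 (.d k52 k56 k247 1
  8))))] (.c k52 (.q k21 [(.s k63 k42 6 (.s k22 k23 0 (.s k41 k3 6 (.d k61 k62 k1 0 5)))), (.s k16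
  k32 3 (.s k28 k24 1 (.s k26 k31 2 (.s k22 k23 0 (.s k18 k30 1 (.d k19 k17 k25 0 2)))))), (.s k63
  k42 6 (.s k127 k191 7 (.s k126 k124 0 (.s k189 k252 8 (.d k61 k62 k253 0 7)))))] (.c k63 (.l (.s
  k16 k32 3 (.s k22 k23 0 (.s k3 k41 6 (.s k18 k33 4 (.d k26 k30 k31 1 2)))))) (.c k80 (.q k95 [(.s
  k63 k42 6 (.s k22 k23 0 (.s k41 k3 6 (.d k61 k62 k1 0 5)))), (.s k16 k32 3 (.s k28 k24 1 (.s k26
  k31 2 (.s k22 k23 0 (.s k18 k30 1 (.d k19 k17 k25 0 2)))))), (.s k63 k42 6 (.s k127 k191 7 (.s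
  k126 k124 0 (.s k189 k252 8 (.d k61 k62 k253 0 7)))))] (.c k63 (.l (.s k16 k32 3 (.s k22 k23 0 (.s
  k3 k41 6 (.s k18 k33 4 (.d k26 k30 k31 1 2)))))) .n)) (.c k95 (.q k80 [(.s k63 k42 6 (.s k22 k23 0
  (.s k41 k3 6 (.d k61 k62 k1 0 5)))), (.s k16 k32 3 (.s k28 k24 1 (.s k26 k31 2 (.s k22 k23 0 (.s
  k18 k30 1 (.d k19 k17 k25 0 2)))))), (.s k63 k42 6 (.s k127 k191 7 (.s k126 k124 0 (.s k189 k252 8
  (.d k61 k62 k253 0 7)))))] (.c k63 (.l (.s k16 k32 3 (.s k22 k23 0 (.s k3 k41 6 (.s k18 k33 4 (.d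
  k26 k30 k31 1 2)))))) .n)) .n)))) (.c k56 (.l (.s k16 k32 3 (.s k24 k28 1 (.s k36 k12 5 (.s k52 k4
  3 (.s k117 k186 10 (.s k121 k113 1 (.d k182 k247 k243 8 10)))))))) (.c k80 (.q k95 [(.s k16 k32 3
  (.s k24 k28 1 (.s k52 k56 1 (.d k36 k4 k12 3 5)))), (.s k117 k186 10 (.s k121 k113 1 (.s k182 k243
  10 (.d k52 k56 k247 1 8))))] (.c k52 (.q k180 [(.s k117 k186 10 (.s k150 k135 4 (.s k195 k105 14
  (.s k65 k130 8 (.s k97 k146 12 (.d k113 k121 k81 1 3)))))), (.s k117 k186 10 (.s k121 k113 1 (.s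
  k182 k243 10 (.s k181 k183 0 (.s k53 k245 7 (.s k63 k58 2 (.d k61 k241 k62 9 0))))))), (.s k16 k32
  3 (.s k28 k24 1 (.s k150 k135 4 (.s k195 k105 14 (.s k146 k97 12 (.d k211 k81 k89 8 10))))))] .n)
  (.c k56 (.l (.s k16 k32 3 (.s k24 k28 1 (.s k36 k12 5 (.s k52 k4 3 (.s k117 k186 10 (.s k121 k113
  1 (.d k182 k247 k243 8 10)))))))) .n))) (.c k95 (.q k80 [(.s k16 k32 3 (.s k24 k28 1 (.s k52 k56 1
  (.d k36 k4 k12 3 5)))), (.s k117 k186 10 (.s k121 k113 1 (.s k182 k243 10 (.d k52 k56 k247 1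
  8)))), (.s k16 k32 3 (.s k144 k208 7 (.s k192 k96 11 (.s k148 k104 13 (.s k84 k212 7 (.d k152 k220
  k156 9 1))))))] .n) .n))))))) (.c k105 (.q k48 [(.s k16 k32 3 (.s k20 k40 5 (.s k24 k28 1 (.s k52
  k56 1 (.d k36 k4 k12 3 5))))), (.s k52 k56 1 (.s k117 k186 10 (.s k182 k247 8 (.s k121 k243 10 (.d
  k125 k113 k190 1 8))))), (.s k16 k32 3 (.s k85 k170 14 (.s k154 k223 10 (.s k101 k207 14 (.d k117
  k69 k186 3 10)))))] (.c k75 (.q k120 [(.s k16 k32 3 (.s k20 k40 5 (.s k24 k28 1 (.s k52 k56 1 (.d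
  k36 k4 k12 3 5))))), (.s k52 k56 1 (.s k117 k186 10 (.s k182 k247 8 (.s k121 k243 10 (.d k125 k113
  k190 1 8))))), (.s k16 k32 3 (.s k85 k170 14 (.s k154 k223 10 (.s k101 k207 14 (.d k117 k69 k186 3
  10)))))] (.c k135 (.q k195 [(.s k16 k32 3 (.s k20 k40 5 (.s k24 k28 1 (.s k52 k56 1 (.d k36 k4 k12
  3 5))))), (.s k65 k130 8 (.s k97 k146 12 (.s k117 k186 10 (.s k125 k190 8 (.d k113 k121 k81 1
  3)))))] (.c k170 (.l (.s k16 k32 3 (.s k130 k65 8 (.s k146 k97 12 (.s k81 k211 8 (.d k162 k178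
  k243 3 12)))))) .n)) (.c k154 (.l (.s k16 k32 3 (.s k20 k40 5 (.s k24 k28 1 (.s k36 k12 5 (.d k52
  k56 k4 1 3)))))) (.c k195 (.q k135 [(.s k20 k40 5 (.s k150 k180 4 (.d k85 k170 k215 14 8))), (.s
  k32 k16 3 (.s k40 k20 5 (.s k36 k44 1 (.s k24 k12 5 (.d k56 k52 k8 1 3))))), (.s k170 k85 14 (.s
  k150 k180 4 (.d k190 k125 k130 8 5)))] (.c k210 (.q k225 [(.s k20 k40 5 (.s k150 k180 4 (.d k85
  k170 k215 14 8))), (.s k32 k16 3 (.s k40 k20 5 (.s k36 k44 1 (.s k24 k12 5 (.d k56 k52 k8 1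
  3))))), (.s k170 k85 14 (.s k150 k180 4 (.d k190 k125 k130 8 5)))] (.c k30 (.l (.s k150 k180 4 (.s
  k20 k40 5 (.d k85 k170 k215 14 8)))) (.c k150 (.q k30 [(.s k16 k32 3 (.s k20 k40 5 (.s k52 k56 1
  (.s k36 k4 3 (.d k24 k28 k12 1 5))))), (.s k52 k56 1 (.s k117 k186 10 (.s k182 k247 8 (.s k121
  k243 10 (.d k125 k113 k190 1 8))))), (.s k16 k32 3 (.s k20 k40 5 (.s k24 k28 1 (.s k36 k12 5 (.d
  k52 k56 k4 1 3))))), (.s k16 k32 3 (.s k85 k170 14 (.s k154 k223 10 (.s k101 k207 14 (.d k117 k69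
  k186 3 10)))))] .n) .n))) (.c k225 (.q k210 [(.s k20 k40 5 (.s k150 k180 4 (.d k85 k170 k215 14
  8))), (.s k32 k16 3 (.s k40 k20 5 (.s k36 k44 1 (.s k24 k12 5 (.d k56 k52 k8 1 3))))), (.s k170
  k85 14 (.s k150 k180 4 (.d k190 k125 k130 8 5)))] .n) .n))) .n)))) (.c k120 (.q k75 [(.s k16 k32 3
  (.s k20 k40 5 (.s k24 k28 1 (.s k36 k12 5 (.d k52 k56 k4 1 3))))), (.s k52 k56 1 (.s k117 k186 10
  (.s k182 k247 8 (.s k121 k243 10 (.d k125 k113 k190 1 8))))), (.s k16 k32 3 (.s k85 k170 14 (.s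
  k154 k223 10 (.s k101 k207 14 (.d k117 k69 k186 3 10)))))] .n) (.c k154 (.l (.s k16 k32 3 (.s k20
  k40 5 (.s k24 k28 1 (.s k36 k12 5 (.d k52 k56 k4 1 3)))))) .n)))) (.c k125 (.q k48 [(.s k16 k32 3
  (.s k20 k40 5 (.s k24 k28 1 (.s k52 k56 1 (.d k36 k4 k12 3 5))))), (.s k16 k32 3 (.s k85 k170 14
  (.s k154 k223 10 (.s k101 k207 14 (.d k117 k69 k186 3 10))))), (.s k20 k40 5 (.s k85 k170 14 (.s
  k150 k215 8 (.s k52 k56 1 (.s k117 k186 10 (.d k101 k69 k199 3 12))))))] .n) (.c k150 (.q k48 [(.s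
  k16 k32 3 (.s k20 k40 5 (.s k52 k56 1 (.s k36 k4 3 (.d k24 k28 k12 1 5))))), (.s k16 k32 3 (.s k85
  k170 14 (.s k154 k223 10 (.s k101 k207 14 (.d k117 k69 k186 3 10))))), (.s k52 k56 1 (.s k117 k186
  10 (.s k182 k247 8 (.s k121 k243 10 (.d k125 k113 k190 1 8)))))] (.c k30 (.q k210 [(.s k16 k32 3
  (.s k20 k40 5 (.s k52 k56 1 (.s k36 k4 3 (.d k24 k28 k12 1 5))))), (.s k16 k32 3 (.s k85 k170 14
  (.s k154 k223 10 (.s k101 k207 14 (.d k117 k69 k186 3 10))))), (.s k52 k56 1 (.s k117 k186 10 (.s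
  k182 k247 8 (.s k121 k243 10 (.d k125 k113 k190 1 8)))))] .n) (.c k210 (.q k30 [(.s k16 k32 3 (.s
  k20 k40 5 (.s k52 k56 1 (.s k36 k4 3 (.d k24 k28 k12 1 5))))), (.s k16 k32 3 (.s k85 k170 14 (.s
  k154 k223 10 (.s k101 k207 14 (.d k117 k69 k186 3 10))))), (.s k52 k56 1 (.s k117 k186 10 (.s k182
  k247 8 (.s k121 k243 10 (.d k125 k113 k190 1 8)))))] (.c k195 (.q k225 [(.s k40 k20 5 (.s k105 k45
  9 (.d k170 k85 k235 14 8))), (.s k16 k32 3 (.s k20 k40 5 (.s k24 k28 1 (.s k36 k12 5 (.d k52 k56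
  k4 1 3))))), (.s k85 k170 14 (.s k105 k45 9 (.d k125 k190 k65 8 5)))] (.c k75 (.q k135 [(.s k40
  k20 5 (.s k105 k45 9 (.d k170 k85 k235 14 8))), (.s k16 k32 3 (.s k20 k40 5 (.s k24 k28 1 (.s k36
  k12 5 (.d k52 k56 k4 1 3))))), (.s k85 k170 14 (.s k105 k45 9 (.d k125 k190 k65 8 5)))] (.c k105
  (.q k120 [(.s k16 k32 3 (.s k20 k40 5 (.s k52 k56 1 (.s k36 k4 3 (.d k24 k28 k12 1 5))))), (.s k52
  k56 1 (.s k117 k186 10 (.s k182 k247 8 (.s k121 k243 10 (.d k125 k113 k190 1 8))))), (.s k16 k32 3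
  (.s k20 k40 5 (.s k24 k28 1 (.s k36 k12 5 (.d k52 k56 k4 1 3))))), (.s k16 k32 3 (.s k85 k170 14
  (.s k154 k223 10 (.s k101 k207 14 (.d k117 k69 k186 3 10)))))] .n) (.c k120 (.l (.s k105 k45 9 (.s
  k40 k20 5 (.d k170 k85 k235 14 8)))) .n))) (.c k135 (.q k75 [(.s k40 k20 5 (.s k105 k45 9 (.d k170
  k85 k235 14 8))), (.s k16 k32 3 (.s k20 k40 5 (.s k24 k28 1 (.s k36 k12 5 (.d k52 k56 k4 1 3))))),
  (.s k85 k170 14 (.s k105 k45 9 (.d k125 k190 k65 8 5)))] .n) .n))) (.c k225 (.q k195 [(.s k16 k32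
  3 (.s k20 k40 5 (.s k52 k56 1 (.s k36 k4 3 (.d k24 k28 k12 1 5))))), (.s k130 k65 8 (.s k146 k97
  12 (.s k186 k117 10 (.s k190 k125 8 (.d k178 k182 k162 1 3)))))] .n) .n))) .n))) (.c k170 (.q k48
  [(.s k32 k16 3 (.s k56 k52 1 (.s k40 k20 5 (.s k24 k8 3 (.d k36 k44 k12 1 5))))), (.s k52 k56 1
  (.s k117 k186 10 (.s k182 k247 8 (.s k121 k243 10 (.d k125 k113 k190 1 8)))))] (.c k10 (.q k250
  [(.s k32 k16 3 (.s k40 k20 5 (.s k36 k44 1 (.s k24 k12 5 (.d k56 k52 k8 1 3))))), (.s k186 k117 10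
  (.s k58 k122 7 (.s k63 k53 2 (.s k62 k61 0 (.s k190 k125 8 (.s k254 k126 7 (.d k50 k118 k54 9
  1)))))))] .n) (.c k52 (.q k21 [(.s k20 k40 5 (.s k42 k63 6 (.s k22 k23 0 (.s k2 k62 5 (.d k3 k1
  k41 0 6))))), (.s k63 k42 6 (.s k53 k58 2 (.s k117 k186 10 (.s k245 k181 7 (.d k5 k37 k85 3
  11))))), (.s k16 k32 3 (.s k20 k40 5 (.s k26 k31 2 (.s k22 k23 0 (.s k18 k30 1 (.d k3 k33 k41 4
  6))))))] (.c k10 (.q k250 [(.s k63 k42 6 (.s k58 k53 2 (.d k186 k122 k117 7 10))), (.s k16 k32 3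
  (.s k20 k40 5 (.s k26 k31 2 (.s k22 k23 0 (.s k18 k30 1 (.d k3 k33 k41 4 6))))))] (.c k26 (.l (.s
  k63 k42 6 (.s k58 k53 2 (.d k186 k122 k117 7 10)))) (.c k63 (.l (.s k16 k32 3 (.s k20 k40 5 (.s
  k22 k23 0 (.s k3 k41 6 (.s k18 k33 4 (.d k26 k30 k31 1 2))))))) .n))) (.c k63 (.l (.s k16 k32 3
  (.s k20 k40 5 (.s k22 k23 0 (.s k3 k41 6 (.s k18 k33 4 (.d k26 k30 k31 1 2))))))) (.c k250 (.q k10
  [(.s k42 k63 6 (.s k26 k58 3 (.d k16 k31 k32 2 3))), (.s k20 k40 5 (.s k63 k42 6 (.s k22 k23 0 (.s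
  k41 k3 6 (.d k61 k62 k1 0 5)))))] (.c k42 (.l (.s k16 k32 3 (.s k20 k40 5 (.s k26 k31 2 (.s k22
  k23 0 (.s k18 k30 1 (.d k3 k41 k33 6 4))))))) (.c k63 (.l (.s k16 k32 3 (.s k20 k40 5 (.s k22 k23
  0 (.s k3 k41 6 (.s k18 k33 4 (.d k26 k30 k31 1 2))))))) .n))) .n)))) (.c k56 (.f k125 k190 8 (.f
  k20 k40 5 (.l (.s k16 k32 3 (.s k24 k28 1 (.s k36 k12 5 (.s k52 k4 3 (.s k117 k186 10 (.s k182
  k247 8 (.d k121 k113 k243 1 10)))))))))) (.c k250 (.q k10 [(.s k32 k16 3 (.s k56 k52 1 (.s k40 k20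
  5 (.s k24 k8 3 (.d k36 k44 k12 1 5))))), (.s k52 k56 1 (.s k117 k186 10 (.s k182 k247 8 (.s k121
  k243 10 (.d k125 k113 k190 1 8)))))] (.c k52 (.q k21 [(.s k42 k63 6 (.s k26 k58 3 (.d k16 k31 k32
  2 3))), (.s k20 k40 5 (.s k63 k42 6 (.s k22 k23 0 (.s k41 k3 6 (.d k61 k62 k1 0 5)))))] (.c k42
  (.l (.s k16 k32 3 (.s k20 k40 5 (.s k26 k31 2 (.s k22 k23 0 (.s k18 k30 1 (.d k3 k41 k33 6
  4))))))) (.c k63 (.l (.s k16 k32 3 (.s k20 k40 5 (.s k22 k23 0 (.s k3 k41 6 (.s k18 k33 4 (.d k26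
  k30 k31 1 2))))))) .n))) (.c k56 (.q k21 [(.s k16 k32 3 (.s k42 k63 6 (.d k26 k31 k58 2 3))), (.s
  k20 k40 5 (.s k63 k42 6 (.s k22 k23 0 (.s k41 k3 6 (.d k61 k62 k1 0 5)))))] (.c k42 (.l (.s k16
  k32 3 (.s k20 k40 5 (.s k26 k31 2 (.s k22 k23 0 (.s k18 k30 1 (.d k3 k41 k33 6 4))))))) (.c k63
  (.l (.s k16 k32 3 (.s k20 k40 5 (.s k22 k23 0 (.s k3 k41 6 (.s k18 k33 4 (.d k26 k30 k31 1
  2))))))) .n))) (.c k251 (.l (.s k16 k32 3 (.s k20 k40 5 (.s k24 k28 1 (.s k36 k12 5 (.d k52 k56 k4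
  1 3)))))) .n)))) (.c k251 (.l (.s k16 k32 3 (.s k20 k40 5 (.s k24 k28 1 (.s k36 k12 5 (.d k52 k56
  k4 1 3)))))) .n)))))) (.c k190 (.q k48 [(.s k16 k32 3 (.s k20 k40 5 (.s k24 k28 1 (.s k52 k56 1
  (.d k36 k4 k12 3 5))))), (.s k16 k32 3 (.s k85 k170 14 (.s k154 k223 10 (.s k101 k207 14 (.d k117
  k69 k186 3 10))))), (.s k20 k40 5 (.s k85 k170 14 (.s k150 k215 8 (.s k52 k56 1 (.s k117 k186 10
  (.d k101 k69 k199 3 12))))))] .n) (.c k195 (.q k1 [(.s k3 k2 0 (.s k40 k20 5 (.s k41 k22 6 (.s k21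
  k61 5 (.d k42 k43 k63 0 6))))), (.s k85 k170 14 (.s k169 k253 13 (.s k5 k245 11 (.s k13 k9 1 (.s
  k241 k89 13 (.d k161 k173 k81 1 11))))))] (.c k75 (.q k135 [(.s k20 k40 5 (.s k150 k180 4 (.d k85
  k215 k170 8 14))), (.s k3 k2 0 (.s k40 k20 5 (.s k41 k22 6 (.s k21 k61 5 (.d k42 k43 k63 0 6))))),
  (.s k170 k85 14 (.s k190 k125 8 (.d k150 k180 k130 4 5)))] (.c k105 (.q k120 [(.s k20 k40 5 (.s
  k150 k180 4 (.d k85 k170 k215 14 8))), (.s k3 k2 0 (.s k40 k20 5 (.s k41 k22 6 (.s k21 k61 5 (.d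
  k42 k43 k63 0 6))))), (.s k170 k85 14 (.s k150 k180 4 (.d k190 k125 k130 8 5)))] (.c k210 (.q k225
  [(.s k20 k40 5 (.s k150 k180 4 (.d k85 k170 k215 14 8))), (.s k3 k2 0 (.s k40 k20 5 (.s k41 k22 6
  (.s k21 k61 5 (.d k42 k43 k63 0 6))))), (.s k170 k85 14 (.s k150 k180 4 (.d k190 k125 k130 8 5)))]
  (.c k30 (.l (.s k150 k180 4 (.s k20 k40 5 (.d k85 k170 k215 14 8)))) (.c k150 (.q k30 [(.s k3 k2 0
  (.s k40 k20 5 (.s k41 k22 6 (.s k42 k43 0 (.d k21 k61 k63 5 6))))), (.s k85 k170 14 (.s k169 k253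
  13 (.s k5 k245 11 (.s k13 k9 1 (.s k241 k89 13 (.d k161 k173 k81 1 11))))))] (.c k40 (.l (.s k3 k2
  0 (.s k41 k22 6 (.s k61 k21 5 (.s k125 k190 8 (.s k253 k189 7 (.d k85 k170 k169 14 13))))))) (.c
  k85 (.l (.s k3 k2 0 (.s k41 k22 6 (.s k21 k61 5 (.s k42 k63 6 (.d k40 k43 k20 0 5)))))) .n)))
  .n))) (.c k225 (.q k210 [(.s k20 k40 5 (.s k150 k180 4 (.d k85 k170 k215 14 8))), (.s k3 k2 0 (.s
  k40 k20 5 (.s k41 k22 6 (.s k21 k61 5 (.d k42 k43 k63 0 6))))), (.s k170 k85 14 (.s k150 k180 4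
  (.d k190 k125 k130 8 5)))] .n) .n))) (.c k120 (.q k105 [(.s k40 k20 5 (.d k170 k235 k85 8 14)),
  (.s k85 k170 14 (.d k125 k65 k190 5 8))] (.c k85 (.l (.s k40 k20 5 (.s k170 k235 8 (.s k190 k125 8
  (.d k150 k180 k130 4 5))))) (.c k170 (.l (.s k20 k40 5 (.s k125 k190 8 (.s k85 k65 5 (.d k150 k180
  k215 4 8))))) (.c k210 (.l (.s k225 k45 9 (.s k40 k20 5 (.d k170 k235 k85 8 14)))) (.c k225 (.q
  k210 [(.s k40 k20 5 (.d k170 k235 k85 8 14)), (.s k85 k170 14 (.d k125 k65 k190 5 8))] (.c k85 (.l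
  (.s k40 k20 5 (.s k170 k235 8 (.s k190 k125 8 (.d k150 k180 k130 4 5))))) (.c k170 (.l (.s k20 k40
  5 (.s k125 k190 8 (.s k85 k65 5 (.d k150 k180 k215 4 8))))) .n))) .n))))) (.c k210 (.q k225 [(.s
  k20 k40 5 (.s k150 k180 4 (.d k85 k215 k170 8 14))), (.s k85 k170 14 (.s k105 k45 9 (.d k125 k65
  k190 5 8))), (.s k3 k2 0 (.s k40 k20 5 (.s k41 k22 6 (.s k21 k61 5 (.d k42 k43 k63 0 6)))))] (.c
  k30 (.l (.s k150 k180 4 (.s k20 k40 5 (.d k85 k215 k170 8 14)))) (.c k105 (.q k120 [(.s k20 k40 5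
  (.s k150 k180 4 (.d k85 k170 k215 14 8))), (.s k3 k2 0 (.s k40 k20 5 (.s k41 k22 6 (.s k21 k61 5
  (.d k42 k43 k63 0 6))))), (.s k170 k85 14 (.s k150 k180 4 (.d k190 k125 k130 8 5)))] (.c k30 (.l
  (.s k150 k180 4 (.s k20 k40 5 (.d k85 k170 k215 14 8)))) (.c k150 (.q k30 [(.s k3 k2 0 (.s k40 k20
  5 (.s k41 k22 6 (.s k42 k43 0 (.d k21 k61 k63 5 6))))), (.s k85 k170 14 (.s k169 k253 13 (.s k5
  k245 11 (.s k13 k9 1 (.s k241 k89 13 (.d k161 k173 k81 1 11))))))] (.c k40 (.l (.s k3 k2 0 (.s k41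
  k22 6 (.s k61 k21 5 (.s k125 k190 8 (.s k253 k189 7 (.d k85 k170 k169 14 13))))))) (.c k85 (.l (.s
  k3 k2 0 (.s k41 k22 6 (.s k21 k61 5 (.s k42 k63 6 (.d k40 k43 k20 0 5)))))) .n))) .n))) (.c k120
  (.l (.s k105 k45 9 (.s k40 k20 5 (.d k170 k235 k85 8 14)))) (.c k150 (.q k30 [(.s k40 k20 5 (.s
  k105 k45 9 (.d k170 k85 k235 14 8))), (.s k3 k2 0 (.s k41 k22 6 (.s k21 k61 5 (.s k42 k63 6 (.d
  k40 k43 k20 0 5))))), (.s k85 k170 14 (.s k105 k45 9 (.d k125 k190 k65 8 5)))] (.c k105 (.q k120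
  [(.s k3 k2 0 (.s k40 k20 5 (.s k41 k22 6 (.s k42 k43 0 (.d k21 k61 k63 5 6))))), (.s k85 k170 14
  (.s k169 k253 13 (.s k5 k245 11 (.s k13 k9 1 (.s k241 k89 13 (.d k161 k173 k81 1 11))))))] (.c k40
  (.l (.s k3 k2 0 (.s k41 k22 6 (.s k61 k21 5 (.s k125 k190 8 (.s k253 k189 7 (.d k85 k170 k169 14
  13))))))) (.c k85 (.l (.s k3 k2 0 (.s k41 k22 6 (.s k21 k61 5 (.s k42 k63 6 (.d k40 k43 k20 0
  5)))))) .n))) (.c k120 (.l (.s k105 k45 9 (.s k40 k20 5 (.d k170 k85 k235 14 8)))) .n))) .n)))))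
  (.c k225 (.q k210 [(.s k20 k40 5 (.s k150 k180 4 (.d k85 k215 k170 8 14))), (.s k3 k2 0 (.s k40
  k20 5 (.s k41 k22 6 (.s k21 k61 5 (.d k42 k43 k63 0 6))))), (.s k170 k85 14 (.s k190 k125 8 (.d
  k150 k180 k130 4 5)))] (.c k105 (.q k120 [(.s k20 k40 5 (.s k150 k180 4 (.d k85 k170 k215 14 8))),
  (.s k3 k2 0 (.s k40 k20 5 (.s k41 k22 6 (.s k21 k61 5 (.d k42 k43 k63 0 6))))), (.s k170 k85 14
  (.s k150 k180 4 (.d k190 k125 k130 8 5)))] .n) (.c k120 (.q k105 [(.s k40 k20 5 (.d k170 k235 k85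
  8 14)), (.s k85 k170 14 (.d k125 k65 k190 5 8))] (.c k85 (.l (.s k40 k20 5 (.s k170 k235 8 (.s
  k190 k125 8 (.d k150 k180 k130 4 5))))) (.c k170 (.l (.s k20 k40 5 (.s k125 k190 8 (.s k85 k65 5
  (.d k150 k180 k215 4 8))))) .n))) .n))) .n))))) (.c k135 (.q k75 [(.s k3 k2 0 (.s k40 k20 5 (.s
  k41 k22 6 (.s k21 k61 5 (.d k42 k43 k63 0 6))))), (.s k85 k170 14 (.s k169 k253 13 (.s k5 k245 11
  (.s k13 k9 1 (.s k241 k89 13 (.d k161 k173 k81 1 11))))))] (.c k210 (.q k225 [(.s k40 k20 5 (.s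
  k105 k45 9 (.d k170 k235 k85 8 14))), (.s k3 k2 0 (.s k40 k20 5 (.s k41 k22 6 (.s k21 k61 5 (.d
  k42 k43 k63 0 6))))), (.s k85 k170 14 (.s k105 k45 9 (.d k125 k65 k190 5 8)))] (.c k30 (.q k150
  [(.s k20 k40 5 (.d k85 k215 k170 8 14)), (.s k170 k85 14 (.d k190 k130 k125 5 8))] (.c k85 (.l (.s
  k40 k20 5 (.s k105 k45 9 (.s k170 k235 8 (.d k190 k130 k125 5 8))))) (.c k170 (.l (.s k20 k40 5
  (.s k85 k215 8 (.s k105 k45 9 (.d k125 k65 k190 5 8))))) .n))) (.c k150 (.q k30 [(.s k40 k20 5 (.s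
  k105 k45 9 (.d k170 k85 k235 14 8))), (.s k3 k2 0 (.s k41 k22 6 (.s k21 k61 5 (.s k42 k63 6 (.d
  k40 k43 k20 0 5))))), (.s k85 k170 14 (.s k105 k45 9 (.d k125 k190 k65 8 5)))] .n) .n))) (.c k225
  (.q k210 [(.s k3 k2 0 (.s k40 k20 5 (.s k41 k22 6 (.s k21 k61 5 (.d k42 k43 k63 0 6))))), (.s k85
  k170 14 (.s k169 k253 13 (.s k5 k245 11 (.s k13 k9 1 (.s k241 k89 13 (.d k161 k173 k81 1 11))))))]
  .n) .n))) (.c k210 (.q k225 [(.s k40 k20 5 (.s k105 k45 9 (.d k170 k235 k85 8 14))), (.s k3 k2 0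
  (.s k40 k20 5 (.s k41 k22 6 (.s k21 k61 5 (.d k42 k43 k63 0 6))))), (.s k85 k170 14 (.s k105 k45 9
  (.d k125 k65 k190 5 8)))] (.c k30 (.q k150 [(.s k20 k40 5 (.d k85 k215 k170 8 14)), (.s k170 k85
  14 (.d k190 k130 k125 5 8))] (.c k75 (.l (.s k135 k180 4 (.s k20 k40 5 (.d k85 k215 k170 8 14))))
  (.c k85 (.l (.s k40 k20 5 (.s k105 k45 9 (.s k170 k235 8 (.d k190 k130 k125 5 8))))) (.c k135 (.q
  k75 [(.s k20 k40 5 (.d k85 k215 k170 8 14)), (.s k170 k85 14 (.d k190 k130 k125 5 8))] (.c k85 (.l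
  (.s k40 k20 5 (.s k105 k45 9 (.s k170 k235 8 (.d k190 k130 k125 5 8))))) (.c k170 (.l (.s k20 k40
  5 (.s k85 k215 8 (.s k105 k45 9 (.d k125 k65 k190 5 8))))) .n))) (.c k170 (.l (.s k20 k40 5 (.s
  k85 k215 8 (.s k105 k45 9 (.d k125 k65 k190 5 8))))) .n))))) (.c k75 (.q k135 [(.s k20 k40 5 (.s
  k150 k180 4 (.d k85 k215 k170 8 14))), (.s k85 k170 14 (.s k105 k45 9 (.d k125 k65 k190 5 8))),
  (.s k3 k2 0 (.s k40 k20 5 (.s k41 k22 6 (.s k21 k61 5 (.d k42 k43 k63 0 6)))))] (.c k30 (.l (.s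
  k150 k180 4 (.s k20 k40 5 (.d k85 k215 k170 8 14)))) (.c k105 (.q k120 [(.s k20 k40 5 (.s k150
  k180 4 (.d k85 k170 k215 14 8))), (.s k3 k2 0 (.s k40 k20 5 (.s k41 k22 6 (.s k21 k61 5 (.d k42
  k43 k63 0 6))))), (.s k170 k85 14 (.s k150 k180 4 (.d k190 k125 k130 8 5)))] (.c k30 (.l (.s k150
  k180 4 (.s k20 k40 5 (.d k85 k170 k215 14 8)))) (.c k150 (.q k30 [(.s k3 k2 0 (.s k40 k20 5 (.s
  k41 k22 6 (.s k42 k43 0 (.d k21 k61 k63 5 6))))), (.s k85 k170 14 (.s k169 k253 13 (.s k5 k245 11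
  (.s k13 k9 1 (.s k241 k89 13 (.d k161 k173 k81 1 11))))))] (.c k40 (.l (.s k3 k2 0 (.s k41 k22 6
  (.s k61 k21 5 (.s k125 k190 8 (.s k253 k189 7 (.d k85 k170 k169 14 13))))))) (.c k85 (.l (.s k3 k2
  0 (.s k41 k22 6 (.s k21 k61 5 (.s k42 k63 6 (.d k40 k43 k20 0 5)))))) .n))) .n))) (.c k120 (.l (.s
  k105 k45 9 (.s k40 k20 5 (.d k170 k235 k85 8 14)))) (.c k150 (.q k30 [(.s k40 k20 5 (.s k105 k45 9
  (.d k170 k85 k235 14 8))), (.s k3 k2 0 (.s k41 k22 6 (.s k21 k61 5 (.s k42 k63 6 (.d k40 k43 k20 0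
  5))))), (.s k85 k170 14 (.s k105 k45 9 (.d k125 k190 k65 8 5)))] (.c k105 (.q k120 [(.s k3 k2 0
  (.s k40 k20 5 (.s k41 k22 6 (.s k42 k43 0 (.d k21 k61 k63 5 6))))), (.s k85 k170 14 (.s k169 k253
  13 (.s k5 k245 11 (.s k13 k9 1 (.s k241 k89 13 (.d k161 k173 k81 1 11))))))] (.c k40 (.l (.s k3 k2
  0 (.s k41 k22 6 (.s k61 k21 5 (.s k125 k190 8 (.s k253 k189 7 (.d k85 k170 k169 14 13))))))) (.c
  k85 (.l (.s k3 k2 0 (.s k41 k22 6 (.s k21 k61 5 (.s k42 k63 6 (.d k40 k43 k20 0 5)))))) .n))) (.c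
  k120 (.l (.s k105 k45 9 (.s k40 k20 5 (.d k170 k85 k235 14 8)))) .n))) .n))))) (.c k135 (.q k75
  [(.s k40 k20 5 (.s k105 k45 9 (.d k170 k235 k85 8 14))), (.s k3 k2 0 (.s k40 k20 5 (.s k41 k22 6
  (.s k21 k61 5 (.d k42 k43 k63 0 6))))), (.s k85 k170 14 (.s k105 k45 9 (.d k125 k65 k190 5 8)))]
  (.c k30 (.q k150 [(.s k20 k40 5 (.d k85 k215 k170 8 14)), (.s k170 k85 14 (.d k190 k130 k125 5
  8))] (.c k85 (.l (.s k40 k20 5 (.s k105 k45 9 (.s k170 k235 8 (.d k190 k130 k125 5 8))))) (.c k170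
  (.l (.s k20 k40 5 (.s k85 k215 8 (.s k105 k45 9 (.d k125 k65 k190 5 8))))) .n))) (.c k150 (.q k30
  [(.s k40 k20 5 (.s k105 k45 9 (.d k170 k85 k235 14 8))), (.s k3 k2 0 (.s k41 k22 6 (.s k21 k61 5
  (.s k42 k63 6 (.d k40 k43 k20 0 5))))), (.s k85 k170 14 (.s k105 k45 9 (.d k125 k190 k65 8 5)))]
  .n) .n))) (.c k150 (.q k30 [(.s k40 k20 5 (.s k105 k45 9 (.d k170 k85 k235 14 8))), (.s k3 k2 0
  (.s k41 k22 6 (.s k21 k61 5 (.s k42 k63 6 (.d k40 k43 k20 0 5))))), (.s k85 k170 14 (.s k105 k45 9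
  (.d k125 k190 k65 8 5)))] (.c k75 (.q k135 [(.s k40 k20 5 (.s k105 k45 9 (.d k170 k85 k235 14
  8))), (.s k3 k2 0 (.s k41 k22 6 (.s k21 k61 5 (.s k42 k63 6 (.d k40 k43 k20 0 5))))), (.s k85 k170
  14 (.s k105 k45 9 (.d k125 k190 k65 8 5)))] (.c k105 (.q k120 [(.s k3 k2 0 (.s k40 k20 5 (.s k41
  k22 6 (.s k42 k43 0 (.d k21 k61 k63 5 6))))), (.s k85 k170 14 (.s k169 k253 13 (.s k5 k245 11 (.s
  k13 k9 1 (.s k241 k89 13 (.d k161 k173 k81 1 11))))))] (.c k40 (.l (.s k3 k2 0 (.s k41 k22 6 (.s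
  k61 k21 5 (.s k125 k190 8 (.s k253 k189 7 (.d k85 k170 k169 14 13))))))) (.c k85 (.l (.s k3 k2 0
  (.s k41 k22 6 (.s k21 k61 5 (.s k42 k63 6 (.d k40 k43 k20 0 5)))))) .n))) (.c k120 (.l (.s k105
  k45 9 (.s k40 k20 5 (.d k170 k85 k235 14 8)))) .n))) (.c k135 (.q k75 [(.s k40 k20 5 (.s k105 k45
  9 (.d k170 k85 k235 14 8))), (.s k3 k2 0 (.s k41 k22 6 (.s k21 k61 5 (.s k42 k63 6 (.d k40 k43 k20
  0 5))))), (.s k85 k170 14 (.s k105 k45 9 (.d k125 k190 k65 8 5)))] .n) .n))) .n))))) (.c k225 (.q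
  k210 [(.s k3 k2 0 (.s k40 k20 5 (.s k41 k22 6 (.s k21 k61 5 (.d k42 k43 k63 0 6))))), (.s k85 k170
  14 (.s k169 k253 13 (.s k5 k245 11 (.s k13 k9 1 (.s k241 k89 13 (.d k161 k173 k81 1 11))))))] (.c
  k75 (.q k135 [(.s k20 k40 5 (.s k150 k180 4 (.d k85 k215 k170 8 14))), (.s k3 k2 0 (.s k40 k20 5
  (.s k41 k22 6 (.s k21 k61 5 (.d k42 k43 k63 0 6))))), (.s k170 k85 14 (.s k190 k125 8 (.d k150
  k180 k130 4 5)))] (.c k105 (.q k120 [(.s k20 k40 5 (.s k150 k180 4 (.d k85 k170 k215 14 8))), (.s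
  k3 k2 0 (.s k40 k20 5 (.s k41 k22 6 (.s k21 k61 5 (.d k42 k43 k63 0 6))))), (.s k170 k85 14 (.s
  k150 k180 4 (.d k190 k125 k130 8 5)))] .n) (.c k120 (.q k105 [(.s k40 k20 5 (.d k170 k235 k85 8
  14)), (.s k85 k170 14 (.d k125 k65 k190 5 8))] (.c k85 (.l (.s k40 k20 5 (.s k170 k235 8 (.s k190
  k125 8 (.d k150 k180 k130 4 5))))) (.c k170 (.l (.s k20 k40 5 (.s k125 k190 8 (.s k85 k65 5 (.d
  k150 k180 k215 4 8))))) .n))) .n))) (.c k135 (.q k75 [(.s k3 k2 0 (.s k40 k20 5 (.s k41 k22 6 (.s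
  k21 k61 5 (.d k42 k43 k63 0 6))))), (.s k85 k170 14 (.s k169 k253 13 (.s k5 k245 11 (.s k13 k9 1
  (.s k241 k89 13 (.d k161 k173 k81 1 11))))))] .n) .n))) .n))))) (.c k215 (.l (.s k40 k20 5 (.s
  k190 k125 8 (.s k170 k85 14 (.s k150 k130 5 (.d k105 k235 k195 8 14)))))) (.c k235 (.l (.s k20 k40
  5 (.s k125 k190 8 (.s k85 k170 14 (.s k105 k65 5 (.d k150 k215 k195 8 14)))))) .n)))))))))))) (.c
  k105 (.q k48 [(.s k16 k32 3 (.s k20 k40 5 (.s k24 k28 1 (.s k52 k56 1 (.d k36 k4 k12 3 5))))), (.s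
  k52 k56 1 (.s k117 k186 10 (.s k182 k247 8 (.s k121 k243 10 (.d k125 k113 k190 1 8))))), (.s k16
  k32 3 (.s k85 k170 14 (.s k154 k223 10 (.s k101 k207 14 (.d k117 k69 k186 3 10)))))] (.c k90 (.q
  k165 [(.s k16 k32 3 (.s k20 k40 5 (.s k24 k28 1 (.s k52 k56 1 (.d k36 k4 k12 3 5))))), (.s k52 k56
  1 (.s k117 k186 10 (.s k182 k247 8 (.s k121 k243 10 (.d k125 k113 k190 1 8))))), (.s k16 k32 3 (.s
  k85 k170 14 (.s k154 k223 10 (.s k101 k207 14 (.d k117 k69 k186 3 10)))))] (.c k75 (.q k120 [(.s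
  k16 k32 3 (.s k20 k40 5 (.s k24 k28 1 (.s k52 k56 1 (.d k36 k4 k12 3 5))))), (.s k52 k56 1 (.s
  k117 k186 10 (.s k182 k247 8 (.s k121 k243 10 (.d k125 k113 k190 1 8))))), (.s k16 k32 3 (.s k85
  k170 14 (.s k154 k223 10 (.s k101 k207 14 (.d k117 k69 k186 3 10)))))] (.c k135 (.q k195 [(.s k16
  k32 3 (.s k20 k40 5 (.s k24 k28 1 (.s k52 k56 1 (.d k36 k4 k12 3 5))))), (.s k65 k130 8 (.s k97
  k146 12 (.s k117 k186 10 (.s k125 k190 8 (.d k113 k121 k81 1 3)))))] (.c k170 (.l (.s k16 k32 3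
  (.s k130 k65 8 (.s k146 k97 12 (.s k81 k211 8 (.d k162 k178 k243 3 12)))))) .n)) (.c k154 (.l (.s
  k16 k32 3 (.s k20 k40 5 (.s k24 k28 1 (.s k36 k12 5 (.d k52 k56 k4 1 3)))))) (.c k195 (.q k135
  [(.s k20 k40 5 (.s k150 k180 4 (.d k85 k170 k215 14 8))), (.s k32 k16 3 (.s k40 k20 5 (.s k36 k44
  1 (.s k24 k12 5 (.d k56 k52 k8 1 3))))), (.s k170 k85 14 (.s k150 k180 4 (.d k190 k125 k130 8
  5)))] (.c k210 (.q k225 [(.s k20 k40 5 (.s k150 k180 4 (.d k85 k170 k215 14 8))), (.s k32 k16 3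
  (.s k40 k20 5 (.s k36 k44 1 (.s k24 k12 5 (.d k56 k52 k8 1 3))))), (.s k170 k85 14 (.s k150 k180 4
  (.d k190 k125 k130 8 5)))] (.c k30 (.l (.s k150 k180 4 (.s k20 k40 5 (.d k85 k170 k215 14 8))))
  (.c k150 (.q k30 [(.s k16 k32 3 (.s k20 k40 5 (.s k52 k56 1 (.s k36 k4 3 (.d k24 k28 k12 1 5))))),
  (.s k52 k56 1 (.s k117 k186 10 (.s k182 k247 8 (.s k121 k243 10 (.d k125 k113 k190 1 8))))), (.s
  k16 k32 3 (.s k20 k40 5 (.s k24 k28 1 (.s k36 k12 5 (.d k52 k56 k4 1 3))))), (.s k16 k32 3 (.s k85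
  k170 14 (.s k154 k223 10 (.s k101 k207 14 (.d k117 k69 k186 3 10)))))] .n) .n))) (.c k225 (.q k210
  [(.s k20 k40 5 (.s k150 k180 4 (.d k85 k170 k215 14 8))), (.s k32 k16 3 (.s k40 k20 5 (.s k36 k44
  1 (.s k24 k12 5 (.d k56 k52 k8 1 3))))), (.s k170 k85 14 (.s k150 k180 4 (.d k190 k125 k130 8
  5)))] .n) .n))) .n)))) (.c k120 (.q k75 [(.s k16 k32 3 (.s k20 k40 5 (.s k24 k28 1 (.s k36 k12 5
  (.d k52 k56 k4 1 3))))), (.s k52 k56 1 (.s k117 k186 10 (.s k182 k247 8 (.s k121 k243 10 (.d k125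
  k113 k190 1 8))))), (.s k16 k32 3 (.s k85 k170 14 (.s k154 k223 10 (.s k101 k207 14 (.d k117 k69
  k186 3 10)))))] .n) (.c k154 (.l (.s k16 k32 3 (.s k20 k40 5 (.s k24 k28 1 (.s k36 k12 5 (.d k52
  k56 k4 1 3)))))) .n)))) (.c k154 (.l (.s k16 k32 3 (.s k20 k40 5 (.s k24 k28 1 (.s k36 k12 5 (.d
  k52 k56 k4 1 3)))))) (.c k165 (.q k90 [(.s k16 k32 3 (.s k20 k40 5 (.s k24 k28 1 (.s k52 k56 1 (.d
  k36 k4 k12 3 5))))), (.s k52 k56 1 (.s k117 k186 10 (.s k182 k247 8 (.s k121 k243 10 (.d k125 k113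
  k190 1 8))))), (.s k16 k32 3 (.s k85 k170 14 (.s k154 k223 10 (.s k101 k207 14 (.d k117 k69 k186 3
  10)))))] (.c k45 (.q k225 [(.s k16 k32 3 (.s k20 k40 5 (.s k24 k28 1 (.s k52 k56 1 (.d k36 k4 k12
  3 5))))), (.s k52 k56 1 (.s k117 k186 10 (.s k182 k247 8 (.s k121 k243 10 (.d k125 k113 k190 1
  8))))), (.s k16 k32 3 (.s k85 k170 14 (.s k154 k223 10 (.s k101 k207 14 (.d k117 k69 k186 3
  10)))))] (.c k154 (.l (.s k16 k32 3 (.s k20 k40 5 (.s k24 k28 1 (.s k36 k12 5 (.d k52 k56 k4 1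
  3)))))) .n)) (.c k154 (.l (.s k16 k32 3 (.s k20 k40 5 (.s k24 k28 1 (.s k36 k12 5 (.d k52 k56 k4 1
  3)))))) (.c k225 (.q k45 [(.s k16 k32 3 (.s k20 k40 5 (.s k24 k28 1 (.s k52 k56 1 (.d k36 k4 k12 3
  5))))), (.s k52 k56 1 (.s k117 k186 10 (.s k182 k247 8 (.s k121 k243 10 (.d k125 k113 k190 1
  8))))), (.s k16 k32 3 (.s k85 k170 14 (.s k154 k223 10 (.s k101 k207 14 (.d k117 k69 k186 3
  10)))))] (.c k154 (.l (.s k16 k32 3 (.s k20 k40 5 (.s k24 k28 1 (.s k36 k12 5 (.d k52 k56 k4 1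
  3)))))) (.c k195 (.q k210 [(.s k20 k40 5 (.s k150 k30 9 (.d k85 k170 k215 14 8))), (.s k32 k16 3
  (.s k40 k20 5 (.s k36 k44 1 (.s k24 k12 5 (.d k56 k52 k8 1 3))))), (.s k170 k85 14 (.s k150 k30 9
  (.d k190 k125 k130 8 5)))] (.c k75 (.q k135 [(.s k20 k40 5 (.s k150 k30 9 (.d k85 k170 k215 14
  8))), (.s k32 k16 3 (.s k40 k20 5 (.s k36 k44 1 (.s k24 k12 5 (.d k56 k52 k8 1 3))))), (.s k170
  k85 14 (.s k150 k30 9 (.d k190 k125 k130 8 5)))] .n) (.c k135 (.q k75 [(.s k20 k40 5 (.s k150 k30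
  9 (.d k85 k170 k215 14 8))), (.s k32 k16 3 (.s k40 k20 5 (.s k36 k44 1 (.s k24 k12 5 (.d k56 k52
  k8 1 3))))), (.s k170 k85 14 (.s k150 k30 9 (.d k190 k125 k130 8 5)))] (.c k150 (.q k180 [(.s k16
  k32 3 (.s k20 k40 5 (.s k52 k56 1 (.s k36 k4 3 (.d k24 k28 k12 1 5))))), (.s k52 k56 1 (.s k117
  k186 10 (.s k182 k247 8 (.s k121 k243 10 (.d k125 k113 k190 1 8))))), (.s k16 k32 3 (.s k20 k40 5
  (.s k24 k28 1 (.s k36 k12 5 (.d k52 k56 k4 1 3))))), (.s k16 k32 3 (.s k85 k170 14 (.s k154 k223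
  10 (.s k101 k207 14 (.d k117 k69 k186 3 10)))))] .n) (.c k180 (.l (.s k150 k30 9 (.s k20 k40 5 (.d
  k85 k170 k215 14 8)))) .n))) .n))) (.c k210 (.q k195 [(.s k16 k32 3 (.s k20 k40 5 (.s k24 k28 1
  (.s k52 k56 1 (.d k36 k4 k12 3 5))))), (.s k65 k130 8 (.s k97 k146 12 (.s k117 k186 10 (.s k125
  k190 8 (.d k113 k121 k81 1 3)))))] (.c k170 (.l (.s k16 k32 3 (.s k130 k65 8 (.s k146 k97 12 (.s
  k81 k211 8 (.d k162 k178 k243 3 12)))))) .n)) .n)))) .n)))) .n)))) (.c k125 (.f k20 k40 5 (.q k48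
  [(.s k16 k32 3 (.s k24 k28 1 (.s k52 k56 1 (.d k36 k4 k12 3 5)))), (.s k32 k16 3 (.s k170 k85 14
  (.s k101 k239 10 (.s k154 k207 14 (.d k186 k138 k117 3 10))))), (.s k85 k170 14 (.s k150 k215 8
  (.s k52 k56 1 (.s k117 k186 10 (.d k101 k69 k199 3 12)))))] (.c k90 (.q k165 [(.s k16 k32 3 (.s
  k24 k28 1 (.s k52 k56 1 (.d k36 k4 k12 3 5)))), (.s k32 k16 3 (.s k170 k85 14 (.s k101 k239 10 (.s
  k154 k207 14 (.d k186 k138 k117 3 10))))), (.s k85 k170 14 (.s k150 k215 8 (.s k52 k56 1 (.s k117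
  k186 10 (.d k101 k69 k199 3 12)))))] .n) (.c k165 (.q k90 [(.s k16 k32 3 (.s k24 k28 1 (.s k52 k56
  1 (.d k36 k4 k12 3 5)))), (.s k32 k16 3 (.s k170 k85 14 (.s k101 k239 10 (.s k154 k207 14 (.d k186
  k138 k117 3 10))))), (.s k85 k170 14 (.s k150 k215 8 (.s k52 k56 1 (.s k117 k186 10 (.d k101 k69
  k199 3 12)))))] .n) .n)))) (.c k150 (.q k48 [(.s k16 k32 3 (.s k20 k40 5 (.s k52 k56 1 (.s k36 k4
  3 (.d k24 k28 k12 1 5))))), (.s k16 k32 3 (.s k85 k170 14 (.s k154 k223 10 (.s k101 k207 14 (.d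
  k117 k69 k186 3 10))))), (.s k52 k56 1 (.s k117 k186 10 (.s k182 k247 8 (.s k121 k243 10 (.d k125
  k113 k190 1 8)))))] (.c k90 (.q k165 [(.s k16 k32 3 (.s k20 k40 5 (.s k52 k56 1 (.s k36 k4 3 (.d
  k24 k28 k12 1 5))))), (.s k16 k32 3 (.s k85 k170 14 (.s k154 k223 10 (.s k101 k207 14 (.d k117 k69
  k186 3 10))))), (.s k52 k56 1 (.s k117 k186 10 (.s k182 k247 8 (.s k121 k243 10 (.d k125 k113 k190
  1 8)))))] (.c k30 (.q k210 [(.s k16 k32 3 (.s k20 k40 5 (.s k52 k56 1 (.s k36 k4 3 (.d k24 k28 k12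
  1 5))))), (.s k16 k32 3 (.s k85 k170 14 (.s k154 k223 10 (.s k101 k207 14 (.d k117 k69 k186 3
  10))))), (.s k52 k56 1 (.s k117 k186 10 (.s k182 k247 8 (.s k121 k243 10 (.d k125 k113 k190 1
  8)))))] .n) (.c k210 (.q k30 [(.s k16 k32 3 (.s k20 k40 5 (.s k52 k56 1 (.s k36 k4 3 (.d k24 k28
  k12 1 5))))), (.s k16 k32 3 (.s k85 k170 14 (.s k154 k223 10 (.s k101 k207 14 (.d k117 k69 k186 3
  10))))), (.s k52 k56 1 (.s k117 k186 10 (.s k182 k247 8 (.s k121 k243 10 (.d k125 k113 k190 1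
  8)))))] (.c k195 (.q k225 [(.s k40 k20 5 (.s k105 k45 9 (.d k170 k85 k235 14 8))), (.s k16 k32 3
  (.s k20 k40 5 (.s k24 k28 1 (.s k36 k12 5 (.d k52 k56 k4 1 3))))), (.s k85 k170 14 (.s k105 k45 9
  (.d k125 k190 k65 8 5)))] (.c k75 (.q k135 [(.s k40 k20 5 (.s k105 k45 9 (.d k170 k85 k235 14
  8))), (.s k16 k32 3 (.s k20 k40 5 (.s k24 k28 1 (.s k36 k12 5 (.d k52 k56 k4 1 3))))), (.s k85
  k170 14 (.s k105 k45 9 (.d k125 k190 k65 8 5)))] (.c k105 (.q k120 [(.s k16 k32 3 (.s k20 k40 5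
  (.s k52 k56 1 (.s k36 k4 3 (.d k24 k28 k12 1 5))))), (.s k52 k56 1 (.s k117 k186 10 (.s k182 k247
  8 (.s k121 k243 10 (.d k125 k113 k190 1 8))))), (.s k16 k32 3 (.s k20 k40 5 (.s k24 k28 1 (.s k36
  k12 5 (.d k52 k56 k4 1 3))))), (.s k16 k32 3 (.s k85 k170 14 (.s k154 k223 10 (.s k101 k207 14 (.d
  k117 k69 k186 3 10)))))] .n) (.c k120 (.l (.s k105 k45 9 (.s k40 k20 5 (.d k170 k85 k235 14 8))))
  .n))) (.c k135 (.q k75 [(.s k40 k20 5 (.s k105 k45 9 (.d k170 k85 k235 14 8))), (.s k16 k32 3 (.s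
  k20 k40 5 (.s k24 k28 1 (.s k36 k12 5 (.d k52 k56 k4 1 3))))), (.s k85 k170 14 (.s k105 k45 9 (.d
  k125 k190 k65 8 5)))] .n) .n))) (.c k225 (.q k195 [(.s k16 k32 3 (.s k20 k40 5 (.s k52 k56 1 (.s
  k36 k4 3 (.d k24 k28 k12 1 5))))), (.s k130 k65 8 (.s k146 k97 12 (.s k186 k117 10 (.s k190 k125 8
  (.d k178 k182 k162 1 3)))))] .n) .n))) .n))) (.c k165 (.q k90 [(.s k16 k32 3 (.s k20 k40 5 (.s k52
  k56 1 (.s k36 k4 3 (.d k24 k28 k12 1 5))))), (.s k16 k32 3 (.s k85 k170 14 (.s k154 k223 10 (.s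
  k101 k207 14 (.d k117 k69 k186 3 10))))), (.s k52 k56 1 (.s k117 k186 10 (.s k182 k247 8 (.s k121
  k243 10 (.d k125 k113 k190 1 8)))))] (.c k135 (.q k180 [(.s k16 k32 3 (.s k20 k40 5 (.s k52 k56 1
  (.s k36 k4 3 (.d k24 k28 k12 1 5))))), (.s k16 k32 3 (.s k85 k170 14 (.s k154 k223 10 (.s k101
  k207 14 (.d k117 k69 k186 3 10))))), (.s k52 k56 1 (.s k117 k186 10 (.s k182 k247 8 (.s k121 k243
  10 (.d k125 k113 k190 1 8)))))] (.c k75 (.q k195 [(.s k16 k32 3 (.s k130 k65 8 (.s k146 k97 12 (.s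
  k162 k178 3 (.d k81 k211 k243 8 12))))), (.s k16 k32 3 (.s k20 k40 5 (.s k52 k56 1 (.s k36 k4 3
  (.d k24 k28 k12 1 5))))), (.s k130 k65 8 (.s k146 k97 12 (.s k186 k117 10 (.s k190 k125 8 (.d k178
  k182 k162 1 3)))))] .n) (.c k195 (.q k75 [(.s k40 k20 5 (.s k105 k120 4 (.d k170 k85 k235 14 8))),
  (.s k16 k32 3 (.s k20 k40 5 (.s k24 k28 1 (.s k36 k12 5 (.d k52 k56 k4 1 3))))), (.s k85 k170 14
  (.s k105 k120 4 (.d k125 k190 k65 8 5)))] (.c k210 (.q k225 [(.s k40 k20 5 (.s k105 k120 4 (.d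
  k170 k85 k235 14 8))), (.s k16 k32 3 (.s k20 k40 5 (.s k24 k28 1 (.s k36 k12 5 (.d k52 k56 k4 1
  3))))), (.s k85 k170 14 (.s k105 k120 4 (.d k125 k190 k65 8 5)))] .n) (.c k225 (.q k210 [(.s k40
  k20 5 (.s k105 k120 4 (.d k170 k85 k235 14 8))), (.s k16 k32 3 (.s k20 k40 5 (.s k24 k28 1 (.s k36
  k12 5 (.d k52 k56 k4 1 3))))), (.s k85 k170 14 (.s k105 k120 4 (.d k125 k190 k65 8 5)))] (.c k45
  (.l (.s k105 k120 4 (.s k40 k20 5 (.d k170 k85 k235 14 8)))) (.c k105 (.q k45 [(.s k16 k32 3 (.s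
  k20 k40 5 (.s k52 k56 1 (.s k36 k4 3 (.d k24 k28 k12 1 5))))), (.s k52 k56 1 (.s k117 k186 10 (.s
  k182 k247 8 (.s k121 k243 10 (.d k125 k113 k190 1 8))))), (.s k16 k32 3 (.s k20 k40 5 (.s k24 k28
  1 (.s k36 k12 5 (.d k52 k56 k4 1 3))))), (.s k16 k32 3 (.s k85 k170 14 (.s k154 k223 10 (.s k101
  k207 14 (.d k117 k69 k186 3 10)))))] .n) .n))) .n))) .n))) (.c k180 (.q k135 [(.s k16 k32 3 (.s
  k20 k40 5 (.s k52 k56 1 (.s k36 k4 3 (.d k24 k28 k12 1 5))))), (.s k16 k32 3 (.s k85 k170 14 (.s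
  k154 k223 10 (.s k101 k207 14 (.d k117 k69 k186 3 10))))), (.s k52 k56 1 (.s k117 k186 10 (.s k182
  k247 8 (.s k121 k243 10 (.d k125 k113 k190 1 8)))))] .n) .n))) .n))) (.c k165 (.q k90 [(.s k20 k40
  5 (.s k85 k170 14 (.s k150 k215 8 (.s k125 k190 8 (.d k105 k65 k195 5 14))))), (.s k40 k20 5 (.s
  k170 k85 14 (.s k105 k235 8 (.s k150 k195 14 (.d k190 k130 k125 5 8)))))] (.c k20 (.q k48 [(.s k16
  k32 3 (.s k85 k170 14 (.s k154 k223 10 (.s k117 k186 10 (.d k101 k69 k207 3 14))))), (.s k52 k56 1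
  (.s k117 k186 10 (.s k182 k247 8 (.s k121 k243 10 (.d k125 k113 k190 1 8))))), (.s k16 k32 3 (.s
  k85 k170 14 (.s k154 k223 10 (.s k56 k52 1 (.s k105 k203 12 (.d k125 k65 k190 5 8))))))] .n) (.c
  k40 (.q k48 [(.s k32 k16 3 (.s k186 k117 10 (.s k170 k85 14 (.s k154 k138 3 (.d k101 k239 k207 10
  14))))), (.s k52 k56 1 (.s k117 k186 10 (.s k182 k247 8 (.s k121 k243 10 (.d k125 k113 k190 1
  8))))), (.s k16 k32 3 (.s k85 k170 14 (.s k154 k223 10 (.s k56 k52 1 (.s k105 k203 12 (.d k125 k65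
  k190 5 8))))))] .n) (.c k85 (.f k125 k190 8 (.f k20 k40 5 (.q k48 [(.s k16 k32 3 (.s k24 k28 1 (.s
  k52 k56 1 (.d k36 k4 k12 3 5)))), (.s k117 k186 10 (.s k121 k113 1 (.s k182 k243 10 (.d k52 k56
  k247 1 8))))] (.c k5 (.q k245 [(.s k16 k32 3 (.s k24 k28 1 (.s k52 k56 1 (.d k36 k4 k12 3 5)))),
  (.s k117 k186 10 (.s k53 k181 7 (.s k63 k58 2 (.s k61 k62 0 (.s k253 k189 7 (.d k49 k185 k57 9
  1))))))] .n) (.c k52 (.q k21 [(.s k63 k42 6 (.s k22 k23 0 (.s k41 k3 6 (.d k61 k62 k1 0 5)))), (.s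
  k16 k32 3 (.s k28 k24 1 (.s k26 k31 2 (.s k22 k23 0 (.s k18 k30 1 (.d k19 k17 k25 0 2)))))), (.s
  k63 k42 6 (.s k127 k191 7 (.s k126 k124 0 (.s k189 k252 8 (.d k61 k62 k253 0 7)))))] (.c k5 (.q
  k245 [(.s k63 k42 6 (.s k53 k58 2 (.d k117 k181 k186 7 10))), (.s k16 k32 3 (.s k26 k31 2 (.s k22
  k23 0 (.s k18 k30 1 (.d k3 k33 k41 4 6))))), (.s k117 k186 10 (.s k53 k181 7 (.d k63 k58 k42 2
  6)))] (.c k63 (.l (.s k16 k32 3 (.s k22 k23 0 (.s k3 k41 6 (.s k18 k33 4 (.d k26 k30 k31 1 2))))))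
  .n)) (.c k63 (.l (.s k16 k32 3 (.s k22 k23 0 (.s k3 k41 6 (.s k18 k33 4 (.d k26 k30 k31 1 2))))))
  (.c k245 (.q k5 [(.s k63 k42 6 (.d k53 k58 k37 2 3)), (.s k16 k32 3 (.s k26 k31 2 (.s k22 k23 0
  (.s k18 k30 1 (.d k3 k33 k41 4 6)))))] (.c k41 (.l (.s k53 k37 3 (.d k63 k58 k42 2 6))) (.c k63
  (.l (.s k16 k32 3 (.s k22 k23 0 (.s k3 k41 6 (.s k18 k33 4 (.d k26 k30 k31 1 2)))))) .n))) .n))))
  (.c k56 (.l (.s k16 k32 3 (.s k24 k28 1 (.s k36 k12 5 (.s k52 k4 3 (.s k117 k186 10 (.s k121 k113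
  1 (.d k182 k247 k243 8 10)))))))) (.c k245 (.q k5 [(.s k16 k32 3 (.s k24 k28 1 (.s k52 k56 1 (.d
  k36 k4 k12 3 5)))), (.s k117 k186 10 (.s k121 k113 1 (.s k182 k243 10 (.d k52 k56 k247 1 8))))]
  (.c k52 (.q k21 [(.s k63 k42 6 (.d k53 k58 k37 2 3)), (.s k16 k32 3 (.s k26 k31 2 (.s k22 k23 0
  (.s k18 k30 1 (.d k3 k33 k41 4 6)))))] (.c k41 (.l (.s k53 k37 3 (.d k63 k58 k42 2 6))) (.c k63
  (.l (.s k16 k32 3 (.s k22 k23 0 (.s k3 k41 6 (.s k18 k33 4 (.d k26 k30 k31 1 2)))))) .n))) (.c k56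
  (.l (.s k16 k32 3 (.s k24 k28 1 (.s k36 k12 5 (.s k52 k4 3 (.s k117 k186 10 (.s k121 k113 1 (.d
  k182 k247 k243 8 10)))))))) .n))) .n))))))) (.c k105 (.q k48 [(.s k16 k32 3 (.s k20 k40 5 (.s k24
  k28 1 (.s k52 k56 1 (.d k36 k4 k12 3 5))))), (.s k52 k56 1 (.s k117 k186 10 (.s k182 k247 8 (.s
  k121 k243 10 (.d k125 k113 k190 1 8))))), (.s k16 k32 3 (.s k85 k170 14 (.s k154 k223 10 (.s k101
  k207 14 (.d k117 k69 k186 3 10)))))] (.c k45 (.q k225 [(.s k16 k32 3 (.s k20 k40 5 (.s k24 k28 1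
  (.s k52 k56 1 (.d k36 k4 k12 3 5))))), (.s k52 k56 1 (.s k117 k186 10 (.s k182 k247 8 (.s k121
  k243 10 (.d k125 k113 k190 1 8))))), (.s k16 k32 3 (.s k85 k170 14 (.s k154 k223 10 (.s k101 k207
  14 (.d k117 k69 k186 3 10)))))] (.c k154 (.l (.s k16 k32 3 (.s k20 k40 5 (.s k24 k28 1 (.s k36 k12
  5 (.d k52 k56 k4 1 3)))))) .n)) (.c k154 (.l (.s k16 k32 3 (.s k20 k40 5 (.s k24 k28 1 (.s k36 k12
  5 (.d k52 k56 k4 1 3)))))) (.c k225 (.q k45 [(.s k16 k32 3 (.s k20 k40 5 (.s k24 k28 1 (.s k52 k56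
  1 (.d k36 k4 k12 3 5))))), (.s k52 k56 1 (.s k117 k186 10 (.s k182 k247 8 (.s k121 k243 10 (.d
  k125 k113 k190 1 8))))), (.s k16 k32 3 (.s k85 k170 14 (.s k154 k223 10 (.s k101 k207 14 (.d k117
  k69 k186 3 10)))))] (.c k154 (.l (.s k16 k32 3 (.s k20 k40 5 (.s k24 k28 1 (.s k36 k12 5 (.d k52
  k56 k4 1 3)))))) (.c k195 (.q k210 [(.s k20 k40 5 (.s k150 k30 9 (.d k85 k170 k215 14 8))), (.s
  k32 k16 3 (.s k40 k20 5 (.s k36 k44 1 (.s k24 k12 5 (.d k56 k52 k8 1 3))))), (.s k170 k85 14 (.s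
  k150 k30 9 (.d k190 k125 k130 8 5)))] (.c k75 (.q k135 [(.s k20 k40 5 (.s k150 k30 9 (.d k85 k170
  k215 14 8))), (.s k32 k16 3 (.s k40 k20 5 (.s k36 k44 1 (.s k24 k12 5 (.d k56 k52 k8 1 3))))), (.s
  k170 k85 14 (.s k150 k30 9 (.d k190 k125 k130 8 5)))] .n) (.c k135 (.q k75 [(.s k20 k40 5 (.s k150
  k30 9 (.d k85 k170 k215 14 8))), (.s k32 k16 3 (.s k40 k20 5 (.s k36 k44 1 (.s k24 k12 5 (.d k56
  k52 k8 1 3))))), (.s k170 k85 14 (.s k150 k30 9 (.d k190 k125 k130 8 5)))] (.c k150 (.q k180 [(.s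
  k16 k32 3 (.s k20 k40 5 (.s k52 k56 1 (.s k36 k4 3 (.d k24 k28 k12 1 5))))), (.s k52 k56 1 (.s
  k117 k186 10 (.s k182 k247 8 (.s k121 k243 10 (.d k125 k113 k190 1 8))))), (.s k16 k32 3 (.s k20
  k40 5 (.s k24 k28 1 (.s k36 k12 5 (.d k52 k56 k4 1 3))))), (.s k16 k32 3 (.s k85 k170 14 (.s k154
  k223 10 (.s k101 k207 14 (.d k117 k69 k186 3 10)))))] .n) (.c k180 (.l (.s k150 k30 9 (.s k20 k40
  5 (.d k85 k170 k215 14 8)))) .n))) .n))) (.c k210 (.q k195 [(.s k16 k32 3 (.s k20 k40 5 (.s k24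
  k28 1 (.s k52 k56 1 (.d k36 k4 k12 3 5))))), (.s k65 k130 8 (.s k97 k146 12 (.s k117 k186 10 (.s
  k125 k190 8 (.d k113 k121 k81 1 3)))))] (.c k170 (.l (.s k16 k32 3 (.s k130 k65 8 (.s k146 k97 12
  (.s k81 k211 8 (.d k162 k178 k243 3 12)))))) .n)) .n)))) .n)))) (.c k125 (.q k48 [(.s k16 k32 3
  (.s k20 k40 5 (.s k24 k28 1 (.s k52 k56 1 (.d k36 k4 k12 3 5))))), (.s k16 k32 3 (.s k85 k170 14
  (.s k154 k223 10 (.s k101 k207 14 (.d k117 k69 k186 3 10))))), (.s k20 k40 5 (.s k85 k170 14 (.s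
  k150 k215 8 (.s k52 k56 1 (.s k117 k186 10 (.d k101 k69 k199 3 12))))))] .n) (.c k150 (.q k48 [(.s
  k16 k32 3 (.s k20 k40 5 (.s k52 k56 1 (.s k36 k4 3 (.d k24 k28 k12 1 5))))), (.s k16 k32 3 (.s k85
  k170 14 (.s k154 k223 10 (.s k101 k207 14 (.d k117 k69 k186 3 10))))), (.s k52 k56 1 (.s k117 k186
  10 (.s k182 k247 8 (.s k121 k243 10 (.d k125 k113 k190 1 8)))))] (.c k135 (.q k180 [(.s k16 k32 3
  (.s k20 k40 5 (.s k52 k56 1 (.s k36 k4 3 (.d k24 k28 k12 1 5))))), (.s k16 k32 3 (.s k85 k170 14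
  (.s k154 k223 10 (.s k101 k207 14 (.d k117 k69 k186 3 10))))), (.s k52 k56 1 (.s k117 k186 10 (.s
  k182 k247 8 (.s k121 k243 10 (.d k125 k113 k190 1 8)))))] (.c k75 (.q k195 [(.s k16 k32 3 (.s k130
  k65 8 (.s k146 k97 12 (.s k162 k178 3 (.d k81 k211 k243 8 12))))), (.s k16 k32 3 (.s k20 k40 5 (.s
  k52 k56 1 (.s k36 k4 3 (.d k24 k28 k12 1 5))))), (.s k130 k65 8 (.s k146 k97 12 (.s k186 k117 10
  (.s k190 k125 8 (.d k178 k182 k162 1 3)))))] .n) (.c k195 (.q k75 [(.s k40 k20 5 (.s k105 k120 4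
  (.d k170 k85 k235 14 8))), (.s k16 k32 3 (.s k20 k40 5 (.s k24 k28 1 (.s k36 k12 5 (.d k52 k56 k4
  1 3))))), (.s k85 k170 14 (.s k105 k120 4 (.d k125 k190 k65 8 5)))] (.c k210 (.q k225 [(.s k40 k20
  5 (.s k105 k120 4 (.d k170 k85 k235 14 8))), (.s k16 k32 3 (.s k20 k40 5 (.s k24 k28 1 (.s k36 k12
  5 (.d k52 k56 k4 1 3))))), (.s k85 k170 14 (.s k105 k120 4 (.d k125 k190 k65 8 5)))] .n) (.c k225
  (.q k210 [(.s k40 k20 5 (.s k105 k120 4 (.d k170 k85 k235 14 8))), (.s k16 k32 3 (.s k20 k40 5 (.s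
  k24 k28 1 (.s k36 k12 5 (.d k52 k56 k4 1 3))))), (.s k85 k170 14 (.s k105 k120 4 (.d k125 k190 k65
  8 5)))] (.c k45 (.l (.s k105 k120 4 (.s k40 k20 5 (.d k170 k85 k235 14 8)))) (.c k105 (.q k45 [(.s
  k16 k32 3 (.s k20 k40 5 (.s k52 k56 1 (.s k36 k4 3 (.d k24 k28 k12 1 5))))), (.s k52 k56 1 (.s
  k117 k186 10 (.s k182 k247 8 (.s k121 k243 10 (.d k125 k113 k190 1 8))))), (.s k16 k32 3 (.s k20
  k40 5 (.s k24 k28 1 (.s k36 k12 5 (.d k52 k56 k4 1 3))))), (.s k16 k32 3 (.s k85 k170 14 (.s k154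
  k223 10 (.s k101 k207 14 (.d k117 k69 k186 3 10)))))] .n) .n))) .n))) .n))) (.c k180 (.q k135 [(.s
  k16 k32 3 (.s k20 k40 5 (.s k52 k56 1 (.s k36 k4 3 (.d k24 k28 k12 1 5))))), (.s k16 k32 3 (.s k85
  k170 14 (.s k154 k223 10 (.s k101 k207 14 (.d k117 k69 k186 3 10))))), (.s k52 k56 1 (.s k117 k186
  10 (.s k182 k247 8 (.s k121 k243 10 (.d k125 k113 k190 1 8)))))] .n) .n))) (.c k170 (.q k8 [(.s
  k12 k4 1 (.s k40 k20 5 (.s k24 k56 3 (.s k44 k28 3 (.d k36 k32 k48 1 5))))), (.s k12 k4 1 (.s k28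
  k44 3 (.s k93 k174 12 (.s k158 k223 8 (.s k109 k207 12 (.d k125 k77 k190 3 8)))))), (.s k40 k20 5
  (.s k56 k24 3 (.s k48 k52 1 (.s k186 k117 10 (.s k121 k251 8 (.s k182 k243 10 (.d k190 k178 k125 1
  8)))))))] (.c k4 (.q k48 [(.s k40 k20 5 (.d k56 k52 k24 1 3)), (.s k52 k56 1 (.s k117 k186 10 (.s
  k182 k247 8 (.s k121 k243 10 (.d k125 k113 k190 1 8)))))] (.c k52 (.l (.s k32 k16 3 (.s k40 k20 5
  (.s k36 k44 1 (.d k24 k56 k12 3 5))))) (.c k56 (.q k80 [(.s k20 k40 5 (.s k125 k190 8 (.s k85 k95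
  2 (.s k150 k215 8 (.d k105 k65 k195 5 14))))), (.s k16 k32 3 (.s k117 k186 10 (.s k85 k95 2 (.s
  k154 k223 10 (.d k101 k69 k207 3 14))))), (.s k16 k32 3 (.s k20 k40 5 (.s k28 k24 1 (.s k208 k144
  7 (.s k88 k148 9 (.s k168 k248 11 (.d k84 k252 k92 13 1)))))))] (.c k160 (.q k175 [(.s k20 k40 5
  (.s k125 k190 8 (.s k85 k95 2 (.s k150 k215 8 (.d k105 k65 k195 5 14))))), (.s k16 k32 3 (.s k117
  k186 10 (.s k85 k95 2 (.s k154 k223 10 (.d k101 k69 k207 3 14))))), (.s k16 k32 3 (.s k20 k40 5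
  (.s k28 k24 1 (.s k208 k144 7 (.s k88 k148 9 (.s k168 k248 11 (.d k84 k252 k92 13 1)))))))] .n)
  (.c k175 (.q k160 [(.s k16 k32 3 (.s k144 k208 7 (.s k192 k96 11 (.d k128 k176 k64 3 7)))), (.s
  k20 k40 5 (.s k125 k190 8 (.s k85 k95 2 (.s k150 k215 8 (.d k105 k65 k195 5 14)))))] .n) .n))) (.c
  k160 (.q k175 [(.s k40 k20 5 (.d k56 k52 k24 1 3)), (.s k52 k56 1 (.s k117 k186 10 (.s k182 k247 8
  (.s k121 k243 10 (.d k125 k113 k190 1 8)))))] (.c k52 (.l (.s k32 k16 3 (.s k40 k20 5 (.s k36 k44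
  1 (.d k24 k56 k12 3 5))))) (.c k56 (.q k80 [(.s k20 k40 5 (.s k125 k190 8 (.s k85 k95 2 (.s k150
  k215 8 (.d k105 k65 k195 5 14))))), (.s k16 k32 3 (.s k117 k186 10 (.s k85 k95 2 (.s k154 k223 10
  (.d k101 k69 k207 3 14))))), (.s k16 k32 3 (.s k20 k40 5 (.s k28 k24 1 (.s k208 k144 7 (.s k88
  k148 9 (.s k168 k248 11 (.d k84 k252 k92 13 1)))))))] .n) .n))) (.c k175 (.q k160 [(.s k40 k20 5
  (.d k56 k52 k24 1 3)), (.s k52 k56 1 (.s k117 k186 10 (.s k182 k247 8 (.s k121 k243 10 (.d k125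
  k113 k190 1 8)))))] (.c k52 (.l (.s k32 k16 3 (.s k40 k20 5 (.s k36 k44 1 (.d k24 k56 k12 3 5)))))
  (.c k56 (.l (.s k32 k16 3 (.s k40 k20 5 (.s k96 k224 7 (.s k192 k144 11 (.s k104 k148 13 (.s k168
  k232 7 (.d k100 k236 k108 9 1)))))))) .n))) .n))))) (.c k28 (.f k20 k40 5 (.l (.s k4 k12 1 (.s k52
  k36 3 (.s k48 k56 1 (.s k117 k186 10 (.s k182 k247 8 (.s k121 k243 10 (.d k125 k113 k190 1
  8))))))))) (.c k160 (.q k175 [(.s k12 k4 1 (.s k40 k20 5 (.s k24 k56 3 (.s k44 k28 3 (.d k36 k32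
  k48 1 5))))), (.s k12 k4 1 (.s k28 k44 3 (.s k93 k174 12 (.s k158 k223 8 (.s k109 k207 12 (.d k125
  k77 k190 3 8)))))), (.s k40 k20 5 (.s k56 k24 3 (.s k48 k52 1 (.s k186 k117 10 (.s k121 k251 8 (.s
  k182 k243 10 (.d k190 k178 k125 1 8)))))))] (.c k4 (.q k48 [(.s k40 k20 5 (.d k56 k52 k24 1 3)),
  (.s k52 k56 1 (.s k117 k186 10 (.s k182 k247 8 (.s k121 k243 10 (.d k125 k113 k190 1 8)))))] (.c
  k52 (.l (.s k32 k16 3 (.s k40 k20 5 (.s k36 k44 1 (.d k24 k56 k12 3 5))))) (.c k56 (.q k80 [(.s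
  k20 k40 5 (.s k125 k190 8 (.s k85 k95 2 (.s k150 k215 8 (.d k105 k65 k195 5 14))))), (.s k16 k32 3
  (.s k117 k186 10 (.s k85 k95 2 (.s k154 k223 10 (.d k101 k69 k207 3 14))))), (.s k16 k32 3 (.s k20
  k40 5 (.s k28 k24 1 (.s k208 k144 7 (.s k88 k148 9 (.s k168 k248 11 (.d k84 k252 k92 13 1)))))))]
  .n) .n))) (.c k28 (.f k20 k40 5 (.l (.s k4 k12 1 (.s k52 k36 3 (.s k48 k56 1 (.s k117 k186 10 (.s
  k182 k247 8 (.s k121 k243 10 (.d k125 k113 k190 1 8))))))))) .n))) (.c k175 (.q k160 [(.s k12 k4 1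
  (.s k40 k20 5 (.s k24 k56 3 (.s k44 k28 3 (.d k36 k32 k48 1 5))))), (.s k12 k4 1 (.s k28 k44 3 (.s
  k93 k174 12 (.s k158 k223 8 (.s k109 k207 12 (.d k125 k77 k190 3 8)))))), (.s k40 k20 5 (.s k56
  k24 3 (.s k48 k52 1 (.s k186 k117 10 (.s k121 k251 8 (.s k182 k243 10 (.d k190 k178 k125 1
  8)))))))] (.c k4 (.q k48 [(.s k40 k20 5 (.d k56 k52 k24 1 3)), (.s k52 k56 1 (.s k117 k186 10 (.s
  k182 k247 8 (.s k121 k243 10 (.d k125 k113 k190 1 8)))))] (.c k52 (.l (.s k32 k16 3 (.s k40 k20 5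
  (.s k36 k44 1 (.d k24 k56 k12 3 5))))) (.c k56 (.l (.s k32 k16 3 (.s k40 k20 5 (.s k96 k224 7 (.s
  k192 k144 11 (.s k104 k148 13 (.s k168 k232 7 (.d k100 k236 k108 9 1)))))))) .n))) (.c k28 (.q k48
  [(.s k56 k52 1 (.d k40 k24 k20 3 5)), (.s k52 k56 1 (.s k117 k186 10 (.s k182 k247 8 (.s k121 k243
  10 (.d k125 k113 k190 1 8)))))] (.c k52 (.l (.s k40 k20 5 (.s k24 k56 3 (.d k12 k4 k36 1 5)))) (.c
  k56 (.l (.s k4 k12 1 (.s k20 k40 5 (.s k52 k36 3 (.s k117 k186 10 (.s k182 k247 8 (.s k121 k243 10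
  (.d k125 k113 k190 1 8)))))))) .n))) .n))) .n))))) (.c k190 (.q k48 [(.s k16 k32 3 (.s k20 k40 5
  (.s k24 k28 1 (.s k52 k56 1 (.d k36 k4 k12 3 5))))), (.s k16 k32 3 (.s k85 k170 14 (.s k154 k223
  10 (.s k101 k207 14 (.d k117 k69 k186 3 10))))), (.s k20 k40 5 (.s k85 k170 14 (.s k150 k215 8 (.s
  k52 k56 1 (.s k117 k186 10 (.d k101 k69 k199 3 12))))))] .n) (.c k195 (.q k3 [(.s k1 k2 0 (.s k40
  k20 5 (.s k41 k22 6 (.s k21 k61 5 (.d k42 k43 k63 0 6))))), (.s k1 k2 0 (.s k85 k170 14 (.s k169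
  k253 13 (.s k86 k252 14 (.d k87 k84 k171 0 13))))), (.s k20 k40 5 (.s k85 k170 14 (.s k22 k41 6
  (.s k87 k171 13 (.s k150 k215 8 (.d k86 k84 k214 0 7))))))] (.c k75 (.q k135 [(.s k1 k2 0 (.s k40
  k20 5 (.s k41 k22 6 (.s k21 k61 5 (.d k42 k43 k63 0 6))))), (.s k1 k2 0 (.s k85 k170 14 (.s k169
  k253 13 (.s k86 k252 14 (.d k87 k84 k171 0 13))))), (.s k20 k40 5 (.s k85 k170 14 (.s k22 k41 6
  (.s k87 k171 13 (.s k150 k215 8 (.d k86 k84 k214 0 7))))))] (.c k210 (.q k225 [(.s k1 k2 0 (.s k40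
  k20 5 (.s k41 k22 6 (.s k21 k61 5 (.d k42 k43 k63 0 6))))), (.s k1 k2 0 (.s k85 k170 14 (.s k169
  k253 13 (.s k86 k252 14 (.d k87 k84 k171 0 13))))), (.s k20 k40 5 (.s k85 k170 14 (.s k22 k41 6
  (.s k87 k171 13 (.s k150 k215 8 (.d k86 k84 k214 0 7))))))] .n) (.c k225 (.q k210 [(.s k20 k40 5
  (.s k150 k30 9 (.d k85 k215 k170 8 14))), (.s k1 k2 0 (.s k40 k20 5 (.s k41 k22 6 (.s k21 k61 5
  (.d k42 k43 k63 0 6))))), (.s k170 k85 14 (.s k150 k30 9 (.d k190 k130 k125 5 8)))] (.c k45 (.q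
  k105 [(.s k40 k20 5 (.d k170 k235 k85 8 14)), (.s k85 k170 14 (.d k125 k65 k190 5 8))] (.c k85 (.l
  (.s k40 k20 5 (.s k150 k30 9 (.s k170 k235 8 (.d k190 k130 k125 5 8))))) (.c k170 (.l (.s k20 k40
  5 (.s k150 k30 9 (.s k85 k215 8 (.d k125 k65 k190 5 8))))) .n))) (.c k105 (.q k45 [(.s k20 k40 5
  (.s k150 k30 9 (.d k85 k170 k215 14 8))), (.s k1 k2 0 (.s k40 k20 5 (.s k41 k22 6 (.s k21 k61 5
  (.d k42 k43 k63 0 6))))), (.s k170 k85 14 (.s k150 k30 9 (.d k190 k125 k130 8 5)))] .n) .n)))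
  .n))) (.c k135 (.q k75 [(.s k40 k20 5 (.s k105 k120 4 (.d k170 k235 k85 8 14))), (.s k1 k2 0 (.s
  k40 k20 5 (.s k41 k22 6 (.s k21 k61 5 (.d k42 k43 k63 0 6))))), (.s k85 k170 14 (.s k125 k190 8
  (.d k105 k120 k65 4 5)))] (.c k150 (.q k180 [(.s k40 k20 5 (.s k105 k120 4 (.d k170 k85 k235 14
  8))), (.s k1 k2 0 (.s k41 k22 6 (.s k21 k61 5 (.s k42 k63 6 (.d k40 k43 k20 0 5))))), (.s k85 k170
  14 (.s k105 k120 4 (.d k125 k190 k65 8 5)))] (.c k210 (.q k225 [(.s k40 k20 5 (.s k105 k120 4 (.d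
  k170 k85 k235 14 8))), (.s k1 k2 0 (.s k41 k22 6 (.s k21 k61 5 (.s k42 k63 6 (.d k40 k43 k20 0
  5))))), (.s k85 k170 14 (.s k105 k120 4 (.d k125 k190 k65 8 5)))] .n) (.c k225 (.q k210 [(.s k40
  k20 5 (.s k105 k120 4 (.d k170 k85 k235 14 8))), (.s k1 k2 0 (.s k41 k22 6 (.s k21 k61 5 (.s k42
  k63 6 (.d k40 k43 k20 0 5))))), (.s k85 k170 14 (.s k105 k120 4 (.d k125 k190 k65 8 5)))] (.c k45
  (.l (.s k105 k120 4 (.s k40 k20 5 (.d k170 k85 k235 14 8)))) (.c k105 (.q k45 [(.s k1 k2 0 (.s k40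
  k20 5 (.s k41 k22 6 (.s k42 k43 0 (.d k21 k61 k63 5 6))))), (.s k1 k2 0 (.s k85 k170 14 (.s k169
  k253 13 (.s k87 k171 13 (.d k86 k84 k252 0 14))))), (.s k40 k20 5 (.s k41 k22 6 (.s k33 k37 1 (.s
  k48 k18 4 (.s k32 k16 3 (.s k44 k36 1 (.d k35 k38 k34 2 0))))))), (.s k2 k1 0 (.s k20 k40 5 (.s
  k22 k41 6 (.s k42 k62 5 (.d k21 k23 k63 0 6)))))] (.c k40 (.l (.s k2 k1 0 (.s k170 k85 14 (.s k86
  k254 13 (.s k169 k252 14 (.d k171 k168 k87 0 13)))))) .n)) .n))) .n))) (.c k180 (.q k150 [(.s k20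
  k40 5 (.d k85 k215 k170 8 14)), (.s k170 k85 14 (.d k190 k130 k125 5 8))] (.c k85 (.l (.s k40 k20
  5 (.s k190 k125 8 (.s k105 k120 4 (.d k170 k130 k235 5 8))))) (.c k170 (.l (.s k20 k40 5 (.s k85
  k215 8 (.s k125 k190 8 (.d k105 k120 k65 4 5))))) (.c k210 (.q k225 [(.s k20 k40 5 (.d k85 k215
  k170 8 14)), (.s k170 k85 14 (.d k190 k130 k125 5 8))] (.c k85 (.l (.s k40 k20 5 (.s k190 k125 8
  (.s k105 k120 4 (.d k170 k130 k235 5 8))))) (.c k170 (.l (.s k20 k40 5 (.s k85 k215 8 (.s k125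
  k190 8 (.d k105 k120 k65 4 5))))) .n))) (.c k225 (.l (.s k210 k30 9 (.s k20 k40 5 (.d k85 k215
  k170 8 14)))) .n))))) (.c k210 (.q k225 [(.s k40 k20 5 (.s k105 k120 4 (.d k170 k235 k85 8 14))),
  (.s k1 k2 0 (.s k40 k20 5 (.s k41 k22 6 (.s k21 k61 5 (.d k42 k43 k63 0 6))))), (.s k85 k170 14
  (.s k125 k190 8 (.d k105 k120 k65 4 5)))] (.c k150 (.q k180 [(.s k40 k20 5 (.s k105 k120 4 (.d
  k170 k85 k235 14 8))), (.s k1 k2 0 (.s k41 k22 6 (.s k21 k61 5 (.s k42 k63 6 (.d k40 k43 k20 0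
  5))))), (.s k85 k170 14 (.s k105 k120 4 (.d k125 k190 k65 8 5)))] .n) (.c k180 (.q k150 [(.s k20
  k40 5 (.d k85 k215 k170 8 14)), (.s k170 k85 14 (.d k190 k130 k125 5 8))] (.c k85 (.l (.s k40 k20
  5 (.s k190 k125 8 (.s k105 k120 4 (.d k170 k130 k235 5 8))))) (.c k170 (.l (.s k20 k40 5 (.s k85
  k215 8 (.s k125 k190 8 (.d k105 k120 k65 4 5))))) .n))) .n))) (.c k225 (.q k210 [(.s k105 k120 4
  (.s k40 k20 5 (.d k170 k235 k85 8 14))), (.s k1 k2 0 (.s k40 k20 5 (.s k41 k22 6 (.s k21 k61 5 (.d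
  k42 k43 k63 0 6))))), (.s k85 k170 14 (.s k125 k190 8 (.d k105 k120 k65 4 5)))] (.c k45 (.l (.s
  k105 k120 4 (.s k40 k20 5 (.d k170 k235 k85 8 14)))) (.c k105 (.q k45 [(.s k20 k40 5 (.s k150 k30
  9 (.d k85 k170 k215 14 8))), (.s k1 k2 0 (.s k40 k20 5 (.s k41 k22 6 (.s k21 k61 5 (.d k42 k43 k63
  0 6))))), (.s k170 k85 14 (.s k150 k30 9 (.d k190 k125 k130 8 5)))] (.c k150 (.q k180 [(.s k1 k2 0
  (.s k40 k20 5 (.s k41 k22 6 (.s k42 k43 0 (.d k21 k61 k63 5 6))))), (.s k1 k2 0 (.s k85 k170 14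
  (.s k169 k253 13 (.s k87 k171 13 (.d k86 k84 k252 0 14))))), (.s k40 k20 5 (.s k41 k22 6 (.s k33
  k37 1 (.s k48 k18 4 (.s k32 k16 3 (.s k44 k36 1 (.d k35 k38 k34 2 0))))))), (.s k2 k1 0 (.s k20
  k40 5 (.s k22 k41 6 (.s k42 k62 5 (.d k21 k23 k63 0 6)))))] (.c k40 (.l (.s k2 k1 0 (.s k170 k85
  14 (.s k86 k254 13 (.s k169 k252 14 (.d k171 k168 k87 0 13)))))) .n)) (.c k180 (.l (.s k150 k30 9
  (.s k20 k40 5 (.d k85 k170 k215 14 8)))) .n))) (.c k150 (.q k180 [(.s k40 k20 5 (.s k105 k120 4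
  (.d k170 k85 k235 14 8))), (.s k1 k2 0 (.s k41 k22 6 (.s k21 k61 5 (.s k42 k63 6 (.d k40 k43 k20 0
  5))))), (.s k85 k170 14 (.s k105 k120 4 (.d k125 k190 k65 8 5)))] (.c k45 (.l (.s k105 k120 4 (.s
  k40 k20 5 (.d k170 k85 k235 14 8)))) (.c k105 (.q k45 [(.s k1 k2 0 (.s k40 k20 5 (.s k41 k22 6 (.s
  k42 k43 0 (.d k21 k61 k63 5 6))))), (.s k1 k2 0 (.s k85 k170 14 (.s k169 k253 13 (.s k87 k171 13
  (.d k86 k84 k252 0 14))))), (.s k40 k20 5 (.s k41 k22 6 (.s k33 k37 1 (.s k48 k18 4 (.s k32 k16 3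
  (.s k44 k36 1 (.d k35 k38 k34 2 0))))))), (.s k2 k1 0 (.s k20 k40 5 (.s k22 k41 6 (.s k42 k62 5
  (.d k21 k23 k63 0 6)))))] (.c k40 (.l (.s k2 k1 0 (.s k170 k85 14 (.s k86 k254 13 (.s k169 k252 14
  (.d k171 k168 k87 0 13)))))) .n)) .n))) (.c k180 (.l (.s k150 k30 9 (.s k20 k40 5 (.d k85 k215
  k170 8 14)))) .n))))) .n))))) (.c k210 (.q k225 [(.s k1 k2 0 (.s k40 k20 5 (.s k41 k22 6 (.s k21
  k61 5 (.d k42 k43 k63 0 6))))), (.s k1 k2 0 (.s k85 k170 14 (.s k169 k253 13 (.s k86 k252 14 (.d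
  k87 k84 k171 0 13))))), (.s k20 k40 5 (.s k85 k170 14 (.s k22 k41 6 (.s k87 k171 13 (.s k150 k215
  8 (.d k86 k84 k214 0 7))))))] (.c k75 (.q k135 [(.s k1 k2 0 (.s k40 k20 5 (.s k41 k22 6 (.s k21
  k61 5 (.d k42 k43 k63 0 6))))), (.s k1 k2 0 (.s k85 k170 14 (.s k169 k253 13 (.s k86 k252 14 (.d
  k87 k84 k171 0 13))))), (.s k20 k40 5 (.s k85 k170 14 (.s k22 k41 6 (.s k87 k171 13 (.s k150 k215
  8 (.d k86 k84 k214 0 7))))))] .n) (.c k135 (.q k75 [(.s k40 k20 5 (.s k105 k120 4 (.d k170 k235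
  k85 8 14))), (.s k1 k2 0 (.s k40 k20 5 (.s k41 k22 6 (.s k21 k61 5 (.d k42 k43 k63 0 6))))), (.s
  k85 k170 14 (.s k125 k190 8 (.d k105 k120 k65 4 5)))] (.c k150 (.q k180 [(.s k40 k20 5 (.s k105
  k120 4 (.d k170 k85 k235 14 8))), (.s k1 k2 0 (.s k41 k22 6 (.s k21 k61 5 (.s k42 k63 6 (.d k40
  k43 k20 0 5))))), (.s k85 k170 14 (.s k105 k120 4 (.d k125 k190 k65 8 5)))] .n) (.c k180 (.q k150
  [(.s k20 k40 5 (.d k85 k215 k170 8 14)), (.s k170 k85 14 (.d k190 k130 k125 5 8))] (.c k85 (.l (.s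
  k40 k20 5 (.s k190 k125 8 (.s k105 k120 4 (.d k170 k130 k235 5 8))))) (.c k170 (.l (.s k20 k40 5
  (.s k85 k215 8 (.s k125 k190 8 (.d k105 k120 k65 4 5))))) .n))) .n))) .n))) (.c k225 (.q k210 [(.s
  k20 k40 5 (.s k150 k30 9 (.d k85 k215 k170 8 14))), (.s k1 k2 0 (.s k40 k20 5 (.s k41 k22 6 (.s
  k21 k61 5 (.d k42 k43 k63 0 6))))), (.s k170 k85 14 (.s k150 k30 9 (.d k190 k130 k125 5 8)))] (.c
  k45 (.q k105 [(.s k40 k20 5 (.d k170 k235 k85 8 14)), (.s k85 k170 14 (.d k125 k65 k190 5 8))] (.c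
  k75 (.q k135 [(.s k40 k20 5 (.d k170 k235 k85 8 14)), (.s k85 k170 14 (.d k125 k65 k190 5 8))] (.c
  k85 (.l (.s k40 k20 5 (.s k150 k30 9 (.s k170 k235 8 (.d k190 k130 k125 5 8))))) (.c k170 (.l (.s
  k20 k40 5 (.s k150 k30 9 (.s k85 k215 8 (.d k125 k65 k190 5 8))))) .n))) (.c k85 (.l (.s k40 k20 5
  (.s k150 k30 9 (.s k170 k235 8 (.d k190 k130 k125 5 8))))) (.c k135 (.l (.s k75 k120 4 (.s k40 k20
  5 (.d k170 k235 k85 8 14)))) (.c k170 (.l (.s k20 k40 5 (.s k150 k30 9 (.s k85 k215 8 (.d k125 k65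
  k190 5 8))))) .n))))) (.c k75 (.q k135 [(.s k20 k40 5 (.s k150 k30 9 (.d k85 k215 k170 8 14))),
  (.s k1 k2 0 (.s k40 k20 5 (.s k41 k22 6 (.s k21 k61 5 (.d k42 k43 k63 0 6))))), (.s k170 k85 14
  (.s k150 k30 9 (.d k190 k130 k125 5 8)))] (.c k45 (.q k105 [(.s k40 k20 5 (.d k170 k235 k85 8
  14)), (.s k85 k170 14 (.d k125 k65 k190 5 8))] (.c k85 (.l (.s k40 k20 5 (.s k150 k30 9 (.s k170
  k235 8 (.d k190 k130 k125 5 8))))) (.c k170 (.l (.s k20 k40 5 (.s k150 k30 9 (.s k85 k215 8 (.d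
  k125 k65 k190 5 8))))) .n))) (.c k105 (.q k45 [(.s k20 k40 5 (.s k150 k30 9 (.d k85 k170 k215 14
  8))), (.s k1 k2 0 (.s k40 k20 5 (.s k41 k22 6 (.s k21 k61 5 (.d k42 k43 k63 0 6))))), (.s k170 k85
  14 (.s k150 k30 9 (.d k190 k125 k130 8 5)))] .n) .n))) (.c k105 (.q k45 [(.s k20 k40 5 (.s k150
  k30 9 (.d k85 k170 k215 14 8))), (.s k1 k2 0 (.s k40 k20 5 (.s k41 k22 6 (.s k21 k61 5 (.d k42 k43
  k63 0 6))))), (.s k170 k85 14 (.s k150 k30 9 (.d k190 k125 k130 8 5)))] (.c k75 (.q k135 [(.s k20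
  k40 5 (.s k150 k30 9 (.d k85 k170 k215 14 8))), (.s k1 k2 0 (.s k40 k20 5 (.s k41 k22 6 (.s k21
  k61 5 (.d k42 k43 k63 0 6))))), (.s k170 k85 14 (.s k150 k30 9 (.d k190 k125 k130 8 5)))] .n) (.c
  k135 (.q k75 [(.s k20 k40 5 (.s k150 k30 9 (.d k85 k170 k215 14 8))), (.s k1 k2 0 (.s k40 k20 5
  (.s k41 k22 6 (.s k21 k61 5 (.d k42 k43 k63 0 6))))), (.s k170 k85 14 (.s k150 k30 9 (.d k190 k125
  k130 8 5)))] (.c k150 (.q k180 [(.s k1 k2 0 (.s k40 k20 5 (.s k41 k22 6 (.s k42 k43 0 (.d k21 k61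
  k63 5 6))))), (.s k1 k2 0 (.s k85 k170 14 (.s k169 k253 13 (.s k87 k171 13 (.d k86 k84 k252 0
  14))))), (.s k40 k20 5 (.s k41 k22 6 (.s k33 k37 1 (.s k48 k18 4 (.s k32 k16 3 (.s k44 k36 1 (.d
  k35 k38 k34 2 0))))))), (.s k2 k1 0 (.s k20 k40 5 (.s k22 k41 6 (.s k42 k62 5 (.d k21 k23 k63 0
  6)))))] (.c k40 (.l (.s k2 k1 0 (.s k170 k85 14 (.s k86 k254 13 (.s k169 k252 14 (.d k171 k168 k87
  0 13)))))) .n)) (.c k180 (.l (.s k150 k30 9 (.s k20 k40 5 (.d k85 k170 k215 14 8)))) .n))) .n)))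
  (.c k135 (.q k75 [(.s k105 k120 4 (.s k40 k20 5 (.d k170 k235 k85 8 14))), (.s k1 k2 0 (.s k40 k20
  5 (.s k41 k22 6 (.s k21 k61 5 (.d k42 k43 k63 0 6))))), (.s k85 k170 14 (.s k125 k190 8 (.d k105
  k120 k65 4 5)))] (.c k45 (.l (.s k105 k120 4 (.s k40 k20 5 (.d k170 k235 k85 8 14)))) (.c k105 (.q
  k45 [(.s k20 k40 5 (.s k150 k30 9 (.d k85 k170 k215 14 8))), (.s k1 k2 0 (.s k40 k20 5 (.s k41 k22
  6 (.s k21 k61 5 (.d k42 k43 k63 0 6))))), (.s k170 k85 14 (.s k150 k30 9 (.d k190 k125 k130 8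
  5)))] (.c k150 (.q k180 [(.s k1 k2 0 (.s k40 k20 5 (.s k41 k22 6 (.s k42 k43 0 (.d k21 k61 k63 5
  6))))), (.s k1 k2 0 (.s k85 k170 14 (.s k169 k253 13 (.s k87 k171 13 (.d k86 k84 k252 0 14))))),
  (.s k40 k20 5 (.s k41 k22 6 (.s k33 k37 1 (.s k48 k18 4 (.s k32 k16 3 (.s k44 k36 1 (.d k35 k38
  k34 2 0))))))), (.s k2 k1 0 (.s k20 k40 5 (.s k22 k41 6 (.s k42 k62 5 (.d k21 k23 k63 0 6)))))]
  (.c k40 (.l (.s k2 k1 0 (.s k170 k85 14 (.s k86 k254 13 (.s k169 k252 14 (.d k171 k168 k87 0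
  13)))))) .n)) (.c k180 (.l (.s k150 k30 9 (.s k20 k40 5 (.d k85 k170 k215 14 8)))) .n))) (.c k150
  (.q k180 [(.s k40 k20 5 (.s k105 k120 4 (.d k170 k85 k235 14 8))), (.s k1 k2 0 (.s k41 k22 6 (.s
  k21 k61 5 (.s k42 k63 6 (.d k40 k43 k20 0 5))))), (.s k85 k170 14 (.s k105 k120 4 (.d k125 k190
  k65 8 5)))] (.c k45 (.l (.s k105 k120 4 (.s k40 k20 5 (.d k170 k85 k235 14 8)))) (.c k105 (.q k45
  [(.s k1 k2 0 (.s k40 k20 5 (.s k41 k22 6 (.s k42 k43 0 (.d k21 k61 k63 5 6))))), (.s k1 k2 0 (.s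
  k85 k170 14 (.s k169 k253 13 (.s k87 k171 13 (.d k86 k84 k252 0 14))))), (.s k40 k20 5 (.s k41 k22
  6 (.s k33 k37 1 (.s k48 k18 4 (.s k32 k16 3 (.s k44 k36 1 (.d k35 k38 k34 2 0))))))), (.s k2 k1 0
  (.s k20 k40 5 (.s k22 k41 6 (.s k42 k62 5 (.d k21 k23 k63 0 6)))))] (.c k40 (.l (.s k2 k1 0 (.s
  k170 k85 14 (.s k86 k254 13 (.s k169 k252 14 (.d k171 k168 k87 0 13)))))) .n)) .n))) (.c k180 (.l
  (.s k150 k30 9 (.s k20 k40 5 (.d k85 k215 k170 8 14)))) .n))))) .n))))) .n))))) (.c k215 (.l (.s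
  k40 k20 5 (.s k190 k125 8 (.s k170 k85 14 (.s k150 k130 5 (.d k105 k235 k195 8 14)))))) (.c k235
  (.l (.s k20 k40 5 (.s k125 k190 8 (.s k85 k170 14 (.s k105 k65 5 (.d k150 k215 k195 8 14))))))
  .n)))))))))))) (.c k170 (.f k40 k20 5 (.q k188 [(.s k252 k124 7 (.s k168 k84 13 (.s k104 k232 7
  (.d k148 k128 k192 5 13)))), (.s k190 k125 8 (.s k191 k189 0 (.s k63 k127 7 (.s k42 k21 6 (.s k41
  k43 0 (.s k22 k3 6 (.d k62 k61 k2 0 5)))))))] (.c k90 (.q k165 [(.s k252 k124 7 (.s k168 k84 13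
  (.s k104 k232 7 (.d k148 k128 k192 5 13)))), (.s k190 k125 8 (.s k191 k189 0 (.s k63 k127 7 (.s
  k42 k21 6 (.s k41 k43 0 (.s k22 k3 6 (.d k62 k61 k2 0 5)))))))] (.c k10 (.q k250 [(.s k252 k124 7
  (.s k168 k84 13 (.s k104 k232 7 (.d k148 k128 k192 5 13)))), (.s k190 k125 8 (.s k191 k189 0 (.s
  k63 k127 7 (.s k42 k21 6 (.s k41 k43 0 (.s k22 k3 6 (.d k62 k61 k2 0 5)))))))] (.c k124 (.q k48
  [(.s k32 k16 3 (.s k36 k44 1 (.s k56 k52 1 (.d k24 k8 k12 3 5)))), (.s k186 k117 10 (.s k58 k122 7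
  (.s k63 k53 2 (.s k190 k125 8 (.d k191 k127 k189 7 0)))))] .n) .n)) (.c k124 (.q k48 [(.s k32 k16
  3 (.s k36 k44 1 (.s k56 k52 1 (.d k24 k8 k12 3 5)))), (.s k186 k117 10 (.s k190 k125 8 (.s k182
  k178 1 (.s k179 k185 2 (.s k191 k189 0 (.s k181 k176 2 (.d k183 k180 k187 0 1)))))))] (.c k10 (.q
  k250 [(.s k32 k16 3 (.s k36 k44 1 (.s k56 k52 1 (.d k24 k8 k12 3 5)))), (.s k186 k117 10 (.s k58
  k122 7 (.s k63 k53 2 (.s k190 k125 8 (.d k191 k127 k189 7 0)))))] .n) (.c k250 (.q k10 [(.s k32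
  k16 3 (.s k36 k44 1 (.s k56 k52 1 (.d k24 k8 k12 3 5)))), (.s k186 k117 10 (.s k190 k125 8 (.s
  k182 k178 1 (.s k179 k185 2 (.s k191 k189 0 (.s k181 k176 2 (.d k183 k180 k187 0 1)))))))] .n)
  .n))) (.c k250 (.q k10 [(.s k252 k124 7 (.s k168 k84 13 (.s k104 k232 7 (.d k148 k128 k192 5
  13)))), (.s k190 k125 8 (.s k191 k189 0 (.s k63 k127 7 (.s k42 k21 6 (.s k41 k43 0 (.s k22 k3 6
  (.d k62 k61 k2 0 5)))))))] (.c k124 (.q k48 [(.s k32 k16 3 (.s k36 k44 1 (.s k56 k52 1 (.d k24 k8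
  k12 3 5)))), (.s k186 k117 10 (.s k190 k125 8 (.s k182 k178 1 (.s k179 k185 2 (.s k191 k189 0 (.s
  k181 k176 2 (.d k183 k180 k187 0 1)))))))] .n) .n)) .n)))) (.c k124 (.q k48 [(.s k32 k16 3 (.s k36
  k44 1 (.s k56 k52 1 (.d k24 k8 k12 3 5)))), (.s k186 k117 10 (.s k190 k125 8 (.s k182 k178 1 (.s
  k179 k185 2 (.s k191 k189 0 (.s k181 k176 2 (.d k183 k180 k187 0 1)))))))] (.c k90 (.q k165 [(.s
  k32 k16 3 (.s k36 k44 1 (.s k56 k52 1 (.d k24 k8 k12 3 5)))), (.s k186 k117 10 (.s k190 k125 8 (.s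
  k182 k178 1 (.s k179 k185 2 (.s k191 k189 0 (.s k181 k176 2 (.d k183 k180 k187 0 1)))))))] (.c k10
  (.q k250 [(.s k32 k16 3 (.s k36 k44 1 (.s k56 k52 1 (.d k24 k8 k12 3 5)))), (.s k186 k117 10 (.s
  k58 k122 7 (.s k63 k53 2 (.s k190 k125 8 (.d k191 k127 k189 7 0)))))] .n) (.c k250 (.q k10 [(.s
  k32 k16 3 (.s k36 k44 1 (.s k56 k52 1 (.d k24 k8 k12 3 5)))), (.s k186 k117 10 (.s k190 k125 8 (.s
  k182 k178 1 (.s k179 k185 2 (.s k191 k189 0 (.s k181 k176 2 (.d k183 k180 k187 0 1)))))))] .n)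
  .n))) (.c k165 (.q k90 [(.s k32 k16 3 (.s k36 k44 1 (.s k56 k52 1 (.d k24 k8 k12 3 5)))), (.s k186
  k117 10 (.s k190 k125 8 (.s k182 k178 1 (.s k179 k185 2 (.s k191 k189 0 (.s k181 k176 2 (.d k183
  k180 k187 0 1)))))))] (.c k160 (.q k175 [(.s k32 k16 3 (.s k36 k44 1 (.s k56 k52 1 (.d k24 k8 k12
  3 5)))), (.s k186 k117 10 (.s k190 k125 8 (.s k182 k178 1 (.s k179 k185 2 (.s k191 k189 0 (.s k181
  k176 2 (.d k183 k180 k187 0 1)))))))] .n) (.c k175 (.q k160 [(.s k32 k16 3 (.s k36 k44 1 (.s k56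
  k52 1 (.d k24 k8 k12 3 5)))), (.s k52 k56 1 (.s k117 k186 10 (.s k182 k247 8 (.s k121 k243 10 (.d
  k125 k113 k190 1 8))))), (.s k32 k16 3 (.s k96 k224 7 (.s k192 k144 11 (.s k128 k64 7 (.d k148
  k104 k168 13 5)))))] .n) .n))) .n))) (.c k165 (.q k90 [(.s k252 k124 7 (.s k168 k84 13 (.s k104
  k232 7 (.d k148 k128 k192 5 13)))), (.s k190 k125 8 (.s k191 k189 0 (.s k63 k127 7 (.s k42 k21 6
  (.s k41 k43 0 (.s k22 k3 6 (.d k62 k61 k2 0 5)))))))] (.c k124 (.q k48 [(.s k32 k16 3 (.s k36 k44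
  1 (.s k56 k52 1 (.d k24 k8 k12 3 5)))), (.s k186 k117 10 (.s k190 k125 8 (.s k182 k178 1 (.s k179
  k185 2 (.s k191 k189 0 (.s k181 k176 2 (.d k183 k180 k187 0 1)))))))] (.c k160 (.q k175 [(.s k32
  k16 3 (.s k36 k44 1 (.s k56 k52 1 (.d k24 k8 k12 3 5)))), (.s k186 k117 10 (.s k190 k125 8 (.s
  k182 k178 1 (.s k179 k185 2 (.s k191 k189 0 (.s k181 k176 2 (.d k183 k180 k187 0 1)))))))] .n) (.c
  k175 (.q k160 [(.s k32 k16 3 (.s k36 k44 1 (.s k56 k52 1 (.d k24 k8 k12 3 5)))), (.s k52 k56 1 (.s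
  k117 k186 10 (.s k182 k247 8 (.s k121 k243 10 (.d k125 k113 k190 1 8))))), (.s k32 k16 3 (.s k96
  k224 7 (.s k192 k144 11 (.s k128 k64 7 (.d k148 k104 k168 13 5)))))] .n) .n))) (.c k160 (.q k175
  [(.s k252 k124 7 (.s k168 k84 13 (.s k104 k232 7 (.d k148 k128 k192 5 13)))), (.s k190 k125 8 (.s
  k191 k189 0 (.s k63 k127 7 (.s k42 k21 6 (.s k41 k43 0 (.s k22 k3 6 (.d k62 k61 k2 0 5)))))))] (.c
  k124 (.q k48 [(.s k32 k16 3 (.s k36 k44 1 (.s k56 k52 1 (.d k24 k8 k12 3 5)))), (.s k186 k117 10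
  (.s k190 k125 8 (.s k182 k178 1 (.s k179 k185 2 (.s k191 k189 0 (.s k181 k176 2 (.d k183 k180 k187
  0 1)))))))] .n) .n)) (.c k175 (.q k160 [(.s k252 k124 7 (.s k168 k84 13 (.s k104 k232 7 (.d k148
  k128 k192 5 13)))), (.s k190 k125 8 (.s k191 k189 0 (.s k63 k127 7 (.s k42 k21 6 (.s k41 k43 0 (.s
  k22 k3 6 (.d k62 k61 k2 0 5)))))))] (.c k124 (.q k48 [(.s k32 k16 3 (.s k36 k44 1 (.s k56 k52 1
  (.d k24 k8 k12 3 5)))), (.s k52 k56 1 (.s k117 k186 10 (.s k182 k247 8 (.s k121 k243 10 (.d k125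
  k113 k190 1 8))))), (.s k32 k16 3 (.s k96 k224 7 (.s k192 k144 11 (.s k128 k64 7 (.d k148 k104
  k168 13 5)))))] .n) .n)) .n)))) .n))))) (.c k190 (.f k20 k40 5 (.q k48 [(.s k16 k32 3 (.s k24 k28
  1 (.s k52 k56 1 (.d k36 k4 k12 3 5)))), (.s k32 k16 3 (.s k170 k85 14 (.s k101 k239 10 (.s k154
  k207 14 (.d k186 k138 k117 3 10))))), (.s k85 k170 14 (.s k150 k215 8 (.s k52 k56 1 (.s k117 k186
  10 (.d k101 k69 k199 3 12)))))] (.c k90 (.q k165 [(.s k16 k32 3 (.s k24 k28 1 (.s k52 k56 1 (.d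
  k36 k4 k12 3 5)))), (.s k32 k16 3 (.s k170 k85 14 (.s k101 k239 10 (.s k154 k207 14 (.d k186 k138
  k117 3 10))))), (.s k85 k170 14 (.s k150 k215 8 (.s k52 k56 1 (.s k117 k186 10 (.d k101 k69 k199 3
  12)))))] .n) (.c k165 (.q k90 [(.s k16 k32 3 (.s k24 k28 1 (.s k52 k56 1 (.d k36 k4 k12 3 5)))),
  (.s k32 k16 3 (.s k170 k85 14 (.s k101 k239 10 (.s k154 k207 14 (.d k186 k138 k117 3 10))))), (.s
  k85 k170 14 (.s k150 k215 8 (.s k52 k56 1 (.s k117 k186 10 (.d k101 k69 k199 3 12)))))] .n) .n))))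
  (.c k195 (.q k3 [(.s k1 k2 0 (.s k40 k20 5 (.s k41 k22 6 (.s k21 k61 5 (.d k42 k43 k63 0 6))))),
  (.s k1 k2 0 (.s k85 k170 14 (.s k169 k253 13 (.s k86 k252 14 (.d k87 k84 k171 0 13))))), (.s k20
  k40 5 (.s k85 k170 14 (.s k22 k41 6 (.s k87 k171 13 (.s k150 k215 8 (.d k86 k84 k214 0 7))))))]
  (.c k75 (.q k135 [(.s k1 k2 0 (.s k40 k20 5 (.s k41 k22 6 (.s k21 k61 5 (.d k42 k43 k63 0 6))))),
  (.s k1 k2 0 (.s k85 k170 14 (.s k169 k253 13 (.s k86 k252 14 (.d k87 k84 k171 0 13))))), (.s k20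
  k40 5 (.s k85 k170 14 (.s k22 k41 6 (.s k87 k171 13 (.s k150 k215 8 (.d k86 k84 k214 0 7))))))]
  (.c k90 (.q k165 [(.s k20 k40 5 (.s k150 k180 4 (.d k85 k215 k170 8 14))), (.s k1 k2 0 (.s k40 k20
  5 (.s k41 k22 6 (.s k21 k61 5 (.d k42 k43 k63 0 6))))), (.s k170 k85 14 (.s k190 k125 8 (.d k150
  k180 k130 4 5)))] (.c k105 (.q k120 [(.s k20 k40 5 (.s k150 k180 4 (.d k85 k170 k215 14 8))), (.s
  k1 k2 0 (.s k40 k20 5 (.s k41 k22 6 (.s k21 k61 5 (.d k42 k43 k63 0 6))))), (.s k170 k85 14 (.s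
  k150 k180 4 (.d k190 k125 k130 8 5)))] (.c k210 (.q k225 [(.s k20 k40 5 (.s k150 k180 4 (.d k85
  k170 k215 14 8))), (.s k1 k2 0 (.s k40 k20 5 (.s k41 k22 6 (.s k21 k61 5 (.d k42 k43 k63 0 6))))),
  (.s k170 k85 14 (.s k150 k180 4 (.d k190 k125 k130 8 5)))] (.c k30 (.l (.s k150 k180 4 (.s k20 k40
  5 (.d k85 k170 k215 14 8)))) (.c k150 (.q k30 [(.s k1 k2 0 (.s k40 k20 5 (.s k41 k22 6 (.s k42 k43
  0 (.d k21 k61 k63 5 6))))), (.s k1 k2 0 (.s k85 k170 14 (.s k169 k253 13 (.s k87 k171 13 (.d k86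
  k84 k252 0 14))))), (.s k20 k40 5 (.s k22 k41 6 (.s k18 k26 1 (.s k48 k33 4 (.s k16 k32 3 (.s k28
  k24 1 (.d k19 k25 k17 2 0)))))))] (.c k40 (.l (.s k2 k1 0 (.s k170 k85 14 (.s k86 k254 13 (.s k169
  k252 14 (.d k171 k168 k87 0 13)))))) .n)) .n))) (.c k225 (.q k210 [(.s k20 k40 5 (.s k150 k180 4
  (.d k85 k170 k215 14 8))), (.s k1 k2 0 (.s k40 k20 5 (.s k41 k22 6 (.s k21 k61 5 (.d k42 k43 k63 0
  6))))), (.s k170 k85 14 (.s k150 k180 4 (.d k190 k125 k130 8 5)))] .n) .n))) (.c k120 (.q k105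
  [(.s k40 k20 5 (.d k170 k235 k85 8 14)), (.s k85 k170 14 (.d k125 k65 k190 5 8))] (.c k85 (.l (.s
  k40 k20 5 (.s k170 k235 8 (.s k190 k125 8 (.d k150 k180 k130 4 5))))) (.c k170 (.l (.s k20 k40 5
  (.s k125 k190 8 (.s k85 k65 5 (.d k150 k180 k215 4 8))))) (.c k210 (.l (.s k225 k45 9 (.s k40 k20
  5 (.d k170 k235 k85 8 14)))) (.c k225 (.q k210 [(.s k40 k20 5 (.d k170 k235 k85 8 14)), (.s k85
  k170 14 (.d k125 k65 k190 5 8))] (.c k85 (.l (.s k40 k20 5 (.s k170 k235 8 (.s k190 k125 8 (.d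
  k150 k180 k130 4 5))))) (.c k170 (.l (.s k20 k40 5 (.s k125 k190 8 (.s k85 k65 5 (.d k150 k180
  k215 4 8))))) .n))) .n))))) (.c k210 (.q k225 [(.s k20 k40 5 (.s k150 k180 4 (.d k85 k215 k170 8
  14))), (.s k85 k170 14 (.s k105 k45 9 (.d k125 k65 k190 5 8))), (.s k1 k2 0 (.s k40 k20 5 (.s k41
  k22 6 (.s k21 k61 5 (.d k42 k43 k63 0 6)))))] (.c k30 (.l (.s k150 k180 4 (.s k20 k40 5 (.d k85
  k215 k170 8 14)))) (.c k105 (.q k120 [(.s k20 k40 5 (.s k150 k180 4 (.d k85 k170 k215 14 8))), (.s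
  k1 k2 0 (.s k40 k20 5 (.s k41 k22 6 (.s k21 k61 5 (.d k42 k43 k63 0 6))))), (.s k170 k85 14 (.s
  k150 k180 4 (.d k190 k125 k130 8 5)))] (.c k30 (.l (.s k150 k180 4 (.s k20 k40 5 (.d k85 k170 k215
  14 8)))) (.c k150 (.q k30 [(.s k1 k2 0 (.s k40 k20 5 (.s k41 k22 6 (.s k42 k43 0 (.d k21 k61 k63 5
  6))))), (.s k1 k2 0 (.s k85 k170 14 (.s k169 k253 13 (.s k87 k171 13 (.d k86 k84 k252 0 14))))),
  (.s k20 k40 5 (.s k22 k41 6 (.s k18 k26 1 (.s k48 k33 4 (.s k16 k32 3 (.s k28 k24 1 (.d k19 k25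
  k17 2 0)))))))] (.c k40 (.l (.s k2 k1 0 (.s k170 k85 14 (.s k86 k254 13 (.s k169 k252 14 (.d k171
  k168 k87 0 13)))))) .n)) .n))) (.c k120 (.l (.s k105 k45 9 (.s k40 k20 5 (.d k170 k235 k85 8
  14)))) (.c k150 (.q k30 [(.s k40 k20 5 (.s k105 k45 9 (.d k170 k85 k235 14 8))), (.s k1 k2 0 (.s
  k41 k22 6 (.s k21 k61 5 (.s k42 k63 6 (.d k40 k43 k20 0 5))))), (.s k85 k170 14 (.s k105 k45 9 (.d
  k125 k190 k65 8 5)))] (.c k105 (.q k120 [(.s k1 k2 0 (.s k40 k20 5 (.s k41 k22 6 (.s k42 k43 0 (.d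
  k21 k61 k63 5 6))))), (.s k1 k2 0 (.s k85 k170 14 (.s k169 k253 13 (.s k87 k171 13 (.d k86 k84
  k252 0 14))))), (.s k20 k40 5 (.s k22 k41 6 (.s k18 k26 1 (.s k48 k33 4 (.s k16 k32 3 (.s k28 k24
  1 (.d k19 k25 k17 2 0)))))))] (.c k40 (.l (.s k2 k1 0 (.s k170 k85 14 (.s k86 k254 13 (.s k169
  k252 14 (.d k171 k168 k87 0 13)))))) .n)) (.c k120 (.l (.s k105 k45 9 (.s k40 k20 5 (.d k170 k85
  k235 14 8)))) .n))) .n))))) (.c k225 (.q k210 [(.s k20 k40 5 (.s k150 k180 4 (.d k85 k215 k170 8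
  14))), (.s k1 k2 0 (.s k40 k20 5 (.s k41 k22 6 (.s k21 k61 5 (.d k42 k43 k63 0 6))))), (.s k170
  k85 14 (.s k190 k125 8 (.d k150 k180 k130 4 5)))] (.c k105 (.q k120 [(.s k20 k40 5 (.s k150 k180 4
  (.d k85 k170 k215 14 8))), (.s k1 k2 0 (.s k40 k20 5 (.s k41 k22 6 (.s k21 k61 5 (.d k42 k43 k63 0
  6))))), (.s k170 k85 14 (.s k150 k180 4 (.d k190 k125 k130 8 5)))] .n) (.c k120 (.q k105 [(.s k40
  k20 5 (.d k170 k235 k85 8 14)), (.s k85 k170 14 (.d k125 k65 k190 5 8))] (.c k85 (.l (.s k40 k20 5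
  (.s k170 k235 8 (.s k190 k125 8 (.d k150 k180 k130 4 5))))) (.c k170 (.l (.s k20 k40 5 (.s k125
  k190 8 (.s k85 k65 5 (.d k150 k180 k215 4 8))))) .n))) .n))) .n))))) (.c k165 (.q k90 [(.s k1 k2 0
  (.s k40 k20 5 (.s k41 k22 6 (.s k21 k61 5 (.d k42 k43 k63 0 6))))), (.s k1 k2 0 (.s k85 k170 14
  (.s k169 k253 13 (.s k86 k252 14 (.d k87 k84 k171 0 13))))), (.s k20 k40 5 (.s k85 k170 14 (.s k22
  k41 6 (.s k87 k171 13 (.s k150 k215 8 (.d k86 k84 k214 0 7))))))] (.c k210 (.q k225 [(.s k1 k2 0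
  (.s k40 k20 5 (.s k41 k22 6 (.s k21 k61 5 (.d k42 k43 k63 0 6))))), (.s k1 k2 0 (.s k85 k170 14
  (.s k169 k253 13 (.s k86 k252 14 (.d k87 k84 k171 0 13))))), (.s k20 k40 5 (.s k85 k170 14 (.s k22
  k41 6 (.s k87 k171 13 (.s k150 k215 8 (.d k86 k84 k214 0 7))))))] .n) (.c k225 (.q k210 [(.s k20
  k40 5 (.s k150 k30 9 (.d k85 k215 k170 8 14))), (.s k1 k2 0 (.s k40 k20 5 (.s k41 k22 6 (.s k21
  k61 5 (.d k42 k43 k63 0 6))))), (.s k170 k85 14 (.s k150 k30 9 (.d k190 k130 k125 5 8)))] (.c k45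
  (.q k105 [(.s k40 k20 5 (.d k170 k235 k85 8 14)), (.s k85 k170 14 (.d k125 k65 k190 5 8))] (.c k85
  (.l (.s k40 k20 5 (.s k150 k30 9 (.s k170 k235 8 (.d k190 k130 k125 5 8))))) (.c k170 (.l (.s k20
  k40 5 (.s k150 k30 9 (.s k85 k215 8 (.d k125 k65 k190 5 8))))) .n))) (.c k105 (.q k45 [(.s k20 k40
  5 (.s k150 k30 9 (.d k85 k170 k215 14 8))), (.s k1 k2 0 (.s k40 k20 5 (.s k41 k22 6 (.s k21 k61 5
  (.d k42 k43 k63 0 6))))), (.s k170 k85 14 (.s k150 k30 9 (.d k190 k125 k130 8 5)))] .n) .n)))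
  .n))) (.c k210 (.q k225 [(.s k1 k2 0 (.s k40 k20 5 (.s k41 k22 6 (.s k21 k61 5 (.d k42 k43 k63 0
  6))))), (.s k1 k2 0 (.s k85 k170 14 (.s k169 k253 13 (.s k86 k252 14 (.d k87 k84 k171 0 13))))),
  (.s k20 k40 5 (.s k85 k170 14 (.s k22 k41 6 (.s k87 k171 13 (.s k150 k215 8 (.d k86 k84 k214 0
  7))))))] (.c k90 (.q k165 [(.s k20 k40 5 (.s k150 k180 4 (.d k85 k215 k170 8 14))), (.s k85 k170
  14 (.s k105 k45 9 (.d k125 k65 k190 5 8))), (.s k1 k2 0 (.s k40 k20 5 (.s k41 k22 6 (.s k21 k61 5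
  (.d k42 k43 k63 0 6)))))] (.c k30 (.l (.s k150 k180 4 (.s k20 k40 5 (.d k85 k215 k170 8 14)))) (.c
  k105 (.q k120 [(.s k20 k40 5 (.s k150 k180 4 (.d k85 k170 k215 14 8))), (.s k1 k2 0 (.s k40 k20 5
  (.s k41 k22 6 (.s k21 k61 5 (.d k42 k43 k63 0 6))))), (.s k170 k85 14 (.s k150 k180 4 (.d k190
  k125 k130 8 5)))] (.c k30 (.l (.s k150 k180 4 (.s k20 k40 5 (.d k85 k170 k215 14 8)))) (.c k150
  (.q k30 [(.s k1 k2 0 (.s k40 k20 5 (.s k41 k22 6 (.s k42 k43 0 (.d k21 k61 k63 5 6))))), (.s k1 k2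
  0 (.s k85 k170 14 (.s k169 k253 13 (.s k87 k171 13 (.d k86 k84 k252 0 14))))), (.s k20 k40 5 (.s
  k22 k41 6 (.s k18 k26 1 (.s k48 k33 4 (.s k16 k32 3 (.s k28 k24 1 (.d k19 k25 k17 2 0)))))))] (.c
  k40 (.l (.s k2 k1 0 (.s k170 k85 14 (.s k86 k254 13 (.s k169 k252 14 (.d k171 k168 k87 0 13))))))
  .n)) .n))) (.c k120 (.l (.s k105 k45 9 (.s k40 k20 5 (.d k170 k235 k85 8 14)))) (.c k150 (.q k30
  [(.s k40 k20 5 (.s k105 k45 9 (.d k170 k85 k235 14 8))), (.s k1 k2 0 (.s k41 k22 6 (.s k21 k61 5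
  (.s k42 k63 6 (.d k40 k43 k20 0 5))))), (.s k85 k170 14 (.s k105 k45 9 (.d k125 k190 k65 8 5)))]
  (.c k105 (.q k120 [(.s k1 k2 0 (.s k40 k20 5 (.s k41 k22 6 (.s k42 k43 0 (.d k21 k61 k63 5 6))))),
  (.s k1 k2 0 (.s k85 k170 14 (.s k169 k253 13 (.s k87 k171 13 (.d k86 k84 k252 0 14))))), (.s k20
  k40 5 (.s k22 k41 6 (.s k18 k26 1 (.s k48 k33 4 (.s k16 k32 3 (.s k28 k24 1 (.d k19 k25 k17 2
  0)))))))] (.c k40 (.l (.s k2 k1 0 (.s k170 k85 14 (.s k86 k254 13 (.s k169 k252 14 (.d k171 k168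
  k87 0 13)))))) .n)) (.c k120 (.l (.s k105 k45 9 (.s k40 k20 5 (.d k170 k85 k235 14 8)))) .n)))
  .n))))) (.c k165 (.q k90 [(.s k1 k2 0 (.s k40 k20 5 (.s k41 k22 6 (.s k21 k61 5 (.d k42 k43 k63 0
  6))))), (.s k1 k2 0 (.s k85 k170 14 (.s k169 k253 13 (.s k86 k252 14 (.d k87 k84 k171 0 13))))),
  (.s k20 k40 5 (.s k85 k170 14 (.s k22 k41 6 (.s k87 k171 13 (.s k150 k215 8 (.d k86 k84 k214 0
  7))))))] .n) .n))) (.c k225 (.q k210 [(.s k1 k2 0 (.s k40 k20 5 (.s k41 k22 6 (.s k21 k61 5 (.d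
  k42 k43 k63 0 6))))), (.s k1 k2 0 (.s k85 k170 14 (.s k169 k253 13 (.s k86 k252 14 (.d k87 k84
  k171 0 13))))), (.s k20 k40 5 (.s k85 k170 14 (.s k22 k41 6 (.s k87 k171 13 (.s k150 k215 8 (.d
  k86 k84 k214 0 7))))))] (.c k90 (.q k165 [(.s k20 k40 5 (.s k150 k180 4 (.d k85 k215 k170 8 14))),
  (.s k1 k2 0 (.s k40 k20 5 (.s k41 k22 6 (.s k21 k61 5 (.d k42 k43 k63 0 6))))), (.s k170 k85 14
  (.s k190 k125 8 (.d k150 k180 k130 4 5)))] (.c k105 (.q k120 [(.s k20 k40 5 (.s k150 k180 4 (.d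
  k85 k170 k215 14 8))), (.s k1 k2 0 (.s k40 k20 5 (.s k41 k22 6 (.s k21 k61 5 (.d k42 k43 k63 0
  6))))), (.s k170 k85 14 (.s k150 k180 4 (.d k190 k125 k130 8 5)))] .n) (.c k120 (.q k105 [(.s k40
  k20 5 (.d k170 k235 k85 8 14)), (.s k85 k170 14 (.d k125 k65 k190 5 8))] (.c k85 (.l (.s k40 k20 5
  (.s k170 k235 8 (.s k190 k125 8 (.d k150 k180 k130 4 5))))) (.c k170 (.l (.s k20 k40 5 (.s k125
  k190 8 (.s k85 k65 5 (.d k150 k180 k215 4 8))))) .n))) .n))) (.c k165 (.q k90 [(.s k20 k40 5 (.s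
  k150 k30 9 (.d k85 k215 k170 8 14))), (.s k1 k2 0 (.s k40 k20 5 (.s k41 k22 6 (.s k21 k61 5 (.d
  k42 k43 k63 0 6))))), (.s k170 k85 14 (.s k150 k30 9 (.d k190 k130 k125 5 8)))] (.c k45 (.q k105
  [(.s k40 k20 5 (.d k170 k235 k85 8 14)), (.s k85 k170 14 (.d k125 k65 k190 5 8))] (.c k85 (.l (.s
  k40 k20 5 (.s k150 k30 9 (.s k170 k235 8 (.d k190 k130 k125 5 8))))) (.c k170 (.l (.s k20 k40 5
  (.s k150 k30 9 (.s k85 k215 8 (.d k125 k65 k190 5 8))))) .n))) (.c k105 (.q k45 [(.s k20 k40 5 (.s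
  k150 k30 9 (.d k85 k170 k215 14 8))), (.s k1 k2 0 (.s k40 k20 5 (.s k41 k22 6 (.s k21 k61 5 (.d
  k42 k43 k63 0 6))))), (.s k170 k85 14 (.s k150 k30 9 (.d k190 k125 k130 8 5)))] .n) .n))) .n)))
  .n))))) (.c k90 (.q k165 [(.s k1 k2 0 (.s k40 k20 5 (.s k41 k22 6 (.s k21 k61 5 (.d k42 k43 k63 0
  6))))), (.s k1 k2 0 (.s k85 k170 14 (.s k169 k253 13 (.s k86 k252 14 (.d k87 k84 k171 0 13))))),
  (.s k20 k40 5 (.s k85 k170 14 (.s k22 k41 6 (.s k87 k171 13 (.s k150 k215 8 (.d k86 k84 k214 0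
  7))))))] (.c k75 (.q k135 [(.s k20 k40 5 (.s k150 k180 4 (.d k85 k215 k170 8 14))), (.s k1 k2 0
  (.s k40 k20 5 (.s k41 k22 6 (.s k21 k61 5 (.d k42 k43 k63 0 6))))), (.s k170 k85 14 (.s k190 k125
  8 (.d k150 k180 k130 4 5)))] (.c k105 (.q k120 [(.s k20 k40 5 (.s k150 k180 4 (.d k85 k170 k215 14
  8))), (.s k1 k2 0 (.s k40 k20 5 (.s k41 k22 6 (.s k21 k61 5 (.d k42 k43 k63 0 6))))), (.s k170 k85
  14 (.s k150 k180 4 (.d k190 k125 k130 8 5)))] (.c k210 (.q k225 [(.s k20 k40 5 (.s k150 k180 4 (.d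
  k85 k170 k215 14 8))), (.s k1 k2 0 (.s k40 k20 5 (.s k41 k22 6 (.s k21 k61 5 (.d k42 k43 k63 0
  6))))), (.s k170 k85 14 (.s k150 k180 4 (.d k190 k125 k130 8 5)))] (.c k30 (.l (.s k150 k180 4 (.s
  k20 k40 5 (.d k85 k170 k215 14 8)))) (.c k150 (.q k30 [(.s k1 k2 0 (.s k40 k20 5 (.s k41 k22 6 (.s
  k42 k43 0 (.d k21 k61 k63 5 6))))), (.s k1 k2 0 (.s k85 k170 14 (.s k169 k253 13 (.s k87 k171 13
  (.d k86 k84 k252 0 14))))), (.s k20 k40 5 (.s k22 k41 6 (.s k18 k26 1 (.s k48 k33 4 (.s k16 k32 3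
  (.s k28 k24 1 (.d k19 k25 k17 2 0)))))))] (.c k40 (.l (.s k2 k1 0 (.s k170 k85 14 (.s k86 k254 13
  (.s k169 k252 14 (.d k171 k168 k87 0 13)))))) .n)) .n))) (.c k225 (.q k210 [(.s k20 k40 5 (.s k150
  k180 4 (.d k85 k170 k215 14 8))), (.s k1 k2 0 (.s k40 k20 5 (.s k41 k22 6 (.s k21 k61 5 (.d k42
  k43 k63 0 6))))), (.s k170 k85 14 (.s k150 k180 4 (.d k190 k125 k130 8 5)))] .n) .n))) (.c k120
  (.q k105 [(.s k40 k20 5 (.d k170 k235 k85 8 14)), (.s k85 k170 14 (.d k125 k65 k190 5 8))] (.c k85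
  (.l (.s k40 k20 5 (.s k170 k235 8 (.s k190 k125 8 (.d k150 k180 k130 4 5))))) (.c k170 (.l (.s k20
  k40 5 (.s k125 k190 8 (.s k85 k65 5 (.d k150 k180 k215 4 8))))) (.c k210 (.l (.s k225 k45 9 (.s
  k40 k20 5 (.d k170 k235 k85 8 14)))) (.c k225 (.q k210 [(.s k40 k20 5 (.d k170 k235 k85 8 14)),
  (.s k85 k170 14 (.d k125 k65 k190 5 8))] (.c k85 (.l (.s k40 k20 5 (.s k170 k235 8 (.s k190 k125 8
  (.d k150 k180 k130 4 5))))) (.c k170 (.l (.s k20 k40 5 (.s k125 k190 8 (.s k85 k65 5 (.d k150 k180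
  k215 4 8))))) .n))) .n))))) (.c k210 (.q k225 [(.s k20 k40 5 (.s k150 k180 4 (.d k85 k215 k170 8
  14))), (.s k85 k170 14 (.s k105 k45 9 (.d k125 k65 k190 5 8))), (.s k1 k2 0 (.s k40 k20 5 (.s k41
  k22 6 (.s k21 k61 5 (.d k42 k43 k63 0 6)))))] (.c k30 (.l (.s k150 k180 4 (.s k20 k40 5 (.d k85
  k215 k170 8 14)))) (.c k105 (.q k120 [(.s k20 k40 5 (.s k150 k180 4 (.d k85 k170 k215 14 8))), (.s
  k1 k2 0 (.s k40 k20 5 (.s k41 k22 6 (.s k21 k61 5 (.d k42 k43 k63 0 6))))), (.s k170 k85 14 (.s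
  k150 k180 4 (.d k190 k125 k130 8 5)))] (.c k30 (.l (.s k150 k180 4 (.s k20 k40 5 (.d k85 k170 k215
  14 8)))) (.c k150 (.q k30 [(.s k1 k2 0 (.s k40 k20 5 (.s k41 k22 6 (.s k42 k43 0 (.d k21 k61 k63 5
  6))))), (.s k1 k2 0 (.s k85 k170 14 (.s k169 k253 13 (.s k87 k171 13 (.d k86 k84 k252 0 14))))),
  (.s k20 k40 5 (.s k22 k41 6 (.s k18 k26 1 (.s k48 k33 4 (.s k16 k32 3 (.s k28 k24 1 (.d k19 k25
  k17 2 0)))))))] (.c k40 (.l (.s k2 k1 0 (.s k170 k85 14 (.s k86 k254 13 (.s k169 k252 14 (.d k171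
  k168 k87 0 13)))))) .n)) .n))) (.c k120 (.l (.s k105 k45 9 (.s k40 k20 5 (.d k170 k235 k85 8
  14)))) (.c k150 (.q k30 [(.s k40 k20 5 (.s k105 k45 9 (.d k170 k85 k235 14 8))), (.s k1 k2 0 (.s
  k41 k22 6 (.s k21 k61 5 (.s k42 k63 6 (.d k40 k43 k20 0 5))))), (.s k85 k170 14 (.s k105 k45 9 (.d
  k125 k190 k65 8 5)))] (.c k105 (.q k120 [(.s k1 k2 0 (.s k40 k20 5 (.s k41 k22 6 (.s k42 k43 0 (.d
  k21 k61 k63 5 6))))), (.s k1 k2 0 (.s k85 k170 14 (.s k169 k253 13 (.s k87 k171 13 (.d k86 k84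
  k252 0 14))))), (.s k20 k40 5 (.s k22 k41 6 (.s k18 k26 1 (.s k48 k33 4 (.s k16 k32 3 (.s k28 k24
  1 (.d k19 k25 k17 2 0)))))))] (.c k40 (.l (.s k2 k1 0 (.s k170 k85 14 (.s k86 k254 13 (.s k169
  k252 14 (.d k171 k168 k87 0 13)))))) .n)) (.c k120 (.l (.s k105 k45 9 (.s k40 k20 5 (.d k170 k85
  k235 14 8)))) .n))) .n))))) (.c k225 (.q k210 [(.s k20 k40 5 (.s k150 k180 4 (.d k85 k215 k170 8
  14))), (.s k1 k2 0 (.s k40 k20 5 (.s k41 k22 6 (.s k21 k61 5 (.d k42 k43 k63 0 6))))), (.s k170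
  k85 14 (.s k190 k125 8 (.d k150 k180 k130 4 5)))] (.c k105 (.q k120 [(.s k20 k40 5 (.s k150 k180 4
  (.d k85 k170 k215 14 8))), (.s k1 k2 0 (.s k40 k20 5 (.s k41 k22 6 (.s k21 k61 5 (.d k42 k43 k63 0
  6))))), (.s k170 k85 14 (.s k150 k180 4 (.d k190 k125 k130 8 5)))] .n) (.c k120 (.q k105 [(.s k40
  k20 5 (.d k170 k235 k85 8 14)), (.s k85 k170 14 (.d k125 k65 k190 5 8))] (.c k85 (.l (.s k40 k20 5
  (.s k170 k235 8 (.s k190 k125 8 (.d k150 k180 k130 4 5))))) (.c k170 (.l (.s k20 k40 5 (.s k125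
  k190 8 (.s k85 k65 5 (.d k150 k180 k215 4 8))))) .n))) .n))) .n))))) (.c k135 (.q k75 [(.s k1 k2 0
  (.s k40 k20 5 (.s k41 k22 6 (.s k21 k61 5 (.d k42 k43 k63 0 6))))), (.s k1 k2 0 (.s k85 k170 14
  (.s k169 k253 13 (.s k86 k252 14 (.d k87 k84 k171 0 13))))), (.s k20 k40 5 (.s k85 k170 14 (.s k22
  k41 6 (.s k87 k171 13 (.s k150 k215 8 (.d k86 k84 k214 0 7))))))] (.c k210 (.q k225 [(.s k40 k20 5
  (.s k105 k45 9 (.d k170 k235 k85 8 14))), (.s k1 k2 0 (.s k40 k20 5 (.s k41 k22 6 (.s k21 k61 5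
  (.d k42 k43 k63 0 6))))), (.s k85 k170 14 (.s k105 k45 9 (.d k125 k65 k190 5 8)))] (.c k30 (.q
  k150 [(.s k20 k40 5 (.d k85 k215 k170 8 14)), (.s k170 k85 14 (.d k190 k130 k125 5 8))] (.c k85
  (.l (.s k40 k20 5 (.s k105 k45 9 (.s k170 k235 8 (.d k190 k130 k125 5 8))))) (.c k170 (.l (.s k20
  k40 5 (.s k85 k215 8 (.s k105 k45 9 (.d k125 k65 k190 5 8))))) .n))) (.c k150 (.q k30 [(.s k40 k20
  5 (.s k105 k45 9 (.d k170 k85 k235 14 8))), (.s k1 k2 0 (.s k41 k22 6 (.s k21 k61 5 (.s k42 k63 6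
  (.d k40 k43 k20 0 5))))), (.s k85 k170 14 (.s k105 k45 9 (.d k125 k190 k65 8 5)))] .n) .n))) (.c
  k225 (.q k210 [(.s k1 k2 0 (.s k40 k20 5 (.s k41 k22 6 (.s k21 k61 5 (.d k42 k43 k63 0 6))))), (.s
  k1 k2 0 (.s k85 k170 14 (.s k169 k253 13 (.s k86 k252 14 (.d k87 k84 k171 0 13))))), (.s k20 k40 5
  (.s k85 k170 14 (.s k22 k41 6 (.s k87 k171 13 (.s k150 k215 8 (.d k86 k84 k214 0 7))))))] .n)
  .n))) (.c k210 (.q k225 [(.s k40 k20 5 (.s k105 k45 9 (.d k170 k235 k85 8 14))), (.s k1 k2 0 (.s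
  k40 k20 5 (.s k41 k22 6 (.s k21 k61 5 (.d k42 k43 k63 0 6))))), (.s k85 k170 14 (.s k105 k45 9 (.d
  k125 k65 k190 5 8)))] (.c k30 (.q k150 [(.s k20 k40 5 (.d k85 k215 k170 8 14)), (.s k170 k85 14
  (.d k190 k130 k125 5 8))] (.c k75 (.l (.s k135 k180 4 (.s k20 k40 5 (.d k85 k215 k170 8 14)))) (.c
  k85 (.l (.s k40 k20 5 (.s k105 k45 9 (.s k170 k235 8 (.d k190 k130 k125 5 8))))) (.c k135 (.q k75
  [(.s k20 k40 5 (.d k85 k215 k170 8 14)), (.s k170 k85 14 (.d k190 k130 k125 5 8))] (.c k85 (.l (.s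
  k40 k20 5 (.s k105 k45 9 (.s k170 k235 8 (.d k190 k130 k125 5 8))))) (.c k170 (.l (.s k20 k40 5
  (.s k85 k215 8 (.s k105 k45 9 (.d k125 k65 k190 5 8))))) .n))) (.c k170 (.l (.s k20 k40 5 (.s k85
  k215 8 (.s k105 k45 9 (.d k125 k65 k190 5 8))))) .n))))) (.c k75 (.q k135 [(.s k20 k40 5 (.s k150
  k180 4 (.d k85 k215 k170 8 14))), (.s k85 k170 14 (.s k105 k45 9 (.d k125 k65 k190 5 8))), (.s k1
  k2 0 (.s k40 k20 5 (.s k41 k22 6 (.s k21 k61 5 (.d k42 k43 k63 0 6)))))] (.c k30 (.l (.s k150 k180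
  4 (.s k20 k40 5 (.d k85 k215 k170 8 14)))) (.c k105 (.q k120 [(.s k20 k40 5 (.s k150 k180 4 (.d
  k85 k170 k215 14 8))), (.s k1 k2 0 (.s k40 k20 5 (.s k41 k22 6 (.s k21 k61 5 (.d k42 k43 k63 0
  6))))), (.s k170 k85 14 (.s k150 k180 4 (.d k190 k125 k130 8 5)))] (.c k30 (.l (.s k150 k180 4 (.s
  k20 k40 5 (.d k85 k170 k215 14 8)))) (.c k150 (.q k30 [(.s k1 k2 0 (.s k40 k20 5 (.s k41 k22 6 (.s
  k42 k43 0 (.d k21 k61 k63 5 6))))), (.s k1 k2 0 (.s k85 k170 14 (.s k169 k253 13 (.s k87 k171 13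
  (.d k86 k84 k252 0 14))))), (.s k20 k40 5 (.s k22 k41 6 (.s k18 k26 1 (.s k48 k33 4 (.s k16 k32 3
  (.s k28 k24 1 (.d k19 k25 k17 2 0)))))))] (.c k40 (.l (.s k2 k1 0 (.s k170 k85 14 (.s k86 k254 13
  (.s k169 k252 14 (.d k171 k168 k87 0 13)))))) .n)) .n))) (.c k120 (.l (.s k105 k45 9 (.s k40 k20 5
  (.d k170 k235 k85 8 14)))) (.c k150 (.q k30 [(.s k40 k20 5 (.s k105 k45 9 (.d k170 k85 k235 14
  8))), (.s k1 k2 0 (.s k41 k22 6 (.s k21 k61 5 (.s k42 k63 6 (.d k40 k43 k20 0 5))))), (.s k85 k170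
  14 (.s k105 k45 9 (.d k125 k190 k65 8 5)))] (.c k105 (.q k120 [(.s k1 k2 0 (.s k40 k20 5 (.s k41
  k22 6 (.s k42 k43 0 (.d k21 k61 k63 5 6))))), (.s k1 k2 0 (.s k85 k170 14 (.s k169 k253 13 (.s k87
  k171 13 (.d k86 k84 k252 0 14))))), (.s k20 k40 5 (.s k22 k41 6 (.s k18 k26 1 (.s k48 k33 4 (.s
  k16 k32 3 (.s k28 k24 1 (.d k19 k25 k17 2 0)))))))] (.c k40 (.l (.s k2 k1 0 (.s k170 k85 14 (.s
  k86 k254 13 (.s k169 k252 14 (.d k171 k168 k87 0 13)))))) .n)) (.c k120 (.l (.s k105 k45 9 (.s k40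
  k20 5 (.d k170 k85 k235 14 8)))) .n))) .n))))) (.c k135 (.q k75 [(.s k40 k20 5 (.s k105 k45 9 (.d
  k170 k235 k85 8 14))), (.s k1 k2 0 (.s k40 k20 5 (.s k41 k22 6 (.s k21 k61 5 (.d k42 k43 k63 0
  6))))), (.s k85 k170 14 (.s k105 k45 9 (.d k125 k65 k190 5 8)))] (.c k30 (.q k150 [(.s k20 k40 5
  (.d k85 k215 k170 8 14)), (.s k170 k85 14 (.d k190 k130 k125 5 8))] (.c k85 (.l (.s k40 k20 5 (.s
  k105 k45 9 (.s k170 k235 8 (.d k190 k130 k125 5 8))))) (.c k170 (.l (.s k20 k40 5 (.s k85 k215 8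
  (.s k105 k45 9 (.d k125 k65 k190 5 8))))) .n))) (.c k150 (.q k30 [(.s k40 k20 5 (.s k105 k45 9 (.d
  k170 k85 k235 14 8))), (.s k1 k2 0 (.s k41 k22 6 (.s k21 k61 5 (.s k42 k63 6 (.d k40 k43 k20 0
  5))))), (.s k85 k170 14 (.s k105 k45 9 (.d k125 k190 k65 8 5)))] .n) .n))) (.c k150 (.q k30 [(.s
  k40 k20 5 (.s k105 k45 9 (.d k170 k85 k235 14 8))), (.s k1 k2 0 (.s k41 k22 6 (.s k21 k61 5 (.s
  k42 k63 6 (.d k40 k43 k20 0 5))))), (.s k85 k170 14 (.s k105 k45 9 (.d k125 k190 k65 8 5)))] (.c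
  k75 (.q k135 [(.s k40 k20 5 (.s k105 k45 9 (.d k170 k85 k235 14 8))), (.s k1 k2 0 (.s k41 k22 6
  (.s k21 k61 5 (.s k42 k63 6 (.d k40 k43 k20 0 5))))), (.s k85 k170 14 (.s k105 k45 9 (.d k125 k190
  k65 8 5)))] (.c k105 (.q k120 [(.s k1 k2 0 (.s k40 k20 5 (.s k41 k22 6 (.s k42 k43 0 (.d k21 k61
  k63 5 6))))), (.s k1 k2 0 (.s k85 k170 14 (.s k169 k253 13 (.s k87 k171 13 (.d k86 k84 k252 0
  14))))), (.s k20 k40 5 (.s k22 k41 6 (.s k18 k26 1 (.s k48 k33 4 (.s k16 k32 3 (.s k28 k24 1 (.d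
  k19 k25 k17 2 0)))))))] (.c k40 (.l (.s k2 k1 0 (.s k170 k85 14 (.s k86 k254 13 (.s k169 k252 14
  (.d k171 k168 k87 0 13)))))) .n)) (.c k120 (.l (.s k105 k45 9 (.s k40 k20 5 (.d k170 k85 k235 14
  8)))) .n))) (.c k135 (.q k75 [(.s k40 k20 5 (.s k105 k45 9 (.d k170 k85 k235 14 8))), (.s k1 k2 0
  (.s k41 k22 6 (.s k21 k61 5 (.s k42 k63 6 (.d k40 k43 k20 0 5))))), (.s k85 k170 14 (.s k105 k45 9
  (.d k125 k190 k65 8 5)))] .n) .n))) .n))))) (.c k225 (.q k210 [(.s k1 k2 0 (.s k40 k20 5 (.s k41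
  k22 6 (.s k21 k61 5 (.d k42 k43 k63 0 6))))), (.s k1 k2 0 (.s k85 k170 14 (.s k169 k253 13 (.s k86
  k252 14 (.d k87 k84 k171 0 13))))), (.s k20 k40 5 (.s k85 k170 14 (.s k22 k41 6 (.s k87 k171 13
  (.s k150 k215 8 (.d k86 k84 k214 0 7))))))] (.c k75 (.q k135 [(.s k20 k40 5 (.s k150 k180 4 (.d
  k85 k215 k170 8 14))), (.s k1 k2 0 (.s k40 k20 5 (.s k41 k22 6 (.s k21 k61 5 (.d k42 k43 k63 0
  6))))), (.s k170 k85 14 (.s k190 k125 8 (.d k150 k180 k130 4 5)))] (.c k105 (.q k120 [(.s k20 k40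
  5 (.s k150 k180 4 (.d k85 k170 k215 14 8))), (.s k1 k2 0 (.s k40 k20 5 (.s k41 k22 6 (.s k21 k61 5
  (.d k42 k43 k63 0 6))))), (.s k170 k85 14 (.s k150 k180 4 (.d k190 k125 k130 8 5)))] .n) (.c k120
  (.q k105 [(.s k40 k20 5 (.d k170 k235 k85 8 14)), (.s k85 k170 14 (.d k125 k65 k190 5 8))] (.c k85
  (.l (.s k40 k20 5 (.s k170 k235 8 (.s k190 k125 8 (.d k150 k180 k130 4 5))))) (.c k170 (.l (.s k20
  k40 5 (.s k125 k190 8 (.s k85 k65 5 (.d k150 k180 k215 4 8))))) .n))) .n))) (.c k135 (.q k75 [(.s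
  k1 k2 0 (.s k40 k20 5 (.s k41 k22 6 (.s k21 k61 5 (.d k42 k43 k63 0 6))))), (.s k1 k2 0 (.s k85
  k170 14 (.s k169 k253 13 (.s k86 k252 14 (.d k87 k84 k171 0 13))))), (.s k20 k40 5 (.s k85 k170 14
  (.s k22 k41 6 (.s k87 k171 13 (.s k150 k215 8 (.d k86 k84 k214 0 7))))))] .n) .n))) .n))))) (.c
  k135 (.q k75 [(.s k1 k2 0 (.s k40 k20 5 (.s k41 k22 6 (.s k21 k61 5 (.d k42 k43 k63 0 6))))), (.s
  k1 k2 0 (.s k85 k170 14 (.s k169 k253 13 (.s k86 k252 14 (.d k87 k84 k171 0 13))))), (.s k20 k40 5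
  (.s k85 k170 14 (.s k22 k41 6 (.s k87 k171 13 (.s k150 k215 8 (.d k86 k84 k214 0 7))))))] (.c k90
  (.q k165 [(.s k1 k2 0 (.s k40 k20 5 (.s k41 k22 6 (.s k21 k61 5 (.d k42 k43 k63 0 6))))), (.s k1
  k2 0 (.s k85 k170 14 (.s k169 k253 13 (.s k86 k252 14 (.d k87 k84 k171 0 13))))), (.s k20 k40 5
  (.s k85 k170 14 (.s k22 k41 6 (.s k87 k171 13 (.s k150 k215 8 (.d k86 k84 k214 0 7))))))] (.c k210
  (.q k225 [(.s k40 k20 5 (.s k105 k45 9 (.d k170 k235 k85 8 14))), (.s k1 k2 0 (.s k40 k20 5 (.s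
  k41 k22 6 (.s k21 k61 5 (.d k42 k43 k63 0 6))))), (.s k85 k170 14 (.s k105 k45 9 (.d k125 k65 k190
  5 8)))] (.c k30 (.q k150 [(.s k20 k40 5 (.d k85 k215 k170 8 14)), (.s k170 k85 14 (.d k190 k130
  k125 5 8))] (.c k85 (.l (.s k40 k20 5 (.s k105 k45 9 (.s k170 k235 8 (.d k190 k130 k125 5 8)))))
  (.c k170 (.l (.s k20 k40 5 (.s k85 k215 8 (.s k105 k45 9 (.d k125 k65 k190 5 8))))) .n))) (.c k150
  (.q k30 [(.s k40 k20 5 (.s k105 k45 9 (.d k170 k85 k235 14 8))), (.s k1 k2 0 (.s k41 k22 6 (.s k21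
  k61 5 (.s k42 k63 6 (.d k40 k43 k20 0 5))))), (.s k85 k170 14 (.s k105 k45 9 (.d k125 k190 k65 8
  5)))] .n) .n))) (.c k225 (.q k210 [(.s k1 k2 0 (.s k40 k20 5 (.s k41 k22 6 (.s k21 k61 5 (.d k42
  k43 k63 0 6))))), (.s k1 k2 0 (.s k85 k170 14 (.s k169 k253 13 (.s k86 k252 14 (.d k87 k84 k171 0
  13))))), (.s k20 k40 5 (.s k85 k170 14 (.s k22 k41 6 (.s k87 k171 13 (.s k150 k215 8 (.d k86 k84
  k214 0 7))))))] .n) .n))) (.c k165 (.q k90 [(.s k40 k20 5 (.s k105 k120 4 (.d k170 k235 k85 8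
  14))), (.s k1 k2 0 (.s k40 k20 5 (.s k41 k22 6 (.s k21 k61 5 (.d k42 k43 k63 0 6))))), (.s k85
  k170 14 (.s k125 k190 8 (.d k105 k120 k65 4 5)))] (.c k150 (.q k180 [(.s k40 k20 5 (.s k105 k120 4
  (.d k170 k85 k235 14 8))), (.s k1 k2 0 (.s k41 k22 6 (.s k21 k61 5 (.s k42 k63 6 (.d k40 k43 k20 0
  5))))), (.s k85 k170 14 (.s k105 k120 4 (.d k125 k190 k65 8 5)))] (.c k210 (.q k225 [(.s k40 k20 5
  (.s k105 k120 4 (.d k170 k85 k235 14 8))), (.s k1 k2 0 (.s k41 k22 6 (.s k21 k61 5 (.s k42 k63 6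
  (.d k40 k43 k20 0 5))))), (.s k85 k170 14 (.s k105 k120 4 (.d k125 k190 k65 8 5)))] .n) (.c k225
  (.q k210 [(.s k40 k20 5 (.s k105 k120 4 (.d k170 k85 k235 14 8))), (.s k1 k2 0 (.s k41 k22 6 (.s
  k21 k61 5 (.s k42 k63 6 (.d k40 k43 k20 0 5))))), (.s k85 k170 14 (.s k105 k120 4 (.d k125 k190
  k65 8 5)))] (.c k45 (.l (.s k105 k120 4 (.s k40 k20 5 (.d k170 k85 k235 14 8)))) (.c k105 (.q k45
  [(.s k1 k2 0 (.s k40 k20 5 (.s k41 k22 6 (.s k42 k43 0 (.d k21 k61 k63 5 6))))), (.s k1 k2 0 (.s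
  k85 k170 14 (.s k169 k253 13 (.s k87 k171 13 (.d k86 k84 k252 0 14))))), (.s k40 k20 5 (.s k41 k22
  6 (.s k33 k37 1 (.s k48 k18 4 (.s k32 k16 3 (.s k44 k36 1 (.d k35 k38 k34 2 0))))))), (.s k2 k1 0
  (.s k20 k40 5 (.s k22 k41 6 (.s k42 k62 5 (.d k21 k23 k63 0 6)))))] (.c k40 (.l (.s k2 k1 0 (.s
  k170 k85 14 (.s k86 k254 13 (.s k169 k252 14 (.d k171 k168 k87 0 13)))))) .n)) .n))) .n))) (.c
  k180 (.q k150 [(.s k20 k40 5 (.d k85 k215 k170 8 14)), (.s k170 k85 14 (.d k190 k130 k125 5 8))]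
  (.c k85 (.l (.s k40 k20 5 (.s k190 k125 8 (.s k105 k120 4 (.d k170 k130 k235 5 8))))) (.c k170 (.l
  (.s k20 k40 5 (.s k85 k215 8 (.s k125 k190 8 (.d k105 k120 k65 4 5))))) (.c k210 (.q k225 [(.s k20
  k40 5 (.d k85 k215 k170 8 14)), (.s k170 k85 14 (.d k190 k130 k125 5 8))] (.c k85 (.l (.s k40 k20
  5 (.s k190 k125 8 (.s k105 k120 4 (.d k170 k130 k235 5 8))))) (.c k170 (.l (.s k20 k40 5 (.s k85
  k215 8 (.s k125 k190 8 (.d k105 k120 k65 4 5))))) .n))) (.c k225 (.l (.s k210 k30 9 (.s k20 k40 5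
  (.d k85 k215 k170 8 14)))) .n))))) (.c k210 (.q k225 [(.s k40 k20 5 (.s k105 k120 4 (.d k170 k235
  k85 8 14))), (.s k1 k2 0 (.s k40 k20 5 (.s k41 k22 6 (.s k21 k61 5 (.d k42 k43 k63 0 6))))), (.s
  k85 k170 14 (.s k125 k190 8 (.d k105 k120 k65 4 5)))] (.c k150 (.q k180 [(.s k40 k20 5 (.s k105
  k120 4 (.d k170 k85 k235 14 8))), (.s k1 k2 0 (.s k41 k22 6 (.s k21 k61 5 (.s k42 k63 6 (.d k40
  k43 k20 0 5))))), (.s k85 k170 14 (.s k105 k120 4 (.d k125 k190 k65 8 5)))] .n) (.c k180 (.q k150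
  [(.s k20 k40 5 (.d k85 k215 k170 8 14)), (.s k170 k85 14 (.d k190 k130 k125 5 8))] (.c k85 (.l (.s
  k40 k20 5 (.s k190 k125 8 (.s k105 k120 4 (.d k170 k130 k235 5 8))))) (.c k170 (.l (.s k20 k40 5
  (.s k85 k215 8 (.s k125 k190 8 (.d k105 k120 k65 4 5))))) .n))) .n))) (.c k225 (.q k210 [(.s k105
  k120 4 (.s k40 k20 5 (.d k170 k235 k85 8 14))), (.s k1 k2 0 (.s k40 k20 5 (.s k41 k22 6 (.s k21
  k61 5 (.d k42 k43 k63 0 6))))), (.s k85 k170 14 (.s k125 k190 8 (.d k105 k120 k65 4 5)))] (.c k45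
  (.l (.s k105 k120 4 (.s k40 k20 5 (.d k170 k235 k85 8 14)))) (.c k105 (.q k45 [(.s k20 k40 5 (.s
  k150 k30 9 (.d k85 k170 k215 14 8))), (.s k1 k2 0 (.s k40 k20 5 (.s k41 k22 6 (.s k21 k61 5 (.d
  k42 k43 k63 0 6))))), (.s k170 k85 14 (.s k150 k30 9 (.d k190 k125 k130 8 5)))] (.c k150 (.q k180
  [(.s k1 k2 0 (.s k40 k20 5 (.s k41 k22 6 (.s k42 k43 0 (.d k21 k61 k63 5 6))))), (.s k1 k2 0 (.s
  k85 k170 14 (.s k169 k253 13 (.s k87 k171 13 (.d k86 k84 k252 0 14))))), (.s k40 k20 5 (.s k41 k22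
  6 (.s k33 k37 1 (.s k48 k18 4 (.s k32 k16 3 (.s k44 k36 1 (.d k35 k38 k34 2 0))))))), (.s k2 k1 0
  (.s k20 k40 5 (.s k22 k41 6 (.s k42 k62 5 (.d k21 k23 k63 0 6)))))] (.c k40 (.l (.s k2 k1 0 (.s
  k170 k85 14 (.s k86 k254 13 (.s k169 k252 14 (.d k171 k168 k87 0 13)))))) .n)) (.c k180 (.l (.s
  k150 k30 9 (.s k20 k40 5 (.d k85 k170 k215 14 8)))) .n))) (.c k150 (.q k180 [(.s k40 k20 5 (.s
  k105 k120 4 (.d k170 k85 k235 14 8))), (.s k1 k2 0 (.s k41 k22 6 (.s k21 k61 5 (.s k42 k63 6 (.d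
  k40 k43 k20 0 5))))), (.s k85 k170 14 (.s k105 k120 4 (.d k125 k190 k65 8 5)))] (.c k45 (.l (.s
  k105 k120 4 (.s k40 k20 5 (.d k170 k85 k235 14 8)))) (.c k105 (.q k45 [(.s k1 k2 0 (.s k40 k20 5
  (.s k41 k22 6 (.s k42 k43 0 (.d k21 k61 k63 5 6))))), (.s k1 k2 0 (.s k85 k170 14 (.s k169 k253 13
  (.s k87 k171 13 (.d k86 k84 k252 0 14))))), (.s k40 k20 5 (.s k41 k22 6 (.s k33 k37 1 (.s k48 k18
  4 (.s k32 k16 3 (.s k44 k36 1 (.d k35 k38 k34 2 0))))))), (.s k2 k1 0 (.s k20 k40 5 (.s k22 k41 6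
  (.s k42 k62 5 (.d k21 k23 k63 0 6)))))] (.c k40 (.l (.s k2 k1 0 (.s k170 k85 14 (.s k86 k254 13
  (.s k169 k252 14 (.d k171 k168 k87 0 13)))))) .n)) .n))) (.c k180 (.l (.s k150 k30 9 (.s k20 k40 5
  (.d k85 k215 k170 8 14)))) .n))))) .n))))) (.c k210 (.q k225 [(.s k1 k2 0 (.s k40 k20 5 (.s k41
  k22 6 (.s k21 k61 5 (.d k42 k43 k63 0 6))))), (.s k1 k2 0 (.s k85 k170 14 (.s k169 k253 13 (.s k86
  k252 14 (.d k87 k84 k171 0 13))))), (.s k20 k40 5 (.s k85 k170 14 (.s k22 k41 6 (.s k87 k171 13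
  (.s k150 k215 8 (.d k86 k84 k214 0 7))))))] (.c k90 (.q k165 [(.s k40 k20 5 (.s k105 k45 9 (.d
  k170 k235 k85 8 14))), (.s k1 k2 0 (.s k40 k20 5 (.s k41 k22 6 (.s k21 k61 5 (.d k42 k43 k63 0
  6))))), (.s k85 k170 14 (.s k105 k45 9 (.d k125 k65 k190 5 8)))] (.c k30 (.q k150 [(.s k20 k40 5
  (.d k85 k215 k170 8 14)), (.s k170 k85 14 (.d k190 k130 k125 5 8))] (.c k85 (.l (.s k40 k20 5 (.s
  k105 k45 9 (.s k170 k235 8 (.d k190 k130 k125 5 8))))) (.c k170 (.l (.s k20 k40 5 (.s k85 k215 8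
  (.s k105 k45 9 (.d k125 k65 k190 5 8))))) .n))) (.c k150 (.q k30 [(.s k40 k20 5 (.s k105 k45 9 (.d
  k170 k85 k235 14 8))), (.s k1 k2 0 (.s k41 k22 6 (.s k21 k61 5 (.s k42 k63 6 (.d k40 k43 k20 0
  5))))), (.s k85 k170 14 (.s k105 k45 9 (.d k125 k190 k65 8 5)))] .n) .n))) (.c k165 (.q k90 [(.s
  k40 k20 5 (.s k105 k120 4 (.d k170 k235 k85 8 14))), (.s k1 k2 0 (.s k40 k20 5 (.s k41 k22 6 (.s
  k21 k61 5 (.d k42 k43 k63 0 6))))), (.s k85 k170 14 (.s k125 k190 8 (.d k105 k120 k65 4 5)))] (.c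
  k150 (.q k180 [(.s k40 k20 5 (.s k105 k120 4 (.d k170 k85 k235 14 8))), (.s k1 k2 0 (.s k41 k22 6
  (.s k21 k61 5 (.s k42 k63 6 (.d k40 k43 k20 0 5))))), (.s k85 k170 14 (.s k105 k120 4 (.d k125
  k190 k65 8 5)))] .n) (.c k180 (.q k150 [(.s k20 k40 5 (.d k85 k215 k170 8 14)), (.s k170 k85 14
  (.d k190 k130 k125 5 8))] (.c k85 (.l (.s k40 k20 5 (.s k190 k125 8 (.s k105 k120 4 (.d k170 k130
  k235 5 8))))) (.c k170 (.l (.s k20 k40 5 (.s k85 k215 8 (.s k125 k190 8 (.d k105 k120 k65 4 5)))))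
  .n))) .n))) .n))) (.c k225 (.q k210 [(.s k1 k2 0 (.s k40 k20 5 (.s k41 k22 6 (.s k21 k61 5 (.d k42
  k43 k63 0 6))))), (.s k1 k2 0 (.s k85 k170 14 (.s k169 k253 13 (.s k86 k252 14 (.d k87 k84 k171 0
  13))))), (.s k20 k40 5 (.s k85 k170 14 (.s k22 k41 6 (.s k87 k171 13 (.s k150 k215 8 (.d k86 k84
  k214 0 7))))))] (.c k90 (.q k165 [(.s k1 k2 0 (.s k40 k20 5 (.s k41 k22 6 (.s k21 k61 5 (.d k42
  k43 k63 0 6))))), (.s k1 k2 0 (.s k85 k170 14 (.s k169 k253 13 (.s k86 k252 14 (.d k87 k84 k171 0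
  13))))), (.s k20 k40 5 (.s k85 k170 14 (.s k22 k41 6 (.s k87 k171 13 (.s k150 k215 8 (.d k86 k84
  k214 0 7))))))] .n) (.c k165 (.q k90 [(.s k105 k120 4 (.s k40 k20 5 (.d k170 k235 k85 8 14))), (.s
  k1 k2 0 (.s k40 k20 5 (.s k41 k22 6 (.s k21 k61 5 (.d k42 k43 k63 0 6))))), (.s k85 k170 14 (.s
  k125 k190 8 (.d k105 k120 k65 4 5)))] (.c k45 (.l (.s k105 k120 4 (.s k40 k20 5 (.d k170 k235 k85
  8 14)))) (.c k105 (.q k45 [(.s k20 k40 5 (.s k150 k30 9 (.d k85 k170 k215 14 8))), (.s k1 k2 0 (.s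
  k40 k20 5 (.s k41 k22 6 (.s k21 k61 5 (.d k42 k43 k63 0 6))))), (.s k170 k85 14 (.s k150 k30 9 (.d
  k190 k125 k130 8 5)))] (.c k150 (.q k180 [(.s k1 k2 0 (.s k40 k20 5 (.s k41 k22 6 (.s k42 k43 0
  (.d k21 k61 k63 5 6))))), (.s k1 k2 0 (.s k85 k170 14 (.s k169 k253 13 (.s k87 k171 13 (.d k86 k84
  k252 0 14))))), (.s k40 k20 5 (.s k41 k22 6 (.s k33 k37 1 (.s k48 k18 4 (.s k32 k16 3 (.s k44 k36
  1 (.d k35 k38 k34 2 0))))))), (.s k2 k1 0 (.s k20 k40 5 (.s k22 k41 6 (.s k42 k62 5 (.d k21 k23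
  k63 0 6)))))] (.c k40 (.l (.s k2 k1 0 (.s k170 k85 14 (.s k86 k254 13 (.s k169 k252 14 (.d k171
  k168 k87 0 13)))))) .n)) (.c k180 (.l (.s k150 k30 9 (.s k20 k40 5 (.d k85 k170 k215 14 8))))
  .n))) (.c k150 (.q k180 [(.s k40 k20 5 (.s k105 k120 4 (.d k170 k85 k235 14 8))), (.s k1 k2 0 (.s
  k41 k22 6 (.s k21 k61 5 (.s k42 k63 6 (.d k40 k43 k20 0 5))))), (.s k85 k170 14 (.s k105 k120 4
  (.d k125 k190 k65 8 5)))] (.c k45 (.l (.s k105 k120 4 (.s k40 k20 5 (.d k170 k85 k235 14 8)))) (.c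
  k105 (.q k45 [(.s k1 k2 0 (.s k40 k20 5 (.s k41 k22 6 (.s k42 k43 0 (.d k21 k61 k63 5 6))))), (.s
  k1 k2 0 (.s k85 k170 14 (.s k169 k253 13 (.s k87 k171 13 (.d k86 k84 k252 0 14))))), (.s k40 k20 5
  (.s k41 k22 6 (.s k33 k37 1 (.s k48 k18 4 (.s k32 k16 3 (.s k44 k36 1 (.d k35 k38 k34 2 0))))))),
  (.s k2 k1 0 (.s k20 k40 5 (.s k22 k41 6 (.s k42 k62 5 (.d k21 k23 k63 0 6)))))] (.c k40 (.l (.s k2
  k1 0 (.s k170 k85 14 (.s k86 k254 13 (.s k169 k252 14 (.d k171 k168 k87 0 13)))))) .n)) .n))) (.c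
  k180 (.l (.s k150 k30 9 (.s k20 k40 5 (.d k85 k215 k170 8 14)))) .n))))) .n))) .n))))) (.c k165
  (.q k90 [(.s k1 k2 0 (.s k40 k20 5 (.s k41 k22 6 (.s k21 k61 5 (.d k42 k43 k63 0 6))))), (.s k1 k2
  0 (.s k85 k170 14 (.s k169 k253 13 (.s k86 k252 14 (.d k87 k84 k171 0 13))))), (.s k20 k40 5 (.s
  k85 k170 14 (.s k22 k41 6 (.s k87 k171 13 (.s k150 k215 8 (.d k86 k84 k214 0 7))))))] (.c k75 (.q
  k135 [(.s k1 k2 0 (.s k40 k20 5 (.s k41 k22 6 (.s k21 k61 5 (.d k42 k43 k63 0 6))))), (.s k1 k2 0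
  (.s k85 k170 14 (.s k169 k253 13 (.s k86 k252 14 (.d k87 k84 k171 0 13))))), (.s k20 k40 5 (.s k85
  k170 14 (.s k22 k41 6 (.s k87 k171 13 (.s k150 k215 8 (.d k86 k84 k214 0 7))))))] (.c k210 (.q
  k225 [(.s k1 k2 0 (.s k40 k20 5 (.s k41 k22 6 (.s k21 k61 5 (.d k42 k43 k63 0 6))))), (.s k1 k2 0
  (.s k85 k170 14 (.s k169 k253 13 (.s k86 k252 14 (.d k87 k84 k171 0 13))))), (.s k20 k40 5 (.s k85
  k170 14 (.s k22 k41 6 (.s k87 k171 13 (.s k150 k215 8 (.d k86 k84 k214 0 7))))))] .n) (.c k225 (.q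
  k210 [(.s k20 k40 5 (.s k150 k30 9 (.d k85 k215 k170 8 14))), (.s k1 k2 0 (.s k40 k20 5 (.s k41
  k22 6 (.s k21 k61 5 (.d k42 k43 k63 0 6))))), (.s k170 k85 14 (.s k150 k30 9 (.d k190 k130 k125 5
  8)))] (.c k45 (.q k105 [(.s k40 k20 5 (.d k170 k235 k85 8 14)), (.s k85 k170 14 (.d k125 k65 k190
  5 8))] (.c k85 (.l (.s k40 k20 5 (.s k150 k30 9 (.s k170 k235 8 (.d k190 k130 k125 5 8))))) (.c
  k170 (.l (.s k20 k40 5 (.s k150 k30 9 (.s k85 k215 8 (.d k125 k65 k190 5 8))))) .n))) (.c k105 (.q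
  k45 [(.s k20 k40 5 (.s k150 k30 9 (.d k85 k170 k215 14 8))), (.s k1 k2 0 (.s k40 k20 5 (.s k41 k22
  6 (.s k21 k61 5 (.d k42 k43 k63 0 6))))), (.s k170 k85 14 (.s k150 k30 9 (.d k190 k125 k130 8
  5)))] .n) .n))) .n))) (.c k135 (.q k75 [(.s k40 k20 5 (.s k105 k120 4 (.d k170 k235 k85 8 14))),
  (.s k1 k2 0 (.s k40 k20 5 (.s k41 k22 6 (.s k21 k61 5 (.d k42 k43 k63 0 6))))), (.s k85 k170 14
  (.s k125 k190 8 (.d k105 k120 k65 4 5)))] (.c k150 (.q k180 [(.s k40 k20 5 (.s k105 k120 4 (.d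
  k170 k85 k235 14 8))), (.s k1 k2 0 (.s k41 k22 6 (.s k21 k61 5 (.s k42 k63 6 (.d k40 k43 k20 0
  5))))), (.s k85 k170 14 (.s k105 k120 4 (.d k125 k190 k65 8 5)))] (.c k210 (.q k225 [(.s k40 k20 5
  (.s k105 k120 4 (.d k170 k85 k235 14 8))), (.s k1 k2 0 (.s k41 k22 6 (.s k21 k61 5 (.s k42 k63 6
  (.d k40 k43 k20 0 5))))), (.s k85 k170 14 (.s k105 k120 4 (.d k125 k190 k65 8 5)))] .n) (.c k225
  (.q k210 [(.s k40 k20 5 (.s k105 k120 4 (.d k170 k85 k235 14 8))), (.s k1 k2 0 (.s k41 k22 6 (.s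
  k21 k61 5 (.s k42 k63 6 (.d k40 k43 k20 0 5))))), (.s k85 k170 14 (.s k105 k120 4 (.d k125 k190
  k65 8 5)))] (.c k45 (.l (.s k105 k120 4 (.s k40 k20 5 (.d k170 k85 k235 14 8)))) (.c k105 (.q k45
  [(.s k1 k2 0 (.s k40 k20 5 (.s k41 k22 6 (.s k42 k43 0 (.d k21 k61 k63 5 6))))), (.s k1 k2 0 (.s
  k85 k170 14 (.s k169 k253 13 (.s k87 k171 13 (.d k86 k84 k252 0 14))))), (.s k40 k20 5 (.s k41 k22
  6 (.s k33 k37 1 (.s k48 k18 4 (.s k32 k16 3 (.s k44 k36 1 (.d k35 k38 k34 2 0))))))), (.s k2 k1 0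
  (.s k20 k40 5 (.s k22 k41 6 (.s k42 k62 5 (.d k21 k23 k63 0 6)))))] (.c k40 (.l (.s k2 k1 0 (.s
  k170 k85 14 (.s k86 k254 13 (.s k169 k252 14 (.d k171 k168 k87 0 13)))))) .n)) .n))) .n))) (.c
  k180 (.q k150 [(.s k20 k40 5 (.d k85 k215 k170 8 14)), (.s k170 k85 14 (.d k190 k130 k125 5 8))]
  (.c k85 (.l (.s k40 k20 5 (.s k190 k125 8 (.s k105 k120 4 (.d k170 k130 k235 5 8))))) (.c k170 (.l
  (.s k20 k40 5 (.s k85 k215 8 (.s k125 k190 8 (.d k105 k120 k65 4 5))))) (.c k210 (.q k225 [(.s k20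
  k40 5 (.d k85 k215 k170 8 14)), (.s k170 k85 14 (.d k190 k130 k125 5 8))] (.c k85 (.l (.s k40 k20
  5 (.s k190 k125 8 (.s k105 k120 4 (.d k170 k130 k235 5 8))))) (.c k170 (.l (.s k20 k40 5 (.s k85
  k215 8 (.s k125 k190 8 (.d k105 k120 k65 4 5))))) .n))) (.c k225 (.l (.s k210 k30 9 (.s k20 k40 5
  (.d k85 k215 k170 8 14)))) .n))))) (.c k210 (.q k225 [(.s k40 k20 5 (.s k105 k120 4 (.d k170 k235
  k85 8 14))), (.s k1 k2 0 (.s k40 k20 5 (.s k41 k22 6 (.s k21 k61 5 (.d k42 k43 k63 0 6))))), (.s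
  k85 k170 14 (.s k125 k190 8 (.d k105 k120 k65 4 5)))] (.c k150 (.q k180 [(.s k40 k20 5 (.s k105
  k120 4 (.d k170 k85 k235 14 8))), (.s k1 k2 0 (.s k41 k22 6 (.s k21 k61 5 (.s k42 k63 6 (.d k40
  k43 k20 0 5))))), (.s k85 k170 14 (.s k105 k120 4 (.d k125 k190 k65 8 5)))] .n) (.c k180 (.q k150
  [(.s k20 k40 5 (.d k85 k215 k170 8 14)), (.s k170 k85 14 (.d k190 k130 k125 5 8))] (.c k85 (.l (.s
  k40 k20 5 (.s k190 k125 8 (.s k105 k120 4 (.d k170 k130 k235 5 8))))) (.c k170 (.l (.s k20 k40 5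
  (.s k85 k215 8 (.s k125 k190 8 (.d k105 k120 k65 4 5))))) .n))) .n))) (.c k225 (.q k210 [(.s k105
  k120 4 (.s k40 k20 5 (.d k170 k235 k85 8 14))), (.s k1 k2 0 (.s k40 k20 5 (.s k41 k22 6 (.s k21
  k61 5 (.d k42 k43 k63 0 6))))), (.s k85 k170 14 (.s k125 k190 8 (.d k105 k120 k65 4 5)))] (.c k45
  (.l (.s k105 k120 4 (.s k40 k20 5 (.d k170 k235 k85 8 14)))) (.c k105 (.q k45 [(.s k20 k40 5 (.s
  k150 k30 9 (.d k85 k170 k215 14 8))), (.s k1 k2 0 (.s k40 k20 5 (.s k41 k22 6 (.s k21 k61 5 (.d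
  k42 k43 k63 0 6))))), (.s k170 k85 14 (.s k150 k30 9 (.d k190 k125 k130 8 5)))] (.c k150 (.q k180
  [(.s k1 k2 0 (.s k40 k20 5 (.s k41 k22 6 (.s k42 k43 0 (.d k21 k61 k63 5 6))))), (.s k1 k2 0 (.s
  k85 k170 14 (.s k169 k253 13 (.s k87 k171 13 (.d k86 k84 k252 0 14))))), (.s k40 k20 5 (.s k41 k22
  6 (.s k33 k37 1 (.s k48 k18 4 (.s k32 k16 3 (.s k44 k36 1 (.d k35 k38 k34 2 0))))))), (.s k2 k1 0
  (.s k20 k40 5 (.s k22 k41 6 (.s k42 k62 5 (.d k21 k23 k63 0 6)))))] (.c k40 (.l (.s k2 k1 0 (.s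
  k170 k85 14 (.s k86 k254 13 (.s k169 k252 14 (.d k171 k168 k87 0 13)))))) .n)) (.c k180 (.l (.s
  k150 k30 9 (.s k20 k40 5 (.d k85 k170 k215 14 8)))) .n))) (.c k150 (.q k180 [(.s k40 k20 5 (.s
  k105 k120 4 (.d k170 k85 k235 14 8))), (.s k1 k2 0 (.s k41 k22 6 (.s k21 k61 5 (.s k42 k63 6 (.d
  k40 k43 k20 0 5))))), (.s k85 k170 14 (.s k105 k120 4 (.d k125 k190 k65 8 5)))] (.c k45 (.l (.s
  k105 k120 4 (.s k40 k20 5 (.d k170 k85 k235 14 8)))) (.c k105 (.q k45 [(.s k1 k2 0 (.s k40 k20 5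
  (.s k41 k22 6 (.s k42 k43 0 (.d k21 k61 k63 5 6))))), (.s k1 k2 0 (.s k85 k170 14 (.s k169 k253 13
  (.s k87 k171 13 (.d k86 k84 k252 0 14))))), (.s k40 k20 5 (.s k41 k22 6 (.s k33 k37 1 (.s k48 k18
  4 (.s k32 k16 3 (.s k44 k36 1 (.d k35 k38 k34 2 0))))))), (.s k2 k1 0 (.s k20 k40 5 (.s k22 k41 6
  (.s k42 k62 5 (.d k21 k23 k63 0 6)))))] (.c k40 (.l (.s k2 k1 0 (.s k170 k85 14 (.s k86 k254 13
  (.s k169 k252 14 (.d k171 k168 k87 0 13)))))) .n)) .n))) (.c k180 (.l (.s k150 k30 9 (.s k20 k40 5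
  (.d k85 k215 k170 8 14)))) .n))))) .n))))) (.c k210 (.q k225 [(.s k1 k2 0 (.s k40 k20 5 (.s k41
  k22 6 (.s k21 k61 5 (.d k42 k43 k63 0 6))))), (.s k1 k2 0 (.s k85 k170 14 (.s k169 k253 13 (.s k86
  k252 14 (.d k87 k84 k171 0 13))))), (.s k20 k40 5 (.s k85 k170 14 (.s k22 k41 6 (.s k87 k171 13
  (.s k150 k215 8 (.d k86 k84 k214 0 7))))))] (.c k75 (.q k135 [(.s k1 k2 0 (.s k40 k20 5 (.s k41
  k22 6 (.s k21 k61 5 (.d k42 k43 k63 0 6))))), (.s k1 k2 0 (.s k85 k170 14 (.s k169 k253 13 (.s k86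
  k252 14 (.d k87 k84 k171 0 13))))), (.s k20 k40 5 (.s k85 k170 14 (.s k22 k41 6 (.s k87 k171 13
  (.s k150 k215 8 (.d k86 k84 k214 0 7))))))] .n) (.c k135 (.q k75 [(.s k40 k20 5 (.s k105 k120 4
  (.d k170 k235 k85 8 14))), (.s k1 k2 0 (.s k40 k20 5 (.s k41 k22 6 (.s k21 k61 5 (.d k42 k43 k63 0
  6))))), (.s k85 k170 14 (.s k125 k190 8 (.d k105 k120 k65 4 5)))] (.c k150 (.q k180 [(.s k40 k20 5
  (.s k105 k120 4 (.d k170 k85 k235 14 8))), (.s k1 k2 0 (.s k41 k22 6 (.s k21 k61 5 (.s k42 k63 6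
  (.d k40 k43 k20 0 5))))), (.s k85 k170 14 (.s k105 k120 4 (.d k125 k190 k65 8 5)))] .n) (.c k180
  (.q k150 [(.s k20 k40 5 (.d k85 k215 k170 8 14)), (.s k170 k85 14 (.d k190 k130 k125 5 8))] (.c
  k85 (.l (.s k40 k20 5 (.s k190 k125 8 (.s k105 k120 4 (.d k170 k130 k235 5 8))))) (.c k170 (.l (.s
  k20 k40 5 (.s k85 k215 8 (.s k125 k190 8 (.d k105 k120 k65 4 5))))) .n))) .n))) .n))) (.c k225 (.q
  k210 [(.s k20 k40 5 (.s k150 k30 9 (.d k85 k215 k170 8 14))), (.s k1 k2 0 (.s k40 k20 5 (.s k41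
  k22 6 (.s k21 k61 5 (.d k42 k43 k63 0 6))))), (.s k170 k85 14 (.s k150 k30 9 (.d k190 k130 k125 5
  8)))] (.c k45 (.q k105 [(.s k40 k20 5 (.d k170 k235 k85 8 14)), (.s k85 k170 14 (.d k125 k65 k190
  5 8))] (.c k75 (.q k135 [(.s k40 k20 5 (.d k170 k235 k85 8 14)), (.s k85 k170 14 (.d k125 k65 k190
  5 8))] (.c k85 (.l (.s k40 k20 5 (.s k150 k30 9 (.s k170 k235 8 (.d k190 k130 k125 5 8))))) (.c
  k170 (.l (.s k20 k40 5 (.s k150 k30 9 (.s k85 k215 8 (.d k125 k65 k190 5 8))))) .n))) (.c k85 (.l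
  (.s k40 k20 5 (.s k150 k30 9 (.s k170 k235 8 (.d k190 k130 k125 5 8))))) (.c k135 (.l (.s k75 k120
  4 (.s k40 k20 5 (.d k170 k235 k85 8 14)))) (.c k170 (.l (.s k20 k40 5 (.s k150 k30 9 (.s k85 k215
  8 (.d k125 k65 k190 5 8))))) .n))))) (.c k75 (.q k135 [(.s k20 k40 5 (.s k150 k30 9 (.d k85 k215
  k170 8 14))), (.s k1 k2 0 (.s k40 k20 5 (.s k41 k22 6 (.s k21 k61 5 (.d k42 k43 k63 0 6))))), (.s
  k170 k85 14 (.s k150 k30 9 (.d k190 k130 k125 5 8)))] (.c k45 (.q k105 [(.s k40 k20 5 (.d k170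
  k235 k85 8 14)), (.s k85 k170 14 (.d k125 k65 k190 5 8))] (.c k85 (.l (.s k40 k20 5 (.s k150 k30 9
  (.s k170 k235 8 (.d k190 k130 k125 5 8))))) (.c k170 (.l (.s k20 k40 5 (.s k150 k30 9 (.s k85 k215
  8 (.d k125 k65 k190 5 8))))) .n))) (.c k105 (.q k45 [(.s k20 k40 5 (.s k150 k30 9 (.d k85 k170
  k215 14 8))), (.s k1 k2 0 (.s k40 k20 5 (.s k41 k22 6 (.s k21 k61 5 (.d k42 k43 k63 0 6))))), (.s
  k170 k85 14 (.s k150 k30 9 (.d k190 k125 k130 8 5)))] .n) .n))) (.c k105 (.q k45 [(.s k20 k40 5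
  (.s k150 k30 9 (.d k85 k170 k215 14 8))), (.s k1 k2 0 (.s k40 k20 5 (.s k41 k22 6 (.s k21 k61 5
  (.d k42 k43 k63 0 6))))), (.s k170 k85 14 (.s k150 k30 9 (.d k190 k125 k130 8 5)))] (.c k75 (.q
  k135 [(.s k20 k40 5 (.s k150 k30 9 (.d k85 k170 k215 14 8))), (.s k1 k2 0 (.s k40 k20 5 (.s k41
  k22 6 (.s k21 k61 5 (.d k42 k43 k63 0 6))))), (.s k170 k85 14 (.s k150 k30 9 (.d k190 k125 k130 8
  5)))] .n) (.c k135 (.q k75 [(.s k20 k40 5 (.s k150 k30 9 (.d k85 k170 k215 14 8))), (.s k1 k2 0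
  (.s k40 k20 5 (.s k41 k22 6 (.s k21 k61 5 (.d k42 k43 k63 0 6))))), (.s k170 k85 14 (.s k150 k30 9
  (.d k190 k125 k130 8 5)))] (.c k150 (.q k180 [(.s k1 k2 0 (.s k40 k20 5 (.s k41 k22 6 (.s k42 k43
  0 (.d k21 k61 k63 5 6))))), (.s k1 k2 0 (.s k85 k170 14 (.s k169 k253 13 (.s k87 k171 13 (.d k86
  k84 k252 0 14))))), (.s k40 k20 5 (.s k41 k22 6 (.s k33 k37 1 (.s k48 k18 4 (.s k32 k16 3 (.s k44
  k36 1 (.d k35 k38 k34 2 0))))))), (.s k2 k1 0 (.s k20 k40 5 (.s k22 k41 6 (.s k42 k62 5 (.d k21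
  k23 k63 0 6)))))] (.c k40 (.l (.s k2 k1 0 (.s k170 k85 14 (.s k86 k254 13 (.s k169 k252 14 (.d
  k171 k168 k87 0 13)))))) .n)) (.c k180 (.l (.s k150 k30 9 (.s k20 k40 5 (.d k85 k170 k215 14 8))))
  .n))) .n))) (.c k135 (.q k75 [(.s k105 k120 4 (.s k40 k20 5 (.d k170 k235 k85 8 14))), (.s k1 k2 0
  (.s k40 k20 5 (.s k41 k22 6 (.s k21 k61 5 (.d k42 k43 k63 0 6))))), (.s k85 k170 14 (.s k125 k190
  8 (.d k105 k120 k65 4 5)))] (.c k45 (.l (.s k105 k120 4 (.s k40 k20 5 (.d k170 k235 k85 8 14))))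
  (.c k105 (.q k45 [(.s k20 k40 5 (.s k150 k30 9 (.d k85 k170 k215 14 8))), (.s k1 k2 0 (.s k40 k20
  5 (.s k41 k22 6 (.s k21 k61 5 (.d k42 k43 k63 0 6))))), (.s k170 k85 14 (.s k150 k30 9 (.d k190
  k125 k130 8 5)))] (.c k150 (.q k180 [(.s k1 k2 0 (.s k40 k20 5 (.s k41 k22 6 (.s k42 k43 0 (.d k21
  k61 k63 5 6))))), (.s k1 k2 0 (.s k85 k170 14 (.s k169 k253 13 (.s k87 k171 13 (.d k86 k84 k252 0
  14))))), (.s k40 k20 5 (.s k41 k22 6 (.s k33 k37 1 (.s k48 k18 4 (.s k32 k16 3 (.s k44 k36 1 (.d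
  k35 k38 k34 2 0))))))), (.s k2 k1 0 (.s k20 k40 5 (.s k22 k41 6 (.s k42 k62 5 (.d k21 k23 k63 0
  6)))))] (.c k40 (.l (.s k2 k1 0 (.s k170 k85 14 (.s k86 k254 13 (.s k169 k252 14 (.d k171 k168 k87
  0 13)))))) .n)) (.c k180 (.l (.s k150 k30 9 (.s k20 k40 5 (.d k85 k170 k215 14 8)))) .n))) (.c
  k150 (.q k180 [(.s k40 k20 5 (.s k105 k120 4 (.d k170 k85 k235 14 8))), (.s k1 k2 0 (.s k41 k22 6
  (.s k21 k61 5 (.s k42 k63 6 (.d k40 k43 k20 0 5))))), (.s k85 k170 14 (.s k105 k120 4 (.d k125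
  k190 k65 8 5)))] (.c k45 (.l (.s k105 k120 4 (.s k40 k20 5 (.d k170 k85 k235 14 8)))) (.c k105 (.q
  k45 [(.s k1 k2 0 (.s k40 k20 5 (.s k41 k22 6 (.s k42 k43 0 (.d k21 k61 k63 5 6))))), (.s k1 k2 0
  (.s k85 k170 14 (.s k169 k253 13 (.s k87 k171 13 (.d k86 k84 k252 0 14))))), (.s k40 k20 5 (.s k41
  k22 6 (.s k33 k37 1 (.s k48 k18 4 (.s k32 k16 3 (.s k44 k36 1 (.d k35 k38 k34 2 0))))))), (.s k2
  k1 0 (.s k20 k40 5 (.s k22 k41 6 (.s k42 k62 5 (.d k21 k23 k63 0 6)))))] (.c k40 (.l (.s k2 k1 0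
  (.s k170 k85 14 (.s k86 k254 13 (.s k169 k252 14 (.d k171 k168 k87 0 13)))))) .n)) .n))) (.c k180
  (.l (.s k150 k30 9 (.s k20 k40 5 (.d k85 k215 k170 8 14)))) .n))))) .n))))) .n))))) (.c k210 (.q
  k225 [(.s k1 k2 0 (.s k40 k20 5 (.s k41 k22 6 (.s k21 k61 5 (.d k42 k43 k63 0 6))))), (.s k1 k2 0
  (.s k85 k170 14 (.s k169 k253 13 (.s k86 k252 14 (.d k87 k84 k171 0 13))))), (.s k20 k40 5 (.s k85
  k170 14 (.s k22 k41 6 (.s k87 k171 13 (.s k150 k215 8 (.d k86 k84 k214 0 7))))))] (.c k75 (.q k135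
  [(.s k1 k2 0 (.s k40 k20 5 (.s k41 k22 6 (.s k21 k61 5 (.d k42 k43 k63 0 6))))), (.s k1 k2 0 (.s
  k85 k170 14 (.s k169 k253 13 (.s k86 k252 14 (.d k87 k84 k171 0 13))))), (.s k20 k40 5 (.s k85
  k170 14 (.s k22 k41 6 (.s k87 k171 13 (.s k150 k215 8 (.d k86 k84 k214 0 7))))))] (.c k90 (.q k165
  [(.s k20 k40 5 (.s k150 k180 4 (.d k85 k215 k170 8 14))), (.s k85 k170 14 (.s k105 k45 9 (.d k125
  k65 k190 5 8))), (.s k1 k2 0 (.s k40 k20 5 (.s k41 k22 6 (.s k21 k61 5 (.d k42 k43 k63 0 6)))))]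
  (.c k30 (.l (.s k150 k180 4 (.s k20 k40 5 (.d k85 k215 k170 8 14)))) (.c k105 (.q k120 [(.s k20
  k40 5 (.s k150 k180 4 (.d k85 k170 k215 14 8))), (.s k1 k2 0 (.s k40 k20 5 (.s k41 k22 6 (.s k21
  k61 5 (.d k42 k43 k63 0 6))))), (.s k170 k85 14 (.s k150 k180 4 (.d k190 k125 k130 8 5)))] (.c k30
  (.l (.s k150 k180 4 (.s k20 k40 5 (.d k85 k170 k215 14 8)))) (.c k150 (.q k30 [(.s k1 k2 0 (.s k40
  k20 5 (.s k41 k22 6 (.s k42 k43 0 (.d k21 k61 k63 5 6))))), (.s k1 k2 0 (.s k85 k170 14 (.s k169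
  k253 13 (.s k87 k171 13 (.d k86 k84 k252 0 14))))), (.s k20 k40 5 (.s k22 k41 6 (.s k18 k26 1 (.s
  k48 k33 4 (.s k16 k32 3 (.s k28 k24 1 (.d k19 k25 k17 2 0)))))))] (.c k40 (.l (.s k2 k1 0 (.s k170
  k85 14 (.s k86 k254 13 (.s k169 k252 14 (.d k171 k168 k87 0 13)))))) .n)) .n))) (.c k120 (.l (.s
  k105 k45 9 (.s k40 k20 5 (.d k170 k235 k85 8 14)))) (.c k150 (.q k30 [(.s k40 k20 5 (.s k105 k45 9
  (.d k170 k85 k235 14 8))), (.s k1 k2 0 (.s k41 k22 6 (.s k21 k61 5 (.s k42 k63 6 (.d k40 k43 k20 0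
  5))))), (.s k85 k170 14 (.s k105 k45 9 (.d k125 k190 k65 8 5)))] (.c k105 (.q k120 [(.s k1 k2 0
  (.s k40 k20 5 (.s k41 k22 6 (.s k42 k43 0 (.d k21 k61 k63 5 6))))), (.s k1 k2 0 (.s k85 k170 14
  (.s k169 k253 13 (.s k87 k171 13 (.d k86 k84 k252 0 14))))), (.s k20 k40 5 (.s k22 k41 6 (.s k18
  k26 1 (.s k48 k33 4 (.s k16 k32 3 (.s k28 k24 1 (.d k19 k25 k17 2 0)))))))] (.c k40 (.l (.s k2 k1
  0 (.s k170 k85 14 (.s k86 k254 13 (.s k169 k252 14 (.d k171 k168 k87 0 13)))))) .n)) (.c k120 (.l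
  (.s k105 k45 9 (.s k40 k20 5 (.d k170 k85 k235 14 8)))) .n))) .n))))) (.c k165 (.q k90 [(.s k1 k2
  0 (.s k40 k20 5 (.s k41 k22 6 (.s k21 k61 5 (.d k42 k43 k63 0 6))))), (.s k1 k2 0 (.s k85 k170 14
  (.s k169 k253 13 (.s k86 k252 14 (.d k87 k84 k171 0 13))))), (.s k20 k40 5 (.s k85 k170 14 (.s k22
  k41 6 (.s k87 k171 13 (.s k150 k215 8 (.d k86 k84 k214 0 7))))))] .n) .n))) (.c k90 (.q k165 [(.s
  k40 k20 5 (.s k105 k45 9 (.d k170 k235 k85 8 14))), (.s k1 k2 0 (.s k40 k20 5 (.s k41 k22 6 (.s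
  k21 k61 5 (.d k42 k43 k63 0 6))))), (.s k85 k170 14 (.s k105 k45 9 (.d k125 k65 k190 5 8)))] (.c
  k30 (.q k150 [(.s k20 k40 5 (.d k85 k215 k170 8 14)), (.s k170 k85 14 (.d k190 k130 k125 5 8))]
  (.c k75 (.l (.s k135 k180 4 (.s k20 k40 5 (.d k85 k215 k170 8 14)))) (.c k85 (.l (.s k40 k20 5 (.s
  k105 k45 9 (.s k170 k235 8 (.d k190 k130 k125 5 8))))) (.c k135 (.q k75 [(.s k20 k40 5 (.d k85
  k215 k170 8 14)), (.s k170 k85 14 (.d k190 k130 k125 5 8))] (.c k85 (.l (.s k40 k20 5 (.s k105 k45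
  9 (.s k170 k235 8 (.d k190 k130 k125 5 8))))) (.c k170 (.l (.s k20 k40 5 (.s k85 k215 8 (.s k105
  k45 9 (.d k125 k65 k190 5 8))))) .n))) (.c k170 (.l (.s k20 k40 5 (.s k85 k215 8 (.s k105 k45 9
  (.d k125 k65 k190 5 8))))) .n))))) (.c k75 (.q k135 [(.s k20 k40 5 (.s k150 k180 4 (.d k85 k215
  k170 8 14))), (.s k85 k170 14 (.s k105 k45 9 (.d k125 k65 k190 5 8))), (.s k1 k2 0 (.s k40 k20 5
  (.s k41 k22 6 (.s k21 k61 5 (.d k42 k43 k63 0 6)))))] (.c k30 (.l (.s k150 k180 4 (.s k20 k40 5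
  (.d k85 k215 k170 8 14)))) (.c k105 (.q k120 [(.s k20 k40 5 (.s k150 k180 4 (.d k85 k170 k215 14
  8))), (.s k1 k2 0 (.s k40 k20 5 (.s k41 k22 6 (.s k21 k61 5 (.d k42 k43 k63 0 6))))), (.s k170 k85
  14 (.s k150 k180 4 (.d k190 k125 k130 8 5)))] (.c k30 (.l (.s k150 k180 4 (.s k20 k40 5 (.d k85
  k170 k215 14 8)))) (.c k150 (.q k30 [(.s k1 k2 0 (.s k40 k20 5 (.s k41 k22 6 (.s k42 k43 0 (.d k21
  k61 k63 5 6))))), (.s k1 k2 0 (.s k85 k170 14 (.s k169 k253 13 (.s k87 k171 13 (.d k86 k84 k252 0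
  14))))), (.s k20 k40 5 (.s k22 k41 6 (.s k18 k26 1 (.s k48 k33 4 (.s k16 k32 3 (.s k28 k24 1 (.d
  k19 k25 k17 2 0)))))))] (.c k40 (.l (.s k2 k1 0 (.s k170 k85 14 (.s k86 k254 13 (.s k169 k252 14
  (.d k171 k168 k87 0 13)))))) .n)) .n))) (.c k120 (.l (.s k105 k45 9 (.s k40 k20 5 (.d k170 k235
  k85 8 14)))) (.c k150 (.q k30 [(.s k40 k20 5 (.s k105 k45 9 (.d k170 k85 k235 14 8))), (.s k1 k2 0
  (.s k41 k22 6 (.s k21 k61 5 (.s k42 k63 6 (.d k40 k43 k20 0 5))))), (.s k85 k170 14 (.s k105 k45 9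
  (.d k125 k190 k65 8 5)))] (.c k105 (.q k120 [(.s k1 k2 0 (.s k40 k20 5 (.s k41 k22 6 (.s k42 k43 0
  (.d k21 k61 k63 5 6))))), (.s k1 k2 0 (.s k85 k170 14 (.s k169 k253 13 (.s k87 k171 13 (.d k86 k84
  k252 0 14))))), (.s k20 k40 5 (.s k22 k41 6 (.s k18 k26 1 (.s k48 k33 4 (.s k16 k32 3 (.s k28 k24
  1 (.d k19 k25 k17 2 0)))))))] (.c k40 (.l (.s k2 k1 0 (.s k170 k85 14 (.s k86 k254 13 (.s k169
  k252 14 (.d k171 k168 k87 0 13)))))) .n)) (.c k120 (.l (.s k105 k45 9 (.s k40 k20 5 (.d k170 k85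
  k235 14 8)))) .n))) .n))))) (.c k135 (.q k75 [(.s k40 k20 5 (.s k105 k45 9 (.d k170 k235 k85 8
  14))), (.s k1 k2 0 (.s k40 k20 5 (.s k41 k22 6 (.s k21 k61 5 (.d k42 k43 k63 0 6))))), (.s k85
  k170 14 (.s k105 k45 9 (.d k125 k65 k190 5 8)))] (.c k30 (.q k150 [(.s k20 k40 5 (.d k85 k215 k170
  8 14)), (.s k170 k85 14 (.d k190 k130 k125 5 8))] (.c k85 (.l (.s k40 k20 5 (.s k105 k45 9 (.s
  k170 k235 8 (.d k190 k130 k125 5 8))))) (.c k170 (.l (.s k20 k40 5 (.s k85 k215 8 (.s k105 k45 9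
  (.d k125 k65 k190 5 8))))) .n))) (.c k150 (.q k30 [(.s k40 k20 5 (.s k105 k45 9 (.d k170 k85 k235
  14 8))), (.s k1 k2 0 (.s k41 k22 6 (.s k21 k61 5 (.s k42 k63 6 (.d k40 k43 k20 0 5))))), (.s k85
  k170 14 (.s k105 k45 9 (.d k125 k190 k65 8 5)))] .n) .n))) (.c k150 (.q k30 [(.s k40 k20 5 (.s
  k105 k45 9 (.d k170 k85 k235 14 8))), (.s k1 k2 0 (.s k41 k22 6 (.s k21 k61 5 (.s k42 k63 6 (.d
  k40 k43 k20 0 5))))), (.s k85 k170 14 (.s k105 k45 9 (.d k125 k190 k65 8 5)))] (.c k75 (.q k135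
  [(.s k40 k20 5 (.s k105 k45 9 (.d k170 k85 k235 14 8))), (.s k1 k2 0 (.s k41 k22 6 (.s k21 k61 5
  (.s k42 k63 6 (.d k40 k43 k20 0 5))))), (.s k85 k170 14 (.s k105 k45 9 (.d k125 k190 k65 8 5)))]
  (.c k105 (.q k120 [(.s k1 k2 0 (.s k40 k20 5 (.s k41 k22 6 (.s k42 k43 0 (.d k21 k61 k63 5 6))))),
  (.s k1 k2 0 (.s k85 k170 14 (.s k169 k253 13 (.s k87 k171 13 (.d k86 k84 k252 0 14))))), (.s k20
  k40 5 (.s k22 k41 6 (.s k18 k26 1 (.s k48 k33 4 (.s k16 k32 3 (.s k28 k24 1 (.d k19 k25 k17 2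
  0)))))))] (.c k40 (.l (.s k2 k1 0 (.s k170 k85 14 (.s k86 k254 13 (.s k169 k252 14 (.d k171 k168
  k87 0 13)))))) .n)) (.c k120 (.l (.s k105 k45 9 (.s k40 k20 5 (.d k170 k85 k235 14 8)))) .n))) (.c
  k135 (.q k75 [(.s k40 k20 5 (.s k105 k45 9 (.d k170 k85 k235 14 8))), (.s k1 k2 0 (.s k41 k22 6
  (.s k21 k61 5 (.s k42 k63 6 (.d k40 k43 k20 0 5))))), (.s k85 k170 14 (.s k105 k45 9 (.d k125 k190
  k65 8 5)))] .n) .n))) .n))))) (.c k135 (.q k75 [(.s k1 k2 0 (.s k40 k20 5 (.s k41 k22 6 (.s k21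
  k61 5 (.d k42 k43 k63 0 6))))), (.s k1 k2 0 (.s k85 k170 14 (.s k169 k253 13 (.s k86 k252 14 (.d
  k87 k84 k171 0 13))))), (.s k20 k40 5 (.s k85 k170 14 (.s k22 k41 6 (.s k87 k171 13 (.s k150 k215
  8 (.d k86 k84 k214 0 7))))))] (.c k90 (.q k165 [(.s k40 k20 5 (.s k105 k45 9 (.d k170 k235 k85 8
  14))), (.s k1 k2 0 (.s k40 k20 5 (.s k41 k22 6 (.s k21 k61 5 (.d k42 k43 k63 0 6))))), (.s k85
  k170 14 (.s k105 k45 9 (.d k125 k65 k190 5 8)))] (.c k30 (.q k150 [(.s k20 k40 5 (.d k85 k215 k170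
  8 14)), (.s k170 k85 14 (.d k190 k130 k125 5 8))] (.c k85 (.l (.s k40 k20 5 (.s k105 k45 9 (.s
  k170 k235 8 (.d k190 k130 k125 5 8))))) (.c k170 (.l (.s k20 k40 5 (.s k85 k215 8 (.s k105 k45 9
  (.d k125 k65 k190 5 8))))) .n))) (.c k150 (.q k30 [(.s k40 k20 5 (.s k105 k45 9 (.d k170 k85 k235
  14 8))), (.s k1 k2 0 (.s k41 k22 6 (.s k21 k61 5 (.s k42 k63 6 (.d k40 k43 k20 0 5))))), (.s k85
  k170 14 (.s k105 k45 9 (.d k125 k190 k65 8 5)))] .n) .n))) (.c k165 (.q k90 [(.s k40 k20 5 (.s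
  k105 k120 4 (.d k170 k235 k85 8 14))), (.s k1 k2 0 (.s k40 k20 5 (.s k41 k22 6 (.s k21 k61 5 (.d
  k42 k43 k63 0 6))))), (.s k85 k170 14 (.s k125 k190 8 (.d k105 k120 k65 4 5)))] (.c k150 (.q k180
  [(.s k40 k20 5 (.s k105 k120 4 (.d k170 k85 k235 14 8))), (.s k1 k2 0 (.s k41 k22 6 (.s k21 k61 5
  (.s k42 k63 6 (.d k40 k43 k20 0 5))))), (.s k85 k170 14 (.s k105 k120 4 (.d k125 k190 k65 8 5)))]
  .n) (.c k180 (.q k150 [(.s k20 k40 5 (.d k85 k215 k170 8 14)), (.s k170 k85 14 (.d k190 k130 k125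
  5 8))] (.c k85 (.l (.s k40 k20 5 (.s k190 k125 8 (.s k105 k120 4 (.d k170 k130 k235 5 8))))) (.c
  k170 (.l (.s k20 k40 5 (.s k85 k215 8 (.s k125 k190 8 (.d k105 k120 k65 4 5))))) .n))) .n))) .n)))
  (.c k165 (.q k90 [(.s k1 k2 0 (.s k40 k20 5 (.s k41 k22 6 (.s k21 k61 5 (.d k42 k43 k63 0 6))))),
  (.s k1 k2 0 (.s k85 k170 14 (.s k169 k253 13 (.s k86 k252 14 (.d k87 k84 k171 0 13))))), (.s k20
  k40 5 (.s k85 k170 14 (.s k22 k41 6 (.s k87 k171 13 (.s k150 k215 8 (.d k86 k84 k214 0 7))))))]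
  (.c k75 (.q k135 [(.s k1 k2 0 (.s k40 k20 5 (.s k41 k22 6 (.s k21 k61 5 (.d k42 k43 k63 0 6))))),
  (.s k1 k2 0 (.s k85 k170 14 (.s k169 k253 13 (.s k86 k252 14 (.d k87 k84 k171 0 13))))), (.s k20
  k40 5 (.s k85 k170 14 (.s k22 k41 6 (.s k87 k171 13 (.s k150 k215 8 (.d k86 k84 k214 0 7))))))]
  .n) (.c k135 (.q k75 [(.s k40 k20 5 (.s k105 k120 4 (.d k170 k235 k85 8 14))), (.s k1 k2 0 (.s k40
  k20 5 (.s k41 k22 6 (.s k21 k61 5 (.d k42 k43 k63 0 6))))), (.s k85 k170 14 (.s k125 k190 8 (.d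
  k105 k120 k65 4 5)))] (.c k150 (.q k180 [(.s k40 k20 5 (.s k105 k120 4 (.d k170 k85 k235 14 8))),
  (.s k1 k2 0 (.s k41 k22 6 (.s k21 k61 5 (.s k42 k63 6 (.d k40 k43 k20 0 5))))), (.s k85 k170 14
  (.s k105 k120 4 (.d k125 k190 k65 8 5)))] .n) (.c k180 (.q k150 [(.s k20 k40 5 (.d k85 k215 k170 8
  14)), (.s k170 k85 14 (.d k190 k130 k125 5 8))] (.c k85 (.l (.s k40 k20 5 (.s k190 k125 8 (.s k105
  k120 4 (.d k170 k130 k235 5 8))))) (.c k170 (.l (.s k20 k40 5 (.s k85 k215 8 (.s k125 k190 8 (.d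
  k105 k120 k65 4 5))))) .n))) .n))) .n))) .n))))) (.c k225 (.q k210 [(.s k1 k2 0 (.s k40 k20 5 (.s
  k41 k22 6 (.s k21 k61 5 (.d k42 k43 k63 0 6))))), (.s k1 k2 0 (.s k85 k170 14 (.s k169 k253 13 (.s
  k86 k252 14 (.d k87 k84 k171 0 13))))), (.s k20 k40 5 (.s k85 k170 14 (.s k22 k41 6 (.s k87 k171
  13 (.s k150 k215 8 (.d k86 k84 k214 0 7))))))] (.c k75 (.q k135 [(.s k1 k2 0 (.s k40 k20 5 (.s k41
  k22 6 (.s k21 k61 5 (.d k42 k43 k63 0 6))))), (.s k1 k2 0 (.s k85 k170 14 (.s k169 k253 13 (.s k86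
  k252 14 (.d k87 k84 k171 0 13))))), (.s k20 k40 5 (.s k85 k170 14 (.s k22 k41 6 (.s k87 k171 13
  (.s k150 k215 8 (.d k86 k84 k214 0 7))))))] (.c k90 (.q k165 [(.s k20 k40 5 (.s k150 k180 4 (.d
  k85 k215 k170 8 14))), (.s k1 k2 0 (.s k40 k20 5 (.s k41 k22 6 (.s k21 k61 5 (.d k42 k43 k63 0
  6))))), (.s k170 k85 14 (.s k190 k125 8 (.d k150 k180 k130 4 5)))] (.c k105 (.q k120 [(.s k20 k40
  5 (.s k150 k180 4 (.d k85 k170 k215 14 8))), (.s k1 k2 0 (.s k40 k20 5 (.s k41 k22 6 (.s k21 k61 5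
  (.d k42 k43 k63 0 6))))), (.s k170 k85 14 (.s k150 k180 4 (.d k190 k125 k130 8 5)))] .n) (.c k120
  (.q k105 [(.s k40 k20 5 (.d k170 k235 k85 8 14)), (.s k85 k170 14 (.d k125 k65 k190 5 8))] (.c k85
  (.l (.s k40 k20 5 (.s k170 k235 8 (.s k190 k125 8 (.d k150 k180 k130 4 5))))) (.c k170 (.l (.s k20
  k40 5 (.s k125 k190 8 (.s k85 k65 5 (.d k150 k180 k215 4 8))))) .n))) .n))) (.c k165 (.q k90 [(.s
  k20 k40 5 (.s k150 k30 9 (.d k85 k215 k170 8 14))), (.s k1 k2 0 (.s k40 k20 5 (.s k41 k22 6 (.s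
  k21 k61 5 (.d k42 k43 k63 0 6))))), (.s k170 k85 14 (.s k150 k30 9 (.d k190 k130 k125 5 8)))] (.c
  k45 (.q k105 [(.s k40 k20 5 (.d k170 k235 k85 8 14)), (.s k85 k170 14 (.d k125 k65 k190 5 8))] (.c
  k85 (.l (.s k40 k20 5 (.s k150 k30 9 (.s k170 k235 8 (.d k190 k130 k125 5 8))))) (.c k170 (.l (.s
  k20 k40 5 (.s k150 k30 9 (.s k85 k215 8 (.d k125 k65 k190 5 8))))) .n))) (.c k105 (.q k45 [(.s k20
  k40 5 (.s k150 k30 9 (.d k85 k170 k215 14 8))), (.s k1 k2 0 (.s k40 k20 5 (.s k41 k22 6 (.s k21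
  k61 5 (.d k42 k43 k63 0 6))))), (.s k170 k85 14 (.s k150 k30 9 (.d k190 k125 k130 8 5)))] .n)
  .n))) .n))) (.c k90 (.q k165 [(.s k1 k2 0 (.s k40 k20 5 (.s k41 k22 6 (.s k21 k61 5 (.d k42 k43
  k63 0 6))))), (.s k1 k2 0 (.s k85 k170 14 (.s k169 k253 13 (.s k86 k252 14 (.d k87 k84 k171 0
  13))))), (.s k20 k40 5 (.s k85 k170 14 (.s k22 k41 6 (.s k87 k171 13 (.s k150 k215 8 (.d k86 k84
  k214 0 7))))))] (.c k75 (.q k135 [(.s k20 k40 5 (.s k150 k180 4 (.d k85 k215 k170 8 14))), (.s k1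
  k2 0 (.s k40 k20 5 (.s k41 k22 6 (.s k21 k61 5 (.d k42 k43 k63 0 6))))), (.s k170 k85 14 (.s k190
  k125 8 (.d k150 k180 k130 4 5)))] (.c k105 (.q k120 [(.s k20 k40 5 (.s k150 k180 4 (.d k85 k170
  k215 14 8))), (.s k1 k2 0 (.s k40 k20 5 (.s k41 k22 6 (.s k21 k61 5 (.d k42 k43 k63 0 6))))), (.s
  k170 k85 14 (.s k150 k180 4 (.d k190 k125 k130 8 5)))] .n) (.c k120 (.q k105 [(.s k40 k20 5 (.d
  k170 k235 k85 8 14)), (.s k85 k170 14 (.d k125 k65 k190 5 8))] (.c k85 (.l (.s k40 k20 5 (.s k170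
  k235 8 (.s k190 k125 8 (.d k150 k180 k130 4 5))))) (.c k170 (.l (.s k20 k40 5 (.s k125 k190 8 (.s
  k85 k65 5 (.d k150 k180 k215 4 8))))) .n))) .n))) (.c k135 (.q k75 [(.s k1 k2 0 (.s k40 k20 5 (.s
  k41 k22 6 (.s k21 k61 5 (.d k42 k43 k63 0 6))))), (.s k1 k2 0 (.s k85 k170 14 (.s k169 k253 13 (.s
  k86 k252 14 (.d k87 k84 k171 0 13))))), (.s k20 k40 5 (.s k85 k170 14 (.s k22 k41 6 (.s k87 k171
  13 (.s k150 k215 8 (.d k86 k84 k214 0 7))))))] .n) .n))) (.c k135 (.q k75 [(.s k1 k2 0 (.s k40 k20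
  5 (.s k41 k22 6 (.s k21 k61 5 (.d k42 k43 k63 0 6))))), (.s k1 k2 0 (.s k85 k170 14 (.s k169 k253
  13 (.s k86 k252 14 (.d k87 k84 k171 0 13))))), (.s k20 k40 5 (.s k85 k170 14 (.s k22 k41 6 (.s k87
  k171 13 (.s k150 k215 8 (.d k86 k84 k214 0 7))))))] (.c k90 (.q k165 [(.s k1 k2 0 (.s k40 k20 5
  (.s k41 k22 6 (.s k21 k61 5 (.d k42 k43 k63 0 6))))), (.s k1 k2 0 (.s k85 k170 14 (.s k169 k253 13
  (.s k86 k252 14 (.d k87 k84 k171 0 13))))), (.s k20 k40 5 (.s k85 k170 14 (.s k22 k41 6 (.s k87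
  k171 13 (.s k150 k215 8 (.d k86 k84 k214 0 7))))))] .n) (.c k165 (.q k90 [(.s k105 k120 4 (.s k40
  k20 5 (.d k170 k235 k85 8 14))), (.s k1 k2 0 (.s k40 k20 5 (.s k41 k22 6 (.s k21 k61 5 (.d k42 k43
  k63 0 6))))), (.s k85 k170 14 (.s k125 k190 8 (.d k105 k120 k65 4 5)))] (.c k45 (.l (.s k105 k120
  4 (.s k40 k20 5 (.d k170 k235 k85 8 14)))) (.c k105 (.q k45 [(.s k20 k40 5 (.s k150 k30 9 (.d k85
  k170 k215 14 8))), (.s k1 k2 0 (.s k40 k20 5 (.s k41 k22 6 (.s k21 k61 5 (.d k42 k43 k63 0 6))))),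
  (.s k170 k85 14 (.s k150 k30 9 (.d k190 k125 k130 8 5)))] (.c k150 (.q k180 [(.s k1 k2 0 (.s k40
  k20 5 (.s k41 k22 6 (.s k42 k43 0 (.d k21 k61 k63 5 6))))), (.s k1 k2 0 (.s k85 k170 14 (.s k169
  k253 13 (.s k87 k171 13 (.d k86 k84 k252 0 14))))), (.s k40 k20 5 (.s k41 k22 6 (.s k33 k37 1 (.s
  k48 k18 4 (.s k32 k16 3 (.s k44 k36 1 (.d k35 k38 k34 2 0))))))), (.s k2 k1 0 (.s k20 k40 5 (.s
  k22 k41 6 (.s k42 k62 5 (.d k21 k23 k63 0 6)))))] (.c k40 (.l (.s k2 k1 0 (.s k170 k85 14 (.s k86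
  k254 13 (.s k169 k252 14 (.d k171 k168 k87 0 13)))))) .n)) (.c k180 (.l (.s k150 k30 9 (.s k20 k40
  5 (.d k85 k170 k215 14 8)))) .n))) (.c k150 (.q k180 [(.s k40 k20 5 (.s k105 k120 4 (.d k170 k85
  k235 14 8))), (.s k1 k2 0 (.s k41 k22 6 (.s k21 k61 5 (.s k42 k63 6 (.d k40 k43 k20 0 5))))), (.s
  k85 k170 14 (.s k105 k120 4 (.d k125 k190 k65 8 5)))] (.c k45 (.l (.s k105 k120 4 (.s k40 k20 5
  (.d k170 k85 k235 14 8)))) (.c k105 (.q k45 [(.s k1 k2 0 (.s k40 k20 5 (.s k41 k22 6 (.s k42 k43 0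
  (.d k21 k61 k63 5 6))))), (.s k1 k2 0 (.s k85 k170 14 (.s k169 k253 13 (.s k87 k171 13 (.d k86 k84
  k252 0 14))))), (.s k40 k20 5 (.s k41 k22 6 (.s k33 k37 1 (.s k48 k18 4 (.s k32 k16 3 (.s k44 k36
  1 (.d k35 k38 k34 2 0))))))), (.s k2 k1 0 (.s k20 k40 5 (.s k22 k41 6 (.s k42 k62 5 (.d k21 k23
  k63 0 6)))))] (.c k40 (.l (.s k2 k1 0 (.s k170 k85 14 (.s k86 k254 13 (.s k169 k252 14 (.d k171
  k168 k87 0 13)))))) .n)) .n))) (.c k180 (.l (.s k150 k30 9 (.s k20 k40 5 (.d k85 k215 k170 8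
  14)))) .n))))) .n))) (.c k165 (.q k90 [(.s k20 k40 5 (.s k150 k30 9 (.d k85 k215 k170 8 14))), (.s
  k1 k2 0 (.s k40 k20 5 (.s k41 k22 6 (.s k21 k61 5 (.d k42 k43 k63 0 6))))), (.s k170 k85 14 (.s
  k150 k30 9 (.d k190 k130 k125 5 8)))] (.c k45 (.q k105 [(.s k40 k20 5 (.d k170 k235 k85 8 14)),
  (.s k85 k170 14 (.d k125 k65 k190 5 8))] (.c k75 (.q k135 [(.s k40 k20 5 (.d k170 k235 k85 8 14)),
  (.s k85 k170 14 (.d k125 k65 k190 5 8))] (.c k85 (.l (.s k40 k20 5 (.s k150 k30 9 (.s k170 k235 8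
  (.d k190 k130 k125 5 8))))) (.c k170 (.l (.s k20 k40 5 (.s k150 k30 9 (.s k85 k215 8 (.d k125 k65
  k190 5 8))))) .n))) (.c k85 (.l (.s k40 k20 5 (.s k150 k30 9 (.s k170 k235 8 (.d k190 k130 k125 5
  8))))) (.c k135 (.l (.s k75 k120 4 (.s k40 k20 5 (.d k170 k235 k85 8 14)))) (.c k170 (.l (.s k20
  k40 5 (.s k150 k30 9 (.s k85 k215 8 (.d k125 k65 k190 5 8))))) .n))))) (.c k75 (.q k135 [(.s k20
  k40 5 (.s k150 k30 9 (.d k85 k215 k170 8 14))), (.s k1 k2 0 (.s k40 k20 5 (.s k41 k22 6 (.s k21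
  k61 5 (.d k42 k43 k63 0 6))))), (.s k170 k85 14 (.s k150 k30 9 (.d k190 k130 k125 5 8)))] (.c k45
  (.q k105 [(.s k40 k20 5 (.d k170 k235 k85 8 14)), (.s k85 k170 14 (.d k125 k65 k190 5 8))] (.c k85
  (.l (.s k40 k20 5 (.s k150 k30 9 (.s k170 k235 8 (.d k190 k130 k125 5 8))))) (.c k170 (.l (.s k20
  k40 5 (.s k150 k30 9 (.s k85 k215 8 (.d k125 k65 k190 5 8))))) .n))) (.c k105 (.q k45 [(.s k20 k40
  5 (.s k150 k30 9 (.d k85 k170 k215 14 8))), (.s k1 k2 0 (.s k40 k20 5 (.s k41 k22 6 (.s k21 k61 5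
  (.d k42 k43 k63 0 6))))), (.s k170 k85 14 (.s k150 k30 9 (.d k190 k125 k130 8 5)))] .n) .n))) (.c
  k105 (.q k45 [(.s k20 k40 5 (.s k150 k30 9 (.d k85 k170 k215 14 8))), (.s k1 k2 0 (.s k40 k20 5
  (.s k41 k22 6 (.s k21 k61 5 (.d k42 k43 k63 0 6))))), (.s k170 k85 14 (.s k150 k30 9 (.d k190 k125
  k130 8 5)))] (.c k75 (.q k135 [(.s k20 k40 5 (.s k150 k30 9 (.d k85 k170 k215 14 8))), (.s k1 k2 0
  (.s k40 k20 5 (.s k41 k22 6 (.s k21 k61 5 (.d k42 k43 k63 0 6))))), (.s k170 k85 14 (.s k150 k30 9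
  (.d k190 k125 k130 8 5)))] .n) (.c k135 (.q k75 [(.s k20 k40 5 (.s k150 k30 9 (.d k85 k170 k215 14
  8))), (.s k1 k2 0 (.s k40 k20 5 (.s k41 k22 6 (.s k21 k61 5 (.d k42 k43 k63 0 6))))), (.s k170 k85
  14 (.s k150 k30 9 (.d k190 k125 k130 8 5)))] (.c k150 (.q k180 [(.s k1 k2 0 (.s k40 k20 5 (.s k41
  k22 6 (.s k42 k43 0 (.d k21 k61 k63 5 6))))), (.s k1 k2 0 (.s k85 k170 14 (.s k169 k253 13 (.s k87
  k171 13 (.d k86 k84 k252 0 14))))), (.s k40 k20 5 (.s k41 k22 6 (.s k33 k37 1 (.s k48 k18 4 (.s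
  k32 k16 3 (.s k44 k36 1 (.d k35 k38 k34 2 0))))))), (.s k2 k1 0 (.s k20 k40 5 (.s k22 k41 6 (.s
  k42 k62 5 (.d k21 k23 k63 0 6)))))] (.c k40 (.l (.s k2 k1 0 (.s k170 k85 14 (.s k86 k254 13 (.s
  k169 k252 14 (.d k171 k168 k87 0 13)))))) .n)) (.c k180 (.l (.s k150 k30 9 (.s k20 k40 5 (.d k85
  k170 k215 14 8)))) .n))) .n))) (.c k135 (.q k75 [(.s k105 k120 4 (.s k40 k20 5 (.d k170 k235 k85 8
  14))), (.s k1 k2 0 (.s k40 k20 5 (.s k41 k22 6 (.s k21 k61 5 (.d k42 k43 k63 0 6))))), (.s k85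
  k170 14 (.s k125 k190 8 (.d k105 k120 k65 4 5)))] (.c k45 (.l (.s k105 k120 4 (.s k40 k20 5 (.d
  k170 k235 k85 8 14)))) (.c k105 (.q k45 [(.s k20 k40 5 (.s k150 k30 9 (.d k85 k170 k215 14 8))),
  (.s k1 k2 0 (.s k40 k20 5 (.s k41 k22 6 (.s k21 k61 5 (.d k42 k43 k63 0 6))))), (.s k170 k85 14
  (.s k150 k30 9 (.d k190 k125 k130 8 5)))] (.c k150 (.q k180 [(.s k1 k2 0 (.s k40 k20 5 (.s k41 k22
  6 (.s k42 k43 0 (.d k21 k61 k63 5 6))))), (.s k1 k2 0 (.s k85 k170 14 (.s k169 k253 13 (.s k87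
  k171 13 (.d k86 k84 k252 0 14))))), (.s k40 k20 5 (.s k41 k22 6 (.s k33 k37 1 (.s k48 k18 4 (.s
  k32 k16 3 (.s k44 k36 1 (.d k35 k38 k34 2 0))))))), (.s k2 k1 0 (.s k20 k40 5 (.s k22 k41 6 (.s
  k42 k62 5 (.d k21 k23 k63 0 6)))))] (.c k40 (.l (.s k2 k1 0 (.s k170 k85 14 (.s k86 k254 13 (.s
  k169 k252 14 (.d k171 k168 k87 0 13)))))) .n)) (.c k180 (.l (.s k150 k30 9 (.s k20 k40 5 (.d k85
  k170 k215 14 8)))) .n))) (.c k150 (.q k180 [(.s k40 k20 5 (.s k105 k120 4 (.d k170 k85 k235 14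
  8))), (.s k1 k2 0 (.s k41 k22 6 (.s k21 k61 5 (.s k42 k63 6 (.d k40 k43 k20 0 5))))), (.s k85 k170
  14 (.s k105 k120 4 (.d k125 k190 k65 8 5)))] (.c k45 (.l (.s k105 k120 4 (.s k40 k20 5 (.d k170
  k85 k235 14 8)))) (.c k105 (.q k45 [(.s k1 k2 0 (.s k40 k20 5 (.s k41 k22 6 (.s k42 k43 0 (.d k21
  k61 k63 5 6))))), (.s k1 k2 0 (.s k85 k170 14 (.s k169 k253 13 (.s k87 k171 13 (.d k86 k84 k252 0
  14))))), (.s k40 k20 5 (.s k41 k22 6 (.s k33 k37 1 (.s k48 k18 4 (.s k32 k16 3 (.s k44 k36 1 (.d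
  k35 k38 k34 2 0))))))), (.s k2 k1 0 (.s k20 k40 5 (.s k22 k41 6 (.s k42 k62 5 (.d k21 k23 k63 0
  6)))))] (.c k40 (.l (.s k2 k1 0 (.s k170 k85 14 (.s k86 k254 13 (.s k169 k252 14 (.d k171 k168 k87
  0 13)))))) .n)) .n))) (.c k180 (.l (.s k150 k30 9 (.s k20 k40 5 (.d k85 k215 k170 8 14)))) .n)))))
  .n))))) .n))))) .n))))))) (.c k215 (.l (.s k40 k20 5 (.s k190 k125 8 (.s k170 k85 14 (.s k150 k130
  5 (.d k105 k235 k195 8 14)))))) (.c k235 (.l (.s k20 k40 5 (.s k125 k190 8 (.s k85 k170 14 (.s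
  k105 k65 5 (.d k150 k215 k195 8 14)))))) .n)))))))))))))))

theorem c240 : rootOK2 k255 k15 k240 t240 = true := by decide +kernel

def l : List Nat :=
  [k240.c]

theorem ok : AllQ k255.c k15.c l :=
  allQ_cons c240 (allQ_nil _ _)

end Pool.Agent.TTT.D05
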