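import Pool.Agent.TTT.Sym2

set_option autoImplicit false
set_option maxRecDepth 100000

namespace Pool.Agent.TTT.E01

def t1 : T TT 256 :=
  (.f k85 k170 14 (.q k48 [(.s k16 k32 3 (.s k154 k223 10 (.s k117 k186 10 (.d k101 k69 k207 3
  14))))] (.c k16 (.q k4 [(.s k12 k8 1 (.s k166 k247 12 (.s k93 k174 12 (.d k89 k81 k243 1 14)))),
  (.s k247 k166 12 (.s k117 k186 10 (.s k52 k182 8 (.s k20 k36 3 (.d k60 k56 k40 1 5))))), (.s k12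
  k8 1 (.s k24 k36 5 (.s k117 k186 10 (.s k101 k69 3 (.s k154 k207 14 (.s k89 k219 8 (.d k93 k81
  k174 1 12)))))))] (.c k174 (.l (.s k12 k8 1 (.s k166 k247 12 (.s k36 k24 5 (.s k101 k231 8 (.d
  k117 k69 k186 3 10)))))) .n)) (.c k32 (.q k4 [(.s k12 k8 1 (.s k166 k247 12 (.s k93 k174 12 (.d
  k89 k81 k243 1 14)))), (.s k247 k166 12 (.s k117 k186 10 (.s k52 k182 8 (.s k20 k36 3 (.d k60 k40
  k56 5 1))))), (.s k12 k8 1 (.s k24 k36 5 (.s k117 k186 10 (.s k101 k69 3 (.s k154 k207 14 (.s k89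
  k219 8 (.d k93 k81 k174 1 12)))))))] (.c k101 (.q k239 [(.s k12 k8 1 (.s k166 k247 12 (.s k93 k174
  12 (.d k89 k81 k243 1 14)))), (.s k247 k166 12 (.s k117 k186 10 (.s k52 k182 8 (.s k60 k56 1 (.d
  k20 k36 k40 3 5))))), (.s k12 k8 1 (.s k36 k24 5 (.s k20 k52 3 (.s k174 k93 12 (.s k44 k109 8 (.d
  k60 k40 k28 5 3))))))] (.c k174 (.l (.s k12 k8 1 (.s k36 k24 5 (.s k52 k20 3 (.s k117 k186 10 (.d
  k247 k182 k166 8 12)))))) (.c k251 (.l (.s k166 k247 12 (.s k12 k8 1 (.s k89 k243 14 (.d k93 k81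
  k174 1 12))))) .n))) (.c k174 (.l (.s k12 k8 1 (.s k166 k247 12 (.s k36 k24 5 (.s k101 k231 8 (.d
  k117 k69 k186 3 10)))))) (.c k239 (.q k101 [(.d k117 k69 k186 3 10), (.s k12 k8 1 (.s k166 k247 12
  (.d k36 k24 k231 5 8)))] .n) .n)))) (.c k69 (.q k4 [(.s k12 k8 1 (.s k166 k247 12 (.s k93 k174 12
  (.d k89 k81 k243 1 14)))), (.s k247 k166 12 (.s k117 k186 10 (.s k52 k182 8 (.s k20 k36 3 (.d k60
  k56 k40 1 5))))), (.s k12 k8 1 (.s k32 k16 3 (.s k36 k24 5 (.s k20 k52 3 (.d k40 k44 k60 1 5)))))]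
  (.c k137 (.q k205 [(.s k12 k8 1 (.s k166 k247 12 (.s k93 k174 12 (.d k89 k81 k243 1 14)))), (.s
  k247 k166 12 (.s k117 k186 10 (.s k52 k182 8 (.s k20 k36 3 (.d k60 k56 k40 1 5))))), (.s k12 k8 1
  (.s k32 k16 3 (.s k36 k24 5 (.s k20 k52 3 (.d k40 k44 k60 1 5)))))] .n) (.c k205 (.q k137 [(.s k12
  k8 1 (.s k166 k247 12 (.s k93 k174 12 (.d k89 k81 k243 1 14)))), (.s k247 k166 12 (.s k117 k186 10
  (.s k52 k182 8 (.s k20 k36 3 (.d k60 k56 k40 1 5))))), (.s k12 k8 1 (.s k32 k16 3 (.s k36 k24 5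
  (.s k20 k52 3 (.d k40 k44 k60 1 5)))))] .n) .n))) (.c k101 (.q k4 [(.s k12 k8 1 (.s k166 k247 12
  (.s k93 k174 12 (.d k89 k81 k243 1 14)))), (.s k247 k166 12 (.s k117 k186 10 (.s k52 k182 8 (.s
  k60 k56 1 (.d k20 k36 k40 3 5))))), (.s k12 k8 1 (.s k32 k16 3 (.s k36 k24 5 (.s k20 k52 3 (.d k40
  k44 k60 1 5)))))] (.c k32 (.q k239 [(.s k12 k8 1 (.s k166 k247 12 (.s k93 k174 12 (.d k89 k81 k243
  1 14)))), (.s k247 k166 12 (.s k117 k186 10 (.s k52 k182 8 (.s k60 k56 1 (.d k20 k36 k40 3 5))))),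
  (.s k12 k8 1 (.s k36 k24 5 (.s k20 k52 3 (.s k174 k93 12 (.s k44 k109 8 (.d k60 k40 k28 5 3))))))]
  (.c k174 (.l (.s k12 k8 1 (.s k36 k24 5 (.s k52 k20 3 (.s k117 k186 10 (.d k247 k182 k166 8
  12)))))) (.c k251 (.l (.s k166 k247 12 (.s k12 k8 1 (.s k89 k243 14 (.d k93 k81 k174 1 12)))))
  .n))) (.c k239 (.l (.s k32 k16 3 (.s k12 k8 1 (.s k166 k247 12 (.s k89 k243 14 (.d k93 k81 k174 1
  12)))))) (.c k251 (.l (.s k166 k247 12 (.s k12 k8 1 (.s k89 k243 14 (.d k93 k81 k174 1 12)))))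
  .n)))) (.c k117 (.q k4 [(.s k12 k8 1 (.s k166 k247 12 (.s k93 k174 12 (.d k89 k81 k243 1 14)))),
  (.s k12 k8 1 (.s k32 k16 3 (.s k36 k24 5 (.s k40 k44 1 (.d k20 k52 k60 3 5))))), (.s k16 k32 3 (.s
  k166 k247 12 (.s k154 k223 10 (.s k101 k207 14 (.s k36 k231 8 (.s k24 k12 5 (.d k20 k52 k28 3
  1))))))), (.s k32 k16 3 (.s k247 k166 12 (.s k243 k251 1 (.s k162 k81 12 (.s k97 k227 8 (.s k146
  k195 12 (.d k178 k130 k113 3 8)))))))] .n) (.c k154 (.q k90 [(.s k80 k95 2 (.s k240 k160 11 (.s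
  k245 k250 2 (.d k165 k5 k15 11 14)))), (.s k16 k32 3 (.s k80 k95 2 (.s k160 k240 11 (.s k144 k208
  7 (.s k192 k96 11 (.d k128 k176 k64 3 7))))))] (.c k80 (.q k101 [(.d k117 k186 k69 10 3), (.s k112
  k79 6 (.s k240 k176 7 (.s k165 k15 14 (.d k245 k250 k5 2 11))))] (.c k138 (.l (.s k186 k117 10 (.s
  k112 k79 6 (.s k240 k176 7 (.s k165 k15 14 (.d k245 k250 k5 2 11)))))) (.c k186 (.q k138 [(.d k69
  k117 k207 3 10), (.s k112 k79 6 (.s k240 k176 7 (.s k245 k250 2 (.d k165 k5 k15 11 14))))] .n)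
  .n))) (.c k95 (.q k101 [(.d k117 k186 k69 10 3), (.s k112 k79 6 (.s k240 k176 7 (.s k165 k15 14
  (.d k245 k250 k5 2 11))))] (.c k138 (.l (.s k186 k117 10 (.s k112 k79 6 (.s k240 k176 7 (.s k165
  k15 14 (.d k245 k250 k5 2 11)))))) (.c k186 (.q k138 [(.d k69 k117 k207 3 10), (.s k112 k79 6 (.s
  k240 k176 7 (.s k245 k250 2 (.d k165 k5 k15 11 14))))] .n) .n))) (.c k138 (.l (.s k186 k117 10 (.s
  k80 k95 2 (.s k240 k160 11 (.s k165 k15 14 (.d k245 k250 k5 2 11)))))) (.c k160 (.l (.s k95 k80 2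
  (.s k15 k175 11 (.s k165 k240 14 (.d k5 k10 k245 2 11))))) (.c k186 (.q k138 [(.s k95 k80 2 (.s
  k15 k175 11 (.s k5 k10 2 (.d k165 k245 k240 11 14)))), (.s k69 k207 10 (.s k101 k117 3 (.s k79
  k112 6 (.s k64 k74 2 (.s k127 k106 6 (.d k95 k111 k80 3 2)))))), (.s k69 k207 10 (.s k101 k117 3
  (.s k112 k79 6 (.s k240 k176 7 (.s k245 k250 2 (.d k165 k15 k5 14 11))))))] .n) (.c k240 (.l (.s
  k95 k80 2 (.s k15 k175 11 (.s k5 k10 2 (.s k165 k245 11 (.s k37 k26 6 (.s k101 k229 7 (.d k117 k69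
  k186 3 10)))))))) .n))))))) (.c k186 (.f k16 k32 3 (.f k154 k223 10 (.q k90 [(.s k26 k218 7 (.s
  k95 k80 2 (.d k15 k37 k175 6 11))), (.s k101 k207 14 (.s k112 k79 6 (.s k240 k176 7 (.d k80 k95
  k160 2 11)))), (.s k26 k218 7 (.s k15 k37 6 (.s k5 k10 2 (.d k165 k245 k240 11 14))))] (.c k15 (.l
  (.s k26 k218 7 (.s k31 k21 2 (.s k208 k149 10 (.d k80 k95 k144 2 7))))) (.c k101 (.q k239 [(.s k26
  k218 7 (.s k95 k80 2 (.d k15 k37 k175 6 11))), (.s k80 k95 2 (.s k240 k160 11 (.s k165 k15 14 (.d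
  k176 k143 k112 6 7)))), (.s k26 k218 7 (.s k15 k37 6 (.s k5 k10 2 (.d k165 k245 k240 11 14))))]
  (.c k15 (.l (.s k26 k218 7 (.s k31 k21 2 (.s k208 k149 10 (.d k80 k95 k144 2 7))))) .n)) (.c k239
  (.l (.s k101 k207 14 (.s k26 k218 7 (.s k15 k37 6 (.d k95 k80 k175 2 11))))) .n)))))) (.c k207 (.q
  k4 [(.s k12 k8 1 (.s k166 k247 12 (.s k93 k174 12 (.d k89 k81 k243 1 14)))), (.s k247 k166 12 (.s
  k117 k186 10 (.s k52 k182 8 (.s k20 k36 3 (.d k60 k56 k40 1 5))))), (.s k12 k8 1 (.s k32 k16 3 (.s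
  k36 k24 5 (.s k20 k52 3 (.d k40 k44 k60 1 5)))))] (.c k111 (.q k159 [(.s k12 k8 1 (.s k166 k247 12
  (.s k93 k174 12 (.d k89 k81 k243 1 14)))), (.s k247 k166 12 (.s k117 k186 10 (.s k52 k182 8 (.s
  k20 k36 3 (.d k60 k56 k40 1 5))))), (.s k12 k8 1 (.s k32 k16 3 (.s k36 k24 5 (.s k20 k52 3 (.d k40
  k44 k60 1 5)))))] .n) (.c k159 (.q k111 [(.s k12 k8 1 (.s k166 k247 12 (.s k93 k174 12 (.d k89 k81
  k243 1 14)))), (.s k247 k166 12 (.s k117 k186 10 (.s k52 k182 8 (.s k20 k36 3 (.d k60 k56 k40 1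
  5))))), (.s k12 k8 1 (.s k32 k16 3 (.s k36 k24 5 (.s k20 k52 3 (.d k40 k44 k60 1 5)))))] .n) .n)))
  (.c k223 (.q k4 [(.s k12 k8 1 (.s k166 k247 12 (.s k93 k174 12 (.d k89 k81 k243 1 14)))), (.s k247
  k166 12 (.s k117 k186 10 (.s k52 k182 8 (.s k20 k36 3 (.d k60 k56 k40 1 5))))), (.s k12 k8 1 (.s
  k32 k16 3 (.s k36 k24 5 (.s k20 k52 3 (.d k40 k44 k60 1 5)))))] .n) (.c k239 (.l (.s k117 k186 10
  (.s k16 k32 3 (.s k101 k69 3 (.d k154 k223 k207 10 14))))) .n))))))))))))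

def t3 : T TT 256 :=
  (.f k85 k170 14 (.q k207 [(.s k69 k138 10 (.s k101 k117 3 (.s k223 k239 3 (.d k154 k16 k48 10
  14))))] (.c k16 (.f k138 k69 10 (.f k239 k223 3 (.q k60 [(.s k20 k40 5 (.s k150 k215 8 (.s k125
  k190 8 (.d k105 k65 k195 5 14)))), (.s k109 k158 12 (.s k174 k44 8 (.s k93 k12 12 (.d k125 k77
  k190 3 8))))] (.c k23 (.q k43 [(.s k20 k40 5 (.s k125 k190 8 (.s k105 k65 5 (.d k150 k215 k195 8
  14)))), (.s k109 k158 12 (.s k174 k44 8 (.s k93 k12 12 (.d k125 k77 k190 3 8)))), (.s k20 k40 5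
  (.s k215 k150 8 (.s k235 k195 5 (.s k231 k227 1 (.s k247 k199 3 (.d k243 k251 k219 1 5))))))] (.c
  k190 (.l (.s k20 k40 5 (.s k150 k215 8 (.s k105 k195 14 (.s k109 k158 12 (.s k174 k44 8 (.s k93
  k12 12 (.d k125 k77 k65 3 5)))))))) .n)) (.c k43 (.q k23 [(.s k109 k158 12 (.s k174 k44 8 (.s k93
  k12 12 (.d k125 k77 k190 3 8)))), (.s k20 k40 5 (.s k21 k22 0 (.s k150 k215 8 (.s k149 k213 7 (.s
  k212 k86 8 (.d k148 k151 k84 0 7))))))] .n) (.c k125 (.l (.s k20 k40 5 (.s k215 k150 8 (.s k235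
  k195 5 (.s k231 k227 1 (.s k247 k199 3 (.d k243 k251 k219 1 5))))))) (.c k190 (.l (.s k20 k40 5
  (.s k150 k215 8 (.s k105 k195 14 (.s k109 k158 12 (.s k174 k44 8 (.s k93 k12 12 (.d k125 k77 k65 3
  5)))))))) .n))))))) (.c k23 (.q k43 [(.s k69 k138 10 (.s k101 k117 3 (.s k223 k239 3 (.d k154 k16
  k48 10 14))))] (.c k16 (.q k106 [(.s k69 k138 10 (.s k169 k232 8 (.s k253 k1 13 (.s k101 k117 3
  (.s k252 k254 0 (.d k237 k222 k33 4 9)))))), (.s k69 k138 10 (.s k64 k127 6 (.s k192 k128 7 (.s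
  k74 k79 2 (.s k133 k15 10 (.d k197 k202 k5 2 7)))))), (.s k169 k232 8 (.s k253 k1 13 (.s k239 k223
  3 (.s k252 k254 0 (.s k237 k222 4 (.s k238 k236 0 (.d k221 k205 k204 3 4)))))))] .n) (.c k48 (.f
  k138 k69 10 (.f k239 k223 3 (.q k60 [(.s k20 k40 5 (.s k125 k190 8 (.s k105 k65 5 (.d k150 k215
  k195 8 14)))), (.s k109 k158 12 (.s k174 k44 8 (.s k93 k12 12 (.d k125 k77 k190 3 8)))), (.s k20
  k40 5 (.s k215 k150 8 (.s k235 k195 5 (.s k231 k227 1 (.s k247 k199 3 (.d k243 k251 k219 1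
  5))))))] (.c k18 (.q k33 [(.s k20 k40 5 (.s k125 k190 8 (.s k105 k65 5 (.d k150 k215 k195 8
  14)))), (.s k109 k158 12 (.s k174 k44 8 (.s k93 k12 12 (.d k125 k77 k190 3 8)))), (.s k20 k40 5
  (.s k215 k150 8 (.s k235 k195 5 (.s k231 k227 1 (.s k247 k199 3 (.d k243 k251 k219 1 5))))))] (.c
  k53 (.q k58 [(.s k20 k40 5 (.s k125 k190 8 (.s k105 k65 5 (.d k150 k215 k195 8 14)))), (.s k109
  k158 12 (.s k174 k44 8 (.s k93 k12 12 (.d k125 k77 k190 3 8)))), (.s k20 k40 5 (.s k215 k150 8 (.s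
  k235 k195 5 (.s k231 k227 1 (.s k247 k199 3 (.d k243 k251 k219 1 5))))))] (.c k190 (.l (.s k20 k40
  5 (.s k150 k215 8 (.s k105 k195 14 (.s k109 k158 12 (.s k174 k44 8 (.s k93 k12 12 (.d k125 k77 k65
  3 5)))))))) .n)) (.c k58 (.q k53 [(.s k20 k40 5 (.s k125 k190 8 (.s k105 k65 5 (.d k150 k215 k195
  8 14)))), (.s k109 k158 12 (.s k174 k44 8 (.s k93 k12 12 (.d k125 k77 k190 3 8)))), (.s k20 k40 5
  (.s k215 k150 8 (.s k235 k195 5 (.s k231 k227 1 (.s k247 k199 3 (.d k243 k251 k219 1 5))))))] (.c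
  k190 (.l (.s k20 k40 5 (.s k150 k215 8 (.s k105 k195 14 (.s k109 k158 12 (.s k174 k44 8 (.s k93
  k12 12 (.d k125 k77 k65 3 5)))))))) .n)) (.c k190 (.l (.s k20 k40 5 (.s k150 k215 8 (.s k105 k195
  14 (.s k109 k158 12 (.s k174 k44 8 (.s k93 k12 12 (.d k125 k77 k65 3 5)))))))) .n)))) (.c k33 (.q
  k18 [(.s k20 k40 5 (.s k125 k190 8 (.s k105 k65 5 (.d k150 k215 k195 8 14)))), (.s k109 k158 12
  (.s k174 k44 8 (.s k93 k12 12 (.d k125 k77 k190 3 8)))), (.s k20 k40 5 (.s k215 k150 8 (.s k235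
  k195 5 (.s k231 k227 1 (.s k247 k199 3 (.d k243 k251 k219 1 5))))))] (.c k53 (.q k58 [(.s k20 k40
  5 (.s k125 k190 8 (.s k105 k65 5 (.d k150 k215 k195 8 14)))), (.s k109 k158 12 (.s k174 k44 8 (.s
  k93 k12 12 (.d k125 k77 k190 3 8)))), (.s k20 k40 5 (.s k215 k150 8 (.s k235 k195 5 (.s k231 k227
  1 (.s k247 k199 3 (.d k243 k251 k219 1 5))))))] (.c k190 (.l (.s k20 k40 5 (.s k150 k215 8 (.s
  k105 k195 14 (.s k109 k158 12 (.s k174 k44 8 (.s k93 k12 12 (.d k125 k77 k65 3 5)))))))) .n)) (.c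
  k58 (.q k53 [(.s k20 k40 5 (.s k125 k190 8 (.s k105 k65 5 (.d k150 k215 k195 8 14)))), (.s k109
  k158 12 (.s k174 k44 8 (.s k93 k12 12 (.d k125 k77 k190 3 8)))), (.s k20 k40 5 (.s k215 k150 8 (.s
  k235 k195 5 (.s k231 k227 1 (.s k247 k199 3 (.d k243 k251 k219 1 5))))))] (.c k190 (.l (.s k20 k40
  5 (.s k150 k215 8 (.s k105 k195 14 (.s k109 k158 12 (.s k174 k44 8 (.s k93 k12 12 (.d k125 k77 k65
  3 5)))))))) .n)) (.c k190 (.l (.s k20 k40 5 (.s k150 k215 8 (.s k105 k195 14 (.s k109 k158 12 (.s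
  k174 k44 8 (.s k93 k12 12 (.d k125 k77 k65 3 5)))))))) .n)))) (.c k53 (.q k58 [(.s k20 k40 5 (.s
  k125 k190 8 (.s k105 k65 5 (.d k150 k215 k195 8 14)))), (.s k109 k158 12 (.s k174 k44 8 (.s k93
  k12 12 (.d k125 k77 k190 3 8)))), (.s k20 k40 5 (.s k215 k150 8 (.s k235 k195 5 (.s k231 k227 1
  (.s k247 k199 3 (.d k243 k251 k219 1 5))))))] (.c k18 (.q k33 [(.s k20 k40 5 (.s k125 k190 8 (.s
  k105 k65 5 (.d k150 k215 k195 8 14)))), (.s k109 k158 12 (.s k174 k44 8 (.s k93 k12 12 (.d k125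
  k77 k190 3 8)))), (.s k20 k40 5 (.s k215 k150 8 (.s k235 k195 5 (.s k231 k227 1 (.s k247 k199 3
  (.d k243 k251 k219 1 5))))))] (.c k190 (.l (.s k20 k40 5 (.s k150 k215 8 (.s k105 k195 14 (.s k109
  k158 12 (.s k174 k44 8 (.s k93 k12 12 (.d k125 k77 k65 3 5)))))))) .n)) (.c k33 (.q k18 [(.s k20
  k40 5 (.s k125 k190 8 (.s k105 k65 5 (.d k150 k215 k195 8 14)))), (.s k109 k158 12 (.s k174 k44 8
  (.s k93 k12 12 (.d k125 k77 k190 3 8)))), (.s k20 k40 5 (.s k215 k150 8 (.s k235 k195 5 (.s k231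
  k227 1 (.s k247 k199 3 (.d k243 k251 k219 1 5))))))] (.c k190 (.l (.s k20 k40 5 (.s k150 k215 8
  (.s k105 k195 14 (.s k109 k158 12 (.s k174 k44 8 (.s k93 k12 12 (.d k125 k77 k65 3 5)))))))) .n))
  (.c k190 (.l (.s k20 k40 5 (.s k150 k215 8 (.s k105 k195 14 (.s k109 k158 12 (.s k174 k44 8 (.s
  k93 k12 12 (.d k125 k77 k65 3 5)))))))) .n)))) (.c k58 (.q k53 [(.s k20 k40 5 (.s k125 k190 8 (.s
  k105 k65 5 (.d k150 k215 k195 8 14)))), (.s k109 k158 12 (.s k174 k44 8 (.s k93 k12 12 (.d k125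
  k77 k190 3 8)))), (.s k20 k40 5 (.s k215 k150 8 (.s k235 k195 5 (.s k231 k227 1 (.s k247 k199 3
  (.d k243 k251 k219 1 5))))))] (.c k18 (.q k33 [(.s k20 k40 5 (.s k125 k190 8 (.s k105 k65 5 (.d
  k150 k215 k195 8 14)))), (.s k109 k158 12 (.s k174 k44 8 (.s k93 k12 12 (.d k125 k77 k190 3 8)))),
  (.s k20 k40 5 (.s k215 k150 8 (.s k235 k195 5 (.s k231 k227 1 (.s k247 k199 3 (.d k243 k251 k219 1
  5))))))] (.c k190 (.l (.s k20 k40 5 (.s k150 k215 8 (.s k105 k195 14 (.s k109 k158 12 (.s k174 k44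
  8 (.s k93 k12 12 (.d k125 k77 k65 3 5)))))))) .n)) (.c k33 (.q k18 [(.s k20 k40 5 (.s k125 k190 8
  (.s k105 k65 5 (.d k150 k215 k195 8 14)))), (.s k109 k158 12 (.s k174 k44 8 (.s k93 k12 12 (.d
  k125 k77 k190 3 8)))), (.s k20 k40 5 (.s k215 k150 8 (.s k235 k195 5 (.s k231 k227 1 (.s k247 k199
  3 (.d k243 k251 k219 1 5))))))] (.c k190 (.l (.s k20 k40 5 (.s k150 k215 8 (.s k105 k195 14 (.s
  k109 k158 12 (.s k174 k44 8 (.s k93 k12 12 (.d k125 k77 k65 3 5)))))))) .n)) (.c k190 (.l (.s k20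
  k40 5 (.s k150 k215 8 (.s k105 k195 14 (.s k109 k158 12 (.s k174 k44 8 (.s k93 k12 12 (.d k125 k77
  k65 3 5)))))))) .n)))) (.c k190 (.l (.s k20 k40 5 (.s k150 k215 8 (.s k105 k195 14 (.s k109 k158
  12 (.s k174 k44 8 (.s k93 k12 12 (.d k125 k77 k65 3 5)))))))) .n)))))))) (.c k69 (.q k60 [(.s k20
  k40 5 (.s k150 k215 8 (.s k125 k190 8 (.d k105 k65 k195 5 14)))), (.s k109 k158 12 (.s k125 k190 8
  (.s k93 k77 3 (.s k174 k12 12 (.d k239 k223 k44 3 8))))), (.s k20 k40 5 (.s k158 k109 12 (.s k223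
  k239 3 (.s k16 k154 10 (.d k28 k24 k93 1 8)))))] .n) (.c k101 (.q k60 [(.s k20 k40 5 (.s k125 k190
  8 (.s k105 k65 5 (.d k150 k215 k195 8 14)))), (.s k109 k158 12 (.s k239 k223 3 (.s k174 k44 8 (.s
  k93 k12 12 (.d k125 k77 k190 3 8))))), (.s k20 k40 5 (.s k150 k215 8 (.s k158 k109 12 (.s k154
  k146 1 (.d k223 k239 k16 3 10)))))] (.c k32 (.l (.s k239 k223 3 (.s k20 k40 5 (.s k150 k215 8 (.s
  k105 k195 14 (.d k125 k65 k190 5 8)))))) (.c k239 (.q k32 [(.s k20 k40 5 (.s k125 k190 8 (.s k105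
  k65 5 (.d k150 k215 k195 8 14)))), (.s k48 k16 3 (.s k40 k20 5 (.s k36 k44 1 (.s k24 k12 5 (.d k56
  k52 k8 1 3))))), (.s k69 k138 10 (.s k109 k158 12 (.s k125 k190 8 (.s k77 k93 3 (.d k65 k73 k105 1
  5)))))] .n) .n))) (.c k117 (.q k60 [(.s k20 k40 5 (.s k125 k190 8 (.s k105 k65 5 (.d k150 k215
  k195 8 14)))), (.s k109 k158 12 (.s k125 k190 8 (.s k93 k77 3 (.s k174 k12 12 (.d k239 k223 k44 3
  8))))), (.s k20 k40 5 (.s k158 k109 12 (.s k223 k239 3 (.s k16 k154 10 (.d k28 k24 k93 1 8)))))]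
  .n) (.c k138 (.f k223 k239 3 (.f k154 k16 10 (.q k60 [(.s k20 k40 5 (.s k150 k215 8 (.d k158 k146
  k109 1 12))), (.s k101 k48 14 (.s k109 k158 12 (.s k125 k190 8 (.d k105 k97 k65 1 5)))), (.s k20
  k40 5 (.s k150 k215 8 (.s k105 k195 14 (.d k125 k65 k190 5 8))))] (.c k32 (.l (.s k101 k48 14 (.s
  k20 k40 5 (.s k150 k215 8 (.d k158 k146 k109 1 12))))) (.c k101 (.q k32 [(.s k20 k40 5 (.s k150
  k215 8 (.d k158 k146 k109 1 12))), (.s k158 k109 12 (.s k93 k28 8 (.s k174 k12 12 (.d k190 k142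
  k125 3 8)))), (.s k20 k40 5 (.s k150 k215 8 (.s k105 k195 14 (.d k125 k65 k190 5 8))))] (.c k20
  (.l (.s k158 k109 12 (.s k125 k190 8 (.s k105 k65 5 (.d k150 k146 k195 1 14))))) (.c k105 (.l (.s
  k40 k20 5 (.s k44 k36 1 (.s k28 k12 3 (.d k158 k93 k109 8 12))))) .n))) (.c k105 (.l (.s k158 k109
  12 (.s k150 k146 1 (.d k20 k40 k215 5 8)))) (.c k150 (.l (.s k101 k48 14 (.s k109 k158 12 (.s k105
  k97 1 (.d k125 k65 k190 5 8))))) .n))))))) (.c k154 (.q k60 [(.s k20 k40 5 (.s k125 k190 8 (.s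
  k105 k65 5 (.d k150 k215 k195 8 14)))), (.s k158 k109 12 (.s k190 k125 8 (.s k174 k142 3 (.s k93
  k12 12 (.d k223 k239 k28 3 8))))), (.s k20 k40 5 (.s k150 k215 8 (.s k105 k195 14 (.s k109 k158 12
  (.s k101 k97 1 (.d k69 k138 k117 10 3))))))] (.c k138 (.q k186 [(.s k20 k40 5 (.s k125 k190 8 (.s
  k105 k65 5 (.d k150 k215 k195 8 14)))), (.s k48 k117 10 (.s k56 k52 1 (.s k121 k251 8 (.s k182
  k243 10 (.d k190 k178 k125 1 8))))), (.s k20 k40 5 (.s k150 k215 8 (.s k48 k117 10 (.s k52 k56 1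
  (.s k199 k101 12 (.d k195 k203 k105 1 14))))))] .n) (.c k186 (.l (.s k138 k69 10 (.s k20 k40 5 (.s
  k150 k215 8 (.s k105 k195 14 (.d k125 k65 k190 5 8)))))) .n))) (.c k186 (.l (.s k223 k239 3 (.s
  k69 k138 10 (.s k154 k16 10 (.d k101 k117 k48 3 14))))) (.c k223 (.q k60 [(.s k20 k40 5 (.s k125
  k190 8 (.s k105 k65 5 (.d k150 k215 k195 8 14)))), (.s k69 k138 10 (.s k109 k158 12 (.s k101 k117
  3 (.s k105 k97 1 (.d k125 k65 k190 5 8))))), (.s k69 k138 10 (.s k158 k109 12 (.s k101 k117 3 (.s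
  k154 k48 14 (.s k150 k146 1 (.d k20 k40 k215 5 8))))))] .n) (.c k239 (.q k60 [(.s k20 k40 5 (.s
  k125 k190 8 (.s k105 k65 5 (.d k150 k215 k195 8 14)))), (.s k69 k138 10 (.s k109 k158 12 (.s k101
  k117 3 (.s k105 k97 1 (.d k125 k65 k190 5 8))))), (.s k69 k138 10 (.s k158 k109 12 (.s k101 k117 3
  (.s k154 k48 14 (.s k150 k146 1 (.d k20 k40 k215 5 8))))))] (.c k32 (.q k101 [(.d k69 k117 k138 3
  10), (.s k109 k158 12 (.s k125 k190 8 (.d k105 k97 k65 1 5)))] .n) (.c k101 (.q k32 [(.s k20 k40 5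
  (.s k125 k190 8 (.s k105 k65 5 (.d k150 k215 k195 8 14)))), (.s k48 k16 3 (.s k40 k20 5 (.s k36
  k44 1 (.s k24 k12 5 (.d k56 k52 k8 1 3))))), (.s k69 k138 10 (.s k109 k158 12 (.s k125 k190 8 (.s
  k77 k93 3 (.d k65 k73 k105 1 5)))))] .n) .n))) .n))))))))))) (.c k43 (.q k23 [(.s k69 k138 10 (.s
  k101 k117 3 (.s k223 k239 3 (.d k154 k16 k48 10 14))))] (.c k16 (.q k60 [(.s k20 k40 5 (.s k150
  k215 8 (.s k125 k190 8 (.d k105 k65 k195 5 14)))), (.s k109 k158 12 (.s k125 k190 8 (.s k93 k77 3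
  (.s k174 k12 12 (.d k239 k223 k44 3 8))))), (.s k20 k40 5 (.s k69 k138 10 (.s k150 k215 8 (.s k105
  k195 14 (.s k109 k158 12 (.d k101 k97 k117 1 3))))))] (.c k150 (.l (.s k69 k138 10 (.s k109 k158
  12 (.s k101 k117 3 (.s k105 k97 1 (.d k125 k65 k190 5 8)))))) .n)) (.c k48 (.f k138 k69 10 (.f
  k239 k223 3 (.q k60 [(.s k20 k40 5 (.s k150 k215 8 (.s k125 k190 8 (.d k105 k65 k195 5 14)))), (.s
  k109 k158 12 (.s k174 k44 8 (.s k93 k12 12 (.d k125 k77 k190 3 8)))), (.s k20 k40 5 (.s k21 k22 0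
  (.s k150 k215 8 (.s k149 k213 7 (.s k212 k86 8 (.d k148 k151 k84 0 7))))))] (.c k18 (.q k33 [(.s
  k20 k40 5 (.s k150 k215 8 (.s k125 k190 8 (.d k105 k65 k195 5 14)))), (.s k109 k158 12 (.s k174
  k44 8 (.s k93 k12 12 (.d k125 k77 k190 3 8)))), (.s k20 k40 5 (.s k21 k22 0 (.s k150 k215 8 (.s
  k149 k213 7 (.s k212 k86 8 (.d k148 k151 k84 0 7))))))] (.c k53 (.q k58 [(.s k20 k40 5 (.s k150
  k215 8 (.s k125 k190 8 (.d k105 k65 k195 5 14)))), (.s k109 k158 12 (.s k174 k44 8 (.s k93 k12 12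
  (.d k125 k77 k190 3 8)))), (.s k20 k40 5 (.s k21 k22 0 (.s k150 k215 8 (.s k149 k213 7 (.s k212
  k86 8 (.d k148 k151 k84 0 7))))))] .n) (.c k58 (.q k53 [(.s k20 k40 5 (.s k150 k215 8 (.s k125
  k190 8 (.d k105 k65 k195 5 14)))), (.s k109 k158 12 (.s k174 k44 8 (.s k93 k12 12 (.d k125 k77
  k190 3 8)))), (.s k20 k40 5 (.s k21 k22 0 (.s k150 k215 8 (.s k149 k213 7 (.s k212 k86 8 (.d k148
  k151 k84 0 7))))))] .n) .n))) (.c k33 (.q k18 [(.s k20 k40 5 (.s k150 k215 8 (.s k125 k190 8 (.d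
  k105 k65 k195 5 14)))), (.s k109 k158 12 (.s k174 k44 8 (.s k93 k12 12 (.d k125 k77 k190 3 8)))),
  (.s k20 k40 5 (.s k21 k22 0 (.s k150 k215 8 (.s k149 k213 7 (.s k212 k86 8 (.d k148 k151 k84 0
  7))))))] (.c k53 (.q k58 [(.s k20 k40 5 (.s k150 k215 8 (.s k125 k190 8 (.d k105 k65 k195 5
  14)))), (.s k109 k158 12 (.s k174 k44 8 (.s k93 k12 12 (.d k125 k77 k190 3 8)))), (.s k20 k40 5
  (.s k21 k22 0 (.s k150 k215 8 (.s k149 k213 7 (.s k212 k86 8 (.d k148 k151 k84 0 7))))))] .n) (.c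
  k58 (.q k53 [(.s k20 k40 5 (.s k150 k215 8 (.s k125 k190 8 (.d k105 k65 k195 5 14)))), (.s k109
  k158 12 (.s k174 k44 8 (.s k93 k12 12 (.d k125 k77 k190 3 8)))), (.s k20 k40 5 (.s k21 k22 0 (.s
  k150 k215 8 (.s k149 k213 7 (.s k212 k86 8 (.d k148 k151 k84 0 7))))))] .n) .n))) (.c k53 (.q k58
  [(.s k20 k40 5 (.s k150 k215 8 (.s k125 k190 8 (.d k105 k65 k195 5 14)))), (.s k109 k158 12 (.s
  k174 k44 8 (.s k93 k12 12 (.d k125 k77 k190 3 8)))), (.s k20 k40 5 (.s k21 k22 0 (.s k150 k215 8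
  (.s k149 k213 7 (.s k212 k86 8 (.d k148 k151 k84 0 7))))))] (.c k18 (.q k33 [(.s k20 k40 5 (.s
  k150 k215 8 (.s k125 k190 8 (.d k105 k65 k195 5 14)))), (.s k109 k158 12 (.s k174 k44 8 (.s k93
  k12 12 (.d k125 k77 k190 3 8)))), (.s k20 k40 5 (.s k21 k22 0 (.s k150 k215 8 (.s k149 k213 7 (.s
  k212 k86 8 (.d k148 k151 k84 0 7))))))] .n) (.c k33 (.q k18 [(.s k20 k40 5 (.s k150 k215 8 (.s
  k125 k190 8 (.d k105 k65 k195 5 14)))), (.s k109 k158 12 (.s k174 k44 8 (.s k93 k12 12 (.d k125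
  k77 k190 3 8)))), (.s k20 k40 5 (.s k21 k22 0 (.s k150 k215 8 (.s k149 k213 7 (.s k212 k86 8 (.d
  k148 k151 k84 0 7))))))] .n) .n))) (.c k58 (.q k53 [(.s k20 k40 5 (.s k150 k215 8 (.s k125 k190 8
  (.d k105 k65 k195 5 14)))), (.s k109 k158 12 (.s k174 k44 8 (.s k93 k12 12 (.d k125 k77 k190 3
  8)))), (.s k20 k40 5 (.s k21 k22 0 (.s k150 k215 8 (.s k149 k213 7 (.s k212 k86 8 (.d k148 k151
  k84 0 7))))))] (.c k18 (.q k33 [(.s k20 k40 5 (.s k150 k215 8 (.s k125 k190 8 (.d k105 k65 k195 5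
  14)))), (.s k109 k158 12 (.s k174 k44 8 (.s k93 k12 12 (.d k125 k77 k190 3 8)))), (.s k20 k40 5
  (.s k21 k22 0 (.s k150 k215 8 (.s k149 k213 7 (.s k212 k86 8 (.d k148 k151 k84 0 7))))))] .n) (.c
  k33 (.q k18 [(.s k20 k40 5 (.s k150 k215 8 (.s k125 k190 8 (.d k105 k65 k195 5 14)))), (.s k109
  k158 12 (.s k174 k44 8 (.s k93 k12 12 (.d k125 k77 k190 3 8)))), (.s k20 k40 5 (.s k21 k22 0 (.s
  k150 k215 8 (.s k149 k213 7 (.s k212 k86 8 (.d k148 k151 k84 0 7))))))] .n) .n))) .n))))))) (.c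
  k69 (.q k60 [(.s k20 k40 5 (.s k150 k215 8 (.s k125 k190 8 (.d k105 k65 k195 5 14)))), (.s k109
  k158 12 (.s k125 k190 8 (.s k93 k77 3 (.s k174 k12 12 (.d k239 k223 k44 3 8))))), (.s k20 k40 5
  (.s k158 k109 12 (.s k223 k239 3 (.s k16 k154 10 (.d k28 k24 k93 1 8)))))] .n) (.c k101 (.q k60
  [(.s k20 k40 5 (.s k150 k215 8 (.s k125 k190 8 (.d k105 k65 k195 5 14)))), (.s k109 k158 12 (.s
  k239 k223 3 (.s k174 k44 8 (.s k93 k12 12 (.d k125 k77 k190 3 8))))), (.s k20 k40 5 (.s k150 k215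
  8 (.s k158 k109 12 (.s k154 k146 1 (.d k223 k239 k16 3 10)))))] (.c k32 (.l (.s k239 k223 3 (.s
  k20 k40 5 (.s k150 k215 8 (.s k105 k195 14 (.d k125 k65 k190 5 8)))))) (.c k239 (.q k32 [(.s k20
  k40 5 (.s k150 k215 8 (.s k125 k190 8 (.d k105 k65 k195 5 14)))), (.s k48 k16 3 (.s k40 k20 5 (.s
  k36 k44 1 (.s k24 k12 5 (.d k56 k52 k8 1 3))))), (.s k69 k138 10 (.s k109 k158 12 (.s k125 k190 8
  (.s k77 k93 3 (.d k65 k73 k105 1 5)))))] .n) .n))) (.c k117 (.q k60 [(.s k20 k40 5 (.s k150 k215 8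
  (.s k125 k190 8 (.d k105 k65 k195 5 14)))), (.s k109 k158 12 (.s k125 k190 8 (.s k93 k77 3 (.s
  k174 k12 12 (.d k239 k223 k44 3 8))))), (.s k20 k40 5 (.s k158 k109 12 (.s k223 k239 3 (.s k16
  k154 10 (.d k28 k24 k93 1 8)))))] .n) (.c k138 (.f k223 k239 3 (.f k154 k16 10 (.q k60 [(.s k20
  k40 5 (.s k150 k215 8 (.d k158 k146 k109 1 12))), (.s k101 k48 14 (.s k109 k158 12 (.s k125 k190 8
  (.d k105 k97 k65 1 5)))), (.s k20 k40 5 (.s k150 k215 8 (.s k105 k195 14 (.d k125 k65 k190 5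
  8))))] (.c k32 (.l (.s k101 k48 14 (.s k20 k40 5 (.s k150 k215 8 (.d k158 k146 k109 1 12))))) (.c
  k101 (.q k32 [(.s k20 k40 5 (.s k150 k215 8 (.d k158 k146 k109 1 12))), (.s k158 k109 12 (.s k93
  k28 8 (.s k174 k12 12 (.d k190 k142 k125 3 8)))), (.s k20 k40 5 (.s k150 k215 8 (.s k105 k195 14
  (.d k125 k65 k190 5 8))))] (.c k20 (.l (.s k158 k109 12 (.s k125 k190 8 (.s k105 k65 5 (.d k150
  k146 k195 1 14))))) (.c k105 (.l (.s k40 k20 5 (.s k44 k36 1 (.s k28 k12 3 (.d k158 k93 k109 8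
  12))))) .n))) (.c k105 (.l (.s k158 k109 12 (.s k150 k146 1 (.d k20 k40 k215 5 8)))) (.c k150 (.l
  (.s k101 k48 14 (.s k109 k158 12 (.s k105 k97 1 (.d k125 k65 k190 5 8))))) .n))))))) (.c k154 (.q
  k60 [(.s k20 k40 5 (.s k150 k215 8 (.s k125 k190 8 (.d k105 k65 k195 5 14)))), (.s k158 k109 12
  (.s k190 k125 8 (.s k174 k142 3 (.s k93 k12 12 (.d k223 k239 k28 3 8))))), (.s k20 k40 5 (.s k21
  k22 0 (.s k150 k215 8 (.s k149 k213 7 (.s k212 k86 8 (.d k148 k151 k84 0 7))))))] (.c k138 (.q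
  k186 [(.s k20 k40 5 (.s k150 k215 8 (.s k125 k190 8 (.d k105 k65 k195 5 14)))), (.s k48 k117 10
  (.s k56 k52 1 (.s k121 k251 8 (.s k182 k243 10 (.d k190 k178 k125 1 8))))), (.s k20 k40 5 (.s k21
  k22 0 (.s k150 k215 8 (.s k149 k213 7 (.s k212 k86 8 (.d k148 k151 k84 0 7))))))] .n) (.c k186 (.l
  (.s k138 k69 10 (.s k20 k40 5 (.s k150 k215 8 (.s k105 k195 14 (.d k125 k65 k190 5 8)))))) .n)))
  (.c k186 (.l (.s k223 k239 3 (.s k69 k138 10 (.s k154 k16 10 (.d k101 k117 k48 3 14))))) (.c k223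
  (.q k60 [(.s k20 k40 5 (.s k125 k190 8 (.s k105 k65 5 (.d k150 k215 k195 8 14)))), (.s k69 k138 10
  (.s k109 k158 12 (.s k101 k117 3 (.s k105 k97 1 (.d k125 k65 k190 5 8))))), (.s k69 k138 10 (.s
  k158 k109 12 (.s k101 k117 3 (.s k154 k48 14 (.s k150 k146 1 (.d k20 k40 k215 5 8))))))] .n) (.c
  k239 (.q k60 [(.s k20 k40 5 (.s k150 k215 8 (.s k125 k190 8 (.d k105 k65 k195 5 14)))), (.s k69
  k138 10 (.s k109 k158 12 (.s k101 k117 3 (.s k105 k97 1 (.d k125 k65 k190 5 8))))), (.s k69 k138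
  10 (.s k158 k109 12 (.s k101 k117 3 (.s k154 k48 14 (.s k150 k146 1 (.d k20 k40 k215 5 8))))))]
  (.c k32 (.q k101 [(.d k69 k117 k138 3 10), (.s k109 k158 12 (.s k125 k190 8 (.d k105 k97 k65 1
  5)))] .n) (.c k101 (.q k32 [(.s k20 k40 5 (.s k150 k215 8 (.s k125 k190 8 (.d k105 k65 k195 5
  14)))), (.s k48 k16 3 (.s k40 k20 5 (.s k36 k44 1 (.s k24 k12 5 (.d k56 k52 k8 1 3))))), (.s k69
  k138 10 (.s k109 k158 12 (.s k125 k190 8 (.s k77 k93 3 (.d k65 k73 k105 1 5)))))] .n) .n)))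
  .n))))))))))) (.c k48 (.f k138 k69 10 (.f k239 k223 3 (.q k60 [(.s k20 k40 5 (.s k150 k215 8 (.s
  k125 k190 8 (.d k105 k65 k195 5 14)))), (.s k109 k158 12 (.s k174 k44 8 (.s k93 k12 12 (.d k125
  k77 k190 3 8))))] (.c k18 (.q k33 [(.s k20 k40 5 (.s k150 k215 8 (.s k125 k190 8 (.d k105 k65 k195
  5 14)))), (.s k109 k158 12 (.s k174 k44 8 (.s k93 k12 12 (.d k125 k77 k190 3 8))))] (.c k23 (.q
  k43 [(.s k20 k40 5 (.s k125 k190 8 (.s k105 k65 5 (.d k150 k215 k195 8 14)))), (.s k109 k158 12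
  (.s k174 k44 8 (.s k93 k12 12 (.d k125 k77 k190 3 8)))), (.s k20 k40 5 (.s k215 k150 8 (.s k235
  k195 5 (.s k231 k227 1 (.s k247 k199 3 (.d k243 k251 k219 1 5))))))] (.c k53 (.q k58 [(.s k20 k40
  5 (.s k125 k190 8 (.s k105 k65 5 (.d k150 k215 k195 8 14)))), (.s k109 k158 12 (.s k174 k44 8 (.s
  k93 k12 12 (.d k125 k77 k190 3 8)))), (.s k20 k40 5 (.s k215 k150 8 (.s k235 k195 5 (.s k231 k227
  1 (.s k247 k199 3 (.d k243 k251 k219 1 5))))))] (.c k190 (.l (.s k20 k40 5 (.s k150 k215 8 (.s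
  k105 k195 14 (.s k109 k158 12 (.s k174 k44 8 (.s k93 k12 12 (.d k125 k77 k65 3 5)))))))) .n)) (.c
  k58 (.q k53 [(.s k20 k40 5 (.s k125 k190 8 (.s k105 k65 5 (.d k150 k215 k195 8 14)))), (.s k109
  k158 12 (.s k174 k44 8 (.s k93 k12 12 (.d k125 k77 k190 3 8)))), (.s k20 k40 5 (.s k215 k150 8 (.s
  k235 k195 5 (.s k231 k227 1 (.s k247 k199 3 (.d k243 k251 k219 1 5))))))] (.c k190 (.l (.s k20 k40
  5 (.s k150 k215 8 (.s k105 k195 14 (.s k109 k158 12 (.s k174 k44 8 (.s k93 k12 12 (.d k125 k77 k65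
  3 5)))))))) .n)) (.c k190 (.l (.s k20 k40 5 (.s k150 k215 8 (.s k105 k195 14 (.s k109 k158 12 (.s
  k174 k44 8 (.s k93 k12 12 (.d k125 k77 k65 3 5)))))))) .n)))) (.c k43 (.q k23 [(.s k20 k40 5 (.s
  k150 k215 8 (.s k125 k190 8 (.d k105 k65 k195 5 14)))), (.s k109 k158 12 (.s k174 k44 8 (.s k93
  k12 12 (.d k125 k77 k190 3 8)))), (.s k20 k40 5 (.s k21 k22 0 (.s k150 k215 8 (.s k149 k213 7 (.s
  k212 k86 8 (.d k148 k151 k84 0 7))))))] (.c k53 (.q k58 [(.s k20 k40 5 (.s k150 k215 8 (.s k125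
  k190 8 (.d k105 k65 k195 5 14)))), (.s k109 k158 12 (.s k174 k44 8 (.s k93 k12 12 (.d k125 k77
  k190 3 8)))), (.s k20 k40 5 (.s k21 k22 0 (.s k150 k215 8 (.s k149 k213 7 (.s k212 k86 8 (.d k148
  k151 k84 0 7))))))] .n) (.c k58 (.q k53 [(.s k20 k40 5 (.s k150 k215 8 (.s k125 k190 8 (.d k105
  k65 k195 5 14)))), (.s k109 k158 12 (.s k174 k44 8 (.s k93 k12 12 (.d k125 k77 k190 3 8)))), (.s
  k20 k40 5 (.s k21 k22 0 (.s k150 k215 8 (.s k149 k213 7 (.s k212 k86 8 (.d k148 k151 k84 0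
  7))))))] .n) .n))) (.c k53 (.q k58 [(.s k20 k40 5 (.s k150 k215 8 (.s k125 k190 8 (.d k105 k65
  k195 5 14)))), (.s k109 k158 12 (.s k174 k44 8 (.s k93 k12 12 (.d k125 k77 k190 3 8))))] (.c k23
  (.q k43 [(.s k20 k40 5 (.s k125 k190 8 (.s k105 k65 5 (.d k150 k215 k195 8 14)))), (.s k109 k158
  12 (.s k174 k44 8 (.s k93 k12 12 (.d k125 k77 k190 3 8)))), (.s k20 k40 5 (.s k215 k150 8 (.s k235
  k195 5 (.s k231 k227 1 (.s k247 k199 3 (.d k243 k251 k219 1 5))))))] (.c k190 (.l (.s k20 k40 5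
  (.s k150 k215 8 (.s k105 k195 14 (.s k109 k158 12 (.s k174 k44 8 (.s k93 k12 12 (.d k125 k77 k65 3
  5)))))))) .n)) (.c k43 (.q k23 [(.s k20 k40 5 (.s k150 k215 8 (.s k125 k190 8 (.d k105 k65 k195 5
  14)))), (.s k109 k158 12 (.s k174 k44 8 (.s k93 k12 12 (.d k125 k77 k190 3 8)))), (.s k20 k40 5
  (.s k21 k22 0 (.s k150 k215 8 (.s k149 k213 7 (.s k212 k86 8 (.d k148 k151 k84 0 7))))))] .n) (.c
  k125 (.l (.s k20 k40 5 (.s k215 k150 8 (.s k235 k195 5 (.s k231 k227 1 (.s k247 k199 3 (.d k243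
  k251 k219 1 5))))))) (.c k190 (.l (.s k20 k40 5 (.s k150 k215 8 (.s k105 k195 14 (.s k109 k158 12
  (.s k174 k44 8 (.s k93 k12 12 (.d k125 k77 k65 3 5)))))))) .n))))) (.c k58 (.q k53 [(.s k20 k40 5
  (.s k150 k215 8 (.s k125 k190 8 (.d k105 k65 k195 5 14)))), (.s k109 k158 12 (.s k174 k44 8 (.s
  k93 k12 12 (.d k125 k77 k190 3 8))))] (.c k23 (.q k43 [(.s k20 k40 5 (.s k125 k190 8 (.s k105 k65
  5 (.d k150 k215 k195 8 14)))), (.s k109 k158 12 (.s k174 k44 8 (.s k93 k12 12 (.d k125 k77 k190 3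
  8)))), (.s k20 k40 5 (.s k215 k150 8 (.s k235 k195 5 (.s k231 k227 1 (.s k247 k199 3 (.d k243 k251
  k219 1 5))))))] (.c k190 (.l (.s k20 k40 5 (.s k150 k215 8 (.s k105 k195 14 (.s k109 k158 12 (.s
  k174 k44 8 (.s k93 k12 12 (.d k125 k77 k65 3 5)))))))) .n)) (.c k43 (.q k23 [(.s k20 k40 5 (.s
  k150 k215 8 (.s k125 k190 8 (.d k105 k65 k195 5 14)))), (.s k109 k158 12 (.s k174 k44 8 (.s k93
  k12 12 (.d k125 k77 k190 3 8)))), (.s k20 k40 5 (.s k21 k22 0 (.s k150 k215 8 (.s k149 k213 7 (.s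
  k212 k86 8 (.d k148 k151 k84 0 7))))))] .n) (.c k125 (.l (.s k20 k40 5 (.s k215 k150 8 (.s k235
  k195 5 (.s k231 k227 1 (.s k247 k199 3 (.d k243 k251 k219 1 5))))))) (.c k190 (.l (.s k20 k40 5
  (.s k150 k215 8 (.s k105 k195 14 (.s k109 k158 12 (.s k174 k44 8 (.s k93 k12 12 (.d k125 k77 k65 3
  5)))))))) .n))))) (.c k125 (.l (.s k20 k40 5 (.s k215 k150 8 (.s k235 k195 5 (.s k231 k227 1 (.s
  k247 k199 3 (.d k243 k251 k219 1 5))))))) (.c k190 (.l (.s k20 k40 5 (.s k150 k215 8 (.s k105 k195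
  14 (.s k109 k158 12 (.s k174 k44 8 (.s k93 k12 12 (.d k125 k77 k65 3 5)))))))) .n))))))) (.c k23
  (.q k43 [(.s k20 k40 5 (.s k125 k190 8 (.s k105 k65 5 (.d k150 k215 k195 8 14)))), (.s k109 k158
  12 (.s k174 k44 8 (.s k93 k12 12 (.d k125 k77 k190 3 8)))), (.s k20 k40 5 (.s k215 k150 8 (.s k235
  k195 5 (.s k231 k227 1 (.s k247 k199 3 (.d k243 k251 k219 1 5))))))] (.c k18 (.q k33 [(.s k20 k40
  5 (.s k125 k190 8 (.s k105 k65 5 (.d k150 k215 k195 8 14)))), (.s k109 k158 12 (.s k174 k44 8 (.s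
  k93 k12 12 (.d k125 k77 k190 3 8)))), (.s k20 k40 5 (.s k215 k150 8 (.s k235 k195 5 (.s k231 k227
  1 (.s k247 k199 3 (.d k243 k251 k219 1 5))))))] (.c k53 (.q k58 [(.s k20 k40 5 (.s k125 k190 8 (.s
  k105 k65 5 (.d k150 k215 k195 8 14)))), (.s k109 k158 12 (.s k174 k44 8 (.s k93 k12 12 (.d k125
  k77 k190 3 8)))), (.s k20 k40 5 (.s k215 k150 8 (.s k235 k195 5 (.s k231 k227 1 (.s k247 k199 3
  (.d k243 k251 k219 1 5))))))] (.c k190 (.l (.s k20 k40 5 (.s k150 k215 8 (.s k105 k195 14 (.s k109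
  k158 12 (.s k174 k44 8 (.s k93 k12 12 (.d k125 k77 k65 3 5)))))))) .n)) (.c k58 (.q k53 [(.s k20
  k40 5 (.s k125 k190 8 (.s k105 k65 5 (.d k150 k215 k195 8 14)))), (.s k109 k158 12 (.s k174 k44 8
  (.s k93 k12 12 (.d k125 k77 k190 3 8)))), (.s k20 k40 5 (.s k215 k150 8 (.s k235 k195 5 (.s k231
  k227 1 (.s k247 k199 3 (.d k243 k251 k219 1 5))))))] (.c k190 (.l (.s k20 k40 5 (.s k150 k215 8
  (.s k105 k195 14 (.s k109 k158 12 (.s k174 k44 8 (.s k93 k12 12 (.d k125 k77 k65 3 5)))))))) .n))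
  (.c k190 (.l (.s k20 k40 5 (.s k150 k215 8 (.s k105 k195 14 (.s k109 k158 12 (.s k174 k44 8 (.s
  k93 k12 12 (.d k125 k77 k65 3 5)))))))) .n)))) (.c k33 (.q k18 [(.s k20 k40 5 (.s k125 k190 8 (.s
  k105 k65 5 (.d k150 k215 k195 8 14)))), (.s k109 k158 12 (.s k174 k44 8 (.s k93 k12 12 (.d k125
  k77 k190 3 8)))), (.s k20 k40 5 (.s k215 k150 8 (.s k235 k195 5 (.s k231 k227 1 (.s k247 k199 3
  (.d k243 k251 k219 1 5))))))] (.c k53 (.q k58 [(.s k20 k40 5 (.s k125 k190 8 (.s k105 k65 5 (.d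
  k150 k215 k195 8 14)))), (.s k109 k158 12 (.s k174 k44 8 (.s k93 k12 12 (.d k125 k77 k190 3 8)))),
  (.s k20 k40 5 (.s k215 k150 8 (.s k235 k195 5 (.s k231 k227 1 (.s k247 k199 3 (.d k243 k251 k219 1
  5))))))] (.c k190 (.l (.s k20 k40 5 (.s k150 k215 8 (.s k105 k195 14 (.s k109 k158 12 (.s k174 k44
  8 (.s k93 k12 12 (.d k125 k77 k65 3 5)))))))) .n)) (.c k58 (.q k53 [(.s k20 k40 5 (.s k125 k190 8
  (.s k105 k65 5 (.d k150 k215 k195 8 14)))), (.s k109 k158 12 (.s k174 k44 8 (.s k93 k12 12 (.d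
  k125 k77 k190 3 8)))), (.s k20 k40 5 (.s k215 k150 8 (.s k235 k195 5 (.s k231 k227 1 (.s k247 k199
  3 (.d k243 k251 k219 1 5))))))] (.c k190 (.l (.s k20 k40 5 (.s k150 k215 8 (.s k105 k195 14 (.s
  k109 k158 12 (.s k174 k44 8 (.s k93 k12 12 (.d k125 k77 k65 3 5)))))))) .n)) (.c k190 (.l (.s k20
  k40 5 (.s k150 k215 8 (.s k105 k195 14 (.s k109 k158 12 (.s k174 k44 8 (.s k93 k12 12 (.d k125 k77
  k65 3 5)))))))) .n)))) (.c k53 (.q k58 [(.s k20 k40 5 (.s k125 k190 8 (.s k105 k65 5 (.d k150 k215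
  k195 8 14)))), (.s k109 k158 12 (.s k174 k44 8 (.s k93 k12 12 (.d k125 k77 k190 3 8)))), (.s k20
  k40 5 (.s k215 k150 8 (.s k235 k195 5 (.s k231 k227 1 (.s k247 k199 3 (.d k243 k251 k219 1
  5))))))] (.c k18 (.q k33 [(.s k20 k40 5 (.s k125 k190 8 (.s k105 k65 5 (.d k150 k215 k195 8
  14)))), (.s k109 k158 12 (.s k174 k44 8 (.s k93 k12 12 (.d k125 k77 k190 3 8)))), (.s k20 k40 5
  (.s k215 k150 8 (.s k235 k195 5 (.s k231 k227 1 (.s k247 k199 3 (.d k243 k251 k219 1 5))))))] (.c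
  k190 (.l (.s k20 k40 5 (.s k150 k215 8 (.s k105 k195 14 (.s k109 k158 12 (.s k174 k44 8 (.s k93
  k12 12 (.d k125 k77 k65 3 5)))))))) .n)) (.c k33 (.q k18 [(.s k20 k40 5 (.s k125 k190 8 (.s k105
  k65 5 (.d k150 k215 k195 8 14)))), (.s k109 k158 12 (.s k174 k44 8 (.s k93 k12 12 (.d k125 k77
  k190 3 8)))), (.s k20 k40 5 (.s k215 k150 8 (.s k235 k195 5 (.s k231 k227 1 (.s k247 k199 3 (.d
  k243 k251 k219 1 5))))))] (.c k190 (.l (.s k20 k40 5 (.s k150 k215 8 (.s k105 k195 14 (.s k109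
  k158 12 (.s k174 k44 8 (.s k93 k12 12 (.d k125 k77 k65 3 5)))))))) .n)) (.c k190 (.l (.s k20 k40 5
  (.s k150 k215 8 (.s k105 k195 14 (.s k109 k158 12 (.s k174 k44 8 (.s k93 k12 12 (.d k125 k77 k65 3
  5)))))))) .n)))) (.c k58 (.q k53 [(.s k20 k40 5 (.s k125 k190 8 (.s k105 k65 5 (.d k150 k215 k195
  8 14)))), (.s k109 k158 12 (.s k174 k44 8 (.s k93 k12 12 (.d k125 k77 k190 3 8)))), (.s k20 k40 5
  (.s k215 k150 8 (.s k235 k195 5 (.s k231 k227 1 (.s k247 k199 3 (.d k243 k251 k219 1 5))))))] (.c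
  k18 (.q k33 [(.s k20 k40 5 (.s k125 k190 8 (.s k105 k65 5 (.d k150 k215 k195 8 14)))), (.s k109
  k158 12 (.s k174 k44 8 (.s k93 k12 12 (.d k125 k77 k190 3 8)))), (.s k20 k40 5 (.s k215 k150 8 (.s
  k235 k195 5 (.s k231 k227 1 (.s k247 k199 3 (.d k243 k251 k219 1 5))))))] (.c k190 (.l (.s k20 k40
  5 (.s k150 k215 8 (.s k105 k195 14 (.s k109 k158 12 (.s k174 k44 8 (.s k93 k12 12 (.d k125 k77 k65
  3 5)))))))) .n)) (.c k33 (.q k18 [(.s k20 k40 5 (.s k125 k190 8 (.s k105 k65 5 (.d k150 k215 k195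
  8 14)))), (.s k109 k158 12 (.s k174 k44 8 (.s k93 k12 12 (.d k125 k77 k190 3 8)))), (.s k20 k40 5
  (.s k215 k150 8 (.s k235 k195 5 (.s k231 k227 1 (.s k247 k199 3 (.d k243 k251 k219 1 5))))))] (.c
  k190 (.l (.s k20 k40 5 (.s k150 k215 8 (.s k105 k195 14 (.s k109 k158 12 (.s k174 k44 8 (.s k93
  k12 12 (.d k125 k77 k65 3 5)))))))) .n)) (.c k190 (.l (.s k20 k40 5 (.s k150 k215 8 (.s k105 k195
  14 (.s k109 k158 12 (.s k174 k44 8 (.s k93 k12 12 (.d k125 k77 k65 3 5)))))))) .n)))) (.c k190 (.l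
  (.s k20 k40 5 (.s k150 k215 8 (.s k105 k195 14 (.s k109 k158 12 (.s k174 k44 8 (.s k93 k12 12 (.d
  k125 k77 k65 3 5)))))))) .n)))))) (.c k33 (.q k18 [(.s k20 k40 5 (.s k150 k215 8 (.s k125 k190 8
  (.d k105 k65 k195 5 14)))), (.s k109 k158 12 (.s k174 k44 8 (.s k93 k12 12 (.d k125 k77 k190 3
  8))))] (.c k23 (.q k43 [(.s k20 k40 5 (.s k125 k190 8 (.s k105 k65 5 (.d k150 k215 k195 8 14)))),
  (.s k109 k158 12 (.s k174 k44 8 (.s k93 k12 12 (.d k125 k77 k190 3 8)))), (.s k20 k40 5 (.s k215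
  k150 8 (.s k235 k195 5 (.s k231 k227 1 (.s k247 k199 3 (.d k243 k251 k219 1 5))))))] (.c k53 (.q
  k58 [(.s k20 k40 5 (.s k125 k190 8 (.s k105 k65 5 (.d k150 k215 k195 8 14)))), (.s k109 k158 12
  (.s k174 k44 8 (.s k93 k12 12 (.d k125 k77 k190 3 8)))), (.s k20 k40 5 (.s k215 k150 8 (.s k235
  k195 5 (.s k231 k227 1 (.s k247 k199 3 (.d k243 k251 k219 1 5))))))] (.c k190 (.l (.s k20 k40 5
  (.s k150 k215 8 (.s k105 k195 14 (.s k109 k158 12 (.s k174 k44 8 (.s k93 k12 12 (.d k125 k77 k65 3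
  5)))))))) .n)) (.c k58 (.q k53 [(.s k20 k40 5 (.s k125 k190 8 (.s k105 k65 5 (.d k150 k215 k195 8
  14)))), (.s k109 k158 12 (.s k174 k44 8 (.s k93 k12 12 (.d k125 k77 k190 3 8)))), (.s k20 k40 5
  (.s k215 k150 8 (.s k235 k195 5 (.s k231 k227 1 (.s k247 k199 3 (.d k243 k251 k219 1 5))))))] (.c
  k190 (.l (.s k20 k40 5 (.s k150 k215 8 (.s k105 k195 14 (.s k109 k158 12 (.s k174 k44 8 (.s k93
  k12 12 (.d k125 k77 k65 3 5)))))))) .n)) (.c k190 (.l (.s k20 k40 5 (.s k150 k215 8 (.s k105 k195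
  14 (.s k109 k158 12 (.s k174 k44 8 (.s k93 k12 12 (.d k125 k77 k65 3 5)))))))) .n)))) (.c k43 (.q
  k23 [(.s k20 k40 5 (.s k150 k215 8 (.s k125 k190 8 (.d k105 k65 k195 5 14)))), (.s k109 k158 12
  (.s k174 k44 8 (.s k93 k12 12 (.d k125 k77 k190 3 8)))), (.s k20 k40 5 (.s k21 k22 0 (.s k150 k215
  8 (.s k149 k213 7 (.s k212 k86 8 (.d k148 k151 k84 0 7))))))] (.c k53 (.q k58 [(.s k20 k40 5 (.s
  k150 k215 8 (.s k125 k190 8 (.d k105 k65 k195 5 14)))), (.s k109 k158 12 (.s k174 k44 8 (.s k93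
  k12 12 (.d k125 k77 k190 3 8)))), (.s k20 k40 5 (.s k21 k22 0 (.s k150 k215 8 (.s k149 k213 7 (.s
  k212 k86 8 (.d k148 k151 k84 0 7))))))] .n) (.c k58 (.q k53 [(.s k20 k40 5 (.s k150 k215 8 (.s
  k125 k190 8 (.d k105 k65 k195 5 14)))), (.s k109 k158 12 (.s k174 k44 8 (.s k93 k12 12 (.d k125
  k77 k190 3 8)))), (.s k20 k40 5 (.s k21 k22 0 (.s k150 k215 8 (.s k149 k213 7 (.s k212 k86 8 (.d
  k148 k151 k84 0 7))))))] .n) .n))) (.c k53 (.q k58 [(.s k20 k40 5 (.s k150 k215 8 (.s k125 k190 8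
  (.d k105 k65 k195 5 14)))), (.s k109 k158 12 (.s k174 k44 8 (.s k93 k12 12 (.d k125 k77 k190 3
  8))))] (.c k23 (.q k43 [(.s k20 k40 5 (.s k125 k190 8 (.s k105 k65 5 (.d k150 k215 k195 8 14)))),
  (.s k109 k158 12 (.s k174 k44 8 (.s k93 k12 12 (.d k125 k77 k190 3 8)))), (.s k20 k40 5 (.s k215
  k150 8 (.s k235 k195 5 (.s k231 k227 1 (.s k247 k199 3 (.d k243 k251 k219 1 5))))))] (.c k190 (.l
  (.s k20 k40 5 (.s k150 k215 8 (.s k105 k195 14 (.s k109 k158 12 (.s k174 k44 8 (.s k93 k12 12 (.d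
  k125 k77 k65 3 5)))))))) .n)) (.c k43 (.q k23 [(.s k20 k40 5 (.s k150 k215 8 (.s k125 k190 8 (.d
  k105 k65 k195 5 14)))), (.s k109 k158 12 (.s k174 k44 8 (.s k93 k12 12 (.d k125 k77 k190 3 8)))),
  (.s k20 k40 5 (.s k21 k22 0 (.s k150 k215 8 (.s k149 k213 7 (.s k212 k86 8 (.d k148 k151 k84 0
  7))))))] .n) (.c k125 (.l (.s k20 k40 5 (.s k215 k150 8 (.s k235 k195 5 (.s k231 k227 1 (.s k247
  k199 3 (.d k243 k251 k219 1 5))))))) (.c k190 (.l (.s k20 k40 5 (.s k150 k215 8 (.s k105 k195 14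
  (.s k109 k158 12 (.s k174 k44 8 (.s k93 k12 12 (.d k125 k77 k65 3 5)))))))) .n))))) (.c k58 (.q
  k53 [(.s k20 k40 5 (.s k150 k215 8 (.s k125 k190 8 (.d k105 k65 k195 5 14)))), (.s k109 k158 12
  (.s k174 k44 8 (.s k93 k12 12 (.d k125 k77 k190 3 8))))] (.c k23 (.q k43 [(.s k20 k40 5 (.s k125
  k190 8 (.s k105 k65 5 (.d k150 k215 k195 8 14)))), (.s k109 k158 12 (.s k174 k44 8 (.s k93 k12 12
  (.d k125 k77 k190 3 8)))), (.s k20 k40 5 (.s k215 k150 8 (.s k235 k195 5 (.s k231 k227 1 (.s k247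
  k199 3 (.d k243 k251 k219 1 5))))))] (.c k190 (.l (.s k20 k40 5 (.s k150 k215 8 (.s k105 k195 14
  (.s k109 k158 12 (.s k174 k44 8 (.s k93 k12 12 (.d k125 k77 k65 3 5)))))))) .n)) (.c k43 (.q k23
  [(.s k20 k40 5 (.s k150 k215 8 (.s k125 k190 8 (.d k105 k65 k195 5 14)))), (.s k109 k158 12 (.s
  k174 k44 8 (.s k93 k12 12 (.d k125 k77 k190 3 8)))), (.s k20 k40 5 (.s k21 k22 0 (.s k150 k215 8
  (.s k149 k213 7 (.s k212 k86 8 (.d k148 k151 k84 0 7))))))] .n) (.c k125 (.l (.s k20 k40 5 (.s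
  k215 k150 8 (.s k235 k195 5 (.s k231 k227 1 (.s k247 k199 3 (.d k243 k251 k219 1 5))))))) (.c k190
  (.l (.s k20 k40 5 (.s k150 k215 8 (.s k105 k195 14 (.s k109 k158 12 (.s k174 k44 8 (.s k93 k12 12
  (.d k125 k77 k65 3 5)))))))) .n))))) (.c k125 (.l (.s k20 k40 5 (.s k215 k150 8 (.s k235 k195 5
  (.s k231 k227 1 (.s k247 k199 3 (.d k243 k251 k219 1 5))))))) (.c k190 (.l (.s k20 k40 5 (.s k150
  k215 8 (.s k105 k195 14 (.s k109 k158 12 (.s k174 k44 8 (.s k93 k12 12 (.d k125 k77 k65 3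
  5)))))))) .n))))))) (.c k43 (.q k23 [(.s k20 k40 5 (.s k150 k215 8 (.s k125 k190 8 (.d k105 k65
  k195 5 14)))), (.s k109 k158 12 (.s k174 k44 8 (.s k93 k12 12 (.d k125 k77 k190 3 8)))), (.s k20
  k40 5 (.s k21 k22 0 (.s k150 k215 8 (.s k149 k213 7 (.s k212 k86 8 (.d k148 k151 k84 0 7))))))]
  (.c k18 (.q k33 [(.s k20 k40 5 (.s k150 k215 8 (.s k125 k190 8 (.d k105 k65 k195 5 14)))), (.s
  k109 k158 12 (.s k174 k44 8 (.s k93 k12 12 (.d k125 k77 k190 3 8)))), (.s k20 k40 5 (.s k21 k22 0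
  (.s k150 k215 8 (.s k149 k213 7 (.s k212 k86 8 (.d k148 k151 k84 0 7))))))] (.c k53 (.q k58 [(.s
  k20 k40 5 (.s k150 k215 8 (.s k125 k190 8 (.d k105 k65 k195 5 14)))), (.s k109 k158 12 (.s k174
  k44 8 (.s k93 k12 12 (.d k125 k77 k190 3 8)))), (.s k20 k40 5 (.s k21 k22 0 (.s k150 k215 8 (.s
  k149 k213 7 (.s k212 k86 8 (.d k148 k151 k84 0 7))))))] .n) (.c k58 (.q k53 [(.s k20 k40 5 (.s
  k150 k215 8 (.s k125 k190 8 (.d k105 k65 k195 5 14)))), (.s k109 k158 12 (.s k174 k44 8 (.s k93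
  k12 12 (.d k125 k77 k190 3 8)))), (.s k20 k40 5 (.s k21 k22 0 (.s k150 k215 8 (.s k149 k213 7 (.s
  k212 k86 8 (.d k148 k151 k84 0 7))))))] .n) .n))) (.c k33 (.q k18 [(.s k20 k40 5 (.s k150 k215 8
  (.s k125 k190 8 (.d k105 k65 k195 5 14)))), (.s k109 k158 12 (.s k174 k44 8 (.s k93 k12 12 (.d
  k125 k77 k190 3 8)))), (.s k20 k40 5 (.s k21 k22 0 (.s k150 k215 8 (.s k149 k213 7 (.s k212 k86 8
  (.d k148 k151 k84 0 7))))))] (.c k53 (.q k58 [(.s k20 k40 5 (.s k150 k215 8 (.s k125 k190 8 (.d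
  k105 k65 k195 5 14)))), (.s k109 k158 12 (.s k174 k44 8 (.s k93 k12 12 (.d k125 k77 k190 3 8)))),
  (.s k20 k40 5 (.s k21 k22 0 (.s k150 k215 8 (.s k149 k213 7 (.s k212 k86 8 (.d k148 k151 k84 0
  7))))))] .n) (.c k58 (.q k53 [(.s k20 k40 5 (.s k150 k215 8 (.s k125 k190 8 (.d k105 k65 k195 5
  14)))), (.s k109 k158 12 (.s k174 k44 8 (.s k93 k12 12 (.d k125 k77 k190 3 8)))), (.s k20 k40 5
  (.s k21 k22 0 (.s k150 k215 8 (.s k149 k213 7 (.s k212 k86 8 (.d k148 k151 k84 0 7))))))] .n)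
  .n))) (.c k53 (.q k58 [(.s k20 k40 5 (.s k150 k215 8 (.s k125 k190 8 (.d k105 k65 k195 5 14)))),
  (.s k109 k158 12 (.s k174 k44 8 (.s k93 k12 12 (.d k125 k77 k190 3 8)))), (.s k20 k40 5 (.s k21
  k22 0 (.s k150 k215 8 (.s k149 k213 7 (.s k212 k86 8 (.d k148 k151 k84 0 7))))))] (.c k18 (.q k33
  [(.s k20 k40 5 (.s k150 k215 8 (.s k125 k190 8 (.d k105 k65 k195 5 14)))), (.s k109 k158 12 (.s
  k174 k44 8 (.s k93 k12 12 (.d k125 k77 k190 3 8)))), (.s k20 k40 5 (.s k21 k22 0 (.s k150 k215 8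
  (.s k149 k213 7 (.s k212 k86 8 (.d k148 k151 k84 0 7))))))] .n) (.c k33 (.q k18 [(.s k20 k40 5 (.s
  k150 k215 8 (.s k125 k190 8 (.d k105 k65 k195 5 14)))), (.s k109 k158 12 (.s k174 k44 8 (.s k93
  k12 12 (.d k125 k77 k190 3 8)))), (.s k20 k40 5 (.s k21 k22 0 (.s k150 k215 8 (.s k149 k213 7 (.s
  k212 k86 8 (.d k148 k151 k84 0 7))))))] .n) .n))) (.c k58 (.q k53 [(.s k20 k40 5 (.s k150 k215 8
  (.s k125 k190 8 (.d k105 k65 k195 5 14)))), (.s k109 k158 12 (.s k174 k44 8 (.s k93 k12 12 (.d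
  k125 k77 k190 3 8)))), (.s k20 k40 5 (.s k21 k22 0 (.s k150 k215 8 (.s k149 k213 7 (.s k212 k86 8
  (.d k148 k151 k84 0 7))))))] (.c k18 (.q k33 [(.s k20 k40 5 (.s k150 k215 8 (.s k125 k190 8 (.d
  k105 k65 k195 5 14)))), (.s k109 k158 12 (.s k174 k44 8 (.s k93 k12 12 (.d k125 k77 k190 3 8)))),
  (.s k20 k40 5 (.s k21 k22 0 (.s k150 k215 8 (.s k149 k213 7 (.s k212 k86 8 (.d k148 k151 k84 0
  7))))))] .n) (.c k33 (.q k18 [(.s k20 k40 5 (.s k150 k215 8 (.s k125 k190 8 (.d k105 k65 k195 5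
  14)))), (.s k109 k158 12 (.s k174 k44 8 (.s k93 k12 12 (.d k125 k77 k190 3 8)))), (.s k20 k40 5
  (.s k21 k22 0 (.s k150 k215 8 (.s k149 k213 7 (.s k212 k86 8 (.d k148 k151 k84 0 7))))))] .n)
  .n))) .n))))) (.c k53 (.q k58 [(.s k20 k40 5 (.s k150 k215 8 (.s k125 k190 8 (.d k105 k65 k195 5
  14)))), (.s k109 k158 12 (.s k174 k44 8 (.s k93 k12 12 (.d k125 k77 k190 3 8))))] (.c k18 (.q k33
  [(.s k20 k40 5 (.s k150 k215 8 (.s k125 k190 8 (.d k105 k65 k195 5 14)))), (.s k109 k158 12 (.s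
  k174 k44 8 (.s k93 k12 12 (.d k125 k77 k190 3 8))))] (.c k23 (.q k43 [(.s k20 k40 5 (.s k125 k190
  8 (.s k105 k65 5 (.d k150 k215 k195 8 14)))), (.s k109 k158 12 (.s k174 k44 8 (.s k93 k12 12 (.d
  k125 k77 k190 3 8)))), (.s k20 k40 5 (.s k215 k150 8 (.s k235 k195 5 (.s k231 k227 1 (.s k247 k199
  3 (.d k243 k251 k219 1 5))))))] (.c k190 (.l (.s k20 k40 5 (.s k150 k215 8 (.s k105 k195 14 (.s
  k109 k158 12 (.s k174 k44 8 (.s k93 k12 12 (.d k125 k77 k65 3 5)))))))) .n)) (.c k43 (.q k23 [(.s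
  k20 k40 5 (.s k150 k215 8 (.s k125 k190 8 (.d k105 k65 k195 5 14)))), (.s k109 k158 12 (.s k174
  k44 8 (.s k93 k12 12 (.d k125 k77 k190 3 8)))), (.s k20 k40 5 (.s k21 k22 0 (.s k150 k215 8 (.s
  k149 k213 7 (.s k212 k86 8 (.d k148 k151 k84 0 7))))))] .n) (.c k125 (.l (.s k20 k40 5 (.s k215
  k150 8 (.s k235 k195 5 (.s k231 k227 1 (.s k247 k199 3 (.d k243 k251 k219 1 5))))))) (.c k190 (.l
  (.s k20 k40 5 (.s k150 k215 8 (.s k105 k195 14 (.s k109 k158 12 (.s k174 k44 8 (.s k93 k12 12 (.d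
  k125 k77 k65 3 5)))))))) .n))))) (.c k23 (.q k43 [(.s k20 k40 5 (.s k125 k190 8 (.s k105 k65 5 (.d
  k150 k215 k195 8 14)))), (.s k109 k158 12 (.s k174 k44 8 (.s k93 k12 12 (.d k125 k77 k190 3 8)))),
  (.s k20 k40 5 (.s k215 k150 8 (.s k235 k195 5 (.s k231 k227 1 (.s k247 k199 3 (.d k243 k251 k219 1
  5))))))] (.c k18 (.q k33 [(.s k20 k40 5 (.s k125 k190 8 (.s k105 k65 5 (.d k150 k215 k195 8
  14)))), (.s k109 k158 12 (.s k174 k44 8 (.s k93 k12 12 (.d k125 k77 k190 3 8)))), (.s k20 k40 5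
  (.s k215 k150 8 (.s k235 k195 5 (.s k231 k227 1 (.s k247 k199 3 (.d k243 k251 k219 1 5))))))] (.c
  k190 (.l (.s k20 k40 5 (.s k150 k215 8 (.s k105 k195 14 (.s k109 k158 12 (.s k174 k44 8 (.s k93
  k12 12 (.d k125 k77 k65 3 5)))))))) .n)) (.c k33 (.q k18 [(.s k20 k40 5 (.s k125 k190 8 (.s k105
  k65 5 (.d k150 k215 k195 8 14)))), (.s k109 k158 12 (.s k174 k44 8 (.s k93 k12 12 (.d k125 k77
  k190 3 8)))), (.s k20 k40 5 (.s k215 k150 8 (.s k235 k195 5 (.s k231 k227 1 (.s k247 k199 3 (.d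
  k243 k251 k219 1 5))))))] (.c k190 (.l (.s k20 k40 5 (.s k150 k215 8 (.s k105 k195 14 (.s k109
  k158 12 (.s k174 k44 8 (.s k93 k12 12 (.d k125 k77 k65 3 5)))))))) .n)) (.c k190 (.l (.s k20 k40 5
  (.s k150 k215 8 (.s k105 k195 14 (.s k109 k158 12 (.s k174 k44 8 (.s k93 k12 12 (.d k125 k77 k65 3
  5)))))))) .n)))) (.c k33 (.q k18 [(.s k20 k40 5 (.s k150 k215 8 (.s k125 k190 8 (.d k105 k65 k195
  5 14)))), (.s k109 k158 12 (.s k174 k44 8 (.s k93 k12 12 (.d k125 k77 k190 3 8))))] (.c k23 (.q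
  k43 [(.s k20 k40 5 (.s k125 k190 8 (.s k105 k65 5 (.d k150 k215 k195 8 14)))), (.s k109 k158 12
  (.s k174 k44 8 (.s k93 k12 12 (.d k125 k77 k190 3 8)))), (.s k20 k40 5 (.s k215 k150 8 (.s k235
  k195 5 (.s k231 k227 1 (.s k247 k199 3 (.d k243 k251 k219 1 5))))))] (.c k190 (.l (.s k20 k40 5
  (.s k150 k215 8 (.s k105 k195 14 (.s k109 k158 12 (.s k174 k44 8 (.s k93 k12 12 (.d k125 k77 k65 3
  5)))))))) .n)) (.c k43 (.q k23 [(.s k20 k40 5 (.s k150 k215 8 (.s k125 k190 8 (.d k105 k65 k195 5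
  14)))), (.s k109 k158 12 (.s k174 k44 8 (.s k93 k12 12 (.d k125 k77 k190 3 8)))), (.s k20 k40 5
  (.s k21 k22 0 (.s k150 k215 8 (.s k149 k213 7 (.s k212 k86 8 (.d k148 k151 k84 0 7))))))] .n) (.c
  k125 (.l (.s k20 k40 5 (.s k215 k150 8 (.s k235 k195 5 (.s k231 k227 1 (.s k247 k199 3 (.d k243
  k251 k219 1 5))))))) (.c k190 (.l (.s k20 k40 5 (.s k150 k215 8 (.s k105 k195 14 (.s k109 k158 12
  (.s k174 k44 8 (.s k93 k12 12 (.d k125 k77 k65 3 5)))))))) .n))))) (.c k43 (.q k23 [(.s k20 k40 5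
  (.s k150 k215 8 (.s k125 k190 8 (.d k105 k65 k195 5 14)))), (.s k109 k158 12 (.s k174 k44 8 (.s
  k93 k12 12 (.d k125 k77 k190 3 8)))), (.s k20 k40 5 (.s k21 k22 0 (.s k150 k215 8 (.s k149 k213 7
  (.s k212 k86 8 (.d k148 k151 k84 0 7))))))] (.c k18 (.q k33 [(.s k20 k40 5 (.s k150 k215 8 (.s
  k125 k190 8 (.d k105 k65 k195 5 14)))), (.s k109 k158 12 (.s k174 k44 8 (.s k93 k12 12 (.d k125
  k77 k190 3 8)))), (.s k20 k40 5 (.s k21 k22 0 (.s k150 k215 8 (.s k149 k213 7 (.s k212 k86 8 (.d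
  k148 k151 k84 0 7))))))] .n) (.c k33 (.q k18 [(.s k20 k40 5 (.s k150 k215 8 (.s k125 k190 8 (.d
  k105 k65 k195 5 14)))), (.s k109 k158 12 (.s k174 k44 8 (.s k93 k12 12 (.d k125 k77 k190 3 8)))),
  (.s k20 k40 5 (.s k21 k22 0 (.s k150 k215 8 (.s k149 k213 7 (.s k212 k86 8 (.d k148 k151 k84 0
  7))))))] .n) .n))) (.c k125 (.l (.s k20 k40 5 (.s k215 k150 8 (.s k235 k195 5 (.s k231 k227 1 (.s
  k247 k199 3 (.d k243 k251 k219 1 5))))))) (.c k190 (.l (.s k20 k40 5 (.s k150 k215 8 (.s k105 k195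
  14 (.s k109 k158 12 (.s k174 k44 8 (.s k93 k12 12 (.d k125 k77 k65 3 5)))))))) .n))))))) (.c k58
  (.q k53 [(.s k20 k40 5 (.s k150 k215 8 (.s k125 k190 8 (.d k105 k65 k195 5 14)))), (.s k109 k158
  12 (.s k174 k44 8 (.s k93 k12 12 (.d k125 k77 k190 3 8))))] (.c k18 (.q k33 [(.s k20 k40 5 (.s
  k150 k215 8 (.s k125 k190 8 (.d k105 k65 k195 5 14)))), (.s k109 k158 12 (.s k174 k44 8 (.s k93
  k12 12 (.d k125 k77 k190 3 8))))] (.c k23 (.q k43 [(.s k20 k40 5 (.s k125 k190 8 (.s k105 k65 5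
  (.d k150 k215 k195 8 14)))), (.s k109 k158 12 (.s k174 k44 8 (.s k93 k12 12 (.d k125 k77 k190 3
  8)))), (.s k20 k40 5 (.s k215 k150 8 (.s k235 k195 5 (.s k231 k227 1 (.s k247 k199 3 (.d k243 k251
  k219 1 5))))))] (.c k190 (.l (.s k20 k40 5 (.s k150 k215 8 (.s k105 k195 14 (.s k109 k158 12 (.s
  k174 k44 8 (.s k93 k12 12 (.d k125 k77 k65 3 5)))))))) .n)) (.c k43 (.q k23 [(.s k20 k40 5 (.s
  k150 k215 8 (.s k125 k190 8 (.d k105 k65 k195 5 14)))), (.s k109 k158 12 (.s k174 k44 8 (.s k93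
  k12 12 (.d k125 k77 k190 3 8)))), (.s k20 k40 5 (.s k21 k22 0 (.s k150 k215 8 (.s k149 k213 7 (.s
  k212 k86 8 (.d k148 k151 k84 0 7))))))] .n) (.c k125 (.l (.s k20 k40 5 (.s k215 k150 8 (.s k235
  k195 5 (.s k231 k227 1 (.s k247 k199 3 (.d k243 k251 k219 1 5))))))) (.c k190 (.l (.s k20 k40 5
  (.s k150 k215 8 (.s k105 k195 14 (.s k109 k158 12 (.s k174 k44 8 (.s k93 k12 12 (.d k125 k77 k65 3
  5)))))))) .n))))) (.c k23 (.q k43 [(.s k20 k40 5 (.s k125 k190 8 (.s k105 k65 5 (.d k150 k215 k195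
  8 14)))), (.s k109 k158 12 (.s k174 k44 8 (.s k93 k12 12 (.d k125 k77 k190 3 8)))), (.s k20 k40 5
  (.s k215 k150 8 (.s k235 k195 5 (.s k231 k227 1 (.s k247 k199 3 (.d k243 k251 k219 1 5))))))] (.c
  k18 (.q k33 [(.s k20 k40 5 (.s k125 k190 8 (.s k105 k65 5 (.d k150 k215 k195 8 14)))), (.s k109
  k158 12 (.s k174 k44 8 (.s k93 k12 12 (.d k125 k77 k190 3 8)))), (.s k20 k40 5 (.s k215 k150 8 (.s
  k235 k195 5 (.s k231 k227 1 (.s k247 k199 3 (.d k243 k251 k219 1 5))))))] (.c k190 (.l (.s k20 k40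
  5 (.s k150 k215 8 (.s k105 k195 14 (.s k109 k158 12 (.s k174 k44 8 (.s k93 k12 12 (.d k125 k77 k65
  3 5)))))))) .n)) (.c k33 (.q k18 [(.s k20 k40 5 (.s k125 k190 8 (.s k105 k65 5 (.d k150 k215 k195
  8 14)))), (.s k109 k158 12 (.s k174 k44 8 (.s k93 k12 12 (.d k125 k77 k190 3 8)))), (.s k20 k40 5
  (.s k215 k150 8 (.s k235 k195 5 (.s k231 k227 1 (.s k247 k199 3 (.d k243 k251 k219 1 5))))))] (.c
  k190 (.l (.s k20 k40 5 (.s k150 k215 8 (.s k105 k195 14 (.s k109 k158 12 (.s k174 k44 8 (.s k93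
  k12 12 (.d k125 k77 k65 3 5)))))))) .n)) (.c k190 (.l (.s k20 k40 5 (.s k150 k215 8 (.s k105 k195
  14 (.s k109 k158 12 (.s k174 k44 8 (.s k93 k12 12 (.d k125 k77 k65 3 5)))))))) .n)))) (.c k33 (.q
  k18 [(.s k20 k40 5 (.s k150 k215 8 (.s k125 k190 8 (.d k105 k65 k195 5 14)))), (.s k109 k158 12
  (.s k174 k44 8 (.s k93 k12 12 (.d k125 k77 k190 3 8))))] (.c k23 (.q k43 [(.s k20 k40 5 (.s k125
  k190 8 (.s k105 k65 5 (.d k150 k215 k195 8 14)))), (.s k109 k158 12 (.s k174 k44 8 (.s k93 k12 12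
  (.d k125 k77 k190 3 8)))), (.s k20 k40 5 (.s k215 k150 8 (.s k235 k195 5 (.s k231 k227 1 (.s k247
  k199 3 (.d k243 k251 k219 1 5))))))] (.c k190 (.l (.s k20 k40 5 (.s k150 k215 8 (.s k105 k195 14
  (.s k109 k158 12 (.s k174 k44 8 (.s k93 k12 12 (.d k125 k77 k65 3 5)))))))) .n)) (.c k43 (.q k23
  [(.s k20 k40 5 (.s k150 k215 8 (.s k125 k190 8 (.d k105 k65 k195 5 14)))), (.s k109 k158 12 (.s
  k174 k44 8 (.s k93 k12 12 (.d k125 k77 k190 3 8)))), (.s k20 k40 5 (.s k21 k22 0 (.s k150 k215 8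
  (.s k149 k213 7 (.s k212 k86 8 (.d k148 k151 k84 0 7))))))] .n) (.c k125 (.l (.s k20 k40 5 (.s
  k215 k150 8 (.s k235 k195 5 (.s k231 k227 1 (.s k247 k199 3 (.d k243 k251 k219 1 5))))))) (.c k190
  (.l (.s k20 k40 5 (.s k150 k215 8 (.s k105 k195 14 (.s k109 k158 12 (.s k174 k44 8 (.s k93 k12 12
  (.d k125 k77 k65 3 5)))))))) .n))))) (.c k43 (.q k23 [(.s k20 k40 5 (.s k150 k215 8 (.s k125 k190
  8 (.d k105 k65 k195 5 14)))), (.s k109 k158 12 (.s k174 k44 8 (.s k93 k12 12 (.d k125 k77 k190 3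
  8)))), (.s k20 k40 5 (.s k21 k22 0 (.s k150 k215 8 (.s k149 k213 7 (.s k212 k86 8 (.d k148 k151
  k84 0 7))))))] (.c k18 (.q k33 [(.s k20 k40 5 (.s k150 k215 8 (.s k125 k190 8 (.d k105 k65 k195 5
  14)))), (.s k109 k158 12 (.s k174 k44 8 (.s k93 k12 12 (.d k125 k77 k190 3 8)))), (.s k20 k40 5
  (.s k21 k22 0 (.s k150 k215 8 (.s k149 k213 7 (.s k212 k86 8 (.d k148 k151 k84 0 7))))))] .n) (.c
  k33 (.q k18 [(.s k20 k40 5 (.s k150 k215 8 (.s k125 k190 8 (.d k105 k65 k195 5 14)))), (.s k109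
  k158 12 (.s k174 k44 8 (.s k93 k12 12 (.d k125 k77 k190 3 8)))), (.s k20 k40 5 (.s k21 k22 0 (.s
  k150 k215 8 (.s k149 k213 7 (.s k212 k86 8 (.d k148 k151 k84 0 7))))))] .n) .n))) (.c k125 (.l (.s
  k20 k40 5 (.s k215 k150 8 (.s k235 k195 5 (.s k231 k227 1 (.s k247 k199 3 (.d k243 k251 k219 1
  5))))))) (.c k190 (.l (.s k20 k40 5 (.s k150 k215 8 (.s k105 k195 14 (.s k109 k158 12 (.s k174 k44
  8 (.s k93 k12 12 (.d k125 k77 k65 3 5)))))))) .n))))))) (.c k125 (.l (.s k20 k40 5 (.s k215 k150 8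
  (.s k235 k195 5 (.s k231 k227 1 (.s k247 k199 3 (.d k243 k251 k219 1 5))))))) (.c k190 (.l (.s k20
  k40 5 (.s k150 k215 8 (.s k105 k195 14 (.s k109 k158 12 (.s k174 k44 8 (.s k93 k12 12 (.d k125 k77
  k65 3 5)))))))) .n))))))))))) (.c k69 (.f k239 k223 3 (.q k60 [(.s k20 k40 5 (.s k150 k215 8 (.s
  k125 k190 8 (.d k105 k65 k195 5 14)))), (.s k109 k158 12 (.s k174 k44 8 (.s k93 k12 12 (.d k125
  k77 k190 3 8))))] (.c k23 (.q k43 [(.s k20 k40 5 (.s k125 k190 8 (.s k105 k65 5 (.d k150 k215 k195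
  8 14)))), (.s k109 k158 12 (.s k174 k44 8 (.s k93 k12 12 (.d k125 k77 k190 3 8)))), (.s k20 k40 5
  (.s k215 k150 8 (.s k235 k195 5 (.s k231 k227 1 (.s k247 k199 3 (.d k243 k251 k219 1 5))))))] (.c
  k190 (.l (.s k20 k40 5 (.s k150 k215 8 (.s k105 k195 14 (.s k109 k158 12 (.s k174 k44 8 (.s k93
  k12 12 (.d k125 k77 k65 3 5)))))))) .n)) (.c k43 (.q k23 [(.s k109 k158 12 (.s k174 k44 8 (.s k93
  k12 12 (.d k125 k77 k190 3 8)))), (.s k20 k40 5 (.s k21 k22 0 (.s k150 k215 8 (.s k149 k213 7 (.s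
  k212 k86 8 (.d k148 k151 k84 0 7))))))] .n) (.c k125 (.l (.s k20 k40 5 (.s k215 k150 8 (.s k235
  k195 5 (.s k231 k227 1 (.s k247 k199 3 (.d k243 k251 k219 1 5))))))) (.c k190 (.l (.s k20 k40 5
  (.s k150 k215 8 (.s k105 k195 14 (.s k109 k158 12 (.s k174 k44 8 (.s k93 k12 12 (.d k125 k77 k65 3
  5)))))))) .n)))))) (.c k101 (.f k138 k69 10 (.f k239 k223 3 (.q k60 [(.s k20 k40 5 (.s k150 k215 8
  (.s k125 k190 8 (.d k105 k65 k195 5 14)))), (.s k109 k158 12 (.s k174 k44 8 (.s k93 k12 12 (.d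
  k125 k77 k190 3 8))))] (.c k23 (.q k43 [(.s k20 k40 5 (.s k125 k190 8 (.s k105 k65 5 (.d k150 k215
  k195 8 14)))), (.s k109 k158 12 (.s k174 k44 8 (.s k93 k12 12 (.d k125 k77 k190 3 8)))), (.s k20
  k40 5 (.s k215 k150 8 (.s k235 k195 5 (.s k231 k227 1 (.s k243 k219 5 (.d k247 k199 k251 3
  1))))))] (.c k190 (.l (.s k20 k40 5 (.s k150 k215 8 (.s k105 k195 14 (.s k109 k158 12 (.s k174 k44
  8 (.s k93 k12 12 (.d k125 k77 k65 3 5)))))))) .n)) (.c k43 (.q k23 [(.s k109 k158 12 (.s k174 k44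
  8 (.s k93 k12 12 (.d k125 k77 k190 3 8)))), (.s k20 k40 5 (.s k21 k22 0 (.s k150 k215 8 (.s k149
  k213 7 (.s k212 k86 8 (.d k148 k151 k84 0 7))))))] .n) (.c k125 (.l (.s k20 k40 5 (.s k215 k150 8
  (.s k235 k195 5 (.s k231 k227 1 (.s k243 k219 5 (.d k247 k199 k251 3 1))))))) (.c k190 (.l (.s k20
  k40 5 (.s k150 k215 8 (.s k105 k195 14 (.s k109 k158 12 (.s k174 k44 8 (.s k93 k12 12 (.d k125 k77
  k65 3 5)))))))) .n))))))) (.c k117 (.f k239 k223 3 (.f k138 k69 10 (.q k60 [(.s k20 k40 5 (.s k150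
  k215 8 (.s k125 k190 8 (.d k105 k65 k195 5 14)))), (.s k109 k158 12 (.s k174 k44 8 (.s k93 k12 12
  (.d k125 k77 k190 3 8))))] (.c k23 (.q k43 [(.s k20 k40 5 (.s k125 k190 8 (.s k105 k65 5 (.d k150
  k215 k195 8 14)))), (.s k109 k158 12 (.s k174 k44 8 (.s k93 k12 12 (.d k125 k77 k190 3 8)))), (.s
  k20 k40 5 (.s k215 k150 8 (.s k235 k195 5 (.s k231 k227 1 (.s k247 k199 3 (.d k243 k251 k219 1
  5))))))] (.c k190 (.l (.s k20 k40 5 (.s k150 k215 8 (.s k105 k195 14 (.s k109 k158 12 (.s k174 k44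
  8 (.s k93 k12 12 (.d k125 k77 k65 3 5)))))))) .n)) (.c k43 (.q k23 [(.s k109 k158 12 (.s k174 k44
  8 (.s k93 k12 12 (.d k125 k77 k190 3 8)))), (.s k20 k40 5 (.s k21 k22 0 (.s k150 k215 8 (.s k149
  k213 7 (.s k212 k86 8 (.d k148 k151 k84 0 7))))))] .n) (.c k125 (.l (.s k20 k40 5 (.s k215 k150 8
  (.s k235 k195 5 (.s k231 k227 1 (.s k247 k199 3 (.d k243 k251 k219 1 5))))))) (.c k190 (.l (.s k20
  k40 5 (.s k150 k215 8 (.s k105 k195 14 (.s k109 k158 12 (.s k174 k44 8 (.s k93 k12 12 (.d k125 k77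
  k65 3 5)))))))) .n))))))) (.c k138 (.f k223 k239 3 (.f k154 k16 10 (.q k60 [(.s k20 k40 5 (.s k150
  k215 8 (.d k158 k146 k109 1 12))), (.s k101 k48 14 (.s k109 k158 12 (.s k125 k190 8 (.d k105 k97
  k65 1 5)))), (.s k20 k40 5 (.s k150 k215 8 (.s k105 k195 14 (.d k125 k65 k190 5 8))))] (.c k23 (.q
  k43 [(.s k20 k40 5 (.s k150 k215 8 (.d k158 k146 k109 1 12))), (.s k101 k48 14 (.s k109 k158 12
  (.s k125 k190 8 (.d k105 k97 k65 1 5)))), (.s k20 k40 5 (.s k150 k215 8 (.s k105 k195 14 (.d k125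
  k65 k190 5 8))))] (.c k32 (.l (.s k101 k48 14 (.s k20 k40 5 (.s k150 k215 8 (.d k158 k146 k109 1
  12))))) (.c k101 (.q k32 [(.s k20 k40 5 (.s k150 k215 8 (.d k158 k146 k109 1 12))), (.s k158 k109
  12 (.s k93 k28 8 (.s k174 k12 12 (.d k190 k142 k125 3 8)))), (.s k20 k40 5 (.s k150 k215 8 (.s
  k105 k195 14 (.d k125 k65 k190 5 8))))] (.c k20 (.l (.s k158 k109 12 (.s k125 k190 8 (.s k105 k65
  5 (.d k150 k146 k195 1 14))))) (.c k105 (.l (.s k40 k20 5 (.s k44 k36 1 (.s k28 k12 3 (.d k158 k93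
  k109 8 12))))) .n))) (.c k105 (.l (.s k158 k109 12 (.s k150 k146 1 (.d k20 k40 k215 5 8)))) (.c
  k150 (.l (.s k101 k48 14 (.s k109 k158 12 (.s k105 k97 1 (.d k125 k65 k190 5 8))))) .n))))) (.c
  k32 (.l (.s k101 k48 14 (.s k20 k40 5 (.s k150 k215 8 (.d k158 k146 k109 1 12))))) (.c k43 (.q k23
  [(.s k20 k40 5 (.s k150 k215 8 (.d k158 k146 k109 1 12))), (.s k101 k48 14 (.s k109 k158 12 (.s
  k125 k190 8 (.d k105 k97 k65 1 5)))), (.s k20 k40 5 (.s k150 k215 8 (.s k105 k195 14 (.d k125 k65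
  k190 5 8))))] (.c k32 (.l (.s k101 k48 14 (.s k20 k40 5 (.s k150 k215 8 (.d k158 k146 k109 1
  12))))) (.c k101 (.q k32 [(.s k20 k40 5 (.s k150 k215 8 (.d k158 k146 k109 1 12))), (.s k158 k109
  12 (.s k93 k28 8 (.s k174 k12 12 (.d k190 k142 k125 3 8)))), (.s k20 k40 5 (.s k150 k215 8 (.s
  k105 k195 14 (.d k125 k65 k190 5 8))))] (.c k20 (.l (.s k158 k109 12 (.s k125 k190 8 (.s k105 k65
  5 (.d k150 k146 k195 1 14))))) (.c k105 (.l (.s k40 k20 5 (.s k44 k36 1 (.s k28 k12 3 (.d k158 k93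
  k109 8 12))))) .n))) (.c k105 (.l (.s k158 k109 12 (.s k150 k146 1 (.d k20 k40 k215 5 8)))) (.c
  k150 (.l (.s k101 k48 14 (.s k109 k158 12 (.s k105 k97 1 (.d k125 k65 k190 5 8))))) .n))))) (.c
  k101 (.q k32 [(.s k20 k40 5 (.s k150 k215 8 (.d k158 k146 k109 1 12))), (.s k158 k109 12 (.s k93
  k28 8 (.s k174 k12 12 (.d k190 k142 k125 3 8)))), (.s k20 k40 5 (.s k150 k215 8 (.s k105 k195 14
  (.d k125 k65 k190 5 8))))] (.c k20 (.l (.s k158 k109 12 (.s k125 k190 8 (.s k105 k65 5 (.d k150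
  k146 k195 1 14))))) (.c k23 (.q k43 [(.s k20 k40 5 (.s k150 k215 8 (.d k158 k146 k109 1 12))), (.s
  k158 k109 12 (.s k93 k28 8 (.s k174 k12 12 (.d k190 k142 k125 3 8)))), (.s k20 k40 5 (.s k150 k215
  8 (.s k105 k195 14 (.d k125 k65 k190 5 8))))] (.c k20 (.l (.s k158 k109 12 (.s k125 k190 8 (.s
  k105 k65 5 (.d k150 k146 k195 1 14))))) (.c k105 (.l (.s k40 k20 5 (.s k44 k36 1 (.s k28 k12 3 (.d
  k158 k93 k109 8 12))))) .n))) (.c k43 (.q k23 [(.s k20 k40 5 (.s k150 k215 8 (.d k158 k146 k109 1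
  12))), (.s k158 k109 12 (.s k93 k28 8 (.s k174 k12 12 (.d k190 k142 k125 3 8)))), (.s k20 k40 5
  (.s k150 k215 8 (.s k105 k195 14 (.d k125 k65 k190 5 8))))] (.c k20 (.l (.s k158 k109 12 (.s k125
  k190 8 (.s k105 k65 5 (.d k150 k146 k195 1 14))))) (.c k105 (.l (.s k40 k20 5 (.s k44 k36 1 (.s
  k28 k12 3 (.d k158 k93 k109 8 12))))) .n))) (.c k105 (.l (.s k40 k20 5 (.s k44 k36 1 (.s k28 k12 3
  (.d k158 k93 k109 8 12))))) .n))))) (.c k105 (.l (.s k158 k109 12 (.s k150 k146 1 (.d k20 k40 k215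
  5 8)))) (.c k150 (.l (.s k101 k48 14 (.s k109 k158 12 (.s k105 k97 1 (.d k125 k65 k190 5 8)))))
  .n))))))))) (.c k154 (.f k138 k69 10 (.q k60 [(.s k20 k40 5 (.s k150 k215 8 (.s k125 k190 8 (.d
  k105 k65 k195 5 14)))), (.s k158 k109 12 (.s k190 k125 8 (.s k174 k142 3 (.s k93 k12 12 (.d k223
  k239 k28 3 8)))))] (.c k23 (.q k43 [(.s k20 k40 5 (.s k150 k215 8 (.s k125 k190 8 (.d k105 k65
  k195 5 14)))), (.s k158 k109 12 (.s k190 k125 8 (.s k174 k142 3 (.s k93 k12 12 (.d k223 k239 k28 3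
  8)))))] (.c k125 (.l (.s k20 k40 5 (.s k215 k150 8 (.s k235 k195 5 (.s k223 k239 3 (.s k219 k211 1
  (.s k251 k203 3 (.d k243 k247 k231 1 5)))))))) (.c k190 (.f k239 k223 3 (.l (.s k20 k40 5 (.s k150
  k215 8 (.s k105 k195 14 (.s k109 k158 12 (.s k174 k44 8 (.s k93 k12 12 (.d k125 k77 k65 3
  5))))))))) .n))) (.c k43 (.q k23 [(.s k20 k40 5 (.s k150 k215 8 (.s k125 k190 8 (.d k105 k65 k195
  5 14)))), (.s k158 k109 12 (.s k190 k125 8 (.s k174 k142 3 (.s k93 k12 12 (.d k223 k239 k28 3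
  8))))), (.s k20 k40 5 (.s k21 k22 0 (.s k150 k215 8 (.s k149 k213 7 (.s k212 k86 8 (.d k148 k151
  k84 0 7))))))] .n) (.c k125 (.l (.s k20 k40 5 (.s k215 k150 8 (.s k235 k195 5 (.s k223 k239 3 (.s
  k219 k211 1 (.s k251 k203 3 (.d k243 k247 k231 1 5)))))))) (.c k190 (.f k239 k223 3 (.l (.s k20
  k40 5 (.s k150 k215 8 (.s k105 k195 14 (.s k109 k158 12 (.s k174 k44 8 (.s k93 k12 12 (.d k125 k77
  k65 3 5))))))))) .n)))))) (.c k186 (.l (.s k223 k239 3 (.s k69 k138 10 (.s k154 k16 10 (.d k101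
  k117 k48 3 14))))) (.c k223 (.q k60 [(.s k20 k40 5 (.s k125 k190 8 (.s k105 k65 5 (.d k150 k215
  k195 8 14)))), (.s k69 k138 10 (.s k109 k158 12 (.s k101 k117 3 (.s k105 k97 1 (.d k125 k65 k190 5
  8))))), (.s k69 k138 10 (.s k158 k109 12 (.s k101 k117 3 (.s k154 k48 14 (.s k150 k146 1 (.d k20
  k40 k215 5 8))))))] (.c k23 (.q k43 [(.s k20 k40 5 (.s k125 k190 8 (.s k105 k65 5 (.d k150 k215
  k195 8 14)))), (.s k69 k138 10 (.s k109 k158 12 (.s k101 k117 3 (.s k105 k97 1 (.d k125 k65 k190 5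
  8))))), (.s k69 k138 10 (.s k158 k109 12 (.s k101 k117 3 (.s k154 k48 14 (.s k150 k146 1 (.d k20
  k40 k215 5 8))))))] .n) (.c k43 (.q k23 [(.s k20 k40 5 (.s k125 k190 8 (.s k105 k65 5 (.d k150
  k215 k195 8 14)))), (.s k69 k138 10 (.s k109 k158 12 (.s k101 k117 3 (.s k105 k97 1 (.d k125 k65
  k190 5 8))))), (.s k69 k138 10 (.s k158 k109 12 (.s k101 k117 3 (.s k154 k48 14 (.s k150 k146 1
  (.d k20 k40 k215 5 8))))))] .n) .n))) (.c k239 (.q k4 [(.s k12 k8 1 (.s k166 k247 12 (.s k93 k174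
  12 (.d k89 k81 k243 1 14)))), (.s k69 k138 10 (.s k199 k134 8 (.s k247 k166 12 (.s k215 k231 3 (.d
  k195 k235 k203 5 1))))), (.s k12 k8 1 (.s k69 k138 10 (.s k134 k199 8 (.s k73 k195 10 (.d k77 k65
  k142 1 8)))))] (.c k23 (.q k43 [(.s k12 k8 1 (.s k166 k247 12 (.s k93 k174 12 (.d k89 k81 k243 1
  14)))), (.s k69 k138 10 (.s k199 k134 8 (.s k247 k166 12 (.s k215 k231 3 (.d k195 k235 k203 5
  1))))), (.s k12 k8 1 (.s k69 k138 10 (.s k134 k199 8 (.s k73 k195 10 (.d k77 k65 k142 1 8)))))]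
  (.c k32 (.q k101 [(.d k69 k117 k138 3 10), (.s k12 k8 1 (.s k166 k247 12 (.s k77 k142 8 (.d k89
  k113 k243 5 14))))] .n) (.c k101 (.q k32 [(.s k12 k8 1 (.s k166 k247 12 (.s k93 k174 12 (.d k89
  k81 k243 1 14)))), (.s k69 k138 10 (.s k199 k134 8 (.s k247 k166 12 (.s k195 k203 1 (.d k215 k231
  k235 3 5))))), (.s k12 k8 1 (.s k48 k16 3 (.s k36 k24 5 (.s k20 k52 3 (.d k40 k44 k60 1 5)))))]
  (.c k8 (.l (.s k69 k138 10 (.s k199 k134 8 (.s k247 k166 12 (.s k231 k215 3 (.d k243 k251 k219 1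
  5)))))) .n)) .n))) (.c k32 (.q k101 [(.d k69 k117 k138 3 10), (.s k12 k8 1 (.s k166 k247 12 (.s
  k77 k142 8 (.d k89 k113 k243 5 14))))] (.c k23 (.q k43 [(.d k69 k117 k138 3 10), (.s k12 k8 1 (.s
  k166 k247 12 (.s k77 k142 8 (.d k89 k113 k243 5 14))))] .n) (.c k43 (.q k23 [(.d k69 k117 k138 3
  10), (.s k12 k8 1 (.s k166 k247 12 (.s k77 k142 8 (.d k89 k113 k243 5 14))))] .n) .n))) (.c k43
  (.q k23 [(.s k12 k8 1 (.s k166 k247 12 (.s k93 k174 12 (.d k89 k81 k243 1 14)))), (.s k69 k138 10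
  (.s k199 k134 8 (.s k247 k166 12 (.s k215 k231 3 (.d k195 k235 k203 5 1))))), (.s k12 k8 1 (.s k69
  k138 10 (.s k134 k199 8 (.s k73 k195 10 (.d k77 k65 k142 1 8)))))] (.c k32 (.q k101 [(.d k69 k117
  k138 3 10), (.s k12 k8 1 (.s k166 k247 12 (.s k77 k142 8 (.d k89 k113 k243 5 14))))] .n) (.c k101
  (.q k32 [(.s k12 k8 1 (.s k166 k247 12 (.s k93 k174 12 (.d k89 k81 k243 1 14)))), (.s k69 k138 10
  (.s k199 k134 8 (.s k247 k166 12 (.s k195 k203 1 (.d k215 k231 k235 3 5))))), (.s k12 k8 1 (.s k48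
  k16 3 (.s k36 k24 5 (.s k20 k52 3 (.d k40 k44 k60 1 5)))))] (.c k8 (.l (.s k69 k138 10 (.s k199
  k134 8 (.s k247 k166 12 (.s k231 k215 3 (.d k243 k251 k219 1 5)))))) .n)) .n))) (.c k101 (.q k32
  [(.s k12 k8 1 (.s k166 k247 12 (.s k93 k174 12 (.d k89 k81 k243 1 14)))), (.s k69 k138 10 (.s k199
  k134 8 (.s k247 k166 12 (.s k195 k203 1 (.d k215 k231 k235 3 5))))), (.s k12 k8 1 (.s k48 k16 3
  (.s k36 k24 5 (.s k20 k52 3 (.d k40 k44 k60 1 5)))))] (.c k8 (.l (.s k69 k138 10 (.s k199 k134 8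
  (.s k247 k166 12 (.s k231 k215 3 (.d k243 k251 k219 1 5)))))) (.c k23 (.q k43 [(.s k12 k8 1 (.s
  k166 k247 12 (.s k93 k174 12 (.d k89 k81 k243 1 14)))), (.s k69 k138 10 (.s k199 k134 8 (.s k247
  k166 12 (.s k195 k203 1 (.d k215 k231 k235 3 5))))), (.s k12 k8 1 (.s k48 k16 3 (.s k36 k24 5 (.s
  k20 k52 3 (.d k40 k44 k60 1 5)))))] (.c k8 (.l (.s k69 k138 10 (.s k199 k134 8 (.s k247 k166 12
  (.s k231 k215 3 (.d k243 k251 k219 1 5)))))) .n)) (.c k43 (.q k23 [(.s k12 k8 1 (.s k166 k247 12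
  (.s k93 k174 12 (.d k89 k81 k243 1 14)))), (.s k69 k138 10 (.s k199 k134 8 (.s k247 k166 12 (.s
  k195 k203 1 (.d k215 k231 k235 3 5))))), (.s k12 k8 1 (.s k48 k16 3 (.s k36 k24 5 (.s k20 k52 3
  (.d k40 k44 k60 1 5)))))] (.c k8 (.l (.s k69 k138 10 (.s k199 k134 8 (.s k247 k166 12 (.s k231
  k215 3 (.d k243 k251 k219 1 5)))))) .n)) .n)))) .n))))) .n))))))))))))))

def t5 : T TT 256 :=
  (.q k48 [(.s k16 k32 3 (.s k85 k170 14 (.s k154 k223 10 (.s k117 k186 10 (.d k101 k69 k207 3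
  14)))))] (.c k16 (.q k84 [(.s k252 k168 13 (.s k85 k170 14 (.s k86 k87 0 (.s k253 k254 0 (.d k169
  k1 k3 13 14))))), (.s k252 k168 13 (.s k116 k184 9 (.s k117 k186 10 (.s k118 k119 0 (.s k185 k51
  10 (.d k253 k254 k49 0 9)))))), (.s k85 k170 14 (.s k117 k186 10 (.s k101 k69 3 (.s k86 k87 0 (.s
  k116 k71 4 (.s k68 k100 3 (.d k119 k118 k102 0 4)))))))] .n) (.c k32 (.q k84 [(.s k252 k168 13 (.s
  k85 k170 14 (.s k86 k87 0 (.s k253 k254 0 (.d k169 k1 k3 13 14))))), (.s k252 k168 13 (.s k116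
  k184 9 (.s k117 k186 10 (.s k118 k119 0 (.s k185 k51 10 (.d k253 k254 k49 0 9)))))), (.s k85 k170
  14 (.s k117 k186 10 (.s k101 k69 3 (.s k86 k87 0 (.s k116 k71 4 (.d k252 k184 k168 9 13)))))), (.s
  k85 k170 14 (.s k117 k186 10 (.s k101 k69 3 (.s k86 k87 0 (.s k116 k71 4 (.s k119 k118 0 (.d k68
  k100 k102 3 4)))))))] .n) (.c k69 (.l (.s k32 k16 3 (.s k170 k85 14 (.s k101 k239 10 (.s k154 k207
  14 (.d k186 k117 k138 10 3)))))) (.c k85 (.q k49 [(.s k51 k50 0 (.s k117 k186 10 (.s k119 k187 9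
  (.s k118 k116 0 (.d k185 k253 k252 9 10))))), (.s k16 k32 3 (.s k51 k50 0 (.s k17 k34 4 (.s k18
  k19 0 (.d k33 k1 k3 3 4)))))] (.c k50 (.q k245 [(.s k16 k32 3 (.s k240 k250 2 (.s k80 k160 11 (.s
  k144 k208 7 (.s k112 k176 7 (.d k96 k64 k192 3 11)))))), (.s k117 k186 10 (.s k253 k185 9 (.s k181
  k53 7 (.s k241 k249 1 (.s k113 k177 7 (.d k121 k125 k61 1 9))))))] .n) (.c k51 (.f k32 k16 3 (.l
  (.s k117 k186 10 (.s k253 k185 9 (.s k252 k254 0 (.s k168 k84 13 (.s k100 k236 9 (.s k152 k204 13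
  (.d k184 k136 k116 3 9))))))))) (.c k165 (.q k245 [(.s k51 k50 0 (.s k117 k186 10 (.s k119 k187 9
  (.s k118 k116 0 (.d k185 k253 k252 9 10))))), (.s k16 k32 3 (.s k240 k250 2 (.s k80 k160 11 (.s
  k144 k208 7 (.s k96 k192 11 (.d k112 k64 k176 3 7))))))] .n) (.c k245 (.q k165 [(.s k51 k50 0 (.s
  k117 k186 10 (.s k119 k187 9 (.s k118 k116 0 (.d k185 k253 k252 9 10))))), (.s k16 k32 3 (.s k51
  k50 0 (.s k17 k34 4 (.s k18 k19 0 (.d k33 k1 k3 3 4)))))] (.c k50 (.q k13 [(.s k32 k16 3 (.s k37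
  k25 5 (.s k101 k229 7 (.s k239 k170 10 (.d k207 k223 k154 3 14))))), (.s k16 k32 3 (.s k241 k89 13
  (.s k113 k177 7 (.s k243 k178 8 (.s k81 k162 12 (.s k146 k211 8 (.d k97 k65 k195 3 12))))))), (.s
  k25 k37 5 (.s k89 k241 13 (.s k153 k217 7 (.s k205 k101 13 (.d k141 k177 k77 5 7)))))] .n) (.c k51
  (.f k32 k16 3 (.l (.s k117 k186 10 (.s k253 k185 9 (.s k252 k254 0 (.s k168 k84 13 (.s k100 k236 9
  (.s k152 k204 13 (.d k184 k136 k116 3 9))))))))) .n))) .n))))) (.c k101 (.q k4 [(.s k12 k8 1 (.s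
  k32 k16 3 (.s k36 k24 5 (.s k40 k44 1 (.d k20 k52 k60 3 5))))), (.s k12 k8 1 (.s k85 k170 14 (.s
  k166 k247 12 (.s k89 k243 14 (.d k93 k81 k174 1 12))))), (.s k85 k170 14 (.s k247 k166 12 (.s k117
  k186 10 (.s k52 k182 8 (.s k60 k56 1 (.d k20 k36 k40 3 5))))))] (.c k32 (.l (.s k12 k8 1 (.s k36
  k24 5 (.s k52 k20 3 (.s k117 k186 10 (.s k247 k182 8 (.d k85 k166 k170 12 14))))))) .n)) (.c k117
  (.q k84 [(.s k16 k32 3 (.s k168 k252 13 (.s k152 k220 9 (.s k204 k100 13 (.d k136 k184 k68 3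
  9))))), (.s k252 k168 13 (.s k85 k170 14 (.s k86 k87 0 (.s k169 k3 14 (.d k253 k254 k1 0 13))))),
  (.s k16 k32 3 (.s k85 k170 14 (.s k152 k220 9 (.s k154 k223 10 (.s k153 k155 0 (.s k221 k17 9 (.d
  k204 k238 k100 4 13)))))))] .n) (.c k154 (.f k85 k170 14 (.q k84 [(.s k252 k168 13 (.s k86 k87 0
  (.s k253 k254 0 (.d k169 k1 k3 13 14)))), (.s k16 k32 3 (.s k152 k220 9 (.s k204 k100 13 (.s k68
  k136 9 (.s k102 k119 4 (.s k153 k51 14 (.d k221 k238 k17 4 9)))))))] (.c k138 (.l (.s k186 k117 10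
  (.s k252 k168 13 (.s k86 k87 0 (.s k169 k3 14 (.d k253 k254 k1 0 13)))))) (.c k168 (.l (.s k16 k32
  3 (.s k152 k220 9 (.s k100 k204 13 (.s k68 k116 3 (.s k102 k119 4 (.s k101 k103 0 (.d k117 k69
  k186 3 10)))))))) (.c k186 (.q k138 [(.s k252 k168 13 (.s k86 k87 0 (.s k169 k3 14 (.d k253 k254
  k1 0 13)))), (.s k16 k32 3 (.s k69 k207 10 (.s k152 k220 9 (.s k100 k204 13 (.s k68 k116 3 (.s
  k102 k119 4 (.d k101 k117 k103 3 0)))))))] (.c k252 (.l (.s k16 k32 3 (.s k69 k207 10 (.s k152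
  k220 9 (.s k101 k117 3 (.s k86 k87 0 (.s k116 k71 4 (.d k100 k204 k68 13 3)))))))) .n)) .n)))))
  (.c k170 (.q k49 [(.s k51 k50 0 (.s k117 k186 10 (.s k185 k253 9 (.s k118 k252 10 (.d k119 k116
  k187 0 9))))), (.s k16 k32 3 (.s k51 k50 0 (.s k17 k34 4 (.s k33 k1 3 (.d k18 k19 k3 0 4)))))] (.c
  k50 (.q k245 [(.s k32 k16 3 (.s k240 k250 2 (.s k160 k80 11 (.s k96 k224 7 (.s k144 k192 11 (.d
  k176 k128 k112 3 7)))))), (.s k117 k186 10 (.s k253 k185 9 (.s k181 k53 7 (.s k241 k249 1 (.s k113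
  k177 7 (.d k121 k125 k61 1 9))))))] .n) (.c k51 (.f k32 k16 3 (.l (.s k117 k186 10 (.s k253 k185 9
  (.s k252 k254 0 (.s k168 k84 13 (.s k100 k236 9 (.s k152 k204 13 (.d k184 k136 k116 3 9)))))))))
  .n))) (.c k186 (.q k84 [(.s k16 k32 3 (.s k168 k252 13 (.s k152 k220 9 (.s k204 k100 13 (.d k136
  k184 k68 3 9))))), (.s k252 k168 13 (.s k85 k170 14 (.s k86 k87 0 (.s k169 k3 14 (.d k253 k254 k1
  0 13))))), (.s k16 k32 3 (.s k85 k170 14 (.s k152 k220 9 (.s k154 k223 10 (.s k153 k155 0 (.s k221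
  k17 9 (.d k204 k238 k100 4 13)))))))] .n) (.c k207 (.f k85 k170 14 (.f k32 k16 3 (.q k84 [(.s k168
  k252 13 (.s k100 k236 9 (.s k204 k152 13 (.d k68 k116 k136 3 9)))), (.s k252 k168 13 (.s k86 k87 0
  (.s k169 k3 14 (.d k253 k254 k1 0 13)))), (.s k117 k186 10 (.s k101 k69 3 (.s k86 k87 0 (.s k116
  k71 4 (.s k68 k100 3 (.d k119 k118 k102 0 4))))))] (.c k111 (.q k159 [(.s k168 k252 13 (.s k100
  k236 9 (.s k204 k152 13 (.d k68 k116 k136 3 9)))), (.s k252 k168 13 (.s k86 k87 0 (.s k169 k3 14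
  (.d k253 k254 k1 0 13)))), (.s k117 k186 10 (.s k101 k69 3 (.s k86 k87 0 (.s k116 k71 4 (.s k68
  k100 3 (.d k119 k118 k102 0 4))))))] .n) (.c k159 (.q k111 [(.s k168 k252 13 (.s k100 k236 9 (.s
  k204 k152 13 (.d k68 k116 k136 3 9)))), (.s k252 k168 13 (.s k86 k87 0 (.s k169 k3 14 (.d k253
  k254 k1 0 13)))), (.s k117 k186 10 (.s k101 k69 3 (.s k86 k87 0 (.s k116 k71 4 (.s k68 k100 3 (.d
  k119 k118 k102 0 4))))))] .n) .n))))) (.c k223 (.l (.s k32 k16 3 (.s k186 k117 10 (.s k170 k85 14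
  (.s k154 k138 3 (.d k101 k239 k207 10 14)))))) (.c k239 (.l (.s k16 k32 3 (.s k117 k186 10 (.s k85
  k170 14 (.s k101 k69 3 (.d k154 k223 k207 10 14)))))) .n)))))))))))))

def t6 : T TT 256 :=
  (.f k85 k170 14 (.q k150 [(.s k20 k215 8 (.s k60 k40 5 (.s k125 k190 8 (.d k105 k65 k195 5 14))))]
  (.c k20 (.q k89 [(.s k81 k93 1 (.s k243 k162 12 (.s k247 k251 1 (.d k166 k4 k12 12 14)))), (.s k28
  k211 10 (.s k93 k81 1 (.s k223 k158 8 (.s k207 k239 3 (.s k69 k138 10 (.s k101 k117 3 (.d k154 k16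
  k48 10 14)))))))] (.c k81 (.q k195 [(.s k65 k130 8 (.d k105 k125 k60 5 14)), (.s k211 k28 10 (.s
  k243 k227 3 (.s k247 k251 1 (.d k166 k4 k12 12 14))))] .n) (.c k93 (.q k195 [(.s k65 k130 8 (.d
  k105 k125 k60 5 14)), (.s k211 k28 10 (.s k243 k227 3 (.s k247 k251 1 (.d k166 k4 k12 12 14))))]
  .n) .n))) (.c k40 (.l (.s k215 k20 8 (.s k195 k235 5 (.s k105 k60 14 (.d k65 k125 k130 5 8)))))
  (.c k60 (.f k20 k215 8 (.q k89 [(.s k81 k93 1 (.s k243 k162 12 (.s k247 k251 1 (.d k166 k4 k12 12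
  14)))), (.s k28 k211 10 (.s k16 k24 1 (.s k48 k32 3 (.s k117 k186 10 (.s k101 k69 3 (.d k154 k223
  k207 10 14))))))] (.c k61 (.q k62 [(.s k81 k93 1 (.s k243 k162 12 (.s k247 k251 1 (.d k166 k4 k12
  12 14)))), (.s k28 k211 10 (.s k16 k24 1 (.s k48 k32 3 (.s k117 k186 10 (.s k101 k69 3 (.d k154
  k223 k207 10 14))))))] .n) (.c k62 (.q k61 [(.s k81 k93 1 (.s k243 k162 12 (.s k247 k251 1 (.d
  k166 k4 k12 12 14)))), (.s k28 k211 10 (.s k16 k24 1 (.s k48 k32 3 (.s k117 k186 10 (.s k101 k69 3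
  (.d k154 k223 k207 10 14))))))] .n) .n)))) (.c k65 (.q k5 [(.s k15 k10 2 (.s k165 k245 11 (.s k95
  k175 11 (.d k90 k80 k240 2 14)))), (.s k165 k245 11 (.s k215 k20 8 (.s k135 k180 4 (.s k195 k235 5
  (.d k15 k10 k75 2 9))))), (.s k15 k10 2 (.s k20 k215 8 (.s k60 k40 5 (.s k30 k45 4 (.s k90 k210 9
  (.d k95 k80 k175 2 11))))))] (.c k10 (.l (.s k165 k245 11 (.s k20 k215 8 (.s k60 k40 5 (.s k180
  k135 4 (.s k240 k120 9 (.s k80 k160 11 (.d k90 k95 k15 2 14)))))))) (.c k15 (.l (.s k245 k165 11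
  (.s k215 k20 8 (.s k195 k235 5 (.s k240 k250 2 (.s k210 k225 4 (.s k90 k30 9 (.d k80 k160 k95 11
  2)))))))) .n))) (.c k105 (.f k20 k215 8 (.q k89 [(.s k28 k211 10 (.s k16 k24 1 (.s k93 k81 1 (.d
  k223 k158 k154 8 10)))), (.s k81 k93 1 (.s k243 k162 12 (.s k166 k12 14 (.d k247 k251 k4 1 12)))),
  (.s k28 k211 10 (.s k16 k24 1 (.s k48 k32 3 (.s k117 k186 10 (.s k101 k69 3 (.d k154 k223 k207 10
  14))))))] (.c k40 (.q k235 [(.s k28 k211 10 (.s k93 k81 1 (.s k223 k158 8 (.d k16 k24 k154 1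
  10)))), (.s k81 k93 1 (.s k243 k162 12 (.s k166 k12 14 (.d k247 k251 k4 1 12)))), (.s k28 k211 10
  (.s k16 k24 1 (.s k48 k32 3 (.s k117 k186 10 (.s k101 k69 3 (.d k154 k223 k207 10 14))))))] .n)
  (.c k235 (.l (.s k40 k60 5 (.s k28 k211 10 (.s k16 k24 1 (.s k223 k154 10 (.d k93 k81 k158 1
  8)))))) .n)))) (.c k125 (.q k5 [(.s k15 k10 2 (.s k165 k245 11 (.s k95 k175 11 (.d k90 k80 k240 2
  14)))), (.s k165 k245 11 (.s k215 k20 8 (.s k135 k180 4 (.s k195 k235 5 (.d k15 k10 k75 2 9))))),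
  (.s k15 k10 2 (.s k20 k215 8 (.s k60 k40 5 (.s k30 k45 4 (.s k90 k210 9 (.d k95 k80 k175 2
  11))))))] (.c k10 (.l (.s k165 k245 11 (.s k20 k215 8 (.s k60 k40 5 (.s k180 k135 4 (.s k240 k120
  9 (.s k80 k160 11 (.d k90 k95 k15 2 14)))))))) (.c k15 (.l (.s k245 k165 11 (.s k215 k20 8 (.s
  k195 k235 5 (.s k240 k250 2 (.s k210 k225 4 (.s k90 k30 9 (.d k80 k160 k95 11 2)))))))) .n))) (.c
  k190 (.l (.s k215 k20 8 (.s k195 k235 5 (.s k65 k130 8 (.d k105 k125 k60 5 14))))) (.c k195 (.q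
  k89 [(.s k81 k93 1 (.s k243 k162 12 (.s k247 k251 1 (.d k166 k4 k12 12 14)))), (.s k20 k215 8 (.s
  k28 k211 10 (.s k16 k24 1 (.s k223 k154 10 (.d k93 k81 k158 1 8))))), (.s k20 k215 8 (.s k60 k40 5
  (.s k28 k211 10 (.s k12 k44 3 (.s k4 k8 1 (.d k166 k243 k247 14 12))))))] (.c k107 (.q k151 [(.s
  k81 k93 1 (.s k243 k162 12 (.s k247 k251 1 (.d k166 k4 k12 12 14)))), (.s k215 k20 8 (.s k23 k87 7
  (.s k149 k148 0 (.s k213 k21 7 (.d k212 k214 k86 0 8)))))] .n) (.c k151 (.q k107 [(.s k81 k93 1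
  (.s k243 k162 12 (.s k247 k251 1 (.d k166 k4 k12 12 14)))), (.s k20 k215 8 (.s k28 k211 10 (.s k16
  k24 1 (.s k223 k154 10 (.d k93 k81 k158 1 8))))), (.s k20 k215 8 (.s k60 k40 5 (.s k28 k211 10 (.s
  k12 k44 3 (.s k4 k8 1 (.d k166 k243 k247 14 12))))))] (.c k243 (.l (.s k20 k215 8 (.s k60 k40 5
  (.s k93 k81 1 (.s k12 k174 12 (.d k28 k44 k211 3 10)))))) .n)) (.c k243 (.l (.s k20 k215 8 (.s k60
  k40 5 (.s k93 k81 1 (.s k12 k174 12 (.d k28 k44 k211 3 10)))))) .n)))) (.c k215 (.q k89 [(.s k81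
  k93 1 (.s k243 k162 12 (.s k247 k251 1 (.d k166 k4 k12 12 14)))), (.s k28 k211 10 (.s k93 k81 1
  (.s k223 k158 8 (.s k16 k154 10 (.s k48 k32 3 (.s k24 k20 1 (.d k12 k36 k174 5 12)))))))] (.c k12
  (.l (.s k211 k28 10 (.s k81 k93 1 (.s k243 k162 12 (.s k195 k227 3 (.s k65 k130 8 (.d k105 k60
  k125 14 5))))))) (.c k81 (.q k195 [(.s k65 k130 8 (.d k105 k125 k60 5 14)), (.s k211 k28 10 (.s
  k243 k227 3 (.s k247 k251 1 (.d k166 k4 k12 12 14))))] .n) (.c k93 (.q k195 [(.s k65 k130 8 (.d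
  k105 k125 k60 5 14)), (.s k211 k28 10 (.s k243 k227 3 (.s k247 k251 1 (.d k166 k4 k12 12 14))))]
  .n) (.c k174 (.l (.s k81 k93 1 (.s k243 k162 12 (.s k166 k12 14 (.d k247 k251 k4 1 12))))) .n)))))
  (.c k235 (.l (.s k20 k215 8 (.s k60 k40 5 (.s k105 k195 14 (.d k125 k65 k190 5 8)))))
  .n))))))))))))

def t7 : T TT 256 :=
  (.f k85 k170 14 (.q k150 [(.s k20 k215 8 (.s k60 k40 5 (.s k125 k190 8 (.d k105 k65 k195 5 14))))]
  (.c k20 (.q k4 [(.s k12 k8 1 (.s k93 k174 12 (.s k89 k81 1 (.d k166 k247 k243 12 14)))), (.s k166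
  k247 12 (.s k134 k182 3 (.s k69 k199 8 (.s k207 k138 10 (.s k223 k239 3 (.s k154 k16 10 (.d k101
  k117 k48 3 14)))))))] (.c k166 (.q k89 [(.s k12 k8 1 (.d k93 k174 k81 12 1)), (.s k28 k211 10 (.s
  k93 k81 1 (.s k223 k158 8 (.s k207 k239 3 (.s k69 k138 10 (.s k199 k134 8 (.d k101 k117 k52 3
  12))))))), (.s k12 k8 1 (.s k28 k211 10 (.s k60 k44 3 (.s k105 k195 14 (.d k125 k65 k190 5 8)))))]
  (.c k162 (.q k174 [(.d k12 k8 k93 1 12), (.s k28 k211 10 (.s k93 k81 1 (.s k223 k158 8 (.s k207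
  k239 3 (.s k69 k138 10 (.s k199 k134 8 (.d k101 k117 k52 3 12)))))))] (.c k93 (.l (.s k12 k8 1 (.s
  k28 k211 10 (.s k60 k44 3 (.s k105 k195 14 (.d k125 k65 k190 5 8)))))) .n)) (.c k174 (.q k162 [(.d
  k81 k93 k243 1 12), (.s k12 k8 1 (.s k28 k211 10 (.s k60 k44 3 (.s k125 k190 8 (.d k105 k65 k195 5
  14)))))] .n) .n))) (.c k247 (.l (.s k12 k8 1 (.s k93 k174 12 (.s k89 k81 1 (.s k28 k211 10 (.s k60
  k44 3 (.s k105 k195 14 (.d k125 k65 k190 5 8)))))))) .n))) (.c k40 (.l (.s k215 k20 8 (.s k195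
  k235 5 (.s k105 k60 14 (.d k65 k125 k130 5 8))))) (.c k60 (.f k20 k215 8 (.q k89 [(.s k81 k93 1
  (.s k243 k162 12 (.s k247 k251 1 (.d k166 k4 k12 12 14)))), (.s k28 k211 10 (.s k16 k24 1 (.s k48
  k32 3 (.s k117 k186 10 (.s k101 k69 3 (.d k154 k223 k207 10 14))))))] (.c k61 (.q k62 [(.s k81 k93
  1 (.s k243 k162 12 (.s k247 k251 1 (.d k166 k4 k12 12 14)))), (.s k28 k211 10 (.s k16 k24 1 (.s
  k48 k32 3 (.s k117 k186 10 (.s k101 k69 3 (.d k154 k223 k207 10 14))))))] .n) (.c k62 (.q k61 [(.s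
  k81 k93 1 (.s k243 k162 12 (.s k247 k251 1 (.d k166 k4 k12 12 14)))), (.s k28 k211 10 (.s k16 k24
  1 (.s k48 k32 3 (.s k117 k186 10 (.s k101 k69 3 (.d k154 k223 k207 10 14))))))] .n) .n)))) (.c k65
  (.q k89 [(.s k81 k93 1 (.s k243 k162 12 (.s k247 k251 1 (.d k166 k4 k12 12 14)))), (.s k20 k215 8
  (.s k28 k211 10 (.s k16 k24 1 (.s k223 k154 10 (.d k93 k81 k158 1 8))))), (.s k20 k215 8 (.s k60
  k40 5 (.s k28 k211 10 (.s k12 k44 3 (.s k4 k8 1 (.d k166 k247 k243 12 14))))))] .n) (.c k105 (.f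
  k20 k215 8 (.q k89 [(.s k28 k211 10 (.s k16 k24 1 (.s k93 k81 1 (.d k223 k158 k154 8 10)))), (.s
  k81 k93 1 (.s k243 k162 12 (.s k166 k12 14 (.d k247 k251 k4 1 12)))), (.s k28 k211 10 (.s k16 k24
  1 (.s k48 k32 3 (.s k117 k186 10 (.s k101 k69 3 (.d k154 k223 k207 10 14))))))] (.c k40 (.q k235
  [(.s k28 k211 10 (.s k93 k81 1 (.s k223 k158 8 (.d k16 k24 k154 1 10)))), (.s k81 k93 1 (.s k243
  k162 12 (.s k166 k12 14 (.d k247 k251 k4 1 12)))), (.s k28 k211 10 (.s k16 k24 1 (.s k48 k32 3 (.s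
  k117 k186 10 (.s k101 k69 3 (.d k154 k223 k207 10 14))))))] .n) (.c k235 (.l (.s k40 k60 5 (.s k28
  k211 10 (.s k16 k24 1 (.s k223 k154 10 (.d k93 k81 k158 1 8)))))) .n)))) (.c k125 (.q k89 [(.s k93
  k81 1 (.s k12 k174 12 (.s k4 k8 1 (.d k166 k247 k243 12 14)))), (.s k20 k215 8 (.s k28 k211 10 (.s
  k16 k24 1 (.s k223 k154 10 (.d k93 k81 k158 1 8))))), (.s k20 k215 8 (.s k60 k40 5 (.s k28 k211 10
  (.s k12 k44 3 (.s k4 k8 1 (.d k166 k247 k243 12 14))))))] .n) (.c k190 (.l (.s k215 k20 8 (.s k195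
  k235 5 (.s k65 k130 8 (.d k105 k125 k60 5 14))))) (.c k195 (.q k89 [(.s k81 k93 1 (.s k243 k162 12
  (.s k247 k251 1 (.d k166 k4 k12 12 14)))), (.s k20 k215 8 (.s k28 k211 10 (.s k16 k24 1 (.s k223
  k154 10 (.d k93 k81 k158 1 8))))), (.s k20 k215 8 (.s k60 k40 5 (.s k28 k211 10 (.s k12 k44 3 (.s
  k4 k8 1 (.d k166 k243 k247 14 12))))))] (.c k107 (.q k151 [(.s k81 k93 1 (.s k243 k162 12 (.s k247
  k251 1 (.d k166 k4 k12 12 14)))), (.s k215 k20 8 (.s k23 k87 7 (.s k149 k148 0 (.s k213 k21 7 (.d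
  k212 k214 k86 0 8)))))] (.c k247 (.l (.s k20 k215 8 (.s k60 k40 5 (.s k28 k211 10 (.s k12 k44 3
  (.d k93 k81 k174 1 12)))))) .n)) (.c k151 (.q k107 [(.s k81 k93 1 (.s k243 k162 12 (.s k247 k251 1
  (.d k166 k4 k12 12 14)))), (.s k20 k215 8 (.s k28 k211 10 (.s k16 k24 1 (.s k223 k154 10 (.d k93
  k81 k158 1 8))))), (.s k20 k215 8 (.s k60 k40 5 (.s k28 k211 10 (.s k12 k44 3 (.s k4 k8 1 (.d k166
  k243 k247 14 12))))))] (.c k243 (.l (.s k20 k215 8 (.s k60 k40 5 (.s k93 k81 1 (.s k12 k174 12 (.d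
  k28 k44 k211 3 10)))))) .n)) (.c k243 (.l (.s k20 k215 8 (.s k60 k40 5 (.s k93 k81 1 (.s k12 k174
  12 (.d k28 k44 k211 3 10)))))) .n)))) (.c k215 (.q k89 [(.s k81 k93 1 (.s k243 k162 12 (.s k247
  k251 1 (.d k166 k4 k12 12 14)))), (.s k28 k211 10 (.s k93 k81 1 (.s k223 k158 8 (.s k16 k154 10
  (.s k48 k32 3 (.s k24 k20 1 (.d k12 k36 k174 5 12)))))))] (.c k12 (.l (.s k211 k28 10 (.s k81 k93
  1 (.s k243 k162 12 (.s k195 k227 3 (.s k65 k130 8 (.d k105 k60 k125 14 5))))))) (.c k81 (.q k20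
  [(.s k60 k40 5 (.s k125 k190 8 (.d k105 k65 k195 5 14))), (.s k28 k211 10 (.s k16 k24 1 (.s k48
  k32 3 (.s k117 k186 10 (.s k101 k69 3 (.d k154 k223 k207 10 14))))))] .n) (.c k93 (.q k20 [(.s k60
  k40 5 (.s k125 k190 8 (.d k105 k65 k195 5 14))), (.s k28 k211 10 (.s k16 k24 1 (.s k48 k32 3 (.s
  k117 k186 10 (.s k101 k69 3 (.d k154 k223 k207 10 14))))))] .n) (.c k174 (.l (.s k81 k93 1 (.s
  k243 k162 12 (.s k166 k12 14 (.d k247 k251 k4 1 12))))) .n))))) (.c k235 (.l (.s k20 k215 8 (.s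
  k60 k40 5 (.s k105 k195 14 (.d k125 k65 k190 5 8))))) .n))))))))))))

def t15 : T TT 256 :=
  (.q k12 [(.s k4 k8 1 (.s k85 k170 14 (.s k166 k247 12 (.s k93 k174 12 (.d k89 k81 k243 1 14)))))]
  (.c k4 (.f k85 k170 14 (.q k195 [(.s k65 k130 8 (.s k105 k125 5 (.s k215 k235 5 (.d k150 k20 k60 8
  14)))), (.s k73 k134 10 (.s k93 k174 12 (.s k89 k81 1 (.s k105 k121 3 (.d k65 k125 k130 5 8))))),
  (.s k134 k73 10 (.s k93 k174 12 (.s k89 k81 1 (.s k166 k243 14 (.s k150 k182 3 (.d k215 k235 k20 5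
  8))))))] (.c k31 (.q k47 [(.s k65 k130 8 (.s k105 k125 5 (.s k215 k235 5 (.d k150 k20 k60 8
  14)))), (.s k73 k134 10 (.s k93 k174 12 (.s k89 k81 1 (.s k105 k121 3 (.d k65 k125 k130 5 8))))),
  (.s k134 k73 10 (.s k93 k174 12 (.s k89 k81 1 (.s k166 k243 14 (.s k150 k182 3 (.d k215 k235 k20 5
  8))))))] .n) (.c k47 (.q k31 [(.s k65 k130 8 (.s k105 k125 5 (.s k215 k235 5 (.d k150 k20 k60 8
  14)))), (.s k73 k134 10 (.s k93 k174 12 (.s k89 k81 1 (.s k105 k121 3 (.d k65 k125 k130 5 8))))),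
  (.s k134 k73 10 (.s k93 k174 12 (.s k89 k81 1 (.s k166 k243 14 (.s k150 k182 3 (.d k215 k235 k20 5
  8))))))] .n) .n)))) (.c k8 (.q k20 [(.s k60 k40 5 (.s k85 k170 14 (.s k150 k215 8 (.s k125 k190 8
  (.d k105 k65 k195 5 14))))), (.s k60 k40 5 (.s k28 k44 3 (.s k93 k174 12 (.s k158 k223 8 (.s k109
  k207 12 (.d k125 k77 k190 3 8)))))), (.s k85 k170 14 (.s k93 k174 12 (.s k150 k215 8 (.s k89 k81 1
  (.s k28 k211 10 (.d k60 k44 k40 3 5)))))), (.s k85 k170 14 (.s k93 k174 12 (.s k150 k215 8 (.s k89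
  k81 1 (.s k28 k211 10 (.s k223 k158 8 (.d k16 k24 k154 1 10)))))))] (.c k31 (.q k47 [(.s k60 k40 5
  (.s k85 k170 14 (.s k150 k215 8 (.s k125 k190 8 (.d k105 k65 k195 5 14))))), (.s k60 k40 5 (.s k28
  k44 3 (.s k93 k174 12 (.s k158 k223 8 (.s k109 k207 12 (.d k125 k77 k190 3 8)))))), (.s k85 k170
  14 (.s k93 k174 12 (.s k150 k215 8 (.s k89 k81 1 (.s k28 k211 10 (.d k60 k44 k40 3 5)))))), (.s
  k85 k170 14 (.s k93 k174 12 (.s k150 k215 8 (.s k89 k81 1 (.s k28 k211 10 (.s k223 k158 8 (.d k16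
  k24 k154 1 10)))))))] .n) (.c k47 (.q k31 [(.s k60 k40 5 (.s k85 k170 14 (.s k150 k215 8 (.s k125
  k190 8 (.d k105 k65 k195 5 14))))), (.s k60 k40 5 (.s k28 k44 3 (.s k93 k174 12 (.s k158 k223 8
  (.s k109 k207 12 (.d k125 k77 k190 3 8)))))), (.s k85 k170 14 (.s k93 k174 12 (.s k150 k215 8 (.s
  k89 k81 1 (.s k28 k211 10 (.d k60 k44 k40 3 5)))))), (.s k85 k170 14 (.s k93 k174 12 (.s k150 k215
  8 (.s k89 k81 1 (.s k28 k211 10 (.s k223 k158 8 (.d k16 k24 k154 1 10)))))))] .n) .n))) (.c k31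
  (.q k47 [(.s k4 k8 1 (.s k85 k170 14 (.s k166 k247 12 (.s k93 k174 12 (.d k89 k81 k243 1 14)))))]
  (.c k4 (.q k20 [(.s k60 k40 5 (.s k85 k170 14 (.s k150 k215 8 (.s k125 k190 8 (.d k105 k65 k195 5
  14))))), (.s k85 k170 14 (.s k93 k174 12 (.s k150 k215 8 (.s k89 k81 1 (.s k28 k211 10 (.s k16 k24
  1 (.d k223 k158 k154 8 10))))))), (.s k60 k40 5 (.s k28 k44 3 (.s k93 k174 12 (.s k158 k223 8 (.s
  k109 k207 12 (.d k125 k77 k190 3 8))))))] .n) (.c k8 (.q k20 [(.s k60 k40 5 (.s k85 k170 14 (.s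
  k150 k215 8 (.s k125 k190 8 (.d k105 k65 k195 5 14))))), (.s k60 k40 5 (.s k28 k44 3 (.s k93 k174
  12 (.s k158 k223 8 (.s k109 k207 12 (.d k125 k77 k190 3 8)))))), (.s k85 k170 14 (.s k93 k174 12
  (.s k150 k215 8 (.s k89 k81 1 (.s k28 k211 10 (.d k60 k44 k40 3 5)))))), (.s k85 k170 14 (.s k93
  k174 12 (.s k150 k215 8 (.s k89 k81 1 (.s k28 k211 10 (.s k223 k158 8 (.d k16 k24 k154 1
  10)))))))] .n) (.c k81 (.l (.s k8 k4 1 (.s k170 k85 14 (.s k89 k251 12 (.s k166 k243 14 (.d k174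
  k93 k162 12 1)))))) (.c k85 (.q k44 [(.s k8 k4 1 (.s k60 k28 3 (.s k40 k20 5 (.s k24 k56 3 (.d k36
  k32 k48 1 5))))), (.s k174 k93 12 (.s k45 k46 0 (.s k109 k239 8 (.s k173 k237 7 (.s k236 k110 8
  (.d k172 k175 k108 0 7))))))] .n) (.c k89 (.q k195 [(.s k8 k4 1 (.s k65 k130 8 (.s k73 k134 10 (.s
  k138 k203 8 (.d k69 k77 k207 1 10))))), (.s k130 k65 8 (.s k170 k85 14 (.s k150 k190 5 (.s k105
  k60 14 (.d k235 k215 k40 5 8))))), (.s k85 k170 14 (.s k134 k73 10 (.s k215 k235 5 (.s k150 k20 8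
  (.s k166 k182 3 (.d k4 k8 k247 1 12))))))] .n) (.c k93 (.q k195 [(.s k4 k8 1 (.s k130 k65 8 (.s
  k134 k73 10 (.s k69 k199 8 (.d k138 k142 k207 1 10))))), (.s k65 k130 8 (.s k85 k170 14 (.s k105
  k125 5 (.s k150 k60 14 (.d k215 k235 k20 5 8))))), (.s k4 k8 1 (.s k85 k170 14 (.s k166 k247 12
  (.s k134 k73 10 (.s k150 k182 3 (.d k215 k235 k20 5 8))))))] .n) (.c k166 (.q k195 [(.s k4 k8 1
  (.s k130 k65 8 (.s k134 k73 10 (.s k69 k199 8 (.d k138 k142 k207 1 10))))), (.s k65 k130 8 (.s k85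
  k170 14 (.s k105 k125 5 (.s k150 k60 14 (.d k215 k235 k20 5 8))))), (.s k170 k85 14 (.s k73 k134
  10 (.s k235 k215 5 (.s k105 k40 8 (.s k89 k121 3 (.d k8 k4 k251 1 12))))))] .n) (.c k170 (.q k44
  [(.s k8 k4 1 (.s k60 k28 3 (.s k40 k20 5 (.s k24 k56 3 (.d k36 k32 k48 1 5))))), (.s k174 k93 12
  (.s k45 k46 0 (.s k109 k239 8 (.s k173 k237 7 (.s k236 k110 8 (.d k172 k175 k108 0 7))))))] (.c
  k32 (.l (.s k60 k28 3 (.s k174 k93 12 (.s k190 k125 8 (.s k158 k142 3 (.d k109 k239 k207 8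
  12)))))) .n)) (.c k174 (.q k195 [(.s k4 k8 1 (.s k130 k65 8 (.s k134 k73 10 (.s k69 k199 8 (.d
  k138 k142 k207 1 10))))), (.s k65 k130 8 (.s k85 k170 14 (.s k105 k125 5 (.s k150 k60 14 (.d k215
  k235 k20 5 8))))), (.s k4 k8 1 (.s k85 k170 14 (.s k166 k247 12 (.s k134 k73 10 (.s k150 k182 3
  (.d k215 k235 k20 5 8))))))] .n) (.c k243 (.f k4 k8 1 (.f k93 k174 12 (.q k195 [(.s k130 k65 8 (.s
  k134 k73 10 (.s k69 k199 8 (.d k138 k142 k207 1 10)))), (.s k65 k130 8 (.s k85 k170 14 (.s k105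
  k125 5 (.s k150 k60 14 (.d k215 k235 k20 5 8))))), (.s k85 k170 14 (.s k166 k247 12 (.s k134 k73
  10 (.s k150 k182 3 (.d k215 k235 k20 5 8)))))] (.c k91 (.q k167 [(.s k130 k65 8 (.s k134 k73 10
  (.s k69 k199 8 (.d k138 k142 k207 1 10)))), (.s k65 k130 8 (.s k85 k170 14 (.s k166 k247 12 (.s
  k227 k107 9 (.d k105 k125 k44 5 10))))), (.s k85 k170 14 (.s k166 k247 12 (.s k134 k73 10 (.s k150
  k182 3 (.d k215 k235 k20 5 8)))))] (.c k123 (.q k183 [(.s k130 k65 8 (.s k134 k73 10 (.s k69 k199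
  8 (.d k138 k142 k207 1 10)))), (.s k65 k130 8 (.s k85 k170 14 (.s k166 k247 12 (.s k105 k125 5 (.d
  k227 k107 k44 9 10))))), (.s k85 k170 14 (.s k166 k247 12 (.s k134 k73 10 (.s k132 k149 4 (.d k135
  k151 k133 3 0)))))] (.c k75 (.l (.s k107 k227 9 (.s k130 k65 8 (.s k134 k73 10 (.s k69 k199 8 (.d
  k138 k142 k207 1 10)))))) (.c k107 (.q k75 [(.s k130 k65 8 (.s k134 k73 10 (.s k69 k199 8 (.d k138
  k142 k207 1 10)))), (.s k85 k170 14 (.s k166 k247 12 (.s k73 k134 10 (.s k72 k74 0 (.d k132 k192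
  k149 9 4))))), (.s k65 k130 8 (.s k85 k170 14 (.s k105 k125 5 (.s k150 k60 14 (.d k215 k235 k20 5
  8)))))] (.c k151 (.q k211 [(.s k130 k65 8 (.s k134 k73 10 (.s k69 k199 8 (.d k138 k142 k207 1
  10)))), (.s k85 k170 14 (.s k89 k81 1 (.s k150 k28 10 (.d k215 k235 k20 5 8))))] .n) (.c k211 (.l
  (.s k151 k135 3 (.s k130 k65 8 (.s k134 k73 10 (.s k69 k199 8 (.d k138 k142 k207 1 10)))))) .n)))
  (.c k151 (.q k211 [(.s k130 k65 8 (.s k134 k73 10 (.s k69 k199 8 (.d k138 k142 k207 1 10)))), (.s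
  k85 k170 14 (.s k89 k81 1 (.s k150 k28 10 (.d k215 k235 k20 5 8))))] (.c k75 (.l (.s k107 k227 9
  (.s k130 k65 8 (.s k134 k73 10 (.s k69 k199 8 (.d k138 k142 k207 1 10)))))) (.c k107 (.q k75 [(.s
  k130 k65 8 (.s k134 k73 10 (.s k69 k199 8 (.d k138 k142 k207 1 10)))), (.s k85 k170 14 (.s k89 k81
  1 (.s k150 k28 10 (.d k215 k235 k20 5 8))))] .n) .n))) (.c k211 (.l (.s k151 k135 3 (.s k130 k65 8
  (.s k134 k73 10 (.s k69 k199 8 (.d k138 k142 k207 1 10)))))) .n))))) (.c k151 (.q k211 [(.s k130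
  k65 8 (.s k134 k73 10 (.s k69 k199 8 (.d k138 k142 k207 1 10)))), (.s k85 k170 14 (.s k89 k81 1
  (.s k150 k28 10 (.d k215 k235 k20 5 8))))] (.c k123 (.q k183 [(.s k130 k65 8 (.s k134 k73 10 (.s
  k69 k199 8 (.d k138 k142 k207 1 10)))), (.s k85 k170 14 (.s k89 k81 1 (.s k150 k28 10 (.d k215
  k235 k20 5 8))))] (.c k75 (.l (.s k107 k227 9 (.s k130 k65 8 (.s k134 k73 10 (.s k69 k199 8 (.d
  k138 k142 k207 1 10)))))) (.c k107 (.q k75 [(.s k130 k65 8 (.s k134 k73 10 (.s k69 k199 8 (.d k138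
  k142 k207 1 10)))), (.s k85 k170 14 (.s k89 k81 1 (.s k150 k28 10 (.d k215 k235 k20 5 8))))] .n)
  .n))) (.c k183 (.q k123 [(.s k130 k65 8 (.s k134 k73 10 (.s k69 k199 8 (.d k138 k142 k207 1
  10)))), (.s k85 k170 14 (.s k89 k81 1 (.s k150 k28 10 (.d k215 k235 k20 5 8))))] .n) .n))) (.c
  k183 (.q k123 [(.s k130 k65 8 (.s k134 k73 10 (.s k69 k199 8 (.d k138 k142 k207 1 10)))), (.s k65
  k130 8 (.s k85 k170 14 (.s k166 k247 12 (.s k227 k107 9 (.d k105 k125 k44 5 10))))), (.s k85 k170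
  14 (.s k166 k247 12 (.s k134 k73 10 (.s k150 k182 3 (.d k215 k235 k20 5 8)))))] (.c k151 (.q k211
  [(.s k130 k65 8 (.s k134 k73 10 (.s k69 k199 8 (.d k138 k142 k207 1 10)))), (.s k85 k170 14 (.s
  k89 k81 1 (.s k150 k28 10 (.d k215 k235 k20 5 8))))] .n) (.c k211 (.q k151 [(.s k130 k65 8 (.s
  k134 k73 10 (.s k69 k199 8 (.d k138 k142 k207 1 10)))), (.s k85 k170 14 (.s k215 k235 5 (.s k87
  k23 7 (.d k247 k166 k7 12 11))))] .n) .n))) (.c k211 (.q k151 [(.s k130 k65 8 (.s k134 k73 10 (.s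
  k69 k199 8 (.d k138 k142 k207 1 10)))), (.s k85 k170 14 (.s k215 k235 5 (.s k87 k23 7 (.d k247
  k166 k7 12 11))))] (.c k123 (.l (.s k183 k135 3 (.s k130 k65 8 (.s k134 k73 10 (.s k69 k199 8 (.d
  k138 k142 k207 1 10)))))) (.c k183 (.q k123 [(.s k130 k65 8 (.s k134 k73 10 (.s k69 k199 8 (.d
  k138 k142 k207 1 10)))), (.s k85 k170 14 (.s k215 k235 5 (.s k87 k23 7 (.d k247 k166 k7 12 11))))]
  .n) .n))) .n))))) (.c k123 (.q k183 [(.s k130 k65 8 (.s k134 k73 10 (.s k69 k199 8 (.d k138 k142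
  k207 1 10)))), (.s k65 k130 8 (.s k85 k170 14 (.s k105 k125 5 (.s k150 k60 14 (.d k215 k235 k20 5
  8))))), (.s k85 k170 14 (.s k166 k247 12 (.s k134 k73 10 (.s k150 k182 3 (.d k215 k235 k20 5
  8)))))] (.c k91 (.q k167 [(.s k130 k65 8 (.s k134 k73 10 (.s k69 k199 8 (.d k138 k142 k207 1
  10)))), (.s k65 k130 8 (.s k85 k170 14 (.s k166 k247 12 (.s k105 k125 5 (.d k227 k107 k44 9
  10))))), (.s k85 k170 14 (.s k166 k247 12 (.s k134 k73 10 (.s k132 k149 4 (.d k135 k151 k133 3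
  0)))))] (.c k75 (.l (.s k107 k227 9 (.s k130 k65 8 (.s k134 k73 10 (.s k69 k199 8 (.d k138 k142
  k207 1 10)))))) (.c k107 (.q k75 [(.s k130 k65 8 (.s k134 k73 10 (.s k69 k199 8 (.d k138 k142 k207
  1 10)))), (.s k85 k170 14 (.s k166 k247 12 (.s k73 k134 10 (.s k72 k74 0 (.d k132 k192 k149 9
  4))))), (.s k65 k130 8 (.s k85 k170 14 (.s k105 k125 5 (.s k150 k60 14 (.d k215 k235 k20 5 8)))))]
  (.c k151 (.q k211 [(.s k130 k65 8 (.s k134 k73 10 (.s k69 k199 8 (.d k138 k142 k207 1 10)))), (.s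
  k85 k170 14 (.s k89 k81 1 (.s k150 k28 10 (.d k215 k235 k20 5 8))))] .n) (.c k211 (.l (.s k151
  k135 3 (.s k130 k65 8 (.s k134 k73 10 (.s k69 k199 8 (.d k138 k142 k207 1 10)))))) .n))) (.c k151
  (.q k211 [(.s k130 k65 8 (.s k134 k73 10 (.s k69 k199 8 (.d k138 k142 k207 1 10)))), (.s k85 k170
  14 (.s k89 k81 1 (.s k150 k28 10 (.d k215 k235 k20 5 8))))] (.c k75 (.l (.s k107 k227 9 (.s k130
  k65 8 (.s k134 k73 10 (.s k69 k199 8 (.d k138 k142 k207 1 10)))))) (.c k107 (.q k75 [(.s k130 k65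
  8 (.s k134 k73 10 (.s k69 k199 8 (.d k138 k142 k207 1 10)))), (.s k85 k170 14 (.s k89 k81 1 (.s
  k150 k28 10 (.d k215 k235 k20 5 8))))] .n) .n))) (.c k211 (.l (.s k151 k135 3 (.s k130 k65 8 (.s
  k134 k73 10 (.s k69 k199 8 (.d k138 k142 k207 1 10)))))) .n))))) (.c k167 (.q k91 [(.s k130 k65 8
  (.s k134 k73 10 (.s k69 k199 8 (.d k138 k142 k207 1 10)))), (.s k65 k130 8 (.s k85 k170 14 (.s
  k105 k125 5 (.s k150 k60 14 (.d k215 k235 k20 5 8))))), (.s k85 k170 14 (.s k166 k247 12 (.s k134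
  k73 10 (.s k150 k182 3 (.d k215 k235 k20 5 8)))))] .n) .n))) (.c k167 (.q k91 [(.s k130 k65 8 (.s
  k134 k73 10 (.s k69 k199 8 (.d k138 k142 k207 1 10)))), (.s k65 k130 8 (.s k85 k170 14 (.s k105
  k125 5 (.s k150 k60 14 (.d k215 k235 k20 5 8))))), (.s k85 k170 14 (.s k166 k247 12 (.s k134 k73
  10 (.s k150 k182 3 (.d k215 k235 k20 5 8)))))] (.c k123 (.q k183 [(.s k130 k65 8 (.s k134 k73 10
  (.s k69 k199 8 (.d k138 k142 k207 1 10)))), (.s k65 k130 8 (.s k85 k170 14 (.s k105 k125 5 (.s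
  k150 k60 14 (.d k215 k235 k20 5 8))))), (.s k85 k170 14 (.s k166 k247 12 (.s k134 k73 10 (.s k150
  k182 3 (.d k215 k235 k20 5 8)))))] .n) (.c k183 (.q k123 [(.s k130 k65 8 (.s k134 k73 10 (.s k69
  k199 8 (.d k138 k142 k207 1 10)))), (.s k65 k130 8 (.s k85 k170 14 (.s k105 k125 5 (.s k150 k60 14
  (.d k215 k235 k20 5 8))))), (.s k85 k170 14 (.s k166 k247 12 (.s k134 k73 10 (.s k150 k182 3 (.d
  k215 k235 k20 5 8)))))] (.c k135 (.q k151 [(.s k130 k65 8 (.s k134 k73 10 (.s k69 k199 8 (.d k138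
  k142 k207 1 10)))), (.s k65 k130 8 (.s k85 k170 14 (.s k105 k125 5 (.s k150 k60 14 (.d k215 k235
  k20 5 8))))), (.s k85 k170 14 (.s k166 k247 12 (.s k134 k73 10 (.s k150 k182 3 (.d k215 k235 k20 5
  8)))))] .n) (.c k151 (.q k135 [(.s k130 k65 8 (.s k134 k73 10 (.s k69 k199 8 (.d k138 k142 k207 1
  10)))), (.s k65 k130 8 (.s k85 k170 14 (.s k105 k125 5 (.s k150 k60 14 (.d k215 k235 k20 5 8))))),
  (.s k85 k170 14 (.s k166 k247 12 (.s k134 k73 10 (.s k150 k182 3 (.d k215 k235 k20 5 8)))))] .n)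
  .n))) .n))) (.c k183 (.q k123 [(.s k130 k65 8 (.s k134 k73 10 (.s k69 k199 8 (.d k138 k142 k207 1
  10)))), (.s k65 k130 8 (.s k85 k170 14 (.s k105 k125 5 (.s k150 k60 14 (.d k215 k235 k20 5 8))))),
  (.s k85 k170 14 (.s k166 k247 12 (.s k134 k73 10 (.s k150 k182 3 (.d k215 k235 k20 5 8)))))] (.c
  k91 (.q k167 [(.s k130 k65 8 (.s k134 k73 10 (.s k69 k199 8 (.d k138 k142 k207 1 10)))), (.s k65
  k130 8 (.s k85 k170 14 (.s k166 k247 12 (.s k227 k107 9 (.d k105 k125 k44 5 10))))), (.s k85 k170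
  14 (.s k166 k247 12 (.s k134 k73 10 (.s k150 k182 3 (.d k215 k235 k20 5 8)))))] (.c k151 (.q k211
  [(.s k130 k65 8 (.s k134 k73 10 (.s k69 k199 8 (.d k138 k142 k207 1 10)))), (.s k85 k170 14 (.s
  k89 k81 1 (.s k150 k28 10 (.d k215 k235 k20 5 8))))] .n) (.c k211 (.q k151 [(.s k130 k65 8 (.s
  k134 k73 10 (.s k69 k199 8 (.d k138 k142 k207 1 10)))), (.s k85 k170 14 (.s k215 k235 5 (.s k87
  k23 7 (.d k247 k166 k7 12 11))))] .n) .n))) (.c k167 (.q k91 [(.s k130 k65 8 (.s k134 k73 10 (.s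
  k69 k199 8 (.d k138 k142 k207 1 10)))), (.s k65 k130 8 (.s k85 k170 14 (.s k105 k125 5 (.s k150
  k60 14 (.d k215 k235 k20 5 8))))), (.s k85 k170 14 (.s k166 k247 12 (.s k134 k73 10 (.s k150 k182
  3 (.d k215 k235 k20 5 8)))))] (.c k135 (.q k151 [(.s k130 k65 8 (.s k134 k73 10 (.s k69 k199 8 (.d
  k138 k142 k207 1 10)))), (.s k65 k130 8 (.s k85 k170 14 (.s k105 k125 5 (.s k150 k60 14 (.d k215
  k235 k20 5 8))))), (.s k85 k170 14 (.s k166 k247 12 (.s k134 k73 10 (.s k150 k182 3 (.d k215 k235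
  k20 5 8)))))] .n) (.c k151 (.q k135 [(.s k130 k65 8 (.s k134 k73 10 (.s k69 k199 8 (.d k138 k142
  k207 1 10)))), (.s k65 k130 8 (.s k85 k170 14 (.s k105 k125 5 (.s k150 k60 14 (.d k215 k235 k20 5
  8))))), (.s k85 k170 14 (.s k166 k247 12 (.s k134 k73 10 (.s k150 k182 3 (.d k215 k235 k20 5
  8)))))] .n) .n))) .n))) .n))))))) (.c k247 (.l (.s k8 k4 1 (.s k174 k93 12 (.s k170 k85 14 (.s
  k166 k162 1 (.d k89 k251 k243 12 14)))))) (.c k251 (.l (.s k4 k8 1 (.s k93 k174 12 (.s k85 k170 14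
  (.s k89 k81 1 (.d k166 k247 k243 12 14)))))) .n))))))))))))) (.c k47 (.q k31 [(.s k4 k8 1 (.s k85
  k170 14 (.s k166 k247 12 (.s k93 k174 12 (.d k89 k81 k243 1 14)))))] (.c k4 (.q k20 [(.s k60 k40 5
  (.s k85 k170 14 (.s k150 k215 8 (.s k125 k190 8 (.d k105 k65 k195 5 14))))), (.s k85 k170 14 (.s
  k93 k174 12 (.s k150 k215 8 (.s k89 k81 1 (.s k28 k211 10 (.s k16 k24 1 (.d k223 k158 k154 8
  10))))))), (.s k60 k40 5 (.s k28 k44 3 (.s k93 k174 12 (.s k158 k223 8 (.s k109 k207 12 (.d k125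
  k77 k190 3 8))))))] .n) (.c k8 (.q k20 [(.s k60 k40 5 (.s k85 k170 14 (.s k150 k215 8 (.s k125
  k190 8 (.d k105 k65 k195 5 14))))), (.s k60 k40 5 (.s k28 k44 3 (.s k93 k174 12 (.s k158 k223 8
  (.s k109 k207 12 (.d k125 k77 k190 3 8)))))), (.s k85 k170 14 (.s k93 k174 12 (.s k150 k215 8 (.s
  k89 k81 1 (.s k28 k211 10 (.d k60 k44 k40 3 5)))))), (.s k85 k170 14 (.s k93 k174 12 (.s k150 k215
  8 (.s k89 k81 1 (.s k28 k211 10 (.s k223 k158 8 (.d k16 k24 k154 1 10)))))))] .n) (.c k81 (.l (.s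
  k8 k4 1 (.s k170 k85 14 (.s k89 k251 12 (.s k166 k243 14 (.d k174 k93 k162 12 1)))))) (.c k85 (.q
  k28 [(.s k4 k8 1 (.s k60 k44 3 (.s k20 k40 5 (.s k36 k52 3 (.d k24 k16 k48 1 5))))), (.s k93 k174
  12 (.s k30 k29 0 (.s k158 k223 8 (.s k94 k222 7 (.s k220 k157 8 (.d k92 k95 k156 0 7))))))] (.c
  k16 (.l (.s k60 k44 3 (.s k93 k174 12 (.s k125 k190 8 (.s k109 k77 3 (.d k158 k223 k207 8 12))))))
  .n)) (.c k89 (.q k195 [(.s k8 k4 1 (.s k65 k130 8 (.s k73 k134 10 (.s k138 k203 8 (.d k69 k77 k207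
  1 10))))), (.s k130 k65 8 (.s k170 k85 14 (.s k150 k190 5 (.s k105 k60 14 (.d k235 k215 k40 5
  8))))), (.s k85 k170 14 (.s k134 k73 10 (.s k215 k235 5 (.s k150 k20 8 (.s k166 k182 3 (.d k4 k8
  k247 1 12))))))] .n) (.c k93 (.q k195 [(.s k4 k8 1 (.s k130 k65 8 (.s k134 k73 10 (.s k69 k199 8
  (.d k138 k142 k207 1 10))))), (.s k65 k130 8 (.s k85 k170 14 (.s k105 k125 5 (.s k150 k60 14 (.d
  k215 k235 k20 5 8))))), (.s k4 k8 1 (.s k85 k170 14 (.s k166 k247 12 (.s k134 k73 10 (.s k150 k182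
  3 (.d k215 k235 k20 5 8))))))] .n) (.c k166 (.q k195 [(.s k4 k8 1 (.s k130 k65 8 (.s k134 k73 10
  (.s k69 k199 8 (.d k138 k142 k207 1 10))))), (.s k65 k130 8 (.s k85 k170 14 (.s k105 k125 5 (.s
  k150 k60 14 (.d k215 k235 k20 5 8))))), (.s k170 k85 14 (.s k73 k134 10 (.s k235 k215 5 (.s k105
  k40 8 (.s k89 k121 3 (.d k8 k4 k251 1 12))))))] .n) (.c k170 (.q k28 [(.s k4 k8 1 (.s k60 k44 3
  (.s k20 k40 5 (.s k36 k52 3 (.d k24 k16 k48 1 5))))), (.s k93 k174 12 (.s k30 k29 0 (.s k158 k223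
  8 (.s k94 k222 7 (.s k220 k157 8 (.d k92 k95 k156 0 7))))))] .n) (.c k174 (.q k195 [(.s k4 k8 1
  (.s k130 k65 8 (.s k134 k73 10 (.s k69 k199 8 (.d k138 k142 k207 1 10))))), (.s k65 k130 8 (.s k85
  k170 14 (.s k105 k125 5 (.s k150 k60 14 (.d k215 k235 k20 5 8))))), (.s k4 k8 1 (.s k85 k170 14
  (.s k166 k247 12 (.s k134 k73 10 (.s k150 k182 3 (.d k215 k235 k20 5 8))))))] .n) (.c k243 (.f k4
  k8 1 (.f k93 k174 12 (.q k195 [(.s k130 k65 8 (.s k134 k73 10 (.s k69 k199 8 (.d k138 k142 k207 1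
  10)))), (.s k65 k130 8 (.s k85 k170 14 (.s k105 k125 5 (.s k150 k60 14 (.d k215 k235 k20 5 8))))),
  (.s k85 k170 14 (.s k166 k247 12 (.s k134 k73 10 (.s k150 k182 3 (.d k215 k235 k20 5 8)))))] (.c
  k91 (.q k167 [(.s k130 k65 8 (.s k134 k73 10 (.s k69 k199 8 (.d k138 k142 k207 1 10)))), (.s k65
  k130 8 (.s k85 k170 14 (.s k105 k125 5 (.s k150 k60 14 (.d k215 k235 k20 5 8))))), (.s k85 k170 14
  (.s k166 k247 12 (.s k134 k73 10 (.s k150 k182 3 (.d k215 k235 k20 5 8)))))] (.c k123 (.q k183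
  [(.s k130 k65 8 (.s k134 k73 10 (.s k69 k199 8 (.d k138 k142 k207 1 10)))), (.s k65 k130 8 (.s k85
  k170 14 (.s k105 k125 5 (.s k150 k60 14 (.d k215 k235 k20 5 8))))), (.s k85 k170 14 (.s k166 k247
  12 (.s k134 k73 10 (.s k132 k149 4 (.d k135 k133 k151 0 3)))))] (.c k75 (.q k107 [(.s k130 k65 8
  (.s k134 k73 10 (.s k69 k199 8 (.d k138 k142 k207 1 10)))), (.s k65 k130 8 (.s k85 k170 14 (.s
  k105 k125 5 (.s k150 k60 14 (.d k215 k235 k20 5 8))))), (.s k85 k170 14 (.s k166 k247 12 (.s k134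
  k73 10 (.s k132 k149 4 (.d k135 k133 k151 0 3)))))] .n) (.c k107 (.q k75 [(.s k130 k65 8 (.s k134
  k73 10 (.s k69 k199 8 (.d k138 k142 k207 1 10)))), (.s k85 k170 14 (.s k166 k247 12 (.s k73 k134
  10 (.s k72 k74 0 (.d k132 k192 k149 9 4))))), (.s k65 k130 8 (.s k85 k170 14 (.s k105 k125 5 (.s
  k150 k60 14 (.d k215 k235 k20 5 8)))))] .n) .n))) (.c k183 (.q k123 [(.s k130 k65 8 (.s k134 k73
  10 (.s k69 k199 8 (.d k138 k142 k207 1 10)))), (.s k65 k130 8 (.s k85 k170 14 (.s k105 k125 5 (.s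
  k150 k60 14 (.d k215 k235 k20 5 8))))), (.s k85 k170 14 (.s k166 k247 12 (.s k134 k73 10 (.s k150
  k182 3 (.d k215 k235 k20 5 8)))))] .n) .n))) (.c k123 (.q k183 [(.s k130 k65 8 (.s k134 k73 10 (.s
  k69 k199 8 (.d k138 k142 k207 1 10)))), (.s k65 k130 8 (.s k85 k170 14 (.s k105 k125 5 (.s k150
  k60 14 (.d k215 k235 k20 5 8))))), (.s k85 k170 14 (.s k166 k247 12 (.s k134 k73 10 (.s k150 k182
  3 (.d k215 k235 k20 5 8)))))] (.c k91 (.q k167 [(.s k130 k65 8 (.s k134 k73 10 (.s k69 k199 8 (.d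
  k138 k142 k207 1 10)))), (.s k65 k130 8 (.s k85 k170 14 (.s k105 k125 5 (.s k150 k60 14 (.d k215
  k235 k20 5 8))))), (.s k85 k170 14 (.s k166 k247 12 (.s k134 k73 10 (.s k132 k149 4 (.d k135 k133
  k151 0 3)))))] (.c k75 (.q k107 [(.s k130 k65 8 (.s k134 k73 10 (.s k69 k199 8 (.d k138 k142 k207
  1 10)))), (.s k65 k130 8 (.s k85 k170 14 (.s k105 k125 5 (.s k150 k60 14 (.d k215 k235 k20 5
  8))))), (.s k85 k170 14 (.s k166 k247 12 (.s k134 k73 10 (.s k132 k149 4 (.d k135 k133 k151 0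
  3)))))] .n) (.c k107 (.q k75 [(.s k130 k65 8 (.s k134 k73 10 (.s k69 k199 8 (.d k138 k142 k207 1
  10)))), (.s k85 k170 14 (.s k166 k247 12 (.s k73 k134 10 (.s k72 k74 0 (.d k132 k192 k149 9
  4))))), (.s k65 k130 8 (.s k85 k170 14 (.s k105 k125 5 (.s k150 k60 14 (.d k215 k235 k20 5 8)))))]
  .n) .n))) (.c k167 (.q k91 [(.s k130 k65 8 (.s k134 k73 10 (.s k69 k199 8 (.d k138 k142 k207 1
  10)))), (.s k65 k130 8 (.s k85 k170 14 (.s k105 k125 5 (.s k150 k60 14 (.d k215 k235 k20 5 8))))),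
  (.s k85 k170 14 (.s k166 k247 12 (.s k134 k73 10 (.s k150 k182 3 (.d k215 k235 k20 5 8)))))] (.c
  k107 (.q k227 [(.s k130 k65 8 (.s k134 k73 10 (.s k69 k199 8 (.d k138 k142 k207 1 10)))), (.s k65
  k130 8 (.s k85 k170 14 (.s k166 k247 12 (.d k105 k125 k44 5 10)))), (.s k85 k170 14 (.s k166 k247
  12 (.s k73 k134 10 (.s k105 k44 10 (.d k89 k81 k121 1 3)))))] .n) (.c k227 (.q k107 [(.s k130 k65
  8 (.s k134 k73 10 (.s k69 k199 8 (.d k138 k142 k207 1 10)))), (.s k65 k130 8 (.s k85 k170 14 (.s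
  k105 k125 5 (.s k150 k60 14 (.d k215 k235 k20 5 8))))), (.s k85 k170 14 (.s k166 k247 12 (.s k134
  k73 10 (.s k150 k182 3 (.d k215 k235 k20 5 8)))))] .n) .n))) .n))) (.c k167 (.q k91 [(.s k130 k65
  8 (.s k134 k73 10 (.s k69 k199 8 (.d k138 k142 k207 1 10)))), (.s k65 k130 8 (.s k85 k170 14 (.s
  k105 k125 5 (.s k150 k60 14 (.d k215 k235 k20 5 8))))), (.s k85 k170 14 (.s k166 k247 12 (.s k134
  k73 10 (.s k150 k182 3 (.d k215 k235 k20 5 8)))))] (.c k107 (.q k227 [(.s k130 k65 8 (.s k134 k73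
  10 (.s k69 k199 8 (.d k138 k142 k207 1 10)))), (.s k65 k130 8 (.s k85 k170 14 (.s k166 k247 12 (.d
  k105 k125 k44 5 10)))), (.s k85 k170 14 (.s k166 k247 12 (.s k73 k134 10 (.s k105 k44 10 (.d k89
  k81 k121 1 3)))))] (.c k123 (.q k183 [(.s k130 k65 8 (.s k134 k73 10 (.s k69 k199 8 (.d k138 k142
  k207 1 10)))), (.s k65 k130 8 (.s k85 k170 14 (.s k166 k247 12 (.d k105 k125 k44 5 10)))), (.s k85
  k170 14 (.s k166 k247 12 (.s k73 k134 10 (.s k105 k44 10 (.d k89 k81 k121 1 3)))))] .n) (.c k183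
  (.q k123 [(.s k130 k65 8 (.s k134 k73 10 (.s k69 k199 8 (.d k138 k142 k207 1 10)))), (.s k65 k130
  8 (.s k85 k170 14 (.s k166 k247 12 (.d k105 k125 k44 5 10)))), (.s k85 k170 14 (.s k166 k247 12
  (.s k73 k134 10 (.s k105 k44 10 (.d k89 k81 k121 1 3)))))] (.c k135 (.l (.s k151 k211 9 (.s k65
  k130 8 (.s k85 k170 14 (.s k166 k247 12 (.d k105 k125 k44 5 10)))))) (.c k151 (.q k135 [(.s k130
  k65 8 (.s k134 k73 10 (.s k69 k199 8 (.d k138 k142 k207 1 10)))), (.s k65 k130 8 (.s k85 k170 14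
  (.s k105 k125 5 (.d k166 k44 k247 10 12)))), (.s k85 k170 14 (.s k166 k247 12 (.s k73 k134 10 (.s
  k105 k44 10 (.d k89 k81 k121 1 3)))))] .n) .n))) .n))) (.c k123 (.q k183 [(.s k130 k65 8 (.s k134
  k73 10 (.s k69 k199 8 (.d k138 k142 k207 1 10)))), (.s k65 k130 8 (.s k85 k170 14 (.s k105 k125 5
  (.s k150 k60 14 (.d k215 k235 k20 5 8))))), (.s k85 k170 14 (.s k166 k247 12 (.s k134 k73 10 (.s
  k150 k182 3 (.d k215 k235 k20 5 8)))))] (.c k107 (.q k227 [(.s k130 k65 8 (.s k134 k73 10 (.s k69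
  k199 8 (.d k138 k142 k207 1 10)))), (.s k65 k130 8 (.s k85 k170 14 (.s k166 k247 12 (.d k105 k125
  k44 5 10)))), (.s k85 k170 14 (.s k166 k247 12 (.s k73 k134 10 (.s k105 k44 10 (.d k89 k81 k121 1
  3)))))] .n) (.c k227 (.q k107 [(.s k130 k65 8 (.s k134 k73 10 (.s k69 k199 8 (.d k138 k142 k207 1
  10)))), (.s k65 k130 8 (.s k85 k170 14 (.s k105 k125 5 (.s k150 k60 14 (.d k215 k235 k20 5 8))))),
  (.s k85 k170 14 (.s k166 k247 12 (.s k134 k73 10 (.s k150 k182 3 (.d k215 k235 k20 5 8)))))] .n)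
  .n))) (.c k183 (.q k123 [(.s k130 k65 8 (.s k134 k73 10 (.s k69 k199 8 (.d k138 k142 k207 1
  10)))), (.s k65 k130 8 (.s k85 k170 14 (.s k105 k125 5 (.s k150 k60 14 (.d k215 k235 k20 5 8))))),
  (.s k85 k170 14 (.s k166 k247 12 (.s k134 k73 10 (.s k150 k182 3 (.d k215 k235 k20 5 8)))))] (.c
  k107 (.q k227 [(.s k130 k65 8 (.s k134 k73 10 (.s k69 k199 8 (.d k138 k142 k207 1 10)))), (.s k65
  k130 8 (.s k85 k170 14 (.s k166 k247 12 (.d k105 k125 k44 5 10)))), (.s k85 k170 14 (.s k166 k247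
  12 (.s k73 k134 10 (.s k105 k44 10 (.d k89 k81 k121 1 3)))))] (.c k135 (.l (.s k151 k211 9 (.s k65
  k130 8 (.s k85 k170 14 (.s k166 k247 12 (.d k105 k125 k44 5 10)))))) (.c k151 (.q k135 [(.s k130
  k65 8 (.s k134 k73 10 (.s k69 k199 8 (.d k138 k142 k207 1 10)))), (.s k65 k130 8 (.s k85 k170 14
  (.s k105 k125 5 (.d k166 k44 k247 10 12)))), (.s k85 k170 14 (.s k166 k247 12 (.s k73 k134 10 (.s
  k105 k44 10 (.d k89 k81 k121 1 3)))))] .n) .n))) (.c k135 (.l (.s k151 k211 9 (.s k130 k65 8 (.s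
  k134 k73 10 (.s k69 k199 8 (.d k138 k142 k207 1 10)))))) (.c k151 (.q k135 [(.s k130 k65 8 (.s
  k134 k73 10 (.s k69 k199 8 (.d k138 k142 k207 1 10)))), (.s k65 k130 8 (.s k85 k170 14 (.s k105
  k125 5 (.s k150 k60 14 (.d k215 k235 k20 5 8))))), (.s k85 k170 14 (.s k166 k247 12 (.s k134 k73
  10 (.s k150 k182 3 (.d k215 k235 k20 5 8)))))] (.c k107 (.q k227 [(.s k130 k65 8 (.s k134 k73 10
  (.s k69 k199 8 (.d k138 k142 k207 1 10)))), (.s k65 k130 8 (.s k85 k170 14 (.s k105 k125 5 (.d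
  k166 k44 k247 10 12)))), (.s k85 k170 14 (.s k166 k247 12 (.s k73 k134 10 (.s k105 k44 10 (.d k89
  k81 k121 1 3)))))] .n) (.c k227 (.l (.s k107 k75 3 (.s k130 k65 8 (.s k134 k73 10 (.s k69 k199 8
  (.d k138 k142 k207 1 10)))))) .n))) (.c k227 (.l (.s k107 k75 3 (.s k130 k65 8 (.s k134 k73 10 (.s
  k69 k199 8 (.d k138 k142 k207 1 10)))))) .n))))) (.c k227 (.q k107 [(.s k130 k65 8 (.s k134 k73 10
  (.s k69 k199 8 (.d k138 k142 k207 1 10)))), (.s k65 k130 8 (.s k85 k170 14 (.s k105 k125 5 (.s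
  k150 k60 14 (.d k215 k235 k20 5 8))))), (.s k85 k170 14 (.s k166 k247 12 (.s k134 k73 10 (.s k150
  k182 3 (.d k215 k235 k20 5 8)))))] (.c k123 (.q k183 [(.s k130 k65 8 (.s k134 k73 10 (.s k69 k199
  8 (.d k138 k142 k207 1 10)))), (.s k65 k130 8 (.s k85 k170 14 (.s k105 k125 5 (.s k150 k60 14 (.d
  k215 k235 k20 5 8))))), (.s k85 k170 14 (.s k166 k247 12 (.s k134 k73 10 (.s k150 k182 3 (.d k215
  k235 k20 5 8)))))] .n) (.c k183 (.l (.s k123 k75 3 (.s k130 k65 8 (.s k134 k73 10 (.s k69 k199 8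
  (.d k138 k142 k207 1 10)))))) .n))) .n))))) (.c k183 (.q k123 [(.s k130 k65 8 (.s k134 k73 10 (.s
  k69 k199 8 (.d k138 k142 k207 1 10)))), (.s k65 k130 8 (.s k85 k170 14 (.s k105 k125 5 (.s k150
  k60 14 (.d k215 k235 k20 5 8))))), (.s k85 k170 14 (.s k166 k247 12 (.s k134 k73 10 (.s k150 k182
  3 (.d k215 k235 k20 5 8)))))] (.c k91 (.q k167 [(.s k130 k65 8 (.s k134 k73 10 (.s k69 k199 8 (.d
  k138 k142 k207 1 10)))), (.s k65 k130 8 (.s k85 k170 14 (.s k105 k125 5 (.s k150 k60 14 (.d k215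
  k235 k20 5 8))))), (.s k85 k170 14 (.s k166 k247 12 (.s k134 k73 10 (.s k150 k182 3 (.d k215 k235
  k20 5 8)))))] .n) (.c k167 (.q k91 [(.s k130 k65 8 (.s k134 k73 10 (.s k69 k199 8 (.d k138 k142
  k207 1 10)))), (.s k65 k130 8 (.s k85 k170 14 (.s k105 k125 5 (.s k150 k60 14 (.d k215 k235 k20 5
  8))))), (.s k85 k170 14 (.s k166 k247 12 (.s k134 k73 10 (.s k150 k182 3 (.d k215 k235 k20 5
  8)))))] (.c k107 (.q k227 [(.s k130 k65 8 (.s k134 k73 10 (.s k69 k199 8 (.d k138 k142 k207 1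
  10)))), (.s k65 k130 8 (.s k85 k170 14 (.s k166 k247 12 (.d k105 k125 k44 5 10)))), (.s k85 k170
  14 (.s k166 k247 12 (.s k73 k134 10 (.s k105 k44 10 (.d k89 k81 k121 1 3)))))] (.c k135 (.l (.s
  k151 k211 9 (.s k65 k130 8 (.s k85 k170 14 (.s k166 k247 12 (.d k105 k125 k44 5 10)))))) (.c k151
  (.q k135 [(.s k130 k65 8 (.s k134 k73 10 (.s k69 k199 8 (.d k138 k142 k207 1 10)))), (.s k65 k130
  8 (.s k85 k170 14 (.s k105 k125 5 (.d k166 k44 k247 10 12)))), (.s k85 k170 14 (.s k166 k247 12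
  (.s k73 k134 10 (.s k105 k44 10 (.d k89 k81 k121 1 3)))))] .n) .n))) (.c k135 (.l (.s k151 k211 9
  (.s k130 k65 8 (.s k134 k73 10 (.s k69 k199 8 (.d k138 k142 k207 1 10)))))) (.c k151 (.q k135 [(.s
  k130 k65 8 (.s k134 k73 10 (.s k69 k199 8 (.d k138 k142 k207 1 10)))), (.s k65 k130 8 (.s k85 k170
  14 (.s k105 k125 5 (.s k150 k60 14 (.d k215 k235 k20 5 8))))), (.s k85 k170 14 (.s k166 k247 12
  (.s k134 k73 10 (.s k150 k182 3 (.d k215 k235 k20 5 8)))))] (.c k107 (.q k227 [(.s k130 k65 8 (.s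
  k134 k73 10 (.s k69 k199 8 (.d k138 k142 k207 1 10)))), (.s k65 k130 8 (.s k85 k170 14 (.s k105
  k125 5 (.d k166 k44 k247 10 12)))), (.s k85 k170 14 (.s k166 k247 12 (.s k73 k134 10 (.s k105 k44
  10 (.d k89 k81 k121 1 3)))))] .n) (.c k227 (.l (.s k107 k75 3 (.s k130 k65 8 (.s k134 k73 10 (.s
  k69 k199 8 (.d k138 k142 k207 1 10)))))) .n))) (.c k227 (.l (.s k107 k75 3 (.s k130 k65 8 (.s k134
  k73 10 (.s k69 k199 8 (.d k138 k142 k207 1 10)))))) .n))))) .n))) .n))))))) (.c k247 (.l (.s k8 k4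
  1 (.s k174 k93 12 (.s k170 k85 14 (.s k166 k162 1 (.d k89 k251 k243 12 14)))))) (.c k251 (.l (.s
  k4 k8 1 (.s k93 k174 12 (.s k85 k170 14 (.s k89 k81 1 (.d k166 k247 k243 12 14))))))
  .n))))))))))))) (.c k81 (.l (.s k8 k4 1 (.s k170 k85 14 (.s k89 k251 12 (.s k166 k243 14 (.d k174
  k93 k162 12 1)))))) (.c k85 (.q k44 [(.s k8 k4 1 (.s k60 k28 3 (.s k40 k20 5 (.s k24 k56 3 (.d k36
  k32 k48 1 5))))), (.s k60 k28 3 (.s k174 k93 12 (.s k109 k239 8 (.s k158 k207 12 (.d k190 k142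
  k125 3 8)))))] (.c k28 (.f k4 k8 1 (.q k195 [(.s k130 k65 8 (.s k134 k73 10 (.s k69 k199 8 (.d
  k138 k142 k207 1 10)))), (.s k174 k93 12 (.s k239 k109 8 (.s k235 k215 5 (.s k227 k231 1 (.s k166
  k105 10 (.d k243 k89 k211 14 3)))))), (.s k134 k73 10 (.s k69 k199 8 (.s k138 k207 10 (.d k130
  k142 k65 1 8))))] (.c k31 (.q k47 [(.s k130 k65 8 (.s k134 k73 10 (.s k69 k199 8 (.d k138 k142
  k207 1 10)))), (.s k174 k93 12 (.s k45 k46 0 (.s k109 k239 8 (.s k173 k237 7 (.s k236 k110 8 (.d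
  k172 k175 k108 0 7))))))] (.c k29 (.q k30 [(.s k130 k65 8 (.s k134 k73 10 (.s k69 k199 8 (.d k138
  k142 k207 1 10)))), (.s k174 k93 12 (.s k45 k46 0 (.s k109 k239 8 (.s k173 k237 7 (.s k236 k110 8
  (.d k172 k175 k108 0 7))))))] .n) (.c k30 (.q k29 [(.s k130 k65 8 (.s k134 k73 10 (.s k69 k199 8
  (.d k138 k142 k207 1 10)))), (.s k174 k93 12 (.s k45 k46 0 (.s k109 k239 8 (.s k173 k237 7 (.s
  k236 k110 8 (.d k172 k175 k108 0 7))))))] (.c k45 (.q k60 [(.s k130 k65 8 (.s k134 k73 10 (.s k69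
  k199 8 (.d k138 k142 k207 1 10)))), (.s k73 k134 10 (.s k105 k150 14 (.s k166 k227 10 (.d k89 k121
  k243 3 14)))), (.s k174 k93 12 (.s k109 k239 8 (.s k158 k207 12 (.d k190 k142 k125 3 8))))] .n)
  (.c k60 (.l (.s k45 k46 0 (.s k130 k65 8 (.s k134 k73 10 (.s k69 k199 8 (.d k138 k142 k207 1
  10)))))) .n))) .n))) (.c k47 (.q k31 [(.s k130 k65 8 (.s k134 k73 10 (.s k69 k199 8 (.d k138 k142
  k207 1 10)))), (.s k174 k93 12 (.s k239 k109 8 (.s k235 k215 5 (.s k227 k231 1 (.s k166 k105 10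
  (.d k243 k89 k211 14 3)))))), (.s k134 k73 10 (.s k69 k199 8 (.s k138 k207 10 (.d k130 k142 k65 1
  8))))] (.c k65 (.l (.s k134 k73 10 (.s k69 k199 8 (.s k174 k93 12 (.s k239 k109 8 (.d k207 k223
  k138 3 10)))))) (.c k199 (.l (.s k65 k130 8 (.s k73 k134 10 (.s k174 k93 12 (.s k239 k109 8 (.s
  k77 k69 1 (.d k207 k223 k142 3 8))))))) .n))) (.c k65 (.l (.s k134 k73 10 (.s k69 k199 8 (.s k174
  k93 12 (.s k239 k109 8 (.d k207 k223 k138 3 10)))))) (.c k199 (.l (.s k65 k130 8 (.s k73 k134 10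
  (.s k174 k93 12 (.s k239 k109 8 (.s k77 k69 1 (.d k207 k223 k142 3 8))))))) .n)))))) (.c k31 (.q
  k47 [(.s k8 k4 1 (.s k60 k28 3 (.s k40 k20 5 (.s k24 k56 3 (.d k36 k32 k48 1 5))))), (.s k174 k93
  12 (.s k45 k46 0 (.s k109 k239 8 (.s k173 k237 7 (.s k236 k110 8 (.d k172 k175 k108 0 7))))))] .n)
  (.c k47 (.q k31 [(.s k8 k4 1 (.s k60 k28 3 (.s k40 k20 5 (.s k24 k56 3 (.d k36 k32 k48 1 5))))),
  (.s k60 k28 3 (.s k174 k93 12 (.s k109 k239 8 (.s k158 k207 12 (.d k190 k142 k125 3 8)))))] (.c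
  k28 (.q k195 [(.s k4 k8 1 (.s k130 k65 8 (.s k134 k73 10 (.s k69 k199 8 (.d k138 k142 k207 1
  10))))), (.s k174 k93 12 (.s k239 k109 8 (.s k235 k215 5 (.s k227 k231 1 (.s k166 k105 10 (.d k243
  k89 k211 14 3)))))), (.s k4 k8 1 (.s k134 k73 10 (.s k69 k199 8 (.s k138 k207 10 (.d k130 k142 k65
  1 8)))))] (.c k65 (.l (.s k4 k8 1 (.s k134 k73 10 (.s k69 k199 8 (.s k174 k93 12 (.s k239 k109 8
  (.d k207 k223 k138 3 10))))))) (.c k199 (.l (.s k8 k4 1 (.s k65 k130 8 (.s k73 k134 10 (.s k69 k77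
  1 (.d k138 k203 k207 8 10)))))) .n))) (.c k60 (.f k8 k4 1 (.l (.s k174 k93 12 (.s k239 k109 8 (.s
  k207 k223 3 (.s k138 k69 10 (.s k73 k203 8 (.s k134 k195 10 (.d k142 k77 k130 8 1))))))))) .n)))
  (.c k60 (.f k8 k4 1 (.l (.s k174 k93 12 (.s k239 k109 8 (.s k207 k223 3 (.s k138 k69 10 (.s k73
  k203 8 (.s k134 k195 10 (.d k142 k77 k130 8 1))))))))) .n))))) (.c k89 (.q k195 [(.s k8 k4 1 (.s
  k65 k130 8 (.s k73 k134 10 (.s k138 k203 8 (.d k69 k77 k207 1 10))))), (.s k130 k65 8 (.s k170 k85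
  14 (.s k150 k190 5 (.s k105 k60 14 (.d k235 k215 k40 5 8))))), (.s k85 k170 14 (.s k134 k73 10 (.s
  k215 k235 5 (.s k150 k20 8 (.s k166 k182 3 (.d k4 k8 k247 1 12))))))] (.c k31 (.q k47 [(.s k8 k4 1
  (.s k65 k130 8 (.s k73 k134 10 (.s k138 k203 8 (.d k69 k77 k207 1 10))))), (.s k130 k65 8 (.s k170
  k85 14 (.s k150 k190 5 (.s k105 k60 14 (.d k235 k215 k40 5 8))))), (.s k85 k170 14 (.s k134 k73 10
  (.s k215 k235 5 (.s k150 k20 8 (.s k166 k182 3 (.d k4 k8 k247 1 12))))))] .n) (.c k47 (.q k31 [(.s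
  k8 k4 1 (.s k65 k130 8 (.s k73 k134 10 (.s k138 k203 8 (.d k69 k77 k207 1 10))))), (.s k130 k65 8
  (.s k170 k85 14 (.s k150 k190 5 (.s k105 k60 14 (.d k235 k215 k40 5 8))))), (.s k85 k170 14 (.s
  k134 k73 10 (.s k215 k235 5 (.s k150 k20 8 (.s k166 k182 3 (.d k4 k8 k247 1 12))))))] .n) .n)))
  (.c k93 (.f k4 k8 1 (.q k195 [(.s k130 k65 8 (.s k134 k73 10 (.s k69 k199 8 (.d k138 k142 k207 1
  10)))), (.s k65 k130 8 (.s k85 k170 14 (.s k105 k125 5 (.s k150 k60 14 (.d k215 k235 k20 5 8))))),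
  (.s k85 k170 14 (.s k166 k247 12 (.s k134 k73 10 (.s k150 k182 3 (.d k215 k235 k20 5 8)))))] (.c
  k31 (.q k47 [(.s k130 k65 8 (.s k134 k73 10 (.s k69 k199 8 (.d k138 k142 k207 1 10)))), (.s k65
  k130 8 (.s k85 k170 14 (.s k105 k125 5 (.s k150 k60 14 (.d k215 k235 k20 5 8))))), (.s k85 k170 14
  (.s k166 k247 12 (.s k134 k73 10 (.s k150 k182 3 (.d k215 k235 k20 5 8)))))] .n) (.c k47 (.q k31
  [(.s k130 k65 8 (.s k134 k73 10 (.s k69 k199 8 (.d k138 k142 k207 1 10)))), (.s k65 k130 8 (.s k85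
  k170 14 (.s k105 k125 5 (.s k150 k60 14 (.d k215 k235 k20 5 8))))), (.s k85 k170 14 (.s k166 k247
  12 (.s k134 k73 10 (.s k150 k182 3 (.d k215 k235 k20 5 8)))))] .n) .n)))) (.c k166 (.f k4 k8 1 (.f
  k174 k93 12 (.q k195 [(.s k130 k65 8 (.s k134 k73 10 (.s k69 k199 8 (.d k138 k142 k207 1 10)))),
  (.s k170 k85 14 (.s k235 k215 5 (.s k40 k105 8 (.s k20 k60 5 (.s k36 k52 3 (.s k48 k24 5 (.d k32
  k44 k16 1 3)))))))] (.c k31 (.q k47 [(.s k130 k65 8 (.s k134 k73 10 (.s k69 k199 8 (.d k138 k142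
  k207 1 10)))), (.s k170 k85 14 (.s k235 k215 5 (.s k40 k105 8 (.s k20 k60 5 (.s k36 k52 3 (.s k48
  k24 5 (.d k32 k44 k16 1 3)))))))] (.c k65 (.l (.s k85 k170 14 (.s k215 k235 5 (.s k20 k150 8 (.s
  k40 k60 5 (.s k36 k52 3 (.s k48 k24 5 (.d k32 k44 k16 1 3)))))))) .n)) (.c k47 (.q k31 [(.s k130
  k65 8 (.s k134 k73 10 (.s k69 k199 8 (.d k138 k142 k207 1 10)))), (.s k170 k85 14 (.s k235 k215 5
  (.s k40 k105 8 (.s k20 k60 5 (.s k36 k52 3 (.s k48 k24 5 (.d k32 k44 k16 1 3)))))))] (.c k65 (.l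
  (.s k85 k170 14 (.s k215 k235 5 (.s k20 k150 8 (.s k40 k60 5 (.s k36 k52 3 (.s k48 k24 5 (.d k32
  k44 k16 1 3)))))))) .n)) (.c k65 (.l (.s k85 k170 14 (.s k215 k235 5 (.s k20 k150 8 (.s k40 k60 5
  (.s k36 k52 3 (.s k48 k24 5 (.d k32 k44 k16 1 3)))))))) .n)))))) (.c k170 (.q k44 [(.s k8 k4 1 (.s
  k60 k28 3 (.s k40 k20 5 (.s k24 k56 3 (.d k36 k32 k48 1 5))))), (.s k60 k28 3 (.s k174 k93 12 (.s
  k190 k125 8 (.s k158 k142 3 (.d k109 k239 k207 8 12)))))] (.c k28 (.f k8 k4 1 (.q k195 [(.s k65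
  k130 8 (.s k73 k134 10 (.s k138 k203 8 (.d k69 k77 k207 1 10)))), (.s k174 k93 12 (.s k239 k109 8
  (.s k235 k215 5 (.s k227 k231 1 (.s k166 k105 10 (.d k243 k211 k89 3 14))))))] (.c k31 (.q k47
  [(.s k65 k130 8 (.s k73 k134 10 (.s k138 k203 8 (.d k69 k77 k207 1 10)))), (.s k174 k93 12 (.s k45
  k46 0 (.s k109 k239 8 (.s k173 k237 7 (.s k236 k110 8 (.d k172 k175 k108 0 7))))))] (.c k29 (.q
  k30 [(.s k65 k130 8 (.s k73 k134 10 (.s k138 k203 8 (.d k69 k77 k207 1 10)))), (.s k174 k93 12 (.s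
  k45 k46 0 (.s k109 k239 8 (.s k173 k237 7 (.s k236 k110 8 (.d k172 k175 k108 0 7))))))] .n) (.c
  k30 (.q k29 [(.s k65 k130 8 (.s k73 k134 10 (.s k138 k203 8 (.d k69 k77 k207 1 10)))), (.s k174
  k93 12 (.s k45 k46 0 (.s k109 k239 8 (.s k173 k237 7 (.s k236 k110 8 (.d k172 k175 k108 0 7))))))]
  (.c k45 (.q k60 [(.s k40 k20 5 (.s k24 k56 3 (.d k36 k32 k48 1 5))), (.s k65 k130 8 (.s k73 k134
  10 (.s k138 k203 8 (.d k69 k77 k207 1 10))))] .n) (.c k60 (.l (.s k45 k46 0 (.s k65 k130 8 (.s k73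
  k134 10 (.s k138 k203 8 (.d k69 k77 k207 1 10)))))) .n))) .n))) (.c k47 (.q k31 [(.s k65 k130 8
  (.s k73 k134 10 (.s k138 k203 8 (.d k69 k77 k207 1 10)))), (.s k174 k93 12 (.s k239 k109 8 (.s
  k235 k215 5 (.s k227 k231 1 (.s k166 k105 10 (.d k243 k211 k89 3 14))))))] (.c k77 (.l (.s k73
  k134 10 (.s k203 k138 8 (.s k235 k215 5 (.s k251 k219 3 (.s k243 k247 1 (.s k166 k89 14 (.d k227
  k211 k105 3 10)))))))) (.c k199 (.l (.s k65 k130 8 (.s k73 k134 10 (.s k69 k77 1 (.d k138 k203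
  k207 8 10))))) .n))) (.c k77 (.l (.s k73 k134 10 (.s k203 k138 8 (.s k235 k215 5 (.s k251 k219 3
  (.s k243 k247 1 (.s k166 k89 14 (.d k227 k211 k105 3 10)))))))) (.c k199 (.l (.s k65 k130 8 (.s
  k73 k134 10 (.s k69 k77 1 (.d k138 k203 k207 8 10))))) .n)))))) (.c k31 (.q k47 [(.s k8 k4 1 (.s
  k60 k28 3 (.s k40 k20 5 (.s k24 k56 3 (.d k36 k32 k48 1 5))))), (.s k174 k93 12 (.s k45 k46 0 (.s
  k109 k239 8 (.s k173 k237 7 (.s k236 k110 8 (.d k172 k175 k108 0 7))))))] (.c k32 (.l (.s k60 k28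
  3 (.s k174 k93 12 (.s k190 k125 8 (.s k158 k142 3 (.d k109 k239 k207 8 12)))))) .n)) (.c k47 (.q
  k31 [(.s k8 k4 1 (.s k60 k28 3 (.s k40 k20 5 (.s k24 k56 3 (.d k36 k32 k48 1 5))))), (.s k60 k28 3
  (.s k174 k93 12 (.s k190 k125 8 (.s k158 k142 3 (.d k109 k239 k207 8 12)))))] (.c k28 (.q k195
  [(.s k4 k8 1 (.s k130 k65 8 (.s k134 k73 10 (.s k69 k199 8 (.d k138 k142 k207 1 10))))), (.s k174
  k93 12 (.s k239 k109 8 (.s k235 k215 5 (.s k227 k231 1 (.s k166 k105 10 (.d k243 k211 k89 3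
  14)))))), (.s k130 k65 8 (.s k134 k73 10 (.s k174 k93 12 (.s k239 k109 8 (.s k138 k142 1 (.d k207
  k223 k69 3 10))))))] (.c k77 (.l (.s k4 k8 1 (.s k130 k65 8 (.s k134 k73 10 (.s k69 k199 8 (.d
  k138 k142 k207 1 10)))))) .n)) (.c k60 (.f k174 k93 12 (.l (.s k4 k8 1 (.s k239 k109 8 (.s k207
  k223 3 (.s k69 k138 10 (.s k134 k199 8 (.s k73 k195 10 (.d k77 k65 k142 1 8))))))))) .n))) (.c k60
  (.f k174 k93 12 (.l (.s k4 k8 1 (.s k239 k109 8 (.s k207 k223 3 (.s k69 k138 10 (.s k134 k199 8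
  (.s k73 k195 10 (.d k77 k65 k142 1 8))))))))) .n))))) (.c k174 (.f k4 k8 1 (.q k195 [(.s k130 k65
  8 (.s k134 k73 10 (.s k69 k199 8 (.d k138 k142 k207 1 10)))), (.s k65 k130 8 (.s k85 k170 14 (.s
  k105 k125 5 (.s k150 k60 14 (.d k215 k235 k20 5 8))))), (.s k85 k170 14 (.s k166 k247 12 (.s k134
  k73 10 (.s k150 k182 3 (.d k215 k235 k20 5 8)))))] (.c k31 (.q k47 [(.s k130 k65 8 (.s k134 k73 10
  (.s k69 k199 8 (.d k138 k142 k207 1 10)))), (.s k65 k130 8 (.s k85 k170 14 (.s k105 k125 5 (.s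
  k150 k60 14 (.d k215 k235 k20 5 8))))), (.s k85 k170 14 (.s k166 k247 12 (.s k134 k73 10 (.s k150
  k182 3 (.d k215 k235 k20 5 8)))))] .n) (.c k47 (.q k31 [(.s k130 k65 8 (.s k134 k73 10 (.s k69
  k199 8 (.d k138 k142 k207 1 10)))), (.s k65 k130 8 (.s k85 k170 14 (.s k105 k125 5 (.s k150 k60 14
  (.d k215 k235 k20 5 8))))), (.s k85 k170 14 (.s k166 k247 12 (.s k134 k73 10 (.s k150 k182 3 (.d
  k215 k235 k20 5 8)))))] .n) .n)))) (.c k243 (.f k4 k8 1 (.f k93 k174 12 (.q k195 [(.s k130 k65 8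
  (.s k134 k73 10 (.s k69 k199 8 (.d k138 k142 k207 1 10)))), (.s k65 k130 8 (.s k85 k170 14 (.s
  k105 k125 5 (.s k150 k60 14 (.d k215 k235 k20 5 8))))), (.s k85 k170 14 (.s k166 k247 12 (.s k134
  k73 10 (.s k150 k182 3 (.d k215 k235 k20 5 8)))))] (.c k31 (.q k47 [(.s k130 k65 8 (.s k134 k73 10
  (.s k69 k199 8 (.d k138 k142 k207 1 10)))), (.s k65 k130 8 (.s k85 k170 14 (.s k105 k125 5 (.s
  k150 k60 14 (.d k215 k235 k20 5 8))))), (.s k85 k170 14 (.s k166 k247 12 (.s k134 k73 10 (.s k150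
  k182 3 (.d k215 k235 k20 5 8)))))] (.c k91 (.q k167 [(.s k130 k65 8 (.s k134 k73 10 (.s k69 k199 8
  (.d k138 k142 k207 1 10)))), (.s k65 k130 8 (.s k85 k170 14 (.s k166 k247 12 (.s k227 k107 9 (.d
  k105 k125 k44 5 10))))), (.s k85 k170 14 (.s k166 k247 12 (.s k134 k73 10 (.s k150 k182 3 (.d k215
  k235 k20 5 8)))))] (.c k123 (.q k183 [(.s k130 k65 8 (.s k134 k73 10 (.s k69 k199 8 (.d k138 k142
  k207 1 10)))), (.s k65 k130 8 (.s k85 k170 14 (.s k166 k247 12 (.s k105 k125 5 (.d k227 k107 k44 9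
  10))))), (.s k85 k170 14 (.s k166 k247 12 (.s k134 k73 10 (.s k132 k149 4 (.d k135 k151 k133 3
  0)))))] (.c k75 (.l (.s k107 k227 9 (.s k130 k65 8 (.s k134 k73 10 (.s k69 k199 8 (.d k138 k142
  k207 1 10)))))) (.c k107 (.q k75 [(.s k130 k65 8 (.s k134 k73 10 (.s k69 k199 8 (.d k138 k142 k207
  1 10)))), (.s k85 k170 14 (.s k166 k247 12 (.s k73 k134 10 (.s k72 k74 0 (.d k132 k192 k149 9
  4))))), (.s k65 k130 8 (.s k85 k170 14 (.s k105 k125 5 (.s k150 k60 14 (.d k215 k235 k20 5 8)))))]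
  (.c k151 (.q k211 [(.s k130 k65 8 (.s k134 k73 10 (.s k69 k199 8 (.d k138 k142 k207 1 10)))), (.s
  k85 k170 14 (.s k89 k81 1 (.s k150 k28 10 (.d k215 k235 k20 5 8))))] .n) (.c k211 (.l (.s k151
  k135 3 (.s k130 k65 8 (.s k134 k73 10 (.s k69 k199 8 (.d k138 k142 k207 1 10)))))) .n))) (.c k151
  (.q k211 [(.s k130 k65 8 (.s k134 k73 10 (.s k69 k199 8 (.d k138 k142 k207 1 10)))), (.s k85 k170
  14 (.s k89 k81 1 (.s k150 k28 10 (.d k215 k235 k20 5 8))))] (.c k75 (.l (.s k107 k227 9 (.s k130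
  k65 8 (.s k134 k73 10 (.s k69 k199 8 (.d k138 k142 k207 1 10)))))) (.c k107 (.q k75 [(.s k130 k65
  8 (.s k134 k73 10 (.s k69 k199 8 (.d k138 k142 k207 1 10)))), (.s k85 k170 14 (.s k89 k81 1 (.s
  k150 k28 10 (.d k215 k235 k20 5 8))))] .n) .n))) (.c k211 (.l (.s k151 k135 3 (.s k130 k65 8 (.s
  k134 k73 10 (.s k69 k199 8 (.d k138 k142 k207 1 10)))))) .n))))) (.c k151 (.q k211 [(.s k130 k65 8
  (.s k134 k73 10 (.s k69 k199 8 (.d k138 k142 k207 1 10)))), (.s k85 k170 14 (.s k89 k81 1 (.s k150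
  k28 10 (.d k215 k235 k20 5 8))))] (.c k123 (.q k183 [(.s k130 k65 8 (.s k134 k73 10 (.s k69 k199 8
  (.d k138 k142 k207 1 10)))), (.s k85 k170 14 (.s k89 k81 1 (.s k150 k28 10 (.d k215 k235 k20 5
  8))))] (.c k75 (.l (.s k107 k227 9 (.s k130 k65 8 (.s k134 k73 10 (.s k69 k199 8 (.d k138 k142
  k207 1 10)))))) (.c k107 (.q k75 [(.s k130 k65 8 (.s k134 k73 10 (.s k69 k199 8 (.d k138 k142 k207
  1 10)))), (.s k85 k170 14 (.s k89 k81 1 (.s k150 k28 10 (.d k215 k235 k20 5 8))))] .n) .n))) (.c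
  k183 (.q k123 [(.s k130 k65 8 (.s k134 k73 10 (.s k69 k199 8 (.d k138 k142 k207 1 10)))), (.s k85
  k170 14 (.s k89 k81 1 (.s k150 k28 10 (.d k215 k235 k20 5 8))))] .n) .n))) (.c k183 (.q k123 [(.s
  k130 k65 8 (.s k134 k73 10 (.s k69 k199 8 (.d k138 k142 k207 1 10)))), (.s k65 k130 8 (.s k85 k170
  14 (.s k166 k247 12 (.s k227 k107 9 (.d k105 k125 k44 5 10))))), (.s k85 k170 14 (.s k166 k247 12
  (.s k134 k73 10 (.s k150 k182 3 (.d k215 k235 k20 5 8)))))] (.c k151 (.q k211 [(.s k130 k65 8 (.s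
  k134 k73 10 (.s k69 k199 8 (.d k138 k142 k207 1 10)))), (.s k85 k170 14 (.s k89 k81 1 (.s k150 k28
  10 (.d k215 k235 k20 5 8))))] .n) (.c k211 (.q k151 [(.s k130 k65 8 (.s k134 k73 10 (.s k69 k199 8
  (.d k138 k142 k207 1 10)))), (.s k85 k170 14 (.s k215 k235 5 (.s k87 k23 7 (.d k247 k166 k7 12
  11))))] .n) .n))) (.c k211 (.q k151 [(.s k130 k65 8 (.s k134 k73 10 (.s k69 k199 8 (.d k138 k142
  k207 1 10)))), (.s k85 k170 14 (.s k215 k235 5 (.s k87 k23 7 (.d k247 k166 k7 12 11))))] (.c k123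
  (.l (.s k183 k135 3 (.s k130 k65 8 (.s k134 k73 10 (.s k69 k199 8 (.d k138 k142 k207 1 10))))))
  (.c k183 (.q k123 [(.s k130 k65 8 (.s k134 k73 10 (.s k69 k199 8 (.d k138 k142 k207 1 10)))), (.s
  k85 k170 14 (.s k215 k235 5 (.s k87 k23 7 (.d k247 k166 k7 12 11))))] .n) .n))) .n))))) (.c k123
  (.q k183 [(.s k130 k65 8 (.s k134 k73 10 (.s k69 k199 8 (.d k138 k142 k207 1 10)))), (.s k65 k130
  8 (.s k85 k170 14 (.s k105 k125 5 (.s k150 k60 14 (.d k215 k235 k20 5 8))))), (.s k85 k170 14 (.s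
  k166 k247 12 (.s k134 k73 10 (.s k150 k182 3 (.d k215 k235 k20 5 8)))))] (.c k91 (.q k167 [(.s
  k130 k65 8 (.s k134 k73 10 (.s k69 k199 8 (.d k138 k142 k207 1 10)))), (.s k65 k130 8 (.s k85 k170
  14 (.s k166 k247 12 (.s k105 k125 5 (.d k227 k107 k44 9 10))))), (.s k85 k170 14 (.s k166 k247 12
  (.s k134 k73 10 (.s k132 k149 4 (.d k135 k151 k133 3 0)))))] (.c k75 (.l (.s k107 k227 9 (.s k130
  k65 8 (.s k134 k73 10 (.s k69 k199 8 (.d k138 k142 k207 1 10)))))) (.c k107 (.q k75 [(.s k130 k65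
  8 (.s k134 k73 10 (.s k69 k199 8 (.d k138 k142 k207 1 10)))), (.s k85 k170 14 (.s k166 k247 12 (.s
  k73 k134 10 (.s k72 k74 0 (.d k132 k192 k149 9 4))))), (.s k65 k130 8 (.s k85 k170 14 (.s k105
  k125 5 (.s k150 k60 14 (.d k215 k235 k20 5 8)))))] (.c k151 (.q k211 [(.s k130 k65 8 (.s k134 k73
  10 (.s k69 k199 8 (.d k138 k142 k207 1 10)))), (.s k85 k170 14 (.s k89 k81 1 (.s k150 k28 10 (.d
  k215 k235 k20 5 8))))] .n) (.c k211 (.l (.s k151 k135 3 (.s k130 k65 8 (.s k134 k73 10 (.s k69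
  k199 8 (.d k138 k142 k207 1 10)))))) .n))) (.c k151 (.q k211 [(.s k130 k65 8 (.s k134 k73 10 (.s
  k69 k199 8 (.d k138 k142 k207 1 10)))), (.s k85 k170 14 (.s k89 k81 1 (.s k150 k28 10 (.d k215
  k235 k20 5 8))))] (.c k75 (.l (.s k107 k227 9 (.s k130 k65 8 (.s k134 k73 10 (.s k69 k199 8 (.d
  k138 k142 k207 1 10)))))) (.c k107 (.q k75 [(.s k130 k65 8 (.s k134 k73 10 (.s k69 k199 8 (.d k138
  k142 k207 1 10)))), (.s k85 k170 14 (.s k89 k81 1 (.s k150 k28 10 (.d k215 k235 k20 5 8))))] .n)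
  .n))) (.c k211 (.l (.s k151 k135 3 (.s k130 k65 8 (.s k134 k73 10 (.s k69 k199 8 (.d k138 k142
  k207 1 10)))))) .n))))) (.c k167 (.q k91 [(.s k130 k65 8 (.s k134 k73 10 (.s k69 k199 8 (.d k138
  k142 k207 1 10)))), (.s k65 k130 8 (.s k85 k170 14 (.s k105 k125 5 (.s k150 k60 14 (.d k215 k235
  k20 5 8))))), (.s k85 k170 14 (.s k166 k247 12 (.s k134 k73 10 (.s k150 k182 3 (.d k215 k235 k20 5
  8)))))] .n) .n))) (.c k167 (.q k91 [(.s k130 k65 8 (.s k134 k73 10 (.s k69 k199 8 (.d k138 k142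
  k207 1 10)))), (.s k65 k130 8 (.s k85 k170 14 (.s k105 k125 5 (.s k150 k60 14 (.d k215 k235 k20 5
  8))))), (.s k85 k170 14 (.s k166 k247 12 (.s k134 k73 10 (.s k150 k182 3 (.d k215 k235 k20 5
  8)))))] (.c k123 (.q k183 [(.s k130 k65 8 (.s k134 k73 10 (.s k69 k199 8 (.d k138 k142 k207 1
  10)))), (.s k65 k130 8 (.s k85 k170 14 (.s k105 k125 5 (.s k150 k60 14 (.d k215 k235 k20 5 8))))),
  (.s k85 k170 14 (.s k166 k247 12 (.s k134 k73 10 (.s k150 k182 3 (.d k215 k235 k20 5 8)))))] .n)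
  (.c k183 (.q k123 [(.s k130 k65 8 (.s k134 k73 10 (.s k69 k199 8 (.d k138 k142 k207 1 10)))), (.s
  k65 k130 8 (.s k85 k170 14 (.s k105 k125 5 (.s k150 k60 14 (.d k215 k235 k20 5 8))))), (.s k85
  k170 14 (.s k166 k247 12 (.s k134 k73 10 (.s k150 k182 3 (.d k215 k235 k20 5 8)))))] (.c k135 (.q
  k151 [(.s k130 k65 8 (.s k134 k73 10 (.s k69 k199 8 (.d k138 k142 k207 1 10)))), (.s k65 k130 8
  (.s k85 k170 14 (.s k105 k125 5 (.s k150 k60 14 (.d k215 k235 k20 5 8))))), (.s k85 k170 14 (.s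
  k166 k247 12 (.s k134 k73 10 (.s k150 k182 3 (.d k215 k235 k20 5 8)))))] .n) (.c k151 (.q k135
  [(.s k130 k65 8 (.s k134 k73 10 (.s k69 k199 8 (.d k138 k142 k207 1 10)))), (.s k65 k130 8 (.s k85
  k170 14 (.s k105 k125 5 (.s k150 k60 14 (.d k215 k235 k20 5 8))))), (.s k85 k170 14 (.s k166 k247
  12 (.s k134 k73 10 (.s k150 k182 3 (.d k215 k235 k20 5 8)))))] .n) .n))) .n))) (.c k183 (.q k123
  [(.s k130 k65 8 (.s k134 k73 10 (.s k69 k199 8 (.d k138 k142 k207 1 10)))), (.s k65 k130 8 (.s k85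
  k170 14 (.s k105 k125 5 (.s k150 k60 14 (.d k215 k235 k20 5 8))))), (.s k85 k170 14 (.s k166 k247
  12 (.s k134 k73 10 (.s k150 k182 3 (.d k215 k235 k20 5 8)))))] (.c k91 (.q k167 [(.s k130 k65 8
  (.s k134 k73 10 (.s k69 k199 8 (.d k138 k142 k207 1 10)))), (.s k65 k130 8 (.s k85 k170 14 (.s
  k166 k247 12 (.s k227 k107 9 (.d k105 k125 k44 5 10))))), (.s k85 k170 14 (.s k166 k247 12 (.s
  k134 k73 10 (.s k150 k182 3 (.d k215 k235 k20 5 8)))))] (.c k151 (.q k211 [(.s k130 k65 8 (.s k134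
  k73 10 (.s k69 k199 8 (.d k138 k142 k207 1 10)))), (.s k85 k170 14 (.s k89 k81 1 (.s k150 k28 10
  (.d k215 k235 k20 5 8))))] .n) (.c k211 (.q k151 [(.s k130 k65 8 (.s k134 k73 10 (.s k69 k199 8
  (.d k138 k142 k207 1 10)))), (.s k85 k170 14 (.s k215 k235 5 (.s k87 k23 7 (.d k247 k166 k7 12
  11))))] .n) .n))) (.c k167 (.q k91 [(.s k130 k65 8 (.s k134 k73 10 (.s k69 k199 8 (.d k138 k142
  k207 1 10)))), (.s k65 k130 8 (.s k85 k170 14 (.s k105 k125 5 (.s k150 k60 14 (.d k215 k235 k20 5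
  8))))), (.s k85 k170 14 (.s k166 k247 12 (.s k134 k73 10 (.s k150 k182 3 (.d k215 k235 k20 5
  8)))))] (.c k135 (.q k151 [(.s k130 k65 8 (.s k134 k73 10 (.s k69 k199 8 (.d k138 k142 k207 1
  10)))), (.s k65 k130 8 (.s k85 k170 14 (.s k105 k125 5 (.s k150 k60 14 (.d k215 k235 k20 5 8))))),
  (.s k85 k170 14 (.s k166 k247 12 (.s k134 k73 10 (.s k150 k182 3 (.d k215 k235 k20 5 8)))))] .n)
  (.c k151 (.q k135 [(.s k130 k65 8 (.s k134 k73 10 (.s k69 k199 8 (.d k138 k142 k207 1 10)))), (.s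
  k65 k130 8 (.s k85 k170 14 (.s k105 k125 5 (.s k150 k60 14 (.d k215 k235 k20 5 8))))), (.s k85
  k170 14 (.s k166 k247 12 (.s k134 k73 10 (.s k150 k182 3 (.d k215 k235 k20 5 8)))))] .n) .n)))
  .n))) .n))))) (.c k47 (.q k31 [(.s k130 k65 8 (.s k134 k73 10 (.s k69 k199 8 (.d k138 k142 k207 1
  10)))), (.s k65 k130 8 (.s k85 k170 14 (.s k105 k125 5 (.s k150 k60 14 (.d k215 k235 k20 5 8))))),
  (.s k85 k170 14 (.s k166 k247 12 (.s k134 k73 10 (.s k150 k182 3 (.d k215 k235 k20 5 8)))))] (.c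
  k91 (.q k167 [(.s k130 k65 8 (.s k134 k73 10 (.s k69 k199 8 (.d k138 k142 k207 1 10)))), (.s k65
  k130 8 (.s k85 k170 14 (.s k105 k125 5 (.s k150 k60 14 (.d k215 k235 k20 5 8))))), (.s k85 k170 14
  (.s k166 k247 12 (.s k134 k73 10 (.s k150 k182 3 (.d k215 k235 k20 5 8)))))] (.c k123 (.q k183
  [(.s k130 k65 8 (.s k134 k73 10 (.s k69 k199 8 (.d k138 k142 k207 1 10)))), (.s k65 k130 8 (.s k85
  k170 14 (.s k105 k125 5 (.s k150 k60 14 (.d k215 k235 k20 5 8))))), (.s k85 k170 14 (.s k166 k247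
  12 (.s k134 k73 10 (.s k132 k149 4 (.d k135 k133 k151 0 3)))))] (.c k75 (.q k107 [(.s k130 k65 8
  (.s k134 k73 10 (.s k69 k199 8 (.d k138 k142 k207 1 10)))), (.s k65 k130 8 (.s k85 k170 14 (.s
  k105 k125 5 (.s k150 k60 14 (.d k215 k235 k20 5 8))))), (.s k85 k170 14 (.s k166 k247 12 (.s k134
  k73 10 (.s k132 k149 4 (.d k135 k133 k151 0 3)))))] .n) (.c k107 (.q k75 [(.s k130 k65 8 (.s k134
  k73 10 (.s k69 k199 8 (.d k138 k142 k207 1 10)))), (.s k85 k170 14 (.s k166 k247 12 (.s k73 k134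
  10 (.s k72 k74 0 (.d k132 k192 k149 9 4))))), (.s k65 k130 8 (.s k85 k170 14 (.s k105 k125 5 (.s
  k150 k60 14 (.d k215 k235 k20 5 8)))))] .n) .n))) (.c k183 (.q k123 [(.s k130 k65 8 (.s k134 k73
  10 (.s k69 k199 8 (.d k138 k142 k207 1 10)))), (.s k65 k130 8 (.s k85 k170 14 (.s k105 k125 5 (.s
  k150 k60 14 (.d k215 k235 k20 5 8))))), (.s k85 k170 14 (.s k166 k247 12 (.s k134 k73 10 (.s k150
  k182 3 (.d k215 k235 k20 5 8)))))] .n) .n))) (.c k123 (.q k183 [(.s k130 k65 8 (.s k134 k73 10 (.s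
  k69 k199 8 (.d k138 k142 k207 1 10)))), (.s k65 k130 8 (.s k85 k170 14 (.s k105 k125 5 (.s k150
  k60 14 (.d k215 k235 k20 5 8))))), (.s k85 k170 14 (.s k166 k247 12 (.s k134 k73 10 (.s k150 k182
  3 (.d k215 k235 k20 5 8)))))] (.c k91 (.q k167 [(.s k130 k65 8 (.s k134 k73 10 (.s k69 k199 8 (.d
  k138 k142 k207 1 10)))), (.s k65 k130 8 (.s k85 k170 14 (.s k105 k125 5 (.s k150 k60 14 (.d k215
  k235 k20 5 8))))), (.s k85 k170 14 (.s k166 k247 12 (.s k134 k73 10 (.s k132 k149 4 (.d k135 k133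
  k151 0 3)))))] (.c k75 (.q k107 [(.s k130 k65 8 (.s k134 k73 10 (.s k69 k199 8 (.d k138 k142 k207
  1 10)))), (.s k65 k130 8 (.s k85 k170 14 (.s k105 k125 5 (.s k150 k60 14 (.d k215 k235 k20 5
  8))))), (.s k85 k170 14 (.s k166 k247 12 (.s k134 k73 10 (.s k132 k149 4 (.d k135 k133 k151 0
  3)))))] .n) (.c k107 (.q k75 [(.s k130 k65 8 (.s k134 k73 10 (.s k69 k199 8 (.d k138 k142 k207 1
  10)))), (.s k85 k170 14 (.s k166 k247 12 (.s k73 k134 10 (.s k72 k74 0 (.d k132 k192 k149 9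
  4))))), (.s k65 k130 8 (.s k85 k170 14 (.s k105 k125 5 (.s k150 k60 14 (.d k215 k235 k20 5 8)))))]
  .n) .n))) (.c k167 (.q k91 [(.s k130 k65 8 (.s k134 k73 10 (.s k69 k199 8 (.d k138 k142 k207 1
  10)))), (.s k65 k130 8 (.s k85 k170 14 (.s k105 k125 5 (.s k150 k60 14 (.d k215 k235 k20 5 8))))),
  (.s k85 k170 14 (.s k166 k247 12 (.s k134 k73 10 (.s k150 k182 3 (.d k215 k235 k20 5 8)))))] (.c
  k107 (.q k227 [(.s k130 k65 8 (.s k134 k73 10 (.s k69 k199 8 (.d k138 k142 k207 1 10)))), (.s k65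
  k130 8 (.s k85 k170 14 (.s k166 k247 12 (.d k105 k125 k44 5 10)))), (.s k85 k170 14 (.s k166 k247
  12 (.s k73 k134 10 (.s k105 k44 10 (.d k89 k81 k121 1 3)))))] .n) (.c k227 (.q k107 [(.s k130 k65
  8 (.s k134 k73 10 (.s k69 k199 8 (.d k138 k142 k207 1 10)))), (.s k65 k130 8 (.s k85 k170 14 (.s
  k105 k125 5 (.s k150 k60 14 (.d k215 k235 k20 5 8))))), (.s k85 k170 14 (.s k166 k247 12 (.s k134
  k73 10 (.s k150 k182 3 (.d k215 k235 k20 5 8)))))] .n) .n))) .n))) (.c k167 (.q k91 [(.s k130 k65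
  8 (.s k134 k73 10 (.s k69 k199 8 (.d k138 k142 k207 1 10)))), (.s k65 k130 8 (.s k85 k170 14 (.s
  k105 k125 5 (.s k150 k60 14 (.d k215 k235 k20 5 8))))), (.s k85 k170 14 (.s k166 k247 12 (.s k134
  k73 10 (.s k150 k182 3 (.d k215 k235 k20 5 8)))))] (.c k107 (.q k227 [(.s k130 k65 8 (.s k134 k73
  10 (.s k69 k199 8 (.d k138 k142 k207 1 10)))), (.s k65 k130 8 (.s k85 k170 14 (.s k166 k247 12 (.d
  k105 k125 k44 5 10)))), (.s k85 k170 14 (.s k166 k247 12 (.s k73 k134 10 (.s k105 k44 10 (.d k89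
  k81 k121 1 3)))))] (.c k123 (.q k183 [(.s k130 k65 8 (.s k134 k73 10 (.s k69 k199 8 (.d k138 k142
  k207 1 10)))), (.s k65 k130 8 (.s k85 k170 14 (.s k166 k247 12 (.d k105 k125 k44 5 10)))), (.s k85
  k170 14 (.s k166 k247 12 (.s k73 k134 10 (.s k105 k44 10 (.d k89 k81 k121 1 3)))))] .n) (.c k183
  (.q k123 [(.s k130 k65 8 (.s k134 k73 10 (.s k69 k199 8 (.d k138 k142 k207 1 10)))), (.s k65 k130
  8 (.s k85 k170 14 (.s k166 k247 12 (.d k105 k125 k44 5 10)))), (.s k85 k170 14 (.s k166 k247 12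
  (.s k73 k134 10 (.s k105 k44 10 (.d k89 k81 k121 1 3)))))] (.c k135 (.l (.s k151 k211 9 (.s k65
  k130 8 (.s k85 k170 14 (.s k166 k247 12 (.d k105 k125 k44 5 10)))))) (.c k151 (.q k135 [(.s k130
  k65 8 (.s k134 k73 10 (.s k69 k199 8 (.d k138 k142 k207 1 10)))), (.s k65 k130 8 (.s k85 k170 14
  (.s k105 k125 5 (.d k166 k44 k247 10 12)))), (.s k85 k170 14 (.s k166 k247 12 (.s k73 k134 10 (.s
  k105 k44 10 (.d k89 k81 k121 1 3)))))] .n) .n))) .n))) (.c k123 (.q k183 [(.s k130 k65 8 (.s k134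
  k73 10 (.s k69 k199 8 (.d k138 k142 k207 1 10)))), (.s k65 k130 8 (.s k85 k170 14 (.s k105 k125 5
  (.s k150 k60 14 (.d k215 k235 k20 5 8))))), (.s k85 k170 14 (.s k166 k247 12 (.s k134 k73 10 (.s
  k150 k182 3 (.d k215 k235 k20 5 8)))))] (.c k107 (.q k227 [(.s k130 k65 8 (.s k134 k73 10 (.s k69
  k199 8 (.d k138 k142 k207 1 10)))), (.s k65 k130 8 (.s k85 k170 14 (.s k166 k247 12 (.d k105 k125
  k44 5 10)))), (.s k85 k170 14 (.s k166 k247 12 (.s k73 k134 10 (.s k105 k44 10 (.d k89 k81 k121 1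
  3)))))] .n) (.c k227 (.q k107 [(.s k130 k65 8 (.s k134 k73 10 (.s k69 k199 8 (.d k138 k142 k207 1
  10)))), (.s k65 k130 8 (.s k85 k170 14 (.s k105 k125 5 (.s k150 k60 14 (.d k215 k235 k20 5 8))))),
  (.s k85 k170 14 (.s k166 k247 12 (.s k134 k73 10 (.s k150 k182 3 (.d k215 k235 k20 5 8)))))] .n)
  .n))) (.c k183 (.q k123 [(.s k130 k65 8 (.s k134 k73 10 (.s k69 k199 8 (.d k138 k142 k207 1
  10)))), (.s k65 k130 8 (.s k85 k170 14 (.s k105 k125 5 (.s k150 k60 14 (.d k215 k235 k20 5 8))))),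
  (.s k85 k170 14 (.s k166 k247 12 (.s k134 k73 10 (.s k150 k182 3 (.d k215 k235 k20 5 8)))))] (.c
  k107 (.q k227 [(.s k130 k65 8 (.s k134 k73 10 (.s k69 k199 8 (.d k138 k142 k207 1 10)))), (.s k65
  k130 8 (.s k85 k170 14 (.s k166 k247 12 (.d k105 k125 k44 5 10)))), (.s k85 k170 14 (.s k166 k247
  12 (.s k73 k134 10 (.s k105 k44 10 (.d k89 k81 k121 1 3)))))] (.c k135 (.l (.s k151 k211 9 (.s k65
  k130 8 (.s k85 k170 14 (.s k166 k247 12 (.d k105 k125 k44 5 10)))))) (.c k151 (.q k135 [(.s k130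
  k65 8 (.s k134 k73 10 (.s k69 k199 8 (.d k138 k142 k207 1 10)))), (.s k65 k130 8 (.s k85 k170 14
  (.s k105 k125 5 (.d k166 k44 k247 10 12)))), (.s k85 k170 14 (.s k166 k247 12 (.s k73 k134 10 (.s
  k105 k44 10 (.d k89 k81 k121 1 3)))))] .n) .n))) (.c k135 (.l (.s k151 k211 9 (.s k130 k65 8 (.s
  k134 k73 10 (.s k69 k199 8 (.d k138 k142 k207 1 10)))))) (.c k151 (.q k135 [(.s k130 k65 8 (.s
  k134 k73 10 (.s k69 k199 8 (.d k138 k142 k207 1 10)))), (.s k65 k130 8 (.s k85 k170 14 (.s k105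
  k125 5 (.s k150 k60 14 (.d k215 k235 k20 5 8))))), (.s k85 k170 14 (.s k166 k247 12 (.s k134 k73
  10 (.s k150 k182 3 (.d k215 k235 k20 5 8)))))] (.c k107 (.q k227 [(.s k130 k65 8 (.s k134 k73 10
  (.s k69 k199 8 (.d k138 k142 k207 1 10)))), (.s k65 k130 8 (.s k85 k170 14 (.s k105 k125 5 (.d
  k166 k44 k247 10 12)))), (.s k85 k170 14 (.s k166 k247 12 (.s k73 k134 10 (.s k105 k44 10 (.d k89
  k81 k121 1 3)))))] .n) (.c k227 (.l (.s k107 k75 3 (.s k130 k65 8 (.s k134 k73 10 (.s k69 k199 8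
  (.d k138 k142 k207 1 10)))))) .n))) (.c k227 (.l (.s k107 k75 3 (.s k130 k65 8 (.s k134 k73 10 (.s
  k69 k199 8 (.d k138 k142 k207 1 10)))))) .n))))) (.c k227 (.q k107 [(.s k130 k65 8 (.s k134 k73 10
  (.s k69 k199 8 (.d k138 k142 k207 1 10)))), (.s k65 k130 8 (.s k85 k170 14 (.s k105 k125 5 (.s
  k150 k60 14 (.d k215 k235 k20 5 8))))), (.s k85 k170 14 (.s k166 k247 12 (.s k134 k73 10 (.s k150
  k182 3 (.d k215 k235 k20 5 8)))))] (.c k123 (.q k183 [(.s k130 k65 8 (.s k134 k73 10 (.s k69 k199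
  8 (.d k138 k142 k207 1 10)))), (.s k65 k130 8 (.s k85 k170 14 (.s k105 k125 5 (.s k150 k60 14 (.d
  k215 k235 k20 5 8))))), (.s k85 k170 14 (.s k166 k247 12 (.s k134 k73 10 (.s k150 k182 3 (.d k215
  k235 k20 5 8)))))] .n) (.c k183 (.l (.s k123 k75 3 (.s k130 k65 8 (.s k134 k73 10 (.s k69 k199 8
  (.d k138 k142 k207 1 10)))))) .n))) .n))))) (.c k183 (.q k123 [(.s k130 k65 8 (.s k134 k73 10 (.s
  k69 k199 8 (.d k138 k142 k207 1 10)))), (.s k65 k130 8 (.s k85 k170 14 (.s k105 k125 5 (.s k150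
  k60 14 (.d k215 k235 k20 5 8))))), (.s k85 k170 14 (.s k166 k247 12 (.s k134 k73 10 (.s k150 k182
  3 (.d k215 k235 k20 5 8)))))] (.c k91 (.q k167 [(.s k130 k65 8 (.s k134 k73 10 (.s k69 k199 8 (.d
  k138 k142 k207 1 10)))), (.s k65 k130 8 (.s k85 k170 14 (.s k105 k125 5 (.s k150 k60 14 (.d k215
  k235 k20 5 8))))), (.s k85 k170 14 (.s k166 k247 12 (.s k134 k73 10 (.s k150 k182 3 (.d k215 k235
  k20 5 8)))))] .n) (.c k167 (.q k91 [(.s k130 k65 8 (.s k134 k73 10 (.s k69 k199 8 (.d k138 k142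
  k207 1 10)))), (.s k65 k130 8 (.s k85 k170 14 (.s k105 k125 5 (.s k150 k60 14 (.d k215 k235 k20 5
  8))))), (.s k85 k170 14 (.s k166 k247 12 (.s k134 k73 10 (.s k150 k182 3 (.d k215 k235 k20 5
  8)))))] (.c k107 (.q k227 [(.s k130 k65 8 (.s k134 k73 10 (.s k69 k199 8 (.d k138 k142 k207 1
  10)))), (.s k65 k130 8 (.s k85 k170 14 (.s k166 k247 12 (.d k105 k125 k44 5 10)))), (.s k85 k170
  14 (.s k166 k247 12 (.s k73 k134 10 (.s k105 k44 10 (.d k89 k81 k121 1 3)))))] (.c k135 (.l (.s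
  k151 k211 9 (.s k65 k130 8 (.s k85 k170 14 (.s k166 k247 12 (.d k105 k125 k44 5 10)))))) (.c k151
  (.q k135 [(.s k130 k65 8 (.s k134 k73 10 (.s k69 k199 8 (.d k138 k142 k207 1 10)))), (.s k65 k130
  8 (.s k85 k170 14 (.s k105 k125 5 (.d k166 k44 k247 10 12)))), (.s k85 k170 14 (.s k166 k247 12
  (.s k73 k134 10 (.s k105 k44 10 (.d k89 k81 k121 1 3)))))] .n) .n))) (.c k135 (.l (.s k151 k211 9
  (.s k130 k65 8 (.s k134 k73 10 (.s k69 k199 8 (.d k138 k142 k207 1 10)))))) (.c k151 (.q k135 [(.s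
  k130 k65 8 (.s k134 k73 10 (.s k69 k199 8 (.d k138 k142 k207 1 10)))), (.s k65 k130 8 (.s k85 k170
  14 (.s k105 k125 5 (.s k150 k60 14 (.d k215 k235 k20 5 8))))), (.s k85 k170 14 (.s k166 k247 12
  (.s k134 k73 10 (.s k150 k182 3 (.d k215 k235 k20 5 8)))))] (.c k107 (.q k227 [(.s k130 k65 8 (.s
  k134 k73 10 (.s k69 k199 8 (.d k138 k142 k207 1 10)))), (.s k65 k130 8 (.s k85 k170 14 (.s k105
  k125 5 (.d k166 k44 k247 10 12)))), (.s k85 k170 14 (.s k166 k247 12 (.s k73 k134 10 (.s k105 k44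
  10 (.d k89 k81 k121 1 3)))))] .n) (.c k227 (.l (.s k107 k75 3 (.s k130 k65 8 (.s k134 k73 10 (.s
  k69 k199 8 (.d k138 k142 k207 1 10)))))) .n))) (.c k227 (.l (.s k107 k75 3 (.s k130 k65 8 (.s k134
  k73 10 (.s k69 k199 8 (.d k138 k142 k207 1 10)))))) .n))))) .n))) .n))))) (.c k91 (.q k167 [(.s
  k130 k65 8 (.s k134 k73 10 (.s k69 k199 8 (.d k138 k142 k207 1 10)))), (.s k65 k130 8 (.s k85 k170
  14 (.s k105 k125 5 (.s k150 k60 14 (.d k215 k235 k20 5 8))))), (.s k85 k170 14 (.s k166 k247 12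
  (.s k134 k73 10 (.s k150 k182 3 (.d k215 k235 k20 5 8)))))] (.c k31 (.q k47 [(.s k130 k65 8 (.s
  k134 k73 10 (.s k69 k199 8 (.d k138 k142 k207 1 10)))), (.s k65 k130 8 (.s k85 k170 14 (.s k166
  k247 12 (.s k227 k107 9 (.d k105 k125 k44 5 10))))), (.s k85 k170 14 (.s k166 k247 12 (.s k134 k73
  10 (.s k150 k182 3 (.d k215 k235 k20 5 8)))))] (.c k123 (.q k183 [(.s k130 k65 8 (.s k134 k73 10
  (.s k69 k199 8 (.d k138 k142 k207 1 10)))), (.s k65 k130 8 (.s k85 k170 14 (.s k166 k247 12 (.s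
  k105 k125 5 (.d k227 k107 k44 9 10))))), (.s k85 k170 14 (.s k166 k247 12 (.s k134 k73 10 (.s k132
  k149 4 (.d k135 k151 k133 3 0)))))] (.c k75 (.l (.s k107 k227 9 (.s k130 k65 8 (.s k134 k73 10 (.s
  k69 k199 8 (.d k138 k142 k207 1 10)))))) (.c k107 (.q k75 [(.s k130 k65 8 (.s k134 k73 10 (.s k69
  k199 8 (.d k138 k142 k207 1 10)))), (.s k85 k170 14 (.s k166 k247 12 (.s k73 k134 10 (.s k72 k74 0
  (.d k132 k192 k149 9 4))))), (.s k65 k130 8 (.s k85 k170 14 (.s k105 k125 5 (.s k150 k60 14 (.d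
  k215 k235 k20 5 8)))))] (.c k151 (.q k211 [(.s k130 k65 8 (.s k134 k73 10 (.s k69 k199 8 (.d k138
  k142 k207 1 10)))), (.s k85 k170 14 (.s k89 k81 1 (.s k150 k28 10 (.d k215 k235 k20 5 8))))] .n)
  (.c k211 (.l (.s k151 k135 3 (.s k130 k65 8 (.s k134 k73 10 (.s k69 k199 8 (.d k138 k142 k207 1
  10)))))) .n))) (.c k151 (.q k211 [(.s k130 k65 8 (.s k134 k73 10 (.s k69 k199 8 (.d k138 k142 k207
  1 10)))), (.s k85 k170 14 (.s k89 k81 1 (.s k150 k28 10 (.d k215 k235 k20 5 8))))] (.c k75 (.l (.s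
  k107 k227 9 (.s k130 k65 8 (.s k134 k73 10 (.s k69 k199 8 (.d k138 k142 k207 1 10)))))) (.c k107
  (.q k75 [(.s k130 k65 8 (.s k134 k73 10 (.s k69 k199 8 (.d k138 k142 k207 1 10)))), (.s k85 k170
  14 (.s k89 k81 1 (.s k150 k28 10 (.d k215 k235 k20 5 8))))] .n) .n))) (.c k211 (.l (.s k151 k135 3
  (.s k130 k65 8 (.s k134 k73 10 (.s k69 k199 8 (.d k138 k142 k207 1 10)))))) .n))))) (.c k151 (.q
  k211 [(.s k130 k65 8 (.s k134 k73 10 (.s k69 k199 8 (.d k138 k142 k207 1 10)))), (.s k85 k170 14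
  (.s k89 k81 1 (.s k150 k28 10 (.d k215 k235 k20 5 8))))] (.c k123 (.q k183 [(.s k130 k65 8 (.s
  k134 k73 10 (.s k69 k199 8 (.d k138 k142 k207 1 10)))), (.s k85 k170 14 (.s k89 k81 1 (.s k150 k28
  10 (.d k215 k235 k20 5 8))))] (.c k75 (.l (.s k107 k227 9 (.s k130 k65 8 (.s k134 k73 10 (.s k69
  k199 8 (.d k138 k142 k207 1 10)))))) (.c k107 (.q k75 [(.s k130 k65 8 (.s k134 k73 10 (.s k69 k199
  8 (.d k138 k142 k207 1 10)))), (.s k85 k170 14 (.s k89 k81 1 (.s k150 k28 10 (.d k215 k235 k20 5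
  8))))] .n) .n))) (.c k183 (.q k123 [(.s k130 k65 8 (.s k134 k73 10 (.s k69 k199 8 (.d k138 k142
  k207 1 10)))), (.s k85 k170 14 (.s k89 k81 1 (.s k150 k28 10 (.d k215 k235 k20 5 8))))] .n) .n)))
  (.c k183 (.q k123 [(.s k130 k65 8 (.s k134 k73 10 (.s k69 k199 8 (.d k138 k142 k207 1 10)))), (.s
  k65 k130 8 (.s k85 k170 14 (.s k166 k247 12 (.s k227 k107 9 (.d k105 k125 k44 5 10))))), (.s k85
  k170 14 (.s k166 k247 12 (.s k134 k73 10 (.s k150 k182 3 (.d k215 k235 k20 5 8)))))] (.c k151 (.q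
  k211 [(.s k130 k65 8 (.s k134 k73 10 (.s k69 k199 8 (.d k138 k142 k207 1 10)))), (.s k85 k170 14
  (.s k89 k81 1 (.s k150 k28 10 (.d k215 k235 k20 5 8))))] .n) (.c k211 (.q k151 [(.s k130 k65 8 (.s
  k134 k73 10 (.s k69 k199 8 (.d k138 k142 k207 1 10)))), (.s k85 k170 14 (.s k215 k235 5 (.s k87
  k23 7 (.d k247 k166 k7 12 11))))] .n) .n))) (.c k211 (.q k151 [(.s k130 k65 8 (.s k134 k73 10 (.s
  k69 k199 8 (.d k138 k142 k207 1 10)))), (.s k85 k170 14 (.s k215 k235 5 (.s k87 k23 7 (.d k247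
  k166 k7 12 11))))] (.c k123 (.l (.s k183 k135 3 (.s k130 k65 8 (.s k134 k73 10 (.s k69 k199 8 (.d
  k138 k142 k207 1 10)))))) (.c k183 (.q k123 [(.s k130 k65 8 (.s k134 k73 10 (.s k69 k199 8 (.d
  k138 k142 k207 1 10)))), (.s k85 k170 14 (.s k215 k235 5 (.s k87 k23 7 (.d k247 k166 k7 12 11))))]
  .n) .n))) .n))))) (.c k47 (.q k31 [(.s k130 k65 8 (.s k134 k73 10 (.s k69 k199 8 (.d k138 k142
  k207 1 10)))), (.s k65 k130 8 (.s k85 k170 14 (.s k105 k125 5 (.s k150 k60 14 (.d k215 k235 k20 5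
  8))))), (.s k85 k170 14 (.s k166 k247 12 (.s k134 k73 10 (.s k150 k182 3 (.d k215 k235 k20 5
  8)))))] (.c k123 (.q k183 [(.s k130 k65 8 (.s k134 k73 10 (.s k69 k199 8 (.d k138 k142 k207 1
  10)))), (.s k65 k130 8 (.s k85 k170 14 (.s k105 k125 5 (.s k150 k60 14 (.d k215 k235 k20 5 8))))),
  (.s k85 k170 14 (.s k166 k247 12 (.s k134 k73 10 (.s k132 k149 4 (.d k135 k133 k151 0 3)))))] (.c
  k75 (.q k107 [(.s k130 k65 8 (.s k134 k73 10 (.s k69 k199 8 (.d k138 k142 k207 1 10)))), (.s k65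
  k130 8 (.s k85 k170 14 (.s k105 k125 5 (.s k150 k60 14 (.d k215 k235 k20 5 8))))), (.s k85 k170 14
  (.s k166 k247 12 (.s k134 k73 10 (.s k132 k149 4 (.d k135 k133 k151 0 3)))))] .n) (.c k107 (.q k75
  [(.s k130 k65 8 (.s k134 k73 10 (.s k69 k199 8 (.d k138 k142 k207 1 10)))), (.s k85 k170 14 (.s
  k166 k247 12 (.s k73 k134 10 (.s k72 k74 0 (.d k132 k192 k149 9 4))))), (.s k65 k130 8 (.s k85
  k170 14 (.s k105 k125 5 (.s k150 k60 14 (.d k215 k235 k20 5 8)))))] .n) .n))) (.c k183 (.q k123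
  [(.s k130 k65 8 (.s k134 k73 10 (.s k69 k199 8 (.d k138 k142 k207 1 10)))), (.s k65 k130 8 (.s k85
  k170 14 (.s k105 k125 5 (.s k150 k60 14 (.d k215 k235 k20 5 8))))), (.s k85 k170 14 (.s k166 k247
  12 (.s k134 k73 10 (.s k150 k182 3 (.d k215 k235 k20 5 8)))))] .n) .n))) (.c k123 (.q k183 [(.s
  k130 k65 8 (.s k134 k73 10 (.s k69 k199 8 (.d k138 k142 k207 1 10)))), (.s k65 k130 8 (.s k85 k170
  14 (.s k105 k125 5 (.s k150 k60 14 (.d k215 k235 k20 5 8))))), (.s k85 k170 14 (.s k166 k247 12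
  (.s k134 k73 10 (.s k132 k149 4 (.d k135 k133 k151 0 3)))))] (.c k31 (.q k47 [(.s k130 k65 8 (.s
  k134 k73 10 (.s k69 k199 8 (.d k138 k142 k207 1 10)))), (.s k65 k130 8 (.s k85 k170 14 (.s k166
  k247 12 (.s k105 k125 5 (.d k227 k107 k44 9 10))))), (.s k85 k170 14 (.s k166 k247 12 (.s k134 k73
  10 (.s k132 k149 4 (.d k135 k151 k133 3 0)))))] (.c k75 (.l (.s k107 k227 9 (.s k130 k65 8 (.s
  k134 k73 10 (.s k69 k199 8 (.d k138 k142 k207 1 10)))))) (.c k107 (.q k75 [(.s k130 k65 8 (.s k134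
  k73 10 (.s k69 k199 8 (.d k138 k142 k207 1 10)))), (.s k85 k170 14 (.s k166 k247 12 (.s k73 k134
  10 (.s k72 k74 0 (.d k132 k192 k149 9 4))))), (.s k65 k130 8 (.s k85 k170 14 (.s k105 k125 5 (.s
  k150 k60 14 (.d k215 k235 k20 5 8)))))] (.c k151 (.q k211 [(.s k130 k65 8 (.s k134 k73 10 (.s k69
  k199 8 (.d k138 k142 k207 1 10)))), (.s k85 k170 14 (.s k89 k81 1 (.s k150 k28 10 (.d k215 k235
  k20 5 8))))] .n) (.c k211 (.l (.s k151 k135 3 (.s k130 k65 8 (.s k134 k73 10 (.s k69 k199 8 (.d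
  k138 k142 k207 1 10)))))) .n))) (.c k151 (.q k211 [(.s k130 k65 8 (.s k134 k73 10 (.s k69 k199 8
  (.d k138 k142 k207 1 10)))), (.s k85 k170 14 (.s k89 k81 1 (.s k150 k28 10 (.d k215 k235 k20 5
  8))))] (.c k75 (.l (.s k107 k227 9 (.s k130 k65 8 (.s k134 k73 10 (.s k69 k199 8 (.d k138 k142
  k207 1 10)))))) (.c k107 (.q k75 [(.s k130 k65 8 (.s k134 k73 10 (.s k69 k199 8 (.d k138 k142 k207
  1 10)))), (.s k85 k170 14 (.s k89 k81 1 (.s k150 k28 10 (.d k215 k235 k20 5 8))))] .n) .n))) (.c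
  k211 (.l (.s k151 k135 3 (.s k130 k65 8 (.s k134 k73 10 (.s k69 k199 8 (.d k138 k142 k207 1
  10)))))) .n))))) (.c k47 (.q k31 [(.s k130 k65 8 (.s k134 k73 10 (.s k69 k199 8 (.d k138 k142 k207
  1 10)))), (.s k65 k130 8 (.s k85 k170 14 (.s k105 k125 5 (.s k150 k60 14 (.d k215 k235 k20 5
  8))))), (.s k85 k170 14 (.s k166 k247 12 (.s k134 k73 10 (.s k132 k149 4 (.d k135 k133 k151 0
  3)))))] (.c k75 (.q k107 [(.s k130 k65 8 (.s k134 k73 10 (.s k69 k199 8 (.d k138 k142 k207 1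
  10)))), (.s k65 k130 8 (.s k85 k170 14 (.s k105 k125 5 (.s k150 k60 14 (.d k215 k235 k20 5 8))))),
  (.s k85 k170 14 (.s k166 k247 12 (.s k134 k73 10 (.s k132 k149 4 (.d k135 k133 k151 0 3)))))] .n)
  (.c k107 (.q k75 [(.s k130 k65 8 (.s k134 k73 10 (.s k69 k199 8 (.d k138 k142 k207 1 10)))), (.s
  k85 k170 14 (.s k166 k247 12 (.s k73 k134 10 (.s k72 k74 0 (.d k132 k192 k149 9 4))))), (.s k65
  k130 8 (.s k85 k170 14 (.s k105 k125 5 (.s k150 k60 14 (.d k215 k235 k20 5 8)))))] .n) .n))) (.c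
  k75 (.q k107 [(.s k130 k65 8 (.s k134 k73 10 (.s k69 k199 8 (.d k138 k142 k207 1 10)))), (.s k65
  k130 8 (.s k85 k170 14 (.s k166 k247 12 (.s k105 k125 5 (.d k227 k47 k44 9 10))))), (.s k85 k170
  14 (.s k166 k247 12 (.s k134 k73 10 (.s k132 k149 4 (.d k135 k133 k151 0 3)))))] (.c k31 (.l (.s
  k47 k227 9 (.s k130 k65 8 (.s k134 k73 10 (.s k69 k199 8 (.d k138 k142 k207 1 10)))))) (.c k47 (.q
  k31 [(.s k130 k65 8 (.s k134 k73 10 (.s k69 k199 8 (.d k138 k142 k207 1 10)))), (.s k65 k130 8 (.s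
  k85 k170 14 (.s k105 k125 5 (.s k150 k60 14 (.d k215 k235 k20 5 8))))), (.s k85 k170 14 (.s k166
  k247 12 (.s k134 k73 10 (.s k132 k149 4 (.d k135 k133 k151 0 3)))))] .n) .n))) (.c k107 (.q k75
  [(.s k130 k65 8 (.s k134 k73 10 (.s k69 k199 8 (.d k138 k142 k207 1 10)))), (.s k85 k170 14 (.s
  k166 k247 12 (.s k73 k134 10 (.s k72 k74 0 (.d k132 k192 k149 9 4))))), (.s k65 k130 8 (.s k85
  k170 14 (.s k105 k125 5 (.s k150 k60 14 (.d k215 k235 k20 5 8)))))] (.c k31 (.q k47 [(.s k130 k65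
  8 (.s k134 k73 10 (.s k69 k199 8 (.d k138 k142 k207 1 10)))), (.s k85 k170 14 (.s k166 k247 12 (.s
  k73 k134 10 (.s k72 k74 0 (.d k132 k192 k149 9 4))))), (.s k65 k130 8 (.s k85 k170 14 (.s k105
  k125 5 (.s k150 k60 14 (.d k215 k235 k20 5 8)))))] (.c k151 (.q k211 [(.s k130 k65 8 (.s k134 k73
  10 (.s k69 k199 8 (.d k138 k142 k207 1 10)))), (.s k85 k170 14 (.s k89 k81 1 (.s k150 k28 10 (.d
  k215 k235 k20 5 8))))] .n) (.c k211 (.l (.s k151 k135 3 (.s k130 k65 8 (.s k134 k73 10 (.s k69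
  k199 8 (.d k138 k142 k207 1 10)))))) .n))) (.c k47 (.q k31 [(.s k130 k65 8 (.s k134 k73 10 (.s k69
  k199 8 (.d k138 k142 k207 1 10)))), (.s k85 k170 14 (.s k166 k247 12 (.s k73 k134 10 (.s k72 k74 0
  (.d k132 k192 k149 9 4))))), (.s k65 k130 8 (.s k85 k170 14 (.s k105 k125 5 (.s k150 k60 14 (.d
  k215 k235 k20 5 8)))))] .n) .n))) .n))))) (.c k183 (.q k123 [(.s k130 k65 8 (.s k134 k73 10 (.s
  k69 k199 8 (.d k138 k142 k207 1 10)))), (.s k65 k130 8 (.s k85 k170 14 (.s k105 k125 5 (.s k150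
  k60 14 (.d k215 k235 k20 5 8))))), (.s k85 k170 14 (.s k166 k247 12 (.s k134 k73 10 (.s k150 k182
  3 (.d k215 k235 k20 5 8)))))] (.c k31 (.q k47 [(.s k130 k65 8 (.s k134 k73 10 (.s k69 k199 8 (.d
  k138 k142 k207 1 10)))), (.s k65 k130 8 (.s k85 k170 14 (.s k166 k247 12 (.s k227 k107 9 (.d k105
  k125 k44 5 10))))), (.s k85 k170 14 (.s k166 k247 12 (.s k134 k73 10 (.s k150 k182 3 (.d k215 k235
  k20 5 8)))))] (.c k151 (.q k211 [(.s k130 k65 8 (.s k134 k73 10 (.s k69 k199 8 (.d k138 k142 k207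
  1 10)))), (.s k85 k170 14 (.s k89 k81 1 (.s k150 k28 10 (.d k215 k235 k20 5 8))))] .n) (.c k211
  (.q k151 [(.s k130 k65 8 (.s k134 k73 10 (.s k69 k199 8 (.d k138 k142 k207 1 10)))), (.s k85 k170
  14 (.s k215 k235 5 (.s k87 k23 7 (.d k247 k166 k7 12 11))))] .n) .n))) (.c k47 (.q k31 [(.s k130
  k65 8 (.s k134 k73 10 (.s k69 k199 8 (.d k138 k142 k207 1 10)))), (.s k65 k130 8 (.s k85 k170 14
  (.s k105 k125 5 (.s k150 k60 14 (.d k215 k235 k20 5 8))))), (.s k85 k170 14 (.s k166 k247 12 (.s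
  k134 k73 10 (.s k150 k182 3 (.d k215 k235 k20 5 8)))))] .n) .n))) .n))))) (.c k123 (.q k183 [(.s
  k130 k65 8 (.s k134 k73 10 (.s k69 k199 8 (.d k138 k142 k207 1 10)))), (.s k65 k130 8 (.s k85 k170
  14 (.s k105 k125 5 (.s k150 k60 14 (.d k215 k235 k20 5 8))))), (.s k85 k170 14 (.s k166 k247 12
  (.s k134 k73 10 (.s k150 k182 3 (.d k215 k235 k20 5 8)))))] (.c k31 (.q k47 [(.s k130 k65 8 (.s
  k134 k73 10 (.s k69 k199 8 (.d k138 k142 k207 1 10)))), (.s k65 k130 8 (.s k85 k170 14 (.s k105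
  k125 5 (.s k150 k60 14 (.d k215 k235 k20 5 8))))), (.s k85 k170 14 (.s k166 k247 12 (.s k134 k73
  10 (.s k150 k182 3 (.d k215 k235 k20 5 8)))))] (.c k91 (.q k167 [(.s k130 k65 8 (.s k134 k73 10
  (.s k69 k199 8 (.d k138 k142 k207 1 10)))), (.s k65 k130 8 (.s k85 k170 14 (.s k166 k247 12 (.s
  k105 k125 5 (.d k227 k107 k44 9 10))))), (.s k85 k170 14 (.s k166 k247 12 (.s k134 k73 10 (.s k132
  k149 4 (.d k135 k151 k133 3 0)))))] (.c k75 (.l (.s k107 k227 9 (.s k130 k65 8 (.s k134 k73 10 (.s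
  k69 k199 8 (.d k138 k142 k207 1 10)))))) (.c k107 (.q k75 [(.s k130 k65 8 (.s k134 k73 10 (.s k69
  k199 8 (.d k138 k142 k207 1 10)))), (.s k85 k170 14 (.s k166 k247 12 (.s k73 k134 10 (.s k72 k74 0
  (.d k132 k192 k149 9 4))))), (.s k65 k130 8 (.s k85 k170 14 (.s k105 k125 5 (.s k150 k60 14 (.d
  k215 k235 k20 5 8)))))] (.c k151 (.q k211 [(.s k130 k65 8 (.s k134 k73 10 (.s k69 k199 8 (.d k138
  k142 k207 1 10)))), (.s k85 k170 14 (.s k89 k81 1 (.s k150 k28 10 (.d k215 k235 k20 5 8))))] .n)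
  (.c k211 (.l (.s k151 k135 3 (.s k130 k65 8 (.s k134 k73 10 (.s k69 k199 8 (.d k138 k142 k207 1
  10)))))) .n))) (.c k151 (.q k211 [(.s k130 k65 8 (.s k134 k73 10 (.s k69 k199 8 (.d k138 k142 k207
  1 10)))), (.s k85 k170 14 (.s k89 k81 1 (.s k150 k28 10 (.d k215 k235 k20 5 8))))] (.c k75 (.l (.s
  k107 k227 9 (.s k130 k65 8 (.s k134 k73 10 (.s k69 k199 8 (.d k138 k142 k207 1 10)))))) (.c k107
  (.q k75 [(.s k130 k65 8 (.s k134 k73 10 (.s k69 k199 8 (.d k138 k142 k207 1 10)))), (.s k85 k170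
  14 (.s k89 k81 1 (.s k150 k28 10 (.d k215 k235 k20 5 8))))] .n) .n))) (.c k211 (.l (.s k151 k135 3
  (.s k130 k65 8 (.s k134 k73 10 (.s k69 k199 8 (.d k138 k142 k207 1 10)))))) .n))))) (.c k167 (.q
  k91 [(.s k130 k65 8 (.s k134 k73 10 (.s k69 k199 8 (.d k138 k142 k207 1 10)))), (.s k65 k130 8 (.s
  k85 k170 14 (.s k105 k125 5 (.s k150 k60 14 (.d k215 k235 k20 5 8))))), (.s k85 k170 14 (.s k166
  k247 12 (.s k134 k73 10 (.s k150 k182 3 (.d k215 k235 k20 5 8)))))] .n) .n))) (.c k47 (.q k31 [(.s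
  k130 k65 8 (.s k134 k73 10 (.s k69 k199 8 (.d k138 k142 k207 1 10)))), (.s k65 k130 8 (.s k85 k170
  14 (.s k105 k125 5 (.s k150 k60 14 (.d k215 k235 k20 5 8))))), (.s k85 k170 14 (.s k166 k247 12
  (.s k134 k73 10 (.s k150 k182 3 (.d k215 k235 k20 5 8)))))] (.c k91 (.q k167 [(.s k130 k65 8 (.s
  k134 k73 10 (.s k69 k199 8 (.d k138 k142 k207 1 10)))), (.s k65 k130 8 (.s k85 k170 14 (.s k105
  k125 5 (.s k150 k60 14 (.d k215 k235 k20 5 8))))), (.s k85 k170 14 (.s k166 k247 12 (.s k134 k73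
  10 (.s k132 k149 4 (.d k135 k133 k151 0 3)))))] (.c k75 (.q k107 [(.s k130 k65 8 (.s k134 k73 10
  (.s k69 k199 8 (.d k138 k142 k207 1 10)))), (.s k65 k130 8 (.s k85 k170 14 (.s k105 k125 5 (.s
  k150 k60 14 (.d k215 k235 k20 5 8))))), (.s k85 k170 14 (.s k166 k247 12 (.s k134 k73 10 (.s k132
  k149 4 (.d k135 k133 k151 0 3)))))] .n) (.c k107 (.q k75 [(.s k130 k65 8 (.s k134 k73 10 (.s k69
  k199 8 (.d k138 k142 k207 1 10)))), (.s k85 k170 14 (.s k166 k247 12 (.s k73 k134 10 (.s k72 k74 0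
  (.d k132 k192 k149 9 4))))), (.s k65 k130 8 (.s k85 k170 14 (.s k105 k125 5 (.s k150 k60 14 (.d
  k215 k235 k20 5 8)))))] .n) .n))) (.c k167 (.q k91 [(.s k130 k65 8 (.s k134 k73 10 (.s k69 k199 8
  (.d k138 k142 k207 1 10)))), (.s k65 k130 8 (.s k85 k170 14 (.s k105 k125 5 (.s k150 k60 14 (.d
  k215 k235 k20 5 8))))), (.s k85 k170 14 (.s k166 k247 12 (.s k134 k73 10 (.s k150 k182 3 (.d k215
  k235 k20 5 8)))))] (.c k107 (.q k227 [(.s k130 k65 8 (.s k134 k73 10 (.s k69 k199 8 (.d k138 k142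
  k207 1 10)))), (.s k65 k130 8 (.s k85 k170 14 (.s k166 k247 12 (.d k105 k125 k44 5 10)))), (.s k85
  k170 14 (.s k166 k247 12 (.s k73 k134 10 (.s k105 k44 10 (.d k89 k81 k121 1 3)))))] .n) (.c k227
  (.q k107 [(.s k130 k65 8 (.s k134 k73 10 (.s k69 k199 8 (.d k138 k142 k207 1 10)))), (.s k65 k130
  8 (.s k85 k170 14 (.s k105 k125 5 (.s k150 k60 14 (.d k215 k235 k20 5 8))))), (.s k85 k170 14 (.s
  k166 k247 12 (.s k134 k73 10 (.s k150 k182 3 (.d k215 k235 k20 5 8)))))] .n) .n))) .n))) (.c k91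
  (.q k167 [(.s k130 k65 8 (.s k134 k73 10 (.s k69 k199 8 (.d k138 k142 k207 1 10)))), (.s k65 k130
  8 (.s k85 k170 14 (.s k105 k125 5 (.s k150 k60 14 (.d k215 k235 k20 5 8))))), (.s k85 k170 14 (.s
  k166 k247 12 (.s k134 k73 10 (.s k132 k149 4 (.d k135 k133 k151 0 3)))))] (.c k31 (.q k47 [(.s
  k130 k65 8 (.s k134 k73 10 (.s k69 k199 8 (.d k138 k142 k207 1 10)))), (.s k65 k130 8 (.s k85 k170
  14 (.s k166 k247 12 (.s k105 k125 5 (.d k227 k107 k44 9 10))))), (.s k85 k170 14 (.s k166 k247 12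
  (.s k134 k73 10 (.s k132 k149 4 (.d k135 k151 k133 3 0)))))] (.c k75 (.l (.s k107 k227 9 (.s k130
  k65 8 (.s k134 k73 10 (.s k69 k199 8 (.d k138 k142 k207 1 10)))))) (.c k107 (.q k75 [(.s k130 k65
  8 (.s k134 k73 10 (.s k69 k199 8 (.d k138 k142 k207 1 10)))), (.s k85 k170 14 (.s k166 k247 12 (.s
  k73 k134 10 (.s k72 k74 0 (.d k132 k192 k149 9 4))))), (.s k65 k130 8 (.s k85 k170 14 (.s k105
  k125 5 (.s k150 k60 14 (.d k215 k235 k20 5 8)))))] (.c k151 (.q k211 [(.s k130 k65 8 (.s k134 k73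
  10 (.s k69 k199 8 (.d k138 k142 k207 1 10)))), (.s k85 k170 14 (.s k89 k81 1 (.s k150 k28 10 (.d
  k215 k235 k20 5 8))))] .n) (.c k211 (.l (.s k151 k135 3 (.s k130 k65 8 (.s k134 k73 10 (.s k69
  k199 8 (.d k138 k142 k207 1 10)))))) .n))) (.c k151 (.q k211 [(.s k130 k65 8 (.s k134 k73 10 (.s
  k69 k199 8 (.d k138 k142 k207 1 10)))), (.s k85 k170 14 (.s k89 k81 1 (.s k150 k28 10 (.d k215
  k235 k20 5 8))))] (.c k75 (.l (.s k107 k227 9 (.s k130 k65 8 (.s k134 k73 10 (.s k69 k199 8 (.d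
  k138 k142 k207 1 10)))))) (.c k107 (.q k75 [(.s k130 k65 8 (.s k134 k73 10 (.s k69 k199 8 (.d k138
  k142 k207 1 10)))), (.s k85 k170 14 (.s k89 k81 1 (.s k150 k28 10 (.d k215 k235 k20 5 8))))] .n)
  .n))) (.c k211 (.l (.s k151 k135 3 (.s k130 k65 8 (.s k134 k73 10 (.s k69 k199 8 (.d k138 k142
  k207 1 10)))))) .n))))) (.c k47 (.q k31 [(.s k130 k65 8 (.s k134 k73 10 (.s k69 k199 8 (.d k138
  k142 k207 1 10)))), (.s k65 k130 8 (.s k85 k170 14 (.s k105 k125 5 (.s k150 k60 14 (.d k215 k235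
  k20 5 8))))), (.s k85 k170 14 (.s k166 k247 12 (.s k134 k73 10 (.s k132 k149 4 (.d k135 k133 k151
  0 3)))))] (.c k75 (.q k107 [(.s k130 k65 8 (.s k134 k73 10 (.s k69 k199 8 (.d k138 k142 k207 1
  10)))), (.s k65 k130 8 (.s k85 k170 14 (.s k105 k125 5 (.s k150 k60 14 (.d k215 k235 k20 5 8))))),
  (.s k85 k170 14 (.s k166 k247 12 (.s k134 k73 10 (.s k132 k149 4 (.d k135 k133 k151 0 3)))))] .n)
  (.c k107 (.q k75 [(.s k130 k65 8 (.s k134 k73 10 (.s k69 k199 8 (.d k138 k142 k207 1 10)))), (.s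
  k85 k170 14 (.s k166 k247 12 (.s k73 k134 10 (.s k72 k74 0 (.d k132 k192 k149 9 4))))), (.s k65
  k130 8 (.s k85 k170 14 (.s k105 k125 5 (.s k150 k60 14 (.d k215 k235 k20 5 8)))))] .n) .n))) (.c
  k75 (.q k107 [(.s k130 k65 8 (.s k134 k73 10 (.s k69 k199 8 (.d k138 k142 k207 1 10)))), (.s k65
  k130 8 (.s k85 k170 14 (.s k166 k247 12 (.s k105 k125 5 (.d k227 k47 k44 9 10))))), (.s k85 k170
  14 (.s k166 k247 12 (.s k134 k73 10 (.s k132 k149 4 (.d k135 k133 k151 0 3)))))] (.c k31 (.l (.s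
  k47 k227 9 (.s k130 k65 8 (.s k134 k73 10 (.s k69 k199 8 (.d k138 k142 k207 1 10)))))) (.c k47 (.q
  k31 [(.s k130 k65 8 (.s k134 k73 10 (.s k69 k199 8 (.d k138 k142 k207 1 10)))), (.s k65 k130 8 (.s
  k85 k170 14 (.s k105 k125 5 (.s k150 k60 14 (.d k215 k235 k20 5 8))))), (.s k85 k170 14 (.s k166
  k247 12 (.s k134 k73 10 (.s k132 k149 4 (.d k135 k133 k151 0 3)))))] .n) .n))) (.c k107 (.q k75
  [(.s k130 k65 8 (.s k134 k73 10 (.s k69 k199 8 (.d k138 k142 k207 1 10)))), (.s k85 k170 14 (.s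
  k166 k247 12 (.s k73 k134 10 (.s k72 k74 0 (.d k132 k192 k149 9 4))))), (.s k65 k130 8 (.s k85
  k170 14 (.s k105 k125 5 (.s k150 k60 14 (.d k215 k235 k20 5 8)))))] (.c k31 (.q k47 [(.s k130 k65
  8 (.s k134 k73 10 (.s k69 k199 8 (.d k138 k142 k207 1 10)))), (.s k85 k170 14 (.s k166 k247 12 (.s
  k73 k134 10 (.s k72 k74 0 (.d k132 k192 k149 9 4))))), (.s k65 k130 8 (.s k85 k170 14 (.s k105
  k125 5 (.s k150 k60 14 (.d k215 k235 k20 5 8)))))] (.c k151 (.q k211 [(.s k130 k65 8 (.s k134 k73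
  10 (.s k69 k199 8 (.d k138 k142 k207 1 10)))), (.s k85 k170 14 (.s k89 k81 1 (.s k150 k28 10 (.d
  k215 k235 k20 5 8))))] .n) (.c k211 (.l (.s k151 k135 3 (.s k130 k65 8 (.s k134 k73 10 (.s k69
  k199 8 (.d k138 k142 k207 1 10)))))) .n))) (.c k47 (.q k31 [(.s k130 k65 8 (.s k134 k73 10 (.s k69
  k199 8 (.d k138 k142 k207 1 10)))), (.s k85 k170 14 (.s k166 k247 12 (.s k73 k134 10 (.s k72 k74 0
  (.d k132 k192 k149 9 4))))), (.s k65 k130 8 (.s k85 k170 14 (.s k105 k125 5 (.s k150 k60 14 (.d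
  k215 k235 k20 5 8)))))] .n) .n))) .n))))) (.c k167 (.q k91 [(.s k130 k65 8 (.s k134 k73 10 (.s k69
  k199 8 (.d k138 k142 k207 1 10)))), (.s k65 k130 8 (.s k85 k170 14 (.s k105 k125 5 (.s k150 k60 14
  (.d k215 k235 k20 5 8))))), (.s k85 k170 14 (.s k166 k247 12 (.s k134 k73 10 (.s k150 k182 3 (.d
  k215 k235 k20 5 8)))))] (.c k31 (.q k47 [(.s k130 k65 8 (.s k134 k73 10 (.s k69 k199 8 (.d k138
  k142 k207 1 10)))), (.s k65 k130 8 (.s k85 k170 14 (.s k105 k125 5 (.s k150 k60 14 (.d k215 k235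
  k20 5 8))))), (.s k85 k170 14 (.s k166 k247 12 (.s k134 k73 10 (.s k150 k182 3 (.d k215 k235 k20 5
  8)))))] .n) (.c k47 (.q k31 [(.s k130 k65 8 (.s k134 k73 10 (.s k69 k199 8 (.d k138 k142 k207 1
  10)))), (.s k65 k130 8 (.s k85 k170 14 (.s k105 k125 5 (.s k150 k60 14 (.d k215 k235 k20 5 8))))),
  (.s k85 k170 14 (.s k166 k247 12 (.s k134 k73 10 (.s k150 k182 3 (.d k215 k235 k20 5 8)))))] (.c
  k107 (.q k227 [(.s k130 k65 8 (.s k134 k73 10 (.s k69 k199 8 (.d k138 k142 k207 1 10)))), (.s k65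
  k130 8 (.s k85 k170 14 (.s k166 k247 12 (.d k105 k125 k44 5 10)))), (.s k85 k170 14 (.s k166 k247
  12 (.s k73 k134 10 (.s k105 k44 10 (.d k89 k81 k121 1 3)))))] .n) (.c k227 (.q k107 [(.s k130 k65
  8 (.s k134 k73 10 (.s k69 k199 8 (.d k138 k142 k207 1 10)))), (.s k65 k130 8 (.s k85 k170 14 (.s
  k105 k125 5 (.s k150 k60 14 (.d k215 k235 k20 5 8))))), (.s k85 k170 14 (.s k166 k247 12 (.s k134
  k73 10 (.s k150 k182 3 (.d k215 k235 k20 5 8)))))] .n) .n))) .n))) .n))))) (.c k167 (.q k91 [(.s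
  k130 k65 8 (.s k134 k73 10 (.s k69 k199 8 (.d k138 k142 k207 1 10)))), (.s k65 k130 8 (.s k85 k170
  14 (.s k105 k125 5 (.s k150 k60 14 (.d k215 k235 k20 5 8))))), (.s k85 k170 14 (.s k166 k247 12
  (.s k134 k73 10 (.s k150 k182 3 (.d k215 k235 k20 5 8)))))] (.c k31 (.q k47 [(.s k130 k65 8 (.s
  k134 k73 10 (.s k69 k199 8 (.d k138 k142 k207 1 10)))), (.s k65 k130 8 (.s k85 k170 14 (.s k105
  k125 5 (.s k150 k60 14 (.d k215 k235 k20 5 8))))), (.s k85 k170 14 (.s k166 k247 12 (.s k134 k73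
  10 (.s k150 k182 3 (.d k215 k235 k20 5 8)))))] (.c k123 (.q k183 [(.s k130 k65 8 (.s k134 k73 10
  (.s k69 k199 8 (.d k138 k142 k207 1 10)))), (.s k65 k130 8 (.s k85 k170 14 (.s k105 k125 5 (.s
  k150 k60 14 (.d k215 k235 k20 5 8))))), (.s k85 k170 14 (.s k166 k247 12 (.s k134 k73 10 (.s k150
  k182 3 (.d k215 k235 k20 5 8)))))] .n) (.c k183 (.q k123 [(.s k130 k65 8 (.s k134 k73 10 (.s k69
  k199 8 (.d k138 k142 k207 1 10)))), (.s k65 k130 8 (.s k85 k170 14 (.s k105 k125 5 (.s k150 k60 14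
  (.d k215 k235 k20 5 8))))), (.s k85 k170 14 (.s k166 k247 12 (.s k134 k73 10 (.s k150 k182 3 (.d
  k215 k235 k20 5 8)))))] (.c k135 (.q k151 [(.s k130 k65 8 (.s k134 k73 10 (.s k69 k199 8 (.d k138
  k142 k207 1 10)))), (.s k65 k130 8 (.s k85 k170 14 (.s k105 k125 5 (.s k150 k60 14 (.d k215 k235
  k20 5 8))))), (.s k85 k170 14 (.s k166 k247 12 (.s k134 k73 10 (.s k150 k182 3 (.d k215 k235 k20 5
  8)))))] .n) (.c k151 (.q k135 [(.s k130 k65 8 (.s k134 k73 10 (.s k69 k199 8 (.d k138 k142 k207 1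
  10)))), (.s k65 k130 8 (.s k85 k170 14 (.s k105 k125 5 (.s k150 k60 14 (.d k215 k235 k20 5 8))))),
  (.s k85 k170 14 (.s k166 k247 12 (.s k134 k73 10 (.s k150 k182 3 (.d k215 k235 k20 5 8)))))] .n)
  .n))) .n))) (.c k47 (.q k31 [(.s k130 k65 8 (.s k134 k73 10 (.s k69 k199 8 (.d k138 k142 k207 1
  10)))), (.s k65 k130 8 (.s k85 k170 14 (.s k105 k125 5 (.s k150 k60 14 (.d k215 k235 k20 5 8))))),
  (.s k85 k170 14 (.s k166 k247 12 (.s k134 k73 10 (.s k150 k182 3 (.d k215 k235 k20 5 8)))))] (.c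
  k107 (.q k227 [(.s k130 k65 8 (.s k134 k73 10 (.s k69 k199 8 (.d k138 k142 k207 1 10)))), (.s k65
  k130 8 (.s k85 k170 14 (.s k166 k247 12 (.d k105 k125 k44 5 10)))), (.s k85 k170 14 (.s k166 k247
  12 (.s k73 k134 10 (.s k105 k44 10 (.d k89 k81 k121 1 3)))))] (.c k123 (.q k183 [(.s k130 k65 8
  (.s k134 k73 10 (.s k69 k199 8 (.d k138 k142 k207 1 10)))), (.s k65 k130 8 (.s k85 k170 14 (.s
  k166 k247 12 (.d k105 k125 k44 5 10)))), (.s k85 k170 14 (.s k166 k247 12 (.s k73 k134 10 (.s k105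
  k44 10 (.d k89 k81 k121 1 3)))))] .n) (.c k183 (.q k123 [(.s k130 k65 8 (.s k134 k73 10 (.s k69
  k199 8 (.d k138 k142 k207 1 10)))), (.s k65 k130 8 (.s k85 k170 14 (.s k166 k247 12 (.d k105 k125
  k44 5 10)))), (.s k85 k170 14 (.s k166 k247 12 (.s k73 k134 10 (.s k105 k44 10 (.d k89 k81 k121 1
  3)))))] (.c k135 (.l (.s k151 k211 9 (.s k65 k130 8 (.s k85 k170 14 (.s k166 k247 12 (.d k105 k125
  k44 5 10)))))) (.c k151 (.q k135 [(.s k130 k65 8 (.s k134 k73 10 (.s k69 k199 8 (.d k138 k142 k207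
  1 10)))), (.s k65 k130 8 (.s k85 k170 14 (.s k105 k125 5 (.d k166 k44 k247 10 12)))), (.s k85 k170
  14 (.s k166 k247 12 (.s k73 k134 10 (.s k105 k44 10 (.d k89 k81 k121 1 3)))))] .n) .n))) .n))) (.c
  k123 (.q k183 [(.s k130 k65 8 (.s k134 k73 10 (.s k69 k199 8 (.d k138 k142 k207 1 10)))), (.s k65
  k130 8 (.s k85 k170 14 (.s k105 k125 5 (.s k150 k60 14 (.d k215 k235 k20 5 8))))), (.s k85 k170 14
  (.s k166 k247 12 (.s k134 k73 10 (.s k150 k182 3 (.d k215 k235 k20 5 8)))))] (.c k107 (.q k227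
  [(.s k130 k65 8 (.s k134 k73 10 (.s k69 k199 8 (.d k138 k142 k207 1 10)))), (.s k65 k130 8 (.s k85
  k170 14 (.s k166 k247 12 (.d k105 k125 k44 5 10)))), (.s k85 k170 14 (.s k166 k247 12 (.s k73 k134
  10 (.s k105 k44 10 (.d k89 k81 k121 1 3)))))] .n) (.c k227 (.q k107 [(.s k130 k65 8 (.s k134 k73
  10 (.s k69 k199 8 (.d k138 k142 k207 1 10)))), (.s k65 k130 8 (.s k85 k170 14 (.s k105 k125 5 (.s
  k150 k60 14 (.d k215 k235 k20 5 8))))), (.s k85 k170 14 (.s k166 k247 12 (.s k134 k73 10 (.s k150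
  k182 3 (.d k215 k235 k20 5 8)))))] .n) .n))) (.c k183 (.q k123 [(.s k130 k65 8 (.s k134 k73 10 (.s
  k69 k199 8 (.d k138 k142 k207 1 10)))), (.s k65 k130 8 (.s k85 k170 14 (.s k105 k125 5 (.s k150
  k60 14 (.d k215 k235 k20 5 8))))), (.s k85 k170 14 (.s k166 k247 12 (.s k134 k73 10 (.s k150 k182
  3 (.d k215 k235 k20 5 8)))))] (.c k107 (.q k227 [(.s k130 k65 8 (.s k134 k73 10 (.s k69 k199 8 (.d
  k138 k142 k207 1 10)))), (.s k65 k130 8 (.s k85 k170 14 (.s k166 k247 12 (.d k105 k125 k44 5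
  10)))), (.s k85 k170 14 (.s k166 k247 12 (.s k73 k134 10 (.s k105 k44 10 (.d k89 k81 k121 1
  3)))))] (.c k135 (.l (.s k151 k211 9 (.s k65 k130 8 (.s k85 k170 14 (.s k166 k247 12 (.d k105 k125
  k44 5 10)))))) (.c k151 (.q k135 [(.s k130 k65 8 (.s k134 k73 10 (.s k69 k199 8 (.d k138 k142 k207
  1 10)))), (.s k65 k130 8 (.s k85 k170 14 (.s k105 k125 5 (.d k166 k44 k247 10 12)))), (.s k85 k170
  14 (.s k166 k247 12 (.s k73 k134 10 (.s k105 k44 10 (.d k89 k81 k121 1 3)))))] .n) .n))) (.c k135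
  (.l (.s k151 k211 9 (.s k130 k65 8 (.s k134 k73 10 (.s k69 k199 8 (.d k138 k142 k207 1 10))))))
  (.c k151 (.q k135 [(.s k130 k65 8 (.s k134 k73 10 (.s k69 k199 8 (.d k138 k142 k207 1 10)))), (.s
  k65 k130 8 (.s k85 k170 14 (.s k105 k125 5 (.s k150 k60 14 (.d k215 k235 k20 5 8))))), (.s k85
  k170 14 (.s k166 k247 12 (.s k134 k73 10 (.s k150 k182 3 (.d k215 k235 k20 5 8)))))] (.c k107 (.q
  k227 [(.s k130 k65 8 (.s k134 k73 10 (.s k69 k199 8 (.d k138 k142 k207 1 10)))), (.s k65 k130 8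
  (.s k85 k170 14 (.s k105 k125 5 (.d k166 k44 k247 10 12)))), (.s k85 k170 14 (.s k166 k247 12 (.s
  k73 k134 10 (.s k105 k44 10 (.d k89 k81 k121 1 3)))))] .n) (.c k227 (.l (.s k107 k75 3 (.s k130
  k65 8 (.s k134 k73 10 (.s k69 k199 8 (.d k138 k142 k207 1 10)))))) .n))) (.c k227 (.l (.s k107 k75
  3 (.s k130 k65 8 (.s k134 k73 10 (.s k69 k199 8 (.d k138 k142 k207 1 10)))))) .n))))) (.c k227 (.q
  k107 [(.s k130 k65 8 (.s k134 k73 10 (.s k69 k199 8 (.d k138 k142 k207 1 10)))), (.s k65 k130 8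
  (.s k85 k170 14 (.s k105 k125 5 (.s k150 k60 14 (.d k215 k235 k20 5 8))))), (.s k85 k170 14 (.s
  k166 k247 12 (.s k134 k73 10 (.s k150 k182 3 (.d k215 k235 k20 5 8)))))] (.c k123 (.q k183 [(.s
  k130 k65 8 (.s k134 k73 10 (.s k69 k199 8 (.d k138 k142 k207 1 10)))), (.s k65 k130 8 (.s k85 k170
  14 (.s k105 k125 5 (.s k150 k60 14 (.d k215 k235 k20 5 8))))), (.s k85 k170 14 (.s k166 k247 12
  (.s k134 k73 10 (.s k150 k182 3 (.d k215 k235 k20 5 8)))))] .n) (.c k183 (.l (.s k123 k75 3 (.s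
  k130 k65 8 (.s k134 k73 10 (.s k69 k199 8 (.d k138 k142 k207 1 10)))))) .n))) .n))))) (.c k123 (.q
  k183 [(.s k130 k65 8 (.s k134 k73 10 (.s k69 k199 8 (.d k138 k142 k207 1 10)))), (.s k65 k130 8
  (.s k85 k170 14 (.s k105 k125 5 (.s k150 k60 14 (.d k215 k235 k20 5 8))))), (.s k85 k170 14 (.s
  k166 k247 12 (.s k134 k73 10 (.s k150 k182 3 (.d k215 k235 k20 5 8)))))] (.c k31 (.q k47 [(.s k130
  k65 8 (.s k134 k73 10 (.s k69 k199 8 (.d k138 k142 k207 1 10)))), (.s k65 k130 8 (.s k85 k170 14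
  (.s k105 k125 5 (.s k150 k60 14 (.d k215 k235 k20 5 8))))), (.s k85 k170 14 (.s k166 k247 12 (.s
  k134 k73 10 (.s k150 k182 3 (.d k215 k235 k20 5 8)))))] .n) (.c k47 (.q k31 [(.s k130 k65 8 (.s
  k134 k73 10 (.s k69 k199 8 (.d k138 k142 k207 1 10)))), (.s k65 k130 8 (.s k85 k170 14 (.s k105
  k125 5 (.s k150 k60 14 (.d k215 k235 k20 5 8))))), (.s k85 k170 14 (.s k166 k247 12 (.s k134 k73
  10 (.s k150 k182 3 (.d k215 k235 k20 5 8)))))] (.c k107 (.q k227 [(.s k130 k65 8 (.s k134 k73 10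
  (.s k69 k199 8 (.d k138 k142 k207 1 10)))), (.s k65 k130 8 (.s k85 k170 14 (.s k166 k247 12 (.d
  k105 k125 k44 5 10)))), (.s k85 k170 14 (.s k166 k247 12 (.s k73 k134 10 (.s k105 k44 10 (.d k89
  k81 k121 1 3)))))] .n) (.c k227 (.q k107 [(.s k130 k65 8 (.s k134 k73 10 (.s k69 k199 8 (.d k138
  k142 k207 1 10)))), (.s k65 k130 8 (.s k85 k170 14 (.s k105 k125 5 (.s k150 k60 14 (.d k215 k235
  k20 5 8))))), (.s k85 k170 14 (.s k166 k247 12 (.s k134 k73 10 (.s k150 k182 3 (.d k215 k235 k20 5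
  8)))))] .n) .n))) .n))) (.c k183 (.q k123 [(.s k130 k65 8 (.s k134 k73 10 (.s k69 k199 8 (.d k138
  k142 k207 1 10)))), (.s k65 k130 8 (.s k85 k170 14 (.s k105 k125 5 (.s k150 k60 14 (.d k215 k235
  k20 5 8))))), (.s k85 k170 14 (.s k166 k247 12 (.s k134 k73 10 (.s k150 k182 3 (.d k215 k235 k20 5
  8)))))] (.c k31 (.q k47 [(.s k130 k65 8 (.s k134 k73 10 (.s k69 k199 8 (.d k138 k142 k207 1
  10)))), (.s k65 k130 8 (.s k85 k170 14 (.s k105 k125 5 (.s k150 k60 14 (.d k215 k235 k20 5 8))))),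
  (.s k85 k170 14 (.s k166 k247 12 (.s k134 k73 10 (.s k150 k182 3 (.d k215 k235 k20 5 8)))))] (.c
  k135 (.q k151 [(.s k130 k65 8 (.s k134 k73 10 (.s k69 k199 8 (.d k138 k142 k207 1 10)))), (.s k65
  k130 8 (.s k85 k170 14 (.s k105 k125 5 (.s k150 k60 14 (.d k215 k235 k20 5 8))))), (.s k85 k170 14
  (.s k166 k247 12 (.s k134 k73 10 (.s k150 k182 3 (.d k215 k235 k20 5 8)))))] .n) (.c k151 (.q k135
  [(.s k130 k65 8 (.s k134 k73 10 (.s k69 k199 8 (.d k138 k142 k207 1 10)))), (.s k65 k130 8 (.s k85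
  k170 14 (.s k105 k125 5 (.s k150 k60 14 (.d k215 k235 k20 5 8))))), (.s k85 k170 14 (.s k166 k247
  12 (.s k134 k73 10 (.s k150 k182 3 (.d k215 k235 k20 5 8)))))] .n) .n))) (.c k47 (.q k31 [(.s k130
  k65 8 (.s k134 k73 10 (.s k69 k199 8 (.d k138 k142 k207 1 10)))), (.s k65 k130 8 (.s k85 k170 14
  (.s k105 k125 5 (.s k150 k60 14 (.d k215 k235 k20 5 8))))), (.s k85 k170 14 (.s k166 k247 12 (.s
  k134 k73 10 (.s k150 k182 3 (.d k215 k235 k20 5 8)))))] (.c k107 (.q k227 [(.s k130 k65 8 (.s k134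
  k73 10 (.s k69 k199 8 (.d k138 k142 k207 1 10)))), (.s k65 k130 8 (.s k85 k170 14 (.s k166 k247 12
  (.d k105 k125 k44 5 10)))), (.s k85 k170 14 (.s k166 k247 12 (.s k73 k134 10 (.s k105 k44 10 (.d
  k89 k81 k121 1 3)))))] (.c k135 (.l (.s k151 k211 9 (.s k65 k130 8 (.s k85 k170 14 (.s k166 k247
  12 (.d k105 k125 k44 5 10)))))) (.c k151 (.q k135 [(.s k130 k65 8 (.s k134 k73 10 (.s k69 k199 8
  (.d k138 k142 k207 1 10)))), (.s k65 k130 8 (.s k85 k170 14 (.s k105 k125 5 (.d k166 k44 k247 10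
  12)))), (.s k85 k170 14 (.s k166 k247 12 (.s k73 k134 10 (.s k105 k44 10 (.d k89 k81 k121 1
  3)))))] .n) .n))) (.c k135 (.l (.s k151 k211 9 (.s k130 k65 8 (.s k134 k73 10 (.s k69 k199 8 (.d
  k138 k142 k207 1 10)))))) (.c k151 (.q k135 [(.s k130 k65 8 (.s k134 k73 10 (.s k69 k199 8 (.d
  k138 k142 k207 1 10)))), (.s k65 k130 8 (.s k85 k170 14 (.s k105 k125 5 (.s k150 k60 14 (.d k215
  k235 k20 5 8))))), (.s k85 k170 14 (.s k166 k247 12 (.s k134 k73 10 (.s k150 k182 3 (.d k215 k235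
  k20 5 8)))))] (.c k107 (.q k227 [(.s k130 k65 8 (.s k134 k73 10 (.s k69 k199 8 (.d k138 k142 k207
  1 10)))), (.s k65 k130 8 (.s k85 k170 14 (.s k105 k125 5 (.d k166 k44 k247 10 12)))), (.s k85 k170
  14 (.s k166 k247 12 (.s k73 k134 10 (.s k105 k44 10 (.d k89 k81 k121 1 3)))))] .n) (.c k227 (.l
  (.s k107 k75 3 (.s k130 k65 8 (.s k134 k73 10 (.s k69 k199 8 (.d k138 k142 k207 1 10)))))) .n)))
  (.c k227 (.l (.s k107 k75 3 (.s k130 k65 8 (.s k134 k73 10 (.s k69 k199 8 (.d k138 k142 k207 1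
  10)))))) .n))))) (.c k135 (.q k151 [(.s k130 k65 8 (.s k134 k73 10 (.s k69 k199 8 (.d k138 k142
  k207 1 10)))), (.s k65 k130 8 (.s k85 k170 14 (.s k105 k125 5 (.s k150 k60 14 (.d k215 k235 k20 5
  8))))), (.s k85 k170 14 (.s k166 k247 12 (.s k134 k73 10 (.s k150 k182 3 (.d k215 k235 k20 5
  8)))))] (.c k31 (.q k47 [(.s k130 k65 8 (.s k134 k73 10 (.s k69 k199 8 (.d k138 k142 k207 1
  10)))), (.s k65 k130 8 (.s k85 k170 14 (.s k105 k125 5 (.s k150 k60 14 (.d k215 k235 k20 5 8))))),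
  (.s k85 k170 14 (.s k166 k247 12 (.s k134 k73 10 (.s k150 k182 3 (.d k215 k235 k20 5 8)))))] .n)
  (.c k47 (.l (.s k31 k211 9 (.s k130 k65 8 (.s k134 k73 10 (.s k69 k199 8 (.d k138 k142 k207 1
  10)))))) .n))) (.c k151 (.q k135 [(.s k130 k65 8 (.s k134 k73 10 (.s k69 k199 8 (.d k138 k142 k207
  1 10)))), (.s k65 k130 8 (.s k85 k170 14 (.s k105 k125 5 (.s k150 k60 14 (.d k215 k235 k20 5
  8))))), (.s k85 k170 14 (.s k166 k247 12 (.s k134 k73 10 (.s k150 k182 3 (.d k215 k235 k20 5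
  8)))))] (.c k31 (.q k47 [(.s k130 k65 8 (.s k134 k73 10 (.s k69 k199 8 (.d k138 k142 k207 1
  10)))), (.s k65 k130 8 (.s k85 k170 14 (.s k105 k125 5 (.s k150 k60 14 (.d k215 k235 k20 5 8))))),
  (.s k85 k170 14 (.s k166 k247 12 (.s k134 k73 10 (.s k150 k182 3 (.d k215 k235 k20 5 8)))))] .n)
  (.c k47 (.q k31 [(.s k130 k65 8 (.s k134 k73 10 (.s k69 k199 8 (.d k138 k142 k207 1 10)))), (.s
  k65 k130 8 (.s k85 k170 14 (.s k105 k125 5 (.s k150 k60 14 (.d k215 k235 k20 5 8))))), (.s k85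
  k170 14 (.s k166 k247 12 (.s k134 k73 10 (.s k150 k182 3 (.d k215 k235 k20 5 8)))))] (.c k107 (.q
  k227 [(.s k130 k65 8 (.s k134 k73 10 (.s k69 k199 8 (.d k138 k142 k207 1 10)))), (.s k65 k130 8
  (.s k85 k170 14 (.s k105 k125 5 (.d k166 k44 k247 10 12)))), (.s k85 k170 14 (.s k166 k247 12 (.s
  k73 k134 10 (.s k105 k44 10 (.d k89 k81 k121 1 3)))))] .n) (.c k227 (.l (.s k107 k75 3 (.s k130
  k65 8 (.s k134 k73 10 (.s k69 k199 8 (.d k138 k142 k207 1 10)))))) .n))) .n))) .n))))) .n))))) (.c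
  k183 (.q k123 [(.s k130 k65 8 (.s k134 k73 10 (.s k69 k199 8 (.d k138 k142 k207 1 10)))), (.s k65
  k130 8 (.s k85 k170 14 (.s k105 k125 5 (.s k150 k60 14 (.d k215 k235 k20 5 8))))), (.s k85 k170 14
  (.s k166 k247 12 (.s k134 k73 10 (.s k150 k182 3 (.d k215 k235 k20 5 8)))))] (.c k31 (.q k47 [(.s
  k130 k65 8 (.s k134 k73 10 (.s k69 k199 8 (.d k138 k142 k207 1 10)))), (.s k65 k130 8 (.s k85 k170
  14 (.s k105 k125 5 (.s k150 k60 14 (.d k215 k235 k20 5 8))))), (.s k85 k170 14 (.s k166 k247 12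
  (.s k134 k73 10 (.s k150 k182 3 (.d k215 k235 k20 5 8)))))] (.c k91 (.q k167 [(.s k130 k65 8 (.s
  k134 k73 10 (.s k69 k199 8 (.d k138 k142 k207 1 10)))), (.s k65 k130 8 (.s k85 k170 14 (.s k166
  k247 12 (.s k227 k107 9 (.d k105 k125 k44 5 10))))), (.s k85 k170 14 (.s k166 k247 12 (.s k134 k73
  10 (.s k150 k182 3 (.d k215 k235 k20 5 8)))))] (.c k151 (.q k211 [(.s k130 k65 8 (.s k134 k73 10
  (.s k69 k199 8 (.d k138 k142 k207 1 10)))), (.s k85 k170 14 (.s k89 k81 1 (.s k150 k28 10 (.d k215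
  k235 k20 5 8))))] .n) (.c k211 (.q k151 [(.s k130 k65 8 (.s k134 k73 10 (.s k69 k199 8 (.d k138
  k142 k207 1 10)))), (.s k85 k170 14 (.s k215 k235 5 (.s k87 k23 7 (.d k247 k166 k7 12 11))))] .n)
  .n))) (.c k167 (.q k91 [(.s k130 k65 8 (.s k134 k73 10 (.s k69 k199 8 (.d k138 k142 k207 1 10)))),
  (.s k65 k130 8 (.s k85 k170 14 (.s k105 k125 5 (.s k150 k60 14 (.d k215 k235 k20 5 8))))), (.s k85
  k170 14 (.s k166 k247 12 (.s k134 k73 10 (.s k150 k182 3 (.d k215 k235 k20 5 8)))))] (.c k135 (.q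
  k151 [(.s k130 k65 8 (.s k134 k73 10 (.s k69 k199 8 (.d k138 k142 k207 1 10)))), (.s k65 k130 8
  (.s k85 k170 14 (.s k105 k125 5 (.s k150 k60 14 (.d k215 k235 k20 5 8))))), (.s k85 k170 14 (.s
  k166 k247 12 (.s k134 k73 10 (.s k150 k182 3 (.d k215 k235 k20 5 8)))))] .n) (.c k151 (.q k135
  [(.s k130 k65 8 (.s k134 k73 10 (.s k69 k199 8 (.d k138 k142 k207 1 10)))), (.s k65 k130 8 (.s k85
  k170 14 (.s k105 k125 5 (.s k150 k60 14 (.d k215 k235 k20 5 8))))), (.s k85 k170 14 (.s k166 k247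
  12 (.s k134 k73 10 (.s k150 k182 3 (.d k215 k235 k20 5 8)))))] .n) .n))) .n))) (.c k47 (.q k31
  [(.s k130 k65 8 (.s k134 k73 10 (.s k69 k199 8 (.d k138 k142 k207 1 10)))), (.s k65 k130 8 (.s k85
  k170 14 (.s k105 k125 5 (.s k150 k60 14 (.d k215 k235 k20 5 8))))), (.s k85 k170 14 (.s k166 k247
  12 (.s k134 k73 10 (.s k150 k182 3 (.d k215 k235 k20 5 8)))))] (.c k91 (.q k167 [(.s k130 k65 8
  (.s k134 k73 10 (.s k69 k199 8 (.d k138 k142 k207 1 10)))), (.s k65 k130 8 (.s k85 k170 14 (.s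
  k105 k125 5 (.s k150 k60 14 (.d k215 k235 k20 5 8))))), (.s k85 k170 14 (.s k166 k247 12 (.s k134
  k73 10 (.s k150 k182 3 (.d k215 k235 k20 5 8)))))] .n) (.c k167 (.q k91 [(.s k130 k65 8 (.s k134
  k73 10 (.s k69 k199 8 (.d k138 k142 k207 1 10)))), (.s k65 k130 8 (.s k85 k170 14 (.s k105 k125 5
  (.s k150 k60 14 (.d k215 k235 k20 5 8))))), (.s k85 k170 14 (.s k166 k247 12 (.s k134 k73 10 (.s
  k150 k182 3 (.d k215 k235 k20 5 8)))))] (.c k107 (.q k227 [(.s k130 k65 8 (.s k134 k73 10 (.s k69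
  k199 8 (.d k138 k142 k207 1 10)))), (.s k65 k130 8 (.s k85 k170 14 (.s k166 k247 12 (.d k105 k125
  k44 5 10)))), (.s k85 k170 14 (.s k166 k247 12 (.s k73 k134 10 (.s k105 k44 10 (.d k89 k81 k121 1
  3)))))] (.c k135 (.l (.s k151 k211 9 (.s k65 k130 8 (.s k85 k170 14 (.s k166 k247 12 (.d k105 k125
  k44 5 10)))))) (.c k151 (.q k135 [(.s k130 k65 8 (.s k134 k73 10 (.s k69 k199 8 (.d k138 k142 k207
  1 10)))), (.s k65 k130 8 (.s k85 k170 14 (.s k105 k125 5 (.d k166 k44 k247 10 12)))), (.s k85 k170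
  14 (.s k166 k247 12 (.s k73 k134 10 (.s k105 k44 10 (.d k89 k81 k121 1 3)))))] .n) .n))) (.c k135
  (.l (.s k151 k211 9 (.s k130 k65 8 (.s k134 k73 10 (.s k69 k199 8 (.d k138 k142 k207 1 10))))))
  (.c k151 (.q k135 [(.s k130 k65 8 (.s k134 k73 10 (.s k69 k199 8 (.d k138 k142 k207 1 10)))), (.s
  k65 k130 8 (.s k85 k170 14 (.s k105 k125 5 (.s k150 k60 14 (.d k215 k235 k20 5 8))))), (.s k85
  k170 14 (.s k166 k247 12 (.s k134 k73 10 (.s k150 k182 3 (.d k215 k235 k20 5 8)))))] (.c k107 (.q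
  k227 [(.s k130 k65 8 (.s k134 k73 10 (.s k69 k199 8 (.d k138 k142 k207 1 10)))), (.s k65 k130 8
  (.s k85 k170 14 (.s k105 k125 5 (.d k166 k44 k247 10 12)))), (.s k85 k170 14 (.s k166 k247 12 (.s
  k73 k134 10 (.s k105 k44 10 (.d k89 k81 k121 1 3)))))] .n) (.c k227 (.l (.s k107 k75 3 (.s k130
  k65 8 (.s k134 k73 10 (.s k69 k199 8 (.d k138 k142 k207 1 10)))))) .n))) (.c k227 (.l (.s k107 k75
  3 (.s k130 k65 8 (.s k134 k73 10 (.s k69 k199 8 (.d k138 k142 k207 1 10)))))) .n))))) .n))) (.c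
  k91 (.q k167 [(.s k130 k65 8 (.s k134 k73 10 (.s k69 k199 8 (.d k138 k142 k207 1 10)))), (.s k65
  k130 8 (.s k85 k170 14 (.s k105 k125 5 (.s k150 k60 14 (.d k215 k235 k20 5 8))))), (.s k85 k170 14
  (.s k166 k247 12 (.s k134 k73 10 (.s k150 k182 3 (.d k215 k235 k20 5 8)))))] (.c k31 (.q k47 [(.s
  k130 k65 8 (.s k134 k73 10 (.s k69 k199 8 (.d k138 k142 k207 1 10)))), (.s k65 k130 8 (.s k85 k170
  14 (.s k166 k247 12 (.s k227 k107 9 (.d k105 k125 k44 5 10))))), (.s k85 k170 14 (.s k166 k247 12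
  (.s k134 k73 10 (.s k150 k182 3 (.d k215 k235 k20 5 8)))))] (.c k151 (.q k211 [(.s k130 k65 8 (.s
  k134 k73 10 (.s k69 k199 8 (.d k138 k142 k207 1 10)))), (.s k85 k170 14 (.s k89 k81 1 (.s k150 k28
  10 (.d k215 k235 k20 5 8))))] .n) (.c k211 (.q k151 [(.s k130 k65 8 (.s k134 k73 10 (.s k69 k199 8
  (.d k138 k142 k207 1 10)))), (.s k85 k170 14 (.s k215 k235 5 (.s k87 k23 7 (.d k247 k166 k7 12
  11))))] .n) .n))) (.c k47 (.q k31 [(.s k130 k65 8 (.s k134 k73 10 (.s k69 k199 8 (.d k138 k142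
  k207 1 10)))), (.s k65 k130 8 (.s k85 k170 14 (.s k105 k125 5 (.s k150 k60 14 (.d k215 k235 k20 5
  8))))), (.s k85 k170 14 (.s k166 k247 12 (.s k134 k73 10 (.s k150 k182 3 (.d k215 k235 k20 5
  8)))))] .n) .n))) (.c k167 (.q k91 [(.s k130 k65 8 (.s k134 k73 10 (.s k69 k199 8 (.d k138 k142
  k207 1 10)))), (.s k65 k130 8 (.s k85 k170 14 (.s k105 k125 5 (.s k150 k60 14 (.d k215 k235 k20 5
  8))))), (.s k85 k170 14 (.s k166 k247 12 (.s k134 k73 10 (.s k150 k182 3 (.d k215 k235 k20 5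
  8)))))] (.c k31 (.q k47 [(.s k130 k65 8 (.s k134 k73 10 (.s k69 k199 8 (.d k138 k142 k207 1
  10)))), (.s k65 k130 8 (.s k85 k170 14 (.s k105 k125 5 (.s k150 k60 14 (.d k215 k235 k20 5 8))))),
  (.s k85 k170 14 (.s k166 k247 12 (.s k134 k73 10 (.s k150 k182 3 (.d k215 k235 k20 5 8)))))] (.c
  k135 (.q k151 [(.s k130 k65 8 (.s k134 k73 10 (.s k69 k199 8 (.d k138 k142 k207 1 10)))), (.s k65
  k130 8 (.s k85 k170 14 (.s k105 k125 5 (.s k150 k60 14 (.d k215 k235 k20 5 8))))), (.s k85 k170 14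
  (.s k166 k247 12 (.s k134 k73 10 (.s k150 k182 3 (.d k215 k235 k20 5 8)))))] .n) (.c k151 (.q k135
  [(.s k130 k65 8 (.s k134 k73 10 (.s k69 k199 8 (.d k138 k142 k207 1 10)))), (.s k65 k130 8 (.s k85
  k170 14 (.s k105 k125 5 (.s k150 k60 14 (.d k215 k235 k20 5 8))))), (.s k85 k170 14 (.s k166 k247
  12 (.s k134 k73 10 (.s k150 k182 3 (.d k215 k235 k20 5 8)))))] .n) .n))) (.c k47 (.q k31 [(.s k130
  k65 8 (.s k134 k73 10 (.s k69 k199 8 (.d k138 k142 k207 1 10)))), (.s k65 k130 8 (.s k85 k170 14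
  (.s k105 k125 5 (.s k150 k60 14 (.d k215 k235 k20 5 8))))), (.s k85 k170 14 (.s k166 k247 12 (.s
  k134 k73 10 (.s k150 k182 3 (.d k215 k235 k20 5 8)))))] (.c k107 (.q k227 [(.s k130 k65 8 (.s k134
  k73 10 (.s k69 k199 8 (.d k138 k142 k207 1 10)))), (.s k65 k130 8 (.s k85 k170 14 (.s k166 k247 12
  (.d k105 k125 k44 5 10)))), (.s k85 k170 14 (.s k166 k247 12 (.s k73 k134 10 (.s k105 k44 10 (.d
  k89 k81 k121 1 3)))))] (.c k135 (.l (.s k151 k211 9 (.s k65 k130 8 (.s k85 k170 14 (.s k166 k247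
  12 (.d k105 k125 k44 5 10)))))) (.c k151 (.q k135 [(.s k130 k65 8 (.s k134 k73 10 (.s k69 k199 8
  (.d k138 k142 k207 1 10)))), (.s k65 k130 8 (.s k85 k170 14 (.s k105 k125 5 (.d k166 k44 k247 10
  12)))), (.s k85 k170 14 (.s k166 k247 12 (.s k73 k134 10 (.s k105 k44 10 (.d k89 k81 k121 1
  3)))))] .n) .n))) (.c k135 (.l (.s k151 k211 9 (.s k130 k65 8 (.s k134 k73 10 (.s k69 k199 8 (.d
  k138 k142 k207 1 10)))))) (.c k151 (.q k135 [(.s k130 k65 8 (.s k134 k73 10 (.s k69 k199 8 (.d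
  k138 k142 k207 1 10)))), (.s k65 k130 8 (.s k85 k170 14 (.s k105 k125 5 (.s k150 k60 14 (.d k215
  k235 k20 5 8))))), (.s k85 k170 14 (.s k166 k247 12 (.s k134 k73 10 (.s k150 k182 3 (.d k215 k235
  k20 5 8)))))] (.c k107 (.q k227 [(.s k130 k65 8 (.s k134 k73 10 (.s k69 k199 8 (.d k138 k142 k207
  1 10)))), (.s k65 k130 8 (.s k85 k170 14 (.s k105 k125 5 (.d k166 k44 k247 10 12)))), (.s k85 k170
  14 (.s k166 k247 12 (.s k73 k134 10 (.s k105 k44 10 (.d k89 k81 k121 1 3)))))] .n) (.c k227 (.l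
  (.s k107 k75 3 (.s k130 k65 8 (.s k134 k73 10 (.s k69 k199 8 (.d k138 k142 k207 1 10)))))) .n)))
  (.c k227 (.l (.s k107 k75 3 (.s k130 k65 8 (.s k134 k73 10 (.s k69 k199 8 (.d k138 k142 k207 1
  10)))))) .n))))) (.c k135 (.q k151 [(.s k130 k65 8 (.s k134 k73 10 (.s k69 k199 8 (.d k138 k142
  k207 1 10)))), (.s k65 k130 8 (.s k85 k170 14 (.s k105 k125 5 (.s k150 k60 14 (.d k215 k235 k20 5
  8))))), (.s k85 k170 14 (.s k166 k247 12 (.s k134 k73 10 (.s k150 k182 3 (.d k215 k235 k20 5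
  8)))))] (.c k31 (.q k47 [(.s k130 k65 8 (.s k134 k73 10 (.s k69 k199 8 (.d k138 k142 k207 1
  10)))), (.s k65 k130 8 (.s k85 k170 14 (.s k105 k125 5 (.s k150 k60 14 (.d k215 k235 k20 5 8))))),
  (.s k85 k170 14 (.s k166 k247 12 (.s k134 k73 10 (.s k150 k182 3 (.d k215 k235 k20 5 8)))))] .n)
  (.c k47 (.l (.s k31 k211 9 (.s k130 k65 8 (.s k134 k73 10 (.s k69 k199 8 (.d k138 k142 k207 1
  10)))))) .n))) (.c k151 (.q k135 [(.s k130 k65 8 (.s k134 k73 10 (.s k69 k199 8 (.d k138 k142 k207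
  1 10)))), (.s k65 k130 8 (.s k85 k170 14 (.s k105 k125 5 (.s k150 k60 14 (.d k215 k235 k20 5
  8))))), (.s k85 k170 14 (.s k166 k247 12 (.s k134 k73 10 (.s k150 k182 3 (.d k215 k235 k20 5
  8)))))] (.c k31 (.q k47 [(.s k130 k65 8 (.s k134 k73 10 (.s k69 k199 8 (.d k138 k142 k207 1
  10)))), (.s k65 k130 8 (.s k85 k170 14 (.s k105 k125 5 (.s k150 k60 14 (.d k215 k235 k20 5 8))))),
  (.s k85 k170 14 (.s k166 k247 12 (.s k134 k73 10 (.s k150 k182 3 (.d k215 k235 k20 5 8)))))] .n)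
  (.c k47 (.q k31 [(.s k130 k65 8 (.s k134 k73 10 (.s k69 k199 8 (.d k138 k142 k207 1 10)))), (.s
  k65 k130 8 (.s k85 k170 14 (.s k105 k125 5 (.s k150 k60 14 (.d k215 k235 k20 5 8))))), (.s k85
  k170 14 (.s k166 k247 12 (.s k134 k73 10 (.s k150 k182 3 (.d k215 k235 k20 5 8)))))] (.c k107 (.q
  k227 [(.s k130 k65 8 (.s k134 k73 10 (.s k69 k199 8 (.d k138 k142 k207 1 10)))), (.s k65 k130 8
  (.s k85 k170 14 (.s k105 k125 5 (.d k166 k44 k247 10 12)))), (.s k85 k170 14 (.s k166 k247 12 (.s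
  k73 k134 10 (.s k105 k44 10 (.d k89 k81 k121 1 3)))))] .n) (.c k227 (.l (.s k107 k75 3 (.s k130
  k65 8 (.s k134 k73 10 (.s k69 k199 8 (.d k138 k142 k207 1 10)))))) .n))) .n))) .n))))) .n)))))
  .n))))))))) (.c k247 (.l (.s k8 k4 1 (.s k174 k93 12 (.s k170 k85 14 (.s k166 k162 1 (.d k89 k251
  k243 12 14)))))) (.c k251 (.l (.s k4 k8 1 (.s k93 k174 12 (.s k85 k170 14 (.s k89 k81 1 (.d k166
  k247 k243 12 14)))))) .n)))))))))))))))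

def t21 : T TT 256 :=
  (.q k12 [(.s k4 k8 1 (.s k85 k170 14 (.s k166 k247 12 (.s k93 k174 12 (.d k89 k81 k243 1 14)))))]
  (.c k4 (.f k85 k170 14 (.q k48 [(.s k16 k32 3 (.s k154 k223 10 (.s k117 k186 10 (.d k101 k69 k207
  3 14)))), (.s k24 k36 5 (.s k93 k174 12 (.s k89 k81 1 (.s k154 k219 8 (.d k16 k32 k223 3 10))))),
  (.s k36 k24 5 (.s k93 k174 12 (.s k89 k81 1 (.s k166 k243 14 (.s k101 k231 8 (.d k117 k69 k186 3
  10))))))] (.c k38 (.q k55 [(.s k16 k32 3 (.s k154 k223 10 (.s k117 k186 10 (.d k101 k69 k207 3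
  14)))), (.s k24 k36 5 (.s k93 k174 12 (.s k89 k81 1 (.s k154 k219 8 (.d k16 k32 k223 3 10))))),
  (.s k36 k24 5 (.s k93 k174 12 (.s k89 k81 1 (.s k166 k243 14 (.s k101 k231 8 (.d k117 k69 k186 3
  10))))))] .n) (.c k55 (.q k38 [(.s k16 k32 3 (.s k154 k223 10 (.s k117 k186 10 (.d k101 k69 k207 3
  14)))), (.s k36 k24 5 (.s k51 k25 6 (.s k37 k39 0 (.s k26 k15 6 (.d k50 k49 k14 0 5)))))] (.c k51
  (.q k59 [(.s k16 k32 3 (.s k154 k223 10 (.s k117 k186 10 (.d k101 k69 k207 3 14)))), (.s k24 k36 5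
  (.s k93 k174 12 (.s k89 k81 1 (.s k154 k219 8 (.d k16 k32 k223 3 10))))), (.s k36 k24 5 (.s k93
  k174 12 (.s k89 k81 1 (.s k166 k243 14 (.s k101 k231 8 (.d k117 k69 k186 3 10))))))] .n) (.c k59
  (.l (.s k51 k25 6 (.s k16 k32 3 (.s k154 k223 10 (.s k101 k207 14 (.d k117 k69 k186 3 10))))))
  .n))) .n)))) (.c k8 (.q k13 [(.s k15 k14 0 (.s k93 k174 12 (.s k173 k253 11 (.s k95 k175 11 (.d
  k94 k92 k252 0 12))))), (.s k85 k170 14 (.s k15 k14 0 (.s k5 k10 2 (.s k165 k245 11 (.s k90 k240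
  14 (.d k95 k80 k175 2 11)))))), (.s k85 k170 14 (.s k93 k174 12 (.s k253 k173 11 (.s k1 k169 13
  (.s k3 k2 0 (.d k9 k5 k6 1 2))))))] (.c k175 (.l (.s k85 k170 14 (.s k15 k14 0 (.s k5 k10 2 (.s
  k165 k245 11 (.s k93 k174 12 (.d k89 k81 k241 1 13))))))) .n)) (.c k81 (.l (.s k8 k4 1 (.s k170
  k85 14 (.s k89 k251 12 (.s k166 k243 14 (.d k174 k93 k162 12 1)))))) (.c k85 (.f k4 k8 1 (.q k13
  [(.s k15 k14 0 (.s k5 k10 2 (.s k6 k7 0 (.d k9 k1 k3 1 2)))), (.s k93 k174 12 (.s k253 k173 11 (.s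
  k252 k254 0 (.s k84 k168 13 (.s k164 k244 11 (.s k88 k240 13 (.d k92 k172 k80 11 1)))))))] (.c k14
  (.q k48 [(.s k36 k24 5 (.s k20 k52 3 (.s k40 k60 5 (.d k32 k44 k16 1 3)))), (.s k93 k174 12 (.s
  k253 k173 11 (.s k117 k186 10 (.s k49 k185 9 (.s k25 k37 5 (.d k51 k50 k38 0 6))))))] (.c k149 (.q
  k213 [(.s k36 k24 5 (.s k20 k52 3 (.s k40 k60 5 (.d k32 k44 k16 1 3)))), (.s k192 k234 6 (.s k128
  k64 7 (.s k132 k72 9 (.s k68 k196 7 (.d k136 k140 k204 1 9)))))] (.c k106 (.l (.s k192 k234 6 (.s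
  k32 k16 3 (.s k36 k24 5 (.s k20 k52 3 (.d k40 k44 k60 1 5)))))) (.c k192 (.q k106 [(.s k36 k24 5
  (.s k20 k52 3 (.s k40 k60 5 (.d k32 k44 k16 1 3)))), (.s k93 k174 12 (.s k253 k173 11 (.s k117
  k186 10 (.s k49 k185 9 (.s k25 k37 5 (.d k51 k50 k38 0 6))))))] .n) .n))) (.c k213 (.q k149 [(.s
  k36 k24 5 (.s k20 k52 3 (.s k40 k60 5 (.d k32 k44 k16 1 3)))), (.s k93 k174 12 (.s k253 k173 11
  (.s k117 k186 10 (.s k49 k185 9 (.s k25 k37 5 (.d k51 k50 k38 0 6))))))] .n) .n))) (.c k149 (.q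
  k213 [(.s k15 k14 0 (.s k5 k10 2 (.s k6 k7 0 (.d k9 k1 k3 1 2)))), (.s k192 k234 6 (.s k128 k64 7
  (.s k132 k72 9 (.s k68 k196 7 (.d k136 k140 k204 1 9)))))] (.c k106 (.l (.s k192 k234 6 (.s k15
  k14 0 (.s k5 k10 2 (.s k9 k1 1 (.d k6 k7 k3 0 2)))))) (.c k192 (.q k106 [(.s k15 k14 0 (.s k5 k10
  2 (.s k6 k7 0 (.d k9 k1 k3 1 2)))), (.s k93 k174 12 (.s k253 k173 11 (.s k252 k254 0 (.s k84 k168
  13 (.s k164 k244 11 (.s k88 k240 13 (.d k92 k172 k80 11 1)))))))] (.c k14 (.q k48 [(.s k36 k24 5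
  (.s k20 k52 3 (.s k40 k60 5 (.d k32 k44 k16 1 3)))), (.s k93 k174 12 (.s k253 k173 11 (.s k117
  k186 10 (.s k49 k185 9 (.s k25 k37 5 (.d k51 k50 k38 0 6))))))] .n) .n)) .n))) (.c k213 (.q k149
  [(.s k15 k14 0 (.s k5 k10 2 (.s k6 k7 0 (.d k9 k1 k3 1 2)))), (.s k93 k174 12 (.s k253 k173 11 (.s
  k252 k254 0 (.s k84 k168 13 (.s k164 k244 11 (.s k88 k240 13 (.d k92 k172 k80 11 1)))))))] (.c k14
  (.q k48 [(.s k36 k24 5 (.s k20 k52 3 (.s k40 k60 5 (.d k32 k44 k16 1 3)))), (.s k93 k174 12 (.s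
  k253 k173 11 (.s k117 k186 10 (.s k49 k185 9 (.s k25 k37 5 (.d k51 k50 k38 0 6))))))] .n) .n))
  .n))))) (.c k89 (.q k13 [(.s k15 k14 0 (.s k93 k174 12 (.s k173 k253 11 (.s k94 k252 12 (.d k95
  k92 k175 0 11))))), (.s k4 k8 1 (.s k15 k14 0 (.s k5 k10 2 (.s k9 k1 1 (.d k6 k7 k3 0 2))))), (.s
  k85 k170 14 (.s k93 k174 12 (.s k253 k173 11 (.s k1 k169 13 (.s k3 k2 0 (.d k9 k5 k6 1 2))))))]
  .n) (.c k93 (.q k48 [(.s k4 k8 1 (.s k36 k24 5 (.s k20 k52 3 (.s k40 k60 5 (.d k32 k44 k16 1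
  3))))), (.s k16 k32 3 (.s k85 k170 14 (.s k154 k223 10 (.s k101 k207 14 (.d k117 k69 k186 3
  10))))), (.s k4 k8 1 (.s k85 k170 14 (.s k166 k247 12 (.s k36 k24 5 (.s k101 k231 8 (.d k117 k69
  k186 3 10))))))] .n) (.c k166 (.q k48 [(.s k4 k8 1 (.s k36 k24 5 (.s k20 k52 3 (.s k40 k60 5 (.d
  k32 k44 k16 1 3))))), (.s k16 k32 3 (.s k85 k170 14 (.s k154 k223 10 (.s k101 k207 14 (.d k117 k69
  k186 3 10))))), (.s k170 k85 14 (.s k24 k36 5 (.s k186 k117 10 (.s k154 k138 3 (.s k89 k219 8 (.d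
  k8 k4 k251 1 12))))))] .n) (.c k170 (.q k13 [(.s k15 k14 0 (.s k93 k174 12 (.s k173 k253 11 (.s
  k94 k252 12 (.d k95 k92 k175 0 11))))), (.s k4 k8 1 (.s k15 k14 0 (.s k5 k10 2 (.s k9 k1 1 (.d k6
  k7 k3 0 2)))))] (.c k14 (.q k48 [(.s k4 k8 1 (.s k36 k24 5 (.s k20 k52 3 (.s k40 k60 5 (.d k32 k44
  k16 1 3))))), (.s k93 k174 12 (.s k253 k173 11 (.s k117 k186 10 (.s k49 k185 9 (.s k25 k37 5 (.d
  k51 k50 k38 0 6))))))] .n) (.c k15 (.f k4 k8 1 (.l (.s k93 k174 12 (.s k253 k173 11 (.s k252 k254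
  0 (.s k84 k168 13 (.s k164 k244 11 (.s k88 k240 13 (.d k92 k172 k80 11 1))))))))) .n))) (.c k174
  (.q k48 [(.s k4 k8 1 (.s k36 k24 5 (.s k20 k52 3 (.s k40 k60 5 (.d k32 k44 k16 1 3))))), (.s k16
  k32 3 (.s k85 k170 14 (.s k154 k223 10 (.s k101 k207 14 (.d k117 k69 k186 3 10))))), (.s k4 k8 1
  (.s k85 k170 14 (.s k166 k247 12 (.s k36 k24 5 (.s k101 k231 8 (.d k117 k69 k186 3 10))))))] .n)
  (.c k243 (.f k4 k8 1 (.q k48 [(.s k32 k16 3 (.s k36 k24 5 (.s k20 k52 3 (.d k40 k44 k60 1 5)))),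
  (.s k16 k32 3 (.s k85 k170 14 (.s k154 k223 10 (.s k101 k207 14 (.d k117 k69 k186 3 10))))), (.s
  k85 k170 14 (.s k166 k247 12 (.s k36 k24 5 (.s k101 k231 8 (.d k117 k69 k186 3 10)))))] (.c k123
  (.q k183 [(.s k32 k16 3 (.s k36 k24 5 (.s k20 k52 3 (.d k40 k44 k60 1 5)))), (.s k16 k32 3 (.s k85
  k170 14 (.s k154 k223 10 (.s k101 k207 14 (.d k117 k69 k186 3 10))))), (.s k85 k170 14 (.s k166
  k247 12 (.s k36 k24 5 (.s k101 k231 8 (.d k117 k69 k186 3 10)))))] .n) (.c k183 (.q k123 [(.s k32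
  k16 3 (.s k36 k24 5 (.s k20 k52 3 (.d k40 k44 k60 1 5)))), (.s k16 k32 3 (.s k85 k170 14 (.s k154
  k223 10 (.s k101 k207 14 (.d k117 k69 k186 3 10))))), (.s k85 k170 14 (.s k166 k247 12 (.s k36 k24
  5 (.s k101 k231 8 (.d k117 k69 k186 3 10)))))] .n) .n)))) (.c k247 (.l (.s k8 k4 1 (.s k174 k93 12
  (.s k170 k85 14 (.s k166 k162 1 (.d k89 k251 k243 12 14)))))) (.c k251 (.l (.s k4 k8 1 (.s k93
  k174 12 (.s k85 k170 14 (.s k89 k81 1 (.d k166 k247 k243 12 14)))))) .n)))))))))))))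

def t22 : T TT 256 :=
  (.f k85 k170 14 (.q k48 [(.s k16 k32 3 (.s k154 k223 10 (.s k117 k186 10 (.d k101 k69 k207 3
  14))))] (.c k16 (.q k86 [(.s k84 k87 0 (.s k252 k168 13 (.s k253 k254 0 (.d k169 k1 k3 13 14)))),
  (.s k117 k186 10 (.s k101 k69 3 (.s k116 k71 4 (.s k252 k184 9 (.d k84 k87 k168 0 13))))), (.s
  k117 k186 10 (.s k101 k69 3 (.s k116 k71 4 (.s k252 k184 9 (.s k169 k3 14 (.d k253 k254 k1 0
  13))))))] (.c k252 (.l (.s k117 k186 10 (.s k101 k69 3 (.s k154 k207 14 (.s k87 k84 0 (.s k3 k171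
  13 (.d k18 k222 k33 9 4))))))) .n)) (.c k32 (.q k86 [(.s k84 k87 0 (.s k252 k168 13 (.s k253 k254
  0 (.d k169 k1 k3 13 14)))), (.s k117 k186 10 (.s k101 k69 3 (.s k116 k71 4 (.s k252 k184 9 (.d k84
  k87 k168 0 13))))), (.s k117 k186 10 (.s k101 k69 3 (.s k116 k71 4 (.s k252 k184 9 (.s k169 k3 14
  (.d k253 k254 k1 0 13))))))] (.c k101 (.q k239 [(.s k84 k87 0 (.s k252 k168 13 (.s k253 k254 0 (.d
  k169 k1 k3 13 14)))), (.s k223 k207 3 (.s k154 k16 10 (.s k18 k222 9 (.s k3 k33 4 (.s k1 k2 0 (.d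
  k169 k252 k253 14 13)))))), (.s k87 k84 0 (.s k3 k171 13 (.s k18 k33 4 (.s k154 k222 9 (.d k223
  k207 k16 3 10)))))] (.c k3 (.l (.s k117 k186 10 (.s k84 k87 0 (.s k252 k168 13 (.s k116 k184 9 (.s
  k119 k118 0 (.d k68 k100 k102 3 4))))))) (.c k169 (.l (.s k87 k84 0 (.s k223 k207 3 (.s k154 k16
  10 (.s k18 k222 9 (.d k3 k33 k171 4 13)))))) .n))) (.c k239 (.q k101 [(.d k117 k69 k186 3 10), (.s
  k116 k71 4 (.s k252 k184 9 (.d k84 k87 k168 0 13)))] .n) (.c k252 (.l (.s k117 k186 10 (.s k101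
  k69 3 (.s k154 k207 14 (.s k87 k84 0 (.s k3 k171 13 (.d k18 k222 k33 9 4))))))) .n)))) (.c k69 (.q
  k86 [(.s k84 k87 0 (.s k252 k168 13 (.s k253 k254 0 (.d k169 k1 k3 13 14)))), (.s k16 k32 3 (.s
  k154 k223 10 (.s k18 k222 9 (.s k19 k17 0 (.s k220 k153 10 (.d k84 k87 k152 0 9)))))), (.s k16 k32
  3 (.s k154 k223 10 (.s k18 k222 9 (.s k3 k33 4 (.s k1 k2 0 (.d k169 k253 k252 13 14))))))] .n) (.c
  k101 (.f k32 k16 3 (.q k4 [(.s k12 k8 1 (.s k166 k247 12 (.s k93 k174 12 (.d k89 k81 k243 1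
  14)))), (.s k247 k166 12 (.s k117 k186 10 (.s k52 k182 8 (.s k60 k56 1 (.d k20 k36 k40 3 5))))),
  (.s k12 k8 1 (.s k36 k24 5 (.s k20 k52 3 (.d k40 k44 k60 1 5))))] (.c k251 (.l (.s k166 k247 12
  (.s k12 k8 1 (.s k89 k243 14 (.d k93 k81 k174 1 12))))) .n))) (.c k117 (.q k86 [(.s k84 k87 0 (.s
  k252 k168 13 (.s k253 k254 0 (.d k169 k1 k3 13 14)))), (.s k16 k32 3 (.s k154 k223 10 (.s k18 k222
  9 (.s k19 k17 0 (.s k220 k153 10 (.d k84 k87 k152 0 9)))))), (.s k16 k32 3 (.s k154 k223 10 (.s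
  k18 k222 9 (.s k3 k33 4 (.s k1 k2 0 (.d k169 k253 k252 13 14))))))] .n) (.c k154 (.q k84 [(.s k252
  k168 13 (.s k86 k87 0 (.s k253 k254 0 (.d k169 k1 k3 13 14)))), (.s k16 k32 3 (.s k152 k220 9 (.s
  k204 k100 13 (.s k68 k136 9 (.s k102 k119 4 (.s k153 k51 14 (.d k221 k238 k17 4 9)))))))] (.c k138
  (.l (.s k186 k117 10 (.s k252 k168 13 (.s k86 k87 0 (.s k169 k3 14 (.d k253 k254 k1 0 13)))))) (.c
  k168 (.l (.s k16 k32 3 (.s k152 k220 9 (.s k100 k204 13 (.s k68 k116 3 (.s k102 k119 4 (.s k101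
  k103 0 (.d k117 k69 k186 3 10)))))))) (.c k186 (.q k138 [(.s k252 k168 13 (.s k86 k87 0 (.s k253
  k254 0 (.d k169 k1 k3 13 14)))), (.s k16 k32 3 (.s k168 k252 13 (.s k152 k220 9 (.s k204 k100 13
  (.d k136 k184 k68 3 9))))), (.s k16 k32 3 (.s k69 k207 10 (.s k152 k220 9 (.s k101 k117 3 (.s k86
  k87 0 (.s k116 k71 4 (.d k100 k68 k204 3 13)))))))] .n) .n)))) (.c k186 (.q k84 [(.s k252 k168 13
  (.s k86 k87 0 (.s k253 k254 0 (.d k169 k1 k3 13 14)))), (.s k16 k32 3 (.s k152 k220 9 (.s k154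
  k223 10 (.s k153 k155 0 (.s k221 k17 9 (.d k204 k238 k100 4 13))))))] (.c k87 (.l (.s k16 k32 3
  (.s k168 k252 13 (.s k152 k220 9 (.s k204 k100 13 (.d k136 k184 k68 3 9)))))) (.c k138 (.q k154
  [(.d k16 k32 k223 3 10), (.s k252 k168 13 (.s k101 k207 14 (.s k116 k184 9 (.d k86 k87 k71 0
  4))))] .n) (.c k154 (.q k138 [(.s k252 k168 13 (.s k86 k87 0 (.s k253 k254 0 (.d k169 k1 k3 13
  14)))), (.s k16 k32 3 (.s k168 k252 13 (.s k152 k220 9 (.s k204 k100 13 (.d k136 k184 k68 3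
  9))))), (.s k16 k32 3 (.s k69 k207 10 (.s k152 k220 9 (.s k101 k117 3 (.s k86 k87 0 (.s k116 k71 4
  (.d k100 k68 k204 3 13)))))))] .n) .n)))) (.c k207 (.f k32 k16 3 (.q k86 [(.s k84 k87 0 (.s k252
  k168 13 (.s k253 k254 0 (.d k169 k1 k3 13 14)))), (.s k117 k186 10 (.s k101 k69 3 (.s k116 k71 4
  (.s k84 k87 0 (.s k68 k100 3 (.d k119 k118 k102 0 4)))))), (.s k117 k186 10 (.s k101 k69 3 (.s
  k116 k71 4 (.s k252 k184 9 (.s k253 k254 0 (.d k169 k3 k1 14 13))))))] (.c k3 (.l (.s k117 k186 10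
  (.s k101 k69 3 (.s k84 k87 0 (.s k252 k168 13 (.d k116 k71 k184 4 9)))))) (.c k111 (.q k159 [(.s
  k84 k87 0 (.s k252 k168 13 (.s k253 k254 0 (.d k169 k1 k3 13 14)))), (.s k117 k186 10 (.s k101 k69
  3 (.s k116 k71 4 (.s k84 k87 0 (.s k68 k100 3 (.d k119 k118 k102 0 4)))))), (.s k117 k186 10 (.s
  k101 k69 3 (.s k116 k71 4 (.s k252 k184 9 (.s k253 k254 0 (.d k169 k3 k1 14 13))))))] (.c k3 (.l
  (.s k117 k186 10 (.s k101 k69 3 (.s k84 k87 0 (.s k252 k168 13 (.d k116 k71 k184 4 9)))))) .n))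
  (.c k159 (.q k111 [(.s k84 k87 0 (.s k252 k168 13 (.s k253 k254 0 (.d k169 k1 k3 13 14)))), (.s
  k117 k186 10 (.s k101 k69 3 (.s k116 k71 4 (.s k84 k87 0 (.s k68 k100 3 (.d k119 k118 k102 0
  4)))))), (.s k117 k186 10 (.s k101 k69 3 (.s k116 k71 4 (.s k252 k184 9 (.s k253 k254 0 (.d k169
  k3 k1 14 13))))))] (.c k3 (.l (.s k117 k186 10 (.s k101 k69 3 (.s k84 k87 0 (.s k252 k168 13 (.d
  k116 k71 k184 4 9)))))) .n)) .n))))) (.c k223 (.q k86 [(.s k87 k84 0 (.s k3 k171 13 (.s k1 k2 0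
  (.d k169 k253 k252 13 14)))), (.s k117 k186 10 (.s k101 k69 3 (.s k116 k71 4 (.s k252 k184 9 (.d
  k84 k87 k168 0 13))))), (.s k117 k186 10 (.s k101 k69 3 (.s k116 k71 4 (.s k252 k184 9 (.s k169 k3
  14 (.d k253 k254 k1 0 13))))))] (.c k252 (.l (.s k117 k186 10 (.s k101 k69 3 (.s k154 k207 14 (.s
  k87 k84 0 (.s k3 k171 13 (.d k18 k222 k33 9 4))))))) .n)) (.c k239 (.l (.s k117 k186 10 (.s k16
  k32 3 (.s k101 k69 3 (.d k154 k223 k207 10 14))))) .n))))))))))))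

def t23 : T TT 256 :=
  (.q k3 [(.s k1 k2 0 (.s k85 k170 14 (.s k169 k253 13 (.s k87 k171 13 (.d k86 k84 k252 0 14)))))]
  (.c k1 (.q k239 [(.s k171 k87 13 (.s k103 k35 9 (.s k207 k223 3 (.s k139 k71 9 (.d k155 k187 k51 3
  13))))), (.s k170 k85 14 (.s k101 k32 10 (.s k207 k223 3 (.s k138 k69 10 (.d k154 k186 k48 3
  14))))), (.s k170 k85 14 (.s k171 k87 13 (.s k32 k101 10 (.s k35 k103 9 (.s k33 k34 0 (.d k48 k16
  k18 3 4))))))] .n) (.c k2 (.q k239 [(.s k170 k85 14 (.s k101 k32 10 (.s k207 k223 3 (.s k138 k69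
  10 (.d k154 k186 k48 3 14))))), (.s k171 k87 13 (.s k103 k35 9 (.s k207 k223 3 (.s k139 k71 9 (.d
  k155 k187 k51 3 13))))), (.s k170 k85 14 (.s k171 k87 13 (.s k32 k101 10 (.s k35 k103 9 (.s k33
  k34 0 (.d k48 k18 k16 4 3))))))] .n) (.c k84 (.l (.s k2 k1 0 (.s k170 k85 14 (.s k86 k254 13 (.s
  k169 k252 14 (.d k171 k87 k168 13 0)))))) (.c k85 (.q k239 [(.s k171 k87 13 (.s k103 k35 9 (.s
  k207 k223 3 (.s k139 k71 9 (.d k155 k187 k51 3 13))))), (.s k1 k2 0 (.s k207 k223 3 (.s k69 k138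
  10 (.s k137 k205 9 (.s k70 k204 10 (.d k71 k68 k139 0 9)))))), (.s k2 k1 0 (.s k171 k87 13 (.s k35
  k103 9 (.s k51 k19 3 (.s k34 k17 4 (.s k18 k50 3 (.d k33 k32 k48 0 4)))))))] (.c k16 (.l (.s k2 k1
  0 (.s k171 k87 13 (.s k35 k103 9 (.s k51 k19 3 (.s k34 k17 4 (.s k18 k50 3 (.d k33 k32 k48 0
  4)))))))) (.c k71 (.q k48 [(.s k32 k16 3 (.s k101 k170 10 (.d k207 k223 k154 3 14))), (.s k1 k2 0
  (.s k33 k18 4 (.s k17 k49 3 (.s k34 k51 4 (.s k171 k87 13 (.d k35 k103 k32 9 0))))))] (.c k32 (.l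
  (.s k18 k33 4 (.s k87 k171 13 (.s k223 k207 3 (.s k19 k155 9 (.s k17 k16 0 (.d k51 k35 k34 3
  4))))))) .n)) (.c k223 (.q k32 [(.s k171 k87 13 (.s k35 k103 9 (.s k33 k34 0 (.d k48 k16 k18 3
  4)))), (.s k2 k1 0 (.s k170 k101 10 (.s k86 k254 13 (.s k169 k252 14 (.d k171 k168 k87 0 13))))),
  (.s k1 k2 0 (.s k101 k170 10 (.s k48 k16 3 (.s k154 k207 14 (.s k33 k18 4 (.s k17 k49 3 (.d k34
  k35 k51 0 4)))))))] (.c k16 (.q k154 [(.s k171 k87 13 (.s k35 k103 9 (.s k34 k33 0 (.d k51 k19 k17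
  3 4)))), (.s k2 k1 0 (.s k170 k101 10 (.s k86 k254 13 (.s k169 k252 14 (.d k171 k168 k87 0
  13))))), (.s k1 k2 0 (.s k101 k170 10 (.s k48 k207 14 (.s k33 k18 4 (.s k17 k49 3 (.d k34 k35 k51
  0 4))))))] (.c k86 (.l (.s k101 k170 10 (.s k48 k207 14 (.s k33 k18 4 (.s k35 k34 0 (.d k171 k103
  k87 9 13)))))) .n)) (.c k86 (.l (.s k101 k170 10 (.s k48 k16 3 (.s k154 k207 14 (.s k33 k18 4 (.s
  k35 k34 0 (.d k171 k103 k87 9 13))))))) (.c k154 (.l (.s k16 k48 3 (.s k171 k87 13 (.s k35 k103 9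
  (.s k34 k33 0 (.d k51 k19 k17 3 4)))))) .n)))) .n)))) (.c k86 (.q k48 [(.s k2 k1 0 (.s k16 k32 3
  (.s k18 k33 4 (.s k34 k50 3 (.d k17 k19 k51 0 4))))), (.s k32 k16 3 (.s k170 k85 14 (.s k101 k239
  10 (.s k154 k207 14 (.d k186 k138 k117 3 10))))), (.s k85 k170 14 (.s k33 k18 4 (.s k117 k186 10
  (.s k101 k69 3 (.s k169 k237 9 (.d k1 k2 k253 0 13))))))] (.c k149 (.q k212 [(.s k2 k1 0 (.s k16
  k32 3 (.s k18 k33 4 (.s k34 k50 3 (.d k17 k19 k51 0 4))))), (.s k32 k16 3 (.s k170 k85 14 (.s k101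
  k239 10 (.s k154 k207 14 (.d k186 k138 k117 3 10))))), (.s k85 k170 14 (.s k33 k18 4 (.s k117 k186
  10 (.s k101 k69 3 (.s k169 k237 9 (.d k1 k2 k253 0 13))))))] (.c k106 (.q k192 [(.s k2 k1 0 (.s
  k16 k32 3 (.s k18 k33 4 (.s k34 k50 3 (.d k17 k19 k51 0 4))))), (.s k16 k32 3 (.s k128 k64 7 (.s
  k144 k96 11 (.s k80 k208 7 (.d k160 k176 k240 3 11))))), (.s k2 k1 0 (.s k64 k128 7 (.s k66 k129 8
  (.s k130 k194 7 (.d k65 k67 k195 0 8)))))] (.c k66 (.q k126 [(.s k2 k1 0 (.s k16 k32 3 (.s k18 k33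
  4 (.s k34 k50 3 (.d k17 k19 k51 0 4))))), (.s k64 k128 7 (.s k252 k232 5 (.s k84 k168 13 (.s k148
  k20 7 (.d k104 k124 k60 5 13)))))] .n) (.c k126 (.l (.s k66 k129 8 (.s k2 k1 0 (.s k64 k128 7 (.s
  k130 k194 7 (.d k65 k67 k195 0 8)))))) .n))) (.c k192 (.q k106 [(.s k2 k1 0 (.s k16 k32 3 (.s k18
  k33 4 (.s k34 k50 3 (.d k17 k19 k51 0 4))))), (.s k32 k16 3 (.s k170 k85 14 (.s k101 k239 10 (.s
  k154 k207 14 (.d k186 k138 k117 3 10))))), (.s k85 k170 14 (.s k33 k18 4 (.s k117 k186 10 (.s k101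
  k69 3 (.s k169 k237 9 (.d k1 k2 k253 0 13))))))] .n) .n))) (.c k212 (.q k149 [(.s k2 k1 0 (.s k16
  k32 3 (.s k18 k33 4 (.s k34 k50 3 (.d k17 k19 k51 0 4))))), (.s k32 k16 3 (.s k170 k85 14 (.s k101
  k239 10 (.s k154 k207 14 (.d k186 k138 k117 3 10))))), (.s k85 k170 14 (.s k33 k18 4 (.s k117 k186
  10 (.s k101 k69 3 (.s k169 k237 9 (.d k1 k2 k253 0 13))))))] .n) .n))) (.c k87 (.f k85 k170 14 (.q
  k48 [(.s k16 k32 3 (.s k117 k186 10 (.s k101 k69 3 (.d k154 k223 k207 10 14)))), (.s k1 k2 0 (.s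
  k32 k16 3 (.s k33 k18 4 (.s k17 k49 3 (.d k34 k35 k51 0 4))))), (.s k1 k2 0 (.s k169 k253 13 (.s
  k33 k18 4 (.s k101 k237 9 (.d k117 k69 k186 3 10)))))] (.c k151 (.q k215 [(.s k150 k20 8 (.s k195
  k235 5 (.s k65 k130 8 (.d k105 k125 k60 5 14)))), (.s k16 k32 3 (.s k154 k223 10 (.s k101 k207 14
  (.d k117 k69 k186 3 10))))] (.c k107 (.l (.s k195 k235 5 (.s k65 k130 8 (.s k150 k20 8 (.d k105
  k125 k60 5 14))))) (.c k195 (.q k107 [(.s k16 k32 3 (.s k117 k186 10 (.s k101 k69 3 (.d k154 k223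
  k207 10 14)))), (.s k1 k2 0 (.s k32 k16 3 (.s k33 k18 4 (.s k17 k49 3 (.d k34 k35 k51 0 4))))),
  (.s k1 k2 0 (.s k169 k253 13 (.s k33 k18 4 (.s k101 k237 9 (.d k117 k69 k186 3 10)))))] .n) .n)))
  (.c k215 (.q k151 [(.s k16 k32 3 (.s k117 k186 10 (.s k101 k69 3 (.d k154 k223 k207 10 14)))), (.s
  k1 k2 0 (.s k32 k16 3 (.s k33 k18 4 (.s k17 k49 3 (.d k34 k35 k51 0 4))))), (.s k1 k2 0 (.s k169
  k253 13 (.s k33 k18 4 (.s k101 k237 9 (.d k117 k69 k186 3 10)))))] .n) .n)))) (.c k169 (.q k239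
  [(.s k170 k85 14 (.s k101 k32 10 (.s k207 k223 3 (.s k138 k69 10 (.d k154 k186 k48 3 14))))), (.s
  k171 k87 13 (.s k103 k35 9 (.s k207 k223 3 (.s k139 k71 9 (.d k155 k187 k51 3 13))))), (.s k170
  k85 14 (.s k171 k87 13 (.s k32 k101 10 (.s k35 k103 9 (.s k33 k34 0 (.d k48 k16 k18 3 4))))))] .n)
  (.c k170 (.q k239 [(.s k171 k87 13 (.s k103 k35 9 (.s k207 k223 3 (.s k139 k71 9 (.d k155 k187 k51
  3 13))))), (.s k1 k2 0 (.s k207 k223 3 (.s k69 k138 10 (.s k137 k205 9 (.s k70 k204 10 (.d k71 k68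
  k139 0 9)))))), (.s k2 k1 0 (.s k171 k87 13 (.s k35 k103 9 (.s k51 k19 3 (.s k34 k17 4 (.s k18 k50
  3 (.d k33 k32 k48 0 4)))))))] (.c k71 (.q k48 [(.s k2 k1 0 (.s k16 k32 3 (.s k18 k33 4 (.s k34 k50
  3 (.d k17 k19 k51 0 4))))), (.s k1 k2 0 (.s k16 k32 3 (.s k87 k171 13 (.s k223 k207 3 (.s k85 k154
  10 (.s k169 k253 13 (.d k86 k84 k252 0 14))))))), (.s k18 k33 4 (.s k87 k171 13 (.s k223 k207 3
  (.s k19 k155 9 (.s k17 k16 0 (.d k51 k35 k34 3 4))))))] (.c k16 (.l (.s k1 k2 0 (.s k33 k18 4 (.s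
  k17 k49 3 (.s k34 k51 4 (.s k171 k87 13 (.d k35 k103 k32 9 0))))))) .n)) (.c k223 (.q k48 [(.s k2
  k1 0 (.s k16 k32 3 (.s k18 k33 4 (.s k34 k50 3 (.d k17 k19 k51 0 4))))), (.s k32 k16 3 (.s k171
  k87 13 (.s k35 k103 9 (.d k33 k34 k18 0 4)))), (.s k1 k2 0 (.s k33 k18 4 (.s k17 k49 3 (.s k171
  k87 13 (.s k35 k103 9 (.d k51 k19 k34 3 4))))))] (.c k18 (.l (.s k32 k16 3 (.s k171 k87 13 (.s k35
  k103 9 (.s k34 k33 0 (.d k51 k19 k17 3 4)))))) (.c k19 (.l (.s k1 k2 0 (.s k32 k16 3 (.s k33 k18 4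
  (.s k17 k49 3 (.d k34 k35 k51 0 4)))))) (.c k33 (.q k192 [(.s k96 k144 11 (.s k234 k213 6 (.s k224
  k229 2 (.d k32 k16 k160 3 7)))), (.s k1 k2 0 (.s k128 k64 7 (.s k129 k66 8 (.s k65 k193 7 (.d k130
  k131 k195 0 8)))))] .n) (.c k34 (.l (.s k16 k32 3 (.s k171 k87 13 (.s k18 k33 4 (.s k35 k103 9 (.d
  k19 k17 k51 0 3)))))) (.c k35 (.l (.s k2 k1 0 (.s k16 k32 3 (.s k18 k33 4 (.s k34 k50 3 (.d k17
  k19 k51 0 4)))))) .n)))))) .n))) (.c k171 (.q k48 [(.s k1 k2 0 (.s k32 k16 3 (.s k33 k18 4 (.s k17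
  k49 3 (.d k34 k35 k51 0 4))))), (.s k16 k32 3 (.s k85 k170 14 (.s k154 k223 10 (.s k101 k207 14
  (.d k117 k69 k186 3 10))))), (.s k1 k2 0 (.s k85 k170 14 (.s k169 k253 13 (.s k33 k18 4 (.s k101
  k237 9 (.d k117 k69 k186 3 10))))))] .n) (.c k252 (.f k85 k170 14 (.q k48 [(.s k16 k32 3 (.s k154
  k223 10 (.s k117 k186 10 (.d k101 k69 k207 3 14)))), (.s k1 k2 0 (.s k32 k16 3 (.s k33 k18 4 (.s
  k17 k49 3 (.d k34 k35 k51 0 4))))), (.s k1 k2 0 (.s k169 k253 13 (.s k33 k18 4 (.s k101 k237 9 (.d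
  k117 k69 k186 3 10)))))] (.c k126 (.q k189 [(.s k16 k32 3 (.s k154 k223 10 (.s k117 k186 10 (.d
  k101 k69 k207 3 14)))), (.s k1 k2 0 (.s k32 k16 3 (.s k33 k18 4 (.s k17 k49 3 (.d k34 k35 k51 0
  4))))), (.s k1 k2 0 (.s k169 k253 13 (.s k33 k18 4 (.s k101 k237 9 (.d k117 k69 k186 3 10)))))]
  .n) (.c k189 (.q k126 [(.s k16 k32 3 (.s k154 k223 10 (.s k117 k186 10 (.d k101 k69 k207 3 14)))),
  (.s k1 k2 0 (.s k32 k16 3 (.s k33 k18 4 (.s k17 k49 3 (.d k34 k35 k51 0 4))))), (.s k1 k2 0 (.s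
  k169 k253 13 (.s k33 k18 4 (.s k101 k237 9 (.d k117 k69 k186 3 10)))))] .n) .n)))) (.c k253 (.l
  (.s k2 k1 0 (.s k171 k87 13 (.s k170 k85 14 (.s k169 k168 0 (.d k86 k254 k252 13 14)))))) (.c k254
  (.l (.s k1 k2 0 (.s k87 k171 13 (.s k85 k170 14 (.s k86 k84 0 (.d k169 k253 k252 13 14))))))
  .n)))))))))))))

def t27 : T TT 256 :=
  (.f k85 k170 14 (.q k12 [(.s k4 k8 1 (.s k166 k247 12 (.s k93 k174 12 (.d k89 k81 k243 1 14))))]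
  (.c k4 (.q k48 [(.s k16 k32 3 (.s k154 k223 10 (.s k117 k186 10 (.d k101 k69 k207 3 14)))), (.s
  k24 k36 5 (.s k93 k174 12 (.s k89 k81 1 (.s k154 k219 8 (.d k16 k32 k223 3 10))))), (.s k36 k24 5
  (.s k93 k174 12 (.s k89 k81 1 (.s k166 k243 14 (.s k101 k231 8 (.d k117 k69 k186 3 10))))))] .n)
  (.c k8 (.q k48 [(.s k16 k32 3 (.s k154 k223 10 (.s k117 k186 10 (.d k101 k69 k207 3 14)))), (.s
  k24 k36 5 (.s k93 k174 12 (.s k89 k81 1 (.s k154 k219 8 (.d k16 k32 k223 3 10))))), (.s k36 k24 5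
  (.s k93 k174 12 (.s k89 k81 1 (.s k166 k243 14 (.s k101 k231 8 (.d k117 k69 k186 3 10))))))] (.c
  k89 (.q k251 [(.s k16 k32 3 (.s k154 k223 10 (.s k117 k186 10 (.d k101 k69 k207 3 14)))), (.s k36
  k24 5 (.s k117 k186 10 (.s k247 k243 1 (.s k4 k166 12 (.d k52 k20 k182 3 8))))), (.s k16 k32 3 (.s
  k24 k36 5 (.s k93 k174 12 (.s k28 k20 1 (.d k223 k158 k154 8 10)))))] (.c k154 (.l (.s k186 k117
  10 (.s k121 k56 8 (.s k243 k247 1 (.s k178 k113 8 (.d k182 k190 k60 1 10)))))) .n)) (.c k251 (.q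
  k89 [(.d k93 k81 k174 1 12), (.s k16 k32 3 (.s k24 k36 5 (.d k154 k219 k223 8 10)))] .n) .n))) (.c
  k81 (.q k48 [(.s k16 k32 3 (.s k154 k223 10 (.s k117 k186 10 (.d k101 k69 k207 3 14)))), (.s k4 k8
  1 (.s k32 k16 3 (.s k36 k24 5 (.s k20 k52 3 (.d k40 k44 k60 1 5))))), (.s k4 k8 1 (.s k166 k247 12
  (.s k36 k24 5 (.s k101 k231 8 (.d k117 k69 k186 3 10)))))] .n) (.c k89 (.q k48 [(.s k16 k32 3 (.s
  k154 k223 10 (.s k117 k186 10 (.d k101 k69 k207 3 14)))), (.s k8 k4 1 (.s k24 k36 5 (.s k40 k56 3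
  (.s k20 k60 5 (.d k16 k28 k32 1 3))))), (.s k36 k24 5 (.s k117 k186 10 (.s k101 k69 3 (.s k166
  k231 8 (.d k4 k8 k247 1 12)))))] (.c k8 (.q k251 [(.s k16 k32 3 (.s k154 k223 10 (.s k117 k186 10
  (.d k101 k69 k207 3 14)))), (.s k36 k24 5 (.s k117 k186 10 (.s k247 k243 1 (.s k4 k166 12 (.d k52
  k20 k182 3 8))))), (.s k16 k32 3 (.s k24 k36 5 (.s k93 k174 12 (.s k28 k20 1 (.d k223 k158 k154 8
  10)))))] (.c k154 (.l (.s k186 k117 10 (.s k121 k56 8 (.s k243 k247 1 (.s k178 k113 8 (.d k182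
  k190 k60 1 10)))))) .n)) (.c k251 (.l (.s k8 k4 1 (.s k16 k32 3 (.s k24 k36 5 (.s k40 k56 3 (.d
  k20 k28 k60 1 5)))))) .n))) (.c k93 (.q k48 [(.s k16 k32 3 (.s k117 k186 10 (.s k101 k69 3 (.d
  k154 k223 k207 10 14)))), (.s k4 k8 1 (.s k32 k16 3 (.s k36 k24 5 (.s k20 k52 3 (.d k40 k44 k60 1
  5))))), (.s k4 k8 1 (.s k166 k247 12 (.s k36 k24 5 (.s k101 k231 8 (.d k117 k69 k186 3 10)))))]
  .n) (.c k166 (.q k48 [(.s k16 k32 3 (.s k154 k223 10 (.s k117 k186 10 (.d k101 k69 k207 3 14)))),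
  (.s k4 k8 1 (.s k32 k16 3 (.s k36 k24 5 (.s k20 k52 3 (.d k40 k44 k60 1 5))))), (.s k24 k36 5 (.s
  k117 k186 10 (.s k101 k69 3 (.s k154 k207 14 (.s k89 k219 8 (.d k93 k174 k81 12 1))))))] (.c k162
  (.l (.s k174 k93 12 (.s k16 k32 3 (.s k154 k223 10 (.s k101 k207 14 (.d k117 k69 k186 3 10))))))
  (.c k174 (.q k162 [(.s k16 k32 3 (.s k154 k223 10 (.s k117 k186 10 (.d k101 k69 k207 3 14)))), (.s
  k4 k8 1 (.s k32 k16 3 (.s k36 k24 5 (.s k20 k52 3 (.d k40 k44 k60 1 5)))))] (.c k16 (.l (.s k8 k4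
  1 (.s k243 k81 12 (.s k24 k36 5 (.s k56 k40 3 (.s k186 k117 10 (.d k251 k247 k121 1 8))))))) (.c
  k32 (.l (.s k4 k8 1 (.s k243 k81 12 (.s k36 k24 5 (.s k52 k20 3 (.s k117 k186 10 (.d k247 k251
  k182 1 8))))))) .n))) .n))) (.c k174 (.q k48 [(.s k16 k32 3 (.s k154 k223 10 (.s k117 k186 10 (.d
  k101 k69 k207 3 14)))), (.s k4 k8 1 (.s k32 k16 3 (.s k36 k24 5 (.s k20 k52 3 (.d k40 k44 k60 1
  5))))), (.s k4 k8 1 (.s k166 k247 12 (.s k36 k24 5 (.s k101 k231 8 (.d k117 k69 k186 3 10)))))]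
  (.c k162 (.q k166 [(.d k4 k8 k247 1 12), (.s k36 k24 5 (.s k101 k231 8 (.d k117 k69 k186 3 10)))]
  .n) (.c k166 (.q k162 [(.s k16 k32 3 (.s k154 k223 10 (.s k117 k186 10 (.d k101 k69 k207 3 14)))),
  (.s k4 k8 1 (.s k32 k16 3 (.s k36 k24 5 (.s k20 k52 3 (.d k40 k44 k60 1 5)))))] (.c k16 (.l (.s k8
  k4 1 (.s k243 k81 12 (.s k24 k36 5 (.s k56 k40 3 (.s k186 k117 10 (.d k251 k247 k121 1 8)))))))
  (.c k32 (.l (.s k4 k8 1 (.s k243 k81 12 (.s k36 k24 5 (.s k52 k20 3 (.s k117 k186 10 (.d k247 k251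
  k182 1 8))))))) .n))) .n))) (.c k243 (.q k48 [(.s k16 k32 3 (.s k154 k223 10 (.s k117 k186 10 (.d
  k101 k69 k207 3 14)))), (.s k4 k8 1 (.s k32 k16 3 (.s k36 k24 5 (.s k20 k52 3 (.d k40 k44 k60 1
  5))))), (.s k4 k8 1 (.s k166 k247 12 (.s k36 k24 5 (.s k101 k231 8 (.d k117 k69 k186 3 10)))))]
  (.c k123 (.q k183 [(.s k16 k32 3 (.s k154 k223 10 (.s k117 k186 10 (.d k101 k69 k207 3 14)))), (.s
  k4 k8 1 (.s k32 k16 3 (.s k36 k24 5 (.s k20 k52 3 (.d k40 k44 k60 1 5))))), (.s k4 k8 1 (.s k166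
  k247 12 (.s k36 k24 5 (.s k101 k231 8 (.d k117 k69 k186 3 10)))))] .n) (.c k183 (.q k123 [(.s k16
  k32 3 (.s k154 k223 10 (.s k117 k186 10 (.d k101 k69 k207 3 14)))), (.s k4 k8 1 (.s k32 k16 3 (.s
  k36 k24 5 (.s k20 k52 3 (.d k40 k44 k60 1 5))))), (.s k4 k8 1 (.s k166 k247 12 (.s k36 k24 5 (.s
  k101 k231 8 (.d k117 k69 k186 3 10)))))] .n) .n))) (.c k247 (.q k48 [(.s k16 k32 3 (.s k154 k223
  10 (.s k117 k186 10 (.d k101 k69 k207 3 14)))), (.s k4 k8 1 (.s k32 k16 3 (.s k36 k24 5 (.s k40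
  k44 1 (.d k20 k52 k60 3 5))))), (.s k24 k36 5 (.s k93 k174 12 (.s k117 k186 10 (.s k101 k69 3 (.s
  k154 k207 14 (.d k89 k81 k219 1 8))))))] .n) (.c k251 (.l (.s k93 k174 12 (.s k4 k8 1 (.s k89 k81
  1 (.d k166 k247 k243 12 14))))) .n))))))))))))

def t31 : T TT 256 :=
  (.q k15 [(.s k5 k10 2 (.s k85 k170 14 (.s k165 k245 11 (.s k95 k175 11 (.d k90 k80 k240 2 14)))))]
  (.c k5 (.q k12 [(.s k4 k8 1 (.s k85 k170 14 (.s k166 k247 12 (.s k93 k174 12 (.d k89 k81 k243 1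
  14))))), (.s k13 k14 0 (.s k93 k174 12 (.s k173 k253 11 (.s k94 k252 12 (.d k95 k92 k175 0
  11))))), (.s k4 k8 1 (.s k85 k170 14 (.s k166 k247 12 (.s k14 k13 0 (.s k90 k242 13 (.d k95 k80
  k175 2 11))))))] .n) (.c k10 (.q k12 [(.s k8 k4 1 (.s k174 k93 12 (.s k170 k85 14 (.s k166 k162 1
  (.d k89 k251 k243 12 14))))), (.s k13 k14 0 (.s k93 k174 12 (.s k173 k253 11 (.s k94 k252 12 (.d
  k95 k92 k175 0 11))))), (.s k4 k8 1 (.s k85 k170 14 (.s k166 k247 12 (.s k14 k13 0 (.s k90 k242 13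
  (.d k95 k80 k175 2 11))))))] .n) (.c k80 (.l (.s k10 k5 2 (.s k170 k85 14 (.s k90 k250 11 (.s k165
  k240 14 (.d k175 k95 k160 11 2)))))) (.c k85 (.q k12 [(.s k4 k8 1 (.s k5 k10 2 (.s k6 k7 0 (.s k13
  k14 0 (.d k9 k1 k3 1 2))))), (.s k13 k14 0 (.s k93 k174 12 (.s k173 k253 11 (.s k94 k252 12 (.d
  k95 k92 k175 0 11)))))] (.c k1 (.l (.s k8 k4 1 (.s k10 k5 2 (.s k9 k11 0 (.s k6 k3 2 (.d k14 k13
  k2 0 1)))))) (.c k13 (.q k48 [(.s k4 k8 1 (.s k36 k24 5 (.s k20 k52 3 (.s k40 k60 5 (.d k32 k44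
  k16 1 3))))), (.s k10 k5 2 (.s k26 k37 6 (.s k58 k42 3 (.s k186 k117 10 (.s k250 k122 7 (.s k90
  k170 11 (.d k240 k245 k165 2 14)))))))] (.c k32 (.l (.s k4 k8 1 (.s k5 k10 2 (.s k7 k6 0 (.s k36
  k24 5 (.s k52 k20 3 (.d k37 k22 k26 4 6))))))) .n)) (.c k14 (.q k48 [(.s k4 k8 1 (.s k36 k24 5 (.s
  k20 k52 3 (.s k40 k60 5 (.d k32 k44 k16 1 3))))), (.s k10 k5 2 (.s k26 k37 6 (.s k58 k42 3 (.s
  k186 k117 10 (.s k250 k122 7 (.s k90 k170 11 (.d k240 k245 k165 2 14)))))))] (.c k32 (.l (.s k4 k8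
  1 (.s k5 k10 2 (.s k36 k24 5 (.s k52 k20 3 (.s k37 k26 6 (.d k7 k6 k22 0 4))))))) .n)) .n)))) (.c
  k90 (.q k12 [(.s k4 k8 1 (.s k5 k10 2 (.s k6 k7 0 (.s k9 k3 2 (.d k13 k14 k1 0 1))))), (.s k13 k14
  0 (.s k93 k174 12 (.s k173 k253 11 (.s k94 k252 12 (.d k95 k92 k175 0 11))))), (.s k4 k8 1 (.s k85
  k170 14 (.s k166 k247 12 (.s k89 k243 14 (.d k93 k81 k174 1 12)))))] (.c k149 (.q k208 [(.s k4 k8
  1 (.s k5 k10 2 (.s k6 k7 0 (.s k9 k3 2 (.d k13 k14 k1 0 1))))), (.s k13 k14 0 (.s k93 k174 12 (.s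
  k173 k253 11 (.s k94 k252 12 (.d k95 k92 k175 0 11))))), (.s k4 k8 1 (.s k85 k170 14 (.s k166 k247
  12 (.s k89 k243 14 (.d k93 k81 k174 1 12)))))] (.c k106 (.q k192 [(.s k4 k8 1 (.s k5 k10 2 (.s k6
  k7 0 (.s k9 k3 2 (.d k13 k14 k1 0 1))))), (.s k4 k8 1 (.s k128 k64 7 (.s k132 k72 9 (.s k68 k196 7
  (.d k136 k140 k204 1 9))))), (.s k10 k5 2 (.s k64 k128 7 (.s k74 k133 10 (.s k138 k202 7 (.d k69
  k79 k207 2 10)))))] (.c k74 (.q k122 [(.s k4 k8 1 (.s k5 k10 2 (.s k6 k7 0 (.s k9 k3 2 (.d k13 k14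
  k1 0 1))))), (.s k64 k128 7 (.s k240 k224 3 (.s k80 k160 11 (.s k144 k16 7 (.d k96 k112 k48 3
  11)))))] (.c k170 (.l (.s k4 k8 1 (.s k128 k64 7 (.s k132 k72 9 (.s k68 k196 7 (.d k136 k140 k204
  1 9)))))) .n)) (.c k122 (.l (.s k74 k133 10 (.s k10 k5 2 (.s k64 k128 7 (.s k138 k202 7 (.d k69
  k79 k207 2 10)))))) .n))) (.c k192 (.q k106 [(.s k4 k8 1 (.s k5 k10 2 (.s k6 k7 0 (.s k13 k14 0
  (.d k9 k1 k3 1 2))))), (.s k13 k14 0 (.s k93 k174 12 (.s k173 k253 11 (.s k94 k252 12 (.d k95 k92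
  k175 0 11))))), (.s k4 k8 1 (.s k85 k170 14 (.s k166 k247 12 (.s k89 k243 14 (.d k93 k81 k174 1
  12)))))] (.c k166 (.l (.s k4 k8 1 (.s k5 k10 2 (.s k6 k7 0 (.s k9 k3 2 (.d k13 k14 k1 0 1))))))
  .n)) .n))) (.c k208 (.q k149 [(.s k4 k8 1 (.s k5 k10 2 (.s k6 k7 0 (.s k9 k3 2 (.d k13 k14 k1 0
  1))))), (.s k13 k14 0 (.s k93 k174 12 (.s k173 k253 11 (.s k94 k252 12 (.d k95 k92 k175 0 11))))),
  (.s k4 k8 1 (.s k85 k170 14 (.s k166 k247 12 (.s k89 k243 14 (.d k93 k81 k174 1 12)))))] .n) .n)))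
  (.c k95 (.f k85 k170 14 (.q k223 [(.s k207 k239 3 (.s k69 k138 10 (.s k101 k117 3 (.d k154 k16 k48
  10 14)))), (.s k5 k10 2 (.s k165 k245 11 (.s k154 k16 10 (.s k143 k176 6 (.d k207 k239 k79 3
  7))))), (.s k10 k5 2 (.s k207 k239 3 (.s k138 k69 10 (.s k74 k202 7 (.s k133 k192 10 (.d k143 k128
  k79 2 7))))))] (.c k207 (.l (.s k5 k10 2 (.s k165 k245 11 (.s k16 k154 10 (.s k48 k32 3 (.s k37
  k26 6 (.s k101 k229 7 (.d k117 k186 k69 10 3)))))))) (.c k239 (.l (.s k5 k10 2 (.s k165 k245 11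
  (.s k154 k16 10 (.s k143 k176 6 (.s k207 k79 7 (.s k69 k138 10 (.d k101 k117 k48 3 14))))))))
  .n)))) (.c k165 (.q k12 [(.s k4 k8 1 (.s k5 k10 2 (.s k13 k14 0 (.s k9 k1 1 (.d k6 k7 k3 0 2))))),
  (.s k4 k8 1 (.s k85 k170 14 (.s k166 k247 12 (.s k89 k243 14 (.d k93 k81 k174 1 12))))), (.s k13
  k14 0 (.s k93 k174 12 (.s k173 k253 11 (.s k94 k252 12 (.d k95 k92 k175 0 11)))))] .n) (.c k170
  (.q k12 [(.s k8 k4 1 (.s k10 k5 2 (.s k9 k11 0 (.s k6 k3 2 (.d k14 k13 k2 0 1))))), (.s k13 k14 0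
  (.s k93 k174 12 (.s k173 k253 11 (.s k94 k252 12 (.d k95 k92 k175 0 11)))))] (.c k13 (.q k85 [(.s
  k4 k8 1 (.s k166 k247 12 (.s k93 k174 12 (.d k89 k81 k243 1 14)))), (.s k5 k10 2 (.s k165 k245 11
  (.s k90 k240 14 (.d k95 k80 k175 2 11))))] .n) (.c k14 (.q k85 [(.s k4 k8 1 (.s k166 k247 12 (.s
  k89 k243 14 (.d k93 k81 k174 1 12)))), (.s k5 k10 2 (.s k165 k245 11 (.s k90 k240 14 (.d k95 k80
  k175 2 11))))] .n) .n))) (.c k175 (.q k12 [(.s k4 k8 1 (.s k5 k10 2 (.s k6 k7 0 (.s k13 k14 0 (.d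
  k9 k1 k3 1 2))))), (.s k4 k8 1 (.s k85 k170 14 (.s k166 k247 12 (.s k89 k243 14 (.d k93 k81 k174 1
  12))))), (.s k5 k10 2 (.s k85 k170 14 (.s k165 k245 11 (.s k13 k14 0 (.s k93 k174 12 (.d k89 k81
  k241 1 13))))))] .n) (.c k240 (.f k85 k170 14 (.q k12 [(.s k4 k8 1 (.s k166 k247 12 (.s k93 k174
  12 (.d k89 k81 k243 1 14)))), (.s k8 k4 1 (.s k10 k5 2 (.s k9 k11 0 (.s k6 k3 2 (.d k14 k13 k2 0
  1))))), (.s k5 k10 2 (.s k165 k245 11 (.s k13 k14 0 (.s k93 k174 12 (.d k89 k81 k241 1 13)))))]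
  (.c k122 (.q k181 [(.s k4 k8 1 (.s k166 k247 12 (.s k93 k174 12 (.d k89 k81 k243 1 14)))), (.s k8
  k4 1 (.s k10 k5 2 (.s k9 k11 0 (.s k6 k3 2 (.d k14 k13 k2 0 1))))), (.s k5 k10 2 (.s k165 k245 11
  (.s k13 k14 0 (.s k93 k174 12 (.d k89 k81 k241 1 13)))))] .n) (.c k181 (.q k122 [(.s k4 k8 1 (.s
  k166 k247 12 (.s k93 k174 12 (.d k89 k81 k243 1 14)))), (.s k8 k4 1 (.s k10 k5 2 (.s k9 k11 0 (.s
  k6 k3 2 (.d k14 k13 k2 0 1))))), (.s k5 k10 2 (.s k165 k245 11 (.s k13 k14 0 (.s k93 k174 12 (.d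
  k89 k81 k241 1 13)))))] .n) .n)))) (.c k245 (.l (.s k10 k5 2 (.s k175 k95 11 (.s k170 k85 14 (.s
  k165 k160 2 (.d k90 k250 k240 11 14)))))) (.c k250 (.l (.s k5 k10 2 (.s k95 k175 11 (.s k85 k170
  14 (.s k90 k80 2 (.d k165 k245 k240 11 14)))))) .n)))))))))))))

def t64 : T TT 256 :=
  (.f k85 k170 14 (.q k3 [(.s k1 k2 0 (.s k169 k253 13 (.s k87 k171 13 (.d k86 k84 k252 0 14))))]
  (.c k1 (.q k4 [(.s k12 k8 1 (.s k166 k247 12 (.s k93 k174 12 (.d k89 k81 k243 1 14)))), (.s k87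
  k171 13 (.s k247 k166 12 (.s k7 k167 11 (.s k15 k11 1 (.d k5 k6 k10 0 2))))), (.s k87 k171 13 (.s
  k166 k247 12 (.s k86 k84 0 (.s k6 k246 11 (.d k12 k8 k9 1 2))))), (.s k12 k8 1 (.s k9 k6 2 (.s k87
  k171 13 (.s k86 k84 0 (.s k169 k252 14 (.s k89 k249 11 (.d k93 k81 k174 1 12)))))))] .n) (.c k2
  (.q k4 [(.s k12 k8 1 (.s k166 k247 12 (.s k93 k174 12 (.d k89 k81 k243 1 14)))), (.s k87 k171 13
  (.s k247 k166 12 (.s k7 k167 11 (.s k15 k11 1 (.d k5 k6 k10 0 2))))), (.s k87 k171 13 (.s k166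
  k247 12 (.s k86 k84 0 (.s k6 k246 11 (.d k12 k8 k9 1 2))))), (.s k12 k8 1 (.s k9 k6 2 (.s k87 k171
  13 (.s k86 k84 0 (.s k169 k252 14 (.s k89 k249 11 (.d k93 k81 k174 1 12)))))))] (.c k86 (.q k254
  [(.s k12 k8 1 (.s k166 k247 12 (.s k93 k174 12 (.d k89 k81 k243 1 14)))), (.s k87 k171 13 (.s k247
  k166 12 (.s k7 k167 11 (.s k15 k11 1 (.d k5 k6 k10 0 2))))), (.s k12 k8 1 (.s k6 k9 2 (.s k5 k7 0
  (.s k174 k93 12 (.s k14 k94 11 (.d k15 k10 k13 2 0))))))] (.c k174 (.l (.s k12 k8 1 (.s k6 k9 2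
  (.s k87 k171 13 (.s k7 k5 0 (.d k247 k167 k166 11 12)))))) (.c k251 (.l (.s k166 k247 12 (.s k12
  k8 1 (.s k89 k243 14 (.d k93 k81 k174 1 12))))) .n))) (.c k254 (.q k86 [(.d k87 k84 k171 0 13),
  (.s k12 k8 1 (.s k6 k9 2 (.d k166 k246 k247 11 12)))] .n) .n))) (.c k84 (.f k2 k1 0 (.q k4 [(.s
  k12 k8 1 (.s k166 k247 12 (.s k89 k243 14 (.d k93 k81 k174 1 12)))), (.s k12 k8 1 (.s k6 k9 2 (.s
  k10 k14 1 (.d k5 k7 k15 0 2)))), (.s k87 k171 13 (.s k247 k166 12 (.s k7 k167 11 (.s k15 k11 1 (.d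
  k5 k6 k10 0 2)))))] (.c k104 (.q k124 [(.s k12 k8 1 (.s k166 k247 12 (.s k89 k243 14 (.d k93 k81
  k174 1 12)))), (.s k12 k8 1 (.s k6 k9 2 (.s k10 k14 1 (.d k5 k7 k15 0 2)))), (.s k87 k171 13 (.s
  k247 k166 12 (.s k7 k167 11 (.s k15 k11 1 (.d k5 k6 k10 0 2)))))] (.c k251 (.l (.s k166 k247 12
  (.s k12 k8 1 (.s k89 k243 14 (.d k93 k81 k174 1 12))))) .n)) (.c k124 (.q k104 [(.s k12 k8 1 (.s
  k166 k247 12 (.s k89 k243 14 (.d k93 k81 k174 1 12)))), (.s k12 k8 1 (.s k6 k9 2 (.s k10 k14 1 (.d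
  k5 k7 k15 0 2)))), (.s k87 k171 13 (.s k247 k166 12 (.s k7 k167 11 (.s k15 k11 1 (.d k5 k6 k10 0
  2)))))] (.c k251 (.l (.s k166 k247 12 (.s k12 k8 1 (.s k89 k243 14 (.d k93 k81 k174 1 12))))) .n))
  (.c k251 (.l (.s k166 k247 12 (.s k12 k8 1 (.s k89 k243 14 (.d k93 k81 k174 1 12))))) .n))))) (.c
  k86 (.q k4 [(.s k12 k8 1 (.s k166 k247 12 (.s k93 k174 12 (.d k89 k81 k243 1 14)))), (.s k87 k171
  13 (.s k247 k166 12 (.s k7 k167 11 (.s k15 k11 1 (.d k5 k6 k10 0 2))))), (.s k2 k1 0 (.s k12 k8 1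
  (.s k6 k9 2 (.s k10 k14 1 (.d k5 k7 k15 0 2)))))] (.c k2 (.q k254 [(.s k12 k8 1 (.s k166 k247 12
  (.s k93 k174 12 (.d k89 k81 k243 1 14)))), (.s k87 k171 13 (.s k247 k166 12 (.s k7 k167 11 (.s k15
  k11 1 (.d k5 k6 k10 0 2))))), (.s k12 k8 1 (.s k6 k9 2 (.s k5 k7 0 (.s k174 k93 12 (.s k14 k94 11
  (.d k15 k10 k13 2 0))))))] (.c k174 (.l (.s k12 k8 1 (.s k6 k9 2 (.s k87 k171 13 (.s k7 k5 0 (.d
  k247 k167 k166 11 12)))))) (.c k251 (.l (.s k166 k247 12 (.s k12 k8 1 (.s k89 k243 14 (.d k93 k81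
  k174 1 12))))) .n))) (.c k251 (.l (.s k166 k247 12 (.s k12 k8 1 (.s k89 k243 14 (.d k93 k81 k174 1
  12))))) (.c k254 (.l (.s k2 k1 0 (.s k12 k8 1 (.s k6 k9 2 (.s k10 k14 1 (.d k5 k7 k15 0 2))))))
  .n)))) (.c k87 (.q k4 [(.s k12 k8 1 (.s k166 k247 12 (.s k93 k174 12 (.d k89 k81 k243 1 14)))),
  (.s k2 k1 0 (.s k12 k8 1 (.s k6 k9 2 (.s k10 k14 1 (.d k5 k7 k15 0 2))))), (.s k1 k2 0 (.s k169
  k253 13 (.s k86 k252 14 (.s k166 k247 12 (.s k6 k246 11 (.s k9 k12 2 (.d k5 k7 k13 0 1))))))), (.s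
  k2 k1 0 (.s k247 k166 12 (.s k243 k251 1 (.s k162 k81 12 (.s k82 k242 11 (.s k161 k240 12 (.d k163
  k160 k83 0 11)))))))] .n) (.c k169 (.q k48 [(.s k16 k32 3 (.s k154 k223 10 (.s k117 k186 10 (.d
  k101 k69 k207 3 14)))), (.s k1 k2 0 (.s k32 k16 3 (.s k33 k18 4 (.s k17 k49 3 (.d k34 k35 k51 0
  4))))), (.s k18 k33 4 (.s k117 k186 10 (.s k101 k69 3 (.s k154 k207 14 (.s k86 k222 9 (.d k87 k171
  k84 13 0))))))] (.c k168 (.l (.s k171 k87 13 (.s k16 k32 3 (.s k154 k223 10 (.s k101 k207 14 (.d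
  k117 k69 k186 3 10)))))) (.c k171 (.q k168 [(.s k16 k32 3 (.s k154 k223 10 (.s k117 k186 10 (.d
  k101 k69 k207 3 14)))), (.s k1 k2 0 (.s k32 k16 3 (.s k33 k18 4 (.s k17 k49 3 (.d k34 k35 k51 0
  4)))))] (.c k16 (.l (.s k2 k1 0 (.s k252 k84 13 (.s k18 k33 4 (.s k50 k34 3 (.s k186 k117 10 (.d
  k254 k253 k118 0 9))))))) (.c k32 (.l (.s k1 k2 0 (.s k252 k84 13 (.s k33 k18 4 (.s k49 k17 3 (.s
  k117 k186 10 (.d k253 k254 k185 0 9))))))) .n))) .n))) (.c k171 (.q k48 [(.s k16 k32 3 (.s k154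
  k223 10 (.s k117 k186 10 (.d k101 k69 k207 3 14)))), (.s k1 k2 0 (.s k32 k16 3 (.s k33 k18 4 (.s
  k17 k49 3 (.d k34 k35 k51 0 4))))), (.s k1 k2 0 (.s k169 k253 13 (.s k33 k18 4 (.s k101 k237 9 (.d
  k117 k69 k186 3 10)))))] (.c k168 (.q k169 [(.d k1 k2 k253 0 13), (.s k33 k18 4 (.s k101 k237 9
  (.d k117 k69 k186 3 10)))] .n) (.c k169 (.q k168 [(.s k16 k32 3 (.s k154 k223 10 (.s k117 k186 10
  (.d k101 k69 k207 3 14)))), (.s k1 k2 0 (.s k32 k16 3 (.s k33 k18 4 (.s k17 k49 3 (.d k34 k35 k51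
  0 4)))))] (.c k16 (.l (.s k2 k1 0 (.s k252 k84 13 (.s k18 k33 4 (.s k50 k34 3 (.s k186 k117 10 (.d
  k254 k253 k118 0 9))))))) (.c k32 (.l (.s k1 k2 0 (.s k252 k84 13 (.s k33 k18 4 (.s k49 k17 3 (.s
  k117 k186 10 (.d k253 k254 k185 0 9))))))) .n))) .n))) (.c k252 (.f k2 k1 0 (.q k4 [(.s k12 k8 1
  (.s k6 k9 2 (.s k10 k14 1 (.d k5 k7 k15 0 2)))), (.s k12 k8 1 (.s k166 k247 12 (.s k89 k243 14 (.d
  k93 k81 k174 1 12)))), (.s k87 k171 13 (.s k247 k166 12 (.s k7 k167 11 (.s k15 k11 1 (.d k5 k6 k10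
  0 2)))))] (.c k126 (.q k189 [(.s k12 k8 1 (.s k6 k9 2 (.s k10 k14 1 (.d k5 k7 k15 0 2)))), (.s k12
  k8 1 (.s k166 k247 12 (.s k89 k243 14 (.d k93 k81 k174 1 12)))), (.s k87 k171 13 (.s k247 k166 12
  (.s k7 k167 11 (.s k15 k11 1 (.d k5 k6 k10 0 2)))))] (.c k251 (.l (.s k166 k247 12 (.s k12 k8 1
  (.s k89 k243 14 (.d k93 k81 k174 1 12))))) .n)) (.c k189 (.q k126 [(.s k12 k8 1 (.s k6 k9 2 (.s
  k10 k14 1 (.d k5 k7 k15 0 2)))), (.s k12 k8 1 (.s k166 k247 12 (.s k89 k243 14 (.d k93 k81 k174 1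
  12)))), (.s k87 k171 13 (.s k247 k166 12 (.s k7 k167 11 (.s k15 k11 1 (.d k5 k6 k10 0 2)))))] (.c
  k251 (.l (.s k166 k247 12 (.s k12 k8 1 (.s k89 k243 14 (.d k93 k81 k174 1 12))))) .n)) (.c k251
  (.l (.s k166 k247 12 (.s k12 k8 1 (.s k89 k243 14 (.d k93 k81 k174 1 12))))) .n))))) (.c k253 (.q
  k4 [(.s k12 k8 1 (.s k166 k247 12 (.s k93 k174 12 (.d k89 k81 k243 1 14)))), (.s k87 k171 13 (.s
  k247 k166 12 (.s k7 k167 11 (.s k15 k11 1 (.d k5 k6 k10 0 2))))), (.s k2 k1 0 (.s k12 k8 1 (.s k6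
  k9 2 (.s k10 k14 1 (.d k5 k7 k15 0 2)))))] (.c k251 (.l (.s k166 k247 12 (.s k12 k8 1 (.s k89 k243
  14 (.d k93 k81 k174 1 12))))) .n)) (.c k254 (.l (.s k87 k171 13 (.s k1 k2 0 (.s k86 k84 0 (.d k169
  k253 k252 13 14))))) .n))))))))))))

def t65 : T TT 256 :=
  (.f k85 k170 14 (.q k48 [(.s k16 k32 3 (.s k154 k223 10 (.s k117 k186 10 (.d k101 k69 k207 3
  14))))] (.c k16 (.q k3 [(.s k1 k2 0 (.s k169 k253 13 (.s k87 k171 13 (.d k86 k84 k252 0 14)))),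
  (.s k33 k18 4 (.s k117 k186 10 (.s k101 k69 3 (.s k169 k237 9 (.d k1 k2 k253 0 13))))), (.s k18
  k33 4 (.s k117 k186 10 (.s k101 k69 3 (.s k154 k207 14 (.s k86 k222 9 (.d k87 k84 k171 0 13))))))]
  .n) (.c k32 (.q k3 [(.s k1 k2 0 (.s k169 k253 13 (.s k87 k171 13 (.d k86 k84 k252 0 14)))), (.s
  k33 k18 4 (.s k117 k186 10 (.s k101 k69 3 (.s k169 k237 9 (.d k1 k2 k253 0 13))))), (.s k18 k33 4
  (.s k117 k186 10 (.s k101 k69 3 (.s k154 k207 14 (.s k86 k222 9 (.d k87 k84 k171 0 13))))))] (.c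
  k101 (.q k239 [(.s k1 k2 0 (.s k169 k253 13 (.s k87 k171 13 (.d k86 k84 k252 0 14)))), (.s k18 k33
  4 (.s k87 k171 13 (.s k223 k207 3 (.s k16 k154 10 (.d k19 k17 k155 0 9))))), (.s k1 k2 0 (.s k33
  k18 4 (.s k49 k17 3 (.s k117 k186 10 (.d k253 k185 k169 9 13)))))] (.c k169 (.l (.s k171 k87 13
  (.s k103 k35 9 (.s k207 k223 3 (.s k139 k71 9 (.d k155 k187 k51 3 13)))))) .n)) (.c k239 (.q k101
  [(.d k117 k69 k186 3 10), (.s k1 k2 0 (.s k169 k253 13 (.d k33 k18 k237 4 9)))] .n) .n))) (.c k69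
  (.f k32 k16 3 (.q k3 [(.s k1 k2 0 (.s k169 k253 13 (.s k87 k171 13 (.d k86 k84 k252 0 14)))), (.s
  k33 k18 4 (.s k34 k35 0 (.s k17 k51 4 (.d k1 k2 k49 0 3)))), (.s k18 k33 4 (.s k87 k171 13 (.s k86
  k84 0 (.s k169 k252 14 (.s k154 k222 9 (.s k207 k101 14 (.d k139 k184 k71 4 9)))))))] (.c k73 (.q
  k77 [(.s k1 k2 0 (.s k169 k253 13 (.s k87 k171 13 (.d k86 k84 k252 0 14)))), (.s k33 k18 4 (.s k34
  k35 0 (.s k17 k51 4 (.d k1 k2 k49 0 3)))), (.s k18 k33 4 (.s k87 k171 13 (.s k86 k84 0 (.s k169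
  k252 14 (.s k154 k222 9 (.s k207 k101 14 (.d k139 k184 k71 4 9)))))))] .n) (.c k77 (.q k73 [(.s k1
  k2 0 (.s k169 k253 13 (.s k87 k171 13 (.d k86 k84 k252 0 14)))), (.s k33 k18 4 (.s k34 k35 0 (.s
  k17 k51 4 (.d k1 k2 k49 0 3)))), (.s k18 k33 4 (.s k87 k171 13 (.s k86 k84 0 (.s k169 k252 14 (.s
  k154 k222 9 (.s k207 k101 14 (.d k139 k184 k71 4 9)))))))] .n) .n)))) (.c k101 (.q k3 [(.s k1 k2 0
  (.s k169 k253 13 (.s k87 k171 13 (.d k86 k84 k252 0 14)))), (.s k2 k1 0 (.s k18 k33 4 (.s k34 k50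
  3 (.s k17 k51 4 (.d k16 k32 k19 3 0))))), (.s k18 k33 4 (.s k87 k171 13 (.s k86 k84 0 (.s k154
  k222 9 (.d k16 k32 k223 3 10)))))] (.c k32 (.q k239 [(.s k1 k2 0 (.s k169 k253 13 (.s k87 k171 13
  (.d k86 k84 k252 0 14)))), (.s k18 k33 4 (.s k87 k171 13 (.s k223 k207 3 (.s k16 k154 10 (.d k19
  k17 k155 0 9))))), (.s k1 k2 0 (.s k33 k18 4 (.s k49 k17 3 (.s k117 k186 10 (.d k253 k185 k169 9
  13)))))] (.c k169 (.l (.s k171 k87 13 (.s k103 k35 9 (.s k207 k223 3 (.s k139 k71 9 (.d k155 k187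
  k51 3 13)))))) .n)) (.c k169 (.l (.s k1 k2 0 (.s k32 k16 3 (.s k33 k18 4 (.s k17 k49 3 (.d k34 k35
  k51 0 4)))))) (.c k239 (.l (.s k32 k16 3 (.s k1 k2 0 (.s k169 k253 13 (.s k86 k252 14 (.d k87 k84
  k171 0 13)))))) .n)))) (.c k117 (.q k3 [(.s k1 k2 0 (.s k87 k171 13 (.s k86 k84 0 (.d k169 k253
  k252 13 14)))), (.s k2 k1 0 (.s k16 k32 3 (.s k18 k33 4 (.s k34 k50 3 (.d k17 k19 k51 0 4))))),
  (.s k16 k32 3 (.s k18 k33 4 (.s k87 k171 13 (.s k154 k223 10 (.d k86 k84 k222 0 9)))))] .n) (.c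
  k154 (.q k3 [(.s k1 k2 0 (.s k169 k253 13 (.s k87 k171 13 (.d k86 k84 k252 0 14)))), (.s k2 k1 0
  (.s k16 k32 3 (.s k18 k33 4 (.s k34 k50 3 (.d k17 k19 k51 0 4))))), (.s k33 k18 4 (.s k87 k171 13
  (.s k86 k84 0 (.s k169 k252 14 (.s k101 k237 9 (.d k117 k186 k69 10 3))))))] (.c k138 (.l (.s k186
  k117 10 (.s k1 k2 0 (.s k169 k253 13 (.s k86 k252 14 (.d k87 k84 k171 0 13)))))) (.c k186 (.q k138
  [(.s k1 k2 0 (.s k169 k253 13 (.s k87 k171 13 (.d k86 k84 k252 0 14)))), (.s k2 k1 0 (.s k16 k32 3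
  (.s k18 k33 4 (.s k34 k50 3 (.d k17 k19 k51 0 4))))), (.s k32 k16 3 (.s k207 k69 10 (.s k33 k18 4
  (.s k171 k87 13 (.s k35 k34 0 (.d k239 k223 k103 3 9))))))] (.c k2 (.l (.s k16 k32 3 (.s k207 k69
  10 (.s k18 k33 4 (.s k87 k171 13 (.s k19 k17 0 (.d k223 k239 k155 3 9))))))) .n)) .n))) (.c k186
  (.q k3 [(.s k1 k2 0 (.s k169 k253 13 (.s k87 k171 13 (.d k86 k84 k252 0 14)))), (.s k2 k1 0 (.s
  k16 k32 3 (.s k18 k33 4 (.s k34 k50 3 (.d k17 k19 k51 0 4))))), (.s k16 k32 3 (.s k18 k33 4 (.s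
  k87 k171 13 (.s k154 k223 10 (.d k86 k84 k222 0 9)))))] (.c k138 (.q k154 [(.d k16 k32 k223 3 10),
  (.s k18 k33 4 (.s k87 k171 13 (.d k86 k84 k222 0 9)))] .n) (.c k154 (.q k138 [(.s k1 k2 0 (.s k169
  k253 13 (.s k87 k171 13 (.d k86 k84 k252 0 14)))), (.s k2 k1 0 (.s k16 k32 3 (.s k18 k33 4 (.s k34
  k50 3 (.d k17 k19 k51 0 4))))), (.s k32 k16 3 (.s k207 k69 10 (.s k33 k18 4 (.s k171 k87 13 (.s
  k35 k34 0 (.d k239 k223 k103 3 9))))))] (.c k2 (.l (.s k16 k32 3 (.s k207 k69 10 (.s k18 k33 4 (.s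
  k87 k171 13 (.s k19 k17 0 (.d k223 k239 k155 3 9))))))) .n)) .n))) (.c k207 (.f k32 k16 3 (.q k3
  [(.s k1 k2 0 (.s k169 k253 13 (.s k87 k171 13 (.d k86 k84 k252 0 14)))), (.s k33 k18 4 (.s k34 k35
  0 (.s k17 k51 4 (.d k1 k2 k49 0 3)))), (.s k33 k18 4 (.s k87 k171 13 (.s k117 k186 10 (.s k101 k69
  3 (.s k169 k237 9 (.d k86 k252 k84 14 0))))))] (.c k111 (.q k159 [(.s k1 k2 0 (.s k169 k253 13 (.s
  k87 k171 13 (.d k86 k84 k252 0 14)))), (.s k33 k18 4 (.s k34 k35 0 (.s k17 k51 4 (.d k1 k2 k49 0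
  3)))), (.s k33 k18 4 (.s k87 k171 13 (.s k117 k186 10 (.s k101 k69 3 (.s k169 k237 9 (.d k86 k252
  k84 14 0))))))] .n) (.c k159 (.q k111 [(.s k1 k2 0 (.s k169 k253 13 (.s k87 k171 13 (.d k86 k84
  k252 0 14)))), (.s k33 k18 4 (.s k34 k35 0 (.s k17 k51 4 (.d k1 k2 k49 0 3)))), (.s k33 k18 4 (.s
  k87 k171 13 (.s k117 k186 10 (.s k101 k69 3 (.s k169 k237 9 (.d k86 k252 k84 14 0))))))] .n)
  .n)))) (.c k223 (.q k3 [(.s k1 k2 0 (.s k169 k253 13 (.s k87 k171 13 (.d k86 k84 k252 0 14)))),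
  (.s k2 k1 0 (.s k16 k32 3 (.s k18 k33 4 (.s k34 k50 3 (.d k17 k19 k51 0 4))))), (.s k18 k33 4 (.s
  k87 k171 13 (.s k117 k186 10 (.s k101 k69 3 (.s k154 k207 14 (.d k86 k84 k222 0 9))))))] .n) (.c
  k239 (.l (.s k117 k186 10 (.s k16 k32 3 (.s k101 k69 3 (.d k154 k223 k207 10 14)))))
  .n))))))))))))

def t66 : T TT 256 :=
  (.f k85 k170 14 (.q k15 [(.s k5 k10 2 (.s k165 k245 11 (.s k95 k175 11 (.d k90 k80 k240 2 14))))]
  (.c k5 (.q k12 [(.s k4 k8 1 (.s k166 k247 12 (.s k93 k174 12 (.d k89 k81 k243 1 14)))), (.s k14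
  k13 0 (.s k174 k93 12 (.s k94 k254 11 (.s k173 k252 12 (.d k175 k172 k95 0 11))))), (.s k4 k8 1
  (.s k166 k247 12 (.s k14 k13 0 (.s k90 k242 13 (.d k95 k80 k175 2 11)))))] .n) (.c k10 (.q k12
  [(.s k93 k174 12 (.s k89 k81 1 (.s k166 k243 14 (.d k4 k8 k247 1 12)))), (.s k14 k13 0 (.s k174
  k93 12 (.s k94 k254 11 (.s k173 k252 12 (.d k175 k172 k95 0 11))))), (.s k4 k8 1 (.s k166 k247 12
  (.s k14 k13 0 (.s k90 k242 13 (.d k95 k80 k175 2 11)))))] (.c k90 (.q k250 [(.s k93 k174 12 (.s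
  k89 k81 1 (.s k166 k243 14 (.d k4 k8 k247 1 12)))), (.s k14 k13 0 (.s k174 k93 12 (.s k94 k254 11
  (.s k173 k252 12 (.d k175 k172 k95 0 11))))), (.s k4 k8 1 (.s k166 k247 12 (.s k13 k14 0 (.s k89
  k243 14 (.s k165 k241 13 (.d k245 k240 k5 2 11))))))] .n) (.c k250 (.q k90 [(.d k95 k80 k175 2
  11), (.s k4 k8 1 (.s k166 k247 12 (.d k14 k13 k242 0 13)))] .n) .n))) (.c k80 (.q k12 [(.s k4 k8 1
  (.s k166 k247 12 (.s k93 k174 12 (.d k89 k81 k243 1 14)))), (.s k8 k4 1 (.s k10 k5 2 (.s k9 k11 0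
  (.s k6 k3 2 (.d k14 k13 k2 0 1))))), (.s k5 k10 2 (.s k165 k245 11 (.s k13 k14 0 (.s k93 k174 12
  (.d k89 k81 k241 1 13)))))] .n) (.c k90 (.q k12 [(.s k4 k8 1 (.s k166 k247 12 (.s k93 k174 12 (.d
  k89 k81 k243 1 14)))), (.s k8 k4 1 (.s k10 k5 2 (.s k9 k11 0 (.s k6 k3 2 (.d k14 k13 k2 0 1))))),
  (.s k13 k14 0 (.s k93 k174 12 (.s k173 k253 11 (.s k94 k252 12 (.d k95 k92 k175 0 11)))))] (.c k10
  (.q k250 [(.s k93 k174 12 (.s k89 k81 1 (.s k166 k243 14 (.d k4 k8 k247 1 12)))), (.s k14 k13 0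
  (.s k174 k93 12 (.s k94 k254 11 (.s k173 k252 12 (.d k175 k172 k95 0 11))))), (.s k4 k8 1 (.s k166
  k247 12 (.s k13 k14 0 (.s k89 k243 14 (.s k165 k241 13 (.d k245 k240 k5 2 11))))))] .n) (.c k250
  (.l (.s k10 k5 2 (.s k4 k8 1 (.s k166 k247 12 (.s k89 k243 14 (.d k93 k81 k174 1 12)))))) .n)))
  (.c k95 (.q k12 [(.s k4 k8 1 (.s k166 k247 12 (.s k93 k174 12 (.d k89 k81 k243 1 14)))), (.s k8 k4
  1 (.s k10 k5 2 (.s k9 k11 0 (.s k6 k3 2 (.d k14 k13 k2 0 1))))), (.s k5 k10 2 (.s k165 k245 11 (.s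
  k13 k14 0 (.s k93 k174 12 (.d k89 k81 k241 1 13)))))] .n) (.c k165 (.q k12 [(.s k4 k8 1 (.s k166
  k247 12 (.s k93 k174 12 (.d k89 k81 k243 1 14)))), (.s k8 k4 1 (.s k10 k5 2 (.s k9 k11 0 (.s k6 k3
  2 (.d k14 k13 k2 0 1))))), (.s k5 k10 2 (.s k13 k14 0 (.s k93 k174 12 (.s k253 k173 11 (.d k1 k169
  k9 13 1)))))] (.c k160 (.l (.s k175 k95 11 (.s k4 k8 1 (.s k166 k247 12 (.s k89 k243 14 (.d k93
  k81 k174 1 12)))))) (.c k175 (.q k160 [(.s k4 k8 1 (.s k166 k247 12 (.s k89 k243 14 (.d k93 k81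
  k174 1 12)))), (.s k8 k4 1 (.s k10 k5 2 (.s k9 k11 0 (.s k6 k3 2 (.d k14 k13 k2 0 1))))), (.s k80
  k240 11 (.s k13 k14 0 (.s k93 k174 12 (.s k173 k253 11 (.s k94 k252 12 (.d k95 k92 k90 0 2))))))]
  .n) .n))) (.c k175 (.q k12 [(.s k4 k8 1 (.s k166 k247 12 (.s k89 k243 14 (.d k93 k81 k174 1
  12)))), (.s k8 k4 1 (.s k10 k5 2 (.s k9 k11 0 (.s k6 k3 2 (.d k14 k13 k2 0 1))))), (.s k5 k10 2
  (.s k165 k245 11 (.s k13 k14 0 (.s k93 k174 12 (.d k89 k81 k241 1 13)))))] (.c k160 (.q k165 [(.d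
  k5 k10 k245 2 11), (.s k13 k14 0 (.s k93 k174 12 (.d k89 k81 k241 1 13)))] .n) (.c k165 (.q k160
  [(.s k4 k8 1 (.s k166 k247 12 (.s k89 k243 14 (.d k93 k81 k174 1 12)))), (.s k8 k4 1 (.s k10 k5 2
  (.s k9 k11 0 (.s k6 k3 2 (.d k14 k13 k2 0 1))))), (.s k80 k240 11 (.s k13 k14 0 (.s k93 k174 12
  (.s k173 k253 11 (.s k94 k252 12 (.d k95 k92 k90 0 2))))))] .n) .n))) (.c k240 (.q k12 [(.s k4 k8
  1 (.s k166 k247 12 (.s k93 k174 12 (.d k89 k81 k243 1 14)))), (.s k8 k4 1 (.s k10 k5 2 (.s k9 k11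
  0 (.s k6 k3 2 (.d k14 k13 k2 0 1))))), (.s k5 k10 2 (.s k165 k245 11 (.s k13 k14 0 (.s k93 k174 12
  (.d k89 k81 k241 1 13)))))] (.c k122 (.q k181 [(.s k4 k8 1 (.s k166 k247 12 (.s k93 k174 12 (.d
  k89 k81 k243 1 14)))), (.s k8 k4 1 (.s k10 k5 2 (.s k9 k11 0 (.s k6 k3 2 (.d k14 k13 k2 0 1))))),
  (.s k5 k10 2 (.s k165 k245 11 (.s k13 k14 0 (.s k93 k174 12 (.d k89 k81 k241 1 13)))))] .n) (.c
  k181 (.q k122 [(.s k4 k8 1 (.s k166 k247 12 (.s k93 k174 12 (.d k89 k81 k243 1 14)))), (.s k8 k4 1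
  (.s k10 k5 2 (.s k9 k11 0 (.s k6 k3 2 (.d k14 k13 k2 0 1))))), (.s k5 k10 2 (.s k165 k245 11 (.s
  k13 k14 0 (.s k93 k174 12 (.d k89 k81 k241 1 13)))))] .n) .n))) (.c k245 (.q k12 [(.s k4 k8 1 (.s
  k93 k174 12 (.s k89 k81 1 (.d k166 k247 k243 12 14)))), (.s k8 k4 1 (.s k10 k5 2 (.s k9 k11 0 (.s
  k6 k3 2 (.d k14 k13 k2 0 1))))), (.s k5 k10 2 (.s k13 k14 0 (.s k93 k174 12 (.s k253 k173 11 (.d
  k1 k9 k169 1 13)))))] .n) (.c k250 (.l (.s k95 k175 11 (.s k5 k10 2 (.s k90 k80 2 (.d k165 k245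
  k240 11 14))))) .n))))))))))))

theorem c1 : rootOK2 k255 k63 k1 t1 = true := by decide +kernel

theorem c3 : rootOK2 k255 k63 k3 t3 = true := by decide +kernel

theorem c5 : rootOK2 k255 k63 k5 t5 = true := by decide +kernel

theorem c6 : rootOK2 k255 k63 k6 t6 = true := by decide +kernel

theorem c7 : rootOK2 k255 k63 k7 t7 = true := by decide +kernel

theorem c15 : rootOK2 k255 k63 k15 t15 = true := by decide +kernel

theorem c21 : rootOK2 k255 k63 k21 t21 = true := by decide +kernel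

theorem c22 : rootOK2 k255 k63 k22 t22 = true := by decide +kernel

theorem c23 : rootOK2 k255 k63 k23 t23 = true := by decide +kernel

theorem c27 : rootOK2 k255 k63 k27 t27 = true := by decide +kernel

theorem c31 : rootOK2 k255 k63 k31 t31 = true := by decide +kernel

theorem c64 : rootOK2 k255 k63 k64 t64 = true := by decide +kernel

theorem c65 : rootOK2 k255 k63 k65 t65 = true := by decide +kernel

theorem c66 : rootOK2 k255 k63 k66 t66 = true := by decide +kernel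

def l : List Nat :=
  [k1.c, k3.c, k5.c, k6.c, k7.c, k15.c, k21.c, k22.c, k23.c, k27.c, k31.c, k64.c, k65.c, k66.c]

theorem ok : AllQ k255.c k63.c l :=
  allQ_cons c1 (allQ_cons c3 (allQ_cons c5 (allQ_cons c6 (allQ_cons c7 (allQ_cons c15 (
  allQ_cons c21 (allQ_cons c22 (allQ_cons c23 (allQ_cons c27 (allQ_cons c31 (allQ_cons c64 (
  allQ_cons c65 (allQ_cons c66 (allQ_nil _ _))))))))))))))

end Pool.Agent.TTT.E01
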