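import Pool.Agent.TTT.Sym2

set_option autoImplicit false
set_option maxRecDepth 100000

namespace Pool.Agent.TTT.E02

def t67 : T TT 256 :=
  (.f k85 k170 14 (.q k48 [(.s k16 k32 3 (.s k154 k223 10 (.s k117 k186 10 (.d k101 k69 k207 3
  14))))] (.c k16 (.q k195 [(.s k65 k130 8 (.s k105 k125 5 (.s k215 k235 5 (.d k150 k20 k60 8
  14)))), (.s k97 k146 12 (.s k117 k186 10 (.s k101 k69 3 (.s k105 k109 1 (.d k65 k125 k130 5
  8))))), (.s k146 k97 12 (.s k117 k186 10 (.s k101 k69 3 (.s k154 k207 14 (.s k150 k158 1 (.d k215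
  k235 k20 5 8))))))] .n) (.c k32 (.q k195 [(.s k65 k130 8 (.s k105 k125 5 (.s k215 k235 5 (.d k150
  k20 k60 8 14)))), (.s k97 k146 12 (.s k117 k186 10 (.s k101 k69 3 (.s k105 k109 1 (.d k65 k125
  k130 5 8))))), (.s k146 k97 12 (.s k117 k186 10 (.s k101 k69 3 (.s k154 k207 14 (.s k150 k158 1
  (.d k215 k235 k20 5 8))))))] (.c k101 (.q k239 [(.s k65 k130 8 (.s k105 k125 5 (.s k215 k235 5 (.d
  k150 k20 k60 8 14)))), (.s k235 k215 5 (.s k207 k223 3 (.s k203 k199 1 (.s k219 k251 3 (.d k231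
  k227 k243 1 5))))), (.s k65 k130 8 (.s k97 k146 12 (.s k117 k186 10 (.s k113 k81 3 (.d k125 k121
  k105 1 5)))))] (.c k150 (.l (.s k146 k97 12 (.s k215 k235 5 (.s k223 k207 3 (.s k16 k154 10 (.d
  k211 k219 k81 1 8)))))) .n)) (.c k239 (.q k101 [(.d k117 k69 k186 3 10), (.s k65 k130 8 (.s k97
  k146 12 (.d k105 k109 k125 1 5)))] .n) .n))) (.c k69 (.q k195 [(.s k65 k130 8 (.s k105 k125 5 (.s
  k215 k235 5 (.d k150 k20 k60 8 14)))), (.s k16 k32 3 (.s k130 k65 8 (.s k146 k97 12 (.s k81 k211 8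
  (.d k162 k178 k243 3 12))))), (.s k16 k32 3 (.s k154 k223 10 (.s k146 k97 12 (.s k150 k158 1 (.d
  k215 k235 k20 5 8)))))] .n) (.c k101 (.q k195 [(.s k65 k130 8 (.s k105 k125 5 (.s k215 k235 5 (.d
  k150 k20 k60 8 14)))), (.s k32 k16 3 (.s k97 k146 12 (.s k162 k227 8 (.s k81 k243 12 (.d k65 k113
  k130 3 8))))), (.s k146 k97 12 (.s k215 k235 5 (.s k150 k20 8 (.s k154 k158 1 (.d k16 k32 k223 3
  10)))))] (.c k32 (.q k239 [(.s k65 k130 8 (.s k105 k125 5 (.s k215 k235 5 (.d k150 k20 k60 8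
  14)))), (.s k235 k215 5 (.s k207 k223 3 (.s k203 k199 1 (.s k219 k251 3 (.d k231 k227 k243 1
  5))))), (.s k65 k130 8 (.s k97 k146 12 (.s k117 k186 10 (.s k113 k81 3 (.d k125 k121 k105 1
  5)))))] (.c k150 (.l (.s k146 k97 12 (.s k215 k235 5 (.s k223 k207 3 (.s k16 k154 10 (.d k211 k219
  k81 1 8)))))) .n)) (.c k239 (.l (.s k32 k16 3 (.s k65 k130 8 (.s k97 k146 12 (.s k162 k227 8 (.d
  k81 k113 k243 3 12)))))) .n))) (.c k117 (.q k195 [(.s k65 k130 8 (.s k215 k235 5 (.s k150 k20 8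
  (.d k105 k125 k60 5 14)))), (.s k16 k32 3 (.s k130 k65 8 (.s k146 k97 12 (.s k81 k211 8 (.d k162
  k178 k243 3 12))))), (.s k16 k32 3 (.s k154 k223 10 (.s k146 k97 12 (.s k150 k158 1 (.d k215 k235
  k20 5 8)))))] .n) (.c k154 (.q k195 [(.s k65 k130 8 (.s k105 k125 5 (.s k215 k235 5 (.d k150 k20
  k60 8 14)))), (.s k16 k32 3 (.s k130 k65 8 (.s k146 k97 12 (.s k81 k211 8 (.d k162 k178 k243 3
  12))))), (.s k97 k146 12 (.s k215 k235 5 (.s k150 k20 8 (.s k105 k60 14 (.s k101 k109 1 (.d k117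
  k186 k69 10 3))))))] (.c k138 (.l (.s k186 k117 10 (.s k65 k130 8 (.s k105 k125 5 (.s k150 k60 14
  (.d k215 k235 k20 5 8)))))) (.c k186 (.q k138 [(.s k65 k130 8 (.s k105 k125 5 (.s k215 k235 5 (.d
  k150 k20 k60 8 14)))), (.s k16 k32 3 (.s k130 k65 8 (.s k146 k97 12 (.s k81 k211 8 (.d k162 k178
  k243 3 12)))))] (.c k65 (.l (.s k32 k16 3 (.s k207 k69 10 (.s k97 k146 12 (.s k227 k162 8 (.s k235
  k215 5 (.d k239 k231 k223 1 3))))))) (.c k130 (.l (.s k16 k32 3 (.s k207 k69 10 (.s k146 k97 12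
  (.s k211 k81 8 (.s k215 k235 5 (.d k223 k239 k219 3 1))))))) .n))) .n))) (.c k186 (.q k195 [(.s
  k65 k130 8 (.s k105 k125 5 (.s k215 k235 5 (.d k150 k20 k60 8 14)))), (.s k16 k32 3 (.s k130 k65 8
  (.s k146 k97 12 (.s k81 k211 8 (.d k162 k178 k243 3 12))))), (.s k16 k32 3 (.s k154 k223 10 (.s
  k146 k97 12 (.s k150 k158 1 (.d k215 k235 k20 5 8)))))] (.c k138 (.q k154 [(.d k16 k32 k223 3 10),
  (.s k146 k97 12 (.s k150 k158 1 (.d k215 k235 k20 5 8)))] .n) (.c k154 (.q k138 [(.s k65 k130 8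
  (.s k105 k125 5 (.s k215 k235 5 (.d k150 k20 k60 8 14)))), (.s k16 k32 3 (.s k130 k65 8 (.s k146
  k97 12 (.s k81 k211 8 (.d k162 k178 k243 3 12)))))] (.c k65 (.l (.s k32 k16 3 (.s k207 k69 10 (.s
  k97 k146 12 (.s k227 k162 8 (.s k235 k215 5 (.d k239 k231 k223 1 3))))))) (.c k130 (.l (.s k16 k32
  3 (.s k207 k69 10 (.s k146 k97 12 (.s k211 k81 8 (.s k215 k235 5 (.d k223 k239 k219 3 1)))))))
  .n))) .n))) (.c k207 (.f k32 k16 3 (.q k195 [(.s k65 k130 8 (.s k97 k146 12 (.s k162 k227 8 (.d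
  k81 k113 k243 3 12)))), (.s k65 k130 8 (.s k105 k125 5 (.s k150 k60 14 (.d k215 k235 k20 5 8)))),
  (.s k97 k146 12 (.s k117 k186 10 (.s k101 k69 3 (.s k105 k109 1 (.s k215 k235 5 (.d k150 k60 k20
  14 8))))))] (.c k111 (.q k159 [(.s k65 k130 8 (.s k97 k146 12 (.s k162 k227 8 (.d k81 k113 k243 3
  12)))), (.s k65 k130 8 (.s k105 k125 5 (.s k150 k60 14 (.d k215 k235 k20 5 8)))), (.s k97 k146 12
  (.s k117 k186 10 (.s k101 k69 3 (.s k105 k109 1 (.s k215 k235 5 (.d k150 k60 k20 14 8))))))] (.c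
  k150 (.l (.s k97 k146 12 (.s k162 k227 8 (.s k81 k243 12 (.d k65 k113 k130 3 8))))) .n)) (.c k150
  (.l (.s k97 k146 12 (.s k162 k227 8 (.s k81 k243 12 (.d k65 k113 k130 3 8))))) (.c k159 (.q k111
  [(.s k65 k130 8 (.s k97 k146 12 (.s k162 k227 8 (.d k81 k113 k243 3 12)))), (.s k65 k130 8 (.s
  k105 k125 5 (.s k150 k60 14 (.d k215 k235 k20 5 8)))), (.s k97 k146 12 (.s k117 k186 10 (.s k101
  k69 3 (.s k105 k109 1 (.s k215 k235 5 (.d k150 k60 k20 14 8))))))] (.c k150 (.l (.s k97 k146 12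
  (.s k162 k227 8 (.s k81 k243 12 (.d k65 k113 k130 3 8))))) .n)) .n))))) (.c k223 (.q k195 [(.s k65
  k130 8 (.s k105 k125 5 (.s k215 k235 5 (.d k150 k20 k60 8 14)))), (.s k16 k32 3 (.s k130 k65 8 (.s
  k146 k97 12 (.s k162 k178 3 (.d k81 k211 k243 8 12))))), (.s k97 k146 12 (.s k117 k186 10 (.s k101
  k69 3 (.s k105 k109 1 (.s k150 k60 14 (.d k215 k235 k20 5 8))))))] .n) (.c k239 (.l (.s k117 k186
  10 (.s k16 k32 3 (.s k101 k69 3 (.d k154 k223 k207 10 14))))) .n))))))))))))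

def t69 : T TT 256 :=
  (.q k51 [(.s k17 k34 4 (.s k85 k170 14 (.s k153 k221 9 (.s k119 k187 9 (.d k102 k68 k204 4
  14)))))] (.c k17 (.q k48 [(.s k49 k50 0 (.s k117 k186 10 (.s k185 k253 9 (.s k118 k252 10 (.d k119
  k116 k187 0 9))))), (.s k32 k16 3 (.s k170 k85 14 (.s k101 k239 10 (.s k154 k207 14 (.d k186 k117
  k138 10 3))))), (.s k16 k32 3 (.s k85 k170 14 (.s k154 k223 10 (.s k50 k49 0 (.s k102 k206 13 (.d
  k119 k68 k187 4 9))))))] .n) (.c k34 (.q k48 [(.s k32 k16 3 (.s k170 k85 14 (.s k101 k239 10 (.s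
  k186 k117 10 (.d k154 k138 k207 3 14))))), (.s k49 k50 0 (.s k117 k186 10 (.s k185 k253 9 (.s k118
  k252 10 (.d k119 k116 k187 0 9))))), (.s k16 k32 3 (.s k85 k170 14 (.s k154 k223 10 (.s k50 k49 0
  (.s k102 k206 13 (.d k119 k68 k187 4 9))))))] .n) (.c k68 (.l (.s k34 k17 4 (.s k170 k85 14 (.s
  k102 k238 9 (.s k153 k204 14 (.d k187 k119 k136 9 4)))))) (.c k85 (.q k48 [(.s k16 k32 3 (.s k17
  k34 4 (.s k18 k19 0 (.s k49 k50 0 (.d k33 k1 k3 3 4))))), (.s k49 k50 0 (.s k117 k186 10 (.s k185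
  k253 9 (.s k118 k252 10 (.d k119 k116 k187 0 9)))))] (.c k1 (.l (.s k32 k16 3 (.s k34 k17 4 (.s
  k33 k35 0 (.s k18 k3 4 (.d k50 k49 k2 0 3)))))) (.c k49 (.q k101 [(.s k32 k16 3 (.s k239 k170 10
  (.d k207 k223 k154 3 14))), (.s k207 k154 14 (.s k223 k239 3 (.s k155 k103 13 (.s k87 k19 9 (.s
  k171 k3 13 (.d k187 k139 k119 3 9))))))] (.c k16 (.l (.s k207 k154 14 (.s k223 k239 3 (.s k155
  k103 13 (.s k87 k19 9 (.s k171 k3 13 (.d k187 k139 k119 3 9))))))) (.c k154 (.q k223 [(.s k32 k16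
  3 (.d k239 k207 k170 3 10)), (.s k187 k119 9 (.s k207 k239 3 (.s k155 k103 13 (.s k87 k19 9 (.d
  k171 k139 k3 3 13))))), (.s k16 k32 3 (.s k17 k34 4 (.s k19 k18 0 (.s k87 k155 9 (.d k3 k35 k171 3
  13)))))] .n) (.c k207 (.l (.s k32 k16 3 (.s k34 k17 4 (.s k170 k239 10 (.s k102 k238 9 (.s k153
  k204 14 (.d k187 k136 k119 4 9))))))) (.c k223 (.l (.s k32 k16 3 (.s k154 k207 14 (.s k170 k239 10
  (.d k186 k138 k117 3 10))))) (.c k239 (.l (.s k34 k17 4 (.s k207 k154 14 (.s k103 k155 13 (.s k102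
  k100 0 (.s k238 k170 9 (.d k204 k221 k153 4 14))))))) .n)))))) (.c k50 (.q k12 [(.s k4 k8 1 (.s
  k36 k24 5 (.s k20 k52 3 (.s k40 k60 5 (.d k32 k44 k16 1 3))))), (.s k8 k4 1 (.s k32 k16 3 (.s k25
  k38 6 (.s k42 k59 4 (.s k37 k47 2 (.s k13 k49 5 (.d k15 k14 k26 0 6))))))), (.s k16 k32 3 (.s k17
  k34 4 (.s k24 k36 5 (.s k25 k38 6 (.s k21 k29 1 (.d k26 k27 k31 0 2)))))), (.s k4 k8 1 (.s k36 k24
  5 (.s k38 k25 6 (.s k21 k55 4 (.s k37 k39 0 (.s k5 k53 3 (.d k15 k26 k10 6 2)))))))] (.c k101 (.l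
  (.s k117 k186 10 (.s k4 k8 1 (.s k32 k16 3 (.s k36 k24 5 (.s k20 k52 3 (.d k40 k44 k60 1 5)))))))
  (.c k117 (.q k101 [(.s k32 k16 3 (.s k239 k170 10 (.d k207 k223 k154 3 14))), (.s k24 k36 5 (.s
  k154 k207 14 (.s k89 k219 8 (.s k243 k166 14 (.d k113 k77 k178 5 8))))), (.s k4 k8 1 (.s k36 k24 5
  (.s k20 k52 3 (.s k40 k60 5 (.d k32 k44 k16 1 3)))))] .n) .n))) (.c k101 (.l (.s k117 k186 10 (.s
  k49 k50 0 (.s k185 k253 9 (.s k118 k252 10 (.d k119 k116 k187 0 9)))))) (.c k117 (.q k101 [(.s k32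
  k16 3 (.s k239 k170 10 (.d k207 k223 k154 3 14))), (.s k49 k50 0 (.s k154 k207 14 (.s k153 k205 13
  (.s k204 k102 14 (.d k152 k155 k100 0 13))))), (.s k16 k32 3 (.s k17 k34 4 (.s k18 k19 0 (.s k33
  k3 4 (.d k49 k50 k1 0 3)))))] .n) .n)))))) (.c k102 (.q k48 [(.s k16 k32 3 (.s k17 k34 4 (.s k18
  k19 0 (.s k33 k3 4 (.d k49 k50 k1 0 3))))), (.s k49 k50 0 (.s k117 k186 10 (.s k185 k253 9 (.s
  k118 k252 10 (.d k119 k116 k187 0 9))))), (.s k32 k16 3 (.s k170 k85 14 (.s k101 k239 10 (.s k154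
  k207 14 (.d k186 k117 k138 10 3)))))] .n) (.c k119 (.q k48 [(.s k16 k32 3 (.s k17 k34 4 (.s k18
  k19 0 (.s k49 k50 0 (.d k33 k1 k3 3 4))))), (.s k32 k16 3 (.s k170 k85 14 (.s k101 k239 10 (.s
  k154 k207 14 (.d k186 k117 k138 10 3))))), (.s k17 k34 4 (.s k85 k170 14 (.s k49 k50 0 (.s k117
  k186 10 (.s k253 k185 9 (.d k1 k33 k169 3 13))))))] .n) (.c k153 (.q k48 [(.s k49 k50 0 (.s k117
  k186 10 (.s k185 k253 9 (.s k118 k252 10 (.d k119 k116 k187 0 9))))), (.s k16 k32 3 (.s k17 k34 4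
  (.s k18 k19 0 (.s k33 k3 4 (.d k49 k50 k1 0 3))))), (.s k32 k16 3 (.s k170 k85 14 (.s k101 k239 10
  (.s k154 k207 14 (.d k186 k117 k138 10 3)))))] .n) (.c k170 (.q k48 [(.s k32 k16 3 (.s k34 k17 4
  (.s k33 k35 0 (.s k18 k3 4 (.d k50 k49 k2 0 3))))), (.s k49 k50 0 (.s k117 k186 10 (.s k185 k253 9
  (.s k118 k252 10 (.d k119 k116 k187 0 9)))))] (.c k49 (.q k12 [(.s k4 k8 1 (.s k32 k16 3 (.s k36
  k24 5 (.s k20 k52 3 (.d k40 k44 k60 1 5))))), (.s k16 k32 3 (.s k17 k34 4 (.s k24 k36 5 (.s k25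
  k38 6 (.s k21 k29 1 (.d k26 k27 k31 0 2)))))), (.s k4 k8 1 (.s k16 k32 3 (.s k38 k25 6 (.s k21 k55
  4 (.s k26 k31 2 (.s k14 k50 5 (.d k15 k13 k37 0 6))))))), (.s k4 k8 1 (.s k36 k24 5 (.s k38 k25 6
  (.s k21 k55 4 (.s k37 k39 0 (.s k5 k53 3 (.d k15 k26 k10 6 2)))))))] .n) (.c k50 (.q k12 [(.s k4
  k8 1 (.s k32 k16 3 (.s k36 k24 5 (.s k20 k52 3 (.d k40 k44 k60 1 5))))), (.s k4 k8 1 (.s k38 k25 6
  (.s k55 k21 4 (.s k119 k187 9 (.s k247 k183 7 (.s k166 k85 12 (.d k243 k251 k89 1 14))))))), (.s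
  k16 k32 3 (.s k17 k34 4 (.s k24 k36 5 (.s k25 k38 6 (.s k21 k29 1 (.d k26 k27 k31 0 2))))))] .n)
  .n))) (.c k187 (.q k48 [(.s k16 k32 3 (.s k17 k34 4 (.s k18 k19 0 (.s k49 k50 0 (.d k33 k1 k3 3
  4))))), (.s k32 k16 3 (.s k170 k85 14 (.s k101 k239 10 (.s k154 k207 14 (.d k186 k117 k138 10
  3))))), (.s k34 k17 4 (.s k170 k85 14 (.s k102 k238 9 (.s k50 k49 0 (.s k154 k206 13 (.d k186 k117
  k138 10 3))))))] .n) (.c k204 (.f k170 k85 14 (.q k101 [(.s k32 k239 10 (.s k48 k16 3 (.s k186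
  k117 10 (.d k154 k138 k207 3 14)))), (.s k34 k17 4 (.s k239 k32 10 (.s k102 k238 9 (.s k103 k100 0
  (.d k207 k223 k155 3 13))))), (.s k187 k119 9 (.s k153 k136 4 (.s k49 k205 13 (.s k48 k50 0 (.s
  k186 k117 10 (.d k154 k207 k138 14 3))))))] (.c k48 (.l (.s k34 k17 4 (.s k239 k32 10 (.s k102
  k238 9 (.s k207 k223 3 (.d k103 k100 k155 0 13)))))) (.c k110 (.q k157 [(.s k32 k239 10 (.s k48
  k16 3 (.s k186 k117 10 (.d k154 k138 k207 3 14)))), (.s k34 k17 4 (.s k239 k32 10 (.s k102 k238 9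
  (.s k103 k100 0 (.d k207 k223 k155 3 13))))), (.s k187 k119 9 (.s k153 k136 4 (.s k49 k205 13 (.s
  k48 k50 0 (.s k186 k117 10 (.d k154 k207 k138 14 3))))))] (.c k48 (.l (.s k34 k17 4 (.s k239 k32
  10 (.s k102 k238 9 (.s k207 k223 3 (.d k103 k100 k155 0 13)))))) (.c k207 (.l (.s k32 k239 10 (.s
  k48 k16 3 (.s k49 k50 0 (.s k187 k119 9 (.d k153 k136 k205 4 13)))))) .n))) (.c k157 (.q k110 [(.s
  k32 k239 10 (.s k48 k16 3 (.s k186 k117 10 (.d k154 k138 k207 3 14)))), (.s k34 k17 4 (.s k239 k32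
  10 (.s k102 k238 9 (.s k103 k100 0 (.d k207 k223 k155 3 13))))), (.s k187 k119 9 (.s k153 k136 4
  (.s k49 k205 13 (.s k48 k50 0 (.s k186 k117 10 (.d k154 k207 k138 14 3))))))] (.c k48 (.l (.s k34
  k17 4 (.s k239 k32 10 (.s k102 k238 9 (.s k207 k223 3 (.d k103 k100 k155 0 13)))))) (.c k207 (.l
  (.s k32 k239 10 (.s k48 k16 3 (.s k49 k50 0 (.s k187 k119 9 (.d k153 k136 k205 4 13)))))) .n)))
  (.c k207 (.l (.s k32 k239 10 (.s k48 k16 3 (.s k49 k50 0 (.s k187 k119 9 (.d k153 k136 k205 4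
  13)))))) .n)))))) (.c k221 (.l (.s k34 k17 4 (.s k187 k119 9 (.s k170 k85 14 (.s k153 k136 4 (.d
  k102 k238 k204 9 14)))))) (.c k238 (.l (.s k17 k34 4 (.s k119 k187 9 (.s k85 k170 14 (.s k102 k68
  4 (.d k153 k221 k204 9 14)))))) .n)))))))))))))

def t70 : T TT 256 :=
  (.f k85 k170 14 (.q k48 [(.s k16 k32 3 (.s k154 k223 10 (.s k117 k186 10 (.d k101 k69 k207 3
  14))))] (.c k16 (.q k68 [(.s k204 k136 9 (.s k102 k119 4 (.s k221 k238 4 (.d k153 k17 k51 9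
  14)))), (.s k117 k186 10 (.s k119 k102 4 (.s k101 k69 3 (.s k116 k118 0 (.s k86 k71 4 (.d k84 k87
  k100 0 3)))))), (.s k204 k136 9 (.s k152 k100 13 (.s k117 k186 10 (.s k101 k69 3 (.s k154 k207 14
  (.s k153 k155 0 (.d k221 k238 k17 4 9)))))))] (.c k238 (.l (.s k204 k136 9 (.s k100 k152 13 (.s
  k117 k186 10 (.s k102 k119 4 (.d k101 k103 k69 0 3)))))) .n)) (.c k32 (.q k195 [(.s k65 k130 8 (.s
  k105 k125 5 (.s k215 k235 5 (.d k150 k20 k60 8 14)))), (.s k97 k146 12 (.s k117 k186 10 (.s k101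
  k69 3 (.s k105 k109 1 (.d k65 k125 k130 5 8))))), (.s k146 k97 12 (.s k117 k186 10 (.s k101 k69 3
  (.s k154 k207 14 (.s k150 k158 1 (.d k215 k235 k20 5 8))))))] (.c k101 (.q k239 [(.s k65 k130 8
  (.s k105 k125 5 (.s k215 k235 5 (.d k150 k20 k60 8 14)))), (.s k235 k215 5 (.s k207 k223 3 (.s
  k203 k199 1 (.s k219 k251 3 (.d k231 k227 k243 1 5))))), (.s k65 k130 8 (.s k97 k146 12 (.s k117
  k186 10 (.s k113 k81 3 (.d k125 k121 k105 1 5)))))] (.c k150 (.l (.s k146 k97 12 (.s k215 k235 5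
  (.s k223 k207 3 (.s k16 k154 10 (.d k211 k219 k81 1 8)))))) .n)) (.c k239 (.q k101 [(.d k117 k69
  k186 3 10), (.s k65 k130 8 (.s k97 k146 12 (.d k105 k109 k125 1 5)))] .n) .n))) (.c k69 (.q k68
  [(.s k204 k136 9 (.s k102 k119 4 (.s k221 k238 4 (.d k153 k17 k51 9 14)))), (.s k32 k16 3 (.s k204
  k136 9 (.s k100 k152 13 (.s k168 k236 9 (.d k84 k116 k252 3 13))))), (.s k16 k32 3 (.s k154 k223
  10 (.s k101 k207 14 (.s k102 k119 4 (.s k100 k103 0 (.s k152 k204 13 (.d k84 k116 k220 3 9)))))))]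
  (.c k204 (.l (.s k117 k186 10 (.s k119 k102 4 (.s k51 k187 9 (.s k49 k50 0 (.s k185 k253 9 (.d
  k118 k116 k252 0 10))))))) .n)) (.c k101 (.q k195 [(.s k65 k130 8 (.s k105 k125 5 (.s k215 k235 5
  (.d k150 k20 k60 8 14)))), (.s k32 k16 3 (.s k97 k146 12 (.s k162 k227 8 (.s k81 k243 12 (.d k65
  k113 k130 3 8))))), (.s k146 k97 12 (.s k215 k235 5 (.s k150 k20 8 (.s k154 k158 1 (.d k16 k32
  k223 3 10)))))] (.c k32 (.q k239 [(.s k65 k130 8 (.s k105 k125 5 (.s k215 k235 5 (.d k150 k20 k60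
  8 14)))), (.s k235 k215 5 (.s k207 k223 3 (.s k203 k199 1 (.s k219 k251 3 (.d k231 k227 k243 1
  5))))), (.s k65 k130 8 (.s k97 k146 12 (.s k117 k186 10 (.s k113 k81 3 (.d k125 k121 k105 1
  5)))))] (.c k150 (.l (.s k146 k97 12 (.s k215 k235 5 (.s k223 k207 3 (.s k16 k154 10 (.d k211 k219
  k81 1 8)))))) .n)) (.c k239 (.l (.s k32 k16 3 (.s k65 k130 8 (.s k97 k146 12 (.s k162 k227 8 (.d
  k81 k113 k243 3 12)))))) .n))) (.c k117 (.q k68 [(.s k204 k136 9 (.s k221 k238 4 (.s k153 k17 9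
  (.d k102 k119 k51 4 14)))), (.s k32 k16 3 (.s k204 k136 9 (.s k100 k152 13 (.s k168 k236 9 (.d k84
  k116 k252 3 13))))), (.s k16 k32 3 (.s k154 k223 10 (.s k101 k207 14 (.s k102 k119 4 (.s k100 k103
  0 (.s k152 k204 13 (.d k84 k116 k220 3 9)))))))] (.c k204 (.l (.s k32 k16 3 (.s k119 k102 4 (.s
  k51 k187 9 (.s k34 k17 4 (.s k33 k35 0 (.s k50 k49 0 (.d k18 k2 k3 3 4)))))))) .n)) (.c k154 (.q
  k195 [(.s k65 k130 8 (.s k105 k125 5 (.s k215 k235 5 (.d k150 k20 k60 8 14)))), (.s k16 k32 3 (.s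
  k130 k65 8 (.s k146 k97 12 (.s k81 k211 8 (.d k162 k178 k243 3 12))))), (.s k97 k146 12 (.s k215
  k235 5 (.s k150 k20 8 (.s k105 k60 14 (.s k101 k109 1 (.d k117 k186 k69 10 3))))))] (.c k138 (.l
  (.s k186 k117 10 (.s k65 k130 8 (.s k105 k125 5 (.s k150 k60 14 (.d k215 k235 k20 5 8)))))) (.c
  k186 (.q k138 [(.s k65 k130 8 (.s k105 k125 5 (.s k215 k235 5 (.d k150 k20 k60 8 14)))), (.s k16
  k32 3 (.s k130 k65 8 (.s k146 k97 12 (.s k81 k211 8 (.d k162 k178 k243 3 12)))))] (.c k65 (.l (.s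
  k32 k16 3 (.s k207 k69 10 (.s k97 k146 12 (.s k227 k162 8 (.s k235 k215 5 (.d k239 k231 k223 1
  3))))))) (.c k130 (.l (.s k16 k32 3 (.s k207 k69 10 (.s k146 k97 12 (.s k211 k81 8 (.s k215 k235 5
  (.d k223 k239 k219 3 1))))))) .n))) .n))) (.c k186 (.q k154 [(.d k16 k32 k223 3 10)] (.c k16 (.q
  k195 [(.s k146 k97 12 (.s k150 k158 1 (.d k215 k235 k20 5 8))), (.s k65 k130 8 (.s k207 k101 14
  (.s k105 k125 5 (.d k203 k199 k56 1 12))))] (.c k150 (.l (.s k97 k146 12 (.s k101 k207 14 (.s k105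
  k109 1 (.d k65 k125 k130 5 8))))) .n)) (.c k32 (.l (.s k223 k16 10 (.d k207 k239 k101 3 14))) (.c
  k223 (.q k195 [(.s k146 k97 12 (.s k150 k158 1 (.d k215 k235 k20 5 8))), (.s k65 k130 8 (.s k207
  k101 14 (.s k105 k125 5 (.d k203 k199 k56 1 12))))] (.c k150 (.l (.s k97 k146 12 (.s k101 k207 14
  (.s k105 k109 1 (.d k65 k125 k130 5 8))))) .n)) .n)))) (.c k207 (.f k32 k16 3 (.q k195 [(.s k65
  k130 8 (.s k97 k146 12 (.s k162 k227 8 (.d k81 k113 k243 3 12)))), (.s k65 k130 8 (.s k105 k125 5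
  (.s k150 k60 14 (.d k215 k235 k20 5 8)))), (.s k97 k146 12 (.s k117 k186 10 (.s k101 k69 3 (.s
  k105 k109 1 (.s k215 k235 5 (.d k150 k60 k20 14 8))))))] (.c k111 (.q k159 [(.s k65 k130 8 (.s k97
  k146 12 (.s k162 k227 8 (.d k81 k113 k243 3 12)))), (.s k65 k130 8 (.s k105 k125 5 (.s k150 k60 14
  (.d k215 k235 k20 5 8)))), (.s k97 k146 12 (.s k117 k186 10 (.s k101 k69 3 (.s k105 k109 1 (.s
  k215 k235 5 (.d k150 k60 k20 14 8))))))] (.c k150 (.l (.s k97 k146 12 (.s k162 k227 8 (.s k81 k243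
  12 (.d k65 k113 k130 3 8))))) .n)) (.c k150 (.l (.s k97 k146 12 (.s k162 k227 8 (.s k81 k243 12
  (.d k65 k113 k130 3 8))))) (.c k159 (.q k111 [(.s k65 k130 8 (.s k97 k146 12 (.s k162 k227 8 (.d
  k81 k113 k243 3 12)))), (.s k65 k130 8 (.s k105 k125 5 (.s k150 k60 14 (.d k215 k235 k20 5 8)))),
  (.s k97 k146 12 (.s k117 k186 10 (.s k101 k69 3 (.s k105 k109 1 (.s k215 k235 5 (.d k150 k60 k20
  14 8))))))] (.c k150 (.l (.s k97 k146 12 (.s k162 k227 8 (.s k81 k243 12 (.d k65 k113 k130 3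
  8))))) .n)) .n))))) (.c k223 (.q k68 [(.s k204 k136 9 (.s k102 k119 4 (.s k221 k238 4 (.d k153 k17
  k51 9 14)))), (.s k117 k186 10 (.s k119 k102 4 (.s k101 k69 3 (.s k116 k118 0 (.s k86 k71 4 (.d
  k84 k87 k100 0 3)))))), (.s k32 k16 3 (.s k204 k136 9 (.s k100 k152 13 (.s k168 k236 9 (.d k84
  k116 k252 3 13)))))] .n) (.c k239 (.l (.s k117 k186 10 (.s k16 k32 3 (.s k101 k69 3 (.d k154 k223
  k207 10 14))))) .n))))))))))))

def t71 : T TT 256 :=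
  (.f k85 k170 14 (.q k48 [(.s k16 k32 3 (.s k154 k223 10 (.s k117 k186 10 (.d k101 k69 k207 3
  14))))] (.c k16 (.q k119 [(.s k51 k187 9 (.s k17 k34 4 (.s k153 k221 9 (.d k102 k68 k204 4 14)))),
  (.s k117 k186 10 (.s k51 k187 9 (.s k49 k50 0 (.s k185 k253 9 (.d k118 k116 k252 0 10))))), (.s
  k117 k186 10 (.s k68 k102 4 (.s k116 k118 0 (.s k84 k100 3 (.d k252 k184 k168 9 13)))))] .n) (.c
  k32 (.q k86 [(.s k87 k84 0 (.s k3 k171 13 (.s k1 k2 0 (.d k169 k253 k252 13 14)))), (.s k117 k186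
  10 (.s k101 k69 3 (.s k154 k207 14 (.s k18 k222 9 (.s k3 k33 4 (.d k87 k84 k171 0 13)))))), (.s
  k117 k186 10 (.s k101 k69 3 (.s k154 k207 14 (.s k18 k222 9 (.s k3 k33 4 (.s k1 k2 0 (.d k169 k252
  k253 14 13)))))))] (.c k3 (.l (.s k117 k186 10 (.s k84 k87 0 (.s k252 k168 13 (.s k116 k184 9 (.s
  k119 k118 0 (.d k68 k100 k102 3 4))))))) (.c k101 (.q k239 [(.s k87 k84 0 (.s k3 k171 13 (.s k1 k2
  0 (.d k169 k253 k252 13 14)))), (.s k87 k84 0 (.s k223 k207 3 (.s k154 k16 10 (.s k18 k222 9 (.d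
  k3 k33 k171 4 13))))), (.s k223 k207 3 (.s k154 k16 10 (.s k18 k222 9 (.s k3 k33 4 (.s k1 k2 0 (.d
  k169 k252 k253 14 13))))))] (.c k3 (.l (.s k117 k186 10 (.s k84 k87 0 (.s k252 k168 13 (.s k116
  k184 9 (.s k119 k118 0 (.d k68 k100 k102 3 4))))))) (.c k252 (.l (.s k87 k84 0 (.s k3 k171 13 (.s
  k18 k33 4 (.s k154 k222 9 (.d k223 k207 k16 3 10)))))) .n))) (.c k239 (.q k101 [(.d k117 k69 k186
  3 10), (.s k154 k207 14 (.s k18 k222 9 (.s k3 k33 4 (.d k87 k84 k171 0 13))))] .n) (.c k252 (.l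
  (.s k117 k186 10 (.s k101 k69 3 (.s k154 k207 14 (.s k87 k84 0 (.s k3 k171 13 (.d k18 k222 k33 9
  4))))))) .n))))) (.c k69 (.q k68 [(.s k204 k136 9 (.s k221 k238 4 (.s k153 k17 9 (.d k102 k119 k51
  4 14)))), (.s k32 k16 3 (.s k204 k136 9 (.s k100 k152 13 (.s k168 k236 9 (.d k84 k116 k252 3
  13))))), (.s k117 k186 10 (.s k119 k102 4 (.s k116 k118 0 (.s k252 k184 9 (.d k84 k100 k168 3
  13)))))] (.c k187 (.l (.s k102 k119 4 (.s k204 k136 9 (.s k153 k51 14 (.d k221 k238 k17 4 9)))))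
  .n)) (.c k101 (.f k32 k16 3 (.q k116 [(.s k252 k184 9 (.s k84 k168 13 (.s k253 k254 0 (.s k169 k1
  13 (.d k86 k87 k3 0 14))))), (.s k252 k184 9 (.s k117 k186 10 (.s k118 k119 0 (.s k185 k51 10 (.d
  k253 k254 k49 0 9))))), (.s k117 k186 10 (.s k119 k118 0 (.s k68 k102 4 (.s k204 k136 9 (.d k100
  k84 k152 3 13)))))] (.c k254 (.l (.s k252 k184 9 (.s k84 k168 13 (.s k117 k186 10 (.s k68 k100 3
  (.d k119 k118 k102 0 4)))))) .n))) (.c k117 (.q k68 [(.s k204 k136 9 (.s k221 k238 4 (.s k153 k17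
  9 (.d k102 k119 k51 4 14)))), (.s k32 k16 3 (.s k204 k136 9 (.s k100 k152 13 (.s k168 k236 9 (.d
  k84 k116 k252 3 13))))), (.s k16 k32 3 (.s k154 k223 10 (.s k102 k119 4 (.s k50 k206 13 (.s k51
  k49 0 (.s k17 k34 4 (.d k153 k221 k204 9 14)))))))] (.c k153 (.l (.s k32 k16 3 (.s k119 k102 4 (.s
  k204 k136 9 (.s k187 k51 9 (.s k100 k152 13 (.s k168 k236 9 (.d k84 k116 k252 3 13)))))))) (.c
  k204 (.l (.s k32 k16 3 (.s k119 k102 4 (.s k51 k187 9 (.s k34 k17 4 (.s k33 k35 0 (.s k18 k3 4 (.d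
  k50 k49 k2 0 3)))))))) .n))) (.c k154 (.q k195 [(.s k65 k130 8 (.s k105 k125 5 (.s k215 k235 5 (.d
  k150 k20 k60 8 14)))), (.s k16 k32 3 (.s k130 k65 8 (.s k146 k97 12 (.s k81 k211 8 (.d k162 k178
  k243 3 12))))), (.s k97 k146 12 (.s k215 k235 5 (.s k150 k20 8 (.s k105 k60 14 (.s k101 k109 1 (.d
  k117 k186 k69 10 3))))))] (.c k138 (.l (.s k186 k117 10 (.s k65 k130 8 (.s k105 k125 5 (.s k150
  k60 14 (.d k215 k235 k20 5 8)))))) (.c k186 (.q k138 [(.s k65 k130 8 (.s k105 k125 5 (.s k215 k235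
  5 (.d k150 k20 k60 8 14)))), (.s k16 k32 3 (.s k130 k65 8 (.s k146 k97 12 (.s k81 k211 8 (.d k162
  k178 k243 3 12)))))] (.c k65 (.l (.s k32 k16 3 (.s k207 k69 10 (.s k97 k146 12 (.s k227 k162 8 (.s
  k235 k215 5 (.d k239 k231 k223 1 3))))))) (.c k130 (.l (.s k16 k32 3 (.s k207 k69 10 (.s k146 k97
  12 (.s k211 k81 8 (.s k215 k235 5 (.d k223 k239 k219 3 1))))))) .n))) .n))) (.c k186 (.q k195 [(.s
  k65 k130 8 (.s k105 k125 5 (.s k215 k235 5 (.d k150 k20 k60 8 14)))), (.s k16 k32 3 (.s k130 k65 8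
  (.s k146 k97 12 (.s k81 k211 8 (.d k162 k178 k243 3 12))))), (.s k16 k32 3 (.s k154 k223 10 (.s
  k146 k97 12 (.s k150 k158 1 (.d k215 k235 k20 5 8)))))] (.c k138 (.q k154 [(.d k16 k32 k223 3 10),
  (.s k146 k97 12 (.s k150 k158 1 (.d k215 k235 k20 5 8)))] .n) (.c k154 (.q k138 [(.s k65 k130 8
  (.s k105 k125 5 (.s k215 k235 5 (.d k150 k20 k60 8 14)))), (.s k16 k32 3 (.s k130 k65 8 (.s k146
  k97 12 (.s k81 k211 8 (.d k162 k178 k243 3 12)))))] (.c k65 (.l (.s k32 k16 3 (.s k207 k69 10 (.s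
  k97 k146 12 (.s k227 k162 8 (.s k235 k215 5 (.d k239 k231 k223 1 3))))))) (.c k130 (.l (.s k16 k32
  3 (.s k207 k69 10 (.s k146 k97 12 (.s k211 k81 8 (.s k215 k235 5 (.d k223 k239 k219 3 1)))))))
  .n))) .n))) (.c k207 (.f k32 k16 3 (.q k3 [(.s k1 k2 0 (.s k169 k253 13 (.s k87 k171 13 (.d k86
  k84 k252 0 14)))), (.s k33 k18 4 (.s k34 k35 0 (.s k17 k51 4 (.d k1 k2 k49 0 3)))), (.s k33 k18 4
  (.s k87 k171 13 (.s k117 k186 10 (.s k101 k69 3 (.s k169 k237 9 (.d k86 k252 k84 14 0))))))] (.c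
  k111 (.q k159 [(.s k1 k2 0 (.s k169 k253 13 (.s k87 k171 13 (.d k86 k84 k252 0 14)))), (.s k33 k18
  4 (.s k34 k35 0 (.s k17 k51 4 (.d k1 k2 k49 0 3)))), (.s k33 k18 4 (.s k87 k171 13 (.s k117 k186
  10 (.s k101 k69 3 (.s k169 k237 9 (.d k86 k252 k84 14 0))))))] .n) (.c k159 (.q k111 [(.s k1 k2 0
  (.s k169 k253 13 (.s k87 k171 13 (.d k86 k84 k252 0 14)))), (.s k33 k18 4 (.s k34 k35 0 (.s k17
  k51 4 (.d k1 k2 k49 0 3)))), (.s k33 k18 4 (.s k87 k171 13 (.s k117 k186 10 (.s k101 k69 3 (.s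
  k169 k237 9 (.d k86 k252 k84 14 0))))))] .n) .n)))) (.c k223 (.q k68 [(.s k204 k136 9 (.s k221
  k238 4 (.s k153 k17 9 (.d k102 k119 k51 4 14)))), (.s k32 k16 3 (.s k204 k136 9 (.s k100 k152 13
  (.s k168 k236 9 (.d k84 k116 k252 3 13))))), (.s k117 k186 10 (.s k119 k102 4 (.s k116 k118 0 (.s
  k252 k184 9 (.d k84 k100 k168 3 13)))))] (.c k187 (.l (.s k102 k119 4 (.s k204 k136 9 (.s k153 k51
  14 (.d k221 k238 k17 4 9))))) .n)) (.c k239 (.l (.s k117 k186 10 (.s k16 k32 3 (.s k101 k69 3 (.d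
  k154 k223 k207 10 14))))) .n))))))))))))

def t74 : T TT 256 :=
  (.f k85 k170 14 (.q k86 [(.s k84 k87 0 (.s k252 k168 13 (.s k253 k254 0 (.d k169 k1 k3 13 14))))]
  (.c k1 (.q k154 [(.s k16 k223 10 (.s k48 k32 3 (.s k117 k186 10 (.d k101 k69 k207 3 14)))), (.s
  k16 k223 10 (.s k18 k222 9 (.s k19 k17 0 (.s k220 k153 10 (.d k84 k87 k152 0 9))))), (.s k18 k222
  9 (.s k87 k84 0 (.s k3 k171 13 (.s k48 k33 4 (.s k101 k207 14 (.d k117 k69 k186 3 10))))))] .n)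
  (.c k3 (.q k23 [(.s k149 k212 8 (.s k21 k213 7 (.s k20 k22 0 (.s k87 k84 0 (.d k215 k151 k150 7
  8))))), (.s k87 k84 0 (.s k215 k151 7 (.s k195 k235 5 (.s k65 k130 8 (.s k105 k125 5 (.d k150 k20
  k60 8 14)))))), (.s k149 k212 8 (.s k21 k213 7 (.s k20 k22 0 (.s k60 k40 5 (.s k125 k190 8 (.s
  k105 k65 5 (.d k150 k215 k195 8 14))))))), (.s k212 k149 8 (.s k84 k87 0 (.s k252 k168 13 (.s k148
  k20 7 (.s k192 k232 5 (.s k104 k60 13 (.d k64 k128 k124 7 5)))))))] (.c k20 (.q k48 [(.s k16 k32 3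
  (.s k154 k223 10 (.s k117 k186 10 (.d k101 k69 k207 3 14)))), (.s k32 k16 3 (.s k84 k87 0 (.s k168
  k252 13 (.s k100 k236 9 (.s k204 k152 13 (.d k68 k116 k136 3 9)))))), (.s k117 k186 10 (.s k101
  k69 3 (.s k116 k71 4 (.s k252 k184 9 (.d k84 k87 k168 0 13)))))] .n) (.c k60 (.l (.s k149 k212 8
  (.s k21 k213 7 (.s k87 k84 0 (.s k215 k151 7 (.d k20 k22 k150 0 8)))))) .n))) (.c k84 (.q k4 [(.s
  k12 k8 1 (.s k166 k247 12 (.s k93 k174 12 (.d k89 k81 k243 1 14)))), (.s k166 k247 12 (.s k6 k246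
  11 (.s k5 k7 0 (.s k15 k10 2 (.s k95 k175 11 (.s k90 k80 2 (.d k165 k245 k240 11 14)))))))] (.c
  k166 (.q k48 [(.s k16 k32 3 (.s k154 k223 10 (.s k117 k186 10 (.d k101 k69 k207 3 14)))), (.s k12
  k8 1 (.s k32 k16 3 (.s k36 k24 5 (.s k20 k52 3 (.d k40 k44 k60 1 5))))), (.s k117 k186 10 (.s k101
  k69 3 (.s k116 k71 4 (.s k252 k184 9 (.s k169 k3 14 (.d k253 k254 k1 0 13))))))] (.c k162 (.q k174
  [(.d k12 k8 k93 1 12), (.s k16 k32 3 (.s k154 k223 10 (.s k101 k207 14 (.d k117 k69 k186 3 10))))]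
  .n) (.c k174 (.q k162 [(.s k16 k32 3 (.s k154 k223 10 (.s k117 k186 10 (.d k101 k69 k207 3 14)))),
  (.s k12 k8 1 (.s k32 k16 3 (.s k36 k24 5 (.s k20 k52 3 (.d k40 k44 k60 1 5))))), (.s k243 k81 12
  (.s k113 k178 8 (.s k117 k186 10 (.s k121 k125 1 (.s k182 k60 10 (.d k247 k251 k52 1 8))))))] .n)
  .n))) (.c k247 (.l (.s k12 k8 1 (.s k93 k174 12 (.s k89 k81 1 (.s k92 k83 2 (.s k252 k172 11 (.s
  k169 k3 14 (.d k253 k254 k1 0 13)))))))) .n))) (.c k87 (.q k154 [(.s k223 k16 10 (.s k207 k239 3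
  (.s k69 k138 10 (.d k101 k117 k48 3 14)))), (.s k223 k16 10 (.s k222 k18 9 (.s k221 k220 0 (.s
  k204 k238 4 (.s k68 k136 9 (.s k102 k119 4 (.d k153 k17 k51 9 14)))))))] (.c k16 (.q k254 [(.s
  k222 k18 9 (.s k238 k206 3 (.s k221 k204 4 (.s k220 k223 0 (.d k153 k17 k19 9 10))))), (.s k252
  k253 0 (.s k169 k3 14 (.s k184 k139 4 (.s k48 k116 9 (.s k117 k186 10 (.d k101 k207 k69 14
  3))))))] (.c k207 (.l (.s k18 k222 9 (.s k252 k253 0 (.s k3 k169 14 (.s k2 k1 0 (.s k50 k34 3 (.s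
  k48 k33 4 (.d k186 k118 k117 9 10)))))))) .n)) (.c k223 (.q k254 [(.s k222 k18 9 (.s k238 k206 3
  (.s k204 k221 4 (.s k252 k253 0 (.s k236 k220 3 (.d k237 k239 k207 0 4)))))), (.s k252 k253 0 (.s
  k169 k3 14 (.s k184 k139 4 (.s k48 k116 9 (.s k117 k186 10 (.d k101 k207 k69 14 3)))))), (.s k222
  k18 9 (.s k206 k238 3 (.s k102 k50 13 (.s k119 k68 4 (.s k51 k187 9 (.s k153 k204 14 (.d k17 k34
  k221 4 9)))))))] (.c k19 (.q k155 [(.s k222 k18 9 (.s k153 k152 0 (.s k238 k206 3 (.d k221 k17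
  k204 9 4)))), (.s k152 k153 0 (.s k252 k253 0 (.s k168 k84 13 (.s k169 k3 14 (.d k184 k136 k139 3
  4))))), (.s k222 k18 9 (.s k252 k253 0 (.s k207 k237 4 (.s k69 k138 10 (.d k101 k117 k48 3
  14)))))] .n) (.c k155 (.q k19 [(.s k18 k222 9 (.s k17 k16 0 (.d k153 k221 k220 9 10))), (.s k222
  k18 9 (.s k252 k253 0 (.s k207 k237 4 (.s k69 k138 10 (.d k101 k117 k48 3 14)))))] (.c k18 (.l (.s
  k153 k220 10 (.s k221 k17 9 (.s k204 k238 4 (.s k68 k136 9 (.d k102 k119 k51 4 14)))))) (.c k221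
  (.l (.s k18 k222 9 (.s k220 k153 10 (.s k16 k17 0 (.s k84 k152 9 (.d k252 k253 k168 0 13)))))) (.c
  k222 (.l (.s k153 k220 10 (.s k221 k17 9 (.s k204 k238 4 (.s k68 k136 9 (.d k102 k119 k51 4
  14)))))) .n)))) .n))) .n))) (.c k168 (.l (.s k87 k84 0 (.s k3 k171 13 (.s k169 k252 14 (.d k1 k2
  k253 0 13))))) (.c k169 (.q k48 [(.s k16 k32 3 (.s k154 k223 10 (.s k117 k186 10 (.d k101 k69 k207
  3 14)))), (.s k32 k16 3 (.s k84 k87 0 (.s k168 k252 13 (.s k100 k236 9 (.s k204 k152 13 (.d k68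
  k116 k136 3 9)))))), (.s k117 k186 10 (.s k101 k69 3 (.s k116 k71 4 (.s k252 k184 9 (.d k84 k168
  k87 13 0)))))] (.c k168 (.q k171 [(.d k87 k84 k3 0 13), (.s k16 k32 3 (.s k154 k223 10 (.s k101
  k207 14 (.d k117 k69 k186 3 10))))] .n) (.c k171 (.q k168 [(.d k84 k87 k252 0 13), (.s k16 k32 3
  (.s k154 k223 10 (.s k101 k207 14 (.d k117 k69 k186 3 10))))] .n) .n))) (.c k171 (.l (.s k84 k87 0
  (.s k252 k168 13 (.s k169 k3 14 (.d k253 k254 k1 0 13))))) (.c k252 (.q k154 [(.s k16 k223 10 (.s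
  k48 k32 3 (.s k117 k186 10 (.d k101 k69 k207 3 14)))), (.s k16 k223 10 (.s k18 k222 9 (.s k19 k17
  0 (.s k220 k153 10 (.d k84 k87 k152 0 9))))), (.s k18 k222 9 (.s k87 k84 0 (.s k3 k171 13 (.s k48
  k33 4 (.s k117 k186 10 (.d k101 k207 k69 14 3))))))] (.c k126 (.q k189 [(.s k16 k223 10 (.s k48
  k32 3 (.s k117 k186 10 (.d k101 k69 k207 3 14)))), (.s k16 k223 10 (.s k18 k222 9 (.s k19 k17 0
  (.s k220 k153 10 (.d k84 k87 k152 0 9))))), (.s k18 k222 9 (.s k87 k84 0 (.s k3 k171 13 (.s k48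
  k33 4 (.s k117 k186 10 (.d k101 k207 k69 14 3))))))] (.c k207 (.l (.s k16 k223 10 (.s k48 k32 3
  (.s k87 k84 0 (.s k3 k171 13 (.d k18 k33 k222 4 9)))))) .n)) (.c k189 (.q k126 [(.s k16 k223 10
  (.s k48 k32 3 (.s k117 k186 10 (.d k101 k69 k207 3 14)))), (.s k106 k66 5 (.s k127 k64 6 (.s k87
  k84 0 (.s k67 k107 5 (.d k124 k125 k105 0 6)))))] (.c k69 (.l (.s k16 k223 10 (.s k48 k32 3 (.s
  k18 k222 9 (.s k3 k33 4 (.d k87 k84 k171 0 13)))))) .n)) (.c k207 (.l (.s k16 k223 10 (.s k48 k32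
  3 (.s k87 k84 0 (.s k3 k171 13 (.d k18 k33 k222 4 9)))))) .n)))) (.c k253 (.q k154 [(.s k16 k223
  10 (.s k48 k32 3 (.s k117 k186 10 (.d k101 k69 k207 3 14)))), (.s k16 k223 10 (.s k18 k222 9 (.s
  k19 k17 0 (.s k220 k153 10 (.d k84 k87 k152 0 9))))), (.s k18 k222 9 (.s k87 k84 0 (.s k3 k171 13
  (.s k48 k33 4 (.s k101 k207 14 (.d k117 k69 k186 3 10))))))] .n) (.c k254 (.l (.s k87 k84 0 (.s k3
  k171 13 (.s k1 k2 0 (.d k169 k253 k252 13 14))))) .n))))))))))))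

def t75 : T TT 256 :=
  (.f k85 k170 14 (.q k48 [(.s k16 k32 3 (.s k154 k223 10 (.s k117 k186 10 (.d k101 k69 k207 3
  14))))] (.c k16 (.q k86 [(.s k84 k87 0 (.s k252 k168 13 (.s k253 k254 0 (.d k169 k1 k3 13 14)))),
  (.s k117 k186 10 (.s k101 k69 3 (.s k116 k71 4 (.s k252 k184 9 (.d k84 k87 k168 0 13))))), (.s
  k117 k186 10 (.s k101 k69 3 (.s k116 k71 4 (.s k252 k184 9 (.s k169 k3 14 (.d k253 k254 k1 0
  13))))))] (.c k252 (.l (.s k117 k186 10 (.s k101 k69 3 (.s k154 k207 14 (.s k87 k84 0 (.s k3 k171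
  13 (.d k18 k222 k33 9 4))))))) .n)) (.c k32 (.q k4 [(.s k12 k8 1 (.s k166 k247 12 (.s k93 k174 12
  (.d k89 k81 k243 1 14)))), (.s k247 k166 12 (.s k117 k186 10 (.s k52 k182 8 (.s k20 k36 3 (.d k60
  k40 k56 5 1))))), (.s k12 k8 1 (.s k24 k36 5 (.s k117 k186 10 (.s k101 k69 3 (.s k154 k207 14 (.s
  k89 k219 8 (.d k93 k81 k174 1 12)))))))] (.c k101 (.q k239 [(.s k12 k8 1 (.s k166 k247 12 (.s k93
  k174 12 (.d k89 k81 k243 1 14)))), (.s k247 k166 12 (.s k117 k186 10 (.s k52 k182 8 (.s k60 k56 1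
  (.d k20 k36 k40 3 5))))), (.s k12 k8 1 (.s k36 k24 5 (.s k20 k52 3 (.s k174 k93 12 (.s k44 k109 8
  (.d k60 k40 k28 5 3))))))] (.c k174 (.l (.s k12 k8 1 (.s k36 k24 5 (.s k52 k20 3 (.s k117 k186 10
  (.d k247 k182 k166 8 12)))))) (.c k251 (.l (.s k166 k247 12 (.s k12 k8 1 (.s k89 k243 14 (.d k93
  k81 k174 1 12))))) .n))) (.c k174 (.l (.s k12 k8 1 (.s k166 k247 12 (.s k36 k24 5 (.s k101 k231 8
  (.d k117 k69 k186 3 10)))))) (.c k239 (.q k101 [(.d k117 k69 k186 3 10), (.s k12 k8 1 (.s k166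
  k247 12 (.d k36 k24 k231 5 8)))] .n) .n)))) (.c k69 (.q k86 [(.s k84 k87 0 (.s k252 k168 13 (.s
  k253 k254 0 (.d k169 k1 k3 13 14)))), (.s k16 k32 3 (.s k154 k223 10 (.s k18 k222 9 (.s k19 k17 0
  (.s k220 k153 10 (.d k84 k87 k152 0 9)))))), (.s k16 k32 3 (.s k154 k223 10 (.s k18 k222 9 (.s k3
  k33 4 (.s k1 k2 0 (.d k169 k253 k252 13 14))))))] .n) (.c k101 (.q k4 [(.s k12 k8 1 (.s k166 k247
  12 (.s k93 k174 12 (.d k89 k81 k243 1 14)))), (.s k247 k166 12 (.s k117 k186 10 (.s k52 k182 8 (.s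
  k60 k56 1 (.d k20 k36 k40 3 5))))), (.s k12 k8 1 (.s k32 k16 3 (.s k36 k24 5 (.s k20 k52 3 (.d k40
  k44 k60 1 5)))))] (.c k32 (.q k239 [(.s k12 k8 1 (.s k166 k247 12 (.s k93 k174 12 (.d k89 k81 k243
  1 14)))), (.s k247 k166 12 (.s k117 k186 10 (.s k52 k182 8 (.s k60 k56 1 (.d k20 k36 k40 3 5))))),
  (.s k12 k8 1 (.s k36 k24 5 (.s k20 k52 3 (.s k174 k93 12 (.s k44 k109 8 (.d k60 k40 k28 5 3))))))]
  (.c k174 (.l (.s k12 k8 1 (.s k36 k24 5 (.s k52 k20 3 (.s k117 k186 10 (.d k247 k182 k166 8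
  12)))))) (.c k251 (.l (.s k166 k247 12 (.s k12 k8 1 (.s k89 k243 14 (.d k93 k81 k174 1 12)))))
  .n))) (.c k239 (.l (.s k32 k16 3 (.s k12 k8 1 (.s k166 k247 12 (.s k89 k243 14 (.d k93 k81 k174 1
  12)))))) (.c k251 (.l (.s k166 k247 12 (.s k12 k8 1 (.s k89 k243 14 (.d k93 k81 k174 1 12)))))
  .n)))) (.c k117 (.q k86 [(.s k84 k87 0 (.s k252 k168 13 (.s k253 k254 0 (.d k169 k1 k3 13 14)))),
  (.s k16 k32 3 (.s k154 k223 10 (.s k18 k222 9 (.s k19 k17 0 (.s k220 k153 10 (.d k84 k87 k152 0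
  9)))))), (.s k16 k32 3 (.s k154 k223 10 (.s k18 k222 9 (.s k3 k33 4 (.s k1 k2 0 (.d k169 k253 k252
  13 14))))))] .n) (.c k154 (.q k195 [(.s k65 k130 8 (.s k105 k125 5 (.s k215 k235 5 (.d k150 k20
  k60 8 14)))), (.s k16 k32 3 (.s k130 k65 8 (.s k146 k97 12 (.s k81 k211 8 (.d k162 k178 k243 3
  12))))), (.s k97 k146 12 (.s k215 k235 5 (.s k150 k20 8 (.s k105 k60 14 (.s k101 k109 1 (.d k117
  k186 k69 10 3))))))] (.c k138 (.l (.s k186 k117 10 (.s k65 k130 8 (.s k105 k125 5 (.s k150 k60 14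
  (.d k215 k235 k20 5 8)))))) (.c k186 (.q k138 [(.s k65 k130 8 (.s k105 k125 5 (.s k215 k235 5 (.d
  k150 k20 k60 8 14)))), (.s k16 k32 3 (.s k130 k65 8 (.s k146 k97 12 (.s k81 k211 8 (.d k162 k178
  k243 3 12)))))] (.c k65 (.l (.s k32 k16 3 (.s k207 k69 10 (.s k97 k146 12 (.s k227 k162 8 (.s k235
  k215 5 (.d k239 k231 k223 1 3))))))) (.c k130 (.l (.s k16 k32 3 (.s k207 k69 10 (.s k146 k97 12
  (.s k211 k81 8 (.s k215 k235 5 (.d k223 k239 k219 3 1))))))) .n))) .n))) (.c k186 (.q k195 [(.s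
  k65 k130 8 (.s k105 k125 5 (.s k215 k235 5 (.d k150 k20 k60 8 14)))), (.s k16 k32 3 (.s k130 k65 8
  (.s k146 k97 12 (.s k81 k211 8 (.d k162 k178 k243 3 12))))), (.s k16 k32 3 (.s k154 k223 10 (.s
  k146 k97 12 (.s k150 k158 1 (.d k215 k235 k20 5 8)))))] (.c k138 (.q k154 [(.d k16 k32 k223 3 10),
  (.s k146 k97 12 (.s k150 k158 1 (.d k215 k235 k20 5 8)))] .n) (.c k154 (.q k138 [(.s k65 k130 8
  (.s k105 k125 5 (.s k215 k235 5 (.d k150 k20 k60 8 14)))), (.s k16 k32 3 (.s k130 k65 8 (.s k146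
  k97 12 (.s k81 k211 8 (.d k162 k178 k243 3 12)))))] (.c k65 (.l (.s k32 k16 3 (.s k207 k69 10 (.s
  k97 k146 12 (.s k227 k162 8 (.s k235 k215 5 (.d k239 k231 k223 1 3))))))) (.c k130 (.l (.s k16 k32
  3 (.s k207 k69 10 (.s k146 k97 12 (.s k211 k81 8 (.s k215 k235 5 (.d k223 k239 k219 3 1)))))))
  .n))) .n))) (.c k207 (.f k32 k16 3 (.q k4 [(.s k12 k8 1 (.s k166 k247 12 (.s k93 k174 12 (.d k89
  k81 k243 1 14)))), (.s k247 k166 12 (.s k117 k186 10 (.s k52 k182 8 (.s k20 k36 3 (.d k60 k56 k40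
  1 5))))), (.s k12 k8 1 (.s k36 k24 5 (.s k20 k52 3 (.d k40 k44 k60 1 5))))] (.c k111 (.q k159 [(.s
  k12 k8 1 (.s k166 k247 12 (.s k93 k174 12 (.d k89 k81 k243 1 14)))), (.s k247 k166 12 (.s k117
  k186 10 (.s k52 k182 8 (.s k20 k36 3 (.d k60 k56 k40 1 5))))), (.s k12 k8 1 (.s k36 k24 5 (.s k20
  k52 3 (.d k40 k44 k60 1 5))))] .n) (.c k159 (.q k111 [(.s k12 k8 1 (.s k166 k247 12 (.s k93 k174
  12 (.d k89 k81 k243 1 14)))), (.s k247 k166 12 (.s k117 k186 10 (.s k52 k182 8 (.s k20 k36 3 (.d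
  k60 k56 k40 1 5))))), (.s k12 k8 1 (.s k36 k24 5 (.s k20 k52 3 (.d k40 k44 k60 1 5))))] .n) .n))))
  (.c k223 (.q k86 [(.s k87 k84 0 (.s k3 k171 13 (.s k1 k2 0 (.d k169 k253 k252 13 14)))), (.s k117
  k186 10 (.s k101 k69 3 (.s k116 k71 4 (.s k252 k184 9 (.d k84 k87 k168 0 13))))), (.s k117 k186 10
  (.s k101 k69 3 (.s k116 k71 4 (.s k252 k184 9 (.s k169 k3 14 (.d k253 k254 k1 0 13))))))] (.c k252
  (.l (.s k117 k186 10 (.s k101 k69 3 (.s k154 k207 14 (.s k87 k84 0 (.s k3 k171 13 (.d k18 k222 k33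
  9 4))))))) .n)) (.c k239 (.l (.s k117 k186 10 (.s k16 k32 3 (.s k101 k69 3 (.d k154 k223 k207 10
  14))))) .n))))))))))))

def t79 : T TT 256 :=
  (.f k85 k170 14 (.q k51 [(.s k17 k34 4 (.s k153 k221 9 (.s k119 k187 9 (.d k102 k68 k204 4 14))))]
  (.c k17 (.q k101 [(.s k69 k117 3 (.s k207 k138 10 (.s k223 k239 3 (.d k154 k16 k48 10 14)))), (.s
  k119 k187 9 (.s k68 k102 4 (.s k69 k117 3 (.s k71 k70 0 (.s k86 k116 4 (.d k87 k84 k103 0 3)))))),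
  (.s k119 k187 9 (.s k102 k68 4 (.s k103 k100 0 (.s k207 k155 13 (.s k154 k48 14 (.d k223 k239 k16
  3 10))))))] .n) (.c k34 (.q k48 [(.s k16 k32 3 (.s k154 k223 10 (.s k117 k186 10 (.d k101 k69 k207
  3 14)))), (.s k50 k49 0 (.s k186 k117 10 (.s k118 k254 9 (.s k185 k252 10 (.d k187 k184 k119 0
  9))))), (.s k16 k32 3 (.s k154 k223 10 (.s k50 k49 0 (.s k102 k206 13 (.d k119 k68 k187 4 9)))))]
  (.c k102 (.q k238 [(.s k16 k32 3 (.s k154 k223 10 (.s k117 k186 10 (.d k101 k69 k207 3 14)))), (.s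
  k50 k49 0 (.s k186 k117 10 (.s k118 k254 9 (.s k185 k252 10 (.d k187 k184 k119 0 9))))), (.s k16
  k32 3 (.s k154 k223 10 (.s k49 k50 0 (.s k101 k207 14 (.s k153 k205 13 (.d k221 k204 k17 4
  9))))))] .n) (.c k238 (.q k102 [(.d k119 k68 k187 4 9), (.s k16 k32 3 (.s k154 k223 10 (.d k50 k49
  k206 0 13)))] .n) .n))) (.c k68 (.q k101 [(.s k69 k117 3 (.s k207 k138 10 (.s k223 k239 3 (.d k154
  k16 k48 10 14)))), (.s k17 k34 4 (.s k153 k221 9 (.s k49 k205 13 (.s k1 k33 3 (.s k253 k169 13 (.d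
  k117 k69 k185 3 9)))))), (.s k17 k34 4 (.s k153 k221 9 (.s k49 k205 13 (.s k48 k50 0 (.s k16 k32 3
  (.d k154 k223 k207 10 14))))))] .n) (.c k102 (.q k48 [(.s k16 k32 3 (.s k154 k223 10 (.s k117 k186
  10 (.d k101 k69 k207 3 14)))), (.s k32 k16 3 (.s k34 k17 4 (.s k33 k35 0 (.s k18 k3 4 (.d k50 k49
  k2 0 3))))), (.s k49 k50 0 (.s k117 k186 10 (.s k185 k253 9 (.s k118 k252 10 (.d k119 k116 k187 0
  9)))))] (.c k34 (.q k238 [(.s k16 k32 3 (.s k154 k223 10 (.s k117 k186 10 (.d k101 k69 k207 3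
  14)))), (.s k50 k49 0 (.s k186 k117 10 (.s k118 k254 9 (.s k185 k252 10 (.d k187 k184 k119 0
  9))))), (.s k16 k32 3 (.s k154 k223 10 (.s k49 k50 0 (.s k101 k207 14 (.s k153 k205 13 (.d k221
  k204 k17 4 9))))))] .n) (.c k238 (.l (.s k34 k17 4 (.s k16 k32 3 (.s k154 k223 10 (.s k101 k207 14
  (.d k117 k69 k186 3 10)))))) .n))) (.c k119 (.q k101 [(.s k69 k117 3 (.s k207 k138 10 (.s k223
  k239 3 (.d k154 k16 k48 10 14)))), (.s k17 k34 4 (.s k153 k221 9 (.s k49 k205 13 (.s k1 k33 3 (.s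
  k253 k169 13 (.d k117 k69 k185 3 9)))))), (.s k17 k34 4 (.s k153 k221 9 (.s k49 k205 13 (.s k48
  k50 0 (.s k16 k32 3 (.d k154 k223 k207 10 14))))))] .n) (.c k153 (.q k48 [(.s k16 k32 3 (.s k154
  k223 10 (.s k117 k186 10 (.d k101 k69 k207 3 14)))), (.s k32 k16 3 (.s k34 k17 4 (.s k33 k35 0 (.s
  k18 k3 4 (.d k50 k49 k2 0 3))))), (.s k17 k34 4 (.s k49 k50 0 (.s k117 k186 10 (.s k253 k185 9 (.d
  k1 k169 k33 13 3)))))] (.c k136 (.l (.s k187 k119 9 (.s k16 k32 3 (.s k154 k223 10 (.s k101 k207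
  14 (.d k117 k69 k186 3 10)))))) (.c k187 (.q k136 [(.s k16 k32 3 (.s k154 k223 10 (.s k117 k186 10
  (.d k101 k69 k207 3 14)))), (.s k32 k16 3 (.s k34 k17 4 (.s k33 k35 0 (.s k18 k3 4 (.d k50 k49 k2
  0 3))))), (.s k68 k204 9 (.s k49 k50 0 (.s k117 k186 10 (.s k185 k253 9 (.s k118 k252 10 (.d k119
  k116 k102 0 4))))))] .n) .n))) (.c k187 (.q k48 [(.s k16 k32 3 (.s k154 k223 10 (.s k117 k186 10
  (.d k101 k69 k207 3 14)))), (.s k32 k16 3 (.s k34 k17 4 (.s k33 k35 0 (.s k18 k3 4 (.d k50 k49 k2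
  0 3))))), (.s k17 k34 4 (.s k153 k221 9 (.s k49 k50 0 (.s k117 k186 10 (.d k101 k69 k205 3
  13)))))] (.c k136 (.q k153 [(.d k17 k34 k221 4 9), (.s k49 k50 0 (.s k117 k186 10 (.d k101 k69
  k205 3 13)))] .n) (.c k153 (.q k136 [(.s k16 k32 3 (.s k154 k223 10 (.s k117 k186 10 (.d k101 k69
  k207 3 14)))), (.s k32 k16 3 (.s k34 k17 4 (.s k33 k35 0 (.s k18 k3 4 (.d k50 k49 k2 0 3))))), (.s
  k68 k204 9 (.s k49 k50 0 (.s k117 k186 10 (.s k185 k253 9 (.s k118 k252 10 (.d k119 k116 k102 0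
  4))))))] .n) .n))) (.c k204 (.q k101 [(.s k69 k117 3 (.s k207 k138 10 (.s k223 k239 3 (.d k154 k16
  k48 10 14)))), (.s k17 k34 4 (.s k153 k221 9 (.s k49 k205 13 (.s k48 k50 0 (.d k117 k69 k186 3
  10))))), (.s k17 k34 4 (.s k153 k221 9 (.s k49 k205 13 (.s k48 k50 0 (.s k16 k32 3 (.d k154 k207
  k223 14 10))))))] (.c k48 (.l (.s k119 k187 9 (.s k102 k68 4 (.s k69 k117 3 (.s k207 k138 10 (.d
  k103 k100 k155 0 13)))))) (.c k110 (.q k157 [(.s k69 k117 3 (.s k207 k138 10 (.s k223 k239 3 (.d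
  k154 k16 k48 10 14)))), (.s k17 k34 4 (.s k153 k221 9 (.s k49 k205 13 (.s k48 k50 0 (.d k117 k69
  k186 3 10))))), (.s k17 k34 4 (.s k153 k221 9 (.s k49 k205 13 (.s k48 k50 0 (.s k16 k32 3 (.d k154
  k207 k223 14 10))))))] (.c k48 (.l (.s k119 k187 9 (.s k102 k68 4 (.s k69 k117 3 (.s k207 k138 10
  (.d k103 k100 k155 0 13)))))) (.c k207 (.l (.s k17 k34 4 (.s k153 k221 9 (.s k117 k69 3 (.s k48
  k186 10 (.d k49 k50 k205 0 13)))))) .n))) (.c k157 (.q k110 [(.s k69 k117 3 (.s k207 k138 10 (.s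
  k223 k239 3 (.d k154 k16 k48 10 14)))), (.s k17 k34 4 (.s k153 k221 9 (.s k49 k205 13 (.s k48 k50
  0 (.d k117 k69 k186 3 10))))), (.s k17 k34 4 (.s k153 k221 9 (.s k49 k205 13 (.s k48 k50 0 (.s k16
  k32 3 (.d k154 k207 k223 14 10))))))] (.c k48 (.l (.s k119 k187 9 (.s k102 k68 4 (.s k69 k117 3
  (.s k207 k138 10 (.d k103 k100 k155 0 13)))))) (.c k207 (.l (.s k17 k34 4 (.s k153 k221 9 (.s k117
  k69 3 (.s k48 k186 10 (.d k49 k50 k205 0 13)))))) .n))) (.c k207 (.l (.s k17 k34 4 (.s k153 k221 9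
  (.s k117 k69 3 (.s k48 k186 10 (.d k49 k50 k205 0 13)))))) .n))))) (.c k221 (.q k101 [(.s k69 k117
  3 (.s k207 k138 10 (.s k223 k239 3 (.d k154 k16 k48 10 14)))), (.s k119 k187 9 (.s k102 k68 4 (.s
  k69 k117 3 (.s k103 k100 0 (.d k207 k138 k155 10 13))))), (.s k119 k187 9 (.s k102 k68 4 (.s k103
  k100 0 (.s k207 k155 13 (.s k154 k48 14 (.d k223 k239 k16 3 10))))))] (.c k207 (.l (.s k17 k34 4
  (.s k117 k69 3 (.s k48 k186 10 (.s k49 k50 0 (.s k1 k33 3 (.d k253 k185 k169 9 13))))))) .n)) (.c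
  k238 (.l (.s k119 k187 9 (.s k17 k34 4 (.s k102 k68 4 (.d k153 k221 k204 9 14))))) .n))))))))))))

theorem c67 : rootOK2 k255 k63 k67 t67 = true := by decide +kernel

theorem c69 : rootOK2 k255 k63 k69 t69 = true := by decide +kernel

theorem c70 : rootOK2 k255 k63 k70 t70 = true := by decide +kernel

theorem c71 : rootOK2 k255 k63 k71 t71 = true := by decide +kernel

theorem c74 : rootOK2 k255 k63 k74 t74 = true := by decide +kernel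

theorem c75 : rootOK2 k255 k63 k75 t75 = true := by decide +kernel

theorem c79 : rootOK2 k255 k63 k79 t79 = true := by decide +kernel

def l : List Nat :=
  [k67.c, k69.c, k70.c, k71.c, k74.c, k75.c, k79.c]

theorem ok : AllQ k255.c k63.c l :=
  allQ_cons c67 (allQ_cons c69 (allQ_cons c70 (allQ_cons c71 (allQ_cons c74 (allQ_cons c75 (
  allQ_cons c79 (allQ_nil _ _)))))))

end Pool.Agent.TTT.E02
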