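import Pool.Agent.TTT.Sym2

set_option autoImplicit false
set_option maxRecDepth 100000

namespace Pool.Agent.TTT.E03

def t85_1 : T TT 256 :=
  (.q k169 [(.s k171 k87 13 (.s k168 k170 0 (.d k252 k84 k86 13 14)))] (.c k84 (.q k243 [(.s k83
  k163 11 (.s k87 k171 13 (.s k247 k251 1 (.s k167 k7 11 (.d k91 k95 k15 1 13))))), (.s k162 k81 12
  (.s k86 k252 14 (.s k171 k87 13 (.s k170 k168 0 (.s k166 k174 1 (.s k6 k246 11 (.d k12 k89 k9 14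
  2)))))))] (.c k86 (.l (.s k87 k171 13 (.s k83 k163 11 (.s k91 k95 1 (.s k167 k15 13 (.d k247 k251
  k7 1 11)))))) (.c k87 (.l (.s k86 k252 14 (.s k83 k163 11 (.s k89 k92 2 (.s k9 k249 11 (.d k12 k6
  k166 2 14)))))) (.c k171 (.l (.s k162 k81 12 (.s k163 k83 11 (.s k166 k172 2 (.s k174 k170 1 (.d
  k12 k93 k89 12 14)))))) .n)))) (.c k86 (.q k243 [(.s k83 k163 11 (.s k87 k171 13 (.s k247 k251 1
  (.s k167 k7 11 (.d k91 k95 k15 1 13))))), (.s k162 k81 12 (.s k163 k83 11 (.s k166 k172 2 (.s k174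
  k170 1 (.d k12 k93 k89 12 14)))))] (.c k83 (.q k89 [(.s k9 k249 11 (.d k12 k6 k166 2 14)), (.s
  k251 k247 1 (.s k170 k8 12 (.d k171 k87 k168 13 0)))] (.c k84 (.l (.s k87 k171 13 (.s k9 k249 11
  (.d k12 k6 k166 2 14)))) (.c k87 (.q k84 [(.s k252 k168 13 (.d k249 k246 k9 2 11)), (.s k168 k252
  13 (.s k170 k171 0 (.d k251 k247 k8 1 12))), (.s k9 k249 11 (.d k12 k6 k166 2 14))] (.c k91 (.q
  k95 [(.s k252 k168 13 (.d k249 k246 k9 2 11)), (.s k168 k252 13 (.s k170 k171 0 (.d k251 k247 k8 1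
  12))), (.s k9 k249 11 (.d k12 k6 k166 2 14))] .n) (.c k95 (.q k91 [(.s k252 k168 13 (.d k249 k246
  k9 2 11)), (.s k168 k252 13 (.s k170 k171 0 (.d k251 k247 k8 1 12))), (.s k9 k249 11 (.d k12 k6
  k166 2 14))] (.c k80 (.l (.s k90 k88 0 (.s k252 k168 13 (.d k249 k246 k9 2 11)))) (.c k90 (.q k80
  [(.s k252 k168 13 (.d k249 k246 k9 2 11)), (.s k240 k160 11 (.s k12 k166 14 (.d k88 k92 k164 1
  13)))] (.c k82 (.q k94 [(.s k252 k168 13 (.d k15 k173 k167 12 13)), (.s k9 k249 11 (.d k12 k6 k166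
  2 14))] .n) (.c k94 (.q k82 [(.d k240 k160 k161 11 12), (.s k252 k168 13 (.d k249 k246 k9 2 11))]
  (.c k92 (.q k93 [(.d k240 k160 k161 11 12), (.d k12 k174 k166 12 14)] .n) (.c k93 (.l (.s k92 k88
  1 (.d k240 k160 k161 11 12))) .n))) (.c k246 (.l (.s k9 k249 11 (.d k12 k6 k166 2 14))) .n))))
  .n))) .n))) (.c k166 (.l (.s k249 k9 11 (.s k246 k252 2 (.s k247 k251 1 (.s k245 k244 0 (.s k240
  k250 2 (.d k241 k242 k253 0 1))))))) .n)))) (.c k84 (.l (.s k87 k171 13 (.s k83 k163 11 (.s k91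
  k95 1 (.s k167 k15 13 (.d k247 k251 k7 1 11)))))) (.c k87 (.q k84 [(.s k162 k81 12 (.s k168 k252
  13 (.s k170 k171 0 (.s k166 k174 1 (.d k163 k172 k83 2 11))))), (.s k252 k168 13 (.s k163 k83 11
  (.s k166 k172 2 (.s k89 k12 14 (.d k249 k246 k9 2 11))))), (.s k162 k81 12 (.s k168 k252 13 (.s
  k170 k171 0 (.s k166 k174 1 (.s k251 k247 1 (.d k89 k8 k12 12 14)))))), (.s k162 k81 12 (.s k163
  k83 11 (.s k166 k172 2 (.s k174 k170 1 (.d k12 k93 k89 12 14)))))] (.c k89 (.l (.s k168 k252 13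
  (.s k171 k170 0 (.s k251 k247 1 (.s k91 k11 11 (.s k167 k15 13 (.d k163 k175 k83 1 11))))))) (.c
  k166 (.l (.s k168 k252 13 (.s k163 k83 11 (.s k171 k170 0 (.s k167 k175 1 (.s k91 k15 13 (.d k251
  k247 k11 1 11))))))) .n))) (.c k163 (.q k84 [(.s k171 k87 13 (.d k168 k170 k252 0 13)), (.s k252
  k168 13 (.s k246 k249 2 (.s k247 k251 1 (.s k245 k244 0 (.s k250 k240 2 (.d k254 k253 k242 0
  1))))))] (.c k168 (.q k89 [(.s k9 k249 11 (.d k12 k6 k166 2 14)), (.s k251 k247 1 (.s k8 k170 12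
  (.d k12 k4 k166 1 14))), (.s k249 k9 11 (.s k246 k252 2 (.s k247 k251 1 (.s k245 k244 0 (.s k240
  k250 2 (.d k241 k242 k253 0 1))))))] .n) (.c k252 (.l (.s k162 k81 12 (.s k171 k87 13 (.s k170
  k168 0 (.s k166 k174 1 (.s k89 k12 14 (.d k251 k247 k8 1 12))))))) .n))) .n))))) (.c k87 (.q k243
  [(.s k83 k163 11 (.s k86 k252 14 (.s k89 k92 2 (.s k9 k249 11 (.d k12 k6 k166 2 14))))), (.s k252
  k86 14 (.s k84 k168 13 (.s k246 k249 2 (.s k247 k251 1 (.s k245 k244 0 (.s k250 k240 2 (.d k254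
  k253 k242 0 1))))))), (.s k162 k81 12 (.s k163 k83 11 (.s k166 k172 2 (.s k174 k170 1 (.d k12 k93
  k89 12 14)))))] (.c k84 (.l (.s k86 k252 14 (.s k83 k163 11 (.s k89 k92 2 (.s k9 k249 11 (.d k12
  k6 k166 2 14)))))) (.c k86 (.q k84 [(.s k162 k81 12 (.s k168 k252 13 (.s k170 k171 0 (.s k166 k174
  1 (.d k163 k172 k83 2 11))))), (.s k252 k168 13 (.s k163 k83 11 (.s k166 k172 2 (.s k89 k12 14 (.d
  k249 k246 k9 2 11))))), (.s k162 k81 12 (.s k168 k252 13 (.s k170 k171 0 (.s k166 k174 1 (.s k251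
  k247 1 (.d k89 k8 k12 12 14)))))), (.s k162 k81 12 (.s k163 k83 11 (.s k166 k172 2 (.s k174 k170 1
  (.d k12 k93 k89 12 14)))))] (.c k89 (.l (.s k168 k252 13 (.s k171 k170 0 (.s k251 k247 1 (.s k91
  k11 11 (.s k167 k15 13 (.d k163 k175 k83 1 11))))))) (.c k166 (.l (.s k168 k252 13 (.s k163 k83 11
  (.s k171 k170 0 (.s k167 k175 1 (.s k91 k15 13 (.d k251 k247 k11 1 11))))))) .n))) .n))) (.c k168
  (.q k243 [(.s k83 k163 11 (.s k86 k252 14 (.s k89 k92 2 (.s k9 k249 11 (.d k12 k6 k166 2 14))))),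
  (.s k83 k163 11 (.s k87 k171 13 (.s k91 k95 1 (.s k167 k15 13 (.d k247 k251 k7 1 11))))), (.s k252
  k86 14 (.s k246 k249 2 (.s k247 k251 1 (.s k245 k244 0 (.s k250 k240 2 (.d k254 k253 k242 0
  1))))))] .n) (.c k170 (.q k243 [(.s k83 k163 11 (.s k86 k252 14 (.s k89 k92 2 (.s k9 k249 11 (.d
  k12 k6 k166 2 14))))), (.s k83 k163 11 (.s k87 k171 13 (.s k91 k95 1 (.s k167 k15 13 (.d k247 k251
  k7 1 11))))), (.s k252 k86 14 (.s k246 k249 2 (.s k247 k251 1 (.s k245 k244 0 (.s k250 k240 2 (.d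
  k254 k253 k242 0 1))))))] .n) (.c k171 (.q k243 [(.s k162 k81 12 (.s k163 k83 11 (.s k166 k172 2
  (.s k174 k170 1 (.d k12 k93 k89 12 14))))), (.s k252 k86 14 (.s k246 k249 2 (.s k247 k251 1 (.s
  k245 k244 0 (.s k250 k240 2 (.d k254 k253 k242 0 1))))))] .n) (.c k252 (.q k243 [(.s k162 k81 12
  (.s k163 k83 11 (.s k166 k172 2 (.s k174 k170 1 (.d k12 k93 k89 12 14))))), (.s k83 k163 11 (.s
  k87 k171 13 (.s k91 k95 1 (.s k167 k15 13 (.d k247 k251 k7 1 11))))), (.s k162 k81 12 (.s k171 k87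
  13 (.s k170 k168 0 (.s k166 k174 1 (.s k89 k12 14 (.d k251 k247 k8 1 12))))))] (.c k126 (.q k189
  [(.s k162 k81 12 (.s k163 k83 11 (.s k166 k172 2 (.s k174 k170 1 (.d k12 k93 k89 12 14))))), (.s
  k83 k163 11 (.s k87 k171 13 (.s k91 k95 1 (.s k167 k15 13 (.d k247 k251 k7 1 11))))), (.s k162 k81
  12 (.s k171 k87 13 (.s k170 k168 0 (.s k166 k174 1 (.s k89 k12 14 (.d k251 k247 k8 1 12))))))] .n)
  (.c k189 (.q k126 [(.s k162 k81 12 (.s k163 k83 11 (.s k166 k172 2 (.s k174 k170 1 (.d k12 k93 k89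
  12 14))))), (.s k83 k163 11 (.s k87 k171 13 (.s k91 k95 1 (.s k167 k15 13 (.d k247 k251 k7 1
  11))))), (.s k162 k81 12 (.s k171 k87 13 (.s k170 k168 0 (.s k166 k174 1 (.s k89 k12 14 (.d k251
  k247 k8 1 12))))))] .n) .n))) .n))))))))

def t85_2 : T TT 256 :=
  (.f k87 k171 13 (.q k207 [(.s k71 k139 9 (.s k223 k239 3 (.s k155 k19 9 (.d k103 k119 k51 3
  13))))] (.c k19 (.q k7 [(.s k15 k11 1 (.s k167 k247 11 (.s k95 k175 11 (.d k91 k83 k243 1 13)))),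
  (.s k71 k139 9 (.s k199 k135 7 (.s k247 k167 11 (.s k215 k231 3 (.d k195 k203 k235 1 5))))), (.s
  k15 k11 1 (.s k71 k139 9 (.s k135 k199 7 (.s k75 k195 9 (.d k79 k67 k143 1 7)))))] .n) (.c k35 (.l
  (.s k71 k139 9 (.s k103 k119 3 (.s k155 k51 13 (.d k223 k239 k19 3 9))))) (.c k51 (.q k7 [(.s k15
  k11 1 (.s k95 k175 11 (.s k91 k83 1 (.d k167 k247 k243 11 13)))), (.s k71 k139 9 (.s k199 k135 7
  (.s k247 k167 11 (.s k215 k231 3 (.d k195 k203 k235 1 5))))), (.s k15 k11 1 (.s k71 k139 9 (.s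
  k135 k199 7 (.s k75 k195 9 (.d k79 k67 k143 1 7)))))] (.c k55 (.q k59 [(.s k15 k11 1 (.s k95 k175
  11 (.s k91 k83 1 (.d k167 k247 k243 11 13)))), (.s k11 k15 1 (.s k139 k71 9 (.s k203 k75 7 (.s
  k223 k239 3 (.d k155 k19 k107 9 11))))), (.s k71 k139 9 (.s k199 k135 7 (.s k247 k167 11 (.s k215
  k231 3 (.d k195 k203 k235 1 5)))))] .n) (.c k59 (.q k55 [(.s k71 k139 9 (.s k199 k135 7 (.d k103
  k119 k151 3 11))), (.s k15 k11 1 (.s k167 k247 11 (.s k91 k243 13 (.d k95 k83 k175 1 11))))] .n)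
  .n))) (.c k71 (.q k7 [(.s k15 k11 1 (.s k95 k175 11 (.s k91 k83 1 (.d k167 k247 k243 11 13)))),
  (.s k167 k247 11 (.s k223 k239 3 (.s k155 k19 9 (.s k143 k179 5 (.d k15 k11 k79 1 7))))), (.s k69
  k138 10 (.s k15 k11 1 (.s k5 k10 2 (.s k133 k197 7 (.s k74 k192 10 (.d k79 k64 k143 2 7))))))] (.c
  k11 (.l (.s k167 k247 11 (.s k223 k239 3 (.s k155 k19 9 (.s k143 k179 5 (.s k15 k79 7 (.s k91 k243
  13 (.d k95 k83 k175 1 11)))))))) (.c k15 (.l (.s k247 k167 11 (.s k239 k223 3 (.s k243 k251 1 (.s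
  k231 k219 5 (.s k215 k199 3 (.d k235 k227 k195 1 5))))))) .n))) (.c k103 (.q k7 [(.s k15 k11 1 (.s
  k95 k175 11 (.s k91 k83 1 (.d k167 k247 k243 11 13)))), (.s k15 k11 1 (.s k71 k139 9 (.s k135 k199
  7 (.s k75 k195 9 (.d k79 k67 k143 1 7))))), (.s k71 k139 9 (.s k199 k135 7 (.s k247 k167 11 (.s
  k231 k215 3 (.d k243 k251 k219 1 5)))))] (.c k35 (.l (.s k239 k223 3 (.s k15 k11 1 (.s k167 k247
  11 (.s k91 k243 13 (.d k95 k83 k175 1 11)))))) (.c k239 (.q k35 [(.s k15 k11 1 (.s k95 k175 11 (.s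
  k91 k83 1 (.d k167 k247 k243 11 13)))), (.s k15 k11 1 (.s k71 k139 9 (.s k135 k199 7 (.s k75 k195
  9 (.d k79 k67 k143 1 7))))), (.s k71 k139 9 (.s k199 k135 7 (.s k247 k167 11 (.s k231 k215 3 (.d
  k243 k251 k219 1 5)))))] (.c k251 (.l (.s k167 k247 11 (.s k15 k11 1 (.s k91 k243 13 (.d k95 k83
  k175 1 11))))) .n)) (.c k251 (.l (.s k167 k247 11 (.s k15 k11 1 (.s k91 k243 13 (.d k95 k83 k175 1
  11))))) .n)))) (.c k119 (.q k68 [(.s k69 k138 10 (.d k71 k70 k139 0 9)), (.s k204 k136 9 (.s k205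
  k206 0 (.s k221 k238 4 (.s k237 k253 3 (.s k222 k252 4 (.d k223 k220 k239 0 3)))))), (.s k136 k204
  9 (.s k138 k69 10 (.d k139 k137 k71 0 9)))] (.c k138 (.l (.s k71 k139 9 (.s k70 k69 0 (.d k204
  k136 k137 9 10)))) .n)) (.c k139 (.q k68 [(.s k69 k138 10 (.s k70 k71 0 (.d k204 k136 k137 9
  10))), (.s k223 k239 3 (.s k155 k19 9 (.s k103 k51 13 (.s k71 k119 3 (.d k69 k70 k138 0 10))))),
  (.s k204 k136 9 (.s k206 k205 0 (.s k238 k221 4 (.s k222 k254 3 (.s k237 k252 4 (.d k239 k236 k223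
  0 3))))))] (.c k138 (.l (.s k223 k239 3 (.s k155 k19 9 (.s k103 k51 13 (.s k71 k119 3 (.s k70 k69
  0 (.d k204 k136 k137 9 10))))))) (.c k155 (.q k187 [(.s k69 k138 10 (.s k70 k71 0 (.d k204 k136
  k137 9 10))), (.s k136 k204 9 (.s k138 k69 10 (.s k170 k153 4 (.s k154 k186 3 (.s k101 k48 14 (.d
  k239 k223 k32 3 10)))))), (.s k119 k51 9 (.s k71 k103 3 (.d k69 k70 k138 0 10)))] (.c k69 (.l (.s
  k204 k136 9 (.s k205 k206 0 (.s k221 k238 4 (.s k237 k253 3 (.s k222 k252 4 (.d k223 k220 k239 0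
  3))))))) (.c k138 (.l (.s k119 k51 9 (.s k71 k103 3 (.s k70 k69 0 (.d k204 k136 k137 9 10)))))
  .n))) (.c k187 (.q k155 [(.d k223 k239 k19 3 9), (.s k69 k138 10 (.s k103 k51 13 (.d k71 k70 k119
  0 3)))] .n) .n)))) (.c k155 (.q k187 [(.s k71 k139 9 (.d k119 k103 k51 3 9)), (.s k138 k69 10 (.s
  k139 k71 9 (.s k136 k137 0 (.s k170 k153 4 (.s k154 k186 3 (.s k101 k48 14 (.d k239 k223 k32 3
  10))))))), (.s k51 k119 9 (.s k34 k17 4 (.s k35 k19 3 (.s k32 k33 0 (.s k239 k223 3 (.s k101 k170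
  10 (.d k48 k16 k154 3 14)))))))] .n) (.c k187 (.l (.s k223 k239 3 (.s k71 k139 9 (.s k155 k19 9
  (.d k103 k119 k51 3 13))))) (.c k223 (.q k7 [(.s k15 k11 1 (.s k95 k175 11 (.s k91 k83 1 (.d k167
  k247 k243 11 13)))), (.s k71 k139 9 (.s k199 k135 7 (.s k247 k167 11 (.s k215 k231 3 (.d k195 k203
  k235 1 5))))), (.s k15 k11 1 (.s k71 k139 9 (.s k135 k199 7 (.s k75 k195 9 (.d k79 k67 k143 1
  7)))))] (.c k16 (.q k154 [(.s k138 k69 10 (.s k186 k170 3 (.d k48 k117 k101 10 14))), (.s k15 k11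
  1 (.s k167 k247 11 (.s k91 k243 13 (.d k95 k83 k175 1 11))))] .n) (.c k154 (.q k16 [(.s k15 k11 1
  (.s k95 k175 11 (.s k91 k83 1 (.d k167 k247 k243 11 13)))), (.s k71 k139 9 (.s k199 k135 7 (.s
  k247 k167 11 (.s k215 k231 3 (.d k195 k203 k235 1 5))))), (.s k15 k11 1 (.s k71 k139 9 (.s k135
  k199 7 (.s k75 k195 9 (.d k79 k67 k143 1 7)))))] .n) .n))) (.c k239 (.q k7 [(.s k15 k11 1 (.s k95
  k175 11 (.s k91 k83 1 (.d k167 k247 k243 11 13)))), (.s k71 k139 9 (.s k199 k135 7 (.s k247 k167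
  11 (.s k215 k231 3 (.d k195 k235 k203 5 1))))), (.s k15 k11 1 (.s k71 k139 9 (.s k135 k199 7 (.s
  k75 k195 9 (.d k79 k67 k143 1 7)))))] (.c k35 (.q k103 [(.d k71 k119 k139 3 9), (.s k15 k11 1 (.s
  k167 k247 11 (.s k79 k143 7 (.d k91 k115 k243 5 13))))] .n) (.c k103 (.q k35 [(.s k15 k11 1 (.s
  k95 k175 11 (.s k91 k83 1 (.d k167 k247 k243 11 13)))), (.s k15 k11 1 (.s k71 k139 9 (.s k135 k199
  7 (.s k75 k195 9 (.d k79 k67 k143 1 7))))), (.s k71 k139 9 (.s k199 k135 7 (.s k247 k167 11 (.s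
  k231 k215 3 (.d k243 k251 k219 1 5)))))] (.c k251 (.l (.s k167 k247 11 (.s k15 k11 1 (.s k91 k243
  13 (.d k95 k83 k175 1 11))))) .n)) .n))) .n)))))))))))))

def t85_4 : T TT 256 :=
  (.f k87 k171 13 (.f k1 k2 0 (.q k243 [(.s k81 k162 12 (.s k161 k241 11 (.s k82 k240 12 (.d k83 k80
  k163 0 11)))), (.s k83 k163 11 (.s k247 k251 1 (.s k167 k7 11 (.d k91 k95 k15 1 13))))] (.c k83
  (.q k89 [(.s k166 k12 14 (.s k251 k247 1 (.s k170 k8 12 (.d k162 k174 k81 1 12)))), (.s k12 k166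
  14 (.s k247 k251 1 (.s k9 k6 2 (.s k5 k13 1 (.s k7 k167 11 (.d k15 k11 k10 1 2))))))] (.c k12 (.l
  (.s k81 k162 12 (.s k241 k161 11 (.s k13 k165 13 (.s k5 k9 1 (.s k15 k10 2 (.s k167 k91 13 (.d k7
  k11 k247 1 11)))))))) (.c k166 (.l (.s k247 k251 1 (.s k81 k162 12 (.s k241 k161 11 (.s k167 k7 11
  (.s k13 k165 13 (.s k5 k9 1 (.d k15 k91 k10 13 2)))))))) (.c k247 (.l (.s k166 k12 14 (.s k81 k162
  12 (.s k241 k161 11 (.s k165 k13 13 (.s k167 k164 0 (.s k15 k91 13 (.d k240 k242 k90 0 14))))))))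
  (.c k251 (.l (.s k81 k162 12 (.s k241 k161 11 (.s k13 k165 13 (.s k5 k9 1 (.s k15 k10 2 (.d k12
  k14 k166 0 14))))))) .n))))) (.c k163 (.l (.s k81 k162 12 (.s k161 k241 11 (.s k82 k240 12 (.s k83
  k80 0 (.s k247 k251 1 (.s k167 k7 11 (.d k91 k95 k15 1 13)))))))) (.c k166 (.l (.s k247 k251 1 (.s
  k83 k163 11 (.s k167 k7 11 (.d k91 k95 k15 1 13))))) (.c k247 (.q k166 [(.s k162 k81 12 (.s k174
  k170 1 (.d k12 k93 k89 12 14))), (.s k81 k162 12 (.s k161 k241 11 (.s k82 k240 12 (.d k83 k80 k163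
  0 11)))), (.s k83 k163 11 (.s k89 k12 14 (.s k86 k92 2 (.s k252 k169 14 (.d k246 k249 k6 2
  11)))))] .n) .n)))))))

def t85_5 : T TT 256 :=
  (.f k1 k2 0 (.f k87 k171 13 (.q k243 [(.s k81 k162 12 (.s k161 k241 11 (.s k82 k240 12 (.d k83 k80
  k163 0 11)))), (.s k83 k163 11 (.s k247 k251 1 (.s k167 k7 11 (.d k91 k95 k15 1 13))))] (.c k83
  (.q k245 [(.s k81 k162 12 (.s k161 k241 11 (.d k240 k82 k250 12 2))), (.s k240 k250 2 (.s k247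
  k251 1 (.s k246 k244 0 (.s k249 k252 2 (.d k241 k242 k253 0 1))))), (.s k81 k162 12 (.s k241 k161
  11 (.s k249 k253 1 (.s k246 k252 2 (.d k247 k244 k251 0 1)))))] (.c k241 (.l (.s k250 k240 2 (.s
  k247 k251 1 (.s k246 k244 0 (.s k254 k242 1 (.d k252 k253 k249 0 2)))))) (.c k242 (.l (.s k250
  k240 2 (.s k251 k247 1 (.s k249 k248 0 (.s k241 k253 1 (.d k81 k161 k162 11 12)))))) .n))) (.c
  k163 (.l (.s k81 k162 12 (.s k161 k241 11 (.s k82 k240 12 (.s k83 k80 0 (.s k247 k251 1 (.s k167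
  k7 11 (.d k91 k95 k15 1 13)))))))) (.c k165 (.q k245 [(.s k81 k162 12 (.s k161 k241 11 (.d k240
  k82 k250 12 2))), (.s k83 k163 11 (.s k91 k95 1 (.s k247 k251 1 (.d k167 k7 k15 11 13))))] .n) (.c
  k245 (.q k165 [(.s k83 k163 11 (.s k247 k251 1 (.s k167 k7 11 (.d k91 k95 k15 1 13)))), (.s k81
  k162 12 (.s k161 k241 11 (.s k82 k240 12 (.d k83 k80 k163 0 11)))), (.s k81 k162 12 (.s k161 k241
  11 (.s k169 k173 1 (.s k86 k252 14 (.s k7 k244 12 (.d k247 k251 k167 1 11))))))] .n) .n)))))))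

def t85_6 : T TT 256 :=
  (.f k87 k171 13 (.q k243 [(.s k83 k163 11 (.s k91 k95 1 (.s k247 k251 1 (.d k167 k7 k15 11 13)))),
  (.s k1 k2 0 (.s k81 k162 12 (.s k161 k241 11 (.s k82 k240 12 (.d k83 k80 k163 0 11)))))] (.c k80
  (.l (.s k83 k163 11 (.s k247 k251 1 (.s k167 k7 11 (.d k91 k95 k15 1 13))))) (.c k83 (.q k166 [(.s
  k162 k81 12 (.s k174 k170 1 (.d k12 k93 k89 12 14))), (.s k89 k12 14 (.s k247 k251 1 (.s k167 k7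
  11 (.s k165 k164 0 (.s k241 k13 13 (.s k240 k242 0 (.d k15 k91 k90 13 14)))))))] (.c k12 (.l (.s
  k162 k81 12 (.s k170 k174 1 (.s k247 k251 1 (.s k167 k7 11 (.s k165 k164 0 (.s k175 k160 2 (.d k15
  k91 k95 13 11)))))))) (.c k89 (.f k1 k2 0 (.f k81 k162 12 (.f k161 k241 11 (.f k247 k251 1 (.f
  k167 k7 11 (.f k165 k164 0 (.l (.s k169 k173 1 (.s k172 k163 2 (.s k252 k86 14 (.s k92 k12 11 (.s
  k84 k168 13 (.s k80 k88 1 (.d k240 k160 k82 11 12)))))))))))))) .n))) (.c k163 (.f k1 k2 0 (.l (.s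
  k81 k162 12 (.s k161 k241 11 (.s k82 k240 12 (.s k83 k80 0 (.s k247 k251 1 (.s k167 k7 11 (.d k91
  k95 k15 1 13))))))))) .n)))))

def t85_7 : T TT 256 :=
  (.f k1 k2 0 (.q k243 [(.s k81 k162 12 (.s k161 k241 11 (.s k83 k163 11 (.d k82 k80 k240 0 12)))),
  (.s k163 k83 11 (.s k171 k87 13 (.s k167 k175 1 (.s k91 k15 13 (.d k251 k247 k11 1 11)))))] (.c
  k83 (.q k245 [(.s k81 k162 12 (.s k161 k241 11 (.d k240 k82 k250 12 2))), (.s k240 k250 2 (.s k247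
  k251 1 (.s k246 k244 0 (.s k249 k252 2 (.d k241 k242 k253 0 1))))), (.s k81 k162 12 (.s k241 k161
  11 (.s k249 k253 1 (.s k246 k252 2 (.d k247 k244 k251 0 1)))))] (.c k241 (.l (.s k250 k240 2 (.s
  k247 k251 1 (.s k246 k244 0 (.s k254 k242 1 (.d k252 k253 k249 0 2)))))) (.c k242 (.l (.s k250
  k240 2 (.s k251 k247 1 (.s k249 k248 0 (.s k241 k253 1 (.d k81 k161 k162 11 12)))))) .n))) (.c
  k163 (.q k245 [(.s k81 k162 12 (.s k161 k241 11 (.d k240 k82 k250 12 2))), (.s k240 k250 2 (.s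
  k247 k251 1 (.s k246 k244 0 (.s k249 k252 2 (.d k241 k242 k253 0 1)))))] (.c k240 (.f k87 k171 13
  (.f k162 k81 12 (.f k247 k251 1 (.l (.s k246 k244 0 (.s k252 k249 2 (.s k168 k84 13 (.s k86 k169
  14 (.s k166 k6 11 (.s k174 k170 1 (.d k12 k89 k93 14 12))))))))))) (.c k241 (.l (.s k250 k240 2
  (.s k247 k251 1 (.s k246 k244 0 (.s k254 k242 1 (.d k252 k253 k249 0 2)))))) (.c k242 (.l (.s k250
  k240 2 (.s k251 k247 1 (.s k249 k248 0 (.s k241 k253 1 (.d k81 k161 k162 11 12)))))) (.c k250 (.l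
  (.s k81 k162 12 (.s k247 k251 1 (.s k246 k244 0 (.s k249 k252 2 (.d k241 k161 k253 11 1))))))
  .n))))) .n))))

def t85_8 : T TT 256 :=
  (.f k87 k171 13 (.q k19 [(.s k51 k35 3 (.s k119 k187 9 (.s k103 k71 3 (.d k155 k223 k207 9 13)))),
  (.s k1 k2 0 (.s k51 k35 3 (.s k17 k34 4 (.s k33 k49 3 (.d k18 k16 k48 0 4)))))] (.c k35 (.q k207
  [(.d k223 k239 k155 3 9), (.s k1 k2 0 (.s k69 k138 10 (.s k137 k205 9 (.s k70 k204 10 (.d k71 k68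
  k139 0 9)))))] (.c k103 (.l (.s k239 k223 3 (.s k1 k2 0 (.s k69 k138 10 (.s k137 k205 9 (.s k70
  k204 10 (.d k71 k68 k139 0 9))))))) (.c k239 (.q k103 [(.d k155 k223 k51 9 13), (.d k71 k119 k139
  3 9)] .n) .n))) (.c k51 (.l (.s k1 k2 0 (.s k223 k155 9 (.s k207 k239 3 (.s k69 k138 10 (.s k137
  k205 9 (.s k70 k204 10 (.d k71 k139 k68 9 0)))))))) (.c k103 (.l (.s k1 k2 0 (.s k223 k155 9 (.s
  k51 k35 3 (.s k239 k207 3 (.s k17 k34 4 (.s k33 k49 3 (.d k18 k16 k48 0 4)))))))) (.c k239 (.l (.s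
  k155 k223 9 (.s k51 k35 3 (.s k103 k207 13 (.d k119 k71 k187 3 9))))) .n))))))

def t85_9 : T TT 256 :=
  (.f k87 k171 13 (.q k19 [(.s k51 k35 3 (.s k119 k187 9 (.s k103 k71 3 (.d k155 k223 k207 9 13)))),
  (.s k1 k2 0 (.s k51 k35 3 (.s k17 k34 4 (.s k33 k49 3 (.d k18 k16 k48 0 4)))))] (.c k35 (.q k207
  [(.d k223 k239 k155 3 9), (.s k1 k2 0 (.s k69 k138 10 (.s k137 k205 9 (.s k70 k204 10 (.d k71 k68
  k139 0 9)))))] (.c k103 (.l (.s k239 k223 3 (.s k1 k2 0 (.s k69 k138 10 (.s k137 k205 9 (.s k70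
  k204 10 (.d k71 k68 k139 0 9))))))) (.c k239 (.q k103 [(.d k155 k223 k51 9 13), (.d k71 k119 k139
  3 9)] .n) .n))) (.c k51 (.l (.s k1 k2 0 (.s k223 k155 9 (.s k207 k239 3 (.s k69 k138 10 (.s k137
  k205 9 (.s k70 k204 10 (.d k71 k139 k68 9 0)))))))) (.c k103 (.l (.s k1 k2 0 (.s k223 k155 9 (.s
  k51 k35 3 (.s k239 k207 3 (.s k17 k34 4 (.s k33 k49 3 (.d k18 k16 k48 0 4)))))))) (.c k239 (.l (.s
  k155 k223 9 (.s k51 k35 3 (.s k103 k207 13 (.d k119 k71 k187 3 9))))) .n))))))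

def t85_10 : T TT 256 :=
  (.f k87 k171 13 (.q k19 [(.s k51 k35 3 (.s k119 k187 9 (.s k103 k71 3 (.d k155 k223 k207 9 13)))),
  (.s k1 k2 0 (.s k51 k35 3 (.s k17 k34 4 (.s k33 k49 3 (.d k18 k16 k48 0 4)))))] (.c k35 (.q k207
  [(.d k223 k239 k155 3 9), (.s k1 k2 0 (.s k69 k138 10 (.s k137 k205 9 (.s k70 k204 10 (.d k71 k68
  k139 0 9)))))] (.c k103 (.l (.s k239 k223 3 (.s k1 k2 0 (.s k69 k138 10 (.s k137 k205 9 (.s k70
  k204 10 (.d k71 k68 k139 0 9))))))) (.c k239 (.q k103 [(.d k155 k223 k51 9 13), (.d k71 k119 k139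
  3 9)] .n) .n))) (.c k51 (.l (.s k1 k2 0 (.s k223 k155 9 (.s k207 k239 3 (.s k69 k138 10 (.s k137
  k205 9 (.s k70 k204 10 (.d k71 k139 k68 9 0)))))))) (.c k103 (.l (.s k1 k2 0 (.s k223 k155 9 (.s
  k51 k35 3 (.s k239 k207 3 (.s k17 k34 4 (.s k33 k49 3 (.d k18 k16 k48 0 4)))))))) (.c k239 (.l (.s
  k155 k223 9 (.s k51 k35 3 (.s k103 k207 13 (.d k119 k71 k187 3 9))))) .n))))))

def t85_11 : T TT 256 :=
  (.q k19 [(.s k1 k2 0 (.s k51 k35 3 (.s k17 k34 4 (.s k33 k49 3 (.d k18 k16 k48 0 4))))), (.s k51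
  k35 3 (.s k87 k171 13 (.s k119 k187 9 (.s k103 k71 3 (.d k155 k223 k207 9 13)))))] (.c k35 (.q
  k207 [(.s k223 k239 3 (.d k87 k171 k155 13 9)), (.s k1 k2 0 (.s k69 k138 10 (.s k137 k205 9 (.s
  k70 k204 10 (.d k71 k68 k139 0 9)))))] .n) (.c k51 (.f k87 k171 13 (.l (.s k1 k2 0 (.s k223 k155 9
  (.s k207 k239 3 (.s k69 k138 10 (.s k137 k205 9 (.s k70 k204 10 (.d k71 k139 k68 9 0)))))))))
  .n)))

def t85_12 : T TT 256 :=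
  (.f k1 k2 0 (.f k87 k171 13 (.q k207 [(.s k71 k139 9 (.s k223 k239 3 (.s k155 k19 9 (.d k103 k119
  k51 3 13)))), (.s k69 k138 10 (.s k137 k205 9 (.s k70 k204 10 (.d k71 k68 k139 0 9))))] (.c k29
  (.q k46 [(.s k71 k139 9 (.s k223 k239 3 (.s k155 k19 9 (.d k103 k119 k51 3 13)))), (.s k69 k138 10
  (.s k137 k205 9 (.s k70 k204 10 (.d k71 k68 k139 0 9))))] (.c k71 (.q k19 [(.d k223 k239 k155 3
  9), (.s k51 k35 3 (.s k17 k34 4 (.s k33 k49 3 (.d k18 k16 k48 0 4))))] (.c k239 (.l (.s k155 k223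
  9 (.d k51 k35 k103 3 13))) .n)) (.c k139 (.l (.s k69 k138 10 (.s k137 k205 9 (.s k70 k204 10 (.s
  k71 k68 0 (.s k223 k239 3 (.s k155 k19 9 (.d k103 k119 k51 3 13)))))))) .n))) (.c k46 (.q k29 [(.s
  k71 k139 9 (.s k223 k239 3 (.s k155 k19 9 (.d k103 k119 k51 3 13)))), (.s k69 k138 10 (.s k137
  k205 9 (.s k70 k204 10 (.d k71 k68 k139 0 9))))] (.c k71 (.q k19 [(.d k223 k239 k155 3 9), (.s k51
  k35 3 (.s k17 k34 4 (.s k33 k49 3 (.d k18 k16 k48 0 4))))] (.c k239 (.l (.s k155 k223 9 (.d k51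
  k35 k103 3 13))) .n)) (.c k139 (.l (.s k69 k138 10 (.s k137 k205 9 (.s k70 k204 10 (.s k71 k68 0
  (.s k223 k239 3 (.s k155 k19 9 (.d k103 k119 k51 3 13)))))))) .n))) (.c k71 (.q k19 [(.d k223 k239
  k155 3 9), (.s k51 k35 3 (.s k17 k34 4 (.s k33 k49 3 (.d k18 k16 k48 0 4))))] (.c k29 (.q k46 [(.d
  k223 k239 k155 3 9), (.s k51 k35 3 (.s k17 k34 4 (.s k33 k49 3 (.d k18 k16 k48 0 4))))] (.c k239
  (.l (.s k155 k223 9 (.d k51 k35 k103 3 13))) .n)) (.c k46 (.q k29 [(.d k223 k239 k155 3 9), (.s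
  k51 k35 3 (.s k17 k34 4 (.s k33 k49 3 (.d k18 k16 k48 0 4))))] (.c k239 (.l (.s k155 k223 9 (.d
  k51 k35 k103 3 13))) .n)) (.c k239 (.l (.s k155 k223 9 (.d k51 k35 k103 3 13))) .n)))) (.c k139
  (.l (.s k69 k138 10 (.s k137 k205 9 (.s k70 k204 10 (.s k71 k68 0 (.s k223 k239 3 (.s k155 k19 9
  (.d k103 k119 k51 3 13)))))))) .n)))))))

def t85_13 : T TT 256 :=
  (.f k87 k171 13 (.f k1 k2 0 (.q k243 [(.s k83 k163 11 (.s k247 k251 1 (.s k167 k7 11 (.d k91 k95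
  k15 1 13)))), (.s k81 k162 12 (.s k161 k241 11 (.s k82 k240 12 (.d k83 k80 k163 0 11))))] (.c k83
  (.q k161 [(.d k81 k241 k162 11 12)] (.c k81 (.l (.s k240 k82 12 (.s k80 k160 11 (.s k242 k241 0
  (.s k250 k245 2 (.s k246 k254 1 (.s k249 k252 2 (.d k251 k248 k247 0 1)))))))) (.c k162 (.l (.s
  k241 k81 11 (.d k240 k82 k242 12 0))) (.c k241 (.l (.s k162 k81 12 (.s k160 k163 0 (.d k240 k80
  k82 11 12)))) .n)))) (.c k163 (.l (.s k81 k162 12 (.s k161 k241 11 (.s k82 k240 12 (.s k83 k80 0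
  (.s k247 k251 1 (.s k167 k7 11 (.d k91 k95 k15 1 13)))))))) .n)))))

def t85_14 : T TT 256 :=
  (.f k87 k171 13 (.f k1 k2 0 (.q k243 [(.s k83 k163 11 (.s k247 k251 1 (.s k167 k7 11 (.d k91 k95
  k15 1 13)))), (.s k81 k162 12 (.s k161 k241 11 (.s k82 k240 12 (.d k83 k80 k163 0 11))))] (.c k6
  (.q k10 [(.s k83 k163 11 (.s k91 k95 1 (.d k15 k167 k5 13 2))), (.s k81 k162 12 (.s k161 k241 11
  (.s k82 k240 12 (.d k83 k80 k163 0 11)))), (.s k15 k5 2 (.s k7 k11 1 (.d k167 k91 k247 13 11)))]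
  .n) (.c k10 (.q k6 [(.s k81 k162 12 (.s k161 k241 11 (.s k82 k240 12 (.d k83 k80 k163 0 11)))),
  (.s k9 k12 2 (.s k247 k251 1 (.s k7 k167 11 (.d k5 k13 k4 1 0))))] (.c k163 (.l (.s k81 k162 12
  (.s k161 k241 11 (.s k82 k240 12 (.s k83 k80 0 (.s k247 k251 1 (.s k167 k7 11 (.d k91 k95 k15 1
  13)))))))) .n)) (.c k83 (.f k81 k162 12 (.f k161 k241 11 (.q k6 [(.s k247 k251 1 (.s k7 k167 11
  (.s k5 k4 0 (.d k15 k11 k10 1 2)))), (.s k12 k9 2 (.s k166 k89 14 (.s k86 k246 11 (.s k169 k252 14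
  (.s k174 k93 12 (.s k172 k163 2 (.d k173 k175 k165 0 1))))))), (.s k9 k12 2 (.s k5 k13 1 (.s k15
  k10 2 (.d k7 k4 k11 0 1))))] (.c k82 (.q k242 [(.s k247 k251 1 (.s k7 k167 11 (.s k5 k4 0 (.d k15
  k11 k10 1 2)))), (.s k12 k9 2 (.s k166 k89 14 (.s k86 k246 11 (.s k169 k252 14 (.s k174 k93 12 (.s
  k172 k163 2 (.d k173 k175 k165 0 1))))))), (.s k9 k12 2 (.s k5 k13 1 (.s k15 k10 2 (.d k7 k4 k11 0
  1))))] .n) (.c k242 (.l (.s k82 k240 12 (.s k9 k12 2 (.s k5 k13 1 (.s k15 k10 2 (.d k7 k4 k11 0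
  1)))))) .n))))) (.c k163 (.l (.s k81 k162 12 (.s k161 k241 11 (.s k82 k240 12 (.s k83 k80 0 (.s
  k247 k251 1 (.s k167 k7 11 (.d k91 k95 k15 1 13)))))))) .n)))))))

def t85_15 : T TT 256 :=
  (.f k1 k2 0 (.f k87 k171 13 (.q k207 [(.s k71 k139 9 (.s k223 k239 3 (.s k155 k19 9 (.d k103 k119
  k51 3 13)))), (.s k69 k138 10 (.s k137 k205 9 (.s k70 k204 10 (.d k71 k68 k139 0 9))))] (.c k31
  (.q k47 [(.s k69 k138 10 (.s k137 k205 9 (.s k71 k139 9 (.d k70 k68 k204 0 10)))), (.s k71 k139 9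
  (.s k223 k239 3 (.s k155 k19 9 (.d k103 k119 k51 3 13)))), (.s k69 k138 10 (.s k137 k205 9 (.s k70
  k204 10 (.d k71 k68 k139 0 9))))] (.c k71 (.q k19 [(.d k223 k239 k155 3 9), (.s k51 k35 3 (.s k17
  k34 4 (.s k33 k49 3 (.d k18 k16 k48 0 4))))] (.c k239 (.l (.s k155 k223 9 (.d k51 k35 k103 3 13)))
  .n)) (.c k139 (.l (.s k69 k138 10 (.s k137 k205 9 (.s k70 k204 10 (.s k71 k68 0 (.s k223 k239 3
  (.s k155 k19 9 (.d k103 k119 k51 3 13)))))))) .n))) (.c k47 (.q k31 [(.s k69 k138 10 (.s k137 k205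
  9 (.s k71 k139 9 (.d k70 k68 k204 0 10)))), (.s k223 k239 3 (.s k155 k19 9 (.s k95 k159 7 (.s k91
  k83 1 (.s k219 k27 7 (.d k211 k215 k151 1 9))))))] (.c k155 (.l (.s k69 k138 10 (.s k137 k205 9
  (.s k70 k204 10 (.d k71 k68 k139 0 9))))) .n)) (.c k71 (.q k19 [(.d k223 k239 k155 3 9), (.s k51
  k35 3 (.s k17 k34 4 (.s k33 k49 3 (.d k18 k16 k48 0 4))))] (.c k31 (.q k47 [(.d k223 k239 k155 3
  9), (.s k51 k35 3 (.s k17 k34 4 (.s k33 k49 3 (.d k18 k16 k48 0 4))))] (.c k239 (.l (.s k155 k223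
  9 (.d k51 k35 k103 3 13))) .n)) (.c k47 (.q k31 [(.d k223 k239 k155 3 9), (.s k51 k35 3 (.s k17
  k34 4 (.s k33 k49 3 (.d k18 k16 k48 0 4))))] (.c k239 (.l (.s k155 k223 9 (.d k51 k35 k103 3 13)))
  .n)) (.c k239 (.l (.s k155 k223 9 (.d k51 k35 k103 3 13))) .n)))) (.c k139 (.l (.s k69 k138 10 (.s
  k137 k205 9 (.s k70 k204 10 (.s k71 k68 0 (.s k223 k239 3 (.s k155 k19 9 (.d k103 k119 k51 3
  13)))))))) .n)))))))

def t85_16 : T TT 256 :=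
  (.f k87 k171 13 (.f k1 k2 0 (.q k243 [(.s k83 k163 11 (.s k247 k251 1 (.s k167 k7 11 (.d k91 k95
  k15 1 13)))), (.s k81 k162 12 (.s k161 k241 11 (.s k82 k240 12 (.d k83 k80 k163 0 11))))] (.c k83
  (.q k223 [(.s k207 k239 3 (.s k71 k139 9 (.s k103 k119 3 (.d k155 k19 k51 9 13)))), (.s k207 k239
  3 (.s k219 k231 5 (.s k215 k211 1 (.s k235 k195 5 (.d k251 k247 k203 1 3))))), (.s k81 k162 12 (.s
  k161 k241 11 (.s k82 k240 12 (.s k19 k155 9 (.s k145 k208 8 (.s k17 k209 7 (.d k51 k35 k34 3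
  4)))))))] (.c k19 (.l (.s k207 k239 3 (.s k69 k138 10 (.s k137 k205 9 (.s k70 k204 10 (.d k71 k68
  k139 0 9)))))) (.c k35 (.l (.s k155 k19 9 (.s k207 k239 3 (.s k103 k51 13 (.d k71 k119 k139 3
  9))))) .n))) (.c k154 (.q k223 [(.s k83 k163 11 (.s k247 k251 1 (.s k167 k7 11 (.d k91 k95 k15 1
  13)))), (.s k155 k19 9 (.s k207 k239 3 (.s k71 k139 9 (.d k103 k119 k51 3 13))))] .n) (.c k163 (.l
  (.s k81 k162 12 (.s k161 k241 11 (.s k82 k240 12 (.s k83 k80 0 (.s k247 k251 1 (.s k167 k7 11 (.d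
  k91 k95 k15 1 13)))))))) (.c k223 (.q k154 [(.s k83 k163 11 (.s k247 k251 1 (.s k167 k7 11 (.d k91
  k95 k15 1 13)))), (.s k81 k162 12 (.s k161 k241 11 (.s k82 k240 12 (.d k83 k80 k163 0 11))))] (.c
  k83 (.q k245 [(.s k81 k162 12 (.s k161 k241 11 (.d k240 k82 k250 12 2))), (.s k240 k250 2 (.s k247
  k251 1 (.s k246 k244 0 (.s k249 k252 2 (.d k241 k242 k253 0 1))))), (.s k81 k162 12 (.s k241 k161
  11 (.s k249 k253 1 (.s k246 k252 2 (.d k247 k244 k251 0 1)))))] (.c k241 (.l (.s k250 k240 2 (.s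
  k247 k251 1 (.s k246 k244 0 (.s k254 k242 1 (.d k252 k253 k249 0 2)))))) (.c k242 (.l (.s k250
  k240 2 (.s k251 k247 1 (.s k249 k248 0 (.s k241 k253 1 (.d k81 k161 k162 11 12)))))) .n))) (.c
  k163 (.l (.s k81 k162 12 (.s k161 k241 11 (.s k82 k240 12 (.s k83 k80 0 (.s k247 k251 1 (.s k167
  k7 11 (.d k91 k95 k15 1 13)))))))) .n))) .n)))))))

def t85_17 : T TT 256 :=
  (.f k1 k2 0 (.f k87 k171 13 (.q k207 [(.s k69 k138 10 (.s k137 k205 9 (.s k70 k204 10 (.d k71 k68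
  k139 0 9)))), (.s k71 k139 9 (.s k223 k239 3 (.s k155 k19 9 (.d k103 k119 k51 3 13))))] (.c k71
  (.q k153 [(.s k69 k138 10 (.s k137 k205 9 (.s k169 k185 3 (.s k223 k239 3 (.s k19 k155 9 (.d k86
  k220 k252 10 14)))))), (.s k69 k138 10 (.s k205 k137 9 (.s k101 k49 13 (.s k239 k223 3 (.s k32
  k170 10 (.d k48 k16 k154 3 14)))))), (.s k223 k239 3 (.s k19 k155 9 (.s k220 k86 10 (.s k221 k222
  0 (.s k204 k238 4 (.d k51 k35 k102 3 14)))))), (.s k138 k69 10 (.s k223 k239 3 (.s k155 k19 9 (.s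
  k154 k152 0 (.s k186 k170 3 (.d k48 k117 k101 10 14))))))] (.c k86 (.l (.s k69 k138 10 (.s k205
  k137 9 (.s k101 k49 13 (.s k154 k48 14 (.s k155 k152 0 (.d k223 k239 k19 3 9))))))) (.c k223 (.l
  (.s k69 k138 10 (.s k137 k205 9 (.s k169 k185 3 (.s k86 k252 14 (.s k19 k220 10 (.s k51 k35 3 (.d
  k204 k70 k102 10 14)))))))) (.c k239 (.l (.s k69 k138 10 (.s k137 k205 9 (.s k169 k185 3 (.s k86
  k252 14 (.s k19 k220 10 (.s k155 k223 9 (.d k51 k35 k103 3 13)))))))) .n)))) (.c k139 (.l (.s k69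
  k138 10 (.s k137 k205 9 (.s k70 k204 10 (.s k71 k68 0 (.s k223 k239 3 (.s k155 k19 9 (.d k103 k119
  k51 3 13)))))))) (.c k153 (.q k221 [(.s k69 k138 10 (.s k137 k205 9 (.d k204 k70 k238 10 4))), (.s
  k71 k139 9 (.s k103 k119 3 (.s k223 k239 3 (.d k155 k19 k51 9 13))))] .n) (.c k221 (.q k153 [(.s
  k71 k139 9 (.s k223 k239 3 (.s k155 k19 9 (.d k103 k119 k51 3 13)))), (.s k69 k138 10 (.s k137
  k205 9 (.s k70 k204 10 (.d k71 k68 k139 0 9)))), (.s k69 k138 10 (.s k137 k205 9 (.s k169 k185 3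
  (.s k86 k252 14 (.s k19 k220 10 (.d k223 k239 k155 3 9))))))] .n) .n)))))))

def t85_18 : T TT 256 :=
  (.f k87 k171 13 (.q k243 [(.s k83 k163 11 (.s k247 k251 1 (.s k167 k7 11 (.d k91 k95 k15 1 13)))),
  (.s k1 k2 0 (.s k81 k162 12 (.s k161 k241 11 (.s k82 k240 12 (.d k83 k80 k163 0 11)))))] (.c k83
  (.q k161 [(.s k81 k162 12 (.d k1 k2 k241 0 11)), (.s k162 k81 12 (.s k160 k163 0 (.d k240 k80 k82
  11 12)))] (.c k81 (.l (.s k240 k82 12 (.s k80 k160 11 (.s k241 k242 0 (.s k245 k250 2 (.s k249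
  k253 1 (.s k246 k252 2 (.d k247 k244 k251 0 1)))))))) (.c k162 (.l (.s k1 k2 0 (.s k241 k81 11 (.d
  k240 k242 k82 0 12)))) .n))) (.c k163 (.f k1 k2 0 (.l (.s k81 k162 12 (.s k161 k241 11 (.s k82
  k240 12 (.s k83 k80 0 (.s k247 k251 1 (.s k167 k7 11 (.d k91 k95 k15 1 13))))))))) .n))))

def t85_19 : T TT 256 :=
  (.f k87 k171 13 (.f k1 k2 0 (.q k243 [(.s k83 k163 11 (.s k247 k251 1 (.s k167 k7 11 (.d k91 k95
  k15 1 13)))), (.s k81 k162 12 (.s k161 k241 11 (.s k82 k240 12 (.d k83 k80 k163 0 11))))] (.c k83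
  (.q k211 [(.s k195 k227 3 (.s k65 k130 8 (.s k129 k193 7 (.s k66 k192 8 (.d k67 k64 k131 0 7))))),
  (.s k81 k162 12 (.s k161 k241 11 (.s k146 k16 8 (.s k131 k176 4 (.d k195 k227 k67 3 7))))), (.s
  k81 k162 12 (.s k161 k241 11 (.s k16 k146 8 (.s k48 k32 3 (.s k33 k18 4 (.s k97 k225 7 (.d k113
  k178 k65 8 3)))))))] (.c k227 (.l (.s k81 k162 12 (.s k161 k241 11 (.s k146 k16 8 (.s k131 k176 4
  (.s k195 k67 7 (.s k65 k130 8 (.d k97 k113 k48 3 12)))))))) .n)) (.c k163 (.l (.s k81 k162 12 (.s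
  k161 k241 11 (.s k82 k240 12 (.s k83 k80 0 (.s k247 k251 1 (.s k167 k7 11 (.d k91 k95 k15 1
  13)))))))) .n)))))

def t85_20 : T TT 256 :=
  (.f k1 k2 0 (.f k87 k171 13 (.q k243 [(.s k83 k163 11 (.s k247 k251 1 (.s k167 k7 11 (.d k91 k95
  k15 1 13)))), (.s k81 k162 12 (.s k161 k241 11 (.s k82 k240 12 (.d k83 k80 k163 0 11))))] (.c k83
  (.q k215 [(.s k195 k235 5 (.s k65 k130 8 (.s k129 k193 7 (.s k66 k192 8 (.d k67 k64 k131 0 7))))),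
  (.s k151 k23 7 (.s k247 k251 1 (.s k7 k167 11 (.s k199 k231 3 (.s k71 k135 7 (.d k103 k119 k55 3
  11))))))] .n) (.c k150 (.q k215 [(.s k83 k163 11 (.s k247 k251 1 (.s k167 k7 11 (.d k91 k95 k15 1
  13)))), (.s k195 k235 5 (.s k65 k130 8 (.s k129 k193 7 (.s k66 k192 8 (.d k67 k64 k131 0 7)))))]
  .n) (.c k163 (.l (.s k81 k162 12 (.s k161 k241 11 (.s k82 k240 12 (.s k83 k80 0 (.s k247 k251 1
  (.s k167 k7 11 (.d k91 k95 k15 1 13)))))))) (.c k215 (.q k150 [(.s k83 k163 11 (.s k247 k251 1 (.s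
  k167 k7 11 (.d k91 k95 k15 1 13)))), (.s k81 k162 12 (.s k161 k241 11 (.s k82 k240 12 (.d k83 k80
  k163 0 11))))] (.c k83 (.q k161 [(.d k81 k241 k162 11 12)] (.c k81 (.l (.s k240 k82 12 (.s k80
  k160 11 (.s k242 k241 0 (.s k250 k245 2 (.s k246 k254 1 (.s k249 k252 2 (.d k251 k248 k247 0
  1)))))))) (.c k162 (.l (.s k241 k81 11 (.d k240 k82 k242 12 0))) (.c k241 (.l (.s k162 k81 12 (.s
  k160 k163 0 (.d k240 k80 k82 11 12)))) .n)))) (.c k163 (.l (.s k81 k162 12 (.s k161 k241 11 (.s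
  k82 k240 12 (.s k83 k80 0 (.s k247 k251 1 (.s k167 k7 11 (.d k91 k95 k15 1 13)))))))) .n)))
  .n)))))))

def t85_21 : T TT 256 :=
  (.f k1 k2 0 (.q k7 [(.s k15 k11 1 (.s k5 k10 2 (.s k9 k13 1 (.d k6 k4 k12 0 2)))), (.s k87 k171 13
  (.s k247 k167 11 (.s k243 k251 1 (.s k81 k162 12 (.s k161 k241 11 (.s k82 k240 12 (.d k83 k163 k80
  11 0)))))))] (.c k11 (.q k213 [(.s k192 k234 6 (.s k129 k66 8 (.s k65 k193 7 (.s k130 k195 8 (.d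
  k128 k131 k64 0 7))))), (.s k87 k171 13 (.s k247 k167 11 (.s k192 k234 6 (.s k196 k230 4 (.s k70
  k133 8 (.d k204 k200 k137 1 10))))))] (.c k192 (.f k87 k171 13 (.l (.s k247 k167 11 (.s k196 k230
  4 (.s k70 k133 8 (.s k137 k204 10 (.s k69 k205 9 (.s k207 k138 10 (.d k71 k68 k139 0 9)))))))))
  (.c k234 (.f k87 k171 13 (.l (.s k247 k167 11 (.s k196 k230 4 (.s k70 k133 8 (.s k137 k204 10 (.s
  k69 k205 9 (.s k207 k138 10 (.d k71 k68 k139 0 9))))))))) .n))) (.c k149 (.q k213 [(.s k15 k11 1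
  (.s k5 k10 2 (.s k9 k13 1 (.d k6 k4 k12 0 2)))), (.s k192 k234 6 (.s k128 k64 7 (.s k129 k66 8 (.s
  k65 k193 7 (.d k130 k131 k195 0 8)))))] (.c k106 (.l (.s k192 k234 6 (.s k15 k11 1 (.s k5 k10 2
  (.s k9 k13 1 (.d k6 k4 k12 0 2)))))) (.c k192 (.q k106 [(.s k15 k11 1 (.s k5 k10 2 (.s k9 k13 1
  (.d k6 k4 k12 0 2)))), (.s k87 k171 13 (.s k247 k167 11 (.s k243 k251 1 (.s k81 k162 12 (.s k161
  k241 11 (.s k82 k240 12 (.d k83 k163 k80 11 0)))))))] (.c k11 (.f k87 k171 13 (.l (.s k247 k167 11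
  (.s k196 k230 4 (.s k70 k133 8 (.s k137 k204 10 (.s k69 k205 9 (.s k207 k138 10 (.d k71 k68 k139 0
  9))))))))) .n)) .n))) (.c k213 (.q k149 [(.s k15 k11 1 (.s k5 k10 2 (.s k9 k13 1 (.d k6 k4 k12 0
  2)))), (.s k87 k171 13 (.s k247 k167 11 (.s k243 k251 1 (.s k81 k162 12 (.s k161 k241 11 (.s k82
  k240 12 (.d k83 k163 k80 11 0)))))))] (.c k11 (.q k207 [(.s k69 k138 10 (.s k137 k205 9 (.s k70
  k204 10 (.d k71 k68 k139 0 9)))), (.s k71 k139 9 (.s k87 k171 13 (.s k223 k239 3 (.s k155 k19 9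
  (.d k103 k119 k51 3 13))))), (.s k69 k138 10 (.s k137 k205 9 (.s k70 k204 10 (.s k133 k196 8 (.s
  k5 k197 7 (.s k9 k13 1 (.d k6 k4 k12 0 2)))))))] .n) .n)) .n)))))

def t85_22 : T TT 256 :=
  (.f k87 k171 13 (.q k243 [(.s k83 k163 11 (.s k91 k95 1 (.s k247 k251 1 (.d k167 k7 k15 11 13)))),
  (.s k1 k2 0 (.s k81 k162 12 (.s k161 k241 11 (.s k82 k240 12 (.d k83 k80 k163 0 11)))))] (.c k80
  (.l (.s k83 k163 11 (.s k247 k251 1 (.s k167 k7 11 (.d k91 k95 k15 1 13))))) (.c k83 (.q k161 [(.s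
  k81 k162 12 (.d k1 k2 k241 0 11)), (.s k162 k81 12 (.s k160 k163 0 (.d k240 k80 k82 11 12)))] (.c
  k81 (.l (.s k240 k82 12 (.s k80 k160 11 (.s k241 k242 0 (.s k245 k250 2 (.s k249 k253 1 (.s k246
  k252 2 (.d k247 k244 k251 0 1)))))))) (.c k162 (.l (.s k1 k2 0 (.s k241 k81 11 (.d k240 k242 k82 0
  12)))) .n))) (.c k163 (.f k1 k2 0 (.l (.s k81 k162 12 (.s k161 k241 11 (.s k82 k240 12 (.s k83 k80
  0 (.s k247 k251 1 (.s k167 k7 11 (.d k91 k95 k15 1 13))))))))) .n)))))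

def t85_23 : T TT 256 :=
  (.f k87 k171 13 (.f k1 k2 0 (.q k243 [(.s k81 k162 12 (.s k161 k241 11 (.s k82 k240 12 (.d k83 k80
  k163 0 11)))), (.s k83 k163 11 (.s k247 k251 1 (.s k167 k7 11 (.d k91 k95 k15 1 13))))] (.c k83
  (.q k161 [(.d k81 k241 k162 11 12)] (.c k81 (.l (.s k240 k82 12 (.s k80 k160 11 (.s k242 k241 0
  (.s k250 k245 2 (.s k246 k254 1 (.s k249 k252 2 (.d k251 k248 k247 0 1)))))))) (.c k162 (.l (.s
  k241 k81 11 (.d k240 k82 k242 12 0))) (.c k241 (.l (.s k162 k81 12 (.s k160 k163 0 (.d k240 k80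
  k82 11 12)))) .n)))) (.c k163 (.l (.s k81 k162 12 (.s k161 k241 11 (.s k82 k240 12 (.s k83 k80 0
  (.s k247 k251 1 (.s k167 k7 11 (.d k91 k95 k15 1 13)))))))) .n)))))

def t85_24 : T TT 256 :=
  (.f k1 k2 0 (.f k87 k171 13 (.q k207 [(.s k71 k139 9 (.s k223 k239 3 (.s k155 k19 9 (.d k103 k119
  k51 3 13)))), (.s k69 k138 10 (.s k137 k205 9 (.s k70 k204 10 (.d k71 k68 k139 0 9))))] (.c k71
  (.q k7 [(.s k15 k11 1 (.s k95 k175 11 (.s k91 k83 1 (.d k167 k247 k243 11 13)))), (.s k69 k138 10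
  (.s k137 k205 9 (.s k70 k204 10 (.s k133 k196 8 (.s k5 k197 7 (.s k9 k13 1 (.d k6 k4 k12 0
  2)))))))] .n) (.c k139 (.l (.s k69 k138 10 (.s k137 k205 9 (.s k70 k204 10 (.s k71 k68 0 (.s k223
  k239 3 (.s k155 k19 9 (.d k103 k119 k51 3 13)))))))) .n)))))

def t85_25 : T TT 256 :=
  (.q k243 [(.s k1 k2 0 (.s k81 k162 12 (.s k161 k241 11 (.s k83 k163 11 (.d k82 k80 k240 0 12))))),
  (.s k83 k163 11 (.s k87 k171 13 (.s k91 k95 1 (.s k167 k15 13 (.d k247 k251 k7 1 11)))))] (.c k80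
  (.l (.s k2 k1 0 (.s k162 k81 12 (.s k82 k242 11 (.s k161 k240 12 (.d k163 k83 k160 11 0)))))) (.c
  k83 (.q k91 [(.s k171 k87 13 (.d k251 k247 k11 1 11)), (.s k1 k2 0 (.s k15 k167 13 (.s k5 k10 2
  (.s k9 k13 1 (.s k6 k12 2 (.d k7 k4 k11 0 1))))))] (.c k11 (.l (.s k87 k171 13 (.s k167 k15 13 (.d
  k247 k251 k7 1 11)))) .n)) (.c k163 (.q k91 [(.s k171 k87 13 (.d k251 k247 k11 1 11)), (.s k87
  k171 13 (.s k95 k83 1 (.d k15 k175 k167 11 13)))] (.c k87 (.l (.s k251 k247 1 (.s k11 k171 11 (.d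
  k15 k7 k167 1 13)))) (.c k171 (.l (.s k1 k2 0 (.s k81 k162 12 (.s k161 k241 11 (.s k82 k240 12 (.s
  k83 k80 0 (.s k95 k87 1 (.d k15 k175 k167 11 13)))))))) .n))) .n))))

def t85_26 : T TT 256 :=
  (.f k87 k171 13 (.f k1 k2 0 (.q k243 [(.s k83 k163 11 (.s k247 k251 1 (.s k167 k7 11 (.d k91 k95
  k15 1 13)))), (.s k81 k162 12 (.s k161 k241 11 (.s k82 k240 12 (.d k83 k80 k163 0 11))))] (.c k83
  (.q k211 [(.s k195 k227 3 (.s k65 k130 8 (.s k129 k193 7 (.s k66 k192 8 (.d k67 k64 k131 0 7))))),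
  (.s k81 k162 12 (.s k161 k241 11 (.s k146 k16 8 (.s k131 k176 4 (.d k195 k227 k67 3 7))))), (.s
  k81 k162 12 (.s k161 k241 11 (.s k16 k146 8 (.s k48 k32 3 (.s k33 k18 4 (.s k97 k225 7 (.d k113
  k178 k65 8 3)))))))] (.c k227 (.l (.s k81 k162 12 (.s k161 k241 11 (.s k146 k16 8 (.s k131 k176 4
  (.s k195 k67 7 (.s k65 k130 8 (.d k97 k113 k48 3 12)))))))) .n)) (.c k163 (.l (.s k81 k162 12 (.s
  k161 k241 11 (.s k82 k240 12 (.s k83 k80 0 (.s k247 k251 1 (.s k167 k7 11 (.d k91 k95 k15 1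
  13)))))))) .n)))))

def t85_27 : T TT 256 :=
  (.f k87 k171 13 (.f k1 k2 0 (.q k243 [(.s k83 k163 11 (.s k247 k251 1 (.s k167 k7 11 (.d k91 k95
  k15 1 13)))), (.s k81 k162 12 (.s k161 k241 11 (.s k82 k240 12 (.d k83 k80 k163 0 11))))] (.c k83
  (.q k161 [(.d k81 k241 k162 11 12)] (.c k81 (.l (.s k240 k82 12 (.s k80 k160 11 (.s k242 k241 0
  (.s k250 k245 2 (.s k246 k254 1 (.s k249 k252 2 (.d k251 k248 k247 0 1)))))))) (.c k162 (.l (.s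
  k241 k81 11 (.d k240 k82 k242 12 0))) (.c k241 (.l (.s k162 k81 12 (.s k160 k163 0 (.d k240 k80
  k82 11 12)))) .n)))) (.c k163 (.l (.s k81 k162 12 (.s k161 k241 11 (.s k82 k240 12 (.s k83 k80 0
  (.s k247 k251 1 (.s k167 k7 11 (.d k91 k95 k15 1 13)))))))) .n)))))

def t85_28 : T TT 256 :=
  (.f k1 k2 0 (.f k87 k171 13 (.q k207 [(.s k69 k138 10 (.s k137 k205 9 (.s k70 k204 10 (.d k71 k68
  k139 0 9)))), (.s k71 k139 9 (.s k223 k239 3 (.s k155 k19 9 (.d k103 k119 k51 3 13))))] (.c k71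
  (.q k7 [(.s k15 k11 1 (.s k95 k175 11 (.s k91 k83 1 (.d k167 k247 k243 11 13)))), (.s k69 k138 10
  (.s k137 k205 9 (.s k70 k204 10 (.s k133 k196 8 (.s k5 k197 7 (.s k9 k13 1 (.d k6 k4 k12 0
  2)))))))] .n) (.c k139 (.l (.s k69 k138 10 (.s k137 k205 9 (.s k70 k204 10 (.s k71 k68 0 (.s k223
  k239 3 (.s k155 k19 9 (.d k103 k119 k51 3 13)))))))) .n)))))

def t85_29 : T TT 256 :=
  (.f k87 k171 13 (.f k1 k2 0 (.q k243 [(.s k83 k163 11 (.s k247 k251 1 (.s k167 k7 11 (.d k91 k95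
  k15 1 13)))), (.s k81 k162 12 (.s k161 k241 11 (.s k82 k240 12 (.d k83 k80 k163 0 11))))] (.c k12
  (.q k46 [(.s k83 k163 11 (.s k247 k251 1 (.s k167 k7 11 (.d k91 k95 k15 1 13)))), (.s k81 k162 12
  (.s k161 k241 11 (.s k82 k240 12 (.d k83 k80 k163 0 11))))] (.c k83 (.q k211 [(.s k81 k162 12 (.s
  k161 k241 11 (.s k146 k16 8 (.s k131 k176 4 (.d k195 k227 k67 3 7))))), (.s k195 k227 3 (.s k65
  k130 8 (.s k129 k193 7 (.s k66 k192 8 (.d k67 k64 k131 0 7))))), (.s k81 k162 12 (.s k161 k241 11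
  (.s k16 k146 8 (.s k48 k32 3 (.s k33 k18 4 (.s k97 k225 7 (.d k113 k178 k65 8 3)))))))] (.c k227
  (.l (.s k81 k162 12 (.s k161 k241 11 (.s k146 k16 8 (.s k131 k176 4 (.s k195 k67 7 (.s k65 k130 8
  (.d k97 k113 k48 3 12)))))))) .n)) (.c k163 (.l (.s k81 k162 12 (.s k161 k241 11 (.s k82 k240 12
  (.s k83 k80 0 (.s k247 k251 1 (.s k167 k7 11 (.d k91 k95 k15 1 13)))))))) .n))) (.c k46 (.q k12
  [(.s k81 k162 12 (.s k161 k241 11 (.s k82 k240 12 (.d k83 k80 k163 0 11)))), (.s k4 k8 1 (.s k6 k9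
  2 (.s k7 k5 0 (.d k247 k251 k167 1 11))))] .n) (.c k83 (.q k12 [(.s k4 k8 1 (.s k6 k9 2 (.s k7 k5
  0 (.d k247 k251 k167 1 11)))), (.s k9 k6 2 (.s k5 k13 1 (.s k10 k15 2 (.d k8 k11 k4 0 1)))), (.s
  k81 k162 12 (.s k241 k161 11 (.s k89 k166 14 (.s k13 k165 13 (.s k5 k9 1 (.d k15 k14 k10 0
  2))))))] (.c k4 (.l (.s k9 k6 2 (.s k5 k13 1 (.s k247 k251 1 (.s k7 k167 11 (.d k15 k11 k10 1
  2)))))) (.c k5 (.l (.s k8 k4 1 (.s k247 k251 1 (.s k9 k6 2 (.s k7 k167 11 (.d k11 k10 k15 0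
  1)))))) (.c k9 (.l (.s k4 k8 1 (.s k247 k251 1 (.s k7 k167 11 (.s k5 k6 0 (.d k15 k11 k10 1
  2)))))) (.c k10 (.l (.s k4 k8 1 (.s k247 k251 1 (.s k7 k167 11 (.d k6 k9 k5 2 0))))) .n))))) (.c
  k163 (.l (.s k81 k162 12 (.s k161 k241 11 (.s k82 k240 12 (.s k83 k80 0 (.s k247 k251 1 (.s k167
  k7 11 (.d k91 k95 k15 1 13)))))))) .n)))))))

def t85_30 : T TT 256 :=
  (.q k243 [(.s k1 k2 0 (.s k81 k162 12 (.s k161 k241 11 (.s k83 k163 11 (.d k82 k80 k240 0 12))))),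
  (.s k83 k163 11 (.s k87 k171 13 (.s k91 k95 1 (.s k167 k15 13 (.d k247 k251 k7 1 11)))))] (.c k80
  (.l (.s k2 k1 0 (.s k162 k81 12 (.s k82 k242 11 (.s k161 k240 12 (.d k163 k83 k160 11 0)))))) (.c
  k83 (.q k91 [(.s k171 k87 13 (.d k251 k247 k11 1 11)), (.s k1 k2 0 (.s k15 k167 13 (.s k5 k10 2
  (.s k9 k13 1 (.s k6 k12 2 (.d k7 k4 k11 0 1))))))] (.c k11 (.l (.s k87 k171 13 (.s k167 k15 13 (.d
  k247 k251 k7 1 11)))) .n)) (.c k163 (.q k91 [(.s k171 k87 13 (.d k251 k247 k11 1 11)), (.s k87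
  k171 13 (.s k95 k83 1 (.d k15 k175 k167 11 13)))] (.c k87 (.l (.s k251 k247 1 (.s k11 k171 11 (.d
  k15 k7 k167 1 13)))) (.c k171 (.l (.s k1 k2 0 (.s k81 k162 12 (.s k161 k241 11 (.s k82 k240 12 (.s
  k83 k80 0 (.s k95 k87 1 (.d k15 k175 k167 11 13)))))))) .n))) .n))))

def t85_31 : T TT 256 :=
  (.f k87 k171 13 (.f k1 k2 0 (.q k15 [(.s k7 k11 1 (.s k95 k175 11 (.s k91 k83 1 (.d k167 k247 k243
  11 13)))), (.s k5 k10 2 (.s k9 k13 1 (.s k6 k12 2 (.d k7 k4 k11 0 1))))] (.c k7 (.q k243 [(.s k83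
  k163 11 (.d k91 k167 k95 13 1)), (.s k5 k10 2 (.s k81 k162 12 (.s k13 k9 1 (.s k241 k161 11 (.s
  k89 k165 13 (.d k12 k14 k166 0 14))))))] (.c k163 (.l (.s k81 k162 12 (.s k161 k241 11 (.s k82
  k240 12 (.s k83 k80 0 (.d k91 k95 k167 1 13)))))) .n)) (.c k11 (.l (.s k5 k10 2 (.s k9 k13 1 (.s
  k6 k12 2 (.s k7 k4 0 (.s k95 k175 11 (.s k91 k83 1 (.d k167 k247 k243 11 13)))))))) .n)))))

def t85_32 : T TT 256 :=
  (.f k1 k2 0 (.f k87 k171 13 (.q k207 [(.s k69 k138 10 (.s k137 k205 9 (.s k70 k204 10 (.d k71 k68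
  k139 0 9)))), (.s k71 k139 9 (.s k223 k239 3 (.s k155 k19 9 (.d k103 k119 k51 3 13))))] (.c k71
  (.q k7 [(.s k15 k11 1 (.s k95 k175 11 (.s k91 k83 1 (.d k167 k247 k243 11 13)))), (.s k69 k138 10
  (.s k137 k205 9 (.s k70 k204 10 (.s k133 k196 8 (.s k5 k197 7 (.s k9 k13 1 (.d k6 k4 k12 0
  2)))))))] .n) (.c k139 (.l (.s k69 k138 10 (.s k137 k205 9 (.s k70 k204 10 (.s k71 k68 0 (.s k223
  k239 3 (.s k155 k19 9 (.d k103 k119 k51 3 13)))))))) .n)))))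

def t85_33 : T TT 256 :=
  (.q k243 [(.s k1 k2 0 (.s k81 k162 12 (.s k161 k241 11 (.s k83 k163 11 (.d k82 k80 k240 0 12))))),
  (.s k83 k163 11 (.s k87 k171 13 (.s k91 k95 1 (.s k167 k15 13 (.d k247 k251 k7 1 11)))))] (.c k80
  (.l (.s k2 k1 0 (.s k162 k81 12 (.s k82 k242 11 (.s k161 k240 12 (.d k163 k83 k160 11 0)))))) (.c
  k83 (.q k91 [(.s k171 k87 13 (.d k251 k247 k11 1 11)), (.s k1 k2 0 (.s k15 k167 13 (.s k5 k10 2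
  (.s k9 k13 1 (.s k6 k12 2 (.d k7 k4 k11 0 1))))))] (.c k11 (.l (.s k87 k171 13 (.s k167 k15 13 (.d
  k247 k251 k7 1 11)))) .n)) (.c k163 (.q k91 [(.s k171 k87 13 (.d k251 k247 k11 1 11)), (.s k87
  k171 13 (.s k95 k83 1 (.d k15 k175 k167 11 13)))] (.c k87 (.l (.s k251 k247 1 (.s k11 k171 11 (.d
  k15 k7 k167 1 13)))) (.c k171 (.l (.s k1 k2 0 (.s k81 k162 12 (.s k161 k241 11 (.s k82 k240 12 (.s
  k83 k80 0 (.s k95 k87 1 (.d k15 k175 k167 11 13)))))))) .n))) .n))))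

def t85_34 : T TT 256 :=
  (.q k243 [(.s k83 k163 11 (.s k87 k171 13 (.s k91 k95 1 (.s k167 k15 13 (.d k247 k251 k7 1
  11))))), (.s k2 k1 0 (.s k162 k81 12 (.s k82 k242 11 (.s k161 k240 12 (.d k163 k160 k83 0 11)))))]
  (.c k83 (.q k91 [(.s k171 k87 13 (.d k251 k247 k11 1 11)), (.s k1 k2 0 (.s k15 k167 13 (.s k5 k10
  2 (.s k9 k13 1 (.s k6 k12 2 (.d k7 k4 k11 0 1))))))] (.c k11 (.l (.s k87 k171 13 (.s k167 k15 13
  (.d k247 k251 k7 1 11)))) .n)) (.c k163 (.q k91 [(.s k171 k87 13 (.d k251 k247 k11 1 11)), (.s k87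
  k171 13 (.s k95 k83 1 (.d k15 k175 k167 11 13)))] (.c k87 (.l (.s k251 k247 1 (.s k11 k171 11 (.d
  k15 k7 k167 1 13)))) (.c k171 (.l (.s k1 k2 0 (.s k81 k162 12 (.s k161 k241 11 (.s k82 k240 12 (.s
  k83 k80 0 (.s k95 k87 1 (.d k15 k175 k167 11 13)))))))) .n))) .n)))

def t85_35 : T TT 256 :=
  (.f k1 k2 0 (.q k243 [(.s k81 k162 12 (.s k161 k241 11 (.s k82 k240 12 (.d k83 k80 k163 0 11)))),
  (.s k83 k163 11 (.s k87 k171 13 (.s k247 k251 1 (.s k167 k7 11 (.d k91 k95 k15 1 13)))))] (.c k83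
  (.q k12 [(.s k9 k6 2 (.s k5 k13 1 (.s k10 k15 2 (.d k8 k11 k4 0 1)))), (.s k4 k8 1 (.s k87 k171 13
  (.s k247 k251 1 (.s k7 k167 11 (.d k6 k5 k9 0 2))))), (.s k81 k162 12 (.s k241 k161 11 (.s k89
  k166 14 (.s k13 k165 13 (.s k5 k9 1 (.d k15 k14 k10 0 2))))))] (.c k4 (.l (.s k81 k162 12 (.s k241
  k161 11 (.s k9 k6 2 (.s k89 k166 14 (.s k247 k251 1 (.d k13 k5 k165 1 13))))))) (.c k5 (.l (.s k8
  k4 1 (.s k87 k171 13 (.s k247 k251 1 (.s k9 k6 2 (.s k7 k167 11 (.d k11 k10 k15 0 1))))))) (.c k9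
  (.l (.s k4 k8 1 (.s k87 k171 13 (.s k247 k251 1 (.s k7 k167 11 (.s k5 k6 0 (.d k15 k11 k10 1
  2))))))) .n)))) (.c k163 (.f k87 k171 13 (.l (.s k81 k162 12 (.s k161 k241 11 (.s k82 k240 12 (.s
  k83 k80 0 (.s k247 k251 1 (.s k167 k7 11 (.d k91 k95 k15 1 13))))))))) .n))))

def t85_36 : T TT 256 :=
  (.f k1 k2 0 (.f k87 k171 13 (.q k207 [(.s k71 k139 9 (.s k223 k239 3 (.s k155 k19 9 (.d k103 k119
  k51 3 13)))), (.s k69 k138 10 (.s k137 k205 9 (.s k70 k204 10 (.d k71 k68 k139 0 9))))] (.c k71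
  (.q k7 [(.s k15 k11 1 (.s k95 k175 11 (.s k91 k83 1 (.d k167 k247 k243 11 13)))), (.s k69 k138 10
  (.s k137 k205 9 (.s k70 k204 10 (.s k133 k196 8 (.s k5 k197 7 (.s k9 k13 1 (.d k6 k4 k12 0
  2)))))))] .n) (.c k139 (.l (.s k69 k138 10 (.s k137 k205 9 (.s k70 k204 10 (.s k71 k68 0 (.s k223
  k239 3 (.s k155 k19 9 (.d k103 k119 k51 3 13)))))))) .n)))))

def t85_37 : T TT 256 :=
  (.q k243 [(.s k1 k2 0 (.s k81 k162 12 (.s k161 k241 11 (.s k83 k163 11 (.d k82 k80 k240 0 12))))),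
  (.s k83 k163 11 (.s k87 k171 13 (.s k91 k95 1 (.s k167 k15 13 (.d k247 k251 k7 1 11)))))] (.c k80
  (.l (.s k2 k1 0 (.s k162 k81 12 (.s k82 k242 11 (.s k161 k240 12 (.d k163 k83 k160 11 0)))))) (.c
  k83 (.q k91 [(.s k171 k87 13 (.d k251 k247 k11 1 11)), (.s k1 k2 0 (.s k15 k167 13 (.s k5 k10 2
  (.s k9 k13 1 (.s k6 k12 2 (.d k7 k4 k11 0 1))))))] (.c k11 (.l (.s k87 k171 13 (.s k167 k15 13 (.d
  k247 k251 k7 1 11)))) .n)) (.c k163 (.q k91 [(.s k171 k87 13 (.d k251 k247 k11 1 11)), (.s k87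
  k171 13 (.s k95 k83 1 (.d k15 k175 k167 11 13)))] (.c k87 (.l (.s k251 k247 1 (.s k11 k171 11 (.d
  k15 k7 k167 1 13)))) (.c k171 (.l (.s k1 k2 0 (.s k81 k162 12 (.s k161 k241 11 (.s k82 k240 12 (.s
  k83 k80 0 (.s k95 k87 1 (.d k15 k175 k167 11 13)))))))) .n))) .n))))

def t85_38 : T TT 256 :=
  (.f k1 k2 0 (.f k87 k171 13 (.q k207 [(.s k71 k139 9 (.s k223 k239 3 (.s k155 k19 9 (.d k103 k119
  k51 3 13)))), (.s k69 k138 10 (.s k137 k205 9 (.s k70 k204 10 (.d k71 k68 k139 0 9))))] (.c k71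
  (.q k7 [(.s k15 k11 1 (.s k95 k175 11 (.s k91 k83 1 (.d k167 k247 k243 11 13)))), (.s k69 k138 10
  (.s k137 k205 9 (.s k70 k204 10 (.s k133 k196 8 (.s k5 k197 7 (.s k9 k13 1 (.d k6 k4 k12 0
  2)))))))] .n) (.c k139 (.l (.s k69 k138 10 (.s k137 k205 9 (.s k70 k204 10 (.s k71 k68 0 (.s k223
  k239 3 (.s k155 k19 9 (.d k103 k119 k51 3 13)))))))) .n)))))

def t85_39 : T TT 256 :=
  (.q k243 [(.s k1 k2 0 (.s k81 k162 12 (.s k161 k241 11 (.s k83 k163 11 (.d k82 k80 k240 0 12))))),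
  (.s k83 k163 11 (.s k87 k171 13 (.s k91 k95 1 (.s k167 k15 13 (.d k247 k251 k7 1 11)))))] (.c k80
  (.l (.s k2 k1 0 (.s k162 k81 12 (.s k82 k242 11 (.s k161 k240 12 (.d k163 k83 k160 11 0)))))) (.c
  k83 (.q k91 [(.s k171 k87 13 (.d k251 k247 k11 1 11)), (.s k1 k2 0 (.s k15 k167 13 (.s k5 k10 2
  (.s k9 k13 1 (.s k6 k12 2 (.d k7 k4 k11 0 1))))))] (.c k11 (.l (.s k87 k171 13 (.s k167 k15 13 (.d
  k247 k251 k7 1 11)))) .n)) (.c k163 (.q k91 [(.s k171 k87 13 (.d k251 k247 k11 1 11)), (.s k87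
  k171 13 (.s k95 k83 1 (.d k15 k175 k167 11 13)))] (.c k87 (.l (.s k251 k247 1 (.s k11 k171 11 (.d
  k15 k7 k167 1 13)))) (.c k171 (.l (.s k1 k2 0 (.s k81 k162 12 (.s k161 k241 11 (.s k82 k240 12 (.s
  k83 k80 0 (.s k95 k87 1 (.d k15 k175 k167 11 13)))))))) .n))) .n))))

def t85_40 : T TT 256 :=
  (.q k243 [(.s k1 k2 0 (.s k81 k162 12 (.s k161 k241 11 (.s k83 k163 11 (.d k82 k80 k240 0 12))))),
  (.s k83 k163 11 (.s k87 k171 13 (.s k91 k95 1 (.s k167 k15 13 (.d k247 k251 k7 1 11)))))] (.c k80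
  (.l (.s k2 k1 0 (.s k162 k81 12 (.s k82 k242 11 (.s k161 k240 12 (.d k163 k83 k160 11 0)))))) (.c
  k83 (.q k91 [(.s k171 k87 13 (.d k251 k247 k11 1 11)), (.s k1 k2 0 (.s k15 k167 13 (.s k5 k10 2
  (.s k9 k13 1 (.s k6 k12 2 (.d k7 k4 k11 0 1))))))] (.c k11 (.l (.s k87 k171 13 (.s k167 k15 13 (.d
  k247 k251 k7 1 11)))) .n)) (.c k163 (.q k91 [(.s k171 k87 13 (.d k251 k247 k11 1 11)), (.s k87
  k171 13 (.s k95 k83 1 (.d k15 k175 k167 11 13)))] (.c k87 (.l (.s k251 k247 1 (.s k11 k171 11 (.d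
  k15 k7 k167 1 13)))) (.c k171 (.l (.s k1 k2 0 (.s k81 k162 12 (.s k161 k241 11 (.s k82 k240 12 (.s
  k83 k80 0 (.s k95 k87 1 (.d k15 k175 k167 11 13)))))))) .n))) .n))))

def t85_41 : T TT 256 :=
  (.f k1 k2 0 (.f k87 k171 13 (.q k207 [(.s k71 k139 9 (.s k223 k239 3 (.s k155 k19 9 (.d k103 k119
  k51 3 13)))), (.s k69 k138 10 (.s k137 k205 9 (.s k70 k204 10 (.d k71 k68 k139 0 9))))] (.c k71
  (.q k7 [(.s k15 k11 1 (.s k95 k175 11 (.s k91 k83 1 (.d k167 k247 k243 11 13)))), (.s k69 k138 10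
  (.s k137 k205 9 (.s k70 k204 10 (.s k133 k196 8 (.s k5 k197 7 (.s k9 k13 1 (.d k6 k4 k12 0
  2)))))))] .n) (.c k139 (.l (.s k69 k138 10 (.s k137 k205 9 (.s k70 k204 10 (.s k71 k68 0 (.s k223
  k239 3 (.s k155 k19 9 (.d k103 k119 k51 3 13)))))))) .n)))))

def t85_42 : T TT 256 :=
  (.q k243 [(.s k1 k2 0 (.s k81 k162 12 (.s k161 k241 11 (.s k83 k163 11 (.d k82 k80 k240 0 12))))),
  (.s k83 k163 11 (.s k87 k171 13 (.s k91 k95 1 (.s k167 k15 13 (.d k247 k251 k7 1 11)))))] (.c k80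
  (.l (.s k2 k1 0 (.s k162 k81 12 (.s k82 k242 11 (.s k161 k240 12 (.d k163 k83 k160 11 0)))))) (.c
  k83 (.q k91 [(.s k171 k87 13 (.d k251 k247 k11 1 11)), (.s k1 k2 0 (.s k15 k167 13 (.s k5 k10 2
  (.s k9 k13 1 (.s k6 k12 2 (.d k7 k4 k11 0 1))))))] (.c k11 (.l (.s k87 k171 13 (.s k167 k15 13 (.d
  k247 k251 k7 1 11)))) .n)) (.c k163 (.q k91 [(.s k171 k87 13 (.d k251 k247 k11 1 11)), (.s k87
  k171 13 (.s k95 k83 1 (.d k15 k175 k167 11 13)))] (.c k87 (.l (.s k251 k247 1 (.s k11 k171 11 (.d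
  k15 k7 k167 1 13)))) (.c k171 (.l (.s k1 k2 0 (.s k81 k162 12 (.s k161 k241 11 (.s k82 k240 12 (.s
  k83 k80 0 (.s k95 k87 1 (.d k15 k175 k167 11 13)))))))) .n))) .n))))

def t85_43 : T TT 256 :=
  (.f k1 k2 0 (.q k243 [(.s k81 k162 12 (.s k161 k241 11 (.s k83 k163 11 (.d k82 k80 k240 0 12)))),
  (.s k83 k163 11 (.s k87 k171 13 (.s k247 k251 1 (.s k167 k7 11 (.d k91 k95 k15 1 13)))))] (.c k83
  (.q k12 [(.s k9 k6 2 (.s k5 k13 1 (.s k10 k15 2 (.d k8 k11 k4 0 1)))), (.s k4 k8 1 (.s k87 k171 13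
  (.s k247 k251 1 (.s k7 k167 11 (.d k6 k5 k9 0 2))))), (.s k81 k162 12 (.s k241 k161 11 (.s k89
  k166 14 (.s k13 k165 13 (.s k5 k9 1 (.d k15 k14 k10 0 2))))))] (.c k4 (.l (.s k81 k162 12 (.s k241
  k161 11 (.s k9 k6 2 (.s k89 k166 14 (.s k247 k251 1 (.d k13 k5 k165 1 13))))))) (.c k5 (.l (.s k8
  k4 1 (.s k87 k171 13 (.s k247 k251 1 (.s k9 k6 2 (.s k7 k167 11 (.d k11 k10 k15 0 1))))))) (.c k9
  (.l (.s k4 k8 1 (.s k87 k171 13 (.s k247 k251 1 (.s k7 k167 11 (.s k5 k6 0 (.d k15 k11 k10 1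
  2))))))) .n)))) (.c k163 (.f k87 k171 13 (.l (.s k81 k162 12 (.s k161 k241 11 (.s k82 k240 12 (.s
  k83 k80 0 (.s k247 k251 1 (.s k167 k7 11 (.d k91 k95 k15 1 13))))))))) .n))))

def t85_44 : T TT 256 :=
  (.f k1 k2 0 (.f k87 k171 13 (.q k207 [(.s k69 k138 10 (.s k137 k205 9 (.s k70 k204 10 (.d k71 k68
  k139 0 9)))), (.s k71 k139 9 (.s k223 k239 3 (.s k155 k19 9 (.d k103 k119 k51 3 13))))] (.c k71
  (.q k7 [(.s k15 k11 1 (.s k95 k175 11 (.s k91 k83 1 (.d k167 k247 k243 11 13)))), (.s k69 k138 10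
  (.s k137 k205 9 (.s k70 k204 10 (.s k133 k196 8 (.s k5 k197 7 (.s k9 k13 1 (.d k6 k4 k12 0
  2)))))))] .n) (.c k139 (.l (.s k69 k138 10 (.s k137 k205 9 (.s k70 k204 10 (.s k71 k68 0 (.s k223
  k239 3 (.s k155 k19 9 (.d k103 k119 k51 3 13)))))))) .n)))))

def t85_45 : T TT 256 :=
  (.q k243 [(.s k1 k2 0 (.s k81 k162 12 (.s k161 k241 11 (.s k83 k163 11 (.d k82 k80 k240 0 12))))),
  (.s k83 k163 11 (.s k87 k171 13 (.s k91 k95 1 (.s k167 k15 13 (.d k247 k251 k7 1 11)))))] (.c k80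
  (.l (.s k2 k1 0 (.s k162 k81 12 (.s k82 k242 11 (.s k161 k240 12 (.d k163 k83 k160 11 0)))))) (.c
  k83 (.q k91 [(.s k171 k87 13 (.d k251 k247 k11 1 11)), (.s k1 k2 0 (.s k15 k167 13 (.s k5 k10 2
  (.s k9 k13 1 (.s k6 k12 2 (.d k7 k4 k11 0 1))))))] (.c k11 (.l (.s k87 k171 13 (.s k167 k15 13 (.d
  k247 k251 k7 1 11)))) .n)) (.c k163 (.q k91 [(.s k171 k87 13 (.d k251 k247 k11 1 11)), (.s k87
  k171 13 (.s k95 k83 1 (.d k15 k175 k167 11 13)))] (.c k87 (.l (.s k251 k247 1 (.s k11 k171 11 (.d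
  k15 k7 k167 1 13)))) (.c k171 (.l (.s k1 k2 0 (.s k81 k162 12 (.s k161 k241 11 (.s k82 k240 12 (.s
  k83 k80 0 (.s k95 k87 1 (.d k15 k175 k167 11 13)))))))) .n))) .n))))

def t85_46 : T TT 256 :=
  (.q k243 [(.s k1 k2 0 (.s k81 k162 12 (.s k161 k241 11 (.s k83 k163 11 (.d k82 k80 k240 0 12))))),
  (.s k83 k163 11 (.s k87 k171 13 (.s k91 k95 1 (.s k167 k15 13 (.d k247 k251 k7 1 11)))))] (.c k12
  (.q k29 [(.s k1 k2 0 (.s k81 k162 12 (.s k161 k241 11 (.s k83 k163 11 (.d k82 k80 k240 0 12))))),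
  (.s k83 k163 11 (.s k87 k171 13 (.s k91 k95 1 (.s k167 k15 13 (.d k247 k251 k7 1 11)))))] (.c k80
  (.l (.s k2 k1 0 (.s k162 k81 12 (.s k82 k242 11 (.s k161 k240 12 (.d k163 k83 k160 11 0)))))) (.c
  k83 (.q k89 [(.s k2 k1 0 (.s k251 k247 1 (.s k170 k8 12 (.s k86 k254 13 (.s k169 k252 14 (.d k171
  k168 k87 0 13)))))), (.s k81 k162 12 (.s k209 k149 9 (.s k145 k17 7 (.s k192 k226 4 (.s k98 k51 12
  (.d k64 k115 k128 4 7))))))] (.c k166 (.l (.s k1 k2 0 (.s k81 k162 12 (.s k161 k241 11 (.s k209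
  k149 9 (.s k145 k17 7 (.s k129 k177 3 (.d k192 k226 k66 4 8)))))))) .n)) (.c k163 (.q k89 [(.s k2
  k1 0 (.s k171 k87 13 (.s k251 k247 1 (.s k170 k8 12 (.s k86 k254 13 (.d k169 k168 k252 0 14)))))),
  (.s k81 k162 12 (.s k209 k149 9 (.s k145 k17 7 (.s k192 k226 4 (.s k98 k51 12 (.d k64 k115 k128 4
  7))))))] (.c k166 (.l (.s k1 k2 0 (.s k81 k162 12 (.s k161 k241 11 (.s k209 k149 9 (.s k145 k17 7
  (.s k129 k177 3 (.d k192 k226 k66 4 8)))))))) .n)) .n)))) (.c k29 (.q k12 [(.s k1 k2 0 (.s k81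
  k162 12 (.s k161 k241 11 (.s k82 k240 12 (.d k83 k80 k163 0 11))))), (.s k4 k8 1 (.s k6 k9 2 (.s
  k87 k171 13 (.s k247 k251 1 (.d k7 k5 k167 0 11)))))] .n) (.c k80 (.l (.s k2 k1 0 (.s k162 k81 12
  (.s k82 k242 11 (.s k161 k240 12 (.d k163 k83 k160 11 0)))))) (.c k83 (.q k12 [(.s k1 k2 0 (.s k9
  k6 2 (.s k5 k13 1 (.s k10 k15 2 (.d k8 k11 k4 0 1))))), (.s k4 k8 1 (.s k87 k171 13 (.s k247 k251
  1 (.s k7 k167 11 (.d k6 k5 k9 0 2))))), (.s k1 k2 0 (.s k81 k162 12 (.s k241 k161 11 (.s k89 k166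
  14 (.s k13 k165 13 (.s k5 k9 1 (.d k15 k14 k10 0 2)))))))] (.c k4 (.l (.s k2 k1 0 (.s k6 k9 2 (.s
  k14 k10 1 (.s k166 k89 14 (.s k242 k90 13 (.d k162 k81 k82 12 11))))))) (.c k5 (.l (.s k8 k4 1 (.s
  k87 k171 13 (.s k247 k251 1 (.s k9 k6 2 (.s k7 k167 11 (.d k11 k10 k15 0 1))))))) (.c k9 (.l (.s
  k4 k8 1 (.s k87 k171 13 (.s k247 k251 1 (.s k7 k167 11 (.s k5 k6 0 (.d k15 k11 k10 1 2)))))))
  .n)))) (.c k163 (.q k12 [(.s k1 k2 0 (.s k9 k6 2 (.s k5 k13 1 (.s k10 k15 2 (.d k8 k11 k4 0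
  1))))), (.s k9 k6 2 (.s k171 k87 13 (.s k251 k247 1 (.s k11 k91 11 (.d k8 k4 k10 1 0))))), (.s k2
  k1 0 (.s k6 k9 2 (.s k166 k89 14 (.s k86 k246 11 (.s k170 k254 13 (.d k162 k81 k174 12 1))))))]
  (.c k6 (.l (.s k8 k4 1 (.s k171 k87 13 (.s k166 k89 14 (.s k251 k247 1 (.s k11 k91 11 (.s k10 k9 0
  (.d k15 k7 k5 1 2)))))))) (.c k9 (.q k91 [(.s k171 k87 13 (.d k251 k247 k11 1 11)), (.s k1 k2 0
  (.s k81 k162 12 (.s k161 k241 11 (.s k89 k166 14 (.s k88 k90 0 (.d k240 k82 k164 12 13))))))] (.c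
  k247 (.l (.s k87 k171 13 (.s k95 k83 1 (.d k15 k175 k167 11 13)))) .n)) .n))) .n))))))

def t85_47 : T TT 256 :=
  (.f k1 k2 0 (.f k87 k171 13 (.q k15 [(.s k5 k10 2 (.s k9 k13 1 (.s k6 k12 2 (.d k7 k4 k11 0 1)))),
  (.s k7 k11 1 (.s k95 k175 11 (.s k91 k83 1 (.d k167 k247 k243 11 13))))] (.c k7 (.q k207 [(.s k69
  k138 10 (.s k137 k205 9 (.s k70 k204 10 (.d k71 k68 k139 0 9)))), (.s k71 k139 9 (.s k223 k239 3
  (.s k155 k19 9 (.d k103 k119 k51 3 13)))), (.s k5 k10 2 (.s k69 k138 10 (.s k133 k197 7 (.s k74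
  k192 10 (.d k79 k64 k143 2 7)))))] .n) (.c k11 (.l (.s k5 k10 2 (.s k9 k13 1 (.s k6 k12 2 (.s k7
  k4 0 (.s k95 k175 11 (.s k91 k83 1 (.d k167 k247 k243 11 13)))))))) .n)))))

def t85_48 : T TT 256 :=
  (.f k87 k171 13 (.f k1 k2 0 (.q k15 [(.s k7 k11 1 (.s k95 k175 11 (.s k91 k83 1 (.d k167 k247 k243
  11 13)))), (.s k5 k10 2 (.s k9 k13 1 (.s k6 k12 2 (.d k7 k4 k11 0 1))))] (.c k7 (.q k243 [(.s k83
  k163 11 (.d k91 k167 k95 13 1)), (.s k5 k10 2 (.s k81 k162 12 (.s k13 k9 1 (.s k241 k161 11 (.s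
  k89 k165 13 (.d k12 k14 k166 0 14))))))] (.c k53 (.q k58 [(.s k83 k163 11 (.d k91 k167 k95 13 1)),
  (.s k5 k10 2 (.s k81 k162 12 (.s k13 k9 1 (.s k241 k161 11 (.s k89 k165 13 (.d k12 k14 k166 0
  14))))))] (.c k163 (.l (.s k81 k162 12 (.s k161 k241 11 (.s k82 k240 12 (.s k83 k80 0 (.d k91 k95
  k167 1 13)))))) .n)) (.c k58 (.q k53 [(.s k83 k163 11 (.d k91 k167 k95 13 1)), (.s k5 k10 2 (.s
  k81 k162 12 (.s k13 k9 1 (.s k241 k161 11 (.s k89 k165 13 (.d k12 k14 k166 0 14))))))] (.c k163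
  (.l (.s k81 k162 12 (.s k161 k241 11 (.s k82 k240 12 (.s k83 k80 0 (.d k91 k95 k167 1 13))))))
  .n)) (.c k163 (.l (.s k81 k162 12 (.s k161 k241 11 (.s k82 k240 12 (.s k83 k80 0 (.d k91 k95 k167
  1 13)))))) .n)))) (.c k11 (.l (.s k5 k10 2 (.s k9 k13 1 (.s k6 k12 2 (.s k7 k4 0 (.s k95 k175 11
  (.s k91 k83 1 (.d k167 k247 k243 11 13)))))))) (.c k53 (.q k58 [(.s k7 k11 1 (.s k95 k175 11 (.s
  k91 k83 1 (.d k167 k247 k243 11 13)))), (.s k5 k10 2 (.s k9 k13 1 (.s k6 k12 2 (.d k7 k4 k11 0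
  1))))] (.c k7 (.q k243 [(.s k83 k163 11 (.d k91 k167 k95 13 1)), (.s k5 k10 2 (.s k81 k162 12 (.s
  k13 k9 1 (.s k241 k161 11 (.s k89 k165 13 (.d k12 k14 k166 0 14))))))] (.c k163 (.l (.s k81 k162
  12 (.s k161 k241 11 (.s k82 k240 12 (.s k83 k80 0 (.d k91 k95 k167 1 13)))))) .n)) (.c k11 (.l (.s
  k5 k10 2 (.s k9 k13 1 (.s k6 k12 2 (.s k7 k4 0 (.s k95 k175 11 (.s k91 k83 1 (.d k167 k247 k243 11
  13)))))))) .n))) (.c k58 (.q k53 [(.s k7 k11 1 (.s k95 k175 11 (.s k91 k83 1 (.d k167 k247 k243 11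
  13)))), (.s k5 k10 2 (.s k9 k13 1 (.s k6 k12 2 (.d k7 k4 k11 0 1))))] (.c k7 (.q k243 [(.s k83
  k163 11 (.d k91 k167 k95 13 1)), (.s k5 k10 2 (.s k81 k162 12 (.s k13 k9 1 (.s k241 k161 11 (.s
  k89 k165 13 (.d k12 k14 k166 0 14))))))] (.c k163 (.l (.s k81 k162 12 (.s k161 k241 11 (.s k82
  k240 12 (.s k83 k80 0 (.d k91 k95 k167 1 13)))))) .n)) (.c k11 (.l (.s k5 k10 2 (.s k9 k13 1 (.s
  k6 k12 2 (.s k7 k4 0 (.s k95 k175 11 (.s k91 k83 1 (.d k167 k247 k243 11 13)))))))) .n)))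
  .n)))))))

def t85_49 : T TT 256 :=
  (.f k1 k2 0 (.f k87 k171 13 (.q k15 [(.s k7 k11 1 (.s k95 k175 11 (.s k91 k83 1 (.d k167 k247 k243
  11 13)))), (.s k5 k10 2 (.s k9 k13 1 (.s k6 k12 2 (.d k7 k4 k11 0 1))))] (.c k7 (.q k207 [(.s k71
  k139 9 (.s k223 k239 3 (.s k155 k19 9 (.d k103 k119 k51 3 13)))), (.s k5 k10 2 (.s k69 k138 10 (.s
  k133 k197 7 (.s k74 k192 10 (.d k79 k64 k143 2 7)))))] .n) (.c k11 (.l (.s k5 k10 2 (.s k9 k13 1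
  (.s k6 k12 2 (.s k7 k4 0 (.s k95 k175 11 (.s k91 k83 1 (.d k167 k247 k243 11 13)))))))) .n)))))

def t85_50 : T TT 256 :=
  (.f k87 k171 13 (.q k243 [(.s k83 k163 11 (.s k247 k251 1 (.s k167 k7 11 (.d k91 k95 k15 1 13)))),
  (.s k1 k2 0 (.s k81 k162 12 (.s k161 k241 11 (.s k82 k240 12 (.d k83 k80 k163 0 11)))))] (.c k83
  (.q k12 [(.s k4 k8 1 (.s k6 k9 2 (.s k247 k251 1 (.d k7 k5 k167 0 11)))), (.s k1 k2 0 (.s k9 k6 2
  (.s k5 k13 1 (.s k10 k15 2 (.d k8 k11 k4 0 1))))), (.s k1 k2 0 (.s k81 k162 12 (.s k241 k161 11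
  (.s k89 k166 14 (.s k13 k165 13 (.s k5 k9 1 (.d k15 k14 k10 0 2)))))))] (.c k4 (.l (.s k1 k2 0 (.s
  k9 k6 2 (.s k5 k13 1 (.s k247 k251 1 (.s k7 k167 11 (.d k15 k11 k10 1 2))))))) (.c k5 (.l (.s k8
  k4 1 (.s k247 k251 1 (.s k9 k6 2 (.s k7 k167 11 (.d k11 k10 k15 0 1)))))) (.c k9 (.l (.s k4 k8 1
  (.s k247 k251 1 (.s k7 k167 11 (.s k5 k6 0 (.d k15 k11 k10 1 2)))))) (.c k10 (.l (.s k4 k8 1 (.s
  k247 k251 1 (.s k7 k167 11 (.d k6 k9 k5 2 0))))) .n))))) (.c k163 (.f k1 k2 0 (.l (.s k81 k162 12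
  (.s k161 k241 11 (.s k82 k240 12 (.s k83 k80 0 (.s k247 k251 1 (.s k167 k7 11 (.d k91 k95 k15 1
  13))))))))) .n))))

def t85_51 : T TT 256 :=
  (.f k1 k2 0 (.q k7 [(.s k15 k11 1 (.s k5 k10 2 (.s k9 k13 1 (.d k6 k4 k12 0 2)))), (.s k87 k171 13
  (.s k247 k167 11 (.s k243 k251 1 (.s k81 k162 12 (.s k161 k241 11 (.s k82 k240 12 (.d k83 k163 k80
  11 0)))))))] (.c k11 (.q k15 [(.s k5 k10 2 (.s k9 k13 1 (.d k6 k4 k12 0 2))), (.s k87 k171 13 (.s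
  k95 k175 11 (.s k91 k83 1 (.d k167 k247 k243 11 13))))] (.c k55 (.q k59 [(.s k5 k10 2 (.s k9 k13 1
  (.d k6 k4 k12 0 2))), (.s k87 k171 13 (.s k95 k175 11 (.s k91 k83 1 (.d k167 k247 k243 11 13))))]
  .n) (.c k59 (.q k55 [(.s k5 k10 2 (.s k9 k13 1 (.d k6 k4 k12 0 2))), (.s k87 k171 13 (.s k95 k175
  11 (.s k91 k83 1 (.d k167 k247 k243 11 13))))] (.c k27 (.q k43 [(.s k5 k10 2 (.s k9 k13 1 (.d k6
  k4 k12 0 2))), (.s k87 k171 13 (.s k95 k175 11 (.s k91 k83 1 (.d k167 k247 k243 11 13))))] .n) (.c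
  k43 (.q k27 [(.s k5 k10 2 (.s k9 k13 1 (.d k6 k4 k12 0 2))), (.s k87 k171 13 (.s k95 k175 11 (.s
  k91 k83 1 (.d k167 k247 k243 11 13))))] .n) .n))) .n))) (.c k55 (.q k59 [(.s k15 k11 1 (.s k5 k10
  2 (.s k9 k13 1 (.d k6 k4 k12 0 2)))), (.s k87 k171 13 (.s k247 k167 11 (.s k243 k251 1 (.s k81
  k162 12 (.s k161 k241 11 (.s k82 k240 12 (.d k83 k163 k80 11 0)))))))] (.c k11 (.q k15 [(.s k5 k10
  2 (.s k9 k13 1 (.d k6 k4 k12 0 2))), (.s k87 k171 13 (.s k95 k175 11 (.s k91 k83 1 (.d k167 k247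
  k243 11 13))))] .n) .n)) (.c k59 (.q k55 [(.s k15 k11 1 (.s k5 k10 2 (.s k9 k13 1 (.d k6 k4 k12 0
  2)))), (.s k87 k171 13 (.s k39 k23 3 (.s k167 k247 11 (.s k103 k231 7 (.s k199 k151 11 (.d k71
  k119 k135 3 7))))))] (.c k4 (.l (.s k15 k11 1 (.s k87 k171 13 (.s k95 k175 11 (.s k91 k83 1 (.d
  k167 k247 k243 11 13)))))) .n)) .n)))))

def t85_52 : T TT 256 :=
  (.f k87 k171 13 (.f k1 k2 0 (.q k243 [(.s k81 k162 12 (.s k161 k241 11 (.s k82 k240 12 (.d k83 k80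
  k163 0 11)))), (.s k83 k163 11 (.s k247 k251 1 (.s k167 k7 11 (.d k91 k95 k15 1 13))))] (.c k83
  (.q k18 [(.s k33 k48 4 (.s k17 k49 3 (.s k51 k34 4 (.d k19 k16 k35 0 3)))), (.s k81 k162 12 (.s
  k161 k241 11 (.s k82 k240 12 (.s k146 k210 7 (.s k211 k16 8 (.s k195 k227 3 (.d k131 k176 k67 4
  7)))))))] (.c k16 (.l (.s k48 k33 4 (.s k178 k113 8 (.s k186 k117 10 (.s k182 k190 1 (.s k121 k60
  10 (.d k251 k247 k56 1 8))))))) .n)) (.c k163 (.l (.s k81 k162 12 (.s k161 k241 11 (.s k82 k240 12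
  (.s k83 k80 0 (.s k247 k251 1 (.s k167 k7 11 (.d k91 k95 k15 1 13)))))))) .n)))))

def t85_53 : T TT 256 :=
  (.f k87 k171 13 (.f k1 k2 0 (.q k243 [(.s k83 k163 11 (.s k247 k251 1 (.s k167 k7 11 (.d k91 k95
  k15 1 13)))), (.s k81 k162 12 (.s k161 k241 11 (.s k82 k240 12 (.d k83 k80 k163 0 11))))] (.c k48
  (.q k58 [(.s k83 k163 11 (.s k247 k251 1 (.s k167 k7 11 (.d k91 k95 k15 1 13)))), (.s k81 k162 12
  (.s k161 k241 11 (.s k82 k240 12 (.d k83 k80 k163 0 11))))] (.c k83 (.q k15 [(.s k7 k11 1 (.d k167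
  k91 k247 13 11)), (.s k5 k10 2 (.s k81 k162 12 (.s k13 k9 1 (.s k241 k161 11 (.s k89 k165 13 (.d
  k12 k14 k166 0 14))))))] (.c k11 (.l (.s k5 k10 2 (.s k9 k13 1 (.s k6 k12 2 (.s k7 k4 0 (.d k167
  k247 k91 11 13)))))) .n)) (.c k163 (.l (.s k81 k162 12 (.s k161 k241 11 (.s k82 k240 12 (.s k83
  k80 0 (.s k247 k251 1 (.s k167 k7 11 (.d k91 k95 k15 1 13)))))))) .n))) (.c k58 (.q k48 [(.s k81
  k162 12 (.s k161 k241 11 (.s k82 k240 12 (.d k83 k80 k163 0 11)))), (.s k32 k16 3 (.s k33 k18 4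
  (.s k17 k49 3 (.d k34 k35 k51 0 4))))] .n) (.c k83 (.q k48 [(.s k33 k18 4 (.s k17 k49 3 (.s k34
  k51 4 (.d k32 k35 k16 0 3)))), (.s k16 k32 3 (.s k81 k162 12 (.s k146 k211 8 (.s k97 k195 12 (.d
  k113 k65 k178 3 8))))), (.s k81 k162 12 (.s k161 k241 11 (.s k33 k18 4 (.s k97 k225 7 (.d k113 k65
  k178 3 8)))))] .n) (.c k163 (.l (.s k81 k162 12 (.s k161 k241 11 (.s k82 k240 12 (.s k83 k80 0 (.s
  k247 k251 1 (.s k167 k7 11 (.d k91 k95 k15 1 13)))))))) .n)))))))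

def t85_54 : T TT 256 :=
  (.f k87 k171 13 (.f k1 k2 0 (.q k243 [(.s k83 k163 11 (.s k247 k251 1 (.s k167 k7 11 (.d k91 k95
  k15 1 13)))), (.s k81 k162 12 (.s k161 k241 11 (.s k82 k240 12 (.d k83 k80 k163 0 11))))] (.c k83
  (.q k18 [(.s k33 k48 4 (.s k17 k49 3 (.s k51 k34 4 (.d k19 k16 k35 0 3)))), (.s k81 k162 12 (.s
  k161 k241 11 (.s k82 k240 12 (.s k146 k210 7 (.s k211 k16 8 (.s k195 k227 3 (.d k131 k176 k67 4
  7)))))))] (.c k16 (.l (.s k48 k33 4 (.s k113 k178 8 (.s k117 k186 10 (.s k121 k125 1 (.s k182 k60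
  10 (.d k247 k251 k52 1 8))))))) .n)) (.c k163 (.l (.s k81 k162 12 (.s k161 k241 11 (.s k82 k240 12
  (.s k83 k80 0 (.s k247 k251 1 (.s k167 k7 11 (.d k91 k95 k15 1 13)))))))) .n)))))

def t85_55 : T TT 256 :=
  (.f k87 k171 13 (.f k1 k2 0 (.q k51 [(.s k19 k35 3 (.s k119 k187 9 (.s k103 k71 3 (.d k155 k223
  k207 9 13)))), (.s k17 k34 4 (.s k33 k49 3 (.s k18 k48 4 (.d k19 k16 k35 0 3))))] (.c k19 (.q k243
  [(.s k81 k162 12 (.s k161 k241 11 (.s k82 k240 12 (.d k83 k80 k163 0 11)))), (.s k83 k163 11 (.s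
  k247 k251 1 (.s k167 k7 11 (.d k91 k95 k15 1 13)))), (.s k17 k34 4 (.s k81 k162 12 (.s k145 k209 7
  (.s k98 k192 12 (.d k115 k64 k179 4 7)))))] .n) (.c k35 (.l (.s k17 k34 4 (.s k33 k49 3 (.s k18
  k48 4 (.s k19 k16 0 (.s k119 k187 9 (.s k103 k71 3 (.d k155 k223 k207 9 13)))))))) .n)))))

def t85_56 : T TT 256 :=
  (.f k87 k171 13 (.f k1 k2 0 (.q k243 [(.s k81 k162 12 (.s k161 k241 11 (.s k82 k240 12 (.d k83 k80
  k163 0 11)))), (.s k83 k163 11 (.s k247 k251 1 (.s k167 k7 11 (.d k91 k95 k15 1 13))))] (.c k83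
  (.q k18 [(.s k33 k48 4 (.s k17 k49 3 (.s k51 k34 4 (.d k19 k16 k35 0 3)))), (.s k81 k162 12 (.s
  k161 k241 11 (.s k82 k240 12 (.s k146 k210 7 (.s k211 k16 8 (.s k195 k227 3 (.d k131 k176 k67 4
  7)))))))] (.c k16 (.l (.s k48 k33 4 (.s k113 k178 8 (.s k117 k186 10 (.s k121 k125 1 (.s k182 k60
  10 (.d k247 k251 k52 1 8))))))) .n)) (.c k163 (.l (.s k81 k162 12 (.s k161 k241 11 (.s k82 k240 12
  (.s k83 k80 0 (.s k247 k251 1 (.s k167 k7 11 (.d k91 k95 k15 1 13)))))))) .n)))))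

def t85_57 : T TT 256 :=
  (.f k1 k2 0 (.q k7 [(.s k15 k11 1 (.s k5 k10 2 (.s k9 k13 1 (.d k6 k4 k12 0 2)))), (.s k87 k171 13
  (.s k247 k167 11 (.s k243 k251 1 (.s k81 k162 12 (.s k161 k241 11 (.s k82 k240 12 (.d k83 k163 k80
  11 0)))))))] (.c k11 (.q k15 [(.s k5 k10 2 (.s k9 k13 1 (.d k6 k4 k12 0 2))), (.s k87 k171 13 (.s
  k95 k175 11 (.s k91 k83 1 (.d k167 k247 k243 11 13))))] .n) .n)))

def t85_58 : T TT 256 :=
  (.f k1 k2 0 (.f k87 k171 13 (.q k207 [(.s k71 k139 9 (.s k223 k239 3 (.s k155 k19 9 (.d k103 k119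
  k51 3 13)))), (.s k69 k138 10 (.s k137 k205 9 (.s k70 k204 10 (.d k71 k68 k139 0 9))))] (.c k48
  (.q k53 [(.s k71 k139 9 (.s k223 k239 3 (.s k155 k19 9 (.d k103 k119 k51 3 13)))), (.s k69 k138 10
  (.s k137 k205 9 (.s k70 k204 10 (.d k71 k68 k139 0 9))))] (.c k71 (.q k7 [(.s k15 k11 1 (.s k95
  k175 11 (.s k91 k83 1 (.d k167 k247 k243 11 13)))), (.s k69 k138 10 (.s k137 k205 9 (.s k70 k204
  10 (.s k133 k196 8 (.s k5 k197 7 (.s k9 k13 1 (.d k6 k4 k12 0 2)))))))] .n) (.c k139 (.l (.s k69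
  k138 10 (.s k137 k205 9 (.s k70 k204 10 (.s k71 k68 0 (.s k223 k239 3 (.s k155 k19 9 (.d k103 k119
  k51 3 13)))))))) .n))) (.c k53 (.q k48 [(.s k69 k138 10 (.s k137 k205 9 (.s k70 k204 10 (.d k71
  k68 k139 0 9)))), (.s k16 k32 3 (.s k18 k33 4 (.s k19 k17 0 (.d k223 k239 k155 3 9))))] .n) (.c
  k71 (.q k48 [(.s k33 k18 4 (.s k17 k49 3 (.s k34 k51 4 (.d k32 k35 k16 0 3)))), (.s k16 k32 3 (.s
  k223 k239 3 (.s k19 k155 9 (.d k18 k17 k33 0 4)))), (.s k69 k138 10 (.s k205 k137 9 (.s k101 k154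
  14 (.s k49 k153 13 (.s k17 k33 3 (.d k51 k50 k34 0 4))))))] (.c k16 (.l (.s k33 k18 4 (.s k17 k49
  3 (.s k223 k239 3 (.s k19 k155 9 (.d k51 k35 k34 3 4)))))) (.c k17 (.l (.s k32 k16 3 (.s k223 k239
  3 (.s k33 k18 4 (.s k19 k155 9 (.d k35 k34 k51 0 3)))))) (.c k33 (.l (.s k16 k32 3 (.s k223 k239 3
  (.s k19 k155 9 (.s k17 k18 0 (.d k51 k35 k34 3 4)))))) .n)))) (.c k139 (.l (.s k69 k138 10 (.s
  k137 k205 9 (.s k70 k204 10 (.s k71 k68 0 (.s k223 k239 3 (.s k155 k19 9 (.d k103 k119 k51 3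
  13)))))))) .n)))))))

def t85_59 : T TT 256 :=
  (.f k1 k2 0 (.f k87 k171 13 (.q k51 [(.s k17 k34 4 (.s k33 k49 3 (.s k18 k48 4 (.d k19 k16 k35 0
  3)))), (.s k19 k35 3 (.s k119 k187 9 (.s k103 k71 3 (.d k155 k223 k207 9 13))))] (.c k19 (.q k243
  [(.s k81 k162 12 (.s k161 k241 11 (.s k82 k240 12 (.d k83 k80 k163 0 11)))), (.s k83 k163 11 (.s
  k247 k251 1 (.s k167 k7 11 (.d k91 k95 k15 1 13)))), (.s k17 k34 4 (.s k81 k162 12 (.s k145 k209 7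
  (.s k98 k192 12 (.d k115 k64 k179 4 7)))))] .n) (.c k35 (.l (.s k17 k34 4 (.s k33 k49 3 (.s k18
  k48 4 (.s k19 k16 0 (.s k119 k187 9 (.s k103 k71 3 (.d k155 k223 k207 9 13)))))))) .n)))))

def t85_60 : T TT 256 :=
  (.f k87 k171 13 (.f k1 k2 0 (.q k243 [(.s k83 k163 11 (.s k247 k251 1 (.s k167 k7 11 (.d k91 k95
  k15 1 13)))), (.s k81 k162 12 (.s k161 k241 11 (.s k82 k240 12 (.d k83 k80 k163 0 11))))] (.c k61
  (.q k62 [(.s k83 k163 11 (.s k247 k251 1 (.s k167 k7 11 (.d k91 k95 k15 1 13)))), (.s k81 k162 12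
  (.s k161 k241 11 (.s k82 k240 12 (.d k83 k80 k163 0 11))))] (.c k83 (.q k51 [(.s k19 k35 3 (.s
  k119 k187 9 (.s k103 k71 3 (.d k155 k223 k207 9 13)))), (.s k17 k34 4 (.s k81 k162 12 (.s k145
  k209 7 (.s k98 k192 12 (.d k115 k64 k179 4 7)))))] .n) (.c k163 (.l (.s k81 k162 12 (.s k161 k241
  11 (.s k82 k240 12 (.s k83 k80 0 (.s k247 k251 1 (.s k167 k7 11 (.d k91 k95 k15 1 13)))))))) .n)))
  (.c k62 (.q k61 [(.s k83 k163 11 (.s k247 k251 1 (.s k167 k7 11 (.d k91 k95 k15 1 13)))), (.s k81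
  k162 12 (.s k161 k241 11 (.s k82 k240 12 (.d k83 k80 k163 0 11))))] (.c k22 (.q k42 [(.s k81 k162
  12 (.s k161 k241 11 (.s k83 k163 11 (.d k82 k80 k240 0 12)))), (.s k83 k163 11 (.s k247 k251 1 (.s
  k167 k7 11 (.d k91 k95 k15 1 13)))), (.s k81 k162 12 (.s k161 k241 11 (.s k82 k240 12 (.d k83 k80
  k163 0 11))))] (.c k83 (.q k51 [(.s k17 k34 4 (.s k33 k49 3 (.s k19 k35 3 (.d k18 k16 k48 0 4)))),
  (.s k34 k17 4 (.s k41 k21 5 (.s k38 k46 1 (.d k35 k44 k19 2 3)))), (.s k19 k35 3 (.s k155 k223 9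
  (.s k103 k207 13 (.d k119 k71 k187 3 9)))), (.s k17 k34 4 (.s k81 k162 12 (.s k145 k209 7 (.s k98
  k192 12 (.d k115 k64 k179 4 7)))))] .n) (.c k163 (.l (.s k81 k162 12 (.s k161 k241 11 (.s k82 k240
  12 (.s k83 k80 0 (.s k247 k251 1 (.s k167 k7 11 (.d k91 k95 k15 1 13)))))))) .n))) (.c k42 (.q k22
  [(.s k83 k163 11 (.s k247 k251 1 (.s k167 k7 11 (.d k91 k95 k15 1 13)))), (.s k81 k162 12 (.s k161
  k241 11 (.s k82 k240 12 (.d k83 k80 k163 0 11))))] (.c k83 (.l (.s k21 k41 5 (.s k247 k251 1 (.s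
  k7 k167 11 (.s k37 k52 4 (.s k5 k53 3 (.d k15 k11 k10 1 2))))))) (.c k163 (.l (.s k81 k162 12 (.s
  k161 k241 11 (.s k82 k240 12 (.s k83 k80 0 (.s k247 k251 1 (.s k167 k7 11 (.d k91 k95 k15 1
  13)))))))) .n))) (.c k83 (.q k51 [(.s k19 k35 3 (.s k119 k187 9 (.s k103 k71 3 (.d k155 k223 k207
  9 13)))), (.s k17 k34 4 (.s k81 k162 12 (.s k145 k209 7 (.s k98 k192 12 (.d k115 k64 k179 4
  7)))))] (.c k22 (.q k42 [(.s k17 k34 4 (.s k33 k49 3 (.s k19 k35 3 (.d k18 k16 k48 0 4)))), (.s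
  k34 k17 4 (.s k41 k21 5 (.s k38 k46 1 (.d k35 k44 k19 2 3)))), (.s k19 k35 3 (.s k155 k223 9 (.s
  k103 k207 13 (.d k119 k71 k187 3 9)))), (.s k17 k34 4 (.s k81 k162 12 (.s k145 k209 7 (.s k98 k192
  12 (.d k115 k64 k179 4 7)))))] .n) (.c k42 (.q k22 [(.s k17 k34 4 (.s k33 k49 3 (.s k19 k35 3 (.d
  k18 k16 k48 0 4)))), (.s k19 k35 3 (.s k155 k223 9 (.s k103 k207 13 (.d k119 k71 k187 3 9)))), (.s
  k17 k34 4 (.s k81 k162 12 (.s k145 k209 7 (.s k98 k192 12 (.d k115 k64 k179 4 7)))))] .n) .n)))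
  (.c k163 (.l (.s k81 k162 12 (.s k161 k241 11 (.s k82 k240 12 (.s k83 k80 0 (.s k247 k251 1 (.s
  k167 k7 11 (.d k91 k95 k15 1 13)))))))) .n))))) (.c k83 (.q k51 [(.s k19 k35 3 (.s k119 k187 9 (.s
  k103 k71 3 (.d k155 k223 k207 9 13)))), (.s k17 k34 4 (.s k81 k162 12 (.s k145 k209 7 (.s k98 k192
  12 (.d k115 k64 k179 4 7)))))] (.c k61 (.q k62 [(.s k19 k35 3 (.s k119 k187 9 (.s k103 k71 3 (.d
  k155 k223 k207 9 13)))), (.s k17 k34 4 (.s k81 k162 12 (.s k145 k209 7 (.s k98 k192 12 (.d k115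
  k64 k179 4 7)))))] .n) (.c k62 (.q k61 [(.s k19 k35 3 (.s k119 k187 9 (.s k103 k71 3 (.d k155 k223
  k207 9 13)))), (.s k17 k34 4 (.s k81 k162 12 (.s k145 k209 7 (.s k98 k192 12 (.d k115 k64 k179 4
  7)))))] (.c k22 (.q k42 [(.s k17 k34 4 (.s k33 k49 3 (.s k19 k35 3 (.d k18 k16 k48 0 4)))), (.s
  k34 k17 4 (.s k41 k21 5 (.s k38 k46 1 (.d k35 k44 k19 2 3)))), (.s k19 k35 3 (.s k155 k223 9 (.s
  k103 k207 13 (.d k119 k71 k187 3 9)))), (.s k17 k34 4 (.s k81 k162 12 (.s k145 k209 7 (.s k98 k192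
  12 (.d k115 k64 k179 4 7)))))] .n) (.c k42 (.q k22 [(.s k17 k34 4 (.s k33 k49 3 (.s k19 k35 3 (.d
  k18 k16 k48 0 4)))), (.s k19 k35 3 (.s k155 k223 9 (.s k103 k207 13 (.d k119 k71 k187 3 9)))), (.s
  k17 k34 4 (.s k81 k162 12 (.s k145 k209 7 (.s k98 k192 12 (.d k115 k64 k179 4 7)))))] .n) .n)))
  .n))) (.c k163 (.l (.s k81 k162 12 (.s k161 k241 11 (.s k82 k240 12 (.s k83 k80 0 (.s k247 k251 1
  (.s k167 k7 11 (.d k91 k95 k15 1 13)))))))) .n)))))))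

def t85_61 : T TT 256 :=
  (.f k1 k2 0 (.f k87 k171 13 (.q k243 [(.s k83 k163 11 (.s k247 k251 1 (.s k167 k7 11 (.d k91 k95
  k15 1 13)))), (.s k81 k162 12 (.s k161 k241 11 (.s k82 k240 12 (.d k83 k80 k163 0 11))))] (.c k60
  (.q k62 [(.s k83 k163 11 (.s k247 k251 1 (.s k167 k7 11 (.d k91 k95 k15 1 13)))), (.s k81 k162 12
  (.s k161 k241 11 (.s k82 k240 12 (.d k83 k80 k163 0 11))))] (.c k83 (.q k51 [(.s k19 k35 3 (.s
  k119 k187 9 (.s k103 k71 3 (.d k155 k223 k207 9 13)))), (.s k17 k34 4 (.s k81 k162 12 (.s k145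
  k209 7 (.s k98 k192 12 (.d k115 k64 k179 4 7)))))] .n) (.c k163 (.l (.s k81 k162 12 (.s k161 k241
  11 (.s k82 k240 12 (.s k83 k80 0 (.s k247 k251 1 (.s k167 k7 11 (.d k91 k95 k15 1 13)))))))) .n)))
  (.c k62 (.q k60 [(.s k83 k163 11 (.s k247 k251 1 (.s k167 k7 11 (.d k91 k95 k15 1 13)))), (.s k81
  k162 12 (.s k161 k241 11 (.s k82 k240 12 (.d k83 k80 k163 0 11)))), (.s k22 k41 6 (.s k182 k121 10
  (.s k247 k251 1 (.s k52 k117 8 (.d k7 k37 k167 4 11)))))] (.c k22 (.q k42 [(.s k81 k162 12 (.s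
  k161 k241 11 (.s k82 k240 12 (.d k83 k80 k163 0 11)))), (.s k83 k163 11 (.s k247 k251 1 (.s k167
  k7 11 (.d k91 k95 k15 1 13)))), (.s k121 k182 10 (.s k125 k190 8 (.s k117 k113 1 (.s k186 k48 10
  (.d k251 k247 k56 1 8)))))] .n) (.c k42 (.l (.s k22 k41 6 (.s k81 k162 12 (.s k161 k241 11 (.s k82
  k240 12 (.d k83 k80 k163 0 11)))))) .n))) (.c k83 (.q k51 [(.s k19 k35 3 (.s k119 k187 9 (.s k103
  k71 3 (.d k155 k223 k207 9 13)))), (.s k17 k34 4 (.s k81 k162 12 (.s k145 k209 7 (.s k98 k192 12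
  (.d k115 k64 k179 4 7)))))] (.c k60 (.q k62 [(.s k19 k35 3 (.s k119 k187 9 (.s k103 k71 3 (.d k155
  k223 k207 9 13)))), (.s k17 k34 4 (.s k81 k162 12 (.s k145 k209 7 (.s k98 k192 12 (.d k115 k64
  k179 4 7)))))] .n) (.c k62 (.q k60 [(.s k19 k35 3 (.s k119 k187 9 (.s k103 k71 3 (.d k155 k223
  k207 9 13)))), (.s k17 k34 4 (.s k81 k162 12 (.s k145 k209 7 (.s k98 k192 12 (.d k115 k64 k179 4
  7)))))] (.c k22 (.q k42 [(.s k19 k35 3 (.s k119 k187 9 (.s k103 k71 3 (.d k155 k223 k207 9 13)))),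
  (.s k17 k34 4 (.s k81 k162 12 (.s k145 k209 7 (.s k98 k192 12 (.d k115 k64 k179 4 7)))))] .n) (.c
  k42 (.l (.s k22 k41 6 (.s k17 k34 4 (.s k33 k49 3 (.s k18 k48 4 (.d k19 k16 k35 0 3)))))) .n)))
  .n))) (.c k163 (.l (.s k81 k162 12 (.s k161 k241 11 (.s k82 k240 12 (.s k83 k80 0 (.s k247 k251 1
  (.s k167 k7 11 (.d k91 k95 k15 1 13)))))))) .n)))))))

def t85_62 : T TT 256 :=
  (.f k87 k171 13 (.q k19 [(.s k51 k35 3 (.s k119 k187 9 (.s k103 k71 3 (.d k155 k223 k207 9 13)))),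
  (.s k1 k2 0 (.s k51 k35 3 (.s k17 k34 4 (.s k33 k49 3 (.d k18 k16 k48 0 4)))))] (.c k35 (.q k207
  [(.d k223 k239 k155 3 9), (.s k1 k2 0 (.s k69 k138 10 (.s k137 k205 9 (.s k70 k204 10 (.d k71 k68
  k139 0 9)))))] (.c k60 (.q k61 [(.d k223 k239 k155 3 9), (.s k1 k2 0 (.s k69 k138 10 (.s k137 k205
  9 (.s k70 k204 10 (.d k71 k68 k139 0 9)))))] (.c k103 (.l (.s k239 k223 3 (.s k1 k2 0 (.s k69 k138
  10 (.s k137 k205 9 (.s k70 k204 10 (.d k71 k68 k139 0 9))))))) (.c k239 (.q k103 [(.d k155 k223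
  k51 9 13), (.d k71 k119 k139 3 9)] .n) .n))) (.c k61 (.q k60 [(.d k223 k239 k155 3 9), (.s k1 k2 0
  (.s k69 k138 10 (.s k137 k205 9 (.s k70 k204 10 (.d k71 k68 k139 0 9)))))] (.c k103 (.l (.s k239
  k223 3 (.s k22 k41 6 (.s k28 k25 2 (.s k44 k12 3 (.d k109 k174 k158 8 12)))))) (.c k239 (.q k103
  [(.d k155 k223 k51 9 13), (.d k71 k119 k139 3 9)] .n) .n))) (.c k103 (.l (.s k239 k223 3 (.s k1 k2
  0 (.s k69 k138 10 (.s k137 k205 9 (.s k70 k204 10 (.d k71 k68 k139 0 9))))))) (.c k239 (.q k103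
  [(.d k155 k223 k51 9 13), (.d k71 k119 k139 3 9)] (.c k60 (.q k61 [(.d k155 k223 k51 9 13), (.d
  k71 k119 k139 3 9)] .n) (.c k61 (.q k60 [(.d k155 k223 k51 9 13), (.d k71 k119 k139 3 9)] .n)
  .n))) .n))))) (.c k51 (.l (.s k1 k2 0 (.s k223 k155 9 (.s k207 k239 3 (.s k69 k138 10 (.s k137
  k205 9 (.s k70 k204 10 (.d k71 k139 k68 9 0)))))))) (.c k60 (.q k61 [(.s k51 k35 3 (.s k119 k187 9
  (.s k103 k71 3 (.d k155 k223 k207 9 13)))), (.s k1 k2 0 (.s k51 k35 3 (.s k17 k34 4 (.s k33 k49 3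
  (.d k18 k16 k48 0 4)))))] (.c k35 (.q k207 [(.d k223 k239 k155 3 9), (.s k1 k2 0 (.s k69 k138 10
  (.s k137 k205 9 (.s k70 k204 10 (.d k71 k68 k139 0 9)))))] (.c k103 (.l (.s k239 k223 3 (.s k1 k2
  0 (.s k69 k138 10 (.s k137 k205 9 (.s k70 k204 10 (.d k71 k68 k139 0 9))))))) (.c k239 (.q k103
  [(.d k155 k223 k51 9 13), (.d k71 k119 k139 3 9)] .n) .n))) (.c k51 (.l (.s k1 k2 0 (.s k223 k155
  9 (.s k207 k239 3 (.s k69 k138 10 (.s k137 k205 9 (.s k70 k204 10 (.d k71 k139 k68 9 0)))))))) (.c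
  k103 (.l (.s k1 k2 0 (.s k223 k155 9 (.s k51 k35 3 (.s k239 k207 3 (.s k17 k34 4 (.s k33 k49 3 (.d
  k18 k16 k48 0 4)))))))) (.c k239 (.l (.s k155 k223 9 (.s k51 k35 3 (.s k103 k207 13 (.d k119 k71
  k187 3 9))))) .n))))) (.c k61 (.q k60 [(.s k51 k35 3 (.s k119 k187 9 (.s k103 k71 3 (.d k155 k223
  k207 9 13)))), (.s k22 k41 6 (.s k28 k25 2 (.s k223 k155 9 (.s k93 k158 8 (.d k12 k44 k174 3
  12))))), (.s k1 k2 0 (.s k51 k35 3 (.s k17 k34 4 (.s k33 k49 3 (.d k18 k16 k48 0 4)))))] .n) (.c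
  k103 (.l (.s k1 k2 0 (.s k223 k155 9 (.s k51 k35 3 (.s k239 k207 3 (.s k17 k34 4 (.s k33 k49 3 (.d
  k18 k16 k48 0 4)))))))) (.c k239 (.l (.s k155 k223 9 (.s k51 k35 3 (.s k103 k207 13 (.d k119 k71
  k187 3 9))))) .n))))))))

def t85_64 : T TT 256 :=
  (.f k87 k171 13 (.q k51 [(.s k19 k35 3 (.s k119 k187 9 (.s k103 k71 3 (.d k155 k223 k207 9 13)))),
  (.s k1 k2 0 (.s k17 k34 4 (.s k33 k49 3 (.s k18 k48 4 (.d k19 k16 k35 0 3)))))] (.c k19 (.q k192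
  [(.s k1 k2 0 (.s k17 k34 4 (.s k145 k98 12 (.s k81 k209 7 (.s k161 k241 11 (.d k129 k177 k66 3
  8)))))), (.s k2 k1 0 (.s k66 k129 8 (.s k194 k130 7 (.s k234 k213 6 (.s k254 k214 5 (.s k86 k170
  13 (.d k252 k253 k169 0 14))))))), (.s k34 k17 4 (.s k98 k145 12 (.s k226 k162 7 (.s k234 k213 6
  (.s k238 k230 1 (.s k102 k170 9 (.d k204 k221 k153 4 14)))))))] (.c k106 (.q k127 [(.s k1 k2 0 (.s
  k129 k66 8 (.s k65 k193 7 (.s k67 k107 5 (.d k195 k130 k131 8 7))))), (.s k119 k187 9 (.s k115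
  k123 1 (.s k243 k179 7 (.s k83 k163 11 (.d k67 k99 k107 3 5))))), (.s k1 k2 0 (.s k17 k34 4 (.s
  k49 k33 3 (.s k145 k98 12 (.s k193 k97 11 (.d k129 k65 k66 7 8))))))] .n) (.c k127 (.q k106 [(.s
  k2 k1 0 (.s k234 k213 6 (.s k170 k42 7 (.s k86 k254 13 (.d k66 k126 k129 5 8))))), (.s k34 k17 4
  (.s k98 k145 12 (.s k102 k110 1 (.s k170 k238 9 (.d k234 k213 k42 6 7))))), (.s k1 k2 0 (.s k17
  k34 4 (.s k49 k33 3 (.s k129 k66 8 (.s k145 k98 12 (.d k193 k65 k97 7 11))))))] .n) .n))) (.c k35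
  (.f k1 k2 0 (.l (.s k17 k34 4 (.s k33 k49 3 (.s k18 k48 4 (.s k19 k16 0 (.s k119 k187 9 (.s k103
  k71 3 (.d k155 k223 k207 9 13))))))))) (.c k106 (.q k127 [(.s k19 k35 3 (.s k119 k187 9 (.s k103
  k71 3 (.d k155 k223 k207 9 13)))), (.s k1 k2 0 (.s k17 k34 4 (.s k33 k49 3 (.s k18 k48 4 (.d k19
  k16 k35 0 3))))), (.s k119 k187 9 (.s k67 k107 5 (.s k195 k131 7 (.s k99 k147 11 (.d k115 k123 k83
  1 3)))))] (.c k149 (.q k192 [(.s k19 k35 3 (.s k119 k187 9 (.s k103 k71 3 (.d k155 k223 k207 9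
  13)))), (.s k1 k2 0 (.s k129 k66 8 (.s k65 k193 7 (.s k67 k107 5 (.d k195 k130 k131 8 7)))))] (.c
  k21 (.l (.s k213 k234 6 (.s k19 k35 3 (.s k155 k223 9 (.s k103 k207 13 (.d k119 k71 k187 3 9))))))
  (.c k213 (.q k21 [(.s k19 k35 3 (.s k119 k187 9 (.s k103 k71 3 (.d k155 k223 k207 9 13)))), (.s k1
  k2 0 (.s k129 k66 8 (.s k65 k193 7 (.s k67 k107 5 (.d k195 k130 k131 8 7)))))] .n) .n))) (.c k192
  (.q k149 [(.s k19 k35 3 (.s k119 k187 9 (.s k103 k71 3 (.d k155 k223 k207 9 13)))), (.s k1 k2 0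
  (.s k17 k34 4 (.s k33 k49 3 (.s k18 k48 4 (.d k19 k16 k35 0 3))))), (.s k119 k187 9 (.s k67 k107 5
  (.s k195 k131 7 (.s k99 k147 11 (.d k115 k123 k83 1 3)))))] .n) .n))) (.c k127 (.q k106 [(.s k19
  k35 3 (.s k119 k187 9 (.s k103 k71 3 (.d k155 k223 k207 9 13)))), (.s k1 k2 0 (.s k17 k34 4 (.s
  k33 k49 3 (.s k18 k48 4 (.d k19 k16 k35 0 3)))))] (.c k19 (.q k192 [(.s k2 k1 0 (.s k234 k213 6
  (.s k170 k42 7 (.s k86 k254 13 (.d k66 k126 k129 5 8))))), (.s k34 k17 4 (.s k98 k145 12 (.s k102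
  k110 1 (.s k170 k238 9 (.d k234 k213 k42 6 7))))), (.s k1 k2 0 (.s k17 k34 4 (.s k49 k33 3 (.s
  k129 k66 8 (.s k145 k98 12 (.d k193 k65 k97 7 11))))))] .n) (.c k35 (.f k1 k2 0 (.l (.s k17 k34 4
  (.s k33 k49 3 (.s k18 k48 4 (.s k19 k16 0 (.s k119 k187 9 (.s k103 k71 3 (.d k155 k223 k207 9
  13))))))))) .n))) .n))))))

def t85_65 : T TT 256 :=
  (.f k87 k171 13 (.f k1 k2 0 (.q k243 [(.s k83 k163 11 (.s k247 k251 1 (.s k167 k7 11 (.d k91 k95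
  k15 1 13)))), (.s k81 k162 12 (.s k161 k241 11 (.s k82 k240 12 (.d k83 k80 k163 0 11))))] (.c k83
  (.q k51 [(.s k19 k35 3 (.s k119 k187 9 (.s k103 k71 3 (.d k155 k223 k207 9 13)))), (.s k17 k34 4
  (.s k81 k162 12 (.s k145 k209 7 (.s k98 k192 12 (.d k115 k64 k179 4 7)))))] (.c k105 (.q k125 [(.s
  k19 k35 3 (.s k119 k187 9 (.s k103 k71 3 (.d k155 k223 k207 9 13)))), (.s k17 k34 4 (.s k81 k162
  12 (.s k145 k209 7 (.s k98 k192 12 (.d k115 k64 k179 4 7)))))] .n) (.c k125 (.q k105 [(.s k19 k35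
  3 (.s k119 k187 9 (.s k103 k71 3 (.d k155 k223 k207 9 13)))), (.s k17 k34 4 (.s k81 k162 12 (.s
  k145 k209 7 (.s k98 k192 12 (.d k115 k64 k179 4 7)))))] .n) .n))) (.c k105 (.q k125 [(.s k83 k163
  11 (.s k247 k251 1 (.s k167 k7 11 (.d k91 k95 k15 1 13)))), (.s k81 k162 12 (.s k161 k241 11 (.s
  k82 k240 12 (.d k83 k80 k163 0 11)))), (.s k60 k190 8 (.s k121 k182 10 (.s k117 k113 1 (.s k186
  k48 10 (.d k251 k247 k56 1 8)))))] .n) (.c k125 (.q k105 [(.s k83 k163 11 (.s k247 k251 1 (.s k167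
  k7 11 (.d k91 k95 k15 1 13)))), (.s k81 k162 12 (.s k161 k241 11 (.s k82 k240 12 (.d k83 k80 k163
  0 11))))] (.c k83 (.q k51 [(.s k19 k35 3 (.s k119 k187 9 (.s k103 k71 3 (.d k155 k223 k207 9
  13)))), (.s k17 k34 4 (.s k81 k162 12 (.s k145 k209 7 (.s k98 k192 12 (.d k115 k64 k179 4 7)))))]
  .n) (.c k163 (.l (.s k81 k162 12 (.s k161 k241 11 (.s k82 k240 12 (.s k83 k80 0 (.s k247 k251 1
  (.s k167 k7 11 (.d k91 k95 k15 1 13)))))))) .n))) (.c k163 (.l (.s k81 k162 12 (.s k161 k241 11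
  (.s k82 k240 12 (.s k83 k80 0 (.s k247 k251 1 (.s k167 k7 11 (.d k91 k95 k15 1 13))))))))
  .n)))))))

def t85_66 : T TT 256 :=
  (.f k87 k171 13 (.q k19 [(.s k51 k35 3 (.s k119 k187 9 (.s k103 k71 3 (.d k155 k223 k207 9 13)))),
  (.s k1 k2 0 (.s k51 k35 3 (.s k17 k34 4 (.s k33 k49 3 (.d k18 k16 k48 0 4)))))] (.c k35 (.q k207
  [(.d k223 k239 k155 3 9), (.s k1 k2 0 (.s k69 k138 10 (.s k137 k205 9 (.s k70 k204 10 (.d k71 k68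
  k139 0 9)))))] (.c k103 (.l (.s k239 k223 3 (.s k1 k2 0 (.s k69 k138 10 (.s k137 k205 9 (.s k70
  k204 10 (.d k71 k68 k139 0 9))))))) (.c k239 (.q k103 [(.d k155 k223 k51 9 13), (.d k71 k119 k139
  3 9)] .n) .n))) (.c k51 (.l (.s k1 k2 0 (.s k223 k155 9 (.s k207 k239 3 (.s k69 k138 10 (.s k137
  k205 9 (.s k70 k204 10 (.d k71 k139 k68 9 0)))))))) (.c k103 (.l (.s k1 k2 0 (.s k223 k155 9 (.s
  k51 k35 3 (.s k239 k207 3 (.s k17 k34 4 (.s k33 k49 3 (.d k18 k16 k48 0 4)))))))) (.c k239 (.l (.s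
  k155 k223 9 (.s k51 k35 3 (.s k103 k207 13 (.d k119 k71 k187 3 9))))) .n))))))

def t85_67 : T TT 256 :=
  (.f k87 k171 13 (.q k19 [(.s k51 k35 3 (.s k155 k223 9 (.s k119 k187 9 (.d k103 k71 k207 3 13)))),
  (.s k1 k2 0 (.s k51 k35 3 (.s k17 k34 4 (.s k33 k49 3 (.d k18 k16 k48 0 4))))), (.s k1 k2 0 (.s
  k223 k155 9 (.s k207 k239 3 (.s k69 k138 10 (.s k137 k205 9 (.s k70 k204 10 (.d k71 k139 k68 9
  0)))))))] (.c k35 (.q k207 [(.d k223 k239 k155 3 9), (.s k1 k2 0 (.s k69 k138 10 (.s k137 k205 9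
  (.s k70 k204 10 (.d k71 k68 k139 0 9)))))] (.c k103 (.l (.s k239 k223 3 (.s k1 k2 0 (.s k69 k138
  10 (.s k137 k205 9 (.s k70 k204 10 (.d k71 k68 k139 0 9))))))) (.c k239 (.q k103 [(.d k155 k223
  k51 9 13), (.d k71 k119 k139 3 9)] .n) .n))) (.c k103 (.l (.s k1 k2 0 (.s k223 k155 9 (.s k51 k35
  3 (.s k239 k207 3 (.s k17 k34 4 (.s k33 k49 3 (.d k18 k16 k48 0 4)))))))) (.c k239 (.l (.s k155
  k223 9 (.s k51 k35 3 (.s k103 k207 13 (.d k119 k71 k187 3 9))))) .n)))))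

def t85_68 : T TT 256 :=
  (.f k87 k171 13 (.f k1 k2 0 (.q k51 [(.s k17 k34 4 (.s k33 k49 3 (.s k18 k48 4 (.d k19 k16 k35 0
  3)))), (.s k19 k35 3 (.s k119 k187 9 (.s k103 k71 3 (.d k155 k223 k207 9 13))))] (.c k19 (.q k243
  [(.s k83 k163 11 (.s k247 k251 1 (.s k167 k7 11 (.d k91 k95 k15 1 13)))), (.s k17 k34 4 (.s k81
  k162 12 (.s k145 k209 7 (.s k98 k192 12 (.d k115 k64 k179 4 7)))))] (.c k102 (.l (.s k119 k187 9
  (.s k81 k162 12 (.s k161 k241 11 (.s k82 k240 12 (.d k83 k80 k163 0 11)))))) (.c k119 (.q k102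
  [(.s k81 k162 12 (.s k161 k241 11 (.s k82 k240 12 (.d k83 k80 k163 0 11)))), (.s k34 k17 4 (.s
  k238 k170 9 (.d k204 k221 k153 4 14)))] .n) .n))) (.c k35 (.l (.s k17 k34 4 (.s k33 k49 3 (.s k18
  k48 4 (.s k19 k16 0 (.s k119 k187 9 (.s k103 k71 3 (.d k155 k223 k207 9 13)))))))) (.c k102 (.l
  (.s k119 k187 9 (.s k19 k35 3 (.s k155 k223 9 (.d k103 k71 k207 3 13))))) (.c k119 (.q k102 [(.s
  k34 k17 4 (.s k238 k170 9 (.d k204 k221 k153 4 14))), (.s k17 k34 4 (.s k33 k49 3 (.s k18 k48 4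
  (.d k19 k16 k35 0 3)))), (.s k19 k35 3 (.s k153 k204 14 (.s k86 k220 10 (.s k252 k169 14 (.d k118
  k70 k185 3 10)))))] .n) .n)))))))

def t85_69 : T TT 256 :=
  (.f k87 k171 13 (.f k1 k2 0 (.q k15 [(.s k7 k11 1 (.s k95 k175 11 (.s k91 k83 1 (.d k167 k247 k243
  11 13)))), (.s k5 k10 2 (.s k9 k13 1 (.s k6 k12 2 (.d k7 k4 k11 0 1))))] (.c k7 (.q k48 [(.s k33
  k18 4 (.s k17 k49 3 (.s k34 k51 4 (.d k32 k35 k16 0 3)))), (.s k16 k32 3 (.s k26 k37 6 (.s k21 k31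
  2 (.s k41 k61 5 (.s k56 k11 4 (.d k60 k52 k22 1 6)))))), (.s k5 k10 2 (.s k13 k9 1 (.s k33 k18 4
  (.s k37 k26 6 (.d k49 k17 k25 3 5)))))] (.c k101 (.l (.s k117 k186 10 (.s k32 k16 3 (.s k33 k18 4
  (.s k17 k49 3 (.d k34 k35 k51 0 4)))))) (.c k117 (.q k101 [(.s k32 k16 3 (.s k239 k170 10 (.d k207
  k223 k154 3 14))), (.s k5 k10 2 (.s k13 k9 1 (.s k33 k18 4 (.s k37 k26 6 (.d k49 k17 k25 3 5)))))]
  .n) .n))) (.c k11 (.l (.s k5 k10 2 (.s k9 k13 1 (.s k6 k12 2 (.s k7 k4 0 (.s k95 k175 11 (.s k91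
  k83 1 (.d k167 k247 k243 11 13)))))))) (.c k101 (.q k117 [(.s k7 k11 1 (.s k95 k175 11 (.s k91 k83
  1 (.d k167 k247 k243 11 13)))), (.s k48 k186 10 (.s k32 k16 3 (.s k33 k18 4 (.s k17 k49 3 (.d k34
  k35 k51 0 4)))))] .n) (.c k117 (.q k101 [(.s k7 k11 1 (.s k95 k175 11 (.s k91 k83 1 (.d k167 k247
  k243 11 13)))), (.s k5 k10 2 (.s k9 k13 1 (.s k6 k12 2 (.d k7 k4 k11 0 1))))] (.c k7 (.q k48 [(.s
  k32 k16 3 (.s k239 k170 10 (.d k207 k223 k154 3 14))), (.s k5 k10 2 (.s k13 k9 1 (.s k33 k18 4 (.s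
  k37 k26 6 (.d k49 k17 k25 3 5)))))] .n) (.c k11 (.l (.s k5 k10 2 (.s k9 k13 1 (.s k6 k12 2 (.s k7
  k4 0 (.s k95 k175 11 (.s k91 k83 1 (.d k167 k247 k243 11 13)))))))) .n))) .n)))))))

def t85_70 : T TT 256 :=
  (.f k87 k171 13 (.q k51 [(.s k19 k35 3 (.s k155 k223 9 (.s k119 k187 9 (.d k103 k71 k207 3 13)))),
  (.s k1 k2 0 (.s k17 k34 4 (.s k33 k49 3 (.s k18 k48 4 (.d k19 k16 k35 0 3)))))] (.c k16 (.l (.s
  k19 k35 3 (.s k119 k187 9 (.s k103 k71 3 (.d k155 k223 k207 9 13))))) (.c k19 (.q k243 [(.s k83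
  k163 11 (.s k91 k95 1 (.s k247 k251 1 (.d k167 k7 k15 11 13)))), (.s k17 k34 4 (.s k81 k162 12 (.s
  k145 k209 7 (.s k98 k192 12 (.d k115 k64 k179 4 7)))))] .n) (.c k35 (.f k1 k2 0 (.l (.s k17 k34 4
  (.s k33 k49 3 (.s k18 k48 4 (.s k19 k16 0 (.s k119 k187 9 (.s k103 k71 3 (.d k155 k223 k207 9
  13))))))))) .n)))))

def t85_71 : T TT 256 :=
  (.q k243 [(.s k1 k2 0 (.s k81 k162 12 (.s k161 k241 11 (.s k83 k163 11 (.d k82 k80 k240 0 12))))),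
  (.s k83 k163 11 (.s k87 k171 13 (.s k91 k95 1 (.s k167 k15 13 (.d k247 k251 k7 1 11)))))] (.c k80
  (.l (.s k2 k1 0 (.s k162 k81 12 (.s k82 k242 11 (.s k161 k240 12 (.d k163 k83 k160 11 0)))))) (.c
  k83 (.q k91 [(.s k251 k247 1 (.d k171 k11 k87 11 13)), (.s k1 k2 0 (.s k15 k167 13 (.s k5 k10 2
  (.s k9 k13 1 (.s k6 k12 2 (.d k7 k4 k11 0 1)))))), (.s k87 k171 13 (.s k167 k15 13 (.d k247 k251
  k7 1 11)))] .n) (.c k163 (.q k91 [(.s k251 k247 1 (.d k171 k11 k87 11 13)), (.s k1 k2 0 (.s k81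
  k162 12 (.s k161 k241 11 (.s k82 k240 12 (.s k83 k80 0 (.s k95 k87 1 (.d k15 k175 k167 11
  13)))))))] (.c k87 (.l (.s k251 k247 1 (.s k11 k171 11 (.d k15 k7 k167 1 13)))) .n)) .n))))

def t85_72 : T TT 256 :=
  (.f k87 k171 13 (.f k1 k2 0 (.q k15 [(.s k7 k11 1 (.s k95 k175 11 (.s k91 k83 1 (.d k167 k247 k243
  11 13)))), (.s k5 k10 2 (.s k9 k13 1 (.s k6 k12 2 (.d k7 k4 k11 0 1))))] (.c k7 (.q k48 [(.s k33
  k18 4 (.s k17 k49 3 (.s k34 k51 4 (.d k32 k35 k16 0 3)))), (.s k16 k32 3 (.s k26 k37 6 (.s k21 k31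
  2 (.s k41 k61 5 (.s k56 k11 4 (.d k60 k52 k22 1 6)))))), (.s k5 k10 2 (.s k13 k9 1 (.s k33 k18 4
  (.s k37 k26 6 (.d k49 k17 k25 3 5)))))] .n) (.c k11 (.l (.s k5 k10 2 (.s k9 k13 1 (.s k6 k12 2 (.s
  k7 k4 0 (.s k95 k175 11 (.s k91 k83 1 (.d k167 k247 k243 11 13)))))))) .n)))))

def t85_73 : T TT 256 :=
  (.q k243 [(.s k1 k2 0 (.s k81 k162 12 (.s k161 k241 11 (.s k83 k163 11 (.d k82 k80 k240 0 12))))),
  (.s k83 k163 11 (.s k87 k171 13 (.s k91 k95 1 (.s k167 k15 13 (.d k247 k251 k7 1 11)))))] (.c k80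
  (.l (.s k2 k1 0 (.s k162 k81 12 (.s k82 k242 11 (.s k161 k240 12 (.d k163 k83 k160 11 0)))))) (.c
  k83 (.q k91 [(.s k171 k87 13 (.d k251 k247 k11 1 11)), (.s k1 k2 0 (.s k15 k167 13 (.s k5 k10 2
  (.s k9 k13 1 (.s k6 k12 2 (.d k7 k4 k11 0 1))))))] (.c k11 (.l (.s k87 k171 13 (.s k167 k15 13 (.d
  k247 k251 k7 1 11)))) .n)) (.c k163 (.q k91 [(.s k171 k87 13 (.d k251 k247 k11 1 11)), (.s k87
  k171 13 (.s k95 k83 1 (.d k15 k175 k167 11 13)))] (.c k87 (.l (.s k251 k247 1 (.s k11 k171 11 (.d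
  k15 k7 k167 1 13)))) (.c k171 (.l (.s k1 k2 0 (.s k81 k162 12 (.s k161 k241 11 (.s k82 k240 12 (.s
  k83 k80 0 (.s k95 k87 1 (.d k15 k175 k167 11 13)))))))) .n))) .n))))

def t85_74 : T TT 256 :=
  (.f k87 k171 13 (.f k1 k2 0 (.q k15 [(.s k7 k11 1 (.s k95 k175 11 (.s k91 k83 1 (.d k167 k247 k243
  11 13)))), (.s k5 k10 2 (.s k9 k13 1 (.s k6 k12 2 (.d k7 k4 k11 0 1))))] (.c k7 (.q k48 [(.s k33
  k18 4 (.s k17 k49 3 (.s k34 k51 4 (.d k32 k35 k16 0 3)))), (.s k16 k32 3 (.s k26 k37 6 (.s k21 k31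
  2 (.s k41 k61 5 (.s k56 k11 4 (.d k60 k52 k22 1 6)))))), (.s k5 k10 2 (.s k13 k9 1 (.s k33 k18 4
  (.s k37 k26 6 (.d k49 k17 k25 3 5)))))] .n) (.c k11 (.l (.s k5 k10 2 (.s k9 k13 1 (.s k6 k12 2 (.s
  k7 k4 0 (.s k95 k175 11 (.s k91 k83 1 (.d k167 k247 k243 11 13)))))))) .n)))))

def t85_75 : T TT 256 :=
  (.q k243 [(.s k1 k2 0 (.s k81 k162 12 (.s k161 k241 11 (.s k83 k163 11 (.d k82 k80 k240 0 12))))),
  (.s k83 k163 11 (.s k87 k171 13 (.s k91 k95 1 (.s k167 k15 13 (.d k247 k251 k7 1 11)))))] (.c k80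
  (.l (.s k2 k1 0 (.s k162 k81 12 (.s k82 k242 11 (.s k161 k240 12 (.d k163 k83 k160 11 0)))))) (.c
  k83 (.q k91 [(.s k171 k87 13 (.d k251 k247 k11 1 11)), (.s k1 k2 0 (.s k15 k167 13 (.s k5 k10 2
  (.s k9 k13 1 (.s k6 k12 2 (.d k7 k4 k11 0 1))))))] (.c k11 (.l (.s k87 k171 13 (.s k167 k15 13 (.d
  k247 k251 k7 1 11)))) .n)) (.c k163 (.q k91 [(.s k171 k87 13 (.d k251 k247 k11 1 11)), (.s k87
  k171 13 (.s k95 k83 1 (.d k15 k175 k167 11 13)))] (.c k87 (.l (.s k251 k247 1 (.s k11 k171 11 (.d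
  k15 k7 k167 1 13)))) (.c k171 (.l (.s k1 k2 0 (.s k81 k162 12 (.s k161 k241 11 (.s k82 k240 12 (.s
  k83 k80 0 (.s k95 k87 1 (.d k15 k175 k167 11 13)))))))) .n))) .n))))

def t85_76 : T TT 256 :=
  (.f k87 k171 13 (.f k1 k2 0 (.q k51 [(.s k19 k35 3 (.s k119 k187 9 (.s k103 k71 3 (.d k155 k223
  k207 9 13)))), (.s k17 k34 4 (.s k33 k49 3 (.s k18 k48 4 (.d k19 k16 k35 0 3))))] (.c k19 (.q k243
  [(.s k83 k163 11 (.s k247 k251 1 (.s k167 k7 11 (.d k91 k95 k15 1 13)))), (.s k17 k34 4 (.s k81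
  k162 12 (.s k145 k209 7 (.s k98 k192 12 (.d k115 k64 k179 4 7)))))] .n) (.c k35 (.l (.s k17 k34 4
  (.s k33 k49 3 (.s k18 k48 4 (.s k19 k16 0 (.s k119 k187 9 (.s k103 k71 3 (.d k155 k223 k207 9
  13)))))))) .n)))))

def t85_77 : T TT 256 :=
  (.q k243 [(.s k1 k2 0 (.s k81 k162 12 (.s k161 k241 11 (.s k83 k163 11 (.d k82 k80 k240 0 12))))),
  (.s k83 k163 11 (.s k87 k171 13 (.s k91 k95 1 (.s k167 k15 13 (.d k247 k251 k7 1 11)))))] (.c k80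
  (.l (.s k2 k1 0 (.s k162 k81 12 (.s k82 k242 11 (.s k161 k240 12 (.d k163 k83 k160 11 0)))))) (.c
  k83 (.q k91 [(.s k171 k87 13 (.d k251 k247 k11 1 11)), (.s k1 k2 0 (.s k15 k167 13 (.s k5 k10 2
  (.s k9 k13 1 (.s k6 k12 2 (.d k7 k4 k11 0 1))))))] (.c k11 (.l (.s k87 k171 13 (.s k167 k15 13 (.d
  k247 k251 k7 1 11)))) .n)) (.c k163 (.q k91 [(.s k171 k87 13 (.d k251 k247 k11 1 11)), (.s k87
  k171 13 (.s k95 k83 1 (.d k15 k175 k167 11 13)))] (.c k87 (.l (.s k251 k247 1 (.s k11 k171 11 (.d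
  k15 k7 k167 1 13)))) (.c k171 (.l (.s k1 k2 0 (.s k81 k162 12 (.s k161 k241 11 (.s k82 k240 12 (.s
  k83 k80 0 (.s k95 k87 1 (.d k15 k175 k167 11 13)))))))) .n))) .n))))

def t85_78 : T TT 256 :=
  (.q k243 [(.s k1 k2 0 (.s k81 k162 12 (.s k161 k241 11 (.s k83 k163 11 (.d k82 k80 k240 0 12))))),
  (.s k83 k163 11 (.s k87 k171 13 (.s k91 k95 1 (.s k167 k15 13 (.d k247 k251 k7 1 11)))))] (.c k80
  (.l (.s k2 k1 0 (.s k162 k81 12 (.s k82 k242 11 (.s k161 k240 12 (.d k163 k83 k160 11 0)))))) (.c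
  k83 (.q k91 [(.s k171 k87 13 (.d k251 k247 k11 1 11)), (.s k1 k2 0 (.s k15 k167 13 (.s k5 k10 2
  (.s k9 k13 1 (.s k6 k12 2 (.d k7 k4 k11 0 1))))))] (.c k11 (.l (.s k87 k171 13 (.s k167 k15 13 (.d
  k247 k251 k7 1 11)))) .n)) (.c k163 (.q k91 [(.s k171 k87 13 (.d k251 k247 k11 1 11)), (.s k87
  k171 13 (.s k95 k83 1 (.d k15 k175 k167 11 13)))] (.c k87 (.l (.s k251 k247 1 (.s k11 k171 11 (.d
  k15 k7 k167 1 13)))) (.c k171 (.l (.s k1 k2 0 (.s k81 k162 12 (.s k161 k241 11 (.s k82 k240 12 (.s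
  k83 k80 0 (.s k95 k87 1 (.d k15 k175 k167 11 13)))))))) .n))) .n))))

def t85_79 : T TT 256 :=
  (.f k87 k171 13 (.f k1 k2 0 (.q k51 [(.s k17 k34 4 (.s k33 k49 3 (.s k18 k48 4 (.d k19 k16 k35 0
  3)))), (.s k19 k35 3 (.s k119 k187 9 (.s k103 k71 3 (.d k155 k223 k207 9 13))))] (.c k19 (.q k243
  [(.s k83 k163 11 (.s k247 k251 1 (.s k167 k7 11 (.d k91 k95 k15 1 13)))), (.s k17 k34 4 (.s k81
  k162 12 (.s k145 k209 7 (.s k98 k192 12 (.d k115 k64 k179 4 7)))))] .n) (.c k35 (.l (.s k17 k34 4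
  (.s k33 k49 3 (.s k18 k48 4 (.s k19 k16 0 (.s k119 k187 9 (.s k103 k71 3 (.d k155 k223 k207 9
  13)))))))) .n)))))

def t85_80 : T TT 256 :=
  (.f k87 k171 13 (.f k1 k2 0 (.q k15 [(.s k5 k10 2 (.s k9 k13 1 (.s k6 k12 2 (.d k7 k4 k11 0 1)))),
  (.s k7 k11 1 (.s k95 k175 11 (.s k91 k83 1 (.d k167 k247 k243 11 13))))] (.c k7 (.q k48 [(.s k33
  k18 4 (.s k17 k49 3 (.s k34 k51 4 (.d k32 k35 k16 0 3)))), (.s k16 k32 3 (.s k26 k37 6 (.s k21 k31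
  2 (.s k41 k61 5 (.s k56 k11 4 (.d k60 k52 k22 1 6)))))), (.s k5 k10 2 (.s k13 k9 1 (.s k33 k18 4
  (.s k37 k26 6 (.d k49 k17 k25 3 5)))))] (.c k90 (.l (.s k95 k175 11 (.s k32 k16 3 (.s k33 k18 4
  (.s k17 k49 3 (.d k34 k35 k51 0 4)))))) (.c k95 (.q k90 [(.s k10 k5 2 (.s k250 k170 11 (.d k240
  k245 k165 2 14))), (.s k32 k16 3 (.s k33 k18 4 (.s k17 k49 3 (.d k34 k35 k51 0 4))))] .n) .n)))
  (.c k11 (.l (.s k5 k10 2 (.s k9 k13 1 (.s k6 k12 2 (.s k7 k4 0 (.s k95 k175 11 (.s k91 k83 1 (.d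
  k167 k247 k243 11 13)))))))) (.c k90 (.l (.s k95 k175 11 (.s k7 k11 1 (.s k167 k247 11 (.d k91 k83
  k243 1 13))))) (.c k95 (.q k90 [(.s k10 k5 2 (.s k250 k170 11 (.d k240 k245 k165 2 14))), (.s k5
  k10 2 (.s k9 k13 1 (.s k6 k12 2 (.d k7 k4 k11 0 1)))), (.s k7 k11 1 (.s k165 k240 14 (.s k86 k244
  12 (.s k252 k169 14 (.d k94 k82 k173 1 12)))))] .n) .n)))))))

def t85_81 : T TT 256 :=
  (.q k12 [(.s k1 k2 0 (.s k9 k6 2 (.s k5 k13 1 (.s k10 k15 2 (.d k8 k11 k4 0 1))))), (.s k8 k4 1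
  (.s k9 k6 2 (.s k171 k87 13 (.s k11 k10 0 (.s k251 k91 11 (.s k89 k170 12 (.d k243 k247 k166 1
  14)))))))] (.c k2 (.q k89 [(.s k8 k4 1 (.s k251 k170 12 (.d k243 k247 k166 1 14))), (.s k6 k9 2
  (.s k166 k243 14 (.s k86 k246 11 (.s k252 k169 14 (.d k92 k83 k172 2 11))))), (.s k9 k6 2 (.s k171
  k87 13 (.s k169 k249 11 (.s k168 k170 0 (.d k252 k84 k86 13 14)))))] (.c k86 (.l (.s k8 k4 1 (.s
  k170 k251 12 (.s k166 k243 14 (.d k174 k162 k93 1 12))))) .n)) (.c k4 (.q k243 [(.s k83 k163 11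
  (.s k87 k171 13 (.s k91 k95 1 (.s k247 k251 1 (.d k167 k7 k15 11 13))))), (.s k6 k9 2 (.s k163 k83
  11 (.s k166 k89 14 (.s k93 k174 12 (.s k86 k246 11 (.d k169 k172 k252 2 14)))))), (.s k1 k2 0 (.s
  k9 k6 2 (.s k5 k13 1 (.s k10 k15 2 (.s k171 k87 13 (.s k11 k8 0 (.d k251 k247 k91 1 11)))))))] (.c
  k89 (.l (.s k93 k174 12 (.s k83 k163 11 (.s k87 k171 13 (.s k91 k95 1 (.s k167 k15 13 (.d k247
  k251 k7 1 11))))))) (.c k93 (.l (.s k89 k166 14 (.s k247 k251 1 (.s k9 k6 2 (.s k83 k163 11 (.s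
  k169 k249 11 (.d k86 k92 k252 2 14))))))) (.c k166 (.l (.s k247 k251 1 (.s k83 k163 11 (.s k87
  k171 13 (.s k167 k7 11 (.d k91 k95 k15 1 13)))))) (.c k247 (.l (.s k166 k89 14 (.s k93 k174 12 (.s
  k6 k9 2 (.s k163 k83 11 (.s k86 k246 11 (.d k169 k172 k252 2 14))))))) .n))))) (.c k5 (.q k243
  [(.s k4 k8 1 (.s k9 k6 2 (.s k83 k163 11 (.s k89 k166 14 (.s k169 k249 11 (.d k86 k92 k252 2
  14)))))), (.s k83 k163 11 (.s k87 k171 13 (.s k91 k95 1 (.s k167 k15 13 (.d k247 k251 k7 1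
  11)))))] (.c k83 (.l (.s k8 k4 1 (.s k87 k171 13 (.s k247 k251 1 (.s k9 k6 2 (.s k7 k167 11 (.d
  k11 k10 k15 0 1))))))) (.c k89 (.l (.s k93 k174 12 (.s k9 k6 2 (.s k171 k87 13 (.s k251 k247 1 (.s
  k11 k91 11 (.d k8 k4 k10 1 0))))))) (.c k93 (.l (.s k89 k166 14 (.s k9 k6 2 (.s k83 k163 11 (.s
  k169 k249 11 (.d k86 k92 k252 2 14)))))) (.c k163 (.l (.s k9 k6 2 (.s k171 k87 13 (.s k251 k247 1
  (.s k11 k91 11 (.d k8 k4 k10 1 0)))))) (.c k165 (.q k245 [(.s k6 k9 2 (.s k247 k251 1 (.s k246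
  k244 0 (.d k166 k86 k89 11 14)))), (.s k4 k8 1 (.s k240 k250 2 (.s k164 k88 13 (.s k247 k251 1 (.d
  k244 k246 k84 0 11))))), (.s k9 k6 2 (.s k240 k250 2 (.s k241 k242 0 (.s k249 k253 1 (.d k89 k169
  k166 11 14)))))] (.c k89 (.l (.s k93 k174 12 (.s k4 k8 1 (.s k240 k250 2 (.s k164 k88 13 (.s k244
  k84 11 (.d k247 k251 k246 1 0))))))) (.c k93 (.l (.s k89 k166 14 (.s k9 k6 2 (.s k83 k163 11 (.s
  k169 k249 11 (.d k86 k92 k252 2 14)))))) (.c k246 (.l (.s k9 k6 2 (.s k83 k163 11 (.s k89 k166 14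
  (.s k86 k92 2 (.d k169 k249 k252 11 14)))))) .n)))) (.c k245 (.q k165 [(.s k87 k171 13 (.s k247
  k251 1 (.s k167 k7 11 (.d k166 k89 k164 14 0)))), (.s k6 k9 2 (.s k89 k166 14 (.s k13 k241 13 (.s
  k14 k15 0 (.d k2 k1 k10 0 1))))), (.s k163 k83 11 (.s k171 k87 13 (.s k167 k175 1 (.d k166 k89
  k164 14 0))))] (.c k89 (.l (.s k93 k174 12 (.s k9 k6 2 (.s k171 k87 13 (.s k251 k247 1 (.s k11 k91
  11 (.d k8 k4 k10 1 0))))))) (.c k93 (.l (.s k89 k166 14 (.s k6 k9 2 (.s k13 k241 13 (.s k14 k15 0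
  (.d k2 k1 k10 0 1)))))) (.c k166 (.l (.s k83 k163 11 (.s k87 k171 13 (.s k91 k95 1 (.s k167 k15 13
  (.d k247 k251 k7 1 11)))))) .n)))) .n))))))) (.c k6 (.q k89 [(.s k8 k4 1 (.s k251 k170 12 (.d k243
  k247 k166 1 14))), (.s k2 k1 0 (.s k243 k166 14 (.s k83 k163 11 (.s k86 k92 2 (.s k254 k170 13 (.d
  k252 k253 k169 0 14))))))] (.c k4 (.l (.s k87 k171 13 (.s k243 k166 14 (.s k247 k251 1 (.s k83
  k163 11 (.s k91 k95 1 (.d k167 k7 k15 11 13))))))) (.c k166 (.q k86 [(.s k92 k83 2 (.d k252 k172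
  k169 11 14)), (.s k2 k1 0 (.s k170 k254 13 (.d k8 k4 k251 1 12)))] (.c k4 (.q k247 [(.s k83 k92 2
  (.d k243 k251 k163 1 11)), (.s k2 k1 0 (.s k170 k254 13 (.d k251 k243 k8 1 12))), (.s k252 k169 14
  (.d k92 k172 k83 11 2))] (.c k5 (.q k7 [(.d k87 k167 k171 11 13), (.s k252 k169 14 (.d k92 k172
  k83 11 2))] (.c k165 (.q k245 [(.d k87 k167 k171 11 13), (.s k252 k169 14 (.d k92 k172 k83 11 2))]
  (.c k164 (.l (.s k167 k87 11 (.s k15 k11 1 (.d k243 k251 k91 1 13)))) (.c k167 (.q k164 [(.d k240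
  k250 k88 2 13), (.s k252 k169 14 (.d k92 k172 k83 11 2))] .n) .n))) (.c k245 (.l (.s k165 k244 12
  (.d k87 k167 k171 11 13))) .n))) (.c k7 (.q k5 [(.s k83 k92 2 (.d k243 k251 k163 1 11)), (.s k1 k2
  0 (.s k9 k13 1 (.d k169 k249 k252 11 14)))] .n) .n))) (.c k169 (.l (.s k87 k171 13 (.s k83 k92 2
  (.s k95 k91 1 (.s k15 k175 11 (.s k13 k14 0 (.s k165 k241 13 (.d k7 k11 k244 1 12)))))))) (.c k247
  (.l (.s k4 k8 1 (.s k252 k169 14 (.d k92 k172 k83 11 2)))) .n)))) (.c k170 (.l (.s k87 k171 13 (.s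
  k243 k166 14 (.s k83 k163 11 (.s k91 k95 1 (.s k167 k15 13 (.d k247 k251 k7 1 11))))))) (.c k243
  (.l (.s k2 k1 0 (.s k8 k4 1 (.s k171 k87 13 (.s k170 k251 12 (.s k86 k254 13 (.d k169 k168 k252 0
  14))))))) (.c k247 (.l (.s k8 k4 1 (.s k166 k243 14 (.s k170 k251 12 (.d k174 k162 k93 1 12)))))
  .n)))))) (.c k8 (.q k243 [(.s k9 k6 2 (.s k83 k163 11 (.s k89 k166 14 (.s k169 k249 11 (.d k86 k92
  k252 2 14))))), (.s k83 k163 11 (.s k87 k171 13 (.s k91 k95 1 (.s k167 k15 13 (.d k247 k251 k7 1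
  11))))), (.s k9 k6 2 (.s k171 k87 13 (.s k89 k166 14 (.s k169 k249 11 (.s k168 k170 0 (.d k252 k84
  k86 13 14))))))] (.c k89 (.l (.s k93 k174 12 (.s k83 k163 11 (.s k87 k171 13 (.s k91 k95 1 (.s
  k167 k15 13 (.d k247 k251 k7 1 11))))))) (.c k93 (.l (.s k89 k166 14 (.s k9 k6 2 (.s k83 k163 11
  (.s k169 k249 11 (.d k86 k92 k252 2 14)))))) (.c k247 (.l (.s k6 k9 2 (.s k163 k83 11 (.s k166 k89
  14 (.s k93 k174 12 (.s k86 k246 11 (.d k169 k172 k252 2 14))))))) .n)))) (.c k9 (.q k243 [(.s k83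
  k163 11 (.s k87 k171 13 (.s k247 k251 1 (.s k167 k7 11 (.d k91 k95 k15 1 13))))), (.s k2 k1 0 (.s
  k83 k163 11 (.s k89 k166 14 (.s k86 k92 2 (.s k254 k170 13 (.d k252 k253 k169 0 14))))))] (.c k83
  (.l (.s k4 k8 1 (.s k87 k171 13 (.s k247 k251 1 (.s k7 k167 11 (.s k5 k6 0 (.d k15 k11 k10 1
  2))))))) (.c k89 (.l (.s k93 k174 12 (.s k83 k163 11 (.s k87 k171 13 (.s k91 k95 1 (.s k167 k15 13
  (.d k247 k251 k7 1 11))))))) (.c k93 (.l (.s k89 k166 14 (.s k2 k1 0 (.s k83 k163 11 (.s k86 k92 2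
  (.s k170 k254 13 (.d k8 k4 k251 1 12))))))) (.c k163 (.q k245 [(.s k166 k89 14 (.s k93 k174 12 (.s
  k247 k251 1 (.s k246 k244 0 (.s k86 k6 11 (.d k252 k249 k169 2 14)))))), (.s k4 k8 1 (.s k240 k250
  2 (.s k160 k80 11 (.s k164 k88 13 (.s k84 k244 11 (.d k168 k172 k252 1 13))))))] (.c k8 (.l (.s
  k240 k250 2 (.s k241 k242 0 (.s k249 k253 1 (.s k246 k252 2 (.d k247 k244 k251 0 1)))))) (.c k89
  (.l (.s k93 k174 12 (.s k4 k8 1 (.s k240 k250 2 (.s k164 k88 13 (.s k244 k84 11 (.d k247 k251 k246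
  1 0))))))) (.c k93 (.l (.s k89 k166 14 (.s k4 k8 1 (.s k240 k250 2 (.s k164 k88 13 (.s k244 k84 11
  (.d k247 k246 k251 0 1))))))) (.c k244 (.l (.s k250 k240 2 (.s k251 k247 1 (.s k249 k248 0 (.s
  k252 k246 2 (.d k253 k254 k241 0 1)))))) (.c k252 (.l (.s k4 k8 1 (.s k240 k250 2 (.s k164 k88 13
  (.s k244 k84 11 (.d k247 k246 k251 0 1)))))) .n)))))) (.c k247 (.l (.s k83 k163 11 (.s k87 k171 13
  (.s k93 k174 12 (.s k95 k91 1 (.s k92 k94 0 (.d k89 k86 k166 2 14))))))) .n)))))) (.c k10 (.q k243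
  [(.s k6 k9 2 (.s k87 k171 13 (.s k247 k251 1 (.s k7 k167 11 (.d k4 k8 k5 1 0))))), (.s k9 k6 2 (.s
  k83 k163 11 (.s k89 k166 14 (.s k169 k249 11 (.d k86 k92 k252 2 14))))), (.s k83 k163 11 (.s k87
  k171 13 (.s k91 k95 1 (.s k167 k15 13 (.d k247 k251 k7 1 11)))))] (.c k89 (.l (.s k93 k174 12 (.s
  k6 k9 2 (.s k87 k171 13 (.s k247 k251 1 (.s k7 k167 11 (.d k4 k8 k5 1 0))))))) (.c k93 (.l (.s k89
  k166 14 (.s k9 k6 2 (.s k83 k163 11 (.s k169 k249 11 (.d k86 k92 k252 2 14)))))) (.c k163 (.l (.s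
  k4 k8 1 (.s k171 k87 13 (.s k251 k247 1 (.s k6 k9 2 (.s k11 k91 11 (.d k7 k5 k15 0 1))))))) (.c
  k247 (.l (.s k4 k8 1 (.s k9 k6 2 (.s k83 k163 11 (.s k89 k166 14 (.s k169 k249 11 (.d k86 k92 k252
  2 14))))))) .n))))) (.c k11 (.l (.s k2 k1 0 (.s k4 k8 1 (.s k6 k9 2 (.s k10 k14 1 (.d k5 k7 k15 0
  2)))))) (.c k14 (.l (.s k1 k2 0 (.s k8 k4 1 (.s k9 k6 2 (.s k10 k11 0 (.d k5 k13 k15 1 2)))))) (.c
  k89 (.l (.s k93 k174 12 (.s k1 k2 0 (.s k8 k4 1 (.s k9 k6 2 (.s k5 k13 1 (.d k10 k11 k15 0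
  2))))))) (.c k93 (.q k89 [(.s k8 k4 1 (.s k251 k170 12 (.d k243 k247 k166 1 14))), (.s k6 k9 2 (.s
  k166 k243 14 (.s k86 k246 11 (.s k252 k169 14 (.d k92 k83 k172 2 11))))), (.s k1 k2 0 (.s k9 k6 2
  (.s k5 k13 1 (.s k10 k15 2 (.d k8 k11 k4 0 1)))))] .n) .n))))))))))))

def t85_82 : T TT 256 :=
  (.f k87 k171 13 (.q k51 [(.s k19 k35 3 (.s k119 k187 9 (.s k103 k71 3 (.d k155 k223 k207 9 13)))),
  (.s k1 k2 0 (.s k17 k34 4 (.s k33 k49 3 (.s k18 k48 4 (.d k19 k16 k35 0 3)))))] (.c k19 (.q k145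
  [(.s k17 k34 4 (.s k81 k209 7 (.s k162 k243 12 (.s k128 k179 4 (.d k192 k64 k98 7 12))))), (.s k2
  k1 0 (.s k192 k98 12 (.s k64 k128 7 (.s k66 k129 8 (.s k130 k194 7 (.d k65 k67 k195 0 8)))))), (.s
  k1 k2 0 (.s k17 k34 4 (.s k49 k33 3 (.s k81 k209 7 (.s k161 k241 11 (.s k193 k97 11 (.d k129 k177
  k65 3 7)))))))] .n) (.c k35 (.f k1 k2 0 (.l (.s k17 k34 4 (.s k33 k49 3 (.s k18 k48 4 (.s k19 k16
  0 (.s k119 k187 9 (.s k103 k71 3 (.d k155 k223 k207 9 13))))))))) .n))))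

def t85_83 : T TT 256 :=
  (.f k1 k2 0 (.f k87 k171 13 (.q k51 [(.s k19 k35 3 (.s k119 k187 9 (.s k103 k71 3 (.d k155 k223
  k207 9 13)))), (.s k17 k34 4 (.s k33 k49 3 (.s k18 k48 4 (.d k19 k16 k35 0 3))))] (.c k19 (.q k243
  [(.s k17 k34 4 (.s k81 k162 12 (.s k145 k209 7 (.s k115 k179 7 (.d k98 k64 k192 4 12))))), (.s
  k115 k179 7 (.s k119 k187 9 (.s k103 k71 3 (.s k91 k79 5 (.s k167 k15 13 (.d k247 k251 k7 1
  11)))))), (.s k17 k34 4 (.s k81 k162 12 (.s k49 k33 3 (.s k241 k161 11 (.s k113 k177 7 (.d k48 k50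
  k178 0 8))))))] (.c k147 (.q k211 [(.s k81 k162 12 (.s k161 k241 11 (.s k195 k227 3 (.s k131 k67 7
  (.d k146 k176 k16 4 8))))), (.s k17 k34 4 (.s k81 k162 12 (.s k145 k209 7 (.s k98 k192 12 (.d k115
  k64 k179 4 7))))), (.s k115 k179 7 (.s k119 k187 9 (.s k127 k123 1 (.s k67 k107 5 (.d k195 k131
  k227 7 3)))))] (.c k115 (.l (.s k17 k34 4 (.s k81 k162 12 (.s k33 k49 3 (.s k16 k146 8 (.d k48 k18
  k32 4 3)))))) .n)) (.c k211 (.q k147 [(.s k179 k115 7 (.s k131 k163 3 (.d k195 k67 k99 7 11))),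
  (.s k17 k34 4 (.s k81 k162 12 (.s k145 k209 7 (.s k98 k192 12 (.d k115 k64 k179 4 7)))))] (.c k115
  (.l (.s k195 k99 11 (.s k67 k131 7 (.s k65 k130 8 (.s k129 k193 7 (.d k66 k64 k192 0 8)))))) (.c
  k179 (.l (.s k195 k99 11 (.s k65 k130 8 (.s k129 k193 7 (.s k66 k192 8 (.d k67 k64 k131 0 7))))))
  .n))) .n))) (.c k35 (.l (.s k17 k34 4 (.s k33 k49 3 (.s k18 k48 4 (.s k19 k16 0 (.s k119 k187 9
  (.s k103 k71 3 (.d k155 k223 k207 9 13)))))))) .n)))))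

def t85_84 : T TT 256 :=
  (.f k87 k171 13 (.f k1 k2 0 (.q k15 [(.s k7 k11 1 (.s k95 k175 11 (.s k91 k83 1 (.d k167 k247 k243
  11 13)))), (.s k5 k10 2 (.s k9 k13 1 (.s k6 k12 2 (.d k7 k4 k11 0 1))))] (.c k7 (.q k48 [(.s k33
  k18 4 (.s k17 k49 3 (.s k34 k51 4 (.d k32 k35 k16 0 3)))), (.s k16 k32 3 (.s k26 k37 6 (.s k21 k31
  2 (.s k41 k61 5 (.s k56 k11 4 (.d k60 k52 k22 1 6)))))), (.s k5 k10 2 (.s k13 k9 1 (.s k33 k18 4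
  (.s k37 k26 6 (.d k49 k17 k25 3 5)))))] .n) (.c k11 (.l (.s k5 k10 2 (.s k9 k13 1 (.s k6 k12 2 (.s
  k7 k4 0 (.s k95 k175 11 (.s k91 k83 1 (.d k167 k247 k243 11 13)))))))) .n)))))

def t85_86 : T TT 256 :=
  (.f k87 k171 13 (.q k19 [(.s k51 k35 3 (.s k155 k223 9 (.s k119 k187 9 (.d k103 k71 k207 3 13)))),
  (.s k1 k2 0 (.s k51 k35 3 (.s k17 k34 4 (.s k33 k49 3 (.d k18 k16 k48 0 4))))), (.s k1 k2 0 (.s
  k223 k155 9 (.s k207 k239 3 (.s k69 k138 10 (.s k137 k205 9 (.s k70 k204 10 (.d k71 k139 k68 9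
  0)))))))] (.c k35 (.q k207 [(.d k223 k239 k155 3 9), (.s k1 k2 0 (.s k69 k138 10 (.s k137 k205 9
  (.s k70 k204 10 (.d k71 k68 k139 0 9)))))] (.c k103 (.l (.s k239 k223 3 (.s k1 k2 0 (.s k69 k138
  10 (.s k137 k205 9 (.s k70 k204 10 (.d k71 k68 k139 0 9))))))) (.c k239 (.q k103 [(.d k155 k223
  k51 9 13), (.d k71 k119 k139 3 9)] .n) .n))) (.c k103 (.l (.s k1 k2 0 (.s k223 k155 9 (.s k51 k35
  3 (.s k239 k207 3 (.s k17 k34 4 (.s k33 k49 3 (.d k18 k16 k48 0 4)))))))) (.c k239 (.l (.s k155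
  k223 9 (.s k51 k35 3 (.s k103 k207 13 (.d k119 k71 k187 3 9))))) .n)))))

def t85_87 : T TT 256 :=
  (.q k86 [(.s k2 k1 0 (.s k254 k170 13 (.d k252 k253 k169 0 14)))] (.c k1 (.q k51 [(.s k19 k35 3
  (.s k169 k252 14 (.s k153 k220 10 (.s k137 k185 3 (.d k204 k70 k102 10 14))))), (.s k252 k169 14
  (.s k253 k254 0 (.s k185 k118 10 (.s k117 k49 9 (.s k186 k48 10 (.d k187 k184 k119 0 9)))))), (.s
  k19 k35 3 (.s k153 k220 10 (.s k187 k119 9 (.s k136 k170 4 (.d k204 k68 k102 9 14)))))] (.c k169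
  (.q k253 [(.s k19 k35 3 (.s k153 k220 10 (.s k102 k204 14 (.s k118 k70 3 (.d k252 k254 k185 0
  10))))), (.s k252 k254 0 (.s k185 k118 10 (.s k117 k49 9 (.s k186 k48 10 (.d k187 k184 k119 0
  9))))), (.s k19 k35 3 (.s k153 k220 10 (.s k187 k119 9 (.s k136 k170 4 (.d k204 k68 k102 9
  14)))))] .n) (.c k253 (.l (.s k169 k252 14 (.s k19 k35 3 (.s k153 k220 10 (.s k204 k102 14 (.d
  k137 k185 k70 3 10)))))) .n))) (.c k2 (.q k51 [(.s k19 k35 3 (.s k153 k220 10 (.s k187 k119 9 (.s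
  k136 k170 4 (.d k204 k68 k102 9 14))))), (.s k252 k169 14 (.s k118 k185 10 (.s k119 k187 9 (.s
  k117 k116 0 (.s k186 k48 10 (.d k254 k253 k50 0 9)))))), (.s k34 k17 4 (.s k252 k169 14 (.s k118
  k185 10 (.s k102 k70 3 (.s k238 k170 9 (.d k204 k221 k153 4 14))))))] (.c k153 (.l (.s k252 k169
  14 (.s k185 k118 10 (.s k187 k119 9 (.s k186 k184 0 (.s k117 k48 10 (.d k253 k254 k49 0 9)))))))
  .n)) (.c k169 (.f k1 k2 0 (.q k243 [(.s k81 k162 12 (.s k161 k241 11 (.s k82 k240 12 (.d k83 k80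
  k163 0 11)))), (.s k83 k163 11 (.s k89 k92 2 (.s k251 k247 1 (.s k8 k170 12 (.d k12 k4 k166 1
  14)))))] (.c k83 (.q k51 [(.s k17 k34 4 (.s k33 k49 3 (.s k18 k48 4 (.d k19 k16 k35 0 3)))), (.s
  k81 k162 12 (.s k161 k241 11 (.s k35 k19 3 (.s k98 k224 8 (.d k115 k64 k179 4 7))))), (.s k17 k34
  4 (.s k81 k162 12 (.s k145 k209 7 (.s k98 k192 12 (.d k115 k64 k179 4 7)))))] (.c k91 (.q k95 [(.s
  k17 k34 4 (.s k33 k49 3 (.s k18 k48 4 (.d k19 k16 k35 0 3)))), (.s k81 k162 12 (.s k161 k241 11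
  (.s k35 k19 3 (.s k98 k224 8 (.d k115 k64 k179 4 7))))), (.s k17 k34 4 (.s k81 k162 12 (.s k145
  k209 7 (.s k98 k192 12 (.d k115 k64 k179 4 7)))))] .n) (.c k95 (.q k91 [(.s k251 k247 1 (.s k11
  k171 11 (.d k15 k7 k167 1 13))), (.s k17 k34 4 (.s k33 k49 3 (.s k18 k48 4 (.d k19 k16 k35 0
  3))))] (.c k80 (.q k90 [(.s k81 k162 12 (.s k161 k241 11 (.d k82 k94 k240 1 12))), (.s k251 k247 1
  (.s k11 k171 11 (.d k15 k7 k167 1 13)))] (.c k81 (.l (.s k82 k94 1 (.s k240 k161 12 (.d k15 k165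
  k167 14 13)))) (.c k82 (.f k81 k162 12 (.q k242 [(.d k241 k240 k161 0 11), (.s k166 k14 13 (.d k89
  k88 k12 0 14))] .n)) .n))) (.c k90 (.q k80 [(.s k240 k160 11 (.s k81 k162 12 (.d k161 k82 k241 12
  11))), (.s k251 k247 1 (.s k11 k171 11 (.d k15 k7 k167 1 13)))] (.c k11 (.q k248 [(.s k240 k160 11
  (.s k81 k162 12 (.d k161 k82 k241 12 11))), (.s k17 k34 4 (.s k33 k49 3 (.s k18 k48 4 (.d k19 k16
  k35 0 3))))] .n) (.c k248 (.q k11 [(.d k15 k7 k167 1 13), (.d k251 k247 k171 1 11)] .n) .n)))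
  .n))) .n))) (.c k163 (.q k12 [(.s k6 k9 2 (.d k166 k89 k246 14 11)), (.s k81 k162 12 (.s k161 k241
  11 (.s k82 k240 12 (.s k83 k80 0 (.d k89 k166 k92 14 2)))))] (.c k89 (.l (.s k8 k4 1 (.s k9 k6 2
  (.s k5 k13 1 (.d k10 k11 k15 0 2))))) (.c k166 (.q k172 [(.s k9 k6 2 (.s k5 k13 1 (.s k10 k15 2
  (.d k8 k4 k11 1 0)))), (.s k247 k251 1 (.s k81 k162 12 (.s k161 k241 11 (.s k82 k240 12 (.s k92
  k252 11 (.d k83 k80 k89 0 2))))))] (.c k4 (.l (.s k247 k251 1 (.s k81 k162 12 (.s k161 k241 11 (.s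
  k82 k240 12 (.s k92 k252 11 (.d k83 k80 k89 0 2))))))) (.c k247 (.l (.s k4 k8 1 (.s k81 k162 12
  (.s k161 k241 11 (.s k82 k240 12 (.s k92 k252 11 (.d k83 k80 k89 0 2))))))) .n))) (.c k172 (.l (.s
  k166 k89 14 (.d k6 k9 k246 2 11))) .n)))) .n)))) (.c k170 (.q k51 [(.s k19 k35 3 (.s k169 k252 14
  (.s k153 k220 10 (.s k137 k185 3 (.d k204 k70 k102 10 14))))), (.s k1 k2 0 (.s k17 k34 4 (.s k33
  k49 3 (.s k18 k48 4 (.d k19 k16 k35 0 3))))), (.s k1 k2 0 (.s k17 k34 4 (.s k252 k169 14 (.s k185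
  k118 10 (.s k253 k254 0 (.d k49 k33 k117 3 9))))))] (.c k102 (.l (.s k2 k1 0 (.s k34 k17 4 (.s k18
  k50 3 (.s k33 k48 4 (.d k35 k32 k19 0 3)))))) .n)) (.c k252 (.q k51 [(.s k1 k2 0 (.s k17 k34 4 (.s
  k33 k49 3 (.s k19 k35 3 (.d k18 k16 k48 0 4))))), (.s k19 k35 3 (.s k153 k220 10 (.s k187 k119 9
  (.s k136 k170 4 (.d k204 k68 k102 9 14))))), (.s k2 k1 0 (.s k34 k17 4 (.s k170 k254 13 (.s k102
  k238 9 (.s k153 k204 14 (.d k187 k136 k119 4 9))))))] (.c k126 (.q k189 [(.s k1 k2 0 (.s k17 k34 4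
  (.s k33 k49 3 (.s k19 k35 3 (.d k18 k16 k48 0 4))))), (.s k19 k35 3 (.s k153 k220 10 (.s k187 k119
  9 (.s k136 k170 4 (.d k204 k68 k102 9 14))))), (.s k2 k1 0 (.s k34 k17 4 (.s k170 k254 13 (.s k102
  k238 9 (.s k153 k204 14 (.d k187 k136 k119 4 9))))))] .n) (.c k189 (.q k126 [(.s k1 k2 0 (.s k17
  k34 4 (.s k33 k49 3 (.s k19 k35 3 (.d k18 k16 k48 0 4))))), (.s k19 k35 3 (.s k153 k220 10 (.s
  k187 k119 9 (.s k136 k170 4 (.d k204 k68 k102 9 14))))), (.s k2 k1 0 (.s k34 k17 4 (.s k170 k254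
  13 (.s k102 k238 9 (.s k153 k204 14 (.d k187 k136 k119 4 9))))))] .n) .n))) (.c k253 (.q k51 [(.s
  k1 k2 0 (.s k17 k34 4 (.s k33 k49 3 (.s k19 k35 3 (.d k18 k16 k48 0 4))))), (.s k169 k252 14 (.s
  k19 k35 3 (.s k153 k220 10 (.s k204 k102 14 (.d k137 k185 k70 3 10))))), (.s k1 k2 0 (.s k34 k17 4
  (.s k252 k169 14 (.s k118 k185 10 (.s k102 k70 3 (.s k238 k170 9 (.d k204 k221 k153 4 14)))))))]
  (.c k1 (.l (.s k169 k252 14 (.s k19 k35 3 (.s k153 k220 10 (.s k204 k102 14 (.d k137 k185 k70 3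
  10)))))) (.c k169 (.l (.s k1 k2 0 (.s k17 k34 4 (.s k33 k49 3 (.s k18 k48 4 (.d k19 k16 k35 0
  3)))))) (.c k185 (.l (.s k1 k2 0 (.s k17 k34 4 (.s k19 k35 3 (.s k18 k16 0 (.d k33 k49 k48 3
  4)))))) .n)))) (.c k254 (.q k51 [(.s k1 k2 0 (.s k17 k34 4 (.s k33 k49 3 (.s k19 k35 3 (.d k18 k16
  k48 0 4))))), (.s k19 k35 3 (.s k169 k252 14 (.s k153 k220 10 (.s k204 k102 14 (.d k137 k185 k70 3
  10))))), (.s k34 k17 4 (.s k252 k169 14 (.s k118 k185 10 (.s k102 k70 3 (.s k238 k170 9 (.d k204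
  k221 k153 4 14))))))] .n) .n))))))))

def t85_88 : T TT 256 :=
  (.f k87 k171 13 (.q k19 [(.s k51 k35 3 (.s k119 k187 9 (.s k103 k71 3 (.d k155 k223 k207 9 13)))),
  (.s k1 k2 0 (.s k51 k35 3 (.s k17 k34 4 (.s k33 k49 3 (.d k18 k16 k48 0 4)))))] (.c k35 (.q k207
  [(.d k223 k239 k155 3 9), (.s k1 k2 0 (.s k69 k138 10 (.s k137 k205 9 (.s k70 k204 10 (.d k71 k68
  k139 0 9)))))] (.c k103 (.l (.s k239 k223 3 (.s k1 k2 0 (.s k69 k138 10 (.s k137 k205 9 (.s k70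
  k204 10 (.d k71 k68 k139 0 9))))))) (.c k239 (.q k103 [(.d k155 k223 k51 9 13), (.d k71 k119 k139
  3 9)] .n) .n))) (.c k51 (.l (.s k1 k2 0 (.s k223 k155 9 (.s k207 k239 3 (.s k69 k138 10 (.s k137
  k205 9 (.s k70 k204 10 (.d k71 k139 k68 9 0)))))))) (.c k103 (.l (.s k1 k2 0 (.s k223 k155 9 (.s
  k51 k35 3 (.s k239 k207 3 (.s k17 k34 4 (.s k33 k49 3 (.d k18 k16 k48 0 4)))))))) (.c k239 (.l (.s
  k155 k223 9 (.s k51 k35 3 (.s k103 k207 13 (.d k119 k71 k187 3 9))))) .n))))))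

def t85_89 : T TT 256 :=
  (.f k87 k171 13 (.f k1 k2 0 (.q k51 [(.s k19 k35 3 (.s k119 k187 9 (.s k103 k71 3 (.d k155 k223
  k207 9 13)))), (.s k17 k34 4 (.s k33 k49 3 (.s k18 k48 4 (.d k19 k16 k35 0 3))))] (.c k19 (.q k81
  [(.s k243 k162 12 (.s k161 k241 11 (.s k82 k240 12 (.d k83 k80 k163 0 11)))), (.s k17 k34 4 (.s
  k162 k243 12 (.s k145 k209 7 (.s k192 k98 12 (.d k128 k179 k64 4 7))))), (.s k17 k34 4 (.s k161
  k241 11 (.s k145 k209 7 (.s k129 k177 3 (.d k192 k66 k98 8 12)))))] .n) (.c k35 (.l (.s k17 k34 4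
  (.s k33 k49 3 (.s k18 k48 4 (.s k19 k16 0 (.s k119 k187 9 (.s k103 k71 3 (.d k155 k223 k207 9
  13)))))))) (.c k81 (.q k93 [(.s k19 k35 3 (.s k119 k187 9 (.s k103 k71 3 (.d k155 k223 k207 9
  13)))), (.s k12 k174 12 (.s k8 k4 1 (.s k9 k6 2 (.s k5 k13 1 (.d k10 k11 k15 0 2)))))] .n) (.c k93
  (.q k81 [(.s k17 k34 4 (.s k33 k49 3 (.s k18 k48 4 (.d k19 k16 k35 0 3)))), (.s k162 k243 12 (.s
  k161 k241 11 (.s k240 k82 12 (.d k160 k163 k80 0 11))))] .n) .n)))))))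

def t85_90 : T TT 256 :=
  (.f k1 k2 0 (.f k87 k171 13 (.q k95 [(.s k91 k83 1 (.s k15 k175 11 (.s k167 k243 13 (.d k7 k11
  k247 1 11)))), (.s k15 k175 11 (.s k5 k10 2 (.s k9 k13 1 (.s k6 k12 2 (.d k7 k4 k11 0 1))))), (.s
  k83 k91 1 (.s k243 k163 11 (.s k81 k162 12 (.s k161 k241 11 (.d k82 k80 k240 0 12)))))] (.c k11
  (.l (.s k15 k175 11 (.s k5 k10 2 (.s k9 k13 1 (.s k6 k12 2 (.s k7 k4 0 (.s k91 k83 1 (.d k167 k247
  k243 11 13)))))))) (.c k163 (.l (.s k91 k83 1 (.s k15 k175 11 (.s k167 k243 13 (.d k7 k11 k247 1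
  11))))) (.c k167 (.l (.s k175 k15 11 (.s k83 k91 1 (.s k243 k163 11 (.s k81 k162 12 (.s k161 k241
  11 (.d k82 k240 k80 12 0))))))) (.c k175 (.q k207 [(.s k69 k138 10 (.s k137 k205 9 (.s k70 k204 10
  (.d k71 k68 k139 0 9)))), (.s k91 k83 1 (.s k223 k239 3 (.s k155 k19 9 (.s k219 k27 7 (.s k31 k159
  7 (.d k211 k215 k151 1 9))))))] (.c k163 (.q k167 [(.s k247 k7 11 (.s k91 k83 1 (.d k243 k251 k15
  1 13))), (.s k69 k138 10 (.s k137 k205 9 (.s k70 k204 10 (.d k71 k68 k139 0 9))))] .n) (.c k167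
  (.q k163 [(.d k83 k91 k243 1 11), (.s k69 k138 10 (.s k137 k205 9 (.s k70 k204 10 (.d k71 k68 k139
  0 9))))] .n) .n))) .n)))))))

def t85_91 : T TT 256 :=
  (.f k1 k2 0 (.q k19 [(.s k51 k35 3 (.s k17 k34 4 (.s k33 k49 3 (.d k18 k16 k48 0 4)))), (.s k87
  k171 13 (.s k223 k155 9 (.s k207 k239 3 (.s k69 k138 10 (.s k137 k205 9 (.s k70 k204 10 (.d k71
  k139 k68 9 0)))))))] (.c k35 (.q k207 [(.s k223 k239 3 (.d k87 k171 k155 13 9)), (.s k69 k138 10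
  (.s k137 k205 9 (.s k70 k204 10 (.d k71 k68 k139 0 9))))] .n) .n)))

def t85_92 : T TT 256 :=
  (.f k1 k2 0 (.q k19 [(.s k51 k35 3 (.s k17 k34 4 (.s k33 k49 3 (.d k18 k16 k48 0 4)))), (.s k87
  k171 13 (.s k223 k155 9 (.s k207 k239 3 (.s k69 k138 10 (.s k137 k205 9 (.s k70 k204 10 (.d k71
  k139 k68 9 0)))))))] (.c k35 (.q k207 [(.s k87 k171 13 (.d k223 k239 k155 3 9)), (.s k69 k138 10
  (.s k137 k205 9 (.s k70 k204 10 (.d k71 k68 k139 0 9))))] .n) .n)))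

def t85_93 : T TT 256 :=
  (.f k87 k171 13 (.f k1 k2 0 (.q k81 [(.s k162 k243 12 (.s k161 k241 11 (.s k240 k82 12 (.d k160
  k163 k80 0 11)))), (.s k243 k162 12 (.s k247 k251 1 (.s k167 k7 11 (.s k91 k15 13 (.d k83 k95 k163
  1 11)))))] (.c k82 (.l (.s k241 k161 11 (.s k243 k162 12 (.s k242 k240 0 (.s k247 k251 1 (.s k167
  k7 11 (.s k91 k15 13 (.d k83 k163 k95 11 1)))))))) (.c k162 (.l (.s k161 k241 11 (.s k82 k240 12
  (.s k83 k80 0 (.s k243 k163 11 (.s k247 k251 1 (.s k167 k7 11 (.d k91 k95 k15 1 13)))))))) (.c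
  k163 (.l (.s k243 k162 12 (.s k161 k241 11 (.s k82 k240 12 (.s k83 k80 0 (.s k247 k251 1 (.s k167
  k7 11 (.d k91 k95 k15 1 13)))))))) (.c k242 (.l (.s k162 k243 12 (.s k161 k241 11 (.s k240 k82 12
  (.d k160 k163 k80 0 11))))) (.c k243 (.q k207 [(.s k71 k139 9 (.s k223 k239 3 (.s k155 k19 9 (.d
  k103 k119 k51 3 13)))), (.s k69 k138 10 (.s k137 k205 9 (.s k70 k204 10 (.d k71 k68 k139 0 9)))),
  (.s k161 k241 11 (.s k240 k82 12 (.s k218 k229 6 (.s k223 k239 3 (.s k213 k208 2 (.s k234 k192 6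
  (.d k250 k245 k202 2 3)))))))] (.c k123 (.q k183 [(.s k71 k139 9 (.s k223 k239 3 (.s k155 k19 9
  (.d k103 k119 k51 3 13)))), (.s k69 k138 10 (.s k137 k205 9 (.s k70 k204 10 (.d k71 k68 k139 0
  9)))), (.s k161 k241 11 (.s k240 k82 12 (.s k218 k229 6 (.s k223 k239 3 (.s k213 k208 2 (.s k234
  k192 6 (.d k250 k245 k202 2 3)))))))] .n) (.c k183 (.q k123 [(.s k71 k139 9 (.s k223 k239 3 (.s
  k155 k19 9 (.d k103 k119 k51 3 13)))), (.s k69 k138 10 (.s k137 k205 9 (.s k70 k204 10 (.d k71 k68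
  k139 0 9)))), (.s k161 k241 11 (.s k240 k82 12 (.s k218 k229 6 (.s k223 k239 3 (.s k213 k208 2 (.s
  k234 k192 6 (.d k250 k245 k202 2 3)))))))] .n) .n))) .n))))))))

def t85_94 : T TT 256 :=
  (.f k1 k2 0 (.f k87 k171 13 (.q k243 [(.s k83 k163 11 (.s k247 k251 1 (.s k167 k7 11 (.d k91 k95
  k15 1 13)))), (.s k81 k162 12 (.s k161 k241 11 (.s k82 k240 12 (.d k83 k80 k163 0 11))))] (.c k83
  (.q k86 [(.s k81 k162 12 (.s k252 k169 14 (.s k249 k246 2 (.s k253 k254 0 (.d k241 k245 k161 1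
  11))))), (.s k252 k169 14 (.s k246 k249 2 (.s k247 k251 1 (.s k7 k167 11 (.d k244 k245 k165 0
  12))))), (.s k81 k162 12 (.s k161 k241 11 (.s k169 k252 14 (.s k247 k251 1 (.s k7 k167 11 (.d k165
  k173 k244 1 12)))))), (.s k81 k162 12 (.s k161 k241 11 (.s k247 k251 1 (.s k7 k167 11 (.s k244
  k165 12 (.s k245 k246 0 (.d k240 k82 k250 12 2)))))))] .n) (.c k163 (.l (.s k81 k162 12 (.s k161
  k241 11 (.s k82 k240 12 (.s k83 k80 0 (.s k247 k251 1 (.s k167 k7 11 (.d k91 k95 k15 1 13))))))))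
  .n)))))

def t85_95 : T TT 256 :=
  (.f k1 k2 0 (.q k19 [(.s k51 k35 3 (.s k17 k34 4 (.s k33 k49 3 (.d k18 k16 k48 0 4)))), (.s k87
  k171 13 (.s k223 k155 9 (.s k207 k239 3 (.s k69 k138 10 (.s k137 k205 9 (.s k70 k204 10 (.d k71
  k139 k68 9 0)))))))] (.c k35 (.q k207 [(.s k87 k171 13 (.d k223 k239 k155 3 9)), (.s k69 k138 10
  (.s k137 k205 9 (.s k70 k204 10 (.d k71 k68 k139 0 9))))] (.c k80 (.q k90 [(.s k87 k171 13 (.d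
  k223 k239 k155 3 9)), (.s k69 k138 10 (.s k137 k205 9 (.s k70 k204 10 (.d k71 k68 k139 0 9))))]
  .n) (.c k90 (.q k80 [(.s k87 k171 13 (.d k223 k239 k155 3 9)), (.s k69 k138 10 (.s k137 k205 9 (.s
  k70 k204 10 (.d k71 k68 k139 0 9))))] .n) .n))) (.c k80 (.q k90 [(.s k51 k35 3 (.s k17 k34 4 (.s
  k33 k49 3 (.d k18 k16 k48 0 4)))), (.s k87 k171 13 (.s k223 k155 9 (.s k207 k239 3 (.s k69 k138 10
  (.s k137 k205 9 (.s k70 k204 10 (.d k71 k139 k68 9 0)))))))] (.c k35 (.q k207 [(.s k87 k171 13 (.d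
  k223 k239 k155 3 9)), (.s k69 k138 10 (.s k137 k205 9 (.s k70 k204 10 (.d k71 k68 k139 0 9))))]
  .n) .n)) (.c k90 (.q k80 [(.s k51 k35 3 (.s k17 k34 4 (.s k33 k49 3 (.d k18 k16 k48 0 4)))), (.s
  k51 k35 3 (.s k87 k171 13 (.s k119 k187 9 (.s k103 k71 3 (.d k155 k223 k207 9 13))))), (.s k240
  k160 11 (.s k82 k161 12 (.s k208 k145 8 (.s k16 k144 7 (.s k48 k32 3 (.d k18 k17 k33 0 4))))))]
  .n) .n)))))

def t85_96 : T TT 256 :=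
  (.f k1 k2 0 (.f k87 k171 13 (.q k243 [(.s k83 k163 11 (.s k247 k251 1 (.s k167 k7 11 (.d k91 k95
  k15 1 13)))), (.s k81 k162 12 (.s k161 k241 11 (.s k82 k240 12 (.d k83 k80 k163 0 11))))] (.c k83
  (.q k86 [(.s k81 k162 12 (.s k252 k169 14 (.s k249 k246 2 (.s k253 k254 0 (.d k241 k245 k161 1
  11))))), (.s k252 k169 14 (.s k246 k249 2 (.s k247 k251 1 (.s k7 k167 11 (.d k244 k245 k165 0
  12))))), (.s k81 k162 12 (.s k161 k241 11 (.s k169 k252 14 (.s k165 k173 1 (.s k7 k244 12 (.d k247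
  k251 k167 1 11)))))), (.s k81 k162 12 (.s k161 k241 11 (.s k247 k251 1 (.s k7 k167 11 (.s k244
  k165 12 (.s k245 k246 0 (.d k240 k82 k250 12 2)))))))] .n) (.c k163 (.l (.s k81 k162 12 (.s k161
  k241 11 (.s k82 k240 12 (.s k83 k80 0 (.s k247 k251 1 (.s k167 k7 11 (.d k91 k95 k15 1 13))))))))
  .n)))))

def t85_97 : T TT 256 :=
  (.f k1 k2 0 (.f k87 k171 13 (.q k243 [(.s k83 k163 11 (.s k247 k251 1 (.s k167 k7 11 (.d k91 k95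
  k15 1 13)))), (.s k81 k162 12 (.s k161 k241 11 (.s k82 k240 12 (.d k83 k80 k163 0 11))))] (.c k83
  (.q k86 [(.s k81 k162 12 (.s k252 k169 14 (.s k249 k246 2 (.s k253 k254 0 (.d k241 k245 k161 1
  11))))), (.s k252 k169 14 (.s k246 k249 2 (.s k247 k251 1 (.s k7 k167 11 (.d k244 k245 k165 0
  12))))), (.s k81 k162 12 (.s k161 k241 11 (.s k169 k252 14 (.s k165 k173 1 (.s k7 k244 12 (.d k247
  k251 k167 1 11)))))), (.s k81 k162 12 (.s k161 k241 11 (.s k247 k251 1 (.s k7 k167 11 (.s k244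
  k165 12 (.s k245 k246 0 (.d k240 k82 k250 12 2)))))))] .n) (.c k163 (.l (.s k81 k162 12 (.s k161
  k241 11 (.s k82 k240 12 (.s k83 k80 0 (.s k247 k251 1 (.s k167 k7 11 (.d k91 k95 k15 1 13))))))))
  .n)))))

def t85_98 : T TT 256 :=
  (.f k1 k2 0 (.f k87 k171 13 (.q k243 [(.s k83 k163 11 (.s k247 k251 1 (.s k167 k7 11 (.d k91 k95
  k15 1 13)))), (.s k81 k162 12 (.s k161 k241 11 (.s k82 k240 12 (.d k83 k80 k163 0 11))))] (.c k83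
  (.q k86 [(.s k81 k162 12 (.s k252 k169 14 (.s k249 k246 2 (.s k253 k254 0 (.d k241 k245 k161 1
  11))))), (.s k252 k169 14 (.s k246 k249 2 (.s k247 k251 1 (.s k7 k167 11 (.d k244 k245 k165 0
  12))))), (.s k81 k162 12 (.s k161 k241 11 (.s k169 k252 14 (.s k165 k173 1 (.s k7 k244 12 (.d k247
  k251 k167 1 11)))))), (.s k81 k162 12 (.s k161 k241 11 (.s k247 k251 1 (.s k7 k167 11 (.s k244
  k165 12 (.s k245 k246 0 (.d k240 k82 k250 12 2)))))))] .n) (.c k163 (.l (.s k81 k162 12 (.s k161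
  k241 11 (.s k82 k240 12 (.s k83 k80 0 (.s k247 k251 1 (.s k167 k7 11 (.d k91 k95 k15 1 13))))))))
  .n)))))

def t85_99 : T TT 256 :=
  (.f k1 k2 0 (.f k87 k171 13 (.q k207 [(.s k71 k139 9 (.s k223 k239 3 (.s k155 k19 9 (.d k103 k119
  k51 3 13)))), (.s k69 k138 10 (.s k137 k205 9 (.s k70 k204 10 (.d k71 k68 k139 0 9))))] (.c k71
  (.q k19 [(.d k223 k239 k155 3 9), (.s k51 k35 3 (.s k17 k34 4 (.s k33 k49 3 (.d k18 k16 k48 0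
  4))))] (.c k239 (.l (.s k155 k223 9 (.d k51 k35 k103 3 13))) .n)) (.c k139 (.l (.s k69 k138 10 (.s
  k137 k205 9 (.s k70 k204 10 (.s k71 k68 0 (.s k223 k239 3 (.s k155 k19 9 (.d k103 k119 k51 3
  13)))))))) .n)))))

def t85_100 : T TT 256 :=
  (.f k87 k171 13 (.f k1 k2 0 (.q k51 [(.s k19 k35 3 (.s k119 k187 9 (.s k103 k71 3 (.d k155 k223
  k207 9 13)))), (.s k17 k34 4 (.s k33 k49 3 (.s k18 k48 4 (.d k19 k16 k35 0 3))))] (.c k19 (.q k81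
  [(.s k243 k162 12 (.s k161 k241 11 (.s k82 k240 12 (.d k83 k80 k163 0 11)))), (.s k17 k34 4 (.s
  k162 k243 12 (.s k145 k209 7 (.s k192 k98 12 (.d k128 k179 k64 4 7))))), (.s k17 k34 4 (.s k161
  k241 11 (.s k145 k209 7 (.s k129 k177 3 (.d k192 k66 k98 8 12)))))] .n) (.c k35 (.l (.s k17 k34 4
  (.s k33 k49 3 (.s k18 k48 4 (.s k19 k16 0 (.s k119 k187 9 (.s k103 k71 3 (.d k155 k223 k207 9
  13)))))))) .n)))))

def t85_101 : T TT 256 :=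
  (.f k1 k2 0 (.f k87 k171 13 (.q k243 [(.s k83 k163 11 (.s k247 k251 1 (.s k167 k7 11 (.d k91 k95
  k15 1 13)))), (.s k81 k162 12 (.s k161 k241 11 (.s k82 k240 12 (.d k83 k80 k163 0 11))))] (.c k69
  (.q k117 [(.s k83 k163 11 (.s k247 k251 1 (.s k167 k7 11 (.d k91 k95 k15 1 13)))), (.s k48 k186 10
  (.s k32 k16 3 (.s k33 k18 4 (.s k17 k49 3 (.d k34 k35 k51 0 4)))))] .n) (.c k83 (.q k69 [(.s k207
  k138 10 (.s k137 k205 9 (.s k70 k204 10 (.d k71 k68 k139 0 9)))), (.s k207 k138 10 (.s k219 k231 5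
  (.s k223 k239 3 (.s k215 k211 1 (.s k235 k195 5 (.d k251 k247 k203 1 3))))))] (.c k70 (.l (.s k81
  k162 12 (.s k205 k137 9 (.s k241 k161 11 (.s k217 k229 5 (.s k204 k230 6 (.d k207 k206 k138 0
  10))))))) (.c k138 (.l (.s k137 k205 9 (.s k70 k204 10 (.s k71 k68 0 (.s k207 k139 9 (.s k223 k239
  3 (.s k155 k19 9 (.d k103 k119 k51 3 13)))))))) (.c k206 (.l (.s k138 k207 10 (.s k137 k205 9 (.s
  k204 k70 10 (.d k136 k139 k68 0 9))))) (.c k207 (.l (.s k137 k205 9 (.s k204 k70 10 (.s k217 k230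
  6 (.s k221 k238 4 (.s k213 k209 1 (.s k234 k192 6 (.d k251 k247 k200 1 4)))))))) .n))))) (.c k117
  (.q k69 [(.s k81 k162 12 (.s k161 k241 11 (.s k82 k240 12 (.d k83 k80 k163 0 11)))), (.s k138 k207
  10 (.s k137 k205 9 (.s k204 k70 10 (.d k136 k139 k68 0 9))))] .n) (.c k163 (.l (.s k81 k162 12 (.s
  k161 k241 11 (.s k82 k240 12 (.s k83 k80 0 (.s k247 k251 1 (.s k167 k7 11 (.d k91 k95 k15 1
  13)))))))) .n)))))))

def t85_102 : T TT 256 :=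
  (.f k1 k2 0 (.f k87 k171 13 (.q k15 [(.s k7 k11 1 (.s k95 k175 11 (.s k91 k83 1 (.d k167 k247 k243
  11 13)))), (.s k5 k10 2 (.s k9 k13 1 (.s k6 k12 2 (.d k7 k4 k11 0 1))))] (.c k7 (.q k119 [(.s k103
  k71 3 (.s k51 k187 9 (.s k155 k207 13 (.d k19 k35 k223 3 9)))), (.s k51 k187 9 (.s k17 k34 4 (.s
  k33 k49 3 (.s k18 k48 4 (.d k19 k16 k35 0 3))))), (.s k95 k175 11 (.s k103 k71 3 (.s k91 k83 1 (.s
  k167 k243 13 (.s k39 k231 7 (.d k51 k27 k187 5 9))))))] (.c k51 (.l (.s k71 k103 3 (.s k207 k139 9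
  (.s k69 k138 10 (.s k137 k205 9 (.d k70 k68 k204 0 10)))))) (.c k187 (.l (.s k95 k175 11 (.s k103
  k71 3 (.s k91 k83 1 (.s k79 k115 5 (.s k207 k143 7 (.s k155 k51 13 (.d k223 k239 k19 3 9))))))))
  .n))) (.c k11 (.l (.s k5 k10 2 (.s k9 k13 1 (.s k6 k12 2 (.s k7 k4 0 (.s k95 k175 11 (.s k91 k83 1
  (.d k167 k247 k243 11 13)))))))) (.c k68 (.q k119 [(.s k7 k11 1 (.s k95 k175 11 (.s k91 k83 1 (.d
  k167 k247 k243 11 13)))), (.s k51 k187 9 (.s k19 k35 3 (.s k155 k223 9 (.d k103 k71 k207 3 13))))]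
  .n) (.c k119 (.q k68 [(.s k7 k11 1 (.s k95 k175 11 (.s k91 k83 1 (.d k167 k247 k243 11 13)))), (.s
  k5 k10 2 (.s k204 k136 9 (.s k137 k70 10 (.s k69 k205 9 (.s k133 k197 7 (.d k141 k129 k78 1
  8))))))] .n) .n)))))))

def t85_103 : T TT 256 :=
  (.f k1 k2 0 (.q k243 [(.s k81 k162 12 (.s k161 k241 11 (.s k83 k163 11 (.d k82 k80 k240 0 12)))),
  (.s k83 k163 11 (.s k87 k171 13 (.s k247 k251 1 (.s k167 k7 11 (.d k91 k95 k15 1 13)))))] (.c k83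
  (.q k51 [(.s k17 k34 4 (.s k33 k49 3 (.s k18 k48 4 (.d k19 k16 k35 0 3)))), (.s k81 k162 12 (.s
  k161 k241 11 (.s k35 k19 3 (.s k98 k224 8 (.d k115 k64 k179 4 7))))), (.s k17 k34 4 (.s k81 k162
  12 (.s k145 k209 7 (.s k98 k192 12 (.d k115 k64 k179 4 7)))))] .n) (.c k163 (.q k51 [(.s k17 k34 4
  (.s k33 k49 3 (.s k18 k48 4 (.d k19 k16 k35 0 3)))), (.s k81 k162 12 (.s k161 k241 11 (.s k35 k19
  3 (.s k98 k224 8 (.d k115 k64 k179 4 7))))), (.s k17 k34 4 (.s k81 k162 12 (.s k145 k209 7 (.s k98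
  k192 12 (.d k115 k64 k179 4 7)))))] .n) .n))))

def t85_104 : T TT 256 :=
  (.f k1 k2 0 (.f k87 k171 13 (.q k243 [(.s k83 k163 11 (.s k247 k251 1 (.s k167 k7 11 (.d k91 k95
  k15 1 13)))), (.s k81 k162 12 (.s k161 k241 11 (.s k82 k240 12 (.d k83 k80 k163 0 11))))] (.c k83
  (.q k35 [(.s k81 k162 12 (.s k161 k241 11 (.s k51 k19 3 (.s k98 k224 8 (.d k115 k64 k179 4 7))))),
  (.s k19 k51 3 (.s k223 k155 9 (.s k207 k239 3 (.s k69 k138 10 (.s k137 k205 9 (.s k70 k204 10 (.d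
  k71 k139 k68 9 0))))))), (.s k81 k162 12 (.s k161 k241 11 (.s k82 k240 12 (.s k98 k224 8 (.s k64
  k115 4 (.s k192 k128 7 (.d k66 k114 k129 3 8)))))))] .n) (.c k163 (.l (.s k81 k162 12 (.s k161
  k241 11 (.s k82 k240 12 (.s k83 k80 0 (.s k247 k251 1 (.s k167 k7 11 (.d k91 k95 k15 1 13))))))))
  .n)))))

def t85_105 : T TT 256 :=
  (.f k87 k171 13 (.f k1 k2 0 (.q k207 [(.s k71 k139 9 (.s k223 k239 3 (.s k155 k19 9 (.d k103 k119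
  k51 3 13)))), (.s k69 k138 10 (.s k137 k205 9 (.s k70 k204 10 (.d k71 k68 k139 0 9))))] (.c k65
  (.q k125 [(.s k71 k139 9 (.s k223 k239 3 (.s k155 k19 9 (.d k103 k119 k51 3 13)))), (.s k69 k138
  10 (.s k137 k205 9 (.s k70 k204 10 (.d k71 k68 k139 0 9)))), (.s k60 k190 8 (.s k109 k158 12 (.s
  k93 k77 3 (.s k174 k12 12 (.d k239 k223 k44 3 8)))))] .n) (.c k71 (.q k65 [(.s k195 k130 8 (.s
  k129 k193 7 (.s k66 k192 8 (.d k67 k64 k131 0 7)))), (.s k69 k138 10 (.s k193 k129 7 (.s k137 k205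
  9 (.s k73 k77 1 (.s k9 k201 7 (.d k13 k5 k133 1 9)))))), (.s k195 k130 8 (.s k69 k138 10 (.s k73
  k77 1 (.s k134 k12 10 (.d k199 k203 k4 1 8)))))] .n) (.c k125 (.q k65 [(.s k69 k138 10 (.s k137
  k205 9 (.s k70 k204 10 (.d k71 k68 k139 0 9)))), (.s k130 k195 8 (.s k129 k193 7 (.s k192 k66 8
  (.d k128 k131 k64 0 7))))] .n) (.c k139 (.l (.s k69 k138 10 (.s k137 k205 9 (.s k70 k204 10 (.s
  k71 k68 0 (.s k223 k239 3 (.s k155 k19 9 (.d k103 k119 k51 3 13)))))))) .n)))))))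

def t85_106 : T TT 256 :=
  (.f k1 k2 0 (.f k87 k171 13 (.q k243 [(.s k83 k163 11 (.s k247 k251 1 (.s k167 k7 11 (.d k91 k95
  k15 1 13)))), (.s k81 k162 12 (.s k161 k241 11 (.s k82 k240 12 (.d k83 k80 k163 0 11))))] (.c k64
  (.q k127 [(.s k83 k163 11 (.s k247 k251 1 (.s k167 k7 11 (.d k91 k95 k15 1 13)))), (.s k81 k162 12
  (.s k161 k241 11 (.s k82 k240 12 (.s k67 k107 5 (.s k195 k131 7 (.s k65 k130 8 (.d k97 k113 k112 3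
  4)))))))] (.c k149 (.q k192 [(.s k81 k162 12 (.s k161 k241 11 (.s k82 k240 12 (.d k83 k80 k163 0
  11)))), (.s k129 k66 8 (.s k65 k193 7 (.s k67 k107 5 (.d k195 k130 k131 8 7))))] (.c k21 (.l (.s
  k213 k234 6 (.s k81 k162 12 (.s k161 k241 11 (.s k82 k240 12 (.d k83 k80 k163 0 11)))))) (.c k213
  (.q k21 [(.s k81 k162 12 (.s k161 k241 11 (.s k82 k240 12 (.d k83 k80 k163 0 11)))), (.s k129 k66
  8 (.s k65 k193 7 (.s k67 k107 5 (.d k195 k130 k131 8 7))))] .n) .n))) (.c k192 (.q k149 [(.s k83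
  k163 11 (.s k247 k251 1 (.s k167 k7 11 (.d k91 k95 k15 1 13)))), (.s k81 k162 12 (.s k161 k241 11
  (.s k82 k240 12 (.s k67 k107 5 (.s k195 k131 7 (.s k65 k130 8 (.d k97 k113 k112 3 4)))))))] .n)
  .n))) (.c k83 (.q k192 [(.s k129 k66 8 (.s k65 k193 7 (.s k130 k195 8 (.d k128 k64 k131 7 0)))),
  (.s k64 k128 7 (.s k81 k162 12 (.s k98 k115 4 (.s k145 k51 12 (.d k209 k226 k17 4 7)))))] (.c k64
  (.q k127 [(.s k129 k66 8 (.s k65 k193 7 (.s k67 k107 5 (.d k195 k130 k131 8 7)))), (.s k209 k226 4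
  (.s k213 k234 6 (.s k217 k221 1 (.s k230 k204 6 (.d k247 k251 k196 1 4)))))] .n) (.c k127 (.l (.s
  k64 k128 7 (.s k81 k162 12 (.s k98 k115 4 (.s k145 k51 12 (.d k209 k226 k17 4 7)))))) (.c k128 (.l
  (.s k81 k162 12 (.s k161 k241 11 (.s k129 k66 8 (.s k145 k177 3 (.d k209 k226 k17 4 7)))))) .n))))
  (.c k127 (.q k64 [(.s k83 k163 11 (.s k247 k251 1 (.s k167 k7 11 (.d k91 k95 k15 1 13)))), (.s
  k192 k128 7 (.s k81 k162 12 (.s k98 k115 4 (.s k145 k51 12 (.d k209 k226 k17 4 7)))))] (.c k149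
  (.l (.s k192 k128 7 (.s k81 k162 12 (.s k161 k241 11 (.s k82 k240 12 (.d k83 k80 k163 0 11))))))
  (.c k192 (.q k149 [(.s k83 k163 11 (.s k247 k251 1 (.s k167 k7 11 (.d k91 k95 k15 1 13)))), (.s
  k81 k162 12 (.s k115 k98 4 (.s k51 k179 7 (.s k19 k35 3 (.s k155 k223 9 (.s k103 k207 13 (.d k119
  k71 k187 3 9)))))))] .n) .n))) (.c k149 (.q k192 [(.s k81 k162 12 (.s k161 k241 11 (.s k82 k240 12
  (.d k83 k80 k163 0 11)))), (.s k129 k66 8 (.s k65 k193 7 (.s k130 k195 8 (.d k128 k64 k131 7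
  0))))] (.c k21 (.l (.s k213 k234 6 (.s k81 k162 12 (.s k161 k241 11 (.s k82 k240 12 (.d k83 k80
  k163 0 11)))))) (.c k64 (.q k127 [(.s k81 k162 12 (.s k161 k241 11 (.s k82 k240 12 (.d k83 k80
  k163 0 11)))), (.s k129 k66 8 (.s k65 k193 7 (.s k67 k107 5 (.d k195 k130 k131 8 7))))] (.c k21
  (.l (.s k213 k234 6 (.s k81 k162 12 (.s k161 k241 11 (.s k82 k240 12 (.d k83 k80 k163 0 11))))))
  (.c k213 (.q k21 [(.s k81 k162 12 (.s k161 k241 11 (.s k82 k240 12 (.d k83 k80 k163 0 11)))), (.s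
  k129 k66 8 (.s k65 k193 7 (.s k67 k107 5 (.d k195 k130 k131 8 7))))] .n) .n))) (.c k127 (.l (.s
  k64 k128 7 (.s k81 k162 12 (.s k161 k241 11 (.s k82 k240 12 (.d k83 k80 k163 0 11)))))) (.c k213
  (.q k21 [(.s k81 k162 12 (.s k161 k241 11 (.s k82 k240 12 (.d k83 k80 k163 0 11)))), (.s k129 k66
  8 (.s k65 k193 7 (.s k130 k195 8 (.d k128 k64 k131 7 0))))] (.c k64 (.q k127 [(.s k81 k162 12 (.s
  k161 k241 11 (.s k82 k240 12 (.d k83 k80 k163 0 11)))), (.s k129 k66 8 (.s k65 k193 7 (.s k67 k107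
  5 (.d k195 k130 k131 8 7))))] .n) (.c k127 (.l (.s k64 k128 7 (.s k81 k162 12 (.s k161 k241 11 (.s
  k82 k240 12 (.d k83 k80 k163 0 11)))))) .n))) .n))))) (.c k163 (.l (.s k81 k162 12 (.s k161 k241
  11 (.s k82 k240 12 (.s k83 k80 0 (.s k247 k251 1 (.s k167 k7 11 (.d k91 k95 k15 1 13)))))))) (.c
  k192 (.q k149 [(.s k83 k163 11 (.s k247 k251 1 (.s k167 k7 11 (.d k91 k95 k15 1 13)))), (.s k81
  k162 12 (.s k161 k241 11 (.s k82 k240 12 (.d k83 k80 k163 0 11))))] (.c k64 (.q k127 [(.s k83 k163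
  11 (.s k247 k251 1 (.s k167 k7 11 (.d k91 k95 k15 1 13)))), (.s k81 k162 12 (.s k161 k241 11 (.s
  k82 k240 12 (.s k67 k107 5 (.s k195 k131 7 (.s k65 k130 8 (.d k97 k113 k112 3 4)))))))] .n) (.c
  k83 (.q k51 [(.s k19 k35 3 (.s k119 k187 9 (.s k103 k71 3 (.d k155 k223 k207 9 13)))), (.s k17 k34
  4 (.s k33 k49 3 (.s k18 k48 4 (.d k19 k16 k35 0 3)))), (.s k162 k81 12 (.s k179 k115 7 (.s k187
  k119 9 (.s k128 k145 4 (.d k191 k183 k170 1 6)))))] (.c k64 (.q k127 [(.s k115 k179 7 (.d k119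
  k123 k187 1 9)), (.s k17 k34 4 (.s k33 k49 3 (.s k18 k48 4 (.d k19 k16 k35 0 3))))] .n) (.c k127
  (.q k64 [(.s k115 k179 7 (.d k81 k98 k162 4 12)), (.s k17 k34 4 (.s k33 k49 3 (.s k18 k48 4 (.d
  k19 k16 k35 0 3))))] .n) .n))) (.c k127 (.q k64 [(.s k83 k163 11 (.s k247 k251 1 (.s k167 k7 11
  (.d k91 k95 k15 1 13)))), (.s k81 k162 12 (.s k115 k98 4 (.s k51 k179 7 (.s k19 k35 3 (.s k155
  k223 9 (.s k103 k207 13 (.d k119 k71 k187 3 9)))))))] .n) (.c k163 (.l (.s k81 k162 12 (.s k161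
  k241 11 (.s k82 k240 12 (.s k83 k80 0 (.s k247 k251 1 (.s k167 k7 11 (.d k91 k95 k15 1 13))))))))
  .n))))) .n)))))))))

def t85_107 : T TT 256 :=
  (.q k247 [(.s k87 k171 13 (.s k167 k7 11 (.s k243 k251 1 (.s k83 k163 11 (.d k91 k95 k15 1
  13))))), (.s k1 k2 0 (.s k243 k251 1 (.s k81 k162 12 (.s k161 k241 11 (.s k82 k240 12 (.d k83 k80
  k163 0 11)))))), (.s k1 k2 0 (.s k87 k171 13 (.s k7 k167 11 (.s k15 k11 1 (.s k5 k10 2 (.s k9 k13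
  1 (.d k6 k4 k12 0 2)))))))] (.c k151 (.q k195 [(.s k1 k2 0 (.s k65 k130 8 (.s k129 k193 7 (.s k66
  k192 8 (.d k67 k64 k131 0 7))))), (.s k215 k235 5 (.s k231 k199 3 (.s k243 k251 1 (.s k211 k227 3
  (.d k219 k223 k207 1 5)))))] .n) (.c k163 (.q k195 [(.s k1 k2 0 (.s k65 k130 8 (.s k129 k193 7 (.s
  k66 k192 8 (.d k67 k64 k131 0 7))))), (.s k215 k235 5 (.s k231 k199 3 (.s k243 k251 1 (.s k211
  k227 3 (.d k219 k223 k207 1 5)))))] .n) (.c k195 (.q k151 [(.s k87 k171 13 (.s k167 k7 11 (.s k243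
  k251 1 (.s k83 k163 11 (.d k91 k95 k15 1 13))))), (.s k1 k2 0 (.s k243 k251 1 (.s k81 k162 12 (.s
  k161 k241 11 (.s k82 k240 12 (.d k83 k80 k163 0 11)))))), (.s k87 k171 13 (.s k167 k7 11 (.s k215
  k23 7 (.s k183 k135 3 (.s k55 k119 7 (.d k199 k231 k103 3 11))))))] .n) (.c k251 (.q k5 [(.s k15
  k10 2 (.s k7 k11 1 (.d k87 k171 k167 13 11))), (.s k1 k2 0 (.s k10 k15 2 (.s k9 k13 1 (.s k12 k6 2
  (.d k8 k11 k4 0 1))))), (.s k1 k2 0 (.s k9 k13 1 (.s k6 k12 2 (.s k7 k4 0 (.d k87 k167 k171 11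
  13)))))] (.c k9 (.l (.s k15 k10 2 (.s k87 k171 13 (.d k7 k11 k167 1 11)))) (.c k15 (.l (.s k1 k2 0
  (.s k9 k13 1 (.s k87 k171 13 (.s k7 k167 11 (.d k6 k12 k4 2 0)))))) (.c k151 (.q k195 [(.s k15 k10
  2 (.s k7 k11 1 (.d k87 k171 k167 13 11))), (.s k1 k2 0 (.s k65 k130 8 (.s k129 k193 7 (.s k66 k192
  8 (.d k67 k64 k131 0 7)))))] .n) (.c k195 (.q k151 [(.s k15 k10 2 (.s k7 k11 1 (.d k87 k171 k167
  13 11))), (.s k1 k2 0 (.s k10 k15 2 (.s k9 k13 1 (.s k12 k6 2 (.d k8 k11 k4 0 1))))), (.s k1 k2 0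
  (.s k9 k13 1 (.s k6 k12 2 (.s k7 k4 0 (.d k87 k167 k171 11 13)))))] (.c k9 (.l (.s k15 k10 2 (.s
  k87 k171 13 (.d k7 k11 k167 1 11)))) (.c k15 (.l (.s k1 k2 0 (.s k9 k13 1 (.s k87 k171 13 (.s k7
  k167 11 (.d k6 k12 k4 2 0)))))) .n))) .n))))) .n)))))

def t85_108 : T TT 256 :=
  (.f k1 k2 0 (.f k87 k171 13 (.q k243 [(.s k83 k163 11 (.s k247 k251 1 (.s k167 k7 11 (.d k91 k95
  k15 1 13)))), (.s k81 k162 12 (.s k161 k241 11 (.s k82 k240 12 (.d k83 k80 k163 0 11))))] (.c k83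
  (.q k69 [(.s k138 k207 10 (.s k137 k205 9 (.s k204 k70 10 (.d k136 k139 k68 0 9)))), (.s k207 k138
  10 (.s k219 k231 5 (.s k223 k239 3 (.s k215 k211 1 (.s k235 k195 5 (.d k251 k247 k203 1 3))))))]
  (.c k70 (.l (.s k81 k162 12 (.s k205 k137 9 (.s k241 k161 11 (.s k217 k229 5 (.s k204 k230 6 (.d
  k207 k206 k138 0 10))))))) (.c k138 (.l (.s k137 k205 9 (.s k70 k204 10 (.s k71 k68 0 (.s k207
  k139 9 (.s k223 k239 3 (.s k155 k19 9 (.d k103 k119 k51 3 13)))))))) (.c k206 (.l (.s k138 k207 10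
  (.s k137 k205 9 (.s k204 k70 10 (.d k136 k139 k68 0 9))))) (.c k207 (.l (.s k137 k205 9 (.s k204
  k70 10 (.s k217 k230 6 (.s k221 k238 4 (.s k213 k209 1 (.s k234 k192 6 (.d k251 k247 k200 1
  4)))))))) .n))))) (.c k163 (.l (.s k81 k162 12 (.s k161 k241 11 (.s k82 k240 12 (.s k83 k80 0 (.s
  k247 k251 1 (.s k167 k7 11 (.d k91 k95 k15 1 13)))))))) .n)))))

def t85_109 : T TT 256 :=
  (.f k1 k2 0 (.f k87 k171 13 (.q k207 [(.s k69 k138 10 (.s k137 k205 9 (.s k70 k204 10 (.d k71 k68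
  k139 0 9)))), (.s k71 k139 9 (.s k223 k239 3 (.s k155 k19 9 (.d k103 k119 k51 3 13))))] (.c k71
  (.q k65 [(.s k130 k195 8 (.s k129 k193 7 (.s k192 k66 8 (.d k128 k131 k64 0 7)))), (.s k69 k138 10
  (.s k193 k129 7 (.s k137 k205 9 (.s k73 k77 1 (.s k9 k201 7 (.d k13 k5 k133 1 9)))))), (.s k195
  k130 8 (.s k69 k138 10 (.s k73 k77 1 (.s k134 k12 10 (.d k199 k203 k4 1 8)))))] .n) (.c k139 (.l
  (.s k69 k138 10 (.s k137 k205 9 (.s k70 k204 10 (.s k71 k68 0 (.s k223 k239 3 (.s k155 k19 9 (.d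
  k103 k119 k51 3 13)))))))) .n)))))

def t85_110 : T TT 256 :=
  (.f k1 k2 0 (.f k87 k171 13 (.q k243 [(.s k83 k163 11 (.s k247 k251 1 (.s k167 k7 11 (.d k91 k95
  k15 1 13)))), (.s k81 k162 12 (.s k161 k241 11 (.s k82 k240 12 (.d k83 k80 k163 0 11))))] (.c k83
  (.q k204 [(.s k137 k70 10 (.s k69 k205 9 (.s k138 k207 10 (.d k136 k139 k68 0 9)))), (.s k217 k230
  6 (.s k221 k238 4 (.s k213 k209 1 (.s k234 k192 6 (.d k251 k247 k200 1 4)))))] .n) (.c k157 (.q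
  k204 [(.s k81 k162 12 (.s k161 k241 11 (.s k82 k240 12 (.d k83 k80 k163 0 11)))), (.s k136 k68 9
  (.s k137 k70 10 (.s k69 k205 9 (.d k138 k139 k207 0 10))))] .n) (.c k163 (.l (.s k81 k162 12 (.s
  k161 k241 11 (.s k82 k240 12 (.s k83 k80 0 (.s k247 k251 1 (.s k167 k7 11 (.d k91 k95 k15 1
  13)))))))) (.c k204 (.q k157 [(.s k83 k163 11 (.s k247 k251 1 (.s k167 k7 11 (.d k91 k95 k15 1
  13)))), (.s k81 k162 12 (.s k161 k241 11 (.s k82 k240 12 (.d k83 k80 k163 0 11))))] (.c k83 (.q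
  k12 [(.s k4 k8 1 (.s k6 k9 2 (.s k7 k5 0 (.d k247 k251 k167 1 11)))), (.s k9 k6 2 (.s k5 k13 1 (.s
  k10 k15 2 (.d k8 k11 k4 0 1)))), (.s k81 k162 12 (.s k241 k161 11 (.s k89 k166 14 (.s k13 k165 13
  (.s k5 k9 1 (.d k15 k14 k10 0 2))))))] (.c k4 (.l (.s k9 k6 2 (.s k5 k13 1 (.s k247 k251 1 (.s k7
  k167 11 (.d k15 k11 k10 1 2)))))) (.c k5 (.l (.s k8 k4 1 (.s k247 k251 1 (.s k9 k6 2 (.s k7 k167
  11 (.d k11 k10 k15 0 1)))))) (.c k9 (.l (.s k4 k8 1 (.s k247 k251 1 (.s k7 k167 11 (.s k5 k6 0 (.d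
  k15 k11 k10 1 2)))))) (.c k10 (.l (.s k4 k8 1 (.s k247 k251 1 (.s k7 k167 11 (.d k6 k9 k5 2 0)))))
  .n))))) (.c k163 (.l (.s k81 k162 12 (.s k161 k241 11 (.s k82 k240 12 (.s k83 k80 0 (.s k247 k251
  1 (.s k167 k7 11 (.d k91 k95 k15 1 13)))))))) .n))) .n)))))))

def t85_111 : T TT 256 :=
  (.f k1 k2 0 (.f k87 k171 13 (.q k207 [(.s k69 k138 10 (.s k137 k205 9 (.s k70 k204 10 (.d k71 k68
  k139 0 9)))), (.s k71 k139 9 (.s k223 k239 3 (.s k155 k19 9 (.d k103 k119 k51 3 13))))] (.c k71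
  (.q k65 [(.s k130 k195 8 (.s k129 k193 7 (.s k192 k66 8 (.d k128 k131 k64 0 7)))), (.s k69 k138 10
  (.s k193 k129 7 (.s k137 k205 9 (.s k73 k77 1 (.s k9 k201 7 (.d k13 k5 k133 1 9)))))), (.s k195
  k130 8 (.s k69 k138 10 (.s k73 k77 1 (.s k134 k12 10 (.d k199 k203 k4 1 8)))))] .n) (.c k139 (.l
  (.s k69 k138 10 (.s k137 k205 9 (.s k70 k204 10 (.s k71 k68 0 (.s k223 k239 3 (.s k155 k19 9 (.d
  k103 k119 k51 3 13)))))))) .n)))))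

def t85_112 : T TT 256 :=
  (.q k247 [(.s k87 k171 13 (.s k167 k7 11 (.s k243 k251 1 (.s k83 k163 11 (.d k91 k95 k15 1
  13))))), (.s k1 k2 0 (.s k243 k251 1 (.s k81 k162 12 (.s k161 k241 11 (.s k82 k240 12 (.d k83 k80
  k163 0 11)))))), (.s k1 k2 0 (.s k87 k171 13 (.s k7 k167 11 (.s k15 k11 1 (.s k5 k10 2 (.s k9 k13
  1 (.d k6 k4 k12 0 2)))))))] (.c k163 (.q k5 [(.s k15 k10 2 (.s k87 k171 13 (.d k7 k167 k11 11
  1))), (.s k1 k2 0 (.s k10 k15 2 (.s k9 k13 1 (.s k12 k6 2 (.d k8 k11 k4 0 1))))), (.s k1 k2 0 (.s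
  k9 k13 1 (.s k6 k12 2 (.s k87 k171 13 (.d k7 k167 k4 11 0)))))] (.c k15 (.l (.s k1 k2 0 (.s k9 k13
  1 (.s k12 k6 2 (.s k8 k4 1 (.s k171 k87 13 (.s k251 k243 1 (.d k11 k10 k91 0 11)))))))) .n)) (.c
  k251 (.q k5 [(.s k15 k10 2 (.s k87 k171 13 (.d k7 k11 k167 1 11))), (.s k1 k2 0 (.s k10 k15 2 (.s
  k9 k13 1 (.s k12 k6 2 (.d k8 k11 k4 0 1))))), (.s k1 k2 0 (.s k9 k13 1 (.s k6 k12 2 (.s k7 k4 0
  (.d k87 k167 k171 11 13)))))] (.c k15 (.l (.s k1 k2 0 (.s k9 k13 1 (.s k87 k171 13 (.s k7 k167 11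
  (.d k6 k12 k4 2 0)))))) .n)) .n)))

def t85_113 : T TT 256 :=
  (.f k1 k2 0 (.f k87 k171 13 (.q k207 [(.s k71 k139 9 (.s k223 k239 3 (.s k155 k19 9 (.d k103 k119
  k51 3 13)))), (.s k69 k138 10 (.s k137 k205 9 (.s k70 k204 10 (.d k71 k68 k139 0 9))))] (.c k71
  (.q k65 [(.s k130 k195 8 (.s k129 k193 7 (.s k192 k66 8 (.d k128 k131 k64 0 7)))), (.s k69 k138 10
  (.s k193 k129 7 (.s k137 k205 9 (.s k73 k77 1 (.s k9 k201 7 (.d k13 k5 k133 1 9)))))), (.s k195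
  k130 8 (.s k69 k138 10 (.s k73 k77 1 (.s k134 k12 10 (.d k199 k203 k4 1 8)))))] .n) (.c k139 (.l
  (.s k69 k138 10 (.s k137 k205 9 (.s k70 k204 10 (.s k71 k68 0 (.s k223 k239 3 (.s k155 k19 9 (.d
  k103 k119 k51 3 13)))))))) .n)))))

def t85_114 : T TT 256 :=
  (.q k247 [(.s k87 k171 13 (.s k167 k7 11 (.s k243 k251 1 (.s k83 k163 11 (.d k91 k95 k15 1
  13))))), (.s k1 k2 0 (.s k243 k251 1 (.s k81 k162 12 (.s k161 k241 11 (.s k82 k240 12 (.d k83 k80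
  k163 0 11)))))), (.s k1 k2 0 (.s k87 k171 13 (.s k7 k167 11 (.s k15 k11 1 (.s k5 k10 2 (.s k9 k13
  1 (.d k6 k4 k12 0 2)))))))] (.c k163 (.q k5 [(.s k15 k10 2 (.s k87 k171 13 (.d k7 k167 k11 11
  1))), (.s k1 k2 0 (.s k10 k15 2 (.s k9 k13 1 (.s k12 k6 2 (.d k8 k11 k4 0 1))))), (.s k1 k2 0 (.s
  k9 k13 1 (.s k6 k12 2 (.s k87 k171 13 (.d k7 k167 k4 11 0)))))] (.c k15 (.l (.s k1 k2 0 (.s k9 k13
  1 (.s k12 k6 2 (.s k8 k4 1 (.s k171 k87 13 (.s k251 k243 1 (.d k11 k10 k91 0 11)))))))) .n)) (.c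
  k251 (.q k5 [(.s k15 k10 2 (.s k87 k171 13 (.d k7 k11 k167 1 11))), (.s k1 k2 0 (.s k10 k15 2 (.s
  k9 k13 1 (.s k12 k6 2 (.d k8 k11 k4 0 1))))), (.s k1 k2 0 (.s k9 k13 1 (.s k6 k12 2 (.s k7 k4 0
  (.d k87 k167 k171 11 13)))))] (.c k15 (.l (.s k1 k2 0 (.s k9 k13 1 (.s k87 k171 13 (.s k7 k167 11
  (.d k6 k12 k4 2 0)))))) .n)) .n)))

def t85_115 : T TT 256 :=
  (.f k1 k2 0 (.f k87 k171 13 (.q k207 [(.s k71 k139 9 (.s k223 k239 3 (.s k155 k19 9 (.d k103 k119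
  k51 3 13)))), (.s k69 k138 10 (.s k137 k205 9 (.s k70 k204 10 (.d k71 k68 k139 0 9))))] (.c k71
  (.q k65 [(.s k130 k195 8 (.s k129 k193 7 (.s k192 k66 8 (.d k128 k131 k64 0 7)))), (.s k69 k138 10
  (.s k193 k129 7 (.s k137 k205 9 (.s k73 k77 1 (.s k9 k201 7 (.d k13 k5 k133 1 9)))))), (.s k195
  k130 8 (.s k69 k138 10 (.s k73 k77 1 (.s k134 k12 10 (.d k199 k203 k4 1 8)))))] .n) (.c k139 (.l
  (.s k69 k138 10 (.s k137 k205 9 (.s k70 k204 10 (.s k71 k68 0 (.s k223 k239 3 (.s k155 k19 9 (.d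
  k103 k119 k51 3 13)))))))) .n)))))

def t85_116 : T TT 256 :=
  (.q k247 [(.s k87 k171 13 (.s k167 k7 11 (.s k243 k251 1 (.s k83 k163 11 (.d k91 k95 k15 1
  13))))), (.s k1 k2 0 (.s k243 k251 1 (.s k81 k162 12 (.s k161 k241 11 (.s k82 k240 12 (.d k83 k80
  k163 0 11)))))), (.s k1 k2 0 (.s k87 k171 13 (.s k7 k167 11 (.s k15 k11 1 (.s k5 k10 2 (.s k9 k13
  1 (.d k6 k4 k12 0 2)))))))] (.c k163 (.q k5 [(.s k15 k10 2 (.s k87 k171 13 (.d k7 k167 k11 11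
  1))), (.s k1 k2 0 (.s k10 k15 2 (.s k9 k13 1 (.s k12 k6 2 (.d k8 k11 k4 0 1))))), (.s k1 k2 0 (.s
  k9 k13 1 (.s k6 k12 2 (.s k87 k171 13 (.d k7 k167 k4 11 0)))))] (.c k15 (.l (.s k1 k2 0 (.s k9 k13
  1 (.s k12 k6 2 (.s k8 k4 1 (.s k171 k87 13 (.s k251 k243 1 (.d k11 k10 k91 0 11)))))))) .n)) (.c
  k251 (.q k5 [(.s k15 k10 2 (.s k87 k171 13 (.d k7 k11 k167 1 11))), (.s k1 k2 0 (.s k10 k15 2 (.s
  k9 k13 1 (.s k12 k6 2 (.d k8 k11 k4 0 1))))), (.s k1 k2 0 (.s k9 k13 1 (.s k6 k12 2 (.s k7 k4 0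
  (.d k87 k167 k171 11 13)))))] (.c k15 (.l (.s k1 k2 0 (.s k9 k13 1 (.s k87 k171 13 (.s k7 k167 11
  (.d k6 k12 k4 2 0)))))) .n)) .n)))

def t85_117 : T TT 256 :=
  (.f k1 k2 0 (.f k87 k171 13 (.q k69 [(.s k138 k207 10 (.s k137 k205 9 (.s k204 k70 10 (.d k136
  k139 k68 0 9)))), (.s k207 k138 10 (.s k223 k239 3 (.s k155 k19 9 (.s k103 k51 13 (.d k71 k119
  k139 3 9)))))] (.c k70 (.l (.s k205 k137 9 (.s k207 k138 10 (.s k206 k204 0 (.s k223 k239 3 (.s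
  k155 k19 9 (.s k103 k51 13 (.d k71 k139 k119 9 3)))))))) (.c k138 (.l (.s k137 k205 9 (.s k70 k204
  10 (.s k71 k68 0 (.s k207 k139 9 (.s k223 k239 3 (.s k155 k19 9 (.d k103 k119 k51 3 13)))))))) (.c
  k139 (.l (.s k207 k138 10 (.s k137 k205 9 (.s k70 k204 10 (.s k71 k68 0 (.s k223 k239 3 (.s k155
  k19 9 (.d k103 k119 k51 3 13)))))))) (.c k206 (.l (.s k138 k207 10 (.s k137 k205 9 (.s k204 k70 10
  (.d k136 k139 k68 0 9))))) (.c k207 (.q k243 [(.s k83 k163 11 (.s k247 k251 1 (.s k167 k7 11 (.d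
  k91 k95 k15 1 13)))), (.s k81 k162 12 (.s k161 k241 11 (.s k82 k240 12 (.d k83 k80 k163 0 11)))),
  (.s k137 k205 9 (.s k204 k70 10 (.s k217 k230 6 (.s k221 k238 4 (.s k213 k209 1 (.s k234 k192 6
  (.d k251 k247 k200 1 4)))))))] (.c k111 (.q k159 [(.s k83 k163 11 (.s k247 k251 1 (.s k167 k7 11
  (.d k91 k95 k15 1 13)))), (.s k81 k162 12 (.s k161 k241 11 (.s k82 k240 12 (.d k83 k80 k163 0
  11)))), (.s k137 k205 9 (.s k204 k70 10 (.s k217 k230 6 (.s k221 k238 4 (.s k213 k209 1 (.s k234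
  k192 6 (.d k251 k247 k200 1 4)))))))] .n) (.c k159 (.q k111 [(.s k83 k163 11 (.s k247 k251 1 (.s
  k167 k7 11 (.d k91 k95 k15 1 13)))), (.s k81 k162 12 (.s k161 k241 11 (.s k82 k240 12 (.d k83 k80
  k163 0 11)))), (.s k137 k205 9 (.s k204 k70 10 (.s k217 k230 6 (.s k221 k238 4 (.s k213 k209 1 (.s
  k234 k192 6 (.d k251 k247 k200 1 4)))))))] .n) .n))) .n))))))))

def t85_118 : T TT 256 :=
  (.f k1 k2 0 (.f k87 k171 13 (.q k207 [(.s k71 k139 9 (.s k223 k239 3 (.s k155 k19 9 (.d k103 k119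
  k51 3 13)))), (.s k69 k138 10 (.s k137 k205 9 (.s k70 k204 10 (.d k71 k68 k139 0 9))))] (.c k71
  (.q k65 [(.s k130 k195 8 (.s k129 k193 7 (.s k192 k66 8 (.d k128 k131 k64 0 7)))), (.s k69 k138 10
  (.s k193 k129 7 (.s k137 k205 9 (.s k73 k77 1 (.s k9 k201 7 (.d k13 k5 k133 1 9)))))), (.s k195
  k130 8 (.s k69 k138 10 (.s k73 k77 1 (.s k134 k12 10 (.d k199 k203 k4 1 8)))))] .n) (.c k139 (.l
  (.s k69 k138 10 (.s k137 k205 9 (.s k70 k204 10 (.s k71 k68 0 (.s k223 k239 3 (.s k155 k19 9 (.d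
  k103 k119 k51 3 13)))))))) .n)))))

def t85_119 : T TT 256 :=
  (.q k247 [(.s k87 k171 13 (.s k167 k7 11 (.s k243 k251 1 (.s k83 k163 11 (.d k91 k95 k15 1
  13))))), (.s k1 k2 0 (.s k243 k251 1 (.s k81 k162 12 (.s k161 k241 11 (.s k82 k240 12 (.d k83 k80
  k163 0 11)))))), (.s k1 k2 0 (.s k87 k171 13 (.s k7 k167 11 (.s k15 k11 1 (.s k5 k10 2 (.s k9 k13
  1 (.d k6 k4 k12 0 2)))))))] (.c k68 (.q k102 [(.s k87 k171 13 (.s k167 k7 11 (.s k243 k251 1 (.s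
  k83 k163 11 (.d k91 k95 k15 1 13))))), (.s k1 k2 0 (.s k243 k251 1 (.s k81 k162 12 (.s k161 k241
  11 (.s k82 k240 12 (.d k83 k80 k163 0 11)))))), (.s k1 k2 0 (.s k87 k171 13 (.s k7 k167 11 (.s k15
  k11 1 (.s k5 k10 2 (.s k9 k13 1 (.d k6 k4 k12 0 2)))))))] (.c k163 (.q k195 [(.s k1 k2 0 (.s k65
  k130 8 (.s k129 k193 7 (.s k66 k192 8 (.d k67 k64 k131 0 7))))), (.s k215 k235 5 (.s k231 k199 3
  (.s k243 k251 1 (.s k211 k227 3 (.d k219 k223 k207 1 5)))))] .n) (.c k251 (.q k195 [(.s k1 k2 0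
  (.s k65 k130 8 (.s k129 k193 7 (.s k67 k131 7 (.d k66 k64 k192 0 8))))), (.s k87 k171 13 (.s k7
  k167 11 (.s k215 k235 5 (.s k199 k231 3 (.s k71 k135 7 (.d k207 k203 k139 1 9))))))] .n) .n))) (.c
  k102 (.q k68 [(.s k87 k171 13 (.s k167 k7 11 (.s k243 k251 1 (.s k83 k163 11 (.d k91 k95 k15 1
  13))))), (.s k2 k1 0 (.s k204 k136 9 (.s k70 k137 10 (.s k138 k206 9 (.d k69 k71 k207 0 10)))))]
  .n) (.c k163 (.f k243 k251 1 (.q k195 [(.s k215 k235 5 (.s k231 k199 3 (.s k219 k207 5 (.d k211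
  k223 k227 1 3)))), (.s k1 k2 0 (.s k65 k130 8 (.s k129 k193 7 (.s k66 k192 8 (.d k67 k64 k131 0
  7)))))] (.c k68 (.q k102 [(.s k215 k235 5 (.s k231 k199 3 (.s k219 k207 5 (.d k211 k223 k227 1
  3)))), (.s k1 k2 0 (.s k65 k130 8 (.s k129 k193 7 (.s k66 k192 8 (.d k67 k64 k131 0 7)))))] .n)
  (.c k102 (.q k68 [(.s k215 k235 5 (.s k231 k199 3 (.s k219 k207 5 (.d k211 k223 k227 1 3)))), (.s
  k1 k2 0 (.s k65 k130 8 (.s k129 k193 7 (.s k66 k192 8 (.d k67 k64 k131 0 7)))))] .n) .n)))) (.c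
  k251 (.q k195 [(.s k1 k2 0 (.s k65 k130 8 (.s k129 k193 7 (.s k67 k131 7 (.d k66 k64 k192 0
  8))))), (.s k87 k171 13 (.s k7 k167 11 (.s k215 k235 5 (.s k199 k231 3 (.s k71 k135 7 (.d k207
  k203 k139 1 9))))))] (.c k68 (.q k102 [(.s k1 k2 0 (.s k65 k130 8 (.s k129 k193 7 (.s k67 k131 7
  (.d k66 k64 k192 0 8))))), (.s k87 k171 13 (.s k7 k167 11 (.s k215 k235 5 (.s k199 k231 3 (.s k71
  k135 7 (.d k207 k203 k139 1 9))))))] .n) (.c k102 (.q k68 [(.s k1 k2 0 (.s k65 k130 8 (.s k129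
  k193 7 (.s k67 k131 7 (.d k66 k64 k192 0 8))))), (.s k2 k1 0 (.s k204 k136 9 (.s k70 k137 10 (.s
  k138 k206 9 (.d k69 k71 k207 0 10))))), (.s k65 k130 8 (.s k204 k136 9 (.s k67 k131 7 (.s k70 k137
  10 (.s k73 k76 2 (.d k69 k71 k77 0 1))))))] .n) .n))) .n)))))

def t85_120 : T TT 256 :=
  (.f k1 k2 0 (.f k87 k171 13 (.q k207 [(.s k71 k139 9 (.s k223 k239 3 (.s k155 k19 9 (.d k103 k119
  k51 3 13)))), (.s k69 k138 10 (.s k137 k205 9 (.s k70 k204 10 (.d k71 k68 k139 0 9))))] (.c k71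
  (.q k65 [(.s k130 k195 8 (.s k129 k193 7 (.s k192 k66 8 (.d k128 k131 k64 0 7)))), (.s k69 k138 10
  (.s k193 k129 7 (.s k137 k205 9 (.s k73 k77 1 (.s k9 k201 7 (.d k13 k5 k133 1 9)))))), (.s k195
  k130 8 (.s k69 k138 10 (.s k73 k77 1 (.s k134 k12 10 (.d k199 k203 k4 1 8)))))] .n) (.c k139 (.l
  (.s k69 k138 10 (.s k137 k205 9 (.s k70 k204 10 (.s k71 k68 0 (.s k223 k239 3 (.s k155 k19 9 (.d
  k103 k119 k51 3 13)))))))) .n)))))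

def t85_121 : T TT 256 :=
  (.f k1 k2 0 (.f k87 k171 13 (.q k243 [(.s k81 k162 12 (.s k161 k241 11 (.s k82 k240 12 (.d k83 k80
  k163 0 11)))), (.s k83 k163 11 (.s k247 k251 1 (.s k167 k7 11 (.d k91 k95 k15 1 13))))] (.c k83
  (.q k69 [(.s k138 k207 10 (.s k137 k205 9 (.s k204 k70 10 (.d k136 k139 k68 0 9)))), (.s k207 k138
  10 (.s k219 k231 5 (.s k223 k239 3 (.s k215 k211 1 (.s k235 k195 5 (.d k251 k247 k203 1 3))))))]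
  (.c k70 (.l (.s k81 k162 12 (.s k205 k137 9 (.s k241 k161 11 (.s k217 k229 5 (.s k204 k230 6 (.d
  k207 k206 k138 0 10))))))) (.c k138 (.l (.s k137 k205 9 (.s k70 k204 10 (.s k71 k68 0 (.s k207
  k139 9 (.s k223 k239 3 (.s k155 k19 9 (.d k103 k119 k51 3 13)))))))) (.c k206 (.l (.s k138 k207 10
  (.s k137 k205 9 (.s k204 k70 10 (.d k136 k139 k68 0 9))))) (.c k207 (.l (.s k137 k205 9 (.s k204
  k70 10 (.s k217 k230 6 (.s k221 k238 4 (.s k213 k209 1 (.s k234 k192 6 (.d k251 k247 k200 1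
  4)))))))) .n))))) (.c k163 (.l (.s k81 k162 12 (.s k161 k241 11 (.s k82 k240 12 (.s k83 k80 0 (.s
  k247 k251 1 (.s k167 k7 11 (.d k91 k95 k15 1 13)))))))) .n)))))

def t85_122 : T TT 256 :=
  (.f k1 k2 0 (.f k87 k171 13 (.q k15 [(.s k7 k11 1 (.s k95 k175 11 (.s k91 k83 1 (.d k167 k247 k243
  11 13)))), (.s k5 k10 2 (.s k9 k13 1 (.s k6 k12 2 (.d k7 k4 k11 0 1))))] (.c k7 (.q k240 [(.s k161
  k82 12 (.s k81 k241 11 (.s k162 k243 12 (.d k160 k163 k80 0 11)))), (.s k80 k160 11 (.s k95 k175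
  11 (.s k83 k91 1 (.d k82 k81 k161 0 12)))), (.s k5 k10 2 (.s k13 k9 1 (.s k165 k90 14 (.s k241 k89
  13 (.s k81 k161 11 (.d k243 k242 k162 0 12))))))] (.c k80 (.l (.s k161 k82 12 (.s k81 k241 11 (.s
  k95 k175 11 (.s k83 k91 1 (.d k243 k163 k162 11 12)))))) (.c k81 (.l (.s k160 k80 11 (.s k95 k175
  11 (.s k161 k82 12 (.s k83 k91 1 (.d k163 k162 k243 0 11)))))) (.c k161 (.l (.s k80 k160 11 (.s
  k95 k175 11 (.s k83 k91 1 (.s k81 k82 0 (.d k243 k163 k162 11 12)))))) .n)))) (.c k11 (.l (.s k5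
  k10 2 (.s k9 k13 1 (.s k6 k12 2 (.s k7 k4 0 (.s k95 k175 11 (.s k91 k83 1 (.d k167 k247 k243 11
  13)))))))) (.c k181 (.q k240 [(.s k5 k10 2 (.s k9 k13 1 (.s k6 k12 2 (.d k7 k4 k11 0 1)))), (.s
  k80 k160 11 (.s k82 k161 12 (.s k95 k175 11 (.d k83 k81 k91 0 1))))] .n) (.c k240 (.q k181 [(.s k7
  k11 1 (.s k95 k175 11 (.s k91 k83 1 (.d k167 k247 k243 11 13)))), (.s k5 k10 2 (.s k9 k13 1 (.s k6
  k12 2 (.d k7 k4 k11 0 1))))] (.c k7 (.q k207 [(.s k71 k139 9 (.s k223 k239 3 (.s k155 k19 9 (.d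
  k103 k119 k51 3 13)))), (.s k5 k10 2 (.s k69 k138 10 (.s k133 k197 7 (.s k74 k192 10 (.d k79 k64
  k143 2 7)))))] .n) (.c k11 (.l (.s k5 k10 2 (.s k9 k13 1 (.s k6 k12 2 (.s k7 k4 0 (.s k95 k175 11
  (.s k91 k83 1 (.d k167 k247 k243 11 13)))))))) .n))) .n)))))))

def t85_123 : T TT 256 :=
  (.f k1 k2 0 (.f k87 k171 13 (.q k243 [(.s k81 k162 12 (.s k161 k241 11 (.s k82 k240 12 (.d k83 k80
  k163 0 11)))), (.s k83 k163 11 (.s k247 k251 1 (.s k167 k7 11 (.d k91 k95 k15 1 13))))] (.c k83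
  (.q k69 [(.s k138 k207 10 (.s k137 k205 9 (.s k204 k70 10 (.d k136 k139 k68 0 9)))), (.s k207 k138
  10 (.s k219 k231 5 (.s k223 k239 3 (.s k215 k211 1 (.s k235 k195 5 (.d k251 k247 k203 1 3))))))]
  (.c k70 (.l (.s k81 k162 12 (.s k205 k137 9 (.s k241 k161 11 (.s k217 k229 5 (.s k204 k230 6 (.d
  k207 k206 k138 0 10))))))) (.c k138 (.l (.s k137 k205 9 (.s k70 k204 10 (.s k71 k68 0 (.s k207
  k139 9 (.s k223 k239 3 (.s k155 k19 9 (.d k103 k119 k51 3 13)))))))) (.c k206 (.l (.s k138 k207 10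
  (.s k137 k205 9 (.s k204 k70 10 (.d k136 k139 k68 0 9))))) (.c k207 (.l (.s k137 k205 9 (.s k204
  k70 10 (.s k217 k230 6 (.s k221 k238 4 (.s k213 k209 1 (.s k234 k192 6 (.d k251 k247 k200 1
  4)))))))) .n))))) (.c k163 (.l (.s k81 k162 12 (.s k161 k241 11 (.s k82 k240 12 (.s k83 k80 0 (.s
  k247 k251 1 (.s k167 k7 11 (.d k91 k95 k15 1 13)))))))) .n)))))

def t85_124 : T TT 256 :=
  (.f k1 k2 0 (.f k87 k171 13 (.q k243 [(.s k83 k163 11 (.s k247 k251 1 (.s k167 k7 11 (.d k91 k95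
  k15 1 13)))), (.s k81 k162 12 (.s k161 k241 11 (.s k82 k240 12 (.d k83 k80 k163 0 11))))] (.c k83
  (.q k69 [(.s k138 k207 10 (.s k137 k205 9 (.s k204 k70 10 (.d k136 k139 k68 0 9)))), (.s k207 k138
  10 (.s k219 k231 5 (.s k223 k239 3 (.s k215 k211 1 (.s k235 k195 5 (.d k251 k247 k203 1 3))))))]
  (.c k70 (.l (.s k81 k162 12 (.s k205 k137 9 (.s k241 k161 11 (.s k217 k229 5 (.s k204 k230 6 (.d
  k207 k206 k138 0 10))))))) (.c k138 (.l (.s k137 k205 9 (.s k70 k204 10 (.s k71 k68 0 (.s k207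
  k139 9 (.s k223 k239 3 (.s k155 k19 9 (.d k103 k119 k51 3 13)))))))) (.c k206 (.l (.s k138 k207 10
  (.s k137 k205 9 (.s k204 k70 10 (.d k136 k139 k68 0 9))))) (.c k207 (.l (.s k137 k205 9 (.s k204
  k70 10 (.s k217 k230 6 (.s k221 k238 4 (.s k213 k209 1 (.s k234 k192 6 (.d k251 k247 k200 1
  4)))))))) .n))))) (.c k163 (.l (.s k81 k162 12 (.s k161 k241 11 (.s k82 k240 12 (.s k83 k80 0 (.s
  k247 k251 1 (.s k167 k7 11 (.d k91 k95 k15 1 13)))))))) .n)))))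

def t85_125 : T TT 256 :=
  (.f k1 k2 0 (.f k87 k171 13 (.q k243 [(.s k83 k163 11 (.s k247 k251 1 (.s k167 k7 11 (.d k91 k95
  k15 1 13)))), (.s k81 k162 12 (.s k161 k241 11 (.s k82 k240 12 (.d k83 k80 k163 0 11))))] (.c k65
  (.q k105 [(.s k83 k163 11 (.s k247 k251 1 (.s k167 k7 11 (.d k91 k95 k15 1 13)))), (.s k81 k162 12
  (.s k161 k241 11 (.s k82 k240 12 (.d k83 k80 k163 0 11))))] (.c k83 (.q k69 [(.s k138 k207 10 (.s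
  k137 k205 9 (.s k204 k70 10 (.d k136 k139 k68 0 9)))), (.s k207 k138 10 (.s k219 k231 5 (.s k223
  k239 3 (.s k215 k211 1 (.s k235 k195 5 (.d k251 k247 k203 1 3))))))] (.c k70 (.l (.s k81 k162 12
  (.s k205 k137 9 (.s k241 k161 11 (.s k217 k229 5 (.s k204 k230 6 (.d k207 k206 k138 0 10)))))))
  (.c k138 (.l (.s k137 k205 9 (.s k70 k204 10 (.s k71 k68 0 (.s k207 k139 9 (.s k223 k239 3 (.s
  k155 k19 9 (.d k103 k119 k51 3 13)))))))) (.c k206 (.l (.s k138 k207 10 (.s k137 k205 9 (.s k204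
  k70 10 (.d k136 k139 k68 0 9))))) (.c k207 (.l (.s k137 k205 9 (.s k204 k70 10 (.s k217 k230 6 (.s
  k221 k238 4 (.s k213 k209 1 (.s k234 k192 6 (.d k251 k247 k200 1 4)))))))) .n))))) (.c k163 (.l
  (.s k81 k162 12 (.s k161 k241 11 (.s k82 k240 12 (.s k83 k80 0 (.s k247 k251 1 (.s k167 k7 11 (.d
  k91 k95 k15 1 13)))))))) .n))) (.c k83 (.q k65 [(.s k130 k195 8 (.s k129 k193 7 (.s k192 k66 8 (.d
  k128 k131 k64 0 7)))), (.s k81 k162 12 (.s k193 k129 7 (.s k161 k241 11 (.s k97 k113 3 (.s k33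
  k225 7 (.d k49 k17 k145 3 11)))))), (.s k195 k130 8 (.s k81 k162 12 (.s k97 k113 3 (.s k146 k48 12
  (.d k211 k227 k16 3 8)))))] .n) (.c k105 (.q k65 [(.s k81 k162 12 (.s k161 k241 11 (.s k82 k240 12
  (.d k83 k80 k163 0 11)))), (.s k130 k195 8 (.s k129 k193 7 (.s k192 k66 8 (.d k128 k131 k64 0
  7))))] .n) (.c k163 (.l (.s k81 k162 12 (.s k161 k241 11 (.s k82 k240 12 (.s k83 k80 0 (.s k247
  k251 1 (.s k167 k7 11 (.d k91 k95 k15 1 13)))))))) .n)))))))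

def t85_126 : T TT 256 :=
  (.f k1 k2 0 (.q k7 [(.s k15 k11 1 (.s k5 k10 2 (.s k9 k13 1 (.d k6 k4 k12 0 2)))), (.s k87 k171 13
  (.s k247 k167 11 (.s k243 k251 1 (.s k81 k162 12 (.s k161 k241 11 (.s k82 k240 12 (.d k83 k163 k80
  11 0)))))))] (.c k11 (.q k15 [(.s k5 k10 2 (.s k9 k13 1 (.d k6 k4 k12 0 2))), (.s k87 k171 13 (.s
  k95 k175 11 (.s k91 k83 1 (.d k167 k247 k243 11 13))))] (.c k189 (.q k252 [(.s k5 k10 2 (.s k9 k13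
  1 (.d k6 k4 k12 0 2))), (.s k86 k169 14 (.s k165 k244 12 (.s k90 k240 14 (.d k94 k82 k173 1
  12))))] .n) (.c k252 (.q k189 [(.s k5 k10 2 (.s k9 k13 1 (.d k6 k4 k12 0 2))), (.s k87 k171 13 (.s
  k95 k175 11 (.s k91 k83 1 (.d k167 k247 k243 11 13))))] .n) .n))) (.c k189 (.q k252 [(.s k15 k11 1
  (.s k5 k10 2 (.s k9 k13 1 (.d k6 k4 k12 0 2)))), (.s k15 k11 1 (.s k86 k169 14 (.s k165 k244 12
  (.s k90 k240 14 (.d k94 k82 k173 1 12))))), (.s k84 k168 13 (.s k86 k169 14 (.s k244 k165 12 (.s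
  k4 k164 11 (.s k12 k8 1 (.d k6 k5 k9 0 2))))))] .n) (.c k252 (.q k189 [(.s k15 k11 1 (.s k5 k10 2
  (.s k9 k13 1 (.d k6 k4 k12 0 2)))), (.s k87 k171 13 (.s k247 k167 11 (.s k243 k251 1 (.s k81 k162
  12 (.s k161 k241 11 (.s k82 k240 12 (.d k83 k163 k80 11 0)))))))] (.c k11 (.q k15 [(.s k5 k10 2
  (.s k9 k13 1 (.d k6 k4 k12 0 2))), (.s k87 k171 13 (.s k95 k175 11 (.s k91 k83 1 (.d k167 k247
  k243 11 13))))] .n) .n)) .n)))))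

def t85_127 : T TT 256 :=
  (.f k1 k2 0 (.f k87 k171 13 (.q k243 [(.s k83 k163 11 (.s k247 k251 1 (.s k167 k7 11 (.d k91 k95
  k15 1 13)))), (.s k81 k162 12 (.s k161 k241 11 (.s k82 k240 12 (.d k83 k80 k163 0 11))))] (.c k64
  (.q k106 [(.s k83 k163 11 (.s k247 k251 1 (.s k167 k7 11 (.d k91 k95 k15 1 13)))), (.s k81 k162 12
  (.s k161 k241 11 (.s k82 k240 12 (.d k83 k80 k163 0 11))))] (.c k83 (.q k65 [(.s k195 k130 8 (.s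
  k81 k162 12 (.s k97 k113 3 (.s k211 k227 3 (.d k146 k16 k48 8 12))))), (.s k81 k162 12 (.s k193
  k129 7 (.s k161 k241 11 (.s k97 k113 3 (.s k33 k225 7 (.d k49 k17 k145 3 11)))))), (.s k195 k130 8
  (.s k211 k227 3 (.s k215 k235 5 (.s k219 k223 1 (.s k231 k207 5 (.d k247 k251 k199 1 3))))))] .n)
  (.c k163 (.l (.s k81 k162 12 (.s k161 k241 11 (.s k82 k240 12 (.s k83 k80 0 (.s k247 k251 1 (.s
  k167 k7 11 (.d k91 k95 k15 1 13)))))))) .n))) (.c k83 (.q k64 [(.s k192 k128 7 (.s k81 k162 12 (.s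
  k209 k226 4 (.s k145 k17 7 (.d k98 k115 k51 4 12))))), (.s k192 k128 7 (.s k129 k66 8 (.s k193 k65
  7 (.s k209 k226 4 (.s k241 k225 3 (.d k81 k161 k162 11 12)))))), (.s k81 k162 12 (.s k161 k241 11
  (.s k82 k240 12 (.s k98 k115 4 (.s k66 k114 3 (.s k129 k192 8 (.d k65 k67 k193 0 7))))))), (.s
  k192 k128 7 (.s k209 k226 4 (.s k213 k234 6 (.s k217 k221 1 (.s k230 k204 6 (.d k247 k251 k196 1
  4))))))] (.c k192 (.l (.s k81 k162 12 (.s k115 k98 4 (.s k51 k179 7 (.s k19 k35 3 (.s k155 k223 9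
  (.s k103 k207 13 (.d k119 k71 k187 3 9)))))))) .n)) (.c k106 (.q k64 [(.s k83 k163 11 (.s k247
  k251 1 (.s k167 k7 11 (.d k91 k95 k15 1 13)))), (.s k192 k128 7 (.s k81 k162 12 (.s k98 k115 4 (.s
  k145 k51 12 (.d k209 k226 k17 4 7)))))] (.c k149 (.l (.s k192 k128 7 (.s k81 k162 12 (.s k161 k241
  11 (.s k82 k240 12 (.d k83 k80 k163 0 11)))))) (.c k192 (.q k149 [(.s k83 k163 11 (.s k247 k251 1
  (.s k167 k7 11 (.d k91 k95 k15 1 13)))), (.s k81 k162 12 (.s k115 k98 4 (.s k51 k179 7 (.s k19 k35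
  3 (.s k155 k223 9 (.s k103 k207 13 (.d k119 k71 k187 3 9)))))))] .n) .n))) (.c k163 (.l (.s k81
  k162 12 (.s k161 k241 11 (.s k82 k240 12 (.s k83 k80 0 (.s k247 k251 1 (.s k167 k7 11 (.d k91 k95
  k15 1 13)))))))) .n)))))))

def t85_128 : T TT 256 :=
  (.f k87 k171 13 (.f k1 k2 0 (.q k15 [(.s k7 k11 1 (.s k95 k175 11 (.s k91 k83 1 (.d k167 k247 k243
  11 13)))), (.s k5 k10 2 (.s k9 k13 1 (.s k6 k12 2 (.d k7 k4 k11 0 1))))] (.c k7 (.q k207 [(.s k71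
  k139 9 (.s k223 k239 3 (.s k155 k19 9 (.d k103 k119 k51 3 13)))), (.s k5 k10 2 (.s k69 k138 10 (.s
  k133 k197 7 (.s k74 k192 10 (.d k79 k143 k64 7 2)))))] .n) (.c k11 (.l (.s k5 k10 2 (.s k9 k13 1
  (.s k6 k12 2 (.s k7 k4 0 (.s k95 k175 11 (.s k91 k83 1 (.d k167 k247 k243 11 13)))))))) .n)))))

def t85_129 : T TT 256 :=
  (.f k87 k171 13 (.f k1 k2 0 (.q k15 [(.s k7 k11 1 (.s k95 k175 11 (.s k91 k83 1 (.d k167 k247 k243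
  11 13)))), (.s k5 k10 2 (.s k9 k13 1 (.s k6 k12 2 (.d k7 k4 k11 0 1))))] (.c k7 (.q k207 [(.s k71
  k139 9 (.s k223 k239 3 (.s k155 k19 9 (.d k103 k119 k51 3 13)))), (.s k5 k10 2 (.s k69 k138 10 (.s
  k133 k197 7 (.s k74 k192 10 (.d k79 k64 k143 2 7)))))] .n) (.c k11 (.l (.s k5 k10 2 (.s k9 k13 1
  (.s k6 k12 2 (.s k7 k4 0 (.s k95 k175 11 (.s k91 k83 1 (.d k167 k247 k243 11 13)))))))) .n)))))

def t85_130 : T TT 256 :=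
  (.f k87 k171 13 (.q k19 [(.s k51 k35 3 (.s k119 k187 9 (.s k103 k71 3 (.d k155 k223 k207 9 13)))),
  (.s k1 k2 0 (.s k51 k35 3 (.s k17 k34 4 (.s k33 k49 3 (.d k18 k16 k48 0 4)))))] (.c k35 (.q k207
  [(.d k223 k239 k155 3 9), (.s k1 k2 0 (.s k69 k138 10 (.s k137 k205 9 (.s k70 k204 10 (.d k71 k68
  k139 0 9)))))] (.c k103 (.l (.s k239 k223 3 (.s k1 k2 0 (.s k69 k138 10 (.s k137 k205 9 (.s k70
  k204 10 (.d k71 k68 k139 0 9))))))) (.c k239 (.q k103 [(.d k155 k223 k51 9 13), (.d k71 k119 k139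
  3 9)] .n) .n))) (.c k51 (.l (.s k1 k2 0 (.s k223 k155 9 (.s k207 k239 3 (.s k69 k138 10 (.s k137
  k205 9 (.s k70 k204 10 (.d k71 k139 k68 9 0)))))))) (.c k103 (.l (.s k1 k2 0 (.s k223 k155 9 (.s
  k51 k35 3 (.s k239 k207 3 (.s k17 k34 4 (.s k33 k49 3 (.d k18 k16 k48 0 4)))))))) (.c k239 (.l (.s
  k155 k223 9 (.s k51 k35 3 (.s k103 k207 13 (.d k119 k71 k187 3 9))))) .n))))))

def t85_131 : T TT 256 :=
  (.f k1 k2 0 (.q k243 [(.s k81 k162 12 (.s k161 k241 11 (.s k82 k240 12 (.d k83 k80 k163 0 11)))),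
  (.s k83 k163 11 (.s k87 k171 13 (.s k247 k251 1 (.s k167 k7 11 (.d k91 k95 k15 1 13)))))] (.c k83
  (.q k65 [(.s k195 k130 8 (.s k81 k162 12 (.s k97 k113 3 (.s k211 k227 3 (.d k146 k16 k48 8
  12))))), (.s k81 k162 12 (.s k129 k193 7 (.s k161 k241 11 (.s k145 k177 3 (.s k209 k17 7 (.d k192
  k226 k66 4 8)))))), (.s k195 k130 8 (.s k211 k227 3 (.s k215 k235 5 (.s k219 k223 1 (.s k231 k207
  5 (.d k247 k251 k199 1 3)))))), (.s k81 k162 12 (.s k161 k241 11 (.s k97 k113 3 (.s k33 k225 7 (.s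
  k48 k18 4 (.d k195 k130 k146 8 12))))))] .n) (.c k163 (.f k87 k171 13 (.l (.s k81 k162 12 (.s k161
  k241 11 (.s k82 k240 12 (.s k83 k80 0 (.s k247 k251 1 (.s k167 k7 11 (.d k91 k95 k15 1 13)))))))))
  .n))))

def t85_132 : T TT 256 :=
  (.q k247 [(.s k87 k171 13 (.s k167 k7 11 (.s k243 k251 1 (.s k83 k163 11 (.d k91 k95 k15 1
  13))))), (.s k1 k2 0 (.s k243 k251 1 (.s k81 k162 12 (.s k161 k241 11 (.s k82 k240 12 (.d k83 k80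
  k163 0 11)))))), (.s k1 k2 0 (.s k87 k171 13 (.s k7 k167 11 (.s k15 k11 1 (.s k5 k10 2 (.s k9 k13
  1 (.d k6 k4 k12 0 2)))))))] (.c k163 (.q k195 [(.s k215 k235 5 (.s k231 k199 3 (.s k243 k251 1 (.s
  k211 k227 3 (.d k219 k223 k207 1 5))))), (.s k1 k2 0 (.s k65 k130 8 (.s k129 k193 7 (.s k66 k192 8
  (.d k67 k64 k131 0 7)))))] .n) (.c k251 (.q k195 [(.s k1 k2 0 (.s k65 k130 8 (.s k129 k193 7 (.s
  k67 k131 7 (.d k66 k64 k192 0 8))))), (.s k87 k171 13 (.s k7 k167 11 (.s k215 k235 5 (.s k199 k231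
  3 (.s k71 k135 7 (.d k207 k203 k139 1 9))))))] .n) .n)))

def t85_133 : T TT 256 :=
  (.q k247 [(.s k87 k171 13 (.s k167 k7 11 (.s k243 k251 1 (.s k83 k163 11 (.d k91 k95 k15 1
  13))))), (.s k1 k2 0 (.s k243 k251 1 (.s k81 k162 12 (.s k161 k241 11 (.s k82 k240 12 (.d k83 k80
  k163 0 11)))))), (.s k1 k2 0 (.s k87 k171 13 (.s k7 k167 11 (.s k15 k11 1 (.s k5 k10 2 (.s k9 k13
  1 (.d k6 k4 k12 0 2)))))))] (.c k163 (.q k195 [(.s k215 k235 5 (.s k231 k199 3 (.s k243 k251 1 (.s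
  k211 k227 3 (.d k219 k223 k207 1 5))))), (.s k1 k2 0 (.s k65 k130 8 (.s k129 k193 7 (.s k66 k192 8
  (.d k67 k64 k131 0 7)))))] .n) (.c k251 (.q k195 [(.s k1 k2 0 (.s k65 k130 8 (.s k129 k193 7 (.s
  k67 k131 7 (.d k66 k64 k192 0 8))))), (.s k87 k171 13 (.s k7 k167 11 (.s k215 k235 5 (.s k199 k231
  3 (.s k71 k135 7 (.d k207 k203 k139 1 9))))))] .n) .n)))

def t85_134 : T TT 256 :=
  (.f k87 k171 13 (.q k19 [(.s k51 k35 3 (.s k119 k187 9 (.s k103 k71 3 (.d k155 k223 k207 9 13)))),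
  (.s k1 k2 0 (.s k51 k35 3 (.s k17 k34 4 (.s k33 k49 3 (.d k18 k16 k48 0 4)))))] (.c k35 (.q k207
  [(.d k223 k239 k155 3 9), (.s k1 k2 0 (.s k69 k138 10 (.s k137 k205 9 (.s k70 k204 10 (.d k71 k68
  k139 0 9)))))] (.c k103 (.l (.s k239 k223 3 (.s k1 k2 0 (.s k69 k138 10 (.s k137 k205 9 (.s k70
  k204 10 (.d k71 k68 k139 0 9))))))) (.c k239 (.q k103 [(.d k155 k223 k51 9 13), (.d k71 k119 k139
  3 9)] .n) .n))) (.c k51 (.l (.s k1 k2 0 (.s k223 k155 9 (.s k207 k239 3 (.s k69 k138 10 (.s k137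
  k205 9 (.s k70 k204 10 (.d k71 k139 k68 9 0)))))))) (.c k103 (.l (.s k1 k2 0 (.s k223 k155 9 (.s
  k51 k35 3 (.s k239 k207 3 (.s k17 k34 4 (.s k33 k49 3 (.d k18 k16 k48 0 4)))))))) (.c k239 (.l (.s
  k155 k223 9 (.s k51 k35 3 (.s k103 k207 13 (.d k119 k71 k187 3 9))))) .n))))))

def t85_135 : T TT 256 :=
  (.f k1 k2 0 (.f k87 k171 13 (.q k243 [(.s k81 k162 12 (.s k161 k241 11 (.s k82 k240 12 (.d k83 k80
  k163 0 11)))), (.s k83 k163 11 (.s k247 k251 1 (.s k167 k7 11 (.d k91 k95 k15 1 13))))] (.c k83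
  (.q k65 [(.s k195 k130 8 (.s k129 k193 7 (.s k66 k192 8 (.d k67 k64 k131 0 7)))), (.s k81 k162 12
  (.s k193 k129 7 (.s k161 k241 11 (.s k97 k113 3 (.s k33 k225 7 (.d k49 k17 k145 3 11)))))), (.s
  k195 k130 8 (.s k81 k162 12 (.s k97 k113 3 (.s k146 k48 12 (.d k211 k227 k16 3 8)))))] .n) (.c
  k163 (.l (.s k81 k162 12 (.s k161 k241 11 (.s k82 k240 12 (.s k83 k80 0 (.s k247 k251 1 (.s k167
  k7 11 (.d k91 k95 k15 1 13)))))))) .n)))))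

def t85_136 : T TT 256 :=
  (.q k247 [(.s k87 k171 13 (.s k167 k7 11 (.s k243 k251 1 (.s k83 k163 11 (.d k91 k95 k15 1
  13))))), (.s k1 k2 0 (.s k243 k251 1 (.s k81 k162 12 (.s k161 k241 11 (.s k82 k240 12 (.d k83 k80
  k163 0 11)))))), (.s k1 k2 0 (.s k87 k171 13 (.s k7 k167 11 (.s k15 k11 1 (.s k5 k10 2 (.s k9 k13
  1 (.d k6 k4 k12 0 2)))))))] (.c k163 (.q k195 [(.s k1 k2 0 (.s k65 k130 8 (.s k129 k193 7 (.s k66
  k192 8 (.d k67 k64 k131 0 7))))), (.s k215 k235 5 (.s k231 k199 3 (.s k243 k251 1 (.s k211 k227 3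
  (.d k219 k223 k207 1 5)))))] .n) (.c k251 (.q k195 [(.s k1 k2 0 (.s k65 k130 8 (.s k129 k193 7 (.s
  k67 k131 7 (.d k66 k64 k192 0 8))))), (.s k87 k171 13 (.s k7 k167 11 (.s k215 k235 5 (.s k199 k231
  3 (.s k71 k135 7 (.d k207 k203 k139 1 9))))))] .n) .n)))

def t85_137 : T TT 256 :=
  (.f k1 k2 0 (.f k87 k171 13 (.q k243 [(.s k83 k163 11 (.s k247 k251 1 (.s k167 k7 11 (.d k91 k95
  k15 1 13)))), (.s k81 k162 12 (.s k161 k241 11 (.s k82 k240 12 (.d k83 k80 k163 0 11))))] (.c k83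
  (.q k65 [(.s k130 k195 8 (.s k129 k193 7 (.s k192 k66 8 (.d k128 k131 k64 0 7)))), (.s k81 k162 12
  (.s k193 k129 7 (.s k161 k241 11 (.s k97 k113 3 (.s k33 k225 7 (.d k49 k17 k145 3 11)))))), (.s
  k195 k130 8 (.s k81 k162 12 (.s k97 k113 3 (.s k146 k48 12 (.d k211 k227 k16 3 8)))))] .n) (.c
  k163 (.l (.s k81 k162 12 (.s k161 k241 11 (.s k82 k240 12 (.s k83 k80 0 (.s k247 k251 1 (.s k167
  k7 11 (.d k91 k95 k15 1 13)))))))) .n)))))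

def t85_138 : T TT 256 :=
  (.f k87 k171 13 (.q k7 [(.s k15 k11 1 (.s k95 k175 11 (.s k91 k83 1 (.d k167 k247 k243 11 13)))),
  (.s k1 k2 0 (.s k15 k11 1 (.s k5 k10 2 (.s k9 k13 1 (.d k6 k4 k12 0 2)))))] (.c k11 (.q k15 [(.s
  k95 k175 11 (.s k91 k83 1 (.d k167 k247 k243 11 13))), (.s k1 k2 0 (.s k5 k10 2 (.s k9 k13 1 (.d
  k6 k4 k12 0 2))))] (.c k91 (.q k251 [(.d k247 k243 k167 1 11), (.s k1 k2 0 (.s k5 k10 2 (.s k9 k13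
  1 (.d k6 k4 k12 0 2))))] .n) (.c k251 (.q k91 [(.d k167 k247 k243 11 13), (.d k95 k83 k175 1 11)]
  .n) .n))) (.c k15 (.l (.s k1 k2 0 (.s k247 k167 11 (.s k243 k251 1 (.s k81 k162 12 (.s k161 k241
  11 (.s k82 k240 12 (.d k83 k163 k80 11 0)))))))) (.c k91 (.l (.s k1 k2 0 (.s k247 k167 11 (.s k15
  k11 1 (.s k251 k243 1 (.s k5 k10 2 (.s k9 k13 1 (.d k6 k4 k12 0 2)))))))) (.c k251 (.l (.s k167
  k247 11 (.s k15 k11 1 (.s k91 k243 13 (.d k95 k83 k175 1 11))))) .n))))))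

def t85_139 : T TT 256 :=
  (.q k247 [(.s k87 k171 13 (.s k167 k7 11 (.s k243 k251 1 (.s k83 k163 11 (.d k91 k95 k15 1
  13))))), (.s k1 k2 0 (.s k243 k251 1 (.s k81 k162 12 (.s k161 k241 11 (.s k82 k240 12 (.d k83 k80
  k163 0 11)))))), (.s k1 k2 0 (.s k87 k171 13 (.s k7 k167 11 (.s k15 k11 1 (.s k5 k10 2 (.s k9 k13
  1 (.d k6 k4 k12 0 2)))))))] (.c k163 (.q k195 [(.s k1 k2 0 (.s k65 k130 8 (.s k129 k193 7 (.s k66
  k192 8 (.d k67 k64 k131 0 7))))), (.s k215 k235 5 (.s k231 k199 3 (.s k243 k251 1 (.s k211 k227 3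
  (.d k219 k223 k207 1 5)))))] .n) (.c k251 (.q k195 [(.s k1 k2 0 (.s k65 k130 8 (.s k129 k193 7 (.s
  k66 k192 8 (.d k67 k64 k131 0 7))))), (.s k87 k171 13 (.s k7 k167 11 (.s k215 k235 5 (.s k199 k231
  3 (.s k135 k71 7 (.d k15 k11 k75 1 9))))))] .n) .n)))

def t85_140 : T TT 256 :=
  (.f k1 k2 0 (.f k87 k171 13 (.q k243 [(.s k83 k163 11 (.s k247 k251 1 (.s k167 k7 11 (.d k91 k95
  k15 1 13)))), (.s k81 k162 12 (.s k161 k241 11 (.s k82 k240 12 (.d k83 k80 k163 0 11))))] (.c k83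
  (.q k65 [(.s k130 k195 8 (.s k129 k193 7 (.s k192 k66 8 (.d k128 k131 k64 0 7)))), (.s k81 k162 12
  (.s k193 k129 7 (.s k161 k241 11 (.s k97 k113 3 (.s k33 k225 7 (.d k49 k17 k145 3 11)))))), (.s
  k195 k130 8 (.s k81 k162 12 (.s k97 k113 3 (.s k146 k48 12 (.d k211 k227 k16 3 8)))))] .n) (.c
  k163 (.l (.s k81 k162 12 (.s k161 k241 11 (.s k82 k240 12 (.s k83 k80 0 (.s k247 k251 1 (.s k167
  k7 11 (.d k91 k95 k15 1 13)))))))) .n)))))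

def t85_141 : T TT 256 :=
  (.f k1 k2 0 (.f k87 k171 13 (.q k243 [(.s k83 k163 11 (.s k247 k251 1 (.s k167 k7 11 (.d k91 k95
  k15 1 13)))), (.s k81 k162 12 (.s k161 k241 11 (.s k82 k240 12 (.d k83 k80 k163 0 11))))] (.c k83
  (.q k65 [(.s k130 k195 8 (.s k129 k193 7 (.s k192 k66 8 (.d k128 k131 k64 0 7)))), (.s k81 k162 12
  (.s k193 k129 7 (.s k161 k241 11 (.s k97 k113 3 (.s k33 k225 7 (.d k49 k17 k145 3 11)))))), (.s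
  k195 k130 8 (.s k81 k162 12 (.s k97 k113 3 (.s k146 k48 12 (.d k211 k227 k16 3 8)))))] .n) (.c
  k163 (.l (.s k81 k162 12 (.s k161 k241 11 (.s k82 k240 12 (.s k83 k80 0 (.s k247 k251 1 (.s k167
  k7 11 (.d k91 k95 k15 1 13)))))))) .n)))))

def t85_142 : T TT 256 :=
  (.q k247 [(.s k87 k171 13 (.s k167 k7 11 (.s k243 k251 1 (.s k83 k163 11 (.d k91 k95 k15 1
  13))))), (.s k1 k2 0 (.s k243 k251 1 (.s k81 k162 12 (.s k161 k241 11 (.s k82 k240 12 (.d k83 k80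
  k163 0 11)))))), (.s k1 k2 0 (.s k87 k171 13 (.s k7 k167 11 (.s k15 k11 1 (.s k5 k10 2 (.s k9 k13
  1 (.d k6 k4 k12 0 2)))))))] (.c k163 (.q k195 [(.s k215 k235 5 (.s k231 k199 3 (.s k243 k251 1 (.s
  k211 k227 3 (.d k219 k223 k207 1 5))))), (.s k1 k2 0 (.s k65 k130 8 (.s k129 k193 7 (.s k66 k192 8
  (.d k67 k64 k131 0 7)))))] .n) (.c k251 (.q k195 [(.s k1 k2 0 (.s k65 k130 8 (.s k129 k193 7 (.s
  k67 k131 7 (.d k66 k64 k192 0 8))))), (.s k87 k171 13 (.s k7 k167 11 (.s k215 k235 5 (.s k199 k231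
  3 (.s k71 k135 7 (.d k207 k203 k139 1 9))))))] .n) .n)))

def t85_143 : T TT 256 :=
  (.f k1 k2 0 (.f k87 k171 13 (.q k243 [(.s k83 k163 11 (.s k247 k251 1 (.s k167 k7 11 (.d k91 k95
  k15 1 13)))), (.s k81 k162 12 (.s k161 k241 11 (.s k82 k240 12 (.d k83 k80 k163 0 11))))] (.c k83
  (.q k65 [(.s k130 k195 8 (.s k129 k193 7 (.s k192 k66 8 (.d k128 k131 k64 0 7)))), (.s k81 k162 12
  (.s k193 k129 7 (.s k161 k241 11 (.s k97 k113 3 (.s k33 k225 7 (.d k49 k17 k145 3 11)))))), (.s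
  k195 k130 8 (.s k81 k162 12 (.s k97 k113 3 (.s k146 k48 12 (.d k211 k227 k16 3 8)))))] .n) (.c
  k163 (.l (.s k81 k162 12 (.s k161 k241 11 (.s k82 k240 12 (.s k83 k80 0 (.s k247 k251 1 (.s k167
  k7 11 (.d k91 k95 k15 1 13)))))))) .n)))))

def t85_144 : T TT 256 :=
  (.f k87 k171 13 (.q k7 [(.s k15 k11 1 (.s k95 k175 11 (.s k91 k83 1 (.d k167 k247 k243 11 13)))),
  (.s k1 k2 0 (.s k15 k11 1 (.s k5 k10 2 (.s k9 k13 1 (.d k6 k4 k12 0 2)))))] (.c k11 (.q k91 [(.s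
  k247 k167 11 (.s k83 k95 1 (.d k243 k163 k251 11 1))), (.s k1 k2 0 (.s k167 k247 11 (.s k15 k243
  13 (.s k5 k10 2 (.s k9 k13 1 (.d k6 k4 k12 0 2)))))), (.s k1 k2 0 (.s k95 k83 1 (.s k15 k175 11
  (.s k5 k10 2 (.s k9 k13 1 (.d k6 k4 k12 0 2))))))] (.c k167 (.q k15 [(.d k95 k175 k83 11 1), (.s
  k1 k2 0 (.s k5 k10 2 (.s k9 k13 1 (.d k6 k4 k12 0 2))))] (.c k163 (.l (.s k175 k95 11 (.s k1 k2 0
  (.s k5 k10 2 (.s k9 k13 1 (.d k6 k4 k12 0 2)))))) (.c k175 (.q k163 [(.d k83 k95 k243 1 11), (.s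
  k1 k2 0 (.s k5 k10 2 (.s k9 k13 1 (.d k6 k4 k12 0 2))))] .n) .n))) .n)) (.c k15 (.l (.s k1 k2 0
  (.s k247 k167 11 (.s k243 k251 1 (.s k81 k162 12 (.s k161 k241 11 (.s k82 k240 12 (.d k83 k163 k80
  11 0)))))))) (.c k91 (.l (.s k1 k2 0 (.s k247 k167 11 (.s k15 k11 1 (.s k251 k243 1 (.s k5 k10 2
  (.s k9 k13 1 (.d k6 k4 k12 0 2)))))))) (.c k251 (.l (.s k167 k247 11 (.s k15 k11 1 (.s k91 k243 13
  (.d k95 k83 k175 1 11))))) .n))))))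

def t85_145 : T TT 256 :=
  (.q k247 [(.s k87 k171 13 (.s k167 k7 11 (.s k243 k251 1 (.s k83 k163 11 (.d k91 k95 k15 1
  13))))), (.s k1 k2 0 (.s k243 k251 1 (.s k81 k162 12 (.s k161 k241 11 (.s k82 k240 12 (.d k83 k80
  k163 0 11)))))), (.s k1 k2 0 (.s k87 k171 13 (.s k7 k167 11 (.s k15 k11 1 (.s k5 k10 2 (.s k9 k13
  1 (.d k6 k4 k12 0 2)))))))] (.c k163 (.q k195 [(.s k215 k235 5 (.s k231 k199 3 (.s k243 k251 1 (.s
  k211 k227 3 (.d k219 k223 k207 1 5))))), (.s k1 k2 0 (.s k65 k130 8 (.s k129 k193 7 (.s k66 k192 8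
  (.d k67 k64 k131 0 7)))))] .n) (.c k251 (.q k195 [(.s k1 k2 0 (.s k65 k130 8 (.s k129 k193 7 (.s
  k67 k131 7 (.d k66 k64 k192 0 8))))), (.s k87 k171 13 (.s k7 k167 11 (.s k215 k235 5 (.s k199 k231
  3 (.s k71 k135 7 (.d k207 k203 k139 1 9))))))] .n) .n)))

def t85_146 : T TT 256 :=
  (.f k1 k2 0 (.f k87 k171 13 (.q k243 [(.s k83 k163 11 (.s k247 k251 1 (.s k167 k7 11 (.d k91 k95
  k15 1 13)))), (.s k81 k162 12 (.s k161 k241 11 (.s k82 k240 12 (.d k83 k80 k163 0 11))))] (.c k83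
  (.q k64 [(.s k192 k128 7 (.s k81 k162 12 (.s k98 k115 4 (.s k209 k226 4 (.d k145 k17 k51 7
  12))))), (.s k192 k128 7 (.s k209 k226 4 (.s k213 k234 6 (.s k217 k221 1 (.s k230 k204 6 (.d k247
  k251 k196 1 4)))))), (.s k81 k162 12 (.s k161 k241 11 (.s k82 k240 12 (.s k98 k115 4 (.s k66 k114
  3 (.s k129 k192 8 (.d k65 k67 k193 0 7)))))))] (.c k192 (.l (.s k81 k162 12 (.s k115 k98 4 (.s k51
  k179 7 (.s k19 k35 3 (.s k155 k223 9 (.s k103 k207 13 (.d k119 k71 k187 3 9)))))))) .n)) (.c k163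
  (.l (.s k81 k162 12 (.s k161 k241 11 (.s k82 k240 12 (.s k83 k80 0 (.s k247 k251 1 (.s k167 k7 11
  (.d k91 k95 k15 1 13)))))))) .n)))))

def t85_147 : T TT 256 :=
  (.f k1 k2 0 (.f k87 k171 13 (.q k243 [(.s k81 k162 12 (.s k161 k241 11 (.s k82 k240 12 (.d k83 k80
  k163 0 11)))), (.s k83 k163 11 (.s k247 k251 1 (.s k167 k7 11 (.d k91 k95 k15 1 13))))] (.c k83
  (.q k211 [(.s k195 k227 3 (.s k65 k130 8 (.s k129 k193 7 (.s k66 k192 8 (.d k67 k64 k131 0 7))))),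
  (.s k81 k162 12 (.s k161 k241 11 (.s k146 k16 8 (.s k131 k176 4 (.d k195 k227 k67 3 7))))), (.s
  k81 k162 12 (.s k161 k241 11 (.s k16 k146 8 (.s k48 k32 3 (.s k33 k18 4 (.s k97 k225 7 (.d k113
  k178 k65 8 3)))))))] (.c k227 (.l (.s k81 k162 12 (.s k161 k241 11 (.s k146 k16 8 (.s k131 k176 4
  (.s k195 k67 7 (.s k65 k130 8 (.d k97 k113 k48 3 12)))))))) .n)) (.c k163 (.l (.s k81 k162 12 (.s
  k161 k241 11 (.s k82 k240 12 (.s k83 k80 0 (.s k247 k251 1 (.s k167 k7 11 (.d k91 k95 k15 1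
  13)))))))) .n)))))

def t85_148 : T TT 256 :=
  (.q k247 [(.s k87 k171 13 (.s k167 k7 11 (.s k243 k251 1 (.s k83 k163 11 (.d k91 k95 k15 1
  13))))), (.s k1 k2 0 (.s k243 k251 1 (.s k81 k162 12 (.s k161 k241 11 (.s k82 k240 12 (.d k83 k80
  k163 0 11)))))), (.s k1 k2 0 (.s k87 k171 13 (.s k7 k167 11 (.s k15 k11 1 (.s k5 k10 2 (.s k9 k13
  1 (.d k6 k4 k12 0 2)))))))] (.c k163 (.q k195 [(.s k215 k235 5 (.s k231 k199 3 (.s k243 k251 1 (.s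
  k211 k227 3 (.d k219 k223 k207 1 5))))), (.s k1 k2 0 (.s k65 k130 8 (.s k129 k193 7 (.s k66 k192 8
  (.d k67 k64 k131 0 7)))))] .n) (.c k251 (.q k195 [(.s k1 k2 0 (.s k65 k130 8 (.s k129 k193 7 (.s
  k67 k131 7 (.d k66 k64 k192 0 8))))), (.s k87 k171 13 (.s k7 k167 11 (.s k215 k235 5 (.s k199 k231
  3 (.s k71 k135 7 (.d k207 k203 k139 1 9))))))] .n) .n)))

def t85_149 : T TT 256 :=
  (.f k1 k2 0 (.f k87 k171 13 (.q k243 [(.s k83 k163 11 (.s k247 k251 1 (.s k167 k7 11 (.d k91 k95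
  k15 1 13)))), (.s k81 k162 12 (.s k161 k241 11 (.s k82 k240 12 (.d k83 k80 k163 0 11))))] (.c k21
  (.q k213 [(.s k83 k163 11 (.s k247 k251 1 (.s k167 k7 11 (.d k91 k95 k15 1 13)))), (.s k192 k234 6
  (.s k128 k64 7 (.s k129 k66 8 (.s k65 k193 7 (.d k130 k131 k195 0 8)))))] (.c k106 (.l (.s k192
  k234 6 (.s k81 k162 12 (.s k161 k241 11 (.s k82 k240 12 (.d k83 k80 k163 0 11)))))) (.c k192 (.q
  k106 [(.s k83 k163 11 (.s k247 k251 1 (.s k167 k7 11 (.d k91 k95 k15 1 13)))), (.s k81 k162 12 (.s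
  k161 k241 11 (.s k82 k240 12 (.d k83 k80 k163 0 11)))), (.s k247 k251 1 (.s k230 k196 4 (.s k204
  k217 6 (.s k136 k68 9 (.s k137 k70 10 (.s k69 k205 9 (.d k138 k139 k207 0 10)))))))] .n) .n))) (.c
  k83 (.q k192 [(.s k129 k66 8 (.s k65 k193 7 (.s k130 k195 8 (.d k128 k131 k64 0 7)))), (.s k64
  k128 7 (.s k81 k162 12 (.s k98 k115 4 (.s k145 k51 12 (.d k209 k226 k17 4 7))))), (.s k81 k162 12
  (.s k161 k241 11 (.s k129 k66 8 (.s k145 k177 3 (.d k209 k226 k17 4 7)))))] (.c k21 (.l (.s k213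
  k234 6 (.s k128 k64 7 (.s k129 k66 8 (.s k65 k193 7 (.d k130 k131 k195 0 8)))))) (.c k213 (.q k21
  [(.s k128 k64 7 (.s k129 k66 8 (.s k130 k131 0 (.d k65 k193 k195 7 8)))), (.s k81 k162 12 (.s k161
  k241 11 (.s k129 k66 8 (.s k145 k177 3 (.d k209 k226 k17 4 7))))), (.s k64 k128 7 (.s k81 k162 12
  (.s k98 k115 4 (.s k145 k51 12 (.d k209 k226 k17 4 7)))))] .n) .n))) (.c k106 (.q k192 [(.s k81
  k162 12 (.s k161 k241 11 (.s k82 k240 12 (.d k83 k80 k163 0 11)))), (.s k129 k66 8 (.s k65 k193 7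
  (.s k130 k195 8 (.d k128 k64 k131 7 0))))] (.c k21 (.l (.s k213 k234 6 (.s k81 k162 12 (.s k161
  k241 11 (.s k82 k240 12 (.d k83 k80 k163 0 11)))))) (.c k64 (.q k127 [(.s k81 k162 12 (.s k161
  k241 11 (.s k82 k240 12 (.d k83 k80 k163 0 11)))), (.s k129 k66 8 (.s k65 k193 7 (.s k67 k107 5
  (.d k195 k130 k131 8 7))))] (.c k21 (.l (.s k213 k234 6 (.s k81 k162 12 (.s k161 k241 11 (.s k82
  k240 12 (.d k83 k80 k163 0 11)))))) (.c k213 (.q k21 [(.s k81 k162 12 (.s k161 k241 11 (.s k82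
  k240 12 (.d k83 k80 k163 0 11)))), (.s k129 k66 8 (.s k65 k193 7 (.s k67 k107 5 (.d k195 k130 k131
  8 7))))] .n) .n))) (.c k127 (.l (.s k64 k128 7 (.s k81 k162 12 (.s k161 k241 11 (.s k82 k240 12
  (.d k83 k80 k163 0 11)))))) (.c k213 (.q k21 [(.s k81 k162 12 (.s k161 k241 11 (.s k82 k240 12 (.d
  k83 k80 k163 0 11)))), (.s k129 k66 8 (.s k65 k193 7 (.s k130 k195 8 (.d k128 k64 k131 7 0))))]
  (.c k64 (.q k127 [(.s k81 k162 12 (.s k161 k241 11 (.s k82 k240 12 (.d k83 k80 k163 0 11)))), (.s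
  k129 k66 8 (.s k65 k193 7 (.s k67 k107 5 (.d k195 k130 k131 8 7))))] .n) (.c k127 (.l (.s k64 k128
  7 (.s k81 k162 12 (.s k161 k241 11 (.s k82 k240 12 (.d k83 k80 k163 0 11)))))) .n))) .n))))) (.c
  k163 (.l (.s k81 k162 12 (.s k161 k241 11 (.s k82 k240 12 (.s k83 k80 0 (.s k247 k251 1 (.s k167
  k7 11 (.d k91 k95 k15 1 13)))))))) (.c k192 (.q k106 [(.s k83 k163 11 (.s k247 k251 1 (.s k167 k7
  11 (.d k91 k95 k15 1 13)))), (.s k81 k162 12 (.s k161 k241 11 (.s k82 k240 12 (.d k83 k80 k163 0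
  11))))] (.c k21 (.q k213 [(.s k83 k163 11 (.s k247 k251 1 (.s k167 k7 11 (.d k91 k95 k15 1 13)))),
  (.s k81 k162 12 (.s k161 k241 11 (.s k82 k240 12 (.d k83 k80 k163 0 11)))), (.s k247 k251 1 (.s
  k230 k196 4 (.s k204 k217 6 (.s k136 k68 9 (.s k137 k70 10 (.s k69 k205 9 (.d k138 k139 k207 0
  10)))))))] .n) (.c k83 (.q k51 [(.s k19 k35 3 (.s k119 k187 9 (.s k103 k71 3 (.d k155 k223 k207 9
  13)))), (.s k17 k34 4 (.s k81 k162 12 (.s k161 k241 11 (.s k145 k209 7 (.s k177 k129 3 (.d k240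
  k82 k114 12 8))))))] (.c k21 (.q k213 [(.s k19 k35 3 (.s k119 k187 9 (.s k103 k71 3 (.d k155 k223
  k207 9 13)))), (.s k17 k34 4 (.s k81 k162 12 (.s k161 k241 11 (.s k145 k209 7 (.s k177 k129 3 (.d
  k240 k82 k114 12 8))))))] .n) (.c k213 (.q k21 [(.s k19 k35 3 (.s k119 k187 9 (.s k103 k71 3 (.d
  k155 k223 k207 9 13)))), (.s k17 k34 4 (.s k41 k61 5 (.s k60 k22 6 (.s k25 k29 1 (.d k57 k54 k9 2
  3)))))] .n) .n))) (.c k163 (.l (.s k81 k162 12 (.s k161 k241 11 (.s k82 k240 12 (.s k83 k80 0 (.s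
  k247 k251 1 (.s k167 k7 11 (.d k91 k95 k15 1 13)))))))) (.c k213 (.q k21 [(.s k83 k163 11 (.s k247
  k251 1 (.s k167 k7 11 (.d k91 k95 k15 1 13)))), (.s k81 k162 12 (.s k161 k241 11 (.s k82 k240 12
  (.d k83 k80 k163 0 11)))), (.s k41 k61 5 (.s k60 k22 6 (.s k121 k182 10 (.s k125 k190 8 (.s k117
  k113 1 (.s k186 k48 10 (.d k251 k247 k56 1 8)))))))] .n) .n))))) (.c k213 (.q k21 [(.s k83 k163 11
  (.s k247 k251 1 (.s k167 k7 11 (.d k91 k95 k15 1 13)))), (.s k81 k162 12 (.s k161 k241 11 (.s k82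
  k240 12 (.d k83 k80 k163 0 11)))), (.s k41 k61 5 (.s k60 k22 6 (.s k121 k182 10 (.s k125 k190 8
  (.s k117 k113 1 (.s k186 k48 10 (.d k251 k247 k56 1 8)))))))] (.c k106 (.q k192 [(.s k81 k162 12
  (.s k161 k241 11 (.s k82 k240 12 (.d k83 k80 k163 0 11)))), (.s k129 k66 8 (.s k65 k193 7 (.s k130
  k195 8 (.d k128 k64 k131 7 0))))] (.c k64 (.q k127 [(.s k81 k162 12 (.s k161 k241 11 (.s k82 k240
  12 (.d k83 k80 k163 0 11)))), (.s k129 k66 8 (.s k65 k193 7 (.s k67 k107 5 (.d k195 k130 k131 8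
  7))))] .n) (.c k127 (.l (.s k64 k128 7 (.s k81 k162 12 (.s k161 k241 11 (.s k82 k240 12 (.d k83
  k80 k163 0 11)))))) .n))) (.c k192 (.q k106 [(.s k83 k163 11 (.s k247 k251 1 (.s k167 k7 11 (.d
  k91 k95 k15 1 13)))), (.s k81 k162 12 (.s k161 k241 11 (.s k82 k240 12 (.d k83 k80 k163 0 11)))),
  (.s k41 k61 5 (.s k60 k22 6 (.s k121 k182 10 (.s k125 k190 8 (.s k117 k113 1 (.s k186 k48 10 (.d
  k251 k247 k56 1 8)))))))] .n) .n))) .n)))))))))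

def t85_150 : T TT 256 :=
  (.f k87 k171 13 (.f k1 k2 0 (.q k19 [(.s k51 k35 3 (.s k119 k187 9 (.s k103 k71 3 (.d k155 k223
  k207 9 13)))), (.s k51 k35 3 (.s k17 k34 4 (.s k33 k49 3 (.d k18 k16 k48 0 4))))] (.c k20 (.q k215
  [(.s k51 k35 3 (.s k119 k187 9 (.s k103 k71 3 (.d k155 k223 k207 9 13)))), (.s k51 k35 3 (.s k17
  k34 4 (.s k33 k49 3 (.d k18 k16 k48 0 4)))), (.s k223 k155 9 (.s k151 k23 7 (.s k211 k219 1 (.s
  k83 k147 7 (.d k91 k95 k31 1 9)))))] .n) (.c k35 (.q k215 [(.s k223 k155 9 (.s k151 k23 7 (.s k211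
  k219 1 (.s k83 k147 7 (.d k91 k95 k31 1 9))))), (.s k195 k235 5 (.s k65 k130 8 (.s k129 k193 7 (.s
  k66 k192 8 (.d k67 k64 k131 0 7)))))] (.c k103 (.q k239 [(.d k223 k207 k155 3 9), (.s k195 k235 5
  (.s k65 k130 8 (.s k129 k193 7 (.s k66 k192 8 (.d k67 k64 k131 0 7)))))] .n) (.c k239 (.q k103
  [(.s k71 k119 3 (.s k207 k139 9 (.d k155 k223 k51 9 13))), (.s k223 k155 9 (.s k151 k23 7 (.s k211
  k219 1 (.s k83 k147 7 (.d k91 k95 k31 1 9))))), (.s k151 k23 7 (.s k199 k55 11 (.s k71 k119 3 (.s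
  k7 k135 7 (.d k247 k231 k167 3 11)))))] .n) .n))) (.c k51 (.l (.s k223 k155 9 (.s k207 k239 3 (.s
  k69 k138 10 (.s k137 k205 9 (.s k70 k204 10 (.d k71 k139 k68 9 0))))))) (.c k103 (.l (.s k223 k155
  9 (.s k51 k35 3 (.s k239 k207 3 (.s k17 k34 4 (.s k33 k49 3 (.d k18 k16 k48 0 4))))))) (.c k215
  (.q k20 [(.s k51 k35 3 (.s k119 k187 9 (.s k103 k71 3 (.d k155 k223 k207 9 13)))), (.s k60 k40 5
  (.s k22 k41 6 (.s k28 k25 2 (.s k16 k24 1 (.s k48 k32 3 (.d k18 k17 k33 0 4))))))] .n) (.c k239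
  (.l (.s k155 k223 9 (.s k51 k35 3 (.s k103 k207 13 (.d k119 k71 k187 3 9))))) .n)))))))))

def t85_151 : T TT 256 :=
  (.f k1 k2 0 (.q k243 [(.s k81 k162 12 (.s k161 k241 11 (.s k83 k163 11 (.d k82 k80 k240 0 12)))),
  (.s k83 k163 11 (.s k87 k171 13 (.s k247 k251 1 (.s k167 k7 11 (.d k91 k95 k15 1 13)))))] (.c k83
  (.q k195 [(.s k65 k130 8 (.s k129 k193 7 (.s k66 k192 8 (.d k67 k64 k131 0 7)))), (.s k81 k162 12
  (.s k161 k241 11 (.s k131 k67 7 (.s k146 k176 4 (.d k211 k227 k16 3 8))))), (.s k65 k130 8 (.s k81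
  k162 12 (.s k97 k113 3 (.s k146 k48 12 (.d k211 k227 k16 3 8)))))] .n) (.c k107 (.q k195 [(.s k65
  k130 8 (.s k129 k193 7 (.s k66 k192 8 (.d k67 k64 k131 0 7)))), (.s k81 k162 12 (.s k161 k241 11
  (.s k82 k240 12 (.d k83 k80 k163 0 11))))] .n) (.c k163 (.q k195 [(.s k65 k130 8 (.s k129 k193 7
  (.s k66 k192 8 (.d k67 k64 k131 0 7)))), (.s k81 k162 12 (.s k161 k241 11 (.s k131 k67 7 (.s k146
  k176 4 (.d k211 k227 k16 3 8))))), (.s k65 k130 8 (.s k81 k162 12 (.s k97 k113 3 (.s k146 k48 12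
  (.d k211 k227 k16 3 8)))))] .n) (.c k195 (.q k107 [(.s k81 k162 12 (.s k161 k241 11 (.s k83 k163
  11 (.d k82 k80 k240 0 12)))), (.s k171 k87 13 (.s k235 k43 7 (.s k251 k247 1 (.s k91 k11 11 (.s
  k123 k75 3 (.s k59 k187 7 (.d k203 k219 k155 3 11)))))))] .n) .n))))))

def t85_152 : T TT 256 :=
  (.q k247 [(.s k87 k171 13 (.s k167 k7 11 (.s k243 k251 1 (.s k83 k163 11 (.d k91 k95 k15 1
  13))))), (.s k1 k2 0 (.s k243 k251 1 (.s k81 k162 12 (.s k161 k241 11 (.s k82 k240 12 (.d k83 k80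
  k163 0 11)))))), (.s k1 k2 0 (.s k87 k171 13 (.s k7 k167 11 (.s k15 k11 1 (.s k5 k10 2 (.s k9 k13
  1 (.d k6 k4 k12 0 2)))))))] (.c k163 (.q k195 [(.s k1 k2 0 (.s k65 k130 8 (.s k129 k193 7 (.s k66
  k192 8 (.d k67 k64 k131 0 7))))), (.s k215 k235 5 (.s k231 k199 3 (.s k243 k251 1 (.s k211 k227 3
  (.d k219 k223 k207 1 5)))))] .n) (.c k251 (.q k195 [(.s k1 k2 0 (.s k65 k130 8 (.s k129 k193 7 (.s
  k67 k131 7 (.d k66 k64 k192 0 8))))), (.s k87 k171 13 (.s k7 k167 11 (.s k215 k235 5 (.s k199 k231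
  3 (.s k71 k135 7 (.d k207 k203 k139 1 9))))))] .n) .n)))

def t85_153 : T TT 256 :=
  (.f k87 k171 13 (.f k1 k2 0 (.q k207 [(.s k71 k139 9 (.s k103 k119 3 (.s k223 k239 3 (.d k155 k19
  k51 9 13)))), (.s k69 k138 10 (.s k137 k205 9 (.s k70 k204 10 (.d k71 k68 k139 0 9)))), (.s k69
  k138 10 (.s k137 k205 9 (.s k71 k139 9 (.d k70 k68 k204 0 10))))] (.c k17 (.q k221 [(.s k69 k138
  10 (.s k137 k205 9 (.d k204 k70 k238 10 4))), (.s k71 k139 9 (.s k103 k119 3 (.s k223 k239 3 (.d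
  k155 k19 k51 9 13))))] .n) (.c k68 (.l (.s k71 k139 9 (.s k223 k239 3 (.s k155 k19 9 (.d k103 k119
  k51 3 13))))) (.c k71 (.q k221 [(.s k69 k138 10 (.s k137 k205 9 (.d k204 k70 k238 10 4))), (.s
  k204 k238 4 (.s k223 k239 3 (.s k222 k220 0 (.s k237 k252 4 (.d k205 k206 k253 0 3))))), (.s k69
  k138 10 (.s k205 k137 9 (.s k237 k253 3 (.s k222 k252 4 (.d k223 k220 k239 0 3)))))] (.c k205 (.l
  (.s k238 k204 4 (.s k223 k239 3 (.s k222 k220 0 (.s k254 k206 3 (.d k252 k253 k237 0 4)))))) (.c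
  k206 (.l (.s k238 k204 4 (.s k239 k223 3 (.s k237 k236 0 (.s k205 k253 3 (.d k69 k137 k138 9
  10)))))) .n))) (.c k139 (.l (.s k69 k138 10 (.s k137 k205 9 (.s k70 k204 10 (.s k71 k68 0 (.s k223
  k239 3 (.s k155 k19 9 (.d k103 k119 k51 3 13)))))))) (.c k221 (.q k17 [(.s k71 k139 9 (.s k103
  k119 3 (.d k51 k155 k34 13 4))), (.s k34 k51 4 (.s k33 k49 3 (.s k48 k18 4 (.d k32 k35 k16 0
  3)))), (.s k69 k138 10 (.s k137 k205 9 (.s k71 k139 9 (.d k70 k68 k204 0 10))))] .n) .n))))))))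

def t85_154 : T TT 256 :=
  (.q k223 [(.s k87 k171 13 (.s k155 k19 9 (.s k207 k239 3 (.s k71 k139 9 (.d k103 k119 k51 3
  13))))), (.s k1 k2 0 (.s k207 k239 3 (.s k69 k138 10 (.s k137 k205 9 (.s k70 k204 10 (.d k71 k68
  k139 0 9)))))), (.s k1 k2 0 (.s k87 k171 13 (.s k19 k155 9 (.s k51 k35 3 (.s k17 k34 4 (.s k33 k49
  3 (.d k18 k16 k48 0 4)))))))] (.c k139 (.q k195 [(.s k1 k2 0 (.s k65 k130 8 (.s k129 k193 7 (.s
  k66 k192 8 (.d k67 k64 k131 0 7))))), (.s k215 k235 5 (.s k207 k239 3 (.s k199 k203 1 (.s k231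
  k247 3 (.d k219 k211 k243 1 5)))))] (.c k169 (.q k184 [(.s k1 k2 0 (.s k65 k130 8 (.s k129 k193 7
  (.s k66 k192 8 (.d k67 k64 k131 0 7))))), (.s k215 k235 5 (.s k207 k239 3 (.s k199 k203 1 (.s k231
  k247 3 (.d k219 k211 k243 1 5)))))] (.c k1 (.q k253 [(.s k215 k235 5 (.s k207 k239 3 (.s k219 k211
  1 (.s k231 k243 5 (.d k199 k203 k247 1 3))))), (.s k235 k215 5 (.s k252 k254 0 (.s k233 k214 6 (.s
  k213 k193 5 (.d k234 k232 k192 0 6))))), (.s k65 k130 8 (.s k207 k239 3 (.s k69 k138 10 (.s k73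
  k77 1 (.s k134 k12 10 (.d k199 k203 k4 1 8))))))] .n) (.c k253 (.l (.s k1 k2 0 (.s k65 k130 8 (.s
  k129 k193 7 (.s k66 k192 8 (.d k67 k64 k131 0 7)))))) .n))) (.c k184 (.q k169 [(.s k171 k87 13 (.s
  k168 k170 0 (.d k252 k84 k86 13 14))), (.s k1 k2 0 (.s k65 k130 8 (.s k129 k193 7 (.s k66 k192 8
  (.d k67 k64 k131 0 7)))))] .n) .n))) (.c k239 (.q k195 [(.s k1 k2 0 (.s k65 k130 8 (.s k129 k193 7
  (.s k67 k131 7 (.d k66 k64 k192 0 8))))), (.s k87 k171 13 (.s k19 k155 9 (.s k215 k235 5 (.s k211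
  k219 1 (.s k83 k147 7 (.d k243 k227 k163 3 11))))))] .n) .n)))

def t85_155 : T TT 256 :=
  (.f k1 k2 0 (.q k7 [(.s k15 k11 1 (.s k5 k10 2 (.s k9 k13 1 (.d k6 k4 k12 0 2)))), (.s k87 k171 13
  (.s k247 k167 11 (.s k243 k251 1 (.s k81 k162 12 (.s k161 k241 11 (.s k82 k240 12 (.d k83 k163 k80
  11 0)))))))] (.c k11 (.q k215 [(.s k195 k235 5 (.s k65 k130 8 (.s k129 k193 7 (.s k67 k131 7 (.d
  k66 k64 k192 0 8))))), (.s k87 k171 13 (.s k247 k167 11 (.s k151 k23 7 (.s k199 k231 3 (.s k71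
  k135 7 (.d k103 k119 k55 3 11))))))] .n) .n)))

def t85_156 : T TT 256 :=
  (.f k1 k2 0 (.f k87 k171 13 (.q k243 [(.s k83 k163 11 (.s k247 k251 1 (.s k167 k7 11 (.d k91 k95
  k15 1 13)))), (.s k81 k162 12 (.s k161 k241 11 (.s k82 k240 12 (.d k83 k80 k163 0 11))))] (.c k83
  (.q k195 [(.s k65 k130 8 (.s k129 k193 7 (.s k66 k192 8 (.d k67 k64 k131 0 7)))), (.s k81 k162 12
  (.s k161 k241 11 (.s k131 k67 7 (.s k146 k176 4 (.d k211 k227 k16 3 8))))), (.s k65 k130 8 (.s k81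
  k162 12 (.s k97 k113 3 (.s k146 k48 12 (.d k211 k227 k16 3 8)))))] .n) (.c k163 (.l (.s k81 k162
  12 (.s k161 k241 11 (.s k82 k240 12 (.s k83 k80 0 (.s k247 k251 1 (.s k167 k7 11 (.d k91 k95 k15 1
  13)))))))) .n)))))

def t85_157 : T TT 256 :=
  (.f k1 k2 0 (.q k7 [(.s k15 k11 1 (.s k5 k10 2 (.s k9 k13 1 (.d k6 k4 k12 0 2)))), (.s k87 k171 13
  (.s k247 k167 11 (.s k243 k251 1 (.s k81 k162 12 (.s k161 k241 11 (.s k82 k240 12 (.d k83 k163 k80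
  11 0)))))))] (.c k11 (.q k215 [(.s k195 k235 5 (.s k65 k130 8 (.s k129 k193 7 (.s k67 k131 7 (.d
  k66 k64 k192 0 8))))), (.s k87 k171 13 (.s k247 k167 11 (.s k151 k23 7 (.s k199 k231 3 (.s k71
  k135 7 (.d k103 k119 k55 3 11))))))] (.c k110 (.q k204 [(.s k195 k235 5 (.s k65 k130 8 (.s k129
  k193 7 (.s k66 k192 8 (.d k67 k64 k131 0 7))))), (.s k136 k68 9 (.s k137 k70 10 (.s k69 k205 9 (.d
  k138 k139 k207 0 10))))] .n) (.c k204 (.q k110 [(.s k195 k235 5 (.s k65 k130 8 (.s k129 k193 7 (.s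
  k67 k131 7 (.d k66 k64 k192 0 8))))), (.s k87 k171 13 (.s k247 k167 11 (.s k151 k23 7 (.s k199
  k231 3 (.s k71 k135 7 (.d k103 k119 k55 3 11))))))] .n) .n))) (.c k110 (.q k204 [(.s k15 k11 1 (.s
  k5 k10 2 (.s k9 k13 1 (.d k6 k4 k12 0 2)))), (.s k136 k68 9 (.s k137 k70 10 (.s k69 k205 9 (.d
  k138 k139 k207 0 10))))] .n) (.c k204 (.q k110 [(.s k15 k11 1 (.s k5 k10 2 (.s k9 k13 1 (.d k6 k4
  k12 0 2)))), (.s k87 k171 13 (.s k247 k167 11 (.s k243 k251 1 (.s k81 k162 12 (.s k161 k241 11 (.s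
  k82 k240 12 (.d k83 k163 k80 11 0)))))))] (.c k11 (.q k215 [(.s k195 k235 5 (.s k65 k130 8 (.s
  k129 k193 7 (.s k67 k131 7 (.d k66 k64 k192 0 8))))), (.s k87 k171 13 (.s k247 k167 11 (.s k151
  k23 7 (.s k199 k231 3 (.s k71 k135 7 (.d k103 k119 k55 3 11))))))] .n) .n)) .n)))))

def t85_158 : T TT 256 :=
  (.f k1 k2 0 (.f k87 k171 13 (.q k243 [(.s k83 k163 11 (.s k247 k251 1 (.s k167 k7 11 (.d k91 k95
  k15 1 13)))), (.s k81 k162 12 (.s k161 k241 11 (.s k82 k240 12 (.d k83 k80 k163 0 11))))] (.c k83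
  (.q k195 [(.s k65 k130 8 (.s k129 k193 7 (.s k66 k192 8 (.d k67 k64 k131 0 7)))), (.s k81 k162 12
  (.s k161 k241 11 (.s k131 k67 7 (.s k146 k176 4 (.d k211 k227 k16 3 8))))), (.s k65 k130 8 (.s k81
  k162 12 (.s k97 k113 3 (.s k146 k48 12 (.d k211 k227 k16 3 8)))))] .n) (.c k163 (.l (.s k81 k162
  12 (.s k161 k241 11 (.s k82 k240 12 (.s k83 k80 0 (.s k247 k251 1 (.s k167 k7 11 (.d k91 k95 k15 1
  13)))))))) .n)))))

def t85_159 : T TT 256 :=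
  (.f k1 k2 0 (.f k87 k171 13 (.q k207 [(.s k71 k139 9 (.s k223 k239 3 (.s k155 k19 9 (.d k103 k119
  k51 3 13)))), (.s k69 k138 10 (.s k137 k205 9 (.s k70 k204 10 (.d k71 k68 k139 0 9))))] (.c k71
  (.q k243 [(.s k81 k162 12 (.s k161 k241 11 (.s k82 k240 12 (.d k83 k80 k163 0 11)))), (.s k219
  k231 5 (.s k223 k239 3 (.s k215 k211 1 (.s k235 k195 5 (.d k251 k247 k203 1 3)))))] .n) (.c k139
  (.l (.s k69 k138 10 (.s k137 k205 9 (.s k70 k204 10 (.s k71 k68 0 (.s k223 k239 3 (.s k155 k19 9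
  (.d k103 k119 k51 3 13)))))))) .n)))))

def t85_160 : T TT 256 :=
  (.q k223 [(.s k87 k171 13 (.s k155 k19 9 (.s k207 k239 3 (.s k71 k139 9 (.d k103 k119 k51 3
  13))))), (.s k1 k2 0 (.s k207 k239 3 (.s k69 k138 10 (.s k137 k205 9 (.s k70 k204 10 (.d k71 k68
  k139 0 9)))))), (.s k1 k2 0 (.s k87 k171 13 (.s k19 k155 9 (.s k51 k35 3 (.s k17 k34 4 (.s k33 k49
  3 (.d k18 k16 k48 0 4)))))))] (.c k139 (.q k195 [(.s k1 k2 0 (.s k65 k130 8 (.s k129 k193 7 (.s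
  k66 k192 8 (.d k67 k64 k131 0 7))))), (.s k215 k235 5 (.s k207 k239 3 (.s k199 k203 1 (.s k231
  k247 3 (.d k219 k211 k243 1 5)))))] .n) (.c k239 (.q k195 [(.s k1 k2 0 (.s k65 k130 8 (.s k129
  k193 7 (.s k67 k131 7 (.d k66 k64 k192 0 8))))), (.s k87 k171 13 (.s k19 k155 9 (.s k215 k235 5
  (.s k211 k219 1 (.s k83 k147 7 (.d k243 k227 k163 3 11))))))] .n) .n)))

def t85_161 : T TT 256 :=
  (.f k1 k2 0 (.f k87 k171 13 (.q k207 [(.s k71 k139 9 (.s k223 k239 3 (.s k155 k19 9 (.d k103 k119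
  k51 3 13)))), (.s k69 k138 10 (.s k137 k205 9 (.s k70 k204 10 (.d k71 k68 k139 0 9))))] (.c k71
  (.q k243 [(.s k83 k163 11 (.s k91 k95 1 (.s k247 k251 1 (.d k167 k7 k15 11 13)))), (.s k219 k231 5
  (.s k223 k239 3 (.s k215 k211 1 (.s k235 k195 5 (.d k251 k247 k203 1 3))))), (.s k83 k163 11 (.s
  k91 k95 1 (.s k219 k231 5 (.s k155 k27 7 (.d k223 k239 k19 3 9)))))] .n) (.c k139 (.l (.s k69 k138
  10 (.s k137 k205 9 (.s k70 k204 10 (.s k71 k68 0 (.s k223 k239 3 (.s k155 k19 9 (.d k103 k119 k51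
  3 13)))))))) .n)))))

def t85_162 : T TT 256 :=
  (.q k223 [(.s k87 k171 13 (.s k155 k19 9 (.s k207 k239 3 (.s k71 k139 9 (.d k103 k119 k51 3
  13))))), (.s k1 k2 0 (.s k207 k239 3 (.s k69 k138 10 (.s k137 k205 9 (.s k70 k204 10 (.d k71 k68
  k139 0 9)))))), (.s k1 k2 0 (.s k87 k171 13 (.s k19 k155 9 (.s k51 k35 3 (.s k17 k34 4 (.s k33 k49
  3 (.d k18 k16 k48 0 4)))))))] (.c k139 (.q k195 [(.s k215 k235 5 (.s k207 k239 3 (.s k199 k203 1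
  (.s k231 k247 3 (.d k219 k211 k243 1 5))))), (.s k1 k2 0 (.s k65 k130 8 (.s k129 k193 7 (.s k66
  k192 8 (.d k67 k64 k131 0 7)))))] .n) (.c k239 (.q k195 [(.s k1 k2 0 (.s k65 k130 8 (.s k129 k193
  7 (.s k67 k131 7 (.d k66 k64 k192 0 8))))), (.s k87 k171 13 (.s k19 k155 9 (.s k215 k235 5 (.s
  k211 k219 1 (.s k83 k147 7 (.d k243 k227 k163 3 11))))))] .n) .n)))

def t85_163 : T TT 256 :=
  (.f k1 k2 0 (.q k19 [(.s k51 k35 3 (.s k17 k34 4 (.s k33 k49 3 (.d k18 k16 k48 0 4)))), (.s k87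
  k171 13 (.s k223 k155 9 (.s k207 k239 3 (.s k69 k138 10 (.s k137 k205 9 (.s k70 k204 10 (.d k71
  k139 k68 9 0)))))))] (.c k35 (.q k204 [(.s k137 k70 10 (.s k69 k205 9 (.s k138 k207 10 (.d k136
  k139 k68 0 9)))), (.s k87 k171 13 (.s k223 k155 9 (.s k221 k238 4 (.s k220 k222 0 (.s k86 k153 10
  (.d k252 k236 k169 3 14))))))] (.c k99 (.q k227 [(.s k137 k70 10 (.s k69 k205 9 (.s k138 k207 10
  (.d k136 k139 k68 0 9)))), (.s k87 k171 13 (.s k223 k155 9 (.s k221 k238 4 (.s k220 k222 0 (.s k86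
  k153 10 (.d k252 k236 k169 3 14))))))] (.c k139 (.l (.s k137 k70 10 (.s k205 k69 9 (.s k221 k238 4
  (.s k253 k237 3 (.s k252 k254 0 (.s k86 k169 14 (.d k220 k236 k153 3 10)))))))) (.c k206 (.l (.s
  k136 k68 9 (.s k137 k70 10 (.s k138 k139 0 (.d k69 k205 k207 9 10))))) .n))) (.c k139 (.l (.s k137
  k70 10 (.s k205 k69 9 (.s k221 k238 4 (.s k253 k237 3 (.s k252 k254 0 (.s k86 k169 14 (.d k220
  k236 k153 3 10)))))))) (.c k206 (.l (.s k136 k68 9 (.s k137 k70 10 (.s k138 k139 0 (.d k69 k205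
  k207 9 10))))) (.c k227 (.q k99 [(.s k137 k70 10 (.s k69 k205 9 (.s k138 k207 10 (.d k136 k139 k68
  0 9)))), (.s k87 k171 13 (.s k223 k155 9 (.s k221 k238 4 (.s k220 k222 0 (.s k86 k153 10 (.d k252
  k236 k169 3 14))))))] (.c k139 (.l (.s k137 k70 10 (.s k205 k69 9 (.s k221 k238 4 (.s k253 k237 3
  (.s k252 k254 0 (.s k86 k169 14 (.d k220 k236 k153 3 10)))))))) (.c k206 (.l (.s k136 k68 9 (.s
  k137 k70 10 (.s k138 k139 0 (.d k69 k205 k207 9 10))))) .n))) .n))))) .n)))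

def t85_164 : T TT 256 :=
  (.f k1 k2 0 (.f k87 k171 13 (.q k207 [(.s k71 k139 9 (.s k223 k239 3 (.s k155 k19 9 (.d k103 k119
  k51 3 13)))), (.s k69 k138 10 (.s k137 k205 9 (.s k70 k204 10 (.d k71 k68 k139 0 9))))] (.c k71
  (.q k243 [(.s k81 k162 12 (.s k161 k241 11 (.s k83 k163 11 (.d k82 k80 k240 0 12)))), (.s k219
  k231 5 (.s k223 k239 3 (.s k215 k211 1 (.s k235 k195 5 (.d k251 k247 k203 1 3)))))] .n) (.c k139
  (.l (.s k69 k138 10 (.s k137 k205 9 (.s k70 k204 10 (.s k71 k68 0 (.s k223 k239 3 (.s k155 k19 9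
  (.d k103 k119 k51 3 13)))))))) .n)))))

def t85_165 : T TT 256 :=
  (.q k223 [(.s k87 k171 13 (.s k155 k19 9 (.s k207 k239 3 (.s k71 k139 9 (.d k103 k119 k51 3
  13))))), (.s k1 k2 0 (.s k207 k239 3 (.s k69 k138 10 (.s k137 k205 9 (.s k70 k204 10 (.d k71 k68
  k139 0 9)))))), (.s k1 k2 0 (.s k87 k171 13 (.s k19 k155 9 (.s k51 k35 3 (.s k17 k34 4 (.s k33 k49
  3 (.d k18 k16 k48 0 4)))))))] (.c k5 (.q k245 [(.s k87 k171 13 (.s k155 k19 9 (.s k207 k239 3 (.s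
  k71 k139 9 (.d k103 k119 k51 3 13))))), (.s k1 k2 0 (.s k240 k250 2 (.s k160 k80 11 (.s k161 k82
  12 (.s k81 k241 11 (.d k162 k163 k243 0 12))))))] .n) (.c k139 (.q k5 [(.s k1 k2 0 (.s k15 k10 2
  (.s k9 k13 1 (.s k6 k12 2 (.d k7 k4 k11 0 1))))), (.s k207 k239 3 (.s k69 k138 10 (.s k197 k133 7
  (.s k192 k202 2 (.s k213 k234 6 (.s k229 k245 3 (.d k218 k208 k240 2 6)))))))] (.c k10 (.q k195
  [(.s k1 k2 0 (.s k65 k130 8 (.s k129 k193 7 (.s k66 k192 8 (.d k67 k64 k131 0 7))))), (.s k215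
  k235 5 (.s k207 k239 3 (.s k199 k203 1 (.s k231 k247 3 (.d k219 k211 k243 1 5)))))] .n) .n)) (.c
  k239 (.q k195 [(.s k1 k2 0 (.s k65 k130 8 (.s k129 k193 7 (.s k67 k131 7 (.d k66 k64 k192 0
  8))))), (.s k87 k171 13 (.s k19 k155 9 (.s k215 k235 5 (.s k211 k219 1 (.s k83 k147 7 (.d k243
  k227 k163 3 11))))))] (.c k5 (.q k245 [(.s k1 k2 0 (.s k65 k130 8 (.s k129 k193 7 (.s k67 k131 7
  (.d k66 k64 k192 0 8))))), (.s k67 k131 7 (.s k240 k250 2 (.s k82 k161 12 (.s k97 k112 4 (.s k146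
  k48 12 (.d k210 k225 k18 4 7)))))), (.s k1 k2 0 (.s k240 k250 2 (.s k160 k80 11 (.s k161 k82 12
  (.s k81 k241 11 (.d k162 k163 k243 0 12))))))] .n) (.c k245 (.q k5 [(.s k1 k2 0 (.s k65 k130 8 (.s
  k129 k193 7 (.s k66 k192 8 (.d k67 k64 k131 0 7))))), (.s k1 k2 0 (.s k10 k15 2 (.s k9 k13 1 (.s
  k12 k6 2 (.d k8 k11 k4 0 1))))), (.s k15 k10 2 (.s k7 k11 1 (.s k131 k67 7 (.s k135 k75 9 (.s k71
  k199 7 (.d k139 k143 k207 1 9))))))] .n) .n))) (.c k245 (.q k5 [(.s k87 k171 13 (.s k155 k19 9 (.s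
  k207 k239 3 (.s k71 k139 9 (.d k103 k119 k51 3 13))))), (.s k1 k2 0 (.s k10 k15 2 (.s k9 k13 1 (.s
  k12 k6 2 (.d k8 k11 k4 0 1)))))] .n) .n)))))

def t85_166 : T TT 256 :=
  (.f k1 k2 0 (.f k87 k171 13 (.q k207 [(.s k71 k139 9 (.s k223 k239 3 (.s k155 k19 9 (.d k103 k119
  k51 3 13)))), (.s k69 k138 10 (.s k137 k205 9 (.s k70 k204 10 (.d k71 k68 k139 0 9))))] (.c k4 (.q
  k247 [(.s k71 k139 9 (.s k223 k239 3 (.s k155 k19 9 (.d k103 k119 k51 3 13)))), (.s k167 k7 11 (.s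
  k243 k251 1 (.s k83 k163 11 (.d k91 k95 k15 1 13))))] .n) (.c k71 (.q k247 [(.s k167 k7 11 (.s
  k243 k251 1 (.s k83 k163 11 (.d k91 k95 k15 1 13)))), (.s k239 k223 3 (.s k243 k251 1 (.s k231
  k219 5 (.s k235 k227 1 (.d k215 k199 k195 3 5))))), (.s k69 k138 10 (.s k137 k205 9 (.s k70 k204
  10 (.s k7 k167 11 (.s k133 k196 8 (.s k5 k197 7 (.d k15 k11 k10 1 2)))))))] (.c k11 (.l (.s k167
  k7 11 (.s k243 k251 1 (.s k91 k15 13 (.d k83 k95 k163 1 11))))) (.c k199 (.l (.s k243 k251 1 (.s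
  k83 k163 11 (.s k91 k95 1 (.d k167 k7 k15 11 13))))) .n))) (.c k139 (.l (.s k69 k138 10 (.s k137
  k205 9 (.s k70 k204 10 (.s k71 k68 0 (.s k223 k239 3 (.s k155 k19 9 (.d k103 k119 k51 3 13))))))))
  (.c k247 (.q k4 [(.s k71 k139 9 (.s k223 k239 3 (.s k155 k19 9 (.d k103 k119 k51 3 13)))), (.s k12
  k8 1 (.s k69 k138 10 (.s k134 k199 8 (.s k73 k195 10 (.d k77 k65 k142 1 8)))))] .n) .n)))))))

def t85_167 : T TT 256 :=
  (.f k1 k2 0 (.q k19 [(.s k51 k35 3 (.s k17 k34 4 (.s k33 k49 3 (.d k18 k16 k48 0 4)))), (.s k87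
  k171 13 (.s k223 k155 9 (.s k207 k239 3 (.s k69 k138 10 (.s k137 k205 9 (.s k70 k204 10 (.d k71
  k139 k68 9 0)))))))] (.c k35 (.q k204 [(.s k137 k70 10 (.s k69 k205 9 (.s k138 k207 10 (.d k136
  k139 k68 0 9)))), (.s k87 k171 13 (.s k223 k155 9 (.s k221 k238 4 (.s k220 k222 0 (.s k86 k153 10
  (.d k252 k236 k169 3 14))))))] (.c k139 (.l (.s k137 k70 10 (.s k205 k69 9 (.s k221 k238 4 (.s
  k253 k237 3 (.s k252 k254 0 (.s k86 k169 14 (.d k220 k236 k153 3 10)))))))) (.c k206 (.l (.s k136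
  k68 9 (.s k137 k70 10 (.s k138 k139 0 (.d k69 k205 k207 9 10))))) .n))) .n)))

def t85_168 : T TT 256 :=
  (.f k1 k2 0 (.q k19 [(.s k51 k35 3 (.s k17 k34 4 (.s k33 k49 3 (.d k18 k16 k48 0 4)))), (.s k87
  k171 13 (.s k223 k155 9 (.s k207 k239 3 (.s k69 k138 10 (.s k137 k205 9 (.s k70 k204 10 (.d k71
  k139 k68 9 0)))))))] (.c k35 (.q k204 [(.s k137 k70 10 (.s k69 k205 9 (.s k138 k207 10 (.d k136
  k139 k68 0 9)))), (.s k87 k171 13 (.s k223 k155 9 (.s k221 k238 4 (.s k220 k222 0 (.s k86 k153 10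
  (.d k252 k169 k236 14 3))))))] (.c k139 (.l (.s k137 k70 10 (.s k205 k69 9 (.s k221 k238 4 (.s
  k253 k237 3 (.s k252 k254 0 (.s k86 k169 14 (.d k220 k236 k153 3 10)))))))) (.c k206 (.l (.s k136
  k68 9 (.s k137 k70 10 (.s k138 k139 0 (.d k69 k205 k207 9 10))))) .n))) .n)))

def t85_169 : T TT 256 :=
  (.f k1 k2 0 (.q k15 [(.s k5 k10 2 (.s k9 k13 1 (.s k6 k12 2 (.d k7 k4 k11 0 1)))), (.s k7 k11 1
  (.s k87 k171 13 (.s k95 k175 11 (.s k91 k83 1 (.d k167 k247 k243 11 13)))))] (.c k7 (.q k19 [(.s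
  k51 k35 3 (.s k17 k34 4 (.s k33 k49 3 (.d k18 k16 k48 0 4)))), (.s k87 k171 13 (.s k95 k175 11 (.s
  k223 k155 9 (.s k31 k159 7 (.s k23 k27 1 (.s k151 k215 7 (.d k91 k83 k211 1 9)))))))] .n) (.c k11
  (.f k87 k171 13 (.l (.s k5 k10 2 (.s k9 k13 1 (.s k6 k12 2 (.s k7 k4 0 (.s k95 k175 11 (.s k91 k83
  1 (.d k167 k247 k243 11 13))))))))) .n))))

def t85_170 : T TT 256 :=
  (.q k247 [(.s k87 k171 13 (.s k167 k7 11 (.s k243 k251 1 (.s k83 k163 11 (.d k91 k95 k15 1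
  13))))), (.s k1 k2 0 (.s k243 k251 1 (.s k81 k162 12 (.s k161 k241 11 (.s k82 k240 12 (.d k83 k80
  k163 0 11)))))), (.s k1 k2 0 (.s k87 k171 13 (.s k7 k167 11 (.s k15 k11 1 (.s k5 k10 2 (.s k9 k13
  1 (.d k6 k4 k12 0 2)))))))] (.c k8 (.l (.s k1 k2 0 (.s k87 k171 13 (.s k7 k167 11 (.s k15 k11 1
  (.s k5 k10 2 (.s k9 k13 1 (.d k6 k4 k12 0 2)))))))) (.c k163 (.q k207 [(.s k1 k2 0 (.s k69 k138 10
  (.s k137 k205 9 (.s k71 k139 9 (.d k70 k68 k204 0 10))))), (.s k239 k223 3 (.s k243 k251 1 (.s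
  k231 k219 5 (.s k215 k199 3 (.d k235 k227 k195 1 5)))))] (.c k154 (.l (.s k2 k1 0 (.s k138 k69 10
  (.s k70 k206 9 (.s k137 k204 10 (.d k139 k136 k71 0 9)))))) .n)) (.c k251 (.q k51 [(.s k1 k2 0 (.s
  k17 k34 4 (.s k33 k49 3 (.s k19 k35 3 (.d k18 k16 k48 0 4))))), (.s k87 k171 13 (.s k7 k167 11 (.s
  k119 k187 9 (.s k55 k183 7 (.s k39 k23 3 (.d k15 k11 k27 1 5))))))] (.c k8 (.q k89 [(.s k1 k2 0
  (.s k17 k34 4 (.s k33 k49 3 (.s k19 k35 3 (.d k18 k16 k48 0 4))))), (.s k87 k171 13 (.s k7 k167 11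
  (.s k119 k187 9 (.s k55 k183 7 (.s k39 k23 3 (.d k15 k11 k27 1 5))))))] .n) (.c k89 (.q k8 [(.s k1
  k2 0 (.s k12 k4 1 (.s k9 k6 2 (.s k5 k13 1 (.d k10 k11 k15 0 2))))), (.s k2 k1 0 (.s k34 k17 4 (.s
  k18 k50 3 (.s k33 k48 4 (.d k35 k32 k19 0 3))))), (.s k4 k12 1 (.s k87 k171 13 (.s k7 k167 11 (.s
  k5 k6 0 (.d k15 k11 k10 1 2)))))] (.c k81 (.q k93 [(.d k12 k4 k174 1 12), (.s k1 k2 0 (.s k17 k34
  4 (.s k33 k49 3 (.s k18 k48 4 (.d k19 k16 k35 0 3)))))] .n) (.c k93 (.q k81 [(.s k1 k2 0 (.s k12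
  k4 1 (.s k9 k6 2 (.s k10 k11 0 (.d k5 k13 k15 1 2))))), (.s k2 k1 0 (.s k34 k17 4 (.s k18 k50 3
  (.s k33 k48 4 (.d k35 k32 k19 0 3))))), (.s k4 k12 1 (.s k87 k171 13 (.s k7 k167 11 (.s k5 k6 0
  (.d k15 k11 k10 1 2)))))] .n) .n))) .n))) .n))))

def t85_171 : T TT 256 :=
  (.q k70 [(.s k1 k2 0 (.s k137 k204 10 (.s k69 k205 9 (.s k207 k138 10 (.d k71 k68 k139 0 9))))),
  (.s k2 k1 0 (.s k206 k138 9 (.s k204 k137 10 (.s k238 k221 4 (.s k254 k222 3 (.s k86 k170 13 (.d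
  k252 k253 k169 0 14)))))))] (.c k1 (.q k15 [(.s k11 k7 1 (.s k137 k204 10 (.s k74 k200 8 (.s k192
  k133 10 (.d k66 k78 k129 1 8))))), (.s k5 k10 2 (.s k7 k11 1 (.s k133 k196 8 (.s k69 k197 7 (.s
  k207 k138 10 (.d k71 k68 k139 0 9)))))), (.s k5 k10 2 (.s k204 k137 10 (.s k68 k136 9 (.s k78 k141
  8 (.s k74 k66 1 (.s k133 k192 10 (.d k69 k71 k197 0 7)))))))] (.c k74 (.l (.s k5 k10 2 (.s k7 k11
  1 (.s k4 k6 0 (.s k196 k133 8 (.s k68 k132 7 (.d k204 k137 k136 10 9))))))) (.c k133 (.l (.s k10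
  k5 2 (.s k11 k7 1 (.s k137 k204 10 (.s k74 k200 8 (.s k138 k202 7 (.s k139 k136 0 (.d k207 k69 k71
  10 9)))))))) (.c k169 (.q k253 [(.s k11 k7 1 (.s k137 k204 10 (.s k74 k200 8 (.s k192 k133 10 (.d
  k66 k78 k129 1 8))))), (.s k175 k95 11 (.s k252 k254 0 (.s k173 k94 12 (.s k93 k13 11 (.d k174
  k172 k12 0 12)))))] (.c k168 (.q k170 [(.s k10 k5 2 (.s k90 k250 11 (.s k175 k95 11 (.d k165 k160
  k240 2 14)))), (.s k11 k7 1 (.s k137 k204 10 (.s k74 k200 8 (.s k192 k133 10 (.d k66 k78 k129 1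
  8)))))] .n) (.c k170 (.q k168 [(.d k252 k254 k84 0 13), (.s k7 k11 1 (.s k137 k204 10 (.s k133
  k196 8 (.s k192 k74 10 (.d k129 k141 k66 1 8)))))] .n) .n))) (.c k253 (.q k169 [(.s k10 k5 2 (.s
  k11 k7 1 (.s k90 k248 12 (.s k250 k170 11 (.d k240 k245 k165 2 14))))), (.s k204 k137 10 (.s k86
  k252 14 (.s k102 k118 3 (.s k35 k236 10 (.d k51 k19 k153 3 14)))))] .n) .n))))) (.c k2 (.q k15
  [(.s k11 k7 1 (.s k137 k204 10 (.s k74 k200 8 (.s k192 k133 10 (.d k66 k78 k129 1 8))))), (.s k5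
  k10 2 (.s k7 k11 1 (.s k133 k196 8 (.s k69 k197 7 (.s k207 k138 10 (.d k71 k68 k139 0 9)))))), (.s
  k5 k10 2 (.s k204 k137 10 (.s k68 k136 9 (.s k78 k141 8 (.s k74 k66 1 (.s k133 k192 10 (.d k69 k71
  k197 0 7)))))))] (.c k74 (.l (.s k5 k10 2 (.s k7 k11 1 (.s k133 k196 8 (.s k69 k197 7 (.s k68 k71
  0 (.d k204 k137 k136 10 9))))))) (.c k133 (.l (.s k10 k5 2 (.s k11 k7 1 (.s k137 k204 10 (.s k74
  k200 8 (.s k138 k202 7 (.s k139 k136 0 (.d k207 k69 k71 10 9)))))))) .n))) (.c k69 (.f k204 k137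
  10 (.f k1 k2 0 (.q k15 [(.s k5 k10 2 (.s k9 k13 1 (.s k6 k12 2 (.d k7 k4 k11 0 1)))), (.s k78 k141
  8 (.s k66 k74 1 (.s k129 k192 8 (.s k65 k193 7 (.s k195 k130 8 (.d k67 k64 k131 0 7))))))] (.c k11
  (.l (.s k5 k10 2 (.s k9 k13 1 (.s k6 k12 2 (.s k7 k4 0 (.s k133 k196 8 (.s k74 k192 10 (.d k78 k66
  k141 1 8)))))))) (.c k101 (.q k117 [(.s k5 k10 2 (.s k9 k13 1 (.s k6 k12 2 (.d k7 k4 k11 0 1)))),
  (.s k48 k186 10 (.s k32 k16 3 (.s k33 k18 4 (.s k17 k49 3 (.d k34 k35 k51 0 4)))))] .n) (.c k117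
  (.q k101 [(.s k5 k10 2 (.s k9 k13 1 (.s k6 k12 2 (.d k7 k4 k11 0 1)))), (.s k78 k141 8 (.s k66 k74
  1 (.s k129 k192 8 (.s k65 k193 7 (.s k195 k130 8 (.d k67 k64 k131 0 7))))))] (.c k11 (.l (.s k5
  k10 2 (.s k9 k13 1 (.s k6 k12 2 (.s k7 k4 0 (.s k133 k196 8 (.s k74 k192 10 (.d k78 k66 k141 1
  8)))))))) .n)) .n)))))) (.c k137 (.q k15 [(.s k1 k2 0 (.s k5 k10 2 (.s k9 k13 1 (.s k6 k12 2 (.d
  k7 k4 k11 0 1))))), (.s k2 k1 0 (.s k138 k206 9 (.s k7 k11 1 (.s k133 k196 8 (.s k128 k143 2 (.d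
  k192 k74 k64 10 7)))))), (.s k5 k10 2 (.s k7 k11 1 (.s k133 k196 8 (.s k69 k197 7 (.s k207 k138 10
  (.d k71 k139 k68 9 0)))))), (.s k2 k1 0 (.s k10 k5 2 (.s k138 k206 9 (.s k74 k202 7 (.s k192 k133
  10 (.d k66 k129 k78 8 1))))))] .n) (.c k138 (.q k15 [(.s k1 k2 0 (.s k5 k10 2 (.s k9 k13 1 (.s k6
  k12 2 (.d k7 k4 k11 0 1))))), (.s k7 k11 1 (.s k137 k204 10 (.s k133 k196 8 (.s k129 k141 1 (.d
  k192 k66 k74 8 10))))), (.s k1 k2 0 (.s k5 k10 2 (.s k137 k204 10 (.s k69 k205 9 (.s k133 k197 7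
  (.s k129 k141 1 (.d k192 k74 k66 10 8)))))))] (.c k74 (.l (.s k2 k1 0 (.s k10 k5 2 (.s k6 k14 1
  (.s k9 k12 2 (.d k11 k8 k7 0 1)))))) .n)) (.c k139 (.l (.s k2 k1 0 (.s k138 k206 9 (.s k69 k207 10
  (.s k204 k137 10 (.d k68 k71 k136 0 9)))))) (.c k204 (.q k15 [(.s k1 k2 0 (.s k5 k10 2 (.s k9 k13
  1 (.s k7 k11 1 (.d k6 k4 k12 0 2))))), (.s k2 k1 0 (.s k138 k206 9 (.s k207 k69 10 (.s k7 k11 1
  (.s k133 k196 8 (.d k143 k128 k79 2 7)))))), (.s k2 k1 0 (.s k10 k5 2 (.s k138 k206 9 (.s k74 k202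
  7 (.s k192 k133 10 (.d k66 k78 k129 1 8)))))), (.s k5 k10 2 (.s k7 k11 1 (.s k133 k196 8 (.s k69
  k197 7 (.s k207 k138 10 (.d k71 k68 k139 0 9))))))] (.c k110 (.q k157 [(.s k1 k2 0 (.s k5 k10 2
  (.s k9 k13 1 (.s k7 k11 1 (.d k6 k4 k12 0 2))))), (.s k2 k1 0 (.s k138 k206 9 (.s k207 k69 10 (.s
  k7 k11 1 (.s k133 k196 8 (.d k143 k128 k79 2 7)))))), (.s k2 k1 0 (.s k10 k5 2 (.s k138 k206 9 (.s
  k74 k202 7 (.s k192 k133 10 (.d k66 k78 k129 1 8)))))), (.s k5 k10 2 (.s k7 k11 1 (.s k133 k196 8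
  (.s k69 k197 7 (.s k207 k138 10 (.d k71 k68 k139 0 9))))))] .n) (.c k157 (.q k110 [(.s k1 k2 0 (.s
  k5 k10 2 (.s k9 k13 1 (.s k7 k11 1 (.d k6 k4 k12 0 2))))), (.s k2 k1 0 (.s k138 k206 9 (.s k207
  k69 10 (.s k7 k11 1 (.s k133 k196 8 (.d k143 k128 k79 2 7)))))), (.s k2 k1 0 (.s k10 k5 2 (.s k138
  k206 9 (.s k74 k202 7 (.s k192 k133 10 (.d k66 k78 k129 1 8)))))), (.s k5 k10 2 (.s k7 k11 1 (.s
  k133 k196 8 (.s k69 k197 7 (.s k207 k138 10 (.d k71 k68 k139 0 9))))))] .n) .n))) (.c k205 (.l (.s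
  k2 k1 0 (.s k138 k206 9 (.s k69 k207 10 (.s k204 k137 10 (.d k68 k71 k136 0 9)))))) (.c k206 (.l
  (.s k1 k2 0 (.s k137 k204 10 (.s k69 k205 9 (.s k207 k138 10 (.d k71 k68 k139 0 9))))))
  .n))))))))))

def t85_172 : T TT 256 :=
  (.q k223 [(.s k87 k171 13 (.s k155 k19 9 (.s k207 k239 3 (.s k71 k139 9 (.d k103 k119 k51 3
  13))))), (.s k1 k2 0 (.s k207 k239 3 (.s k69 k138 10 (.s k137 k205 9 (.s k70 k204 10 (.d k71 k68
  k139 0 9)))))), (.s k1 k2 0 (.s k87 k171 13 (.s k19 k155 9 (.s k51 k35 3 (.s k17 k34 4 (.s k33 k49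
  3 (.d k18 k16 k48 0 4)))))))] (.c k139 (.q k195 [(.s k1 k2 0 (.s k65 k130 8 (.s k129 k193 7 (.s
  k66 k192 8 (.d k67 k64 k131 0 7))))), (.s k215 k235 5 (.s k207 k239 3 (.s k199 k203 1 (.s k231
  k247 3 (.d k219 k211 k243 1 5)))))] .n) (.c k239 (.q k195 [(.s k1 k2 0 (.s k65 k130 8 (.s k129
  k193 7 (.s k67 k131 7 (.d k66 k64 k192 0 8))))), (.s k87 k171 13 (.s k19 k155 9 (.s k215 k235 5
  (.s k211 k219 1 (.s k83 k147 7 (.d k243 k227 k163 3 11))))))] .n) .n)))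

def t85_173 : T TT 256 :=
  (.q k223 [(.s k87 k171 13 (.s k155 k19 9 (.s k207 k239 3 (.s k71 k139 9 (.d k103 k119 k51 3
  13))))), (.s k1 k2 0 (.s k207 k239 3 (.s k69 k138 10 (.s k137 k205 9 (.s k70 k204 10 (.d k71 k68
  k139 0 9)))))), (.s k1 k2 0 (.s k87 k171 13 (.s k19 k155 9 (.s k51 k35 3 (.s k17 k34 4 (.s k33 k49
  3 (.d k18 k16 k48 0 4)))))))] (.c k139 (.q k195 [(.s k1 k2 0 (.s k65 k130 8 (.s k129 k193 7 (.s
  k66 k192 8 (.d k67 k64 k131 0 7))))), (.s k215 k235 5 (.s k207 k239 3 (.s k199 k203 1 (.s k231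
  k247 3 (.d k219 k211 k243 1 5)))))] .n) (.c k239 (.q k195 [(.s k1 k2 0 (.s k65 k130 8 (.s k129
  k193 7 (.s k67 k131 7 (.d k66 k64 k192 0 8))))), (.s k87 k171 13 (.s k19 k155 9 (.s k215 k235 5
  (.s k211 k219 1 (.s k83 k147 7 (.d k243 k227 k163 3 11))))))] .n) .n)))

def t85_174 : T TT 256 :=
  (.f k1 k2 0 (.f k87 k171 13 (.q k243 [(.s k83 k163 11 (.s k247 k251 1 (.s k167 k7 11 (.d k91 k95
  k15 1 13)))), (.s k81 k162 12 (.s k161 k241 11 (.s k82 k240 12 (.d k83 k80 k163 0 11))))] (.c k83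
  (.q k51 [(.s k19 k35 3 (.s k119 k187 9 (.s k103 k71 3 (.d k155 k223 k207 9 13)))), (.s k17 k34 4
  (.s k81 k162 12 (.s k145 k209 7 (.s k98 k192 12 (.d k115 k64 k179 4 7)))))] .n) (.c k163 (.l (.s
  k81 k162 12 (.s k161 k241 11 (.s k82 k240 12 (.s k83 k80 0 (.s k247 k251 1 (.s k167 k7 11 (.d k91
  k95 k15 1 13)))))))) .n)))))

def t85_175 : T TT 256 :=
  (.q k243 [(.s k83 k163 11 (.s k247 k251 1 (.s k87 k171 13 (.s k167 k7 11 (.d k91 k95 k15 1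
  13))))), (.s k1 k2 0 (.s k81 k162 12 (.s k161 k241 11 (.s k82 k240 12 (.d k83 k80 k163 0 11)))))]
  (.c k83 (.q k195 [(.s k1 k2 0 (.s k65 k130 8 (.s k129 k193 7 (.s k67 k131 7 (.d k66 k64 k192 0
  8))))), (.s k211 k227 3 (.s k215 k235 5 (.s k219 k223 1 (.s k231 k207 5 (.d k247 k251 k199 1
  3)))))] .n) (.c k163 (.q k167 [(.s k87 k171 13 (.d k247 k251 k7 1 11)), (.s k1 k2 0 (.s k15 k91 13
  (.s k5 k10 2 (.s k9 k13 1 (.s k6 k12 2 (.d k7 k4 k11 0 1))))))] (.c k7 (.l (.s k171 k87 13 (.s k91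
  k15 13 (.d k251 k247 k11 1 11)))) .n)) .n)))

def t85_176 : T TT 256 :=
  (.f k1 k2 0 (.f k87 k171 13 (.q k243 [(.s k83 k163 11 (.s k247 k251 1 (.s k167 k7 11 (.d k91 k95
  k15 1 13)))), (.s k81 k162 12 (.s k161 k241 11 (.s k82 k240 12 (.d k83 k80 k163 0 11))))] (.c k83
  (.q k51 [(.s k19 k35 3 (.s k119 k187 9 (.s k103 k71 3 (.d k155 k223 k207 9 13)))), (.s k17 k34 4
  (.s k81 k162 12 (.s k145 k209 7 (.s k98 k192 12 (.d k115 k64 k179 4 7)))))] .n) (.c k163 (.l (.s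
  k81 k162 12 (.s k161 k241 11 (.s k82 k240 12 (.s k83 k80 0 (.s k247 k251 1 (.s k167 k7 11 (.d k91
  k95 k15 1 13)))))))) .n)))))

def t85_177 : T TT 256 :=
  (.f k1 k2 0 (.f k87 k171 13 (.q k243 [(.s k83 k163 11 (.s k247 k251 1 (.s k167 k7 11 (.d k91 k95
  k15 1 13)))), (.s k81 k162 12 (.s k161 k241 11 (.s k82 k240 12 (.d k83 k80 k163 0 11))))] (.c k83
  (.q k51 [(.s k19 k35 3 (.s k119 k187 9 (.s k103 k71 3 (.d k155 k223 k207 9 13)))), (.s k17 k34 4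
  (.s k81 k162 12 (.s k145 k209 7 (.s k98 k192 12 (.d k115 k64 k179 4 7)))))] .n) (.c k163 (.l (.s
  k81 k162 12 (.s k161 k241 11 (.s k82 k240 12 (.s k83 k80 0 (.s k247 k251 1 (.s k167 k7 11 (.d k91
  k95 k15 1 13)))))))) .n)))))

def t85_178 : T TT 256 :=
  (.f k1 k2 0 (.f k87 k171 13 (.q k243 [(.s k83 k163 11 (.s k247 k251 1 (.s k167 k7 11 (.d k91 k95
  k15 1 13)))), (.s k81 k162 12 (.s k161 k241 11 (.s k82 k240 12 (.d k83 k80 k163 0 11))))] (.c k83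
  (.q k51 [(.s k19 k35 3 (.s k119 k187 9 (.s k103 k71 3 (.d k155 k223 k207 9 13)))), (.s k17 k34 4
  (.s k81 k162 12 (.s k145 k209 7 (.s k98 k192 12 (.d k115 k64 k179 4 7)))))] .n) (.c k163 (.l (.s
  k81 k162 12 (.s k161 k241 11 (.s k82 k240 12 (.s k83 k80 0 (.s k247 k251 1 (.s k167 k7 11 (.d k91
  k95 k15 1 13)))))))) .n)))))

def t85_179 : T TT 256 :=
  (.f k1 k2 0 (.f k87 k171 13 (.q k243 [(.s k83 k163 11 (.s k247 k251 1 (.s k167 k7 11 (.d k91 k95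
  k15 1 13)))), (.s k81 k162 12 (.s k161 k241 11 (.s k82 k240 12 (.d k83 k80 k163 0 11))))] (.c k83
  (.q k51 [(.s k17 k34 4 (.s k33 k49 3 (.s k18 k48 4 (.d k19 k16 k35 0 3)))), (.s k19 k35 3 (.s k119
  k187 9 (.s k103 k71 3 (.d k155 k223 k207 9 13)))), (.s k17 k34 4 (.s k81 k162 12 (.s k161 k241 11
  (.s k145 k209 7 (.s k129 k177 3 (.d k192 k98 k66 12 8))))))] .n) (.c k163 (.l (.s k81 k162 12 (.s
  k161 k241 11 (.s k82 k240 12 (.s k83 k80 0 (.s k247 k251 1 (.s k167 k7 11 (.d k91 k95 k15 1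
  13)))))))) .n)))))

def t85_180 : T TT 256 :=
  (.q k243 [(.s k1 k2 0 (.s k81 k162 12 (.s k161 k241 11 (.s k83 k163 11 (.d k82 k80 k240 0 12))))),
  (.s k83 k163 11 (.s k87 k171 13 (.s k91 k95 1 (.s k167 k15 13 (.d k247 k251 k7 1 11)))))] (.c k80
  (.l (.s k2 k1 0 (.s k162 k81 12 (.s k82 k242 11 (.s k161 k240 12 (.d k163 k83 k160 11 0)))))) (.c
  k83 (.q k167 [(.s k87 k171 13 (.d k247 k251 k7 1 11)), (.s k1 k2 0 (.s k15 k91 13 (.s k95 k175 11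
  (.s k5 k10 2 (.s k9 k13 1 (.s k6 k12 2 (.d k7 k4 k11 0 1)))))))] (.c k7 (.l (.s k171 k87 13 (.s
  k91 k15 13 (.d k251 k247 k11 1 11)))) (.c k87 (.l (.s k1 k2 0 (.s k15 k91 13 (.s k95 k175 11 (.s
  k5 k10 2 (.s k9 k13 1 (.s k6 k12 2 (.d k7 k4 k11 0 1)))))))) .n))) (.c k163 (.q k167 [(.s k87 k171
  13 (.d k247 k251 k7 1 11)), (.s k1 k2 0 (.s k15 k91 13 (.s k5 k10 2 (.s k9 k13 1 (.s k6 k12 2 (.d
  k7 k4 k11 0 1))))))] (.c k7 (.l (.s k171 k87 13 (.s k91 k15 13 (.d k251 k247 k11 1 11)))) .n))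
  .n))))

def t85_181 : T TT 256 :=
  (.f k1 k2 0 (.f k87 k171 13 (.q k51 [(.s k19 k35 3 (.s k119 k187 9 (.s k103 k71 3 (.d k155 k223
  k207 9 13)))), (.s k17 k34 4 (.s k33 k49 3 (.s k18 k48 4 (.d k19 k16 k35 0 3))))] (.c k19 (.q k243
  [(.s k83 k163 11 (.s k247 k251 1 (.s k167 k7 11 (.d k91 k95 k15 1 13)))), (.s k17 k34 4 (.s k81
  k162 12 (.s k145 k209 7 (.s k98 k192 12 (.d k115 k64 k179 4 7)))))] (.c k122 (.q k240 [(.s k81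
  k162 12 (.d k161 k82 k241 12 11)), (.s k17 k34 4 (.s k49 k33 3 (.s k177 k114 8 (.d k241 k242 k113
  0 7))))] (.c k241 (.l (.s k80 k160 11 (.s k81 k162 12 (.d k82 k161 k83 12 0)))) (.c k242 (.l (.s
  k80 k160 11 (.s k81 k162 12 (.d k82 k161 k83 12 0)))) .n))) (.c k240 (.q k122 [(.s k83 k163 11 (.s
  k247 k251 1 (.s k167 k7 11 (.d k91 k95 k15 1 13)))), (.s k17 k34 4 (.s k81 k162 12 (.s k145 k209 7
  (.s k98 k192 12 (.d k115 k64 k179 4 7)))))] .n) .n))) (.c k35 (.l (.s k17 k34 4 (.s k33 k49 3 (.s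
  k18 k48 4 (.s k19 k16 0 (.s k119 k187 9 (.s k103 k71 3 (.d k155 k223 k207 9 13)))))))) (.c k122
  (.q k240 [(.s k17 k34 4 (.s k33 k49 3 (.s k18 k48 4 (.d k19 k16 k35 0 3)))), (.s k160 k80 11 (.s
  k161 k82 12 (.s k81 k241 11 (.d k162 k163 k243 0 12))))] .n) (.c k240 (.q k122 [(.s k19 k35 3 (.s
  k119 k187 9 (.s k103 k71 3 (.d k155 k223 k207 9 13)))), (.s k17 k34 4 (.s k33 k49 3 (.s k18 k48 4
  (.d k19 k16 k35 0 3))))] (.c k19 (.q k243 [(.s k83 k163 11 (.s k247 k251 1 (.s k167 k7 11 (.d k91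
  k95 k15 1 13)))), (.s k17 k34 4 (.s k81 k162 12 (.s k145 k209 7 (.s k98 k192 12 (.d k115 k64 k179
  4 7)))))] .n) (.c k35 (.l (.s k17 k34 4 (.s k33 k49 3 (.s k18 k48 4 (.s k19 k16 0 (.s k119 k187 9
  (.s k103 k71 3 (.d k155 k223 k207 9 13)))))))) .n))) .n)))))))

def t85_182 : T TT 256 :=
  (.q k243 [(.s k1 k2 0 (.s k81 k162 12 (.s k161 k241 11 (.s k83 k163 11 (.d k82 k80 k240 0 12))))),
  (.s k83 k163 11 (.s k87 k171 13 (.s k91 k95 1 (.s k167 k15 13 (.d k247 k251 k7 1 11)))))] (.c k80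
  (.l (.s k2 k1 0 (.s k162 k81 12 (.s k82 k242 11 (.s k161 k240 12 (.d k163 k83 k160 11 0)))))) (.c
  k83 (.q k167 [(.s k87 k171 13 (.d k247 k251 k7 1 11)), (.s k1 k2 0 (.s k15 k91 13 (.s k95 k175 11
  (.s k5 k10 2 (.s k9 k13 1 (.s k6 k12 2 (.d k7 k4 k11 0 1)))))))] (.c k7 (.l (.s k171 k87 13 (.s
  k91 k15 13 (.d k251 k247 k11 1 11)))) (.c k87 (.l (.s k1 k2 0 (.s k15 k91 13 (.s k95 k175 11 (.s
  k5 k10 2 (.s k9 k13 1 (.s k6 k12 2 (.d k7 k4 k11 0 1)))))))) .n))) (.c k163 (.q k167 [(.s k87 k171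
  13 (.d k247 k251 k7 1 11)), (.s k1 k2 0 (.s k15 k91 13 (.s k5 k10 2 (.s k9 k13 1 (.s k6 k12 2 (.d
  k7 k4 k11 0 1))))))] (.c k7 (.l (.s k171 k87 13 (.s k91 k15 13 (.d k251 k247 k11 1 11)))) .n))
  .n))))

def t85_183 : T TT 256 :=
  (.q k243 [(.s k1 k2 0 (.s k81 k162 12 (.s k161 k241 11 (.s k83 k163 11 (.d k82 k80 k240 0 12))))),
  (.s k83 k163 11 (.s k87 k171 13 (.s k91 k95 1 (.s k167 k15 13 (.d k247 k251 k7 1 11)))))] (.c k80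
  (.l (.s k2 k1 0 (.s k162 k81 12 (.s k82 k242 11 (.s k161 k240 12 (.d k163 k83 k160 11 0)))))) (.c
  k83 (.q k167 [(.s k87 k171 13 (.d k247 k251 k7 1 11)), (.s k1 k2 0 (.s k15 k91 13 (.s k95 k175 11
  (.s k5 k10 2 (.s k9 k13 1 (.s k6 k12 2 (.d k7 k4 k11 0 1)))))))] (.c k7 (.l (.s k171 k87 13 (.s
  k91 k15 13 (.d k251 k247 k11 1 11)))) (.c k87 (.l (.s k1 k2 0 (.s k15 k91 13 (.s k95 k175 11 (.s
  k5 k10 2 (.s k9 k13 1 (.s k6 k12 2 (.d k7 k4 k11 0 1)))))))) .n))) (.c k163 (.q k167 [(.s k87 k171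
  13 (.d k247 k251 k7 1 11)), (.s k1 k2 0 (.s k15 k91 13 (.s k5 k10 2 (.s k9 k13 1 (.s k6 k12 2 (.d
  k7 k4 k11 0 1))))))] (.c k7 (.l (.s k171 k87 13 (.s k91 k15 13 (.d k251 k247 k11 1 11)))) .n))
  .n))))

def t85_184 : T TT 256 :=
  (.q k243 [(.s k1 k2 0 (.s k81 k162 12 (.s k161 k241 11 (.s k83 k163 11 (.d k82 k80 k240 0 12))))),
  (.s k83 k163 11 (.s k87 k171 13 (.s k91 k95 1 (.s k167 k15 13 (.d k247 k251 k7 1 11)))))] (.c k80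
  (.l (.s k2 k1 0 (.s k162 k81 12 (.s k82 k242 11 (.s k161 k240 12 (.d k163 k83 k160 11 0)))))) (.c
  k83 (.q k167 [(.s k87 k171 13 (.d k247 k251 k7 1 11)), (.s k1 k2 0 (.s k15 k91 13 (.s k95 k175 11
  (.s k5 k10 2 (.s k9 k13 1 (.s k6 k12 2 (.d k7 k4 k11 0 1)))))))] (.c k7 (.l (.s k171 k87 13 (.s
  k91 k15 13 (.d k251 k247 k11 1 11)))) (.c k87 (.l (.s k1 k2 0 (.s k15 k91 13 (.s k95 k175 11 (.s
  k5 k10 2 (.s k9 k13 1 (.s k6 k12 2 (.d k7 k4 k11 0 1)))))))) .n))) (.c k163 (.q k167 [(.s k87 k171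
  13 (.d k247 k251 k7 1 11)), (.s k1 k2 0 (.s k15 k91 13 (.s k5 k10 2 (.s k9 k13 1 (.s k6 k12 2 (.d
  k7 k4 k11 0 1))))))] (.c k7 (.l (.s k171 k87 13 (.s k91 k15 13 (.d k251 k247 k11 1 11)))) .n))
  .n))))

def t85_185 : T TT 256 :=
  (.q k243 [(.s k1 k2 0 (.s k81 k162 12 (.s k161 k241 11 (.s k83 k163 11 (.d k82 k80 k240 0 12))))),
  (.s k83 k163 11 (.s k87 k171 13 (.s k91 k95 1 (.s k167 k15 13 (.d k247 k251 k7 1 11)))))] (.c k80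
  (.l (.s k2 k1 0 (.s k162 k81 12 (.s k82 k242 11 (.s k161 k240 12 (.d k163 k83 k160 11 0)))))) (.c
  k83 (.q k167 [(.s k87 k171 13 (.d k247 k251 k7 1 11)), (.s k1 k2 0 (.s k15 k91 13 (.s k95 k175 11
  (.s k5 k10 2 (.s k9 k13 1 (.s k6 k12 2 (.d k7 k4 k11 0 1)))))))] (.c k7 (.l (.s k171 k87 13 (.s
  k91 k15 13 (.d k251 k247 k11 1 11)))) (.c k87 (.l (.s k1 k2 0 (.s k15 k91 13 (.s k95 k175 11 (.s
  k5 k10 2 (.s k9 k13 1 (.s k6 k12 2 (.d k7 k4 k11 0 1)))))))) .n))) (.c k163 (.q k167 [(.s k87 k171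
  13 (.d k247 k251 k7 1 11)), (.s k1 k2 0 (.s k15 k91 13 (.s k5 k10 2 (.s k9 k13 1 (.s k6 k12 2 (.d
  k7 k4 k11 0 1))))))] (.c k7 (.l (.s k171 k87 13 (.s k91 k15 13 (.d k251 k247 k11 1 11)))) .n))
  .n))))

def t85_186 : T TT 256 :=
  (.f k1 k2 0 (.f k87 k171 13 (.q k51 [(.s k17 k34 4 (.s k33 k49 3 (.s k18 k48 4 (.d k19 k16 k35 0
  3)))), (.s k19 k35 3 (.s k119 k187 9 (.s k103 k71 3 (.d k155 k223 k207 9 13))))] (.c k19 (.q k243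
  [(.s k81 k162 12 (.s k161 k241 11 (.s k82 k240 12 (.d k83 k80 k163 0 11)))), (.s k83 k163 11 (.s
  k247 k251 1 (.s k167 k7 11 (.d k91 k95 k15 1 13)))), (.s k17 k34 4 (.s k81 k162 12 (.s k145 k209 7
  (.s k98 k192 12 (.d k115 k64 k179 4 7)))))] .n) (.c k35 (.l (.s k17 k34 4 (.s k33 k49 3 (.s k18
  k48 4 (.s k19 k16 0 (.s k119 k187 9 (.s k103 k71 3 (.d k155 k223 k207 9 13)))))))) .n)))))

def t85_187 : T TT 256 :=
  (.q k243 [(.s k1 k2 0 (.s k81 k162 12 (.s k161 k241 11 (.s k83 k163 11 (.d k82 k80 k240 0 12))))),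
  (.s k83 k163 11 (.s k87 k171 13 (.s k91 k95 1 (.s k167 k15 13 (.d k247 k251 k7 1 11)))))] (.c k80
  (.l (.s k2 k1 0 (.s k162 k81 12 (.s k82 k242 11 (.s k161 k240 12 (.d k163 k83 k160 11 0)))))) (.c
  k83 (.q k167 [(.s k87 k171 13 (.d k247 k251 k7 1 11)), (.s k1 k2 0 (.s k15 k91 13 (.s k95 k175 11
  (.s k5 k10 2 (.s k9 k13 1 (.s k6 k12 2 (.d k7 k4 k11 0 1)))))))] (.c k7 (.l (.s k171 k87 13 (.s
  k91 k15 13 (.d k251 k247 k11 1 11)))) (.c k87 (.l (.s k1 k2 0 (.s k15 k91 13 (.s k95 k175 11 (.s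
  k5 k10 2 (.s k9 k13 1 (.s k6 k12 2 (.d k7 k4 k11 0 1)))))))) .n))) (.c k163 (.q k167 [(.s k87 k171
  13 (.d k247 k251 k7 1 11)), (.s k1 k2 0 (.s k15 k91 13 (.s k5 k10 2 (.s k9 k13 1 (.s k6 k12 2 (.d
  k7 k4 k11 0 1))))))] (.c k7 (.l (.s k171 k87 13 (.s k91 k15 13 (.d k251 k247 k11 1 11)))) .n))
  .n))))

def t85_188 : T TT 256 :=
  (.f k1 k2 0 (.f k87 k171 13 (.q k51 [(.s k19 k35 3 (.s k119 k187 9 (.s k103 k71 3 (.d k155 k223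
  k207 9 13)))), (.s k17 k34 4 (.s k33 k49 3 (.s k18 k48 4 (.d k19 k16 k35 0 3))))] (.c k19 (.q k243
  [(.s k83 k163 11 (.s k247 k251 1 (.s k167 k7 11 (.d k91 k95 k15 1 13)))), (.s k17 k34 4 (.s k81
  k162 12 (.s k145 k209 7 (.s k98 k192 12 (.d k115 k64 k179 4 7)))))] .n) (.c k35 (.l (.s k17 k34 4
  (.s k33 k49 3 (.s k18 k48 4 (.s k19 k16 0 (.s k119 k187 9 (.s k103 k71 3 (.d k155 k223 k207 9
  13)))))))) .n)))))

def t85_189 : T TT 256 :=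
  (.q k243 [(.s k1 k2 0 (.s k81 k162 12 (.s k161 k241 11 (.s k83 k163 11 (.d k82 k80 k240 0 12))))),
  (.s k83 k163 11 (.s k87 k171 13 (.s k91 k95 1 (.s k167 k15 13 (.d k247 k251 k7 1 11)))))] (.c k80
  (.l (.s k2 k1 0 (.s k162 k81 12 (.s k82 k242 11 (.s k161 k240 12 (.d k163 k83 k160 11 0)))))) (.c
  k83 (.f k247 k251 1 (.q k252 [(.s k246 k249 2 (.s k245 k244 0 (.s k250 k240 2 (.d k254 k253 k242 0
  1)))), (.s k86 k169 14 (.s k87 k171 13 (.s k7 k167 11 (.s k244 k165 12 (.d k246 k245 k249 0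
  2))))), (.s k1 k2 0 (.s k81 k162 12 (.s k241 k161 11 (.s k242 k240 0 (.s k246 k249 2 (.d k254 k250
  k253 1 0))))))] (.c k246 (.l (.s k1 k2 0 (.s k81 k162 12 (.s k241 k161 11 (.s k253 k254 0 (.s k245
  k249 1 (.d k240 k242 k250 0 2))))))) (.c k249 (.l (.s k86 k169 14 (.s k87 k171 13 (.s k7 k167 11
  (.s k244 k165 12 (.s k245 k246 0 (.d k240 k248 k250 1 2))))))) (.c k253 (.l (.s k1 k2 0 (.s k81
  k162 12 (.s k161 k241 11 (.s k246 k249 2 (.s k245 k244 0 (.d k240 k250 k82 2 12))))))) .n))))) (.c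
  k126 (.q k252 [(.s k1 k2 0 (.s k81 k162 12 (.s k161 k241 11 (.s k83 k163 11 (.d k82 k80 k240 0
  12))))), (.s k83 k163 11 (.s k87 k171 13 (.s k91 k95 1 (.s k167 k15 13 (.d k247 k251 k7 1 11))))),
  (.s k1 k2 0 (.s k249 k246 2 (.s k253 k254 0 (.s k241 k245 1 (.d k81 k161 k162 11 12)))))] .n) (.c
  k163 (.q k252 [(.s k246 k249 2 (.s k247 k251 1 (.s k245 k244 0 (.s k250 k240 2 (.d k254 k253 k242
  0 1))))), (.s k162 k81 12 (.s k86 k169 14 (.s k246 k249 2 (.s k166 k6 11 (.s k174 k170 1 (.d k12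
  k93 k89 12 14))))))] (.c k246 (.q k167 [(.s k87 k171 13 (.d k247 k251 k7 1 11)), (.s k1 k2 0 (.s
  k81 k162 12 (.s k161 k241 11 (.s k15 k91 13 (.s k173 k94 12 (.d k169 k165 k86 1 14))))))] .n) (.c
  k249 (.l (.s k2 k1 0 (.s k162 k81 12 (.s k242 k82 11 (.s k169 k86 14 (.s k254 k253 0 (.s k250 k246
  1 (.d k240 k241 k245 0 2)))))))) (.c k253 (.l (.s k169 k86 14 (.s k249 k246 2 (.s k89 k9 11 (.s
  k251 k247 1 (.s k8 k170 12 (.d k12 k4 k166 1 14))))))) .n)))) (.c k252 (.q k126 [(.s k1 k2 0 (.s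
  k81 k162 12 (.s k161 k241 11 (.s k83 k163 11 (.d k82 k80 k240 0 12))))), (.s k83 k163 11 (.s k87
  k171 13 (.s k91 k95 1 (.s k167 k15 13 (.d k247 k251 k7 1 11)))))] (.c k80 (.l (.s k2 k1 0 (.s k162
  k81 12 (.s k82 k242 11 (.s k161 k240 12 (.d k163 k83 k160 11 0)))))) (.c k83 (.q k167 [(.s k87
  k171 13 (.d k247 k251 k7 1 11)), (.s k1 k2 0 (.s k15 k91 13 (.s k95 k175 11 (.s k5 k10 2 (.s k9
  k13 1 (.s k6 k12 2 (.d k7 k4 k11 0 1)))))))] (.c k7 (.l (.s k171 k87 13 (.s k91 k15 13 (.d k251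
  k247 k11 1 11)))) (.c k87 (.l (.s k1 k2 0 (.s k15 k91 13 (.s k95 k175 11 (.s k5 k10 2 (.s k9 k13 1
  (.s k6 k12 2 (.d k7 k4 k11 0 1)))))))) .n))) (.c k163 (.q k167 [(.s k87 k171 13 (.d k247 k251 k7 1
  11)), (.s k1 k2 0 (.s k15 k91 13 (.s k5 k10 2 (.s k9 k13 1 (.s k6 k12 2 (.d k7 k4 k11 0 1))))))]
  (.c k7 (.l (.s k171 k87 13 (.s k91 k15 13 (.d k251 k247 k11 1 11)))) .n)) .n)))) .n))))))

def t85_190 : T TT 256 :=
  (.f k1 k2 0 (.f k87 k171 13 (.q k51 [(.s k19 k35 3 (.s k119 k187 9 (.s k103 k71 3 (.d k155 k223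
  k207 9 13)))), (.s k17 k34 4 (.s k33 k49 3 (.s k18 k48 4 (.d k19 k16 k35 0 3))))] (.c k19 (.q k247
  [(.s k167 k7 11 (.s k243 k251 1 (.s k83 k163 11 (.d k91 k95 k15 1 13)))), (.s k17 k34 4 (.s k243
  k251 1 (.s k81 k162 12 (.s k145 k209 7 (.s k98 k192 12 (.d k115 k64 k179 4 7)))))), (.s k7 k167 11
  (.s k119 k187 9 (.s k55 k183 7 (.s k39 k23 3 (.d k15 k27 k11 5 1)))))] (.c k11 (.l (.s k167 k7 11
  (.s k243 k251 1 (.s k91 k15 13 (.d k83 k95 k163 1 11))))) (.c k243 (.l (.s k7 k167 11 (.s k15 k11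
  1 (.s k5 k10 2 (.s k9 k13 1 (.d k6 k4 k12 0 2)))))) .n))) (.c k35 (.l (.s k17 k34 4 (.s k33 k49 3
  (.s k18 k48 4 (.s k19 k16 0 (.s k119 k187 9 (.s k103 k71 3 (.d k155 k223 k207 9 13)))))))) .n)))))

def t85_191 : T TT 256 :=
  (.f k1 k2 0 (.q k51 [(.s k17 k34 4 (.s k33 k49 3 (.s k19 k35 3 (.d k18 k16 k48 0 4)))), (.s k19
  k35 3 (.s k87 k171 13 (.s k119 k187 9 (.s k103 k71 3 (.d k155 k223 k207 9 13)))))] (.c k19 (.q
  k243 [(.s k81 k162 12 (.s k161 k241 11 (.s k83 k163 11 (.d k82 k80 k240 0 12)))), (.s k34 k17 4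
  (.s k162 k81 12 (.s k98 k226 7 (.s k145 k192 12 (.d k179 k128 k115 4 7))))), (.s k83 k163 11 (.s
  k87 k171 13 (.s k91 k95 1 (.s k167 k15 13 (.d k247 k251 k7 1 11)))))] .n) (.c k35 (.q k243 [(.s
  k81 k162 12 (.s k161 k241 11 (.s k82 k240 12 (.d k83 k80 k163 0 11)))), (.s k34 k17 4 (.s k162 k81
  12 (.s k98 k226 7 (.s k145 k192 12 (.d k179 k128 k115 4 7))))), (.s k83 k163 11 (.s k87 k171 13
  (.s k91 k95 1 (.s k167 k15 13 (.d k247 k251 k7 1 11)))))] .n) .n))))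

def t85_192 : T TT 256 :=
  (.f k1 k2 0 (.q k83 [(.s k243 k163 11 (.s k81 k162 12 (.s k161 k241 11 (.d k82 k80 k240 0 12)))),
  (.s k87 k171 13 (.s k95 k91 1 (.s k15 k175 11 (.s k5 k10 2 (.s k9 k13 1 (.s k6 k12 2 (.d k7 k11 k4
  1 0)))))))] (.c k106 (.q k149 [(.s k243 k163 11 (.s k81 k162 12 (.s k161 k241 11 (.d k82 k80 k240
  0 12)))), (.s k87 k171 13 (.s k95 k91 1 (.s k15 k175 11 (.s k5 k10 2 (.s k9 k13 1 (.s k6 k12 2 (.d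
  k7 k11 k4 1 0)))))))] (.c k64 (.q k127 [(.s k243 k163 11 (.s k81 k162 12 (.s k161 k241 11 (.d k82
  k80 k240 0 12)))), (.s k87 k171 13 (.s k67 k107 5 (.s k115 k99 3 (.s k91 k95 1 (.s k103 k79 5 (.d
  k119 k123 k71 1 3))))))] (.c k80 (.l (.s k243 k163 11 (.s k87 k171 13 (.s k247 k251 1 (.s k167 k7
  11 (.d k91 k95 k15 1 13)))))) .n)) (.c k127 (.q k64 [(.s k243 k163 11 (.s k81 k162 12 (.s k161
  k241 11 (.d k82 k80 k240 0 12)))), (.s k87 k171 13 (.s k95 k91 1 (.s k15 k175 11 (.s k5 k10 2 (.s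
  k9 k13 1 (.s k6 k12 2 (.d k7 k11 k4 1 0)))))))] (.c k163 (.q k15 [(.s k87 k171 13 (.d k95 k175 k91
  11 1)), (.s k5 k10 2 (.s k9 k13 1 (.s k6 k12 2 (.d k7 k4 k11 0 1))))] .n) .n)) (.c k163 (.q k15
  [(.s k87 k171 13 (.d k95 k175 k91 11 1)), (.s k5 k10 2 (.s k9 k13 1 (.s k6 k12 2 (.d k7 k4 k11 0
  1))))] (.c k64 (.q k127 [(.s k87 k171 13 (.d k95 k175 k91 11 1)), (.s k5 k10 2 (.s k9 k13 1 (.s k6
  k12 2 (.d k7 k4 k11 0 1))))] .n) (.c k127 (.q k64 [(.s k87 k171 13 (.d k95 k175 k91 11 1)), (.s k5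
  k10 2 (.s k9 k13 1 (.s k6 k12 2 (.d k7 k4 k11 0 1))))] .n) .n))) .n)))) (.c k149 (.q k106 [(.s
  k243 k163 11 (.s k81 k162 12 (.s k161 k241 11 (.d k82 k80 k240 0 12)))), (.s k87 k171 13 (.s k95
  k91 1 (.s k15 k175 11 (.s k5 k10 2 (.s k9 k13 1 (.s k6 k12 2 (.d k7 k11 k4 1 0)))))))] (.c k21 (.q
  k213 [(.s k243 k163 11 (.s k81 k162 12 (.s k161 k241 11 (.d k82 k80 k240 0 12)))), (.s k87 k171 13
  (.s k95 k91 1 (.s k15 k175 11 (.s k5 k10 2 (.s k9 k13 1 (.s k6 k12 2 (.d k7 k11 k4 1 0)))))))] (.c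
  k163 (.q k15 [(.s k87 k171 13 (.d k95 k175 k91 11 1)), (.s k5 k10 2 (.s k9 k13 1 (.s k6 k12 2 (.d
  k7 k4 k11 0 1))))] .n) .n)) (.c k163 (.q k15 [(.s k87 k171 13 (.d k95 k175 k91 11 1)), (.s k5 k10
  2 (.s k9 k13 1 (.s k6 k12 2 (.d k7 k4 k11 0 1))))] (.c k21 (.q k213 [(.s k87 k171 13 (.d k95 k175
  k91 11 1)), (.s k5 k10 2 (.s k9 k13 1 (.s k6 k12 2 (.d k7 k4 k11 0 1))))] .n) (.c k213 (.q k21
  [(.s k87 k171 13 (.d k95 k175 k91 11 1)), (.s k5 k10 2 (.s k9 k13 1 (.s k6 k12 2 (.d k7 k4 k11 0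
  1))))] .n) .n))) (.c k213 (.q k21 [(.s k243 k163 11 (.s k81 k162 12 (.s k161 k241 11 (.d k82 k80
  k240 0 12)))), (.s k87 k171 13 (.s k95 k91 1 (.s k15 k175 11 (.s k5 k10 2 (.s k9 k13 1 (.s k6 k12
  2 (.d k7 k11 k4 1 0)))))))] (.c k163 (.q k15 [(.s k87 k171 13 (.d k95 k175 k91 11 1)), (.s k5 k10
  2 (.s k9 k13 1 (.s k6 k12 2 (.d k7 k4 k11 0 1))))] .n) .n)) .n)))) (.c k163 (.q k15 [(.s k87 k171
  13 (.d k95 k175 k91 11 1)), (.s k5 k10 2 (.s k9 k13 1 (.s k6 k12 2 (.d k7 k4 k11 0 1))))] (.c k106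
  (.q k149 [(.s k87 k171 13 (.d k95 k175 k91 11 1)), (.s k5 k10 2 (.s k9 k13 1 (.s k6 k12 2 (.d k7
  k4 k11 0 1))))] (.c k64 (.q k127 [(.s k87 k171 13 (.d k95 k175 k91 11 1)), (.s k5 k10 2 (.s k9 k13
  1 (.s k6 k12 2 (.d k7 k4 k11 0 1))))] .n) (.c k127 (.q k64 [(.s k87 k171 13 (.d k95 k175 k91 11
  1)), (.s k5 k10 2 (.s k9 k13 1 (.s k6 k12 2 (.d k7 k4 k11 0 1))))] .n) .n))) (.c k149 (.q k106
  [(.s k87 k171 13 (.d k95 k175 k91 11 1)), (.s k5 k10 2 (.s k9 k13 1 (.s k6 k12 2 (.d k7 k4 k11 0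
  1))))] (.c k21 (.q k213 [(.s k87 k171 13 (.d k95 k175 k91 11 1)), (.s k5 k10 2 (.s k9 k13 1 (.s k6
  k12 2 (.d k7 k4 k11 0 1))))] .n) (.c k213 (.q k21 [(.s k87 k171 13 (.d k95 k175 k91 11 1)), (.s k5
  k10 2 (.s k9 k13 1 (.s k6 k12 2 (.d k7 k4 k11 0 1))))] .n) .n))) .n))) .n)))))

def t85_193 : T TT 256 :=
  (.f k1 k2 0 (.f k87 k171 13 (.q k51 [(.s k19 k35 3 (.s k119 k187 9 (.s k103 k71 3 (.d k155 k223
  k207 9 13)))), (.s k17 k34 4 (.s k33 k49 3 (.s k18 k48 4 (.d k19 k16 k35 0 3))))] (.c k19 (.q k247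
  [(.s k167 k7 11 (.s k243 k251 1 (.s k83 k163 11 (.d k91 k95 k15 1 13)))), (.s k17 k34 4 (.s k243
  k251 1 (.s k81 k162 12 (.s k145 k209 7 (.s k98 k192 12 (.d k115 k64 k179 4 7)))))), (.s k7 k167 11
  (.s k119 k187 9 (.s k55 k183 7 (.s k39 k23 3 (.d k15 k27 k11 5 1)))))] (.c k11 (.l (.s k167 k7 11
  (.s k243 k251 1 (.s k91 k15 13 (.d k83 k95 k163 1 11))))) (.c k243 (.l (.s k7 k167 11 (.s k15 k11
  1 (.s k5 k10 2 (.s k9 k13 1 (.d k6 k4 k12 0 2)))))) .n))) (.c k35 (.l (.s k17 k34 4 (.s k33 k49 3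
  (.s k18 k48 4 (.s k19 k16 0 (.s k119 k187 9 (.s k103 k71 3 (.d k155 k223 k207 9 13)))))))) .n)))))

def t85_194 : T TT 256 :=
  (.f k87 k171 13 (.q k51 [(.s k19 k35 3 (.s k119 k187 9 (.s k103 k71 3 (.d k155 k223 k207 9 13)))),
  (.s k1 k2 0 (.s k17 k34 4 (.s k33 k49 3 (.s k18 k48 4 (.d k19 k16 k35 0 3)))))] (.c k19 (.q k247
  [(.s k167 k7 11 (.s k243 k251 1 (.s k83 k163 11 (.d k91 k95 k15 1 13)))), (.s k17 k34 4 (.s k243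
  k251 1 (.s k81 k162 12 (.s k145 k209 7 (.s k98 k192 12 (.d k115 k64 k179 4 7)))))), (.s k7 k167 11
  (.s k119 k187 9 (.s k55 k183 7 (.s k39 k23 3 (.d k15 k27 k11 5 1)))))] (.c k11 (.l (.s k167 k7 11
  (.s k243 k251 1 (.s k91 k15 13 (.d k83 k95 k163 1 11))))) (.c k243 (.l (.s k7 k167 11 (.s k15 k11
  1 (.s k39 k27 5 (.s k119 k187 9 (.d k55 k23 k183 3 7)))))) .n))) (.c k35 (.f k1 k2 0 (.l (.s k17
  k34 4 (.s k33 k49 3 (.s k18 k48 4 (.s k19 k16 0 (.s k119 k187 9 (.s k103 k71 3 (.d k155 k223 k207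
  9 13))))))))) .n))))

def t85_195 : T TT 256 :=
  (.f k1 k2 0 (.q k51 [(.s k17 k34 4 (.s k33 k49 3 (.s k19 k35 3 (.d k18 k16 k48 0 4)))), (.s k19
  k35 3 (.s k87 k171 13 (.s k119 k187 9 (.s k103 k71 3 (.d k155 k223 k207 9 13)))))] (.c k19 (.q
  k243 [(.s k81 k162 12 (.s k161 k241 11 (.s k83 k163 11 (.d k82 k80 k240 0 12)))), (.s k34 k17 4
  (.s k162 k81 12 (.s k98 k226 7 (.s k145 k192 12 (.d k179 k128 k115 4 7))))), (.s k83 k163 11 (.s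
  k87 k171 13 (.s k91 k95 1 (.s k167 k15 13 (.d k247 k251 k7 1 11)))))] (.c k107 (.q k151 [(.s k81
  k162 12 (.s k161 k241 11 (.s k83 k163 11 (.d k82 k80 k240 0 12)))), (.s k171 k87 13 (.s k179 k115
  7 (.s k187 k119 9 (.d k191 k183 k131 1 5))))] .n) (.c k151 (.q k107 [(.s k81 k162 12 (.s k161 k241
  11 (.s k83 k163 11 (.d k82 k80 k240 0 12)))), (.s k87 k171 13 (.s k115 k179 7 (.s k119 k187 9 (.d
  k127 k123 k67 1 5))))] .n) .n))) (.c k35 (.f k87 k171 13 (.l (.s k17 k34 4 (.s k33 k49 3 (.s k18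
  k48 4 (.s k19 k16 0 (.s k119 k187 9 (.s k103 k71 3 (.d k155 k223 k207 9 13))))))))) (.c k107 (.q
  k151 [(.s k17 k34 4 (.s k33 k49 3 (.s k19 k35 3 (.d k18 k16 k48 0 4)))), (.s k87 k171 13 (.s k23
  k215 7 (.s k119 k187 9 (.s k103 k71 3 (.s k55 k199 11 (.s k7 k39 3 (.d k247 k183 k167 7 11)))))))]
  .n) (.c k151 (.q k107 [(.s k17 k34 4 (.s k33 k49 3 (.s k19 k35 3 (.d k18 k16 k48 0 4)))), (.s k87
  k171 13 (.s k119 k187 9 (.s k127 k67 5 (.s k103 k71 3 (.s k111 k99 1 (.s k79 k95 3 (.d k115 k123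
  k91 1 5)))))))] .n) .n))))))

def t85_196 : T TT 256 :=
  (.f k87 k171 13 (.f k1 k2 0 (.q k51 [(.s k19 k35 3 (.s k119 k187 9 (.s k103 k71 3 (.d k155 k223
  k207 9 13)))), (.s k17 k34 4 (.s k33 k49 3 (.s k18 k48 4 (.d k19 k16 k35 0 3))))] (.c k19 (.q k247
  [(.s k167 k7 11 (.s k243 k251 1 (.s k83 k163 11 (.d k91 k95 k15 1 13)))), (.s k17 k34 4 (.s k243
  k251 1 (.s k81 k162 12 (.s k145 k209 7 (.s k98 k192 12 (.d k115 k64 k179 4 7)))))), (.s k7 k167 11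
  (.s k119 k187 9 (.s k55 k183 7 (.s k39 k23 3 (.d k15 k27 k11 5 1)))))] (.c k11 (.l (.s k167 k7 11
  (.s k243 k251 1 (.s k91 k15 13 (.d k83 k95 k163 1 11))))) (.c k243 (.l (.s k7 k167 11 (.s k15 k11
  1 (.s k5 k10 2 (.s k9 k13 1 (.d k6 k4 k12 0 2)))))) .n))) (.c k35 (.l (.s k17 k34 4 (.s k33 k49 3
  (.s k18 k48 4 (.s k19 k16 0 (.s k119 k187 9 (.s k103 k71 3 (.d k155 k223 k207 9 13)))))))) .n)))))

def t85_197 : T TT 256 :=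
  (.f k87 k171 13 (.f k1 k2 0 (.q k51 [(.s k19 k35 3 (.s k119 k187 9 (.s k103 k71 3 (.d k155 k223
  k207 9 13)))), (.s k17 k34 4 (.s k33 k49 3 (.s k18 k48 4 (.d k19 k16 k35 0 3))))] (.c k19 (.q k247
  [(.s k167 k7 11 (.s k243 k251 1 (.s k83 k163 11 (.d k91 k95 k15 1 13)))), (.s k17 k34 4 (.s k243
  k251 1 (.s k81 k162 12 (.s k145 k209 7 (.s k98 k192 12 (.d k115 k64 k179 4 7)))))), (.s k7 k167 11
  (.s k119 k187 9 (.s k55 k183 7 (.s k39 k23 3 (.d k15 k27 k11 5 1)))))] (.c k11 (.l (.s k167 k7 11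
  (.s k243 k251 1 (.s k91 k15 13 (.d k83 k95 k163 1 11))))) (.c k243 (.l (.s k7 k167 11 (.s k15 k11
  1 (.s k5 k10 2 (.s k9 k13 1 (.d k6 k4 k12 0 2)))))) .n))) (.c k35 (.l (.s k17 k34 4 (.s k33 k49 3
  (.s k18 k48 4 (.s k19 k16 0 (.s k119 k187 9 (.s k103 k71 3 (.d k155 k223 k207 9 13)))))))) .n)))))

def t85_198 : T TT 256 :=
  (.f k87 k171 13 (.f k1 k2 0 (.q k51 [(.s k19 k35 3 (.s k119 k187 9 (.s k103 k71 3 (.d k155 k223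
  k207 9 13)))), (.s k17 k34 4 (.s k33 k49 3 (.s k18 k48 4 (.d k19 k16 k35 0 3))))] (.c k19 (.q k247
  [(.s k167 k7 11 (.s k243 k251 1 (.s k83 k163 11 (.d k91 k95 k15 1 13)))), (.s k17 k34 4 (.s k243
  k251 1 (.s k81 k162 12 (.s k145 k209 7 (.s k98 k192 12 (.d k115 k64 k179 4 7)))))), (.s k7 k167 11
  (.s k119 k187 9 (.s k55 k183 7 (.s k39 k23 3 (.d k15 k27 k11 5 1)))))] (.c k11 (.l (.s k167 k7 11
  (.s k243 k251 1 (.s k91 k15 13 (.d k83 k95 k163 1 11))))) (.c k243 (.l (.s k7 k167 11 (.s k15 k11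
  1 (.s k5 k10 2 (.s k9 k13 1 (.d k6 k4 k12 0 2)))))) .n))) (.c k35 (.l (.s k17 k34 4 (.s k33 k49 3
  (.s k18 k48 4 (.s k19 k16 0 (.s k119 k187 9 (.s k103 k71 3 (.d k155 k223 k207 9 13)))))))) .n)))))

def t85_199 : T TT 256 :=
  (.f k87 k171 13 (.f k1 k2 0 (.q k51 [(.s k17 k34 4 (.s k33 k49 3 (.s k18 k48 4 (.d k19 k16 k35 0
  3)))), (.s k19 k35 3 (.s k119 k187 9 (.s k103 k71 3 (.d k155 k223 k207 9 13))))] (.c k19 (.q k247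
  [(.s k167 k7 11 (.s k243 k251 1 (.s k83 k163 11 (.d k91 k95 k15 1 13)))), (.s k17 k34 4 (.s k243
  k251 1 (.s k81 k162 12 (.s k145 k209 7 (.s k98 k192 12 (.d k115 k64 k179 4 7)))))), (.s k7 k167 11
  (.s k119 k187 9 (.s k55 k183 7 (.s k39 k23 3 (.d k15 k27 k11 5 1)))))] (.c k11 (.l (.s k167 k7 11
  (.s k243 k251 1 (.s k91 k15 13 (.d k83 k95 k163 1 11))))) (.c k243 (.l (.s k7 k167 11 (.s k15 k11
  1 (.s k5 k10 2 (.s k9 k13 1 (.d k6 k4 k12 0 2)))))) .n))) (.c k35 (.l (.s k17 k34 4 (.s k33 k49 3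
  (.s k18 k48 4 (.s k19 k16 0 (.s k119 k187 9 (.s k103 k71 3 (.d k155 k223 k207 9 13)))))))) .n)))))

def t85_200 : T TT 256 :=
  (.q k243 [(.s k1 k2 0 (.s k81 k162 12 (.s k161 k241 11 (.s k83 k163 11 (.d k82 k80 k240 0 12))))),
  (.s k83 k163 11 (.s k87 k171 13 (.s k91 k95 1 (.s k167 k15 13 (.d k247 k251 k7 1 11)))))] (.c k80
  (.l (.s k2 k1 0 (.s k162 k81 12 (.s k82 k242 11 (.s k161 k240 12 (.d k163 k83 k160 11 0)))))) (.c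
  k83 (.q k167 [(.s k87 k171 13 (.d k247 k251 k7 1 11)), (.s k1 k2 0 (.s k15 k91 13 (.s k95 k175 11
  (.s k5 k10 2 (.s k9 k13 1 (.s k6 k12 2 (.d k7 k4 k11 0 1)))))))] (.c k7 (.l (.s k171 k87 13 (.s
  k91 k15 13 (.d k251 k247 k11 1 11)))) (.c k87 (.l (.s k1 k2 0 (.s k15 k91 13 (.s k95 k175 11 (.s
  k5 k10 2 (.s k9 k13 1 (.s k6 k12 2 (.d k7 k4 k11 0 1)))))))) .n))) (.c k163 (.q k167 [(.s k87 k171
  13 (.d k247 k251 k7 1 11)), (.s k1 k2 0 (.s k15 k91 13 (.s k5 k10 2 (.s k9 k13 1 (.s k6 k12 2 (.d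
  k7 k4 k11 0 1))))))] (.c k7 (.l (.s k171 k87 13 (.s k91 k15 13 (.d k251 k247 k11 1 11)))) .n))
  .n))))

def t85_201 : T TT 256 :=
  (.f k87 k171 13 (.f k1 k2 0 (.q k51 [(.s k19 k35 3 (.s k119 k187 9 (.s k103 k71 3 (.d k155 k223
  k207 9 13)))), (.s k17 k34 4 (.s k33 k49 3 (.s k18 k48 4 (.d k19 k16 k35 0 3))))] (.c k19 (.q k247
  [(.s k167 k7 11 (.s k243 k251 1 (.s k83 k163 11 (.d k91 k95 k15 1 13)))), (.s k17 k34 4 (.s k243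
  k251 1 (.s k81 k162 12 (.s k145 k209 7 (.s k98 k192 12 (.d k115 k64 k179 4 7)))))), (.s k7 k167 11
  (.s k119 k187 9 (.s k55 k183 7 (.s k39 k23 3 (.d k15 k27 k11 5 1)))))] (.c k11 (.l (.s k167 k7 11
  (.s k243 k251 1 (.s k91 k15 13 (.d k83 k95 k163 1 11))))) (.c k243 (.l (.s k7 k167 11 (.s k15 k11
  1 (.s k5 k10 2 (.s k9 k13 1 (.d k6 k4 k12 0 2)))))) .n))) (.c k35 (.l (.s k17 k34 4 (.s k33 k49 3
  (.s k18 k48 4 (.s k19 k16 0 (.s k119 k187 9 (.s k103 k71 3 (.d k155 k223 k207 9 13)))))))) .n)))))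

def t85_202 : T TT 256 :=
  (.q k243 [(.s k1 k2 0 (.s k81 k162 12 (.s k161 k241 11 (.s k83 k163 11 (.d k82 k80 k240 0 12))))),
  (.s k83 k163 11 (.s k87 k171 13 (.s k91 k95 1 (.s k167 k15 13 (.d k247 k251 k7 1 11)))))] (.c k80
  (.l (.s k2 k1 0 (.s k162 k81 12 (.s k82 k242 11 (.s k161 k240 12 (.d k163 k83 k160 11 0)))))) (.c
  k83 (.q k167 [(.s k87 k171 13 (.d k247 k251 k7 1 11)), (.s k1 k2 0 (.s k15 k91 13 (.s k95 k175 11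
  (.s k5 k10 2 (.s k9 k13 1 (.s k6 k12 2 (.d k7 k4 k11 0 1)))))))] (.c k7 (.l (.s k171 k87 13 (.s
  k91 k15 13 (.d k251 k247 k11 1 11)))) (.c k87 (.l (.s k1 k2 0 (.s k15 k91 13 (.s k95 k175 11 (.s
  k5 k10 2 (.s k9 k13 1 (.s k6 k12 2 (.d k7 k4 k11 0 1)))))))) .n))) (.c k163 (.q k167 [(.s k87 k171
  13 (.d k247 k251 k7 1 11)), (.s k1 k2 0 (.s k15 k91 13 (.s k5 k10 2 (.s k9 k13 1 (.s k6 k12 2 (.d
  k7 k4 k11 0 1))))))] (.c k7 (.l (.s k171 k87 13 (.s k91 k15 13 (.d k251 k247 k11 1 11)))) .n))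
  .n))))

def t85_203 : T TT 256 :=
  (.f k87 k171 13 (.f k1 k2 0 (.q k51 [(.s k19 k35 3 (.s k119 k187 9 (.s k103 k71 3 (.d k155 k223
  k207 9 13)))), (.s k17 k34 4 (.s k33 k49 3 (.s k18 k48 4 (.d k19 k16 k35 0 3))))] (.c k19 (.q k247
  [(.s k167 k7 11 (.s k243 k251 1 (.s k83 k163 11 (.d k91 k95 k15 1 13)))), (.s k7 k167 11 (.s k119
  k187 9 (.s k55 k183 7 (.s k39 k23 3 (.d k15 k27 k11 5 1))))), (.s k17 k34 4 (.s k243 k251 1 (.s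
  k81 k162 12 (.s k145 k209 7 (.s k98 k192 12 (.d k115 k64 k179 4 7))))))] (.c k11 (.l (.s k167 k7
  11 (.s k243 k251 1 (.s k91 k15 13 (.d k83 k95 k163 1 11))))) (.c k243 (.l (.s k7 k167 11 (.s k15
  k11 1 (.s k5 k10 2 (.s k9 k13 1 (.d k6 k4 k12 0 2)))))) .n))) (.c k35 (.l (.s k17 k34 4 (.s k33
  k49 3 (.s k18 k48 4 (.s k19 k16 0 (.s k119 k187 9 (.s k103 k71 3 (.d k155 k223 k207 9 13))))))))
  .n)))))

def t85_204 : T TT 256 :=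
  (.q k243 [(.s k1 k2 0 (.s k81 k162 12 (.s k161 k241 11 (.s k83 k163 11 (.d k82 k80 k240 0 12))))),
  (.s k83 k163 11 (.s k87 k171 13 (.s k91 k95 1 (.s k167 k15 13 (.d k247 k251 k7 1 11)))))] (.c k80
  (.l (.s k2 k1 0 (.s k162 k81 12 (.s k82 k242 11 (.s k161 k240 12 (.d k163 k83 k160 11 0)))))) (.c
  k83 (.f k247 k251 1 (.q k167 [(.d k87 k7 k171 11 13)] (.c k7 (.l (.s k171 k87 13 (.s k175 k163 1
  (.d k15 k95 k91 11 13)))) (.c k87 (.l (.s k1 k2 0 (.s k15 k91 13 (.s k95 k175 11 (.s k5 k10 2 (.s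
  k9 k13 1 (.s k6 k12 2 (.d k7 k11 k4 1 0)))))))) (.c k110 (.q k157 [(.d k87 k7 k171 11 13)] (.c k7
  (.l (.s k171 k87 13 (.s k175 k163 1 (.d k15 k95 k91 11 13)))) (.c k87 (.l (.s k1 k2 0 (.s k15 k91
  13 (.s k95 k175 11 (.s k5 k10 2 (.s k9 k13 1 (.s k6 k12 2 (.d k7 k11 k4 1 0)))))))) (.c k171 (.l
  (.s k7 k87 11 (.d k15 k91 k11 13 1))) .n)))) (.c k157 (.q k110 [(.d k87 k7 k171 11 13)] (.c k7 (.l
  (.s k171 k87 13 (.s k175 k163 1 (.d k15 k95 k91 11 13)))) (.c k87 (.l (.s k1 k2 0 (.s k15 k91 13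
  (.s k95 k175 11 (.s k5 k10 2 (.s k9 k13 1 (.s k6 k12 2 (.d k7 k11 k4 1 0)))))))) (.c k171 (.l (.s
  k7 k87 11 (.d k15 k91 k11 13 1))) .n)))) (.c k171 (.l (.s k7 k87 11 (.d k15 k91 k11 13 1)))
  .n))))))) (.c k110 (.q k157 [(.s k1 k2 0 (.s k81 k162 12 (.s k161 k241 11 (.s k83 k163 11 (.d k82
  k80 k240 0 12))))), (.s k83 k163 11 (.s k87 k171 13 (.s k91 k95 1 (.s k167 k15 13 (.d k247 k251 k7
  1 11)))))] (.c k80 (.l (.s k2 k1 0 (.s k162 k81 12 (.s k82 k242 11 (.s k161 k240 12 (.d k163 k83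
  k160 11 0)))))) (.c k83 (.q k167 [(.s k87 k171 13 (.d k247 k251 k7 1 11)), (.s k1 k2 0 (.s k15 k91
  13 (.s k95 k175 11 (.s k5 k10 2 (.s k9 k13 1 (.s k6 k12 2 (.d k7 k4 k11 0 1)))))))] (.c k7 (.l (.s
  k171 k87 13 (.s k91 k15 13 (.d k251 k247 k11 1 11)))) (.c k87 (.l (.s k1 k2 0 (.s k15 k91 13 (.s
  k95 k175 11 (.s k5 k10 2 (.s k9 k13 1 (.s k6 k12 2 (.d k7 k4 k11 0 1)))))))) .n))) (.c k163 (.q
  k167 [(.s k87 k171 13 (.d k247 k251 k7 1 11)), (.s k1 k2 0 (.s k15 k91 13 (.s k5 k10 2 (.s k9 k13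
  1 (.s k6 k12 2 (.d k7 k4 k11 0 1))))))] (.c k7 (.l (.s k171 k87 13 (.s k91 k15 13 (.d k251 k247
  k11 1 11)))) .n)) .n)))) (.c k157 (.q k110 [(.s k1 k2 0 (.s k81 k162 12 (.s k161 k241 11 (.s k83
  k163 11 (.d k82 k80 k240 0 12))))), (.s k83 k163 11 (.s k87 k171 13 (.s k91 k95 1 (.s k167 k15 13
  (.d k247 k251 k7 1 11)))))] (.c k80 (.l (.s k2 k1 0 (.s k162 k81 12 (.s k82 k242 11 (.s k161 k240
  12 (.d k163 k83 k160 11 0)))))) (.c k83 (.q k167 [(.s k87 k171 13 (.d k247 k251 k7 1 11)), (.s k1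
  k2 0 (.s k15 k91 13 (.s k95 k175 11 (.s k5 k10 2 (.s k9 k13 1 (.s k6 k12 2 (.d k7 k4 k11 0
  1)))))))] (.c k7 (.l (.s k171 k87 13 (.s k91 k15 13 (.d k251 k247 k11 1 11)))) (.c k87 (.l (.s k1
  k2 0 (.s k15 k91 13 (.s k95 k175 11 (.s k5 k10 2 (.s k9 k13 1 (.s k6 k12 2 (.d k7 k4 k11 0
  1)))))))) .n))) (.c k163 (.q k167 [(.s k87 k171 13 (.d k247 k251 k7 1 11)), (.s k1 k2 0 (.s k15
  k91 13 (.s k5 k10 2 (.s k9 k13 1 (.s k6 k12 2 (.d k7 k4 k11 0 1))))))] (.c k7 (.l (.s k171 k87 13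
  (.s k91 k15 13 (.d k251 k247 k11 1 11)))) .n)) .n)))) (.c k163 (.f k247 k251 1 (.q k167 [(.d k87
  k7 k171 11 13)] (.c k7 (.l (.s k1 k2 0 (.s k81 k162 12 (.s k161 k241 11 (.s k82 k240 12 (.s k87
  k171 13 (.s k91 k15 13 (.d k83 k80 k95 0 1)))))))) (.c k87 (.l (.s k1 k2 0 (.s k15 k91 13 (.s k5
  k10 2 (.s k9 k13 1 (.s k6 k12 2 (.d k7 k11 k4 1 0))))))) (.c k110 (.q k157 [(.d k87 k7 k171 11
  13)] (.c k7 (.l (.s k1 k2 0 (.s k81 k162 12 (.s k161 k241 11 (.s k82 k240 12 (.s k87 k171 13 (.s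
  k91 k15 13 (.d k83 k80 k95 0 1)))))))) (.c k87 (.l (.s k1 k2 0 (.s k15 k91 13 (.s k5 k10 2 (.s k9
  k13 1 (.s k6 k12 2 (.d k7 k11 k4 1 0))))))) (.c k171 (.l (.s k7 k87 11 (.d k15 k11 k91 1 13)))
  .n)))) (.c k157 (.q k110 [(.d k87 k7 k171 11 13)] (.c k7 (.l (.s k1 k2 0 (.s k81 k162 12 (.s k161
  k241 11 (.s k82 k240 12 (.s k87 k171 13 (.s k91 k15 13 (.d k83 k80 k95 0 1)))))))) (.c k87 (.l (.s
  k1 k2 0 (.s k15 k91 13 (.s k5 k10 2 (.s k9 k13 1 (.s k6 k12 2 (.d k7 k11 k4 1 0))))))) (.c k171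
  (.l (.s k7 k87 11 (.d k15 k11 k91 1 13))) .n)))) (.c k171 (.l (.s k7 k87 11 (.d k15 k11 k91 1
  13))) .n))))))) .n))))))

def t85_205 : T TT 256 :=
  (.f k1 k2 0 (.f k87 k171 13 (.q k51 [(.s k19 k35 3 (.s k119 k187 9 (.s k103 k71 3 (.d k155 k223
  k207 9 13)))), (.s k17 k34 4 (.s k33 k49 3 (.s k18 k48 4 (.d k19 k16 k35 0 3))))] (.c k19 (.q k243
  [(.s k83 k163 11 (.s k247 k251 1 (.s k167 k7 11 (.d k91 k95 k15 1 13)))), (.s k17 k34 4 (.s k81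
  k162 12 (.s k145 k209 7 (.s k98 k192 12 (.d k115 k64 k179 4 7)))))] .n) (.c k35 (.l (.s k17 k34 4
  (.s k33 k49 3 (.s k18 k48 4 (.s k19 k16 0 (.s k119 k187 9 (.s k103 k71 3 (.d k155 k223 k207 9
  13)))))))) .n)))))

def t85_206 : T TT 256 :=
  (.f k87 k171 13 (.q k51 [(.s k19 k35 3 (.s k119 k187 9 (.s k103 k71 3 (.d k155 k223 k207 9 13)))),
  (.s k1 k2 0 (.s k17 k34 4 (.s k33 k49 3 (.s k18 k48 4 (.d k19 k16 k35 0 3)))))] (.c k19 (.q k247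
  [(.s k167 k7 11 (.s k243 k251 1 (.s k83 k163 11 (.d k91 k95 k15 1 13)))), (.s k17 k34 4 (.s k243
  k251 1 (.s k81 k162 12 (.s k145 k209 7 (.s k98 k192 12 (.d k115 k64 k179 4 7)))))), (.s k7 k167 11
  (.s k119 k187 9 (.s k55 k183 7 (.s k39 k23 3 (.d k15 k27 k11 5 1)))))] (.c k11 (.l (.s k167 k7 11
  (.s k243 k251 1 (.s k91 k15 13 (.d k83 k95 k163 1 11))))) (.c k243 (.l (.s k7 k167 11 (.s k15 k11
  1 (.s k39 k27 5 (.s k119 k187 9 (.d k55 k23 k183 3 7)))))) .n))) (.c k35 (.f k1 k2 0 (.l (.s k17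
  k34 4 (.s k33 k49 3 (.s k18 k48 4 (.s k19 k16 0 (.s k119 k187 9 (.s k103 k71 3 (.d k155 k223 k207
  9 13))))))))) .n))))

def t85_207 : T TT 256 :=
  (.f k1 k2 0 (.f k87 k171 13 (.q k243 [(.s k83 k163 11 (.s k247 k251 1 (.s k167 k7 11 (.d k91 k95
  k15 1 13)))), (.s k81 k162 12 (.s k161 k241 11 (.s k82 k240 12 (.d k83 k80 k163 0 11))))] (.c k83
  (.q k51 [(.s k17 k34 4 (.s k33 k49 3 (.s k19 k35 3 (.d k18 k16 k48 0 4)))), (.s k81 k162 12 (.s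
  k161 k241 11 (.s k35 k19 3 (.s k98 k224 8 (.d k115 k64 k179 4 7))))), (.s k17 k34 4 (.s k81 k162
  12 (.s k145 k209 7 (.s k98 k192 12 (.d k115 k64 k179 4 7)))))] (.c k111 (.q k159 [(.s k17 k34 4
  (.s k33 k49 3 (.s k19 k35 3 (.d k18 k16 k48 0 4)))), (.s k81 k162 12 (.s k161 k241 11 (.s k35 k19
  3 (.s k98 k224 8 (.d k115 k64 k179 4 7))))), (.s k17 k34 4 (.s k81 k162 12 (.s k145 k209 7 (.s k98
  k192 12 (.d k115 k64 k179 4 7)))))] .n) (.c k159 (.q k111 [(.s k17 k34 4 (.s k33 k49 3 (.s k19 k35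
  3 (.d k18 k16 k48 0 4)))), (.s k81 k162 12 (.s k161 k241 11 (.s k35 k19 3 (.s k98 k224 8 (.d k115
  k64 k179 4 7))))), (.s k17 k34 4 (.s k81 k162 12 (.s k145 k209 7 (.s k98 k192 12 (.d k115 k64 k179
  4 7)))))] .n) .n))) (.c k111 (.q k159 [(.s k83 k163 11 (.s k247 k251 1 (.s k167 k7 11 (.d k91 k95
  k15 1 13)))), (.s k81 k162 12 (.s k161 k241 11 (.s k82 k240 12 (.d k83 k80 k163 0 11))))] (.c k83
  (.q k51 [(.s k17 k34 4 (.s k33 k49 3 (.s k19 k35 3 (.d k18 k16 k48 0 4)))), (.s k81 k162 12 (.s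
  k161 k241 11 (.s k35 k19 3 (.s k98 k224 8 (.d k115 k64 k179 4 7))))), (.s k17 k34 4 (.s k81 k162
  12 (.s k145 k209 7 (.s k98 k192 12 (.d k115 k64 k179 4 7)))))] .n) (.c k163 (.l (.s k81 k162 12
  (.s k161 k241 11 (.s k82 k240 12 (.s k83 k80 0 (.s k247 k251 1 (.s k167 k7 11 (.d k91 k95 k15 1
  13)))))))) .n))) (.c k159 (.q k111 [(.s k83 k163 11 (.s k247 k251 1 (.s k167 k7 11 (.d k91 k95 k15
  1 13)))), (.s k81 k162 12 (.s k161 k241 11 (.s k82 k240 12 (.d k83 k80 k163 0 11))))] (.c k83 (.q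
  k51 [(.s k17 k34 4 (.s k33 k49 3 (.s k19 k35 3 (.d k18 k16 k48 0 4)))), (.s k81 k162 12 (.s k161
  k241 11 (.s k35 k19 3 (.s k98 k224 8 (.d k115 k64 k179 4 7))))), (.s k17 k34 4 (.s k81 k162 12 (.s
  k145 k209 7 (.s k98 k192 12 (.d k115 k64 k179 4 7)))))] .n) (.c k163 (.l (.s k81 k162 12 (.s k161
  k241 11 (.s k82 k240 12 (.s k83 k80 0 (.s k247 k251 1 (.s k167 k7 11 (.d k91 k95 k15 1 13))))))))
  .n))) (.c k163 (.l (.s k81 k162 12 (.s k161 k241 11 (.s k82 k240 12 (.s k83 k80 0 (.s k247 k251 1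
  (.s k167 k7 11 (.d k91 k95 k15 1 13)))))))) .n)))))))

def t85_208 : T TT 256 :=
  (.f k87 k171 13 (.f k1 k2 0 (.q k243 [(.s k83 k163 11 (.s k247 k251 1 (.s k167 k7 11 (.d k91 k95
  k15 1 13)))), (.s k81 k162 12 (.s k161 k241 11 (.s k82 k240 12 (.d k83 k80 k163 0 11))))] (.c k83
  (.q k51 [(.s k19 k35 3 (.s k119 k187 9 (.s k103 k71 3 (.d k155 k223 k207 9 13)))), (.s k17 k34 4
  (.s k81 k162 12 (.s k145 k209 7 (.s k98 k192 12 (.d k115 k64 k179 4 7)))))] .n) (.c k163 (.l (.s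
  k81 k162 12 (.s k161 k241 11 (.s k82 k240 12 (.s k83 k80 0 (.s k247 k251 1 (.s k167 k7 11 (.d k91
  k95 k15 1 13)))))))) .n)))))

def t85_209 : T TT 256 :=
  (.f k1 k2 0 (.f k87 k171 13 (.q k243 [(.s k83 k163 11 (.s k247 k251 1 (.s k167 k7 11 (.d k91 k95
  k15 1 13)))), (.s k81 k162 12 (.s k161 k241 11 (.s k82 k240 12 (.d k83 k80 k163 0 11))))] (.c k83
  (.q k51 [(.s k19 k35 3 (.s k119 k187 9 (.s k103 k71 3 (.d k155 k223 k207 9 13)))), (.s k34 k17 4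
  (.s k179 k115 7 (.s k162 k81 12 (.s k145 k128 4 (.d k98 k226 k192 7 12)))))] .n) (.c k163 (.l (.s
  k81 k162 12 (.s k161 k241 11 (.s k82 k240 12 (.s k83 k80 0 (.s k247 k251 1 (.s k167 k7 11 (.d k91
  k95 k15 1 13)))))))) .n)))))

def t85_210 : T TT 256 :=
  (.f k1 k2 0 (.f k87 k171 13 (.q k243 [(.s k83 k163 11 (.s k247 k251 1 (.s k167 k7 11 (.d k91 k95
  k15 1 13)))), (.s k81 k162 12 (.s k161 k241 11 (.s k82 k240 12 (.d k83 k80 k163 0 11))))] (.c k83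
  (.q k51 [(.s k19 k35 3 (.s k119 k187 9 (.s k103 k71 3 (.d k155 k223 k207 9 13)))), (.s k17 k34 4
  (.s k81 k162 12 (.s k145 k209 7 (.s k98 k192 12 (.d k115 k64 k179 4 7)))))] .n) (.c k163 (.l (.s
  k81 k162 12 (.s k161 k241 11 (.s k82 k240 12 (.s k83 k80 0 (.s k247 k251 1 (.s k167 k7 11 (.d k91
  k95 k15 1 13)))))))) .n)))))

def t85_211 : T TT 256 :=
  (.f k87 k171 13 (.f k1 k2 0 (.q k243 [(.s k83 k163 11 (.s k247 k251 1 (.s k167 k7 11 (.d k91 k95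
  k15 1 13)))), (.s k81 k162 12 (.s k161 k241 11 (.s k82 k240 12 (.d k83 k80 k163 0 11))))] (.c k83
  (.q k51 [(.s k19 k35 3 (.s k119 k187 9 (.s k103 k71 3 (.d k155 k223 k207 9 13)))), (.s k17 k34 4
  (.s k81 k162 12 (.s k145 k209 7 (.s k98 k192 12 (.d k115 k64 k179 4 7)))))] (.c k19 (.q k147 [(.s
  k179 k115 7 (.s k131 k163 3 (.d k195 k67 k99 7 11))), (.s k17 k34 4 (.s k81 k162 12 (.s k145 k209
  7 (.s k98 k192 12 (.d k115 k64 k179 4 7)))))] (.c k115 (.l (.s k195 k99 11 (.s k67 k131 7 (.s k65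
  k130 8 (.s k129 k193 7 (.d k66 k64 k192 0 8)))))) (.c k179 (.l (.s k195 k99 11 (.s k65 k130 8 (.s
  k129 k193 7 (.s k66 k192 8 (.d k67 k64 k131 0 7)))))) .n))) (.c k147 (.l (.s k19 k35 3 (.s k17 k34
  4 (.s k33 k49 3 (.d k18 k16 k48 0 4))))) .n))) (.c k163 (.l (.s k81 k162 12 (.s k161 k241 11 (.s
  k82 k240 12 (.s k83 k80 0 (.s k247 k251 1 (.s k167 k7 11 (.d k91 k95 k15 1 13)))))))) .n)))))

def t85_212 : T TT 256 :=
  (.f k1 k2 0 (.f k87 k171 13 (.q k243 [(.s k83 k163 11 (.s k247 k251 1 (.s k167 k7 11 (.d k91 k95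
  k15 1 13)))), (.s k81 k162 12 (.s k161 k241 11 (.s k82 k240 12 (.d k83 k80 k163 0 11))))] (.c k83
  (.q k51 [(.s k19 k35 3 (.s k119 k187 9 (.s k103 k71 3 (.d k155 k223 k207 9 13)))), (.s k17 k34 4
  (.s k81 k162 12 (.s k145 k209 7 (.s k98 k192 12 (.d k115 k64 k179 4 7)))))] .n) (.c k163 (.l (.s
  k81 k162 12 (.s k161 k241 11 (.s k82 k240 12 (.s k83 k80 0 (.s k247 k251 1 (.s k167 k7 11 (.d k91
  k95 k15 1 13)))))))) .n)))))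

def t85_213 : T TT 256 :=
  (.f k1 k2 0 (.f k87 k171 13 (.q k243 [(.s k83 k163 11 (.s k247 k251 1 (.s k167 k7 11 (.d k91 k95
  k15 1 13)))), (.s k81 k162 12 (.s k161 k241 11 (.s k82 k240 12 (.d k83 k80 k163 0 11))))] (.c k21
  (.q k149 [(.s k83 k163 11 (.s k247 k251 1 (.s k167 k7 11 (.d k91 k95 k15 1 13)))), (.s k81 k162 12
  (.s k161 k241 11 (.s k82 k240 12 (.d k83 k80 k163 0 11))))] (.c k83 (.q k51 [(.s k19 k35 3 (.s
  k119 k187 9 (.s k103 k71 3 (.d k155 k223 k207 9 13)))), (.s k17 k34 4 (.s k81 k162 12 (.s k145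
  k209 7 (.s k98 k192 12 (.d k115 k64 k179 4 7)))))] .n) (.c k163 (.l (.s k81 k162 12 (.s k161 k241
  11 (.s k82 k240 12 (.s k83 k80 0 (.s k247 k251 1 (.s k167 k7 11 (.d k91 k95 k15 1 13)))))))) .n)))
  (.c k83 (.q k51 [(.s k19 k35 3 (.s k119 k187 9 (.s k103 k71 3 (.d k155 k223 k207 9 13)))), (.s k17
  k34 4 (.s k81 k162 12 (.s k145 k209 7 (.s k98 k192 12 (.d k115 k64 k179 4 7)))))] (.c k21 (.q k149
  [(.s k19 k35 3 (.s k119 k187 9 (.s k103 k71 3 (.d k155 k223 k207 9 13)))), (.s k17 k34 4 (.s k81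
  k162 12 (.s k145 k209 7 (.s k98 k192 12 (.d k115 k64 k179 4 7)))))] .n) (.c k149 (.q k21 [(.s k19
  k35 3 (.s k119 k187 9 (.s k103 k71 3 (.d k155 k223 k207 9 13)))), (.s k17 k34 4 (.s k81 k162 12
  (.s k145 k209 7 (.s k115 k179 7 (.d k98 k192 k64 12 4)))))] (.c k106 (.q k192 [(.s k64 k128 7 (.s
  k81 k162 12 (.d k98 k145 k115 12 4))), (.s k17 k34 4 (.s k33 k49 3 (.s k18 k48 4 (.d k19 k16 k35 0
  3))))] (.c k64 (.q k127 [(.s k115 k179 7 (.d k119 k123 k187 1 9)), (.s k17 k34 4 (.s k81 k162 12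
  (.d k145 k98 k209 12 7)))] .n) (.c k127 (.l (.s k64 k128 7 (.s k81 k162 12 (.d k98 k145 k115 12
  4)))) .n))) (.c k192 (.q k106 [(.s k19 k35 3 (.s k119 k187 9 (.s k103 k71 3 (.d k155 k223 k207 9
  13)))), (.s k17 k34 4 (.s k41 k61 5 (.s k60 k22 6 (.s k25 k29 1 (.d k57 k54 k9 2 3)))))] .n) .n)))
  .n))) (.c k149 (.q k21 [(.s k83 k163 11 (.s k247 k251 1 (.s k167 k7 11 (.d k91 k95 k15 1 13)))),
  (.s k81 k162 12 (.s k161 k241 11 (.s k82 k240 12 (.d k83 k80 k163 0 11)))), (.s k41 k61 5 (.s k60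
  k22 6 (.s k121 k182 10 (.s k125 k190 8 (.s k117 k113 1 (.s k186 k48 10 (.d k251 k247 k56 1
  8)))))))] (.c k106 (.q k192 [(.s k81 k162 12 (.s k161 k241 11 (.s k82 k240 12 (.d k83 k80 k163 0
  11)))), (.s k129 k66 8 (.s k65 k193 7 (.s k130 k195 8 (.d k128 k64 k131 7 0))))] (.c k64 (.q k127
  [(.s k81 k162 12 (.s k161 k241 11 (.s k82 k240 12 (.d k83 k80 k163 0 11)))), (.s k129 k66 8 (.s
  k65 k193 7 (.s k67 k107 5 (.d k195 k130 k131 8 7))))] .n) (.c k127 (.l (.s k64 k128 7 (.s k81 k162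
  12 (.s k161 k241 11 (.s k82 k240 12 (.d k83 k80 k163 0 11)))))) .n))) (.c k192 (.q k106 [(.s k83
  k163 11 (.s k247 k251 1 (.s k167 k7 11 (.d k91 k95 k15 1 13)))), (.s k81 k162 12 (.s k161 k241 11
  (.s k82 k240 12 (.d k83 k80 k163 0 11)))), (.s k41 k61 5 (.s k60 k22 6 (.s k121 k182 10 (.s k125
  k190 8 (.s k117 k113 1 (.s k186 k48 10 (.d k251 k247 k56 1 8)))))))] .n) .n))) (.c k163 (.l (.s
  k81 k162 12 (.s k161 k241 11 (.s k82 k240 12 (.s k83 k80 0 (.s k247 k251 1 (.s k167 k7 11 (.d k91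
  k95 k15 1 13)))))))) .n)))))))

def t85_214 : T TT 256 :=
  (.f k87 k171 13 (.f k1 k2 0 (.q k243 [(.s k83 k163 11 (.s k247 k251 1 (.s k167 k7 11 (.d k91 k95
  k15 1 13)))), (.s k81 k162 12 (.s k161 k241 11 (.s k82 k240 12 (.d k83 k80 k163 0 11))))] (.c k83
  (.q k51 [(.s k19 k35 3 (.s k119 k187 9 (.s k103 k71 3 (.d k155 k223 k207 9 13)))), (.s k17 k34 4
  (.s k81 k162 12 (.s k145 k209 7 (.s k98 k192 12 (.d k115 k64 k179 4 7)))))] .n) (.c k163 (.l (.s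
  k81 k162 12 (.s k161 k241 11 (.s k82 k240 12 (.s k83 k80 0 (.s k247 k251 1 (.s k167 k7 11 (.d k91
  k95 k15 1 13)))))))) .n)))))

def t85_215 : T TT 256 :=
  (.f k87 k171 13 (.f k1 k2 0 (.q k243 [(.s k83 k163 11 (.s k247 k251 1 (.s k167 k7 11 (.d k91 k95
  k15 1 13)))), (.s k81 k162 12 (.s k161 k241 11 (.s k82 k240 12 (.d k83 k80 k163 0 11))))] (.c k20
  (.q k150 [(.s k83 k163 11 (.s k247 k251 1 (.s k167 k7 11 (.d k91 k95 k15 1 13)))), (.s k81 k162 12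
  (.s k161 k241 11 (.s k82 k240 12 (.d k83 k80 k163 0 11))))] (.c k83 (.q k51 [(.s k19 k35 3 (.s
  k119 k187 9 (.s k103 k71 3 (.d k155 k223 k207 9 13)))), (.s k17 k34 4 (.s k81 k162 12 (.s k145
  k209 7 (.s k98 k192 12 (.d k115 k64 k179 4 7)))))] .n) (.c k163 (.l (.s k81 k162 12 (.s k161 k241
  11 (.s k82 k240 12 (.s k83 k80 0 (.s k247 k251 1 (.s k167 k7 11 (.d k91 k95 k15 1 13)))))))) .n)))
  (.c k83 (.q k51 [(.s k19 k35 3 (.s k119 k187 9 (.s k103 k71 3 (.d k155 k223 k207 9 13)))), (.s k17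
  k34 4 (.s k81 k162 12 (.s k145 k209 7 (.s k98 k192 12 (.d k115 k64 k179 4 7)))))] (.c k20 (.q k150
  [(.s k19 k35 3 (.s k119 k187 9 (.s k103 k71 3 (.d k155 k223 k207 9 13)))), (.s k17 k34 4 (.s k81
  k162 12 (.s k145 k209 7 (.s k98 k192 12 (.d k115 k64 k179 4 7)))))] .n) (.c k150 (.q k20 [(.s k19
  k35 3 (.s k119 k187 9 (.s k103 k71 3 (.d k155 k223 k207 9 13)))), (.s k17 k34 4 (.s k81 k162 12
  (.s k145 k209 7 (.s k98 k192 12 (.d k115 k64 k179 4 7)))))] .n) .n))) (.c k150 (.q k20 [(.s k83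
  k163 11 (.s k247 k251 1 (.s k167 k7 11 (.d k91 k95 k15 1 13)))), (.s k60 k40 5 (.s k81 k162 12 (.s
  k41 k22 6 (.s k61 k21 5 (.s k121 k182 10 (.d k241 k181 k161 9 11))))))] .n) (.c k163 (.l (.s k81
  k162 12 (.s k161 k241 11 (.s k82 k240 12 (.s k83 k80 0 (.s k247 k251 1 (.s k167 k7 11 (.d k91 k95
  k15 1 13)))))))) .n)))))))

def t85_216 : T TT 256 :=
  (.q k243 [(.s k1 k2 0 (.s k81 k162 12 (.s k161 k241 11 (.s k83 k163 11 (.d k82 k80 k240 0 12))))),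
  (.s k83 k163 11 (.s k87 k171 13 (.s k91 k95 1 (.s k167 k15 13 (.d k247 k251 k7 1 11)))))] (.c k80
  (.l (.s k2 k1 0 (.s k162 k81 12 (.s k82 k242 11 (.s k161 k240 12 (.d k163 k83 k160 11 0)))))) (.c
  k83 (.q k167 [(.s k87 k171 13 (.d k247 k251 k7 1 11)), (.s k1 k2 0 (.s k15 k91 13 (.s k95 k175 11
  (.s k5 k10 2 (.s k9 k13 1 (.s k6 k12 2 (.d k7 k4 k11 0 1)))))))] (.c k7 (.l (.s k171 k87 13 (.s
  k91 k15 13 (.d k251 k247 k11 1 11)))) (.c k87 (.l (.s k1 k2 0 (.s k15 k91 13 (.s k95 k175 11 (.s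
  k5 k10 2 (.s k9 k13 1 (.s k6 k12 2 (.d k7 k4 k11 0 1)))))))) .n))) (.c k163 (.q k167 [(.s k87 k171
  13 (.d k247 k251 k7 1 11)), (.s k1 k2 0 (.s k15 k91 13 (.s k5 k10 2 (.s k9 k13 1 (.s k6 k12 2 (.d
  k7 k4 k11 0 1))))))] (.c k7 (.l (.s k171 k87 13 (.s k91 k15 13 (.d k251 k247 k11 1 11)))) .n))
  .n))))

def t85_217 : T TT 256 :=
  (.q k243 [(.s k1 k2 0 (.s k81 k162 12 (.s k161 k241 11 (.s k83 k163 11 (.d k82 k80 k240 0 12))))),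
  (.s k83 k163 11 (.s k87 k171 13 (.s k91 k95 1 (.s k167 k15 13 (.d k247 k251 k7 1 11)))))] (.c k80
  (.l (.s k2 k1 0 (.s k162 k81 12 (.s k82 k242 11 (.s k161 k240 12 (.d k163 k83 k160 11 0)))))) (.c
  k83 (.q k167 [(.s k87 k171 13 (.d k247 k251 k7 1 11)), (.s k1 k2 0 (.s k15 k91 13 (.s k95 k175 11
  (.s k5 k10 2 (.s k9 k13 1 (.s k6 k12 2 (.d k7 k4 k11 0 1)))))))] (.c k7 (.l (.s k171 k87 13 (.s
  k91 k15 13 (.d k251 k247 k11 1 11)))) (.c k87 (.l (.s k1 k2 0 (.s k15 k91 13 (.s k95 k175 11 (.s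
  k5 k10 2 (.s k9 k13 1 (.s k6 k12 2 (.d k7 k4 k11 0 1)))))))) .n))) (.c k163 (.q k167 [(.s k87 k171
  13 (.d k247 k251 k7 1 11)), (.s k1 k2 0 (.s k15 k91 13 (.s k5 k10 2 (.s k9 k13 1 (.s k6 k12 2 (.d
  k7 k4 k11 0 1))))))] (.c k7 (.l (.s k171 k87 13 (.s k91 k15 13 (.d k251 k247 k11 1 11)))) .n))
  .n))))

def t85_218 : T TT 256 :=
  (.q k243 [(.s k1 k2 0 (.s k81 k162 12 (.s k161 k241 11 (.s k83 k163 11 (.d k82 k80 k240 0 12))))),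
  (.s k83 k163 11 (.s k87 k171 13 (.s k91 k95 1 (.s k167 k15 13 (.d k247 k251 k7 1 11)))))] (.c k80
  (.l (.s k2 k1 0 (.s k162 k81 12 (.s k82 k242 11 (.s k161 k240 12 (.d k163 k83 k160 11 0)))))) (.c
  k83 (.q k167 [(.s k87 k171 13 (.d k247 k251 k7 1 11)), (.s k1 k2 0 (.s k15 k91 13 (.s k95 k175 11
  (.s k5 k10 2 (.s k9 k13 1 (.s k6 k12 2 (.d k7 k4 k11 0 1)))))))] (.c k7 (.l (.s k171 k87 13 (.s
  k91 k15 13 (.d k251 k247 k11 1 11)))) (.c k87 (.l (.s k1 k2 0 (.s k15 k91 13 (.s k95 k175 11 (.s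
  k5 k10 2 (.s k9 k13 1 (.s k6 k12 2 (.d k7 k4 k11 0 1)))))))) .n))) (.c k163 (.q k167 [(.s k87 k171
  13 (.d k247 k251 k7 1 11)), (.s k1 k2 0 (.s k15 k91 13 (.s k5 k10 2 (.s k9 k13 1 (.s k6 k12 2 (.d
  k7 k4 k11 0 1))))))] (.c k7 (.l (.s k171 k87 13 (.s k91 k15 13 (.d k251 k247 k11 1 11)))) .n))
  .n))))

def t85_219 : T TT 256 :=
  (.f k1 k2 0 (.f k87 k171 13 (.q k243 [(.s k81 k162 12 (.s k161 k241 11 (.s k82 k240 12 (.d k83 k80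
  k163 0 11)))), (.s k83 k163 11 (.s k247 k251 1 (.s k167 k7 11 (.d k91 k95 k15 1 13))))] (.c k83
  (.q k51 [(.s k19 k35 3 (.s k119 k187 9 (.s k103 k71 3 (.d k155 k223 k207 9 13)))), (.s k17 k34 4
  (.s k81 k162 12 (.s k145 k209 7 (.s k98 k192 12 (.d k115 k64 k179 4 7)))))] .n) (.c k163 (.l (.s
  k81 k162 12 (.s k161 k241 11 (.s k82 k240 12 (.s k83 k80 0 (.s k247 k251 1 (.s k167 k7 11 (.d k91
  k95 k15 1 13)))))))) .n)))))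

def t85_220 : T TT 256 :=
  (.q k243 [(.s k1 k2 0 (.s k81 k162 12 (.s k161 k241 11 (.s k83 k163 11 (.d k82 k80 k240 0 12))))),
  (.s k83 k163 11 (.s k87 k171 13 (.s k91 k95 1 (.s k167 k15 13 (.d k247 k251 k7 1 11)))))] (.c k80
  (.l (.s k2 k1 0 (.s k162 k81 12 (.s k82 k242 11 (.s k161 k240 12 (.d k163 k83 k160 11 0)))))) (.c
  k83 (.q k167 [(.s k87 k171 13 (.d k247 k251 k7 1 11)), (.s k1 k2 0 (.s k15 k91 13 (.s k95 k175 11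
  (.s k5 k10 2 (.s k9 k13 1 (.s k6 k12 2 (.d k7 k4 k11 0 1)))))))] (.c k7 (.l (.s k171 k87 13 (.s
  k91 k15 13 (.d k251 k247 k11 1 11)))) (.c k87 (.l (.s k1 k2 0 (.s k15 k91 13 (.s k95 k175 11 (.s
  k5 k10 2 (.s k9 k13 1 (.s k6 k12 2 (.d k7 k4 k11 0 1)))))))) .n))) (.c k163 (.q k167 [(.s k87 k171
  13 (.d k247 k251 k7 1 11)), (.s k1 k2 0 (.s k15 k91 13 (.s k5 k10 2 (.s k9 k13 1 (.s k6 k12 2 (.d
  k7 k4 k11 0 1))))))] (.c k7 (.l (.s k171 k87 13 (.s k91 k15 13 (.d k251 k247 k11 1 11)))) .n))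
  .n))))

def t85_221 : T TT 256 :=
  (.f k87 k171 13 (.f k1 k2 0 (.q k51 [(.s k17 k34 4 (.s k33 k49 3 (.s k18 k48 4 (.d k19 k16 k35 0
  3)))), (.s k19 k35 3 (.s k119 k187 9 (.s k103 k71 3 (.d k155 k223 k207 9 13))))] (.c k17 (.q k153
  [(.s k187 k119 9 (.s k136 k170 4 (.d k204 k68 k102 9 14))), (.s k19 k35 3 (.s k155 k223 9 (.s k103
  k207 13 (.d k119 k71 k187 3 9)))), (.s k19 k35 3 (.s k86 k220 10 (.s k169 k252 14 (.s k137 k185 3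
  (.d k204 k70 k102 10 14)))))] .n) (.c k19 (.q k153 [(.s k187 k119 9 (.s k136 k170 4 (.d k204 k68
  k102 9 14))), (.s k17 k34 4 (.s k49 k33 3 (.s k205 k101 13 (.s k69 k137 9 (.s k207 k138 10 (.s
  k103 k155 13 (.d k71 k139 k119 9 3))))))), (.s k17 k34 4 (.s k49 k33 3 (.s k205 k101 13 (.s k69
  k137 9 (.s k207 k138 10 (.d k204 k206 k102 0 14))))))] (.c k136 (.l (.s k17 k34 4 (.s k49 k33 3
  (.s k205 k101 13 (.s k204 k102 14 (.d k137 k69 k70 9 10)))))) (.c k169 (.l (.s k34 k17 4 (.s k102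
  k204 14 (.s k170 k238 9 (.d k187 k136 k119 4 9))))) .n))) (.c k35 (.l (.s k17 k34 4 (.s k33 k49 3
  (.s k18 k48 4 (.s k19 k16 0 (.s k119 k187 9 (.s k103 k71 3 (.d k155 k223 k207 9 13)))))))) (.c
  k153 (.l (.s k17 k34 4 (.s k33 k49 3 (.s k18 k48 4 (.d k19 k16 k35 0 3))))) .n)))))))

def t85_222 : T TT 256 :=
  (.q k243 [(.s k1 k2 0 (.s k81 k162 12 (.s k161 k241 11 (.s k83 k163 11 (.d k82 k80 k240 0 12))))),
  (.s k83 k163 11 (.s k87 k171 13 (.s k91 k95 1 (.s k167 k15 13 (.d k247 k251 k7 1 11)))))] (.c k80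
  (.l (.s k2 k1 0 (.s k162 k81 12 (.s k82 k242 11 (.s k161 k240 12 (.d k163 k83 k160 11 0)))))) (.c
  k83 (.q k167 [(.s k87 k171 13 (.d k247 k251 k7 1 11)), (.s k1 k2 0 (.s k15 k91 13 (.s k95 k175 11
  (.s k5 k10 2 (.s k9 k13 1 (.s k6 k12 2 (.d k7 k4 k11 0 1)))))))] (.c k7 (.l (.s k171 k87 13 (.s
  k91 k15 13 (.d k251 k247 k11 1 11)))) (.c k87 (.l (.s k1 k2 0 (.s k15 k91 13 (.s k95 k175 11 (.s
  k5 k10 2 (.s k9 k13 1 (.s k6 k12 2 (.d k7 k4 k11 0 1)))))))) .n))) (.c k163 (.q k167 [(.s k87 k171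
  13 (.d k247 k251 k7 1 11)), (.s k1 k2 0 (.s k15 k91 13 (.s k5 k10 2 (.s k9 k13 1 (.s k6 k12 2 (.d
  k7 k4 k11 0 1))))))] (.c k7 (.l (.s k171 k87 13 (.s k91 k15 13 (.d k251 k247 k11 1 11)))) .n))
  .n))))

def t85_223 : T TT 256 :=
  (.f k87 k171 13 (.f k1 k2 0 (.q k243 [(.s k83 k163 11 (.s k247 k251 1 (.s k167 k7 11 (.d k91 k95
  k15 1 13)))), (.s k81 k162 12 (.s k161 k241 11 (.s k82 k240 12 (.d k83 k80 k163 0 11))))] (.c k16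
  (.q k154 [(.s k83 k163 11 (.s k247 k251 1 (.s k167 k7 11 (.d k91 k95 k15 1 13)))), (.s k81 k162 12
  (.s k161 k241 11 (.s k82 k240 12 (.d k83 k80 k163 0 11))))] (.c k83 (.q k51 [(.s k17 k34 4 (.s k81
  k162 12 (.s k145 k209 7 (.s k115 k179 7 (.d k98 k64 k192 4 12))))), (.s k115 k179 7 (.s k119 k187
  9 (.s k103 k71 3 (.s k91 k79 5 (.s k167 k15 13 (.d k247 k251 k7 1 11)))))), (.s k81 k162 12 (.s
  k161 k241 11 (.s k19 k35 3 (.s k82 k240 12 (.s k145 k208 8 (.d k17 k34 k209 4 7))))))] .n) (.c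
  k163 (.l (.s k81 k162 12 (.s k161 k241 11 (.s k82 k240 12 (.s k83 k80 0 (.s k247 k251 1 (.s k167
  k7 11 (.d k91 k95 k15 1 13)))))))) .n))) (.c k83 (.q k16 [(.s k48 k32 3 (.s k81 k162 12 (.s k113
  k178 8 (.s k97 k65 3 (.d k146 k211 k195 8 12))))), (.s k48 k32 3 (.s k33 k18 4 (.s k49 k17 3 (.s
  k113 k178 8 (.s k241 k177 7 (.d k81 k161 k162 11 12)))))), (.s k81 k162 12 (.s k161 k241 11 (.s
  k82 k240 12 (.s k146 k211 8 (.s k18 k210 7 (.s k33 k48 4 (.d k17 k19 k49 0 3))))))), (.s k48 k32 3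
  (.s k113 k178 8 (.s k117 k186 10 (.s k121 k125 1 (.s k182 k60 10 (.d k247 k251 k52 1 8))))))] (.c
  k48 (.f k247 k251 1 (.l (.s k81 k162 12 (.s k167 k7 11 (.s k91 k15 13 (.s k211 k146 8 (.s k195
  k227 3 (.s k215 k235 5 (.d k151 k31 k23 9 7))))))))) .n)) (.c k154 (.q k16 [(.s k83 k163 11 (.s
  k247 k251 1 (.s k167 k7 11 (.d k91 k95 k15 1 13)))), (.s k48 k32 3 (.s k81 k162 12 (.s k146 k211 8
  (.s k97 k195 12 (.d k113 k65 k178 3 8)))))] .n) (.c k163 (.l (.s k81 k162 12 (.s k161 k241 11 (.s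
  k82 k240 12 (.s k83 k80 0 (.s k247 k251 1 (.s k167 k7 11 (.d k91 k95 k15 1 13)))))))) .n)))))))

def t85_224 : T TT 256 :=
  (.f k87 k171 13 (.f k1 k2 0 (.q k51 [(.s k17 k34 4 (.s k33 k49 3 (.s k18 k48 4 (.d k19 k16 k35 0
  3)))), (.s k19 k35 3 (.s k119 k187 9 (.s k103 k71 3 (.d k155 k223 k207 9 13))))] (.c k19 (.q k153
  [(.s k187 k119 9 (.s k136 k170 4 (.d k204 k68 k102 9 14))), (.s k17 k34 4 (.s k49 k33 3 (.s k205
  k101 13 (.s k69 k137 9 (.s k207 k138 10 (.s k103 k155 13 (.d k71 k139 k119 9 3))))))), (.s k17 k34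
  4 (.s k49 k33 3 (.s k205 k101 13 (.s k69 k137 9 (.s k207 k138 10 (.d k204 k206 k102 0 14))))))]
  (.c k136 (.l (.s k17 k34 4 (.s k49 k33 3 (.s k205 k101 13 (.s k204 k102 14 (.d k137 k69 k70 9
  10)))))) (.c k169 (.l (.s k34 k17 4 (.s k102 k204 14 (.s k170 k238 9 (.d k187 k136 k119 4 9)))))
  .n))) (.c k35 (.l (.s k17 k34 4 (.s k33 k49 3 (.s k18 k48 4 (.s k19 k16 0 (.s k119 k187 9 (.s k103
  k71 3 (.d k155 k223 k207 9 13)))))))) .n)))))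

def t85_225 : T TT 256 :=
  (.q k243 [(.s k1 k2 0 (.s k81 k162 12 (.s k161 k241 11 (.s k83 k163 11 (.d k82 k80 k240 0 12))))),
  (.s k83 k163 11 (.s k87 k171 13 (.s k91 k95 1 (.s k167 k15 13 (.d k247 k251 k7 1 11)))))] (.c k80
  (.l (.s k2 k1 0 (.s k162 k81 12 (.s k82 k242 11 (.s k161 k240 12 (.d k163 k83 k160 11 0)))))) (.c
  k83 (.q k167 [(.s k87 k171 13 (.d k247 k251 k7 1 11)), (.s k1 k2 0 (.s k15 k91 13 (.s k95 k175 11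
  (.s k5 k10 2 (.s k9 k13 1 (.s k6 k12 2 (.d k7 k4 k11 0 1)))))))] (.c k7 (.l (.s k171 k87 13 (.s
  k91 k15 13 (.d k251 k247 k11 1 11)))) (.c k87 (.l (.s k1 k2 0 (.s k15 k91 13 (.s k95 k175 11 (.s
  k5 k10 2 (.s k9 k13 1 (.s k6 k12 2 (.d k7 k4 k11 0 1)))))))) .n))) (.c k163 (.q k167 [(.s k87 k171
  13 (.d k247 k251 k7 1 11)), (.s k1 k2 0 (.s k15 k91 13 (.s k5 k10 2 (.s k9 k13 1 (.s k6 k12 2 (.d
  k7 k4 k11 0 1))))))] (.c k7 (.l (.s k171 k87 13 (.s k91 k15 13 (.d k251 k247 k11 1 11)))) .n))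
  .n))))

def t85_226 : T TT 256 :=
  (.f k87 k171 13 (.f k1 k2 0 (.q k51 [(.s k19 k35 3 (.s k119 k187 9 (.s k103 k71 3 (.d k155 k223
  k207 9 13)))), (.s k17 k34 4 (.s k33 k49 3 (.s k18 k48 4 (.d k19 k16 k35 0 3))))] (.c k19 (.q k153
  [(.s k187 k119 9 (.s k136 k170 4 (.d k204 k68 k102 9 14))), (.s k17 k34 4 (.s k49 k33 3 (.s k205
  k101 13 (.s k69 k137 9 (.s k207 k138 10 (.s k103 k155 13 (.d k71 k139 k119 9 3))))))), (.s k17 k34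
  4 (.s k49 k33 3 (.s k205 k101 13 (.s k69 k137 9 (.s k207 k138 10 (.d k204 k206 k102 0 14))))))]
  (.c k136 (.l (.s k17 k34 4 (.s k49 k33 3 (.s k205 k101 13 (.s k204 k102 14 (.d k137 k69 k70 9
  10)))))) (.c k169 (.l (.s k34 k17 4 (.s k102 k204 14 (.s k170 k238 9 (.d k187 k136 k119 4 9)))))
  .n))) (.c k35 (.l (.s k17 k34 4 (.s k33 k49 3 (.s k18 k48 4 (.s k19 k16 0 (.s k119 k187 9 (.s k103
  k71 3 (.d k155 k223 k207 9 13)))))))) .n)))))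

def t85_227 : T TT 256 :=
  (.q k243 [(.s k1 k2 0 (.s k81 k162 12 (.s k161 k241 11 (.s k82 k240 12 (.d k83 k80 k163 0 11))))),
  (.s k83 k163 11 (.s k87 k171 13 (.s k91 k95 1 (.s k167 k15 13 (.d k247 k251 k7 1 11)))))] (.c k80
  (.l (.s k2 k1 0 (.s k162 k81 12 (.s k82 k242 11 (.s k161 k240 12 (.d k163 k83 k160 11 0)))))) (.c
  k83 (.q k167 [(.s k87 k171 13 (.d k247 k251 k7 1 11)), (.s k1 k2 0 (.s k15 k91 13 (.s k95 k175 11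
  (.s k5 k10 2 (.s k9 k13 1 (.s k6 k12 2 (.d k7 k4 k11 0 1)))))))] (.c k7 (.l (.s k171 k87 13 (.s
  k91 k15 13 (.d k251 k247 k11 1 11)))) (.c k87 (.l (.s k1 k2 0 (.s k15 k91 13 (.s k95 k175 11 (.s
  k5 k10 2 (.s k9 k13 1 (.s k6 k12 2 (.d k7 k4 k11 0 1)))))))) .n))) (.c k163 (.f k247 k251 1 (.q
  k167 [(.d k87 k7 k171 11 13)] (.c k7 (.l (.s k1 k2 0 (.s k81 k162 12 (.s k161 k241 11 (.s k82 k240
  12 (.s k87 k171 13 (.s k91 k15 13 (.d k83 k80 k95 0 1)))))))) (.c k35 (.q k99 [(.d k87 k7 k171 11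
  13)] (.c k7 (.l (.s k1 k2 0 (.s k81 k162 12 (.s k161 k241 11 (.s k82 k240 12 (.s k87 k171 13 (.s
  k91 k15 13 (.d k83 k80 k95 0 1)))))))) (.c k87 (.l (.s k1 k2 0 (.s k15 k91 13 (.s k5 k10 2 (.s k9
  k13 1 (.s k6 k12 2 (.d k7 k11 k4 1 0))))))) (.c k171 (.l (.s k7 k87 11 (.d k15 k11 k91 1 13)))
  .n)))) (.c k87 (.l (.s k1 k2 0 (.s k15 k91 13 (.s k5 k10 2 (.s k9 k13 1 (.s k6 k12 2 (.d k7 k11 k4
  1 0))))))) (.c k99 (.q k35 [(.d k87 k7 k171 11 13), (.s k2 k1 0 (.s k51 k19 3 (.s k34 k17 4 (.s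
  k18 k50 3 (.d k33 k32 k48 0 4)))))] .n) (.c k171 (.l (.s k7 k87 11 (.d k15 k11 k91 1 13)))
  .n))))))) .n))))

def t85_228 : T TT 256 :=
  (.f k87 k171 13 (.f k1 k2 0 (.q k51 [(.s k19 k35 3 (.s k119 k187 9 (.s k103 k71 3 (.d k155 k223
  k207 9 13)))), (.s k17 k34 4 (.s k33 k49 3 (.s k18 k48 4 (.d k19 k16 k35 0 3))))] (.c k19 (.q k153
  [(.s k187 k119 9 (.s k136 k170 4 (.d k204 k68 k102 9 14))), (.s k17 k34 4 (.s k49 k33 3 (.s k205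
  k101 13 (.s k69 k137 9 (.s k207 k138 10 (.s k103 k155 13 (.d k71 k139 k119 9 3))))))), (.s k17 k34
  4 (.s k49 k33 3 (.s k205 k101 13 (.s k69 k137 9 (.s k207 k138 10 (.d k204 k206 k102 0 14))))))]
  (.c k136 (.l (.s k17 k34 4 (.s k49 k33 3 (.s k205 k101 13 (.s k204 k102 14 (.d k137 k69 k70 9
  10)))))) (.c k169 (.l (.s k34 k17 4 (.s k102 k204 14 (.s k170 k238 9 (.d k187 k136 k119 4 9)))))
  .n))) (.c k35 (.l (.s k17 k34 4 (.s k33 k49 3 (.s k18 k48 4 (.s k19 k16 0 (.s k119 k187 9 (.s k103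
  k71 3 (.d k155 k223 k207 9 13)))))))) .n)))))

def t85_229 : T TT 256 :=
  (.f k87 k171 13 (.f k1 k2 0 (.q k51 [(.s k19 k35 3 (.s k119 k187 9 (.s k103 k71 3 (.d k155 k223
  k207 9 13)))), (.s k17 k34 4 (.s k33 k49 3 (.s k18 k48 4 (.d k19 k16 k35 0 3))))] (.c k19 (.q k153
  [(.s k187 k119 9 (.s k136 k170 4 (.d k204 k68 k102 9 14))), (.s k17 k34 4 (.s k49 k33 3 (.s k205
  k101 13 (.s k69 k137 9 (.s k207 k138 10 (.s k103 k155 13 (.d k71 k139 k119 9 3))))))), (.s k17 k34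
  4 (.s k49 k33 3 (.s k205 k101 13 (.s k69 k137 9 (.s k207 k138 10 (.d k204 k206 k102 0 14))))))]
  (.c k136 (.l (.s k17 k34 4 (.s k49 k33 3 (.s k205 k101 13 (.s k204 k102 14 (.d k137 k69 k70 9
  10)))))) (.c k169 (.l (.s k34 k17 4 (.s k102 k204 14 (.s k170 k238 9 (.d k187 k136 k119 4 9)))))
  .n))) (.c k35 (.l (.s k17 k34 4 (.s k33 k49 3 (.s k18 k48 4 (.s k19 k16 0 (.s k119 k187 9 (.s k103
  k71 3 (.d k155 k223 k207 9 13)))))))) .n)))))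

def t85_230 : T TT 256 :=
  (.f k87 k171 13 (.f k1 k2 0 (.q k243 [(.s k83 k163 11 (.s k247 k251 1 (.s k167 k7 11 (.d k91 k95
  k15 1 13)))), (.s k81 k162 12 (.s k161 k241 11 (.s k82 k240 12 (.d k83 k80 k163 0 11))))] (.c k83
  (.q k16 [(.s k48 k32 3 (.s k81 k162 12 (.s k146 k211 8 (.s k113 k178 8 (.d k97 k65 k195 3 12))))),
  (.s k48 k32 3 (.s k113 k178 8 (.s k117 k186 10 (.s k121 k125 1 (.s k182 k60 10 (.d k247 k251 k52 1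
  8)))))), (.s k81 k162 12 (.s k161 k241 11 (.s k82 k240 12 (.s k146 k211 8 (.s k18 k210 7 (.s k33
  k48 4 (.d k17 k19 k49 0 3)))))))] (.c k48 (.l (.s k81 k162 12 (.s k211 k146 8 (.s k195 k227 3 (.s
  k215 k235 5 (.s k219 k223 1 (.s k231 k207 5 (.d k247 k251 k199 1 3)))))))) .n)) (.c k163 (.l (.s
  k81 k162 12 (.s k161 k241 11 (.s k82 k240 12 (.s k83 k80 0 (.s k247 k251 1 (.s k167 k7 11 (.d k91
  k95 k15 1 13)))))))) .n)))))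

def t85_231 : T TT 256 :=
  (.f k87 k171 13 (.f k1 k2 0 (.q k51 [(.s k19 k35 3 (.s k119 k187 9 (.s k103 k71 3 (.d k155 k223
  k207 9 13)))), (.s k17 k34 4 (.s k33 k49 3 (.s k18 k48 4 (.d k19 k16 k35 0 3))))] (.c k19 (.q k153
  [(.s k187 k119 9 (.s k136 k170 4 (.d k204 k68 k102 9 14))), (.s k17 k34 4 (.s k49 k33 3 (.s k205
  k101 13 (.s k69 k137 9 (.s k207 k138 10 (.s k103 k155 13 (.d k71 k139 k119 9 3))))))), (.s k17 k34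
  4 (.s k49 k33 3 (.s k205 k101 13 (.s k69 k137 9 (.s k207 k138 10 (.d k204 k206 k102 0 14))))))]
  (.c k136 (.l (.s k17 k34 4 (.s k49 k33 3 (.s k205 k101 13 (.s k204 k102 14 (.d k137 k69 k70 9
  10)))))) (.c k169 (.l (.s k34 k17 4 (.s k102 k204 14 (.s k170 k238 9 (.d k187 k136 k119 4 9)))))
  .n))) (.c k35 (.l (.s k17 k34 4 (.s k33 k49 3 (.s k18 k48 4 (.s k19 k16 0 (.s k119 k187 9 (.s k103
  k71 3 (.d k155 k223 k207 9 13)))))))) .n)))))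

def t85_232 : T TT 256 :=
  (.f k87 k171 13 (.f k1 k2 0 (.q k51 [(.s k19 k35 3 (.s k119 k187 9 (.s k103 k71 3 (.d k155 k223
  k207 9 13)))), (.s k17 k34 4 (.s k33 k49 3 (.s k18 k48 4 (.d k19 k16 k35 0 3))))] (.c k19 (.q k153
  [(.s k187 k119 9 (.s k136 k170 4 (.d k204 k68 k102 9 14))), (.s k17 k34 4 (.s k49 k33 3 (.s k205
  k101 13 (.s k69 k137 9 (.s k207 k138 10 (.s k103 k155 13 (.d k71 k139 k119 9 3))))))), (.s k17 k34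
  4 (.s k49 k33 3 (.s k205 k101 13 (.s k69 k137 9 (.s k207 k138 10 (.d k204 k206 k102 0 14))))))]
  (.c k136 (.l (.s k17 k34 4 (.s k49 k33 3 (.s k205 k101 13 (.s k204 k102 14 (.d k137 k69 k70 9
  10)))))) (.c k169 (.l (.s k34 k17 4 (.s k102 k204 14 (.s k170 k238 9 (.d k187 k136 k119 4 9)))))
  .n))) (.c k35 (.l (.s k17 k34 4 (.s k33 k49 3 (.s k18 k48 4 (.s k19 k16 0 (.s k119 k187 9 (.s k103
  k71 3 (.d k155 k223 k207 9 13)))))))) .n)))))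

def t85_233 : T TT 256 :=
  (.f k87 k171 13 (.f k1 k2 0 (.q k243 [(.s k83 k163 11 (.s k247 k251 1 (.s k167 k7 11 (.d k91 k95
  k15 1 13)))), (.s k81 k162 12 (.s k161 k241 11 (.s k82 k240 12 (.d k83 k80 k163 0 11))))] (.c k83
  (.q k16 [(.s k48 k32 3 (.s k81 k162 12 (.s k146 k211 8 (.s k113 k178 8 (.d k97 k65 k195 3 12))))),
  (.s k48 k32 3 (.s k113 k178 8 (.s k117 k186 10 (.s k121 k125 1 (.s k182 k60 10 (.d k247 k251 k52 1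
  8)))))), (.s k81 k162 12 (.s k161 k241 11 (.s k82 k240 12 (.s k146 k211 8 (.s k18 k210 7 (.s k33
  k48 4 (.d k17 k19 k49 0 3)))))))] (.c k48 (.l (.s k81 k162 12 (.s k211 k146 8 (.s k195 k227 3 (.s
  k215 k235 5 (.s k219 k223 1 (.s k231 k207 5 (.d k247 k251 k199 1 3)))))))) .n)) (.c k163 (.l (.s
  k81 k162 12 (.s k161 k241 11 (.s k82 k240 12 (.s k83 k80 0 (.s k247 k251 1 (.s k167 k7 11 (.d k91
  k95 k15 1 13)))))))) .n)))))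

def t85_234 : T TT 256 :=
  (.f k87 k171 13 (.f k1 k2 0 (.q k51 [(.s k19 k35 3 (.s k119 k187 9 (.s k103 k71 3 (.d k155 k223
  k207 9 13)))), (.s k17 k34 4 (.s k33 k49 3 (.s k18 k48 4 (.d k19 k16 k35 0 3))))] (.c k19 (.q k153
  [(.s k187 k119 9 (.s k136 k170 4 (.d k204 k68 k102 9 14))), (.s k17 k34 4 (.s k49 k33 3 (.s k205
  k101 13 (.s k69 k137 9 (.s k207 k138 10 (.s k103 k155 13 (.d k71 k139 k119 9 3))))))), (.s k17 k34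
  4 (.s k49 k33 3 (.s k205 k101 13 (.s k69 k137 9 (.s k207 k138 10 (.d k204 k206 k102 0 14))))))]
  (.c k136 (.l (.s k17 k34 4 (.s k49 k33 3 (.s k205 k101 13 (.s k204 k102 14 (.d k137 k69 k70 9
  10)))))) (.c k169 (.l (.s k34 k17 4 (.s k102 k204 14 (.s k170 k238 9 (.d k187 k136 k119 4 9)))))
  .n))) (.c k35 (.l (.s k17 k34 4 (.s k33 k49 3 (.s k18 k48 4 (.s k19 k16 0 (.s k119 k187 9 (.s k103
  k71 3 (.d k155 k223 k207 9 13)))))))) .n)))))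

def t85_235 : T TT 256 :=
  (.f k1 k2 0 (.q k51 [(.s k17 k34 4 (.s k33 k49 3 (.s k19 k35 3 (.d k18 k16 k48 0 4)))), (.s k19
  k35 3 (.s k87 k171 13 (.s k119 k187 9 (.s k103 k71 3 (.d k155 k223 k207 9 13)))))] (.c k19 (.q
  k243 [(.s k81 k162 12 (.s k161 k241 11 (.s k83 k163 11 (.d k82 k80 k240 0 12)))), (.s k34 k17 4
  (.s k162 k81 12 (.s k98 k226 7 (.s k145 k192 12 (.d k179 k128 k115 4 7))))), (.s k83 k163 11 (.s
  k87 k171 13 (.s k91 k95 1 (.s k167 k15 13 (.d k247 k251 k7 1 11)))))] .n) (.c k35 (.q k243 [(.s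
  k81 k162 12 (.s k161 k241 11 (.s k82 k240 12 (.d k83 k80 k163 0 11)))), (.s k34 k17 4 (.s k162 k81
  12 (.s k98 k226 7 (.s k145 k192 12 (.d k179 k128 k115 4 7))))), (.s k83 k163 11 (.s k87 k171 13
  (.s k91 k95 1 (.s k167 k15 13 (.d k247 k251 k7 1 11)))))] .n) .n))))

def t85_236 : T TT 256 :=
  (.q k243 [(.s k1 k2 0 (.s k81 k162 12 (.s k161 k241 11 (.s k83 k163 11 (.d k82 k80 k240 0 12))))),
  (.s k83 k163 11 (.s k87 k171 13 (.s k91 k95 1 (.s k167 k15 13 (.d k247 k251 k7 1 11)))))] (.c k80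
  (.l (.s k2 k1 0 (.s k162 k81 12 (.s k82 k242 11 (.s k161 k240 12 (.d k163 k83 k160 11 0)))))) (.c
  k83 (.q k167 [(.s k87 k171 13 (.d k247 k251 k7 1 11)), (.s k1 k2 0 (.s k15 k91 13 (.s k95 k175 11
  (.s k5 k10 2 (.s k9 k13 1 (.s k6 k12 2 (.d k7 k4 k11 0 1)))))))] (.c k7 (.l (.s k171 k87 13 (.s
  k91 k15 13 (.d k251 k247 k11 1 11)))) (.c k87 (.l (.s k1 k2 0 (.s k15 k91 13 (.s k95 k175 11 (.s
  k5 k10 2 (.s k9 k13 1 (.s k6 k12 2 (.d k7 k4 k11 0 1)))))))) .n))) (.c k163 (.q k167 [(.s k87 k171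
  13 (.d k247 k251 k7 1 11)), (.s k1 k2 0 (.s k15 k91 13 (.s k5 k10 2 (.s k9 k13 1 (.s k6 k12 2 (.d
  k7 k4 k11 0 1))))))] (.c k7 (.l (.s k171 k87 13 (.s k91 k15 13 (.d k251 k247 k11 1 11)))) .n))
  .n))))

def t85_237 : T TT 256 :=
  (.f k87 k171 13 (.f k1 k2 0 (.q k243 [(.s k83 k163 11 (.s k247 k251 1 (.s k167 k7 11 (.d k91 k95
  k15 1 13)))), (.s k81 k162 12 (.s k161 k241 11 (.s k82 k240 12 (.d k83 k80 k163 0 11))))] (.c k83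
  (.q k16 [(.s k48 k32 3 (.s k81 k162 12 (.s k146 k211 8 (.s k113 k178 8 (.d k97 k65 k195 3 12))))),
  (.s k48 k32 3 (.s k113 k178 8 (.s k117 k186 10 (.s k121 k125 1 (.s k182 k60 10 (.d k247 k251 k52 1
  8)))))), (.s k81 k162 12 (.s k161 k241 11 (.s k82 k240 12 (.s k146 k211 8 (.s k18 k210 7 (.s k33
  k48 4 (.d k17 k19 k49 0 3)))))))] (.c k48 (.l (.s k81 k162 12 (.s k211 k146 8 (.s k195 k227 3 (.s
  k215 k235 5 (.s k219 k223 1 (.s k231 k207 5 (.d k247 k251 k199 1 3)))))))) .n)) (.c k163 (.l (.s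
  k81 k162 12 (.s k161 k241 11 (.s k82 k240 12 (.s k83 k80 0 (.s k247 k251 1 (.s k167 k7 11 (.d k91
  k95 k15 1 13)))))))) .n)))))

def t85_238 : T TT 256 :=
  (.q k243 [(.s k1 k2 0 (.s k81 k162 12 (.s k161 k241 11 (.s k83 k163 11 (.d k82 k80 k240 0 12))))),
  (.s k83 k163 11 (.s k87 k171 13 (.s k91 k95 1 (.s k167 k15 13 (.d k247 k251 k7 1 11)))))] (.c k80
  (.l (.s k2 k1 0 (.s k162 k81 12 (.s k82 k242 11 (.s k161 k240 12 (.d k163 k83 k160 11 0)))))) (.c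
  k83 (.q k167 [(.s k87 k171 13 (.d k247 k251 k7 1 11)), (.s k1 k2 0 (.s k15 k91 13 (.s k95 k175 11
  (.s k5 k10 2 (.s k9 k13 1 (.s k6 k12 2 (.d k7 k4 k11 0 1)))))))] (.c k7 (.l (.s k171 k87 13 (.s
  k91 k15 13 (.d k251 k247 k11 1 11)))) (.c k87 (.l (.s k1 k2 0 (.s k15 k91 13 (.s k95 k175 11 (.s
  k5 k10 2 (.s k9 k13 1 (.s k6 k12 2 (.d k7 k4 k11 0 1)))))))) .n))) (.c k163 (.q k167 [(.s k87 k171
  13 (.d k247 k251 k7 1 11)), (.s k1 k2 0 (.s k15 k91 13 (.s k5 k10 2 (.s k9 k13 1 (.s k6 k12 2 (.d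
  k7 k4 k11 0 1))))))] (.c k7 (.l (.s k171 k87 13 (.s k91 k15 13 (.d k251 k247 k11 1 11)))) .n))
  .n))))

def t85_239 : T TT 256 :=
  (.f k1 k2 0 (.q k51 [(.s k17 k34 4 (.s k33 k49 3 (.s k18 k48 4 (.d k19 k16 k35 0 3)))), (.s k19
  k35 3 (.s k119 k187 9 (.s k87 k171 13 (.s k103 k71 3 (.d k155 k223 k207 9 13)))))] (.c k19 (.q
  k243 [(.s k81 k162 12 (.s k161 k241 11 (.s k83 k163 11 (.d k82 k80 k240 0 12)))), (.s k34 k17 4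
  (.s k162 k81 12 (.s k98 k226 7 (.s k145 k192 12 (.d k179 k128 k115 4 7))))), (.s k83 k163 11 (.s
  k87 k171 13 (.s k91 k95 1 (.s k167 k15 13 (.d k247 k251 k7 1 11)))))] .n) (.c k35 (.q k103 [(.s
  k87 k171 13 (.d k119 k71 k187 3 9)), (.s k207 k155 13 (.s k69 k138 10 (.s k137 k205 9 (.s k70 k204
  10 (.d k71 k68 k139 0 9)))))] (.c k71 (.l (.s k171 k87 13 (.s k155 k207 13 (.d k187 k139 k119 3
  9)))) .n)) .n))))

def t85_240 : T TT 256 :=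
  (.q k223 [(.s k87 k171 13 (.s k155 k19 9 (.s k207 k239 3 (.s k71 k139 9 (.d k103 k119 k51 3
  13))))), (.s k1 k2 0 (.s k207 k239 3 (.s k69 k138 10 (.s k137 k205 9 (.s k70 k204 10 (.d k71 k68
  k139 0 9)))))), (.s k1 k2 0 (.s k87 k171 13 (.s k19 k155 9 (.s k51 k35 3 (.s k17 k34 4 (.s k33 k49
  3 (.d k18 k16 k48 0 4)))))))] (.c k122 (.q k181 [(.s k87 k171 13 (.s k155 k19 9 (.s k207 k239 3
  (.s k71 k139 9 (.d k103 k119 k51 3 13))))), (.s k1 k2 0 (.s k207 k239 3 (.s k69 k138 10 (.s k137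
  k205 9 (.s k70 k204 10 (.d k71 k68 k139 0 9)))))), (.s k1 k2 0 (.s k87 k171 13 (.s k19 k155 9 (.s
  k51 k35 3 (.s k17 k34 4 (.s k33 k49 3 (.d k18 k16 k48 0 4)))))))] (.c k139 (.q k195 [(.s k1 k2 0
  (.s k65 k130 8 (.s k129 k193 7 (.s k67 k131 7 (.d k66 k64 k192 0 8))))), (.s k215 k235 5 (.s k207
  k239 3 (.s k199 k203 1 (.s k231 k247 3 (.d k219 k211 k243 1 5)))))] .n) (.c k239 (.q k195 [(.s k1
  k2 0 (.s k65 k130 8 (.s k129 k193 7 (.s k67 k131 7 (.d k66 k64 k192 0 8))))), (.s k87 k171 13 (.s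
  k19 k155 9 (.s k215 k235 5 (.s k211 k219 1 (.s k83 k147 7 (.d k243 k227 k163 3 11))))))] .n) .n)))
  (.c k139 (.q k195 [(.s k1 k2 0 (.s k65 k130 8 (.s k129 k193 7 (.s k67 k131 7 (.d k66 k64 k192 0
  8))))), (.s k215 k235 5 (.s k207 k239 3 (.s k199 k203 1 (.s k231 k247 3 (.d k219 k211 k243 1
  5)))))] (.c k122 (.q k181 [(.s k1 k2 0 (.s k65 k130 8 (.s k129 k193 7 (.s k67 k131 7 (.d k66 k64
  k192 0 8))))), (.s k215 k235 5 (.s k207 k239 3 (.s k199 k203 1 (.s k231 k247 3 (.d k219 k211 k243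
  1 5)))))] .n) (.c k181 (.q k122 [(.s k1 k2 0 (.s k65 k130 8 (.s k129 k193 7 (.s k67 k131 7 (.d k66
  k64 k192 0 8))))), (.s k215 k235 5 (.s k207 k239 3 (.s k199 k203 1 (.s k231 k247 3 (.d k219 k211
  k243 1 5)))))] .n) .n))) (.c k181 (.q k122 [(.s k87 k171 13 (.s k155 k19 9 (.s k207 k239 3 (.s k71
  k139 9 (.d k103 k119 k51 3 13))))), (.s k1 k2 0 (.s k207 k239 3 (.s k69 k138 10 (.s k137 k205 9
  (.s k70 k204 10 (.d k71 k68 k139 0 9)))))), (.s k1 k2 0 (.s k87 k171 13 (.s k19 k155 9 (.s k51 k35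
  3 (.s k17 k34 4 (.s k33 k49 3 (.d k18 k16 k48 0 4)))))))] (.c k139 (.q k195 [(.s k1 k2 0 (.s k65
  k130 8 (.s k129 k193 7 (.s k67 k131 7 (.d k66 k64 k192 0 8))))), (.s k215 k235 5 (.s k207 k239 3
  (.s k199 k203 1 (.s k231 k247 3 (.d k219 k211 k243 1 5)))))] .n) (.c k239 (.q k195 [(.s k1 k2 0
  (.s k65 k130 8 (.s k129 k193 7 (.s k67 k131 7 (.d k66 k64 k192 0 8))))), (.s k87 k171 13 (.s k19
  k155 9 (.s k215 k235 5 (.s k211 k219 1 (.s k83 k147 7 (.d k243 k227 k163 3 11))))))] .n) .n))) (.c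
  k239 (.q k195 [(.s k1 k2 0 (.s k65 k130 8 (.s k129 k193 7 (.s k67 k131 7 (.d k66 k64 k192 0
  8))))), (.s k87 k171 13 (.s k19 k155 9 (.s k215 k235 5 (.s k211 k219 1 (.s k83 k147 7 (.d k243
  k227 k163 3 11))))))] (.c k122 (.q k181 [(.s k1 k2 0 (.s k65 k130 8 (.s k129 k193 7 (.s k67 k131 7
  (.d k66 k64 k192 0 8))))), (.s k87 k171 13 (.s k19 k155 9 (.s k215 k235 5 (.s k211 k219 1 (.s k83
  k147 7 (.d k243 k227 k163 3 11))))))] .n) (.c k181 (.q k122 [(.s k1 k2 0 (.s k65 k130 8 (.s k129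
  k193 7 (.s k67 k131 7 (.d k66 k64 k192 0 8))))), (.s k87 k171 13 (.s k19 k155 9 (.s k215 k235 5
  (.s k211 k219 1 (.s k83 k147 7 (.d k243 k227 k163 3 11))))))] .n) .n))) .n)))))

def t85_241 : T TT 256 :=
  (.f k87 k171 13 (.f k1 k2 0 (.q k51 [(.s k19 k35 3 (.s k119 k187 9 (.s k103 k71 3 (.d k155 k223
  k207 9 13)))), (.s k17 k34 4 (.s k33 k49 3 (.s k18 k48 4 (.d k19 k16 k35 0 3))))] (.c k19 (.q k243
  [(.s k83 k163 11 (.s k247 k251 1 (.s k167 k7 11 (.d k91 k95 k15 1 13)))), (.s k17 k34 4 (.s k81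
  k162 12 (.s k145 k209 7 (.s k98 k192 12 (.d k115 k64 k179 4 7)))))] .n) (.c k35 (.l (.s k17 k34 4
  (.s k33 k49 3 (.s k18 k48 4 (.s k19 k16 0 (.s k119 k187 9 (.s k103 k71 3 (.d k155 k223 k207 9
  13)))))))) .n)))))

def t85_242 : T TT 256 :=
  (.f k87 k171 13 (.q k51 [(.s k19 k35 3 (.s k119 k187 9 (.s k103 k71 3 (.d k155 k223 k207 9 13)))),
  (.s k1 k2 0 (.s k17 k34 4 (.s k33 k49 3 (.s k18 k48 4 (.d k19 k16 k35 0 3)))))] (.c k19 (.q k243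
  [(.s k83 k163 11 (.s k247 k251 1 (.s k167 k7 11 (.d k91 k95 k15 1 13)))), (.s k17 k34 4 (.s k81
  k162 12 (.s k145 k209 7 (.s k98 k192 12 (.d k115 k64 k179 4 7)))))] .n) (.c k35 (.f k1 k2 0 (.l
  (.s k17 k34 4 (.s k33 k49 3 (.s k18 k48 4 (.s k19 k16 0 (.s k119 k187 9 (.s k103 k71 3 (.d k155
  k223 k207 9 13))))))))) .n))))

def t85_243 : T TT 256 :=
  (.f k1 k2 0 (.f k87 k171 13 (.q k51 [(.s k19 k35 3 (.s k119 k187 9 (.s k103 k71 3 (.d k155 k223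
  k207 9 13)))), (.s k17 k34 4 (.s k33 k49 3 (.s k18 k48 4 (.d k19 k16 k35 0 3))))] (.c k19 (.q k103
  [(.d k119 k71 k187 3 9), (.s k17 k34 4 (.s k49 k33 3 (.s k207 k155 13 (.s k69 k138 10 (.s k205
  k137 9 (.s k101 k153 13 (.d k48 k50 k154 0 14)))))))] (.c k123 (.q k183 [(.d k119 k71 k187 3 9),
  (.s k17 k34 4 (.s k49 k33 3 (.s k207 k155 13 (.s k69 k138 10 (.s k205 k137 9 (.s k101 k153 13 (.d
  k48 k50 k154 0 14)))))))] (.c k187 (.l (.s k71 k119 3 (.d k207 k139 k155 9 13))) .n)) (.c k183 (.q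
  k123 [(.d k119 k71 k187 3 9), (.s k17 k34 4 (.s k49 k33 3 (.s k207 k155 13 (.s k69 k138 10 (.s
  k205 k137 9 (.s k101 k153 13 (.d k48 k50 k154 0 14)))))))] (.c k187 (.l (.s k71 k119 3 (.d k207
  k139 k155 9 13))) .n)) (.c k187 (.l (.s k71 k119 3 (.d k207 k139 k155 9 13))) .n)))) (.c k35 (.l
  (.s k17 k34 4 (.s k33 k49 3 (.s k18 k48 4 (.s k19 k16 0 (.s k119 k187 9 (.s k103 k71 3 (.d k155
  k223 k207 9 13)))))))) (.c k123 (.q k183 [(.s k17 k34 4 (.s k33 k49 3 (.s k19 k35 3 (.d k18 k16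
  k48 0 4)))), (.s k119 k187 9 (.s k247 k55 7 (.s k7 k167 11 (.s k15 k11 1 (.s k5 k10 2 (.s k9 k13 1
  (.d k6 k4 k12 0 2)))))))] .n) (.c k183 (.q k123 [(.s k17 k34 4 (.s k33 k49 3 (.s k19 k35 3 (.d k18
  k16 k48 0 4)))), (.s k119 k187 9 (.s k127 k115 1 (.s k67 k107 5 (.s k195 k131 7 (.s k65 k130 8 (.s
  k129 k193 7 (.d k66 k64 k192 0 8)))))))] .n) .n)))))))

def t85_244 : T TT 256 :=
  (.f k1 k2 0 (.f k87 k171 13 (.q k51 [(.s k19 k35 3 (.s k119 k187 9 (.s k103 k71 3 (.d k155 k223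
  k207 9 13)))), (.s k17 k34 4 (.s k33 k49 3 (.s k18 k48 4 (.d k19 k16 k35 0 3))))] (.c k19 (.q k103
  [(.d k119 k71 k187 3 9), (.s k17 k34 4 (.s k49 k33 3 (.s k207 k155 13 (.s k69 k138 10 (.s k205
  k137 9 (.s k101 k153 13 (.d k48 k50 k154 0 14)))))))] (.c k187 (.l (.s k71 k119 3 (.d k207 k139
  k155 9 13))) .n)) (.c k35 (.l (.s k17 k34 4 (.s k33 k49 3 (.s k18 k48 4 (.s k19 k16 0 (.s k119
  k187 9 (.s k103 k71 3 (.d k155 k223 k207 9 13)))))))) .n)))))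

def t85_245 : T TT 256 :=
  (.f k1 k2 0 (.f k87 k171 13 (.q k5 [(.s k10 k15 2 (.s k9 k13 1 (.s k12 k6 2 (.d k8 k11 k4 0 1)))),
  (.s k15 k10 2 (.s k95 k175 11 (.s k91 k83 1 (.s k167 k243 13 (.d k7 k11 k247 1 11)))))] (.c k6 (.l
  (.s k13 k9 1 (.s k15 k10 2 (.s k14 k12 0 (.s k95 k175 11 (.s k91 k83 1 (.s k167 k243 13 (.d k7 k11
  k247 1 11)))))))) (.c k10 (.l (.s k9 k13 1 (.s k6 k12 2 (.s k7 k4 0 (.s k15 k11 1 (.s k95 k175 11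
  (.s k91 k83 1 (.d k167 k247 k243 11 13)))))))) (.c k11 (.l (.s k15 k10 2 (.s k9 k13 1 (.s k6 k12 2
  (.s k7 k4 0 (.s k95 k175 11 (.s k91 k83 1 (.d k167 k247 k243 11 13)))))))) (.c k14 (.l (.s k10 k15
  2 (.s k9 k13 1 (.s k12 k6 2 (.d k8 k11 k4 0 1))))) (.c k15 (.q k51 [(.s k19 k35 3 (.s k119 k187 9
  (.s k103 k71 3 (.d k155 k223 k207 9 13)))), (.s k17 k34 4 (.s k9 k13 1 (.s k12 k6 2 (.s k25 k38 6
  (.s k41 k57 3 (.d k21 k29 k61 1 5))))))] (.c k31 (.q k47 [(.s k19 k35 3 (.s k119 k187 9 (.s k103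
  k71 3 (.d k155 k223 k207 9 13)))), (.s k17 k34 4 (.s k9 k13 1 (.s k12 k6 2 (.s k25 k38 6 (.s k41
  k57 3 (.d k21 k29 k61 1 5))))))] .n) (.c k47 (.q k31 [(.s k19 k35 3 (.s k119 k187 9 (.s k103 k71 3
  (.d k155 k223 k207 9 13)))), (.s k17 k34 4 (.s k9 k13 1 (.s k12 k6 2 (.s k25 k38 6 (.s k41 k57 3
  (.d k21 k29 k61 1 5))))))] .n) .n))) .n))))))))

def t85_246 : T TT 256 :=
  (.f k1 k2 0 (.f k87 k171 13 (.q k51 [(.s k19 k35 3 (.s k119 k187 9 (.s k103 k71 3 (.d k155 k223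
  k207 9 13)))), (.s k17 k34 4 (.s k33 k49 3 (.s k18 k48 4 (.d k19 k16 k35 0 3))))] (.c k19 (.q k103
  [(.d k119 k71 k187 3 9), (.s k17 k34 4 (.s k49 k33 3 (.s k207 k155 13 (.s k69 k138 10 (.s k205
  k137 9 (.s k101 k153 13 (.d k48 k50 k154 0 14)))))))] (.c k187 (.l (.s k71 k119 3 (.d k207 k139
  k155 9 13))) .n)) (.c k35 (.l (.s k17 k34 4 (.s k33 k49 3 (.s k18 k48 4 (.s k19 k16 0 (.s k119
  k187 9 (.s k103 k71 3 (.d k155 k223 k207 9 13)))))))) .n)))))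

def t85_247 : T TT 256 :=
  (.f k1 k2 0 (.f k87 k171 13 (.q k51 [(.s k19 k35 3 (.s k119 k187 9 (.s k103 k71 3 (.d k155 k223
  k207 9 13)))), (.s k17 k34 4 (.s k33 k49 3 (.s k18 k48 4 (.d k19 k16 k35 0 3))))] (.c k4 (.q k166
  [(.s k19 k35 3 (.s k119 k187 9 (.s k103 k71 3 (.d k155 k223 k207 9 13)))), (.s k17 k34 4 (.s k33
  k49 3 (.s k18 k48 4 (.d k19 k16 k35 0 3))))] (.c k19 (.q k103 [(.d k119 k71 k187 3 9), (.s k17 k34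
  4 (.s k49 k33 3 (.s k207 k155 13 (.s k69 k138 10 (.s k205 k137 9 (.s k101 k153 13 (.d k48 k50 k154
  0 14)))))))] (.c k187 (.l (.s k71 k119 3 (.d k207 k139 k155 9 13))) .n)) (.c k35 (.l (.s k17 k34 4
  (.s k33 k49 3 (.s k18 k48 4 (.s k19 k16 0 (.s k119 k187 9 (.s k103 k71 3 (.d k155 k223 k207 9
  13)))))))) .n))) (.c k19 (.q k103 [(.d k119 k71 k187 3 9), (.s k17 k34 4 (.s k49 k33 3 (.s k207
  k155 13 (.s k69 k138 10 (.s k205 k137 9 (.s k101 k153 13 (.d k48 k50 k154 0 14)))))))] (.c k4 (.q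
  k166 [(.d k119 k71 k187 3 9), (.s k17 k34 4 (.s k49 k33 3 (.s k207 k155 13 (.s k69 k138 10 (.s
  k205 k137 9 (.s k101 k153 13 (.d k48 k50 k154 0 14)))))))] (.c k187 (.l (.s k71 k119 3 (.d k207
  k139 k155 9 13))) .n)) (.c k166 (.q k4 [(.d k119 k71 k187 3 9), (.s k12 k8 1 (.s k17 k34 4 (.s k49
  k33 3 (.s k9 k6 2 (.s k13 k5 1 (.d k25 k37 k38 5 6))))))] .n) (.c k187 (.l (.s k71 k119 3 (.d k207
  k139 k155 9 13))) .n)))) (.c k35 (.l (.s k17 k34 4 (.s k33 k49 3 (.s k18 k48 4 (.s k19 k16 0 (.s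
  k119 k187 9 (.s k103 k71 3 (.d k155 k223 k207 9 13)))))))) (.c k166 (.q k4 [(.s k19 k35 3 (.s k119
  k187 9 (.s k103 k71 3 (.d k155 k223 k207 9 13)))), (.s k12 k8 1 (.s k17 k34 4 (.s k9 k6 2 (.s k13
  k5 1 (.s k25 k38 6 (.d k49 k33 k37 3 5))))))] .n) .n)))))))

def t85_248 : T TT 256 :=
  (.f k87 k171 13 (.f k1 k2 0 (.q k51 [(.s k19 k35 3 (.s k119 k187 9 (.s k103 k71 3 (.d k155 k223
  k207 9 13)))), (.s k17 k34 4 (.s k33 k49 3 (.s k18 k48 4 (.d k19 k16 k35 0 3))))] (.c k19 (.q k5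
  [(.s k10 k15 2 (.s k9 k13 1 (.s k12 k6 2 (.d k8 k11 k4 0 1)))), (.s k15 k10 2 (.s k95 k175 11 (.s
  k91 k83 1 (.s k167 k243 13 (.d k7 k11 k247 1 11))))), (.s k17 k34 4 (.s k13 k9 1 (.s k49 k33 3 (.s
  k25 k37 5 (.s k12 k38 6 (.d k15 k14 k10 0 2))))))] (.c k10 (.l (.s k9 k13 1 (.s k6 k12 2 (.s k7 k4
  0 (.s k15 k11 1 (.s k95 k175 11 (.s k91 k83 1 (.d k167 k247 k243 11 13)))))))) (.c k14 (.l (.s k10
  k15 2 (.s k9 k13 1 (.s k12 k6 2 (.d k8 k11 k4 0 1))))) (.c k15 (.l (.s k17 k34 4 (.s k9 k13 1 (.s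
  k12 k6 2 (.s k25 k38 6 (.s k41 k57 3 (.d k21 k29 k61 1 5))))))) .n)))) (.c k35 (.l (.s k17 k34 4
  (.s k33 k49 3 (.s k18 k48 4 (.s k19 k16 0 (.s k119 k187 9 (.s k103 k71 3 (.d k155 k223 k207 9
  13)))))))) .n)))))

def t85_249 : T TT 256 :=
  (.f k1 k2 0 (.f k87 k171 13 (.q k51 [(.s k19 k35 3 (.s k119 k187 9 (.s k103 k71 3 (.d k155 k223
  k207 9 13)))), (.s k17 k34 4 (.s k33 k49 3 (.s k18 k48 4 (.d k19 k16 k35 0 3))))] (.c k19 (.q k103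
  [(.d k119 k71 k187 3 9), (.s k17 k34 4 (.s k49 k33 3 (.s k207 k155 13 (.s k69 k138 10 (.s k205
  k137 9 (.s k101 k153 13 (.d k48 k50 k154 0 14)))))))] (.c k187 (.l (.s k71 k119 3 (.d k207 k139
  k155 9 13))) .n)) (.c k35 (.l (.s k17 k34 4 (.s k33 k49 3 (.s k18 k48 4 (.s k19 k16 0 (.s k119
  k187 9 (.s k103 k71 3 (.d k155 k223 k207 9 13)))))))) .n)))))

def t85_250 : T TT 256 :=
  (.f k87 k171 13 (.f k1 k2 0 (.q k51 [(.s k19 k35 3 (.s k119 k187 9 (.s k103 k71 3 (.d k155 k223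
  k207 9 13)))), (.s k17 k34 4 (.s k33 k49 3 (.s k18 k48 4 (.d k19 k16 k35 0 3))))] (.c k19 (.q k5
  [(.s k10 k15 2 (.s k9 k13 1 (.s k12 k6 2 (.d k8 k11 k4 0 1)))), (.s k15 k10 2 (.s k95 k175 11 (.s
  k91 k83 1 (.s k167 k243 13 (.d k7 k11 k247 1 11))))), (.s k17 k34 4 (.s k13 k9 1 (.s k49 k33 3 (.s
  k25 k37 5 (.s k12 k38 6 (.d k15 k14 k10 0 2))))))] (.c k10 (.l (.s k9 k13 1 (.s k6 k12 2 (.s k7 k4
  0 (.s k15 k11 1 (.s k95 k175 11 (.s k91 k83 1 (.d k167 k247 k243 11 13)))))))) (.c k14 (.l (.s k10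
  k15 2 (.s k9 k13 1 (.s k12 k6 2 (.d k8 k11 k4 0 1))))) (.c k15 (.l (.s k17 k34 4 (.s k9 k13 1 (.s
  k12 k6 2 (.s k25 k38 6 (.s k41 k57 3 (.d k21 k29 k61 1 5))))))) .n)))) (.c k35 (.l (.s k17 k34 4
  (.s k33 k49 3 (.s k18 k48 4 (.s k19 k16 0 (.s k119 k187 9 (.s k103 k71 3 (.d k155 k223 k207 9
  13)))))))) .n)))))

def t85_251 : T TT 256 :=
  (.f k1 k2 0 (.f k87 k171 13 (.q k51 [(.s k17 k34 4 (.s k33 k49 3 (.s k18 k48 4 (.d k19 k16 k35 0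
  3)))), (.s k19 k35 3 (.s k119 k187 9 (.s k103 k71 3 (.d k155 k223 k207 9 13))))] (.c k11 (.q k91
  [(.s k17 k34 4 (.s k33 k49 3 (.s k18 k48 4 (.d k19 k16 k35 0 3)))), (.s k119 k187 9 (.s k103 k71 3
  (.s k115 k79 5 (.s k243 k179 7 (.d k83 k95 k163 1 11)))))] .n) (.c k19 (.q k91 [(.s k95 k83 1 (.s
  k15 k175 11 (.s k7 k11 1 (.d k167 k247 k243 11 13)))), (.s k119 k187 9 (.s k103 k71 3 (.s k115 k79
  5 (.s k243 k179 7 (.d k83 k95 k163 1 11))))), (.s k119 k187 9 (.s k103 k71 3 (.s k155 k207 13 (.s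
  k27 k219 7 (.s k15 k39 5 (.s k7 k11 1 (.d k167 k243 k247 13 11)))))))] (.c k243 (.l (.s k119 k187
  9 (.s k103 k71 3 (.s k155 k207 13 (.s k95 k83 1 (.s k15 k175 11 (.d k27 k219 k39 7 5))))))) .n))
  (.c k35 (.l (.s k17 k34 4 (.s k33 k49 3 (.s k18 k48 4 (.s k19 k16 0 (.s k119 k187 9 (.s k103 k71 3
  (.d k155 k223 k207 9 13)))))))) (.c k91 (.q k11 [(.s k17 k34 4 (.s k33 k49 3 (.s k18 k48 4 (.d k19
  k16 k35 0 3)))), (.s k19 k35 3 (.s k119 k187 9 (.s k103 k71 3 (.d k155 k223 k207 9 13))))] (.c k19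
  (.l (.s k17 k34 4 (.s k49 k33 3 (.s k15 k7 1 (.s k5 k10 2 (.s k13 k9 1 (.s k25 k37 5 (.d k12 k14
  k38 0 6)))))))) (.c k35 (.l (.s k17 k34 4 (.s k33 k49 3 (.s k18 k48 4 (.s k19 k16 0 (.s k119 k187
  9 (.s k103 k71 3 (.d k155 k223 k207 9 13)))))))) .n))) .n)))))))

def t85_252 : T TT 256 :=
  (.f k87 k171 13 (.f k1 k2 0 (.q k243 [(.s k83 k163 11 (.s k247 k251 1 (.s k167 k7 11 (.d k91 k95
  k15 1 13)))), (.s k81 k162 12 (.s k161 k241 11 (.s k82 k240 12 (.d k83 k80 k163 0 11))))] (.c k83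
  (.q k51 [(.s k19 k35 3 (.s k119 k187 9 (.s k103 k71 3 (.d k155 k223 k207 9 13)))), (.s k17 k34 4
  (.s k81 k162 12 (.s k145 k209 7 (.s k98 k192 12 (.d k115 k64 k179 4 7)))))] (.c k126 (.q k189 [(.s
  k19 k35 3 (.s k119 k187 9 (.s k103 k71 3 (.d k155 k223 k207 9 13)))), (.s k17 k34 4 (.s k81 k162
  12 (.s k145 k209 7 (.s k98 k192 12 (.d k115 k64 k179 4 7)))))] .n) (.c k189 (.q k126 [(.s k19 k35
  3 (.s k119 k187 9 (.s k103 k71 3 (.d k155 k223 k207 9 13)))), (.s k17 k34 4 (.s k81 k162 12 (.s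
  k145 k209 7 (.s k98 k192 12 (.d k115 k64 k179 4 7)))))] .n) .n))) (.c k126 (.q k189 [(.s k83 k163
  11 (.s k247 k251 1 (.s k167 k7 11 (.d k91 k95 k15 1 13)))), (.s k81 k162 12 (.s k161 k241 11 (.s
  k82 k240 12 (.d k83 k80 k163 0 11))))] (.c k83 (.q k51 [(.s k19 k35 3 (.s k119 k187 9 (.s k103 k71
  3 (.d k155 k223 k207 9 13)))), (.s k17 k34 4 (.s k81 k162 12 (.s k145 k209 7 (.s k98 k192 12 (.d
  k115 k64 k179 4 7)))))] .n) (.c k163 (.l (.s k81 k162 12 (.s k161 k241 11 (.s k82 k240 12 (.s k83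
  k80 0 (.s k247 k251 1 (.s k167 k7 11 (.d k91 k95 k15 1 13)))))))) .n))) (.c k163 (.l (.s k81 k162
  12 (.s k161 k241 11 (.s k82 k240 12 (.s k83 k80 0 (.s k247 k251 1 (.s k167 k7 11 (.d k91 k95 k15 1
  13)))))))) (.c k189 (.q k126 [(.s k83 k163 11 (.s k247 k251 1 (.s k167 k7 11 (.d k91 k95 k15 1
  13)))), (.s k81 k162 12 (.s k161 k241 11 (.s k82 k240 12 (.d k83 k80 k163 0 11))))] (.c k83 (.q
  k51 [(.s k19 k35 3 (.s k119 k187 9 (.s k103 k71 3 (.d k155 k223 k207 9 13)))), (.s k17 k34 4 (.s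
  k81 k162 12 (.s k145 k209 7 (.s k98 k192 12 (.d k115 k64 k179 4 7)))))] .n) (.c k163 (.l (.s k81
  k162 12 (.s k161 k241 11 (.s k82 k240 12 (.s k83 k80 0 (.s k247 k251 1 (.s k167 k7 11 (.d k91 k95
  k15 1 13)))))))) .n))) .n)))))))

def t85_253 : T TT 256 :=
  (.f k1 k2 0 (.f k87 k171 13 (.q k51 [(.s k19 k35 3 (.s k119 k187 9 (.s k103 k71 3 (.d k155 k223
  k207 9 13)))), (.s k17 k34 4 (.s k33 k49 3 (.s k18 k48 4 (.d k19 k16 k35 0 3))))] (.c k19 (.q k91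
  [(.s k83 k95 1 (.s k243 k163 11 (.s k247 k251 1 (.d k167 k7 k15 11 13)))), (.s k119 k187 9 (.s
  k103 k71 3 (.s k115 k79 5 (.s k243 k179 7 (.d k83 k95 k163 1 11))))), (.s k119 k187 9 (.s k103 k71
  3 (.s k115 k79 5 (.s k243 k179 7 (.s k167 k15 13 (.d k247 k251 k7 1 11))))))] (.c k243 (.l (.s
  k119 k187 9 (.s k103 k71 3 (.s k155 k207 13 (.s k95 k83 1 (.s k15 k175 11 (.d k27 k219 k39 7
  5))))))) .n)) (.c k35 (.l (.s k17 k34 4 (.s k33 k49 3 (.s k18 k48 4 (.s k19 k16 0 (.s k119 k187 9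
  (.s k103 k71 3 (.d k155 k223 k207 9 13)))))))) .n)))))

def t85_254 : T TT 256 :=
  (.q k223 [(.s k87 k171 13 (.s k155 k19 9 (.s k207 k239 3 (.s k71 k139 9 (.d k103 k119 k51 3
  13))))), (.s k1 k2 0 (.s k207 k239 3 (.s k69 k138 10 (.s k137 k205 9 (.s k70 k204 10 (.d k71 k68
  k139 0 9)))))), (.s k1 k2 0 (.s k87 k171 13 (.s k19 k155 9 (.s k51 k35 3 (.s k17 k34 4 (.s k33 k49
  3 (.d k18 k16 k48 0 4)))))))] (.c k139 (.q k195 [(.s k1 k2 0 (.s k65 k130 8 (.s k129 k193 7 (.s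
  k66 k192 8 (.d k67 k64 k131 0 7))))), (.s k215 k235 5 (.s k207 k239 3 (.s k199 k203 1 (.s k231
  k247 3 (.d k219 k211 k243 1 5)))))] .n) (.c k239 (.q k195 [(.s k1 k2 0 (.s k65 k130 8 (.s k129
  k193 7 (.s k67 k131 7 (.d k66 k64 k192 0 8))))), (.s k87 k171 13 (.s k19 k155 9 (.s k215 k235 5
  (.s k211 k219 1 (.s k83 k147 7 (.d k243 k227 k163 3 11))))))] .n) .n)))

def t85 : T TT 256 :=
  (.q k3 [] (.c k1 t85_1 (.c k2 t85_2 (.c k4 t85_4 (.c k5 t85_5 (.c k6 t85_6 (.c k7 t85_7 (.c k8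
  t85_8 (.c k9 t85_9 (.c k10 t85_10 (.c k11 t85_11 (.c k12 t85_12 (.c k13 t85_13 (.c k14 t85_14 (.c
  k15 t85_15 (.c k16 t85_16 (.c k17 t85_17 (.c k18 t85_18 (.c k19 t85_19 (.c k20 t85_20 (.c k21
  t85_21 (.c k22 t85_22 (.c k23 t85_23 (.c k24 t85_24 (.c k25 t85_25 (.c k26 t85_26 (.c k27 t85_27
  (.c k28 t85_28 (.c k29 t85_29 (.c k30 t85_30 (.c k31 t85_31 (.c k32 t85_32 (.c k33 t85_33 (.c k34
  t85_34 (.c k35 t85_35 (.c k36 t85_36 (.c k37 t85_37 (.c k38 t85_38 (.c k39 t85_39 (.c k40 t85_40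
  (.c k41 t85_41 (.c k42 t85_42 (.c k43 t85_43 (.c k44 t85_44 (.c k45 t85_45 (.c k46 t85_46 (.c k47
  t85_47 (.c k48 t85_48 (.c k49 t85_49 (.c k50 t85_50 (.c k51 t85_51 (.c k52 t85_52 (.c k53 t85_53
  (.c k54 t85_54 (.c k55 t85_55 (.c k56 t85_56 (.c k57 t85_57 (.c k58 t85_58 (.c k59 t85_59 (.c k60
  t85_60 (.c k61 t85_61 (.c k62 t85_62 (.c k64 t85_64 (.c k65 t85_65 (.c k66 t85_66 (.c k67 t85_67
  (.c k68 t85_68 (.c k69 t85_69 (.c k70 t85_70 (.c k71 t85_71 (.c k72 t85_72 (.c k73 t85_73 (.c k74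
  t85_74 (.c k75 t85_75 (.c k76 t85_76 (.c k77 t85_77 (.c k78 t85_78 (.c k79 t85_79 (.c k80 t85_80
  (.c k81 t85_81 (.c k82 t85_82 (.c k83 t85_83 (.c k84 t85_84 (.c k86 t85_86 (.c k87 t85_87 (.c k88
  t85_88 (.c k89 t85_89 (.c k90 t85_90 (.c k91 t85_91 (.c k92 t85_92 (.c k93 t85_93 (.c k94 t85_94
  (.c k95 t85_95 (.c k96 t85_96 (.c k97 t85_97 (.c k98 t85_98 (.c k99 t85_99 (.c k100 t85_100 (.c
  k101 t85_101 (.c k102 t85_102 (.c k103 t85_103 (.c k104 t85_104 (.c k105 t85_105 (.c k106 t85_106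
  (.c k107 t85_107 (.c k108 t85_108 (.c k109 t85_109 (.c k110 t85_110 (.c k111 t85_111 (.c k112
  t85_112 (.c k113 t85_113 (.c k114 t85_114 (.c k115 t85_115 (.c k116 t85_116 (.c k117 t85_117 (.c
  k118 t85_118 (.c k119 t85_119 (.c k120 t85_120 (.c k121 t85_121 (.c k122 t85_122 (.c k123 t85_123
  (.c k124 t85_124 (.c k125 t85_125 (.c k126 t85_126 (.c k127 t85_127 (.c k128 t85_128 (.c k129
  t85_129 (.c k130 t85_130 (.c k131 t85_131 (.c k132 t85_132 (.c k133 t85_133 (.c k134 t85_134 (.c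
  k135 t85_135 (.c k136 t85_136 (.c k137 t85_137 (.c k138 t85_138 (.c k139 t85_139 (.c k140 t85_140
  (.c k141 t85_141 (.c k142 t85_142 (.c k143 t85_143 (.c k144 t85_144 (.c k145 t85_145 (.c k146
  t85_146 (.c k147 t85_147 (.c k148 t85_148 (.c k149 t85_149 (.c k150 t85_150 (.c k151 t85_151 (.c
  k152 t85_152 (.c k153 t85_153 (.c k154 t85_154 (.c k155 t85_155 (.c k156 t85_156 (.c k157 t85_157
  (.c k158 t85_158 (.c k159 t85_159 (.c k160 t85_160 (.c k161 t85_161 (.c k162 t85_162 (.c k163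
  t85_163 (.c k164 t85_164 (.c k165 t85_165 (.c k166 t85_166 (.c k167 t85_167 (.c k168 t85_168 (.c
  k169 t85_169 (.c k170 t85_170 (.c k171 t85_171 (.c k172 t85_172 (.c k173 t85_173 (.c k174 t85_174
  (.c k175 t85_175 (.c k176 t85_176 (.c k177 t85_177 (.c k178 t85_178 (.c k179 t85_179 (.c k180
  t85_180 (.c k181 t85_181 (.c k182 t85_182 (.c k183 t85_183 (.c k184 t85_184 (.c k185 t85_185 (.c
  k186 t85_186 (.c k187 t85_187 (.c k188 t85_188 (.c k189 t85_189 (.c k190 t85_190 (.c k191 t85_191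
  (.c k192 t85_192 (.c k193 t85_193 (.c k194 t85_194 (.c k195 t85_195 (.c k196 t85_196 (.c k197
  t85_197 (.c k198 t85_198 (.c k199 t85_199 (.c k200 t85_200 (.c k201 t85_201 (.c k202 t85_202 (.c
  k203 t85_203 (.c k204 t85_204 (.c k205 t85_205 (.c k206 t85_206 (.c k207 t85_207 (.c k208 t85_208
  (.c k209 t85_209 (.c k210 t85_210 (.c k211 t85_211 (.c k212 t85_212 (.c k213 t85_213 (.c k214
  t85_214 (.c k215 t85_215 (.c k216 t85_216 (.c k217 t85_217 (.c k218 t85_218 (.c k219 t85_219 (.c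
  k220 t85_220 (.c k221 t85_221 (.c k222 t85_222 (.c k223 t85_223 (.c k224 t85_224 (.c k225 t85_225
  (.c k226 t85_226 (.c k227 t85_227 (.c k228 t85_228 (.c k229 t85_229 (.c k230 t85_230 (.c k231
  t85_231 (.c k232 t85_232 (.c k233 t85_233 (.c k234 t85_234 (.c k235 t85_235 (.c k236 t85_236 (.c
  k237 t85_237 (.c k238 t85_238 (.c k239 t85_239 (.c k240 t85_240 (.c k241 t85_241 (.c k242 t85_242
  (.c k243 t85_243 (.c k244 t85_244 (.c k245 t85_245 (.c k246 t85_246 (.c k247 t85_247 (.c k248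
  t85_248 (.c k249 t85_249 (.c k250 t85_250 (.c k251 t85_251 (.c k252 t85_252 (.c k253 t85_253 (.c
  k254 t85_254 .n))))))))))))))))))))))))))))))))))))))))))))))))))))))))))))))))))))))))))))))))
  ))))))))))))))))))))))))))))))))))))))))))))))))))))))))))))))))))))))))))))))))
  )))))))))))))))))))))))))))))))))))))))))))))))))))))))))))))))))))))))))))))))) ))))))))))))

theorem c85 : rootOK2 k255 k63 k85 t85 = true := by decide +kernel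

def l : List Nat :=
  [k85.c]

theorem ok : AllQ k255.c k63.c l :=
  allQ_cons c85 (allQ_nil _ _)

end Pool.Agent.TTT.E03
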