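import Pool.Agent.TTT.Sym2

set_option autoImplicit false
set_option maxRecDepth 100000

namespace Pool.Agent.TTT.E04

def t86 : T TT 256 :=
  (.q k204 [(.s k68 k136 9 (.s k85 k170 14 (.s k102 k119 4 (.s k221 k238 4 (.d k153 k17 k51 9
  14))))), (.s k136 k68 9 (.s k170 k85 14 (.s k153 k187 4 (.s k102 k51 14 (.d k238 k221 k34 4
  9)))))] (.c k51 (.f k68 k136 9 (.q k192 [(.s k64 k128 7 (.s k72 k76 1 (.s k196 k200 1 (.d k132 k4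
  k12 7 9)))), (.s k85 k170 14 (.s k102 k119 4 (.s k213 k234 6 (.s k149 k21 7 (.d k196 k55 k200 12
  1))))), (.s k64 k128 7 (.s k85 k170 14 (.s k72 k76 1 (.s k106 k127 6 (.s k89 k123 4 (.s k93 k81 1
  (.d k12 k132 k174 9 12)))))))] (.c k55 (.q k59 [(.s k64 k128 7 (.s k72 k76 1 (.s k132 k12 9 (.d
  k196 k200 k4 1 7)))), (.s k85 k170 14 (.s k200 k196 1 (.s k153 k106 12 (.d k221 k238 k17 4 9)))),
  (.s k64 k128 7 (.s k85 k170 14 (.s k72 k76 1 (.s k106 k127 6 (.s k89 k123 4 (.s k93 k81 1 (.d k12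
  k132 k174 9 12)))))))] .n) (.c k59 (.q k55 [(.s k85 k170 14 (.s k102 k119 4 (.d k196 k200 k149 1
  12))), (.s k64 k128 7 (.s k72 k76 1 (.s k132 k12 9 (.d k196 k200 k4 1 7))))] (.c k196 (.l (.s k64
  k128 7 (.s k85 k170 14 (.s k76 k72 1 (.s k127 k106 6 (.s k93 k110 4 (.d k12 k140 k174 7 12)))))))
  (.c k200 (.l (.s k85 k170 14 (.s k102 k119 4 (.s k149 k196 12 (.d k213 k234 k21 6 7))))) .n)))
  .n)))) (.c k68 (.q k192 [(.s k196 k200 1 (.s k213 k234 6 (.s k230 k247 4 (.s k221 k238 4 (.d k217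
  k209 k243 1 6))))), (.s k128 k64 7 (.s k170 k85 14 (.s k149 k191 6 (.s k196 k200 1 (.s k102 k55 12
  (.s k34 k238 9 (.d k51 k17 k153 4 14))))))), (.s k85 k170 14 (.s k213 k234 6 (.s k149 k21 7 (.s
  k221 k238 4 (.s k153 k17 9 (.s k145 k157 1 (.d k51 k102 k98 14 12)))))))] (.c k238 (.l (.s k64
  k128 7 (.s k85 k170 14 (.s k106 k127 6 (.s k200 k196 1 (.s k153 k59 12 (.s k17 k221 9 (.d k51 k34
  k102 4 14)))))))) .n)) (.c k85 (.f k68 k136 9 (.q k192 [(.s k64 k128 7 (.s k72 k76 1 (.s k196 k200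
  1 (.d k132 k4 k12 7 9)))), (.s k200 k196 1 (.s k234 k213 6 (.s k217 k251 4 (.s k230 k243 6 (.d
  k238 k226 k221 1 4)))))] (.c k84 (.q k87 [(.s k64 k128 7 (.s k72 k76 1 (.s k196 k200 1 (.d k132 k4
  k12 7 9)))), (.s k3 k171 13 (.s k2 k1 0 (.s k70 k137 10 (.s k138 k206 9 (.d k69 k71 k207 0
  10)))))] .n) (.c k87 (.q k84 [(.s k64 k128 7 (.s k72 k76 1 (.s k196 k200 1 (.d k132 k4 k12 7
  9)))), (.s k168 k252 13 (.s k100 k116 3 (.s k32 k236 9 (.d k48 k16 k152 3 13))))] .n) (.c k196 (.q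
  k84 [(.s k252 k168 13 (.s k220 k236 3 (.s k152 k16 9 (.d k100 k116 k48 3 13)))), (.s k64 k128 7
  (.s k168 k252 13 (.s k104 k124 5 (.s k40 k232 7 (.d k60 k20 k148 5 13))))), (.s k64 k128 7 (.s
  k104 k124 5 (.s k100 k116 3 (.s k96 k108 1 (.d k48 k144 k152 11 13)))))] .n) (.c k200 (.q k84 [(.s
  k252 k168 13 (.s k220 k236 3 (.s k152 k16 9 (.d k100 k116 k48 3 13)))), (.s k64 k128 7 (.s k168
  k252 13 (.s k104 k124 5 (.s k40 k232 7 (.d k60 k20 k148 5 13))))), (.s k64 k128 7 (.s k104 k124 5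
  (.s k100 k116 3 (.s k96 k108 1 (.d k48 k144 k152 11 13)))))] (.c k8 (.q k72 [(.d k64 k76 k128 1
  7), (.s k168 k252 13 (.s k100 k116 3 (.s k32 k236 9 (.d k48 k16 k152 3 13))))] .n) (.c k72 (.q k8
  [(.s k252 k168 13 (.s k220 k236 3 (.s k152 k16 9 (.d k100 k116 k48 3 13)))), (.s k4 k12 1 (.s k196
  k132 7 (.s k244 k164 11 (.s k212 k228 3 (.d k252 k232 k168 5 13))))), (.s k64 k128 7 (.s k104 k124
  5 (.s k100 k116 3 (.s k96 k108 1 (.d k48 k144 k152 11 13)))))] (.c k100 (.l (.s k4 k12 1 (.s k252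
  k168 13 (.s k196 k132 7 (.s k244 k164 11 (.d k212 k228 k232 3 5)))))) .n)) .n))) .n)))))) (.c k102
  (.f k68 k136 9 (.q k192 [(.s k64 k128 7 (.s k196 k200 1 (.s k132 k4 7 (.d k72 k76 k12 1 9)))), (.s
  k200 k196 1 (.s k234 k213 6 (.s k217 k251 4 (.s k230 k243 6 (.d k238 k226 k221 1 4))))), (.s k64
  k128 7 (.s k85 k170 14 (.s k72 k76 1 (.s k106 k127 6 (.s k89 k123 4 (.s k93 k81 1 (.d k12 k132
  k174 9 12)))))))] (.c k70 (.q k118 [(.s k64 k128 7 (.s k196 k200 1 (.s k132 k4 7 (.d k72 k76 k12 1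
  9)))), (.s k200 k196 1 (.s k234 k213 6 (.s k217 k251 4 (.s k230 k243 6 (.d k238 k226 k221 1
  4))))), (.s k64 k128 7 (.s k85 k170 14 (.s k72 k76 1 (.s k106 k127 6 (.s k89 k123 4 (.s k93 k81 1
  (.d k12 k132 k174 9 12)))))))] .n) (.c k118 (.q k70 [(.s k64 k128 7 (.s k196 k200 1 (.s k132 k4 7
  (.d k72 k76 k12 1 9)))), (.s k3 k137 10 (.s k2 k1 0 (.s k138 k206 9 (.d k69 k71 k207 0 10))))] .n)
  .n)))) (.c k119 (.l (.s k136 k68 9 (.s k238 k221 4 (.s k170 k85 14 (.s k102 k34 9 (.d k153 k187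
  k51 4 14)))))) (.c k136 (.q k192 [(.s k200 k196 1 (.s k238 k221 4 (.s k234 k213 6 (.s k230 k226 1
  (.d k217 k251 k243 4 6))))), (.s k128 k64 7 (.s k170 k85 14 (.s k149 k191 6 (.s k196 k200 1 (.s
  k102 k55 12 (.s k34 k238 9 (.d k51 k17 k153 4 14))))))), (.s k85 k170 14 (.s k213 k234 6 (.s k149
  k21 7 (.s k221 k238 4 (.s k153 k17 9 (.s k145 k157 1 (.d k51 k102 k98 14 12)))))))] (.c k238 (.l
  (.s k64 k128 7 (.s k85 k170 14 (.s k106 k127 6 (.s k200 k196 1 (.s k153 k59 12 (.s k17 k221 9 (.d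
  k51 k34 k102 4 14)))))))) .n)) (.c k153 (.q k8 [(.s k12 k4 1 (.s k136 k68 9 (.s k140 k76 7 (.s
  k132 k128 1 (.d k72 k200 k192 7 9))))), (.s k12 k4 1 (.s k170 k85 14 (.s k89 k251 12 (.s k166 k243
  14 (.d k174 k162 k93 1 12))))), (.s k136 k68 9 (.s k170 k85 14 (.s k200 k72 7 (.s k251 k89 12 (.s
  k217 k234 4 (.d k243 k247 k230 1 6))))))] (.c k19 (.q k220 [(.s k12 k4 1 (.s k136 k68 9 (.s k140
  k76 7 (.s k132 k128 1 (.d k72 k200 k192 7 9))))), (.s k68 k136 9 (.s k252 k236 3 (.s k84 k168 13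
  (.s k152 k16 9 (.d k100 k116 k48 3 13))))), (.s k12 k4 1 (.s k170 k85 14 (.s k89 k251 12 (.s k166
  k243 14 (.d k174 k162 k93 1 12)))))] .n) (.c k220 (.q k19 [(.s k12 k4 1 (.s k136 k68 9 (.s k140
  k76 7 (.s k132 k128 1 (.d k72 k200 k192 7 9))))), (.s k12 k4 1 (.s k170 k85 14 (.s k89 k251 12 (.s
  k166 k243 14 (.d k174 k162 k93 1 12))))), (.s k136 k68 9 (.s k170 k85 14 (.s k200 k72 7 (.s k251
  k89 12 (.s k217 k234 4 (.d k243 k247 k230 1 6))))))] .n) .n))) (.c k170 (.q k192 [(.s k128 k64 7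
  (.s k136 k68 9 (.s k132 k140 1 (.s k72 k12 9 (.d k200 k196 k8 1 7))))), (.s k196 k200 1 (.s k213
  k234 6 (.s k230 k247 4 (.s k217 k243 6 (.d k221 k209 k238 1 4)))))] (.c k2 (.q k254 [(.s k128 k64
  7 (.s k136 k68 9 (.s k132 k140 1 (.s k72 k12 9 (.d k200 k196 k8 1 7))))), (.s k234 k213 6 (.s k214
  k194 5 (.s k252 k253 0 (.s k232 k212 5 (.d k233 k235 k195 0 6)))))] .n) (.c k196 (.q k254 [(.s
  k238 k221 4 (.s k222 k206 3 (.s k252 k253 0 (.s k236 k220 3 (.d k237 k239 k207 0 4))))), (.s k234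
  k213 6 (.s k214 k194 5 (.s k252 k253 0 (.s k232 k212 5 (.d k233 k235 k195 0 6))))), (.s k234 k213
  6 (.s k194 k214 5 (.s k238 k221 4 (.s k206 k222 3 (.s k198 k202 1 (.d k195 k193 k201 0 2))))))]
  .n) (.c k200 (.q k254 [(.s k234 k213 6 (.s k214 k194 5 (.s k252 k253 0 (.s k232 k212 5 (.d k233
  k235 k195 0 6))))), (.s k238 k221 4 (.s k222 k206 3 (.s k252 k253 0 (.s k236 k220 3 (.d k237 k239
  k207 0 4))))), (.s k234 k213 6 (.s k194 k214 5 (.s k238 k221 4 (.s k206 k222 3 (.s k198 k202 1 (.d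
  k195 k201 k193 2 0))))))] .n) (.c k254 (.q k2 [(.s k3 k1 0 (.s k64 k128 7 (.s k66 k129 8 (.s k130
  k194 7 (.d k65 k67 k195 0 8))))), (.s k3 k1 0 (.s k68 k136 9 (.s k70 k137 10 (.s k138 k206 9 (.d
  k69 k71 k207 0 10))))), (.s k64 k128 7 (.s k68 k136 9 (.s k72 k76 1 (.s k132 k12 9 (.d k196 k200
  k4 1 7)))))] .n) .n))))) (.c k187 (.l (.s k68 k136 9 (.s k221 k238 4 (.s k85 k170 14 (.s k153 k17
  9 (.d k102 k119 k51 4 14)))))) (.c k221 (.q k192 [(.s k64 k128 7 (.s k68 k136 9 (.s k72 k76 1 (.s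
  k196 k200 1 (.d k132 k4 k12 7 9))))), (.s k128 k64 7 (.s k170 k85 14 (.s k149 k191 6 (.s k196 k200
  1 (.s k102 k55 12 (.s k34 k238 9 (.d k51 k17 k153 4 14))))))), (.s k68 k136 9 (.s k85 k170 14 (.s
  k102 k119 4 (.s k196 k200 1 (.s k149 k55 12 (.d k213 k234 k21 6 7)))))), (.s k64 k128 7 (.s k68
  k136 9 (.s k85 k170 14 (.s k106 k127 6 (.s k102 k119 4 (.s k98 k110 1 (.d k51 k153 k145 14
  12)))))))] .n) (.c k238 (.q k192 [(.s k64 k128 7 (.s k68 k136 9 (.s k72 k76 1 (.s k196 k200 1 (.d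
  k132 k4 k12 7 9))))), (.s k64 k128 7 (.s k85 k170 14 (.s k106 k127 6 (.s k200 k196 1 (.s k153 k59
  12 (.s k17 k221 9 (.d k51 k34 k102 4 14))))))), (.s k68 k136 9 (.s k85 k170 14 (.s k102 k119 4 (.s
  k196 k200 1 (.s k149 k55 12 (.d k213 k234 k21 6 7)))))), (.s k64 k128 7 (.s k68 k136 9 (.s k85
  k170 14 (.s k106 k127 6 (.s k102 k119 4 (.s k98 k110 1 (.d k51 k153 k145 14 12)))))))] .n)
  .n))))))))))))

def t87 : T TT 256 :=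
  (.f k85 k170 14 (.q k12 [(.s k4 k8 1 (.s k93 k174 12 (.s k89 k81 1 (.d k166 k247 k243 12 14))))]
  (.c k4 (.q k48 [(.s k16 k32 3 (.s k154 k223 10 (.s k117 k186 10 (.d k101 k69 k207 3 14)))), (.s
  k24 k36 5 (.s k93 k174 12 (.s k89 k81 1 (.s k154 k219 8 (.d k16 k32 k223 3 10))))), (.s k36 k24 5
  (.s k93 k174 12 (.s k89 k81 1 (.s k166 k243 14 (.s k101 k231 8 (.d k117 k69 k186 3 10))))))] .n)
  (.c k8 (.q k48 [(.s k16 k32 3 (.s k117 k186 10 (.s k101 k69 3 (.d k154 k223 k207 10 14)))), (.s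
  k24 k36 5 (.s k93 k174 12 (.s k89 k81 1 (.s k154 k219 8 (.d k16 k32 k223 3 10))))), (.s k36 k24 5
  (.s k93 k174 12 (.s k89 k81 1 (.s k166 k243 14 (.s k101 k231 8 (.d k117 k69 k186 3 10))))))] (.c
  k89 (.q k251 [(.s k16 k32 3 (.s k117 k186 10 (.s k101 k69 3 (.d k154 k223 k207 10 14)))), (.s k186
  k117 10 (.s k121 k56 8 (.s k243 k247 1 (.s k178 k113 8 (.d k182 k190 k60 1 10))))), (.s k16 k32 3
  (.s k24 k36 5 (.s k93 k174 12 (.s k28 k20 1 (.d k223 k158 k154 8 10)))))] (.c k101 (.l (.s k36 k24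
  5 (.s k117 k186 10 (.s k247 k243 1 (.s k4 k166 12 (.d k52 k20 k182 3 8)))))) .n)) (.c k251 (.q k89
  [(.d k93 k81 k174 1 12), (.s k16 k32 3 (.s k24 k36 5 (.d k154 k219 k223 8 10)))] .n) .n))) (.c k81
  (.q k48 [(.s k16 k32 3 (.s k117 k186 10 (.s k101 k69 3 (.d k154 k223 k207 10 14)))), (.s k4 k8 1
  (.s k32 k16 3 (.s k36 k24 5 (.s k20 k52 3 (.d k40 k44 k60 1 5))))), (.s k4 k8 1 (.s k166 k247 12
  (.s k36 k24 5 (.s k101 k231 8 (.d k117 k69 k186 3 10)))))] .n) (.c k89 (.q k48 [(.s k16 k32 3 (.s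
  k117 k186 10 (.s k101 k69 3 (.d k154 k223 k207 10 14)))), (.s k8 k4 1 (.s k24 k36 5 (.s k40 k56 3
  (.s k20 k60 5 (.d k16 k28 k32 1 3))))), (.s k36 k24 5 (.s k117 k186 10 (.s k101 k69 3 (.s k166
  k231 8 (.d k4 k8 k247 1 12)))))] (.c k8 (.q k251 [(.s k16 k32 3 (.s k117 k186 10 (.s k101 k69 3
  (.d k154 k223 k207 10 14)))), (.s k186 k117 10 (.s k121 k56 8 (.s k243 k247 1 (.s k178 k113 8 (.d
  k182 k190 k60 1 10))))), (.s k16 k32 3 (.s k24 k36 5 (.s k93 k174 12 (.s k28 k20 1 (.d k223 k158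
  k154 8 10)))))] (.c k101 (.l (.s k36 k24 5 (.s k117 k186 10 (.s k247 k243 1 (.s k4 k166 12 (.d k52
  k20 k182 3 8)))))) .n)) (.c k251 (.l (.s k8 k4 1 (.s k16 k32 3 (.s k24 k36 5 (.s k40 k56 3 (.d k20
  k28 k60 1 5)))))) .n))) (.c k93 (.q k48 [(.s k16 k32 3 (.s k117 k186 10 (.s k101 k69 3 (.d k154
  k223 k207 10 14)))), (.s k4 k8 1 (.s k32 k16 3 (.s k36 k24 5 (.s k20 k52 3 (.d k40 k44 k60 1
  5))))), (.s k4 k8 1 (.s k166 k247 12 (.s k36 k24 5 (.s k101 k231 8 (.d k117 k69 k186 3 10)))))]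
  .n) (.c k162 (.l (.s k4 k8 1 (.s k166 k247 12 (.s k89 k243 14 (.d k93 k81 k174 1 12))))) (.c k166
  (.q k48 [(.s k16 k32 3 (.s k117 k186 10 (.s k101 k69 3 (.d k154 k223 k207 10 14)))), (.s k4 k8 1
  (.s k32 k16 3 (.s k36 k24 5 (.s k20 k52 3 (.d k40 k44 k60 1 5))))), (.s k24 k36 5 (.s k117 k186 10
  (.s k101 k69 3 (.s k154 k207 14 (.s k89 k219 8 (.d k93 k174 k81 12 1))))))] (.c k162 (.l (.s k174
  k93 12 (.s k16 k32 3 (.s k154 k223 10 (.s k101 k207 14 (.d k117 k69 k186 3 10)))))) (.c k174 (.q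
  k162 [(.s k16 k32 3 (.s k117 k186 10 (.s k101 k69 3 (.d k154 k223 k207 10 14)))), (.s k4 k8 1 (.s
  k32 k16 3 (.s k36 k24 5 (.s k20 k52 3 (.d k40 k44 k60 1 5)))))] (.c k16 (.l (.s k8 k4 1 (.s k243
  k81 12 (.s k24 k36 5 (.s k56 k40 3 (.s k186 k117 10 (.d k251 k247 k121 1 8))))))) (.c k32 (.l (.s
  k4 k8 1 (.s k243 k81 12 (.s k36 k24 5 (.s k52 k20 3 (.s k117 k186 10 (.d k247 k251 k182 1 8)))))))
  .n))) .n))) (.c k174 (.q k48 [(.s k16 k32 3 (.s k117 k186 10 (.s k101 k69 3 (.d k154 k223 k207 10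
  14)))), (.s k4 k8 1 (.s k32 k16 3 (.s k36 k24 5 (.s k20 k52 3 (.d k40 k44 k60 1 5))))), (.s k4 k8
  1 (.s k166 k247 12 (.s k36 k24 5 (.s k101 k231 8 (.d k117 k69 k186 3 10)))))] (.c k162 (.q k166
  [(.d k4 k8 k247 1 12), (.s k36 k24 5 (.s k101 k231 8 (.d k117 k69 k186 3 10)))] .n) (.c k166 (.q
  k162 [(.s k16 k32 3 (.s k117 k186 10 (.s k101 k69 3 (.d k154 k223 k207 10 14)))), (.s k4 k8 1 (.s
  k32 k16 3 (.s k36 k24 5 (.s k20 k52 3 (.d k40 k44 k60 1 5)))))] (.c k16 (.l (.s k8 k4 1 (.s k243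
  k81 12 (.s k24 k36 5 (.s k56 k40 3 (.s k186 k117 10 (.d k251 k247 k121 1 8))))))) (.c k32 (.l (.s
  k4 k8 1 (.s k243 k81 12 (.s k36 k24 5 (.s k52 k20 3 (.s k117 k186 10 (.d k247 k251 k182 1 8)))))))
  .n))) .n))) (.c k243 (.q k48 [(.s k16 k32 3 (.s k117 k186 10 (.s k101 k69 3 (.d k154 k223 k207 10
  14)))), (.s k4 k8 1 (.s k32 k16 3 (.s k36 k24 5 (.s k20 k52 3 (.d k40 k44 k60 1 5))))), (.s k4 k8
  1 (.s k166 k247 12 (.s k36 k24 5 (.s k101 k231 8 (.d k117 k69 k186 3 10)))))] (.c k123 (.q k183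
  [(.s k16 k32 3 (.s k117 k186 10 (.s k101 k69 3 (.d k154 k223 k207 10 14)))), (.s k4 k8 1 (.s k32
  k16 3 (.s k36 k24 5 (.s k20 k52 3 (.d k40 k44 k60 1 5))))), (.s k4 k8 1 (.s k166 k247 12 (.s k36
  k24 5 (.s k101 k231 8 (.d k117 k69 k186 3 10)))))] .n) (.c k183 (.q k123 [(.s k16 k32 3 (.s k117
  k186 10 (.s k101 k69 3 (.d k154 k223 k207 10 14)))), (.s k4 k8 1 (.s k32 k16 3 (.s k36 k24 5 (.s
  k20 k52 3 (.d k40 k44 k60 1 5))))), (.s k4 k8 1 (.s k166 k247 12 (.s k36 k24 5 (.s k101 k231 8 (.d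
  k117 k69 k186 3 10)))))] .n) .n))) (.c k247 (.q k48 [(.s k16 k32 3 (.s k117 k186 10 (.s k101 k69 3
  (.d k154 k223 k207 10 14)))), (.s k4 k8 1 (.s k32 k16 3 (.s k36 k24 5 (.s k40 k44 1 (.d k20 k52
  k60 3 5))))), (.s k24 k36 5 (.s k93 k174 12 (.s k117 k186 10 (.s k101 k69 3 (.s k154 k207 14 (.d
  k89 k81 k219 1 8))))))] (.c k7 (.q k167 [(.s k16 k32 3 (.s k117 k186 10 (.s k101 k69 3 (.d k154
  k223 k207 10 14)))), (.s k4 k8 1 (.s k32 k16 3 (.s k36 k24 5 (.s k40 k44 1 (.d k20 k52 k60 3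
  5))))), (.s k24 k36 5 (.s k93 k174 12 (.s k117 k186 10 (.s k101 k69 3 (.s k154 k207 14 (.d k89 k81
  k219 1 8))))))] .n) (.c k167 (.q k7 [(.s k16 k32 3 (.s k117 k186 10 (.s k101 k69 3 (.d k154 k223
  k207 10 14)))), (.s k4 k8 1 (.s k5 k6 0 (.s k15 k10 2 (.s k165 k245 11 (.s k90 k240 14 (.d k95 k80
  k175 2 11))))))] .n) .n))) (.c k251 (.l (.s k93 k174 12 (.s k4 k8 1 (.s k89 k81 1 (.d k166 k247
  k243 12 14))))) .n)))))))))))))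

def t90 : T TT 256 :=
  (.q k243 [(.s k81 k162 12 (.s k85 k170 14 (.s k89 k93 1 (.s k247 k251 1 (.d k166 k4 k12 12
  14))))), (.s k162 k81 12 (.s k170 k85 14 (.s k166 k174 1 (.s k89 k12 14 (.d k251 k247 k8 1
  12)))))] (.c k12 (.f k85 k170 14 (.q k250 [(.s k240 k245 2 (.s k242 k241 0 (.s k246 k254 1 (.s
  k251 k247 1 (.d k249 k248 k252 0 2))))), (.s k81 k162 12 (.s k240 k245 2 (.s k80 k160 11 (.s k82
  k83 0 (.s k161 k3 12 (.d k241 k242 k1 0 11)))))), (.s k81 k162 12 (.s k89 k93 1 (.s k251 k247 1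
  (.s k249 k248 0 (.s k169 k9 11 (.s k253 k1 13 (.d k252 k254 k246 0 2)))))))] (.c k29 (.q k46 [(.s
  k240 k245 2 (.s k242 k241 0 (.s k246 k254 1 (.s k251 k247 1 (.d k249 k248 k252 0 2))))), (.s k81
  k162 12 (.s k240 k245 2 (.s k80 k160 11 (.s k82 k83 0 (.s k161 k3 12 (.d k241 k242 k1 0 11)))))),
  (.s k81 k162 12 (.s k89 k93 1 (.s k251 k247 1 (.s k249 k248 0 (.s k169 k9 11 (.s k253 k1 13 (.d
  k252 k254 k246 0 2)))))))] .n) (.c k46 (.q k29 [(.s k240 k245 2 (.s k242 k241 0 (.s k246 k254 1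
  (.s k251 k247 1 (.d k249 k248 k252 0 2))))), (.s k81 k162 12 (.s k89 k93 1 (.s k209 k149 9 (.s k17
  k145 7 (.s k25 k21 1 (.d k153 k217 k221 7 9))))))] .n) .n)))) (.c k81 (.q k48 [(.s k113 k178 8 (.s
  k117 k186 10 (.s k121 k125 1 (.s k182 k60 10 (.d k247 k251 k52 1 8))))), (.s k16 k32 3 (.s k85
  k170 14 (.s k154 k223 10 (.s k101 k207 14 (.d k117 k69 k186 3 10))))), (.s k16 k32 3 (.s k85 k170
  14 (.s k154 k223 10 (.s k178 k113 8 (.s k166 k142 5 (.d k247 k251 k4 1 12))))))] .n) (.c k85 (.q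
  k48 [(.s k16 k32 3 (.s k81 k162 12 (.s k146 k211 8 (.s k113 k178 8 (.d k97 k65 k195 3 12))))), (.s
  k113 k178 8 (.s k117 k186 10 (.s k121 k125 1 (.s k182 k60 10 (.d k247 k251 k52 1 8)))))] (.c k65
  (.l (.s k32 k16 3 (.s k162 k81 12 (.s k97 k227 8 (.s k146 k195 12 (.d k178 k113 k130 8 3)))))) (.c
  k80 (.q k95 [(.s k16 k32 3 (.s k81 k162 12 (.s k146 k211 8 (.s k113 k178 8 (.d k97 k65 k195 3
  12))))), (.s k15 k175 11 (.s k91 k167 13 (.s k251 k247 1 (.s k171 k11 11 (.d k87 k83 k3 1 13)))))]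
  .n) (.c k95 (.q k80 [(.s k16 k32 3 (.s k81 k162 12 (.s k146 k211 8 (.s k97 k195 12 (.d k113 k65
  k178 3 8))))), (.s k16 k32 3 (.s k160 k240 11 (.s k144 k208 7 (.s k192 k96 11 (.d k128 k176 k64 3
  7))))), (.s k240 k160 11 (.s k81 k162 12 (.s k82 k83 0 (.s k161 k3 12 (.d k241 k242 k1 0 11)))))]
  .n) (.c k113 (.q k80 [(.s k240 k160 11 (.s k81 k162 12 (.s k82 k83 0 (.s k161 k3 12 (.d k241 k242
  k1 0 11))))), (.s k16 k32 3 (.s k160 k240 11 (.s k144 k208 7 (.s k192 k96 11 (.d k128 k176 k64 3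
  7))))), (.s k16 k32 3 (.s k81 k162 12 (.s k144 k208 7 (.s k146 k211 8 (.s k145 k147 0 (.s k209 k17
  7 (.d k192 k226 k96 4 11)))))))] .n) (.c k178 (.q k80 [(.s k16 k32 3 (.s k240 k160 11 (.s k144
  k208 7 (.s k96 k192 11 (.d k112 k64 k176 3 7))))), (.s k240 k160 11 (.s k81 k162 12 (.s k82 k83 0
  (.s k161 k3 12 (.d k241 k242 k1 0 11))))), (.s k16 k32 3 (.s k81 k162 12 (.s k144 k208 7 (.s k146
  k211 8 (.s k145 k147 0 (.s k209 k17 7 (.d k192 k226 k96 4 11)))))))] .n) .n)))))) (.c k89 (.q k48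
  [(.s k16 k32 3 (.s k81 k162 12 (.s k113 k178 8 (.s k97 k65 3 (.d k146 k211 k195 8 12))))), (.s
  k113 k178 8 (.s k117 k186 10 (.s k121 k125 1 (.s k182 k60 10 (.d k247 k251 k52 1 8))))), (.s k16
  k32 3 (.s k85 k170 14 (.s k154 k223 10 (.s k101 k207 14 (.d k117 k69 k186 3 10)))))] (.c k88 (.q
  k91 [(.s k16 k32 3 (.s k81 k162 12 (.s k113 k178 8 (.s k97 k65 3 (.d k146 k211 k195 8 12))))), (.s
  k15 k167 13 (.s k95 k175 11 (.s k87 k83 1 (.s k171 k3 13 (.d k251 k247 k11 1 11)))))] .n) (.c k91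
  (.q k88 [(.s k16 k32 3 (.s k81 k162 12 (.s k113 k178 8 (.s k97 k65 3 (.d k146 k211 k195 8 12))))),
  (.s k113 k178 8 (.s k117 k186 10 (.s k121 k125 1 (.s k182 k60 10 (.d k247 k251 k52 1 8))))), (.s
  k16 k32 3 (.s k85 k170 14 (.s k154 k223 10 (.s k101 k207 14 (.d k117 k69 k186 3 10)))))] .n) .n)))
  (.c k93 (.l (.s k162 k81 12 (.s k251 k247 1 (.s k170 k85 14 (.s k89 k8 12 (.d k166 k174 k12 1
  14)))))) (.c k162 (.q k48 [(.s k32 k16 3 (.s k186 k117 10 (.s k170 k85 14 (.s k154 k138 3 (.d k101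
  k239 k207 10 14))))), (.s k113 k178 8 (.s k117 k186 10 (.s k121 k125 1 (.s k182 k60 10 (.d k247
  k251 k52 1 8))))), (.s k16 k32 3 (.s k85 k170 14 (.s k154 k223 10 (.s k178 k113 8 (.s k166 k142 5
  (.d k247 k251 k4 1 12))))))] .n) (.c k166 (.f k162 k81 12 (.q k48 [(.s k32 k16 3 (.s k178 k113 8
  (.s k146 k130 3 (.d k97 k227 k195 8 12)))), (.s k16 k32 3 (.s k85 k170 14 (.s k154 k223 10 (.s
  k101 k207 14 (.d k117 k69 k186 3 10))))), (.s k170 k85 14 (.s k178 k113 8 (.s k186 k117 10 (.s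
  k190 k182 1 (.d k130 k150 k146 5 3)))))] (.c k14 (.q k242 [(.s k32 k16 3 (.s k178 k113 8 (.s k146
  k130 3 (.d k97 k227 k195 8 12)))), (.s k82 k2 11 (.s k240 k241 0 (.s k160 k80 11 (.d k161 k163 k3
  0 12))))] .n) (.c k242 (.q k14 [(.s k32 k16 3 (.s k178 k113 8 (.s k146 k130 3 (.d k97 k227 k195 8
  12)))), (.s k16 k32 3 (.s k85 k170 14 (.s k154 k223 10 (.s k101 k207 14 (.d k117 k69 k186 3
  10))))), (.s k170 k85 14 (.s k178 k113 8 (.s k186 k117 10 (.s k190 k182 1 (.d k130 k150 k146 5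
  3)))))] .n) .n)))) (.c k170 (.f k162 k81 12 (.q k48 [(.s k32 k16 3 (.s k97 k227 8 (.s k178 k113 8
  (.d k146 k130 k195 3 12)))), (.s k113 k178 8 (.s k117 k186 10 (.s k121 k125 1 (.s k182 k60 10 (.d
  k247 k251 k52 1 8)))))] (.c k10 (.q k250 [(.s k32 k16 3 (.s k97 k227 8 (.s k178 k113 8 (.d k146
  k130 k195 3 12)))), (.s k240 k245 2 (.s k160 k80 11 (.s k161 k163 0 (.s k82 k3 12 (.d k242 k241 k2
  0 11)))))] .n) (.c k113 (.q k250 [(.s k240 k245 2 (.s k160 k80 11 (.s k161 k163 0 (.s k82 k3 12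
  (.d k242 k241 k2 0 11))))), (.s k186 k117 10 (.s k122 k58 7 (.s k251 k247 1 (.s k121 k56 8 (.s
  k123 k120 0 (.s k59 k187 7 (.d k248 k249 k185 0 8)))))))] (.c k65 (.q k97 [(.d k32 k16 k227 3 8),
  (.s k240 k245 2 (.s k112 k176 7 (.s k82 k67 4 (.d k242 k241 k2 0 11))))] .n) (.c k97 (.q k65 [(.s
  k240 k245 2 (.s k160 k80 11 (.s k161 k163 0 (.s k82 k3 12 (.d k242 k241 k2 0 11))))), (.s k130
  k195 8 (.s k186 k117 10 (.s k178 k146 3 (.s k182 k190 1 (.s k121 k60 10 (.d k251 k247 k56 1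
  8))))))] .n) .n))) (.c k178 (.q k250 [(.s k240 k245 2 (.s k160 k80 11 (.s k161 k163 0 (.s k82 k3
  12 (.d k242 k241 k2 0 11))))), (.s k186 k117 10 (.s k122 k58 7 (.s k251 k247 1 (.s k56 k121 8 (.s
  k248 k249 0 (.s k184 k120 7 (.d k185 k187 k59 0 8)))))))] .n) (.c k250 (.q k10 [(.s k32 k16 3 (.s
  k97 k227 8 (.s k178 k113 8 (.d k146 k130 k195 3 12)))), (.s k113 k178 8 (.s k117 k186 10 (.s k121
  k125 1 (.s k182 k60 10 (.d k247 k251 k52 1 8))))), (.s k15 k5 2 (.s k32 k16 3 (.s k37 k26 6 (.s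
  k167 k91 13 (.s k47 k42 2 (.d k227 k97 k107 8 9))))))] .n) .n)))))) (.c k174 (.l (.s k81 k162 12
  (.s k247 k251 1 (.s k85 k170 14 (.s k166 k4 12 (.d k89 k93 k12 1 14)))))) (.c k247 (.q k48 [(.s
  k16 k32 3 (.s k81 k162 12 (.s k146 k211 8 (.s k113 k178 8 (.d k97 k65 k195 3 12))))), (.s k16 k32
  3 (.s k85 k170 14 (.s k154 k223 10 (.s k101 k207 14 (.d k117 k69 k186 3 10))))), (.s k81 k162 12
  (.s k85 k170 14 (.s k113 k178 8 (.s k117 k186 10 (.s k101 k69 3 (.d k89 k93 k77 1 5))))))] .n) (.c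
  k251 (.q k48 [(.s k16 k32 3 (.s k81 k162 12 (.s k146 k211 8 (.s k113 k178 8 (.d k97 k65 k195 3
  12))))), (.s k16 k32 3 (.s k85 k170 14 (.s k154 k223 10 (.s k101 k207 14 (.d k117 k69 k186 3
  10))))), (.s k81 k162 12 (.s k85 k170 14 (.s k113 k178 8 (.s k117 k186 10 (.s k101 k69 3 (.d k89
  k93 k77 1 5))))))] .n) .n))))))))))))

def t91 : T TT 256 :=
  (.q k243 [(.s k162 k81 12 (.s k251 k247 1 (.s k170 k85 14 (.s k89 k8 12 (.d k166 k174 k12 1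
  14)))))] (.c k4 (.l (.s k162 k81 12 (.s k170 k85 14 (.s k166 k174 1 (.s k89 k12 14 (.d k251 k247
  k8 1 12)))))) (.c k8 (.l (.s k81 k162 12 (.s k85 k170 14 (.s k89 k93 1 (.s k166 k12 14 (.d k247
  k251 k4 1 12)))))) (.c k12 (.f k162 k81 12 (.f k85 k170 14 (.q k48 [(.s k16 k32 3 (.s k154 k223 10
  (.s k117 k186 10 (.d k101 k69 k207 3 14)))), (.s k32 k16 3 (.s k97 k227 8 (.s k146 k195 12 (.d
  k178 k130 k113 3 8)))), (.s k113 k178 8 (.s k117 k186 10 (.s k121 k125 1 (.s k182 k60 10 (.d k247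
  k251 k52 1 8)))))] (.c k29 (.q k46 [(.s k16 k32 3 (.s k154 k223 10 (.s k117 k186 10 (.d k101 k69
  k207 3 14)))), (.s k32 k16 3 (.s k97 k227 8 (.s k146 k195 12 (.d k178 k130 k113 3 8)))), (.s k113
  k178 8 (.s k117 k186 10 (.s k121 k125 1 (.s k182 k60 10 (.d k247 k251 k52 1 8)))))] .n) (.c k46
  (.q k29 [(.s k16 k32 3 (.s k154 k223 10 (.s k117 k186 10 (.d k101 k69 k207 3 14)))), (.s k32 k16 3
  (.s k97 k227 8 (.s k146 k195 12 (.d k178 k130 k113 3 8)))), (.s k113 k178 8 (.s k117 k186 10 (.s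
  k121 k125 1 (.s k182 k60 10 (.d k247 k251 k52 1 8)))))] .n) .n))))) (.c k81 (.q k48 [(.s k16 k32 3
  (.s k85 k170 14 (.s k154 k223 10 (.s k117 k186 10 (.d k101 k69 k207 3 14))))), (.s k113 k178 8 (.s
  k117 k186 10 (.s k121 k125 1 (.s k182 k60 10 (.d k247 k251 k52 1 8))))), (.s k16 k32 3 (.s k85
  k170 14 (.s k154 k223 10 (.s k178 k113 8 (.s k166 k142 5 (.d k247 k251 k4 1 12))))))] .n) (.c k85
  (.q k48 [(.s k16 k32 3 (.s k81 k162 12 (.s k146 k211 8 (.s k113 k178 8 (.d k97 k65 k195 3 12))))),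
  (.s k113 k178 8 (.s k117 k186 10 (.s k121 k125 1 (.s k182 k60 10 (.d k247 k251 k52 1 8)))))] (.c
  k65 (.l (.s k32 k16 3 (.s k162 k81 12 (.s k97 k227 8 (.s k146 k195 12 (.d k178 k113 k130 8 3))))))
  (.c k113 (.q k12 [(.s k4 k8 1 (.s k36 k24 5 (.s k20 k52 3 (.s k40 k60 5 (.d k32 k44 k16 1 3))))),
  (.s k4 k8 1 (.s k117 k186 10 (.s k247 k251 1 (.s k52 k182 8 (.d k36 k20 k24 3 5))))), (.s k16 k32
  3 (.s k81 k162 12 (.s k89 k166 14 (.s k211 k146 8 (.s k28 k150 10 (.s k20 k24 1 (.d k60 k44 k40 3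
  5)))))))] (.c k4 (.l (.s k32 k16 3 (.s k36 k24 5 (.s k166 k89 14 (.s k44 k40 1 (.s k227 k105 10
  (.d k162 k81 k97 12 8))))))) (.c k20 (.l (.s k8 k4 1 (.s k117 k186 10 (.s k247 k251 1 (.s k24 k36
  5 (.s k52 k182 8 (.d k56 k60 k40 1 3))))))) (.c k24 (.l (.s k4 k8 1 (.s k117 k186 10 (.s k247 k251
  1 (.s k52 k182 8 (.s k20 k36 3 (.d k60 k56 k40 1 5))))))) .n)))) (.c k178 (.q k51 [(.s k16 k32 3
  (.s k17 k34 4 (.s k18 k19 0 (.s k33 k3 4 (.d k49 k50 k1 0 3))))), (.s k17 k34 4 (.s k81 k162 12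
  (.s k145 k209 7 (.s k98 k192 12 (.d k115 k64 k179 4 7))))), (.s k49 k50 0 (.s k117 k186 10 (.s
  k185 k253 9 (.s k118 k252 10 (.d k119 k116 k187 0 9)))))] .n) .n)))) (.c k89 (.q k48 [(.s k16 k32
  3 (.s k81 k162 12 (.s k113 k178 8 (.s k97 k65 3 (.d k146 k211 k195 8 12))))), (.s k113 k178 8 (.s
  k117 k186 10 (.s k121 k125 1 (.s k182 k60 10 (.d k247 k251 k52 1 8))))), (.s k16 k32 3 (.s k85
  k170 14 (.s k154 k223 10 (.s k101 k207 14 (.d k117 k69 k186 3 10)))))] (.c k88 (.q k90 [(.s k16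
  k32 3 (.s k81 k162 12 (.s k113 k178 8 (.s k97 k65 3 (.d k146 k211 k195 8 12))))), (.s k85 k170 14
  (.s k80 k95 2 (.s k240 k160 11 (.s k165 k15 14 (.d k245 k250 k5 2 11)))))] .n) (.c k90 (.q k88
  [(.s k16 k32 3 (.s k81 k162 12 (.s k113 k178 8 (.s k97 k65 3 (.d k146 k211 k195 8 12))))), (.s
  k113 k178 8 (.s k117 k186 10 (.s k121 k125 1 (.s k182 k60 10 (.d k247 k251 k52 1 8))))), (.s k16
  k32 3 (.s k85 k170 14 (.s k154 k223 10 (.s k101 k207 14 (.d k117 k69 k186 3 10)))))] .n) .n))) (.c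
  k93 (.l (.s k162 k81 12 (.s k251 k247 1 (.s k170 k85 14 (.s k89 k8 12 (.d k166 k174 k12 1 14))))))
  (.c k162 (.q k48 [(.s k32 k16 3 (.s k186 k117 10 (.s k170 k85 14 (.s k154 k138 3 (.d k101 k239
  k207 10 14))))), (.s k113 k178 8 (.s k117 k186 10 (.s k121 k125 1 (.s k182 k60 10 (.d k247 k251
  k52 1 8))))), (.s k16 k32 3 (.s k85 k170 14 (.s k154 k223 10 (.s k178 k113 8 (.s k166 k142 5 (.d
  k247 k251 k4 1 12))))))] .n) (.c k166 (.q k48 [(.s k113 k178 8 (.s k117 k186 10 (.s k121 k125 1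
  (.s k182 k60 10 (.d k247 k251 k52 1 8))))), (.s k16 k32 3 (.s k81 k162 12 (.s k146 k211 8 (.s k97
  k195 12 (.d k113 k65 k178 3 8))))), (.s k16 k32 3 (.s k85 k170 14 (.s k154 k223 10 (.s k101 k207
  14 (.d k117 k69 k186 3 10)))))] .n) (.c k170 (.q k48 [(.s k32 k16 3 (.s k162 k81 12 (.s k97 k227 8
  (.s k146 k195 12 (.d k178 k130 k113 3 8))))), (.s k113 k178 8 (.s k117 k186 10 (.s k121 k125 1 (.s
  k182 k60 10 (.d k247 k251 k52 1 8)))))] (.c k113 (.q k51 [(.s k32 k16 3 (.s k34 k17 4 (.s k33 k35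
  0 (.s k18 k3 4 (.d k50 k49 k2 0 3))))), (.s k17 k34 4 (.s k81 k162 12 (.s k145 k209 7 (.s k98 k192
  12 (.d k115 k64 k179 4 7))))), (.s k49 k50 0 (.s k117 k186 10 (.s k185 k253 9 (.s k118 k252 10 (.d
  k119 k116 k187 0 9)))))] .n) (.c k178 (.q k51 [(.s k32 k16 3 (.s k34 k17 4 (.s k33 k35 0 (.s k18
  k3 4 (.d k50 k49 k2 0 3))))), (.s k17 k34 4 (.s k81 k162 12 (.s k145 k209 7 (.s k98 k192 12 (.d
  k115 k64 k179 4 7))))), (.s k49 k50 0 (.s k117 k186 10 (.s k185 k253 9 (.s k118 k252 10 (.d k119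
  k116 k187 0 9)))))] .n) .n))) (.c k174 (.l (.s k81 k162 12 (.s k247 k251 1 (.s k85 k170 14 (.s
  k166 k4 12 (.d k89 k93 k12 1 14)))))) (.c k247 (.q k48 [(.s k16 k32 3 (.s k81 k162 12 (.s k113
  k178 8 (.s k97 k65 3 (.d k146 k211 k195 8 12))))), (.s k16 k32 3 (.s k85 k170 14 (.s k154 k223 10
  (.s k101 k207 14 (.d k117 k69 k186 3 10))))), (.s k81 k162 12 (.s k85 k170 14 (.s k113 k178 8 (.s
  k117 k186 10 (.s k101 k69 3 (.d k89 k93 k77 1 5))))))] .n) (.c k251 (.q k171 [(.s k170 k85 14 (.s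
  k3 k87 13 (.s k2 k1 0 (.s k86 k254 13 (.d k169 k168 k252 0 14))))), (.s k162 k81 12 (.s k170 k85
  14 (.s k166 k174 1 (.s k169 k168 0 (.s k163 k172 2 (.s k160 k161 0 (.d k175 k167 k165 1 2))))))),
  (.s k81 k162 12 (.s k3 k87 13 (.s k1 k2 0 (.s k161 k241 11 (.s k82 k240 12 (.d k83 k80 k163 0
  11))))))] (.c k1 (.l (.s k162 k81 12 (.s k170 k85 14 (.s k3 k87 13 (.s k166 k174 1 (.s k169 k168 0
  (.d k163 k83 k172 11 2))))))) .n)) .n))))))))))))))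

def t95 : T TT 256 :=
  (.q k204 [(.s k68 k136 9 (.s k85 k170 14 (.s k102 k119 4 (.s k221 k238 4 (.d k153 k17 k51 9
  14)))))] (.c k17 (.l (.s k136 k68 9 (.s k170 k85 14 (.s k153 k187 4 (.s k102 k51 14 (.d k238 k221
  k34 4 9)))))) (.c k51 (.f k221 k238 4 (.f k68 k136 9 (.q k48 [(.s k32 k16 3 (.s k100 k152 13 (.s
  k84 k116 3 (.d k168 k236 k252 9 13)))), (.s k16 k32 3 (.s k85 k170 14 (.s k154 k223 10 (.s k101
  k207 14 (.d k117 k69 k186 3 10))))), (.s k85 k170 14 (.s k100 k152 13 (.s k117 k186 10 (.s k102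
  k119 4 (.d k101 k103 k69 0 3)))))] (.c k55 (.q k59 [(.s k32 k16 3 (.s k100 k152 13 (.s k84 k116 3
  (.d k168 k236 k252 9 13)))), (.s k16 k32 3 (.s k85 k170 14 (.s k154 k223 10 (.s k101 k207 14 (.d
  k117 k69 k186 3 10))))), (.s k85 k170 14 (.s k100 k152 13 (.s k117 k186 10 (.s k102 k119 4 (.d
  k101 k103 k69 0 3)))))] .n) (.c k59 (.q k55 [(.s k32 k16 3 (.s k100 k152 13 (.s k84 k116 3 (.d
  k168 k236 k252 9 13)))), (.s k16 k32 3 (.s k85 k170 14 (.s k154 k223 10 (.s k101 k207 14 (.d k117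
  k69 k186 3 10))))), (.s k85 k170 14 (.s k100 k152 13 (.s k117 k186 10 (.s k102 k119 4 (.d k101
  k103 k69 0 3)))))] .n) .n))))) (.c k68 (.q k192 [(.s k196 k200 1 (.s k213 k234 6 (.s k230 k247 4
  (.s k221 k238 4 (.d k217 k209 k243 1 6))))), (.s k128 k64 7 (.s k170 k85 14 (.s k149 k191 6 (.s
  k196 k200 1 (.s k102 k55 12 (.s k34 k238 9 (.d k51 k17 k153 4 14))))))), (.s k85 k170 14 (.s k213
  k234 6 (.s k149 k21 7 (.s k221 k238 4 (.s k153 k17 9 (.s k145 k157 1 (.d k51 k102 k98 14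
  12)))))))] (.c k238 (.l (.s k64 k128 7 (.s k85 k170 14 (.s k106 k127 6 (.s k200 k196 1 (.s k153
  k59 12 (.s k17 k221 9 (.d k51 k34 k102 4 14)))))))) .n)) (.c k85 (.f k221 k238 4 (.f k68 k136 9
  (.q k192 [(.s k64 k128 7 (.s k72 k76 1 (.s k196 k200 1 (.d k132 k4 k12 7 9)))), (.s k213 k234 6
  (.s k217 k209 1 (.s k230 k243 6 (.d k196 k200 k247 1 4))))] (.c k80 (.q k90 [(.s k64 k128 7 (.s
  k72 k76 1 (.s k196 k200 1 (.d k132 k4 k12 7 9)))), (.s k213 k234 6 (.s k217 k209 1 (.s k230 k243 6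
  (.d k196 k200 k247 1 4))))] (.c k196 (.q k84 [(.s k252 k168 13 (.s k100 k116 3 (.s k152 k48 13 (.d
  k220 k236 k16 3 9)))), (.s k64 k128 7 (.s k168 k252 13 (.s k104 k124 5 (.s k40 k232 7 (.d k60 k20
  k148 5 13))))), (.s k64 k128 7 (.s k104 k124 5 (.s k100 k116 3 (.s k96 k108 1 (.d k48 k144 k152 11
  13)))))] .n) (.c k200 (.l (.s k64 k128 7 (.s k72 k76 1 (.s k132 k12 9 (.s k196 k4 7 (.s k213 k234
  6 (.s k217 k209 1 (.d k230 k247 k243 4 6)))))))) .n))) (.c k90 (.q k80 [(.s k64 k128 7 (.s k72 k76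
  1 (.s k196 k200 1 (.d k132 k4 k12 7 9)))), (.s k213 k234 6 (.s k217 k209 1 (.s k230 k243 6 (.d
  k196 k200 k247 1 4)))), (.s k64 k128 7 (.s k160 k240 11 (.s k96 k112 3 (.s k32 k224 7 (.d k48 k16
  k144 3 11)))))] .n) (.c k196 (.q k80 [(.s k64 k128 7 (.s k160 k240 11 (.s k96 k112 3 (.s k32 k224
  7 (.d k48 k16 k144 3 11))))), (.s k240 k160 11 (.s k224 k208 3 (.s k234 k213 6 (.s k229 k239 2 (.s
  k218 k207 6 (.d k250 k245 k202 2 3)))))), (.s k64 k128 7 (.s k96 k112 3 (.s k48 k144 11 (.s k100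
  k152 13 (.s k84 k116 3 (.d k104 k124 k108 5 1))))))] (.c k160 (.q k84 [(.s k64 k128 7 (.s k72 k76
  1 (.s k104 k124 5 (.d k88 k92 k120 1 3)))), (.s k168 k252 13 (.s k100 k116 3 (.s k32 k236 9 (.d
  k48 k16 k152 3 13))))] .n) .n)) (.c k200 (.l (.s k64 k128 7 (.s k72 k76 1 (.s k132 k12 9 (.s k196
  k4 7 (.s k213 k234 6 (.s k217 k209 1 (.d k230 k247 k243 4 6)))))))) .n))))))) (.c k102 (.q k48
  [(.s k32 k16 3 (.s k68 k136 9 (.s k100 k152 13 (.s k168 k236 9 (.d k84 k116 k252 3 13))))), (.s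
  k16 k32 3 (.s k85 k170 14 (.s k154 k223 10 (.s k101 k207 14 (.d k117 k69 k186 3 10))))), (.s k170
  k85 14 (.s k152 k100 13 (.s k186 k117 10 (.s k154 k138 3 (.s k153 k155 0 (.d k136 k68 k187 9
  4))))))] .n) (.c k119 (.l (.s k136 k68 9 (.s k238 k221 4 (.s k170 k85 14 (.s k102 k34 9 (.d k153
  k187 k51 4 14)))))) (.c k136 (.q k192 [(.s k200 k196 1 (.s k238 k221 4 (.s k234 k213 6 (.s k230
  k226 1 (.d k217 k251 k243 4 6))))), (.s k128 k64 7 (.s k170 k85 14 (.s k149 k191 6 (.s k196 k200 1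
  (.s k102 k55 12 (.s k34 k238 9 (.d k51 k17 k153 4 14))))))), (.s k85 k170 14 (.s k213 k234 6 (.s
  k149 k21 7 (.s k221 k238 4 (.s k153 k17 9 (.s k145 k157 1 (.d k51 k102 k98 14 12)))))))] (.c k238
  (.l (.s k64 k128 7 (.s k85 k170 14 (.s k106 k127 6 (.s k200 k196 1 (.s k153 k59 12 (.s k17 k221 9
  (.d k51 k34 k102 4 14)))))))) .n)) (.c k153 (.q k48 [(.s k16 k32 3 (.s k136 k68 9 (.s k152 k100 13
  (.s k168 k184 3 (.d k84 k220 k252 9 13))))), (.s k32 k16 3 (.s k170 k85 14 (.s k101 k239 10 (.s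
  k154 k207 14 (.d k186 k138 k117 3 10))))), (.s k85 k170 14 (.s k100 k152 13 (.s k117 k186 10 (.s
  k101 k69 3 (.s k102 k103 0 (.d k68 k136 k119 9 4))))))] .n) (.c k170 (.q k192 [(.s k128 k64 7 (.s
  k136 k68 9 (.s k132 k140 1 (.s k72 k12 9 (.d k200 k196 k8 1 7))))), (.s k196 k200 1 (.s k213 k234
  6 (.s k230 k247 4 (.s k217 k243 6 (.d k221 k209 k238 1 4)))))] (.c k196 (.q k84 [(.s k128 k64 7
  (.s k168 k252 13 (.s k148 k188 5 (.s k60 k104 13 (.d k20 k40 k212 5 7))))), (.s k68 k136 9 (.s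
  k168 k252 13 (.s k100 k116 3 (.s k32 k236 9 (.d k48 k16 k152 3 13))))), (.s k64 k128 7 (.s k68
  k136 9 (.s k104 k124 5 (.s k100 k116 3 (.s k96 k108 1 (.d k48 k144 k152 11 13))))))] .n) (.c k200
  (.q k84 [(.s k128 k64 7 (.s k168 k252 13 (.s k148 k188 5 (.s k20 k212 7 (.d k60 k40 k104 5
  13))))), (.s k68 k136 9 (.s k168 k252 13 (.s k100 k116 3 (.s k32 k236 9 (.d k48 k16 k152 3
  13))))), (.s k64 k128 7 (.s k68 k136 9 (.s k104 k124 5 (.s k100 k116 3 (.s k96 k108 1 (.d k48 k144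
  k152 11 13))))))] .n) .n))) (.c k187 (.l (.s k68 k136 9 (.s k221 k238 4 (.s k85 k170 14 (.s k153
  k17 9 (.d k102 k119 k51 4 14)))))) (.c k221 (.q k48 [(.s k16 k32 3 (.s k85 k170 14 (.s k117 k186
  10 (.s k101 k69 3 (.d k154 k223 k207 10 14))))), (.s k16 k32 3 (.s k136 k68 9 (.s k152 k100 13 (.s
  k168 k184 3 (.d k84 k220 k252 9 13))))), (.s k68 k136 9 (.s k85 k170 14 (.s k100 k152 13 (.s k117
  k186 10 (.s k102 k119 4 (.d k101 k103 k69 0 3))))))] .n) (.c k238 (.q k48 [(.s k16 k32 3 (.s k136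
  k68 9 (.s k152 k100 13 (.s k84 k220 9 (.d k168 k184 k252 3 13))))), (.s k16 k32 3 (.s k85 k170 14
  (.s k154 k223 10 (.s k101 k207 14 (.d k117 k69 k186 3 10))))), (.s k68 k136 9 (.s k85 k170 14 (.s
  k100 k152 13 (.s k117 k186 10 (.s k102 k119 4 (.d k101 k103 k69 0 3))))))] .n) .n)))))))))))))

def t106 : T TT 256 :=
  (.q k12 [(.s k4 k8 1 (.s k85 k170 14 (.s k166 k247 12 (.s k93 k174 12 (.d k89 k81 k243 1 14))))),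
  (.s k8 k4 1 (.s k170 k85 14 (.s k89 k251 12 (.s k166 k243 14 (.d k174 k162 k93 1 12)))))] (.c k4
  (.f k85 k170 14 (.q k48 [(.s k16 k32 3 (.s k154 k223 10 (.s k117 k186 10 (.d k101 k69 k207 3
  14)))), (.s k24 k36 5 (.s k93 k174 12 (.s k89 k81 1 (.s k154 k219 8 (.d k16 k32 k223 3 10))))),
  (.s k36 k24 5 (.s k93 k174 12 (.s k89 k81 1 (.s k166 k243 14 (.s k101 k231 8 (.d k117 k69 k186 3
  10))))))] (.c k42 (.q k234 [(.s k16 k32 3 (.s k154 k223 10 (.s k117 k186 10 (.d k101 k69 k207 3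
  14)))), (.s k24 k36 5 (.s k93 k174 12 (.s k89 k81 1 (.s k154 k219 8 (.d k16 k32 k223 3 10))))),
  (.s k24 k36 5 (.s k93 k174 12 (.s k117 k186 10 (.s k101 k69 3 (.s k154 k207 14 (.d k89 k81 k219 1
  8))))))] (.c k149 (.l (.s k192 k213 6 (.s k16 k32 3 (.s k154 k223 10 (.s k101 k207 14 (.d k117 k69
  k186 3 10)))))) (.c k154 (.l (.s k16 k32 3 (.s k192 k213 6 (.s k128 k64 7 (.s k144 k96 11 (.s k80
  k208 7 (.d k160 k176 k240 3 11))))))) (.c k192 (.q k149 [(.s k16 k32 3 (.s k154 k223 10 (.s k117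
  k186 10 (.d k101 k69 k207 3 14)))), (.s k24 k36 5 (.s k93 k174 12 (.s k89 k81 1 (.s k154 k219 8
  (.d k16 k32 k223 3 10))))), (.s k36 k24 5 (.s k93 k174 12 (.s k89 k81 1 (.s k166 k243 14 (.s k101
  k231 8 (.d k117 k69 k186 3 10))))))] .n) .n)))) (.c k149 (.q k192 [(.s k16 k32 3 (.s k154 k223 10
  (.s k117 k186 10 (.d k101 k69 k207 3 14)))), (.s k32 k16 3 (.s k96 k144 11 (.s k160 k224 7 (.s k80
  k240 11 (.d k64 k128 k112 7 3))))), (.s k24 k36 5 (.s k93 k174 12 (.s k117 k186 10 (.s k101 k69 3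
  (.s k154 k207 14 (.d k89 k81 k219 1 8))))))] (.c k42 (.l (.s k234 k213 6 (.s k16 k32 3 (.s k154
  k223 10 (.s k101 k207 14 (.d k117 k69 k186 3 10)))))) (.c k128 (.q k191 [(.s k16 k32 3 (.s k154
  k223 10 (.s k117 k186 10 (.d k101 k69 k207 3 14)))), (.s k24 k36 5 (.s k93 k174 12 (.s k89 k81 1
  (.s k154 k219 8 (.d k16 k32 k223 3 10))))), (.s k24 k36 5 (.s k93 k174 12 (.s k117 k186 10 (.s
  k101 k69 3 (.s k154 k207 14 (.d k89 k81 k219 1 8))))))] (.c k42 (.l (.s k234 k213 6 (.s k16 k32 3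
  (.s k154 k223 10 (.s k101 k207 14 (.d k117 k69 k186 3 10)))))) (.c k154 (.l (.s k16 k32 3 (.s k144
  k96 11 (.s k80 k208 7 (.s k186 k117 10 (.s k176 k181 2 (.d k240 k160 k112 11 7))))))) (.c k234 (.q
  k42 [(.s k16 k32 3 (.s k154 k223 10 (.s k117 k186 10 (.d k101 k69 k207 3 14)))), (.s k24 k36 5 (.s
  k93 k174 12 (.s k89 k81 1 (.s k154 k219 8 (.d k16 k32 k223 3 10))))), (.s k24 k36 5 (.s k93 k174
  12 (.s k117 k186 10 (.s k101 k69 3 (.s k154 k207 14 (.d k89 k81 k219 1 8))))))] (.c k154 (.l (.s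
  k16 k32 3 (.s k144 k96 11 (.s k80 k208 7 (.s k186 k117 10 (.s k176 k181 2 (.d k240 k160 k112 11
  7))))))) .n)) .n)))) (.c k154 (.l (.s k16 k32 3 (.s k128 k64 7 (.s k144 k96 11 (.s k80 k208 7 (.d
  k160 k176 k240 3 11)))))) (.c k191 (.l (.s k128 k64 7 (.s k16 k32 3 (.s k154 k223 10 (.s k101 k207
  14 (.d k117 k69 k186 3 10)))))) (.c k234 (.q k42 [(.s k16 k32 3 (.s k154 k223 10 (.s k117 k186 10
  (.d k101 k69 k207 3 14)))), (.s k16 k32 3 (.s k128 k64 7 (.s k144 k96 11 (.s k80 k208 7 (.d k160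
  k176 k240 3 11))))), (.s k24 k36 5 (.s k93 k174 12 (.s k117 k186 10 (.s k101 k69 3 (.s k154 k207
  14 (.d k89 k81 k219 1 8))))))] (.c k101 (.l (.s k32 k16 3 (.s k96 k144 11 (.s k160 k224 7 (.s k80
  k240 11 (.d k64 k112 k128 3 7)))))) (.c k128 (.q k191 [(.s k16 k32 3 (.s k154 k223 10 (.s k117
  k186 10 (.d k101 k69 k207 3 14)))), (.s k24 k36 5 (.s k93 k174 12 (.s k89 k81 1 (.s k154 k219 8
  (.d k16 k32 k223 3 10))))), (.s k24 k36 5 (.s k93 k174 12 (.s k117 k186 10 (.s k101 k69 3 (.s k154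
  k207 14 (.d k89 k81 k219 1 8))))))] (.c k154 (.l (.s k16 k32 3 (.s k144 k96 11 (.s k80 k208 7 (.s
  k186 k117 10 (.s k176 k181 2 (.d k240 k160 k112 11 7))))))) .n)) (.c k191 (.l (.s k128 k64 7 (.s
  k16 k32 3 (.s k154 k223 10 (.s k101 k207 14 (.d k117 k69 k186 3 10)))))) .n)))) .n)))))) (.c k192
  (.q k149 [(.s k16 k32 3 (.s k154 k223 10 (.s k117 k186 10 (.d k101 k69 k207 3 14)))), (.s k24 k36
  5 (.s k93 k174 12 (.s k89 k81 1 (.s k154 k219 8 (.d k16 k32 k223 3 10))))), (.s k36 k24 5 (.s k93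
  k174 12 (.s k89 k81 1 (.s k166 k243 14 (.s k101 k231 8 (.d k117 k69 k186 3 10))))))] (.c k42 (.q
  k234 [(.s k16 k32 3 (.s k154 k223 10 (.s k117 k186 10 (.d k101 k69 k207 3 14)))), (.s k24 k36 5
  (.s k93 k174 12 (.s k89 k81 1 (.s k154 k219 8 (.d k16 k32 k223 3 10))))), (.s k36 k24 5 (.s k93
  k174 12 (.s k89 k81 1 (.s k166 k243 14 (.s k101 k231 8 (.d k117 k69 k186 3 10))))))] .n) (.c k234
  (.q k42 [(.s k16 k32 3 (.s k154 k223 10 (.s k117 k186 10 (.d k101 k69 k207 3 14)))), (.s k32 k16 3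
  (.s k21 k213 7 (.s k37 k47 2 (.s k5 k53 3 (.d k15 k10 k26 2 6))))), (.s k24 k36 5 (.s k93 k174 12
  (.s k117 k186 10 (.s k101 k69 3 (.s k154 k207 14 (.d k89 k81 k219 1 8))))))] .n) .n))) (.c k234
  (.q k42 [(.s k16 k32 3 (.s k154 k223 10 (.s k117 k186 10 (.d k101 k69 k207 3 14)))), (.s k32 k16 3
  (.s k36 k24 5 (.s k37 k47 2 (.s k38 k39 0 (.s k51 k25 6 (.d k34 k46 k17 1 4)))))), (.s k24 k36 5
  (.s k93 k174 12 (.s k117 k186 10 (.s k101 k69 3 (.s k154 k207 14 (.d k89 k81 k219 1 8))))))] (.c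
  k149 (.q k192 [(.s k16 k32 3 (.s k154 k223 10 (.s k117 k186 10 (.d k101 k69 k207 3 14)))), (.s k16
  k32 3 (.s k128 k64 7 (.s k144 k96 11 (.s k80 k208 7 (.d k160 k176 k240 3 11))))), (.s k24 k36 5
  (.s k93 k174 12 (.s k117 k186 10 (.s k101 k69 3 (.s k154 k207 14 (.d k89 k81 k219 1 8))))))] (.c
  k101 (.l (.s k32 k16 3 (.s k96 k144 11 (.s k160 k224 7 (.s k80 k240 11 (.d k64 k112 k128 3 7))))))
  (.c k128 (.q k191 [(.s k16 k32 3 (.s k154 k223 10 (.s k117 k186 10 (.d k101 k69 k207 3 14)))), (.s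
  k24 k36 5 (.s k93 k174 12 (.s k89 k81 1 (.s k154 k219 8 (.d k16 k32 k223 3 10))))), (.s k24 k36 5
  (.s k93 k174 12 (.s k117 k186 10 (.s k101 k69 3 (.s k154 k207 14 (.d k89 k81 k219 1 8))))))] (.c
  k154 (.l (.s k16 k32 3 (.s k144 k96 11 (.s k80 k208 7 (.s k186 k117 10 (.s k176 k181 2 (.d k240
  k160 k112 11 7))))))) .n)) (.c k191 (.l (.s k128 k64 7 (.s k16 k32 3 (.s k154 k223 10 (.s k101
  k207 14 (.d k117 k69 k186 3 10)))))) .n)))) (.c k192 (.q k149 [(.s k16 k32 3 (.s k154 k223 10 (.s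
  k117 k186 10 (.d k101 k69 k207 3 14)))), (.s k32 k16 3 (.s k21 k213 7 (.s k37 k47 2 (.s k5 k53 3
  (.d k15 k10 k26 2 6))))), (.s k24 k36 5 (.s k93 k174 12 (.s k117 k186 10 (.s k101 k69 3 (.s k154
  k207 14 (.d k89 k81 k219 1 8))))))] .n) .n))) .n)))))) (.c k8 (.q k5 [(.s k15 k10 2 (.s k85 k170
  14 (.s k165 k245 11 (.s k95 k175 11 (.d k90 k80 k240 2 14))))), (.s k15 k10 2 (.s k13 k14 0 (.s
  k93 k174 12 (.s k173 k253 11 (.s k94 k252 12 (.d k95 k92 k175 0 11)))))), (.s k85 k170 14 (.s k165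
  k245 11 (.s k93 k174 12 (.s k89 k81 1 (.s k13 k241 13 (.d k15 k14 k10 0 2)))))), (.s k85 k170 14
  (.s k165 k245 11 (.s k93 k174 12 (.s k89 k81 1 (.s k13 k241 13 (.s k253 k173 11 (.d k1 k9 k169 1
  13)))))))] (.c k149 (.q k192 [(.s k15 k10 2 (.s k128 k64 7 (.s k133 k74 10 (.s k138 k143 2 (.d k69
  k197 k207 7 10))))), (.s k85 k170 14 (.s k165 k245 11 (.s k93 k174 12 (.s k89 k81 1 (.s k13 k241
  13 (.s k253 k173 11 (.d k1 k9 k169 1 13))))))), (.s k15 k10 2 (.s k13 k14 0 (.s k93 k174 12 (.s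
  k173 k253 11 (.s k94 k252 12 (.d k95 k92 k175 0 11))))))] (.c k9 (.l (.s k85 k170 14 (.s k165 k245
  11 (.s k93 k174 12 (.s k89 k81 1 (.s k13 k241 13 (.d k15 k14 k10 0 2))))))) .n)) (.c k192 (.q k149
  [(.s k15 k10 2 (.s k85 k170 14 (.s k165 k245 11 (.s k95 k175 11 (.d k90 k80 k240 2 14))))), (.s
  k15 k10 2 (.s k13 k14 0 (.s k93 k174 12 (.s k173 k253 11 (.s k94 k252 12 (.d k95 k92 k175 0
  11)))))), (.s k85 k170 14 (.s k165 k245 11 (.s k21 k213 7 (.s k53 k37 3 (.s k197 k101 11 (.d k133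
  k181 k69 3 7))))))] .n) .n))) (.c k85 (.q k15 [(.s k4 k8 1 (.s k5 k10 2 (.s k6 k7 0 (.s k13 k14 0
  (.d k9 k1 k3 1 2))))), (.s k13 k14 0 (.s k93 k174 12 (.s k173 k253 11 (.s k94 k252 12 (.d k95 k92
  k175 0 11)))))] (.c k1 (.l (.s k8 k4 1 (.s k10 k5 2 (.s k9 k11 0 (.s k6 k3 2 (.d k14 k13 k2 0
  1)))))) (.c k13 (.f k4 k8 1 (.q k192 [(.s k132 k72 9 (.s k68 k196 7 (.s k136 k204 9 (.d k128 k64
  k140 7 1)))), (.s k5 k10 2 (.s k133 k74 10 (.s k69 k197 7 (.s k138 k207 10 (.d k128 k64 k143 7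
  2)))))] (.c k64 (.q k127 [(.s k132 k72 9 (.s k68 k196 7 (.s k93 k174 12 (.s k76 k110 4 (.d k204
  k136 k140 9 7))))), (.s k5 k10 2 (.s k133 k74 10 (.s k69 k197 7 (.s k95 k175 11 (.s k79 k111 3 (.d
  k207 k138 k143 10 7))))))] .n) (.c k127 (.l (.s k64 k128 7 (.s k10 k5 2 (.s k74 k133 10 (.s k138
  k202 7 (.d k69 k79 k207 2 10)))))) (.c k128 (.l (.s k5 k10 2 (.s k7 k6 0 (.s k132 k72 9 (.s k196
  k68 7 (.d k133 k70 k74 8 10)))))) .n))))) (.c k14 (.f k4 k8 1 (.f k5 k10 2 (.l (.s k6 k7 0 (.s k9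
  k3 2 (.s k13 k1 1 (.s k93 k174 12 (.s k95 k175 11 (.s k94 k92 0 (.d k173 k253 k252 11 12))))))))))
  (.c k64 (.q k127 [(.s k4 k8 1 (.s k5 k10 2 (.s k6 k7 0 (.s k13 k14 0 (.d k9 k1 k3 1 2))))), (.s
  k93 k174 12 (.s k95 k175 11 (.s k76 k110 4 (.s k204 k140 7 (.s k78 k141 8 (.d k79 k77 k111 0
  3))))))] (.c k149 (.q k192 [(.s k4 k8 1 (.s k5 k10 2 (.s k6 k7 0 (.s k13 k14 0 (.d k9 k1 k3 1
  2))))), (.s k13 k14 0 (.s k132 k72 9 (.s k133 k74 10 (.s k73 k193 9 (.d k134 k135 k195 0 10))))),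
  (.s k4 k8 1 (.s k5 k10 2 (.s k132 k72 9 (.s k133 k74 10 (.s k69 k197 7 (.d k134 k135 k199 0
  8))))))] (.c k21 (.l (.s k213 k234 6 (.s k4 k8 1 (.s k5 k10 2 (.s k6 k7 0 (.s k9 k3 2 (.d k13 k14
  k1 0 1))))))) (.c k213 (.q k21 [(.s k4 k8 1 (.s k5 k10 2 (.s k6 k7 0 (.s k13 k14 0 (.d k9 k1 k3 1
  2))))), (.s k13 k14 0 (.s k132 k72 9 (.s k133 k74 10 (.s k73 k193 9 (.d k134 k135 k195 0 10))))),
  (.s k4 k8 1 (.s k5 k10 2 (.s k38 k55 4 (.s k37 k53 3 (.s k51 k25 6 (.d k39 k36 k27 0 5))))))] .n)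
  .n))) (.c k192 (.q k149 [(.s k4 k8 1 (.s k5 k10 2 (.s k6 k7 0 (.s k13 k14 0 (.d k9 k1 k3 1 2))))),
  (.s k93 k174 12 (.s k95 k175 11 (.s k76 k110 4 (.s k204 k140 7 (.s k78 k141 8 (.d k79 k77 k111 0
  3))))))] .n) .n))) (.c k127 (.q k64 [(.s k4 k8 1 (.s k5 k10 2 (.s k6 k7 0 (.s k13 k14 0 (.d k9 k1
  k3 1 2))))), (.s k8 k4 1 (.s k192 k128 7 (.s k72 k132 9 (.s k136 k200 7 (.d k68 k76 k204 1 9))))),
  (.s k10 k5 2 (.s k192 k128 7 (.s k74 k133 10 (.s k138 k202 7 (.d k69 k79 k207 2 10)))))] (.c k149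
  (.l (.s k192 k128 7 (.s k8 k4 1 (.s k72 k132 9 (.s k136 k200 7 (.d k68 k76 k204 1 9)))))) (.c k192
  (.q k149 [(.s k4 k8 1 (.s k5 k10 2 (.s k6 k7 0 (.s k13 k14 0 (.d k9 k1 k3 1 2))))), (.s k13 k14 0
  (.s k93 k174 12 (.s k173 k253 11 (.s k94 k252 12 (.d k95 k92 k175 0 11)))))] (.c k1 (.l (.s k8 k4
  1 (.s k10 k5 2 (.s k9 k11 0 (.s k6 k3 2 (.d k14 k13 k2 0 1)))))) (.c k13 (.q k21 [(.s k4 k8 1 (.s
  k38 k55 4 (.s k51 k25 6 (.s k39 k27 5 (.s k37 k36 0 (.d k5 k10 k53 2 3)))))), (.s k4 k8 1 (.s k55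
  k38 4 (.s k196 k102 12 (.s k68 k132 7 (.s k204 k136 9 (.d k76 k72 k140 1 7)))))), (.s k5 k10 2 (.s
  k53 k37 3 (.s k197 k101 11 (.s k69 k133 7 (.s k207 k138 10 (.d k79 k74 k143 2 7))))))] .n) (.c k14
  (.q k21 [(.s k4 k8 1 (.s k38 k55 4 (.s k51 k25 6 (.s k39 k27 5 (.s k37 k36 0 (.d k5 k10 k53 2
  3)))))), (.s k5 k10 2 (.s k53 k37 3 (.s k197 k101 11 (.s k69 k133 7 (.s k207 k138 10 (.d k79 k74
  k143 2 7)))))), (.s k4 k8 1 (.s k55 k38 4 (.s k196 k102 12 (.s k68 k132 7 (.s k204 k136 9 (.d k76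
  k72 k140 1 7))))))] .n) .n)))) .n))) (.c k149 (.q k192 [(.s k4 k8 1 (.s k5 k10 2 (.s k6 k7 0 (.s
  k13 k14 0 (.d k9 k1 k3 1 2))))), (.s k4 k8 1 (.s k132 k72 9 (.s k68 k196 7 (.s k136 k204 9 (.d
  k128 k64 k140 7 1))))), (.s k5 k10 2 (.s k133 k74 10 (.s k69 k197 7 (.s k138 k207 10 (.d k128 k64
  k143 7 2)))))] (.c k21 (.l (.s k213 k234 6 (.s k4 k8 1 (.s k5 k10 2 (.s k6 k7 0 (.s k9 k3 2 (.d
  k13 k14 k1 0 1))))))) (.c k64 (.q k127 [(.s k4 k8 1 (.s k5 k10 2 (.s k6 k7 0 (.s k13 k14 0 (.d k9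
  k1 k3 1 2))))), (.s k13 k14 0 (.s k132 k72 9 (.s k133 k74 10 (.s k73 k193 9 (.d k134 k135 k195 0
  10))))), (.s k4 k8 1 (.s k5 k10 2 (.s k132 k72 9 (.s k133 k74 10 (.s k69 k197 7 (.d k134 k135 k199
  0 8))))))] (.c k21 (.l (.s k213 k234 6 (.s k4 k8 1 (.s k5 k10 2 (.s k6 k7 0 (.s k9 k3 2 (.d k13
  k14 k1 0 1))))))) (.c k213 (.q k21 [(.s k4 k8 1 (.s k5 k10 2 (.s k6 k7 0 (.s k13 k14 0 (.d k9 k1
  k3 1 2))))), (.s k13 k14 0 (.s k132 k72 9 (.s k133 k74 10 (.s k73 k193 9 (.d k134 k135 k195 0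
  10))))), (.s k4 k8 1 (.s k5 k10 2 (.s k38 k55 4 (.s k37 k53 3 (.s k51 k25 6 (.d k39 k36 k27 0
  5))))))] .n) .n))) (.c k127 (.l (.s k64 k128 7 (.s k8 k4 1 (.s k72 k132 9 (.s k136 k200 7 (.d k68
  k76 k204 1 9)))))) (.c k213 (.q k21 [(.s k4 k8 1 (.s k5 k10 2 (.s k6 k7 0 (.s k13 k14 0 (.d k9 k1
  k3 1 2))))), (.s k4 k8 1 (.s k132 k72 9 (.s k68 k196 7 (.s k136 k204 9 (.d k128 k64 k140 7 1))))),
  (.s k5 k10 2 (.s k133 k74 10 (.s k69 k197 7 (.s k138 k207 10 (.d k128 k64 k143 7 2)))))] (.c k64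
  (.q k127 [(.s k4 k8 1 (.s k5 k10 2 (.s k6 k7 0 (.s k13 k14 0 (.d k9 k1 k3 1 2))))), (.s k13 k14 0
  (.s k132 k72 9 (.s k133 k74 10 (.s k73 k193 9 (.d k134 k135 k195 0 10))))), (.s k4 k8 1 (.s k5 k10
  2 (.s k38 k55 4 (.s k37 k53 3 (.s k51 k25 6 (.d k39 k36 k27 0 5))))))] .n) (.c k127 (.l (.s k64
  k128 7 (.s k8 k4 1 (.s k72 k132 9 (.s k136 k200 7 (.d k68 k76 k204 1 9)))))) .n))) .n))))) (.c
  k192 (.q k149 [(.s k4 k8 1 (.s k5 k10 2 (.s k6 k7 0 (.s k13 k14 0 (.d k9 k1 k3 1 2))))), (.s k13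
  k14 0 (.s k93 k174 12 (.s k173 k253 11 (.s k94 k252 12 (.d k95 k92 k175 0 11)))))] (.c k1 (.l (.s
  k8 k4 1 (.s k10 k5 2 (.s k9 k11 0 (.s k6 k3 2 (.d k14 k13 k2 0 1)))))) (.c k13 (.f k5 k10 2 (.q
  k48 [(.s k8 k4 1 (.s k16 k32 3 (.s k24 k36 5 (.s k40 k56 3 (.d k20 k28 k60 1 5))))), (.s k37 k26 6
  (.s k53 k21 3 (.s k117 k186 10 (.s k101 k197 11 (.s k165 k229 7 (.d k181 k245 k133 7 3))))))] (.c
  k16 (.l (.s k4 k8 1 (.s k7 k6 0 (.s k36 k24 5 (.s k37 k26 6 (.d k52 k20 k22 3 4)))))) (.c k64 (.q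
  k127 [(.s k8 k4 1 (.s k16 k32 3 (.s k24 k36 5 (.s k40 k56 3 (.d k20 k28 k60 1 5))))), (.s k93 k174
  12 (.s k95 k175 11 (.s k76 k110 4 (.s k204 k140 7 (.s k78 k141 8 (.d k79 k77 k111 0 3))))))] .n)
  (.c k127 (.q k64 [(.s k8 k4 1 (.s k16 k32 3 (.s k24 k36 5 (.s k40 k56 3 (.d k20 k28 k60 1 5))))),
  (.s k37 k26 6 (.s k53 k21 3 (.s k117 k186 10 (.s k101 k197 11 (.s k165 k229 7 (.d k181 k245 k133 7
  3))))))] (.c k16 (.l (.s k4 k8 1 (.s k7 k6 0 (.s k36 k24 5 (.s k37 k26 6 (.d k52 k20 k22 3 4))))))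
  .n)) .n))))) (.c k14 (.f k4 k8 1 (.f k5 k10 2 (.l (.s k6 k7 0 (.s k9 k3 2 (.s k13 k1 1 (.s k93
  k174 12 (.s k95 k175 11 (.s k94 k92 0 (.d k173 k253 k252 11 12)))))))))) (.c k64 (.q k127 [(.s k4
  k8 1 (.s k5 k10 2 (.s k6 k7 0 (.s k13 k14 0 (.d k9 k1 k3 1 2))))), (.s k93 k174 12 (.s k95 k175 11
  (.s k76 k110 4 (.s k204 k140 7 (.s k78 k141 8 (.d k79 k77 k111 0 3))))))] .n) (.c k127 (.q k64
  [(.s k4 k8 1 (.s k5 k10 2 (.s k6 k7 0 (.s k13 k14 0 (.d k9 k1 k3 1 2))))), (.s k13 k14 0 (.s k93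
  k174 12 (.s k173 k253 11 (.s k94 k252 12 (.d k95 k92 k175 0 11)))))] (.c k1 (.l (.s k8 k4 1 (.s
  k10 k5 2 (.s k9 k11 0 (.s k6 k3 2 (.d k14 k13 k2 0 1)))))) (.c k13 (.q k21 [(.s k4 k8 1 (.s k38
  k55 4 (.s k51 k25 6 (.s k39 k27 5 (.s k37 k36 0 (.d k5 k10 k53 2 3)))))), (.s k4 k8 1 (.s k55 k38
  4 (.s k196 k102 12 (.s k68 k132 7 (.s k204 k136 9 (.d k76 k72 k140 1 7)))))), (.s k5 k10 2 (.s k53
  k37 3 (.s k197 k101 11 (.s k69 k133 7 (.s k207 k138 10 (.d k79 k74 k143 2 7))))))] .n) (.c k14 (.q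
  k21 [(.s k4 k8 1 (.s k38 k55 4 (.s k51 k25 6 (.s k39 k27 5 (.s k37 k36 0 (.d k5 k10 k53 2 3)))))),
  (.s k5 k10 2 (.s k53 k37 3 (.s k197 k101 11 (.s k69 k133 7 (.s k207 k138 10 (.d k79 k74 k143 2
  7)))))), (.s k4 k8 1 (.s k55 k38 4 (.s k196 k102 12 (.s k68 k132 7 (.s k204 k136 9 (.d k76 k72
  k140 1 7))))))] .n) .n)))) .n)))))) .n)))))))) (.c k89 (.q k1 [(.s k3 k2 0 (.s k8 k4 1 (.s k9 k6 2
  (.s k10 k11 0 (.d k5 k13 k15 1 2))))), (.s k3 k2 0 (.s k85 k170 14 (.s k169 k253 13 (.s k86 k252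
  14 (.d k87 k84 k171 0 13))))), (.s k85 k170 14 (.s k253 k169 13 (.s k93 k174 12 (.s k13 k173 11
  (.s k15 k14 0 (.d k5 k9 k10 1 2))))))] (.c k8 (.l (.s k3 k2 0 (.s k9 k6 2 (.s k13 k5 1 (.s k93
  k174 12 (.s k253 k173 11 (.d k85 k169 k170 13 14))))))) (.c k72 (.q k123 [(.s k3 k2 0 (.s k8 k4 1
  (.s k9 k6 2 (.s k10 k11 0 (.d k5 k13 k15 1 2))))), (.s k3 k2 0 (.s k85 k170 14 (.s k169 k253 13
  (.s k86 k252 14 (.d k87 k84 k171 0 13))))), (.s k85 k170 14 (.s k253 k169 13 (.s k93 k174 12 (.s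
  k13 k173 11 (.s k15 k14 0 (.d k5 k9 k10 1 2))))))] (.c k8 (.l (.s k3 k2 0 (.s k9 k6 2 (.s k13 k5 1
  (.s k93 k174 12 (.s k253 k173 11 (.d k85 k169 k170 13 14))))))) (.c k149 (.q k192 [(.s k3 k2 0 (.s
  k8 k4 1 (.s k9 k6 2 (.s k10 k11 0 (.d k5 k13 k15 1 2))))), (.s k3 k2 0 (.s k128 k64 7 (.s k129 k66
  8 (.s k65 k193 7 (.d k130 k131 k195 0 8))))), (.s k85 k170 14 (.s k253 k169 13 (.s k93 k174 12 (.s
  k13 k173 11 (.s k15 k14 0 (.d k5 k9 k10 1 2))))))] (.c k29 (.q k209 [(.s k3 k2 0 (.s k8 k4 1 (.s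
  k9 k6 2 (.s k10 k11 0 (.d k5 k13 k15 1 2))))), (.s k64 k128 7 (.s k243 k226 4 (.s k81 k162 12 (.s
  k145 k17 7 (.d k98 k115 k51 4 12)))))] .n) (.c k209 (.q k29 [(.s k3 k2 0 (.s k8 k4 1 (.s k9 k6 2
  (.s k10 k11 0 (.d k5 k13 k15 1 2))))), (.s k3 k2 0 (.s k128 k64 7 (.s k129 k66 8 (.s k65 k193 7
  (.d k130 k131 k195 0 8))))), (.s k85 k170 14 (.s k253 k169 13 (.s k93 k174 12 (.s k13 k173 11 (.s
  k15 k14 0 (.d k5 k9 k10 1 2))))))] .n) .n))) (.c k192 (.q k149 [(.s k3 k2 0 (.s k8 k4 1 (.s k9 k6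
  2 (.s k10 k11 0 (.d k5 k13 k15 1 2))))), (.s k85 k170 14 (.s k169 k253 13 (.s k21 k213 7 (.s k61
  k41 5 (.s k193 k105 13 (.d k129 k189 k65 5 7))))))] (.c k8 (.l (.s k3 k2 0 (.s k9 k6 2 (.s k13 k5
  1 (.s k93 k174 12 (.s k253 k173 11 (.d k85 k169 k170 13 14))))))) .n)) .n)))) (.c k123 (.q k72
  [(.s k3 k2 0 (.s k8 k4 1 (.s k9 k6 2 (.s k10 k11 0 (.d k5 k13 k15 1 2))))), (.s k8 k4 1 (.s k136
  k200 7 (.s k68 k204 9 (.s k192 k132 9 (.d k64 k76 k128 1 7)))))] (.c k4 (.l (.s k3 k2 0 (.s k85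
  k170 14 (.s k169 k253 13 (.s k86 k252 14 (.d k87 k84 k171 0 13)))))) (.c k8 (.l (.s k3 k2 0 (.s k9
  k6 2 (.s k13 k5 1 (.s k93 k174 12 (.s k253 k173 11 (.d k85 k169 k170 13 14))))))) (.c k149 (.l (.s
  k192 k132 9 (.s k8 k4 1 (.s k64 k128 7 (.s k136 k200 7 (.d k68 k76 k204 1 9)))))) (.c k183 (.q
  k243 [(.s k3 k2 0 (.s k81 k162 12 (.s k83 k163 11 (.s k82 k80 0 (.d k161 k241 k240 11 12))))), (.s
  k8 k4 1 (.s k136 k200 7 (.s k68 k204 9 (.s k192 k132 9 (.d k64 k76 k128 1 7)))))] (.c k149 (.f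
  k192 k132 9 (.q k166 [(.s k4 k8 1 (.d k85 k170 k247 14 12)), (.s k162 k81 12 (.d k170 k85 k174 14
  1)), (.s k8 k4 1 (.s k136 k200 7 (.s k68 k204 9 (.d k64 k76 k128 1 7))))] (.c k29 (.l (.s k209
  k226 4 (.s k4 k8 1 (.d k85 k170 k247 14 12)))) (.c k209 (.q k29 [(.s k4 k8 1 (.d k85 k170 k247 14
  12)), (.s k162 k81 12 (.d k170 k85 k174 14 1)), (.s k8 k4 1 (.s k136 k200 7 (.s k68 k204 9 (.d k64
  k76 k128 1 7))))] .n) .n)))) (.c k192 (.q k149 [(.s k3 k2 0 (.s k81 k162 12 (.s k83 k163 11 (.s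
  k82 k80 0 (.d k161 k241 k240 11 12))))), (.s k8 k4 1 (.s k170 k85 14 (.s k136 k200 7 (.s k204 k68
  9 (.s k140 k76 7 (.d k128 k132 k191 1 6))))))] (.c k81 (.l (.s k3 k2 0 (.s k8 k4 1 (.s k9 k6 2 (.s
  k5 k13 1 (.d k10 k11 k15 0 2)))))) .n)) .n))) (.c k192 (.q k149 [(.s k3 k2 0 (.s k8 k4 1 (.s k9 k6
  2 (.s k10 k11 0 (.d k5 k13 k15 1 2))))), (.s k8 k4 1 (.s k170 k85 14 (.s k136 k200 7 (.s k204 k68
  9 (.s k140 k76 7 (.d k128 k132 k191 1 6))))))] (.c k4 (.l (.s k3 k2 0 (.s k85 k170 14 (.s k169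
  k253 13 (.s k86 k252 14 (.d k87 k84 k171 0 13)))))) (.c k8 (.l (.s k3 k2 0 (.s k9 k6 2 (.s k13 k5
  1 (.s k93 k174 12 (.s k253 k173 11 (.d k85 k169 k170 13 14))))))) (.c k183 (.q k243 [(.s k3 k2 0
  (.s k81 k162 12 (.s k83 k163 11 (.s k82 k80 0 (.d k161 k241 k240 11 12))))), (.s k8 k4 1 (.s k170
  k85 14 (.s k136 k200 7 (.s k204 k68 9 (.s k140 k76 7 (.d k128 k132 k191 1 6))))))] (.c k81 (.l (.s
  k3 k2 0 (.s k8 k4 1 (.s k9 k6 2 (.s k5 k13 1 (.d k10 k11 k15 0 2)))))) .n)) (.c k243 (.q k183 [(.s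
  k4 k8 1 (.s k166 k132 4 (.d k85 k170 k247 14 12))), (.s k3 k2 0 (.s k8 k4 1 (.s k9 k6 2 (.s k5 k13
  1 (.d k10 k11 k15 0 2))))), (.s k170 k85 14 (.s k166 k132 4 (.d k174 k93 k162 12 1)))] (.c k209
  (.q k226 [(.s k4 k8 1 (.s k166 k132 4 (.d k85 k170 k247 14 12))), (.s k3 k2 0 (.s k8 k4 1 (.s k9
  k6 2 (.s k5 k13 1 (.d k10 k11 k15 0 2))))), (.s k170 k85 14 (.s k166 k132 4 (.d k174 k93 k162 12
  1)))] .n) (.c k226 (.q k209 [(.s k4 k8 1 (.s k166 k132 4 (.d k85 k170 k247 14 12))), (.s k3 k2 0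
  (.s k8 k4 1 (.s k9 k6 2 (.s k5 k13 1 (.d k10 k11 k15 0 2))))), (.s k170 k85 14 (.s k166 k132 4 (.d
  k174 k93 k162 12 1)))] (.c k46 (.l (.s k166 k132 4 (.s k4 k8 1 (.d k85 k170 k247 14 12)))) (.c
  k166 (.q k46 [(.s k3 k2 0 (.s k8 k4 1 (.s k9 k6 2 (.s k10 k11 0 (.d k5 k13 k15 1 2))))), (.s k174
  k93 12 (.s k238 k110 7 (.s k204 k221 4 (.s k68 k136 9 (.d k76 k64 k140 1 7)))))] (.c k85 (.l (.s
  k3 k2 0 (.s k9 k6 2 (.s k5 k13 1 (.s k10 k15 2 (.d k8 k11 k4 0 1)))))) .n)) .n))) .n))) .n)))))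
  (.c k243 (.q k183 [(.s k3 k2 0 (.s k8 k4 1 (.s k9 k6 2 (.s k10 k11 0 (.d k5 k13 k15 1 2))))), (.s
  k8 k4 1 (.s k136 k200 7 (.s k68 k204 9 (.s k192 k132 9 (.d k64 k76 k128 1 7)))))] (.c k4 (.l (.s
  k3 k2 0 (.s k85 k170 14 (.s k169 k253 13 (.s k86 k252 14 (.d k87 k84 k171 0 13)))))) (.c k8 (.l
  (.s k3 k2 0 (.s k9 k6 2 (.s k13 k5 1 (.s k93 k174 12 (.s k253 k173 11 (.d k85 k169 k170 13
  14))))))) (.c k149 (.l (.s k192 k132 9 (.s k8 k4 1 (.s k64 k128 7 (.s k136 k200 7 (.d k68 k76 k204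
  1 9)))))) (.c k192 (.q k149 [(.s k4 k8 1 (.s k166 k132 4 (.d k85 k170 k247 14 12))), (.s k3 k2 0
  (.s k8 k4 1 (.s k9 k6 2 (.s k5 k13 1 (.d k10 k11 k15 0 2))))), (.s k170 k85 14 (.s k166 k132 4 (.d
  k174 k93 k162 12 1)))] (.c k209 (.q k226 [(.s k4 k8 1 (.s k166 k132 4 (.d k85 k170 k247 14 12))),
  (.s k3 k2 0 (.s k8 k4 1 (.s k9 k6 2 (.s k5 k13 1 (.d k10 k11 k15 0 2))))), (.s k170 k85 14 (.s
  k166 k132 4 (.d k174 k93 k162 12 1)))] .n) (.c k226 (.q k209 [(.s k4 k8 1 (.s k166 k132 4 (.d k85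
  k170 k247 14 12))), (.s k3 k2 0 (.s k8 k4 1 (.s k9 k6 2 (.s k5 k13 1 (.d k10 k11 k15 0 2))))), (.s
  k170 k85 14 (.s k166 k132 4 (.d k174 k93 k162 12 1)))] (.c k46 (.l (.s k166 k132 4 (.s k4 k8 1 (.d
  k85 k170 k247 14 12)))) (.c k166 (.q k46 [(.s k3 k2 0 (.s k8 k4 1 (.s k9 k6 2 (.s k10 k11 0 (.d k5
  k13 k15 1 2))))), (.s k174 k93 12 (.s k238 k110 7 (.s k204 k221 4 (.s k68 k136 9 (.d k76 k64 k140
  1 7)))))] (.c k85 (.l (.s k3 k2 0 (.s k9 k6 2 (.s k5 k13 1 (.s k10 k15 2 (.d k8 k11 k4 0 1))))))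
  .n)) .n))) .n))) .n))))) .n))))))) (.c k149 (.q k192 [(.s k3 k2 0 (.s k8 k4 1 (.s k9 k6 2 (.s k10
  k11 0 (.d k5 k13 k15 1 2))))), (.s k8 k4 1 (.s k64 k128 7 (.s k72 k132 9 (.s k136 k200 7 (.d k68
  k76 k204 1 9))))), (.s k3 k2 0 (.s k128 k64 7 (.s k129 k66 8 (.s k65 k193 7 (.d k130 k131 k195 0
  8)))))] (.c k29 (.q k209 [(.s k3 k2 0 (.s k8 k4 1 (.s k9 k6 2 (.s k10 k11 0 (.d k5 k13 k15 1
  2))))), (.s k8 k4 1 (.s k64 k128 7 (.s k72 k132 9 (.s k136 k200 7 (.d k68 k76 k204 1 9))))), (.s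
  k3 k2 0 (.s k128 k64 7 (.s k129 k66 8 (.s k65 k193 7 (.d k130 k131 k195 0 8)))))] (.c k72 (.q k123
  [(.s k3 k2 0 (.s k8 k4 1 (.s k9 k6 2 (.s k10 k11 0 (.d k5 k13 k15 1 2))))), (.s k64 k128 7 (.s
  k243 k226 4 (.s k81 k162 12 (.s k145 k17 7 (.d k98 k115 k51 4 12)))))] .n) (.c k123 (.l (.s k72
  k132 9 (.s k8 k4 1 (.s k64 k128 7 (.s k136 k200 7 (.d k68 k76 k204 1 9)))))) .n))) (.c k72 (.q
  k123 [(.s k3 k2 0 (.s k8 k4 1 (.s k9 k6 2 (.s k10 k11 0 (.d k5 k13 k15 1 2))))), (.s k3 k2 0 (.s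
  k128 k64 7 (.s k129 k66 8 (.s k65 k193 7 (.d k130 k131 k195 0 8))))), (.s k85 k170 14 (.s k253
  k169 13 (.s k93 k174 12 (.s k13 k173 11 (.s k15 k14 0 (.d k5 k9 k10 1 2))))))] (.c k29 (.q k209
  [(.s k3 k2 0 (.s k8 k4 1 (.s k9 k6 2 (.s k10 k11 0 (.d k5 k13 k15 1 2))))), (.s k64 k128 7 (.s
  k243 k226 4 (.s k81 k162 12 (.s k145 k17 7 (.d k98 k115 k51 4 12)))))] .n) (.c k209 (.q k29 [(.s
  k3 k2 0 (.s k8 k4 1 (.s k9 k6 2 (.s k10 k11 0 (.d k5 k13 k15 1 2))))), (.s k3 k2 0 (.s k128 k64 7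
  (.s k129 k66 8 (.s k65 k193 7 (.d k130 k131 k195 0 8))))), (.s k85 k170 14 (.s k253 k169 13 (.s
  k93 k174 12 (.s k13 k173 11 (.s k15 k14 0 (.d k5 k9 k10 1 2))))))] .n) .n))) (.c k123 (.l (.s k72
  k132 9 (.s k8 k4 1 (.s k64 k128 7 (.s k136 k200 7 (.d k68 k76 k204 1 9)))))) (.c k209 (.q k29 [(.s
  k3 k2 0 (.s k8 k4 1 (.s k9 k6 2 (.s k10 k11 0 (.d k5 k13 k15 1 2))))), (.s k8 k4 1 (.s k64 k128 7
  (.s k72 k132 9 (.s k136 k200 7 (.d k68 k76 k204 1 9))))), (.s k3 k2 0 (.s k128 k64 7 (.s k129 k66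
  8 (.s k65 k193 7 (.d k130 k131 k195 0 8)))))] (.c k72 (.q k123 [(.s k3 k2 0 (.s k8 k4 1 (.s k9 k6
  2 (.s k10 k11 0 (.d k5 k13 k15 1 2))))), (.s k3 k2 0 (.s k128 k64 7 (.s k129 k66 8 (.s k65 k193 7
  (.d k130 k131 k195 0 8))))), (.s k85 k170 14 (.s k253 k169 13 (.s k93 k174 12 (.s k13 k173 11 (.s
  k15 k14 0 (.d k5 k9 k10 1 2))))))] .n) (.c k123 (.l (.s k72 k132 9 (.s k8 k4 1 (.s k64 k128 7 (.s
  k136 k200 7 (.d k68 k76 k204 1 9)))))) .n))) .n))))) (.c k192 (.q k149 [(.s k3 k2 0 (.s k8 k4 1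
  (.s k9 k6 2 (.s k10 k11 0 (.d k5 k13 k15 1 2))))), (.s k85 k170 14 (.s k169 k253 13 (.s k21 k213 7
  (.s k61 k41 5 (.s k193 k105 13 (.d k129 k189 k65 5 7))))))] (.c k8 (.l (.s k3 k2 0 (.s k9 k6 2 (.s
  k13 k5 1 (.s k93 k174 12 (.s k253 k173 11 (.d k85 k169 k170 13 14))))))) (.c k72 (.q k123 [(.s k3
  k2 0 (.s k8 k4 1 (.s k9 k6 2 (.s k10 k11 0 (.d k5 k13 k15 1 2))))), (.s k85 k170 14 (.s k169 k253
  13 (.s k21 k213 7 (.s k61 k41 5 (.s k193 k105 13 (.d k129 k189 k65 5 7))))))] (.c k8 (.l (.s k3 k2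
  0 (.s k9 k6 2 (.s k13 k5 1 (.s k93 k174 12 (.s k253 k173 11 (.d k85 k169 k170 13 14))))))) .n))
  (.c k123 (.q k72 [(.s k3 k2 0 (.s k8 k4 1 (.s k9 k6 2 (.s k10 k11 0 (.d k5 k13 k15 1 2))))), (.s
  k8 k4 1 (.s k170 k85 14 (.s k136 k200 7 (.s k204 k68 9 (.s k140 k76 7 (.d k128 k132 k191 1
  6))))))] (.c k4 (.l (.s k3 k2 0 (.s k85 k170 14 (.s k169 k253 13 (.s k86 k252 14 (.d k87 k84 k171
  0 13)))))) (.c k8 (.l (.s k3 k2 0 (.s k9 k6 2 (.s k13 k5 1 (.s k93 k174 12 (.s k253 k173 11 (.d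
  k85 k169 k170 13 14))))))) (.c k183 (.q k243 [(.s k3 k2 0 (.s k81 k162 12 (.s k83 k163 11 (.s k82
  k80 0 (.d k161 k241 k240 11 12))))), (.s k8 k4 1 (.s k170 k85 14 (.s k136 k200 7 (.s k204 k68 9
  (.s k140 k76 7 (.d k128 k132 k191 1 6))))))] (.c k81 (.l (.s k3 k2 0 (.s k8 k4 1 (.s k9 k6 2 (.s
  k5 k13 1 (.d k10 k11 k15 0 2)))))) .n)) (.c k243 (.q k183 [(.s k4 k8 1 (.s k166 k132 4 (.d k85
  k170 k247 14 12))), (.s k3 k2 0 (.s k8 k4 1 (.s k9 k6 2 (.s k5 k13 1 (.d k10 k11 k15 0 2))))), (.s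
  k170 k85 14 (.s k166 k132 4 (.d k174 k93 k162 12 1)))] (.c k209 (.q k226 [(.s k4 k8 1 (.s k166
  k132 4 (.d k85 k170 k247 14 12))), (.s k3 k2 0 (.s k8 k4 1 (.s k9 k6 2 (.s k5 k13 1 (.d k10 k11
  k15 0 2))))), (.s k170 k85 14 (.s k166 k132 4 (.d k174 k93 k162 12 1)))] .n) (.c k226 (.q k209
  [(.s k4 k8 1 (.s k166 k132 4 (.d k85 k170 k247 14 12))), (.s k3 k2 0 (.s k8 k4 1 (.s k9 k6 2 (.s
  k5 k13 1 (.d k10 k11 k15 0 2))))), (.s k170 k85 14 (.s k166 k132 4 (.d k174 k93 k162 12 1)))] (.c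
  k46 (.l (.s k166 k132 4 (.s k4 k8 1 (.d k85 k170 k247 14 12)))) (.c k166 (.q k46 [(.s k3 k2 0 (.s
  k8 k4 1 (.s k9 k6 2 (.s k10 k11 0 (.d k5 k13 k15 1 2))))), (.s k174 k93 12 (.s k238 k110 7 (.s
  k204 k221 4 (.s k68 k136 9 (.d k76 k64 k140 1 7)))))] (.c k85 (.l (.s k3 k2 0 (.s k9 k6 2 (.s k5
  k13 1 (.s k10 k15 2 (.d k8 k11 k4 0 1)))))) .n)) .n))) .n))) .n))))) .n)))) .n)))))) (.c k93 (.f
  k4 k8 1 (.q k48 [(.s k32 k16 3 (.s k36 k24 5 (.s k20 k52 3 (.d k40 k44 k60 1 5)))), (.s k16 k32 3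
  (.s k85 k170 14 (.s k154 k223 10 (.s k101 k207 14 (.d k117 k69 k186 3 10))))), (.s k85 k170 14 (.s
  k166 k247 12 (.s k36 k24 5 (.s k101 k231 8 (.d k117 k69 k186 3 10)))))] (.c k149 (.q k192 [(.s k32
  k16 3 (.s k36 k24 5 (.s k20 k52 3 (.d k40 k44 k60 1 5)))), (.s k128 k64 7 (.s k132 k72 9 (.s k68
  k196 7 (.d k136 k140 k204 1 9))))] .n) (.c k192 (.q k149 [(.s k32 k16 3 (.s k36 k24 5 (.s k20 k52
  3 (.d k40 k44 k60 1 5)))), (.s k16 k32 3 (.s k85 k170 14 (.s k154 k223 10 (.s k101 k207 14 (.d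
  k117 k69 k186 3 10))))), (.s k85 k170 14 (.s k166 k247 12 (.s k36 k24 5 (.s k101 k231 8 (.d k117
  k69 k186 3 10)))))] .n) .n)))) (.c k149 (.q k192 [(.s k4 k8 1 (.s k85 k170 14 (.s k166 k247 12 (.s
  k93 k174 12 (.d k89 k81 k243 1 14))))), (.s k4 k8 1 (.s k132 k72 9 (.s k68 k196 7 (.s k136 k204 9
  (.d k128 k140 k64 1 7)))))] (.c k4 (.f k85 k170 14 (.l (.s k128 k64 7 (.s k93 k174 12 (.s k81 k89
  1 (.s k162 k243 12 (.s k145 k179 4 (.s k51 k98 12 (.d k17 k209 k34 7 4))))))))) (.c k8 (.q k48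
  [(.s k16 k32 3 (.s k128 k64 7 (.s k144 k96 11 (.s k160 k176 3 (.d k80 k208 k240 7 11))))), (.s k85
  k170 14 (.s k24 k36 5 (.s k93 k174 12 (.s k117 k186 10 (.s k101 k69 3 (.s k154 k207 14 (.d k89 k81
  k219 1 8))))))), (.s k64 k128 7 (.s k72 k132 9 (.s k96 k144 11 (.s k76 k68 1 (.s k112 k80 3 (.s
  k88 k100 5 (.d k240 k176 k164 7 13)))))))] (.c k128 (.l (.s k32 k16 3 (.s k170 k85 14 (.s k101
  k239 10 (.s k154 k207 14 (.d k186 k138 k117 3 10)))))) .n)) (.c k89 (.l (.s k8 k4 1 (.s k64 k128 7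
  (.s k72 k132 9 (.s k136 k200 7 (.d k68 k76 k204 1 9)))))) (.c k128 (.l (.s k8 k4 1 (.s k170 k85 14
  (.s k89 k251 12 (.s k166 k243 14 (.d k174 k162 k93 1 12)))))) .n))))) (.c k166 (.q k2 [(.s k3 k1 0
  (.s k4 k8 1 (.s k6 k9 2 (.s k5 k7 0 (.d k10 k14 k15 1 2))))), (.s k3 k1 0 (.s k170 k85 14 (.s k86
  k254 13 (.s k169 k252 14 (.d k171 k168 k87 0 13))))), (.s k170 k85 14 (.s k254 k86 13 (.s k174 k93
  12 (.s k14 k94 11 (.s k15 k13 0 (.d k10 k6 k5 1 2))))))] (.c k4 (.l (.s k3 k1 0 (.s k6 k9 2 (.s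
  k14 k10 1 (.s k174 k93 12 (.s k254 k94 11 (.d k170 k86 k85 13 14))))))) (.c k46 (.q k226 [(.s k3
  k1 0 (.s k4 k8 1 (.s k6 k9 2 (.s k5 k7 0 (.d k10 k14 k15 1 2))))), (.s k3 k1 0 (.s k170 k85 14 (.s
  k86 k254 13 (.s k169 k252 14 (.d k171 k168 k87 0 13))))), (.s k170 k85 14 (.s k254 k86 13 (.s k174
  k93 12 (.s k14 k94 11 (.s k15 k13 0 (.d k10 k6 k5 1 2))))))] (.c k4 (.l (.s k3 k1 0 (.s k6 k9 2
  (.s k14 k10 1 (.s k174 k93 12 (.s k254 k94 11 (.d k170 k86 k85 13 14))))))) (.c k149 (.q k192 [(.s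
  k3 k1 0 (.s k4 k8 1 (.s k6 k9 2 (.s k5 k7 0 (.d k10 k14 k15 1 2))))), (.s k4 k8 1 (.s k128 k64 7
  (.s k132 k72 9 (.s k68 k196 7 (.d k136 k140 k204 1 9))))), (.s k3 k1 0 (.s k64 k128 7 (.s k66 k129
  8 (.s k130 k194 7 (.d k65 k67 k195 0 8)))))] (.c k132 (.q k183 [(.s k3 k1 0 (.s k4 k8 1 (.s k6 k9
  2 (.s k5 k7 0 (.d k10 k14 k15 1 2))))), (.s k128 k64 7 (.s k243 k209 4 (.s k162 k81 12 (.s k98 k34
  7 (.d k145 k179 k51 4 12)))))] .n) (.c k183 (.l (.s k132 k72 9 (.s k4 k8 1 (.s k128 k64 7 (.s k68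
  k196 7 (.d k136 k140 k204 1 9)))))) .n))) (.c k192 (.q k149 [(.s k3 k1 0 (.s k4 k8 1 (.s k6 k9 2
  (.s k5 k7 0 (.d k10 k14 k15 1 2))))), (.s k3 k1 0 (.s k170 k85 14 (.s k86 k254 13 (.s k169 k252 14
  (.d k171 k168 k87 0 13))))), (.s k170 k85 14 (.s k254 k86 13 (.s k174 k93 12 (.s k14 k94 11 (.s
  k15 k13 0 (.d k10 k6 k5 1 2))))))] (.c k4 (.l (.s k3 k1 0 (.s k6 k9 2 (.s k14 k10 1 (.s k174 k93
  12 (.s k254 k94 11 (.d k170 k86 k85 13 14))))))) .n)) .n)))) (.c k149 (.q k192 [(.s k3 k1 0 (.s k4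
  k8 1 (.s k6 k9 2 (.s k5 k7 0 (.d k10 k14 k15 1 2))))), (.s k4 k8 1 (.s k128 k64 7 (.s k132 k72 9
  (.s k68 k196 7 (.d k136 k140 k204 1 9))))), (.s k3 k1 0 (.s k64 k128 7 (.s k66 k129 8 (.s k130
  k194 7 (.d k65 k67 k195 0 8)))))] (.c k46 (.q k226 [(.s k3 k1 0 (.s k4 k8 1 (.s k6 k9 2 (.s k5 k7
  0 (.d k10 k14 k15 1 2))))), (.s k4 k8 1 (.s k128 k64 7 (.s k132 k72 9 (.s k68 k196 7 (.d k136 k140
  k204 1 9))))), (.s k3 k1 0 (.s k64 k128 7 (.s k66 k129 8 (.s k130 k194 7 (.d k65 k67 k195 0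
  8)))))] (.c k132 (.q k183 [(.s k3 k1 0 (.s k4 k8 1 (.s k6 k9 2 (.s k5 k7 0 (.d k10 k14 k15 1
  2))))), (.s k128 k64 7 (.s k243 k209 4 (.s k162 k81 12 (.s k98 k34 7 (.d k145 k179 k51 4 12)))))]
  .n) (.c k183 (.l (.s k132 k72 9 (.s k4 k8 1 (.s k128 k64 7 (.s k68 k196 7 (.d k136 k140 k204 1
  9)))))) .n))) (.c k132 (.q k183 [(.s k3 k1 0 (.s k4 k8 1 (.s k6 k9 2 (.s k5 k7 0 (.d k10 k14 k15 1
  2))))), (.s k3 k1 0 (.s k64 k128 7 (.s k66 k129 8 (.s k130 k194 7 (.d k65 k67 k195 0 8))))), (.s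
  k170 k85 14 (.s k254 k86 13 (.s k174 k93 12 (.s k14 k94 11 (.s k15 k13 0 (.d k10 k6 k5 1 2))))))]
  (.c k46 (.q k226 [(.s k3 k1 0 (.s k4 k8 1 (.s k6 k9 2 (.s k5 k7 0 (.d k10 k14 k15 1 2))))), (.s
  k128 k64 7 (.s k243 k209 4 (.s k162 k81 12 (.s k98 k34 7 (.d k145 k179 k51 4 12)))))] .n) (.c k226
  (.q k46 [(.s k3 k1 0 (.s k4 k8 1 (.s k6 k9 2 (.s k5 k7 0 (.d k10 k14 k15 1 2))))), (.s k3 k1 0 (.s
  k64 k128 7 (.s k66 k129 8 (.s k130 k194 7 (.d k65 k67 k195 0 8))))), (.s k170 k85 14 (.s k254 k86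
  13 (.s k174 k93 12 (.s k14 k94 11 (.s k15 k13 0 (.d k10 k6 k5 1 2))))))] .n) .n))) (.c k183 (.l
  (.s k132 k72 9 (.s k4 k8 1 (.s k128 k64 7 (.s k68 k196 7 (.d k136 k140 k204 1 9)))))) (.c k226 (.q
  k46 [(.s k3 k1 0 (.s k4 k8 1 (.s k6 k9 2 (.s k5 k7 0 (.d k10 k14 k15 1 2))))), (.s k4 k8 1 (.s
  k128 k64 7 (.s k132 k72 9 (.s k68 k196 7 (.d k136 k140 k204 1 9))))), (.s k3 k1 0 (.s k64 k128 7
  (.s k66 k129 8 (.s k130 k194 7 (.d k65 k67 k195 0 8)))))] (.c k132 (.q k183 [(.s k3 k1 0 (.s k4 k8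
  1 (.s k6 k9 2 (.s k5 k7 0 (.d k10 k14 k15 1 2))))), (.s k3 k1 0 (.s k64 k128 7 (.s k66 k129 8 (.s
  k130 k194 7 (.d k65 k67 k195 0 8))))), (.s k170 k85 14 (.s k254 k86 13 (.s k174 k93 12 (.s k14 k94
  11 (.s k15 k13 0 (.d k10 k6 k5 1 2))))))] .n) (.c k183 (.l (.s k132 k72 9 (.s k4 k8 1 (.s k128 k64
  7 (.s k68 k196 7 (.d k136 k140 k204 1 9)))))) .n))) .n))))) (.c k192 (.q k149 [(.s k3 k1 0 (.s k4
  k8 1 (.s k6 k9 2 (.s k5 k7 0 (.d k10 k14 k15 1 2))))), (.s k3 k1 0 (.s k170 k85 14 (.s k86 k254 13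
  (.s k169 k252 14 (.d k171 k168 k87 0 13))))), (.s k170 k85 14 (.s k254 k86 13 (.s k174 k93 12 (.s
  k14 k94 11 (.s k15 k13 0 (.d k10 k6 k5 1 2))))))] (.c k4 (.l (.s k3 k1 0 (.s k6 k9 2 (.s k14 k10 1
  (.s k174 k93 12 (.s k254 k94 11 (.d k170 k86 k85 13 14))))))) (.c k46 (.q k226 [(.s k3 k1 0 (.s k4
  k8 1 (.s k6 k9 2 (.s k5 k7 0 (.d k10 k14 k15 1 2))))), (.s k3 k1 0 (.s k170 k85 14 (.s k86 k254 13
  (.s k169 k252 14 (.d k171 k168 k87 0 13))))), (.s k170 k85 14 (.s k254 k86 13 (.s k174 k93 12 (.s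
  k14 k94 11 (.s k15 k13 0 (.d k10 k6 k5 1 2))))))] (.c k4 (.l (.s k3 k1 0 (.s k6 k9 2 (.s k14 k10 1
  (.s k174 k93 12 (.s k254 k94 11 (.d k170 k86 k85 13 14))))))) .n)) (.c k226 (.q k46 [(.s k3 k1 0
  (.s k4 k8 1 (.s k6 k9 2 (.s k5 k7 0 (.d k10 k14 k15 1 2))))), (.s k4 k8 1 (.s k85 k170 14 (.s k21
  k213 7 (.s k38 k55 4 (.s k51 k25 6 (.d k34 k42 k17 1 4))))))] (.c k4 (.l (.s k3 k1 0 (.s k6 k9 2
  (.s k14 k10 1 (.s k174 k93 12 (.s k254 k94 11 (.d k170 k86 k85 13 14))))))) (.c k8 (.l (.s k3 k1 0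
  (.s k170 k85 14 (.s k86 k254 13 (.s k169 k252 14 (.d k171 k168 k87 0 13)))))) (.c k209 (.q k243
  [(.s k3 k1 0 (.s k4 k8 1 (.s k6 k9 2 (.s k5 k7 0 (.d k10 k14 k15 1 2))))), (.s k4 k8 1 (.s k85
  k170 14 (.s k21 k213 7 (.s k38 k55 4 (.s k51 k25 6 (.d k34 k42 k17 1 4)))))), (.s k3 k1 0 (.s k162
  k81 12 (.s k82 k242 11 (.s k161 k240 12 (.d k163 k160 k83 0 11)))))] .n) (.c k243 (.q k209 [(.s k8
  k4 1 (.s k89 k29 9 (.d k170 k85 k251 14 12))), (.s k3 k1 0 (.s k4 k8 1 (.s k6 k9 2 (.s k10 k14 1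
  (.d k5 k7 k15 0 2))))), (.s k85 k170 14 (.s k89 k29 9 (.d k93 k174 k81 12 1)))] (.c k123 (.q k183
  [(.s k8 k4 1 (.s k89 k29 9 (.d k170 k85 k251 14 12))), (.s k3 k1 0 (.s k4 k8 1 (.s k6 k9 2 (.s k10
  k14 1 (.d k5 k7 k15 0 2))))), (.s k85 k170 14 (.s k89 k29 9 (.d k93 k174 k81 12 1)))] (.c k72 (.l
  (.s k89 k29 9 (.s k8 k4 1 (.d k170 k85 k251 14 12)))) (.c k89 (.q k72 [(.s k3 k1 0 (.s k4 k8 1 (.s
  k6 k9 2 (.s k5 k7 0 (.d k10 k14 k15 1 2))))), (.s k8 k4 1 (.s k136 k200 7 (.s k204 k68 9 (.s k174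
  k93 12 (.d k238 k221 k110 4 7)))))] (.c k4 (.l (.s k85 k170 14 (.s k174 k93 12 (.s k213 k21 7 (.s
  k238 k110 7 (.d k221 k204 k217 4 1)))))) (.c k8 (.l (.s k3 k1 0 (.s k170 k85 14 (.s k86 k254 13
  (.s k169 k252 14 (.d k171 k168 k87 0 13)))))) .n))) .n))) (.c k183 (.q k123 [(.s k8 k4 1 (.s k89
  k29 9 (.d k170 k85 k251 14 12))), (.s k3 k1 0 (.s k4 k8 1 (.s k6 k9 2 (.s k10 k14 1 (.d k5 k7 k15
  0 2))))), (.s k85 k170 14 (.s k89 k29 9 (.d k93 k174 k81 12 1)))] .n) .n))) .n))))) .n)))) (.c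
  k226 (.q k46 [(.s k3 k1 0 (.s k4 k8 1 (.s k6 k9 2 (.s k5 k7 0 (.d k10 k14 k15 1 2))))), (.s k3 k1
  0 (.s k170 k85 14 (.s k86 k254 13 (.s k169 k252 14 (.d k171 k168 k87 0 13))))), (.s k170 k85 14
  (.s k254 k86 13 (.s k174 k93 12 (.s k14 k94 11 (.s k15 k13 0 (.d k10 k6 k5 1 2))))))] (.c k4 (.l
  (.s k3 k1 0 (.s k6 k9 2 (.s k14 k10 1 (.s k174 k93 12 (.s k254 k94 11 (.d k170 k86 k85 13
  14))))))) (.c k149 (.q k192 [(.s k3 k1 0 (.s k4 k8 1 (.s k6 k9 2 (.s k5 k7 0 (.d k10 k14 k15 1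
  2))))), (.s k4 k8 1 (.s k128 k64 7 (.s k132 k72 9 (.s k68 k196 7 (.d k136 k140 k204 1 9))))), (.s
  k3 k1 0 (.s k64 k128 7 (.s k66 k129 8 (.s k130 k194 7 (.d k65 k67 k195 0 8)))))] (.c k132 (.q k183
  [(.s k3 k1 0 (.s k4 k8 1 (.s k6 k9 2 (.s k5 k7 0 (.d k10 k14 k15 1 2))))), (.s k3 k1 0 (.s k64
  k128 7 (.s k66 k129 8 (.s k130 k194 7 (.d k65 k67 k195 0 8))))), (.s k170 k85 14 (.s k254 k86 13
  (.s k174 k93 12 (.s k14 k94 11 (.s k15 k13 0 (.d k10 k6 k5 1 2))))))] .n) (.c k183 (.l (.s k132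
  k72 9 (.s k4 k8 1 (.s k128 k64 7 (.s k68 k196 7 (.d k136 k140 k204 1 9)))))) .n))) (.c k192 (.q
  k149 [(.s k3 k1 0 (.s k4 k8 1 (.s k6 k9 2 (.s k5 k7 0 (.d k10 k14 k15 1 2))))), (.s k4 k8 1 (.s
  k85 k170 14 (.s k21 k213 7 (.s k38 k55 4 (.s k51 k25 6 (.d k34 k42 k17 1 4))))))] (.c k4 (.l (.s
  k3 k1 0 (.s k6 k9 2 (.s k14 k10 1 (.s k174 k93 12 (.s k254 k94 11 (.d k170 k86 k85 13 14)))))))
  (.c k8 (.l (.s k3 k1 0 (.s k170 k85 14 (.s k86 k254 13 (.s k169 k252 14 (.d k171 k168 k87 0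
  13)))))) (.c k209 (.q k243 [(.s k3 k1 0 (.s k4 k8 1 (.s k6 k9 2 (.s k5 k7 0 (.d k10 k14 k15 1
  2))))), (.s k4 k8 1 (.s k85 k170 14 (.s k21 k213 7 (.s k38 k55 4 (.s k51 k25 6 (.d k34 k42 k17 1
  4)))))), (.s k3 k1 0 (.s k162 k81 12 (.s k82 k242 11 (.s k161 k240 12 (.d k163 k160 k83 0 11)))))]
  .n) (.c k243 (.q k209 [(.s k8 k4 1 (.s k89 k29 9 (.d k170 k85 k251 14 12))), (.s k3 k1 0 (.s k4 k8
  1 (.s k6 k9 2 (.s k10 k14 1 (.d k5 k7 k15 0 2))))), (.s k85 k170 14 (.s k89 k29 9 (.d k93 k174 k81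
  12 1)))] (.c k123 (.q k183 [(.s k8 k4 1 (.s k89 k29 9 (.d k170 k85 k251 14 12))), (.s k3 k1 0 (.s
  k4 k8 1 (.s k6 k9 2 (.s k10 k14 1 (.d k5 k7 k15 0 2))))), (.s k85 k170 14 (.s k89 k29 9 (.d k93
  k174 k81 12 1)))] (.c k72 (.l (.s k89 k29 9 (.s k8 k4 1 (.d k170 k85 k251 14 12)))) (.c k89 (.q
  k72 [(.s k3 k1 0 (.s k4 k8 1 (.s k6 k9 2 (.s k5 k7 0 (.d k10 k14 k15 1 2))))), (.s k8 k4 1 (.s
  k136 k200 7 (.s k204 k68 9 (.s k174 k93 12 (.d k238 k221 k110 4 7)))))] (.c k4 (.l (.s k85 k170 14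
  (.s k174 k93 12 (.s k213 k21 7 (.s k238 k110 7 (.d k221 k204 k217 4 1)))))) (.c k8 (.l (.s k3 k1 0
  (.s k170 k85 14 (.s k86 k254 13 (.s k169 k252 14 (.d k171 k168 k87 0 13)))))) .n))) .n))) (.c k183
  (.q k123 [(.s k8 k4 1 (.s k89 k29 9 (.d k170 k85 k251 14 12))), (.s k3 k1 0 (.s k4 k8 1 (.s k6 k9
  2 (.s k10 k14 1 (.d k5 k7 k15 0 2))))), (.s k85 k170 14 (.s k89 k29 9 (.d k93 k174 k81 12 1)))]
  .n) .n))) .n))))) .n)))) .n)))))) (.c k170 (.q k13 [(.s k15 k14 0 (.s k93 k174 12 (.s k173 k253 11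
  (.s k94 k252 12 (.d k95 k92 k175 0 11))))), (.s k4 k8 1 (.s k15 k14 0 (.s k5 k10 2 (.s k9 k1 1 (.d
  k6 k7 k3 0 2)))))] (.c k14 (.q k48 [(.s k4 k8 1 (.s k32 k16 3 (.s k36 k24 5 (.s k20 k52 3 (.d k40
  k44 k60 1 5))))), (.s k93 k174 12 (.s k253 k173 11 (.s k117 k186 10 (.s k49 k185 9 (.s k25 k37 5
  (.d k51 k50 k38 0 6))))))] (.c k42 (.q k234 [(.s k4 k8 1 (.s k32 k16 3 (.s k36 k24 5 (.s k20 k52 3
  (.d k40 k44 k60 1 5))))), (.s k16 k32 3 (.s k192 k213 6 (.s k128 k64 7 (.s k144 k96 11 (.s k80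
  k208 7 (.d k160 k176 k240 3 11)))))), (.s k4 k8 1 (.s k192 k213 6 (.s k128 k64 7 (.s k132 k72 9
  (.s k68 k196 7 (.d k136 k140 k204 1 9))))))] (.c k149 (.l (.s k192 k213 6 (.s k4 k8 1 (.s k32 k16
  3 (.s k36 k24 5 (.s k20 k52 3 (.d k40 k44 k60 1 5))))))) (.c k192 (.q k149 [(.s k4 k8 1 (.s k32
  k16 3 (.s k36 k24 5 (.s k20 k52 3 (.d k40 k44 k60 1 5))))), (.s k93 k174 12 (.s k253 k173 11 (.s
  k117 k186 10 (.s k49 k185 9 (.s k51 k50 0 (.d k25 k38 k37 6 5))))))] (.c k25 (.l (.s k8 k4 1 (.s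
  k16 k32 3 (.s k24 k36 5 (.s k40 k56 3 (.d k20 k28 k60 1 5)))))) .n)) .n))) (.c k149 (.q k192 [(.s
  k4 k8 1 (.s k32 k16 3 (.s k36 k24 5 (.s k20 k52 3 (.d k40 k44 k60 1 5))))), (.s k16 k32 3 (.s k128
  k64 7 (.s k144 k96 11 (.s k80 k208 7 (.d k160 k176 k240 3 11))))), (.s k4 k8 1 (.s k128 k64 7 (.s
  k132 k72 9 (.s k68 k196 7 (.d k136 k140 k204 1 9)))))] (.c k42 (.l (.s k234 k213 6 (.s k4 k8 1 (.s
  k32 k16 3 (.s k36 k24 5 (.s k20 k52 3 (.d k40 k44 k60 1 5))))))) (.c k128 (.q k191 [(.s k4 k8 1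
  (.s k32 k16 3 (.s k36 k24 5 (.s k20 k52 3 (.d k40 k44 k60 1 5))))), (.s k16 k32 3 (.s k144 k96 11
  (.s k80 k208 7 (.s k186 k117 10 (.s k176 k181 2 (.d k240 k160 k112 11 7)))))), (.s k4 k8 1 (.s
  k132 k72 9 (.s k68 k196 7 (.s k174 k93 12 (.s k140 k157 4 (.d k204 k136 k76 9 7))))))] (.c k42 (.l
  (.s k234 k213 6 (.s k4 k8 1 (.s k32 k16 3 (.s k36 k24 5 (.s k20 k52 3 (.d k40 k44 k60 1 5)))))))
  (.c k234 (.q k42 [(.s k8 k4 1 (.s k32 k16 3 (.s k25 k59 4 (.d k37 k47 k49 2 5)))), (.s k4 k8 1 (.s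
  k32 k16 3 (.s k36 k24 5 (.s k20 k52 3 (.d k40 k44 k60 1 5))))), (.s k32 k16 3 (.s k24 k36 5 (.s
  k37 k47 2 (.s k25 k49 5 (.d k26 k15 k27 6 0))))), (.s k8 k4 1 (.s k25 k59 4 (.s k51 k38 6 (.d k49
  k50 k37 0 5))))] .n) .n))) (.c k191 (.l (.s k128 k64 7 (.s k4 k8 1 (.s k132 k72 9 (.s k68 k196 7
  (.d k136 k140 k204 1 9)))))) (.c k234 (.q k42 [(.s k8 k4 1 (.s k32 k16 3 (.s k25 k59 4 (.d k37 k47
  k49 2 5)))), (.s k16 k32 3 (.s k128 k64 7 (.s k144 k96 11 (.s k80 k208 7 (.d k160 k176 k240 3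
  11))))), (.s k8 k4 1 (.s k25 k59 4 (.s k51 k38 6 (.d k49 k50 k37 0 5))))] (.c k128 (.q k191 [(.s
  k8 k4 1 (.s k32 k16 3 (.s k25 k59 4 (.d k37 k47 k49 2 5)))), (.s k4 k8 1 (.s k32 k16 3 (.s k36 k24
  5 (.s k20 k52 3 (.d k40 k44 k60 1 5))))), (.s k32 k16 3 (.s k24 k36 5 (.s k37 k47 2 (.s k25 k49 5
  (.d k26 k15 k27 6 0))))), (.s k8 k4 1 (.s k25 k59 4 (.s k51 k38 6 (.d k49 k50 k37 0 5))))] .n) (.c
  k191 (.l (.s k128 k64 7 (.s k4 k8 1 (.s k132 k72 9 (.s k68 k196 7 (.d k136 k140 k204 1 9))))))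
  .n))) .n))))) (.c k192 (.q k149 [(.s k4 k8 1 (.s k32 k16 3 (.s k36 k24 5 (.s k20 k52 3 (.d k40 k44
  k60 1 5))))), (.s k93 k174 12 (.s k253 k173 11 (.s k117 k186 10 (.s k49 k185 9 (.s k25 k37 5 (.d
  k51 k50 k38 0 6))))))] (.c k42 (.q k234 [(.s k4 k8 1 (.s k32 k16 3 (.s k36 k24 5 (.s k20 k52 3 (.d
  k40 k44 k60 1 5))))), (.s k93 k174 12 (.s k253 k173 11 (.s k117 k186 10 (.s k49 k185 9 (.s k51 k50
  0 (.d k25 k38 k37 6 5))))))] (.c k25 (.l (.s k8 k4 1 (.s k16 k32 3 (.s k24 k36 5 (.s k40 k56 3 (.d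
  k20 k28 k60 1 5)))))) .n)) (.c k234 (.q k42 [(.s k8 k4 1 (.s k32 k16 3 (.s k25 k59 4 (.d k37 k47
  k49 2 5)))), (.s k4 k8 1 (.s k32 k16 3 (.s k36 k24 5 (.s k20 k52 3 (.d k40 k44 k60 1 5))))), (.s
  k32 k16 3 (.s k24 k36 5 (.s k37 k47 2 (.s k25 k49 5 (.d k26 k15 k27 6 0))))), (.s k8 k4 1 (.s k25
  k59 4 (.s k51 k38 6 (.d k49 k50 k37 0 5))))] .n) .n))) (.c k234 (.q k42 [(.s k8 k4 1 (.s k32 k16 3
  (.s k25 k59 4 (.d k37 k47 k49 2 5)))), (.s k4 k8 1 (.s k32 k16 3 (.s k36 k24 5 (.s k20 k52 3 (.d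
  k40 k44 k60 1 5))))), (.s k32 k16 3 (.s k24 k36 5 (.s k37 k47 2 (.s k25 k49 5 (.d k26 k15 k27 6
  0))))), (.s k8 k4 1 (.s k25 k59 4 (.s k51 k38 6 (.d k49 k50 k37 0 5))))] (.c k149 (.q k192 [(.s k8
  k4 1 (.s k32 k16 3 (.s k25 k59 4 (.d k37 k47 k49 2 5)))), (.s k16 k32 3 (.s k128 k64 7 (.s k144
  k96 11 (.s k80 k208 7 (.d k160 k176 k240 3 11))))), (.s k8 k4 1 (.s k25 k59 4 (.s k51 k38 6 (.d
  k49 k50 k37 0 5))))] (.c k128 (.q k191 [(.s k8 k4 1 (.s k32 k16 3 (.s k25 k59 4 (.d k37 k47 k49 2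
  5)))), (.s k4 k8 1 (.s k32 k16 3 (.s k36 k24 5 (.s k20 k52 3 (.d k40 k44 k60 1 5))))), (.s k32 k16
  3 (.s k24 k36 5 (.s k37 k47 2 (.s k25 k49 5 (.d k26 k15 k27 6 0))))), (.s k8 k4 1 (.s k25 k59 4
  (.s k51 k38 6 (.d k49 k50 k37 0 5))))] .n) (.c k191 (.l (.s k128 k64 7 (.s k4 k8 1 (.s k132 k72 9
  (.s k68 k196 7 (.d k136 k140 k204 1 9)))))) .n))) (.c k192 (.q k149 [(.s k8 k4 1 (.s k32 k16 3 (.s
  k25 k59 4 (.d k37 k47 k49 2 5)))), (.s k4 k8 1 (.s k32 k16 3 (.s k36 k24 5 (.s k20 k52 3 (.d k40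
  k44 k60 1 5))))), (.s k32 k16 3 (.s k24 k36 5 (.s k37 k47 2 (.s k25 k49 5 (.d k26 k15 k27 6
  0))))), (.s k8 k4 1 (.s k25 k59 4 (.s k51 k38 6 (.d k49 k50 k37 0 5))))] .n) .n))) .n))))) (.c k15
  (.f k4 k8 1 (.l (.s k93 k174 12 (.s k253 k173 11 (.s k252 k254 0 (.s k84 k168 13 (.s k164 k244 11
  (.s k88 k240 13 (.d k92 k172 k80 11 1))))))))) (.c k42 (.q k234 [(.s k15 k14 0 (.s k93 k174 12 (.s
  k173 k253 11 (.s k94 k252 12 (.d k95 k92 k175 0 11))))), (.s k4 k8 1 (.s k192 k213 6 (.s k128 k64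
  7 (.s k132 k72 9 (.s k68 k196 7 (.d k136 k140 k204 1 9))))))] (.c k149 (.l (.s k192 k213 6 (.s k4
  k8 1 (.s k128 k64 7 (.s k132 k72 9 (.s k68 k196 7 (.d k136 k140 k204 1 9))))))) (.c k192 (.q k149
  [(.s k15 k14 0 (.s k93 k174 12 (.s k173 k253 11 (.s k94 k252 12 (.d k95 k92 k175 0 11))))), (.s k4
  k8 1 (.s k15 k14 0 (.s k5 k10 2 (.s k9 k1 1 (.d k6 k7 k3 0 2)))))] (.c k14 (.q k48 [(.s k4 k8 1
  (.s k32 k16 3 (.s k36 k24 5 (.s k20 k52 3 (.d k40 k44 k60 1 5))))), (.s k93 k174 12 (.s k253 k173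
  11 (.s k117 k186 10 (.s k49 k185 9 (.s k51 k50 0 (.d k25 k38 k37 6 5))))))] (.c k25 (.l (.s k8 k4
  1 (.s k16 k32 3 (.s k24 k36 5 (.s k40 k56 3 (.d k20 k28 k60 1 5)))))) .n)) (.c k15 (.f k4 k8 1 (.l
  (.s k93 k174 12 (.s k253 k173 11 (.s k252 k254 0 (.s k84 k168 13 (.s k164 k244 11 (.s k88 k240 13
  (.d k92 k172 k80 11 1))))))))) .n))) .n))) (.c k149 (.q k192 [(.s k4 k8 1 (.s k128 k64 7 (.s k132
  k72 9 (.s k136 k140 1 (.d k68 k196 k204 7 9))))), (.s k15 k14 0 (.s k132 k72 9 (.s k133 k74 10 (.s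
  k73 k193 9 (.d k134 k135 k195 0 10))))), (.s k4 k8 1 (.s k15 k14 0 (.s k5 k10 2 (.s k9 k1 1 (.d k6
  k7 k3 0 2)))))] (.c k42 (.l (.s k234 k213 6 (.s k4 k8 1 (.s k128 k64 7 (.s k132 k72 9 (.s k68 k196
  7 (.d k136 k140 k204 1 9))))))) (.c k89 (.l (.s k8 k4 1 (.s k72 k132 9 (.s k136 k200 7 (.s k68
  k204 9 (.d k64 k76 k128 1 7)))))) (.c k128 (.q k191 [(.s k15 k14 0 (.s k5 k10 2 (.s k9 k1 1 (.s k6
  k3 2 (.d k4 k7 k8 0 1))))), (.s k4 k8 1 (.s k132 k72 9 (.s k68 k196 7 (.s k174 k93 12 (.s k140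
  k157 4 (.d k204 k136 k76 9 7)))))), (.s k15 k14 0 (.s k132 k72 9 (.s k133 k74 10 (.s k73 k193 9
  (.d k134 k135 k195 0 10)))))] (.c k42 (.l (.s k234 k213 6 (.s k4 k8 1 (.s k15 k14 0 (.s k5 k10 2
  (.s k9 k1 1 (.d k6 k7 k3 0 2))))))) (.c k234 (.q k42 [(.s k15 k14 0 (.s k5 k10 2 (.s k9 k1 1 (.s
  k6 k3 2 (.d k4 k7 k8 0 1))))), (.s k4 k8 1 (.s k132 k72 9 (.s k68 k196 7 (.s k174 k93 12 (.s k140
  k157 4 (.d k204 k136 k76 9 7)))))), (.s k15 k14 0 (.s k132 k72 9 (.s k133 k74 10 (.s k73 k193 9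
  (.d k134 k135 k195 0 10)))))] .n) .n))) (.c k191 (.l (.s k128 k64 7 (.s k4 k8 1 (.s k132 k72 9 (.s
  k68 k196 7 (.d k136 k140 k204 1 9)))))) (.c k234 (.q k42 [(.s k4 k8 1 (.s k128 k64 7 (.s k132 k72
  9 (.s k136 k140 1 (.d k68 k196 k204 7 9))))), (.s k15 k14 0 (.s k132 k72 9 (.s k133 k74 10 (.s k73
  k193 9 (.d k134 k135 k195 0 10))))), (.s k4 k8 1 (.s k15 k14 0 (.s k5 k10 2 (.s k9 k1 1 (.d k6 k7
  k3 0 2)))))] (.c k89 (.l (.s k8 k4 1 (.s k72 k132 9 (.s k136 k200 7 (.s k68 k204 9 (.d k64 k76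
  k128 1 7)))))) (.c k128 (.q k191 [(.s k15 k14 0 (.s k5 k10 2 (.s k9 k1 1 (.s k6 k3 2 (.d k4 k7 k8
  0 1))))), (.s k4 k8 1 (.s k132 k72 9 (.s k68 k196 7 (.s k174 k93 12 (.s k140 k157 4 (.d k204 k136
  k76 9 7)))))), (.s k15 k14 0 (.s k132 k72 9 (.s k133 k74 10 (.s k73 k193 9 (.d k134 k135 k195 0
  10)))))] .n) (.c k191 (.l (.s k128 k64 7 (.s k4 k8 1 (.s k132 k72 9 (.s k68 k196 7 (.d k136 k140
  k204 1 9)))))) .n)))) .n)))))) (.c k192 (.q k149 [(.s k4 k8 1 (.s k15 k14 0 (.s k5 k10 2 (.s k9 k1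
  1 (.d k6 k7 k3 0 2))))), (.s k15 k14 0 (.s k93 k174 12 (.s k173 k253 11 (.s k94 k252 12 (.d k95
  k92 k175 0 11)))))] (.c k14 (.q k48 [(.s k4 k8 1 (.s k32 k16 3 (.s k36 k24 5 (.s k20 k52 3 (.d k40
  k44 k60 1 5))))), (.s k93 k174 12 (.s k253 k173 11 (.s k117 k186 10 (.s k49 k185 9 (.s k25 k37 5
  (.d k51 k50 k38 0 6))))))] (.c k42 (.q k234 [(.s k4 k8 1 (.s k32 k16 3 (.s k36 k24 5 (.s k20 k52 3
  (.d k40 k44 k60 1 5))))), (.s k93 k174 12 (.s k253 k173 11 (.s k117 k186 10 (.s k49 k185 9 (.s k51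
  k50 0 (.d k25 k38 k37 6 5))))))] (.c k25 (.l (.s k8 k4 1 (.s k16 k32 3 (.s k24 k36 5 (.s k40 k56 3
  (.d k20 k28 k60 1 5)))))) .n)) (.c k234 (.q k42 [(.s k8 k4 1 (.s k32 k16 3 (.s k25 k59 4 (.d k37
  k47 k49 2 5)))), (.s k4 k8 1 (.s k32 k16 3 (.s k36 k24 5 (.s k20 k52 3 (.d k40 k44 k60 1 5))))),
  (.s k32 k16 3 (.s k24 k36 5 (.s k37 k47 2 (.s k25 k49 5 (.d k26 k15 k27 6 0))))), (.s k8 k4 1 (.s
  k25 k59 4 (.s k51 k38 6 (.d k49 k50 k37 0 5))))] .n) .n))) (.c k15 (.f k4 k8 1 (.l (.s k93 k174 12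
  (.s k253 k173 11 (.s k252 k254 0 (.s k84 k168 13 (.s k164 k244 11 (.s k88 k240 13 (.d k92 k172 k80
  11 1))))))))) (.c k42 (.q k234 [(.s k15 k14 0 (.s k93 k174 12 (.s k173 k253 11 (.s k94 k252 12 (.d
  k95 k92 k175 0 11))))), (.s k4 k8 1 (.s k15 k14 0 (.s k5 k10 2 (.s k9 k1 1 (.d k6 k7 k3 0 2)))))]
  (.c k14 (.q k48 [(.s k4 k8 1 (.s k32 k16 3 (.s k36 k24 5 (.s k20 k52 3 (.d k40 k44 k60 1 5))))),
  (.s k93 k174 12 (.s k253 k173 11 (.s k117 k186 10 (.s k49 k185 9 (.s k51 k50 0 (.d k25 k38 k37 6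
  5))))))] (.c k25 (.l (.s k8 k4 1 (.s k16 k32 3 (.s k24 k36 5 (.s k40 k56 3 (.d k20 k28 k60 1
  5)))))) .n)) (.c k15 (.f k4 k8 1 (.l (.s k93 k174 12 (.s k253 k173 11 (.s k252 k254 0 (.s k84 k168
  13 (.s k164 k244 11 (.s k88 k240 13 (.d k92 k172 k80 11 1))))))))) .n))) (.c k234 (.q k42 [(.s k4
  k8 1 (.s k15 k14 0 (.s k5 k10 2 (.s k9 k1 1 (.d k6 k7 k3 0 2))))), (.s k15 k14 0 (.s k93 k174 12
  (.s k173 k253 11 (.s k94 k252 12 (.d k95 k92 k175 0 11)))))] (.c k14 (.l (.s k8 k4 1 (.s k25 k59 4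
  (.s k37 k49 5 (.s k32 k47 2 (.s k48 k16 3 (.s k24 k36 5 (.d k26 k15 k27 6 0)))))))) (.c k15 (.f k4
  k8 1 (.l (.s k93 k174 12 (.s k253 k173 11 (.s k252 k254 0 (.s k84 k168 13 (.s k164 k244 11 (.s k88
  k240 13 (.d k92 k172 k80 11 1))))))))) .n))) .n))))) (.c k234 (.q k42 [(.s k15 k14 0 (.s k93 k174
  12 (.s k173 k253 11 (.s k94 k252 12 (.d k95 k92 k175 0 11))))), (.s k8 k4 1 (.s k25 k59 4 (.s k37
  k49 5 (.s k32 k47 2 (.s k48 k16 3 (.s k24 k36 5 (.d k26 k15 k27 6 0)))))))] (.c k15 (.f k4 k8 1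
  (.l (.s k93 k174 12 (.s k253 k173 11 (.s k252 k254 0 (.s k84 k168 13 (.s k164 k244 11 (.s k88 k240
  13 (.d k92 k172 k80 11 1))))))))) (.c k149 (.q k192 [(.s k4 k8 1 (.s k128 k64 7 (.s k132 k72 9 (.s
  k136 k140 1 (.d k68 k196 k204 7 9))))), (.s k15 k14 0 (.s k132 k72 9 (.s k133 k74 10 (.s k73 k193
  9 (.d k134 k135 k195 0 10))))), (.s k4 k8 1 (.s k15 k14 0 (.s k5 k10 2 (.s k9 k1 1 (.d k6 k7 k3 0
  2)))))] (.c k89 (.l (.s k8 k4 1 (.s k72 k132 9 (.s k136 k200 7 (.s k68 k204 9 (.d k64 k76 k128 1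
  7)))))) (.c k128 (.q k191 [(.s k15 k14 0 (.s k5 k10 2 (.s k9 k1 1 (.s k6 k3 2 (.d k4 k7 k8 0
  1))))), (.s k4 k8 1 (.s k132 k72 9 (.s k68 k196 7 (.s k174 k93 12 (.s k140 k157 4 (.d k204 k136
  k76 9 7)))))), (.s k15 k14 0 (.s k132 k72 9 (.s k133 k74 10 (.s k73 k193 9 (.d k134 k135 k195 0
  10)))))] .n) (.c k191 (.l (.s k128 k64 7 (.s k4 k8 1 (.s k132 k72 9 (.s k68 k196 7 (.d k136 k140
  k204 1 9)))))) .n)))) (.c k192 (.q k149 [(.s k4 k8 1 (.s k15 k14 0 (.s k5 k10 2 (.s k9 k1 1 (.d k6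
  k7 k3 0 2))))), (.s k15 k14 0 (.s k93 k174 12 (.s k173 k253 11 (.s k94 k252 12 (.d k95 k92 k175 0
  11)))))] (.c k14 (.l (.s k8 k4 1 (.s k25 k59 4 (.s k37 k49 5 (.s k32 k47 2 (.s k48 k16 3 (.s k24
  k36 5 (.d k26 k15 k27 6 0)))))))) (.c k15 (.f k4 k8 1 (.l (.s k93 k174 12 (.s k253 k173 11 (.s
  k252 k254 0 (.s k84 k168 13 (.s k164 k244 11 (.s k88 k240 13 (.d k92 k172 k80 11 1))))))))) .n)))
  .n)))) .n))))))) (.c k174 (.f k4 k8 1 (.q k48 [(.s k32 k16 3 (.s k36 k24 5 (.s k20 k52 3 (.d k40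
  k44 k60 1 5)))), (.s k16 k32 3 (.s k85 k170 14 (.s k154 k223 10 (.s k101 k207 14 (.d k117 k69 k186
  3 10))))), (.s k85 k170 14 (.s k166 k247 12 (.s k36 k24 5 (.s k101 k231 8 (.d k117 k69 k186 3
  10)))))] (.c k149 (.q k192 [(.s k32 k16 3 (.s k36 k24 5 (.s k20 k52 3 (.d k40 k44 k60 1 5)))), (.s
  k128 k64 7 (.s k132 k72 9 (.s k68 k196 7 (.d k136 k140 k204 1 9))))] .n) (.c k192 (.q k149 [(.s
  k32 k16 3 (.s k36 k24 5 (.s k20 k52 3 (.d k40 k44 k60 1 5)))), (.s k16 k32 3 (.s k85 k170 14 (.s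
  k154 k223 10 (.s k101 k207 14 (.d k117 k69 k186 3 10))))), (.s k85 k170 14 (.s k166 k247 12 (.s
  k36 k24 5 (.s k101 k231 8 (.d k117 k69 k186 3 10)))))] .n) .n)))) (.c k192 (.q k149 [(.s k4 k8 1
  (.s k85 k170 14 (.s k166 k247 12 (.s k93 k174 12 (.d k89 k81 k243 1 14))))), (.s k85 k170 14 (.s
  k93 k174 12 (.s k21 k213 7 (.s k89 k81 1 (.s k29 k209 9 (.s k17 k25 1 (.d k221 k157 k153 7
  9))))))), (.s k4 k8 1 (.s k85 k170 14 (.s k166 k247 12 (.s k21 k213 7 (.s k55 k38 4 (.s k196 k102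
  12 (.d k132 k183 k68 4 7))))))), (.s k8 k4 1 (.s k170 k85 14 (.s k89 k251 12 (.s k166 k243 14 (.d
  k174 k162 k93 1 12)))))] (.c k85 (.f k4 k8 1 (.q k166 [(.s k174 k93 12 (.s k162 k170 1 (.d k243
  k81 k89 12 14))), (.s k132 k183 4 (.s k196 k68 7 (.s k102 k55 12 (.s k230 k38 7 (.s k247 k213 4
  (.d k243 k251 k89 1 14)))))), (.s k132 k183 4 (.s k68 k196 7 (.s k204 k136 9 (.s k140 k76 7 (.s
  k153 k179 6 (.s k157 k145 1 (.d k174 k191 k93 4 12)))))))] (.c k64 (.q k127 [(.s k174 k93 12 (.s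
  k162 k170 1 (.d k243 k81 k89 12 14))), (.s k93 k174 12 (.s k76 k110 4 (.s k204 k140 7 (.s k68 k136
  9 (.d k132 k183 k196 4 7))))), (.s k132 k183 4 (.s k196 k68 7 (.s k102 k55 12 (.s k230 k38 7 (.s
  k247 k213 4 (.d k243 k251 k89 1 14))))))] .n) (.c k127 (.q k64 [(.s k174 k93 12 (.s k162 k170 1
  (.d k243 k81 k89 12 14))), (.s k132 k183 4 (.s k68 k196 7 (.s k204 k136 9 (.d k76 k72 k140 1
  7))))] (.c k76 (.l (.s k243 k89 14 (.s k132 k183 4 (.s k196 k68 7 (.s k102 k55 12 (.s k230 k38 7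
  (.d k247 k251 k213 1 4))))))) (.c k243 (.l (.s k174 k93 12 (.s k183 k132 4 (.s k170 k162 1 (.s
  k191 k128 6 (.s k140 k157 4 (.d k179 k187 k153 1 6))))))) .n))) (.c k243 (.l (.s k174 k93 12 (.s
  k183 k132 4 (.s k170 k162 1 (.s k191 k128 6 (.s k140 k157 4 (.d k179 k187 k153 1 6))))))) .n)))))
  (.c k89 (.q k48 [(.s k8 k4 1 (.s k16 k32 3 (.s k24 k36 5 (.s k40 k56 3 (.d k20 k28 k60 1 5))))),
  (.s k32 k16 3 (.s k170 k85 14 (.s k101 k239 10 (.s k154 k207 14 (.d k186 k138 k117 3 10))))), (.s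
  k85 k170 14 (.s k36 k24 5 (.s k117 k186 10 (.s k101 k69 3 (.s k166 k231 8 (.d k4 k8 k247 1
  12))))))] (.c k72 (.q k123 [(.s k8 k4 1 (.s k16 k32 3 (.s k24 k36 5 (.s k40 k56 3 (.d k20 k28 k60
  1 5))))), (.s k32 k16 3 (.s k170 k85 14 (.s k101 k239 10 (.s k154 k207 14 (.d k186 k138 k117 3
  10))))), (.s k85 k170 14 (.s k36 k24 5 (.s k117 k186 10 (.s k101 k69 3 (.s k166 k231 8 (.d k4 k8
  k247 1 12))))))] .n) (.c k123 (.q k72 [(.s k8 k4 1 (.s k16 k32 3 (.s k24 k36 5 (.s k40 k56 3 (.d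
  k20 k28 k60 1 5))))), (.s k32 k16 3 (.s k170 k85 14 (.s k101 k239 10 (.s k154 k207 14 (.d k186
  k138 k117 3 10))))), (.s k8 k4 1 (.s k170 k85 14 (.s k136 k200 7 (.s k204 k68 9 (.s k140 k76 7 (.d
  k128 k132 k191 1 6))))))] (.c k183 (.q k243 [(.s k8 k4 1 (.s k16 k32 3 (.s k24 k36 5 (.s k40 k56 3
  (.d k20 k28 k60 1 5))))), (.s k16 k32 3 (.s k81 k162 12 (.s k146 k211 8 (.s k97 k195 12 (.d k113
  k65 k178 3 8))))), (.s k8 k4 1 (.s k186 k117 10 (.s k251 k247 1 (.s k56 k121 8 (.d k24 k40 k36 3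
  5)))))] .n) (.c k243 (.q k183 [(.s k4 k8 1 (.s k166 k132 4 (.d k85 k170 k247 14 12))), (.s k8 k4 1
  (.s k16 k32 3 (.s k24 k36 5 (.s k40 k56 3 (.d k20 k28 k60 1 5))))), (.s k170 k85 14 (.s k166 k132
  4 (.d k174 k93 k162 12 1)))] (.c k209 (.q k226 [(.s k4 k8 1 (.s k166 k132 4 (.d k85 k170 k247 14
  12))), (.s k8 k4 1 (.s k16 k32 3 (.s k24 k36 5 (.s k40 k56 3 (.d k20 k28 k60 1 5))))), (.s k170
  k85 14 (.s k166 k132 4 (.d k174 k93 k162 12 1)))] .n) (.c k226 (.q k209 [(.s k4 k8 1 (.s k166 k132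
  4 (.d k85 k170 k247 14 12))), (.s k8 k4 1 (.s k16 k32 3 (.s k24 k36 5 (.s k40 k56 3 (.d k20 k28
  k60 1 5))))), (.s k170 k85 14 (.s k166 k132 4 (.d k174 k93 k162 12 1)))] (.c k46 (.l (.s k166 k132
  4 (.s k4 k8 1 (.d k85 k170 k247 14 12)))) (.c k166 (.q k46 [(.s k4 k8 1 (.s k32 k16 3 (.s k36 k24
  5 (.s k20 k52 3 (.d k40 k44 k60 1 5))))), (.s k8 k4 1 (.s k136 k200 7 (.s k204 k68 9 (.s k174 k93
  12 (.d k238 k221 k110 4 7)))))] (.c k4 (.l (.s k16 k32 3 (.s k85 k170 14 (.s k154 k223 10 (.s k101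
  k207 14 (.d k117 k69 k186 3 10)))))) (.c k8 (.l (.s k32 k16 3 (.s k170 k85 14 (.s k101 k239 10 (.s
  k154 k207 14 (.d k186 k138 k117 3 10)))))) .n))) .n))) .n))) .n))) .n))) (.c k166 (.f k85 k170 14
  (.f k4 k8 1 (.l (.s k21 k213 7 (.s k38 k55 4 (.s k51 k25 6 (.s k17 k34 4 (.s k153 k221 9 (.s k102
  k204 14 (.d k119 k68 k187 4 9)))))))))) (.c k170 (.q k13 [(.s k4 k8 1 (.s k15 k14 0 (.s k5 k10 2
  (.s k9 k1 1 (.d k6 k7 k3 0 2))))), (.s k15 k14 0 (.s k93 k174 12 (.s k173 k253 11 (.s k94 k252 12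
  (.d k95 k92 k175 0 11)))))] (.c k14 (.q k48 [(.s k4 k8 1 (.s k32 k16 3 (.s k36 k24 5 (.s k20 k52 3
  (.d k40 k44 k60 1 5))))), (.s k93 k174 12 (.s k253 k173 11 (.s k117 k186 10 (.s k49 k185 9 (.s k25
  k37 5 (.d k51 k50 k38 0 6))))))] (.c k42 (.q k234 [(.s k4 k8 1 (.s k32 k16 3 (.s k36 k24 5 (.s k20
  k52 3 (.d k40 k44 k60 1 5))))), (.s k93 k174 12 (.s k253 k173 11 (.s k117 k186 10 (.s k49 k185 9
  (.s k51 k50 0 (.d k25 k38 k37 6 5))))))] (.c k25 (.l (.s k8 k4 1 (.s k16 k32 3 (.s k24 k36 5 (.s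
  k40 k56 3 (.d k20 k28 k60 1 5)))))) .n)) (.c k234 (.q k42 [(.s k8 k4 1 (.s k32 k16 3 (.s k25 k59 4
  (.d k37 k47 k49 2 5)))), (.s k4 k8 1 (.s k32 k16 3 (.s k36 k24 5 (.s k20 k52 3 (.d k40 k44 k60 1
  5))))), (.s k32 k16 3 (.s k24 k36 5 (.s k37 k47 2 (.s k25 k49 5 (.d k26 k15 k27 6 0))))), (.s k8
  k4 1 (.s k25 k59 4 (.s k51 k38 6 (.d k49 k50 k37 0 5))))] .n) .n))) (.c k15 (.f k4 k8 1 (.l (.s
  k93 k174 12 (.s k253 k173 11 (.s k252 k254 0 (.s k84 k168 13 (.s k164 k244 11 (.s k88 k240 13 (.d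
  k92 k172 k80 11 1))))))))) (.c k42 (.q k234 [(.s k15 k14 0 (.s k93 k174 12 (.s k173 k253 11 (.s
  k94 k252 12 (.d k95 k92 k175 0 11))))), (.s k4 k8 1 (.s k15 k14 0 (.s k5 k10 2 (.s k9 k1 1 (.d k6
  k7 k3 0 2)))))] (.c k14 (.q k48 [(.s k4 k8 1 (.s k32 k16 3 (.s k36 k24 5 (.s k20 k52 3 (.d k40 k44
  k60 1 5))))), (.s k93 k174 12 (.s k253 k173 11 (.s k117 k186 10 (.s k49 k185 9 (.s k51 k50 0 (.d
  k25 k38 k37 6 5))))))] (.c k25 (.l (.s k8 k4 1 (.s k16 k32 3 (.s k24 k36 5 (.s k40 k56 3 (.d k20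
  k28 k60 1 5)))))) .n)) (.c k15 (.f k4 k8 1 (.l (.s k93 k174 12 (.s k253 k173 11 (.s k252 k254 0
  (.s k84 k168 13 (.s k164 k244 11 (.s k88 k240 13 (.d k92 k172 k80 11 1))))))))) .n))) (.c k234 (.q
  k42 [(.s k4 k8 1 (.s k15 k14 0 (.s k5 k10 2 (.s k9 k1 1 (.d k6 k7 k3 0 2))))), (.s k15 k14 0 (.s
  k93 k174 12 (.s k173 k253 11 (.s k94 k252 12 (.d k95 k92 k175 0 11)))))] (.c k14 (.l (.s k8 k4 1
  (.s k25 k59 4 (.s k37 k49 5 (.s k32 k47 2 (.s k48 k16 3 (.s k24 k36 5 (.d k26 k15 k27 6 0))))))))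
  (.c k15 (.f k4 k8 1 (.l (.s k93 k174 12 (.s k253 k173 11 (.s k252 k254 0 (.s k84 k168 13 (.s k164
  k244 11 (.s k88 k240 13 (.d k92 k172 k80 11 1))))))))) .n))) .n))))) .n))))) (.c k243 (.q k1 [(.s
  k3 k2 0 (.s k8 k4 1 (.s k9 k6 2 (.s k5 k13 1 (.d k10 k11 k15 0 2))))), (.s k3 k2 0 (.s k85 k170 14
  (.s k169 k253 13 (.s k86 k252 14 (.d k87 k84 k171 0 13))))), (.s k85 k170 14 (.s k253 k169 13 (.s
  k93 k174 12 (.s k13 k173 11 (.s k5 k9 1 (.d k15 k14 k10 0 2))))))] (.c k123 (.q k183 [(.s k3 k2 0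
  (.s k8 k4 1 (.s k9 k6 2 (.s k5 k13 1 (.d k10 k11 k15 0 2))))), (.s k3 k2 0 (.s k85 k170 14 (.s
  k169 k253 13 (.s k86 k252 14 (.d k87 k84 k171 0 13))))), (.s k85 k170 14 (.s k253 k169 13 (.s k93
  k174 12 (.s k13 k173 11 (.s k5 k9 1 (.d k15 k14 k10 0 2))))))] (.c k72 (.q k89 [(.s k8 k4 1 (.d
  k170 k251 k85 12 14)), (.s k85 k170 14 (.d k93 k81 k174 1 12)), (.s k3 k2 0 (.s k8 k4 1 (.s k9 k6
  2 (.s k5 k13 1 (.d k10 k11 k15 0 2)))))] (.c k149 (.q k192 [(.s k8 k4 1 (.d k170 k251 k85 12 14)),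
  (.s k85 k170 14 (.d k93 k81 k174 1 12)), (.s k3 k2 0 (.s k8 k4 1 (.s k9 k6 2 (.s k5 k13 1 (.d k10
  k11 k15 0 2)))))] .n) (.c k192 (.q k149 [(.s k8 k4 1 (.d k170 k251 k85 12 14)), (.s k85 k170 14
  (.d k93 k81 k174 1 12))] (.c k85 (.l (.s k8 k4 1 (.s k170 k251 12 (.s k174 k93 12 (.d k166 k162
  k132 1 4))))) (.c k170 (.l (.s k4 k8 1 (.s k93 k174 12 (.s k85 k81 1 (.d k166 k132 k247 4 12)))))
  (.c k209 (.q k226 [(.s k8 k4 1 (.d k170 k251 k85 12 14)), (.s k85 k170 14 (.d k93 k81 k174 1 12))]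
  (.c k85 (.l (.s k8 k4 1 (.s k170 k251 12 (.s k174 k93 12 (.d k166 k162 k132 1 4))))) (.c k170 (.l
  (.s k4 k8 1 (.s k93 k174 12 (.s k85 k81 1 (.d k166 k132 k247 4 12))))) .n))) (.c k226 (.l (.s k209
  k29 9 (.s k8 k4 1 (.d k170 k251 k85 12 14)))) .n))))) .n))) (.c k89 (.q k72 [(.s k3 k2 0 (.s k8 k4
  1 (.s k9 k6 2 (.s k10 k11 0 (.d k5 k13 k15 1 2))))), (.s k8 k4 1 (.s k136 k200 7 (.s k68 k204 9
  (.s k192 k132 9 (.d k64 k76 k128 1 7)))))] (.c k4 (.l (.s k3 k2 0 (.s k85 k170 14 (.s k169 k253 13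
  (.s k86 k252 14 (.d k87 k84 k171 0 13)))))) (.c k8 (.l (.s k3 k2 0 (.s k9 k6 2 (.s k13 k5 1 (.s
  k93 k174 12 (.s k253 k173 11 (.d k85 k169 k170 13 14))))))) (.c k149 (.l (.s k192 k132 9 (.s k8 k4
  1 (.s k64 k128 7 (.s k136 k200 7 (.d k68 k76 k204 1 9)))))) (.c k192 (.q k149 [(.s k4 k8 1 (.s
  k166 k132 4 (.d k85 k170 k247 14 12))), (.s k3 k2 0 (.s k8 k4 1 (.s k9 k6 2 (.s k5 k13 1 (.d k10
  k11 k15 0 2))))), (.s k170 k85 14 (.s k166 k132 4 (.d k174 k93 k162 12 1)))] (.c k209 (.q k226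
  [(.s k4 k8 1 (.s k166 k132 4 (.d k85 k170 k247 14 12))), (.s k3 k2 0 (.s k8 k4 1 (.s k9 k6 2 (.s
  k5 k13 1 (.d k10 k11 k15 0 2))))), (.s k170 k85 14 (.s k166 k132 4 (.d k174 k93 k162 12 1)))] .n)
  (.c k226 (.q k209 [(.s k4 k8 1 (.s k166 k132 4 (.d k85 k170 k247 14 12))), (.s k3 k2 0 (.s k8 k4 1
  (.s k9 k6 2 (.s k5 k13 1 (.d k10 k11 k15 0 2))))), (.s k170 k85 14 (.s k166 k132 4 (.d k174 k93
  k162 12 1)))] (.c k46 (.l (.s k166 k132 4 (.s k4 k8 1 (.d k85 k170 k247 14 12)))) (.c k166 (.q k46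
  [(.s k3 k2 0 (.s k8 k4 1 (.s k9 k6 2 (.s k10 k11 0 (.d k5 k13 k15 1 2))))), (.s k174 k93 12 (.s
  k238 k110 7 (.s k204 k221 4 (.s k68 k136 9 (.d k76 k64 k140 1 7)))))] (.c k85 (.l (.s k3 k2 0 (.s
  k9 k6 2 (.s k5 k13 1 (.s k10 k15 2 (.d k8 k11 k4 0 1)))))) .n)) .n))) .n))) .n))))) (.c k149 (.q
  k192 [(.s k3 k2 0 (.s k8 k4 1 (.s k9 k6 2 (.s k5 k13 1 (.d k10 k11 k15 0 2))))), (.s k8 k4 1 (.s
  k64 k128 7 (.s k72 k132 9 (.s k136 k200 7 (.d k68 k76 k204 1 9))))), (.s k3 k2 0 (.s k128 k64 7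
  (.s k129 k66 8 (.s k65 k193 7 (.d k130 k131 k195 0 8)))))] (.c k72 (.q k89 [(.s k8 k4 1 (.d k170
  k251 k85 12 14)), (.s k85 k170 14 (.d k93 k81 k174 1 12)), (.s k3 k2 0 (.s k8 k4 1 (.s k9 k6 2 (.s
  k5 k13 1 (.d k10 k11 k15 0 2)))))] .n) (.c k89 (.l (.s k72 k132 9 (.s k8 k4 1 (.s k64 k128 7 (.s
  k136 k200 7 (.d k68 k76 k204 1 9)))))) .n))) (.c k192 (.q k149 [(.s k4 k8 1 (.s k166 k132 4 (.d
  k85 k247 k170 12 14))), (.s k3 k2 0 (.s k8 k4 1 (.s k9 k6 2 (.s k5 k13 1 (.d k10 k11 k15 0 2))))),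
  (.s k170 k85 14 (.s k174 k93 12 (.d k166 k162 k132 1 4)))] (.c k72 (.q k89 [(.s k8 k4 1 (.d k170
  k251 k85 12 14)), (.s k85 k170 14 (.d k93 k81 k174 1 12))] (.c k85 (.l (.s k8 k4 1 (.s k170 k251
  12 (.s k174 k93 12 (.d k166 k162 k132 1 4))))) (.c k170 (.l (.s k4 k8 1 (.s k93 k174 12 (.s k85
  k81 1 (.d k166 k132 k247 4 12))))) (.c k209 (.q k226 [(.s k8 k4 1 (.d k170 k251 k85 12 14)), (.s
  k85 k170 14 (.d k93 k81 k174 1 12))] (.c k85 (.l (.s k8 k4 1 (.s k170 k251 12 (.s k174 k93 12 (.d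
  k166 k162 k132 1 4))))) (.c k170 (.l (.s k4 k8 1 (.s k93 k174 12 (.s k85 k81 1 (.d k166 k132 k247
  4 12))))) .n))) (.c k226 (.l (.s k209 k29 9 (.s k8 k4 1 (.d k170 k251 k85 12 14)))) .n))))) (.c
  k89 (.q k72 [(.s k4 k8 1 (.s k166 k132 4 (.d k85 k170 k247 14 12))), (.s k3 k2 0 (.s k8 k4 1 (.s
  k9 k6 2 (.s k5 k13 1 (.d k10 k11 k15 0 2))))), (.s k170 k85 14 (.s k166 k132 4 (.d k174 k93 k162
  12 1)))] (.c k209 (.q k226 [(.s k4 k8 1 (.s k166 k132 4 (.d k85 k170 k247 14 12))), (.s k3 k2 0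
  (.s k8 k4 1 (.s k9 k6 2 (.s k5 k13 1 (.d k10 k11 k15 0 2))))), (.s k170 k85 14 (.s k166 k132 4 (.d
  k174 k93 k162 12 1)))] .n) (.c k226 (.q k209 [(.s k4 k8 1 (.s k166 k132 4 (.d k85 k170 k247 14
  12))), (.s k3 k2 0 (.s k8 k4 1 (.s k9 k6 2 (.s k5 k13 1 (.d k10 k11 k15 0 2))))), (.s k170 k85 14
  (.s k166 k132 4 (.d k174 k93 k162 12 1)))] (.c k46 (.l (.s k166 k132 4 (.s k4 k8 1 (.d k85 k170
  k247 14 12)))) (.c k166 (.q k46 [(.s k3 k2 0 (.s k8 k4 1 (.s k9 k6 2 (.s k10 k11 0 (.d k5 k13 k15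
  1 2))))), (.s k174 k93 12 (.s k238 k110 7 (.s k204 k221 4 (.s k68 k136 9 (.d k76 k64 k140 1
  7)))))] (.c k85 (.l (.s k3 k2 0 (.s k9 k6 2 (.s k5 k13 1 (.s k10 k15 2 (.d k8 k11 k4 0 1))))))
  .n)) .n))) .n))) (.c k209 (.q k226 [(.s k4 k8 1 (.s k166 k132 4 (.d k85 k247 k170 12 14))), (.s k3
  k2 0 (.s k8 k4 1 (.s k9 k6 2 (.s k5 k13 1 (.d k10 k11 k15 0 2))))), (.s k170 k85 14 (.s k174 k93
  12 (.d k166 k162 k132 1 4)))] (.c k72 (.q k89 [(.s k8 k4 1 (.d k170 k251 k85 12 14)), (.s k85 k170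
  14 (.d k93 k81 k174 1 12))] (.c k85 (.l (.s k8 k4 1 (.s k170 k251 12 (.s k174 k93 12 (.d k166 k162
  k132 1 4))))) (.c k170 (.l (.s k4 k8 1 (.s k93 k174 12 (.s k85 k81 1 (.d k166 k132 k247 4 12)))))
  .n))) (.c k89 (.q k72 [(.s k4 k8 1 (.s k166 k132 4 (.d k85 k170 k247 14 12))), (.s k3 k2 0 (.s k8
  k4 1 (.s k9 k6 2 (.s k5 k13 1 (.d k10 k11 k15 0 2))))), (.s k170 k85 14 (.s k166 k132 4 (.d k174
  k93 k162 12 1)))] .n) .n))) (.c k226 (.q k209 [(.s k4 k8 1 (.s k166 k132 4 (.d k85 k247 k170 12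
  14))), (.s k85 k170 14 (.s k93 k174 12 (.d k89 k81 k29 1 9))), (.s k3 k2 0 (.s k8 k4 1 (.s k9 k6 2
  (.s k5 k13 1 (.d k10 k11 k15 0 2)))))] (.c k46 (.l (.s k166 k132 4 (.s k4 k8 1 (.d k85 k247 k170
  12 14)))) (.c k72 (.l (.s k89 k29 9 (.s k8 k4 1 (.d k170 k251 k85 12 14)))) (.c k89 (.q k72 [(.s
  k4 k8 1 (.s k166 k132 4 (.d k85 k170 k247 14 12))), (.s k3 k2 0 (.s k8 k4 1 (.s k9 k6 2 (.s k5 k13
  1 (.d k10 k11 k15 0 2))))), (.s k170 k85 14 (.s k166 k132 4 (.d k174 k93 k162 12 1)))] (.c k46 (.l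
  (.s k166 k132 4 (.s k4 k8 1 (.d k85 k170 k247 14 12)))) (.c k166 (.q k46 [(.s k3 k2 0 (.s k8 k4 1
  (.s k9 k6 2 (.s k10 k11 0 (.d k5 k13 k15 1 2))))), (.s k174 k93 12 (.s k238 k110 7 (.s k204 k221 4
  (.s k68 k136 9 (.d k76 k64 k140 1 7)))))] (.c k85 (.l (.s k3 k2 0 (.s k9 k6 2 (.s k5 k13 1 (.s k10
  k15 2 (.d k8 k11 k4 0 1)))))) .n)) .n))) (.c k166 (.q k46 [(.s k8 k4 1 (.s k89 k29 9 (.d k170 k85
  k251 14 12))), (.s k3 k2 0 (.s k9 k6 2 (.s k5 k13 1 (.s k10 k15 2 (.d k8 k11 k4 0 1))))), (.s k85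
  k170 14 (.s k89 k29 9 (.d k93 k174 k81 12 1)))] (.c k72 (.l (.s k89 k29 9 (.s k8 k4 1 (.d k170 k85
  k251 14 12)))) (.c k89 (.q k72 [(.s k3 k2 0 (.s k8 k4 1 (.s k9 k6 2 (.s k10 k11 0 (.d k5 k13 k15 1
  2))))), (.s k174 k93 12 (.s k238 k110 7 (.s k204 k221 4 (.s k68 k136 9 (.d k76 k64 k140 1 7)))))]
  (.c k85 (.l (.s k3 k2 0 (.s k9 k6 2 (.s k5 k13 1 (.s k10 k15 2 (.d k8 k11 k4 0 1)))))) .n)) .n)))
  .n))))) .n))))) .n))))) (.c k149 (.q k192 [(.s k3 k2 0 (.s k8 k4 1 (.s k9 k6 2 (.s k5 k13 1 (.d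
  k10 k11 k15 0 2))))), (.s k4 k8 1 (.s k128 k64 7 (.s k132 k72 9 (.s k68 k196 7 (.d k136 k140 k204
  1 9))))), (.s k3 k2 0 (.s k128 k64 7 (.s k129 k66 8 (.s k65 k193 7 (.d k130 k131 k195 0 8)))))]
  (.c k123 (.q k183 [(.s k3 k2 0 (.s k8 k4 1 (.s k9 k6 2 (.s k5 k13 1 (.d k10 k11 k15 0 2))))), (.s
  k8 k4 1 (.s k64 k128 7 (.s k72 k132 9 (.s k136 k200 7 (.d k68 k76 k204 1 9))))), (.s k3 k2 0 (.s
  k128 k64 7 (.s k129 k66 8 (.s k65 k193 7 (.d k130 k131 k195 0 8)))))] (.c k72 (.q k89 [(.s k8 k4 1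
  (.d k170 k251 k85 12 14)), (.s k85 k170 14 (.d k93 k81 k174 1 12)), (.s k3 k2 0 (.s k8 k4 1 (.s k9
  k6 2 (.s k5 k13 1 (.d k10 k11 k15 0 2)))))] .n) (.c k89 (.l (.s k72 k132 9 (.s k8 k4 1 (.s k64
  k128 7 (.s k136 k200 7 (.d k68 k76 k204 1 9)))))) .n))) (.c k183 (.q k123 [(.s k3 k2 0 (.s k8 k4 1
  (.s k9 k6 2 (.s k5 k13 1 (.d k10 k11 k15 0 2))))), (.s k4 k8 1 (.s k128 k64 7 (.s k132 k72 9 (.s
  k68 k196 7 (.d k136 k140 k204 1 9))))), (.s k3 k2 0 (.s k128 k64 7 (.s k129 k66 8 (.s k65 k193 7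
  (.d k130 k131 k195 0 8)))))] (.c k132 (.q k166 [(.s k4 k8 1 (.d k85 k247 k170 12 14)), (.s k170
  k85 14 (.d k174 k162 k93 1 12)), (.s k3 k2 0 (.s k8 k4 1 (.s k9 k6 2 (.s k5 k13 1 (.d k10 k11 k15
  0 2)))))] .n) (.c k166 (.l (.s k132 k72 9 (.s k4 k8 1 (.s k128 k64 7 (.s k68 k196 7 (.d k136 k140
  k204 1 9)))))) .n))) .n))) (.c k183 (.q k123 [(.s k3 k2 0 (.s k8 k4 1 (.s k9 k6 2 (.s k5 k13 1 (.d
  k10 k11 k15 0 2))))), (.s k3 k2 0 (.s k85 k170 14 (.s k169 k253 13 (.s k86 k252 14 (.d k87 k84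
  k171 0 13))))), (.s k85 k170 14 (.s k253 k169 13 (.s k93 k174 12 (.s k13 k173 11 (.s k5 k9 1 (.d
  k15 k14 k10 0 2))))))] (.c k149 (.q k192 [(.s k3 k2 0 (.s k8 k4 1 (.s k9 k6 2 (.s k5 k13 1 (.d k10
  k11 k15 0 2))))), (.s k4 k8 1 (.s k128 k64 7 (.s k132 k72 9 (.s k68 k196 7 (.d k136 k140 k204 1
  9))))), (.s k3 k2 0 (.s k128 k64 7 (.s k129 k66 8 (.s k65 k193 7 (.d k130 k131 k195 0 8)))))] (.c
  k132 (.q k166 [(.s k4 k8 1 (.d k85 k247 k170 12 14)), (.s k170 k85 14 (.d k174 k162 k93 1 12)),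
  (.s k3 k2 0 (.s k8 k4 1 (.s k9 k6 2 (.s k5 k13 1 (.d k10 k11 k15 0 2)))))] .n) (.c k166 (.l (.s
  k132 k72 9 (.s k4 k8 1 (.s k128 k64 7 (.s k68 k196 7 (.d k136 k140 k204 1 9)))))) .n))) (.c k192
  (.q k149 [(.s k3 k2 0 (.s k8 k4 1 (.s k9 k6 2 (.s k5 k13 1 (.d k10 k11 k15 0 2))))), (.s k85 k170
  14 (.s k169 k253 13 (.s k21 k213 7 (.s k61 k41 5 (.s k193 k105 13 (.d k129 k189 k65 5 7))))))] (.c
  k209 (.q k226 [(.s k3 k2 0 (.s k8 k4 1 (.s k9 k6 2 (.s k5 k13 1 (.d k10 k11 k15 0 2))))), (.s k85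
  k170 14 (.s k169 k253 13 (.s k21 k213 7 (.s k61 k41 5 (.s k193 k105 13 (.d k129 k189 k65 5
  7))))))] .n) (.c k226 (.q k209 [(.s k8 k4 1 (.s k89 k29 9 (.d k170 k251 k85 12 14))), (.s k3 k2 0
  (.s k8 k4 1 (.s k9 k6 2 (.s k5 k13 1 (.d k10 k11 k15 0 2))))), (.s k85 k170 14 (.s k93 k174 12 (.d
  k89 k81 k29 1 9)))] (.c k46 (.q k166 [(.s k4 k8 1 (.d k85 k247 k170 12 14)), (.s k170 k85 14 (.d
  k174 k162 k93 1 12))] (.c k85 (.l (.s k8 k4 1 (.s k174 k93 12 (.s k89 k29 9 (.d k170 k162 k251 1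
  12))))) (.c k170 (.l (.s k4 k8 1 (.s k85 k247 12 (.s k93 k174 12 (.d k89 k81 k29 1 9))))) .n)))
  (.c k166 (.q k46 [(.s k8 k4 1 (.s k89 k29 9 (.d k170 k85 k251 14 12))), (.s k3 k2 0 (.s k9 k6 2
  (.s k5 k13 1 (.s k10 k15 2 (.d k8 k11 k4 0 1))))), (.s k85 k170 14 (.s k89 k29 9 (.d k93 k174 k81
  12 1)))] .n) .n))) .n))) .n))) (.c k192 (.q k149 [(.s k3 k2 0 (.s k8 k4 1 (.s k9 k6 2 (.s k5 k13 1
  (.d k10 k11 k15 0 2))))), (.s k85 k170 14 (.s k169 k253 13 (.s k21 k213 7 (.s k61 k41 5 (.s k193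
  k105 13 (.d k129 k189 k65 5 7))))))] (.c k123 (.q k183 [(.s k4 k8 1 (.s k166 k132 4 (.d k85 k247
  k170 12 14))), (.s k3 k2 0 (.s k8 k4 1 (.s k9 k6 2 (.s k5 k13 1 (.d k10 k11 k15 0 2))))), (.s k170
  k85 14 (.s k174 k93 12 (.d k166 k162 k132 1 4)))] (.c k72 (.q k89 [(.s k8 k4 1 (.d k170 k251 k85
  12 14)), (.s k85 k170 14 (.d k93 k81 k174 1 12))] (.c k85 (.l (.s k8 k4 1 (.s k170 k251 12 (.s
  k174 k93 12 (.d k166 k162 k132 1 4))))) (.c k170 (.l (.s k4 k8 1 (.s k93 k174 12 (.s k85 k81 1 (.d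
  k166 k132 k247 4 12))))) (.c k209 (.q k226 [(.s k8 k4 1 (.d k170 k251 k85 12 14)), (.s k85 k170 14
  (.d k93 k81 k174 1 12))] (.c k85 (.l (.s k8 k4 1 (.s k170 k251 12 (.s k174 k93 12 (.d k166 k162
  k132 1 4))))) (.c k170 (.l (.s k4 k8 1 (.s k93 k174 12 (.s k85 k81 1 (.d k166 k132 k247 4 12)))))
  .n))) (.c k226 (.l (.s k209 k29 9 (.s k8 k4 1 (.d k170 k251 k85 12 14)))) .n))))) (.c k89 (.q k72
  [(.s k4 k8 1 (.s k166 k132 4 (.d k85 k170 k247 14 12))), (.s k3 k2 0 (.s k8 k4 1 (.s k9 k6 2 (.s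
  k5 k13 1 (.d k10 k11 k15 0 2))))), (.s k170 k85 14 (.s k166 k132 4 (.d k174 k93 k162 12 1)))] (.c
  k209 (.q k226 [(.s k4 k8 1 (.s k166 k132 4 (.d k85 k170 k247 14 12))), (.s k3 k2 0 (.s k8 k4 1 (.s
  k9 k6 2 (.s k5 k13 1 (.d k10 k11 k15 0 2))))), (.s k170 k85 14 (.s k166 k132 4 (.d k174 k93 k162
  12 1)))] .n) (.c k226 (.q k209 [(.s k4 k8 1 (.s k166 k132 4 (.d k85 k170 k247 14 12))), (.s k3 k2
  0 (.s k8 k4 1 (.s k9 k6 2 (.s k5 k13 1 (.d k10 k11 k15 0 2))))), (.s k170 k85 14 (.s k166 k132 4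
  (.d k174 k93 k162 12 1)))] (.c k46 (.l (.s k166 k132 4 (.s k4 k8 1 (.d k85 k170 k247 14 12)))) (.c
  k166 (.q k46 [(.s k3 k2 0 (.s k8 k4 1 (.s k9 k6 2 (.s k10 k11 0 (.d k5 k13 k15 1 2))))), (.s k174
  k93 12 (.s k238 k110 7 (.s k204 k221 4 (.s k68 k136 9 (.d k76 k64 k140 1 7)))))] (.c k85 (.l (.s
  k3 k2 0 (.s k9 k6 2 (.s k5 k13 1 (.s k10 k15 2 (.d k8 k11 k4 0 1)))))) .n)) .n))) .n))) (.c k209
  (.q k226 [(.s k4 k8 1 (.s k166 k132 4 (.d k85 k247 k170 12 14))), (.s k3 k2 0 (.s k8 k4 1 (.s k9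
  k6 2 (.s k5 k13 1 (.d k10 k11 k15 0 2))))), (.s k170 k85 14 (.s k174 k93 12 (.d k166 k162 k132 1
  4)))] (.c k72 (.q k89 [(.s k8 k4 1 (.d k170 k251 k85 12 14)), (.s k85 k170 14 (.d k93 k81 k174 1
  12))] (.c k85 (.l (.s k8 k4 1 (.s k170 k251 12 (.s k174 k93 12 (.d k166 k162 k132 1 4))))) (.c
  k170 (.l (.s k4 k8 1 (.s k93 k174 12 (.s k85 k81 1 (.d k166 k132 k247 4 12))))) .n))) (.c k89 (.q
  k72 [(.s k4 k8 1 (.s k166 k132 4 (.d k85 k170 k247 14 12))), (.s k3 k2 0 (.s k8 k4 1 (.s k9 k6 2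
  (.s k5 k13 1 (.d k10 k11 k15 0 2))))), (.s k170 k85 14 (.s k166 k132 4 (.d k174 k93 k162 12 1)))]
  .n) .n))) (.c k226 (.q k209 [(.s k4 k8 1 (.s k166 k132 4 (.d k85 k247 k170 12 14))), (.s k85 k170
  14 (.s k93 k174 12 (.d k89 k81 k29 1 9))), (.s k3 k2 0 (.s k8 k4 1 (.s k9 k6 2 (.s k5 k13 1 (.d
  k10 k11 k15 0 2)))))] (.c k46 (.l (.s k166 k132 4 (.s k4 k8 1 (.d k85 k247 k170 12 14)))) (.c k72
  (.l (.s k89 k29 9 (.s k8 k4 1 (.d k170 k251 k85 12 14)))) (.c k89 (.q k72 [(.s k4 k8 1 (.s k166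
  k132 4 (.d k85 k170 k247 14 12))), (.s k3 k2 0 (.s k8 k4 1 (.s k9 k6 2 (.s k5 k13 1 (.d k10 k11
  k15 0 2))))), (.s k170 k85 14 (.s k166 k132 4 (.d k174 k93 k162 12 1)))] (.c k46 (.l (.s k166 k132
  4 (.s k4 k8 1 (.d k85 k170 k247 14 12)))) (.c k166 (.q k46 [(.s k3 k2 0 (.s k8 k4 1 (.s k9 k6 2
  (.s k10 k11 0 (.d k5 k13 k15 1 2))))), (.s k174 k93 12 (.s k238 k110 7 (.s k204 k221 4 (.s k68
  k136 9 (.d k76 k64 k140 1 7)))))] (.c k85 (.l (.s k3 k2 0 (.s k9 k6 2 (.s k5 k13 1 (.s k10 k15 2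
  (.d k8 k11 k4 0 1)))))) .n)) .n))) (.c k166 (.q k46 [(.s k8 k4 1 (.s k89 k29 9 (.d k170 k85 k251
  14 12))), (.s k3 k2 0 (.s k9 k6 2 (.s k5 k13 1 (.s k10 k15 2 (.d k8 k11 k4 0 1))))), (.s k85 k170
  14 (.s k89 k29 9 (.d k93 k174 k81 12 1)))] (.c k72 (.l (.s k89 k29 9 (.s k8 k4 1 (.d k170 k85 k251
  14 12)))) (.c k89 (.q k72 [(.s k3 k2 0 (.s k8 k4 1 (.s k9 k6 2 (.s k10 k11 0 (.d k5 k13 k15 1
  2))))), (.s k174 k93 12 (.s k238 k110 7 (.s k204 k221 4 (.s k68 k136 9 (.d k76 k64 k140 1 7)))))]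
  (.c k85 (.l (.s k3 k2 0 (.s k9 k6 2 (.s k5 k13 1 (.s k10 k15 2 (.d k8 k11 k4 0 1)))))) .n)) .n)))
  .n))))) .n))))) (.c k183 (.q k123 [(.s k3 k2 0 (.s k8 k4 1 (.s k9 k6 2 (.s k5 k13 1 (.d k10 k11
  k15 0 2))))), (.s k85 k170 14 (.s k169 k253 13 (.s k21 k213 7 (.s k61 k41 5 (.s k193 k105 13 (.d
  k129 k189 k65 5 7))))))] (.c k209 (.q k226 [(.s k3 k2 0 (.s k8 k4 1 (.s k9 k6 2 (.s k5 k13 1 (.d
  k10 k11 k15 0 2))))), (.s k85 k170 14 (.s k169 k253 13 (.s k21 k213 7 (.s k61 k41 5 (.s k193 k105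
  13 (.d k129 k189 k65 5 7))))))] .n) (.c k226 (.q k209 [(.s k8 k4 1 (.s k89 k29 9 (.d k170 k251 k85
  12 14))), (.s k3 k2 0 (.s k8 k4 1 (.s k9 k6 2 (.s k5 k13 1 (.d k10 k11 k15 0 2))))), (.s k85 k170
  14 (.s k93 k174 12 (.d k89 k81 k29 1 9)))] (.c k46 (.q k166 [(.s k4 k8 1 (.d k85 k247 k170 12
  14)), (.s k170 k85 14 (.d k174 k162 k93 1 12))] (.c k85 (.l (.s k8 k4 1 (.s k174 k93 12 (.s k89
  k29 9 (.d k170 k162 k251 1 12))))) (.c k170 (.l (.s k4 k8 1 (.s k85 k247 12 (.s k93 k174 12 (.d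
  k89 k81 k29 1 9))))) .n))) (.c k166 (.q k46 [(.s k8 k4 1 (.s k89 k29 9 (.d k170 k85 k251 14 12))),
  (.s k3 k2 0 (.s k9 k6 2 (.s k5 k13 1 (.s k10 k15 2 (.d k8 k11 k4 0 1))))), (.s k85 k170 14 (.s k89
  k29 9 (.d k93 k174 k81 12 1)))] .n) .n))) .n))) (.c k209 (.q k226 [(.s k3 k2 0 (.s k8 k4 1 (.s k9
  k6 2 (.s k5 k13 1 (.d k10 k11 k15 0 2))))), (.s k85 k170 14 (.s k169 k253 13 (.s k21 k213 7 (.s
  k61 k41 5 (.s k193 k105 13 (.d k129 k189 k65 5 7))))))] (.c k123 (.q k183 [(.s k4 k8 1 (.s k166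
  k132 4 (.d k85 k247 k170 12 14))), (.s k3 k2 0 (.s k8 k4 1 (.s k9 k6 2 (.s k5 k13 1 (.d k10 k11
  k15 0 2))))), (.s k170 k85 14 (.s k174 k93 12 (.d k166 k162 k132 1 4)))] (.c k72 (.q k89 [(.s k8
  k4 1 (.d k170 k251 k85 12 14)), (.s k85 k170 14 (.d k93 k81 k174 1 12))] (.c k85 (.l (.s k8 k4 1
  (.s k170 k251 12 (.s k174 k93 12 (.d k166 k162 k132 1 4))))) (.c k170 (.l (.s k4 k8 1 (.s k93 k174
  12 (.s k85 k81 1 (.d k166 k132 k247 4 12))))) .n))) (.c k89 (.q k72 [(.s k4 k8 1 (.s k166 k132 4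
  (.d k85 k170 k247 14 12))), (.s k3 k2 0 (.s k8 k4 1 (.s k9 k6 2 (.s k5 k13 1 (.d k10 k11 k15 0
  2))))), (.s k170 k85 14 (.s k166 k132 4 (.d k174 k93 k162 12 1)))] .n) .n))) (.c k183 (.q k123
  [(.s k3 k2 0 (.s k8 k4 1 (.s k9 k6 2 (.s k5 k13 1 (.d k10 k11 k15 0 2))))), (.s k85 k170 14 (.s
  k169 k253 13 (.s k21 k213 7 (.s k61 k41 5 (.s k193 k105 13 (.d k129 k189 k65 5 7))))))] .n) .n)))
  (.c k226 (.q k209 [(.s k8 k4 1 (.s k89 k29 9 (.d k170 k251 k85 12 14))), (.s k3 k2 0 (.s k8 k4 1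
  (.s k9 k6 2 (.s k5 k13 1 (.d k10 k11 k15 0 2))))), (.s k85 k170 14 (.s k93 k174 12 (.d k89 k81 k29
  1 9)))] (.c k46 (.q k166 [(.s k4 k8 1 (.d k85 k247 k170 12 14)), (.s k170 k85 14 (.d k174 k162 k93
  1 12))] (.c k85 (.l (.s k8 k4 1 (.s k174 k93 12 (.s k89 k29 9 (.d k170 k162 k251 1 12))))) (.c
  k123 (.l (.s k183 k132 4 (.s k4 k8 1 (.d k85 k247 k170 12 14)))) (.c k170 (.l (.s k4 k8 1 (.s k85
  k247 12 (.s k93 k174 12 (.d k89 k81 k29 1 9))))) (.c k183 (.q k123 [(.s k4 k8 1 (.d k85 k247 k170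
  12 14)), (.s k170 k85 14 (.d k174 k162 k93 1 12))] (.c k85 (.l (.s k8 k4 1 (.s k174 k93 12 (.s k89
  k29 9 (.d k170 k162 k251 1 12))))) (.c k170 (.l (.s k4 k8 1 (.s k85 k247 12 (.s k93 k174 12 (.d
  k89 k81 k29 1 9))))) .n))) .n))))) (.c k123 (.q k183 [(.s k4 k8 1 (.s k166 k132 4 (.d k85 k247
  k170 12 14))), (.s k85 k170 14 (.s k93 k174 12 (.d k89 k81 k29 1 9))), (.s k3 k2 0 (.s k8 k4 1 (.s
  k9 k6 2 (.s k5 k13 1 (.d k10 k11 k15 0 2)))))] (.c k46 (.l (.s k166 k132 4 (.s k4 k8 1 (.d k85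
  k247 k170 12 14)))) (.c k72 (.l (.s k89 k29 9 (.s k8 k4 1 (.d k170 k251 k85 12 14)))) (.c k89 (.q
  k72 [(.s k4 k8 1 (.s k166 k132 4 (.d k85 k170 k247 14 12))), (.s k3 k2 0 (.s k8 k4 1 (.s k9 k6 2
  (.s k5 k13 1 (.d k10 k11 k15 0 2))))), (.s k170 k85 14 (.s k166 k132 4 (.d k174 k93 k162 12 1)))]
  (.c k46 (.l (.s k166 k132 4 (.s k4 k8 1 (.d k85 k170 k247 14 12)))) (.c k166 (.q k46 [(.s k3 k2 0
  (.s k8 k4 1 (.s k9 k6 2 (.s k10 k11 0 (.d k5 k13 k15 1 2))))), (.s k174 k93 12 (.s k238 k110 7 (.s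
  k204 k221 4 (.s k68 k136 9 (.d k76 k64 k140 1 7)))))] (.c k85 (.l (.s k3 k2 0 (.s k9 k6 2 (.s k5
  k13 1 (.s k10 k15 2 (.d k8 k11 k4 0 1)))))) .n)) .n))) (.c k166 (.q k46 [(.s k8 k4 1 (.s k89 k29 9
  (.d k170 k85 k251 14 12))), (.s k3 k2 0 (.s k9 k6 2 (.s k5 k13 1 (.s k10 k15 2 (.d k8 k11 k4 0
  1))))), (.s k85 k170 14 (.s k89 k29 9 (.d k93 k174 k81 12 1)))] (.c k72 (.l (.s k89 k29 9 (.s k8
  k4 1 (.d k170 k85 k251 14 12)))) (.c k89 (.q k72 [(.s k3 k2 0 (.s k8 k4 1 (.s k9 k6 2 (.s k10 k11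
  0 (.d k5 k13 k15 1 2))))), (.s k174 k93 12 (.s k238 k110 7 (.s k204 k221 4 (.s k68 k136 9 (.d k76
  k64 k140 1 7)))))] (.c k85 (.l (.s k3 k2 0 (.s k9 k6 2 (.s k5 k13 1 (.s k10 k15 2 (.d k8 k11 k4 0
  1)))))) .n)) .n))) .n))))) (.c k166 (.q k46 [(.s k8 k4 1 (.s k89 k29 9 (.d k170 k85 k251 14 12))),
  (.s k3 k2 0 (.s k9 k6 2 (.s k5 k13 1 (.s k10 k15 2 (.d k8 k11 k4 0 1))))), (.s k85 k170 14 (.s k89
  k29 9 (.d k93 k174 k81 12 1)))] (.c k123 (.q k183 [(.s k8 k4 1 (.s k89 k29 9 (.d k170 k85 k251 14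
  12))), (.s k3 k2 0 (.s k9 k6 2 (.s k5 k13 1 (.s k10 k15 2 (.d k8 k11 k4 0 1))))), (.s k85 k170 14
  (.s k89 k29 9 (.d k93 k174 k81 12 1)))] (.c k72 (.l (.s k89 k29 9 (.s k8 k4 1 (.d k170 k85 k251 14
  12)))) (.c k89 (.q k72 [(.s k3 k2 0 (.s k8 k4 1 (.s k9 k6 2 (.s k10 k11 0 (.d k5 k13 k15 1 2))))),
  (.s k174 k93 12 (.s k238 k110 7 (.s k204 k221 4 (.s k68 k136 9 (.d k76 k64 k140 1 7)))))] (.c k85
  (.l (.s k3 k2 0 (.s k9 k6 2 (.s k5 k13 1 (.s k10 k15 2 (.d k8 k11 k4 0 1)))))) .n)) .n))) (.c k183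
  (.q k123 [(.s k8 k4 1 (.s k89 k29 9 (.d k170 k85 k251 14 12))), (.s k3 k2 0 (.s k9 k6 2 (.s k5 k13
  1 (.s k10 k15 2 (.d k8 k11 k4 0 1))))), (.s k85 k170 14 (.s k89 k29 9 (.d k93 k174 k81 12 1)))]
  .n) .n))) (.c k183 (.q k123 [(.s k8 k4 1 (.s k89 k29 9 (.d k170 k251 k85 12 14))), (.s k3 k2 0 (.s
  k8 k4 1 (.s k9 k6 2 (.s k5 k13 1 (.d k10 k11 k15 0 2))))), (.s k85 k170 14 (.s k93 k174 12 (.d k89
  k81 k29 1 9)))] (.c k46 (.q k166 [(.s k4 k8 1 (.d k85 k247 k170 12 14)), (.s k170 k85 14 (.d k174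
  k162 k93 1 12))] (.c k85 (.l (.s k8 k4 1 (.s k174 k93 12 (.s k89 k29 9 (.d k170 k162 k251 1
  12))))) (.c k170 (.l (.s k4 k8 1 (.s k85 k247 12 (.s k93 k174 12 (.d k89 k81 k29 1 9))))) .n)))
  (.c k166 (.q k46 [(.s k8 k4 1 (.s k89 k29 9 (.d k170 k85 k251 14 12))), (.s k3 k2 0 (.s k9 k6 2
  (.s k5 k13 1 (.s k10 k15 2 (.d k8 k11 k4 0 1))))), (.s k85 k170 14 (.s k89 k29 9 (.d k93 k174 k81
  12 1)))] .n) .n))) .n))))) .n))))) .n))))) (.c k247 (.l (.s k8 k4 1 (.s k174 k93 12 (.s k170 k85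
  14 (.s k166 k162 1 (.d k89 k251 k243 12 14)))))) (.c k251 (.l (.s k4 k8 1 (.s k93 k174 12 (.s k85
  k170 14 (.s k89 k81 1 (.d k166 k247 k243 12 14)))))) .n))))))))))))))

def t107 : T TT 256 :=
  (.q k195 [(.s k130 k65 8 (.s k235 k215 5 (.s k170 k85 14 (.s k105 k40 8 (.d k150 k190 k60 5
  14)))))] (.c k20 (.l (.s k130 k65 8 (.s k170 k85 14 (.s k150 k190 5 (.s k105 k60 14 (.d k235 k215
  k40 5 8)))))) (.c k40 (.l (.s k65 k130 8 (.s k85 k170 14 (.s k105 k125 5 (.s k150 k60 14 (.d k215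
  k235 k20 5 8)))))) (.c k60 (.q k48 [(.s k16 k32 3 (.s k130 k65 8 (.s k146 k97 12 (.s k81 k211 8
  (.d k162 k178 k243 3 12))))), (.s k16 k32 3 (.s k85 k170 14 (.s k154 k223 10 (.s k101 k207 14 (.d
  k117 k69 k186 3 10))))), (.s k65 k130 8 (.s k85 k170 14 (.s k97 k146 12 (.s k117 k186 10 (.s k105
  k125 5 (.d k101 k109 k69 1 3))))))] (.c k61 (.q k62 [(.s k16 k32 3 (.s k130 k65 8 (.s k146 k97 12
  (.s k81 k211 8 (.d k162 k178 k243 3 12))))), (.s k16 k32 3 (.s k85 k170 14 (.s k154 k223 10 (.s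
  k101 k207 14 (.d k117 k69 k186 3 10))))), (.s k65 k130 8 (.s k85 k170 14 (.s k97 k146 12 (.s k117
  k186 10 (.s k105 k125 5 (.d k101 k109 k69 1 3))))))] .n) (.c k62 (.q k61 [(.s k16 k32 3 (.s k130
  k65 8 (.s k146 k97 12 (.s k81 k211 8 (.d k162 k178 k243 3 12))))), (.s k16 k32 3 (.s k85 k170 14
  (.s k154 k223 10 (.s k101 k207 14 (.d k117 k69 k186 3 10))))), (.s k65 k130 8 (.s k85 k170 14 (.s
  k97 k146 12 (.s k117 k186 10 (.s k105 k125 5 (.d k101 k109 k69 1 3))))))] .n) .n))) (.c k65 (.q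
  k84 [(.s k252 k168 13 (.s k85 k170 14 (.s k86 k87 0 (.s k253 k254 0 (.d k169 k1 k3 13 14))))), (.s
  k252 k168 13 (.s k214 k233 6 (.s k215 k235 5 (.s k213 k212 0 (.s k234 k192 6 (.d k254 k253 k194 0
  5)))))), (.s k85 k170 14 (.s k86 k87 0 (.s k215 k235 5 (.s k20 k150 8 (.s k212 k148 7 (.s k149 k23
  8 (.d k213 k214 k21 0 7)))))))] (.c k171 (.l (.s k252 k168 13 (.s k253 k254 0 (.s k85 k170 14 (.s
  k169 k1 13 (.d k86 k87 k3 0 14)))))) .n)) (.c k85 (.q k192 [(.s k64 k128 7 (.s k65 k130 8 (.s k66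
  k67 0 (.s k193 k194 0 (.d k129 k1 k3 7 8))))), (.s k193 k194 0 (.s k213 k234 6 (.s k233 k253 5 (.s
  k214 k252 6 (.d k215 k212 k235 0 5)))))] (.c k1 (.l (.s k128 k64 7 (.s k130 k65 8 (.s k129 k131 0
  (.s k66 k3 8 (.d k194 k193 k2 0 7)))))) (.c k193 (.q k48 [(.s k16 k32 3 (.s k128 k64 7 (.s k144
  k96 11 (.s k80 k208 7 (.d k160 k176 k240 3 11))))), (.s k16 k32 3 (.s k130 k65 8 (.s k146 k97 12
  (.s k81 k211 8 (.d k162 k178 k243 3 12))))), (.s k64 k128 7 (.s k65 k130 8 (.s k96 k144 11 (.s k97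
  k146 12 (.s k67 k66 0 (.d k112 k80 k82 3 4))))))] .n) (.c k194 (.q k48 [(.s k16 k32 3 (.s k128 k64
  7 (.s k144 k96 11 (.s k80 k208 7 (.d k160 k176 k240 3 11))))), (.s k16 k32 3 (.s k130 k65 8 (.s
  k146 k97 12 (.s k81 k211 8 (.d k162 k178 k243 3 12))))), (.s k64 k128 7 (.s k65 k130 8 (.s k96
  k144 11 (.s k97 k146 12 (.s k81 k113 3 (.d k98 k99 k115 0 4))))))] .n) .n)))) (.c k105 (.q k48
  [(.s k16 k32 3 (.s k85 k170 14 (.s k154 k223 10 (.s k101 k207 14 (.d k117 k69 k186 3 10))))), (.s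
  k32 k16 3 (.s k65 k130 8 (.s k97 k146 12 (.s k162 k227 8 (.d k81 k113 k243 3 12))))), (.s k170 k85
  14 (.s k146 k97 12 (.s k186 k117 10 (.s k154 k138 3 (.s k150 k158 1 (.d k130 k65 k190 8 5))))))]
  (.c k104 (.q k106 [(.s k16 k32 3 (.s k85 k170 14 (.s k154 k223 10 (.s k101 k207 14 (.d k117 k69
  k186 3 10))))), (.s k32 k16 3 (.s k65 k130 8 (.s k97 k146 12 (.s k162 k227 8 (.d k81 k113 k243 3
  12))))), (.s k85 k170 14 (.s k117 k186 10 (.s k64 k127 6 (.s k192 k128 7 (.s k96 k144 11 (.d k101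
  k111 k69 2 3))))))] .n) (.c k106 (.q k104 [(.s k16 k32 3 (.s k146 k97 12 (.s k81 k211 8 (.s k162
  k243 12 (.d k130 k178 k65 3 8))))), (.s k16 k32 3 (.s k85 k170 14 (.s k154 k223 10 (.s k101 k207
  14 (.d k117 k69 k186 3 10))))), (.s k170 k85 14 (.s k146 k97 12 (.s k186 k117 10 (.s k154 k138 3
  (.s k150 k158 1 (.d k130 k65 k190 8 5))))))] (.c k101 (.l (.s k32 k16 3 (.s k65 k130 8 (.s k97
  k146 12 (.s k162 k227 8 (.d k81 k113 k243 3 12)))))) (.c k149 (.q k192 [(.s k193 k194 0 (.s k64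
  k128 7 (.s k65 k130 8 (.s k129 k1 7 (.d k66 k67 k3 0 8))))), (.s k16 k32 3 (.s k128 k64 7 (.s k144
  k96 11 (.s k80 k208 7 (.d k160 k176 k240 3 11))))), (.s k16 k32 3 (.s k130 k65 8 (.s k146 k97 12
  (.s k81 k211 8 (.d k162 k178 k243 3 12)))))] (.c k61 (.l (.s k193 k194 0 (.s k64 k128 7 (.s k65
  k130 8 (.s k129 k1 7 (.d k66 k67 k3 0 8)))))) (.c k193 (.q k61 [(.s k16 k32 3 (.s k128 k64 7 (.s
  k144 k96 11 (.s k160 k176 3 (.d k80 k208 k240 7 11))))), (.s k64 k128 7 (.s k60 k148 13 (.s k40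
  k20 5 (.s k168 k232 7 (.d k84 k124 k252 5 13))))), (.s k16 k32 3 (.s k130 k65 8 (.s k146 k97 12
  (.s k81 k211 8 (.d k162 k178 k243 3 12)))))] .n) .n))) (.c k192 (.q k149 [(.s k16 k32 3 (.s k130
  k65 8 (.s k146 k97 12 (.s k81 k211 8 (.d k162 k178 k243 3 12))))), (.s k16 k32 3 (.s k85 k170 14
  (.s k154 k223 10 (.s k101 k207 14 (.d k117 k69 k186 3 10))))), (.s k170 k85 14 (.s k146 k97 12 (.s
  k186 k117 10 (.s k154 k138 3 (.s k150 k158 1 (.d k130 k65 k190 8 5)))))), (.s k32 k16 3 (.s k65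
  k130 8 (.s k97 k146 12 (.s k162 k227 8 (.d k81 k113 k243 3 12)))))] .n) .n)))) .n))) (.c k125 (.l
  (.s k130 k65 8 (.s k235 k215 5 (.s k170 k85 14 (.s k105 k40 8 (.d k150 k190 k60 5 14)))))) (.c
  k130 (.q k192 [(.s k194 k193 0 (.s k235 k215 5 (.s k234 k213 6 (.s k233 k232 0 (.d k214 k254 k252
  5 6))))), (.s k128 k64 7 (.s k170 k85 14 (.s k149 k191 6 (.s k193 k194 0 (.s k105 k61 13 (.s k40
  k235 8 (.d k60 k20 k150 5 14))))))), (.s k85 k170 14 (.s k213 k234 6 (.s k149 k21 7 (.s k215 k235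
  5 (.s k150 k20 8 (.s k148 k151 0 (.d k60 k105 k104 14 13)))))))] (.c k235 (.l (.s k64 k128 7 (.s
  k85 k170 14 (.s k106 k127 6 (.s k194 k193 0 (.s k150 k62 13 (.s k20 k215 8 (.d k60 k40 k105 5
  14)))))))) .n)) (.c k150 (.q k48 [(.s k16 k32 3 (.s k130 k65 8 (.s k146 k97 12 (.s k162 k178 3 (.d
  k81 k211 k243 8 12))))), (.s k32 k16 3 (.s k170 k85 14 (.s k101 k239 10 (.s k154 k207 14 (.d k186
  k138 k117 3 10))))), (.s k85 k170 14 (.s k97 k146 12 (.s k117 k186 10 (.s k101 k69 3 (.s k105 k109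
  1 (.d k65 k130 k125 8 5))))))] .n) (.c k170 (.q k192 [(.s k128 k64 7 (.s k130 k65 8 (.s k129 k131
  0 (.s k66 k3 8 (.d k194 k193 k2 0 7))))), (.s k193 k194 0 (.s k213 k234 6 (.s k233 k253 5 (.s k214
  k252 6 (.d k215 k212 k235 0 5)))))] (.c k193 (.q k48 [(.s k16 k32 3 (.s k128 k64 7 (.s k144 k96 11
  (.s k80 k208 7 (.d k160 k176 k240 3 11))))), (.s k16 k32 3 (.s k130 k65 8 (.s k146 k97 12 (.s k81
  k211 8 (.d k162 k178 k243 3 12))))), (.s k64 k128 7 (.s k65 k130 8 (.s k96 k144 11 (.s k97 k146 12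
  (.s k67 k66 0 (.d k112 k80 k82 3 4))))))] .n) (.c k194 (.q k48 [(.s k16 k32 3 (.s k128 k64 7 (.s
  k144 k96 11 (.s k80 k208 7 (.d k160 k176 k240 3 11))))), (.s k16 k32 3 (.s k130 k65 8 (.s k146 k97
  12 (.s k81 k211 8 (.d k162 k178 k243 3 12))))), (.s k64 k128 7 (.s k65 k130 8 (.s k96 k144 11 (.s
  k97 k146 12 (.s k81 k113 3 (.d k98 k99 k115 0 4))))))] .n) .n))) (.c k190 (.l (.s k65 k130 8 (.s
  k215 k235 5 (.s k85 k170 14 (.s k150 k20 8 (.d k105 k125 k60 5 14)))))) (.c k215 (.q k48 [(.s k16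
  k32 3 (.s k85 k170 14 (.s k117 k186 10 (.s k101 k69 3 (.d k154 k223 k207 10 14))))), (.s k16 k32 3
  (.s k130 k65 8 (.s k146 k97 12 (.s k162 k178 3 (.d k81 k211 k243 8 12))))), (.s k65 k130 8 (.s k85
  k170 14 (.s k97 k146 12 (.s k117 k186 10 (.s k105 k125 5 (.d k101 k109 k69 1 3))))))] .n) (.c k235
  (.q k171 [(.s k170 k85 14 (.s k3 k87 13 (.s k2 k1 0 (.s k86 k254 13 (.d k169 k168 k252 0 14))))),
  (.s k130 k65 8 (.s k170 k85 14 (.s k150 k190 5 (.s k169 k168 0 (.s k131 k188 6 (.s k128 k129 0 (.d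
  k191 k151 k149 5 6))))))), (.s k65 k130 8 (.s k3 k87 13 (.s k1 k2 0 (.s k129 k193 7 (.s k66 k192 8
  (.d k67 k64 k131 0 7))))))] (.c k1 (.l (.s k130 k65 8 (.s k170 k85 14 (.s k3 k87 13 (.s k150 k190
  5 (.s k169 k168 0 (.d k131 k67 k188 7 6))))))) .n)) .n))))))))))))))

def t111 : T TT 256 :=
  (.q k207 [(.s k138 k69 10 (.s k239 k223 3 (.s k170 k85 14 (.s k101 k32 10 (.d k154 k186 k48 3
  14)))))] (.c k16 (.l (.s k138 k69 10 (.s k170 k85 14 (.s k154 k186 3 (.s k101 k48 14 (.d k239 k223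
  k32 3 10)))))) (.c k32 (.l (.s k69 k138 10 (.s k85 k170 14 (.s k101 k117 3 (.s k154 k48 14 (.d
  k223 k239 k16 3 10)))))) (.c k48 (.q k195 [(.s k65 k130 8 (.s k69 k138 10 (.s k73 k77 1 (.s k199
  k203 1 (.d k134 k4 k12 8 10))))), (.s k65 k130 8 (.s k85 k170 14 (.s k105 k125 5 (.s k150 k60 14
  (.d k215 k235 k20 5 8))))), (.s k199 k203 1 (.s k215 k235 5 (.s k231 k247 3 (.s k219 k243 5 (.d
  k223 k211 k239 1 3)))))] (.c k53 (.q k58 [(.s k65 k130 8 (.s k69 k138 10 (.s k73 k77 1 (.s k199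
  k203 1 (.d k134 k4 k12 8 10))))), (.s k65 k130 8 (.s k85 k170 14 (.s k105 k125 5 (.s k150 k60 14
  (.d k215 k235 k20 5 8))))), (.s k199 k203 1 (.s k215 k235 5 (.s k231 k247 3 (.s k219 k243 5 (.d
  k223 k211 k239 1 3)))))] .n) (.c k58 (.q k53 [(.s k65 k130 8 (.s k69 k138 10 (.s k73 k77 1 (.s
  k199 k203 1 (.d k134 k4 k12 8 10))))), (.s k65 k130 8 (.s k85 k170 14 (.s k105 k125 5 (.s k150 k60
  14 (.d k215 k235 k20 5 8))))), (.s k199 k203 1 (.s k215 k235 5 (.s k231 k247 3 (.s k219 k243 5 (.d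
  k223 k211 k239 1 3)))))] .n) .n))) (.c k69 (.q k195 [(.s k65 k130 8 (.s k85 k170 14 (.s k105 k125
  5 (.s k215 k235 5 (.d k150 k20 k60 8 14))))), (.s k199 k203 1 (.s k215 k235 5 (.s k231 k247 3 (.s
  k219 k243 5 (.d k223 k211 k239 1 3))))), (.s k65 k130 8 (.s k85 k170 14 (.s k105 k125 5 (.s k203
  k199 1 (.s k154 k56 12 (.d k223 k239 k16 3 10))))))] .n) (.c k85 (.q k195 [(.s k65 k130 8 (.s k69
  k138 10 (.s k73 k77 1 (.s k199 k203 1 (.d k134 k4 k12 8 10))))), (.s k199 k203 1 (.s k215 k235 5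
  (.s k231 k247 3 (.s k219 k243 5 (.d k223 k211 k239 1 3)))))] (.c k4 (.l (.s k130 k65 8 (.s k138
  k69 10 (.s k134 k142 1 (.s k73 k12 10 (.d k203 k199 k8 1 8)))))) (.c k199 (.q k192 [(.s k64 k128 7
  (.s k65 k130 8 (.s k66 k67 0 (.s k193 k194 0 (.d k129 k1 k3 7 8))))), (.s k64 k128 7 (.s k69 k138
  10 (.s k74 k79 2 (.s k133 k15 10 (.d k197 k202 k5 2 7))))), (.s k193 k194 0 (.s k213 k234 6 (.s
  k233 k253 5 (.s k214 k252 6 (.d k215 k212 k235 0 5)))))] .n) (.c k203 (.q k192 [(.s k64 k128 7 (.s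
  k65 k130 8 (.s k66 k67 0 (.s k193 k194 0 (.d k129 k1 k3 7 8))))), (.s k64 k128 7 (.s k69 k138 10
  (.s k74 k79 2 (.s k133 k15 10 (.d k197 k202 k5 2 7))))), (.s k193 k194 0 (.s k213 k234 6 (.s k233
  k253 5 (.s k214 k252 6 (.d k215 k212 k235 0 5)))))] .n) .n)))) (.c k101 (.q k195 [(.s k65 k130 8
  (.s k69 k138 10 (.s k199 k203 1 (.s k134 k4 8 (.d k73 k77 k12 1 10))))), (.s k65 k130 8 (.s k85
  k170 14 (.s k105 k125 5 (.s k150 k60 14 (.d k215 k235 k20 5 8))))), (.s k199 k203 1 (.s k215 k235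
  5 (.s k231 k247 3 (.s k219 k243 5 (.d k223 k211 k239 1 3)))))] (.c k96 (.q k106 [(.s k65 k130 8
  (.s k69 k138 10 (.s k199 k203 1 (.s k134 k4 8 (.d k73 k77 k12 1 10))))), (.s k65 k130 8 (.s k85
  k170 14 (.s k105 k125 5 (.s k150 k60 14 (.d k215 k235 k20 5 8))))), (.s k199 k203 1 (.s k215 k235
  5 (.s k231 k247 3 (.s k219 k243 5 (.d k223 k211 k239 1 3)))))] .n) (.c k106 (.q k96 [(.s k65 k130
  8 (.s k69 k138 10 (.s k199 k203 1 (.s k134 k4 8 (.d k73 k77 k12 1 10))))), (.s k65 k130 8 (.s k85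
  k170 14 (.s k105 k125 5 (.s k150 k60 14 (.d k215 k235 k20 5 8))))), (.s k199 k203 1 (.s k215 k235
  5 (.s k231 k247 3 (.s k219 k243 5 (.d k223 k211 k239 1 3)))))] (.c k149 (.q k192 [(.s k64 k128 7
  (.s k65 k130 8 (.s k66 k67 0 (.s k129 k3 8 (.d k193 k194 k1 0 7))))), (.s k65 k130 8 (.s k69 k138
  10 (.s k73 k77 1 (.s k134 k12 10 (.d k199 k203 k4 1 8))))), (.s k64 k128 7 (.s k69 k138 10 (.s k74
  k79 2 (.s k133 k15 10 (.d k197 k202 k5 2 7)))))] (.c k53 (.l (.s k197 k202 2 (.s k64 k128 7 (.s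
  k69 k138 10 (.s k133 k5 7 (.d k74 k79 k15 2 10)))))) (.c k197 (.q k53 [(.s k64 k128 7 (.s k65 k130
  8 (.s k66 k67 0 (.s k129 k3 8 (.d k193 k194 k1 0 7))))), (.s k65 k130 8 (.s k69 k138 10 (.s k73
  k77 1 (.s k134 k12 10 (.d k199 k203 k4 1 8))))), (.s k64 k128 7 (.s k48 k144 11 (.s k32 k16 3 (.s
  k160 k224 7 (.d k80 k112 k240 3 11)))))] .n) .n))) (.c k192 (.q k149 [(.s k65 k130 8 (.s k69 k138
  10 (.s k199 k203 1 (.s k134 k4 8 (.d k73 k77 k12 1 10))))), (.s k65 k130 8 (.s k85 k170 14 (.s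
  k105 k125 5 (.s k150 k60 14 (.d k215 k235 k20 5 8))))), (.s k199 k203 1 (.s k215 k235 5 (.s k231
  k247 3 (.s k219 k243 5 (.d k223 k211 k239 1 3)))))] .n) .n))) .n))) (.c k117 (.l (.s k138 k69 10
  (.s k239 k223 3 (.s k170 k85 14 (.s k101 k32 10 (.d k154 k186 k48 3 14)))))) (.c k138 (.q k195
  [(.s k130 k65 8 (.s k235 k215 5 (.s k170 k85 14 (.s k105 k40 8 (.d k150 k190 k60 5 14))))), (.s
  k199 k203 1 (.s k215 k235 5 (.s k231 k247 3 (.s k219 k243 5 (.d k223 k211 k239 1 3))))), (.s k65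
  k130 8 (.s k85 k170 14 (.s k105 k125 5 (.s k203 k199 1 (.s k154 k56 12 (.d k223 k239 k16 3
  10))))))] .n) (.c k154 (.q k195 [(.s k65 k130 8 (.s k69 k138 10 (.s k73 k77 1 (.s k134 k12 10 (.d
  k199 k203 k4 1 8))))), (.s k199 k203 1 (.s k215 k235 5 (.s k231 k247 3 (.s k219 k243 5 (.d k223
  k211 k239 1 3))))), (.s k65 k130 8 (.s k85 k170 14 (.s k105 k125 5 (.s k150 k60 14 (.d k215 k235
  k20 5 8)))))] .n) (.c k170 (.q k195 [(.s k130 k65 8 (.s k138 k69 10 (.s k134 k142 1 (.s k73 k12 10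
  (.d k203 k199 k8 1 8))))), (.s k199 k203 1 (.s k215 k235 5 (.s k231 k247 3 (.s k219 k243 5 (.d
  k223 k211 k239 1 3)))))] (.c k199 (.q k192 [(.s k128 k64 7 (.s k130 k65 8 (.s k129 k131 0 (.s k66
  k3 8 (.d k194 k193 k2 0 7))))), (.s k64 k128 7 (.s k69 k138 10 (.s k74 k79 2 (.s k133 k15 10 (.d
  k197 k202 k5 2 7))))), (.s k193 k194 0 (.s k213 k234 6 (.s k233 k253 5 (.s k214 k252 6 (.d k215
  k212 k235 0 5)))))] .n) (.c k203 (.q k192 [(.s k128 k64 7 (.s k130 k65 8 (.s k129 k131 0 (.s k66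
  k3 8 (.d k194 k193 k2 0 7))))), (.s k64 k128 7 (.s k69 k138 10 (.s k74 k79 2 (.s k133 k15 10 (.d
  k197 k202 k5 2 7))))), (.s k193 k194 0 (.s k213 k234 6 (.s k233 k253 5 (.s k214 k252 6 (.d k215
  k212 k235 0 5)))))] .n) .n))) (.c k186 (.l (.s k69 k138 10 (.s k223 k239 3 (.s k85 k170 14 (.s
  k154 k16 10 (.d k101 k117 k48 3 14)))))) (.c k223 (.q k195 [(.s k65 k130 8 (.s k69 k138 10 (.s k73
  k77 1 (.s k199 k203 1 (.d k134 k4 k12 8 10))))), (.s k65 k130 8 (.s k85 k170 14 (.s k105 k125 5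
  (.s k150 k60 14 (.d k215 k235 k20 5 8))))), (.s k69 k138 10 (.s k85 k170 14 (.s k101 k117 3 (.s
  k199 k203 1 (.s k150 k52 12 (.d k215 k235 k20 5 8))))))] .n) (.c k239 (.q k175 [(.s k170 k85 14
  (.s k15 k95 11 (.s k10 k5 2 (.s k90 k250 11 (.d k165 k160 k240 2 14))))), (.s k138 k69 10 (.s k170
  k85 14 (.s k154 k186 3 (.s k165 k160 2 (.s k143 k176 6 (.s k128 k133 2 (.d k191 k159 k149 3
  6))))))), (.s k69 k138 10 (.s k15 k95 11 (.s k5 k10 2 (.s k133 k197 7 (.s k74 k192 10 (.d k79 k64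
  k143 2 7))))))] (.c k5 (.l (.s k138 k69 10 (.s k170 k85 14 (.s k15 k95 11 (.s k154 k186 3 (.s k165
  k160 2 (.d k143 k79 k176 7 6))))))) .n)) .n))))))))))))))

def t127 : T TT 256 :=
  (.q k207 [(.s k69 k138 10 (.s k85 k170 14 (.s k223 k239 3 (.s k154 k16 10 (.d k101 k117 k48 3
  14)))))] (.c k16 (.l (.s k138 k69 10 (.s k170 k85 14 (.s k154 k186 3 (.s k101 k48 14 (.d k239 k223
  k32 3 10)))))) (.c k32 (.l (.s k69 k138 10 (.s k85 k170 14 (.s k101 k117 3 (.s k154 k48 14 (.d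
  k223 k239 k16 3 10)))))) (.c k48 (.q k195 [(.s k65 k130 8 (.s k69 k138 10 (.s k73 k77 1 (.s k199
  k203 1 (.d k134 k4 k12 8 10))))), (.s k65 k130 8 (.s k85 k170 14 (.s k105 k125 5 (.s k150 k60 14
  (.d k215 k235 k20 5 8))))), (.s k199 k203 1 (.s k215 k235 5 (.s k231 k247 3 (.s k219 k243 5 (.d
  k223 k211 k239 1 3)))))] (.c k53 (.q k58 [(.s k65 k130 8 (.s k69 k138 10 (.s k73 k77 1 (.s k199
  k203 1 (.d k134 k4 k12 8 10))))), (.s k65 k130 8 (.s k85 k170 14 (.s k105 k125 5 (.s k150 k60 14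
  (.d k215 k235 k20 5 8))))), (.s k199 k203 1 (.s k215 k235 5 (.s k231 k247 3 (.s k219 k243 5 (.d
  k223 k211 k239 1 3)))))] .n) (.c k58 (.q k53 [(.s k65 k130 8 (.s k69 k138 10 (.s k73 k77 1 (.s
  k199 k203 1 (.d k134 k4 k12 8 10))))), (.s k65 k130 8 (.s k85 k170 14 (.s k105 k125 5 (.s k150 k60
  14 (.d k215 k235 k20 5 8))))), (.s k199 k203 1 (.s k215 k235 5 (.s k231 k247 3 (.s k219 k243 5 (.d
  k223 k211 k239 1 3)))))] .n) .n))) (.c k69 (.q k84 [(.s k252 k168 13 (.s k85 k170 14 (.s k86 k87 0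
  (.s k253 k254 0 (.d k169 k1 k3 13 14))))), (.s k252 k168 13 (.s k222 k237 4 (.s k223 k239 3 (.s
  k221 k220 0 (.s k238 k204 4 (.d k254 k253 k206 0 3)))))), (.s k85 k170 14 (.s k86 k87 0 (.s k223
  k239 3 (.s k16 k154 10 (.s k220 k152 9 (.s k153 k19 10 (.d k221 k222 k17 0 9)))))))] .n) (.c k85
  (.q k192 [(.s k197 k202 2 (.s k213 k234 6 (.s k223 k239 3 (.s k218 k208 2 (.d k229 k245 k240 3
  6))))), (.s k64 k128 7 (.s k69 k138 10 (.s k74 k79 2 (.s k133 k15 10 (.d k197 k202 k5 2 7)))))]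
  (.c k64 (.q k106 [(.s k138 k69 10 (.s k202 k197 2 (.s k154 k58 11 (.s k186 k170 3 (.d k48 k117
  k101 10 14))))), (.s k197 k202 2 (.s k213 k234 6 (.s k229 k245 3 (.s k218 k240 6 (.d k223 k208
  k239 2 3))))), (.s k138 k69 10 (.s k234 k213 6 (.s k170 k42 7 (.s k154 k186 3 (.s k101 k48 14 (.d
  k239 k223 k32 3 10))))))] .n) (.c k106 (.l (.s k64 k128 7 (.s k69 k138 10 (.s k74 k79 2 (.s k133
  k15 10 (.d k197 k202 k5 2 7)))))) (.c k197 (.q k195 [(.s k64 k128 7 (.s k65 k130 8 (.s k66 k67 0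
  (.s k193 k194 0 (.d k129 k1 k3 7 8))))), (.s k65 k130 8 (.s k69 k138 10 (.s k73 k77 1 (.s k134 k12
  10 (.d k199 k203 k4 1 8))))), (.s k193 k194 0 (.s k213 k234 6 (.s k233 k253 5 (.s k214 k252 6 (.d
  k215 k212 k235 0 5)))))] (.c k64 (.q k106 [(.s k65 k130 8 (.s k69 k138 10 (.s k73 k77 1 (.s k199
  k203 1 (.d k134 k4 k12 8 10))))), (.s k193 k194 0 (.s k213 k234 6 (.s k233 k253 5 (.s k214 k252 6
  (.d k215 k212 k235 0 5)))))] .n) (.c k106 (.l (.s k64 k128 7 (.s k65 k130 8 (.s k66 k67 0 (.s k129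
  k3 8 (.d k193 k194 k1 0 7)))))) .n))) (.c k202 (.q k195 [(.s k64 k128 7 (.s k65 k130 8 (.s k66 k67
  0 (.s k129 k3 8 (.d k193 k194 k1 0 7))))), (.s k65 k130 8 (.s k69 k138 10 (.s k73 k77 1 (.s k134
  k12 10 (.d k199 k203 k4 1 8))))), (.s k193 k194 0 (.s k213 k234 6 (.s k233 k253 5 (.s k214 k252 6
  (.d k215 k212 k235 0 5)))))] (.c k64 (.q k106 [(.s k65 k130 8 (.s k69 k138 10 (.s k73 k77 1 (.s
  k134 k12 10 (.d k199 k203 k4 1 8))))), (.s k193 k194 0 (.s k213 k234 6 (.s k233 k253 5 (.s k214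
  k252 6 (.d k215 k212 k235 0 5)))))] .n) (.c k106 (.l (.s k64 k128 7 (.s k65 k130 8 (.s k66 k67 0
  (.s k129 k3 8 (.d k193 k194 k1 0 7)))))) .n))) .n))))) (.c k101 (.q k195 [(.s k65 k130 8 (.s k69
  k138 10 (.s k199 k203 1 (.s k134 k4 8 (.d k73 k77 k12 1 10))))), (.s k65 k130 8 (.s k85 k170 14
  (.s k105 k125 5 (.s k150 k60 14 (.d k215 k235 k20 5 8))))), (.s k199 k203 1 (.s k215 k235 5 (.s
  k231 k247 3 (.s k219 k243 5 (.d k223 k211 k239 1 3)))))] .n) (.c k117 (.l (.s k138 k69 10 (.s k239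
  k223 3 (.s k170 k85 14 (.s k101 k32 10 (.d k154 k186 k48 3 14)))))) (.c k138 (.q k195 [(.s k130
  k65 8 (.s k235 k215 5 (.s k170 k85 14 (.s k105 k40 8 (.d k150 k190 k60 5 14))))), (.s k199 k203 1
  (.s k215 k235 5 (.s k231 k247 3 (.s k219 k243 5 (.d k223 k211 k239 1 3))))), (.s k65 k130 8 (.s
  k85 k170 14 (.s k105 k125 5 (.s k203 k199 1 (.s k154 k56 12 (.d k223 k239 k16 3 10))))))] .n) (.c
  k154 (.q k195 [(.s k65 k130 8 (.s k69 k138 10 (.s k73 k77 1 (.s k134 k12 10 (.d k199 k203 k4 1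
  8))))), (.s k199 k203 1 (.s k215 k235 5 (.s k231 k247 3 (.s k219 k243 5 (.d k223 k211 k239 1
  3))))), (.s k65 k130 8 (.s k85 k170 14 (.s k105 k125 5 (.s k150 k60 14 (.d k215 k235 k20 5 8)))))]
  .n) (.c k170 (.q k195 [(.s k130 k65 8 (.s k138 k69 10 (.s k134 k142 1 (.s k73 k12 10 (.d k203 k199
  k8 1 8))))), (.s k199 k203 1 (.s k215 k235 5 (.s k231 k247 3 (.s k219 k243 5 (.d k223 k211 k239 1
  3)))))] (.c k199 (.q k192 [(.s k193 k194 0 (.s k213 k234 6 (.s k233 k253 5 (.s k214 k252 6 (.d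
  k215 k212 k235 0 5))))), (.s k64 k128 7 (.s k69 k138 10 (.s k74 k79 2 (.s k133 k15 10 (.d k197
  k202 k5 2 7)))))] .n) (.c k203 (.q k192 [(.s k193 k194 0 (.s k213 k234 6 (.s k233 k253 5 (.s k214
  k252 6 (.d k215 k212 k235 0 5))))), (.s k64 k128 7 (.s k69 k138 10 (.s k74 k79 2 (.s k133 k15 10
  (.d k197 k202 k5 2 7)))))] .n) .n))) (.c k186 (.l (.s k69 k138 10 (.s k223 k239 3 (.s k85 k170 14
  (.s k154 k16 10 (.d k101 k117 k48 3 14)))))) (.c k223 (.q k195 [(.s k65 k130 8 (.s k69 k138 10 (.s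
  k73 k77 1 (.s k199 k203 1 (.d k134 k4 k12 8 10))))), (.s k65 k130 8 (.s k85 k170 14 (.s k105 k125
  5 (.s k150 k60 14 (.d k215 k235 k20 5 8))))), (.s k69 k138 10 (.s k85 k170 14 (.s k101 k117 3 (.s
  k199 k203 1 (.s k150 k52 12 (.d k215 k235 k20 5 8))))))] .n) (.c k239 (.q k195 [(.s k65 k130 8 (.s
  k69 k138 10 (.s k73 k77 1 (.s k199 k203 1 (.d k134 k4 k12 8 10))))), (.s k65 k130 8 (.s k85 k170
  14 (.s k105 k125 5 (.s k150 k60 14 (.d k215 k235 k20 5 8))))), (.s k69 k138 10 (.s k85 k170 14 (.s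
  k101 k117 3 (.s k199 k203 1 (.s k150 k52 12 (.d k215 k235 k20 5 8))))))] .n) .n))))))))))))))

theorem c86 : rootOK2 k255 k63 k86 t86 = true := by decide +kernel

theorem c87 : rootOK2 k255 k63 k87 t87 = true := by decide +kernel

theorem c90 : rootOK2 k255 k63 k90 t90 = true := by decide +kernel

theorem c91 : rootOK2 k255 k63 k91 t91 = true := by decide +kernel

theorem c95 : rootOK2 k255 k63 k95 t95 = true := by decide +kernel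

theorem c106 : rootOK2 k255 k63 k106 t106 = true := by decide +kernel

theorem c107 : rootOK2 k255 k63 k107 t107 = true := by decide +kernel

theorem c111 : rootOK2 k255 k63 k111 t111 = true := by decide +kernel

theorem c127 : rootOK2 k255 k63 k127 t127 = true := by decide +kernel

def l : List Nat :=
  [k86.c, k87.c, k90.c, k91.c, k95.c, k106.c, k107.c, k111.c, k127.c]

theorem ok : AllQ k255.c k63.c l :=
  allQ_cons c86 (allQ_cons c87 (allQ_cons c90 (allQ_cons c91 (allQ_cons c95 (allQ_cons c106 (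
  allQ_cons c107 (allQ_cons c111 (allQ_cons c127 (allQ_nil _ _)))))))))

end Pool.Agent.TTT.E04
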