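import Pool.Agent.TTT.Sym2

set_option autoImplicit false
set_option maxRecDepth 100000

namespace Pool.Agent.TTT.E05

def t192 : T TT 256 :=
  (.q k3 [(.s k1 k2 0 (.s k85 k170 14 (.s k169 k253 13 (.s k87 k171 13 (.d k86 k84 k252 0 14)))))]
  (.c k1 (.f k87 k171 13 (.q k207 [(.s k71 k139 9 (.s k103 k119 3 (.s k223 k239 3 (.d k155 k19 k51 9
  13)))), (.s k69 k138 10 (.s k85 k170 14 (.s k101 k117 3 (.s k154 k48 14 (.d k223 k239 k16 3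
  10))))), (.s k69 k138 10 (.s k85 k170 14 (.s k71 k139 9 (.s k68 k70 0 (.d k119 k103 k102 3 4)))))]
  (.c k106 (.q k149 [(.s k71 k139 9 (.s k103 k119 3 (.s k223 k239 3 (.d k155 k19 k51 9 13)))), (.s
  k69 k138 10 (.s k85 k170 14 (.s k101 k117 3 (.s k154 k48 14 (.d k223 k239 k16 3 10))))), (.s k69
  k138 10 (.s k85 k170 14 (.s k71 k139 9 (.s k68 k70 0 (.d k119 k103 k102 3 4)))))] .n) (.c k149 (.q
  k106 [(.s k71 k139 9 (.s k103 k119 3 (.s k223 k239 3 (.d k155 k19 k51 9 13)))), (.s k69 k138 10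
  (.s k85 k170 14 (.s k101 k117 3 (.s k154 k48 14 (.d k223 k239 k16 3 10))))), (.s k69 k138 10 (.s
  k85 k170 14 (.s k71 k139 9 (.s k68 k70 0 (.d k119 k103 k102 3 4)))))] .n) .n)))) (.c k2 (.f k87
  k171 13 (.q k207 [(.s k71 k139 9 (.s k103 k119 3 (.s k223 k239 3 (.d k155 k19 k51 9 13)))), (.s
  k69 k138 10 (.s k85 k170 14 (.s k101 k117 3 (.s k154 k48 14 (.d k223 k239 k16 3 10))))), (.s k69
  k138 10 (.s k85 k170 14 (.s k71 k139 9 (.s k101 k117 3 (.d k86 k84 k116 0 4)))))] (.c k106 (.q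
  k149 [(.s k71 k139 9 (.s k103 k119 3 (.s k223 k239 3 (.d k155 k19 k51 9 13)))), (.s k69 k138 10
  (.s k85 k170 14 (.s k101 k117 3 (.s k154 k48 14 (.d k223 k239 k16 3 10))))), (.s k69 k138 10 (.s
  k85 k170 14 (.s k71 k139 9 (.s k101 k117 3 (.d k86 k84 k116 0 4)))))] .n) (.c k149 (.q k106 [(.s
  k71 k139 9 (.s k103 k119 3 (.s k223 k239 3 (.d k155 k19 k51 9 13)))), (.s k69 k138 10 (.s k85 k170
  14 (.s k101 k117 3 (.s k154 k48 14 (.d k223 k239 k16 3 10))))), (.s k69 k138 10 (.s k85 k170 14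
  (.s k71 k139 9 (.s k101 k117 3 (.d k86 k84 k116 0 4)))))] .n) .n)))) (.c k84 (.l (.s k2 k1 0 (.s
  k170 k85 14 (.s k86 k254 13 (.s k169 k252 14 (.d k171 k87 k168 13 0)))))) (.c k85 (.f k1 k2 0 (.f
  k87 k171 13 (.q k207 [(.s k71 k139 9 (.s k223 k239 3 (.s k155 k19 9 (.d k103 k119 k51 3 13)))),
  (.s k69 k138 10 (.s k137 k205 9 (.s k70 k204 10 (.d k71 k68 k139 0 9))))] (.c k71 (.q k153 [(.s
  k69 k138 10 (.s k137 k205 9 (.s k169 k185 3 (.s k223 k239 3 (.s k19 k155 9 (.d k86 k220 k252 10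
  14)))))), (.s k69 k138 10 (.s k205 k137 9 (.s k49 k101 13 (.s k17 k33 3 (.s k51 k34 4 (.d k204
  k206 k102 0 14)))))), (.s k223 k239 3 (.s k19 k155 9 (.s k220 k86 10 (.s k221 k222 0 (.s k204 k238
  4 (.d k51 k35 k102 3 14)))))), (.s k69 k138 10 (.s k137 k205 9 (.s k169 k185 3 (.s k86 k252 14 (.s
  k19 k220 10 (.d k223 k239 k155 3 9))))))] (.c k86 (.l (.s k69 k138 10 (.s k205 k137 9 (.s k101 k49
  13 (.s k154 k48 14 (.s k155 k152 0 (.d k223 k239 k19 3 9))))))) (.c k106 (.q k149 [(.s k69 k138 10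
  (.s k137 k205 9 (.s k169 k185 3 (.s k223 k239 3 (.s k19 k155 9 (.d k86 k220 k252 10 14)))))), (.s
  k69 k138 10 (.s k205 k137 9 (.s k49 k101 13 (.s k17 k33 3 (.s k51 k34 4 (.d k204 k206 k102 0
  14)))))), (.s k223 k239 3 (.s k19 k155 9 (.s k220 k86 10 (.s k221 k222 0 (.s k204 k238 4 (.d k51
  k35 k102 3 14)))))), (.s k69 k138 10 (.s k137 k205 9 (.s k169 k185 3 (.s k86 k252 14 (.s k19 k220
  10 (.d k223 k239 k155 3 9))))))] (.c k64 (.q k127 [(.s k69 k138 10 (.s k137 k205 9 (.s k169 k185 3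
  (.s k223 k239 3 (.s k19 k155 9 (.d k86 k220 k252 10 14)))))), (.s k69 k138 10 (.s k205 k137 9 (.s
  k49 k101 13 (.s k17 k33 3 (.s k51 k34 4 (.d k204 k206 k102 0 14)))))), (.s k223 k239 3 (.s k19
  k155 9 (.s k220 k86 10 (.s k221 k222 0 (.s k204 k238 4 (.d k51 k35 k102 3 14)))))), (.s k69 k138
  10 (.s k137 k205 9 (.s k169 k185 3 (.s k86 k252 14 (.s k19 k220 10 (.d k223 k239 k155 3 9))))))]
  (.c k86 (.l (.s k69 k138 10 (.s k205 k137 9 (.s k101 k49 13 (.s k154 k48 14 (.s k155 k152 0 (.d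
  k223 k239 k19 3 9))))))) (.c k206 (.l (.s k138 k69 10 (.s k223 k239 3 (.s k155 k19 9 (.s k154 k152
  0 (.s k186 k170 3 (.d k48 k117 k101 10 14))))))) .n))) (.c k86 (.l (.s k69 k138 10 (.s k205 k137 9
  (.s k101 k49 13 (.s k154 k48 14 (.s k155 k152 0 (.d k223 k239 k19 3 9))))))) (.c k127 (.q k64 [(.s
  k69 k138 10 (.s k137 k205 9 (.s k169 k185 3 (.s k223 k239 3 (.s k19 k155 9 (.d k86 k220 k252 10
  14)))))), (.s k69 k138 10 (.s k205 k137 9 (.s k49 k101 13 (.s k17 k33 3 (.s k51 k34 4 (.d k204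
  k206 k102 0 14)))))), (.s k223 k239 3 (.s k19 k155 9 (.s k220 k86 10 (.s k221 k222 0 (.s k204 k238
  4 (.d k51 k35 k102 3 14)))))), (.s k69 k138 10 (.s k137 k205 9 (.s k169 k185 3 (.s k86 k252 14 (.s
  k19 k220 10 (.d k223 k239 k155 3 9))))))] (.c k86 (.l (.s k69 k138 10 (.s k205 k137 9 (.s k101 k49
  13 (.s k154 k48 14 (.s k155 k152 0 (.d k223 k239 k19 3 9))))))) (.c k206 (.l (.s k138 k69 10 (.s
  k223 k239 3 (.s k155 k19 9 (.s k154 k152 0 (.s k186 k170 3 (.d k48 k117 k101 10 14))))))) .n)))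
  (.c k206 (.l (.s k138 k69 10 (.s k223 k239 3 (.s k155 k19 9 (.s k154 k152 0 (.s k186 k170 3 (.d
  k48 k117 k101 10 14))))))) .n))))) (.c k149 (.q k106 [(.s k69 k138 10 (.s k137 k205 9 (.s k169
  k185 3 (.s k223 k239 3 (.s k19 k155 9 (.d k86 k220 k252 10 14)))))), (.s k69 k138 10 (.s k205 k137
  9 (.s k49 k101 13 (.s k17 k33 3 (.s k51 k34 4 (.d k204 k206 k102 0 14)))))), (.s k223 k239 3 (.s
  k19 k155 9 (.s k220 k86 10 (.s k221 k222 0 (.s k204 k238 4 (.d k51 k35 k102 3 14)))))), (.s k69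
  k138 10 (.s k137 k205 9 (.s k169 k185 3 (.s k86 k252 14 (.s k19 k220 10 (.d k223 k239 k155 3
  9))))))] (.c k21 (.q k213 [(.s k69 k138 10 (.s k137 k205 9 (.s k169 k185 3 (.s k223 k239 3 (.s k19
  k155 9 (.d k86 k220 k252 10 14)))))), (.s k69 k138 10 (.s k205 k137 9 (.s k49 k101 13 (.s k17 k33
  3 (.s k51 k34 4 (.d k204 k206 k102 0 14)))))), (.s k223 k239 3 (.s k19 k155 9 (.s k220 k86 10 (.s
  k221 k222 0 (.s k204 k238 4 (.d k51 k35 k102 3 14)))))), (.s k69 k138 10 (.s k137 k205 9 (.s k169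
  k185 3 (.s k86 k252 14 (.s k19 k220 10 (.d k223 k239 k155 3 9))))))] (.c k86 (.l (.s k69 k138 10
  (.s k205 k137 9 (.s k101 k49 13 (.s k154 k48 14 (.s k155 k152 0 (.d k223 k239 k19 3 9))))))) (.c
  k206 (.l (.s k138 k69 10 (.s k223 k239 3 (.s k155 k19 9 (.s k154 k152 0 (.s k186 k170 3 (.d k48
  k117 k101 10 14))))))) .n))) (.c k86 (.l (.s k69 k138 10 (.s k205 k137 9 (.s k101 k49 13 (.s k154
  k48 14 (.s k155 k152 0 (.d k223 k239 k19 3 9))))))) (.c k206 (.l (.s k138 k69 10 (.s k223 k239 3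
  (.s k155 k19 9 (.s k154 k152 0 (.s k186 k170 3 (.d k48 k117 k101 10 14))))))) (.c k213 (.q k21
  [(.s k69 k138 10 (.s k137 k205 9 (.s k169 k185 3 (.s k223 k239 3 (.s k19 k155 9 (.d k86 k220 k252
  10 14)))))), (.s k69 k138 10 (.s k205 k137 9 (.s k49 k101 13 (.s k17 k33 3 (.s k51 k34 4 (.d k204
  k206 k102 0 14)))))), (.s k223 k239 3 (.s k19 k155 9 (.s k220 k86 10 (.s k221 k222 0 (.s k204 k238
  4 (.d k51 k35 k102 3 14)))))), (.s k69 k138 10 (.s k137 k205 9 (.s k169 k185 3 (.s k86 k252 14 (.s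
  k19 k220 10 (.d k223 k239 k155 3 9))))))] (.c k86 (.l (.s k69 k138 10 (.s k205 k137 9 (.s k101 k49
  13 (.s k154 k48 14 (.s k155 k152 0 (.d k223 k239 k19 3 9))))))) (.c k206 (.l (.s k138 k69 10 (.s
  k223 k239 3 (.s k155 k19 9 (.s k154 k152 0 (.s k186 k170 3 (.d k48 k117 k101 10 14))))))) .n)))
  .n))))) (.c k206 (.l (.s k138 k69 10 (.s k223 k239 3 (.s k155 k19 9 (.s k154 k152 0 (.s k186 k170
  3 (.d k48 k117 k101 10 14))))))) .n))))) (.c k106 (.q k149 [(.s k71 k139 9 (.s k223 k239 3 (.s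
  k155 k19 9 (.d k103 k119 k51 3 13)))), (.s k69 k138 10 (.s k137 k205 9 (.s k70 k204 10 (.d k71 k68
  k139 0 9))))] (.c k64 (.q k127 [(.s k71 k139 9 (.s k223 k239 3 (.s k155 k19 9 (.d k103 k119 k51 3
  13)))), (.s k69 k138 10 (.s k137 k205 9 (.s k70 k204 10 (.s k67 k107 5 (.s k195 k131 7 (.s k65
  k130 8 (.d k73 k77 k76 1 2)))))))] .n) (.c k71 (.q k16 [(.s k48 k32 3 (.s k18 k33 4 (.s k19 k17 0
  (.d k223 k239 k155 3 9)))), (.s k48 k32 3 (.s k154 k101 14 (.s k144 k159 2 (.s k208 k80 7 (.s k90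
  k31 10 (.s k218 k26 7 (.d k223 k239 k213 3 2))))))), (.s k48 k32 3 (.s k69 k138 10 (.s k205 k137 9
  (.s k101 k154 14 (.s k49 k153 13 (.s k17 k33 3 (.d k51 k34 k50 4 0))))))), (.s k223 k239 3 (.s k19
  k155 9 (.s k17 k18 0 (.d k51 k35 k34 3 4))))] (.c k64 (.q k127 [(.s k48 k32 3 (.s k18 k33 4 (.s
  k19 k17 0 (.d k223 k239 k155 3 9)))), (.s k48 k32 3 (.s k117 k186 10 (.s k67 k107 5 (.s k195 k131
  7 (.s k97 k146 12 (.d k112 k122 k82 2 4)))))), (.s k223 k239 3 (.s k19 k155 9 (.s k17 k18 0 (.d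
  k51 k35 k34 3 4))))] .n) (.c k127 (.q k64 [(.s k48 k32 3 (.s k18 k33 4 (.s k19 k17 0 (.d k223 k239
  k155 3 9)))), (.s k48 k32 3 (.s k154 k101 14 (.s k144 k159 2 (.s k80 k208 7 (.s k240 k160 11 (.d
  k112 k96 k176 3 7)))))), (.s k223 k239 3 (.s k19 k155 9 (.s k17 k18 0 (.d k51 k35 k34 3 4))))] (.c
  k239 (.l (.s k48 k32 3 (.s k18 k33 4 (.s k19 k17 0 (.s k155 k223 9 (.d k51 k35 k103 3 13))))))
  .n)) .n))) (.c k127 (.q k64 [(.s k71 k139 9 (.s k223 k239 3 (.s k155 k19 9 (.d k103 k119 k51 3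
  13)))), (.s k69 k138 10 (.s k79 k74 2 (.s k15 k143 7 (.s k7 k11 1 (.s k167 k247 11 (.s k91 k243 13
  (.d k95 k83 k175 1 11)))))))] .n) (.c k139 (.l (.s k69 k138 10 (.s k137 k205 9 (.s k70 k204 10 (.s
  k71 k68 0 (.s k223 k239 3 (.s k155 k19 9 (.d k103 k119 k51 3 13)))))))) .n))))) (.c k139 (.l (.s
  k69 k138 10 (.s k137 k205 9 (.s k70 k204 10 (.s k71 k68 0 (.s k223 k239 3 (.s k155 k19 9 (.d k103
  k119 k51 3 13)))))))) (.c k149 (.q k106 [(.s k71 k139 9 (.s k223 k239 3 (.s k155 k19 9 (.d k103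
  k119 k51 3 13)))), (.s k69 k138 10 (.s k137 k205 9 (.s k70 k204 10 (.d k71 k68 k139 0 9))))] (.c
  k21 (.q k213 [(.s k71 k139 9 (.s k223 k239 3 (.s k155 k19 9 (.d k103 k119 k51 3 13)))), (.s k69
  k138 10 (.s k137 k205 9 (.s k70 k204 10 (.d k71 k68 k139 0 9)))), (.s k223 k239 3 (.s k218 k208 2
  (.s k240 k229 6 (.s k160 k80 11 (.s k161 k82 12 (.s k81 k241 11 (.d k162 k163 k243 0 12)))))))]
  .n) (.c k71 (.q k16 [(.s k48 k32 3 (.s k18 k33 4 (.s k19 k17 0 (.d k223 k239 k155 3 9)))), (.s k32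
  k48 3 (.s k239 k223 3 (.s k101 k170 10 (.s k96 k111 2 (.s k224 k160 7 (.s k165 k47 10 (.d k229
  k234 k37 2 7))))))), (.s k48 k32 3 (.s k69 k138 10 (.s k205 k137 9 (.s k33 k18 4 (.s k49 k17 3 (.d
  k101 k153 k154 13 14)))))), (.s k223 k239 3 (.s k19 k155 9 (.s k17 k18 0 (.d k51 k35 k34 3 4))))]
  (.c k21 (.q k213 [(.s k223 k239 3 (.s k19 k155 9 (.s k17 k18 0 (.d k51 k35 k34 3 4)))), (.s k48
  k32 3 (.s k69 k138 10 (.s k205 k137 9 (.s k33 k18 4 (.s k49 k17 3 (.d k101 k153 k154 13 14)))))),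
  (.s k223 k239 3 (.s k19 k155 9 (.s k208 k218 2 (.s k80 k144 7 (.s k240 k160 11 (.d k82 k145 k161 8
  12))))))] (.c k139 (.l (.s k48 k32 3 (.s k18 k33 4 (.s k19 k17 0 (.d k223 k239 k155 3 9))))) .n))
  (.c k213 (.q k21 [(.s k48 k32 3 (.s k18 k33 4 (.s k19 k17 0 (.d k223 k239 k155 3 9)))), (.s k48
  k32 3 (.s k41 k61 5 (.s k60 k22 6 (.s k26 k31 2 (.d k56 k52 k11 1 4))))), (.s k223 k239 3 (.s k19
  k155 9 (.s k17 k18 0 (.d k51 k35 k34 3 4))))] .n) .n))) (.c k139 (.l (.s k69 k138 10 (.s k137 k205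
  9 (.s k70 k204 10 (.s k71 k68 0 (.s k223 k239 3 (.s k155 k19 9 (.d k103 k119 k51 3 13)))))))) (.c
  k213 (.q k21 [(.s k71 k139 9 (.s k223 k239 3 (.s k155 k19 9 (.d k103 k119 k51 3 13)))), (.s k69
  k138 10 (.s k137 k205 9 (.s k70 k204 10 (.d k71 k68 k139 0 9)))), (.s k41 k61 5 (.s k60 k22 6 (.s
  k109 k158 12 (.s k125 k190 8 (.s k93 k77 3 (.s k174 k12 12 (.d k239 k223 k44 3 8)))))))] .n)
  .n))))) .n))))))) (.c k86 (.q k207 [(.s k1 k2 0 (.s k69 k138 10 (.s k137 k205 9 (.s k71 k139 9 (.d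
  k70 k68 k204 0 10))))), (.s k71 k139 9 (.s k87 k171 13 (.s k103 k119 3 (.s k155 k51 13 (.d k223
  k239 k19 3 9))))), (.s k69 k138 10 (.s k85 k170 14 (.s k101 k117 3 (.s k154 k48 14 (.d k223 k239
  k16 3 10)))))] (.c k106 (.q k149 [(.s k1 k2 0 (.s k69 k138 10 (.s k137 k205 9 (.s k71 k139 9 (.d
  k70 k68 k204 0 10))))), (.s k71 k139 9 (.s k87 k171 13 (.s k103 k119 3 (.s k155 k51 13 (.d k223
  k239 k19 3 9))))), (.s k69 k138 10 (.s k85 k170 14 (.s k101 k117 3 (.s k154 k48 14 (.d k223 k239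
  k16 3 10)))))] (.c k66 (.q k126 [(.s k2 k1 0 (.s k139 k71 9 (.s k138 k69 10 (.s k137 k136 0 (.d
  k70 k206 k204 9 10))))), (.s k71 k139 9 (.s k87 k171 13 (.s k103 k119 3 (.s k155 k51 13 (.d k223
  k239 k19 3 9))))), (.s k69 k138 10 (.s k85 k170 14 (.s k101 k117 3 (.s k154 k48 14 (.d k223 k239
  k16 3 10)))))] .n) (.c k126 (.q k66 [(.s k1 k2 0 (.s k69 k138 10 (.s k137 k205 9 (.s k71 k139 9
  (.d k70 k68 k204 0 10))))), (.s k71 k139 9 (.s k87 k171 13 (.s k103 k119 3 (.s k155 k51 13 (.d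
  k223 k239 k19 3 9))))), (.s k69 k138 10 (.s k85 k170 14 (.s k101 k117 3 (.s k154 k48 14 (.d k223
  k239 k16 3 10)))))] (.c k189 (.q k252 [(.s k1 k2 0 (.s k69 k138 10 (.s k137 k205 9 (.s k71 k139 9
  (.d k70 k68 k204 0 10))))), (.s k71 k139 9 (.s k87 k171 13 (.s k103 k119 3 (.s k155 k51 13 (.d
  k223 k239 k19 3 9))))), (.s k69 k138 10 (.s k85 k170 14 (.s k101 k117 3 (.s k154 k48 14 (.d k223
  k239 k16 3 10)))))] .n) (.c k252 (.q k189 [(.s k1 k2 0 (.s k169 k129 5 (.d k85 k170 k253 14 13))),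
  (.s k2 k1 0 (.s k138 k69 10 (.s k70 k206 9 (.s k137 k204 10 (.d k139 k136 k71 0 9))))), (.s k170
  k85 14 (.s k169 k129 5 (.d k171 k87 k168 13 0)))] (.c k212 (.q k232 [(.s k1 k2 0 (.s k169 k129 5
  (.d k85 k170 k253 14 13))), (.s k2 k1 0 (.s k138 k69 10 (.s k70 k206 9 (.s k137 k204 10 (.d k139
  k136 k71 0 9))))), (.s k170 k85 14 (.s k169 k129 5 (.d k171 k87 k168 13 0)))] .n) (.c k232 (.q
  k212 [(.s k1 k2 0 (.s k169 k129 5 (.d k85 k170 k253 14 13))), (.s k2 k1 0 (.s k138 k69 10 (.s k70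
  k206 9 (.s k137 k204 10 (.d k139 k136 k71 0 9))))), (.s k170 k85 14 (.s k169 k129 5 (.d k171 k87
  k168 13 0)))] (.c k43 (.l (.s k169 k129 5 (.s k1 k2 0 (.d k85 k170 k253 14 13)))) (.c k169 (.q k43
  [(.s k1 k2 0 (.s k69 k138 10 (.s k137 k205 9 (.s k71 k139 9 (.d k70 k68 k204 0 10))))), (.s k2 k1
  0 (.s k130 k194 7 (.s k195 k65 8 (.s k171 k87 13 (.d k235 k215 k107 5 7)))))] (.c k1 (.l (.s k69
  k138 10 (.s k85 k170 14 (.s k101 k117 3 (.s k154 k48 14 (.d k223 k239 k16 3 10)))))) (.c k2 (.l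
  (.s k138 k69 10 (.s k170 k85 14 (.s k154 k186 3 (.s k101 k48 14 (.d k239 k223 k32 3 10)))))) .n)))
  .n))) .n))) .n))) .n))) (.c k149 (.q k106 [(.s k1 k2 0 (.s k69 k138 10 (.s k137 k205 9 (.s k71
  k139 9 (.d k70 k68 k204 0 10))))), (.s k71 k139 9 (.s k87 k171 13 (.s k103 k119 3 (.s k155 k51 13
  (.d k223 k239 k19 3 9))))), (.s k69 k138 10 (.s k85 k170 14 (.s k101 k117 3 (.s k154 k48 14 (.d
  k223 k239 k16 3 10)))))] (.c k23 (.q k212 [(.s k1 k2 0 (.s k69 k138 10 (.s k137 k205 9 (.s k71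
  k139 9 (.d k70 k68 k204 0 10))))), (.s k71 k139 9 (.s k87 k171 13 (.s k103 k119 3 (.s k155 k51 13
  (.d k223 k239 k19 3 9))))), (.s k69 k138 10 (.s k85 k170 14 (.s k101 k117 3 (.s k154 k48 14 (.d
  k223 k239 k16 3 10)))))] .n) (.c k212 (.q k23 [(.s k1 k2 0 (.s k69 k138 10 (.s k137 k205 9 (.s k71
  k139 9 (.d k70 k68 k204 0 10))))), (.s k71 k139 9 (.s k87 k171 13 (.s k103 k119 3 (.s k155 k51 13
  (.d k223 k239 k19 3 9))))), (.s k69 k138 10 (.s k85 k170 14 (.s k101 k117 3 (.s k154 k48 14 (.d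
  k223 k239 k16 3 10)))))] (.c k232 (.q k252 [(.s k1 k2 0 (.s k69 k138 10 (.s k137 k205 9 (.s k71
  k139 9 (.d k70 k68 k204 0 10))))), (.s k71 k139 9 (.s k87 k171 13 (.s k103 k119 3 (.s k155 k51 13
  (.d k223 k239 k19 3 9))))), (.s k69 k138 10 (.s k85 k170 14 (.s k101 k117 3 (.s k154 k48 14 (.d
  k223 k239 k16 3 10)))))] .n) (.c k252 (.q k232 [(.s k1 k2 0 (.s k169 k43 8 (.d k85 k170 k253 14
  13))), (.s k2 k1 0 (.s k138 k69 10 (.s k70 k206 9 (.s k137 k204 10 (.d k139 k136 k71 0 9))))), (.s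
  k170 k85 14 (.s k169 k43 8 (.d k171 k87 k168 13 0)))] (.c k126 (.q k189 [(.s k1 k2 0 (.s k169 k43
  8 (.d k85 k170 k253 14 13))), (.s k2 k1 0 (.s k138 k69 10 (.s k70 k206 9 (.s k137 k204 10 (.d k139
  k136 k71 0 9))))), (.s k170 k85 14 (.s k169 k43 8 (.d k171 k87 k168 13 0)))] .n) (.c k189 (.q k126
  [(.s k1 k2 0 (.s k169 k43 8 (.d k85 k170 k253 14 13))), (.s k2 k1 0 (.s k138 k69 10 (.s k70 k206 9
  (.s k137 k204 10 (.d k139 k136 k71 0 9))))), (.s k170 k85 14 (.s k169 k43 8 (.d k171 k87 k168 13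
  0)))] (.c k129 (.l (.s k169 k43 8 (.s k1 k2 0 (.d k85 k170 k253 14 13)))) (.c k169 (.q k129 [(.s
  k1 k2 0 (.s k69 k138 10 (.s k137 k205 9 (.s k71 k139 9 (.d k70 k68 k204 0 10))))), (.s k1 k2 0 (.s
  k65 k193 7 (.s k195 k130 8 (.s k87 k171 13 (.d k215 k235 k151 5 7))))), (.s k138 k69 10 (.s k170
  k85 14 (.s k154 k186 3 (.s k101 k48 14 (.d k239 k223 k32 3 10)))))] (.c k1 (.l (.s k69 k138 10 (.s
  k85 k170 14 (.s k101 k117 3 (.s k154 k48 14 (.d k223 k239 k16 3 10)))))) (.c k170 (.l (.s k2 k1 0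
  (.s k138 k69 10 (.s k70 k206 9 (.s k137 k204 10 (.d k139 k136 k71 0 9)))))) .n))) .n))) .n)))
  .n))) .n))) .n))) (.c k87 (.f k1 k2 0 (.q k207 [(.s k69 k138 10 (.s k137 k205 9 (.s k71 k139 9 (.d
  k70 k68 k204 0 10)))), (.s k85 k170 14 (.s k169 k253 13 (.s k139 k71 9 (.s k154 k184 4 (.d k223
  k239 k16 3 10))))), (.s k69 k138 10 (.s k85 k170 14 (.s k101 k117 3 (.s k154 k48 14 (.d k223 k239
  k16 3 10)))))] (.c k106 (.q k149 [(.s k69 k138 10 (.s k137 k205 9 (.s k71 k139 9 (.d k70 k68 k204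
  0 10)))), (.s k85 k170 14 (.s k169 k253 13 (.s k139 k71 9 (.s k154 k184 4 (.d k223 k239 k16 3
  10))))), (.s k69 k138 10 (.s k85 k170 14 (.s k101 k117 3 (.s k154 k48 14 (.d k223 k239 k16 3
  10)))))] .n) (.c k149 (.q k106 [(.s k69 k138 10 (.s k137 k205 9 (.s k71 k139 9 (.d k70 k68 k204 0
  10)))), (.s k85 k170 14 (.s k169 k253 13 (.s k139 k71 9 (.s k154 k184 4 (.d k223 k239 k16 3
  10))))), (.s k69 k138 10 (.s k85 k170 14 (.s k101 k117 3 (.s k154 k48 14 (.d k223 k239 k16 3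
  10)))))] .n) .n)))) (.c k106 (.q k149 [(.s k1 k2 0 (.s k85 k170 14 (.s k169 k253 13 (.s k87 k171
  13 (.d k86 k84 k252 0 14))))), (.s k85 k170 14 (.s k87 k171 13 (.s k21 k213 7 (.s k86 k84 0 (.s
  k23 k212 8 (.s k20 k22 0 (.d k215 k151 k150 7 8))))))), (.s k1 k2 0 (.s k85 k170 14 (.s k169 k253
  13 (.s k21 k213 7 (.s k61 k41 5 (.s k193 k105 13 (.d k129 k189 k65 5 7))))))), (.s k2 k1 0 (.s
  k170 k85 14 (.s k86 k254 13 (.s k169 k252 14 (.d k171 k168 k87 0 13)))))] (.c k85 (.f k87 k171 13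
  (.f k1 k2 0 (.q k207 [(.s k71 k139 9 (.s k223 k239 3 (.s k155 k19 9 (.d k103 k119 k51 3 13)))),
  (.s k69 k138 10 (.s k137 k205 9 (.s k70 k204 10 (.d k71 k68 k139 0 9))))] (.c k64 (.q k127 [(.s
  k71 k139 9 (.s k223 k239 3 (.s k155 k19 9 (.d k103 k119 k51 3 13)))), (.s k69 k138 10 (.s k137
  k205 9 (.s k70 k204 10 (.s k67 k107 5 (.s k195 k131 7 (.s k65 k130 8 (.d k73 k77 k76 1 2)))))))]
  .n) (.c k71 (.q k16 [(.s k48 k32 3 (.s k18 k33 4 (.s k19 k17 0 (.d k223 k239 k155 3 9)))), (.s k48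
  k32 3 (.s k154 k101 14 (.s k144 k159 2 (.s k208 k80 7 (.s k90 k31 10 (.s k218 k26 7 (.d k223 k239
  k213 3 2))))))), (.s k48 k32 3 (.s k69 k138 10 (.s k205 k137 9 (.s k101 k154 14 (.s k49 k153 13
  (.s k17 k33 3 (.d k51 k34 k50 4 0))))))), (.s k223 k239 3 (.s k19 k155 9 (.s k17 k18 0 (.d k51 k35
  k34 3 4))))] (.c k64 (.q k127 [(.s k48 k32 3 (.s k18 k33 4 (.s k19 k17 0 (.d k223 k239 k155 3
  9)))), (.s k48 k32 3 (.s k117 k186 10 (.s k67 k107 5 (.s k195 k131 7 (.s k97 k146 12 (.d k112 k122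
  k82 2 4)))))), (.s k223 k239 3 (.s k19 k155 9 (.s k17 k18 0 (.d k51 k35 k34 3 4))))] .n) (.c k127
  (.q k64 [(.s k48 k32 3 (.s k18 k33 4 (.s k19 k17 0 (.d k223 k239 k155 3 9)))), (.s k48 k32 3 (.s
  k154 k101 14 (.s k144 k159 2 (.s k80 k208 7 (.s k240 k160 11 (.d k112 k96 k176 3 7)))))), (.s k223
  k239 3 (.s k19 k155 9 (.s k17 k18 0 (.d k51 k35 k34 3 4))))] (.c k239 (.l (.s k48 k32 3 (.s k18
  k33 4 (.s k19 k17 0 (.s k155 k223 9 (.d k51 k35 k103 3 13)))))) .n)) .n))) (.c k127 (.q k64 [(.s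
  k71 k139 9 (.s k223 k239 3 (.s k155 k19 9 (.d k103 k119 k51 3 13)))), (.s k69 k138 10 (.s k79 k74
  2 (.s k15 k143 7 (.s k7 k11 1 (.s k167 k247 11 (.s k91 k243 13 (.d k95 k83 k175 1 11)))))))] .n)
  (.c k139 (.l (.s k69 k138 10 (.s k137 k205 9 (.s k70 k204 10 (.s k71 k68 0 (.s k223 k239 3 (.s
  k155 k19 9 (.d k103 k119 k51 3 13)))))))) .n))))))) (.c k86 (.q k207 [(.s k1 k2 0 (.s k69 k138 10
  (.s k137 k205 9 (.s k71 k139 9 (.d k70 k68 k204 0 10))))), (.s k71 k139 9 (.s k87 k171 13 (.s k103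
  k119 3 (.s k155 k51 13 (.d k223 k239 k19 3 9))))), (.s k69 k138 10 (.s k85 k170 14 (.s k101 k117 3
  (.s k154 k48 14 (.d k223 k239 k16 3 10)))))] (.c k66 (.q k126 [(.s k2 k1 0 (.s k139 k71 9 (.s k138
  k69 10 (.s k137 k136 0 (.d k70 k206 k204 9 10))))), (.s k71 k139 9 (.s k87 k171 13 (.s k103 k119 3
  (.s k155 k51 13 (.d k223 k239 k19 3 9))))), (.s k69 k138 10 (.s k85 k170 14 (.s k101 k117 3 (.s
  k154 k48 14 (.d k223 k239 k16 3 10)))))] .n) (.c k126 (.q k66 [(.s k1 k2 0 (.s k69 k138 10 (.s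
  k137 k205 9 (.s k71 k139 9 (.d k70 k68 k204 0 10))))), (.s k71 k139 9 (.s k87 k171 13 (.s k103
  k119 3 (.s k155 k51 13 (.d k223 k239 k19 3 9))))), (.s k69 k138 10 (.s k85 k170 14 (.s k101 k117 3
  (.s k154 k48 14 (.d k223 k239 k16 3 10)))))] (.c k189 (.q k252 [(.s k1 k2 0 (.s k69 k138 10 (.s
  k137 k205 9 (.s k71 k139 9 (.d k70 k68 k204 0 10))))), (.s k71 k139 9 (.s k87 k171 13 (.s k103
  k119 3 (.s k155 k51 13 (.d k223 k239 k19 3 9))))), (.s k69 k138 10 (.s k85 k170 14 (.s k101 k117 3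
  (.s k154 k48 14 (.d k223 k239 k16 3 10)))))] .n) (.c k252 (.q k189 [(.s k1 k2 0 (.s k169 k129 5
  (.d k85 k170 k253 14 13))), (.s k2 k1 0 (.s k138 k69 10 (.s k70 k206 9 (.s k137 k204 10 (.d k139
  k136 k71 0 9))))), (.s k170 k85 14 (.s k169 k129 5 (.d k171 k87 k168 13 0)))] (.c k212 (.q k232
  [(.s k1 k2 0 (.s k169 k129 5 (.d k85 k170 k253 14 13))), (.s k2 k1 0 (.s k138 k69 10 (.s k70 k206
  9 (.s k137 k204 10 (.d k139 k136 k71 0 9))))), (.s k170 k85 14 (.s k169 k129 5 (.d k171 k87 k168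
  13 0)))] .n) (.c k232 (.q k212 [(.s k1 k2 0 (.s k169 k129 5 (.d k85 k170 k253 14 13))), (.s k2 k1
  0 (.s k138 k69 10 (.s k70 k206 9 (.s k137 k204 10 (.d k139 k136 k71 0 9))))), (.s k170 k85 14 (.s
  k169 k129 5 (.d k171 k87 k168 13 0)))] (.c k43 (.l (.s k169 k129 5 (.s k1 k2 0 (.d k85 k170 k253
  14 13)))) (.c k169 (.q k43 [(.s k1 k2 0 (.s k69 k138 10 (.s k137 k205 9 (.s k71 k139 9 (.d k70 k68
  k204 0 10))))), (.s k2 k1 0 (.s k130 k194 7 (.s k195 k65 8 (.s k171 k87 13 (.d k235 k215 k107 5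
  7)))))] (.c k1 (.l (.s k69 k138 10 (.s k85 k170 14 (.s k101 k117 3 (.s k154 k48 14 (.d k223 k239
  k16 3 10)))))) (.c k2 (.l (.s k138 k69 10 (.s k170 k85 14 (.s k154 k186 3 (.s k101 k48 14 (.d k239
  k223 k32 3 10)))))) .n))) .n))) .n))) .n))) .n))) (.c k169 (.q k207 [(.s k1 k2 0 (.s k69 k138 10
  (.s k137 k205 9 (.s k71 k139 9 (.d k70 k68 k204 0 10))))), (.s k69 k138 10 (.s k85 k170 14 (.s
  k101 k117 3 (.s k154 k48 14 (.d k223 k239 k16 3 10))))), (.s k71 k139 9 (.s k87 k171 13 (.s k103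
  k119 3 (.s k155 k51 13 (.d k223 k239 k19 3 9)))))] (.c k43 (.q k232 [(.s k1 k2 0 (.s k69 k138 10
  (.s k137 k205 9 (.s k71 k139 9 (.d k70 k68 k204 0 10))))), (.s k69 k138 10 (.s k85 k170 14 (.s
  k101 k117 3 (.s k154 k48 14 (.d k223 k239 k16 3 10))))), (.s k71 k139 9 (.s k87 k171 13 (.s k103
  k119 3 (.s k155 k51 13 (.d k223 k239 k19 3 9)))))] (.c k154 (.l (.s k1 k2 0 (.s k69 k138 10 (.s
  k137 k205 9 (.s k70 k204 10 (.d k71 k68 k139 0 9)))))) .n)) (.c k154 (.l (.s k1 k2 0 (.s k69 k138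
  10 (.s k137 k205 9 (.s k70 k204 10 (.d k71 k68 k139 0 9)))))) (.c k232 (.q k43 [(.s k1 k2 0 (.s
  k69 k138 10 (.s k137 k205 9 (.s k71 k139 9 (.d k70 k68 k204 0 10))))), (.s k69 k138 10 (.s k85
  k170 14 (.s k101 k117 3 (.s k154 k48 14 (.d k223 k239 k16 3 10))))), (.s k71 k139 9 (.s k87 k171
  13 (.s k103 k119 3 (.s k155 k51 13 (.d k223 k239 k19 3 9)))))] (.c k154 (.l (.s k1 k2 0 (.s k69
  k138 10 (.s k137 k205 9 (.s k70 k204 10 (.d k71 k68 k139 0 9)))))) (.c k212 (.q k252 [(.s k1 k2 0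
  (.s k69 k138 10 (.s k137 k205 9 (.s k71 k139 9 (.d k70 k68 k204 0 10))))), (.s k69 k138 10 (.s k85
  k170 14 (.s k101 k117 3 (.s k154 k48 14 (.d k223 k239 k16 3 10))))), (.s k71 k139 9 (.s k87 k171
  13 (.s k103 k119 3 (.s k155 k51 13 (.d k223 k239 k19 3 9)))))] (.c k154 (.l (.s k1 k2 0 (.s k69
  k138 10 (.s k137 k205 9 (.s k70 k204 10 (.d k71 k68 k139 0 9)))))) .n)) (.c k252 (.q k212 [(.s k2
  k1 0 (.s k86 k23 8 (.d k170 k85 k254 14 13))), (.s k1 k2 0 (.s k69 k138 10 (.s k137 k205 9 (.s k70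
  k204 10 (.d k71 k68 k139 0 9))))), (.s k85 k170 14 (.s k86 k23 8 (.d k87 k171 k84 13 0)))] (.c
  k126 (.q k189 [(.s k2 k1 0 (.s k86 k23 8 (.d k170 k85 k254 14 13))), (.s k1 k2 0 (.s k69 k138 10
  (.s k137 k205 9 (.s k70 k204 10 (.d k71 k68 k139 0 9))))), (.s k85 k170 14 (.s k86 k23 8 (.d k87
  k171 k84 13 0)))] (.c k66 (.l (.s k86 k23 8 (.s k2 k1 0 (.d k170 k85 k254 14 13)))) (.c k86 (.q
  k66 [(.s k1 k2 0 (.s k69 k138 10 (.s k137 k205 9 (.s k71 k139 9 (.d k70 k68 k204 0 10))))), (.s k2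
  k1 0 (.s k130 k194 7 (.s k195 k65 8 (.s k171 k87 13 (.d k235 k215 k107 5 7)))))] (.c k1 (.l (.s
  k69 k138 10 (.s k85 k170 14 (.s k101 k117 3 (.s k154 k48 14 (.d k223 k239 k16 3 10)))))) (.c k2
  (.l (.s k138 k69 10 (.s k170 k85 14 (.s k154 k186 3 (.s k101 k48 14 (.d k239 k223 k32 3 10))))))
  .n))) .n))) (.c k189 (.q k126 [(.s k2 k1 0 (.s k86 k23 8 (.d k170 k85 k254 14 13))), (.s k1 k2 0
  (.s k69 k138 10 (.s k137 k205 9 (.s k70 k204 10 (.d k71 k68 k139 0 9))))), (.s k85 k170 14 (.s k86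
  k23 8 (.d k87 k171 k84 13 0)))] .n) .n))) .n)))) .n)))) (.c k170 (.q k195 [(.s k1 k2 0 (.s k65
  k130 8 (.s k129 k193 7 (.s k169 k189 5 (.s k253 k85 13 (.d k252 k254 k86 0 14)))))), (.s k87 k171
  13 (.s k215 k235 5 (.s k151 k23 7 (.s k150 k148 0 (.s k20 k85 8 (.d k60 k40 k105 5 14)))))), (.s
  k1 k2 0 (.s k65 k130 8 (.s k129 k193 7 (.s k87 k171 13 (.s k169 k189 5 (.s k85 k253 13 (.d k86
  k252 k84 14 0)))))))] (.c k42 (.q k234 [(.s k87 k171 13 (.s k215 k235 5 (.s k151 k23 7 (.s k150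
  k148 0 (.s k20 k85 8 (.d k60 k40 k105 5 14)))))), (.s k2 k1 0 (.s k130 k65 8 (.s k194 k66 7 (.s
  k214 k254 5 (.s k233 k252 6 (.d k235 k232 k215 0 5)))))), (.s k1 k2 0 (.s k65 k130 8 (.s k129 k193
  7 (.s k87 k171 13 (.s k169 k189 5 (.s k85 k253 13 (.d k86 k252 k84 14 0)))))))] .n) (.c k85 (.l
  (.s k130 k65 8 (.s k131 k67 7 (.s k171 k87 13 (.s k129 k128 0 (.s k169 k189 5 (.s k150 k188 6 (.d
  k151 k148 k191 0 5)))))))) (.c k150 (.l (.s k87 k171 13 (.s k215 k235 5 (.s k23 k151 7 (.s k86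
  k212 8 (.s k84 k85 0 (.d k252 k168 k169 13 14))))))) (.c k169 (.l (.s k1 k2 0 (.s k65 k130 8 (.s
  k193 k129 7 (.s k105 k61 13 (.s k125 k85 5 (.d k60 k190 k150 8 14))))))) (.c k234 (.q k42 [(.s k2
  k1 0 (.s k171 k87 13 (.s k235 k215 5 (.s k43 k107 7 (.s k41 k40 0 (.d k22 k62 k60 5 6)))))), (.s
  k1 k2 0 (.s k65 k130 8 (.s k129 k193 7 (.s k169 k189 5 (.s k253 k85 13 (.d k252 k254 k86 0
  14)))))), (.s k87 k171 13 (.s k215 k235 5 (.s k23 k151 7 (.s k86 k212 8 (.s k84 k85 0 (.d k252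
  k168 k169 13 14))))))] (.c k127 (.l (.s k1 k2 0 (.s k65 k130 8 (.s k129 k193 7 (.s k87 k171 13 (.s
  k169 k189 5 (.s k85 k253 13 (.d k86 k252 k84 14 0)))))))) .n)) .n)))))) .n))))) (.c k149 (.q k106
  [(.s k1 k2 0 (.s k85 k170 14 (.s k169 k253 13 (.s k87 k171 13 (.d k86 k84 k252 0 14))))), (.s k2
  k1 0 (.s k170 k85 14 (.s k86 k254 13 (.s k42 k234 7 (.s k62 k22 5 (.s k194 k150 13 (.d k66 k126
  k130 5 7))))))), (.s k85 k170 14 (.s k87 k171 13 (.s k127 k64 6 (.s k67 k107 5 (.s k86 k84 0 (.s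
  k126 k66 5 (.d k124 k125 k105 0 6)))))))] (.c k85 (.f k87 k171 13 (.f k1 k2 0 (.q k207 [(.s k71
  k139 9 (.s k223 k239 3 (.s k155 k19 9 (.d k103 k119 k51 3 13)))), (.s k69 k138 10 (.s k137 k205 9
  (.s k70 k204 10 (.d k71 k68 k139 0 9))))] (.c k21 (.q k213 [(.s k71 k139 9 (.s k223 k239 3 (.s
  k155 k19 9 (.d k103 k119 k51 3 13)))), (.s k69 k138 10 (.s k137 k205 9 (.s k70 k204 10 (.d k71 k68
  k139 0 9)))), (.s k223 k239 3 (.s k218 k208 2 (.s k240 k229 6 (.s k160 k80 11 (.s k161 k82 12 (.s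
  k81 k241 11 (.d k162 k163 k243 0 12)))))))] .n) (.c k71 (.q k16 [(.s k48 k32 3 (.s k18 k33 4 (.s
  k19 k17 0 (.d k223 k239 k155 3 9)))), (.s k32 k48 3 (.s k239 k223 3 (.s k101 k170 10 (.s k96 k111
  2 (.s k224 k160 7 (.s k165 k47 10 (.d k229 k234 k37 2 7))))))), (.s k48 k32 3 (.s k69 k138 10 (.s
  k205 k137 9 (.s k33 k18 4 (.s k49 k17 3 (.d k101 k153 k154 13 14)))))), (.s k223 k239 3 (.s k19
  k155 9 (.s k17 k18 0 (.d k51 k35 k34 3 4))))] (.c k21 (.q k213 [(.s k223 k239 3 (.s k19 k155 9 (.s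
  k17 k18 0 (.d k51 k35 k34 3 4)))), (.s k48 k32 3 (.s k69 k138 10 (.s k205 k137 9 (.s k33 k18 4 (.s
  k49 k17 3 (.d k101 k153 k154 13 14)))))), (.s k223 k239 3 (.s k19 k155 9 (.s k208 k218 2 (.s k80
  k144 7 (.s k240 k160 11 (.d k82 k145 k161 8 12))))))] (.c k139 (.l (.s k48 k32 3 (.s k18 k33 4 (.s
  k19 k17 0 (.d k223 k239 k155 3 9))))) .n)) (.c k213 (.q k21 [(.s k48 k32 3 (.s k18 k33 4 (.s k19
  k17 0 (.d k223 k239 k155 3 9)))), (.s k48 k32 3 (.s k41 k61 5 (.s k60 k22 6 (.s k26 k31 2 (.d k56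
  k52 k11 1 4))))), (.s k223 k239 3 (.s k19 k155 9 (.s k17 k18 0 (.d k51 k35 k34 3 4))))] .n) .n)))
  (.c k139 (.l (.s k69 k138 10 (.s k137 k205 9 (.s k70 k204 10 (.s k71 k68 0 (.s k223 k239 3 (.s
  k155 k19 9 (.d k103 k119 k51 3 13)))))))) (.c k213 (.q k21 [(.s k71 k139 9 (.s k223 k239 3 (.s
  k155 k19 9 (.d k103 k119 k51 3 13)))), (.s k69 k138 10 (.s k137 k205 9 (.s k70 k204 10 (.d k71 k68
  k139 0 9)))), (.s k41 k61 5 (.s k60 k22 6 (.s k109 k158 12 (.s k125 k190 8 (.s k93 k77 3 (.s k174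
  k12 12 (.d k239 k223 k44 3 8)))))))] .n) .n))))))) (.c k86 (.q k207 [(.s k1 k2 0 (.s k69 k138 10
  (.s k137 k205 9 (.s k71 k139 9 (.d k70 k68 k204 0 10))))), (.s k71 k139 9 (.s k87 k171 13 (.s k103
  k119 3 (.s k155 k51 13 (.d k223 k239 k19 3 9))))), (.s k69 k138 10 (.s k85 k170 14 (.s k101 k117 3
  (.s k154 k48 14 (.d k223 k239 k16 3 10)))))] (.c k23 (.q k212 [(.s k1 k2 0 (.s k69 k138 10 (.s
  k137 k205 9 (.s k71 k139 9 (.d k70 k68 k204 0 10))))), (.s k71 k139 9 (.s k87 k171 13 (.s k103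
  k119 3 (.s k155 k51 13 (.d k223 k239 k19 3 9))))), (.s k69 k138 10 (.s k85 k170 14 (.s k101 k117 3
  (.s k154 k48 14 (.d k223 k239 k16 3 10)))))] .n) (.c k212 (.q k23 [(.s k1 k2 0 (.s k69 k138 10 (.s
  k137 k205 9 (.s k71 k139 9 (.d k70 k68 k204 0 10))))), (.s k71 k139 9 (.s k87 k171 13 (.s k103
  k119 3 (.s k155 k51 13 (.d k223 k239 k19 3 9))))), (.s k69 k138 10 (.s k85 k170 14 (.s k101 k117 3
  (.s k154 k48 14 (.d k223 k239 k16 3 10)))))] (.c k232 (.q k252 [(.s k1 k2 0 (.s k69 k138 10 (.s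
  k137 k205 9 (.s k71 k139 9 (.d k70 k68 k204 0 10))))), (.s k71 k139 9 (.s k87 k171 13 (.s k103
  k119 3 (.s k155 k51 13 (.d k223 k239 k19 3 9))))), (.s k69 k138 10 (.s k85 k170 14 (.s k101 k117 3
  (.s k154 k48 14 (.d k223 k239 k16 3 10)))))] .n) (.c k252 (.q k232 [(.s k1 k2 0 (.s k169 k43 8 (.d
  k85 k170 k253 14 13))), (.s k2 k1 0 (.s k138 k69 10 (.s k70 k206 9 (.s k137 k204 10 (.d k139 k136
  k71 0 9))))), (.s k170 k85 14 (.s k169 k43 8 (.d k171 k87 k168 13 0)))] (.c k126 (.q k189 [(.s k1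
  k2 0 (.s k169 k43 8 (.d k85 k170 k253 14 13))), (.s k2 k1 0 (.s k138 k69 10 (.s k70 k206 9 (.s
  k137 k204 10 (.d k139 k136 k71 0 9))))), (.s k170 k85 14 (.s k169 k43 8 (.d k171 k87 k168 13 0)))]
  .n) (.c k189 (.q k126 [(.s k1 k2 0 (.s k169 k43 8 (.d k85 k170 k253 14 13))), (.s k2 k1 0 (.s k138
  k69 10 (.s k70 k206 9 (.s k137 k204 10 (.d k139 k136 k71 0 9))))), (.s k170 k85 14 (.s k169 k43 8
  (.d k171 k87 k168 13 0)))] (.c k129 (.l (.s k169 k43 8 (.s k1 k2 0 (.d k85 k170 k253 14 13)))) (.c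
  k169 (.q k129 [(.s k1 k2 0 (.s k69 k138 10 (.s k137 k205 9 (.s k71 k139 9 (.d k70 k68 k204 0
  10))))), (.s k1 k2 0 (.s k65 k193 7 (.s k195 k130 8 (.s k87 k171 13 (.d k215 k235 k151 5 7))))),
  (.s k138 k69 10 (.s k170 k85 14 (.s k154 k186 3 (.s k101 k48 14 (.d k239 k223 k32 3 10)))))] (.c
  k1 (.l (.s k69 k138 10 (.s k85 k170 14 (.s k101 k117 3 (.s k154 k48 14 (.d k223 k239 k16 3
  10)))))) (.c k170 (.l (.s k2 k1 0 (.s k138 k69 10 (.s k70 k206 9 (.s k137 k204 10 (.d k139 k136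
  k71 0 9)))))) .n))) .n))) .n))) .n))) .n))) (.c k169 (.q k207 [(.s k1 k2 0 (.s k69 k138 10 (.s
  k137 k205 9 (.s k71 k139 9 (.d k70 k68 k204 0 10))))), (.s k69 k138 10 (.s k85 k170 14 (.s k101
  k117 3 (.s k154 k48 14 (.d k223 k239 k16 3 10))))), (.s k71 k139 9 (.s k87 k171 13 (.s k103 k119 3
  (.s k155 k51 13 (.d k223 k239 k19 3 9)))))] (.c k129 (.q k189 [(.s k1 k2 0 (.s k69 k138 10 (.s
  k137 k205 9 (.s k71 k139 9 (.d k70 k68 k204 0 10))))), (.s k69 k138 10 (.s k85 k170 14 (.s k101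
  k117 3 (.s k154 k48 14 (.d k223 k239 k16 3 10))))), (.s k71 k139 9 (.s k87 k171 13 (.s k103 k119 3
  (.s k155 k51 13 (.d k223 k239 k19 3 9)))))] (.c k154 (.l (.s k1 k2 0 (.s k69 k138 10 (.s k137 k205
  9 (.s k70 k204 10 (.d k71 k68 k139 0 9)))))) .n)) (.c k154 (.l (.s k1 k2 0 (.s k69 k138 10 (.s
  k137 k205 9 (.s k70 k204 10 (.d k71 k68 k139 0 9)))))) (.c k189 (.q k129 [(.s k1 k2 0 (.s k69 k138
  10 (.s k137 k205 9 (.s k71 k139 9 (.d k70 k68 k204 0 10))))), (.s k69 k138 10 (.s k85 k170 14 (.s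
  k101 k117 3 (.s k154 k48 14 (.d k223 k239 k16 3 10))))), (.s k71 k139 9 (.s k87 k171 13 (.s k103
  k119 3 (.s k155 k51 13 (.d k223 k239 k19 3 9)))))] (.c k126 (.q k252 [(.s k1 k2 0 (.s k69 k138 10
  (.s k137 k205 9 (.s k71 k139 9 (.d k70 k68 k204 0 10))))), (.s k69 k138 10 (.s k85 k170 14 (.s
  k101 k117 3 (.s k154 k48 14 (.d k223 k239 k16 3 10))))), (.s k71 k139 9 (.s k87 k171 13 (.s k103
  k119 3 (.s k155 k51 13 (.d k223 k239 k19 3 9)))))] (.c k154 (.l (.s k1 k2 0 (.s k69 k138 10 (.s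
  k137 k205 9 (.s k70 k204 10 (.d k71 k68 k139 0 9)))))) .n)) (.c k154 (.l (.s k1 k2 0 (.s k69 k138
  10 (.s k137 k205 9 (.s k70 k204 10 (.d k71 k68 k139 0 9)))))) (.c k252 (.q k126 [(.s k2 k1 0 (.s
  k86 k66 5 (.d k170 k85 k254 14 13))), (.s k1 k2 0 (.s k69 k138 10 (.s k137 k205 9 (.s k70 k204 10
  (.d k71 k68 k139 0 9))))), (.s k85 k170 14 (.s k86 k66 5 (.d k87 k171 k84 13 0)))] (.c k212 (.q
  k232 [(.s k2 k1 0 (.s k86 k66 5 (.d k170 k85 k254 14 13))), (.s k1 k2 0 (.s k69 k138 10 (.s k137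
  k205 9 (.s k70 k204 10 (.d k71 k68 k139 0 9))))), (.s k85 k170 14 (.s k86 k66 5 (.d k87 k171 k84
  13 0)))] (.c k23 (.l (.s k86 k66 5 (.s k2 k1 0 (.d k170 k85 k254 14 13)))) (.c k86 (.q k23 [(.s k1
  k2 0 (.s k69 k138 10 (.s k137 k205 9 (.s k71 k139 9 (.d k70 k68 k204 0 10))))), (.s k1 k2 0 (.s
  k65 k193 7 (.s k195 k130 8 (.s k87 k171 13 (.d k215 k235 k151 5 7))))), (.s k138 k69 10 (.s k170
  k85 14 (.s k154 k186 3 (.s k101 k48 14 (.d k239 k223 k32 3 10)))))] (.c k1 (.l (.s k69 k138 10 (.s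
  k85 k170 14 (.s k101 k117 3 (.s k154 k48 14 (.d k223 k239 k16 3 10)))))) (.c k170 (.l (.s k2 k1 0
  (.s k138 k69 10 (.s k70 k206 9 (.s k137 k204 10 (.d k139 k136 k71 0 9)))))) .n))) .n))) (.c k232
  (.q k212 [(.s k2 k1 0 (.s k86 k66 5 (.d k170 k85 k254 14 13))), (.s k1 k2 0 (.s k69 k138 10 (.s
  k137 k205 9 (.s k70 k204 10 (.d k71 k68 k139 0 9))))), (.s k85 k170 14 (.s k86 k66 5 (.d k87 k171
  k84 13 0)))] .n) .n))) .n)))) .n)))) (.c k170 (.q k195 [(.s k67 k131 7 (.s k87 k171 13 (.s k127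
  k107 5 (.s k64 k85 6 (.d k65 k66 k130 0 8))))), (.s k2 k1 0 (.s k130 k65 8 (.s k66 k194 7 (.s k87
  k171 13 (.s k86 k126 5 (.s k84 k85 0 (.d k252 k168 k169 13 14))))))), (.s k1 k2 0 (.s k67 k131 7
  (.s k87 k171 13 (.s k127 k107 5 (.s k85 k64 6 (.s k169 k253 13 (.d k86 k84 k252 0 14))))))), (.s
  k2 k1 0 (.s k130 k65 8 (.s k194 k66 7 (.s k150 k62 13 (.s k215 k235 5 (.s k20 k85 8 (.d k60 k40
  k105 5 14)))))))] (.c k85 (.l (.s k65 k130 8 (.s k67 k131 7 (.s k87 k171 13 (.s k66 k64 0 (.s k86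
  k126 5 (.s k105 k124 6 (.d k107 k104 k127 0 5)))))))) (.c k128 (.q k191 [(.s k131 k67 7 (.d k171
  k151 k87 5 13)), (.s k2 k1 0 (.s k130 k65 8 (.s k194 k66 7 (.s k150 k62 13 (.s k215 k235 5 (.s k20
  k85 8 (.d k60 k40 k105 5 14)))))))] (.c k67 (.l (.s k2 k1 0 (.s k130 k65 8 (.s k66 k194 7 (.s k87
  k171 13 (.s k86 k126 5 (.s k84 k85 0 (.d k252 k168 k169 13 14)))))))) .n)) (.c k169 (.l (.s k65
  k130 8 (.s k67 k131 7 (.s k64 k66 0 (.s k127 k85 6 (.d k87 k107 k171 5 13)))))) (.c k191 (.q k128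
  [(.s k130 k65 8 (.d k131 k129 k67 0 7)), (.s k1 k2 0 (.s k171 k87 13 (.s k235 k215 5 (.s k43 k107
  7 (.s k169 k232 8 (.s k253 k85 13 (.d k252 k254 k86 0 14)))))))] (.c k67 (.l (.s k2 k1 0 (.s k130
  k65 8 (.s k66 k194 7 (.s k87 k171 13 (.s k86 k126 5 (.s k84 k85 0 (.d k252 k168 k169 13 14))))))))
  .n)) .n))))) .n))))) (.c k169 (.q k207 [(.s k1 k2 0 (.s k69 k138 10 (.s k137 k205 9 (.s k71 k139 9
  (.d k70 k68 k204 0 10))))), (.s k69 k138 10 (.s k85 k170 14 (.s k101 k117 3 (.s k154 k48 14 (.d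
  k223 k239 k16 3 10))))), (.s k71 k139 9 (.s k87 k171 13 (.s k103 k119 3 (.s k155 k51 13 (.d k223
  k239 k19 3 9)))))] (.c k106 (.q k149 [(.s k1 k2 0 (.s k69 k138 10 (.s k137 k205 9 (.s k71 k139 9
  (.d k70 k68 k204 0 10))))), (.s k69 k138 10 (.s k85 k170 14 (.s k101 k117 3 (.s k154 k48 14 (.d
  k223 k239 k16 3 10))))), (.s k71 k139 9 (.s k87 k171 13 (.s k103 k119 3 (.s k155 k51 13 (.d k223
  k239 k19 3 9)))))] (.c k43 (.q k232 [(.s k1 k2 0 (.s k69 k138 10 (.s k137 k205 9 (.s k71 k139 9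
  (.d k70 k68 k204 0 10))))), (.s k69 k138 10 (.s k85 k170 14 (.s k101 k117 3 (.s k154 k48 14 (.d
  k223 k239 k16 3 10))))), (.s k71 k139 9 (.s k87 k171 13 (.s k103 k119 3 (.s k155 k51 13 (.d k223
  k239 k19 3 9)))))] (.c k154 (.l (.s k1 k2 0 (.s k69 k138 10 (.s k137 k205 9 (.s k70 k204 10 (.d
  k71 k68 k139 0 9)))))) .n)) (.c k154 (.l (.s k1 k2 0 (.s k69 k138 10 (.s k137 k205 9 (.s k70 k204
  10 (.d k71 k68 k139 0 9)))))) (.c k232 (.q k43 [(.s k1 k2 0 (.s k69 k138 10 (.s k137 k205 9 (.s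
  k71 k139 9 (.d k70 k68 k204 0 10))))), (.s k69 k138 10 (.s k85 k170 14 (.s k101 k117 3 (.s k154
  k48 14 (.d k223 k239 k16 3 10))))), (.s k71 k139 9 (.s k87 k171 13 (.s k103 k119 3 (.s k155 k51 13
  (.d k223 k239 k19 3 9)))))] (.c k154 (.l (.s k1 k2 0 (.s k69 k138 10 (.s k137 k205 9 (.s k70 k204
  10 (.d k71 k68 k139 0 9)))))) (.c k212 (.q k252 [(.s k1 k2 0 (.s k69 k138 10 (.s k137 k205 9 (.s
  k71 k139 9 (.d k70 k68 k204 0 10))))), (.s k69 k138 10 (.s k85 k170 14 (.s k101 k117 3 (.s k154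
  k48 14 (.d k223 k239 k16 3 10))))), (.s k71 k139 9 (.s k87 k171 13 (.s k103 k119 3 (.s k155 k51 13
  (.d k223 k239 k19 3 9)))))] (.c k154 (.l (.s k1 k2 0 (.s k69 k138 10 (.s k137 k205 9 (.s k70 k204
  10 (.d k71 k68 k139 0 9)))))) .n)) (.c k252 (.q k212 [(.s k2 k1 0 (.s k86 k23 8 (.d k170 k85 k254
  14 13))), (.s k1 k2 0 (.s k69 k138 10 (.s k137 k205 9 (.s k70 k204 10 (.d k71 k68 k139 0 9))))),
  (.s k85 k170 14 (.s k86 k23 8 (.d k87 k171 k84 13 0)))] (.c k126 (.q k189 [(.s k2 k1 0 (.s k86 k23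
  8 (.d k170 k85 k254 14 13))), (.s k1 k2 0 (.s k69 k138 10 (.s k137 k205 9 (.s k70 k204 10 (.d k71
  k68 k139 0 9))))), (.s k85 k170 14 (.s k86 k23 8 (.d k87 k171 k84 13 0)))] (.c k66 (.l (.s k86 k23
  8 (.s k2 k1 0 (.d k170 k85 k254 14 13)))) (.c k86 (.q k66 [(.s k1 k2 0 (.s k69 k138 10 (.s k137
  k205 9 (.s k71 k139 9 (.d k70 k68 k204 0 10))))), (.s k2 k1 0 (.s k130 k194 7 (.s k195 k65 8 (.s
  k171 k87 13 (.d k235 k215 k107 5 7)))))] (.c k1 (.l (.s k69 k138 10 (.s k85 k170 14 (.s k101 k117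
  3 (.s k154 k48 14 (.d k223 k239 k16 3 10)))))) (.c k2 (.l (.s k138 k69 10 (.s k170 k85 14 (.s k154
  k186 3 (.s k101 k48 14 (.d k239 k223 k32 3 10)))))) .n))) .n))) (.c k189 (.q k126 [(.s k2 k1 0 (.s
  k86 k23 8 (.d k170 k85 k254 14 13))), (.s k1 k2 0 (.s k69 k138 10 (.s k137 k205 9 (.s k70 k204 10
  (.d k71 k68 k139 0 9))))), (.s k85 k170 14 (.s k86 k23 8 (.d k87 k171 k84 13 0)))] .n) .n)))
  .n)))) .n)))) (.c k149 (.q k106 [(.s k1 k2 0 (.s k69 k138 10 (.s k137 k205 9 (.s k71 k139 9 (.d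
  k70 k68 k204 0 10))))), (.s k69 k138 10 (.s k85 k170 14 (.s k101 k117 3 (.s k154 k48 14 (.d k223
  k239 k16 3 10))))), (.s k71 k139 9 (.s k87 k171 13 (.s k103 k119 3 (.s k155 k51 13 (.d k223 k239
  k19 3 9)))))] (.c k129 (.q k189 [(.s k1 k2 0 (.s k69 k138 10 (.s k137 k205 9 (.s k71 k139 9 (.d
  k70 k68 k204 0 10))))), (.s k69 k138 10 (.s k85 k170 14 (.s k101 k117 3 (.s k154 k48 14 (.d k223
  k239 k16 3 10))))), (.s k71 k139 9 (.s k87 k171 13 (.s k103 k119 3 (.s k155 k51 13 (.d k223 k239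
  k19 3 9)))))] (.c k154 (.l (.s k1 k2 0 (.s k69 k138 10 (.s k137 k205 9 (.s k70 k204 10 (.d k71 k68
  k139 0 9)))))) .n)) (.c k154 (.l (.s k1 k2 0 (.s k69 k138 10 (.s k137 k205 9 (.s k70 k204 10 (.d
  k71 k68 k139 0 9)))))) (.c k189 (.q k129 [(.s k1 k2 0 (.s k69 k138 10 (.s k137 k205 9 (.s k71 k139
  9 (.d k70 k68 k204 0 10))))), (.s k69 k138 10 (.s k85 k170 14 (.s k101 k117 3 (.s k154 k48 14 (.d
  k223 k239 k16 3 10))))), (.s k71 k139 9 (.s k87 k171 13 (.s k103 k119 3 (.s k155 k51 13 (.d k223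
  k239 k19 3 9)))))] (.c k126 (.q k252 [(.s k1 k2 0 (.s k69 k138 10 (.s k137 k205 9 (.s k71 k139 9
  (.d k70 k68 k204 0 10))))), (.s k69 k138 10 (.s k85 k170 14 (.s k101 k117 3 (.s k154 k48 14 (.d
  k223 k239 k16 3 10))))), (.s k71 k139 9 (.s k87 k171 13 (.s k103 k119 3 (.s k155 k51 13 (.d k223
  k239 k19 3 9)))))] (.c k154 (.l (.s k1 k2 0 (.s k69 k138 10 (.s k137 k205 9 (.s k70 k204 10 (.d
  k71 k68 k139 0 9)))))) .n)) (.c k154 (.l (.s k1 k2 0 (.s k69 k138 10 (.s k137 k205 9 (.s k70 k204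
  10 (.d k71 k68 k139 0 9)))))) (.c k252 (.q k126 [(.s k2 k1 0 (.s k86 k66 5 (.d k170 k85 k254 14
  13))), (.s k1 k2 0 (.s k69 k138 10 (.s k137 k205 9 (.s k70 k204 10 (.d k71 k68 k139 0 9))))), (.s
  k85 k170 14 (.s k86 k66 5 (.d k87 k171 k84 13 0)))] (.c k212 (.q k232 [(.s k2 k1 0 (.s k86 k66 5
  (.d k170 k85 k254 14 13))), (.s k1 k2 0 (.s k69 k138 10 (.s k137 k205 9 (.s k70 k204 10 (.d k71
  k68 k139 0 9))))), (.s k85 k170 14 (.s k86 k66 5 (.d k87 k171 k84 13 0)))] (.c k23 (.l (.s k86 k66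
  5 (.s k2 k1 0 (.d k170 k85 k254 14 13)))) (.c k86 (.q k23 [(.s k1 k2 0 (.s k69 k138 10 (.s k137
  k205 9 (.s k71 k139 9 (.d k70 k68 k204 0 10))))), (.s k1 k2 0 (.s k65 k193 7 (.s k195 k130 8 (.s
  k87 k171 13 (.d k215 k235 k151 5 7))))), (.s k138 k69 10 (.s k170 k85 14 (.s k154 k186 3 (.s k101
  k48 14 (.d k239 k223 k32 3 10)))))] (.c k1 (.l (.s k69 k138 10 (.s k85 k170 14 (.s k101 k117 3 (.s
  k154 k48 14 (.d k223 k239 k16 3 10)))))) (.c k170 (.l (.s k2 k1 0 (.s k138 k69 10 (.s k70 k206 9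
  (.s k137 k204 10 (.d k139 k136 k71 0 9)))))) .n))) .n))) (.c k232 (.q k212 [(.s k2 k1 0 (.s k86
  k66 5 (.d k170 k85 k254 14 13))), (.s k1 k2 0 (.s k69 k138 10 (.s k137 k205 9 (.s k70 k204 10 (.d
  k71 k68 k139 0 9))))), (.s k85 k170 14 (.s k86 k66 5 (.d k87 k171 k84 13 0)))] .n) .n))) .n))))
  .n)))) (.c k154 (.l (.s k1 k2 0 (.s k69 k138 10 (.s k137 k205 9 (.s k70 k204 10 (.d k71 k68 k139 0
  9)))))) .n)))) (.c k170 (.f k2 k1 0 (.q k15 [(.s k10 k5 2 (.s k6 k14 1 (.s k11 k7 1 (.d k9 k8 k12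
  0 2)))), (.s k7 k11 1 (.s k87 k171 13 (.s k167 k247 11 (.s k91 k243 13 (.d k95 k83 k175 1 11)))))]
  (.c k7 (.f k10 k5 2 (.l (.s k6 k14 1 (.s k9 k12 2 (.s k171 k87 13 (.s k11 k8 0 (.s k175 k95 11 (.s
  k167 k163 1 (.d k91 k251 k243 11 13))))))))) (.c k11 (.q k207 [(.s k138 k69 10 (.s k70 k206 9 (.s
  k139 k71 9 (.d k137 k136 k204 0 10)))), (.s k71 k139 9 (.s k87 k171 13 (.s k103 k119 3 (.s k155
  k51 13 (.d k223 k239 k19 3 9))))), (.s k10 k5 2 (.s k138 k69 10 (.s k70 k206 9 (.s k74 k202 7 (.s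
  k78 k66 1 (.d k204 k137 k141 10 8))))))] (.c k106 (.q k149 [(.s k138 k69 10 (.s k70 k206 9 (.s
  k139 k71 9 (.d k137 k136 k204 0 10)))), (.s k71 k139 9 (.s k87 k171 13 (.s k103 k119 3 (.s k155
  k51 13 (.d k223 k239 k19 3 9))))), (.s k5 k10 2 (.s k69 k138 10 (.s k133 k197 7 (.s k165 k181 3
  (.s k245 k85 11 (.d k240 k250 k90 2 14))))))] (.c k42 (.q k234 [(.s k138 k69 10 (.s k70 k206 9 (.s
  k139 k71 9 (.d k137 k136 k204 0 10)))), (.s k71 k139 9 (.s k87 k171 13 (.s k103 k119 3 (.s k155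
  k51 13 (.d k223 k239 k19 3 9))))), (.s k5 k10 2 (.s k69 k138 10 (.s k133 k197 7 (.s k165 k181 3
  (.s k245 k85 11 (.d k240 k250 k90 2 14))))))] .n) (.c k234 (.q k42 [(.s k138 k69 10 (.s k70 k206 9
  (.s k139 k71 9 (.d k137 k136 k204 0 10)))), (.s k10 k5 2 (.s k22 k62 5 (.s k60 k41 6 (.s k26 k58 3
  (.d k30 k18 k45 1 4)))))] .n) .n))) (.c k149 (.q k106 [(.s k138 k69 10 (.s k70 k206 9 (.s k139 k71
  9 (.d k137 k136 k204 0 10)))), (.s k71 k139 9 (.s k87 k171 13 (.s k103 k119 3 (.s k155 k51 13 (.d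
  k223 k239 k19 3 9))))), (.s k69 k138 10 (.s k79 k143 7 (.s k95 k175 11 (.s k64 k74 2 (.d k127 k111
  k85 3 6)))))] (.c k128 (.q k191 [(.s k143 k79 7 (.d k175 k159 k95 3 11)), (.s k138 k69 10 (.s k70
  k206 9 (.s k137 k204 10 (.d k139 k136 k71 0 9))))] .n) (.c k191 (.q k128 [(.s k143 k79 7 (.d k138
  k133 k69 2 10)), (.s k71 k139 9 (.s k87 k171 13 (.s k103 k119 3 (.s k155 k51 13 (.d k223 k239 k19
  3 9)))))] .n) .n))) .n))) (.c k106 (.q k149 [(.s k10 k5 2 (.s k6 k14 1 (.s k11 k7 1 (.d k9 k8 k12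
  0 2)))), (.s k7 k11 1 (.s k87 k171 13 (.s k167 k247 11 (.s k91 k243 13 (.d k95 k83 k175 1 11)))))]
  (.c k7 (.f k10 k5 2 (.l (.s k6 k14 1 (.s k9 k12 2 (.s k171 k87 13 (.s k11 k8 0 (.s k175 k95 11 (.s
  k167 k163 1 (.d k91 k251 k243 11 13))))))))) (.c k11 (.q k207 [(.s k138 k69 10 (.s k70 k206 9 (.s
  k139 k71 9 (.d k137 k136 k204 0 10)))), (.s k71 k139 9 (.s k87 k171 13 (.s k103 k119 3 (.s k155
  k51 13 (.d k223 k239 k19 3 9))))), (.s k5 k10 2 (.s k69 k138 10 (.s k133 k197 7 (.s k165 k181 3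
  (.s k245 k85 11 (.d k240 k250 k90 2 14))))))] (.c k42 (.q k234 [(.s k138 k69 10 (.s k70 k206 9 (.s
  k139 k71 9 (.d k137 k136 k204 0 10)))), (.s k71 k139 9 (.s k87 k171 13 (.s k103 k119 3 (.s k155
  k51 13 (.d k223 k239 k19 3 9))))), (.s k5 k10 2 (.s k69 k138 10 (.s k133 k197 7 (.s k165 k181 3
  (.s k245 k85 11 (.d k240 k250 k90 2 14))))))] .n) (.c k234 (.q k42 [(.s k138 k69 10 (.s k70 k206 9
  (.s k139 k71 9 (.d k137 k136 k204 0 10)))), (.s k10 k5 2 (.s k22 k62 5 (.s k60 k41 6 (.s k26 k58 3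
  (.d k30 k18 k45 1 4)))))] .n) .n))) (.c k42 (.q k234 [(.s k10 k5 2 (.s k6 k14 1 (.s k11 k7 1 (.d
  k9 k8 k12 0 2)))), (.s k7 k11 1 (.s k87 k171 13 (.s k167 k247 11 (.s k91 k243 13 (.d k95 k83 k175
  1 11)))))] (.c k7 (.f k10 k5 2 (.l (.s k6 k14 1 (.s k9 k12 2 (.s k171 k87 13 (.s k11 k8 0 (.s k175
  k95 11 (.s k167 k163 1 (.d k91 k251 k243 11 13))))))))) (.c k11 (.q k207 [(.s k138 k69 10 (.s k70
  k206 9 (.s k139 k71 9 (.d k137 k136 k204 0 10)))), (.s k71 k139 9 (.s k87 k171 13 (.s k103 k119 3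
  (.s k155 k51 13 (.d k223 k239 k19 3 9))))), (.s k5 k10 2 (.s k69 k138 10 (.s k133 k197 7 (.s k165
  k181 3 (.s k245 k85 11 (.d k240 k250 k90 2 14))))))] .n) .n))) (.c k234 (.q k42 [(.s k10 k5 2 (.s
  k6 k14 1 (.s k11 k7 1 (.d k9 k8 k12 0 2)))), (.s k22 k62 5 (.s k7 k11 1 (.s k37 k52 4 (.s k48 k26
  6 (.d k32 k47 k16 2 3))))), (.s k10 k5 2 (.s k22 k62 5 (.s k60 k41 6 (.s k26 k58 3 (.d k30 k18 k45
  1 4)))))] .n) .n))))) (.c k149 (.q k106 [(.s k10 k5 2 (.s k6 k14 1 (.s k11 k7 1 (.d k9 k8 k12 0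
  2)))), (.s k7 k11 1 (.s k87 k171 13 (.s k167 k247 11 (.s k91 k243 13 (.d k95 k83 k175 1 11)))))]
  (.c k7 (.f k10 k5 2 (.l (.s k6 k14 1 (.s k9 k12 2 (.s k171 k87 13 (.s k11 k8 0 (.s k175 k95 11 (.s
  k167 k163 1 (.d k91 k251 k243 11 13))))))))) (.c k11 (.q k207 [(.s k138 k69 10 (.s k70 k206 9 (.s
  k139 k71 9 (.d k137 k136 k204 0 10)))), (.s k71 k139 9 (.s k87 k171 13 (.s k103 k119 3 (.s k155
  k51 13 (.d k223 k239 k19 3 9))))), (.s k69 k138 10 (.s k79 k143 7 (.s k95 k175 11 (.s k64 k74 2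
  (.d k127 k111 k85 3 6)))))] (.c k128 (.q k191 [(.s k143 k79 7 (.d k175 k159 k95 3 11)), (.s k138
  k69 10 (.s k70 k206 9 (.s k137 k204 10 (.d k139 k136 k71 0 9))))] .n) (.c k191 (.q k128 [(.s k143
  k79 7 (.d k138 k133 k69 2 10)), (.s k71 k139 9 (.s k87 k171 13 (.s k103 k119 3 (.s k155 k51 13 (.d
  k223 k239 k19 3 9)))))] .n) .n))) (.c k128 (.q k191 [(.s k10 k5 2 (.s k6 k14 1 (.s k11 k7 1 (.d k9
  k8 k12 0 2)))), (.s k171 k87 13 (.s k175 k95 11 (.s k131 k151 5 (.s k195 k67 7 (.s k135 k75 9 (.d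
  k143 k139 k159 1 3))))))] .n) (.c k191 (.q k128 [(.s k10 k5 2 (.s k6 k14 1 (.s k11 k7 1 (.d k9 k8
  k12 0 2)))), (.s k7 k11 1 (.s k87 k171 13 (.s k167 k247 11 (.s k91 k243 13 (.d k95 k83 k175 1
  11)))))] (.c k7 (.f k10 k5 2 (.l (.s k6 k14 1 (.s k9 k12 2 (.s k171 k87 13 (.s k11 k8 0 (.s k175
  k95 11 (.s k167 k163 1 (.d k91 k251 k243 11 13))))))))) (.c k11 (.q k42 [(.s k22 k62 5 (.s k60 k41
  6 (.s k30 k45 4 (.s k26 k18 1 (.d k10 k5 k58 2 3))))), (.s k62 k22 5 (.s k194 k150 13 (.s k130 k66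
  7 (.s k195 k65 8 (.d k131 k129 k67 0 7))))), (.s k10 k5 2 (.s k14 k6 1 (.s k26 k58 3 (.s k48 k37 6
  (.s k18 k33 4 (.d k50 k34 k38 3 5))))))] .n) .n))) .n))))) .n)))))) (.c k171 (.f k1 k2 0 (.q k207
  [(.s k69 k138 10 (.s k137 k205 9 (.s k71 k139 9 (.d k70 k68 k204 0 10)))), (.s k85 k170 14 (.s
  k169 k253 13 (.s k139 k71 9 (.s k154 k184 4 (.d k223 k239 k16 3 10))))), (.s k69 k138 10 (.s k85
  k170 14 (.s k101 k117 3 (.s k154 k48 14 (.d k223 k239 k16 3 10)))))] (.c k106 (.q k149 [(.s k69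
  k138 10 (.s k137 k205 9 (.s k71 k139 9 (.d k70 k68 k204 0 10)))), (.s k85 k170 14 (.s k169 k253 13
  (.s k139 k71 9 (.s k154 k184 4 (.d k223 k239 k16 3 10))))), (.s k69 k138 10 (.s k85 k170 14 (.s
  k101 k117 3 (.s k154 k48 14 (.d k223 k239 k16 3 10)))))] .n) (.c k149 (.q k106 [(.s k69 k138 10
  (.s k137 k205 9 (.s k71 k139 9 (.d k70 k68 k204 0 10)))), (.s k85 k170 14 (.s k169 k253 13 (.s
  k139 k71 9 (.s k154 k184 4 (.d k223 k239 k16 3 10))))), (.s k69 k138 10 (.s k85 k170 14 (.s k101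
  k117 3 (.s k154 k48 14 (.d k223 k239 k16 3 10)))))] .n) .n)))) (.c k252 (.q k4 [(.s k2 k1 0 (.s
  k12 k8 1 (.s k6 k9 2 (.s k10 k14 1 (.d k5 k7 k15 0 2))))), (.s k12 k8 1 (.s k85 k170 14 (.s k166
  k247 12 (.s k89 k243 14 (.d k93 k81 k174 1 12))))), (.s k85 k170 14 (.s k87 k171 13 (.s k247 k166
  12 (.s k7 k167 11 (.s k15 k11 1 (.d k5 k6 k10 0 2))))))] (.c k106 (.q k149 [(.s k2 k1 0 (.s k12 k8
  1 (.s k6 k9 2 (.s k10 k14 1 (.d k5 k7 k15 0 2))))), (.s k12 k8 1 (.s k85 k170 14 (.s k166 k247 12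
  (.s k89 k243 14 (.d k93 k81 k174 1 12))))), (.s k85 k170 14 (.s k87 k171 13 (.s k247 k166 12 (.s
  k7 k167 11 (.s k15 k11 1 (.d k5 k6 k10 0 2))))))] (.c k126 (.q k189 [(.s k1 k2 0 (.s k169 k129 5
  (.d k85 k253 k170 13 14))), (.s k2 k1 0 (.s k12 k8 1 (.s k6 k9 2 (.s k10 k14 1 (.d k5 k7 k15 0
  2))))), (.s k170 k85 14 (.s k171 k87 13 (.d k169 k168 k129 0 5)))] (.c k66 (.q k86 [(.s k2 k1 0
  (.d k170 k254 k85 13 14)), (.s k85 k170 14 (.d k87 k84 k171 0 13))] (.c k85 (.l (.s k2 k1 0 (.s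
  k170 k254 13 (.s k171 k87 13 (.d k169 k168 k129 0 5))))) (.c k170 (.l (.s k1 k2 0 (.s k87 k171 13
  (.s k85 k84 0 (.d k169 k129 k253 5 13))))) (.c k212 (.q k232 [(.s k2 k1 0 (.d k170 k254 k85 13
  14)), (.s k85 k170 14 (.d k87 k84 k171 0 13))] (.c k85 (.l (.s k2 k1 0 (.s k170 k254 13 (.s k171
  k87 13 (.d k169 k168 k129 0 5))))) (.c k170 (.l (.s k1 k2 0 (.s k87 k171 13 (.s k85 k84 0 (.d k169
  k129 k253 5 13))))) .n))) (.c k232 (.l (.s k212 k23 8 (.s k2 k1 0 (.d k170 k254 k85 13 14))))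
  .n))))) (.c k86 (.q k66 [(.s k1 k2 0 (.s k169 k129 5 (.d k85 k170 k253 14 13))), (.s k2 k1 0 (.s
  k12 k8 1 (.s k6 k9 2 (.s k10 k14 1 (.d k5 k7 k15 0 2))))), (.s k170 k85 14 (.s k169 k129 5 (.d
  k171 k87 k168 13 0)))] (.c k212 (.q k232 [(.s k1 k2 0 (.s k169 k129 5 (.d k85 k170 k253 14 13))),
  (.s k2 k1 0 (.s k12 k8 1 (.s k6 k9 2 (.s k10 k14 1 (.d k5 k7 k15 0 2))))), (.s k170 k85 14 (.s
  k169 k129 5 (.d k171 k87 k168 13 0)))] .n) (.c k232 (.q k212 [(.s k1 k2 0 (.s k169 k129 5 (.d k85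
  k170 k253 14 13))), (.s k2 k1 0 (.s k12 k8 1 (.s k6 k9 2 (.s k10 k14 1 (.d k5 k7 k15 0 2))))), (.s
  k170 k85 14 (.s k169 k129 5 (.d k171 k87 k168 13 0)))] (.c k43 (.l (.s k169 k129 5 (.s k1 k2 0 (.d
  k85 k170 k253 14 13)))) (.c k169 (.q k43 [(.s k2 k1 0 (.s k12 k8 1 (.s k6 k9 2 (.s k10 k14 1 (.d
  k5 k7 k15 0 2))))), (.s k171 k87 13 (.s k235 k107 7 (.s k195 k215 5 (.s k65 k130 8 (.d k67 k64
  k131 0 7)))))] (.c k85 (.l (.s k12 k8 1 (.s k6 k9 2 (.s k5 k7 0 (.s k10 k15 2 (.d k2 k1 k14 0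
  1)))))) .n)) .n))) .n))) (.c k212 (.q k232 [(.s k1 k2 0 (.s k169 k129 5 (.d k85 k253 k170 13
  14))), (.s k2 k1 0 (.s k12 k8 1 (.s k6 k9 2 (.s k10 k14 1 (.d k5 k7 k15 0 2))))), (.s k170 k85 14
  (.s k171 k87 13 (.d k169 k168 k129 0 5)))] (.c k66 (.q k86 [(.s k2 k1 0 (.d k170 k254 k85 13 14)),
  (.s k85 k170 14 (.d k87 k84 k171 0 13))] (.c k85 (.l (.s k2 k1 0 (.s k170 k254 13 (.s k171 k87 13
  (.d k169 k168 k129 0 5))))) (.c k170 (.l (.s k1 k2 0 (.s k87 k171 13 (.s k85 k84 0 (.d k169 k129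
  k253 5 13))))) .n))) (.c k86 (.q k66 [(.s k1 k2 0 (.s k169 k129 5 (.d k85 k170 k253 14 13))), (.s
  k2 k1 0 (.s k12 k8 1 (.s k6 k9 2 (.s k10 k14 1 (.d k5 k7 k15 0 2))))), (.s k170 k85 14 (.s k169
  k129 5 (.d k171 k87 k168 13 0)))] .n) .n))) (.c k232 (.q k212 [(.s k1 k2 0 (.s k169 k129 5 (.d k85
  k253 k170 13 14))), (.s k85 k170 14 (.s k87 k171 13 (.d k86 k84 k23 0 8))), (.s k2 k1 0 (.s k12 k8
  1 (.s k6 k9 2 (.s k10 k14 1 (.d k5 k7 k15 0 2)))))] (.c k43 (.l (.s k169 k129 5 (.s k1 k2 0 (.d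
  k85 k253 k170 13 14)))) (.c k66 (.l (.s k86 k23 8 (.s k2 k1 0 (.d k170 k254 k85 13 14)))) (.c k86
  (.q k66 [(.s k1 k2 0 (.s k169 k129 5 (.d k85 k170 k253 14 13))), (.s k2 k1 0 (.s k12 k8 1 (.s k6
  k9 2 (.s k10 k14 1 (.d k5 k7 k15 0 2))))), (.s k170 k85 14 (.s k169 k129 5 (.d k171 k87 k168 13
  0)))] (.c k43 (.l (.s k169 k129 5 (.s k1 k2 0 (.d k85 k170 k253 14 13)))) (.c k169 (.q k43 [(.s k2
  k1 0 (.s k12 k8 1 (.s k6 k9 2 (.s k10 k14 1 (.d k5 k7 k15 0 2))))), (.s k171 k87 13 (.s k235 k107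
  7 (.s k195 k215 5 (.s k65 k130 8 (.d k67 k64 k131 0 7)))))] (.c k85 (.l (.s k12 k8 1 (.s k6 k9 2
  (.s k5 k7 0 (.s k10 k15 2 (.d k2 k1 k14 0 1)))))) .n)) .n))) (.c k169 (.q k43 [(.s k2 k1 0 (.s k86
  k23 8 (.d k170 k85 k254 14 13))), (.s k12 k8 1 (.s k6 k9 2 (.s k5 k7 0 (.s k10 k15 2 (.d k2 k1 k14
  0 1))))), (.s k85 k170 14 (.s k86 k23 8 (.d k87 k171 k84 13 0)))] (.c k66 (.l (.s k86 k23 8 (.s k2
  k1 0 (.d k170 k85 k254 14 13)))) (.c k86 (.q k66 [(.s k2 k1 0 (.s k12 k8 1 (.s k6 k9 2 (.s k10 k14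
  1 (.d k5 k7 k15 0 2))))), (.s k171 k87 13 (.s k235 k107 7 (.s k195 k215 5 (.s k65 k130 8 (.d k67
  k64 k131 0 7)))))] (.c k85 (.l (.s k12 k8 1 (.s k6 k9 2 (.s k5 k7 0 (.s k10 k15 2 (.d k2 k1 k14 0
  1)))))) .n)) .n))) .n))))) .n))))) (.c k189 (.q k126 [(.s k2 k1 0 (.s k12 k8 1 (.s k6 k9 2 (.s k10
  k14 1 (.d k5 k7 k15 0 2))))), (.s k12 k8 1 (.s k85 k170 14 (.s k166 k247 12 (.s k89 k243 14 (.d
  k93 k81 k174 1 12))))), (.s k85 k170 14 (.s k87 k171 13 (.s k247 k166 12 (.s k7 k167 11 (.s k15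
  k11 1 (.d k5 k6 k10 0 2))))))] (.c k212 (.q k232 [(.s k2 k1 0 (.s k12 k8 1 (.s k6 k9 2 (.s k10 k14
  1 (.d k5 k7 k15 0 2))))), (.s k12 k8 1 (.s k85 k170 14 (.s k166 k247 12 (.s k89 k243 14 (.d k93
  k81 k174 1 12))))), (.s k85 k170 14 (.s k87 k171 13 (.s k247 k166 12 (.s k7 k167 11 (.s k15 k11 1
  (.d k5 k6 k10 0 2))))))] .n) (.c k232 (.q k212 [(.s k2 k1 0 (.s k86 k23 8 (.d k170 k254 k85 13
  14))), (.s k2 k1 0 (.s k12 k8 1 (.s k6 k9 2 (.s k10 k14 1 (.d k5 k7 k15 0 2))))), (.s k85 k170 14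
  (.s k87 k171 13 (.d k86 k84 k23 0 8)))] (.c k43 (.q k169 [(.s k1 k2 0 (.d k85 k253 k170 13 14)),
  (.s k170 k85 14 (.d k171 k168 k87 0 13))] (.c k85 (.l (.s k2 k1 0 (.s k171 k87 13 (.s k86 k23 8
  (.d k170 k168 k254 0 13))))) (.c k170 (.l (.s k1 k2 0 (.s k85 k253 13 (.s k87 k171 13 (.d k86 k84
  k23 0 8))))) .n))) (.c k169 (.q k43 [(.s k2 k1 0 (.s k86 k23 8 (.d k170 k85 k254 14 13))), (.s k12
  k8 1 (.s k6 k9 2 (.s k5 k7 0 (.s k10 k15 2 (.d k2 k1 k14 0 1))))), (.s k85 k170 14 (.s k86 k23 8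
  (.d k87 k171 k84 13 0)))] .n) .n))) .n))) (.c k212 (.q k232 [(.s k2 k1 0 (.s k12 k8 1 (.s k6 k9 2
  (.s k10 k14 1 (.d k5 k7 k15 0 2))))), (.s k12 k8 1 (.s k85 k170 14 (.s k166 k247 12 (.s k89 k243
  14 (.d k93 k81 k174 1 12))))), (.s k85 k170 14 (.s k87 k171 13 (.s k247 k166 12 (.s k7 k167 11 (.s
  k15 k11 1 (.d k5 k6 k10 0 2))))))] (.c k126 (.q k189 [(.s k1 k2 0 (.s k169 k129 5 (.d k85 k253
  k170 13 14))), (.s k2 k1 0 (.s k12 k8 1 (.s k6 k9 2 (.s k10 k14 1 (.d k5 k7 k15 0 2))))), (.s k170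
  k85 14 (.s k171 k87 13 (.d k169 k168 k129 0 5)))] (.c k66 (.q k86 [(.s k2 k1 0 (.d k170 k254 k85
  13 14)), (.s k85 k170 14 (.d k87 k84 k171 0 13))] (.c k85 (.l (.s k2 k1 0 (.s k170 k254 13 (.s
  k171 k87 13 (.d k169 k168 k129 0 5))))) (.c k170 (.l (.s k1 k2 0 (.s k87 k171 13 (.s k85 k84 0 (.d
  k169 k129 k253 5 13))))) .n))) (.c k86 (.q k66 [(.s k1 k2 0 (.s k169 k129 5 (.d k85 k170 k253 14
  13))), (.s k2 k1 0 (.s k12 k8 1 (.s k6 k9 2 (.s k10 k14 1 (.d k5 k7 k15 0 2))))), (.s k170 k85 14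
  (.s k169 k129 5 (.d k171 k87 k168 13 0)))] .n) .n))) (.c k189 (.q k126 [(.s k2 k1 0 (.s k12 k8 1
  (.s k6 k9 2 (.s k10 k14 1 (.d k5 k7 k15 0 2))))), (.s k12 k8 1 (.s k85 k170 14 (.s k166 k247 12
  (.s k89 k243 14 (.d k93 k81 k174 1 12))))), (.s k85 k170 14 (.s k87 k171 13 (.s k247 k166 12 (.s
  k7 k167 11 (.s k15 k11 1 (.d k5 k6 k10 0 2))))))] .n) .n))) (.c k232 (.q k212 [(.s k2 k1 0 (.s k86
  k23 8 (.d k170 k254 k85 13 14))), (.s k2 k1 0 (.s k12 k8 1 (.s k6 k9 2 (.s k10 k14 1 (.d k5 k7 k15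
  0 2))))), (.s k85 k170 14 (.s k87 k171 13 (.d k86 k84 k23 0 8)))] (.c k43 (.q k169 [(.s k1 k2 0
  (.d k85 k253 k170 13 14)), (.s k170 k85 14 (.d k171 k168 k87 0 13))] (.c k85 (.l (.s k2 k1 0 (.s
  k171 k87 13 (.s k86 k23 8 (.d k170 k168 k254 0 13))))) (.c k126 (.l (.s k189 k129 5 (.s k1 k2 0
  (.d k85 k253 k170 13 14)))) (.c k170 (.l (.s k1 k2 0 (.s k85 k253 13 (.s k87 k171 13 (.d k86 k84
  k23 0 8))))) (.c k189 (.q k126 [(.s k1 k2 0 (.d k85 k253 k170 13 14)), (.s k170 k85 14 (.d k171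
  k168 k87 0 13))] (.c k85 (.l (.s k2 k1 0 (.s k171 k87 13 (.s k86 k23 8 (.d k170 k168 k254 0
  13))))) (.c k170 (.l (.s k1 k2 0 (.s k85 k253 13 (.s k87 k171 13 (.d k86 k84 k23 0 8))))) .n)))
  .n))))) (.c k126 (.q k189 [(.s k1 k2 0 (.s k169 k129 5 (.d k85 k253 k170 13 14))), (.s k85 k170 14
  (.s k87 k171 13 (.d k86 k84 k23 0 8))), (.s k2 k1 0 (.s k12 k8 1 (.s k6 k9 2 (.s k10 k14 1 (.d k5
  k7 k15 0 2)))))] (.c k43 (.l (.s k169 k129 5 (.s k1 k2 0 (.d k85 k253 k170 13 14)))) (.c k66 (.l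
  (.s k86 k23 8 (.s k2 k1 0 (.d k170 k254 k85 13 14)))) (.c k86 (.q k66 [(.s k1 k2 0 (.s k169 k129 5
  (.d k85 k170 k253 14 13))), (.s k2 k1 0 (.s k12 k8 1 (.s k6 k9 2 (.s k10 k14 1 (.d k5 k7 k15 0
  2))))), (.s k170 k85 14 (.s k169 k129 5 (.d k171 k87 k168 13 0)))] (.c k43 (.l (.s k169 k129 5 (.s
  k1 k2 0 (.d k85 k170 k253 14 13)))) (.c k169 (.q k43 [(.s k2 k1 0 (.s k12 k8 1 (.s k6 k9 2 (.s k10
  k14 1 (.d k5 k7 k15 0 2))))), (.s k171 k87 13 (.s k235 k107 7 (.s k195 k215 5 (.s k65 k130 8 (.d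
  k67 k64 k131 0 7)))))] (.c k85 (.l (.s k12 k8 1 (.s k6 k9 2 (.s k5 k7 0 (.s k10 k15 2 (.d k2 k1
  k14 0 1)))))) .n)) .n))) (.c k169 (.q k43 [(.s k2 k1 0 (.s k86 k23 8 (.d k170 k85 k254 14 13))),
  (.s k12 k8 1 (.s k6 k9 2 (.s k5 k7 0 (.s k10 k15 2 (.d k2 k1 k14 0 1))))), (.s k85 k170 14 (.s k86
  k23 8 (.d k87 k171 k84 13 0)))] (.c k66 (.l (.s k86 k23 8 (.s k2 k1 0 (.d k170 k85 k254 14 13))))
  (.c k86 (.q k66 [(.s k2 k1 0 (.s k12 k8 1 (.s k6 k9 2 (.s k10 k14 1 (.d k5 k7 k15 0 2))))), (.s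
  k171 k87 13 (.s k235 k107 7 (.s k195 k215 5 (.s k65 k130 8 (.d k67 k64 k131 0 7)))))] (.c k85 (.l
  (.s k12 k8 1 (.s k6 k9 2 (.s k5 k7 0 (.s k10 k15 2 (.d k2 k1 k14 0 1)))))) .n)) .n))) .n))))) (.c
  k169 (.q k43 [(.s k2 k1 0 (.s k86 k23 8 (.d k170 k85 k254 14 13))), (.s k12 k8 1 (.s k6 k9 2 (.s
  k5 k7 0 (.s k10 k15 2 (.d k2 k1 k14 0 1))))), (.s k85 k170 14 (.s k86 k23 8 (.d k87 k171 k84 13
  0)))] (.c k126 (.q k189 [(.s k2 k1 0 (.s k86 k23 8 (.d k170 k85 k254 14 13))), (.s k12 k8 1 (.s k6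
  k9 2 (.s k5 k7 0 (.s k10 k15 2 (.d k2 k1 k14 0 1))))), (.s k85 k170 14 (.s k86 k23 8 (.d k87 k171
  k84 13 0)))] (.c k66 (.l (.s k86 k23 8 (.s k2 k1 0 (.d k170 k85 k254 14 13)))) (.c k86 (.q k66
  [(.s k2 k1 0 (.s k12 k8 1 (.s k6 k9 2 (.s k10 k14 1 (.d k5 k7 k15 0 2))))), (.s k171 k87 13 (.s
  k235 k107 7 (.s k195 k215 5 (.s k65 k130 8 (.d k67 k64 k131 0 7)))))] (.c k85 (.l (.s k12 k8 1 (.s
  k6 k9 2 (.s k5 k7 0 (.s k10 k15 2 (.d k2 k1 k14 0 1)))))) .n)) .n))) (.c k189 (.q k126 [(.s k2 k1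
  0 (.s k86 k23 8 (.d k170 k85 k254 14 13))), (.s k12 k8 1 (.s k6 k9 2 (.s k5 k7 0 (.s k10 k15 2 (.d
  k2 k1 k14 0 1))))), (.s k85 k170 14 (.s k86 k23 8 (.d k87 k171 k84 13 0)))] .n) .n))) (.c k189 (.q
  k126 [(.s k2 k1 0 (.s k86 k23 8 (.d k170 k254 k85 13 14))), (.s k2 k1 0 (.s k12 k8 1 (.s k6 k9 2
  (.s k10 k14 1 (.d k5 k7 k15 0 2))))), (.s k85 k170 14 (.s k87 k171 13 (.d k86 k84 k23 0 8)))] (.c
  k43 (.q k169 [(.s k1 k2 0 (.d k85 k253 k170 13 14)), (.s k170 k85 14 (.d k171 k168 k87 0 13))] (.c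
  k85 (.l (.s k2 k1 0 (.s k171 k87 13 (.s k86 k23 8 (.d k170 k168 k254 0 13))))) (.c k170 (.l (.s k1
  k2 0 (.s k85 k253 13 (.s k87 k171 13 (.d k86 k84 k23 0 8))))) .n))) (.c k169 (.q k43 [(.s k2 k1 0
  (.s k86 k23 8 (.d k170 k85 k254 14 13))), (.s k12 k8 1 (.s k6 k9 2 (.s k5 k7 0 (.s k10 k15 2 (.d
  k2 k1 k14 0 1))))), (.s k85 k170 14 (.s k86 k23 8 (.d k87 k171 k84 13 0)))] .n) .n))) .n)))))
  .n))))) (.c k126 (.q k189 [(.s k2 k1 0 (.s k12 k8 1 (.s k6 k9 2 (.s k10 k14 1 (.d k5 k7 k15 0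
  2))))), (.s k12 k8 1 (.s k85 k170 14 (.s k166 k247 12 (.s k89 k243 14 (.d k93 k81 k174 1 12))))),
  (.s k85 k170 14 (.s k87 k171 13 (.s k247 k166 12 (.s k7 k167 11 (.s k15 k11 1 (.d k5 k6 k10 0
  2))))))] (.c k106 (.q k149 [(.s k1 k2 0 (.s k169 k129 5 (.d k85 k253 k170 13 14))), (.s k2 k1 0
  (.s k12 k8 1 (.s k6 k9 2 (.s k10 k14 1 (.d k5 k7 k15 0 2))))), (.s k170 k85 14 (.s k171 k87 13 (.d
  k169 k168 k129 0 5)))] (.c k66 (.q k86 [(.s k2 k1 0 (.d k170 k254 k85 13 14)), (.s k85 k170 14 (.d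
  k87 k84 k171 0 13))] (.c k85 (.l (.s k2 k1 0 (.s k170 k254 13 (.s k171 k87 13 (.d k169 k168 k129 0
  5))))) (.c k170 (.l (.s k1 k2 0 (.s k87 k171 13 (.s k85 k84 0 (.d k169 k129 k253 5 13))))) (.c
  k212 (.q k232 [(.s k2 k1 0 (.d k170 k254 k85 13 14)), (.s k85 k170 14 (.d k87 k84 k171 0 13))] (.c
  k85 (.l (.s k2 k1 0 (.s k170 k254 13 (.s k171 k87 13 (.d k169 k168 k129 0 5))))) (.c k170 (.l (.s
  k1 k2 0 (.s k87 k171 13 (.s k85 k84 0 (.d k169 k129 k253 5 13))))) .n))) (.c k232 (.l (.s k212 k23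
  8 (.s k2 k1 0 (.d k170 k254 k85 13 14)))) .n))))) (.c k86 (.q k66 [(.s k1 k2 0 (.s k169 k129 5 (.d
  k85 k170 k253 14 13))), (.s k2 k1 0 (.s k12 k8 1 (.s k6 k9 2 (.s k10 k14 1 (.d k5 k7 k15 0 2))))),
  (.s k170 k85 14 (.s k169 k129 5 (.d k171 k87 k168 13 0)))] (.c k212 (.q k232 [(.s k1 k2 0 (.s k169
  k129 5 (.d k85 k170 k253 14 13))), (.s k2 k1 0 (.s k12 k8 1 (.s k6 k9 2 (.s k10 k14 1 (.d k5 k7
  k15 0 2))))), (.s k170 k85 14 (.s k169 k129 5 (.d k171 k87 k168 13 0)))] .n) (.c k232 (.q k212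
  [(.s k1 k2 0 (.s k169 k129 5 (.d k85 k170 k253 14 13))), (.s k2 k1 0 (.s k12 k8 1 (.s k6 k9 2 (.s
  k10 k14 1 (.d k5 k7 k15 0 2))))), (.s k170 k85 14 (.s k169 k129 5 (.d k171 k87 k168 13 0)))] (.c
  k43 (.l (.s k169 k129 5 (.s k1 k2 0 (.d k85 k170 k253 14 13)))) (.c k169 (.q k43 [(.s k2 k1 0 (.s
  k12 k8 1 (.s k6 k9 2 (.s k10 k14 1 (.d k5 k7 k15 0 2))))), (.s k171 k87 13 (.s k235 k107 7 (.s
  k195 k215 5 (.s k65 k130 8 (.d k67 k64 k131 0 7)))))] (.c k85 (.l (.s k12 k8 1 (.s k6 k9 2 (.s k5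
  k7 0 (.s k10 k15 2 (.d k2 k1 k14 0 1)))))) .n)) .n))) .n))) (.c k212 (.q k232 [(.s k1 k2 0 (.s
  k169 k129 5 (.d k85 k253 k170 13 14))), (.s k2 k1 0 (.s k12 k8 1 (.s k6 k9 2 (.s k10 k14 1 (.d k5
  k7 k15 0 2))))), (.s k170 k85 14 (.s k171 k87 13 (.d k169 k168 k129 0 5)))] (.c k66 (.q k86 [(.s
  k2 k1 0 (.d k170 k254 k85 13 14)), (.s k85 k170 14 (.d k87 k84 k171 0 13))] (.c k85 (.l (.s k2 k1
  0 (.s k170 k254 13 (.s k171 k87 13 (.d k169 k168 k129 0 5))))) (.c k170 (.l (.s k1 k2 0 (.s k87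
  k171 13 (.s k85 k84 0 (.d k169 k129 k253 5 13))))) .n))) (.c k86 (.q k66 [(.s k1 k2 0 (.s k169
  k129 5 (.d k85 k170 k253 14 13))), (.s k2 k1 0 (.s k12 k8 1 (.s k6 k9 2 (.s k10 k14 1 (.d k5 k7
  k15 0 2))))), (.s k170 k85 14 (.s k169 k129 5 (.d k171 k87 k168 13 0)))] .n) .n))) (.c k232 (.q
  k212 [(.s k1 k2 0 (.s k169 k129 5 (.d k85 k253 k170 13 14))), (.s k85 k170 14 (.s k87 k171 13 (.d
  k86 k84 k23 0 8))), (.s k2 k1 0 (.s k12 k8 1 (.s k6 k9 2 (.s k10 k14 1 (.d k5 k7 k15 0 2)))))] (.c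
  k43 (.l (.s k169 k129 5 (.s k1 k2 0 (.d k85 k253 k170 13 14)))) (.c k66 (.l (.s k86 k23 8 (.s k2
  k1 0 (.d k170 k254 k85 13 14)))) (.c k86 (.q k66 [(.s k1 k2 0 (.s k169 k129 5 (.d k85 k170 k253 14
  13))), (.s k2 k1 0 (.s k12 k8 1 (.s k6 k9 2 (.s k10 k14 1 (.d k5 k7 k15 0 2))))), (.s k170 k85 14
  (.s k169 k129 5 (.d k171 k87 k168 13 0)))] (.c k43 (.l (.s k169 k129 5 (.s k1 k2 0 (.d k85 k170
  k253 14 13)))) (.c k169 (.q k43 [(.s k2 k1 0 (.s k12 k8 1 (.s k6 k9 2 (.s k10 k14 1 (.d k5 k7 k15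
  0 2))))), (.s k171 k87 13 (.s k235 k107 7 (.s k195 k215 5 (.s k65 k130 8 (.d k67 k64 k131 0
  7)))))] (.c k85 (.l (.s k12 k8 1 (.s k6 k9 2 (.s k5 k7 0 (.s k10 k15 2 (.d k2 k1 k14 0 1))))))
  .n)) .n))) (.c k169 (.q k43 [(.s k2 k1 0 (.s k86 k23 8 (.d k170 k85 k254 14 13))), (.s k12 k8 1
  (.s k6 k9 2 (.s k5 k7 0 (.s k10 k15 2 (.d k2 k1 k14 0 1))))), (.s k85 k170 14 (.s k86 k23 8 (.d
  k87 k171 k84 13 0)))] (.c k66 (.l (.s k86 k23 8 (.s k2 k1 0 (.d k170 k85 k254 14 13)))) (.c k86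
  (.q k66 [(.s k2 k1 0 (.s k12 k8 1 (.s k6 k9 2 (.s k10 k14 1 (.d k5 k7 k15 0 2))))), (.s k171 k87
  13 (.s k235 k107 7 (.s k195 k215 5 (.s k65 k130 8 (.d k67 k64 k131 0 7)))))] (.c k85 (.l (.s k12
  k8 1 (.s k6 k9 2 (.s k5 k7 0 (.s k10 k15 2 (.d k2 k1 k14 0 1)))))) .n)) .n))) .n))))) .n))))) (.c
  k149 (.q k106 [(.s k2 k1 0 (.s k12 k8 1 (.s k6 k9 2 (.s k10 k14 1 (.d k5 k7 k15 0 2))))), (.s k12
  k8 1 (.s k85 k170 14 (.s k166 k247 12 (.s k89 k243 14 (.d k93 k81 k174 1 12))))), (.s k85 k170 14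
  (.s k87 k171 13 (.s k247 k166 12 (.s k7 k167 11 (.s k15 k11 1 (.d k5 k6 k10 0 2))))))] (.c k212
  (.q k232 [(.s k1 k2 0 (.s k169 k43 8 (.d k85 k253 k170 13 14))), (.s k2 k1 0 (.s k12 k8 1 (.s k6
  k9 2 (.s k10 k14 1 (.d k5 k7 k15 0 2))))), (.s k170 k85 14 (.s k171 k87 13 (.d k169 k168 k43 0
  8)))] (.c k23 (.q k86 [(.s k2 k1 0 (.d k170 k254 k85 13 14)), (.s k85 k170 14 (.d k87 k84 k171 0
  13))] (.c k85 (.l (.s k2 k1 0 (.s k170 k254 13 (.s k171 k87 13 (.d k169 k168 k43 0 8))))) (.c k170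
  (.l (.s k1 k2 0 (.s k87 k171 13 (.s k169 k43 8 (.d k85 k84 k253 0 13))))) .n))) (.c k86 (.q k23
  [(.s k1 k2 0 (.s k169 k43 8 (.d k85 k170 k253 14 13))), (.s k2 k1 0 (.s k12 k8 1 (.s k6 k9 2 (.s
  k10 k14 1 (.d k5 k7 k15 0 2))))), (.s k170 k85 14 (.s k169 k43 8 (.d k171 k87 k168 13 0)))] .n)
  .n))) (.c k232 (.q k212 [(.s k2 k1 0 (.s k12 k8 1 (.s k6 k9 2 (.s k10 k14 1 (.d k5 k7 k15 0
  2))))), (.s k12 k8 1 (.s k85 k170 14 (.s k166 k247 12 (.s k89 k243 14 (.d k93 k81 k174 1 12))))),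
  (.s k85 k170 14 (.s k87 k171 13 (.s k247 k166 12 (.s k7 k167 11 (.s k15 k11 1 (.d k5 k6 k10 0
  2))))))] .n) .n))) (.c k212 (.q k232 [(.s k2 k1 0 (.s k12 k8 1 (.s k6 k9 2 (.s k10 k14 1 (.d k5 k7
  k15 0 2))))), (.s k12 k8 1 (.s k85 k170 14 (.s k166 k247 12 (.s k89 k243 14 (.d k93 k81 k174 1
  12))))), (.s k85 k170 14 (.s k87 k171 13 (.s k247 k166 12 (.s k7 k167 11 (.s k15 k11 1 (.d k5 k6
  k10 0 2))))))] (.c k106 (.q k149 [(.s k1 k2 0 (.s k169 k129 5 (.d k85 k253 k170 13 14))), (.s k2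
  k1 0 (.s k12 k8 1 (.s k6 k9 2 (.s k10 k14 1 (.d k5 k7 k15 0 2))))), (.s k170 k85 14 (.s k171 k87
  13 (.d k169 k168 k129 0 5)))] (.c k66 (.q k86 [(.s k2 k1 0 (.d k170 k254 k85 13 14)), (.s k85 k170
  14 (.d k87 k84 k171 0 13))] (.c k85 (.l (.s k2 k1 0 (.s k170 k254 13 (.s k171 k87 13 (.d k169 k168
  k129 0 5))))) (.c k170 (.l (.s k1 k2 0 (.s k87 k171 13 (.s k85 k84 0 (.d k169 k129 k253 5 13)))))
  .n))) (.c k86 (.q k66 [(.s k1 k2 0 (.s k169 k129 5 (.d k85 k170 k253 14 13))), (.s k2 k1 0 (.s k12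
  k8 1 (.s k6 k9 2 (.s k10 k14 1 (.d k5 k7 k15 0 2))))), (.s k170 k85 14 (.s k169 k129 5 (.d k171
  k87 k168 13 0)))] .n) .n))) (.c k149 (.q k106 [(.s k1 k2 0 (.s k169 k43 8 (.d k85 k253 k170 13
  14))), (.s k2 k1 0 (.s k12 k8 1 (.s k6 k9 2 (.s k10 k14 1 (.d k5 k7 k15 0 2))))), (.s k170 k85 14
  (.s k171 k87 13 (.d k169 k168 k43 0 8)))] (.c k23 (.q k86 [(.s k2 k1 0 (.d k170 k254 k85 13 14)),
  (.s k85 k170 14 (.d k87 k84 k171 0 13))] (.c k85 (.l (.s k2 k1 0 (.s k170 k254 13 (.s k171 k87 13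
  (.d k169 k168 k43 0 8))))) (.c k170 (.l (.s k1 k2 0 (.s k87 k171 13 (.s k169 k43 8 (.d k85 k84
  k253 0 13))))) .n))) (.c k86 (.q k23 [(.s k1 k2 0 (.s k169 k43 8 (.d k85 k170 k253 14 13))), (.s
  k2 k1 0 (.s k12 k8 1 (.s k6 k9 2 (.s k10 k14 1 (.d k5 k7 k15 0 2))))), (.s k170 k85 14 (.s k169
  k43 8 (.d k171 k87 k168 13 0)))] .n) .n))) .n))) (.c k232 (.q k212 [(.s k2 k1 0 (.s k12 k8 1 (.s
  k6 k9 2 (.s k10 k14 1 (.d k5 k7 k15 0 2))))), (.s k12 k8 1 (.s k85 k170 14 (.s k166 k247 12 (.s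
  k89 k243 14 (.d k93 k81 k174 1 12))))), (.s k1 k2 0 (.s k85 k170 14 (.s k169 k253 13 (.s k87 k171
  13 (.s k86 k84 0 (.d k149 k129 k23 5 8))))))] (.c k106 (.q k149 [(.s k1 k2 0 (.s k169 k129 5 (.d
  k85 k253 k170 13 14))), (.s k85 k170 14 (.s k87 k171 13 (.d k86 k84 k23 0 8))), (.s k2 k1 0 (.s
  k12 k8 1 (.s k6 k9 2 (.s k10 k14 1 (.d k5 k7 k15 0 2)))))] (.c k43 (.l (.s k169 k129 5 (.s k1 k2 0
  (.d k85 k253 k170 13 14)))) (.c k66 (.l (.s k86 k23 8 (.s k2 k1 0 (.d k170 k254 k85 13 14)))) (.c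
  k86 (.q k66 [(.s k1 k2 0 (.s k169 k129 5 (.d k85 k170 k253 14 13))), (.s k2 k1 0 (.s k12 k8 1 (.s
  k6 k9 2 (.s k10 k14 1 (.d k5 k7 k15 0 2))))), (.s k170 k85 14 (.s k169 k129 5 (.d k171 k87 k168 13
  0)))] (.c k43 (.l (.s k169 k129 5 (.s k1 k2 0 (.d k85 k170 k253 14 13)))) (.c k169 (.q k43 [(.s k2
  k1 0 (.s k12 k8 1 (.s k6 k9 2 (.s k10 k14 1 (.d k5 k7 k15 0 2))))), (.s k171 k87 13 (.s k235 k107
  7 (.s k195 k215 5 (.s k65 k130 8 (.d k67 k64 k131 0 7)))))] (.c k85 (.l (.s k12 k8 1 (.s k6 k9 2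
  (.s k5 k7 0 (.s k10 k15 2 (.d k2 k1 k14 0 1)))))) .n)) .n))) (.c k169 (.q k43 [(.s k2 k1 0 (.s k86
  k23 8 (.d k170 k85 k254 14 13))), (.s k12 k8 1 (.s k6 k9 2 (.s k5 k7 0 (.s k10 k15 2 (.d k2 k1 k14
  0 1))))), (.s k85 k170 14 (.s k86 k23 8 (.d k87 k171 k84 13 0)))] (.c k66 (.l (.s k86 k23 8 (.s k2
  k1 0 (.d k170 k85 k254 14 13)))) (.c k86 (.q k66 [(.s k2 k1 0 (.s k12 k8 1 (.s k6 k9 2 (.s k10 k14
  1 (.d k5 k7 k15 0 2))))), (.s k171 k87 13 (.s k235 k107 7 (.s k195 k215 5 (.s k65 k130 8 (.d k67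
  k64 k131 0 7)))))] (.c k85 (.l (.s k12 k8 1 (.s k6 k9 2 (.s k5 k7 0 (.s k10 k15 2 (.d k2 k1 k14 0
  1)))))) .n)) .n))) .n))))) (.c k149 (.q k106 [(.s k2 k1 0 (.s k12 k8 1 (.s k6 k9 2 (.s k10 k14 1
  (.d k5 k7 k15 0 2))))), (.s k12 k8 1 (.s k85 k170 14 (.s k166 k247 12 (.s k89 k243 14 (.d k93 k81
  k174 1 12))))), (.s k85 k170 14 (.s k87 k171 13 (.s k247 k166 12 (.s k7 k167 11 (.s k15 k11 1 (.d
  k5 k6 k10 0 2))))))] .n) .n))) .n))))) (.c k149 (.q k106 [(.s k2 k1 0 (.s k12 k8 1 (.s k6 k9 2 (.s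
  k10 k14 1 (.d k5 k7 k15 0 2))))), (.s k12 k8 1 (.s k85 k170 14 (.s k166 k247 12 (.s k89 k243 14
  (.d k93 k81 k174 1 12))))), (.s k85 k170 14 (.s k87 k171 13 (.s k247 k166 12 (.s k7 k167 11 (.s
  k15 k11 1 (.d k5 k6 k10 0 2))))))] (.c k126 (.q k189 [(.s k2 k1 0 (.s k12 k8 1 (.s k6 k9 2 (.s k10
  k14 1 (.d k5 k7 k15 0 2))))), (.s k12 k8 1 (.s k85 k170 14 (.s k166 k247 12 (.s k89 k243 14 (.d
  k93 k81 k174 1 12))))), (.s k85 k170 14 (.s k87 k171 13 (.s k247 k166 12 (.s k7 k167 11 (.s k15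
  k11 1 (.d k5 k6 k10 0 2))))))] (.c k212 (.q k232 [(.s k1 k2 0 (.s k169 k43 8 (.d k85 k253 k170 13
  14))), (.s k2 k1 0 (.s k12 k8 1 (.s k6 k9 2 (.s k10 k14 1 (.d k5 k7 k15 0 2))))), (.s k170 k85 14
  (.s k171 k87 13 (.d k169 k168 k43 0 8)))] (.c k23 (.q k86 [(.s k2 k1 0 (.d k170 k254 k85 13 14)),
  (.s k85 k170 14 (.d k87 k84 k171 0 13))] (.c k85 (.l (.s k2 k1 0 (.s k170 k254 13 (.s k171 k87 13
  (.d k169 k168 k43 0 8))))) (.c k170 (.l (.s k1 k2 0 (.s k87 k171 13 (.s k169 k43 8 (.d k85 k84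
  k253 0 13))))) .n))) (.c k86 (.q k23 [(.s k1 k2 0 (.s k169 k43 8 (.d k85 k170 k253 14 13))), (.s
  k2 k1 0 (.s k12 k8 1 (.s k6 k9 2 (.s k10 k14 1 (.d k5 k7 k15 0 2))))), (.s k170 k85 14 (.s k169
  k43 8 (.d k171 k87 k168 13 0)))] .n) .n))) (.c k232 (.q k212 [(.s k2 k1 0 (.s k12 k8 1 (.s k6 k9 2
  (.s k10 k14 1 (.d k5 k7 k15 0 2))))), (.s k12 k8 1 (.s k85 k170 14 (.s k166 k247 12 (.s k89 k243
  14 (.d k93 k81 k174 1 12))))), (.s k85 k170 14 (.s k87 k171 13 (.s k247 k166 12 (.s k7 k167 11 (.s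
  k15 k11 1 (.d k5 k6 k10 0 2))))))] .n) .n))) (.c k189 (.q k126 [(.s k2 k1 0 (.s k86 k66 5 (.d k170
  k254 k85 13 14))), (.s k2 k1 0 (.s k12 k8 1 (.s k6 k9 2 (.s k10 k14 1 (.d k5 k7 k15 0 2))))), (.s
  k85 k170 14 (.s k87 k171 13 (.d k86 k84 k66 0 5)))] (.c k129 (.q k169 [(.s k1 k2 0 (.d k85 k253
  k170 13 14)), (.s k170 k85 14 (.d k171 k168 k87 0 13))] (.c k85 (.l (.s k2 k1 0 (.s k171 k87 13
  (.s k86 k66 5 (.d k170 k168 k254 0 13))))) (.c k170 (.l (.s k1 k2 0 (.s k85 k253 13 (.s k87 k171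
  13 (.d k86 k84 k66 0 5))))) (.c k212 (.l (.s k232 k43 8 (.s k1 k2 0 (.d k85 k253 k170 13 14))))
  (.c k232 (.q k212 [(.s k1 k2 0 (.d k85 k253 k170 13 14)), (.s k170 k85 14 (.d k171 k168 k87 0
  13))] (.c k85 (.l (.s k2 k1 0 (.s k171 k87 13 (.s k86 k66 5 (.d k170 k168 k254 0 13))))) (.c k170
  (.l (.s k1 k2 0 (.s k85 k253 13 (.s k87 k171 13 (.d k86 k84 k66 0 5))))) .n))) .n))))) (.c k169
  (.q k129 [(.s k2 k1 0 (.s k86 k66 5 (.d k170 k85 k254 14 13))), (.s k85 k170 14 (.s k86 k66 5 (.d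
  k87 k171 k84 13 0))), (.s k2 k1 0 (.s k12 k8 1 (.s k6 k9 2 (.s k10 k14 1 (.d k5 k7 k15 0 2)))))]
  (.c k85 (.l (.s k1 k2 0 (.s k65 k193 7 (.s k195 k130 8 (.s k67 k131 7 (.d k66 k64 k86 0 5))))))
  (.c k212 (.q k232 [(.s k2 k1 0 (.s k86 k66 5 (.d k170 k85 k254 14 13))), (.s k85 k170 14 (.s k86
  k66 5 (.d k87 k171 k84 13 0))), (.s k1 k2 0 (.s k65 k193 7 (.s k195 k130 8 (.s k67 k131 7 (.d k66
  k86 k64 5 0)))))] (.c k23 (.l (.s k86 k66 5 (.s k2 k1 0 (.d k170 k85 k254 14 13)))) (.c k66 (.l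
  (.s k1 k2 0 (.s k85 k170 14 (.s k65 k193 7 (.s k127 k64 6 (.d k125 k105 k124 5 0)))))) (.c k86 (.q
  k23 [(.s k2 k1 0 (.s k12 k8 1 (.s k6 k9 2 (.s k10 k14 1 (.d k5 k7 k15 0 2))))), (.s k1 k2 0 (.s
  k65 k193 7 (.s k195 k130 8 (.s k87 k171 13 (.d k215 k235 k151 5 7)))))] (.c k1 (.l (.s k12 k8 1
  (.s k85 k170 14 (.s k166 k247 12 (.s k89 k243 14 (.d k93 k81 k174 1 12)))))) (.c k2 (.l (.s k170
  k85 14 (.s k87 k171 13 (.s k215 k151 7 (.s k234 k42 7 (.d k235 k195 k233 5 0)))))) .n))) .n))))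
  (.c k232 (.q k212 [(.s k2 k1 0 (.s k86 k66 5 (.d k170 k85 k254 14 13))), (.s k85 k170 14 (.s k86
  k66 5 (.d k87 k171 k84 13 0))), (.s k2 k1 0 (.s k12 k8 1 (.s k6 k9 2 (.s k10 k14 1 (.d k5 k7 k15 0
  2)))))] (.c k85 (.l (.s k1 k2 0 (.s k65 k193 7 (.s k195 k130 8 (.s k67 k131 7 (.d k66 k64 k86 0
  5)))))) .n)) .n)))) (.c k212 (.q k232 [(.s k86 k66 5 (.s k2 k1 0 (.d k170 k254 k85 13 14))), (.s
  k2 k1 0 (.s k12 k8 1 (.s k6 k9 2 (.s k10 k14 1 (.d k5 k7 k15 0 2))))), (.s k85 k170 14 (.s k87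
  k171 13 (.d k86 k84 k66 0 5)))] (.c k23 (.l (.s k86 k66 5 (.s k2 k1 0 (.d k170 k254 k85 13 14))))
  (.c k86 (.q k23 [(.s k1 k2 0 (.s k169 k43 8 (.d k85 k170 k253 14 13))), (.s k2 k1 0 (.s k12 k8 1
  (.s k6 k9 2 (.s k10 k14 1 (.d k5 k7 k15 0 2))))), (.s k170 k85 14 (.s k169 k43 8 (.d k171 k87 k168
  13 0)))] (.c k129 (.l (.s k169 k43 8 (.s k1 k2 0 (.d k85 k170 k253 14 13)))) (.c k169 (.q k129
  [(.s k2 k1 0 (.s k12 k8 1 (.s k6 k9 2 (.s k10 k14 1 (.d k5 k7 k15 0 2))))), (.s k1 k2 0 (.s k65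
  k193 7 (.s k195 k130 8 (.s k87 k171 13 (.d k215 k235 k151 5 7)))))] (.c k1 (.l (.s k12 k8 1 (.s
  k85 k170 14 (.s k166 k247 12 (.s k89 k243 14 (.d k93 k81 k174 1 12)))))) (.c k2 (.l (.s k170 k85
  14 (.s k87 k171 13 (.s k215 k151 7 (.s k234 k42 7 (.d k235 k195 k233 5 0)))))) .n))) .n))) (.c
  k129 (.l (.s k169 k43 8 (.s k1 k2 0 (.d k85 k253 k170 13 14)))) (.c k169 (.q k129 [(.s k2 k1 0 (.s
  k86 k66 5 (.d k170 k85 k254 14 13))), (.s k85 k170 14 (.s k86 k66 5 (.d k87 k171 k84 13 0))), (.s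
  k1 k2 0 (.s k65 k193 7 (.s k195 k130 8 (.s k67 k131 7 (.d k66 k86 k64 5 0)))))] (.c k23 (.l (.s
  k86 k66 5 (.s k2 k1 0 (.d k170 k85 k254 14 13)))) (.c k66 (.l (.s k1 k2 0 (.s k85 k170 14 (.s k65
  k193 7 (.s k127 k64 6 (.d k125 k105 k124 5 0)))))) (.c k86 (.q k23 [(.s k2 k1 0 (.s k12 k8 1 (.s
  k6 k9 2 (.s k10 k14 1 (.d k5 k7 k15 0 2))))), (.s k1 k2 0 (.s k65 k193 7 (.s k195 k130 8 (.s k87
  k171 13 (.d k215 k235 k151 5 7)))))] (.c k1 (.l (.s k12 k8 1 (.s k85 k170 14 (.s k166 k247 12 (.s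
  k89 k243 14 (.d k93 k81 k174 1 12)))))) (.c k2 (.l (.s k170 k85 14 (.s k87 k171 13 (.s k215 k151 7
  (.s k234 k42 7 (.d k235 k195 k233 5 0)))))) .n))) .n)))) .n))))) (.c k232 (.q k212 [(.s k2 k1 0
  (.s k86 k66 5 (.d k170 k254 k85 13 14))), (.s k2 k1 0 (.s k12 k8 1 (.s k6 k9 2 (.s k10 k14 1 (.d
  k5 k7 k15 0 2))))), (.s k85 k170 14 (.s k87 k171 13 (.d k86 k84 k66 0 5)))] (.c k129 (.q k169 [(.s
  k1 k2 0 (.d k85 k253 k170 13 14)), (.s k170 k85 14 (.d k171 k168 k87 0 13))] (.c k85 (.l (.s k2 k1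
  0 (.s k171 k87 13 (.s k86 k66 5 (.d k170 k168 k254 0 13))))) (.c k170 (.l (.s k1 k2 0 (.s k85 k253
  13 (.s k87 k171 13 (.d k86 k84 k66 0 5))))) .n))) (.c k169 (.q k129 [(.s k2 k1 0 (.s k86 k66 5 (.d
  k170 k85 k254 14 13))), (.s k85 k170 14 (.s k86 k66 5 (.d k87 k171 k84 13 0))), (.s k2 k1 0 (.s
  k12 k8 1 (.s k6 k9 2 (.s k10 k14 1 (.d k5 k7 k15 0 2)))))] (.c k85 (.l (.s k1 k2 0 (.s k65 k193 7
  (.s k195 k130 8 (.s k67 k131 7 (.d k66 k64 k86 0 5)))))) .n)) .n))) .n))))) (.c k212 (.q k232 [(.s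
  k1 k2 0 (.s k169 k43 8 (.d k85 k253 k170 13 14))), (.s k2 k1 0 (.s k12 k8 1 (.s k6 k9 2 (.s k10
  k14 1 (.d k5 k7 k15 0 2))))), (.s k170 k85 14 (.s k171 k87 13 (.d k169 k168 k43 0 8)))] (.c k23
  (.q k86 [(.s k2 k1 0 (.d k170 k254 k85 13 14)), (.s k85 k170 14 (.d k87 k84 k171 0 13))] (.c k85
  (.l (.s k2 k1 0 (.s k170 k254 13 (.s k171 k87 13 (.d k169 k168 k43 0 8))))) (.c k126 (.q k189 [(.s
  k2 k1 0 (.d k170 k254 k85 13 14)), (.s k85 k170 14 (.d k87 k84 k171 0 13))] (.c k85 (.l (.s k2 k1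
  0 (.s k170 k254 13 (.s k171 k87 13 (.d k169 k168 k43 0 8))))) (.c k170 (.l (.s k1 k2 0 (.s k87
  k171 13 (.s k169 k43 8 (.d k85 k84 k253 0 13))))) .n))) (.c k170 (.l (.s k1 k2 0 (.s k87 k171 13
  (.s k169 k43 8 (.d k85 k84 k253 0 13))))) (.c k189 (.l (.s k126 k66 5 (.s k2 k1 0 (.d k170 k254
  k85 13 14)))) .n))))) (.c k86 (.q k23 [(.s k1 k2 0 (.s k169 k43 8 (.d k85 k170 k253 14 13))), (.s
  k2 k1 0 (.s k12 k8 1 (.s k6 k9 2 (.s k10 k14 1 (.d k5 k7 k15 0 2))))), (.s k170 k85 14 (.s k169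
  k43 8 (.d k171 k87 k168 13 0)))] (.c k126 (.q k189 [(.s k1 k2 0 (.s k169 k43 8 (.d k85 k170 k253
  14 13))), (.s k2 k1 0 (.s k12 k8 1 (.s k6 k9 2 (.s k10 k14 1 (.d k5 k7 k15 0 2))))), (.s k170 k85
  14 (.s k169 k43 8 (.d k171 k87 k168 13 0)))] .n) (.c k189 (.q k126 [(.s k1 k2 0 (.s k169 k43 8 (.d
  k85 k170 k253 14 13))), (.s k2 k1 0 (.s k12 k8 1 (.s k6 k9 2 (.s k10 k14 1 (.d k5 k7 k15 0 2))))),
  (.s k170 k85 14 (.s k169 k43 8 (.d k171 k87 k168 13 0)))] (.c k129 (.l (.s k169 k43 8 (.s k1 k2 0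
  (.d k85 k170 k253 14 13)))) (.c k169 (.q k129 [(.s k2 k1 0 (.s k12 k8 1 (.s k6 k9 2 (.s k10 k14 1
  (.d k5 k7 k15 0 2))))), (.s k1 k2 0 (.s k65 k193 7 (.s k195 k130 8 (.s k87 k171 13 (.d k215 k235
  k151 5 7)))))] (.c k1 (.l (.s k12 k8 1 (.s k85 k170 14 (.s k166 k247 12 (.s k89 k243 14 (.d k93
  k81 k174 1 12)))))) (.c k2 (.l (.s k170 k85 14 (.s k87 k171 13 (.s k215 k151 7 (.s k234 k42 7 (.d
  k235 k195 k233 5 0)))))) .n))) .n))) .n))) (.c k126 (.q k189 [(.s k1 k2 0 (.s k169 k43 8 (.d k85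
  k253 k170 13 14))), (.s k2 k1 0 (.s k12 k8 1 (.s k6 k9 2 (.s k10 k14 1 (.d k5 k7 k15 0 2))))), (.s
  k170 k85 14 (.s k171 k87 13 (.d k169 k168 k43 0 8)))] (.c k23 (.q k86 [(.s k2 k1 0 (.d k170 k254
  k85 13 14)), (.s k85 k170 14 (.d k87 k84 k171 0 13))] (.c k85 (.l (.s k2 k1 0 (.s k170 k254 13 (.s
  k171 k87 13 (.d k169 k168 k43 0 8))))) (.c k170 (.l (.s k1 k2 0 (.s k87 k171 13 (.s k169 k43 8 (.d
  k85 k84 k253 0 13))))) .n))) (.c k86 (.q k23 [(.s k1 k2 0 (.s k169 k43 8 (.d k85 k170 k253 14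
  13))), (.s k2 k1 0 (.s k12 k8 1 (.s k6 k9 2 (.s k10 k14 1 (.d k5 k7 k15 0 2))))), (.s k170 k85 14
  (.s k169 k43 8 (.d k171 k87 k168 13 0)))] .n) .n))) (.c k189 (.q k126 [(.s k86 k66 5 (.s k2 k1 0
  (.d k170 k254 k85 13 14))), (.s k2 k1 0 (.s k12 k8 1 (.s k6 k9 2 (.s k10 k14 1 (.d k5 k7 k15 0
  2))))), (.s k85 k170 14 (.s k87 k171 13 (.d k86 k84 k66 0 5)))] (.c k23 (.l (.s k86 k66 5 (.s k2
  k1 0 (.d k170 k254 k85 13 14)))) (.c k86 (.q k23 [(.s k1 k2 0 (.s k169 k43 8 (.d k85 k170 k253 14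
  13))), (.s k2 k1 0 (.s k12 k8 1 (.s k6 k9 2 (.s k10 k14 1 (.d k5 k7 k15 0 2))))), (.s k170 k85 14
  (.s k169 k43 8 (.d k171 k87 k168 13 0)))] (.c k129 (.l (.s k169 k43 8 (.s k1 k2 0 (.d k85 k170
  k253 14 13)))) (.c k169 (.q k129 [(.s k2 k1 0 (.s k12 k8 1 (.s k6 k9 2 (.s k10 k14 1 (.d k5 k7 k15
  0 2))))), (.s k1 k2 0 (.s k65 k193 7 (.s k195 k130 8 (.s k87 k171 13 (.d k215 k235 k151 5 7)))))]
  (.c k1 (.l (.s k12 k8 1 (.s k85 k170 14 (.s k166 k247 12 (.s k89 k243 14 (.d k93 k81 k174 1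
  12)))))) (.c k2 (.l (.s k170 k85 14 (.s k87 k171 13 (.s k215 k151 7 (.s k234 k42 7 (.d k235 k195
  k233 5 0)))))) .n))) .n))) (.c k129 (.l (.s k169 k43 8 (.s k1 k2 0 (.d k85 k253 k170 13 14)))) (.c
  k169 (.q k129 [(.s k2 k1 0 (.s k86 k66 5 (.d k170 k85 k254 14 13))), (.s k85 k170 14 (.s k86 k66 5
  (.d k87 k171 k84 13 0))), (.s k1 k2 0 (.s k65 k193 7 (.s k195 k130 8 (.s k67 k131 7 (.d k66 k86
  k64 5 0)))))] (.c k23 (.l (.s k86 k66 5 (.s k2 k1 0 (.d k170 k85 k254 14 13)))) (.c k66 (.l (.s k1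
  k2 0 (.s k85 k170 14 (.s k65 k193 7 (.s k127 k64 6 (.d k125 k105 k124 5 0)))))) (.c k86 (.q k23
  [(.s k2 k1 0 (.s k12 k8 1 (.s k6 k9 2 (.s k10 k14 1 (.d k5 k7 k15 0 2))))), (.s k1 k2 0 (.s k65
  k193 7 (.s k195 k130 8 (.s k87 k171 13 (.d k215 k235 k151 5 7)))))] (.c k1 (.l (.s k12 k8 1 (.s
  k85 k170 14 (.s k166 k247 12 (.s k89 k243 14 (.d k93 k81 k174 1 12)))))) (.c k2 (.l (.s k170 k85
  14 (.s k87 k171 13 (.s k215 k151 7 (.s k234 k42 7 (.d k235 k195 k233 5 0)))))) .n))) .n))))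
  .n))))) .n))))) (.c k232 (.q k212 [(.s k2 k1 0 (.s k12 k8 1 (.s k6 k9 2 (.s k10 k14 1 (.d k5 k7
  k15 0 2))))), (.s k12 k8 1 (.s k85 k170 14 (.s k166 k247 12 (.s k89 k243 14 (.d k93 k81 k174 1
  12))))), (.s k85 k170 14 (.s k87 k171 13 (.s k247 k166 12 (.s k7 k167 11 (.s k15 k11 1 (.d k5 k6
  k10 0 2))))))] (.c k126 (.q k189 [(.s k2 k1 0 (.s k12 k8 1 (.s k6 k9 2 (.s k10 k14 1 (.d k5 k7 k15
  0 2))))), (.s k12 k8 1 (.s k85 k170 14 (.s k166 k247 12 (.s k89 k243 14 (.d k93 k81 k174 1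
  12))))), (.s k85 k170 14 (.s k87 k171 13 (.s k247 k166 12 (.s k7 k167 11 (.s k15 k11 1 (.d k5 k6
  k10 0 2))))))] .n) (.c k189 (.q k126 [(.s k2 k1 0 (.s k86 k66 5 (.d k170 k254 k85 13 14))), (.s k2
  k1 0 (.s k12 k8 1 (.s k6 k9 2 (.s k10 k14 1 (.d k5 k7 k15 0 2))))), (.s k85 k170 14 (.s k87 k171
  13 (.d k86 k84 k66 0 5)))] (.c k129 (.q k169 [(.s k1 k2 0 (.d k85 k253 k170 13 14)), (.s k170 k85
  14 (.d k171 k168 k87 0 13))] (.c k85 (.l (.s k2 k1 0 (.s k171 k87 13 (.s k86 k66 5 (.d k170 k168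
  k254 0 13))))) (.c k170 (.l (.s k1 k2 0 (.s k85 k253 13 (.s k87 k171 13 (.d k86 k84 k66 0 5)))))
  .n))) (.c k169 (.q k129 [(.s k2 k1 0 (.s k86 k66 5 (.d k170 k85 k254 14 13))), (.s k85 k170 14 (.s
  k86 k66 5 (.d k87 k171 k84 13 0))), (.s k2 k1 0 (.s k12 k8 1 (.s k6 k9 2 (.s k10 k14 1 (.d k5 k7
  k15 0 2)))))] (.c k85 (.l (.s k1 k2 0 (.s k65 k193 7 (.s k195 k130 8 (.s k67 k131 7 (.d k66 k64
  k86 0 5)))))) .n)) .n))) .n))) .n))))) (.c k189 (.q k126 [(.s k2 k1 0 (.s k12 k8 1 (.s k6 k9 2 (.s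
  k10 k14 1 (.d k5 k7 k15 0 2))))), (.s k12 k8 1 (.s k85 k170 14 (.s k166 k247 12 (.s k89 k243 14
  (.d k93 k81 k174 1 12))))), (.s k85 k170 14 (.s k87 k171 13 (.s k247 k166 12 (.s k7 k167 11 (.s
  k15 k11 1 (.d k5 k6 k10 0 2))))))] (.c k106 (.q k149 [(.s k2 k1 0 (.s k12 k8 1 (.s k6 k9 2 (.s k10
  k14 1 (.d k5 k7 k15 0 2))))), (.s k12 k8 1 (.s k85 k170 14 (.s k166 k247 12 (.s k89 k243 14 (.d
  k93 k81 k174 1 12))))), (.s k85 k170 14 (.s k87 k171 13 (.s k247 k166 12 (.s k7 k167 11 (.s k15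
  k11 1 (.d k5 k6 k10 0 2))))))] (.c k212 (.q k232 [(.s k2 k1 0 (.s k12 k8 1 (.s k6 k9 2 (.s k10 k14
  1 (.d k5 k7 k15 0 2))))), (.s k12 k8 1 (.s k85 k170 14 (.s k166 k247 12 (.s k89 k243 14 (.d k93
  k81 k174 1 12))))), (.s k85 k170 14 (.s k87 k171 13 (.s k247 k166 12 (.s k7 k167 11 (.s k15 k11 1
  (.d k5 k6 k10 0 2))))))] .n) (.c k232 (.q k212 [(.s k2 k1 0 (.s k86 k23 8 (.d k170 k254 k85 13
  14))), (.s k2 k1 0 (.s k12 k8 1 (.s k6 k9 2 (.s k10 k14 1 (.d k5 k7 k15 0 2))))), (.s k85 k170 14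
  (.s k87 k171 13 (.d k86 k84 k23 0 8)))] (.c k43 (.q k169 [(.s k1 k2 0 (.d k85 k253 k170 13 14)),
  (.s k170 k85 14 (.d k171 k168 k87 0 13))] (.c k85 (.l (.s k2 k1 0 (.s k171 k87 13 (.s k86 k23 8
  (.d k170 k168 k254 0 13))))) (.c k170 (.l (.s k1 k2 0 (.s k85 k253 13 (.s k87 k171 13 (.d k86 k84
  k23 0 8))))) .n))) (.c k169 (.q k43 [(.s k2 k1 0 (.s k86 k23 8 (.d k170 k85 k254 14 13))), (.s k12
  k8 1 (.s k6 k9 2 (.s k5 k7 0 (.s k10 k15 2 (.d k2 k1 k14 0 1))))), (.s k85 k170 14 (.s k86 k23 8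
  (.d k87 k171 k84 13 0)))] .n) .n))) .n))) (.c k149 (.q k106 [(.s k2 k1 0 (.s k86 k66 5 (.d k170
  k254 k85 13 14))), (.s k2 k1 0 (.s k12 k8 1 (.s k6 k9 2 (.s k10 k14 1 (.d k5 k7 k15 0 2))))), (.s
  k85 k170 14 (.s k87 k171 13 (.d k86 k84 k66 0 5)))] (.c k129 (.q k169 [(.s k1 k2 0 (.d k85 k253
  k170 13 14)), (.s k170 k85 14 (.d k171 k168 k87 0 13))] (.c k85 (.l (.s k2 k1 0 (.s k171 k87 13
  (.s k86 k66 5 (.d k170 k168 k254 0 13))))) (.c k170 (.l (.s k1 k2 0 (.s k85 k253 13 (.s k87 k171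
  13 (.d k86 k84 k66 0 5))))) (.c k212 (.l (.s k232 k43 8 (.s k1 k2 0 (.d k85 k253 k170 13 14))))
  (.c k232 (.q k212 [(.s k1 k2 0 (.d k85 k253 k170 13 14)), (.s k170 k85 14 (.d k171 k168 k87 0
  13))] (.c k85 (.l (.s k2 k1 0 (.s k171 k87 13 (.s k86 k66 5 (.d k170 k168 k254 0 13))))) (.c k170
  (.l (.s k1 k2 0 (.s k85 k253 13 (.s k87 k171 13 (.d k86 k84 k66 0 5))))) .n))) .n))))) (.c k169
  (.q k129 [(.s k2 k1 0 (.s k86 k66 5 (.d k170 k85 k254 14 13))), (.s k85 k170 14 (.s k86 k66 5 (.d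
  k87 k171 k84 13 0))), (.s k2 k1 0 (.s k12 k8 1 (.s k6 k9 2 (.s k10 k14 1 (.d k5 k7 k15 0 2)))))]
  (.c k85 (.l (.s k1 k2 0 (.s k65 k193 7 (.s k195 k130 8 (.s k67 k131 7 (.d k66 k64 k86 0 5))))))
  (.c k212 (.q k232 [(.s k2 k1 0 (.s k86 k66 5 (.d k170 k85 k254 14 13))), (.s k85 k170 14 (.s k86
  k66 5 (.d k87 k171 k84 13 0))), (.s k1 k2 0 (.s k65 k193 7 (.s k195 k130 8 (.s k67 k131 7 (.d k66
  k86 k64 5 0)))))] (.c k23 (.l (.s k86 k66 5 (.s k2 k1 0 (.d k170 k85 k254 14 13)))) (.c k66 (.l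
  (.s k1 k2 0 (.s k85 k170 14 (.s k65 k193 7 (.s k127 k64 6 (.d k125 k105 k124 5 0)))))) (.c k86 (.q
  k23 [(.s k2 k1 0 (.s k12 k8 1 (.s k6 k9 2 (.s k10 k14 1 (.d k5 k7 k15 0 2))))), (.s k1 k2 0 (.s
  k65 k193 7 (.s k195 k130 8 (.s k87 k171 13 (.d k215 k235 k151 5 7)))))] (.c k1 (.l (.s k12 k8 1
  (.s k85 k170 14 (.s k166 k247 12 (.s k89 k243 14 (.d k93 k81 k174 1 12)))))) (.c k2 (.l (.s k170
  k85 14 (.s k87 k171 13 (.s k215 k151 7 (.s k234 k42 7 (.d k235 k195 k233 5 0)))))) .n))) .n))))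
  (.c k232 (.q k212 [(.s k2 k1 0 (.s k86 k66 5 (.d k170 k85 k254 14 13))), (.s k85 k170 14 (.s k86
  k66 5 (.d k87 k171 k84 13 0))), (.s k2 k1 0 (.s k12 k8 1 (.s k6 k9 2 (.s k10 k14 1 (.d k5 k7 k15 0
  2)))))] (.c k85 (.l (.s k1 k2 0 (.s k65 k193 7 (.s k195 k130 8 (.s k67 k131 7 (.d k66 k64 k86 0
  5)))))) .n)) .n)))) (.c k212 (.q k232 [(.s k86 k66 5 (.s k2 k1 0 (.d k170 k254 k85 13 14))), (.s
  k2 k1 0 (.s k12 k8 1 (.s k6 k9 2 (.s k10 k14 1 (.d k5 k7 k15 0 2))))), (.s k85 k170 14 (.s k87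
  k171 13 (.d k86 k84 k66 0 5)))] (.c k23 (.l (.s k86 k66 5 (.s k2 k1 0 (.d k170 k254 k85 13 14))))
  (.c k86 (.q k23 [(.s k1 k2 0 (.s k169 k43 8 (.d k85 k170 k253 14 13))), (.s k2 k1 0 (.s k12 k8 1
  (.s k6 k9 2 (.s k10 k14 1 (.d k5 k7 k15 0 2))))), (.s k170 k85 14 (.s k169 k43 8 (.d k171 k87 k168
  13 0)))] (.c k129 (.l (.s k169 k43 8 (.s k1 k2 0 (.d k85 k170 k253 14 13)))) (.c k169 (.q k129
  [(.s k2 k1 0 (.s k12 k8 1 (.s k6 k9 2 (.s k10 k14 1 (.d k5 k7 k15 0 2))))), (.s k1 k2 0 (.s k65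
  k193 7 (.s k195 k130 8 (.s k87 k171 13 (.d k215 k235 k151 5 7)))))] (.c k1 (.l (.s k12 k8 1 (.s
  k85 k170 14 (.s k166 k247 12 (.s k89 k243 14 (.d k93 k81 k174 1 12)))))) (.c k2 (.l (.s k170 k85
  14 (.s k87 k171 13 (.s k215 k151 7 (.s k234 k42 7 (.d k235 k195 k233 5 0)))))) .n))) .n))) (.c
  k129 (.l (.s k169 k43 8 (.s k1 k2 0 (.d k85 k253 k170 13 14)))) (.c k169 (.q k129 [(.s k2 k1 0 (.s
  k86 k66 5 (.d k170 k85 k254 14 13))), (.s k85 k170 14 (.s k86 k66 5 (.d k87 k171 k84 13 0))), (.s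
  k1 k2 0 (.s k65 k193 7 (.s k195 k130 8 (.s k67 k131 7 (.d k66 k86 k64 5 0)))))] (.c k23 (.l (.s
  k86 k66 5 (.s k2 k1 0 (.d k170 k85 k254 14 13)))) (.c k66 (.l (.s k1 k2 0 (.s k85 k170 14 (.s k65
  k193 7 (.s k127 k64 6 (.d k125 k105 k124 5 0)))))) (.c k86 (.q k23 [(.s k2 k1 0 (.s k12 k8 1 (.s
  k6 k9 2 (.s k10 k14 1 (.d k5 k7 k15 0 2))))), (.s k1 k2 0 (.s k65 k193 7 (.s k195 k130 8 (.s k87
  k171 13 (.d k215 k235 k151 5 7)))))] (.c k1 (.l (.s k12 k8 1 (.s k85 k170 14 (.s k166 k247 12 (.s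
  k89 k243 14 (.d k93 k81 k174 1 12)))))) (.c k2 (.l (.s k170 k85 14 (.s k87 k171 13 (.s k215 k151 7
  (.s k234 k42 7 (.d k235 k195 k233 5 0)))))) .n))) .n)))) .n))))) (.c k232 (.q k212 [(.s k2 k1 0
  (.s k86 k66 5 (.d k170 k254 k85 13 14))), (.s k2 k1 0 (.s k12 k8 1 (.s k6 k9 2 (.s k10 k14 1 (.d
  k5 k7 k15 0 2))))), (.s k85 k170 14 (.s k87 k171 13 (.d k86 k84 k66 0 5)))] (.c k129 (.q k169 [(.s
  k1 k2 0 (.d k85 k253 k170 13 14)), (.s k170 k85 14 (.d k171 k168 k87 0 13))] (.c k85 (.l (.s k2 k1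
  0 (.s k171 k87 13 (.s k86 k66 5 (.d k170 k168 k254 0 13))))) (.c k170 (.l (.s k1 k2 0 (.s k85 k253
  13 (.s k87 k171 13 (.d k86 k84 k66 0 5))))) .n))) (.c k169 (.q k129 [(.s k2 k1 0 (.s k86 k66 5 (.d
  k170 k85 k254 14 13))), (.s k85 k170 14 (.s k86 k66 5 (.d k87 k171 k84 13 0))), (.s k2 k1 0 (.s
  k12 k8 1 (.s k6 k9 2 (.s k10 k14 1 (.d k5 k7 k15 0 2)))))] (.c k85 (.l (.s k1 k2 0 (.s k65 k193 7
  (.s k195 k130 8 (.s k67 k131 7 (.d k66 k64 k86 0 5)))))) .n)) .n))) .n))))) (.c k212 (.q k232 [(.s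
  k2 k1 0 (.s k12 k8 1 (.s k6 k9 2 (.s k10 k14 1 (.d k5 k7 k15 0 2))))), (.s k12 k8 1 (.s k85 k170
  14 (.s k166 k247 12 (.s k89 k243 14 (.d k93 k81 k174 1 12))))), (.s k1 k2 0 (.s k85 k170 14 (.s
  k169 k253 13 (.s k87 k171 13 (.s k106 k43 8 (.d k86 k84 k66 0 5))))))] (.c k106 (.q k149 [(.s k2
  k1 0 (.s k12 k8 1 (.s k6 k9 2 (.s k10 k14 1 (.d k5 k7 k15 0 2))))), (.s k12 k8 1 (.s k85 k170 14
  (.s k166 k247 12 (.s k89 k243 14 (.d k93 k81 k174 1 12))))), (.s k85 k170 14 (.s k87 k171 13 (.s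
  k247 k166 12 (.s k7 k167 11 (.s k15 k11 1 (.d k5 k6 k10 0 2))))))] .n) (.c k149 (.q k106 [(.s k86
  k66 5 (.s k2 k1 0 (.d k170 k254 k85 13 14))), (.s k2 k1 0 (.s k12 k8 1 (.s k6 k9 2 (.s k10 k14 1
  (.d k5 k7 k15 0 2))))), (.s k85 k170 14 (.s k87 k171 13 (.d k86 k84 k66 0 5)))] (.c k23 (.l (.s
  k86 k66 5 (.s k2 k1 0 (.d k170 k254 k85 13 14)))) (.c k86 (.q k23 [(.s k1 k2 0 (.s k169 k43 8 (.d
  k85 k170 k253 14 13))), (.s k2 k1 0 (.s k12 k8 1 (.s k6 k9 2 (.s k10 k14 1 (.d k5 k7 k15 0 2))))),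
  (.s k170 k85 14 (.s k169 k43 8 (.d k171 k87 k168 13 0)))] (.c k129 (.l (.s k169 k43 8 (.s k1 k2 0
  (.d k85 k170 k253 14 13)))) (.c k169 (.q k129 [(.s k2 k1 0 (.s k12 k8 1 (.s k6 k9 2 (.s k10 k14 1
  (.d k5 k7 k15 0 2))))), (.s k1 k2 0 (.s k65 k193 7 (.s k195 k130 8 (.s k87 k171 13 (.d k215 k235
  k151 5 7)))))] (.c k1 (.l (.s k12 k8 1 (.s k85 k170 14 (.s k166 k247 12 (.s k89 k243 14 (.d k93
  k81 k174 1 12)))))) (.c k2 (.l (.s k170 k85 14 (.s k87 k171 13 (.s k215 k151 7 (.s k234 k42 7 (.d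
  k235 k195 k233 5 0)))))) .n))) .n))) (.c k129 (.l (.s k169 k43 8 (.s k1 k2 0 (.d k85 k253 k170 13
  14)))) (.c k169 (.q k129 [(.s k2 k1 0 (.s k86 k66 5 (.d k170 k85 k254 14 13))), (.s k85 k170 14
  (.s k86 k66 5 (.d k87 k171 k84 13 0))), (.s k1 k2 0 (.s k65 k193 7 (.s k195 k130 8 (.s k67 k131 7
  (.d k66 k86 k64 5 0)))))] (.c k23 (.l (.s k86 k66 5 (.s k2 k1 0 (.d k170 k85 k254 14 13)))) (.c
  k66 (.l (.s k1 k2 0 (.s k85 k170 14 (.s k65 k193 7 (.s k127 k64 6 (.d k125 k105 k124 5 0)))))) (.c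
  k86 (.q k23 [(.s k2 k1 0 (.s k12 k8 1 (.s k6 k9 2 (.s k10 k14 1 (.d k5 k7 k15 0 2))))), (.s k1 k2
  0 (.s k65 k193 7 (.s k195 k130 8 (.s k87 k171 13 (.d k215 k235 k151 5 7)))))] (.c k1 (.l (.s k12
  k8 1 (.s k85 k170 14 (.s k166 k247 12 (.s k89 k243 14 (.d k93 k81 k174 1 12)))))) (.c k2 (.l (.s
  k170 k85 14 (.s k87 k171 13 (.s k215 k151 7 (.s k234 k42 7 (.d k235 k195 k233 5 0)))))) .n)))
  .n)))) .n))))) .n))) (.c k232 (.q k212 [(.s k2 k1 0 (.s k12 k8 1 (.s k6 k9 2 (.s k10 k14 1 (.d k5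
  k7 k15 0 2))))), (.s k12 k8 1 (.s k85 k170 14 (.s k166 k247 12 (.s k89 k243 14 (.d k93 k81 k174 1
  12))))), (.s k85 k170 14 (.s k87 k171 13 (.s k247 k166 12 (.s k7 k167 11 (.s k15 k11 1 (.d k5 k6
  k10 0 2))))))] (.c k106 (.q k149 [(.s k2 k1 0 (.s k86 k23 8 (.d k170 k254 k85 13 14))), (.s k2 k1
  0 (.s k12 k8 1 (.s k6 k9 2 (.s k10 k14 1 (.d k5 k7 k15 0 2))))), (.s k85 k170 14 (.s k87 k171 13
  (.d k86 k84 k23 0 8)))] (.c k43 (.q k169 [(.s k1 k2 0 (.d k85 k253 k170 13 14)), (.s k170 k85 14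
  (.d k171 k168 k87 0 13))] (.c k85 (.l (.s k2 k1 0 (.s k171 k87 13 (.s k86 k23 8 (.d k170 k168 k254
  0 13))))) (.c k170 (.l (.s k1 k2 0 (.s k85 k253 13 (.s k87 k171 13 (.d k86 k84 k23 0 8))))) .n)))
  (.c k169 (.q k43 [(.s k2 k1 0 (.s k86 k23 8 (.d k170 k85 k254 14 13))), (.s k12 k8 1 (.s k6 k9 2
  (.s k5 k7 0 (.s k10 k15 2 (.d k2 k1 k14 0 1))))), (.s k85 k170 14 (.s k86 k23 8 (.d k87 k171 k84
  13 0)))] .n) .n))) (.c k149 (.q k106 [(.s k2 k1 0 (.s k86 k66 5 (.d k170 k254 k85 13 14))), (.s k2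
  k1 0 (.s k12 k8 1 (.s k6 k9 2 (.s k10 k14 1 (.d k5 k7 k15 0 2))))), (.s k85 k170 14 (.s k87 k171
  13 (.d k86 k84 k66 0 5)))] (.c k129 (.q k169 [(.s k1 k2 0 (.d k85 k253 k170 13 14)), (.s k170 k85
  14 (.d k171 k168 k87 0 13))] (.c k85 (.l (.s k2 k1 0 (.s k171 k87 13 (.s k86 k66 5 (.d k170 k168
  k254 0 13))))) (.c k170 (.l (.s k1 k2 0 (.s k85 k253 13 (.s k87 k171 13 (.d k86 k84 k66 0 5)))))
  .n))) (.c k169 (.q k129 [(.s k2 k1 0 (.s k86 k66 5 (.d k170 k85 k254 14 13))), (.s k85 k170 14 (.s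
  k86 k66 5 (.d k87 k171 k84 13 0))), (.s k2 k1 0 (.s k12 k8 1 (.s k6 k9 2 (.s k10 k14 1 (.d k5 k7
  k15 0 2)))))] (.c k85 (.l (.s k1 k2 0 (.s k65 k193 7 (.s k195 k130 8 (.s k67 k131 7 (.d k66 k64
  k86 0 5)))))) .n)) .n))) .n))) .n))))) (.c k212 (.q k232 [(.s k2 k1 0 (.s k12 k8 1 (.s k6 k9 2 (.s
  k10 k14 1 (.d k5 k7 k15 0 2))))), (.s k12 k8 1 (.s k85 k170 14 (.s k166 k247 12 (.s k89 k243 14
  (.d k93 k81 k174 1 12))))), (.s k85 k170 14 (.s k87 k171 13 (.s k247 k166 12 (.s k7 k167 11 (.s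
  k15 k11 1 (.d k5 k6 k10 0 2))))))] (.c k106 (.q k149 [(.s k2 k1 0 (.s k12 k8 1 (.s k6 k9 2 (.s k10
  k14 1 (.d k5 k7 k15 0 2))))), (.s k12 k8 1 (.s k85 k170 14 (.s k166 k247 12 (.s k89 k243 14 (.d
  k93 k81 k174 1 12))))), (.s k85 k170 14 (.s k87 k171 13 (.s k247 k166 12 (.s k7 k167 11 (.s k15
  k11 1 (.d k5 k6 k10 0 2))))))] (.c k126 (.q k189 [(.s k1 k2 0 (.s k169 k129 5 (.d k85 k253 k170 13
  14))), (.s k2 k1 0 (.s k12 k8 1 (.s k6 k9 2 (.s k10 k14 1 (.d k5 k7 k15 0 2))))), (.s k170 k85 14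
  (.s k171 k87 13 (.d k169 k168 k129 0 5)))] (.c k66 (.q k86 [(.s k2 k1 0 (.d k170 k254 k85 13 14)),
  (.s k85 k170 14 (.d k87 k84 k171 0 13))] (.c k85 (.l (.s k2 k1 0 (.s k170 k254 13 (.s k171 k87 13
  (.d k169 k168 k129 0 5))))) (.c k170 (.l (.s k1 k2 0 (.s k87 k171 13 (.s k85 k84 0 (.d k169 k129
  k253 5 13))))) .n))) (.c k86 (.q k66 [(.s k1 k2 0 (.s k169 k129 5 (.d k85 k170 k253 14 13))), (.s
  k2 k1 0 (.s k12 k8 1 (.s k6 k9 2 (.s k10 k14 1 (.d k5 k7 k15 0 2))))), (.s k170 k85 14 (.s k169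
  k129 5 (.d k171 k87 k168 13 0)))] .n) .n))) (.c k189 (.q k126 [(.s k2 k1 0 (.s k12 k8 1 (.s k6 k9
  2 (.s k10 k14 1 (.d k5 k7 k15 0 2))))), (.s k12 k8 1 (.s k85 k170 14 (.s k166 k247 12 (.s k89 k243
  14 (.d k93 k81 k174 1 12))))), (.s k85 k170 14 (.s k87 k171 13 (.s k247 k166 12 (.s k7 k167 11 (.s
  k15 k11 1 (.d k5 k6 k10 0 2))))))] .n) .n))) (.c k126 (.q k189 [(.s k2 k1 0 (.s k12 k8 1 (.s k6 k9
  2 (.s k10 k14 1 (.d k5 k7 k15 0 2))))), (.s k12 k8 1 (.s k85 k170 14 (.s k166 k247 12 (.s k89 k243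
  14 (.d k93 k81 k174 1 12))))), (.s k85 k170 14 (.s k87 k171 13 (.s k247 k166 12 (.s k7 k167 11 (.s
  k15 k11 1 (.d k5 k6 k10 0 2))))))] (.c k106 (.q k149 [(.s k1 k2 0 (.s k169 k129 5 (.d k85 k253
  k170 13 14))), (.s k2 k1 0 (.s k12 k8 1 (.s k6 k9 2 (.s k10 k14 1 (.d k5 k7 k15 0 2))))), (.s k170
  k85 14 (.s k171 k87 13 (.d k169 k168 k129 0 5)))] (.c k66 (.q k86 [(.s k2 k1 0 (.d k170 k254 k85
  13 14)), (.s k85 k170 14 (.d k87 k84 k171 0 13))] (.c k85 (.l (.s k2 k1 0 (.s k170 k254 13 (.s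
  k171 k87 13 (.d k169 k168 k129 0 5))))) (.c k170 (.l (.s k1 k2 0 (.s k87 k171 13 (.s k85 k84 0 (.d
  k169 k129 k253 5 13))))) .n))) (.c k86 (.q k66 [(.s k1 k2 0 (.s k169 k129 5 (.d k85 k170 k253 14
  13))), (.s k2 k1 0 (.s k12 k8 1 (.s k6 k9 2 (.s k10 k14 1 (.d k5 k7 k15 0 2))))), (.s k170 k85 14
  (.s k169 k129 5 (.d k171 k87 k168 13 0)))] .n) .n))) (.c k149 (.q k106 [(.s k1 k2 0 (.s k169 k43 8
  (.d k85 k253 k170 13 14))), (.s k2 k1 0 (.s k12 k8 1 (.s k6 k9 2 (.s k10 k14 1 (.d k5 k7 k15 0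
  2))))), (.s k170 k85 14 (.s k171 k87 13 (.d k169 k168 k43 0 8)))] (.c k23 (.q k86 [(.s k2 k1 0 (.d
  k170 k254 k85 13 14)), (.s k85 k170 14 (.d k87 k84 k171 0 13))] (.c k85 (.l (.s k2 k1 0 (.s k170
  k254 13 (.s k171 k87 13 (.d k169 k168 k43 0 8))))) (.c k170 (.l (.s k1 k2 0 (.s k87 k171 13 (.s
  k169 k43 8 (.d k85 k84 k253 0 13))))) .n))) (.c k86 (.q k23 [(.s k1 k2 0 (.s k169 k43 8 (.d k85
  k170 k253 14 13))), (.s k2 k1 0 (.s k12 k8 1 (.s k6 k9 2 (.s k10 k14 1 (.d k5 k7 k15 0 2))))), (.s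
  k170 k85 14 (.s k169 k43 8 (.d k171 k87 k168 13 0)))] .n) .n))) .n))) (.c k149 (.q k106 [(.s k1 k2
  0 (.s k169 k43 8 (.d k85 k253 k170 13 14))), (.s k2 k1 0 (.s k12 k8 1 (.s k6 k9 2 (.s k10 k14 1
  (.d k5 k7 k15 0 2))))), (.s k170 k85 14 (.s k171 k87 13 (.d k169 k168 k43 0 8)))] (.c k23 (.q k86
  [(.s k2 k1 0 (.d k170 k254 k85 13 14)), (.s k85 k170 14 (.d k87 k84 k171 0 13))] (.c k85 (.l (.s
  k2 k1 0 (.s k170 k254 13 (.s k171 k87 13 (.d k169 k168 k43 0 8))))) (.c k126 (.q k189 [(.s k2 k1 0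
  (.d k170 k254 k85 13 14)), (.s k85 k170 14 (.d k87 k84 k171 0 13))] (.c k85 (.l (.s k2 k1 0 (.s
  k170 k254 13 (.s k171 k87 13 (.d k169 k168 k43 0 8))))) (.c k170 (.l (.s k1 k2 0 (.s k87 k171 13
  (.s k169 k43 8 (.d k85 k84 k253 0 13))))) .n))) (.c k170 (.l (.s k1 k2 0 (.s k87 k171 13 (.s k169
  k43 8 (.d k85 k84 k253 0 13))))) (.c k189 (.l (.s k126 k66 5 (.s k2 k1 0 (.d k170 k254 k85 13
  14)))) .n))))) (.c k86 (.q k23 [(.s k1 k2 0 (.s k169 k43 8 (.d k85 k170 k253 14 13))), (.s k2 k1 0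
  (.s k12 k8 1 (.s k6 k9 2 (.s k10 k14 1 (.d k5 k7 k15 0 2))))), (.s k170 k85 14 (.s k169 k43 8 (.d
  k171 k87 k168 13 0)))] (.c k126 (.q k189 [(.s k1 k2 0 (.s k169 k43 8 (.d k85 k170 k253 14 13))),
  (.s k2 k1 0 (.s k12 k8 1 (.s k6 k9 2 (.s k10 k14 1 (.d k5 k7 k15 0 2))))), (.s k170 k85 14 (.s
  k169 k43 8 (.d k171 k87 k168 13 0)))] .n) (.c k189 (.q k126 [(.s k1 k2 0 (.s k169 k43 8 (.d k85
  k170 k253 14 13))), (.s k2 k1 0 (.s k12 k8 1 (.s k6 k9 2 (.s k10 k14 1 (.d k5 k7 k15 0 2))))), (.s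
  k170 k85 14 (.s k169 k43 8 (.d k171 k87 k168 13 0)))] (.c k129 (.l (.s k169 k43 8 (.s k1 k2 0 (.d
  k85 k170 k253 14 13)))) (.c k169 (.q k129 [(.s k2 k1 0 (.s k12 k8 1 (.s k6 k9 2 (.s k10 k14 1 (.d
  k5 k7 k15 0 2))))), (.s k1 k2 0 (.s k65 k193 7 (.s k195 k130 8 (.s k87 k171 13 (.d k215 k235 k151
  5 7)))))] (.c k1 (.l (.s k12 k8 1 (.s k85 k170 14 (.s k166 k247 12 (.s k89 k243 14 (.d k93 k81
  k174 1 12)))))) (.c k2 (.l (.s k170 k85 14 (.s k87 k171 13 (.s k215 k151 7 (.s k234 k42 7 (.d k235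
  k195 k233 5 0)))))) .n))) .n))) .n))) (.c k126 (.q k189 [(.s k1 k2 0 (.s k169 k43 8 (.d k85 k253
  k170 13 14))), (.s k2 k1 0 (.s k12 k8 1 (.s k6 k9 2 (.s k10 k14 1 (.d k5 k7 k15 0 2))))), (.s k170
  k85 14 (.s k171 k87 13 (.d k169 k168 k43 0 8)))] (.c k23 (.q k86 [(.s k2 k1 0 (.d k170 k254 k85 13
  14)), (.s k85 k170 14 (.d k87 k84 k171 0 13))] (.c k85 (.l (.s k2 k1 0 (.s k170 k254 13 (.s k171
  k87 13 (.d k169 k168 k43 0 8))))) (.c k170 (.l (.s k1 k2 0 (.s k87 k171 13 (.s k169 k43 8 (.d k85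
  k84 k253 0 13))))) .n))) (.c k86 (.q k23 [(.s k1 k2 0 (.s k169 k43 8 (.d k85 k170 k253 14 13))),
  (.s k2 k1 0 (.s k12 k8 1 (.s k6 k9 2 (.s k10 k14 1 (.d k5 k7 k15 0 2))))), (.s k170 k85 14 (.s
  k169 k43 8 (.d k171 k87 k168 13 0)))] .n) .n))) (.c k189 (.q k126 [(.s k86 k66 5 (.s k2 k1 0 (.d
  k170 k254 k85 13 14))), (.s k2 k1 0 (.s k12 k8 1 (.s k6 k9 2 (.s k10 k14 1 (.d k5 k7 k15 0 2))))),
  (.s k85 k170 14 (.s k87 k171 13 (.d k86 k84 k66 0 5)))] (.c k23 (.l (.s k86 k66 5 (.s k2 k1 0 (.d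
  k170 k254 k85 13 14)))) (.c k86 (.q k23 [(.s k1 k2 0 (.s k169 k43 8 (.d k85 k170 k253 14 13))),
  (.s k2 k1 0 (.s k12 k8 1 (.s k6 k9 2 (.s k10 k14 1 (.d k5 k7 k15 0 2))))), (.s k170 k85 14 (.s
  k169 k43 8 (.d k171 k87 k168 13 0)))] (.c k129 (.l (.s k169 k43 8 (.s k1 k2 0 (.d k85 k170 k253 14
  13)))) (.c k169 (.q k129 [(.s k2 k1 0 (.s k12 k8 1 (.s k6 k9 2 (.s k10 k14 1 (.d k5 k7 k15 0
  2))))), (.s k1 k2 0 (.s k65 k193 7 (.s k195 k130 8 (.s k87 k171 13 (.d k215 k235 k151 5 7)))))]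
  (.c k1 (.l (.s k12 k8 1 (.s k85 k170 14 (.s k166 k247 12 (.s k89 k243 14 (.d k93 k81 k174 1
  12)))))) (.c k2 (.l (.s k170 k85 14 (.s k87 k171 13 (.s k215 k151 7 (.s k234 k42 7 (.d k235 k195
  k233 5 0)))))) .n))) .n))) (.c k129 (.l (.s k169 k43 8 (.s k1 k2 0 (.d k85 k253 k170 13 14)))) (.c
  k169 (.q k129 [(.s k2 k1 0 (.s k86 k66 5 (.d k170 k85 k254 14 13))), (.s k85 k170 14 (.s k86 k66 5
  (.d k87 k171 k84 13 0))), (.s k1 k2 0 (.s k65 k193 7 (.s k195 k130 8 (.s k67 k131 7 (.d k66 k86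
  k64 5 0)))))] (.c k23 (.l (.s k86 k66 5 (.s k2 k1 0 (.d k170 k85 k254 14 13)))) (.c k66 (.l (.s k1
  k2 0 (.s k85 k170 14 (.s k65 k193 7 (.s k127 k64 6 (.d k125 k105 k124 5 0)))))) (.c k86 (.q k23
  [(.s k2 k1 0 (.s k12 k8 1 (.s k6 k9 2 (.s k10 k14 1 (.d k5 k7 k15 0 2))))), (.s k1 k2 0 (.s k65
  k193 7 (.s k195 k130 8 (.s k87 k171 13 (.d k215 k235 k151 5 7)))))] (.c k1 (.l (.s k12 k8 1 (.s
  k85 k170 14 (.s k166 k247 12 (.s k89 k243 14 (.d k93 k81 k174 1 12)))))) (.c k2 (.l (.s k170 k85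
  14 (.s k87 k171 13 (.s k215 k151 7 (.s k234 k42 7 (.d k235 k195 k233 5 0)))))) .n))) .n))))
  .n))))) .n))))) (.c k189 (.q k126 [(.s k2 k1 0 (.s k12 k8 1 (.s k6 k9 2 (.s k10 k14 1 (.d k5 k7
  k15 0 2))))), (.s k12 k8 1 (.s k85 k170 14 (.s k166 k247 12 (.s k89 k243 14 (.d k93 k81 k174 1
  12))))), (.s k1 k2 0 (.s k85 k170 14 (.s k169 k253 13 (.s k87 k171 13 (.s k106 k43 8 (.d k86 k84
  k66 0 5))))))] (.c k106 (.q k149 [(.s k2 k1 0 (.s k12 k8 1 (.s k6 k9 2 (.s k10 k14 1 (.d k5 k7 k15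
  0 2))))), (.s k12 k8 1 (.s k85 k170 14 (.s k166 k247 12 (.s k89 k243 14 (.d k93 k81 k174 1
  12))))), (.s k85 k170 14 (.s k87 k171 13 (.s k247 k166 12 (.s k7 k167 11 (.s k15 k11 1 (.d k5 k6
  k10 0 2))))))] .n) (.c k149 (.q k106 [(.s k86 k66 5 (.s k2 k1 0 (.d k170 k254 k85 13 14))), (.s k2
  k1 0 (.s k12 k8 1 (.s k6 k9 2 (.s k10 k14 1 (.d k5 k7 k15 0 2))))), (.s k85 k170 14 (.s k87 k171
  13 (.d k86 k84 k66 0 5)))] (.c k23 (.l (.s k86 k66 5 (.s k2 k1 0 (.d k170 k254 k85 13 14)))) (.c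
  k86 (.q k23 [(.s k1 k2 0 (.s k169 k43 8 (.d k85 k170 k253 14 13))), (.s k2 k1 0 (.s k12 k8 1 (.s
  k6 k9 2 (.s k10 k14 1 (.d k5 k7 k15 0 2))))), (.s k170 k85 14 (.s k169 k43 8 (.d k171 k87 k168 13
  0)))] (.c k129 (.l (.s k169 k43 8 (.s k1 k2 0 (.d k85 k170 k253 14 13)))) (.c k169 (.q k129 [(.s
  k2 k1 0 (.s k12 k8 1 (.s k6 k9 2 (.s k10 k14 1 (.d k5 k7 k15 0 2))))), (.s k1 k2 0 (.s k65 k193 7
  (.s k195 k130 8 (.s k87 k171 13 (.d k215 k235 k151 5 7)))))] (.c k1 (.l (.s k12 k8 1 (.s k85 k170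
  14 (.s k166 k247 12 (.s k89 k243 14 (.d k93 k81 k174 1 12)))))) (.c k2 (.l (.s k170 k85 14 (.s k87
  k171 13 (.s k215 k151 7 (.s k234 k42 7 (.d k235 k195 k233 5 0)))))) .n))) .n))) (.c k129 (.l (.s
  k169 k43 8 (.s k1 k2 0 (.d k85 k253 k170 13 14)))) (.c k169 (.q k129 [(.s k2 k1 0 (.s k86 k66 5
  (.d k170 k85 k254 14 13))), (.s k85 k170 14 (.s k86 k66 5 (.d k87 k171 k84 13 0))), (.s k1 k2 0
  (.s k65 k193 7 (.s k195 k130 8 (.s k67 k131 7 (.d k66 k86 k64 5 0)))))] (.c k23 (.l (.s k86 k66 5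
  (.s k2 k1 0 (.d k170 k85 k254 14 13)))) (.c k66 (.l (.s k1 k2 0 (.s k85 k170 14 (.s k65 k193 7 (.s
  k127 k64 6 (.d k125 k105 k124 5 0)))))) (.c k86 (.q k23 [(.s k2 k1 0 (.s k12 k8 1 (.s k6 k9 2 (.s
  k10 k14 1 (.d k5 k7 k15 0 2))))), (.s k1 k2 0 (.s k65 k193 7 (.s k195 k130 8 (.s k87 k171 13 (.d
  k215 k235 k151 5 7)))))] (.c k1 (.l (.s k12 k8 1 (.s k85 k170 14 (.s k166 k247 12 (.s k89 k243 14
  (.d k93 k81 k174 1 12)))))) (.c k2 (.l (.s k170 k85 14 (.s k87 k171 13 (.s k215 k151 7 (.s k234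
  k42 7 (.d k235 k195 k233 5 0)))))) .n))) .n)))) .n))))) .n))) .n))))) (.c k232 (.q k212 [(.s k2 k1
  0 (.s k12 k8 1 (.s k6 k9 2 (.s k10 k14 1 (.d k5 k7 k15 0 2))))), (.s k12 k8 1 (.s k85 k170 14 (.s
  k166 k247 12 (.s k89 k243 14 (.d k93 k81 k174 1 12))))), (.s k85 k170 14 (.s k87 k171 13 (.s k247
  k166 12 (.s k7 k167 11 (.s k15 k11 1 (.d k5 k6 k10 0 2))))))] (.c k106 (.q k149 [(.s k2 k1 0 (.s
  k86 k23 8 (.d k170 k254 k85 13 14))), (.s k2 k1 0 (.s k12 k8 1 (.s k6 k9 2 (.s k10 k14 1 (.d k5 k7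
  k15 0 2))))), (.s k85 k170 14 (.s k87 k171 13 (.d k86 k84 k23 0 8)))] (.c k43 (.q k169 [(.s k1 k2
  0 (.d k85 k253 k170 13 14)), (.s k170 k85 14 (.d k171 k168 k87 0 13))] (.c k85 (.l (.s k2 k1 0 (.s
  k171 k87 13 (.s k86 k23 8 (.d k170 k168 k254 0 13))))) (.c k126 (.l (.s k189 k129 5 (.s k1 k2 0
  (.d k85 k253 k170 13 14)))) (.c k170 (.l (.s k1 k2 0 (.s k85 k253 13 (.s k87 k171 13 (.d k86 k84
  k23 0 8))))) (.c k189 (.q k126 [(.s k1 k2 0 (.d k85 k253 k170 13 14)), (.s k170 k85 14 (.d k171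
  k168 k87 0 13))] (.c k85 (.l (.s k2 k1 0 (.s k171 k87 13 (.s k86 k23 8 (.d k170 k168 k254 0
  13))))) (.c k170 (.l (.s k1 k2 0 (.s k85 k253 13 (.s k87 k171 13 (.d k86 k84 k23 0 8))))) .n)))
  .n))))) (.c k126 (.q k189 [(.s k1 k2 0 (.s k169 k129 5 (.d k85 k253 k170 13 14))), (.s k85 k170 14
  (.s k87 k171 13 (.d k86 k84 k23 0 8))), (.s k2 k1 0 (.s k12 k8 1 (.s k6 k9 2 (.s k10 k14 1 (.d k5
  k7 k15 0 2)))))] (.c k43 (.l (.s k169 k129 5 (.s k1 k2 0 (.d k85 k253 k170 13 14)))) (.c k66 (.l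
  (.s k86 k23 8 (.s k2 k1 0 (.d k170 k254 k85 13 14)))) (.c k86 (.q k66 [(.s k1 k2 0 (.s k169 k129 5
  (.d k85 k170 k253 14 13))), (.s k2 k1 0 (.s k12 k8 1 (.s k6 k9 2 (.s k10 k14 1 (.d k5 k7 k15 0
  2))))), (.s k170 k85 14 (.s k169 k129 5 (.d k171 k87 k168 13 0)))] (.c k43 (.l (.s k169 k129 5 (.s
  k1 k2 0 (.d k85 k170 k253 14 13)))) (.c k169 (.q k43 [(.s k2 k1 0 (.s k12 k8 1 (.s k6 k9 2 (.s k10
  k14 1 (.d k5 k7 k15 0 2))))), (.s k171 k87 13 (.s k235 k107 7 (.s k195 k215 5 (.s k65 k130 8 (.d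
  k67 k64 k131 0 7)))))] (.c k85 (.l (.s k12 k8 1 (.s k6 k9 2 (.s k5 k7 0 (.s k10 k15 2 (.d k2 k1
  k14 0 1)))))) .n)) .n))) (.c k169 (.q k43 [(.s k2 k1 0 (.s k86 k23 8 (.d k170 k85 k254 14 13))),
  (.s k12 k8 1 (.s k6 k9 2 (.s k5 k7 0 (.s k10 k15 2 (.d k2 k1 k14 0 1))))), (.s k85 k170 14 (.s k86
  k23 8 (.d k87 k171 k84 13 0)))] (.c k66 (.l (.s k86 k23 8 (.s k2 k1 0 (.d k170 k85 k254 14 13))))
  (.c k86 (.q k66 [(.s k2 k1 0 (.s k12 k8 1 (.s k6 k9 2 (.s k10 k14 1 (.d k5 k7 k15 0 2))))), (.s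
  k171 k87 13 (.s k235 k107 7 (.s k195 k215 5 (.s k65 k130 8 (.d k67 k64 k131 0 7)))))] (.c k85 (.l
  (.s k12 k8 1 (.s k6 k9 2 (.s k5 k7 0 (.s k10 k15 2 (.d k2 k1 k14 0 1)))))) .n)) .n))) .n))))) (.c
  k169 (.q k43 [(.s k2 k1 0 (.s k86 k23 8 (.d k170 k85 k254 14 13))), (.s k12 k8 1 (.s k6 k9 2 (.s
  k5 k7 0 (.s k10 k15 2 (.d k2 k1 k14 0 1))))), (.s k85 k170 14 (.s k86 k23 8 (.d k87 k171 k84 13
  0)))] (.c k126 (.q k189 [(.s k2 k1 0 (.s k86 k23 8 (.d k170 k85 k254 14 13))), (.s k12 k8 1 (.s k6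
  k9 2 (.s k5 k7 0 (.s k10 k15 2 (.d k2 k1 k14 0 1))))), (.s k85 k170 14 (.s k86 k23 8 (.d k87 k171
  k84 13 0)))] (.c k66 (.l (.s k86 k23 8 (.s k2 k1 0 (.d k170 k85 k254 14 13)))) (.c k86 (.q k66
  [(.s k2 k1 0 (.s k12 k8 1 (.s k6 k9 2 (.s k10 k14 1 (.d k5 k7 k15 0 2))))), (.s k171 k87 13 (.s
  k235 k107 7 (.s k195 k215 5 (.s k65 k130 8 (.d k67 k64 k131 0 7)))))] (.c k85 (.l (.s k12 k8 1 (.s
  k6 k9 2 (.s k5 k7 0 (.s k10 k15 2 (.d k2 k1 k14 0 1)))))) .n)) .n))) (.c k189 (.q k126 [(.s k2 k1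
  0 (.s k86 k23 8 (.d k170 k85 k254 14 13))), (.s k12 k8 1 (.s k6 k9 2 (.s k5 k7 0 (.s k10 k15 2 (.d
  k2 k1 k14 0 1))))), (.s k85 k170 14 (.s k86 k23 8 (.d k87 k171 k84 13 0)))] .n) .n))) (.c k189 (.q
  k126 [(.s k2 k1 0 (.s k86 k23 8 (.d k170 k254 k85 13 14))), (.s k2 k1 0 (.s k12 k8 1 (.s k6 k9 2
  (.s k10 k14 1 (.d k5 k7 k15 0 2))))), (.s k85 k170 14 (.s k87 k171 13 (.d k86 k84 k23 0 8)))] (.c
  k43 (.q k169 [(.s k1 k2 0 (.d k85 k253 k170 13 14)), (.s k170 k85 14 (.d k171 k168 k87 0 13))] (.c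
  k85 (.l (.s k2 k1 0 (.s k171 k87 13 (.s k86 k23 8 (.d k170 k168 k254 0 13))))) (.c k170 (.l (.s k1
  k2 0 (.s k85 k253 13 (.s k87 k171 13 (.d k86 k84 k23 0 8))))) .n))) (.c k169 (.q k43 [(.s k2 k1 0
  (.s k86 k23 8 (.d k170 k85 k254 14 13))), (.s k12 k8 1 (.s k6 k9 2 (.s k5 k7 0 (.s k10 k15 2 (.d
  k2 k1 k14 0 1))))), (.s k85 k170 14 (.s k86 k23 8 (.d k87 k171 k84 13 0)))] .n) .n))) .n))))) (.c
  k126 (.q k189 [(.s k2 k1 0 (.s k12 k8 1 (.s k6 k9 2 (.s k10 k14 1 (.d k5 k7 k15 0 2))))), (.s k12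
  k8 1 (.s k85 k170 14 (.s k166 k247 12 (.s k89 k243 14 (.d k93 k81 k174 1 12))))), (.s k1 k2 0 (.s
  k85 k170 14 (.s k169 k253 13 (.s k87 k171 13 (.s k86 k84 0 (.d k149 k129 k23 5 8))))))] (.c k106
  (.q k149 [(.s k1 k2 0 (.s k169 k129 5 (.d k85 k253 k170 13 14))), (.s k85 k170 14 (.s k87 k171 13
  (.d k86 k84 k23 0 8))), (.s k2 k1 0 (.s k12 k8 1 (.s k6 k9 2 (.s k10 k14 1 (.d k5 k7 k15 0 2)))))]
  (.c k43 (.l (.s k169 k129 5 (.s k1 k2 0 (.d k85 k253 k170 13 14)))) (.c k66 (.l (.s k86 k23 8 (.s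
  k2 k1 0 (.d k170 k254 k85 13 14)))) (.c k86 (.q k66 [(.s k1 k2 0 (.s k169 k129 5 (.d k85 k170 k253
  14 13))), (.s k2 k1 0 (.s k12 k8 1 (.s k6 k9 2 (.s k10 k14 1 (.d k5 k7 k15 0 2))))), (.s k170 k85
  14 (.s k169 k129 5 (.d k171 k87 k168 13 0)))] (.c k43 (.l (.s k169 k129 5 (.s k1 k2 0 (.d k85 k170
  k253 14 13)))) (.c k169 (.q k43 [(.s k2 k1 0 (.s k12 k8 1 (.s k6 k9 2 (.s k10 k14 1 (.d k5 k7 k15
  0 2))))), (.s k171 k87 13 (.s k235 k107 7 (.s k195 k215 5 (.s k65 k130 8 (.d k67 k64 k131 0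
  7)))))] (.c k85 (.l (.s k12 k8 1 (.s k6 k9 2 (.s k5 k7 0 (.s k10 k15 2 (.d k2 k1 k14 0 1))))))
  .n)) .n))) (.c k169 (.q k43 [(.s k2 k1 0 (.s k86 k23 8 (.d k170 k85 k254 14 13))), (.s k12 k8 1
  (.s k6 k9 2 (.s k5 k7 0 (.s k10 k15 2 (.d k2 k1 k14 0 1))))), (.s k85 k170 14 (.s k86 k23 8 (.d
  k87 k171 k84 13 0)))] (.c k66 (.l (.s k86 k23 8 (.s k2 k1 0 (.d k170 k85 k254 14 13)))) (.c k86
  (.q k66 [(.s k2 k1 0 (.s k12 k8 1 (.s k6 k9 2 (.s k10 k14 1 (.d k5 k7 k15 0 2))))), (.s k171 k87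
  13 (.s k235 k107 7 (.s k195 k215 5 (.s k65 k130 8 (.d k67 k64 k131 0 7)))))] (.c k85 (.l (.s k12
  k8 1 (.s k6 k9 2 (.s k5 k7 0 (.s k10 k15 2 (.d k2 k1 k14 0 1)))))) .n)) .n))) .n))))) (.c k149 (.q
  k106 [(.s k2 k1 0 (.s k12 k8 1 (.s k6 k9 2 (.s k10 k14 1 (.d k5 k7 k15 0 2))))), (.s k12 k8 1 (.s
  k85 k170 14 (.s k166 k247 12 (.s k89 k243 14 (.d k93 k81 k174 1 12))))), (.s k85 k170 14 (.s k87
  k171 13 (.s k247 k166 12 (.s k7 k167 11 (.s k15 k11 1 (.d k5 k6 k10 0 2))))))] .n) .n))) (.c k149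
  (.q k106 [(.s k2 k1 0 (.s k12 k8 1 (.s k6 k9 2 (.s k10 k14 1 (.d k5 k7 k15 0 2))))), (.s k12 k8 1
  (.s k85 k170 14 (.s k166 k247 12 (.s k89 k243 14 (.d k93 k81 k174 1 12))))), (.s k85 k170 14 (.s
  k87 k171 13 (.s k247 k166 12 (.s k7 k167 11 (.s k15 k11 1 (.d k5 k6 k10 0 2))))))] (.c k126 (.q
  k189 [(.s k2 k1 0 (.s k12 k8 1 (.s k6 k9 2 (.s k10 k14 1 (.d k5 k7 k15 0 2))))), (.s k12 k8 1 (.s
  k85 k170 14 (.s k166 k247 12 (.s k89 k243 14 (.d k93 k81 k174 1 12))))), (.s k85 k170 14 (.s k87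
  k171 13 (.s k247 k166 12 (.s k7 k167 11 (.s k15 k11 1 (.d k5 k6 k10 0 2))))))] .n) (.c k189 (.q
  k126 [(.s k2 k1 0 (.s k86 k66 5 (.d k170 k254 k85 13 14))), (.s k2 k1 0 (.s k12 k8 1 (.s k6 k9 2
  (.s k10 k14 1 (.d k5 k7 k15 0 2))))), (.s k85 k170 14 (.s k87 k171 13 (.d k86 k84 k66 0 5)))] (.c
  k129 (.q k169 [(.s k1 k2 0 (.d k85 k253 k170 13 14)), (.s k170 k85 14 (.d k171 k168 k87 0 13))]
  (.c k85 (.l (.s k2 k1 0 (.s k171 k87 13 (.s k86 k66 5 (.d k170 k168 k254 0 13))))) (.c k170 (.l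
  (.s k1 k2 0 (.s k85 k253 13 (.s k87 k171 13 (.d k86 k84 k66 0 5))))) .n))) (.c k169 (.q k129 [(.s
  k2 k1 0 (.s k86 k66 5 (.d k170 k85 k254 14 13))), (.s k85 k170 14 (.s k86 k66 5 (.d k87 k171 k84
  13 0))), (.s k2 k1 0 (.s k12 k8 1 (.s k6 k9 2 (.s k10 k14 1 (.d k5 k7 k15 0 2)))))] (.c k85 (.l
  (.s k1 k2 0 (.s k65 k193 7 (.s k195 k130 8 (.s k67 k131 7 (.d k66 k64 k86 0 5)))))) .n)) .n)))
  .n))) (.c k189 (.q k126 [(.s k2 k1 0 (.s k12 k8 1 (.s k6 k9 2 (.s k10 k14 1 (.d k5 k7 k15 0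
  2))))), (.s k12 k8 1 (.s k85 k170 14 (.s k166 k247 12 (.s k89 k243 14 (.d k93 k81 k174 1 12))))),
  (.s k85 k170 14 (.s k87 k171 13 (.s k247 k166 12 (.s k7 k167 11 (.s k15 k11 1 (.d k5 k6 k10 0
  2))))))] (.c k106 (.q k149 [(.s k2 k1 0 (.s k86 k23 8 (.d k170 k254 k85 13 14))), (.s k2 k1 0 (.s
  k12 k8 1 (.s k6 k9 2 (.s k10 k14 1 (.d k5 k7 k15 0 2))))), (.s k85 k170 14 (.s k87 k171 13 (.d k86
  k84 k23 0 8)))] (.c k43 (.q k169 [(.s k1 k2 0 (.d k85 k253 k170 13 14)), (.s k170 k85 14 (.d k171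
  k168 k87 0 13))] (.c k85 (.l (.s k2 k1 0 (.s k171 k87 13 (.s k86 k23 8 (.d k170 k168 k254 0
  13))))) (.c k170 (.l (.s k1 k2 0 (.s k85 k253 13 (.s k87 k171 13 (.d k86 k84 k23 0 8))))) .n)))
  (.c k169 (.q k43 [(.s k2 k1 0 (.s k86 k23 8 (.d k170 k85 k254 14 13))), (.s k12 k8 1 (.s k6 k9 2
  (.s k5 k7 0 (.s k10 k15 2 (.d k2 k1 k14 0 1))))), (.s k85 k170 14 (.s k86 k23 8 (.d k87 k171 k84
  13 0)))] .n) .n))) (.c k149 (.q k106 [(.s k2 k1 0 (.s k86 k66 5 (.d k170 k254 k85 13 14))), (.s k2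
  k1 0 (.s k12 k8 1 (.s k6 k9 2 (.s k10 k14 1 (.d k5 k7 k15 0 2))))), (.s k85 k170 14 (.s k87 k171
  13 (.d k86 k84 k66 0 5)))] (.c k129 (.q k169 [(.s k1 k2 0 (.d k85 k253 k170 13 14)), (.s k170 k85
  14 (.d k171 k168 k87 0 13))] (.c k85 (.l (.s k2 k1 0 (.s k171 k87 13 (.s k86 k66 5 (.d k170 k168
  k254 0 13))))) (.c k170 (.l (.s k1 k2 0 (.s k85 k253 13 (.s k87 k171 13 (.d k86 k84 k66 0 5)))))
  .n))) (.c k169 (.q k129 [(.s k2 k1 0 (.s k86 k66 5 (.d k170 k85 k254 14 13))), (.s k85 k170 14 (.s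
  k86 k66 5 (.d k87 k171 k84 13 0))), (.s k2 k1 0 (.s k12 k8 1 (.s k6 k9 2 (.s k10 k14 1 (.d k5 k7
  k15 0 2)))))] (.c k85 (.l (.s k1 k2 0 (.s k65 k193 7 (.s k195 k130 8 (.s k67 k131 7 (.d k66 k64
  k86 0 5)))))) .n)) .n))) .n))) .n))))) .n))))))) (.c k253 (.l (.s k2 k1 0 (.s k171 k87 13 (.s k170
  k85 14 (.s k169 k168 0 (.d k86 k254 k252 13 14)))))) (.c k254 (.l (.s k1 k2 0 (.s k87 k171 13 (.s
  k85 k170 14 (.s k86 k84 0 (.d k169 k253 k252 13 14)))))) .n)))))))))))))))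

def t193 : T TT 256 :=
  (.f k85 k170 14 (.q k153 [(.s k17 k221 9 (.s k51 k34 4 (.s k119 k187 9 (.d k102 k68 k204 4 14))))]
  (.c k17 (.q k207 [(.s k69 k138 10 (.s k101 k117 3 (.s k223 k239 3 (.d k154 k16 k48 10 14)))), (.s
  k69 k138 10 (.s k101 k117 3 (.s k205 k49 13 (.s k204 k206 0 (.s k68 k136 9 (.d k102 k119 k51 4
  14)))))), (.s k223 k239 3 (.s k154 k16 10 (.s k155 k152 0 (.s k51 k103 13 (.s k102 k204 14 (.d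
  k119 k68 k187 4 9))))))] (.c k101 (.f k138 k69 10 (.q k238 [(.s k204 k221 4 (.s k68 k136 9 (.d
  k102 k119 k51 4 14))), (.s k239 k223 3 (.s k237 k236 0 (.s k252 k222 4 (.s k84 k168 13 (.s k86 k87
  0 (.s k169 k3 14 (.d k253 k254 k1 0 13)))))))] (.c k32 (.l (.s k239 k223 3 (.s k204 k221 4 (.s k68
  k136 9 (.d k102 k119 k51 4 14))))) (.c k221 (.l (.s k239 k223 3 (.s k237 k236 0 (.s k222 k252 4
  (.s k206 k254 3 (.s k204 k205 0 (.s k68 k136 9 (.d k102 k119 k51 4 14)))))))) (.c k239 (.q k32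
  [(.s k204 k221 4 (.s k68 k136 9 (.d k102 k119 k51 4 14))), (.s k16 k48 3 (.s k154 k223 10 (.s k152
  k155 0 (.s k84 k220 9 (.s k252 k168 13 (.s k222 k237 4 (.d k86 k87 k18 0 9)))))))] (.c k221 (.l
  (.s k16 k48 3 (.s k154 k223 10 (.s k155 k152 0 (.s k51 k103 13 (.s k119 k187 9 (.d k102 k204 k68
  14 4))))))) .n)) .n))))) (.c k154 (.f k138 k69 10 (.q k60 [(.s k20 k40 5 (.s k150 k215 8 (.s k125
  k190 8 (.d k105 k65 k195 5 14)))), (.s k158 k109 12 (.s k190 k125 8 (.s k174 k142 3 (.s k93 k12 12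
  (.d k223 k239 k28 3 8))))), (.s k20 k40 5 (.s k150 k215 8 (.s k156 k147 2 (.s k204 k108 11 (.s k68
  k136 9 (.d k102 k119 k51 4 14))))))] .n)) .n))) (.c k34 (.l (.s k221 k17 9 (.s k204 k238 4 (.s
  k102 k51 14 (.d k68 k119 k136 4 9))))) (.c k51 (.q k207 [(.s k69 k138 10 (.s k101 k117 3 (.s k223
  k239 3 (.d k154 k16 k48 10 14)))), (.s k69 k138 10 (.s k221 k17 9 (.s k204 k238 4 (.s k205 k206 0
  (.s k1 k137 9 (.d k253 k237 k169 3 13)))))), (.s k221 k17 9 (.s k204 k238 4 (.s k205 k206 0 (.s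
  k101 k49 13 (.d k69 k117 k138 3 10)))))] (.c k55 (.q k59 [(.s k69 k138 10 (.s k101 k117 3 (.s k223
  k239 3 (.d k154 k16 k48 10 14)))), (.s k69 k138 10 (.s k221 k17 9 (.s k204 k238 4 (.s k205 k206 0
  (.s k1 k137 9 (.d k253 k237 k169 3 13)))))), (.s k221 k17 9 (.s k204 k238 4 (.s k205 k206 0 (.s
  k101 k49 13 (.d k69 k117 k138 3 10)))))] (.c k69 (.l (.s k17 k221 9 (.s k223 k239 3 (.s k16 k154
  10 (.s k19 k18 0 (.s k86 k220 10 (.d k87 k84 k155 0 9))))))) (.c k138 (.l (.s k221 k17 9 (.s k204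
  k238 4 (.s k205 k206 0 (.s k101 k49 13 (.s k117 k69 3 (.d k48 k186 k154 10 14))))))) .n))) (.c k59
  (.q k55 [(.s k69 k138 10 (.s k101 k117 3 (.s k223 k239 3 (.d k154 k16 k48 10 14)))), (.s k69 k138
  10 (.s k221 k17 9 (.s k204 k238 4 (.s k205 k206 0 (.s k1 k137 9 (.d k253 k237 k169 3 13)))))), (.s
  k221 k17 9 (.s k204 k238 4 (.s k205 k206 0 (.s k101 k49 13 (.d k69 k117 k138 3 10)))))] (.c k69
  (.l (.s k17 k221 9 (.s k223 k239 3 (.s k16 k154 10 (.s k19 k18 0 (.s k86 k220 10 (.d k87 k84 k155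
  0 9))))))) (.c k138 (.l (.s k221 k17 9 (.s k204 k238 4 (.s k205 k206 0 (.s k101 k49 13 (.s k117
  k69 3 (.d k48 k186 k154 10 14))))))) .n))) (.c k69 (.l (.s k17 k221 9 (.s k223 k239 3 (.s k16 k154
  10 (.s k19 k18 0 (.s k86 k220 10 (.d k87 k84 k155 0 9))))))) (.c k138 (.l (.s k221 k17 9 (.s k204
  k238 4 (.s k205 k206 0 (.s k101 k49 13 (.s k117 k69 3 (.d k48 k186 k154 10 14))))))) .n))))) (.c
  k68 (.q k207 [(.s k69 k138 10 (.s k101 k117 3 (.s k223 k239 3 (.d k154 k16 k48 10 14)))), (.s k17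
  k221 9 (.s k51 k34 4 (.s k155 k103 13 (.s k154 k152 0 (.d k223 k239 k16 3 10))))), (.s k221 k17 9
  (.s k204 k238 4 (.s k205 k206 0 (.s k101 k49 13 (.d k69 k117 k138 3 10)))))] .n) (.c k102 (.q k207
  [(.s k69 k138 10 (.s k101 k117 3 (.s k223 k239 3 (.d k154 k16 k48 10 14)))), (.s k221 k17 9 (.s
  k238 k204 4 (.s k239 k223 3 (.s k237 k236 0 (.s k253 k205 3 (.d k252 k254 k222 0 4)))))), (.s k69
  k138 10 (.s k221 k17 9 (.s k101 k117 3 (.s k205 k49 13 (.d k204 k238 k206 4 0)))))] (.c k34 (.q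
  k238 [(.d k221 k204 k17 4 9), (.s k69 k138 10 (.s k101 k117 3 (.s k154 k48 14 (.d k223 k239 k16 3
  10))))] .n) (.c k238 (.q k34 [(.d k17 k51 k221 4 9), (.s k69 k138 10 (.s k101 k117 3 (.s k154 k48
  14 (.d k223 k239 k16 3 10))))] .n) .n))) (.c k119 (.q k207 [(.s k69 k138 10 (.s k223 k239 3 (.s
  k154 k16 10 (.d k101 k117 k48 3 14)))), (.s k17 k221 9 (.s k51 k34 4 (.s k155 k103 13 (.s k154
  k152 0 (.d k223 k239 k16 3 10))))), (.s k221 k17 9 (.s k204 k238 4 (.s k205 k206 0 (.s k101 k49 13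
  (.d k69 k117 k138 3 10)))))] .n) (.c k187 (.l (.s k221 k17 9 (.s k204 k238 4 (.s k68 k136 9 (.d
  k102 k119 k51 4 14))))) (.c k204 (.q k207 [(.s k69 k138 10 (.s k101 k117 3 (.s k223 k239 3 (.d
  k154 k16 k48 10 14)))), (.s k17 k221 9 (.s k51 k34 4 (.s k155 k103 13 (.s k223 k239 3 (.d k154
  k152 k16 0 10))))), (.s k17 k221 9 (.s k51 k34 4 (.s k103 k155 13 (.s k119 k187 9 (.s k102 k68 4
  (.s k101 k100 0 (.d k69 k117 k138 3 10)))))))] (.c k101 (.l (.s k17 k221 9 (.s k51 k34 4 (.s k155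
  k103 13 (.s k154 k152 0 (.d k223 k239 k16 3 10)))))) (.c k110 (.q k157 [(.s k69 k138 10 (.s k101
  k117 3 (.s k223 k239 3 (.d k154 k16 k48 10 14)))), (.s k221 k17 9 (.s k29 k93 7 (.s k149 k145 1
  (.s k213 k21 7 (.d k209 k217 k89 1 9)))))] .n) (.c k157 (.q k110 [(.s k69 k138 10 (.s k101 k117 3
  (.s k223 k239 3 (.d k154 k16 k48 10 14)))), (.s k17 k221 9 (.s k51 k34 4 (.s k155 k103 13 (.s k223
  k239 3 (.d k154 k152 k16 0 10))))), (.s k17 k221 9 (.s k51 k34 4 (.s k103 k155 13 (.s k119 k187 9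
  (.s k102 k68 4 (.s k101 k100 0 (.d k69 k117 k138 3 10)))))))] (.c k101 (.l (.s k17 k221 9 (.s k51
  k34 4 (.s k155 k103 13 (.s k154 k152 0 (.d k223 k239 k16 3 10)))))) .n)) .n)))) (.c k221 (.q k223
  [(.s k154 k16 10 (.s k207 k239 3 (.s k69 k138 10 (.d k101 k117 k48 3 14)))), (.s k154 k16 10 (.s
  k155 k152 0 (.s k87 k19 9 (.s k3 k171 13 (.s k1 k2 0 (.s k169 k253 13 (.d k86 k84 k252 0
  14)))))))] (.c k16 (.l (.s k207 k239 3 (.s k69 k138 10 (.s k101 k117 3 (.s k205 k49 13 (.s k204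
  k206 0 (.s k68 k136 9 (.d k102 k119 k51 4 14)))))))) (.c k154 (.q k60 [(.s k20 k40 5 (.s k150 k215
  8 (.s k125 k190 8 (.d k105 k65 k195 5 14)))), (.s k190 k125 8 (.s k207 k239 3 (.s k158 k109 12 (.s
  k93 k28 8 (.d k174 k142 k12 3 12))))), (.s k20 k40 5 (.s k150 k215 8 (.s k156 k147 2 (.s k204 k108
  11 (.s k68 k136 9 (.d k102 k119 k51 4 14))))))] (.c k138 (.q k186 [(.s k20 k40 5 (.s k150 k215 8
  (.s k125 k190 8 (.d k105 k65 k195 5 14)))), (.s k48 k117 10 (.s k56 k52 1 (.s k121 k251 8 (.s k182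
  k243 10 (.d k190 k178 k125 1 8))))), (.s k20 k40 5 (.s k150 k215 8 (.s k156 k147 2 (.s k204 k108
  11 (.s k68 k136 9 (.d k102 k119 k51 4 14))))))] .n) (.c k186 (.q k138 [(.d k207 k239 k69 3 10),
  (.s k20 k40 5 (.s k150 k215 8 (.s k105 k195 14 (.d k125 k65 k190 5 8))))] .n) .n))) .n))) (.c k238
  (.l (.s k17 k221 9 (.s k51 k34 4 (.s k102 k204 14 (.d k119 k68 k187 4 9))))) .n))))))))))))

theorem c192 : rootOK2 k255 k63 k192 t192 = true := by decide +kernel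

theorem c193 : rootOK2 k255 k63 k193 t193 = true := by decide +kernel

def l : List Nat :=
  [k192.c, k193.c]

theorem ok : AllQ k255.c k63.c l :=
  allQ_cons c192 (allQ_cons c193 (allQ_nil _ _))

end Pool.Agent.TTT.E05
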