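import Pool.Agent.TTT.Sym2

set_option autoImplicit false
set_option maxRecDepth 100000

namespace Pool.Agent.TTT.E06

def t195 : T TT 256 :=
  (.q k204 [(.s k68 k136 9 (.s k85 k170 14 (.s k102 k119 4 (.s k221 k238 4 (.d k153 k17 k51 9
  14)))))] (.c k17 (.l (.s k136 k68 9 (.s k170 k85 14 (.s k153 k187 4 (.s k102 k51 14 (.d k238 k221
  k34 4 9)))))) (.c k51 (.f k68 k136 9 (.f k170 k85 14 (.f k221 k238 4 (.q k207 [(.s k69 k138 10 (.s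
  k70 k71 0 (.s k205 k206 0 (.d k137 k1 k3 9 10)))), (.s k138 k69 10 (.s k154 k186 3 (.s k101 k48 14
  (.d k239 k223 k32 3 10)))), (.s k205 k206 0 (.s k237 k253 3 (.s k222 k252 4 (.d k223 k220 k239 0
  3))))] (.c k55 (.q k59 [(.s k69 k138 10 (.s k70 k71 0 (.s k205 k206 0 (.d k137 k1 k3 9 10)))), (.s
  k138 k69 10 (.s k154 k186 3 (.s k101 k48 14 (.d k239 k223 k32 3 10)))), (.s k205 k206 0 (.s k237
  k253 3 (.s k222 k252 4 (.d k223 k220 k239 0 3))))] (.c k99 (.q k147 [(.s k69 k138 10 (.s k70 k71 0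
  (.s k205 k206 0 (.d k137 k1 k3 9 10)))), (.s k138 k69 10 (.s k154 k186 3 (.s k101 k48 14 (.d k239
  k223 k32 3 10)))), (.s k205 k206 0 (.s k237 k253 3 (.s k222 k252 4 (.d k223 k220 k239 0 3))))] (.c
  k107 (.q k151 [(.s k69 k138 10 (.s k70 k71 0 (.s k205 k206 0 (.d k137 k1 k3 9 10)))), (.s k138 k69
  10 (.s k154 k186 3 (.s k101 k48 14 (.d k239 k223 k32 3 10)))), (.s k205 k206 0 (.s k237 k253 3 (.s
  k222 k252 4 (.d k223 k220 k239 0 3))))] (.c k103 (.q k111 [(.s k69 k138 10 (.s k70 k71 0 (.s k205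
  k206 0 (.d k137 k1 k3 9 10)))), (.s k138 k69 10 (.s k154 k186 3 (.s k101 k48 14 (.d k239 k223 k32
  3 10)))), (.s k205 k206 0 (.s k237 k253 3 (.s k222 k252 4 (.d k223 k220 k239 0 3))))] .n) (.c k111
  (.q k103 [(.s k69 k138 10 (.s k70 k71 0 (.s k205 k206 0 (.d k137 k1 k3 9 10)))), (.s k138 k69 10
  (.s k154 k186 3 (.s k101 k48 14 (.d k239 k223 k32 3 10)))), (.s k205 k206 0 (.s k237 k253 3 (.s
  k222 k252 4 (.d k223 k220 k239 0 3))))] .n) .n))) (.c k151 (.q k107 [(.s k69 k138 10 (.s k70 k71 0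
  (.s k205 k206 0 (.d k137 k1 k3 9 10)))), (.s k138 k69 10 (.s k154 k186 3 (.s k101 k48 14 (.d k239
  k223 k32 3 10)))), (.s k205 k206 0 (.s k237 k253 3 (.s k222 k252 4 (.d k223 k220 k239 0 3))))] (.c
  k103 (.q k199 [(.s k69 k138 10 (.s k70 k71 0 (.s k205 k206 0 (.d k137 k1 k3 9 10)))), (.s k138 k69
  10 (.s k154 k186 3 (.s k101 k48 14 (.d k239 k223 k32 3 10)))), (.s k205 k206 0 (.s k237 k253 3 (.s
  k222 k252 4 (.d k223 k220 k239 0 3))))] .n) (.c k199 (.q k103 [(.s k69 k138 10 (.s k71 k70 0 (.s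
  k87 k119 3 (.d k3 k139 k171 9 13)))), (.s k205 k206 0 (.s k237 k253 3 (.s k222 k252 4 (.d k223
  k220 k239 0 3))))] (.c k206 (.l (.s k138 k69 10 (.s k154 k186 3 (.s k101 k48 14 (.d k239 k223 k32
  3 10))))) .n)) .n))) .n))) (.c k107 (.q k151 [(.s k69 k138 10 (.s k70 k71 0 (.s k205 k206 0 (.d
  k137 k1 k3 9 10)))), (.s k138 k69 10 (.s k154 k186 3 (.s k101 k48 14 (.d k239 k223 k32 3 10)))),
  (.s k205 k206 0 (.s k237 k253 3 (.s k222 k252 4 (.d k223 k220 k239 0 3))))] (.c k99 (.q k147 [(.s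
  k69 k138 10 (.s k70 k71 0 (.s k205 k206 0 (.d k137 k1 k3 9 10)))), (.s k138 k69 10 (.s k154 k186 3
  (.s k101 k48 14 (.d k239 k223 k32 3 10)))), (.s k205 k206 0 (.s k237 k253 3 (.s k222 k252 4 (.d
  k223 k220 k239 0 3))))] (.c k103 (.q k111 [(.s k69 k138 10 (.s k70 k71 0 (.s k205 k206 0 (.d k137
  k1 k3 9 10)))), (.s k138 k69 10 (.s k154 k186 3 (.s k101 k48 14 (.d k239 k223 k32 3 10)))), (.s
  k205 k206 0 (.s k237 k253 3 (.s k222 k252 4 (.d k223 k220 k239 0 3))))] .n) (.c k111 (.q k103 [(.s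
  k69 k138 10 (.s k70 k71 0 (.s k205 k206 0 (.d k137 k1 k3 9 10)))), (.s k138 k69 10 (.s k154 k186 3
  (.s k101 k48 14 (.d k239 k223 k32 3 10)))), (.s k205 k206 0 (.s k237 k253 3 (.s k222 k252 4 (.d
  k223 k220 k239 0 3))))] .n) .n))) (.c k147 (.q k99 [(.s k69 k138 10 (.s k70 k71 0 (.s k205 k206 0
  (.d k137 k1 k3 9 10)))), (.s k138 k69 10 (.s k154 k186 3 (.s k101 k48 14 (.d k239 k223 k32 3
  10)))), (.s k205 k206 0 (.s k237 k253 3 (.s k222 k252 4 (.d k223 k220 k239 0 3))))] .n) .n))) (.c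
  k147 (.q k99 [(.s k69 k138 10 (.s k70 k71 0 (.s k205 k206 0 (.d k137 k1 k3 9 10)))), (.s k138 k69
  10 (.s k154 k186 3 (.s k101 k48 14 (.d k239 k223 k32 3 10)))), (.s k205 k206 0 (.s k237 k253 3 (.s
  k222 k252 4 (.d k223 k220 k239 0 3))))] (.c k107 (.q k151 [(.s k69 k138 10 (.s k70 k71 0 (.s k205
  k206 0 (.d k137 k1 k3 9 10)))), (.s k138 k69 10 (.s k154 k186 3 (.s k101 k48 14 (.d k239 k223 k32
  3 10)))), (.s k205 k206 0 (.s k237 k253 3 (.s k222 k252 4 (.d k223 k220 k239 0 3))))] .n) (.c k151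
  (.q k107 [(.s k69 k138 10 (.s k70 k71 0 (.s k205 k206 0 (.d k137 k1 k3 9 10)))), (.s k138 k69 10
  (.s k154 k186 3 (.s k101 k48 14 (.d k239 k223 k32 3 10)))), (.s k205 k206 0 (.s k237 k253 3 (.s
  k222 k252 4 (.d k223 k220 k239 0 3))))] (.c k103 (.q k199 [(.s k69 k138 10 (.s k70 k71 0 (.s k205
  k206 0 (.d k137 k1 k3 9 10)))), (.s k138 k69 10 (.s k154 k186 3 (.s k101 k48 14 (.d k239 k223 k32
  3 10)))), (.s k205 k206 0 (.s k237 k253 3 (.s k222 k252 4 (.d k223 k220 k239 0 3))))] (.c k155 (.q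
  k159 [(.s k69 k138 10 (.s k70 k71 0 (.s k205 k206 0 (.d k137 k1 k3 9 10)))), (.s k138 k69 10 (.s
  k154 k186 3 (.s k101 k48 14 (.d k239 k223 k32 3 10)))), (.s k205 k206 0 (.s k237 k253 3 (.s k222
  k252 4 (.d k223 k220 k239 0 3))))] .n) (.c k159 (.l (.s k155 k203 11 (.s k69 k138 10 (.s k70 k71 0
  (.s k137 k3 10 (.d k205 k206 k1 0 9)))))) .n))) (.c k155 (.q k159 [(.s k69 k138 10 (.s k70 k71 0
  (.s k205 k206 0 (.d k137 k1 k3 9 10)))), (.s k138 k69 10 (.s k154 k186 3 (.s k101 k48 14 (.d k239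
  k223 k32 3 10)))), (.s k205 k206 0 (.s k237 k253 3 (.s k222 k252 4 (.d k223 k220 k239 0 3))))] (.c
  k103 (.q k199 [(.s k69 k138 10 (.s k70 k71 0 (.s k205 k206 0 (.d k137 k1 k3 9 10)))), (.s k138 k69
  10 (.s k154 k186 3 (.s k101 k48 14 (.d k239 k223 k32 3 10)))), (.s k205 k206 0 (.s k237 k253 3 (.s
  k222 k252 4 (.d k223 k220 k239 0 3))))] .n) (.c k199 (.l (.s k103 k111 1 (.s k69 k138 10 (.s k70
  k71 0 (.s k137 k3 10 (.d k205 k206 k1 0 9)))))) .n))) (.c k159 (.l (.s k155 k203 11 (.s k69 k138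
  10 (.s k70 k71 0 (.s k137 k3 10 (.d k205 k206 k1 0 9)))))) (.c k199 (.l (.s k103 k111 1 (.s k69
  k138 10 (.s k70 k71 0 (.s k137 k3 10 (.d k205 k206 k1 0 9)))))) .n))))) .n))) (.c k151 (.q k107
  [(.s k69 k138 10 (.s k70 k71 0 (.s k205 k206 0 (.d k137 k1 k3 9 10)))), (.s k138 k69 10 (.s k154
  k186 3 (.s k101 k48 14 (.d k239 k223 k32 3 10)))), (.s k205 k206 0 (.s k237 k253 3 (.s k222 k252 4
  (.d k223 k220 k239 0 3))))] (.c k99 (.q k147 [(.s k69 k138 10 (.s k70 k71 0 (.s k205 k206 0 (.d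
  k137 k1 k3 9 10)))), (.s k138 k69 10 (.s k154 k186 3 (.s k101 k48 14 (.d k239 k223 k32 3 10)))),
  (.s k205 k206 0 (.s k237 k253 3 (.s k222 k252 4 (.d k223 k220 k239 0 3))))] (.c k103 (.q k199 [(.s
  k69 k138 10 (.s k70 k71 0 (.s k205 k206 0 (.d k137 k1 k3 9 10)))), (.s k138 k69 10 (.s k154 k186 3
  (.s k101 k48 14 (.d k239 k223 k32 3 10)))), (.s k205 k206 0 (.s k237 k253 3 (.s k222 k252 4 (.d
  k223 k220 k239 0 3))))] .n) (.c k199 (.q k103 [(.s k69 k138 10 (.s k71 k70 0 (.s k87 k119 3 (.d k3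
  k139 k171 9 13)))), (.s k205 k206 0 (.s k237 k253 3 (.s k222 k252 4 (.d k223 k220 k239 0 3))))]
  (.c k206 (.l (.s k138 k69 10 (.s k154 k186 3 (.s k101 k48 14 (.d k239 k223 k32 3 10))))) .n))
  .n))) (.c k103 (.q k199 [(.s k69 k138 10 (.s k70 k71 0 (.s k205 k206 0 (.d k137 k1 k3 9 10)))),
  (.s k138 k69 10 (.s k154 k186 3 (.s k101 k48 14 (.d k239 k223 k32 3 10)))), (.s k205 k206 0 (.s
  k237 k253 3 (.s k222 k252 4 (.d k223 k220 k239 0 3))))] (.c k99 (.q k147 [(.s k69 k138 10 (.s k70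
  k71 0 (.s k205 k206 0 (.d k137 k1 k3 9 10)))), (.s k138 k69 10 (.s k154 k186 3 (.s k101 k48 14 (.d
  k239 k223 k32 3 10)))), (.s k205 k206 0 (.s k237 k253 3 (.s k222 k252 4 (.d k223 k220 k239 0
  3))))] .n) (.c k147 (.q k99 [(.s k69 k138 10 (.s k70 k71 0 (.s k205 k206 0 (.d k137 k1 k3 9
  10)))), (.s k138 k69 10 (.s k154 k186 3 (.s k101 k48 14 (.d k239 k223 k32 3 10)))), (.s k205 k206
  0 (.s k237 k253 3 (.s k222 k252 4 (.d k223 k220 k239 0 3))))] (.c k155 (.q k159 [(.s k69 k138 10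
  (.s k70 k71 0 (.s k205 k206 0 (.d k137 k1 k3 9 10)))), (.s k138 k69 10 (.s k154 k186 3 (.s k101
  k48 14 (.d k239 k223 k32 3 10)))), (.s k205 k206 0 (.s k237 k253 3 (.s k222 k252 4 (.d k223 k220
  k239 0 3))))] .n) (.c k159 (.l (.s k155 k203 11 (.s k69 k138 10 (.s k70 k71 0 (.s k137 k3 10 (.d
  k205 k206 k1 0 9)))))) .n))) .n))) (.c k147 (.q k99 [(.s k69 k138 10 (.s k70 k71 0 (.s k205 k206 0
  (.d k137 k1 k3 9 10)))), (.s k138 k69 10 (.s k154 k186 3 (.s k101 k48 14 (.d k239 k223 k32 3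
  10)))), (.s k205 k206 0 (.s k237 k253 3 (.s k222 k252 4 (.d k223 k220 k239 0 3))))] (.c k103 (.q
  k199 [(.s k69 k138 10 (.s k70 k71 0 (.s k205 k206 0 (.d k137 k1 k3 9 10)))), (.s k138 k69 10 (.s
  k154 k186 3 (.s k101 k48 14 (.d k239 k223 k32 3 10)))), (.s k205 k206 0 (.s k237 k253 3 (.s k222
  k252 4 (.d k223 k220 k239 0 3))))] (.c k155 (.q k159 [(.s k69 k138 10 (.s k70 k71 0 (.s k205 k206
  0 (.d k137 k1 k3 9 10)))), (.s k138 k69 10 (.s k154 k186 3 (.s k101 k48 14 (.d k239 k223 k32 3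
  10)))), (.s k205 k206 0 (.s k237 k253 3 (.s k222 k252 4 (.d k223 k220 k239 0 3))))] .n) (.c k159
  (.l (.s k155 k203 11 (.s k69 k138 10 (.s k70 k71 0 (.s k137 k3 10 (.d k205 k206 k1 0 9)))))) .n)))
  (.c k155 (.q k159 [(.s k69 k138 10 (.s k70 k71 0 (.s k205 k206 0 (.d k137 k1 k3 9 10)))), (.s k138
  k69 10 (.s k154 k186 3 (.s k101 k48 14 (.d k239 k223 k32 3 10)))), (.s k205 k206 0 (.s k237 k253 3
  (.s k222 k252 4 (.d k223 k220 k239 0 3))))] (.c k103 (.q k199 [(.s k69 k138 10 (.s k70 k71 0 (.s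
  k205 k206 0 (.d k137 k1 k3 9 10)))), (.s k138 k69 10 (.s k154 k186 3 (.s k101 k48 14 (.d k239 k223
  k32 3 10)))), (.s k205 k206 0 (.s k237 k253 3 (.s k222 k252 4 (.d k223 k220 k239 0 3))))] .n) (.c
  k199 (.l (.s k103 k111 1 (.s k69 k138 10 (.s k70 k71 0 (.s k137 k3 10 (.d k205 k206 k1 0 9))))))
  .n))) (.c k159 (.l (.s k155 k203 11 (.s k69 k138 10 (.s k70 k71 0 (.s k137 k3 10 (.d k205 k206 k1
  0 9)))))) (.c k199 (.l (.s k103 k111 1 (.s k69 k138 10 (.s k70 k71 0 (.s k137 k3 10 (.d k205 k206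
  k1 0 9)))))) .n))))) (.c k199 (.q k103 [(.s k69 k138 10 (.s k71 k70 0 (.s k87 k119 3 (.d k3 k139
  k171 9 13)))), (.s k205 k206 0 (.s k237 k253 3 (.s k222 k252 4 (.d k223 k220 k239 0 3))))] (.c k99
  (.q k147 [(.s k69 k138 10 (.s k71 k70 0 (.s k87 k119 3 (.d k3 k139 k171 9 13)))), (.s k205 k206 0
  (.s k237 k253 3 (.s k222 k252 4 (.d k223 k220 k239 0 3))))] (.c k206 (.l (.s k138 k69 10 (.s k154
  k186 3 (.s k101 k48 14 (.d k239 k223 k32 3 10))))) .n)) (.c k147 (.l (.s k99 k111 1 (.s k69 k138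
  10 (.s k70 k71 0 (.s k137 k3 10 (.d k205 k206 k1 0 9)))))) (.c k206 (.l (.s k138 k69 10 (.s k154
  k186 3 (.s k101 k48 14 (.d k239 k223 k32 3 10))))) .n)))) .n))))) .n))))) (.c k59 (.q k55 [(.s k69
  k138 10 (.s k70 k71 0 (.s k205 k206 0 (.d k137 k1 k3 9 10)))), (.s k138 k69 10 (.s k154 k186 3 (.s
  k101 k48 14 (.d k239 k223 k32 3 10)))), (.s k205 k206 0 (.s k237 k253 3 (.s k222 k252 4 (.d k223
  k220 k239 0 3))))] (.c k99 (.q k147 [(.s k69 k138 10 (.s k70 k71 0 (.s k205 k206 0 (.d k137 k1 k3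
  9 10)))), (.s k138 k69 10 (.s k154 k186 3 (.s k101 k48 14 (.d k239 k223 k32 3 10)))), (.s k205
  k206 0 (.s k237 k253 3 (.s k222 k252 4 (.d k223 k220 k239 0 3))))] (.c k107 (.q k151 [(.s k69 k138
  10 (.s k70 k71 0 (.s k205 k206 0 (.d k137 k1 k3 9 10)))), (.s k138 k69 10 (.s k154 k186 3 (.s k101
  k48 14 (.d k239 k223 k32 3 10)))), (.s k205 k206 0 (.s k237 k253 3 (.s k222 k252 4 (.d k223 k220
  k239 0 3))))] (.c k103 (.q k111 [(.s k69 k138 10 (.s k70 k71 0 (.s k205 k206 0 (.d k137 k1 k3 9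
  10)))), (.s k138 k69 10 (.s k154 k186 3 (.s k101 k48 14 (.d k239 k223 k32 3 10)))), (.s k205 k206
  0 (.s k237 k253 3 (.s k222 k252 4 (.d k223 k220 k239 0 3))))] (.c k155 (.q k203 [(.s k69 k138 10
  (.s k70 k71 0 (.s k205 k206 0 (.d k137 k1 k3 9 10)))), (.s k138 k69 10 (.s k154 k186 3 (.s k101
  k48 14 (.d k239 k223 k32 3 10)))), (.s k205 k206 0 (.s k237 k253 3 (.s k222 k252 4 (.d k223 k220
  k239 0 3))))] .n) (.c k203 (.l (.s k155 k159 1 (.s k69 k138 10 (.s k70 k71 0 (.s k137 k3 10 (.d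
  k205 k206 k1 0 9)))))) .n))) (.c k111 (.l (.s k103 k199 11 (.s k69 k138 10 (.s k70 k71 0 (.s k137
  k3 10 (.d k205 k206 k1 0 9)))))) (.c k155 (.q k203 [(.s k69 k138 10 (.s k70 k71 0 (.s k205 k206 0
  (.d k137 k1 k3 9 10)))), (.s k138 k69 10 (.s k154 k186 3 (.s k101 k48 14 (.d k239 k223 k32 3
  10)))), (.s k205 k206 0 (.s k237 k253 3 (.s k222 k252 4 (.d k223 k220 k239 0 3))))] (.c k103 (.q
  k111 [(.s k69 k138 10 (.s k70 k71 0 (.s k205 k206 0 (.d k137 k1 k3 9 10)))), (.s k138 k69 10 (.s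
  k154 k186 3 (.s k101 k48 14 (.d k239 k223 k32 3 10)))), (.s k205 k206 0 (.s k237 k253 3 (.s k222
  k252 4 (.d k223 k220 k239 0 3))))] .n) (.c k111 (.l (.s k103 k199 11 (.s k69 k138 10 (.s k70 k71 0
  (.s k137 k3 10 (.d k205 k206 k1 0 9)))))) .n))) (.c k203 (.l (.s k155 k159 1 (.s k69 k138 10 (.s
  k70 k71 0 (.s k137 k3 10 (.d k205 k206 k1 0 9)))))) .n))))) (.c k151 (.q k107 [(.s k69 k138 10 (.s
  k70 k71 0 (.s k205 k206 0 (.d k137 k1 k3 9 10)))), (.s k138 k69 10 (.s k154 k186 3 (.s k101 k48 14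
  (.d k239 k223 k32 3 10)))), (.s k205 k206 0 (.s k237 k253 3 (.s k222 k252 4 (.d k223 k220 k239 0
  3))))] .n) .n))) (.c k107 (.q k151 [(.s k69 k138 10 (.s k70 k71 0 (.s k205 k206 0 (.d k137 k1 k3 9
  10)))), (.s k138 k69 10 (.s k154 k186 3 (.s k101 k48 14 (.d k239 k223 k32 3 10)))), (.s k205 k206
  0 (.s k237 k253 3 (.s k222 k252 4 (.d k223 k220 k239 0 3))))] (.c k99 (.q k147 [(.s k69 k138 10
  (.s k70 k71 0 (.s k205 k206 0 (.d k137 k1 k3 9 10)))), (.s k138 k69 10 (.s k154 k186 3 (.s k101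
  k48 14 (.d k239 k223 k32 3 10)))), (.s k205 k206 0 (.s k237 k253 3 (.s k222 k252 4 (.d k223 k220
  k239 0 3))))] (.c k103 (.q k111 [(.s k69 k138 10 (.s k70 k71 0 (.s k205 k206 0 (.d k137 k1 k3 9
  10)))), (.s k138 k69 10 (.s k154 k186 3 (.s k101 k48 14 (.d k239 k223 k32 3 10)))), (.s k205 k206
  0 (.s k237 k253 3 (.s k222 k252 4 (.d k223 k220 k239 0 3))))] (.c k155 (.q k203 [(.s k69 k138 10
  (.s k70 k71 0 (.s k205 k206 0 (.d k137 k1 k3 9 10)))), (.s k138 k69 10 (.s k154 k186 3 (.s k101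
  k48 14 (.d k239 k223 k32 3 10)))), (.s k205 k206 0 (.s k237 k253 3 (.s k222 k252 4 (.d k223 k220
  k239 0 3))))] .n) (.c k203 (.l (.s k155 k159 1 (.s k69 k138 10 (.s k70 k71 0 (.s k137 k3 10 (.d
  k205 k206 k1 0 9)))))) .n))) (.c k111 (.l (.s k103 k199 11 (.s k69 k138 10 (.s k70 k71 0 (.s k137
  k3 10 (.d k205 k206 k1 0 9)))))) (.c k155 (.q k203 [(.s k69 k138 10 (.s k70 k71 0 (.s k205 k206 0
  (.d k137 k1 k3 9 10)))), (.s k138 k69 10 (.s k154 k186 3 (.s k101 k48 14 (.d k239 k223 k32 3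
  10)))), (.s k205 k206 0 (.s k237 k253 3 (.s k222 k252 4 (.d k223 k220 k239 0 3))))] (.c k103 (.q
  k111 [(.s k69 k138 10 (.s k70 k71 0 (.s k205 k206 0 (.d k137 k1 k3 9 10)))), (.s k138 k69 10 (.s
  k154 k186 3 (.s k101 k48 14 (.d k239 k223 k32 3 10)))), (.s k205 k206 0 (.s k237 k253 3 (.s k222
  k252 4 (.d k223 k220 k239 0 3))))] .n) (.c k111 (.l (.s k103 k199 11 (.s k69 k138 10 (.s k70 k71 0
  (.s k137 k3 10 (.d k205 k206 k1 0 9)))))) .n))) (.c k203 (.l (.s k155 k159 1 (.s k69 k138 10 (.s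
  k70 k71 0 (.s k137 k3 10 (.d k205 k206 k1 0 9)))))) .n))))) (.c k147 (.q k99 [(.s k69 k138 10 (.s
  k70 k71 0 (.s k205 k206 0 (.d k137 k1 k3 9 10)))), (.s k138 k69 10 (.s k154 k186 3 (.s k101 k48 14
  (.d k239 k223 k32 3 10)))), (.s k205 k206 0 (.s k237 k253 3 (.s k222 k252 4 (.d k223 k220 k239 0
  3))))] (.c k155 (.q k203 [(.s k69 k138 10 (.s k70 k71 0 (.s k205 k206 0 (.d k137 k1 k3 9 10)))),
  (.s k138 k69 10 (.s k154 k186 3 (.s k101 k48 14 (.d k239 k223 k32 3 10)))), (.s k205 k206 0 (.s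
  k237 k253 3 (.s k222 k252 4 (.d k223 k220 k239 0 3))))] .n) (.c k203 (.q k155 [(.s k69 k138 10 (.s
  k70 k71 0 (.s k205 k206 0 (.d k137 k1 k3 9 10)))), (.s k138 k69 10 (.s k154 k186 3 (.s k101 k48 14
  (.d k239 k223 k32 3 10)))), (.s k205 k206 0 (.s k237 k253 3 (.s k222 k252 4 (.d k223 k220 k239 0
  3))))] .n) .n))) (.c k155 (.q k203 [(.s k69 k138 10 (.s k70 k71 0 (.s k205 k206 0 (.d k137 k1 k3 9
  10)))), (.s k138 k69 10 (.s k154 k186 3 (.s k101 k48 14 (.d k239 k223 k32 3 10)))), (.s k205 k206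
  0 (.s k237 k253 3 (.s k222 k252 4 (.d k223 k220 k239 0 3))))] (.c k99 (.q k147 [(.s k69 k138 10
  (.s k70 k71 0 (.s k205 k206 0 (.d k137 k1 k3 9 10)))), (.s k138 k69 10 (.s k154 k186 3 (.s k101
  k48 14 (.d k239 k223 k32 3 10)))), (.s k205 k206 0 (.s k237 k253 3 (.s k222 k252 4 (.d k223 k220
  k239 0 3))))] (.c k103 (.q k111 [(.s k69 k138 10 (.s k70 k71 0 (.s k205 k206 0 (.d k137 k1 k3 9
  10)))), (.s k138 k69 10 (.s k154 k186 3 (.s k101 k48 14 (.d k239 k223 k32 3 10)))), (.s k205 k206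
  0 (.s k237 k253 3 (.s k222 k252 4 (.d k223 k220 k239 0 3))))] .n) (.c k111 (.l (.s k103 k199 11
  (.s k69 k138 10 (.s k70 k71 0 (.s k137 k3 10 (.d k205 k206 k1 0 9)))))) .n))) (.c k147 (.q k99
  [(.s k69 k138 10 (.s k70 k71 0 (.s k205 k206 0 (.d k137 k1 k3 9 10)))), (.s k138 k69 10 (.s k154
  k186 3 (.s k101 k48 14 (.d k239 k223 k32 3 10)))), (.s k205 k206 0 (.s k237 k253 3 (.s k222 k252 4
  (.d k223 k220 k239 0 3))))] .n) .n))) (.c k203 (.q k155 [(.s k69 k138 10 (.s k70 k71 0 (.s k205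
  k206 0 (.d k137 k1 k3 9 10)))), (.s k138 k69 10 (.s k154 k186 3 (.s k101 k48 14 (.d k239 k223 k32
  3 10)))), (.s k205 k206 0 (.s k237 k253 3 (.s k222 k252 4 (.d k223 k220 k239 0 3))))] (.c k99 (.l
  (.s k147 k159 1 (.s k69 k138 10 (.s k70 k71 0 (.s k137 k3 10 (.d k205 k206 k1 0 9)))))) (.c k147
  (.q k99 [(.s k69 k138 10 (.s k70 k71 0 (.s k205 k206 0 (.d k137 k1 k3 9 10)))), (.s k138 k69 10
  (.s k154 k186 3 (.s k101 k48 14 (.d k239 k223 k32 3 10)))), (.s k205 k206 0 (.s k237 k253 3 (.s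
  k222 k252 4 (.d k223 k220 k239 0 3))))] .n) .n))) .n))))) (.c k147 (.q k99 [(.s k69 k138 10 (.s
  k70 k71 0 (.s k205 k206 0 (.d k137 k1 k3 9 10)))), (.s k138 k69 10 (.s k154 k186 3 (.s k101 k48 14
  (.d k239 k223 k32 3 10)))), (.s k205 k206 0 (.s k237 k253 3 (.s k222 k252 4 (.d k223 k220 k239 0
  3))))] (.c k107 (.q k151 [(.s k69 k138 10 (.s k70 k71 0 (.s k205 k206 0 (.d k137 k1 k3 9 10)))),
  (.s k138 k69 10 (.s k154 k186 3 (.s k101 k48 14 (.d k239 k223 k32 3 10)))), (.s k205 k206 0 (.s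
  k237 k253 3 (.s k222 k252 4 (.d k223 k220 k239 0 3))))] (.c k155 (.q k203 [(.s k69 k138 10 (.s k70
  k71 0 (.s k205 k206 0 (.d k137 k1 k3 9 10)))), (.s k138 k69 10 (.s k154 k186 3 (.s k101 k48 14 (.d
  k239 k223 k32 3 10)))), (.s k205 k206 0 (.s k237 k253 3 (.s k222 k252 4 (.d k223 k220 k239 0
  3))))] .n) (.c k203 (.q k155 [(.s k69 k138 10 (.s k70 k71 0 (.s k205 k206 0 (.d k137 k1 k3 9
  10)))), (.s k138 k69 10 (.s k154 k186 3 (.s k101 k48 14 (.d k239 k223 k32 3 10)))), (.s k205 k206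
  0 (.s k237 k253 3 (.s k222 k252 4 (.d k223 k220 k239 0 3))))] .n) .n))) (.c k151 (.q k107 [(.s k69
  k138 10 (.s k70 k71 0 (.s k205 k206 0 (.d k137 k1 k3 9 10)))), (.s k138 k69 10 (.s k154 k186 3 (.s
  k101 k48 14 (.d k239 k223 k32 3 10)))), (.s k205 k206 0 (.s k237 k253 3 (.s k222 k252 4 (.d k223
  k220 k239 0 3))))] (.c k155 (.q k159 [(.s k69 k138 10 (.s k70 k71 0 (.s k205 k206 0 (.d k137 k1 k3
  9 10)))), (.s k138 k69 10 (.s k154 k186 3 (.s k101 k48 14 (.d k239 k223 k32 3 10)))), (.s k205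
  k206 0 (.s k237 k253 3 (.s k222 k252 4 (.d k223 k220 k239 0 3))))] .n) (.c k159 (.q k155 [(.s k69
  k138 10 (.s k70 k71 0 (.s k205 k206 0 (.d k137 k1 k3 9 10)))), (.s k138 k69 10 (.s k154 k186 3 (.s
  k101 k48 14 (.d k239 k223 k32 3 10)))), (.s k205 k206 0 (.s k237 k253 3 (.s k222 k252 4 (.d k223
  k220 k239 0 3))))] .n) .n))) .n))) (.c k151 (.q k107 [(.s k69 k138 10 (.s k70 k71 0 (.s k205 k206
  0 (.d k137 k1 k3 9 10)))), (.s k138 k69 10 (.s k154 k186 3 (.s k101 k48 14 (.d k239 k223 k32 3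
  10)))), (.s k205 k206 0 (.s k237 k253 3 (.s k222 k252 4 (.d k223 k220 k239 0 3))))] (.c k99 (.q
  k147 [(.s k69 k138 10 (.s k70 k71 0 (.s k205 k206 0 (.d k137 k1 k3 9 10)))), (.s k138 k69 10 (.s
  k154 k186 3 (.s k101 k48 14 (.d k239 k223 k32 3 10)))), (.s k205 k206 0 (.s k237 k253 3 (.s k222
  k252 4 (.d k223 k220 k239 0 3))))] .n) (.c k147 (.q k99 [(.s k69 k138 10 (.s k70 k71 0 (.s k205
  k206 0 (.d k137 k1 k3 9 10)))), (.s k138 k69 10 (.s k154 k186 3 (.s k101 k48 14 (.d k239 k223 k32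
  3 10)))), (.s k205 k206 0 (.s k237 k253 3 (.s k222 k252 4 (.d k223 k220 k239 0 3))))] (.c k155 (.q
  k159 [(.s k69 k138 10 (.s k70 k71 0 (.s k205 k206 0 (.d k137 k1 k3 9 10)))), (.s k138 k69 10 (.s
  k154 k186 3 (.s k101 k48 14 (.d k239 k223 k32 3 10)))), (.s k205 k206 0 (.s k237 k253 3 (.s k222
  k252 4 (.d k223 k220 k239 0 3))))] .n) (.c k159 (.q k155 [(.s k69 k138 10 (.s k70 k71 0 (.s k205
  k206 0 (.d k137 k1 k3 9 10)))), (.s k138 k69 10 (.s k154 k186 3 (.s k101 k48 14 (.d k239 k223 k32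
  3 10)))), (.s k205 k206 0 (.s k237 k253 3 (.s k222 k252 4 (.d k223 k220 k239 0 3))))] .n) .n)))
  .n))) .n))))) (.c k99 (.q k147 [(.s k69 k138 10 (.s k70 k71 0 (.s k205 k206 0 (.d k137 k1 k3 9
  10)))), (.s k138 k69 10 (.s k154 k186 3 (.s k101 k48 14 (.d k239 k223 k32 3 10)))), (.s k205 k206
  0 (.s k237 k253 3 (.s k222 k252 4 (.d k223 k220 k239 0 3))))] (.c k55 (.q k59 [(.s k69 k138 10 (.s
  k70 k71 0 (.s k205 k206 0 (.d k137 k1 k3 9 10)))), (.s k138 k69 10 (.s k154 k186 3 (.s k101 k48 14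
  (.d k239 k223 k32 3 10)))), (.s k205 k206 0 (.s k237 k253 3 (.s k222 k252 4 (.d k223 k220 k239 0
  3))))] (.c k107 (.q k151 [(.s k69 k138 10 (.s k70 k71 0 (.s k205 k206 0 (.d k137 k1 k3 9 10)))),
  (.s k138 k69 10 (.s k154 k186 3 (.s k101 k48 14 (.d k239 k223 k32 3 10)))), (.s k205 k206 0 (.s
  k237 k253 3 (.s k222 k252 4 (.d k223 k220 k239 0 3))))] (.c k103 (.q k111 [(.s k69 k138 10 (.s k70
  k71 0 (.s k205 k206 0 (.d k137 k1 k3 9 10)))), (.s k138 k69 10 (.s k154 k186 3 (.s k101 k48 14 (.d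
  k239 k223 k32 3 10)))), (.s k205 k206 0 (.s k237 k253 3 (.s k222 k252 4 (.d k223 k220 k239 0
  3))))] .n) (.c k111 (.q k103 [(.s k69 k138 10 (.s k70 k71 0 (.s k205 k206 0 (.d k137 k1 k3 9
  10)))), (.s k138 k69 10 (.s k154 k186 3 (.s k101 k48 14 (.d k239 k223 k32 3 10)))), (.s k205 k206
  0 (.s k237 k253 3 (.s k222 k252 4 (.d k223 k220 k239 0 3))))] .n) .n))) (.c k151 (.q k107 [(.s k69
  k138 10 (.s k70 k71 0 (.s k205 k206 0 (.d k137 k1 k3 9 10)))), (.s k138 k69 10 (.s k154 k186 3 (.s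
  k101 k48 14 (.d k239 k223 k32 3 10)))), (.s k205 k206 0 (.s k237 k253 3 (.s k222 k252 4 (.d k223
  k220 k239 0 3))))] (.c k103 (.q k199 [(.s k69 k138 10 (.s k70 k71 0 (.s k205 k206 0 (.d k137 k1 k3
  9 10)))), (.s k138 k69 10 (.s k154 k186 3 (.s k101 k48 14 (.d k239 k223 k32 3 10)))), (.s k205
  k206 0 (.s k237 k253 3 (.s k222 k252 4 (.d k223 k220 k239 0 3))))] .n) (.c k199 (.q k103 [(.s k69
  k138 10 (.s k71 k70 0 (.s k87 k119 3 (.d k3 k139 k171 9 13)))), (.s k205 k206 0 (.s k237 k253 3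
  (.s k222 k252 4 (.d k223 k220 k239 0 3))))] (.c k206 (.l (.s k138 k69 10 (.s k154 k186 3 (.s k101
  k48 14 (.d k239 k223 k32 3 10))))) .n)) .n))) .n))) (.c k59 (.q k55 [(.s k69 k138 10 (.s k70 k71 0
  (.s k205 k206 0 (.d k137 k1 k3 9 10)))), (.s k138 k69 10 (.s k154 k186 3 (.s k101 k48 14 (.d k239
  k223 k32 3 10)))), (.s k205 k206 0 (.s k237 k253 3 (.s k222 k252 4 (.d k223 k220 k239 0 3))))] (.c
  k107 (.q k151 [(.s k69 k138 10 (.s k70 k71 0 (.s k205 k206 0 (.d k137 k1 k3 9 10)))), (.s k138 k69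
  10 (.s k154 k186 3 (.s k101 k48 14 (.d k239 k223 k32 3 10)))), (.s k205 k206 0 (.s k237 k253 3 (.s
  k222 k252 4 (.d k223 k220 k239 0 3))))] (.c k103 (.q k111 [(.s k69 k138 10 (.s k70 k71 0 (.s k205
  k206 0 (.d k137 k1 k3 9 10)))), (.s k138 k69 10 (.s k154 k186 3 (.s k101 k48 14 (.d k239 k223 k32
  3 10)))), (.s k205 k206 0 (.s k237 k253 3 (.s k222 k252 4 (.d k223 k220 k239 0 3))))] (.c k155 (.q
  k203 [(.s k69 k138 10 (.s k70 k71 0 (.s k205 k206 0 (.d k137 k1 k3 9 10)))), (.s k138 k69 10 (.s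
  k154 k186 3 (.s k101 k48 14 (.d k239 k223 k32 3 10)))), (.s k205 k206 0 (.s k237 k253 3 (.s k222
  k252 4 (.d k223 k220 k239 0 3))))] .n) (.c k203 (.l (.s k155 k159 1 (.s k69 k138 10 (.s k70 k71 0
  (.s k137 k3 10 (.d k205 k206 k1 0 9)))))) .n))) (.c k111 (.l (.s k103 k199 11 (.s k69 k138 10 (.s
  k70 k71 0 (.s k137 k3 10 (.d k205 k206 k1 0 9)))))) (.c k155 (.q k203 [(.s k69 k138 10 (.s k70 k71
  0 (.s k205 k206 0 (.d k137 k1 k3 9 10)))), (.s k138 k69 10 (.s k154 k186 3 (.s k101 k48 14 (.d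
  k239 k223 k32 3 10)))), (.s k205 k206 0 (.s k237 k253 3 (.s k222 k252 4 (.d k223 k220 k239 0
  3))))] (.c k103 (.q k111 [(.s k69 k138 10 (.s k70 k71 0 (.s k205 k206 0 (.d k137 k1 k3 9 10)))),
  (.s k138 k69 10 (.s k154 k186 3 (.s k101 k48 14 (.d k239 k223 k32 3 10)))), (.s k205 k206 0 (.s
  k237 k253 3 (.s k222 k252 4 (.d k223 k220 k239 0 3))))] .n) (.c k111 (.l (.s k103 k199 11 (.s k69
  k138 10 (.s k70 k71 0 (.s k137 k3 10 (.d k205 k206 k1 0 9)))))) .n))) (.c k203 (.l (.s k155 k159 1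
  (.s k69 k138 10 (.s k70 k71 0 (.s k137 k3 10 (.d k205 k206 k1 0 9)))))) .n))))) (.c k151 (.q k107
  [(.s k69 k138 10 (.s k70 k71 0 (.s k205 k206 0 (.d k137 k1 k3 9 10)))), (.s k138 k69 10 (.s k154
  k186 3 (.s k101 k48 14 (.d k239 k223 k32 3 10)))), (.s k205 k206 0 (.s k237 k253 3 (.s k222 k252 4
  (.d k223 k220 k239 0 3))))] .n) .n))) (.c k107 (.q k151 [(.s k69 k138 10 (.s k70 k71 0 (.s k205
  k206 0 (.d k137 k1 k3 9 10)))), (.s k138 k69 10 (.s k154 k186 3 (.s k101 k48 14 (.d k239 k223 k32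
  3 10)))), (.s k205 k206 0 (.s k237 k253 3 (.s k222 k252 4 (.d k223 k220 k239 0 3))))] (.c k55 (.q
  k59 [(.s k69 k138 10 (.s k70 k71 0 (.s k205 k206 0 (.d k137 k1 k3 9 10)))), (.s k138 k69 10 (.s
  k154 k186 3 (.s k101 k48 14 (.d k239 k223 k32 3 10)))), (.s k205 k206 0 (.s k237 k253 3 (.s k222
  k252 4 (.d k223 k220 k239 0 3))))] (.c k103 (.q k111 [(.s k69 k138 10 (.s k70 k71 0 (.s k205 k206
  0 (.d k137 k1 k3 9 10)))), (.s k138 k69 10 (.s k154 k186 3 (.s k101 k48 14 (.d k239 k223 k32 3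
  10)))), (.s k205 k206 0 (.s k237 k253 3 (.s k222 k252 4 (.d k223 k220 k239 0 3))))] .n) (.c k111
  (.q k103 [(.s k69 k138 10 (.s k70 k71 0 (.s k205 k206 0 (.d k137 k1 k3 9 10)))), (.s k138 k69 10
  (.s k154 k186 3 (.s k101 k48 14 (.d k239 k223 k32 3 10)))), (.s k205 k206 0 (.s k237 k253 3 (.s
  k222 k252 4 (.d k223 k220 k239 0 3))))] .n) .n))) (.c k59 (.q k55 [(.s k69 k138 10 (.s k70 k71 0
  (.s k205 k206 0 (.d k137 k1 k3 9 10)))), (.s k138 k69 10 (.s k154 k186 3 (.s k101 k48 14 (.d k239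
  k223 k32 3 10)))), (.s k205 k206 0 (.s k237 k253 3 (.s k222 k252 4 (.d k223 k220 k239 0 3))))] (.c
  k103 (.q k111 [(.s k69 k138 10 (.s k70 k71 0 (.s k205 k206 0 (.d k137 k1 k3 9 10)))), (.s k138 k69
  10 (.s k154 k186 3 (.s k101 k48 14 (.d k239 k223 k32 3 10)))), (.s k205 k206 0 (.s k237 k253 3 (.s
  k222 k252 4 (.d k223 k220 k239 0 3))))] (.c k155 (.q k203 [(.s k69 k138 10 (.s k70 k71 0 (.s k205
  k206 0 (.d k137 k1 k3 9 10)))), (.s k138 k69 10 (.s k154 k186 3 (.s k101 k48 14 (.d k239 k223 k32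
  3 10)))), (.s k205 k206 0 (.s k237 k253 3 (.s k222 k252 4 (.d k223 k220 k239 0 3))))] .n) (.c k203
  (.l (.s k155 k159 1 (.s k69 k138 10 (.s k70 k71 0 (.s k137 k3 10 (.d k205 k206 k1 0 9)))))) .n)))
  (.c k111 (.l (.s k103 k199 11 (.s k69 k138 10 (.s k70 k71 0 (.s k137 k3 10 (.d k205 k206 k1 0
  9)))))) (.c k155 (.q k203 [(.s k69 k138 10 (.s k70 k71 0 (.s k205 k206 0 (.d k137 k1 k3 9 10)))),
  (.s k138 k69 10 (.s k154 k186 3 (.s k101 k48 14 (.d k239 k223 k32 3 10)))), (.s k205 k206 0 (.s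
  k237 k253 3 (.s k222 k252 4 (.d k223 k220 k239 0 3))))] (.c k103 (.q k111 [(.s k69 k138 10 (.s k70
  k71 0 (.s k205 k206 0 (.d k137 k1 k3 9 10)))), (.s k138 k69 10 (.s k154 k186 3 (.s k101 k48 14 (.d
  k239 k223 k32 3 10)))), (.s k205 k206 0 (.s k237 k253 3 (.s k222 k252 4 (.d k223 k220 k239 0
  3))))] .n) (.c k111 (.l (.s k103 k199 11 (.s k69 k138 10 (.s k70 k71 0 (.s k137 k3 10 (.d k205
  k206 k1 0 9)))))) .n))) (.c k203 (.l (.s k155 k159 1 (.s k69 k138 10 (.s k70 k71 0 (.s k137 k3 10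
  (.d k205 k206 k1 0 9)))))) .n))))) (.c k103 (.q k111 [(.s k69 k138 10 (.s k70 k71 0 (.s k205 k206
  0 (.d k137 k1 k3 9 10)))), (.s k138 k69 10 (.s k154 k186 3 (.s k101 k48 14 (.d k239 k223 k32 3
  10)))), (.s k205 k206 0 (.s k237 k253 3 (.s k222 k252 4 (.d k223 k220 k239 0 3))))] (.c k55 (.q
  k59 [(.s k69 k138 10 (.s k70 k71 0 (.s k205 k206 0 (.d k137 k1 k3 9 10)))), (.s k138 k69 10 (.s
  k154 k186 3 (.s k101 k48 14 (.d k239 k223 k32 3 10)))), (.s k205 k206 0 (.s k237 k253 3 (.s k222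
  k252 4 (.d k223 k220 k239 0 3))))] .n) (.c k59 (.q k55 [(.s k69 k138 10 (.s k70 k71 0 (.s k205
  k206 0 (.d k137 k1 k3 9 10)))), (.s k138 k69 10 (.s k154 k186 3 (.s k101 k48 14 (.d k239 k223 k32
  3 10)))), (.s k205 k206 0 (.s k237 k253 3 (.s k222 k252 4 (.d k223 k220 k239 0 3))))] (.c k155 (.q
  k203 [(.s k69 k138 10 (.s k70 k71 0 (.s k205 k206 0 (.d k137 k1 k3 9 10)))), (.s k138 k69 10 (.s
  k154 k186 3 (.s k101 k48 14 (.d k239 k223 k32 3 10)))), (.s k205 k206 0 (.s k237 k253 3 (.s k222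
  k252 4 (.d k223 k220 k239 0 3))))] .n) (.c k203 (.l (.s k155 k159 1 (.s k69 k138 10 (.s k70 k71 0
  (.s k137 k3 10 (.d k205 k206 k1 0 9)))))) .n))) .n))) (.c k111 (.q k103 [(.s k69 k138 10 (.s k71
  k70 0 (.s k87 k119 3 (.d k3 k139 k171 9 13)))), (.s k205 k206 0 (.s k237 k253 3 (.s k222 k252 4
  (.d k223 k220 k239 0 3))))] (.c k55 (.q k59 [(.s k69 k138 10 (.s k70 k71 0 (.s k205 k206 0 (.d
  k137 k1 k3 9 10)))), (.s k138 k69 10 (.s k154 k186 3 (.s k101 k48 14 (.d k239 k223 k32 3 10)))),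
  (.s k205 k206 0 (.s k237 k253 3 (.s k222 k252 4 (.d k223 k220 k239 0 3))))] .n) (.c k59 (.l (.s
  k55 k199 11 (.s k69 k138 10 (.s k70 k71 0 (.s k137 k3 10 (.d k205 k206 k1 0 9)))))) (.c k206 (.l
  (.s k138 k69 10 (.s k154 k186 3 (.s k101 k48 14 (.d k239 k223 k32 3 10))))) .n)))) .n))))) (.c
  k151 (.q k107 [(.s k69 k138 10 (.s k70 k71 0 (.s k205 k206 0 (.d k137 k1 k3 9 10)))), (.s k138 k69
  10 (.s k154 k186 3 (.s k101 k48 14 (.d k239 k223 k32 3 10)))), (.s k205 k206 0 (.s k237 k253 3 (.s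
  k222 k252 4 (.d k223 k220 k239 0 3))))] (.c k55 (.q k59 [(.s k69 k138 10 (.s k70 k71 0 (.s k205
  k206 0 (.d k137 k1 k3 9 10)))), (.s k138 k69 10 (.s k154 k186 3 (.s k101 k48 14 (.d k239 k223 k32
  3 10)))), (.s k205 k206 0 (.s k237 k253 3 (.s k222 k252 4 (.d k223 k220 k239 0 3))))] (.c k103 (.q
  k199 [(.s k69 k138 10 (.s k70 k71 0 (.s k205 k206 0 (.d k137 k1 k3 9 10)))), (.s k138 k69 10 (.s
  k154 k186 3 (.s k101 k48 14 (.d k239 k223 k32 3 10)))), (.s k205 k206 0 (.s k237 k253 3 (.s k222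
  k252 4 (.d k223 k220 k239 0 3))))] .n) (.c k199 (.q k103 [(.s k69 k138 10 (.s k71 k70 0 (.s k87
  k119 3 (.d k3 k139 k171 9 13)))), (.s k205 k206 0 (.s k237 k253 3 (.s k222 k252 4 (.d k223 k220
  k239 0 3))))] (.c k206 (.l (.s k138 k69 10 (.s k154 k186 3 (.s k101 k48 14 (.d k239 k223 k32 3
  10))))) .n)) .n))) (.c k59 (.q k55 [(.s k69 k138 10 (.s k70 k71 0 (.s k205 k206 0 (.d k137 k1 k3 9
  10)))), (.s k138 k69 10 (.s k154 k186 3 (.s k101 k48 14 (.d k239 k223 k32 3 10)))), (.s k205 k206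
  0 (.s k237 k253 3 (.s k222 k252 4 (.d k223 k220 k239 0 3))))] .n) .n))) .n))))) (.c k107 (.q k151
  [(.s k69 k138 10 (.s k70 k71 0 (.s k205 k206 0 (.d k137 k1 k3 9 10)))), (.s k138 k69 10 (.s k154
  k186 3 (.s k101 k48 14 (.d k239 k223 k32 3 10)))), (.s k205 k206 0 (.s k237 k253 3 (.s k222 k252 4
  (.d k223 k220 k239 0 3))))] (.c k55 (.q k59 [(.s k69 k138 10 (.s k70 k71 0 (.s k205 k206 0 (.d
  k137 k1 k3 9 10)))), (.s k138 k69 10 (.s k154 k186 3 (.s k101 k48 14 (.d k239 k223 k32 3 10)))),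
  (.s k205 k206 0 (.s k237 k253 3 (.s k222 k252 4 (.d k223 k220 k239 0 3))))] (.c k99 (.q k147 [(.s
  k69 k138 10 (.s k70 k71 0 (.s k205 k206 0 (.d k137 k1 k3 9 10)))), (.s k138 k69 10 (.s k154 k186 3
  (.s k101 k48 14 (.d k239 k223 k32 3 10)))), (.s k205 k206 0 (.s k237 k253 3 (.s k222 k252 4 (.d
  k223 k220 k239 0 3))))] (.c k103 (.q k111 [(.s k69 k138 10 (.s k70 k71 0 (.s k205 k206 0 (.d k137
  k1 k3 9 10)))), (.s k138 k69 10 (.s k154 k186 3 (.s k101 k48 14 (.d k239 k223 k32 3 10)))), (.s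
  k205 k206 0 (.s k237 k253 3 (.s k222 k252 4 (.d k223 k220 k239 0 3))))] .n) (.c k111 (.q k103 [(.s
  k69 k138 10 (.s k70 k71 0 (.s k205 k206 0 (.d k137 k1 k3 9 10)))), (.s k138 k69 10 (.s k154 k186 3
  (.s k101 k48 14 (.d k239 k223 k32 3 10)))), (.s k205 k206 0 (.s k237 k253 3 (.s k222 k252 4 (.d
  k223 k220 k239 0 3))))] .n) .n))) (.c k147 (.q k99 [(.s k69 k138 10 (.s k70 k71 0 (.s k205 k206 0
  (.d k137 k1 k3 9 10)))), (.s k138 k69 10 (.s k154 k186 3 (.s k101 k48 14 (.d k239 k223 k32 3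
  10)))), (.s k205 k206 0 (.s k237 k253 3 (.s k222 k252 4 (.d k223 k220 k239 0 3))))] .n) .n))) (.c
  k59 (.q k55 [(.s k69 k138 10 (.s k70 k71 0 (.s k205 k206 0 (.d k137 k1 k3 9 10)))), (.s k138 k69
  10 (.s k154 k186 3 (.s k101 k48 14 (.d k239 k223 k32 3 10)))), (.s k205 k206 0 (.s k237 k253 3 (.s
  k222 k252 4 (.d k223 k220 k239 0 3))))] (.c k99 (.q k147 [(.s k69 k138 10 (.s k70 k71 0 (.s k205
  k206 0 (.d k137 k1 k3 9 10)))), (.s k138 k69 10 (.s k154 k186 3 (.s k101 k48 14 (.d k239 k223 k32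
  3 10)))), (.s k205 k206 0 (.s k237 k253 3 (.s k222 k252 4 (.d k223 k220 k239 0 3))))] (.c k103 (.q
  k111 [(.s k69 k138 10 (.s k70 k71 0 (.s k205 k206 0 (.d k137 k1 k3 9 10)))), (.s k138 k69 10 (.s
  k154 k186 3 (.s k101 k48 14 (.d k239 k223 k32 3 10)))), (.s k205 k206 0 (.s k237 k253 3 (.s k222
  k252 4 (.d k223 k220 k239 0 3))))] (.c k155 (.q k203 [(.s k69 k138 10 (.s k70 k71 0 (.s k205 k206
  0 (.d k137 k1 k3 9 10)))), (.s k138 k69 10 (.s k154 k186 3 (.s k101 k48 14 (.d k239 k223 k32 3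
  10)))), (.s k205 k206 0 (.s k237 k253 3 (.s k222 k252 4 (.d k223 k220 k239 0 3))))] .n) (.c k203
  (.l (.s k155 k159 1 (.s k69 k138 10 (.s k70 k71 0 (.s k137 k3 10 (.d k205 k206 k1 0 9)))))) .n)))
  (.c k111 (.l (.s k103 k199 11 (.s k69 k138 10 (.s k70 k71 0 (.s k137 k3 10 (.d k205 k206 k1 0
  9)))))) (.c k155 (.q k203 [(.s k69 k138 10 (.s k70 k71 0 (.s k205 k206 0 (.d k137 k1 k3 9 10)))),
  (.s k138 k69 10 (.s k154 k186 3 (.s k101 k48 14 (.d k239 k223 k32 3 10)))), (.s k205 k206 0 (.s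
  k237 k253 3 (.s k222 k252 4 (.d k223 k220 k239 0 3))))] (.c k103 (.q k111 [(.s k69 k138 10 (.s k70
  k71 0 (.s k205 k206 0 (.d k137 k1 k3 9 10)))), (.s k138 k69 10 (.s k154 k186 3 (.s k101 k48 14 (.d
  k239 k223 k32 3 10)))), (.s k205 k206 0 (.s k237 k253 3 (.s k222 k252 4 (.d k223 k220 k239 0
  3))))] .n) (.c k111 (.l (.s k103 k199 11 (.s k69 k138 10 (.s k70 k71 0 (.s k137 k3 10 (.d k205
  k206 k1 0 9)))))) .n))) (.c k203 (.l (.s k155 k159 1 (.s k69 k138 10 (.s k70 k71 0 (.s k137 k3 10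
  (.d k205 k206 k1 0 9)))))) .n))))) (.c k147 (.q k99 [(.s k69 k138 10 (.s k70 k71 0 (.s k205 k206 0
  (.d k137 k1 k3 9 10)))), (.s k138 k69 10 (.s k154 k186 3 (.s k101 k48 14 (.d k239 k223 k32 3
  10)))), (.s k205 k206 0 (.s k237 k253 3 (.s k222 k252 4 (.d k223 k220 k239 0 3))))] (.c k155 (.q
  k203 [(.s k69 k138 10 (.s k70 k71 0 (.s k205 k206 0 (.d k137 k1 k3 9 10)))), (.s k138 k69 10 (.s
  k154 k186 3 (.s k101 k48 14 (.d k239 k223 k32 3 10)))), (.s k205 k206 0 (.s k237 k253 3 (.s k222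
  k252 4 (.d k223 k220 k239 0 3))))] .n) (.c k203 (.q k155 [(.s k69 k138 10 (.s k70 k71 0 (.s k205
  k206 0 (.d k137 k1 k3 9 10)))), (.s k138 k69 10 (.s k154 k186 3 (.s k101 k48 14 (.d k239 k223 k32
  3 10)))), (.s k205 k206 0 (.s k237 k253 3 (.s k222 k252 4 (.d k223 k220 k239 0 3))))] .n) .n)))
  (.c k155 (.q k203 [(.s k69 k138 10 (.s k70 k71 0 (.s k205 k206 0 (.d k137 k1 k3 9 10)))), (.s k138
  k69 10 (.s k154 k186 3 (.s k101 k48 14 (.d k239 k223 k32 3 10)))), (.s k205 k206 0 (.s k237 k253 3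
  (.s k222 k252 4 (.d k223 k220 k239 0 3))))] (.c k99 (.q k147 [(.s k69 k138 10 (.s k70 k71 0 (.s
  k205 k206 0 (.d k137 k1 k3 9 10)))), (.s k138 k69 10 (.s k154 k186 3 (.s k101 k48 14 (.d k239 k223
  k32 3 10)))), (.s k205 k206 0 (.s k237 k253 3 (.s k222 k252 4 (.d k223 k220 k239 0 3))))] (.c k103
  (.q k111 [(.s k69 k138 10 (.s k70 k71 0 (.s k205 k206 0 (.d k137 k1 k3 9 10)))), (.s k138 k69 10
  (.s k154 k186 3 (.s k101 k48 14 (.d k239 k223 k32 3 10)))), (.s k205 k206 0 (.s k237 k253 3 (.s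
  k222 k252 4 (.d k223 k220 k239 0 3))))] .n) (.c k111 (.l (.s k103 k199 11 (.s k69 k138 10 (.s k70
  k71 0 (.s k137 k3 10 (.d k205 k206 k1 0 9)))))) .n))) (.c k147 (.q k99 [(.s k69 k138 10 (.s k70
  k71 0 (.s k205 k206 0 (.d k137 k1 k3 9 10)))), (.s k138 k69 10 (.s k154 k186 3 (.s k101 k48 14 (.d
  k239 k223 k32 3 10)))), (.s k205 k206 0 (.s k237 k253 3 (.s k222 k252 4 (.d k223 k220 k239 0
  3))))] .n) .n))) (.c k203 (.q k155 [(.s k69 k138 10 (.s k70 k71 0 (.s k205 k206 0 (.d k137 k1 k3 9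
  10)))), (.s k138 k69 10 (.s k154 k186 3 (.s k101 k48 14 (.d k239 k223 k32 3 10)))), (.s k205 k206
  0 (.s k237 k253 3 (.s k222 k252 4 (.d k223 k220 k239 0 3))))] (.c k99 (.l (.s k147 k159 1 (.s k69
  k138 10 (.s k70 k71 0 (.s k137 k3 10 (.d k205 k206 k1 0 9)))))) (.c k147 (.q k99 [(.s k69 k138 10
  (.s k70 k71 0 (.s k205 k206 0 (.d k137 k1 k3 9 10)))), (.s k138 k69 10 (.s k154 k186 3 (.s k101
  k48 14 (.d k239 k223 k32 3 10)))), (.s k205 k206 0 (.s k237 k253 3 (.s k222 k252 4 (.d k223 k220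
  k239 0 3))))] .n) .n))) .n))))) (.c k99 (.q k147 [(.s k69 k138 10 (.s k70 k71 0 (.s k205 k206 0
  (.d k137 k1 k3 9 10)))), (.s k138 k69 10 (.s k154 k186 3 (.s k101 k48 14 (.d k239 k223 k32 3
  10)))), (.s k205 k206 0 (.s k237 k253 3 (.s k222 k252 4 (.d k223 k220 k239 0 3))))] (.c k55 (.q
  k59 [(.s k69 k138 10 (.s k70 k71 0 (.s k205 k206 0 (.d k137 k1 k3 9 10)))), (.s k138 k69 10 (.s
  k154 k186 3 (.s k101 k48 14 (.d k239 k223 k32 3 10)))), (.s k205 k206 0 (.s k237 k253 3 (.s k222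
  k252 4 (.d k223 k220 k239 0 3))))] (.c k103 (.q k111 [(.s k69 k138 10 (.s k70 k71 0 (.s k205 k206
  0 (.d k137 k1 k3 9 10)))), (.s k138 k69 10 (.s k154 k186 3 (.s k101 k48 14 (.d k239 k223 k32 3
  10)))), (.s k205 k206 0 (.s k237 k253 3 (.s k222 k252 4 (.d k223 k220 k239 0 3))))] .n) (.c k111
  (.q k103 [(.s k69 k138 10 (.s k70 k71 0 (.s k205 k206 0 (.d k137 k1 k3 9 10)))), (.s k138 k69 10
  (.s k154 k186 3 (.s k101 k48 14 (.d k239 k223 k32 3 10)))), (.s k205 k206 0 (.s k237 k253 3 (.s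
  k222 k252 4 (.d k223 k220 k239 0 3))))] .n) .n))) (.c k59 (.q k55 [(.s k69 k138 10 (.s k70 k71 0
  (.s k205 k206 0 (.d k137 k1 k3 9 10)))), (.s k138 k69 10 (.s k154 k186 3 (.s k101 k48 14 (.d k239
  k223 k32 3 10)))), (.s k205 k206 0 (.s k237 k253 3 (.s k222 k252 4 (.d k223 k220 k239 0 3))))] (.c
  k103 (.q k111 [(.s k69 k138 10 (.s k70 k71 0 (.s k205 k206 0 (.d k137 k1 k3 9 10)))), (.s k138 k69
  10 (.s k154 k186 3 (.s k101 k48 14 (.d k239 k223 k32 3 10)))), (.s k205 k206 0 (.s k237 k253 3 (.s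
  k222 k252 4 (.d k223 k220 k239 0 3))))] (.c k155 (.q k203 [(.s k69 k138 10 (.s k70 k71 0 (.s k205
  k206 0 (.d k137 k1 k3 9 10)))), (.s k138 k69 10 (.s k154 k186 3 (.s k101 k48 14 (.d k239 k223 k32
  3 10)))), (.s k205 k206 0 (.s k237 k253 3 (.s k222 k252 4 (.d k223 k220 k239 0 3))))] .n) (.c k203
  (.l (.s k155 k159 1 (.s k69 k138 10 (.s k70 k71 0 (.s k137 k3 10 (.d k205 k206 k1 0 9)))))) .n)))
  (.c k111 (.l (.s k103 k199 11 (.s k69 k138 10 (.s k70 k71 0 (.s k137 k3 10 (.d k205 k206 k1 0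
  9)))))) (.c k155 (.q k203 [(.s k69 k138 10 (.s k70 k71 0 (.s k205 k206 0 (.d k137 k1 k3 9 10)))),
  (.s k138 k69 10 (.s k154 k186 3 (.s k101 k48 14 (.d k239 k223 k32 3 10)))), (.s k205 k206 0 (.s
  k237 k253 3 (.s k222 k252 4 (.d k223 k220 k239 0 3))))] (.c k103 (.q k111 [(.s k69 k138 10 (.s k70
  k71 0 (.s k205 k206 0 (.d k137 k1 k3 9 10)))), (.s k138 k69 10 (.s k154 k186 3 (.s k101 k48 14 (.d
  k239 k223 k32 3 10)))), (.s k205 k206 0 (.s k237 k253 3 (.s k222 k252 4 (.d k223 k220 k239 0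
  3))))] .n) (.c k111 (.l (.s k103 k199 11 (.s k69 k138 10 (.s k70 k71 0 (.s k137 k3 10 (.d k205
  k206 k1 0 9)))))) .n))) (.c k203 (.l (.s k155 k159 1 (.s k69 k138 10 (.s k70 k71 0 (.s k137 k3 10
  (.d k205 k206 k1 0 9)))))) .n))))) (.c k103 (.q k111 [(.s k69 k138 10 (.s k70 k71 0 (.s k205 k206
  0 (.d k137 k1 k3 9 10)))), (.s k138 k69 10 (.s k154 k186 3 (.s k101 k48 14 (.d k239 k223 k32 3
  10)))), (.s k205 k206 0 (.s k237 k253 3 (.s k222 k252 4 (.d k223 k220 k239 0 3))))] (.c k55 (.q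
  k59 [(.s k69 k138 10 (.s k70 k71 0 (.s k205 k206 0 (.d k137 k1 k3 9 10)))), (.s k138 k69 10 (.s
  k154 k186 3 (.s k101 k48 14 (.d k239 k223 k32 3 10)))), (.s k205 k206 0 (.s k237 k253 3 (.s k222
  k252 4 (.d k223 k220 k239 0 3))))] .n) (.c k59 (.q k55 [(.s k69 k138 10 (.s k70 k71 0 (.s k205
  k206 0 (.d k137 k1 k3 9 10)))), (.s k138 k69 10 (.s k154 k186 3 (.s k101 k48 14 (.d k239 k223 k32
  3 10)))), (.s k205 k206 0 (.s k237 k253 3 (.s k222 k252 4 (.d k223 k220 k239 0 3))))] (.c k155 (.q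
  k203 [(.s k69 k138 10 (.s k70 k71 0 (.s k205 k206 0 (.d k137 k1 k3 9 10)))), (.s k138 k69 10 (.s
  k154 k186 3 (.s k101 k48 14 (.d k239 k223 k32 3 10)))), (.s k205 k206 0 (.s k237 k253 3 (.s k222
  k252 4 (.d k223 k220 k239 0 3))))] .n) (.c k203 (.l (.s k155 k159 1 (.s k69 k138 10 (.s k70 k71 0
  (.s k137 k3 10 (.d k205 k206 k1 0 9)))))) .n))) .n))) (.c k111 (.q k103 [(.s k69 k138 10 (.s k71
  k70 0 (.s k87 k119 3 (.d k3 k139 k171 9 13)))), (.s k205 k206 0 (.s k237 k253 3 (.s k222 k252 4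
  (.d k223 k220 k239 0 3))))] (.c k55 (.q k59 [(.s k69 k138 10 (.s k70 k71 0 (.s k205 k206 0 (.d
  k137 k1 k3 9 10)))), (.s k138 k69 10 (.s k154 k186 3 (.s k101 k48 14 (.d k239 k223 k32 3 10)))),
  (.s k205 k206 0 (.s k237 k253 3 (.s k222 k252 4 (.d k223 k220 k239 0 3))))] .n) (.c k59 (.l (.s
  k55 k199 11 (.s k69 k138 10 (.s k70 k71 0 (.s k137 k3 10 (.d k205 k206 k1 0 9)))))) (.c k206 (.l
  (.s k138 k69 10 (.s k154 k186 3 (.s k101 k48 14 (.d k239 k223 k32 3 10))))) .n)))) .n))))) (.c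
  k147 (.q k99 [(.s k69 k138 10 (.s k70 k71 0 (.s k205 k206 0 (.d k137 k1 k3 9 10)))), (.s k138 k69
  10 (.s k154 k186 3 (.s k101 k48 14 (.d k239 k223 k32 3 10)))), (.s k205 k206 0 (.s k237 k253 3 (.s
  k222 k252 4 (.d k223 k220 k239 0 3))))] (.c k55 (.q k59 [(.s k69 k138 10 (.s k70 k71 0 (.s k205
  k206 0 (.d k137 k1 k3 9 10)))), (.s k138 k69 10 (.s k154 k186 3 (.s k101 k48 14 (.d k239 k223 k32
  3 10)))), (.s k205 k206 0 (.s k237 k253 3 (.s k222 k252 4 (.d k223 k220 k239 0 3))))] .n) (.c k59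
  (.q k55 [(.s k69 k138 10 (.s k70 k71 0 (.s k205 k206 0 (.d k137 k1 k3 9 10)))), (.s k138 k69 10
  (.s k154 k186 3 (.s k101 k48 14 (.d k239 k223 k32 3 10)))), (.s k205 k206 0 (.s k237 k253 3 (.s
  k222 k252 4 (.d k223 k220 k239 0 3))))] (.c k155 (.q k203 [(.s k69 k138 10 (.s k70 k71 0 (.s k205
  k206 0 (.d k137 k1 k3 9 10)))), (.s k138 k69 10 (.s k154 k186 3 (.s k101 k48 14 (.d k239 k223 k32
  3 10)))), (.s k205 k206 0 (.s k237 k253 3 (.s k222 k252 4 (.d k223 k220 k239 0 3))))] .n) (.c k203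
  (.q k155 [(.s k69 k138 10 (.s k70 k71 0 (.s k205 k206 0 (.d k137 k1 k3 9 10)))), (.s k138 k69 10
  (.s k154 k186 3 (.s k101 k48 14 (.d k239 k223 k32 3 10)))), (.s k205 k206 0 (.s k237 k253 3 (.s
  k222 k252 4 (.d k223 k220 k239 0 3))))] .n) .n))) .n))) .n))))) (.c k147 (.q k99 [(.s k69 k138 10
  (.s k70 k71 0 (.s k205 k206 0 (.d k137 k1 k3 9 10)))), (.s k138 k69 10 (.s k154 k186 3 (.s k101
  k48 14 (.d k239 k223 k32 3 10)))), (.s k205 k206 0 (.s k237 k253 3 (.s k222 k252 4 (.d k223 k220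
  k239 0 3))))] (.c k55 (.q k59 [(.s k69 k138 10 (.s k70 k71 0 (.s k205 k206 0 (.d k137 k1 k3 9
  10)))), (.s k138 k69 10 (.s k154 k186 3 (.s k101 k48 14 (.d k239 k223 k32 3 10)))), (.s k205 k206
  0 (.s k237 k253 3 (.s k222 k252 4 (.d k223 k220 k239 0 3))))] (.c k107 (.q k151 [(.s k69 k138 10
  (.s k70 k71 0 (.s k205 k206 0 (.d k137 k1 k3 9 10)))), (.s k138 k69 10 (.s k154 k186 3 (.s k101
  k48 14 (.d k239 k223 k32 3 10)))), (.s k205 k206 0 (.s k237 k253 3 (.s k222 k252 4 (.d k223 k220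
  k239 0 3))))] .n) (.c k151 (.q k107 [(.s k69 k138 10 (.s k70 k71 0 (.s k205 k206 0 (.d k137 k1 k3
  9 10)))), (.s k138 k69 10 (.s k154 k186 3 (.s k101 k48 14 (.d k239 k223 k32 3 10)))), (.s k205
  k206 0 (.s k237 k253 3 (.s k222 k252 4 (.d k223 k220 k239 0 3))))] (.c k103 (.q k199 [(.s k69 k138
  10 (.s k70 k71 0 (.s k205 k206 0 (.d k137 k1 k3 9 10)))), (.s k138 k69 10 (.s k154 k186 3 (.s k101
  k48 14 (.d k239 k223 k32 3 10)))), (.s k205 k206 0 (.s k237 k253 3 (.s k222 k252 4 (.d k223 k220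
  k239 0 3))))] (.c k155 (.q k159 [(.s k69 k138 10 (.s k70 k71 0 (.s k205 k206 0 (.d k137 k1 k3 9
  10)))), (.s k138 k69 10 (.s k154 k186 3 (.s k101 k48 14 (.d k239 k223 k32 3 10)))), (.s k205 k206
  0 (.s k237 k253 3 (.s k222 k252 4 (.d k223 k220 k239 0 3))))] .n) (.c k159 (.l (.s k155 k203 11
  (.s k69 k138 10 (.s k70 k71 0 (.s k137 k3 10 (.d k205 k206 k1 0 9)))))) .n))) (.c k155 (.q k159
  [(.s k69 k138 10 (.s k70 k71 0 (.s k205 k206 0 (.d k137 k1 k3 9 10)))), (.s k138 k69 10 (.s k154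
  k186 3 (.s k101 k48 14 (.d k239 k223 k32 3 10)))), (.s k205 k206 0 (.s k237 k253 3 (.s k222 k252 4
  (.d k223 k220 k239 0 3))))] (.c k103 (.q k199 [(.s k69 k138 10 (.s k70 k71 0 (.s k205 k206 0 (.d
  k137 k1 k3 9 10)))), (.s k138 k69 10 (.s k154 k186 3 (.s k101 k48 14 (.d k239 k223 k32 3 10)))),
  (.s k205 k206 0 (.s k237 k253 3 (.s k222 k252 4 (.d k223 k220 k239 0 3))))] .n) (.c k199 (.l (.s
  k103 k111 1 (.s k69 k138 10 (.s k70 k71 0 (.s k137 k3 10 (.d k205 k206 k1 0 9)))))) .n))) (.c k159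
  (.l (.s k155 k203 11 (.s k69 k138 10 (.s k70 k71 0 (.s k137 k3 10 (.d k205 k206 k1 0 9)))))) (.c
  k199 (.l (.s k103 k111 1 (.s k69 k138 10 (.s k70 k71 0 (.s k137 k3 10 (.d k205 k206 k1 0 9))))))
  .n))))) .n))) (.c k59 (.q k55 [(.s k69 k138 10 (.s k70 k71 0 (.s k205 k206 0 (.d k137 k1 k3 9
  10)))), (.s k138 k69 10 (.s k154 k186 3 (.s k101 k48 14 (.d k239 k223 k32 3 10)))), (.s k205 k206
  0 (.s k237 k253 3 (.s k222 k252 4 (.d k223 k220 k239 0 3))))] (.c k107 (.q k151 [(.s k69 k138 10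
  (.s k70 k71 0 (.s k205 k206 0 (.d k137 k1 k3 9 10)))), (.s k138 k69 10 (.s k154 k186 3 (.s k101
  k48 14 (.d k239 k223 k32 3 10)))), (.s k205 k206 0 (.s k237 k253 3 (.s k222 k252 4 (.d k223 k220
  k239 0 3))))] (.c k155 (.q k203 [(.s k69 k138 10 (.s k70 k71 0 (.s k205 k206 0 (.d k137 k1 k3 9
  10)))), (.s k138 k69 10 (.s k154 k186 3 (.s k101 k48 14 (.d k239 k223 k32 3 10)))), (.s k205 k206
  0 (.s k237 k253 3 (.s k222 k252 4 (.d k223 k220 k239 0 3))))] .n) (.c k203 (.q k155 [(.s k69 k138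
  10 (.s k70 k71 0 (.s k205 k206 0 (.d k137 k1 k3 9 10)))), (.s k138 k69 10 (.s k154 k186 3 (.s k101
  k48 14 (.d k239 k223 k32 3 10)))), (.s k205 k206 0 (.s k237 k253 3 (.s k222 k252 4 (.d k223 k220
  k239 0 3))))] .n) .n))) (.c k151 (.q k107 [(.s k69 k138 10 (.s k70 k71 0 (.s k205 k206 0 (.d k137
  k1 k3 9 10)))), (.s k138 k69 10 (.s k154 k186 3 (.s k101 k48 14 (.d k239 k223 k32 3 10)))), (.s
  k205 k206 0 (.s k237 k253 3 (.s k222 k252 4 (.d k223 k220 k239 0 3))))] (.c k155 (.q k159 [(.s k69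
  k138 10 (.s k70 k71 0 (.s k205 k206 0 (.d k137 k1 k3 9 10)))), (.s k138 k69 10 (.s k154 k186 3 (.s
  k101 k48 14 (.d k239 k223 k32 3 10)))), (.s k205 k206 0 (.s k237 k253 3 (.s k222 k252 4 (.d k223
  k220 k239 0 3))))] .n) (.c k159 (.q k155 [(.s k69 k138 10 (.s k70 k71 0 (.s k205 k206 0 (.d k137
  k1 k3 9 10)))), (.s k138 k69 10 (.s k154 k186 3 (.s k101 k48 14 (.d k239 k223 k32 3 10)))), (.s
  k205 k206 0 (.s k237 k253 3 (.s k222 k252 4 (.d k223 k220 k239 0 3))))] .n) .n))) .n))) (.c k107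
  (.q k151 [(.s k69 k138 10 (.s k70 k71 0 (.s k205 k206 0 (.d k137 k1 k3 9 10)))), (.s k138 k69 10
  (.s k154 k186 3 (.s k101 k48 14 (.d k239 k223 k32 3 10)))), (.s k205 k206 0 (.s k237 k253 3 (.s
  k222 k252 4 (.d k223 k220 k239 0 3))))] (.c k55 (.q k59 [(.s k69 k138 10 (.s k70 k71 0 (.s k205
  k206 0 (.d k137 k1 k3 9 10)))), (.s k138 k69 10 (.s k154 k186 3 (.s k101 k48 14 (.d k239 k223 k32
  3 10)))), (.s k205 k206 0 (.s k237 k253 3 (.s k222 k252 4 (.d k223 k220 k239 0 3))))] .n) (.c k59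
  (.q k55 [(.s k69 k138 10 (.s k70 k71 0 (.s k205 k206 0 (.d k137 k1 k3 9 10)))), (.s k138 k69 10
  (.s k154 k186 3 (.s k101 k48 14 (.d k239 k223 k32 3 10)))), (.s k205 k206 0 (.s k237 k253 3 (.s
  k222 k252 4 (.d k223 k220 k239 0 3))))] (.c k155 (.q k203 [(.s k69 k138 10 (.s k70 k71 0 (.s k205
  k206 0 (.d k137 k1 k3 9 10)))), (.s k138 k69 10 (.s k154 k186 3 (.s k101 k48 14 (.d k239 k223 k32
  3 10)))), (.s k205 k206 0 (.s k237 k253 3 (.s k222 k252 4 (.d k223 k220 k239 0 3))))] .n) (.c k203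
  (.q k155 [(.s k69 k138 10 (.s k70 k71 0 (.s k205 k206 0 (.d k137 k1 k3 9 10)))), (.s k138 k69 10
  (.s k154 k186 3 (.s k101 k48 14 (.d k239 k223 k32 3 10)))), (.s k205 k206 0 (.s k237 k253 3 (.s
  k222 k252 4 (.d k223 k220 k239 0 3))))] .n) .n))) .n))) (.c k151 (.q k107 [(.s k69 k138 10 (.s k70
  k71 0 (.s k205 k206 0 (.d k137 k1 k3 9 10)))), (.s k138 k69 10 (.s k154 k186 3 (.s k101 k48 14 (.d
  k239 k223 k32 3 10)))), (.s k205 k206 0 (.s k237 k253 3 (.s k222 k252 4 (.d k223 k220 k239 0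
  3))))] (.c k55 (.q k59 [(.s k69 k138 10 (.s k70 k71 0 (.s k205 k206 0 (.d k137 k1 k3 9 10)))), (.s
  k138 k69 10 (.s k154 k186 3 (.s k101 k48 14 (.d k239 k223 k32 3 10)))), (.s k205 k206 0 (.s k237
  k253 3 (.s k222 k252 4 (.d k223 k220 k239 0 3))))] (.c k103 (.q k199 [(.s k69 k138 10 (.s k70 k71
  0 (.s k205 k206 0 (.d k137 k1 k3 9 10)))), (.s k138 k69 10 (.s k154 k186 3 (.s k101 k48 14 (.d
  k239 k223 k32 3 10)))), (.s k205 k206 0 (.s k237 k253 3 (.s k222 k252 4 (.d k223 k220 k239 0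
  3))))] (.c k155 (.q k159 [(.s k69 k138 10 (.s k70 k71 0 (.s k205 k206 0 (.d k137 k1 k3 9 10)))),
  (.s k138 k69 10 (.s k154 k186 3 (.s k101 k48 14 (.d k239 k223 k32 3 10)))), (.s k205 k206 0 (.s
  k237 k253 3 (.s k222 k252 4 (.d k223 k220 k239 0 3))))] .n) (.c k159 (.l (.s k155 k203 11 (.s k69
  k138 10 (.s k70 k71 0 (.s k137 k3 10 (.d k205 k206 k1 0 9)))))) .n))) (.c k155 (.q k159 [(.s k69
  k138 10 (.s k70 k71 0 (.s k205 k206 0 (.d k137 k1 k3 9 10)))), (.s k138 k69 10 (.s k154 k186 3 (.s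
  k101 k48 14 (.d k239 k223 k32 3 10)))), (.s k205 k206 0 (.s k237 k253 3 (.s k222 k252 4 (.d k223
  k220 k239 0 3))))] (.c k103 (.q k199 [(.s k69 k138 10 (.s k70 k71 0 (.s k205 k206 0 (.d k137 k1 k3
  9 10)))), (.s k138 k69 10 (.s k154 k186 3 (.s k101 k48 14 (.d k239 k223 k32 3 10)))), (.s k205
  k206 0 (.s k237 k253 3 (.s k222 k252 4 (.d k223 k220 k239 0 3))))] .n) (.c k199 (.l (.s k103 k111
  1 (.s k69 k138 10 (.s k70 k71 0 (.s k137 k3 10 (.d k205 k206 k1 0 9)))))) .n))) (.c k159 (.l (.s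
  k155 k203 11 (.s k69 k138 10 (.s k70 k71 0 (.s k137 k3 10 (.d k205 k206 k1 0 9)))))) (.c k199 (.l
  (.s k103 k111 1 (.s k69 k138 10 (.s k70 k71 0 (.s k137 k3 10 (.d k205 k206 k1 0 9)))))) .n)))))
  (.c k59 (.q k55 [(.s k69 k138 10 (.s k70 k71 0 (.s k205 k206 0 (.d k137 k1 k3 9 10)))), (.s k138
  k69 10 (.s k154 k186 3 (.s k101 k48 14 (.d k239 k223 k32 3 10)))), (.s k205 k206 0 (.s k237 k253 3
  (.s k222 k252 4 (.d k223 k220 k239 0 3))))] (.c k155 (.q k159 [(.s k69 k138 10 (.s k70 k71 0 (.s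
  k205 k206 0 (.d k137 k1 k3 9 10)))), (.s k138 k69 10 (.s k154 k186 3 (.s k101 k48 14 (.d k239 k223
  k32 3 10)))), (.s k205 k206 0 (.s k237 k253 3 (.s k222 k252 4 (.d k223 k220 k239 0 3))))] .n) (.c
  k159 (.q k155 [(.s k69 k138 10 (.s k70 k71 0 (.s k205 k206 0 (.d k137 k1 k3 9 10)))), (.s k138 k69
  10 (.s k154 k186 3 (.s k101 k48 14 (.d k239 k223 k32 3 10)))), (.s k205 k206 0 (.s k237 k253 3 (.s
  k222 k252 4 (.d k223 k220 k239 0 3))))] .n) .n))) (.c k155 (.q k159 [(.s k69 k138 10 (.s k70 k71 0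
  (.s k205 k206 0 (.d k137 k1 k3 9 10)))), (.s k138 k69 10 (.s k154 k186 3 (.s k101 k48 14 (.d k239
  k223 k32 3 10)))), (.s k205 k206 0 (.s k237 k253 3 (.s k222 k252 4 (.d k223 k220 k239 0 3))))] (.c
  k55 (.q k59 [(.s k69 k138 10 (.s k70 k71 0 (.s k205 k206 0 (.d k137 k1 k3 9 10)))), (.s k138 k69
  10 (.s k154 k186 3 (.s k101 k48 14 (.d k239 k223 k32 3 10)))), (.s k205 k206 0 (.s k237 k253 3 (.s
  k222 k252 4 (.d k223 k220 k239 0 3))))] (.c k103 (.q k199 [(.s k69 k138 10 (.s k70 k71 0 (.s k205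
  k206 0 (.d k137 k1 k3 9 10)))), (.s k138 k69 10 (.s k154 k186 3 (.s k101 k48 14 (.d k239 k223 k32
  3 10)))), (.s k205 k206 0 (.s k237 k253 3 (.s k222 k252 4 (.d k223 k220 k239 0 3))))] .n) (.c k199
  (.l (.s k103 k111 1 (.s k69 k138 10 (.s k70 k71 0 (.s k137 k3 10 (.d k205 k206 k1 0 9)))))) .n)))
  (.c k59 (.q k55 [(.s k69 k138 10 (.s k70 k71 0 (.s k205 k206 0 (.d k137 k1 k3 9 10)))), (.s k138
  k69 10 (.s k154 k186 3 (.s k101 k48 14 (.d k239 k223 k32 3 10)))), (.s k205 k206 0 (.s k237 k253 3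
  (.s k222 k252 4 (.d k223 k220 k239 0 3))))] .n) .n))) (.c k159 (.q k155 [(.s k69 k138 10 (.s k70
  k71 0 (.s k205 k206 0 (.d k137 k1 k3 9 10)))), (.s k138 k69 10 (.s k154 k186 3 (.s k101 k48 14 (.d
  k239 k223 k32 3 10)))), (.s k205 k206 0 (.s k237 k253 3 (.s k222 k252 4 (.d k223 k220 k239 0
  3))))] (.c k55 (.l (.s k59 k203 11 (.s k69 k138 10 (.s k70 k71 0 (.s k137 k3 10 (.d k205 k206 k1 0
  9)))))) (.c k59 (.q k55 [(.s k69 k138 10 (.s k70 k71 0 (.s k205 k206 0 (.d k137 k1 k3 9 10)))),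
  (.s k138 k69 10 (.s k154 k186 3 (.s k101 k48 14 (.d k239 k223 k32 3 10)))), (.s k205 k206 0 (.s
  k237 k253 3 (.s k222 k252 4 (.d k223 k220 k239 0 3))))] .n) .n))) .n))))) .n))))) (.c k151 (.q
  k107 [(.s k69 k138 10 (.s k70 k71 0 (.s k205 k206 0 (.d k137 k1 k3 9 10)))), (.s k138 k69 10 (.s
  k154 k186 3 (.s k101 k48 14 (.d k239 k223 k32 3 10)))), (.s k205 k206 0 (.s k237 k253 3 (.s k222
  k252 4 (.d k223 k220 k239 0 3))))] (.c k55 (.q k59 [(.s k69 k138 10 (.s k70 k71 0 (.s k205 k206 0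
  (.d k137 k1 k3 9 10)))), (.s k138 k69 10 (.s k154 k186 3 (.s k101 k48 14 (.d k239 k223 k32 3
  10)))), (.s k205 k206 0 (.s k237 k253 3 (.s k222 k252 4 (.d k223 k220 k239 0 3))))] (.c k99 (.q
  k147 [(.s k69 k138 10 (.s k70 k71 0 (.s k205 k206 0 (.d k137 k1 k3 9 10)))), (.s k138 k69 10 (.s
  k154 k186 3 (.s k101 k48 14 (.d k239 k223 k32 3 10)))), (.s k205 k206 0 (.s k237 k253 3 (.s k222
  k252 4 (.d k223 k220 k239 0 3))))] (.c k103 (.q k199 [(.s k69 k138 10 (.s k70 k71 0 (.s k205 k206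
  0 (.d k137 k1 k3 9 10)))), (.s k138 k69 10 (.s k154 k186 3 (.s k101 k48 14 (.d k239 k223 k32 3
  10)))), (.s k205 k206 0 (.s k237 k253 3 (.s k222 k252 4 (.d k223 k220 k239 0 3))))] .n) (.c k199
  (.q k103 [(.s k69 k138 10 (.s k71 k70 0 (.s k87 k119 3 (.d k3 k139 k171 9 13)))), (.s k205 k206 0
  (.s k237 k253 3 (.s k222 k252 4 (.d k223 k220 k239 0 3))))] (.c k206 (.l (.s k138 k69 10 (.s k154
  k186 3 (.s k101 k48 14 (.d k239 k223 k32 3 10))))) .n)) .n))) (.c k103 (.q k199 [(.s k69 k138 10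
  (.s k70 k71 0 (.s k205 k206 0 (.d k137 k1 k3 9 10)))), (.s k138 k69 10 (.s k154 k186 3 (.s k101
  k48 14 (.d k239 k223 k32 3 10)))), (.s k205 k206 0 (.s k237 k253 3 (.s k222 k252 4 (.d k223 k220
  k239 0 3))))] (.c k99 (.q k147 [(.s k69 k138 10 (.s k70 k71 0 (.s k205 k206 0 (.d k137 k1 k3 9
  10)))), (.s k138 k69 10 (.s k154 k186 3 (.s k101 k48 14 (.d k239 k223 k32 3 10)))), (.s k205 k206
  0 (.s k237 k253 3 (.s k222 k252 4 (.d k223 k220 k239 0 3))))] .n) (.c k147 (.q k99 [(.s k69 k138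
  10 (.s k70 k71 0 (.s k205 k206 0 (.d k137 k1 k3 9 10)))), (.s k138 k69 10 (.s k154 k186 3 (.s k101
  k48 14 (.d k239 k223 k32 3 10)))), (.s k205 k206 0 (.s k237 k253 3 (.s k222 k252 4 (.d k223 k220
  k239 0 3))))] (.c k155 (.q k159 [(.s k69 k138 10 (.s k70 k71 0 (.s k205 k206 0 (.d k137 k1 k3 9
  10)))), (.s k138 k69 10 (.s k154 k186 3 (.s k101 k48 14 (.d k239 k223 k32 3 10)))), (.s k205 k206
  0 (.s k237 k253 3 (.s k222 k252 4 (.d k223 k220 k239 0 3))))] .n) (.c k159 (.l (.s k155 k203 11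
  (.s k69 k138 10 (.s k70 k71 0 (.s k137 k3 10 (.d k205 k206 k1 0 9)))))) .n))) .n))) (.c k147 (.q
  k99 [(.s k69 k138 10 (.s k70 k71 0 (.s k205 k206 0 (.d k137 k1 k3 9 10)))), (.s k138 k69 10 (.s
  k154 k186 3 (.s k101 k48 14 (.d k239 k223 k32 3 10)))), (.s k205 k206 0 (.s k237 k253 3 (.s k222
  k252 4 (.d k223 k220 k239 0 3))))] (.c k103 (.q k199 [(.s k69 k138 10 (.s k70 k71 0 (.s k205 k206
  0 (.d k137 k1 k3 9 10)))), (.s k138 k69 10 (.s k154 k186 3 (.s k101 k48 14 (.d k239 k223 k32 3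
  10)))), (.s k205 k206 0 (.s k237 k253 3 (.s k222 k252 4 (.d k223 k220 k239 0 3))))] (.c k155 (.q
  k159 [(.s k69 k138 10 (.s k70 k71 0 (.s k205 k206 0 (.d k137 k1 k3 9 10)))), (.s k138 k69 10 (.s
  k154 k186 3 (.s k101 k48 14 (.d k239 k223 k32 3 10)))), (.s k205 k206 0 (.s k237 k253 3 (.s k222
  k252 4 (.d k223 k220 k239 0 3))))] .n) (.c k159 (.l (.s k155 k203 11 (.s k69 k138 10 (.s k70 k71 0
  (.s k137 k3 10 (.d k205 k206 k1 0 9)))))) .n))) (.c k155 (.q k159 [(.s k69 k138 10 (.s k70 k71 0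
  (.s k205 k206 0 (.d k137 k1 k3 9 10)))), (.s k138 k69 10 (.s k154 k186 3 (.s k101 k48 14 (.d k239
  k223 k32 3 10)))), (.s k205 k206 0 (.s k237 k253 3 (.s k222 k252 4 (.d k223 k220 k239 0 3))))] (.c
  k103 (.q k199 [(.s k69 k138 10 (.s k70 k71 0 (.s k205 k206 0 (.d k137 k1 k3 9 10)))), (.s k138 k69
  10 (.s k154 k186 3 (.s k101 k48 14 (.d k239 k223 k32 3 10)))), (.s k205 k206 0 (.s k237 k253 3 (.s
  k222 k252 4 (.d k223 k220 k239 0 3))))] .n) (.c k199 (.l (.s k103 k111 1 (.s k69 k138 10 (.s k70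
  k71 0 (.s k137 k3 10 (.d k205 k206 k1 0 9)))))) .n))) (.c k159 (.l (.s k155 k203 11 (.s k69 k138
  10 (.s k70 k71 0 (.s k137 k3 10 (.d k205 k206 k1 0 9)))))) (.c k199 (.l (.s k103 k111 1 (.s k69
  k138 10 (.s k70 k71 0 (.s k137 k3 10 (.d k205 k206 k1 0 9)))))) .n))))) (.c k199 (.q k103 [(.s k69
  k138 10 (.s k71 k70 0 (.s k87 k119 3 (.d k3 k139 k171 9 13)))), (.s k205 k206 0 (.s k237 k253 3
  (.s k222 k252 4 (.d k223 k220 k239 0 3))))] (.c k99 (.q k147 [(.s k69 k138 10 (.s k71 k70 0 (.s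
  k87 k119 3 (.d k3 k139 k171 9 13)))), (.s k205 k206 0 (.s k237 k253 3 (.s k222 k252 4 (.d k223
  k220 k239 0 3))))] (.c k206 (.l (.s k138 k69 10 (.s k154 k186 3 (.s k101 k48 14 (.d k239 k223 k32
  3 10))))) .n)) (.c k147 (.l (.s k99 k111 1 (.s k69 k138 10 (.s k70 k71 0 (.s k137 k3 10 (.d k205
  k206 k1 0 9)))))) (.c k206 (.l (.s k138 k69 10 (.s k154 k186 3 (.s k101 k48 14 (.d k239 k223 k32 3
  10))))) .n)))) .n))))) (.c k59 (.q k55 [(.s k69 k138 10 (.s k70 k71 0 (.s k205 k206 0 (.d k137 k1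
  k3 9 10)))), (.s k138 k69 10 (.s k154 k186 3 (.s k101 k48 14 (.d k239 k223 k32 3 10)))), (.s k205
  k206 0 (.s k237 k253 3 (.s k222 k252 4 (.d k223 k220 k239 0 3))))] (.c k99 (.q k147 [(.s k69 k138
  10 (.s k70 k71 0 (.s k205 k206 0 (.d k137 k1 k3 9 10)))), (.s k138 k69 10 (.s k154 k186 3 (.s k101
  k48 14 (.d k239 k223 k32 3 10)))), (.s k205 k206 0 (.s k237 k253 3 (.s k222 k252 4 (.d k223 k220
  k239 0 3))))] .n) (.c k147 (.q k99 [(.s k69 k138 10 (.s k70 k71 0 (.s k205 k206 0 (.d k137 k1 k3 9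
  10)))), (.s k138 k69 10 (.s k154 k186 3 (.s k101 k48 14 (.d k239 k223 k32 3 10)))), (.s k205 k206
  0 (.s k237 k253 3 (.s k222 k252 4 (.d k223 k220 k239 0 3))))] (.c k155 (.q k159 [(.s k69 k138 10
  (.s k70 k71 0 (.s k205 k206 0 (.d k137 k1 k3 9 10)))), (.s k138 k69 10 (.s k154 k186 3 (.s k101
  k48 14 (.d k239 k223 k32 3 10)))), (.s k205 k206 0 (.s k237 k253 3 (.s k222 k252 4 (.d k223 k220
  k239 0 3))))] .n) (.c k159 (.q k155 [(.s k69 k138 10 (.s k70 k71 0 (.s k205 k206 0 (.d k137 k1 k3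
  9 10)))), (.s k138 k69 10 (.s k154 k186 3 (.s k101 k48 14 (.d k239 k223 k32 3 10)))), (.s k205
  k206 0 (.s k237 k253 3 (.s k222 k252 4 (.d k223 k220 k239 0 3))))] .n) .n))) .n))) (.c k99 (.q
  k147 [(.s k69 k138 10 (.s k70 k71 0 (.s k205 k206 0 (.d k137 k1 k3 9 10)))), (.s k138 k69 10 (.s
  k154 k186 3 (.s k101 k48 14 (.d k239 k223 k32 3 10)))), (.s k205 k206 0 (.s k237 k253 3 (.s k222
  k252 4 (.d k223 k220 k239 0 3))))] (.c k55 (.q k59 [(.s k69 k138 10 (.s k70 k71 0 (.s k205 k206 0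
  (.d k137 k1 k3 9 10)))), (.s k138 k69 10 (.s k154 k186 3 (.s k101 k48 14 (.d k239 k223 k32 3
  10)))), (.s k205 k206 0 (.s k237 k253 3 (.s k222 k252 4 (.d k223 k220 k239 0 3))))] (.c k103 (.q
  k199 [(.s k69 k138 10 (.s k70 k71 0 (.s k205 k206 0 (.d k137 k1 k3 9 10)))), (.s k138 k69 10 (.s
  k154 k186 3 (.s k101 k48 14 (.d k239 k223 k32 3 10)))), (.s k205 k206 0 (.s k237 k253 3 (.s k222
  k252 4 (.d k223 k220 k239 0 3))))] .n) (.c k199 (.q k103 [(.s k69 k138 10 (.s k71 k70 0 (.s k87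
  k119 3 (.d k3 k139 k171 9 13)))), (.s k205 k206 0 (.s k237 k253 3 (.s k222 k252 4 (.d k223 k220
  k239 0 3))))] (.c k206 (.l (.s k138 k69 10 (.s k154 k186 3 (.s k101 k48 14 (.d k239 k223 k32 3
  10))))) .n)) .n))) (.c k59 (.q k55 [(.s k69 k138 10 (.s k70 k71 0 (.s k205 k206 0 (.d k137 k1 k3 9
  10)))), (.s k138 k69 10 (.s k154 k186 3 (.s k101 k48 14 (.d k239 k223 k32 3 10)))), (.s k205 k206
  0 (.s k237 k253 3 (.s k222 k252 4 (.d k223 k220 k239 0 3))))] .n) .n))) (.c k147 (.q k99 [(.s k69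
  k138 10 (.s k70 k71 0 (.s k205 k206 0 (.d k137 k1 k3 9 10)))), (.s k138 k69 10 (.s k154 k186 3 (.s
  k101 k48 14 (.d k239 k223 k32 3 10)))), (.s k205 k206 0 (.s k237 k253 3 (.s k222 k252 4 (.d k223
  k220 k239 0 3))))] (.c k55 (.q k59 [(.s k69 k138 10 (.s k70 k71 0 (.s k205 k206 0 (.d k137 k1 k3 9
  10)))), (.s k138 k69 10 (.s k154 k186 3 (.s k101 k48 14 (.d k239 k223 k32 3 10)))), (.s k205 k206
  0 (.s k237 k253 3 (.s k222 k252 4 (.d k223 k220 k239 0 3))))] (.c k103 (.q k199 [(.s k69 k138 10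
  (.s k70 k71 0 (.s k205 k206 0 (.d k137 k1 k3 9 10)))), (.s k138 k69 10 (.s k154 k186 3 (.s k101
  k48 14 (.d k239 k223 k32 3 10)))), (.s k205 k206 0 (.s k237 k253 3 (.s k222 k252 4 (.d k223 k220
  k239 0 3))))] (.c k155 (.q k159 [(.s k69 k138 10 (.s k70 k71 0 (.s k205 k206 0 (.d k137 k1 k3 9
  10)))), (.s k138 k69 10 (.s k154 k186 3 (.s k101 k48 14 (.d k239 k223 k32 3 10)))), (.s k205 k206
  0 (.s k237 k253 3 (.s k222 k252 4 (.d k223 k220 k239 0 3))))] .n) (.c k159 (.l (.s k155 k203 11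
  (.s k69 k138 10 (.s k70 k71 0 (.s k137 k3 10 (.d k205 k206 k1 0 9)))))) .n))) (.c k155 (.q k159
  [(.s k69 k138 10 (.s k70 k71 0 (.s k205 k206 0 (.d k137 k1 k3 9 10)))), (.s k138 k69 10 (.s k154
  k186 3 (.s k101 k48 14 (.d k239 k223 k32 3 10)))), (.s k205 k206 0 (.s k237 k253 3 (.s k222 k252 4
  (.d k223 k220 k239 0 3))))] (.c k103 (.q k199 [(.s k69 k138 10 (.s k70 k71 0 (.s k205 k206 0 (.d
  k137 k1 k3 9 10)))), (.s k138 k69 10 (.s k154 k186 3 (.s k101 k48 14 (.d k239 k223 k32 3 10)))),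
  (.s k205 k206 0 (.s k237 k253 3 (.s k222 k252 4 (.d k223 k220 k239 0 3))))] .n) (.c k199 (.l (.s
  k103 k111 1 (.s k69 k138 10 (.s k70 k71 0 (.s k137 k3 10 (.d k205 k206 k1 0 9)))))) .n))) (.c k159
  (.l (.s k155 k203 11 (.s k69 k138 10 (.s k70 k71 0 (.s k137 k3 10 (.d k205 k206 k1 0 9)))))) (.c
  k199 (.l (.s k103 k111 1 (.s k69 k138 10 (.s k70 k71 0 (.s k137 k3 10 (.d k205 k206 k1 0 9))))))
  .n))))) (.c k59 (.q k55 [(.s k69 k138 10 (.s k70 k71 0 (.s k205 k206 0 (.d k137 k1 k3 9 10)))),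
  (.s k138 k69 10 (.s k154 k186 3 (.s k101 k48 14 (.d k239 k223 k32 3 10)))), (.s k205 k206 0 (.s
  k237 k253 3 (.s k222 k252 4 (.d k223 k220 k239 0 3))))] (.c k155 (.q k159 [(.s k69 k138 10 (.s k70
  k71 0 (.s k205 k206 0 (.d k137 k1 k3 9 10)))), (.s k138 k69 10 (.s k154 k186 3 (.s k101 k48 14 (.d
  k239 k223 k32 3 10)))), (.s k205 k206 0 (.s k237 k253 3 (.s k222 k252 4 (.d k223 k220 k239 0
  3))))] .n) (.c k159 (.q k155 [(.s k69 k138 10 (.s k70 k71 0 (.s k205 k206 0 (.d k137 k1 k3 9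
  10)))), (.s k138 k69 10 (.s k154 k186 3 (.s k101 k48 14 (.d k239 k223 k32 3 10)))), (.s k205 k206
  0 (.s k237 k253 3 (.s k222 k252 4 (.d k223 k220 k239 0 3))))] .n) .n))) (.c k155 (.q k159 [(.s k69
  k138 10 (.s k70 k71 0 (.s k205 k206 0 (.d k137 k1 k3 9 10)))), (.s k138 k69 10 (.s k154 k186 3 (.s
  k101 k48 14 (.d k239 k223 k32 3 10)))), (.s k205 k206 0 (.s k237 k253 3 (.s k222 k252 4 (.d k223
  k220 k239 0 3))))] (.c k55 (.q k59 [(.s k69 k138 10 (.s k70 k71 0 (.s k205 k206 0 (.d k137 k1 k3 9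
  10)))), (.s k138 k69 10 (.s k154 k186 3 (.s k101 k48 14 (.d k239 k223 k32 3 10)))), (.s k205 k206
  0 (.s k237 k253 3 (.s k222 k252 4 (.d k223 k220 k239 0 3))))] (.c k103 (.q k199 [(.s k69 k138 10
  (.s k70 k71 0 (.s k205 k206 0 (.d k137 k1 k3 9 10)))), (.s k138 k69 10 (.s k154 k186 3 (.s k101
  k48 14 (.d k239 k223 k32 3 10)))), (.s k205 k206 0 (.s k237 k253 3 (.s k222 k252 4 (.d k223 k220
  k239 0 3))))] .n) (.c k199 (.l (.s k103 k111 1 (.s k69 k138 10 (.s k70 k71 0 (.s k137 k3 10 (.d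
  k205 k206 k1 0 9)))))) .n))) (.c k59 (.q k55 [(.s k69 k138 10 (.s k70 k71 0 (.s k205 k206 0 (.d
  k137 k1 k3 9 10)))), (.s k138 k69 10 (.s k154 k186 3 (.s k101 k48 14 (.d k239 k223 k32 3 10)))),
  (.s k205 k206 0 (.s k237 k253 3 (.s k222 k252 4 (.d k223 k220 k239 0 3))))] .n) .n))) (.c k159 (.q
  k155 [(.s k69 k138 10 (.s k70 k71 0 (.s k205 k206 0 (.d k137 k1 k3 9 10)))), (.s k138 k69 10 (.s
  k154 k186 3 (.s k101 k48 14 (.d k239 k223 k32 3 10)))), (.s k205 k206 0 (.s k237 k253 3 (.s k222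
  k252 4 (.d k223 k220 k239 0 3))))] (.c k55 (.l (.s k59 k203 11 (.s k69 k138 10 (.s k70 k71 0 (.s
  k137 k3 10 (.d k205 k206 k1 0 9)))))) (.c k59 (.q k55 [(.s k69 k138 10 (.s k70 k71 0 (.s k205 k206
  0 (.d k137 k1 k3 9 10)))), (.s k138 k69 10 (.s k154 k186 3 (.s k101 k48 14 (.d k239 k223 k32 3
  10)))), (.s k205 k206 0 (.s k237 k253 3 (.s k222 k252 4 (.d k223 k220 k239 0 3))))] .n) .n)))
  .n))))) .n))))) .n)))))))))) (.c k68 (.f k238 k221 4 (.f k85 k170 14 (.q k207 [(.s k69 k138 10 (.s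
  k101 k117 3 (.s k223 k239 3 (.d k154 k16 k48 10 14)))), (.s k206 k205 0 (.s k222 k254 3 (.s k237
  k252 4 (.d k239 k236 k223 0 3)))), (.s k69 k138 10 (.s k101 k117 3 (.s k154 k48 14 (.s k205 k206 0
  (.s k153 k49 13 (.s k51 k102 14 (.d k155 k152 k103 0 13)))))))] (.c k107 (.q k151 [(.s k69 k138 10
  (.s k101 k117 3 (.s k223 k239 3 (.d k154 k16 k48 10 14)))), (.s k206 k205 0 (.s k222 k254 3 (.s
  k237 k252 4 (.d k239 k236 k223 0 3)))), (.s k69 k138 10 (.s k101 k117 3 (.s k154 k48 14 (.s k205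
  k206 0 (.s k153 k49 13 (.s k51 k102 14 (.d k155 k152 k103 0 13)))))))] .n) (.c k151 (.q k107 [(.s
  k69 k138 10 (.s k101 k117 3 (.s k223 k239 3 (.d k154 k16 k48 10 14)))), (.s k206 k205 0 (.s k222
  k254 3 (.s k237 k252 4 (.d k239 k236 k223 0 3)))), (.s k69 k138 10 (.s k101 k117 3 (.s k154 k48 14
  (.s k205 k206 0 (.s k153 k49 13 (.s k51 k102 14 (.d k155 k152 k103 0 13)))))))] .n) .n))))) (.c
  k85 (.f k68 k136 9 (.f k221 k238 4 (.q k207 [(.s k205 k206 0 (.s k223 k239 3 (.s k222 k220 0 (.d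
  k237 k253 k252 3 4)))), (.s k69 k138 10 (.s k70 k71 0 (.s k137 k3 10 (.d k205 k206 k1 0 9))))] (.c
  k107 (.q k151 [(.s k205 k206 0 (.s k223 k239 3 (.s k222 k220 0 (.d k237 k253 k252 3 4)))), (.s k69
  k138 10 (.s k70 k71 0 (.s k137 k3 10 (.d k205 k206 k1 0 9))))] (.c k205 (.q k153 [(.s k69 k138 10
  (.s k51 k102 14 (.s k103 k155 13 (.s k119 k187 9 (.d k71 k70 k87 0 3))))), (.s k51 k102 14 (.s
  k155 k103 13 (.s k223 k239 3 (.s k220 k222 0 (.d k19 k87 k86 9 10))))), (.s k69 k138 10 (.s k102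
  k51 14 (.s k70 k71 0 (.s k86 k118 3 (.s k220 k19 10 (.d k223 k222 k239 0 3)))))), (.s k69 k138 10
  (.s k70 k71 0 (.s k223 k239 3 (.s k220 k222 0 (.s k19 k86 10 (.s k87 k155 9 (.d k3 k137 k171 10
  13)))))))] .n) (.c k206 (.l (.s k69 k138 10 (.s k70 k71 0 (.s k137 k3 10 (.s k205 k1 9 (.s k223
  k239 3 (.s k222 k220 0 (.d k237 k253 k252 3 4)))))))) .n))) (.c k151 (.q k107 [(.s k205 k206 0 (.s
  k223 k239 3 (.s k222 k220 0 (.d k237 k253 k252 3 4)))), (.s k69 k138 10 (.s k70 k71 0 (.s k137 k3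
  10 (.d k205 k206 k1 0 9))))] (.c k205 (.q k153 [(.s k69 k138 10 (.s k51 k102 14 (.s k103 k155 13
  (.s k119 k187 9 (.d k71 k70 k87 0 3))))), (.s k51 k102 14 (.s k155 k103 13 (.s k223 k239 3 (.s
  k220 k222 0 (.d k19 k87 k86 9 10))))), (.s k69 k138 10 (.s k102 k51 14 (.s k70 k71 0 (.s k86 k118
  3 (.s k220 k19 10 (.d k223 k222 k239 0 3)))))), (.s k69 k138 10 (.s k70 k71 0 (.s k223 k239 3 (.s
  k220 k222 0 (.s k19 k86 10 (.s k87 k155 9 (.d k3 k137 k171 10 13)))))))] .n) (.c k206 (.l (.s k69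
  k138 10 (.s k70 k71 0 (.s k137 k3 10 (.s k205 k1 9 (.s k223 k239 3 (.s k222 k220 0 (.d k237 k253
  k252 3 4)))))))) .n))) (.c k205 (.q k153 [(.s k69 k138 10 (.s k51 k102 14 (.s k103 k155 13 (.s
  k119 k187 9 (.d k71 k70 k87 0 3))))), (.s k69 k138 10 (.s k102 k51 14 (.s k70 k71 0 (.s k86 k118 3
  (.s k220 k19 10 (.d k223 k222 k239 0 3)))))), (.s k51 k102 14 (.s k155 k103 13 (.s k223 k239 3 (.s
  k220 k222 0 (.d k19 k87 k86 9 10))))), (.s k69 k138 10 (.s k70 k71 0 (.s k223 k239 3 (.s k220 k222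
  0 (.s k19 k86 10 (.s k87 k155 9 (.d k3 k137 k171 10 13)))))))] (.c k107 (.q k151 [(.s k69 k138 10
  (.s k51 k102 14 (.s k103 k155 13 (.s k119 k187 9 (.d k71 k70 k87 0 3))))), (.s k51 k102 14 (.s
  k155 k103 13 (.s k223 k239 3 (.s k220 k222 0 (.d k19 k87 k86 9 10))))), (.s k69 k138 10 (.s k102
  k51 14 (.s k70 k71 0 (.s k86 k118 3 (.s k220 k19 10 (.d k223 k222 k239 0 3)))))), (.s k69 k138 10
  (.s k70 k71 0 (.s k223 k239 3 (.s k220 k222 0 (.s k19 k86 10 (.s k87 k155 9 (.d k3 k137 k171 10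
  13)))))))] .n) (.c k151 (.q k107 [(.s k69 k138 10 (.s k51 k102 14 (.s k103 k155 13 (.s k119 k187 9
  (.d k71 k70 k87 0 3))))), (.s k51 k102 14 (.s k155 k103 13 (.s k223 k239 3 (.s k220 k222 0 (.d k19
  k87 k86 9 10))))), (.s k69 k138 10 (.s k102 k51 14 (.s k70 k71 0 (.s k86 k118 3 (.s k220 k19 10
  (.d k223 k222 k239 0 3)))))), (.s k69 k138 10 (.s k70 k71 0 (.s k223 k239 3 (.s k220 k222 0 (.s
  k19 k86 10 (.s k87 k155 9 (.d k3 k137 k171 10 13)))))))] .n) .n))) (.c k206 (.l (.s k69 k138 10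
  (.s k70 k71 0 (.s k137 k3 10 (.s k205 k1 9 (.s k223 k239 3 (.s k222 k220 0 (.d k237 k253 k252 3
  4)))))))) .n))))))) (.c k102 (.f k238 k221 4 (.f k85 k170 14 (.q k207 [(.s k69 k138 10 (.s k101
  k117 3 (.s k223 k239 3 (.d k154 k16 k48 10 14)))), (.s k206 k205 0 (.s k222 k254 3 (.s k237 k252 4
  (.d k239 k236 k223 0 3)))), (.s k68 k136 9 (.s k69 k138 10 (.s k70 k71 0 (.s k137 k3 10 (.d k205
  k206 k1 0 9)))))] (.c k107 (.q k151 [(.s k69 k138 10 (.s k101 k117 3 (.s k223 k239 3 (.d k154 k16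
  k48 10 14)))), (.s k206 k205 0 (.s k222 k254 3 (.s k237 k252 4 (.d k239 k236 k223 0 3)))), (.s k68
  k136 9 (.s k69 k138 10 (.s k70 k71 0 (.s k137 k3 10 (.d k205 k206 k1 0 9)))))] .n) (.c k151 (.q
  k107 [(.s k69 k138 10 (.s k101 k117 3 (.s k223 k239 3 (.d k154 k16 k48 10 14)))), (.s k206 k205 0
  (.s k222 k254 3 (.s k237 k252 4 (.d k239 k236 k223 0 3)))), (.s k68 k136 9 (.s k69 k138 10 (.s k70
  k71 0 (.s k137 k3 10 (.d k205 k206 k1 0 9)))))] .n) .n))))) (.c k107 (.q k151 [(.s k68 k136 9 (.s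
  k85 k170 14 (.s k102 k119 4 (.s k221 k238 4 (.d k153 k17 k51 9 14)))))] (.c k17 (.l (.s k136 k68 9
  (.s k170 k85 14 (.s k153 k187 4 (.s k102 k51 14 (.d k238 k221 k34 4 9)))))) (.c k51 (.f k68 k136 9
  (.f k170 k85 14 (.f k221 k238 4 (.q k207 [(.s k69 k138 10 (.s k70 k71 0 (.s k205 k206 0 (.d k137
  k1 k3 9 10)))), (.s k138 k69 10 (.s k154 k186 3 (.s k101 k48 14 (.d k239 k223 k32 3 10)))), (.s
  k205 k206 0 (.s k237 k253 3 (.s k222 k252 4 (.d k223 k220 k239 0 3))))] (.c k55 (.q k59 [(.s k69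
  k138 10 (.s k70 k71 0 (.s k205 k206 0 (.d k137 k1 k3 9 10)))), (.s k138 k69 10 (.s k154 k186 3 (.s
  k101 k48 14 (.d k239 k223 k32 3 10)))), (.s k205 k206 0 (.s k237 k253 3 (.s k222 k252 4 (.d k223
  k220 k239 0 3))))] (.c k99 (.q k147 [(.s k69 k138 10 (.s k70 k71 0 (.s k205 k206 0 (.d k137 k1 k3
  9 10)))), (.s k138 k69 10 (.s k154 k186 3 (.s k101 k48 14 (.d k239 k223 k32 3 10)))), (.s k205
  k206 0 (.s k237 k253 3 (.s k222 k252 4 (.d k223 k220 k239 0 3))))] (.c k103 (.q k111 [(.s k69 k138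
  10 (.s k70 k71 0 (.s k205 k206 0 (.d k137 k1 k3 9 10)))), (.s k138 k69 10 (.s k154 k186 3 (.s k101
  k48 14 (.d k239 k223 k32 3 10)))), (.s k205 k206 0 (.s k237 k253 3 (.s k222 k252 4 (.d k223 k220
  k239 0 3))))] .n) (.c k111 (.q k103 [(.s k69 k138 10 (.s k70 k71 0 (.s k205 k206 0 (.d k137 k1 k3
  9 10)))), (.s k138 k69 10 (.s k154 k186 3 (.s k101 k48 14 (.d k239 k223 k32 3 10)))), (.s k205
  k206 0 (.s k237 k253 3 (.s k222 k252 4 (.d k223 k220 k239 0 3))))] .n) .n))) (.c k147 (.q k99 [(.s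
  k69 k138 10 (.s k70 k71 0 (.s k205 k206 0 (.d k137 k1 k3 9 10)))), (.s k138 k69 10 (.s k154 k186 3
  (.s k101 k48 14 (.d k239 k223 k32 3 10)))), (.s k205 k206 0 (.s k237 k253 3 (.s k222 k252 4 (.d
  k223 k220 k239 0 3))))] .n) .n))) (.c k59 (.q k55 [(.s k69 k138 10 (.s k70 k71 0 (.s k205 k206 0
  (.d k137 k1 k3 9 10)))), (.s k138 k69 10 (.s k154 k186 3 (.s k101 k48 14 (.d k239 k223 k32 3
  10)))), (.s k205 k206 0 (.s k237 k253 3 (.s k222 k252 4 (.d k223 k220 k239 0 3))))] (.c k99 (.q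
  k147 [(.s k69 k138 10 (.s k70 k71 0 (.s k205 k206 0 (.d k137 k1 k3 9 10)))), (.s k138 k69 10 (.s
  k154 k186 3 (.s k101 k48 14 (.d k239 k223 k32 3 10)))), (.s k205 k206 0 (.s k237 k253 3 (.s k222
  k252 4 (.d k223 k220 k239 0 3))))] (.c k103 (.q k111 [(.s k69 k138 10 (.s k70 k71 0 (.s k205 k206
  0 (.d k137 k1 k3 9 10)))), (.s k138 k69 10 (.s k154 k186 3 (.s k101 k48 14 (.d k239 k223 k32 3
  10)))), (.s k205 k206 0 (.s k237 k253 3 (.s k222 k252 4 (.d k223 k220 k239 0 3))))] (.c k155 (.q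
  k203 [(.s k69 k138 10 (.s k70 k71 0 (.s k205 k206 0 (.d k137 k1 k3 9 10)))), (.s k138 k69 10 (.s
  k154 k186 3 (.s k101 k48 14 (.d k239 k223 k32 3 10)))), (.s k205 k206 0 (.s k237 k253 3 (.s k222
  k252 4 (.d k223 k220 k239 0 3))))] .n) (.c k203 (.l (.s k155 k159 1 (.s k69 k138 10 (.s k70 k71 0
  (.s k137 k3 10 (.d k205 k206 k1 0 9)))))) .n))) (.c k111 (.l (.s k103 k199 11 (.s k69 k138 10 (.s
  k70 k71 0 (.s k137 k3 10 (.d k205 k206 k1 0 9)))))) (.c k155 (.q k203 [(.s k69 k138 10 (.s k70 k71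
  0 (.s k205 k206 0 (.d k137 k1 k3 9 10)))), (.s k138 k69 10 (.s k154 k186 3 (.s k101 k48 14 (.d
  k239 k223 k32 3 10)))), (.s k205 k206 0 (.s k237 k253 3 (.s k222 k252 4 (.d k223 k220 k239 0
  3))))] (.c k103 (.q k111 [(.s k69 k138 10 (.s k70 k71 0 (.s k205 k206 0 (.d k137 k1 k3 9 10)))),
  (.s k138 k69 10 (.s k154 k186 3 (.s k101 k48 14 (.d k239 k223 k32 3 10)))), (.s k205 k206 0 (.s
  k237 k253 3 (.s k222 k252 4 (.d k223 k220 k239 0 3))))] .n) (.c k111 (.l (.s k103 k199 11 (.s k69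
  k138 10 (.s k70 k71 0 (.s k137 k3 10 (.d k205 k206 k1 0 9)))))) .n))) (.c k203 (.l (.s k155 k159 1
  (.s k69 k138 10 (.s k70 k71 0 (.s k137 k3 10 (.d k205 k206 k1 0 9)))))) .n))))) (.c k147 (.q k99
  [(.s k69 k138 10 (.s k70 k71 0 (.s k205 k206 0 (.d k137 k1 k3 9 10)))), (.s k138 k69 10 (.s k154
  k186 3 (.s k101 k48 14 (.d k239 k223 k32 3 10)))), (.s k205 k206 0 (.s k237 k253 3 (.s k222 k252 4
  (.d k223 k220 k239 0 3))))] (.c k155 (.q k203 [(.s k69 k138 10 (.s k70 k71 0 (.s k205 k206 0 (.d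
  k137 k1 k3 9 10)))), (.s k138 k69 10 (.s k154 k186 3 (.s k101 k48 14 (.d k239 k223 k32 3 10)))),
  (.s k205 k206 0 (.s k237 k253 3 (.s k222 k252 4 (.d k223 k220 k239 0 3))))] .n) (.c k203 (.q k155
  [(.s k69 k138 10 (.s k70 k71 0 (.s k205 k206 0 (.d k137 k1 k3 9 10)))), (.s k138 k69 10 (.s k154
  k186 3 (.s k101 k48 14 (.d k239 k223 k32 3 10)))), (.s k205 k206 0 (.s k237 k253 3 (.s k222 k252 4
  (.d k223 k220 k239 0 3))))] .n) .n))) (.c k155 (.q k203 [(.s k69 k138 10 (.s k70 k71 0 (.s k205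
  k206 0 (.d k137 k1 k3 9 10)))), (.s k138 k69 10 (.s k154 k186 3 (.s k101 k48 14 (.d k239 k223 k32
  3 10)))), (.s k205 k206 0 (.s k237 k253 3 (.s k222 k252 4 (.d k223 k220 k239 0 3))))] (.c k99 (.q
  k147 [(.s k69 k138 10 (.s k70 k71 0 (.s k205 k206 0 (.d k137 k1 k3 9 10)))), (.s k138 k69 10 (.s
  k154 k186 3 (.s k101 k48 14 (.d k239 k223 k32 3 10)))), (.s k205 k206 0 (.s k237 k253 3 (.s k222
  k252 4 (.d k223 k220 k239 0 3))))] (.c k103 (.q k111 [(.s k69 k138 10 (.s k70 k71 0 (.s k205 k206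
  0 (.d k137 k1 k3 9 10)))), (.s k138 k69 10 (.s k154 k186 3 (.s k101 k48 14 (.d k239 k223 k32 3
  10)))), (.s k205 k206 0 (.s k237 k253 3 (.s k222 k252 4 (.d k223 k220 k239 0 3))))] .n) (.c k111
  (.l (.s k103 k199 11 (.s k69 k138 10 (.s k70 k71 0 (.s k137 k3 10 (.d k205 k206 k1 0 9)))))) .n)))
  (.c k147 (.q k99 [(.s k69 k138 10 (.s k70 k71 0 (.s k205 k206 0 (.d k137 k1 k3 9 10)))), (.s k138
  k69 10 (.s k154 k186 3 (.s k101 k48 14 (.d k239 k223 k32 3 10)))), (.s k205 k206 0 (.s k237 k253 3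
  (.s k222 k252 4 (.d k223 k220 k239 0 3))))] .n) .n))) (.c k203 (.q k155 [(.s k69 k138 10 (.s k70
  k71 0 (.s k205 k206 0 (.d k137 k1 k3 9 10)))), (.s k138 k69 10 (.s k154 k186 3 (.s k101 k48 14 (.d
  k239 k223 k32 3 10)))), (.s k205 k206 0 (.s k237 k253 3 (.s k222 k252 4 (.d k223 k220 k239 0
  3))))] (.c k99 (.l (.s k147 k159 1 (.s k69 k138 10 (.s k70 k71 0 (.s k137 k3 10 (.d k205 k206 k1 0
  9)))))) (.c k147 (.q k99 [(.s k69 k138 10 (.s k70 k71 0 (.s k205 k206 0 (.d k137 k1 k3 9 10)))),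
  (.s k138 k69 10 (.s k154 k186 3 (.s k101 k48 14 (.d k239 k223 k32 3 10)))), (.s k205 k206 0 (.s
  k237 k253 3 (.s k222 k252 4 (.d k223 k220 k239 0 3))))] .n) .n))) .n))))) (.c k99 (.q k147 [(.s
  k69 k138 10 (.s k70 k71 0 (.s k205 k206 0 (.d k137 k1 k3 9 10)))), (.s k138 k69 10 (.s k154 k186 3
  (.s k101 k48 14 (.d k239 k223 k32 3 10)))), (.s k205 k206 0 (.s k237 k253 3 (.s k222 k252 4 (.d
  k223 k220 k239 0 3))))] (.c k55 (.q k59 [(.s k69 k138 10 (.s k70 k71 0 (.s k205 k206 0 (.d k137 k1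
  k3 9 10)))), (.s k138 k69 10 (.s k154 k186 3 (.s k101 k48 14 (.d k239 k223 k32 3 10)))), (.s k205
  k206 0 (.s k237 k253 3 (.s k222 k252 4 (.d k223 k220 k239 0 3))))] (.c k103 (.q k111 [(.s k69 k138
  10 (.s k70 k71 0 (.s k205 k206 0 (.d k137 k1 k3 9 10)))), (.s k138 k69 10 (.s k154 k186 3 (.s k101
  k48 14 (.d k239 k223 k32 3 10)))), (.s k205 k206 0 (.s k237 k253 3 (.s k222 k252 4 (.d k223 k220
  k239 0 3))))] .n) (.c k111 (.q k103 [(.s k69 k138 10 (.s k70 k71 0 (.s k205 k206 0 (.d k137 k1 k3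
  9 10)))), (.s k138 k69 10 (.s k154 k186 3 (.s k101 k48 14 (.d k239 k223 k32 3 10)))), (.s k205
  k206 0 (.s k237 k253 3 (.s k222 k252 4 (.d k223 k220 k239 0 3))))] .n) .n))) (.c k59 (.q k55 [(.s
  k69 k138 10 (.s k70 k71 0 (.s k205 k206 0 (.d k137 k1 k3 9 10)))), (.s k138 k69 10 (.s k154 k186 3
  (.s k101 k48 14 (.d k239 k223 k32 3 10)))), (.s k205 k206 0 (.s k237 k253 3 (.s k222 k252 4 (.d
  k223 k220 k239 0 3))))] (.c k103 (.q k111 [(.s k69 k138 10 (.s k70 k71 0 (.s k205 k206 0 (.d k137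
  k1 k3 9 10)))), (.s k138 k69 10 (.s k154 k186 3 (.s k101 k48 14 (.d k239 k223 k32 3 10)))), (.s
  k205 k206 0 (.s k237 k253 3 (.s k222 k252 4 (.d k223 k220 k239 0 3))))] (.c k155 (.q k203 [(.s k69
  k138 10 (.s k70 k71 0 (.s k205 k206 0 (.d k137 k1 k3 9 10)))), (.s k138 k69 10 (.s k154 k186 3 (.s
  k101 k48 14 (.d k239 k223 k32 3 10)))), (.s k205 k206 0 (.s k237 k253 3 (.s k222 k252 4 (.d k223
  k220 k239 0 3))))] .n) (.c k203 (.l (.s k155 k159 1 (.s k69 k138 10 (.s k70 k71 0 (.s k137 k3 10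
  (.d k205 k206 k1 0 9)))))) .n))) (.c k111 (.l (.s k103 k199 11 (.s k69 k138 10 (.s k70 k71 0 (.s
  k137 k3 10 (.d k205 k206 k1 0 9)))))) (.c k155 (.q k203 [(.s k69 k138 10 (.s k70 k71 0 (.s k205
  k206 0 (.d k137 k1 k3 9 10)))), (.s k138 k69 10 (.s k154 k186 3 (.s k101 k48 14 (.d k239 k223 k32
  3 10)))), (.s k205 k206 0 (.s k237 k253 3 (.s k222 k252 4 (.d k223 k220 k239 0 3))))] (.c k103 (.q
  k111 [(.s k69 k138 10 (.s k70 k71 0 (.s k205 k206 0 (.d k137 k1 k3 9 10)))), (.s k138 k69 10 (.s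
  k154 k186 3 (.s k101 k48 14 (.d k239 k223 k32 3 10)))), (.s k205 k206 0 (.s k237 k253 3 (.s k222
  k252 4 (.d k223 k220 k239 0 3))))] .n) (.c k111 (.l (.s k103 k199 11 (.s k69 k138 10 (.s k70 k71 0
  (.s k137 k3 10 (.d k205 k206 k1 0 9)))))) .n))) (.c k203 (.l (.s k155 k159 1 (.s k69 k138 10 (.s
  k70 k71 0 (.s k137 k3 10 (.d k205 k206 k1 0 9)))))) .n))))) (.c k103 (.q k111 [(.s k69 k138 10 (.s
  k70 k71 0 (.s k205 k206 0 (.d k137 k1 k3 9 10)))), (.s k138 k69 10 (.s k154 k186 3 (.s k101 k48 14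
  (.d k239 k223 k32 3 10)))), (.s k205 k206 0 (.s k237 k253 3 (.s k222 k252 4 (.d k223 k220 k239 0
  3))))] (.c k55 (.q k59 [(.s k69 k138 10 (.s k70 k71 0 (.s k205 k206 0 (.d k137 k1 k3 9 10)))), (.s
  k138 k69 10 (.s k154 k186 3 (.s k101 k48 14 (.d k239 k223 k32 3 10)))), (.s k205 k206 0 (.s k237
  k253 3 (.s k222 k252 4 (.d k223 k220 k239 0 3))))] .n) (.c k59 (.q k55 [(.s k69 k138 10 (.s k70
  k71 0 (.s k205 k206 0 (.d k137 k1 k3 9 10)))), (.s k138 k69 10 (.s k154 k186 3 (.s k101 k48 14 (.d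
  k239 k223 k32 3 10)))), (.s k205 k206 0 (.s k237 k253 3 (.s k222 k252 4 (.d k223 k220 k239 0
  3))))] (.c k155 (.q k203 [(.s k69 k138 10 (.s k70 k71 0 (.s k205 k206 0 (.d k137 k1 k3 9 10)))),
  (.s k138 k69 10 (.s k154 k186 3 (.s k101 k48 14 (.d k239 k223 k32 3 10)))), (.s k205 k206 0 (.s
  k237 k253 3 (.s k222 k252 4 (.d k223 k220 k239 0 3))))] .n) (.c k203 (.l (.s k155 k159 1 (.s k69
  k138 10 (.s k70 k71 0 (.s k137 k3 10 (.d k205 k206 k1 0 9)))))) .n))) .n))) (.c k111 (.q k103 [(.s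
  k69 k138 10 (.s k71 k70 0 (.s k87 k119 3 (.d k3 k139 k171 9 13)))), (.s k205 k206 0 (.s k237 k253
  3 (.s k222 k252 4 (.d k223 k220 k239 0 3))))] (.c k55 (.q k59 [(.s k69 k138 10 (.s k70 k71 0 (.s
  k205 k206 0 (.d k137 k1 k3 9 10)))), (.s k138 k69 10 (.s k154 k186 3 (.s k101 k48 14 (.d k239 k223
  k32 3 10)))), (.s k205 k206 0 (.s k237 k253 3 (.s k222 k252 4 (.d k223 k220 k239 0 3))))] .n) (.c
  k59 (.l (.s k55 k199 11 (.s k69 k138 10 (.s k70 k71 0 (.s k137 k3 10 (.d k205 k206 k1 0 9))))))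
  (.c k206 (.l (.s k138 k69 10 (.s k154 k186 3 (.s k101 k48 14 (.d k239 k223 k32 3 10))))) .n))))
  .n))))) (.c k147 (.q k99 [(.s k69 k138 10 (.s k70 k71 0 (.s k205 k206 0 (.d k137 k1 k3 9 10)))),
  (.s k138 k69 10 (.s k154 k186 3 (.s k101 k48 14 (.d k239 k223 k32 3 10)))), (.s k205 k206 0 (.s
  k237 k253 3 (.s k222 k252 4 (.d k223 k220 k239 0 3))))] (.c k55 (.q k59 [(.s k69 k138 10 (.s k70
  k71 0 (.s k205 k206 0 (.d k137 k1 k3 9 10)))), (.s k138 k69 10 (.s k154 k186 3 (.s k101 k48 14 (.d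
  k239 k223 k32 3 10)))), (.s k205 k206 0 (.s k237 k253 3 (.s k222 k252 4 (.d k223 k220 k239 0
  3))))] .n) (.c k59 (.q k55 [(.s k69 k138 10 (.s k70 k71 0 (.s k205 k206 0 (.d k137 k1 k3 9 10)))),
  (.s k138 k69 10 (.s k154 k186 3 (.s k101 k48 14 (.d k239 k223 k32 3 10)))), (.s k205 k206 0 (.s
  k237 k253 3 (.s k222 k252 4 (.d k223 k220 k239 0 3))))] (.c k155 (.q k203 [(.s k69 k138 10 (.s k70
  k71 0 (.s k205 k206 0 (.d k137 k1 k3 9 10)))), (.s k138 k69 10 (.s k154 k186 3 (.s k101 k48 14 (.d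
  k239 k223 k32 3 10)))), (.s k205 k206 0 (.s k237 k253 3 (.s k222 k252 4 (.d k223 k220 k239 0
  3))))] .n) (.c k203 (.q k155 [(.s k69 k138 10 (.s k70 k71 0 (.s k205 k206 0 (.d k137 k1 k3 9
  10)))), (.s k138 k69 10 (.s k154 k186 3 (.s k101 k48 14 (.d k239 k223 k32 3 10)))), (.s k205 k206
  0 (.s k237 k253 3 (.s k222 k252 4 (.d k223 k220 k239 0 3))))] .n) .n))) .n))) .n)))))))) (.c k68
  (.q k207 [(.s k69 k138 10 (.s k85 k170 14 (.s k101 k117 3 (.s k223 k239 3 (.d k154 k16 k48 10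
  14))))), (.s k205 k206 0 (.s k221 k238 4 (.s k237 k253 3 (.s k222 k252 4 (.d k223 k220 k239 0
  3))))), (.s k69 k138 10 (.s k85 k170 14 (.s k101 k117 3 (.s k205 k206 0 (.s k153 k49 13 (.d k221
  k238 k17 4 9))))))] .n) (.c k85 (.q k207 [(.s k68 k136 9 (.s k69 k138 10 (.s k70 k71 0 (.s k205
  k206 0 (.d k137 k1 k3 9 10))))), (.s k205 k206 0 (.s k221 k238 4 (.s k237 k253 3 (.s k222 k252 4
  (.d k223 k220 k239 0 3)))))] (.c k1 (.l (.s k136 k68 9 (.s k138 k69 10 (.s k137 k139 0 (.s k70 k3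
  10 (.d k206 k205 k2 0 9)))))) (.c k205 (.f k238 k221 4 (.f k138 k69 10 (.l (.s k136 k68 9 (.s k137
  k139 0 (.s k70 k3 10 (.s k206 k2 9 (.s k222 k254 3 (.s k237 k252 4 (.d k239 k236 k223 0
  3)))))))))) (.c k206 (.f k238 k221 4 (.q k153 [(.s k136 k68 9 (.s k187 k170 4 (.d k51 k119 k102 9
  14))), (.s k138 k69 10 (.s k102 k51 14 (.s k170 k34 9 (.s k154 k186 3 (.s k101 k48 14 (.d k239
  k223 k32 3 10))))))] (.c k51 (.l (.s k136 k68 9 (.s k138 k69 10 (.s k139 k137 0 (.s k187 k170 4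
  (.s k171 k155 3 (.d k3 k71 k87 9 13))))))) (.c k102 (.f k223 k239 3 (.q k154 [(.s k152 k155 0 (.d
  k48 k100 k101 13 14)), (.s k138 k69 10 (.s k170 k186 3 (.d k136 k68 k187 9 4)))] (.c k68 (.q k119
  [(.s k51 k187 9 (.d k155 k152 k103 0 13)), (.s k152 k155 0 (.d k48 k100 k101 13 14)), (.s k138 k69
  10 (.s k187 k51 9 (.d k170 k186 k136 3 4)))] .n) (.c k101 (.l (.s k155 k152 0 (.s k87 k19 9 (.s k3
  k171 13 (.s k71 k139 9 (.d k103 k119 k51 3 13)))))) (.c k119 (.l (.s k68 k136 9 (.s k48 k101 14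
  (.d k152 k100 k155 13 0)))) .n))))) (.c k170 (.l (.s k68 k136 9 (.s k69 k138 10 (.s k51 k102 14
  (.s k103 k155 13 (.s k119 k187 9 (.d k71 k70 k87 0 3))))))) .n))))) .n)))) (.c k102 (.q k207 [(.s
  k68 k136 9 (.s k69 k138 10 (.s k70 k71 0 (.s k205 k206 0 (.d k137 k1 k3 9 10))))), (.s k69 k138 10
  (.s k85 k170 14 (.s k101 k117 3 (.s k154 k48 14 (.d k223 k239 k16 3 10))))), (.s k205 k206 0 (.s
  k221 k238 4 (.s k237 k253 3 (.s k222 k252 4 (.d k223 k220 k239 0 3)))))] (.c k154 (.l (.s k68 k136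
  9 (.s k69 k138 10 (.s k70 k71 0 (.s k137 k3 10 (.d k205 k206 k1 0 9)))))) .n)) (.c k119 (.l (.s
  k136 k68 9 (.s k238 k221 4 (.s k170 k85 14 (.s k102 k34 9 (.d k153 k187 k51 4 14)))))) (.c k136
  (.q k207 [(.s k138 k69 10 (.s k239 k223 3 (.s k170 k85 14 (.s k101 k32 10 (.d k154 k186 k48 3
  14))))), (.s k205 k206 0 (.s k221 k238 4 (.s k237 k253 3 (.s k222 k252 4 (.d k223 k220 k239 0
  3))))), (.s k69 k138 10 (.s k85 k170 14 (.s k101 k117 3 (.s k205 k206 0 (.s k153 k49 13 (.d k221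
  k238 k17 4 9))))))] .n) (.c k153 (.q k207 [(.s k68 k136 9 (.s k69 k138 10 (.s k70 k71 0 (.s k205
  k206 0 (.d k137 k1 k3 9 10))))), (.s k205 k206 0 (.s k221 k238 4 (.s k237 k253 3 (.s k222 k252 4
  (.d k223 k220 k239 0 3))))), (.s k69 k138 10 (.s k85 k170 14 (.s k101 k117 3 (.s k154 k48 14 (.d
  k223 k239 k16 3 10)))))] .n) (.c k170 (.f k238 k221 4 (.q k207 [(.s k206 k205 0 (.s k239 k223 3
  (.s k237 k236 0 (.d k222 k254 k252 3 4)))), (.s k68 k136 9 (.s k69 k138 10 (.s k70 k71 0 (.s k137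
  k3 10 (.d k205 k206 k1 0 9)))))] (.c k205 (.f k138 k69 10 (.l (.s k136 k68 9 (.s k137 k139 0 (.s
  k70 k3 10 (.s k206 k2 9 (.s k239 k223 3 (.s k237 k236 0 (.d k222 k254 k252 3 4))))))))) (.c k206
  (.q k85 [(.s k69 k138 10 (.s k101 k117 3 (.s k223 k239 3 (.d k154 k16 k48 10 14)))), (.s k68 k136
  9 (.s k102 k119 4 (.s k239 k223 3 (.s k236 k237 0 (.s k169 k35 10 (.s k253 k1 13 (.d k252 k220
  k254 3 0))))))), (.s k68 k136 9 (.s k69 k138 10 (.s k102 k119 4 (.s k101 k117 3 (.s k100 k103 0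
  (.d k48 k154 k152 14 13))))))] .n) .n)))) (.c k187 (.l (.s k68 k136 9 (.s k221 k238 4 (.s k85 k170
  14 (.s k153 k17 9 (.d k102 k119 k51 4 14)))))) (.c k221 (.q k207 [(.s k68 k136 9 (.s k69 k138 10
  (.s k70 k71 0 (.s k205 k206 0 (.d k137 k1 k3 9 10))))), (.s k69 k138 10 (.s k85 k170 14 (.s k101
  k117 3 (.s k154 k48 14 (.d k223 k239 k16 3 10))))), (.s k68 k136 9 (.s k85 k170 14 (.s k102 k119 4
  (.s k206 k205 0 (.s k154 k50 13 (.d k223 k239 k16 3 10))))))] .n) (.c k238 (.q k207 [(.s k136 k68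
  9 (.s k206 k205 0 (.s k138 k69 10 (.s k70 k2 9 (.d k137 k139 k3 0 10))))), (.s k69 k138 10 (.s k85
  k170 14 (.s k101 k117 3 (.s k154 k48 14 (.d k223 k239 k16 3 10))))), (.s k68 k136 9 (.s k85 k170
  14 (.s k102 k119 4 (.s k206 k205 0 (.s k154 k50 13 (.d k223 k239 k16 3 10))))))] .n)
  .n))))))))))))) (.c k119 (.l (.s k136 k68 9 (.s k238 k221 4 (.s k170 k85 14 (.s k102 k34 9 (.d
  k153 k187 k51 4 14)))))) (.c k136 (.f k238 k221 4 (.q k207 [(.s k206 k205 0 (.s k222 k254 3 (.s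
  k239 k223 3 (.d k237 k236 k252 0 4)))), (.s k69 k138 10 (.s k85 k170 14 (.s k101 k117 3 (.s k154
  k48 14 (.d k223 k239 k16 3 10))))), (.s k138 k69 10 (.s k170 k85 14 (.s k102 k34 9 (.s k154 k186 3
  (.d k206 k205 k50 0 13)))))] (.c k107 (.q k151 [(.s k206 k205 0 (.s k222 k254 3 (.s k239 k223 3
  (.d k237 k236 k252 0 4)))), (.s k69 k138 10 (.s k85 k170 14 (.s k101 k117 3 (.s k154 k48 14 (.d
  k223 k239 k16 3 10))))), (.s k138 k69 10 (.s k170 k85 14 (.s k102 k34 9 (.s k154 k186 3 (.d k206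
  k205 k50 0 13)))))] .n) (.c k151 (.q k107 [(.s k206 k205 0 (.s k222 k254 3 (.s k239 k223 3 (.d
  k237 k236 k252 0 4)))), (.s k69 k138 10 (.s k85 k170 14 (.s k101 k117 3 (.s k154 k48 14 (.d k223
  k239 k16 3 10))))), (.s k138 k69 10 (.s k170 k85 14 (.s k102 k34 9 (.s k154 k186 3 (.d k206 k205
  k50 0 13)))))] .n) .n)))) (.c k151 (.q k107 [(.s k68 k136 9 (.s k85 k170 14 (.s k102 k119 4 (.s
  k221 k238 4 (.d k153 k17 k51 9 14)))))] (.c k17 (.l (.s k136 k68 9 (.s k170 k85 14 (.s k153 k187 4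
  (.s k102 k51 14 (.d k238 k221 k34 4 9)))))) (.c k51 (.f k68 k136 9 (.f k170 k85 14 (.f k221 k238 4
  (.q k207 [(.s k69 k138 10 (.s k70 k71 0 (.s k205 k206 0 (.d k137 k1 k3 9 10)))), (.s k138 k69 10
  (.s k154 k186 3 (.s k101 k48 14 (.d k239 k223 k32 3 10)))), (.s k205 k206 0 (.s k237 k253 3 (.s
  k222 k252 4 (.d k223 k220 k239 0 3))))] (.c k55 (.q k59 [(.s k69 k138 10 (.s k70 k71 0 (.s k205
  k206 0 (.d k137 k1 k3 9 10)))), (.s k138 k69 10 (.s k154 k186 3 (.s k101 k48 14 (.d k239 k223 k32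
  3 10)))), (.s k205 k206 0 (.s k237 k253 3 (.s k222 k252 4 (.d k223 k220 k239 0 3))))] (.c k99 (.q
  k147 [(.s k69 k138 10 (.s k70 k71 0 (.s k205 k206 0 (.d k137 k1 k3 9 10)))), (.s k138 k69 10 (.s
  k154 k186 3 (.s k101 k48 14 (.d k239 k223 k32 3 10)))), (.s k205 k206 0 (.s k237 k253 3 (.s k222
  k252 4 (.d k223 k220 k239 0 3))))] (.c k103 (.q k199 [(.s k69 k138 10 (.s k70 k71 0 (.s k205 k206
  0 (.d k137 k1 k3 9 10)))), (.s k138 k69 10 (.s k154 k186 3 (.s k101 k48 14 (.d k239 k223 k32 3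
  10)))), (.s k205 k206 0 (.s k237 k253 3 (.s k222 k252 4 (.d k223 k220 k239 0 3))))] .n) (.c k199
  (.q k103 [(.s k69 k138 10 (.s k71 k70 0 (.s k87 k119 3 (.d k3 k139 k171 9 13)))), (.s k205 k206 0
  (.s k237 k253 3 (.s k222 k252 4 (.d k223 k220 k239 0 3))))] (.c k206 (.l (.s k138 k69 10 (.s k154
  k186 3 (.s k101 k48 14 (.d k239 k223 k32 3 10))))) .n)) .n))) (.c k103 (.q k199 [(.s k69 k138 10
  (.s k70 k71 0 (.s k205 k206 0 (.d k137 k1 k3 9 10)))), (.s k138 k69 10 (.s k154 k186 3 (.s k101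
  k48 14 (.d k239 k223 k32 3 10)))), (.s k205 k206 0 (.s k237 k253 3 (.s k222 k252 4 (.d k223 k220
  k239 0 3))))] (.c k99 (.q k147 [(.s k69 k138 10 (.s k70 k71 0 (.s k205 k206 0 (.d k137 k1 k3 9
  10)))), (.s k138 k69 10 (.s k154 k186 3 (.s k101 k48 14 (.d k239 k223 k32 3 10)))), (.s k205 k206
  0 (.s k237 k253 3 (.s k222 k252 4 (.d k223 k220 k239 0 3))))] .n) (.c k147 (.q k99 [(.s k69 k138
  10 (.s k70 k71 0 (.s k205 k206 0 (.d k137 k1 k3 9 10)))), (.s k138 k69 10 (.s k154 k186 3 (.s k101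
  k48 14 (.d k239 k223 k32 3 10)))), (.s k205 k206 0 (.s k237 k253 3 (.s k222 k252 4 (.d k223 k220
  k239 0 3))))] (.c k155 (.q k159 [(.s k69 k138 10 (.s k70 k71 0 (.s k205 k206 0 (.d k137 k1 k3 9
  10)))), (.s k138 k69 10 (.s k154 k186 3 (.s k101 k48 14 (.d k239 k223 k32 3 10)))), (.s k205 k206
  0 (.s k237 k253 3 (.s k222 k252 4 (.d k223 k220 k239 0 3))))] .n) (.c k159 (.l (.s k155 k203 11
  (.s k69 k138 10 (.s k70 k71 0 (.s k137 k3 10 (.d k205 k206 k1 0 9)))))) .n))) .n))) (.c k147 (.q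
  k99 [(.s k69 k138 10 (.s k70 k71 0 (.s k205 k206 0 (.d k137 k1 k3 9 10)))), (.s k138 k69 10 (.s
  k154 k186 3 (.s k101 k48 14 (.d k239 k223 k32 3 10)))), (.s k205 k206 0 (.s k237 k253 3 (.s k222
  k252 4 (.d k223 k220 k239 0 3))))] (.c k103 (.q k199 [(.s k69 k138 10 (.s k70 k71 0 (.s k205 k206
  0 (.d k137 k1 k3 9 10)))), (.s k138 k69 10 (.s k154 k186 3 (.s k101 k48 14 (.d k239 k223 k32 3
  10)))), (.s k205 k206 0 (.s k237 k253 3 (.s k222 k252 4 (.d k223 k220 k239 0 3))))] (.c k155 (.q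
  k159 [(.s k69 k138 10 (.s k70 k71 0 (.s k205 k206 0 (.d k137 k1 k3 9 10)))), (.s k138 k69 10 (.s
  k154 k186 3 (.s k101 k48 14 (.d k239 k223 k32 3 10)))), (.s k205 k206 0 (.s k237 k253 3 (.s k222
  k252 4 (.d k223 k220 k239 0 3))))] .n) (.c k159 (.l (.s k155 k203 11 (.s k69 k138 10 (.s k70 k71 0
  (.s k137 k3 10 (.d k205 k206 k1 0 9)))))) .n))) (.c k155 (.q k159 [(.s k69 k138 10 (.s k70 k71 0
  (.s k205 k206 0 (.d k137 k1 k3 9 10)))), (.s k138 k69 10 (.s k154 k186 3 (.s k101 k48 14 (.d k239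
  k223 k32 3 10)))), (.s k205 k206 0 (.s k237 k253 3 (.s k222 k252 4 (.d k223 k220 k239 0 3))))] (.c
  k103 (.q k199 [(.s k69 k138 10 (.s k70 k71 0 (.s k205 k206 0 (.d k137 k1 k3 9 10)))), (.s k138 k69
  10 (.s k154 k186 3 (.s k101 k48 14 (.d k239 k223 k32 3 10)))), (.s k205 k206 0 (.s k237 k253 3 (.s
  k222 k252 4 (.d k223 k220 k239 0 3))))] .n) (.c k199 (.l (.s k103 k111 1 (.s k69 k138 10 (.s k70
  k71 0 (.s k137 k3 10 (.d k205 k206 k1 0 9)))))) .n))) (.c k159 (.l (.s k155 k203 11 (.s k69 k138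
  10 (.s k70 k71 0 (.s k137 k3 10 (.d k205 k206 k1 0 9)))))) (.c k199 (.l (.s k103 k111 1 (.s k69
  k138 10 (.s k70 k71 0 (.s k137 k3 10 (.d k205 k206 k1 0 9)))))) .n))))) (.c k199 (.q k103 [(.s k69
  k138 10 (.s k71 k70 0 (.s k87 k119 3 (.d k3 k139 k171 9 13)))), (.s k205 k206 0 (.s k237 k253 3
  (.s k222 k252 4 (.d k223 k220 k239 0 3))))] (.c k99 (.q k147 [(.s k69 k138 10 (.s k71 k70 0 (.s
  k87 k119 3 (.d k3 k139 k171 9 13)))), (.s k205 k206 0 (.s k237 k253 3 (.s k222 k252 4 (.d k223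
  k220 k239 0 3))))] (.c k206 (.l (.s k138 k69 10 (.s k154 k186 3 (.s k101 k48 14 (.d k239 k223 k32
  3 10))))) .n)) (.c k147 (.l (.s k99 k111 1 (.s k69 k138 10 (.s k70 k71 0 (.s k137 k3 10 (.d k205
  k206 k1 0 9)))))) (.c k206 (.l (.s k138 k69 10 (.s k154 k186 3 (.s k101 k48 14 (.d k239 k223 k32 3
  10))))) .n)))) .n))))) (.c k59 (.q k55 [(.s k69 k138 10 (.s k70 k71 0 (.s k205 k206 0 (.d k137 k1
  k3 9 10)))), (.s k138 k69 10 (.s k154 k186 3 (.s k101 k48 14 (.d k239 k223 k32 3 10)))), (.s k205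
  k206 0 (.s k237 k253 3 (.s k222 k252 4 (.d k223 k220 k239 0 3))))] (.c k99 (.q k147 [(.s k69 k138
  10 (.s k70 k71 0 (.s k205 k206 0 (.d k137 k1 k3 9 10)))), (.s k138 k69 10 (.s k154 k186 3 (.s k101
  k48 14 (.d k239 k223 k32 3 10)))), (.s k205 k206 0 (.s k237 k253 3 (.s k222 k252 4 (.d k223 k220
  k239 0 3))))] .n) (.c k147 (.q k99 [(.s k69 k138 10 (.s k70 k71 0 (.s k205 k206 0 (.d k137 k1 k3 9
  10)))), (.s k138 k69 10 (.s k154 k186 3 (.s k101 k48 14 (.d k239 k223 k32 3 10)))), (.s k205 k206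
  0 (.s k237 k253 3 (.s k222 k252 4 (.d k223 k220 k239 0 3))))] (.c k155 (.q k159 [(.s k69 k138 10
  (.s k70 k71 0 (.s k205 k206 0 (.d k137 k1 k3 9 10)))), (.s k138 k69 10 (.s k154 k186 3 (.s k101
  k48 14 (.d k239 k223 k32 3 10)))), (.s k205 k206 0 (.s k237 k253 3 (.s k222 k252 4 (.d k223 k220
  k239 0 3))))] .n) (.c k159 (.q k155 [(.s k69 k138 10 (.s k70 k71 0 (.s k205 k206 0 (.d k137 k1 k3
  9 10)))), (.s k138 k69 10 (.s k154 k186 3 (.s k101 k48 14 (.d k239 k223 k32 3 10)))), (.s k205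
  k206 0 (.s k237 k253 3 (.s k222 k252 4 (.d k223 k220 k239 0 3))))] .n) .n))) .n))) (.c k99 (.q
  k147 [(.s k69 k138 10 (.s k70 k71 0 (.s k205 k206 0 (.d k137 k1 k3 9 10)))), (.s k138 k69 10 (.s
  k154 k186 3 (.s k101 k48 14 (.d k239 k223 k32 3 10)))), (.s k205 k206 0 (.s k237 k253 3 (.s k222
  k252 4 (.d k223 k220 k239 0 3))))] (.c k55 (.q k59 [(.s k69 k138 10 (.s k70 k71 0 (.s k205 k206 0
  (.d k137 k1 k3 9 10)))), (.s k138 k69 10 (.s k154 k186 3 (.s k101 k48 14 (.d k239 k223 k32 3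
  10)))), (.s k205 k206 0 (.s k237 k253 3 (.s k222 k252 4 (.d k223 k220 k239 0 3))))] (.c k103 (.q
  k199 [(.s k69 k138 10 (.s k70 k71 0 (.s k205 k206 0 (.d k137 k1 k3 9 10)))), (.s k138 k69 10 (.s
  k154 k186 3 (.s k101 k48 14 (.d k239 k223 k32 3 10)))), (.s k205 k206 0 (.s k237 k253 3 (.s k222
  k252 4 (.d k223 k220 k239 0 3))))] .n) (.c k199 (.q k103 [(.s k69 k138 10 (.s k71 k70 0 (.s k87
  k119 3 (.d k3 k139 k171 9 13)))), (.s k205 k206 0 (.s k237 k253 3 (.s k222 k252 4 (.d k223 k220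
  k239 0 3))))] (.c k206 (.l (.s k138 k69 10 (.s k154 k186 3 (.s k101 k48 14 (.d k239 k223 k32 3
  10))))) .n)) .n))) (.c k59 (.q k55 [(.s k69 k138 10 (.s k70 k71 0 (.s k205 k206 0 (.d k137 k1 k3 9
  10)))), (.s k138 k69 10 (.s k154 k186 3 (.s k101 k48 14 (.d k239 k223 k32 3 10)))), (.s k205 k206
  0 (.s k237 k253 3 (.s k222 k252 4 (.d k223 k220 k239 0 3))))] .n) .n))) (.c k147 (.q k99 [(.s k69
  k138 10 (.s k70 k71 0 (.s k205 k206 0 (.d k137 k1 k3 9 10)))), (.s k138 k69 10 (.s k154 k186 3 (.s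
  k101 k48 14 (.d k239 k223 k32 3 10)))), (.s k205 k206 0 (.s k237 k253 3 (.s k222 k252 4 (.d k223
  k220 k239 0 3))))] (.c k55 (.q k59 [(.s k69 k138 10 (.s k70 k71 0 (.s k205 k206 0 (.d k137 k1 k3 9
  10)))), (.s k138 k69 10 (.s k154 k186 3 (.s k101 k48 14 (.d k239 k223 k32 3 10)))), (.s k205 k206
  0 (.s k237 k253 3 (.s k222 k252 4 (.d k223 k220 k239 0 3))))] (.c k103 (.q k199 [(.s k69 k138 10
  (.s k70 k71 0 (.s k205 k206 0 (.d k137 k1 k3 9 10)))), (.s k138 k69 10 (.s k154 k186 3 (.s k101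
  k48 14 (.d k239 k223 k32 3 10)))), (.s k205 k206 0 (.s k237 k253 3 (.s k222 k252 4 (.d k223 k220
  k239 0 3))))] (.c k155 (.q k159 [(.s k69 k138 10 (.s k70 k71 0 (.s k205 k206 0 (.d k137 k1 k3 9
  10)))), (.s k138 k69 10 (.s k154 k186 3 (.s k101 k48 14 (.d k239 k223 k32 3 10)))), (.s k205 k206
  0 (.s k237 k253 3 (.s k222 k252 4 (.d k223 k220 k239 0 3))))] .n) (.c k159 (.l (.s k155 k203 11
  (.s k69 k138 10 (.s k70 k71 0 (.s k137 k3 10 (.d k205 k206 k1 0 9)))))) .n))) (.c k155 (.q k159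
  [(.s k69 k138 10 (.s k70 k71 0 (.s k205 k206 0 (.d k137 k1 k3 9 10)))), (.s k138 k69 10 (.s k154
  k186 3 (.s k101 k48 14 (.d k239 k223 k32 3 10)))), (.s k205 k206 0 (.s k237 k253 3 (.s k222 k252 4
  (.d k223 k220 k239 0 3))))] (.c k103 (.q k199 [(.s k69 k138 10 (.s k70 k71 0 (.s k205 k206 0 (.d
  k137 k1 k3 9 10)))), (.s k138 k69 10 (.s k154 k186 3 (.s k101 k48 14 (.d k239 k223 k32 3 10)))),
  (.s k205 k206 0 (.s k237 k253 3 (.s k222 k252 4 (.d k223 k220 k239 0 3))))] .n) (.c k199 (.l (.s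
  k103 k111 1 (.s k69 k138 10 (.s k70 k71 0 (.s k137 k3 10 (.d k205 k206 k1 0 9)))))) .n))) (.c k159
  (.l (.s k155 k203 11 (.s k69 k138 10 (.s k70 k71 0 (.s k137 k3 10 (.d k205 k206 k1 0 9)))))) (.c
  k199 (.l (.s k103 k111 1 (.s k69 k138 10 (.s k70 k71 0 (.s k137 k3 10 (.d k205 k206 k1 0 9))))))
  .n))))) (.c k59 (.q k55 [(.s k69 k138 10 (.s k70 k71 0 (.s k205 k206 0 (.d k137 k1 k3 9 10)))),
  (.s k138 k69 10 (.s k154 k186 3 (.s k101 k48 14 (.d k239 k223 k32 3 10)))), (.s k205 k206 0 (.s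
  k237 k253 3 (.s k222 k252 4 (.d k223 k220 k239 0 3))))] (.c k155 (.q k159 [(.s k69 k138 10 (.s k70
  k71 0 (.s k205 k206 0 (.d k137 k1 k3 9 10)))), (.s k138 k69 10 (.s k154 k186 3 (.s k101 k48 14 (.d
  k239 k223 k32 3 10)))), (.s k205 k206 0 (.s k237 k253 3 (.s k222 k252 4 (.d k223 k220 k239 0
  3))))] .n) (.c k159 (.q k155 [(.s k69 k138 10 (.s k70 k71 0 (.s k205 k206 0 (.d k137 k1 k3 9
  10)))), (.s k138 k69 10 (.s k154 k186 3 (.s k101 k48 14 (.d k239 k223 k32 3 10)))), (.s k205 k206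
  0 (.s k237 k253 3 (.s k222 k252 4 (.d k223 k220 k239 0 3))))] .n) .n))) (.c k155 (.q k159 [(.s k69
  k138 10 (.s k70 k71 0 (.s k205 k206 0 (.d k137 k1 k3 9 10)))), (.s k138 k69 10 (.s k154 k186 3 (.s
  k101 k48 14 (.d k239 k223 k32 3 10)))), (.s k205 k206 0 (.s k237 k253 3 (.s k222 k252 4 (.d k223
  k220 k239 0 3))))] (.c k55 (.q k59 [(.s k69 k138 10 (.s k70 k71 0 (.s k205 k206 0 (.d k137 k1 k3 9
  10)))), (.s k138 k69 10 (.s k154 k186 3 (.s k101 k48 14 (.d k239 k223 k32 3 10)))), (.s k205 k206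
  0 (.s k237 k253 3 (.s k222 k252 4 (.d k223 k220 k239 0 3))))] (.c k103 (.q k199 [(.s k69 k138 10
  (.s k70 k71 0 (.s k205 k206 0 (.d k137 k1 k3 9 10)))), (.s k138 k69 10 (.s k154 k186 3 (.s k101
  k48 14 (.d k239 k223 k32 3 10)))), (.s k205 k206 0 (.s k237 k253 3 (.s k222 k252 4 (.d k223 k220
  k239 0 3))))] .n) (.c k199 (.l (.s k103 k111 1 (.s k69 k138 10 (.s k70 k71 0 (.s k137 k3 10 (.d
  k205 k206 k1 0 9)))))) .n))) (.c k59 (.q k55 [(.s k69 k138 10 (.s k70 k71 0 (.s k205 k206 0 (.d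
  k137 k1 k3 9 10)))), (.s k138 k69 10 (.s k154 k186 3 (.s k101 k48 14 (.d k239 k223 k32 3 10)))),
  (.s k205 k206 0 (.s k237 k253 3 (.s k222 k252 4 (.d k223 k220 k239 0 3))))] .n) .n))) (.c k159 (.q
  k155 [(.s k69 k138 10 (.s k70 k71 0 (.s k205 k206 0 (.d k137 k1 k3 9 10)))), (.s k138 k69 10 (.s
  k154 k186 3 (.s k101 k48 14 (.d k239 k223 k32 3 10)))), (.s k205 k206 0 (.s k237 k253 3 (.s k222
  k252 4 (.d k223 k220 k239 0 3))))] (.c k55 (.l (.s k59 k203 11 (.s k69 k138 10 (.s k70 k71 0 (.s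
  k137 k3 10 (.d k205 k206 k1 0 9)))))) (.c k59 (.q k55 [(.s k69 k138 10 (.s k70 k71 0 (.s k205 k206
  0 (.d k137 k1 k3 9 10)))), (.s k138 k69 10 (.s k154 k186 3 (.s k101 k48 14 (.d k239 k223 k32 3
  10)))), (.s k205 k206 0 (.s k237 k253 3 (.s k222 k252 4 (.d k223 k220 k239 0 3))))] .n) .n)))
  .n))))) .n)))))))) (.c k68 (.q k207 [(.s k69 k138 10 (.s k85 k170 14 (.s k101 k117 3 (.s k223 k239
  3 (.d k154 k16 k48 10 14))))), (.s k205 k206 0 (.s k221 k238 4 (.s k237 k253 3 (.s k222 k252 4 (.d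
  k223 k220 k239 0 3))))), (.s k69 k138 10 (.s k85 k170 14 (.s k101 k117 3 (.s k205 k206 0 (.s k153
  k49 13 (.d k221 k238 k17 4 9))))))] .n) (.c k85 (.q k207 [(.s k68 k136 9 (.s k69 k138 10 (.s k70
  k71 0 (.s k205 k206 0 (.d k137 k1 k3 9 10))))), (.s k205 k206 0 (.s k221 k238 4 (.s k237 k253 3
  (.s k222 k252 4 (.d k223 k220 k239 0 3)))))] (.c k1 (.l (.s k136 k68 9 (.s k138 k69 10 (.s k137
  k139 0 (.s k70 k3 10 (.d k206 k205 k2 0 9)))))) (.c k205 (.f k238 k221 4 (.f k138 k69 10 (.l (.s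
  k136 k68 9 (.s k137 k139 0 (.s k70 k3 10 (.s k206 k2 9 (.s k222 k254 3 (.s k237 k252 4 (.d k239
  k236 k223 0 3)))))))))) (.c k206 (.f k238 k221 4 (.q k153 [(.s k136 k68 9 (.s k187 k170 4 (.d k51
  k119 k102 9 14))), (.s k138 k69 10 (.s k102 k51 14 (.s k170 k34 9 (.s k154 k186 3 (.s k101 k48 14
  (.d k239 k223 k32 3 10))))))] (.c k51 (.l (.s k136 k68 9 (.s k138 k69 10 (.s k139 k137 0 (.s k187
  k170 4 (.s k171 k155 3 (.d k3 k71 k87 9 13))))))) (.c k102 (.f k223 k239 3 (.q k154 [(.s k152 k155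
  0 (.d k48 k100 k101 13 14)), (.s k138 k69 10 (.s k170 k186 3 (.d k136 k68 k187 9 4)))] (.c k68 (.q
  k119 [(.s k51 k187 9 (.d k155 k152 k103 0 13)), (.s k152 k155 0 (.d k48 k100 k101 13 14)), (.s
  k138 k69 10 (.s k187 k51 9 (.d k170 k186 k136 3 4)))] .n) (.c k101 (.l (.s k155 k152 0 (.s k87 k19
  9 (.s k3 k171 13 (.s k71 k139 9 (.d k103 k119 k51 3 13)))))) (.c k119 (.l (.s k68 k136 9 (.s k48
  k101 14 (.d k152 k100 k155 13 0)))) .n))))) (.c k170 (.l (.s k68 k136 9 (.s k69 k138 10 (.s k51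
  k102 14 (.s k103 k155 13 (.s k119 k187 9 (.d k71 k70 k87 0 3))))))) .n))))) .n)))) (.c k102 (.q
  k207 [(.s k68 k136 9 (.s k69 k138 10 (.s k70 k71 0 (.s k205 k206 0 (.d k137 k1 k3 9 10))))), (.s
  k69 k138 10 (.s k85 k170 14 (.s k101 k117 3 (.s k154 k48 14 (.d k223 k239 k16 3 10))))), (.s k205
  k206 0 (.s k221 k238 4 (.s k237 k253 3 (.s k222 k252 4 (.d k223 k220 k239 0 3)))))] (.c k154 (.l
  (.s k68 k136 9 (.s k69 k138 10 (.s k70 k71 0 (.s k137 k3 10 (.d k205 k206 k1 0 9)))))) .n)) (.c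
  k119 (.l (.s k136 k68 9 (.s k238 k221 4 (.s k170 k85 14 (.s k102 k34 9 (.d k153 k187 k51 4
  14)))))) (.c k136 (.q k207 [(.s k138 k69 10 (.s k239 k223 3 (.s k170 k85 14 (.s k101 k32 10 (.d
  k154 k186 k48 3 14))))), (.s k205 k206 0 (.s k221 k238 4 (.s k237 k253 3 (.s k222 k252 4 (.d k223
  k220 k239 0 3))))), (.s k69 k138 10 (.s k85 k170 14 (.s k101 k117 3 (.s k205 k206 0 (.s k153 k49
  13 (.d k221 k238 k17 4 9))))))] .n) (.c k153 (.q k207 [(.s k68 k136 9 (.s k69 k138 10 (.s k70 k71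
  0 (.s k205 k206 0 (.d k137 k1 k3 9 10))))), (.s k205 k206 0 (.s k221 k238 4 (.s k237 k253 3 (.s
  k222 k252 4 (.d k223 k220 k239 0 3))))), (.s k69 k138 10 (.s k85 k170 14 (.s k101 k117 3 (.s k154
  k48 14 (.d k223 k239 k16 3 10)))))] .n) (.c k170 (.f k238 k221 4 (.q k207 [(.s k206 k205 0 (.s
  k239 k223 3 (.s k237 k236 0 (.d k222 k254 k252 3 4)))), (.s k68 k136 9 (.s k69 k138 10 (.s k70 k71
  0 (.s k137 k3 10 (.d k205 k206 k1 0 9)))))] (.c k205 (.f k138 k69 10 (.l (.s k136 k68 9 (.s k137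
  k139 0 (.s k70 k3 10 (.s k206 k2 9 (.s k239 k223 3 (.s k237 k236 0 (.d k222 k254 k252 3 4)))))))))
  (.c k206 (.q k85 [(.s k69 k138 10 (.s k101 k117 3 (.s k223 k239 3 (.d k154 k16 k48 10 14)))), (.s
  k68 k136 9 (.s k102 k119 4 (.s k239 k223 3 (.s k236 k237 0 (.s k169 k35 10 (.s k253 k1 13 (.d k252
  k220 k254 3 0))))))), (.s k68 k136 9 (.s k69 k138 10 (.s k102 k119 4 (.s k101 k117 3 (.s k100 k103
  0 (.d k48 k154 k152 14 13))))))] .n) .n)))) (.c k187 (.l (.s k68 k136 9 (.s k221 k238 4 (.s k85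
  k170 14 (.s k153 k17 9 (.d k102 k119 k51 4 14)))))) (.c k221 (.q k207 [(.s k68 k136 9 (.s k69 k138
  10 (.s k70 k71 0 (.s k205 k206 0 (.d k137 k1 k3 9 10))))), (.s k69 k138 10 (.s k85 k170 14 (.s
  k101 k117 3 (.s k154 k48 14 (.d k223 k239 k16 3 10))))), (.s k68 k136 9 (.s k85 k170 14 (.s k102
  k119 4 (.s k206 k205 0 (.s k154 k50 13 (.d k223 k239 k16 3 10))))))] .n) (.c k238 (.q k207 [(.s
  k136 k68 9 (.s k206 k205 0 (.s k138 k69 10 (.s k70 k2 9 (.d k137 k139 k3 0 10))))), (.s k69 k138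
  10 (.s k85 k170 14 (.s k101 k117 3 (.s k154 k48 14 (.d k223 k239 k16 3 10))))), (.s k68 k136 9 (.s
  k85 k170 14 (.s k102 k119 4 (.s k206 k205 0 (.s k154 k50 13 (.d k223 k239 k16 3 10))))))] .n)
  .n))))))))))))) (.c k153 (.q k207 [(.s k68 k136 9 (.s k69 k138 10 (.s k70 k71 0 (.s k205 k206 0
  (.d k137 k1 k3 9 10))))), (.s k205 k206 0 (.s k221 k238 4 (.s k237 k253 3 (.s k222 k252 4 (.d k223
  k220 k239 0 3))))), (.s k69 k138 10 (.s k85 k170 14 (.s k101 k117 3 (.s k154 k48 14 (.d k223 k239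
  k16 3 10)))))] (.c k107 (.q k151 [(.s k68 k136 9 (.s k69 k138 10 (.s k70 k71 0 (.s k205 k206 0 (.d
  k137 k1 k3 9 10))))), (.s k205 k206 0 (.s k221 k238 4 (.s k237 k253 3 (.s k222 k252 4 (.d k223
  k220 k239 0 3))))), (.s k69 k138 10 (.s k85 k170 14 (.s k101 k117 3 (.s k154 k48 14 (.d k223 k239
  k16 3 10)))))] .n) (.c k151 (.q k107 [(.s k68 k136 9 (.s k69 k138 10 (.s k70 k71 0 (.s k205 k206 0
  (.d k137 k1 k3 9 10))))), (.s k205 k206 0 (.s k221 k238 4 (.s k237 k253 3 (.s k222 k252 4 (.d k223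
  k220 k239 0 3))))), (.s k69 k138 10 (.s k85 k170 14 (.s k101 k117 3 (.s k154 k48 14 (.d k223 k239
  k16 3 10)))))] .n) .n))) (.c k170 (.f k136 k68 9 (.f k238 k221 4 (.q k207 [(.s k206 k205 0 (.s
  k239 k223 3 (.s k237 k236 0 (.d k222 k254 k252 3 4)))), (.s k138 k69 10 (.s k137 k139 0 (.s k70 k3
  10 (.d k206 k205 k2 0 9))))] (.c k107 (.q k151 [(.s k206 k205 0 (.s k239 k223 3 (.s k237 k236 0
  (.d k222 k254 k252 3 4)))), (.s k138 k69 10 (.s k137 k139 0 (.s k70 k3 10 (.d k206 k205 k2 0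
  9))))] (.c k205 (.l (.s k138 k69 10 (.s k137 k139 0 (.s k70 k3 10 (.s k206 k2 9 (.s k239 k223 3
  (.s k237 k236 0 (.d k222 k254 k252 3 4)))))))) (.c k206 (.q k154 [(.s k223 k239 3 (.s k16 k85 10
  (.d k48 k32 k101 3 14))), (.s k138 k69 10 (.s k139 k137 0 (.s k184 k169 4 (.s k168 k152 3 (.s k252
  k84 13 (.s k237 k222 4 (.d k236 k220 k239 3 0))))))), (.s k138 k69 10 (.s k48 k101 14 (.s k152
  k100 13 (.s k139 k137 0 (.d k184 k168 k169 3 4)))))] (.c k239 (.l (.s k138 k69 10 (.s k48 k101 14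
  (.s k32 k16 3 (.s k152 k100 13 (.s k139 k137 0 (.d k184 k168 k169 3 4))))))) .n)) .n))) (.c k151
  (.q k107 [(.s k206 k205 0 (.s k239 k223 3 (.s k237 k236 0 (.d k222 k254 k252 3 4)))), (.s k138 k69
  10 (.s k137 k139 0 (.s k70 k3 10 (.d k206 k205 k2 0 9))))] (.c k205 (.l (.s k138 k69 10 (.s k137
  k139 0 (.s k70 k3 10 (.s k206 k2 9 (.s k239 k223 3 (.s k237 k236 0 (.d k222 k254 k252 3 4))))))))
  (.c k206 (.q k154 [(.s k223 k239 3 (.s k16 k85 10 (.d k48 k32 k101 3 14))), (.s k138 k69 10 (.s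
  k139 k137 0 (.s k184 k169 4 (.s k168 k152 3 (.s k252 k84 13 (.s k237 k222 4 (.d k236 k220 k239 3
  0))))))), (.s k138 k69 10 (.s k48 k101 14 (.s k152 k100 13 (.s k139 k137 0 (.d k184 k168 k169 3
  4)))))] (.c k239 (.l (.s k138 k69 10 (.s k48 k101 14 (.s k32 k16 3 (.s k152 k100 13 (.s k139 k137
  0 (.d k184 k168 k169 3 4))))))) .n)) .n))) (.c k205 (.l (.s k138 k69 10 (.s k137 k139 0 (.s k70 k3
  10 (.s k206 k2 9 (.s k239 k223 3 (.s k237 k236 0 (.d k222 k254 k252 3 4)))))))) (.c k206 (.q k154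
  [(.s k223 k239 3 (.s k16 k85 10 (.d k48 k32 k101 3 14))), (.s k138 k69 10 (.s k139 k137 0 (.s k184
  k169 4 (.s k168 k152 3 (.s k252 k84 13 (.s k237 k222 4 (.d k236 k220 k239 3 0))))))), (.s k138 k69
  10 (.s k48 k101 14 (.s k152 k100 13 (.s k139 k137 0 (.d k184 k168 k169 3 4)))))] (.c k107 (.q k151
  [(.s k223 k239 3 (.s k16 k85 10 (.d k48 k32 k101 3 14))), (.s k138 k69 10 (.s k139 k137 0 (.s k184
  k169 4 (.s k168 k152 3 (.s k252 k84 13 (.s k237 k222 4 (.d k236 k220 k239 3 0))))))), (.s k138 k69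
  10 (.s k48 k101 14 (.s k152 k100 13 (.s k139 k137 0 (.d k184 k168 k169 3 4)))))] (.c k239 (.l (.s
  k138 k69 10 (.s k48 k101 14 (.s k32 k16 3 (.s k152 k100 13 (.s k139 k137 0 (.d k184 k168 k169 3
  4))))))) .n)) (.c k151 (.q k107 [(.s k223 k239 3 (.s k16 k85 10 (.d k48 k32 k101 3 14))), (.s k138
  k69 10 (.s k139 k137 0 (.s k184 k169 4 (.s k168 k152 3 (.s k252 k84 13 (.s k237 k222 4 (.d k236
  k220 k239 3 0))))))), (.s k138 k69 10 (.s k48 k101 14 (.s k152 k100 13 (.s k139 k137 0 (.d k184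
  k168 k169 3 4)))))] (.c k239 (.l (.s k138 k69 10 (.s k48 k101 14 (.s k32 k16 3 (.s k152 k100 13
  (.s k139 k137 0 (.d k184 k168 k169 3 4))))))) .n)) (.c k239 (.l (.s k138 k69 10 (.s k48 k101 14
  (.s k32 k16 3 (.s k152 k100 13 (.s k139 k137 0 (.d k184 k168 k169 3 4))))))) .n)))) .n))))))) (.c
  k187 (.l (.s k68 k136 9 (.s k221 k238 4 (.s k85 k170 14 (.s k153 k17 9 (.d k102 k119 k51 4
  14)))))) (.c k221 (.q k207 [(.s k68 k136 9 (.s k69 k138 10 (.s k70 k71 0 (.s k205 k206 0 (.d k137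
  k1 k3 9 10))))), (.s k69 k138 10 (.s k85 k170 14 (.s k101 k117 3 (.s k154 k48 14 (.d k223 k239 k16
  3 10))))), (.s k68 k136 9 (.s k85 k170 14 (.s k102 k119 4 (.s k206 k205 0 (.s k154 k50 13 (.d k223
  k239 k16 3 10))))))] (.c k107 (.q k151 [(.s k68 k136 9 (.s k69 k138 10 (.s k70 k71 0 (.s k205 k206
  0 (.d k137 k1 k3 9 10))))), (.s k69 k138 10 (.s k85 k170 14 (.s k101 k117 3 (.s k154 k48 14 (.d
  k223 k239 k16 3 10))))), (.s k68 k136 9 (.s k85 k170 14 (.s k102 k119 4 (.s k206 k205 0 (.s k154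
  k50 13 (.d k223 k239 k16 3 10))))))] .n) (.c k151 (.q k107 [(.s k68 k136 9 (.s k69 k138 10 (.s k70
  k71 0 (.s k205 k206 0 (.d k137 k1 k3 9 10))))), (.s k69 k138 10 (.s k85 k170 14 (.s k101 k117 3
  (.s k154 k48 14 (.d k223 k239 k16 3 10))))), (.s k68 k136 9 (.s k85 k170 14 (.s k102 k119 4 (.s
  k206 k205 0 (.s k154 k50 13 (.d k223 k239 k16 3 10))))))] .n) .n))) (.c k238 (.q k207 [(.s k136
  k68 9 (.s k206 k205 0 (.s k138 k69 10 (.s k70 k2 9 (.d k137 k139 k3 0 10))))), (.s k69 k138 10 (.s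
  k85 k170 14 (.s k101 k117 3 (.s k154 k48 14 (.d k223 k239 k16 3 10))))), (.s k68 k136 9 (.s k85
  k170 14 (.s k102 k119 4 (.s k206 k205 0 (.s k154 k50 13 (.d k223 k239 k16 3 10))))))] (.c k107 (.q
  k151 [(.s k136 k68 9 (.s k206 k205 0 (.s k138 k69 10 (.s k70 k2 9 (.d k137 k139 k3 0 10))))), (.s
  k69 k138 10 (.s k85 k170 14 (.s k101 k117 3 (.s k154 k48 14 (.d k223 k239 k16 3 10))))), (.s k68
  k136 9 (.s k85 k170 14 (.s k102 k119 4 (.s k206 k205 0 (.s k154 k50 13 (.d k223 k239 k16 3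
  10))))))] .n) (.c k151 (.q k107 [(.s k136 k68 9 (.s k206 k205 0 (.s k138 k69 10 (.s k70 k2 9 (.d
  k137 k139 k3 0 10))))), (.s k69 k138 10 (.s k85 k170 14 (.s k101 k117 3 (.s k154 k48 14 (.d k223
  k239 k16 3 10))))), (.s k68 k136 9 (.s k85 k170 14 (.s k102 k119 4 (.s k206 k205 0 (.s k154 k50 13
  (.d k223 k239 k16 3 10))))))] .n) .n))) .n)))))))))))))))

def t197 : T TT 256 :=
  (.q k12 [(.s k4 k8 1 (.s k85 k170 14 (.s k166 k247 12 (.s k93 k174 12 (.d k89 k81 k243 1 14)))))]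
  (.c k4 (.q k13 [(.s k15 k14 0 (.s k93 k174 12 (.s k173 k253 11 (.s k95 k175 11 (.d k94 k92 k252 0
  12))))), (.s k85 k170 14 (.s k15 k14 0 (.s k5 k10 2 (.s k165 k245 11 (.s k90 k240 14 (.d k95 k80
  k175 2 11)))))), (.s k85 k170 14 (.s k93 k174 12 (.s k253 k173 11 (.s k1 k169 13 (.s k3 k2 0 (.d
  k9 k5 k6 1 2))))))] (.c k175 (.l (.s k85 k170 14 (.s k15 k14 0 (.s k5 k10 2 (.s k1 k9 1 (.s k253
  k169 13 (.d k93 k173 k174 11 12))))))) .n)) (.c k8 (.q k13 [(.s k15 k14 0 (.s k93 k174 12 (.s k173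
  k253 11 (.s k95 k175 11 (.d k94 k92 k252 0 12))))), (.s k85 k170 14 (.s k15 k14 0 (.s k5 k10 2 (.s
  k165 k245 11 (.s k90 k240 14 (.d k95 k80 k175 2 11)))))), (.s k85 k170 14 (.s k93 k174 12 (.s k253
  k173 11 (.s k1 k169 13 (.s k3 k2 0 (.d k9 k5 k6 1 2))))))] (.c k175 (.l (.s k85 k170 14 (.s k15
  k14 0 (.s k5 k10 2 (.s k165 k245 11 (.s k93 k174 12 (.d k89 k81 k241 1 13))))))) .n)) (.c k81 (.l
  (.s k8 k4 1 (.s k170 k85 14 (.s k89 k251 12 (.s k166 k243 14 (.d k174 k93 k162 12 1)))))) (.c k85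
  (.f k4 k8 1 (.q k13 [(.s k15 k14 0 (.s k5 k10 2 (.s k6 k7 0 (.d k9 k1 k3 1 2)))), (.s k93 k174 12
  (.s k253 k173 11 (.s k252 k254 0 (.s k84 k168 13 (.s k164 k244 11 (.s k88 k240 13 (.d k92 k172 k80
  11 1)))))))] (.c k14 (.q k28 [(.s k60 k44 3 (.s k20 k40 5 (.s k36 k52 3 (.d k24 k16 k48 1 5)))),
  (.s k93 k174 12 (.s k223 k158 8 (.s k207 k239 3 (.s k69 k138 10 (.s k134 k199 8 (.s k73 k195 10
  (.d k77 k142 k65 8 1)))))))] (.c k44 (.q k195 [(.s k130 k65 8 (.s k134 k73 10 (.s k69 k199 8 (.d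
  k138 k142 k207 1 10)))), (.s k93 k174 12 (.s k223 k158 8 (.s k215 k235 5 (.s k211 k219 1 (.s k89
  k150 10 (.d k243 k227 k166 3 14)))))), (.s k73 k134 10 (.s k93 k174 12 (.s k193 k133 9 (.s k253
  k173 11 (.s k213 k233 5 (.d k192 k194 k234 0 6))))))] .n) .n)) .n))) (.c k89 (.q k13 [(.s k15 k14
  0 (.s k93 k174 12 (.s k173 k253 11 (.s k94 k252 12 (.d k95 k92 k175 0 11))))), (.s k4 k8 1 (.s k15
  k14 0 (.s k5 k10 2 (.s k9 k1 1 (.d k6 k7 k3 0 2))))), (.s k85 k170 14 (.s k93 k174 12 (.s k253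
  k173 11 (.s k1 k169 13 (.s k3 k2 0 (.d k9 k5 k6 1 2))))))] .n) (.c k93 (.q k195 [(.s k8 k4 1 (.s
  k65 k130 8 (.s k73 k134 10 (.s k138 k203 8 (.d k69 k77 k207 1 10))))), (.s k65 k130 8 (.s k85 k170
  14 (.s k105 k125 5 (.s k150 k60 14 (.d k215 k235 k20 5 8))))), (.s k4 k8 1 (.s k85 k170 14 (.s
  k166 k247 12 (.s k134 k73 10 (.s k150 k182 3 (.d k215 k235 k20 5 8))))))] .n) (.c k166 (.q k195
  [(.s k4 k8 1 (.s k130 k65 8 (.s k134 k73 10 (.s k69 k199 8 (.d k138 k142 k207 1 10))))), (.s k65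
  k130 8 (.s k85 k170 14 (.s k105 k125 5 (.s k150 k60 14 (.d k215 k235 k20 5 8))))), (.s k170 k85 14
  (.s k73 k134 10 (.s k235 k215 5 (.s k105 k40 8 (.s k89 k121 3 (.d k8 k4 k251 1 12))))))] .n) (.c
  k170 (.q k13 [(.s k15 k14 0 (.s k93 k174 12 (.s k173 k253 11 (.s k94 k252 12 (.d k95 k92 k175 0
  11))))), (.s k4 k8 1 (.s k15 k14 0 (.s k5 k10 2 (.s k9 k1 1 (.d k6 k7 k3 0 2)))))] (.c k14 (.q k28
  [(.s k60 k44 3 (.s k20 k40 5 (.s k24 k16 1 (.s k36 k48 5 (.d k4 k8 k52 1 3))))), (.s k60 k44 3 (.s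
  k93 k174 12 (.s k158 k223 8 (.s k109 k207 12 (.d k125 k77 k190 3 8)))))] (.c k44 (.q k195 [(.s k4
  k8 1 (.s k130 k65 8 (.s k134 k73 10 (.s k69 k199 8 (.d k138 k142 k207 1 10))))), (.s k73 k134 10
  (.s k93 k174 12 (.s k193 k133 9 (.s k253 k173 11 (.s k213 k233 5 (.d k192 k194 k234 0 6)))))), (.s
  k93 k174 12 (.s k223 k158 8 (.s k215 k235 5 (.s k211 k219 1 (.s k89 k150 10 (.d k243 k166 k227 14
  3))))))] .n) (.c k60 (.f k4 k8 1 (.l (.s k93 k174 12 (.s k223 k158 8 (.s k207 k239 3 (.s k69 k138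
  10 (.s k134 k199 8 (.s k73 k195 10 (.d k77 k142 k65 8 1))))))))) .n))) (.c k15 (.f k4 k8 1 (.l (.s
  k93 k174 12 (.s k253 k173 11 (.s k252 k254 0 (.s k84 k168 13 (.s k164 k244 11 (.s k88 k240 13 (.d
  k92 k172 k80 11 1))))))))) .n))) (.c k174 (.q k195 [(.s k8 k4 1 (.s k65 k130 8 (.s k73 k134 10 (.s
  k138 k203 8 (.d k69 k77 k207 1 10))))), (.s k65 k130 8 (.s k85 k170 14 (.s k105 k125 5 (.s k150
  k60 14 (.d k215 k235 k20 5 8))))), (.s k4 k8 1 (.s k85 k170 14 (.s k166 k247 12 (.s k134 k73 10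
  (.s k150 k182 3 (.d k215 k235 k20 5 8))))))] .n) (.c k243 (.f k174 k93 12 (.f k4 k8 1 (.q k195
  [(.s k130 k65 8 (.s k134 k73 10 (.s k138 k142 1 (.d k69 k199 k207 8 10)))), (.s k65 k130 8 (.s k85
  k170 14 (.s k105 k125 5 (.s k150 k60 14 (.d k215 k235 k20 5 8))))), (.s k85 k170 14 (.s k166 k247
  12 (.s k134 k73 10 (.s k150 k182 3 (.d k215 k235 k20 5 8)))))] (.c k123 (.q k183 [(.s k130 k65 8
  (.s k134 k73 10 (.s k138 k142 1 (.d k69 k199 k207 8 10)))), (.s k65 k130 8 (.s k85 k170 14 (.s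
  k105 k125 5 (.s k150 k60 14 (.d k215 k235 k20 5 8))))), (.s k85 k170 14 (.s k166 k247 12 (.s k134
  k73 10 (.s k150 k182 3 (.d k215 k235 k20 5 8)))))] .n) (.c k183 (.q k123 [(.s k130 k65 8 (.s k134
  k73 10 (.s k138 k142 1 (.d k69 k199 k207 8 10)))), (.s k65 k130 8 (.s k85 k170 14 (.s k105 k125 5
  (.s k150 k60 14 (.d k215 k235 k20 5 8))))), (.s k85 k170 14 (.s k166 k247 12 (.s k134 k73 10 (.s
  k150 k182 3 (.d k215 k235 k20 5 8)))))] .n) .n))))) (.c k247 (.l (.s k8 k4 1 (.s k174 k93 12 (.s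
  k170 k85 14 (.s k166 k162 1 (.d k89 k251 k243 12 14)))))) (.c k251 (.l (.s k4 k8 1 (.s k93 k174 12
  (.s k85 k170 14 (.s k89 k81 1 (.d k166 k247 k243 12 14)))))) .n)))))))))))))

def t198 : T TT 256 :=
  (.q k12 [(.s k4 k8 1 (.s k85 k170 14 (.s k166 k247 12 (.s k93 k174 12 (.d k89 k81 k243 1 14)))))]
  (.c k4 (.q k13 [(.s k15 k14 0 (.s k93 k174 12 (.s k173 k253 11 (.s k95 k175 11 (.d k94 k92 k252 0
  12))))), (.s k85 k170 14 (.s k15 k14 0 (.s k5 k10 2 (.s k165 k245 11 (.s k90 k240 14 (.d k95 k80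
  k175 2 11)))))), (.s k85 k170 14 (.s k93 k174 12 (.s k253 k173 11 (.s k1 k169 13 (.s k3 k2 0 (.d
  k9 k5 k6 1 2))))))] (.c k175 (.l (.s k85 k170 14 (.s k15 k14 0 (.s k5 k10 2 (.s k1 k9 1 (.s k253
  k169 13 (.d k93 k173 k174 11 12))))))) .n)) (.c k8 (.q k13 [(.s k15 k14 0 (.s k93 k174 12 (.s k173
  k253 11 (.s k95 k175 11 (.d k94 k92 k252 0 12))))), (.s k85 k170 14 (.s k15 k14 0 (.s k5 k10 2 (.s
  k165 k245 11 (.s k90 k240 14 (.d k95 k80 k175 2 11)))))), (.s k85 k170 14 (.s k93 k174 12 (.s k253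
  k173 11 (.s k1 k169 13 (.s k3 k2 0 (.d k9 k5 k6 1 2))))))] (.c k175 (.l (.s k85 k170 14 (.s k15
  k14 0 (.s k5 k10 2 (.s k165 k245 11 (.s k93 k174 12 (.d k89 k81 k241 1 13))))))) .n)) (.c k81 (.l
  (.s k8 k4 1 (.s k170 k85 14 (.s k89 k251 12 (.s k166 k243 14 (.d k174 k93 k162 12 1)))))) (.c k85
  (.f k4 k8 1 (.q k13 [(.s k15 k14 0 (.s k5 k10 2 (.s k6 k7 0 (.d k9 k1 k3 1 2)))), (.s k93 k174 12
  (.s k253 k173 11 (.s k252 k254 0 (.s k84 k168 13 (.s k164 k244 11 (.s k88 k240 13 (.d k92 k172 k80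
  11 1)))))))] (.c k14 (.q k28 [(.s k60 k44 3 (.s k20 k40 5 (.s k36 k52 3 (.d k24 k16 k48 1 5)))),
  (.s k93 k174 12 (.s k223 k158 8 (.s k207 k239 3 (.s k69 k138 10 (.s k134 k199 8 (.s k73 k195 10
  (.d k77 k142 k65 8 1)))))))] (.c k44 (.q k195 [(.s k134 k73 10 (.s k69 k199 8 (.s k138 k207 10 (.d
  k130 k142 k65 1 8)))), (.s k93 k174 12 (.s k223 k158 8 (.s k215 k235 5 (.s k211 k219 1 (.s k89
  k150 10 (.d k243 k227 k166 3 14)))))), (.s k73 k134 10 (.s k93 k174 12 (.s k193 k133 9 (.s k253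
  k173 11 (.s k213 k233 5 (.d k192 k194 k234 0 6))))))] .n) .n)) .n))) (.c k89 (.q k13 [(.s k15 k14
  0 (.s k93 k174 12 (.s k173 k253 11 (.s k94 k252 12 (.d k95 k92 k175 0 11))))), (.s k4 k8 1 (.s k15
  k14 0 (.s k5 k10 2 (.s k9 k1 1 (.d k6 k7 k3 0 2))))), (.s k85 k170 14 (.s k93 k174 12 (.s k253
  k173 11 (.s k1 k169 13 (.s k3 k2 0 (.d k9 k5 k6 1 2))))))] .n) (.c k93 (.q k195 [(.s k4 k8 1 (.s
  k130 k65 8 (.s k134 k73 10 (.s k138 k142 1 (.d k69 k199 k207 8 10))))), (.s k65 k130 8 (.s k85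
  k170 14 (.s k105 k125 5 (.s k150 k60 14 (.d k215 k235 k20 5 8))))), (.s k4 k8 1 (.s k85 k170 14
  (.s k166 k247 12 (.s k134 k73 10 (.s k150 k182 3 (.d k215 k235 k20 5 8))))))] .n) (.c k166 (.q
  k195 [(.s k4 k8 1 (.s k130 k65 8 (.s k134 k73 10 (.s k69 k199 8 (.d k138 k142 k207 1 10))))), (.s
  k65 k130 8 (.s k85 k170 14 (.s k105 k125 5 (.s k150 k60 14 (.d k215 k235 k20 5 8))))), (.s k170
  k85 14 (.s k73 k134 10 (.s k235 k215 5 (.s k105 k40 8 (.s k89 k121 3 (.d k8 k4 k251 1 12))))))]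
  .n) (.c k170 (.q k13 [(.s k15 k14 0 (.s k93 k174 12 (.s k173 k253 11 (.s k94 k252 12 (.d k95 k92
  k175 0 11))))), (.s k4 k8 1 (.s k15 k14 0 (.s k5 k10 2 (.s k9 k1 1 (.d k6 k7 k3 0 2)))))] (.c k14
  (.q k28 [(.s k60 k44 3 (.s k20 k40 5 (.s k24 k16 1 (.s k36 k48 5 (.d k4 k8 k52 1 3))))), (.s k60
  k44 3 (.s k93 k174 12 (.s k158 k223 8 (.s k109 k207 12 (.d k125 k77 k190 3 8)))))] (.c k44 (.q
  k195 [(.s k4 k8 1 (.s k130 k65 8 (.s k134 k73 10 (.s k69 k199 8 (.d k138 k142 k207 1 10))))), (.s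
  k73 k134 10 (.s k93 k174 12 (.s k193 k133 9 (.s k253 k173 11 (.s k213 k233 5 (.d k192 k194 k234 0
  6)))))), (.s k93 k174 12 (.s k223 k158 8 (.s k215 k235 5 (.s k211 k219 1 (.s k89 k150 10 (.d k243
  k166 k227 14 3))))))] .n) (.c k60 (.f k4 k8 1 (.l (.s k93 k174 12 (.s k223 k158 8 (.s k207 k239 3
  (.s k69 k138 10 (.s k134 k199 8 (.s k73 k195 10 (.d k77 k142 k65 8 1))))))))) .n))) (.c k15 (.f k4
  k8 1 (.l (.s k93 k174 12 (.s k253 k173 11 (.s k252 k254 0 (.s k84 k168 13 (.s k164 k244 11 (.s k88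
  k240 13 (.d k92 k172 k80 11 1))))))))) .n))) (.c k174 (.q k195 [(.s k4 k8 1 (.s k130 k65 8 (.s
  k134 k73 10 (.s k69 k199 8 (.d k138 k142 k207 1 10))))), (.s k65 k130 8 (.s k85 k170 14 (.s k105
  k125 5 (.s k150 k60 14 (.d k215 k235 k20 5 8))))), (.s k4 k8 1 (.s k85 k170 14 (.s k166 k247 12
  (.s k134 k73 10 (.s k150 k182 3 (.d k215 k235 k20 5 8))))))] .n) (.c k243 (.f k174 k93 12 (.f k4
  k8 1 (.q k195 [(.s k130 k65 8 (.s k134 k73 10 (.s k138 k142 1 (.d k69 k199 k207 8 10)))), (.s k65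
  k130 8 (.s k85 k170 14 (.s k105 k125 5 (.s k150 k60 14 (.d k215 k235 k20 5 8))))), (.s k85 k170 14
  (.s k166 k247 12 (.s k134 k73 10 (.s k150 k182 3 (.d k215 k235 k20 5 8)))))] (.c k123 (.q k183
  [(.s k130 k65 8 (.s k134 k73 10 (.s k138 k142 1 (.d k69 k199 k207 8 10)))), (.s k65 k130 8 (.s k85
  k170 14 (.s k105 k125 5 (.s k150 k60 14 (.d k215 k235 k20 5 8))))), (.s k85 k170 14 (.s k166 k247
  12 (.s k134 k73 10 (.s k150 k182 3 (.d k215 k235 k20 5 8)))))] .n) (.c k183 (.q k123 [(.s k130 k65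
  8 (.s k134 k73 10 (.s k138 k142 1 (.d k69 k199 k207 8 10)))), (.s k65 k130 8 (.s k85 k170 14 (.s
  k105 k125 5 (.s k150 k60 14 (.d k215 k235 k20 5 8))))), (.s k85 k170 14 (.s k166 k247 12 (.s k134
  k73 10 (.s k150 k182 3 (.d k215 k235 k20 5 8)))))] .n) .n))))) (.c k247 (.l (.s k8 k4 1 (.s k174
  k93 12 (.s k170 k85 14 (.s k166 k162 1 (.d k89 k251 k243 12 14)))))) (.c k251 (.l (.s k4 k8 1 (.s
  k93 k174 12 (.s k85 k170 14 (.s k89 k81 1 (.d k166 k247 k243 12 14)))))) .n)))))))))))))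

def t199 : T TT 256 :=
  (.q k12 [(.s k4 k8 1 (.s k85 k170 14 (.s k93 k174 12 (.s k89 k81 1 (.d k166 k247 k243 12 14)))))]
  (.c k4 (.q k13 [(.s k15 k14 0 (.s k93 k174 12 (.s k173 k253 11 (.s k95 k175 11 (.d k94 k92 k252 0
  12))))), (.s k85 k170 14 (.s k15 k14 0 (.s k5 k10 2 (.s k165 k245 11 (.s k90 k240 14 (.d k95 k80
  k175 2 11)))))), (.s k85 k170 14 (.s k93 k174 12 (.s k253 k173 11 (.s k1 k169 13 (.s k3 k2 0 (.d
  k9 k5 k6 1 2))))))] (.c k69 (.q k134 [(.s k15 k14 0 (.s k93 k174 12 (.s k173 k253 11 (.s k94 k252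
  12 (.d k95 k92 k175 0 11))))), (.s k85 k170 14 (.s k195 k73 10 (.s k65 k130 8 (.s k105 k125 5 (.s
  k150 k60 14 (.d k215 k235 k20 5 8))))))] .n) (.c k134 (.q k69 [(.s k207 k138 10 (.s k85 k170 14
  (.s k101 k117 3 (.s k223 k239 3 (.d k154 k16 k48 10 14))))), (.s k15 k14 0 (.s k93 k174 12 (.s
  k173 k253 11 (.s k94 k252 12 (.d k95 k92 k175 0 11)))))] .n) (.c k175 (.l (.s k85 k170 14 (.s k15
  k14 0 (.s k5 k10 2 (.s k1 k9 1 (.s k253 k169 13 (.d k93 k173 k174 11 12))))))) .n)))) (.c k8 (.q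
  k13 [(.s k15 k14 0 (.s k93 k174 12 (.s k173 k253 11 (.s k95 k175 11 (.d k94 k92 k252 0 12))))),
  (.s k85 k170 14 (.s k15 k14 0 (.s k5 k10 2 (.s k165 k245 11 (.s k90 k240 14 (.d k95 k80 k175 2
  11)))))), (.s k85 k170 14 (.s k93 k174 12 (.s k253 k173 11 (.s k1 k169 13 (.s k3 k2 0 (.d k9 k5 k6
  1 2))))))] (.c k175 (.l (.s k85 k170 14 (.s k15 k14 0 (.s k5 k10 2 (.s k165 k245 11 (.s k93 k174
  12 (.d k89 k81 k241 1 13))))))) .n)) (.c k81 (.l (.s k8 k4 1 (.s k170 k85 14 (.s k89 k251 12 (.s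
  k166 k243 14 (.d k174 k93 k162 12 1)))))) (.c k85 (.f k4 k8 1 (.q k13 [(.s k15 k14 0 (.s k5 k10 2
  (.s k9 k1 1 (.d k6 k7 k3 0 2)))), (.s k93 k174 12 (.s k253 k173 11 (.s k252 k254 0 (.s k84 k168 13
  (.s k164 k244 11 (.s k88 k240 13 (.d k92 k172 k80 11 1)))))))] (.c k14 (.q k15 [(.s k5 k10 2 (.s
  k9 k1 1 (.d k6 k7 k3 0 2))), (.s k93 k174 12 (.s k95 k175 11 (.s k94 k92 0 (.d k173 k253 k252 11
  12))))] (.c k253 (.l (.s k5 k10 2 (.s k6 k7 0 (.d k9 k1 k3 1 2)))) .n)) (.c k253 (.l (.s k15 k14 0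
  (.s k5 k10 2 (.s k6 k7 0 (.d k9 k1 k3 1 2))))) .n)))) (.c k89 (.q k13 [(.s k15 k14 0 (.s k93 k174
  12 (.s k173 k253 11 (.s k94 k252 12 (.d k95 k92 k175 0 11))))), (.s k4 k8 1 (.s k15 k14 0 (.s k5
  k10 2 (.s k9 k1 1 (.d k6 k7 k3 0 2))))), (.s k85 k170 14 (.s k93 k174 12 (.s k253 k173 11 (.s k1
  k169 13 (.s k3 k2 0 (.d k9 k5 k6 1 2))))))] .n) (.c k93 (.q k195 [(.s k65 k130 8 (.s k85 k170 14
  (.s k215 k235 5 (.s k150 k20 8 (.d k105 k125 k60 5 14))))), (.s k8 k4 1 (.s k65 k130 8 (.s k73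
  k134 10 (.s k69 k77 1 (.d k138 k203 k207 8 10))))), (.s k4 k8 1 (.s k85 k170 14 (.s k166 k247 12
  (.s k134 k73 10 (.s k150 k182 3 (.d k215 k235 k20 5 8))))))] .n) (.c k162 (.l (.s k4 k8 1 (.s k85
  k170 14 (.s k166 k247 12 (.s k89 k243 14 (.d k93 k174 k81 12 1)))))) (.c k166 (.f k4 k8 1 (.q k15
  [(.s k13 k14 0 (.s k5 k10 2 (.s k9 k1 1 (.d k6 k7 k3 0 2)))), (.s k10 k5 2 (.s k170 k85 14 (.s k90
  k250 11 (.s k165 k240 14 (.d k175 k160 k95 2 11))))), (.s k13 k14 0 (.s k93 k174 12 (.s k173 k253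
  11 (.s k94 k252 12 (.d k95 k92 k175 0 11)))))] (.c k90 (.l (.s k5 k10 2 (.s k6 k7 0 (.s k9 k3 2
  (.d k13 k14 k1 0 1))))) .n))) (.c k170 (.f k174 k93 12 (.q k15 [(.s k14 k13 0 (.s k175 k95 11 (.s
  k173 k172 0 (.d k94 k254 k252 11 12)))), (.s k4 k8 1 (.s k5 k10 2 (.s k6 k7 0 (.s k9 k3 2 (.d k13
  k14 k1 0 1)))))] (.c k13 (.q k69 [(.s k8 k4 1 (.s k138 k207 10 (.s k73 k203 8 (.s k195 k134 10 (.d
  k65 k77 k130 1 8))))), (.s k5 k10 2 (.s k207 k138 10 (.s k133 k197 7 (.s k74 k192 10 (.d k79 k64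
  k143 2 7))))), (.s k4 k8 1 (.s k5 k10 2 (.s k7 k6 0 (.s k133 k197 7 (.s k196 k70 8 (.s k132 k68 7
  (.d k192 k72 k74 9 10)))))))] (.c k173 (.q k253 [(.s k8 k4 1 (.s k138 k207 10 (.s k73 k203 8 (.s
  k195 k134 10 (.d k65 k77 k130 1 8))))), (.s k5 k10 2 (.s k207 k138 10 (.s k133 k197 7 (.s k74 k192
  10 (.d k79 k64 k143 2 7))))), (.s k4 k8 1 (.s k252 k254 0 (.s k84 k168 13 (.s k164 k244 11 (.s k88
  k240 13 (.d k92 k80 k172 1 11))))))] .n) (.c k253 (.q k173 [(.d k175 k172 k95 0 11), (.s k207 k138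
  10 (.s k142 k77 8 (.s k143 k79 7 (.d k158 k190 k188 3 4))))] .n) .n))) (.c k14 (.q k251 [(.s k8 k4
  1 (.s k10 k5 2 (.s k11 k9 0 (.s k171 k91 11 (.d k3 k7 k87 1 13))))), (.s k175 k95 11 (.s k172 k173
  0 (.s k243 k247 1 (.s k166 k89 14 (.s k167 k91 13 (.d k163 k171 k169 1 2)))))), (.s k4 k8 1 (.s k5
  k10 2 (.s k95 k175 11 (.s k247 k243 1 (.s k85 k166 12 (.s k165 k245 11 (.d k90 k80 k240 2
  14)))))))] .n) .n)))) (.c k174 (.q k195 [(.s k8 k4 1 (.s k65 k130 8 (.s k73 k134 10 (.s k69 k77 1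
  (.d k138 k203 k207 8 10))))), (.s k65 k130 8 (.s k85 k170 14 (.s k105 k125 5 (.s k150 k60 14 (.d
  k215 k235 k20 5 8))))), (.s k4 k8 1 (.s k85 k170 14 (.s k166 k247 12 (.s k134 k73 10 (.s k150 k182
  3 (.d k215 k235 k20 5 8))))))] .n) (.c k243 (.f k174 k93 12 (.f k4 k8 1 (.q k69 [(.s k207 k138 10
  (.s k85 k170 14 (.s k101 k117 3 (.s k223 k239 3 (.d k154 k16 k48 10 14))))), (.s k207 k138 10 (.s
  k142 k77 8 (.s k158 k190 3 (.s k109 k60 12 (.d k239 k223 k44 3 8))))), (.s k85 k170 14 (.s k247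
  k166 12 (.s k117 k101 3 (.s k52 k182 8 (.s k36 k20 3 (.d k48 k24 k186 5 10))))))] (.c k123 (.q
  k183 [(.s k207 k138 10 (.s k85 k170 14 (.s k101 k117 3 (.s k223 k239 3 (.d k154 k16 k48 10
  14))))), (.s k207 k138 10 (.s k142 k77 8 (.s k158 k190 3 (.s k109 k60 12 (.d k239 k223 k44 3
  8))))), (.s k85 k170 14 (.s k247 k166 12 (.s k117 k101 3 (.s k52 k182 8 (.s k36 k20 3 (.d k48 k24
  k186 5 10))))))] (.c k239 (.l (.s k207 k138 10 (.s k85 k170 14 (.s k166 k247 12 (.s k142 k77 8 (.s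
  k101 k117 3 (.d k154 k178 k48 5 14))))))) .n)) (.c k183 (.q k123 [(.s k207 k138 10 (.s k85 k170 14
  (.s k101 k117 3 (.s k223 k239 3 (.d k154 k16 k48 10 14))))), (.s k207 k138 10 (.s k142 k77 8 (.s
  k158 k190 3 (.s k109 k60 12 (.d k239 k223 k44 3 8))))), (.s k85 k170 14 (.s k247 k166 12 (.s k117
  k101 3 (.s k52 k182 8 (.s k36 k20 3 (.d k48 k24 k186 5 10))))))] (.c k239 (.l (.s k207 k138 10 (.s
  k85 k170 14 (.s k166 k247 12 (.s k142 k77 8 (.s k101 k117 3 (.d k154 k178 k48 5 14))))))) .n)) (.c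
  k239 (.l (.s k207 k138 10 (.s k85 k170 14 (.s k166 k247 12 (.s k142 k77 8 (.s k101 k117 3 (.d k154
  k178 k48 5 14))))))) .n)))))) (.c k247 (.l (.s k8 k4 1 (.s k174 k93 12 (.s k170 k85 14 (.s k166
  k162 1 (.d k89 k251 k243 12 14)))))) (.c k251 (.l (.s k4 k8 1 (.s k93 k174 12 (.s k85 k170 14 (.s
  k89 k81 1 (.d k166 k247 k243 12 14)))))) .n))))))))))))))

def t207 : T TT 256 :=
  (.q k12 [(.s k4 k8 1 (.s k85 k170 14 (.s k166 k247 12 (.s k93 k174 12 (.d k89 k81 k243 1 14)))))]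
  (.c k4 (.f k93 k174 12 (.q k15 [(.s k13 k14 0 (.s k173 k253 11 (.s k95 k175 11 (.d k94 k92 k252 0
  12)))), (.s k5 k10 2 (.s k85 k170 14 (.s k165 k245 11 (.s k90 k240 14 (.d k95 k80 k175 2 11))))),
  (.s k5 k10 2 (.s k85 k170 14 (.s k165 k245 11 (.s k13 k14 0 (.d k89 k81 k241 1 13)))))] (.c k111
  (.q k159 [(.s k13 k14 0 (.s k173 k253 11 (.s k95 k175 11 (.d k94 k92 k252 0 12)))), (.s k5 k10 2
  (.s k85 k170 14 (.s k165 k245 11 (.s k90 k240 14 (.d k95 k80 k175 2 11))))), (.s k5 k10 2 (.s k85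
  k170 14 (.s k165 k245 11 (.s k13 k14 0 (.d k89 k81 k241 1 13)))))] .n) (.c k159 (.q k111 [(.s k13
  k14 0 (.s k173 k253 11 (.s k95 k175 11 (.d k94 k92 k252 0 12)))), (.s k5 k10 2 (.s k85 k170 14 (.s
  k165 k245 11 (.s k90 k240 14 (.d k95 k80 k175 2 11))))), (.s k5 k10 2 (.s k85 k170 14 (.s k165
  k245 11 (.s k13 k14 0 (.d k89 k81 k241 1 13)))))] .n) .n)))) (.c k8 (.f k93 k174 12 (.q k15 [(.s
  k13 k14 0 (.s k173 k253 11 (.s k95 k175 11 (.d k94 k92 k252 0 12)))), (.s k5 k10 2 (.s k85 k170 14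
  (.s k165 k245 11 (.s k90 k240 14 (.d k95 k80 k175 2 11))))), (.s k5 k10 2 (.s k85 k170 14 (.s k165
  k245 11 (.s k13 k14 0 (.d k89 k81 k241 1 13)))))] (.c k111 (.q k159 [(.s k13 k14 0 (.s k173 k253
  11 (.s k95 k175 11 (.d k94 k92 k252 0 12)))), (.s k5 k10 2 (.s k85 k170 14 (.s k165 k245 11 (.s
  k90 k240 14 (.d k95 k80 k175 2 11))))), (.s k5 k10 2 (.s k85 k170 14 (.s k165 k245 11 (.s k13 k14
  0 (.d k89 k81 k241 1 13)))))] .n) (.c k159 (.q k111 [(.s k13 k14 0 (.s k173 k253 11 (.s k95 k175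
  11 (.d k94 k92 k252 0 12)))), (.s k5 k10 2 (.s k85 k170 14 (.s k165 k245 11 (.s k90 k240 14 (.d
  k95 k80 k175 2 11))))), (.s k5 k10 2 (.s k85 k170 14 (.s k165 k245 11 (.s k13 k14 0 (.d k89 k81
  k241 1 13)))))] .n) .n)))) (.c k81 (.l (.s k8 k4 1 (.s k170 k85 14 (.s k89 k251 12 (.s k166 k243
  14 (.d k174 k93 k162 12 1)))))) (.c k85 (.f k4 k8 1 (.f k93 k174 12 (.q k15 [(.s k13 k14 0 (.s k95
  k175 11 (.s k94 k92 0 (.d k173 k253 k252 11 12)))), (.s k5 k10 2 (.s k6 k7 0 (.s k9 k3 2 (.d k13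
  k14 k1 0 1))))] (.c k13 (.q k89 [(.s k5 k10 2 (.s k243 k166 14 (.s k167 k91 13 (.s k247 k251 1 (.d
  k7 k6 k87 0 11))))), (.s k243 k166 14 (.s k91 k167 13 (.s k95 k175 11 (.s k92 k94 0 (.d k83 k87
  k86 1 2))))), (.s k5 k10 2 (.s k6 k7 0 (.s k166 k243 14 (.s k86 k246 11 (.s k95 k175 11 (.d k92
  k94 k83 0 2)))))), (.s k5 k10 2 (.s k6 k7 0 (.s k95 k175 11 (.s k92 k94 0 (.s k83 k86 2 (.s k87
  k91 1 (.d k3 k9 k171 2 13)))))))] (.c k111 (.q k159 [(.s k5 k10 2 (.s k243 k166 14 (.s k167 k91 13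
  (.s k247 k251 1 (.d k7 k6 k87 0 11))))), (.s k243 k166 14 (.s k91 k167 13 (.s k95 k175 11 (.s k92
  k94 0 (.d k83 k87 k86 1 2))))), (.s k5 k10 2 (.s k6 k7 0 (.s k166 k243 14 (.s k86 k246 11 (.s k95
  k175 11 (.d k92 k94 k83 0 2)))))), (.s k5 k10 2 (.s k6 k7 0 (.s k95 k175 11 (.s k92 k94 0 (.s k83
  k86 2 (.s k87 k91 1 (.d k3 k9 k171 2 13)))))))] .n) (.c k159 (.q k111 [(.s k5 k10 2 (.s k243 k166
  14 (.s k167 k91 13 (.s k247 k251 1 (.d k7 k6 k87 0 11))))), (.s k243 k166 14 (.s k91 k167 13 (.s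
  k95 k175 11 (.s k92 k94 0 (.d k83 k87 k86 1 2))))), (.s k5 k10 2 (.s k6 k7 0 (.s k166 k243 14 (.s
  k86 k246 11 (.s k95 k175 11 (.d k92 k94 k83 0 2)))))), (.s k5 k10 2 (.s k6 k7 0 (.s k95 k175 11
  (.s k92 k94 0 (.s k83 k86 2 (.s k87 k91 1 (.d k3 k9 k171 2 13)))))))] .n) .n))) (.c k14 (.l (.s k5
  k10 2 (.s k6 k7 0 (.s k9 k3 2 (.s k13 k1 1 (.s k95 k175 11 (.s k94 k92 0 (.d k173 k253 k252 11
  12)))))))) (.c k111 (.q k159 [(.s k5 k10 2 (.s k6 k7 0 (.s k13 k14 0 (.d k9 k1 k3 1 2)))), (.s k95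
  k175 11 (.s k223 k31 7 (.s k28 k158 8 (.s k60 k44 3 (.s k20 k40 5 (.s k36 k52 3 (.d k24 k16 k48 1
  5)))))))] .n) (.c k159 (.q k111 [(.s k5 k10 2 (.s k6 k7 0 (.s k13 k14 0 (.d k9 k1 k3 1 2)))), (.s
  k95 k175 11 (.s k127 k79 3 (.s k76 k110 4 (.s k204 k140 7 (.s k68 k136 9 (.s k132 k196 7 (.d k72
  k64 k192 1 9)))))))] .n) .n))))))) (.c k89 (.f k93 k174 12 (.q k15 [(.s k13 k14 0 (.s k173 k253 11
  (.s k95 k175 11 (.d k94 k92 k252 0 12)))), (.s k5 k10 2 (.s k85 k170 14 (.s k165 k245 11 (.s k90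
  k240 14 (.d k95 k80 k175 2 11))))), (.s k4 k8 1 (.s k5 k10 2 (.s k6 k7 0 (.s k9 k3 2 (.d k13 k14
  k1 0 1)))))] (.c k111 (.q k159 [(.s k13 k14 0 (.s k173 k253 11 (.s k95 k175 11 (.d k94 k92 k252 0
  12)))), (.s k5 k10 2 (.s k85 k170 14 (.s k165 k245 11 (.s k90 k240 14 (.d k95 k80 k175 2 11))))),
  (.s k4 k8 1 (.s k5 k10 2 (.s k6 k7 0 (.s k9 k3 2 (.d k13 k14 k1 0 1)))))] .n) (.c k159 (.q k111
  [(.s k13 k14 0 (.s k173 k253 11 (.s k95 k175 11 (.d k94 k92 k252 0 12)))), (.s k5 k10 2 (.s k85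
  k170 14 (.s k165 k245 11 (.s k90 k240 14 (.d k95 k80 k175 2 11))))), (.s k4 k8 1 (.s k5 k10 2 (.s
  k6 k7 0 (.s k9 k3 2 (.d k13 k14 k1 0 1)))))] .n) .n)))) (.c k93 (.f k4 k8 1 (.q k15 [(.s k5 k10 2
  (.s k6 k7 0 (.s k13 k14 0 (.d k9 k1 k3 1 2)))), (.s k85 k170 14 (.s k166 k247 12 (.s k14 k13 0 (.s
  k90 k242 13 (.d k95 k80 k175 2 11))))), (.s k5 k10 2 (.s k85 k170 14 (.s k165 k245 11 (.s k90 k240
  14 (.d k95 k80 k175 2 11)))))] (.c k111 (.q k159 [(.s k5 k10 2 (.s k6 k7 0 (.s k13 k14 0 (.d k9 k1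
  k3 1 2)))), (.s k85 k170 14 (.s k166 k247 12 (.s k14 k13 0 (.s k90 k242 13 (.d k95 k80 k175 2
  11))))), (.s k5 k10 2 (.s k85 k170 14 (.s k165 k245 11 (.s k90 k240 14 (.d k95 k80 k175 2 11)))))]
  .n) (.c k159 (.q k111 [(.s k5 k10 2 (.s k6 k7 0 (.s k13 k14 0 (.d k9 k1 k3 1 2)))), (.s k85 k170
  14 (.s k166 k247 12 (.s k14 k13 0 (.s k90 k242 13 (.d k95 k80 k175 2 11))))), (.s k5 k10 2 (.s k85
  k170 14 (.s k165 k245 11 (.s k90 k240 14 (.d k95 k80 k175 2 11)))))] .n) .n)))) (.c k111 (.q k159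
  [(.s k4 k8 1 (.s k85 k170 14 (.s k166 k247 12 (.s k93 k174 12 (.d k89 k81 k243 1 14)))))] (.c k4
  (.q k15 [(.s k5 k10 2 (.s k85 k170 14 (.s k165 k245 11 (.s k95 k175 11 (.d k90 k80 k240 2 14))))),
  (.s k13 k14 0 (.s k93 k174 12 (.s k173 k253 11 (.s k94 k252 12 (.d k95 k92 k175 0 11))))), (.s k5
  k10 2 (.s k85 k170 14 (.s k165 k245 11 (.s k13 k14 0 (.s k93 k174 12 (.d k89 k81 k241 1 13))))))]
  .n) (.c k8 (.q k15 [(.s k10 k5 2 (.s k175 k95 11 (.s k170 k85 14 (.s k165 k160 2 (.d k90 k250 k240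
  11 14))))), (.s k13 k14 0 (.s k93 k174 12 (.s k173 k253 11 (.s k94 k252 12 (.d k95 k92 k175 0
  11))))), (.s k5 k10 2 (.s k85 k170 14 (.s k165 k245 11 (.s k13 k14 0 (.s k93 k174 12 (.d k89 k81
  k241 1 13))))))] .n) (.c k81 (.l (.s k8 k4 1 (.s k170 k85 14 (.s k89 k251 12 (.s k166 k243 14 (.d
  k174 k93 k162 12 1)))))) (.c k85 (.f k4 k8 1 (.f k93 k174 12 (.q k15 [(.s k5 k10 2 (.s k6 k7 0 (.s
  k13 k14 0 (.d k9 k1 k3 1 2)))), (.s k95 k175 11 (.s k223 k31 7 (.s k28 k158 8 (.s k60 k44 3 (.s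
  k20 k40 5 (.s k36 k52 3 (.d k24 k16 k48 1 5)))))))] .n))) (.c k89 (.q k15 [(.s k4 k8 1 (.s k5 k10
  2 (.s k6 k7 0 (.s k13 k14 0 (.d k9 k1 k3 1 2))))), (.s k13 k14 0 (.s k93 k174 12 (.s k173 k253 11
  (.s k94 k252 12 (.d k95 k92 k175 0 11))))), (.s k5 k10 2 (.s k85 k170 14 (.s k165 k245 11 (.s k90
  k240 14 (.d k95 k80 k175 2 11)))))] .n) (.c k93 (.q k15 [(.s k4 k8 1 (.s k5 k10 2 (.s k6 k7 0 (.s
  k13 k14 0 (.d k9 k1 k3 1 2))))), (.s k5 k10 2 (.s k85 k170 14 (.s k165 k245 11 (.s k90 k240 14 (.d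
  k95 k80 k175 2 11))))), (.s k4 k8 1 (.s k85 k170 14 (.s k166 k247 12 (.s k14 k13 0 (.s k90 k242 13
  (.d k95 k80 k175 2 11))))))] .n) (.c k166 (.q k15 [(.s k4 k8 1 (.s k5 k10 2 (.s k6 k7 0 (.s k13
  k14 0 (.d k9 k1 k3 1 2))))), (.s k5 k10 2 (.s k85 k170 14 (.s k165 k245 11 (.s k90 k240 14 (.d k95
  k80 k175 2 11))))), (.s k13 k14 0 (.s k93 k174 12 (.s k173 k253 11 (.s k94 k252 12 (.d k95 k92
  k175 0 11)))))] (.c k90 (.l (.s k4 k8 1 (.s k5 k10 2 (.s k6 k7 0 (.s k9 k3 2 (.d k13 k14 k1 0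
  1)))))) .n)) (.c k170 (.q k15 [(.s k8 k4 1 (.s k14 k13 0 (.s k10 k5 2 (.s k6 k2 1 (.d k9 k11 k3 0
  2))))), (.s k13 k14 0 (.s k93 k174 12 (.s k173 k253 11 (.s k94 k252 12 (.d k95 k92 k175 0 11)))))]
  (.c k13 (.f k93 k174 12 (.f k4 k8 1 (.l (.s k95 k175 11 (.s k223 k31 7 (.s k28 k158 8 (.s k60 k44
  3 (.s k20 k40 5 (.s k36 k52 3 (.d k24 k16 k48 1 5)))))))))) (.c k14 (.q k251 [(.s k8 k4 1 (.s k10
  k5 2 (.s k11 k9 0 (.s k171 k91 11 (.d k3 k7 k87 1 13))))), (.s k4 k8 1 (.s k95 k175 11 (.s k247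
  k243 1 (.s k85 k166 12 (.s k90 k80 2 (.s k165 k240 14 (.d k5 k10 k245 2 11))))))), (.s k95 k175 11
  (.s k243 k247 1 (.s k91 k167 13 (.s k171 k11 11 (.d k87 k83 k3 1 13)))))] .n) (.c k254 (.l (.s k4
  k8 1 (.s k5 k10 2 (.s k6 k7 0 (.s k9 k3 2 (.d k13 k14 k1 0 1)))))) .n)))) (.c k174 (.q k15 [(.s k8
  k4 1 (.s k14 k13 0 (.s k10 k5 2 (.s k6 k2 1 (.d k9 k11 k3 0 2))))), (.s k5 k10 2 (.s k85 k170 14
  (.s k165 k245 11 (.s k90 k240 14 (.d k95 k80 k175 2 11))))), (.s k4 k8 1 (.s k85 k170 14 (.s k166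
  k247 12 (.s k14 k13 0 (.s k90 k242 13 (.d k95 k80 k175 2 11))))))] .n) (.c k243 (.f k4 k8 1 (.f
  k93 k174 12 (.q k15 [(.s k5 k10 2 (.s k6 k7 0 (.s k13 k14 0 (.d k9 k1 k3 1 2)))), (.s k13 k14 0
  (.s k173 k253 11 (.s k94 k252 12 (.d k95 k92 k175 0 11)))), (.s k5 k10 2 (.s k85 k170 14 (.s k165
  k245 11 (.s k90 k240 14 (.d k95 k80 k175 2 11)))))] (.c k123 (.q k183 [(.s k5 k10 2 (.s k6 k7 0
  (.s k13 k14 0 (.d k9 k1 k3 1 2)))), (.s k13 k14 0 (.s k173 k253 11 (.s k94 k252 12 (.d k95 k92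
  k175 0 11)))), (.s k5 k10 2 (.s k85 k170 14 (.s k165 k245 11 (.s k90 k240 14 (.d k95 k80 k175 2
  11)))))] (.c k219 (.q k231 [(.s k5 k10 2 (.s k6 k7 0 (.s k13 k14 0 (.d k9 k1 k3 1 2)))), (.s k13
  k14 0 (.s k173 k253 11 (.s k94 k252 12 (.d k95 k92 k175 0 11)))), (.s k5 k10 2 (.s k85 k170 14 (.s
  k165 k245 11 (.s k90 k240 14 (.d k95 k80 k175 2 11)))))] .n) (.c k231 (.q k219 [(.s k5 k10 2 (.s
  k6 k7 0 (.s k13 k14 0 (.d k9 k1 k3 1 2)))), (.s k13 k14 0 (.s k173 k253 11 (.s k94 k252 12 (.d k95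
  k92 k175 0 11)))), (.s k5 k10 2 (.s k85 k170 14 (.s k165 k245 11 (.s k90 k240 14 (.d k95 k80 k175
  2 11)))))] .n) .n))) (.c k183 (.q k123 [(.s k5 k10 2 (.s k6 k7 0 (.s k13 k14 0 (.d k9 k1 k3 1
  2)))), (.s k13 k14 0 (.s k173 k253 11 (.s k94 k252 12 (.d k95 k92 k175 0 11)))), (.s k5 k10 2 (.s
  k85 k170 14 (.s k165 k245 11 (.s k90 k240 14 (.d k95 k80 k175 2 11)))))] (.c k219 (.q k231 [(.s k5
  k10 2 (.s k6 k7 0 (.s k13 k14 0 (.d k9 k1 k3 1 2)))), (.s k13 k14 0 (.s k173 k253 11 (.s k94 k252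
  12 (.d k95 k92 k175 0 11)))), (.s k5 k10 2 (.s k85 k170 14 (.s k165 k245 11 (.s k90 k240 14 (.d
  k95 k80 k175 2 11)))))] .n) (.c k231 (.q k219 [(.s k5 k10 2 (.s k6 k7 0 (.s k13 k14 0 (.d k9 k1 k3
  1 2)))), (.s k13 k14 0 (.s k173 k253 11 (.s k94 k252 12 (.d k95 k92 k175 0 11)))), (.s k5 k10 2
  (.s k85 k170 14 (.s k165 k245 11 (.s k90 k240 14 (.d k95 k80 k175 2 11)))))] .n) .n))) (.c k219
  (.q k231 [(.s k5 k10 2 (.s k6 k7 0 (.s k13 k14 0 (.d k9 k1 k3 1 2)))), (.s k13 k14 0 (.s k173 k253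
  11 (.s k94 k252 12 (.d k95 k92 k175 0 11)))), (.s k5 k10 2 (.s k85 k170 14 (.s k165 k245 11 (.s
  k90 k240 14 (.d k95 k80 k175 2 11)))))] (.c k123 (.q k183 [(.s k5 k10 2 (.s k6 k7 0 (.s k13 k14 0
  (.d k9 k1 k3 1 2)))), (.s k13 k14 0 (.s k173 k253 11 (.s k94 k252 12 (.d k95 k92 k175 0 11)))),
  (.s k5 k10 2 (.s k85 k170 14 (.s k165 k245 11 (.s k90 k240 14 (.d k95 k80 k175 2 11)))))] .n) (.c
  k183 (.q k123 [(.s k5 k10 2 (.s k6 k7 0 (.s k13 k14 0 (.d k9 k1 k3 1 2)))), (.s k13 k14 0 (.s k173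
  k253 11 (.s k94 k252 12 (.d k95 k92 k175 0 11)))), (.s k5 k10 2 (.s k85 k170 14 (.s k165 k245 11
  (.s k90 k240 14 (.d k95 k80 k175 2 11)))))] .n) .n))) (.c k231 (.q k219 [(.s k5 k10 2 (.s k6 k7 0
  (.s k13 k14 0 (.d k9 k1 k3 1 2)))), (.s k13 k14 0 (.s k173 k253 11 (.s k94 k252 12 (.d k95 k92
  k175 0 11)))), (.s k5 k10 2 (.s k85 k170 14 (.s k165 k245 11 (.s k90 k240 14 (.d k95 k80 k175 2
  11)))))] (.c k123 (.q k183 [(.s k5 k10 2 (.s k6 k7 0 (.s k13 k14 0 (.d k9 k1 k3 1 2)))), (.s k13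
  k14 0 (.s k173 k253 11 (.s k94 k252 12 (.d k95 k92 k175 0 11)))), (.s k5 k10 2 (.s k85 k170 14 (.s
  k165 k245 11 (.s k90 k240 14 (.d k95 k80 k175 2 11)))))] .n) (.c k183 (.q k123 [(.s k5 k10 2 (.s
  k6 k7 0 (.s k13 k14 0 (.d k9 k1 k3 1 2)))), (.s k13 k14 0 (.s k173 k253 11 (.s k94 k252 12 (.d k95
  k92 k175 0 11)))), (.s k5 k10 2 (.s k85 k170 14 (.s k165 k245 11 (.s k90 k240 14 (.d k95 k80 k175
  2 11)))))] .n) .n))) .n))))))) (.c k247 (.l (.s k8 k4 1 (.s k174 k93 12 (.s k170 k85 14 (.s k166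
  k162 1 (.d k89 k251 k243 12 14)))))) (.c k251 (.l (.s k4 k8 1 (.s k93 k174 12 (.s k85 k170 14 (.s
  k89 k81 1 (.d k166 k247 k243 12 14)))))) .n))))))))))))) (.c k159 (.q k111 [(.s k4 k8 1 (.s k85
  k170 14 (.s k166 k247 12 (.s k93 k174 12 (.d k89 k81 k243 1 14)))))] (.c k4 (.q k15 [(.s k5 k10 2
  (.s k85 k170 14 (.s k165 k245 11 (.s k95 k175 11 (.d k90 k80 k240 2 14))))), (.s k13 k14 0 (.s k93
  k174 12 (.s k173 k253 11 (.s k94 k252 12 (.d k95 k92 k175 0 11))))), (.s k5 k10 2 (.s k85 k170 14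
  (.s k165 k245 11 (.s k13 k14 0 (.s k93 k174 12 (.d k89 k81 k241 1 13))))))] .n) (.c k8 (.q k15
  [(.s k10 k5 2 (.s k175 k95 11 (.s k170 k85 14 (.s k165 k160 2 (.d k90 k250 k240 11 14))))), (.s
  k13 k14 0 (.s k93 k174 12 (.s k173 k253 11 (.s k94 k252 12 (.d k95 k92 k175 0 11))))), (.s k5 k10
  2 (.s k85 k170 14 (.s k165 k245 11 (.s k13 k14 0 (.s k93 k174 12 (.d k89 k81 k241 1 13))))))] .n)
  (.c k81 (.l (.s k8 k4 1 (.s k170 k85 14 (.s k89 k251 12 (.s k166 k243 14 (.d k174 k93 k162 12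
  1)))))) (.c k85 (.f k4 k8 1 (.f k93 k174 12 (.q k15 [(.s k5 k10 2 (.s k6 k7 0 (.s k13 k14 0 (.d k9
  k1 k3 1 2)))), (.s k95 k175 11 (.s k127 k79 3 (.s k76 k110 4 (.s k204 k140 7 (.s k68 k136 9 (.s
  k132 k196 7 (.d k72 k64 k192 1 9)))))))] .n))) (.c k89 (.q k15 [(.s k4 k8 1 (.s k5 k10 2 (.s k6 k7
  0 (.s k13 k14 0 (.d k9 k1 k3 1 2))))), (.s k13 k14 0 (.s k93 k174 12 (.s k173 k253 11 (.s k94 k252
  12 (.d k95 k92 k175 0 11))))), (.s k5 k10 2 (.s k85 k170 14 (.s k165 k245 11 (.s k90 k240 14 (.d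
  k95 k80 k175 2 11)))))] .n) (.c k93 (.q k15 [(.s k4 k8 1 (.s k5 k10 2 (.s k6 k7 0 (.s k13 k14 0
  (.d k9 k1 k3 1 2))))), (.s k5 k10 2 (.s k85 k170 14 (.s k165 k245 11 (.s k90 k240 14 (.d k95 k80
  k175 2 11))))), (.s k4 k8 1 (.s k85 k170 14 (.s k166 k247 12 (.s k14 k13 0 (.s k90 k242 13 (.d k95
  k80 k175 2 11))))))] .n) (.c k166 (.q k15 [(.s k4 k8 1 (.s k5 k10 2 (.s k6 k7 0 (.s k13 k14 0 (.d
  k9 k1 k3 1 2))))), (.s k5 k10 2 (.s k85 k170 14 (.s k165 k245 11 (.s k90 k240 14 (.d k95 k80 k175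
  2 11))))), (.s k13 k14 0 (.s k93 k174 12 (.s k173 k253 11 (.s k94 k252 12 (.d k95 k92 k175 0
  11)))))] (.c k90 (.l (.s k4 k8 1 (.s k5 k10 2 (.s k6 k7 0 (.s k9 k3 2 (.d k13 k14 k1 0 1))))))
  .n)) (.c k170 (.f k174 k93 12 (.q k15 [(.s k14 k13 0 (.s k175 k95 11 (.s k173 k172 0 (.d k94 k254
  k252 11 12)))), (.s k4 k8 1 (.s k5 k10 2 (.s k6 k7 0 (.s k9 k3 2 (.d k13 k14 k1 0 1)))))] (.c k13
  (.q k195 [(.s k10 k5 2 (.s k73 k134 10 (.s k75 k135 9 (.s k74 k72 0 (.s k138 k202 7 (.d k8 k4 k203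
  1 8)))))), (.s k175 k95 11 (.s k239 k47 7 (.s k44 k109 8 (.s k60 k28 3 (.s k105 k150 14 (.s k235
  k215 5 (.d k227 k231 k166 1 10)))))))] (.c k173 (.q k253 [(.s k235 k215 5 (.s k252 k254 0 (.s k233
  k214 6 (.s k234 k232 0 (.d k213 k193 k192 5 6))))), (.s k4 k8 1 (.s k5 k10 2 (.s k7 k6 0 (.s k135
  k75 9 (.s k199 k71 7 (.d k134 k69 k73 8 10))))))] (.c k2 (.l (.s k4 k8 1 (.s k5 k10 2 (.s k134 k73
  10 (.s k69 k199 8 (.s k133 k197 7 (.d k135 k132 k75 0 9))))))) .n)) (.c k253 (.q k173 [(.d k175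
  k172 k95 0 11), (.s k4 k8 1 (.s k5 k10 2 (.s k7 k6 0 (.s k134 k73 10 (.s k199 k69 8 (.d k135 k71
  k75 7 9))))))] .n) .n))) (.c k14 (.q k251 [(.s k8 k4 1 (.s k10 k5 2 (.s k11 k9 0 (.s k171 k91 11
  (.d k3 k7 k87 1 13))))), (.s k175 k95 11 (.s k172 k173 0 (.s k243 k247 1 (.s k166 k89 14 (.s k167
  k91 13 (.d k163 k171 k169 1 2)))))), (.s k4 k8 1 (.s k5 k10 2 (.s k95 k175 11 (.s k247 k243 1 (.s
  k85 k166 12 (.s k165 k245 11 (.d k90 k80 k240 2 14)))))))] .n) .n)))) (.c k174 (.q k15 [(.s k8 k4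
  1 (.s k14 k13 0 (.s k10 k5 2 (.s k6 k2 1 (.d k9 k11 k3 0 2))))), (.s k5 k10 2 (.s k85 k170 14 (.s
  k165 k245 11 (.s k90 k240 14 (.d k95 k80 k175 2 11))))), (.s k4 k8 1 (.s k85 k170 14 (.s k166 k247
  12 (.s k14 k13 0 (.s k90 k242 13 (.d k95 k80 k175 2 11))))))] .n) (.c k243 (.f k4 k8 1 (.f k93
  k174 12 (.q k15 [(.s k5 k10 2 (.s k6 k7 0 (.s k13 k14 0 (.d k9 k1 k3 1 2)))), (.s k13 k14 0 (.s
  k173 k253 11 (.s k94 k252 12 (.d k95 k92 k175 0 11)))), (.s k5 k10 2 (.s k85 k170 14 (.s k165 k245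
  11 (.s k90 k240 14 (.d k95 k80 k175 2 11)))))] (.c k123 (.q k183 [(.s k5 k10 2 (.s k6 k7 0 (.s k13
  k14 0 (.d k9 k1 k3 1 2)))), (.s k13 k14 0 (.s k173 k253 11 (.s k94 k252 12 (.d k95 k92 k175 0
  11)))), (.s k5 k10 2 (.s k85 k170 14 (.s k165 k245 11 (.s k90 k240 14 (.d k95 k80 k175 2 11)))))]
  (.c k219 (.q k231 [(.s k5 k10 2 (.s k6 k7 0 (.s k13 k14 0 (.d k9 k1 k3 1 2)))), (.s k13 k14 0 (.s
  k173 k253 11 (.s k94 k252 12 (.d k95 k92 k175 0 11)))), (.s k5 k10 2 (.s k85 k170 14 (.s k165 k245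
  11 (.s k90 k240 14 (.d k95 k80 k175 2 11)))))] .n) (.c k231 (.q k219 [(.s k5 k10 2 (.s k6 k7 0 (.s
  k13 k14 0 (.d k9 k1 k3 1 2)))), (.s k13 k14 0 (.s k173 k253 11 (.s k94 k252 12 (.d k95 k92 k175 0
  11)))), (.s k5 k10 2 (.s k85 k170 14 (.s k165 k245 11 (.s k90 k240 14 (.d k95 k80 k175 2 11)))))]
  .n) .n))) (.c k183 (.q k123 [(.s k5 k10 2 (.s k6 k7 0 (.s k13 k14 0 (.d k9 k1 k3 1 2)))), (.s k13
  k14 0 (.s k173 k253 11 (.s k94 k252 12 (.d k95 k92 k175 0 11)))), (.s k5 k10 2 (.s k85 k170 14 (.s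
  k165 k245 11 (.s k90 k240 14 (.d k95 k80 k175 2 11)))))] (.c k219 (.q k231 [(.s k5 k10 2 (.s k6 k7
  0 (.s k13 k14 0 (.d k9 k1 k3 1 2)))), (.s k13 k14 0 (.s k173 k253 11 (.s k94 k252 12 (.d k95 k92
  k175 0 11)))), (.s k5 k10 2 (.s k85 k170 14 (.s k165 k245 11 (.s k90 k240 14 (.d k95 k80 k175 2
  11)))))] .n) (.c k231 (.q k219 [(.s k5 k10 2 (.s k6 k7 0 (.s k13 k14 0 (.d k9 k1 k3 1 2)))), (.s
  k13 k14 0 (.s k173 k253 11 (.s k94 k252 12 (.d k95 k92 k175 0 11)))), (.s k5 k10 2 (.s k85 k170 14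
  (.s k165 k245 11 (.s k90 k240 14 (.d k95 k80 k175 2 11)))))] .n) .n))) (.c k219 (.q k231 [(.s k5
  k10 2 (.s k6 k7 0 (.s k13 k14 0 (.d k9 k1 k3 1 2)))), (.s k13 k14 0 (.s k173 k253 11 (.s k94 k252
  12 (.d k95 k92 k175 0 11)))), (.s k5 k10 2 (.s k85 k170 14 (.s k165 k245 11 (.s k90 k240 14 (.d
  k95 k80 k175 2 11)))))] (.c k123 (.q k183 [(.s k5 k10 2 (.s k6 k7 0 (.s k13 k14 0 (.d k9 k1 k3 1
  2)))), (.s k13 k14 0 (.s k173 k253 11 (.s k94 k252 12 (.d k95 k92 k175 0 11)))), (.s k5 k10 2 (.s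
  k85 k170 14 (.s k165 k245 11 (.s k90 k240 14 (.d k95 k80 k175 2 11)))))] .n) (.c k183 (.q k123
  [(.s k5 k10 2 (.s k6 k7 0 (.s k13 k14 0 (.d k9 k1 k3 1 2)))), (.s k13 k14 0 (.s k173 k253 11 (.s
  k94 k252 12 (.d k95 k92 k175 0 11)))), (.s k5 k10 2 (.s k85 k170 14 (.s k165 k245 11 (.s k90 k240
  14 (.d k95 k80 k175 2 11)))))] .n) .n))) (.c k231 (.q k219 [(.s k5 k10 2 (.s k6 k7 0 (.s k13 k14 0
  (.d k9 k1 k3 1 2)))), (.s k13 k14 0 (.s k173 k253 11 (.s k94 k252 12 (.d k95 k92 k175 0 11)))),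
  (.s k5 k10 2 (.s k85 k170 14 (.s k165 k245 11 (.s k90 k240 14 (.d k95 k80 k175 2 11)))))] (.c k123
  (.q k183 [(.s k5 k10 2 (.s k6 k7 0 (.s k13 k14 0 (.d k9 k1 k3 1 2)))), (.s k13 k14 0 (.s k173 k253
  11 (.s k94 k252 12 (.d k95 k92 k175 0 11)))), (.s k5 k10 2 (.s k85 k170 14 (.s k165 k245 11 (.s
  k90 k240 14 (.d k95 k80 k175 2 11)))))] .n) (.c k183 (.q k123 [(.s k5 k10 2 (.s k6 k7 0 (.s k13
  k14 0 (.d k9 k1 k3 1 2)))), (.s k13 k14 0 (.s k173 k253 11 (.s k94 k252 12 (.d k95 k92 k175 0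
  11)))), (.s k5 k10 2 (.s k85 k170 14 (.s k165 k245 11 (.s k90 k240 14 (.d k95 k80 k175 2 11)))))]
  .n) .n))) .n))))))) (.c k247 (.l (.s k8 k4 1 (.s k174 k93 12 (.s k170 k85 14 (.s k166 k162 1 (.d
  k89 k251 k243 12 14)))))) (.c k251 (.l (.s k4 k8 1 (.s k93 k174 12 (.s k85 k170 14 (.s k89 k81 1
  (.d k166 k247 k243 12 14)))))) .n))))))))))))) (.c k166 (.f k174 k93 12 (.f k4 k8 1 (.q k15 [(.s
  k5 k10 2 (.s k6 k7 0 (.s k13 k14 0 (.d k9 k1 k3 1 2)))), (.s k14 k13 0 (.s k94 k254 11 (.s k173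
  k252 12 (.d k175 k172 k95 0 11)))), (.s k5 k10 2 (.s k85 k170 14 (.s k165 k245 11 (.s k90 k240 14
  (.d k95 k80 k175 2 11)))))] (.c k111 (.q k159 [(.s k5 k10 2 (.s k6 k7 0 (.s k13 k14 0 (.d k9 k1 k3
  1 2)))), (.s k14 k13 0 (.s k94 k254 11 (.s k173 k252 12 (.d k175 k172 k95 0 11)))), (.s k5 k10 2
  (.s k85 k170 14 (.s k165 k245 11 (.s k90 k240 14 (.d k95 k80 k175 2 11)))))] .n) (.c k159 (.q k111
  [(.s k5 k10 2 (.s k6 k7 0 (.s k13 k14 0 (.d k9 k1 k3 1 2)))), (.s k14 k13 0 (.s k94 k254 11 (.s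
  k173 k252 12 (.d k175 k172 k95 0 11)))), (.s k5 k10 2 (.s k85 k170 14 (.s k165 k245 11 (.s k90
  k240 14 (.d k95 k80 k175 2 11)))))] .n) .n))))) (.c k170 (.f k8 k4 1 (.f k174 k93 12 (.q k15 [(.s
  k14 k13 0 (.s k175 k95 11 (.s k173 k172 0 (.d k94 k254 k252 11 12)))), (.s k10 k5 2 (.s k9 k11 0
  (.s k6 k3 2 (.d k14 k13 k2 0 1))))] (.c k13 (.l (.s k10 k5 2 (.s k9 k11 0 (.s k6 k3 2 (.s k14 k2 1
  (.s k175 k95 11 (.s k173 k172 0 (.d k94 k254 k252 11 12)))))))) (.c k14 (.q k173 [(.d k175 k172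
  k95 0 11), (.s k10 k5 2 (.s k11 k9 0 (.s k252 k94 12 (.s k168 k84 13 (.s k248 k88 11 (.s k90 k169
  12 (.d k240 k244 k165 1 14)))))))] (.c k95 (.l (.s k172 k175 0 (.d k252 k92 k94 11 12))) (.c k111
  (.q k159 [(.d k175 k172 k95 0 11), (.s k10 k5 2 (.s k11 k9 0 (.s k252 k94 12 (.s k168 k84 13 (.s
  k248 k88 11 (.s k90 k169 12 (.d k240 k244 k165 1 14)))))))] (.c k95 (.l (.s k172 k175 0 (.d k252
  k92 k94 11 12))) .n)) (.c k159 (.q k111 [(.d k175 k172 k95 0 11), (.s k10 k5 2 (.s k11 k9 0 (.s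
  k252 k94 12 (.s k168 k84 13 (.s k248 k88 11 (.s k90 k169 12 (.d k240 k244 k165 1 14)))))))] (.c
  k95 (.l (.s k172 k175 0 (.d k252 k92 k94 11 12))) .n)) .n)))) (.c k111 (.q k159 [(.s k10 k5 2 (.s
  k9 k11 0 (.s k14 k13 0 (.d k6 k2 k3 1 2)))), (.s k175 k95 11 (.s k191 k143 3 (.s k140 k157 4 (.s
  k204 k76 7 (.s k136 k68 9 (.s k72 k200 7 (.d k132 k128 k192 1 9)))))))] .n) (.c k159 (.q k111 [(.s
  k10 k5 2 (.s k9 k11 0 (.s k14 k13 0 (.d k6 k2 k3 1 2)))), (.s k175 k95 11 (.s k239 k47 7 (.s k44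
  k109 8 (.s k60 k28 3 (.s k40 k20 5 (.s k24 k56 3 (.d k36 k32 k48 1 5)))))))] .n) .n))))))) (.c
  k174 (.f k4 k8 1 (.q k15 [(.s k5 k10 2 (.s k6 k7 0 (.s k13 k14 0 (.d k9 k1 k3 1 2)))), (.s k85
  k170 14 (.s k166 k247 12 (.s k14 k13 0 (.s k90 k242 13 (.d k95 k80 k175 2 11))))), (.s k5 k10 2
  (.s k85 k170 14 (.s k165 k245 11 (.s k90 k240 14 (.d k95 k80 k175 2 11)))))] (.c k111 (.q k159
  [(.s k5 k10 2 (.s k6 k7 0 (.s k13 k14 0 (.d k9 k1 k3 1 2)))), (.s k85 k170 14 (.s k166 k247 12 (.s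
  k14 k13 0 (.s k90 k242 13 (.d k95 k80 k175 2 11))))), (.s k5 k10 2 (.s k85 k170 14 (.s k165 k245
  11 (.s k90 k240 14 (.d k95 k80 k175 2 11)))))] .n) (.c k159 (.q k111 [(.s k5 k10 2 (.s k6 k7 0 (.s
  k13 k14 0 (.d k9 k1 k3 1 2)))), (.s k85 k170 14 (.s k166 k247 12 (.s k14 k13 0 (.s k90 k242 13 (.d
  k95 k80 k175 2 11))))), (.s k5 k10 2 (.s k85 k170 14 (.s k165 k245 11 (.s k90 k240 14 (.d k95 k80
  k175 2 11)))))] .n) .n)))) (.c k243 (.f k4 k8 1 (.f k93 k174 12 (.q k15 [(.s k5 k10 2 (.s k6 k7 0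
  (.s k13 k14 0 (.d k9 k1 k3 1 2)))), (.s k13 k14 0 (.s k173 k253 11 (.s k94 k252 12 (.d k95 k92
  k175 0 11)))), (.s k5 k10 2 (.s k85 k170 14 (.s k165 k245 11 (.s k90 k240 14 (.d k95 k80 k175 2
  11)))))] (.c k111 (.q k159 [(.s k5 k10 2 (.s k6 k7 0 (.s k13 k14 0 (.d k9 k1 k3 1 2)))), (.s k13
  k14 0 (.s k173 k253 11 (.s k94 k252 12 (.d k95 k92 k175 0 11)))), (.s k5 k10 2 (.s k85 k170 14 (.s
  k165 k245 11 (.s k90 k240 14 (.d k95 k80 k175 2 11)))))] (.c k123 (.q k183 [(.s k5 k10 2 (.s k6 k7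
  0 (.s k13 k14 0 (.d k9 k1 k3 1 2)))), (.s k13 k14 0 (.s k173 k253 11 (.s k94 k252 12 (.d k95 k92
  k175 0 11)))), (.s k5 k10 2 (.s k85 k170 14 (.s k165 k245 11 (.s k90 k240 14 (.d k95 k80 k175 2
  11)))))] (.c k219 (.q k231 [(.s k5 k10 2 (.s k6 k7 0 (.s k13 k14 0 (.d k9 k1 k3 1 2)))), (.s k13
  k14 0 (.s k173 k253 11 (.s k94 k252 12 (.d k95 k92 k175 0 11)))), (.s k5 k10 2 (.s k85 k170 14 (.s
  k165 k245 11 (.s k90 k240 14 (.d k95 k80 k175 2 11)))))] .n) (.c k231 (.q k219 [(.s k5 k10 2 (.s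
  k6 k7 0 (.s k13 k14 0 (.d k9 k1 k3 1 2)))), (.s k13 k14 0 (.s k173 k253 11 (.s k94 k252 12 (.d k95
  k92 k175 0 11)))), (.s k5 k10 2 (.s k85 k170 14 (.s k165 k245 11 (.s k90 k240 14 (.d k95 k80 k175
  2 11)))))] .n) .n))) (.c k183 (.q k123 [(.s k5 k10 2 (.s k6 k7 0 (.s k13 k14 0 (.d k9 k1 k3 1
  2)))), (.s k13 k14 0 (.s k173 k253 11 (.s k94 k252 12 (.d k95 k92 k175 0 11)))), (.s k5 k10 2 (.s
  k85 k170 14 (.s k165 k245 11 (.s k90 k240 14 (.d k95 k80 k175 2 11)))))] (.c k219 (.q k231 [(.s k5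
  k10 2 (.s k6 k7 0 (.s k13 k14 0 (.d k9 k1 k3 1 2)))), (.s k13 k14 0 (.s k173 k253 11 (.s k94 k252
  12 (.d k95 k92 k175 0 11)))), (.s k5 k10 2 (.s k85 k170 14 (.s k165 k245 11 (.s k90 k240 14 (.d
  k95 k80 k175 2 11)))))] .n) (.c k231 (.q k219 [(.s k5 k10 2 (.s k6 k7 0 (.s k13 k14 0 (.d k9 k1 k3
  1 2)))), (.s k13 k14 0 (.s k173 k253 11 (.s k94 k252 12 (.d k95 k92 k175 0 11)))), (.s k5 k10 2
  (.s k85 k170 14 (.s k165 k245 11 (.s k90 k240 14 (.d k95 k80 k175 2 11)))))] .n) .n))) (.c k219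
  (.q k231 [(.s k5 k10 2 (.s k6 k7 0 (.s k13 k14 0 (.d k9 k1 k3 1 2)))), (.s k13 k14 0 (.s k173 k253
  11 (.s k94 k252 12 (.d k95 k92 k175 0 11)))), (.s k5 k10 2 (.s k85 k170 14 (.s k165 k245 11 (.s
  k90 k240 14 (.d k95 k80 k175 2 11)))))] (.c k123 (.q k183 [(.s k5 k10 2 (.s k6 k7 0 (.s k13 k14 0
  (.d k9 k1 k3 1 2)))), (.s k13 k14 0 (.s k173 k253 11 (.s k94 k252 12 (.d k95 k92 k175 0 11)))),
  (.s k5 k10 2 (.s k85 k170 14 (.s k165 k245 11 (.s k90 k240 14 (.d k95 k80 k175 2 11)))))] .n) (.c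
  k183 (.q k123 [(.s k5 k10 2 (.s k6 k7 0 (.s k13 k14 0 (.d k9 k1 k3 1 2)))), (.s k13 k14 0 (.s k173
  k253 11 (.s k94 k252 12 (.d k95 k92 k175 0 11)))), (.s k5 k10 2 (.s k85 k170 14 (.s k165 k245 11
  (.s k90 k240 14 (.d k95 k80 k175 2 11)))))] .n) .n))) (.c k231 (.q k219 [(.s k5 k10 2 (.s k6 k7 0
  (.s k13 k14 0 (.d k9 k1 k3 1 2)))), (.s k13 k14 0 (.s k173 k253 11 (.s k94 k252 12 (.d k95 k92
  k175 0 11)))), (.s k5 k10 2 (.s k85 k170 14 (.s k165 k245 11 (.s k90 k240 14 (.d k95 k80 k175 2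
  11)))))] (.c k123 (.q k183 [(.s k5 k10 2 (.s k6 k7 0 (.s k13 k14 0 (.d k9 k1 k3 1 2)))), (.s k13
  k14 0 (.s k173 k253 11 (.s k94 k252 12 (.d k95 k92 k175 0 11)))), (.s k5 k10 2 (.s k85 k170 14 (.s
  k165 k245 11 (.s k90 k240 14 (.d k95 k80 k175 2 11)))))] .n) (.c k183 (.q k123 [(.s k5 k10 2 (.s
  k6 k7 0 (.s k13 k14 0 (.d k9 k1 k3 1 2)))), (.s k13 k14 0 (.s k173 k253 11 (.s k94 k252 12 (.d k95
  k92 k175 0 11)))), (.s k5 k10 2 (.s k85 k170 14 (.s k165 k245 11 (.s k90 k240 14 (.d k95 k80 k175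
  2 11)))))] .n) .n))) .n))))) (.c k123 (.q k183 [(.s k5 k10 2 (.s k6 k7 0 (.s k13 k14 0 (.d k9 k1
  k3 1 2)))), (.s k13 k14 0 (.s k173 k253 11 (.s k94 k252 12 (.d k95 k92 k175 0 11)))), (.s k5 k10 2
  (.s k85 k170 14 (.s k165 k245 11 (.s k90 k240 14 (.d k95 k80 k175 2 11)))))] (.c k111 (.q k159
  [(.s k5 k10 2 (.s k6 k7 0 (.s k13 k14 0 (.d k9 k1 k3 1 2)))), (.s k13 k14 0 (.s k173 k253 11 (.s
  k94 k252 12 (.d k95 k92 k175 0 11)))), (.s k5 k10 2 (.s k85 k170 14 (.s k165 k245 11 (.s k90 k240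
  14 (.d k95 k80 k175 2 11)))))] (.c k219 (.q k231 [(.s k5 k10 2 (.s k6 k7 0 (.s k13 k14 0 (.d k9 k1
  k3 1 2)))), (.s k13 k14 0 (.s k173 k253 11 (.s k94 k252 12 (.d k95 k92 k175 0 11)))), (.s k5 k10 2
  (.s k85 k170 14 (.s k165 k245 11 (.s k90 k240 14 (.d k95 k80 k175 2 11)))))] .n) (.c k231 (.q k219
  [(.s k5 k10 2 (.s k6 k7 0 (.s k13 k14 0 (.d k9 k1 k3 1 2)))), (.s k13 k14 0 (.s k173 k253 11 (.s
  k94 k252 12 (.d k95 k92 k175 0 11)))), (.s k5 k10 2 (.s k85 k170 14 (.s k165 k245 11 (.s k90 k240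
  14 (.d k95 k80 k175 2 11)))))] .n) .n))) (.c k159 (.q k111 [(.s k5 k10 2 (.s k6 k7 0 (.s k13 k14 0
  (.d k9 k1 k3 1 2)))), (.s k13 k14 0 (.s k173 k253 11 (.s k94 k252 12 (.d k95 k92 k175 0 11)))),
  (.s k5 k10 2 (.s k85 k170 14 (.s k165 k245 11 (.s k90 k240 14 (.d k95 k80 k175 2 11)))))] (.c k219
  (.q k231 [(.s k5 k10 2 (.s k6 k7 0 (.s k13 k14 0 (.d k9 k1 k3 1 2)))), (.s k13 k14 0 (.s k173 k253
  11 (.s k94 k252 12 (.d k95 k92 k175 0 11)))), (.s k5 k10 2 (.s k85 k170 14 (.s k165 k245 11 (.s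
  k90 k240 14 (.d k95 k80 k175 2 11)))))] .n) (.c k231 (.q k219 [(.s k5 k10 2 (.s k6 k7 0 (.s k13
  k14 0 (.d k9 k1 k3 1 2)))), (.s k13 k14 0 (.s k173 k253 11 (.s k94 k252 12 (.d k95 k92 k175 0
  11)))), (.s k5 k10 2 (.s k85 k170 14 (.s k165 k245 11 (.s k90 k240 14 (.d k95 k80 k175 2 11)))))]
  .n) .n))) (.c k219 (.q k231 [(.s k5 k10 2 (.s k6 k7 0 (.s k13 k14 0 (.d k9 k1 k3 1 2)))), (.s k13
  k14 0 (.s k173 k253 11 (.s k94 k252 12 (.d k95 k92 k175 0 11)))), (.s k5 k10 2 (.s k85 k170 14 (.s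
  k165 k245 11 (.s k90 k240 14 (.d k95 k80 k175 2 11)))))] (.c k111 (.q k159 [(.s k5 k10 2 (.s k6 k7
  0 (.s k13 k14 0 (.d k9 k1 k3 1 2)))), (.s k13 k14 0 (.s k173 k253 11 (.s k94 k252 12 (.d k95 k92
  k175 0 11)))), (.s k5 k10 2 (.s k85 k170 14 (.s k165 k245 11 (.s k90 k240 14 (.d k95 k80 k175 2
  11)))))] .n) (.c k159 (.q k111 [(.s k5 k10 2 (.s k6 k7 0 (.s k13 k14 0 (.d k9 k1 k3 1 2)))), (.s
  k13 k14 0 (.s k173 k253 11 (.s k94 k252 12 (.d k95 k92 k175 0 11)))), (.s k5 k10 2 (.s k85 k170 14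
  (.s k165 k245 11 (.s k90 k240 14 (.d k95 k80 k175 2 11)))))] .n) .n))) (.c k231 (.q k219 [(.s k5
  k10 2 (.s k6 k7 0 (.s k13 k14 0 (.d k9 k1 k3 1 2)))), (.s k13 k14 0 (.s k173 k253 11 (.s k94 k252
  12 (.d k95 k92 k175 0 11)))), (.s k5 k10 2 (.s k85 k170 14 (.s k165 k245 11 (.s k90 k240 14 (.d
  k95 k80 k175 2 11)))))] (.c k111 (.q k159 [(.s k5 k10 2 (.s k6 k7 0 (.s k13 k14 0 (.d k9 k1 k3 1
  2)))), (.s k13 k14 0 (.s k173 k253 11 (.s k94 k252 12 (.d k95 k92 k175 0 11)))), (.s k5 k10 2 (.s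
  k85 k170 14 (.s k165 k245 11 (.s k90 k240 14 (.d k95 k80 k175 2 11)))))] .n) (.c k159 (.q k111
  [(.s k5 k10 2 (.s k6 k7 0 (.s k13 k14 0 (.d k9 k1 k3 1 2)))), (.s k13 k14 0 (.s k173 k253 11 (.s
  k94 k252 12 (.d k95 k92 k175 0 11)))), (.s k5 k10 2 (.s k85 k170 14 (.s k165 k245 11 (.s k90 k240
  14 (.d k95 k80 k175 2 11)))))] .n) .n))) .n))))) (.c k159 (.q k111 [(.s k5 k10 2 (.s k6 k7 0 (.s
  k13 k14 0 (.d k9 k1 k3 1 2)))), (.s k13 k14 0 (.s k173 k253 11 (.s k94 k252 12 (.d k95 k92 k175 0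
  11)))), (.s k5 k10 2 (.s k85 k170 14 (.s k165 k245 11 (.s k90 k240 14 (.d k95 k80 k175 2 11)))))]
  (.c k123 (.q k183 [(.s k5 k10 2 (.s k6 k7 0 (.s k13 k14 0 (.d k9 k1 k3 1 2)))), (.s k13 k14 0 (.s
  k173 k253 11 (.s k94 k252 12 (.d k95 k92 k175 0 11)))), (.s k5 k10 2 (.s k85 k170 14 (.s k165 k245
  11 (.s k90 k240 14 (.d k95 k80 k175 2 11)))))] (.c k219 (.q k231 [(.s k5 k10 2 (.s k6 k7 0 (.s k13
  k14 0 (.d k9 k1 k3 1 2)))), (.s k13 k14 0 (.s k173 k253 11 (.s k94 k252 12 (.d k95 k92 k175 0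
  11)))), (.s k5 k10 2 (.s k85 k170 14 (.s k165 k245 11 (.s k90 k240 14 (.d k95 k80 k175 2 11)))))]
  .n) (.c k231 (.q k219 [(.s k5 k10 2 (.s k6 k7 0 (.s k13 k14 0 (.d k9 k1 k3 1 2)))), (.s k13 k14 0
  (.s k173 k253 11 (.s k94 k252 12 (.d k95 k92 k175 0 11)))), (.s k5 k10 2 (.s k85 k170 14 (.s k165
  k245 11 (.s k90 k240 14 (.d k95 k80 k175 2 11)))))] .n) .n))) (.c k183 (.q k123 [(.s k5 k10 2 (.s
  k6 k7 0 (.s k13 k14 0 (.d k9 k1 k3 1 2)))), (.s k13 k14 0 (.s k173 k253 11 (.s k94 k252 12 (.d k95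
  k92 k175 0 11)))), (.s k5 k10 2 (.s k85 k170 14 (.s k165 k245 11 (.s k90 k240 14 (.d k95 k80 k175
  2 11)))))] (.c k219 (.q k231 [(.s k5 k10 2 (.s k6 k7 0 (.s k13 k14 0 (.d k9 k1 k3 1 2)))), (.s k13
  k14 0 (.s k173 k253 11 (.s k94 k252 12 (.d k95 k92 k175 0 11)))), (.s k5 k10 2 (.s k85 k170 14 (.s
  k165 k245 11 (.s k90 k240 14 (.d k95 k80 k175 2 11)))))] .n) (.c k231 (.q k219 [(.s k5 k10 2 (.s
  k6 k7 0 (.s k13 k14 0 (.d k9 k1 k3 1 2)))), (.s k13 k14 0 (.s k173 k253 11 (.s k94 k252 12 (.d k95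
  k92 k175 0 11)))), (.s k5 k10 2 (.s k85 k170 14 (.s k165 k245 11 (.s k90 k240 14 (.d k95 k80 k175
  2 11)))))] .n) .n))) (.c k219 (.q k231 [(.s k5 k10 2 (.s k6 k7 0 (.s k13 k14 0 (.d k9 k1 k3 1
  2)))), (.s k13 k14 0 (.s k173 k253 11 (.s k94 k252 12 (.d k95 k92 k175 0 11)))), (.s k5 k10 2 (.s
  k85 k170 14 (.s k165 k245 11 (.s k90 k240 14 (.d k95 k80 k175 2 11)))))] (.c k123 (.q k183 [(.s k5
  k10 2 (.s k6 k7 0 (.s k13 k14 0 (.d k9 k1 k3 1 2)))), (.s k13 k14 0 (.s k173 k253 11 (.s k94 k252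
  12 (.d k95 k92 k175 0 11)))), (.s k5 k10 2 (.s k85 k170 14 (.s k165 k245 11 (.s k90 k240 14 (.d
  k95 k80 k175 2 11)))))] .n) (.c k183 (.q k123 [(.s k5 k10 2 (.s k6 k7 0 (.s k13 k14 0 (.d k9 k1 k3
  1 2)))), (.s k13 k14 0 (.s k173 k253 11 (.s k94 k252 12 (.d k95 k92 k175 0 11)))), (.s k5 k10 2
  (.s k85 k170 14 (.s k165 k245 11 (.s k90 k240 14 (.d k95 k80 k175 2 11)))))] .n) .n))) (.c k231
  (.q k219 [(.s k5 k10 2 (.s k6 k7 0 (.s k13 k14 0 (.d k9 k1 k3 1 2)))), (.s k13 k14 0 (.s k173 k253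
  11 (.s k94 k252 12 (.d k95 k92 k175 0 11)))), (.s k5 k10 2 (.s k85 k170 14 (.s k165 k245 11 (.s
  k90 k240 14 (.d k95 k80 k175 2 11)))))] (.c k123 (.q k183 [(.s k5 k10 2 (.s k6 k7 0 (.s k13 k14 0
  (.d k9 k1 k3 1 2)))), (.s k13 k14 0 (.s k173 k253 11 (.s k94 k252 12 (.d k95 k92 k175 0 11)))),
  (.s k5 k10 2 (.s k85 k170 14 (.s k165 k245 11 (.s k90 k240 14 (.d k95 k80 k175 2 11)))))] .n) (.c
  k183 (.q k123 [(.s k5 k10 2 (.s k6 k7 0 (.s k13 k14 0 (.d k9 k1 k3 1 2)))), (.s k13 k14 0 (.s k173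
  k253 11 (.s k94 k252 12 (.d k95 k92 k175 0 11)))), (.s k5 k10 2 (.s k85 k170 14 (.s k165 k245 11
  (.s k90 k240 14 (.d k95 k80 k175 2 11)))))] .n) .n))) .n))))) (.c k183 (.q k123 [(.s k5 k10 2 (.s
  k6 k7 0 (.s k13 k14 0 (.d k9 k1 k3 1 2)))), (.s k13 k14 0 (.s k173 k253 11 (.s k94 k252 12 (.d k95
  k92 k175 0 11)))), (.s k5 k10 2 (.s k85 k170 14 (.s k165 k245 11 (.s k90 k240 14 (.d k95 k80 k175
  2 11)))))] (.c k111 (.q k159 [(.s k5 k10 2 (.s k6 k7 0 (.s k13 k14 0 (.d k9 k1 k3 1 2)))), (.s k13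
  k14 0 (.s k173 k253 11 (.s k94 k252 12 (.d k95 k92 k175 0 11)))), (.s k5 k10 2 (.s k85 k170 14 (.s
  k165 k245 11 (.s k90 k240 14 (.d k95 k80 k175 2 11)))))] (.c k219 (.q k231 [(.s k5 k10 2 (.s k6 k7
  0 (.s k13 k14 0 (.d k9 k1 k3 1 2)))), (.s k13 k14 0 (.s k173 k253 11 (.s k94 k252 12 (.d k95 k92
  k175 0 11)))), (.s k5 k10 2 (.s k85 k170 14 (.s k165 k245 11 (.s k90 k240 14 (.d k95 k80 k175 2
  11)))))] .n) (.c k231 (.q k219 [(.s k5 k10 2 (.s k6 k7 0 (.s k13 k14 0 (.d k9 k1 k3 1 2)))), (.s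
  k13 k14 0 (.s k173 k253 11 (.s k94 k252 12 (.d k95 k92 k175 0 11)))), (.s k5 k10 2 (.s k85 k170 14
  (.s k165 k245 11 (.s k90 k240 14 (.d k95 k80 k175 2 11)))))] .n) .n))) (.c k159 (.q k111 [(.s k5
  k10 2 (.s k6 k7 0 (.s k13 k14 0 (.d k9 k1 k3 1 2)))), (.s k13 k14 0 (.s k173 k253 11 (.s k94 k252
  12 (.d k95 k92 k175 0 11)))), (.s k5 k10 2 (.s k85 k170 14 (.s k165 k245 11 (.s k90 k240 14 (.d
  k95 k80 k175 2 11)))))] (.c k219 (.q k231 [(.s k5 k10 2 (.s k6 k7 0 (.s k13 k14 0 (.d k9 k1 k3 1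
  2)))), (.s k13 k14 0 (.s k173 k253 11 (.s k94 k252 12 (.d k95 k92 k175 0 11)))), (.s k5 k10 2 (.s
  k85 k170 14 (.s k165 k245 11 (.s k90 k240 14 (.d k95 k80 k175 2 11)))))] .n) (.c k231 (.q k219
  [(.s k5 k10 2 (.s k6 k7 0 (.s k13 k14 0 (.d k9 k1 k3 1 2)))), (.s k13 k14 0 (.s k173 k253 11 (.s
  k94 k252 12 (.d k95 k92 k175 0 11)))), (.s k5 k10 2 (.s k85 k170 14 (.s k165 k245 11 (.s k90 k240
  14 (.d k95 k80 k175 2 11)))))] .n) .n))) (.c k219 (.q k231 [(.s k5 k10 2 (.s k6 k7 0 (.s k13 k14 0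
  (.d k9 k1 k3 1 2)))), (.s k13 k14 0 (.s k173 k253 11 (.s k94 k252 12 (.d k95 k92 k175 0 11)))),
  (.s k5 k10 2 (.s k85 k170 14 (.s k165 k245 11 (.s k90 k240 14 (.d k95 k80 k175 2 11)))))] (.c k111
  (.q k159 [(.s k5 k10 2 (.s k6 k7 0 (.s k13 k14 0 (.d k9 k1 k3 1 2)))), (.s k13 k14 0 (.s k173 k253
  11 (.s k94 k252 12 (.d k95 k92 k175 0 11)))), (.s k5 k10 2 (.s k85 k170 14 (.s k165 k245 11 (.s
  k90 k240 14 (.d k95 k80 k175 2 11)))))] .n) (.c k159 (.q k111 [(.s k5 k10 2 (.s k6 k7 0 (.s k13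
  k14 0 (.d k9 k1 k3 1 2)))), (.s k13 k14 0 (.s k173 k253 11 (.s k94 k252 12 (.d k95 k92 k175 0
  11)))), (.s k5 k10 2 (.s k85 k170 14 (.s k165 k245 11 (.s k90 k240 14 (.d k95 k80 k175 2 11)))))]
  .n) .n))) (.c k231 (.q k219 [(.s k5 k10 2 (.s k6 k7 0 (.s k13 k14 0 (.d k9 k1 k3 1 2)))), (.s k13
  k14 0 (.s k173 k253 11 (.s k94 k252 12 (.d k95 k92 k175 0 11)))), (.s k5 k10 2 (.s k85 k170 14 (.s
  k165 k245 11 (.s k90 k240 14 (.d k95 k80 k175 2 11)))))] (.c k111 (.q k159 [(.s k5 k10 2 (.s k6 k7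
  0 (.s k13 k14 0 (.d k9 k1 k3 1 2)))), (.s k13 k14 0 (.s k173 k253 11 (.s k94 k252 12 (.d k95 k92
  k175 0 11)))), (.s k5 k10 2 (.s k85 k170 14 (.s k165 k245 11 (.s k90 k240 14 (.d k95 k80 k175 2
  11)))))] .n) (.c k159 (.q k111 [(.s k5 k10 2 (.s k6 k7 0 (.s k13 k14 0 (.d k9 k1 k3 1 2)))), (.s
  k13 k14 0 (.s k173 k253 11 (.s k94 k252 12 (.d k95 k92 k175 0 11)))), (.s k5 k10 2 (.s k85 k170 14
  (.s k165 k245 11 (.s k90 k240 14 (.d k95 k80 k175 2 11)))))] .n) .n))) .n))))) (.c k219 (.q k231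
  [(.s k5 k10 2 (.s k6 k7 0 (.s k13 k14 0 (.d k9 k1 k3 1 2)))), (.s k13 k14 0 (.s k173 k253 11 (.s
  k94 k252 12 (.d k95 k92 k175 0 11)))), (.s k5 k10 2 (.s k85 k170 14 (.s k165 k245 11 (.s k90 k240
  14 (.d k95 k80 k175 2 11)))))] (.c k111 (.q k159 [(.s k5 k10 2 (.s k6 k7 0 (.s k13 k14 0 (.d k9 k1
  k3 1 2)))), (.s k13 k14 0 (.s k173 k253 11 (.s k94 k252 12 (.d k95 k92 k175 0 11)))), (.s k5 k10 2
  (.s k85 k170 14 (.s k165 k245 11 (.s k90 k240 14 (.d k95 k80 k175 2 11)))))] (.c k123 (.q k183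
  [(.s k5 k10 2 (.s k6 k7 0 (.s k13 k14 0 (.d k9 k1 k3 1 2)))), (.s k13 k14 0 (.s k173 k253 11 (.s
  k94 k252 12 (.d k95 k92 k175 0 11)))), (.s k5 k10 2 (.s k85 k170 14 (.s k165 k245 11 (.s k90 k240
  14 (.d k95 k80 k175 2 11)))))] .n) (.c k183 (.q k123 [(.s k5 k10 2 (.s k6 k7 0 (.s k13 k14 0 (.d
  k9 k1 k3 1 2)))), (.s k13 k14 0 (.s k173 k253 11 (.s k94 k252 12 (.d k95 k92 k175 0 11)))), (.s k5
  k10 2 (.s k85 k170 14 (.s k165 k245 11 (.s k90 k240 14 (.d k95 k80 k175 2 11)))))] .n) .n))) (.c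
  k123 (.q k183 [(.s k5 k10 2 (.s k6 k7 0 (.s k13 k14 0 (.d k9 k1 k3 1 2)))), (.s k13 k14 0 (.s k173
  k253 11 (.s k94 k252 12 (.d k95 k92 k175 0 11)))), (.s k5 k10 2 (.s k85 k170 14 (.s k165 k245 11
  (.s k90 k240 14 (.d k95 k80 k175 2 11)))))] (.c k111 (.q k159 [(.s k5 k10 2 (.s k6 k7 0 (.s k13
  k14 0 (.d k9 k1 k3 1 2)))), (.s k13 k14 0 (.s k173 k253 11 (.s k94 k252 12 (.d k95 k92 k175 0
  11)))), (.s k5 k10 2 (.s k85 k170 14 (.s k165 k245 11 (.s k90 k240 14 (.d k95 k80 k175 2 11)))))]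
  .n) (.c k159 (.q k111 [(.s k5 k10 2 (.s k6 k7 0 (.s k13 k14 0 (.d k9 k1 k3 1 2)))), (.s k13 k14 0
  (.s k173 k253 11 (.s k94 k252 12 (.d k95 k92 k175 0 11)))), (.s k5 k10 2 (.s k85 k170 14 (.s k165
  k245 11 (.s k90 k240 14 (.d k95 k80 k175 2 11)))))] .n) .n))) (.c k159 (.q k111 [(.s k5 k10 2 (.s
  k6 k7 0 (.s k13 k14 0 (.d k9 k1 k3 1 2)))), (.s k13 k14 0 (.s k173 k253 11 (.s k94 k252 12 (.d k95
  k92 k175 0 11)))), (.s k5 k10 2 (.s k85 k170 14 (.s k165 k245 11 (.s k90 k240 14 (.d k95 k80 k175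
  2 11)))))] (.c k123 (.q k183 [(.s k5 k10 2 (.s k6 k7 0 (.s k13 k14 0 (.d k9 k1 k3 1 2)))), (.s k13
  k14 0 (.s k173 k253 11 (.s k94 k252 12 (.d k95 k92 k175 0 11)))), (.s k5 k10 2 (.s k85 k170 14 (.s
  k165 k245 11 (.s k90 k240 14 (.d k95 k80 k175 2 11)))))] .n) (.c k183 (.q k123 [(.s k5 k10 2 (.s
  k6 k7 0 (.s k13 k14 0 (.d k9 k1 k3 1 2)))), (.s k13 k14 0 (.s k173 k253 11 (.s k94 k252 12 (.d k95
  k92 k175 0 11)))), (.s k5 k10 2 (.s k85 k170 14 (.s k165 k245 11 (.s k90 k240 14 (.d k95 k80 k175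
  2 11)))))] .n) .n))) (.c k183 (.q k123 [(.s k5 k10 2 (.s k6 k7 0 (.s k13 k14 0 (.d k9 k1 k3 1
  2)))), (.s k13 k14 0 (.s k173 k253 11 (.s k94 k252 12 (.d k95 k92 k175 0 11)))), (.s k5 k10 2 (.s
  k85 k170 14 (.s k165 k245 11 (.s k90 k240 14 (.d k95 k80 k175 2 11)))))] (.c k111 (.q k159 [(.s k5
  k10 2 (.s k6 k7 0 (.s k13 k14 0 (.d k9 k1 k3 1 2)))), (.s k13 k14 0 (.s k173 k253 11 (.s k94 k252
  12 (.d k95 k92 k175 0 11)))), (.s k5 k10 2 (.s k85 k170 14 (.s k165 k245 11 (.s k90 k240 14 (.d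
  k95 k80 k175 2 11)))))] .n) (.c k159 (.q k111 [(.s k5 k10 2 (.s k6 k7 0 (.s k13 k14 0 (.d k9 k1 k3
  1 2)))), (.s k13 k14 0 (.s k173 k253 11 (.s k94 k252 12 (.d k95 k92 k175 0 11)))), (.s k5 k10 2
  (.s k85 k170 14 (.s k165 k245 11 (.s k90 k240 14 (.d k95 k80 k175 2 11)))))] .n) .n))) .n))))) (.c
  k231 (.q k219 [(.s k5 k10 2 (.s k6 k7 0 (.s k13 k14 0 (.d k9 k1 k3 1 2)))), (.s k13 k14 0 (.s k173
  k253 11 (.s k94 k252 12 (.d k95 k92 k175 0 11)))), (.s k5 k10 2 (.s k85 k170 14 (.s k165 k245 11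
  (.s k90 k240 14 (.d k95 k80 k175 2 11)))))] (.c k111 (.q k159 [(.s k5 k10 2 (.s k6 k7 0 (.s k13
  k14 0 (.d k9 k1 k3 1 2)))), (.s k13 k14 0 (.s k173 k253 11 (.s k94 k252 12 (.d k95 k92 k175 0
  11)))), (.s k5 k10 2 (.s k85 k170 14 (.s k165 k245 11 (.s k90 k240 14 (.d k95 k80 k175 2 11)))))]
  (.c k123 (.q k183 [(.s k5 k10 2 (.s k6 k7 0 (.s k13 k14 0 (.d k9 k1 k3 1 2)))), (.s k13 k14 0 (.s
  k173 k253 11 (.s k94 k252 12 (.d k95 k92 k175 0 11)))), (.s k5 k10 2 (.s k85 k170 14 (.s k165 k245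
  11 (.s k90 k240 14 (.d k95 k80 k175 2 11)))))] .n) (.c k183 (.q k123 [(.s k5 k10 2 (.s k6 k7 0 (.s
  k13 k14 0 (.d k9 k1 k3 1 2)))), (.s k13 k14 0 (.s k173 k253 11 (.s k94 k252 12 (.d k95 k92 k175 0
  11)))), (.s k5 k10 2 (.s k85 k170 14 (.s k165 k245 11 (.s k90 k240 14 (.d k95 k80 k175 2 11)))))]
  .n) .n))) (.c k123 (.q k183 [(.s k5 k10 2 (.s k6 k7 0 (.s k13 k14 0 (.d k9 k1 k3 1 2)))), (.s k13
  k14 0 (.s k173 k253 11 (.s k94 k252 12 (.d k95 k92 k175 0 11)))), (.s k5 k10 2 (.s k85 k170 14 (.s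
  k165 k245 11 (.s k90 k240 14 (.d k95 k80 k175 2 11)))))] (.c k111 (.q k159 [(.s k5 k10 2 (.s k6 k7
  0 (.s k13 k14 0 (.d k9 k1 k3 1 2)))), (.s k13 k14 0 (.s k173 k253 11 (.s k94 k252 12 (.d k95 k92
  k175 0 11)))), (.s k5 k10 2 (.s k85 k170 14 (.s k165 k245 11 (.s k90 k240 14 (.d k95 k80 k175 2
  11)))))] .n) (.c k159 (.q k111 [(.s k5 k10 2 (.s k6 k7 0 (.s k13 k14 0 (.d k9 k1 k3 1 2)))), (.s
  k13 k14 0 (.s k173 k253 11 (.s k94 k252 12 (.d k95 k92 k175 0 11)))), (.s k5 k10 2 (.s k85 k170 14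
  (.s k165 k245 11 (.s k90 k240 14 (.d k95 k80 k175 2 11)))))] .n) .n))) (.c k159 (.q k111 [(.s k5
  k10 2 (.s k6 k7 0 (.s k13 k14 0 (.d k9 k1 k3 1 2)))), (.s k13 k14 0 (.s k173 k253 11 (.s k94 k252
  12 (.d k95 k92 k175 0 11)))), (.s k5 k10 2 (.s k85 k170 14 (.s k165 k245 11 (.s k90 k240 14 (.d
  k95 k80 k175 2 11)))))] (.c k123 (.q k183 [(.s k5 k10 2 (.s k6 k7 0 (.s k13 k14 0 (.d k9 k1 k3 1
  2)))), (.s k13 k14 0 (.s k173 k253 11 (.s k94 k252 12 (.d k95 k92 k175 0 11)))), (.s k5 k10 2 (.s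
  k85 k170 14 (.s k165 k245 11 (.s k90 k240 14 (.d k95 k80 k175 2 11)))))] .n) (.c k183 (.q k123
  [(.s k5 k10 2 (.s k6 k7 0 (.s k13 k14 0 (.d k9 k1 k3 1 2)))), (.s k13 k14 0 (.s k173 k253 11 (.s
  k94 k252 12 (.d k95 k92 k175 0 11)))), (.s k5 k10 2 (.s k85 k170 14 (.s k165 k245 11 (.s k90 k240
  14 (.d k95 k80 k175 2 11)))))] .n) .n))) (.c k183 (.q k123 [(.s k5 k10 2 (.s k6 k7 0 (.s k13 k14 0
  (.d k9 k1 k3 1 2)))), (.s k13 k14 0 (.s k173 k253 11 (.s k94 k252 12 (.d k95 k92 k175 0 11)))),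
  (.s k5 k10 2 (.s k85 k170 14 (.s k165 k245 11 (.s k90 k240 14 (.d k95 k80 k175 2 11)))))] (.c k111
  (.q k159 [(.s k5 k10 2 (.s k6 k7 0 (.s k13 k14 0 (.d k9 k1 k3 1 2)))), (.s k13 k14 0 (.s k173 k253
  11 (.s k94 k252 12 (.d k95 k92 k175 0 11)))), (.s k5 k10 2 (.s k85 k170 14 (.s k165 k245 11 (.s
  k90 k240 14 (.d k95 k80 k175 2 11)))))] .n) (.c k159 (.q k111 [(.s k5 k10 2 (.s k6 k7 0 (.s k13
  k14 0 (.d k9 k1 k3 1 2)))), (.s k13 k14 0 (.s k173 k253 11 (.s k94 k252 12 (.d k95 k92 k175 0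
  11)))), (.s k5 k10 2 (.s k85 k170 14 (.s k165 k245 11 (.s k90 k240 14 (.d k95 k80 k175 2 11)))))]
  .n) .n))) .n))))) .n))))))))) (.c k247 (.l (.s k8 k4 1 (.s k174 k93 12 (.s k170 k85 14 (.s k166
  k162 1 (.d k89 k251 k243 12 14)))))) (.c k251 (.l (.s k4 k8 1 (.s k93 k174 12 (.s k85 k170 14 (.s
  k89 k81 1 (.d k166 k247 k243 12 14)))))) .n)))))))))))))))

def t213 : T TT 256 :=
  (.q k3 [(.s k1 k2 0 (.s k85 k170 14 (.s k87 k171 13 (.s k86 k84 0 (.d k169 k253 k252 13 14)))))]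
  (.c k1 (.q k207 [(.s k69 k138 10 (.s k85 k170 14 (.s k101 k117 3 (.s k223 k239 3 (.d k154 k16 k48
  10 14))))), (.s k71 k139 9 (.s k87 k171 13 (.s k103 k119 3 (.s k155 k51 13 (.d k223 k239 k19 3
  9))))), (.s k69 k138 10 (.s k85 k170 14 (.s k71 k139 9 (.s k87 k171 13 (.s k68 k70 0 (.d k119 k103
  k102 3 4))))))] .n) (.c k2 (.q k207 [(.s k71 k139 9 (.s k87 k171 13 (.s k103 k119 3 (.s k155 k51
  13 (.d k223 k239 k19 3 9))))), (.s k69 k138 10 (.s k85 k170 14 (.s k101 k117 3 (.s k154 k48 14 (.d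
  k223 k239 k16 3 10))))), (.s k69 k138 10 (.s k85 k170 14 (.s k71 k139 9 (.s k87 k171 13 (.s k101
  k117 3 (.d k86 k84 k116 0 4))))))] .n) (.c k84 (.l (.s k2 k1 0 (.s k170 k85 14 (.s k86 k254 13 (.s
  k169 k252 14 (.d k171 k87 k168 13 0)))))) (.c k85 (.q k95 [(.s k87 k171 13 (.s k15 k175 11 (.s k7
  k11 1 (.s k91 k83 1 (.d k167 k247 k243 11 13))))), (.s k1 k2 0 (.s k15 k175 11 (.s k5 k10 2 (.s k9
  k13 1 (.s k6 k12 2 (.d k7 k4 k11 0 1)))))), (.s k1 k2 0 (.s k87 k171 13 (.s k83 k91 1 (.s k243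
  k163 11 (.s k81 k162 12 (.s k161 k241 11 (.d k82 k80 k240 0 12)))))))] (.c k11 (.f k171 k87 13 (.l
  (.s k2 k1 0 (.s k175 k15 11 (.s k163 k167 1 (.s k243 k83 11 (.s k162 k81 12 (.s k82 k242 11 (.d
  k161 k160 k240 0 12))))))))) (.c k21 (.q k149 [(.s k87 k171 13 (.s k15 k175 11 (.s k7 k11 1 (.s
  k91 k83 1 (.d k167 k247 k243 11 13))))), (.s k1 k2 0 (.s k15 k175 11 (.s k5 k10 2 (.s k9 k13 1 (.s
  k6 k12 2 (.d k7 k4 k11 0 1)))))), (.s k1 k2 0 (.s k87 k171 13 (.s k83 k91 1 (.s k243 k163 11 (.s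
  k81 k162 12 (.s k161 k241 11 (.d k82 k80 k240 0 12)))))))] (.c k11 (.f k171 k87 13 (.l (.s k2 k1 0
  (.s k175 k15 11 (.s k163 k167 1 (.s k243 k83 11 (.s k162 k81 12 (.s k82 k242 11 (.d k161 k160 k240
  0 12))))))))) (.c k175 (.q k192 [(.s k129 k66 8 (.s k171 k87 13 (.s k169 k189 5 (.s k168 k170 0
  (.d k252 k84 k86 13 14))))), (.s k1 k2 0 (.s k128 k64 7 (.s k129 k66 8 (.s k65 k193 7 (.d k130
  k131 k195 0 8))))), (.s k2 k1 0 (.s k128 k64 7 (.s k171 k87 13 (.s k170 k191 6 (.s k86 k254 13 (.d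
  k169 k168 k252 0 14))))))] .n) .n))) (.c k149 (.q k21 [(.s k87 k171 13 (.s k15 k175 11 (.s k7 k11
  1 (.s k91 k83 1 (.d k167 k247 k243 11 13))))), (.s k1 k2 0 (.s k41 k61 5 (.s k60 k22 6 (.s k15
  k175 11 (.s k5 k10 2 (.s k37 k53 3 (.d k45 k33 k30 1 4)))))))] (.c k15 (.l (.s k1 k2 0 (.s k87
  k171 13 (.s k83 k91 1 (.s k243 k163 11 (.s k81 k162 12 (.s k161 k241 11 (.d k82 k80 k240 0
  12)))))))) (.c k106 (.q k192 [(.s k87 k171 13 (.s k15 k175 11 (.s k7 k11 1 (.s k167 k247 11 (.d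
  k91 k83 k243 1 13))))), (.s k1 k2 0 (.s k129 k66 8 (.s k65 k193 7 (.s k130 k195 8 (.d k128 k64
  k131 7 0)))))] (.c k64 (.q k127 [(.s k87 k171 13 (.s k15 k175 11 (.s k7 k11 1 (.s k91 k83 1 (.d
  k167 k247 k243 11 13))))), (.s k1 k2 0 (.s k129 k66 8 (.s k65 k193 7 (.s k87 k171 13 (.s k67 k107
  5 (.d k195 k130 k131 8 7)))))), (.s k1 k2 0 (.s k15 k175 11 (.s k5 k10 2 (.s k9 k13 1 (.s k6 k12 2
  (.d k7 k4 k11 0 1))))))] .n) (.c k127 (.l (.s k64 k128 7 (.s k2 k1 0 (.s k66 k129 8 (.s k130 k194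
  7 (.d k65 k67 k195 0 8)))))) .n))) (.c k175 (.q k207 [(.s k1 k2 0 (.s k69 k138 10 (.s k137 k205 9
  (.s k71 k139 9 (.d k70 k68 k204 0 10))))), (.s k87 k171 13 (.s k91 k83 1 (.s k223 k239 3 (.s k155
  k19 9 (.s k219 k27 7 (.s k31 k159 7 (.d k211 k215 k151 1 9)))))))] (.c k106 (.q k192 [(.s k1 k2 0
  (.s k69 k138 10 (.s k137 k205 9 (.s k71 k139 9 (.d k70 k68 k204 0 10))))), (.s k64 k128 7 (.s k69
  k138 10 (.s k74 k79 2 (.s k133 k15 10 (.d k197 k202 k5 2 7))))), (.s k1 k2 0 (.s k129 k66 8 (.s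
  k65 k193 7 (.s k130 k195 8 (.d k128 k64 k131 7 0)))))] (.c k64 (.q k127 [(.s k1 k2 0 (.s k69 k138
  10 (.s k137 k205 9 (.s k70 k204 10 (.d k71 k68 k139 0 9))))), (.s k71 k139 9 (.s k87 k171 13 (.s
  k67 k107 5 (.d k79 k75 k111 1 3)))), (.s k69 k138 10 (.s k79 k111 3 (.s k15 k143 7 (.s k5 k10 2
  (.d k133 k74 k197 10 7)))))] .n) (.c k127 (.l (.s k64 k128 7 (.s k2 k1 0 (.s k66 k129 8 (.s k130
  k194 7 (.d k65 k67 k195 0 8)))))) .n))) (.c k192 (.q k106 [(.s k1 k2 0 (.s k69 k138 10 (.s k137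
  k205 9 (.s k71 k139 9 (.d k70 k68 k204 0 10))))), (.s k87 k171 13 (.s k91 k83 1 (.s k223 k239 3
  (.s k155 k19 9 (.s k219 k27 7 (.s k31 k159 7 (.d k211 k215 k151 1 9)))))))] .n) .n))) (.c k192 (.q
  k106 [(.s k87 k171 13 (.s k15 k175 11 (.s k7 k11 1 (.s k91 k83 1 (.d k167 k247 k243 11 13))))),
  (.s k1 k2 0 (.s k41 k61 5 (.s k60 k22 6 (.s k15 k175 11 (.s k5 k10 2 (.s k37 k53 3 (.d k45 k33 k30
  1 4)))))))] (.c k15 (.l (.s k1 k2 0 (.s k87 k171 13 (.s k83 k91 1 (.s k243 k163 11 (.s k81 k162 12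
  (.s k161 k241 11 (.d k82 k80 k240 0 12)))))))) (.c k175 (.q k207 [(.s k1 k2 0 (.s k69 k138 10 (.s
  k137 k205 9 (.s k71 k139 9 (.d k70 k68 k204 0 10))))), (.s k87 k171 13 (.s k91 k83 1 (.s k223 k239
  3 (.s k155 k19 9 (.s k219 k27 7 (.s k31 k159 7 (.d k211 k215 k151 1 9)))))))] .n) .n))) .n)))))
  (.c k175 (.q k207 [(.s k1 k2 0 (.s k69 k138 10 (.s k137 k205 9 (.s k71 k139 9 (.d k70 k68 k204 0
  10))))), (.s k87 k171 13 (.s k91 k83 1 (.s k223 k239 3 (.s k155 k19 9 (.s k219 k27 7 (.s k31 k159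
  7 (.d k211 k215 k151 1 9)))))))] (.c k21 (.q k149 [(.s k1 k2 0 (.s k69 k138 10 (.s k137 k205 9 (.s
  k71 k139 9 (.d k70 k68 k204 0 10))))), (.s k138 k69 10 (.s k223 k239 3 (.s k159 k31 7 (.s k154
  k144 2 (.s k186 k170 3 (.d k48 k117 k101 10 14)))))), (.s k71 k139 9 (.s k87 k171 13 (.s k103 k119
  3 (.s k155 k51 13 (.d k223 k239 k19 3 9)))))] .n) (.c k149 (.q k21 [(.s k1 k2 0 (.s k69 k138 10
  (.s k137 k205 9 (.s k71 k139 9 (.d k70 k68 k204 0 10))))), (.s k87 k171 13 (.s k91 k83 1 (.s k223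
  k239 3 (.s k155 k19 9 (.s k219 k27 7 (.s k31 k159 7 (.d k211 k215 k151 1 9)))))))] (.c k106 (.q
  k192 [(.s k1 k2 0 (.s k69 k138 10 (.s k137 k205 9 (.s k71 k139 9 (.d k70 k68 k204 0 10))))), (.s
  k64 k128 7 (.s k69 k138 10 (.s k74 k79 2 (.s k133 k15 10 (.d k197 k202 k5 2 7))))), (.s k1 k2 0
  (.s k129 k66 8 (.s k65 k193 7 (.s k130 k195 8 (.d k128 k64 k131 7 0)))))] (.c k64 (.q k127 [(.s k1
  k2 0 (.s k69 k138 10 (.s k137 k205 9 (.s k70 k204 10 (.d k71 k68 k139 0 9))))), (.s k71 k139 9 (.s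
  k87 k171 13 (.s k67 k107 5 (.d k79 k75 k111 1 3)))), (.s k69 k138 10 (.s k79 k111 3 (.s k15 k143 7
  (.s k5 k10 2 (.d k133 k74 k197 10 7)))))] .n) (.c k127 (.l (.s k64 k128 7 (.s k2 k1 0 (.s k66 k129
  8 (.s k130 k194 7 (.d k65 k67 k195 0 8)))))) .n))) (.c k192 (.q k106 [(.s k1 k2 0 (.s k69 k138 10
  (.s k137 k205 9 (.s k71 k139 9 (.d k70 k68 k204 0 10))))), (.s k87 k171 13 (.s k91 k83 1 (.s k223
  k239 3 (.s k155 k19 9 (.s k219 k27 7 (.s k31 k159 7 (.d k211 k215 k151 1 9)))))))] .n) .n))) .n)))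
  .n))))) (.c k86 (.q k207 [(.s k2 k1 0 (.s k138 k69 10 (.s k70 k206 9 (.s k137 k204 10 (.d k139
  k136 k71 0 9))))), (.s k138 k69 10 (.s k170 k85 14 (.s k154 k186 3 (.s k101 k48 14 (.d k239 k223
  k32 3 10))))), (.s k71 k139 9 (.s k87 k171 13 (.s k103 k119 3 (.s k155 k51 13 (.d k223 k239 k19 3
  9)))))] .n) (.c k87 (.q k207 [(.s k1 k2 0 (.s k69 k138 10 (.s k137 k205 9 (.s k71 k139 9 (.d k70
  k68 k204 0 10))))), (.s k69 k138 10 (.s k85 k170 14 (.s k101 k117 3 (.s k154 k48 14 (.d k223 k239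
  k16 3 10))))), (.s k1 k2 0 (.s k85 k170 14 (.s k169 k253 13 (.s k139 k71 9 (.s k154 k184 4 (.d
  k223 k239 k16 3 10))))))] .n) (.c k168 (.l (.s k1 k2 0 (.s k85 k170 14 (.s k169 k253 13 (.s k86
  k252 14 (.d k87 k171 k84 13 0)))))) (.c k169 (.q k207 [(.s k1 k2 0 (.s k69 k138 10 (.s k137 k205 9
  (.s k70 k204 10 (.d k71 k68 k139 0 9))))), (.s k69 k138 10 (.s k85 k170 14 (.s k101 k117 3 (.s
  k154 k48 14 (.d k223 k239 k16 3 10))))), (.s k71 k139 9 (.s k87 k171 13 (.s k103 k119 3 (.s k155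
  k51 13 (.d k223 k239 k19 3 9)))))] .n) (.c k170 (.q k207 [(.s k2 k1 0 (.s k138 k69 10 (.s k70 k206
  9 (.s k137 k204 10 (.d k139 k136 k71 0 9))))), (.s k71 k139 9 (.s k87 k171 13 (.s k103 k119 3 (.s
  k155 k51 13 (.d k223 k239 k19 3 9)))))] (.c k71 (.q k129 [(.s k2 k1 0 (.s k66 k192 8 (.s k130 k194
  7 (.s k195 k65 8 (.d k131 k128 k67 0 7))))), (.s k1 k2 0 (.s k69 k138 10 (.s k193 k65 7 (.s k137
  k205 9 (.s k133 k141 1 (.s k5 k197 7 (.d k13 k9 k73 1 9))))))), (.s k69 k138 10 (.s k192 k66 8 (.s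
  k64 k128 7 (.s k74 k79 2 (.s k133 k15 10 (.d k197 k202 k5 2 7))))))] .n) (.c k139 (.q k129 [(.s k2
  k1 0 (.s k66 k192 8 (.s k130 k194 7 (.s k195 k65 8 (.d k131 k128 k67 0 7))))), (.s k69 k138 10 (.s
  k192 k66 8 (.s k64 k128 7 (.s k74 k79 2 (.s k133 k15 10 (.d k197 k202 k5 2 7)))))), (.s k1 k2 0
  (.s k69 k138 10 (.s k193 k65 7 (.s k137 k205 9 (.s k133 k141 1 (.s k5 k197 7 (.d k13 k9 k73 1
  9)))))))] .n) .n))) (.c k171 (.q k207 [(.s k2 k1 0 (.s k139 k71 9 (.s k138 k69 10 (.s k137 k136 0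
  (.d k70 k206 k204 9 10))))), (.s k69 k138 10 (.s k85 k170 14 (.s k101 k117 3 (.s k154 k48 14 (.d
  k223 k239 k16 3 10))))), (.s k1 k2 0 (.s k85 k170 14 (.s k169 k253 13 (.s k139 k71 9 (.s k154 k184
  4 (.d k223 k239 k16 3 10))))))] .n) (.c k252 (.f k171 k87 13 (.q k207 [(.s k139 k71 9 (.s k155
  k187 3 (.s k239 k223 3 (.d k103 k35 k51 9 13)))), (.s k1 k2 0 (.s k69 k138 10 (.s k137 k205 9 (.s
  k70 k204 10 (.d k71 k68 k139 0 9))))), (.s k69 k138 10 (.s k85 k170 14 (.s k101 k117 3 (.s k154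
  k48 14 (.d k223 k239 k16 3 10)))))] (.c k126 (.q k189 [(.s k139 k71 9 (.s k155 k187 3 (.s k239
  k223 3 (.d k103 k35 k51 9 13)))), (.s k1 k2 0 (.s k69 k138 10 (.s k137 k205 9 (.s k70 k204 10 (.d
  k71 k68 k139 0 9))))), (.s k69 k138 10 (.s k85 k170 14 (.s k101 k117 3 (.s k154 k48 14 (.d k223
  k239 k16 3 10)))))] .n) (.c k189 (.q k126 [(.s k139 k71 9 (.s k155 k187 3 (.s k239 k223 3 (.d k103
  k35 k51 9 13)))), (.s k1 k2 0 (.s k69 k138 10 (.s k137 k205 9 (.s k70 k204 10 (.d k71 k68 k139 0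
  9))))), (.s k69 k138 10 (.s k85 k170 14 (.s k101 k117 3 (.s k154 k48 14 (.d k223 k239 k16 3
  10)))))] .n) .n)))) (.c k253 (.l (.s k2 k1 0 (.s k171 k87 13 (.s k170 k85 14 (.s k169 k168 0 (.d
  k86 k254 k252 13 14)))))) (.c k254 (.l (.s k1 k2 0 (.s k87 k171 13 (.s k85 k170 14 (.s k86 k84 0
  (.d k169 k253 k252 13 14)))))) .n))))))))))))))

def t214 : T TT 256 :=
  (.q k3 [(.s k1 k2 0 (.s k85 k170 14 (.s k169 k253 13 (.s k87 k171 13 (.d k86 k84 k252 0 14)))))]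
  (.c k1 (.q k207 [(.s k69 k138 10 (.s k85 k170 14 (.s k101 k117 3 (.s k223 k239 3 (.d k154 k16 k48
  10 14))))), (.s k71 k139 9 (.s k87 k171 13 (.s k103 k119 3 (.s k155 k51 13 (.d k223 k239 k19 3
  9))))), (.s k69 k138 10 (.s k85 k170 14 (.s k71 k139 9 (.s k87 k171 13 (.s k68 k70 0 (.d k119 k103
  k102 3 4))))))] .n) (.c k2 (.q k207 [(.s k138 k69 10 (.s k239 k223 3 (.s k170 k85 14 (.s k101 k32
  10 (.d k154 k186 k48 3 14))))), (.s k71 k139 9 (.s k87 k171 13 (.s k103 k119 3 (.s k155 k51 13 (.d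
  k223 k239 k19 3 9))))), (.s k69 k138 10 (.s k85 k170 14 (.s k71 k139 9 (.s k87 k171 13 (.s k101
  k117 3 (.d k86 k84 k116 0 4))))))] .n) (.c k84 (.l (.s k2 k1 0 (.s k170 k85 14 (.s k86 k254 13 (.s
  k169 k252 14 (.d k171 k87 k168 13 0)))))) (.c k85 (.q k207 [(.s k1 k2 0 (.s k69 k138 10 (.s k137
  k205 9 (.s k71 k139 9 (.d k70 k68 k204 0 10))))), (.s k71 k139 9 (.s k87 k171 13 (.s k103 k119 3
  (.s k155 k51 13 (.d k223 k239 k19 3 9)))))] (.c k68 (.l (.s k2 k1 0 (.s k138 k69 10 (.s k70 k206 9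
  (.s k137 k204 10 (.d k139 k71 k136 9 0)))))) (.c k71 (.q k195 [(.s k1 k2 0 (.s k65 k130 8 (.s k129
  k193 7 (.s k67 k131 7 (.d k66 k64 k192 0 8))))), (.s k199 k203 1 (.s k215 k235 5 (.s k231 k247 3
  (.s k219 k243 5 (.d k223 k211 k239 1 3)))))] .n) (.c k139 (.q k195 [(.s k1 k2 0 (.s k65 k130 8 (.s
  k129 k193 7 (.s k66 k192 8 (.d k67 k64 k131 0 7))))), (.s k199 k203 1 (.s k215 k235 5 (.s k231
  k247 3 (.s k219 k243 5 (.d k223 k211 k239 1 3)))))] .n) .n)))) (.c k86 (.q k207 [(.s k2 k1 0 (.s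
  k138 k69 10 (.s k70 k206 9 (.s k137 k204 10 (.d k139 k136 k71 0 9))))), (.s k138 k69 10 (.s k170
  k85 14 (.s k154 k186 3 (.s k101 k48 14 (.d k239 k223 k32 3 10))))), (.s k71 k139 9 (.s k87 k171 13
  (.s k103 k119 3 (.s k155 k51 13 (.d k223 k239 k19 3 9)))))] (.c k22 (.q k150 [(.s k2 k1 0 (.s k138
  k69 10 (.s k70 k206 9 (.s k137 k204 10 (.d k139 k136 k71 0 9))))), (.s k85 k170 14 (.s k20 k215 8
  (.s k60 k40 5 (.s k105 k195 14 (.d k125 k65 k190 5 8)))))] (.c k2 (.l (.s k138 k69 10 (.s k170 k85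
  14 (.s k154 k186 3 (.s k101 k48 14 (.d k239 k223 k32 3 10)))))) .n)) (.c k150 (.q k22 [(.s k2 k1 0
  (.s k138 k69 10 (.s k70 k206 9 (.s k137 k204 10 (.d k139 k136 k71 0 9))))), (.s k138 k69 10 (.s
  k170 k85 14 (.s k154 k186 3 (.s k101 k48 14 (.d k239 k223 k32 3 10))))), (.s k71 k139 9 (.s k87
  k171 13 (.s k103 k119 3 (.s k155 k51 13 (.d k223 k239 k19 3 9)))))] .n) .n))) (.c k87 (.q k207
  [(.s k1 k2 0 (.s k69 k138 10 (.s k137 k205 9 (.s k71 k139 9 (.d k70 k68 k204 0 10))))), (.s k69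
  k138 10 (.s k85 k170 14 (.s k101 k117 3 (.s k154 k48 14 (.d k223 k239 k16 3 10))))), (.s k1 k2 0
  (.s k85 k170 14 (.s k169 k253 13 (.s k139 k71 9 (.s k154 k184 4 (.d k223 k239 k16 3 10))))))] .n)
  (.c k169 (.q k207 [(.s k1 k2 0 (.s k69 k138 10 (.s k137 k205 9 (.s k70 k204 10 (.d k71 k68 k139 0
  9))))), (.s k69 k138 10 (.s k85 k170 14 (.s k101 k117 3 (.s k154 k48 14 (.d k223 k239 k16 3
  10))))), (.s k71 k139 9 (.s k87 k171 13 (.s k103 k119 3 (.s k155 k51 13 (.d k223 k239 k19 3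
  9)))))] .n) (.c k170 (.q k207 [(.s k2 k1 0 (.s k138 k69 10 (.s k70 k206 9 (.s k137 k204 10 (.d
  k139 k136 k71 0 9))))), (.s k71 k139 9 (.s k87 k171 13 (.s k103 k119 3 (.s k155 k51 13 (.d k223
  k239 k19 3 9)))))] (.c k71 (.q k195 [(.s k2 k1 0 (.s k130 k65 8 (.s k66 k194 7 (.s k129 k192 8 (.d
  k131 k128 k67 0 7))))), (.s k199 k203 1 (.s k215 k235 5 (.s k231 k247 3 (.s k219 k243 5 (.d k223
  k211 k239 1 3)))))] .n) (.c k139 (.q k195 [(.s k2 k1 0 (.s k131 k67 7 (.s k130 k65 8 (.s k129 k128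
  0 (.d k66 k194 k192 7 8))))), (.s k199 k203 1 (.s k215 k235 5 (.s k231 k247 3 (.s k219 k243 5 (.d
  k223 k211 k239 1 3)))))] .n) .n))) (.c k171 (.q k207 [(.s k2 k1 0 (.s k139 k71 9 (.s k138 k69 10
  (.s k137 k136 0 (.d k70 k206 k204 9 10))))), (.s k69 k138 10 (.s k85 k170 14 (.s k101 k117 3 (.s
  k154 k48 14 (.d k223 k239 k16 3 10))))), (.s k1 k2 0 (.s k85 k170 14 (.s k169 k253 13 (.s k139 k71
  9 (.s k154 k184 4 (.d k223 k239 k16 3 10))))))] .n) (.c k252 (.q k195 [(.s k1 k2 0 (.s k65 k130 8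
  (.s k129 k193 7 (.s k67 k131 7 (.d k66 k64 k192 0 8))))), (.s k65 k130 8 (.s k85 k170 14 (.s k105
  k125 5 (.s k150 k60 14 (.d k215 k235 k20 5 8))))), (.s k1 k2 0 (.s k85 k170 14 (.s k169 k253 13
  (.s k131 k67 7 (.s k150 k188 6 (.d k215 k235 k20 5 8))))))] (.c k126 (.q k189 [(.s k1 k2 0 (.s k65
  k130 8 (.s k129 k193 7 (.s k66 k192 8 (.d k67 k64 k131 0 7))))), (.s k65 k130 8 (.s k85 k170 14
  (.s k105 k125 5 (.s k150 k60 14 (.d k215 k235 k20 5 8))))), (.s k1 k2 0 (.s k85 k170 14 (.s k169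
  k253 13 (.s k131 k67 7 (.s k150 k188 6 (.d k215 k235 k20 5 8))))))] .n) (.c k189 (.q k126 [(.s k1
  k2 0 (.s k65 k130 8 (.s k129 k193 7 (.s k67 k131 7 (.d k66 k64 k192 0 8))))), (.s k65 k130 8 (.s
  k85 k170 14 (.s k105 k125 5 (.s k150 k60 14 (.d k215 k235 k20 5 8))))), (.s k1 k2 0 (.s k85 k170
  14 (.s k169 k253 13 (.s k131 k67 7 (.s k150 k188 6 (.d k215 k235 k20 5 8))))))] .n) .n))) (.c k253
  (.l (.s k2 k1 0 (.s k171 k87 13 (.s k170 k85 14 (.s k169 k168 0 (.d k86 k254 k252 13 14)))))) (.c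
  k254 (.l (.s k1 k2 0 (.s k87 k171 13 (.s k85 k170 14 (.s k86 k84 0 (.d k169 k253 k252 13 14))))))
  .n)))))))))))))

def t215 : T TT 256 :=
  (.q k3 [(.s k1 k2 0 (.s k85 k170 14 (.s k169 k253 13 (.s k87 k171 13 (.d k86 k84 k252 0 14)))))]
  (.c k1 (.q k207 [(.s k69 k138 10 (.s k85 k170 14 (.s k101 k117 3 (.s k223 k239 3 (.d k154 k16 k48
  10 14))))), (.s k71 k139 9 (.s k87 k171 13 (.s k103 k119 3 (.s k155 k51 13 (.d k223 k239 k19 3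
  9))))), (.s k69 k138 10 (.s k85 k170 14 (.s k71 k139 9 (.s k87 k171 13 (.s k68 k70 0 (.d k119 k103
  k102 3 4))))))] .n) (.c k2 (.q k207 [(.s k71 k139 9 (.s k87 k171 13 (.s k103 k119 3 (.s k155 k51
  13 (.d k223 k239 k19 3 9))))), (.s k69 k138 10 (.s k85 k170 14 (.s k101 k117 3 (.s k154 k48 14 (.d
  k223 k239 k16 3 10))))), (.s k69 k138 10 (.s k85 k170 14 (.s k71 k139 9 (.s k87 k171 13 (.s k101
  k117 3 (.d k86 k84 k116 0 4))))))] .n) (.c k84 (.l (.s k2 k1 0 (.s k170 k85 14 (.s k86 k254 13 (.s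
  k169 k252 14 (.d k171 k87 k168 13 0)))))) (.c k85 (.q k207 [(.s k1 k2 0 (.s k69 k138 10 (.s k137
  k205 9 (.s k71 k139 9 (.d k70 k68 k204 0 10))))), (.s k71 k139 9 (.s k87 k171 13 (.s k103 k119 3
  (.s k155 k51 13 (.d k223 k239 k19 3 9)))))] (.c k20 (.q k150 [(.s k1 k2 0 (.s k69 k138 10 (.s k137
  k205 9 (.s k71 k139 9 (.d k70 k68 k204 0 10))))), (.s k71 k139 9 (.s k87 k171 13 (.s k103 k119 3
  (.s k155 k51 13 (.d k223 k239 k19 3 9)))))] (.c k68 (.l (.s k2 k1 0 (.s k138 k69 10 (.s k70 k206 9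
  (.s k137 k204 10 (.d k139 k71 k136 9 0)))))) (.c k71 (.q k195 [(.s k130 k65 8 (.s k190 k170 5 (.d
  k60 k125 k105 8 14))), (.s k1 k2 0 (.s k65 k130 8 (.s k129 k193 7 (.s k66 k192 8 (.d k67 k64 k131
  0 7))))), (.s k67 k131 7 (.s k105 k60 14 (.s k86 k124 6 (.s k252 k169 14 (.d k214 k233 k22 6
  7)))))] .n) (.c k139 (.q k195 [(.s k130 k65 8 (.s k190 k170 5 (.d k60 k125 k105 8 14))), (.s k1 k2
  0 (.s k65 k130 8 (.s k129 k193 7 (.s k66 k192 8 (.d k67 k64 k131 0 7))))), (.s k67 k131 7 (.s k105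
  k60 14 (.s k86 k124 6 (.s k252 k169 14 (.d k214 k233 k22 6 7)))))] .n) .n)))) (.c k68 (.l (.s k2
  k1 0 (.s k138 k69 10 (.s k70 k206 9 (.s k137 k204 10 (.d k139 k71 k136 9 0)))))) (.c k71 (.q k195
  [(.s k1 k2 0 (.s k65 k130 8 (.s k129 k193 7 (.s k67 k131 7 (.d k66 k64 k192 0 8))))), (.s k65 k130
  8 (.s k69 k138 10 (.s k73 k77 1 (.s k134 k12 10 (.d k199 k203 k4 1 8))))), (.s k1 k2 0 (.s k69
  k138 10 (.s k137 k205 9 (.s k131 k67 7 (.s k134 k140 2 (.d k199 k203 k4 1 8))))))] (.c k20 (.q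
  k150 [(.s k130 k65 8 (.s k190 k170 5 (.d k60 k125 k105 8 14))), (.s k1 k2 0 (.s k65 k130 8 (.s
  k129 k193 7 (.s k66 k192 8 (.d k67 k64 k131 0 7))))), (.s k67 k131 7 (.s k105 k60 14 (.s k86 k124
  6 (.s k252 k169 14 (.d k214 k233 k22 6 7)))))] .n) (.c k150 (.q k20 [(.s k1 k2 0 (.s k65 k130 8
  (.s k129 k193 7 (.s k66 k192 8 (.d k67 k64 k131 0 7))))), (.s k65 k130 8 (.s k69 k138 10 (.s k73
  k77 1 (.s k134 k12 10 (.d k199 k203 k4 1 8))))), (.s k1 k2 0 (.s k69 k138 10 (.s k137 k205 9 (.s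
  k131 k67 7 (.s k134 k140 2 (.d k199 k203 k4 1 8))))))] .n) .n))) (.c k139 (.q k195 [(.s k1 k2 0
  (.s k65 k130 8 (.s k129 k193 7 (.s k66 k192 8 (.d k67 k64 k131 0 7))))), (.s k65 k130 8 (.s k69
  k138 10 (.s k73 k77 1 (.s k134 k12 10 (.d k199 k203 k4 1 8))))), (.s k1 k2 0 (.s k69 k138 10 (.s
  k137 k205 9 (.s k131 k67 7 (.s k134 k140 2 (.d k199 k203 k4 1 8))))))] (.c k20 (.q k150 [(.s k130
  k65 8 (.s k190 k170 5 (.d k60 k125 k105 8 14))), (.s k1 k2 0 (.s k65 k130 8 (.s k129 k193 7 (.s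
  k66 k192 8 (.d k67 k64 k131 0 7))))), (.s k67 k131 7 (.s k105 k60 14 (.s k86 k124 6 (.s k252 k169
  14 (.d k214 k233 k22 6 7)))))] .n) (.c k150 (.q k20 [(.s k1 k2 0 (.s k65 k130 8 (.s k129 k193 7
  (.s k66 k192 8 (.d k67 k64 k131 0 7))))), (.s k65 k130 8 (.s k69 k138 10 (.s k73 k77 1 (.s k134
  k12 10 (.d k199 k203 k4 1 8))))), (.s k1 k2 0 (.s k69 k138 10 (.s k137 k205 9 (.s k131 k67 7 (.s
  k134 k140 2 (.d k199 k203 k4 1 8))))))] .n) .n))) (.c k150 (.q k20 [(.s k1 k2 0 (.s k69 k138 10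
  (.s k137 k205 9 (.s k71 k139 9 (.d k70 k68 k204 0 10))))), (.s k60 k40 5 (.s k109 k158 12 (.s k125
  k190 8 (.s k93 k77 3 (.s k174 k12 12 (.d k239 k223 k44 3 8))))))] .n) .n)))))) (.c k86 (.q k207
  [(.s k2 k1 0 (.s k138 k69 10 (.s k70 k206 9 (.s k137 k204 10 (.d k139 k136 k71 0 9))))), (.s k138
  k69 10 (.s k170 k85 14 (.s k154 k186 3 (.s k101 k48 14 (.d k239 k223 k32 3 10))))), (.s k71 k139 9
  (.s k87 k171 13 (.s k103 k119 3 (.s k155 k51 13 (.d k223 k239 k19 3 9)))))] .n) (.c k87 (.q k207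
  [(.s k1 k2 0 (.s k69 k138 10 (.s k137 k205 9 (.s k71 k139 9 (.d k70 k68 k204 0 10))))), (.s k69
  k138 10 (.s k85 k170 14 (.s k101 k117 3 (.s k154 k48 14 (.d k223 k239 k16 3 10))))), (.s k1 k2 0
  (.s k85 k170 14 (.s k169 k253 13 (.s k139 k71 9 (.s k154 k184 4 (.d k223 k239 k16 3 10))))))] (.c
  k23 (.q k151 [(.s k1 k2 0 (.s k69 k138 10 (.s k137 k205 9 (.s k71 k139 9 (.d k70 k68 k204 0
  10))))), (.s k69 k138 10 (.s k85 k170 14 (.s k101 k117 3 (.s k154 k48 14 (.d k223 k239 k16 3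
  10))))), (.s k1 k2 0 (.s k85 k170 14 (.s k169 k253 13 (.s k139 k71 9 (.s k154 k184 4 (.d k223 k239
  k16 3 10))))))] .n) (.c k151 (.q k23 [(.s k1 k2 0 (.s k69 k138 10 (.s k137 k205 9 (.s k71 k139 9
  (.d k70 k68 k204 0 10))))), (.s k69 k138 10 (.s k85 k170 14 (.s k101 k117 3 (.s k154 k48 14 (.d
  k223 k239 k16 3 10))))), (.s k1 k2 0 (.s k85 k170 14 (.s k169 k253 13 (.s k139 k71 9 (.s k154 k184
  4 (.d k223 k239 k16 3 10))))))] (.c k107 (.q k195 [(.s k1 k2 0 (.s k65 k130 8 (.s k129 k193 7 (.s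
  k66 k192 8 (.d k67 k64 k131 0 7))))), (.s k65 k130 8 (.s k69 k138 10 (.s k73 k77 1 (.s k134 k12 10
  (.d k199 k203 k4 1 8))))), (.s k1 k2 0 (.s k69 k138 10 (.s k137 k205 9 (.s k70 k204 10 (.d k71 k68
  k139 0 9)))))] (.c k67 (.q k127 [(.s k1 k2 0 (.s k69 k138 10 (.s k137 k205 9 (.s k71 k139 9 (.d
  k70 k68 k204 0 10))))), (.s k65 k130 8 (.s k69 k138 10 (.s k73 k77 1 (.s k134 k12 10 (.d k199 k203
  k4 1 8))))), (.s k1 k2 0 (.s k65 k130 8 (.s k85 k170 14 (.s k129 k193 7 (.s k64 k106 6 (.d k192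
  k66 k128 8 7))))))] .n) (.c k127 (.l (.s k67 k131 7 (.s k1 k2 0 (.s k65 k130 8 (.s k129 k193 7 (.d
  k66 k64 k192 0 8)))))) .n))) (.c k195 (.q k107 [(.s k1 k2 0 (.s k69 k138 10 (.s k137 k205 9 (.s
  k71 k139 9 (.d k70 k68 k204 0 10))))), (.s k69 k138 10 (.s k85 k170 14 (.s k101 k117 3 (.s k154
  k48 14 (.d k223 k239 k16 3 10))))), (.s k1 k2 0 (.s k85 k170 14 (.s k169 k253 13 (.s k139 k71 9
  (.s k154 k184 4 (.d k223 k239 k16 3 10))))))] .n) .n))) .n))) (.c k169 (.q k207 [(.s k1 k2 0 (.s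
  k69 k138 10 (.s k137 k205 9 (.s k70 k204 10 (.d k71 k68 k139 0 9))))), (.s k69 k138 10 (.s k85
  k170 14 (.s k101 k117 3 (.s k154 k48 14 (.d k223 k239 k16 3 10))))), (.s k71 k139 9 (.s k87 k171
  13 (.s k103 k119 3 (.s k155 k51 13 (.d k223 k239 k19 3 9)))))] .n) (.c k170 (.q k207 [(.s k2 k1 0
  (.s k138 k69 10 (.s k70 k206 9 (.s k137 k204 10 (.d k139 k136 k71 0 9))))), (.s k71 k139 9 (.s k87
  k171 13 (.s k103 k119 3 (.s k155 k51 13 (.d k223 k239 k19 3 9)))))] (.c k71 (.q k195 [(.s k2 k1 0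
  (.s k130 k65 8 (.s k66 k194 7 (.s k129 k192 8 (.d k131 k128 k67 0 7))))), (.s k65 k130 8 (.s k69
  k138 10 (.s k73 k77 1 (.s k134 k12 10 (.d k199 k203 k4 1 8))))), (.s k1 k2 0 (.s k69 k138 10 (.s
  k137 k205 9 (.s k131 k67 7 (.s k134 k140 2 (.d k199 k203 k4 1 8))))))] .n) (.c k139 (.q k195 [(.s
  k2 k1 0 (.s k130 k65 8 (.s k66 k194 7 (.s k129 k192 8 (.d k131 k128 k67 0 7))))), (.s k65 k130 8
  (.s k69 k138 10 (.s k73 k77 1 (.s k134 k12 10 (.d k199 k203 k4 1 8))))), (.s k1 k2 0 (.s k69 k138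
  10 (.s k137 k205 9 (.s k131 k67 7 (.s k134 k140 2 (.d k199 k203 k4 1 8))))))] .n) .n))) (.c k171
  (.q k207 [(.s k2 k1 0 (.s k139 k71 9 (.s k138 k69 10 (.s k137 k136 0 (.d k70 k206 k204 9 10))))),
  (.s k69 k138 10 (.s k85 k170 14 (.s k101 k117 3 (.s k154 k48 14 (.d k223 k239 k16 3 10))))), (.s
  k1 k2 0 (.s k85 k170 14 (.s k169 k253 13 (.s k139 k71 9 (.s k154 k184 4 (.d k223 k239 k16 3
  10))))))] .n) (.c k252 (.q k207 [(.s k1 k2 0 (.s k69 k138 10 (.s k137 k205 9 (.s k71 k139 9 (.d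
  k70 k68 k204 0 10))))), (.s k69 k138 10 (.s k85 k170 14 (.s k101 k117 3 (.s k154 k48 14 (.d k223
  k239 k16 3 10))))), (.s k71 k139 9 (.s k87 k171 13 (.s k103 k119 3 (.s k155 k51 13 (.d k223 k239
  k19 3 9)))))] (.c k126 (.q k189 [(.s k1 k2 0 (.s k69 k138 10 (.s k137 k205 9 (.s k71 k139 9 (.d
  k70 k68 k204 0 10))))), (.s k69 k138 10 (.s k85 k170 14 (.s k101 k117 3 (.s k154 k48 14 (.d k223
  k239 k16 3 10))))), (.s k71 k139 9 (.s k87 k171 13 (.s k103 k119 3 (.s k155 k51 13 (.d k223 k239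
  k19 3 9)))))] .n) (.c k189 (.q k126 [(.s k1 k2 0 (.s k69 k138 10 (.s k137 k205 9 (.s k71 k139 9
  (.d k70 k68 k204 0 10))))), (.s k69 k138 10 (.s k85 k170 14 (.s k101 k117 3 (.s k154 k48 14 (.d
  k223 k239 k16 3 10))))), (.s k71 k139 9 (.s k87 k171 13 (.s k103 k119 3 (.s k155 k51 13 (.d k223
  k239 k19 3 9)))))] .n) .n))) (.c k253 (.l (.s k2 k1 0 (.s k171 k87 13 (.s k170 k85 14 (.s k169
  k168 0 (.d k86 k254 k252 13 14)))))) (.c k254 (.l (.s k1 k2 0 (.s k87 k171 13 (.s k85 k170 14 (.s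
  k86 k84 0 (.d k169 k253 k252 13 14)))))) .n)))))))))))))

def t219 : T TT 256 :=
  (.q k3 [(.s k1 k2 0 (.s k85 k170 14 (.s k169 k253 13 (.s k87 k171 13 (.d k86 k84 k252 0 14)))))]
  (.c k1 (.q k207 [(.s k69 k138 10 (.s k85 k170 14 (.s k101 k117 3 (.s k223 k239 3 (.d k154 k16 k48
  10 14))))), (.s k71 k139 9 (.s k87 k171 13 (.s k103 k119 3 (.s k155 k51 13 (.d k223 k239 k19 3
  9))))), (.s k69 k138 10 (.s k85 k170 14 (.s k71 k139 9 (.s k87 k171 13 (.s k68 k70 0 (.d k119 k103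
  k102 3 4))))))] .n) (.c k2 (.q k207 [(.s k138 k69 10 (.s k170 k85 14 (.s k154 k186 3 (.s k101 k48
  14 (.d k239 k223 k32 3 10))))), (.s k71 k139 9 (.s k87 k171 13 (.s k103 k119 3 (.s k155 k51 13 (.d
  k223 k239 k19 3 9))))), (.s k69 k138 10 (.s k85 k170 14 (.s k71 k139 9 (.s k87 k171 13 (.s k101
  k117 3 (.d k86 k84 k116 0 4))))))] .n) (.c k84 (.l (.s k2 k1 0 (.s k170 k85 14 (.s k86 k254 13 (.s
  k169 k252 14 (.d k171 k87 k168 13 0)))))) (.c k85 (.q k207 [(.s k1 k2 0 (.s k69 k138 10 (.s k137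
  k205 9 (.s k71 k139 9 (.d k70 k68 k204 0 10))))), (.s k71 k139 9 (.s k87 k171 13 (.s k103 k119 3
  (.s k155 k51 13 (.d k223 k239 k19 3 9)))))] (.c k68 (.l (.s k2 k1 0 (.s k138 k69 10 (.s k70 k206 9
  (.s k137 k204 10 (.d k139 k71 k136 9 0)))))) (.c k71 (.q k195 [(.s k1 k2 0 (.s k65 k130 8 (.s k129
  k193 7 (.s k67 k131 7 (.d k66 k64 k192 0 8))))), (.s k65 k130 8 (.s k69 k138 10 (.s k73 k77 1 (.s
  k134 k12 10 (.d k199 k203 k4 1 8))))), (.s k1 k2 0 (.s k69 k138 10 (.s k137 k205 9 (.s k131 k67 7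
  (.s k134 k140 2 (.d k199 k203 k4 1 8))))))] .n) (.c k139 (.q k195 [(.s k1 k2 0 (.s k65 k130 8 (.s
  k129 k193 7 (.s k66 k192 8 (.d k67 k64 k131 0 7))))), (.s k65 k130 8 (.s k69 k138 10 (.s k73 k77 1
  (.s k134 k12 10 (.d k199 k203 k4 1 8))))), (.s k1 k2 0 (.s k69 k138 10 (.s k137 k205 9 (.s k131
  k67 7 (.s k134 k140 2 (.d k199 k203 k4 1 8))))))] .n) .n)))) (.c k86 (.q k207 [(.s k2 k1 0 (.s
  k138 k69 10 (.s k70 k206 9 (.s k137 k204 10 (.d k139 k136 k71 0 9))))), (.s k138 k69 10 (.s k170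
  k85 14 (.s k154 k186 3 (.s k101 k48 14 (.d k239 k223 k32 3 10))))), (.s k71 k139 9 (.s k87 k171 13
  (.s k103 k119 3 (.s k155 k51 13 (.d k223 k239 k19 3 9)))))] .n) (.c k87 (.q k207 [(.s k1 k2 0 (.s
  k69 k138 10 (.s k137 k205 9 (.s k71 k139 9 (.d k70 k68 k204 0 10))))), (.s k69 k138 10 (.s k85
  k170 14 (.s k101 k117 3 (.s k154 k48 14 (.d k223 k239 k16 3 10))))), (.s k1 k2 0 (.s k85 k170 14
  (.s k169 k253 13 (.s k139 k71 9 (.s k154 k184 4 (.d k223 k239 k16 3 10))))))] .n) (.c k169 (.q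
  k207 [(.s k1 k2 0 (.s k69 k138 10 (.s k137 k205 9 (.s k70 k204 10 (.d k71 k68 k139 0 9))))), (.s
  k69 k138 10 (.s k85 k170 14 (.s k101 k117 3 (.s k154 k48 14 (.d k223 k239 k16 3 10))))), (.s k71
  k139 9 (.s k87 k171 13 (.s k103 k119 3 (.s k155 k51 13 (.d k223 k239 k19 3 9)))))] .n) (.c k170
  (.q k207 [(.s k2 k1 0 (.s k138 k69 10 (.s k70 k206 9 (.s k137 k204 10 (.d k139 k136 k71 0 9))))),
  (.s k71 k139 9 (.s k87 k171 13 (.s k103 k119 3 (.s k155 k51 13 (.d k223 k239 k19 3 9)))))] (.c k71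
  (.q k195 [(.s k2 k1 0 (.s k130 k65 8 (.s k66 k194 7 (.s k129 k192 8 (.d k131 k128 k67 0 7))))),
  (.s k65 k130 8 (.s k69 k138 10 (.s k73 k77 1 (.s k134 k12 10 (.d k199 k203 k4 1 8))))), (.s k1 k2
  0 (.s k69 k138 10 (.s k137 k205 9 (.s k131 k67 7 (.s k134 k140 2 (.d k199 k203 k4 1 8))))))] .n)
  (.c k139 (.q k195 [(.s k2 k1 0 (.s k130 k65 8 (.s k66 k194 7 (.s k129 k192 8 (.d k131 k128 k67 0
  7))))), (.s k65 k130 8 (.s k69 k138 10 (.s k73 k77 1 (.s k134 k12 10 (.d k199 k203 k4 1 8))))),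
  (.s k1 k2 0 (.s k69 k138 10 (.s k137 k205 9 (.s k131 k67 7 (.s k134 k140 2 (.d k199 k203 k4 1
  8))))))] .n) .n))) (.c k171 (.q k207 [(.s k2 k1 0 (.s k139 k71 9 (.s k138 k69 10 (.s k137 k136 0
  (.d k70 k206 k204 9 10))))), (.s k69 k138 10 (.s k85 k170 14 (.s k101 k117 3 (.s k154 k48 14 (.d
  k223 k239 k16 3 10))))), (.s k1 k2 0 (.s k85 k170 14 (.s k169 k253 13 (.s k139 k71 9 (.s k154 k184
  4 (.d k223 k239 k16 3 10))))))] .n) (.c k252 (.q k207 [(.s k1 k2 0 (.s k69 k138 10 (.s k137 k205 9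
  (.s k71 k139 9 (.d k70 k68 k204 0 10))))), (.s k69 k138 10 (.s k85 k170 14 (.s k101 k117 3 (.s
  k154 k48 14 (.d k223 k239 k16 3 10))))), (.s k71 k139 9 (.s k87 k171 13 (.s k103 k119 3 (.s k155
  k51 13 (.d k223 k239 k19 3 9)))))] (.c k126 (.q k189 [(.s k1 k2 0 (.s k69 k138 10 (.s k137 k205 9
  (.s k71 k139 9 (.d k70 k68 k204 0 10))))), (.s k69 k138 10 (.s k85 k170 14 (.s k101 k117 3 (.s
  k154 k48 14 (.d k223 k239 k16 3 10))))), (.s k71 k139 9 (.s k87 k171 13 (.s k103 k119 3 (.s k155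
  k51 13 (.d k223 k239 k19 3 9)))))] .n) (.c k189 (.q k126 [(.s k1 k2 0 (.s k69 k138 10 (.s k137
  k205 9 (.s k71 k139 9 (.d k70 k68 k204 0 10))))), (.s k69 k138 10 (.s k85 k170 14 (.s k101 k117 3
  (.s k154 k48 14 (.d k223 k239 k16 3 10))))), (.s k71 k139 9 (.s k87 k171 13 (.s k103 k119 3 (.s
  k155 k51 13 (.d k223 k239 k19 3 9)))))] .n) .n))) (.c k253 (.l (.s k2 k1 0 (.s k171 k87 13 (.s
  k170 k85 14 (.s k169 k168 0 (.d k86 k254 k252 13 14)))))) (.c k254 (.l (.s k1 k2 0 (.s k87 k171 13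
  (.s k85 k170 14 (.s k86 k84 0 (.d k169 k253 k252 13 14)))))) .n)))))))))))))

def t223 : T TT 256 :=
  (.f k85 k170 14 (.q k195 [(.s k65 k130 8 (.s k105 k125 5 (.s k215 k235 5 (.d k150 k20 k60 8
  14))))] (.c k20 (.q k3 [(.s k1 k2 0 (.s k169 k253 13 (.s k87 k171 13 (.d k86 k84 k252 0 14)))),
  (.s k2 k1 0 (.s k130 k65 8 (.s k66 k194 7 (.s k129 k192 8 (.d k131 k128 k67 0 7))))), (.s k65 k130
  8 (.s k67 k131 7 (.s k87 k171 13 (.s k105 k125 5 (.d k86 k84 k124 0 6)))))] .n) (.c k60 (.q k3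
  [(.s k1 k2 0 (.s k169 k253 13 (.s k87 k171 13 (.d k86 k84 k252 0 14)))), (.s k2 k1 0 (.s k130 k65
  8 (.s k66 k194 7 (.s k129 k192 8 (.d k131 k128 k67 0 7))))), (.s k65 k130 8 (.s k67 k131 7 (.s k87
  k171 13 (.s k105 k125 5 (.d k86 k84 k124 0 6)))))] (.c k61 (.q k62 [(.s k1 k2 0 (.s k87 k171 13
  (.s k86 k84 0 (.d k169 k253 k252 13 14)))), (.s k2 k1 0 (.s k130 k65 8 (.s k66 k194 7 (.s k129
  k192 8 (.d k131 k128 k67 0 7))))), (.s k65 k130 8 (.s k67 k131 7 (.s k87 k171 13 (.s k105 k125 5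
  (.d k86 k84 k124 0 6)))))] .n) (.c k62 (.q k61 [(.s k65 k130 8 (.s k105 k125 5 (.s k193 k149 13
  (.d k1 k2 k129 0 7)))), (.s k1 k2 0 (.s k169 k253 13 (.s k86 k252 14 (.d k87 k84 k171 0 13)))),
  (.s k65 k130 8 (.s k67 k131 7 (.s k87 k171 13 (.s k105 k125 5 (.d k86 k84 k124 0 6)))))] .n) .n)))
  (.c k65 (.q k3 [(.s k1 k2 0 (.s k169 k253 13 (.s k87 k171 13 (.d k86 k84 k252 0 14)))), (.s k131
  k67 7 (.s k215 k235 5 (.s k150 k20 8 (.s k169 k188 6 (.d k1 k2 k253 0 13))))), (.s k67 k131 7 (.s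
  k215 k235 5 (.s k150 k20 8 (.s k105 k60 14 (.s k86 k124 6 (.d k87 k84 k171 0 13))))))] .n) (.c
  k105 (.q k3 [(.s k1 k2 0 (.s k169 k253 13 (.s k87 k171 13 (.d k86 k84 k252 0 14)))), (.s k2 k1 0
  (.s k130 k65 8 (.s k66 k194 7 (.s k129 k192 8 (.d k131 k128 k67 0 7))))), (.s k65 k130 8 (.s k67
  k131 7 (.s k87 k171 13 (.s k127 k107 5 (.d k64 k106 k66 6 0)))))] (.c k40 (.l (.s k235 k215 5 (.s
  k1 k2 0 (.s k169 k253 13 (.s k86 k252 14 (.d k87 k84 k171 0 13)))))) (.c k235 (.q k40 [(.s k1 k2 0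
  (.s k169 k253 13 (.s k86 k252 14 (.d k87 k84 k171 0 13)))), (.s k2 k1 0 (.s k130 k65 8 (.s k66
  k194 7 (.s k129 k192 8 (.d k131 k128 k67 0 7))))), (.s k20 k60 5 (.s k131 k67 7 (.s k87 k171 13
  (.s k150 k215 8 (.s k86 k84 0 (.d k169 k188 k252 6 14))))))] .n) .n))) (.c k125 (.q k3 [(.s k1 k2
  0 (.s k87 k171 13 (.s k86 k84 0 (.d k169 k253 k252 13 14)))), (.s k2 k1 0 (.s k130 k65 8 (.s k66
  k194 7 (.s k129 k192 8 (.d k131 k128 k67 0 7))))), (.s k65 k130 8 (.s k67 k131 7 (.s k87 k171 13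
  (.s k127 k107 5 (.d k64 k66 k106 0 6)))))] .n) (.c k130 (.q k3 [(.s k87 k171 13 (.s k86 k84 0 (.s
  k169 k252 14 (.d k1 k2 k253 0 13)))), (.s k67 k131 7 (.s k87 k171 13 (.s k127 k107 5 (.s k64 k106
  6 (.s k66 k65 0 (.d k192 k128 k129 7 8)))))), (.s k1 k2 0 (.s k169 k253 13 (.s k131 k67 7 (.s k150
  k188 6 (.d k215 k235 k20 5 8)))))] (.c k150 (.q k190 [(.s k87 k171 13 (.s k86 k84 0 (.s k169 k252
  14 (.d k1 k2 k253 0 13)))), (.s k1 k2 0 (.s k125 k60 8 (.s k65 k105 5 (.s k129 k193 7 (.s k66 k192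
  8 (.d k67 k64 k131 0 7)))))), (.s k67 k131 7 (.s k87 k171 13 (.s k125 k60 8 (.s k105 k65 5 (.d k86
  k84 k124 0 6)))))] (.c k86 (.l (.s k67 k131 7 (.s k87 k171 13 (.s k125 k60 8 (.s k65 k105 5 (.s
  k64 k66 0 (.d k127 k106 k107 6 5))))))) .n)) (.c k169 (.l (.s k67 k131 7 (.s k215 k235 5 (.s k150
  k20 8 (.s k105 k60 14 (.s k86 k124 6 (.d k87 k84 k171 0 13))))))) (.c k190 (.q k150 [(.d k215 k235
  k20 5 8), (.s k1 k2 0 (.s k169 k253 13 (.d k131 k188 k67 6 7)))] .n) .n)))) (.c k150 (.q k3 [(.s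
  k1 k2 0 (.s k169 k253 13 (.s k87 k171 13 (.d k86 k84 k252 0 14)))), (.s k2 k1 0 (.s k130 k65 8 (.s
  k66 k194 7 (.s k129 k192 8 (.d k131 k128 k67 0 7))))), (.s k67 k131 7 (.s k87 k171 13 (.s k127
  k107 5 (.s k64 k106 6 (.d k65 k130 k66 8 0)))))] (.c k130 (.q k190 [(.s k87 k171 13 (.s k86 k84 0
  (.s k169 k252 14 (.d k1 k2 k253 0 13)))), (.s k1 k2 0 (.s k125 k60 8 (.s k65 k105 5 (.s k129 k193
  7 (.s k66 k192 8 (.d k67 k64 k131 0 7)))))), (.s k67 k131 7 (.s k87 k171 13 (.s k125 k60 8 (.s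
  k105 k65 5 (.d k86 k84 k124 0 6)))))] (.c k86 (.l (.s k67 k131 7 (.s k87 k171 13 (.s k125 k60 8
  (.s k65 k105 5 (.s k64 k66 0 (.d k127 k106 k107 6 5))))))) .n)) (.c k190 (.l (.s k130 k65 8 (.s k1
  k2 0 (.s k169 k253 13 (.s k86 k252 14 (.d k87 k84 k171 0 13)))))) .n))) (.c k190 (.l (.s k215 k235
  5 (.s k65 k130 8 (.s k150 k20 8 (.d k105 k125 k60 5 14))))) (.c k215 (.q k211 [(.s k243 k227 3 (.s
  k247 k251 1 (.s k166 k4 12 (.s k89 k12 14 (.d k81 k93 k162 1 12))))), (.s k65 k130 8 (.s k243 k227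
  3 (.s k81 k162 12 (.s k146 k16 8 (.d k97 k113 k48 3 12))))), (.s k65 k130 8 (.s k105 k125 5 (.s
  k150 k60 14 (.s k89 k28 10 (.s k73 k121 3 (.s k12 k134 10 (.d k93 k81 k174 1 12)))))))] (.c k81
  (.l (.s k65 k130 8 (.s k105 k125 5 (.s k150 k60 14 (.s k89 k28 10 (.s k73 k121 3 (.s k12 k134 10
  (.d k243 k227 k166 3 14)))))))) (.c k243 (.l (.s k65 k130 8 (.s k105 k125 5 (.s k150 k60 14 (.s
  k89 k28 10 (.s k93 k81 1 (.s k12 k174 12 (.d k73 k121 k134 3 10)))))))) .n))) (.c k235 (.q k3 [(.s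
  k1 k2 0 (.s k169 k253 13 (.s k86 k252 14 (.d k87 k84 k171 0 13)))), (.s k2 k1 0 (.s k130 k65 8 (.s
  k66 k194 7 (.s k129 k192 8 (.d k131 k128 k67 0 7))))), (.s k65 k130 8 (.s k67 k131 7 (.s k87 k171
  13 (.s k105 k125 5 (.d k86 k84 k124 0 6)))))] (.c k40 (.q k105 [(.d k65 k125 k130 5 8), (.s k67
  k131 7 (.s k87 k171 13 (.d k86 k84 k124 0 6)))] .n) (.c k105 (.q k40 [(.s k1 k2 0 (.s k169 k253 13
  (.s k86 k252 14 (.d k87 k84 k171 0 13)))), (.s k2 k1 0 (.s k130 k65 8 (.s k66 k194 7 (.s k129 k192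
  8 (.d k131 k128 k67 0 7))))), (.s k20 k60 5 (.s k131 k67 7 (.s k87 k171 13 (.s k150 k215 8 (.s k86
  k84 0 (.d k169 k188 k252 6 14))))))] .n) .n))) .n))))))))))))

theorem c195 : rootOK2 k255 k63 k195 t195 = true := by decide +kernel

theorem c197 : rootOK2 k255 k63 k197 t197 = true := by decide +kernel

theorem c198 : rootOK2 k255 k63 k198 t198 = true := by decide +kernel

theorem c199 : rootOK2 k255 k63 k199 t199 = true := by decide +kernel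

theorem c207 : rootOK2 k255 k63 k207 t207 = true := by decide +kernel

theorem c213 : rootOK2 k255 k63 k213 t213 = true := by decide +kernel

theorem c214 : rootOK2 k255 k63 k214 t214 = true := by decide +kernel

theorem c215 : rootOK2 k255 k63 k215 t215 = true := by decide +kernel

theorem c219 : rootOK2 k255 k63 k219 t219 = true := by decide +kernel

theorem c223 : rootOK2 k255 k63 k223 t223 = true := by decide +kernel

def l : List Nat :=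
  [k195.c, k197.c, k198.c, k199.c, k207.c, k213.c, k214.c, k215.c, k219.c, k223.c]

theorem ok : AllQ k255.c k63.c l :=
  allQ_cons c195 (allQ_cons c197 (allQ_cons c198 (allQ_cons c199 (allQ_cons c207 (
  allQ_cons c213 (allQ_cons c214 (allQ_cons c215 (allQ_cons c219 (allQ_cons c223 (allQ_nil _ _)))
  )))))))

end Pool.Agent.TTT.E06
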