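import Pool.Agent.TTT.Sym2

set_option autoImplicit false
set_option maxRecDepth 100000

namespace Pool.Agent.TTT.F01

def t1_2 : T TT 256 :=
  (.q k22 [(.s k12 k8 1 (.s k9 k6 2 (.s k41 k60 6 (.s k25 k57 3 (.s k51 k38 6 (.d k19 k28 k35 2
  3)))))), (.s k12 k8 1 (.s k60 k41 6 (.s k20 k40 5 (.s k36 k52 3 (.s k24 k48 5 (.d k28 k16 k44 1
  3)))))), (.s k60 k41 6 (.s k20 k40 5 (.s k52 k36 3 (.s k7 k37 4 (.s k15 k11 1 (.d k5 k6 k10 0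
  2)))))), (.s k12 k8 1 (.s k6 k9 2 (.s k38 k54 3 (.s k21 k55 4 (.s k63 k42 6 (.d k23 k20 k43 0
  5))))))] .n)

def t1_5 : T TT 256 :=
  (.f k12 k8 1 (.f k9 k6 2 (.q k60 [(.s k20 k40 5 (.s k36 k52 3 (.s k28 k44 3 (.d k24 k16 k48 1
  5)))), (.s k41 k22 6 (.s k25 k57 3 (.s k38 k51 6 (.d k44 k35 k28 2 3)))), (.s k40 k20 5 (.s k41
  k22 6 (.s k25 k57 3 (.s k38 k51 6 (.s k21 k55 4 (.d k42 k63 k43 6 0))))))] .n)))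

def t1_6 : T TT 256 :=
  (.f k12 k8 1 (.q k60 [(.s k20 k40 5 (.s k36 k52 3 (.s k28 k44 3 (.d k24 k16 k48 1 5)))), (.s k22
  k41 6 (.s k28 k44 3 (.s k25 k19 2 (.s k38 k51 6 (.s k21 k55 4 (.s k63 k42 6 (.d k29 k17 k46 1
  4))))))), (.s k20 k40 5 (.s k22 k41 6 (.s k21 k23 0 (.s k42 k63 6 (.s k38 k55 4 (.s k51 k25 6 (.d
  k34 k46 k17 1 4)))))))] (.c k40 (.l (.s k22 k41 6 (.s k28 k44 3 (.s k25 k19 2 (.s k38 k51 6 (.s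
  k21 k55 4 (.s k29 k17 1 (.d k63 k42 k46 6 4)))))))) .n)))

def t1_7 : T TT 256 :=
  (.f k12 k8 1 (.q k21 [(.s k63 k42 6 (.s k29 k46 4 (.s k25 k17 1 (.d k38 k55 k51 4 6)))), (.s k6 k9
  2 (.s k38 k55 4 (.s k22 k54 3 (.s k60 k41 6 (.d k20 k23 k40 0 5))))), (.s k63 k42 6 (.s k9 k6 2
  (.s k23 k43 5 (.s k22 k20 0 (.s k41 k60 6 (.s k25 k57 3 (.d k29 k17 k46 1 4)))))))] (.c k25 (.l
  (.s k6 k9 2 (.s k38 k55 4 (.s k22 k54 3 (.s k23 k20 0 (.d k63 k43 k42 5 6)))))) .n)))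

def t1_8 : T TT 256 :=
  (.q k5 [(.s k7 k6 0 (.d k15 k11 k10 1 2))] (.c k6 (.q k21 [(.s k42 k63 6 (.s k37 k53 3 (.s k32 k47
  2 (.s k48 k16 3 (.d k15 k10 k26 2 6))))), (.s k63 k42 6 (.s k23 k43 5 (.s k38 k55 4 (.s k37 k53 3
  (.s k20 k22 0 (.d k36 k52 k39 3 0)))))), (.s k15 k10 2 (.s k63 k42 6 (.s k23 k43 5 (.s k55 k38 4
  (.d k7 k11 k39 1 3))))), (.s k15 k10 2 (.s k38 k55 4 (.s k37 k53 3 (.s k36 k39 0 (.s k52 k20 3 (.d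
  k7 k11 k22 1 4))))))] .n) (.c k7 (.q k21 [(.s k42 k63 6 (.s k37 k53 3 (.s k32 k47 2 (.s k48 k16 3
  (.d k15 k10 k26 2 6))))), (.s k63 k42 6 (.s k23 k43 5 (.s k38 k55 4 (.s k37 k53 3 (.s k20 k22 0
  (.d k36 k52 k39 3 0)))))), (.s k15 k10 2 (.s k63 k42 6 (.s k43 k23 5 (.s k55 k38 4 (.s k47 k31 3
  (.s k39 k35 1 (.d k51 k59 k27 1 5))))))), (.s k15 k10 2 (.s k38 k55 4 (.s k37 k53 3 (.s k39 k36 0
  (.s k51 k27 5 (.s k17 k34 4 (.d k25 k29 k12 1 6)))))))] .n) (.c k10 (.q k21 [(.s k7 k6 0 (.s k38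
  k55 4 (.s k37 k53 3 (.s k52 k22 4 (.d k36 k39 k20 0 3))))), (.s k63 k42 6 (.s k23 k43 5 (.s k55
  k38 4 (.d k7 k6 k39 0 3)))), (.s k63 k42 6 (.s k23 k43 5 (.s k7 k6 0 (.s k37 k53 3 (.d k22 k20 k52
  0 4))))), (.s k63 k42 6 (.s k23 k43 5 (.s k38 k55 4 (.s k37 k53 3 (.s k20 k22 0 (.d k36 k52 k39 3
  0))))))] (.c k9 (.q k11 [(.d k7 k6 k15 0 1), (.s k63 k42 6 (.s k43 k23 5 (.s k55 k38 4 (.d k59 k51
  k27 1 3))))] .n) (.c k11 (.q k9 [(.d k6 k7 k12 0 2), (.s k63 k42 6 (.s k23 k43 5 (.s k38 k55 4 (.s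
  k37 k53 3 (.s k20 k22 0 (.d k36 k52 k39 3 0))))))] .n) .n))) (.c k11 (.q k21 [(.s k7 k6 0 (.s k55
  k38 4 (.s k23 k39 3 (.d k63 k43 k42 5 6)))), (.s k42 k63 6 (.s k37 k53 3 (.s k32 k47 2 (.s k48 k16
  3 (.d k15 k10 k26 2 6))))), (.s k6 k7 0 (.s k38 k55 4 (.s k22 k54 3 (.s k60 k41 6 (.d k20 k23 k40
  0 5)))))] (.c k9 (.l (.s k10 k15 2 (.s k63 k42 6 (.s k23 k43 5 (.s k7 k6 0 (.d k55 k39 k38 3
  4)))))) (.c k10 (.q k9 [(.d k6 k7 k12 0 2), (.s k63 k42 6 (.s k23 k43 5 (.s k38 k55 4 (.s k37 k53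
  3 (.s k20 k22 0 (.d k36 k52 k39 3 0))))))] .n) .n))) (.c k15 (.q k21 [(.s k7 k6 0 (.s k38 k55 4
  (.s k37 k53 3 (.s k52 k22 4 (.d k36 k39 k20 0 3))))), (.s k63 k42 6 (.s k23 k43 5 (.s k7 k6 0 (.d
  k55 k39 k38 3 4)))), (.s k63 k42 6 (.s k23 k43 5 (.s k7 k6 0 (.s k37 k53 3 (.d k22 k20 k52 0
  4))))), (.s k63 k42 6 (.s k23 k43 5 (.s k38 k55 4 (.s k37 k53 3 (.s k20 k22 0 (.d k36 k52 k39 3
  0))))))] (.c k95 (.q k175 [(.s k7 k6 0 (.s k38 k55 4 (.s k37 k53 3 (.s k52 k22 4 (.d k36 k39 k20 0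
  3))))), (.s k63 k42 6 (.s k23 k43 5 (.s k7 k6 0 (.d k55 k39 k38 3 4)))), (.s k63 k42 6 (.s k23 k43
  5 (.s k7 k6 0 (.s k37 k53 3 (.d k22 k20 k52 0 4))))), (.s k63 k42 6 (.s k23 k43 5 (.s k38 k55 4
  (.s k37 k53 3 (.s k20 k22 0 (.d k36 k52 k39 3 0))))))] .n) (.c k175 (.q k95 [(.s k7 k6 0 (.s k38
  k55 4 (.s k37 k53 3 (.s k52 k22 4 (.d k36 k39 k20 0 3))))), (.s k63 k42 6 (.s k23 k43 5 (.s k7 k6
  0 (.d k55 k39 k38 3 4)))), (.s k63 k42 6 (.s k23 k43 5 (.s k7 k6 0 (.s k37 k53 3 (.d k22 k20 k52 0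
  4))))), (.s k63 k42 6 (.s k23 k43 5 (.s k38 k55 4 (.s k37 k53 3 (.s k20 k22 0 (.d k36 k52 k39 3
  0))))))] .n) .n))) .n))))))

def t1_9 : T TT 256 :=
  (.q k60 [(.s k12 k8 1 (.s k20 k40 5 (.s k36 k52 3 (.s k28 k44 3 (.d k24 k16 k48 1 5))))), (.s k20
  k40 5 (.s k22 k41 6 (.s k52 k36 3 (.s k7 k37 4 (.s k21 k23 0 (.s k38 k55 4 (.d k6 k5 k54 0
  3))))))), (.s k12 k8 1 (.s k20 k40 5 (.s k22 k41 6 (.s k21 k23 0 (.s k38 k55 4 (.s k54 k6 3 (.d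
  k51 k57 k25 2 6)))))))] (.c k5 (.q k13 [(.s k12 k8 1 (.s k20 k40 5 (.s k36 k52 3 (.s k28 k44 3 (.d
  k24 k16 k48 1 5))))), (.s k12 k8 1 (.s k15 k14 0 (.s k44 k28 3 (.s k45 k30 4 (.s k29 k61 3 (.d k46
  k47 k63 0 4)))))), (.s k20 k40 5 (.s k22 k41 6 (.s k52 k36 3 (.s k37 k7 4 (.s k48 k56 1 (.s k18
  k33 4 (.d k26 k30 k15 1 6)))))))] (.c k8 (.q k11 [(.s k20 k40 5 (.s k41 k22 6 (.s k52 k36 3 (.d
  k56 k48 k26 1 4)))), (.s k15 k7 1 (.s k41 k22 6 (.s k45 k30 4 (.s k37 k33 1 (.d k26 k56 k48 4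
  6))))), (.s k20 k40 5 (.s k15 k7 1 (.s k12 k14 0 (.s k28 k44 3 (.s k24 k16 1 (.d k36 k52 k48 3
  5))))))] (.c k48 (.l (.s k20 k40 5 (.s k7 k15 1 (.s k22 k41 6 (.d k52 k37 k36 4 3))))) (.c k52 (.l
  (.s k15 k7 1 (.s k45 k30 4 (.s k41 k22 6 (.s k37 k33 1 (.d k26 k56 k48 4 6)))))) (.c k56 (.l (.s
  k7 k15 1 (.s k22 k41 6 (.s k52 k37 4 (.d k20 k36 k40 3 5))))) .n)))) (.c k11 (.l (.s k20 k40 5 (.s
  k22 k41 6 (.s k52 k36 3 (.s k37 k7 4 (.s k25 k49 5 (.s k28 k19 2 (.d k12 k44 k8 3 1)))))))) (.c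
  k44 (.l (.s k12 k8 1 (.s k20 k40 5 (.s k22 k41 6 (.s k21 k23 0 (.s k38 k55 4 (.s k54 k6 3 (.d k51
  k57 k25 2 6)))))))) .n)))) (.c k13 (.q k5 [(.s k7 k6 0 (.d k15 k11 k10 1 2)), (.s k12 k8 1 (.s k20
  k40 5 (.s k36 k52 3 (.s k24 k48 5 (.d k28 k16 k44 1 3))))), (.s k20 k40 5 (.s k22 k41 6 (.s k7 k6
  0 (.d k52 k36 k37 3 4))))] .n) (.c k20 (.f k12 k8 1 (.l (.s k22 k41 6 (.s k28 k44 3 (.s k25 k19 2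
  (.s k38 k51 6 (.s k21 k55 4 (.s k63 k42 6 (.d k29 k17 k46 1 4))))))))) (.c k40 (.f k12 k8 1 (.l
  (.s k22 k41 6 (.s k28 k44 3 (.s k25 k19 2 (.s k38 k51 6 (.s k21 k55 4 (.s k29 k17 1 (.d k63 k42
  k46 6 4))))))))) .n)))))

def t1_10 : T TT 256 :=
  (.q k21 [(.s k12 k8 1 (.s k42 k63 6 (.s k38 k55 4 (.s k51 k25 6 (.d k34 k46 k17 1 4))))), (.s k63
  k42 6 (.s k23 k43 5 (.s k55 k38 4 (.s k7 k39 3 (.s k5 k6 0 (.s k37 k53 3 (.d k22 k20 k52 0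
  4))))))), (.s k12 k8 1 (.s k9 k6 2 (.s k38 k55 4 (.s k25 k51 6 (.s k41 k57 3 (.s k60 k22 6 (.d k44
  k35 k28 2 3)))))))] (.c k38 (.q k17 [(.s k8 k12 1 (.s k25 k29 1 (.d k42 k63 k59 6 4))), (.s k51
  k34 4 (.s k19 k35 3 (.s k16 k18 0 (.s k31 k26 2 (.s k27 k23 1 (.s k15 k39 5 (.d k63 k47 k42 3
  6))))))), (.s k12 k8 1 (.s k9 k6 2 (.s k25 k29 1 (.s k41 k57 3 (.s k22 k60 6 (.s k19 k28 2 (.d k51
  k35 k34 3 4)))))))] (.c k51 (.l (.s k8 k12 1 (.s k25 k29 1 (.d k42 k63 k59 6 4)))) .n)) (.c k55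
  (.q k17 [(.s k12 k8 1 (.s k51 k34 4 (.d k25 k29 k38 1 6))), (.s k51 k34 4 (.s k63 k42 6 (.s k19
  k35 3 (.s k23 k43 5 (.s k16 k18 0 (.d k31 k26 k27 2 1)))))), (.s k8 k12 1 (.s k25 k29 1 (.d k42
  k63 k59 6 4)))] .n) (.c k63 (.l (.s k12 k8 1 (.s k38 k55 4 (.s k51 k25 6 (.s k35 k19 3 (.s k41 k44
  2 (.s k22 k60 6 (.d k6 k9 k54 2 3)))))))) .n))))

def t1_11 : T TT 256 :=
  (.q k60 [(.s k12 k8 1 (.s k20 k40 5 (.s k36 k52 3 (.s k28 k44 3 (.d k24 k16 k48 1 5))))), (.s k20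
  k40 5 (.s k22 k41 6 (.s k52 k36 3 (.s k7 k37 4 (.s k21 k23 0 (.s k38 k55 4 (.d k6 k5 k54 0
  3))))))), (.s k12 k8 1 (.s k9 k6 2 (.s k41 k22 6 (.s k25 k57 3 (.s k38 k51 6 (.d k44 k35 k28 2
  3))))))] (.c k44 (.l (.s k12 k8 1 (.s k20 k40 5 (.s k22 k41 6 (.s k21 k23 0 (.s k38 k55 4 (.d k6
  k9 k54 2 3))))))) .n))

def t1_12 : T TT 256 :=
  (.q k15 [(.s k5 k10 2 (.d k7 k6 k11 0 1))] (.c k5 (.q k252 [(.s k84 k168 13 (.s k7 k11 1 (.s k244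
  k164 11 (.d k86 k165 k169 12 14)))), (.s k7 k11 1 (.s k86 k169 14 (.s k165 k244 12 (.s k94 k173 12
  (.d k90 k82 k240 1 14)))))] (.c k7 (.l (.s k84 k168 13 (.s k86 k169 14 (.s k244 k164 11 (.s k94
  k173 12 (.s k82 k90 1 (.d k240 k248 k161 1 12))))))) (.c k9 (.q k13 [(.s k84 k168 13 (.s k7 k11 1
  (.s k244 k164 11 (.d k86 k165 k169 12 14)))), (.s k11 k7 1 (.s k173 k94 12 (.s k169 k86 14 (.s
  k165 k161 1 (.d k90 k248 k240 12 14)))))] (.c k7 (.l (.s k84 k168 13 (.s k86 k169 14 (.s k244 k164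
  11 (.s k94 k173 12 (.s k82 k90 1 (.d k240 k248 k161 1 12))))))) (.c k11 (.l (.s k84 k168 13 (.s
  k86 k169 14 (.s k244 k164 11 (.s k165 k7 12 (.d k240 k248 k90 1 14)))))) (.c k86 (.f k11 k7 1 (.f
  k84 k168 13 (.q k93 [(.d k173 k253 k94 11 12), (.s k244 k164 11 (.s k240 k248 1 (.s k82 k161 12
  (.s k165 k90 14 (.s k89 k241 13 (.s k81 k85 1 (.d k80 k160 k83 11 0)))))))] (.c k165 (.l (.s k244
  k164 11 (.d k173 k253 k94 11 12))) (.c k244 (.q k165 [(.d k173 k253 k94 11 12), (.s k89 k241 13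
  (.s k90 k240 14 (.s k81 k85 1 (.s k243 k162 12 (.d k91 k88 k167 0 13)))))] (.c k253 (.l (.s k90
  k240 14 (.s k169 k248 12 (.d k173 k161 k94 1 12)))) .n)) (.c k253 (.l (.s k244 k164 11 (.s k94
  k173 12 (.s k92 k95 0 (.s k80 k88 1 (.d k240 k248 k160 1 11)))))) .n)))))) (.c k93 (.q k174 [(.s
  k84 k168 13 (.s k7 k11 1 (.s k244 k164 11 (.d k86 k165 k169 12 14)))), (.s k11 k7 1 (.s k173 k94
  12 (.s k169 k86 14 (.s k165 k161 1 (.d k90 k248 k240 12 14))))), (.s k84 k168 13 (.s k244 k164 11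
  (.s k173 k94 12 (.s k240 k248 1 (.s k160 k80 11 (.s k175 k172 0 (.d k165 k170 k90 2 14)))))))] (.c
  k165 (.l (.s k84 k168 13 (.s k11 k7 1 (.s k169 k86 14 (.s k244 k164 11 (.d k248 k240 k90 1
  12)))))) (.c k240 (.l (.s k84 k168 13 (.s k7 k11 1 (.s k86 k169 14 (.d k244 k164 k165 11 12)))))
  (.c k244 (.l (.s k11 k7 1 (.s k173 k94 12 (.s k169 k86 14 (.s k165 k161 1 (.d k90 k248 k240 12
  14)))))) .n)))) (.c k165 (.l (.s k84 k168 13 (.s k11 k7 1 (.s k169 k86 14 (.s k244 k164 11 (.d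
  k248 k240 k90 1 12)))))) (.c k169 (.l (.s k84 k168 13 (.s k7 k11 1 (.s k244 k164 11 (.s k165 k86
  12 (.d k240 k248 k90 1 14)))))) (.c k174 (.q k93 [(.d k173 k253 k94 11 12), (.s k84 k168 13 (.s k7
  k11 1 (.s k244 k164 11 (.d k86 k165 k169 12 14))))] .n) (.c k240 (.l (.s k84 k168 13 (.s k7 k11 1
  (.s k86 k169 14 (.d k244 k164 k165 11 12))))) (.c k244 (.l (.s k11 k7 1 (.s k173 k94 12 (.s k169
  k86 14 (.s k165 k161 1 (.d k90 k248 k240 12 14)))))) .n)))))))))) (.c k11 (.l (.s k84 k168 13 (.s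
  k86 k169 14 (.s k244 k164 11 (.s k165 k7 12 (.d k240 k248 k90 1 14)))))) (.c k13 (.q k9 [(.s k84
  k168 13 (.s k7 k11 1 (.s k244 k164 11 (.d k86 k165 k169 12 14)))), (.s k84 k168 13 (.s k7 k11 1
  (.s k86 k169 14 (.d k244 k164 k165 11 12)))), (.s k7 k11 1 (.s k86 k169 14 (.s k165 k244 12 (.s
  k90 k240 14 (.d k94 k82 k173 1 12))))), (.s k168 k84 13 (.s k11 k7 1 (.s k8 k10 0 (.s k248 k88 11
  (.d k169 k90 k86 12 14)))))] (.c k7 (.l (.s k84 k168 13 (.s k86 k169 14 (.s k244 k164 11 (.s k94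
  k173 12 (.s k82 k90 1 (.d k240 k248 k161 1 12))))))) (.c k11 (.l (.s k84 k168 13 (.s k86 k169 14
  (.s k244 k164 11 (.s k165 k7 12 (.d k240 k248 k90 1 14)))))) (.c k86 (.l (.s k168 k84 13 (.s k11
  k7 1 (.s k8 k10 0 (.s k248 k88 11 (.s k90 k169 12 (.d k240 k244 k165 1 14))))))) (.c k93 (.q k174
  [(.s k84 k168 13 (.s k7 k11 1 (.s k244 k164 11 (.d k86 k165 k169 12 14)))), (.s k84 k168 13 (.s k7
  k11 1 (.s k86 k169 14 (.d k244 k164 k165 11 12)))), (.s k7 k11 1 (.s k86 k169 14 (.s k165 k244 12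
  (.s k90 k240 14 (.d k94 k173 k82 12 1))))), (.s k168 k84 13 (.s k11 k7 1 (.s k8 k10 0 (.s k248 k88
  11 (.d k169 k90 k86 12 14)))))] (.c k7 (.l (.s k84 k168 13 (.s k86 k169 14 (.s k244 k164 11 (.s
  k240 k248 1 (.s k82 k161 12 (.d k90 k165 k94 14 1))))))) (.c k11 (.l (.s k84 k168 13 (.s k86 k169
  14 (.s k244 k164 11 (.s k165 k7 12 (.d k240 k248 k90 1 14)))))) (.c k86 (.l (.s k168 k84 13 (.s
  k11 k7 1 (.s k8 k10 0 (.s k248 k88 11 (.s k90 k169 12 (.d k240 k244 k165 1 14))))))) (.c k164 (.l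
  (.s k168 k84 13 (.s k11 k7 1 (.s k169 k86 14 (.s k8 k10 0 (.d k248 k88 k90 11 12)))))) (.c k169
  (.l (.s k84 k168 13 (.s k7 k11 1 (.s k244 k164 11 (.s k165 k86 12 (.d k240 k248 k90 1 14)))))) (.c
  k173 (.q k253 [(.s k84 k168 13 (.s k7 k11 1 (.s k244 k164 11 (.d k86 k165 k169 12 14)))), (.s k168
  k84 13 (.s k169 k86 14 (.s k249 k89 11 (.s k170 k171 0 (.s k162 k166 1 (.d k243 k246 k81 2
  12)))))), (.s k11 k7 1 (.s k169 k86 14 (.s k8 k10 0 (.s k89 k249 11 (.s k251 k170 12 (.s k90 k248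
  12 (.d k91 k88 k171 0 11)))))))] (.c k86 (.l (.s k168 k84 13 (.s k11 k7 1 (.s k8 k10 0 (.s k248
  k88 11 (.s k90 k169 12 (.d k240 k244 k165 1 14))))))) (.c k165 (.l (.s k84 k168 13 (.s k11 k7 1
  (.s k169 k86 14 (.s k244 k164 11 (.d k248 k240 k90 1 12)))))) (.c k169 (.l (.s k84 k168 13 (.s k7
  k11 1 (.s k244 k164 11 (.s k165 k86 12 (.d k240 k248 k90 1 14)))))) .n)))) (.c k253 (.l (.s k173
  k94 12 (.s k84 k168 13 (.s k7 k11 1 (.s k244 k164 11 (.d k86 k165 k169 12 14)))))) .n)))))))) (.c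
  k164 (.l (.s k168 k84 13 (.s k11 k7 1 (.s k169 k86 14 (.s k8 k10 0 (.d k248 k88 k90 11 12))))))
  (.c k169 (.l (.s k84 k168 13 (.s k7 k11 1 (.s k244 k164 11 (.s k165 k86 12 (.d k240 k248 k90 1
  14)))))) (.c k174 (.q k93 [(.s k84 k168 13 (.s k7 k11 1 (.s k244 k164 11 (.d k86 k165 k169 12
  14)))), (.s k84 k168 13 (.s k244 k164 11 (.s k94 k173 12 (.s k92 k95 0 (.s k80 k88 1 (.d k240 k248
  k160 1 11)))))), (.s k84 k168 13 (.s k7 k11 1 (.s k86 k169 14 (.d k244 k164 k165 11 12)))), (.s k7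
  k11 1 (.s k86 k169 14 (.s k165 k244 12 (.s k90 k240 14 (.d k94 k82 k173 1 12)))))] (.c k164 (.l
  (.s k168 k84 13 (.s k11 k7 1 (.s k169 k86 14 (.s k8 k10 0 (.d k248 k88 k90 11 12)))))) (.c k244
  (.l (.s k168 k84 13 (.s k11 k7 1 (.s k8 k10 0 (.s k248 k88 11 (.d k169 k86 k90 14 12)))))) .n)))
  .n)))))))) (.c k86 (.f k11 k7 1 (.f k84 k168 13 (.f k164 k244 11 (.q k165 [(.s k90 k240 14 (.s
  k173 k94 12 (.d k169 k161 k248 1 12))), (.s k167 k166 0 (.s k243 k91 13 (.s k162 k81 12 (.s k163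
  k83 11 (.s k161 k160 0 (.d k173 k169 k94 1 12)))))), (.s k240 k90 14 (.s k82 k161 12 (.s k80 k160
  11 (.s k81 k83 0 (.s k167 k166 0 (.d k243 k162 k91 12 13))))))] (.c k9 (.q k13 [(.s k90 k240 14
  (.s k173 k94 12 (.d k169 k161 k248 1 12))), (.s k89 k241 13 (.s k167 k166 0 (.s k243 k91 13 (.s
  k81 k162 12 (.s k93 k85 1 (.d k173 k253 k94 11 12)))))), (.s k89 k241 13 (.s k90 k240 14 (.s k91
  k88 0 (.d k167 k243 k166 13 0))))] (.c k93 (.q k174 [(.s k90 k240 14 (.s k169 k248 12 (.d k173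
  k161 k94 1 12))), (.s k166 k167 0 (.s k170 k162 1 (.s k175 k160 2 (.d k173 k172 k94 0 12)))), (.s
  k89 k241 13 (.s k90 k240 14 (.s k91 k88 0 (.d k167 k243 k166 13 0))))] (.c k161 (.l (.s k241 k89
  13 (.s k240 k90 14 (.s k167 k166 0 (.d k243 k242 k91 0 13))))) .n)) (.c k161 (.l (.s k241 k89 13
  (.s k240 k90 14 (.s k167 k166 0 (.d k243 k242 k91 0 13))))) (.c k174 (.q k93 [(.d k173 k253 k94 11
  12), (.s k89 k241 13 (.s k166 k167 0 (.d k85 k81 k247 1 12)))] .n) .n)))) (.c k13 (.q k9 [(.s k90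
  k240 14 (.s k173 k94 12 (.d k169 k161 k248 1 12))), (.s k167 k166 0 (.s k243 k91 13 (.s k162 k81
  12 (.s k163 k83 11 (.s k161 k160 0 (.d k173 k169 k94 1 12)))))), (.s k8 k10 0 (.s k90 k240 14 (.s
  k167 k166 0 (.s k91 k243 13 (.s k89 k88 0 (.d k251 k171 k170 11 12))))))] (.c k93 (.q k174 [(.s
  k90 k240 14 (.s k169 k248 12 (.d k173 k161 k94 1 12))), (.s k166 k167 0 (.s k170 k162 1 (.s k175
  k160 2 (.d k173 k172 k94 0 12)))), (.s k10 k8 0 (.s k90 k240 14 (.s k166 k167 0 (.d k170 k250 k162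
  11 1))))] (.c k173 (.q k253 [(.s k90 k240 14 (.s k166 k167 0 (.s k170 k162 1 (.d k10 k250 k8 11
  0)))), (.s k240 k90 14 (.s k160 k80 11 (.s k170 k175 2 (.s k162 k166 1 (.d k161 k82 k163 12
  0))))), (.s k166 k167 0 (.s k162 k170 1 (.s k243 k81 12 (.s k163 k83 11 (.s k169 k172 2 (.d k249
  k89 k246 11 2)))))), (.s k90 k240 14 (.s k169 k248 12 (.s k89 k249 11 (.s k167 k166 0 (.d k91 k88
  k243 0 13)))))] (.c k166 (.l (.s k8 k10 0 (.s k90 k240 14 (.s k169 k248 12 (.s k89 k249 11 (.s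
  k251 k170 12 (.d k91 k88 k171 0 11))))))) .n)) (.c k253 (.l (.s k173 k94 12 (.s k90 k240 14 (.d
  k169 k161 k248 1 12)))) .n))) (.c k174 (.q k93 [(.s k90 k240 14 (.s k169 k248 12 (.d k173 k161 k94
  1 12))), (.s k167 k166 0 (.s k243 k91 13 (.s k162 k81 12 (.s k163 k83 11 (.s k161 k160 0 (.d k173
  k169 k94 1 12)))))), (.s k90 k240 14 (.s k169 k248 12 (.s k89 k249 11 (.s k85 k81 1 (.d k166 k167
  k247 0 12))))), (.s k240 k90 14 (.s k80 k160 11 (.s k94 k173 12 (.d k92 k95 k88 0 1))))] .n) .n)))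
  (.c k93 (.q k174 [(.s k90 k240 14 (.s k169 k248 12 (.d k173 k161 k94 1 12))), (.s k166 k167 0 (.s
  k170 k162 1 (.s k160 k175 2 (.d k240 k80 k90 11 14)))), (.s k166 k167 0 (.s k170 k162 1 (.s k175
  k160 2 (.d k173 k172 k94 0 12))))] (.c k9 (.q k13 [(.s k90 k240 14 (.s k169 k248 12 (.d k173 k161
  k94 1 12))), (.s k166 k167 0 (.s k170 k162 1 (.s k175 k160 2 (.d k173 k172 k94 0 12)))), (.s k89
  k241 13 (.s k90 k240 14 (.s k91 k88 0 (.d k167 k243 k166 13 0))))] (.c k161 (.l (.s k241 k89 13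
  (.s k240 k90 14 (.s k167 k166 0 (.d k243 k242 k91 0 13))))) .n)) (.c k13 (.q k9 [(.s k90 k240 14
  (.s k169 k248 12 (.d k173 k161 k94 1 12))), (.s k166 k167 0 (.s k170 k162 1 (.s k175 k160 2 (.d
  k173 k172 k94 0 12)))), (.s k10 k8 0 (.s k90 k240 14 (.s k166 k167 0 (.d k170 k250 k162 11 1))))]
  (.c k173 (.q k253 [(.s k90 k240 14 (.s k166 k167 0 (.s k170 k162 1 (.d k10 k250 k8 11 0)))), (.s
  k240 k90 14 (.s k160 k80 11 (.s k170 k175 2 (.s k162 k166 1 (.d k161 k82 k163 12 0))))), (.s k166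
  k167 0 (.s k162 k170 1 (.s k243 k81 12 (.s k163 k83 11 (.s k169 k172 2 (.d k249 k89 k246 11
  2)))))), (.s k90 k240 14 (.s k169 k248 12 (.s k89 k249 11 (.s k167 k166 0 (.d k91 k88 k243 0
  13)))))] (.c k166 (.l (.s k8 k10 0 (.s k90 k240 14 (.s k169 k248 12 (.s k89 k249 11 (.s k251 k170
  12 (.d k91 k88 k171 0 11))))))) .n)) (.c k253 (.l (.s k173 k94 12 (.s k90 k240 14 (.d k169 k161
  k248 1 12)))) .n))) .n))) (.c k94 (.l (.s k240 k90 14 (.s k82 k161 12 (.s k80 k160 11 (.s k81 k83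
  0 (.s k167 k166 0 (.d k243 k162 k91 12 13))))))) (.c k161 (.l (.s k240 k90 14 (.s k160 k80 11 (.s
  k175 k170 2 (.s k167 k166 0 (.s k243 k91 13 (.d k163 k171 k83 1 11))))))) (.c k174 (.q k93 [(.s
  k90 k240 14 (.s k169 k248 12 (.d k173 k161 k94 1 12))), (.s k167 k166 0 (.s k243 k91 13 (.s k162
  k81 12 (.s k163 k83 11 (.s k161 k160 0 (.d k173 k169 k94 1 12)))))), (.s k240 k90 14 (.s k82 k161
  12 (.s k80 k160 11 (.s k81 k83 0 (.s k166 k167 0 (.d k85 k89 k247 1 12))))))] (.c k9 (.q k13 [(.d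
  k173 k253 k94 11 12), (.s k89 k241 13 (.s k166 k167 0 (.d k85 k81 k247 1 12)))] .n) (.c k13 (.q k9
  [(.s k90 k240 14 (.s k169 k248 12 (.d k173 k161 k94 1 12))), (.s k167 k166 0 (.s k243 k91 13 (.s
  k162 k81 12 (.s k163 k83 11 (.s k161 k160 0 (.d k173 k169 k94 1 12)))))), (.s k90 k240 14 (.s k169
  k248 12 (.s k89 k249 11 (.s k85 k81 1 (.d k166 k167 k247 0 12))))), (.s k240 k90 14 (.s k80 k160
  11 (.s k94 k173 12 (.d k92 k95 k88 0 1))))] .n) (.c k94 (.l (.s k240 k90 14 (.s k82 k161 12 (.s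
  k80 k160 11 (.s k81 k83 0 (.s k166 k167 0 (.d k85 k89 k247 1 12))))))) (.c k161 (.l (.s k240 k90
  14 (.s k80 k160 11 (.s k94 k173 12 (.d k92 k95 k88 0 1))))) .n))))) .n)))))))))) (.c k93 (.q k174
  [(.s k84 k168 13 (.s k7 k11 1 (.s k244 k164 11 (.d k86 k165 k169 12 14)))), (.s k7 k11 1 (.s k86
  k169 14 (.s k165 k244 12 (.s k94 k173 12 (.d k90 k82 k240 1 14))))), (.s k84 k168 13 (.s k244 k164
  11 (.s k173 k94 12 (.s k240 k248 1 (.s k160 k80 11 (.s k175 k172 0 (.d k165 k170 k90 2 14)))))))]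
  (.c k9 (.q k13 [(.s k84 k168 13 (.s k7 k11 1 (.s k244 k164 11 (.d k86 k165 k169 12 14)))), (.s k11
  k7 1 (.s k173 k94 12 (.s k169 k86 14 (.s k165 k161 1 (.d k90 k248 k240 12 14))))), (.s k84 k168 13
  (.s k244 k164 11 (.s k173 k94 12 (.s k240 k248 1 (.s k160 k80 11 (.s k175 k172 0 (.d k165 k170 k90
  2 14)))))))] (.c k165 (.l (.s k84 k168 13 (.s k11 k7 1 (.s k169 k86 14 (.s k244 k164 11 (.d k248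
  k240 k90 1 12)))))) (.c k240 (.l (.s k84 k168 13 (.s k7 k11 1 (.s k86 k169 14 (.d k244 k164 k165
  11 12))))) (.c k244 (.l (.s k11 k7 1 (.s k173 k94 12 (.s k169 k86 14 (.s k165 k161 1 (.d k90 k248
  k240 12 14)))))) .n)))) (.c k13 (.q k9 [(.s k84 k168 13 (.s k7 k11 1 (.s k244 k164 11 (.d k86 k165
  k169 12 14)))), (.s k84 k168 13 (.s k7 k11 1 (.s k86 k169 14 (.d k244 k164 k165 11 12)))), (.s k7
  k11 1 (.s k86 k169 14 (.s k165 k244 12 (.s k90 k240 14 (.d k94 k173 k82 12 1))))), (.s k168 k84 13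
  (.s k11 k7 1 (.s k8 k10 0 (.s k248 k88 11 (.d k169 k90 k86 12 14)))))] (.c k7 (.l (.s k84 k168 13
  (.s k86 k169 14 (.s k244 k164 11 (.s k240 k248 1 (.s k82 k161 12 (.d k90 k165 k94 14 1))))))) (.c
  k11 (.l (.s k84 k168 13 (.s k86 k169 14 (.s k244 k164 11 (.s k165 k7 12 (.d k240 k248 k90 1
  14)))))) (.c k86 (.l (.s k168 k84 13 (.s k11 k7 1 (.s k8 k10 0 (.s k248 k88 11 (.s k90 k169 12 (.d
  k240 k244 k165 1 14))))))) (.c k164 (.l (.s k168 k84 13 (.s k11 k7 1 (.s k169 k86 14 (.s k8 k10 0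
  (.d k248 k88 k90 11 12)))))) (.c k169 (.l (.s k84 k168 13 (.s k7 k11 1 (.s k244 k164 11 (.s k165
  k86 12 (.d k240 k248 k90 1 14)))))) (.c k173 (.q k253 [(.s k84 k168 13 (.s k7 k11 1 (.s k244 k164
  11 (.d k86 k165 k169 12 14)))), (.s k168 k84 13 (.s k169 k86 14 (.s k249 k89 11 (.s k170 k171 0
  (.s k162 k166 1 (.d k243 k246 k81 2 12)))))), (.s k11 k7 1 (.s k169 k86 14 (.s k8 k10 0 (.s k89
  k249 11 (.s k251 k170 12 (.s k90 k248 12 (.d k91 k88 k171 0 11)))))))] (.c k86 (.l (.s k168 k84 13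
  (.s k11 k7 1 (.s k8 k10 0 (.s k248 k88 11 (.s k90 k169 12 (.d k240 k244 k165 1 14))))))) (.c k165
  (.l (.s k84 k168 13 (.s k11 k7 1 (.s k169 k86 14 (.s k244 k164 11 (.d k248 k240 k90 1 12)))))) (.c
  k169 (.l (.s k84 k168 13 (.s k7 k11 1 (.s k244 k164 11 (.s k165 k86 12 (.d k240 k248 k90 1
  14)))))) .n)))) (.c k253 (.l (.s k173 k94 12 (.s k84 k168 13 (.s k7 k11 1 (.s k244 k164 11 (.d k86
  k165 k169 12 14)))))) .n)))))))) (.c k165 (.l (.s k84 k168 13 (.s k11 k7 1 (.s k169 k86 14 (.s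
  k244 k164 11 (.d k248 k240 k90 1 12)))))) (.c k240 (.l (.s k84 k168 13 (.s k7 k11 1 (.s k86 k169
  14 (.d k244 k164 k165 11 12))))) (.c k244 (.l (.s k11 k7 1 (.s k173 k94 12 (.s k169 k86 14 (.s
  k165 k161 1 (.d k90 k248 k240 12 14)))))) .n)))))) (.c k165 (.l (.s k84 k168 13 (.s k11 k7 1 (.s
  k169 k86 14 (.s k244 k164 11 (.d k248 k240 k90 1 12)))))) (.c k169 (.l (.s k84 k168 13 (.s k7 k11
  1 (.s k244 k164 11 (.s k165 k86 12 (.d k240 k248 k90 1 14)))))) (.c k174 (.q k93 [(.s k84 k168 13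
  (.s k7 k11 1 (.s k244 k164 11 (.d k86 k165 k169 12 14)))), (.s k11 k7 1 (.s k173 k94 12 (.s k169
  k86 14 (.s k165 k161 1 (.d k90 k248 k240 12 14))))), (.s k84 k168 13 (.s k244 k164 11 (.s k94 k173
  12 (.s k92 k95 0 (.s k80 k88 1 (.d k240 k248 k160 1 11))))))] (.c k9 (.q k13 [(.d k173 k253 k94 11
  12), (.s k84 k168 13 (.s k7 k11 1 (.s k244 k164 11 (.d k86 k165 k169 12 14))))] .n) (.c k13 (.q k9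
  [(.s k84 k168 13 (.s k7 k11 1 (.s k244 k164 11 (.d k86 k165 k169 12 14)))), (.s k84 k168 13 (.s
  k244 k164 11 (.s k94 k173 12 (.s k92 k95 0 (.s k80 k88 1 (.d k240 k248 k160 1 11)))))), (.s k84
  k168 13 (.s k7 k11 1 (.s k86 k169 14 (.d k244 k164 k165 11 12)))), (.s k7 k11 1 (.s k86 k169 14
  (.s k165 k244 12 (.s k90 k240 14 (.d k94 k82 k173 1 12)))))] (.c k164 (.l (.s k168 k84 13 (.s k11
  k7 1 (.s k169 k86 14 (.s k8 k10 0 (.d k248 k88 k90 11 12)))))) (.c k244 (.l (.s k168 k84 13 (.s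
  k11 k7 1 (.s k8 k10 0 (.s k248 k88 11 (.d k169 k86 k90 14 12)))))) .n))) (.c k240 (.l (.s k84 k168
  13 (.s k7 k11 1 (.s k86 k169 14 (.d k244 k164 k165 11 12))))) (.c k244 (.l (.s k11 k7 1 (.s k173
  k94 12 (.s k169 k86 14 (.s k165 k161 1 (.d k90 k248 k240 12 14)))))) .n))))) (.c k240 (.l (.s k84
  k168 13 (.s k7 k11 1 (.s k86 k169 14 (.d k244 k164 k165 11 12))))) (.c k244 (.l (.s k11 k7 1 (.s
  k173 k94 12 (.s k169 k86 14 (.s k165 k161 1 (.d k90 k248 k240 12 14)))))) .n)))))))))))) (.c k6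
  (.q k21 [(.s k63 k42 6 (.s k7 k11 1 (.s k23 k43 5 (.d k55 k39 k38 3 4)))), (.s k5 k10 2 (.s k42
  k63 6 (.s k37 k53 3 (.s k48 k26 6 (.d k32 k47 k16 2 3))))), (.s k5 k10 2 (.s k7 k11 1 (.s k38 k55
  4 (.s k37 k53 3 (.s k52 k22 4 (.d k36 k39 k20 0 3))))))] (.c k93 (.q k174 [(.s k63 k42 6 (.s k7
  k11 1 (.s k23 k43 5 (.d k55 k39 k38 3 4)))), (.s k5 k10 2 (.s k42 k63 6 (.s k37 k53 3 (.s k48 k26
  6 (.d k32 k47 k16 2 3))))), (.s k5 k10 2 (.s k7 k11 1 (.s k38 k55 4 (.s k37 k53 3 (.s k52 k22 4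
  (.d k36 k39 k20 0 3))))))] .n) (.c k174 (.q k93 [(.s k63 k42 6 (.s k7 k11 1 (.s k23 k43 5 (.d k55
  k39 k38 3 4)))), (.s k5 k10 2 (.s k42 k63 6 (.s k37 k53 3 (.s k48 k26 6 (.d k32 k47 k16 2 3))))),
  (.s k5 k10 2 (.s k7 k11 1 (.s k38 k55 4 (.s k37 k53 3 (.s k52 k22 4 (.d k36 k39 k20 0 3))))))] .n)
  .n))) (.c k7 (.q k60 [(.s k5 k10 2 (.s k20 k40 5 (.s k22 k41 6 (.s k36 k52 3 (.s k21 k23 0 (.s k37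
  k53 3 (.d k38 k39 k55 0 4))))))), (.s k10 k5 2 (.s k22 k41 6 (.s k30 k45 4 (.s k26 k18 1 (.s k42
  k58 3 (.s k62 k2 5 (.d k63 k61 k21 0 6))))))), (.s k20 k40 5 (.s k41 k22 6 (.s k52 k36 3 (.s k45
  k30 4 (.s k33 k37 1 (.d k48 k18 k56 4 1))))))] (.c k22 (.f k20 k40 5 (.l (.s k5 k10 2 (.s k52 k36
  3 (.s k48 k56 1 (.s k32 k16 3 (.s k37 k26 6 (.s k21 k53 3 (.d k42 k47 k63 2 6))))))))) (.c k37 (.l
  (.s k10 k5 2 (.s k20 k40 5 (.s k22 k41 6 (.s k21 k23 0 (.s k42 k63 6 (.s k26 k58 3 (.d k30 k45 k18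
  4 1)))))))) (.c k41 (.f k20 k40 5 (.l (.s k10 k5 2 (.s k52 k36 3 (.s k48 k56 1 (.s k26 k37 6 (.s
  k42 k58 3 (.s k21 k63 6 (.d k16 k32 k31 3 2))))))))) (.c k93 (.q k174 [(.s k5 k10 2 (.s k20 k40 5
  (.s k22 k41 6 (.s k36 k52 3 (.s k21 k23 0 (.s k37 k53 3 (.d k38 k39 k55 0 4))))))), (.s k10 k5 2
  (.s k22 k41 6 (.s k30 k45 4 (.s k26 k18 1 (.s k42 k58 3 (.s k62 k2 5 (.d k63 k61 k21 0 6))))))),
  (.s k20 k40 5 (.s k41 k22 6 (.s k52 k36 3 (.s k45 k30 4 (.s k33 k37 1 (.d k48 k18 k56 4 1))))))]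
  (.c k22 (.f k20 k40 5 (.l (.s k5 k10 2 (.s k52 k36 3 (.s k48 k56 1 (.s k32 k16 3 (.s k37 k26 6 (.s
  k21 k53 3 (.d k42 k47 k63 2 6))))))))) (.c k37 (.l (.s k10 k5 2 (.s k20 k40 5 (.s k22 k41 6 (.s
  k21 k23 0 (.s k42 k63 6 (.s k26 k58 3 (.d k30 k45 k18 4 1)))))))) (.c k41 (.f k20 k40 5 (.l (.s
  k10 k5 2 (.s k52 k36 3 (.s k48 k56 1 (.s k26 k37 6 (.s k42 k58 3 (.s k21 k63 6 (.d k16 k32 k31 3
  2))))))))) .n)))) (.c k174 (.q k93 [(.s k5 k10 2 (.s k20 k40 5 (.s k22 k41 6 (.s k36 k52 3 (.s k21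
  k23 0 (.s k37 k53 3 (.d k38 k39 k55 0 4))))))), (.s k10 k5 2 (.s k22 k41 6 (.s k30 k45 4 (.s k26
  k18 1 (.s k42 k58 3 (.s k62 k2 5 (.d k63 k61 k21 0 6))))))), (.s k20 k40 5 (.s k41 k22 6 (.s k52
  k36 3 (.s k45 k30 4 (.s k33 k37 1 (.d k48 k18 k56 4 1))))))] (.c k22 (.f k20 k40 5 (.l (.s k5 k10
  2 (.s k52 k36 3 (.s k48 k56 1 (.s k32 k16 3 (.s k37 k26 6 (.s k21 k53 3 (.d k42 k47 k63 2
  6))))))))) (.c k37 (.l (.s k10 k5 2 (.s k20 k40 5 (.s k22 k41 6 (.s k21 k23 0 (.s k42 k63 6 (.s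
  k26 k58 3 (.d k30 k45 k18 4 1)))))))) (.c k41 (.f k20 k40 5 (.l (.s k10 k5 2 (.s k52 k36 3 (.s k48
  k56 1 (.s k26 k37 6 (.s k42 k58 3 (.s k21 k63 6 (.d k16 k32 k31 3 2))))))))) .n)))) .n)))))) (.c
  k10 (.q k21 [(.s k7 k11 1 (.s k55 k38 4 (.s k23 k39 3 (.d k63 k43 k42 5 6)))), (.s k42 k63 6 (.s
  k7 k11 1 (.s k5 k6 0 (.s k37 k53 3 (.s k48 k26 6 (.d k32 k47 k16 2 3)))))), (.s k63 k42 6 (.s k23
  k43 5 (.s k55 k38 4 (.s k39 k7 3 (.d k51 k59 k27 1 5))))), (.s k7 k11 1 (.s k5 k6 0 (.s k38 k55 4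
  (.s k37 k53 3 (.s k52 k22 4 (.d k36 k39 k20 0 3))))))] (.c k7 (.l (.s k63 k42 6 (.s k23 k43 5 (.s
  k55 k38 4 (.s k31 k47 3 (.s k19 k27 1 (.d k51 k59 k35 1 3))))))) (.c k93 (.q k174 [(.s k7 k11 1
  (.s k55 k38 4 (.s k23 k39 3 (.d k63 k43 k42 5 6)))), (.s k42 k63 6 (.s k7 k11 1 (.s k5 k6 0 (.s
  k37 k53 3 (.s k48 k26 6 (.d k32 k47 k16 2 3)))))), (.s k63 k42 6 (.s k23 k43 5 (.s k55 k38 4 (.s
  k39 k7 3 (.d k51 k59 k27 1 5))))), (.s k7 k11 1 (.s k5 k6 0 (.s k38 k55 4 (.s k37 k53 3 (.s k52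
  k22 4 (.d k36 k39 k20 0 3))))))] (.c k7 (.l (.s k63 k42 6 (.s k23 k43 5 (.s k55 k38 4 (.s k31 k47
  3 (.s k19 k27 1 (.d k51 k59 k35 1 3))))))) .n)) (.c k174 (.q k93 [(.s k7 k11 1 (.s k55 k38 4 (.s
  k23 k39 3 (.d k63 k43 k42 5 6)))), (.s k42 k63 6 (.s k7 k11 1 (.s k5 k6 0 (.s k37 k53 3 (.s k48
  k26 6 (.d k32 k47 k16 2 3)))))), (.s k63 k42 6 (.s k23 k43 5 (.s k55 k38 4 (.s k39 k7 3 (.d k51
  k59 k27 1 5))))), (.s k7 k11 1 (.s k5 k6 0 (.s k38 k55 4 (.s k37 k53 3 (.s k52 k22 4 (.d k36 k39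
  k20 0 3))))))] (.c k7 (.l (.s k63 k42 6 (.s k23 k43 5 (.s k55 k38 4 (.s k31 k47 3 (.s k19 k27 1
  (.d k51 k59 k35 1 3))))))) .n)) .n)))) (.c k11 (.q k21 [(.s k63 k42 6 (.s k23 k43 5 (.s k55 k38 4
  (.s k39 k7 3 (.d k51 k59 k27 1 5))))), (.s k10 k5 2 (.s k42 k63 6 (.s k26 k58 3 (.s k48 k37 6 (.d
  k16 k31 k32 2 3))))), (.s k5 k10 2 (.s k6 k7 0 (.s k38 k55 4 (.s k22 k54 3 (.s k60 k41 6 (.d k20
  k23 k40 0 5))))))] (.c k93 (.q k174 [(.s k63 k42 6 (.s k23 k43 5 (.s k55 k38 4 (.s k39 k7 3 (.d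
  k51 k59 k27 1 5))))), (.s k10 k5 2 (.s k42 k63 6 (.s k26 k58 3 (.s k48 k37 6 (.d k16 k31 k32 2
  3))))), (.s k5 k10 2 (.s k6 k7 0 (.s k38 k55 4 (.s k22 k54 3 (.s k60 k41 6 (.d k20 k23 k40 0
  5))))))] .n) (.c k174 (.q k93 [(.s k63 k42 6 (.s k23 k43 5 (.s k55 k38 4 (.s k39 k7 3 (.d k51 k59
  k27 1 5))))), (.s k10 k5 2 (.s k42 k63 6 (.s k26 k58 3 (.s k48 k37 6 (.d k16 k31 k32 2 3))))), (.s
  k5 k10 2 (.s k6 k7 0 (.s k38 k55 4 (.s k22 k54 3 (.s k60 k41 6 (.d k20 k23 k40 0 5))))))] .n)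
  .n))) (.c k93 (.q k174 [(.s k5 k10 2 (.d k7 k6 k11 0 1))] (.c k5 (.f k11 k7 1 (.q k252 [(.s k84
  k168 13 (.s k169 k86 14 (.s k248 k90 12 (.d k244 k240 k164 1 11)))), (.s k168 k84 13 (.s k169 k86
  14 (.s k170 k171 0 (.s k166 k162 1 (.s k172 k163 2 (.d k173 k175 k94 0 12)))))), (.s k169 k86 14
  (.s k90 k248 12 (.s k165 k240 14 (.d k173 k161 k94 1 12)))), (.s k84 k168 13 (.s k244 k164 11 (.s
  k173 k94 12 (.s k240 k248 1 (.s k160 k80 11 (.s k175 k172 0 (.d k165 k170 k90 2 14)))))))] (.c k9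
  (.q k13 [(.s k84 k168 13 (.s k169 k86 14 (.s k248 k90 12 (.d k244 k240 k164 1 11)))), (.s k168 k84
  13 (.s k169 k86 14 (.s k170 k171 0 (.s k166 k162 1 (.s k172 k163 2 (.d k173 k175 k94 0 12)))))),
  (.s k169 k86 14 (.s k90 k248 12 (.s k165 k240 14 (.d k173 k161 k94 1 12)))), (.s k84 k168 13 (.s
  k244 k164 11 (.s k173 k94 12 (.s k240 k248 1 (.s k160 k80 11 (.s k175 k172 0 (.d k165 k170 k90 2
  14)))))))] (.c k94 (.l (.s k84 k168 13 (.s k169 k86 14 (.s k244 k164 11 (.d k248 k240 k90 1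
  12))))) (.c k165 (.l (.s k84 k168 13 (.s k169 k86 14 (.s k244 k164 11 (.d k248 k240 k90 1 12)))))
  (.c k244 (.l (.s k173 k94 12 (.s k169 k86 14 (.s k165 k161 1 (.d k90 k248 k240 12 14))))) .n))))
  (.c k13 (.q k9 [(.s k84 k168 13 (.s k169 k86 14 (.s k248 k90 12 (.d k244 k240 k164 1 11)))), (.s
  k168 k84 13 (.s k169 k86 14 (.s k8 k10 0 (.s k89 k249 11 (.d k170 k171 k251 0 12))))), (.s k169
  k86 14 (.s k90 k248 12 (.s k165 k240 14 (.d k173 k161 k94 1 12)))), (.s k168 k84 13 (.s k8 k10 0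
  (.s k248 k88 11 (.d k169 k90 k86 12 14))))] (.c k86 (.l (.s k168 k84 13 (.s k8 k10 0 (.s k248 k88
  11 (.s k90 k169 12 (.d k240 k244 k165 1 14)))))) (.c k169 (.l (.s k84 k168 13 (.s k244 k164 11 (.s
  k173 k94 12 (.s k240 k248 1 (.s k160 k80 11 (.s k165 k90 14 (.d k175 k172 k170 0 2)))))))) (.c
  k173 (.q k253 [(.s k84 k168 13 (.s k169 k86 14 (.s k248 k90 12 (.d k244 k240 k164 1 11)))), (.s
  k168 k84 13 (.s k169 k86 14 (.s k8 k10 0 (.s k89 k249 11 (.d k170 k171 k251 0 12))))), (.s k169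
  k86 14 (.s k8 k10 0 (.s k89 k249 11 (.s k251 k170 12 (.s k90 k248 12 (.d k91 k88 k171 0 11)))))),
  (.s k168 k84 13 (.s k8 k10 0 (.s k248 k88 11 (.d k169 k90 k86 12 14))))] (.c k86 (.l (.s k168 k84
  13 (.s k8 k10 0 (.s k248 k88 11 (.s k90 k169 12 (.d k240 k165 k244 14 1)))))) (.c k169 (.f k84
  k168 13 (.l (.s k244 k164 11 (.s k240 k248 1 (.s k160 k80 11 (.s k161 k82 12 (.s k165 k90 14 (.s
  k162 k163 0 (.d k170 k166 k175 1 2))))))))) .n))) (.c k253 (.l (.s k173 k94 12 (.s k169 k86 14 (.s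
  k90 k248 12 (.d k165 k161 k240 1 14))))) .n))))) (.c k94 (.l (.s k84 k168 13 (.s k169 k86 14 (.s
  k244 k164 11 (.d k248 k240 k90 1 12))))) (.c k165 (.l (.s k84 k168 13 (.s k169 k86 14 (.s k244
  k164 11 (.d k248 k240 k90 1 12))))) (.c k244 (.l (.s k173 k94 12 (.s k169 k86 14 (.s k165 k161 1
  (.d k90 k248 k240 12 14))))) .n))))))) (.c k6 (.q k252 [(.s k84 k168 13 (.s k7 k11 1 (.s k244 k164
  11 (.d k86 k165 k169 12 14)))), (.s k10 k5 2 (.s k86 k169 14 (.s k94 k173 12 (.s k254 k14 11 (.s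
  k170 k2 13 (.d k90 k82 k250 1 11)))))), (.s k84 k168 13 (.s k244 k164 11 (.s k173 k94 12 (.s k240
  k248 1 (.s k160 k80 11 (.s k175 k172 0 (.d k165 k170 k90 2 14)))))))] (.c k165 (.l (.s k84 k168 13
  (.s k11 k7 1 (.s k169 k86 14 (.s k244 k164 11 (.d k248 k240 k90 1 12)))))) .n)) (.c k7 (.q k60
  [(.s k5 k10 2 (.s k20 k40 5 (.s k22 k41 6 (.s k36 k52 3 (.s k21 k23 0 (.s k37 k53 3 (.d k38 k39
  k55 0 4))))))), (.s k10 k5 2 (.s k22 k41 6 (.s k30 k45 4 (.s k26 k18 1 (.s k42 k58 3 (.s k62 k2 5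
  (.d k63 k61 k21 0 6))))))), (.s k20 k40 5 (.s k41 k22 6 (.s k52 k36 3 (.s k45 k30 4 (.s k33 k37 1
  (.d k48 k18 k56 4 1))))))] (.c k22 (.f k20 k40 5 (.l (.s k5 k10 2 (.s k52 k36 3 (.s k48 k56 1 (.s
  k32 k16 3 (.s k37 k26 6 (.s k21 k53 3 (.d k42 k47 k63 2 6))))))))) (.c k37 (.l (.s k10 k5 2 (.s
  k20 k40 5 (.s k22 k41 6 (.s k21 k23 0 (.s k42 k63 6 (.s k26 k58 3 (.d k30 k45 k18 4 1)))))))) (.c
  k41 (.f k20 k40 5 (.l (.s k10 k5 2 (.s k52 k36 3 (.s k48 k56 1 (.s k26 k37 6 (.s k42 k58 3 (.s k21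
  k63 6 (.d k16 k32 k31 3 2))))))))) .n)))) (.c k10 (.q k252 [(.s k84 k168 13 (.s k7 k11 1 (.s k244
  k164 11 (.d k86 k165 k169 12 14)))), (.s k11 k7 1 (.s k173 k94 12 (.s k169 k86 14 (.s k165 k161 1
  (.d k90 k248 k240 12 14))))), (.s k84 k168 13 (.s k244 k164 11 (.s k173 k94 12 (.s k240 k248 1 (.s
  k160 k80 11 (.s k175 k172 0 (.d k165 k170 k90 2 14)))))))] (.c k165 (.l (.s k84 k168 13 (.s k11 k7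
  1 (.s k169 k86 14 (.s k244 k164 11 (.d k248 k240 k90 1 12)))))) (.c k240 (.l (.s k84 k168 13 (.s
  k7 k11 1 (.s k86 k169 14 (.d k244 k164 k165 11 12))))) (.c k244 (.l (.s k11 k7 1 (.s k173 k94 12
  (.s k169 k86 14 (.s k165 k161 1 (.d k90 k248 k240 12 14)))))) .n)))) (.c k11 (.q k252 [(.s k84
  k168 13 (.s k86 k169 14 (.s k244 k164 11 (.s k165 k7 12 (.d k240 k248 k90 1 14))))), (.s k10 k5 2
  (.s k86 k169 14 (.s k94 k173 12 (.s k254 k14 11 (.s k170 k2 13 (.d k90 k82 k250 1 11)))))), (.s k5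
  k10 2 (.s k84 k168 13 (.s k7 k6 0 (.s k244 k164 11 (.d k86 k165 k169 12 14)))))] (.c k86 (.l (.s
  k84 k168 13 (.s k244 k164 11 (.s k173 k94 12 (.s k240 k248 1 (.s k160 k80 11 (.s k175 k172 0 (.d
  k165 k90 k170 14 2)))))))) (.c k165 (.l (.s k5 k10 2 (.s k84 k168 13 (.s k86 k169 14 (.s k6 k7 0
  (.s k166 k246 11 (.d k85 k87 k247 0 12))))))) (.c k169 (.l (.s k5 k10 2 (.s k84 k168 13 (.s k7 k6
  0 (.s k244 k164 11 (.s k165 k86 12 (.d k240 k248 k90 1 14))))))) .n)))) .n)))))) (.c k174 (.q k93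
  [(.s k5 k10 2 (.d k7 k6 k11 0 1))] (.c k5 (.f k11 k7 1 (.q k252 [(.s k84 k168 13 (.s k169 k86 14
  (.s k248 k90 12 (.d k244 k240 k164 1 11)))), (.s k84 k168 13 (.s k86 k169 14 (.s k94 k173 12 (.s
  k85 k87 0 (.s k89 k81 1 (.d k92 k95 k83 0 2)))))), (.s k84 k168 13 (.s k244 k164 11 (.s k94 k173
  12 (.s k92 k95 0 (.s k80 k88 1 (.d k240 k248 k160 1 11)))))), (.s k169 k86 14 (.s k90 k248 12 (.s
  k165 k240 14 (.d k173 k161 k94 1 12))))] (.c k9 (.q k13 [(.d k173 k253 k94 11 12), (.s k84 k168 13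
  (.s k169 k86 14 (.s k244 k164 11 (.d k248 k240 k90 1 12))))] .n) (.c k13 (.q k9 [(.s k84 k168 13
  (.s k169 k86 14 (.s k248 k90 12 (.d k244 k240 k164 1 11)))), (.s k168 k84 13 (.s k169 k86 14 (.s
  k8 k10 0 (.s k89 k249 11 (.d k170 k171 k251 0 12))))), (.s k84 k168 13 (.s k244 k164 11 (.s k94
  k173 12 (.s k92 k95 0 (.s k80 k88 1 (.d k240 k248 k160 1 11)))))), (.s k169 k86 14 (.s k90 k248 12
  (.s k165 k240 14 (.d k173 k161 k94 1 12))))] (.c k244 (.l (.s k168 k84 13 (.s k8 k10 0 (.s k248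
  k88 11 (.d k169 k90 k86 12 14))))) .n)) (.c k94 (.l (.s k84 k168 13 (.s k169 k86 14 (.s k244 k164
  11 (.d k248 k240 k90 1 12))))) .n))))) (.c k6 (.q k252 [(.s k84 k168 13 (.s k7 k11 1 (.s k244 k164
  11 (.d k86 k165 k169 12 14)))), (.s k11 k7 1 (.s k173 k94 12 (.s k169 k86 14 (.s k165 k161 1 (.d
  k90 k248 k240 12 14))))), (.s k84 k168 13 (.s k244 k164 11 (.s k94 k173 12 (.s k92 k95 0 (.s k80
  k88 1 (.d k240 k248 k160 1 11))))))] (.c k240 (.l (.s k84 k168 13 (.s k7 k11 1 (.s k86 k169 14 (.d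
  k244 k164 k165 11 12))))) (.c k244 (.l (.s k11 k7 1 (.s k173 k94 12 (.s k169 k86 14 (.s k165 k161
  1 (.d k90 k248 k240 12 14)))))) .n))) (.c k7 (.q k252 [(.s k84 k168 13 (.s k244 k164 11 (.s k94
  k173 12 (.s k92 k95 0 (.s k80 k88 1 (.d k240 k248 k160 1 11)))))), (.s k5 k10 2 (.s k84 k168 13
  (.s k86 k169 14 (.s k164 k244 11 (.s k85 k87 0 (.s k165 k245 11 (.d k166 k167 k247 0 12))))))),
  (.s k84 k168 13 (.s k86 k169 14 (.s k94 k173 12 (.s k85 k87 0 (.s k89 k81 1 (.d k92 k95 k83 0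
  2)))))), (.s k5 k10 2 (.s k86 k169 14 (.s k94 k173 12 (.s k90 k82 1 (.s k165 k240 14 (.s k95 k92 0
  (.d k85 k245 k80 11 2)))))))] .n) (.c k10 (.q k252 [(.s k84 k168 13 (.s k7 k11 1 (.s k244 k164 11
  (.d k86 k165 k169 12 14)))), (.s k11 k7 1 (.s k173 k94 12 (.s k169 k86 14 (.s k165 k161 1 (.d k90
  k248 k240 12 14))))), (.s k84 k168 13 (.s k244 k164 11 (.s k94 k173 12 (.s k92 k95 0 (.s k80 k88 1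
  (.d k240 k248 k160 1 11))))))] (.c k240 (.l (.s k84 k168 13 (.s k7 k11 1 (.s k86 k169 14 (.d k244
  k164 k165 11 12))))) (.c k244 (.l (.s k11 k7 1 (.s k173 k94 12 (.s k169 k86 14 (.s k165 k161 1 (.d
  k90 k248 k240 12 14)))))) .n))) (.c k11 (.q k252 [(.s k84 k168 13 (.s k244 k164 11 (.s k94 k173 12
  (.s k92 k95 0 (.s k80 k88 1 (.d k240 k248 k160 1 11)))))), (.s k5 k10 2 (.s k84 k168 13 (.s k86
  k169 14 (.s k6 k7 0 (.s k166 k246 11 (.d k85 k87 k247 0 12)))))), (.s k5 k10 2 (.s k86 k169 14 (.s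
  k7 k6 0 (.s k165 k244 12 (.s k90 k240 14 (.d k94 k82 k173 1 12))))))] (.c k8 (.l (.s k84 k168 13
  (.s k86 k169 14 (.s k244 k164 11 (.s k7 k165 12 (.d k5 k6 k10 0 2)))))) (.c k248 (.l (.s k5 k10 2
  (.s k84 k168 13 (.s k7 k6 0 (.s k244 k164 11 (.d k86 k165 k169 12 14)))))) .n))) .n))))))
  .n))))))))

def t1_13 : T TT 256 :=
  (.q k5 [(.s k12 k8 1 (.d k6 k7 k9 0 2)), (.s k15 k10 2 (.d k7 k6 k11 0 1))] (.c k6 (.q k21 [(.s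
  k12 k8 1 (.s k63 k42 6 (.s k38 k55 4 (.s k25 k51 6 (.d k29 k17 k46 1 4))))), (.s k15 k10 2 (.s k42
  k63 6 (.s k37 k53 3 (.s k48 k26 6 (.d k32 k47 k16 2 3))))), (.s k12 k8 1 (.s k15 k10 2 (.s k38 k55
  4 (.s k37 k53 3 (.s k36 k39 0 (.d k48 k24 k26 5 6))))))] .n) (.c k7 (.q k21 [(.s k15 k10 2 (.s k42
  k63 6 (.s k37 k53 3 (.s k48 k26 6 (.d k32 k47 k16 2 3))))), (.s k12 k8 1 (.s k63 k42 6 (.s k29 k46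
  4 (.s k25 k17 1 (.d k38 k55 k51 4 6))))), (.s k12 k8 1 (.s k15 k10 2 (.s k38 k55 4 (.s k37 k53 3
  (.s k39 k36 0 (.d k51 k27 k25 5 6))))))] .n) .n)))

def t1_14 : T TT 256 :=
  (.q k60 [(.s k12 k8 1 (.s k20 k40 5 (.s k36 k52 3 (.s k28 k44 3 (.d k24 k16 k48 1 5))))), (.s k12
  k8 1 (.s k6 k9 2 (.s k22 k41 6 (.s k38 k54 3 (.s k25 k51 6 (.d k28 k19 k44 2 3)))))), (.s k20 k40
  5 (.s k22 k41 6 (.s k52 k36 3 (.s k7 k37 4 (.s k15 k11 1 (.d k5 k6 k10 0 2))))))] (.c k44 (.l (.s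
  k12 k8 1 (.s k20 k40 5 (.s k6 k9 2 (.s k22 k41 6 (.s k38 k54 3 (.d k21 k23 k55 0 4))))))) .n))

def t1_15 : T TT 256 :=
  (.f k12 k8 1 (.f k9 k6 2 (.q k60 [(.s k20 k40 5 (.s k36 k52 3 (.s k28 k44 3 (.d k24 k16 k48 1
  5)))), (.s k41 k22 6 (.s k25 k57 3 (.s k38 k51 6 (.d k44 k35 k28 2 3)))), (.s k40 k20 5 (.s k41
  k22 6 (.s k25 k57 3 (.s k38 k51 6 (.s k21 k55 4 (.d k42 k63 k43 6 0))))))] (.c k95 (.q k175 [(.s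
  k20 k40 5 (.s k36 k52 3 (.s k28 k44 3 (.d k24 k16 k48 1 5)))), (.s k41 k22 6 (.s k25 k57 3 (.s k38
  k51 6 (.d k44 k35 k28 2 3)))), (.s k40 k20 5 (.s k41 k22 6 (.s k25 k57 3 (.s k38 k51 6 (.s k21 k55
  4 (.d k42 k63 k43 6 0))))))] .n) (.c k175 (.q k95 [(.s k20 k40 5 (.s k36 k52 3 (.s k28 k44 3 (.d
  k24 k16 k48 1 5)))), (.s k41 k22 6 (.s k25 k57 3 (.s k38 k51 6 (.d k44 k35 k28 2 3)))), (.s k40
  k20 5 (.s k41 k22 6 (.s k25 k57 3 (.s k38 k51 6 (.s k21 k55 4 (.d k42 k63 k43 6 0))))))] .n)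
  .n)))))

def t1_16 : T TT 256 :=
  (.q k22 [(.s k12 k8 1 (.s k9 k6 2 (.s k41 k60 6 (.s k25 k57 3 (.s k51 k38 6 (.d k19 k28 k35 2
  3)))))), (.s k60 k41 6 (.s k20 k40 5 (.s k52 k36 3 (.s k7 k37 4 (.s k15 k11 1 (.d k5 k6 k10 0
  2)))))), (.s k12 k8 1 (.s k6 k9 2 (.s k38 k54 3 (.s k21 k55 4 (.s k63 k42 6 (.d k23 k20 k43 0
  5))))))] (.c k6 (.l (.s k12 k8 1 (.s k60 k41 6 (.s k20 k40 5 (.s k28 k44 3 (.s k25 k19 2 (.s k38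
  k51 6 (.d k21 k23 k55 0 4)))))))) (.c k38 (.l (.s k12 k8 1 (.s k6 k9 2 (.s k60 k41 6 (.s k20 k40 5
  (.s k52 k36 3 (.d k7 k5 k37 0 4))))))) .n)))

def t1_17 : T TT 256 :=
  (.q k22 [(.s k12 k8 1 (.s k9 k6 2 (.s k41 k60 6 (.s k25 k57 3 (.s k51 k38 6 (.d k19 k28 k35 2
  3)))))), (.s k60 k41 6 (.s k20 k40 5 (.s k52 k36 3 (.s k7 k37 4 (.s k15 k11 1 (.d k5 k6 k10 0
  2)))))), (.s k12 k8 1 (.s k60 k41 6 (.s k20 k40 5 (.s k36 k52 3 (.s k24 k48 5 (.d k28 k16 k44 1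
  3)))))), (.s k12 k8 1 (.s k6 k9 2 (.s k38 k54 3 (.s k21 k55 4 (.s k63 k42 6 (.d k23 k20 k43 0
  5))))))] (.c k33 (.q k49 [(.s k12 k8 1 (.s k9 k6 2 (.s k41 k60 6 (.s k25 k57 3 (.s k51 k38 6 (.d
  k19 k28 k35 2 3)))))), (.s k12 k8 1 (.s k60 k41 6 (.s k20 k40 5 (.s k36 k52 3 (.s k24 k48 5 (.d
  k28 k16 k44 1 3)))))), (.s k60 k41 6 (.s k20 k40 5 (.s k52 k36 3 (.s k37 k7 4 (.s k21 k23 0 (.s
  k55 k38 4 (.d k53 k54 k5 0 3))))))), (.s k12 k8 1 (.s k6 k9 2 (.s k38 k54 3 (.s k21 k55 4 (.s k63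
  k42 6 (.d k23 k20 k43 0 5))))))] .n) (.c k49 (.q k33 [(.s k48 k18 4 (.s k60 k41 6 (.s k20 k40 5
  (.d k52 k56 k36 1 3)))), (.s k12 k8 1 (.s k6 k9 2 (.s k41 k60 6 (.s k37 k45 1 (.d k7 k5 k52 0
  4))))), (.s k12 k8 1 (.s k6 k9 2 (.s k48 k18 4 (.s k36 k24 5 (.s k52 k20 3 (.d k7 k5 k37 0
  4))))))] (.c k52 (.l (.s k12 k8 1 (.s k6 k9 2 (.s k41 k60 6 (.s k38 k54 3 (.s k51 k25 6 (.d k35
  k44 k19 2 3))))))) .n)) .n)))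

def t1_18 : T TT 256 :=
  (.q k22 [(.s k12 k8 1 (.s k9 k6 2 (.s k41 k60 6 (.s k25 k57 3 (.s k51 k38 6 (.d k19 k28 k35 2
  3)))))), (.s k60 k41 6 (.s k20 k40 5 (.s k52 k36 3 (.s k7 k37 4 (.s k15 k11 1 (.d k5 k6 k10 0
  2)))))), (.s k12 k8 1 (.s k60 k41 6 (.s k20 k40 5 (.s k36 k52 3 (.s k24 k48 5 (.d k28 k16 k44 1
  3)))))), (.s k12 k8 1 (.s k6 k9 2 (.s k38 k54 3 (.s k21 k55 4 (.s k63 k42 6 (.d k23 k20 k43 0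
  5))))))] .n)

def t1_19 : T TT 256 :=
  (.q k5 [(.s k12 k8 1 (.d k6 k7 k9 0 2)), (.s k15 k10 2 (.d k7 k6 k11 0 1))] (.c k6 (.q k21 [(.s
  k12 k8 1 (.s k42 k63 6 (.s k38 k55 4 (.s k34 k46 1 (.d k51 k17 k25 4 6))))), (.s k15 k10 2 (.s k42
  k63 6 (.s k37 k53 3 (.s k48 k26 6 (.d k32 k47 k16 2 3))))), (.s k12 k8 1 (.s k15 k10 2 (.s k38 k55
  4 (.s k37 k53 3 (.s k14 k13 0 (.d k26 k50 k48 5 6))))))] .n) (.c k7 (.q k21 [(.s k15 k10 2 (.s k42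
  k63 6 (.s k37 k53 3 (.s k48 k26 6 (.d k32 k47 k16 2 3))))), (.s k12 k8 1 (.s k63 k42 6 (.s k38 k55
  4 (.s k25 k51 6 (.d k29 k17 k46 1 4))))), (.s k12 k8 1 (.s k15 k10 2 (.s k38 k55 4 (.s k37 k53 3
  (.s k13 k14 0 (.d k25 k49 k51 5 6))))))] .n) .n)))

def t1_20 : T TT 256 :=
  (.f k12 k8 1 (.q k21 [(.s k42 k63 6 (.s k38 k55 4 (.s k51 k25 6 (.d k34 k46 k17 1 4)))), (.s k42
  k63 6 (.s k6 k9 2 (.s k5 k7 0 (.s k37 k53 3 (.s k32 k47 2 (.s k48 k16 3 (.d k15 k10 k26 2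
  6))))))), (.s k6 k9 2 (.s k38 k55 4 (.s k22 k54 3 (.s k41 k60 6 (.s k35 k44 2 (.d k51 k19 k25 3
  6))))))] .n))

def t1_21 : T TT 256 :=
  (.f k12 k8 1 (.q k70 [(.s k9 k6 2 (.s k137 k204 10 (.s k73 k201 7 (.s k195 k134 10 (.d k67 k76
  k131 2 7))))), (.s k204 k137 10 (.s k68 k136 9 (.s k132 k196 7 (.s k72 k192 9 (.d k76 k64 k140 1
  7))))), (.s k6 k9 2 (.s k134 k198 7 (.s k69 k199 8 (.s k207 k138 10 (.d k71 k68 k139 0 9)))))] (.c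
  k41 (.q k61 [(.s k9 k6 2 (.s k137 k204 10 (.s k73 k201 7 (.s k195 k134 10 (.d k67 k76 k131 2
  7))))), (.s k204 k137 10 (.s k68 k136 9 (.s k132 k196 7 (.s k72 k192 9 (.d k76 k64 k140 1 7))))),
  (.s k6 k9 2 (.s k134 k198 7 (.s k69 k199 8 (.s k207 k138 10 (.d k71 k68 k139 0 9)))))] .n) (.c k61
  (.q k41 [(.s k60 k22 6 (.s k20 k40 5 (.s k36 k52 3 (.s k24 k48 5 (.d k28 k16 k44 1 3))))), (.s k6
  k9 2 (.s k137 k204 10 (.s k134 k198 7 (.s k195 k73 10 (.d k131 k140 k67 2 7)))))] .n) .n))))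

def t1_22 : T TT 256 :=
  (.q k21 [(.s k12 k8 1 (.s k42 k63 6 (.s k38 k55 4 (.s k34 k46 1 (.d k51 k17 k25 4 6))))), (.s k63
  k42 6 (.s k23 k43 5 (.s k55 k38 4 (.s k7 k39 3 (.s k15 k11 1 (.d k5 k6 k10 0 2))))))] (.c k34 (.l
  (.s k12 k8 1 (.s k63 k42 6 (.s k38 k55 4 (.s k25 k51 6 (.d k29 k46 k17 4 1)))))) (.c k38 (.q k6
  [(.d k12 k8 k9 1 2), (.s k42 k63 6 (.s k5 k7 0 (.s k15 k10 2 (.s k37 k53 3 (.s k48 k26 6 (.d k32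
  k47 k16 2 3))))))] .n) (.c k42 (.q k5 [(.s k12 k8 1 (.d k6 k7 k9 0 2)), (.s k15 k10 2 (.d k7 k6
  k11 0 1)), (.s k12 k8 1 (.s k15 k10 2 (.s k38 k55 4 (.s k37 k53 3 (.s k14 k13 0 (.d k26 k50 k48 5
  6))))))] (.c k2 (.q k62 [(.s k12 k8 1 (.d k6 k7 k9 0 2)), (.s k15 k10 2 (.d k7 k6 k11 0 1))] (.c
  k6 (.l (.s k12 k8 1 (.s k15 k10 2 (.s k14 k13 0 (.s k38 k55 4 (.s k37 k53 3 (.d k26 k50 k48 5
  6))))))) (.c k7 (.l (.s k12 k8 1 (.s k15 k10 2 (.s k38 k55 4 (.s k37 k53 3 (.s k14 k13 0 (.d k26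
  k50 k48 5 6))))))) .n))) (.c k62 (.q k2 [(.s k12 k8 1 (.d k6 k7 k9 0 2)), (.s k10 k15 2 (.d k6 k7
  k14 0 1)), (.s k12 k8 1 (.s k15 k10 2 (.s k38 k55 4 (.s k37 k53 3 (.s k13 k14 0 (.d k25 k49 k51 5
  6))))))] .n) .n))) (.c k46 (.q k6 [(.d k12 k8 k9 1 2), (.s k63 k42 6 (.s k23 k43 5 (.s k7 k5 0 (.d
  k55 k38 k39 4 3))))] (.c k9 (.l (.s k42 k63 6 (.s k5 k7 0 (.s k10 k15 2 (.s k14 k2 1 (.s k38 k55 4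
  (.d k26 k58 k50 3 5))))))) .n)) (.c k55 (.q k6 [(.d k12 k8 k9 1 2), (.s k42 k63 6 (.s k5 k7 0 (.s
  k15 k10 2 (.s k37 k53 3 (.s k48 k26 6 (.d k32 k47 k16 2 3))))))] .n) (.c k59 (.l (.s k12 k8 1 (.s
  k42 k63 6 (.s k38 k55 4 (.s k51 k25 6 (.d k34 k46 k17 1 4)))))) (.c k63 (.q k5 [(.s k12 k8 1 (.d
  k6 k7 k9 0 2)), (.s k15 k10 2 (.d k7 k6 k11 0 1)), (.s k12 k8 1 (.s k15 k10 2 (.s k38 k55 4 (.s
  k37 k53 3 (.s k14 k13 0 (.d k26 k48 k50 6 5))))))] (.c k127 (.q k191 [(.s k12 k8 1 (.d k6 k7 k9 0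
  2)), (.s k15 k10 2 (.d k7 k6 k11 0 1)), (.s k12 k8 1 (.s k15 k10 2 (.s k38 k55 4 (.s k37 k53 3 (.s
  k14 k13 0 (.d k26 k48 k50 6 5))))))] .n) (.c k191 (.q k127 [(.s k12 k8 1 (.d k6 k7 k9 0 2)), (.s
  k15 k10 2 (.d k7 k6 k11 0 1)), (.s k12 k8 1 (.s k15 k10 2 (.s k38 k55 4 (.s k37 k53 3 (.s k14 k13
  0 (.d k26 k48 k50 6 5))))))] .n) .n))) .n))))))))

def t1_23 : T TT 256 :=
  (.q k22 [(.s k12 k8 1 (.s k9 k6 2 (.s k41 k60 6 (.s k25 k57 3 (.s k51 k38 6 (.d k19 k28 k35 2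
  3)))))), (.s k60 k41 6 (.s k20 k40 5 (.s k52 k36 3 (.s k7 k37 4 (.s k15 k11 1 (.d k5 k6 k10 0
  2)))))), (.s k12 k8 1 (.s k60 k41 6 (.s k20 k40 5 (.s k36 k52 3 (.s k24 k48 5 (.d k28 k16 k44 1
  3)))))), (.s k12 k8 1 (.s k6 k9 2 (.s k38 k54 3 (.s k21 k55 4 (.s k42 k63 6 (.s k34 k46 1 (.d k51
  k17 k25 4 6)))))))] .n)

def t1_24 : T TT 256 :=
  (.q k22 [(.s k12 k8 1 (.s k9 k6 2 (.s k41 k60 6 (.s k25 k57 3 (.s k51 k38 6 (.d k19 k28 k35 2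
  3)))))), (.s k60 k41 6 (.s k20 k40 5 (.s k52 k36 3 (.s k7 k37 4 (.s k15 k11 1 (.d k5 k6 k10 0
  2)))))), (.s k12 k8 1 (.s k6 k9 2 (.s k38 k54 3 (.s k21 k55 4 (.s k63 k42 6 (.d k23 k20 k43 0
  5))))))] (.c k6 (.l (.s k12 k8 1 (.s k60 k41 6 (.s k28 k44 3 (.s k25 k19 2 (.s k38 k51 6 (.s k21
  k55 4 (.d k20 k40 k23 5 0)))))))) (.c k8 (.q k20 [(.d k60 k40 k41 5 6), (.s k52 k36 3 (.s k7 k37 4
  (.s k15 k11 1 (.d k5 k10 k6 2 0))))] (.c k40 (.q k56 [(.s k52 k36 3 (.d k60 k48 k41 1 6)), (.s k21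
  k23 0 (.s k38 k55 4 (.s k6 k54 3 (.s k7 k5 0 (.d k52 k36 k37 3 4))))), (.s k41 k60 6 (.s k11 k26 4
  (.s k7 k15 1 (.s k6 k5 0 (.s k38 k54 3 (.d k21 k23 k55 0 4))))))] .n) (.c k56 (.l (.s k40 k60 5
  (.s k52 k36 3 (.s k7 k37 4 (.s k15 k11 1 (.d k5 k10 k6 2 0)))))) .n))) (.c k12 (.l (.s k60 k41 6
  (.s k20 k40 5 (.s k21 k23 0 (.s k38 k55 4 (.s k6 k54 3 (.s k7 k5 0 (.d k52 k36 k37 3 4)))))))) (.c
  k38 (.l (.s k60 k41 6 (.s k20 k40 5 (.s k52 k36 3 (.s k12 k8 1 (.s k56 k48 1 (.s k6 k9 2 (.d k7 k5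
  k37 0 4)))))))) (.c k40 (.q k56 [(.s k12 k8 1 (.s k9 k6 2 (.s k41 k60 6 (.s k25 k57 3 (.s k51 k38
  6 (.d k19 k28 k35 2 3)))))), (.s k60 k41 6 (.s k52 k48 1 (.s k7 k37 4 (.s k15 k11 1 (.d k5 k6 k10
  0 2))))), (.s k12 k8 1 (.s k6 k9 2 (.s k38 k54 3 (.s k21 k55 4 (.s k23 k20 0 (.d k63 k43 k42 5
  6))))))] (.c k6 (.l (.s k8 k12 1 (.s k41 k60 6 (.s k11 k26 4 (.s k15 k7 1 (.d k10 k9 k5 0 2))))))
  (.c k12 (.l (.s k60 k41 6 (.s k52 k48 1 (.s k36 k20 3 (.s k7 k37 4 (.s k15 k11 1 (.d k5 k6 k10 0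
  2))))))) .n))) (.c k56 (.l (.s k60 k41 6 (.s k12 k8 1 (.s k40 k20 5 (.s k6 k9 2 (.s k38 k54 3 (.s
  k25 k51 6 (.d k28 k19 k44 2 3)))))))) .n)))))))

def t1_25 : T TT 256 :=
  (.q k70 [(.s k12 k8 1 (.s k9 k6 2 (.s k137 k204 10 (.s k73 k201 7 (.s k195 k134 10 (.d k67 k76
  k131 2 7)))))), (.s k204 k137 10 (.s k68 k136 9 (.s k196 k132 7 (.s k7 k133 8 (.s k15 k11 1 (.d k5
  k6 k10 0 2)))))), (.s k12 k8 1 (.s k204 k137 10 (.s k68 k136 9 (.s k132 k196 7 (.s k72 k192 9 (.d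
  k76 k64 k140 1 7)))))), (.s k12 k8 1 (.s k6 k9 2 (.s k134 k198 7 (.s k69 k199 8 (.s k207 k138 10
  (.d k71 k68 k139 0 9))))))] .n)

def t1_26 : T TT 256 :=
  (.q k22 [(.s k12 k8 1 (.s k9 k6 2 (.s k41 k60 6 (.s k25 k57 3 (.s k51 k38 6 (.d k19 k28 k35 2
  3)))))), (.s k60 k41 6 (.s k20 k40 5 (.s k52 k36 3 (.s k7 k37 4 (.s k5 k6 0 (.d k15 k11 k10 1
  2)))))), (.s k12 k8 1 (.s k60 k41 6 (.s k20 k40 5 (.s k36 k52 3 (.s k24 k48 5 (.d k28 k16 k44 1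
  3)))))), (.s k12 k8 1 (.s k6 k9 2 (.s k38 k54 3 (.s k21 k55 4 (.s k63 k42 6 (.d k23 k20 k43 0
  5))))))] .n)

def t1_27 : T TT 256 :=
  (.q k70 [(.s k12 k8 1 (.s k9 k6 2 (.s k137 k204 10 (.s k73 k201 7 (.s k195 k134 10 (.d k67 k76
  k131 2 7)))))), (.s k204 k137 10 (.s k68 k136 9 (.s k196 k132 7 (.s k7 k133 8 (.s k15 k11 1 (.d k5
  k6 k10 0 2)))))), (.s k12 k8 1 (.s k204 k137 10 (.s k68 k136 9 (.s k132 k196 7 (.s k72 k192 9 (.d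
  k76 k64 k140 1 7)))))), (.s k12 k8 1 (.s k6 k9 2 (.s k134 k198 7 (.s k69 k199 8 (.s k207 k138 10
  (.d k71 k68 k139 0 9))))))] .n)

def t1_28 : T TT 256 :=
  (.q k22 [(.s k12 k8 1 (.s k60 k41 6 (.s k20 k40 5 (.s k21 k23 0 (.s k38 k55 4 (.d k6 k9 k54 2
  3)))))), (.s k12 k8 1 (.s k6 k9 2 (.s k41 k60 6 (.s k38 k54 3 (.s k35 k44 2 (.d k51 k19 k25 3
  6)))))), (.s k60 k41 6 (.s k20 k40 5 (.s k52 k36 3 (.s k37 k7 4 (.s k21 k23 0 (.s k55 k38 4 (.d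
  k53 k54 k5 0 3))))))), (.s k12 k8 1 (.s k6 k9 2 (.s k60 k41 6 (.s k20 k40 5 (.s k52 k36 3 (.d k7
  k5 k37 0 4)))))), (.s k12 k8 1 (.s k6 k9 2 (.s k38 k54 3 (.s k21 k55 4 (.s k63 k42 6 (.d k23 k20
  k43 0 5))))))] .n)

def t1_29 : T TT 256 :=
  (.q k70 [(.s k12 k8 1 (.s k9 k6 2 (.s k137 k204 10 (.s k73 k201 7 (.s k195 k134 10 (.d k67 k76
  k131 2 7)))))), (.s k204 k137 10 (.s k68 k136 9 (.s k196 k132 7 (.s k7 k133 8 (.s k15 k11 1 (.d k5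
  k6 k10 0 2)))))), (.s k12 k8 1 (.s k204 k137 10 (.s k68 k136 9 (.s k132 k196 7 (.s k72 k192 9 (.d
  k76 k64 k140 1 7)))))), (.s k12 k8 1 (.s k6 k9 2 (.s k134 k198 7 (.s k69 k199 8 (.s k207 k138 10
  (.d k71 k68 k139 0 9))))))] .n)

def t1_30 : T TT 256 :=
  (.q k22 [(.s k12 k8 1 (.s k9 k6 2 (.s k41 k60 6 (.s k25 k57 3 (.s k51 k38 6 (.d k19 k28 k35 2
  3)))))), (.s k12 k8 1 (.s k60 k41 6 (.s k20 k40 5 (.s k36 k52 3 (.s k24 k48 5 (.d k28 k16 k44 1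
  3)))))), (.s k60 k41 6 (.s k20 k40 5 (.s k52 k36 3 (.s k7 k37 4 (.s k15 k11 1 (.d k5 k6 k10 0
  2)))))), (.s k12 k8 1 (.s k6 k9 2 (.s k38 k54 3 (.s k21 k55 4 (.s k63 k42 6 (.d k23 k20 k43 0
  5))))))] .n)

def t1_31 : T TT 256 :=
  (.q k70 [(.s k12 k8 1 (.s k9 k6 2 (.s k137 k204 10 (.s k73 k201 7 (.s k195 k134 10 (.d k67 k76
  k131 2 7)))))), (.s k204 k137 10 (.s k68 k136 9 (.s k196 k132 7 (.s k7 k133 8 (.s k15 k11 1 (.d k5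
  k6 k10 0 2)))))), (.s k12 k8 1 (.s k204 k137 10 (.s k68 k136 9 (.s k132 k196 7 (.s k72 k192 9 (.d
  k76 k64 k140 1 7)))))), (.s k12 k8 1 (.s k6 k9 2 (.s k134 k198 7 (.s k69 k199 8 (.s k207 k138 10
  (.d k71 k68 k139 0 9))))))] .n)

def t1_32 : T TT 256 :=
  (.q k22 [(.s k12 k8 1 (.s k9 k6 2 (.s k41 k60 6 (.s k25 k57 3 (.s k51 k38 6 (.d k19 k28 k35 2
  3)))))), (.s k12 k8 1 (.s k60 k41 6 (.s k20 k40 5 (.s k36 k52 3 (.s k24 k48 5 (.d k28 k44 k16 3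
  1)))))), (.s k60 k41 6 (.s k20 k40 5 (.s k21 k23 0 (.s k38 k55 4 (.s k6 k54 3 (.s k7 k5 0 (.d k52
  k36 k37 3 4))))))), (.s k12 k8 1 (.s k6 k9 2 (.s k38 k54 3 (.s k21 k55 4 (.s k63 k42 6 (.d k23 k20
  k43 0 5))))))] .n)

def t1_33 : T TT 256 :=
  (.f k12 k8 1 (.q k70 [(.s k9 k6 2 (.s k137 k204 10 (.s k73 k201 7 (.s k195 k134 10 (.d k67 k76
  k131 2 7))))), (.s k204 k137 10 (.s k68 k136 9 (.s k132 k196 7 (.s k72 k192 9 (.d k76 k64 k140 1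
  7))))), (.s k6 k9 2 (.s k134 k198 7 (.s k69 k199 8 (.s k207 k138 10 (.d k71 k68 k139 0 9)))))] (.c
  k17 (.q k49 [(.s k9 k6 2 (.s k137 k204 10 (.s k73 k201 7 (.s k195 k134 10 (.d k67 k76 k131 2
  7))))), (.s k204 k137 10 (.s k68 k136 9 (.s k132 k196 7 (.s k72 k192 9 (.d k76 k64 k140 1 7))))),
  (.s k6 k9 2 (.s k134 k198 7 (.s k69 k199 8 (.s k207 k138 10 (.d k71 k68 k139 0 9)))))] .n) (.c k49
  (.q k17 [(.s k9 k6 2 (.s k137 k204 10 (.s k73 k201 7 (.s k195 k134 10 (.d k67 k76 k131 2 7))))),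
  (.s k204 k137 10 (.s k68 k136 9 (.s k132 k196 7 (.s k72 k192 9 (.d k76 k64 k140 1 7))))), (.s k6
  k9 2 (.s k134 k198 7 (.s k69 k199 8 (.s k207 k138 10 (.d k71 k68 k139 0 9)))))] .n) .n))))

def t1_34 : T TT 256 :=
  (.q k22 [(.s k12 k8 1 (.s k9 k6 2 (.s k41 k60 6 (.s k25 k57 3 (.s k51 k38 6 (.d k19 k28 k35 2
  3)))))), (.s k60 k41 6 (.s k20 k40 5 (.s k52 k36 3 (.s k7 k37 4 (.s k15 k11 1 (.d k5 k6 k10 0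
  2)))))), (.s k12 k8 1 (.s k60 k41 6 (.s k20 k40 5 (.s k36 k52 3 (.s k24 k48 5 (.d k28 k16 k44 1
  3)))))), (.s k12 k8 1 (.s k6 k9 2 (.s k38 k54 3 (.s k21 k55 4 (.s k63 k42 6 (.d k23 k20 k43 0
  5))))))] (.c k42 (.l (.s k12 k8 1 (.s k6 k9 2 (.s k41 k60 6 (.s k38 k54 3 (.s k35 k44 2 (.d k51
  k25 k19 6 3))))))) .n))

def t1_35 : T TT 256 :=
  (.q k22 [(.s k12 k8 1 (.s k6 k9 2 (.s k38 k54 3 (.s k25 k51 6 (.s k28 k19 2 (.d k60 k44 k41 3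
  6)))))), (.s k12 k8 1 (.s k60 k41 6 (.s k20 k40 5 (.s k36 k52 3 (.s k24 k48 5 (.d k28 k44 k16 3
  1)))))), (.s k12 k8 1 (.s k6 k9 2 (.s k38 k54 3 (.s k21 k55 4 (.s k63 k42 6 (.d k23 k20 k43 0
  5)))))), (.s k60 k41 6 (.s k20 k40 5 (.s k52 k36 3 (.s k7 k37 4 (.s k15 k11 1 (.d k5 k6 k10 0
  2))))))] (.c k38 (.l (.s k12 k8 1 (.s k6 k9 2 (.s k60 k41 6 (.s k44 k28 3 (.s k20 k40 5 (.s k52
  k36 3 (.d k7 k5 k37 0 4)))))))) .n))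

def t1_36 : T TT 256 :=
  (.f k12 k8 1 (.q k38 [(.s k21 k55 4 (.s k42 k63 6 (.s k51 k25 6 (.d k34 k46 k17 1 4)))), (.s k6 k9
  2 (.s k21 k55 4 (.s k22 k54 3 (.s k20 k23 0 (.d k60 k40 k41 5 6))))), (.s k6 k9 2 (.s k22 k54 3
  (.s k41 k60 6 (.s k51 k25 6 (.d k35 k44 k19 2 3)))))] .n))

def t1_37 : T TT 256 :=
  (.f k12 k8 1 (.q k38 [(.s k21 k55 4 (.s k42 k63 6 (.s k34 k46 1 (.d k51 k17 k25 4 6)))), (.s k6 k9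
  2 (.s k21 k55 4 (.s k22 k54 3 (.s k20 k23 0 (.d k60 k40 k41 5 6))))), (.s k6 k9 2 (.s k22 k54 3
  (.s k41 k60 6 (.s k51 k25 6 (.d k35 k44 k19 2 3)))))] .n))

def t1_38 : T TT 256 :=
  (.q k70 [(.s k12 k8 1 (.s k9 k6 2 (.s k137 k204 10 (.s k73 k201 7 (.s k195 k134 10 (.d k67 k76
  k131 2 7)))))), (.s k204 k137 10 (.s k68 k136 9 (.s k196 k132 7 (.s k7 k133 8 (.s k15 k11 1 (.d k5
  k6 k10 0 2)))))), (.s k12 k8 1 (.s k204 k137 10 (.s k68 k136 9 (.s k132 k196 7 (.s k72 k192 9 (.d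
  k76 k64 k140 1 7)))))), (.s k12 k8 1 (.s k6 k9 2 (.s k134 k198 7 (.s k69 k199 8 (.s k207 k138 10
  (.d k71 k68 k139 0 9))))))] .n)

def t1_39 : T TT 256 :=
  (.q k22 [(.s k12 k8 1 (.s k9 k6 2 (.s k41 k60 6 (.s k25 k57 3 (.s k51 k38 6 (.d k19 k28 k35 2
  3)))))), (.s k12 k8 1 (.s k60 k41 6 (.s k20 k40 5 (.s k36 k52 3 (.s k24 k48 5 (.d k28 k16 k44 1
  3)))))), (.s k12 k8 1 (.s k6 k9 2 (.s k38 k54 3 (.s k21 k55 4 (.s k23 k20 0 (.d k63 k43 k42 5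
  6)))))), (.s k60 k41 6 (.s k20 k40 5 (.s k52 k36 3 (.s k37 k7 4 (.s k21 k23 0 (.s k55 k38 4 (.d
  k53 k54 k5 0 3)))))))] .n)

def t1_40 : T TT 256 :=
  (.q k70 [(.s k12 k8 1 (.s k9 k6 2 (.s k137 k204 10 (.s k73 k201 7 (.s k195 k134 10 (.d k67 k76
  k131 2 7)))))), (.s k204 k137 10 (.s k68 k136 9 (.s k196 k132 7 (.s k7 k133 8 (.s k15 k11 1 (.d k5
  k6 k10 0 2)))))), (.s k12 k8 1 (.s k204 k137 10 (.s k68 k136 9 (.s k132 k196 7 (.s k72 k192 9 (.d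
  k76 k64 k140 1 7)))))), (.s k12 k8 1 (.s k6 k9 2 (.s k134 k198 7 (.s k69 k199 8 (.s k207 k138 10
  (.d k71 k68 k139 0 9))))))] .n)

def t1_41 : T TT 256 :=
  (.q k70 [(.s k12 k8 1 (.s k9 k6 2 (.s k137 k204 10 (.s k73 k201 7 (.s k195 k134 10 (.d k67 k76
  k131 2 7)))))), (.s k204 k137 10 (.s k68 k136 9 (.s k196 k132 7 (.s k7 k133 8 (.s k15 k11 1 (.d k5
  k6 k10 0 2)))))), (.s k12 k8 1 (.s k204 k137 10 (.s k68 k136 9 (.s k132 k196 7 (.s k72 k192 9 (.d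
  k76 k64 k140 1 7)))))), (.s k12 k8 1 (.s k6 k9 2 (.s k134 k198 7 (.s k69 k199 8 (.s k207 k138 10
  (.d k71 k68 k139 0 9))))))] (.c k21 (.q k61 [(.s k12 k8 1 (.s k9 k6 2 (.s k137 k204 10 (.s k73
  k201 7 (.s k195 k134 10 (.d k67 k76 k131 2 7)))))), (.s k204 k137 10 (.s k68 k136 9 (.s k196 k132
  7 (.s k7 k133 8 (.s k15 k11 1 (.d k5 k6 k10 0 2)))))), (.s k12 k8 1 (.s k204 k137 10 (.s k68 k136
  9 (.s k132 k196 7 (.s k72 k192 9 (.d k76 k64 k140 1 7)))))), (.s k12 k8 1 (.s k6 k9 2 (.s k134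
  k198 7 (.s k69 k199 8 (.s k207 k138 10 (.d k71 k68 k139 0 9))))))] .n) (.c k61 (.q k21 [(.s k12 k8
  1 (.s k42 k63 6 (.s k38 k55 4 (.s k34 k46 1 (.d k51 k17 k25 4 6))))), (.s k204 k137 10 (.s k68
  k136 9 (.s k196 k132 7 (.s k7 k133 8 (.s k15 k11 1 (.d k5 k6 k10 0 2))))))] .n) .n)))

def t1_42 : T TT 256 :=
  (.q k70 [(.s k12 k8 1 (.s k9 k6 2 (.s k137 k204 10 (.s k73 k201 7 (.s k195 k134 10 (.d k67 k76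
  k131 2 7)))))), (.s k204 k137 10 (.s k68 k136 9 (.s k196 k132 7 (.s k7 k133 8 (.s k15 k11 1 (.d k5
  k6 k10 0 2)))))), (.s k12 k8 1 (.s k204 k137 10 (.s k68 k136 9 (.s k132 k196 7 (.s k72 k192 9 (.d
  k76 k64 k140 1 7)))))), (.s k12 k8 1 (.s k6 k9 2 (.s k134 k198 7 (.s k69 k199 8 (.s k207 k138 10
  (.d k71 k68 k139 0 9))))))] .n)

def t1_43 : T TT 256 :=
  (.q k70 [(.s k12 k8 1 (.s k9 k6 2 (.s k137 k204 10 (.s k73 k201 7 (.s k195 k134 10 (.d k67 k76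
  k131 2 7)))))), (.s k204 k137 10 (.s k68 k136 9 (.s k196 k132 7 (.s k7 k133 8 (.s k15 k11 1 (.d k5
  k6 k10 0 2)))))), (.s k12 k8 1 (.s k204 k137 10 (.s k68 k136 9 (.s k132 k196 7 (.s k72 k192 9 (.d
  k76 k64 k140 1 7)))))), (.s k12 k8 1 (.s k6 k9 2 (.s k134 k198 7 (.s k69 k199 8 (.s k207 k138 10
  (.d k71 k68 k139 0 9))))))] .n)

def t1_44 : T TT 256 :=
  (.q k70 [(.s k12 k8 1 (.s k9 k6 2 (.s k137 k204 10 (.s k73 k201 7 (.s k195 k134 10 (.d k67 k76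
  k131 2 7)))))), (.s k204 k137 10 (.s k68 k136 9 (.s k196 k132 7 (.s k7 k133 8 (.s k15 k11 1 (.d k5
  k6 k10 0 2)))))), (.s k12 k8 1 (.s k204 k137 10 (.s k68 k136 9 (.s k132 k196 7 (.s k72 k192 9 (.d
  k76 k64 k140 1 7)))))), (.s k12 k8 1 (.s k6 k9 2 (.s k134 k198 7 (.s k69 k199 8 (.s k207 k138 10
  (.d k71 k68 k139 0 9))))))] .n)

def t1_45 : T TT 256 :=
  (.q k70 [(.s k12 k8 1 (.s k9 k6 2 (.s k137 k204 10 (.s k73 k201 7 (.s k195 k134 10 (.d k67 k76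
  k131 2 7)))))), (.s k204 k137 10 (.s k68 k136 9 (.s k196 k132 7 (.s k7 k133 8 (.s k15 k11 1 (.d k5
  k6 k10 0 2)))))), (.s k12 k8 1 (.s k204 k137 10 (.s k68 k136 9 (.s k132 k196 7 (.s k72 k192 9 (.d
  k76 k64 k140 1 7)))))), (.s k12 k8 1 (.s k6 k9 2 (.s k134 k198 7 (.s k69 k199 8 (.s k207 k138 10
  (.d k71 k68 k139 0 9))))))] .n)

def t1_46 : T TT 256 :=
  (.q k70 [(.s k12 k8 1 (.s k9 k6 2 (.s k137 k204 10 (.s k73 k201 7 (.s k195 k134 10 (.d k67 k76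
  k131 2 7)))))), (.s k204 k137 10 (.s k68 k136 9 (.s k196 k132 7 (.s k7 k133 8 (.s k15 k11 1 (.d k5
  k6 k10 0 2)))))), (.s k12 k8 1 (.s k204 k137 10 (.s k68 k136 9 (.s k132 k196 7 (.s k72 k192 9 (.d
  k76 k64 k140 1 7)))))), (.s k12 k8 1 (.s k6 k9 2 (.s k134 k198 7 (.s k69 k199 8 (.s k207 k138 10
  (.d k71 k68 k139 0 9))))))] .n)

def t1_47 : T TT 256 :=
  (.q k70 [(.s k12 k8 1 (.s k9 k6 2 (.s k137 k204 10 (.s k73 k201 7 (.s k195 k134 10 (.d k67 k76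
  k131 2 7)))))), (.s k204 k137 10 (.s k68 k136 9 (.s k196 k132 7 (.s k7 k133 8 (.s k15 k11 1 (.d k5
  k6 k10 0 2)))))), (.s k12 k8 1 (.s k204 k137 10 (.s k68 k136 9 (.s k132 k196 7 (.s k72 k192 9 (.d
  k76 k64 k140 1 7)))))), (.s k12 k8 1 (.s k6 k9 2 (.s k134 k198 7 (.s k69 k199 8 (.s k207 k138 10
  (.d k71 k68 k139 0 9))))))] .n)

def t1_48 : T TT 256 :=
  (.f k12 k8 1 (.q k70 [(.s k9 k6 2 (.s k137 k204 10 (.s k73 k201 7 (.s k195 k134 10 (.d k67 k76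
  k131 2 7))))), (.s k204 k137 10 (.s k68 k136 9 (.s k132 k196 7 (.s k72 k192 9 (.d k76 k64 k140 1
  7))))), (.s k6 k9 2 (.s k134 k198 7 (.s k69 k199 8 (.s k207 k138 10 (.d k71 k68 k139 0 9)))))] (.c
  k117 (.q k186 [(.s k9 k6 2 (.s k137 k204 10 (.s k73 k201 7 (.s k195 k134 10 (.d k67 k76 k131 2
  7))))), (.s k204 k137 10 (.s k68 k136 9 (.s k132 k196 7 (.s k72 k192 9 (.d k76 k64 k140 1 7))))),
  (.s k6 k9 2 (.s k134 k198 7 (.s k69 k199 8 (.s k207 k138 10 (.d k71 k68 k139 0 9)))))] .n) (.c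
  k186 (.q k117 [(.s k9 k6 2 (.s k137 k204 10 (.s k73 k201 7 (.s k195 k134 10 (.d k67 k76 k131 2
  7))))), (.s k204 k137 10 (.s k68 k136 9 (.s k132 k196 7 (.s k72 k192 9 (.d k76 k64 k140 1 7))))),
  (.s k6 k9 2 (.s k134 k198 7 (.s k69 k199 8 (.s k207 k138 10 (.d k71 k68 k139 0 9)))))] .n) .n))))

def t1_49 : T TT 256 :=
  (.f k12 k8 1 (.q k70 [(.s k9 k6 2 (.s k137 k204 10 (.s k73 k201 7 (.s k195 k134 10 (.d k67 k76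
  k131 2 7))))), (.s k204 k137 10 (.s k68 k136 9 (.s k132 k196 7 (.s k72 k192 9 (.d k76 k64 k140 1
  7))))), (.s k6 k9 2 (.s k134 k198 7 (.s k69 k199 8 (.s k207 k138 10 (.d k71 k68 k139 0 9)))))] (.c
  k17 (.q k33 [(.s k9 k6 2 (.s k137 k204 10 (.s k73 k201 7 (.s k195 k134 10 (.d k67 k76 k131 2
  7))))), (.s k48 k18 4 (.s k36 k24 5 (.s k20 k52 3 (.s k40 k60 5 (.d k32 k16 k44 3 1)))))] .n) (.c
  k33 (.q k17 [(.s k9 k6 2 (.s k137 k204 10 (.s k73 k201 7 (.s k195 k134 10 (.d k67 k76 k131 2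
  7))))), (.s k204 k137 10 (.s k68 k136 9 (.s k132 k196 7 (.s k72 k192 9 (.d k76 k64 k140 1 7))))),
  (.s k6 k9 2 (.s k134 k198 7 (.s k69 k199 8 (.s k207 k138 10 (.d k71 k68 k139 0 9)))))] .n) .n))))

def t1_50 : T TT 256 :=
  (.q k70 [(.s k12 k8 1 (.s k9 k6 2 (.s k137 k204 10 (.s k73 k201 7 (.s k195 k134 10 (.d k67 k76
  k131 2 7)))))), (.s k204 k137 10 (.s k68 k136 9 (.s k196 k132 7 (.s k7 k133 8 (.s k15 k11 1 (.d k5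
  k6 k10 0 2)))))), (.s k12 k8 1 (.s k204 k137 10 (.s k68 k136 9 (.s k132 k196 7 (.s k72 k192 9 (.d
  k76 k64 k140 1 7)))))), (.s k12 k8 1 (.s k6 k9 2 (.s k134 k198 7 (.s k69 k199 8 (.s k207 k138 10
  (.d k71 k68 k139 0 9))))))] .n)

def t1_51 : T TT 256 :=
  (.f k12 k8 1 (.q k70 [(.s k9 k6 2 (.s k137 k204 10 (.s k73 k201 7 (.s k195 k134 10 (.d k67 k76
  k131 2 7))))), (.s k204 k137 10 (.s k68 k136 9 (.s k132 k196 7 (.s k72 k192 9 (.d k76 k64 k140 1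
  7))))), (.s k6 k9 2 (.s k134 k198 7 (.s k69 k199 8 (.s k207 k138 10 (.d k71 k68 k139 0 9)))))] (.c
  k119 (.q k187 [(.s k9 k6 2 (.s k137 k204 10 (.s k73 k201 7 (.s k195 k134 10 (.d k67 k76 k131 2
  7))))), (.s k204 k137 10 (.s k68 k136 9 (.s k132 k196 7 (.s k72 k192 9 (.d k76 k64 k140 1 7))))),
  (.s k6 k9 2 (.s k134 k198 7 (.s k69 k199 8 (.s k207 k138 10 (.d k71 k68 k139 0 9)))))] .n) (.c
  k187 (.q k119 [(.s k9 k6 2 (.s k137 k204 10 (.s k73 k201 7 (.s k195 k134 10 (.d k67 k76 k131 2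
  7))))), (.s k204 k137 10 (.s k68 k136 9 (.s k132 k196 7 (.s k72 k192 9 (.d k76 k64 k140 1 7))))),
  (.s k6 k9 2 (.s k134 k198 7 (.s k69 k199 8 (.s k207 k138 10 (.d k71 k68 k139 0 9)))))] .n) .n))))

def t1_52 : T TT 256 :=
  (.f k12 k8 1 (.q k21 [(.s k63 k42 6 (.s k29 k46 4 (.s k25 k17 1 (.d k38 k55 k51 4 6)))), (.s k42
  k63 6 (.s k6 k9 2 (.s k5 k7 0 (.s k37 k53 3 (.s k32 k47 2 (.s k48 k16 3 (.d k15 k10 k26 2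
  6)))))))] (.c k42 (.l (.s k9 k6 2 (.s k38 k55 4 (.s k25 k51 6 (.s k41 k57 3 (.s k60 k22 6 (.d k44
  k35 k28 2 3))))))) (.c k55 (.l (.s k63 k42 6 (.s k6 k9 2 (.s k23 k43 5 (.s k29 k46 4 (.s k25 k17 1
  (.s k38 k51 6 (.d k22 k20 k54 0 3)))))))) (.c k63 (.l (.s k6 k9 2 (.s k38 k55 4 (.s k51 k25 6 (.s
  k35 k19 3 (.s k41 k44 2 (.d k22 k54 k60 3 6))))))) .n)))))

def t1_53 : T TT 256 :=
  (.q k70 [(.s k12 k8 1 (.s k9 k6 2 (.s k137 k204 10 (.s k73 k201 7 (.s k195 k134 10 (.d k67 k76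
  k131 2 7)))))), (.s k204 k137 10 (.s k68 k136 9 (.s k196 k132 7 (.s k7 k133 8 (.s k15 k11 1 (.d k5
  k6 k10 0 2)))))), (.s k12 k8 1 (.s k204 k137 10 (.s k68 k136 9 (.s k132 k196 7 (.s k72 k192 9 (.d
  k76 k64 k140 1 7)))))), (.s k12 k8 1 (.s k6 k9 2 (.s k134 k198 7 (.s k69 k199 8 (.s k207 k138 10
  (.d k71 k68 k139 0 9))))))] .n)

def t1_54 : T TT 256 :=
  (.q k70 [(.s k12 k8 1 (.s k9 k6 2 (.s k137 k204 10 (.s k73 k201 7 (.s k195 k134 10 (.d k67 k76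
  k131 2 7)))))), (.s k204 k137 10 (.s k68 k136 9 (.s k196 k132 7 (.s k7 k133 8 (.s k15 k11 1 (.d k5
  k6 k10 0 2)))))), (.s k12 k8 1 (.s k204 k137 10 (.s k68 k136 9 (.s k132 k196 7 (.s k72 k192 9 (.d
  k76 k64 k140 1 7)))))), (.s k12 k8 1 (.s k6 k9 2 (.s k134 k198 7 (.s k69 k199 8 (.s k207 k138 10
  (.d k71 k68 k139 0 9))))))] .n)

def t1_55 : T TT 256 :=
  (.q k70 [(.s k12 k8 1 (.s k9 k6 2 (.s k137 k204 10 (.s k73 k201 7 (.s k195 k134 10 (.d k67 k76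
  k131 2 7)))))), (.s k204 k137 10 (.s k68 k136 9 (.s k196 k132 7 (.s k7 k133 8 (.s k15 k11 1 (.d k5
  k6 k10 0 2)))))), (.s k12 k8 1 (.s k204 k137 10 (.s k68 k136 9 (.s k132 k196 7 (.s k72 k192 9 (.d
  k76 k64 k140 1 7)))))), (.s k12 k8 1 (.s k6 k9 2 (.s k134 k198 7 (.s k69 k199 8 (.s k207 k138 10
  (.d k71 k68 k139 0 9))))))] .n)

def t1_56 : T TT 256 :=
  (.f k12 k8 1 (.f k9 k6 2 (.q k60 [(.s k28 k44 3 (.s k20 k40 5 (.s k24 k16 1 (.d k36 k52 k48 3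
  5)))), (.s k40 k20 5 (.s k41 k22 6 (.s k25 k57 3 (.s k38 k51 6 (.s k21 k55 4 (.d k42 k63 k43 6
  0))))))] (.c k20 (.l (.s k41 k22 6 (.s k25 k57 3 (.s k38 k51 6 (.d k44 k35 k28 2 3))))) (.c k24
  (.l (.s k40 k20 5 (.s k41 k22 6 (.s k25 k57 3 (.s k38 k51 6 (.d k44 k28 k35 3 2)))))) (.c k40 (.q
  k24 [(.s k28 k44 3 (.s k16 k20 1 (.d k48 k32 k36 3 5))), (.s k41 k22 6 (.s k25 k57 3 (.s k38 k51 6
  (.s k21 k55 4 (.s k63 k42 6 (.d k29 k17 k46 1 4))))))] .n) .n))))))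

def t1_57 : T TT 256 :=
  (.q k70 [(.s k12 k8 1 (.s k9 k6 2 (.s k137 k204 10 (.s k73 k201 7 (.s k195 k134 10 (.d k67 k76
  k131 2 7)))))), (.s k204 k137 10 (.s k68 k136 9 (.s k196 k132 7 (.s k7 k133 8 (.s k15 k11 1 (.d k5
  k6 k10 0 2)))))), (.s k12 k8 1 (.s k204 k137 10 (.s k68 k136 9 (.s k132 k196 7 (.s k72 k192 9 (.d
  k76 k64 k140 1 7)))))), (.s k12 k8 1 (.s k6 k9 2 (.s k134 k198 7 (.s k69 k199 8 (.s k207 k138 10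
  (.d k71 k68 k139 0 9))))))] .n)

def t1_58 : T TT 256 :=
  (.q k70 [(.s k12 k8 1 (.s k9 k6 2 (.s k137 k204 10 (.s k73 k201 7 (.s k195 k134 10 (.d k67 k76
  k131 2 7)))))), (.s k204 k137 10 (.s k68 k136 9 (.s k196 k132 7 (.s k7 k133 8 (.s k15 k11 1 (.d k5
  k6 k10 0 2)))))), (.s k12 k8 1 (.s k204 k137 10 (.s k68 k136 9 (.s k132 k196 7 (.s k72 k192 9 (.d
  k76 k64 k140 1 7)))))), (.s k12 k8 1 (.s k6 k9 2 (.s k134 k198 7 (.s k69 k199 8 (.s k207 k138 10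
  (.d k71 k68 k139 0 9))))))] .n)

def t1_59 : T TT 256 :=
  (.q k70 [(.s k12 k8 1 (.s k9 k6 2 (.s k137 k204 10 (.s k73 k201 7 (.s k195 k134 10 (.d k67 k76
  k131 2 7)))))), (.s k204 k137 10 (.s k68 k136 9 (.s k196 k132 7 (.s k7 k133 8 (.s k15 k11 1 (.d k5
  k6 k10 0 2)))))), (.s k12 k8 1 (.s k204 k137 10 (.s k68 k136 9 (.s k132 k196 7 (.s k72 k192 9 (.d
  k76 k64 k140 1 7)))))), (.s k12 k8 1 (.s k6 k9 2 (.s k134 k198 7 (.s k69 k199 8 (.s k207 k138 10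
  (.d k71 k68 k139 0 9))))))] .n)

def t1_60 : T TT 256 :=
  (.f k12 k8 1 (.q k70 [(.s k9 k6 2 (.s k137 k204 10 (.s k73 k201 7 (.s k195 k134 10 (.d k67 k76
  k131 2 7))))), (.s k204 k137 10 (.s k68 k136 9 (.s k132 k196 7 (.s k72 k192 9 (.d k76 k64 k140 1
  7))))), (.s k6 k9 2 (.s k134 k198 7 (.s k69 k199 8 (.s k207 k138 10 (.d k71 k68 k139 0 9)))))] (.c
  k125 (.q k190 [(.s k9 k6 2 (.s k137 k204 10 (.s k73 k201 7 (.s k195 k134 10 (.d k67 k76 k131 2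
  7))))), (.s k204 k137 10 (.s k68 k136 9 (.s k132 k196 7 (.s k72 k192 9 (.d k76 k64 k140 1 7))))),
  (.s k6 k9 2 (.s k134 k198 7 (.s k69 k199 8 (.s k207 k138 10 (.d k71 k68 k139 0 9)))))] .n) (.c
  k190 (.q k125 [(.s k9 k6 2 (.s k137 k204 10 (.s k73 k201 7 (.s k195 k134 10 (.d k67 k76 k131 2
  7))))), (.s k204 k137 10 (.s k68 k136 9 (.s k132 k196 7 (.s k72 k192 9 (.d k76 k64 k140 1 7))))),
  (.s k6 k9 2 (.s k134 k198 7 (.s k69 k199 8 (.s k207 k138 10 (.d k71 k68 k139 0 9)))))] .n) .n))))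

def t1_61 : T TT 256 :=
  (.f k12 k8 1 (.q k21 [(.s k63 k42 6 (.s k38 k55 4 (.s k25 k51 6 (.d k29 k17 k46 1 4)))), (.s k6 k9
  2 (.s k38 k55 4 (.s k22 k54 3 (.s k20 k23 0 (.d k60 k40 k41 5 6))))), (.s k42 k63 6 (.s k6 k9 2
  (.s k5 k7 0 (.s k37 k53 3 (.s k32 k47 2 (.s k48 k16 3 (.d k15 k10 k26 2 6)))))))] .n))

def t1_62 : T TT 256 :=
  (.q k22 [(.s k12 k8 1 (.s k9 k6 2 (.s k41 k60 6 (.s k25 k57 3 (.s k51 k38 6 (.d k19 k28 k35 2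
  3)))))), (.s k60 k41 6 (.s k20 k40 5 (.s k52 k36 3 (.s k7 k37 4 (.s k15 k11 1 (.d k5 k6 k10 0
  2)))))), (.s k12 k8 1 (.s k6 k9 2 (.s k38 k54 3 (.s k21 k55 4 (.s k63 k42 6 (.d k23 k20 k43 0
  5)))))), (.s k12 k8 1 (.s k60 k41 6 (.s k20 k40 5 (.s k36 k52 3 (.s k24 k48 5 (.d k28 k16 k44 1
  3))))))] .n)

def t1_63 : T TT 256 :=
  (.f k12 k8 1 (.q k60 [(.s k20 k40 5 (.s k36 k52 3 (.s k28 k44 3 (.d k24 k16 k48 1 5)))), (.s k6 k9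
  2 (.s k22 k41 6 (.s k38 k54 3 (.s k25 k51 6 (.d k28 k19 k44 2 3))))), (.s k6 k9 2 (.s k22 k41 6
  (.s k38 k54 3 (.s k21 k55 4 (.d k20 k23 k40 0 5)))))] (.c k127 (.q k191 [(.s k20 k40 5 (.s k36 k52
  3 (.s k28 k44 3 (.d k24 k16 k48 1 5)))), (.s k6 k9 2 (.s k22 k41 6 (.s k38 k54 3 (.s k25 k51 6 (.d
  k28 k19 k44 2 3))))), (.s k6 k9 2 (.s k22 k41 6 (.s k38 k54 3 (.s k21 k55 4 (.d k20 k23 k40 0
  5)))))] .n) (.c k191 (.q k127 [(.s k20 k40 5 (.s k36 k52 3 (.s k28 k44 3 (.d k24 k16 k48 1 5)))),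
  (.s k6 k9 2 (.s k22 k41 6 (.s k38 k54 3 (.s k25 k51 6 (.d k28 k19 k44 2 3))))), (.s k6 k9 2 (.s
  k22 k41 6 (.s k38 k54 3 (.s k21 k55 4 (.d k20 k23 k40 0 5)))))] .n) .n))))

def t1_64 : T TT 256 :=
  (.q k22 [(.s k12 k8 1 (.s k9 k6 2 (.s k41 k60 6 (.s k25 k57 3 (.s k51 k38 6 (.d k19 k28 k35 2
  3)))))), (.s k60 k41 6 (.s k20 k40 5 (.s k52 k36 3 (.s k7 k37 4 (.s k15 k11 1 (.d k5 k6 k10 0
  2)))))), (.s k12 k8 1 (.s k60 k41 6 (.s k20 k40 5 (.s k36 k52 3 (.s k24 k48 5 (.d k28 k16 k44 1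
  3)))))), (.s k12 k8 1 (.s k6 k9 2 (.s k38 k54 3 (.s k21 k55 4 (.s k63 k42 6 (.d k23 k20 k43 0
  5))))))] .n)

def t1_65 : T TT 256 :=
  (.q k22 [(.s k12 k8 1 (.s k9 k6 2 (.s k41 k60 6 (.s k25 k57 3 (.s k51 k38 6 (.d k19 k28 k35 2
  3)))))), (.s k60 k41 6 (.s k20 k40 5 (.s k52 k36 3 (.s k7 k37 4 (.s k15 k11 1 (.d k5 k6 k10 0
  2)))))), (.s k12 k8 1 (.s k60 k41 6 (.s k20 k40 5 (.s k36 k52 3 (.s k24 k48 5 (.d k28 k16 k44 1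
  3)))))), (.s k12 k8 1 (.s k6 k9 2 (.s k38 k54 3 (.s k21 k55 4 (.s k63 k42 6 (.d k23 k20 k43 0
  5))))))] (.c k129 (.q k193 [(.s k12 k8 1 (.s k9 k6 2 (.s k41 k60 6 (.s k25 k57 3 (.s k51 k38 6 (.d
  k19 k28 k35 2 3)))))), (.s k60 k41 6 (.s k20 k40 5 (.s k52 k36 3 (.s k7 k37 4 (.s k15 k11 1 (.d k5
  k6 k10 0 2)))))), (.s k12 k8 1 (.s k60 k41 6 (.s k20 k40 5 (.s k36 k52 3 (.s k24 k48 5 (.d k28 k16
  k44 1 3)))))), (.s k12 k8 1 (.s k6 k9 2 (.s k38 k54 3 (.s k21 k55 4 (.s k63 k42 6 (.d k23 k20 k43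
  0 5))))))] .n) (.c k193 (.q k129 [(.s k12 k8 1 (.s k9 k6 2 (.s k41 k60 6 (.s k25 k57 3 (.s k51 k38
  6 (.d k19 k28 k35 2 3)))))), (.s k60 k41 6 (.s k20 k40 5 (.s k52 k36 3 (.s k7 k37 4 (.s k15 k11 1
  (.d k5 k6 k10 0 2)))))), (.s k12 k8 1 (.s k60 k41 6 (.s k20 k40 5 (.s k36 k52 3 (.s k24 k48 5 (.d
  k28 k16 k44 1 3)))))), (.s k12 k8 1 (.s k6 k9 2 (.s k38 k54 3 (.s k21 k55 4 (.s k63 k42 6 (.d k23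
  k20 k43 0 5))))))] .n) .n)))

def t1_66 : T TT 256 :=
  (.q k70 [(.s k12 k8 1 (.s k9 k6 2 (.s k137 k204 10 (.s k73 k201 7 (.s k195 k134 10 (.d k67 k76
  k131 2 7)))))), (.s k204 k137 10 (.s k68 k136 9 (.s k196 k132 7 (.s k7 k133 8 (.s k15 k11 1 (.d k5
  k6 k10 0 2)))))), (.s k12 k8 1 (.s k204 k137 10 (.s k68 k136 9 (.s k132 k196 7 (.s k72 k192 9 (.d
  k76 k64 k140 1 7)))))), (.s k12 k8 1 (.s k6 k9 2 (.s k134 k198 7 (.s k69 k199 8 (.s k207 k138 10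
  (.d k71 k68 k139 0 9))))))] .n)

def t1_67 : T TT 256 :=
  (.q k70 [(.s k12 k8 1 (.s k204 k137 10 (.s k68 k136 9 (.s k132 k196 7 (.s k72 k192 9 (.d k76 k64
  k140 1 7)))))), (.s k12 k8 1 (.s k6 k9 2 (.s k134 k198 7 (.s k69 k199 8 (.s k138 k207 10 (.s k195
  k73 10 (.d k130 k142 k65 1 8))))))), (.s k204 k137 10 (.s k68 k136 9 (.s k196 k132 7 (.s k7 k133 8
  (.s k15 k11 1 (.d k5 k6 k10 0 2))))))] (.c k69 (.f k12 k8 1 (.q k21 [(.s k42 k63 6 (.s k38 k55 4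
  (.s k51 k25 6 (.d k34 k46 k17 1 4)))), (.s k6 k9 2 (.s k38 k55 4 (.s k22 k54 3 (.s k20 k23 0 (.d
  k60 k40 k41 5 6))))), (.s k42 k63 6 (.s k6 k9 2 (.s k5 k7 0 (.s k37 k53 3 (.s k32 k47 2 (.s k48
  k16 3 (.d k15 k10 k26 2 6)))))))] (.c k137 (.q k205 [(.s k42 k63 6 (.s k38 k55 4 (.s k51 k25 6 (.d
  k34 k46 k17 1 4)))), (.s k6 k9 2 (.s k38 k55 4 (.s k22 k54 3 (.s k20 k23 0 (.d k60 k40 k41 5
  6))))), (.s k42 k63 6 (.s k6 k9 2 (.s k5 k7 0 (.s k37 k53 3 (.s k32 k47 2 (.s k48 k16 3 (.d k15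
  k10 k26 2 6)))))))] .n) (.c k205 (.l (.s k137 k204 10 (.s k42 k63 6 (.s k38 k55 4 (.s k51 k25 6
  (.d k34 k46 k17 1 4)))))) .n)))) (.c k137 (.l (.s k12 k8 1 (.s k6 k9 2 (.s k134 k198 7 (.s k69
  k199 8 (.s k207 k138 10 (.d k71 k139 k68 9 0))))))) (.c k138 (.l (.s k12 k8 1 (.s k6 k9 2 (.s k204
  k137 10 (.s k134 k198 7 (.s k69 k199 8 (.d k68 k136 k71 9 0))))))) (.c k196 (.l (.s k12 k8 1 (.s
  k6 k9 2 (.s k204 k137 10 (.s k68 k136 9 (.s k134 k198 7 (.d k69 k199 k71 8 0))))))) .n)))))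

def t1_68 : T TT 256 :=
  (.q k22 [(.s k12 k8 1 (.s k9 k6 2 (.s k41 k60 6 (.s k25 k57 3 (.s k51 k38 6 (.d k19 k28 k35 2
  3)))))), (.s k60 k41 6 (.s k20 k40 5 (.s k52 k36 3 (.s k7 k37 4 (.s k15 k11 1 (.d k5 k6 k10 0
  2)))))), (.s k12 k8 1 (.s k60 k41 6 (.s k20 k40 5 (.s k36 k52 3 (.s k24 k48 5 (.d k28 k16 k44 1
  3)))))), (.s k12 k8 1 (.s k6 k9 2 (.s k38 k54 3 (.s k21 k55 4 (.s k63 k42 6 (.d k23 k20 k43 0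
  5))))))] .n)

def t1_69 : T TT 256 :=
  (.f k12 k8 1 (.f k9 k6 2 (.q k60 [(.s k20 k40 5 (.s k36 k52 3 (.s k28 k44 3 (.d k24 k16 k48 1
  5)))), (.s k41 k22 6 (.s k25 k57 3 (.s k38 k51 6 (.d k44 k35 k28 2 3)))), (.s k40 k20 5 (.s k41
  k22 6 (.s k25 k57 3 (.s k38 k51 6 (.s k21 k55 4 (.d k42 k63 k43 6 0))))))] (.c k137 (.q k205 [(.s
  k20 k40 5 (.s k36 k52 3 (.s k28 k44 3 (.d k24 k16 k48 1 5)))), (.s k41 k22 6 (.s k25 k57 3 (.s k38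
  k51 6 (.d k44 k35 k28 2 3)))), (.s k40 k20 5 (.s k41 k22 6 (.s k25 k57 3 (.s k38 k51 6 (.s k21 k55
  4 (.d k42 k63 k43 6 0))))))] .n) (.c k205 (.q k137 [(.s k20 k40 5 (.s k36 k52 3 (.s k28 k44 3 (.d
  k24 k16 k48 1 5)))), (.s k70 k204 10 (.s k73 k201 7 (.s k195 k134 10 (.d k67 k76 k131 2 7))))] .n)
  .n)))))

def t1_70 : T TT 256 :=
  (.q k22 [(.s k12 k8 1 (.s k9 k6 2 (.s k41 k60 6 (.s k25 k57 3 (.s k51 k38 6 (.d k19 k28 k35 2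
  3)))))), (.s k60 k41 6 (.s k20 k40 5 (.s k52 k36 3 (.s k7 k37 4 (.s k15 k11 1 (.d k5 k6 k10 0
  2)))))), (.s k12 k8 1 (.s k60 k41 6 (.s k20 k40 5 (.s k36 k52 3 (.s k24 k48 5 (.d k28 k16 k44 1
  3)))))), (.s k12 k8 1 (.s k6 k9 2 (.s k38 k54 3 (.s k21 k55 4 (.s k63 k42 6 (.d k23 k20 k43 0
  5))))))] .n)

def t1_71 : T TT 256 :=
  (.q k22 [(.s k12 k8 1 (.s k9 k6 2 (.s k41 k60 6 (.s k25 k57 3 (.s k51 k38 6 (.d k19 k28 k35 2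
  3)))))), (.s k60 k41 6 (.s k20 k40 5 (.s k52 k36 3 (.s k7 k37 4 (.s k15 k11 1 (.d k5 k6 k10 0
  2)))))), (.s k12 k8 1 (.s k60 k41 6 (.s k20 k40 5 (.s k36 k52 3 (.s k24 k48 5 (.d k28 k16 k44 1
  3)))))), (.s k12 k8 1 (.s k6 k9 2 (.s k38 k54 3 (.s k21 k55 4 (.s k63 k42 6 (.d k23 k20 k43 0
  5))))))] .n)

def t1_72 : T TT 256 :=
  (.q k22 [(.s k12 k8 1 (.s k9 k6 2 (.s k41 k60 6 (.s k25 k57 3 (.s k51 k38 6 (.d k19 k28 k35 2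
  3)))))), (.s k60 k41 6 (.s k20 k40 5 (.s k52 k36 3 (.s k7 k37 4 (.s k15 k11 1 (.d k5 k6 k10 0
  2)))))), (.s k12 k8 1 (.s k60 k41 6 (.s k20 k40 5 (.s k36 k52 3 (.s k24 k48 5 (.d k28 k16 k44 1
  3)))))), (.s k12 k8 1 (.s k6 k9 2 (.s k38 k54 3 (.s k21 k55 4 (.s k63 k42 6 (.d k23 k20 k43 0
  5))))))] .n)

def t1_73 : T TT 256 :=
  (.q k22 [(.s k12 k8 1 (.s k9 k6 2 (.s k41 k60 6 (.s k25 k57 3 (.s k51 k38 6 (.d k19 k28 k35 2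
  3)))))), (.s k60 k41 6 (.s k20 k40 5 (.s k52 k36 3 (.s k7 k37 4 (.s k15 k11 1 (.d k5 k6 k10 0
  2)))))), (.s k12 k8 1 (.s k60 k41 6 (.s k20 k40 5 (.s k36 k52 3 (.s k24 k48 5 (.d k28 k16 k44 1
  3)))))), (.s k12 k8 1 (.s k6 k9 2 (.s k38 k54 3 (.s k21 k55 4 (.s k63 k42 6 (.d k23 k20 k43 0
  5))))))] .n)

def t1_74 : T TT 256 :=
  (.q k22 [(.s k12 k8 1 (.s k9 k6 2 (.s k41 k60 6 (.s k25 k57 3 (.s k51 k38 6 (.d k19 k28 k35 2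
  3)))))), (.s k60 k41 6 (.s k20 k40 5 (.s k52 k36 3 (.s k7 k37 4 (.s k15 k11 1 (.d k5 k6 k10 0
  2)))))), (.s k12 k8 1 (.s k60 k41 6 (.s k20 k40 5 (.s k36 k52 3 (.s k24 k48 5 (.d k28 k16 k44 1
  3)))))), (.s k12 k8 1 (.s k6 k9 2 (.s k38 k54 3 (.s k21 k55 4 (.s k63 k42 6 (.d k23 k20 k43 0
  5))))))] .n)

def t1_75 : T TT 256 :=
  (.q k22 [(.s k12 k8 1 (.s k9 k6 2 (.s k41 k60 6 (.s k25 k57 3 (.s k51 k38 6 (.d k19 k28 k35 2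
  3)))))), (.s k60 k41 6 (.s k20 k40 5 (.s k52 k36 3 (.s k7 k37 4 (.s k15 k11 1 (.d k5 k6 k10 0
  2)))))), (.s k12 k8 1 (.s k60 k41 6 (.s k20 k40 5 (.s k36 k52 3 (.s k24 k48 5 (.d k28 k16 k44 1
  3)))))), (.s k12 k8 1 (.s k6 k9 2 (.s k38 k54 3 (.s k21 k55 4 (.s k63 k42 6 (.d k23 k20 k43 0
  5))))))] .n)

def t1_76 : T TT 256 :=
  (.q k60 [(.s k12 k8 1 (.s k20 k40 5 (.s k36 k52 3 (.s k28 k44 3 (.d k24 k16 k48 1 5))))), (.s k12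
  k8 1 (.s k6 k9 2 (.s k22 k41 6 (.s k38 k54 3 (.s k25 k51 6 (.d k28 k19 k44 2 3)))))), (.s k20 k40
  5 (.s k22 k41 6 (.s k52 k36 3 (.s k7 k37 4 (.s k15 k11 1 (.d k5 k6 k10 0 2))))))] (.c k44 (.l (.s
  k12 k8 1 (.s k20 k40 5 (.s k6 k9 2 (.s k22 k41 6 (.s k38 k54 3 (.d k21 k23 k55 0 4))))))) .n))

def t1_77 : T TT 256 :=
  (.q k22 [(.s k12 k8 1 (.s k9 k6 2 (.s k41 k60 6 (.s k25 k57 3 (.s k51 k38 6 (.d k19 k28 k35 2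
  3)))))), (.s k60 k41 6 (.s k20 k40 5 (.s k52 k36 3 (.s k7 k37 4 (.s k15 k11 1 (.d k5 k6 k10 0
  2)))))), (.s k12 k8 1 (.s k60 k41 6 (.s k20 k40 5 (.s k36 k52 3 (.s k24 k48 5 (.d k28 k16 k44 1
  3)))))), (.s k12 k8 1 (.s k6 k9 2 (.s k38 k54 3 (.s k21 k55 4 (.s k63 k42 6 (.d k23 k20 k43 0
  5))))))] .n)

def t1_78 : T TT 256 :=
  (.q k60 [(.s k12 k8 1 (.s k20 k40 5 (.s k36 k52 3 (.s k28 k44 3 (.d k24 k16 k48 1 5))))), (.s k12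
  k8 1 (.s k6 k9 2 (.s k22 k41 6 (.s k38 k54 3 (.s k25 k51 6 (.d k28 k19 k44 2 3)))))), (.s k20 k40
  5 (.s k22 k41 6 (.s k52 k36 3 (.s k7 k37 4 (.s k15 k11 1 (.d k5 k6 k10 0 2))))))] (.c k44 (.l (.s
  k12 k8 1 (.s k20 k40 5 (.s k6 k9 2 (.s k22 k41 6 (.s k38 k54 3 (.d k21 k23 k55 0 4))))))) .n))

def t1_79 : T TT 256 :=
  (.q k22 [(.s k12 k8 1 (.s k9 k6 2 (.s k41 k60 6 (.s k25 k57 3 (.s k51 k38 6 (.d k19 k28 k35 2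
  3)))))), (.s k60 k41 6 (.s k20 k40 5 (.s k52 k36 3 (.s k7 k37 4 (.s k15 k11 1 (.d k5 k6 k10 0
  2)))))), (.s k12 k8 1 (.s k60 k41 6 (.s k20 k40 5 (.s k36 k52 3 (.s k24 k48 5 (.d k28 k16 k44 1
  3)))))), (.s k12 k8 1 (.s k6 k9 2 (.s k38 k54 3 (.s k21 k55 4 (.s k63 k42 6 (.d k23 k20 k43 0
  5))))))] .n)

def t1_80 : T TT 256 :=
  (.q k60 [(.s k12 k8 1 (.s k20 k40 5 (.s k36 k52 3 (.s k28 k44 3 (.d k24 k16 k48 1 5))))), (.s k12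
  k8 1 (.s k6 k9 2 (.s k22 k41 6 (.s k38 k54 3 (.s k25 k51 6 (.d k28 k19 k44 2 3)))))), (.s k20 k40
  5 (.s k22 k41 6 (.s k52 k36 3 (.s k7 k37 4 (.s k15 k11 1 (.d k5 k6 k10 0 2))))))] (.c k44 (.l (.s
  k12 k8 1 (.s k20 k40 5 (.s k6 k9 2 (.s k22 k41 6 (.s k38 k54 3 (.d k21 k23 k55 0 4))))))) .n))

def t1_81 : T TT 256 :=
  (.q k22 [(.s k12 k8 1 (.s k9 k6 2 (.s k41 k60 6 (.s k25 k57 3 (.s k51 k38 6 (.d k19 k28 k35 2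
  3)))))), (.s k60 k41 6 (.s k20 k40 5 (.s k52 k36 3 (.s k7 k37 4 (.s k15 k11 1 (.d k5 k6 k10 0
  2)))))), (.s k12 k8 1 (.s k60 k41 6 (.s k20 k40 5 (.s k36 k52 3 (.s k24 k48 5 (.d k28 k16 k44 1
  3)))))), (.s k12 k8 1 (.s k6 k9 2 (.s k38 k54 3 (.s k21 k55 4 (.s k63 k42 6 (.d k23 k20 k43 0
  5))))))] (.c k161 (.q k241 [(.s k12 k8 1 (.s k9 k6 2 (.s k41 k60 6 (.s k25 k57 3 (.s k51 k38 6 (.d
  k19 k28 k35 2 3)))))), (.s k60 k41 6 (.s k20 k40 5 (.s k52 k36 3 (.s k7 k37 4 (.s k15 k11 1 (.d k5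
  k6 k10 0 2)))))), (.s k12 k8 1 (.s k60 k41 6 (.s k20 k40 5 (.s k36 k52 3 (.s k24 k48 5 (.d k28 k16
  k44 1 3)))))), (.s k12 k8 1 (.s k6 k9 2 (.s k38 k54 3 (.s k21 k55 4 (.s k63 k42 6 (.d k23 k20 k43
  0 5))))))] .n) (.c k241 (.q k161 [(.s k12 k8 1 (.s k9 k6 2 (.s k41 k60 6 (.s k25 k57 3 (.s k51 k38
  6 (.d k19 k28 k35 2 3)))))), (.s k60 k41 6 (.s k20 k40 5 (.s k52 k36 3 (.s k7 k37 4 (.s k15 k11 1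
  (.d k5 k6 k10 0 2)))))), (.s k12 k8 1 (.s k60 k41 6 (.s k20 k40 5 (.s k36 k52 3 (.s k24 k48 5 (.d
  k28 k16 k44 1 3)))))), (.s k12 k8 1 (.s k6 k9 2 (.s k38 k54 3 (.s k21 k55 4 (.s k63 k42 6 (.d k23
  k20 k43 0 5))))))] .n) .n)))

def t1_82 : T TT 256 :=
  (.q k60 [(.s k12 k8 1 (.s k20 k40 5 (.s k36 k52 3 (.s k28 k44 3 (.d k24 k16 k48 1 5))))), (.s k12
  k8 1 (.s k6 k9 2 (.s k22 k41 6 (.s k38 k54 3 (.s k25 k51 6 (.d k28 k19 k44 2 3)))))), (.s k20 k40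
  5 (.s k22 k41 6 (.s k52 k36 3 (.s k7 k37 4 (.s k15 k11 1 (.d k5 k6 k10 0 2))))))] (.c k44 (.l (.s
  k12 k8 1 (.s k20 k40 5 (.s k6 k9 2 (.s k22 k41 6 (.s k38 k54 3 (.d k21 k23 k55 0 4))))))) .n))

def t1_83 : T TT 256 :=
  (.q k60 [(.s k12 k8 1 (.s k20 k40 5 (.s k36 k52 3 (.s k28 k44 3 (.d k24 k16 k48 1 5))))), (.s k12
  k8 1 (.s k6 k9 2 (.s k22 k41 6 (.s k38 k54 3 (.s k25 k51 6 (.d k28 k19 k44 2 3)))))), (.s k20 k40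
  5 (.s k22 k41 6 (.s k52 k36 3 (.s k7 k37 4 (.s k15 k11 1 (.d k5 k6 k10 0 2))))))] (.c k44 (.l (.s
  k12 k8 1 (.s k20 k40 5 (.s k6 k9 2 (.s k22 k41 6 (.s k38 k54 3 (.d k21 k23 k55 0 4))))))) .n))

def t1_84 : T TT 256 :=
  (.q k60 [(.s k12 k8 1 (.s k20 k40 5 (.s k36 k52 3 (.s k28 k44 3 (.d k24 k16 k48 1 5))))), (.s k12
  k8 1 (.s k6 k9 2 (.s k22 k41 6 (.s k38 k54 3 (.s k25 k51 6 (.d k28 k19 k44 2 3)))))), (.s k20 k40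
  5 (.s k22 k41 6 (.s k52 k36 3 (.s k7 k37 4 (.s k15 k11 1 (.d k5 k6 k10 0 2))))))] (.c k44 (.l (.s
  k12 k8 1 (.s k20 k40 5 (.s k6 k9 2 (.s k22 k41 6 (.s k38 k54 3 (.d k21 k23 k55 0 4))))))) .n))

def t1_85 : T TT 256 :=
  (.f k12 k8 1 (.q k70 [(.s k9 k6 2 (.s k137 k204 10 (.s k73 k201 7 (.s k195 k134 10 (.d k67 k76
  k131 2 7))))), (.s k204 k137 10 (.s k68 k136 9 (.s k132 k196 7 (.s k72 k192 9 (.d k76 k64 k140 1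
  7))))), (.s k6 k9 2 (.s k134 k198 7 (.s k69 k199 8 (.s k207 k138 10 (.d k71 k68 k139 0 9)))))] (.c
  k169 (.q k253 [(.s k9 k6 2 (.s k137 k204 10 (.s k73 k201 7 (.s k195 k134 10 (.d k67 k76 k131 2
  7))))), (.s k204 k137 10 (.s k68 k136 9 (.s k132 k196 7 (.s k72 k192 9 (.d k76 k64 k140 1 7))))),
  (.s k6 k9 2 (.s k134 k198 7 (.s k69 k199 8 (.s k207 k138 10 (.d k71 k68 k139 0 9)))))] .n) (.c
  k253 (.q k169 [(.s k9 k6 2 (.s k137 k204 10 (.s k73 k201 7 (.s k195 k134 10 (.d k67 k76 k131 2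
  7))))), (.s k252 k86 14 (.s k84 k168 13 (.s k164 k244 11 (.s k88 k240 13 (.d k92 k80 k172 1
  11)))))] (.c k252 (.q k254 [(.s k9 k6 2 (.s k137 k204 10 (.s k73 k201 7 (.s k195 k134 10 (.d k67
  k76 k131 2 7))))), (.s k204 k137 10 (.s k68 k136 9 (.s k132 k196 7 (.s k72 k192 9 (.d k76 k64 k140
  1 7))))), (.s k6 k9 2 (.s k134 k198 7 (.s k69 k199 8 (.s k207 k138 10 (.d k71 k68 k139 0 9)))))]
  .n) (.c k254 (.l (.s k252 k86 14 (.s k84 k168 13 (.s k164 k244 11 (.s k88 k240 13 (.d k92 k80 k172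
  1 11)))))) .n))) .n))))

def t1_86 : T TT 256 :=
  (.q k60 [(.s k12 k8 1 (.s k20 k40 5 (.s k36 k52 3 (.s k28 k44 3 (.d k24 k16 k48 1 5))))), (.s k12
  k8 1 (.s k6 k9 2 (.s k22 k41 6 (.s k38 k54 3 (.s k25 k51 6 (.d k28 k19 k44 2 3)))))), (.s k20 k40
  5 (.s k22 k41 6 (.s k52 k36 3 (.s k7 k37 4 (.s k15 k11 1 (.d k5 k6 k10 0 2))))))] (.c k44 (.l (.s
  k12 k8 1 (.s k20 k40 5 (.s k6 k9 2 (.s k22 k41 6 (.s k38 k54 3 (.d k21 k23 k55 0 4))))))) .n))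

def t1_87 : T TT 256 :=
  (.q k60 [(.s k12 k8 1 (.s k20 k40 5 (.s k36 k52 3 (.s k28 k44 3 (.d k24 k16 k48 1 5))))), (.s k12
  k8 1 (.s k6 k9 2 (.s k22 k41 6 (.s k38 k54 3 (.s k25 k51 6 (.d k28 k19 k44 2 3)))))), (.s k20 k40
  5 (.s k22 k41 6 (.s k52 k36 3 (.s k7 k37 4 (.s k15 k11 1 (.d k5 k6 k10 0 2))))))] (.c k44 (.l (.s
  k12 k8 1 (.s k20 k40 5 (.s k6 k9 2 (.s k22 k41 6 (.s k38 k54 3 (.d k21 k23 k55 0 4))))))) .n))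

def t1_88 : T TT 256 :=
  (.q k60 [(.s k12 k8 1 (.s k20 k40 5 (.s k36 k52 3 (.s k28 k44 3 (.d k24 k16 k48 1 5))))), (.s k20
  k40 5 (.s k22 k41 6 (.s k52 k36 3 (.s k7 k37 4 (.s k15 k11 1 (.d k5 k6 k10 0 2)))))), (.s k12 k8 1
  (.s k6 k9 2 (.s k22 k41 6 (.s k38 k54 3 (.s k25 k51 6 (.d k28 k19 k44 2 3))))))] (.c k44 (.l (.s
  k12 k8 1 (.s k20 k40 5 (.s k6 k9 2 (.s k22 k41 6 (.s k38 k54 3 (.d k21 k23 k55 0 4))))))) .n))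

def t1_89 : T TT 256 :=
  (.q k60 [(.s k12 k8 1 (.s k20 k40 5 (.s k36 k52 3 (.s k28 k44 3 (.d k24 k16 k48 1 5))))), (.s k20
  k40 5 (.s k22 k41 6 (.s k52 k36 3 (.s k7 k37 4 (.s k15 k11 1 (.d k5 k6 k10 0 2)))))), (.s k12 k8 1
  (.s k6 k9 2 (.s k22 k41 6 (.s k38 k54 3 (.s k25 k51 6 (.d k28 k19 k44 2 3))))))] (.c k44 (.l (.s
  k12 k8 1 (.s k20 k40 5 (.s k6 k9 2 (.s k22 k41 6 (.s k38 k54 3 (.d k21 k23 k55 0 4))))))) .n))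

def t1_90 : T TT 256 :=
  (.q k22 [(.s k12 k8 1 (.s k9 k6 2 (.s k41 k60 6 (.s k25 k57 3 (.s k51 k38 6 (.d k19 k28 k35 2
  3)))))), (.s k60 k41 6 (.s k20 k40 5 (.s k52 k36 3 (.s k7 k37 4 (.s k15 k11 1 (.d k5 k6 k10 0
  2)))))), (.s k12 k8 1 (.s k60 k41 6 (.s k20 k40 5 (.s k36 k52 3 (.s k24 k48 5 (.d k28 k16 k44 1
  3)))))), (.s k12 k8 1 (.s k6 k9 2 (.s k38 k54 3 (.s k21 k55 4 (.s k63 k42 6 (.d k23 k20 k43 0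
  5))))))] .n)

def t1_91 : T TT 256 :=
  (.q k22 [(.s k12 k8 1 (.s k9 k6 2 (.s k41 k60 6 (.s k25 k57 3 (.s k51 k38 6 (.d k19 k28 k35 2
  3)))))), (.s k60 k41 6 (.s k20 k40 5 (.s k52 k36 3 (.s k7 k37 4 (.s k15 k11 1 (.d k5 k6 k10 0
  2)))))), (.s k12 k8 1 (.s k60 k41 6 (.s k20 k40 5 (.s k36 k52 3 (.s k24 k48 5 (.d k28 k16 k44 1
  3)))))), (.s k12 k8 1 (.s k6 k9 2 (.s k38 k54 3 (.s k21 k55 4 (.s k63 k42 6 (.d k23 k20 k43 0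
  5))))))] .n)

def t1_92 : T TT 256 :=
  (.q k60 [(.s k12 k8 1 (.s k20 k40 5 (.s k36 k52 3 (.s k28 k44 3 (.d k24 k16 k48 1 5))))), (.s k12
  k8 1 (.s k6 k9 2 (.s k22 k41 6 (.s k38 k54 3 (.s k25 k51 6 (.d k28 k19 k44 2 3)))))), (.s k20 k40
  5 (.s k22 k41 6 (.s k52 k36 3 (.s k7 k37 4 (.s k15 k11 1 (.d k5 k6 k10 0 2))))))] (.c k44 (.l (.s
  k12 k8 1 (.s k20 k40 5 (.s k6 k9 2 (.s k22 k41 6 (.s k38 k54 3 (.d k21 k23 k55 0 4))))))) .n))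

def t1_93 : T TT 256 :=
  (.f k12 k8 1 (.q k22 [(.s k9 k6 2 (.s k41 k60 6 (.s k25 k57 3 (.s k51 k38 6 (.d k19 k28 k35 2
  3))))), (.s k60 k41 6 (.s k20 k40 5 (.s k36 k52 3 (.s k24 k48 5 (.d k28 k16 k44 1 3))))), (.s k6
  k9 2 (.s k38 k54 3 (.s k21 k55 4 (.s k63 k42 6 (.d k23 k20 k43 0 5)))))] .n))

def t1_94 : T TT 256 :=
  (.q k60 [(.s k12 k8 1 (.s k20 k40 5 (.s k36 k52 3 (.s k28 k44 3 (.d k24 k16 k48 1 5))))), (.s k12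
  k8 1 (.s k6 k9 2 (.s k22 k41 6 (.s k38 k54 3 (.s k25 k51 6 (.d k28 k19 k44 2 3)))))), (.s k20 k40
  5 (.s k22 k41 6 (.s k52 k36 3 (.s k7 k37 4 (.s k15 k11 1 (.d k5 k6 k10 0 2))))))] (.c k44 (.l (.s
  k12 k8 1 (.s k20 k40 5 (.s k6 k9 2 (.s k22 k41 6 (.s k38 k54 3 (.d k21 k23 k55 0 4))))))) .n))

def t1_95 : T TT 256 :=
  (.f k12 k8 1 (.q k70 [(.s k9 k6 2 (.s k137 k204 10 (.s k73 k201 7 (.s k195 k134 10 (.d k67 k76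
  k131 2 7))))), (.s k204 k137 10 (.s k68 k136 9 (.s k132 k196 7 (.s k72 k192 9 (.d k76 k64 k140 1
  7))))), (.s k6 k9 2 (.s k134 k198 7 (.s k69 k199 8 (.s k207 k138 10 (.d k71 k68 k139 0 9)))))] (.c
  k15 (.q k175 [(.s k9 k6 2 (.s k137 k204 10 (.s k73 k201 7 (.s k195 k134 10 (.d k67 k76 k131 2
  7))))), (.s k204 k137 10 (.s k68 k136 9 (.s k132 k196 7 (.s k72 k192 9 (.d k76 k64 k140 1 7))))),
  (.s k6 k9 2 (.s k134 k198 7 (.s k69 k199 8 (.s k207 k138 10 (.d k71 k68 k139 0 9)))))] .n) (.c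
  k175 (.q k15 [(.s k5 k10 2 (.d k6 k9 k7 2 0)), (.s k204 k137 10 (.s k68 k136 9 (.s k196 k132 7 (.d
  k7 k11 k133 1 8)))), (.s k9 k6 2 (.s k137 k204 10 (.s k73 k201 7 (.s k195 k134 10 (.d k67 k76 k131
  2 7)))))] .n) .n))))

def t1_96 : T TT 256 :=
  (.q k60 [(.s k12 k8 1 (.s k20 k40 5 (.s k36 k52 3 (.s k28 k44 3 (.d k24 k16 k48 1 5))))), (.s k12
  k8 1 (.s k6 k9 2 (.s k22 k41 6 (.s k38 k54 3 (.s k25 k51 6 (.d k28 k19 k44 2 3)))))), (.s k20 k40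
  5 (.s k22 k41 6 (.s k52 k36 3 (.s k7 k37 4 (.s k15 k11 1 (.d k5 k6 k10 0 2))))))] (.c k44 (.l (.s
  k12 k8 1 (.s k20 k40 5 (.s k6 k9 2 (.s k22 k41 6 (.s k38 k54 3 (.d k21 k23 k55 0 4))))))) .n))

def t1_97 : T TT 256 :=
  (.q k60 [(.s k12 k8 1 (.s k20 k40 5 (.s k36 k52 3 (.s k28 k44 3 (.d k24 k16 k48 1 5))))), (.s k12
  k8 1 (.s k6 k9 2 (.s k22 k41 6 (.s k38 k54 3 (.s k25 k51 6 (.d k28 k19 k44 2 3)))))), (.s k20 k40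
  5 (.s k22 k41 6 (.s k52 k36 3 (.s k7 k37 4 (.s k15 k11 1 (.d k5 k6 k10 0 2))))))] (.c k44 (.l (.s
  k12 k8 1 (.s k20 k40 5 (.s k6 k9 2 (.s k22 k41 6 (.s k38 k54 3 (.d k21 k23 k55 0 4))))))) .n))

def t1_98 : T TT 256 :=
  (.q k60 [(.s k12 k8 1 (.s k20 k40 5 (.s k36 k52 3 (.s k28 k44 3 (.d k24 k16 k48 1 5))))), (.s k12
  k8 1 (.s k6 k9 2 (.s k22 k41 6 (.s k38 k54 3 (.s k25 k51 6 (.d k28 k19 k44 2 3)))))), (.s k20 k40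
  5 (.s k22 k41 6 (.s k52 k36 3 (.s k7 k37 4 (.s k15 k11 1 (.d k5 k6 k10 0 2))))))] (.c k44 (.l (.s
  k12 k8 1 (.s k20 k40 5 (.s k6 k9 2 (.s k22 k41 6 (.s k38 k54 3 (.d k21 k23 k55 0 4))))))) .n))

def t1_99 : T TT 256 :=
  (.q k60 [(.s k12 k8 1 (.s k20 k40 5 (.s k36 k52 3 (.s k28 k44 3 (.d k24 k16 k48 1 5))))), (.s k12
  k8 1 (.s k6 k9 2 (.s k22 k41 6 (.s k38 k54 3 (.s k25 k51 6 (.d k28 k19 k44 2 3)))))), (.s k20 k40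
  5 (.s k22 k41 6 (.s k52 k36 3 (.s k7 k37 4 (.s k15 k11 1 (.d k5 k6 k10 0 2))))))] (.c k44 (.l (.s
  k12 k8 1 (.s k20 k40 5 (.s k6 k9 2 (.s k22 k41 6 (.s k38 k54 3 (.d k21 k23 k55 0 4))))))) .n))

def t1_100 : T TT 256 :=
  (.q k60 [(.s k12 k8 1 (.s k28 k44 3 (.s k20 k40 5 (.s k24 k16 1 (.d k36 k52 k48 3 5))))), (.s k12
  k8 1 (.s k6 k9 2 (.s k22 k41 6 (.s k38 k54 3 (.s k25 k51 6 (.d k28 k19 k44 2 3)))))), (.s k20 k40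
  5 (.s k22 k41 6 (.s k52 k36 3 (.s k7 k37 4 (.s k15 k11 1 (.d k5 k6 k10 0 2))))))] (.c k44 (.l (.s
  k12 k8 1 (.s k20 k40 5 (.s k6 k9 2 (.s k22 k41 6 (.s k38 k54 3 (.d k21 k23 k55 0 4))))))) .n))

def t1_101 : T TT 256 :=
  (.q k70 [(.s k12 k8 1 (.s k9 k6 2 (.s k137 k204 10 (.s k73 k201 7 (.s k195 k134 10 (.d k67 k76
  k131 2 7)))))), (.s k204 k137 10 (.s k68 k136 9 (.s k196 k132 7 (.s k7 k133 8 (.s k15 k11 1 (.d k5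
  k6 k10 0 2)))))), (.s k12 k8 1 (.s k204 k137 10 (.s k68 k136 9 (.s k132 k196 7 (.s k72 k192 9 (.d
  k76 k64 k140 1 7)))))), (.s k12 k8 1 (.s k6 k9 2 (.s k134 k198 7 (.s k69 k199 8 (.s k207 k138 10
  (.d k71 k68 k139 0 9))))))] .n)

def t1_102 : T TT 256 :=
  (.q k60 [(.s k12 k8 1 (.s k20 k40 5 (.s k36 k52 3 (.s k28 k44 3 (.d k24 k16 k48 1 5))))), (.s k12
  k8 1 (.s k6 k9 2 (.s k22 k41 6 (.s k38 k54 3 (.s k25 k51 6 (.d k28 k19 k44 2 3)))))), (.s k20 k40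
  5 (.s k22 k41 6 (.s k52 k36 3 (.s k7 k37 4 (.s k15 k11 1 (.d k5 k6 k10 0 2))))))] (.c k44 (.l (.s
  k12 k8 1 (.s k20 k40 5 (.s k6 k9 2 (.s k22 k41 6 (.s k38 k54 3 (.d k21 k23 k55 0 4))))))) .n))

def t1_103 : T TT 256 :=
  (.q k70 [(.s k12 k8 1 (.s k9 k6 2 (.s k137 k204 10 (.s k73 k201 7 (.s k195 k134 10 (.d k67 k76
  k131 2 7)))))), (.s k204 k137 10 (.s k68 k136 9 (.s k196 k132 7 (.s k7 k133 8 (.s k15 k11 1 (.d k5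
  k6 k10 0 2)))))), (.s k12 k8 1 (.s k204 k137 10 (.s k68 k136 9 (.s k132 k196 7 (.s k72 k192 9 (.d
  k76 k64 k140 1 7)))))), (.s k12 k8 1 (.s k6 k9 2 (.s k134 k198 7 (.s k69 k199 8 (.s k207 k138 10
  (.d k71 k68 k139 0 9))))))] .n)

def t1_104 : T TT 256 :=
  (.q k60 [(.s k12 k8 1 (.s k20 k40 5 (.s k36 k52 3 (.s k24 k48 5 (.d k28 k16 k44 1 3))))), (.s k12
  k8 1 (.s k6 k9 2 (.s k22 k41 6 (.s k38 k54 3 (.s k25 k51 6 (.d k28 k19 k44 2 3)))))), (.s k20 k40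
  5 (.s k22 k41 6 (.s k52 k36 3 (.s k7 k37 4 (.s k15 k11 1 (.d k5 k6 k10 0 2))))))] (.c k44 (.l (.s
  k12 k8 1 (.s k20 k40 5 (.s k6 k9 2 (.s k22 k41 6 (.s k38 k54 3 (.d k21 k23 k55 0 4))))))) .n))

def t1_105 : T TT 256 :=
  (.q k70 [(.s k12 k8 1 (.s k9 k6 2 (.s k137 k204 10 (.s k73 k201 7 (.s k195 k134 10 (.d k67 k76
  k131 2 7)))))), (.s k204 k137 10 (.s k68 k136 9 (.s k196 k132 7 (.s k7 k133 8 (.s k15 k11 1 (.d k5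
  k6 k10 0 2)))))), (.s k12 k8 1 (.s k204 k137 10 (.s k68 k136 9 (.s k132 k196 7 (.s k72 k192 9 (.d
  k76 k64 k140 1 7)))))), (.s k12 k8 1 (.s k6 k9 2 (.s k134 k198 7 (.s k69 k199 8 (.s k207 k138 10
  (.d k71 k68 k139 0 9))))))] .n)

def t1_106 : T TT 256 :=
  (.q k60 [(.s k12 k8 1 (.s k20 k40 5 (.s k36 k52 3 (.s k28 k44 3 (.d k24 k16 k48 1 5))))), (.s k12
  k8 1 (.s k6 k9 2 (.s k22 k41 6 (.s k38 k54 3 (.s k25 k51 6 (.d k28 k19 k44 2 3)))))), (.s k20 k40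
  5 (.s k22 k41 6 (.s k52 k36 3 (.s k7 k37 4 (.s k15 k11 1 (.d k5 k6 k10 0 2))))))] (.c k44 (.l (.s
  k12 k8 1 (.s k20 k40 5 (.s k6 k9 2 (.s k22 k41 6 (.s k38 k54 3 (.d k21 k23 k55 0 4))))))) .n))

def t1_107 : T TT 256 :=
  (.q k70 [(.s k12 k8 1 (.s k9 k6 2 (.s k137 k204 10 (.s k73 k201 7 (.s k195 k134 10 (.d k67 k76
  k131 2 7)))))), (.s k204 k137 10 (.s k68 k136 9 (.s k196 k132 7 (.s k7 k133 8 (.s k15 k11 1 (.d k5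
  k6 k10 0 2)))))), (.s k12 k8 1 (.s k204 k137 10 (.s k68 k136 9 (.s k132 k196 7 (.s k72 k192 9 (.d
  k76 k64 k140 1 7)))))), (.s k12 k8 1 (.s k6 k9 2 (.s k134 k198 7 (.s k69 k199 8 (.s k207 k138 10
  (.d k71 k68 k139 0 9))))))] .n)

def t1_108 : T TT 256 :=
  (.q k60 [(.s k12 k8 1 (.s k20 k40 5 (.s k36 k52 3 (.s k24 k48 5 (.d k28 k16 k44 1 3))))), (.s k12
  k8 1 (.s k6 k9 2 (.s k22 k41 6 (.s k38 k54 3 (.s k25 k51 6 (.d k28 k19 k44 2 3)))))), (.s k20 k40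
  5 (.s k22 k41 6 (.s k52 k36 3 (.s k7 k37 4 (.s k15 k11 1 (.d k5 k6 k10 0 2))))))] (.c k44 (.l (.s
  k12 k8 1 (.s k20 k40 5 (.s k6 k9 2 (.s k22 k41 6 (.s k38 k54 3 (.d k21 k23 k55 0 4))))))) .n))

def t1_109 : T TT 256 :=
  (.q k70 [(.s k12 k8 1 (.s k9 k6 2 (.s k137 k204 10 (.s k73 k201 7 (.s k195 k134 10 (.d k67 k76
  k131 2 7)))))), (.s k204 k137 10 (.s k68 k136 9 (.s k196 k132 7 (.s k7 k133 8 (.s k15 k11 1 (.d k5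
  k6 k10 0 2)))))), (.s k12 k8 1 (.s k204 k137 10 (.s k68 k136 9 (.s k132 k196 7 (.s k72 k192 9 (.d
  k76 k64 k140 1 7)))))), (.s k12 k8 1 (.s k6 k9 2 (.s k134 k198 7 (.s k69 k199 8 (.s k207 k138 10
  (.d k71 k68 k139 0 9))))))] .n)

def t1_110 : T TT 256 :=
  (.q k60 [(.s k12 k8 1 (.s k20 k40 5 (.s k36 k52 3 (.s k28 k44 3 (.d k24 k16 k48 1 5))))), (.s k12
  k8 1 (.s k6 k9 2 (.s k22 k41 6 (.s k38 k54 3 (.s k25 k51 6 (.d k28 k19 k44 2 3)))))), (.s k20 k40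
  5 (.s k22 k41 6 (.s k52 k36 3 (.s k7 k37 4 (.s k15 k11 1 (.d k5 k6 k10 0 2))))))] (.c k44 (.l (.s
  k12 k8 1 (.s k20 k40 5 (.s k6 k9 2 (.s k22 k41 6 (.s k38 k54 3 (.d k21 k23 k55 0 4))))))) .n))

def t1_111 : T TT 256 :=
  (.q k70 [(.s k12 k8 1 (.s k9 k6 2 (.s k137 k204 10 (.s k73 k201 7 (.s k195 k134 10 (.d k67 k76
  k131 2 7)))))), (.s k204 k137 10 (.s k68 k136 9 (.s k196 k132 7 (.s k7 k133 8 (.s k15 k11 1 (.d k5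
  k6 k10 0 2)))))), (.s k12 k8 1 (.s k204 k137 10 (.s k68 k136 9 (.s k132 k196 7 (.s k72 k192 9 (.d
  k76 k64 k140 1 7)))))), (.s k12 k8 1 (.s k6 k9 2 (.s k134 k198 7 (.s k69 k199 8 (.s k207 k138 10
  (.d k71 k68 k139 0 9))))))] .n)

def t1_112 : T TT 256 :=
  (.q k60 [(.s k12 k8 1 (.s k20 k40 5 (.s k36 k52 3 (.s k28 k44 3 (.d k24 k16 k48 1 5))))), (.s k12
  k8 1 (.s k6 k9 2 (.s k22 k41 6 (.s k38 k54 3 (.s k25 k51 6 (.d k28 k19 k44 2 3)))))), (.s k20 k40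
  5 (.s k22 k41 6 (.s k52 k36 3 (.s k7 k37 4 (.s k15 k11 1 (.d k5 k6 k10 0 2))))))] (.c k44 (.l (.s
  k12 k8 1 (.s k20 k40 5 (.s k6 k9 2 (.s k22 k41 6 (.s k38 k54 3 (.d k21 k23 k55 0 4))))))) .n))

def t1_113 : T TT 256 :=
  (.q k70 [(.s k12 k8 1 (.s k9 k6 2 (.s k137 k204 10 (.s k73 k201 7 (.s k195 k134 10 (.d k67 k76
  k131 2 7)))))), (.s k204 k137 10 (.s k68 k136 9 (.s k196 k132 7 (.s k7 k133 8 (.s k15 k11 1 (.d k5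
  k6 k10 0 2)))))), (.s k12 k8 1 (.s k204 k137 10 (.s k68 k136 9 (.s k132 k196 7 (.s k72 k192 9 (.d
  k76 k64 k140 1 7)))))), (.s k12 k8 1 (.s k6 k9 2 (.s k134 k198 7 (.s k69 k199 8 (.s k207 k138 10
  (.d k71 k68 k139 0 9))))))] .n)

def t1_114 : T TT 256 :=
  (.q k60 [(.s k12 k8 1 (.s k20 k40 5 (.s k36 k52 3 (.s k28 k44 3 (.d k24 k16 k48 1 5))))), (.s k12
  k8 1 (.s k6 k9 2 (.s k22 k41 6 (.s k38 k54 3 (.s k25 k51 6 (.d k28 k19 k44 2 3)))))), (.s k20 k40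
  5 (.s k22 k41 6 (.s k52 k36 3 (.s k7 k37 4 (.s k15 k11 1 (.d k5 k6 k10 0 2))))))] (.c k44 (.l (.s
  k12 k8 1 (.s k20 k40 5 (.s k6 k9 2 (.s k22 k41 6 (.s k38 k54 3 (.d k21 k23 k55 0 4))))))) .n))

def t1_115 : T TT 256 :=
  (.q k70 [(.s k12 k8 1 (.s k9 k6 2 (.s k137 k204 10 (.s k73 k201 7 (.s k195 k134 10 (.d k67 k76
  k131 2 7)))))), (.s k204 k137 10 (.s k68 k136 9 (.s k196 k132 7 (.s k7 k133 8 (.s k15 k11 1 (.d k5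
  k6 k10 0 2)))))), (.s k12 k8 1 (.s k204 k137 10 (.s k68 k136 9 (.s k132 k196 7 (.s k72 k192 9 (.d
  k76 k64 k140 1 7)))))), (.s k12 k8 1 (.s k6 k9 2 (.s k134 k198 7 (.s k69 k199 8 (.s k207 k138 10
  (.d k71 k68 k139 0 9))))))] .n)

def t1_116 : T TT 256 :=
  (.q k70 [(.s k12 k8 1 (.s k9 k6 2 (.s k137 k204 10 (.s k73 k201 7 (.s k195 k134 10 (.d k67 k76
  k131 2 7)))))), (.s k204 k137 10 (.s k68 k136 9 (.s k196 k132 7 (.s k7 k133 8 (.s k15 k11 1 (.d k5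
  k6 k10 0 2)))))), (.s k12 k8 1 (.s k204 k137 10 (.s k68 k136 9 (.s k132 k196 7 (.s k72 k192 9 (.d
  k76 k64 k140 1 7)))))), (.s k12 k8 1 (.s k6 k9 2 (.s k134 k198 7 (.s k69 k199 8 (.s k207 k138 10
  (.d k71 k68 k139 0 9))))))] .n)

def t1_117 : T TT 256 :=
  (.f k12 k8 1 (.q k22 [(.s k9 k6 2 (.s k41 k60 6 (.s k25 k57 3 (.s k51 k38 6 (.d k19 k28 k35 2
  3))))), (.s k60 k41 6 (.s k20 k40 5 (.s k36 k52 3 (.s k28 k44 3 (.d k24 k48 k16 5 1))))), (.s k6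
  k9 2 (.s k38 k54 3 (.s k21 k55 4 (.s k63 k42 6 (.d k23 k20 k43 0 5)))))] (.c k38 (.l (.s k6 k9 2
  (.s k60 k41 6 (.s k20 k40 5 (.s k52 k36 3 (.d k7 k5 k37 0 4)))))) (.c k48 (.q k186 [(.s k9 k6 2
  (.s k41 k60 6 (.s k25 k57 3 (.s k51 k38 6 (.d k19 k28 k35 2 3))))), (.s k60 k41 6 (.s k20 k40 5
  (.s k52 k36 3 (.s k7 k37 4 (.s k5 k6 0 (.d k15 k11 k10 1 2)))))), (.s k6 k9 2 (.s k38 k54 3 (.s
  k21 k55 4 (.s k63 k42 6 (.d k23 k20 k43 0 5))))), (.s k60 k41 6 (.s k20 k40 5 (.s k28 k44 3 (.s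
  k25 k19 2 (.s k38 k51 6 (.d k21 k23 k55 0 4))))))] (.c k38 (.l (.s k6 k9 2 (.s k60 k41 6 (.s k20
  k40 5 (.s k52 k36 3 (.d k7 k5 k37 0 4)))))) .n)) (.c k186 (.q k48 [(.s k36 k24 5 (.s k20 k52 3 (.d
  k60 k40 k41 5 6))), (.s k6 k9 2 (.s k18 k33 4 (.s k5 k7 0 (.s k26 k30 1 (.d k15 k10 k37 2 6)))))]
  .n) .n)))))

def t1_118 : T TT 256 :=
  (.q k70 [(.s k12 k8 1 (.s k9 k6 2 (.s k137 k204 10 (.s k73 k201 7 (.s k195 k134 10 (.d k67 k76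
  k131 2 7)))))), (.s k204 k137 10 (.s k68 k136 9 (.s k196 k132 7 (.s k7 k133 8 (.s k15 k11 1 (.d k5
  k6 k10 0 2)))))), (.s k12 k8 1 (.s k204 k137 10 (.s k68 k136 9 (.s k132 k196 7 (.s k72 k192 9 (.d
  k76 k64 k140 1 7)))))), (.s k12 k8 1 (.s k6 k9 2 (.s k134 k198 7 (.s k69 k199 8 (.s k207 k138 10
  (.d k71 k68 k139 0 9))))))] .n)

def t1_119 : T TT 256 :=
  (.f k12 k8 1 (.q k70 [(.s k9 k6 2 (.s k137 k204 10 (.s k73 k201 7 (.s k195 k134 10 (.d k67 k76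
  k131 2 7))))), (.s k204 k137 10 (.s k68 k136 9 (.s k132 k196 7 (.s k72 k192 9 (.d k76 k64 k140 1
  7))))), (.s k6 k9 2 (.s k134 k198 7 (.s k69 k199 8 (.s k207 k138 10 (.d k71 k68 k139 0 9)))))] (.c
  k51 (.q k187 [(.s k9 k6 2 (.s k137 k204 10 (.s k73 k201 7 (.s k195 k134 10 (.d k67 k76 k131 2
  7))))), (.s k204 k137 10 (.s k68 k136 9 (.s k132 k196 7 (.s k72 k192 9 (.d k76 k64 k140 1 7))))),
  (.s k6 k9 2 (.s k134 k198 7 (.s k69 k199 8 (.s k207 k138 10 (.d k71 k68 k139 0 9)))))] .n) (.c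
  k187 (.q k51 [(.s k34 k17 4 (.s k38 k25 6 (.s k42 k46 1 (.d k21 k55 k63 4 6)))), (.s k6 k9 2 (.s
  k137 k204 10 (.s k134 k198 7 (.s k195 k73 10 (.d k131 k140 k67 2 7)))))] .n) .n))))

def t1_120 : T TT 256 :=
  (.q k22 [(.s k12 k8 1 (.s k9 k6 2 (.s k41 k60 6 (.s k25 k57 3 (.s k51 k38 6 (.d k19 k28 k35 2
  3)))))), (.s k60 k41 6 (.s k20 k40 5 (.s k52 k36 3 (.s k7 k37 4 (.s k15 k11 1 (.d k5 k6 k10 0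
  2)))))), (.s k12 k8 1 (.s k60 k41 6 (.s k20 k40 5 (.s k36 k52 3 (.s k24 k48 5 (.d k28 k16 k44 1
  3)))))), (.s k12 k8 1 (.s k6 k9 2 (.s k38 k54 3 (.s k21 k55 4 (.s k63 k42 6 (.d k23 k20 k43 0
  5))))))] .n)

def t1_121 : T TT 256 :=
  (.q k22 [(.s k12 k8 1 (.s k9 k6 2 (.s k41 k60 6 (.s k25 k57 3 (.s k51 k38 6 (.d k19 k28 k35 2
  3)))))), (.s k60 k41 6 (.s k20 k40 5 (.s k52 k36 3 (.s k7 k37 4 (.s k15 k11 1 (.d k5 k6 k10 0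
  2)))))), (.s k12 k8 1 (.s k60 k41 6 (.s k20 k40 5 (.s k36 k52 3 (.s k24 k48 5 (.d k28 k16 k44 1
  3)))))), (.s k12 k8 1 (.s k6 k9 2 (.s k38 k54 3 (.s k21 k55 4 (.s k63 k42 6 (.d k23 k20 k43 0
  5))))))] .n)

def t1_122 : T TT 256 :=
  (.q k22 [(.s k12 k8 1 (.s k9 k6 2 (.s k41 k60 6 (.s k25 k57 3 (.s k51 k38 6 (.d k19 k28 k35 2
  3)))))), (.s k60 k41 6 (.s k20 k40 5 (.s k52 k36 3 (.s k7 k37 4 (.s k15 k11 1 (.d k5 k6 k10 0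
  2)))))), (.s k12 k8 1 (.s k60 k41 6 (.s k20 k40 5 (.s k36 k52 3 (.s k24 k48 5 (.d k28 k16 k44 1
  3)))))), (.s k12 k8 1 (.s k6 k9 2 (.s k38 k54 3 (.s k21 k55 4 (.s k63 k42 6 (.d k23 k20 k43 0
  5))))))] .n)

def t1_123 : T TT 256 :=
  (.q k22 [(.s k12 k8 1 (.s k9 k6 2 (.s k41 k60 6 (.s k25 k57 3 (.s k51 k38 6 (.d k19 k28 k35 2
  3)))))), (.s k60 k41 6 (.s k20 k40 5 (.s k52 k36 3 (.s k7 k37 4 (.s k15 k11 1 (.d k5 k6 k10 0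
  2)))))), (.s k12 k8 1 (.s k60 k41 6 (.s k20 k40 5 (.s k36 k52 3 (.s k24 k48 5 (.d k28 k16 k44 1
  3)))))), (.s k12 k8 1 (.s k6 k9 2 (.s k38 k54 3 (.s k21 k55 4 (.s k63 k42 6 (.d k23 k20 k43 0
  5))))))] .n)

def t1_124 : T TT 256 :=
  (.q k22 [(.s k12 k8 1 (.s k9 k6 2 (.s k41 k60 6 (.s k25 k57 3 (.s k51 k38 6 (.d k19 k28 k35 2
  3)))))), (.s k60 k41 6 (.s k20 k40 5 (.s k52 k36 3 (.s k7 k37 4 (.s k15 k11 1 (.d k5 k6 k10 0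
  2)))))), (.s k12 k8 1 (.s k60 k41 6 (.s k20 k40 5 (.s k36 k52 3 (.s k24 k48 5 (.d k28 k16 k44 1
  3)))))), (.s k12 k8 1 (.s k6 k9 2 (.s k38 k54 3 (.s k21 k55 4 (.s k63 k42 6 (.d k23 k20 k43 0
  5))))))] .n)

def t1_125 : T TT 256 :=
  (.q k60 [(.s k12 k8 1 (.s k20 k40 5 (.s k36 k52 3 (.s k28 k44 3 (.d k24 k16 k48 1 5))))), (.s k12
  k8 1 (.s k6 k9 2 (.s k22 k41 6 (.s k38 k54 3 (.s k25 k51 6 (.d k28 k19 k44 2 3)))))), (.s k20 k40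
  5 (.s k22 k41 6 (.s k52 k36 3 (.s k7 k37 4 (.s k15 k11 1 (.d k5 k6 k10 0 2))))))] (.c k44 (.l (.s
  k12 k8 1 (.s k20 k40 5 (.s k6 k9 2 (.s k22 k41 6 (.s k38 k54 3 (.d k21 k23 k55 0 4))))))) .n))

def t1_126 : T TT 256 :=
  (.q k22 [(.s k12 k8 1 (.s k9 k6 2 (.s k41 k60 6 (.s k25 k57 3 (.s k51 k38 6 (.d k19 k28 k35 2
  3)))))), (.s k60 k41 6 (.s k20 k40 5 (.s k52 k36 3 (.s k7 k37 4 (.s k15 k11 1 (.d k5 k6 k10 0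
  2)))))), (.s k12 k8 1 (.s k60 k41 6 (.s k20 k40 5 (.s k36 k52 3 (.s k24 k48 5 (.d k28 k16 k44 1
  3)))))), (.s k12 k8 1 (.s k6 k9 2 (.s k38 k54 3 (.s k21 k55 4 (.s k63 k42 6 (.d k23 k20 k43 0
  5))))))] .n)

def t1_127 : T TT 256 :=
  (.f k12 k8 1 (.q k22 [(.s k9 k6 2 (.s k41 k60 6 (.s k25 k57 3 (.s k51 k38 6 (.d k19 k28 k35 2
  3))))), (.s k60 k41 6 (.s k20 k40 5 (.s k36 k52 3 (.s k24 k48 5 (.d k28 k16 k44 1 3))))), (.s k6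
  k9 2 (.s k38 k54 3 (.s k21 k55 4 (.s k63 k42 6 (.d k23 k20 k43 0 5)))))] (.c k63 (.q k191 [(.s k9
  k6 2 (.s k41 k60 6 (.s k25 k57 3 (.s k51 k38 6 (.d k19 k28 k35 2 3))))), (.s k60 k41 6 (.s k20 k40
  5 (.s k36 k52 3 (.s k24 k48 5 (.d k28 k16 k44 1 3))))), (.s k6 k9 2 (.s k38 k54 3 (.s k21 k55 4
  (.s k20 k23 0 (.s k52 k36 3 (.d k7 k5 k37 0 4))))))] .n) (.c k191 (.q k63 [(.s k23 k43 5 (.d k21
  k20 k42 0 6)), (.s k6 k9 2 (.s k41 k60 6 (.s k38 k54 3 (.s k51 k25 6 (.d k35 k44 k19 2 3)))))] (.c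
  k42 (.l (.s k23 k43 5 (.s k20 k21 0 (.d k60 k40 k41 5 6)))) .n)) .n))))

def t1_128 : T TT 256 :=
  (.q k22 [(.s k12 k8 1 (.s k9 k6 2 (.s k41 k60 6 (.s k25 k57 3 (.s k51 k38 6 (.d k19 k28 k35 2
  3)))))), (.s k60 k41 6 (.s k20 k40 5 (.s k52 k36 3 (.s k7 k37 4 (.s k15 k11 1 (.d k5 k6 k10 0
  2)))))), (.s k12 k8 1 (.s k60 k41 6 (.s k20 k40 5 (.s k36 k52 3 (.s k24 k48 5 (.d k28 k16 k44 1
  3)))))), (.s k12 k8 1 (.s k6 k9 2 (.s k38 k54 3 (.s k21 k55 4 (.s k63 k42 6 (.d k23 k20 k43 0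
  5))))))] .n)

def t1_129 : T TT 256 :=
  (.f k12 k8 1 (.f k9 k6 2 (.q k60 [(.s k20 k40 5 (.s k36 k52 3 (.s k28 k44 3 (.d k24 k16 k48 1
  5)))), (.s k41 k22 6 (.s k25 k57 3 (.s k38 k51 6 (.d k44 k35 k28 2 3)))), (.s k40 k20 5 (.s k41
  k22 6 (.s k25 k57 3 (.s k38 k51 6 (.s k21 k55 4 (.d k42 k63 k43 6 0))))))] (.c k65 (.q k193 [(.s
  k20 k40 5 (.s k36 k52 3 (.s k28 k44 3 (.d k24 k16 k48 1 5)))), (.s k41 k22 6 (.s k25 k57 3 (.s k38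
  k51 6 (.d k44 k35 k28 2 3)))), (.s k40 k20 5 (.s k41 k22 6 (.s k25 k57 3 (.s k38 k51 6 (.s k21 k55
  4 (.d k42 k63 k43 6 0))))))] .n) (.c k193 (.q k65 [(.s k20 k40 5 (.s k36 k52 3 (.s k28 k44 3 (.d
  k24 k16 k48 1 5)))), (.s k195 k130 8 (.s k73 k134 10 (.s k137 k201 7 (.s k70 k204 10 (.d k67 k131
  k76 7 2)))))] .n) .n)))))

def t1_130 : T TT 256 :=
  (.q k60 [(.s k12 k8 1 (.s k20 k40 5 (.s k36 k52 3 (.s k28 k44 3 (.d k24 k16 k48 1 5))))), (.s k12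
  k8 1 (.s k6 k9 2 (.s k22 k41 6 (.s k38 k54 3 (.s k25 k51 6 (.d k28 k19 k44 2 3)))))), (.s k20 k40
  5 (.s k22 k41 6 (.s k52 k36 3 (.s k7 k37 4 (.s k15 k11 1 (.d k5 k6 k10 0 2))))))] (.c k44 (.l (.s
  k12 k8 1 (.s k20 k40 5 (.s k6 k9 2 (.s k22 k41 6 (.s k38 k54 3 (.d k21 k23 k55 0 4))))))) .n))

def t1_131 : T TT 256 :=
  (.q k60 [(.s k12 k8 1 (.s k20 k40 5 (.s k36 k52 3 (.s k28 k44 3 (.d k24 k16 k48 1 5))))), (.s k12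
  k8 1 (.s k6 k9 2 (.s k22 k41 6 (.s k38 k54 3 (.s k25 k51 6 (.d k28 k19 k44 2 3)))))), (.s k20 k40
  5 (.s k22 k41 6 (.s k52 k36 3 (.s k7 k37 4 (.s k15 k11 1 (.d k5 k6 k10 0 2))))))] (.c k44 (.l (.s
  k12 k8 1 (.s k20 k40 5 (.s k6 k9 2 (.s k22 k41 6 (.s k38 k54 3 (.d k21 k23 k55 0 4))))))) .n))

def t1_132 : T TT 256 :=
  (.q k60 [(.s k12 k8 1 (.s k20 k40 5 (.s k36 k52 3 (.s k28 k44 3 (.d k24 k16 k48 1 5))))), (.s k12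
  k8 1 (.s k6 k9 2 (.s k22 k41 6 (.s k38 k54 3 (.s k25 k51 6 (.d k28 k19 k44 2 3)))))), (.s k20 k40
  5 (.s k22 k41 6 (.s k52 k36 3 (.s k7 k37 4 (.s k15 k11 1 (.d k5 k6 k10 0 2))))))] (.c k44 (.l (.s
  k12 k8 1 (.s k20 k40 5 (.s k6 k9 2 (.s k22 k41 6 (.s k38 k54 3 (.d k21 k23 k55 0 4))))))) .n))

def t1_133 : T TT 256 :=
  (.q k60 [(.s k12 k8 1 (.s k20 k40 5 (.s k36 k52 3 (.s k28 k44 3 (.d k24 k16 k48 1 5))))), (.s k12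
  k8 1 (.s k6 k9 2 (.s k22 k41 6 (.s k38 k54 3 (.s k25 k51 6 (.d k28 k19 k44 2 3)))))), (.s k20 k40
  5 (.s k22 k41 6 (.s k52 k36 3 (.s k7 k37 4 (.s k15 k11 1 (.d k5 k6 k10 0 2))))))] (.c k44 (.l (.s
  k12 k8 1 (.s k20 k40 5 (.s k6 k9 2 (.s k22 k41 6 (.s k38 k54 3 (.d k21 k23 k55 0 4))))))) .n))

def t1_134 : T TT 256 :=
  (.q k60 [(.s k12 k8 1 (.s k20 k40 5 (.s k36 k52 3 (.s k28 k44 3 (.d k24 k16 k48 1 5))))), (.s k12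
  k8 1 (.s k6 k9 2 (.s k22 k41 6 (.s k38 k54 3 (.s k25 k51 6 (.d k28 k19 k44 2 3)))))), (.s k20 k40
  5 (.s k22 k41 6 (.s k52 k36 3 (.s k7 k37 4 (.s k15 k11 1 (.d k5 k6 k10 0 2))))))] (.c k44 (.l (.s
  k12 k8 1 (.s k20 k40 5 (.s k6 k9 2 (.s k22 k41 6 (.s k38 k54 3 (.d k21 k23 k55 0 4))))))) .n))

def t1_135 : T TT 256 :=
  (.q k60 [(.s k12 k8 1 (.s k20 k40 5 (.s k36 k52 3 (.s k28 k44 3 (.d k24 k16 k48 1 5))))), (.s k12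
  k8 1 (.s k6 k9 2 (.s k22 k41 6 (.s k38 k54 3 (.s k25 k51 6 (.d k28 k19 k44 2 3)))))), (.s k20 k40
  5 (.s k22 k41 6 (.s k52 k36 3 (.s k7 k37 4 (.s k15 k11 1 (.d k5 k6 k10 0 2))))))] (.c k44 (.l (.s
  k12 k8 1 (.s k20 k40 5 (.s k6 k9 2 (.s k22 k41 6 (.s k38 k54 3 (.d k21 k23 k55 0 4))))))) .n))

def t1_136 : T TT 256 :=
  (.q k60 [(.s k12 k8 1 (.s k20 k40 5 (.s k36 k52 3 (.s k28 k44 3 (.d k24 k16 k48 1 5))))), (.s k20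
  k40 5 (.s k22 k41 6 (.s k52 k36 3 (.s k7 k37 4 (.s k15 k11 1 (.d k5 k6 k10 0 2)))))), (.s k12 k8 1
  (.s k6 k9 2 (.s k22 k41 6 (.s k38 k54 3 (.s k25 k51 6 (.d k28 k19 k44 2 3))))))] (.c k44 (.l (.s
  k12 k8 1 (.s k20 k40 5 (.s k6 k9 2 (.s k22 k41 6 (.s k38 k54 3 (.d k21 k23 k55 0 4))))))) .n))

def t1_137 : T TT 256 :=
  (.f k12 k8 1 (.q k60 [(.s k20 k40 5 (.s k36 k52 3 (.s k28 k44 3 (.d k24 k16 k48 1 5)))), (.s k6 k9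
  2 (.s k22 k41 6 (.s k38 k54 3 (.s k25 k51 6 (.d k28 k19 k44 2 3))))), (.s k6 k9 2 (.s k22 k41 6
  (.s k38 k54 3 (.s k21 k55 4 (.d k20 k23 k40 0 5)))))] (.c k69 (.q k205 [(.s k20 k40 5 (.s k36 k52
  3 (.s k28 k44 3 (.d k24 k16 k48 1 5)))), (.s k6 k9 2 (.s k22 k41 6 (.s k38 k54 3 (.s k25 k51 6 (.d
  k28 k19 k44 2 3))))), (.s k6 k9 2 (.s k22 k41 6 (.s k38 k54 3 (.s k21 k55 4 (.d k20 k23 k40 0
  5)))))] .n) (.c k205 (.q k69 [(.s k20 k40 5 (.s k36 k52 3 (.s k28 k44 3 (.d k24 k16 k48 1 5)))),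
  (.s k138 k207 10 (.s k134 k199 8 (.s k195 k73 10 (.d k130 k142 k65 1 8))))] .n) .n))))

def t1_138 : T TT 256 :=
  (.q k60 [(.s k12 k8 1 (.s k20 k40 5 (.s k36 k52 3 (.s k28 k44 3 (.d k24 k16 k48 1 5))))), (.s k20
  k40 5 (.s k22 k41 6 (.s k52 k36 3 (.s k7 k37 4 (.s k15 k11 1 (.d k5 k6 k10 0 2)))))), (.s k12 k8 1
  (.s k6 k9 2 (.s k22 k41 6 (.s k38 k54 3 (.s k25 k51 6 (.d k28 k19 k44 2 3))))))] (.c k44 (.l (.s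
  k12 k8 1 (.s k20 k40 5 (.s k6 k9 2 (.s k22 k41 6 (.s k38 k54 3 (.d k21 k23 k55 0 4))))))) .n))

def t1_139 : T TT 256 :=
  (.q k60 [(.s k12 k8 1 (.s k20 k40 5 (.s k36 k52 3 (.s k28 k44 3 (.d k24 k16 k48 1 5))))), (.s k12
  k8 1 (.s k6 k9 2 (.s k22 k41 6 (.s k38 k54 3 (.s k25 k51 6 (.d k28 k19 k44 2 3)))))), (.s k20 k40
  5 (.s k22 k41 6 (.s k52 k36 3 (.s k7 k37 4 (.s k15 k11 1 (.d k5 k6 k10 0 2))))))] (.c k44 (.l (.s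
  k12 k8 1 (.s k20 k40 5 (.s k6 k9 2 (.s k22 k41 6 (.s k38 k54 3 (.d k21 k23 k55 0 4))))))) .n))

def t1_140 : T TT 256 :=
  (.q k22 [(.s k12 k8 1 (.s k9 k6 2 (.s k41 k60 6 (.s k25 k57 3 (.s k51 k38 6 (.d k19 k28 k35 2
  3)))))), (.s k60 k41 6 (.s k20 k40 5 (.s k52 k36 3 (.s k7 k37 4 (.s k15 k11 1 (.d k5 k6 k10 0
  2)))))), (.s k12 k8 1 (.s k60 k41 6 (.s k20 k40 5 (.s k36 k52 3 (.s k24 k48 5 (.d k28 k16 k44 1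
  3)))))), (.s k12 k8 1 (.s k6 k9 2 (.s k38 k54 3 (.s k21 k55 4 (.s k63 k42 6 (.d k23 k20 k43 0
  5))))))] .n)

def t1_141 : T TT 256 :=
  (.q k60 [(.s k12 k8 1 (.s k20 k40 5 (.s k36 k52 3 (.s k28 k44 3 (.d k24 k16 k48 1 5))))), (.s k12
  k8 1 (.s k6 k9 2 (.s k22 k41 6 (.s k38 k54 3 (.s k25 k51 6 (.d k28 k19 k44 2 3)))))), (.s k20 k40
  5 (.s k22 k41 6 (.s k52 k36 3 (.s k7 k37 4 (.s k15 k11 1 (.d k5 k6 k10 0 2))))))] (.c k44 (.l (.s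
  k12 k8 1 (.s k20 k40 5 (.s k6 k9 2 (.s k22 k41 6 (.s k38 k54 3 (.d k21 k23 k55 0 4))))))) .n))

def t1_142 : T TT 256 :=
  (.q k22 [(.s k12 k8 1 (.s k9 k6 2 (.s k41 k60 6 (.s k25 k57 3 (.s k51 k38 6 (.d k19 k28 k35 2
  3)))))), (.s k60 k41 6 (.s k20 k40 5 (.s k52 k36 3 (.s k7 k37 4 (.s k15 k11 1 (.d k5 k6 k10 0
  2)))))), (.s k12 k8 1 (.s k60 k41 6 (.s k20 k40 5 (.s k36 k52 3 (.s k24 k48 5 (.d k28 k16 k44 1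
  3)))))), (.s k12 k8 1 (.s k6 k9 2 (.s k38 k54 3 (.s k21 k55 4 (.s k63 k42 6 (.d k23 k20 k43 0
  5))))))] .n)

def t1_143 : T TT 256 :=
  (.q k60 [(.s k12 k8 1 (.s k20 k40 5 (.s k36 k52 3 (.s k28 k44 3 (.d k24 k16 k48 1 5))))), (.s k12
  k8 1 (.s k6 k9 2 (.s k22 k41 6 (.s k38 k54 3 (.s k25 k51 6 (.d k28 k19 k44 2 3)))))), (.s k20 k40
  5 (.s k22 k41 6 (.s k52 k36 3 (.s k7 k37 4 (.s k15 k11 1 (.d k5 k6 k10 0 2))))))] (.c k44 (.l (.s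
  k12 k8 1 (.s k20 k40 5 (.s k6 k9 2 (.s k22 k41 6 (.s k38 k54 3 (.d k21 k23 k55 0 4))))))) .n))

def t1_144 : T TT 256 :=
  (.q k22 [(.s k12 k8 1 (.s k9 k6 2 (.s k41 k60 6 (.s k25 k57 3 (.s k51 k38 6 (.d k19 k28 k35 2
  3)))))), (.s k60 k41 6 (.s k20 k40 5 (.s k52 k36 3 (.s k7 k37 4 (.s k15 k11 1 (.d k5 k6 k10 0
  2)))))), (.s k12 k8 1 (.s k60 k41 6 (.s k20 k40 5 (.s k36 k52 3 (.s k24 k48 5 (.d k28 k16 k44 1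
  3)))))), (.s k12 k8 1 (.s k6 k9 2 (.s k38 k54 3 (.s k21 k55 4 (.s k63 k42 6 (.d k23 k20 k43 0
  5))))))] .n)

def t1_145 : T TT 256 :=
  (.q k22 [(.s k12 k8 1 (.s k9 k6 2 (.s k41 k60 6 (.s k25 k57 3 (.s k51 k38 6 (.d k19 k28 k35 2
  3)))))), (.s k60 k41 6 (.s k20 k40 5 (.s k52 k36 3 (.s k7 k37 4 (.s k15 k11 1 (.d k5 k6 k10 0
  2)))))), (.s k12 k8 1 (.s k60 k41 6 (.s k20 k40 5 (.s k36 k52 3 (.s k24 k48 5 (.d k28 k16 k44 1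
  3)))))), (.s k12 k8 1 (.s k6 k9 2 (.s k38 k54 3 (.s k21 k55 4 (.s k63 k42 6 (.d k23 k20 k43 0
  5))))))] .n)

def t1_146 : T TT 256 :=
  (.q k60 [(.s k12 k8 1 (.s k20 k40 5 (.s k36 k52 3 (.s k28 k44 3 (.d k24 k16 k48 1 5))))), (.s k12
  k8 1 (.s k6 k9 2 (.s k22 k41 6 (.s k38 k54 3 (.s k25 k51 6 (.d k28 k19 k44 2 3)))))), (.s k20 k40
  5 (.s k22 k41 6 (.s k52 k36 3 (.s k7 k37 4 (.s k15 k11 1 (.d k5 k6 k10 0 2))))))] (.c k44 (.l (.s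
  k12 k8 1 (.s k20 k40 5 (.s k6 k9 2 (.s k22 k41 6 (.s k38 k54 3 (.d k21 k23 k55 0 4))))))) .n))

def t1_147 : T TT 256 :=
  (.q k22 [(.s k12 k8 1 (.s k9 k6 2 (.s k41 k60 6 (.s k25 k57 3 (.s k51 k38 6 (.d k19 k28 k35 2
  3)))))), (.s k60 k41 6 (.s k20 k40 5 (.s k52 k36 3 (.s k7 k37 4 (.s k15 k11 1 (.d k5 k6 k10 0
  2)))))), (.s k12 k8 1 (.s k60 k41 6 (.s k20 k40 5 (.s k36 k52 3 (.s k24 k48 5 (.d k28 k16 k44 1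
  3)))))), (.s k12 k8 1 (.s k6 k9 2 (.s k38 k54 3 (.s k21 k55 4 (.s k63 k42 6 (.d k23 k20 k43 0
  5))))))] .n)

def t1_148 : T TT 256 :=
  (.q k60 [(.s k12 k8 1 (.s k28 k44 3 (.s k20 k40 5 (.s k24 k16 1 (.d k36 k52 k48 3 5))))), (.s k12
  k8 1 (.s k6 k9 2 (.s k22 k41 6 (.s k38 k54 3 (.s k25 k51 6 (.d k28 k19 k44 2 3)))))), (.s k20 k40
  5 (.s k22 k41 6 (.s k52 k36 3 (.s k7 k37 4 (.s k15 k11 1 (.d k5 k6 k10 0 2))))))] (.c k44 (.l (.s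
  k12 k8 1 (.s k20 k40 5 (.s k6 k9 2 (.s k22 k41 6 (.s k38 k54 3 (.d k21 k23 k55 0 4))))))) .n))

def t1_149 : T TT 256 :=
  (.q k22 [(.s k12 k8 1 (.s k9 k6 2 (.s k41 k60 6 (.s k25 k57 3 (.s k51 k38 6 (.d k19 k28 k35 2
  3)))))), (.s k60 k41 6 (.s k20 k40 5 (.s k52 k36 3 (.s k7 k37 4 (.s k15 k11 1 (.d k5 k6 k10 0
  2)))))), (.s k12 k8 1 (.s k60 k41 6 (.s k20 k40 5 (.s k36 k52 3 (.s k24 k48 5 (.d k28 k16 k44 1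
  3)))))), (.s k12 k8 1 (.s k6 k9 2 (.s k38 k54 3 (.s k21 k55 4 (.s k63 k42 6 (.d k23 k20 k43 0
  5))))))] .n)

def t1_150 : T TT 256 :=
  (.q k60 [(.s k12 k8 1 (.s k28 k44 3 (.s k20 k40 5 (.s k24 k16 1 (.d k36 k52 k48 3 5))))), (.s k12
  k8 1 (.s k6 k9 2 (.s k22 k41 6 (.s k38 k54 3 (.s k25 k51 6 (.d k28 k19 k44 2 3)))))), (.s k20 k40
  5 (.s k22 k41 6 (.s k52 k36 3 (.s k7 k37 4 (.s k15 k11 1 (.d k5 k6 k10 0 2))))))] (.c k44 (.l (.s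
  k12 k8 1 (.s k20 k40 5 (.s k6 k9 2 (.s k22 k41 6 (.s k38 k54 3 (.d k21 k23 k55 0 4))))))) .n))

def t1_151 : T TT 256 :=
  (.q k22 [(.s k12 k8 1 (.s k9 k6 2 (.s k41 k60 6 (.s k25 k57 3 (.s k51 k38 6 (.d k19 k28 k35 2
  3)))))), (.s k60 k41 6 (.s k20 k40 5 (.s k52 k36 3 (.s k7 k37 4 (.s k15 k11 1 (.d k5 k6 k10 0
  2)))))), (.s k12 k8 1 (.s k60 k41 6 (.s k20 k40 5 (.s k36 k52 3 (.s k24 k48 5 (.d k28 k16 k44 1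
  3)))))), (.s k12 k8 1 (.s k6 k9 2 (.s k38 k54 3 (.s k21 k55 4 (.s k63 k42 6 (.d k23 k20 k43 0
  5))))))] .n)

def t1_152 : T TT 256 :=
  (.q k60 [(.s k12 k8 1 (.s k20 k40 5 (.s k36 k52 3 (.s k28 k44 3 (.d k24 k16 k48 1 5))))), (.s k12
  k8 1 (.s k6 k9 2 (.s k22 k41 6 (.s k38 k54 3 (.s k25 k51 6 (.d k28 k19 k44 2 3)))))), (.s k20 k40
  5 (.s k22 k41 6 (.s k52 k36 3 (.s k7 k37 4 (.s k15 k11 1 (.d k5 k6 k10 0 2))))))] (.c k44 (.l (.s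
  k12 k8 1 (.s k20 k40 5 (.s k6 k9 2 (.s k22 k41 6 (.s k38 k54 3 (.d k21 k23 k55 0 4))))))) .n))

def t1_153 : T TT 256 :=
  (.q k22 [(.s k12 k8 1 (.s k9 k6 2 (.s k41 k60 6 (.s k25 k57 3 (.s k51 k38 6 (.d k19 k28 k35 2
  3)))))), (.s k60 k41 6 (.s k20 k40 5 (.s k52 k36 3 (.s k7 k37 4 (.s k15 k11 1 (.d k5 k6 k10 0
  2)))))), (.s k12 k8 1 (.s k60 k41 6 (.s k20 k40 5 (.s k36 k52 3 (.s k24 k48 5 (.d k28 k16 k44 1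
  3)))))), (.s k12 k8 1 (.s k6 k9 2 (.s k38 k54 3 (.s k21 k55 4 (.s k63 k42 6 (.d k23 k20 k43 0
  5))))))] .n)

def t1_154 : T TT 256 :=
  (.q k60 [(.s k12 k8 1 (.s k20 k40 5 (.s k36 k52 3 (.s k28 k44 3 (.d k24 k16 k48 1 5))))), (.s k12
  k8 1 (.s k6 k9 2 (.s k22 k41 6 (.s k38 k54 3 (.s k25 k51 6 (.d k28 k19 k44 2 3)))))), (.s k20 k40
  5 (.s k22 k41 6 (.s k52 k36 3 (.s k7 k37 4 (.s k15 k11 1 (.d k5 k6 k10 0 2))))))] (.c k44 (.l (.s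
  k12 k8 1 (.s k20 k40 5 (.s k6 k9 2 (.s k22 k41 6 (.s k38 k54 3 (.d k21 k23 k55 0 4))))))) .n))

def t1_155 : T TT 256 :=
  (.q k22 [(.s k12 k8 1 (.s k9 k6 2 (.s k41 k60 6 (.s k25 k57 3 (.s k51 k38 6 (.d k19 k28 k35 2
  3)))))), (.s k60 k41 6 (.s k20 k40 5 (.s k52 k36 3 (.s k7 k37 4 (.s k15 k11 1 (.d k5 k6 k10 0
  2)))))), (.s k12 k8 1 (.s k60 k41 6 (.s k20 k40 5 (.s k36 k52 3 (.s k24 k48 5 (.d k28 k16 k44 1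
  3)))))), (.s k12 k8 1 (.s k6 k9 2 (.s k38 k54 3 (.s k21 k55 4 (.s k63 k42 6 (.d k23 k20 k43 0
  5))))))] .n)

def t1_156 : T TT 256 :=
  (.q k60 [(.s k12 k8 1 (.s k20 k40 5 (.s k36 k52 3 (.s k28 k44 3 (.d k24 k16 k48 1 5))))), (.s k12
  k8 1 (.s k6 k9 2 (.s k22 k41 6 (.s k38 k54 3 (.s k25 k51 6 (.d k28 k19 k44 2 3)))))), (.s k20 k40
  5 (.s k22 k41 6 (.s k52 k36 3 (.s k7 k37 4 (.s k15 k11 1 (.d k5 k6 k10 0 2))))))] (.c k44 (.l (.s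
  k12 k8 1 (.s k20 k40 5 (.s k6 k9 2 (.s k22 k41 6 (.s k38 k54 3 (.d k21 k23 k55 0 4))))))) .n))

def t1_157 : T TT 256 :=
  (.q k22 [(.s k12 k8 1 (.s k9 k6 2 (.s k41 k60 6 (.s k25 k57 3 (.s k51 k38 6 (.d k19 k28 k35 2
  3)))))), (.s k60 k41 6 (.s k20 k40 5 (.s k52 k36 3 (.s k7 k37 4 (.s k15 k11 1 (.d k5 k6 k10 0
  2)))))), (.s k12 k8 1 (.s k60 k41 6 (.s k20 k40 5 (.s k36 k52 3 (.s k24 k48 5 (.d k28 k16 k44 1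
  3)))))), (.s k12 k8 1 (.s k6 k9 2 (.s k38 k54 3 (.s k21 k55 4 (.s k63 k42 6 (.d k23 k20 k43 0
  5))))))] .n)

def t1_158 : T TT 256 :=
  (.q k60 [(.s k12 k8 1 (.s k20 k40 5 (.s k36 k52 3 (.s k28 k44 3 (.d k24 k16 k48 1 5))))), (.s k12
  k8 1 (.s k6 k9 2 (.s k22 k41 6 (.s k38 k54 3 (.s k25 k51 6 (.d k28 k19 k44 2 3)))))), (.s k20 k40
  5 (.s k22 k41 6 (.s k52 k36 3 (.s k7 k37 4 (.s k15 k11 1 (.d k5 k6 k10 0 2))))))] (.c k44 (.l (.s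
  k12 k8 1 (.s k20 k40 5 (.s k6 k9 2 (.s k22 k41 6 (.s k38 k54 3 (.d k21 k23 k55 0 4))))))) .n))

def t1_159 : T TT 256 :=
  (.q k22 [(.s k12 k8 1 (.s k9 k6 2 (.s k41 k60 6 (.s k25 k57 3 (.s k51 k38 6 (.d k19 k28 k35 2
  3)))))), (.s k60 k41 6 (.s k20 k40 5 (.s k52 k36 3 (.s k7 k37 4 (.s k15 k11 1 (.d k5 k6 k10 0
  2)))))), (.s k12 k8 1 (.s k60 k41 6 (.s k20 k40 5 (.s k36 k52 3 (.s k24 k48 5 (.d k28 k16 k44 1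
  3)))))), (.s k12 k8 1 (.s k6 k9 2 (.s k38 k54 3 (.s k21 k55 4 (.s k63 k42 6 (.d k23 k20 k43 0
  5))))))] .n)

def t1_160 : T TT 256 :=
  (.q k60 [(.s k12 k8 1 (.s k20 k40 5 (.s k36 k52 3 (.s k28 k44 3 (.d k24 k16 k48 1 5))))), (.s k12
  k8 1 (.s k6 k9 2 (.s k22 k41 6 (.s k38 k54 3 (.s k25 k51 6 (.d k28 k19 k44 2 3)))))), (.s k20 k40
  5 (.s k22 k41 6 (.s k52 k36 3 (.s k7 k37 4 (.s k15 k11 1 (.d k5 k6 k10 0 2))))))] (.c k44 (.l (.s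
  k12 k8 1 (.s k20 k40 5 (.s k6 k9 2 (.s k22 k41 6 (.s k38 k54 3 (.d k21 k23 k55 0 4))))))) .n))

def t1_161 : T TT 256 :=
  (.f k12 k8 1 (.q k22 [(.s k9 k6 2 (.s k41 k60 6 (.s k25 k57 3 (.s k51 k38 6 (.d k19 k28 k35 2
  3))))), (.s k60 k41 6 (.s k20 k40 5 (.s k36 k52 3 (.s k24 k48 5 (.d k28 k16 k44 1 3))))), (.s k6
  k9 2 (.s k38 k54 3 (.s k21 k55 4 (.s k63 k42 6 (.d k23 k20 k43 0 5)))))] (.c k81 (.q k241 [(.s k9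
  k6 2 (.s k41 k60 6 (.s k25 k57 3 (.s k51 k38 6 (.d k19 k28 k35 2 3))))), (.s k60 k41 6 (.s k20 k40
  5 (.s k36 k52 3 (.s k24 k48 5 (.d k28 k16 k44 1 3))))), (.s k6 k9 2 (.s k38 k54 3 (.s k21 k55 4
  (.s k63 k42 6 (.d k23 k20 k43 0 5)))))] .n) (.c k241 (.q k81 [(.s k9 k6 2 (.s k41 k60 6 (.s k25
  k57 3 (.s k51 k38 6 (.d k19 k28 k35 2 3))))), (.s k60 k41 6 (.s k20 k40 5 (.s k36 k52 3 (.s k24
  k48 5 (.d k28 k16 k44 1 3))))), (.s k6 k9 2 (.s k38 k54 3 (.s k21 k55 4 (.s k63 k42 6 (.d k23 k20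
  k43 0 5)))))] .n) .n))))

def t1_162 : T TT 256 :=
  (.q k60 [(.s k12 k8 1 (.s k20 k40 5 (.s k36 k52 3 (.s k28 k44 3 (.d k24 k16 k48 1 5))))), (.s k12
  k8 1 (.s k6 k9 2 (.s k22 k41 6 (.s k38 k54 3 (.s k25 k51 6 (.d k28 k19 k44 2 3)))))), (.s k20 k40
  5 (.s k22 k41 6 (.s k52 k36 3 (.s k7 k37 4 (.s k15 k11 1 (.d k5 k6 k10 0 2))))))] (.c k44 (.l (.s
  k12 k8 1 (.s k20 k40 5 (.s k6 k9 2 (.s k22 k41 6 (.s k38 k54 3 (.d k21 k23 k55 0 4))))))) .n))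

def t1_163 : T TT 256 :=
  (.q k60 [(.s k12 k8 1 (.s k20 k40 5 (.s k36 k52 3 (.s k28 k44 3 (.d k24 k16 k48 1 5))))), (.s k12
  k8 1 (.s k6 k9 2 (.s k22 k41 6 (.s k38 k54 3 (.s k25 k51 6 (.d k28 k19 k44 2 3)))))), (.s k20 k40
  5 (.s k22 k41 6 (.s k52 k36 3 (.s k7 k37 4 (.s k15 k11 1 (.d k5 k6 k10 0 2))))))] (.c k44 (.l (.s
  k12 k8 1 (.s k20 k40 5 (.s k6 k9 2 (.s k22 k41 6 (.s k38 k54 3 (.d k21 k23 k55 0 4))))))) .n))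

def t1_164 : T TT 256 :=
  (.q k60 [(.s k12 k8 1 (.s k20 k40 5 (.s k36 k52 3 (.s k24 k48 5 (.d k28 k16 k44 1 3))))), (.s k12
  k8 1 (.s k6 k9 2 (.s k22 k41 6 (.s k38 k54 3 (.s k25 k51 6 (.d k28 k19 k44 2 3)))))), (.s k20 k40
  5 (.s k22 k41 6 (.s k52 k36 3 (.s k7 k37 4 (.s k15 k11 1 (.d k5 k6 k10 0 2))))))] (.c k44 (.l (.s
  k12 k8 1 (.s k20 k40 5 (.s k6 k9 2 (.s k22 k41 6 (.s k38 k54 3 (.d k21 k23 k55 0 4))))))) .n))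

def t1_165 : T TT 256 :=
  (.q k60 [(.s k12 k8 1 (.s k20 k40 5 (.s k36 k52 3 (.s k28 k44 3 (.d k24 k16 k48 1 5))))), (.s k12
  k8 1 (.s k6 k9 2 (.s k22 k41 6 (.s k38 k54 3 (.s k25 k51 6 (.d k28 k19 k44 2 3)))))), (.s k20 k40
  5 (.s k22 k41 6 (.s k52 k36 3 (.s k7 k37 4 (.s k15 k11 1 (.d k5 k6 k10 0 2))))))] (.c k44 (.l (.s
  k12 k8 1 (.s k20 k40 5 (.s k6 k9 2 (.s k22 k41 6 (.s k38 k54 3 (.d k21 k23 k55 0 4))))))) .n))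

def t1_166 : T TT 256 :=
  (.q k60 [(.s k12 k8 1 (.s k20 k40 5 (.s k36 k52 3 (.s k24 k48 5 (.d k28 k16 k44 1 3))))), (.s k12
  k8 1 (.s k6 k9 2 (.s k22 k41 6 (.s k38 k54 3 (.s k25 k51 6 (.d k28 k19 k44 2 3)))))), (.s k20 k40
  5 (.s k22 k41 6 (.s k52 k36 3 (.s k7 k37 4 (.s k15 k11 1 (.d k5 k6 k10 0 2))))))] (.c k44 (.l (.s
  k12 k8 1 (.s k20 k40 5 (.s k6 k9 2 (.s k22 k41 6 (.s k38 k54 3 (.d k21 k23 k55 0 4))))))) .n))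

def t1_167 : T TT 256 :=
  (.q k60 [(.s k12 k8 1 (.s k20 k40 5 (.s k36 k52 3 (.s k28 k44 3 (.d k24 k16 k48 1 5))))), (.s k12
  k8 1 (.s k6 k9 2 (.s k22 k41 6 (.s k38 k54 3 (.s k25 k51 6 (.d k28 k19 k44 2 3)))))), (.s k20 k40
  5 (.s k22 k41 6 (.s k52 k36 3 (.s k7 k37 4 (.s k15 k11 1 (.d k5 k6 k10 0 2))))))] (.c k44 (.l (.s
  k12 k8 1 (.s k20 k40 5 (.s k6 k9 2 (.s k22 k41 6 (.s k38 k54 3 (.d k21 k23 k55 0 4))))))) .n))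

def t1_168 : T TT 256 :=
  (.q k60 [(.s k12 k8 1 (.s k20 k40 5 (.s k36 k52 3 (.s k28 k44 3 (.d k24 k16 k48 1 5))))), (.s k12
  k8 1 (.s k6 k9 2 (.s k22 k41 6 (.s k38 k54 3 (.s k25 k51 6 (.d k28 k19 k44 2 3)))))), (.s k20 k40
  5 (.s k22 k41 6 (.s k52 k36 3 (.s k7 k37 4 (.s k15 k11 1 (.d k5 k6 k10 0 2))))))] (.c k44 (.l (.s
  k12 k8 1 (.s k20 k40 5 (.s k6 k9 2 (.s k22 k41 6 (.s k38 k54 3 (.d k21 k23 k55 0 4))))))) .n))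

def t1_169 : T TT 256 :=
  (.f k12 k8 1 (.f k9 k6 2 (.q k60 [(.s k20 k40 5 (.s k36 k52 3 (.s k28 k44 3 (.d k24 k16 k48 1
  5)))), (.s k41 k22 6 (.s k25 k57 3 (.s k38 k51 6 (.d k44 k35 k28 2 3)))), (.s k40 k20 5 (.s k41
  k22 6 (.s k25 k57 3 (.s k38 k51 6 (.s k21 k55 4 (.d k42 k63 k43 6 0))))))] (.c k85 (.q k253 [(.s
  k20 k40 5 (.s k36 k52 3 (.s k28 k44 3 (.d k24 k16 k48 1 5)))), (.s k41 k22 6 (.s k25 k57 3 (.s k38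
  k51 6 (.d k44 k35 k28 2 3)))), (.s k40 k20 5 (.s k41 k22 6 (.s k25 k57 3 (.s k38 k51 6 (.s k21 k55
  4 (.d k42 k63 k43 6 0))))))] .n) (.c k253 (.q k85 [(.s k20 k40 5 (.s k36 k52 3 (.s k28 k44 3 (.d
  k24 k16 k48 1 5)))), (.s k41 k22 6 (.s k25 k57 3 (.s k38 k51 6 (.d k44 k35 k28 2 3)))), (.s k20
  k40 5 (.s k166 k247 12 (.s k243 k89 14 (.s k150 k215 8 (.d k182 k134 k121 3 10)))))] (.c k252 (.q
  k254 [(.s k20 k40 5 (.s k36 k52 3 (.s k28 k44 3 (.d k24 k16 k48 1 5)))), (.s k41 k22 6 (.s k25 k57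
  3 (.s k38 k51 6 (.d k44 k35 k28 2 3)))), (.s k20 k40 5 (.s k166 k247 12 (.s k243 k89 14 (.s k150
  k215 8 (.d k182 k134 k121 3 10)))))] .n) (.c k254 (.q k252 [(.s k20 k40 5 (.s k36 k52 3 (.s k28
  k44 3 (.d k24 k16 k48 1 5)))), (.s k84 k168 13 (.s k164 k244 11 (.s k88 k240 13 (.d k92 k80 k172 1
  11))))] .n) .n))) .n)))))

def t1_170 : T TT 256 :=
  (.q k60 [(.s k12 k8 1 (.s k20 k40 5 (.s k36 k52 3 (.s k28 k44 3 (.d k24 k16 k48 1 5))))), (.s k12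
  k8 1 (.s k6 k9 2 (.s k22 k41 6 (.s k38 k54 3 (.s k25 k51 6 (.d k28 k19 k44 2 3)))))), (.s k20 k40
  5 (.s k22 k41 6 (.s k52 k36 3 (.s k7 k37 4 (.s k15 k11 1 (.d k5 k6 k10 0 2))))))] (.c k44 (.l (.s
  k12 k8 1 (.s k20 k40 5 (.s k6 k9 2 (.s k22 k41 6 (.s k38 k54 3 (.d k21 k23 k55 0 4))))))) .n))

def t1_171 : T TT 256 :=
  (.q k60 [(.s k12 k8 1 (.s k20 k40 5 (.s k36 k52 3 (.s k28 k44 3 (.d k24 k16 k48 1 5))))), (.s k12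
  k8 1 (.s k6 k9 2 (.s k22 k41 6 (.s k38 k54 3 (.s k25 k51 6 (.d k28 k19 k44 2 3)))))), (.s k20 k40
  5 (.s k22 k41 6 (.s k52 k36 3 (.s k7 k37 4 (.s k15 k11 1 (.d k5 k6 k10 0 2))))))] (.c k44 (.l (.s
  k12 k8 1 (.s k20 k40 5 (.s k6 k9 2 (.s k22 k41 6 (.s k38 k54 3 (.d k21 k23 k55 0 4))))))) .n))

def t1_172 : T TT 256 :=
  (.q k60 [(.s k12 k8 1 (.s k20 k40 5 (.s k36 k52 3 (.s k24 k48 5 (.d k28 k16 k44 1 3))))), (.s k12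
  k8 1 (.s k6 k9 2 (.s k22 k41 6 (.s k38 k54 3 (.s k25 k51 6 (.d k28 k19 k44 2 3)))))), (.s k20 k40
  5 (.s k22 k41 6 (.s k52 k36 3 (.s k7 k37 4 (.s k15 k11 1 (.d k5 k6 k10 0 2))))))] (.c k44 (.l (.s
  k12 k8 1 (.s k20 k40 5 (.s k6 k9 2 (.s k22 k41 6 (.s k38 k54 3 (.d k21 k23 k55 0 4))))))) .n))

def t1_173 : T TT 256 :=
  (.q k60 [(.s k12 k8 1 (.s k20 k40 5 (.s k36 k52 3 (.s k28 k44 3 (.d k24 k16 k48 1 5))))), (.s k12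
  k8 1 (.s k6 k9 2 (.s k22 k41 6 (.s k38 k54 3 (.s k25 k51 6 (.d k28 k19 k44 2 3)))))), (.s k20 k40
  5 (.s k22 k41 6 (.s k52 k36 3 (.s k7 k37 4 (.s k15 k11 1 (.d k5 k6 k10 0 2))))))] (.c k44 (.l (.s
  k12 k8 1 (.s k20 k40 5 (.s k6 k9 2 (.s k22 k41 6 (.s k38 k54 3 (.d k21 k23 k55 0 4))))))) .n))

def t1_174 : T TT 256 :=
  (.f k12 k8 1 (.q k60 [(.s k20 k40 5 (.s k36 k52 3 (.s k24 k48 5 (.d k28 k16 k44 1 3)))), (.s k6 k9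
  2 (.s k22 k41 6 (.s k38 k54 3 (.s k25 k51 6 (.d k28 k19 k44 2 3))))), (.s k6 k9 2 (.s k22 k41 6
  (.s k38 k54 3 (.s k21 k55 4 (.d k20 k23 k40 0 5)))))] .n))

def t1_175 : T TT 256 :=
  (.f k12 k8 1 (.q k60 [(.s k20 k40 5 (.s k36 k52 3 (.s k28 k44 3 (.d k24 k16 k48 1 5)))), (.s k6 k9
  2 (.s k22 k41 6 (.s k38 k54 3 (.s k25 k51 6 (.d k28 k19 k44 2 3))))), (.s k6 k9 2 (.s k22 k41 6
  (.s k38 k54 3 (.s k21 k55 4 (.d k20 k23 k40 0 5)))))] (.c k15 (.q k95 [(.s k20 k40 5 (.s k36 k52 3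
  (.s k28 k44 3 (.d k24 k16 k48 1 5)))), (.s k6 k9 2 (.s k22 k41 6 (.s k38 k54 3 (.s k25 k51 6 (.d
  k28 k19 k44 2 3))))), (.s k6 k9 2 (.s k22 k41 6 (.s k38 k54 3 (.s k21 k55 4 (.d k20 k23 k40 0
  5)))))] .n) (.c k95 (.q k15 [(.s k5 k10 2 (.d k6 k9 k7 2 0)), (.s k20 k40 5 (.s k36 k52 3 (.s k24
  k48 5 (.d k28 k16 k44 1 3))))] .n) .n))))

def t1_176 : T TT 256 :=
  (.q k22 [(.s k12 k8 1 (.s k9 k6 2 (.s k41 k60 6 (.s k25 k57 3 (.s k51 k38 6 (.d k19 k28 k35 2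
  3)))))), (.s k60 k41 6 (.s k20 k40 5 (.s k52 k36 3 (.s k7 k37 4 (.s k15 k11 1 (.d k5 k6 k10 0
  2)))))), (.s k12 k8 1 (.s k60 k41 6 (.s k20 k40 5 (.s k36 k52 3 (.s k24 k48 5 (.d k28 k16 k44 1
  3)))))), (.s k12 k8 1 (.s k6 k9 2 (.s k38 k54 3 (.s k21 k55 4 (.s k63 k42 6 (.d k23 k20 k43 0
  5))))))] .n)

def t1_177 : T TT 256 :=
  (.q k60 [(.s k12 k8 1 (.s k20 k40 5 (.s k36 k52 3 (.s k28 k44 3 (.d k24 k16 k48 1 5))))), (.s k12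
  k8 1 (.s k6 k9 2 (.s k22 k41 6 (.s k38 k54 3 (.s k25 k51 6 (.d k28 k19 k44 2 3)))))), (.s k20 k40
  5 (.s k22 k41 6 (.s k52 k36 3 (.s k7 k37 4 (.s k15 k11 1 (.d k5 k6 k10 0 2))))))] (.c k44 (.l (.s
  k12 k8 1 (.s k20 k40 5 (.s k6 k9 2 (.s k22 k41 6 (.s k38 k54 3 (.d k21 k23 k55 0 4))))))) .n))

def t1_178 : T TT 256 :=
  (.q k22 [(.s k12 k8 1 (.s k9 k6 2 (.s k41 k60 6 (.s k25 k57 3 (.s k51 k38 6 (.d k19 k28 k35 2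
  3)))))), (.s k60 k41 6 (.s k20 k40 5 (.s k52 k36 3 (.s k7 k37 4 (.s k15 k11 1 (.d k5 k6 k10 0
  2)))))), (.s k12 k8 1 (.s k60 k41 6 (.s k20 k40 5 (.s k36 k52 3 (.s k24 k48 5 (.d k28 k16 k44 1
  3)))))), (.s k12 k8 1 (.s k6 k9 2 (.s k38 k54 3 (.s k21 k55 4 (.s k63 k42 6 (.d k23 k20 k43 0
  5))))))] .n)

def t1_179 : T TT 256 :=
  (.q k60 [(.s k12 k8 1 (.s k20 k40 5 (.s k36 k52 3 (.s k28 k44 3 (.d k24 k16 k48 1 5))))), (.s k12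
  k8 1 (.s k6 k9 2 (.s k22 k41 6 (.s k38 k54 3 (.s k25 k51 6 (.d k28 k19 k44 2 3)))))), (.s k20 k40
  5 (.s k22 k41 6 (.s k52 k36 3 (.s k7 k37 4 (.s k15 k11 1 (.d k5 k6 k10 0 2))))))] (.c k44 (.l (.s
  k12 k8 1 (.s k20 k40 5 (.s k6 k9 2 (.s k22 k41 6 (.s k38 k54 3 (.d k21 k23 k55 0 4))))))) .n))

def t1_180 : T TT 256 :=
  (.q k22 [(.s k12 k8 1 (.s k9 k6 2 (.s k41 k60 6 (.s k25 k57 3 (.s k51 k38 6 (.d k19 k28 k35 2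
  3)))))), (.s k60 k41 6 (.s k20 k40 5 (.s k52 k36 3 (.s k7 k37 4 (.s k15 k11 1 (.d k5 k6 k10 0
  2)))))), (.s k12 k8 1 (.s k60 k41 6 (.s k20 k40 5 (.s k36 k52 3 (.s k24 k48 5 (.d k28 k16 k44 1
  3)))))), (.s k12 k8 1 (.s k6 k9 2 (.s k38 k54 3 (.s k21 k55 4 (.s k63 k42 6 (.d k23 k20 k43 0
  5))))))] .n)

def t1_181 : T TT 256 :=
  (.q k60 [(.s k12 k8 1 (.s k20 k40 5 (.s k36 k52 3 (.s k28 k44 3 (.d k24 k16 k48 1 5))))), (.s k12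
  k8 1 (.s k6 k9 2 (.s k22 k41 6 (.s k38 k54 3 (.s k25 k51 6 (.d k28 k19 k44 2 3)))))), (.s k20 k40
  5 (.s k22 k41 6 (.s k52 k36 3 (.s k7 k37 4 (.s k15 k11 1 (.d k5 k6 k10 0 2))))))] (.c k44 (.l (.s
  k12 k8 1 (.s k20 k40 5 (.s k6 k9 2 (.s k22 k41 6 (.s k38 k54 3 (.d k21 k23 k55 0 4))))))) .n))

def t1_182 : T TT 256 :=
  (.q k22 [(.s k12 k8 1 (.s k9 k6 2 (.s k41 k60 6 (.s k25 k57 3 (.s k51 k38 6 (.d k19 k28 k35 2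
  3)))))), (.s k60 k41 6 (.s k20 k40 5 (.s k52 k36 3 (.s k7 k37 4 (.s k15 k11 1 (.d k5 k6 k10 0
  2)))))), (.s k12 k8 1 (.s k60 k41 6 (.s k20 k40 5 (.s k36 k52 3 (.s k24 k48 5 (.d k28 k16 k44 1
  3)))))), (.s k12 k8 1 (.s k6 k9 2 (.s k38 k54 3 (.s k21 k55 4 (.s k63 k42 6 (.d k23 k20 k43 0
  5))))))] .n)

def t1_183 : T TT 256 :=
  (.q k60 [(.s k12 k8 1 (.s k20 k40 5 (.s k36 k52 3 (.s k28 k44 3 (.d k24 k16 k48 1 5))))), (.s k12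
  k8 1 (.s k6 k9 2 (.s k22 k41 6 (.s k38 k54 3 (.s k25 k51 6 (.d k28 k19 k44 2 3)))))), (.s k20 k40
  5 (.s k22 k41 6 (.s k52 k36 3 (.s k7 k37 4 (.s k15 k11 1 (.d k5 k6 k10 0 2))))))] (.c k44 (.l (.s
  k12 k8 1 (.s k20 k40 5 (.s k6 k9 2 (.s k22 k41 6 (.s k38 k54 3 (.d k21 k23 k55 0 4))))))) .n))

def t1_184 : T TT 256 :=
  (.q k60 [(.s k12 k8 1 (.s k20 k40 5 (.s k36 k52 3 (.s k28 k44 3 (.d k24 k16 k48 1 5))))), (.s k12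
  k8 1 (.s k6 k9 2 (.s k22 k41 6 (.s k38 k54 3 (.s k25 k51 6 (.d k28 k19 k44 2 3)))))), (.s k20 k40
  5 (.s k22 k41 6 (.s k52 k36 3 (.s k7 k37 4 (.s k15 k11 1 (.d k5 k6 k10 0 2))))))] (.c k44 (.l (.s
  k12 k8 1 (.s k20 k40 5 (.s k6 k9 2 (.s k22 k41 6 (.s k38 k54 3 (.d k21 k23 k55 0 4))))))) .n))

def t1_185 : T TT 256 :=
  (.q k22 [(.s k12 k8 1 (.s k9 k6 2 (.s k41 k60 6 (.s k25 k57 3 (.s k51 k38 6 (.d k19 k28 k35 2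
  3)))))), (.s k60 k41 6 (.s k20 k40 5 (.s k52 k36 3 (.s k7 k37 4 (.s k15 k11 1 (.d k5 k6 k10 0
  2)))))), (.s k12 k8 1 (.s k60 k41 6 (.s k20 k40 5 (.s k36 k52 3 (.s k24 k48 5 (.d k28 k16 k44 1
  3)))))), (.s k12 k8 1 (.s k6 k9 2 (.s k38 k54 3 (.s k21 k55 4 (.s k63 k42 6 (.d k23 k20 k43 0
  5))))))] .n)

def t1_186 : T TT 256 :=
  (.f k12 k8 1 (.q k60 [(.s k20 k40 5 (.s k36 k52 3 (.s k28 k44 3 (.d k24 k48 k16 5 1)))), (.s k6 k9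
  2 (.s k22 k41 6 (.s k38 k54 3 (.s k25 k51 6 (.d k28 k19 k44 2 3))))), (.s k6 k9 2 (.s k22 k41 6
  (.s k38 k54 3 (.s k21 k55 4 (.d k20 k23 k40 0 5)))))] (.c k48 (.q k117 [(.s k9 k6 2 (.s k41 k22 6
  (.s k25 k57 3 (.s k38 k51 6 (.d k44 k35 k28 2 3))))), (.s k20 k40 5 (.s k52 k36 3 (.s k247 k182 8
  (.s k85 k166 12 (.s k150 k215 8 (.d k101 k69 k199 3 12))))))] (.c k44 (.l (.s k20 k40 5 (.s k6 k9
  2 (.s k22 k41 6 (.s k38 k54 3 (.d k21 k23 k55 0 4)))))) .n)) (.c k117 (.q k48 [(.s k20 k40 5 (.d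
  k36 k24 k52 5 3)), (.s k16 k32 3 (.s k18 k33 4 (.s k22 k41 6 (.s k28 k44 3 (.d k19 k17 k25 0
  2))))), (.s k32 k16 3 (.s k33 k18 4 (.s k41 k22 6 (.s k44 k28 3 (.d k35 k34 k38 0 2)))))] .n)
  .n))))

def t1_187 : T TT 256 :=
  (.f k12 k8 1 (.f k9 k6 2 (.q k60 [(.s k41 k22 6 (.s k25 k57 3 (.s k44 k28 3 (.d k38 k51 k35 6
  2)))), (.s k20 k40 5 (.s k36 k52 3 (.s k24 k48 5 (.d k28 k16 k44 1 3)))), (.s k40 k20 5 (.s k41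
  k22 6 (.s k25 k57 3 (.s k42 k43 0 (.s k21 k63 6 (.d k38 k51 k55 6 4))))))] (.c k51 (.q k119 [(.s
  k20 k40 5 (.s k36 k52 3 (.s k28 k44 3 (.d k24 k16 k48 1 5)))), (.s k41 k22 6 (.s k25 k57 3 (.s k44
  k28 3 (.s k38 k35 2 (.s k21 k55 4 (.s k63 k42 6 (.d k29 k17 k46 1 4)))))))] (.c k28 (.l (.s k20
  k40 5 (.s k22 k41 6 (.s k52 k36 3 (.s k37 k7 4 (.s k21 k23 0 (.s k55 k38 4 (.d k53 k54 k5 0
  3)))))))) (.c k44 (.q k85 [(.s k166 k247 12 (.s k243 k89 14 (.s k182 k121 10 (.s k150 k134 3 (.d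
  k20 k40 k215 5 8))))), (.s k68 k102 4 (.s k204 k136 9 (.s k132 k196 7 (.s k72 k192 9 (.d k76 k64
  k140 1 7)))))] (.c k170 (.l (.s k20 k40 5 (.s k22 k41 6 (.s k247 k166 12 (.s k21 k23 0 (.d k55 k38
  k183 4 7)))))) .n)) .n))) (.c k119 (.q k51 [(.s k41 k22 6 (.d k25 k38 k57 6 3)), (.s k20 k40 5 (.s
  k36 k52 3 (.s k24 k48 5 (.d k28 k16 k44 1 3))))] .n) .n)))))

def t1_188 : T TT 256 :=
  (.q k22 [(.s k12 k8 1 (.s k9 k6 2 (.s k41 k60 6 (.s k25 k57 3 (.s k51 k38 6 (.d k19 k28 k35 2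
  3)))))), (.s k60 k41 6 (.s k20 k40 5 (.s k52 k36 3 (.s k7 k37 4 (.s k15 k11 1 (.d k5 k6 k10 0
  2)))))), (.s k12 k8 1 (.s k60 k41 6 (.s k20 k40 5 (.s k36 k52 3 (.s k24 k48 5 (.d k28 k16 k44 1
  3)))))), (.s k12 k8 1 (.s k6 k9 2 (.s k38 k54 3 (.s k21 k55 4 (.s k63 k42 6 (.d k23 k20 k43 0
  5))))))] .n)

def t1_189 : T TT 256 :=
  (.q k22 [(.s k12 k8 1 (.s k9 k6 2 (.s k41 k60 6 (.s k25 k57 3 (.s k51 k38 6 (.d k19 k28 k35 2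
  3)))))), (.s k60 k41 6 (.s k20 k40 5 (.s k52 k36 3 (.s k7 k37 4 (.s k15 k11 1 (.d k5 k6 k10 0
  2)))))), (.s k12 k8 1 (.s k60 k41 6 (.s k20 k40 5 (.s k36 k52 3 (.s k24 k48 5 (.d k28 k16 k44 1
  3)))))), (.s k12 k8 1 (.s k6 k9 2 (.s k38 k54 3 (.s k21 k55 4 (.s k63 k42 6 (.d k23 k20 k43 0
  5))))))] .n)

def t1_190 : T TT 256 :=
  (.q k60 [(.s k12 k8 1 (.s k20 k40 5 (.s k36 k52 3 (.s k28 k44 3 (.d k24 k16 k48 1 5))))), (.s k12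
  k8 1 (.s k6 k9 2 (.s k22 k41 6 (.s k38 k54 3 (.s k25 k51 6 (.d k28 k19 k44 2 3)))))), (.s k20 k40
  5 (.s k22 k41 6 (.s k52 k36 3 (.s k7 k37 4 (.s k15 k11 1 (.d k5 k6 k10 0 2))))))] (.c k44 (.l (.s
  k12 k8 1 (.s k20 k40 5 (.s k6 k9 2 (.s k22 k41 6 (.s k38 k54 3 (.d k21 k23 k55 0 4))))))) .n))

def t1_191 : T TT 256 :=
  (.f k12 k8 1 (.q k60 [(.s k20 k40 5 (.s k36 k52 3 (.s k28 k44 3 (.d k24 k16 k48 1 5)))), (.s k6 k9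
  2 (.s k22 k41 6 (.s k38 k54 3 (.s k25 k51 6 (.d k28 k19 k44 2 3))))), (.s k6 k9 2 (.s k22 k41 6
  (.s k38 k54 3 (.s k21 k55 4 (.d k20 k23 k40 0 5)))))] (.c k63 (.q k127 [(.s k20 k40 5 (.s k36 k52
  3 (.s k28 k44 3 (.d k24 k16 k48 1 5)))), (.s k6 k9 2 (.s k22 k41 6 (.s k38 k54 3 (.s k25 k51 6 (.d
  k28 k19 k44 2 3))))), (.s k6 k9 2 (.s k22 k41 6 (.s k38 k54 3 (.s k21 k55 4 (.d k20 k23 k40 0
  5)))))] .n) (.c k127 (.q k63 [(.s k40 k20 5 (.s k42 k21 6 (.d k41 k22 k43 6 0))), (.s k20 k40 5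
  (.s k36 k52 3 (.s k24 k48 5 (.d k28 k16 k44 1 3)))), (.s k21 k42 6 (.s k6 k9 2 (.s k38 k55 4 (.d
  k22 k54 k41 3 6))))] .n) .n))))

def t1_192 : T TT 256 :=
  (.f k12 k8 1 (.q k60 [(.s k20 k40 5 (.s k36 k52 3 (.s k28 k44 3 (.d k24 k16 k48 1 5)))), (.s k6 k9
  2 (.s k22 k41 6 (.s k38 k54 3 (.s k25 k51 6 (.d k28 k19 k44 2 3))))), (.s k6 k9 2 (.s k22 k41 6
  (.s k38 k54 3 (.s k21 k55 4 (.d k20 k23 k40 0 5)))))] (.c k213 (.q k234 [(.s k20 k40 5 (.s k36 k52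
  3 (.s k28 k44 3 (.d k24 k16 k48 1 5)))), (.s k6 k9 2 (.s k22 k41 6 (.s k38 k54 3 (.s k25 k51 6 (.d
  k28 k19 k44 2 3))))), (.s k6 k9 2 (.s k22 k41 6 (.s k38 k54 3 (.s k21 k55 4 (.d k20 k23 k40 0
  5)))))] .n) (.c k234 (.q k213 [(.s k20 k40 5 (.s k36 k52 3 (.s k28 k44 3 (.d k24 k16 k48 1 5)))),
  (.s k6 k9 2 (.s k22 k41 6 (.s k38 k54 3 (.s k25 k51 6 (.d k28 k19 k44 2 3))))), (.s k6 k9 2 (.s
  k22 k41 6 (.s k38 k54 3 (.s k21 k55 4 (.d k20 k23 k40 0 5)))))] .n) .n))))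

def t1_193 : T TT 256 :=
  (.f k12 k8 1 (.f k9 k6 2 (.q k60 [(.s k20 k40 5 (.s k36 k52 3 (.s k28 k44 3 (.d k24 k16 k48 1
  5)))), (.s k41 k22 6 (.s k25 k57 3 (.s k38 k51 6 (.d k44 k35 k28 2 3)))), (.s k40 k20 5 (.s k41
  k22 6 (.s k25 k57 3 (.s k38 k51 6 (.s k21 k55 4 (.d k42 k63 k43 6 0))))))] (.c k65 (.q k129 [(.s
  k20 k40 5 (.s k36 k52 3 (.s k28 k44 3 (.d k24 k16 k48 1 5)))), (.s k192 k66 8 (.s k132 k72 9 (.s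
  k68 k196 7 (.s k136 k204 9 (.d k128 k64 k140 7 1)))))] .n) (.c k129 (.q k65 [(.s k20 k40 5 (.s k36
  k52 3 (.s k28 k44 3 (.d k24 k16 k48 1 5)))), (.s k195 k130 8 (.s k73 k134 10 (.s k137 k201 7 (.s
  k70 k204 10 (.d k67 k131 k76 7 2)))))] .n) .n)))))

def t1_194 : T TT 256 :=
  (.q k60 [(.s k12 k8 1 (.s k20 k40 5 (.s k36 k52 3 (.s k28 k44 3 (.d k24 k16 k48 1 5))))), (.s k12
  k8 1 (.s k6 k9 2 (.s k22 k41 6 (.s k38 k54 3 (.s k25 k51 6 (.d k28 k19 k44 2 3)))))), (.s k20 k40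
  5 (.s k22 k41 6 (.s k52 k36 3 (.s k7 k37 4 (.s k15 k11 1 (.d k5 k6 k10 0 2))))))] (.c k44 (.l (.s
  k12 k8 1 (.s k20 k40 5 (.s k6 k9 2 (.s k22 k41 6 (.s k38 k54 3 (.d k21 k23 k55 0 4))))))) .n))

def t1_195 : T TT 256 :=
  (.f k12 k8 1 (.q k60 [(.s k20 k40 5 (.s k36 k52 3 (.s k28 k44 3 (.d k24 k16 k48 1 5)))), (.s k6 k9
  2 (.s k22 k41 6 (.s k38 k54 3 (.s k25 k51 6 (.d k28 k19 k44 2 3))))), (.s k6 k9 2 (.s k22 k41 6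
  (.s k38 k54 3 (.s k21 k55 4 (.d k20 k23 k40 0 5)))))] (.c k215 (.q k235 [(.s k20 k40 5 (.s k36 k52
  3 (.s k28 k44 3 (.d k24 k16 k48 1 5)))), (.s k6 k9 2 (.s k22 k41 6 (.s k38 k54 3 (.s k25 k51 6 (.d
  k28 k19 k44 2 3))))), (.s k6 k9 2 (.s k22 k41 6 (.s k38 k54 3 (.s k21 k55 4 (.d k20 k23 k40 0
  5)))))] .n) (.c k235 (.q k215 [(.s k20 k40 5 (.s k36 k52 3 (.s k28 k44 3 (.d k24 k16 k48 1 5)))),
  (.s k6 k9 2 (.s k22 k41 6 (.s k38 k54 3 (.s k25 k51 6 (.d k28 k19 k44 2 3))))), (.s k6 k9 2 (.s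
  k22 k41 6 (.s k38 k54 3 (.s k21 k55 4 (.d k20 k23 k40 0 5)))))] .n) .n))))

def t1_196 : T TT 256 :=
  (.q k60 [(.s k12 k8 1 (.s k28 k44 3 (.s k20 k40 5 (.s k24 k16 1 (.d k36 k52 k48 3 5))))), (.s k12
  k8 1 (.s k6 k9 2 (.s k22 k41 6 (.s k38 k54 3 (.s k25 k51 6 (.d k28 k19 k44 2 3)))))), (.s k20 k40
  5 (.s k22 k41 6 (.s k52 k36 3 (.s k7 k37 4 (.s k15 k11 1 (.d k5 k6 k10 0 2))))))] (.c k44 (.l (.s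
  k12 k8 1 (.s k20 k40 5 (.s k6 k9 2 (.s k22 k41 6 (.s k38 k54 3 (.d k21 k23 k55 0 4))))))) .n))

def t1_197 : T TT 256 :=
  (.q k60 [(.s k12 k8 1 (.s k20 k40 5 (.s k36 k52 3 (.s k28 k44 3 (.d k24 k16 k48 1 5))))), (.s k12
  k8 1 (.s k6 k9 2 (.s k22 k41 6 (.s k38 k54 3 (.s k25 k51 6 (.d k28 k19 k44 2 3)))))), (.s k20 k40
  5 (.s k22 k41 6 (.s k52 k36 3 (.s k7 k37 4 (.s k15 k11 1 (.d k5 k6 k10 0 2))))))] (.c k44 (.l (.s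
  k12 k8 1 (.s k20 k40 5 (.s k6 k9 2 (.s k22 k41 6 (.s k38 k54 3 (.d k21 k23 k55 0 4))))))) .n))

def t1_198 : T TT 256 :=
  (.q k60 [(.s k12 k8 1 (.s k20 k40 5 (.s k36 k52 3 (.s k28 k44 3 (.d k24 k16 k48 1 5))))), (.s k12
  k8 1 (.s k6 k9 2 (.s k22 k41 6 (.s k38 k54 3 (.s k25 k51 6 (.d k28 k19 k44 2 3)))))), (.s k20 k40
  5 (.s k22 k41 6 (.s k52 k36 3 (.s k7 k37 4 (.s k15 k11 1 (.d k5 k6 k10 0 2))))))] (.c k44 (.l (.s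
  k12 k8 1 (.s k20 k40 5 (.s k6 k9 2 (.s k22 k41 6 (.s k38 k54 3 (.d k21 k23 k55 0 4))))))) .n))

def t1_199 : T TT 256 :=
  (.q k60 [(.s k12 k8 1 (.s k28 k44 3 (.s k20 k40 5 (.s k24 k16 1 (.d k36 k52 k48 3 5))))), (.s k12
  k8 1 (.s k6 k9 2 (.s k22 k41 6 (.s k38 k54 3 (.s k25 k51 6 (.d k28 k19 k44 2 3)))))), (.s k20 k40
  5 (.s k22 k41 6 (.s k52 k36 3 (.s k7 k37 4 (.s k15 k11 1 (.d k5 k6 k10 0 2))))))] (.c k44 (.l (.s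
  k12 k8 1 (.s k20 k40 5 (.s k6 k9 2 (.s k22 k41 6 (.s k38 k54 3 (.d k21 k23 k55 0 4))))))) .n))

def t1_200 : T TT 256 :=
  (.q k60 [(.s k12 k8 1 (.s k20 k40 5 (.s k36 k52 3 (.s k28 k44 3 (.d k24 k16 k48 1 5))))), (.s k20
  k40 5 (.s k22 k41 6 (.s k52 k36 3 (.s k7 k37 4 (.s k15 k11 1 (.d k5 k6 k10 0 2)))))), (.s k12 k8 1
  (.s k6 k9 2 (.s k22 k41 6 (.s k38 k54 3 (.s k25 k51 6 (.d k28 k19 k44 2 3))))))] (.c k44 (.l (.s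
  k12 k8 1 (.s k20 k40 5 (.s k6 k9 2 (.s k22 k41 6 (.s k38 k54 3 (.d k21 k23 k55 0 4))))))) .n))

def t1_201 : T TT 256 :=
  (.q k60 [(.s k12 k8 1 (.s k20 k40 5 (.s k36 k52 3 (.s k28 k44 3 (.d k24 k16 k48 1 5))))), (.s k12
  k8 1 (.s k6 k9 2 (.s k22 k41 6 (.s k38 k54 3 (.s k25 k51 6 (.d k28 k19 k44 2 3)))))), (.s k20 k40
  5 (.s k22 k41 6 (.s k52 k36 3 (.s k7 k37 4 (.s k15 k11 1 (.d k5 k6 k10 0 2))))))] (.c k44 (.l (.s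
  k12 k8 1 (.s k20 k40 5 (.s k6 k9 2 (.s k22 k41 6 (.s k38 k54 3 (.d k21 k23 k55 0 4))))))) .n))

def t1_202 : T TT 256 :=
  (.q k60 [(.s k12 k8 1 (.s k20 k40 5 (.s k36 k52 3 (.s k28 k44 3 (.d k24 k16 k48 1 5))))), (.s k12
  k8 1 (.s k6 k9 2 (.s k22 k41 6 (.s k38 k54 3 (.s k25 k51 6 (.d k28 k19 k44 2 3)))))), (.s k20 k40
  5 (.s k22 k41 6 (.s k52 k36 3 (.s k7 k37 4 (.s k15 k11 1 (.d k5 k6 k10 0 2))))))] (.c k44 (.l (.s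
  k12 k8 1 (.s k20 k40 5 (.s k6 k9 2 (.s k22 k41 6 (.s k38 k54 3 (.d k21 k23 k55 0 4))))))) .n))

def t1_203 : T TT 256 :=
  (.q k60 [(.s k12 k8 1 (.s k20 k40 5 (.s k36 k52 3 (.s k28 k44 3 (.d k24 k16 k48 1 5))))), (.s k20
  k40 5 (.s k22 k41 6 (.s k52 k36 3 (.s k7 k37 4 (.s k15 k11 1 (.d k5 k6 k10 0 2)))))), (.s k12 k8 1
  (.s k6 k9 2 (.s k22 k41 6 (.s k38 k54 3 (.s k25 k51 6 (.d k28 k19 k44 2 3))))))] (.c k44 (.l (.s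
  k12 k8 1 (.s k20 k40 5 (.s k6 k9 2 (.s k22 k41 6 (.s k38 k54 3 (.d k21 k23 k55 0 4))))))) .n))

def t1_204 : T TT 256 :=
  (.f k12 k8 1 (.f k9 k6 2 (.q k60 [(.s k20 k40 5 (.s k36 k52 3 (.s k28 k44 3 (.d k24 k16 k48 1
  5)))), (.s k41 k22 6 (.s k25 k57 3 (.s k38 k51 6 (.d k44 k35 k28 2 3)))), (.s k40 k20 5 (.s k41
  k22 6 (.s k25 k57 3 (.s k38 k51 6 (.s k21 k55 4 (.d k42 k63 k43 6 0))))))] (.c k221 (.q k238 [(.s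
  k20 k40 5 (.s k36 k52 3 (.s k28 k44 3 (.d k24 k16 k48 1 5)))), (.s k41 k22 6 (.s k25 k57 3 (.s k38
  k51 6 (.d k44 k35 k28 2 3)))), (.s k40 k20 5 (.s k41 k22 6 (.s k25 k57 3 (.s k38 k51 6 (.s k21 k55
  4 (.d k42 k63 k43 6 0))))))] .n) (.c k238 (.q k221 [(.s k20 k40 5 (.s k36 k52 3 (.s k28 k44 3 (.d
  k24 k16 k48 1 5)))), (.s k41 k22 6 (.s k25 k57 3 (.s k38 k51 6 (.d k44 k35 k28 2 3)))), (.s k40
  k20 5 (.s k41 k22 6 (.s k25 k57 3 (.s k38 k51 6 (.s k21 k55 4 (.d k42 k63 k43 6 0))))))] .n)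
  .n)))))

def t1_205 : T TT 256 :=
  (.f k12 k8 1 (.q k69 [(.s k207 k138 10 (.s k134 k199 8 (.s k73 k195 10 (.d k77 k65 k142 1 8)))),
  (.s k6 k9 2 (.s k134 k199 8 (.s k70 k198 7 (.s k68 k71 0 (.d k204 k136 k137 9 10))))), (.s k138
  k207 10 (.s k6 k9 2 (.s k5 k7 0 (.s k133 k197 7 (.s k128 k143 2 (.s k192 k64 7 (.d k15 k10 k74 2
  10)))))))] .n))

def t1_206 : T TT 256 :=
  (.q k60 [(.s k12 k8 1 (.s k20 k40 5 (.s k36 k52 3 (.s k28 k44 3 (.d k24 k16 k48 1 5))))), (.s k12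
  k8 1 (.s k6 k9 2 (.s k22 k41 6 (.s k38 k54 3 (.s k25 k51 6 (.d k28 k19 k44 2 3)))))), (.s k20 k40
  5 (.s k22 k41 6 (.s k52 k36 3 (.s k7 k37 4 (.s k15 k11 1 (.d k5 k6 k10 0 2))))))] (.c k44 (.l (.s
  k12 k8 1 (.s k20 k40 5 (.s k6 k9 2 (.s k22 k41 6 (.s k38 k54 3 (.d k21 k23 k55 0 4))))))) .n))

def t1_207 : T TT 256 :=
  (.f k12 k8 1 (.q k60 [(.s k20 k40 5 (.s k36 k52 3 (.s k28 k44 3 (.d k24 k16 k48 1 5)))), (.s k6 k9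
  2 (.s k22 k41 6 (.s k38 k54 3 (.s k25 k51 6 (.d k28 k19 k44 2 3))))), (.s k6 k9 2 (.s k22 k41 6
  (.s k38 k54 3 (.s k21 k55 4 (.d k20 k23 k40 0 5)))))] (.c k223 (.q k239 [(.s k20 k40 5 (.s k36 k52
  3 (.s k28 k44 3 (.d k24 k16 k48 1 5)))), (.s k6 k9 2 (.s k22 k41 6 (.s k38 k54 3 (.s k25 k51 6 (.d
  k28 k19 k44 2 3))))), (.s k6 k9 2 (.s k22 k41 6 (.s k38 k54 3 (.s k21 k55 4 (.d k20 k23 k40 0
  5)))))] .n) (.c k239 (.q k223 [(.s k20 k40 5 (.s k36 k52 3 (.s k28 k44 3 (.d k24 k16 k48 1 5)))),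
  (.s k6 k9 2 (.s k22 k41 6 (.s k38 k54 3 (.s k25 k51 6 (.d k28 k19 k44 2 3))))), (.s k6 k9 2 (.s
  k22 k41 6 (.s k38 k54 3 (.s k21 k55 4 (.d k20 k23 k40 0 5)))))] .n) .n))))

def t1_208 : T TT 256 :=
  (.q k60 [(.s k12 k8 1 (.s k20 k40 5 (.s k36 k52 3 (.s k28 k44 3 (.d k24 k16 k48 1 5))))), (.s k12
  k8 1 (.s k6 k9 2 (.s k22 k41 6 (.s k38 k54 3 (.s k25 k51 6 (.d k28 k19 k44 2 3)))))), (.s k20 k40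
  5 (.s k22 k41 6 (.s k52 k36 3 (.s k7 k37 4 (.s k15 k11 1 (.d k5 k6 k10 0 2))))))] (.c k44 (.l (.s
  k12 k8 1 (.s k20 k40 5 (.s k6 k9 2 (.s k22 k41 6 (.s k38 k54 3 (.d k21 k23 k55 0 4))))))) .n))

def t1_209 : T TT 256 :=
  (.q k60 [(.s k12 k8 1 (.s k20 k40 5 (.s k36 k52 3 (.s k28 k44 3 (.d k24 k16 k48 1 5))))), (.s k12
  k8 1 (.s k6 k9 2 (.s k22 k41 6 (.s k38 k54 3 (.s k25 k51 6 (.d k28 k19 k44 2 3)))))), (.s k20 k40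
  5 (.s k22 k41 6 (.s k52 k36 3 (.s k7 k37 4 (.s k15 k11 1 (.d k5 k6 k10 0 2))))))] (.c k44 (.l (.s
  k12 k8 1 (.s k20 k40 5 (.s k6 k9 2 (.s k22 k41 6 (.s k38 k54 3 (.d k21 k23 k55 0 4))))))) .n))

def t1_210 : T TT 256 :=
  (.q k60 [(.s k12 k8 1 (.s k20 k40 5 (.s k36 k52 3 (.s k28 k44 3 (.d k24 k16 k48 1 5))))), (.s k12
  k8 1 (.s k6 k9 2 (.s k22 k41 6 (.s k38 k54 3 (.s k25 k51 6 (.d k28 k19 k44 2 3)))))), (.s k20 k40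
  5 (.s k22 k41 6 (.s k52 k36 3 (.s k7 k37 4 (.s k15 k11 1 (.d k5 k6 k10 0 2))))))] (.c k44 (.l (.s
  k12 k8 1 (.s k20 k40 5 (.s k6 k9 2 (.s k22 k41 6 (.s k38 k54 3 (.d k21 k23 k55 0 4))))))) .n))

def t1_211 : T TT 256 :=
  (.q k60 [(.s k12 k8 1 (.s k20 k40 5 (.s k36 k52 3 (.s k28 k44 3 (.d k24 k16 k48 1 5))))), (.s k12
  k8 1 (.s k6 k9 2 (.s k22 k41 6 (.s k38 k54 3 (.s k25 k51 6 (.d k28 k19 k44 2 3)))))), (.s k20 k40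
  5 (.s k22 k41 6 (.s k52 k36 3 (.s k7 k37 4 (.s k15 k11 1 (.d k5 k6 k10 0 2))))))] (.c k44 (.l (.s
  k12 k8 1 (.s k20 k40 5 (.s k6 k9 2 (.s k22 k41 6 (.s k38 k54 3 (.d k21 k23 k55 0 4))))))) .n))

def t1_212 : T TT 256 :=
  (.q k60 [(.s k12 k8 1 (.s k20 k40 5 (.s k36 k52 3 (.s k28 k44 3 (.d k24 k16 k48 1 5))))), (.s k12
  k8 1 (.s k6 k9 2 (.s k22 k41 6 (.s k38 k54 3 (.s k25 k51 6 (.d k28 k19 k44 2 3)))))), (.s k20 k40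
  5 (.s k22 k41 6 (.s k52 k36 3 (.s k7 k37 4 (.s k15 k11 1 (.d k5 k6 k10 0 2))))))] (.c k44 (.l (.s
  k12 k8 1 (.s k20 k40 5 (.s k6 k9 2 (.s k22 k41 6 (.s k38 k54 3 (.d k21 k23 k55 0 4))))))) .n))

def t1_213 : T TT 256 :=
  (.f k12 k8 1 (.f k9 k6 2 (.q k60 [(.s k20 k40 5 (.s k36 k52 3 (.s k28 k44 3 (.d k24 k16 k48 1
  5)))), (.s k41 k22 6 (.s k25 k57 3 (.s k38 k51 6 (.d k44 k35 k28 2 3)))), (.s k40 k20 5 (.s k41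
  k22 6 (.s k25 k57 3 (.s k38 k51 6 (.s k21 k55 4 (.d k42 k63 k43 6 0))))))] (.c k192 (.q k234 [(.s
  k20 k40 5 (.s k36 k52 3 (.s k28 k44 3 (.d k24 k16 k48 1 5)))), (.s k41 k22 6 (.s k25 k57 3 (.s k38
  k51 6 (.d k44 k35 k28 2 3)))), (.s k40 k20 5 (.s k41 k22 6 (.s k25 k57 3 (.s k38 k51 6 (.s k21 k55
  4 (.d k42 k63 k43 6 0))))))] .n) (.c k234 (.q k192 [(.s k20 k40 5 (.s k36 k52 3 (.s k28 k44 3 (.d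
  k24 k16 k48 1 5)))), (.s k128 k64 7 (.s k132 k72 9 (.s k68 k196 7 (.d k136 k140 k204 1 9))))] .n)
  .n)))))

def t1_214 : T TT 256 :=
  (.q k60 [(.s k12 k8 1 (.s k20 k40 5 (.s k36 k52 3 (.s k28 k44 3 (.d k24 k16 k48 1 5))))), (.s k12
  k8 1 (.s k6 k9 2 (.s k22 k41 6 (.s k38 k54 3 (.s k25 k51 6 (.d k28 k19 k44 2 3)))))), (.s k20 k40
  5 (.s k22 k41 6 (.s k52 k36 3 (.s k7 k37 4 (.s k15 k11 1 (.d k5 k6 k10 0 2))))))] (.c k44 (.l (.s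
  k12 k8 1 (.s k20 k40 5 (.s k6 k9 2 (.s k22 k41 6 (.s k38 k54 3 (.d k21 k23 k55 0 4))))))) .n))

def t1_215 : T TT 256 :=
  (.f k12 k8 1 (.q k60 [(.s k20 k40 5 (.s k36 k52 3 (.s k28 k44 3 (.d k24 k16 k48 1 5)))), (.s k6 k9
  2 (.s k22 k41 6 (.s k38 k54 3 (.s k25 k51 6 (.d k28 k19 k44 2 3))))), (.s k6 k9 2 (.s k22 k41 6
  (.s k38 k54 3 (.s k21 k55 4 (.d k20 k23 k40 0 5)))))] (.c k195 (.q k235 [(.s k20 k40 5 (.s k36 k52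
  3 (.s k28 k44 3 (.d k24 k16 k48 1 5)))), (.s k6 k9 2 (.s k22 k41 6 (.s k38 k54 3 (.s k25 k51 6 (.d
  k28 k19 k44 2 3))))), (.s k6 k9 2 (.s k22 k41 6 (.s k38 k54 3 (.s k21 k55 4 (.d k20 k23 k40 0
  5)))))] .n) (.c k235 (.q k195 [(.s k20 k40 5 (.s k36 k52 3 (.s k28 k44 3 (.d k24 k16 k48 1 5)))),
  (.s k130 k65 8 (.s k134 k73 10 (.s k69 k199 8 (.d k138 k142 k207 1 10))))] .n) .n))))

def t1_216 : T TT 256 :=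
  (.q k60 [(.s k12 k8 1 (.s k20 k40 5 (.s k36 k52 3 (.s k28 k44 3 (.d k24 k16 k48 1 5))))), (.s k12
  k8 1 (.s k6 k9 2 (.s k22 k41 6 (.s k38 k54 3 (.s k25 k51 6 (.d k28 k19 k44 2 3)))))), (.s k20 k40
  5 (.s k22 k41 6 (.s k52 k36 3 (.s k7 k37 4 (.s k15 k11 1 (.d k5 k6 k10 0 2))))))] (.c k44 (.l (.s
  k12 k8 1 (.s k20 k40 5 (.s k6 k9 2 (.s k22 k41 6 (.s k38 k54 3 (.d k21 k23 k55 0 4))))))) .n))

def t1_217 : T TT 256 :=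
  (.q k60 [(.s k12 k8 1 (.s k20 k40 5 (.s k36 k52 3 (.s k28 k44 3 (.d k24 k16 k48 1 5))))), (.s k12
  k8 1 (.s k6 k9 2 (.s k22 k41 6 (.s k38 k54 3 (.s k25 k51 6 (.d k28 k19 k44 2 3)))))), (.s k20 k40
  5 (.s k22 k41 6 (.s k52 k36 3 (.s k7 k37 4 (.s k15 k11 1 (.d k5 k6 k10 0 2))))))] (.c k44 (.l (.s
  k12 k8 1 (.s k20 k40 5 (.s k6 k9 2 (.s k22 k41 6 (.s k38 k54 3 (.d k21 k23 k55 0 4))))))) .n))

def t1_218 : T TT 256 :=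
  (.q k60 [(.s k12 k8 1 (.s k20 k40 5 (.s k36 k52 3 (.s k28 k44 3 (.d k24 k16 k48 1 5))))), (.s k12
  k8 1 (.s k6 k9 2 (.s k22 k41 6 (.s k38 k54 3 (.s k25 k51 6 (.d k28 k19 k44 2 3)))))), (.s k20 k40
  5 (.s k22 k41 6 (.s k52 k36 3 (.s k7 k37 4 (.s k15 k11 1 (.d k5 k6 k10 0 2))))))] (.c k44 (.l (.s
  k12 k8 1 (.s k20 k40 5 (.s k6 k9 2 (.s k22 k41 6 (.s k38 k54 3 (.d k21 k23 k55 0 4))))))) .n))

def t1_219 : T TT 256 :=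
  (.q k60 [(.s k12 k8 1 (.s k20 k40 5 (.s k36 k52 3 (.s k28 k44 3 (.d k24 k16 k48 1 5))))), (.s k12
  k8 1 (.s k6 k9 2 (.s k22 k41 6 (.s k38 k54 3 (.s k25 k51 6 (.d k28 k19 k44 2 3)))))), (.s k20 k40
  5 (.s k22 k41 6 (.s k52 k36 3 (.s k7 k37 4 (.s k15 k11 1 (.d k5 k6 k10 0 2))))))] (.c k44 (.l (.s
  k12 k8 1 (.s k20 k40 5 (.s k6 k9 2 (.s k22 k41 6 (.s k38 k54 3 (.d k21 k23 k55 0 4))))))) .n))

def t1_220 : T TT 256 :=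
  (.q k60 [(.s k12 k8 1 (.s k20 k40 5 (.s k36 k52 3 (.s k28 k44 3 (.d k24 k16 k48 1 5))))), (.s k12
  k8 1 (.s k6 k9 2 (.s k22 k41 6 (.s k38 k54 3 (.s k25 k51 6 (.d k28 k19 k44 2 3)))))), (.s k20 k40
  5 (.s k22 k41 6 (.s k52 k36 3 (.s k7 k37 4 (.s k15 k11 1 (.d k5 k6 k10 0 2))))))] (.c k44 (.l (.s
  k12 k8 1 (.s k20 k40 5 (.s k6 k9 2 (.s k22 k41 6 (.s k38 k54 3 (.d k21 k23 k55 0 4))))))) .n))

def t1_221 : T TT 256 :=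
  (.q k204 [(.s k12 k8 1 (.s k68 k136 9 (.s k132 k196 7 (.s k76 k140 7 (.d k72 k64 k192 1 9))))),
  (.s k12 k8 1 (.s k6 k9 2 (.s k70 k137 10 (.s k134 k198 7 (.s k73 k195 10 (.d k76 k67 k140 2
  7)))))), (.s k68 k136 9 (.s k70 k137 10 (.s k196 k132 7 (.s k7 k133 8 (.s k15 k11 1 (.d k5 k6 k10
  0 2))))))] (.c k140 (.l (.s k12 k8 1 (.s k68 k136 9 (.s k6 k9 2 (.s k70 k137 10 (.s k134 k198 7
  (.d k69 k71 k199 0 8))))))) .n))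

def t1_222 : T TT 256 :=
  (.q k60 [(.s k12 k8 1 (.s k20 k40 5 (.s k36 k52 3 (.s k28 k44 3 (.d k24 k16 k48 1 5))))), (.s k12
  k8 1 (.s k6 k9 2 (.s k22 k41 6 (.s k38 k54 3 (.s k25 k51 6 (.d k28 k19 k44 2 3)))))), (.s k20 k40
  5 (.s k22 k41 6 (.s k52 k36 3 (.s k7 k37 4 (.s k15 k11 1 (.d k5 k6 k10 0 2))))))] (.c k44 (.l (.s
  k12 k8 1 (.s k20 k40 5 (.s k6 k9 2 (.s k22 k41 6 (.s k38 k54 3 (.d k21 k23 k55 0 4))))))) .n))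

def t1_223 : T TT 256 :=
  (.f k12 k8 1 (.f k9 k6 2 (.q k60 [(.s k20 k40 5 (.s k36 k52 3 (.s k28 k44 3 (.d k24 k16 k48 1
  5)))), (.s k41 k22 6 (.s k25 k57 3 (.s k38 k51 6 (.d k44 k35 k28 2 3)))), (.s k40 k20 5 (.s k41
  k22 6 (.s k25 k57 3 (.s k38 k51 6 (.s k21 k55 4 (.d k42 k63 k43 6 0))))))] (.c k207 (.q k239 [(.s
  k20 k40 5 (.s k36 k52 3 (.s k28 k44 3 (.d k24 k16 k48 1 5)))), (.s k41 k22 6 (.s k25 k57 3 (.s k38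
  k51 6 (.d k44 k35 k28 2 3)))), (.s k40 k20 5 (.s k41 k22 6 (.s k25 k57 3 (.s k38 k51 6 (.s k21 k55
  4 (.d k42 k63 k43 6 0))))))] .n) (.c k239 (.q k207 [(.s k20 k40 5 (.s k36 k52 3 (.s k24 k48 5 (.d
  k28 k16 k44 1 3)))), (.s k69 k138 10 (.s k134 k199 8 (.s k73 k195 10 (.d k77 k65 k142 1 8))))] .n)
  .n)))))

def t1_224 : T TT 256 :=
  (.q k60 [(.s k12 k8 1 (.s k20 k40 5 (.s k36 k52 3 (.s k24 k48 5 (.d k28 k16 k44 1 3))))), (.s k12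
  k8 1 (.s k6 k9 2 (.s k22 k41 6 (.s k38 k54 3 (.s k25 k51 6 (.d k28 k19 k44 2 3)))))), (.s k20 k40
  5 (.s k22 k41 6 (.s k52 k36 3 (.s k7 k37 4 (.s k15 k11 1 (.d k5 k6 k10 0 2))))))] (.c k44 (.l (.s
  k12 k8 1 (.s k20 k40 5 (.s k6 k9 2 (.s k22 k41 6 (.s k38 k54 3 (.d k21 k23 k55 0 4))))))) .n))

def t1_225 : T TT 256 :=
  (.q k60 [(.s k12 k8 1 (.s k20 k40 5 (.s k36 k52 3 (.s k28 k44 3 (.d k24 k16 k48 1 5))))), (.s k12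
  k8 1 (.s k6 k9 2 (.s k22 k41 6 (.s k38 k54 3 (.s k25 k51 6 (.d k28 k19 k44 2 3)))))), (.s k20 k40
  5 (.s k22 k41 6 (.s k52 k36 3 (.s k7 k37 4 (.s k15 k11 1 (.d k5 k6 k10 0 2))))))] (.c k44 (.l (.s
  k12 k8 1 (.s k20 k40 5 (.s k6 k9 2 (.s k22 k41 6 (.s k38 k54 3 (.d k21 k23 k55 0 4))))))) .n))

def t1_226 : T TT 256 :=
  (.q k204 [(.s k12 k8 1 (.s k68 k136 9 (.s k132 k196 7 (.s k76 k140 7 (.d k72 k64 k192 1 9))))),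
  (.s k12 k8 1 (.s k6 k9 2 (.s k70 k137 10 (.s k134 k198 7 (.s k73 k195 10 (.d k76 k67 k140 2
  7)))))), (.s k68 k136 9 (.s k70 k137 10 (.s k196 k132 7 (.s k7 k133 8 (.s k15 k11 1 (.d k5 k6 k10
  0 2))))))] (.c k140 (.l (.s k12 k8 1 (.s k68 k136 9 (.s k6 k9 2 (.s k70 k137 10 (.s k134 k198 7
  (.d k69 k71 k199 0 8))))))) .n))

def t1_227 : T TT 256 :=
  (.q k60 [(.s k12 k8 1 (.s k20 k40 5 (.s k36 k52 3 (.s k24 k48 5 (.d k28 k16 k44 1 3))))), (.s k12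
  k8 1 (.s k6 k9 2 (.s k22 k41 6 (.s k38 k54 3 (.s k25 k51 6 (.d k28 k19 k44 2 3)))))), (.s k20 k40
  5 (.s k22 k41 6 (.s k52 k36 3 (.s k7 k37 4 (.s k15 k11 1 (.d k5 k6 k10 0 2))))))] (.c k44 (.l (.s
  k12 k8 1 (.s k20 k40 5 (.s k6 k9 2 (.s k22 k41 6 (.s k38 k54 3 (.d k21 k23 k55 0 4))))))) .n))

def t1_228 : T TT 256 :=
  (.q k204 [(.s k12 k8 1 (.s k76 k140 7 (.s k68 k136 9 (.s k72 k64 1 (.d k132 k196 k192 7 9))))),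
  (.s k12 k8 1 (.s k6 k9 2 (.s k70 k137 10 (.s k134 k198 7 (.s k73 k195 10 (.d k76 k67 k140 2
  7)))))), (.s k68 k136 9 (.s k70 k137 10 (.s k196 k132 7 (.s k7 k133 8 (.s k15 k11 1 (.d k5 k6 k10
  0 2))))))] (.c k140 (.l (.s k12 k8 1 (.s k68 k136 9 (.s k6 k9 2 (.s k70 k137 10 (.s k134 k198 7
  (.d k69 k71 k199 0 8))))))) .n))

def t1_229 : T TT 256 :=
  (.q k60 [(.s k12 k8 1 (.s k20 k40 5 (.s k36 k52 3 (.s k28 k44 3 (.d k24 k16 k48 1 5))))), (.s k12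
  k8 1 (.s k6 k9 2 (.s k22 k41 6 (.s k38 k54 3 (.s k25 k51 6 (.d k28 k19 k44 2 3)))))), (.s k20 k40
  5 (.s k22 k41 6 (.s k52 k36 3 (.s k7 k37 4 (.s k15 k11 1 (.d k5 k6 k10 0 2))))))] (.c k44 (.l (.s
  k12 k8 1 (.s k20 k40 5 (.s k6 k9 2 (.s k22 k41 6 (.s k38 k54 3 (.d k21 k23 k55 0 4))))))) .n))

def t1_230 : T TT 256 :=
  (.q k204 [(.s k12 k8 1 (.s k76 k140 7 (.s k68 k136 9 (.s k72 k64 1 (.d k132 k196 k192 7 9))))),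
  (.s k12 k8 1 (.s k6 k9 2 (.s k70 k137 10 (.s k134 k198 7 (.s k73 k195 10 (.d k76 k67 k140 2
  7)))))), (.s k68 k136 9 (.s k70 k137 10 (.s k196 k132 7 (.s k7 k133 8 (.s k15 k11 1 (.d k5 k6 k10
  0 2))))))] (.c k140 (.l (.s k12 k8 1 (.s k68 k136 9 (.s k6 k9 2 (.s k70 k137 10 (.s k134 k198 7
  (.d k69 k71 k199 0 8))))))) .n))

def t1_231 : T TT 256 :=
  (.q k60 [(.s k12 k8 1 (.s k20 k40 5 (.s k36 k52 3 (.s k28 k44 3 (.d k24 k16 k48 1 5))))), (.s k12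
  k8 1 (.s k6 k9 2 (.s k22 k41 6 (.s k38 k54 3 (.s k25 k51 6 (.d k28 k19 k44 2 3)))))), (.s k20 k40
  5 (.s k22 k41 6 (.s k52 k36 3 (.s k7 k37 4 (.s k15 k11 1 (.d k5 k6 k10 0 2))))))] (.c k44 (.l (.s
  k12 k8 1 (.s k20 k40 5 (.s k6 k9 2 (.s k22 k41 6 (.s k38 k54 3 (.d k21 k23 k55 0 4))))))) .n))

def t1_232 : T TT 256 :=
  (.q k204 [(.s k12 k8 1 (.s k68 k136 9 (.s k132 k196 7 (.s k76 k140 7 (.d k72 k64 k192 1 9))))),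
  (.s k12 k8 1 (.s k6 k9 2 (.s k70 k137 10 (.s k134 k198 7 (.s k73 k195 10 (.d k76 k67 k140 2
  7)))))), (.s k68 k136 9 (.s k70 k137 10 (.s k196 k132 7 (.s k7 k133 8 (.s k15 k11 1 (.d k5 k6 k10
  0 2))))))] (.c k140 (.l (.s k12 k8 1 (.s k68 k136 9 (.s k6 k9 2 (.s k70 k137 10 (.s k134 k198 7
  (.d k69 k71 k199 0 8))))))) .n))

def t1_233 : T TT 256 :=
  (.q k60 [(.s k12 k8 1 (.s k20 k40 5 (.s k36 k52 3 (.s k28 k44 3 (.d k24 k16 k48 1 5))))), (.s k12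
  k8 1 (.s k6 k9 2 (.s k22 k41 6 (.s k38 k54 3 (.s k25 k51 6 (.d k28 k19 k44 2 3)))))), (.s k20 k40
  5 (.s k22 k41 6 (.s k52 k36 3 (.s k7 k37 4 (.s k15 k11 1 (.d k5 k6 k10 0 2))))))] (.c k44 (.l (.s
  k12 k8 1 (.s k20 k40 5 (.s k6 k9 2 (.s k22 k41 6 (.s k38 k54 3 (.d k21 k23 k55 0 4))))))) .n))

def t1_234 : T TT 256 :=
  (.f k12 k8 1 (.q k204 [(.s k68 k136 9 (.s k132 k196 7 (.s k76 k140 7 (.d k72 k192 k64 9 1)))), (.s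
  k6 k9 2 (.s k70 k137 10 (.s k134 k198 7 (.s k73 k195 10 (.d k76 k67 k140 2 7))))), (.s k6 k9 2 (.s
  k70 k137 10 (.s k134 k198 7 (.s k69 k199 8 (.d k68 k71 k136 0 9)))))] (.c k192 (.q k213 [(.s k9 k6
  2 (.s k137 k70 10 (.s k73 k201 7 (.s k134 k195 10 (.d k140 k131 k76 2 7))))), (.s k68 k136 9 (.s
  k196 k132 7 (.s k247 k230 4 (.s k85 k166 12 (.s k149 k21 7 (.d k102 k119 k55 4 12))))))] (.c k140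
  (.l (.s k68 k136 9 (.s k6 k9 2 (.s k70 k137 10 (.s k134 k198 7 (.d k69 k71 k199 0 8)))))) .n)) (.c
  k213 (.q k192 [(.s k68 k136 9 (.d k132 k72 k196 9 7)), (.s k64 k128 7 (.s k66 k129 8 (.s k70 k137
  10 (.s k76 k140 7 (.d k67 k65 k73 0 2))))), (.s k128 k64 7 (.s k129 k66 8 (.s k137 k70 10 (.s k140
  k76 7 (.d k131 k130 k134 0 2)))))] .n) .n))))

def t1_235 : T TT 256 :=
  (.f k12 k8 1 (.q k60 [(.s k20 k40 5 (.s k36 k52 3 (.s k28 k44 3 (.d k24 k16 k48 1 5)))), (.s k6 k9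
  2 (.s k22 k41 6 (.s k38 k54 3 (.s k25 k51 6 (.d k28 k19 k44 2 3))))), (.s k6 k9 2 (.s k22 k41 6
  (.s k38 k54 3 (.s k21 k55 4 (.d k20 k23 k40 0 5)))))] (.c k195 (.q k215 [(.s k20 k40 5 (.s k36 k52
  3 (.s k28 k44 3 (.d k24 k16 k48 1 5)))), (.s k6 k9 2 (.s k22 k41 6 (.s k38 k54 3 (.s k25 k51 6 (.d
  k28 k19 k44 2 3))))), (.s k6 k9 2 (.s k22 k41 6 (.s k38 k54 3 (.s k21 k55 4 (.d k20 k23 k40 0
  5)))))] .n) (.c k215 (.q k195 [(.s k20 k40 5 (.s k36 k52 3 (.s k28 k44 3 (.d k24 k16 k48 1 5)))),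
  (.s k130 k65 8 (.s k134 k73 10 (.s k69 k199 8 (.d k138 k142 k207 1 10))))] .n) .n))))

def t1_236 : T TT 256 :=
  (.q k60 [(.s k12 k8 1 (.s k20 k40 5 (.s k36 k52 3 (.s k24 k48 5 (.d k28 k16 k44 1 3))))), (.s k12
  k8 1 (.s k6 k9 2 (.s k22 k41 6 (.s k38 k54 3 (.s k25 k51 6 (.d k28 k19 k44 2 3)))))), (.s k20 k40
  5 (.s k22 k41 6 (.s k52 k36 3 (.s k7 k37 4 (.s k15 k11 1 (.d k5 k6 k10 0 2))))))] (.c k44 (.l (.s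
  k12 k8 1 (.s k20 k40 5 (.s k6 k9 2 (.s k22 k41 6 (.s k38 k54 3 (.d k21 k23 k55 0 4))))))) .n))

def t1_237 : T TT 256 :=
  (.q k60 [(.s k12 k8 1 (.s k20 k40 5 (.s k36 k52 3 (.s k28 k44 3 (.d k24 k16 k48 1 5))))), (.s k12
  k8 1 (.s k6 k9 2 (.s k22 k41 6 (.s k38 k54 3 (.s k25 k51 6 (.d k28 k19 k44 2 3)))))), (.s k20 k40
  5 (.s k22 k41 6 (.s k52 k36 3 (.s k7 k37 4 (.s k15 k11 1 (.d k5 k6 k10 0 2))))))] (.c k44 (.l (.s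
  k12 k8 1 (.s k20 k40 5 (.s k6 k9 2 (.s k22 k41 6 (.s k38 k54 3 (.d k21 k23 k55 0 4))))))) .n))

def t1_238 : T TT 256 :=
  (.q k204 [(.s k12 k8 1 (.s k68 k136 9 (.s k132 k196 7 (.s k76 k140 7 (.d k72 k64 k192 1 9))))),
  (.s k12 k8 1 (.s k6 k9 2 (.s k70 k137 10 (.s k134 k198 7 (.s k73 k195 10 (.d k76 k67 k140 2
  7)))))), (.s k68 k136 9 (.s k70 k137 10 (.s k196 k132 7 (.s k7 k133 8 (.s k15 k11 1 (.d k5 k6 k10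
  0 2))))))] (.c k140 (.l (.s k12 k8 1 (.s k68 k136 9 (.s k6 k9 2 (.s k70 k137 10 (.s k134 k198 7
  (.d k69 k71 k199 0 8))))))) .n))

def t1_239 : T TT 256 :=
  (.f k12 k8 1 (.q k60 [(.s k20 k40 5 (.s k36 k52 3 (.s k24 k48 5 (.d k28 k16 k44 1 3)))), (.s k6 k9
  2 (.s k22 k41 6 (.s k38 k54 3 (.s k25 k51 6 (.d k28 k19 k44 2 3))))), (.s k6 k9 2 (.s k22 k41 6
  (.s k38 k54 3 (.s k21 k55 4 (.d k20 k23 k40 0 5)))))] (.c k207 (.q k223 [(.s k20 k40 5 (.s k36 k52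
  3 (.s k28 k44 3 (.d k24 k16 k48 1 5)))), (.s k6 k9 2 (.s k22 k41 6 (.s k38 k54 3 (.s k25 k51 6 (.d
  k28 k19 k44 2 3))))), (.s k6 k9 2 (.s k22 k41 6 (.s k38 k54 3 (.s k21 k55 4 (.d k20 k23 k40 0
  5)))))] .n) (.c k223 (.q k207 [(.s k20 k40 5 (.s k36 k52 3 (.s k24 k48 5 (.d k28 k16 k44 1 3)))),
  (.s k69 k138 10 (.s k134 k199 8 (.s k73 k195 10 (.d k77 k65 k142 1 8))))] .n) .n))))

def t1_240 : T TT 256 :=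
  (.f k12 k8 1 (.f k9 k6 2 (.q k204 [(.s k68 k136 9 (.s k132 k196 7 (.s k76 k140 7 (.d k72 k64 k192
  1 9)))), (.s k137 k70 10 (.s k73 k201 7 (.s k134 k195 10 (.d k140 k131 k76 2 7)))), (.s k136 k68 9
  (.s k137 k70 10 (.s k73 k201 7 (.s k134 k195 10 (.s k69 k199 8 (.d k138 k207 k139 10 0))))))] (.c
  k245 (.q k250 [(.s k68 k136 9 (.s k132 k196 7 (.s k76 k140 7 (.d k72 k64 k192 1 9)))), (.s k137
  k70 10 (.s k73 k201 7 (.s k134 k195 10 (.d k140 k131 k76 2 7)))), (.s k136 k68 9 (.s k137 k70 10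
  (.s k73 k201 7 (.s k134 k195 10 (.s k69 k199 8 (.d k138 k207 k139 10 0))))))] .n) (.c k250 (.q
  k245 [(.s k68 k136 9 (.s k132 k196 7 (.s k76 k140 7 (.d k72 k64 k192 1 9)))), (.s k137 k70 10 (.s
  k73 k201 7 (.s k134 k195 10 (.d k140 k131 k76 2 7)))), (.s k136 k68 9 (.s k137 k70 10 (.s k73 k201
  7 (.s k134 k195 10 (.s k69 k199 8 (.d k138 k207 k139 10 0))))))] .n) .n)))))

def t1_241 : T TT 256 :=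
  (.f k12 k8 1 (.q k204 [(.s k68 k136 9 (.s k132 k196 7 (.s k76 k140 7 (.d k72 k64 k192 1 9)))), (.s
  k6 k9 2 (.s k70 k137 10 (.s k134 k198 7 (.s k73 k195 10 (.d k76 k67 k140 2 7))))), (.s k6 k9 2 (.s
  k70 k137 10 (.s k134 k198 7 (.s k69 k199 8 (.d k68 k71 k136 0 9)))))] (.c k81 (.q k161 [(.s k68
  k136 9 (.s k132 k196 7 (.s k76 k140 7 (.d k72 k64 k192 1 9)))), (.s k6 k9 2 (.s k70 k137 10 (.s
  k134 k198 7 (.s k73 k195 10 (.d k76 k67 k140 2 7))))), (.s k6 k9 2 (.s k70 k137 10 (.s k134 k198 7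
  (.s k69 k199 8 (.d k68 k71 k136 0 9)))))] .n) (.c k161 (.q k81 [(.s k68 k136 9 (.s k132 k196 7 (.s
  k76 k140 7 (.d k72 k64 k192 1 9)))), (.s k6 k9 2 (.s k70 k137 10 (.s k134 k198 7 (.s k73 k195 10
  (.d k76 k67 k140 2 7))))), (.s k6 k9 2 (.s k70 k137 10 (.s k134 k198 7 (.s k69 k199 8 (.d k68 k71
  k136 0 9)))))] .n) .n))))

def t1_242 : T TT 256 :=
  (.q k60 [(.s k12 k8 1 (.s k20 k40 5 (.s k36 k52 3 (.s k28 k44 3 (.d k24 k16 k48 1 5))))), (.s k12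
  k8 1 (.s k6 k9 2 (.s k22 k41 6 (.s k38 k54 3 (.s k25 k51 6 (.d k28 k19 k44 2 3)))))), (.s k20 k40
  5 (.s k22 k41 6 (.s k52 k36 3 (.s k7 k37 4 (.s k15 k11 1 (.d k5 k6 k10 0 2))))))] (.c k44 (.l (.s
  k12 k8 1 (.s k20 k40 5 (.s k6 k9 2 (.s k22 k41 6 (.s k38 k54 3 (.d k21 k23 k55 0 4))))))) .n))

def t1_243 : T TT 256 :=
  (.f k12 k8 1 (.q k60 [(.s k20 k40 5 (.s k36 k52 3 (.s k28 k44 3 (.d k24 k16 k48 1 5)))), (.s k6 k9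
  2 (.s k22 k41 6 (.s k38 k54 3 (.s k25 k51 6 (.d k28 k19 k44 2 3))))), (.s k6 k9 2 (.s k22 k41 6
  (.s k38 k54 3 (.s k21 k55 4 (.d k20 k23 k40 0 5)))))] (.c k247 (.q k251 [(.s k28 k44 3 (.s k20 k40
  5 (.s k24 k16 1 (.d k36 k52 k48 3 5)))), (.s k6 k9 2 (.s k22 k41 6 (.s k38 k54 3 (.s k25 k51 6 (.d
  k28 k19 k44 2 3))))), (.s k6 k9 2 (.s k22 k41 6 (.s k38 k54 3 (.s k21 k55 4 (.d k20 k23 k40 0
  5)))))] .n) (.c k251 (.q k247 [(.s k20 k40 5 (.s k36 k52 3 (.s k28 k44 3 (.d k24 k16 k48 1 5)))),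
  (.s k6 k9 2 (.s k22 k41 6 (.s k38 k54 3 (.s k25 k51 6 (.d k28 k19 k44 2 3))))), (.s k6 k9 2 (.s
  k22 k41 6 (.s k38 k54 3 (.s k21 k55 4 (.d k20 k23 k40 0 5)))))] (.c k89 (.q k170 [(.s k20 k40 5
  (.s k36 k52 3 (.s k28 k44 3 (.d k24 k16 k48 1 5)))), (.s k6 k9 2 (.s k22 k41 6 (.s k38 k54 3 (.s
  k25 k51 6 (.d k28 k19 k44 2 3))))), (.s k20 k40 5 (.s k6 k9 2 (.s k22 k41 6 (.s k38 k54 3 (.d k21
  k23 k55 0 4)))))] .n) (.c k170 (.q k89 [(.s k20 k40 5 (.s k36 k52 3 (.s k28 k44 3 (.d k24 k16 k48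
  1 5)))), (.s k6 k9 2 (.s k22 k41 6 (.s k38 k54 3 (.s k25 k51 6 (.d k28 k19 k44 2 3))))), (.s k20
  k40 5 (.s k6 k9 2 (.s k22 k41 6 (.s k38 k54 3 (.d k21 k23 k55 0 4)))))] .n) .n))) .n))))

def t1_244 : T TT 256 :=
  (.q k204 [(.s k12 k8 1 (.s k76 k140 7 (.s k68 k136 9 (.s k72 k64 1 (.d k132 k196 k192 7 9))))),
  (.s k12 k8 1 (.s k6 k9 2 (.s k70 k137 10 (.s k134 k198 7 (.s k73 k195 10 (.d k76 k67 k140 2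
  7)))))), (.s k68 k136 9 (.s k70 k137 10 (.s k196 k132 7 (.s k7 k133 8 (.s k15 k11 1 (.d k5 k6 k10
  0 2))))))] (.c k140 (.l (.s k12 k8 1 (.s k68 k136 9 (.s k6 k9 2 (.s k70 k137 10 (.s k134 k198 7
  (.d k69 k71 k199 0 8))))))) .n))

def t1_245 : T TT 256 :=
  (.f k12 k8 1 (.f k9 k6 2 (.q k204 [(.s k68 k136 9 (.s k132 k196 7 (.s k76 k140 7 (.d k72 k64 k192
  1 9)))), (.s k137 k70 10 (.s k73 k201 7 (.s k134 k195 10 (.d k140 k131 k76 2 7)))), (.s k136 k68 9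
  (.s k137 k70 10 (.s k73 k201 7 (.s k134 k195 10 (.s k69 k199 8 (.d k138 k207 k139 10 0))))))] (.c
  k240 (.q k250 [(.s k68 k136 9 (.s k132 k196 7 (.s k76 k140 7 (.d k72 k64 k192 1 9)))), (.s k137
  k70 10 (.s k73 k201 7 (.s k134 k195 10 (.d k140 k131 k76 2 7)))), (.s k136 k68 9 (.s k137 k70 10
  (.s k73 k201 7 (.s k134 k195 10 (.s k69 k199 8 (.d k138 k207 k139 10 0))))))] .n) (.c k250 (.q
  k240 [(.s k68 k136 9 (.s k132 k196 7 (.s k76 k140 7 (.d k72 k64 k192 1 9)))), (.s k160 k80 11 (.s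
  k164 k88 13 (.s k84 k244 11 (.d k168 k172 k252 1 13))))] .n) .n)))))

def t1_246 : T TT 256 :=
  (.q k60 [(.s k12 k8 1 (.s k20 k40 5 (.s k36 k52 3 (.s k28 k44 3 (.d k24 k16 k48 1 5))))), (.s k12
  k8 1 (.s k6 k9 2 (.s k22 k41 6 (.s k38 k54 3 (.s k25 k51 6 (.d k28 k19 k44 2 3)))))), (.s k20 k40
  5 (.s k22 k41 6 (.s k52 k36 3 (.s k7 k37 4 (.s k15 k11 1 (.d k5 k6 k10 0 2))))))] (.c k44 (.l (.s
  k12 k8 1 (.s k20 k40 5 (.s k6 k9 2 (.s k22 k41 6 (.s k38 k54 3 (.d k21 k23 k55 0 4))))))) .n))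

def t1_247 : T TT 256 :=
  (.f k12 k8 1 (.q k60 [(.s k28 k44 3 (.s k20 k40 5 (.s k24 k16 1 (.d k36 k52 k48 3 5)))), (.s k6 k9
  2 (.s k22 k41 6 (.s k38 k54 3 (.s k25 k51 6 (.d k28 k19 k44 2 3))))), (.s k6 k9 2 (.s k22 k41 6
  (.s k38 k54 3 (.s k21 k55 4 (.d k20 k23 k40 0 5)))))] (.c k243 (.q k251 [(.s k28 k44 3 (.s k20 k40
  5 (.s k24 k16 1 (.d k36 k52 k48 3 5)))), (.s k6 k9 2 (.s k22 k41 6 (.s k38 k54 3 (.s k25 k51 6 (.d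
  k28 k19 k44 2 3))))), (.s k6 k9 2 (.s k22 k41 6 (.s k38 k54 3 (.s k21 k55 4 (.d k20 k23 k40 0
  5)))))] .n) (.c k251 (.q k243 [(.s k28 k44 3 (.s k20 k40 5 (.s k24 k16 1 (.d k36 k52 k48 3 5)))),
  (.s k6 k9 2 (.s k22 k41 6 (.s k38 k54 3 (.s k25 k51 6 (.d k28 k19 k44 2 3))))), (.s k6 k9 2 (.s
  k22 k41 6 (.s k38 k54 3 (.s k21 k55 4 (.d k20 k23 k40 0 5)))))] (.c k89 (.q k170 [(.s k28 k44 3
  (.s k20 k40 5 (.s k24 k16 1 (.d k36 k52 k48 3 5)))), (.s k6 k9 2 (.s k22 k41 6 (.s k38 k54 3 (.s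
  k25 k51 6 (.d k28 k19 k44 2 3))))), (.s k20 k40 5 (.s k6 k9 2 (.s k22 k41 6 (.s k38 k54 3 (.d k21
  k23 k55 0 4)))))] .n) (.c k170 (.l (.s k89 k166 14 (.s k20 k40 5 (.s k36 k52 3 (.s k24 k48 5 (.d
  k28 k16 k44 1 3)))))) .n))) .n))))

def t1_248 : T TT 256 :=
  (.q k204 [(.s k12 k8 1 (.s k68 k136 9 (.s k132 k196 7 (.s k76 k140 7 (.d k72 k64 k192 1 9))))),
  (.s k68 k136 9 (.s k70 k137 10 (.s k196 k132 7 (.s k7 k133 8 (.s k15 k11 1 (.d k5 k6 k10 0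
  2)))))), (.s k12 k8 1 (.s k6 k9 2 (.s k70 k137 10 (.s k134 k198 7 (.s k73 k195 10 (.d k76 k67 k140
  2 7))))))] (.c k140 (.l (.s k12 k8 1 (.s k68 k136 9 (.s k6 k9 2 (.s k70 k137 10 (.s k134 k198 7
  (.d k69 k71 k199 0 8))))))) .n))

def t1_249 : T TT 256 :=
  (.q k204 [(.s k12 k8 1 (.s k68 k136 9 (.s k132 k196 7 (.s k76 k140 7 (.d k72 k64 k192 1 9))))),
  (.s k12 k8 1 (.s k6 k9 2 (.s k70 k137 10 (.s k134 k198 7 (.s k73 k195 10 (.d k76 k67 k140 2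
  7)))))), (.s k68 k136 9 (.s k70 k137 10 (.s k196 k132 7 (.s k7 k133 8 (.s k15 k11 1 (.d k5 k6 k10
  0 2))))))] (.c k140 (.l (.s k12 k8 1 (.s k68 k136 9 (.s k6 k9 2 (.s k70 k137 10 (.s k134 k198 7
  (.d k69 k71 k199 0 8))))))) .n))

def t1_250 : T TT 256 :=
  (.f k12 k8 1 (.f k9 k6 2 (.q k204 [(.s k68 k136 9 (.s k132 k196 7 (.s k76 k140 7 (.d k72 k64 k192
  1 9)))), (.s k137 k70 10 (.s k73 k201 7 (.s k134 k195 10 (.d k140 k131 k76 2 7)))), (.s k136 k68 9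
  (.s k137 k70 10 (.s k73 k201 7 (.s k134 k195 10 (.s k69 k199 8 (.d k138 k207 k139 10 0))))))] (.c
  k240 (.q k245 [(.s k68 k136 9 (.s k132 k196 7 (.s k76 k140 7 (.d k72 k64 k192 1 9)))), (.s k137
  k70 10 (.s k73 k201 7 (.s k134 k195 10 (.d k140 k131 k76 2 7)))), (.s k136 k68 9 (.s k137 k70 10
  (.s k73 k201 7 (.s k134 k195 10 (.s k69 k199 8 (.d k138 k207 k139 10 0))))))] .n) (.c k245 (.q
  k240 [(.s k68 k136 9 (.s k132 k196 7 (.s k76 k140 7 (.d k72 k64 k192 1 9)))), (.s k160 k80 11 (.s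
  k164 k88 13 (.s k84 k244 11 (.d k168 k172 k252 1 13))))] .n) .n)))))

def t1_251 : T TT 256 :=
  (.q k204 [(.s k12 k8 1 (.s k68 k136 9 (.s k132 k196 7 (.s k76 k140 7 (.d k72 k64 k192 1 9))))),
  (.s k68 k136 9 (.s k70 k137 10 (.s k196 k132 7 (.s k7 k133 8 (.s k15 k11 1 (.d k5 k6 k10 0
  2)))))), (.s k12 k8 1 (.s k6 k9 2 (.s k70 k137 10 (.s k134 k198 7 (.s k73 k195 10 (.d k76 k67 k140
  2 7))))))] (.c k140 (.l (.s k12 k8 1 (.s k68 k136 9 (.s k6 k9 2 (.s k70 k137 10 (.s k134 k198 7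
  (.d k69 k71 k199 0 8))))))) (.c k243 (.q k247 [(.s k12 k8 1 (.s k68 k136 9 (.s k132 k196 7 (.s k76
  k140 7 (.d k72 k64 k192 1 9))))), (.s k68 k136 9 (.s k70 k137 10 (.s k196 k132 7 (.s k7 k133 8 (.s
  k15 k11 1 (.d k5 k6 k10 0 2)))))), (.s k12 k8 1 (.s k6 k9 2 (.s k70 k137 10 (.s k134 k198 7 (.s
  k73 k195 10 (.d k76 k67 k140 2 7))))))] (.c k140 (.l (.s k12 k8 1 (.s k68 k136 9 (.s k6 k9 2 (.s
  k70 k137 10 (.s k134 k198 7 (.d k69 k71 k199 0 8))))))) .n)) (.c k247 (.q k243 [(.s k12 k8 1 (.s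
  k76 k140 7 (.s k68 k136 9 (.s k72 k64 1 (.d k132 k196 k192 7 9))))), (.s k12 k8 1 (.s k6 k9 2 (.s
  k70 k137 10 (.s k134 k198 7 (.s k73 k195 10 (.d k76 k67 k140 2 7)))))), (.s k68 k136 9 (.s k70
  k137 10 (.s k196 k132 7 (.s k7 k133 8 (.s k15 k11 1 (.d k5 k6 k10 0 2))))))] (.c k140 (.l (.s k12
  k8 1 (.s k68 k136 9 (.s k6 k9 2 (.s k70 k137 10 (.s k134 k198 7 (.d k69 k71 k199 0 8))))))) .n))
  .n))))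

def t1_252 : T TT 256 :=
  (.f k12 k8 1 (.f k9 k6 2 (.q k204 [(.s k68 k136 9 (.s k132 k196 7 (.s k76 k140 7 (.d k72 k64 k192
  1 9)))), (.s k137 k70 10 (.s k73 k201 7 (.s k134 k195 10 (.d k140 k131 k76 2 7)))), (.s k136 k68 9
  (.s k137 k70 10 (.s k73 k201 7 (.s k134 k195 10 (.s k69 k199 8 (.d k138 k207 k139 10 0))))))] (.c
  k253 (.q k254 [(.s k68 k136 9 (.s k132 k196 7 (.s k76 k140 7 (.d k72 k64 k192 1 9)))), (.s k137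
  k70 10 (.s k73 k201 7 (.s k134 k195 10 (.d k140 k131 k76 2 7)))), (.s k136 k68 9 (.s k137 k70 10
  (.s k73 k201 7 (.s k134 k195 10 (.s k69 k199 8 (.d k138 k207 k139 10 0))))))] (.c k85 (.q k169
  [(.s k68 k136 9 (.s k132 k196 7 (.s k76 k140 7 (.d k72 k64 k192 1 9)))), (.s k137 k70 10 (.s k89
  k249 11 (.s k243 k166 14 (.s k153 k185 3 (.d k217 k230 k25 6 7)))))] .n) (.c k169 (.q k85 [(.s k68
  k136 9 (.s k132 k196 7 (.s k76 k140 7 (.d k72 k64 k192 1 9)))), (.s k137 k70 10 (.s k73 k201 7 (.s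
  k134 k195 10 (.d k140 k131 k76 2 7)))), (.s k68 k136 9 (.s k166 k247 12 (.s k243 k89 14 (.s k102
  k119 4 (.d k230 k217 k38 6 7)))))] .n) .n))) (.c k254 (.q k253 [(.s k68 k136 9 (.s k132 k196 7 (.s
  k76 k140 7 (.d k72 k64 k192 1 9)))), (.s k137 k70 10 (.s k73 k201 7 (.s k134 k195 10 (.d k140 k131
  k76 2 7)))), (.s k136 k68 9 (.s k137 k70 10 (.s k73 k201 7 (.s k134 k195 10 (.s k69 k199 8 (.d
  k138 k207 k139 10 0))))))] .n) .n)))))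

def t1_253 : T TT 256 :=
  (.f k12 k8 1 (.q k252 [(.s k84 k168 13 (.s k164 k244 11 (.s k92 k172 11 (.d k88 k80 k240 1 13)))),
  (.s k9 k6 2 (.s k169 k86 14 (.s k89 k249 11 (.s k166 k243 14 (.d k172 k163 k92 2 11))))), (.s k84
  k168 13 (.s k6 k9 2 (.s k86 k169 14 (.s k85 k87 0 (.d k166 k246 k247 11 12)))))] (.c k85 (.l (.s
  k169 k86 14 (.s k84 k168 13 (.s k164 k244 11 (.s k88 k240 13 (.d k92 k80 k172 1 11)))))) (.c k169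
  (.q k85 [(.s k84 k168 13 (.s k164 k244 11 (.s k88 k240 13 (.d k92 k80 k172 1 11)))), (.s k6 k9 2
  (.s k166 k247 12 (.s k246 k86 11 (.d k243 k249 k89 2 14))))] .n) .n))))

def t1_254 : T TT 256 :=
  (.q k252 [(.s k12 k8 1 (.s k84 k168 13 (.s k164 k244 11 (.s k92 k172 11 (.d k88 k80 k240 1
  13))))), (.s k12 k8 1 (.s k6 k9 2 (.s k86 k169 14 (.s k166 k246 11 (.s k89 k243 14 (.d k92 k83
  k172 2 11)))))), (.s k84 k168 13 (.s k86 k169 14 (.s k244 k164 11 (.s k7 k165 12 (.s k15 k11 1 (.d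
  k5 k6 k10 0 2))))))] (.c k172 (.l (.s k12 k8 1 (.s k84 k168 13 (.s k6 k9 2 (.s k86 k169 14 (.s
  k166 k246 11 (.d k85 k87 k247 0 12))))))) .n))

def t1 : T TT 256 :=
  (.q k4 [] (.c k2 t1_2 (.c k5 t1_5 (.c k6 t1_6 (.c k7 t1_7 (.c k8 t1_8 (.c k9 t1_9 (.c k10 t1_10
  (.c k11 t1_11 (.c k12 t1_12 (.c k13 t1_13 (.c k14 t1_14 (.c k15 t1_15 (.c k16 t1_16 (.c k17 t1_17
  (.c k18 t1_18 (.c k19 t1_19 (.c k20 t1_20 (.c k21 t1_21 (.c k22 t1_22 (.c k23 t1_23 (.c k24 t1_24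
  (.c k25 t1_25 (.c k26 t1_26 (.c k27 t1_27 (.c k28 t1_28 (.c k29 t1_29 (.c k30 t1_30 (.c k31 t1_31
  (.c k32 t1_32 (.c k33 t1_33 (.c k34 t1_34 (.c k35 t1_35 (.c k36 t1_36 (.c k37 t1_37 (.c k38 t1_38
  (.c k39 t1_39 (.c k40 t1_40 (.c k41 t1_41 (.c k42 t1_42 (.c k43 t1_43 (.c k44 t1_44 (.c k45 t1_45
  (.c k46 t1_46 (.c k47 t1_47 (.c k48 t1_48 (.c k49 t1_49 (.c k50 t1_50 (.c k51 t1_51 (.c k52 t1_52
  (.c k53 t1_53 (.c k54 t1_54 (.c k55 t1_55 (.c k56 t1_56 (.c k57 t1_57 (.c k58 t1_58 (.c k59 t1_59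
  (.c k60 t1_60 (.c k61 t1_61 (.c k62 t1_62 (.c k63 t1_63 (.c k64 t1_64 (.c k65 t1_65 (.c k66 t1_66
  (.c k67 t1_67 (.c k68 t1_68 (.c k69 t1_69 (.c k70 t1_70 (.c k71 t1_71 (.c k72 t1_72 (.c k73 t1_73
  (.c k74 t1_74 (.c k75 t1_75 (.c k76 t1_76 (.c k77 t1_77 (.c k78 t1_78 (.c k79 t1_79 (.c k80 t1_80
  (.c k81 t1_81 (.c k82 t1_82 (.c k83 t1_83 (.c k84 t1_84 (.c k85 t1_85 (.c k86 t1_86 (.c k87 t1_87
  (.c k88 t1_88 (.c k89 t1_89 (.c k90 t1_90 (.c k91 t1_91 (.c k92 t1_92 (.c k93 t1_93 (.c k94 t1_94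
  (.c k95 t1_95 (.c k96 t1_96 (.c k97 t1_97 (.c k98 t1_98 (.c k99 t1_99 (.c k100 t1_100 (.c k101
  t1_101 (.c k102 t1_102 (.c k103 t1_103 (.c k104 t1_104 (.c k105 t1_105 (.c k106 t1_106 (.c k107
  t1_107 (.c k108 t1_108 (.c k109 t1_109 (.c k110 t1_110 (.c k111 t1_111 (.c k112 t1_112 (.c k113
  t1_113 (.c k114 t1_114 (.c k115 t1_115 (.c k116 t1_116 (.c k117 t1_117 (.c k118 t1_118 (.c k119
  t1_119 (.c k120 t1_120 (.c k121 t1_121 (.c k122 t1_122 (.c k123 t1_123 (.c k124 t1_124 (.c k125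
  t1_125 (.c k126 t1_126 (.c k127 t1_127 (.c k128 t1_128 (.c k129 t1_129 (.c k130 t1_130 (.c k131
  t1_131 (.c k132 t1_132 (.c k133 t1_133 (.c k134 t1_134 (.c k135 t1_135 (.c k136 t1_136 (.c k137
  t1_137 (.c k138 t1_138 (.c k139 t1_139 (.c k140 t1_140 (.c k141 t1_141 (.c k142 t1_142 (.c k143
  t1_143 (.c k144 t1_144 (.c k145 t1_145 (.c k146 t1_146 (.c k147 t1_147 (.c k148 t1_148 (.c k149
  t1_149 (.c k150 t1_150 (.c k151 t1_151 (.c k152 t1_152 (.c k153 t1_153 (.c k154 t1_154 (.c k155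
  t1_155 (.c k156 t1_156 (.c k157 t1_157 (.c k158 t1_158 (.c k159 t1_159 (.c k160 t1_160 (.c k161
  t1_161 (.c k162 t1_162 (.c k163 t1_163 (.c k164 t1_164 (.c k165 t1_165 (.c k166 t1_166 (.c k167
  t1_167 (.c k168 t1_168 (.c k169 t1_169 (.c k170 t1_170 (.c k171 t1_171 (.c k172 t1_172 (.c k173
  t1_173 (.c k174 t1_174 (.c k175 t1_175 (.c k176 t1_176 (.c k177 t1_177 (.c k178 t1_178 (.c k179
  t1_179 (.c k180 t1_180 (.c k181 t1_181 (.c k182 t1_182 (.c k183 t1_183 (.c k184 t1_184 (.c k185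
  t1_185 (.c k186 t1_186 (.c k187 t1_187 (.c k188 t1_188 (.c k189 t1_189 (.c k190 t1_190 (.c k191
  t1_191 (.c k192 t1_192 (.c k193 t1_193 (.c k194 t1_194 (.c k195 t1_195 (.c k196 t1_196 (.c k197
  t1_197 (.c k198 t1_198 (.c k199 t1_199 (.c k200 t1_200 (.c k201 t1_201 (.c k202 t1_202 (.c k203
  t1_203 (.c k204 t1_204 (.c k205 t1_205 (.c k206 t1_206 (.c k207 t1_207 (.c k208 t1_208 (.c k209
  t1_209 (.c k210 t1_210 (.c k211 t1_211 (.c k212 t1_212 (.c k213 t1_213 (.c k214 t1_214 (.c k215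
  t1_215 (.c k216 t1_216 (.c k217 t1_217 (.c k218 t1_218 (.c k219 t1_219 (.c k220 t1_220 (.c k221
  t1_221 (.c k222 t1_222 (.c k223 t1_223 (.c k224 t1_224 (.c k225 t1_225 (.c k226 t1_226 (.c k227
  t1_227 (.c k228 t1_228 (.c k229 t1_229 (.c k230 t1_230 (.c k231 t1_231 (.c k232 t1_232 (.c k233
  t1_233 (.c k234 t1_234 (.c k235 t1_235 (.c k236 t1_236 (.c k237 t1_237 (.c k238 t1_238 (.c k239
  t1_239 (.c k240 t1_240 (.c k241 t1_241 (.c k242 t1_242 (.c k243 t1_243 (.c k244 t1_244 (.c k245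
  t1_245 (.c k246 t1_246 (.c k247 t1_247 (.c k248 t1_248 (.c k249 t1_249 (.c k250 t1_250 (.c k251
  t1_251 (.c k252 t1_252 (.c k253 t1_253 (.c k254 t1_254
  .n))))))))))))))))))))))))))))))))))))))))))))))))))))))))))))))))))))))))))))))))
  ))))))))))))))))))))))))))))))))))))))))))))))))))))))))))))))))))))))))))))))))
  )))))))))))))))))))))))))))))))))))))))))))))))))))))))))))))))))))))))))))))))) ))))))))))))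

def t4 : T TT 256 :=
  (.f k1 k2 0 (.q k17 [(.s k34 k51 4 (.s k33 k49 3 (.s k48 k18 4 (.d k32 k35 k16 0 3)))), (.s k51
  k34 4 (.s k33 k49 3 (.s k18 k48 4 (.d k19 k16 k35 0 3))))] (.c k16 (.q k21 [(.s k42 k63 6 (.s k41
  k61 5 (.s k60 k22 6 (.d k40 k43 k20 0 5)))), (.s k51 k34 4 (.s k41 k61 5 (.s k35 k19 3 (.s k25 k29
  1 (.d k38 k44 k12 2 6))))), (.s k51 k34 4 (.s k63 k42 6 (.s k19 k35 3 (.s k25 k29 1 (.s k22 k28 2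
  (.d k23 k20 k43 0 5))))))] .n) (.c k18 (.q k21 [(.s k49 k33 3 (.s k41 k61 5 (.s k25 k29 1 (.s k9
  k57 3 (.d k13 k5 k37 1 5))))), (.s k42 k63 6 (.s k41 k61 5 (.s k60 k22 6 (.d k40 k43 k20 0 5))))]
  (.c k34 (.q k50 [(.s k42 k63 6 (.s k41 k61 5 (.s k40 k43 0 (.d k60 k20 k22 5 6)))), (.s k49 k33 3
  (.s k41 k61 5 (.s k25 k29 1 (.s k9 k57 3 (.d k13 k5 k37 1 5))))), (.s k42 k63 6 (.s k49 k33 3 (.s
  k25 k29 1 (.s k48 k51 0 (.s k32 k16 3 (.d k37 k47 k13 2 5))))))] .n) (.c k41 (.l (.s k42 k63 6 (.s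
  k49 k33 3 (.s k25 k29 1 (.s k37 k13 5 (.s k32 k47 2 (.s k48 k16 3 (.d k51 k50 k34 0 4)))))))) (.c
  k50 (.l (.s k34 k51 4 (.s k42 k63 6 (.s k41 k61 5 (.s k60 k22 6 (.d k40 k43 k20 0 5)))))) (.c k61
  (.l (.s k63 k42 6 (.s k23 k43 5 (.s k25 k29 1 (.s k22 k20 0 (.s k19 k28 2 (.d k51 k35 k34 3
  4))))))) .n))))) (.c k33 (.q k21 [(.s k42 k63 6 (.s k41 k61 5 (.s k60 k22 6 (.d k40 k43 k20 0
  5)))), (.s k51 k34 4 (.s k41 k61 5 (.s k35 k19 3 (.s k25 k29 1 (.d k38 k44 k12 2 6))))), (.s k51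
  k34 4 (.s k63 k42 6 (.s k35 k19 3 (.s k43 k23 5 (.s k39 k47 1 (.s k27 k15 5 (.d k59 k55 k11 1
  3)))))))] .n) (.c k34 (.q k21 [(.s k42 k63 6 (.s k41 k61 5 (.s k60 k22 6 (.d k40 k43 k20 0 5)))),
  (.s k49 k33 3 (.s k41 k61 5 (.s k25 k29 1 (.s k9 k57 3 (.d k13 k5 k37 1 5))))), (.s k63 k42 6 (.s
  k33 k49 3 (.s k18 k48 4 (.s k16 k19 0 (.s k26 k31 2 (.s k22 k30 1 (.d k23 k20 k43 0 5)))))))] (.c
  k18 (.q k50 [(.s k42 k63 6 (.s k41 k61 5 (.s k40 k43 0 (.d k60 k20 k22 5 6)))), (.s k49 k33 3 (.s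
  k41 k61 5 (.s k25 k29 1 (.s k9 k57 3 (.d k13 k5 k37 1 5))))), (.s k42 k63 6 (.s k49 k33 3 (.s k25
  k29 1 (.s k48 k51 0 (.s k32 k16 3 (.d k37 k47 k13 2 5))))))] .n) (.c k50 (.q k18 [(.d k33 k49 k48
  3 4), (.s k42 k63 6 (.s k41 k61 5 (.s k60 k22 6 (.d k40 k43 k20 0 5))))] .n) .n))) (.c k35 (.q k21
  [(.s k42 k63 6 (.s k41 k61 5 (.s k60 k22 6 (.d k40 k43 k20 0 5)))), (.s k51 k34 4 (.s k41 k61 5
  (.s k25 k29 1 (.s k9 k57 3 (.d k12 k6 k38 2 6))))), (.s k42 k63 6 (.s k33 k49 3 (.s k48 k18 4 (.s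
  k16 k32 3 (.s k26 k31 2 (.s k10 k58 3 (.d k15 k5 k37 2 6)))))))] .n) (.c k48 (.q k21 [(.s k42 k63
  6 (.s k41 k61 5 (.s k60 k22 6 (.d k40 k43 k20 0 5)))), (.s k51 k34 4 (.s k41 k61 5 (.s k35 k19 3
  (.s k25 k29 1 (.d k38 k44 k12 2 6))))), (.s k51 k34 4 (.s k63 k42 6 (.s k19 k35 3 (.s k25 k29 1
  (.s k22 k28 2 (.d k23 k20 k43 0 5))))))] (.c k117 (.q k186 [(.s k42 k63 6 (.s k41 k61 5 (.s k60
  k22 6 (.d k40 k43 k20 0 5)))), (.s k51 k34 4 (.s k41 k61 5 (.s k35 k19 3 (.s k25 k29 1 (.d k38 k44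
  k12 2 6))))), (.s k51 k34 4 (.s k63 k42 6 (.s k19 k35 3 (.s k25 k29 1 (.s k22 k28 2 (.d k23 k20
  k43 0 5))))))] .n) (.c k186 (.q k117 [(.s k42 k63 6 (.s k41 k61 5 (.s k60 k22 6 (.d k40 k43 k20 0
  5)))), (.s k49 k33 3 (.s k253 k185 9 (.s k85 k169 13 (.s k153 k221 9 (.d k101 k69 k205 3 13)))))]
  .n) .n))) (.c k49 (.q k21 [(.s k63 k42 6 (.s k23 k43 5 (.s k22 k20 0 (.d k41 k61 k60 5 6)))), (.s
  k51 k34 4 (.s k41 k61 5 (.s k35 k19 3 (.s k25 k29 1 (.d k38 k44 k12 2 6))))), (.s k51 k34 4 (.s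
  k63 k42 6 (.s k19 k35 3 (.s k25 k29 1 (.s k22 k28 2 (.d k23 k20 k43 0 5))))))] .n) (.c k50 (.l (.s
  k34 k51 4 (.s k33 k49 3 (.s k48 k18 4 (.d k32 k35 k16 0 3))))) (.c k51 (.q k21 [(.s k49 k33 3 (.s
  k41 k61 5 (.s k25 k29 1 (.s k13 k37 5 (.d k9 k5 k57 1 3))))), (.s k42 k63 6 (.s k41 k61 5 (.s k60
  k22 6 (.d k40 k43 k20 0 5)))), (.s k42 k63 6 (.s k33 k49 3 (.s k48 k18 4 (.s k16 k32 3 (.s k26 k31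
  2 (.s k10 k58 3 (.d k15 k5 k37 2 6)))))))] (.c k119 (.q k187 [(.s k49 k33 3 (.s k41 k61 5 (.s k25
  k29 1 (.s k13 k37 5 (.d k9 k5 k57 1 3))))), (.s k42 k63 6 (.s k41 k61 5 (.s k60 k22 6 (.d k40 k43
  k20 0 5)))), (.s k42 k63 6 (.s k33 k49 3 (.s k48 k18 4 (.s k16 k32 3 (.s k26 k31 2 (.s k10 k58 3
  (.d k15 k5 k37 2 6)))))))] .n) (.c k187 (.q k119 [(.s k49 k33 3 (.s k41 k61 5 (.s k25 k29 1 (.s
  k13 k37 5 (.d k9 k5 k57 1 3))))), (.s k42 k63 6 (.s k41 k61 5 (.s k60 k22 6 (.d k40 k43 k20 0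
  5)))), (.s k42 k63 6 (.s k33 k49 3 (.s k48 k18 4 (.s k16 k32 3 (.s k26 k31 2 (.s k10 k58 3 (.d k15
  k5 k37 2 6)))))))] .n) .n))) .n)))))))))))

def t5 : T TT 256 :=
  (.f k1 k2 0 (.q k17 [(.s k34 k51 4 (.s k33 k49 3 (.s k48 k18 4 (.d k32 k35 k16 0 3)))), (.s k51
  k34 4 (.s k33 k49 3 (.s k18 k48 4 (.d k19 k16 k35 0 3))))] (.c k16 (.q k21 [(.s k42 k63 6 (.s k41
  k61 5 (.s k60 k22 6 (.d k40 k43 k20 0 5)))), (.s k51 k34 4 (.s k42 k63 6 (.s k25 k29 1 (.s k8 k59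
  4 (.d k12 k4 k38 1 6))))), (.s k51 k34 4 (.s k41 k61 5 (.s k19 k35 3 (.s k25 k29 1 (.d k22 k28 k60
  2 6)))))] .n) (.c k18 (.q k21 [(.s k42 k63 6 (.s k41 k61 5 (.s k40 k43 0 (.d k60 k20 k22 5 6)))),
  (.s k42 k63 6 (.s k25 k29 1 (.s k8 k59 4 (.s k12 k4 1 (.d k51 k34 k38 4 6))))), (.s k41 k61 5 (.s
  k22 k60 6 (.s k25 k29 1 (.s k19 k28 2 (.d k51 k34 k35 4 3)))))] (.c k34 (.q k50 [(.s k42 k63 6 (.s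
  k41 k61 5 (.s k40 k43 0 (.d k60 k20 k22 5 6)))), (.s k42 k63 6 (.s k49 k33 3 (.s k25 k29 1 (.s k8
  k59 4 (.s k12 k4 1 (.d k51 k48 k38 0 6)))))), (.s k49 k33 3 (.s k41 k61 5 (.s k22 k60 6 (.s k25
  k29 1 (.s k19 k28 2 (.d k51 k35 k48 3 0))))))] (.c k63 (.l (.s k49 k33 3 (.s k41 k61 5 (.s k60 k22
  6 (.s k25 k29 1 (.s k57 k9 3 (.d k51 k48 k54 0 2))))))) .n)) (.c k50 (.l (.s k34 k51 4 (.s k42 k63
  6 (.s k41 k61 5 (.s k60 k22 6 (.d k40 k43 k20 0 5)))))) (.c k63 (.l (.s k41 k61 5 (.s k60 k22 6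
  (.s k25 k29 1 (.s k57 k9 3 (.d k51 k54 k34 2 4)))))) .n)))) (.c k33 (.q k21 [(.s k42 k63 6 (.s k41
  k61 5 (.s k60 k22 6 (.d k40 k43 k20 0 5)))), (.s k51 k34 4 (.s k41 k61 5 (.s k35 k19 3 (.s k25 k29
  1 (.d k38 k44 k12 2 6))))), (.s k51 k34 4 (.s k42 k63 6 (.s k25 k29 1 (.s k8 k59 4 (.d k12 k4 k38
  1 6)))))] .n) (.c k34 (.q k21 [(.s k42 k63 6 (.s k41 k61 5 (.s k60 k22 6 (.d k40 k43 k20 0 5)))),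
  (.s k41 k61 5 (.s k25 k29 1 (.s k9 k57 3 (.s k12 k6 2 (.s k4 k8 1 (.d k38 k55 k51 4 6)))))), (.s
  k63 k42 6 (.s k33 k49 3 (.s k18 k48 4 (.s k16 k19 0 (.s k26 k31 2 (.s k22 k30 1 (.d k23 k20 k43 0
  5)))))))] (.c k18 (.q k50 [(.s k42 k63 6 (.s k41 k61 5 (.s k40 k43 0 (.d k60 k20 k22 5 6)))), (.s
  k42 k63 6 (.s k49 k33 3 (.s k25 k29 1 (.s k8 k59 4 (.s k12 k4 1 (.d k51 k48 k38 0 6)))))), (.s k49
  k33 3 (.s k41 k61 5 (.s k22 k60 6 (.s k25 k29 1 (.s k19 k28 2 (.d k51 k35 k48 3 0))))))] (.c k63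
  (.l (.s k49 k33 3 (.s k41 k61 5 (.s k60 k22 6 (.s k25 k29 1 (.s k57 k9 3 (.d k51 k48 k54 0
  2))))))) .n)) (.c k50 (.q k18 [(.d k33 k49 k48 3 4), (.s k42 k63 6 (.s k41 k61 5 (.s k60 k22 6 (.d
  k40 k43 k20 0 5))))] .n) .n))) (.c k35 (.q k21 [(.s k42 k63 6 (.s k41 k61 5 (.s k60 k22 6 (.d k40
  k43 k20 0 5)))), (.s k51 k34 4 (.s k41 k61 5 (.s k25 k29 1 (.s k9 k57 3 (.d k12 k6 k38 2 6))))),
  (.s k51 k34 4 (.s k42 k63 6 (.s k25 k29 1 (.s k8 k59 4 (.d k12 k4 k38 1 6)))))] .n) (.c k48 (.q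
  k21 [(.s k42 k63 6 (.s k41 k61 5 (.s k60 k22 6 (.d k40 k43 k20 0 5)))), (.s k51 k34 4 (.s k41 k61
  5 (.s k19 k35 3 (.s k25 k29 1 (.d k22 k28 k60 2 6))))), (.s k51 k34 4 (.s k42 k63 6 (.s k25 k29 1
  (.s k8 k59 4 (.d k12 k4 k38 1 6)))))] (.c k117 (.q k186 [(.s k42 k63 6 (.s k41 k61 5 (.s k60 k22 6
  (.d k40 k43 k20 0 5)))), (.s k51 k34 4 (.s k41 k61 5 (.s k19 k35 3 (.s k25 k29 1 (.d k22 k28 k60 2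
  6))))), (.s k51 k34 4 (.s k42 k63 6 (.s k25 k29 1 (.s k8 k59 4 (.d k12 k4 k38 1 6)))))] .n) (.c
  k186 (.q k117 [(.s k42 k63 6 (.s k41 k61 5 (.s k60 k22 6 (.d k40 k43 k20 0 5)))), (.s k51 k34 4
  (.s k41 k61 5 (.s k19 k35 3 (.s k25 k29 1 (.d k22 k28 k60 2 6))))), (.s k51 k34 4 (.s k42 k63 6
  (.s k25 k29 1 (.s k8 k59 4 (.d k12 k4 k38 1 6)))))] .n) .n))) (.c k49 (.q k21 [(.s k63 k42 6 (.s
  k23 k43 5 (.s k22 k20 0 (.d k41 k61 k60 5 6)))), (.s k51 k34 4 (.s k42 k63 6 (.s k25 k29 1 (.s k8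
  k59 4 (.d k12 k4 k38 1 6))))), (.s k51 k34 4 (.s k41 k61 5 (.s k19 k35 3 (.s k25 k29 1 (.d k22 k28
  k60 2 6)))))] .n) (.c k50 (.l (.s k34 k51 4 (.s k33 k49 3 (.s k48 k18 4 (.d k32 k35 k16 0 3)))))
  (.c k51 (.q k21 [(.s k42 k63 6 (.s k41 k61 5 (.s k60 k22 6 (.d k40 k43 k20 0 5)))), (.s k33 k49 3
  (.s k41 k61 5 (.s k48 k18 4 (.s k16 k32 3 (.s k26 k31 2 (.d k37 k45 k15 1 6))))))] (.c k41 (.q k18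
  [(.d k33 k49 k48 3 4), (.s k63 k42 6 (.s k16 k19 0 (.s k26 k31 2 (.s k22 k30 1 (.d k23 k43 k20 5
  0)))))] (.c k119 (.q k187 [(.d k33 k49 k48 3 4), (.s k63 k42 6 (.s k16 k19 0 (.s k26 k31 2 (.s k22
  k30 1 (.d k23 k43 k20 5 0)))))] .n) (.c k187 (.q k119 [(.d k33 k49 k48 3 4), (.s k63 k42 6 (.s k16
  k19 0 (.s k26 k31 2 (.s k22 k30 1 (.d k23 k43 k20 5 0)))))] .n) .n))) (.c k61 (.l (.s k63 k42 6
  (.s k33 k49 3 (.s k23 k43 5 (.s k25 k29 1 (.s k22 k20 0 (.s k19 k28 2 (.d k18 k16 k48 0 4))))))))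
  (.c k119 (.q k187 [(.s k42 k63 6 (.s k41 k61 5 (.s k60 k22 6 (.d k40 k43 k20 0 5)))), (.s k33 k49
  3 (.s k41 k61 5 (.s k48 k18 4 (.s k16 k32 3 (.s k26 k31 2 (.d k37 k45 k15 1 6))))))] (.c k41 (.q
  k18 [(.d k33 k49 k48 3 4), (.s k63 k42 6 (.s k16 k19 0 (.s k26 k31 2 (.s k22 k30 1 (.d k23 k43 k20
  5 0)))))] .n) (.c k61 (.l (.s k63 k42 6 (.s k33 k49 3 (.s k23 k43 5 (.s k25 k29 1 (.s k22 k20 0
  (.s k19 k28 2 (.d k18 k16 k48 0 4)))))))) .n))) (.c k187 (.q k119 [(.s k42 k63 6 (.s k41 k61 5 (.s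
  k60 k22 6 (.d k40 k43 k20 0 5)))), (.s k33 k49 3 (.s k41 k61 5 (.s k48 k18 4 (.s k16 k32 3 (.s k26
  k31 2 (.d k37 k45 k15 1 6))))))] (.c k41 (.q k18 [(.d k33 k49 k48 3 4), (.s k63 k42 6 (.s k16 k19
  0 (.s k26 k31 2 (.s k22 k30 1 (.d k23 k43 k20 5 0)))))] .n) (.c k61 (.l (.s k63 k42 6 (.s k33 k49
  3 (.s k23 k43 5 (.s k25 k29 1 (.s k22 k20 0 (.s k19 k28 2 (.d k18 k16 k48 0 4)))))))) .n)))
  .n))))) .n)))))))))))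

def t6 : T TT 256 :=
  (.q k17 [(.s k2 k1 0 (.s k34 k51 4 (.s k18 k50 3 (.s k48 k33 4 (.d k16 k19 k32 0 3))))), (.s k1 k2
  0 (.s k51 k34 4 (.s k33 k49 3 (.s k18 k48 4 (.d k19 k16 k35 0 3)))))] (.c k1 (.q k21 [(.s k51 k34
  4 (.s k42 k63 6 (.s k25 k29 1 (.s k8 k59 4 (.d k12 k4 k38 1 6))))), (.s k63 k42 6 (.s k23 k43 5
  (.s k25 k29 1 (.s k22 k20 0 (.s k19 k28 2 (.s k16 k18 0 (.d k31 k27 k26 1 2))))))), (.s k51 k34 4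
  (.s k63 k42 6 (.s k19 k35 3 (.s k23 k43 5 (.s k16 k18 0 (.d k31 k27 k26 1 2)))))), (.s k51 k34 4
  (.s k19 k35 3 (.s k25 k29 1 (.s k22 k28 2 (.s k60 k41 6 (.d k20 k23 k40 0 5))))))] .n) (.c k2 (.q
  k21 [(.s k51 k34 4 (.s k42 k63 6 (.s k25 k29 1 (.s k8 k59 4 (.d k12 k4 k38 1 6))))), (.s k63 k42 6
  (.s k23 k43 5 (.s k25 k29 1 (.s k22 k20 0 (.s k19 k28 2 (.s k31 k27 1 (.d k16 k18 k26 0 2))))))),
  (.s k51 k34 4 (.s k19 k35 3 (.s k25 k29 1 (.s k22 k28 2 (.s k20 k23 0 (.d k60 k40 k41 5 6)))))),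
  (.s k51 k34 4 (.s k63 k42 6 (.s k19 k35 3 (.s k23 k43 5 (.s k31 k27 1 (.d k16 k18 k26 0 2))))))]
  (.c k10 (.q k14 [(.s k51 k34 4 (.s k42 k63 6 (.s k25 k29 1 (.s k8 k59 4 (.d k12 k4 k38 1 6))))),
  (.s k63 k42 6 (.s k23 k43 5 (.s k25 k29 1 (.s k22 k20 0 (.s k19 k28 2 (.s k31 k27 1 (.d k16 k26
  k18 2 0))))))), (.s k51 k34 4 (.s k19 k35 3 (.s k25 k29 1 (.s k22 k28 2 (.s k20 k23 0 (.d k60 k40
  k41 5 6)))))), (.s k51 k34 4 (.s k63 k42 6 (.s k19 k35 3 (.s k23 k43 5 (.s k31 k27 1 (.d k16 k18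
  k26 0 2))))))] (.c k18 (.l (.s k42 k63 6 (.s k25 k29 1 (.s k8 k59 4 (.s k12 k4 1 (.d k51 k34 k38 4
  6)))))) .n)) (.c k14 (.q k10 [(.s k15 k5 2 (.s k42 k63 6 (.s k26 k58 3 (.s k48 k37 6 (.d k16 k31
  k32 2 3))))), (.s k51 k34 4 (.s k63 k42 6 (.s k25 k29 1 (.s k38 k12 6 (.d k55 k59 k4 1 4))))), (.s
  k51 k34 4 (.s k42 k63 6 (.s k19 k35 3 (.s k26 k58 3 (.d k16 k18 k31 0 2))))), (.s k15 k5 2 (.s k51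
  k34 4 (.s k19 k35 3 (.s k27 k39 5 (.s k31 k23 1 (.d k16 k18 k26 0 2))))))] .n) (.c k18 (.l (.s k42
  k63 6 (.s k25 k29 1 (.s k8 k59 4 (.s k12 k4 1 (.d k51 k34 k38 4 6)))))) .n)))) (.c k16 (.q k21
  [(.s k51 k34 4 (.s k42 k63 6 (.s k25 k29 1 (.s k8 k59 4 (.d k12 k4 k38 1 6))))), (.s k1 k2 0 (.s
  k63 k42 6 (.s k41 k61 5 (.s k22 k60 6 (.d k23 k20 k43 0 5))))), (.s k1 k2 0 (.s k51 k34 4 (.s k41
  k61 5 (.s k19 k35 3 (.s k25 k29 1 (.d k22 k28 k60 2 6))))))] .n) (.c k18 (.q k21 [(.s k2 k1 0 (.s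
  k42 k63 6 (.s k22 k62 5 (.s k60 k41 6 (.d k20 k23 k40 0 5))))), (.s k42 k63 6 (.s k25 k29 1 (.s k8
  k59 4 (.s k12 k4 1 (.d k51 k34 k38 4 6))))), (.s k1 k2 0 (.s k49 k33 3 (.s k41 k61 5 (.s k25 k29 1
  (.s k9 k57 3 (.d k13 k5 k37 1 5))))))] .n) (.c k19 (.l (.s k1 k2 0 (.s k34 k51 4 (.s k33 k49 3 (.s
  k48 k18 4 (.d k32 k35 k16 0 3)))))) (.c k33 (.q k21 [(.s k51 k34 4 (.s k42 k63 6 (.s k25 k29 1 (.s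
  k8 k59 4 (.d k12 k4 k38 1 6))))), (.s k1 k2 0 (.s k63 k42 6 (.s k41 k61 5 (.s k22 k60 6 (.d k23
  k20 k43 0 5))))), (.s k1 k2 0 (.s k51 k34 4 (.s k41 k61 5 (.s k35 k19 3 (.s k25 k29 1 (.d k38 k44
  k12 2 6))))))] .n) (.c k34 (.q k21 [(.s k2 k1 0 (.s k42 k63 6 (.s k22 k62 5 (.s k60 k41 6 (.d k20
  k23 k40 0 5))))), (.s k1 k2 0 (.s k49 k33 3 (.s k41 k61 5 (.s k25 k29 1 (.s k9 k57 3 (.d k13 k5
  k37 1 5)))))), (.s k63 k42 6 (.s k23 k43 5 (.s k25 k29 1 (.s k22 k20 0 (.s k19 k28 2 (.s k31 k27 1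
  (.d k16 k18 k26 0 2)))))))] (.c k41 (.q k15 [(.s k1 k2 0 (.s k49 k33 3 (.s k25 k29 1 (.s k37 k13 5
  (.d k5 k10 k53 2 3))))), (.s k63 k42 6 (.s k11 k7 1 (.s k43 k23 5 (.s k27 k59 3 (.s k39 k51 5 (.d
  k47 k35 k31 1 3)))))), (.s k63 k42 6 (.s k31 k47 3 (.s k16 k26 2 (.s k18 k19 0 (.d k48 k32 k33 3
  4)))))] .n) .n)) (.c k48 (.q k21 [(.s k51 k34 4 (.s k42 k63 6 (.s k25 k29 1 (.s k8 k59 4 (.d k12
  k4 k38 1 6))))), (.s k1 k2 0 (.s k63 k42 6 (.s k41 k61 5 (.s k22 k60 6 (.d k23 k20 k43 0 5))))),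
  (.s k1 k2 0 (.s k51 k34 4 (.s k41 k61 5 (.s k19 k35 3 (.s k25 k29 1 (.d k22 k28 k60 2 6))))))] (.c
  k117 (.q k186 [(.s k51 k34 4 (.s k42 k63 6 (.s k25 k29 1 (.s k8 k59 4 (.d k12 k4 k38 1 6))))), (.s
  k1 k2 0 (.s k63 k42 6 (.s k41 k61 5 (.s k22 k60 6 (.d k23 k20 k43 0 5))))), (.s k1 k2 0 (.s k51
  k34 4 (.s k41 k61 5 (.s k19 k35 3 (.s k25 k29 1 (.d k22 k28 k60 2 6))))))] .n) (.c k186 (.q k117
  [(.s k51 k34 4 (.s k42 k63 6 (.s k25 k29 1 (.s k8 k59 4 (.d k12 k4 k38 1 6))))), (.s k1 k2 0 (.s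
  k63 k42 6 (.s k41 k61 5 (.s k22 k60 6 (.d k23 k20 k43 0 5))))), (.s k1 k2 0 (.s k51 k34 4 (.s k41
  k61 5 (.s k19 k35 3 (.s k25 k29 1 (.d k22 k28 k60 2 6))))))] .n) .n))) (.c k49 (.l (.s k2 k1 0 (.s
  k34 k51 4 (.s k18 k50 3 (.s k48 k33 4 (.d k16 k19 k32 0 3)))))) (.c k50 (.l (.s k1 k2 0 (.s k34
  k51 4 (.s k33 k49 3 (.s k48 k18 4 (.d k32 k35 k16 0 3)))))) (.c k51 (.q k21 [(.s k2 k1 0 (.s k42
  k63 6 (.s k22 k62 5 (.s k60 k41 6 (.d k20 k23 k40 0 5))))), (.s k1 k2 0 (.s k49 k33 3 (.s k41 k61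
  5 (.s k25 k29 1 (.s k13 k37 5 (.d k9 k5 k57 1 3)))))), (.s k63 k42 6 (.s k23 k43 5 (.s k25 k29 1
  (.s k22 k20 0 (.s k19 k28 2 (.s k16 k18 0 (.d k31 k27 k26 1 2)))))))] (.c k41 (.q k10 [(.s k1 k2 0
  (.s k49 k33 3 (.s k25 k29 1 (.s k37 k13 5 (.d k5 k15 k53 2 3))))), (.s k42 k63 6 (.s k26 k58 3 (.s
  k16 k31 2 (.s k48 k32 3 (.d k18 k19 k33 0 4))))), (.s k1 k2 0 (.s k42 k63 6 (.s k33 k49 3 (.s k48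
  k18 4 (.s k16 k32 3 (.d k26 k31 k58 2 3))))))] (.c k33 (.l (.s k1 k2 0 (.s k5 k15 2 (.s k13 k9 1
  (.s k37 k53 3 (.d k25 k29 k49 1 5)))))) (.c k119 (.q k187 [(.s k1 k2 0 (.s k49 k33 3 (.s k25 k29 1
  (.s k37 k13 5 (.d k5 k15 k53 2 3))))), (.s k42 k63 6 (.s k26 k58 3 (.s k16 k31 2 (.s k48 k32 3 (.d
  k18 k19 k33 0 4))))), (.s k1 k2 0 (.s k42 k63 6 (.s k33 k49 3 (.s k48 k18 4 (.s k16 k32 3 (.d k26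
  k31 k58 2 3))))))] (.c k33 (.l (.s k1 k2 0 (.s k5 k15 2 (.s k13 k9 1 (.s k37 k53 3 (.d k25 k29 k49
  1 5)))))) .n)) (.c k187 (.q k119 [(.s k1 k2 0 (.s k49 k33 3 (.s k25 k29 1 (.s k37 k13 5 (.d k5 k15
  k53 2 3))))), (.s k42 k63 6 (.s k26 k58 3 (.s k16 k31 2 (.s k48 k32 3 (.d k18 k19 k33 0 4))))),
  (.s k1 k2 0 (.s k42 k63 6 (.s k33 k49 3 (.s k48 k18 4 (.s k16 k32 3 (.d k26 k31 k58 2 3))))))] (.c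
  k33 (.l (.s k1 k2 0 (.s k5 k15 2 (.s k13 k9 1 (.s k37 k53 3 (.d k25 k29 k49 1 5)))))) .n)) .n))))
  (.c k119 (.q k187 [(.s k2 k1 0 (.s k42 k63 6 (.s k22 k62 5 (.s k60 k41 6 (.d k20 k23 k40 0 5))))),
  (.s k1 k2 0 (.s k49 k33 3 (.s k41 k61 5 (.s k25 k29 1 (.s k13 k37 5 (.d k9 k5 k57 1 3)))))), (.s
  k63 k42 6 (.s k23 k43 5 (.s k25 k29 1 (.s k22 k20 0 (.s k19 k28 2 (.s k16 k18 0 (.d k31 k27 k26 1
  2)))))))] (.c k41 (.q k10 [(.s k1 k2 0 (.s k49 k33 3 (.s k25 k29 1 (.s k37 k13 5 (.d k5 k15 k53 2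
  3))))), (.s k42 k63 6 (.s k26 k58 3 (.s k16 k31 2 (.s k48 k32 3 (.d k18 k19 k33 0 4))))), (.s k1
  k2 0 (.s k42 k63 6 (.s k33 k49 3 (.s k48 k18 4 (.s k16 k32 3 (.d k26 k31 k58 2 3))))))] (.c k33
  (.l (.s k1 k2 0 (.s k5 k15 2 (.s k13 k9 1 (.s k37 k53 3 (.d k25 k29 k49 1 5)))))) .n)) .n)) (.c
  k187 (.q k119 [(.s k2 k1 0 (.s k42 k63 6 (.s k22 k62 5 (.s k60 k41 6 (.d k20 k23 k40 0 5))))), (.s
  k1 k2 0 (.s k49 k33 3 (.s k41 k61 5 (.s k25 k29 1 (.s k13 k37 5 (.d k9 k5 k57 1 3)))))), (.s k63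
  k42 6 (.s k23 k43 5 (.s k25 k29 1 (.s k22 k20 0 (.s k19 k28 2 (.s k16 k18 0 (.d k31 k27 k26 1
  2)))))))] (.c k41 (.q k10 [(.s k1 k2 0 (.s k49 k33 3 (.s k25 k29 1 (.s k37 k13 5 (.d k5 k15 k53 2
  3))))), (.s k42 k63 6 (.s k26 k58 3 (.s k16 k31 2 (.s k48 k32 3 (.d k18 k19 k33 0 4))))), (.s k1
  k2 0 (.s k42 k63 6 (.s k33 k49 3 (.s k48 k18 4 (.s k16 k32 3 (.d k26 k31 k58 2 3))))))] (.c k33
  (.l (.s k1 k2 0 (.s k5 k15 2 (.s k13 k9 1 (.s k37 k53 3 (.d k25 k29 k49 1 5)))))) .n)) .n)) .n))))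
  .n))))))))))))

def t7 : T TT 256 :=
  (.q k21 [(.s k1 k2 0 (.s k42 k63 6 (.s k41 k61 5 (.s k40 k43 0 (.d k60 k20 k22 5 6))))), (.s k1 k2
  0 (.s k63 k42 6 (.s k41 k61 5 (.s k22 k60 6 (.d k23 k20 k43 0 5)))))] (.c k1 (.q k12 [(.s k4 k8 1
  (.s k63 k42 6 (.s k29 k46 4 (.s k25 k17 1 (.d k38 k55 k51 4 6))))), (.s k4 k8 1 (.s k6 k9 2 (.s
  k38 k55 4 (.s k22 k54 3 (.s k60 k41 6 (.d k20 k23 k40 0 5)))))), (.s k63 k42 6 (.s k6 k9 2 (.s k23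
  k43 5 (.s k29 k46 4 (.s k25 k17 1 (.s k38 k51 6 (.d k22 k20 k54 0 3)))))))] (.c k25 (.l (.s k4 k8
  1 (.s k6 k9 2 (.s k38 k55 4 (.s k22 k54 3 (.s k23 k20 0 (.d k63 k42 k43 6 5))))))) (.c k38 (.l (.s
  k63 k42 6 (.s k9 k6 2 (.s k23 k43 5 (.s k22 k20 0 (.s k41 k60 6 (.s k25 k57 3 (.d k29 k46 k17 4
  1)))))))) .n))) (.c k2 (.q k12 [(.s k4 k8 1 (.s k63 k42 6 (.s k29 k46 4 (.s k25 k17 1 (.d k38 k55
  k51 4 6))))), (.s k4 k8 1 (.s k6 k9 2 (.s k38 k55 4 (.s k22 k54 3 (.s k60 k41 6 (.d k20 k23 k40 0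
  5)))))), (.s k63 k42 6 (.s k6 k9 2 (.s k23 k43 5 (.s k29 k46 4 (.s k25 k17 1 (.s k38 k51 6 (.d k22
  k20 k54 0 3)))))))] (.c k22 (.l (.s k4 k8 1 (.s k42 k63 6 (.s k38 k55 4 (.s k51 k25 6 (.d k34 k46
  k17 1 4)))))) (.c k25 (.l (.s k4 k8 1 (.s k6 k9 2 (.s k38 k55 4 (.s k22 k54 3 (.s k23 k20 0 (.d
  k63 k42 k43 6 5))))))) (.c k38 (.l (.s k63 k42 6 (.s k9 k6 2 (.s k23 k43 5 (.s k22 k20 0 (.s k41
  k60 6 (.s k25 k57 3 (.d k29 k46 k17 4 1)))))))) .n)))) (.c k20 (.q k12 [(.s k1 k2 0 (.s k8 k4 1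
  (.s k9 k6 2 (.s k5 k13 1 (.d k10 k11 k15 0 2))))), (.s k4 k8 1 (.s k42 k63 6 (.s k38 k55 4 (.s k51
  k25 6 (.d k34 k46 k17 1 4))))), (.s k1 k2 0 (.s k63 k42 6 (.s k41 k61 5 (.s k29 k46 4 (.s k25 k17
  1 (.d k9 k6 k57 2 3))))))] .n) (.c k22 (.q k37 [(.s k42 k63 6 (.s k5 k53 3 (.s k15 k10 2 (.s k32
  k47 2 (.d k48 k16 k26 3 6))))), (.s k1 k2 0 (.s k41 k61 5 (.s k5 k53 3 (.s k13 k9 1 (.s k49 k25 5
  (.d k33 k45 k17 1 3)))))), (.s k1 k2 0 (.s k42 k63 6 (.s k41 k61 5 (.s k32 k47 2 (.s k48 k16 3 (.d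
  k33 k45 k18 1 4))))))] (.c k42 (.q k12 [(.s k9 k6 2 (.s k5 k53 3 (.d k1 k2 k13 0 1))), (.s k4 k8 1
  (.s k9 k6 2 (.s k38 k55 4 (.s k25 k51 6 (.s k41 k57 3 (.d k1 k2 k61 0 5)))))), (.s k4 k8 1 (.s k38
  k55 4 (.s k5 k53 3 (.s k25 k51 6 (.s k13 k49 5 (.d k15 k14 k10 0 2)))))), (.s k2 k1 0 (.s k6 k9 2
  (.s k5 k53 3 (.d k10 k14 k15 1 2))))] (.c k2 (.q k62 [(.s k8 k4 1 (.s k5 k53 3 (.s k10 k15 2 (.d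
  k9 k6 k11 2 0)))), (.s k4 k8 1 (.s k38 k55 4 (.s k25 k51 6 (.s k13 k49 5 (.s k14 k15 0 (.s k46 k30
  3 (.d k29 k63 k17 4 1))))))), (.s k9 k6 2 (.s k5 k53 3 (.s k13 k1 1 (.d k15 k14 k10 0 2))))] (.c
  k4 (.l (.s k9 k6 2 (.s k5 k53 3 (.s k13 k1 1 (.d k15 k14 k10 0 2))))) (.c k15 (.l (.s k4 k8 1 (.s
  k9 k6 2 (.s k38 k55 4 (.s k5 k53 3 (.s k13 k1 1 (.d k25 k49 k51 5 6))))))) .n))) (.c k62 (.l (.s
  k2 k1 0 (.s k6 k9 2 (.s k10 k14 1 (.d k5 k15 k53 2 3))))) .n))) .n)) (.c k41 (.q k12 [(.s k1 k2 0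
  (.s k8 k4 1 (.s k9 k6 2 (.s k5 k13 1 (.d k10 k11 k15 0 2))))), (.s k4 k8 1 (.s k42 k63 6 (.s k38
  k55 4 (.s k34 k46 1 (.d k51 k17 k25 4 6))))), (.s k2 k1 0 (.s k42 k63 6 (.s k22 k62 5 (.s k6 k9 2
  (.s k38 k54 3 (.s k34 k46 1 (.d k51 k25 k17 6 4)))))))] .n) (.c k42 (.q k12 [(.s k1 k2 0 (.s k8 k4
  1 (.s k9 k6 2 (.s k5 k13 1 (.d k10 k11 k15 0 2))))), (.s k1 k2 0 (.s k4 k8 1 (.s k41 k61 5 (.s k38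
  k55 4 (.s k35 k44 2 (.d k51 k25 k19 6 3)))))), (.s k4 k8 1 (.s k6 k9 2 (.s k38 k55 4 (.s k22 k54 3
  (.s k60 k41 6 (.d k20 k23 k40 0 5))))))] (.c k4 (.l (.s k1 k2 0 (.s k41 k61 5 (.s k6 k9 2 (.s k22
  k60 6 (.s k38 k54 3 (.s k51 k25 6 (.d k35 k44 k19 2 3)))))))) (.c k8 (.l (.s k1 k2 0 (.s k41 k61 5
  (.s k9 k6 2 (.s k25 k57 3 (.s k51 k38 6 (.d k17 k34 k29 4 1))))))) (.c k22 (.l (.s k4 k8 1 (.s k9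
  k6 2 (.s k38 k55 4 (.s k25 k51 6 (.s k41 k57 3 (.d k1 k2 k61 0 5))))))) .n)))) (.c k43 (.l (.s k2
  k1 0 (.s k42 k63 6 (.s k22 k62 5 (.s k60 k41 6 (.d k20 k23 k40 0 5)))))) (.c k60 (.q k12 [(.s k1
  k2 0 (.s k8 k4 1 (.s k9 k6 2 (.s k5 k13 1 (.d k10 k11 k15 0 2))))), (.s k4 k8 1 (.s k42 k63 6 (.s
  k38 k55 4 (.s k51 k25 6 (.d k34 k46 k17 1 4))))), (.s k1 k2 0 (.s k63 k42 6 (.s k41 k61 5 (.s k29
  k46 4 (.s k25 k17 1 (.d k9 k6 k57 2 3))))))] (.c k125 (.q k190 [(.s k1 k2 0 (.s k8 k4 1 (.s k9 k6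
  2 (.s k5 k13 1 (.d k10 k11 k15 0 2))))), (.s k4 k8 1 (.s k42 k63 6 (.s k38 k55 4 (.s k51 k25 6 (.d
  k34 k46 k17 1 4))))), (.s k1 k2 0 (.s k63 k42 6 (.s k41 k61 5 (.s k29 k46 4 (.s k25 k17 1 (.d k9
  k6 k57 2 3))))))] .n) (.c k190 (.q k125 [(.s k1 k2 0 (.s k8 k4 1 (.s k9 k6 2 (.s k5 k13 1 (.d k10
  k11 k15 0 2))))), (.s k4 k8 1 (.s k42 k63 6 (.s k38 k55 4 (.s k51 k25 6 (.d k34 k46 k17 1 4))))),
  (.s k1 k2 0 (.s k63 k42 6 (.s k41 k61 5 (.s k29 k46 4 (.s k25 k17 1 (.d k9 k6 k57 2 3))))))] .n)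
  .n))) (.c k61 (.l (.s k2 k1 0 (.s k42 k63 6 (.s k22 k62 5 (.s k60 k41 6 (.d k20 k23 k40 0 5))))))
  (.c k62 (.l (.s k1 k2 0 (.s k42 k63 6 (.s k41 k61 5 (.s k60 k22 6 (.d k40 k43 k20 0 5)))))) (.c
  k63 (.q k12 [(.s k1 k2 0 (.s k8 k4 1 (.s k9 k6 2 (.s k5 k13 1 (.d k10 k11 k15 0 2))))), (.s k1 k2
  0 (.s k4 k8 1 (.s k41 k61 5 (.s k60 k22 6 (.s k38 k55 4 (.d k44 k35 k28 2 3)))))), (.s k4 k8 1 (.s
  k6 k9 2 (.s k38 k55 4 (.s k22 k54 3 (.s k60 k41 6 (.d k20 k23 k40 0 5))))))] (.c k4 (.l (.s k1 k2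
  0 (.s k41 k61 5 (.s k9 k6 2 (.s k5 k13 1 (.s k25 k57 3 (.s k51 k38 6 (.d k17 k29 k34 1 4))))))))
  (.c k8 (.l (.s k1 k2 0 (.s k41 k61 5 (.s k9 k6 2 (.s k25 k57 3 (.s k51 k38 6 (.d k17 k29 k34 1
  4))))))) (.c k127 (.q k191 [(.s k1 k2 0 (.s k8 k4 1 (.s k9 k6 2 (.s k5 k13 1 (.d k10 k11 k15 0
  2))))), (.s k1 k2 0 (.s k4 k8 1 (.s k41 k61 5 (.s k60 k22 6 (.s k38 k55 4 (.d k44 k35 k28 2
  3)))))), (.s k4 k8 1 (.s k6 k9 2 (.s k38 k55 4 (.s k22 k54 3 (.s k60 k41 6 (.d k20 k23 k40 0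
  5))))))] (.c k4 (.l (.s k1 k2 0 (.s k41 k61 5 (.s k9 k6 2 (.s k5 k13 1 (.s k25 k57 3 (.s k51 k38 6
  (.d k17 k29 k34 1 4)))))))) (.c k8 (.l (.s k1 k2 0 (.s k41 k61 5 (.s k9 k6 2 (.s k25 k57 3 (.s k51
  k38 6 (.d k17 k29 k34 1 4))))))) .n))) (.c k191 (.q k127 [(.s k1 k2 0 (.s k8 k4 1 (.s k9 k6 2 (.s
  k5 k13 1 (.d k10 k11 k15 0 2))))), (.s k1 k2 0 (.s k4 k8 1 (.s k41 k61 5 (.s k60 k22 6 (.s k38 k55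
  4 (.d k44 k35 k28 2 3)))))), (.s k4 k8 1 (.s k6 k9 2 (.s k38 k55 4 (.s k22 k54 3 (.s k60 k41 6 (.d
  k20 k23 k40 0 5))))))] (.c k4 (.l (.s k1 k2 0 (.s k41 k61 5 (.s k9 k6 2 (.s k5 k13 1 (.s k25 k57 3
  (.s k51 k38 6 (.d k17 k29 k34 1 4)))))))) (.c k8 (.l (.s k1 k2 0 (.s k41 k61 5 (.s k9 k6 2 (.s k25
  k57 3 (.s k51 k38 6 (.d k17 k29 k34 1 4))))))) .n))) .n))))) .n))))))))))))

def t12 : T TT 256 :=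
  (.q k48 [(.s k1 k2 0 (.s k32 k16 3 (.s k33 k18 4 (.s k17 k49 3 (.d k34 k35 k51 0 4)))))] (.c k1
  (.f k16 k32 3 (.q k21 [(.s k42 k63 6 (.s k26 k31 2 (.s k10 k58 3 (.d k15 k5 k37 2 6)))), (.s k18
  k33 4 (.s k26 k31 2 (.s k22 k30 1 (.s k20 k23 0 (.d k60 k40 k41 5 6))))), (.s k63 k42 6 (.s k33
  k18 4 (.s k23 k43 5 (.s k22 k20 0 (.s k41 k60 6 (.s k37 k45 1 (.d k53 k58 k5 2 3)))))))] (.c k93
  (.q k174 [(.s k42 k63 6 (.s k26 k31 2 (.s k10 k58 3 (.d k15 k5 k37 2 6)))), (.s k18 k33 4 (.s k26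
  k31 2 (.s k22 k30 1 (.s k20 k23 0 (.d k60 k40 k41 5 6))))), (.s k63 k42 6 (.s k33 k18 4 (.s k23
  k43 5 (.s k22 k20 0 (.s k41 k60 6 (.s k37 k45 1 (.d k53 k58 k5 2 3)))))))] .n) (.c k174 (.q k93
  [(.s k42 k63 6 (.s k26 k31 2 (.s k10 k58 3 (.d k15 k5 k37 2 6)))), (.s k18 k33 4 (.s k26 k31 2 (.s
  k22 k30 1 (.s k20 k23 0 (.d k60 k40 k41 5 6))))), (.s k63 k42 6 (.s k33 k18 4 (.s k23 k43 5 (.s
  k22 k20 0 (.s k41 k60 6 (.s k37 k45 1 (.d k53 k58 k5 2 3)))))))] .n) .n)))) (.c k2 (.f k16 k32 3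
  (.q k21 [(.s k42 k63 6 (.s k26 k31 2 (.s k10 k58 3 (.d k15 k5 k37 2 6)))), (.s k18 k33 4 (.s k19
  k17 0 (.s k31 k26 2 (.s k23 k27 1 (.d k63 k43 k42 5 6))))), (.s k63 k42 6 (.s k33 k18 4 (.s k23
  k43 5 (.s k22 k20 0 (.s k41 k60 6 (.s k37 k45 1 (.d k53 k58 k5 2 3))))))), (.s k18 k33 4 (.s k26
  k31 2 (.s k22 k30 1 (.s k60 k41 6 (.d k20 k23 k40 0 5)))))] (.c k93 (.q k174 [(.s k42 k63 6 (.s
  k26 k31 2 (.s k10 k58 3 (.d k15 k5 k37 2 6)))), (.s k18 k33 4 (.s k19 k17 0 (.s k31 k26 2 (.s k23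
  k27 1 (.d k63 k43 k42 5 6))))), (.s k63 k42 6 (.s k33 k18 4 (.s k23 k43 5 (.s k22 k20 0 (.s k41
  k60 6 (.s k37 k45 1 (.d k53 k58 k5 2 3))))))), (.s k18 k33 4 (.s k26 k31 2 (.s k22 k30 1 (.s k60
  k41 6 (.d k20 k23 k40 0 5)))))] .n) (.c k174 (.q k93 [(.s k42 k63 6 (.s k26 k31 2 (.s k10 k58 3
  (.d k15 k5 k37 2 6)))), (.s k18 k33 4 (.s k19 k17 0 (.s k31 k26 2 (.s k23 k27 1 (.d k63 k43 k42 5
  6))))), (.s k63 k42 6 (.s k33 k18 4 (.s k23 k43 5 (.s k22 k20 0 (.s k41 k60 6 (.s k37 k45 1 (.d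
  k53 k58 k5 2 3))))))), (.s k18 k33 4 (.s k26 k31 2 (.s k22 k30 1 (.s k60 k41 6 (.d k20 k23 k40 0
  5)))))] .n) .n)))) (.c k16 (.f k1 k2 0 (.q k21 [(.s k42 k63 6 (.s k41 k61 5 (.s k60 k22 6 (.d k40
  k43 k20 0 5)))), (.s k41 k61 5 (.s k33 k18 4 (.s k37 k45 1 (.s k5 k53 3 (.d k15 k10 k26 2 6))))),
  (.s k63 k42 6 (.s k18 k33 4 (.s k53 k58 2 (.s k37 k5 3 (.s k26 k15 6 (.s k22 k30 1 (.d k23 k20 k43
  0 5)))))))] (.c k93 (.q k174 [(.s k42 k63 6 (.s k41 k61 5 (.s k60 k22 6 (.d k40 k43 k20 0 5)))),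
  (.s k41 k61 5 (.s k33 k18 4 (.s k37 k45 1 (.s k5 k53 3 (.d k15 k10 k26 2 6))))), (.s k63 k42 6 (.s
  k18 k33 4 (.s k53 k58 2 (.s k37 k5 3 (.s k26 k15 6 (.s k22 k30 1 (.d k23 k20 k43 0 5)))))))] .n)
  (.c k174 (.q k93 [(.s k42 k63 6 (.s k41 k61 5 (.s k60 k22 6 (.d k40 k43 k20 0 5)))), (.s k41 k61 5
  (.s k33 k18 4 (.s k37 k45 1 (.s k5 k53 3 (.d k15 k10 k26 2 6))))), (.s k63 k42 6 (.s k18 k33 4 (.s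
  k53 k58 2 (.s k37 k5 3 (.s k26 k15 6 (.s k22 k30 1 (.d k23 k20 k43 0 5)))))))] .n) .n)))) (.c k17
  (.f k1 k2 0 (.f k18 k33 4 (.q k21 [(.s k16 k32 3 (.s k41 k61 5 (.s k26 k31 2 (.d k22 k30 k60 1
  6)))), (.s k42 k63 6 (.s k41 k61 5 (.s k60 k22 6 (.d k40 k43 k20 0 5)))), (.s k16 k32 3 (.s k42
  k63 6 (.s k26 k31 2 (.s k10 k58 3 (.d k15 k5 k37 2 6)))))] (.c k93 (.q k174 [(.s k16 k32 3 (.s k41
  k61 5 (.s k26 k31 2 (.d k22 k30 k60 1 6)))), (.s k42 k63 6 (.s k41 k61 5 (.s k60 k22 6 (.d k40 k43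
  k20 0 5)))), (.s k16 k32 3 (.s k42 k63 6 (.s k26 k31 2 (.s k10 k58 3 (.d k15 k5 k37 2 6)))))] .n)
  (.c k174 (.q k93 [(.s k16 k32 3 (.s k41 k61 5 (.s k26 k31 2 (.d k22 k30 k60 1 6)))), (.s k42 k63 6
  (.s k41 k61 5 (.s k60 k22 6 (.d k40 k43 k20 0 5)))), (.s k16 k32 3 (.s k42 k63 6 (.s k26 k31 2 (.s
  k10 k58 3 (.d k15 k5 k37 2 6)))))] .n) .n))))) (.c k18 (.f k16 k32 3 (.q k21 [(.s k1 k2 0 (.s k41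
  k61 5 (.s k26 k31 2 (.s k11 k56 4 (.d k15 k7 k37 1 6))))), (.s k42 k63 6 (.s k26 k31 2 (.s k10 k58
  3 (.d k15 k5 k37 2 6)))), (.s k1 k2 0 (.s k42 k63 6 (.s k41 k61 5 (.s k40 k43 0 (.d k60 k20 k22 5
  6)))))] (.c k93 (.q k174 [(.s k1 k2 0 (.s k41 k61 5 (.s k26 k31 2 (.s k11 k56 4 (.d k15 k7 k37 1
  6))))), (.s k42 k63 6 (.s k26 k31 2 (.s k10 k58 3 (.d k15 k5 k37 2 6)))), (.s k1 k2 0 (.s k42 k63
  6 (.s k41 k61 5 (.s k40 k43 0 (.d k60 k20 k22 5 6)))))] .n) (.c k174 (.q k93 [(.s k1 k2 0 (.s k41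
  k61 5 (.s k26 k31 2 (.s k11 k56 4 (.d k15 k7 k37 1 6))))), (.s k42 k63 6 (.s k26 k31 2 (.s k10 k58
  3 (.d k15 k5 k37 2 6)))), (.s k1 k2 0 (.s k42 k63 6 (.s k41 k61 5 (.s k40 k43 0 (.d k60 k20 k22 5
  6)))))] .n) .n)))) (.c k19 (.l (.s k1 k2 0 (.s k32 k16 3 (.s k33 k18 4 (.s k17 k49 3 (.d k34 k35
  k51 0 4)))))) (.c k32 (.f k1 k2 0 (.q k21 [(.s k42 k63 6 (.s k41 k61 5 (.s k60 k22 6 (.d k40 k43
  k20 0 5)))), (.s k41 k61 5 (.s k33 k18 4 (.s k37 k45 1 (.s k5 k53 3 (.d k15 k10 k26 2 6))))), (.s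
  k63 k42 6 (.s k18 k33 4 (.s k53 k58 2 (.s k37 k5 3 (.s k26 k15 6 (.s k22 k30 1 (.d k23 k20 k43 0
  5)))))))] (.c k93 (.q k174 [(.s k42 k63 6 (.s k41 k61 5 (.s k60 k22 6 (.d k40 k43 k20 0 5)))), (.s
  k41 k61 5 (.s k33 k18 4 (.s k37 k45 1 (.s k5 k53 3 (.d k15 k10 k26 2 6))))), (.s k63 k42 6 (.s k18
  k33 4 (.s k53 k58 2 (.s k37 k5 3 (.s k26 k15 6 (.s k22 k30 1 (.d k23 k20 k43 0 5)))))))] .n) (.c
  k174 (.q k93 [(.s k42 k63 6 (.s k41 k61 5 (.s k60 k22 6 (.d k40 k43 k20 0 5)))), (.s k41 k61 5 (.s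
  k33 k18 4 (.s k37 k45 1 (.s k5 k53 3 (.d k15 k10 k26 2 6))))), (.s k63 k42 6 (.s k18 k33 4 (.s k53
  k58 2 (.s k37 k5 3 (.s k26 k15 6 (.s k22 k30 1 (.d k23 k20 k43 0 5)))))))] .n) .n)))) (.c k33 (.f
  k1 k2 0 (.q k21 [(.s k16 k32 3 (.s k41 k61 5 (.s k26 k31 2 (.s k11 k56 4 (.d k15 k7 k37 1 6))))),
  (.s k42 k63 6 (.s k41 k61 5 (.s k60 k22 6 (.d k40 k43 k20 0 5)))), (.s k16 k32 3 (.s k42 k63 6 (.s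
  k26 k31 2 (.s k10 k58 3 (.d k15 k5 k37 2 6)))))] (.c k93 (.q k174 [(.s k16 k32 3 (.s k41 k61 5 (.s
  k26 k31 2 (.s k11 k56 4 (.d k15 k7 k37 1 6))))), (.s k42 k63 6 (.s k41 k61 5 (.s k60 k22 6 (.d k40
  k43 k20 0 5)))), (.s k16 k32 3 (.s k42 k63 6 (.s k26 k31 2 (.s k10 k58 3 (.d k15 k5 k37 2 6)))))]
  .n) (.c k174 (.q k93 [(.s k16 k32 3 (.s k41 k61 5 (.s k26 k31 2 (.s k11 k56 4 (.d k15 k7 k37 1
  6))))), (.s k42 k63 6 (.s k41 k61 5 (.s k60 k22 6 (.d k40 k43 k20 0 5)))), (.s k16 k32 3 (.s k42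
  k63 6 (.s k26 k31 2 (.s k10 k58 3 (.d k15 k5 k37 2 6)))))] .n) .n)))) (.c k34 (.q k21 [(.s k2 k1 0
  (.s k42 k63 6 (.s k22 k62 5 (.s k60 k41 6 (.d k20 k23 k40 0 5))))), (.s k16 k32 3 (.s k42 k63 6
  (.s k26 k31 2 (.s k10 k58 3 (.d k15 k5 k37 2 6))))), (.s k1 k2 0 (.s k16 k32 3 (.s k41 k61 5 (.s
  k22 k60 6 (.s k26 k31 2 (.d k18 k33 k30 4 1))))))] (.c k63 (.l (.s k1 k2 0 (.s k16 k32 3 (.s k41
  k61 5 (.s k60 k22 6 (.s k26 k31 2 (.d k56 k52 k11 1 4))))))) (.c k93 (.q k174 [(.s k2 k1 0 (.s k42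
  k63 6 (.s k22 k62 5 (.s k60 k41 6 (.d k20 k23 k40 0 5))))), (.s k16 k32 3 (.s k42 k63 6 (.s k26
  k31 2 (.s k10 k58 3 (.d k15 k5 k37 2 6))))), (.s k1 k2 0 (.s k16 k32 3 (.s k41 k61 5 (.s k22 k60 6
  (.s k26 k31 2 (.d k18 k33 k30 4 1))))))] (.c k63 (.l (.s k1 k2 0 (.s k16 k32 3 (.s k41 k61 5 (.s
  k60 k22 6 (.s k26 k31 2 (.d k56 k52 k11 1 4))))))) .n)) (.c k174 (.q k93 [(.s k2 k1 0 (.s k42 k63
  6 (.s k22 k62 5 (.s k60 k41 6 (.d k20 k23 k40 0 5))))), (.s k16 k32 3 (.s k42 k63 6 (.s k26 k31 2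
  (.s k10 k58 3 (.d k15 k5 k37 2 6))))), (.s k1 k2 0 (.s k16 k32 3 (.s k41 k61 5 (.s k22 k60 6 (.s
  k26 k31 2 (.d k18 k33 k30 4 1))))))] (.c k63 (.l (.s k1 k2 0 (.s k16 k32 3 (.s k41 k61 5 (.s k60
  k22 6 (.s k26 k31 2 (.d k56 k52 k11 1 4))))))) .n)) .n)))) (.c k35 (.l (.s k2 k1 0 (.s k16 k32 3
  (.s k18 k33 4 (.s k34 k50 3 (.d k17 k19 k51 0 4)))))) (.c k49 (.l (.s k2 k1 0 (.s k16 k32 3 (.s
  k18 k33 4 (.s k17 k19 0 (.d k34 k50 k51 3 4)))))) (.c k50 (.l (.s k1 k2 0 (.s k32 k16 3 (.s k33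
  k18 4 (.s k34 k35 0 (.d k17 k49 k51 3 4)))))) (.c k51 (.f k1 k2 0 (.f k16 k32 3 (.q k21 [(.s k41
  k61 5 (.s k18 k33 4 (.s k26 k31 2 (.d k22 k30 k60 1 6)))), (.s k42 k63 6 (.s k26 k31 2 (.s k10 k58
  3 (.d k15 k5 k37 2 6)))), (.s k42 k63 6 (.s k41 k61 5 (.s k60 k22 6 (.d k40 k43 k20 0 5))))] (.c
  k25 (.q k38 [(.s k41 k61 5 (.s k18 k33 4 (.s k26 k31 2 (.d k22 k30 k60 1 6)))), (.s k42 k63 6 (.s
  k26 k31 2 (.s k10 k58 3 (.d k15 k5 k37 2 6)))), (.s k42 k63 6 (.s k41 k61 5 (.s k60 k22 6 (.d k40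
  k43 k20 0 5))))] (.c k93 (.q k174 [(.s k41 k61 5 (.s k18 k33 4 (.s k26 k31 2 (.d k22 k30 k60 1
  6)))), (.s k42 k63 6 (.s k26 k31 2 (.s k10 k58 3 (.d k15 k5 k37 2 6)))), (.s k42 k63 6 (.s k41 k61
  5 (.s k60 k22 6 (.d k40 k43 k20 0 5))))] (.c k119 (.q k187 [(.s k41 k61 5 (.s k18 k33 4 (.s k26
  k31 2 (.d k22 k30 k60 1 6)))), (.s k42 k63 6 (.s k26 k31 2 (.s k10 k58 3 (.d k15 k5 k37 2 6)))),
  (.s k42 k63 6 (.s k41 k61 5 (.s k60 k22 6 (.d k40 k43 k20 0 5))))] .n) (.c k187 (.q k119 [(.s k41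
  k61 5 (.s k18 k33 4 (.s k26 k31 2 (.d k22 k30 k60 1 6)))), (.s k42 k63 6 (.s k26 k31 2 (.s k10 k58
  3 (.d k15 k5 k37 2 6)))), (.s k42 k63 6 (.s k41 k61 5 (.s k60 k22 6 (.d k40 k43 k20 0 5))))] .n)
  .n))) (.c k119 (.q k187 [(.s k41 k61 5 (.s k18 k33 4 (.s k26 k31 2 (.d k22 k30 k60 1 6)))), (.s
  k42 k63 6 (.s k26 k31 2 (.s k10 k58 3 (.d k15 k5 k37 2 6)))), (.s k42 k63 6 (.s k41 k61 5 (.s k60
  k22 6 (.d k40 k43 k20 0 5))))] (.c k93 (.q k174 [(.s k41 k61 5 (.s k18 k33 4 (.s k26 k31 2 (.d k22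
  k30 k60 1 6)))), (.s k42 k63 6 (.s k26 k31 2 (.s k10 k58 3 (.d k15 k5 k37 2 6)))), (.s k42 k63 6
  (.s k41 k61 5 (.s k60 k22 6 (.d k40 k43 k20 0 5))))] .n) (.c k174 (.q k93 [(.s k41 k61 5 (.s k18
  k33 4 (.s k26 k31 2 (.d k22 k30 k60 1 6)))), (.s k42 k63 6 (.s k26 k31 2 (.s k10 k58 3 (.d k15 k5
  k37 2 6)))), (.s k42 k63 6 (.s k41 k61 5 (.s k60 k22 6 (.d k40 k43 k20 0 5))))] .n) .n))) (.c k174
  (.q k93 [(.s k41 k61 5 (.s k18 k33 4 (.s k26 k31 2 (.d k22 k30 k60 1 6)))), (.s k42 k63 6 (.s k26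
  k31 2 (.s k10 k58 3 (.d k15 k5 k37 2 6)))), (.s k42 k63 6 (.s k41 k61 5 (.s k60 k22 6 (.d k40 k43
  k20 0 5))))] (.c k119 (.q k187 [(.s k41 k61 5 (.s k18 k33 4 (.s k26 k31 2 (.d k22 k30 k60 1 6)))),
  (.s k42 k63 6 (.s k26 k31 2 (.s k10 k58 3 (.d k15 k5 k37 2 6)))), (.s k42 k63 6 (.s k41 k61 5 (.s
  k60 k22 6 (.d k40 k43 k20 0 5))))] .n) (.c k187 (.q k119 [(.s k41 k61 5 (.s k18 k33 4 (.s k26 k31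
  2 (.d k22 k30 k60 1 6)))), (.s k42 k63 6 (.s k26 k31 2 (.s k10 k58 3 (.d k15 k5 k37 2 6)))), (.s
  k42 k63 6 (.s k41 k61 5 (.s k60 k22 6 (.d k40 k43 k20 0 5))))] .n) .n))) (.c k187 (.q k119 [(.s
  k41 k61 5 (.s k18 k33 4 (.s k26 k31 2 (.d k22 k30 k60 1 6)))), (.s k42 k63 6 (.s k26 k31 2 (.s k10
  k58 3 (.d k15 k5 k37 2 6)))), (.s k42 k63 6 (.s k41 k61 5 (.s k60 k22 6 (.d k40 k43 k20 0 5))))]
  (.c k93 (.q k174 [(.s k41 k61 5 (.s k18 k33 4 (.s k26 k31 2 (.d k22 k30 k60 1 6)))), (.s k42 k63 6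
  (.s k26 k31 2 (.s k10 k58 3 (.d k15 k5 k37 2 6)))), (.s k42 k63 6 (.s k41 k61 5 (.s k60 k22 6 (.d
  k40 k43 k20 0 5))))] .n) (.c k174 (.q k93 [(.s k41 k61 5 (.s k18 k33 4 (.s k26 k31 2 (.d k22 k30
  k60 1 6)))), (.s k42 k63 6 (.s k26 k31 2 (.s k10 k58 3 (.d k15 k5 k37 2 6)))), (.s k42 k63 6 (.s
  k41 k61 5 (.s k60 k22 6 (.d k40 k43 k20 0 5))))] .n) .n))) .n))))) (.c k38 (.q k25 [(.s k18 k33 4
  (.d k17 k19 k29 0 1)), (.s k42 k63 6 (.s k41 k61 5 (.s k60 k22 6 (.d k40 k43 k20 0 5))))] (.c k29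
  (.l (.s k63 k42 6 (.s k41 k61 5 (.s k22 k60 6 (.d k23 k20 k43 0 5))))) (.c k93 (.q k174 [(.s k18
  k33 4 (.d k17 k19 k29 0 1)), (.s k42 k63 6 (.s k41 k61 5 (.s k60 k22 6 (.d k40 k43 k20 0 5))))]
  (.c k29 (.l (.s k63 k42 6 (.s k41 k61 5 (.s k22 k60 6 (.d k23 k20 k43 0 5))))) (.c k119 (.q k187
  [(.s k18 k33 4 (.d k17 k19 k29 0 1)), (.s k42 k63 6 (.s k41 k61 5 (.s k60 k22 6 (.d k40 k43 k20 0
  5))))] (.c k29 (.l (.s k63 k42 6 (.s k41 k61 5 (.s k22 k60 6 (.d k23 k20 k43 0 5))))) .n)) (.c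
  k187 (.q k119 [(.s k18 k33 4 (.d k17 k19 k29 0 1)), (.s k42 k63 6 (.s k41 k61 5 (.s k60 k22 6 (.d
  k40 k43 k20 0 5))))] (.c k29 (.l (.s k63 k42 6 (.s k41 k61 5 (.s k22 k60 6 (.d k23 k20 k43 0
  5))))) .n)) .n)))) (.c k119 (.q k187 [(.s k18 k33 4 (.d k17 k19 k29 0 1)), (.s k42 k63 6 (.s k41
  k61 5 (.s k60 k22 6 (.d k40 k43 k20 0 5))))] (.c k29 (.l (.s k63 k42 6 (.s k41 k61 5 (.s k22 k60 6
  (.d k23 k20 k43 0 5))))) (.c k93 (.q k174 [(.s k18 k33 4 (.d k17 k19 k29 0 1)), (.s k42 k63 6 (.s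
  k41 k61 5 (.s k60 k22 6 (.d k40 k43 k20 0 5))))] (.c k29 (.l (.s k63 k42 6 (.s k41 k61 5 (.s k22
  k60 6 (.d k23 k20 k43 0 5))))) .n)) (.c k174 (.q k93 [(.s k18 k33 4 (.d k17 k19 k29 0 1)), (.s k42
  k63 6 (.s k41 k61 5 (.s k60 k22 6 (.d k40 k43 k20 0 5))))] (.c k29 (.l (.s k63 k42 6 (.s k41 k61 5
  (.s k22 k60 6 (.d k23 k20 k43 0 5))))) .n)) .n)))) (.c k174 (.q k93 [(.s k18 k33 4 (.d k17 k19 k29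
  0 1)), (.s k42 k63 6 (.s k41 k61 5 (.s k60 k22 6 (.d k40 k43 k20 0 5))))] (.c k29 (.l (.s k63 k42
  6 (.s k41 k61 5 (.s k22 k60 6 (.d k23 k20 k43 0 5))))) (.c k119 (.q k187 [(.s k18 k33 4 (.d k17
  k19 k29 0 1)), (.s k42 k63 6 (.s k41 k61 5 (.s k60 k22 6 (.d k40 k43 k20 0 5))))] (.c k29 (.l (.s
  k63 k42 6 (.s k41 k61 5 (.s k22 k60 6 (.d k23 k20 k43 0 5))))) .n)) (.c k187 (.q k119 [(.s k18 k33
  4 (.d k17 k19 k29 0 1)), (.s k42 k63 6 (.s k41 k61 5 (.s k60 k22 6 (.d k40 k43 k20 0 5))))] (.c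
  k29 (.l (.s k63 k42 6 (.s k41 k61 5 (.s k22 k60 6 (.d k23 k20 k43 0 5))))) .n)) .n)))) (.c k187
  (.q k119 [(.s k18 k33 4 (.d k17 k19 k29 0 1)), (.s k42 k63 6 (.s k41 k61 5 (.s k60 k22 6 (.d k40
  k43 k20 0 5))))] (.c k29 (.l (.s k63 k42 6 (.s k41 k61 5 (.s k22 k60 6 (.d k23 k20 k43 0 5)))))
  (.c k93 (.q k174 [(.s k18 k33 4 (.d k17 k19 k29 0 1)), (.s k42 k63 6 (.s k41 k61 5 (.s k60 k22 6
  (.d k40 k43 k20 0 5))))] (.c k29 (.l (.s k63 k42 6 (.s k41 k61 5 (.s k22 k60 6 (.d k23 k20 k43 0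
  5))))) .n)) (.c k174 (.q k93 [(.s k18 k33 4 (.d k17 k19 k29 0 1)), (.s k42 k63 6 (.s k41 k61 5 (.s
  k60 k22 6 (.d k40 k43 k20 0 5))))] (.c k29 (.l (.s k63 k42 6 (.s k41 k61 5 (.s k22 k60 6 (.d k23
  k20 k43 0 5))))) .n)) .n)))) .n)))))) (.c k93 (.q k174 [(.s k41 k61 5 (.s k18 k33 4 (.s k26 k31 2
  (.d k22 k30 k60 1 6)))), (.s k42 k63 6 (.s k26 k31 2 (.s k10 k58 3 (.d k15 k5 k37 2 6)))), (.s k42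
  k63 6 (.s k41 k61 5 (.s k60 k22 6 (.d k40 k43 k20 0 5))))] (.c k25 (.q k38 [(.s k41 k61 5 (.s k18
  k33 4 (.s k26 k31 2 (.d k22 k30 k60 1 6)))), (.s k42 k63 6 (.s k26 k31 2 (.s k10 k58 3 (.d k15 k5
  k37 2 6)))), (.s k42 k63 6 (.s k41 k61 5 (.s k60 k22 6 (.d k40 k43 k20 0 5))))] (.c k119 (.q k187
  [(.s k41 k61 5 (.s k18 k33 4 (.s k26 k31 2 (.d k22 k30 k60 1 6)))), (.s k42 k63 6 (.s k26 k31 2
  (.s k10 k58 3 (.d k15 k5 k37 2 6)))), (.s k42 k63 6 (.s k41 k61 5 (.s k60 k22 6 (.d k40 k43 k20 0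
  5))))] .n) (.c k187 (.q k119 [(.s k41 k61 5 (.s k18 k33 4 (.s k26 k31 2 (.d k22 k30 k60 1 6)))),
  (.s k42 k63 6 (.s k26 k31 2 (.s k10 k58 3 (.d k15 k5 k37 2 6)))), (.s k42 k63 6 (.s k41 k61 5 (.s
  k60 k22 6 (.d k40 k43 k20 0 5))))] .n) .n))) (.c k38 (.q k25 [(.s k18 k33 4 (.d k17 k19 k29 0 1)),
  (.s k42 k63 6 (.s k41 k61 5 (.s k60 k22 6 (.d k40 k43 k20 0 5))))] (.c k29 (.l (.s k63 k42 6 (.s
  k41 k61 5 (.s k22 k60 6 (.d k23 k20 k43 0 5))))) (.c k119 (.q k187 [(.s k18 k33 4 (.d k17 k19 k29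
  0 1)), (.s k42 k63 6 (.s k41 k61 5 (.s k60 k22 6 (.d k40 k43 k20 0 5))))] (.c k29 (.l (.s k63 k42
  6 (.s k41 k61 5 (.s k22 k60 6 (.d k23 k20 k43 0 5))))) .n)) (.c k187 (.q k119 [(.s k18 k33 4 (.d
  k17 k19 k29 0 1)), (.s k42 k63 6 (.s k41 k61 5 (.s k60 k22 6 (.d k40 k43 k20 0 5))))] (.c k29 (.l
  (.s k63 k42 6 (.s k41 k61 5 (.s k22 k60 6 (.d k23 k20 k43 0 5))))) .n)) .n)))) (.c k119 (.q k187
  [(.s k41 k61 5 (.s k18 k33 4 (.s k26 k31 2 (.d k22 k30 k60 1 6)))), (.s k42 k63 6 (.s k26 k31 2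
  (.s k10 k58 3 (.d k15 k5 k37 2 6)))), (.s k42 k63 6 (.s k41 k61 5 (.s k60 k22 6 (.d k40 k43 k20 0
  5))))] (.c k25 (.q k38 [(.s k41 k61 5 (.s k18 k33 4 (.s k26 k31 2 (.d k22 k30 k60 1 6)))), (.s k42
  k63 6 (.s k26 k31 2 (.s k10 k58 3 (.d k15 k5 k37 2 6)))), (.s k42 k63 6 (.s k41 k61 5 (.s k60 k22
  6 (.d k40 k43 k20 0 5))))] .n) (.c k38 (.q k25 [(.s k18 k33 4 (.d k17 k19 k29 0 1)), (.s k42 k63 6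
  (.s k41 k61 5 (.s k60 k22 6 (.d k40 k43 k20 0 5))))] (.c k29 (.l (.s k63 k42 6 (.s k41 k61 5 (.s
  k22 k60 6 (.d k23 k20 k43 0 5))))) .n)) .n))) (.c k187 (.q k119 [(.s k41 k61 5 (.s k18 k33 4 (.s
  k26 k31 2 (.d k22 k30 k60 1 6)))), (.s k42 k63 6 (.s k26 k31 2 (.s k10 k58 3 (.d k15 k5 k37 2
  6)))), (.s k42 k63 6 (.s k41 k61 5 (.s k60 k22 6 (.d k40 k43 k20 0 5))))] (.c k25 (.q k38 [(.s k41
  k61 5 (.s k18 k33 4 (.s k26 k31 2 (.d k22 k30 k60 1 6)))), (.s k42 k63 6 (.s k26 k31 2 (.s k10 k58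
  3 (.d k15 k5 k37 2 6)))), (.s k42 k63 6 (.s k41 k61 5 (.s k60 k22 6 (.d k40 k43 k20 0 5))))] .n)
  (.c k38 (.q k25 [(.s k18 k33 4 (.d k17 k19 k29 0 1)), (.s k42 k63 6 (.s k41 k61 5 (.s k60 k22 6
  (.d k40 k43 k20 0 5))))] (.c k29 (.l (.s k63 k42 6 (.s k41 k61 5 (.s k22 k60 6 (.d k23 k20 k43 0
  5))))) .n)) .n))) .n))))) (.c k119 (.q k187 [(.s k41 k61 5 (.s k18 k33 4 (.s k26 k31 2 (.d k22 k30
  k60 1 6)))), (.s k42 k63 6 (.s k26 k31 2 (.s k10 k58 3 (.d k15 k5 k37 2 6)))), (.s k42 k63 6 (.s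
  k41 k61 5 (.s k60 k22 6 (.d k40 k43 k20 0 5))))] (.c k25 (.q k38 [(.s k41 k61 5 (.s k18 k33 4 (.s
  k26 k31 2 (.d k22 k30 k60 1 6)))), (.s k42 k63 6 (.s k26 k31 2 (.s k10 k58 3 (.d k15 k5 k37 2
  6)))), (.s k42 k63 6 (.s k41 k61 5 (.s k60 k22 6 (.d k40 k43 k20 0 5))))] (.c k93 (.q k174 [(.s
  k41 k61 5 (.s k18 k33 4 (.s k26 k31 2 (.d k22 k30 k60 1 6)))), (.s k42 k63 6 (.s k26 k31 2 (.s k10
  k58 3 (.d k15 k5 k37 2 6)))), (.s k42 k63 6 (.s k41 k61 5 (.s k60 k22 6 (.d k40 k43 k20 0 5))))]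
  .n) (.c k174 (.q k93 [(.s k41 k61 5 (.s k18 k33 4 (.s k26 k31 2 (.d k22 k30 k60 1 6)))), (.s k42
  k63 6 (.s k26 k31 2 (.s k10 k58 3 (.d k15 k5 k37 2 6)))), (.s k42 k63 6 (.s k41 k61 5 (.s k60 k22
  6 (.d k40 k43 k20 0 5))))] .n) .n))) (.c k38 (.q k25 [(.s k18 k33 4 (.d k17 k19 k29 0 1)), (.s k42
  k63 6 (.s k41 k61 5 (.s k60 k22 6 (.d k40 k43 k20 0 5))))] (.c k29 (.l (.s k63 k42 6 (.s k41 k61 5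
  (.s k22 k60 6 (.d k23 k20 k43 0 5))))) (.c k93 (.q k174 [(.s k18 k33 4 (.d k17 k19 k29 0 1)), (.s
  k42 k63 6 (.s k41 k61 5 (.s k60 k22 6 (.d k40 k43 k20 0 5))))] (.c k29 (.l (.s k63 k42 6 (.s k41
  k61 5 (.s k22 k60 6 (.d k23 k20 k43 0 5))))) .n)) (.c k174 (.q k93 [(.s k18 k33 4 (.d k17 k19 k29
  0 1)), (.s k42 k63 6 (.s k41 k61 5 (.s k60 k22 6 (.d k40 k43 k20 0 5))))] (.c k29 (.l (.s k63 k42
  6 (.s k41 k61 5 (.s k22 k60 6 (.d k23 k20 k43 0 5))))) .n)) .n)))) (.c k93 (.q k174 [(.s k41 k61 5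
  (.s k18 k33 4 (.s k26 k31 2 (.d k22 k30 k60 1 6)))), (.s k42 k63 6 (.s k26 k31 2 (.s k10 k58 3 (.d
  k15 k5 k37 2 6)))), (.s k42 k63 6 (.s k41 k61 5 (.s k60 k22 6 (.d k40 k43 k20 0 5))))] (.c k25 (.q
  k38 [(.s k41 k61 5 (.s k18 k33 4 (.s k26 k31 2 (.d k22 k30 k60 1 6)))), (.s k42 k63 6 (.s k26 k31
  2 (.s k10 k58 3 (.d k15 k5 k37 2 6)))), (.s k42 k63 6 (.s k41 k61 5 (.s k60 k22 6 (.d k40 k43 k20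
  0 5))))] .n) (.c k38 (.q k25 [(.s k18 k33 4 (.d k17 k19 k29 0 1)), (.s k42 k63 6 (.s k41 k61 5 (.s
  k60 k22 6 (.d k40 k43 k20 0 5))))] (.c k29 (.l (.s k63 k42 6 (.s k41 k61 5 (.s k22 k60 6 (.d k23
  k20 k43 0 5))))) .n)) .n))) (.c k174 (.q k93 [(.s k41 k61 5 (.s k18 k33 4 (.s k26 k31 2 (.d k22
  k30 k60 1 6)))), (.s k42 k63 6 (.s k26 k31 2 (.s k10 k58 3 (.d k15 k5 k37 2 6)))), (.s k42 k63 6
  (.s k41 k61 5 (.s k60 k22 6 (.d k40 k43 k20 0 5))))] (.c k25 (.q k38 [(.s k41 k61 5 (.s k18 k33 4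
  (.s k26 k31 2 (.d k22 k30 k60 1 6)))), (.s k42 k63 6 (.s k26 k31 2 (.s k10 k58 3 (.d k15 k5 k37 2
  6)))), (.s k42 k63 6 (.s k41 k61 5 (.s k60 k22 6 (.d k40 k43 k20 0 5))))] .n) (.c k38 (.q k25 [(.s
  k18 k33 4 (.d k17 k19 k29 0 1)), (.s k42 k63 6 (.s k41 k61 5 (.s k60 k22 6 (.d k40 k43 k20 0
  5))))] (.c k29 (.l (.s k63 k42 6 (.s k41 k61 5 (.s k22 k60 6 (.d k23 k20 k43 0 5))))) .n)) .n)))
  .n))))) (.c k174 (.q k93 [(.s k41 k61 5 (.s k18 k33 4 (.s k26 k31 2 (.d k22 k30 k60 1 6)))), (.s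
  k42 k63 6 (.s k26 k31 2 (.s k10 k58 3 (.d k15 k5 k37 2 6)))), (.s k42 k63 6 (.s k41 k61 5 (.s k60
  k22 6 (.d k40 k43 k20 0 5))))] (.c k25 (.q k38 [(.s k41 k61 5 (.s k18 k33 4 (.s k26 k31 2 (.d k22
  k30 k60 1 6)))), (.s k42 k63 6 (.s k26 k31 2 (.s k10 k58 3 (.d k15 k5 k37 2 6)))), (.s k42 k63 6
  (.s k41 k61 5 (.s k60 k22 6 (.d k40 k43 k20 0 5))))] (.c k119 (.q k187 [(.s k41 k61 5 (.s k18 k33
  4 (.s k26 k31 2 (.d k22 k30 k60 1 6)))), (.s k42 k63 6 (.s k26 k31 2 (.s k10 k58 3 (.d k15 k5 k37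
  2 6)))), (.s k42 k63 6 (.s k41 k61 5 (.s k60 k22 6 (.d k40 k43 k20 0 5))))] .n) (.c k187 (.q k119
  [(.s k41 k61 5 (.s k18 k33 4 (.s k26 k31 2 (.d k22 k30 k60 1 6)))), (.s k42 k63 6 (.s k26 k31 2
  (.s k10 k58 3 (.d k15 k5 k37 2 6)))), (.s k42 k63 6 (.s k41 k61 5 (.s k60 k22 6 (.d k40 k43 k20 0
  5))))] .n) .n))) (.c k38 (.q k25 [(.s k18 k33 4 (.d k17 k19 k29 0 1)), (.s k42 k63 6 (.s k41 k61 5
  (.s k60 k22 6 (.d k40 k43 k20 0 5))))] (.c k29 (.l (.s k63 k42 6 (.s k41 k61 5 (.s k22 k60 6 (.d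
  k23 k20 k43 0 5))))) (.c k119 (.q k187 [(.s k18 k33 4 (.d k17 k19 k29 0 1)), (.s k42 k63 6 (.s k41
  k61 5 (.s k60 k22 6 (.d k40 k43 k20 0 5))))] (.c k29 (.l (.s k63 k42 6 (.s k41 k61 5 (.s k22 k60 6
  (.d k23 k20 k43 0 5))))) .n)) (.c k187 (.q k119 [(.s k18 k33 4 (.d k17 k19 k29 0 1)), (.s k42 k63
  6 (.s k41 k61 5 (.s k60 k22 6 (.d k40 k43 k20 0 5))))] (.c k29 (.l (.s k63 k42 6 (.s k41 k61 5 (.s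
  k22 k60 6 (.d k23 k20 k43 0 5))))) .n)) .n)))) (.c k119 (.q k187 [(.s k41 k61 5 (.s k18 k33 4 (.s
  k26 k31 2 (.d k22 k30 k60 1 6)))), (.s k42 k63 6 (.s k26 k31 2 (.s k10 k58 3 (.d k15 k5 k37 2
  6)))), (.s k42 k63 6 (.s k41 k61 5 (.s k60 k22 6 (.d k40 k43 k20 0 5))))] (.c k25 (.q k38 [(.s k41
  k61 5 (.s k18 k33 4 (.s k26 k31 2 (.d k22 k30 k60 1 6)))), (.s k42 k63 6 (.s k26 k31 2 (.s k10 k58
  3 (.d k15 k5 k37 2 6)))), (.s k42 k63 6 (.s k41 k61 5 (.s k60 k22 6 (.d k40 k43 k20 0 5))))] .n)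
  (.c k38 (.q k25 [(.s k18 k33 4 (.d k17 k19 k29 0 1)), (.s k42 k63 6 (.s k41 k61 5 (.s k60 k22 6
  (.d k40 k43 k20 0 5))))] (.c k29 (.l (.s k63 k42 6 (.s k41 k61 5 (.s k22 k60 6 (.d k23 k20 k43 0
  5))))) .n)) .n))) (.c k187 (.q k119 [(.s k41 k61 5 (.s k18 k33 4 (.s k26 k31 2 (.d k22 k30 k60 1
  6)))), (.s k42 k63 6 (.s k26 k31 2 (.s k10 k58 3 (.d k15 k5 k37 2 6)))), (.s k42 k63 6 (.s k41 k61
  5 (.s k60 k22 6 (.d k40 k43 k20 0 5))))] (.c k25 (.q k38 [(.s k41 k61 5 (.s k18 k33 4 (.s k26 k31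
  2 (.d k22 k30 k60 1 6)))), (.s k42 k63 6 (.s k26 k31 2 (.s k10 k58 3 (.d k15 k5 k37 2 6)))), (.s
  k42 k63 6 (.s k41 k61 5 (.s k60 k22 6 (.d k40 k43 k20 0 5))))] .n) (.c k38 (.q k25 [(.s k18 k33 4
  (.d k17 k19 k29 0 1)), (.s k42 k63 6 (.s k41 k61 5 (.s k60 k22 6 (.d k40 k43 k20 0 5))))] (.c k29
  (.l (.s k63 k42 6 (.s k41 k61 5 (.s k22 k60 6 (.d k23 k20 k43 0 5))))) .n)) .n))) .n))))) (.c k187
  (.q k119 [(.s k41 k61 5 (.s k18 k33 4 (.s k26 k31 2 (.d k22 k30 k60 1 6)))), (.s k42 k63 6 (.s k26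
  k31 2 (.s k10 k58 3 (.d k15 k5 k37 2 6)))), (.s k42 k63 6 (.s k41 k61 5 (.s k60 k22 6 (.d k40 k43
  k20 0 5))))] (.c k25 (.q k38 [(.s k41 k61 5 (.s k18 k33 4 (.s k26 k31 2 (.d k22 k30 k60 1 6)))),
  (.s k42 k63 6 (.s k26 k31 2 (.s k10 k58 3 (.d k15 k5 k37 2 6)))), (.s k42 k63 6 (.s k41 k61 5 (.s
  k60 k22 6 (.d k40 k43 k20 0 5))))] (.c k93 (.q k174 [(.s k41 k61 5 (.s k18 k33 4 (.s k26 k31 2 (.d
  k22 k30 k60 1 6)))), (.s k42 k63 6 (.s k26 k31 2 (.s k10 k58 3 (.d k15 k5 k37 2 6)))), (.s k42 k63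
  6 (.s k41 k61 5 (.s k60 k22 6 (.d k40 k43 k20 0 5))))] .n) (.c k174 (.q k93 [(.s k41 k61 5 (.s k18
  k33 4 (.s k26 k31 2 (.d k22 k30 k60 1 6)))), (.s k42 k63 6 (.s k26 k31 2 (.s k10 k58 3 (.d k15 k5
  k37 2 6)))), (.s k42 k63 6 (.s k41 k61 5 (.s k60 k22 6 (.d k40 k43 k20 0 5))))] .n) .n))) (.c k38
  (.q k25 [(.s k18 k33 4 (.d k17 k19 k29 0 1)), (.s k42 k63 6 (.s k41 k61 5 (.s k60 k22 6 (.d k40
  k43 k20 0 5))))] (.c k29 (.l (.s k63 k42 6 (.s k41 k61 5 (.s k22 k60 6 (.d k23 k20 k43 0 5)))))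
  (.c k93 (.q k174 [(.s k18 k33 4 (.d k17 k19 k29 0 1)), (.s k42 k63 6 (.s k41 k61 5 (.s k60 k22 6
  (.d k40 k43 k20 0 5))))] (.c k29 (.l (.s k63 k42 6 (.s k41 k61 5 (.s k22 k60 6 (.d k23 k20 k43 0
  5))))) .n)) (.c k174 (.q k93 [(.s k18 k33 4 (.d k17 k19 k29 0 1)), (.s k42 k63 6 (.s k41 k61 5 (.s
  k60 k22 6 (.d k40 k43 k20 0 5))))] (.c k29 (.l (.s k63 k42 6 (.s k41 k61 5 (.s k22 k60 6 (.d k23
  k20 k43 0 5))))) .n)) .n)))) (.c k93 (.q k174 [(.s k41 k61 5 (.s k18 k33 4 (.s k26 k31 2 (.d k22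
  k30 k60 1 6)))), (.s k42 k63 6 (.s k26 k31 2 (.s k10 k58 3 (.d k15 k5 k37 2 6)))), (.s k42 k63 6
  (.s k41 k61 5 (.s k60 k22 6 (.d k40 k43 k20 0 5))))] (.c k25 (.q k38 [(.s k41 k61 5 (.s k18 k33 4
  (.s k26 k31 2 (.d k22 k30 k60 1 6)))), (.s k42 k63 6 (.s k26 k31 2 (.s k10 k58 3 (.d k15 k5 k37 2
  6)))), (.s k42 k63 6 (.s k41 k61 5 (.s k60 k22 6 (.d k40 k43 k20 0 5))))] .n) (.c k38 (.q k25 [(.s
  k18 k33 4 (.d k17 k19 k29 0 1)), (.s k42 k63 6 (.s k41 k61 5 (.s k60 k22 6 (.d k40 k43 k20 0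
  5))))] (.c k29 (.l (.s k63 k42 6 (.s k41 k61 5 (.s k22 k60 6 (.d k23 k20 k43 0 5))))) .n)) .n)))
  (.c k174 (.q k93 [(.s k41 k61 5 (.s k18 k33 4 (.s k26 k31 2 (.d k22 k30 k60 1 6)))), (.s k42 k63 6
  (.s k26 k31 2 (.s k10 k58 3 (.d k15 k5 k37 2 6)))), (.s k42 k63 6 (.s k41 k61 5 (.s k60 k22 6 (.d
  k40 k43 k20 0 5))))] (.c k25 (.q k38 [(.s k41 k61 5 (.s k18 k33 4 (.s k26 k31 2 (.d k22 k30 k60 1
  6)))), (.s k42 k63 6 (.s k26 k31 2 (.s k10 k58 3 (.d k15 k5 k37 2 6)))), (.s k42 k63 6 (.s k41 k61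
  5 (.s k60 k22 6 (.d k40 k43 k20 0 5))))] .n) (.c k38 (.q k25 [(.s k18 k33 4 (.d k17 k19 k29 0 1)),
  (.s k42 k63 6 (.s k41 k61 5 (.s k60 k22 6 (.d k40 k43 k20 0 5))))] (.c k29 (.l (.s k63 k42 6 (.s
  k41 k61 5 (.s k22 k60 6 (.d k23 k20 k43 0 5))))) .n)) .n))) .n))))) .n))))))))) (.c k93 (.q k174
  [(.s k1 k2 0 (.s k32 k16 3 (.s k33 k18 4 (.s k17 k49 3 (.d k34 k35 k51 0 4)))))] (.c k1 (.q k21
  [(.s k16 k32 3 (.s k42 k63 6 (.s k26 k31 2 (.s k10 k58 3 (.d k15 k5 k37 2 6))))), (.s k16 k32 3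
  (.s k18 k33 4 (.s k26 k31 2 (.s k22 k30 1 (.s k20 k23 0 (.d k60 k40 k41 5 6)))))), (.s k63 k42 6
  (.s k18 k33 4 (.s k23 k43 5 (.s k22 k20 0 (.s k26 k30 1 (.s k37 k15 6 (.d k53 k58 k5 2 3)))))))]
  (.c k26 (.l (.s k32 k16 3 (.s k42 k63 6 (.s k33 k18 4 (.s k37 k47 2 (.s k41 k45 1 (.s k40 k43 0
  (.d k60 k22 k20 6 5)))))))) .n)) (.c k2 (.q k21 [(.s k16 k32 3 (.s k42 k63 6 (.s k26 k31 2 (.s k10
  k58 3 (.d k15 k5 k37 2 6))))), (.s k16 k32 3 (.s k18 k33 4 (.s k19 k17 0 (.s k31 k26 2 (.s k23 k27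
  1 (.d k63 k43 k42 5 6)))))), (.s k63 k42 6 (.s k18 k33 4 (.s k23 k43 5 (.s k22 k20 0 (.s k26 k30 1
  (.s k37 k15 6 (.d k53 k58 k5 2 3))))))), (.s k16 k32 3 (.s k18 k33 4 (.s k26 k31 2 (.s k22 k30 1
  (.s k60 k41 6 (.d k20 k23 k40 0 5))))))] (.c k26 (.l (.s k32 k16 3 (.s k42 k63 6 (.s k33 k18 4 (.s
  k37 k47 2 (.s k41 k45 1 (.s k40 k43 0 (.d k60 k22 k20 6 5)))))))) .n)) (.c k16 (.q k21 [(.s k1 k2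
  0 (.s k42 k63 6 (.s k41 k61 5 (.s k60 k22 6 (.d k40 k43 k20 0 5))))), (.s k1 k2 0 (.s k41 k61 5
  (.s k33 k18 4 (.s k37 k45 1 (.s k5 k53 3 (.d k15 k10 k26 2 6)))))), (.s k63 k42 6 (.s k18 k33 4
  (.s k23 k43 5 (.s k22 k20 0 (.s k26 k30 1 (.s k37 k15 6 (.d k53 k58 k5 2 3)))))))] (.c k41 (.l (.s
  k2 k1 0 (.s k42 k63 6 (.s k22 k62 5 (.s k18 k33 4 (.s k26 k30 1 (.s k10 k58 3 (.d k15 k37 k5 6
  2)))))))) .n)) (.c k17 (.q k21 [(.s k1 k2 0 (.s k16 k32 3 (.s k41 k61 5 (.s k18 k33 4 (.s k26 k31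
  2 (.d k22 k30 k60 1 6)))))), (.s k16 k32 3 (.s k42 k63 6 (.s k26 k31 2 (.s k10 k58 3 (.d k15 k5
  k37 2 6))))), (.s k1 k2 0 (.s k42 k63 6 (.s k41 k61 5 (.s k60 k22 6 (.d k40 k43 k20 0 5)))))] .n)
  (.c k18 (.q k21 [(.s k1 k2 0 (.s k16 k32 3 (.s k41 k61 5 (.s k26 k31 2 (.s k11 k56 4 (.d k15 k7
  k37 1 6)))))), (.s k2 k1 0 (.s k42 k63 6 (.s k22 k62 5 (.s k60 k41 6 (.d k20 k23 k40 0 5))))), (.s
  k16 k32 3 (.s k42 k63 6 (.s k26 k31 2 (.s k10 k58 3 (.d k15 k5 k37 2 6)))))] .n) (.c k19 (.l (.s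
  k1 k2 0 (.s k32 k16 3 (.s k33 k18 4 (.s k17 k49 3 (.d k34 k35 k51 0 4)))))) (.c k32 (.q k21 [(.s
  k1 k2 0 (.s k42 k63 6 (.s k41 k61 5 (.s k60 k22 6 (.d k40 k43 k20 0 5))))), (.s k1 k2 0 (.s k41
  k61 5 (.s k33 k18 4 (.s k37 k45 1 (.s k5 k53 3 (.d k15 k10 k26 2 6)))))), (.s k63 k42 6 (.s k18
  k33 4 (.s k23 k43 5 (.s k22 k20 0 (.s k26 k30 1 (.s k37 k15 6 (.d k53 k58 k5 2 3)))))))] (.c k41
  (.l (.s k2 k1 0 (.s k42 k63 6 (.s k22 k62 5 (.s k18 k33 4 (.s k26 k30 1 (.s k10 k58 3 (.d k15 k37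
  k5 6 2)))))))) .n)) (.c k33 (.q k21 [(.s k1 k2 0 (.s k16 k32 3 (.s k41 k61 5 (.s k26 k31 2 (.s k11
  k56 4 (.d k15 k7 k37 1 6)))))), (.s k1 k2 0 (.s k42 k63 6 (.s k41 k61 5 (.s k60 k22 6 (.d k40 k43
  k20 0 5))))), (.s k16 k32 3 (.s k42 k63 6 (.s k26 k31 2 (.s k10 k58 3 (.d k15 k5 k37 2 6)))))] .n)
  (.c k34 (.q k21 [(.s k2 k1 0 (.s k42 k63 6 (.s k22 k62 5 (.s k60 k41 6 (.d k20 k23 k40 0 5))))),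
  (.s k16 k32 3 (.s k42 k63 6 (.s k26 k31 2 (.s k10 k58 3 (.d k15 k5 k37 2 6))))), (.s k1 k2 0 (.s
  k16 k32 3 (.s k41 k61 5 (.s k22 k60 6 (.s k26 k31 2 (.d k18 k33 k30 4 1))))))] (.c k63 (.l (.s k1
  k2 0 (.s k16 k32 3 (.s k41 k61 5 (.s k60 k22 6 (.s k26 k31 2 (.d k56 k52 k11 1 4))))))) .n)) (.c
  k35 (.l (.s k2 k1 0 (.s k16 k32 3 (.s k18 k33 4 (.s k34 k50 3 (.d k17 k19 k51 0 4)))))) (.c k49
  (.l (.s k2 k1 0 (.s k16 k32 3 (.s k18 k33 4 (.s k17 k19 0 (.d k34 k50 k51 3 4)))))) (.c k50 (.l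
  (.s k1 k2 0 (.s k32 k16 3 (.s k33 k18 4 (.s k34 k35 0 (.d k17 k49 k51 3 4)))))) (.c k51 (.f k1 k2
  0 (.f k16 k32 3 (.q k21 [(.s k41 k61 5 (.s k18 k33 4 (.s k26 k31 2 (.d k22 k30 k60 1 6)))), (.s
  k42 k63 6 (.s k26 k31 2 (.s k10 k58 3 (.d k15 k5 k37 2 6)))), (.s k42 k63 6 (.s k41 k61 5 (.s k60
  k22 6 (.d k40 k43 k20 0 5))))] (.c k25 (.q k38 [(.s k41 k61 5 (.s k18 k33 4 (.s k26 k31 2 (.d k22
  k30 k60 1 6)))), (.s k42 k63 6 (.s k26 k31 2 (.s k10 k58 3 (.d k15 k5 k37 2 6)))), (.s k42 k63 6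
  (.s k41 k61 5 (.s k60 k22 6 (.d k40 k43 k20 0 5))))] (.c k119 (.q k187 [(.s k41 k61 5 (.s k18 k33
  4 (.s k26 k31 2 (.d k22 k30 k60 1 6)))), (.s k42 k63 6 (.s k26 k31 2 (.s k10 k58 3 (.d k15 k5 k37
  2 6)))), (.s k42 k63 6 (.s k41 k61 5 (.s k60 k22 6 (.d k40 k43 k20 0 5))))] .n) (.c k187 (.q k119
  [(.s k41 k61 5 (.s k18 k33 4 (.s k26 k31 2 (.d k22 k30 k60 1 6)))), (.s k42 k63 6 (.s k26 k31 2
  (.s k10 k58 3 (.d k15 k5 k37 2 6)))), (.s k42 k63 6 (.s k41 k61 5 (.s k60 k22 6 (.d k40 k43 k20 0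
  5))))] .n) .n))) (.c k38 (.q k25 [(.s k18 k33 4 (.d k17 k19 k29 0 1)), (.s k42 k63 6 (.s k41 k61 5
  (.s k60 k22 6 (.d k40 k43 k20 0 5))))] (.c k29 (.l (.s k63 k42 6 (.s k41 k61 5 (.s k22 k60 6 (.d
  k23 k20 k43 0 5))))) (.c k119 (.q k187 [(.s k18 k33 4 (.d k17 k19 k29 0 1)), (.s k42 k63 6 (.s k41
  k61 5 (.s k60 k22 6 (.d k40 k43 k20 0 5))))] (.c k29 (.l (.s k63 k42 6 (.s k41 k61 5 (.s k22 k60 6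
  (.d k23 k20 k43 0 5))))) .n)) (.c k187 (.q k119 [(.s k18 k33 4 (.d k17 k19 k29 0 1)), (.s k42 k63
  6 (.s k41 k61 5 (.s k60 k22 6 (.d k40 k43 k20 0 5))))] (.c k29 (.l (.s k63 k42 6 (.s k41 k61 5 (.s
  k22 k60 6 (.d k23 k20 k43 0 5))))) .n)) .n)))) (.c k119 (.q k187 [(.s k41 k61 5 (.s k18 k33 4 (.s
  k26 k31 2 (.d k22 k30 k60 1 6)))), (.s k42 k63 6 (.s k26 k31 2 (.s k10 k58 3 (.d k15 k5 k37 2
  6)))), (.s k42 k63 6 (.s k41 k61 5 (.s k60 k22 6 (.d k40 k43 k20 0 5))))] (.c k25 (.q k38 [(.s k41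
  k61 5 (.s k18 k33 4 (.s k26 k31 2 (.d k22 k30 k60 1 6)))), (.s k42 k63 6 (.s k26 k31 2 (.s k10 k58
  3 (.d k15 k5 k37 2 6)))), (.s k42 k63 6 (.s k41 k61 5 (.s k60 k22 6 (.d k40 k43 k20 0 5))))] .n)
  (.c k38 (.q k25 [(.s k18 k33 4 (.d k17 k19 k29 0 1)), (.s k42 k63 6 (.s k41 k61 5 (.s k60 k22 6
  (.d k40 k43 k20 0 5))))] (.c k29 (.l (.s k63 k42 6 (.s k41 k61 5 (.s k22 k60 6 (.d k23 k20 k43 0
  5))))) .n)) .n))) (.c k187 (.q k119 [(.s k41 k61 5 (.s k18 k33 4 (.s k26 k31 2 (.d k22 k30 k60 1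
  6)))), (.s k42 k63 6 (.s k26 k31 2 (.s k10 k58 3 (.d k15 k5 k37 2 6)))), (.s k42 k63 6 (.s k41 k61
  5 (.s k60 k22 6 (.d k40 k43 k20 0 5))))] (.c k25 (.q k38 [(.s k41 k61 5 (.s k18 k33 4 (.s k26 k31
  2 (.d k22 k30 k60 1 6)))), (.s k42 k63 6 (.s k26 k31 2 (.s k10 k58 3 (.d k15 k5 k37 2 6)))), (.s
  k42 k63 6 (.s k41 k61 5 (.s k60 k22 6 (.d k40 k43 k20 0 5))))] .n) (.c k38 (.q k25 [(.s k18 k33 4
  (.d k17 k19 k29 0 1)), (.s k42 k63 6 (.s k41 k61 5 (.s k60 k22 6 (.d k40 k43 k20 0 5))))] (.c k29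
  (.l (.s k63 k42 6 (.s k41 k61 5 (.s k22 k60 6 (.d k23 k20 k43 0 5))))) .n)) .n))) .n)))))))
  .n)))))))))))))) (.c k174 (.q k93 [(.s k1 k2 0 (.s k32 k16 3 (.s k33 k18 4 (.s k17 k49 3 (.d k34
  k35 k51 0 4)))))] (.c k1 (.q k21 [(.s k16 k32 3 (.s k42 k63 6 (.s k26 k31 2 (.s k10 k58 3 (.d k15
  k5 k37 2 6))))), (.s k16 k32 3 (.s k18 k33 4 (.s k26 k31 2 (.s k22 k30 1 (.s k20 k23 0 (.d k60 k40
  k41 5 6)))))), (.s k63 k42 6 (.s k18 k33 4 (.s k23 k43 5 (.s k22 k20 0 (.s k26 k30 1 (.s k37 k15 6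
  (.d k53 k58 k5 2 3)))))))] (.c k26 (.l (.s k32 k16 3 (.s k42 k63 6 (.s k33 k18 4 (.s k37 k47 2 (.s
  k41 k45 1 (.s k40 k43 0 (.d k60 k22 k20 6 5)))))))) .n)) (.c k2 (.q k21 [(.s k16 k32 3 (.s k42 k63
  6 (.s k26 k31 2 (.s k10 k58 3 (.d k15 k5 k37 2 6))))), (.s k16 k32 3 (.s k18 k33 4 (.s k19 k17 0
  (.s k31 k26 2 (.s k23 k27 1 (.d k63 k43 k42 5 6)))))), (.s k63 k42 6 (.s k18 k33 4 (.s k23 k43 5
  (.s k22 k20 0 (.s k26 k30 1 (.s k37 k15 6 (.d k53 k58 k5 2 3))))))), (.s k16 k32 3 (.s k18 k33 4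
  (.s k26 k31 2 (.s k22 k30 1 (.s k60 k41 6 (.d k20 k23 k40 0 5))))))] (.c k26 (.l (.s k32 k16 3 (.s
  k42 k63 6 (.s k33 k18 4 (.s k37 k47 2 (.s k41 k45 1 (.s k40 k43 0 (.d k60 k22 k20 6 5)))))))) .n))
  (.c k16 (.q k21 [(.s k1 k2 0 (.s k42 k63 6 (.s k41 k61 5 (.s k60 k22 6 (.d k40 k43 k20 0 5))))),
  (.s k1 k2 0 (.s k41 k61 5 (.s k33 k18 4 (.s k37 k45 1 (.s k5 k53 3 (.d k15 k10 k26 2 6)))))), (.s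
  k63 k42 6 (.s k18 k33 4 (.s k23 k43 5 (.s k22 k20 0 (.s k26 k30 1 (.s k37 k15 6 (.d k53 k58 k5 2
  3)))))))] (.c k41 (.l (.s k2 k1 0 (.s k42 k63 6 (.s k22 k62 5 (.s k18 k33 4 (.s k26 k30 1 (.s k10
  k58 3 (.d k15 k37 k5 6 2)))))))) .n)) (.c k17 (.q k21 [(.s k1 k2 0 (.s k16 k32 3 (.s k41 k61 5 (.s
  k18 k33 4 (.s k26 k31 2 (.d k22 k30 k60 1 6)))))), (.s k16 k32 3 (.s k42 k63 6 (.s k26 k31 2 (.s
  k10 k58 3 (.d k15 k5 k37 2 6))))), (.s k1 k2 0 (.s k42 k63 6 (.s k41 k61 5 (.s k60 k22 6 (.d k40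
  k43 k20 0 5)))))] .n) (.c k18 (.q k21 [(.s k1 k2 0 (.s k16 k32 3 (.s k41 k61 5 (.s k26 k31 2 (.s
  k11 k56 4 (.d k15 k7 k37 1 6)))))), (.s k2 k1 0 (.s k42 k63 6 (.s k22 k62 5 (.s k60 k41 6 (.d k20
  k23 k40 0 5))))), (.s k16 k32 3 (.s k42 k63 6 (.s k26 k31 2 (.s k10 k58 3 (.d k15 k5 k37 2 6)))))]
  .n) (.c k19 (.l (.s k1 k2 0 (.s k32 k16 3 (.s k33 k18 4 (.s k17 k49 3 (.d k34 k35 k51 0 4))))))
  (.c k32 (.q k21 [(.s k1 k2 0 (.s k42 k63 6 (.s k41 k61 5 (.s k60 k22 6 (.d k40 k43 k20 0 5))))),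
  (.s k1 k2 0 (.s k41 k61 5 (.s k33 k18 4 (.s k37 k45 1 (.s k5 k53 3 (.d k15 k10 k26 2 6)))))), (.s
  k63 k42 6 (.s k18 k33 4 (.s k23 k43 5 (.s k22 k20 0 (.s k26 k30 1 (.s k37 k15 6 (.d k53 k58 k5 2
  3)))))))] (.c k41 (.l (.s k2 k1 0 (.s k42 k63 6 (.s k22 k62 5 (.s k18 k33 4 (.s k26 k30 1 (.s k10
  k58 3 (.d k15 k37 k5 6 2)))))))) .n)) (.c k33 (.q k21 [(.s k1 k2 0 (.s k16 k32 3 (.s k41 k61 5 (.s
  k26 k31 2 (.s k11 k56 4 (.d k15 k7 k37 1 6)))))), (.s k1 k2 0 (.s k42 k63 6 (.s k41 k61 5 (.s k60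
  k22 6 (.d k40 k43 k20 0 5))))), (.s k16 k32 3 (.s k42 k63 6 (.s k26 k31 2 (.s k10 k58 3 (.d k15 k5
  k37 2 6)))))] .n) (.c k34 (.q k21 [(.s k2 k1 0 (.s k42 k63 6 (.s k22 k62 5 (.s k60 k41 6 (.d k20
  k23 k40 0 5))))), (.s k16 k32 3 (.s k42 k63 6 (.s k26 k31 2 (.s k10 k58 3 (.d k15 k5 k37 2 6))))),
  (.s k1 k2 0 (.s k16 k32 3 (.s k41 k61 5 (.s k22 k60 6 (.s k26 k31 2 (.d k18 k33 k30 4 1))))))] (.c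
  k63 (.l (.s k1 k2 0 (.s k16 k32 3 (.s k41 k61 5 (.s k60 k22 6 (.s k26 k31 2 (.d k56 k52 k11 1
  4))))))) .n)) (.c k35 (.l (.s k2 k1 0 (.s k16 k32 3 (.s k18 k33 4 (.s k34 k50 3 (.d k17 k19 k51 0
  4)))))) (.c k49 (.l (.s k2 k1 0 (.s k16 k32 3 (.s k18 k33 4 (.s k17 k19 0 (.d k34 k50 k51 3
  4)))))) (.c k50 (.l (.s k1 k2 0 (.s k32 k16 3 (.s k33 k18 4 (.s k34 k35 0 (.d k17 k49 k51 3
  4)))))) (.c k51 (.f k1 k2 0 (.f k16 k32 3 (.q k5 [(.s k15 k10 2 (.s k13 k9 1 (.s k33 k18 4 (.s k49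
  k17 3 (.d k37 k25 k26 5 6))))), (.s k13 k9 1 (.s k253 k173 11 (.s k85 k169 13 (.s k165 k245 11 (.d
  k89 k81 k241 1 13))))), (.s k15 k10 2 (.s k11 k7 1 (.s k26 k37 6 (.s k41 k56 4 (.d k21 k31 k61 2
  5)))))] (.c k25 (.q k38 [(.s k15 k10 2 (.s k7 k11 1 (.s k6 k4 0 (.s k22 k54 3 (.d k37 k52 k26 4
  6))))), (.s k13 k9 1 (.s k253 k173 11 (.s k85 k169 13 (.s k165 k245 11 (.d k89 k81 k241 1 13))))),
  (.s k15 k10 2 (.s k11 k7 1 (.s k26 k37 6 (.s k41 k56 4 (.d k21 k31 k61 2 5)))))] (.c k119 (.q k187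
  [(.s k15 k10 2 (.s k7 k11 1 (.s k6 k4 0 (.s k22 k54 3 (.d k37 k52 k26 4 6))))), (.s k13 k9 1 (.s
  k253 k173 11 (.s k85 k169 13 (.s k165 k245 11 (.d k89 k81 k241 1 13))))), (.s k15 k10 2 (.s k11 k7
  1 (.s k26 k37 6 (.s k41 k56 4 (.d k21 k31 k61 2 5)))))] .n) (.c k187 (.q k119 [(.s k15 k10 2 (.s
  k7 k11 1 (.s k6 k4 0 (.s k22 k54 3 (.d k37 k52 k26 4 6))))), (.s k13 k9 1 (.s k253 k173 11 (.s k85
  k169 13 (.s k165 k245 11 (.d k89 k81 k241 1 13))))), (.s k15 k10 2 (.s k11 k7 1 (.s k26 k37 6 (.s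
  k41 k56 4 (.d k21 k31 k61 2 5)))))] .n) .n))) (.c k38 (.q k25 [(.s k13 k9 1 (.s k33 k18 4 (.d k49
  k17 k37 3 5))), (.s k15 k10 2 (.s k11 k7 1 (.s k26 k37 6 (.s k41 k56 4 (.d k21 k31 k61 2 5)))))]
  (.c k37 (.l (.s k9 k13 1 (.s k18 k33 4 (.s k41 k57 3 (.s k21 k61 5 (.d k17 k29 k19 1 0)))))) (.c
  k119 (.q k187 [(.s k13 k9 1 (.s k33 k18 4 (.d k49 k17 k37 3 5))), (.s k15 k10 2 (.s k11 k7 1 (.s
  k26 k37 6 (.s k41 k56 4 (.d k21 k31 k61 2 5)))))] (.c k37 (.l (.s k9 k13 1 (.s k18 k33 4 (.s k41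
  k57 3 (.s k21 k61 5 (.d k17 k29 k19 1 0)))))) .n)) (.c k187 (.q k119 [(.s k13 k9 1 (.s k33 k18 4
  (.d k49 k17 k37 3 5))), (.s k15 k10 2 (.s k11 k7 1 (.s k26 k37 6 (.s k41 k56 4 (.d k21 k31 k61 2
  5)))))] (.c k37 (.l (.s k9 k13 1 (.s k18 k33 4 (.s k41 k57 3 (.s k21 k61 5 (.d k17 k29 k19 1
  0)))))) .n)) .n)))) (.c k119 (.q k187 [(.s k15 k10 2 (.s k13 k9 1 (.s k33 k18 4 (.s k49 k17 3 (.d
  k37 k25 k26 5 6))))), (.s k13 k9 1 (.s k253 k173 11 (.s k85 k169 13 (.s k165 k245 11 (.d k89 k81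
  k241 1 13))))), (.s k15 k10 2 (.s k11 k7 1 (.s k26 k37 6 (.s k41 k56 4 (.d k21 k31 k61 2 5)))))]
  (.c k25 (.q k38 [(.s k15 k10 2 (.s k7 k11 1 (.s k6 k4 0 (.s k22 k54 3 (.d k37 k52 k26 4 6))))),
  (.s k13 k9 1 (.s k253 k173 11 (.s k85 k169 13 (.s k165 k245 11 (.d k89 k81 k241 1 13))))), (.s k15
  k10 2 (.s k11 k7 1 (.s k26 k37 6 (.s k41 k56 4 (.d k21 k31 k61 2 5)))))] .n) (.c k38 (.q k25 [(.s
  k13 k9 1 (.s k33 k18 4 (.d k49 k17 k37 3 5))), (.s k15 k10 2 (.s k11 k7 1 (.s k26 k37 6 (.s k41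
  k56 4 (.d k21 k31 k61 2 5)))))] (.c k37 (.l (.s k9 k13 1 (.s k18 k33 4 (.s k41 k57 3 (.s k21 k61 5
  (.d k17 k29 k19 1 0)))))) .n)) .n))) (.c k187 (.q k119 [(.s k15 k10 2 (.s k13 k9 1 (.s k33 k18 4
  (.s k49 k17 3 (.d k37 k25 k26 5 6))))), (.s k13 k9 1 (.s k253 k173 11 (.s k85 k169 13 (.s k165
  k245 11 (.d k89 k81 k241 1 13))))), (.s k15 k10 2 (.s k11 k7 1 (.s k26 k37 6 (.s k41 k56 4 (.d k21
  k31 k61 2 5)))))] (.c k25 (.q k38 [(.s k15 k10 2 (.s k7 k11 1 (.s k6 k4 0 (.s k22 k54 3 (.d k37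
  k52 k26 4 6))))), (.s k13 k9 1 (.s k253 k173 11 (.s k85 k169 13 (.s k165 k245 11 (.d k89 k81 k241
  1 13))))), (.s k15 k10 2 (.s k11 k7 1 (.s k26 k37 6 (.s k41 k56 4 (.d k21 k31 k61 2 5)))))] .n)
  (.c k38 (.q k25 [(.s k13 k9 1 (.s k33 k18 4 (.d k49 k17 k37 3 5))), (.s k15 k10 2 (.s k11 k7 1 (.s
  k26 k37 6 (.s k41 k56 4 (.d k21 k31 k61 2 5)))))] (.c k37 (.l (.s k9 k13 1 (.s k18 k33 4 (.s k41
  k57 3 (.s k21 k61 5 (.d k17 k29 k19 1 0)))))) .n)) .n))) .n))))))) .n))))))))))))))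
  .n))))))))))))))))

def t13 : T TT 256 :=
  (.f k1 k2 0 (.q k17 [(.s k51 k34 4 (.s k19 k35 3 (.s k18 k16 0 (.d k33 k49 k48 3 4))))] (.c k16
  (.q k21 [(.s k63 k42 6 (.s k23 k43 5 (.s k22 k20 0 (.d k41 k61 k60 5 6)))), (.s k51 k34 4 (.s k41
  k61 5 (.s k35 k19 3 (.s k38 k44 2 (.d k25 k29 k12 1 6))))), (.s k51 k34 4 (.s k63 k42 6 (.s k55
  k59 1 (.s k38 k4 4 (.d k25 k29 k12 1 6)))))] .n) (.c k18 (.q k21 [(.s k63 k42 6 (.s k23 k43 5 (.s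
  k22 k20 0 (.d k41 k61 k60 5 6)))), (.s k42 k63 6 (.s k25 k29 1 (.s k8 k59 4 (.s k12 k4 1 (.d k51
  k34 k38 4 6)))))] (.c k34 (.q k50 [(.s k63 k42 6 (.s k23 k43 5 (.s k22 k20 0 (.d k41 k61 k60 5
  6)))), (.s k49 k33 3 (.s k41 k61 5 (.s k51 k48 0 (.s k35 k19 3 (.s k38 k44 2 (.d k25 k29 k12 1
  6)))))), (.s k63 k42 6 (.s k49 k33 3 (.s k51 k48 0 (.s k55 k59 1 (.s k38 k4 4 (.d k25 k29 k12 1
  6))))))] (.c k38 (.l (.s k42 k63 6 (.s k41 k61 5 (.s k60 k22 6 (.d k40 k43 k20 0 5))))) .n)) (.c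
  k42 (.l (.s k33 k49 3 (.s k41 k61 5 (.s k22 k60 6 (.s k25 k29 1 (.s k45 k37 1 (.s k19 k28 2 (.d
  k51 k35 k34 3 4)))))))) (.c k50 (.l (.s k34 k51 4 (.s k42 k63 6 (.s k41 k61 5 (.s k60 k22 6 (.d
  k40 k43 k20 0 5)))))) (.c k61 (.l (.s k63 k42 6 (.s k49 k33 3 (.s k51 k34 4 (.s k50 k48 0 (.s k55
  k59 1 (.s k38 k4 4 (.d k25 k29 k12 1 6)))))))) (.c k63 (.l (.s k33 k49 3 (.s k41 k61 5 (.s k60 k22
  6 (.s k25 k29 1 (.s k45 k37 1 (.s k57 k9 3 (.d k51 k54 k34 2 4)))))))) .n)))))) (.c k19 (.l (.s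
  k34 k51 4 (.s k33 k49 3 (.s k48 k18 4 (.d k32 k35 k16 0 3))))) (.c k32 (.l (.s k51 k34 4 (.s k33
  k49 3 (.s k18 k48 4 (.d k19 k35 k16 3 0))))) (.c k33 (.q k21 [(.s k63 k42 6 (.s k23 k43 5 (.s k22
  k20 0 (.d k41 k61 k60 5 6)))), (.s k51 k34 4 (.s k41 k61 5 (.s k35 k19 3 (.s k38 k44 2 (.d k25 k29
  k12 1 6))))), (.s k51 k34 4 (.s k63 k42 6 (.s k55 k59 1 (.s k38 k4 4 (.d k25 k29 k12 1 6)))))] .n)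
  (.c k34 (.q k21 [(.s k63 k42 6 (.s k23 k43 5 (.s k22 k20 0 (.d k41 k61 k60 5 6)))), (.s k42 k63 6
  (.s k25 k29 1 (.s k8 k59 4 (.s k12 k4 1 (.s k9 k6 2 (.d k41 k61 k57 5 3)))))), (.s k33 k49 3 (.s
  k41 k61 5 (.s k18 k48 4 (.s k16 k19 0 (.s k26 k31 2 (.d k22 k30 k60 1 6)))))), (.s k63 k42 6 (.s
  k33 k49 3 (.s k18 k48 4 (.s k16 k19 0 (.s k26 k31 2 (.s k22 k30 1 (.d k23 k20 k43 0 5)))))))] (.c
  k18 (.q k50 [(.s k63 k42 6 (.s k23 k43 5 (.s k22 k20 0 (.d k41 k61 k60 5 6)))), (.s k49 k33 3 (.s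
  k41 k61 5 (.s k51 k48 0 (.s k35 k19 3 (.s k38 k44 2 (.d k25 k29 k12 1 6)))))), (.s k63 k42 6 (.s
  k49 k33 3 (.s k51 k48 0 (.s k55 k59 1 (.s k38 k4 4 (.d k25 k29 k12 1 6))))))] (.c k38 (.l (.s k42
  k63 6 (.s k41 k61 5 (.s k60 k22 6 (.d k40 k43 k20 0 5))))) .n)) (.c k50 (.q k18 [(.d k33 k49 k48 3
  4), (.s k42 k63 6 (.s k41 k61 5 (.s k60 k22 6 (.d k40 k43 k20 0 5))))] .n) .n))) (.c k35 (.q k21
  [(.s k63 k42 6 (.s k23 k43 5 (.s k22 k20 0 (.d k41 k61 k60 5 6)))), (.s k51 k34 4 (.s k42 k63 6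
  (.s k25 k29 1 (.s k8 k59 4 (.d k12 k4 k38 1 6)))))] (.c k42 (.l (.s k33 k49 3 (.s k41 k61 5 (.s
  k18 k48 4 (.s k22 k60 6 (.s k16 k19 0 (.d k26 k30 k31 1 2))))))) (.c k61 (.l (.s k51 k34 4 (.s k63
  k42 6 (.s k55 k59 1 (.s k38 k4 4 (.d k25 k29 k12 1 6)))))) (.c k63 (.l (.s k51 k34 4 (.s k41 k61 5
  (.s k60 k22 6 (.s k57 k54 2 (.d k25 k29 k9 1 3)))))) .n)))) (.c k48 (.q k21 [(.s k63 k42 6 (.s k23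
  k43 5 (.s k22 k20 0 (.d k41 k61 k60 5 6)))), (.s k51 k34 4 (.s k41 k61 5 (.s k35 k19 3 (.s k38 k44
  2 (.d k25 k29 k12 1 6))))), (.s k51 k34 4 (.s k63 k42 6 (.s k55 k59 1 (.s k38 k4 4 (.d k25 k29 k12
  1 6)))))] (.c k117 (.q k186 [(.s k63 k42 6 (.s k23 k43 5 (.s k22 k20 0 (.d k41 k61 k60 5 6)))),
  (.s k51 k34 4 (.s k41 k61 5 (.s k35 k19 3 (.s k38 k44 2 (.d k25 k29 k12 1 6))))), (.s k51 k34 4
  (.s k63 k42 6 (.s k55 k59 1 (.s k38 k4 4 (.d k25 k29 k12 1 6)))))] .n) (.c k186 (.q k117 [(.s k63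
  k42 6 (.s k23 k43 5 (.s k22 k20 0 (.d k41 k61 k60 5 6)))), (.s k51 k34 4 (.s k41 k61 5 (.s k35 k19
  3 (.s k38 k44 2 (.d k25 k29 k12 1 6))))), (.s k51 k34 4 (.s k63 k42 6 (.s k55 k59 1 (.s k38 k4 4
  (.d k25 k29 k12 1 6)))))] .n) .n))) (.c k49 (.q k21 [(.s k63 k42 6 (.s k23 k43 5 (.s k22 k20 0 (.d
  k41 k61 k60 5 6)))), (.s k51 k34 4 (.s k41 k61 5 (.s k35 k19 3 (.s k38 k44 2 (.d k25 k29 k12 1
  6))))), (.s k51 k34 4 (.s k63 k42 6 (.s k55 k59 1 (.s k38 k4 4 (.d k25 k29 k12 1 6)))))] (.c k25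
  (.q k37 [(.s k63 k42 6 (.s k23 k43 5 (.s k22 k20 0 (.d k41 k61 k60 5 6)))), (.s k51 k34 4 (.s k41
  k61 5 (.s k19 k35 3 (.s k18 k16 0 (.d k33 k45 k48 1 4))))), (.s k34 k51 4 (.s k42 k63 6 (.s k32
  k47 2 (.s k48 k16 3 (.d k33 k35 k18 0 4)))))] .n) (.c k37 (.l (.s k25 k29 1 (.s k51 k34 4 (.s k42
  k63 6 (.s k8 k59 4 (.d k12 k4 k38 1 6)))))) .n))) (.c k50 (.l (.s k34 k51 4 (.s k33 k49 3 (.s k48
  k18 4 (.d k32 k35 k16 0 3))))) (.c k51 (.q k21 [(.s k63 k42 6 (.s k23 k43 5 (.s k22 k20 0 (.d k41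
  k61 k60 5 6)))), (.s k42 k63 6 (.s k33 k49 3 (.s k48 k18 4 (.s k16 k32 3 (.s k26 k31 2 (.s k10 k58
  3 (.d k15 k37 k5 6 2))))))), (.s k33 k49 3 (.s k41 k61 5 (.s k48 k18 4 (.s k16 k32 3 (.s k26 k31 2
  (.d k37 k45 k15 1 6))))))] (.c k119 (.q k187 [(.s k63 k42 6 (.s k23 k43 5 (.s k22 k20 0 (.d k41
  k61 k60 5 6)))), (.s k42 k63 6 (.s k33 k49 3 (.s k48 k18 4 (.s k16 k32 3 (.s k26 k31 2 (.s k10 k58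
  3 (.d k15 k37 k5 6 2))))))), (.s k33 k49 3 (.s k41 k61 5 (.s k48 k18 4 (.s k16 k32 3 (.s k26 k31 2
  (.d k37 k45 k15 1 6))))))] .n) (.c k187 (.q k119 [(.s k63 k42 6 (.s k23 k43 5 (.s k22 k20 0 (.d
  k41 k61 k60 5 6)))), (.s k42 k63 6 (.s k33 k49 3 (.s k48 k18 4 (.s k16 k32 3 (.s k26 k31 2 (.s k10
  k58 3 (.d k15 k37 k5 6 2))))))), (.s k33 k49 3 (.s k41 k61 5 (.s k48 k18 4 (.s k16 k32 3 (.s k26
  k31 2 (.d k37 k45 k15 1 6))))))] .n) .n))) .n)))))))))))))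

theorem c1 : rootOK2 k3 k255 k1 t1 = true := by decide +kernel

theorem c4 : rootOK2 k3 k255 k4 t4 = true := by decide +kernel

theorem c5 : rootOK2 k3 k255 k5 t5 = true := by decide +kernel

theorem c6 : rootOK2 k3 k255 k6 t6 = true := by decide +kernel

theorem c7 : rootOK2 k3 k255 k7 t7 = true := by decide +kernel

theorem c12 : rootOK2 k3 k255 k12 t12 = true := by decide +kernel

theorem c13 : rootOK2 k3 k255 k13 t13 = true := by decide +kernel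

def l : List Nat :=
  [k1.c, k4.c, k5.c, k6.c, k7.c, k12.c, k13.c]

theorem ok : AllQ k3.c k255.c l :=
  allQ_cons c1 (allQ_cons c4 (allQ_cons c5 (allQ_cons c6 (allQ_cons c7 (allQ_cons c12 (
  allQ_cons c13 (allQ_nil _ _)))))))

end Pool.Agent.TTT.F01
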