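import Pool.Agent.TTT.Sym2

set_option autoImplicit false
set_option maxRecDepth 100000

namespace Pool.Agent.TTT.F02

def t15 : T TT 256 :=
  (.q k51 [(.s k1 k2 0 (.s k17 k34 4 (.s k33 k49 3 (.s k19 k35 3 (.d k18 k16 k48 0 4)))))] (.c k1
  (.q k21 [(.s k17 k34 4 (.s k42 k63 6 (.s k25 k29 1 (.s k8 k59 4 (.d k12 k4 k38 1 6))))), (.s k17
  k34 4 (.s k19 k35 3 (.s k16 k18 0 (.s k31 k26 2 (.s k23 k27 1 (.d k63 k43 k42 5 6)))))), (.s k63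
  k42 6 (.s k19 k35 3 (.s k23 k43 5 (.s k22 k20 0 (.s k25 k28 2 (.s k38 k12 6 (.d k55 k59 k4 1
  4))))))), (.s k17 k34 4 (.s k19 k35 3 (.s k25 k29 1 (.s k22 k28 2 (.s k60 k41 6 (.d k20 k23 k40 0
  5))))))] (.c k25 (.l (.s k17 k34 4 (.s k63 k42 6 (.s k19 k35 3 (.s k23 k43 5 (.s k16 k18 0 (.d k31
  k27 k26 1 2))))))) (.c k95 (.q k175 [(.s k17 k34 4 (.s k42 k63 6 (.s k25 k29 1 (.s k8 k59 4 (.d
  k12 k4 k38 1 6))))), (.s k17 k34 4 (.s k19 k35 3 (.s k16 k18 0 (.s k31 k26 2 (.s k23 k27 1 (.d k63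
  k43 k42 5 6)))))), (.s k63 k42 6 (.s k19 k35 3 (.s k23 k43 5 (.s k22 k20 0 (.s k25 k28 2 (.s k38
  k12 6 (.d k55 k59 k4 1 4))))))), (.s k17 k34 4 (.s k19 k35 3 (.s k25 k29 1 (.s k22 k28 2 (.s k60
  k41 6 (.d k20 k23 k40 0 5))))))] (.c k25 (.l (.s k17 k34 4 (.s k63 k42 6 (.s k19 k35 3 (.s k23 k43
  5 (.s k16 k18 0 (.d k31 k27 k26 1 2))))))) .n)) (.c k175 (.q k95 [(.s k17 k34 4 (.s k42 k63 6 (.s
  k25 k29 1 (.s k8 k59 4 (.d k12 k4 k38 1 6))))), (.s k17 k34 4 (.s k19 k35 3 (.s k16 k18 0 (.s k31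
  k26 2 (.s k23 k27 1 (.d k63 k43 k42 5 6)))))), (.s k63 k42 6 (.s k19 k35 3 (.s k23 k43 5 (.s k22
  k20 0 (.s k25 k28 2 (.s k38 k12 6 (.d k55 k59 k4 1 4))))))), (.s k17 k34 4 (.s k19 k35 3 (.s k25
  k29 1 (.s k22 k28 2 (.s k60 k41 6 (.d k20 k23 k40 0 5))))))] (.c k25 (.l (.s k17 k34 4 (.s k63 k42
  6 (.s k19 k35 3 (.s k23 k43 5 (.s k16 k18 0 (.d k31 k27 k26 1 2))))))) .n)) .n)))) (.c k2 (.q k21
  [(.s k34 k17 4 (.s k42 k63 6 (.s k38 k46 1 (.s k4 k55 4 (.d k12 k8 k25 1 6))))), (.s k17 k34 4 (.s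
  k19 k35 3 (.s k25 k29 1 (.s k22 k28 2 (.s k20 k23 0 (.d k60 k40 k41 5 6)))))), (.s k63 k42 6 (.s
  k19 k35 3 (.s k23 k43 5 (.s k22 k20 0 (.s k25 k28 2 (.s k38 k12 6 (.d k55 k59 k4 1 4)))))))] (.c
  k25 (.l (.s k17 k34 4 (.s k63 k42 6 (.s k19 k35 3 (.s k23 k43 5 (.s k31 k27 1 (.d k16 k18 k26 0
  2))))))) (.c k95 (.q k175 [(.s k34 k17 4 (.s k42 k63 6 (.s k38 k46 1 (.s k4 k55 4 (.d k12 k8 k25 1
  6))))), (.s k17 k34 4 (.s k19 k35 3 (.s k25 k29 1 (.s k22 k28 2 (.s k20 k23 0 (.d k60 k40 k41 5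
  6)))))), (.s k63 k42 6 (.s k19 k35 3 (.s k23 k43 5 (.s k22 k20 0 (.s k25 k28 2 (.s k38 k12 6 (.d
  k55 k59 k4 1 4)))))))] (.c k25 (.l (.s k17 k34 4 (.s k63 k42 6 (.s k19 k35 3 (.s k23 k43 5 (.s k31
  k27 1 (.d k16 k18 k26 0 2))))))) .n)) (.c k175 (.q k95 [(.s k34 k17 4 (.s k42 k63 6 (.s k38 k46 1
  (.s k4 k55 4 (.d k12 k8 k25 1 6))))), (.s k17 k34 4 (.s k19 k35 3 (.s k25 k29 1 (.s k22 k28 2 (.s
  k20 k23 0 (.d k60 k40 k41 5 6)))))), (.s k63 k42 6 (.s k19 k35 3 (.s k23 k43 5 (.s k22 k20 0 (.s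
  k25 k28 2 (.s k38 k12 6 (.d k55 k59 k4 1 4)))))))] (.c k25 (.l (.s k17 k34 4 (.s k63 k42 6 (.s k19
  k35 3 (.s k23 k43 5 (.s k31 k27 1 (.d k16 k18 k26 0 2))))))) .n)) .n)))) (.c k16 (.l (.s k2 k1 0
  (.s k34 k17 4 (.s k18 k50 3 (.s k33 k48 4 (.d k35 k19 k32 3 0)))))) (.c k17 (.q k21 [(.s k1 k2 0
  (.s k41 k61 5 (.s k35 k19 3 (.s k38 k44 2 (.s k4 k55 4 (.d k12 k8 k25 1 6)))))), (.s k1 k2 0 (.s
  k42 k63 6 (.s k41 k61 5 (.s k60 k22 6 (.d k40 k43 k20 0 5))))), (.s k63 k42 6 (.s k19 k35 3 (.s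
  k23 k43 5 (.s k22 k20 0 (.s k25 k28 2 (.s k38 k12 6 (.d k55 k59 k4 1 4)))))))] (.c k41 (.l (.s k2
  k1 0 (.s k42 k63 6 (.s k22 k62 5 (.s k19 k35 3 (.s k25 k28 2 (.s k8 k59 4 (.d k12 k38 k4 6
  1)))))))) (.c k95 (.q k175 [(.s k1 k2 0 (.s k41 k61 5 (.s k35 k19 3 (.s k38 k44 2 (.s k4 k55 4 (.d
  k12 k8 k25 1 6)))))), (.s k1 k2 0 (.s k42 k63 6 (.s k41 k61 5 (.s k60 k22 6 (.d k40 k43 k20 0
  5))))), (.s k63 k42 6 (.s k19 k35 3 (.s k23 k43 5 (.s k22 k20 0 (.s k25 k28 2 (.s k38 k12 6 (.d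
  k55 k59 k4 1 4)))))))] (.c k41 (.l (.s k2 k1 0 (.s k42 k63 6 (.s k22 k62 5 (.s k19 k35 3 (.s k25
  k28 2 (.s k8 k59 4 (.d k12 k38 k4 6 1)))))))) .n)) (.c k175 (.q k95 [(.s k1 k2 0 (.s k41 k61 5 (.s
  k35 k19 3 (.s k38 k44 2 (.s k4 k55 4 (.d k12 k8 k25 1 6)))))), (.s k1 k2 0 (.s k42 k63 6 (.s k41
  k61 5 (.s k60 k22 6 (.d k40 k43 k20 0 5))))), (.s k63 k42 6 (.s k19 k35 3 (.s k23 k43 5 (.s k22
  k20 0 (.s k25 k28 2 (.s k38 k12 6 (.d k55 k59 k4 1 4)))))))] (.c k41 (.l (.s k2 k1 0 (.s k42 k63 6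
  (.s k22 k62 5 (.s k19 k35 3 (.s k25 k28 2 (.s k8 k59 4 (.d k12 k38 k4 6 1)))))))) .n)) .n)))) (.c
  k18 (.q k21 [(.s k2 k1 0 (.s k42 k63 6 (.s k22 k62 5 (.s k60 k41 6 (.d k20 k23 k40 0 5))))), (.s
  k1 k2 0 (.s k41 k61 5 (.s k35 k19 3 (.s k38 k44 2 (.s k4 k55 4 (.d k12 k8 k25 1 6)))))), (.s k34
  k17 4 (.s k42 k63 6 (.s k38 k46 1 (.s k4 k55 4 (.d k12 k8 k25 1 6)))))] (.c k95 (.q k175 [(.s k2
  k1 0 (.s k42 k63 6 (.s k22 k62 5 (.s k60 k41 6 (.d k20 k23 k40 0 5))))), (.s k1 k2 0 (.s k41 k61 5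
  (.s k35 k19 3 (.s k38 k44 2 (.s k4 k55 4 (.d k12 k8 k25 1 6)))))), (.s k34 k17 4 (.s k42 k63 6 (.s
  k38 k46 1 (.s k4 k55 4 (.d k12 k8 k25 1 6)))))] .n) (.c k175 (.q k95 [(.s k2 k1 0 (.s k42 k63 6
  (.s k22 k62 5 (.s k60 k41 6 (.d k20 k23 k40 0 5))))), (.s k1 k2 0 (.s k41 k61 5 (.s k35 k19 3 (.s
  k38 k44 2 (.s k4 k55 4 (.d k12 k8 k25 1 6)))))), (.s k34 k17 4 (.s k42 k63 6 (.s k38 k46 1 (.s k4
  k55 4 (.d k12 k8 k25 1 6)))))] .n) .n))) (.c k19 (.q k21 [(.s k17 k34 4 (.s k42 k63 6 (.s k25 k29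
  1 (.s k8 k59 4 (.d k12 k4 k38 1 6))))), (.s k1 k2 0 (.s k63 k42 6 (.s k41 k61 5 (.s k22 k60 6 (.d
  k23 k20 k43 0 5))))), (.s k1 k2 0 (.s k17 k34 4 (.s k41 k61 5 (.s k25 k29 1 (.s k9 k57 3 (.d k12
  k6 k38 2 6))))))] (.c k95 (.q k175 [(.s k17 k34 4 (.s k42 k63 6 (.s k25 k29 1 (.s k8 k59 4 (.d k12
  k4 k38 1 6))))), (.s k1 k2 0 (.s k63 k42 6 (.s k41 k61 5 (.s k22 k60 6 (.d k23 k20 k43 0 5))))),
  (.s k1 k2 0 (.s k17 k34 4 (.s k41 k61 5 (.s k25 k29 1 (.s k9 k57 3 (.d k12 k6 k38 2 6))))))] .n)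
  (.c k175 (.q k95 [(.s k17 k34 4 (.s k42 k63 6 (.s k25 k29 1 (.s k8 k59 4 (.d k12 k4 k38 1 6))))),
  (.s k1 k2 0 (.s k63 k42 6 (.s k41 k61 5 (.s k22 k60 6 (.d k23 k20 k43 0 5))))), (.s k1 k2 0 (.s
  k17 k34 4 (.s k41 k61 5 (.s k25 k29 1 (.s k9 k57 3 (.d k12 k6 k38 2 6))))))] .n) .n))) (.c k33 (.q
  k21 [(.s k1 k2 0 (.s k42 k63 6 (.s k41 k61 5 (.s k60 k22 6 (.d k40 k43 k20 0 5))))), (.s k1 k2 0
  (.s k17 k34 4 (.s k41 k61 5 (.s k35 k19 3 (.s k25 k29 1 (.d k38 k44 k12 2 6)))))), (.s k17 k34 4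
  (.s k42 k63 6 (.s k25 k29 1 (.s k8 k59 4 (.d k12 k4 k38 1 6)))))] (.c k95 (.q k175 [(.s k1 k2 0
  (.s k42 k63 6 (.s k41 k61 5 (.s k60 k22 6 (.d k40 k43 k20 0 5))))), (.s k1 k2 0 (.s k17 k34 4 (.s
  k41 k61 5 (.s k35 k19 3 (.s k25 k29 1 (.d k38 k44 k12 2 6)))))), (.s k17 k34 4 (.s k42 k63 6 (.s
  k25 k29 1 (.s k8 k59 4 (.d k12 k4 k38 1 6)))))] .n) (.c k175 (.q k95 [(.s k1 k2 0 (.s k42 k63 6
  (.s k41 k61 5 (.s k60 k22 6 (.d k40 k43 k20 0 5))))), (.s k1 k2 0 (.s k17 k34 4 (.s k41 k61 5 (.s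
  k35 k19 3 (.s k25 k29 1 (.d k38 k44 k12 2 6)))))), (.s k17 k34 4 (.s k42 k63 6 (.s k25 k29 1 (.s
  k8 k59 4 (.d k12 k4 k38 1 6)))))] .n) .n))) (.c k34 (.q k21 [(.s k1 k2 0 (.s k41 k61 5 (.s k35 k19
  3 (.s k38 k44 2 (.s k4 k55 4 (.d k12 k8 k25 1 6)))))), (.s k2 k1 0 (.s k42 k63 6 (.s k22 k62 5 (.s
  k60 k41 6 (.d k20 k23 k40 0 5))))), (.s k63 k42 6 (.s k19 k35 3 (.s k23 k43 5 (.s k31 k27 1 (.s
  k16 k26 2 (.s k18 k17 0 (.d k48 k32 k33 3 4)))))))] (.c k41 (.l (.s k2 k1 0 (.s k42 k63 6 (.s k22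
  k62 5 (.s k19 k35 3 (.s k25 k28 2 (.s k8 k59 4 (.d k12 k38 k4 6 1)))))))) (.c k95 (.q k175 [(.s k1
  k2 0 (.s k41 k61 5 (.s k35 k19 3 (.s k38 k44 2 (.s k4 k55 4 (.d k12 k8 k25 1 6)))))), (.s k2 k1 0
  (.s k42 k63 6 (.s k22 k62 5 (.s k60 k41 6 (.d k20 k23 k40 0 5))))), (.s k63 k42 6 (.s k19 k35 3
  (.s k23 k43 5 (.s k31 k27 1 (.s k16 k26 2 (.s k18 k17 0 (.d k48 k32 k33 3 4)))))))] (.c k41 (.l
  (.s k2 k1 0 (.s k42 k63 6 (.s k22 k62 5 (.s k19 k35 3 (.s k25 k28 2 (.s k8 k59 4 (.d k12 k38 k4 6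
  1)))))))) .n)) (.c k175 (.q k95 [(.s k1 k2 0 (.s k41 k61 5 (.s k35 k19 3 (.s k38 k44 2 (.s k4 k55
  4 (.d k12 k8 k25 1 6)))))), (.s k2 k1 0 (.s k42 k63 6 (.s k22 k62 5 (.s k60 k41 6 (.d k20 k23 k40
  0 5))))), (.s k63 k42 6 (.s k19 k35 3 (.s k23 k43 5 (.s k31 k27 1 (.s k16 k26 2 (.s k18 k17 0 (.d
  k48 k32 k33 3 4)))))))] (.c k41 (.l (.s k2 k1 0 (.s k42 k63 6 (.s k22 k62 5 (.s k19 k35 3 (.s k25
  k28 2 (.s k8 k59 4 (.d k12 k38 k4 6 1)))))))) .n)) .n)))) (.c k35 (.q k21 [(.s k1 k2 0 (.s k42 k63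
  6 (.s k41 k61 5 (.s k60 k22 6 (.d k40 k43 k20 0 5))))), (.s k1 k2 0 (.s k17 k34 4 (.s k41 k61 5
  (.s k25 k29 1 (.s k9 k57 3 (.d k12 k6 k38 2 6)))))), (.s k17 k34 4 (.s k42 k63 6 (.s k25 k29 1 (.s
  k8 k59 4 (.d k12 k4 k38 1 6)))))] (.c k95 (.q k175 [(.s k1 k2 0 (.s k42 k63 6 (.s k41 k61 5 (.s
  k60 k22 6 (.d k40 k43 k20 0 5))))), (.s k1 k2 0 (.s k17 k34 4 (.s k41 k61 5 (.s k25 k29 1 (.s k9
  k57 3 (.d k12 k6 k38 2 6)))))), (.s k17 k34 4 (.s k42 k63 6 (.s k25 k29 1 (.s k8 k59 4 (.d k12 k4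
  k38 1 6)))))] .n) (.c k175 (.q k95 [(.s k1 k2 0 (.s k42 k63 6 (.s k41 k61 5 (.s k60 k22 6 (.d k40
  k43 k20 0 5))))), (.s k1 k2 0 (.s k17 k34 4 (.s k41 k61 5 (.s k25 k29 1 (.s k9 k57 3 (.d k12 k6
  k38 2 6)))))), (.s k17 k34 4 (.s k42 k63 6 (.s k25 k29 1 (.s k8 k59 4 (.d k12 k4 k38 1 6)))))] .n)
  .n))) (.c k48 (.q k21 [(.s k1 k2 0 (.s k42 k63 6 (.s k41 k61 5 (.s k60 k22 6 (.d k40 k43 k20 0
  5))))), (.s k1 k2 0 (.s k17 k34 4 (.s k41 k61 5 (.s k19 k35 3 (.s k25 k29 1 (.d k22 k28 k60 2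
  6)))))), (.s k17 k34 4 (.s k42 k63 6 (.s k25 k29 1 (.s k8 k59 4 (.d k12 k4 k38 1 6)))))] (.c k26
  (.q k37 [(.s k1 k2 0 (.s k17 k34 4 (.s k33 k49 3 (.d k41 k45 k61 1 5)))), (.s k34 k17 4 (.s k42
  k63 6 (.s k35 k19 3 (.d k32 k47 k33 2 0)))), (.s k1 k2 0 (.s k42 k63 6 (.s k41 k61 5 (.s k60 k22 6
  (.d k40 k43 k20 0 5)))))] (.c k18 (.l (.s k1 k2 0 (.s k41 k61 5 (.s k33 k45 1 (.d k17 k34 k49 4
  3))))) (.c k95 (.q k175 [(.s k1 k2 0 (.s k17 k34 4 (.s k33 k49 3 (.d k41 k45 k61 1 5)))), (.s k34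
  k17 4 (.s k42 k63 6 (.s k35 k19 3 (.d k32 k47 k33 2 0)))), (.s k1 k2 0 (.s k42 k63 6 (.s k41 k61 5
  (.s k60 k22 6 (.d k40 k43 k20 0 5)))))] (.c k18 (.l (.s k1 k2 0 (.s k41 k61 5 (.s k33 k45 1 (.d
  k17 k34 k49 4 3))))) (.c k117 (.q k186 [(.s k1 k2 0 (.s k17 k34 4 (.s k33 k49 3 (.d k41 k45 k61 1
  5)))), (.s k34 k17 4 (.s k42 k63 6 (.s k35 k19 3 (.d k32 k47 k33 2 0)))), (.s k1 k2 0 (.s k42 k63
  6 (.s k41 k61 5 (.s k60 k22 6 (.d k40 k43 k20 0 5)))))] (.c k18 (.l (.s k1 k2 0 (.s k41 k61 5 (.s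
  k33 k45 1 (.d k17 k34 k49 4 3))))) .n)) (.c k186 (.q k117 [(.s k1 k2 0 (.s k17 k34 4 (.s k33 k49 3
  (.d k41 k45 k61 1 5)))), (.s k34 k17 4 (.s k42 k63 6 (.s k35 k19 3 (.d k32 k47 k33 2 0)))), (.s k1
  k2 0 (.s k42 k63 6 (.s k41 k61 5 (.s k60 k22 6 (.d k40 k43 k20 0 5)))))] (.c k18 (.l (.s k1 k2 0
  (.s k41 k61 5 (.s k33 k45 1 (.d k17 k34 k49 4 3))))) .n)) .n)))) (.c k117 (.q k186 [(.s k1 k2 0
  (.s k17 k34 4 (.s k33 k49 3 (.d k41 k45 k61 1 5)))), (.s k34 k17 4 (.s k42 k63 6 (.s k35 k19 3 (.d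
  k32 k47 k33 2 0)))), (.s k1 k2 0 (.s k42 k63 6 (.s k41 k61 5 (.s k60 k22 6 (.d k40 k43 k20 0
  5)))))] (.c k18 (.l (.s k1 k2 0 (.s k41 k61 5 (.s k33 k45 1 (.d k17 k34 k49 4 3))))) (.c k95 (.q
  k175 [(.s k1 k2 0 (.s k17 k34 4 (.s k33 k49 3 (.d k41 k45 k61 1 5)))), (.s k34 k17 4 (.s k42 k63 6
  (.s k35 k19 3 (.d k32 k47 k33 2 0)))), (.s k1 k2 0 (.s k42 k63 6 (.s k41 k61 5 (.s k60 k22 6 (.d
  k40 k43 k20 0 5)))))] (.c k18 (.l (.s k1 k2 0 (.s k41 k61 5 (.s k33 k45 1 (.d k17 k34 k49 4 3)))))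
  .n)) (.c k175 (.q k95 [(.s k1 k2 0 (.s k17 k34 4 (.s k33 k49 3 (.d k41 k45 k61 1 5)))), (.s k34
  k17 4 (.s k42 k63 6 (.s k35 k19 3 (.d k32 k47 k33 2 0)))), (.s k1 k2 0 (.s k42 k63 6 (.s k41 k61 5
  (.s k60 k22 6 (.d k40 k43 k20 0 5)))))] (.c k18 (.l (.s k1 k2 0 (.s k41 k61 5 (.s k33 k45 1 (.d
  k17 k34 k49 4 3))))) .n)) .n)))) (.c k175 (.q k95 [(.s k1 k2 0 (.s k17 k34 4 (.s k33 k49 3 (.d k41
  k45 k61 1 5)))), (.s k34 k17 4 (.s k42 k63 6 (.s k35 k19 3 (.d k32 k47 k33 2 0)))), (.s k1 k2 0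
  (.s k42 k63 6 (.s k41 k61 5 (.s k60 k22 6 (.d k40 k43 k20 0 5)))))] (.c k18 (.l (.s k1 k2 0 (.s
  k41 k61 5 (.s k33 k45 1 (.d k17 k34 k49 4 3))))) (.c k117 (.q k186 [(.s k1 k2 0 (.s k17 k34 4 (.s
  k33 k49 3 (.d k41 k45 k61 1 5)))), (.s k34 k17 4 (.s k42 k63 6 (.s k35 k19 3 (.d k32 k47 k33 2
  0)))), (.s k1 k2 0 (.s k42 k63 6 (.s k41 k61 5 (.s k60 k22 6 (.d k40 k43 k20 0 5)))))] (.c k18 (.l
  (.s k1 k2 0 (.s k41 k61 5 (.s k33 k45 1 (.d k17 k34 k49 4 3))))) .n)) (.c k186 (.q k117 [(.s k1 k2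
  0 (.s k17 k34 4 (.s k33 k49 3 (.d k41 k45 k61 1 5)))), (.s k34 k17 4 (.s k42 k63 6 (.s k35 k19 3
  (.d k32 k47 k33 2 0)))), (.s k1 k2 0 (.s k42 k63 6 (.s k41 k61 5 (.s k60 k22 6 (.d k40 k43 k20 0
  5)))))] (.c k18 (.l (.s k1 k2 0 (.s k41 k61 5 (.s k33 k45 1 (.d k17 k34 k49 4 3))))) .n)) .n))))
  (.c k186 (.q k117 [(.s k1 k2 0 (.s k17 k34 4 (.s k33 k49 3 (.d k41 k45 k61 1 5)))), (.s k34 k17 4
  (.s k42 k63 6 (.s k35 k19 3 (.d k32 k47 k33 2 0)))), (.s k1 k2 0 (.s k42 k63 6 (.s k41 k61 5 (.s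
  k60 k22 6 (.d k40 k43 k20 0 5)))))] (.c k18 (.l (.s k1 k2 0 (.s k41 k61 5 (.s k33 k45 1 (.d k17
  k34 k49 4 3))))) (.c k95 (.q k175 [(.s k1 k2 0 (.s k17 k34 4 (.s k33 k49 3 (.d k41 k45 k61 1
  5)))), (.s k34 k17 4 (.s k42 k63 6 (.s k35 k19 3 (.d k32 k47 k33 2 0)))), (.s k1 k2 0 (.s k42 k63
  6 (.s k41 k61 5 (.s k60 k22 6 (.d k40 k43 k20 0 5)))))] (.c k18 (.l (.s k1 k2 0 (.s k41 k61 5 (.s
  k33 k45 1 (.d k17 k34 k49 4 3))))) .n)) (.c k175 (.q k95 [(.s k1 k2 0 (.s k17 k34 4 (.s k33 k49 3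
  (.d k41 k45 k61 1 5)))), (.s k34 k17 4 (.s k42 k63 6 (.s k35 k19 3 (.d k32 k47 k33 2 0)))), (.s k1
  k2 0 (.s k42 k63 6 (.s k41 k61 5 (.s k60 k22 6 (.d k40 k43 k20 0 5)))))] (.c k18 (.l (.s k1 k2 0
  (.s k41 k61 5 (.s k33 k45 1 (.d k17 k34 k49 4 3))))) .n)) .n)))) .n)))))) (.c k37 (.q k26 [(.s k17
  k34 4 (.s k19 k35 3 (.d k16 k18 k31 0 2))), (.s k1 k2 0 (.s k42 k63 6 (.s k41 k61 5 (.s k60 k22 6
  (.d k40 k43 k20 0 5)))))] (.c k31 (.l (.s k1 k2 0 (.s k63 k42 6 (.s k41 k61 5 (.s k22 k60 6 (.d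
  k23 k20 k43 0 5)))))) (.c k95 (.q k175 [(.s k17 k34 4 (.s k19 k35 3 (.d k16 k18 k31 0 2))), (.s k1
  k2 0 (.s k42 k63 6 (.s k41 k61 5 (.s k60 k22 6 (.d k40 k43 k20 0 5)))))] (.c k31 (.l (.s k1 k2 0
  (.s k63 k42 6 (.s k41 k61 5 (.s k22 k60 6 (.d k23 k20 k43 0 5)))))) (.c k117 (.q k186 [(.s k17 k34
  4 (.s k19 k35 3 (.d k16 k18 k31 0 2))), (.s k1 k2 0 (.s k42 k63 6 (.s k41 k61 5 (.s k60 k22 6 (.d
  k40 k43 k20 0 5)))))] (.c k31 (.l (.s k1 k2 0 (.s k63 k42 6 (.s k41 k61 5 (.s k22 k60 6 (.d k23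
  k20 k43 0 5)))))) .n)) (.c k186 (.q k117 [(.s k17 k34 4 (.s k19 k35 3 (.d k16 k18 k31 0 2))), (.s
  k1 k2 0 (.s k42 k63 6 (.s k41 k61 5 (.s k60 k22 6 (.d k40 k43 k20 0 5)))))] (.c k31 (.l (.s k1 k2
  0 (.s k63 k42 6 (.s k41 k61 5 (.s k22 k60 6 (.d k23 k20 k43 0 5)))))) .n)) .n)))) (.c k117 (.q
  k186 [(.s k17 k34 4 (.s k19 k35 3 (.d k16 k18 k31 0 2))), (.s k1 k2 0 (.s k42 k63 6 (.s k41 k61 5
  (.s k60 k22 6 (.d k40 k43 k20 0 5)))))] (.c k31 (.l (.s k1 k2 0 (.s k63 k42 6 (.s k41 k61 5 (.s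
  k22 k60 6 (.d k23 k20 k43 0 5)))))) (.c k95 (.q k175 [(.s k17 k34 4 (.s k19 k35 3 (.d k16 k18 k31
  0 2))), (.s k1 k2 0 (.s k42 k63 6 (.s k41 k61 5 (.s k60 k22 6 (.d k40 k43 k20 0 5)))))] (.c k31
  (.l (.s k1 k2 0 (.s k63 k42 6 (.s k41 k61 5 (.s k22 k60 6 (.d k23 k20 k43 0 5)))))) .n)) (.c k175
  (.q k95 [(.s k17 k34 4 (.s k19 k35 3 (.d k16 k18 k31 0 2))), (.s k1 k2 0 (.s k42 k63 6 (.s k41 k61
  5 (.s k60 k22 6 (.d k40 k43 k20 0 5)))))] (.c k31 (.l (.s k1 k2 0 (.s k63 k42 6 (.s k41 k61 5 (.s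
  k22 k60 6 (.d k23 k20 k43 0 5)))))) .n)) .n)))) (.c k175 (.q k95 [(.s k17 k34 4 (.s k19 k35 3 (.d
  k16 k18 k31 0 2))), (.s k1 k2 0 (.s k42 k63 6 (.s k41 k61 5 (.s k60 k22 6 (.d k40 k43 k20 0
  5)))))] (.c k31 (.l (.s k1 k2 0 (.s k63 k42 6 (.s k41 k61 5 (.s k22 k60 6 (.d k23 k20 k43 0
  5)))))) (.c k117 (.q k186 [(.s k17 k34 4 (.s k19 k35 3 (.d k16 k18 k31 0 2))), (.s k1 k2 0 (.s k42
  k63 6 (.s k41 k61 5 (.s k60 k22 6 (.d k40 k43 k20 0 5)))))] (.c k31 (.l (.s k1 k2 0 (.s k63 k42 6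
  (.s k41 k61 5 (.s k22 k60 6 (.d k23 k20 k43 0 5)))))) .n)) (.c k186 (.q k117 [(.s k17 k34 4 (.s
  k19 k35 3 (.d k16 k18 k31 0 2))), (.s k1 k2 0 (.s k42 k63 6 (.s k41 k61 5 (.s k60 k22 6 (.d k40
  k43 k20 0 5)))))] (.c k31 (.l (.s k1 k2 0 (.s k63 k42 6 (.s k41 k61 5 (.s k22 k60 6 (.d k23 k20
  k43 0 5)))))) .n)) .n)))) (.c k186 (.q k117 [(.s k17 k34 4 (.s k19 k35 3 (.d k16 k18 k31 0 2))),
  (.s k1 k2 0 (.s k42 k63 6 (.s k41 k61 5 (.s k60 k22 6 (.d k40 k43 k20 0 5)))))] (.c k31 (.l (.s k1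
  k2 0 (.s k63 k42 6 (.s k41 k61 5 (.s k22 k60 6 (.d k23 k20 k43 0 5)))))) (.c k95 (.q k175 [(.s k17
  k34 4 (.s k19 k35 3 (.d k16 k18 k31 0 2))), (.s k1 k2 0 (.s k42 k63 6 (.s k41 k61 5 (.s k60 k22 6
  (.d k40 k43 k20 0 5)))))] (.c k31 (.l (.s k1 k2 0 (.s k63 k42 6 (.s k41 k61 5 (.s k22 k60 6 (.d
  k23 k20 k43 0 5)))))) .n)) (.c k175 (.q k95 [(.s k17 k34 4 (.s k19 k35 3 (.d k16 k18 k31 0 2))),
  (.s k1 k2 0 (.s k42 k63 6 (.s k41 k61 5 (.s k60 k22 6 (.d k40 k43 k20 0 5)))))] (.c k31 (.l (.s k1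
  k2 0 (.s k63 k42 6 (.s k41 k61 5 (.s k22 k60 6 (.d k23 k20 k43 0 5)))))) .n)) .n)))) .n)))))) (.c
  k95 (.q k175 [(.s k1 k2 0 (.s k42 k63 6 (.s k41 k61 5 (.s k60 k22 6 (.d k40 k43 k20 0 5))))), (.s
  k1 k2 0 (.s k17 k34 4 (.s k41 k61 5 (.s k19 k35 3 (.s k25 k29 1 (.d k22 k28 k60 2 6)))))), (.s k17
  k34 4 (.s k42 k63 6 (.s k25 k29 1 (.s k8 k59 4 (.d k12 k4 k38 1 6)))))] (.c k26 (.q k37 [(.s k1 k2
  0 (.s k17 k34 4 (.s k33 k49 3 (.d k41 k45 k61 1 5)))), (.s k34 k17 4 (.s k42 k63 6 (.s k35 k19 3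
  (.d k32 k47 k33 2 0)))), (.s k1 k2 0 (.s k42 k63 6 (.s k41 k61 5 (.s k60 k22 6 (.d k40 k43 k20 0
  5)))))] (.c k18 (.l (.s k1 k2 0 (.s k41 k61 5 (.s k33 k45 1 (.d k17 k34 k49 4 3))))) (.c k117 (.q
  k186 [(.s k1 k2 0 (.s k17 k34 4 (.s k33 k49 3 (.d k41 k45 k61 1 5)))), (.s k34 k17 4 (.s k42 k63 6
  (.s k35 k19 3 (.d k32 k47 k33 2 0)))), (.s k1 k2 0 (.s k42 k63 6 (.s k41 k61 5 (.s k60 k22 6 (.d
  k40 k43 k20 0 5)))))] (.c k18 (.l (.s k1 k2 0 (.s k41 k61 5 (.s k33 k45 1 (.d k17 k34 k49 4 3)))))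
  .n)) (.c k186 (.q k117 [(.s k1 k2 0 (.s k17 k34 4 (.s k33 k49 3 (.d k41 k45 k61 1 5)))), (.s k34
  k17 4 (.s k42 k63 6 (.s k35 k19 3 (.d k32 k47 k33 2 0)))), (.s k1 k2 0 (.s k42 k63 6 (.s k41 k61 5
  (.s k60 k22 6 (.d k40 k43 k20 0 5)))))] (.c k18 (.l (.s k1 k2 0 (.s k41 k61 5 (.s k33 k45 1 (.d
  k17 k34 k49 4 3))))) .n)) .n)))) (.c k37 (.q k26 [(.s k17 k34 4 (.s k19 k35 3 (.d k16 k18 k31 0
  2))), (.s k1 k2 0 (.s k42 k63 6 (.s k41 k61 5 (.s k60 k22 6 (.d k40 k43 k20 0 5)))))] (.c k31 (.l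
  (.s k1 k2 0 (.s k63 k42 6 (.s k41 k61 5 (.s k22 k60 6 (.d k23 k20 k43 0 5)))))) (.c k117 (.q k186
  [(.s k17 k34 4 (.s k19 k35 3 (.d k16 k18 k31 0 2))), (.s k1 k2 0 (.s k42 k63 6 (.s k41 k61 5 (.s
  k60 k22 6 (.d k40 k43 k20 0 5)))))] (.c k31 (.l (.s k1 k2 0 (.s k63 k42 6 (.s k41 k61 5 (.s k22
  k60 6 (.d k23 k20 k43 0 5)))))) .n)) (.c k186 (.q k117 [(.s k17 k34 4 (.s k19 k35 3 (.d k16 k18
  k31 0 2))), (.s k1 k2 0 (.s k42 k63 6 (.s k41 k61 5 (.s k60 k22 6 (.d k40 k43 k20 0 5)))))] (.c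
  k31 (.l (.s k1 k2 0 (.s k63 k42 6 (.s k41 k61 5 (.s k22 k60 6 (.d k23 k20 k43 0 5)))))) .n))
  .n)))) (.c k117 (.q k186 [(.s k1 k2 0 (.s k42 k63 6 (.s k41 k61 5 (.s k60 k22 6 (.d k40 k43 k20 0
  5))))), (.s k1 k2 0 (.s k17 k34 4 (.s k41 k61 5 (.s k19 k35 3 (.s k25 k29 1 (.d k22 k28 k60 2
  6)))))), (.s k17 k34 4 (.s k42 k63 6 (.s k25 k29 1 (.s k8 k59 4 (.d k12 k4 k38 1 6)))))] (.c k26
  (.q k37 [(.s k1 k2 0 (.s k17 k34 4 (.s k33 k49 3 (.d k41 k45 k61 1 5)))), (.s k34 k17 4 (.s k42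
  k63 6 (.s k35 k19 3 (.d k32 k47 k33 2 0)))), (.s k1 k2 0 (.s k42 k63 6 (.s k41 k61 5 (.s k60 k22 6
  (.d k40 k43 k20 0 5)))))] (.c k18 (.l (.s k1 k2 0 (.s k41 k61 5 (.s k33 k45 1 (.d k17 k34 k49 4
  3))))) .n)) (.c k37 (.q k26 [(.s k17 k34 4 (.s k19 k35 3 (.d k16 k18 k31 0 2))), (.s k1 k2 0 (.s
  k42 k63 6 (.s k41 k61 5 (.s k60 k22 6 (.d k40 k43 k20 0 5)))))] (.c k31 (.l (.s k1 k2 0 (.s k63
  k42 6 (.s k41 k61 5 (.s k22 k60 6 (.d k23 k20 k43 0 5)))))) .n)) .n))) (.c k186 (.q k117 [(.s k1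
  k2 0 (.s k42 k63 6 (.s k41 k61 5 (.s k60 k22 6 (.d k40 k43 k20 0 5))))), (.s k1 k2 0 (.s k17 k34 4
  (.s k41 k61 5 (.s k19 k35 3 (.s k25 k29 1 (.d k22 k28 k60 2 6)))))), (.s k17 k34 4 (.s k42 k63 6
  (.s k25 k29 1 (.s k8 k59 4 (.d k12 k4 k38 1 6)))))] (.c k26 (.q k37 [(.s k1 k2 0 (.s k17 k34 4 (.s
  k33 k49 3 (.d k41 k45 k61 1 5)))), (.s k34 k17 4 (.s k42 k63 6 (.s k35 k19 3 (.d k32 k47 k33 2
  0)))), (.s k1 k2 0 (.s k42 k63 6 (.s k41 k61 5 (.s k60 k22 6 (.d k40 k43 k20 0 5)))))] (.c k18 (.l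
  (.s k1 k2 0 (.s k41 k61 5 (.s k33 k45 1 (.d k17 k34 k49 4 3))))) .n)) (.c k37 (.q k26 [(.s k17 k34
  4 (.s k19 k35 3 (.d k16 k18 k31 0 2))), (.s k1 k2 0 (.s k42 k63 6 (.s k41 k61 5 (.s k60 k22 6 (.d
  k40 k43 k20 0 5)))))] (.c k31 (.l (.s k1 k2 0 (.s k63 k42 6 (.s k41 k61 5 (.s k22 k60 6 (.d k23
  k20 k43 0 5)))))) .n)) .n))) .n))))) (.c k117 (.q k186 [(.s k1 k2 0 (.s k42 k63 6 (.s k41 k61 5
  (.s k60 k22 6 (.d k40 k43 k20 0 5))))), (.s k1 k2 0 (.s k17 k34 4 (.s k41 k61 5 (.s k19 k35 3 (.s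
  k25 k29 1 (.d k22 k28 k60 2 6)))))), (.s k17 k34 4 (.s k42 k63 6 (.s k25 k29 1 (.s k8 k59 4 (.d
  k12 k4 k38 1 6)))))] (.c k26 (.q k37 [(.s k1 k2 0 (.s k17 k34 4 (.s k33 k49 3 (.d k41 k45 k61 1
  5)))), (.s k34 k17 4 (.s k42 k63 6 (.s k35 k19 3 (.d k32 k47 k33 2 0)))), (.s k1 k2 0 (.s k42 k63
  6 (.s k41 k61 5 (.s k60 k22 6 (.d k40 k43 k20 0 5)))))] (.c k18 (.l (.s k1 k2 0 (.s k41 k61 5 (.s
  k33 k45 1 (.d k17 k34 k49 4 3))))) (.c k95 (.q k175 [(.s k1 k2 0 (.s k17 k34 4 (.s k33 k49 3 (.d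
  k41 k45 k61 1 5)))), (.s k34 k17 4 (.s k42 k63 6 (.s k35 k19 3 (.d k32 k47 k33 2 0)))), (.s k1 k2
  0 (.s k42 k63 6 (.s k41 k61 5 (.s k60 k22 6 (.d k40 k43 k20 0 5)))))] (.c k18 (.l (.s k1 k2 0 (.s
  k41 k61 5 (.s k33 k45 1 (.d k17 k34 k49 4 3))))) .n)) (.c k175 (.q k95 [(.s k1 k2 0 (.s k17 k34 4
  (.s k33 k49 3 (.d k41 k45 k61 1 5)))), (.s k34 k17 4 (.s k42 k63 6 (.s k35 k19 3 (.d k32 k47 k33 2
  0)))), (.s k1 k2 0 (.s k42 k63 6 (.s k41 k61 5 (.s k60 k22 6 (.d k40 k43 k20 0 5)))))] (.c k18 (.l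
  (.s k1 k2 0 (.s k41 k61 5 (.s k33 k45 1 (.d k17 k34 k49 4 3))))) .n)) .n)))) (.c k37 (.q k26 [(.s
  k17 k34 4 (.s k19 k35 3 (.d k16 k18 k31 0 2))), (.s k1 k2 0 (.s k42 k63 6 (.s k41 k61 5 (.s k60
  k22 6 (.d k40 k43 k20 0 5)))))] (.c k31 (.l (.s k1 k2 0 (.s k63 k42 6 (.s k41 k61 5 (.s k22 k60 6
  (.d k23 k20 k43 0 5)))))) (.c k95 (.q k175 [(.s k17 k34 4 (.s k19 k35 3 (.d k16 k18 k31 0 2))),
  (.s k1 k2 0 (.s k42 k63 6 (.s k41 k61 5 (.s k60 k22 6 (.d k40 k43 k20 0 5)))))] (.c k31 (.l (.s k1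
  k2 0 (.s k63 k42 6 (.s k41 k61 5 (.s k22 k60 6 (.d k23 k20 k43 0 5)))))) .n)) (.c k175 (.q k95
  [(.s k17 k34 4 (.s k19 k35 3 (.d k16 k18 k31 0 2))), (.s k1 k2 0 (.s k42 k63 6 (.s k41 k61 5 (.s
  k60 k22 6 (.d k40 k43 k20 0 5)))))] (.c k31 (.l (.s k1 k2 0 (.s k63 k42 6 (.s k41 k61 5 (.s k22
  k60 6 (.d k23 k20 k43 0 5)))))) .n)) .n)))) (.c k95 (.q k175 [(.s k1 k2 0 (.s k42 k63 6 (.s k41
  k61 5 (.s k60 k22 6 (.d k40 k43 k20 0 5))))), (.s k1 k2 0 (.s k17 k34 4 (.s k41 k61 5 (.s k19 k35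
  3 (.s k25 k29 1 (.d k22 k28 k60 2 6)))))), (.s k17 k34 4 (.s k42 k63 6 (.s k25 k29 1 (.s k8 k59 4
  (.d k12 k4 k38 1 6)))))] (.c k26 (.q k37 [(.s k1 k2 0 (.s k17 k34 4 (.s k33 k49 3 (.d k41 k45 k61
  1 5)))), (.s k34 k17 4 (.s k42 k63 6 (.s k35 k19 3 (.d k32 k47 k33 2 0)))), (.s k1 k2 0 (.s k42
  k63 6 (.s k41 k61 5 (.s k60 k22 6 (.d k40 k43 k20 0 5)))))] (.c k18 (.l (.s k1 k2 0 (.s k41 k61 5
  (.s k33 k45 1 (.d k17 k34 k49 4 3))))) .n)) (.c k37 (.q k26 [(.s k17 k34 4 (.s k19 k35 3 (.d k16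
  k18 k31 0 2))), (.s k1 k2 0 (.s k42 k63 6 (.s k41 k61 5 (.s k60 k22 6 (.d k40 k43 k20 0 5)))))]
  (.c k31 (.l (.s k1 k2 0 (.s k63 k42 6 (.s k41 k61 5 (.s k22 k60 6 (.d k23 k20 k43 0 5)))))) .n))
  .n))) (.c k175 (.q k95 [(.s k1 k2 0 (.s k42 k63 6 (.s k41 k61 5 (.s k60 k22 6 (.d k40 k43 k20 0
  5))))), (.s k1 k2 0 (.s k17 k34 4 (.s k41 k61 5 (.s k19 k35 3 (.s k25 k29 1 (.d k22 k28 k60 2
  6)))))), (.s k17 k34 4 (.s k42 k63 6 (.s k25 k29 1 (.s k8 k59 4 (.d k12 k4 k38 1 6)))))] (.c k26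
  (.q k37 [(.s k1 k2 0 (.s k17 k34 4 (.s k33 k49 3 (.d k41 k45 k61 1 5)))), (.s k34 k17 4 (.s k42
  k63 6 (.s k35 k19 3 (.d k32 k47 k33 2 0)))), (.s k1 k2 0 (.s k42 k63 6 (.s k41 k61 5 (.s k60 k22 6
  (.d k40 k43 k20 0 5)))))] (.c k18 (.l (.s k1 k2 0 (.s k41 k61 5 (.s k33 k45 1 (.d k17 k34 k49 4
  3))))) .n)) (.c k37 (.q k26 [(.s k17 k34 4 (.s k19 k35 3 (.d k16 k18 k31 0 2))), (.s k1 k2 0 (.s
  k42 k63 6 (.s k41 k61 5 (.s k60 k22 6 (.d k40 k43 k20 0 5)))))] (.c k31 (.l (.s k1 k2 0 (.s k63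
  k42 6 (.s k41 k61 5 (.s k22 k60 6 (.d k23 k20 k43 0 5)))))) .n)) .n))) .n))))) (.c k175 (.q k95
  [(.s k1 k2 0 (.s k42 k63 6 (.s k41 k61 5 (.s k60 k22 6 (.d k40 k43 k20 0 5))))), (.s k1 k2 0 (.s
  k17 k34 4 (.s k41 k61 5 (.s k19 k35 3 (.s k25 k29 1 (.d k22 k28 k60 2 6)))))), (.s k17 k34 4 (.s
  k42 k63 6 (.s k25 k29 1 (.s k8 k59 4 (.d k12 k4 k38 1 6)))))] (.c k26 (.q k37 [(.s k1 k2 0 (.s k17
  k34 4 (.s k33 k49 3 (.d k41 k45 k61 1 5)))), (.s k34 k17 4 (.s k42 k63 6 (.s k35 k19 3 (.d k32 k47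
  k33 2 0)))), (.s k1 k2 0 (.s k42 k63 6 (.s k41 k61 5 (.s k60 k22 6 (.d k40 k43 k20 0 5)))))] (.c
  k18 (.l (.s k1 k2 0 (.s k41 k61 5 (.s k33 k45 1 (.d k17 k34 k49 4 3))))) (.c k117 (.q k186 [(.s k1
  k2 0 (.s k17 k34 4 (.s k33 k49 3 (.d k41 k45 k61 1 5)))), (.s k34 k17 4 (.s k42 k63 6 (.s k35 k19
  3 (.d k32 k47 k33 2 0)))), (.s k1 k2 0 (.s k42 k63 6 (.s k41 k61 5 (.s k60 k22 6 (.d k40 k43 k20 0
  5)))))] (.c k18 (.l (.s k1 k2 0 (.s k41 k61 5 (.s k33 k45 1 (.d k17 k34 k49 4 3))))) .n)) (.c k186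
  (.q k117 [(.s k1 k2 0 (.s k17 k34 4 (.s k33 k49 3 (.d k41 k45 k61 1 5)))), (.s k34 k17 4 (.s k42
  k63 6 (.s k35 k19 3 (.d k32 k47 k33 2 0)))), (.s k1 k2 0 (.s k42 k63 6 (.s k41 k61 5 (.s k60 k22 6
  (.d k40 k43 k20 0 5)))))] (.c k18 (.l (.s k1 k2 0 (.s k41 k61 5 (.s k33 k45 1 (.d k17 k34 k49 4
  3))))) .n)) .n)))) (.c k37 (.q k26 [(.s k17 k34 4 (.s k19 k35 3 (.d k16 k18 k31 0 2))), (.s k1 k2
  0 (.s k42 k63 6 (.s k41 k61 5 (.s k60 k22 6 (.d k40 k43 k20 0 5)))))] (.c k31 (.l (.s k1 k2 0 (.s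
  k63 k42 6 (.s k41 k61 5 (.s k22 k60 6 (.d k23 k20 k43 0 5)))))) (.c k117 (.q k186 [(.s k17 k34 4
  (.s k19 k35 3 (.d k16 k18 k31 0 2))), (.s k1 k2 0 (.s k42 k63 6 (.s k41 k61 5 (.s k60 k22 6 (.d
  k40 k43 k20 0 5)))))] (.c k31 (.l (.s k1 k2 0 (.s k63 k42 6 (.s k41 k61 5 (.s k22 k60 6 (.d k23
  k20 k43 0 5)))))) .n)) (.c k186 (.q k117 [(.s k17 k34 4 (.s k19 k35 3 (.d k16 k18 k31 0 2))), (.s
  k1 k2 0 (.s k42 k63 6 (.s k41 k61 5 (.s k60 k22 6 (.d k40 k43 k20 0 5)))))] (.c k31 (.l (.s k1 k2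
  0 (.s k63 k42 6 (.s k41 k61 5 (.s k22 k60 6 (.d k23 k20 k43 0 5)))))) .n)) .n)))) (.c k117 (.q
  k186 [(.s k1 k2 0 (.s k42 k63 6 (.s k41 k61 5 (.s k60 k22 6 (.d k40 k43 k20 0 5))))), (.s k1 k2 0
  (.s k17 k34 4 (.s k41 k61 5 (.s k19 k35 3 (.s k25 k29 1 (.d k22 k28 k60 2 6)))))), (.s k17 k34 4
  (.s k42 k63 6 (.s k25 k29 1 (.s k8 k59 4 (.d k12 k4 k38 1 6)))))] (.c k26 (.q k37 [(.s k1 k2 0 (.s
  k17 k34 4 (.s k33 k49 3 (.d k41 k45 k61 1 5)))), (.s k34 k17 4 (.s k42 k63 6 (.s k35 k19 3 (.d k32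
  k47 k33 2 0)))), (.s k1 k2 0 (.s k42 k63 6 (.s k41 k61 5 (.s k60 k22 6 (.d k40 k43 k20 0 5)))))]
  (.c k18 (.l (.s k1 k2 0 (.s k41 k61 5 (.s k33 k45 1 (.d k17 k34 k49 4 3))))) .n)) (.c k37 (.q k26
  [(.s k17 k34 4 (.s k19 k35 3 (.d k16 k18 k31 0 2))), (.s k1 k2 0 (.s k42 k63 6 (.s k41 k61 5 (.s
  k60 k22 6 (.d k40 k43 k20 0 5)))))] (.c k31 (.l (.s k1 k2 0 (.s k63 k42 6 (.s k41 k61 5 (.s k22
  k60 6 (.d k23 k20 k43 0 5)))))) .n)) .n))) (.c k186 (.q k117 [(.s k1 k2 0 (.s k42 k63 6 (.s k41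
  k61 5 (.s k60 k22 6 (.d k40 k43 k20 0 5))))), (.s k1 k2 0 (.s k17 k34 4 (.s k41 k61 5 (.s k19 k35
  3 (.s k25 k29 1 (.d k22 k28 k60 2 6)))))), (.s k17 k34 4 (.s k42 k63 6 (.s k25 k29 1 (.s k8 k59 4
  (.d k12 k4 k38 1 6)))))] (.c k26 (.q k37 [(.s k1 k2 0 (.s k17 k34 4 (.s k33 k49 3 (.d k41 k45 k61
  1 5)))), (.s k34 k17 4 (.s k42 k63 6 (.s k35 k19 3 (.d k32 k47 k33 2 0)))), (.s k1 k2 0 (.s k42
  k63 6 (.s k41 k61 5 (.s k60 k22 6 (.d k40 k43 k20 0 5)))))] (.c k18 (.l (.s k1 k2 0 (.s k41 k61 5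
  (.s k33 k45 1 (.d k17 k34 k49 4 3))))) .n)) (.c k37 (.q k26 [(.s k17 k34 4 (.s k19 k35 3 (.d k16
  k18 k31 0 2))), (.s k1 k2 0 (.s k42 k63 6 (.s k41 k61 5 (.s k60 k22 6 (.d k40 k43 k20 0 5)))))]
  (.c k31 (.l (.s k1 k2 0 (.s k63 k42 6 (.s k41 k61 5 (.s k22 k60 6 (.d k23 k20 k43 0 5)))))) .n))
  .n))) .n))))) (.c k186 (.q k117 [(.s k1 k2 0 (.s k42 k63 6 (.s k41 k61 5 (.s k60 k22 6 (.d k40 k43
  k20 0 5))))), (.s k1 k2 0 (.s k17 k34 4 (.s k41 k61 5 (.s k19 k35 3 (.s k25 k29 1 (.d k22 k28 k60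
  2 6)))))), (.s k17 k34 4 (.s k42 k63 6 (.s k25 k29 1 (.s k8 k59 4 (.d k12 k4 k38 1 6)))))] (.c k26
  (.q k37 [(.s k1 k2 0 (.s k17 k34 4 (.s k33 k49 3 (.d k41 k45 k61 1 5)))), (.s k34 k17 4 (.s k42
  k63 6 (.s k35 k19 3 (.d k32 k47 k33 2 0)))), (.s k1 k2 0 (.s k42 k63 6 (.s k41 k61 5 (.s k60 k22 6
  (.d k40 k43 k20 0 5)))))] (.c k18 (.l (.s k1 k2 0 (.s k41 k61 5 (.s k33 k45 1 (.d k17 k34 k49 4
  3))))) (.c k95 (.q k175 [(.s k1 k2 0 (.s k17 k34 4 (.s k33 k49 3 (.d k41 k45 k61 1 5)))), (.s k34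
  k17 4 (.s k42 k63 6 (.s k35 k19 3 (.d k32 k47 k33 2 0)))), (.s k1 k2 0 (.s k42 k63 6 (.s k41 k61 5
  (.s k60 k22 6 (.d k40 k43 k20 0 5)))))] (.c k18 (.l (.s k1 k2 0 (.s k41 k61 5 (.s k33 k45 1 (.d
  k17 k34 k49 4 3))))) .n)) (.c k175 (.q k95 [(.s k1 k2 0 (.s k17 k34 4 (.s k33 k49 3 (.d k41 k45
  k61 1 5)))), (.s k34 k17 4 (.s k42 k63 6 (.s k35 k19 3 (.d k32 k47 k33 2 0)))), (.s k1 k2 0 (.s
  k42 k63 6 (.s k41 k61 5 (.s k60 k22 6 (.d k40 k43 k20 0 5)))))] (.c k18 (.l (.s k1 k2 0 (.s k41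
  k61 5 (.s k33 k45 1 (.d k17 k34 k49 4 3))))) .n)) .n)))) (.c k37 (.q k26 [(.s k17 k34 4 (.s k19
  k35 3 (.d k16 k18 k31 0 2))), (.s k1 k2 0 (.s k42 k63 6 (.s k41 k61 5 (.s k60 k22 6 (.d k40 k43
  k20 0 5)))))] (.c k31 (.l (.s k1 k2 0 (.s k63 k42 6 (.s k41 k61 5 (.s k22 k60 6 (.d k23 k20 k43 0
  5)))))) (.c k95 (.q k175 [(.s k17 k34 4 (.s k19 k35 3 (.d k16 k18 k31 0 2))), (.s k1 k2 0 (.s k42
  k63 6 (.s k41 k61 5 (.s k60 k22 6 (.d k40 k43 k20 0 5)))))] (.c k31 (.l (.s k1 k2 0 (.s k63 k42 6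
  (.s k41 k61 5 (.s k22 k60 6 (.d k23 k20 k43 0 5)))))) .n)) (.c k175 (.q k95 [(.s k17 k34 4 (.s k19
  k35 3 (.d k16 k18 k31 0 2))), (.s k1 k2 0 (.s k42 k63 6 (.s k41 k61 5 (.s k60 k22 6 (.d k40 k43
  k20 0 5)))))] (.c k31 (.l (.s k1 k2 0 (.s k63 k42 6 (.s k41 k61 5 (.s k22 k60 6 (.d k23 k20 k43 0
  5)))))) .n)) .n)))) (.c k95 (.q k175 [(.s k1 k2 0 (.s k42 k63 6 (.s k41 k61 5 (.s k60 k22 6 (.d
  k40 k43 k20 0 5))))), (.s k1 k2 0 (.s k17 k34 4 (.s k41 k61 5 (.s k19 k35 3 (.s k25 k29 1 (.d k22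
  k28 k60 2 6)))))), (.s k17 k34 4 (.s k42 k63 6 (.s k25 k29 1 (.s k8 k59 4 (.d k12 k4 k38 1 6)))))]
  (.c k26 (.q k37 [(.s k1 k2 0 (.s k17 k34 4 (.s k33 k49 3 (.d k41 k45 k61 1 5)))), (.s k34 k17 4
  (.s k42 k63 6 (.s k35 k19 3 (.d k32 k47 k33 2 0)))), (.s k1 k2 0 (.s k42 k63 6 (.s k41 k61 5 (.s
  k60 k22 6 (.d k40 k43 k20 0 5)))))] (.c k18 (.l (.s k1 k2 0 (.s k41 k61 5 (.s k33 k45 1 (.d k17
  k34 k49 4 3))))) .n)) (.c k37 (.q k26 [(.s k17 k34 4 (.s k19 k35 3 (.d k16 k18 k31 0 2))), (.s k1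
  k2 0 (.s k42 k63 6 (.s k41 k61 5 (.s k60 k22 6 (.d k40 k43 k20 0 5)))))] (.c k31 (.l (.s k1 k2 0
  (.s k63 k42 6 (.s k41 k61 5 (.s k22 k60 6 (.d k23 k20 k43 0 5)))))) .n)) .n))) (.c k175 (.q k95
  [(.s k1 k2 0 (.s k42 k63 6 (.s k41 k61 5 (.s k60 k22 6 (.d k40 k43 k20 0 5))))), (.s k1 k2 0 (.s
  k17 k34 4 (.s k41 k61 5 (.s k19 k35 3 (.s k25 k29 1 (.d k22 k28 k60 2 6)))))), (.s k17 k34 4 (.s
  k42 k63 6 (.s k25 k29 1 (.s k8 k59 4 (.d k12 k4 k38 1 6)))))] (.c k26 (.q k37 [(.s k1 k2 0 (.s k17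
  k34 4 (.s k33 k49 3 (.d k41 k45 k61 1 5)))), (.s k34 k17 4 (.s k42 k63 6 (.s k35 k19 3 (.d k32 k47
  k33 2 0)))), (.s k1 k2 0 (.s k42 k63 6 (.s k41 k61 5 (.s k60 k22 6 (.d k40 k43 k20 0 5)))))] (.c
  k18 (.l (.s k1 k2 0 (.s k41 k61 5 (.s k33 k45 1 (.d k17 k34 k49 4 3))))) .n)) (.c k37 (.q k26 [(.s
  k17 k34 4 (.s k19 k35 3 (.d k16 k18 k31 0 2))), (.s k1 k2 0 (.s k42 k63 6 (.s k41 k61 5 (.s k60
  k22 6 (.d k40 k43 k20 0 5)))))] (.c k31 (.l (.s k1 k2 0 (.s k63 k42 6 (.s k41 k61 5 (.s k22 k60 6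
  (.d k23 k20 k43 0 5)))))) .n)) .n))) .n))))) .n))))))) (.c k49 (.l (.s k2 k1 0 (.s k35 k19 3 (.s
  k34 k17 4 (.s k33 k32 0 (.d k18 k50 k48 3 4)))))) (.c k50 (.l (.s k1 k2 0 (.s k19 k35 3 (.s k17
  k34 4 (.s k18 k16 0 (.d k33 k49 k48 3 4)))))) (.c k95 (.q k175 [(.s k1 k2 0 (.s k17 k34 4 (.s k33
  k49 3 (.s k19 k35 3 (.d k18 k16 k48 0 4)))))] (.c k1 (.q k243 [(.s k17 k34 4 (.s k81 k162 12 (.s
  k145 k209 7 (.s k115 k179 7 (.d k98 k64 k192 4 12))))), (.s k19 k35 3 (.s k83 k163 11 (.s k147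
  k211 7 (.s k99 k195 11 (.d k115 k67 k179 3 7))))), (.s k17 k34 4 (.s k81 k162 12 (.s k19 k35 3 (.s
  k83 k163 11 (.s k16 k18 0 (.d k211 k147 k146 7 8))))))] .n) (.c k2 (.q k243 [(.s k34 k17 4 (.s
  k179 k115 7 (.s k162 k81 12 (.s k145 k128 4 (.d k98 k226 k192 7 12))))), (.s k19 k35 3 (.s k83
  k163 11 (.s k147 k211 7 (.s k99 k195 11 (.d k115 k67 k179 3 7))))), (.s k17 k34 4 (.s k81 k162 12
  (.s k19 k35 3 (.s k83 k163 11 (.s k145 k209 7 (.d k82 k80 k208 0 8))))))] .n) (.c k16 (.l (.s k2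
  k1 0 (.s k34 k17 4 (.s k18 k50 3 (.s k33 k48 4 (.d k35 k19 k32 3 0)))))) (.c k17 (.q k243 [(.s k1
  k2 0 (.s k81 k162 12 (.s k161 k241 11 (.s k83 k163 11 (.d k82 k80 k240 0 12))))), (.s k19 k35 3
  (.s k83 k163 11 (.s k147 k211 7 (.s k99 k195 11 (.d k115 k67 k179 3 7))))), (.s k1 k2 0 (.s k81
  k162 12 (.s k161 k241 11 (.s k35 k19 3 (.s k98 k224 8 (.d k115 k64 k179 4 7))))))] .n) (.c k18 (.q
  k243 [(.s k1 k2 0 (.s k81 k162 12 (.s k161 k241 11 (.s k83 k163 11 (.d k82 k80 k240 0 12))))), (.s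
  k19 k35 3 (.s k83 k163 11 (.s k147 k211 7 (.s k99 k195 11 (.d k115 k67 k179 3 7))))), (.s k17 k34
  4 (.s k81 k162 12 (.s k145 k209 7 (.s k98 k192 12 (.d k115 k64 k179 4 7)))))] .n) (.c k19 (.q k137
  [(.s k1 k2 0 (.s k69 k205 9 (.s k138 k207 10 (.s k204 k70 10 (.d k136 k139 k68 0 9))))), (.s k1 k2
  0 (.s k17 k34 4 (.s k49 k33 3 (.s k205 k69 9 (.s k153 k101 13 (.s k169 k185 3 (.d k85 k221 k253 9
  13))))))), (.s k204 k70 10 (.s k136 k68 9 (.s k153 k102 14 (.s k170 k187 4 (.s k169 k185 3 (.s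
  k168 k171 0 (.d k252 k86 k84 14 13)))))))] (.c k69 (.l (.s k1 k2 0 (.s k17 k34 4 (.s k204 k70 10
  (.s k153 k102 14 (.s k85 k221 9 (.d k169 k185 k253 3 13))))))) .n)) (.c k33 (.q k243 [(.s k1 k2 0
  (.s k81 k162 12 (.s k161 k241 11 (.s k83 k163 11 (.d k82 k80 k240 0 12))))), (.s k17 k34 4 (.s k81
  k162 12 (.s k145 k209 7 (.s k98 k192 12 (.d k115 k64 k179 4 7))))), (.s k19 k35 3 (.s k83 k163 11
  (.s k147 k211 7 (.s k99 k195 11 (.d k115 k67 k179 3 7)))))] .n) (.c k34 (.q k243 [(.s k2 k1 0 (.s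
  k163 k83 11 (.s k162 k81 12 (.s k161 k160 0 (.d k82 k242 k240 11 12))))), (.s k19 k35 3 (.s k83
  k163 11 (.s k147 k211 7 (.s k99 k195 11 (.d k115 k67 k179 3 7))))), (.s k1 k2 0 (.s k81 k162 12
  (.s k161 k241 11 (.s k35 k19 3 (.s k98 k224 8 (.d k115 k64 k179 4 7))))))] .n) (.c k35 (.q k21
  [(.s k1 k2 0 (.s k42 k63 6 (.s k41 k61 5 (.s k60 k22 6 (.d k40 k43 k20 0 5))))), (.s k1 k2 0 (.s
  k17 k34 4 (.s k41 k61 5 (.s k25 k29 1 (.s k9 k57 3 (.d k12 k6 k38 2 6)))))), (.s k17 k34 4 (.s k42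
  k63 6 (.s k25 k29 1 (.s k8 k59 4 (.d k12 k4 k38 1 6)))))] .n) (.c k48 (.q k21 [(.s k1 k2 0 (.s k42
  k63 6 (.s k41 k61 5 (.s k60 k22 6 (.d k40 k43 k20 0 5))))), (.s k1 k2 0 (.s k17 k34 4 (.s k41 k61
  5 (.s k19 k35 3 (.s k25 k29 1 (.d k22 k28 k60 2 6)))))), (.s k17 k34 4 (.s k42 k63 6 (.s k25 k29 1
  (.s k8 k59 4 (.d k12 k4 k38 1 6)))))] (.c k26 (.q k37 [(.s k1 k2 0 (.s k17 k34 4 (.s k33 k49 3 (.d
  k41 k45 k61 1 5)))), (.s k34 k17 4 (.s k42 k63 6 (.s k35 k19 3 (.d k32 k47 k33 2 0)))), (.s k1 k2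
  0 (.s k42 k63 6 (.s k41 k61 5 (.s k60 k22 6 (.d k40 k43 k20 0 5)))))] (.c k18 (.l (.s k1 k2 0 (.s
  k41 k61 5 (.s k33 k45 1 (.d k17 k34 k49 4 3))))) (.c k117 (.q k186 [(.s k1 k2 0 (.s k17 k34 4 (.s
  k33 k49 3 (.d k41 k45 k61 1 5)))), (.s k34 k17 4 (.s k42 k63 6 (.s k35 k19 3 (.d k32 k47 k33 2
  0)))), (.s k1 k2 0 (.s k42 k63 6 (.s k41 k61 5 (.s k60 k22 6 (.d k40 k43 k20 0 5)))))] (.c k18 (.l
  (.s k1 k2 0 (.s k41 k61 5 (.s k33 k45 1 (.d k17 k34 k49 4 3))))) .n)) (.c k186 (.q k117 [(.s k1 k2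
  0 (.s k17 k34 4 (.s k33 k49 3 (.d k41 k45 k61 1 5)))), (.s k34 k17 4 (.s k42 k63 6 (.s k35 k19 3
  (.d k32 k47 k33 2 0)))), (.s k1 k2 0 (.s k42 k63 6 (.s k41 k61 5 (.s k60 k22 6 (.d k40 k43 k20 0
  5)))))] (.c k18 (.l (.s k1 k2 0 (.s k41 k61 5 (.s k33 k45 1 (.d k17 k34 k49 4 3))))) .n)) .n))))
  (.c k37 (.q k26 [(.s k17 k34 4 (.s k19 k35 3 (.d k16 k18 k31 0 2))), (.s k1 k2 0 (.s k42 k63 6 (.s
  k41 k61 5 (.s k60 k22 6 (.d k40 k43 k20 0 5)))))] (.c k31 (.l (.s k1 k2 0 (.s k63 k42 6 (.s k41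
  k61 5 (.s k22 k60 6 (.d k23 k20 k43 0 5)))))) (.c k117 (.q k186 [(.s k17 k34 4 (.s k19 k35 3 (.d
  k16 k18 k31 0 2))), (.s k1 k2 0 (.s k42 k63 6 (.s k41 k61 5 (.s k60 k22 6 (.d k40 k43 k20 0
  5)))))] (.c k31 (.l (.s k1 k2 0 (.s k63 k42 6 (.s k41 k61 5 (.s k22 k60 6 (.d k23 k20 k43 0
  5)))))) .n)) (.c k186 (.q k117 [(.s k17 k34 4 (.s k19 k35 3 (.d k16 k18 k31 0 2))), (.s k1 k2 0
  (.s k42 k63 6 (.s k41 k61 5 (.s k60 k22 6 (.d k40 k43 k20 0 5)))))] (.c k31 (.l (.s k1 k2 0 (.s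
  k63 k42 6 (.s k41 k61 5 (.s k22 k60 6 (.d k23 k20 k43 0 5)))))) .n)) .n)))) (.c k117 (.q k186 [(.s
  k1 k2 0 (.s k42 k63 6 (.s k41 k61 5 (.s k60 k22 6 (.d k40 k43 k20 0 5))))), (.s k1 k2 0 (.s k17
  k34 4 (.s k41 k61 5 (.s k19 k35 3 (.s k25 k29 1 (.d k22 k28 k60 2 6)))))), (.s k17 k34 4 (.s k42
  k63 6 (.s k25 k29 1 (.s k8 k59 4 (.d k12 k4 k38 1 6)))))] (.c k26 (.q k37 [(.s k1 k2 0 (.s k17 k34
  4 (.s k33 k49 3 (.d k41 k45 k61 1 5)))), (.s k34 k17 4 (.s k42 k63 6 (.s k35 k19 3 (.d k32 k47 k33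
  2 0)))), (.s k1 k2 0 (.s k42 k63 6 (.s k41 k61 5 (.s k60 k22 6 (.d k40 k43 k20 0 5)))))] (.c k18
  (.l (.s k1 k2 0 (.s k41 k61 5 (.s k33 k45 1 (.d k17 k34 k49 4 3))))) .n)) (.c k37 (.q k26 [(.s k17
  k34 4 (.s k19 k35 3 (.d k16 k18 k31 0 2))), (.s k1 k2 0 (.s k42 k63 6 (.s k41 k61 5 (.s k60 k22 6
  (.d k40 k43 k20 0 5)))))] (.c k31 (.l (.s k1 k2 0 (.s k63 k42 6 (.s k41 k61 5 (.s k22 k60 6 (.d
  k23 k20 k43 0 5)))))) .n)) .n))) (.c k186 (.q k117 [(.s k1 k2 0 (.s k42 k63 6 (.s k41 k61 5 (.s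
  k60 k22 6 (.d k40 k43 k20 0 5))))), (.s k1 k2 0 (.s k17 k34 4 (.s k41 k61 5 (.s k19 k35 3 (.s k25
  k29 1 (.d k22 k28 k60 2 6)))))), (.s k17 k34 4 (.s k42 k63 6 (.s k25 k29 1 (.s k8 k59 4 (.d k12 k4
  k38 1 6)))))] (.c k26 (.q k37 [(.s k1 k2 0 (.s k17 k34 4 (.s k33 k49 3 (.d k41 k45 k61 1 5)))),
  (.s k34 k17 4 (.s k42 k63 6 (.s k35 k19 3 (.d k32 k47 k33 2 0)))), (.s k1 k2 0 (.s k42 k63 6 (.s
  k41 k61 5 (.s k60 k22 6 (.d k40 k43 k20 0 5)))))] (.c k18 (.l (.s k1 k2 0 (.s k41 k61 5 (.s k33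
  k45 1 (.d k17 k34 k49 4 3))))) .n)) (.c k37 (.q k26 [(.s k17 k34 4 (.s k19 k35 3 (.d k16 k18 k31 0
  2))), (.s k1 k2 0 (.s k42 k63 6 (.s k41 k61 5 (.s k60 k22 6 (.d k40 k43 k20 0 5)))))] (.c k31 (.l
  (.s k1 k2 0 (.s k63 k42 6 (.s k41 k61 5 (.s k22 k60 6 (.d k23 k20 k43 0 5)))))) .n)) .n))) .n)))))
  (.c k49 (.l (.s k2 k1 0 (.s k35 k19 3 (.s k34 k17 4 (.s k33 k32 0 (.d k18 k50 k48 3 4)))))) (.c
  k50 (.l (.s k1 k2 0 (.s k19 k35 3 (.s k17 k34 4 (.s k18 k16 0 (.d k33 k49 k48 3 4))))))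
  .n))))))))))))) (.c k175 (.q k95 [(.s k1 k2 0 (.s k17 k34 4 (.s k33 k49 3 (.s k19 k35 3 (.d k18
  k16 k48 0 4)))))] (.c k1 (.q k63 [(.s k17 k34 4 (.s k21 k42 6 (.s k25 k29 1 (.s k55 k59 1 (.d k38
  k4 k12 4 6))))), (.s k19 k35 3 (.s k23 k43 5 (.s k31 k27 1 (.s k223 k159 7 (.s k87 k155 9 (.s k151
  k215 7 (.d k91 k83 k211 1 9)))))))] (.c k59 (.l (.s k17 k34 4 (.s k21 k42 6 (.s k19 k35 3 (.s k23
  k43 5 (.s k16 k18 0 (.d k31 k27 k26 1 2))))))) .n)) (.c k2 (.q k63 [(.s k34 k17 4 (.s k59 k55 1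
  (.s k42 k21 6 (.s k25 k8 4 (.d k38 k46 k12 1 6))))), (.s k19 k35 3 (.s k23 k43 5 (.s k31 k27 1 (.s
  k223 k159 7 (.s k87 k155 9 (.s k151 k215 7 (.d k91 k83 k211 1 9)))))))] (.c k59 (.l (.s k17 k34 4
  (.s k21 k42 6 (.s k19 k35 3 (.s k23 k43 5 (.s k25 k29 1 (.d k22 k20 k28 0 2))))))) .n)) (.c k16
  (.l (.s k2 k1 0 (.s k34 k17 4 (.s k18 k50 3 (.s k33 k48 4 (.d k35 k19 k32 3 0)))))) (.c k17 (.q
  k63 [(.s k1 k2 0 (.s k21 k42 6 (.s k41 k61 5 (.s k23 k43 5 (.d k22 k20 k60 0 6))))), (.s k19 k35 3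
  (.s k23 k43 5 (.s k31 k27 1 (.s k223 k159 7 (.s k87 k155 9 (.s k151 k215 7 (.d k91 k83 k211 1
  9))))))), (.s k21 k42 6 (.s k35 k19 3 (.s k55 k59 1 (.s k38 k4 4 (.s k41 k44 2 (.d k1 k2 k61 0
  5))))))] .n) (.c k18 (.q k63 [(.s k2 k1 0 (.s k43 k23 5 (.s k42 k21 6 (.s k41 k40 0 (.d k22 k62
  k60 5 6))))), (.s k34 k17 4 (.s k42 k21 6 (.s k38 k46 1 (.s k25 k12 6 (.d k59 k55 k8 1 4))))), (.s
  k19 k35 3 (.s k23 k43 5 (.s k31 k27 1 (.s k223 k159 7 (.s k87 k155 9 (.s k151 k215 7 (.d k91 k83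
  k211 1 9)))))))] .n) (.c k19 (.q k137 [(.s k1 k2 0 (.s k69 k205 9 (.s k138 k207 10 (.s k204 k70 10
  (.d k136 k139 k68 0 9))))), (.s k1 k2 0 (.s k17 k34 4 (.s k49 k33 3 (.s k205 k69 9 (.s k153 k101
  13 (.s k169 k185 3 (.d k85 k221 k253 9 13))))))), (.s k204 k70 10 (.s k136 k68 9 (.s k153 k102 14
  (.s k170 k187 4 (.s k169 k185 3 (.s k168 k171 0 (.d k252 k86 k84 14 13)))))))] (.c k69 (.l (.s k1
  k2 0 (.s k17 k34 4 (.s k204 k70 10 (.s k153 k102 14 (.s k85 k221 9 (.d k169 k185 k253 3 13)))))))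
  .n)) (.c k33 (.q k63 [(.s k1 k2 0 (.s k21 k42 6 (.s k41 k61 5 (.s k23 k43 5 (.d k22 k20 k60 0
  6))))), (.s k17 k34 4 (.s k21 k42 6 (.s k25 k29 1 (.s k38 k12 6 (.d k55 k59 k4 1 4))))), (.s k19
  k35 3 (.s k23 k43 5 (.s k31 k27 1 (.s k223 k159 7 (.s k87 k155 9 (.s k151 k215 7 (.d k91 k83 k211
  1 9)))))))] .n) (.c k34 (.q k63 [(.s k2 k1 0 (.s k43 k23 5 (.s k42 k21 6 (.s k41 k40 0 (.d k22 k62
  k60 5 6))))), (.s k19 k35 3 (.s k23 k43 5 (.s k31 k27 1 (.s k223 k159 7 (.s k87 k155 9 (.s k151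
  k215 7 (.d k91 k83 k211 1 9))))))), (.s k21 k42 6 (.s k35 k19 3 (.s k55 k59 1 (.s k38 k4 4 (.s k41
  k44 2 (.d k1 k2 k61 0 5))))))] .n) (.c k35 (.q k240 [(.s k1 k2 0 (.s k160 k80 11 (.s k161 k82 12
  (.s k81 k241 11 (.d k162 k163 k243 0 12))))), (.s k2 k1 0 (.s k34 k17 4 (.s k50 k18 3 (.s k114
  k177 8 (.s k242 k178 7 (.d k82 k162 k161 11 12)))))), (.s k17 k34 4 (.s k80 k160 11 (.s k82 k161
  12 (.s k114 k177 8 (.s k98 k66 3 (.s k145 k192 12 (.d k81 k83 k209 0 7)))))))] (.c k82 (.q k21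
  [(.s k1 k2 0 (.s k42 k63 6 (.s k41 k61 5 (.s k60 k22 6 (.d k40 k43 k20 0 5))))), (.s k17 k34 4 (.s
  k42 k63 6 (.s k25 k29 1 (.s k8 k59 4 (.d k12 k4 k38 1 6))))), (.s k1 k2 0 (.s k17 k34 4 (.s k41
  k61 5 (.s k25 k29 1 (.s k9 k57 3 (.d k12 k6 k38 2 6))))))] .n) (.c k161 (.l (.s k2 k1 0 (.s k34
  k17 4 (.s k50 k18 3 (.s k114 k177 8 (.s k242 k178 7 (.s k162 k82 11 (.d k243 k241 k81 0 12))))))))
  (.c k162 (.l (.s k17 k34 4 (.s k161 k82 12 (.s k177 k114 8 (.s k145 k129 3 (.s k81 k209 7 (.d k1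
  k2 k241 0 11))))))) .n)))) (.c k48 (.q k63 [(.s k1 k2 0 (.s k21 k42 6 (.s k41 k61 5 (.s k23 k43 5
  (.d k22 k20 k60 0 6))))), (.s k17 k34 4 (.s k21 k42 6 (.s k25 k29 1 (.s k38 k12 6 (.d k55 k59 k4 1
  4))))), (.s k19 k35 3 (.s k23 k43 5 (.s k31 k27 1 (.s k223 k159 7 (.s k87 k155 9 (.s k151 k215 7
  (.d k91 k83 k211 1 9)))))))] (.c k26 (.q k37 [(.s k35 k19 3 (.s k43 k23 5 (.s k47 k39 1 (.d k42
  k32 k21 2 6)))), (.s k1 k2 0 (.s k17 k34 4 (.s k21 k42 6 (.s k33 k49 3 (.d k41 k45 k61 1 5)))))]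
  (.c k21 (.l (.s k34 k17 4 (.s k35 k19 3 (.s k43 k23 5 (.s k32 k33 0 (.d k47 k39 k42 1 2)))))) (.c
  k42 (.l (.s k1 k2 0 (.s k17 k34 4 (.s k33 k49 3 (.s k41 k45 1 (.s k61 k21 5 (.d k60 k62 k22 0
  6))))))) (.c k117 (.q k186 [(.s k35 k19 3 (.s k43 k23 5 (.s k47 k39 1 (.d k42 k32 k21 2 6)))), (.s
  k1 k2 0 (.s k17 k34 4 (.s k21 k42 6 (.s k33 k49 3 (.d k41 k45 k61 1 5)))))] (.c k21 (.l (.s k34
  k17 4 (.s k35 k19 3 (.s k43 k23 5 (.s k32 k33 0 (.d k47 k39 k42 1 2)))))) (.c k42 (.l (.s k1 k2 0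
  (.s k17 k34 4 (.s k33 k49 3 (.s k41 k45 1 (.s k61 k21 5 (.d k60 k62 k22 0 6))))))) .n))) (.c k186
  (.q k117 [(.s k35 k19 3 (.s k43 k23 5 (.s k47 k39 1 (.d k42 k32 k21 2 6)))), (.s k1 k2 0 (.s k17
  k34 4 (.s k21 k42 6 (.s k33 k49 3 (.d k41 k45 k61 1 5)))))] (.c k21 (.l (.s k34 k17 4 (.s k35 k19
  3 (.s k43 k23 5 (.s k32 k33 0 (.d k47 k39 k42 1 2)))))) (.c k42 (.l (.s k1 k2 0 (.s k17 k34 4 (.s
  k33 k49 3 (.s k41 k45 1 (.s k61 k21 5 (.d k60 k62 k22 0 6))))))) .n))) .n))))) (.c k37 (.q k26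
  [(.s k19 k35 3 (.s k23 k43 5 (.s k31 k27 1 (.d k21 k16 k42 2 6)))), (.s k2 k1 0 (.s k34 k17 4 (.s
  k18 k50 3 (.s k22 k30 1 (.s k62 k42 5 (.d k60 k61 k41 0 6))))))] (.c k42 (.l (.s k17 k34 4 (.s k19
  k35 3 (.s k23 k43 5 (.s k16 k18 0 (.d k31 k27 k21 1 2)))))) (.c k47 (.l (.s k17 k34 4 (.s k19 k35
  3 (.s k16 k18 0 (.d k21 k31 k42 2 6))))) (.c k117 (.q k186 [(.s k19 k35 3 (.s k23 k43 5 (.s k31
  k27 1 (.d k21 k16 k42 2 6)))), (.s k2 k1 0 (.s k34 k17 4 (.s k18 k50 3 (.s k22 k30 1 (.s k62 k42 5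
  (.d k60 k61 k41 0 6))))))] (.c k42 (.l (.s k17 k34 4 (.s k19 k35 3 (.s k23 k43 5 (.s k16 k18 0 (.d
  k31 k27 k21 1 2)))))) (.c k47 (.l (.s k17 k34 4 (.s k19 k35 3 (.s k16 k18 0 (.d k21 k31 k42 2
  6))))) .n))) (.c k186 (.q k117 [(.s k19 k35 3 (.s k23 k43 5 (.s k31 k27 1 (.d k21 k16 k42 2 6)))),
  (.s k2 k1 0 (.s k34 k17 4 (.s k18 k50 3 (.s k22 k30 1 (.s k62 k42 5 (.d k60 k61 k41 0 6))))))] (.c
  k42 (.l (.s k17 k34 4 (.s k19 k35 3 (.s k23 k43 5 (.s k16 k18 0 (.d k31 k27 k21 1 2)))))) (.c k47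
  (.l (.s k17 k34 4 (.s k19 k35 3 (.s k16 k18 0 (.d k21 k31 k42 2 6))))) .n))) .n))))) (.c k117 (.q
  k186 [(.s k1 k2 0 (.s k21 k42 6 (.s k41 k61 5 (.s k23 k43 5 (.d k22 k20 k60 0 6))))), (.s k17 k34
  4 (.s k21 k42 6 (.s k25 k29 1 (.s k38 k12 6 (.d k55 k59 k4 1 4))))), (.s k2 k1 0 (.s k34 k17 4 (.s
  k50 k18 3 (.s k254 k118 9 (.s k170 k86 13 (.s k102 k238 9 (.d k154 k138 k206 3 13)))))))] (.c k26
  (.q k37 [(.s k35 k19 3 (.s k43 k23 5 (.s k47 k39 1 (.d k42 k32 k21 2 6)))), (.s k1 k2 0 (.s k17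
  k34 4 (.s k21 k42 6 (.s k33 k49 3 (.d k41 k45 k61 1 5)))))] (.c k21 (.l (.s k34 k17 4 (.s k35 k19
  3 (.s k43 k23 5 (.s k32 k33 0 (.d k47 k39 k42 1 2)))))) (.c k42 (.l (.s k1 k2 0 (.s k17 k34 4 (.s
  k33 k49 3 (.s k41 k45 1 (.s k61 k21 5 (.d k60 k62 k22 0 6))))))) .n))) (.c k37 (.q k26 [(.s k19
  k35 3 (.s k23 k43 5 (.s k31 k27 1 (.d k21 k16 k42 2 6)))), (.s k2 k1 0 (.s k34 k17 4 (.s k18 k50 3
  (.s k22 k30 1 (.s k62 k42 5 (.d k60 k61 k41 0 6))))))] (.c k42 (.l (.s k17 k34 4 (.s k19 k35 3 (.s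
  k23 k43 5 (.s k16 k18 0 (.d k31 k27 k21 1 2)))))) (.c k47 (.l (.s k17 k34 4 (.s k19 k35 3 (.s k16
  k18 0 (.d k21 k31 k42 2 6))))) .n))) .n))) (.c k186 (.q k117 [(.s k1 k2 0 (.s k21 k42 6 (.s k41
  k61 5 (.s k23 k43 5 (.d k22 k20 k60 0 6))))), (.s k17 k34 4 (.s k21 k42 6 (.s k25 k29 1 (.s k38
  k12 6 (.d k55 k59 k4 1 4))))), (.s k1 k2 0 (.s k17 k34 4 (.s k49 k33 3 (.s k253 k185 9 (.s k85
  k169 13 (.s k153 k221 9 (.d k101 k69 k205 3 13)))))))] (.c k26 (.q k37 [(.s k35 k19 3 (.s k43 k23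
  5 (.s k47 k39 1 (.d k42 k32 k21 2 6)))), (.s k1 k2 0 (.s k17 k34 4 (.s k21 k42 6 (.s k33 k49 3 (.d
  k41 k45 k61 1 5)))))] (.c k21 (.l (.s k34 k17 4 (.s k35 k19 3 (.s k43 k23 5 (.s k32 k33 0 (.d k47
  k39 k42 1 2)))))) (.c k42 (.l (.s k1 k2 0 (.s k17 k34 4 (.s k33 k49 3 (.s k41 k45 1 (.s k61 k21 5
  (.d k60 k62 k22 0 6))))))) .n))) (.c k37 (.q k26 [(.s k19 k35 3 (.s k23 k43 5 (.s k31 k27 1 (.d
  k21 k16 k42 2 6)))), (.s k2 k1 0 (.s k34 k17 4 (.s k18 k50 3 (.s k22 k30 1 (.s k62 k42 5 (.d k60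
  k61 k41 0 6))))))] (.c k42 (.l (.s k17 k34 4 (.s k19 k35 3 (.s k23 k43 5 (.s k16 k18 0 (.d k31 k27
  k21 1 2)))))) (.c k47 (.l (.s k17 k34 4 (.s k19 k35 3 (.s k16 k18 0 (.d k21 k31 k42 2 6))))) .n)))
  .n))) .n))))) (.c k49 (.l (.s k2 k1 0 (.s k35 k19 3 (.s k34 k17 4 (.s k33 k32 0 (.d k18 k50 k48 3
  4)))))) (.c k50 (.l (.s k1 k2 0 (.s k19 k35 3 (.s k17 k34 4 (.s k18 k16 0 (.d k33 k49 k48 3
  4)))))) .n))))))))))))) .n)))))))))))))))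

def t20 : T TT 256 :=
  (.q k69 [(.s k1 k2 0 (.s k138 k207 10 (.s k137 k205 9 (.s k204 k70 10 (.d k136 k139 k68 0 9))))),
  (.s k1 k2 0 (.s k207 k138 10 (.s k137 k205 9 (.s k70 k204 10 (.d k71 k68 k139 0 9)))))] (.c k1 (.q
  k5 [(.s k15 k10 2 (.s k138 k207 10 (.s k133 k197 7 (.s k192 k74 10 (.d k128 k143 k64 2 7))))), (.s
  k207 k138 10 (.s k71 k139 9 (.s k133 k197 7 (.s k70 k68 0 (.s k7 k196 8 (.s k4 k6 0 (.d k199 k135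
  k134 7 8))))))), (.s k15 k10 2 (.s k207 k138 10 (.s k7 k11 1 (.s k71 k139 9 (.s k4 k6 0 (.d k199
  k135 k134 7 8)))))), (.s k15 k10 2 (.s k7 k11 1 (.s k133 k197 7 (.s k70 k196 8 (.s k204 k137 10
  (.d k68 k71 k136 0 9))))))] .n) (.c k2 (.q k5 [(.s k138 k207 10 (.s k133 k197 7 (.s k128 k143 2
  (.s k192 k64 7 (.d k15 k10 k74 2 10))))), (.s k15 k10 2 (.s k7 k11 1 (.s k133 k197 7 (.s k70 k196
  8 (.s k68 k71 0 (.d k204 k136 k137 9 10)))))), (.s k207 k138 10 (.s k71 k139 9 (.s k133 k197 7 (.s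
  k70 k68 0 (.s k7 k196 8 (.s k199 k135 7 (.d k4 k6 k134 0 8))))))), (.s k15 k10 2 (.s k207 k138 10
  (.s k7 k11 1 (.s k71 k139 9 (.s k199 k135 7 (.d k4 k6 k134 0 8))))))] .n) (.c k68 (.q k5 [(.s k1
  k2 0 (.s k10 k15 2 (.s k9 k13 1 (.s k12 k6 2 (.d k8 k11 k4 0 1))))), (.s k15 k10 2 (.s k138 k207
  10 (.s k133 k197 7 (.s k192 k74 10 (.d k128 k143 k64 2 7))))), (.s k1 k2 0 (.s k13 k9 1 (.s k137
  k205 9 (.s k133 k197 7 (.s k193 k73 9 (.d k129 k141 k65 1 7))))))] .n) (.c k70 (.q k5 [(.s k2 k1 0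
  (.s k10 k15 2 (.s k6 k14 1 (.s k12 k9 2 (.d k4 k7 k8 0 1))))), (.s k15 k10 2 (.s k138 k207 10 (.s
  k133 k197 7 (.s k192 k74 10 (.d k128 k143 k64 2 7))))), (.s k1 k2 0 (.s k13 k9 1 (.s k137 k205 9
  (.s k133 k197 7 (.s k193 k73 9 (.d k129 k141 k65 1 7))))))] .n) (.c k137 (.q k18 [(.s k1 k2 0 (.s
  k33 k48 4 (.s k17 k49 3 (.s k51 k34 4 (.d k19 k16 k35 0 3))))), (.s k207 k138 10 (.s k48 k33 4 (.s
  k139 k71 9 (.s k154 k101 14 (.s k86 k222 9 (.d k169 k184 k252 4 14)))))), (.s k2 k1 0 (.s k138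
  k207 10 (.s k50 k34 3 (.s k206 k70 9 (.s k154 k102 13 (.s k86 k222 9 (.d k170 k186 k254 3
  13)))))))] .n) (.c k138 (.q k5 [(.s k2 k1 0 (.s k10 k15 2 (.s k6 k14 1 (.s k12 k9 2 (.d k4 k7 k8 0
  1))))), (.s k15 k10 2 (.s k7 k11 1 (.s k133 k197 7 (.s k70 k196 8 (.s k204 k137 10 (.d k68 k136
  k71 9 0)))))), (.s k1 k2 0 (.s k13 k9 1 (.s k137 k205 9 (.s k133 k197 7 (.s k193 k73 9 (.d k129
  k141 k65 1 7)))))), (.s k1 k2 0 (.s k15 k10 2 (.s k137 k205 9 (.s k11 k7 1 (.s k133 k197 7 (.d k74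
  k200 k192 8 10))))))] .n) (.c k139 (.l (.s k2 k1 0 (.s k138 k207 10 (.s k70 k206 9 (.s k204 k137
  10 (.d k68 k71 k136 0 9)))))) (.c k204 (.f k1 k2 0 (.q k5 [(.s k10 k15 2 (.s k9 k13 1 (.s k12 k6 2
  (.d k8 k11 k4 0 1)))), (.s k138 k207 10 (.s k133 k197 7 (.s k128 k143 2 (.s k192 k64 7 (.d k15 k10
  k74 2 10))))), (.s k13 k9 1 (.s k137 k205 9 (.s k133 k197 7 (.s k193 k73 9 (.d k129 k141 k65 1
  7)))))] (.c k221 (.q k238 [(.s k10 k15 2 (.s k9 k13 1 (.s k12 k6 2 (.d k8 k11 k4 0 1)))), (.s k138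
  k207 10 (.s k133 k197 7 (.s k128 k143 2 (.s k192 k64 7 (.d k15 k10 k74 2 10))))), (.s k13 k9 1 (.s
  k137 k205 9 (.s k133 k197 7 (.s k193 k73 9 (.d k129 k141 k65 1 7)))))] .n) (.c k238 (.q k221 [(.s
  k10 k15 2 (.s k9 k13 1 (.s k12 k6 2 (.d k8 k11 k4 0 1)))), (.s k138 k207 10 (.s k133 k197 7 (.s
  k128 k143 2 (.s k192 k64 7 (.d k15 k10 k74 2 10))))), (.s k13 k9 1 (.s k137 k205 9 (.s k133 k197 7
  (.s k193 k73 9 (.d k129 k141 k65 1 7)))))] .n) .n)))) (.c k205 (.l (.s k2 k1 0 (.s k138 k207 10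
  (.s k70 k206 9 (.s k204 k137 10 (.d k68 k71 k136 0 9)))))) (.c k206 (.l (.s k1 k2 0 (.s k138 k207
  10 (.s k137 k205 9 (.s k204 k70 10 (.d k136 k139 k68 0 9)))))) (.c k207 (.f k1 k2 0 (.q k5 [(.s
  k10 k15 2 (.s k9 k13 1 (.s k12 k6 2 (.d k8 k11 k4 0 1)))), (.s k13 k9 1 (.s k137 k205 9 (.s k133
  k197 7 (.s k193 k73 9 (.d k129 k141 k65 1 7))))), (.s k15 k10 2 (.s k137 k205 9 (.s k11 k7 1 (.s
  k133 k197 7 (.d k74 k192 k200 10 8)))))] (.c k223 (.q k239 [(.s k10 k15 2 (.s k9 k13 1 (.s k12 k6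
  2 (.d k8 k11 k4 0 1)))), (.s k13 k9 1 (.s k137 k205 9 (.s k133 k197 7 (.s k193 k73 9 (.d k129 k141
  k65 1 7))))), (.s k15 k10 2 (.s k137 k205 9 (.s k11 k7 1 (.s k133 k197 7 (.d k74 k192 k200 10
  8)))))] .n) (.c k239 (.q k223 [(.s k10 k15 2 (.s k9 k13 1 (.s k12 k6 2 (.d k8 k11 k4 0 1)))), (.s
  k13 k9 1 (.s k137 k205 9 (.s k133 k197 7 (.s k193 k73 9 (.d k129 k141 k65 1 7))))), (.s k15 k10 2
  (.s k137 k205 9 (.s k11 k7 1 (.s k133 k197 7 (.d k74 k192 k200 10 8)))))] .n) .n))))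
  .n))))))))))))

def t21 : T TT 256 :=
  (.q k69 [(.s k1 k2 0 (.s k138 k207 10 (.s k137 k205 9 (.s k204 k70 10 (.d k136 k139 k68 0 9))))),
  (.s k1 k2 0 (.s k207 k138 10 (.s k137 k205 9 (.s k70 k204 10 (.d k71 k68 k139 0 9)))))] (.c k1 (.q
  k15 [(.s k5 k10 2 (.s k138 k207 10 (.s k133 k197 7 (.s k192 k74 10 (.d k128 k143 k64 2 7))))), (.s
  k207 k138 10 (.s k7 k11 1 (.s k71 k139 9 (.s k135 k199 7 (.s k75 k195 9 (.d k79 k67 k143 1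
  7)))))), (.s k5 k10 2 (.s k7 k11 1 (.s k133 k197 7 (.s k70 k196 8 (.s k204 k137 10 (.d k68 k71
  k136 0 9))))))] (.c k41 (.q k61 [(.s k5 k10 2 (.s k138 k207 10 (.s k133 k197 7 (.s k192 k74 10 (.d
  k128 k143 k64 2 7))))), (.s k207 k138 10 (.s k7 k11 1 (.s k71 k139 9 (.s k135 k199 7 (.s k75 k195
  9 (.d k79 k67 k143 1 7)))))), (.s k5 k10 2 (.s k7 k11 1 (.s k133 k197 7 (.s k70 k196 8 (.s k204
  k137 10 (.d k68 k71 k136 0 9))))))] .n) (.c k61 (.q k41 [(.s k5 k10 2 (.s k138 k207 10 (.s k133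
  k197 7 (.s k192 k74 10 (.d k128 k143 k64 2 7))))), (.s k7 k11 1 (.s k22 k60 6 (.s k37 k52 4 (.s
  k48 k26 6 (.d k33 k45 k18 1 4)))))] .n) .n))) (.c k2 (.q k15 [(.s k5 k10 2 (.s k138 k207 10 (.s
  k133 k197 7 (.s k192 k74 10 (.d k128 k143 k64 2 7))))), (.s k207 k138 10 (.s k7 k11 1 (.s k71 k139
  9 (.s k135 k199 7 (.s k75 k195 9 (.d k79 k67 k143 1 7)))))), (.s k5 k10 2 (.s k7 k11 1 (.s k133
  k197 7 (.s k70 k196 8 (.s k68 k71 0 (.d k204 k136 k137 9 10))))))] .n) (.c k68 (.q k15 [(.s k1 k2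
  0 (.s k5 k10 2 (.s k9 k13 1 (.s k7 k11 1 (.d k6 k4 k12 0 2))))), (.s k5 k10 2 (.s k138 k207 10 (.s
  k133 k197 7 (.s k192 k74 10 (.d k128 k143 k64 2 7))))), (.s k1 k2 0 (.s k207 k138 10 (.s k137 k205
  9 (.s k11 k7 1 (.s k74 k200 8 (.d k79 k64 k143 2 7))))))] .n) (.c k70 (.q k15 [(.s k1 k2 0 (.s k5
  k10 2 (.s k9 k13 1 (.s k7 k11 1 (.d k6 k4 k12 0 2))))), (.s k5 k10 2 (.s k138 k207 10 (.s k133
  k197 7 (.s k192 k74 10 (.d k128 k143 k64 2 7))))), (.s k1 k2 0 (.s k137 k205 9 (.s k11 k7 1 (.s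
  k74 k200 8 (.s k64 k79 2 (.d k192 k133 k128 10 7))))))] (.c k138 (.l (.s k2 k1 0 (.s k10 k5 2 (.s
  k6 k14 1 (.s k9 k12 2 (.d k11 k8 k7 0 1)))))) .n)) (.c k137 (.q k15 [(.s k1 k2 0 (.s k5 k10 2 (.s
  k9 k13 1 (.s k6 k12 2 (.d k7 k4 k11 0 1))))), (.s k207 k138 10 (.s k11 k7 1 (.s k139 k71 9 (.s k75
  k203 7 (.s k135 k195 9 (.d k143 k131 k79 1 7)))))), (.s k5 k10 2 (.s k138 k207 10 (.s k133 k197 7
  (.s k128 k143 2 (.d k192 k64 k74 7 10)))))] .n) (.c k138 (.q k15 [(.s k1 k2 0 (.s k5 k10 2 (.s k9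
  k13 1 (.s k7 k11 1 (.d k6 k4 k12 0 2))))), (.s k1 k2 0 (.s k137 k205 9 (.s k11 k7 1 (.s k74 k200 8
  (.s k192 k133 10 (.d k64 k128 k79 7 2)))))), (.s k5 k10 2 (.s k7 k11 1 (.s k133 k197 7 (.s k70
  k196 8 (.s k204 k137 10 (.d k68 k136 k71 9 0)))))), (.s k2 k1 0 (.s k10 k5 2 (.s k6 k14 1 (.s k9
  k12 2 (.d k11 k8 k7 0 1))))), (.s k1 k2 0 (.s k5 k10 2 (.s k137 k205 9 (.s k133 k197 7 (.s k129
  k141 1 (.d k192 k74 k66 10 8))))))] .n) (.c k139 (.l (.s k2 k1 0 (.s k138 k207 10 (.s k70 k206 9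
  (.s k204 k137 10 (.d k68 k71 k136 0 9)))))) (.c k204 (.q k15 [(.s k1 k2 0 (.s k5 k10 2 (.s k9 k13
  1 (.s k7 k11 1 (.d k6 k4 k12 0 2))))), (.s k5 k10 2 (.s k138 k207 10 (.s k133 k197 7 (.s k192 k74
  10 (.d k128 k143 k64 2 7))))), (.s k1 k2 0 (.s k207 k138 10 (.s k137 k205 9 (.s k11 k7 1 (.s k74
  k200 8 (.d k79 k64 k143 2 7))))))] (.c k221 (.q k238 [(.s k1 k2 0 (.s k5 k10 2 (.s k9 k13 1 (.s k7
  k11 1 (.d k6 k4 k12 0 2))))), (.s k5 k10 2 (.s k138 k207 10 (.s k133 k197 7 (.s k192 k74 10 (.d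
  k128 k143 k64 2 7))))), (.s k1 k2 0 (.s k207 k138 10 (.s k137 k205 9 (.s k11 k7 1 (.s k74 k200 8
  (.d k79 k64 k143 2 7))))))] .n) (.c k238 (.q k221 [(.s k1 k2 0 (.s k5 k10 2 (.s k9 k13 1 (.s k7
  k11 1 (.d k6 k4 k12 0 2))))), (.s k5 k10 2 (.s k138 k207 10 (.s k133 k197 7 (.s k192 k74 10 (.d
  k128 k143 k64 2 7))))), (.s k1 k2 0 (.s k207 k138 10 (.s k137 k205 9 (.s k11 k7 1 (.s k74 k200 8
  (.d k79 k64 k143 2 7))))))] .n) .n))) (.c k205 (.l (.s k2 k1 0 (.s k138 k207 10 (.s k70 k206 9 (.s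
  k204 k137 10 (.d k68 k71 k136 0 9)))))) (.c k206 (.l (.s k1 k2 0 (.s k138 k207 10 (.s k137 k205 9
  (.s k204 k70 10 (.d k136 k139 k68 0 9)))))) (.c k207 (.q k15 [(.s k1 k2 0 (.s k5 k10 2 (.s k9 k13
  1 (.s k7 k11 1 (.d k6 k4 k12 0 2))))), (.s k1 k2 0 (.s k137 k205 9 (.s k11 k7 1 (.s k74 k200 8 (.s
  k192 k133 10 (.d k64 k79 k128 2 7)))))), (.s k5 k10 2 (.s k7 k11 1 (.s k133 k197 7 (.s k70 k196 8
  (.s k204 k137 10 (.d k68 k71 k136 0 9)))))), (.s k1 k2 0 (.s k5 k10 2 (.s k137 k205 9 (.s k204 k70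
  10 (.s k133 k197 7 (.d k141 k129 k78 1 8))))))] (.c k223 (.q k239 [(.s k1 k2 0 (.s k5 k10 2 (.s k9
  k13 1 (.s k7 k11 1 (.d k6 k4 k12 0 2))))), (.s k1 k2 0 (.s k137 k205 9 (.s k11 k7 1 (.s k74 k200 8
  (.s k192 k133 10 (.d k64 k79 k128 2 7)))))), (.s k5 k10 2 (.s k7 k11 1 (.s k133 k197 7 (.s k70
  k196 8 (.s k204 k137 10 (.d k68 k71 k136 0 9)))))), (.s k1 k2 0 (.s k5 k10 2 (.s k137 k205 9 (.s
  k204 k70 10 (.s k133 k197 7 (.d k141 k129 k78 1 8))))))] .n) (.c k239 (.q k223 [(.s k1 k2 0 (.s k5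
  k10 2 (.s k9 k13 1 (.s k7 k11 1 (.d k6 k4 k12 0 2))))), (.s k1 k2 0 (.s k137 k205 9 (.s k11 k7 1
  (.s k74 k200 8 (.s k192 k133 10 (.d k64 k79 k128 2 7)))))), (.s k5 k10 2 (.s k7 k11 1 (.s k133
  k197 7 (.s k70 k196 8 (.s k204 k137 10 (.d k68 k71 k136 0 9)))))), (.s k1 k2 0 (.s k5 k10 2 (.s
  k137 k205 9 (.s k204 k70 10 (.s k133 k197 7 (.d k141 k129 k78 1 8))))))] .n) .n))) .n))))))))))))

def t22 : T TT 256 :=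
  (.q k5 [(.s k2 k1 0 (.s k10 k15 2 (.s k6 k14 1 (.s k12 k9 2 (.d k4 k7 k8 0 1))))), (.s k1 k2 0 (.s
  k15 k10 2 (.s k9 k13 1 (.s k6 k12 2 (.d k7 k4 k11 0 1)))))] (.c k1 (.q k69 [(.s k15 k10 2 (.s k138
  k207 10 (.s k133 k197 7 (.s k192 k74 10 (.d k128 k143 k64 2 7))))), (.s k207 k138 10 (.s k71 k139
  9 (.s k133 k197 7 (.s k70 k68 0 (.s k7 k196 8 (.s k4 k6 0 (.d k199 k135 k134 7 8))))))), (.s k15
  k10 2 (.s k207 k138 10 (.s k7 k11 1 (.s k71 k139 9 (.s k4 k6 0 (.d k199 k135 k134 7 8)))))), (.s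
  k15 k10 2 (.s k7 k11 1 (.s k133 k197 7 (.s k70 k196 8 (.s k204 k137 10 (.d k68 k71 k136 0 9))))))]
  .n) (.c k2 (.q k69 [(.s k138 k207 10 (.s k133 k197 7 (.s k128 k143 2 (.s k192 k64 7 (.d k15 k10
  k74 2 10))))), (.s k15 k10 2 (.s k7 k11 1 (.s k133 k197 7 (.s k70 k196 8 (.s k68 k71 0 (.d k204
  k136 k137 9 10)))))), (.s k207 k138 10 (.s k71 k139 9 (.s k133 k197 7 (.s k70 k68 0 (.s k7 k196 8
  (.s k199 k135 7 (.d k4 k6 k134 0 8))))))), (.s k15 k10 2 (.s k207 k138 10 (.s k7 k11 1 (.s k71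
  k139 9 (.s k199 k135 7 (.d k4 k6 k134 0 8))))))] (.c k42 (.q k62 [(.s k138 k207 10 (.s k133 k197 7
  (.s k128 k143 2 (.s k192 k64 7 (.d k15 k10 k74 2 10))))), (.s k15 k10 2 (.s k7 k11 1 (.s k133 k197
  7 (.s k70 k196 8 (.s k68 k71 0 (.d k204 k136 k137 9 10)))))), (.s k207 k138 10 (.s k71 k139 9 (.s
  k133 k197 7 (.s k70 k68 0 (.s k7 k196 8 (.s k199 k135 7 (.d k4 k6 k134 0 8))))))), (.s k15 k10 2
  (.s k207 k138 10 (.s k7 k11 1 (.s k71 k139 9 (.s k199 k135 7 (.d k4 k6 k134 0 8))))))] .n) (.c k62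
  (.q k42 [(.s k15 k10 2 (.s k138 k207 10 (.s k133 k197 7 (.s k192 k74 10 (.d k128 k143 k64 2
  7))))), (.s k21 k63 6 (.s k37 k53 3 (.s k32 k47 2 (.s k48 k16 3 (.d k15 k10 k26 2 6))))), (.s k207
  k138 10 (.s k71 k139 9 (.s k133 k197 7 (.s k70 k68 0 (.s k7 k196 8 (.s k199 k135 7 (.d k4 k6 k134
  0 8)))))))] .n) .n))) (.c k4 (.q k69 [(.s k15 k10 2 (.s k138 k207 10 (.s k133 k197 7 (.s k192 k74
  10 (.d k128 k143 k64 2 7))))), (.s k1 k2 0 (.s k207 k138 10 (.s k137 k205 9 (.s k70 k204 10 (.d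
  k71 k68 k139 0 9))))), (.s k1 k2 0 (.s k15 k10 2 (.s k137 k205 9 (.s k7 k11 1 (.s k133 k197 7 (.d
  k70 k196 k204 8 10))))))] .n) (.c k6 (.q k69 [(.s k2 k1 0 (.s k138 k207 10 (.s k70 k206 9 (.s k204
  k137 10 (.d k68 k71 k136 0 9))))), (.s k138 k207 10 (.s k133 k197 7 (.s k128 k143 2 (.s k192 k64 7
  (.d k15 k10 k74 2 10))))), (.s k1 k2 0 (.s k13 k9 1 (.s k137 k205 9 (.s k133 k197 7 (.s k193 k73 9
  (.d k129 k141 k65 1 7))))))] (.c k38 (.q k54 [(.s k2 k1 0 (.s k138 k207 10 (.s k70 k206 9 (.s k204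
  k137 10 (.d k68 k71 k136 0 9))))), (.s k138 k207 10 (.s k133 k197 7 (.s k128 k143 2 (.s k192 k64 7
  (.d k15 k10 k74 2 10))))), (.s k1 k2 0 (.s k13 k9 1 (.s k137 k205 9 (.s k133 k197 7 (.s k193 k73 9
  (.d k129 k141 k65 1 7))))))] .n) (.c k54 (.q k38 [(.s k2 k1 0 (.s k138 k207 10 (.s k70 k206 9 (.s
  k204 k137 10 (.d k68 k71 k136 0 9))))), (.s k138 k207 10 (.s k133 k197 7 (.s k128 k143 2 (.s k192
  k64 7 (.d k15 k10 k74 2 10))))), (.s k1 k2 0 (.s k13 k9 1 (.s k137 k205 9 (.s k133 k197 7 (.s k193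
  k73 9 (.d k129 k141 k65 1 7))))))] .n) .n))) (.c k7 (.l (.s k1 k2 0 (.s k10 k15 2 (.s k9 k13 1 (.s
  k12 k6 2 (.d k8 k11 k4 0 1)))))) (.c k9 (.q k69 [(.s k1 k2 0 (.s k138 k207 10 (.s k137 k205 9 (.s
  k204 k70 10 (.d k136 k139 k68 0 9))))), (.s k15 k10 2 (.s k138 k207 10 (.s k133 k197 7 (.s k192
  k74 10 (.d k128 k143 k64 2 7))))), (.s k1 k2 0 (.s k15 k10 2 (.s k137 k205 9 (.s k11 k7 1 (.s k133
  k197 7 (.d k74 k200 k192 8 10))))))] .n) (.c k10 (.q k69 [(.s k2 k1 0 (.s k138 k207 10 (.s k70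
  k206 9 (.s k204 k137 10 (.d k68 k71 k136 0 9))))), (.s k1 k2 0 (.s k13 k9 1 (.s k137 k205 9 (.s
  k133 k197 7 (.s k193 k73 9 (.d k129 k141 k65 1 7)))))), (.s k207 k138 10 (.s k71 k139 9 (.s k133
  k197 7 (.s k70 k68 0 (.s k7 k196 8 (.s k199 k135 7 (.d k4 k6 k134 0 8)))))))] (.c k137 (.f k1 k2 0
  (.l (.s k138 k207 10 (.s k13 k9 1 (.s k133 k197 7 (.s k128 k143 2 (.s k192 k64 7 (.s k129 k66 8
  (.d k193 k65 k73 7 9))))))))) .n)) (.c k12 (.q k69 [(.s k15 k10 2 (.s k138 k207 10 (.s k133 k197 7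
  (.s k192 k74 10 (.d k128 k143 k64 2 7))))), (.s k1 k2 0 (.s k207 k138 10 (.s k137 k205 9 (.s k70
  k204 10 (.d k71 k68 k139 0 9))))), (.s k1 k2 0 (.s k15 k10 2 (.s k137 k205 9 (.s k7 k11 1 (.s k133
  k197 7 (.d k70 k196 k204 8 10))))))] (.c k93 (.q k174 [(.s k15 k10 2 (.s k138 k207 10 (.s k133
  k197 7 (.s k192 k74 10 (.d k128 k143 k64 2 7))))), (.s k1 k2 0 (.s k207 k138 10 (.s k137 k205 9
  (.s k70 k204 10 (.d k71 k68 k139 0 9))))), (.s k1 k2 0 (.s k15 k10 2 (.s k137 k205 9 (.s k7 k11 1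
  (.s k133 k197 7 (.d k70 k196 k204 8 10))))))] .n) (.c k174 (.q k93 [(.s k15 k10 2 (.s k138 k207 10
  (.s k133 k197 7 (.s k192 k74 10 (.d k128 k143 k64 2 7))))), (.s k1 k2 0 (.s k207 k138 10 (.s k137
  k205 9 (.s k70 k204 10 (.d k71 k68 k139 0 9))))), (.s k1 k2 0 (.s k15 k10 2 (.s k137 k205 9 (.s k7
  k11 1 (.s k133 k197 7 (.d k70 k196 k204 8 10))))))] .n) .n))) (.c k13 (.l (.s k2 k1 0 (.s k10 k15
  2 (.s k6 k14 1 (.s k12 k9 2 (.d k4 k7 k8 0 1)))))) (.c k14 (.l (.s k1 k2 0 (.s k10 k15 2 (.s k9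
  k13 1 (.s k12 k6 2 (.d k8 k11 k4 0 1)))))) (.c k15 (.q k69 [(.s k2 k1 0 (.s k138 k207 10 (.s k70
  k206 9 (.s k204 k137 10 (.d k68 k71 k136 0 9))))), (.s k1 k2 0 (.s k13 k9 1 (.s k137 k205 9 (.s
  k133 k197 7 (.s k193 k73 9 (.d k129 k141 k65 1 7)))))), (.s k207 k138 10 (.s k71 k139 9 (.s k133
  k197 7 (.s k70 k68 0 (.s k7 k196 8 (.s k4 k6 0 (.d k199 k135 k134 7 8)))))))] (.c k95 (.q k175
  [(.s k2 k1 0 (.s k138 k207 10 (.s k70 k206 9 (.s k204 k137 10 (.d k68 k71 k136 0 9))))), (.s k1 k2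
  0 (.s k13 k9 1 (.s k137 k205 9 (.s k133 k197 7 (.s k193 k73 9 (.d k129 k141 k65 1 7)))))), (.s
  k207 k138 10 (.s k71 k139 9 (.s k133 k197 7 (.s k70 k68 0 (.s k7 k196 8 (.s k4 k6 0 (.d k199 k135
  k134 7 8)))))))] (.c k137 (.f k1 k2 0 (.l (.s k138 k207 10 (.s k9 k13 1 (.s k12 k6 2 (.s k4 k8 1
  (.s k134 k199 8 (.s k195 k73 10 (.d k130 k142 k65 1 8))))))))) .n)) (.c k137 (.f k1 k2 0 (.l (.s
  k138 k207 10 (.s k9 k13 1 (.s k12 k6 2 (.s k4 k8 1 (.s k134 k199 8 (.s k195 k73 10 (.d k130 k142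
  k65 1 8))))))))) (.c k175 (.q k95 [(.s k2 k1 0 (.s k138 k207 10 (.s k70 k206 9 (.s k204 k137 10
  (.d k68 k71 k136 0 9))))), (.s k1 k2 0 (.s k13 k9 1 (.s k137 k205 9 (.s k133 k197 7 (.s k193 k73 9
  (.d k129 k141 k65 1 7)))))), (.s k207 k138 10 (.s k71 k139 9 (.s k133 k197 7 (.s k70 k68 0 (.s k7
  k196 8 (.s k4 k6 0 (.d k199 k135 k134 7 8)))))))] (.c k137 (.f k1 k2 0 (.l (.s k138 k207 10 (.s k9
  k13 1 (.s k12 k6 2 (.s k4 k8 1 (.s k134 k199 8 (.s k195 k73 10 (.d k130 k142 k65 1 8))))))))) .n))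
  .n)))) .n))))))))))))

def t23 : T TT 256 :=
  (.f k1 k2 0 (.q k5 [(.s k10 k15 2 (.s k9 k13 1 (.s k12 k6 2 (.d k8 k11 k4 0 1)))), (.s k15 k10 2
  (.s k9 k13 1 (.s k6 k12 2 (.d k7 k4 k11 0 1))))] (.c k4 (.q k69 [(.s k138 k207 10 (.s k137 k205 9
  (.s k204 k70 10 (.d k136 k139 k68 0 9)))), (.s k15 k10 2 (.s k138 k207 10 (.s k133 k197 7 (.s k192
  k74 10 (.d k128 k143 k64 2 7))))), (.s k15 k10 2 (.s k137 k205 9 (.s k7 k11 1 (.s k133 k197 7 (.d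
  k70 k196 k204 8 10)))))] .n) (.c k6 (.q k69 [(.s k138 k207 10 (.s k137 k205 9 (.s k136 k139 0 (.d
  k204 k68 k70 9 10)))), (.s k13 k9 1 (.s k137 k205 9 (.s k133 k197 7 (.s k193 k73 9 (.d k129 k141
  k65 1 7))))), (.s k138 k207 10 (.s k133 k197 7 (.s k128 k143 2 (.s k192 k64 7 (.d k15 k10 k74 2
  10)))))] (.c k10 (.q k14 [(.s k138 k207 10 (.s k137 k205 9 (.s k136 k139 0 (.d k204 k68 k70 9
  10)))), (.s k13 k9 1 (.s k137 k205 9 (.s k133 k197 7 (.s k193 k73 9 (.d k129 k141 k65 1 7))))),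
  (.s k138 k207 10 (.s k13 k9 1 (.s k133 k197 7 (.s k12 k15 0 (.s k8 k4 1 (.d k73 k203 k193 8
  9))))))] .n) (.c k14 (.l (.s k10 k15 2 (.s k138 k207 10 (.s k137 k205 9 (.s k204 k70 10 (.d k136
  k139 k68 0 9)))))) .n))) (.c k9 (.q k69 [(.s k138 k207 10 (.s k137 k205 9 (.s k204 k70 10 (.d k136
  k139 k68 0 9)))), (.s k15 k10 2 (.s k137 k205 9 (.s k11 k7 1 (.s k133 k197 7 (.d k74 k200 k192 8
  10))))), (.s k15 k10 2 (.s k138 k207 10 (.s k133 k197 7 (.s k192 k74 10 (.d k128 k143 k64 2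
  7)))))] .n) (.c k10 (.q k69 [(.s k138 k207 10 (.s k137 k205 9 (.s k204 k70 10 (.d k136 k139 k68 0
  9)))), (.s k13 k9 1 (.s k137 k205 9 (.s k133 k197 7 (.s k193 k73 9 (.d k129 k141 k65 1 7))))), (.s
  k138 k207 10 (.s k13 k9 1 (.s k133 k197 7 (.s k128 k143 2 (.s k192 k64 7 (.s k129 k66 8 (.d k193
  k65 k73 7 9)))))))] (.c k6 (.q k14 [(.s k138 k207 10 (.s k137 k205 9 (.s k136 k139 0 (.d k204 k68
  k70 9 10)))), (.s k13 k9 1 (.s k137 k205 9 (.s k133 k197 7 (.s k193 k73 9 (.d k129 k141 k65 1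
  7))))), (.s k138 k207 10 (.s k13 k9 1 (.s k133 k197 7 (.s k12 k15 0 (.s k8 k4 1 (.d k73 k203 k193
  8 9))))))] .n) (.c k14 (.q k6 [(.d k9 k13 k12 1 2), (.s k138 k207 10 (.s k137 k205 9 (.s k204 k70
  10 (.d k136 k139 k68 0 9))))] .n) .n))) (.c k11 (.q k69 [(.s k138 k207 10 (.s k137 k205 9 (.s k204
  k70 10 (.d k136 k139 k68 0 9)))), (.s k15 k10 2 (.s k137 k205 9 (.s k133 k197 7 (.s k129 k141 1
  (.d k192 k66 k74 8 10))))), (.s k15 k10 2 (.s k138 k207 10 (.s k133 k197 7 (.s k128 k143 2 (.d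
  k192 k64 k74 7 10)))))] .n) (.c k12 (.q k69 [(.s k138 k207 10 (.s k137 k205 9 (.s k204 k70 10 (.d
  k136 k139 k68 0 9)))), (.s k15 k10 2 (.s k137 k205 9 (.s k7 k11 1 (.s k133 k197 7 (.d k70 k196
  k204 8 10))))), (.s k15 k10 2 (.s k138 k207 10 (.s k133 k197 7 (.s k192 k74 10 (.d k128 k143 k64 2
  7)))))] (.c k93 (.q k174 [(.s k138 k207 10 (.s k137 k205 9 (.s k204 k70 10 (.d k136 k139 k68 0
  9)))), (.s k15 k10 2 (.s k137 k205 9 (.s k7 k11 1 (.s k133 k197 7 (.d k70 k196 k204 8 10))))), (.s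
  k15 k10 2 (.s k138 k207 10 (.s k133 k197 7 (.s k192 k74 10 (.d k128 k143 k64 2 7)))))] .n) (.c
  k174 (.q k93 [(.s k138 k207 10 (.s k137 k205 9 (.s k204 k70 10 (.d k136 k139 k68 0 9)))), (.s k15
  k10 2 (.s k137 k205 9 (.s k7 k11 1 (.s k133 k197 7 (.d k70 k196 k204 8 10))))), (.s k15 k10 2 (.s
  k138 k207 10 (.s k133 k197 7 (.s k192 k74 10 (.d k128 k143 k64 2 7)))))] .n) .n))) (.c k13 (.q k69
  [(.s k207 k138 10 (.s k71 k139 9 (.s k70 k68 0 (.d k137 k205 k204 9 10)))), (.s k15 k10 2 (.s k138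
  k207 10 (.s k133 k197 7 (.s k192 k74 10 (.d k128 k143 k64 2 7))))), (.s k15 k10 2 (.s k137 k205 9
  (.s k7 k11 1 (.s k133 k197 7 (.d k70 k196 k204 8 10)))))] .n) (.c k14 (.l (.s k10 k15 2 (.s k9 k13
  1 (.s k12 k6 2 (.d k8 k11 k4 0 1))))) (.c k15 (.q k69 [(.s k13 k9 1 (.s k137 k205 9 (.s k133 k197
  7 (.s k193 k73 9 (.d k129 k141 k65 1 7))))), (.s k138 k207 10 (.s k137 k205 9 (.s k204 k70 10 (.d
  k136 k139 k68 0 9)))), (.s k138 k207 10 (.s k9 k13 1 (.s k12 k6 2 (.s k4 k8 1 (.s k134 k199 8 (.s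
  k195 k73 10 (.d k130 k142 k65 1 8)))))))] (.c k95 (.q k175 [(.s k13 k9 1 (.s k137 k205 9 (.s k133
  k197 7 (.s k193 k73 9 (.d k129 k141 k65 1 7))))), (.s k138 k207 10 (.s k137 k205 9 (.s k204 k70 10
  (.d k136 k139 k68 0 9)))), (.s k138 k207 10 (.s k9 k13 1 (.s k12 k6 2 (.s k4 k8 1 (.s k134 k199 8
  (.s k195 k73 10 (.d k130 k142 k65 1 8)))))))] .n) (.c k175 (.q k95 [(.s k13 k9 1 (.s k137 k205 9
  (.s k133 k197 7 (.s k193 k73 9 (.d k129 k141 k65 1 7))))), (.s k138 k207 10 (.s k137 k205 9 (.s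
  k204 k70 10 (.d k136 k139 k68 0 9)))), (.s k138 k207 10 (.s k9 k13 1 (.s k12 k6 2 (.s k4 k8 1 (.s
  k134 k199 8 (.s k195 k73 10 (.d k130 k142 k65 1 8)))))))] .n) .n))) .n)))))))))))

def t24 : T TT 256 :=
  (.q k69 [(.s k1 k2 0 (.s k138 k207 10 (.s k137 k205 9 (.s k204 k70 10 (.d k136 k139 k68 0 9))))),
  (.s k1 k2 0 (.s k207 k138 10 (.s k137 k205 9 (.s k70 k204 10 (.d k71 k68 k139 0 9)))))] (.c k1 (.q
  k15 [(.s k5 k10 2 (.s k138 k207 10 (.s k133 k197 7 (.s k192 k74 10 (.d k128 k143 k64 2 7))))), (.s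
  k207 k138 10 (.s k7 k11 1 (.s k71 k139 9 (.s k135 k199 7 (.s k75 k195 9 (.d k79 k67 k143 1
  7)))))), (.s k5 k10 2 (.s k7 k11 1 (.s k133 k197 7 (.s k70 k196 8 (.s k204 k137 10 (.d k68 k71
  k136 0 9))))))] .n) (.c k2 (.q k15 [(.s k10 k5 2 (.s k138 k207 10 (.s k74 k202 7 (.s k192 k133 10
  (.d k64 k79 k128 2 7))))), (.s k207 k138 10 (.s k7 k11 1 (.s k71 k139 9 (.s k135 k199 7 (.s k75
  k195 9 (.d k79 k67 k143 1 7)))))), (.s k5 k10 2 (.s k7 k11 1 (.s k133 k197 7 (.s k70 k196 8 (.s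
  k68 k71 0 (.d k204 k136 k137 9 10))))))] .n) (.c k68 (.q k15 [(.s k1 k2 0 (.s k5 k10 2 (.s k9 k13
  1 (.s k7 k11 1 (.d k6 k4 k12 0 2))))), (.s k5 k10 2 (.s k138 k207 10 (.s k133 k197 7 (.s k192 k74
  10 (.d k128 k143 k64 2 7))))), (.s k1 k2 0 (.s k207 k138 10 (.s k137 k205 9 (.s k11 k7 1 (.s k74
  k200 8 (.d k79 k64 k143 2 7))))))] .n) (.c k70 (.q k15 [(.s k1 k2 0 (.s k5 k10 2 (.s k9 k13 1 (.s
  k7 k11 1 (.d k6 k4 k12 0 2))))), (.s k5 k10 2 (.s k138 k207 10 (.s k133 k197 7 (.s k192 k74 10 (.d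
  k128 k143 k64 2 7))))), (.s k1 k2 0 (.s k137 k205 9 (.s k11 k7 1 (.s k74 k200 8 (.s k64 k79 2 (.d
  k192 k133 k128 10 7))))))] (.c k138 (.l (.s k2 k1 0 (.s k10 k5 2 (.s k6 k14 1 (.s k9 k12 2 (.d k11
  k8 k7 0 1)))))) .n)) (.c k137 (.q k15 [(.s k5 k10 2 (.s k138 k207 10 (.s k133 k197 7 (.s k128 k143
  2 (.d k192 k64 k74 7 10))))), (.s k1 k2 0 (.s k5 k10 2 (.s k9 k13 1 (.s k6 k12 2 (.d k7 k4 k11 0
  1))))), (.s k207 k138 10 (.s k11 k7 1 (.s k139 k71 9 (.s k75 k203 7 (.s k135 k195 9 (.d k143 k131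
  k79 1 7))))))] .n) (.c k138 (.q k15 [(.s k2 k1 0 (.s k10 k5 2 (.s k6 k14 1 (.s k9 k12 2 (.d k11 k8
  k7 0 1))))), (.s k1 k2 0 (.s k137 k205 9 (.s k11 k7 1 (.s k74 k200 8 (.s k192 k133 10 (.d k64 k128
  k79 7 2)))))), (.s k5 k10 2 (.s k7 k11 1 (.s k133 k197 7 (.s k70 k196 8 (.s k204 k137 10 (.d k68
  k136 k71 9 0)))))), (.s k1 k2 0 (.s k5 k10 2 (.s k137 k205 9 (.s k133 k197 7 (.s k129 k141 1 (.d
  k192 k74 k66 10 8))))))] .n) (.c k139 (.l (.s k2 k1 0 (.s k138 k207 10 (.s k70 k206 9 (.s k204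
  k137 10 (.d k68 k71 k136 0 9)))))) (.c k204 (.q k15 [(.s k1 k2 0 (.s k5 k10 2 (.s k9 k13 1 (.s k7
  k11 1 (.d k6 k4 k12 0 2))))), (.s k5 k10 2 (.s k138 k207 10 (.s k133 k197 7 (.s k192 k74 10 (.d
  k128 k143 k64 2 7))))), (.s k1 k2 0 (.s k207 k138 10 (.s k137 k205 9 (.s k11 k7 1 (.s k74 k200 8
  (.d k79 k64 k143 2 7))))))] (.c k221 (.q k238 [(.s k1 k2 0 (.s k5 k10 2 (.s k9 k13 1 (.s k7 k11 1
  (.d k6 k4 k12 0 2))))), (.s k5 k10 2 (.s k138 k207 10 (.s k133 k197 7 (.s k192 k74 10 (.d k128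
  k143 k64 2 7))))), (.s k1 k2 0 (.s k207 k138 10 (.s k137 k205 9 (.s k11 k7 1 (.s k74 k200 8 (.d
  k79 k64 k143 2 7))))))] .n) (.c k238 (.q k221 [(.s k1 k2 0 (.s k5 k10 2 (.s k9 k13 1 (.s k7 k11 1
  (.d k6 k4 k12 0 2))))), (.s k5 k10 2 (.s k138 k207 10 (.s k133 k197 7 (.s k192 k74 10 (.d k128
  k143 k64 2 7))))), (.s k1 k2 0 (.s k207 k138 10 (.s k137 k205 9 (.s k11 k7 1 (.s k74 k200 8 (.d
  k79 k64 k143 2 7))))))] .n) .n))) (.c k205 (.l (.s k2 k1 0 (.s k138 k207 10 (.s k70 k206 9 (.s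
  k204 k137 10 (.d k68 k71 k136 0 9)))))) (.c k206 (.l (.s k1 k2 0 (.s k138 k207 10 (.s k137 k205 9
  (.s k204 k70 10 (.d k136 k139 k68 0 9)))))) (.c k207 (.q k15 [(.s k1 k2 0 (.s k5 k10 2 (.s k9 k13
  1 (.s k7 k11 1 (.d k6 k4 k12 0 2))))), (.s k1 k2 0 (.s k137 k205 9 (.s k11 k7 1 (.s k74 k200 8 (.s
  k192 k133 10 (.d k64 k79 k128 2 7)))))), (.s k5 k10 2 (.s k7 k11 1 (.s k133 k197 7 (.s k70 k196 8
  (.s k204 k137 10 (.d k68 k71 k136 0 9)))))), (.s k1 k2 0 (.s k5 k10 2 (.s k137 k205 9 (.s k204 k70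
  10 (.s k133 k197 7 (.d k141 k129 k78 1 8))))))] (.c k223 (.q k239 [(.s k1 k2 0 (.s k5 k10 2 (.s k9
  k13 1 (.s k7 k11 1 (.d k6 k4 k12 0 2))))), (.s k1 k2 0 (.s k137 k205 9 (.s k11 k7 1 (.s k74 k200 8
  (.s k192 k133 10 (.d k64 k79 k128 2 7)))))), (.s k5 k10 2 (.s k7 k11 1 (.s k133 k197 7 (.s k70
  k196 8 (.s k204 k137 10 (.d k68 k71 k136 0 9)))))), (.s k1 k2 0 (.s k5 k10 2 (.s k137 k205 9 (.s
  k204 k70 10 (.s k133 k197 7 (.d k141 k129 k78 1 8))))))] .n) (.c k239 (.q k223 [(.s k1 k2 0 (.s k5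
  k10 2 (.s k9 k13 1 (.s k7 k11 1 (.d k6 k4 k12 0 2))))), (.s k1 k2 0 (.s k137 k205 9 (.s k11 k7 1
  (.s k74 k200 8 (.s k192 k133 10 (.d k64 k79 k128 2 7)))))), (.s k5 k10 2 (.s k7 k11 1 (.s k133
  k197 7 (.s k70 k196 8 (.s k204 k137 10 (.d k68 k71 k136 0 9)))))), (.s k1 k2 0 (.s k5 k10 2 (.s
  k137 k205 9 (.s k204 k70 10 (.s k133 k197 7 (.d k141 k129 k78 1 8))))))] .n) .n))) .n))))))))))))

def t25 : T TT 256 :=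
  (.f k1 k2 0 (.q k69 [(.s k138 k207 10 (.s k137 k205 9 (.s k204 k70 10 (.d k136 k139 k68 0 9)))),
  (.s k207 k138 10 (.s k137 k205 9 (.s k70 k204 10 (.d k71 k68 k139 0 9))))] (.c k68 (.q k5 [(.s k15
  k10 2 (.s k7 k11 1 (.s k6 k4 0 (.d k9 k13 k12 1 2)))), (.s k138 k207 10 (.s k133 k197 7 (.s k128
  k143 2 (.s k192 k64 7 (.d k15 k10 k74 2 10))))), (.s k13 k9 1 (.s k137 k205 9 (.s k133 k197 7 (.s
  k193 k73 9 (.d k129 k141 k65 1 7)))))] .n) (.c k70 (.q k5 [(.s k15 k10 2 (.s k7 k11 1 (.s k6 k4 0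
  (.d k9 k13 k12 1 2)))), (.s k138 k207 10 (.s k133 k197 7 (.s k128 k143 2 (.s k192 k64 7 (.d k15
  k10 k74 2 10))))), (.s k13 k9 1 (.s k137 k205 9 (.s k133 k197 7 (.s k193 k73 9 (.d k129 k141 k65 1
  7)))))] (.c k138 (.q k206 [(.s k15 k10 2 (.s k7 k11 1 (.s k6 k4 0 (.d k9 k13 k12 1 2)))), (.s k13
  k9 1 (.s k137 k205 9 (.s k133 k197 7 (.s k193 k73 9 (.d k129 k141 k65 1 7))))), (.s k15 k10 2 (.s
  k137 k205 9 (.s k11 k7 1 (.s k133 k197 7 (.d k74 k200 k192 8 10)))))] .n) (.c k206 (.l (.s k138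
  k207 10 (.s k10 k15 2 (.s k9 k13 1 (.s k12 k6 2 (.d k8 k11 k4 0 1)))))) .n))) (.c k137 (.q k5 [(.s
  k15 k10 2 (.s k7 k11 1 (.s k6 k4 0 (.d k9 k13 k12 1 2)))), (.s k138 k207 10 (.s k133 k197 7 (.s
  k128 k143 2 (.s k192 k64 7 (.d k15 k10 k74 2 10))))), (.s k138 k207 10 (.s k13 k9 1 (.s k133 k197
  7 (.s k128 k143 2 (.s k192 k64 7 (.s k129 k66 8 (.d k193 k65 k73 7 9)))))))] (.c k15 (.l (.s k138
  k207 10 (.s k9 k13 1 (.s k12 k6 2 (.s k4 k8 1 (.s k134 k199 8 (.s k195 k73 10 (.d k130 k142 k65 1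
  8)))))))) .n)) (.c k138 (.q k5 [(.s k15 k10 2 (.s k7 k11 1 (.s k6 k4 0 (.d k9 k13 k12 1 2)))), (.s
  k13 k9 1 (.s k137 k205 9 (.s k133 k197 7 (.s k193 k73 9 (.d k129 k141 k65 1 7))))), (.s k15 k10 2
  (.s k137 k205 9 (.s k11 k7 1 (.s k133 k197 7 (.d k74 k200 k192 8 10)))))] (.c k70 (.q k206 [(.s
  k15 k10 2 (.s k7 k11 1 (.s k6 k4 0 (.d k9 k13 k12 1 2)))), (.s k13 k9 1 (.s k137 k205 9 (.s k133
  k197 7 (.s k193 k73 9 (.d k129 k141 k65 1 7))))), (.s k15 k10 2 (.s k137 k205 9 (.s k11 k7 1 (.s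
  k133 k197 7 (.d k74 k200 k192 8 10)))))] .n) (.c k206 (.q k70 [(.d k137 k205 k204 9 10), (.s k15
  k10 2 (.s k7 k11 1 (.d k133 k197 k196 7 8)))] .n) .n))) (.c k139 (.q k5 [(.s k15 k10 2 (.s k7 k11
  1 (.s k6 k4 0 (.d k9 k13 k12 1 2)))), (.s k138 k207 10 (.s k133 k197 7 (.s k128 k143 2 (.s k192
  k64 7 (.d k15 k10 k74 2 10))))), (.s k13 k9 1 (.s k137 k205 9 (.s k133 k197 7 (.s k193 k73 9 (.d
  k129 k141 k65 1 7)))))] .n) (.c k204 (.q k5 [(.s k15 k10 2 (.s k7 k11 1 (.s k6 k4 0 (.d k9 k13 k12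
  1 2)))), (.s k138 k207 10 (.s k133 k197 7 (.s k128 k143 2 (.s k192 k64 7 (.d k15 k10 k74 2
  10))))), (.s k13 k9 1 (.s k137 k205 9 (.s k133 k197 7 (.s k193 k73 9 (.d k129 k141 k65 1 7)))))]
  (.c k221 (.q k238 [(.s k15 k10 2 (.s k7 k11 1 (.s k6 k4 0 (.d k9 k13 k12 1 2)))), (.s k138 k207 10
  (.s k133 k197 7 (.s k128 k143 2 (.s k192 k64 7 (.d k15 k10 k74 2 10))))), (.s k13 k9 1 (.s k137
  k205 9 (.s k133 k197 7 (.s k193 k73 9 (.d k129 k141 k65 1 7)))))] .n) (.c k238 (.q k221 [(.s k15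
  k10 2 (.s k7 k11 1 (.s k6 k4 0 (.d k9 k13 k12 1 2)))), (.s k138 k207 10 (.s k133 k197 7 (.s k128
  k143 2 (.s k192 k64 7 (.d k15 k10 k74 2 10))))), (.s k13 k9 1 (.s k137 k205 9 (.s k133 k197 7 (.s
  k193 k73 9 (.d k129 k141 k65 1 7)))))] .n) .n))) (.c k205 (.q k5 [(.s k15 k10 2 (.s k7 k11 1 (.s
  k6 k4 0 (.d k9 k13 k12 1 2)))), (.s k138 k207 10 (.s k133 k197 7 (.s k128 k143 2 (.s k192 k64 7
  (.d k15 k10 k74 2 10))))), (.s k138 k207 10 (.s k13 k9 1 (.s k133 k197 7 (.s k193 k73 9 (.s k129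
  k65 7 (.s k192 k66 8 (.d k128 k64 k143 7 2)))))))] .n) (.c k206 (.l (.s k138 k207 10 (.s k137 k205
  9 (.s k204 k70 10 (.d k136 k139 k68 0 9))))) (.c k207 (.q k5 [(.s k15 k10 2 (.s k7 k11 1 (.s k6 k4
  0 (.d k9 k13 k12 1 2)))), (.s k13 k9 1 (.s k137 k205 9 (.s k133 k197 7 (.s k193 k73 9 (.d k129
  k141 k65 1 7))))), (.s k15 k10 2 (.s k137 k205 9 (.s k11 k7 1 (.s k133 k197 7 (.d k74 k192 k200 10
  8)))))] (.c k223 (.q k239 [(.s k15 k10 2 (.s k7 k11 1 (.s k6 k4 0 (.d k9 k13 k12 1 2)))), (.s k13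
  k9 1 (.s k137 k205 9 (.s k133 k197 7 (.s k193 k73 9 (.d k129 k141 k65 1 7))))), (.s k15 k10 2 (.s
  k137 k205 9 (.s k11 k7 1 (.s k133 k197 7 (.d k74 k192 k200 10 8)))))] .n) (.c k239 (.q k223 [(.s
  k15 k10 2 (.s k7 k11 1 (.s k6 k4 0 (.d k9 k13 k12 1 2)))), (.s k13 k9 1 (.s k137 k205 9 (.s k133
  k197 7 (.s k193 k73 9 (.d k129 k141 k65 1 7))))), (.s k15 k10 2 (.s k137 k205 9 (.s k11 k7 1 (.s
  k133 k197 7 (.d k74 k192 k200 10 8)))))] .n) .n))) .n)))))))))))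

def t27 : T TT 256 :=
  (.q k69 [(.s k1 k2 0 (.s k138 k207 10 (.s k137 k205 9 (.s k204 k70 10 (.d k136 k139 k68 0 9))))),
  (.s k1 k2 0 (.s k207 k138 10 (.s k137 k205 9 (.s k70 k204 10 (.d k71 k68 k139 0 9)))))] (.c k1 (.q
  k15 [(.s k5 k10 2 (.s k138 k207 10 (.s k133 k197 7 (.s k192 k74 10 (.d k128 k143 k64 2 7))))), (.s
  k207 k138 10 (.s k7 k11 1 (.s k71 k139 9 (.s k135 k199 7 (.s k75 k195 9 (.d k79 k67 k143 1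
  7)))))), (.s k5 k10 2 (.s k7 k11 1 (.s k133 k197 7 (.s k70 k196 8 (.s k204 k137 10 (.d k68 k71
  k136 0 9))))))] .n) (.c k2 (.q k15 [(.s k10 k5 2 (.s k138 k207 10 (.s k74 k202 7 (.s k192 k133 10
  (.d k64 k79 k128 2 7))))), (.s k207 k138 10 (.s k7 k11 1 (.s k71 k139 9 (.s k135 k199 7 (.s k75
  k195 9 (.d k79 k67 k143 1 7)))))), (.s k5 k10 2 (.s k7 k11 1 (.s k133 k197 7 (.s k70 k196 8 (.s
  k68 k71 0 (.d k204 k136 k137 9 10))))))] .n) (.c k68 (.q k15 [(.s k2 k1 0 (.s k11 k7 1 (.s k10 k5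
  2 (.s k9 k8 0 (.d k6 k14 k12 1 2))))), (.s k5 k10 2 (.s k138 k207 10 (.s k133 k197 7 (.s k192 k74
  10 (.d k128 k143 k64 2 7))))), (.s k1 k2 0 (.s k207 k138 10 (.s k137 k205 9 (.s k11 k7 1 (.s k74
  k200 8 (.d k79 k64 k143 2 7))))))] .n) (.c k70 (.q k15 [(.s k2 k1 0 (.s k10 k5 2 (.s k6 k14 1 (.s
  k9 k12 2 (.d k11 k8 k7 0 1))))), (.s k5 k10 2 (.s k138 k207 10 (.s k133 k197 7 (.s k192 k74 10 (.d
  k128 k143 k64 2 7))))), (.s k1 k2 0 (.s k137 k205 9 (.s k11 k7 1 (.s k74 k200 8 (.s k64 k79 2 (.d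
  k192 k133 k128 10 7))))))] .n) (.c k137 (.q k15 [(.s k2 k1 0 (.s k11 k7 1 (.s k10 k5 2 (.s k9 k8 0
  (.d k6 k14 k12 1 2))))), (.s k5 k10 2 (.s k138 k207 10 (.s k133 k197 7 (.s k128 k143 2 (.d k192
  k64 k74 7 10))))), (.s k207 k138 10 (.s k11 k7 1 (.s k139 k71 9 (.s k75 k203 7 (.s k135 k195 9 (.d
  k143 k131 k79 1 7))))))] .n) (.c k138 (.q k15 [(.s k2 k1 0 (.s k10 k5 2 (.s k6 k14 1 (.s k9 k12 2
  (.d k11 k8 k7 0 1))))), (.s k1 k2 0 (.s k137 k205 9 (.s k11 k7 1 (.s k74 k200 8 (.s k192 k133 10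
  (.d k64 k128 k79 7 2)))))), (.s k5 k10 2 (.s k7 k11 1 (.s k133 k197 7 (.s k70 k196 8 (.s k204 k137
  10 (.d k68 k136 k71 9 0)))))), (.s k1 k2 0 (.s k5 k10 2 (.s k137 k205 9 (.s k133 k197 7 (.s k129
  k141 1 (.d k192 k74 k66 10 8))))))] .n) (.c k139 (.l (.s k2 k1 0 (.s k138 k207 10 (.s k70 k206 9
  (.s k204 k137 10 (.d k68 k71 k136 0 9)))))) (.c k204 (.q k15 [(.s k2 k1 0 (.s k11 k7 1 (.s k10 k5
  2 (.s k9 k8 0 (.d k6 k14 k12 1 2))))), (.s k5 k10 2 (.s k138 k207 10 (.s k133 k197 7 (.s k192 k74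
  10 (.d k128 k143 k64 2 7))))), (.s k1 k2 0 (.s k207 k138 10 (.s k137 k205 9 (.s k11 k7 1 (.s k74
  k200 8 (.d k79 k64 k143 2 7))))))] (.c k221 (.q k238 [(.s k2 k1 0 (.s k11 k7 1 (.s k10 k5 2 (.s k9
  k8 0 (.d k6 k14 k12 1 2))))), (.s k5 k10 2 (.s k138 k207 10 (.s k133 k197 7 (.s k192 k74 10 (.d
  k128 k143 k64 2 7))))), (.s k1 k2 0 (.s k207 k138 10 (.s k137 k205 9 (.s k11 k7 1 (.s k74 k200 8
  (.d k79 k64 k143 2 7))))))] .n) (.c k238 (.q k221 [(.s k2 k1 0 (.s k11 k7 1 (.s k10 k5 2 (.s k9 k8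
  0 (.d k6 k14 k12 1 2))))), (.s k5 k10 2 (.s k138 k207 10 (.s k133 k197 7 (.s k192 k74 10 (.d k128
  k143 k64 2 7))))), (.s k1 k2 0 (.s k207 k138 10 (.s k137 k205 9 (.s k11 k7 1 (.s k74 k200 8 (.d
  k79 k64 k143 2 7))))))] .n) .n))) (.c k205 (.l (.s k2 k1 0 (.s k138 k207 10 (.s k70 k206 9 (.s
  k204 k137 10 (.d k68 k71 k136 0 9)))))) (.c k206 (.l (.s k1 k2 0 (.s k138 k207 10 (.s k137 k205 9
  (.s k204 k70 10 (.d k136 k139 k68 0 9)))))) (.c k207 (.q k15 [(.s k2 k1 0 (.s k11 k7 1 (.s k10 k5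
  2 (.s k9 k8 0 (.d k6 k14 k12 1 2))))), (.s k1 k2 0 (.s k137 k205 9 (.s k11 k7 1 (.s k74 k200 8 (.s
  k192 k133 10 (.d k64 k79 k128 2 7)))))), (.s k5 k10 2 (.s k7 k11 1 (.s k133 k197 7 (.s k70 k196 8
  (.s k204 k137 10 (.d k68 k71 k136 0 9)))))), (.s k1 k2 0 (.s k5 k10 2 (.s k137 k205 9 (.s k204 k70
  10 (.s k133 k197 7 (.d k141 k129 k78 1 8))))))] (.c k223 (.q k239 [(.s k2 k1 0 (.s k11 k7 1 (.s
  k10 k5 2 (.s k9 k8 0 (.d k6 k14 k12 1 2))))), (.s k1 k2 0 (.s k137 k205 9 (.s k11 k7 1 (.s k74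
  k200 8 (.s k192 k133 10 (.d k64 k79 k128 2 7)))))), (.s k5 k10 2 (.s k7 k11 1 (.s k133 k197 7 (.s
  k70 k196 8 (.s k204 k137 10 (.d k68 k71 k136 0 9)))))), (.s k1 k2 0 (.s k5 k10 2 (.s k137 k205 9
  (.s k204 k70 10 (.s k133 k197 7 (.d k141 k129 k78 1 8))))))] .n) (.c k239 (.q k223 [(.s k2 k1 0
  (.s k11 k7 1 (.s k10 k5 2 (.s k9 k8 0 (.d k6 k14 k12 1 2))))), (.s k1 k2 0 (.s k137 k205 9 (.s k11
  k7 1 (.s k74 k200 8 (.s k192 k133 10 (.d k64 k79 k128 2 7)))))), (.s k5 k10 2 (.s k7 k11 1 (.s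
  k133 k197 7 (.s k70 k196 8 (.s k204 k137 10 (.d k68 k71 k136 0 9)))))), (.s k1 k2 0 (.s k5 k10 2
  (.s k137 k205 9 (.s k204 k70 10 (.s k133 k197 7 (.d k141 k129 k78 1 8))))))] .n) .n)))
  .n))))))))))))

def t28 : T TT 256 :=
  (.q k69 [(.s k1 k2 0 (.s k138 k207 10 (.s k137 k205 9 (.s k204 k70 10 (.d k136 k139 k68 0 9))))),
  (.s k1 k2 0 (.s k207 k138 10 (.s k137 k205 9 (.s k70 k204 10 (.d k71 k68 k139 0 9)))))] (.c k1 (.q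
  k15 [(.s k5 k10 2 (.s k138 k207 10 (.s k133 k197 7 (.s k192 k74 10 (.d k128 k143 k64 2 7))))), (.s
  k207 k138 10 (.s k7 k11 1 (.s k71 k139 9 (.s k135 k199 7 (.s k75 k195 9 (.d k79 k67 k143 1
  7)))))), (.s k5 k10 2 (.s k7 k11 1 (.s k133 k197 7 (.s k70 k196 8 (.s k204 k137 10 (.d k68 k71
  k136 0 9))))))] .n) (.c k2 (.q k15 [(.s k10 k5 2 (.s k138 k207 10 (.s k74 k202 7 (.s k192 k133 10
  (.d k64 k79 k128 2 7))))), (.s k207 k138 10 (.s k7 k11 1 (.s k71 k139 9 (.s k135 k199 7 (.s k75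
  k195 9 (.d k79 k67 k143 1 7)))))), (.s k5 k10 2 (.s k7 k11 1 (.s k133 k197 7 (.s k70 k196 8 (.s
  k68 k71 0 (.d k204 k136 k137 9 10))))))] .n) (.c k68 (.q k15 [(.s k1 k2 0 (.s k5 k10 2 (.s k9 k13
  1 (.s k7 k11 1 (.d k6 k4 k12 0 2))))), (.s k5 k10 2 (.s k138 k207 10 (.s k133 k197 7 (.s k192 k74
  10 (.d k128 k143 k64 2 7))))), (.s k1 k2 0 (.s k207 k138 10 (.s k137 k205 9 (.s k11 k7 1 (.s k74
  k200 8 (.d k79 k64 k143 2 7))))))] .n) (.c k70 (.q k15 [(.s k1 k2 0 (.s k5 k10 2 (.s k9 k13 1 (.s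
  k7 k11 1 (.d k6 k4 k12 0 2))))), (.s k5 k10 2 (.s k138 k207 10 (.s k133 k197 7 (.s k192 k74 10 (.d
  k128 k143 k64 2 7))))), (.s k1 k2 0 (.s k137 k205 9 (.s k11 k7 1 (.s k74 k200 8 (.s k64 k79 2 (.d
  k192 k133 k128 10 7))))))] (.c k138 (.l (.s k2 k1 0 (.s k10 k5 2 (.s k6 k14 1 (.s k9 k12 2 (.d k11
  k8 k7 0 1)))))) .n)) (.c k137 (.q k15 [(.s k2 k1 0 (.s k11 k7 1 (.s k10 k5 2 (.s k9 k8 0 (.d k6
  k14 k12 1 2))))), (.s k5 k10 2 (.s k138 k207 10 (.s k133 k197 7 (.s k128 k143 2 (.d k192 k64 k74 7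
  10))))), (.s k207 k138 10 (.s k11 k7 1 (.s k139 k71 9 (.s k75 k203 7 (.s k135 k195 9 (.d k143 k131
  k79 1 7))))))] .n) (.c k138 (.q k15 [(.s k2 k1 0 (.s k11 k7 1 (.s k10 k5 2 (.s k9 k8 0 (.d k6 k14
  k12 1 2))))), (.s k1 k2 0 (.s k137 k205 9 (.s k11 k7 1 (.s k74 k200 8 (.s k192 k133 10 (.d k64
  k128 k79 7 2)))))), (.s k5 k10 2 (.s k7 k11 1 (.s k133 k197 7 (.s k70 k196 8 (.s k204 k137 10 (.d
  k68 k136 k71 9 0)))))), (.s k1 k2 0 (.s k5 k10 2 (.s k137 k205 9 (.s k133 k197 7 (.s k129 k141 1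
  (.d k192 k74 k66 10 8))))))] .n) (.c k139 (.l (.s k2 k1 0 (.s k138 k207 10 (.s k70 k206 9 (.s k204
  k137 10 (.d k68 k71 k136 0 9)))))) (.c k204 (.q k15 [(.s k1 k2 0 (.s k5 k10 2 (.s k9 k13 1 (.s k7
  k11 1 (.d k6 k4 k12 0 2))))), (.s k5 k10 2 (.s k138 k207 10 (.s k133 k197 7 (.s k192 k74 10 (.d
  k128 k143 k64 2 7))))), (.s k1 k2 0 (.s k207 k138 10 (.s k137 k205 9 (.s k11 k7 1 (.s k74 k200 8
  (.d k79 k64 k143 2 7))))))] (.c k221 (.q k238 [(.s k1 k2 0 (.s k5 k10 2 (.s k9 k13 1 (.s k7 k11 1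
  (.d k6 k4 k12 0 2))))), (.s k5 k10 2 (.s k138 k207 10 (.s k133 k197 7 (.s k192 k74 10 (.d k128
  k143 k64 2 7))))), (.s k1 k2 0 (.s k207 k138 10 (.s k137 k205 9 (.s k11 k7 1 (.s k74 k200 8 (.d
  k79 k64 k143 2 7))))))] .n) (.c k238 (.q k221 [(.s k1 k2 0 (.s k5 k10 2 (.s k9 k13 1 (.s k7 k11 1
  (.d k6 k4 k12 0 2))))), (.s k5 k10 2 (.s k138 k207 10 (.s k133 k197 7 (.s k192 k74 10 (.d k128
  k143 k64 2 7))))), (.s k1 k2 0 (.s k207 k138 10 (.s k137 k205 9 (.s k11 k7 1 (.s k74 k200 8 (.d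
  k79 k64 k143 2 7))))))] .n) .n))) (.c k205 (.l (.s k2 k1 0 (.s k138 k207 10 (.s k70 k206 9 (.s
  k204 k137 10 (.d k68 k71 k136 0 9)))))) (.c k206 (.l (.s k1 k2 0 (.s k138 k207 10 (.s k137 k205 9
  (.s k204 k70 10 (.d k136 k139 k68 0 9)))))) (.c k207 (.q k15 [(.s k1 k2 0 (.s k5 k10 2 (.s k9 k13
  1 (.s k7 k11 1 (.d k6 k4 k12 0 2))))), (.s k1 k2 0 (.s k137 k205 9 (.s k11 k7 1 (.s k74 k200 8 (.s
  k192 k133 10 (.d k64 k79 k128 2 7)))))), (.s k5 k10 2 (.s k7 k11 1 (.s k133 k197 7 (.s k70 k196 8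
  (.s k204 k137 10 (.d k68 k71 k136 0 9)))))), (.s k1 k2 0 (.s k5 k10 2 (.s k137 k205 9 (.s k204 k70
  10 (.s k133 k197 7 (.d k141 k129 k78 1 8))))))] (.c k223 (.q k239 [(.s k1 k2 0 (.s k5 k10 2 (.s k9
  k13 1 (.s k7 k11 1 (.d k6 k4 k12 0 2))))), (.s k1 k2 0 (.s k137 k205 9 (.s k11 k7 1 (.s k74 k200 8
  (.s k192 k133 10 (.d k64 k79 k128 2 7)))))), (.s k5 k10 2 (.s k7 k11 1 (.s k133 k197 7 (.s k70
  k196 8 (.s k204 k137 10 (.d k68 k71 k136 0 9)))))), (.s k1 k2 0 (.s k5 k10 2 (.s k137 k205 9 (.s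
  k204 k70 10 (.s k133 k197 7 (.d k141 k129 k78 1 8))))))] (.c k93 (.q k158 [(.s k2 k1 0 (.s k10 k5
  2 (.s k6 k14 1 (.s k11 k7 1 (.d k9 k12 k8 2 0))))), (.s k1 k2 0 (.s k137 k205 9 (.s k11 k7 1 (.s
  k74 k200 8 (.s k192 k133 10 (.d k64 k79 k128 2 7)))))), (.s k5 k10 2 (.s k7 k11 1 (.s k133 k197 7
  (.s k70 k196 8 (.s k204 k137 10 (.d k68 k71 k136 0 9)))))), (.s k1 k2 0 (.s k5 k10 2 (.s k137 k205
  9 (.s k204 k70 10 (.s k133 k197 7 (.d k141 k129 k78 1 8))))))] (.c k12 (.q k174 [(.s k1 k2 0 (.s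
  k137 k205 9 (.s k11 k7 1 (.s k74 k200 8 (.s k192 k133 10 (.d k64 k79 k128 2 7)))))), (.s k2 k1 0
  (.s k10 k5 2 (.s k14 k6 1 (.s k254 k94 11 (.s k170 k86 13 (.s k90 k250 11 (.d k166 k162 k242 1
  13))))))), (.s k5 k10 2 (.s k7 k11 1 (.s k133 k197 7 (.s k70 k196 8 (.s k204 k137 10 (.d k68 k71
  k136 0 9))))))] (.c k7 (.l (.s k1 k2 0 (.s k5 k10 2 (.s k137 k205 9 (.s k204 k70 10 (.s k133 k197
  7 (.d k141 k129 k78 1 8))))))) (.c k44 (.q k60 [(.s k1 k2 0 (.s k40 k20 5 (.s k41 k22 6 (.s k21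
  k61 5 (.d k42 k43 k63 0 6))))), (.s k2 k1 0 (.s k10 k5 2 (.s k14 k6 1 (.s k94 k254 11 (.d k30 k45
  k222 4 7))))), (.s k7 k11 1 (.s k22 k41 6 (.s k37 k52 4 (.s k26 k48 6 (.d k30 k18 k45 1 4)))))]
  (.c k77 (.l (.s k142 k190 3 (.s k1 k2 0 (.s k40 k20 5 (.s k41 k22 6 (.s k21 k61 5 (.d k42 k43 k63
  0 6))))))) (.c k142 (.q k77 [(.s k1 k2 0 (.s k5 k10 2 (.s k205 k137 9 (.d k13 k9 k141 1 7)))), (.s
  k7 k11 1 (.s k22 k41 6 (.s k37 k52 4 (.s k26 k48 6 (.d k30 k18 k45 1 4)))))] .n) .n))) (.c k60 (.l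
  (.s k44 k109 8 (.s k1 k2 0 (.s k5 k10 2 (.s k137 k205 9 (.s k7 k11 1 (.s k133 k197 7 (.d k70 k204
  k196 10 8)))))))) (.c k77 (.l (.s k142 k190 3 (.s k1 k2 0 (.s k5 k10 2 (.s k137 k205 9 (.s k7 k11
  1 (.s k133 k197 7 (.d k70 k204 k196 10 8)))))))) (.c k142 (.q k77 [(.s k1 k2 0 (.s k5 k10 2 (.s
  k205 k137 9 (.d k13 k9 k141 1 7)))), (.s k5 k10 2 (.s k7 k11 1 (.s k133 k197 7 (.s k70 k196 8 (.s
  k204 k137 10 (.d k68 k71 k136 0 9)))))), (.s k1 k2 0 (.s k137 k205 9 (.s k11 k7 1 (.s k74 k200 8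
  (.s k192 k133 10 (.d k64 k79 k128 2 7))))))] (.c k44 (.q k60 [(.s k1 k2 0 (.s k5 k10 2 (.s k205
  k137 9 (.d k13 k9 k141 1 7)))), (.s k7 k11 1 (.s k22 k41 6 (.s k37 k52 4 (.s k26 k48 6 (.d k30 k18
  k45 1 4)))))] .n) (.c k60 (.l (.s k44 k109 8 (.s k1 k2 0 (.s k5 k10 2 (.s k13 k9 1 (.d k205 k141
  k137 7 9)))))) (.c k137 (.l (.s k1 k2 0 (.s k5 k10 2 (.s k13 k9 1 (.s k133 k197 7 (.d k73 k65 k193
  1 9)))))) .n)))) .n)))))) (.c k174 (.q k12 [(.s k1 k2 0 (.s k5 k10 2 (.d k9 k6 k13 2 1))), (.s k1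
  k2 0 (.s k4 k8 1 (.s k137 k205 9 (.s k204 k70 10 (.s k134 k199 8 (.d k140 k131 k76 2 7)))))), (.s
  k4 k8 1 (.s k5 k10 2 (.d k6 k9 k7 2 0)))] .n) .n))) (.c k158 (.q k93 [(.s k1 k2 0 (.s k5 k10 2 (.s
  k9 k13 1 (.s k7 k11 1 (.d k6 k4 k12 0 2))))), (.s k1 k2 0 (.s k137 k205 9 (.s k11 k7 1 (.s k74
  k200 8 (.s k192 k133 10 (.d k64 k79 k128 2 7)))))), (.s k5 k10 2 (.s k7 k11 1 (.s k133 k197 7 (.s
  k70 k196 8 (.s k204 k137 10 (.d k68 k71 k136 0 9)))))), (.s k1 k2 0 (.s k5 k10 2 (.s k137 k205 9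
  (.s k204 k70 10 (.s k133 k197 7 (.d k141 k129 k78 1 8))))))] (.c k60 (.q k109 [(.s k1 k2 0 (.s k5
  k10 2 (.s k9 k13 1 (.s k7 k11 1 (.d k6 k12 k4 2 0))))), (.s k1 k2 0 (.s k137 k205 9 (.s k11 k7 1
  (.s k74 k200 8 (.s k192 k133 10 (.d k64 k79 k128 2 7)))))), (.s k5 k10 2 (.s k7 k11 1 (.s k133
  k197 7 (.s k70 k196 8 (.s k204 k137 10 (.d k68 k71 k136 0 9)))))), (.s k1 k2 0 (.s k5 k10 2 (.s k9
  k13 1 (.s k137 k205 9 (.s k73 k201 7 (.d k77 k125 k65 3 1))))))] (.c k12 (.l (.s k44 k174 8 (.s k1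
  k2 0 (.s k5 k10 2 (.s k13 k9 1 (.s k205 k137 9 (.d k77 k125 k141 3 7))))))) (.c k44 (.q k12 [(.s
  k1 k2 0 (.s k5 k10 2 (.d k9 k6 k13 2 1))), (.s k4 k8 1 (.s k5 k10 2 (.d k6 k9 k7 2 0))), (.s k1 k2
  0 (.s k205 k137 9 (.s k13 k14 0 (.d k77 k125 k141 3 7))))] (.c k6 (.l (.s k1 k2 0 (.s k10 k5 2 (.s
  k205 k137 9 (.s k13 k14 0 (.d k77 k125 k141 3 7)))))) (.c k10 (.l (.s k1 k2 0 (.s k205 k137 9 (.s
  k6 k9 2 (.s k13 k14 0 (.d k77 k125 k141 3 7)))))) (.c k125 (.q k190 [(.s k1 k2 0 (.s k5 k10 2 (.d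
  k9 k6 k13 2 1))), (.s k1 k2 0 (.s k4 k8 1 (.s k137 k205 9 (.s k204 k70 10 (.s k134 k199 8 (.d k140
  k131 k76 2 7)))))), (.s k4 k8 1 (.s k5 k10 2 (.d k6 k9 k7 2 0)))] .n) (.c k190 (.l (.s k125 k77 3
  (.s k1 k2 0 (.s k5 k10 2 (.d k9 k6 k13 2 1))))) .n))))) (.c k125 (.q k190 [(.s k1 k2 0 (.s k5 k10
  2 (.s k9 k13 1 (.s k7 k11 1 (.d k6 k12 k4 2 0))))), (.s k1 k2 0 (.s k137 k205 9 (.s k11 k7 1 (.s
  k74 k200 8 (.s k192 k133 10 (.d k64 k79 k128 2 7)))))), (.s k5 k10 2 (.s k7 k11 1 (.s k133 k197 7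
  (.s k70 k196 8 (.s k204 k137 10 (.d k68 k71 k136 0 9)))))), (.s k1 k2 0 (.s k5 k10 2 (.s k137 k205
  9 (.s k204 k70 10 (.s k133 k197 7 (.d k141 k129 k78 1 8))))))] (.c k12 (.l (.s k44 k174 8 (.s k1
  k2 0 (.s k5 k10 2 (.s k137 k205 9 (.s k7 k11 1 (.s k133 k197 7 (.d k70 k204 k196 10 8)))))))) (.c
  k44 (.q k12 [(.s k1 k2 0 (.s k5 k10 2 (.d k9 k6 k13 2 1))), (.s k1 k2 0 (.s k4 k8 1 (.s k137 k205
  9 (.s k204 k70 10 (.s k134 k199 8 (.d k140 k131 k76 2 7)))))), (.s k4 k8 1 (.s k5 k10 2 (.d k6 k9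
  k7 2 0)))] .n) .n))) (.c k190 (.l (.s k125 k77 3 (.s k1 k2 0 (.s k5 k10 2 (.s k9 k13 1 (.s k7 k11
  1 (.d k6 k12 k4 2 0))))))) .n))))) (.c k109 (.q k60 [(.s k1 k2 0 (.s k5 k10 2 (.s k9 k13 1 (.s k7
  k11 1 (.d k6 k4 k12 0 2))))), (.s k7 k11 1 (.s k22 k41 6 (.s k37 k52 4 (.s k26 k48 6 (.d k30 k18
  k45 1 4))))), (.s k1 k2 0 (.s k40 k20 5 (.s k41 k22 6 (.s k21 k61 5 (.d k42 k43 k63 0 6)))))] .n)
  .n))) .n))) (.c k239 (.q k223 [(.s k1 k2 0 (.s k5 k10 2 (.s k9 k13 1 (.s k7 k11 1 (.d k6 k4 k12 0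
  2))))), (.s k1 k2 0 (.s k137 k205 9 (.s k11 k7 1 (.s k74 k200 8 (.s k192 k133 10 (.d k64 k79 k128
  2 7)))))), (.s k5 k10 2 (.s k7 k11 1 (.s k133 k197 7 (.s k70 k196 8 (.s k204 k137 10 (.d k68 k71
  k136 0 9)))))), (.s k1 k2 0 (.s k5 k10 2 (.s k137 k205 9 (.s k204 k70 10 (.s k133 k197 7 (.d k141
  k129 k78 1 8))))))] .n) .n))) .n))))))))))))

def t29 : T TT 256 :=
  (.f k1 k2 0 (.q k69 [(.s k138 k207 10 (.s k137 k205 9 (.s k204 k70 10 (.d k136 k139 k68 0 9)))),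
  (.s k207 k138 10 (.s k137 k205 9 (.s k70 k204 10 (.d k71 k68 k139 0 9))))] (.c k68 (.q k5 [(.s k13
  k9 1 (.s k137 k205 9 (.s k133 k197 7 (.s k193 k73 9 (.d k129 k141 k65 1 7))))), (.s k10 k15 2 (.s
  k9 k13 1 (.s k12 k6 2 (.d k8 k11 k4 0 1)))), (.s k15 k10 2 (.s k138 k207 10 (.s k133 k197 7 (.s
  k192 k74 10 (.d k128 k143 k64 2 7)))))] .n) (.c k70 (.q k5 [(.s k15 k10 2 (.s k7 k11 1 (.s k6 k4 0
  (.d k9 k13 k12 1 2)))), (.s k138 k207 10 (.s k133 k197 7 (.s k128 k143 2 (.s k192 k64 7 (.d k15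
  k10 k74 2 10))))), (.s k13 k9 1 (.s k137 k205 9 (.s k133 k197 7 (.s k193 k73 9 (.d k129 k141 k65 1
  7)))))] (.c k138 (.q k206 [(.s k15 k10 2 (.s k7 k11 1 (.s k6 k4 0 (.d k9 k13 k12 1 2)))), (.s k13
  k9 1 (.s k137 k205 9 (.s k133 k197 7 (.s k193 k73 9 (.d k129 k141 k65 1 7))))), (.s k15 k10 2 (.s
  k137 k205 9 (.s k11 k7 1 (.s k133 k197 7 (.d k74 k200 k192 8 10)))))] .n) (.c k206 (.l (.s k138
  k207 10 (.s k10 k15 2 (.s k9 k13 1 (.s k12 k6 2 (.d k8 k11 k4 0 1)))))) .n))) (.c k137 (.q k5 [(.s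
  k15 k10 2 (.s k7 k11 1 (.s k6 k4 0 (.d k9 k13 k12 1 2)))), (.s k138 k207 10 (.s k133 k197 7 (.s
  k128 k143 2 (.s k192 k64 7 (.d k15 k10 k74 2 10))))), (.s k138 k207 10 (.s k13 k9 1 (.s k133 k197
  7 (.s k128 k143 2 (.s k192 k64 7 (.s k129 k66 8 (.d k193 k65 k73 7 9)))))))] (.c k15 (.l (.s k138
  k207 10 (.s k9 k13 1 (.s k12 k6 2 (.s k4 k8 1 (.s k134 k199 8 (.s k195 k73 10 (.d k130 k142 k65 1
  8)))))))) .n)) (.c k138 (.q k5 [(.s k15 k10 2 (.s k7 k11 1 (.s k6 k4 0 (.d k9 k13 k12 1 2)))), (.s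
  k13 k9 1 (.s k137 k205 9 (.s k133 k197 7 (.s k193 k73 9 (.d k129 k141 k65 1 7))))), (.s k15 k10 2
  (.s k137 k205 9 (.s k11 k7 1 (.s k133 k197 7 (.d k74 k200 k192 8 10)))))] (.c k70 (.q k206 [(.s
  k15 k10 2 (.s k7 k11 1 (.s k6 k4 0 (.d k9 k13 k12 1 2)))), (.s k13 k9 1 (.s k137 k205 9 (.s k133
  k197 7 (.s k193 k73 9 (.d k129 k141 k65 1 7))))), (.s k15 k10 2 (.s k137 k205 9 (.s k11 k7 1 (.s
  k133 k197 7 (.d k74 k200 k192 8 10)))))] .n) (.c k206 (.q k70 [(.d k137 k205 k204 9 10), (.s k15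
  k10 2 (.s k7 k11 1 (.d k133 k197 k196 7 8)))] .n) .n))) (.c k139 (.q k5 [(.s k13 k9 1 (.s k137
  k205 9 (.s k133 k197 7 (.s k193 k73 9 (.d k129 k141 k65 1 7))))), (.s k10 k15 2 (.s k9 k13 1 (.s
  k12 k6 2 (.d k8 k11 k4 0 1)))), (.s k15 k10 2 (.s k138 k207 10 (.s k133 k197 7 (.s k192 k74 10 (.d
  k128 k143 k64 2 7)))))] .n) (.c k204 (.q k5 [(.s k15 k10 2 (.s k7 k11 1 (.s k6 k4 0 (.d k9 k13 k12
  1 2)))), (.s k138 k207 10 (.s k133 k197 7 (.s k128 k143 2 (.s k192 k64 7 (.d k15 k10 k74 2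
  10))))), (.s k13 k9 1 (.s k137 k205 9 (.s k133 k197 7 (.s k193 k73 9 (.d k129 k141 k65 1 7)))))]
  (.c k221 (.q k238 [(.s k15 k10 2 (.s k7 k11 1 (.s k6 k4 0 (.d k9 k13 k12 1 2)))), (.s k138 k207 10
  (.s k133 k197 7 (.s k128 k143 2 (.s k192 k64 7 (.d k15 k10 k74 2 10))))), (.s k13 k9 1 (.s k137
  k205 9 (.s k133 k197 7 (.s k193 k73 9 (.d k129 k141 k65 1 7)))))] (.c k93 (.q k157 [(.s k15 k10 2
  (.s k7 k11 1 (.s k6 k4 0 (.d k9 k12 k13 2 1)))), (.s k138 k207 10 (.s k133 k197 7 (.s k128 k143 2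
  (.s k192 k64 7 (.d k15 k10 k74 2 10))))), (.s k13 k9 1 (.s k137 k205 9 (.s k133 k197 7 (.s k193
  k73 9 (.d k129 k141 k65 1 7)))))] (.c k12 (.q k174 [(.s k13 k9 1 (.s k137 k205 9 (.s k133 k197 7
  (.s k193 k73 9 (.d k129 k141 k65 1 7))))), (.s k15 k10 2 (.s k207 k138 10 (.s k133 k197 7 (.s k74
  k192 10 (.d k79 k64 k143 2 7))))), (.s k15 k10 2 (.s k207 k138 10 (.s k137 k205 9 (.s k11 k7 1 (.s
  k74 k200 8 (.d k79 k64 k143 2 7)))))), (.s k15 k10 2 (.s k133 k197 7 (.s k192 k74 10 (.s k129 k66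
  8 (.d k137 k141 k205 1 9)))))] (.c k46 (.q k63 [(.s k205 k137 9 (.s k61 k109 11 (.d k21 k41 k42 5
  6))), (.s k15 k10 2 (.s k138 k207 10 (.s k133 k197 7 (.s k192 k74 10 (.d k128 k143 k64 2 7))))),
  (.s k15 k10 2 (.s k21 k42 6 (.s k37 k53 3 (.s k26 k48 6 (.d k31 k16 k47 2 3)))))] (.c k76 (.l (.s
  k140 k191 4 (.s k21 k42 6 (.s k61 k41 5 (.d k205 k137 k109 9 11))))) (.c k140 (.q k76 [(.s k205
  k137 9 (.s k61 k109 11 (.d k21 k41 k42 5 6))), (.s k15 k10 2 (.s k138 k207 10 (.s k133 k197 7 (.s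
  k192 k74 10 (.d k128 k143 k64 2 7))))), (.s k15 k10 2 (.s k21 k42 6 (.s k37 k53 3 (.s k26 k48 6
  (.d k31 k16 k47 2 3)))))] .n) .n))) (.c k63 (.l (.s k46 k110 7 (.s k15 k10 2 (.s k138 k207 10 (.s
  k133 k197 7 (.s k192 k74 10 (.d k128 k143 k64 2 7))))))) (.c k76 (.l (.s k140 k191 4 (.s k15 k10 2
  (.s k138 k207 10 (.s k133 k197 7 (.s k192 k74 10 (.d k128 k143 k64 2 7))))))) (.c k140 (.q k76
  [(.s k13 k9 1 (.s k137 k205 9 (.s k133 k197 7 (.s k193 k73 9 (.d k129 k141 k65 1 7))))), (.s k15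
  k10 2 (.s k207 k138 10 (.s k133 k197 7 (.s k74 k192 10 (.d k79 k64 k143 2 7))))), (.s k15 k10 2
  (.s k207 k138 10 (.s k137 k205 9 (.s k11 k7 1 (.s k74 k200 8 (.d k79 k64 k143 2 7)))))), (.s k15
  k10 2 (.s k133 k197 7 (.s k192 k74 10 (.s k129 k66 8 (.d k137 k141 k205 1 9)))))] (.c k46 (.q k63
  [(.s k205 k137 9 (.s k61 k109 11 (.d k21 k41 k42 5 6))), (.s k15 k10 2 (.s k138 k207 10 (.s k133
  k197 7 (.s k192 k74 10 (.d k128 k143 k64 2 7))))), (.s k15 k10 2 (.s k21 k42 6 (.s k37 k53 3 (.s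
  k26 k48 6 (.d k31 k16 k47 2 3)))))] .n) (.c k63 (.l (.s k46 k110 7 (.s k15 k10 2 (.s k138 k207 10
  (.s k133 k197 7 (.s k192 k74 10 (.d k128 k143 k64 2 7))))))) .n))) .n))))) (.c k174 (.q k12 [(.d
  k9 k13 k6 1 2), (.s k4 k8 1 (.s k7 k6 0 (.d k15 k10 k11 2 1)))] (.c k6 (.l (.s k13 k9 1 (.d k15
  k14 k10 0 2))) .n)) .n))) (.c k157 (.q k93 [(.s k15 k10 2 (.s k7 k11 1 (.s k6 k4 0 (.d k9 k13 k12
  1 2)))), (.s k138 k207 10 (.s k133 k197 7 (.s k128 k143 2 (.s k192 k64 7 (.d k15 k10 k74 2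
  10))))), (.s k13 k9 1 (.s k137 k205 9 (.s k133 k197 7 (.s k193 k73 9 (.d k129 k141 k65 1 7)))))]
  (.c k63 (.q k110 [(.s k15 k10 2 (.s k7 k11 1 (.s k6 k4 0 (.d k9 k12 k13 2 1)))), (.s k138 k207 10
  (.s k133 k197 7 (.s k128 k143 2 (.s k192 k64 7 (.d k15 k10 k74 2 10))))), (.s k13 k9 1 (.s k137
  k205 9 (.s k133 k197 7 (.s k193 k73 9 (.d k129 k141 k65 1 7)))))] (.c k12 (.l (.s k46 k174 7 (.s
  k15 k10 2 (.s k138 k207 10 (.s k133 k197 7 (.s k192 k74 10 (.d k128 k143 k64 2 7))))))) (.c k46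
  (.q k12 [(.d k9 k13 k6 1 2), (.s k4 k8 1 (.s k7 k6 0 (.d k15 k10 k11 2 1)))] (.c k6 (.l (.s k13 k9
  1 (.d k15 k14 k10 0 2))) (.c k127 (.q k191 [(.d k9 k13 k6 1 2), (.s k4 k8 1 (.s k7 k6 0 (.d k15
  k10 k11 2 1)))] (.c k6 (.l (.s k13 k9 1 (.d k15 k14 k10 0 2))) .n)) (.c k191 (.l (.s k127 k76 4
  (.d k9 k13 k6 1 2))) .n)))) (.c k127 (.q k191 [(.s k15 k10 2 (.s k7 k11 1 (.s k6 k4 0 (.d k9 k12
  k13 2 1)))), (.s k138 k207 10 (.s k133 k197 7 (.s k128 k143 2 (.s k192 k64 7 (.d k15 k10 k74 2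
  10))))), (.s k13 k9 1 (.s k137 k205 9 (.s k133 k197 7 (.s k193 k73 9 (.d k129 k141 k65 1 7)))))]
  (.c k12 (.l (.s k46 k174 7 (.s k15 k10 2 (.s k138 k207 10 (.s k133 k197 7 (.s k192 k74 10 (.d k128
  k143 k64 2 7))))))) (.c k46 (.q k12 [(.d k9 k13 k6 1 2), (.s k4 k8 1 (.s k7 k6 0 (.d k15 k10 k11 2
  1)))] (.c k6 (.l (.s k13 k9 1 (.d k15 k14 k10 0 2))) .n)) .n))) (.c k191 (.l (.s k127 k76 4 (.s
  k10 k15 2 (.s k9 k13 1 (.s k12 k6 2 (.d k8 k11 k4 0 1)))))) .n))))) (.c k110 (.q k63 [(.s k21 k42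
  6 (.s k23 k43 5 (.s k22 k20 0 (.d k41 k61 k60 5 6)))), (.s k15 k10 2 (.s k7 k11 1 (.s k6 k4 0 (.d
  k9 k13 k12 1 2))))] .n) .n))) .n))) (.c k238 (.q k221 [(.s k15 k10 2 (.s k7 k11 1 (.s k6 k4 0 (.d
  k9 k13 k12 1 2)))), (.s k138 k207 10 (.s k133 k197 7 (.s k128 k143 2 (.s k192 k64 7 (.d k15 k10
  k74 2 10))))), (.s k13 k9 1 (.s k137 k205 9 (.s k133 k197 7 (.s k193 k73 9 (.d k129 k141 k65 1
  7)))))] .n) .n))) (.c k205 (.q k5 [(.s k15 k10 2 (.s k7 k11 1 (.s k6 k4 0 (.d k9 k13 k12 1 2)))),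
  (.s k138 k207 10 (.s k133 k197 7 (.s k128 k143 2 (.s k192 k64 7 (.d k15 k10 k74 2 10))))), (.s
  k138 k207 10 (.s k13 k9 1 (.s k133 k197 7 (.s k193 k73 9 (.s k129 k65 7 (.s k192 k66 8 (.d k128
  k64 k143 7 2)))))))] .n) (.c k206 (.l (.s k138 k207 10 (.s k137 k205 9 (.s k204 k70 10 (.d k136
  k139 k68 0 9))))) (.c k207 (.q k5 [(.s k15 k10 2 (.s k7 k11 1 (.s k6 k4 0 (.d k9 k13 k12 1 2)))),
  (.s k13 k9 1 (.s k137 k205 9 (.s k133 k197 7 (.s k193 k73 9 (.d k129 k141 k65 1 7))))), (.s k15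
  k10 2 (.s k137 k205 9 (.s k11 k7 1 (.s k133 k197 7 (.d k74 k192 k200 10 8)))))] (.c k223 (.q k239
  [(.s k15 k10 2 (.s k7 k11 1 (.s k6 k4 0 (.d k9 k13 k12 1 2)))), (.s k13 k9 1 (.s k137 k205 9 (.s
  k133 k197 7 (.s k193 k73 9 (.d k129 k141 k65 1 7))))), (.s k15 k10 2 (.s k137 k205 9 (.s k11 k7 1
  (.s k133 k197 7 (.d k74 k192 k200 10 8)))))] .n) (.c k239 (.q k223 [(.s k15 k10 2 (.s k7 k11 1 (.s
  k6 k4 0 (.d k9 k13 k12 1 2)))), (.s k13 k9 1 (.s k137 k205 9 (.s k133 k197 7 (.s k193 k73 9 (.d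
  k129 k141 k65 1 7))))), (.s k15 k10 2 (.s k137 k205 9 (.s k11 k7 1 (.s k133 k197 7 (.d k74 k192
  k200 10 8)))))] .n) .n))) .n)))))))))))

def t30 : T TT 256 :=
  (.q k69 [(.s k1 k2 0 (.s k138 k207 10 (.s k137 k205 9 (.s k204 k70 10 (.d k136 k139 k68 0 9))))),
  (.s k1 k2 0 (.s k207 k138 10 (.s k137 k205 9 (.s k70 k204 10 (.d k71 k68 k139 0 9)))))] (.c k1 (.q
  k15 [(.s k5 k10 2 (.s k138 k207 10 (.s k133 k197 7 (.s k192 k74 10 (.d k128 k143 k64 2 7))))), (.s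
  k207 k138 10 (.s k7 k11 1 (.s k71 k139 9 (.s k135 k199 7 (.s k75 k195 9 (.d k79 k67 k143 1
  7)))))), (.s k5 k10 2 (.s k7 k11 1 (.s k133 k197 7 (.s k70 k196 8 (.s k204 k137 10 (.d k68 k71
  k136 0 9))))))] .n) (.c k2 (.q k15 [(.s k10 k5 2 (.s k138 k207 10 (.s k74 k202 7 (.s k192 k133 10
  (.d k64 k79 k128 2 7))))), (.s k207 k138 10 (.s k7 k11 1 (.s k71 k139 9 (.s k135 k199 7 (.s k75
  k195 9 (.d k79 k67 k143 1 7)))))), (.s k5 k10 2 (.s k7 k11 1 (.s k133 k197 7 (.s k70 k196 8 (.s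
  k68 k71 0 (.d k204 k136 k137 9 10))))))] .n) (.c k68 (.q k15 [(.s k1 k2 0 (.s k5 k10 2 (.s k9 k13
  1 (.s k7 k11 1 (.d k6 k4 k12 0 2))))), (.s k5 k10 2 (.s k138 k207 10 (.s k133 k197 7 (.s k192 k74
  10 (.d k128 k143 k64 2 7))))), (.s k1 k2 0 (.s k207 k138 10 (.s k137 k205 9 (.s k11 k7 1 (.s k74
  k200 8 (.d k79 k64 k143 2 7))))))] .n) (.c k70 (.q k15 [(.s k1 k2 0 (.s k5 k10 2 (.s k9 k13 1 (.s
  k7 k11 1 (.d k6 k4 k12 0 2))))), (.s k5 k10 2 (.s k138 k207 10 (.s k133 k197 7 (.s k192 k74 10 (.d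
  k128 k143 k64 2 7))))), (.s k1 k2 0 (.s k137 k205 9 (.s k11 k7 1 (.s k74 k200 8 (.s k64 k79 2 (.d
  k192 k133 k128 10 7))))))] (.c k138 (.l (.s k2 k1 0 (.s k10 k5 2 (.s k6 k14 1 (.s k9 k12 2 (.d k11
  k8 k7 0 1)))))) .n)) (.c k137 (.q k15 [(.s k2 k1 0 (.s k11 k7 1 (.s k10 k5 2 (.s k9 k8 0 (.d k6
  k14 k12 1 2))))), (.s k5 k10 2 (.s k138 k207 10 (.s k133 k197 7 (.s k128 k143 2 (.d k192 k64 k74 7
  10))))), (.s k207 k138 10 (.s k11 k7 1 (.s k139 k71 9 (.s k75 k203 7 (.s k135 k195 9 (.d k143 k131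
  k79 1 7))))))] .n) (.c k138 (.q k15 [(.s k2 k1 0 (.s k11 k7 1 (.s k10 k5 2 (.s k9 k8 0 (.d k6 k14
  k12 1 2))))), (.s k1 k2 0 (.s k137 k205 9 (.s k11 k7 1 (.s k74 k200 8 (.s k192 k133 10 (.d k64
  k128 k79 7 2)))))), (.s k5 k10 2 (.s k7 k11 1 (.s k133 k197 7 (.s k70 k196 8 (.s k204 k137 10 (.d
  k68 k136 k71 9 0)))))), (.s k1 k2 0 (.s k5 k10 2 (.s k137 k205 9 (.s k133 k197 7 (.s k129 k141 1
  (.d k192 k74 k66 10 8))))))] .n) (.c k139 (.l (.s k2 k1 0 (.s k138 k207 10 (.s k70 k206 9 (.s k204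
  k137 10 (.d k68 k71 k136 0 9)))))) (.c k204 (.q k15 [(.s k1 k2 0 (.s k5 k10 2 (.s k9 k13 1 (.s k7
  k11 1 (.d k6 k4 k12 0 2))))), (.s k5 k10 2 (.s k138 k207 10 (.s k133 k197 7 (.s k192 k74 10 (.d
  k128 k143 k64 2 7))))), (.s k1 k2 0 (.s k207 k138 10 (.s k137 k205 9 (.s k11 k7 1 (.s k74 k200 8
  (.d k79 k64 k143 2 7))))))] (.c k221 (.q k238 [(.s k1 k2 0 (.s k5 k10 2 (.s k9 k13 1 (.s k7 k11 1
  (.d k6 k4 k12 0 2))))), (.s k5 k10 2 (.s k138 k207 10 (.s k133 k197 7 (.s k192 k74 10 (.d k128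
  k143 k64 2 7))))), (.s k1 k2 0 (.s k207 k138 10 (.s k137 k205 9 (.s k11 k7 1 (.s k74 k200 8 (.d
  k79 k64 k143 2 7))))))] .n) (.c k238 (.q k221 [(.s k1 k2 0 (.s k5 k10 2 (.s k9 k13 1 (.s k7 k11 1
  (.d k6 k4 k12 0 2))))), (.s k5 k10 2 (.s k138 k207 10 (.s k133 k197 7 (.s k192 k74 10 (.d k128
  k143 k64 2 7))))), (.s k1 k2 0 (.s k207 k138 10 (.s k137 k205 9 (.s k11 k7 1 (.s k74 k200 8 (.d
  k79 k64 k143 2 7))))))] .n) .n))) (.c k205 (.l (.s k2 k1 0 (.s k138 k207 10 (.s k70 k206 9 (.s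
  k204 k137 10 (.d k68 k71 k136 0 9)))))) (.c k206 (.l (.s k1 k2 0 (.s k138 k207 10 (.s k137 k205 9
  (.s k204 k70 10 (.d k136 k139 k68 0 9)))))) (.c k207 (.q k15 [(.s k1 k2 0 (.s k5 k10 2 (.s k9 k13
  1 (.s k7 k11 1 (.d k6 k4 k12 0 2))))), (.s k1 k2 0 (.s k137 k205 9 (.s k11 k7 1 (.s k74 k200 8 (.s
  k192 k133 10 (.d k64 k79 k128 2 7)))))), (.s k5 k10 2 (.s k7 k11 1 (.s k133 k197 7 (.s k70 k196 8
  (.s k204 k137 10 (.d k68 k71 k136 0 9)))))), (.s k1 k2 0 (.s k5 k10 2 (.s k137 k205 9 (.s k204 k70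
  10 (.s k133 k197 7 (.d k141 k129 k78 1 8))))))] (.c k223 (.q k239 [(.s k1 k2 0 (.s k5 k10 2 (.s k9
  k13 1 (.s k7 k11 1 (.d k6 k4 k12 0 2))))), (.s k1 k2 0 (.s k137 k205 9 (.s k11 k7 1 (.s k74 k200 8
  (.s k192 k133 10 (.d k64 k79 k128 2 7)))))), (.s k5 k10 2 (.s k7 k11 1 (.s k133 k197 7 (.s k70
  k196 8 (.s k204 k137 10 (.d k68 k71 k136 0 9)))))), (.s k1 k2 0 (.s k5 k10 2 (.s k137 k205 9 (.s
  k204 k70 10 (.s k133 k197 7 (.d k141 k129 k78 1 8))))))] .n) (.c k239 (.q k223 [(.s k1 k2 0 (.s k5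
  k10 2 (.s k9 k13 1 (.s k7 k11 1 (.d k6 k4 k12 0 2))))), (.s k1 k2 0 (.s k137 k205 9 (.s k11 k7 1
  (.s k74 k200 8 (.s k192 k133 10 (.d k64 k79 k128 2 7)))))), (.s k5 k10 2 (.s k7 k11 1 (.s k133
  k197 7 (.s k70 k196 8 (.s k204 k137 10 (.d k68 k71 k136 0 9)))))), (.s k1 k2 0 (.s k5 k10 2 (.s
  k137 k205 9 (.s k204 k70 10 (.s k133 k197 7 (.d k141 k129 k78 1 8))))))] .n) .n))) .n))))))))))))

def t31 : T TT 256 :=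
  (.f k1 k2 0 (.q k69 [(.s k138 k207 10 (.s k137 k205 9 (.s k204 k70 10 (.d k136 k139 k68 0 9)))),
  (.s k207 k138 10 (.s k137 k205 9 (.s k70 k204 10 (.d k71 k68 k139 0 9))))] (.c k68 (.q k5 [(.s k15
  k10 2 (.s k9 k13 1 (.s k6 k12 2 (.d k7 k4 k11 0 1)))), (.s k138 k207 10 (.s k133 k197 7 (.s k128
  k143 2 (.s k192 k64 7 (.d k15 k10 k74 2 10))))), (.s k13 k9 1 (.s k137 k205 9 (.s k133 k197 7 (.s
  k193 k73 9 (.d k129 k141 k65 1 7)))))] .n) (.c k70 (.q k5 [(.s k15 k10 2 (.s k9 k13 1 (.s k6 k12 2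
  (.d k7 k4 k11 0 1)))), (.s k138 k207 10 (.s k133 k197 7 (.s k128 k143 2 (.s k192 k64 7 (.d k15 k10
  k74 2 10))))), (.s k13 k9 1 (.s k137 k205 9 (.s k133 k197 7 (.s k193 k73 9 (.d k129 k141 k65 1
  7)))))] (.c k138 (.q k206 [(.s k15 k10 2 (.s k9 k13 1 (.s k6 k12 2 (.d k7 k4 k11 0 1)))), (.s k13
  k9 1 (.s k137 k205 9 (.s k133 k197 7 (.s k193 k73 9 (.d k129 k141 k65 1 7))))), (.s k15 k10 2 (.s
  k137 k205 9 (.s k11 k7 1 (.s k133 k197 7 (.d k74 k200 k192 8 10)))))] .n) (.c k206 (.l (.s k138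
  k207 10 (.s k10 k15 2 (.s k9 k13 1 (.s k12 k6 2 (.d k8 k11 k4 0 1)))))) .n))) (.c k137 (.q k5 [(.s
  k15 k10 2 (.s k9 k13 1 (.s k6 k12 2 (.d k7 k4 k11 0 1)))), (.s k138 k207 10 (.s k133 k197 7 (.s
  k128 k143 2 (.s k192 k64 7 (.d k15 k10 k74 2 10)))))] (.c k10 (.l (.s k138 k207 10 (.s k13 k9 1
  (.s k133 k197 7 (.s k128 k143 2 (.s k192 k64 7 (.s k129 k66 8 (.d k193 k65 k73 7 9)))))))) (.c k15
  (.l (.s k138 k207 10 (.s k9 k13 1 (.s k12 k6 2 (.s k4 k8 1 (.s k134 k199 8 (.s k195 k73 10 (.d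
  k130 k142 k65 1 8)))))))) .n))) (.c k138 (.q k5 [(.s k10 k15 2 (.s k9 k13 1 (.s k12 k6 2 (.d k8
  k11 k4 0 1)))), (.s k13 k9 1 (.s k137 k205 9 (.s k133 k197 7 (.s k193 k73 9 (.d k129 k141 k65 1
  7))))), (.s k15 k10 2 (.s k137 k205 9 (.s k11 k7 1 (.s k133 k197 7 (.d k74 k200 k192 8 10)))))]
  (.c k70 (.q k206 [(.s k15 k10 2 (.s k9 k13 1 (.s k6 k12 2 (.d k7 k4 k11 0 1)))), (.s k13 k9 1 (.s
  k137 k205 9 (.s k133 k197 7 (.s k193 k73 9 (.d k129 k141 k65 1 7))))), (.s k15 k10 2 (.s k137 k205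
  9 (.s k11 k7 1 (.s k133 k197 7 (.d k74 k200 k192 8 10)))))] .n) (.c k206 (.q k70 [(.d k137 k205
  k204 9 10), (.s k15 k10 2 (.s k7 k11 1 (.d k133 k197 k196 7 8)))] .n) .n))) (.c k139 (.q k5 [(.s
  k15 k10 2 (.s k9 k13 1 (.s k6 k12 2 (.d k7 k4 k11 0 1)))), (.s k138 k207 10 (.s k133 k197 7 (.s
  k128 k143 2 (.s k192 k64 7 (.d k15 k10 k74 2 10))))), (.s k13 k9 1 (.s k137 k205 9 (.s k133 k197 7
  (.s k193 k73 9 (.d k129 k141 k65 1 7)))))] .n) (.c k204 (.q k5 [(.s k15 k10 2 (.s k9 k13 1 (.s k6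
  k12 2 (.d k7 k4 k11 0 1)))), (.s k138 k207 10 (.s k133 k197 7 (.s k128 k143 2 (.s k192 k64 7 (.d
  k15 k10 k74 2 10))))), (.s k13 k9 1 (.s k137 k205 9 (.s k133 k197 7 (.s k193 k73 9 (.d k129 k141
  k65 1 7)))))] (.c k221 (.q k238 [(.s k15 k10 2 (.s k9 k13 1 (.s k6 k12 2 (.d k7 k4 k11 0 1)))),
  (.s k138 k207 10 (.s k133 k197 7 (.s k128 k143 2 (.s k192 k64 7 (.d k15 k10 k74 2 10))))), (.s k13
  k9 1 (.s k137 k205 9 (.s k133 k197 7 (.s k193 k73 9 (.d k129 k141 k65 1 7)))))] .n) (.c k238 (.q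
  k221 [(.s k15 k10 2 (.s k9 k13 1 (.s k6 k12 2 (.d k7 k4 k11 0 1)))), (.s k138 k207 10 (.s k133
  k197 7 (.s k128 k143 2 (.s k192 k64 7 (.d k15 k10 k74 2 10))))), (.s k13 k9 1 (.s k137 k205 9 (.s
  k133 k197 7 (.s k193 k73 9 (.d k129 k141 k65 1 7)))))] .n) .n))) (.c k205 (.q k5 [(.s k15 k10 2
  (.s k7 k11 1 (.s k6 k4 0 (.d k9 k13 k12 1 2)))), (.s k138 k207 10 (.s k133 k197 7 (.s k128 k143 2
  (.s k192 k64 7 (.d k15 k10 k74 2 10))))), (.s k138 k207 10 (.s k13 k9 1 (.s k133 k197 7 (.s k193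
  k73 9 (.s k129 k65 7 (.s k192 k66 8 (.d k128 k64 k143 7 2)))))))] .n) (.c k206 (.l (.s k138 k207
  10 (.s k137 k205 9 (.s k204 k70 10 (.d k136 k139 k68 0 9))))) (.c k207 (.q k5 [(.s k15 k10 2 (.s
  k9 k13 1 (.s k6 k12 2 (.d k7 k4 k11 0 1)))), (.s k13 k9 1 (.s k137 k205 9 (.s k133 k197 7 (.s k193
  k73 9 (.d k129 k141 k65 1 7))))), (.s k15 k10 2 (.s k137 k205 9 (.s k11 k7 1 (.s k133 k197 7 (.d
  k74 k192 k200 10 8)))))] (.c k223 (.q k239 [(.s k15 k10 2 (.s k9 k13 1 (.s k6 k12 2 (.d k7 k4 k11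
  0 1)))), (.s k13 k9 1 (.s k137 k205 9 (.s k133 k197 7 (.s k193 k73 9 (.d k129 k141 k65 1 7))))),
  (.s k15 k10 2 (.s k137 k205 9 (.s k11 k7 1 (.s k133 k197 7 (.d k74 k192 k200 10 8)))))] (.c k95
  (.q k159 [(.s k9 k13 1 (.s k12 k6 2 (.s k8 k4 1 (.d k10 k15 k11 2 0)))), (.s k13 k9 1 (.s k137
  k205 9 (.s k133 k197 7 (.s k193 k73 9 (.d k129 k141 k65 1 7))))), (.s k15 k10 2 (.s k137 k205 9
  (.s k11 k7 1 (.s k133 k197 7 (.d k74 k192 k200 10 8)))))] (.c k15 (.q k175 [(.s k13 k9 1 (.s k205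
  k137 9 (.s k133 k197 7 (.s k73 k193 9 (.d k77 k65 k141 1 7))))), (.s k137 k205 9 (.s k204 k70 10
  (.s k136 k68 9 (.s k133 k197 7 (.s k138 k139 0 (.d k143 k128 k191 2 3)))))), (.s k9 k13 1 (.s k137
  k205 9 (.s k12 k6 2 (.s k4 k8 1 (.s k134 k199 8 (.d k73 k195 k201 10 7)))))), (.s k13 k9 1 (.s
  k133 k197 7 (.s k143 k191 3 (.s k128 k138 2 (.s k192 k64 7 (.s k129 k66 8 (.d k193 k65 k73 7
  9)))))))] (.c k47 (.q k63 [(.s k21 k42 6 (.s k41 k61 5 (.s k23 k43 5 (.d k22 k20 k60 0 6)))), (.s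
  k13 k9 1 (.s k137 k205 9 (.s k133 k197 7 (.s k193 k73 9 (.d k129 k141 k65 1 7)))))] (.c k79 (.l
  (.s k143 k191 3 (.s k21 k42 6 (.s k41 k61 5 (.s k22 k60 6 (.d k23 k20 k43 0 5)))))) (.c k143 (.q
  k79 [(.s k21 k42 6 (.s k41 k61 5 (.s k23 k43 5 (.d k22 k20 k60 0 6)))), (.s k13 k9 1 (.s k137 k205
  9 (.s k133 k197 7 (.s k193 k73 9 (.d k129 k141 k65 1 7)))))] .n) .n))) (.c k63 (.l (.s k47 k111 7
  (.s k13 k9 1 (.s k137 k205 9 (.s k133 k197 7 (.s k193 k73 9 (.d k129 k141 k65 1 7))))))) (.c k79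
  (.l (.s k143 k191 3 (.s k13 k9 1 (.s k137 k205 9 (.s k133 k197 7 (.s k193 k73 9 (.d k129 k141 k65
  1 7))))))) (.c k143 (.q k79 [(.s k13 k9 1 (.s k205 k137 9 (.s k133 k197 7 (.s k73 k193 9 (.d k77
  k65 k141 1 7))))), (.s k137 k205 9 (.s k64 k74 2 (.s k192 k128 7 (.s k129 k66 8 (.d k133 k141 k197
  1 7))))), (.s k9 k13 1 (.s k137 k205 9 (.s k12 k6 2 (.s k4 k8 1 (.s k134 k199 8 (.d k73 k195 k201
  10 7)))))), (.s k13 k9 1 (.s k133 k197 7 (.s k64 k74 2 (.s k192 k128 7 (.s k129 k66 8 (.d k193 k65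
  k73 7 9))))))] (.c k47 (.q k63 [(.s k21 k42 6 (.s k41 k61 5 (.s k23 k43 5 (.d k22 k20 k60 0 6)))),
  (.s k13 k9 1 (.s k137 k205 9 (.s k133 k197 7 (.s k193 k73 9 (.d k129 k141 k65 1 7)))))] .n) (.c
  k63 (.l (.s k47 k111 7 (.s k13 k9 1 (.s k137 k205 9 (.s k133 k197 7 (.s k193 k73 9 (.d k129 k141
  k65 1 7))))))) .n))) .n))))) (.c k175 (.l (.s k15 k10 2 (.s k9 k13 1 (.s k6 k12 2 (.d k7 k4 k11 0
  1))))) .n))) (.c k159 (.q k95 [(.s k10 k15 2 (.s k9 k13 1 (.s k12 k6 2 (.d k8 k11 k4 0 1)))), (.s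
  k13 k9 1 (.s k137 k205 9 (.s k133 k197 7 (.s k193 k73 9 (.d k129 k141 k65 1 7))))), (.s k15 k10 2
  (.s k137 k205 9 (.s k11 k7 1 (.s k133 k197 7 (.d k74 k192 k200 10 8)))))] (.c k63 (.q k111 [(.s k9
  k13 1 (.s k12 k6 2 (.s k8 k4 1 (.d k10 k15 k11 2 0)))), (.s k13 k9 1 (.s k137 k205 9 (.s k133 k197
  7 (.s k193 k73 9 (.d k129 k141 k65 1 7))))), (.s k15 k10 2 (.s k137 k205 9 (.s k11 k7 1 (.s k133
  k197 7 (.d k74 k192 k200 10 8)))))] (.c k15 (.l (.s k47 k175 7 (.s k13 k9 1 (.s k137 k205 9 (.s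
  k133 k197 7 (.s k193 k73 9 (.d k129 k141 k65 1 7))))))) (.c k47 (.l (.s k15 k10 2 (.s k9 k13 1 (.s
  k6 k12 2 (.d k7 k4 k11 0 1))))) (.c k127 (.q k191 [(.s k9 k13 1 (.s k12 k6 2 (.s k8 k4 1 (.d k10
  k15 k11 2 0)))), (.s k13 k9 1 (.s k137 k205 9 (.s k133 k197 7 (.s k193 k73 9 (.d k129 k141 k65 1
  7))))), (.s k15 k10 2 (.s k137 k205 9 (.s k11 k7 1 (.s k133 k197 7 (.d k74 k192 k200 10 8)))))]
  (.c k15 (.l (.s k47 k175 7 (.s k13 k9 1 (.s k137 k205 9 (.s k133 k197 7 (.s k193 k73 9 (.d k129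
  k141 k65 1 7))))))) (.c k47 (.l (.s k15 k10 2 (.s k9 k13 1 (.s k6 k12 2 (.d k7 k4 k11 0 1)))))
  .n))) (.c k191 (.l (.s k127 k79 3 (.s k15 k10 2 (.s k9 k13 1 (.s k6 k12 2 (.d k7 k4 k11 0 1))))))
  .n))))) (.c k111 (.q k63 [(.s k10 k15 2 (.s k9 k13 1 (.s k12 k6 2 (.d k8 k11 k4 0 1)))), (.s k21
  k42 6 (.s k41 k61 5 (.s k22 k60 6 (.d k23 k20 k43 0 5))))] .n) .n))) .n))) (.c k239 (.q k223 [(.s
  k15 k10 2 (.s k9 k13 1 (.s k6 k12 2 (.d k7 k4 k11 0 1)))), (.s k13 k9 1 (.s k137 k205 9 (.s k133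
  k197 7 (.s k193 k73 9 (.d k129 k141 k65 1 7))))), (.s k15 k10 2 (.s k137 k205 9 (.s k11 k7 1 (.s
  k133 k197 7 (.d k74 k192 k200 10 8)))))] .n) .n))) .n)))))))))))

def t60 : T TT 256 :=
  (.q k15 [(.s k1 k2 0 (.s k5 k10 2 (.s k9 k13 1 (.s k7 k11 1 (.d k6 k4 k12 0 2)))))] (.c k1 (.q k69
  [(.s k5 k10 2 (.s k138 k207 10 (.s k133 k197 7 (.s k192 k74 10 (.d k128 k143 k64 2 7))))), (.s
  k207 k138 10 (.s k7 k11 1 (.s k71 k139 9 (.s k135 k199 7 (.s k75 k195 9 (.d k79 k67 k143 1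
  7)))))), (.s k5 k10 2 (.s k7 k11 1 (.s k133 k197 7 (.s k70 k196 8 (.s k204 k137 10 (.d k68 k71
  k136 0 9))))))] (.c k125 (.q k190 [(.s k5 k10 2 (.s k138 k207 10 (.s k133 k197 7 (.s k192 k74 10
  (.d k128 k143 k64 2 7))))), (.s k207 k138 10 (.s k7 k11 1 (.s k71 k139 9 (.s k135 k199 7 (.s k75
  k195 9 (.d k79 k67 k143 1 7)))))), (.s k5 k10 2 (.s k7 k11 1 (.s k133 k197 7 (.s k70 k196 8 (.s
  k204 k137 10 (.d k68 k71 k136 0 9))))))] .n) (.c k190 (.q k125 [(.s k5 k10 2 (.s k138 k207 10 (.s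
  k133 k197 7 (.s k192 k74 10 (.d k128 k143 k64 2 7))))), (.s k207 k138 10 (.s k7 k11 1 (.s k71 k139
  9 (.s k135 k199 7 (.s k75 k195 9 (.d k79 k67 k143 1 7)))))), (.s k5 k10 2 (.s k7 k11 1 (.s k133
  k197 7 (.s k70 k196 8 (.s k204 k137 10 (.d k68 k71 k136 0 9))))))] .n) .n))) (.c k2 (.q k69 [(.s
  k10 k5 2 (.s k138 k207 10 (.s k74 k202 7 (.s k192 k133 10 (.d k64 k79 k128 2 7))))), (.s k207 k138
  10 (.s k7 k11 1 (.s k71 k139 9 (.s k135 k199 7 (.s k75 k195 9 (.d k79 k67 k143 1 7)))))), (.s k5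
  k10 2 (.s k7 k11 1 (.s k133 k197 7 (.s k70 k196 8 (.s k68 k71 0 (.d k204 k136 k137 9 10))))))] (.c
  k125 (.q k190 [(.s k10 k5 2 (.s k138 k207 10 (.s k74 k202 7 (.s k192 k133 10 (.d k64 k79 k128 2
  7))))), (.s k207 k138 10 (.s k7 k11 1 (.s k71 k139 9 (.s k135 k199 7 (.s k75 k195 9 (.d k79 k67
  k143 1 7)))))), (.s k5 k10 2 (.s k7 k11 1 (.s k133 k197 7 (.s k70 k196 8 (.s k68 k71 0 (.d k204
  k136 k137 9 10))))))] .n) (.c k190 (.q k125 [(.s k10 k5 2 (.s k138 k207 10 (.s k74 k202 7 (.s k192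
  k133 10 (.d k64 k79 k128 2 7))))), (.s k207 k138 10 (.s k7 k11 1 (.s k71 k139 9 (.s k135 k199 7
  (.s k75 k195 9 (.d k79 k67 k143 1 7)))))), (.s k5 k10 2 (.s k7 k11 1 (.s k133 k197 7 (.s k70 k196
  8 (.s k68 k71 0 (.d k204 k136 k137 9 10))))))] .n) .n))) (.c k4 (.l (.s k2 k1 0 (.s k10 k5 2 (.s
  k6 k14 1 (.s k9 k12 2 (.d k11 k7 k8 1 0)))))) (.c k5 (.q k69 [(.s k1 k2 0 (.s k137 k205 9 (.s k11
  k7 1 (.s k74 k200 8 (.s k64 k79 2 (.d k192 k128 k133 7 10)))))), (.s k1 k2 0 (.s k138 k207 10 (.s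
  k137 k205 9 (.s k204 k70 10 (.d k136 k139 k68 0 9))))), (.s k207 k138 10 (.s k11 k7 1 (.s k139 k71
  9 (.s k75 k203 7 (.s k135 k195 9 (.d k143 k131 k79 1 7))))))] (.c k125 (.q k190 [(.s k1 k2 0 (.s
  k137 k205 9 (.s k11 k7 1 (.s k74 k200 8 (.s k64 k79 2 (.d k192 k128 k133 7 10)))))), (.s k1 k2 0
  (.s k138 k207 10 (.s k137 k205 9 (.s k204 k70 10 (.d k136 k139 k68 0 9))))), (.s k207 k138 10 (.s
  k11 k7 1 (.s k139 k71 9 (.s k75 k203 7 (.s k135 k195 9 (.d k143 k131 k79 1 7))))))] .n) (.c k190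
  (.q k125 [(.s k1 k2 0 (.s k137 k205 9 (.s k11 k7 1 (.s k74 k200 8 (.s k64 k79 2 (.d k192 k128 k133
  7 10)))))), (.s k1 k2 0 (.s k138 k207 10 (.s k137 k205 9 (.s k204 k70 10 (.d k136 k139 k68 0
  9))))), (.s k207 k138 10 (.s k11 k7 1 (.s k139 k71 9 (.s k75 k203 7 (.s k135 k195 9 (.d k143 k131
  k79 1 7))))))] .n) .n))) (.c k6 (.q k69 [(.s k2 k1 0 (.s k138 k207 10 (.s k70 k206 9 (.s k204 k137
  10 (.d k68 k71 k136 0 9))))), (.s k1 k2 0 (.s k137 k205 9 (.s k11 k7 1 (.s k74 k200 8 (.s k133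
  k192 10 (.d k5 k10 k197 2 7)))))), (.s k10 k5 2 (.s k138 k207 10 (.s k74 k202 7 (.s k192 k133 10
  (.d k64 k79 k128 2 7)))))] (.c k125 (.q k190 [(.s k2 k1 0 (.s k138 k207 10 (.s k70 k206 9 (.s k204
  k137 10 (.d k68 k71 k136 0 9))))), (.s k1 k2 0 (.s k137 k205 9 (.s k11 k7 1 (.s k74 k200 8 (.s
  k133 k192 10 (.d k5 k10 k197 2 7)))))), (.s k10 k5 2 (.s k138 k207 10 (.s k74 k202 7 (.s k192 k133
  10 (.d k64 k79 k128 2 7)))))] .n) (.c k190 (.q k125 [(.s k2 k1 0 (.s k138 k207 10 (.s k70 k206 9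
  (.s k204 k137 10 (.d k68 k71 k136 0 9))))), (.s k1 k2 0 (.s k137 k205 9 (.s k11 k7 1 (.s k74 k200
  8 (.s k133 k192 10 (.d k5 k10 k197 2 7)))))), (.s k10 k5 2 (.s k138 k207 10 (.s k74 k202 7 (.s
  k192 k133 10 (.d k64 k79 k128 2 7)))))] .n) .n))) (.c k7 (.q k69 [(.s k5 k10 2 (.s k138 k207 10
  (.s k133 k197 7 (.s k192 k74 10 (.d k128 k143 k64 2 7))))), (.s k1 k2 0 (.s k207 k138 10 (.s k137
  k205 9 (.s k70 k204 10 (.d k71 k68 k139 0 9))))), (.s k1 k2 0 (.s k5 k10 2 (.s k137 k205 9 (.s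
  k133 k197 7 (.s k129 k141 1 (.d k192 k66 k74 8 10))))))] (.c k125 (.q k190 [(.s k5 k10 2 (.s k138
  k207 10 (.s k133 k197 7 (.s k192 k74 10 (.d k128 k143 k64 2 7))))), (.s k1 k2 0 (.s k207 k138 10
  (.s k137 k205 9 (.s k70 k204 10 (.d k71 k68 k139 0 9))))), (.s k1 k2 0 (.s k5 k10 2 (.s k137 k205
  9 (.s k133 k197 7 (.s k129 k141 1 (.d k192 k66 k74 8 10))))))] .n) (.c k190 (.q k125 [(.s k5 k10 2
  (.s k138 k207 10 (.s k133 k197 7 (.s k192 k74 10 (.d k128 k143 k64 2 7))))), (.s k1 k2 0 (.s k207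
  k138 10 (.s k137 k205 9 (.s k70 k204 10 (.d k71 k68 k139 0 9))))), (.s k1 k2 0 (.s k5 k10 2 (.s
  k137 k205 9 (.s k133 k197 7 (.s k129 k141 1 (.d k192 k66 k74 8 10))))))] .n) .n))) (.c k9 (.q k69
  [(.s k1 k2 0 (.s k138 k207 10 (.s k137 k205 9 (.s k204 k70 10 (.d k136 k139 k68 0 9))))), (.s k1
  k2 0 (.s k5 k10 2 (.s k137 k205 9 (.s k11 k7 1 (.s k133 k197 7 (.d k74 k200 k192 8 10)))))), (.s
  k5 k10 2 (.s k138 k207 10 (.s k133 k197 7 (.s k192 k74 10 (.d k128 k143 k64 2 7)))))] (.c k125 (.q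
  k190 [(.s k1 k2 0 (.s k138 k207 10 (.s k137 k205 9 (.s k204 k70 10 (.d k136 k139 k68 0 9))))), (.s
  k1 k2 0 (.s k5 k10 2 (.s k137 k205 9 (.s k11 k7 1 (.s k133 k197 7 (.d k74 k200 k192 8 10)))))),
  (.s k5 k10 2 (.s k138 k207 10 (.s k133 k197 7 (.s k192 k74 10 (.d k128 k143 k64 2 7)))))] .n) (.c
  k190 (.q k125 [(.s k1 k2 0 (.s k138 k207 10 (.s k137 k205 9 (.s k204 k70 10 (.d k136 k139 k68 0
  9))))), (.s k1 k2 0 (.s k5 k10 2 (.s k137 k205 9 (.s k11 k7 1 (.s k133 k197 7 (.d k74 k200 k192 8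
  10)))))), (.s k5 k10 2 (.s k138 k207 10 (.s k133 k197 7 (.s k192 k74 10 (.d k128 k143 k64 2
  7)))))] .n) .n))) (.c k10 (.q k69 [(.s k1 k2 0 (.s k137 k205 9 (.s k11 k7 1 (.s k74 k200 8 (.s k64
  k79 2 (.d k192 k128 k133 7 10)))))), (.s k2 k1 0 (.s k138 k207 10 (.s k70 k206 9 (.s k204 k137 10
  (.d k68 k71 k136 0 9))))), (.s k207 k138 10 (.s k11 k7 1 (.s k139 k71 9 (.s k75 k203 7 (.s k135
  k195 9 (.d k143 k131 k79 1 7))))))] (.c k125 (.q k190 [(.s k1 k2 0 (.s k137 k205 9 (.s k11 k7 1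
  (.s k74 k200 8 (.s k64 k79 2 (.d k192 k128 k133 7 10)))))), (.s k2 k1 0 (.s k138 k207 10 (.s k70
  k206 9 (.s k204 k137 10 (.d k68 k71 k136 0 9))))), (.s k207 k138 10 (.s k11 k7 1 (.s k139 k71 9
  (.s k75 k203 7 (.s k135 k195 9 (.d k143 k131 k79 1 7))))))] .n) (.c k190 (.q k125 [(.s k1 k2 0 (.s
  k137 k205 9 (.s k11 k7 1 (.s k74 k200 8 (.s k64 k79 2 (.d k192 k128 k133 7 10)))))), (.s k2 k1 0
  (.s k138 k207 10 (.s k70 k206 9 (.s k204 k137 10 (.d k68 k71 k136 0 9))))), (.s k207 k138 10 (.s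
  k11 k7 1 (.s k139 k71 9 (.s k75 k203 7 (.s k135 k195 9 (.d k143 k131 k79 1 7))))))] .n) .n))) (.c
  k11 (.q k69 [(.s k1 k2 0 (.s k138 k207 10 (.s k137 k205 9 (.s k204 k70 10 (.d k136 k139 k68 0
  9))))), (.s k1 k2 0 (.s k5 k10 2 (.s k137 k205 9 (.s k133 k197 7 (.s k129 k141 1 (.d k192 k66 k74
  8 10)))))), (.s k5 k10 2 (.s k138 k207 10 (.s k133 k197 7 (.s k128 k143 2 (.d k192 k64 k74 7
  10)))))] (.c k125 (.q k190 [(.s k1 k2 0 (.s k138 k207 10 (.s k137 k205 9 (.s k204 k70 10 (.d k136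
  k139 k68 0 9))))), (.s k1 k2 0 (.s k5 k10 2 (.s k137 k205 9 (.s k133 k197 7 (.s k129 k141 1 (.d
  k192 k66 k74 8 10)))))), (.s k5 k10 2 (.s k138 k207 10 (.s k133 k197 7 (.s k128 k143 2 (.d k192
  k64 k74 7 10)))))] .n) (.c k190 (.q k125 [(.s k1 k2 0 (.s k138 k207 10 (.s k137 k205 9 (.s k204
  k70 10 (.d k136 k139 k68 0 9))))), (.s k1 k2 0 (.s k5 k10 2 (.s k137 k205 9 (.s k133 k197 7 (.s
  k129 k141 1 (.d k192 k66 k74 8 10)))))), (.s k5 k10 2 (.s k138 k207 10 (.s k133 k197 7 (.s k128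
  k143 2 (.d k192 k64 k74 7 10)))))] .n) .n))) (.c k12 (.f k1 k2 0 (.f k7 k11 1 (.f k10 k5 2 (.q
  k207 [(.s k69 k138 10 (.s k137 k205 9 (.s k71 k139 9 (.d k70 k68 k204 0 10)))), (.s k138 k69 10
  (.s k74 k202 7 (.s k133 k192 10 (.d k143 k128 k79 2 7)))), (.s k71 k139 9 (.s k135 k199 7 (.s k75
  k195 9 (.d k79 k67 k143 1 7))))] (.c k28 (.q k44 [(.s k69 k138 10 (.s k137 k205 9 (.s k71 k139 9
  (.d k70 k68 k204 0 10)))), (.s k138 k69 10 (.s k74 k202 7 (.s k133 k192 10 (.d k143 k128 k79 2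
  7)))), (.s k71 k139 9 (.s k135 k199 7 (.s k75 k195 9 (.d k79 k67 k143 1 7))))] (.c k93 (.q k174
  [(.s k69 k138 10 (.s k137 k205 9 (.s k71 k139 9 (.d k70 k68 k204 0 10)))), (.s k138 k69 10 (.s k74
  k202 7 (.s k133 k192 10 (.d k143 k128 k79 2 7)))), (.s k71 k139 9 (.s k135 k199 7 (.s k75 k195 9
  (.d k79 k67 k143 1 7))))] (.c k125 (.q k190 [(.s k69 k138 10 (.s k137 k205 9 (.s k71 k139 9 (.d
  k70 k68 k204 0 10)))), (.s k138 k69 10 (.s k74 k202 7 (.s k133 k192 10 (.d k143 k128 k79 2 7)))),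
  (.s k71 k139 9 (.s k135 k199 7 (.s k75 k195 9 (.d k79 k67 k143 1 7))))] (.c k77 (.l (.s k109 k239
  8 (.s k69 k138 10 (.s k137 k205 9 (.s k70 k204 10 (.d k71 k68 k139 0 9)))))) (.c k109 (.q k77 [(.s
  k69 k138 10 (.s k137 k205 9 (.s k71 k139 9 (.d k70 k68 k204 0 10)))), (.s k138 k69 10 (.s k74 k202
  7 (.s k133 k192 10 (.d k143 k128 k79 2 7)))), (.s k71 k139 9 (.s k135 k199 7 (.s k75 k195 9 (.d
  k79 k67 k143 1 7))))] (.c k158 (.q k223 [(.s k69 k138 10 (.s k137 k205 9 (.s k71 k139 9 (.d k70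
  k68 k204 0 10)))), (.s k138 k69 10 (.s k74 k202 7 (.s k133 k192 10 (.d k143 k128 k79 2 7)))), (.s
  k71 k139 9 (.s k135 k199 7 (.s k75 k195 9 (.d k79 k67 k143 1 7))))] .n) (.c k223 (.l (.s k158 k142
  3 (.s k69 k138 10 (.s k137 k205 9 (.s k70 k204 10 (.d k71 k68 k139 0 9)))))) .n))) (.c k158 (.q
  k223 [(.s k69 k138 10 (.s k137 k205 9 (.s k71 k139 9 (.d k70 k68 k204 0 10)))), (.s k138 k69 10
  (.s k74 k202 7 (.s k133 k192 10 (.d k143 k128 k79 2 7)))), (.s k71 k139 9 (.s k135 k199 7 (.s k75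
  k195 9 (.d k79 k67 k143 1 7))))] (.c k77 (.l (.s k109 k239 8 (.s k69 k138 10 (.s k137 k205 9 (.s
  k70 k204 10 (.d k71 k68 k139 0 9)))))) (.c k109 (.q k77 [(.s k69 k138 10 (.s k137 k205 9 (.s k71
  k139 9 (.d k70 k68 k204 0 10)))), (.s k138 k69 10 (.s k74 k202 7 (.s k133 k192 10 (.d k143 k128
  k79 2 7)))), (.s k71 k139 9 (.s k135 k199 7 (.s k75 k195 9 (.d k79 k67 k143 1 7))))] .n) .n))) (.c
  k223 (.l (.s k158 k142 3 (.s k69 k138 10 (.s k137 k205 9 (.s k70 k204 10 (.d k71 k68 k139 0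
  9)))))) .n))))) (.c k158 (.q k223 [(.s k69 k138 10 (.s k137 k205 9 (.s k71 k139 9 (.d k70 k68 k204
  0 10)))), (.s k138 k69 10 (.s k74 k202 7 (.s k133 k192 10 (.d k143 k128 k79 2 7)))), (.s k71 k139
  9 (.s k135 k199 7 (.s k75 k195 9 (.d k79 k67 k143 1 7))))] (.c k125 (.q k190 [(.s k69 k138 10 (.s
  k137 k205 9 (.s k71 k139 9 (.d k70 k68 k204 0 10)))), (.s k138 k69 10 (.s k74 k202 7 (.s k133 k192
  10 (.d k143 k128 k79 2 7)))), (.s k71 k139 9 (.s k135 k199 7 (.s k75 k195 9 (.d k79 k67 k143 1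
  7))))] (.c k77 (.l (.s k109 k239 8 (.s k69 k138 10 (.s k137 k205 9 (.s k70 k204 10 (.d k71 k68
  k139 0 9)))))) (.c k109 (.q k77 [(.s k69 k138 10 (.s k137 k205 9 (.s k71 k139 9 (.d k70 k68 k204 0
  10)))), (.s k138 k69 10 (.s k74 k202 7 (.s k133 k192 10 (.d k143 k128 k79 2 7)))), (.s k71 k139 9
  (.s k135 k199 7 (.s k75 k195 9 (.d k79 k67 k143 1 7))))] .n) .n))) (.c k190 (.q k125 [(.s k69 k138
  10 (.s k137 k205 9 (.s k71 k139 9 (.d k70 k68 k204 0 10)))), (.s k138 k69 10 (.s k74 k202 7 (.s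
  k133 k192 10 (.d k143 k128 k79 2 7)))), (.s k71 k139 9 (.s k135 k199 7 (.s k75 k195 9 (.d k79 k67
  k143 1 7))))] .n) .n))) (.c k190 (.q k125 [(.s k69 k138 10 (.s k137 k205 9 (.s k71 k139 9 (.d k70
  k68 k204 0 10)))), (.s k138 k69 10 (.s k74 k202 7 (.s k133 k192 10 (.d k143 k128 k79 2 7)))), (.s
  k71 k139 9 (.s k135 k199 7 (.s k75 k195 9 (.d k79 k67 k143 1 7))))] (.c k158 (.q k223 [(.s k69
  k138 10 (.s k137 k205 9 (.s k71 k139 9 (.d k70 k68 k204 0 10)))), (.s k138 k69 10 (.s k74 k202 7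
  (.s k133 k192 10 (.d k143 k128 k79 2 7)))), (.s k71 k139 9 (.s k135 k199 7 (.s k75 k195 9 (.d k79
  k67 k143 1 7))))] .n) (.c k223 (.q k158 [(.s k69 k138 10 (.s k137 k205 9 (.s k71 k139 9 (.d k70
  k68 k204 0 10)))), (.s k138 k69 10 (.s k74 k202 7 (.s k133 k192 10 (.d k143 k128 k79 2 7)))), (.s
  k71 k139 9 (.s k135 k199 7 (.s k75 k195 9 (.d k79 k67 k143 1 7))))] .n) .n))) (.c k223 (.q k158
  [(.s k69 k138 10 (.s k137 k205 9 (.s k71 k139 9 (.d k70 k68 k204 0 10)))), (.s k138 k69 10 (.s k74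
  k202 7 (.s k133 k192 10 (.d k143 k128 k79 2 7)))), (.s k71 k139 9 (.s k135 k199 7 (.s k75 k195 9
  (.d k79 k67 k143 1 7))))] (.c k125 (.l (.s k190 k142 3 (.s k69 k138 10 (.s k137 k205 9 (.s k70
  k204 10 (.d k71 k68 k139 0 9)))))) (.c k190 (.q k125 [(.s k69 k138 10 (.s k137 k205 9 (.s k71 k139
  9 (.d k70 k68 k204 0 10)))), (.s k138 k69 10 (.s k74 k202 7 (.s k133 k192 10 (.d k143 k128 k79 2
  7)))), (.s k71 k139 9 (.s k135 k199 7 (.s k75 k195 9 (.d k79 k67 k143 1 7))))] .n) .n))) .n)))))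
  (.c k125 (.q k190 [(.s k69 k138 10 (.s k137 k205 9 (.s k71 k139 9 (.d k70 k68 k204 0 10)))), (.s
  k138 k69 10 (.s k74 k202 7 (.s k133 k192 10 (.d k143 k128 k79 2 7)))), (.s k71 k139 9 (.s k135
  k199 7 (.s k75 k195 9 (.d k79 k67 k143 1 7))))] (.c k93 (.q k174 [(.s k69 k138 10 (.s k137 k205 9
  (.s k71 k139 9 (.d k70 k68 k204 0 10)))), (.s k138 k69 10 (.s k74 k202 7 (.s k133 k192 10 (.d k143
  k128 k79 2 7)))), (.s k71 k139 9 (.s k135 k199 7 (.s k75 k195 9 (.d k79 k67 k143 1 7))))] (.c k77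
  (.l (.s k109 k239 8 (.s k69 k138 10 (.s k137 k205 9 (.s k70 k204 10 (.d k71 k68 k139 0 9)))))) (.c
  k109 (.q k77 [(.s k69 k138 10 (.s k137 k205 9 (.s k71 k139 9 (.d k70 k68 k204 0 10)))), (.s k138
  k69 10 (.s k74 k202 7 (.s k133 k192 10 (.d k143 k128 k79 2 7)))), (.s k71 k139 9 (.s k135 k199 7
  (.s k75 k195 9 (.d k79 k67 k143 1 7))))] (.c k158 (.q k223 [(.s k69 k138 10 (.s k137 k205 9 (.s
  k71 k139 9 (.d k70 k68 k204 0 10)))), (.s k138 k69 10 (.s k74 k202 7 (.s k133 k192 10 (.d k143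
  k128 k79 2 7)))), (.s k71 k139 9 (.s k135 k199 7 (.s k75 k195 9 (.d k79 k67 k143 1 7))))] .n) (.c
  k223 (.l (.s k158 k142 3 (.s k69 k138 10 (.s k137 k205 9 (.s k70 k204 10 (.d k71 k68 k139 0
  9)))))) .n))) (.c k158 (.q k223 [(.s k69 k138 10 (.s k137 k205 9 (.s k71 k139 9 (.d k70 k68 k204 0
  10)))), (.s k138 k69 10 (.s k74 k202 7 (.s k133 k192 10 (.d k143 k128 k79 2 7)))), (.s k71 k139 9
  (.s k135 k199 7 (.s k75 k195 9 (.d k79 k67 k143 1 7))))] (.c k77 (.l (.s k109 k239 8 (.s k69 k138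
  10 (.s k137 k205 9 (.s k70 k204 10 (.d k71 k68 k139 0 9)))))) (.c k109 (.q k77 [(.s k69 k138 10
  (.s k137 k205 9 (.s k71 k139 9 (.d k70 k68 k204 0 10)))), (.s k138 k69 10 (.s k74 k202 7 (.s k133
  k192 10 (.d k143 k128 k79 2 7)))), (.s k71 k139 9 (.s k135 k199 7 (.s k75 k195 9 (.d k79 k67 k143
  1 7))))] .n) .n))) (.c k223 (.l (.s k158 k142 3 (.s k69 k138 10 (.s k137 k205 9 (.s k70 k204 10
  (.d k71 k68 k139 0 9)))))) .n))))) (.c k174 (.q k93 [(.s k69 k138 10 (.s k137 k205 9 (.s k71 k139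
  9 (.d k70 k68 k204 0 10)))), (.s k138 k69 10 (.s k74 k202 7 (.s k133 k192 10 (.d k143 k128 k79 2
  7)))), (.s k71 k139 9 (.s k135 k199 7 (.s k75 k195 9 (.d k79 k67 k143 1 7))))] .n) .n))) (.c k174
  (.q k93 [(.s k69 k138 10 (.s k137 k205 9 (.s k71 k139 9 (.d k70 k68 k204 0 10)))), (.s k138 k69 10
  (.s k74 k202 7 (.s k133 k192 10 (.d k143 k128 k79 2 7)))), (.s k71 k139 9 (.s k135 k199 7 (.s k75
  k195 9 (.d k79 k67 k143 1 7))))] (.c k125 (.q k190 [(.s k69 k138 10 (.s k137 k205 9 (.s k71 k139 9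
  (.d k70 k68 k204 0 10)))), (.s k138 k69 10 (.s k74 k202 7 (.s k133 k192 10 (.d k143 k128 k79 2
  7)))), (.s k71 k139 9 (.s k135 k199 7 (.s k75 k195 9 (.d k79 k67 k143 1 7))))] .n) (.c k190 (.q
  k125 [(.s k69 k138 10 (.s k137 k205 9 (.s k71 k139 9 (.d k70 k68 k204 0 10)))), (.s k138 k69 10
  (.s k74 k202 7 (.s k133 k192 10 (.d k143 k128 k79 2 7)))), (.s k71 k139 9 (.s k135 k199 7 (.s k75
  k195 9 (.d k79 k67 k143 1 7))))] (.c k142 (.q k158 [(.s k69 k138 10 (.s k137 k205 9 (.s k71 k139 9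
  (.d k70 k68 k204 0 10)))), (.s k138 k69 10 (.s k74 k202 7 (.s k133 k192 10 (.d k143 k128 k79 2
  7)))), (.s k71 k139 9 (.s k135 k199 7 (.s k75 k195 9 (.d k79 k67 k143 1 7))))] .n) (.c k158 (.q
  k142 [(.s k69 k138 10 (.s k137 k205 9 (.s k71 k139 9 (.d k70 k68 k204 0 10)))), (.s k138 k69 10
  (.s k74 k202 7 (.s k133 k192 10 (.d k143 k128 k79 2 7)))), (.s k71 k139 9 (.s k135 k199 7 (.s k75
  k195 9 (.d k79 k67 k143 1 7))))] .n) .n))) .n))) (.c k190 (.q k125 [(.s k69 k138 10 (.s k137 k205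
  9 (.s k71 k139 9 (.d k70 k68 k204 0 10)))), (.s k138 k69 10 (.s k74 k202 7 (.s k133 k192 10 (.d
  k143 k128 k79 2 7)))), (.s k71 k139 9 (.s k135 k199 7 (.s k75 k195 9 (.d k79 k67 k143 1 7))))] (.c
  k93 (.q k174 [(.s k69 k138 10 (.s k137 k205 9 (.s k71 k139 9 (.d k70 k68 k204 0 10)))), (.s k138
  k69 10 (.s k74 k202 7 (.s k133 k192 10 (.d k143 k128 k79 2 7)))), (.s k71 k139 9 (.s k135 k199 7
  (.s k75 k195 9 (.d k79 k67 k143 1 7))))] (.c k158 (.q k223 [(.s k69 k138 10 (.s k137 k205 9 (.s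
  k71 k139 9 (.d k70 k68 k204 0 10)))), (.s k138 k69 10 (.s k74 k202 7 (.s k133 k192 10 (.d k143
  k128 k79 2 7)))), (.s k71 k139 9 (.s k135 k199 7 (.s k75 k195 9 (.d k79 k67 k143 1 7))))] .n) (.c
  k223 (.q k158 [(.s k69 k138 10 (.s k137 k205 9 (.s k71 k139 9 (.d k70 k68 k204 0 10)))), (.s k138
  k69 10 (.s k74 k202 7 (.s k133 k192 10 (.d k143 k128 k79 2 7)))), (.s k71 k139 9 (.s k135 k199 7
  (.s k75 k195 9 (.d k79 k67 k143 1 7))))] .n) .n))) (.c k174 (.q k93 [(.s k69 k138 10 (.s k137 k205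
  9 (.s k71 k139 9 (.d k70 k68 k204 0 10)))), (.s k138 k69 10 (.s k74 k202 7 (.s k133 k192 10 (.d
  k143 k128 k79 2 7)))), (.s k71 k139 9 (.s k135 k199 7 (.s k75 k195 9 (.d k79 k67 k143 1 7))))] (.c
  k142 (.q k158 [(.s k69 k138 10 (.s k137 k205 9 (.s k71 k139 9 (.d k70 k68 k204 0 10)))), (.s k138
  k69 10 (.s k74 k202 7 (.s k133 k192 10 (.d k143 k128 k79 2 7)))), (.s k71 k139 9 (.s k135 k199 7
  (.s k75 k195 9 (.d k79 k67 k143 1 7))))] .n) (.c k158 (.q k142 [(.s k69 k138 10 (.s k137 k205 9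
  (.s k71 k139 9 (.d k70 k68 k204 0 10)))), (.s k138 k69 10 (.s k74 k202 7 (.s k133 k192 10 (.d k143
  k128 k79 2 7)))), (.s k71 k139 9 (.s k135 k199 7 (.s k75 k195 9 (.d k79 k67 k143 1 7))))] .n)
  .n))) .n))) .n))))) (.c k44 (.q k28 [(.s k69 k138 10 (.s k137 k205 9 (.s k71 k139 9 (.d k70 k68
  k204 0 10)))), (.s k138 k69 10 (.s k74 k202 7 (.s k133 k192 10 (.d k143 k128 k79 2 7)))), (.s k71
  k139 9 (.s k135 k199 7 (.s k75 k195 9 (.d k79 k67 k143 1 7))))] (.c k93 (.q k174 [(.s k69 k138 10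
  (.s k137 k205 9 (.s k71 k139 9 (.d k70 k68 k204 0 10)))), (.s k138 k69 10 (.s k74 k202 7 (.s k133
  k192 10 (.d k143 k128 k79 2 7)))), (.s k71 k139 9 (.s k135 k199 7 (.s k75 k195 9 (.d k79 k67 k143
  1 7))))] (.c k125 (.q k190 [(.s k69 k138 10 (.s k137 k205 9 (.s k71 k139 9 (.d k70 k68 k204 0
  10)))), (.s k138 k69 10 (.s k74 k202 7 (.s k133 k192 10 (.d k143 k128 k79 2 7)))), (.s k71 k139 9
  (.s k135 k199 7 (.s k75 k195 9 (.d k79 k67 k143 1 7))))] (.c k77 (.q k109 [(.s k69 k138 10 (.s k71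
  k139 9 (.s k70 k68 0 (.d k137 k205 k204 9 10)))), (.s k138 k69 10 (.s k74 k202 7 (.s k133 k192 10
  (.d k143 k128 k79 2 7)))), (.s k71 k139 9 (.s k135 k199 7 (.s k75 k195 9 (.d k79 k67 k143 1 7))))]
  .n) (.c k109 (.q k77 [(.s k69 k138 10 (.s k137 k205 9 (.s k71 k139 9 (.d k70 k68 k204 0 10)))),
  (.s k138 k69 10 (.s k74 k202 7 (.s k133 k192 10 (.d k143 k128 k79 2 7)))), (.s k71 k139 9 (.s k135
  k199 7 (.s k75 k195 9 (.d k79 k67 k143 1 7))))] .n) .n))) (.c k190 (.q k125 [(.s k69 k138 10 (.s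
  k137 k205 9 (.s k71 k139 9 (.d k70 k68 k204 0 10)))), (.s k138 k69 10 (.s k74 k202 7 (.s k133 k192
  10 (.d k143 k128 k79 2 7)))), (.s k71 k139 9 (.s k135 k199 7 (.s k75 k195 9 (.d k79 k67 k143 1
  7))))] .n) .n))) (.c k125 (.q k190 [(.s k69 k138 10 (.s k137 k205 9 (.s k71 k139 9 (.d k70 k68
  k204 0 10)))), (.s k138 k69 10 (.s k74 k202 7 (.s k133 k192 10 (.d k143 k128 k79 2 7)))), (.s k71
  k139 9 (.s k135 k199 7 (.s k75 k195 9 (.d k79 k67 k143 1 7))))] (.c k93 (.q k174 [(.s k69 k138 10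
  (.s k137 k205 9 (.s k71 k139 9 (.d k70 k68 k204 0 10)))), (.s k138 k69 10 (.s k74 k202 7 (.s k133
  k192 10 (.d k143 k128 k79 2 7)))), (.s k71 k139 9 (.s k135 k199 7 (.s k75 k195 9 (.d k79 k67 k143
  1 7))))] (.c k77 (.q k109 [(.s k69 k138 10 (.s k71 k139 9 (.s k70 k68 0 (.d k137 k205 k204 9
  10)))), (.s k138 k69 10 (.s k74 k202 7 (.s k133 k192 10 (.d k143 k128 k79 2 7)))), (.s k71 k139 9
  (.s k135 k199 7 (.s k75 k195 9 (.d k79 k67 k143 1 7))))] .n) (.c k109 (.q k77 [(.s k69 k138 10 (.s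
  k137 k205 9 (.s k71 k139 9 (.d k70 k68 k204 0 10)))), (.s k138 k69 10 (.s k74 k202 7 (.s k133 k192
  10 (.d k143 k128 k79 2 7)))), (.s k71 k139 9 (.s k135 k199 7 (.s k75 k195 9 (.d k79 k67 k143 1
  7))))] .n) .n))) (.c k174 (.q k93 [(.s k69 k138 10 (.s k137 k205 9 (.s k71 k139 9 (.d k70 k68 k204
  0 10)))), (.s k138 k69 10 (.s k74 k202 7 (.s k133 k192 10 (.d k143 k128 k79 2 7)))), (.s k71 k139
  9 (.s k135 k199 7 (.s k75 k195 9 (.d k79 k67 k143 1 7))))] (.c k109 (.q k239 [(.s k69 k138 10 (.s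
  k71 k139 9 (.s k70 k68 0 (.d k137 k205 k204 9 10)))), (.s k138 k69 10 (.s k74 k202 7 (.s k133 k192
  10 (.d k143 k128 k79 2 7)))), (.s k71 k139 9 (.s k135 k199 7 (.s k75 k195 9 (.d k79 k67 k143 1
  7))))] .n) (.c k239 (.q k109 [(.s k69 k138 10 (.s k137 k205 9 (.s k71 k139 9 (.d k70 k68 k204 0
  10)))), (.s k138 k69 10 (.s k74 k202 7 (.s k133 k192 10 (.d k143 k128 k79 2 7)))), (.s k71 k139 9
  (.s k135 k199 7 (.s k75 k195 9 (.d k79 k67 k143 1 7))))] .n) .n))) .n))) (.c k174 (.q k93 [(.s k69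
  k138 10 (.s k137 k205 9 (.s k71 k139 9 (.d k70 k68 k204 0 10)))), (.s k138 k69 10 (.s k74 k202 7
  (.s k133 k192 10 (.d k143 k128 k79 2 7)))), (.s k71 k139 9 (.s k135 k199 7 (.s k75 k195 9 (.d k79
  k67 k143 1 7))))] (.c k109 (.q k239 [(.s k69 k138 10 (.s k71 k139 9 (.s k70 k68 0 (.d k137 k205
  k204 9 10)))), (.s k138 k69 10 (.s k74 k202 7 (.s k133 k192 10 (.d k143 k128 k79 2 7)))), (.s k71
  k139 9 (.s k135 k199 7 (.s k75 k195 9 (.d k79 k67 k143 1 7))))] (.c k125 (.q k190 [(.s k69 k138 10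
  (.s k71 k139 9 (.s k70 k68 0 (.d k137 k205 k204 9 10)))), (.s k138 k69 10 (.s k74 k202 7 (.s k133
  k192 10 (.d k143 k128 k79 2 7)))), (.s k71 k139 9 (.s k135 k199 7 (.s k75 k195 9 (.d k79 k67 k143
  1 7))))] .n) (.c k190 (.q k125 [(.s k69 k138 10 (.s k71 k139 9 (.s k70 k68 0 (.d k137 k205 k204 9
  10)))), (.s k138 k69 10 (.s k74 k202 7 (.s k133 k192 10 (.d k143 k128 k79 2 7)))), (.s k71 k139 9
  (.s k135 k199 7 (.s k75 k195 9 (.d k79 k67 k143 1 7))))] (.c k142 (.l (.s k158 k223 8 (.s k69 k138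
  10 (.s k137 k205 9 (.s k70 k204 10 (.d k71 k68 k139 0 9)))))) (.c k158 (.q k142 [(.s k69 k138 10
  (.s k71 k139 9 (.s k70 k68 0 (.d k137 k205 k204 9 10)))), (.s k138 k69 10 (.s k74 k202 7 (.s k133
  k192 10 (.d k143 k128 k79 2 7)))), (.s k71 k139 9 (.s k135 k199 7 (.s k75 k195 9 (.d k79 k67 k143
  1 7))))] .n) .n))) .n))) (.c k125 (.q k190 [(.s k69 k138 10 (.s k137 k205 9 (.s k71 k139 9 (.d k70
  k68 k204 0 10)))), (.s k138 k69 10 (.s k74 k202 7 (.s k133 k192 10 (.d k143 k128 k79 2 7)))), (.s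
  k71 k139 9 (.s k135 k199 7 (.s k75 k195 9 (.d k79 k67 k143 1 7))))] (.c k109 (.q k239 [(.s k69
  k138 10 (.s k71 k139 9 (.s k70 k68 0 (.d k137 k205 k204 9 10)))), (.s k138 k69 10 (.s k74 k202 7
  (.s k133 k192 10 (.d k143 k128 k79 2 7)))), (.s k71 k139 9 (.s k135 k199 7 (.s k75 k195 9 (.d k79
  k67 k143 1 7))))] .n) (.c k239 (.q k109 [(.s k69 k138 10 (.s k137 k205 9 (.s k71 k139 9 (.d k70
  k68 k204 0 10)))), (.s k138 k69 10 (.s k74 k202 7 (.s k133 k192 10 (.d k143 k128 k79 2 7)))), (.s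
  k71 k139 9 (.s k135 k199 7 (.s k75 k195 9 (.d k79 k67 k143 1 7))))] .n) .n))) (.c k190 (.q k125
  [(.s k69 k138 10 (.s k137 k205 9 (.s k71 k139 9 (.d k70 k68 k204 0 10)))), (.s k138 k69 10 (.s k74
  k202 7 (.s k133 k192 10 (.d k143 k128 k79 2 7)))), (.s k71 k139 9 (.s k135 k199 7 (.s k75 k195 9
  (.d k79 k67 k143 1 7))))] (.c k109 (.q k239 [(.s k69 k138 10 (.s k71 k139 9 (.s k70 k68 0 (.d k137
  k205 k204 9 10)))), (.s k138 k69 10 (.s k74 k202 7 (.s k133 k192 10 (.d k143 k128 k79 2 7)))), (.s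
  k71 k139 9 (.s k135 k199 7 (.s k75 k195 9 (.d k79 k67 k143 1 7))))] (.c k142 (.l (.s k158 k223 8
  (.s k69 k138 10 (.s k137 k205 9 (.s k70 k204 10 (.d k71 k68 k139 0 9)))))) (.c k158 (.q k142 [(.s
  k69 k138 10 (.s k71 k139 9 (.s k70 k68 0 (.d k137 k205 k204 9 10)))), (.s k138 k69 10 (.s k74 k202
  7 (.s k133 k192 10 (.d k143 k128 k79 2 7)))), (.s k71 k139 9 (.s k135 k199 7 (.s k75 k195 9 (.d
  k79 k67 k143 1 7))))] .n) .n))) (.c k142 (.l (.s k158 k223 8 (.s k69 k138 10 (.s k137 k205 9 (.s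
  k70 k204 10 (.d k71 k68 k139 0 9)))))) (.c k158 (.q k142 [(.s k69 k138 10 (.s k137 k205 9 (.s k71
  k139 9 (.d k70 k68 k204 0 10)))), (.s k138 k69 10 (.s k74 k202 7 (.s k133 k192 10 (.d k143 k128
  k79 2 7)))), (.s k71 k139 9 (.s k135 k199 7 (.s k75 k195 9 (.d k79 k67 k143 1 7))))] (.c k109 (.q
  k239 [(.s k69 k138 10 (.s k71 k139 9 (.s k70 k68 0 (.d k137 k205 k204 9 10)))), (.s k138 k69 10
  (.s k74 k202 7 (.s k133 k192 10 (.d k143 k128 k79 2 7)))), (.s k71 k139 9 (.s k135 k199 7 (.s k75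
  k195 9 (.d k79 k67 k143 1 7))))] .n) (.c k239 (.l (.s k109 k77 3 (.s k69 k138 10 (.s k137 k205 9
  (.s k70 k204 10 (.d k71 k68 k139 0 9)))))) .n))) (.c k239 (.l (.s k109 k77 3 (.s k69 k138 10 (.s
  k137 k205 9 (.s k70 k204 10 (.d k71 k68 k139 0 9)))))) .n))))) (.c k239 (.q k109 [(.s k69 k138 10
  (.s k137 k205 9 (.s k71 k139 9 (.d k70 k68 k204 0 10)))), (.s k138 k69 10 (.s k74 k202 7 (.s k133
  k192 10 (.d k143 k128 k79 2 7)))), (.s k71 k139 9 (.s k135 k199 7 (.s k75 k195 9 (.d k79 k67 k143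
  1 7))))] (.c k125 (.q k190 [(.s k69 k138 10 (.s k137 k205 9 (.s k71 k139 9 (.d k70 k68 k204 0
  10)))), (.s k138 k69 10 (.s k74 k202 7 (.s k133 k192 10 (.d k143 k128 k79 2 7)))), (.s k71 k139 9
  (.s k135 k199 7 (.s k75 k195 9 (.d k79 k67 k143 1 7))))] .n) (.c k190 (.l (.s k125 k77 3 (.s k69
  k138 10 (.s k137 k205 9 (.s k70 k204 10 (.d k71 k68 k139 0 9)))))) .n))) .n))))) (.c k190 (.q k125
  [(.s k69 k138 10 (.s k137 k205 9 (.s k71 k139 9 (.d k70 k68 k204 0 10)))), (.s k138 k69 10 (.s k74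
  k202 7 (.s k133 k192 10 (.d k143 k128 k79 2 7)))), (.s k71 k139 9 (.s k135 k199 7 (.s k75 k195 9
  (.d k79 k67 k143 1 7))))] (.c k93 (.q k174 [(.s k69 k138 10 (.s k137 k205 9 (.s k71 k139 9 (.d k70
  k68 k204 0 10)))), (.s k138 k69 10 (.s k74 k202 7 (.s k133 k192 10 (.d k143 k128 k79 2 7)))), (.s
  k71 k139 9 (.s k135 k199 7 (.s k75 k195 9 (.d k79 k67 k143 1 7))))] .n) (.c k174 (.q k93 [(.s k69
  k138 10 (.s k137 k205 9 (.s k71 k139 9 (.d k70 k68 k204 0 10)))), (.s k138 k69 10 (.s k74 k202 7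
  (.s k133 k192 10 (.d k143 k128 k79 2 7)))), (.s k71 k139 9 (.s k135 k199 7 (.s k75 k195 9 (.d k79
  k67 k143 1 7))))] (.c k109 (.q k239 [(.s k69 k138 10 (.s k71 k139 9 (.s k70 k68 0 (.d k137 k205
  k204 9 10)))), (.s k138 k69 10 (.s k74 k202 7 (.s k133 k192 10 (.d k143 k128 k79 2 7)))), (.s k71
  k139 9 (.s k135 k199 7 (.s k75 k195 9 (.d k79 k67 k143 1 7))))] (.c k142 (.l (.s k158 k223 8 (.s
  k69 k138 10 (.s k137 k205 9 (.s k70 k204 10 (.d k71 k68 k139 0 9)))))) (.c k158 (.q k142 [(.s k69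
  k138 10 (.s k71 k139 9 (.s k70 k68 0 (.d k137 k205 k204 9 10)))), (.s k138 k69 10 (.s k74 k202 7
  (.s k133 k192 10 (.d k143 k128 k79 2 7)))), (.s k71 k139 9 (.s k135 k199 7 (.s k75 k195 9 (.d k79
  k67 k143 1 7))))] .n) .n))) (.c k142 (.l (.s k158 k223 8 (.s k69 k138 10 (.s k137 k205 9 (.s k70
  k204 10 (.d k71 k68 k139 0 9)))))) (.c k158 (.q k142 [(.s k69 k138 10 (.s k137 k205 9 (.s k71 k139
  9 (.d k70 k68 k204 0 10)))), (.s k138 k69 10 (.s k74 k202 7 (.s k133 k192 10 (.d k143 k128 k79 2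
  7)))), (.s k71 k139 9 (.s k135 k199 7 (.s k75 k195 9 (.d k79 k67 k143 1 7))))] (.c k109 (.q k239
  [(.s k69 k138 10 (.s k71 k139 9 (.s k70 k68 0 (.d k137 k205 k204 9 10)))), (.s k138 k69 10 (.s k74
  k202 7 (.s k133 k192 10 (.d k143 k128 k79 2 7)))), (.s k71 k139 9 (.s k135 k199 7 (.s k75 k195 9
  (.d k79 k67 k143 1 7))))] .n) (.c k239 (.l (.s k109 k77 3 (.s k69 k138 10 (.s k137 k205 9 (.s k70
  k204 10 (.d k71 k68 k139 0 9)))))) .n))) (.c k239 (.l (.s k109 k77 3 (.s k69 k138 10 (.s k137 k205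
  9 (.s k70 k204 10 (.d k71 k68 k139 0 9)))))) .n))))) .n))) .n))))) (.c k93 (.q k174 [(.s k69 k138
  10 (.s k137 k205 9 (.s k71 k139 9 (.d k70 k68 k204 0 10)))), (.s k138 k69 10 (.s k74 k202 7 (.s
  k133 k192 10 (.d k143 k128 k79 2 7)))), (.s k71 k139 9 (.s k135 k199 7 (.s k75 k195 9 (.d k79 k67
  k143 1 7))))] (.c k28 (.q k44 [(.s k69 k138 10 (.s k137 k205 9 (.s k71 k139 9 (.d k70 k68 k204 0
  10)))), (.s k138 k69 10 (.s k74 k202 7 (.s k133 k192 10 (.d k143 k128 k79 2 7)))), (.s k71 k139 9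
  (.s k135 k199 7 (.s k75 k195 9 (.d k79 k67 k143 1 7))))] (.c k125 (.q k190 [(.s k69 k138 10 (.s
  k137 k205 9 (.s k71 k139 9 (.d k70 k68 k204 0 10)))), (.s k138 k69 10 (.s k74 k202 7 (.s k133 k192
  10 (.d k143 k128 k79 2 7)))), (.s k71 k139 9 (.s k135 k199 7 (.s k75 k195 9 (.d k79 k67 k143 1
  7))))] (.c k77 (.l (.s k109 k239 8 (.s k69 k138 10 (.s k137 k205 9 (.s k70 k204 10 (.d k71 k68
  k139 0 9)))))) (.c k109 (.q k77 [(.s k69 k138 10 (.s k137 k205 9 (.s k71 k139 9 (.d k70 k68 k204 0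
  10)))), (.s k138 k69 10 (.s k74 k202 7 (.s k133 k192 10 (.d k143 k128 k79 2 7)))), (.s k71 k139 9
  (.s k135 k199 7 (.s k75 k195 9 (.d k79 k67 k143 1 7))))] (.c k158 (.q k223 [(.s k69 k138 10 (.s
  k137 k205 9 (.s k71 k139 9 (.d k70 k68 k204 0 10)))), (.s k138 k69 10 (.s k74 k202 7 (.s k133 k192
  10 (.d k143 k128 k79 2 7)))), (.s k71 k139 9 (.s k135 k199 7 (.s k75 k195 9 (.d k79 k67 k143 1
  7))))] .n) (.c k223 (.l (.s k158 k142 3 (.s k69 k138 10 (.s k137 k205 9 (.s k70 k204 10 (.d k71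
  k68 k139 0 9)))))) .n))) (.c k158 (.q k223 [(.s k69 k138 10 (.s k137 k205 9 (.s k71 k139 9 (.d k70
  k68 k204 0 10)))), (.s k138 k69 10 (.s k74 k202 7 (.s k133 k192 10 (.d k143 k128 k79 2 7)))), (.s
  k71 k139 9 (.s k135 k199 7 (.s k75 k195 9 (.d k79 k67 k143 1 7))))] (.c k77 (.l (.s k109 k239 8
  (.s k69 k138 10 (.s k137 k205 9 (.s k70 k204 10 (.d k71 k68 k139 0 9)))))) (.c k109 (.q k77 [(.s
  k69 k138 10 (.s k137 k205 9 (.s k71 k139 9 (.d k70 k68 k204 0 10)))), (.s k138 k69 10 (.s k74 k202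
  7 (.s k133 k192 10 (.d k143 k128 k79 2 7)))), (.s k71 k139 9 (.s k135 k199 7 (.s k75 k195 9 (.d
  k79 k67 k143 1 7))))] .n) .n))) (.c k223 (.l (.s k158 k142 3 (.s k69 k138 10 (.s k137 k205 9 (.s
  k70 k204 10 (.d k71 k68 k139 0 9)))))) .n))))) (.c k158 (.q k223 [(.s k69 k138 10 (.s k137 k205 9
  (.s k71 k139 9 (.d k70 k68 k204 0 10)))), (.s k138 k69 10 (.s k74 k202 7 (.s k133 k192 10 (.d k143
  k128 k79 2 7)))), (.s k71 k139 9 (.s k135 k199 7 (.s k75 k195 9 (.d k79 k67 k143 1 7))))] (.c k125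
  (.q k190 [(.s k69 k138 10 (.s k137 k205 9 (.s k71 k139 9 (.d k70 k68 k204 0 10)))), (.s k138 k69
  10 (.s k74 k202 7 (.s k133 k192 10 (.d k143 k128 k79 2 7)))), (.s k71 k139 9 (.s k135 k199 7 (.s
  k75 k195 9 (.d k79 k67 k143 1 7))))] (.c k77 (.l (.s k109 k239 8 (.s k69 k138 10 (.s k137 k205 9
  (.s k70 k204 10 (.d k71 k68 k139 0 9)))))) (.c k109 (.q k77 [(.s k69 k138 10 (.s k137 k205 9 (.s
  k71 k139 9 (.d k70 k68 k204 0 10)))), (.s k138 k69 10 (.s k74 k202 7 (.s k133 k192 10 (.d k143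
  k128 k79 2 7)))), (.s k71 k139 9 (.s k135 k199 7 (.s k75 k195 9 (.d k79 k67 k143 1 7))))] .n)
  .n))) (.c k190 (.q k125 [(.s k69 k138 10 (.s k137 k205 9 (.s k71 k139 9 (.d k70 k68 k204 0 10)))),
  (.s k138 k69 10 (.s k74 k202 7 (.s k133 k192 10 (.d k143 k128 k79 2 7)))), (.s k71 k139 9 (.s k135
  k199 7 (.s k75 k195 9 (.d k79 k67 k143 1 7))))] .n) .n))) (.c k190 (.q k125 [(.s k69 k138 10 (.s
  k137 k205 9 (.s k71 k139 9 (.d k70 k68 k204 0 10)))), (.s k138 k69 10 (.s k74 k202 7 (.s k133 k192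
  10 (.d k143 k128 k79 2 7)))), (.s k71 k139 9 (.s k135 k199 7 (.s k75 k195 9 (.d k79 k67 k143 1
  7))))] (.c k158 (.q k223 [(.s k69 k138 10 (.s k137 k205 9 (.s k71 k139 9 (.d k70 k68 k204 0
  10)))), (.s k138 k69 10 (.s k74 k202 7 (.s k133 k192 10 (.d k143 k128 k79 2 7)))), (.s k71 k139 9
  (.s k135 k199 7 (.s k75 k195 9 (.d k79 k67 k143 1 7))))] .n) (.c k223 (.q k158 [(.s k69 k138 10
  (.s k137 k205 9 (.s k71 k139 9 (.d k70 k68 k204 0 10)))), (.s k138 k69 10 (.s k74 k202 7 (.s k133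
  k192 10 (.d k143 k128 k79 2 7)))), (.s k71 k139 9 (.s k135 k199 7 (.s k75 k195 9 (.d k79 k67 k143
  1 7))))] .n) .n))) (.c k223 (.q k158 [(.s k69 k138 10 (.s k137 k205 9 (.s k71 k139 9 (.d k70 k68
  k204 0 10)))), (.s k138 k69 10 (.s k74 k202 7 (.s k133 k192 10 (.d k143 k128 k79 2 7)))), (.s k71
  k139 9 (.s k135 k199 7 (.s k75 k195 9 (.d k79 k67 k143 1 7))))] (.c k125 (.l (.s k190 k142 3 (.s
  k69 k138 10 (.s k137 k205 9 (.s k70 k204 10 (.d k71 k68 k139 0 9)))))) (.c k190 (.q k125 [(.s k69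
  k138 10 (.s k137 k205 9 (.s k71 k139 9 (.d k70 k68 k204 0 10)))), (.s k138 k69 10 (.s k74 k202 7
  (.s k133 k192 10 (.d k143 k128 k79 2 7)))), (.s k71 k139 9 (.s k135 k199 7 (.s k75 k195 9 (.d k79
  k67 k143 1 7))))] .n) .n))) .n))))) (.c k44 (.q k28 [(.s k69 k138 10 (.s k137 k205 9 (.s k71 k139
  9 (.d k70 k68 k204 0 10)))), (.s k138 k69 10 (.s k74 k202 7 (.s k133 k192 10 (.d k143 k128 k79 2
  7)))), (.s k71 k139 9 (.s k135 k199 7 (.s k75 k195 9 (.d k79 k67 k143 1 7))))] (.c k125 (.q k190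
  [(.s k69 k138 10 (.s k137 k205 9 (.s k71 k139 9 (.d k70 k68 k204 0 10)))), (.s k138 k69 10 (.s k74
  k202 7 (.s k133 k192 10 (.d k143 k128 k79 2 7)))), (.s k71 k139 9 (.s k135 k199 7 (.s k75 k195 9
  (.d k79 k67 k143 1 7))))] (.c k77 (.q k109 [(.s k69 k138 10 (.s k71 k139 9 (.s k70 k68 0 (.d k137
  k205 k204 9 10)))), (.s k138 k69 10 (.s k74 k202 7 (.s k133 k192 10 (.d k143 k128 k79 2 7)))), (.s
  k71 k139 9 (.s k135 k199 7 (.s k75 k195 9 (.d k79 k67 k143 1 7))))] .n) (.c k109 (.q k77 [(.s k69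
  k138 10 (.s k137 k205 9 (.s k71 k139 9 (.d k70 k68 k204 0 10)))), (.s k138 k69 10 (.s k74 k202 7
  (.s k133 k192 10 (.d k143 k128 k79 2 7)))), (.s k71 k139 9 (.s k135 k199 7 (.s k75 k195 9 (.d k79
  k67 k143 1 7))))] .n) .n))) (.c k190 (.q k125 [(.s k69 k138 10 (.s k137 k205 9 (.s k71 k139 9 (.d
  k70 k68 k204 0 10)))), (.s k138 k69 10 (.s k74 k202 7 (.s k133 k192 10 (.d k143 k128 k79 2 7)))),
  (.s k71 k139 9 (.s k135 k199 7 (.s k75 k195 9 (.d k79 k67 k143 1 7))))] .n) .n))) (.c k125 (.q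
  k190 [(.s k69 k138 10 (.s k137 k205 9 (.s k71 k139 9 (.d k70 k68 k204 0 10)))), (.s k138 k69 10
  (.s k74 k202 7 (.s k133 k192 10 (.d k143 k128 k79 2 7)))), (.s k71 k139 9 (.s k135 k199 7 (.s k75
  k195 9 (.d k79 k67 k143 1 7))))] (.c k28 (.q k44 [(.s k69 k138 10 (.s k137 k205 9 (.s k71 k139 9
  (.d k70 k68 k204 0 10)))), (.s k138 k69 10 (.s k74 k202 7 (.s k133 k192 10 (.d k143 k128 k79 2
  7)))), (.s k71 k139 9 (.s k135 k199 7 (.s k75 k195 9 (.d k79 k67 k143 1 7))))] (.c k77 (.l (.s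
  k109 k239 8 (.s k69 k138 10 (.s k137 k205 9 (.s k70 k204 10 (.d k71 k68 k139 0 9)))))) (.c k109
  (.q k77 [(.s k69 k138 10 (.s k137 k205 9 (.s k71 k139 9 (.d k70 k68 k204 0 10)))), (.s k138 k69 10
  (.s k74 k202 7 (.s k133 k192 10 (.d k143 k128 k79 2 7)))), (.s k71 k139 9 (.s k135 k199 7 (.s k75
  k195 9 (.d k79 k67 k143 1 7))))] (.c k158 (.q k223 [(.s k69 k138 10 (.s k137 k205 9 (.s k71 k139 9
  (.d k70 k68 k204 0 10)))), (.s k138 k69 10 (.s k74 k202 7 (.s k133 k192 10 (.d k143 k128 k79 2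
  7)))), (.s k71 k139 9 (.s k135 k199 7 (.s k75 k195 9 (.d k79 k67 k143 1 7))))] .n) (.c k223 (.l
  (.s k158 k142 3 (.s k69 k138 10 (.s k137 k205 9 (.s k70 k204 10 (.d k71 k68 k139 0 9)))))) .n)))
  (.c k158 (.q k223 [(.s k69 k138 10 (.s k137 k205 9 (.s k71 k139 9 (.d k70 k68 k204 0 10)))), (.s
  k138 k69 10 (.s k74 k202 7 (.s k133 k192 10 (.d k143 k128 k79 2 7)))), (.s k71 k139 9 (.s k135
  k199 7 (.s k75 k195 9 (.d k79 k67 k143 1 7))))] (.c k77 (.l (.s k109 k239 8 (.s k69 k138 10 (.s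
  k137 k205 9 (.s k70 k204 10 (.d k71 k68 k139 0 9)))))) (.c k109 (.q k77 [(.s k69 k138 10 (.s k137
  k205 9 (.s k71 k139 9 (.d k70 k68 k204 0 10)))), (.s k138 k69 10 (.s k74 k202 7 (.s k133 k192 10
  (.d k143 k128 k79 2 7)))), (.s k71 k139 9 (.s k135 k199 7 (.s k75 k195 9 (.d k79 k67 k143 1 7))))]
  .n) .n))) (.c k223 (.l (.s k158 k142 3 (.s k69 k138 10 (.s k137 k205 9 (.s k70 k204 10 (.d k71 k68
  k139 0 9)))))) .n))))) (.c k44 (.q k28 [(.s k69 k138 10 (.s k137 k205 9 (.s k71 k139 9 (.d k70 k68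
  k204 0 10)))), (.s k138 k69 10 (.s k74 k202 7 (.s k133 k192 10 (.d k143 k128 k79 2 7)))), (.s k71
  k139 9 (.s k135 k199 7 (.s k75 k195 9 (.d k79 k67 k143 1 7))))] (.c k77 (.q k109 [(.s k69 k138 10
  (.s k71 k139 9 (.s k70 k68 0 (.d k137 k205 k204 9 10)))), (.s k138 k69 10 (.s k74 k202 7 (.s k133
  k192 10 (.d k143 k128 k79 2 7)))), (.s k71 k139 9 (.s k135 k199 7 (.s k75 k195 9 (.d k79 k67 k143
  1 7))))] .n) (.c k109 (.q k77 [(.s k69 k138 10 (.s k137 k205 9 (.s k71 k139 9 (.d k70 k68 k204 0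
  10)))), (.s k138 k69 10 (.s k74 k202 7 (.s k133 k192 10 (.d k143 k128 k79 2 7)))), (.s k71 k139 9
  (.s k135 k199 7 (.s k75 k195 9 (.d k79 k67 k143 1 7))))] .n) .n))) (.c k77 (.q k109 [(.s k69 k138
  10 (.s k71 k139 9 (.s k70 k68 0 (.d k137 k205 k204 9 10)))), (.s k138 k69 10 (.s k74 k202 7 (.s
  k133 k192 10 (.d k143 k128 k79 2 7)))), (.s k71 k139 9 (.s k135 k199 7 (.s k75 k195 9 (.d k79 k67
  k143 1 7))))] (.c k28 (.l (.s k44 k239 8 (.s k69 k138 10 (.s k137 k205 9 (.s k70 k204 10 (.d k71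
  k68 k139 0 9)))))) (.c k44 (.q k28 [(.s k69 k138 10 (.s k71 k139 9 (.s k70 k68 0 (.d k137 k205
  k204 9 10)))), (.s k138 k69 10 (.s k74 k202 7 (.s k133 k192 10 (.d k143 k128 k79 2 7)))), (.s k71
  k139 9 (.s k135 k199 7 (.s k75 k195 9 (.d k79 k67 k143 1 7))))] .n) .n))) (.c k109 (.q k77 [(.s
  k69 k138 10 (.s k137 k205 9 (.s k71 k139 9 (.d k70 k68 k204 0 10)))), (.s k138 k69 10 (.s k74 k202
  7 (.s k133 k192 10 (.d k143 k128 k79 2 7)))), (.s k71 k139 9 (.s k135 k199 7 (.s k75 k195 9 (.d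
  k79 k67 k143 1 7))))] (.c k28 (.q k44 [(.s k69 k138 10 (.s k137 k205 9 (.s k71 k139 9 (.d k70 k68
  k204 0 10)))), (.s k138 k69 10 (.s k74 k202 7 (.s k133 k192 10 (.d k143 k128 k79 2 7)))), (.s k71
  k139 9 (.s k135 k199 7 (.s k75 k195 9 (.d k79 k67 k143 1 7))))] (.c k158 (.q k223 [(.s k69 k138 10
  (.s k137 k205 9 (.s k71 k139 9 (.d k70 k68 k204 0 10)))), (.s k138 k69 10 (.s k74 k202 7 (.s k133
  k192 10 (.d k143 k128 k79 2 7)))), (.s k71 k139 9 (.s k135 k199 7 (.s k75 k195 9 (.d k79 k67 k143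
  1 7))))] .n) (.c k223 (.l (.s k158 k142 3 (.s k69 k138 10 (.s k137 k205 9 (.s k70 k204 10 (.d k71
  k68 k139 0 9)))))) .n))) (.c k44 (.q k28 [(.s k69 k138 10 (.s k137 k205 9 (.s k71 k139 9 (.d k70
  k68 k204 0 10)))), (.s k138 k69 10 (.s k74 k202 7 (.s k133 k192 10 (.d k143 k128 k79 2 7)))), (.s
  k71 k139 9 (.s k135 k199 7 (.s k75 k195 9 (.d k79 k67 k143 1 7))))] .n) .n))) .n))))) (.c k190 (.q
  k125 [(.s k69 k138 10 (.s k137 k205 9 (.s k71 k139 9 (.d k70 k68 k204 0 10)))), (.s k138 k69 10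
  (.s k74 k202 7 (.s k133 k192 10 (.d k143 k128 k79 2 7)))), (.s k71 k139 9 (.s k135 k199 7 (.s k75
  k195 9 (.d k79 k67 k143 1 7))))] (.c k28 (.q k44 [(.s k69 k138 10 (.s k137 k205 9 (.s k71 k139 9
  (.d k70 k68 k204 0 10)))), (.s k138 k69 10 (.s k74 k202 7 (.s k133 k192 10 (.d k143 k128 k79 2
  7)))), (.s k71 k139 9 (.s k135 k199 7 (.s k75 k195 9 (.d k79 k67 k143 1 7))))] (.c k158 (.q k223
  [(.s k69 k138 10 (.s k137 k205 9 (.s k71 k139 9 (.d k70 k68 k204 0 10)))), (.s k138 k69 10 (.s k74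
  k202 7 (.s k133 k192 10 (.d k143 k128 k79 2 7)))), (.s k71 k139 9 (.s k135 k199 7 (.s k75 k195 9
  (.d k79 k67 k143 1 7))))] .n) (.c k223 (.q k158 [(.s k69 k138 10 (.s k137 k205 9 (.s k71 k139 9
  (.d k70 k68 k204 0 10)))), (.s k138 k69 10 (.s k74 k202 7 (.s k133 k192 10 (.d k143 k128 k79 2
  7)))), (.s k71 k139 9 (.s k135 k199 7 (.s k75 k195 9 (.d k79 k67 k143 1 7))))] .n) .n))) (.c k44
  (.q k28 [(.s k69 k138 10 (.s k137 k205 9 (.s k71 k139 9 (.d k70 k68 k204 0 10)))), (.s k138 k69 10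
  (.s k74 k202 7 (.s k133 k192 10 (.d k143 k128 k79 2 7)))), (.s k71 k139 9 (.s k135 k199 7 (.s k75
  k195 9 (.d k79 k67 k143 1 7))))] .n) .n))) .n))))) (.c k125 (.q k190 [(.s k69 k138 10 (.s k137
  k205 9 (.s k71 k139 9 (.d k70 k68 k204 0 10)))), (.s k138 k69 10 (.s k74 k202 7 (.s k133 k192 10
  (.d k143 k128 k79 2 7)))), (.s k71 k139 9 (.s k135 k199 7 (.s k75 k195 9 (.d k79 k67 k143 1 7))))]
  (.c k28 (.q k44 [(.s k69 k138 10 (.s k137 k205 9 (.s k71 k139 9 (.d k70 k68 k204 0 10)))), (.s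
  k138 k69 10 (.s k74 k202 7 (.s k133 k192 10 (.d k143 k128 k79 2 7)))), (.s k71 k139 9 (.s k135
  k199 7 (.s k75 k195 9 (.d k79 k67 k143 1 7))))] (.c k93 (.q k174 [(.s k69 k138 10 (.s k137 k205 9
  (.s k71 k139 9 (.d k70 k68 k204 0 10)))), (.s k138 k69 10 (.s k74 k202 7 (.s k133 k192 10 (.d k143
  k128 k79 2 7)))), (.s k71 k139 9 (.s k135 k199 7 (.s k75 k195 9 (.d k79 k67 k143 1 7))))] (.c k77
  (.l (.s k109 k239 8 (.s k69 k138 10 (.s k137 k205 9 (.s k70 k204 10 (.d k71 k68 k139 0 9)))))) (.c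
  k109 (.q k77 [(.s k69 k138 10 (.s k137 k205 9 (.s k71 k139 9 (.d k70 k68 k204 0 10)))), (.s k138
  k69 10 (.s k74 k202 7 (.s k133 k192 10 (.d k143 k128 k79 2 7)))), (.s k71 k139 9 (.s k135 k199 7
  (.s k75 k195 9 (.d k79 k67 k143 1 7))))] (.c k158 (.q k223 [(.s k69 k138 10 (.s k137 k205 9 (.s
  k71 k139 9 (.d k70 k68 k204 0 10)))), (.s k138 k69 10 (.s k74 k202 7 (.s k133 k192 10 (.d k143
  k128 k79 2 7)))), (.s k71 k139 9 (.s k135 k199 7 (.s k75 k195 9 (.d k79 k67 k143 1 7))))] .n) (.c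
  k223 (.l (.s k158 k142 3 (.s k69 k138 10 (.s k137 k205 9 (.s k70 k204 10 (.d k71 k68 k139 0
  9)))))) .n))) (.c k158 (.q k223 [(.s k69 k138 10 (.s k137 k205 9 (.s k71 k139 9 (.d k70 k68 k204 0
  10)))), (.s k138 k69 10 (.s k74 k202 7 (.s k133 k192 10 (.d k143 k128 k79 2 7)))), (.s k71 k139 9
  (.s k135 k199 7 (.s k75 k195 9 (.d k79 k67 k143 1 7))))] (.c k77 (.l (.s k109 k239 8 (.s k69 k138
  10 (.s k137 k205 9 (.s k70 k204 10 (.d k71 k68 k139 0 9)))))) (.c k109 (.q k77 [(.s k69 k138 10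
  (.s k137 k205 9 (.s k71 k139 9 (.d k70 k68 k204 0 10)))), (.s k138 k69 10 (.s k74 k202 7 (.s k133
  k192 10 (.d k143 k128 k79 2 7)))), (.s k71 k139 9 (.s k135 k199 7 (.s k75 k195 9 (.d k79 k67 k143
  1 7))))] .n) .n))) (.c k223 (.l (.s k158 k142 3 (.s k69 k138 10 (.s k137 k205 9 (.s k70 k204 10
  (.d k71 k68 k139 0 9)))))) .n))))) (.c k174 (.q k93 [(.s k69 k138 10 (.s k137 k205 9 (.s k71 k139
  9 (.d k70 k68 k204 0 10)))), (.s k138 k69 10 (.s k74 k202 7 (.s k133 k192 10 (.d k143 k128 k79 2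
  7)))), (.s k71 k139 9 (.s k135 k199 7 (.s k75 k195 9 (.d k79 k67 k143 1 7))))] .n) .n))) (.c k44
  (.q k28 [(.s k69 k138 10 (.s k137 k205 9 (.s k71 k139 9 (.d k70 k68 k204 0 10)))), (.s k138 k69 10
  (.s k74 k202 7 (.s k133 k192 10 (.d k143 k128 k79 2 7)))), (.s k71 k139 9 (.s k135 k199 7 (.s k75
  k195 9 (.d k79 k67 k143 1 7))))] (.c k93 (.q k174 [(.s k69 k138 10 (.s k137 k205 9 (.s k71 k139 9
  (.d k70 k68 k204 0 10)))), (.s k138 k69 10 (.s k74 k202 7 (.s k133 k192 10 (.d k143 k128 k79 2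
  7)))), (.s k71 k139 9 (.s k135 k199 7 (.s k75 k195 9 (.d k79 k67 k143 1 7))))] (.c k77 (.q k109
  [(.s k69 k138 10 (.s k71 k139 9 (.s k70 k68 0 (.d k137 k205 k204 9 10)))), (.s k138 k69 10 (.s k74
  k202 7 (.s k133 k192 10 (.d k143 k128 k79 2 7)))), (.s k71 k139 9 (.s k135 k199 7 (.s k75 k195 9
  (.d k79 k67 k143 1 7))))] .n) (.c k109 (.q k77 [(.s k69 k138 10 (.s k137 k205 9 (.s k71 k139 9 (.d
  k70 k68 k204 0 10)))), (.s k138 k69 10 (.s k74 k202 7 (.s k133 k192 10 (.d k143 k128 k79 2 7)))),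
  (.s k71 k139 9 (.s k135 k199 7 (.s k75 k195 9 (.d k79 k67 k143 1 7))))] .n) .n))) (.c k174 (.q k93
  [(.s k69 k138 10 (.s k137 k205 9 (.s k71 k139 9 (.d k70 k68 k204 0 10)))), (.s k138 k69 10 (.s k74
  k202 7 (.s k133 k192 10 (.d k143 k128 k79 2 7)))), (.s k71 k139 9 (.s k135 k199 7 (.s k75 k195 9
  (.d k79 k67 k143 1 7))))] (.c k109 (.q k239 [(.s k69 k138 10 (.s k71 k139 9 (.s k70 k68 0 (.d k137
  k205 k204 9 10)))), (.s k138 k69 10 (.s k74 k202 7 (.s k133 k192 10 (.d k143 k128 k79 2 7)))), (.s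
  k71 k139 9 (.s k135 k199 7 (.s k75 k195 9 (.d k79 k67 k143 1 7))))] .n) (.c k239 (.q k109 [(.s k69
  k138 10 (.s k137 k205 9 (.s k71 k139 9 (.d k70 k68 k204 0 10)))), (.s k138 k69 10 (.s k74 k202 7
  (.s k133 k192 10 (.d k143 k128 k79 2 7)))), (.s k71 k139 9 (.s k135 k199 7 (.s k75 k195 9 (.d k79
  k67 k143 1 7))))] .n) .n))) .n))) (.c k93 (.q k174 [(.s k69 k138 10 (.s k137 k205 9 (.s k71 k139 9
  (.d k70 k68 k204 0 10)))), (.s k138 k69 10 (.s k74 k202 7 (.s k133 k192 10 (.d k143 k128 k79 2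
  7)))), (.s k71 k139 9 (.s k135 k199 7 (.s k75 k195 9 (.d k79 k67 k143 1 7))))] (.c k28 (.q k44
  [(.s k69 k138 10 (.s k137 k205 9 (.s k71 k139 9 (.d k70 k68 k204 0 10)))), (.s k138 k69 10 (.s k74
  k202 7 (.s k133 k192 10 (.d k143 k128 k79 2 7)))), (.s k71 k139 9 (.s k135 k199 7 (.s k75 k195 9
  (.d k79 k67 k143 1 7))))] (.c k77 (.l (.s k109 k239 8 (.s k69 k138 10 (.s k137 k205 9 (.s k70 k204
  10 (.d k71 k68 k139 0 9)))))) (.c k109 (.q k77 [(.s k69 k138 10 (.s k137 k205 9 (.s k71 k139 9 (.d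
  k70 k68 k204 0 10)))), (.s k138 k69 10 (.s k74 k202 7 (.s k133 k192 10 (.d k143 k128 k79 2 7)))),
  (.s k71 k139 9 (.s k135 k199 7 (.s k75 k195 9 (.d k79 k67 k143 1 7))))] (.c k158 (.q k223 [(.s k69
  k138 10 (.s k137 k205 9 (.s k71 k139 9 (.d k70 k68 k204 0 10)))), (.s k138 k69 10 (.s k74 k202 7
  (.s k133 k192 10 (.d k143 k128 k79 2 7)))), (.s k71 k139 9 (.s k135 k199 7 (.s k75 k195 9 (.d k79
  k67 k143 1 7))))] .n) (.c k223 (.l (.s k158 k142 3 (.s k69 k138 10 (.s k137 k205 9 (.s k70 k204 10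
  (.d k71 k68 k139 0 9)))))) .n))) (.c k158 (.q k223 [(.s k69 k138 10 (.s k137 k205 9 (.s k71 k139 9
  (.d k70 k68 k204 0 10)))), (.s k138 k69 10 (.s k74 k202 7 (.s k133 k192 10 (.d k143 k128 k79 2
  7)))), (.s k71 k139 9 (.s k135 k199 7 (.s k75 k195 9 (.d k79 k67 k143 1 7))))] (.c k77 (.l (.s
  k109 k239 8 (.s k69 k138 10 (.s k137 k205 9 (.s k70 k204 10 (.d k71 k68 k139 0 9)))))) (.c k109
  (.q k77 [(.s k69 k138 10 (.s k137 k205 9 (.s k71 k139 9 (.d k70 k68 k204 0 10)))), (.s k138 k69 10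
  (.s k74 k202 7 (.s k133 k192 10 (.d k143 k128 k79 2 7)))), (.s k71 k139 9 (.s k135 k199 7 (.s k75
  k195 9 (.d k79 k67 k143 1 7))))] .n) .n))) (.c k223 (.l (.s k158 k142 3 (.s k69 k138 10 (.s k137
  k205 9 (.s k70 k204 10 (.d k71 k68 k139 0 9)))))) .n))))) (.c k44 (.q k28 [(.s k69 k138 10 (.s
  k137 k205 9 (.s k71 k139 9 (.d k70 k68 k204 0 10)))), (.s k138 k69 10 (.s k74 k202 7 (.s k133 k192
  10 (.d k143 k128 k79 2 7)))), (.s k71 k139 9 (.s k135 k199 7 (.s k75 k195 9 (.d k79 k67 k143 1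
  7))))] (.c k77 (.q k109 [(.s k69 k138 10 (.s k71 k139 9 (.s k70 k68 0 (.d k137 k205 k204 9 10)))),
  (.s k138 k69 10 (.s k74 k202 7 (.s k133 k192 10 (.d k143 k128 k79 2 7)))), (.s k71 k139 9 (.s k135
  k199 7 (.s k75 k195 9 (.d k79 k67 k143 1 7))))] .n) (.c k109 (.q k77 [(.s k69 k138 10 (.s k137
  k205 9 (.s k71 k139 9 (.d k70 k68 k204 0 10)))), (.s k138 k69 10 (.s k74 k202 7 (.s k133 k192 10
  (.d k143 k128 k79 2 7)))), (.s k71 k139 9 (.s k135 k199 7 (.s k75 k195 9 (.d k79 k67 k143 1 7))))]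
  .n) .n))) (.c k77 (.q k109 [(.s k69 k138 10 (.s k71 k139 9 (.s k70 k68 0 (.d k137 k205 k204 9
  10)))), (.s k138 k69 10 (.s k74 k202 7 (.s k133 k192 10 (.d k143 k128 k79 2 7)))), (.s k71 k139 9
  (.s k135 k199 7 (.s k75 k195 9 (.d k79 k67 k143 1 7))))] (.c k28 (.l (.s k44 k239 8 (.s k69 k138
  10 (.s k137 k205 9 (.s k70 k204 10 (.d k71 k68 k139 0 9)))))) (.c k44 (.q k28 [(.s k69 k138 10 (.s
  k71 k139 9 (.s k70 k68 0 (.d k137 k205 k204 9 10)))), (.s k138 k69 10 (.s k74 k202 7 (.s k133 k192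
  10 (.d k143 k128 k79 2 7)))), (.s k71 k139 9 (.s k135 k199 7 (.s k75 k195 9 (.d k79 k67 k143 1
  7))))] .n) .n))) (.c k109 (.q k77 [(.s k69 k138 10 (.s k137 k205 9 (.s k71 k139 9 (.d k70 k68 k204
  0 10)))), (.s k138 k69 10 (.s k74 k202 7 (.s k133 k192 10 (.d k143 k128 k79 2 7)))), (.s k71 k139
  9 (.s k135 k199 7 (.s k75 k195 9 (.d k79 k67 k143 1 7))))] (.c k28 (.q k44 [(.s k69 k138 10 (.s
  k137 k205 9 (.s k71 k139 9 (.d k70 k68 k204 0 10)))), (.s k138 k69 10 (.s k74 k202 7 (.s k133 k192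
  10 (.d k143 k128 k79 2 7)))), (.s k71 k139 9 (.s k135 k199 7 (.s k75 k195 9 (.d k79 k67 k143 1
  7))))] (.c k158 (.q k223 [(.s k69 k138 10 (.s k137 k205 9 (.s k71 k139 9 (.d k70 k68 k204 0
  10)))), (.s k138 k69 10 (.s k74 k202 7 (.s k133 k192 10 (.d k143 k128 k79 2 7)))), (.s k71 k139 9
  (.s k135 k199 7 (.s k75 k195 9 (.d k79 k67 k143 1 7))))] .n) (.c k223 (.l (.s k158 k142 3 (.s k69
  k138 10 (.s k137 k205 9 (.s k70 k204 10 (.d k71 k68 k139 0 9)))))) .n))) (.c k44 (.q k28 [(.s k69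
  k138 10 (.s k137 k205 9 (.s k71 k139 9 (.d k70 k68 k204 0 10)))), (.s k138 k69 10 (.s k74 k202 7
  (.s k133 k192 10 (.d k143 k128 k79 2 7)))), (.s k71 k139 9 (.s k135 k199 7 (.s k75 k195 9 (.d k79
  k67 k143 1 7))))] .n) .n))) .n))))) (.c k174 (.q k93 [(.s k69 k138 10 (.s k137 k205 9 (.s k71 k139
  9 (.d k70 k68 k204 0 10)))), (.s k138 k69 10 (.s k74 k202 7 (.s k133 k192 10 (.d k143 k128 k79 2
  7)))), (.s k71 k139 9 (.s k135 k199 7 (.s k75 k195 9 (.d k79 k67 k143 1 7))))] (.c k28 (.q k44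
  [(.s k69 k138 10 (.s k137 k205 9 (.s k71 k139 9 (.d k70 k68 k204 0 10)))), (.s k138 k69 10 (.s k74
  k202 7 (.s k133 k192 10 (.d k143 k128 k79 2 7)))), (.s k71 k139 9 (.s k135 k199 7 (.s k75 k195 9
  (.d k79 k67 k143 1 7))))] .n) (.c k44 (.q k28 [(.s k69 k138 10 (.s k137 k205 9 (.s k71 k139 9 (.d
  k70 k68 k204 0 10)))), (.s k138 k69 10 (.s k74 k202 7 (.s k133 k192 10 (.d k143 k128 k79 2 7)))),
  (.s k71 k139 9 (.s k135 k199 7 (.s k75 k195 9 (.d k79 k67 k143 1 7))))] (.c k109 (.q k239 [(.s k69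
  k138 10 (.s k71 k139 9 (.s k70 k68 0 (.d k137 k205 k204 9 10)))), (.s k138 k69 10 (.s k74 k202 7
  (.s k133 k192 10 (.d k143 k128 k79 2 7)))), (.s k71 k139 9 (.s k135 k199 7 (.s k75 k195 9 (.d k79
  k67 k143 1 7))))] .n) (.c k239 (.q k109 [(.s k69 k138 10 (.s k137 k205 9 (.s k71 k139 9 (.d k70
  k68 k204 0 10)))), (.s k138 k69 10 (.s k74 k202 7 (.s k133 k192 10 (.d k143 k128 k79 2 7)))), (.s
  k71 k139 9 (.s k135 k199 7 (.s k75 k195 9 (.d k79 k67 k143 1 7))))] .n) .n))) .n))) .n))))) (.c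
  k174 (.q k93 [(.s k69 k138 10 (.s k137 k205 9 (.s k71 k139 9 (.d k70 k68 k204 0 10)))), (.s k138
  k69 10 (.s k74 k202 7 (.s k133 k192 10 (.d k143 k128 k79 2 7)))), (.s k71 k139 9 (.s k135 k199 7
  (.s k75 k195 9 (.d k79 k67 k143 1 7))))] (.c k28 (.q k44 [(.s k69 k138 10 (.s k137 k205 9 (.s k71
  k139 9 (.d k70 k68 k204 0 10)))), (.s k138 k69 10 (.s k74 k202 7 (.s k133 k192 10 (.d k143 k128
  k79 2 7)))), (.s k71 k139 9 (.s k135 k199 7 (.s k75 k195 9 (.d k79 k67 k143 1 7))))] (.c k125 (.q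
  k190 [(.s k69 k138 10 (.s k137 k205 9 (.s k71 k139 9 (.d k70 k68 k204 0 10)))), (.s k138 k69 10
  (.s k74 k202 7 (.s k133 k192 10 (.d k143 k128 k79 2 7)))), (.s k71 k139 9 (.s k135 k199 7 (.s k75
  k195 9 (.d k79 k67 k143 1 7))))] .n) (.c k190 (.q k125 [(.s k69 k138 10 (.s k137 k205 9 (.s k71
  k139 9 (.d k70 k68 k204 0 10)))), (.s k138 k69 10 (.s k74 k202 7 (.s k133 k192 10 (.d k143 k128
  k79 2 7)))), (.s k71 k139 9 (.s k135 k199 7 (.s k75 k195 9 (.d k79 k67 k143 1 7))))] (.c k142 (.q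
  k158 [(.s k69 k138 10 (.s k137 k205 9 (.s k71 k139 9 (.d k70 k68 k204 0 10)))), (.s k138 k69 10
  (.s k74 k202 7 (.s k133 k192 10 (.d k143 k128 k79 2 7)))), (.s k71 k139 9 (.s k135 k199 7 (.s k75
  k195 9 (.d k79 k67 k143 1 7))))] .n) (.c k158 (.q k142 [(.s k69 k138 10 (.s k137 k205 9 (.s k71
  k139 9 (.d k70 k68 k204 0 10)))), (.s k138 k69 10 (.s k74 k202 7 (.s k133 k192 10 (.d k143 k128
  k79 2 7)))), (.s k71 k139 9 (.s k135 k199 7 (.s k75 k195 9 (.d k79 k67 k143 1 7))))] .n) .n)))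
  .n))) (.c k44 (.q k28 [(.s k69 k138 10 (.s k137 k205 9 (.s k71 k139 9 (.d k70 k68 k204 0 10)))),
  (.s k138 k69 10 (.s k74 k202 7 (.s k133 k192 10 (.d k143 k128 k79 2 7)))), (.s k71 k139 9 (.s k135
  k199 7 (.s k75 k195 9 (.d k79 k67 k143 1 7))))] (.c k109 (.q k239 [(.s k69 k138 10 (.s k71 k139 9
  (.s k70 k68 0 (.d k137 k205 k204 9 10)))), (.s k138 k69 10 (.s k74 k202 7 (.s k133 k192 10 (.d
  k143 k128 k79 2 7)))), (.s k71 k139 9 (.s k135 k199 7 (.s k75 k195 9 (.d k79 k67 k143 1 7))))] (.c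
  k125 (.q k190 [(.s k69 k138 10 (.s k71 k139 9 (.s k70 k68 0 (.d k137 k205 k204 9 10)))), (.s k138
  k69 10 (.s k74 k202 7 (.s k133 k192 10 (.d k143 k128 k79 2 7)))), (.s k71 k139 9 (.s k135 k199 7
  (.s k75 k195 9 (.d k79 k67 k143 1 7))))] .n) (.c k190 (.q k125 [(.s k69 k138 10 (.s k71 k139 9 (.s
  k70 k68 0 (.d k137 k205 k204 9 10)))), (.s k138 k69 10 (.s k74 k202 7 (.s k133 k192 10 (.d k143
  k128 k79 2 7)))), (.s k71 k139 9 (.s k135 k199 7 (.s k75 k195 9 (.d k79 k67 k143 1 7))))] (.c k142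
  (.l (.s k158 k223 8 (.s k69 k138 10 (.s k137 k205 9 (.s k70 k204 10 (.d k71 k68 k139 0 9)))))) (.c
  k158 (.q k142 [(.s k69 k138 10 (.s k71 k139 9 (.s k70 k68 0 (.d k137 k205 k204 9 10)))), (.s k138
  k69 10 (.s k74 k202 7 (.s k133 k192 10 (.d k143 k128 k79 2 7)))), (.s k71 k139 9 (.s k135 k199 7
  (.s k75 k195 9 (.d k79 k67 k143 1 7))))] .n) .n))) .n))) (.c k125 (.q k190 [(.s k69 k138 10 (.s
  k137 k205 9 (.s k71 k139 9 (.d k70 k68 k204 0 10)))), (.s k138 k69 10 (.s k74 k202 7 (.s k133 k192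
  10 (.d k143 k128 k79 2 7)))), (.s k71 k139 9 (.s k135 k199 7 (.s k75 k195 9 (.d k79 k67 k143 1
  7))))] (.c k109 (.q k239 [(.s k69 k138 10 (.s k71 k139 9 (.s k70 k68 0 (.d k137 k205 k204 9
  10)))), (.s k138 k69 10 (.s k74 k202 7 (.s k133 k192 10 (.d k143 k128 k79 2 7)))), (.s k71 k139 9
  (.s k135 k199 7 (.s k75 k195 9 (.d k79 k67 k143 1 7))))] .n) (.c k239 (.q k109 [(.s k69 k138 10
  (.s k137 k205 9 (.s k71 k139 9 (.d k70 k68 k204 0 10)))), (.s k138 k69 10 (.s k74 k202 7 (.s k133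
  k192 10 (.d k143 k128 k79 2 7)))), (.s k71 k139 9 (.s k135 k199 7 (.s k75 k195 9 (.d k79 k67 k143
  1 7))))] .n) .n))) (.c k190 (.q k125 [(.s k69 k138 10 (.s k137 k205 9 (.s k71 k139 9 (.d k70 k68
  k204 0 10)))), (.s k138 k69 10 (.s k74 k202 7 (.s k133 k192 10 (.d k143 k128 k79 2 7)))), (.s k71
  k139 9 (.s k135 k199 7 (.s k75 k195 9 (.d k79 k67 k143 1 7))))] (.c k109 (.q k239 [(.s k69 k138 10
  (.s k71 k139 9 (.s k70 k68 0 (.d k137 k205 k204 9 10)))), (.s k138 k69 10 (.s k74 k202 7 (.s k133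
  k192 10 (.d k143 k128 k79 2 7)))), (.s k71 k139 9 (.s k135 k199 7 (.s k75 k195 9 (.d k79 k67 k143
  1 7))))] (.c k142 (.l (.s k158 k223 8 (.s k69 k138 10 (.s k137 k205 9 (.s k70 k204 10 (.d k71 k68
  k139 0 9)))))) (.c k158 (.q k142 [(.s k69 k138 10 (.s k71 k139 9 (.s k70 k68 0 (.d k137 k205 k204
  9 10)))), (.s k138 k69 10 (.s k74 k202 7 (.s k133 k192 10 (.d k143 k128 k79 2 7)))), (.s k71 k139
  9 (.s k135 k199 7 (.s k75 k195 9 (.d k79 k67 k143 1 7))))] .n) .n))) (.c k142 (.l (.s k158 k223 8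
  (.s k69 k138 10 (.s k137 k205 9 (.s k70 k204 10 (.d k71 k68 k139 0 9)))))) (.c k158 (.q k142 [(.s
  k69 k138 10 (.s k137 k205 9 (.s k71 k139 9 (.d k70 k68 k204 0 10)))), (.s k138 k69 10 (.s k74 k202
  7 (.s k133 k192 10 (.d k143 k128 k79 2 7)))), (.s k71 k139 9 (.s k135 k199 7 (.s k75 k195 9 (.d
  k79 k67 k143 1 7))))] (.c k109 (.q k239 [(.s k69 k138 10 (.s k71 k139 9 (.s k70 k68 0 (.d k137
  k205 k204 9 10)))), (.s k138 k69 10 (.s k74 k202 7 (.s k133 k192 10 (.d k143 k128 k79 2 7)))), (.s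
  k71 k139 9 (.s k135 k199 7 (.s k75 k195 9 (.d k79 k67 k143 1 7))))] .n) (.c k239 (.l (.s k109 k77
  3 (.s k69 k138 10 (.s k137 k205 9 (.s k70 k204 10 (.d k71 k68 k139 0 9)))))) .n))) (.c k239 (.l
  (.s k109 k77 3 (.s k69 k138 10 (.s k137 k205 9 (.s k70 k204 10 (.d k71 k68 k139 0 9)))))) .n)))))
  (.c k239 (.q k109 [(.s k69 k138 10 (.s k137 k205 9 (.s k71 k139 9 (.d k70 k68 k204 0 10)))), (.s
  k138 k69 10 (.s k74 k202 7 (.s k133 k192 10 (.d k143 k128 k79 2 7)))), (.s k71 k139 9 (.s k135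
  k199 7 (.s k75 k195 9 (.d k79 k67 k143 1 7))))] (.c k125 (.q k190 [(.s k69 k138 10 (.s k137 k205 9
  (.s k71 k139 9 (.d k70 k68 k204 0 10)))), (.s k138 k69 10 (.s k74 k202 7 (.s k133 k192 10 (.d k143
  k128 k79 2 7)))), (.s k71 k139 9 (.s k135 k199 7 (.s k75 k195 9 (.d k79 k67 k143 1 7))))] .n) (.c
  k190 (.l (.s k125 k77 3 (.s k69 k138 10 (.s k137 k205 9 (.s k70 k204 10 (.d k71 k68 k139 0 9))))))
  .n))) .n))))) (.c k125 (.q k190 [(.s k69 k138 10 (.s k137 k205 9 (.s k71 k139 9 (.d k70 k68 k204 0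
  10)))), (.s k138 k69 10 (.s k74 k202 7 (.s k133 k192 10 (.d k143 k128 k79 2 7)))), (.s k71 k139 9
  (.s k135 k199 7 (.s k75 k195 9 (.d k79 k67 k143 1 7))))] (.c k28 (.q k44 [(.s k69 k138 10 (.s k137
  k205 9 (.s k71 k139 9 (.d k70 k68 k204 0 10)))), (.s k138 k69 10 (.s k74 k202 7 (.s k133 k192 10
  (.d k143 k128 k79 2 7)))), (.s k71 k139 9 (.s k135 k199 7 (.s k75 k195 9 (.d k79 k67 k143 1 7))))]
  .n) (.c k44 (.q k28 [(.s k69 k138 10 (.s k137 k205 9 (.s k71 k139 9 (.d k70 k68 k204 0 10)))), (.s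
  k138 k69 10 (.s k74 k202 7 (.s k133 k192 10 (.d k143 k128 k79 2 7)))), (.s k71 k139 9 (.s k135
  k199 7 (.s k75 k195 9 (.d k79 k67 k143 1 7))))] (.c k109 (.q k239 [(.s k69 k138 10 (.s k71 k139 9
  (.s k70 k68 0 (.d k137 k205 k204 9 10)))), (.s k138 k69 10 (.s k74 k202 7 (.s k133 k192 10 (.d
  k143 k128 k79 2 7)))), (.s k71 k139 9 (.s k135 k199 7 (.s k75 k195 9 (.d k79 k67 k143 1 7))))] .n)
  (.c k239 (.q k109 [(.s k69 k138 10 (.s k137 k205 9 (.s k71 k139 9 (.d k70 k68 k204 0 10)))), (.s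
  k138 k69 10 (.s k74 k202 7 (.s k133 k192 10 (.d k143 k128 k79 2 7)))), (.s k71 k139 9 (.s k135
  k199 7 (.s k75 k195 9 (.d k79 k67 k143 1 7))))] .n) .n))) .n))) (.c k190 (.q k125 [(.s k69 k138 10
  (.s k137 k205 9 (.s k71 k139 9 (.d k70 k68 k204 0 10)))), (.s k138 k69 10 (.s k74 k202 7 (.s k133
  k192 10 (.d k143 k128 k79 2 7)))), (.s k71 k139 9 (.s k135 k199 7 (.s k75 k195 9 (.d k79 k67 k143
  1 7))))] (.c k28 (.q k44 [(.s k69 k138 10 (.s k137 k205 9 (.s k71 k139 9 (.d k70 k68 k204 0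
  10)))), (.s k138 k69 10 (.s k74 k202 7 (.s k133 k192 10 (.d k143 k128 k79 2 7)))), (.s k71 k139 9
  (.s k135 k199 7 (.s k75 k195 9 (.d k79 k67 k143 1 7))))] (.c k142 (.q k158 [(.s k69 k138 10 (.s
  k137 k205 9 (.s k71 k139 9 (.d k70 k68 k204 0 10)))), (.s k138 k69 10 (.s k74 k202 7 (.s k133 k192
  10 (.d k143 k128 k79 2 7)))), (.s k71 k139 9 (.s k135 k199 7 (.s k75 k195 9 (.d k79 k67 k143 1
  7))))] .n) (.c k158 (.q k142 [(.s k69 k138 10 (.s k137 k205 9 (.s k71 k139 9 (.d k70 k68 k204 0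
  10)))), (.s k138 k69 10 (.s k74 k202 7 (.s k133 k192 10 (.d k143 k128 k79 2 7)))), (.s k71 k139 9
  (.s k135 k199 7 (.s k75 k195 9 (.d k79 k67 k143 1 7))))] .n) .n))) (.c k44 (.q k28 [(.s k69 k138
  10 (.s k137 k205 9 (.s k71 k139 9 (.d k70 k68 k204 0 10)))), (.s k138 k69 10 (.s k74 k202 7 (.s
  k133 k192 10 (.d k143 k128 k79 2 7)))), (.s k71 k139 9 (.s k135 k199 7 (.s k75 k195 9 (.d k79 k67
  k143 1 7))))] (.c k109 (.q k239 [(.s k69 k138 10 (.s k71 k139 9 (.s k70 k68 0 (.d k137 k205 k204 9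
  10)))), (.s k138 k69 10 (.s k74 k202 7 (.s k133 k192 10 (.d k143 k128 k79 2 7)))), (.s k71 k139 9
  (.s k135 k199 7 (.s k75 k195 9 (.d k79 k67 k143 1 7))))] (.c k142 (.l (.s k158 k223 8 (.s k69 k138
  10 (.s k137 k205 9 (.s k70 k204 10 (.d k71 k68 k139 0 9)))))) (.c k158 (.q k142 [(.s k69 k138 10
  (.s k71 k139 9 (.s k70 k68 0 (.d k137 k205 k204 9 10)))), (.s k138 k69 10 (.s k74 k202 7 (.s k133
  k192 10 (.d k143 k128 k79 2 7)))), (.s k71 k139 9 (.s k135 k199 7 (.s k75 k195 9 (.d k79 k67 k143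
  1 7))))] .n) .n))) (.c k142 (.l (.s k158 k223 8 (.s k69 k138 10 (.s k137 k205 9 (.s k70 k204 10
  (.d k71 k68 k139 0 9)))))) (.c k158 (.q k142 [(.s k69 k138 10 (.s k137 k205 9 (.s k71 k139 9 (.d
  k70 k68 k204 0 10)))), (.s k138 k69 10 (.s k74 k202 7 (.s k133 k192 10 (.d k143 k128 k79 2 7)))),
  (.s k71 k139 9 (.s k135 k199 7 (.s k75 k195 9 (.d k79 k67 k143 1 7))))] (.c k109 (.q k239 [(.s k69
  k138 10 (.s k71 k139 9 (.s k70 k68 0 (.d k137 k205 k204 9 10)))), (.s k138 k69 10 (.s k74 k202 7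
  (.s k133 k192 10 (.d k143 k128 k79 2 7)))), (.s k71 k139 9 (.s k135 k199 7 (.s k75 k195 9 (.d k79
  k67 k143 1 7))))] .n) (.c k239 (.l (.s k109 k77 3 (.s k69 k138 10 (.s k137 k205 9 (.s k70 k204 10
  (.d k71 k68 k139 0 9)))))) .n))) (.c k239 (.l (.s k109 k77 3 (.s k69 k138 10 (.s k137 k205 9 (.s
  k70 k204 10 (.d k71 k68 k139 0 9)))))) .n))))) (.c k142 (.q k158 [(.s k69 k138 10 (.s k137 k205 9
  (.s k71 k139 9 (.d k70 k68 k204 0 10)))), (.s k138 k69 10 (.s k74 k202 7 (.s k133 k192 10 (.d k143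
  k128 k79 2 7)))), (.s k71 k139 9 (.s k135 k199 7 (.s k75 k195 9 (.d k79 k67 k143 1 7))))] (.c k28
  (.q k44 [(.s k69 k138 10 (.s k137 k205 9 (.s k71 k139 9 (.d k70 k68 k204 0 10)))), (.s k138 k69 10
  (.s k74 k202 7 (.s k133 k192 10 (.d k143 k128 k79 2 7)))), (.s k71 k139 9 (.s k135 k199 7 (.s k75
  k195 9 (.d k79 k67 k143 1 7))))] .n) (.c k44 (.l (.s k28 k223 8 (.s k69 k138 10 (.s k137 k205 9
  (.s k70 k204 10 (.d k71 k68 k139 0 9)))))) .n))) (.c k158 (.q k142 [(.s k69 k138 10 (.s k137 k205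
  9 (.s k71 k139 9 (.d k70 k68 k204 0 10)))), (.s k138 k69 10 (.s k74 k202 7 (.s k133 k192 10 (.d
  k143 k128 k79 2 7)))), (.s k71 k139 9 (.s k135 k199 7 (.s k75 k195 9 (.d k79 k67 k143 1 7))))] (.c
  k28 (.q k44 [(.s k69 k138 10 (.s k137 k205 9 (.s k71 k139 9 (.d k70 k68 k204 0 10)))), (.s k138
  k69 10 (.s k74 k202 7 (.s k133 k192 10 (.d k143 k128 k79 2 7)))), (.s k71 k139 9 (.s k135 k199 7
  (.s k75 k195 9 (.d k79 k67 k143 1 7))))] .n) (.c k44 (.q k28 [(.s k69 k138 10 (.s k137 k205 9 (.s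
  k71 k139 9 (.d k70 k68 k204 0 10)))), (.s k138 k69 10 (.s k74 k202 7 (.s k133 k192 10 (.d k143
  k128 k79 2 7)))), (.s k71 k139 9 (.s k135 k199 7 (.s k75 k195 9 (.d k79 k67 k143 1 7))))] (.c k109
  (.q k239 [(.s k69 k138 10 (.s k71 k139 9 (.s k70 k68 0 (.d k137 k205 k204 9 10)))), (.s k138 k69
  10 (.s k74 k202 7 (.s k133 k192 10 (.d k143 k128 k79 2 7)))), (.s k71 k139 9 (.s k135 k199 7 (.s
  k75 k195 9 (.d k79 k67 k143 1 7))))] .n) (.c k239 (.l (.s k109 k77 3 (.s k69 k138 10 (.s k137 k205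
  9 (.s k70 k204 10 (.d k71 k68 k139 0 9)))))) .n))) .n))) .n))))) .n))))) (.c k190 (.q k125 [(.s
  k69 k138 10 (.s k137 k205 9 (.s k71 k139 9 (.d k70 k68 k204 0 10)))), (.s k138 k69 10 (.s k74 k202
  7 (.s k133 k192 10 (.d k143 k128 k79 2 7)))), (.s k71 k139 9 (.s k135 k199 7 (.s k75 k195 9 (.d
  k79 k67 k143 1 7))))] (.c k28 (.q k44 [(.s k69 k138 10 (.s k137 k205 9 (.s k71 k139 9 (.d k70 k68
  k204 0 10)))), (.s k138 k69 10 (.s k74 k202 7 (.s k133 k192 10 (.d k143 k128 k79 2 7)))), (.s k71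
  k139 9 (.s k135 k199 7 (.s k75 k195 9 (.d k79 k67 k143 1 7))))] (.c k93 (.q k174 [(.s k69 k138 10
  (.s k137 k205 9 (.s k71 k139 9 (.d k70 k68 k204 0 10)))), (.s k138 k69 10 (.s k74 k202 7 (.s k133
  k192 10 (.d k143 k128 k79 2 7)))), (.s k71 k139 9 (.s k135 k199 7 (.s k75 k195 9 (.d k79 k67 k143
  1 7))))] (.c k158 (.q k223 [(.s k69 k138 10 (.s k137 k205 9 (.s k71 k139 9 (.d k70 k68 k204 0
  10)))), (.s k138 k69 10 (.s k74 k202 7 (.s k133 k192 10 (.d k143 k128 k79 2 7)))), (.s k71 k139 9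
  (.s k135 k199 7 (.s k75 k195 9 (.d k79 k67 k143 1 7))))] .n) (.c k223 (.q k158 [(.s k69 k138 10
  (.s k137 k205 9 (.s k71 k139 9 (.d k70 k68 k204 0 10)))), (.s k138 k69 10 (.s k74 k202 7 (.s k133
  k192 10 (.d k143 k128 k79 2 7)))), (.s k71 k139 9 (.s k135 k199 7 (.s k75 k195 9 (.d k79 k67 k143
  1 7))))] .n) .n))) (.c k174 (.q k93 [(.s k69 k138 10 (.s k137 k205 9 (.s k71 k139 9 (.d k70 k68
  k204 0 10)))), (.s k138 k69 10 (.s k74 k202 7 (.s k133 k192 10 (.d k143 k128 k79 2 7)))), (.s k71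
  k139 9 (.s k135 k199 7 (.s k75 k195 9 (.d k79 k67 k143 1 7))))] (.c k142 (.q k158 [(.s k69 k138 10
  (.s k137 k205 9 (.s k71 k139 9 (.d k70 k68 k204 0 10)))), (.s k138 k69 10 (.s k74 k202 7 (.s k133
  k192 10 (.d k143 k128 k79 2 7)))), (.s k71 k139 9 (.s k135 k199 7 (.s k75 k195 9 (.d k79 k67 k143
  1 7))))] .n) (.c k158 (.q k142 [(.s k69 k138 10 (.s k137 k205 9 (.s k71 k139 9 (.d k70 k68 k204 0
  10)))), (.s k138 k69 10 (.s k74 k202 7 (.s k133 k192 10 (.d k143 k128 k79 2 7)))), (.s k71 k139 9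
  (.s k135 k199 7 (.s k75 k195 9 (.d k79 k67 k143 1 7))))] .n) .n))) .n))) (.c k44 (.q k28 [(.s k69
  k138 10 (.s k137 k205 9 (.s k71 k139 9 (.d k70 k68 k204 0 10)))), (.s k138 k69 10 (.s k74 k202 7
  (.s k133 k192 10 (.d k143 k128 k79 2 7)))), (.s k71 k139 9 (.s k135 k199 7 (.s k75 k195 9 (.d k79
  k67 k143 1 7))))] (.c k93 (.q k174 [(.s k69 k138 10 (.s k137 k205 9 (.s k71 k139 9 (.d k70 k68
  k204 0 10)))), (.s k138 k69 10 (.s k74 k202 7 (.s k133 k192 10 (.d k143 k128 k79 2 7)))), (.s k71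
  k139 9 (.s k135 k199 7 (.s k75 k195 9 (.d k79 k67 k143 1 7))))] .n) (.c k174 (.q k93 [(.s k69 k138
  10 (.s k137 k205 9 (.s k71 k139 9 (.d k70 k68 k204 0 10)))), (.s k138 k69 10 (.s k74 k202 7 (.s
  k133 k192 10 (.d k143 k128 k79 2 7)))), (.s k71 k139 9 (.s k135 k199 7 (.s k75 k195 9 (.d k79 k67
  k143 1 7))))] (.c k109 (.q k239 [(.s k69 k138 10 (.s k71 k139 9 (.s k70 k68 0 (.d k137 k205 k204 9
  10)))), (.s k138 k69 10 (.s k74 k202 7 (.s k133 k192 10 (.d k143 k128 k79 2 7)))), (.s k71 k139 9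
  (.s k135 k199 7 (.s k75 k195 9 (.d k79 k67 k143 1 7))))] (.c k142 (.l (.s k158 k223 8 (.s k69 k138
  10 (.s k137 k205 9 (.s k70 k204 10 (.d k71 k68 k139 0 9)))))) (.c k158 (.q k142 [(.s k69 k138 10
  (.s k71 k139 9 (.s k70 k68 0 (.d k137 k205 k204 9 10)))), (.s k138 k69 10 (.s k74 k202 7 (.s k133
  k192 10 (.d k143 k128 k79 2 7)))), (.s k71 k139 9 (.s k135 k199 7 (.s k75 k195 9 (.d k79 k67 k143
  1 7))))] .n) .n))) (.c k142 (.l (.s k158 k223 8 (.s k69 k138 10 (.s k137 k205 9 (.s k70 k204 10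
  (.d k71 k68 k139 0 9)))))) (.c k158 (.q k142 [(.s k69 k138 10 (.s k137 k205 9 (.s k71 k139 9 (.d
  k70 k68 k204 0 10)))), (.s k138 k69 10 (.s k74 k202 7 (.s k133 k192 10 (.d k143 k128 k79 2 7)))),
  (.s k71 k139 9 (.s k135 k199 7 (.s k75 k195 9 (.d k79 k67 k143 1 7))))] (.c k109 (.q k239 [(.s k69
  k138 10 (.s k71 k139 9 (.s k70 k68 0 (.d k137 k205 k204 9 10)))), (.s k138 k69 10 (.s k74 k202 7
  (.s k133 k192 10 (.d k143 k128 k79 2 7)))), (.s k71 k139 9 (.s k135 k199 7 (.s k75 k195 9 (.d k79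
  k67 k143 1 7))))] .n) (.c k239 (.l (.s k109 k77 3 (.s k69 k138 10 (.s k137 k205 9 (.s k70 k204 10
  (.d k71 k68 k139 0 9)))))) .n))) (.c k239 (.l (.s k109 k77 3 (.s k69 k138 10 (.s k137 k205 9 (.s
  k70 k204 10 (.d k71 k68 k139 0 9)))))) .n))))) .n))) (.c k93 (.q k174 [(.s k69 k138 10 (.s k137
  k205 9 (.s k71 k139 9 (.d k70 k68 k204 0 10)))), (.s k138 k69 10 (.s k74 k202 7 (.s k133 k192 10
  (.d k143 k128 k79 2 7)))), (.s k71 k139 9 (.s k135 k199 7 (.s k75 k195 9 (.d k79 k67 k143 1 7))))]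
  (.c k28 (.q k44 [(.s k69 k138 10 (.s k137 k205 9 (.s k71 k139 9 (.d k70 k68 k204 0 10)))), (.s
  k138 k69 10 (.s k74 k202 7 (.s k133 k192 10 (.d k143 k128 k79 2 7)))), (.s k71 k139 9 (.s k135
  k199 7 (.s k75 k195 9 (.d k79 k67 k143 1 7))))] (.c k158 (.q k223 [(.s k69 k138 10 (.s k137 k205 9
  (.s k71 k139 9 (.d k70 k68 k204 0 10)))), (.s k138 k69 10 (.s k74 k202 7 (.s k133 k192 10 (.d k143
  k128 k79 2 7)))), (.s k71 k139 9 (.s k135 k199 7 (.s k75 k195 9 (.d k79 k67 k143 1 7))))] .n) (.c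
  k223 (.q k158 [(.s k69 k138 10 (.s k137 k205 9 (.s k71 k139 9 (.d k70 k68 k204 0 10)))), (.s k138
  k69 10 (.s k74 k202 7 (.s k133 k192 10 (.d k143 k128 k79 2 7)))), (.s k71 k139 9 (.s k135 k199 7
  (.s k75 k195 9 (.d k79 k67 k143 1 7))))] .n) .n))) (.c k44 (.q k28 [(.s k69 k138 10 (.s k137 k205
  9 (.s k71 k139 9 (.d k70 k68 k204 0 10)))), (.s k138 k69 10 (.s k74 k202 7 (.s k133 k192 10 (.d
  k143 k128 k79 2 7)))), (.s k71 k139 9 (.s k135 k199 7 (.s k75 k195 9 (.d k79 k67 k143 1 7))))] .n)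
  .n))) (.c k174 (.q k93 [(.s k69 k138 10 (.s k137 k205 9 (.s k71 k139 9 (.d k70 k68 k204 0 10)))),
  (.s k138 k69 10 (.s k74 k202 7 (.s k133 k192 10 (.d k143 k128 k79 2 7)))), (.s k71 k139 9 (.s k135
  k199 7 (.s k75 k195 9 (.d k79 k67 k143 1 7))))] (.c k28 (.q k44 [(.s k69 k138 10 (.s k137 k205 9
  (.s k71 k139 9 (.d k70 k68 k204 0 10)))), (.s k138 k69 10 (.s k74 k202 7 (.s k133 k192 10 (.d k143
  k128 k79 2 7)))), (.s k71 k139 9 (.s k135 k199 7 (.s k75 k195 9 (.d k79 k67 k143 1 7))))] (.c k142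
  (.q k158 [(.s k69 k138 10 (.s k137 k205 9 (.s k71 k139 9 (.d k70 k68 k204 0 10)))), (.s k138 k69
  10 (.s k74 k202 7 (.s k133 k192 10 (.d k143 k128 k79 2 7)))), (.s k71 k139 9 (.s k135 k199 7 (.s
  k75 k195 9 (.d k79 k67 k143 1 7))))] .n) (.c k158 (.q k142 [(.s k69 k138 10 (.s k137 k205 9 (.s
  k71 k139 9 (.d k70 k68 k204 0 10)))), (.s k138 k69 10 (.s k74 k202 7 (.s k133 k192 10 (.d k143
  k128 k79 2 7)))), (.s k71 k139 9 (.s k135 k199 7 (.s k75 k195 9 (.d k79 k67 k143 1 7))))] .n)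
  .n))) (.c k44 (.q k28 [(.s k69 k138 10 (.s k137 k205 9 (.s k71 k139 9 (.d k70 k68 k204 0 10)))),
  (.s k138 k69 10 (.s k74 k202 7 (.s k133 k192 10 (.d k143 k128 k79 2 7)))), (.s k71 k139 9 (.s k135
  k199 7 (.s k75 k195 9 (.d k79 k67 k143 1 7))))] (.c k109 (.q k239 [(.s k69 k138 10 (.s k71 k139 9
  (.s k70 k68 0 (.d k137 k205 k204 9 10)))), (.s k138 k69 10 (.s k74 k202 7 (.s k133 k192 10 (.d
  k143 k128 k79 2 7)))), (.s k71 k139 9 (.s k135 k199 7 (.s k75 k195 9 (.d k79 k67 k143 1 7))))] (.c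
  k142 (.l (.s k158 k223 8 (.s k69 k138 10 (.s k137 k205 9 (.s k70 k204 10 (.d k71 k68 k139 0
  9)))))) (.c k158 (.q k142 [(.s k69 k138 10 (.s k71 k139 9 (.s k70 k68 0 (.d k137 k205 k204 9
  10)))), (.s k138 k69 10 (.s k74 k202 7 (.s k133 k192 10 (.d k143 k128 k79 2 7)))), (.s k71 k139 9
  (.s k135 k199 7 (.s k75 k195 9 (.d k79 k67 k143 1 7))))] .n) .n))) (.c k142 (.l (.s k158 k223 8
  (.s k69 k138 10 (.s k137 k205 9 (.s k70 k204 10 (.d k71 k68 k139 0 9)))))) (.c k158 (.q k142 [(.s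
  k69 k138 10 (.s k137 k205 9 (.s k71 k139 9 (.d k70 k68 k204 0 10)))), (.s k138 k69 10 (.s k74 k202
  7 (.s k133 k192 10 (.d k143 k128 k79 2 7)))), (.s k71 k139 9 (.s k135 k199 7 (.s k75 k195 9 (.d
  k79 k67 k143 1 7))))] (.c k109 (.q k239 [(.s k69 k138 10 (.s k71 k139 9 (.s k70 k68 0 (.d k137
  k205 k204 9 10)))), (.s k138 k69 10 (.s k74 k202 7 (.s k133 k192 10 (.d k143 k128 k79 2 7)))), (.s
  k71 k139 9 (.s k135 k199 7 (.s k75 k195 9 (.d k79 k67 k143 1 7))))] .n) (.c k239 (.l (.s k109 k77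
  3 (.s k69 k138 10 (.s k137 k205 9 (.s k70 k204 10 (.d k71 k68 k139 0 9)))))) .n))) (.c k239 (.l
  (.s k109 k77 3 (.s k69 k138 10 (.s k137 k205 9 (.s k70 k204 10 (.d k71 k68 k139 0 9)))))) .n)))))
  (.c k142 (.q k158 [(.s k69 k138 10 (.s k137 k205 9 (.s k71 k139 9 (.d k70 k68 k204 0 10)))), (.s
  k138 k69 10 (.s k74 k202 7 (.s k133 k192 10 (.d k143 k128 k79 2 7)))), (.s k71 k139 9 (.s k135
  k199 7 (.s k75 k195 9 (.d k79 k67 k143 1 7))))] (.c k28 (.q k44 [(.s k69 k138 10 (.s k137 k205 9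
  (.s k71 k139 9 (.d k70 k68 k204 0 10)))), (.s k138 k69 10 (.s k74 k202 7 (.s k133 k192 10 (.d k143
  k128 k79 2 7)))), (.s k71 k139 9 (.s k135 k199 7 (.s k75 k195 9 (.d k79 k67 k143 1 7))))] .n) (.c
  k44 (.l (.s k28 k223 8 (.s k69 k138 10 (.s k137 k205 9 (.s k70 k204 10 (.d k71 k68 k139 0 9))))))
  .n))) (.c k158 (.q k142 [(.s k69 k138 10 (.s k137 k205 9 (.s k71 k139 9 (.d k70 k68 k204 0 10)))),
  (.s k138 k69 10 (.s k74 k202 7 (.s k133 k192 10 (.d k143 k128 k79 2 7)))), (.s k71 k139 9 (.s k135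
  k199 7 (.s k75 k195 9 (.d k79 k67 k143 1 7))))] (.c k28 (.q k44 [(.s k69 k138 10 (.s k137 k205 9
  (.s k71 k139 9 (.d k70 k68 k204 0 10)))), (.s k138 k69 10 (.s k74 k202 7 (.s k133 k192 10 (.d k143
  k128 k79 2 7)))), (.s k71 k139 9 (.s k135 k199 7 (.s k75 k195 9 (.d k79 k67 k143 1 7))))] .n) (.c
  k44 (.q k28 [(.s k69 k138 10 (.s k137 k205 9 (.s k71 k139 9 (.d k70 k68 k204 0 10)))), (.s k138
  k69 10 (.s k74 k202 7 (.s k133 k192 10 (.d k143 k128 k79 2 7)))), (.s k71 k139 9 (.s k135 k199 7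
  (.s k75 k195 9 (.d k79 k67 k143 1 7))))] (.c k109 (.q k239 [(.s k69 k138 10 (.s k71 k139 9 (.s k70
  k68 0 (.d k137 k205 k204 9 10)))), (.s k138 k69 10 (.s k74 k202 7 (.s k133 k192 10 (.d k143 k128
  k79 2 7)))), (.s k71 k139 9 (.s k135 k199 7 (.s k75 k195 9 (.d k79 k67 k143 1 7))))] .n) (.c k239
  (.l (.s k109 k77 3 (.s k69 k138 10 (.s k137 k205 9 (.s k70 k204 10 (.d k71 k68 k139 0 9))))))
  .n))) .n))) .n))))) .n))))) .n)))))))))) (.c k13 (.l (.s k2 k1 0 (.s k11 k7 1 (.s k10 k5 2 (.s k9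
  k8 0 (.d k6 k14 k12 1 2)))))) (.c k14 (.l (.s k1 k2 0 (.s k7 k11 1 (.s k5 k10 2 (.s k6 k4 0 (.d k9
  k13 k12 1 2)))))) (.c k125 (.q k190 [(.s k1 k2 0 (.s k5 k10 2 (.s k9 k13 1 (.s k7 k11 1 (.d k6 k4
  k12 0 2)))))] (.c k1 (.q k69 [(.s k5 k10 2 (.s k138 k207 10 (.s k133 k197 7 (.s k192 k74 10 (.d
  k128 k143 k64 2 7))))), (.s k207 k138 10 (.s k7 k11 1 (.s k71 k139 9 (.s k135 k199 7 (.s k75 k195
  9 (.d k79 k67 k143 1 7)))))), (.s k5 k10 2 (.s k7 k11 1 (.s k133 k197 7 (.s k70 k196 8 (.s k204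
  k137 10 (.d k68 k71 k136 0 9))))))] .n) (.c k2 (.q k69 [(.s k10 k5 2 (.s k138 k207 10 (.s k74 k202
  7 (.s k192 k133 10 (.d k64 k79 k128 2 7))))), (.s k207 k138 10 (.s k7 k11 1 (.s k71 k139 9 (.s
  k135 k199 7 (.s k75 k195 9 (.d k79 k67 k143 1 7)))))), (.s k5 k10 2 (.s k7 k11 1 (.s k133 k197 7
  (.s k70 k196 8 (.s k68 k71 0 (.d k204 k136 k137 9 10))))))] .n) (.c k4 (.l (.s k2 k1 0 (.s k10 k5
  2 (.s k6 k14 1 (.s k9 k12 2 (.d k11 k7 k8 1 0)))))) (.c k5 (.q k69 [(.s k1 k2 0 (.s k137 k205 9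
  (.s k11 k7 1 (.s k74 k200 8 (.s k64 k79 2 (.d k192 k128 k133 7 10)))))), (.s k1 k2 0 (.s k138 k207
  10 (.s k137 k205 9 (.s k204 k70 10 (.d k136 k139 k68 0 9))))), (.s k207 k138 10 (.s k11 k7 1 (.s
  k139 k71 9 (.s k75 k203 7 (.s k135 k195 9 (.d k143 k131 k79 1 7))))))] .n) (.c k6 (.q k69 [(.s k2
  k1 0 (.s k138 k207 10 (.s k70 k206 9 (.s k204 k137 10 (.d k68 k71 k136 0 9))))), (.s k1 k2 0 (.s
  k137 k205 9 (.s k11 k7 1 (.s k74 k200 8 (.s k133 k192 10 (.d k5 k10 k197 2 7)))))), (.s k10 k5 2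
  (.s k138 k207 10 (.s k74 k202 7 (.s k192 k133 10 (.d k64 k79 k128 2 7)))))] .n) (.c k7 (.q k69
  [(.s k5 k10 2 (.s k138 k207 10 (.s k133 k197 7 (.s k192 k74 10 (.d k128 k143 k64 2 7))))), (.s k1
  k2 0 (.s k207 k138 10 (.s k137 k205 9 (.s k70 k204 10 (.d k71 k68 k139 0 9))))), (.s k1 k2 0 (.s
  k5 k10 2 (.s k137 k205 9 (.s k133 k197 7 (.s k129 k141 1 (.d k192 k66 k74 8 10))))))] .n) (.c k9
  (.q k69 [(.s k1 k2 0 (.s k138 k207 10 (.s k137 k205 9 (.s k204 k70 10 (.d k136 k139 k68 0 9))))),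
  (.s k1 k2 0 (.s k5 k10 2 (.s k137 k205 9 (.s k11 k7 1 (.s k133 k197 7 (.d k74 k200 k192 8
  10)))))), (.s k5 k10 2 (.s k138 k207 10 (.s k133 k197 7 (.s k192 k74 10 (.d k128 k143 k64 2
  7)))))] .n) (.c k10 (.q k69 [(.s k1 k2 0 (.s k137 k205 9 (.s k11 k7 1 (.s k74 k200 8 (.s k64 k79 2
  (.d k192 k128 k133 7 10)))))), (.s k2 k1 0 (.s k138 k207 10 (.s k70 k206 9 (.s k204 k137 10 (.d
  k68 k71 k136 0 9))))), (.s k207 k138 10 (.s k11 k7 1 (.s k139 k71 9 (.s k75 k203 7 (.s k135 k195 9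
  (.d k143 k131 k79 1 7))))))] .n) (.c k11 (.q k69 [(.s k1 k2 0 (.s k138 k207 10 (.s k137 k205 9 (.s
  k204 k70 10 (.d k136 k139 k68 0 9))))), (.s k1 k2 0 (.s k5 k10 2 (.s k137 k205 9 (.s k133 k197 7
  (.s k129 k141 1 (.d k192 k66 k74 8 10)))))), (.s k5 k10 2 (.s k138 k207 10 (.s k133 k197 7 (.s
  k128 k143 2 (.d k192 k64 k74 7 10)))))] .n) (.c k12 (.f k1 k2 0 (.f k7 k11 1 (.q k207 [(.s k69
  k138 10 (.s k137 k205 9 (.s k71 k139 9 (.d k70 k68 k204 0 10)))), (.s k71 k139 9 (.s k135 k199 7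
  (.s k75 k195 9 (.d k79 k67 k143 1 7)))), (.s k5 k10 2 (.s k69 k138 10 (.s k137 k205 9 (.s k70 k204
  10 (.d k133 k197 k196 7 8)))))] (.c k28 (.q k44 [(.s k69 k138 10 (.s k137 k205 9 (.s k71 k139 9
  (.d k70 k68 k204 0 10)))), (.s k71 k139 9 (.s k135 k199 7 (.s k75 k195 9 (.d k79 k67 k143 1 7)))),
  (.s k5 k10 2 (.s k69 k138 10 (.s k137 k205 9 (.s k70 k204 10 (.d k133 k197 k196 7 8)))))] (.c k93
  (.q k174 [(.s k69 k138 10 (.s k137 k205 9 (.s k71 k139 9 (.d k70 k68 k204 0 10)))), (.s k71 k139 9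
  (.s k135 k199 7 (.s k75 k195 9 (.d k79 k67 k143 1 7)))), (.s k5 k10 2 (.s k69 k138 10 (.s k137
  k205 9 (.s k70 k204 10 (.d k133 k197 k196 7 8)))))] (.c k77 (.l (.s k109 k239 8 (.s k69 k138 10
  (.s k137 k205 9 (.s k70 k204 10 (.d k71 k68 k139 0 9)))))) (.c k109 (.q k77 [(.s k71 k139 9 (.s
  k69 k138 10 (.s k70 k68 0 (.d k137 k205 k204 9 10)))), (.s k71 k139 9 (.s k135 k199 7 (.s k75 k195
  9 (.d k79 k67 k143 1 7)))), (.s k5 k10 2 (.s k69 k138 10 (.s k9 k13 1 (.s k137 k205 9 (.d k73 k65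
  k201 1 7)))))] (.c k158 (.q k223 [(.s k71 k139 9 (.s k69 k138 10 (.s k70 k68 0 (.d k137 k205 k204
  9 10)))), (.s k71 k139 9 (.s k135 k199 7 (.s k75 k195 9 (.d k79 k67 k143 1 7)))), (.s k5 k10 2 (.s
  k69 k138 10 (.s k9 k13 1 (.s k137 k205 9 (.d k73 k65 k201 1 7)))))] .n) (.c k223 (.l (.s k158 k142
  3 (.s k5 k10 2 (.s k69 k138 10 (.s k205 k137 9 (.d k13 k9 k141 1 7)))))) .n))) (.c k158 (.q k223
  [(.s k69 k138 10 (.s k137 k205 9 (.s k71 k139 9 (.d k70 k68 k204 0 10)))), (.s k71 k139 9 (.s k135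
  k199 7 (.s k75 k195 9 (.d k79 k67 k143 1 7)))), (.s k5 k10 2 (.s k69 k138 10 (.s k137 k205 9 (.s
  k70 k204 10 (.d k133 k197 k196 7 8)))))] (.c k77 (.l (.s k109 k239 8 (.s k69 k138 10 (.s k137 k205
  9 (.s k70 k204 10 (.d k71 k68 k139 0 9)))))) (.c k109 (.q k77 [(.s k71 k139 9 (.s k69 k138 10 (.s
  k70 k68 0 (.d k137 k205 k204 9 10)))), (.s k71 k139 9 (.s k135 k199 7 (.s k75 k195 9 (.d k79 k67
  k143 1 7)))), (.s k5 k10 2 (.s k69 k138 10 (.s k9 k13 1 (.s k137 k205 9 (.d k73 k65 k201 1 7)))))]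
  .n) .n))) (.c k223 (.l (.s k158 k142 3 (.s k69 k138 10 (.s k137 k205 9 (.s k70 k204 10 (.d k71 k68
  k139 0 9)))))) .n))))) (.c k174 (.q k93 [(.s k69 k138 10 (.s k137 k205 9 (.s k71 k139 9 (.d k70
  k68 k204 0 10)))), (.s k71 k139 9 (.s k135 k199 7 (.s k75 k195 9 (.d k79 k67 k143 1 7)))), (.s k5
  k10 2 (.s k69 k138 10 (.s k137 k205 9 (.s k70 k204 10 (.d k133 k197 k196 7 8)))))] .n) .n))) (.c
  k44 (.q k28 [(.s k69 k138 10 (.s k137 k205 9 (.s k71 k139 9 (.d k70 k68 k204 0 10)))), (.s k71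
  k139 9 (.s k135 k199 7 (.s k75 k195 9 (.d k79 k67 k143 1 7)))), (.s k5 k10 2 (.s k69 k138 10 (.s
  k137 k205 9 (.s k70 k204 10 (.d k133 k197 k196 7 8)))))] (.c k93 (.q k174 [(.s k69 k138 10 (.s
  k137 k205 9 (.s k71 k139 9 (.d k70 k68 k204 0 10)))), (.s k71 k139 9 (.s k135 k199 7 (.s k75 k195
  9 (.d k79 k67 k143 1 7)))), (.s k5 k10 2 (.s k69 k138 10 (.s k137 k205 9 (.s k70 k204 10 (.d k133
  k197 k196 7 8)))))] (.c k77 (.q k109 [(.s k69 k138 10 (.s k71 k139 9 (.s k70 k68 0 (.d k137 k205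
  k204 9 10)))), (.s k71 k139 9 (.s k135 k199 7 (.s k75 k195 9 (.d k79 k67 k143 1 7)))), (.s k5 k10
  2 (.s k69 k138 10 (.s k137 k205 9 (.s k70 k204 10 (.d k133 k197 k196 7 8)))))] .n) (.c k109 (.q
  k77 [(.s k71 k139 9 (.s k69 k138 10 (.s k70 k68 0 (.d k137 k205 k204 9 10)))), (.s k71 k139 9 (.s
  k135 k199 7 (.s k75 k195 9 (.d k79 k67 k143 1 7)))), (.s k5 k10 2 (.s k69 k138 10 (.s k9 k13 1 (.s
  k137 k205 9 (.d k73 k65 k201 1 7)))))] .n) .n))) (.c k174 (.q k93 [(.s k69 k138 10 (.s k137 k205 9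
  (.s k71 k139 9 (.d k70 k68 k204 0 10)))), (.s k71 k139 9 (.s k135 k199 7 (.s k75 k195 9 (.d k79
  k67 k143 1 7)))), (.s k5 k10 2 (.s k69 k138 10 (.s k137 k205 9 (.s k70 k204 10 (.d k133 k197 k196
  7 8)))))] (.c k109 (.q k239 [(.s k69 k138 10 (.s k71 k139 9 (.s k70 k68 0 (.d k137 k205 k204 9
  10)))), (.s k71 k139 9 (.s k135 k199 7 (.s k75 k195 9 (.d k79 k67 k143 1 7)))), (.s k5 k10 2 (.s
  k69 k138 10 (.s k137 k205 9 (.s k70 k204 10 (.d k133 k197 k196 7 8)))))] .n) (.c k239 (.q k109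
  [(.s k69 k138 10 (.s k137 k205 9 (.s k71 k139 9 (.d k70 k68 k204 0 10)))), (.s k71 k139 9 (.s k135
  k199 7 (.s k75 k195 9 (.d k79 k67 k143 1 7)))), (.s k5 k10 2 (.s k69 k138 10 (.s k137 k205 9 (.s
  k70 k204 10 (.d k133 k197 k196 7 8)))))] .n) .n))) .n))) (.c k93 (.q k174 [(.s k69 k138 10 (.s
  k137 k205 9 (.s k71 k139 9 (.d k70 k68 k204 0 10)))), (.s k71 k139 9 (.s k135 k199 7 (.s k75 k195
  9 (.d k79 k67 k143 1 7)))), (.s k5 k10 2 (.s k69 k138 10 (.s k137 k205 9 (.s k70 k204 10 (.d k133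
  k197 k196 7 8)))))] (.c k28 (.q k44 [(.s k69 k138 10 (.s k137 k205 9 (.s k71 k139 9 (.d k70 k68
  k204 0 10)))), (.s k71 k139 9 (.s k135 k199 7 (.s k75 k195 9 (.d k79 k67 k143 1 7)))), (.s k5 k10
  2 (.s k69 k138 10 (.s k137 k205 9 (.s k70 k204 10 (.d k133 k197 k196 7 8)))))] (.c k77 (.l (.s
  k109 k239 8 (.s k69 k138 10 (.s k137 k205 9 (.s k70 k204 10 (.d k71 k68 k139 0 9)))))) (.c k109
  (.q k77 [(.s k71 k139 9 (.s k69 k138 10 (.s k70 k68 0 (.d k137 k205 k204 9 10)))), (.s k71 k139 9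
  (.s k135 k199 7 (.s k75 k195 9 (.d k79 k67 k143 1 7)))), (.s k5 k10 2 (.s k69 k138 10 (.s k9 k13 1
  (.s k137 k205 9 (.d k73 k65 k201 1 7)))))] (.c k158 (.q k223 [(.s k71 k139 9 (.s k69 k138 10 (.s
  k70 k68 0 (.d k137 k205 k204 9 10)))), (.s k71 k139 9 (.s k135 k199 7 (.s k75 k195 9 (.d k79 k67
  k143 1 7)))), (.s k5 k10 2 (.s k69 k138 10 (.s k9 k13 1 (.s k137 k205 9 (.d k73 k65 k201 1 7)))))]
  .n) (.c k223 (.l (.s k158 k142 3 (.s k5 k10 2 (.s k69 k138 10 (.s k205 k137 9 (.d k13 k9 k141 1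
  7)))))) .n))) (.c k158 (.q k223 [(.s k69 k138 10 (.s k137 k205 9 (.s k71 k139 9 (.d k70 k68 k204 0
  10)))), (.s k71 k139 9 (.s k135 k199 7 (.s k75 k195 9 (.d k79 k67 k143 1 7)))), (.s k5 k10 2 (.s
  k69 k138 10 (.s k137 k205 9 (.s k70 k204 10 (.d k133 k197 k196 7 8)))))] (.c k77 (.l (.s k109 k239
  8 (.s k69 k138 10 (.s k137 k205 9 (.s k70 k204 10 (.d k71 k68 k139 0 9)))))) (.c k109 (.q k77 [(.s
  k71 k139 9 (.s k69 k138 10 (.s k70 k68 0 (.d k137 k205 k204 9 10)))), (.s k71 k139 9 (.s k135 k199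
  7 (.s k75 k195 9 (.d k79 k67 k143 1 7)))), (.s k5 k10 2 (.s k69 k138 10 (.s k9 k13 1 (.s k137 k205
  9 (.d k73 k65 k201 1 7)))))] .n) .n))) (.c k223 (.l (.s k158 k142 3 (.s k69 k138 10 (.s k137 k205
  9 (.s k70 k204 10 (.d k71 k68 k139 0 9)))))) .n))))) (.c k44 (.q k28 [(.s k69 k138 10 (.s k137
  k205 9 (.s k71 k139 9 (.d k70 k68 k204 0 10)))), (.s k71 k139 9 (.s k135 k199 7 (.s k75 k195 9 (.d
  k79 k67 k143 1 7)))), (.s k5 k10 2 (.s k69 k138 10 (.s k137 k205 9 (.s k70 k204 10 (.d k133 k197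
  k196 7 8)))))] (.c k77 (.q k109 [(.s k69 k138 10 (.s k71 k139 9 (.s k70 k68 0 (.d k137 k205 k204 9
  10)))), (.s k71 k139 9 (.s k135 k199 7 (.s k75 k195 9 (.d k79 k67 k143 1 7)))), (.s k5 k10 2 (.s
  k69 k138 10 (.s k137 k205 9 (.s k70 k204 10 (.d k133 k197 k196 7 8)))))] .n) (.c k109 (.q k77 [(.s
  k71 k139 9 (.s k69 k138 10 (.s k70 k68 0 (.d k137 k205 k204 9 10)))), (.s k71 k139 9 (.s k135 k199
  7 (.s k75 k195 9 (.d k79 k67 k143 1 7)))), (.s k5 k10 2 (.s k69 k138 10 (.s k9 k13 1 (.s k137 k205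
  9 (.d k73 k65 k201 1 7)))))] .n) .n))) (.c k77 (.q k109 [(.s k69 k138 10 (.s k71 k139 9 (.s k70
  k68 0 (.d k137 k205 k204 9 10)))), (.s k71 k139 9 (.s k135 k199 7 (.s k75 k195 9 (.d k79 k67 k143
  1 7)))), (.s k5 k10 2 (.s k69 k138 10 (.s k137 k205 9 (.s k70 k204 10 (.d k133 k197 k196 7 8)))))]
  (.c k28 (.l (.s k44 k239 8 (.s k69 k138 10 (.s k137 k205 9 (.s k70 k204 10 (.d k71 k68 k139 0
  9)))))) (.c k44 (.q k28 [(.s k69 k138 10 (.s k71 k139 9 (.s k70 k68 0 (.d k137 k205 k204 9 10)))),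
  (.s k71 k139 9 (.s k135 k199 7 (.s k75 k195 9 (.d k79 k67 k143 1 7)))), (.s k5 k10 2 (.s k69 k138
  10 (.s k137 k205 9 (.s k70 k204 10 (.d k133 k197 k196 7 8)))))] .n) .n))) (.c k109 (.q k77 [(.s
  k71 k139 9 (.s k69 k138 10 (.s k70 k68 0 (.d k137 k205 k204 9 10)))), (.s k71 k139 9 (.s k135 k199
  7 (.s k75 k195 9 (.d k79 k67 k143 1 7)))), (.s k5 k10 2 (.s k69 k138 10 (.s k9 k13 1 (.s k137 k205
  9 (.d k73 k65 k201 1 7)))))] (.c k28 (.q k44 [(.s k71 k139 9 (.s k69 k138 10 (.s k70 k68 0 (.d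
  k137 k205 k204 9 10)))), (.s k71 k139 9 (.s k135 k199 7 (.s k75 k195 9 (.d k79 k67 k143 1 7)))),
  (.s k5 k10 2 (.s k69 k138 10 (.s k9 k13 1 (.s k137 k205 9 (.d k73 k65 k201 1 7)))))] (.c k158 (.q
  k223 [(.s k71 k139 9 (.s k69 k138 10 (.s k70 k68 0 (.d k137 k205 k204 9 10)))), (.s k71 k139 9 (.s
  k135 k199 7 (.s k75 k195 9 (.d k79 k67 k143 1 7)))), (.s k5 k10 2 (.s k69 k138 10 (.s k9 k13 1 (.s
  k137 k205 9 (.d k73 k65 k201 1 7)))))] .n) (.c k223 (.l (.s k158 k142 3 (.s k5 k10 2 (.s k69 k138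
  10 (.s k205 k137 9 (.d k13 k9 k141 1 7)))))) .n))) (.c k44 (.q k28 [(.s k71 k139 9 (.s k69 k138 10
  (.s k70 k68 0 (.d k137 k205 k204 9 10)))), (.s k71 k139 9 (.s k135 k199 7 (.s k75 k195 9 (.d k79
  k67 k143 1 7)))), (.s k5 k10 2 (.s k69 k138 10 (.s k9 k13 1 (.s k137 k205 9 (.d k73 k65 k201 1
  7)))))] .n) .n))) .n))))) (.c k174 (.q k93 [(.s k69 k138 10 (.s k137 k205 9 (.s k71 k139 9 (.d k70
  k68 k204 0 10)))), (.s k71 k139 9 (.s k135 k199 7 (.s k75 k195 9 (.d k79 k67 k143 1 7)))), (.s k5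
  k10 2 (.s k69 k138 10 (.s k137 k205 9 (.s k70 k204 10 (.d k133 k197 k196 7 8)))))] (.c k28 (.q k44
  [(.s k69 k138 10 (.s k137 k205 9 (.s k71 k139 9 (.d k70 k68 k204 0 10)))), (.s k71 k139 9 (.s k135
  k199 7 (.s k75 k195 9 (.d k79 k67 k143 1 7)))), (.s k5 k10 2 (.s k69 k138 10 (.s k137 k205 9 (.s
  k70 k204 10 (.d k133 k197 k196 7 8)))))] .n) (.c k44 (.q k28 [(.s k69 k138 10 (.s k137 k205 9 (.s
  k71 k139 9 (.d k70 k68 k204 0 10)))), (.s k71 k139 9 (.s k135 k199 7 (.s k75 k195 9 (.d k79 k67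
  k143 1 7)))), (.s k5 k10 2 (.s k69 k138 10 (.s k137 k205 9 (.s k70 k204 10 (.d k133 k197 k196 7
  8)))))] (.c k109 (.q k239 [(.s k69 k138 10 (.s k71 k139 9 (.s k70 k68 0 (.d k137 k205 k204 9
  10)))), (.s k71 k139 9 (.s k135 k199 7 (.s k75 k195 9 (.d k79 k67 k143 1 7)))), (.s k5 k10 2 (.s
  k69 k138 10 (.s k137 k205 9 (.s k70 k204 10 (.d k133 k197 k196 7 8)))))] .n) (.c k239 (.q k109
  [(.s k69 k138 10 (.s k137 k205 9 (.s k71 k139 9 (.d k70 k68 k204 0 10)))), (.s k71 k139 9 (.s k135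
  k199 7 (.s k75 k195 9 (.d k79 k67 k143 1 7)))), (.s k5 k10 2 (.s k69 k138 10 (.s k137 k205 9 (.s
  k70 k204 10 (.d k133 k197 k196 7 8)))))] .n) .n))) .n))) .n))))))) (.c k13 (.l (.s k2 k1 0 (.s k11
  k7 1 (.s k10 k5 2 (.s k9 k8 0 (.d k6 k14 k12 1 2)))))) (.c k14 (.l (.s k1 k2 0 (.s k7 k11 1 (.s k5
  k10 2 (.s k6 k4 0 (.d k9 k13 k12 1 2)))))) .n))))))))))))) (.c k190 (.q k125 [(.s k1 k2 0 (.s k5
  k10 2 (.s k9 k13 1 (.s k7 k11 1 (.d k6 k4 k12 0 2)))))] (.c k1 (.q k69 [(.s k5 k10 2 (.s k138 k207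
  10 (.s k133 k197 7 (.s k192 k74 10 (.d k128 k143 k64 2 7))))), (.s k207 k138 10 (.s k7 k11 1 (.s
  k71 k139 9 (.s k135 k199 7 (.s k75 k195 9 (.d k79 k67 k143 1 7)))))), (.s k5 k10 2 (.s k7 k11 1
  (.s k133 k197 7 (.s k70 k196 8 (.s k204 k137 10 (.d k68 k71 k136 0 9))))))] .n) (.c k2 (.q k69
  [(.s k10 k5 2 (.s k138 k207 10 (.s k74 k202 7 (.s k192 k133 10 (.d k64 k79 k128 2 7))))), (.s k207
  k138 10 (.s k7 k11 1 (.s k71 k139 9 (.s k135 k199 7 (.s k75 k195 9 (.d k79 k67 k143 1 7)))))), (.s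
  k5 k10 2 (.s k7 k11 1 (.s k133 k197 7 (.s k70 k196 8 (.s k68 k71 0 (.d k204 k136 k137 9 10))))))]
  .n) (.c k4 (.l (.s k2 k1 0 (.s k10 k5 2 (.s k6 k14 1 (.s k9 k12 2 (.d k11 k7 k8 1 0)))))) (.c k5
  (.q k69 [(.s k1 k2 0 (.s k137 k205 9 (.s k11 k7 1 (.s k74 k200 8 (.s k64 k79 2 (.d k192 k128 k133
  7 10)))))), (.s k1 k2 0 (.s k138 k207 10 (.s k137 k205 9 (.s k204 k70 10 (.d k136 k139 k68 0
  9))))), (.s k207 k138 10 (.s k11 k7 1 (.s k139 k71 9 (.s k75 k203 7 (.s k135 k195 9 (.d k143 k131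
  k79 1 7))))))] .n) (.c k6 (.q k69 [(.s k2 k1 0 (.s k138 k207 10 (.s k70 k206 9 (.s k204 k137 10
  (.d k68 k71 k136 0 9))))), (.s k1 k2 0 (.s k137 k205 9 (.s k11 k7 1 (.s k74 k200 8 (.s k133 k192
  10 (.d k5 k10 k197 2 7)))))), (.s k10 k5 2 (.s k138 k207 10 (.s k74 k202 7 (.s k192 k133 10 (.d
  k64 k79 k128 2 7)))))] .n) (.c k7 (.q k69 [(.s k5 k10 2 (.s k138 k207 10 (.s k133 k197 7 (.s k192
  k74 10 (.d k128 k143 k64 2 7))))), (.s k1 k2 0 (.s k207 k138 10 (.s k137 k205 9 (.s k70 k204 10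
  (.d k71 k68 k139 0 9))))), (.s k1 k2 0 (.s k5 k10 2 (.s k137 k205 9 (.s k133 k197 7 (.s k129 k141
  1 (.d k192 k66 k74 8 10))))))] .n) (.c k9 (.q k69 [(.s k1 k2 0 (.s k138 k207 10 (.s k137 k205 9
  (.s k204 k70 10 (.d k136 k139 k68 0 9))))), (.s k1 k2 0 (.s k5 k10 2 (.s k137 k205 9 (.s k11 k7 1
  (.s k133 k197 7 (.d k74 k200 k192 8 10)))))), (.s k5 k10 2 (.s k138 k207 10 (.s k133 k197 7 (.s
  k192 k74 10 (.d k128 k143 k64 2 7)))))] .n) (.c k10 (.q k69 [(.s k1 k2 0 (.s k137 k205 9 (.s k11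
  k7 1 (.s k74 k200 8 (.s k64 k79 2 (.d k192 k128 k133 7 10)))))), (.s k2 k1 0 (.s k138 k207 10 (.s
  k70 k206 9 (.s k204 k137 10 (.d k68 k71 k136 0 9))))), (.s k207 k138 10 (.s k11 k7 1 (.s k139 k71
  9 (.s k75 k203 7 (.s k135 k195 9 (.d k143 k131 k79 1 7))))))] .n) (.c k11 (.q k69 [(.s k1 k2 0 (.s
  k138 k207 10 (.s k137 k205 9 (.s k204 k70 10 (.d k136 k139 k68 0 9))))), (.s k1 k2 0 (.s k5 k10 2
  (.s k137 k205 9 (.s k133 k197 7 (.s k129 k141 1 (.d k192 k66 k74 8 10)))))), (.s k5 k10 2 (.s k138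
  k207 10 (.s k133 k197 7 (.s k128 k143 2 (.d k192 k64 k74 7 10)))))] .n) (.c k12 (.f k1 k2 0 (.f k7
  k11 1 (.q k207 [(.s k69 k138 10 (.s k137 k205 9 (.s k71 k139 9 (.d k70 k68 k204 0 10)))), (.s k71
  k139 9 (.s k135 k199 7 (.s k75 k195 9 (.d k79 k67 k143 1 7)))), (.s k5 k10 2 (.s k69 k138 10 (.s
  k137 k205 9 (.s k70 k204 10 (.d k133 k197 k196 7 8)))))] (.c k28 (.q k44 [(.s k69 k138 10 (.s k137
  k205 9 (.s k71 k139 9 (.d k70 k68 k204 0 10)))), (.s k71 k139 9 (.s k135 k199 7 (.s k75 k195 9 (.d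
  k79 k67 k143 1 7)))), (.s k5 k10 2 (.s k69 k138 10 (.s k137 k205 9 (.s k70 k204 10 (.d k133 k197
  k196 7 8)))))] (.c k93 (.q k174 [(.s k69 k138 10 (.s k137 k205 9 (.s k71 k139 9 (.d k70 k68 k204 0
  10)))), (.s k71 k139 9 (.s k135 k199 7 (.s k75 k195 9 (.d k79 k67 k143 1 7)))), (.s k5 k10 2 (.s
  k69 k138 10 (.s k137 k205 9 (.s k70 k204 10 (.d k133 k197 k196 7 8)))))] (.c k158 (.q k223 [(.s
  k69 k138 10 (.s k137 k205 9 (.s k71 k139 9 (.d k70 k68 k204 0 10)))), (.s k71 k139 9 (.s k135 k199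
  7 (.s k75 k195 9 (.d k79 k67 k143 1 7)))), (.s k5 k10 2 (.s k69 k138 10 (.s k137 k205 9 (.s k70
  k204 10 (.d k133 k197 k196 7 8)))))] .n) (.c k223 (.q k158 [(.s k69 k138 10 (.s k137 k205 9 (.s
  k71 k139 9 (.d k70 k68 k204 0 10)))), (.s k71 k139 9 (.s k135 k199 7 (.s k75 k195 9 (.d k79 k67
  k143 1 7)))), (.s k5 k10 2 (.s k69 k138 10 (.s k137 k205 9 (.s k70 k204 10 (.d k133 k197 k196 7
  8)))))] .n) .n))) (.c k174 (.q k93 [(.s k69 k138 10 (.s k137 k205 9 (.s k71 k139 9 (.d k70 k68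
  k204 0 10)))), (.s k71 k139 9 (.s k135 k199 7 (.s k75 k195 9 (.d k79 k67 k143 1 7)))), (.s k5 k10
  2 (.s k69 k138 10 (.s k137 k205 9 (.s k70 k204 10 (.d k133 k197 k196 7 8)))))] (.c k142 (.q k158
  [(.s k5 k10 2 (.s k143 k79 7 (.s k173 k188 4 (.d k13 k9 k253 1 11)))), (.s k69 k138 10 (.s k137
  k205 9 (.s k70 k204 10 (.d k71 k68 k139 0 9))))] .n) (.c k158 (.q k142 [(.s k69 k138 10 (.s k137
  k205 9 (.s k71 k139 9 (.d k70 k68 k204 0 10)))), (.s k71 k139 9 (.s k135 k199 7 (.s k75 k195 9 (.d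
  k79 k67 k143 1 7)))), (.s k5 k10 2 (.s k69 k138 10 (.s k137 k205 9 (.s k70 k204 10 (.d k133 k197
  k196 7 8)))))] .n) .n))) .n))) (.c k44 (.q k28 [(.s k69 k138 10 (.s k137 k205 9 (.s k71 k139 9 (.d
  k70 k68 k204 0 10)))), (.s k71 k139 9 (.s k135 k199 7 (.s k75 k195 9 (.d k79 k67 k143 1 7)))), (.s
  k5 k10 2 (.s k69 k138 10 (.s k137 k205 9 (.s k70 k204 10 (.d k133 k197 k196 7 8)))))] (.c k93 (.q
  k174 [(.s k69 k138 10 (.s k137 k205 9 (.s k71 k139 9 (.d k70 k68 k204 0 10)))), (.s k71 k139 9 (.s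
  k135 k199 7 (.s k75 k195 9 (.d k79 k67 k143 1 7)))), (.s k5 k10 2 (.s k69 k138 10 (.s k137 k205 9
  (.s k70 k204 10 (.d k133 k197 k196 7 8)))))] .n) (.c k174 (.q k93 [(.s k69 k138 10 (.s k137 k205 9
  (.s k71 k139 9 (.d k70 k68 k204 0 10)))), (.s k158 k223 8 (.s k5 k10 2 (.s k143 k79 7 (.s k173
  k188 4 (.d k13 k9 k253 1 11)))))] (.c k109 (.q k239 [(.s k69 k138 10 (.s k71 k139 9 (.s k70 k68 0
  (.d k137 k205 k204 9 10)))), (.s k158 k223 8 (.s k5 k10 2 (.s k143 k79 7 (.s k173 k188 4 (.d k13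
  k9 k253 1 11)))))] (.c k142 (.l (.s k158 k223 8 (.s k5 k10 2 (.s k143 k79 7 (.s k173 k188 4 (.d
  k13 k9 k253 1 11)))))) (.c k158 (.q k142 [(.s k69 k138 10 (.s k71 k139 9 (.s k70 k68 0 (.d k137
  k205 k204 9 10)))), (.s k71 k139 9 (.s k135 k199 7 (.s k75 k195 9 (.d k79 k67 k143 1 7)))), (.s k5
  k10 2 (.s k69 k138 10 (.s k137 k205 9 (.s k70 k204 10 (.d k133 k197 k196 7 8)))))] .n) .n))) (.c
  k142 (.l (.s k158 k223 8 (.s k5 k10 2 (.s k143 k79 7 (.s k173 k188 4 (.d k13 k9 k253 1 11))))))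
  (.c k158 (.q k142 [(.s k69 k138 10 (.s k137 k205 9 (.s k71 k139 9 (.d k70 k68 k204 0 10)))), (.s
  k71 k139 9 (.s k135 k199 7 (.s k75 k195 9 (.d k79 k67 k143 1 7)))), (.s k5 k10 2 (.s k69 k138 10
  (.s k137 k205 9 (.s k70 k204 10 (.d k133 k197 k196 7 8)))))] (.c k109 (.q k239 [(.s k69 k138 10
  (.s k71 k139 9 (.s k70 k68 0 (.d k137 k205 k204 9 10)))), (.s k71 k139 9 (.s k135 k199 7 (.s k75
  k195 9 (.d k79 k67 k143 1 7)))), (.s k5 k10 2 (.s k69 k138 10 (.s k137 k205 9 (.s k70 k204 10 (.d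
  k133 k197 k196 7 8)))))] .n) (.c k239 (.l (.s k109 k77 3 (.s k69 k138 10 (.s k137 k205 9 (.s k70
  k204 10 (.d k71 k68 k139 0 9)))))) .n))) (.c k239 (.l (.s k109 k77 3 (.s k69 k138 10 (.s k137 k205
  9 (.s k70 k204 10 (.d k71 k68 k139 0 9)))))) .n))))) .n))) (.c k93 (.q k174 [(.s k69 k138 10 (.s
  k137 k205 9 (.s k71 k139 9 (.d k70 k68 k204 0 10)))), (.s k71 k139 9 (.s k135 k199 7 (.s k75 k195
  9 (.d k79 k67 k143 1 7)))), (.s k5 k10 2 (.s k69 k138 10 (.s k137 k205 9 (.s k70 k204 10 (.d k133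
  k197 k196 7 8)))))] (.c k28 (.q k44 [(.s k69 k138 10 (.s k137 k205 9 (.s k71 k139 9 (.d k70 k68
  k204 0 10)))), (.s k71 k139 9 (.s k135 k199 7 (.s k75 k195 9 (.d k79 k67 k143 1 7)))), (.s k5 k10
  2 (.s k69 k138 10 (.s k137 k205 9 (.s k70 k204 10 (.d k133 k197 k196 7 8)))))] (.c k158 (.q k223
  [(.s k69 k138 10 (.s k137 k205 9 (.s k71 k139 9 (.d k70 k68 k204 0 10)))), (.s k71 k139 9 (.s k135
  k199 7 (.s k75 k195 9 (.d k79 k67 k143 1 7)))), (.s k5 k10 2 (.s k69 k138 10 (.s k137 k205 9 (.s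
  k70 k204 10 (.d k133 k197 k196 7 8)))))] .n) (.c k223 (.q k158 [(.s k69 k138 10 (.s k137 k205 9
  (.s k71 k139 9 (.d k70 k68 k204 0 10)))), (.s k71 k139 9 (.s k135 k199 7 (.s k75 k195 9 (.d k79
  k67 k143 1 7)))), (.s k5 k10 2 (.s k69 k138 10 (.s k137 k205 9 (.s k70 k204 10 (.d k133 k197 k196
  7 8)))))] .n) .n))) (.c k44 (.q k28 [(.s k69 k138 10 (.s k137 k205 9 (.s k71 k139 9 (.d k70 k68
  k204 0 10)))), (.s k71 k139 9 (.s k135 k199 7 (.s k75 k195 9 (.d k79 k67 k143 1 7)))), (.s k5 k10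
  2 (.s k69 k138 10 (.s k137 k205 9 (.s k70 k204 10 (.d k133 k197 k196 7 8)))))] .n) .n))) (.c k174
  (.q k93 [(.s k69 k138 10 (.s k137 k205 9 (.s k71 k139 9 (.d k70 k68 k204 0 10)))), (.s k71 k139 9
  (.s k135 k199 7 (.s k75 k195 9 (.d k79 k67 k143 1 7)))), (.s k5 k10 2 (.s k69 k138 10 (.s k137
  k205 9 (.s k70 k204 10 (.d k133 k197 k196 7 8)))))] (.c k28 (.q k44 [(.s k69 k138 10 (.s k137 k205
  9 (.s k71 k139 9 (.d k70 k68 k204 0 10)))), (.s k71 k139 9 (.s k135 k199 7 (.s k75 k195 9 (.d k79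
  k67 k143 1 7)))), (.s k5 k10 2 (.s k69 k138 10 (.s k137 k205 9 (.s k70 k204 10 (.d k133 k197 k196
  7 8)))))] (.c k142 (.q k158 [(.s k5 k10 2 (.s k143 k79 7 (.s k173 k188 4 (.d k13 k9 k253 1 11)))),
  (.s k69 k138 10 (.s k137 k205 9 (.s k70 k204 10 (.d k71 k68 k139 0 9))))] .n) (.c k158 (.q k142
  [(.s k69 k138 10 (.s k137 k205 9 (.s k71 k139 9 (.d k70 k68 k204 0 10)))), (.s k71 k139 9 (.s k135
  k199 7 (.s k75 k195 9 (.d k79 k67 k143 1 7)))), (.s k5 k10 2 (.s k69 k138 10 (.s k137 k205 9 (.s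
  k70 k204 10 (.d k133 k197 k196 7 8)))))] .n) .n))) (.c k44 (.q k28 [(.s k69 k138 10 (.s k137 k205
  9 (.s k71 k139 9 (.d k70 k68 k204 0 10)))), (.s k158 k223 8 (.s k5 k10 2 (.s k143 k79 7 (.s k173
  k188 4 (.d k13 k9 k253 1 11)))))] (.c k109 (.q k239 [(.s k69 k138 10 (.s k71 k139 9 (.s k70 k68 0
  (.d k137 k205 k204 9 10)))), (.s k158 k223 8 (.s k5 k10 2 (.s k143 k79 7 (.s k173 k188 4 (.d k13
  k9 k253 1 11)))))] (.c k142 (.l (.s k158 k223 8 (.s k5 k10 2 (.s k143 k79 7 (.s k173 k188 4 (.d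
  k13 k9 k253 1 11)))))) (.c k158 (.q k142 [(.s k69 k138 10 (.s k71 k139 9 (.s k70 k68 0 (.d k137
  k205 k204 9 10)))), (.s k71 k139 9 (.s k135 k199 7 (.s k75 k195 9 (.d k79 k67 k143 1 7)))), (.s k5
  k10 2 (.s k69 k138 10 (.s k137 k205 9 (.s k70 k204 10 (.d k133 k197 k196 7 8)))))] .n) .n))) (.c
  k142 (.l (.s k158 k223 8 (.s k5 k10 2 (.s k143 k79 7 (.s k173 k188 4 (.d k13 k9 k253 1 11))))))
  (.c k158 (.q k142 [(.s k69 k138 10 (.s k137 k205 9 (.s k71 k139 9 (.d k70 k68 k204 0 10)))), (.s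
  k71 k139 9 (.s k135 k199 7 (.s k75 k195 9 (.d k79 k67 k143 1 7)))), (.s k5 k10 2 (.s k69 k138 10
  (.s k137 k205 9 (.s k70 k204 10 (.d k133 k197 k196 7 8)))))] (.c k109 (.q k239 [(.s k69 k138 10
  (.s k71 k139 9 (.s k70 k68 0 (.d k137 k205 k204 9 10)))), (.s k71 k139 9 (.s k135 k199 7 (.s k75
  k195 9 (.d k79 k67 k143 1 7)))), (.s k5 k10 2 (.s k69 k138 10 (.s k137 k205 9 (.s k70 k204 10 (.d
  k133 k197 k196 7 8)))))] .n) (.c k239 (.l (.s k109 k77 3 (.s k69 k138 10 (.s k137 k205 9 (.s k70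
  k204 10 (.d k71 k68 k139 0 9)))))) .n))) (.c k239 (.l (.s k109 k77 3 (.s k69 k138 10 (.s k137 k205
  9 (.s k70 k204 10 (.d k71 k68 k139 0 9)))))) .n))))) (.c k142 (.q k158 [(.s k5 k10 2 (.s k143 k79
  7 (.s k173 k188 4 (.d k13 k9 k253 1 11)))), (.s k69 k138 10 (.s k137 k205 9 (.s k70 k204 10 (.d
  k71 k68 k139 0 9))))] (.c k28 (.q k44 [(.s k5 k10 2 (.s k143 k79 7 (.s k173 k188 4 (.d k13 k9 k253
  1 11)))), (.s k69 k138 10 (.s k137 k205 9 (.s k70 k204 10 (.d k71 k68 k139 0 9))))] .n) (.c k44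
  (.l (.s k28 k223 8 (.s k5 k10 2 (.s k143 k79 7 (.s k173 k188 4 (.d k13 k9 k253 1 11)))))) .n)))
  (.c k158 (.q k142 [(.s k69 k138 10 (.s k137 k205 9 (.s k71 k139 9 (.d k70 k68 k204 0 10)))), (.s
  k71 k139 9 (.s k135 k199 7 (.s k75 k195 9 (.d k79 k67 k143 1 7)))), (.s k5 k10 2 (.s k69 k138 10
  (.s k137 k205 9 (.s k70 k204 10 (.d k133 k197 k196 7 8)))))] (.c k28 (.q k44 [(.s k69 k138 10 (.s
  k137 k205 9 (.s k71 k139 9 (.d k70 k68 k204 0 10)))), (.s k71 k139 9 (.s k135 k199 7 (.s k75 k195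
  9 (.d k79 k67 k143 1 7)))), (.s k5 k10 2 (.s k69 k138 10 (.s k137 k205 9 (.s k70 k204 10 (.d k133
  k197 k196 7 8)))))] .n) (.c k44 (.q k28 [(.s k69 k138 10 (.s k137 k205 9 (.s k71 k139 9 (.d k70
  k68 k204 0 10)))), (.s k71 k139 9 (.s k135 k199 7 (.s k75 k195 9 (.d k79 k67 k143 1 7)))), (.s k5
  k10 2 (.s k69 k138 10 (.s k137 k205 9 (.s k70 k204 10 (.d k133 k197 k196 7 8)))))] (.c k109 (.q
  k239 [(.s k69 k138 10 (.s k71 k139 9 (.s k70 k68 0 (.d k137 k205 k204 9 10)))), (.s k71 k139 9 (.s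
  k135 k199 7 (.s k75 k195 9 (.d k79 k67 k143 1 7)))), (.s k5 k10 2 (.s k69 k138 10 (.s k137 k205 9
  (.s k70 k204 10 (.d k133 k197 k196 7 8)))))] .n) (.c k239 (.l (.s k109 k77 3 (.s k69 k138 10 (.s
  k137 k205 9 (.s k70 k204 10 (.d k71 k68 k139 0 9)))))) .n))) .n))) .n))))) .n))))))) (.c k13 (.l
  (.s k2 k1 0 (.s k11 k7 1 (.s k10 k5 2 (.s k9 k8 0 (.d k6 k14 k12 1 2)))))) (.c k14 (.l (.s k1 k2 0
  (.s k7 k11 1 (.s k5 k10 2 (.s k6 k4 0 (.d k9 k13 k12 1 2)))))) .n))))))))))))) .n)))))))))))))))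

def t61 : T TT 256 :=
  (.q k5 [(.s k1 k2 0 (.s k15 k10 2 (.s k7 k11 1 (.s k6 k4 0 (.d k9 k13 k12 1 2)))))] (.c k1 (.q k21
  [(.s k15 k10 2 (.s k63 k42 6 (.s k31 k47 3 (.s k26 k16 2 (.d k37 k53 k48 3 6))))), (.s k63 k42 6
  (.s k23 k43 5 (.s k37 k53 3 (.s k22 k20 0 (.s k7 k52 4 (.s k4 k6 0 (.d k55 k39 k38 3 4))))))), (.s
  k15 k10 2 (.s k63 k42 6 (.s k7 k11 1 (.s k23 k43 5 (.s k4 k6 0 (.d k55 k39 k38 3 4)))))), (.s k15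
  k10 2 (.s k7 k11 1 (.s k37 k53 3 (.s k22 k52 4 (.s k60 k41 6 (.d k20 k23 k40 0 5))))))] .n) (.c k2
  (.q k21 [(.s k15 k10 2 (.s k63 k42 6 (.s k31 k47 3 (.s k26 k16 2 (.d k37 k53 k48 3 6))))), (.s k15
  k10 2 (.s k7 k11 1 (.s k37 k53 3 (.s k22 k52 4 (.s k20 k23 0 (.d k60 k40 k41 5 6)))))), (.s k42
  k63 6 (.s k37 k53 3 (.s k32 k47 2 (.s k48 k16 3 (.d k15 k10 k26 2 6))))), (.s k63 k42 6 (.s k23
  k43 5 (.s k37 k53 3 (.s k22 k20 0 (.s k7 k52 4 (.s k55 k39 3 (.d k4 k6 k38 0 4))))))), (.s k15 k10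
  2 (.s k63 k42 6 (.s k7 k11 1 (.s k23 k43 5 (.s k55 k39 3 (.d k4 k6 k38 0 4))))))] .n) (.c k4 (.q
  k21 [(.s k2 k1 0 (.s k42 k63 6 (.s k22 k62 5 (.s k60 k41 6 (.d k20 k23 k40 0 5))))), (.s k15 k10 2
  (.s k63 k42 6 (.s k37 k53 3 (.s k26 k48 6 (.d k31 k16 k47 2 3))))), (.s k15 k10 2 (.s k7 k11 1 (.s
  k37 k53 3 (.s k22 k52 4 (.s k60 k41 6 (.d k20 k23 k40 0 5))))))] .n) (.c k6 (.q k21 [(.s k2 k1 0
  (.s k42 k63 6 (.s k22 k62 5 (.s k60 k41 6 (.d k20 k23 k40 0 5))))), (.s k15 k10 2 (.s k63 k42 6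
  (.s k37 k53 3 (.s k26 k48 6 (.d k31 k16 k47 2 3))))), (.s k15 k10 2 (.s k7 k11 1 (.s k37 k53 3 (.s
  k22 k52 4 (.s k60 k41 6 (.d k20 k23 k40 0 5))))))] (.c k2 (.l (.s k42 k63 6 (.s k37 k53 3 (.s k32
  k47 2 (.s k48 k16 3 (.d k15 k10 k26 2 6)))))) .n)) (.c k7 (.l (.s k1 k2 0 (.s k10 k15 2 (.s k9 k13
  1 (.s k12 k6 2 (.d k8 k11 k4 0 1)))))) (.c k8 (.l (.s k1 k2 0 (.s k15 k10 2 (.s k9 k13 1 (.s k6
  k12 2 (.d k7 k11 k4 1 0)))))) (.c k9 (.q k69 [(.s k1 k2 0 (.s k207 k138 10 (.s k71 k139 9 (.s k70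
  k68 0 (.d k137 k205 k204 9 10))))), (.s k15 k10 2 (.s k138 k207 10 (.s k133 k197 7 (.s k192 k74 10
  (.d k128 k143 k64 2 7))))), (.s k1 k2 0 (.s k15 k10 2 (.s k137 k205 9 (.s k11 k7 1 (.s k133 k197 7
  (.d k74 k200 k192 8 10))))))] .n) (.c k10 (.q k69 [(.s k2 k1 0 (.s k138 k207 10 (.s k70 k206 9 (.s
  k204 k137 10 (.d k68 k71 k136 0 9))))), (.s k1 k2 0 (.s k13 k9 1 (.s k137 k205 9 (.s k133 k197 7
  (.s k193 k73 9 (.d k129 k141 k65 1 7)))))), (.s k207 k138 10 (.s k71 k139 9 (.s k133 k197 7 (.s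
  k70 k68 0 (.s k7 k196 8 (.s k199 k135 7 (.d k4 k6 k134 0 8)))))))] (.c k137 (.f k1 k2 0 (.l (.s
  k138 k207 10 (.s k13 k9 1 (.s k133 k197 7 (.s k128 k143 2 (.s k192 k64 7 (.s k129 k66 8 (.d k193
  k65 k73 7 9))))))))) .n)) (.c k11 (.l (.s k2 k1 0 (.s k10 k15 2 (.s k6 k14 1 (.s k12 k9 2 (.d k4
  k7 k8 0 1)))))) (.c k12 (.f k1 k2 0 (.q k69 [(.s k207 k138 10 (.s k71 k139 9 (.s k70 k68 0 (.d
  k137 k205 k204 9 10)))), (.s k15 k10 2 (.s k138 k207 10 (.s k133 k197 7 (.s k192 k74 10 (.d k128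
  k143 k64 2 7))))), (.s k15 k10 2 (.s k137 k205 9 (.s k7 k11 1 (.s k133 k197 7 (.d k70 k196 k204 8
  10)))))] (.c k93 (.q k174 [(.s k207 k138 10 (.s k71 k139 9 (.s k70 k68 0 (.d k137 k205 k204 9
  10)))), (.s k15 k10 2 (.s k138 k207 10 (.s k133 k197 7 (.s k192 k74 10 (.d k128 k143 k64 2 7))))),
  (.s k15 k10 2 (.s k137 k205 9 (.s k7 k11 1 (.s k133 k197 7 (.d k70 k196 k204 8 10)))))] .n) (.c
  k174 (.q k93 [(.s k207 k138 10 (.s k71 k139 9 (.s k70 k68 0 (.d k137 k205 k204 9 10)))), (.s k15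
  k10 2 (.s k138 k207 10 (.s k133 k197 7 (.s k192 k74 10 (.d k128 k143 k64 2 7))))), (.s k15 k10 2
  (.s k137 k205 9 (.s k7 k11 1 (.s k133 k197 7 (.d k70 k196 k204 8 10)))))] .n) .n)))) (.c k13 (.l
  (.s k2 k1 0 (.s k10 k15 2 (.s k6 k14 1 (.s k12 k9 2 (.d k4 k7 k8 0 1)))))) (.c k14 (.l (.s k1 k2 0
  (.s k10 k15 2 (.s k9 k13 1 (.s k12 k6 2 (.d k8 k11 k4 0 1)))))) (.c k15 (.f k1 k2 0 (.q k69 [(.s
  k207 k138 10 (.s k71 k139 9 (.s k70 k68 0 (.d k137 k205 k204 9 10)))), (.s k13 k9 1 (.s k137 k205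
  9 (.s k133 k197 7 (.s k193 k73 9 (.d k129 k141 k65 1 7))))), (.s k138 k207 10 (.s k9 k13 1 (.s k12
  k6 2 (.s k4 k8 1 (.s k134 k199 8 (.s k195 k73 10 (.d k130 k142 k65 1 8)))))))] (.c k95 (.q k175
  [(.s k207 k138 10 (.s k71 k139 9 (.s k70 k68 0 (.d k137 k205 k204 9 10)))), (.s k13 k9 1 (.s k137
  k205 9 (.s k133 k197 7 (.s k193 k73 9 (.d k129 k141 k65 1 7))))), (.s k138 k207 10 (.s k9 k13 1
  (.s k12 k6 2 (.s k4 k8 1 (.s k134 k199 8 (.s k195 k73 10 (.d k130 k142 k65 1 8)))))))] .n) (.c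
  k175 (.q k95 [(.s k207 k138 10 (.s k71 k139 9 (.s k70 k68 0 (.d k137 k205 k204 9 10)))), (.s k13
  k9 1 (.s k137 k205 9 (.s k133 k197 7 (.s k193 k73 9 (.d k129 k141 k65 1 7))))), (.s k138 k207 10
  (.s k9 k13 1 (.s k12 k6 2 (.s k4 k8 1 (.s k134 k199 8 (.s k195 k73 10 (.d k130 k142 k65 1
  8)))))))] .n) .n)))) .n))))))))))))))

theorem c15 : rootOK2 k3 k255 k15 t15 = true := by decide +kernel

theorem c20 : rootOK2 k3 k255 k20 t20 = true := by decide +kernel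

theorem c21 : rootOK2 k3 k255 k21 t21 = true := by decide +kernel

theorem c22 : rootOK2 k3 k255 k22 t22 = true := by decide +kernel

theorem c23 : rootOK2 k3 k255 k23 t23 = true := by decide +kernel

theorem c24 : rootOK2 k3 k255 k24 t24 = true := by decide +kernel

theorem c25 : rootOK2 k3 k255 k25 t25 = true := by decide +kernel

theorem c27 : rootOK2 k3 k255 k27 t27 = true := by decide +kernel

theorem c28 : rootOK2 k3 k255 k28 t28 = true := by decide +kernel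

theorem c29 : rootOK2 k3 k255 k29 t29 = true := by decide +kernel

theorem c30 : rootOK2 k3 k255 k30 t30 = true := by decide +kernel

theorem c31 : rootOK2 k3 k255 k31 t31 = true := by decide +kernel

theorem c60 : rootOK2 k3 k255 k60 t60 = true := by decide +kernel

theorem c61 : rootOK2 k3 k255 k61 t61 = true := by decide +kernel

def l : List Nat :=
  [k15.c, k20.c, k21.c, k22.c, k23.c, k24.c, k25.c, k27.c, k28.c, k29.c, k30.c, k31.c, k60.c, k61.c]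

theorem ok : AllQ k3.c k255.c l :=
  allQ_cons c15 (allQ_cons c20 (allQ_cons c21 (allQ_cons c22 (allQ_cons c23 (allQ_cons c24 (
  allQ_cons c25 (allQ_cons c27 (allQ_cons c28 (allQ_cons c29 (allQ_cons c30 (allQ_cons c31 (
  allQ_cons c60 (allQ_cons c61 (allQ_nil _ _))))))))))))))

end Pool.Agent.TTT.F02
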