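import Pool.Agent.TTT.Sym2

set_option autoImplicit false
set_option maxRecDepth 100000

namespace Pool.Agent.TTT.F03

def t63 : T TT 256 :=
  (.q k192 [(.s k1 k2 0 (.s k128 k64 7 (.s k129 k66 8 (.s k65 k193 7 (.d k130 k131 k195 0 8)))))]
  (.c k1 (.q k204 [(.s k64 k128 7 (.s k68 k136 9 (.s k72 k76 1 (.s k196 k200 1 (.d k132 k4 k12 7
  9))))), (.s k66 k129 8 (.s k70 k137 10 (.s k74 k78 1 (.s k133 k15 10 (.d k196 k200 k7 1 8))))),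
  (.s k64 k128 7 (.s k68 k136 9 (.s k66 k129 8 (.s k70 k137 10 (.s k74 k78 1 (.d k69 k71 k79 0
  2))))))] (.c k127 (.q k191 [(.s k64 k128 7 (.s k68 k136 9 (.s k196 k200 1 (.s k132 k4 7 (.d k72
  k76 k12 1 9))))), (.s k66 k129 8 (.s k70 k137 10 (.s k74 k78 1 (.s k133 k15 10 (.d k196 k200 k7 1
  8))))), (.s k64 k128 7 (.s k68 k136 9 (.s k66 k129 8 (.s k70 k137 10 (.s k74 k78 1 (.d k69 k71 k79
  0 2))))))] .n) (.c k191 (.q k127 [(.s k128 k64 7 (.s k200 k196 1 (.s k136 k68 9 (.s k72 k8 7 (.d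
  k132 k140 k12 1 9))))), (.s k66 k129 8 (.s k70 k137 10 (.s k74 k78 1 (.s k133 k15 10 (.d k196 k200
  k7 1 8))))), (.s k64 k128 7 (.s k68 k136 9 (.s k66 k129 8 (.s k70 k137 10 (.s k74 k78 1 (.d k69
  k71 k79 0 2))))))] .n) .n))) (.c k2 (.q k204 [(.s k64 k128 7 (.s k68 k136 9 (.s k72 k76 1 (.s k196
  k200 1 (.d k132 k4 k12 7 9))))), (.s k66 k129 8 (.s k70 k137 10 (.s k74 k78 1 (.s k133 k15 10 (.d
  k196 k200 k7 1 8))))), (.s k64 k128 7 (.s k68 k136 9 (.s k66 k129 8 (.s k70 k137 10 (.s k67 k65 0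
  (.d k76 k72 k73 1 2))))))] (.c k127 (.q k191 [(.s k64 k128 7 (.s k68 k136 9 (.s k196 k200 1 (.s
  k132 k4 7 (.d k72 k76 k12 1 9))))), (.s k66 k129 8 (.s k70 k137 10 (.s k74 k78 1 (.s k133 k15 10
  (.d k196 k200 k7 1 8))))), (.s k64 k128 7 (.s k68 k136 9 (.s k66 k129 8 (.s k70 k137 10 (.s k67
  k65 0 (.d k76 k72 k73 1 2))))))] .n) (.c k191 (.q k127 [(.s k128 k64 7 (.s k200 k196 1 (.s k136
  k68 9 (.s k72 k8 7 (.d k132 k140 k12 1 9))))), (.s k66 k129 8 (.s k70 k137 10 (.s k74 k78 1 (.s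
  k133 k15 10 (.d k196 k200 k7 1 8))))), (.s k64 k128 7 (.s k68 k136 9 (.s k66 k129 8 (.s k70 k137
  10 (.s k67 k65 0 (.d k76 k72 k73 1 2))))))] .n) .n))) (.c k64 (.q k207 [(.s k1 k2 0 (.s k69 k138
  10 (.s k137 k205 9 (.s k71 k139 9 (.d k70 k68 k204 0 10))))), (.s k69 k138 10 (.s k129 k66 8 (.s
  k197 k202 2 (.s k133 k5 7 (.s k137 k141 1 (.d k1 k2 k205 0 9)))))), (.s k69 k138 10 (.s k66 k129 8
  (.s k71 k139 9 (.s k70 k68 0 (.s k74 k78 1 (.s k133 k15 10 (.d k197 k202 k5 2 7)))))))] (.c k69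
  (.l (.s k2 k1 0 (.s k66 k129 8 (.s k194 k130 7 (.s k202 k197 2 (.s k206 k198 1 (.s k70 k138 9 (.d
  k204 k205 k137 0 10)))))))) (.c k127 (.q k191 [(.s k1 k2 0 (.s k69 k138 10 (.s k137 k205 9 (.s k71
  k139 9 (.d k70 k68 k204 0 10))))), (.s k69 k138 10 (.s k129 k66 8 (.s k197 k202 2 (.s k133 k5 7
  (.s k137 k141 1 (.d k1 k2 k205 0 9)))))), (.s k69 k138 10 (.s k66 k129 8 (.s k71 k139 9 (.s k70
  k68 0 (.s k74 k78 1 (.s k133 k15 10 (.d k197 k202 k5 2 7)))))))] (.c k69 (.l (.s k2 k1 0 (.s k66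
  k129 8 (.s k194 k130 7 (.s k202 k197 2 (.s k206 k198 1 (.s k70 k138 9 (.d k204 k205 k137 0
  10)))))))) (.c k85 (.q k106 [(.s k1 k2 0 (.s k69 k138 10 (.s k137 k205 9 (.s k71 k139 9 (.d k70
  k68 k204 0 10))))), (.s k66 k129 8 (.s k71 k139 9 (.s k86 k126 5 (.s k101 k116 4 (.s k48 k154 14
  (.d k96 k111 k144 2 11)))))), (.s k69 k138 10 (.s k129 k66 8 (.s k197 k202 2 (.s k133 k5 7 (.s
  k137 k141 1 (.d k1 k2 k205 0 9))))))] .n) (.c k106 (.q k85 [(.s k1 k2 0 (.s k69 k138 10 (.s k137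
  k205 9 (.s k71 k139 9 (.d k70 k68 k204 0 10))))), (.s k1 k2 0 (.s k169 k253 13 (.s k139 k71 9 (.s
  k154 k184 4 (.s k16 k223 10 (.d k48 k32 k101 3 14)))))), (.s k69 k138 10 (.s k71 k139 9 (.s k101
  k117 3 (.s k86 k116 4 (.s k252 k169 14 (.d k84 k87 k168 0 13)))))), (.s k1 k2 0 (.s k69 k138 10
  (.s k137 k205 9 (.s k129 k66 8 (.s k133 k141 1 (.d k197 k202 k5 2 7))))))] .n) (.c k137 (.l (.s k2
  k1 0 (.s k66 k129 8 (.s k194 k130 7 (.s k202 k197 2 (.s k206 k198 1 (.d k138 k69 k70 10 9)))))))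
  (.c k138 (.q k106 [(.s k66 k129 8 (.s k139 k71 9 (.s k202 k197 2 (.s k154 k58 11 (.s k169 k184 4
  (.d k86 k126 k252 5 14)))))), (.s k2 k1 0 (.s k66 k129 8 (.s k194 k130 7 (.s k62 k150 13 (.s k42
  k22 5 (.s k170 k234 7 (.d k86 k126 k254 5 13))))))), (.s k139 k71 9 (.s k202 k197 2 (.s k154 k58
  11 (.s k169 k184 4 (.s k252 k86 14 (.d k232 k212 k43 5 8))))))] (.c k86 (.q k137 [(.s k1 k2 0 (.s
  k205 k69 9 (.d k204 k206 k70 0 10))), (.s k66 k129 8 (.s k70 k204 10 (.s k74 k78 1 (.s k11 k200 8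
  (.d k15 k7 k133 1 10))))), (.s k129 k66 8 (.s k133 k141 1 (.s k197 k202 2 (.s k5 k69 7 (.d k15 k10
  k74 2 10)))))] (.c k74 (.l (.s k1 k2 0 (.s k69 k205 9 (.s k70 k204 10 (.d k71 k68 k139 0 9)))))
  .n)) .n)) .n)))))) (.c k137 (.l (.s k2 k1 0 (.s k66 k129 8 (.s k194 k130 7 (.s k202 k197 2 (.s
  k206 k198 1 (.d k138 k69 k70 10 9))))))) (.c k138 (.q k137 [(.s k1 k2 0 (.s k205 k69 9 (.d k204
  k206 k70 0 10))), (.s k66 k129 8 (.s k70 k204 10 (.s k74 k78 1 (.s k11 k200 8 (.d k15 k7 k133 1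
  10))))), (.s k129 k66 8 (.s k133 k141 1 (.s k197 k202 2 (.s k5 k69 7 (.d k15 k10 k74 2 10)))))]
  (.c k74 (.l (.s k1 k2 0 (.s k69 k205 9 (.s k70 k204 10 (.d k71 k68 k139 0 9))))) (.c k127 (.q k191
  [(.s k1 k2 0 (.s k205 k69 9 (.d k204 k206 k70 0 10))), (.s k66 k129 8 (.s k70 k204 10 (.s k74 k78
  1 (.s k11 k200 8 (.d k15 k7 k133 1 10))))), (.s k129 k66 8 (.s k133 k141 1 (.s k197 k202 2 (.s k5
  k69 7 (.d k15 k10 k74 2 10)))))] (.c k74 (.l (.s k1 k2 0 (.s k69 k205 9 (.s k70 k204 10 (.d k71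
  k68 k139 0 9))))) (.c k85 (.q k106 [(.s k1 k2 0 (.s k205 k69 9 (.d k204 k206 k70 0 10))), (.s k66
  k129 8 (.s k70 k204 10 (.s k74 k78 1 (.s k11 k200 8 (.d k15 k7 k133 1 10))))), (.s k129 k66 8 (.s
  k133 k141 1 (.s k197 k202 2 (.s k5 k69 7 (.d k15 k10 k74 2 10)))))] (.c k74 (.l (.s k1 k2 0 (.s
  k69 k205 9 (.s k70 k204 10 (.d k71 k68 k139 0 9))))) .n)) (.c k106 (.q k85 [(.s k1 k2 0 (.s k205
  k69 9 (.d k204 k206 k70 0 10))), (.s k66 k129 8 (.s k70 k204 10 (.s k74 k78 1 (.s k11 k200 8 (.d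
  k15 k7 k133 1 10))))), (.s k129 k66 8 (.s k133 k141 1 (.s k197 k202 2 (.s k5 k69 7 (.d k15 k10 k74
  2 10)))))] (.c k74 (.l (.s k1 k2 0 (.s k69 k205 9 (.s k70 k204 10 (.d k71 k68 k139 0 9))))) .n))
  .n)))) (.c k191 (.q k127 [(.s k1 k2 0 (.s k205 k69 9 (.d k204 k206 k70 0 10))), (.s k66 k129 8 (.s
  k70 k204 10 (.s k74 k78 1 (.s k11 k200 8 (.d k15 k7 k133 1 10))))), (.s k129 k66 8 (.s k133 k141 1
  (.s k197 k202 2 (.s k5 k69 7 (.d k15 k10 k74 2 10)))))] (.c k74 (.l (.s k1 k2 0 (.s k69 k205 9 (.s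
  k70 k204 10 (.d k71 k68 k139 0 9))))) .n)) .n)))) (.c k191 (.q k127 [(.s k1 k2 0 (.s k69 k138 10
  (.s k137 k205 9 (.s k71 k139 9 (.d k70 k68 k204 0 10))))), (.s k69 k138 10 (.s k129 k66 8 (.s k197
  k202 2 (.s k133 k5 7 (.s k137 k141 1 (.d k1 k2 k205 0 9)))))), (.s k69 k138 10 (.s k66 k129 8 (.s
  k71 k139 9 (.s k70 k68 0 (.s k74 k78 1 (.s k133 k15 10 (.d k197 k202 k5 2 7)))))))] (.c k69 (.l
  (.s k2 k1 0 (.s k66 k129 8 (.s k194 k130 7 (.s k202 k197 2 (.s k206 k198 1 (.s k70 k138 9 (.d k204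
  k205 k137 0 10)))))))) (.c k137 (.l (.s k2 k1 0 (.s k66 k129 8 (.s k194 k130 7 (.s k202 k197 2 (.s
  k206 k198 1 (.d k138 k69 k70 10 9))))))) (.c k138 (.q k137 [(.s k1 k2 0 (.s k205 k69 9 (.d k204
  k206 k70 0 10))), (.s k66 k129 8 (.s k70 k204 10 (.s k74 k78 1 (.s k11 k200 8 (.d k15 k7 k133 1
  10))))), (.s k129 k66 8 (.s k133 k141 1 (.s k197 k202 2 (.s k5 k69 7 (.d k15 k10 k74 2 10)))))]
  (.c k74 (.l (.s k1 k2 0 (.s k69 k205 9 (.s k70 k204 10 (.d k71 k68 k139 0 9))))) .n)) .n))))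
  .n)))))) (.c k65 (.q k204 [(.s k1 k2 0 (.s k136 k68 9 (.s k137 k70 10 (.s k69 k205 9 (.d k138 k139
  k207 0 10))))), (.s k64 k128 7 (.s k68 k136 9 (.s k72 k76 1 (.s k132 k12 9 (.d k196 k200 k4 1
  7))))), (.s k66 k129 8 (.s k70 k137 10 (.s k74 k78 1 (.s k133 k15 10 (.d k196 k200 k7 1 8)))))]
  (.c k127 (.q k191 [(.s k1 k2 0 (.s k136 k68 9 (.s k137 k70 10 (.s k69 k205 9 (.d k138 k139 k207 0
  10))))), (.s k64 k128 7 (.s k68 k136 9 (.s k72 k76 1 (.s k132 k12 9 (.d k196 k200 k4 1 7))))), (.s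
  k66 k129 8 (.s k70 k137 10 (.s k74 k78 1 (.s k133 k15 10 (.d k196 k200 k7 1 8)))))] .n) (.c k191
  (.q k127 [(.s k1 k2 0 (.s k136 k68 9 (.s k137 k70 10 (.s k69 k205 9 (.d k138 k139 k207 0 10))))),
  (.s k64 k128 7 (.s k68 k136 9 (.s k72 k76 1 (.s k132 k12 9 (.d k196 k200 k4 1 7))))), (.s k66 k129
  8 (.s k70 k137 10 (.s k74 k78 1 (.s k133 k15 10 (.d k196 k200 k7 1 8)))))] .n) .n))) (.c k66 (.q
  k204 [(.s k2 k1 0 (.s k68 k136 9 (.s k70 k137 10 (.s k138 k206 9 (.d k69 k71 k207 0 10))))), (.s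
  k64 k128 7 (.s k68 k136 9 (.s k72 k76 1 (.s k132 k12 9 (.d k196 k200 k4 1 7))))), (.s k1 k2 0 (.s
  k64 k128 7 (.s k137 k70 10 (.s k69 k205 9 (.s k74 k79 2 (.d k200 k196 k11 1 8))))))] (.c k127 (.q
  k191 [(.s k2 k1 0 (.s k68 k136 9 (.s k70 k137 10 (.s k138 k206 9 (.d k69 k71 k207 0 10))))), (.s
  k64 k128 7 (.s k68 k136 9 (.s k72 k76 1 (.s k132 k12 9 (.d k196 k200 k4 1 7))))), (.s k1 k2 0 (.s
  k64 k128 7 (.s k137 k70 10 (.s k69 k205 9 (.s k74 k79 2 (.d k200 k196 k11 1 8))))))] .n) (.c k191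
  (.q k127 [(.s k2 k1 0 (.s k68 k136 9 (.s k70 k137 10 (.s k138 k206 9 (.d k69 k71 k207 0 10))))),
  (.s k64 k128 7 (.s k68 k136 9 (.s k72 k76 1 (.s k132 k12 9 (.d k196 k200 k4 1 7))))), (.s k1 k2 0
  (.s k64 k128 7 (.s k137 k70 10 (.s k69 k205 9 (.s k74 k79 2 (.d k200 k196 k11 1 8))))))] .n) .n)))
  (.c k67 (.l (.s k1 k2 0 (.s k128 k64 7 (.s k129 k66 8 (.s k65 k193 7 (.d k130 k131 k195 0 8))))))
  (.c k127 (.q k191 [(.s k2 k1 0 (.s k64 k128 7 (.s k66 k129 8 (.s k130 k194 7 (.d k65 k67 k195 0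
  8))))), (.s k128 k64 7 (.s k129 k66 8 (.s k131 k130 0 (.s k149 k170 6 (.s k169 k189 5 (.s k150
  k188 6 (.d k151 k148 k171 0 5)))))))] (.c k2 (.q k204 [(.s k64 k128 7 (.s k68 k136 9 (.s k196 k200
  1 (.s k132 k4 7 (.d k72 k76 k12 1 9))))), (.s k66 k129 8 (.s k70 k137 10 (.s k74 k78 1 (.s k133
  k15 10 (.d k196 k200 k7 1 8))))), (.s k64 k128 7 (.s k68 k136 9 (.s k66 k129 8 (.s k70 k137 10 (.s
  k67 k65 0 (.d k76 k72 k73 1 2))))))] .n) (.c k64 (.q k207 [(.s k1 k2 0 (.s k69 k138 10 (.s k137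
  k205 9 (.s k71 k139 9 (.d k70 k68 k204 0 10))))), (.s k69 k138 10 (.s k129 k66 8 (.s k197 k202 2
  (.s k133 k5 7 (.s k137 k141 1 (.d k1 k2 k205 0 9)))))), (.s k69 k138 10 (.s k66 k129 8 (.s k71
  k139 9 (.s k70 k68 0 (.s k74 k78 1 (.s k133 k15 10 (.d k197 k202 k5 2 7)))))))] (.c k69 (.l (.s k2
  k1 0 (.s k66 k129 8 (.s k194 k130 7 (.s k202 k197 2 (.s k206 k198 1 (.s k70 k138 9 (.d k204 k205
  k137 0 10)))))))) (.c k85 (.q k106 [(.s k1 k2 0 (.s k69 k138 10 (.s k137 k205 9 (.s k71 k139 9 (.d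
  k70 k68 k204 0 10))))), (.s k66 k129 8 (.s k71 k139 9 (.s k86 k126 5 (.s k101 k116 4 (.s k48 k154
  14 (.d k96 k111 k144 2 11)))))), (.s k69 k138 10 (.s k129 k66 8 (.s k197 k202 2 (.s k133 k5 7 (.s
  k137 k141 1 (.d k1 k2 k205 0 9))))))] .n) (.c k106 (.q k85 [(.s k1 k2 0 (.s k69 k138 10 (.s k137
  k205 9 (.s k71 k139 9 (.d k70 k68 k204 0 10))))), (.s k1 k2 0 (.s k169 k253 13 (.s k139 k71 9 (.s
  k154 k184 4 (.s k16 k223 10 (.d k48 k32 k101 3 14)))))), (.s k69 k138 10 (.s k71 k139 9 (.s k101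
  k117 3 (.s k86 k116 4 (.s k252 k169 14 (.d k84 k87 k168 0 13)))))), (.s k1 k2 0 (.s k69 k138 10
  (.s k137 k205 9 (.s k129 k66 8 (.s k133 k141 1 (.d k197 k202 k5 2 7))))))] .n) (.c k137 (.l (.s k2
  k1 0 (.s k66 k129 8 (.s k194 k130 7 (.s k202 k197 2 (.s k206 k198 1 (.d k138 k69 k70 10 9)))))))
  (.c k138 (.q k106 [(.s k66 k129 8 (.s k139 k71 9 (.s k202 k197 2 (.s k154 k58 11 (.s k169 k184 4
  (.d k86 k126 k252 5 14)))))), (.s k2 k1 0 (.s k66 k129 8 (.s k194 k130 7 (.s k62 k150 13 (.s k42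
  k22 5 (.s k170 k234 7 (.d k86 k126 k254 5 13))))))), (.s k139 k71 9 (.s k202 k197 2 (.s k154 k58
  11 (.s k169 k184 4 (.s k252 k86 14 (.d k232 k212 k43 5 8))))))] (.c k86 (.q k137 [(.s k1 k2 0 (.s
  k205 k69 9 (.d k204 k206 k70 0 10))), (.s k66 k129 8 (.s k70 k204 10 (.s k74 k78 1 (.s k11 k200 8
  (.d k15 k7 k133 1 10))))), (.s k129 k66 8 (.s k133 k141 1 (.s k197 k202 2 (.s k5 k69 7 (.d k15 k10
  k74 2 10)))))] (.c k74 (.l (.s k1 k2 0 (.s k69 k205 9 (.s k70 k204 10 (.d k71 k68 k139 0 9)))))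
  .n)) .n)) .n)))))) (.c k65 (.q k204 [(.s k1 k2 0 (.s k136 k68 9 (.s k137 k70 10 (.s k69 k205 9 (.d
  k138 k139 k207 0 10))))), (.s k64 k128 7 (.s k68 k136 9 (.s k72 k76 1 (.s k132 k12 9 (.d k196 k200
  k4 1 7))))), (.s k66 k129 8 (.s k70 k137 10 (.s k74 k78 1 (.s k133 k15 10 (.d k196 k200 k7 1
  8)))))] .n) (.c k66 (.q k204 [(.s k2 k1 0 (.s k68 k136 9 (.s k70 k137 10 (.s k138 k206 9 (.d k69
  k71 k207 0 10))))), (.s k64 k128 7 (.s k68 k136 9 (.s k72 k76 1 (.s k132 k12 9 (.d k196 k200 k4 1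
  7))))), (.s k1 k2 0 (.s k64 k128 7 (.s k137 k70 10 (.s k69 k205 9 (.s k74 k79 2 (.d k200 k196 k11
  1 8))))))] .n) (.c k67 (.l (.s k1 k2 0 (.s k128 k64 7 (.s k129 k66 8 (.s k65 k193 7 (.d k130 k131
  k195 0 8)))))) (.c k128 (.q k137 [(.s k1 k2 0 (.s k69 k205 9 (.s k138 k207 10 (.s k204 k70 10 (.d
  k136 k139 k68 0 9))))), (.s k66 k129 8 (.s k70 k204 10 (.s k74 k78 1 (.s k11 k200 8 (.d k15 k7
  k133 1 10))))), (.s k1 k2 0 (.s k69 k205 9 (.s k129 k66 8 (.s k133 k141 1 (.s k5 k197 7 (.d k15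
  k10 k74 2 10))))))] .n) (.c k129 (.q k137 [(.s k1 k2 0 (.s k69 k205 9 (.s k138 k207 10 (.s k204
  k70 10 (.d k136 k139 k68 0 9))))), (.s k64 k128 7 (.s k204 k70 10 (.s k68 k136 9 (.s k72 k76 1 (.s
  k132 k12 9 (.d k196 k200 k4 1 7)))))), (.s k1 k2 0 (.s k64 k128 7 (.s k69 k205 9 (.s k74 k79 2 (.s
  k11 k200 8 (.d k15 k7 k133 1 10))))))] .n) (.c k130 (.q k137 [(.s k2 k1 0 (.s k70 k204 10 (.s k138
  k206 9 (.s k207 k69 10 (.d k139 k136 k71 0 9))))), (.s k1 k2 0 (.s k64 k128 7 (.s k69 k205 9 (.s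
  k74 k79 2 (.s k11 k200 8 (.d k15 k7 k133 1 10)))))), (.s k66 k129 8 (.s k70 k204 10 (.s k74 k78 1
  (.s k11 k200 8 (.d k15 k7 k133 1 10)))))] .n) (.c k131 (.l (.s k2 k1 0 (.s k64 k128 7 (.s k66 k129
  8 (.s k130 k194 7 (.d k65 k67 k195 0 8)))))) (.c k194 (.l (.s k1 k2 0 (.s k128 k64 7 (.s k129 k66
  8 (.s k130 k131 0 (.d k65 k193 k195 7 8)))))) .n))))))))))) (.c k128 (.q k137 [(.s k1 k2 0 (.s k69
  k205 9 (.s k138 k207 10 (.s k204 k70 10 (.d k136 k139 k68 0 9))))), (.s k66 k129 8 (.s k70 k204 10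
  (.s k74 k78 1 (.s k11 k200 8 (.d k15 k7 k133 1 10))))), (.s k1 k2 0 (.s k69 k205 9 (.s k129 k66 8
  (.s k133 k141 1 (.s k5 k197 7 (.d k15 k10 k74 2 10))))))] (.c k127 (.q k191 [(.s k1 k2 0 (.s k69
  k205 9 (.s k138 k207 10 (.s k204 k70 10 (.d k136 k139 k68 0 9))))), (.s k66 k129 8 (.s k70 k204 10
  (.s k74 k78 1 (.s k11 k200 8 (.d k15 k7 k133 1 10))))), (.s k1 k2 0 (.s k69 k205 9 (.s k129 k66 8
  (.s k133 k141 1 (.s k5 k197 7 (.d k15 k10 k74 2 10))))))] .n) (.c k191 (.q k127 [(.s k1 k2 0 (.s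
  k69 k205 9 (.s k138 k207 10 (.s k204 k70 10 (.d k136 k139 k68 0 9))))), (.s k66 k129 8 (.s k70
  k204 10 (.s k74 k78 1 (.s k11 k200 8 (.d k15 k7 k133 1 10))))), (.s k1 k2 0 (.s k69 k205 9 (.s
  k129 k66 8 (.s k133 k141 1 (.s k5 k197 7 (.d k15 k10 k74 2 10))))))] (.c k149 (.q k170 [(.s k1 k2
  0 (.s k69 k205 9 (.s k138 k207 10 (.s k204 k70 10 (.d k136 k139 k68 0 9))))), (.s k66 k129 8 (.s
  k70 k204 10 (.s k74 k78 1 (.s k11 k200 8 (.d k15 k7 k133 1 10))))), (.s k1 k2 0 (.s k69 k205 9 (.s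
  k129 k66 8 (.s k133 k141 1 (.s k5 k197 7 (.d k15 k10 k74 2 10))))))] .n) (.c k170 (.q k149 [(.s k2
  k1 0 (.s k70 k204 10 (.s k138 k206 9 (.s k207 k69 10 (.d k139 k136 k71 0 9))))), (.s k1 k2 0 (.s
  k69 k205 9 (.s k129 k66 8 (.s k133 k141 1 (.s k5 k197 7 (.d k15 k10 k74 2 10)))))), (.s k66 k129 8
  (.s k70 k204 10 (.s k74 k78 1 (.s k11 k200 8 (.d k15 k7 k133 1 10)))))] .n) .n))) .n))) (.c k129
  (.q k137 [(.s k1 k2 0 (.s k64 k128 7 (.s k69 k205 9 (.s k74 k79 2 (.s k11 k200 8 (.d k15 k7 k133 1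
  10)))))), (.s k1 k2 0 (.s k69 k205 9 (.s k138 k207 10 (.s k204 k70 10 (.d k136 k139 k68 0 9))))),
  (.s k64 k128 7 (.s k204 k70 10 (.s k68 k136 9 (.s k72 k76 1 (.s k132 k12 9 (.d k196 k200 k4 1
  7))))))] (.c k127 (.q k191 [(.s k1 k2 0 (.s k69 k205 9 (.s k138 k207 10 (.s k204 k70 10 (.d k136
  k139 k68 0 9))))), (.s k64 k128 7 (.s k204 k70 10 (.s k68 k136 9 (.s k72 k76 1 (.s k132 k12 9 (.d
  k196 k200 k4 1 7)))))), (.s k1 k2 0 (.s k64 k128 7 (.s k69 k205 9 (.s k74 k79 2 (.s k11 k200 8 (.d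
  k15 k7 k133 1 10))))))] .n) (.c k191 (.q k127 [(.s k1 k2 0 (.s k69 k205 9 (.s k138 k207 10 (.s
  k204 k70 10 (.d k136 k139 k68 0 9))))), (.s k64 k128 7 (.s k204 k70 10 (.s k68 k136 9 (.s k72 k76
  1 (.s k132 k12 9 (.d k196 k200 k4 1 7)))))), (.s k1 k2 0 (.s k64 k128 7 (.s k69 k205 9 (.s k74 k79
  2 (.s k11 k200 8 (.d k15 k7 k133 1 10))))))] .n) .n))) (.c k130 (.q k137 [(.s k2 k1 0 (.s k70 k204
  10 (.s k138 k206 9 (.s k207 k69 10 (.d k139 k136 k71 0 9))))), (.s k1 k2 0 (.s k64 k128 7 (.s k69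
  k205 9 (.s k74 k79 2 (.s k11 k200 8 (.d k15 k7 k133 1 10)))))), (.s k66 k129 8 (.s k70 k204 10 (.s
  k74 k78 1 (.s k11 k200 8 (.d k15 k7 k133 1 10)))))] (.c k127 (.q k191 [(.s k2 k1 0 (.s k70 k204 10
  (.s k138 k206 9 (.s k207 k69 10 (.d k139 k136 k71 0 9))))), (.s k1 k2 0 (.s k64 k128 7 (.s k69
  k205 9 (.s k74 k79 2 (.s k11 k200 8 (.d k15 k7 k133 1 10)))))), (.s k66 k129 8 (.s k70 k204 10 (.s
  k74 k78 1 (.s k11 k200 8 (.d k15 k7 k133 1 10)))))] .n) (.c k191 (.q k127 [(.s k2 k1 0 (.s k70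
  k204 10 (.s k138 k206 9 (.s k207 k69 10 (.d k139 k136 k71 0 9))))), (.s k1 k2 0 (.s k64 k128 7 (.s
  k69 k205 9 (.s k74 k79 2 (.s k11 k200 8 (.d k15 k7 k133 1 10)))))), (.s k66 k129 8 (.s k70 k204 10
  (.s k74 k78 1 (.s k11 k200 8 (.d k15 k7 k133 1 10)))))] .n) .n))) (.c k131 (.l (.s k2 k1 0 (.s k64
  k128 7 (.s k66 k129 8 (.s k130 k194 7 (.d k65 k67 k195 0 8)))))) (.c k191 (.q k127 [(.s k1 k2 0
  (.s k128 k64 7 (.s k129 k66 8 (.s k65 k193 7 (.d k130 k131 k195 0 8))))), (.s k64 k128 7 (.s k66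
  k129 8 (.s k67 k65 0 (.s k106 k85 6 (.s k86 k126 5 (.s k105 k124 6 (.d k107 k104 k87 0 5)))))))]
  (.c k1 (.q k137 [(.s k129 k66 8 (.s k204 k70 10 (.s k133 k141 1 (.s k74 k15 10 (.d k200 k196 k11 1
  8))))), (.s k64 k128 7 (.s k204 k70 10 (.s k68 k136 9 (.s k72 k76 1 (.s k132 k12 9 (.d k196 k200
  k4 1 7)))))), (.s k128 k64 7 (.s k129 k66 8 (.s k133 k141 1 (.s k138 k143 2 (.s k207 k69 10 (.d
  k139 k136 k71 0 9))))))] .n) (.c k64 (.q k137 [(.s k1 k2 0 (.s k69 k205 9 (.s k138 k207 10 (.s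
  k204 k70 10 (.d k136 k139 k68 0 9))))), (.s k66 k129 8 (.s k70 k204 10 (.s k74 k78 1 (.s k11 k200
  8 (.d k15 k7 k133 1 10))))), (.s k1 k2 0 (.s k69 k205 9 (.s k129 k66 8 (.s k133 k141 1 (.s k5 k197
  7 (.d k15 k10 k74 2 10))))))] .n) (.c k65 (.q k137 [(.s k1 k2 0 (.s k69 k205 9 (.s k138 k207 10
  (.s k204 k70 10 (.d k136 k139 k68 0 9))))), (.s k129 k66 8 (.s k70 k204 10 (.s k133 k141 1 (.s k7
  k196 8 (.d k15 k11 k74 1 10))))), (.s k1 k2 0 (.s k64 k128 7 (.s k69 k205 9 (.s k129 k66 8 (.s k74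
  k79 2 (.d k133 k141 k15 1 10))))))] .n) (.c k66 (.q k137 [(.s k2 k1 0 (.s k70 k204 10 (.s k138
  k206 9 (.s k207 k69 10 (.d k139 k136 k71 0 9))))), (.s k64 k128 7 (.s k204 k70 10 (.s k68 k136 9
  (.s k72 k76 1 (.s k132 k12 9 (.d k196 k200 k4 1 7)))))), (.s k1 k2 0 (.s k64 k128 7 (.s k69 k205 9
  (.s k74 k79 2 (.s k11 k200 8 (.d k15 k7 k133 1 10))))))] .n) (.c k67 (.l (.s k1 k2 0 (.s k128 k64
  7 (.s k129 k66 8 (.s k65 k193 7 (.d k130 k131 k195 0 8)))))) (.c k128 (.q k137 [(.s k1 k2 0 (.s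
  k69 k205 9 (.s k138 k207 10 (.s k204 k70 10 (.d k136 k139 k68 0 9))))), (.s k66 k129 8 (.s k70
  k204 10 (.s k74 k78 1 (.s k11 k200 8 (.d k15 k7 k133 1 10))))), (.s k1 k2 0 (.s k69 k205 9 (.s
  k129 k66 8 (.s k133 k141 1 (.s k5 k197 7 (.d k15 k10 k74 2 10))))))] (.c k149 (.q k170 [(.s k1 k2
  0 (.s k69 k205 9 (.s k138 k207 10 (.s k204 k70 10 (.d k136 k139 k68 0 9))))), (.s k66 k129 8 (.s
  k70 k204 10 (.s k74 k78 1 (.s k11 k200 8 (.d k15 k7 k133 1 10))))), (.s k1 k2 0 (.s k69 k205 9 (.s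
  k129 k66 8 (.s k133 k141 1 (.s k5 k197 7 (.d k15 k10 k74 2 10))))))] .n) (.c k170 (.q k149 [(.s k2
  k1 0 (.s k70 k204 10 (.s k138 k206 9 (.s k207 k69 10 (.d k139 k136 k71 0 9))))), (.s k1 k2 0 (.s
  k69 k205 9 (.s k129 k66 8 (.s k133 k141 1 (.s k5 k197 7 (.d k15 k10 k74 2 10)))))), (.s k66 k129 8
  (.s k70 k204 10 (.s k74 k78 1 (.s k11 k200 8 (.d k15 k7 k133 1 10)))))] .n) .n))) (.c k129 (.q
  k137 [(.s k1 k2 0 (.s k69 k205 9 (.s k138 k207 10 (.s k204 k70 10 (.d k136 k139 k68 0 9))))), (.s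
  k64 k128 7 (.s k204 k70 10 (.s k68 k136 9 (.s k72 k76 1 (.s k132 k12 9 (.d k196 k200 k4 1 7)))))),
  (.s k1 k2 0 (.s k64 k128 7 (.s k69 k205 9 (.s k74 k79 2 (.s k11 k200 8 (.d k15 k7 k133 1 10))))))]
  .n) (.c k130 (.q k137 [(.s k2 k1 0 (.s k70 k204 10 (.s k138 k206 9 (.s k207 k69 10 (.d k139 k136
  k71 0 9))))), (.s k1 k2 0 (.s k64 k128 7 (.s k69 k205 9 (.s k74 k79 2 (.s k11 k200 8 (.d k15 k7
  k133 1 10)))))), (.s k66 k129 8 (.s k70 k204 10 (.s k74 k78 1 (.s k11 k200 8 (.d k15 k7 k133 1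
  10)))))] .n) (.c k131 (.l (.s k2 k1 0 (.s k64 k128 7 (.s k66 k129 8 (.s k130 k194 7 (.d k65 k67
  k195 0 8)))))) (.c k193 (.l (.s k2 k1 0 (.s k64 k128 7 (.s k66 k129 8 (.s k65 k67 0 (.d k130 k194
  k195 7 8)))))) .n))))))))))) (.c k193 (.l (.s k2 k1 0 (.s k64 k128 7 (.s k66 k129 8 (.s k65 k67 0
  (.d k130 k194 k195 7 8)))))) (.c k194 (.l (.s k1 k2 0 (.s k128 k64 7 (.s k129 k66 8 (.s k130 k131
  0 (.d k65 k193 k195 7 8)))))) (.c k195 (.q k137 [(.s k1 k2 0 (.s k64 k128 7 (.s k69 k205 9 (.s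
  k129 k66 8 (.s k74 k79 2 (.d k133 k141 k15 1 10)))))), (.s k1 k2 0 (.s k69 k205 9 (.s k138 k207 10
  (.s k204 k70 10 (.d k136 k139 k68 0 9))))), (.s k66 k129 8 (.s k70 k204 10 (.s k74 k78 1 (.s k11
  k200 8 (.d k15 k7 k133 1 10)))))] (.c k107 (.q k151 [(.s k1 k2 0 (.s k64 k128 7 (.s k69 k205 9 (.s
  k129 k66 8 (.s k74 k79 2 (.d k133 k141 k15 1 10)))))), (.s k1 k2 0 (.s k69 k205 9 (.s k138 k207 10
  (.s k204 k70 10 (.d k136 k139 k68 0 9))))), (.s k66 k129 8 (.s k70 k204 10 (.s k74 k78 1 (.s k11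
  k200 8 (.d k15 k7 k133 1 10)))))] (.c k127 (.q k191 [(.s k129 k66 8 (.s k131 k171 5 (.d k128 k130
  k64 0 7))), (.s k1 k2 0 (.s k69 k205 9 (.s k138 k207 10 (.s k204 k70 10 (.d k136 k139 k68 0
  9)))))] (.c k67 (.q k87 [(.s k129 k66 8 (.s k131 k171 5 (.d k128 k64 k130 7 0))), (.s k1 k2 0 (.s
  k69 k205 9 (.s k138 k207 10 (.s k204 k70 10 (.d k136 k139 k68 0 9)))))] (.c k215 (.q k235 [(.s
  k129 k66 8 (.s k131 k171 5 (.d k128 k64 k130 7 0))), (.s k1 k2 0 (.s k69 k205 9 (.s k138 k207 10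
  (.s k204 k70 10 (.d k136 k139 k68 0 9)))))] .n) (.c k235 (.l (.s k215 k23 7 (.s k1 k2 0 (.s k128
  k64 7 (.s k129 k66 8 (.s k65 k193 7 (.d k131 k130 k171 0 5))))))) .n))) (.c k87 (.q k67 [(.s k64
  k128 7 (.d k66 k65 k129 0 8)), (.s k1 k2 0 (.s k69 k205 9 (.s k138 k207 10 (.s k204 k70 10 (.d
  k136 k139 k68 0 9)))))] (.c k215 (.q k235 [(.s k64 k128 7 (.d k66 k65 k129 0 8)), (.s k1 k2 0 (.s
  k69 k205 9 (.s k138 k207 10 (.s k204 k70 10 (.d k136 k139 k68 0 9)))))] .n) (.c k235 (.q k215 [(.s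
  k64 k128 7 (.d k66 k65 k129 0 8)), (.s k1 k2 0 (.s k69 k205 9 (.s k138 k207 10 (.s k204 k70 10 (.d
  k136 k139 k68 0 9)))))] (.c k43 (.l (.s k171 k131 5 (.s k64 k128 7 (.d k66 k129 k65 8 0)))) (.c
  k171 (.q k43 [(.s k64 k128 7 (.d k66 k65 k129 0 8)), (.s k1 k2 0 (.s k69 k205 9 (.s k138 k207 10
  (.s k204 k70 10 (.d k136 k139 k68 0 9)))))] .n) .n))) .n))) (.c k215 (.q k235 [(.s k129 k66 8 (.s
  k131 k171 5 (.d k128 k130 k64 0 7))), (.s k1 k2 0 (.s k69 k205 9 (.s k138 k207 10 (.s k204 k70 10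
  (.d k136 k139 k68 0 9)))))] (.c k67 (.q k87 [(.s k129 k66 8 (.s k131 k171 5 (.d k128 k64 k130 7
  0))), (.s k1 k2 0 (.s k69 k205 9 (.s k138 k207 10 (.s k204 k70 10 (.d k136 k139 k68 0 9)))))] .n)
  (.c k87 (.q k67 [(.s k64 k128 7 (.d k66 k65 k129 0 8)), (.s k1 k2 0 (.s k69 k205 9 (.s k138 k207
  10 (.s k204 k70 10 (.d k136 k139 k68 0 9)))))] .n) .n))) (.c k235 (.q k215 [(.s k128 k64 7 (.s
  k129 k66 8 (.d k131 k171 k130 5 0))), (.s k1 k2 0 (.s k69 k205 9 (.s k138 k207 10 (.s k204 k70 10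
  (.d k136 k139 k68 0 9)))))] (.c k43 (.l (.s k171 k131 5 (.s k1 k2 0 (.s k69 k205 9 (.s k138 k207
  10 (.s k204 k70 10 (.d k136 k139 k68 0 9))))))) (.c k67 (.l (.s k87 k23 7 (.s k1 k2 0 (.s k128 k64
  7 (.s k129 k66 8 (.s k65 k193 7 (.d k131 k130 k171 0 5))))))) (.c k87 (.q k67 [(.s k64 k128 7 (.d
  k66 k65 k129 0 8)), (.s k1 k2 0 (.s k69 k205 9 (.s k138 k207 10 (.s k204 k70 10 (.d k136 k139 k68
  0 9)))))] (.c k43 (.l (.s k171 k131 5 (.s k64 k128 7 (.d k66 k129 k65 8 0)))) (.c k171 (.q k43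
  [(.s k64 k128 7 (.d k66 k65 k129 0 8)), (.s k1 k2 0 (.s k69 k205 9 (.s k138 k207 10 (.s k204 k70
  10 (.d k136 k139 k68 0 9)))))] .n) .n))) (.c k171 (.q k43 [(.s k1 k2 0 (.s k64 k128 7 (.s k69 k205
  9 (.s k129 k66 8 (.s k74 k79 2 (.d k133 k141 k15 1 10)))))), (.s k2 k1 0 (.s k70 k204 10 (.s k138
  k206 9 (.s k207 k69 10 (.d k139 k136 k71 0 9))))), (.s k66 k129 8 (.s k70 k204 10 (.s k74 k78 1
  (.s k11 k200 8 (.d k15 k7 k133 1 10)))))] (.c k67 (.l (.s k87 k23 7 (.s k1 k2 0 (.s k69 k205 9 (.s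
  k138 k207 10 (.s k204 k70 10 (.d k136 k139 k68 0 9))))))) (.c k87 (.q k67 [(.s k64 k128 7 (.d k66
  k65 k129 0 8)), (.s k1 k2 0 (.s k69 k205 9 (.s k138 k207 10 (.s k204 k70 10 (.d k136 k139 k68 0
  9)))))] .n) .n))) .n))))) .n))))) (.c k191 (.q k127 [(.s k1 k2 0 (.s k64 k128 7 (.s k69 k205 9 (.s
  k129 k66 8 (.s k74 k79 2 (.d k133 k141 k15 1 10)))))), (.s k1 k2 0 (.s k69 k205 9 (.s k138 k207 10
  (.s k204 k70 10 (.d k136 k139 k68 0 9))))), (.s k66 k129 8 (.s k70 k204 10 (.s k74 k78 1 (.s k11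
  k200 8 (.d k15 k7 k133 1 10)))))] (.c k215 (.q k235 [(.s k1 k2 0 (.s k64 k128 7 (.s k69 k205 9 (.s
  k129 k66 8 (.s k74 k79 2 (.d k133 k141 k15 1 10)))))), (.s k1 k2 0 (.s k69 k205 9 (.s k138 k207 10
  (.s k204 k70 10 (.d k136 k139 k68 0 9))))), (.s k66 k129 8 (.s k70 k204 10 (.s k74 k78 1 (.s k11
  k200 8 (.d k15 k7 k133 1 10)))))] .n) (.c k235 (.q k215 [(.s k1 k2 0 (.s k64 k128 7 (.s k69 k205 9
  (.s k129 k66 8 (.s k74 k79 2 (.d k133 k141 k15 1 10)))))), (.s k1 k2 0 (.s k69 k205 9 (.s k138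
  k207 10 (.s k204 k70 10 (.d k136 k139 k68 0 9))))), (.s k66 k129 8 (.s k70 k204 10 (.s k74 k78 1
  (.s k11 k200 8 (.d k15 k7 k133 1 10)))))] (.c k43 (.q k171 [(.s k1 k2 0 (.s k64 k128 7 (.s k69
  k205 9 (.s k129 k66 8 (.s k74 k79 2 (.d k133 k141 k15 1 10)))))), (.s k1 k2 0 (.s k69 k205 9 (.s
  k138 k207 10 (.s k204 k70 10 (.d k136 k139 k68 0 9))))), (.s k66 k129 8 (.s k70 k204 10 (.s k74
  k78 1 (.s k11 k200 8 (.d k15 k7 k133 1 10)))))] .n) (.c k171 (.q k43 [(.s k64 k128 7 (.s k66 k129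
  8 (.s k106 k85 6 (.s k169 k232 8 (.d k86 k126 k252 5 14))))), (.s k1 k2 0 (.s k69 k205 9 (.s k138
  k207 10 (.s k204 k70 10 (.d k136 k139 k68 0 9)))))] .n) .n))) .n))) (.c k215 (.q k235 [(.s k1 k2 0
  (.s k64 k128 7 (.s k69 k205 9 (.s k129 k66 8 (.s k74 k79 2 (.d k133 k141 k15 1 10)))))), (.s k1 k2
  0 (.s k69 k205 9 (.s k138 k207 10 (.s k204 k70 10 (.d k136 k139 k68 0 9))))), (.s k66 k129 8 (.s
  k70 k204 10 (.s k74 k78 1 (.s k11 k200 8 (.d k15 k7 k133 1 10)))))] (.c k127 (.q k191 [(.s k129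
  k66 8 (.s k131 k171 5 (.d k128 k130 k64 0 7))), (.s k1 k2 0 (.s k69 k205 9 (.s k138 k207 10 (.s
  k204 k70 10 (.d k136 k139 k68 0 9)))))] (.c k67 (.q k87 [(.s k129 k66 8 (.s k131 k171 5 (.d k128
  k64 k130 7 0))), (.s k1 k2 0 (.s k69 k205 9 (.s k138 k207 10 (.s k204 k70 10 (.d k136 k139 k68 0
  9)))))] .n) (.c k87 (.q k67 [(.s k64 k128 7 (.d k66 k65 k129 0 8)), (.s k1 k2 0 (.s k69 k205 9 (.s
  k138 k207 10 (.s k204 k70 10 (.d k136 k139 k68 0 9)))))] .n) .n))) (.c k191 (.q k127 [(.s k1 k2 0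
  (.s k64 k128 7 (.s k69 k205 9 (.s k129 k66 8 (.s k74 k79 2 (.d k133 k141 k15 1 10)))))), (.s k1 k2
  0 (.s k69 k205 9 (.s k138 k207 10 (.s k204 k70 10 (.d k136 k139 k68 0 9))))), (.s k66 k129 8 (.s
  k70 k204 10 (.s k74 k78 1 (.s k11 k200 8 (.d k15 k7 k133 1 10)))))] .n) .n))) (.c k235 (.q k215
  [(.s k1 k2 0 (.s k64 k128 7 (.s k69 k205 9 (.s k129 k66 8 (.s k74 k79 2 (.d k133 k141 k15 1
  10)))))), (.s k1 k2 0 (.s k69 k205 9 (.s k138 k207 10 (.s k204 k70 10 (.d k136 k139 k68 0 9))))),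
  (.s k66 k129 8 (.s k70 k204 10 (.s k74 k78 1 (.s k11 k200 8 (.d k15 k7 k133 1 10)))))] (.c k43 (.q
  k171 [(.s k128 k64 7 (.s k129 k66 8 (.d k131 k191 k130 5 0))), (.s k1 k2 0 (.s k69 k205 9 (.s k138
  k207 10 (.s k204 k70 10 (.d k136 k139 k68 0 9)))))] (.c k127 (.l (.s k191 k131 5 (.s k1 k2 0 (.s
  k69 k205 9 (.s k138 k207 10 (.s k204 k70 10 (.d k136 k139 k68 0 9))))))) (.c k191 (.q k127 [(.s k1
  k2 0 (.s k64 k128 7 (.s k69 k205 9 (.s k129 k66 8 (.s k74 k79 2 (.d k133 k141 k15 1 10)))))), (.s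
  k1 k2 0 (.s k69 k205 9 (.s k138 k207 10 (.s k204 k70 10 (.d k136 k139 k68 0 9))))), (.s k66 k129 8
  (.s k70 k204 10 (.s k74 k78 1 (.s k11 k200 8 (.d k15 k7 k133 1 10)))))] .n) .n))) (.c k127 (.q
  k191 [(.s k128 k64 7 (.s k129 k66 8 (.d k131 k171 k130 5 0))), (.s k1 k2 0 (.s k69 k205 9 (.s k138
  k207 10 (.s k204 k70 10 (.d k136 k139 k68 0 9)))))] (.c k43 (.l (.s k171 k131 5 (.s k1 k2 0 (.s
  k69 k205 9 (.s k138 k207 10 (.s k204 k70 10 (.d k136 k139 k68 0 9))))))) (.c k67 (.l (.s k87 k23 7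
  (.s k1 k2 0 (.s k128 k64 7 (.s k129 k66 8 (.s k65 k193 7 (.d k131 k130 k171 0 5))))))) (.c k87 (.q
  k67 [(.s k64 k128 7 (.d k66 k65 k129 0 8)), (.s k1 k2 0 (.s k69 k205 9 (.s k138 k207 10 (.s k204
  k70 10 (.d k136 k139 k68 0 9)))))] (.c k43 (.l (.s k171 k131 5 (.s k64 k128 7 (.d k66 k129 k65 8
  0)))) (.c k171 (.q k43 [(.s k64 k128 7 (.d k66 k65 k129 0 8)), (.s k1 k2 0 (.s k69 k205 9 (.s k138
  k207 10 (.s k204 k70 10 (.d k136 k139 k68 0 9)))))] .n) .n))) (.c k171 (.q k43 [(.s k1 k2 0 (.s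
  k64 k128 7 (.s k69 k205 9 (.s k129 k66 8 (.s k74 k79 2 (.d k133 k141 k15 1 10)))))), (.s k2 k1 0
  (.s k70 k204 10 (.s k138 k206 9 (.s k207 k69 10 (.d k139 k136 k71 0 9))))), (.s k66 k129 8 (.s k70
  k204 10 (.s k74 k78 1 (.s k11 k200 8 (.d k15 k7 k133 1 10)))))] (.c k67 (.l (.s k87 k23 7 (.s k1
  k2 0 (.s k69 k205 9 (.s k138 k207 10 (.s k204 k70 10 (.d k136 k139 k68 0 9))))))) (.c k87 (.q k67
  [(.s k64 k128 7 (.d k66 k65 k129 0 8)), (.s k1 k2 0 (.s k69 k205 9 (.s k138 k207 10 (.s k204 k70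
  10 (.d k136 k139 k68 0 9)))))] .n) .n))) .n))))) (.c k171 (.q k43 [(.s k1 k2 0 (.s k64 k128 7 (.s
  k69 k205 9 (.s k129 k66 8 (.s k74 k79 2 (.d k133 k141 k15 1 10)))))), (.s k1 k2 0 (.s k69 k205 9
  (.s k138 k207 10 (.s k204 k70 10 (.d k136 k139 k68 0 9))))), (.s k66 k129 8 (.s k70 k204 10 (.s
  k74 k78 1 (.s k11 k200 8 (.d k15 k7 k133 1 10)))))] (.c k127 (.q k191 [(.s k1 k2 0 (.s k64 k128 7
  (.s k69 k205 9 (.s k129 k66 8 (.s k74 k79 2 (.d k133 k141 k15 1 10)))))), (.s k2 k1 0 (.s k70 k204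
  10 (.s k138 k206 9 (.s k207 k69 10 (.d k139 k136 k71 0 9))))), (.s k66 k129 8 (.s k70 k204 10 (.s
  k74 k78 1 (.s k11 k200 8 (.d k15 k7 k133 1 10)))))] (.c k67 (.l (.s k87 k23 7 (.s k1 k2 0 (.s k69
  k205 9 (.s k138 k207 10 (.s k204 k70 10 (.d k136 k139 k68 0 9))))))) (.c k87 (.q k67 [(.s k64 k128
  7 (.d k66 k65 k129 0 8)), (.s k1 k2 0 (.s k69 k205 9 (.s k138 k207 10 (.s k204 k70 10 (.d k136
  k139 k68 0 9)))))] .n) .n))) (.c k191 (.q k127 [(.s k64 k128 7 (.s k66 k129 8 (.s k106 k85 6 (.s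
  k169 k232 8 (.d k86 k126 k252 5 14))))), (.s k1 k2 0 (.s k69 k205 9 (.s k138 k207 10 (.s k204 k70
  10 (.d k136 k139 k68 0 9)))))] .n) .n))) (.c k191 (.q k127 [(.s k1 k2 0 (.s k64 k128 7 (.s k69
  k205 9 (.s k129 k66 8 (.s k74 k79 2 (.d k133 k141 k15 1 10)))))), (.s k1 k2 0 (.s k69 k205 9 (.s
  k138 k207 10 (.s k204 k70 10 (.d k136 k139 k68 0 9))))), (.s k66 k129 8 (.s k70 k204 10 (.s k74
  k78 1 (.s k11 k200 8 (.d k15 k7 k133 1 10)))))] (.c k43 (.q k171 [(.s k1 k2 0 (.s k64 k128 7 (.s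
  k69 k205 9 (.s k129 k66 8 (.s k74 k79 2 (.d k133 k141 k15 1 10)))))), (.s k1 k2 0 (.s k69 k205 9
  (.s k138 k207 10 (.s k204 k70 10 (.d k136 k139 k68 0 9))))), (.s k66 k129 8 (.s k70 k204 10 (.s
  k74 k78 1 (.s k11 k200 8 (.d k15 k7 k133 1 10)))))] .n) (.c k171 (.q k43 [(.s k64 k128 7 (.s k66
  k129 8 (.s k106 k85 6 (.s k169 k232 8 (.d k86 k126 k252 5 14))))), (.s k1 k2 0 (.s k69 k205 9 (.s
  k138 k207 10 (.s k204 k70 10 (.d k136 k139 k68 0 9)))))] .n) .n))) .n))))) .n))))) (.c k127 (.q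
  k191 [(.s k1 k2 0 (.s k64 k128 7 (.s k69 k205 9 (.s k129 k66 8 (.s k74 k79 2 (.d k133 k141 k15 1
  10)))))), (.s k2 k1 0 (.s k70 k204 10 (.s k138 k206 9 (.s k207 k69 10 (.d k139 k136 k71 0 9))))),
  (.s k66 k129 8 (.s k70 k204 10 (.s k74 k78 1 (.s k11 k200 8 (.d k15 k7 k133 1 10)))))] (.c k107
  (.q k151 [(.s k129 k66 8 (.s k131 k171 5 (.d k128 k130 k64 0 7))), (.s k1 k2 0 (.s k69 k205 9 (.s
  k138 k207 10 (.s k204 k70 10 (.d k136 k139 k68 0 9)))))] (.c k67 (.q k87 [(.s k129 k66 8 (.s k131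
  k171 5 (.d k128 k64 k130 7 0))), (.s k1 k2 0 (.s k69 k205 9 (.s k138 k207 10 (.s k204 k70 10 (.d
  k136 k139 k68 0 9)))))] (.c k215 (.q k235 [(.s k129 k66 8 (.s k131 k171 5 (.d k128 k64 k130 7
  0))), (.s k1 k2 0 (.s k69 k205 9 (.s k138 k207 10 (.s k204 k70 10 (.d k136 k139 k68 0 9)))))] .n)
  (.c k235 (.l (.s k215 k23 7 (.s k1 k2 0 (.s k128 k64 7 (.s k129 k66 8 (.s k65 k193 7 (.d k131 k130
  k171 0 5))))))) .n))) (.c k87 (.q k67 [(.s k64 k128 7 (.d k66 k65 k129 0 8)), (.s k1 k2 0 (.s k69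
  k205 9 (.s k138 k207 10 (.s k204 k70 10 (.d k136 k139 k68 0 9)))))] (.c k215 (.q k235 [(.s k64
  k128 7 (.d k66 k65 k129 0 8)), (.s k1 k2 0 (.s k69 k205 9 (.s k138 k207 10 (.s k204 k70 10 (.d
  k136 k139 k68 0 9)))))] .n) (.c k235 (.q k215 [(.s k64 k128 7 (.d k66 k65 k129 0 8)), (.s k1 k2 0
  (.s k69 k205 9 (.s k138 k207 10 (.s k204 k70 10 (.d k136 k139 k68 0 9)))))] (.c k43 (.l (.s k171
  k131 5 (.s k64 k128 7 (.d k66 k129 k65 8 0)))) (.c k171 (.q k43 [(.s k64 k128 7 (.d k66 k65 k129 0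
  8)), (.s k1 k2 0 (.s k69 k205 9 (.s k138 k207 10 (.s k204 k70 10 (.d k136 k139 k68 0 9)))))] .n)
  .n))) .n))) (.c k215 (.q k235 [(.s k129 k66 8 (.s k131 k171 5 (.d k128 k130 k64 0 7))), (.s k1 k2
  0 (.s k69 k205 9 (.s k138 k207 10 (.s k204 k70 10 (.d k136 k139 k68 0 9)))))] (.c k67 (.q k87 [(.s
  k129 k66 8 (.s k131 k171 5 (.d k128 k64 k130 7 0))), (.s k1 k2 0 (.s k69 k205 9 (.s k138 k207 10
  (.s k204 k70 10 (.d k136 k139 k68 0 9)))))] .n) (.c k87 (.q k67 [(.s k64 k128 7 (.d k66 k65 k129 0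
  8)), (.s k1 k2 0 (.s k69 k205 9 (.s k138 k207 10 (.s k204 k70 10 (.d k136 k139 k68 0 9)))))] .n)
  .n))) (.c k235 (.q k215 [(.s k128 k64 7 (.s k129 k66 8 (.d k131 k171 k130 5 0))), (.s k1 k2 0 (.s
  k69 k205 9 (.s k138 k207 10 (.s k204 k70 10 (.d k136 k139 k68 0 9)))))] (.c k43 (.l (.s k171 k131
  5 (.s k1 k2 0 (.s k69 k205 9 (.s k138 k207 10 (.s k204 k70 10 (.d k136 k139 k68 0 9))))))) (.c k67
  (.l (.s k87 k23 7 (.s k1 k2 0 (.s k128 k64 7 (.s k129 k66 8 (.s k65 k193 7 (.d k131 k130 k171 0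
  5))))))) (.c k87 (.q k67 [(.s k64 k128 7 (.d k66 k65 k129 0 8)), (.s k1 k2 0 (.s k69 k205 9 (.s
  k138 k207 10 (.s k204 k70 10 (.d k136 k139 k68 0 9)))))] (.c k43 (.l (.s k171 k131 5 (.s k64 k128
  7 (.d k66 k129 k65 8 0)))) (.c k171 (.q k43 [(.s k64 k128 7 (.d k66 k65 k129 0 8)), (.s k1 k2 0
  (.s k69 k205 9 (.s k138 k207 10 (.s k204 k70 10 (.d k136 k139 k68 0 9)))))] .n) .n))) (.c k171 (.q
  k43 [(.s k1 k2 0 (.s k64 k128 7 (.s k69 k205 9 (.s k129 k66 8 (.s k74 k79 2 (.d k133 k141 k15 1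
  10)))))), (.s k2 k1 0 (.s k70 k204 10 (.s k138 k206 9 (.s k207 k69 10 (.d k139 k136 k71 0 9))))),
  (.s k66 k129 8 (.s k70 k204 10 (.s k74 k78 1 (.s k11 k200 8 (.d k15 k7 k133 1 10)))))] (.c k67 (.l
  (.s k87 k23 7 (.s k1 k2 0 (.s k69 k205 9 (.s k138 k207 10 (.s k204 k70 10 (.d k136 k139 k68 0
  9))))))) (.c k87 (.q k67 [(.s k64 k128 7 (.d k66 k65 k129 0 8)), (.s k1 k2 0 (.s k69 k205 9 (.s
  k138 k207 10 (.s k204 k70 10 (.d k136 k139 k68 0 9)))))] .n) .n))) .n))))) .n))))) (.c k151 (.q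
  k107 [(.s k1 k2 0 (.s k64 k128 7 (.s k69 k205 9 (.s k129 k66 8 (.s k74 k79 2 (.d k133 k141 k15 1
  10)))))), (.s k2 k1 0 (.s k70 k204 10 (.s k138 k206 9 (.s k207 k69 10 (.d k139 k136 k71 0 9))))),
  (.s k66 k129 8 (.s k70 k204 10 (.s k74 k78 1 (.s k11 k200 8 (.d k15 k7 k133 1 10)))))] (.c k215
  (.q k235 [(.s k1 k2 0 (.s k64 k128 7 (.s k69 k205 9 (.s k129 k66 8 (.s k74 k79 2 (.d k133 k141 k15
  1 10)))))), (.s k2 k1 0 (.s k70 k204 10 (.s k138 k206 9 (.s k207 k69 10 (.d k139 k136 k71 0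
  9))))), (.s k66 k129 8 (.s k70 k204 10 (.s k74 k78 1 (.s k11 k200 8 (.d k15 k7 k133 1 10)))))] (.c
  k23 (.q k87 [(.s k1 k2 0 (.s k64 k128 7 (.s k69 k205 9 (.s k129 k66 8 (.s k74 k79 2 (.d k133 k141
  k15 1 10)))))), (.s k2 k1 0 (.s k70 k204 10 (.s k138 k206 9 (.s k207 k69 10 (.d k139 k136 k71 0
  9))))), (.s k66 k129 8 (.s k70 k204 10 (.s k74 k78 1 (.s k11 k200 8 (.d k15 k7 k133 1 10)))))] .n)
  (.c k87 (.q k23 [(.s k128 k64 7 (.s k129 k66 8 (.s k149 k170 6 (.s k86 k212 8 (.d k169 k189 k252 5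
  14))))), (.s k1 k2 0 (.s k69 k205 9 (.s k138 k207 10 (.s k204 k70 10 (.d k136 k139 k68 0 9)))))]
  .n) .n))) (.c k235 (.q k215 [(.s k1 k2 0 (.s k64 k128 7 (.s k69 k205 9 (.s k129 k66 8 (.s k74 k79
  2 (.d k133 k141 k15 1 10)))))), (.s k2 k1 0 (.s k70 k204 10 (.s k138 k206 9 (.s k207 k69 10 (.d
  k139 k136 k71 0 9))))), (.s k66 k129 8 (.s k70 k204 10 (.s k74 k78 1 (.s k11 k200 8 (.d k15 k7
  k133 1 10)))))] .n) .n))) (.c k215 (.q k235 [(.s k1 k2 0 (.s k64 k128 7 (.s k69 k205 9 (.s k129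
  k66 8 (.s k74 k79 2 (.d k133 k141 k15 1 10)))))), (.s k2 k1 0 (.s k70 k204 10 (.s k138 k206 9 (.s
  k207 k69 10 (.d k139 k136 k71 0 9))))), (.s k66 k129 8 (.s k70 k204 10 (.s k74 k78 1 (.s k11 k200
  8 (.d k15 k7 k133 1 10)))))] (.c k107 (.q k151 [(.s k129 k66 8 (.s k131 k171 5 (.d k128 k130 k64 0
  7))), (.s k1 k2 0 (.s k69 k205 9 (.s k138 k207 10 (.s k204 k70 10 (.d k136 k139 k68 0 9)))))] (.c
  k67 (.q k87 [(.s k129 k66 8 (.s k131 k171 5 (.d k128 k64 k130 7 0))), (.s k1 k2 0 (.s k69 k205 9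
  (.s k138 k207 10 (.s k204 k70 10 (.d k136 k139 k68 0 9)))))] .n) (.c k87 (.q k67 [(.s k64 k128 7
  (.d k66 k65 k129 0 8)), (.s k1 k2 0 (.s k69 k205 9 (.s k138 k207 10 (.s k204 k70 10 (.d k136 k139
  k68 0 9)))))] .n) .n))) (.c k151 (.q k107 [(.s k1 k2 0 (.s k64 k128 7 (.s k69 k205 9 (.s k129 k66
  8 (.s k74 k79 2 (.d k133 k141 k15 1 10)))))), (.s k2 k1 0 (.s k70 k204 10 (.s k138 k206 9 (.s k207
  k69 10 (.d k139 k136 k71 0 9))))), (.s k66 k129 8 (.s k70 k204 10 (.s k74 k78 1 (.s k11 k200 8 (.d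
  k15 k7 k133 1 10)))))] (.c k23 (.q k87 [(.s k1 k2 0 (.s k64 k128 7 (.s k69 k205 9 (.s k129 k66 8
  (.s k74 k79 2 (.d k133 k141 k15 1 10)))))), (.s k2 k1 0 (.s k70 k204 10 (.s k138 k206 9 (.s k207
  k69 10 (.d k139 k136 k71 0 9))))), (.s k66 k129 8 (.s k70 k204 10 (.s k74 k78 1 (.s k11 k200 8 (.d
  k15 k7 k133 1 10)))))] .n) (.c k87 (.q k23 [(.s k128 k64 7 (.s k129 k66 8 (.s k149 k170 6 (.s k86
  k212 8 (.d k169 k189 k252 5 14))))), (.s k1 k2 0 (.s k69 k205 9 (.s k138 k207 10 (.s k204 k70 10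
  (.d k136 k139 k68 0 9)))))] .n) .n))) .n))) (.c k235 (.q k215 [(.s k1 k2 0 (.s k64 k128 7 (.s k69
  k205 9 (.s k129 k66 8 (.s k74 k79 2 (.d k133 k141 k15 1 10)))))), (.s k2 k1 0 (.s k70 k204 10 (.s
  k138 k206 9 (.s k207 k69 10 (.d k139 k136 k71 0 9))))), (.s k66 k129 8 (.s k70 k204 10 (.s k74 k78
  1 (.s k11 k200 8 (.d k15 k7 k133 1 10)))))] (.c k107 (.q k151 [(.s k128 k64 7 (.s k129 k66 8 (.d
  k131 k171 k130 5 0))), (.s k1 k2 0 (.s k69 k205 9 (.s k138 k207 10 (.s k204 k70 10 (.d k136 k139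
  k68 0 9)))))] (.c k43 (.l (.s k171 k131 5 (.s k1 k2 0 (.s k69 k205 9 (.s k138 k207 10 (.s k204 k70
  10 (.d k136 k139 k68 0 9))))))) (.c k67 (.l (.s k87 k23 7 (.s k1 k2 0 (.s k128 k64 7 (.s k129 k66
  8 (.s k65 k193 7 (.d k131 k130 k171 0 5))))))) (.c k87 (.q k67 [(.s k64 k128 7 (.d k66 k65 k129 0
  8)), (.s k1 k2 0 (.s k69 k205 9 (.s k138 k207 10 (.s k204 k70 10 (.d k136 k139 k68 0 9)))))] (.c
  k43 (.l (.s k171 k131 5 (.s k64 k128 7 (.d k66 k129 k65 8 0)))) (.c k171 (.q k43 [(.s k64 k128 7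
  (.d k66 k65 k129 0 8)), (.s k1 k2 0 (.s k69 k205 9 (.s k138 k207 10 (.s k204 k70 10 (.d k136 k139
  k68 0 9)))))] .n) .n))) (.c k171 (.q k43 [(.s k1 k2 0 (.s k64 k128 7 (.s k69 k205 9 (.s k129 k66 8
  (.s k74 k79 2 (.d k133 k141 k15 1 10)))))), (.s k2 k1 0 (.s k70 k204 10 (.s k138 k206 9 (.s k207
  k69 10 (.d k139 k136 k71 0 9))))), (.s k66 k129 8 (.s k70 k204 10 (.s k74 k78 1 (.s k11 k200 8 (.d
  k15 k7 k133 1 10)))))] (.c k67 (.l (.s k87 k23 7 (.s k1 k2 0 (.s k69 k205 9 (.s k138 k207 10 (.s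
  k204 k70 10 (.d k136 k139 k68 0 9))))))) (.c k87 (.q k67 [(.s k64 k128 7 (.d k66 k65 k129 0 8)),
  (.s k1 k2 0 (.s k69 k205 9 (.s k138 k207 10 (.s k204 k70 10 (.d k136 k139 k68 0 9)))))] .n) .n)))
  .n))))) (.c k151 (.q k107 [(.s k1 k2 0 (.s k64 k128 7 (.s k69 k205 9 (.s k129 k66 8 (.s k74 k79 2
  (.d k133 k141 k15 1 10)))))), (.s k2 k1 0 (.s k70 k204 10 (.s k138 k206 9 (.s k207 k69 10 (.d k139
  k136 k71 0 9))))), (.s k66 k129 8 (.s k70 k204 10 (.s k74 k78 1 (.s k11 k200 8 (.d k15 k7 k133 1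
  10)))))] .n) .n))) .n))))) (.c k151 (.q k107 [(.s k1 k2 0 (.s k64 k128 7 (.s k69 k205 9 (.s k129
  k66 8 (.s k74 k79 2 (.d k133 k141 k15 1 10)))))), (.s k1 k2 0 (.s k69 k205 9 (.s k138 k207 10 (.s
  k204 k70 10 (.d k136 k139 k68 0 9))))), (.s k66 k129 8 (.s k70 k204 10 (.s k74 k78 1 (.s k11 k200
  8 (.d k15 k7 k133 1 10)))))] (.c k127 (.q k191 [(.s k1 k2 0 (.s k64 k128 7 (.s k69 k205 9 (.s k129
  k66 8 (.s k74 k79 2 (.d k133 k141 k15 1 10)))))), (.s k2 k1 0 (.s k70 k204 10 (.s k138 k206 9 (.s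
  k207 k69 10 (.d k139 k136 k71 0 9))))), (.s k66 k129 8 (.s k70 k204 10 (.s k74 k78 1 (.s k11 k200
  8 (.d k15 k7 k133 1 10)))))] (.c k215 (.q k235 [(.s k1 k2 0 (.s k64 k128 7 (.s k69 k205 9 (.s k129
  k66 8 (.s k74 k79 2 (.d k133 k141 k15 1 10)))))), (.s k2 k1 0 (.s k70 k204 10 (.s k138 k206 9 (.s
  k207 k69 10 (.d k139 k136 k71 0 9))))), (.s k66 k129 8 (.s k70 k204 10 (.s k74 k78 1 (.s k11 k200
  8 (.d k15 k7 k133 1 10)))))] (.c k23 (.q k87 [(.s k1 k2 0 (.s k64 k128 7 (.s k69 k205 9 (.s k129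
  k66 8 (.s k74 k79 2 (.d k133 k141 k15 1 10)))))), (.s k2 k1 0 (.s k70 k204 10 (.s k138 k206 9 (.s
  k207 k69 10 (.d k139 k136 k71 0 9))))), (.s k66 k129 8 (.s k70 k204 10 (.s k74 k78 1 (.s k11 k200
  8 (.d k15 k7 k133 1 10)))))] .n) (.c k87 (.q k23 [(.s k128 k64 7 (.s k129 k66 8 (.s k149 k170 6
  (.s k86 k212 8 (.d k169 k189 k252 5 14))))), (.s k1 k2 0 (.s k69 k205 9 (.s k138 k207 10 (.s k204
  k70 10 (.d k136 k139 k68 0 9)))))] .n) .n))) (.c k235 (.q k215 [(.s k1 k2 0 (.s k64 k128 7 (.s k69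
  k205 9 (.s k129 k66 8 (.s k74 k79 2 (.d k133 k141 k15 1 10)))))), (.s k2 k1 0 (.s k70 k204 10 (.s
  k138 k206 9 (.s k207 k69 10 (.d k139 k136 k71 0 9))))), (.s k66 k129 8 (.s k70 k204 10 (.s k74 k78
  1 (.s k11 k200 8 (.d k15 k7 k133 1 10)))))] .n) .n))) (.c k191 (.q k127 [(.s k66 k129 8 (.s k67
  k87 5 (.d k64 k65 k128 0 7))), (.s k1 k2 0 (.s k69 k205 9 (.s k138 k207 10 (.s k204 k70 10 (.d
  k136 k139 k68 0 9)))))] (.c k131 (.q k171 [(.s k66 k129 8 (.s k67 k87 5 (.d k64 k128 k65 7 0))),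
  (.s k1 k2 0 (.s k69 k205 9 (.s k138 k207 10 (.s k204 k70 10 (.d k136 k139 k68 0 9)))))] (.c k215
  (.l (.s k235 k43 7 (.s k1 k2 0 (.s k69 k205 9 (.s k138 k207 10 (.s k204 k70 10 (.d k136 k139 k68 0
  9))))))) (.c k235 (.q k215 [(.s k66 k129 8 (.s k67 k87 5 (.d k64 k128 k65 7 0))), (.s k1 k2 0 (.s
  k69 k205 9 (.s k138 k207 10 (.s k204 k70 10 (.d k136 k139 k68 0 9)))))] .n) .n))) (.c k171 (.q
  k131 [(.s k128 k64 7 (.d k129 k130 k66 0 8)), (.s k1 k2 0 (.s k69 k205 9 (.s k138 k207 10 (.s k204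
  k70 10 (.d k136 k139 k68 0 9)))))] (.c k215 (.q k235 [(.s k128 k64 7 (.d k129 k130 k66 0 8)), (.s
  k1 k2 0 (.s k69 k205 9 (.s k138 k207 10 (.s k204 k70 10 (.d k136 k139 k68 0 9)))))] (.c k23 (.l
  (.s k87 k67 5 (.s k128 k64 7 (.d k129 k66 k130 8 0)))) (.c k87 (.q k23 [(.s k128 k64 7 (.d k129
  k130 k66 0 8)), (.s k1 k2 0 (.s k69 k205 9 (.s k138 k207 10 (.s k204 k70 10 (.d k136 k139 k68 0
  9)))))] .n) .n))) (.c k235 (.q k215 [(.s k128 k64 7 (.d k129 k130 k66 0 8)), (.s k1 k2 0 (.s k69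
  k205 9 (.s k138 k207 10 (.s k204 k70 10 (.d k136 k139 k68 0 9)))))] .n) .n))) (.c k215 (.q k235
  [(.s k64 k128 7 (.s k66 k129 8 (.d k67 k87 k65 5 0))), (.s k1 k2 0 (.s k69 k205 9 (.s k138 k207 10
  (.s k204 k70 10 (.d k136 k139 k68 0 9)))))] (.c k23 (.l (.s k87 k67 5 (.s k1 k2 0 (.s k64 k128 7
  (.s k85 k106 6 (.s k169 k253 13 (.d k86 k252 k84 14 0))))))) (.c k87 (.q k23 [(.s k1 k2 0 (.s k64
  k128 7 (.s k69 k205 9 (.s k129 k66 8 (.s k74 k79 2 (.d k133 k141 k15 1 10)))))), (.s k1 k2 0 (.s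
  k69 k205 9 (.s k138 k207 10 (.s k204 k70 10 (.d k136 k139 k68 0 9))))), (.s k66 k129 8 (.s k70
  k204 10 (.s k74 k78 1 (.s k11 k200 8 (.d k15 k7 k133 1 10)))))] (.c k131 (.l (.s k171 k43 7 (.s k1
  k2 0 (.s k69 k205 9 (.s k138 k207 10 (.s k204 k70 10 (.d k136 k139 k68 0 9))))))) (.c k171 (.q
  k131 [(.s k128 k64 7 (.d k129 k130 k66 0 8)), (.s k1 k2 0 (.s k69 k205 9 (.s k138 k207 10 (.s k204
  k70 10 (.d k136 k139 k68 0 9)))))] .n) .n))) (.c k131 (.l (.s k171 k43 7 (.s k1 k2 0 (.s k69 k205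
  9 (.s k138 k207 10 (.s k204 k70 10 (.d k136 k139 k68 0 9))))))) (.c k171 (.q k131 [(.s k128 k64 7
  (.d k129 k130 k66 0 8)), (.s k1 k2 0 (.s k69 k205 9 (.s k138 k207 10 (.s k204 k70 10 (.d k136 k139
  k68 0 9)))))] (.c k23 (.l (.s k87 k67 5 (.s k128 k64 7 (.d k129 k66 k130 8 0)))) (.c k87 (.q k23
  [(.s k128 k64 7 (.d k129 k130 k66 0 8)), (.s k1 k2 0 (.s k69 k205 9 (.s k138 k207 10 (.s k204 k70
  10 (.d k136 k139 k68 0 9)))))] .n) .n))) .n))))) (.c k235 (.q k215 [(.s k66 k129 8 (.s k67 k87 5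
  (.d k64 k65 k128 0 7))), (.s k1 k2 0 (.s k69 k205 9 (.s k138 k207 10 (.s k204 k70 10 (.d k136 k139
  k68 0 9)))))] (.c k131 (.q k171 [(.s k66 k129 8 (.s k67 k87 5 (.d k64 k128 k65 7 0))), (.s k1 k2 0
  (.s k69 k205 9 (.s k138 k207 10 (.s k204 k70 10 (.d k136 k139 k68 0 9)))))] .n) (.c k171 (.q k131
  [(.s k128 k64 7 (.d k129 k130 k66 0 8)), (.s k1 k2 0 (.s k69 k205 9 (.s k138 k207 10 (.s k204 k70
  10 (.d k136 k139 k68 0 9)))))] .n) .n))) .n))))) (.c k215 (.q k235 [(.s k1 k2 0 (.s k64 k128 7 (.s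
  k69 k205 9 (.s k129 k66 8 (.s k74 k79 2 (.d k133 k141 k15 1 10)))))), (.s k1 k2 0 (.s k69 k205 9
  (.s k138 k207 10 (.s k204 k70 10 (.d k136 k139 k68 0 9))))), (.s k66 k129 8 (.s k70 k204 10 (.s
  k74 k78 1 (.s k11 k200 8 (.d k15 k7 k133 1 10)))))] (.c k23 (.q k87 [(.s k64 k128 7 (.s k66 k129 8
  (.d k67 k127 k65 5 0))), (.s k1 k2 0 (.s k69 k205 9 (.s k138 k207 10 (.s k204 k70 10 (.d k136 k139
  k68 0 9)))))] (.c k127 (.q k191 [(.s k1 k2 0 (.s k64 k128 7 (.s k69 k205 9 (.s k129 k66 8 (.s k74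
  k79 2 (.d k133 k141 k15 1 10)))))), (.s k2 k1 0 (.s k70 k204 10 (.s k138 k206 9 (.s k207 k69 10
  (.d k139 k136 k71 0 9))))), (.s k66 k129 8 (.s k70 k204 10 (.s k74 k78 1 (.s k11 k200 8 (.d k15 k7
  k133 1 10)))))] .n) (.c k191 (.l (.s k127 k67 5 (.s k1 k2 0 (.s k64 k128 7 (.s k85 k106 6 (.s k169
  k253 13 (.d k86 k252 k84 14 0))))))) .n))) (.c k87 (.q k23 [(.s k1 k2 0 (.s k64 k128 7 (.s k69
  k205 9 (.s k129 k66 8 (.s k74 k79 2 (.d k133 k141 k15 1 10)))))), (.s k1 k2 0 (.s k69 k205 9 (.s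
  k138 k207 10 (.s k204 k70 10 (.d k136 k139 k68 0 9))))), (.s k66 k129 8 (.s k70 k204 10 (.s k74
  k78 1 (.s k11 k200 8 (.d k15 k7 k133 1 10)))))] (.c k127 (.q k191 [(.s k128 k64 7 (.s k129 k66 8
  (.s k149 k170 6 (.s k86 k212 8 (.d k169 k189 k252 5 14))))), (.s k1 k2 0 (.s k69 k205 9 (.s k138
  k207 10 (.s k204 k70 10 (.d k136 k139 k68 0 9)))))] .n) (.c k191 (.q k127 [(.s k1 k2 0 (.s k64
  k128 7 (.s k69 k205 9 (.s k129 k66 8 (.s k74 k79 2 (.d k133 k141 k15 1 10)))))), (.s k1 k2 0 (.s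
  k69 k205 9 (.s k138 k207 10 (.s k204 k70 10 (.d k136 k139 k68 0 9))))), (.s k66 k129 8 (.s k70
  k204 10 (.s k74 k78 1 (.s k11 k200 8 (.d k15 k7 k133 1 10)))))] (.c k131 (.l (.s k171 k43 7 (.s k1
  k2 0 (.s k69 k205 9 (.s k138 k207 10 (.s k204 k70 10 (.d k136 k139 k68 0 9))))))) (.c k171 (.q
  k131 [(.s k128 k64 7 (.d k129 k130 k66 0 8)), (.s k1 k2 0 (.s k69 k205 9 (.s k138 k207 10 (.s k204
  k70 10 (.d k136 k139 k68 0 9)))))] .n) .n))) .n))) (.c k127 (.q k191 [(.s k1 k2 0 (.s k64 k128 7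
  (.s k69 k205 9 (.s k129 k66 8 (.s k74 k79 2 (.d k133 k141 k15 1 10)))))), (.s k2 k1 0 (.s k70 k204
  10 (.s k138 k206 9 (.s k207 k69 10 (.d k139 k136 k71 0 9))))), (.s k66 k129 8 (.s k70 k204 10 (.s
  k74 k78 1 (.s k11 k200 8 (.d k15 k7 k133 1 10)))))] (.c k23 (.q k87 [(.s k1 k2 0 (.s k64 k128 7
  (.s k69 k205 9 (.s k129 k66 8 (.s k74 k79 2 (.d k133 k141 k15 1 10)))))), (.s k2 k1 0 (.s k70 k204
  10 (.s k138 k206 9 (.s k207 k69 10 (.d k139 k136 k71 0 9))))), (.s k66 k129 8 (.s k70 k204 10 (.s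
  k74 k78 1 (.s k11 k200 8 (.d k15 k7 k133 1 10)))))] .n) (.c k87 (.q k23 [(.s k128 k64 7 (.s k129
  k66 8 (.s k149 k170 6 (.s k86 k212 8 (.d k169 k189 k252 5 14))))), (.s k1 k2 0 (.s k69 k205 9 (.s
  k138 k207 10 (.s k204 k70 10 (.d k136 k139 k68 0 9)))))] .n) .n))) (.c k191 (.q k127 [(.s k64 k128
  7 (.s k66 k129 8 (.d k67 k87 k65 5 0))), (.s k1 k2 0 (.s k69 k205 9 (.s k138 k207 10 (.s k204 k70
  10 (.d k136 k139 k68 0 9)))))] (.c k23 (.l (.s k87 k67 5 (.s k1 k2 0 (.s k64 k128 7 (.s k85 k106 6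
  (.s k169 k253 13 (.d k86 k252 k84 14 0))))))) (.c k87 (.q k23 [(.s k1 k2 0 (.s k64 k128 7 (.s k69
  k205 9 (.s k129 k66 8 (.s k74 k79 2 (.d k133 k141 k15 1 10)))))), (.s k1 k2 0 (.s k69 k205 9 (.s
  k138 k207 10 (.s k204 k70 10 (.d k136 k139 k68 0 9))))), (.s k66 k129 8 (.s k70 k204 10 (.s k74
  k78 1 (.s k11 k200 8 (.d k15 k7 k133 1 10)))))] (.c k131 (.l (.s k171 k43 7 (.s k1 k2 0 (.s k69
  k205 9 (.s k138 k207 10 (.s k204 k70 10 (.d k136 k139 k68 0 9))))))) (.c k171 (.q k131 [(.s k128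
  k64 7 (.d k129 k130 k66 0 8)), (.s k1 k2 0 (.s k69 k205 9 (.s k138 k207 10 (.s k204 k70 10 (.d
  k136 k139 k68 0 9)))))] .n) .n))) (.c k131 (.l (.s k171 k43 7 (.s k1 k2 0 (.s k69 k205 9 (.s k138
  k207 10 (.s k204 k70 10 (.d k136 k139 k68 0 9))))))) (.c k171 (.q k131 [(.s k128 k64 7 (.d k129
  k130 k66 0 8)), (.s k1 k2 0 (.s k69 k205 9 (.s k138 k207 10 (.s k204 k70 10 (.d k136 k139 k68 0
  9)))))] (.c k23 (.l (.s k87 k67 5 (.s k128 k64 7 (.d k129 k66 k130 8 0)))) (.c k87 (.q k23 [(.s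
  k128 k64 7 (.d k129 k130 k66 0 8)), (.s k1 k2 0 (.s k69 k205 9 (.s k138 k207 10 (.s k204 k70 10
  (.d k136 k139 k68 0 9)))))] .n) .n))) .n))))) .n))))) (.c k235 (.q k215 [(.s k1 k2 0 (.s k64 k128
  7 (.s k69 k205 9 (.s k129 k66 8 (.s k74 k79 2 (.d k133 k141 k15 1 10)))))), (.s k1 k2 0 (.s k69
  k205 9 (.s k138 k207 10 (.s k204 k70 10 (.d k136 k139 k68 0 9))))), (.s k66 k129 8 (.s k70 k204 10
  (.s k74 k78 1 (.s k11 k200 8 (.d k15 k7 k133 1 10)))))] (.c k127 (.q k191 [(.s k1 k2 0 (.s k64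
  k128 7 (.s k69 k205 9 (.s k129 k66 8 (.s k74 k79 2 (.d k133 k141 k15 1 10)))))), (.s k2 k1 0 (.s
  k70 k204 10 (.s k138 k206 9 (.s k207 k69 10 (.d k139 k136 k71 0 9))))), (.s k66 k129 8 (.s k70
  k204 10 (.s k74 k78 1 (.s k11 k200 8 (.d k15 k7 k133 1 10)))))] .n) (.c k191 (.q k127 [(.s k66
  k129 8 (.s k67 k87 5 (.d k64 k65 k128 0 7))), (.s k1 k2 0 (.s k69 k205 9 (.s k138 k207 10 (.s k204
  k70 10 (.d k136 k139 k68 0 9)))))] (.c k131 (.q k171 [(.s k66 k129 8 (.s k67 k87 5 (.d k64 k128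
  k65 7 0))), (.s k1 k2 0 (.s k69 k205 9 (.s k138 k207 10 (.s k204 k70 10 (.d k136 k139 k68 0
  9)))))] .n) (.c k171 (.q k131 [(.s k128 k64 7 (.d k129 k130 k66 0 8)), (.s k1 k2 0 (.s k69 k205 9
  (.s k138 k207 10 (.s k204 k70 10 (.d k136 k139 k68 0 9)))))] .n) .n))) .n))) .n))))) (.c k191 (.q
  k127 [(.s k1 k2 0 (.s k64 k128 7 (.s k69 k205 9 (.s k129 k66 8 (.s k74 k79 2 (.d k133 k141 k15 1
  10)))))), (.s k1 k2 0 (.s k69 k205 9 (.s k138 k207 10 (.s k204 k70 10 (.d k136 k139 k68 0 9))))),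
  (.s k66 k129 8 (.s k70 k204 10 (.s k74 k78 1 (.s k11 k200 8 (.d k15 k7 k133 1 10)))))] (.c k107
  (.q k151 [(.s k1 k2 0 (.s k64 k128 7 (.s k69 k205 9 (.s k129 k66 8 (.s k74 k79 2 (.d k133 k141 k15
  1 10)))))), (.s k1 k2 0 (.s k69 k205 9 (.s k138 k207 10 (.s k204 k70 10 (.d k136 k139 k68 0
  9))))), (.s k66 k129 8 (.s k70 k204 10 (.s k74 k78 1 (.s k11 k200 8 (.d k15 k7 k133 1 10)))))] (.c
  k215 (.q k235 [(.s k1 k2 0 (.s k64 k128 7 (.s k69 k205 9 (.s k129 k66 8 (.s k74 k79 2 (.d k133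
  k141 k15 1 10)))))), (.s k1 k2 0 (.s k69 k205 9 (.s k138 k207 10 (.s k204 k70 10 (.d k136 k139 k68
  0 9))))), (.s k66 k129 8 (.s k70 k204 10 (.s k74 k78 1 (.s k11 k200 8 (.d k15 k7 k133 1 10)))))]
  .n) (.c k235 (.q k215 [(.s k1 k2 0 (.s k64 k128 7 (.s k69 k205 9 (.s k129 k66 8 (.s k74 k79 2 (.d
  k133 k141 k15 1 10)))))), (.s k1 k2 0 (.s k69 k205 9 (.s k138 k207 10 (.s k204 k70 10 (.d k136
  k139 k68 0 9))))), (.s k66 k129 8 (.s k70 k204 10 (.s k74 k78 1 (.s k11 k200 8 (.d k15 k7 k133 1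
  10)))))] (.c k43 (.q k171 [(.s k1 k2 0 (.s k64 k128 7 (.s k69 k205 9 (.s k129 k66 8 (.s k74 k79 2
  (.d k133 k141 k15 1 10)))))), (.s k1 k2 0 (.s k69 k205 9 (.s k138 k207 10 (.s k204 k70 10 (.d k136
  k139 k68 0 9))))), (.s k66 k129 8 (.s k70 k204 10 (.s k74 k78 1 (.s k11 k200 8 (.d k15 k7 k133 1
  10)))))] .n) (.c k171 (.q k43 [(.s k64 k128 7 (.s k66 k129 8 (.s k106 k85 6 (.s k169 k232 8 (.d
  k86 k126 k252 5 14))))), (.s k1 k2 0 (.s k69 k205 9 (.s k138 k207 10 (.s k204 k70 10 (.d k136 k139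
  k68 0 9)))))] .n) .n))) .n))) (.c k151 (.q k107 [(.s k66 k129 8 (.s k67 k87 5 (.d k64 k65 k128 0
  7))), (.s k1 k2 0 (.s k69 k205 9 (.s k138 k207 10 (.s k204 k70 10 (.d k136 k139 k68 0 9)))))] (.c
  k131 (.q k171 [(.s k66 k129 8 (.s k67 k87 5 (.d k64 k128 k65 7 0))), (.s k1 k2 0 (.s k69 k205 9
  (.s k138 k207 10 (.s k204 k70 10 (.d k136 k139 k68 0 9)))))] (.c k215 (.l (.s k235 k43 7 (.s k1 k2
  0 (.s k69 k205 9 (.s k138 k207 10 (.s k204 k70 10 (.d k136 k139 k68 0 9))))))) (.c k235 (.q k215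
  [(.s k66 k129 8 (.s k67 k87 5 (.d k64 k128 k65 7 0))), (.s k1 k2 0 (.s k69 k205 9 (.s k138 k207 10
  (.s k204 k70 10 (.d k136 k139 k68 0 9)))))] .n) .n))) (.c k171 (.q k131 [(.s k128 k64 7 (.d k129
  k130 k66 0 8)), (.s k1 k2 0 (.s k69 k205 9 (.s k138 k207 10 (.s k204 k70 10 (.d k136 k139 k68 0
  9)))))] (.c k215 (.q k235 [(.s k128 k64 7 (.d k129 k130 k66 0 8)), (.s k1 k2 0 (.s k69 k205 9 (.s
  k138 k207 10 (.s k204 k70 10 (.d k136 k139 k68 0 9)))))] (.c k23 (.l (.s k87 k67 5 (.s k128 k64 7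
  (.d k129 k66 k130 8 0)))) (.c k87 (.q k23 [(.s k128 k64 7 (.d k129 k130 k66 0 8)), (.s k1 k2 0 (.s
  k69 k205 9 (.s k138 k207 10 (.s k204 k70 10 (.d k136 k139 k68 0 9)))))] .n) .n))) (.c k235 (.q
  k215 [(.s k128 k64 7 (.d k129 k130 k66 0 8)), (.s k1 k2 0 (.s k69 k205 9 (.s k138 k207 10 (.s k204
  k70 10 (.d k136 k139 k68 0 9)))))] .n) .n))) (.c k215 (.q k235 [(.s k64 k128 7 (.s k66 k129 8 (.d
  k67 k87 k65 5 0))), (.s k1 k2 0 (.s k69 k205 9 (.s k138 k207 10 (.s k204 k70 10 (.d k136 k139 k68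
  0 9)))))] (.c k23 (.l (.s k87 k67 5 (.s k1 k2 0 (.s k64 k128 7 (.s k85 k106 6 (.s k169 k253 13 (.d
  k86 k252 k84 14 0))))))) (.c k87 (.q k23 [(.s k1 k2 0 (.s k64 k128 7 (.s k69 k205 9 (.s k129 k66 8
  (.s k74 k79 2 (.d k133 k141 k15 1 10)))))), (.s k1 k2 0 (.s k69 k205 9 (.s k138 k207 10 (.s k204
  k70 10 (.d k136 k139 k68 0 9))))), (.s k66 k129 8 (.s k70 k204 10 (.s k74 k78 1 (.s k11 k200 8 (.d
  k15 k7 k133 1 10)))))] (.c k131 (.l (.s k171 k43 7 (.s k1 k2 0 (.s k69 k205 9 (.s k138 k207 10 (.s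
  k204 k70 10 (.d k136 k139 k68 0 9))))))) (.c k171 (.q k131 [(.s k128 k64 7 (.d k129 k130 k66 0
  8)), (.s k1 k2 0 (.s k69 k205 9 (.s k138 k207 10 (.s k204 k70 10 (.d k136 k139 k68 0 9)))))] .n)
  .n))) (.c k131 (.l (.s k171 k43 7 (.s k1 k2 0 (.s k69 k205 9 (.s k138 k207 10 (.s k204 k70 10 (.d
  k136 k139 k68 0 9))))))) (.c k171 (.q k131 [(.s k128 k64 7 (.d k129 k130 k66 0 8)), (.s k1 k2 0
  (.s k69 k205 9 (.s k138 k207 10 (.s k204 k70 10 (.d k136 k139 k68 0 9)))))] (.c k23 (.l (.s k87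
  k67 5 (.s k128 k64 7 (.d k129 k66 k130 8 0)))) (.c k87 (.q k23 [(.s k128 k64 7 (.d k129 k130 k66 0
  8)), (.s k1 k2 0 (.s k69 k205 9 (.s k138 k207 10 (.s k204 k70 10 (.d k136 k139 k68 0 9)))))] .n)
  .n))) .n))))) (.c k235 (.q k215 [(.s k66 k129 8 (.s k67 k87 5 (.d k64 k65 k128 0 7))), (.s k1 k2 0
  (.s k69 k205 9 (.s k138 k207 10 (.s k204 k70 10 (.d k136 k139 k68 0 9)))))] (.c k131 (.q k171 [(.s
  k66 k129 8 (.s k67 k87 5 (.d k64 k128 k65 7 0))), (.s k1 k2 0 (.s k69 k205 9 (.s k138 k207 10 (.s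
  k204 k70 10 (.d k136 k139 k68 0 9)))))] .n) (.c k171 (.q k131 [(.s k128 k64 7 (.d k129 k130 k66 0
  8)), (.s k1 k2 0 (.s k69 k205 9 (.s k138 k207 10 (.s k204 k70 10 (.d k136 k139 k68 0 9)))))] .n)
  .n))) .n))))) (.c k215 (.q k235 [(.s k1 k2 0 (.s k64 k128 7 (.s k69 k205 9 (.s k129 k66 8 (.s k74
  k79 2 (.d k133 k141 k15 1 10)))))), (.s k1 k2 0 (.s k69 k205 9 (.s k138 k207 10 (.s k204 k70 10
  (.d k136 k139 k68 0 9))))), (.s k66 k129 8 (.s k70 k204 10 (.s k74 k78 1 (.s k11 k200 8 (.d k15 k7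
  k133 1 10)))))] (.c k107 (.q k151 [(.s k1 k2 0 (.s k64 k128 7 (.s k69 k205 9 (.s k129 k66 8 (.s
  k74 k79 2 (.d k133 k141 k15 1 10)))))), (.s k1 k2 0 (.s k69 k205 9 (.s k138 k207 10 (.s k204 k70
  10 (.d k136 k139 k68 0 9))))), (.s k66 k129 8 (.s k70 k204 10 (.s k74 k78 1 (.s k11 k200 8 (.d k15
  k7 k133 1 10)))))] .n) (.c k151 (.q k107 [(.s k64 k128 7 (.s k66 k129 8 (.d k67 k87 k65 5 0))),
  (.s k1 k2 0 (.s k69 k205 9 (.s k138 k207 10 (.s k204 k70 10 (.d k136 k139 k68 0 9)))))] (.c k23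
  (.l (.s k87 k67 5 (.s k1 k2 0 (.s k64 k128 7 (.s k85 k106 6 (.s k169 k253 13 (.d k86 k252 k84 14
  0))))))) (.c k87 (.q k23 [(.s k1 k2 0 (.s k64 k128 7 (.s k69 k205 9 (.s k129 k66 8 (.s k74 k79 2
  (.d k133 k141 k15 1 10)))))), (.s k1 k2 0 (.s k69 k205 9 (.s k138 k207 10 (.s k204 k70 10 (.d k136
  k139 k68 0 9))))), (.s k66 k129 8 (.s k70 k204 10 (.s k74 k78 1 (.s k11 k200 8 (.d k15 k7 k133 1
  10)))))] (.c k131 (.l (.s k171 k43 7 (.s k1 k2 0 (.s k69 k205 9 (.s k138 k207 10 (.s k204 k70 10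
  (.d k136 k139 k68 0 9))))))) (.c k171 (.q k131 [(.s k128 k64 7 (.d k129 k130 k66 0 8)), (.s k1 k2
  0 (.s k69 k205 9 (.s k138 k207 10 (.s k204 k70 10 (.d k136 k139 k68 0 9)))))] .n) .n))) (.c k131
  (.l (.s k171 k43 7 (.s k1 k2 0 (.s k69 k205 9 (.s k138 k207 10 (.s k204 k70 10 (.d k136 k139 k68 0
  9))))))) (.c k171 (.q k131 [(.s k128 k64 7 (.d k129 k130 k66 0 8)), (.s k1 k2 0 (.s k69 k205 9 (.s
  k138 k207 10 (.s k204 k70 10 (.d k136 k139 k68 0 9)))))] (.c k23 (.l (.s k87 k67 5 (.s k128 k64 7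
  (.d k129 k66 k130 8 0)))) (.c k87 (.q k23 [(.s k128 k64 7 (.d k129 k130 k66 0 8)), (.s k1 k2 0 (.s
  k69 k205 9 (.s k138 k207 10 (.s k204 k70 10 (.d k136 k139 k68 0 9)))))] .n) .n))) .n))))) .n)))
  (.c k235 (.q k215 [(.s k1 k2 0 (.s k64 k128 7 (.s k69 k205 9 (.s k129 k66 8 (.s k74 k79 2 (.d k133
  k141 k15 1 10)))))), (.s k1 k2 0 (.s k69 k205 9 (.s k138 k207 10 (.s k204 k70 10 (.d k136 k139 k68
  0 9))))), (.s k66 k129 8 (.s k70 k204 10 (.s k74 k78 1 (.s k11 k200 8 (.d k15 k7 k133 1 10)))))]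
  (.c k107 (.q k151 [(.s k1 k2 0 (.s k64 k128 7 (.s k69 k205 9 (.s k129 k66 8 (.s k74 k79 2 (.d k133
  k141 k15 1 10)))))), (.s k1 k2 0 (.s k69 k205 9 (.s k138 k207 10 (.s k204 k70 10 (.d k136 k139 k68
  0 9))))), (.s k66 k129 8 (.s k70 k204 10 (.s k74 k78 1 (.s k11 k200 8 (.d k15 k7 k133 1 10)))))]
  (.c k43 (.q k171 [(.s k1 k2 0 (.s k64 k128 7 (.s k69 k205 9 (.s k129 k66 8 (.s k74 k79 2 (.d k133
  k141 k15 1 10)))))), (.s k1 k2 0 (.s k69 k205 9 (.s k138 k207 10 (.s k204 k70 10 (.d k136 k139 k68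
  0 9))))), (.s k66 k129 8 (.s k70 k204 10 (.s k74 k78 1 (.s k11 k200 8 (.d k15 k7 k133 1 10)))))]
  .n) (.c k171 (.q k43 [(.s k64 k128 7 (.s k66 k129 8 (.s k106 k85 6 (.s k169 k232 8 (.d k86 k126
  k252 5 14))))), (.s k1 k2 0 (.s k69 k205 9 (.s k138 k207 10 (.s k204 k70 10 (.d k136 k139 k68 0
  9)))))] .n) .n))) (.c k151 (.q k107 [(.s k66 k129 8 (.s k67 k87 5 (.d k64 k65 k128 0 7))), (.s k1
  k2 0 (.s k69 k205 9 (.s k138 k207 10 (.s k204 k70 10 (.d k136 k139 k68 0 9)))))] (.c k131 (.q k171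
  [(.s k66 k129 8 (.s k67 k87 5 (.d k64 k128 k65 7 0))), (.s k1 k2 0 (.s k69 k205 9 (.s k138 k207 10
  (.s k204 k70 10 (.d k136 k139 k68 0 9)))))] .n) (.c k171 (.q k131 [(.s k128 k64 7 (.d k129 k130
  k66 0 8)), (.s k1 k2 0 (.s k69 k205 9 (.s k138 k207 10 (.s k204 k70 10 (.d k136 k139 k68 0 9)))))]
  .n) .n))) .n))) .n))))) (.c k215 (.q k235 [(.s k1 k2 0 (.s k64 k128 7 (.s k69 k205 9 (.s k129 k66
  8 (.s k74 k79 2 (.d k133 k141 k15 1 10)))))), (.s k1 k2 0 (.s k69 k205 9 (.s k138 k207 10 (.s k204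
  k70 10 (.d k136 k139 k68 0 9))))), (.s k66 k129 8 (.s k70 k204 10 (.s k74 k78 1 (.s k11 k200 8 (.d
  k15 k7 k133 1 10)))))] (.c k107 (.q k151 [(.s k1 k2 0 (.s k64 k128 7 (.s k69 k205 9 (.s k129 k66 8
  (.s k74 k79 2 (.d k133 k141 k15 1 10)))))), (.s k1 k2 0 (.s k69 k205 9 (.s k138 k207 10 (.s k204
  k70 10 (.d k136 k139 k68 0 9))))), (.s k66 k129 8 (.s k70 k204 10 (.s k74 k78 1 (.s k11 k200 8 (.d
  k15 k7 k133 1 10)))))] (.c k127 (.q k191 [(.s k129 k66 8 (.s k131 k171 5 (.d k128 k130 k64 0 7))),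
  (.s k1 k2 0 (.s k69 k205 9 (.s k138 k207 10 (.s k204 k70 10 (.d k136 k139 k68 0 9)))))] (.c k67
  (.q k87 [(.s k129 k66 8 (.s k131 k171 5 (.d k128 k64 k130 7 0))), (.s k1 k2 0 (.s k69 k205 9 (.s
  k138 k207 10 (.s k204 k70 10 (.d k136 k139 k68 0 9)))))] .n) (.c k87 (.q k67 [(.s k64 k128 7 (.d
  k66 k65 k129 0 8)), (.s k1 k2 0 (.s k69 k205 9 (.s k138 k207 10 (.s k204 k70 10 (.d k136 k139 k68
  0 9)))))] .n) .n))) (.c k191 (.q k127 [(.s k1 k2 0 (.s k64 k128 7 (.s k69 k205 9 (.s k129 k66 8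
  (.s k74 k79 2 (.d k133 k141 k15 1 10)))))), (.s k1 k2 0 (.s k69 k205 9 (.s k138 k207 10 (.s k204
  k70 10 (.d k136 k139 k68 0 9))))), (.s k66 k129 8 (.s k70 k204 10 (.s k74 k78 1 (.s k11 k200 8 (.d
  k15 k7 k133 1 10)))))] .n) .n))) (.c k127 (.q k191 [(.s k1 k2 0 (.s k64 k128 7 (.s k69 k205 9 (.s
  k129 k66 8 (.s k74 k79 2 (.d k133 k141 k15 1 10)))))), (.s k2 k1 0 (.s k70 k204 10 (.s k138 k206 9
  (.s k207 k69 10 (.d k139 k136 k71 0 9))))), (.s k66 k129 8 (.s k70 k204 10 (.s k74 k78 1 (.s k11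
  k200 8 (.d k15 k7 k133 1 10)))))] (.c k107 (.q k151 [(.s k129 k66 8 (.s k131 k171 5 (.d k128 k130
  k64 0 7))), (.s k1 k2 0 (.s k69 k205 9 (.s k138 k207 10 (.s k204 k70 10 (.d k136 k139 k68 0
  9)))))] (.c k67 (.q k87 [(.s k129 k66 8 (.s k131 k171 5 (.d k128 k64 k130 7 0))), (.s k1 k2 0 (.s
  k69 k205 9 (.s k138 k207 10 (.s k204 k70 10 (.d k136 k139 k68 0 9)))))] .n) (.c k87 (.q k67 [(.s
  k64 k128 7 (.d k66 k65 k129 0 8)), (.s k1 k2 0 (.s k69 k205 9 (.s k138 k207 10 (.s k204 k70 10 (.d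
  k136 k139 k68 0 9)))))] .n) .n))) (.c k151 (.q k107 [(.s k1 k2 0 (.s k64 k128 7 (.s k69 k205 9 (.s
  k129 k66 8 (.s k74 k79 2 (.d k133 k141 k15 1 10)))))), (.s k2 k1 0 (.s k70 k204 10 (.s k138 k206 9
  (.s k207 k69 10 (.d k139 k136 k71 0 9))))), (.s k66 k129 8 (.s k70 k204 10 (.s k74 k78 1 (.s k11
  k200 8 (.d k15 k7 k133 1 10)))))] (.c k23 (.q k87 [(.s k1 k2 0 (.s k64 k128 7 (.s k69 k205 9 (.s
  k129 k66 8 (.s k74 k79 2 (.d k133 k141 k15 1 10)))))), (.s k2 k1 0 (.s k70 k204 10 (.s k138 k206 9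
  (.s k207 k69 10 (.d k139 k136 k71 0 9))))), (.s k66 k129 8 (.s k70 k204 10 (.s k74 k78 1 (.s k11
  k200 8 (.d k15 k7 k133 1 10)))))] .n) (.c k87 (.q k23 [(.s k128 k64 7 (.s k129 k66 8 (.s k149 k170
  6 (.s k86 k212 8 (.d k169 k189 k252 5 14))))), (.s k1 k2 0 (.s k69 k205 9 (.s k138 k207 10 (.s
  k204 k70 10 (.d k136 k139 k68 0 9)))))] .n) .n))) .n))) (.c k151 (.q k107 [(.s k1 k2 0 (.s k64
  k128 7 (.s k69 k205 9 (.s k129 k66 8 (.s k74 k79 2 (.d k133 k141 k15 1 10)))))), (.s k1 k2 0 (.s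
  k69 k205 9 (.s k138 k207 10 (.s k204 k70 10 (.d k136 k139 k68 0 9))))), (.s k66 k129 8 (.s k70
  k204 10 (.s k74 k78 1 (.s k11 k200 8 (.d k15 k7 k133 1 10)))))] (.c k23 (.q k87 [(.s k64 k128 7
  (.s k66 k129 8 (.d k67 k127 k65 5 0))), (.s k1 k2 0 (.s k69 k205 9 (.s k138 k207 10 (.s k204 k70
  10 (.d k136 k139 k68 0 9)))))] (.c k127 (.q k191 [(.s k1 k2 0 (.s k64 k128 7 (.s k69 k205 9 (.s
  k129 k66 8 (.s k74 k79 2 (.d k133 k141 k15 1 10)))))), (.s k2 k1 0 (.s k70 k204 10 (.s k138 k206 9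
  (.s k207 k69 10 (.d k139 k136 k71 0 9))))), (.s k66 k129 8 (.s k70 k204 10 (.s k74 k78 1 (.s k11
  k200 8 (.d k15 k7 k133 1 10)))))] .n) (.c k191 (.l (.s k127 k67 5 (.s k1 k2 0 (.s k64 k128 7 (.s
  k85 k106 6 (.s k169 k253 13 (.d k86 k252 k84 14 0))))))) .n))) (.c k87 (.q k23 [(.s k1 k2 0 (.s
  k64 k128 7 (.s k69 k205 9 (.s k129 k66 8 (.s k74 k79 2 (.d k133 k141 k15 1 10)))))), (.s k1 k2 0
  (.s k69 k205 9 (.s k138 k207 10 (.s k204 k70 10 (.d k136 k139 k68 0 9))))), (.s k66 k129 8 (.s k70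
  k204 10 (.s k74 k78 1 (.s k11 k200 8 (.d k15 k7 k133 1 10)))))] (.c k127 (.q k191 [(.s k128 k64 7
  (.s k129 k66 8 (.s k149 k170 6 (.s k86 k212 8 (.d k169 k189 k252 5 14))))), (.s k1 k2 0 (.s k69
  k205 9 (.s k138 k207 10 (.s k204 k70 10 (.d k136 k139 k68 0 9)))))] .n) (.c k191 (.q k127 [(.s k1
  k2 0 (.s k64 k128 7 (.s k69 k205 9 (.s k129 k66 8 (.s k74 k79 2 (.d k133 k141 k15 1 10)))))), (.s
  k1 k2 0 (.s k69 k205 9 (.s k138 k207 10 (.s k204 k70 10 (.d k136 k139 k68 0 9))))), (.s k66 k129 8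
  (.s k70 k204 10 (.s k74 k78 1 (.s k11 k200 8 (.d k15 k7 k133 1 10)))))] (.c k131 (.l (.s k171 k43
  7 (.s k1 k2 0 (.s k69 k205 9 (.s k138 k207 10 (.s k204 k70 10 (.d k136 k139 k68 0 9))))))) (.c
  k171 (.q k131 [(.s k128 k64 7 (.d k129 k130 k66 0 8)), (.s k1 k2 0 (.s k69 k205 9 (.s k138 k207 10
  (.s k204 k70 10 (.d k136 k139 k68 0 9)))))] .n) .n))) .n))) (.c k127 (.q k191 [(.s k1 k2 0 (.s k64
  k128 7 (.s k69 k205 9 (.s k129 k66 8 (.s k74 k79 2 (.d k133 k141 k15 1 10)))))), (.s k2 k1 0 (.s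
  k70 k204 10 (.s k138 k206 9 (.s k207 k69 10 (.d k139 k136 k71 0 9))))), (.s k66 k129 8 (.s k70
  k204 10 (.s k74 k78 1 (.s k11 k200 8 (.d k15 k7 k133 1 10)))))] (.c k23 (.q k87 [(.s k1 k2 0 (.s
  k64 k128 7 (.s k69 k205 9 (.s k129 k66 8 (.s k74 k79 2 (.d k133 k141 k15 1 10)))))), (.s k2 k1 0
  (.s k70 k204 10 (.s k138 k206 9 (.s k207 k69 10 (.d k139 k136 k71 0 9))))), (.s k66 k129 8 (.s k70
  k204 10 (.s k74 k78 1 (.s k11 k200 8 (.d k15 k7 k133 1 10)))))] .n) (.c k87 (.q k23 [(.s k128 k64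
  7 (.s k129 k66 8 (.s k149 k170 6 (.s k86 k212 8 (.d k169 k189 k252 5 14))))), (.s k1 k2 0 (.s k69
  k205 9 (.s k138 k207 10 (.s k204 k70 10 (.d k136 k139 k68 0 9)))))] .n) .n))) (.c k191 (.q k127
  [(.s k64 k128 7 (.s k66 k129 8 (.d k67 k87 k65 5 0))), (.s k1 k2 0 (.s k69 k205 9 (.s k138 k207 10
  (.s k204 k70 10 (.d k136 k139 k68 0 9)))))] (.c k23 (.l (.s k87 k67 5 (.s k1 k2 0 (.s k64 k128 7
  (.s k85 k106 6 (.s k169 k253 13 (.d k86 k252 k84 14 0))))))) (.c k87 (.q k23 [(.s k1 k2 0 (.s k64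
  k128 7 (.s k69 k205 9 (.s k129 k66 8 (.s k74 k79 2 (.d k133 k141 k15 1 10)))))), (.s k1 k2 0 (.s
  k69 k205 9 (.s k138 k207 10 (.s k204 k70 10 (.d k136 k139 k68 0 9))))), (.s k66 k129 8 (.s k70
  k204 10 (.s k74 k78 1 (.s k11 k200 8 (.d k15 k7 k133 1 10)))))] (.c k131 (.l (.s k171 k43 7 (.s k1
  k2 0 (.s k69 k205 9 (.s k138 k207 10 (.s k204 k70 10 (.d k136 k139 k68 0 9))))))) (.c k171 (.q
  k131 [(.s k128 k64 7 (.d k129 k130 k66 0 8)), (.s k1 k2 0 (.s k69 k205 9 (.s k138 k207 10 (.s k204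
  k70 10 (.d k136 k139 k68 0 9)))))] .n) .n))) (.c k131 (.l (.s k171 k43 7 (.s k1 k2 0 (.s k69 k205
  9 (.s k138 k207 10 (.s k204 k70 10 (.d k136 k139 k68 0 9))))))) (.c k171 (.q k131 [(.s k128 k64 7
  (.d k129 k130 k66 0 8)), (.s k1 k2 0 (.s k69 k205 9 (.s k138 k207 10 (.s k204 k70 10 (.d k136 k139
  k68 0 9)))))] (.c k23 (.l (.s k87 k67 5 (.s k128 k64 7 (.d k129 k66 k130 8 0)))) (.c k87 (.q k23
  [(.s k128 k64 7 (.d k129 k130 k66 0 8)), (.s k1 k2 0 (.s k69 k205 9 (.s k138 k207 10 (.s k204 k70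
  10 (.d k136 k139 k68 0 9)))))] .n) .n))) .n))))) .n))))) (.c k191 (.q k127 [(.s k1 k2 0 (.s k64
  k128 7 (.s k69 k205 9 (.s k129 k66 8 (.s k74 k79 2 (.d k133 k141 k15 1 10)))))), (.s k1 k2 0 (.s
  k69 k205 9 (.s k138 k207 10 (.s k204 k70 10 (.d k136 k139 k68 0 9))))), (.s k66 k129 8 (.s k70
  k204 10 (.s k74 k78 1 (.s k11 k200 8 (.d k15 k7 k133 1 10)))))] (.c k107 (.q k151 [(.s k1 k2 0 (.s
  k64 k128 7 (.s k69 k205 9 (.s k129 k66 8 (.s k74 k79 2 (.d k133 k141 k15 1 10)))))), (.s k1 k2 0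
  (.s k69 k205 9 (.s k138 k207 10 (.s k204 k70 10 (.d k136 k139 k68 0 9))))), (.s k66 k129 8 (.s k70
  k204 10 (.s k74 k78 1 (.s k11 k200 8 (.d k15 k7 k133 1 10)))))] .n) (.c k151 (.q k107 [(.s k64
  k128 7 (.s k66 k129 8 (.d k67 k87 k65 5 0))), (.s k1 k2 0 (.s k69 k205 9 (.s k138 k207 10 (.s k204
  k70 10 (.d k136 k139 k68 0 9)))))] (.c k23 (.l (.s k87 k67 5 (.s k1 k2 0 (.s k64 k128 7 (.s k85
  k106 6 (.s k169 k253 13 (.d k86 k252 k84 14 0))))))) (.c k87 (.q k23 [(.s k1 k2 0 (.s k64 k128 7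
  (.s k69 k205 9 (.s k129 k66 8 (.s k74 k79 2 (.d k133 k141 k15 1 10)))))), (.s k1 k2 0 (.s k69 k205
  9 (.s k138 k207 10 (.s k204 k70 10 (.d k136 k139 k68 0 9))))), (.s k66 k129 8 (.s k70 k204 10 (.s
  k74 k78 1 (.s k11 k200 8 (.d k15 k7 k133 1 10)))))] (.c k131 (.l (.s k171 k43 7 (.s k1 k2 0 (.s
  k69 k205 9 (.s k138 k207 10 (.s k204 k70 10 (.d k136 k139 k68 0 9))))))) (.c k171 (.q k131 [(.s
  k128 k64 7 (.d k129 k130 k66 0 8)), (.s k1 k2 0 (.s k69 k205 9 (.s k138 k207 10 (.s k204 k70 10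
  (.d k136 k139 k68 0 9)))))] .n) .n))) (.c k131 (.l (.s k171 k43 7 (.s k1 k2 0 (.s k69 k205 9 (.s
  k138 k207 10 (.s k204 k70 10 (.d k136 k139 k68 0 9))))))) (.c k171 (.q k131 [(.s k128 k64 7 (.d
  k129 k130 k66 0 8)), (.s k1 k2 0 (.s k69 k205 9 (.s k138 k207 10 (.s k204 k70 10 (.d k136 k139 k68
  0 9)))))] (.c k23 (.l (.s k87 k67 5 (.s k128 k64 7 (.d k129 k66 k130 8 0)))) (.c k87 (.q k23 [(.s
  k128 k64 7 (.d k129 k130 k66 0 8)), (.s k1 k2 0 (.s k69 k205 9 (.s k138 k207 10 (.s k204 k70 10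
  (.d k136 k139 k68 0 9)))))] .n) .n))) .n))))) .n))) .n))))) (.c k235 (.q k215 [(.s k1 k2 0 (.s k64
  k128 7 (.s k69 k205 9 (.s k129 k66 8 (.s k74 k79 2 (.d k133 k141 k15 1 10)))))), (.s k1 k2 0 (.s
  k69 k205 9 (.s k138 k207 10 (.s k204 k70 10 (.d k136 k139 k68 0 9))))), (.s k66 k129 8 (.s k70
  k204 10 (.s k74 k78 1 (.s k11 k200 8 (.d k15 k7 k133 1 10)))))] (.c k107 (.q k151 [(.s k1 k2 0 (.s
  k64 k128 7 (.s k69 k205 9 (.s k129 k66 8 (.s k74 k79 2 (.d k133 k141 k15 1 10)))))), (.s k1 k2 0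
  (.s k69 k205 9 (.s k138 k207 10 (.s k204 k70 10 (.d k136 k139 k68 0 9))))), (.s k66 k129 8 (.s k70
  k204 10 (.s k74 k78 1 (.s k11 k200 8 (.d k15 k7 k133 1 10)))))] (.c k43 (.q k171 [(.s k128 k64 7
  (.s k129 k66 8 (.d k131 k191 k130 5 0))), (.s k1 k2 0 (.s k69 k205 9 (.s k138 k207 10 (.s k204 k70
  10 (.d k136 k139 k68 0 9)))))] (.c k127 (.l (.s k191 k131 5 (.s k1 k2 0 (.s k69 k205 9 (.s k138
  k207 10 (.s k204 k70 10 (.d k136 k139 k68 0 9))))))) (.c k191 (.q k127 [(.s k1 k2 0 (.s k64 k128 7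
  (.s k69 k205 9 (.s k129 k66 8 (.s k74 k79 2 (.d k133 k141 k15 1 10)))))), (.s k1 k2 0 (.s k69 k205
  9 (.s k138 k207 10 (.s k204 k70 10 (.d k136 k139 k68 0 9))))), (.s k66 k129 8 (.s k70 k204 10 (.s
  k74 k78 1 (.s k11 k200 8 (.d k15 k7 k133 1 10)))))] .n) .n))) (.c k127 (.q k191 [(.s k128 k64 7
  (.s k129 k66 8 (.d k131 k171 k130 5 0))), (.s k1 k2 0 (.s k69 k205 9 (.s k138 k207 10 (.s k204 k70
  10 (.d k136 k139 k68 0 9)))))] (.c k43 (.l (.s k171 k131 5 (.s k1 k2 0 (.s k69 k205 9 (.s k138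
  k207 10 (.s k204 k70 10 (.d k136 k139 k68 0 9))))))) (.c k67 (.l (.s k87 k23 7 (.s k1 k2 0 (.s
  k128 k64 7 (.s k129 k66 8 (.s k65 k193 7 (.d k131 k130 k171 0 5))))))) (.c k87 (.q k67 [(.s k64
  k128 7 (.d k66 k65 k129 0 8)), (.s k1 k2 0 (.s k69 k205 9 (.s k138 k207 10 (.s k204 k70 10 (.d
  k136 k139 k68 0 9)))))] (.c k43 (.l (.s k171 k131 5 (.s k64 k128 7 (.d k66 k129 k65 8 0)))) (.c
  k171 (.q k43 [(.s k64 k128 7 (.d k66 k65 k129 0 8)), (.s k1 k2 0 (.s k69 k205 9 (.s k138 k207 10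
  (.s k204 k70 10 (.d k136 k139 k68 0 9)))))] .n) .n))) (.c k171 (.q k43 [(.s k1 k2 0 (.s k64 k128 7
  (.s k69 k205 9 (.s k129 k66 8 (.s k74 k79 2 (.d k133 k141 k15 1 10)))))), (.s k2 k1 0 (.s k70 k204
  10 (.s k138 k206 9 (.s k207 k69 10 (.d k139 k136 k71 0 9))))), (.s k66 k129 8 (.s k70 k204 10 (.s
  k74 k78 1 (.s k11 k200 8 (.d k15 k7 k133 1 10)))))] (.c k67 (.l (.s k87 k23 7 (.s k1 k2 0 (.s k69
  k205 9 (.s k138 k207 10 (.s k204 k70 10 (.d k136 k139 k68 0 9))))))) (.c k87 (.q k67 [(.s k64 k128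
  7 (.d k66 k65 k129 0 8)), (.s k1 k2 0 (.s k69 k205 9 (.s k138 k207 10 (.s k204 k70 10 (.d k136
  k139 k68 0 9)))))] .n) .n))) .n))))) (.c k171 (.q k43 [(.s k1 k2 0 (.s k64 k128 7 (.s k69 k205 9
  (.s k129 k66 8 (.s k74 k79 2 (.d k133 k141 k15 1 10)))))), (.s k1 k2 0 (.s k69 k205 9 (.s k138
  k207 10 (.s k204 k70 10 (.d k136 k139 k68 0 9))))), (.s k66 k129 8 (.s k70 k204 10 (.s k74 k78 1
  (.s k11 k200 8 (.d k15 k7 k133 1 10)))))] (.c k127 (.q k191 [(.s k1 k2 0 (.s k64 k128 7 (.s k69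
  k205 9 (.s k129 k66 8 (.s k74 k79 2 (.d k133 k141 k15 1 10)))))), (.s k2 k1 0 (.s k70 k204 10 (.s
  k138 k206 9 (.s k207 k69 10 (.d k139 k136 k71 0 9))))), (.s k66 k129 8 (.s k70 k204 10 (.s k74 k78
  1 (.s k11 k200 8 (.d k15 k7 k133 1 10)))))] (.c k67 (.l (.s k87 k23 7 (.s k1 k2 0 (.s k69 k205 9
  (.s k138 k207 10 (.s k204 k70 10 (.d k136 k139 k68 0 9))))))) (.c k87 (.q k67 [(.s k64 k128 7 (.d
  k66 k65 k129 0 8)), (.s k1 k2 0 (.s k69 k205 9 (.s k138 k207 10 (.s k204 k70 10 (.d k136 k139 k68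
  0 9)))))] .n) .n))) (.c k191 (.q k127 [(.s k64 k128 7 (.s k66 k129 8 (.s k106 k85 6 (.s k169 k232
  8 (.d k86 k126 k252 5 14))))), (.s k1 k2 0 (.s k69 k205 9 (.s k138 k207 10 (.s k204 k70 10 (.d
  k136 k139 k68 0 9)))))] .n) .n))) (.c k191 (.q k127 [(.s k1 k2 0 (.s k64 k128 7 (.s k69 k205 9 (.s
  k129 k66 8 (.s k74 k79 2 (.d k133 k141 k15 1 10)))))), (.s k1 k2 0 (.s k69 k205 9 (.s k138 k207 10
  (.s k204 k70 10 (.d k136 k139 k68 0 9))))), (.s k66 k129 8 (.s k70 k204 10 (.s k74 k78 1 (.s k11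
  k200 8 (.d k15 k7 k133 1 10)))))] (.c k43 (.q k171 [(.s k1 k2 0 (.s k64 k128 7 (.s k69 k205 9 (.s
  k129 k66 8 (.s k74 k79 2 (.d k133 k141 k15 1 10)))))), (.s k1 k2 0 (.s k69 k205 9 (.s k138 k207 10
  (.s k204 k70 10 (.d k136 k139 k68 0 9))))), (.s k66 k129 8 (.s k70 k204 10 (.s k74 k78 1 (.s k11
  k200 8 (.d k15 k7 k133 1 10)))))] .n) (.c k171 (.q k43 [(.s k64 k128 7 (.s k66 k129 8 (.s k106 k85
  6 (.s k169 k232 8 (.d k86 k126 k252 5 14))))), (.s k1 k2 0 (.s k69 k205 9 (.s k138 k207 10 (.s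
  k204 k70 10 (.d k136 k139 k68 0 9)))))] .n) .n))) .n))))) (.c k127 (.q k191 [(.s k1 k2 0 (.s k64
  k128 7 (.s k69 k205 9 (.s k129 k66 8 (.s k74 k79 2 (.d k133 k141 k15 1 10)))))), (.s k2 k1 0 (.s
  k70 k204 10 (.s k138 k206 9 (.s k207 k69 10 (.d k139 k136 k71 0 9))))), (.s k66 k129 8 (.s k70
  k204 10 (.s k74 k78 1 (.s k11 k200 8 (.d k15 k7 k133 1 10)))))] (.c k107 (.q k151 [(.s k128 k64 7
  (.s k129 k66 8 (.d k131 k171 k130 5 0))), (.s k1 k2 0 (.s k69 k205 9 (.s k138 k207 10 (.s k204 k70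
  10 (.d k136 k139 k68 0 9)))))] (.c k43 (.l (.s k171 k131 5 (.s k1 k2 0 (.s k69 k205 9 (.s k138
  k207 10 (.s k204 k70 10 (.d k136 k139 k68 0 9))))))) (.c k67 (.l (.s k87 k23 7 (.s k1 k2 0 (.s
  k128 k64 7 (.s k129 k66 8 (.s k65 k193 7 (.d k131 k130 k171 0 5))))))) (.c k87 (.q k67 [(.s k64
  k128 7 (.d k66 k65 k129 0 8)), (.s k1 k2 0 (.s k69 k205 9 (.s k138 k207 10 (.s k204 k70 10 (.d
  k136 k139 k68 0 9)))))] (.c k43 (.l (.s k171 k131 5 (.s k64 k128 7 (.d k66 k129 k65 8 0)))) (.c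
  k171 (.q k43 [(.s k64 k128 7 (.d k66 k65 k129 0 8)), (.s k1 k2 0 (.s k69 k205 9 (.s k138 k207 10
  (.s k204 k70 10 (.d k136 k139 k68 0 9)))))] .n) .n))) (.c k171 (.q k43 [(.s k1 k2 0 (.s k64 k128 7
  (.s k69 k205 9 (.s k129 k66 8 (.s k74 k79 2 (.d k133 k141 k15 1 10)))))), (.s k2 k1 0 (.s k70 k204
  10 (.s k138 k206 9 (.s k207 k69 10 (.d k139 k136 k71 0 9))))), (.s k66 k129 8 (.s k70 k204 10 (.s
  k74 k78 1 (.s k11 k200 8 (.d k15 k7 k133 1 10)))))] (.c k67 (.l (.s k87 k23 7 (.s k1 k2 0 (.s k69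
  k205 9 (.s k138 k207 10 (.s k204 k70 10 (.d k136 k139 k68 0 9))))))) (.c k87 (.q k67 [(.s k64 k128
  7 (.d k66 k65 k129 0 8)), (.s k1 k2 0 (.s k69 k205 9 (.s k138 k207 10 (.s k204 k70 10 (.d k136
  k139 k68 0 9)))))] .n) .n))) .n))))) (.c k151 (.q k107 [(.s k1 k2 0 (.s k64 k128 7 (.s k69 k205 9
  (.s k129 k66 8 (.s k74 k79 2 (.d k133 k141 k15 1 10)))))), (.s k2 k1 0 (.s k70 k204 10 (.s k138
  k206 9 (.s k207 k69 10 (.d k139 k136 k71 0 9))))), (.s k66 k129 8 (.s k70 k204 10 (.s k74 k78 1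
  (.s k11 k200 8 (.d k15 k7 k133 1 10)))))] .n) .n))) (.c k151 (.q k107 [(.s k1 k2 0 (.s k64 k128 7
  (.s k69 k205 9 (.s k129 k66 8 (.s k74 k79 2 (.d k133 k141 k15 1 10)))))), (.s k1 k2 0 (.s k69 k205
  9 (.s k138 k207 10 (.s k204 k70 10 (.d k136 k139 k68 0 9))))), (.s k66 k129 8 (.s k70 k204 10 (.s
  k74 k78 1 (.s k11 k200 8 (.d k15 k7 k133 1 10)))))] (.c k127 (.q k191 [(.s k1 k2 0 (.s k64 k128 7
  (.s k69 k205 9 (.s k129 k66 8 (.s k74 k79 2 (.d k133 k141 k15 1 10)))))), (.s k2 k1 0 (.s k70 k204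
  10 (.s k138 k206 9 (.s k207 k69 10 (.d k139 k136 k71 0 9))))), (.s k66 k129 8 (.s k70 k204 10 (.s
  k74 k78 1 (.s k11 k200 8 (.d k15 k7 k133 1 10)))))] .n) (.c k191 (.q k127 [(.s k66 k129 8 (.s k67
  k87 5 (.d k64 k65 k128 0 7))), (.s k1 k2 0 (.s k69 k205 9 (.s k138 k207 10 (.s k204 k70 10 (.d
  k136 k139 k68 0 9)))))] (.c k131 (.q k171 [(.s k66 k129 8 (.s k67 k87 5 (.d k64 k128 k65 7 0))),
  (.s k1 k2 0 (.s k69 k205 9 (.s k138 k207 10 (.s k204 k70 10 (.d k136 k139 k68 0 9)))))] .n) (.c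
  k171 (.q k131 [(.s k128 k64 7 (.d k129 k130 k66 0 8)), (.s k1 k2 0 (.s k69 k205 9 (.s k138 k207 10
  (.s k204 k70 10 (.d k136 k139 k68 0 9)))))] .n) .n))) .n))) (.c k191 (.q k127 [(.s k1 k2 0 (.s k64
  k128 7 (.s k69 k205 9 (.s k129 k66 8 (.s k74 k79 2 (.d k133 k141 k15 1 10)))))), (.s k1 k2 0 (.s
  k69 k205 9 (.s k138 k207 10 (.s k204 k70 10 (.d k136 k139 k68 0 9))))), (.s k66 k129 8 (.s k70
  k204 10 (.s k74 k78 1 (.s k11 k200 8 (.d k15 k7 k133 1 10)))))] (.c k107 (.q k151 [(.s k1 k2 0 (.s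
  k64 k128 7 (.s k69 k205 9 (.s k129 k66 8 (.s k74 k79 2 (.d k133 k141 k15 1 10)))))), (.s k1 k2 0
  (.s k69 k205 9 (.s k138 k207 10 (.s k204 k70 10 (.d k136 k139 k68 0 9))))), (.s k66 k129 8 (.s k70
  k204 10 (.s k74 k78 1 (.s k11 k200 8 (.d k15 k7 k133 1 10)))))] (.c k43 (.q k171 [(.s k1 k2 0 (.s
  k64 k128 7 (.s k69 k205 9 (.s k129 k66 8 (.s k74 k79 2 (.d k133 k141 k15 1 10)))))), (.s k1 k2 0
  (.s k69 k205 9 (.s k138 k207 10 (.s k204 k70 10 (.d k136 k139 k68 0 9))))), (.s k66 k129 8 (.s k70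
  k204 10 (.s k74 k78 1 (.s k11 k200 8 (.d k15 k7 k133 1 10)))))] .n) (.c k171 (.q k43 [(.s k64 k128
  7 (.s k66 k129 8 (.s k106 k85 6 (.s k169 k232 8 (.d k86 k126 k252 5 14))))), (.s k1 k2 0 (.s k69
  k205 9 (.s k138 k207 10 (.s k204 k70 10 (.d k136 k139 k68 0 9)))))] .n) .n))) (.c k151 (.q k107
  [(.s k66 k129 8 (.s k67 k87 5 (.d k64 k65 k128 0 7))), (.s k1 k2 0 (.s k69 k205 9 (.s k138 k207 10
  (.s k204 k70 10 (.d k136 k139 k68 0 9)))))] (.c k131 (.q k171 [(.s k66 k129 8 (.s k67 k87 5 (.d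
  k64 k128 k65 7 0))), (.s k1 k2 0 (.s k69 k205 9 (.s k138 k207 10 (.s k204 k70 10 (.d k136 k139 k68
  0 9)))))] .n) (.c k171 (.q k131 [(.s k128 k64 7 (.d k129 k130 k66 0 8)), (.s k1 k2 0 (.s k69 k205
  9 (.s k138 k207 10 (.s k204 k70 10 (.d k136 k139 k68 0 9)))))] .n) .n))) .n))) .n))))) .n)))))))
  .n))))))))))))))))

def t84 : T TT 256 :=
  (.q k5 [(.s k1 k2 0 (.s k10 k15 2 (.s k9 k13 1 (.s k12 k6 2 (.d k8 k11 k4 0 1))))), (.s k1 k2 0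
  (.s k15 k10 2 (.s k9 k13 1 (.s k6 k12 2 (.d k7 k4 k11 0 1)))))] (.c k1 (.q k21 [(.s k15 k10 2 (.s
  k42 k63 6 (.s k37 k53 3 (.s k48 k26 6 (.d k32 k47 k16 2 3))))), (.s k63 k42 6 (.s k23 k43 5 (.s
  k37 k53 3 (.s k22 k20 0 (.s k7 k52 4 (.s k4 k6 0 (.d k55 k39 k38 3 4))))))), (.s k15 k10 2 (.s k63
  k42 6 (.s k7 k11 1 (.s k23 k43 5 (.s k4 k6 0 (.d k55 k39 k38 3 4)))))), (.s k15 k10 2 (.s k7 k11 1
  (.s k37 k53 3 (.s k22 k52 4 (.s k60 k41 6 (.d k20 k23 k40 0 5))))))] .n) (.c k2 (.q k21 [(.s k15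
  k10 2 (.s k42 k63 6 (.s k37 k53 3 (.s k48 k26 6 (.d k32 k47 k16 2 3))))), (.s k63 k42 6 (.s k23
  k43 5 (.s k37 k53 3 (.s k22 k20 0 (.s k7 k52 4 (.s k55 k39 3 (.d k4 k6 k38 0 4))))))), (.s k15 k10
  2 (.s k7 k11 1 (.s k37 k53 3 (.s k22 k52 4 (.s k20 k23 0 (.d k60 k40 k41 5 6)))))), (.s k15 k10 2
  (.s k63 k42 6 (.s k7 k11 1 (.s k23 k43 5 (.s k55 k39 3 (.d k4 k6 k38 0 4))))))] (.c k6 (.l (.s k42
  k63 6 (.s k37 k53 3 (.s k32 k47 2 (.s k48 k16 3 (.d k15 k10 k26 2 6)))))) .n)) (.c k4 (.f k1 k2 0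
  (.q k21 [(.s k42 k63 6 (.s k41 k61 5 (.s k60 k22 6 (.d k40 k43 k20 0 5)))), (.s k15 k10 2 (.s k42
  k63 6 (.s k37 k53 3 (.s k48 k26 6 (.d k32 k47 k16 2 3))))), (.s k15 k10 2 (.s k41 k61 5 (.s k7 k11
  1 (.s k37 k53 3 (.d k22 k52 k60 4 6)))))] (.c k164 (.q k244 [(.s k42 k63 6 (.s k41 k61 5 (.s k60
  k22 6 (.d k40 k43 k20 0 5)))), (.s k15 k10 2 (.s k42 k63 6 (.s k37 k53 3 (.s k48 k26 6 (.d k32 k47
  k16 2 3))))), (.s k15 k10 2 (.s k41 k61 5 (.s k7 k11 1 (.s k37 k53 3 (.d k22 k52 k60 4 6)))))] .n)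
  (.c k244 (.q k164 [(.s k42 k63 6 (.s k41 k61 5 (.s k60 k22 6 (.d k40 k43 k20 0 5)))), (.s k15 k10
  2 (.s k42 k63 6 (.s k37 k53 3 (.s k48 k26 6 (.d k32 k47 k16 2 3))))), (.s k15 k10 2 (.s k41 k61 5
  (.s k7 k11 1 (.s k37 k53 3 (.d k22 k52 k60 4 6)))))] .n) .n)))) (.c k6 (.q k21 [(.s k2 k1 0 (.s
  k42 k63 6 (.s k22 k62 5 (.s k60 k41 6 (.d k20 k23 k40 0 5))))), (.s k42 k63 6 (.s k37 k53 3 (.s
  k32 k47 2 (.s k48 k16 3 (.d k15 k10 k26 2 6))))), (.s k1 k2 0 (.s k13 k9 1 (.s k41 k61 5 (.s k37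
  k53 3 (.s k49 k25 5 (.d k33 k45 k17 1 3))))))] .n) (.c k9 (.q k21 [(.s k1 k2 0 (.s k42 k63 6 (.s
  k41 k61 5 (.s k60 k22 6 (.d k40 k43 k20 0 5))))), (.s k15 k10 2 (.s k42 k63 6 (.s k37 k53 3 (.s
  k48 k26 6 (.d k32 k47 k16 2 3))))), (.s k1 k2 0 (.s k15 k10 2 (.s k41 k61 5 (.s k11 k7 1 (.s k37
  k53 3 (.d k26 k56 k48 4 6))))))] .n) (.c k10 (.q k21 [(.s k2 k1 0 (.s k42 k63 6 (.s k22 k62 5 (.s
  k60 k41 6 (.d k20 k23 k40 0 5))))), (.s k1 k2 0 (.s k13 k9 1 (.s k41 k61 5 (.s k37 k53 3 (.s k49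
  k25 5 (.d k33 k45 k17 1 3)))))), (.s k63 k42 6 (.s k23 k43 5 (.s k37 k53 3 (.s k22 k20 0 (.s k7
  k52 4 (.s k55 k39 3 (.d k4 k6 k38 0 4)))))))] (.c k41 (.f k1 k2 0 (.l (.s k42 k63 6 (.s k13 k9 1
  (.s k37 k53 3 (.s k32 k47 2 (.s k48 k16 3 (.s k33 k18 4 (.d k49 k17 k25 3 5))))))))) .n)) (.c k11
  (.l (.s k2 k1 0 (.s k10 k15 2 (.s k6 k14 1 (.s k12 k9 2 (.d k4 k7 k8 0 1)))))) (.c k12 (.f k1 k2 0
  (.q k21 [(.s k42 k63 6 (.s k41 k61 5 (.s k60 k22 6 (.d k40 k43 k20 0 5)))), (.s k15 k10 2 (.s k41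
  k61 5 (.s k7 k11 1 (.s k37 k53 3 (.d k22 k52 k60 4 6))))), (.s k15 k10 2 (.s k42 k63 6 (.s k37 k53
  3 (.s k48 k26 6 (.d k32 k47 k16 2 3)))))] (.c k93 (.q k174 [(.s k42 k63 6 (.s k41 k61 5 (.s k60
  k22 6 (.d k40 k43 k20 0 5)))), (.s k15 k10 2 (.s k41 k61 5 (.s k7 k11 1 (.s k37 k53 3 (.d k22 k52
  k60 4 6))))), (.s k15 k10 2 (.s k42 k63 6 (.s k37 k53 3 (.s k48 k26 6 (.d k32 k47 k16 2 3)))))]
  .n) (.c k174 (.q k93 [(.s k42 k63 6 (.s k41 k61 5 (.s k60 k22 6 (.d k40 k43 k20 0 5)))), (.s k15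
  k10 2 (.s k41 k61 5 (.s k7 k11 1 (.s k37 k53 3 (.d k22 k52 k60 4 6))))), (.s k15 k10 2 (.s k42 k63
  6 (.s k37 k53 3 (.s k48 k26 6 (.d k32 k47 k16 2 3)))))] .n) .n)))) (.c k13 (.l (.s k2 k1 0 (.s k10
  k15 2 (.s k6 k14 1 (.s k12 k9 2 (.d k4 k7 k8 0 1)))))) (.c k14 (.l (.s k1 k2 0 (.s k10 k15 2 (.s
  k9 k13 1 (.s k12 k6 2 (.d k8 k11 k4 0 1)))))) (.c k15 (.f k1 k2 0 (.q k21 [(.s k13 k9 1 (.s k41
  k61 5 (.s k37 k53 3 (.s k49 k25 5 (.d k33 k45 k17 1 3))))), (.s k42 k63 6 (.s k41 k61 5 (.s k60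
  k22 6 (.d k40 k43 k20 0 5)))), (.s k42 k63 6 (.s k9 k13 1 (.s k12 k6 2 (.s k4 k8 1 (.s k38 k55 4
  (.s k51 k25 6 (.d k34 k46 k17 1 4)))))))] (.c k95 (.q k175 [(.s k13 k9 1 (.s k41 k61 5 (.s k37 k53
  3 (.s k49 k25 5 (.d k33 k45 k17 1 3))))), (.s k42 k63 6 (.s k41 k61 5 (.s k60 k22 6 (.d k40 k43
  k20 0 5)))), (.s k42 k63 6 (.s k9 k13 1 (.s k12 k6 2 (.s k4 k8 1 (.s k38 k55 4 (.s k51 k25 6 (.d
  k34 k46 k17 1 4)))))))] .n) (.c k175 (.q k95 [(.s k13 k9 1 (.s k41 k61 5 (.s k37 k53 3 (.s k49 k25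
  5 (.d k33 k45 k17 1 3))))), (.s k42 k63 6 (.s k41 k61 5 (.s k60 k22 6 (.d k40 k43 k20 0 5)))), (.s
  k42 k63 6 (.s k9 k13 1 (.s k12 k6 2 (.s k4 k8 1 (.s k38 k55 4 (.s k51 k25 6 (.d k34 k46 k17 1
  4)))))))] .n) .n)))) .n))))))))))))

def t85 : T TT 256 :=
  (.q k42 [(.s k1 k2 0 (.s k21 k63 6 (.s k41 k61 5 (.s k60 k22 6 (.d k40 k43 k20 0 5))))), (.s k2 k1
  0 (.s k63 k21 6 (.s k22 k62 5 (.s k41 k60 6 (.d k43 k40 k23 0 5)))))] (.c k1 (.q k48 [(.s k16 k32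
  3 (.s k21 k63 6 (.s k26 k31 2 (.s k10 k58 3 (.d k15 k5 k37 2 6))))), (.s k32 k16 3 (.s k33 k18 4
  (.s k37 k47 2 (.s k41 k45 1 (.s k60 k22 6 (.d k40 k43 k20 0 5)))))), (.s k63 k21 6 (.s k18 k33 4
  (.s k43 k23 5 (.s k41 k40 0 (.s k22 k60 6 (.s k26 k30 1 (.d k58 k53 k10 2 3)))))))] (.c k26 (.l
  (.s k32 k16 3 (.s k33 k18 4 (.s k35 k34 0 (.s k47 k37 2 (.s k43 k39 1 (.d k63 k21 k23 6 5)))))))
  (.c k169 (.q k253 [(.s k16 k32 3 (.s k21 k63 6 (.s k26 k31 2 (.s k10 k58 3 (.d k15 k5 k37 2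
  6))))), (.s k32 k16 3 (.s k33 k18 4 (.s k37 k47 2 (.s k41 k45 1 (.s k60 k22 6 (.d k40 k43 k20 0
  5)))))), (.s k63 k21 6 (.s k18 k33 4 (.s k43 k23 5 (.s k41 k40 0 (.s k22 k60 6 (.s k26 k30 1 (.d
  k58 k53 k10 2 3)))))))] (.c k26 (.l (.s k32 k16 3 (.s k33 k18 4 (.s k35 k34 0 (.s k47 k37 2 (.s
  k43 k39 1 (.d k63 k21 k23 6 5))))))) .n)) (.c k253 (.q k169 [(.s k16 k32 3 (.s k21 k63 6 (.s k26
  k31 2 (.s k10 k58 3 (.d k15 k5 k37 2 6))))), (.s k33 k18 4 (.s k252 k86 14 (.s k101 k237 9 (.s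
  k154 k207 14 (.d k184 k139 k116 4 9)))))] (.c k252 (.q k254 [(.s k16 k32 3 (.s k21 k63 6 (.s k26
  k31 2 (.s k10 k58 3 (.d k15 k5 k37 2 6))))), (.s k32 k16 3 (.s k33 k18 4 (.s k37 k47 2 (.s k41 k45
  1 (.s k60 k22 6 (.d k40 k43 k20 0 5)))))), (.s k63 k21 6 (.s k18 k33 4 (.s k43 k23 5 (.s k41 k40 0
  (.s k22 k60 6 (.s k26 k30 1 (.d k58 k53 k10 2 3)))))))] (.c k26 (.l (.s k32 k16 3 (.s k33 k18 4
  (.s k35 k34 0 (.s k47 k37 2 (.s k43 k39 1 (.d k63 k21 k23 6 5))))))) .n)) (.c k254 (.l (.s k252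
  k86 14 (.s k33 k18 4 (.s k101 k237 9 (.s k154 k207 14 (.d k184 k139 k116 4 9)))))) .n))) .n))))
  (.c k2 (.q k48 [(.s k16 k32 3 (.s k21 k63 6 (.s k26 k31 2 (.s k10 k58 3 (.d k15 k5 k37 2 6))))),
  (.s k32 k16 3 (.s k33 k18 4 (.s k37 k47 2 (.s k41 k45 1 (.s k40 k43 0 (.d k60 k20 k22 5 6)))))),
  (.s k63 k21 6 (.s k18 k33 4 (.s k43 k23 5 (.s k41 k40 0 (.s k22 k60 6 (.s k26 k30 1 (.d k58 k53
  k10 2 3)))))))] .n) (.c k21 (.q k48 [(.s k1 k2 0 (.s k33 k18 4 (.s k17 k49 3 (.s k34 k51 4 (.d k32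
  k35 k16 0 3))))), (.s k2 k1 0 (.s k32 k16 3 (.s k22 k62 5 (.s k37 k47 2 (.s k7 k52 4 (.d k15 k26
  k11 6 1)))))), (.s k32 k16 3 (.s k33 k18 4 (.s k37 k47 2 (.s k41 k45 1 (.s k60 k22 6 (.d k40 k20
  k43 5 0)))))), (.s k2 k1 0 (.s k22 k62 5 (.s k18 k33 4 (.s k26 k30 1 (.s k10 k58 3 (.d k15 k5 k37
  2 6))))))] (.c k149 (.q k213 [(.s k1 k2 0 (.s k33 k18 4 (.s k17 k49 3 (.s k34 k51 4 (.d k32 k35
  k16 0 3))))), (.s k2 k1 0 (.s k32 k16 3 (.s k22 k62 5 (.s k37 k47 2 (.s k7 k52 4 (.d k15 k26 k11 6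
  1)))))), (.s k32 k16 3 (.s k33 k18 4 (.s k37 k47 2 (.s k41 k45 1 (.s k60 k22 6 (.d k40 k20 k43 5
  0)))))), (.s k2 k1 0 (.s k22 k62 5 (.s k18 k33 4 (.s k26 k30 1 (.s k10 k58 3 (.d k15 k5 k37 2
  6))))))] .n) (.c k213 (.q k149 [(.s k1 k2 0 (.s k33 k18 4 (.s k17 k49 3 (.s k34 k51 4 (.d k32 k35
  k16 0 3))))), (.s k2 k1 0 (.s k32 k16 3 (.s k22 k62 5 (.s k37 k47 2 (.s k7 k52 4 (.d k15 k26 k11 6
  1)))))), (.s k32 k16 3 (.s k33 k18 4 (.s k37 k47 2 (.s k41 k45 1 (.s k60 k22 6 (.d k40 k20 k43 5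
  0)))))), (.s k2 k1 0 (.s k22 k62 5 (.s k18 k33 4 (.s k26 k30 1 (.s k10 k58 3 (.d k15 k5 k37 2
  6))))))] (.c k192 (.q k234 [(.s k1 k2 0 (.s k33 k18 4 (.s k17 k49 3 (.s k34 k51 4 (.d k32 k35 k16
  0 3))))), (.s k2 k1 0 (.s k32 k16 3 (.s k22 k62 5 (.s k37 k47 2 (.s k7 k52 4 (.d k15 k26 k11 6
  1)))))), (.s k32 k16 3 (.s k33 k18 4 (.s k37 k47 2 (.s k41 k45 1 (.s k60 k22 6 (.d k40 k20 k43 5
  0)))))), (.s k2 k1 0 (.s k22 k62 5 (.s k18 k33 4 (.s k26 k30 1 (.s k10 k58 3 (.d k15 k5 k37 2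
  6))))))] .n) (.c k234 (.q k192 [(.s k1 k2 0 (.s k32 k16 3 (.s k33 k18 4 (.s k17 k49 3 (.d k34 k35
  k51 0 4))))), (.s k1 k2 0 (.s k128 k64 7 (.s k129 k66 8 (.s k65 k193 7 (.d k130 k131 k195 0
  8))))), (.s k16 k32 3 (.s k128 k64 7 (.s k144 k96 11 (.s k80 k208 7 (.d k160 k176 k240 3 11)))))]
  .n) .n))) .n))) (.c k22 (.q k48 [(.s k16 k32 3 (.s k21 k63 6 (.s k26 k31 2 (.s k10 k58 3 (.d k15
  k5 k37 2 6))))), (.s k2 k1 0 (.s k16 k32 3 (.s k18 k33 4 (.s k34 k50 3 (.d k17 k19 k51 0 4))))),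
  (.s k1 k2 0 (.s k21 k63 6 (.s k41 k61 5 (.s k33 k18 4 (.s k37 k45 1 (.s k5 k53 3 (.d k15 k26 k10 6
  2)))))))] .n) (.c k40 (.q k48 [(.s k1 k2 0 (.s k33 k18 4 (.s k17 k49 3 (.s k34 k51 4 (.d k32 k35
  k16 0 3))))), (.s k16 k32 3 (.s k21 k63 6 (.s k26 k31 2 (.s k10 k58 3 (.d k15 k5 k37 2 6))))), (.s
  k2 k1 0 (.s k63 k21 6 (.s k22 k62 5 (.s k18 k33 4 (.s k26 k30 1 (.d k58 k53 k10 2 3))))))] .n) (.c
  k41 (.q k48 [(.s k16 k32 3 (.s k21 k63 6 (.s k26 k31 2 (.s k10 k58 3 (.d k15 k5 k37 2 6))))), (.s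
  k1 k2 0 (.s k32 k16 3 (.s k33 k18 4 (.s k17 k49 3 (.d k34 k35 k51 0 4))))), (.s k2 k1 0 (.s k22
  k62 5 (.s k18 k33 4 (.s k26 k30 1 (.s k10 k58 3 (.d k15 k37 k5 6 2))))))] .n) (.c k43 (.l (.s k2
  k1 0 (.s k21 k63 6 (.s k22 k62 5 (.s k60 k41 6 (.d k20 k23 k40 0 5)))))) (.c k60 (.q k48 [(.s k1
  k2 0 (.s k32 k16 3 (.s k33 k18 4 (.s k17 k49 3 (.d k34 k35 k51 0 4))))), (.s k16 k32 3 (.s k21 k63
  6 (.s k26 k31 2 (.s k10 k58 3 (.d k15 k5 k37 2 6))))), (.s k2 k1 0 (.s k63 k21 6 (.s k22 k62 5 (.s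
  k18 k33 4 (.s k26 k30 1 (.d k58 k53 k10 2 3))))))] (.c k125 (.q k190 [(.s k1 k2 0 (.s k32 k16 3
  (.s k33 k18 4 (.s k17 k49 3 (.d k34 k35 k51 0 4))))), (.s k16 k32 3 (.s k21 k63 6 (.s k26 k31 2
  (.s k10 k58 3 (.d k15 k5 k37 2 6))))), (.s k2 k1 0 (.s k63 k21 6 (.s k22 k62 5 (.s k18 k33 4 (.s
  k26 k30 1 (.d k58 k53 k10 2 3))))))] (.c k65 (.q k105 [(.s k1 k2 0 (.s k32 k16 3 (.s k33 k18 4 (.s
  k17 k49 3 (.d k34 k35 k51 0 4))))), (.s k16 k32 3 (.s k21 k63 6 (.s k26 k31 2 (.s k10 k58 3 (.d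
  k15 k5 k37 2 6))))), (.s k2 k1 0 (.s k63 k21 6 (.s k22 k62 5 (.s k18 k33 4 (.s k26 k30 1 (.d k58
  k53 k10 2 3))))))] .n) (.c k105 (.q k65 [(.s k1 k2 0 (.s k32 k16 3 (.s k33 k18 4 (.s k17 k49 3 (.d
  k34 k35 k51 0 4))))), (.s k16 k32 3 (.s k21 k63 6 (.s k26 k31 2 (.s k10 k58 3 (.d k15 k5 k37 2
  6))))), (.s k1 k2 0 (.s k195 k130 8 (.s k129 k193 7 (.s k66 k192 8 (.d k67 k64 k131 0 7)))))] (.c
  k150 (.l (.s k195 k130 8 (.s k1 k2 0 (.s k129 k193 7 (.s k66 k192 8 (.d k67 k64 k131 0 7)))))) (.c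
  k195 (.q k150 [(.s k2 k1 0 (.s k62 k22 5 (.s k106 k194 13 (.d k170 k130 k234 5 7)))), (.s k16 k32
  3 (.s k21 k63 6 (.s k26 k31 2 (.s k10 k58 3 (.d k15 k5 k37 2 6)))))] (.c k62 (.l (.s k1 k2 0 (.s
  k32 k16 3 (.s k33 k18 4 (.s k17 k49 3 (.d k34 k35 k51 0 4)))))) (.c k215 (.q k235 [(.s k2 k1 0 (.s
  k62 k22 5 (.s k106 k194 13 (.d k170 k130 k234 5 7)))), (.s k16 k32 3 (.s k21 k63 6 (.s k26 k31 2
  (.s k10 k58 3 (.d k15 k5 k37 2 6)))))] (.c k62 (.l (.s k1 k2 0 (.s k32 k16 3 (.s k33 k18 4 (.s k17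
  k49 3 (.d k34 k35 k51 0 4)))))) .n)) (.c k235 (.q k215 [(.s k170 k130 5 (.s k2 k1 0 (.s k22 k62 5
  (.d k86 k214 k254 7 13)))), (.s k1 k2 0 (.s k32 k16 3 (.s k33 k18 4 (.s k17 k49 3 (.d k34 k35 k51
  0 4))))), (.s k16 k32 3 (.s k21 k63 6 (.s k26 k31 2 (.s k10 k58 3 (.d k15 k5 k37 2 6)))))] (.c k40
  (.l (.s k170 k130 5 (.s k2 k1 0 (.s k22 k62 5 (.d k86 k214 k254 7 13))))) (.c k170 (.q k40 [(.s
  k63 k21 6 (.d k43 k41 k23 0 5)), (.s k1 k2 0 (.s k32 k16 3 (.s k33 k18 4 (.s k17 k49 3 (.d k34 k35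
  k51 0 4)))))] .n) .n))) .n)))) .n))) .n))) (.c k190 (.q k125 [(.s k1 k2 0 (.s k32 k16 3 (.s k33
  k18 4 (.s k17 k49 3 (.d k34 k35 k51 0 4))))), (.s k16 k32 3 (.s k21 k63 6 (.s k26 k31 2 (.s k10
  k58 3 (.d k15 k5 k37 2 6))))), (.s k2 k1 0 (.s k63 k21 6 (.s k22 k62 5 (.s k18 k33 4 (.s k26 k30 1
  (.d k58 k53 k10 2 3))))))] .n) .n))) (.c k61 (.l (.s k2 k1 0 (.s k21 k63 6 (.s k22 k62 5 (.s k60
  k41 6 (.d k20 k23 k40 0 5)))))) (.c k62 (.l (.s k1 k2 0 (.s k21 k63 6 (.s k41 k61 5 (.s k60 k22 6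
  (.d k40 k43 k20 0 5)))))) (.c k63 (.q k48 [(.s k1 k2 0 (.s k32 k16 3 (.s k33 k18 4 (.s k17 k49 3
  (.d k34 k35 k51 0 4))))), (.s k2 k1 0 (.s k32 k16 3 (.s k22 k62 5 (.s k60 k41 6 (.s k37 k47 2 (.d
  k52 k56 k7 1 4)))))), (.s k2 k1 0 (.s k22 k62 5 (.s k18 k33 4 (.s k26 k30 1 (.s k10 k58 3 (.d k15
  k5 k37 2 6)))))), (.s k32 k16 3 (.s k33 k18 4 (.s k37 k47 2 (.s k41 k45 1 (.s k60 k22 6 (.d k40
  k43 k20 0 5))))))] (.c k127 (.q k191 [(.s k1 k2 0 (.s k32 k16 3 (.s k33 k18 4 (.s k17 k49 3 (.d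
  k34 k35 k51 0 4))))), (.s k2 k1 0 (.s k32 k16 3 (.s k22 k62 5 (.s k60 k41 6 (.s k37 k47 2 (.d k52
  k56 k7 1 4)))))), (.s k2 k1 0 (.s k22 k62 5 (.s k18 k33 4 (.s k26 k30 1 (.s k10 k58 3 (.d k15 k5
  k37 2 6)))))), (.s k32 k16 3 (.s k33 k18 4 (.s k37 k47 2 (.s k41 k45 1 (.s k60 k22 6 (.d k40 k43
  k20 0 5))))))] (.c k64 (.q k106 [(.s k1 k2 0 (.s k32 k16 3 (.s k33 k18 4 (.s k17 k49 3 (.d k34 k35
  k51 0 4))))), (.s k2 k1 0 (.s k32 k16 3 (.s k22 k62 5 (.s k60 k41 6 (.s k37 k47 2 (.d k52 k56 k7 1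
  4)))))), (.s k2 k1 0 (.s k22 k62 5 (.s k18 k33 4 (.s k26 k30 1 (.s k10 k58 3 (.d k15 k5 k37 2
  6)))))), (.s k32 k16 3 (.s k33 k18 4 (.s k37 k47 2 (.s k41 k45 1 (.s k60 k22 6 (.d k40 k43 k20 0
  5))))))] .n) (.c k106 (.q k64 [(.s k1 k2 0 (.s k32 k16 3 (.s k33 k18 4 (.s k17 k49 3 (.d k34 k35
  k51 0 4))))), (.s k2 k1 0 (.s k192 k128 7 (.s k66 k129 8 (.s k130 k194 7 (.d k65 k67 k195 0
  8))))), (.s k32 k16 3 (.s k192 k128 7 (.s k96 k144 11 (.s k160 k224 7 (.d k80 k112 k240 3 11)))))]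
  (.c k149 (.l (.s k192 k128 7 (.s k2 k1 0 (.s k66 k129 8 (.s k130 k194 7 (.d k65 k67 k195 0 8))))))
  (.c k192 (.q k149 [(.s k1 k2 0 (.s k32 k16 3 (.s k33 k18 4 (.s k17 k49 3 (.d k34 k35 k51 0 4))))),
  (.s k2 k1 0 (.s k32 k16 3 (.s k22 k62 5 (.s k60 k41 6 (.s k37 k47 2 (.d k52 k56 k7 1 4)))))), (.s
  k2 k1 0 (.s k22 k62 5 (.s k18 k33 4 (.s k26 k30 1 (.s k10 k58 3 (.d k15 k5 k37 2 6)))))), (.s k32
  k16 3 (.s k33 k18 4 (.s k37 k47 2 (.s k41 k45 1 (.s k60 k22 6 (.d k40 k43 k20 0 5))))))] (.c k154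
  (.l (.s k1 k2 0 (.s k33 k18 4 (.s k17 k49 3 (.s k34 k51 4 (.d k32 k35 k16 0 3)))))) (.c k213 (.q
  k234 [(.s k1 k2 0 (.s k32 k16 3 (.s k33 k18 4 (.s k17 k49 3 (.d k34 k35 k51 0 4))))), (.s k2 k1 0
  (.s k32 k16 3 (.s k22 k62 5 (.s k60 k41 6 (.s k37 k47 2 (.d k52 k56 k7 1 4)))))), (.s k2 k1 0 (.s
  k22 k62 5 (.s k18 k33 4 (.s k26 k30 1 (.s k10 k58 3 (.d k15 k5 k37 2 6)))))), (.s k32 k16 3 (.s
  k33 k18 4 (.s k37 k47 2 (.s k41 k45 1 (.s k60 k22 6 (.d k40 k43 k20 0 5))))))] (.c k154 (.l (.s k1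
  k2 0 (.s k33 k18 4 (.s k17 k49 3 (.s k34 k51 4 (.d k32 k35 k16 0 3)))))) .n)) (.c k234 (.q k213
  [(.s k1 k2 0 (.s k32 k16 3 (.s k33 k18 4 (.s k17 k49 3 (.d k34 k35 k51 0 4))))), (.s k2 k1 0 (.s
  k32 k16 3 (.s k22 k62 5 (.s k60 k41 6 (.s k37 k47 2 (.d k52 k56 k7 1 4)))))), (.s k2 k1 0 (.s k22
  k62 5 (.s k18 k33 4 (.s k26 k30 1 (.s k10 k58 3 (.d k15 k5 k37 2 6)))))), (.s k32 k16 3 (.s k33
  k18 4 (.s k37 k47 2 (.s k41 k45 1 (.s k60 k22 6 (.d k40 k43 k20 0 5))))))] (.c k154 (.l (.s k1 k2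
  0 (.s k33 k18 4 (.s k17 k49 3 (.s k34 k51 4 (.d k32 k35 k16 0 3)))))) .n)) .n)))) .n))) .n))) (.c
  k191 (.q k127 [(.s k1 k2 0 (.s k32 k16 3 (.s k33 k18 4 (.s k17 k49 3 (.d k34 k35 k51 0 4))))), (.s
  k2 k1 0 (.s k32 k16 3 (.s k22 k62 5 (.s k60 k41 6 (.s k37 k47 2 (.d k52 k56 k7 1 4)))))), (.s k2
  k1 0 (.s k22 k62 5 (.s k18 k33 4 (.s k26 k30 1 (.s k10 k58 3 (.d k15 k5 k37 2 6)))))), (.s k32 k16
  3 (.s k33 k18 4 (.s k37 k47 2 (.s k41 k45 1 (.s k60 k22 6 (.d k40 k43 k20 0 5))))))] .n) .n)))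
  .n))))))))))))

def t86 : T TT 256 :=
  (.q k42 [(.s k2 k1 0 (.s k63 k21 6 (.s k22 k62 5 (.s k41 k60 6 (.d k43 k40 k23 0 5))))), (.s k1 k2
  0 (.s k21 k63 6 (.s k41 k61 5 (.s k60 k22 6 (.d k40 k43 k20 0 5)))))] (.c k1 (.q k48 [(.s k16 k32
  3 (.s k21 k63 6 (.s k26 k31 2 (.s k10 k58 3 (.d k15 k5 k37 2 6))))), (.s k32 k16 3 (.s k33 k18 4
  (.s k37 k47 2 (.s k41 k45 1 (.s k60 k22 6 (.d k40 k43 k20 0 5)))))), (.s k63 k21 6 (.s k18 k33 4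
  (.s k43 k23 5 (.s k41 k40 0 (.s k22 k60 6 (.s k26 k30 1 (.d k58 k53 k10 2 3)))))))] (.c k26 (.l
  (.s k32 k16 3 (.s k33 k18 4 (.s k35 k34 0 (.s k47 k37 2 (.s k43 k39 1 (.d k63 k21 k23 6 5)))))))
  .n)) (.c k2 (.q k48 [(.s k16 k32 3 (.s k21 k63 6 (.s k26 k31 2 (.s k10 k58 3 (.d k15 k5 k37 2
  6))))), (.s k32 k16 3 (.s k33 k18 4 (.s k37 k47 2 (.s k41 k45 1 (.s k40 k43 0 (.d k60 k20 k22 5
  6)))))), (.s k63 k21 6 (.s k18 k33 4 (.s k43 k23 5 (.s k41 k40 0 (.s k22 k60 6 (.s k26 k30 1 (.d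
  k58 k53 k10 2 3)))))))] (.c k170 (.q k254 [(.s k32 k16 3 (.s k63 k21 6 (.s k37 k47 2 (.s k26 k15 6
  (.d k58 k53 k10 2 3))))), (.s k32 k16 3 (.s k33 k18 4 (.s k37 k47 2 (.s k41 k45 1 (.s k40 k43 0
  (.d k60 k20 k22 5 6)))))), (.s k63 k21 6 (.s k18 k33 4 (.s k43 k23 5 (.s k41 k40 0 (.s k22 k60 6
  (.s k26 k30 1 (.d k58 k53 k10 2 3)))))))] .n) (.c k254 (.q k170 [(.s k16 k32 3 (.s k21 k63 6 (.s
  k26 k31 2 (.s k10 k58 3 (.d k15 k5 k37 2 6))))), (.s k32 k16 3 (.s k33 k18 4 (.s k37 k47 2 (.s k41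
  k45 1 (.s k40 k43 0 (.d k60 k20 k22 5 6)))))), (.s k63 k21 6 (.s k106 k234 7 (.s k58 k53 2 (.s
  k154 k202 11 (.s k207 k101 14 (.d k138 k186 k69 3 10))))))] (.c k37 (.l (.s k32 k16 3 (.s k63 k21
  6 (.s k101 k239 10 (.s k106 k234 7 (.s k53 k58 2 (.d k149 k192 k197 14 11))))))) (.c k252 (.q k253
  [(.s k16 k32 3 (.s k21 k63 6 (.s k26 k31 2 (.s k10 k58 3 (.d k15 k5 k37 2 6))))), (.s k32 k16 3
  (.s k33 k18 4 (.s k37 k47 2 (.s k41 k45 1 (.s k40 k43 0 (.d k60 k20 k22 5 6)))))), (.s k63 k21 6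
  (.s k106 k234 7 (.s k58 k53 2 (.s k154 k202 11 (.s k207 k101 14 (.d k138 k186 k69 3 10))))))] (.c
  k37 (.l (.s k32 k16 3 (.s k63 k21 6 (.s k101 k239 10 (.s k106 k234 7 (.s k53 k58 2 (.d k149 k192
  k197 14 11))))))) .n)) (.c k253 (.q k252 [(.s k16 k32 3 (.s k21 k63 6 (.s k26 k31 2 (.s k10 k58 3
  (.d k15 k5 k37 2 6))))), (.s k16 k32 3 (.s k84 k168 13 (.s k152 k220 9 (.s k100 k204 13 (.d k116
  k68 k184 3 9))))), (.s k63 k21 6 (.s k168 k84 13 (.s k43 k23 5 (.s k106 k234 7 (.d k169 k171 k232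
  0 8)))))] .n) .n)))) .n))) (.c k21 (.q k48 [(.s k2 k1 0 (.s k16 k32 3 (.s k18 k33 4 (.s k34 k50 3
  (.d k17 k19 k51 0 4))))), (.s k2 k1 0 (.s k32 k16 3 (.s k22 k62 5 (.s k37 k47 2 (.s k7 k52 4 (.d
  k15 k26 k11 6 1)))))), (.s k32 k16 3 (.s k33 k18 4 (.s k37 k47 2 (.s k41 k45 1 (.s k60 k22 6 (.d
  k40 k20 k43 5 0)))))), (.s k2 k1 0 (.s k22 k62 5 (.s k18 k33 4 (.s k26 k30 1 (.s k10 k58 3 (.d k15
  k5 k37 2 6))))))] (.c k41 (.l (.s k1 k2 0 (.s k32 k16 3 (.s k33 k18 4 (.s k17 k49 3 (.d k34 k35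
  k51 0 4)))))) .n)) (.c k22 (.q k48 [(.s k2 k1 0 (.s k16 k32 3 (.s k18 k33 4 (.s k34 k50 3 (.d k17
  k19 k51 0 4))))), (.s k16 k32 3 (.s k21 k63 6 (.s k26 k31 2 (.s k10 k58 3 (.d k15 k5 k37 2 6))))),
  (.s k1 k2 0 (.s k21 k63 6 (.s k41 k61 5 (.s k33 k18 4 (.s k37 k45 1 (.s k5 k53 3 (.d k15 k26 k10 6
  2)))))))] (.c k150 (.q k214 [(.s k2 k1 0 (.s k16 k32 3 (.s k18 k33 4 (.s k34 k50 3 (.d k17 k19 k51
  0 4))))), (.s k16 k32 3 (.s k21 k63 6 (.s k26 k31 2 (.s k10 k58 3 (.d k15 k5 k37 2 6))))), (.s k1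
  k2 0 (.s k21 k63 6 (.s k41 k61 5 (.s k33 k18 4 (.s k37 k45 1 (.s k5 k53 3 (.d k15 k26 k10 6
  2)))))))] .n) (.c k214 (.q k150 [(.s k2 k1 0 (.s k16 k32 3 (.s k18 k33 4 (.s k34 k50 3 (.d k17 k19
  k51 0 4))))), (.s k16 k32 3 (.s k21 k63 6 (.s k26 k31 2 (.s k10 k58 3 (.d k15 k5 k37 2 6))))), (.s
  k1 k2 0 (.s k21 k63 6 (.s k41 k61 5 (.s k33 k18 4 (.s k37 k45 1 (.s k5 k53 3 (.d k15 k26 k10 6
  2)))))))] .n) .n))) (.c k40 (.q k48 [(.s k2 k1 0 (.s k16 k32 3 (.s k18 k33 4 (.s k34 k50 3 (.d k17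
  k19 k51 0 4))))), (.s k16 k32 3 (.s k21 k63 6 (.s k26 k31 2 (.s k10 k58 3 (.d k15 k5 k37 2 6))))),
  (.s k2 k1 0 (.s k63 k21 6 (.s k22 k62 5 (.s k18 k33 4 (.s k26 k30 1 (.d k58 k53 k10 2 3))))))] .n)
  (.c k41 (.q k48 [(.s k16 k32 3 (.s k21 k63 6 (.s k26 k31 2 (.s k10 k58 3 (.d k15 k5 k37 2 6))))),
  (.s k1 k2 0 (.s k32 k16 3 (.s k33 k18 4 (.s k17 k49 3 (.d k34 k35 k51 0 4))))), (.s k2 k1 0 (.s
  k22 k62 5 (.s k18 k33 4 (.s k26 k30 1 (.s k10 k58 3 (.d k15 k37 k5 6 2))))))] .n) (.c k43 (.l (.s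
  k2 k1 0 (.s k21 k63 6 (.s k22 k62 5 (.s k60 k41 6 (.d k20 k23 k40 0 5)))))) (.c k60 (.q k48 [(.s
  k2 k1 0 (.s k16 k32 3 (.s k18 k33 4 (.s k34 k50 3 (.d k17 k19 k51 0 4))))), (.s k16 k32 3 (.s k21
  k63 6 (.s k26 k31 2 (.s k10 k58 3 (.d k15 k5 k37 2 6))))), (.s k2 k1 0 (.s k63 k21 6 (.s k22 k62 5
  (.s k18 k33 4 (.s k26 k30 1 (.d k58 k53 k10 2 3))))))] (.c k125 (.q k190 [(.s k2 k1 0 (.s k16 k32
  3 (.s k18 k33 4 (.s k34 k50 3 (.d k17 k19 k51 0 4))))), (.s k16 k32 3 (.s k21 k63 6 (.s k26 k31 2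
  (.s k10 k58 3 (.d k15 k5 k37 2 6))))), (.s k2 k1 0 (.s k63 k21 6 (.s k22 k62 5 (.s k18 k33 4 (.s
  k26 k30 1 (.d k58 k53 k10 2 3))))))] .n) (.c k190 (.q k125 [(.s k2 k1 0 (.s k16 k32 3 (.s k18 k33
  4 (.s k34 k50 3 (.d k17 k19 k51 0 4))))), (.s k16 k32 3 (.s k21 k63 6 (.s k26 k31 2 (.s k10 k58 3
  (.d k15 k5 k37 2 6))))), (.s k2 k1 0 (.s k63 k21 6 (.s k22 k62 5 (.s k18 k33 4 (.s k26 k30 1 (.d
  k58 k53 k10 2 3))))))] .n) .n))) (.c k61 (.l (.s k2 k1 0 (.s k21 k63 6 (.s k22 k62 5 (.s k60 k41 6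
  (.d k20 k23 k40 0 5)))))) (.c k62 (.l (.s k1 k2 0 (.s k21 k63 6 (.s k41 k61 5 (.s k60 k22 6 (.d
  k40 k43 k20 0 5)))))) (.c k63 (.q k48 [(.s k2 k1 0 (.s k16 k32 3 (.s k18 k33 4 (.s k34 k50 3 (.d
  k17 k19 k51 0 4))))), (.s k2 k1 0 (.s k32 k16 3 (.s k22 k62 5 (.s k60 k41 6 (.s k37 k47 2 (.d k52
  k56 k7 1 4)))))), (.s k32 k16 3 (.s k33 k18 4 (.s k37 k47 2 (.s k41 k45 1 (.s k60 k22 6 (.d k40
  k43 k20 0 5)))))), (.s k2 k1 0 (.s k22 k62 5 (.s k18 k33 4 (.s k26 k30 1 (.s k10 k58 3 (.d k15 k5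
  k37 2 6))))))] (.c k127 (.q k191 [(.s k2 k1 0 (.s k16 k32 3 (.s k18 k33 4 (.s k34 k50 3 (.d k17
  k19 k51 0 4))))), (.s k2 k1 0 (.s k32 k16 3 (.s k22 k62 5 (.s k60 k41 6 (.s k37 k47 2 (.d k52 k56
  k7 1 4)))))), (.s k32 k16 3 (.s k33 k18 4 (.s k37 k47 2 (.s k41 k45 1 (.s k60 k22 6 (.d k40 k43
  k20 0 5)))))), (.s k2 k1 0 (.s k22 k62 5 (.s k18 k33 4 (.s k26 k30 1 (.s k10 k58 3 (.d k15 k5 k37
  2 6))))))] .n) (.c k191 (.q k127 [(.s k2 k1 0 (.s k16 k32 3 (.s k18 k33 4 (.s k34 k50 3 (.d k17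
  k19 k51 0 4))))), (.s k2 k1 0 (.s k32 k16 3 (.s k22 k62 5 (.s k60 k41 6 (.s k37 k47 2 (.d k52 k56
  k7 1 4)))))), (.s k32 k16 3 (.s k33 k18 4 (.s k37 k47 2 (.s k41 k45 1 (.s k60 k22 6 (.d k40 k43
  k20 0 5)))))), (.s k2 k1 0 (.s k22 k62 5 (.s k18 k33 4 (.s k26 k30 1 (.s k10 k58 3 (.d k15 k5 k37
  2 6))))))] .n) .n))) .n))))))))))))

def t87 : T TT 256 :=
  (.q k42 [(.s k1 k2 0 (.s k21 k63 6 (.s k41 k61 5 (.s k60 k22 6 (.d k40 k43 k20 0 5))))), (.s k2 k1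
  0 (.s k63 k21 6 (.s k22 k62 5 (.s k41 k60 6 (.d k43 k40 k23 0 5)))))] (.c k1 (.q k48 [(.s k16 k32
  3 (.s k21 k63 6 (.s k26 k31 2 (.s k10 k58 3 (.d k15 k5 k37 2 6))))), (.s k32 k16 3 (.s k33 k18 4
  (.s k37 k47 2 (.s k41 k45 1 (.s k60 k22 6 (.d k40 k43 k20 0 5)))))), (.s k63 k21 6 (.s k18 k33 4
  (.s k43 k23 5 (.s k41 k40 0 (.s k22 k60 6 (.s k26 k30 1 (.d k58 k53 k10 2 3)))))))] (.c k26 (.l
  (.s k32 k16 3 (.s k33 k18 4 (.s k35 k34 0 (.s k47 k37 2 (.s k43 k39 1 (.d k63 k21 k23 6 5)))))))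
  .n)) (.c k2 (.q k48 [(.s k16 k32 3 (.s k21 k63 6 (.s k26 k31 2 (.s k10 k58 3 (.d k15 k5 k37 2
  6))))), (.s k32 k16 3 (.s k33 k18 4 (.s k37 k47 2 (.s k41 k45 1 (.s k40 k43 0 (.d k60 k20 k22 5
  6)))))), (.s k63 k21 6 (.s k18 k33 4 (.s k43 k23 5 (.s k41 k40 0 (.s k22 k60 6 (.s k26 k30 1 (.d
  k58 k53 k10 2 3)))))))] .n) (.c k21 (.q k48 [(.s k1 k2 0 (.s k33 k18 4 (.s k17 k49 3 (.s k34 k51 4
  (.d k32 k35 k16 0 3))))), (.s k2 k1 0 (.s k32 k16 3 (.s k22 k62 5 (.s k37 k47 2 (.s k7 k52 4 (.d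
  k15 k26 k11 6 1)))))), (.s k32 k16 3 (.s k33 k18 4 (.s k37 k47 2 (.s k41 k45 1 (.s k60 k22 6 (.d
  k40 k20 k43 5 0)))))), (.s k2 k1 0 (.s k22 k62 5 (.s k18 k33 4 (.s k26 k30 1 (.s k10 k58 3 (.d k15
  k5 k37 2 6))))))] .n) (.c k22 (.q k48 [(.s k2 k1 0 (.s k16 k32 3 (.s k18 k33 4 (.s k34 k50 3 (.d
  k17 k19 k51 0 4))))), (.s k16 k32 3 (.s k21 k63 6 (.s k26 k31 2 (.s k10 k58 3 (.d k15 k5 k37 2
  6))))), (.s k1 k2 0 (.s k21 k63 6 (.s k41 k61 5 (.s k33 k18 4 (.s k37 k45 1 (.s k5 k53 3 (.d k15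
  k26 k10 6 2)))))))] .n) (.c k40 (.q k48 [(.s k1 k2 0 (.s k32 k16 3 (.s k33 k18 4 (.s k17 k49 3 (.d
  k34 k35 k51 0 4))))), (.s k16 k32 3 (.s k21 k63 6 (.s k26 k31 2 (.s k10 k58 3 (.d k15 k5 k37 2
  6))))), (.s k2 k1 0 (.s k63 k21 6 (.s k22 k62 5 (.s k18 k33 4 (.s k26 k30 1 (.d k58 k53 k10 2
  3))))))] .n) (.c k41 (.q k48 [(.s k1 k2 0 (.s k32 k16 3 (.s k33 k18 4 (.s k17 k49 3 (.d k34 k35
  k51 0 4))))), (.s k16 k32 3 (.s k21 k63 6 (.s k26 k31 2 (.s k10 k58 3 (.d k15 k5 k37 2 6))))), (.s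
  k2 k1 0 (.s k22 k62 5 (.s k18 k33 4 (.s k26 k30 1 (.s k10 k58 3 (.d k15 k37 k5 6 2))))))] .n) (.c
  k43 (.l (.s k2 k1 0 (.s k21 k63 6 (.s k22 k62 5 (.s k60 k41 6 (.d k20 k23 k40 0 5)))))) (.c k60
  (.q k48 [(.s k1 k2 0 (.s k32 k16 3 (.s k33 k18 4 (.s k17 k49 3 (.d k34 k35 k51 0 4))))), (.s k16
  k32 3 (.s k21 k63 6 (.s k26 k31 2 (.s k10 k58 3 (.d k15 k5 k37 2 6))))), (.s k2 k1 0 (.s k63 k21 6
  (.s k22 k62 5 (.s k18 k33 4 (.s k26 k30 1 (.d k58 k53 k10 2 3))))))] (.c k125 (.q k190 [(.s k1 k2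
  0 (.s k32 k16 3 (.s k33 k18 4 (.s k17 k49 3 (.d k34 k35 k51 0 4))))), (.s k16 k32 3 (.s k21 k63 6
  (.s k26 k31 2 (.s k10 k58 3 (.d k15 k5 k37 2 6))))), (.s k2 k1 0 (.s k63 k21 6 (.s k22 k62 5 (.s
  k18 k33 4 (.s k26 k30 1 (.d k58 k53 k10 2 3))))))] .n) (.c k190 (.q k125 [(.s k1 k2 0 (.s k32 k16
  3 (.s k33 k18 4 (.s k17 k49 3 (.d k34 k35 k51 0 4))))), (.s k16 k32 3 (.s k21 k63 6 (.s k26 k31 2
  (.s k10 k58 3 (.d k15 k5 k37 2 6))))), (.s k2 k1 0 (.s k63 k21 6 (.s k22 k62 5 (.s k18 k33 4 (.s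
  k26 k30 1 (.d k58 k53 k10 2 3))))))] .n) .n))) (.c k61 (.l (.s k2 k1 0 (.s k21 k63 6 (.s k22 k62 5
  (.s k60 k41 6 (.d k20 k23 k40 0 5)))))) (.c k62 (.l (.s k1 k2 0 (.s k21 k63 6 (.s k41 k61 5 (.s
  k60 k22 6 (.d k40 k43 k20 0 5)))))) (.c k63 (.q k48 [(.s k1 k2 0 (.s k32 k16 3 (.s k33 k18 4 (.s
  k17 k49 3 (.d k34 k35 k51 0 4))))), (.s k2 k1 0 (.s k32 k16 3 (.s k22 k62 5 (.s k60 k41 6 (.s k37
  k47 2 (.d k52 k56 k7 1 4)))))), (.s k32 k16 3 (.s k33 k18 4 (.s k37 k47 2 (.s k41 k45 1 (.s k60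
  k22 6 (.d k40 k43 k20 0 5)))))), (.s k2 k1 0 (.s k22 k62 5 (.s k18 k33 4 (.s k26 k30 1 (.s k10 k58
  3 (.d k15 k5 k37 2 6))))))] (.c k127 (.q k191 [(.s k1 k2 0 (.s k32 k16 3 (.s k33 k18 4 (.s k17 k49
  3 (.d k34 k35 k51 0 4))))), (.s k2 k1 0 (.s k32 k16 3 (.s k22 k62 5 (.s k60 k41 6 (.s k37 k47 2
  (.d k52 k56 k7 1 4)))))), (.s k32 k16 3 (.s k33 k18 4 (.s k37 k47 2 (.s k41 k45 1 (.s k60 k22 6
  (.d k40 k43 k20 0 5)))))), (.s k2 k1 0 (.s k22 k62 5 (.s k18 k33 4 (.s k26 k30 1 (.s k10 k58 3 (.d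
  k15 k5 k37 2 6))))))] (.c k67 (.q k107 [(.s k1 k2 0 (.s k32 k16 3 (.s k33 k18 4 (.s k17 k49 3 (.d
  k34 k35 k51 0 4))))), (.s k2 k1 0 (.s k32 k16 3 (.s k22 k62 5 (.s k60 k41 6 (.s k37 k47 2 (.d k52
  k56 k7 1 4)))))), (.s k32 k16 3 (.s k33 k18 4 (.s k37 k47 2 (.s k41 k45 1 (.s k60 k22 6 (.d k40
  k43 k20 0 5)))))), (.s k2 k1 0 (.s k22 k62 5 (.s k18 k33 4 (.s k26 k30 1 (.s k10 k58 3 (.d k15 k5
  k37 2 6))))))] .n) (.c k107 (.q k67 [(.s k33 k18 4 (.s k195 k131 7 (.s k97 k146 12 (.s k161 k225 7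
  (.d k82 k112 k240 4 12))))), (.s k1 k2 0 (.s k195 k131 7 (.s k65 k130 8 (.s k129 k193 7 (.d k66
  k64 k192 0 8)))))] (.c k131 (.l (.s k1 k2 0 (.s k32 k16 3 (.s k33 k18 4 (.s k17 k49 3 (.d k34 k35
  k51 0 4)))))) (.c k151 (.l (.s k195 k131 7 (.s k1 k2 0 (.s k65 k130 8 (.s k129 k193 7 (.d k66 k64
  k192 0 8)))))) (.c k195 (.q k151 [(.s k1 k2 0 (.s k32 k16 3 (.s k33 k18 4 (.s k17 k49 3 (.d k34
  k35 k51 0 4))))), (.s k2 k1 0 (.s k32 k16 3 (.s k22 k62 5 (.s k60 k41 6 (.s k37 k47 2 (.d k52 k56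
  k7 1 4)))))), (.s k32 k16 3 (.s k33 k18 4 (.s k37 k47 2 (.s k41 k45 1 (.s k60 k22 6 (.d k40 k43
  k20 0 5)))))), (.s k2 k1 0 (.s k22 k62 5 (.s k18 k33 4 (.s k26 k30 1 (.s k10 k58 3 (.d k15 k5 k37
  2 6))))))] (.c k215 (.q k235 [(.s k1 k2 0 (.s k32 k16 3 (.s k33 k18 4 (.s k17 k49 3 (.d k34 k35
  k51 0 4))))), (.s k2 k1 0 (.s k32 k16 3 (.s k22 k62 5 (.s k60 k41 6 (.s k37 k47 2 (.d k52 k56 k7 1
  4)))))), (.s k32 k16 3 (.s k33 k18 4 (.s k37 k47 2 (.s k41 k45 1 (.s k60 k22 6 (.d k40 k43 k20 0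
  5)))))), (.s k2 k1 0 (.s k22 k62 5 (.s k18 k33 4 (.s k26 k30 1 (.s k10 k58 3 (.d k15 k5 k37 2
  6))))))] .n) (.c k235 (.q k215 [(.s k1 k2 0 (.s k32 k16 3 (.s k33 k18 4 (.s k17 k49 3 (.d k34 k35
  k51 0 4))))), (.s k2 k1 0 (.s k32 k16 3 (.s k22 k62 5 (.s k60 k41 6 (.s k37 k47 2 (.d k52 k56 k7 1
  4)))))), (.s k32 k16 3 (.s k33 k18 4 (.s k37 k47 2 (.s k41 k45 1 (.s k60 k22 6 (.d k40 k43 k20 0
  5)))))), (.s k2 k1 0 (.s k22 k62 5 (.s k18 k33 4 (.s k26 k30 1 (.s k10 k58 3 (.d k15 k5 k37 2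
  6))))))] (.c k43 (.l (.s k171 k131 5 (.s k1 k2 0 (.s k32 k16 3 (.s k33 k18 4 (.s k17 k49 3 (.d k34
  k35 k51 0 4))))))) (.c k171 (.q k43 [(.s k2 k1 0 (.s k22 k62 5 (.d k41 k60 k40 6 0))), (.s k32 k16
  3 (.s k33 k18 4 (.s k35 k34 0 (.d k47 k39 k37 1 2))))] (.c k2 (.l (.s k32 k16 3 (.s k33 k18 4 (.s
  k37 k47 2 (.d k41 k40 k45 0 1))))) .n)) .n))) .n))) .n)))) .n))) (.c k191 (.q k127 [(.s k1 k2 0
  (.s k32 k16 3 (.s k33 k18 4 (.s k17 k49 3 (.d k34 k35 k51 0 4))))), (.s k2 k1 0 (.s k32 k16 3 (.s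
  k22 k62 5 (.s k60 k41 6 (.s k37 k47 2 (.d k52 k56 k7 1 4)))))), (.s k32 k16 3 (.s k33 k18 4 (.s
  k37 k47 2 (.s k41 k45 1 (.s k60 k22 6 (.d k40 k43 k20 0 5)))))), (.s k2 k1 0 (.s k22 k62 5 (.s k18
  k33 4 (.s k26 k30 1 (.s k10 k58 3 (.d k15 k5 k37 2 6))))))] .n) .n))) .n))))))))))))

def t88 : T TT 256 :=
  (.q k42 [(.s k1 k2 0 (.s k21 k63 6 (.s k41 k61 5 (.s k60 k22 6 (.d k40 k43 k20 0 5))))), (.s k2 k1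
  0 (.s k63 k21 6 (.s k22 k62 5 (.s k41 k60 6 (.d k43 k40 k23 0 5)))))] (.c k1 (.q k48 [(.s k16 k32
  3 (.s k21 k63 6 (.s k26 k31 2 (.s k10 k58 3 (.d k15 k5 k37 2 6))))), (.s k32 k16 3 (.s k33 k18 4
  (.s k37 k47 2 (.s k41 k45 1 (.s k60 k22 6 (.d k40 k43 k20 0 5)))))), (.s k63 k21 6 (.s k18 k33 4
  (.s k43 k23 5 (.s k41 k40 0 (.s k22 k60 6 (.s k26 k30 1 (.d k58 k53 k10 2 3)))))))] (.c k26 (.l
  (.s k32 k16 3 (.s k33 k18 4 (.s k35 k34 0 (.s k47 k37 2 (.s k43 k39 1 (.d k63 k21 k23 6 5)))))))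
  .n)) (.c k2 (.q k48 [(.s k16 k32 3 (.s k21 k63 6 (.s k26 k31 2 (.s k10 k58 3 (.d k15 k5 k37 2
  6))))), (.s k32 k16 3 (.s k33 k18 4 (.s k37 k47 2 (.s k41 k45 1 (.s k40 k43 0 (.d k60 k20 k22 5
  6)))))), (.s k63 k21 6 (.s k18 k33 4 (.s k43 k23 5 (.s k41 k40 0 (.s k22 k60 6 (.s k26 k30 1 (.d
  k58 k53 k10 2 3)))))))] .n) (.c k21 (.q k48 [(.s k1 k2 0 (.s k33 k18 4 (.s k17 k49 3 (.s k34 k51 4
  (.d k32 k35 k16 0 3))))), (.s k2 k1 0 (.s k32 k16 3 (.s k22 k62 5 (.s k37 k47 2 (.s k7 k52 4 (.d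
  k15 k26 k11 6 1)))))), (.s k32 k16 3 (.s k33 k18 4 (.s k37 k47 2 (.s k41 k45 1 (.s k60 k22 6 (.d
  k40 k20 k43 5 0)))))), (.s k2 k1 0 (.s k22 k62 5 (.s k18 k33 4 (.s k26 k30 1 (.s k10 k58 3 (.d k15
  k5 k37 2 6))))))] .n) (.c k22 (.q k48 [(.s k2 k1 0 (.s k16 k32 3 (.s k18 k33 4 (.s k34 k50 3 (.d
  k17 k19 k51 0 4))))), (.s k16 k32 3 (.s k21 k63 6 (.s k26 k31 2 (.s k10 k58 3 (.d k15 k5 k37 2
  6))))), (.s k1 k2 0 (.s k21 k63 6 (.s k41 k61 5 (.s k33 k18 4 (.s k37 k45 1 (.s k5 k53 3 (.d k15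
  k26 k10 6 2)))))))] .n) (.c k40 (.q k48 [(.s k1 k2 0 (.s k32 k16 3 (.s k33 k18 4 (.s k17 k49 3 (.d
  k34 k35 k51 0 4))))), (.s k16 k32 3 (.s k21 k63 6 (.s k26 k31 2 (.s k10 k58 3 (.d k15 k5 k37 2
  6))))), (.s k2 k1 0 (.s k63 k21 6 (.s k22 k62 5 (.s k18 k33 4 (.s k26 k30 1 (.d k58 k53 k10 2
  3))))))] .n) (.c k41 (.q k48 [(.s k1 k2 0 (.s k32 k16 3 (.s k33 k18 4 (.s k17 k49 3 (.d k34 k35
  k51 0 4))))), (.s k16 k32 3 (.s k21 k63 6 (.s k26 k31 2 (.s k10 k58 3 (.d k15 k5 k37 2 6))))), (.s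
  k2 k1 0 (.s k22 k62 5 (.s k18 k33 4 (.s k26 k30 1 (.s k10 k58 3 (.d k15 k37 k5 6 2))))))] .n) (.c
  k43 (.l (.s k2 k1 0 (.s k21 k63 6 (.s k22 k62 5 (.s k60 k41 6 (.d k20 k23 k40 0 5)))))) (.c k60
  (.q k48 [(.s k1 k2 0 (.s k32 k16 3 (.s k33 k18 4 (.s k17 k49 3 (.d k34 k35 k51 0 4))))), (.s k16
  k32 3 (.s k21 k63 6 (.s k26 k31 2 (.s k10 k58 3 (.d k15 k5 k37 2 6))))), (.s k2 k1 0 (.s k63 k21 6
  (.s k22 k62 5 (.s k18 k33 4 (.s k26 k30 1 (.d k58 k53 k10 2 3))))))] (.c k125 (.q k190 [(.s k1 k2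
  0 (.s k32 k16 3 (.s k33 k18 4 (.s k17 k49 3 (.d k34 k35 k51 0 4))))), (.s k16 k32 3 (.s k21 k63 6
  (.s k26 k31 2 (.s k10 k58 3 (.d k15 k5 k37 2 6))))), (.s k2 k1 0 (.s k63 k21 6 (.s k22 k62 5 (.s
  k18 k33 4 (.s k26 k30 1 (.d k58 k53 k10 2 3))))))] .n) (.c k190 (.q k125 [(.s k1 k2 0 (.s k32 k16
  3 (.s k33 k18 4 (.s k17 k49 3 (.d k34 k35 k51 0 4))))), (.s k16 k32 3 (.s k21 k63 6 (.s k26 k31 2
  (.s k10 k58 3 (.d k15 k5 k37 2 6))))), (.s k2 k1 0 (.s k63 k21 6 (.s k22 k62 5 (.s k18 k33 4 (.s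
  k26 k30 1 (.d k58 k53 k10 2 3))))))] .n) .n))) (.c k61 (.l (.s k2 k1 0 (.s k21 k63 6 (.s k22 k62 5
  (.s k60 k41 6 (.d k20 k23 k40 0 5)))))) (.c k62 (.l (.s k1 k2 0 (.s k21 k63 6 (.s k41 k61 5 (.s
  k60 k22 6 (.d k40 k43 k20 0 5)))))) (.c k63 (.q k48 [(.s k1 k2 0 (.s k32 k16 3 (.s k33 k18 4 (.s
  k17 k49 3 (.d k34 k35 k51 0 4))))), (.s k2 k1 0 (.s k32 k16 3 (.s k22 k62 5 (.s k60 k41 6 (.s k37
  k47 2 (.d k52 k56 k7 1 4)))))), (.s k32 k16 3 (.s k33 k18 4 (.s k37 k47 2 (.s k41 k45 1 (.s k60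
  k22 6 (.d k40 k43 k20 0 5)))))), (.s k2 k1 0 (.s k22 k62 5 (.s k18 k33 4 (.s k26 k30 1 (.s k10 k58
  3 (.d k15 k5 k37 2 6))))))] (.c k127 (.q k191 [(.s k1 k2 0 (.s k32 k16 3 (.s k33 k18 4 (.s k17 k49
  3 (.d k34 k35 k51 0 4))))), (.s k2 k1 0 (.s k32 k16 3 (.s k22 k62 5 (.s k60 k41 6 (.s k37 k47 2
  (.d k52 k56 k7 1 4)))))), (.s k32 k16 3 (.s k33 k18 4 (.s k37 k47 2 (.s k41 k45 1 (.s k60 k22 6
  (.d k40 k43 k20 0 5)))))), (.s k2 k1 0 (.s k22 k62 5 (.s k18 k33 4 (.s k26 k30 1 (.s k10 k58 3 (.d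
  k15 k5 k37 2 6))))))] .n) (.c k191 (.q k127 [(.s k1 k2 0 (.s k32 k16 3 (.s k33 k18 4 (.s k17 k49 3
  (.d k34 k35 k51 0 4))))), (.s k2 k1 0 (.s k32 k16 3 (.s k22 k62 5 (.s k60 k41 6 (.s k37 k47 2 (.d
  k52 k56 k7 1 4)))))), (.s k32 k16 3 (.s k33 k18 4 (.s k37 k47 2 (.s k41 k45 1 (.s k60 k22 6 (.d
  k40 k43 k20 0 5)))))), (.s k2 k1 0 (.s k22 k62 5 (.s k18 k33 4 (.s k26 k30 1 (.s k10 k58 3 (.d k15
  k5 k37 2 6))))))] .n) .n))) .n))))))))))))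

def t89 : T TT 256 :=
  (.q k42 [(.s k1 k2 0 (.s k21 k63 6 (.s k41 k61 5 (.s k60 k22 6 (.d k40 k43 k20 0 5))))), (.s k2 k1
  0 (.s k63 k21 6 (.s k22 k62 5 (.s k41 k60 6 (.d k43 k40 k23 0 5)))))] (.c k1 (.q k48 [(.s k16 k32
  3 (.s k21 k63 6 (.s k26 k31 2 (.s k10 k58 3 (.d k15 k5 k37 2 6))))), (.s k32 k16 3 (.s k33 k18 4
  (.s k37 k47 2 (.s k41 k45 1 (.s k60 k22 6 (.d k40 k43 k20 0 5)))))), (.s k63 k21 6 (.s k18 k33 4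
  (.s k43 k23 5 (.s k41 k40 0 (.s k22 k60 6 (.s k26 k30 1 (.d k58 k53 k10 2 3)))))))] (.c k26 (.l
  (.s k32 k16 3 (.s k33 k18 4 (.s k35 k34 0 (.s k47 k37 2 (.s k43 k39 1 (.d k63 k21 k23 6 5)))))))
  .n)) (.c k2 (.q k48 [(.s k16 k32 3 (.s k21 k63 6 (.s k26 k31 2 (.s k10 k58 3 (.d k15 k5 k37 2
  6))))), (.s k32 k16 3 (.s k33 k18 4 (.s k37 k47 2 (.s k41 k45 1 (.s k40 k43 0 (.d k60 k20 k22 5
  6)))))), (.s k63 k21 6 (.s k18 k33 4 (.s k43 k23 5 (.s k41 k40 0 (.s k22 k60 6 (.s k26 k30 1 (.d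
  k58 k53 k10 2 3)))))))] .n) (.c k21 (.q k48 [(.s k1 k2 0 (.s k33 k18 4 (.s k17 k49 3 (.s k34 k51 4
  (.d k32 k35 k16 0 3))))), (.s k2 k1 0 (.s k32 k16 3 (.s k22 k62 5 (.s k37 k47 2 (.s k7 k52 4 (.d
  k15 k26 k11 6 1)))))), (.s k32 k16 3 (.s k33 k18 4 (.s k37 k47 2 (.s k41 k45 1 (.s k60 k22 6 (.d
  k40 k20 k43 5 0)))))), (.s k2 k1 0 (.s k22 k62 5 (.s k18 k33 4 (.s k26 k30 1 (.s k10 k58 3 (.d k15
  k5 k37 2 6))))))] .n) (.c k22 (.q k48 [(.s k2 k1 0 (.s k16 k32 3 (.s k18 k33 4 (.s k34 k50 3 (.d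
  k17 k19 k51 0 4))))), (.s k16 k32 3 (.s k21 k63 6 (.s k26 k31 2 (.s k10 k58 3 (.d k15 k5 k37 2
  6))))), (.s k1 k2 0 (.s k21 k63 6 (.s k41 k61 5 (.s k33 k18 4 (.s k37 k45 1 (.s k5 k53 3 (.d k15
  k26 k10 6 2)))))))] .n) (.c k40 (.q k48 [(.s k1 k2 0 (.s k32 k16 3 (.s k33 k18 4 (.s k17 k49 3 (.d
  k34 k35 k51 0 4))))), (.s k16 k32 3 (.s k21 k63 6 (.s k26 k31 2 (.s k10 k58 3 (.d k15 k5 k37 2
  6))))), (.s k2 k1 0 (.s k63 k21 6 (.s k22 k62 5 (.s k18 k33 4 (.s k26 k30 1 (.d k58 k53 k10 2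
  3))))))] .n) (.c k41 (.q k48 [(.s k1 k2 0 (.s k32 k16 3 (.s k33 k18 4 (.s k17 k49 3 (.d k34 k35
  k51 0 4))))), (.s k16 k32 3 (.s k21 k63 6 (.s k26 k31 2 (.s k10 k58 3 (.d k15 k5 k37 2 6))))), (.s
  k2 k1 0 (.s k22 k62 5 (.s k18 k33 4 (.s k26 k30 1 (.s k10 k58 3 (.d k15 k37 k5 6 2))))))] .n) (.c
  k43 (.l (.s k2 k1 0 (.s k21 k63 6 (.s k22 k62 5 (.s k60 k41 6 (.d k20 k23 k40 0 5)))))) (.c k60
  (.q k48 [(.s k1 k2 0 (.s k32 k16 3 (.s k33 k18 4 (.s k17 k49 3 (.d k34 k35 k51 0 4))))), (.s k16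
  k32 3 (.s k21 k63 6 (.s k26 k31 2 (.s k10 k58 3 (.d k15 k5 k37 2 6))))), (.s k2 k1 0 (.s k63 k21 6
  (.s k22 k62 5 (.s k18 k33 4 (.s k26 k30 1 (.d k58 k53 k10 2 3))))))] (.c k125 (.q k190 [(.s k1 k2
  0 (.s k32 k16 3 (.s k33 k18 4 (.s k17 k49 3 (.d k34 k35 k51 0 4))))), (.s k16 k32 3 (.s k21 k63 6
  (.s k26 k31 2 (.s k10 k58 3 (.d k15 k5 k37 2 6))))), (.s k2 k1 0 (.s k63 k21 6 (.s k22 k62 5 (.s
  k18 k33 4 (.s k26 k30 1 (.d k58 k53 k10 2 3))))))] .n) (.c k190 (.q k125 [(.s k1 k2 0 (.s k32 k16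
  3 (.s k33 k18 4 (.s k17 k49 3 (.d k34 k35 k51 0 4))))), (.s k16 k32 3 (.s k21 k63 6 (.s k26 k31 2
  (.s k10 k58 3 (.d k15 k5 k37 2 6))))), (.s k2 k1 0 (.s k63 k21 6 (.s k22 k62 5 (.s k18 k33 4 (.s
  k26 k30 1 (.d k58 k53 k10 2 3))))))] .n) .n))) (.c k61 (.l (.s k2 k1 0 (.s k21 k63 6 (.s k22 k62 5
  (.s k60 k41 6 (.d k20 k23 k40 0 5)))))) (.c k62 (.l (.s k1 k2 0 (.s k21 k63 6 (.s k41 k61 5 (.s
  k60 k22 6 (.d k40 k43 k20 0 5)))))) (.c k63 (.q k48 [(.s k1 k2 0 (.s k32 k16 3 (.s k33 k18 4 (.s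
  k17 k49 3 (.d k34 k35 k51 0 4))))), (.s k2 k1 0 (.s k32 k16 3 (.s k22 k62 5 (.s k60 k41 6 (.s k37
  k47 2 (.d k52 k56 k7 1 4)))))), (.s k32 k16 3 (.s k33 k18 4 (.s k37 k47 2 (.s k41 k45 1 (.s k60
  k22 6 (.d k40 k43 k20 0 5)))))), (.s k2 k1 0 (.s k22 k62 5 (.s k18 k33 4 (.s k26 k30 1 (.s k10 k58
  3 (.d k15 k5 k37 2 6))))))] (.c k127 (.q k191 [(.s k1 k2 0 (.s k32 k16 3 (.s k33 k18 4 (.s k17 k49
  3 (.d k34 k35 k51 0 4))))), (.s k2 k1 0 (.s k32 k16 3 (.s k22 k62 5 (.s k60 k41 6 (.s k37 k47 2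
  (.d k52 k56 k7 1 4)))))), (.s k32 k16 3 (.s k33 k18 4 (.s k37 k47 2 (.s k41 k45 1 (.s k60 k22 6
  (.d k40 k43 k20 0 5)))))), (.s k2 k1 0 (.s k22 k62 5 (.s k18 k33 4 (.s k26 k30 1 (.s k10 k58 3 (.d
  k15 k5 k37 2 6))))))] .n) (.c k191 (.q k127 [(.s k1 k2 0 (.s k32 k16 3 (.s k33 k18 4 (.s k17 k49 3
  (.d k34 k35 k51 0 4))))), (.s k2 k1 0 (.s k32 k16 3 (.s k22 k62 5 (.s k60 k41 6 (.s k37 k47 2 (.d
  k52 k56 k7 1 4)))))), (.s k32 k16 3 (.s k33 k18 4 (.s k37 k47 2 (.s k41 k45 1 (.s k60 k22 6 (.d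
  k40 k43 k20 0 5)))))), (.s k2 k1 0 (.s k22 k62 5 (.s k18 k33 4 (.s k26 k30 1 (.s k10 k58 3 (.d k15
  k5 k37 2 6))))))] .n) .n))) .n))))))))))))

def t90 : T TT 256 :=
  (.q k42 [(.s k1 k2 0 (.s k21 k63 6 (.s k41 k61 5 (.s k60 k22 6 (.d k40 k43 k20 0 5))))), (.s k2 k1
  0 (.s k63 k21 6 (.s k22 k62 5 (.s k41 k60 6 (.d k43 k40 k23 0 5)))))] (.c k1 (.q k48 [(.s k32 k16
  3 (.s k21 k63 6 (.s k37 k47 2 (.s k5 k53 3 (.d k15 k10 k26 2 6))))), (.s k32 k16 3 (.s k33 k18 4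
  (.s k37 k47 2 (.s k41 k45 1 (.s k60 k22 6 (.d k40 k43 k20 0 5)))))), (.s k63 k21 6 (.s k18 k33 4
  (.s k43 k23 5 (.s k41 k40 0 (.s k22 k60 6 (.s k26 k30 1 (.d k58 k53 k10 2 3)))))))] (.c k26 (.l
  (.s k32 k16 3 (.s k33 k18 4 (.s k35 k34 0 (.s k47 k37 2 (.s k43 k39 1 (.d k63 k21 k23 6 5)))))))
  .n)) (.c k2 (.q k48 [(.s k32 k16 3 (.s k21 k63 6 (.s k37 k47 2 (.s k5 k53 3 (.d k15 k10 k26 2
  6))))), (.s k32 k16 3 (.s k33 k18 4 (.s k37 k47 2 (.s k41 k45 1 (.s k40 k43 0 (.d k60 k20 k22 5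
  6)))))), (.s k63 k21 6 (.s k18 k33 4 (.s k43 k23 5 (.s k41 k40 0 (.s k22 k60 6 (.s k26 k30 1 (.d
  k58 k53 k10 2 3)))))))] .n) (.c k21 (.q k48 [(.s k1 k2 0 (.s k33 k18 4 (.s k17 k49 3 (.s k34 k51 4
  (.d k32 k35 k16 0 3))))), (.s k2 k1 0 (.s k32 k16 3 (.s k22 k62 5 (.s k37 k47 2 (.s k7 k52 4 (.d
  k15 k26 k11 6 1)))))), (.s k32 k16 3 (.s k33 k18 4 (.s k37 k47 2 (.s k41 k45 1 (.s k60 k22 6 (.d
  k40 k20 k43 5 0)))))), (.s k2 k1 0 (.s k22 k62 5 (.s k18 k33 4 (.s k26 k30 1 (.s k10 k58 3 (.d k15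
  k5 k37 2 6))))))] .n) (.c k22 (.q k48 [(.s k2 k1 0 (.s k16 k32 3 (.s k18 k33 4 (.s k34 k50 3 (.d
  k17 k19 k51 0 4))))), (.s k16 k32 3 (.s k21 k63 6 (.s k26 k31 2 (.s k10 k58 3 (.d k15 k5 k37 2
  6))))), (.s k1 k2 0 (.s k21 k63 6 (.s k41 k61 5 (.s k33 k18 4 (.s k37 k45 1 (.s k5 k53 3 (.d k15
  k26 k10 6 2)))))))] .n) (.c k40 (.q k48 [(.s k1 k2 0 (.s k32 k16 3 (.s k33 k18 4 (.s k17 k49 3 (.d
  k34 k35 k51 0 4))))), (.s k16 k32 3 (.s k21 k63 6 (.s k26 k31 2 (.s k10 k58 3 (.d k15 k5 k37 2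
  6))))), (.s k2 k1 0 (.s k63 k21 6 (.s k22 k62 5 (.s k18 k33 4 (.s k26 k30 1 (.d k58 k53 k10 2
  3))))))] .n) (.c k41 (.q k48 [(.s k1 k2 0 (.s k32 k16 3 (.s k33 k18 4 (.s k17 k49 3 (.d k34 k35
  k51 0 4))))), (.s k16 k32 3 (.s k21 k63 6 (.s k26 k31 2 (.s k10 k58 3 (.d k15 k5 k37 2 6))))), (.s
  k2 k1 0 (.s k22 k62 5 (.s k18 k33 4 (.s k26 k30 1 (.s k10 k58 3 (.d k15 k37 k5 6 2))))))] .n) (.c
  k43 (.l (.s k2 k1 0 (.s k21 k63 6 (.s k22 k62 5 (.s k60 k41 6 (.d k20 k23 k40 0 5)))))) (.c k60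
  (.q k48 [(.s k1 k2 0 (.s k32 k16 3 (.s k33 k18 4 (.s k17 k49 3 (.d k34 k35 k51 0 4))))), (.s k16
  k32 3 (.s k21 k63 6 (.s k26 k31 2 (.s k10 k58 3 (.d k15 k5 k37 2 6))))), (.s k2 k1 0 (.s k63 k21 6
  (.s k22 k62 5 (.s k18 k33 4 (.s k26 k30 1 (.d k58 k53 k10 2 3))))))] (.c k125 (.q k190 [(.s k1 k2
  0 (.s k32 k16 3 (.s k33 k18 4 (.s k17 k49 3 (.d k34 k35 k51 0 4))))), (.s k16 k32 3 (.s k21 k63 6
  (.s k26 k31 2 (.s k10 k58 3 (.d k15 k5 k37 2 6))))), (.s k2 k1 0 (.s k63 k21 6 (.s k22 k62 5 (.s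
  k18 k33 4 (.s k26 k30 1 (.d k58 k53 k10 2 3))))))] .n) (.c k190 (.q k125 [(.s k1 k2 0 (.s k32 k16
  3 (.s k33 k18 4 (.s k17 k49 3 (.d k34 k35 k51 0 4))))), (.s k16 k32 3 (.s k21 k63 6 (.s k26 k31 2
  (.s k10 k58 3 (.d k15 k5 k37 2 6))))), (.s k2 k1 0 (.s k63 k21 6 (.s k22 k62 5 (.s k18 k33 4 (.s
  k26 k30 1 (.d k58 k53 k10 2 3))))))] .n) .n))) (.c k61 (.l (.s k2 k1 0 (.s k21 k63 6 (.s k22 k62 5
  (.s k60 k41 6 (.d k20 k23 k40 0 5)))))) (.c k62 (.l (.s k1 k2 0 (.s k21 k63 6 (.s k41 k61 5 (.s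
  k60 k22 6 (.d k40 k43 k20 0 5)))))) (.c k63 (.q k48 [(.s k1 k2 0 (.s k32 k16 3 (.s k33 k18 4 (.s
  k17 k49 3 (.d k34 k35 k51 0 4))))), (.s k2 k1 0 (.s k32 k16 3 (.s k22 k62 5 (.s k60 k41 6 (.s k37
  k47 2 (.d k52 k56 k7 1 4)))))), (.s k32 k16 3 (.s k33 k18 4 (.s k37 k47 2 (.s k41 k45 1 (.s k60
  k22 6 (.d k40 k43 k20 0 5)))))), (.s k2 k1 0 (.s k22 k62 5 (.s k18 k33 4 (.s k26 k30 1 (.s k10 k58
  3 (.d k15 k5 k37 2 6))))))] (.c k127 (.q k191 [(.s k1 k2 0 (.s k32 k16 3 (.s k33 k18 4 (.s k17 k49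
  3 (.d k34 k35 k51 0 4))))), (.s k2 k1 0 (.s k32 k16 3 (.s k22 k62 5 (.s k60 k41 6 (.s k37 k47 2
  (.d k52 k56 k7 1 4)))))), (.s k32 k16 3 (.s k33 k18 4 (.s k37 k47 2 (.s k41 k45 1 (.s k60 k22 6
  (.d k40 k43 k20 0 5)))))), (.s k2 k1 0 (.s k22 k62 5 (.s k18 k33 4 (.s k26 k30 1 (.s k10 k58 3 (.d
  k15 k5 k37 2 6))))))] .n) (.c k191 (.q k127 [(.s k1 k2 0 (.s k32 k16 3 (.s k33 k18 4 (.s k17 k49 3
  (.d k34 k35 k51 0 4))))), (.s k2 k1 0 (.s k32 k16 3 (.s k22 k62 5 (.s k60 k41 6 (.s k37 k47 2 (.d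
  k52 k56 k7 1 4)))))), (.s k32 k16 3 (.s k33 k18 4 (.s k37 k47 2 (.s k41 k45 1 (.s k60 k22 6 (.d
  k40 k43 k20 0 5)))))), (.s k2 k1 0 (.s k22 k62 5 (.s k18 k33 4 (.s k26 k30 1 (.s k10 k58 3 (.d k15
  k5 k37 2 6))))))] .n) .n))) .n))))))))))))

def t91 : T TT 256 :=
  (.q k42 [(.s k1 k2 0 (.s k21 k63 6 (.s k41 k61 5 (.s k60 k22 6 (.d k40 k43 k20 0 5))))), (.s k2 k1
  0 (.s k63 k21 6 (.s k22 k62 5 (.s k41 k60 6 (.d k43 k40 k23 0 5)))))] (.c k1 (.q k48 [(.s k32 k16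
  3 (.s k21 k63 6 (.s k37 k47 2 (.s k15 k26 6 (.d k5 k10 k53 2 3))))), (.s k32 k16 3 (.s k33 k18 4
  (.s k37 k47 2 (.s k41 k45 1 (.s k60 k22 6 (.d k40 k43 k20 0 5)))))), (.s k63 k21 6 (.s k18 k33 4
  (.s k43 k23 5 (.s k41 k40 0 (.s k22 k60 6 (.s k26 k30 1 (.d k58 k53 k10 2 3)))))))] (.c k26 (.l
  (.s k32 k16 3 (.s k33 k18 4 (.s k35 k34 0 (.s k47 k37 2 (.s k43 k39 1 (.d k63 k21 k23 6 5)))))))
  .n)) (.c k2 (.q k48 [(.s k32 k16 3 (.s k21 k63 6 (.s k37 k47 2 (.s k15 k26 6 (.d k5 k10 k53 2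
  3))))), (.s k32 k16 3 (.s k33 k18 4 (.s k37 k47 2 (.s k41 k45 1 (.s k40 k43 0 (.d k60 k20 k22 5
  6)))))), (.s k63 k21 6 (.s k18 k33 4 (.s k43 k23 5 (.s k41 k40 0 (.s k22 k60 6 (.s k26 k30 1 (.d
  k58 k53 k10 2 3)))))))] .n) (.c k21 (.q k48 [(.s k1 k2 0 (.s k33 k18 4 (.s k17 k49 3 (.s k34 k51 4
  (.d k32 k35 k16 0 3))))), (.s k2 k1 0 (.s k32 k16 3 (.s k22 k62 5 (.s k37 k47 2 (.s k7 k52 4 (.d
  k15 k26 k11 6 1)))))), (.s k32 k16 3 (.s k33 k18 4 (.s k37 k47 2 (.s k41 k45 1 (.s k60 k22 6 (.d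
  k40 k20 k43 5 0)))))), (.s k2 k1 0 (.s k22 k62 5 (.s k18 k33 4 (.s k26 k30 1 (.s k10 k58 3 (.d k15
  k5 k37 2 6))))))] .n) (.c k22 (.q k48 [(.s k2 k1 0 (.s k16 k32 3 (.s k18 k33 4 (.s k34 k50 3 (.d
  k17 k19 k51 0 4))))), (.s k16 k32 3 (.s k21 k63 6 (.s k26 k31 2 (.s k10 k58 3 (.d k15 k5 k37 2
  6))))), (.s k1 k2 0 (.s k21 k63 6 (.s k41 k61 5 (.s k33 k18 4 (.s k37 k45 1 (.s k5 k53 3 (.d k15
  k26 k10 6 2)))))))] .n) (.c k40 (.q k48 [(.s k1 k2 0 (.s k32 k16 3 (.s k33 k18 4 (.s k17 k49 3 (.d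
  k34 k35 k51 0 4))))), (.s k16 k32 3 (.s k21 k63 6 (.s k26 k31 2 (.s k10 k58 3 (.d k15 k5 k37 2
  6))))), (.s k2 k1 0 (.s k63 k21 6 (.s k22 k62 5 (.s k18 k33 4 (.s k26 k30 1 (.d k58 k53 k10 2
  3))))))] .n) (.c k41 (.q k48 [(.s k1 k2 0 (.s k32 k16 3 (.s k33 k18 4 (.s k17 k49 3 (.d k34 k35
  k51 0 4))))), (.s k16 k32 3 (.s k21 k63 6 (.s k26 k31 2 (.s k10 k58 3 (.d k15 k5 k37 2 6))))), (.s
  k2 k1 0 (.s k22 k62 5 (.s k18 k33 4 (.s k26 k30 1 (.s k10 k58 3 (.d k15 k37 k5 6 2))))))] .n) (.c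
  k43 (.l (.s k2 k1 0 (.s k21 k63 6 (.s k22 k62 5 (.s k60 k41 6 (.d k20 k23 k40 0 5)))))) (.c k60
  (.q k48 [(.s k1 k2 0 (.s k32 k16 3 (.s k33 k18 4 (.s k17 k49 3 (.d k34 k35 k51 0 4))))), (.s k16
  k32 3 (.s k21 k63 6 (.s k26 k31 2 (.s k10 k58 3 (.d k15 k5 k37 2 6))))), (.s k2 k1 0 (.s k63 k21 6
  (.s k22 k62 5 (.s k18 k33 4 (.s k26 k30 1 (.d k58 k53 k10 2 3))))))] (.c k125 (.q k190 [(.s k1 k2
  0 (.s k32 k16 3 (.s k33 k18 4 (.s k17 k49 3 (.d k34 k35 k51 0 4))))), (.s k16 k32 3 (.s k21 k63 6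
  (.s k26 k31 2 (.s k10 k58 3 (.d k15 k5 k37 2 6))))), (.s k2 k1 0 (.s k63 k21 6 (.s k22 k62 5 (.s
  k18 k33 4 (.s k26 k30 1 (.d k58 k53 k10 2 3))))))] .n) (.c k190 (.q k125 [(.s k1 k2 0 (.s k32 k16
  3 (.s k33 k18 4 (.s k17 k49 3 (.d k34 k35 k51 0 4))))), (.s k16 k32 3 (.s k21 k63 6 (.s k26 k31 2
  (.s k10 k58 3 (.d k15 k5 k37 2 6))))), (.s k2 k1 0 (.s k63 k21 6 (.s k22 k62 5 (.s k18 k33 4 (.s
  k26 k30 1 (.d k58 k53 k10 2 3))))))] .n) .n))) (.c k61 (.l (.s k2 k1 0 (.s k21 k63 6 (.s k22 k62 5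
  (.s k60 k41 6 (.d k20 k23 k40 0 5)))))) (.c k62 (.l (.s k1 k2 0 (.s k21 k63 6 (.s k41 k61 5 (.s
  k60 k22 6 (.d k40 k43 k20 0 5)))))) (.c k63 (.q k48 [(.s k1 k2 0 (.s k32 k16 3 (.s k33 k18 4 (.s
  k17 k49 3 (.d k34 k35 k51 0 4))))), (.s k2 k1 0 (.s k32 k16 3 (.s k22 k62 5 (.s k60 k41 6 (.s k37
  k47 2 (.d k52 k56 k7 1 4)))))), (.s k32 k16 3 (.s k33 k18 4 (.s k37 k47 2 (.s k41 k45 1 (.s k60
  k22 6 (.d k40 k43 k20 0 5)))))), (.s k2 k1 0 (.s k22 k62 5 (.s k18 k33 4 (.s k26 k30 1 (.s k10 k58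
  3 (.d k15 k5 k37 2 6))))))] (.c k127 (.q k191 [(.s k1 k2 0 (.s k32 k16 3 (.s k33 k18 4 (.s k17 k49
  3 (.d k34 k35 k51 0 4))))), (.s k2 k1 0 (.s k32 k16 3 (.s k22 k62 5 (.s k60 k41 6 (.s k37 k47 2
  (.d k52 k56 k7 1 4)))))), (.s k32 k16 3 (.s k33 k18 4 (.s k37 k47 2 (.s k41 k45 1 (.s k60 k22 6
  (.d k40 k43 k20 0 5)))))), (.s k2 k1 0 (.s k22 k62 5 (.s k18 k33 4 (.s k26 k30 1 (.s k10 k58 3 (.d
  k15 k5 k37 2 6))))))] .n) (.c k191 (.q k127 [(.s k1 k2 0 (.s k32 k16 3 (.s k33 k18 4 (.s k17 k49 3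
  (.d k34 k35 k51 0 4))))), (.s k2 k1 0 (.s k32 k16 3 (.s k22 k62 5 (.s k60 k41 6 (.s k37 k47 2 (.d
  k52 k56 k7 1 4)))))), (.s k32 k16 3 (.s k33 k18 4 (.s k37 k47 2 (.s k41 k45 1 (.s k60 k22 6 (.d
  k40 k43 k20 0 5)))))), (.s k2 k1 0 (.s k22 k62 5 (.s k18 k33 4 (.s k26 k30 1 (.s k10 k58 3 (.d k15
  k5 k37 2 6))))))] .n) .n))) .n))))))))))))

def t92 : T TT 256 :=
  (.q k42 [(.s k1 k2 0 (.s k21 k63 6 (.s k41 k61 5 (.s k60 k22 6 (.d k40 k43 k20 0 5))))), (.s k2 k1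
  0 (.s k63 k21 6 (.s k22 k62 5 (.s k41 k60 6 (.d k43 k40 k23 0 5)))))] (.c k1 (.q k48 [(.s k16 k32
  3 (.s k21 k63 6 (.s k26 k31 2 (.s k10 k58 3 (.d k15 k5 k37 2 6))))), (.s k32 k16 3 (.s k33 k18 4
  (.s k37 k47 2 (.s k41 k45 1 (.s k60 k22 6 (.d k40 k43 k20 0 5)))))), (.s k63 k21 6 (.s k18 k33 4
  (.s k43 k23 5 (.s k41 k40 0 (.s k22 k60 6 (.s k26 k30 1 (.d k58 k53 k10 2 3)))))))] (.c k26 (.l
  (.s k32 k16 3 (.s k33 k18 4 (.s k35 k34 0 (.s k47 k37 2 (.s k43 k39 1 (.d k63 k21 k23 6 5)))))))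
  .n)) (.c k2 (.q k48 [(.s k16 k32 3 (.s k21 k63 6 (.s k26 k31 2 (.s k10 k58 3 (.d k15 k5 k37 2
  6))))), (.s k32 k16 3 (.s k33 k18 4 (.s k37 k47 2 (.s k41 k45 1 (.s k40 k43 0 (.d k60 k20 k22 5
  6)))))), (.s k63 k21 6 (.s k18 k33 4 (.s k43 k23 5 (.s k41 k40 0 (.s k22 k60 6 (.s k26 k30 1 (.d
  k58 k53 k10 2 3)))))))] .n) (.c k21 (.q k48 [(.s k1 k2 0 (.s k33 k18 4 (.s k17 k49 3 (.s k34 k51 4
  (.d k32 k35 k16 0 3))))), (.s k2 k1 0 (.s k32 k16 3 (.s k22 k62 5 (.s k37 k47 2 (.s k7 k52 4 (.d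
  k15 k26 k11 6 1)))))), (.s k32 k16 3 (.s k33 k18 4 (.s k37 k47 2 (.s k41 k45 1 (.s k60 k22 6 (.d
  k40 k20 k43 5 0)))))), (.s k2 k1 0 (.s k22 k62 5 (.s k18 k33 4 (.s k26 k30 1 (.s k10 k58 3 (.d k15
  k5 k37 2 6))))))] .n) (.c k22 (.q k48 [(.s k2 k1 0 (.s k16 k32 3 (.s k18 k33 4 (.s k34 k50 3 (.d
  k17 k19 k51 0 4))))), (.s k16 k32 3 (.s k21 k63 6 (.s k26 k31 2 (.s k10 k58 3 (.d k15 k5 k37 2
  6))))), (.s k1 k2 0 (.s k21 k63 6 (.s k41 k61 5 (.s k33 k18 4 (.s k37 k45 1 (.s k5 k53 3 (.d k15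
  k26 k10 6 2)))))))] .n) (.c k40 (.q k48 [(.s k1 k2 0 (.s k32 k16 3 (.s k33 k18 4 (.s k17 k49 3 (.d
  k34 k35 k51 0 4))))), (.s k16 k32 3 (.s k21 k63 6 (.s k26 k31 2 (.s k10 k58 3 (.d k15 k5 k37 2
  6))))), (.s k2 k1 0 (.s k63 k21 6 (.s k22 k62 5 (.s k18 k33 4 (.s k26 k30 1 (.d k58 k53 k10 2
  3))))))] .n) (.c k41 (.q k48 [(.s k1 k2 0 (.s k32 k16 3 (.s k33 k18 4 (.s k17 k49 3 (.d k34 k35
  k51 0 4))))), (.s k16 k32 3 (.s k21 k63 6 (.s k26 k31 2 (.s k10 k58 3 (.d k15 k5 k37 2 6))))), (.s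
  k2 k1 0 (.s k22 k62 5 (.s k18 k33 4 (.s k26 k30 1 (.s k10 k58 3 (.d k15 k37 k5 6 2))))))] .n) (.c
  k43 (.l (.s k2 k1 0 (.s k21 k63 6 (.s k22 k62 5 (.s k60 k41 6 (.d k20 k23 k40 0 5)))))) (.c k60
  (.q k48 [(.s k1 k2 0 (.s k32 k16 3 (.s k33 k18 4 (.s k17 k49 3 (.d k34 k35 k51 0 4))))), (.s k16
  k32 3 (.s k21 k63 6 (.s k26 k31 2 (.s k10 k58 3 (.d k15 k5 k37 2 6))))), (.s k2 k1 0 (.s k63 k21 6
  (.s k22 k62 5 (.s k18 k33 4 (.s k26 k30 1 (.d k58 k53 k10 2 3))))))] (.c k125 (.q k190 [(.s k1 k2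
  0 (.s k32 k16 3 (.s k33 k18 4 (.s k17 k49 3 (.d k34 k35 k51 0 4))))), (.s k16 k32 3 (.s k21 k63 6
  (.s k26 k31 2 (.s k10 k58 3 (.d k15 k5 k37 2 6))))), (.s k2 k1 0 (.s k63 k21 6 (.s k22 k62 5 (.s
  k18 k33 4 (.s k26 k30 1 (.d k58 k53 k10 2 3))))))] .n) (.c k190 (.q k125 [(.s k1 k2 0 (.s k32 k16
  3 (.s k33 k18 4 (.s k17 k49 3 (.d k34 k35 k51 0 4))))), (.s k16 k32 3 (.s k21 k63 6 (.s k26 k31 2
  (.s k10 k58 3 (.d k15 k5 k37 2 6))))), (.s k2 k1 0 (.s k63 k21 6 (.s k22 k62 5 (.s k18 k33 4 (.s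
  k26 k30 1 (.d k58 k53 k10 2 3))))))] .n) .n))) (.c k61 (.l (.s k2 k1 0 (.s k21 k63 6 (.s k22 k62 5
  (.s k60 k41 6 (.d k20 k23 k40 0 5)))))) (.c k62 (.l (.s k1 k2 0 (.s k21 k63 6 (.s k41 k61 5 (.s
  k60 k22 6 (.d k40 k43 k20 0 5)))))) (.c k63 (.q k48 [(.s k1 k2 0 (.s k32 k16 3 (.s k33 k18 4 (.s
  k17 k49 3 (.d k34 k35 k51 0 4))))), (.s k2 k1 0 (.s k32 k16 3 (.s k22 k62 5 (.s k60 k41 6 (.s k37
  k47 2 (.d k52 k56 k7 1 4)))))), (.s k32 k16 3 (.s k33 k18 4 (.s k37 k47 2 (.s k41 k45 1 (.s k60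
  k22 6 (.d k40 k43 k20 0 5)))))), (.s k2 k1 0 (.s k22 k62 5 (.s k18 k33 4 (.s k26 k30 1 (.s k10 k58
  3 (.d k15 k5 k37 2 6))))))] (.c k127 (.q k191 [(.s k1 k2 0 (.s k32 k16 3 (.s k33 k18 4 (.s k17 k49
  3 (.d k34 k35 k51 0 4))))), (.s k2 k1 0 (.s k32 k16 3 (.s k22 k62 5 (.s k60 k41 6 (.s k37 k47 2
  (.d k52 k56 k7 1 4)))))), (.s k32 k16 3 (.s k33 k18 4 (.s k37 k47 2 (.s k41 k45 1 (.s k60 k22 6
  (.d k40 k43 k20 0 5)))))), (.s k2 k1 0 (.s k22 k62 5 (.s k18 k33 4 (.s k26 k30 1 (.s k10 k58 3 (.d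
  k15 k5 k37 2 6))))))] .n) (.c k191 (.q k127 [(.s k1 k2 0 (.s k32 k16 3 (.s k33 k18 4 (.s k17 k49 3
  (.d k34 k35 k51 0 4))))), (.s k2 k1 0 (.s k32 k16 3 (.s k22 k62 5 (.s k60 k41 6 (.s k37 k47 2 (.d
  k52 k56 k7 1 4)))))), (.s k32 k16 3 (.s k33 k18 4 (.s k37 k47 2 (.s k41 k45 1 (.s k60 k22 6 (.d
  k40 k43 k20 0 5)))))), (.s k2 k1 0 (.s k22 k62 5 (.s k18 k33 4 (.s k26 k30 1 (.s k10 k58 3 (.d k15
  k5 k37 2 6))))))] .n) .n))) .n))))))))))))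

def t93 : T TT 256 :=
  (.q k12 [(.s k2 k1 0 (.s k4 k8 1 (.s k6 k9 2 (.s k10 k14 1 (.d k5 k7 k15 0 2)))))] (.c k1 (.q k42
  [(.s k4 k8 1 (.s k21 k63 6 (.s k38 k55 4 (.s k51 k25 6 (.d k34 k46 k17 1 4))))), (.s k8 k4 1 (.s
  k9 k6 2 (.s k25 k59 4 (.s k41 k57 3 (.s k60 k22 6 (.d k40 k43 k20 0 5)))))), (.s k63 k21 6 (.s k6
  k9 2 (.s k43 k23 5 (.s k46 k29 4 (.s k38 k34 1 (.s k22 k54 3 (.d k41 k40 k60 0 6)))))))] (.c k25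
  (.l (.s k4 k8 1 (.s k21 k63 6 (.s k6 k9 2 (.s k38 k55 4 (.s k22 k54 3 (.s k20 k23 0 (.d k60 k41
  k40 6 5)))))))) (.c k38 (.l (.s k8 k4 1 (.s k9 k6 2 (.s k11 k10 0 (.s k59 k25 4 (.s k43 k27 3 (.d
  k63 k21 k23 6 5))))))) .n))) (.c k2 (.q k42 [(.s k4 k8 1 (.s k21 k63 6 (.s k38 k55 4 (.s k51 k25 6
  (.d k34 k46 k17 1 4))))), (.s k8 k4 1 (.s k9 k6 2 (.s k25 k59 4 (.s k41 k57 3 (.s k40 k43 0 (.d
  k60 k20 k22 5 6)))))), (.s k63 k21 6 (.s k6 k9 2 (.s k43 k23 5 (.s k46 k29 4 (.s k38 k34 1 (.s k22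
  k54 3 (.d k41 k40 k60 0 6)))))))] (.c k25 (.l (.s k4 k8 1 (.s k21 k63 6 (.s k6 k9 2 (.s k38 k55 4
  (.s k22 k54 3 (.s k20 k23 0 (.d k60 k41 k40 6 5)))))))) .n)) (.c k4 (.q k42 [(.s k1 k2 0 (.s k21
  k63 6 (.s k41 k61 5 (.s k60 k22 6 (.d k40 k43 k20 0 5))))), (.s k2 k1 0 (.s k22 k62 5 (.s k6 k9 2
  (.s k38 k54 3 (.s k34 k46 1 (.d k51 k17 k25 4 6)))))), (.s k63 k21 6 (.s k6 k9 2 (.s k43 k23 5 (.s
  k46 k29 4 (.s k38 k34 1 (.s k22 k54 3 (.d k41 k40 k60 0 6)))))))] (.c k22 (.l (.s k1 k2 0 (.s k21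
  k63 6 (.s k41 k61 5 (.s k9 k6 2 (.s k25 k57 3 (.s k17 k29 1 (.d k51 k38 k34 6 4)))))))) .n)) (.c
  k5 (.q k42 [(.s k1 k2 0 (.s k21 k63 6 (.s k41 k61 5 (.s k60 k22 6 (.d k40 k43 k20 0 5))))), (.s k4
  k8 1 (.s k21 k63 6 (.s k38 k55 4 (.s k51 k25 6 (.d k34 k46 k17 1 4))))), (.s k2 k1 0 (.s k8 k4 1
  (.s k22 k62 5 (.s k41 k60 6 (.s k25 k59 4 (.d k9 k6 k57 2 3))))))] (.c k63 (.l (.s k2 k1 0 (.s k8
  k4 1 (.s k22 k62 5 (.s k60 k41 6 (.s k25 k59 4 (.d k28 k19 k44 2 3))))))) .n)) (.c k6 (.q k42 [(.s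
  k4 k8 1 (.s k21 k63 6 (.s k38 k55 4 (.s k51 k25 6 (.d k34 k46 k17 1 4))))), (.s k2 k1 0 (.s k63
  k21 6 (.s k22 k62 5 (.s k41 k60 6 (.d k43 k40 k23 0 5))))), (.s k2 k1 0 (.s k8 k4 1 (.s k22 k62 5
  (.s k25 k59 4 (.s k19 k28 2 (.d k51 k35 k38 3 6))))))] .n) (.c k7 (.l (.s k1 k2 0 (.s k8 k4 1 (.s
  k9 k6 2 (.s k5 k13 1 (.d k10 k11 k15 0 2)))))) (.c k8 (.q k42 [(.s k1 k2 0 (.s k21 k63 6 (.s k41
  k61 5 (.s k60 k22 6 (.d k40 k43 k20 0 5))))), (.s k2 k1 0 (.s k22 k62 5 (.s k6 k9 2 (.s k38 k54 3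
  (.s k34 k46 1 (.d k51 k17 k25 4 6)))))), (.s k63 k21 6 (.s k6 k9 2 (.s k43 k23 5 (.s k46 k29 4 (.s
  k38 k34 1 (.s k22 k54 3 (.d k41 k40 k60 0 6)))))))] (.c k22 (.l (.s k1 k2 0 (.s k21 k63 6 (.s k41
  k61 5 (.s k9 k6 2 (.s k25 k57 3 (.s k17 k29 1 (.d k51 k38 k34 6 4)))))))) .n)) (.c k9 (.q k42 [(.s
  k1 k2 0 (.s k21 k63 6 (.s k41 k61 5 (.s k60 k22 6 (.d k40 k43 k20 0 5))))), (.s k2 k1 0 (.s k8 k4
  1 (.s k22 k62 5 (.s k25 k59 4 (.s k19 k28 2 (.d k51 k35 k38 3 6)))))), (.s k4 k8 1 (.s k21 k63 6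
  (.s k38 k55 4 (.s k51 k25 6 (.d k34 k46 k17 1 4)))))] .n) (.c k10 (.q k42 [(.s k2 k1 0 (.s k21 k63
  6 (.s k22 k62 5 (.s k60 k41 6 (.d k20 k23 k40 0 5))))), (.s k4 k8 1 (.s k21 k63 6 (.s k38 k55 4
  (.s k51 k25 6 (.d k34 k46 k17 1 4))))), (.s k2 k1 0 (.s k8 k4 1 (.s k22 k62 5 (.s k6 k9 2 (.s k38
  k54 3 (.d k25 k59 k51 4 6))))))] .n) (.c k11 (.l (.s k2 k1 0 (.s k4 k8 1 (.s k6 k9 2 (.s k10 k14 1
  (.d k5 k7 k15 0 2)))))) (.c k13 (.l (.s k2 k1 0 (.s k4 k8 1 (.s k6 k9 2 (.s k5 k7 0 (.d k10 k14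
  k15 1 2)))))) (.c k14 (.l (.s k1 k2 0 (.s k8 k4 1 (.s k9 k6 2 (.s k10 k11 0 (.d k5 k13 k15 1
  2)))))) (.c k15 (.q k42 [(.s k1 k2 0 (.s k21 k63 6 (.s k41 k61 5 (.s k60 k22 6 (.d k40 k43 k20 0
  5))))), (.s k2 k1 0 (.s k8 k4 1 (.s k22 k62 5 (.s k6 k9 2 (.s k38 k54 3 (.d k25 k59 k51 4 6)))))),
  (.s k4 k8 1 (.s k21 k63 6 (.s k38 k55 4 (.s k51 k25 6 (.d k34 k46 k17 1 4)))))] (.c k95 (.q k175
  [(.s k1 k2 0 (.s k21 k63 6 (.s k41 k61 5 (.s k60 k22 6 (.d k40 k43 k20 0 5))))), (.s k2 k1 0 (.s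
  k8 k4 1 (.s k22 k62 5 (.s k6 k9 2 (.s k38 k54 3 (.d k25 k59 k51 4 6)))))), (.s k4 k8 1 (.s k21 k63
  6 (.s k38 k55 4 (.s k51 k25 6 (.d k34 k46 k17 1 4)))))] (.c k92 (.q k94 [(.s k1 k2 0 (.s k21 k63 6
  (.s k41 k61 5 (.s k60 k22 6 (.d k40 k43 k20 0 5))))), (.s k2 k1 0 (.s k8 k4 1 (.s k22 k62 5 (.s k6
  k9 2 (.s k38 k54 3 (.d k25 k59 k51 4 6)))))), (.s k4 k8 1 (.s k21 k63 6 (.s k38 k55 4 (.s k51 k25
  6 (.d k34 k46 k17 1 4)))))] .n) (.c k94 (.q k92 [(.s k4 k8 1 (.s k252 k172 11 (.s k84 k168 13 (.s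
  k164 k244 11 (.d k88 k80 k240 1 13))))), (.s k1 k2 0 (.s k21 k63 6 (.s k41 k61 5 (.s k60 k22 6 (.d
  k40 k43 k20 0 5)))))] (.c k173 (.l (.s k252 k172 11 (.s k4 k8 1 (.s k84 k168 13 (.s k164 k244 11
  (.d k88 k80 k240 1 13)))))) (.c k252 (.q k173 [(.s k2 k1 0 (.s k8 k4 1 (.s k22 k62 5 (.s k6 k9 2
  (.s k38 k54 3 (.d k25 k59 k51 4 6)))))), (.s k1 k2 0 (.s k21 k63 6 (.s k41 k61 5 (.s k60 k22 6 (.d
  k40 k43 k20 0 5))))), (.s k4 k8 1 (.s k21 k63 6 (.s k38 k55 4 (.s k51 k25 6 (.d k34 k46 k17 1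
  4)))))] (.c k253 (.q k254 [(.s k2 k1 0 (.s k86 k170 13 (.s k6 k9 2 (.s k166 k246 11 (.d k89 k243
  k83 14 2))))), (.s k4 k8 1 (.s k21 k63 6 (.s k38 k55 4 (.s k51 k25 6 (.d k34 k46 k17 1 4)))))] .n)
  (.c k254 (.q k253 [(.s k2 k1 0 (.s k63 k21 6 (.s k43 k23 5 (.s k41 k40 0 (.d k22 k62 k60 5 6))))),
  (.s k4 k8 1 (.s k21 k63 6 (.s k38 k55 4 (.s k51 k25 6 (.d k34 k46 k17 1 4))))), (.s k1 k2 0 (.s
  k169 k85 13 (.s k9 k6 2 (.s k13 k5 1 (.s k89 k249 11 (.d k165 k161 k241 1 13))))))] (.c k14 (.l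
  (.s k174 k172 0 (.s k1 k2 0 (.s k21 k63 6 (.s k41 k61 5 (.s k60 k22 6 (.d k40 k43 k20 0 5)))))))
  (.c k174 (.q k14 [(.s k2 k1 0 (.d k6 k10 k9 1 2)), (.s k4 k8 1 (.s k21 k63 6 (.s k38 k55 4 (.s k51
  k25 6 (.d k34 k46 k17 1 4)))))] .n) .n))) .n))) .n))) .n))) (.c k175 (.q k95 [(.s k1 k2 0 (.s k21
  k63 6 (.s k41 k61 5 (.s k60 k22 6 (.d k40 k43 k20 0 5))))), (.s k2 k1 0 (.s k8 k4 1 (.s k22 k62 5
  (.s k6 k9 2 (.s k38 k54 3 (.d k25 k59 k51 4 6)))))), (.s k4 k8 1 (.s k21 k63 6 (.s k38 k55 4 (.s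
  k51 k25 6 (.d k34 k46 k17 1 4)))))] .n) .n))) .n))))))))))))))

def t94 : T TT 256 :=
  (.f k1 k2 0 (.q k69 [(.s k138 k207 10 (.s k137 k205 9 (.s k204 k70 10 (.d k136 k139 k68 0 9)))),
  (.s k207 k138 10 (.s k137 k205 9 (.s k70 k204 10 (.d k71 k68 k139 0 9))))] (.c k68 (.q k7 [(.s k15
  k11 1 (.s k5 k10 2 (.s k9 k13 1 (.d k6 k4 k12 0 2)))), (.s k207 k138 10 (.s k15 k11 1 (.s k71 k139
  9 (.s k135 k199 7 (.s k75 k195 9 (.d k79 k67 k143 1 7)))))), (.s k207 k138 10 (.s k71 k139 9 (.s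
  k199 k135 7 (.s k4 k134 8 (.s k12 k8 1 (.d k6 k5 k9 0 2))))))] .n) (.c k70 (.q k15 [(.s k5 k10 2
  (.s k9 k13 1 (.s k7 k11 1 (.d k6 k4 k12 0 2)))), (.s k137 k205 9 (.s k11 k7 1 (.s k74 k200 8 (.s
  k64 k79 2 (.d k192 k133 k128 10 7))))), (.s k5 k10 2 (.s k138 k207 10 (.s k133 k197 7 (.s k192 k74
  10 (.d k128 k143 k64 2 7)))))] (.c k138 (.q k206 [(.s k5 k10 2 (.s k9 k13 1 (.s k7 k11 1 (.d k6 k4
  k12 0 2)))), (.s k205 k137 9 (.s k11 k7 1 (.s k207 k204 0 (.s k139 k71 9 (.s k75 k203 7 (.s k135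
  k195 9 (.d k143 k131 k79 1 7))))))), (.s k5 k10 2 (.s k137 k205 9 (.s k133 k197 7 (.s k129 k141 1
  (.d k192 k74 k66 10 8)))))] .n) (.c k206 (.l (.s k138 k207 10 (.s k5 k10 2 (.s k9 k13 1 (.s k6 k12
  2 (.d k7 k4 k11 0 1)))))) .n))) (.c k137 (.q k15 [(.s k5 k10 2 (.s k9 k13 1 (.s k6 k12 2 (.d k7 k4
  k11 0 1)))), (.s k207 k138 10 (.s k11 k7 1 (.s k139 k71 9 (.s k75 k203 7 (.s k135 k195 9 (.d k143
  k131 k79 1 7)))))), (.s k10 k5 2 (.s k138 k207 10 (.s k74 k202 7 (.s k192 k133 10 (.d k64 k79 k128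
  2 7)))))] .n) (.c k138 (.q k15 [(.s k5 k10 2 (.s k9 k13 1 (.s k7 k11 1 (.d k6 k4 k12 0 2)))), (.s
  k137 k205 9 (.s k11 k7 1 (.s k74 k200 8 (.s k192 k133 10 (.d k64 k128 k79 7 2))))), (.s k5 k10 2
  (.s k137 k205 9 (.s k133 k197 7 (.s k129 k141 1 (.d k192 k74 k66 10 8)))))] (.c k70 (.q k206 [(.s
  k5 k10 2 (.s k9 k13 1 (.s k7 k11 1 (.d k6 k4 k12 0 2)))), (.s k205 k137 9 (.s k11 k7 1 (.s k207
  k204 0 (.s k139 k71 9 (.s k75 k203 7 (.s k135 k195 9 (.d k143 k131 k79 1 7))))))), (.s k5 k10 2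
  (.s k137 k205 9 (.s k133 k197 7 (.s k129 k141 1 (.d k192 k74 k66 10 8)))))] .n) (.c k74 (.l (.s
  k137 k205 9 (.s k7 k11 1 (.s k70 k204 10 (.s k133 k196 8 (.d k5 k10 k197 2 7)))))) (.c k206 (.q
  k70 [(.d k137 k205 k204 9 10), (.s k5 k10 2 (.s k7 k11 1 (.d k133 k197 k196 7 8)))] .n) .n)))) (.c
  k139 (.q k15 [(.s k5 k10 2 (.s k9 k13 1 (.s k6 k12 2 (.d k7 k4 k11 0 1)))), (.s k207 k138 10 (.s
  k137 k205 9 (.s k11 k7 1 (.s k74 k200 8 (.d k79 k64 k143 2 7))))), (.s k5 k10 2 (.s k138 k207 10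
  (.s k133 k197 7 (.s k192 k74 10 (.d k128 k143 k64 2 7)))))] .n) (.c k204 (.q k15 [(.s k5 k10 2 (.s
  k9 k13 1 (.s k7 k11 1 (.d k6 k4 k12 0 2)))), (.s k207 k138 10 (.s k137 k205 9 (.s k11 k7 1 (.s k74
  k200 8 (.d k79 k64 k143 2 7))))), (.s k5 k10 2 (.s k138 k207 10 (.s k133 k197 7 (.s k192 k74 10
  (.d k128 k143 k64 2 7)))))] (.c k221 (.q k238 [(.s k5 k10 2 (.s k9 k13 1 (.s k7 k11 1 (.d k6 k4
  k12 0 2)))), (.s k207 k138 10 (.s k137 k205 9 (.s k11 k7 1 (.s k74 k200 8 (.d k79 k64 k143 2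
  7))))), (.s k5 k10 2 (.s k138 k207 10 (.s k133 k197 7 (.s k192 k74 10 (.d k128 k143 k64 2 7)))))]
  .n) (.c k238 (.q k221 [(.s k5 k10 2 (.s k9 k13 1 (.s k7 k11 1 (.d k6 k4 k12 0 2)))), (.s k207 k138
  10 (.s k137 k205 9 (.s k11 k7 1 (.s k74 k200 8 (.d k79 k64 k143 2 7))))), (.s k5 k10 2 (.s k138
  k207 10 (.s k133 k197 7 (.s k192 k74 10 (.d k128 k143 k64 2 7)))))] .n) .n))) (.c k205 (.q k15
  [(.s k7 k11 1 (.s k5 k10 2 (.s k6 k4 0 (.d k9 k13 k12 1 2)))), (.s k207 k138 10 (.s k7 k11 1 (.s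
  k71 k139 9 (.s k135 k199 7 (.s k75 k195 9 (.d k79 k67 k143 1 7)))))), (.s k5 k10 2 (.s k138 k207
  10 (.s k133 k197 7 (.s k192 k74 10 (.d k128 k143 k64 2 7)))))] .n) (.c k206 (.l (.s k138 k207 10
  (.s k137 k205 9 (.s k204 k70 10 (.d k136 k139 k68 0 9))))) (.c k207 (.q k15 [(.s k5 k10 2 (.s k9
  k13 1 (.s k7 k11 1 (.d k6 k4 k12 0 2)))), (.s k137 k205 9 (.s k11 k7 1 (.s k74 k200 8 (.s k192
  k133 10 (.d k64 k79 k128 2 7))))), (.s k5 k10 2 (.s k137 k205 9 (.s k204 k70 10 (.s k133 k197 7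
  (.d k141 k129 k78 1 8)))))] (.c k223 (.q k239 [(.s k5 k10 2 (.s k9 k13 1 (.s k7 k11 1 (.d k6 k4
  k12 0 2)))), (.s k137 k205 9 (.s k11 k7 1 (.s k74 k200 8 (.s k192 k133 10 (.d k64 k79 k128 2
  7))))), (.s k5 k10 2 (.s k137 k205 9 (.s k204 k70 10 (.s k133 k197 7 (.d k141 k129 k78 1 8)))))]
  .n) (.c k239 (.q k223 [(.s k5 k10 2 (.s k9 k13 1 (.s k7 k11 1 (.d k6 k4 k12 0 2)))), (.s k137 k205
  9 (.s k11 k7 1 (.s k74 k200 8 (.s k192 k133 10 (.d k64 k79 k128 2 7))))), (.s k5 k10 2 (.s k137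
  k205 9 (.s k204 k70 10 (.s k133 k197 7 (.d k141 k129 k78 1 8)))))] .n) .n))) .n)))))))))))

def t95 : T TT 256 :=
  (.f k1 k2 0 (.q k15 [(.s k5 k10 2 (.s k9 k13 1 (.s k7 k11 1 (.d k6 k4 k12 0 2))))] (.c k4 (.q k69
  [(.s k138 k207 10 (.s k137 k205 9 (.s k204 k70 10 (.d k136 k139 k68 0 9)))), (.s k5 k10 2 (.s k138
  k207 10 (.s k133 k197 7 (.s k192 k74 10 (.d k128 k143 k64 2 7))))), (.s k5 k10 2 (.s k137 k205 9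
  (.s k7 k11 1 (.s k133 k197 7 (.d k70 k196 k204 8 10)))))] .n) (.c k5 (.q k69 [(.s k138 k207 10 (.s
  k137 k205 9 (.s k204 k70 10 (.d k136 k139 k68 0 9)))), (.s k137 k205 9 (.s k11 k7 1 (.s k74 k200 8
  (.s k64 k79 2 (.d k192 k128 k133 7 10))))), (.s k207 k138 10 (.s k11 k7 1 (.s k139 k71 9 (.s k75
  k203 7 (.s k135 k195 9 (.d k143 k131 k79 1 7))))))] .n) (.c k6 (.q k69 [(.s k138 k207 10 (.s k137
  k205 9 (.s k136 k139 0 (.d k204 k68 k70 9 10)))), (.s k137 k205 9 (.s k11 k7 1 (.s k74 k200 8 (.s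
  k133 k192 10 (.d k5 k10 k197 2 7))))), (.s k10 k5 2 (.s k138 k207 10 (.s k74 k202 7 (.s k192 k133
  10 (.d k64 k79 k128 2 7)))))] (.c k10 (.q k14 [(.s k138 k207 10 (.s k137 k205 9 (.s k136 k139 0
  (.d k204 k68 k70 9 10)))), (.s k137 k205 9 (.s k11 k7 1 (.s k74 k200 8 (.s k64 k79 2 (.d k192 k128
  k133 7 10))))), (.s k138 k207 10 (.s k12 k13 0 (.s k4 k8 1 (.s k134 k199 8 (.s k195 k73 10 (.d
  k130 k142 k65 1 8))))))] .n) (.c k14 (.l (.s k10 k5 2 (.s k138 k207 10 (.s k137 k205 9 (.s k204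
  k70 10 (.d k136 k139 k68 0 9)))))) .n))) (.c k7 (.q k69 [(.s k138 k207 10 (.s k137 k205 9 (.s k136
  k139 0 (.d k204 k68 k70 9 10)))), (.s k5 k10 2 (.s k137 k205 9 (.s k133 k197 7 (.s k129 k141 1 (.d
  k192 k66 k74 8 10))))), (.s k5 k10 2 (.s k138 k207 10 (.s k133 k197 7 (.s k192 k74 10 (.d k128
  k143 k64 2 7)))))] .n) (.c k9 (.q k69 [(.s k138 k207 10 (.s k137 k205 9 (.s k204 k70 10 (.d k136
  k139 k68 0 9)))), (.s k5 k10 2 (.s k137 k205 9 (.s k11 k7 1 (.s k133 k197 7 (.d k74 k200 k192 8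
  10))))), (.s k5 k10 2 (.s k138 k207 10 (.s k133 k197 7 (.s k192 k74 10 (.d k128 k143 k64 2 7)))))]
  .n) (.c k10 (.q k69 [(.s k138 k207 10 (.s k137 k205 9 (.s k204 k70 10 (.d k136 k139 k68 0 9)))),
  (.s k137 k205 9 (.s k11 k7 1 (.s k74 k200 8 (.s k64 k79 2 (.d k192 k128 k133 7 10))))), (.s k207
  k138 10 (.s k11 k7 1 (.s k139 k71 9 (.s k75 k203 7 (.s k135 k195 9 (.d k143 k131 k79 1 7))))))]
  (.c k6 (.q k14 [(.s k138 k207 10 (.s k137 k205 9 (.s k136 k139 0 (.d k204 k68 k70 9 10)))), (.s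
  k137 k205 9 (.s k11 k7 1 (.s k74 k200 8 (.s k64 k79 2 (.d k192 k128 k133 7 10))))), (.s k138 k207
  10 (.s k12 k13 0 (.s k4 k8 1 (.s k134 k199 8 (.s k195 k73 10 (.d k130 k142 k65 1 8))))))] .n) (.c
  k14 (.q k6 [(.s k7 k11 1 (.s k4 k5 0 (.d k12 k8 k9 1 2))), (.s k138 k207 10 (.s k137 k205 9 (.s
  k204 k70 10 (.d k136 k139 k68 0 9))))] .n) .n))) (.c k11 (.q k69 [(.s k138 k207 10 (.s k137 k205 9
  (.s k204 k70 10 (.d k136 k139 k68 0 9)))), (.s k5 k10 2 (.s k137 k205 9 (.s k133 k197 7 (.s k129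
  k141 1 (.d k192 k66 k74 8 10))))), (.s k5 k10 2 (.s k138 k207 10 (.s k133 k197 7 (.s k128 k143 2
  (.d k192 k64 k74 7 10)))))] .n) (.c k12 (.q k85 [(.s k5 k10 2 (.s k169 k253 13 (.s k11 k7 1 (.s
  k90 k248 12 (.d k165 k245 k240 11 14))))), (.s k5 k10 2 (.s k13 k9 1 (.s k165 k245 11 (.s k240 k90
  14 (.s k161 k82 12 (.d k241 k81 k89 11 13)))))), (.s k169 k253 13 (.s k11 k7 1 (.s k252 k86 14 (.s
  k90 k248 12 (.s k173 k94 12 (.d k165 k161 k240 1 14)))))), (.s k5 k10 2 (.s k169 k253 13 (.s k252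
  k86 14 (.s k165 k245 11 (.d k173 k161 k94 1 12)))))] (.c k93 (.q k174 [(.s k169 k253 13 (.s k11 k7
  1 (.s k90 k248 12 (.s k240 k165 14 (.s k82 k161 12 (.d k86 k94 k252 1 14)))))), (.s k5 k10 2 (.s
  k13 k9 1 (.s k165 k245 11 (.s k240 k90 14 (.s k161 k82 12 (.d k241 k81 k89 11 13)))))), (.s k5 k10
  2 (.s k7 k11 1 (.s k165 k245 11 (.s k86 k244 12 (.d k169 k253 k252 13 14)))))] (.c k11 (.l (.s k5
  k10 2 (.s k169 k253 13 (.s k252 k86 14 (.s k165 k245 11 (.d k173 k161 k94 1 12)))))) (.c k86 (.l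
  (.s k5 k10 2 (.s k169 k253 13 (.s k11 k7 1 (.s k165 k245 11 (.d k90 k240 k248 14 12)))))) (.c k92
  (.q k94 [(.s k252 k173 12 (.d k169 k253 k86 13 14)), (.s k5 k10 2 (.s k7 k11 1 (.s k165 k245 11
  (.s k86 k244 12 (.d k90 k240 k82 14 1)))))] (.c k86 (.l (.s k5 k10 2 (.s k169 k253 13 (.s k165
  k245 11 (.d k173 k252 k161 12 1))))) (.c k172 (.l (.s k252 k173 12 (.d k169 k253 k86 13 14))) (.c
  k252 (.q k172 [(.s k169 k253 13 (.s k254 k14 11 (.s k173 k175 0 (.s k165 k161 1 (.d k5 k10 k245 2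
  11))))), (.s k7 k11 1 (.s k5 k10 2 (.s k6 k4 0 (.s k165 k245 11 (.s k86 k244 12 (.d k90 k240 k82
  14 1)))))), (.s k169 k253 13 (.s k254 k14 11 (.s k11 k7 1 (.s k90 k248 12 (.s k240 k165 14 (.d k82
  k86 k161 1 12))))))] (.c k6 (.l (.s k5 k10 2 (.s k14 k254 11 (.s k253 k169 13 (.s k7 k11 1 (.s
  k165 k245 11 (.s k86 k244 12 (.d k90 k240 k82 14 1)))))))) (.c k10 (.q k6 [(.s k7 k11 1 (.s k4 k5
  0 (.s k166 k247 12 (.d k169 k253 k163 13 2)))), (.s k169 k253 13 (.s k254 k14 11 (.s k11 k7 1 (.s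
  k90 k248 12 (.s k240 k165 14 (.d k82 k86 k161 1 12)))))), (.s k169 k253 13 (.s k254 k14 11 (.s
  k163 k166 2 (.s k243 k83 11 (.s k81 k162 12 (.s k161 k241 11 (.d k173 k175 k165 0 1)))))))] (.c
  k169 (.l (.s k7 k11 1 (.s k5 k4 0 (.s k165 k245 11 (.s k86 k244 12 (.d k90 k240 k82 14 1)))))) (.c
  k253 (.l (.s k254 k14 11 (.s k7 k11 1 (.s k5 k4 0 (.s k165 k245 11 (.s k86 k244 12 (.d k90 k240
  k82 14 1))))))) (.c k254 (.l (.s k253 k169 13 (.s k7 k11 1 (.s k5 k4 0 (.s k165 k245 11 (.s k86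
  k244 12 (.d k90 k240 k82 14 1))))))) .n)))) (.c k14 (.l (.s k7 k11 1 (.s k5 k10 2 (.s k6 k4 0 (.s
  k165 k245 11 (.s k86 k244 12 (.d k90 k240 k82 14 1))))))) (.c k165 (.l (.s k169 k253 13 (.s k254
  k14 11 (.s k7 k11 1 (.s k166 k163 2 (.s k4 k247 12 (.d k5 k6 k10 0 2))))))) (.c k253 (.l (.s k254
  k14 11 (.s k7 k11 1 (.s k5 k10 2 (.s k6 k4 0 (.s k165 k245 11 (.s k86 k244 12 (.d k90 k240 k82 14
  1)))))))) (.c k254 (.l (.s k253 k169 13 (.s k5 k10 2 (.s k7 k11 1 (.s k165 k245 11 (.s k86 k244 12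
  (.d k90 k240 k82 14 1))))))) .n))))))) .n)))) (.c k94 (.q k92 [(.s k5 k10 2 (.s k169 k253 13 (.s
  k11 k7 1 (.s k90 k248 12 (.d k165 k245 k240 11 14))))), (.s k5 k10 2 (.s k13 k9 1 (.s k165 k245 11
  (.s k89 k241 13 (.s k86 k83 2 (.d k7 k11 k244 1 12)))))), (.s k169 k253 13 (.s k11 k7 1 (.s k252
  k86 14 (.s k84 k168 13 (.s k80 k88 1 (.s k240 k160 11 (.d k90 k248 k165 12 14))))))), (.s k5 k10 2
  (.s k169 k253 13 (.s k165 k245 11 (.s k240 k90 14 (.d k161 k173 k82 1 12))))), (.s k10 k5 2 (.s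
  k169 k253 13 (.s k11 k7 1 (.s k9 k8 0 (.s k89 k249 11 (.d k86 k252 k83 14 2))))))] (.c k13 (.l (.s
  k5 k10 2 (.s k7 k11 1 (.s k165 k245 11 (.s k86 k244 12 (.d k169 k253 k252 13 14)))))) (.c k253 (.l
  (.s k5 k10 2 (.s k13 k9 1 (.s k165 k245 11 (.s k241 k89 13 (.s k161 k81 11 (.d k240 k82 k90 12
  14))))))) .n))) (.c k165 (.l (.s k10 k5 2 (.s k169 k253 13 (.s k11 k7 1 (.s k8 k9 0 (.s k248 k90
  12 (.s k168 k88 11 (.d k252 k86 k84 14 13)))))))) (.c k240 (.l (.s k10 k5 2 (.s k169 k253 13 (.s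
  k11 k7 1 (.s k252 k86 14 (.s k168 k84 13 (.s k8 k9 0 (.d k248 k88 k90 11 12)))))))) .n))))))) (.c
  k165 (.l (.s k10 k5 2 (.s k169 k253 13 (.s k11 k7 1 (.s k8 k9 0 (.s k248 k90 12 (.s k168 k88 11
  (.d k252 k86 k84 14 13)))))))) (.c k174 (.q k93 [(.s k5 k10 2 (.s k253 k169 13 (.d k13 k9 k173 1
  11))), (.s k169 k253 13 (.s k252 k86 14 (.s k173 k94 12 (.s k81 k89 1 (.d k161 k165 k241 1
  11))))), (.s k5 k10 2 (.s k13 k9 1 (.s k165 k245 11 (.d k89 k81 k241 1 13))))] (.c k14 (.l (.s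
  k253 k169 13 (.s k13 k173 11 (.d k5 k9 k10 1 2)))) .n)) (.c k240 (.l (.s k5 k10 2 (.s k169 k253 13
  (.s k252 k86 14 (.s k173 k94 12 (.d k165 k161 k245 1 11)))))) .n))))) (.c k13 (.q k69 [(.s k207
  k138 10 (.s k71 k139 9 (.s k70 k68 0 (.d k137 k205 k204 9 10)))), (.s k5 k10 2 (.s k138 k207 10
  (.s k133 k197 7 (.s k192 k74 10 (.d k128 k143 k64 2 7))))), (.s k5 k10 2 (.s k137 k205 9 (.s k7
  k11 1 (.s k133 k197 7 (.d k70 k196 k204 8 10)))))] .n) (.c k14 (.l (.s k7 k11 1 (.s k5 k10 2 (.s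
  k6 k4 0 (.d k9 k13 k12 1 2))))) .n))))))))))))

def t108 : T TT 256 :=
  (.f k1 k2 0 (.q k69 [(.s k138 k207 10 (.s k137 k205 9 (.s k204 k70 10 (.d k136 k139 k68 0 9)))),
  (.s k207 k138 10 (.s k137 k205 9 (.s k70 k204 10 (.d k71 k68 k139 0 9))))] (.c k68 (.q k15 [(.s k5
  k10 2 (.s k9 k13 1 (.s k7 k11 1 (.d k6 k4 k12 0 2)))), (.s k207 k138 10 (.s k137 k205 9 (.s k11 k7
  1 (.s k74 k200 8 (.d k79 k64 k143 2 7))))), (.s k5 k10 2 (.s k138 k207 10 (.s k133 k197 7 (.s k192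
  k74 10 (.d k128 k143 k64 2 7)))))] .n) (.c k70 (.q k15 [(.s k5 k10 2 (.s k9 k13 1 (.s k7 k11 1 (.d
  k6 k4 k12 0 2)))), (.s k137 k205 9 (.s k11 k7 1 (.s k74 k200 8 (.s k64 k79 2 (.d k192 k133 k128 10
  7))))), (.s k5 k10 2 (.s k138 k207 10 (.s k133 k197 7 (.s k192 k74 10 (.d k128 k143 k64 2 7)))))]
  (.c k138 (.q k206 [(.s k137 k205 9 (.s k11 k7 1 (.s k74 k200 8 (.s k64 k79 2 (.d k192 k133 k128 10
  7))))), (.s k5 k10 2 (.s k9 k13 1 (.s k6 k12 2 (.d k7 k4 k11 0 1)))), (.s k5 k10 2 (.s k137 k205 9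
  (.s k133 k197 7 (.s k129 k141 1 (.d k192 k74 k66 10 8)))))] (.c k74 (.l (.s k205 k137 9 (.s k11 k7
  1 (.s k207 k204 0 (.s k139 k71 9 (.s k75 k203 7 (.s k135 k195 9 (.d k143 k131 k79 1 7)))))))) .n))
  (.c k206 (.l (.s k138 k207 10 (.s k5 k10 2 (.s k9 k13 1 (.s k6 k12 2 (.d k7 k4 k11 0 1)))))) .n)))
  (.c k137 (.q k15 [(.s k5 k10 2 (.s k9 k13 1 (.s k6 k12 2 (.d k7 k4 k11 0 1)))), (.s k207 k138 10
  (.s k11 k7 1 (.s k139 k71 9 (.s k75 k203 7 (.s k135 k195 9 (.d k143 k131 k79 1 7)))))), (.s k10 k5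
  2 (.s k138 k207 10 (.s k74 k202 7 (.s k192 k133 10 (.d k64 k79 k128 2 7)))))] .n) (.c k138 (.q k15
  [(.s k5 k10 2 (.s k9 k13 1 (.s k7 k11 1 (.d k6 k4 k12 0 2)))), (.s k137 k205 9 (.s k11 k7 1 (.s
  k74 k200 8 (.s k192 k133 10 (.d k64 k128 k79 7 2))))), (.s k5 k10 2 (.s k137 k205 9 (.s k133 k197
  7 (.s k129 k141 1 (.d k192 k74 k66 10 8)))))] (.c k70 (.q k206 [(.s k137 k205 9 (.s k11 k7 1 (.s
  k74 k200 8 (.s k64 k79 2 (.d k192 k133 k128 10 7))))), (.s k5 k10 2 (.s k9 k13 1 (.s k6 k12 2 (.d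
  k7 k4 k11 0 1)))), (.s k5 k10 2 (.s k137 k205 9 (.s k133 k197 7 (.s k129 k141 1 (.d k192 k74 k66
  10 8)))))] (.c k74 (.l (.s k205 k137 9 (.s k11 k7 1 (.s k207 k204 0 (.s k139 k71 9 (.s k75 k203 7
  (.s k135 k195 9 (.d k143 k131 k79 1 7)))))))) .n)) (.c k74 (.l (.s k137 k205 9 (.s k7 k11 1 (.s
  k70 k204 10 (.s k133 k196 8 (.d k5 k10 k197 2 7)))))) (.c k206 (.q k70 [(.d k137 k205 k204 9 10),
  (.s k5 k10 2 (.s k7 k11 1 (.d k133 k197 k196 7 8)))] .n) .n)))) (.c k139 (.q k15 [(.s k5 k10 2 (.s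
  k9 k13 1 (.s k6 k12 2 (.d k7 k4 k11 0 1)))), (.s k207 k138 10 (.s k137 k205 9 (.s k11 k7 1 (.s k74
  k200 8 (.d k79 k64 k143 2 7))))), (.s k5 k10 2 (.s k138 k207 10 (.s k133 k197 7 (.s k192 k74 10
  (.d k128 k143 k64 2 7)))))] .n) (.c k204 (.f k205 k137 9 (.q k60 [(.s k40 k20 5 (.s k41 k22 6 (.s
  k21 k61 5 (.d k42 k43 k63 0 6)))), (.s k207 k138 10 (.s k109 k158 12 (.s k61 k157 11 (.d k41 k21
  k22 5 6))))] (.c k21 (.q k15 [(.s k5 k10 2 (.s k9 k13 1 (.s k7 k11 1 (.d k6 k4 k12 0 2)))), (.s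
  k10 k5 2 (.s k138 k207 10 (.s k74 k202 7 (.s k192 k133 10 (.d k64 k79 k128 2 7))))), (.s k7 k11 1
  (.s k22 k41 6 (.s k37 k52 4 (.s k26 k48 6 (.d k30 k18 k45 1 4)))))] (.c k74 (.l (.s k5 k10 2 (.s
  k9 k13 1 (.s k6 k12 2 (.d k7 k4 k11 0 1))))) (.c k221 (.q k238 [(.s k5 k10 2 (.s k9 k13 1 (.s k7
  k11 1 (.d k6 k4 k12 0 2)))), (.s k10 k5 2 (.s k138 k207 10 (.s k74 k202 7 (.s k192 k133 10 (.d k64
  k79 k128 2 7))))), (.s k7 k11 1 (.s k22 k41 6 (.s k37 k52 4 (.s k26 k48 6 (.d k30 k18 k45 1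
  4)))))] (.c k74 (.l (.s k5 k10 2 (.s k9 k13 1 (.s k6 k12 2 (.d k7 k4 k11 0 1))))) .n)) (.c k238
  (.q k221 [(.s k5 k10 2 (.s k9 k13 1 (.s k7 k11 1 (.d k6 k4 k12 0 2)))), (.s k207 k138 10 (.s k45
  k30 4 (.s k109 k158 12 (.d k237 k253 k173 3 7))))] .n) .n)))) (.c k22 (.l (.s k207 k138 10 (.s
  k109 k158 12 (.s k61 k157 11 (.s k21 k41 5 (.d k63 k62 k42 0 6)))))) (.c k41 (.q k15 [(.s k5 k10 2
  (.s k9 k13 1 (.s k6 k12 2 (.d k7 k4 k11 0 1)))), (.s k207 k138 10 (.s k11 k7 1 (.s k139 k71 9 (.s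
  k75 k203 7 (.s k135 k195 9 (.d k143 k131 k79 1 7)))))), (.s k10 k5 2 (.s k138 k207 10 (.s k74 k202
  7 (.s k192 k133 10 (.d k64 k79 k128 2 7)))))] (.c k221 (.q k238 [(.s k5 k10 2 (.s k9 k13 1 (.s k6
  k12 2 (.d k7 k4 k11 0 1)))), (.s k207 k138 10 (.s k11 k7 1 (.s k139 k71 9 (.s k75 k203 7 (.s k135
  k195 9 (.d k143 k131 k79 1 7)))))), (.s k10 k5 2 (.s k138 k207 10 (.s k74 k202 7 (.s k192 k133 10
  (.d k64 k79 k128 2 7)))))] .n) (.c k238 (.q k221 [(.s k5 k10 2 (.s k9 k13 1 (.s k6 k12 2 (.d k7 k4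
  k11 0 1)))), (.s k207 k138 10 (.s k45 k30 4 (.s k109 k158 12 (.d k237 k253 k173 3 7))))] .n) .n)))
  (.c k61 (.q k15 [(.s k7 k11 1 (.s k5 k10 2 (.s k6 k4 0 (.d k9 k13 k12 1 2)))), (.s k10 k5 2 (.s
  k138 k207 10 (.s k74 k202 7 (.s k192 k133 10 (.d k64 k79 k128 2 7))))), (.s k7 k11 1 (.s k22 k41 6
  (.s k37 k52 4 (.s k26 k48 6 (.d k30 k18 k45 1 4)))))] (.c k74 (.l (.s k5 k10 2 (.s k9 k13 1 (.s k6
  k12 2 (.d k7 k4 k11 0 1))))) (.c k221 (.q k238 [(.s k7 k11 1 (.s k5 k10 2 (.s k6 k4 0 (.d k9 k13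
  k12 1 2)))), (.s k10 k5 2 (.s k138 k207 10 (.s k74 k202 7 (.s k192 k133 10 (.d k64 k79 k128 2
  7))))), (.s k7 k11 1 (.s k22 k41 6 (.s k37 k52 4 (.s k26 k48 6 (.d k30 k18 k45 1 4)))))] (.c k74
  (.l (.s k5 k10 2 (.s k9 k13 1 (.s k6 k12 2 (.d k7 k4 k11 0 1))))) .n)) (.c k238 (.q k221 [(.s k5
  k10 2 (.s k7 k11 1 (.s k6 k4 0 (.d k9 k13 k12 1 2)))), (.s k207 k138 10 (.s k45 k30 4 (.s k109
  k158 12 (.d k237 k253 k173 3 7))))] .n) .n)))) (.c k63 (.l (.s k207 k138 10 (.s k41 k22 6 (.s k61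
  k21 5 (.d k109 k157 k158 11 12))))) (.c k221 (.q k238 [(.s k40 k20 5 (.s k41 k22 6 (.s k21 k61 5
  (.d k42 k43 k63 0 6)))), (.s k207 k138 10 (.s k109 k158 12 (.s k61 k157 11 (.d k41 k21 k22 5
  6))))] (.c k21 (.q k15 [(.s k5 k10 2 (.s k9 k13 1 (.s k7 k11 1 (.d k6 k4 k12 0 2)))), (.s k10 k5 2
  (.s k138 k207 10 (.s k74 k202 7 (.s k192 k133 10 (.d k64 k79 k128 2 7))))), (.s k7 k11 1 (.s k22
  k41 6 (.s k37 k52 4 (.s k26 k48 6 (.d k30 k18 k45 1 4)))))] (.c k74 (.l (.s k5 k10 2 (.s k9 k13 1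
  (.s k6 k12 2 (.d k7 k4 k11 0 1))))) .n)) (.c k22 (.l (.s k207 k138 10 (.s k109 k158 12 (.s k61
  k157 11 (.s k21 k41 5 (.d k63 k62 k42 0 6)))))) (.c k41 (.q k15 [(.s k5 k10 2 (.s k9 k13 1 (.s k6
  k12 2 (.d k7 k4 k11 0 1)))), (.s k207 k138 10 (.s k11 k7 1 (.s k139 k71 9 (.s k75 k203 7 (.s k135
  k195 9 (.d k143 k131 k79 1 7)))))), (.s k10 k5 2 (.s k138 k207 10 (.s k74 k202 7 (.s k192 k133 10
  (.d k64 k79 k128 2 7)))))] .n) (.c k61 (.q k15 [(.s k7 k11 1 (.s k5 k10 2 (.s k6 k4 0 (.d k9 k13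
  k12 1 2)))), (.s k10 k5 2 (.s k138 k207 10 (.s k74 k202 7 (.s k192 k133 10 (.d k64 k79 k128 2
  7))))), (.s k7 k11 1 (.s k22 k41 6 (.s k37 k52 4 (.s k26 k48 6 (.d k30 k18 k45 1 4)))))] (.c k74
  (.l (.s k5 k10 2 (.s k9 k13 1 (.s k6 k12 2 (.d k7 k4 k11 0 1))))) .n)) (.c k63 (.l (.s k207 k138
  10 (.s k41 k22 6 (.s k61 k21 5 (.d k109 k157 k158 11 12))))) .n)))))) (.c k238 (.q k221 [(.s k40
  k20 5 (.s k41 k22 6 (.s k21 k61 5 (.d k42 k43 k63 0 6)))), (.s k253 k237 3 (.s k85 k169 13 (.s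
  k153 k17 9 (.d k101 k117 k49 3 13))))] .n) .n))))))))) (.c k205 (.q k15 [(.s k7 k11 1 (.s k5 k10 2
  (.s k6 k4 0 (.d k9 k13 k12 1 2)))), (.s k207 k138 10 (.s k7 k11 1 (.s k71 k139 9 (.s k135 k199 7
  (.s k75 k195 9 (.d k79 k67 k143 1 7)))))), (.s k5 k10 2 (.s k138 k207 10 (.s k133 k197 7 (.s k192
  k74 10 (.d k128 k143 k64 2 7)))))] .n) (.c k206 (.l (.s k138 k207 10 (.s k137 k205 9 (.s k204 k70
  10 (.d k136 k139 k68 0 9))))) (.c k207 (.q k15 [(.s k5 k10 2 (.s k9 k13 1 (.s k7 k11 1 (.d k6 k4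
  k12 0 2)))), (.s k137 k205 9 (.s k11 k7 1 (.s k74 k200 8 (.s k192 k133 10 (.d k64 k79 k128 2
  7))))), (.s k5 k10 2 (.s k137 k205 9 (.s k204 k70 10 (.s k133 k197 7 (.d k141 k129 k78 1 8)))))]
  (.c k223 (.q k239 [(.s k5 k10 2 (.s k9 k13 1 (.s k7 k11 1 (.d k6 k4 k12 0 2)))), (.s k137 k205 9
  (.s k11 k7 1 (.s k74 k200 8 (.s k192 k133 10 (.d k64 k79 k128 2 7))))), (.s k5 k10 2 (.s k137 k205
  9 (.s k204 k70 10 (.s k133 k197 7 (.d k141 k129 k78 1 8)))))] .n) (.c k239 (.q k223 [(.s k5 k10 2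
  (.s k9 k13 1 (.s k7 k11 1 (.d k6 k4 k12 0 2)))), (.s k137 k205 9 (.s k11 k7 1 (.s k74 k200 8 (.s
  k192 k133 10 (.d k64 k79 k128 2 7))))), (.s k5 k10 2 (.s k137 k205 9 (.s k204 k70 10 (.s k133 k197
  7 (.d k141 k129 k78 1 8)))))] .n) .n))) .n)))))))))))

def t109 : T TT 256 :=
  (.q k192 [(.s k1 k2 0 (.s k128 k64 7 (.s k129 k66 8 (.s k65 k193 7 (.d k130 k131 k195 0 8)))))]
  (.c k1 (.q k204 [(.s k64 k128 7 (.s k68 k136 9 (.s k72 k76 1 (.s k196 k200 1 (.d k132 k4 k12 7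
  9))))), (.s k66 k129 8 (.s k70 k137 10 (.s k74 k78 1 (.s k133 k15 10 (.d k196 k200 k7 1 8))))),
  (.s k64 k128 7 (.s k68 k136 9 (.s k66 k129 8 (.s k70 k137 10 (.s k74 k78 1 (.d k69 k71 k79 0
  2))))))] .n) (.c k2 (.q k204 [(.s k64 k128 7 (.s k68 k136 9 (.s k72 k76 1 (.s k196 k200 1 (.d k132
  k4 k12 7 9))))), (.s k66 k129 8 (.s k70 k137 10 (.s k74 k78 1 (.s k133 k15 10 (.d k196 k200 k7 1
  8))))), (.s k64 k128 7 (.s k68 k136 9 (.s k66 k129 8 (.s k70 k137 10 (.s k67 k65 0 (.d k76 k72 k73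
  1 2))))))] .n) (.c k64 (.q k137 [(.s k66 k129 8 (.s k70 k204 10 (.s k74 k78 1 (.s k11 k200 8 (.d
  k15 k7 k133 1 10))))), (.s k1 k2 0 (.s k69 k205 9 (.s k138 k207 10 (.s k204 k70 10 (.d k136 k139
  k68 0 9))))), (.s k1 k2 0 (.s k69 k205 9 (.s k129 k66 8 (.s k133 k141 1 (.s k5 k197 7 (.d k15 k10
  k74 2 10))))))] .n) (.c k65 (.q k137 [(.s k1 k2 0 (.s k204 k70 10 (.s k136 k68 9 (.s k138 k139 0
  (.d k69 k205 k207 9 10))))), (.s k129 k66 8 (.s k70 k204 10 (.s k133 k141 1 (.s k7 k196 8 (.d k15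
  k11 k74 1 10))))), (.s k1 k2 0 (.s k64 k128 7 (.s k69 k205 9 (.s k129 k66 8 (.s k74 k79 2 (.d k133
  k141 k15 1 10))))))] .n) (.c k66 (.q k137 [(.s k2 k1 0 (.s k70 k204 10 (.s k138 k206 9 (.s k207
  k69 10 (.d k139 k136 k71 0 9))))), (.s k64 k128 7 (.s k204 k70 10 (.s k68 k136 9 (.s k72 k76 1 (.s
  k132 k12 9 (.d k196 k200 k4 1 7)))))), (.s k1 k2 0 (.s k64 k128 7 (.s k69 k205 9 (.s k74 k79 2 (.s
  k11 k200 8 (.d k15 k7 k133 1 10))))))] .n) (.c k67 (.l (.s k1 k2 0 (.s k128 k64 7 (.s k129 k66 8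
  (.s k65 k193 7 (.d k130 k131 k195 0 8)))))) (.c k128 (.q k137 [(.s k1 k2 0 (.s k204 k70 10 (.s
  k136 k68 9 (.s k138 k139 0 (.d k69 k205 k207 9 10))))), (.s k66 k129 8 (.s k70 k204 10 (.s k74 k78
  1 (.s k11 k200 8 (.d k15 k7 k133 1 10))))), (.s k1 k2 0 (.s k69 k205 9 (.s k129 k66 8 (.s k133
  k141 1 (.s k5 k197 7 (.d k15 k10 k74 2 10))))))] .n) (.c k129 (.q k137 [(.s k1 k2 0 (.s k204 k70
  10 (.s k136 k68 9 (.s k138 k139 0 (.d k69 k205 k207 9 10))))), (.s k64 k128 7 (.s k204 k70 10 (.s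
  k68 k136 9 (.s k72 k76 1 (.s k132 k12 9 (.d k196 k200 k4 1 7)))))), (.s k1 k2 0 (.s k64 k128 7 (.s
  k69 k205 9 (.s k74 k79 2 (.s k11 k200 8 (.d k15 k7 k133 1 10))))))] .n) (.c k130 (.q k137 [(.s k2
  k1 0 (.s k70 k204 10 (.s k138 k206 9 (.s k207 k69 10 (.d k139 k136 k71 0 9))))), (.s k66 k129 8
  (.s k70 k204 10 (.s k74 k78 1 (.s k11 k200 8 (.d k15 k7 k133 1 10))))), (.s k1 k2 0 (.s k64 k128 7
  (.s k69 k205 9 (.s k74 k79 2 (.s k11 k200 8 (.d k15 k7 k133 1 10))))))] .n) (.c k131 (.l (.s k2 k1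
  0 (.s k64 k128 7 (.s k66 k129 8 (.s k130 k194 7 (.d k65 k67 k195 0 8)))))) (.c k193 (.l (.s k2 k1
  0 (.s k64 k128 7 (.s k66 k129 8 (.s k65 k67 0 (.d k130 k194 k195 7 8)))))) (.c k194 (.l (.s k1 k2
  0 (.s k128 k64 7 (.s k129 k66 8 (.s k130 k131 0 (.d k65 k193 k195 7 8)))))) (.c k195 (.q k137 [(.s
  k1 k2 0 (.s k204 k70 10 (.s k136 k68 9 (.s k138 k139 0 (.d k69 k205 k207 9 10))))), (.s k66 k129 8
  (.s k70 k204 10 (.s k74 k78 1 (.s k11 k200 8 (.d k15 k7 k133 1 10))))), (.s k1 k2 0 (.s k64 k128 7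
  (.s k69 k205 9 (.s k129 k66 8 (.s k74 k79 2 (.d k133 k141 k15 1 10))))))] (.c k215 (.q k235 [(.s
  k1 k2 0 (.s k204 k70 10 (.s k136 k68 9 (.s k138 k139 0 (.d k69 k205 k207 9 10))))), (.s k66 k129 8
  (.s k70 k204 10 (.s k74 k78 1 (.s k11 k200 8 (.d k15 k7 k133 1 10))))), (.s k1 k2 0 (.s k64 k128 7
  (.s k69 k205 9 (.s k129 k66 8 (.s k74 k79 2 (.d k133 k141 k15 1 10))))))] .n) (.c k235 (.q k215
  [(.s k1 k2 0 (.s k204 k70 10 (.s k136 k68 9 (.s k138 k139 0 (.d k69 k205 k207 9 10))))), (.s k66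
  k129 8 (.s k70 k204 10 (.s k74 k78 1 (.s k11 k200 8 (.d k15 k7 k133 1 10))))), (.s k1 k2 0 (.s k64
  k128 7 (.s k69 k205 9 (.s k129 k66 8 (.s k74 k79 2 (.d k133 k141 k15 1 10))))))] .n) .n)))
  .n))))))))))))))

def t111 : T TT 256 :=
  (.q k22 [(.s k1 k2 0 (.s k41 k60 6 (.s k21 k61 5 (.s k63 k42 6 (.d k23 k20 k43 0 5))))), (.s k2 k1
  0 (.s k42 k62 5 (.s k21 k63 6 (.s k60 k41 6 (.d k20 k23 k40 0 5)))))] (.c k1 (.q k15 [(.s k7 k11 1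
  (.s k41 k60 6 (.s k37 k52 4 (.s k48 k26 6 (.d k33 k45 k18 1 4))))), (.s k5 k10 2 (.s k7 k11 1 (.s
  k37 k52 4 (.s k21 k53 3 (.s k63 k42 6 (.d k23 k20 k43 0 5)))))), (.s k5 k10 2 (.s k60 k41 6 (.s
  k20 k40 5 (.s k30 k45 4 (.s k26 k18 1 (.s k37 k48 6 (.d k21 k23 k53 0 3)))))))] (.c k26 (.l (.s k5
  k10 2 (.s k7 k11 1 (.s k4 k6 0 (.s k52 k37 4 (.s k20 k36 3 (.d k60 k41 k40 6 5))))))) (.c k37 (.l
  (.s k10 k5 2 (.s k11 k7 1 (.s k41 k60 6 (.s k26 k56 4 (.s k42 k58 3 (.s k43 k40 0 (.d k63 k21 k23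
  6 5)))))))) .n))) (.c k2 (.q k15 [(.s k7 k11 1 (.s k41 k60 6 (.s k37 k52 4 (.s k48 k26 6 (.d k33
  k45 k18 1 4))))), (.s k5 k10 2 (.s k7 k11 1 (.s k37 k52 4 (.s k21 k53 3 (.s k63 k42 6 (.d k23 k20
  k43 0 5)))))), (.s k5 k10 2 (.s k60 k41 6 (.s k20 k40 5 (.s k30 k45 4 (.s k26 k18 1 (.s k37 k48 6
  (.d k21 k23 k53 0 3)))))))] (.c k26 (.l (.s k5 k10 2 (.s k7 k11 1 (.s k37 k52 4 (.s k21 k53 3 (.s
  k20 k23 0 (.d k60 k41 k40 6 5))))))) (.c k37 (.l (.s k10 k5 2 (.s k11 k7 1 (.s k41 k60 6 (.s k26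
  k56 4 (.s k42 k58 3 (.s k43 k40 0 (.d k63 k21 k23 6 5)))))))) .n))) (.c k20 (.l (.s k2 k1 0 (.s
  k42 k62 5 (.s k63 k21 6 (.s k41 k60 6 (.d k43 k40 k23 0 5)))))) (.c k21 (.q k15 [(.s k1 k2 0 (.s
  k5 k10 2 (.s k9 k13 1 (.s k7 k11 1 (.d k6 k4 k12 0 2))))), (.s k7 k11 1 (.s k41 k60 6 (.s k37 k52
  4 (.s k48 k26 6 (.d k33 k45 k18 1 4))))), (.s k2 k1 0 (.s k10 k5 2 (.s k42 k62 5 (.s k26 k58 3 (.s
  k18 k30 1 (.d k48 k37 k33 6 4))))))] .n) (.c k23 (.q k15 [(.s k1 k2 0 (.s k5 k10 2 (.s k9 k13 1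
  (.s k7 k11 1 (.d k6 k4 k12 0 2))))), (.s k7 k11 1 (.s k41 k60 6 (.s k37 k52 4 (.s k48 k26 6 (.d
  k33 k45 k18 1 4))))), (.s k2 k1 0 (.s k10 k5 2 (.s k42 k62 5 (.s k60 k41 6 (.s k26 k58 3 (.d k30
  k18 k45 1 4))))))] .n) (.c k41 (.q k15 [(.s k1 k2 0 (.s k5 k10 2 (.s k9 k13 1 (.s k6 k12 2 (.d k7
  k4 k11 0 1))))), (.s k2 k1 0 (.s k42 k62 5 (.s k7 k11 1 (.s k37 k52 4 (.s k32 k47 2 (.d k48 k26
  k16 6 3)))))), (.s k5 k10 2 (.s k7 k11 1 (.s k37 k52 4 (.s k21 k53 3 (.s k63 k42 6 (.d k23 k43 k20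
  5 0)))))), (.s k2 k1 0 (.s k10 k5 2 (.s k42 k62 5 (.s k26 k58 3 (.s k48 k37 6 (.d k18 k33 k30 4
  1))))))] .n) (.c k42 (.q k15 [(.s k2 k1 0 (.s k10 k5 2 (.s k6 k14 1 (.s k9 k12 2 (.d k11 k8 k7 0
  1))))), (.s k7 k11 1 (.s k41 k60 6 (.s k37 k52 4 (.s k33 k45 1 (.d k48 k18 k26 4 6))))), (.s k1 k2
  0 (.s k5 k10 2 (.s k41 k60 6 (.s k21 k61 5 (.s k37 k53 3 (.s k33 k45 1 (.d k48 k26 k18 6 4)))))))]
  .n) (.c k60 (.q k15 [(.s k1 k2 0 (.s k5 k10 2 (.s k9 k13 1 (.s k7 k11 1 (.d k6 k4 k12 0 2))))),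
  (.s k2 k1 0 (.s k42 k62 5 (.s k63 k21 6 (.s k7 k11 1 (.s k37 k52 4 (.d k47 k32 k31 2 3)))))), (.s
  k5 k10 2 (.s k7 k11 1 (.s k37 k52 4 (.s k21 k53 3 (.s k63 k42 6 (.d k23 k20 k43 0 5)))))), (.s k2
  k1 0 (.s k10 k5 2 (.s k42 k62 5 (.s k26 k58 3 (.s k48 k37 6 (.d k18 k30 k33 1 4))))))] (.c k125
  (.q k190 [(.s k1 k2 0 (.s k5 k10 2 (.s k9 k13 1 (.s k7 k11 1 (.d k6 k4 k12 0 2))))), (.s k2 k1 0
  (.s k42 k62 5 (.s k63 k21 6 (.s k7 k11 1 (.s k37 k52 4 (.d k47 k32 k31 2 3)))))), (.s k5 k10 2 (.s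
  k7 k11 1 (.s k37 k52 4 (.s k21 k53 3 (.s k63 k42 6 (.d k23 k20 k43 0 5)))))), (.s k2 k1 0 (.s k10
  k5 2 (.s k42 k62 5 (.s k26 k58 3 (.s k48 k37 6 (.d k18 k30 k33 1 4))))))] .n) (.c k190 (.q k125
  [(.s k1 k2 0 (.s k5 k10 2 (.s k9 k13 1 (.s k7 k11 1 (.d k6 k4 k12 0 2))))), (.s k2 k1 0 (.s k42
  k62 5 (.s k63 k21 6 (.s k7 k11 1 (.s k37 k52 4 (.d k47 k32 k31 2 3)))))), (.s k5 k10 2 (.s k7 k11
  1 (.s k37 k52 4 (.s k21 k53 3 (.s k63 k42 6 (.d k23 k20 k43 0 5)))))), (.s k2 k1 0 (.s k10 k5 2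
  (.s k42 k62 5 (.s k26 k58 3 (.s k48 k37 6 (.d k18 k30 k33 1 4))))))] .n) .n))) (.c k61 (.l (.s k2
  k1 0 (.s k42 k62 5 (.s k21 k63 6 (.s k60 k41 6 (.d k20 k23 k40 0 5)))))) (.c k62 (.l (.s k1 k2 0
  (.s k41 k60 6 (.s k21 k61 5 (.s k63 k42 6 (.d k23 k20 k43 0 5)))))) (.c k63 (.f k1 k2 0 (.q k15
  [(.s k5 k10 2 (.s k9 k13 1 (.s k7 k11 1 (.d k6 k4 k12 0 2)))), (.s k7 k11 1 (.s k41 k60 6 (.s k37
  k52 4 (.s k48 k26 6 (.d k33 k45 k18 1 4))))), (.s k5 k10 2 (.s k9 k13 1 (.s k41 k60 6 (.s k25 k57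
  3 (.s k19 k28 2 (.s k51 k35 3 (.d k12 k6 k38 2 6)))))))] (.c k127 (.q k191 [(.s k5 k10 2 (.s k9
  k13 1 (.s k7 k11 1 (.d k6 k4 k12 0 2)))), (.s k7 k11 1 (.s k41 k60 6 (.s k37 k52 4 (.s k48 k26 6
  (.d k33 k45 k18 1 4))))), (.s k5 k10 2 (.s k9 k13 1 (.s k41 k60 6 (.s k25 k57 3 (.s k19 k28 2 (.s
  k51 k35 3 (.d k12 k6 k38 2 6)))))))] (.c k79 (.q k95 [(.s k5 k10 2 (.s k9 k13 1 (.s k7 k11 1 (.d
  k6 k4 k12 0 2)))), (.s k7 k11 1 (.s k41 k60 6 (.s k37 k52 4 (.s k48 k26 6 (.d k33 k45 k18 1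
  4))))), (.s k5 k10 2 (.s k9 k13 1 (.s k41 k60 6 (.s k25 k57 3 (.s k19 k28 2 (.s k51 k35 3 (.d k12
  k6 k38 2 6)))))))] (.c k159 (.q k207 [(.s k5 k10 2 (.s k9 k13 1 (.s k7 k11 1 (.d k6 k4 k12 0
  2)))), (.s k69 k138 10 (.s k137 k205 9 (.s k70 k204 10 (.d k71 k68 k139 0 9))))] .n) (.c k207 (.q
  k159 [(.s k5 k10 2 (.s k9 k13 1 (.s k7 k11 1 (.d k6 k4 k12 0 2)))), (.s k60 k41 6 (.s k20 k40 5
  (.s k30 k45 4 (.s k26 k18 1 (.s k21 k23 0 (.d k31 k223 k16 7 2))))))] (.c k223 (.q k239 [(.s k5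
  k10 2 (.s k9 k13 1 (.s k7 k11 1 (.d k6 k4 k12 0 2)))), (.s k7 k11 1 (.s k41 k60 6 (.s k37 k52 4
  (.s k48 k26 6 (.d k33 k45 k18 1 4))))), (.s k5 k10 2 (.s k9 k13 1 (.s k41 k60 6 (.s k25 k57 3 (.s
  k19 k28 2 (.s k51 k35 3 (.d k12 k6 k38 2 6)))))))] .n) (.c k239 (.l (.s k223 k31 7 (.s k5 k10 2
  (.s k9 k13 1 (.s k6 k12 2 (.d k7 k4 k11 0 1)))))) .n))) .n))) (.c k95 (.q k79 [(.s k5 k10 2 (.s k9
  k13 1 (.s k7 k11 1 (.d k6 k4 k12 0 2)))), (.s k7 k11 1 (.s k41 k60 6 (.s k37 k52 4 (.s k48 k26 6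
  (.d k33 k45 k18 1 4))))), (.s k5 k10 2 (.s k207 k143 7 (.s k69 k138 10 (.s k133 k197 7 (.d k74 k64
  k192 2 10)))))] (.c k159 (.l (.s k207 k143 7 (.s k5 k10 2 (.s k69 k138 10 (.s k133 k197 7 (.d k74
  k64 k192 2 10)))))) (.c k207 (.q k159 [(.s k5 k10 2 (.s k9 k13 1 (.s k7 k11 1 (.d k6 k4 k12 0
  2)))), (.s k7 k11 1 (.s k41 k60 6 (.s k37 k52 4 (.s k48 k26 6 (.d k33 k45 k18 1 4))))), (.s k5 k10
  2 (.s k9 k13 1 (.s k41 k60 6 (.s k25 k57 3 (.s k19 k28 2 (.s k51 k35 3 (.d k12 k6 k38 2 6)))))))]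
  (.c k223 (.q k239 [(.s k5 k10 2 (.s k9 k13 1 (.s k7 k11 1 (.d k6 k4 k12 0 2)))), (.s k7 k11 1 (.s
  k41 k60 6 (.s k37 k52 4 (.s k48 k26 6 (.d k33 k45 k18 1 4))))), (.s k5 k10 2 (.s k9 k13 1 (.s k41
  k60 6 (.s k25 k57 3 (.s k19 k28 2 (.s k51 k35 3 (.d k12 k6 k38 2 6)))))))] .n) (.c k239 (.q k223
  [(.s k5 k10 2 (.s k9 k13 1 (.s k7 k11 1 (.d k6 k4 k12 0 2)))), (.s k7 k11 1 (.s k41 k60 6 (.s k37
  k52 4 (.s k48 k26 6 (.d k33 k45 k18 1 4))))), (.s k5 k10 2 (.s k9 k13 1 (.s k41 k60 6 (.s k25 k57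
  3 (.s k19 k28 2 (.s k51 k35 3 (.d k12 k6 k38 2 6)))))))] (.c k47 (.l (.s k175 k143 3 (.s k5 k10 2
  (.s k9 k13 1 (.s k6 k12 2 (.d k7 k4 k11 0 1)))))) (.c k175 (.q k47 [(.s k5 k10 2 (.s k9 k13 1 (.s
  k7 k11 1 (.d k6 k4 k12 0 2)))), (.s k7 k11 1 (.s k37 k52 4 (.s k48 k26 6 (.d k32 k42 k16 2 3)))),
  (.s k5 k10 2 (.s k9 k13 1 (.s k60 k41 6 (.s k45 k30 4 (.s k44 k46 0 (.d k12 k6 k28 2 3))))))] .n)
  .n))) .n))) .n))) (.c k159 (.q k207 [(.s k5 k10 2 (.s k9 k13 1 (.s k7 k11 1 (.d k6 k4 k12 0 2)))),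
  (.s k69 k138 10 (.s k137 k205 9 (.s k70 k204 10 (.d k71 k68 k139 0 9))))] (.c k79 (.q k95 [(.s k5
  k10 2 (.s k9 k13 1 (.s k7 k11 1 (.d k6 k4 k12 0 2)))), (.s k69 k138 10 (.s k137 k205 9 (.s k70
  k204 10 (.d k71 k68 k139 0 9))))] .n) (.c k95 (.l (.s k79 k143 7 (.s k5 k10 2 (.s k69 k138 10 (.s
  k133 k197 7 (.d k74 k64 k192 2 10)))))) .n))) (.c k207 (.q k159 [(.s k5 k10 2 (.s k9 k13 1 (.s k7
  k11 1 (.d k6 k4 k12 0 2)))), (.s k7 k11 1 (.s k41 k60 6 (.s k37 k52 4 (.s k48 k26 6 (.d k33 k45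
  k18 1 4))))), (.s k5 k10 2 (.s k9 k13 1 (.s k41 k60 6 (.s k25 k57 3 (.s k19 k28 2 (.s k51 k35 3
  (.d k12 k6 k38 2 6)))))))] (.c k79 (.q k95 [(.s k5 k10 2 (.s k9 k13 1 (.s k7 k11 1 (.d k6 k4 k12 0
  2)))), (.s k60 k41 6 (.s k20 k40 5 (.s k30 k45 4 (.s k26 k18 1 (.s k21 k23 0 (.d k31 k223 k16 7
  2))))))] (.c k223 (.q k239 [(.s k5 k10 2 (.s k9 k13 1 (.s k7 k11 1 (.d k6 k4 k12 0 2)))), (.s k7
  k11 1 (.s k41 k60 6 (.s k37 k52 4 (.s k48 k26 6 (.d k33 k45 k18 1 4))))), (.s k5 k10 2 (.s k9 k13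
  1 (.s k41 k60 6 (.s k25 k57 3 (.s k19 k28 2 (.s k51 k35 3 (.d k12 k6 k38 2 6)))))))] .n) (.c k239
  (.l (.s k223 k31 7 (.s k5 k10 2 (.s k9 k13 1 (.s k6 k12 2 (.d k7 k4 k11 0 1)))))) .n))) (.c k95
  (.q k79 [(.s k5 k10 2 (.s k9 k13 1 (.s k7 k11 1 (.d k6 k4 k12 0 2)))), (.s k7 k11 1 (.s k41 k60 6
  (.s k37 k52 4 (.s k48 k26 6 (.d k33 k45 k18 1 4))))), (.s k5 k10 2 (.s k9 k13 1 (.s k41 k60 6 (.s
  k25 k57 3 (.s k19 k28 2 (.s k51 k35 3 (.d k12 k6 k38 2 6)))))))] (.c k223 (.q k239 [(.s k5 k10 2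
  (.s k9 k13 1 (.s k7 k11 1 (.d k6 k4 k12 0 2)))), (.s k7 k11 1 (.s k41 k60 6 (.s k37 k52 4 (.s k48
  k26 6 (.d k33 k45 k18 1 4))))), (.s k5 k10 2 (.s k9 k13 1 (.s k41 k60 6 (.s k25 k57 3 (.s k19 k28
  2 (.s k51 k35 3 (.d k12 k6 k38 2 6)))))))] .n) (.c k239 (.q k223 [(.s k5 k10 2 (.s k9 k13 1 (.s k7
  k11 1 (.d k6 k4 k12 0 2)))), (.s k7 k11 1 (.s k41 k60 6 (.s k37 k52 4 (.s k48 k26 6 (.d k33 k45
  k18 1 4))))), (.s k5 k10 2 (.s k9 k13 1 (.s k41 k60 6 (.s k25 k57 3 (.s k19 k28 2 (.s k51 k35 3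
  (.d k12 k6 k38 2 6)))))))] (.c k47 (.l (.s k175 k143 3 (.s k5 k10 2 (.s k9 k13 1 (.s k6 k12 2 (.d
  k7 k4 k11 0 1)))))) (.c k175 (.q k47 [(.s k5 k10 2 (.s k9 k13 1 (.s k7 k11 1 (.d k6 k4 k12 0
  2)))), (.s k7 k11 1 (.s k37 k52 4 (.s k48 k26 6 (.d k32 k42 k16 2 3)))), (.s k5 k10 2 (.s k9 k13 1
  (.s k60 k41 6 (.s k45 k30 4 (.s k44 k46 0 (.d k12 k6 k28 2 3))))))] .n) .n))) .n))) (.c k223 (.q
  k239 [(.s k5 k10 2 (.s k9 k13 1 (.s k7 k11 1 (.d k6 k4 k12 0 2)))), (.s k7 k11 1 (.s k41 k60 6 (.s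
  k37 k52 4 (.s k48 k26 6 (.d k33 k45 k18 1 4))))), (.s k5 k10 2 (.s k9 k13 1 (.s k41 k60 6 (.s k25
  k57 3 (.s k19 k28 2 (.s k51 k35 3 (.d k12 k6 k38 2 6)))))))] (.c k79 (.q k95 [(.s k5 k10 2 (.s k9
  k13 1 (.s k7 k11 1 (.d k6 k4 k12 0 2)))), (.s k7 k11 1 (.s k41 k60 6 (.s k37 k52 4 (.s k48 k26 6
  (.d k33 k45 k18 1 4))))), (.s k5 k10 2 (.s k9 k13 1 (.s k41 k60 6 (.s k25 k57 3 (.s k19 k28 2 (.s
  k51 k35 3 (.d k12 k6 k38 2 6)))))))] .n) (.c k95 (.q k79 [(.s k5 k10 2 (.s k9 k13 1 (.s k7 k11 1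
  (.d k6 k4 k12 0 2)))), (.s k7 k11 1 (.s k41 k60 6 (.s k37 k52 4 (.s k48 k26 6 (.d k33 k45 k18 1
  4))))), (.s k5 k10 2 (.s k9 k13 1 (.s k41 k60 6 (.s k25 k57 3 (.s k19 k28 2 (.s k51 k35 3 (.d k12
  k6 k38 2 6)))))))] .n) .n))) (.c k239 (.q k223 [(.s k5 k10 2 (.s k9 k13 1 (.s k7 k11 1 (.d k6 k4
  k12 0 2)))), (.s k60 k41 6 (.s k20 k40 5 (.s k30 k45 4 (.s k26 k18 1 (.s k21 k23 0 (.d k31 k95 k16
  7 2))))))] (.c k47 (.l (.s k175 k143 3 (.s k5 k10 2 (.s k9 k13 1 (.s k6 k12 2 (.d k7 k4 k11 0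
  1)))))) (.c k79 (.l (.s k95 k31 7 (.s k5 k10 2 (.s k9 k13 1 (.s k6 k12 2 (.d k7 k4 k11 0 1))))))
  (.c k95 (.q k79 [(.s k5 k10 2 (.s k9 k13 1 (.s k7 k11 1 (.d k6 k4 k12 0 2)))), (.s k7 k11 1 (.s
  k41 k60 6 (.s k37 k52 4 (.s k48 k26 6 (.d k33 k45 k18 1 4))))), (.s k5 k10 2 (.s k9 k13 1 (.s k41
  k60 6 (.s k25 k57 3 (.s k19 k28 2 (.s k51 k35 3 (.d k12 k6 k38 2 6)))))))] (.c k47 (.l (.s k175
  k143 3 (.s k5 k10 2 (.s k9 k13 1 (.s k6 k12 2 (.d k7 k4 k11 0 1)))))) (.c k175 (.q k47 [(.s k5 k10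
  2 (.s k9 k13 1 (.s k7 k11 1 (.d k6 k4 k12 0 2)))), (.s k7 k11 1 (.s k37 k52 4 (.s k48 k26 6 (.d
  k32 k42 k16 2 3)))), (.s k5 k10 2 (.s k9 k13 1 (.s k60 k41 6 (.s k45 k30 4 (.s k44 k46 0 (.d k12
  k6 k28 2 3))))))] .n) .n))) (.c k175 (.q k47 [(.s k5 k10 2 (.s k9 k13 1 (.s k7 k11 1 (.d k6 k4 k12
  0 2)))), (.s k7 k11 1 (.s k37 k52 4 (.s k48 k26 6 (.d k32 k42 k16 2 3)))), (.s k5 k10 2 (.s k9 k13
  1 (.s k60 k41 6 (.s k45 k30 4 (.s k44 k46 0 (.d k12 k6 k28 2 3))))))] (.c k79 (.l (.s k95 k31 7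
  (.s k5 k10 2 (.s k9 k13 1 (.s k6 k12 2 (.d k7 k4 k11 0 1)))))) (.c k95 (.q k79 [(.s k5 k10 2 (.s
  k9 k13 1 (.s k7 k11 1 (.d k6 k4 k12 0 2)))), (.s k7 k11 1 (.s k37 k52 4 (.s k48 k26 6 (.d k32 k42
  k16 2 3)))), (.s k5 k10 2 (.s k9 k13 1 (.s k60 k41 6 (.s k45 k30 4 (.s k44 k46 0 (.d k12 k6 k28 2
  3))))))] .n) .n))) .n))))) .n))))) .n))))) (.c k159 (.q k207 [(.s k5 k10 2 (.s k9 k13 1 (.s k7 k11
  1 (.d k6 k4 k12 0 2)))), (.s k69 k138 10 (.s k137 k205 9 (.s k70 k204 10 (.d k71 k68 k139 0 9))))]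
  (.c k127 (.q k191 [(.s k5 k10 2 (.s k9 k13 1 (.s k7 k11 1 (.d k6 k4 k12 0 2)))), (.s k69 k138 10
  (.s k137 k205 9 (.s k70 k204 10 (.d k71 k68 k139 0 9))))] (.c k79 (.q k95 [(.s k5 k10 2 (.s k9 k13
  1 (.s k7 k11 1 (.d k6 k4 k12 0 2)))), (.s k69 k138 10 (.s k137 k205 9 (.s k70 k204 10 (.d k71 k68
  k139 0 9))))] .n) (.c k95 (.l (.s k79 k143 7 (.s k5 k10 2 (.s k69 k138 10 (.s k133 k197 7 (.d k74
  k64 k192 2 10)))))) .n))) (.c k191 (.q k127 [(.s k5 k10 2 (.s k9 k13 1 (.s k7 k11 1 (.d k6 k4 k12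
  0 2)))), (.s k69 k138 10 (.s k137 k205 9 (.s k70 k204 10 (.d k71 k68 k139 0 9))))] (.c k143 (.q
  k175 [(.s k5 k10 2 (.s k9 k13 1 (.s k7 k11 1 (.d k6 k4 k12 0 2)))), (.s k69 k138 10 (.s k137 k205
  9 (.s k70 k204 10 (.d k71 k68 k139 0 9))))] .n) (.c k175 (.l (.s k143 k79 7 (.s k5 k10 2 (.s k9
  k13 1 (.s k6 k12 2 (.d k7 k4 k11 0 1)))))) .n))) .n))) (.c k191 (.q k127 [(.s k5 k10 2 (.s k9 k13
  1 (.s k7 k11 1 (.d k6 k4 k12 0 2)))), (.s k7 k11 1 (.s k41 k60 6 (.s k37 k52 4 (.s k48 k26 6 (.d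
  k33 k45 k18 1 4))))), (.s k5 k10 2 (.s k9 k13 1 (.s k41 k60 6 (.s k25 k57 3 (.s k19 k28 2 (.s k51
  k35 3 (.d k12 k6 k38 2 6)))))))] (.c k159 (.q k207 [(.s k5 k10 2 (.s k9 k13 1 (.s k7 k11 1 (.d k6
  k4 k12 0 2)))), (.s k69 k138 10 (.s k137 k205 9 (.s k70 k204 10 (.d k71 k68 k139 0 9))))] (.c k143
  (.q k175 [(.s k5 k10 2 (.s k9 k13 1 (.s k7 k11 1 (.d k6 k4 k12 0 2)))), (.s k69 k138 10 (.s k137
  k205 9 (.s k70 k204 10 (.d k71 k68 k139 0 9))))] .n) (.c k175 (.l (.s k143 k79 7 (.s k5 k10 2 (.s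
  k9 k13 1 (.s k6 k12 2 (.d k7 k4 k11 0 1)))))) .n))) (.c k207 (.q k159 [(.s k5 k10 2 (.s k9 k13 1
  (.s k7 k11 1 (.d k6 k4 k12 0 2)))), (.s k7 k11 1 (.s k41 k60 6 (.s k37 k52 4 (.s k48 k26 6 (.d k33
  k45 k18 1 4))))), (.s k5 k10 2 (.s k9 k13 1 (.s k41 k60 6 (.s k25 k57 3 (.s k19 k28 2 (.s k51 k35
  3 (.d k12 k6 k38 2 6)))))))] (.c k223 (.q k239 [(.s k5 k10 2 (.s k9 k13 1 (.s k7 k11 1 (.d k6 k4
  k12 0 2)))), (.s k7 k11 1 (.s k41 k60 6 (.s k37 k52 4 (.s k48 k26 6 (.d k33 k45 k18 1 4))))), (.s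
  k5 k10 2 (.s k9 k13 1 (.s k41 k60 6 (.s k25 k57 3 (.s k19 k28 2 (.s k51 k35 3 (.d k12 k6 k38 2
  6)))))))] .n) (.c k239 (.q k223 [(.s k5 k10 2 (.s k9 k13 1 (.s k7 k11 1 (.d k6 k4 k12 0 2)))), (.s
  k60 k41 6 (.s k20 k40 5 (.s k30 k45 4 (.s k26 k18 1 (.s k21 k23 0 (.d k31 k16 k95 2 7))))))] (.c
  k47 (.q k175 [(.s k5 k10 2 (.s k9 k13 1 (.s k7 k11 1 (.d k6 k4 k12 0 2)))), (.s k60 k41 6 (.s k20
  k40 5 (.s k30 k45 4 (.s k26 k18 1 (.s k21 k23 0 (.d k31 k16 k95 2 7))))))] .n) (.c k175 (.q k47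
  [(.s k5 k10 2 (.s k9 k13 1 (.s k7 k11 1 (.d k6 k4 k12 0 2)))), (.s k7 k11 1 (.s k37 k52 4 (.s k48
  k26 6 (.d k32 k42 k16 2 3)))), (.s k5 k10 2 (.s k9 k13 1 (.s k60 k41 6 (.s k45 k30 4 (.s k44 k46 0
  (.d k12 k6 k28 2 3))))))] .n) .n))) .n))) .n))) (.c k207 (.q k159 [(.s k5 k10 2 (.s k9 k13 1 (.s
  k7 k11 1 (.d k6 k4 k12 0 2)))), (.s k7 k11 1 (.s k41 k60 6 (.s k37 k52 4 (.s k48 k26 6 (.d k33 k45
  k18 1 4))))), (.s k5 k10 2 (.s k9 k13 1 (.s k41 k60 6 (.s k25 k57 3 (.s k19 k28 2 (.s k51 k35 3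
  (.d k12 k6 k38 2 6)))))))] (.c k127 (.q k191 [(.s k5 k10 2 (.s k9 k13 1 (.s k7 k11 1 (.d k6 k4 k12
  0 2)))), (.s k7 k11 1 (.s k41 k60 6 (.s k37 k52 4 (.s k48 k26 6 (.d k33 k45 k18 1 4))))), (.s k5
  k10 2 (.s k9 k13 1 (.s k41 k60 6 (.s k25 k57 3 (.s k19 k28 2 (.s k51 k35 3 (.d k12 k6 k38 2
  6)))))))] (.c k79 (.q k95 [(.s k5 k10 2 (.s k9 k13 1 (.s k7 k11 1 (.d k6 k4 k12 0 2)))), (.s k60
  k41 6 (.s k20 k40 5 (.s k30 k45 4 (.s k26 k18 1 (.s k21 k23 0 (.d k31 k223 k16 7 2))))))] (.c k223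
  (.q k239 [(.s k5 k10 2 (.s k9 k13 1 (.s k7 k11 1 (.d k6 k4 k12 0 2)))), (.s k7 k11 1 (.s k41 k60 6
  (.s k37 k52 4 (.s k48 k26 6 (.d k33 k45 k18 1 4))))), (.s k5 k10 2 (.s k9 k13 1 (.s k41 k60 6 (.s
  k25 k57 3 (.s k19 k28 2 (.s k51 k35 3 (.d k12 k6 k38 2 6)))))))] .n) (.c k239 (.l (.s k223 k31 7
  (.s k5 k10 2 (.s k9 k13 1 (.s k6 k12 2 (.d k7 k4 k11 0 1)))))) .n))) (.c k95 (.q k79 [(.s k5 k10 2
  (.s k9 k13 1 (.s k7 k11 1 (.d k6 k4 k12 0 2)))), (.s k7 k11 1 (.s k41 k60 6 (.s k37 k52 4 (.s k48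
  k26 6 (.d k33 k45 k18 1 4))))), (.s k5 k10 2 (.s k9 k13 1 (.s k41 k60 6 (.s k25 k57 3 (.s k19 k28
  2 (.s k51 k35 3 (.d k12 k6 k38 2 6)))))))] (.c k223 (.q k239 [(.s k5 k10 2 (.s k9 k13 1 (.s k7 k11
  1 (.d k6 k4 k12 0 2)))), (.s k7 k11 1 (.s k41 k60 6 (.s k37 k52 4 (.s k48 k26 6 (.d k33 k45 k18 1
  4))))), (.s k5 k10 2 (.s k9 k13 1 (.s k41 k60 6 (.s k25 k57 3 (.s k19 k28 2 (.s k51 k35 3 (.d k12
  k6 k38 2 6)))))))] .n) (.c k239 (.q k223 [(.s k5 k10 2 (.s k9 k13 1 (.s k7 k11 1 (.d k6 k4 k12 0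
  2)))), (.s k7 k11 1 (.s k41 k60 6 (.s k37 k52 4 (.s k48 k26 6 (.d k33 k45 k18 1 4))))), (.s k5 k10
  2 (.s k9 k13 1 (.s k41 k60 6 (.s k25 k57 3 (.s k19 k28 2 (.s k51 k35 3 (.d k12 k6 k38 2 6)))))))]
  (.c k47 (.l (.s k175 k143 3 (.s k5 k10 2 (.s k9 k13 1 (.s k6 k12 2 (.d k7 k4 k11 0 1)))))) (.c
  k175 (.q k47 [(.s k5 k10 2 (.s k9 k13 1 (.s k7 k11 1 (.d k6 k4 k12 0 2)))), (.s k7 k11 1 (.s k37
  k52 4 (.s k48 k26 6 (.d k32 k42 k16 2 3)))), (.s k5 k10 2 (.s k9 k13 1 (.s k60 k41 6 (.s k45 k30 4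
  (.s k44 k46 0 (.d k12 k6 k28 2 3))))))] .n) .n))) .n))) (.c k223 (.q k239 [(.s k5 k10 2 (.s k9 k13
  1 (.s k7 k11 1 (.d k6 k4 k12 0 2)))), (.s k7 k11 1 (.s k41 k60 6 (.s k37 k52 4 (.s k48 k26 6 (.d
  k33 k45 k18 1 4))))), (.s k5 k10 2 (.s k9 k13 1 (.s k41 k60 6 (.s k25 k57 3 (.s k19 k28 2 (.s k51
  k35 3 (.d k12 k6 k38 2 6)))))))] (.c k79 (.q k95 [(.s k5 k10 2 (.s k9 k13 1 (.s k7 k11 1 (.d k6 k4
  k12 0 2)))), (.s k7 k11 1 (.s k41 k60 6 (.s k37 k52 4 (.s k48 k26 6 (.d k33 k45 k18 1 4))))), (.s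
  k5 k10 2 (.s k9 k13 1 (.s k41 k60 6 (.s k25 k57 3 (.s k19 k28 2 (.s k51 k35 3 (.d k12 k6 k38 2
  6)))))))] .n) (.c k95 (.q k79 [(.s k5 k10 2 (.s k9 k13 1 (.s k7 k11 1 (.d k6 k4 k12 0 2)))), (.s
  k7 k11 1 (.s k41 k60 6 (.s k37 k52 4 (.s k48 k26 6 (.d k33 k45 k18 1 4))))), (.s k5 k10 2 (.s k9
  k13 1 (.s k41 k60 6 (.s k25 k57 3 (.s k19 k28 2 (.s k51 k35 3 (.d k12 k6 k38 2 6)))))))] .n) .n)))
  (.c k239 (.q k223 [(.s k5 k10 2 (.s k9 k13 1 (.s k7 k11 1 (.d k6 k4 k12 0 2)))), (.s k60 k41 6 (.s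
  k20 k40 5 (.s k30 k45 4 (.s k26 k18 1 (.s k21 k23 0 (.d k31 k95 k16 7 2))))))] (.c k47 (.l (.s
  k175 k143 3 (.s k5 k10 2 (.s k9 k13 1 (.s k6 k12 2 (.d k7 k4 k11 0 1)))))) (.c k79 (.l (.s k95 k31
  7 (.s k5 k10 2 (.s k9 k13 1 (.s k6 k12 2 (.d k7 k4 k11 0 1)))))) (.c k95 (.q k79 [(.s k5 k10 2 (.s
  k9 k13 1 (.s k7 k11 1 (.d k6 k4 k12 0 2)))), (.s k7 k11 1 (.s k41 k60 6 (.s k37 k52 4 (.s k48 k26
  6 (.d k33 k45 k18 1 4))))), (.s k5 k10 2 (.s k9 k13 1 (.s k41 k60 6 (.s k25 k57 3 (.s k19 k28 2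
  (.s k51 k35 3 (.d k12 k6 k38 2 6)))))))] (.c k47 (.l (.s k175 k143 3 (.s k5 k10 2 (.s k9 k13 1 (.s
  k6 k12 2 (.d k7 k4 k11 0 1)))))) (.c k175 (.q k47 [(.s k5 k10 2 (.s k9 k13 1 (.s k7 k11 1 (.d k6
  k4 k12 0 2)))), (.s k7 k11 1 (.s k37 k52 4 (.s k48 k26 6 (.d k32 k42 k16 2 3)))), (.s k5 k10 2 (.s
  k9 k13 1 (.s k60 k41 6 (.s k45 k30 4 (.s k44 k46 0 (.d k12 k6 k28 2 3))))))] .n) .n))) (.c k175
  (.q k47 [(.s k5 k10 2 (.s k9 k13 1 (.s k7 k11 1 (.d k6 k4 k12 0 2)))), (.s k7 k11 1 (.s k37 k52 4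
  (.s k48 k26 6 (.d k32 k42 k16 2 3)))), (.s k5 k10 2 (.s k9 k13 1 (.s k60 k41 6 (.s k45 k30 4 (.s
  k44 k46 0 (.d k12 k6 k28 2 3))))))] (.c k79 (.l (.s k95 k31 7 (.s k5 k10 2 (.s k9 k13 1 (.s k6 k12
  2 (.d k7 k4 k11 0 1)))))) (.c k95 (.q k79 [(.s k5 k10 2 (.s k9 k13 1 (.s k7 k11 1 (.d k6 k4 k12 0
  2)))), (.s k7 k11 1 (.s k37 k52 4 (.s k48 k26 6 (.d k32 k42 k16 2 3)))), (.s k5 k10 2 (.s k9 k13 1
  (.s k60 k41 6 (.s k45 k30 4 (.s k44 k46 0 (.d k12 k6 k28 2 3))))))] .n) .n))) .n))))) .n))))) (.c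
  k191 (.q k127 [(.s k5 k10 2 (.s k9 k13 1 (.s k7 k11 1 (.d k6 k4 k12 0 2)))), (.s k7 k11 1 (.s k41
  k60 6 (.s k37 k52 4 (.s k48 k26 6 (.d k33 k45 k18 1 4))))), (.s k5 k10 2 (.s k9 k13 1 (.s k41 k60
  6 (.s k25 k57 3 (.s k19 k28 2 (.s k51 k35 3 (.d k12 k6 k38 2 6)))))))] (.c k223 (.q k239 [(.s k5
  k10 2 (.s k9 k13 1 (.s k7 k11 1 (.d k6 k4 k12 0 2)))), (.s k7 k11 1 (.s k41 k60 6 (.s k37 k52 4
  (.s k48 k26 6 (.d k33 k45 k18 1 4))))), (.s k5 k10 2 (.s k9 k13 1 (.s k41 k60 6 (.s k25 k57 3 (.s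
  k19 k28 2 (.s k51 k35 3 (.d k12 k6 k38 2 6)))))))] .n) (.c k239 (.q k223 [(.s k5 k10 2 (.s k9 k13
  1 (.s k7 k11 1 (.d k6 k4 k12 0 2)))), (.s k60 k41 6 (.s k20 k40 5 (.s k30 k45 4 (.s k26 k18 1 (.s
  k21 k23 0 (.d k31 k16 k95 2 7))))))] (.c k47 (.q k175 [(.s k5 k10 2 (.s k9 k13 1 (.s k7 k11 1 (.d
  k6 k4 k12 0 2)))), (.s k60 k41 6 (.s k20 k40 5 (.s k30 k45 4 (.s k26 k18 1 (.s k21 k23 0 (.d k31
  k16 k95 2 7))))))] .n) (.c k175 (.q k47 [(.s k5 k10 2 (.s k9 k13 1 (.s k7 k11 1 (.d k6 k4 k12 0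
  2)))), (.s k7 k11 1 (.s k37 k52 4 (.s k48 k26 6 (.d k32 k42 k16 2 3)))), (.s k5 k10 2 (.s k9 k13 1
  (.s k60 k41 6 (.s k45 k30 4 (.s k44 k46 0 (.d k12 k6 k28 2 3))))))] .n) .n))) .n))) (.c k223 (.q
  k239 [(.s k5 k10 2 (.s k9 k13 1 (.s k7 k11 1 (.d k6 k4 k12 0 2)))), (.s k7 k11 1 (.s k41 k60 6 (.s
  k37 k52 4 (.s k48 k26 6 (.d k33 k45 k18 1 4))))), (.s k5 k10 2 (.s k9 k13 1 (.s k41 k60 6 (.s k25
  k57 3 (.s k19 k28 2 (.s k51 k35 3 (.d k12 k6 k38 2 6)))))))] (.c k127 (.q k191 [(.s k5 k10 2 (.s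
  k9 k13 1 (.s k7 k11 1 (.d k6 k4 k12 0 2)))), (.s k7 k11 1 (.s k41 k60 6 (.s k37 k52 4 (.s k48 k26
  6 (.d k33 k45 k18 1 4))))), (.s k5 k10 2 (.s k9 k13 1 (.s k41 k60 6 (.s k25 k57 3 (.s k19 k28 2
  (.s k51 k35 3 (.d k12 k6 k38 2 6)))))))] (.c k79 (.q k95 [(.s k5 k10 2 (.s k9 k13 1 (.s k7 k11 1
  (.d k6 k4 k12 0 2)))), (.s k7 k11 1 (.s k41 k60 6 (.s k37 k52 4 (.s k48 k26 6 (.d k33 k45 k18 1
  4))))), (.s k5 k10 2 (.s k9 k13 1 (.s k41 k60 6 (.s k25 k57 3 (.s k19 k28 2 (.s k51 k35 3 (.d k12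
  k6 k38 2 6)))))))] .n) (.c k95 (.q k79 [(.s k5 k10 2 (.s k9 k13 1 (.s k7 k11 1 (.d k6 k4 k12 0
  2)))), (.s k7 k11 1 (.s k41 k60 6 (.s k37 k52 4 (.s k48 k26 6 (.d k33 k45 k18 1 4))))), (.s k5 k10
  2 (.s k9 k13 1 (.s k41 k60 6 (.s k25 k57 3 (.s k19 k28 2 (.s k51 k35 3 (.d k12 k6 k38 2 6)))))))]
  .n) .n))) (.c k191 (.q k127 [(.s k5 k10 2 (.s k9 k13 1 (.s k7 k11 1 (.d k6 k4 k12 0 2)))), (.s k7
  k11 1 (.s k41 k60 6 (.s k37 k52 4 (.s k48 k26 6 (.d k33 k45 k18 1 4))))), (.s k5 k10 2 (.s k9 k13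
  1 (.s k41 k60 6 (.s k25 k57 3 (.s k19 k28 2 (.s k51 k35 3 (.d k12 k6 k38 2 6)))))))] .n) .n))) (.c
  k239 (.q k223 [(.s k5 k10 2 (.s k9 k13 1 (.s k7 k11 1 (.d k6 k4 k12 0 2)))), (.s k60 k41 6 (.s k20
  k40 5 (.s k30 k45 4 (.s k26 k18 1 (.s k21 k23 0 (.d k31 k16 k95 2 7))))))] (.c k47 (.q k175 [(.s
  k5 k10 2 (.s k9 k13 1 (.s k7 k11 1 (.d k6 k4 k12 0 2)))), (.s k60 k41 6 (.s k20 k40 5 (.s k30 k45
  4 (.s k26 k18 1 (.s k21 k23 0 (.d k31 k16 k95 2 7))))))] (.c k127 (.l (.s k191 k143 3 (.s k5 k10 2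
  (.s k9 k13 1 (.s k6 k12 2 (.d k7 k4 k11 0 1)))))) (.c k191 (.q k127 [(.s k5 k10 2 (.s k9 k13 1 (.s
  k7 k11 1 (.d k6 k4 k12 0 2)))), (.s k60 k41 6 (.s k20 k40 5 (.s k30 k45 4 (.s k26 k18 1 (.s k21
  k23 0 (.d k31 k16 k95 2 7))))))] .n) .n))) (.c k127 (.q k191 [(.s k5 k10 2 (.s k9 k13 1 (.s k7 k11
  1 (.d k6 k4 k12 0 2)))), (.s k60 k41 6 (.s k20 k40 5 (.s k30 k45 4 (.s k26 k18 1 (.s k21 k23 0 (.d
  k31 k95 k16 7 2))))))] (.c k47 (.l (.s k175 k143 3 (.s k5 k10 2 (.s k9 k13 1 (.s k6 k12 2 (.d k7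
  k4 k11 0 1)))))) (.c k79 (.l (.s k95 k31 7 (.s k5 k10 2 (.s k9 k13 1 (.s k6 k12 2 (.d k7 k4 k11 0
  1)))))) (.c k95 (.q k79 [(.s k5 k10 2 (.s k9 k13 1 (.s k7 k11 1 (.d k6 k4 k12 0 2)))), (.s k7 k11
  1 (.s k41 k60 6 (.s k37 k52 4 (.s k48 k26 6 (.d k33 k45 k18 1 4))))), (.s k5 k10 2 (.s k9 k13 1
  (.s k41 k60 6 (.s k25 k57 3 (.s k19 k28 2 (.s k51 k35 3 (.d k12 k6 k38 2 6)))))))] (.c k47 (.l (.s
  k175 k143 3 (.s k5 k10 2 (.s k9 k13 1 (.s k6 k12 2 (.d k7 k4 k11 0 1)))))) (.c k175 (.q k47 [(.s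
  k5 k10 2 (.s k9 k13 1 (.s k7 k11 1 (.d k6 k4 k12 0 2)))), (.s k7 k11 1 (.s k37 k52 4 (.s k48 k26 6
  (.d k32 k42 k16 2 3)))), (.s k5 k10 2 (.s k9 k13 1 (.s k60 k41 6 (.s k45 k30 4 (.s k44 k46 0 (.d
  k12 k6 k28 2 3))))))] .n) .n))) (.c k175 (.q k47 [(.s k5 k10 2 (.s k9 k13 1 (.s k7 k11 1 (.d k6 k4
  k12 0 2)))), (.s k7 k11 1 (.s k37 k52 4 (.s k48 k26 6 (.d k32 k42 k16 2 3)))), (.s k5 k10 2 (.s k9
  k13 1 (.s k60 k41 6 (.s k45 k30 4 (.s k44 k46 0 (.d k12 k6 k28 2 3))))))] (.c k79 (.l (.s k95 k31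
  7 (.s k5 k10 2 (.s k9 k13 1 (.s k6 k12 2 (.d k7 k4 k11 0 1)))))) (.c k95 (.q k79 [(.s k5 k10 2 (.s
  k9 k13 1 (.s k7 k11 1 (.d k6 k4 k12 0 2)))), (.s k7 k11 1 (.s k37 k52 4 (.s k48 k26 6 (.d k32 k42
  k16 2 3)))), (.s k5 k10 2 (.s k9 k13 1 (.s k60 k41 6 (.s k45 k30 4 (.s k44 k46 0 (.d k12 k6 k28 2
  3))))))] .n) .n))) .n))))) (.c k175 (.q k47 [(.s k5 k10 2 (.s k9 k13 1 (.s k7 k11 1 (.d k6 k4 k12
  0 2)))), (.s k7 k11 1 (.s k37 k52 4 (.s k48 k26 6 (.d k32 k42 k16 2 3)))), (.s k5 k10 2 (.s k9 k13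
  1 (.s k60 k41 6 (.s k45 k30 4 (.s k44 k46 0 (.d k12 k6 k28 2 3))))))] (.c k127 (.q k191 [(.s k5
  k10 2 (.s k9 k13 1 (.s k7 k11 1 (.d k6 k4 k12 0 2)))), (.s k7 k11 1 (.s k37 k52 4 (.s k48 k26 6
  (.d k32 k42 k16 2 3)))), (.s k5 k10 2 (.s k9 k13 1 (.s k60 k41 6 (.s k45 k30 4 (.s k44 k46 0 (.d
  k12 k6 k28 2 3))))))] (.c k79 (.l (.s k95 k31 7 (.s k5 k10 2 (.s k9 k13 1 (.s k6 k12 2 (.d k7 k4
  k11 0 1)))))) (.c k95 (.q k79 [(.s k5 k10 2 (.s k9 k13 1 (.s k7 k11 1 (.d k6 k4 k12 0 2)))), (.s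
  k7 k11 1 (.s k37 k52 4 (.s k48 k26 6 (.d k32 k42 k16 2 3)))), (.s k5 k10 2 (.s k9 k13 1 (.s k60
  k41 6 (.s k45 k30 4 (.s k44 k46 0 (.d k12 k6 k28 2 3))))))] .n) .n))) (.c k191 (.q k127 [(.s k5
  k10 2 (.s k9 k13 1 (.s k7 k11 1 (.d k6 k4 k12 0 2)))), (.s k7 k11 1 (.s k37 k52 4 (.s k48 k26 6
  (.d k32 k42 k16 2 3)))), (.s k5 k10 2 (.s k9 k13 1 (.s k60 k41 6 (.s k45 k30 4 (.s k44 k46 0 (.d
  k12 k6 k28 2 3))))))] .n) .n))) (.c k191 (.q k127 [(.s k5 k10 2 (.s k9 k13 1 (.s k7 k11 1 (.d k6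
  k4 k12 0 2)))), (.s k60 k41 6 (.s k20 k40 5 (.s k30 k45 4 (.s k26 k18 1 (.s k21 k23 0 (.d k31 k16
  k95 2 7))))))] (.c k47 (.q k175 [(.s k5 k10 2 (.s k9 k13 1 (.s k7 k11 1 (.d k6 k4 k12 0 2)))), (.s
  k60 k41 6 (.s k20 k40 5 (.s k30 k45 4 (.s k26 k18 1 (.s k21 k23 0 (.d k31 k16 k95 2 7))))))] .n)
  (.c k175 (.q k47 [(.s k5 k10 2 (.s k9 k13 1 (.s k7 k11 1 (.d k6 k4 k12 0 2)))), (.s k7 k11 1 (.s
  k37 k52 4 (.s k48 k26 6 (.d k32 k42 k16 2 3)))), (.s k5 k10 2 (.s k9 k13 1 (.s k60 k41 6 (.s k45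
  k30 4 (.s k44 k46 0 (.d k12 k6 k28 2 3))))))] .n) .n))) .n))))) .n))))) .n)))))) .n))))))))))))

def t124 : T TT 256 :=
  (.q k137 [(.s k1 k2 0 (.s k69 k205 9 (.s k138 k207 10 (.s k204 k70 10 (.d k136 k139 k68 0 9))))),
  (.s k2 k1 0 (.s k70 k204 10 (.s k138 k206 9 (.s k207 k69 10 (.d k139 k136 k71 0 9)))))] (.c k1 (.q
  k192 [(.s k129 k66 8 (.s k204 k70 10 (.s k133 k141 1 (.s k74 k15 10 (.d k200 k196 k11 1 8))))),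
  (.s k64 k128 7 (.s k204 k70 10 (.s k68 k136 9 (.s k72 k76 1 (.s k132 k12 9 (.d k196 k200 k4 1
  7)))))), (.s k128 k64 7 (.s k129 k66 8 (.s k133 k141 1 (.s k138 k143 2 (.s k207 k69 10 (.d k139
  k136 k71 0 9))))))] .n) (.c k2 (.q k192 [(.s k66 k129 8 (.s k70 k204 10 (.s k74 k78 1 (.s k11 k200
  8 (.d k15 k7 k133 1 10))))), (.s k64 k128 7 (.s k204 k70 10 (.s k68 k136 9 (.s k72 k76 1 (.s k132
  k12 9 (.d k196 k200 k4 1 7)))))), (.s k128 k64 7 (.s k129 k66 8 (.s k133 k141 1 (.s k138 k143 2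
  (.s k207 k69 10 (.d k139 k136 k71 0 9))))))] .n) (.c k69 (.q k192 [(.s k2 k1 0 (.s k64 k128 7 (.s
  k66 k129 8 (.s k130 k194 7 (.d k65 k67 k195 0 8))))), (.s k66 k129 8 (.s k70 k204 10 (.s k74 k78 1
  (.s k11 k200 8 (.d k15 k7 k133 1 10))))), (.s k64 k128 7 (.s k204 k70 10 (.s k68 k136 9 (.s k72
  k76 1 (.s k132 k12 9 (.d k196 k200 k4 1 7))))))] .n) (.c k70 (.q k192 [(.s k2 k1 0 (.s k64 k128 7
  (.s k66 k129 8 (.s k130 k194 7 (.d k65 k67 k195 0 8))))), (.s k1 k2 0 (.s k64 k128 7 (.s k69 k205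
  9 (.s k74 k79 2 (.s k11 k200 8 (.d k15 k7 k133 1 10)))))), (.s k128 k64 7 (.s k129 k66 8 (.s k133
  k141 1 (.s k138 k143 2 (.s k207 k69 10 (.d k139 k71 k136 9 0)))))), (.s k1 k2 0 (.s k69 k205 9 (.s
  k129 k66 8 (.s k133 k141 1 (.s k5 k197 7 (.d k15 k74 k10 10 2))))))] .n) (.c k136 (.l (.s k1 k2 0
  (.s k69 k205 9 (.s k207 k138 10 (.s k70 k204 10 (.d k71 k68 k139 0 9)))))) (.c k138 (.q k192 [(.s
  k66 k129 8 (.s k70 k204 10 (.s k74 k78 1 (.s k11 k200 8 (.d k15 k7 k133 1 10))))), (.s k1 k2 0 (.s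
  k128 k64 7 (.s k129 k66 8 (.s k65 k193 7 (.d k130 k131 k195 0 8))))), (.s k1 k2 0 (.s k64 k128 7
  (.s k69 k205 9 (.s k74 k79 2 (.s k11 k200 8 (.d k15 k133 k7 10 1))))))] (.c k70 (.l (.s k2 k1 0
  (.s k64 k128 7 (.s k66 k129 8 (.s k130 k194 7 (.d k65 k67 k195 0 8)))))) .n)) (.c k139 (.q k192
  [(.s k2 k1 0 (.s k64 k128 7 (.s k66 k129 8 (.s k130 k194 7 (.d k65 k67 k195 0 8))))), (.s k66 k129
  8 (.s k70 k204 10 (.s k74 k78 1 (.s k11 k200 8 (.d k15 k7 k133 1 10))))), (.s k1 k2 0 (.s k64 k128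
  7 (.s k69 k205 9 (.s k204 k70 10 (.s k74 k79 2 (.d k200 k196 k11 1 8))))))] .n) (.c k204 (.q k192
  [(.s k2 k1 0 (.s k64 k128 7 (.s k66 k129 8 (.s k130 k194 7 (.d k65 k67 k195 0 8))))), (.s k1 k2 0
  (.s k64 k128 7 (.s k69 k205 9 (.s k74 k79 2 (.s k11 k200 8 (.d k15 k7 k133 1 10)))))), (.s k128
  k64 7 (.s k129 k66 8 (.s k133 k141 1 (.s k138 k143 2 (.s k207 k69 10 (.d k139 k136 k71 0 9)))))),
  (.s k1 k2 0 (.s k69 k205 9 (.s k207 k138 10 (.s k129 k66 8 (.s k133 k141 1 (.d k197 k202 k5 2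
  7))))))] (.c k221 (.q k238 [(.s k2 k1 0 (.s k64 k128 7 (.s k66 k129 8 (.s k130 k194 7 (.d k65 k67
  k195 0 8))))), (.s k1 k2 0 (.s k64 k128 7 (.s k69 k205 9 (.s k74 k79 2 (.s k11 k200 8 (.d k15 k7
  k133 1 10)))))), (.s k128 k64 7 (.s k129 k66 8 (.s k133 k141 1 (.s k138 k143 2 (.s k207 k69 10 (.d
  k139 k136 k71 0 9)))))), (.s k1 k2 0 (.s k69 k205 9 (.s k207 k138 10 (.s k129 k66 8 (.s k133 k141
  1 (.d k197 k202 k5 2 7))))))] .n) (.c k238 (.q k221 [(.s k2 k1 0 (.s k64 k128 7 (.s k66 k129 8 (.s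
  k130 k194 7 (.d k65 k67 k195 0 8))))), (.s k1 k2 0 (.s k64 k128 7 (.s k69 k205 9 (.s k74 k79 2 (.s
  k11 k200 8 (.d k15 k7 k133 1 10)))))), (.s k128 k64 7 (.s k129 k66 8 (.s k133 k141 1 (.s k138 k143
  2 (.s k207 k69 10 (.d k139 k136 k71 0 9)))))), (.s k1 k2 0 (.s k69 k205 9 (.s k207 k138 10 (.s
  k129 k66 8 (.s k133 k141 1 (.d k197 k202 k5 2 7))))))] .n) .n))) (.c k205 (.l (.s k2 k1 0 (.s k70
  k204 10 (.s k138 k206 9 (.s k207 k69 10 (.d k139 k136 k71 0 9)))))) (.c k206 (.l (.s k1 k2 0 (.s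
  k69 k205 9 (.s k138 k207 10 (.s k204 k70 10 (.d k136 k139 k68 0 9)))))) (.c k207 (.f k204 k70 10
  (.q k192 [(.s k129 k66 8 (.s k133 k141 1 (.s k200 k196 1 (.d k74 k11 k15 8 10)))), (.s k2 k1 0 (.s
  k64 k128 7 (.s k66 k129 8 (.s k130 k194 7 (.d k65 k67 k195 0 8))))), (.s k1 k2 0 (.s k64 k128 7
  (.s k69 k205 9 (.s k200 k196 1 (.d k74 k79 k11 2 8)))))] (.c k223 (.q k239 [(.s k129 k66 8 (.s
  k133 k141 1 (.s k200 k196 1 (.d k74 k11 k15 8 10)))), (.s k2 k1 0 (.s k64 k128 7 (.s k66 k129 8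
  (.s k130 k194 7 (.d k65 k67 k195 0 8))))), (.s k1 k2 0 (.s k64 k128 7 (.s k69 k205 9 (.s k200 k196
  1 (.d k74 k79 k11 2 8)))))] .n) (.c k239 (.q k223 [(.s k129 k66 8 (.s k133 k141 1 (.s k200 k196 1
  (.d k74 k11 k15 8 10)))), (.s k2 k1 0 (.s k64 k128 7 (.s k66 k129 8 (.s k130 k194 7 (.d k65 k67
  k195 0 8))))), (.s k1 k2 0 (.s k64 k128 7 (.s k69 k205 9 (.s k200 k196 1 (.d k74 k79 k11 2 8)))))]
  .n) .n)))) .n))))))))))))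

def t125 : T TT 256 :=
  (.q k60 [(.s k2 k1 0 (.s k20 k40 5 (.s k22 k41 6 (.s k42 k62 5 (.d k21 k23 k63 0 6)))))] (.c k1
  (.q k12 [(.s k4 k8 1 (.s k20 k40 5 (.s k36 k52 3 (.s k28 k44 3 (.d k24 k16 k48 1 5))))), (.s k6 k9
  2 (.s k22 k41 6 (.s k38 k54 3 (.s k25 k51 6 (.d k28 k19 k44 2 3))))), (.s k4 k8 1 (.s k20 k40 5
  (.s k6 k9 2 (.s k22 k41 6 (.s k38 k54 3 (.d k21 k23 k55 0 4))))))] .n) (.c k2 (.q k12 [(.s k4 k8 1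
  (.s k20 k40 5 (.s k36 k52 3 (.s k28 k44 3 (.d k24 k16 k48 1 5))))), (.s k6 k9 2 (.s k22 k41 6 (.s
  k38 k54 3 (.s k25 k51 6 (.d k28 k19 k44 2 3))))), (.s k4 k8 1 (.s k20 k40 5 (.s k6 k9 2 (.s k22
  k41 6 (.s k7 k5 0 (.d k52 k36 k37 3 4))))))] .n) (.c k20 (.q k12 [(.s k2 k1 0 (.s k4 k8 1 (.s k6
  k9 2 (.s k10 k14 1 (.d k5 k7 k15 0 2))))), (.s k6 k9 2 (.s k22 k41 6 (.s k38 k54 3 (.s k25 k51 6
  (.d k28 k19 k44 2 3))))), (.s k1 k2 0 (.s k4 k8 1 (.s k41 k22 6 (.s k21 k61 5 (.s k38 k55 4 (.d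
  k44 k35 k28 2 3))))))] .n) (.c k21 (.q k12 [(.s k4 k8 1 (.s k20 k40 5 (.s k36 k52 3 (.s k24 k48 5
  (.d k28 k16 k44 1 3))))), (.s k1 k2 0 (.s k8 k4 1 (.s k9 k6 2 (.s k5 k13 1 (.d k10 k11 k15 0
  2))))), (.s k6 k9 2 (.s k22 k41 6 (.s k38 k54 3 (.s k25 k51 6 (.d k28 k19 k44 2 3)))))] .n) (.c
  k22 (.q k12 [(.s k2 k1 0 (.s k4 k8 1 (.s k6 k9 2 (.s k10 k14 1 (.d k5 k7 k15 0 2))))), (.s k4 k8 1
  (.s k20 k40 5 (.s k36 k52 3 (.s k24 k48 5 (.d k28 k16 k44 1 3)))))] (.c k4 (.q k62 [(.s k2 k1 0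
  (.s k6 k9 2 (.s k14 k10 1 (.s k30 k46 3 (.d k15 k13 k45 0 4))))), (.s k1 k2 0 (.s k44 k28 3 (.s
  k61 k63 0 (.s k41 k21 5 (.s k38 k35 2 (.s k25 k51 6 (.d k9 k6 k57 2 3))))))), (.s k44 k28 3 (.s
  k63 k61 0 (.s k46 k29 4 (.s k30 k14 3 (.d k45 k47 k15 0 4)))))] .n) (.c k7 (.l (.s k1 k2 0 (.s k8
  k4 1 (.s k9 k6 2 (.s k5 k13 1 (.d k10 k11 k15 0 2)))))) (.c k8 (.q k204 [(.s k28 k44 3 (.s k140
  k76 7 (.s k156 k108 11 (.s k92 k220 7 (.d k172 k188 k252 3 11))))), (.s k1 k2 0 (.s k136 k68 9 (.s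
  k137 k70 10 (.s k69 k205 9 (.d k138 k139 k207 0 10)))))] .n) .n)))) (.c k23 (.l (.s k1 k2 0 (.s
  k40 k20 5 (.s k41 k22 6 (.s k21 k61 5 (.d k42 k43 k63 0 6)))))) (.c k40 (.q k12 [(.s k1 k2 0 (.s
  k8 k4 1 (.s k9 k6 2 (.s k5 k13 1 (.d k10 k11 k15 0 2))))), (.s k6 k9 2 (.s k22 k41 6 (.s k38 k54 3
  (.s k25 k51 6 (.d k28 k19 k44 2 3))))), (.s k1 k2 0 (.s k4 k8 1 (.s k41 k22 6 (.s k21 k61 5 (.s
  k38 k55 4 (.d k44 k35 k28 2 3))))))] .n) (.c k41 (.q k12 [(.s k1 k2 0 (.s k8 k4 1 (.s k9 k6 2 (.s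
  k5 k13 1 (.d k10 k11 k15 0 2))))), (.s k4 k8 1 (.s k20 k40 5 (.s k36 k52 3 (.s k24 k48 5 (.d k28
  k16 k44 1 3)))))] (.c k4 (.q k204 [(.s k1 k2 0 (.s k137 k70 10 (.s k69 k205 9 (.s k138 k207 10 (.d
  k136 k139 k68 0 9))))), (.s k28 k44 3 (.s k140 k76 7 (.s k156 k108 11 (.s k92 k220 7 (.d k172 k188
  k252 3 11)))))] .n) (.c k8 (.q k204 [(.s k1 k2 0 (.s k136 k68 9 (.s k137 k70 10 (.s k69 k205 9 (.d
  k138 k139 k207 0 10))))), (.s k28 k44 3 (.s k140 k76 7 (.s k156 k108 11 (.s k92 k220 7 (.d k172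
  k188 k252 3 11)))))] .n) .n))) (.c k42 (.q k12 [(.s k1 k2 0 (.s k8 k4 1 (.s k9 k6 2 (.s k5 k13 1
  (.d k10 k11 k15 0 2))))), (.s k4 k8 1 (.s k20 k40 5 (.s k36 k52 3 (.s k24 k48 5 (.d k28 k16 k44 1
  3))))), (.s k6 k9 2 (.s k22 k41 6 (.s k38 k54 3 (.s k25 k51 6 (.d k28 k19 k44 2 3)))))] .n) (.c
  k43 (.l (.s k2 k1 0 (.s k20 k40 5 (.s k22 k41 6 (.s k42 k62 5 (.d k21 k23 k63 0 6)))))) (.c k61
  (.l (.s k2 k1 0 (.s k20 k40 5 (.s k22 k41 6 (.s k21 k23 0 (.d k42 k62 k63 5 6)))))) (.c k62 (.l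
  (.s k1 k2 0 (.s k40 k20 5 (.s k41 k22 6 (.s k42 k43 0 (.d k21 k61 k63 5 6)))))) (.c k63 (.q k12
  [(.s k1 k2 0 (.s k8 k4 1 (.s k9 k6 2 (.s k5 k13 1 (.d k10 k11 k15 0 2))))), (.s k4 k8 1 (.s k20
  k40 5 (.s k36 k52 3 (.s k24 k48 5 (.d k28 k16 k44 1 3))))), (.s k6 k9 2 (.s k22 k41 6 (.s k38 k54
  3 (.s k25 k51 6 (.d k28 k19 k44 2 3)))))] (.c k127 (.q k191 [(.s k1 k2 0 (.s k8 k4 1 (.s k9 k6 2
  (.s k5 k13 1 (.d k10 k11 k15 0 2))))), (.s k4 k8 1 (.s k20 k40 5 (.s k36 k52 3 (.s k24 k48 5 (.d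
  k28 k16 k44 1 3))))), (.s k6 k9 2 (.s k22 k41 6 (.s k38 k54 3 (.s k25 k51 6 (.d k28 k19 k44 2
  3)))))] (.c k124 (.q k126 [(.s k1 k2 0 (.s k8 k4 1 (.s k9 k6 2 (.s k5 k13 1 (.d k10 k11 k15 0
  2))))), (.s k4 k8 1 (.s k20 k40 5 (.s k36 k52 3 (.s k24 k48 5 (.d k28 k16 k44 1 3))))), (.s k6 k9
  2 (.s k22 k41 6 (.s k38 k54 3 (.s k25 k51 6 (.d k28 k19 k44 2 3)))))] .n) (.c k126 (.q k124 [(.s
  k20 k40 5 (.s k252 k188 7 (.s k84 k168 13 (.s k148 k212 7 (.d k104 k64 k192 5 13))))), (.s k1 k2 0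
  (.s k8 k4 1 (.s k9 k6 2 (.s k5 k13 1 (.d k10 k11 k15 0 2)))))] (.c k189 (.l (.s k252 k188 7 (.s
  k20 k40 5 (.s k84 k168 13 (.s k148 k212 7 (.d k104 k64 k192 5 13)))))) (.c k252 (.q k189 [(.s k1
  k2 0 (.s k8 k4 1 (.s k9 k6 2 (.s k5 k13 1 (.d k10 k11 k15 0 2))))), (.s k4 k8 1 (.s k20 k40 5 (.s
  k36 k52 3 (.s k24 k48 5 (.d k28 k16 k44 1 3))))), (.s k6 k9 2 (.s k22 k41 6 (.s k38 k54 3 (.s k25
  k51 6 (.d k28 k19 k44 2 3)))))] (.c k253 (.q k254 [(.s k1 k2 0 (.s k8 k4 1 (.s k9 k6 2 (.s k10 k11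
  0 (.d k5 k13 k15 1 2))))), (.s k4 k8 1 (.s k20 k40 5 (.s k36 k52 3 (.s k24 k48 5 (.d k28 k16 k44 1
  3))))), (.s k2 k1 0 (.s k86 k170 13 (.s k22 k41 6 (.s k150 k214 7 (.d k105 k195 k67 14 6)))))] .n)
  (.c k254 (.q k253 [(.s k2 k1 0 (.s k4 k8 1 (.s k6 k9 2 (.s k5 k7 0 (.d k10 k14 k15 1 2))))), (.s
  k4 k8 1 (.s k20 k40 5 (.s k36 k52 3 (.s k24 k48 5 (.d k28 k16 k44 1 3))))), (.s k6 k9 2 (.s k22
  k41 6 (.s k38 k54 3 (.s k25 k51 6 (.d k28 k19 k44 2 3)))))] (.c k62 (.l (.s k190 k188 0 (.s k1 k2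
  0 (.s k8 k4 1 (.s k9 k6 2 (.s k5 k13 1 (.d k10 k11 k15 0 2))))))) (.c k190 (.q k62 [(.s k2 k1 0
  (.d k22 k42 k41 5 6)), (.s k4 k8 1 (.s k20 k40 5 (.s k36 k52 3 (.s k24 k48 5 (.d k28 k16 k44 1
  3)))))] .n) .n))) .n))) .n))) .n))) (.c k191 (.q k127 [(.s k1 k2 0 (.s k8 k4 1 (.s k9 k6 2 (.s k5
  k13 1 (.d k10 k11 k15 0 2))))), (.s k4 k8 1 (.s k20 k40 5 (.s k36 k52 3 (.s k24 k48 5 (.d k28 k16
  k44 1 3))))), (.s k6 k9 2 (.s k22 k41 6 (.s k38 k54 3 (.s k25 k51 6 (.d k28 k19 k44 2 3)))))] .n)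
  .n))) .n))))))))))))))

def t126 : T TT 256 :=
  (.q k12 [(.s k1 k2 0 (.s k8 k4 1 (.s k9 k6 2 (.s k5 k13 1 (.d k10 k11 k15 0 2)))))] (.c k1 (.q k60
  [(.s k4 k8 1 (.s k20 k40 5 (.s k36 k52 3 (.s k28 k44 3 (.d k24 k16 k48 1 5))))), (.s k6 k9 2 (.s
  k22 k41 6 (.s k38 k54 3 (.s k25 k51 6 (.d k28 k19 k44 2 3))))), (.s k4 k8 1 (.s k20 k40 5 (.s k6
  k9 2 (.s k22 k41 6 (.s k38 k54 3 (.d k21 k23 k55 0 4))))))] .n) (.c k2 (.q k60 [(.s k4 k8 1 (.s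
  k20 k40 5 (.s k36 k52 3 (.s k28 k44 3 (.d k24 k16 k48 1 5))))), (.s k6 k9 2 (.s k22 k41 6 (.s k38
  k54 3 (.s k25 k51 6 (.d k28 k19 k44 2 3))))), (.s k4 k8 1 (.s k20 k40 5 (.s k6 k9 2 (.s k22 k41 6
  (.s k7 k5 0 (.d k52 k36 k37 3 4))))))] .n) (.c k4 (.q k42 [(.s k1 k2 0 (.s k21 k63 6 (.s k41 k61 5
  (.s k60 k22 6 (.d k40 k43 k20 0 5))))), (.s k2 k1 0 (.s k22 k62 5 (.s k6 k9 2 (.s k38 k54 3 (.s
  k34 k46 1 (.d k51 k17 k25 4 6)))))), (.s k63 k21 6 (.s k6 k9 2 (.s k43 k23 5 (.s k46 k29 4 (.s k38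
  k34 1 (.s k22 k54 3 (.d k41 k40 k60 0 6)))))))] (.c k22 (.l (.s k1 k2 0 (.s k21 k63 6 (.s k41 k61
  5 (.s k9 k6 2 (.s k25 k57 3 (.s k17 k29 1 (.d k51 k38 k34 6 4)))))))) .n)) (.c k5 (.q k42 [(.s k1
  k2 0 (.s k21 k63 6 (.s k41 k61 5 (.s k60 k22 6 (.d k40 k43 k20 0 5))))), (.s k4 k8 1 (.s k21 k63 6
  (.s k38 k55 4 (.s k51 k25 6 (.d k34 k46 k17 1 4))))), (.s k2 k1 0 (.s k8 k4 1 (.s k22 k62 5 (.s
  k41 k60 6 (.s k25 k59 4 (.d k9 k6 k57 2 3))))))] (.c k63 (.l (.s k2 k1 0 (.s k8 k4 1 (.s k22 k62 5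
  (.s k60 k41 6 (.s k25 k59 4 (.d k28 k19 k44 2 3))))))) .n)) (.c k6 (.q k42 [(.s k2 k1 0 (.s k63
  k21 6 (.s k22 k62 5 (.s k41 k60 6 (.d k43 k40 k23 0 5))))), (.s k4 k8 1 (.s k21 k63 6 (.s k38 k55
  4 (.s k51 k25 6 (.d k34 k46 k17 1 4))))), (.s k2 k1 0 (.s k8 k4 1 (.s k22 k62 5 (.s k25 k59 4 (.s
  k19 k28 2 (.d k51 k35 k38 3 6))))))] .n) (.c k7 (.l (.s k1 k2 0 (.s k8 k4 1 (.s k9 k6 2 (.s k5 k13
  1 (.d k10 k11 k15 0 2)))))) (.c k8 (.q k42 [(.s k2 k1 0 (.s k63 k21 6 (.s k22 k62 5 (.s k41 k60 6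
  (.d k43 k40 k23 0 5))))), (.s k2 k1 0 (.s k22 k62 5 (.s k6 k9 2 (.s k38 k54 3 (.s k34 k46 1 (.d
  k51 k17 k25 4 6)))))), (.s k63 k21 6 (.s k6 k9 2 (.s k43 k23 5 (.s k46 k29 4 (.s k38 k34 1 (.s k22
  k54 3 (.d k41 k40 k60 0 6)))))))] (.c k22 (.l (.s k1 k2 0 (.s k21 k63 6 (.s k41 k61 5 (.s k9 k6 2
  (.s k25 k57 3 (.s k17 k29 1 (.d k51 k38 k34 6 4)))))))) .n)) (.c k9 (.q k42 [(.s k1 k2 0 (.s k21
  k63 6 (.s k41 k61 5 (.s k60 k22 6 (.d k40 k43 k20 0 5))))), (.s k2 k1 0 (.s k8 k4 1 (.s k22 k62 5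
  (.s k25 k59 4 (.s k19 k28 2 (.d k51 k35 k38 3 6)))))), (.s k4 k8 1 (.s k21 k63 6 (.s k38 k55 4 (.s
  k51 k25 6 (.d k34 k46 k17 1 4)))))] .n) (.c k10 (.q k42 [(.s k2 k1 0 (.s k63 k21 6 (.s k22 k62 5
  (.s k41 k60 6 (.d k43 k40 k23 0 5))))), (.s k4 k8 1 (.s k21 k63 6 (.s k38 k55 4 (.s k51 k25 6 (.d
  k34 k46 k17 1 4))))), (.s k2 k1 0 (.s k8 k4 1 (.s k22 k62 5 (.s k6 k9 2 (.s k38 k54 3 (.d k25 k59
  k51 4 6))))))] .n) (.c k11 (.l (.s k2 k1 0 (.s k4 k8 1 (.s k6 k9 2 (.s k10 k14 1 (.d k5 k7 k15 0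
  2)))))) (.c k13 (.l (.s k2 k1 0 (.s k4 k8 1 (.s k6 k9 2 (.s k5 k7 0 (.d k10 k14 k15 1 2)))))) (.c
  k14 (.l (.s k1 k2 0 (.s k8 k4 1 (.s k9 k6 2 (.s k10 k11 0 (.d k5 k13 k15 1 2)))))) (.c k15 (.q k42
  [(.s k2 k1 0 (.s k63 k21 6 (.s k22 k62 5 (.s k41 k60 6 (.d k43 k40 k23 0 5))))), (.s k4 k8 1 (.s
  k21 k63 6 (.s k38 k55 4 (.s k51 k25 6 (.d k34 k46 k17 1 4))))), (.s k2 k1 0 (.s k8 k4 1 (.s k22
  k62 5 (.s k6 k9 2 (.s k38 k54 3 (.d k25 k59 k51 4 6))))))] (.c k95 (.q k175 [(.s k2 k1 0 (.s k63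
  k21 6 (.s k22 k62 5 (.s k41 k60 6 (.d k43 k40 k23 0 5))))), (.s k4 k8 1 (.s k21 k63 6 (.s k38 k55
  4 (.s k51 k25 6 (.d k34 k46 k17 1 4))))), (.s k2 k1 0 (.s k8 k4 1 (.s k22 k62 5 (.s k6 k9 2 (.s
  k38 k54 3 (.d k25 k59 k51 4 6))))))] .n) (.c k175 (.q k95 [(.s k2 k1 0 (.s k63 k21 6 (.s k22 k62 5
  (.s k41 k60 6 (.d k43 k40 k23 0 5))))), (.s k4 k8 1 (.s k21 k63 6 (.s k38 k55 4 (.s k51 k25 6 (.d
  k34 k46 k17 1 4))))), (.s k2 k1 0 (.s k8 k4 1 (.s k22 k62 5 (.s k6 k9 2 (.s k38 k54 3 (.d k25 k59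
  k51 4 6))))))] .n) .n))) .n))))))))))))))

def t127 : T TT 256 :=
  (.q k63 [(.s k1 k2 0 (.s k21 k42 6 (.s k41 k61 5 (.s k23 k43 5 (.d k22 k20 k60 0 6)))))] (.c k1
  (.q k12 [(.s k4 k8 1 (.s k21 k42 6 (.s k38 k55 4 (.s k29 k46 4 (.d k25 k17 k51 1 6))))), (.s k21
  k42 6 (.s k6 k9 2 (.s k23 k43 5 (.s k22 k20 0 (.s k38 k54 3 (.d k4 k8 k55 1 4)))))), (.s k21 k42 6
  (.s k6 k9 2 (.s k23 k43 5 (.s k29 k46 4 (.s k25 k17 1 (.s k38 k51 6 (.d k22 k20 k54 0 3)))))))]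
  (.c k21 (.l (.s k8 k4 1 (.s k9 k6 2 (.s k43 k23 5 (.s k11 k10 0 (.s k59 k27 3 (.s k25 k42 4 (.d
  k51 k55 k38 1 6)))))))) (.c k38 (.l (.s k8 k4 1 (.s k9 k6 2 (.s k43 k23 5 (.s k11 k10 0 (.s k59
  k27 3 (.d k42 k21 k25 6 4))))))) (.c k42 (.q k48 [(.s k4 k8 1 (.s k32 k16 3 (.s k36 k24 5 (.s k20
  k52 3 (.d k40 k44 k60 1 5))))), (.s k16 k32 3 (.s k18 k33 4 (.s k29 k46 4 (.s k17 k19 0 (.s k25
  k21 1 (.d k51 k34 k38 4 6)))))), (.s k4 k8 1 (.s k6 k9 2 (.s k5 k7 0 (.s k53 k58 2 (.s k37 k21 3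
  (.d k15 k10 k26 2 6))))))] (.c k25 (.l (.s k8 k4 1 (.s k16 k32 3 (.s k24 k36 5 (.s k40 k56 3 (.d
  k20 k28 k60 1 5)))))) .n)) .n)))) (.c k2 (.q k12 [(.s k8 k4 1 (.s k42 k21 6 (.s k25 k59 4 (.s k38
  k51 6 (.d k46 k34 k29 1 4))))), (.s k4 k8 1 (.s k6 k9 2 (.s k23 k43 5 (.s k7 k5 0 (.s k55 k39 3
  (.d k21 k38 k42 4 6)))))), (.s k21 k42 6 (.s k6 k9 2 (.s k23 k43 5 (.s k29 k46 4 (.s k25 k17 1 (.s
  k38 k51 6 (.d k22 k20 k54 0 3)))))))] (.c k21 (.q k48 [(.s k4 k8 1 (.s k36 k24 5 (.s k20 k52 3 (.s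
  k40 k60 5 (.d k32 k44 k16 1 3))))), (.s k32 k16 3 (.s k33 k18 4 (.s k46 k29 4 (.s k34 k35 0 (.s
  k38 k42 1 (.d k51 k17 k25 4 6)))))), (.s k8 k4 1 (.s k9 k6 2 (.s k10 k11 0 (.s k58 k53 2 (.s k26
  k42 3 (.d k15 k5 k37 2 6))))))] .n) (.c k38 (.l (.s k42 k21 6 (.s k9 k6 2 (.s k43 k23 5 (.s k41
  k40 0 (.s k25 k57 3 (.d k8 k4 k59 1 4))))))) (.c k42 (.l (.s k4 k8 1 (.s k6 k9 2 (.s k23 k43 5 (.s
  k7 k5 0 (.s k55 k39 3 (.s k38 k21 4 (.d k51 k59 k25 1 6)))))))) .n)))) (.c k20 (.l (.s k2 k1 0 (.s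
  k42 k21 6 (.s k22 k62 5 (.s k41 k60 6 (.d k43 k23 k40 5 0)))))) (.c k21 (.q k12 [(.s k1 k2 0 (.s
  k9 k6 2 (.s k5 k13 1 (.s k10 k15 2 (.d k8 k11 k4 0 1))))), (.s k8 k4 1 (.s k9 k6 2 (.s k43 k23 5
  (.s k11 k10 0 (.s k59 k27 3 (.s k25 k42 4 (.d k51 k55 k38 1 6)))))))] (.c k2 (.q k48 [(.s k4 k8 1
  (.s k36 k24 5 (.s k20 k52 3 (.s k40 k60 5 (.d k32 k44 k16 1 3))))), (.s k32 k16 3 (.s k33 k18 4
  (.s k46 k29 4 (.s k34 k35 0 (.s k38 k42 1 (.d k51 k17 k25 4 6)))))), (.s k8 k4 1 (.s k9 k6 2 (.s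
  k10 k11 0 (.s k58 k53 2 (.s k26 k42 3 (.d k15 k5 k37 2 6))))))] .n) (.c k4 (.l (.s k2 k1 0 (.s k6
  k9 2 (.s k14 k10 1 (.s k46 k29 4 (.s k62 k30 3 (.s k22 k42 5 (.d k60 k61 k41 0 6)))))))) (.c k5
  (.q k48 [(.s k1 k2 0 (.s k33 k18 4 (.s k17 k49 3 (.s k34 k51 4 (.d k32 k35 k16 0 3))))), (.s k4 k8
  1 (.s k32 k16 3 (.s k36 k24 5 (.s k20 k52 3 (.d k40 k44 k60 1 5))))), (.s k2 k1 0 (.s k18 k33 4
  (.s k34 k50 3 (.s k46 k29 4 (.s k38 k42 1 (.d k51 k17 k25 4 6))))))] (.c k37 (.l (.s k53 k58 2 (.s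
  k1 k2 0 (.s k32 k16 3 (.s k33 k18 4 (.s k17 k49 3 (.d k34 k35 k51 0 4))))))) (.c k53 (.q k37 [(.s
  k32 k16 3 (.s k47 k42 2 (.d k15 k31 k26 3 6))), (.s k1 k2 0 (.s k33 k18 4 (.s k49 k17 3 (.s k25
  k13 5 (.d k51 k50 k38 0 6)))))] (.c k16 (.l (.s k18 k33 4 (.s k26 k15 6 (.s k22 k30 1 (.s k60 k41
  6 (.d k52 k56 k7 1 4)))))) .n)) .n))) (.c k6 (.q k48 [(.s k4 k8 1 (.s k32 k16 3 (.s k36 k24 5 (.s
  k20 k52 3 (.d k40 k44 k60 1 5))))), (.s k2 k1 0 (.s k18 k33 4 (.s k34 k50 3 (.s k46 k29 4 (.s k38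
  k42 1 (.d k51 k17 k25 4 6))))))] .n) (.c k8 (.q k48 [(.s k1 k2 0 (.s k33 k18 4 (.s k17 k49 3 (.s
  k34 k51 4 (.d k32 k35 k16 0 3))))), (.s k2 k1 0 (.s k6 k9 2 (.s k10 k14 1 (.s k58 k53 2 (.s k26
  k42 3 (.d k15 k5 k37 2 6)))))), (.s k32 k16 3 (.s k33 k18 4 (.s k46 k29 4 (.s k34 k35 0 (.s k38
  k42 1 (.d k51 k17 k25 4 6))))))] .n) (.c k9 (.q k48 [(.s k1 k2 0 (.s k33 k18 4 (.s k17 k49 3 (.s
  k34 k51 4 (.d k32 k35 k16 0 3))))), (.s k4 k8 1 (.s k32 k16 3 (.s k36 k24 5 (.s k20 k52 3 (.d k40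
  k44 k60 1 5))))), (.s k2 k1 0 (.s k18 k33 4 (.s k34 k50 3 (.s k46 k29 4 (.s k38 k42 1 (.d k51 k17
  k25 4 6))))))] .n) (.c k10 (.q k48 [(.s k2 k1 0 (.s k16 k32 3 (.s k18 k33 4 (.s k34 k50 3 (.d k17
  k19 k51 0 4))))), (.s k4 k8 1 (.s k32 k16 3 (.s k36 k24 5 (.s k20 k52 3 (.d k40 k44 k60 1 5))))),
  (.s k2 k1 0 (.s k18 k33 4 (.s k34 k50 3 (.s k46 k29 4 (.s k38 k42 1 (.d k51 k17 k25 4 6))))))] .n)
  (.c k11 (.l (.s k2 k1 0 (.s k4 k8 1 (.s k6 k9 2 (.s k10 k14 1 (.d k5 k7 k15 0 2)))))) (.c k14 (.l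
  (.s k1 k2 0 (.s k8 k4 1 (.s k9 k6 2 (.s k10 k11 0 (.d k5 k13 k15 1 2)))))) .n)))))))))) (.c k22
  (.q k12 [(.s k2 k1 0 (.s k4 k8 1 (.s k6 k9 2 (.s k10 k14 1 (.d k5 k7 k15 0 2))))), (.s k8 k4 1 (.s
  k42 k21 6 (.s k25 k59 4 (.s k38 k51 6 (.d k46 k34 k29 1 4))))), (.s k21 k42 6 (.s k9 k6 2 (.s k29
  k46 4 (.s k25 k17 1 (.s k41 k57 3 (.d k1 k2 k61 0 5))))))] .n) (.c k23 (.q k12 [(.s k1 k2 0 (.s k8
  k4 1 (.s k9 k6 2 (.s k5 k13 1 (.d k10 k11 k15 0 2))))), (.s k4 k8 1 (.s k21 k42 6 (.s k38 k55 4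
  (.s k25 k51 6 (.d k29 k17 k46 1 4))))), (.s k1 k2 0 (.s k21 k42 6 (.s k41 k61 5 (.s k9 k6 2 (.s
  k25 k57 3 (.d k29 k17 k46 1 4))))))] .n) (.c k41 (.q k12 [(.s k1 k2 0 (.s k8 k4 1 (.s k9 k6 2 (.s
  k5 k13 1 (.d k10 k11 k15 0 2))))), (.s k4 k8 1 (.s k21 k42 6 (.s k38 k55 4 (.s k25 k51 6 (.d k29
  k17 k46 1 4))))), (.s k42 k21 6 (.s k6 k9 2 (.s k46 k29 4 (.s k38 k34 1 (.s k22 k54 3 (.d k2 k1
  k62 0 5))))))] .n) (.c k42 (.q k12 [(.s k1 k2 0 (.s k8 k4 1 (.s k9 k6 2 (.s k5 k13 1 (.d k10 k11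
  k15 0 2))))), (.s k4 k8 1 (.s k6 k9 2 (.s k23 k43 5 (.s k7 k5 0 (.s k55 k39 3 (.s k38 k21 4 (.d
  k51 k59 k25 1 6))))))), (.s k1 k2 0 (.s k9 k6 2 (.s k13 k5 1 (.s k29 k46 4 (.s k61 k45 3 (.s k41
  k21 5 (.d k60 k62 k22 0 6)))))))] (.c k1 (.q k48 [(.s k4 k8 1 (.s k32 k16 3 (.s k36 k24 5 (.s k20
  k52 3 (.d k40 k44 k60 1 5))))), (.s k16 k32 3 (.s k18 k33 4 (.s k29 k46 4 (.s k17 k19 0 (.s k25
  k21 1 (.d k51 k34 k38 4 6)))))), (.s k4 k8 1 (.s k6 k9 2 (.s k5 k7 0 (.s k53 k58 2 (.s k37 k21 3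
  (.d k15 k10 k26 2 6))))))] (.c k25 (.l (.s k8 k4 1 (.s k16 k32 3 (.s k24 k36 5 (.s k40 k56 3 (.d
  k20 k28 k60 1 5)))))) .n)) (.c k4 (.q k48 [(.s k1 k2 0 (.s k32 k16 3 (.s k33 k18 4 (.s k17 k49 3
  (.d k34 k35 k51 0 4))))), (.s k1 k2 0 (.s k9 k6 2 (.s k5 k13 1 (.s k53 k58 2 (.s k37 k21 3 (.d k15
  k10 k26 2 6)))))), (.s k16 k32 3 (.s k18 k33 4 (.s k29 k46 4 (.s k17 k19 0 (.s k25 k21 1 (.d k51
  k34 k38 4 6))))))] .n) (.c k5 (.q k48 [(.s k1 k2 0 (.s k32 k16 3 (.s k33 k18 4 (.s k17 k49 3 (.d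
  k34 k35 k51 0 4))))), (.s k4 k8 1 (.s k32 k16 3 (.s k36 k24 5 (.s k20 k52 3 (.d k40 k44 k60 1
  5))))), (.s k1 k2 0 (.s k33 k18 4 (.s k17 k49 3 (.s k29 k46 4 (.s k25 k21 1 (.d k51 k34 k38 4
  6))))))] .n) (.c k6 (.q k48 [(.s k4 k8 1 (.s k32 k16 3 (.s k36 k24 5 (.s k20 k52 3 (.d k40 k44 k60
  1 5))))), (.s k1 k2 0 (.s k33 k18 4 (.s k17 k49 3 (.s k29 k46 4 (.s k25 k21 1 (.d k51 k34 k38 4
  6))))))] (.c k25 (.l (.s k1 k2 0 (.s k32 k16 3 (.s k33 k18 4 (.s k17 k49 3 (.d k34 k35 k51 0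
  4)))))) .n)) (.c k7 (.l (.s k1 k2 0 (.s k8 k4 1 (.s k9 k6 2 (.s k5 k13 1 (.d k10 k11 k15 0 2))))))
  (.c k9 (.q k48 [(.s k1 k2 0 (.s k32 k16 3 (.s k33 k18 4 (.s k17 k49 3 (.d k34 k35 k51 0 4))))),
  (.s k4 k8 1 (.s k32 k16 3 (.s k36 k24 5 (.s k20 k52 3 (.d k40 k44 k60 1 5))))), (.s k1 k2 0 (.s
  k33 k18 4 (.s k17 k49 3 (.s k29 k46 4 (.s k25 k21 1 (.d k51 k34 k38 4 6))))))] .n) (.c k10 (.q k48
  [(.s k2 k1 0 (.s k16 k32 3 (.s k18 k33 4 (.s k34 k50 3 (.d k17 k19 k51 0 4))))), (.s k4 k8 1 (.s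
  k32 k16 3 (.s k36 k24 5 (.s k20 k52 3 (.d k40 k44 k60 1 5))))), (.s k1 k2 0 (.s k33 k18 4 (.s k17
  k49 3 (.s k29 k46 4 (.s k25 k21 1 (.d k51 k34 k38 4 6))))))] (.c k26 (.l (.s k58 k53 2 (.s k1 k2 0
  (.s k32 k16 3 (.s k33 k18 4 (.s k17 k49 3 (.d k34 k35 k51 0 4))))))) (.c k58 (.q k26 [(.s k16 k32
  3 (.s k31 k21 2 (.d k15 k47 k37 3 6))), (.s k2 k1 0 (.s k18 k33 4 (.s k50 k34 3 (.s k38 k14 5 (.d
  k51 k49 k25 0 6)))))] (.c k32 (.l (.s k18 k33 4 (.s k23 k43 5 (.s k22 k30 1 (.s k20 k21 0 (.d k60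
  k40 k41 5 6)))))) .n)) .n))) (.c k13 (.l (.s k2 k1 0 (.s k4 k8 1 (.s k6 k9 2 (.s k5 k7 0 (.d k10
  k14 k15 1 2)))))) .n))))))))) (.c k43 (.q k12 [(.s k1 k2 0 (.s k8 k4 1 (.s k9 k6 2 (.s k5 k13 1
  (.d k10 k11 k15 0 2))))), (.s k4 k8 1 (.s k21 k42 6 (.s k38 k55 4 (.s k25 k51 6 (.d k29 k17 k46 1
  4))))), (.s k1 k2 0 (.s k21 k42 6 (.s k41 k61 5 (.s k9 k6 2 (.s k25 k57 3 (.d k29 k17 k46 1
  4))))))] .n) (.c k60 (.f k21 k42 6 (.q k12 [(.s k4 k8 1 (.s k38 k55 4 (.s k29 k46 4 (.d k25 k17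
  k51 1 6)))), (.s k1 k2 0 (.s k8 k4 1 (.s k9 k6 2 (.s k5 k13 1 (.d k10 k11 k15 0 2))))), (.s k1 k2
  0 (.s k41 k61 5 (.s k9 k6 2 (.s k25 k57 3 (.d k29 k17 k46 1 4)))))] (.c k125 (.q k190 [(.s k4 k8 1
  (.s k38 k55 4 (.s k29 k46 4 (.d k25 k17 k51 1 6)))), (.s k1 k2 0 (.s k8 k4 1 (.s k9 k6 2 (.s k5
  k13 1 (.d k10 k11 k15 0 2))))), (.s k1 k2 0 (.s k41 k61 5 (.s k9 k6 2 (.s k25 k57 3 (.d k29 k17
  k46 1 4)))))] (.c k124 (.q k126 [(.s k2 k1 0 (.s k254 k62 7 (.s k86 k170 13 (.d k252 k189 k169 8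
  14)))), (.s k4 k8 1 (.s k38 k55 4 (.s k25 k51 6 (.d k29 k17 k46 1 4))))] (.c k188 (.l (.s k252
  k189 8 (.s k2 k1 0 (.s k86 k169 14 (.d k254 k62 k170 7 13))))) (.c k252 (.q k188 [(.s k4 k8 1 (.s
  k38 k55 4 (.s k29 k46 4 (.d k25 k17 k51 1 6)))), (.s k1 k2 0 (.s k8 k4 1 (.s k9 k6 2 (.s k5 k13 1
  (.d k10 k11 k15 0 2))))), (.s k1 k2 0 (.s k41 k61 5 (.s k9 k6 2 (.s k25 k57 3 (.d k29 k17 k46 1
  4)))))] (.c k253 (.l (.s k254 k62 7 (.s k4 k8 1 (.s k38 k55 4 (.s k25 k51 6 (.d k29 k17 k46 1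
  4)))))) (.c k254 (.q k253 [(.s k4 k8 1 (.s k38 k55 4 (.s k29 k46 4 (.d k25 k17 k51 1 6)))), (.s k1
  k2 0 (.s k8 k4 1 (.s k9 k6 2 (.s k5 k13 1 (.d k10 k11 k15 0 2))))), (.s k1 k2 0 (.s k41 k61 5 (.s
  k9 k6 2 (.s k25 k57 3 (.d k29 k17 k46 1 4)))))] .n) .n))) .n))) (.c k126 (.q k124 [(.s k4 k8 1 (.s
  k38 k55 4 (.s k29 k46 4 (.d k25 k17 k51 1 6)))), (.s k1 k2 0 (.s k8 k4 1 (.s k9 k6 2 (.s k5 k13 1
  (.d k10 k11 k15 0 2))))), (.s k1 k2 0 (.s k41 k61 5 (.s k9 k6 2 (.s k25 k57 3 (.d k29 k17 k46 1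
  4)))))] .n) .n))) (.c k190 (.q k125 [(.s k4 k8 1 (.s k38 k55 4 (.s k29 k46 4 (.d k25 k17 k51 1
  6)))), (.s k1 k2 0 (.s k8 k4 1 (.s k9 k6 2 (.s k5 k13 1 (.d k10 k11 k15 0 2))))), (.s k1 k2 0 (.s
  k41 k61 5 (.s k9 k6 2 (.s k25 k57 3 (.d k29 k17 k46 1 4)))))] .n) .n)))) (.c k61 (.l (.s k2 k1 0
  (.s k43 k23 5 (.s k42 k21 6 (.s k41 k40 0 (.d k22 k62 k60 5 6)))))) (.c k62 (.l (.s k1 k2 0 (.s
  k23 k43 5 (.s k21 k42 6 (.s k22 k20 0 (.d k41 k61 k60 5 6)))))) .n)))))))))))))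

theorem c63 : rootOK2 k3 k255 k63 t63 = true := by decide +kernel

theorem c84 : rootOK2 k3 k255 k84 t84 = true := by decide +kernel

theorem c85 : rootOK2 k3 k255 k85 t85 = true := by decide +kernel

theorem c86 : rootOK2 k3 k255 k86 t86 = true := by decide +kernel

theorem c87 : rootOK2 k3 k255 k87 t87 = true := by decide +kernel

theorem c88 : rootOK2 k3 k255 k88 t88 = true := by decide +kernel

theorem c89 : rootOK2 k3 k255 k89 t89 = true := by decide +kernel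

theorem c90 : rootOK2 k3 k255 k90 t90 = true := by decide +kernel

theorem c91 : rootOK2 k3 k255 k91 t91 = true := by decide +kernel

theorem c92 : rootOK2 k3 k255 k92 t92 = true := by decide +kernel

theorem c93 : rootOK2 k3 k255 k93 t93 = true := by decide +kernel

theorem c94 : rootOK2 k3 k255 k94 t94 = true := by decide +kernel

theorem c95 : rootOK2 k3 k255 k95 t95 = true := by decide +kernel

theorem c108 : rootOK2 k3 k255 k108 t108 = true := by decide +kernel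

theorem c109 : rootOK2 k3 k255 k109 t109 = true := by decide +kernel

theorem c111 : rootOK2 k3 k255 k111 t111 = true := by decide +kernel

theorem c124 : rootOK2 k3 k255 k124 t124 = true := by decide +kernel

theorem c125 : rootOK2 k3 k255 k125 t125 = true := by decide +kernel

theorem c126 : rootOK2 k3 k255 k126 t126 = true := by decide +kernel

theorem c127 : rootOK2 k3 k255 k127 t127 = true := by decide +kernel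

def l : List Nat :=
  [k63.c, k84.c, k85.c, k86.c, k87.c, k88.c, k89.c, k90.c, k91.c, k92.c, k93.c, k94.c, k95.c,
  k108.c, k109.c, k111.c, k124.c, k125.c, k126.c, k127.c]

theorem ok : AllQ k3.c k255.c l :=
  allQ_cons c63 (allQ_cons c84 (allQ_cons c85 (allQ_cons c86 (allQ_cons c87 (allQ_cons c88 (
  allQ_cons c89 (allQ_cons c90 (allQ_cons c91 (allQ_cons c92 (allQ_cons c93 (allQ_cons c94 (
  allQ_cons c95 (allQ_cons c108 (allQ_cons c109 (allQ_cons c111 (allQ_cons c124 (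
  allQ_cons c125 (allQ_cons c126 (allQ_cons c127 (allQ_nil _ _))))))))))))))))))))

end Pool.Agent.TTT.F03
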