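import Pool.Agent.TTT.Sym2

set_option autoImplicit false
set_option maxRecDepth 100000

namespace Pool.Agent.TTT.F04

def t252_1 : T TT 256 :=
  (.f k9 k6 2 (.q k204 [(.s k137 k70 10 (.s k73 k201 7 (.s k140 k76 7 (.d k134 k131 k195 2 10)))),
  (.s k4 k8 1 (.s k68 k136 9 (.s k132 k196 7 (.s k72 k192 9 (.d k76 k64 k140 1 7))))), (.s k8 k4 1
  (.s k136 k68 9 (.s k137 k70 10 (.s k11 k10 0 (.d k200 k72 k74 7 8)))))] (.c k253 (.q k254 [(.s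
  k137 k70 10 (.s k73 k201 7 (.s k140 k76 7 (.d k134 k131 k195 2 10)))), (.s k4 k8 1 (.s k68 k136 9
  (.s k132 k196 7 (.s k72 k192 9 (.d k76 k64 k140 1 7))))), (.s k8 k4 1 (.s k136 k68 9 (.s k137 k70
  10 (.s k11 k10 0 (.d k200 k72 k74 7 8)))))] (.c k85 (.q k169 [(.s k137 k70 10 (.s k73 k201 7 (.s
  k140 k76 7 (.d k134 k131 k195 2 10)))), (.s k4 k8 1 (.s k68 k136 9 (.s k132 k196 7 (.s k72 k192 9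
  (.d k76 k64 k140 1 7))))), (.s k8 k4 1 (.s k136 k68 9 (.s k137 k70 10 (.s k11 k10 0 (.d k200 k72
  k74 7 8)))))] .n) (.c k169 (.q k85 [(.s k137 k70 10 (.s k73 k201 7 (.s k140 k76 7 (.d k134 k131
  k195 2 10)))), (.s k4 k8 1 (.s k68 k136 9 (.s k132 k196 7 (.s k72 k192 9 (.d k76 k64 k140 1
  7))))), (.s k8 k4 1 (.s k136 k68 9 (.s k137 k70 10 (.s k11 k10 0 (.d k200 k72 k74 7 8)))))] .n)
  .n))) (.c k254 (.q k253 [(.s k137 k70 10 (.s k73 k201 7 (.s k140 k76 7 (.d k134 k131 k195 2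
  10)))), (.s k4 k8 1 (.s k68 k136 9 (.s k132 k196 7 (.s k72 k192 9 (.d k76 k64 k140 1 7))))), (.s
  k8 k4 1 (.s k136 k68 9 (.s k137 k70 10 (.s k11 k10 0 (.d k200 k72 k74 7 8)))))] .n) .n))))

def t252_2 : T TT 256 :=
  (.q k60 [(.s k4 k8 1 (.s k20 k40 5 (.s k36 k52 3 (.s k28 k44 3 (.d k24 k16 k48 1 5))))), (.s k6 k9
  2 (.s k22 k41 6 (.s k38 k54 3 (.s k25 k51 6 (.d k28 k19 k44 2 3))))), (.s k4 k8 1 (.s k20 k40 5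
  (.s k6 k9 2 (.s k22 k41 6 (.s k7 k5 0 (.d k52 k36 k37 3 4))))))] (.c k253 (.q k254 [(.s k4 k8 1
  (.s k20 k40 5 (.s k36 k52 3 (.s k28 k44 3 (.d k24 k16 k48 1 5))))), (.s k6 k9 2 (.s k22 k41 6 (.s
  k38 k54 3 (.s k25 k51 6 (.d k28 k19 k44 2 3))))), (.s k4 k8 1 (.s k20 k40 5 (.s k6 k9 2 (.s k22
  k41 6 (.s k7 k5 0 (.d k52 k36 k37 3 4))))))] .n) (.c k254 (.q k253 [(.s k4 k8 1 (.s k20 k40 5 (.s
  k36 k52 3 (.s k28 k44 3 (.d k24 k16 k48 1 5))))), (.s k6 k9 2 (.s k22 k41 6 (.s k38 k54 3 (.s k25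
  k51 6 (.d k28 k19 k44 2 3))))), (.s k4 k8 1 (.s k20 k40 5 (.s k6 k9 2 (.s k22 k41 6 (.s k7 k5 0
  (.d k52 k36 k37 3 4))))))] (.c k86 (.q k170 [(.s k4 k8 1 (.s k20 k40 5 (.s k36 k52 3 (.s k28 k44 3
  (.d k24 k16 k48 1 5))))), (.s k6 k9 2 (.s k22 k41 6 (.s k38 k54 3 (.s k25 k51 6 (.d k28 k19 k44 2
  3))))), (.s k4 k8 1 (.s k20 k40 5 (.s k6 k9 2 (.s k22 k41 6 (.s k7 k5 0 (.d k52 k36 k37 3 4))))))]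
  .n) (.c k170 (.q k86 [(.s k8 k4 1 (.s k44 k28 3 (.s k40 k20 5 (.s k36 k32 1 (.d k24 k56 k48 3
  5))))), (.s k6 k9 2 (.s k22 k41 6 (.s k38 k54 3 (.s k25 k51 6 (.d k28 k19 k44 2 3))))), (.s k4 k8
  1 (.s k20 k40 5 (.s k6 k9 2 (.s k22 k41 6 (.s k7 k5 0 (.d k52 k36 k37 3 4))))))] .n) .n))) .n)))

def t252_4 : T TT 256 :=
  (.q k22 [(.s k1 k2 0 (.s k41 k60 6 (.s k21 k61 5 (.s k63 k42 6 (.d k23 k20 k43 0 5))))), (.s k2 k1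
  0 (.s k42 k62 5 (.s k6 k9 2 (.s k38 k54 3 (.s k34 k46 1 (.d k51 k17 k25 4 6)))))), (.s k6 k9 2 (.s
  k41 k60 6 (.s k38 k54 3 (.s k51 k25 6 (.d k35 k44 k19 2 3)))))] (.c k253 (.q k254 [(.s k6 k9 2 (.s
  k41 k60 6 (.s k38 k54 3 (.s k51 k25 6 (.d k35 k44 k19 2 3))))), (.s k2 k1 0 (.s k42 k62 5 (.s k21
  k63 6 (.s k60 k41 6 (.d k20 k23 k40 0 5))))), (.s k2 k1 0 (.s k42 k62 5 (.s k6 k9 2 (.s k38 k54 3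
  (.s k34 k46 1 (.d k51 k17 k25 4 6))))))] .n) (.c k254 (.q k253 [(.s k2 k1 0 (.s k60 k41 6 (.s k20
  k40 5 (.s k21 k23 0 (.d k42 k62 k63 5 6))))), (.s k6 k9 2 (.s k41 k60 6 (.s k38 k54 3 (.s k51 k25
  6 (.d k35 k44 k19 2 3))))), (.s k2 k1 0 (.s k42 k62 5 (.s k6 k9 2 (.s k38 k54 3 (.s k34 k46 1 (.d
  k51 k17 k25 4 6))))))] .n) .n)))

def t252_5 : T TT 256 :=
  (.q k22 [(.s k1 k2 0 (.s k41 k60 6 (.s k21 k61 5 (.s k63 k42 6 (.d k23 k20 k43 0 5))))), (.s k2 k1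
  0 (.s k8 k4 1 (.s k42 k62 5 (.s k25 k59 4 (.s k38 k51 6 (.d k6 k9 k54 2 3)))))), (.s k9 k6 2 (.s
  k41 k60 6 (.s k25 k57 3 (.s k51 k38 6 (.d k19 k28 k35 2 3)))))] (.c k253 (.q k254 [(.s k1 k2 0 (.s
  k41 k60 6 (.s k21 k61 5 (.s k63 k42 6 (.d k23 k20 k43 0 5))))), (.s k2 k1 0 (.s k8 k4 1 (.s k42
  k62 5 (.s k25 k59 4 (.s k38 k51 6 (.d k6 k9 k54 2 3)))))), (.s k9 k6 2 (.s k41 k60 6 (.s k25 k57 3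
  (.s k51 k38 6 (.d k19 k28 k35 2 3)))))] .n) (.c k254 (.q k253 [(.s k2 k1 0 (.s k60 k41 6 (.s k20
  k40 5 (.s k21 k23 0 (.d k42 k62 k63 5 6))))), (.s k9 k6 2 (.s k41 k60 6 (.s k25 k57 3 (.s k51 k38
  6 (.d k19 k28 k35 2 3))))), (.s k2 k1 0 (.s k8 k4 1 (.s k42 k62 5 (.s k25 k59 4 (.s k38 k51 6 (.d
  k6 k9 k54 2 3))))))] (.c k9 (.l (.s k1 k2 0 (.s k41 k60 6 (.s k21 k61 5 (.s k63 k42 6 (.d k23 k20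
  k43 0 5)))))) .n)) .n)))

def t252_6 : T TT 256 :=
  (.q k204 [(.s k2 k1 0 (.s k68 k136 9 (.s k70 k137 10 (.s k138 k206 9 (.d k69 k71 k207 0 10))))),
  (.s k4 k8 1 (.s k68 k136 9 (.s k132 k196 7 (.s k72 k192 9 (.d k76 k64 k140 1 7))))), (.s k1 k2 0
  (.s k4 k8 1 (.s k137 k70 10 (.s k69 k205 9 (.s k134 k199 8 (.d k140 k131 k76 2 7))))))] (.c k253
  (.q k254 [(.s k2 k1 0 (.s k68 k136 9 (.s k70 k137 10 (.s k138 k206 9 (.d k69 k71 k207 0 10))))),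
  (.s k4 k8 1 (.s k68 k136 9 (.s k132 k196 7 (.s k72 k192 9 (.d k76 k64 k140 1 7))))), (.s k1 k2 0
  (.s k4 k8 1 (.s k137 k70 10 (.s k69 k205 9 (.s k134 k199 8 (.d k140 k131 k76 2 7))))))] .n) (.c
  k254 (.q k253 [(.s k2 k1 0 (.s k68 k136 9 (.s k70 k137 10 (.s k69 k71 0 (.d k138 k206 k207 9
  10))))), (.s k4 k8 1 (.s k68 k136 9 (.s k132 k196 7 (.s k72 k192 9 (.d k76 k64 k140 1 7))))), (.s
  k1 k2 0 (.s k4 k8 1 (.s k137 k70 10 (.s k69 k205 9 (.s k134 k199 8 (.d k140 k131 k76 2 7))))))]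
  .n) .n)))

def t252_7 : T TT 256 :=
  (.l (.s k1 k2 0 (.s k8 k4 1 (.s k9 k6 2 (.s k5 k13 1 (.d k10 k11 k15 0 2))))))

def t252_8 : T TT 256 :=
  (.q k70 [(.s k2 k1 0 (.s k138 k206 9 (.s k207 k69 10 (.s k137 k204 10 (.d k139 k136 k71 0 9))))),
  (.s k2 k1 0 (.s k138 k206 9 (.s k6 k9 2 (.s k134 k198 7 (.s k130 k142 1 (.d k195 k65 k73 8
  10)))))), (.s k6 k9 2 (.s k137 k204 10 (.s k134 k198 7 (.s k131 k140 2 (.d k195 k67 k73 7 10)))))]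
  (.c k253 (.q k254 [(.s k1 k2 0 (.s k137 k204 10 (.s k69 k205 9 (.s k71 k68 0 (.d k207 k139 k138 9
  10))))), (.s k2 k1 0 (.s k138 k206 9 (.s k6 k9 2 (.s k134 k198 7 (.s k130 k142 1 (.d k195 k65 k73
  8 10)))))), (.s k6 k9 2 (.s k137 k204 10 (.s k134 k198 7 (.s k131 k140 2 (.d k195 k67 k73 7
  10)))))] .n) (.c k254 (.q k253 [(.s k2 k1 0 (.s k204 k137 10 (.s k68 k136 9 (.s k69 k71 0 (.d k138
  k206 k207 9 10))))), (.s k6 k9 2 (.s k137 k204 10 (.s k134 k198 7 (.s k131 k140 2 (.d k195 k67 k73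
  7 10))))), (.s k2 k1 0 (.s k138 k206 9 (.s k6 k9 2 (.s k134 k198 7 (.s k130 k142 1 (.d k195 k65
  k73 8 10))))))] .n) .n)))

def t252_9 : T TT 256 :=
  (.q k204 [(.s k1 k2 0 (.s k136 k68 9 (.s k137 k70 10 (.s k69 k205 9 (.d k138 k139 k207 0 10))))),
  (.s k4 k8 1 (.s k68 k136 9 (.s k132 k196 7 (.s k72 k192 9 (.d k76 k64 k140 1 7))))), (.s k1 k2 0
  (.s k4 k8 1 (.s k137 k70 10 (.s k69 k205 9 (.s k134 k199 8 (.d k140 k131 k76 2 7))))))] (.c k253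
  (.q k254 [(.s k1 k2 0 (.s k136 k68 9 (.s k137 k70 10 (.s k138 k139 0 (.d k69 k205 k207 9 10))))),
  (.s k4 k8 1 (.s k68 k136 9 (.s k132 k196 7 (.s k72 k192 9 (.d k76 k64 k140 1 7))))), (.s k1 k2 0
  (.s k4 k8 1 (.s k137 k70 10 (.s k69 k205 9 (.s k134 k199 8 (.d k140 k131 k76 2 7))))))] .n) (.c
  k254 (.q k253 [(.s k1 k2 0 (.s k136 k68 9 (.s k137 k70 10 (.s k69 k205 9 (.d k138 k139 k207 0
  10))))), (.s k4 k8 1 (.s k68 k136 9 (.s k132 k196 7 (.s k72 k192 9 (.d k76 k64 k140 1 7))))), (.s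
  k1 k2 0 (.s k4 k8 1 (.s k137 k70 10 (.s k69 k205 9 (.s k134 k199 8 (.d k140 k131 k76 2 7))))))]
  .n) .n)))

def t252_10 : T TT 256 :=
  (.q k70 [(.s k2 k1 0 (.s k138 k206 9 (.s k69 k207 10 (.s k204 k137 10 (.d k68 k71 k136 0 9))))),
  (.s k6 k9 2 (.s k137 k204 10 (.s k134 k198 7 (.s k195 k73 10 (.d k131 k140 k67 2 7))))), (.s k2 k1
  0 (.s k8 k4 1 (.s k138 k206 9 (.s k6 k9 2 (.s k134 k198 7 (.d k73 k203 k195 8 10))))))] (.c k253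
  (.q k254 [(.s k6 k9 2 (.s k137 k204 10 (.s k134 k198 7 (.s k195 k73 10 (.d k131 k140 k67 2 7))))),
  (.s k2 k1 0 (.s k138 k206 9 (.s k69 k207 10 (.s k204 k137 10 (.d k68 k71 k136 0 9))))), (.s k2 k1
  0 (.s k8 k4 1 (.s k138 k206 9 (.s k6 k9 2 (.s k134 k198 7 (.d k73 k203 k195 8 10))))))] .n) (.c
  k254 (.q k253 [(.s k2 k1 0 (.s k204 k137 10 (.s k68 k136 9 (.s k69 k71 0 (.d k138 k206 k207 9
  10))))), (.s k6 k9 2 (.s k137 k204 10 (.s k134 k198 7 (.s k195 k73 10 (.d k131 k140 k67 2 7))))),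
  (.s k2 k1 0 (.s k8 k4 1 (.s k138 k206 9 (.s k6 k9 2 (.s k134 k198 7 (.d k73 k203 k195 8 10))))))]
  .n) .n)))

def t252_11 : T TT 256 :=
  (.l (.s k2 k1 0 (.s k4 k8 1 (.s k6 k9 2 (.s k10 k14 1 (.d k5 k7 k15 0 2))))))

def t252_13 : T TT 256 :=
  (.l (.s k2 k1 0 (.s k4 k8 1 (.s k6 k9 2 (.s k5 k7 0 (.d k10 k14 k15 1 2))))))

def t252_14 : T TT 256 :=
  (.l (.s k1 k2 0 (.s k8 k4 1 (.s k9 k6 2 (.s k10 k11 0 (.d k5 k13 k15 1 2))))))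

def t252_15 : T TT 256 :=
  (.f k4 k8 1 (.q k17 [(.s k1 k2 0 (.s k34 k51 4 (.s k33 k49 3 (.s k48 k18 4 (.d k32 k35 k16 0
  3))))), (.s k51 k34 4 (.s k6 k9 2 (.s k35 k19 3 (.s k38 k25 6 (.s k22 k54 3 (.d k41 k44 k60 2
  6)))))), (.s k1 k2 0 (.s k49 k33 3 (.s k9 k6 2 (.s k13 k5 1 (.s k25 k37 5 (.s k41 k57 3 (.d k21
  k29 k61 1 5)))))))] (.c k94 (.q k173 [(.s k1 k2 0 (.s k34 k51 4 (.s k33 k49 3 (.s k48 k18 4 (.d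
  k32 k35 k16 0 3))))), (.s k51 k34 4 (.s k6 k9 2 (.s k35 k19 3 (.s k38 k25 6 (.s k22 k54 3 (.d k41
  k44 k60 2 6)))))), (.s k1 k2 0 (.s k49 k33 3 (.s k9 k6 2 (.s k13 k5 1 (.s k25 k37 5 (.s k41 k57 3
  (.d k21 k29 k61 1 5)))))))] (.c k95 (.q k175 [(.s k1 k2 0 (.s k34 k51 4 (.s k33 k49 3 (.s k48 k18
  4 (.d k32 k35 k16 0 3))))), (.s k51 k34 4 (.s k6 k9 2 (.s k35 k19 3 (.s k38 k25 6 (.s k22 k54 3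
  (.d k41 k44 k60 2 6)))))), (.s k1 k2 0 (.s k49 k33 3 (.s k9 k6 2 (.s k13 k5 1 (.s k25 k37 5 (.s
  k41 k57 3 (.d k21 k29 k61 1 5)))))))] (.c k92 (.q k93 [(.s k1 k2 0 (.s k9 k6 2 (.d k13 k253 k5 11
  1))), (.s k1 k2 0 (.s k34 k51 4 (.s k33 k49 3 (.s k48 k18 4 (.d k32 k35 k16 0 3))))), (.s k51 k34
  4 (.s k6 k9 2 (.s k35 k19 3 (.s k38 k25 6 (.s k22 k54 3 (.d k41 k44 k60 2 6))))))] (.c k253 (.q
  k254 [(.s k1 k2 0 (.s k51 k34 4 (.s k19 k35 3 (.s k18 k16 0 (.d k33 k49 k48 3 4))))), (.s k2 k1 0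
  (.s k86 k170 13 (.s k6 k9 2 (.s k166 k246 11 (.s k85 k247 12 (.d k89 k243 k81 14 1)))))), (.s k51
  k34 4 (.s k6 k9 2 (.s k35 k19 3 (.s k38 k25 6 (.s k22 k54 3 (.d k41 k44 k60 2 6))))))] .n) (.c
  k254 (.l (.s k253 k13 11 (.s k1 k2 0 (.s k85 k169 13 (.s k166 k247 12 (.d k89 k243 k81 14 1))))))
  .n))) (.c k93 (.q k92 [(.s k1 k2 0 (.s k34 k51 4 (.s k33 k49 3 (.s k48 k18 4 (.d k32 k35 k16 0
  3))))), (.s k51 k34 4 (.s k6 k9 2 (.s k35 k19 3 (.s k38 k25 6 (.s k22 k54 3 (.d k41 k44 k60 2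
  6)))))), (.s k1 k2 0 (.s k49 k33 3 (.s k9 k6 2 (.s k13 k5 1 (.s k25 k37 5 (.s k41 k57 3 (.d k21
  k29 k61 1 5)))))))] (.c k253 (.q k254 [(.s k1 k2 0 (.s k51 k34 4 (.s k19 k35 3 (.s k18 k16 0 (.d
  k33 k49 k48 3 4))))), (.s k2 k1 0 (.s k86 k170 13 (.s k6 k9 2 (.s k166 k246 11 (.d k89 k243 k83 14
  2))))), (.s k51 k34 4 (.s k6 k9 2 (.s k35 k19 3 (.s k38 k25 6 (.s k22 k54 3 (.d k41 k44 k60 2
  6))))))] .n) (.c k254 (.q k253 [(.s k51 k34 4 (.s k6 k9 2 (.s k35 k19 3 (.s k38 k25 6 (.s k22 k54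
  3 (.d k41 k44 k60 2 6)))))), (.s k1 k2 0 (.s k49 k33 3 (.s k85 k169 13 (.s k153 k221 9 (.s k101
  k205 13 (.d k117 k69 k185 3 9))))))] (.c k14 (.l (.s k174 k172 0 (.s k1 k2 0 (.s k34 k51 4 (.s k33
  k49 3 (.s k48 k18 4 (.d k32 k35 k16 0 3))))))) (.c k174 (.q k14 [(.s k2 k1 0 (.d k6 k10 k9 1 2)),
  (.s k1 k2 0 (.s k34 k51 4 (.s k33 k49 3 (.s k48 k18 4 (.d k32 k35 k16 0 3))))), (.s k51 k34 4 (.s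
  k6 k9 2 (.s k35 k19 3 (.s k38 k25 6 (.s k22 k54 3 (.d k41 k44 k60 2 6))))))] .n) .n))) .n))) (.c
  k253 (.q k254 [(.s k1 k2 0 (.s k51 k34 4 (.s k19 k35 3 (.s k18 k16 0 (.d k33 k49 k48 3 4))))), (.s
  k2 k1 0 (.s k170 k86 13 (.s k160 k165 2 (.s k240 k80 11 (.s k164 k88 13 (.d k172 k168 k174 1
  0)))))), (.s k51 k34 4 (.s k6 k9 2 (.s k35 k19 3 (.s k38 k25 6 (.s k22 k54 3 (.d k41 k44 k60 2
  6))))))] (.c k92 (.q k93 [(.s k1 k2 0 (.s k51 k34 4 (.s k19 k35 3 (.s k18 k16 0 (.d k33 k49 k48 3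
  4))))), (.s k2 k1 0 (.s k86 k170 13 (.s k6 k9 2 (.s k166 k246 11 (.s k85 k247 12 (.d k89 k243 k81
  14 1)))))), (.s k51 k34 4 (.s k6 k9 2 (.s k35 k19 3 (.s k38 k25 6 (.s k22 k54 3 (.d k41 k44 k60 2
  6))))))] .n) (.c k93 (.q k92 [(.s k1 k2 0 (.s k51 k34 4 (.s k19 k35 3 (.s k18 k16 0 (.d k33 k49
  k48 3 4))))), (.s k2 k1 0 (.s k86 k170 13 (.s k6 k9 2 (.s k166 k246 11 (.d k89 k243 k83 14 2))))),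
  (.s k51 k34 4 (.s k6 k9 2 (.s k35 k19 3 (.s k38 k25 6 (.s k22 k54 3 (.d k41 k44 k60 2 6))))))] .n)
  .n))) (.c k254 (.q k253 [(.s k1 k2 0 (.s k9 k6 2 (.d k13 k93 k5 11 1))), (.s k2 k1 0 (.s k34 k51 4
  (.s k18 k50 3 (.s k48 k33 4 (.d k16 k19 k32 0 3))))), (.s k51 k34 4 (.s k6 k9 2 (.s k35 k19 3 (.s
  k38 k25 6 (.s k22 k54 3 (.d k41 k44 k60 2 6))))))] (.c k14 (.l (.s k174 k172 0 (.s k1 k2 0 (.s k34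
  k51 4 (.s k33 k49 3 (.s k48 k18 4 (.d k32 k35 k16 0 3))))))) (.c k92 (.l (.s k93 k13 11 (.s k1 k2
  0 (.s k85 k169 13 (.s k166 k247 12 (.d k89 k243 k81 14 1)))))) (.c k93 (.q k92 [(.s k51 k34 4 (.s
  k6 k9 2 (.s k35 k19 3 (.s k38 k25 6 (.s k22 k54 3 (.d k41 k44 k60 2 6)))))), (.s k1 k2 0 (.s k49
  k33 3 (.s k85 k169 13 (.s k153 k221 9 (.s k101 k205 13 (.d k117 k69 k185 3 9))))))] (.c k14 (.l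
  (.s k174 k172 0 (.s k1 k2 0 (.s k34 k51 4 (.s k33 k49 3 (.s k48 k18 4 (.d k32 k35 k16 0 3)))))))
  (.c k174 (.q k14 [(.s k2 k1 0 (.d k6 k10 k9 1 2)), (.s k1 k2 0 (.s k34 k51 4 (.s k33 k49 3 (.s k48
  k18 4 (.d k32 k35 k16 0 3))))), (.s k51 k34 4 (.s k6 k9 2 (.s k35 k19 3 (.s k38 k25 6 (.s k22 k54
  3 (.d k41 k44 k60 2 6))))))] .n) .n))) (.c k174 (.q k14 [(.s k2 k1 0 (.d k6 k10 k9 1 2)), (.s k1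
  k2 0 (.s k34 k51 4 (.s k33 k49 3 (.s k48 k18 4 (.d k32 k35 k16 0 3))))), (.s k51 k34 4 (.s k6 k9 2
  (.s k35 k19 3 (.s k38 k25 6 (.s k22 k54 3 (.d k41 k44 k60 2 6))))))] (.c k92 (.l (.s k93 k13 11
  (.s k2 k1 0 (.d k6 k9 k10 2 1)))) (.c k93 (.q k92 [(.s k2 k1 0 (.d k6 k10 k9 1 2)), (.s k1 k2 0
  (.s k34 k51 4 (.s k33 k49 3 (.s k48 k18 4 (.d k32 k35 k16 0 3))))), (.s k51 k34 4 (.s k6 k9 2 (.s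
  k35 k19 3 (.s k38 k25 6 (.s k22 k54 3 (.d k41 k44 k60 2 6))))))] .n) .n))) .n))))) .n))))) (.c
  k175 (.q k95 [(.s k1 k2 0 (.s k34 k51 4 (.s k33 k49 3 (.s k48 k18 4 (.d k32 k35 k16 0 3))))), (.s
  k51 k34 4 (.s k6 k9 2 (.s k35 k19 3 (.s k38 k25 6 (.s k22 k54 3 (.d k41 k44 k60 2 6)))))), (.s k1
  k2 0 (.s k49 k33 3 (.s k9 k6 2 (.s k13 k5 1 (.s k25 k37 5 (.s k41 k57 3 (.d k21 k29 k61 1
  5)))))))] (.c k253 (.q k254 [(.s k1 k2 0 (.s k51 k34 4 (.s k19 k35 3 (.s k18 k16 0 (.d k33 k49 k48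
  3 4))))), (.s k51 k34 4 (.s k6 k9 2 (.s k35 k19 3 (.s k38 k25 6 (.s k22 k54 3 (.d k41 k44 k60 2
  6)))))), (.s k1 k2 0 (.s k49 k33 3 (.s k9 k6 2 (.s k13 k5 1 (.s k25 k37 5 (.s k41 k57 3 (.d k21
  k29 k61 1 5)))))))] .n) (.c k254 (.q k253 [(.s k9 k6 2 (.s k13 k93 11 (.d k1 k2 k5 0 1))), (.s k51
  k34 4 (.s k6 k9 2 (.s k35 k19 3 (.s k38 k25 6 (.s k22 k54 3 (.d k41 k44 k60 2 6)))))), (.s k1 k2 0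
  (.s k34 k51 4 (.s k33 k49 3 (.s k48 k18 4 (.d k32 k35 k16 0 3)))))] (.c k14 (.q k174 [(.s k9 k6 2
  (.s k13 k93 11 (.d k1 k2 k5 0 1))), (.s k2 k1 0 (.s k34 k51 4 (.s k18 k50 3 (.s k48 k33 4 (.d k16
  k19 k32 0 3))))), (.s k51 k34 4 (.s k6 k9 2 (.s k35 k19 3 (.s k38 k25 6 (.s k22 k54 3 (.d k41 k44
  k60 2 6))))))] .n) (.c k174 (.q k14 [(.s k2 k1 0 (.d k6 k10 k9 1 2)), (.s k1 k2 0 (.s k85 k169 13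
  (.s k166 k247 12 (.d k90 k80 k242 2 13)))), (.s k51 k34 4 (.s k6 k9 2 (.s k35 k19 3 (.s k38 k25 6
  (.s k22 k54 3 (.d k41 k44 k60 2 6))))))] .n) .n))) .n))) (.c k253 (.q k254 [(.s k1 k2 0 (.s k51
  k34 4 (.s k19 k35 3 (.s k18 k16 0 (.d k33 k49 k48 3 4))))), (.s k51 k34 4 (.s k6 k9 2 (.s k35 k19
  3 (.s k38 k25 6 (.s k22 k54 3 (.d k41 k44 k60 2 6)))))), (.s k1 k2 0 (.s k49 k33 3 (.s k9 k6 2 (.s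
  k13 k5 1 (.s k25 k37 5 (.s k41 k57 3 (.d k21 k29 k61 1 5)))))))] (.c k95 (.q k175 [(.s k1 k2 0 (.s
  k51 k34 4 (.s k19 k35 3 (.s k18 k16 0 (.d k33 k49 k48 3 4))))), (.s k2 k1 0 (.s k170 k86 13 (.s
  k160 k165 2 (.s k240 k80 11 (.s k164 k88 13 (.d k172 k168 k174 1 0)))))), (.s k51 k34 4 (.s k6 k9
  2 (.s k35 k19 3 (.s k38 k25 6 (.s k22 k54 3 (.d k41 k44 k60 2 6))))))] (.c k92 (.q k93 [(.s k1 k2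
  0 (.s k51 k34 4 (.s k19 k35 3 (.s k18 k16 0 (.d k33 k49 k48 3 4))))), (.s k2 k1 0 (.s k86 k170 13
  (.s k6 k9 2 (.s k166 k246 11 (.s k85 k247 12 (.d k89 k243 k81 14 1)))))), (.s k51 k34 4 (.s k6 k9
  2 (.s k35 k19 3 (.s k38 k25 6 (.s k22 k54 3 (.d k41 k44 k60 2 6))))))] .n) (.c k93 (.q k92 [(.s k1
  k2 0 (.s k51 k34 4 (.s k19 k35 3 (.s k18 k16 0 (.d k33 k49 k48 3 4))))), (.s k2 k1 0 (.s k86 k170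
  13 (.s k6 k9 2 (.s k166 k246 11 (.d k89 k243 k83 14 2))))), (.s k51 k34 4 (.s k6 k9 2 (.s k35 k19
  3 (.s k38 k25 6 (.s k22 k54 3 (.d k41 k44 k60 2 6))))))] .n) .n))) (.c k175 (.q k95 [(.s k1 k2 0
  (.s k51 k34 4 (.s k19 k35 3 (.s k18 k16 0 (.d k33 k49 k48 3 4))))), (.s k51 k34 4 (.s k6 k9 2 (.s
  k35 k19 3 (.s k38 k25 6 (.s k22 k54 3 (.d k41 k44 k60 2 6)))))), (.s k1 k2 0 (.s k49 k33 3 (.s k9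
  k6 2 (.s k13 k5 1 (.s k25 k37 5 (.s k41 k57 3 (.d k21 k29 k61 1 5)))))))] .n) .n))) (.c k254 (.q
  k253 [(.s k9 k6 2 (.s k13 k93 11 (.d k1 k2 k5 0 1))), (.s k51 k34 4 (.s k6 k9 2 (.s k35 k19 3 (.s
  k38 k25 6 (.s k22 k54 3 (.d k41 k44 k60 2 6)))))), (.s k1 k2 0 (.s k34 k51 4 (.s k33 k49 3 (.s k48
  k18 4 (.d k32 k35 k16 0 3)))))] (.c k14 (.q k174 [(.s k9 k6 2 (.s k13 k93 11 (.d k1 k2 k5 0 1))),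
  (.s k2 k1 0 (.s k34 k51 4 (.s k18 k50 3 (.s k48 k33 4 (.d k16 k19 k32 0 3))))), (.s k51 k34 4 (.s
  k6 k9 2 (.s k35 k19 3 (.s k38 k25 6 (.s k22 k54 3 (.d k41 k44 k60 2 6))))))] (.c k95 (.l (.s k175
  k172 0 (.s k1 k2 0 (.s k34 k51 4 (.s k33 k49 3 (.s k48 k18 4 (.d k32 k35 k16 0 3))))))) (.c k175
  (.q k95 [(.s k9 k6 2 (.s k13 k93 11 (.d k1 k2 k5 0 1))), (.s k2 k1 0 (.s k34 k51 4 (.s k18 k50 3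
  (.s k48 k33 4 (.d k16 k19 k32 0 3))))), (.s k51 k34 4 (.s k6 k9 2 (.s k35 k19 3 (.s k38 k25 6 (.s
  k22 k54 3 (.d k41 k44 k60 2 6))))))] .n) .n))) (.c k95 (.q k175 [(.s k1 k2 0 (.s k9 k6 2 (.d k13
  k93 k5 11 1))), (.s k2 k1 0 (.s k34 k51 4 (.s k18 k50 3 (.s k48 k33 4 (.d k16 k19 k32 0 3))))),
  (.s k51 k34 4 (.s k6 k9 2 (.s k35 k19 3 (.s k38 k25 6 (.s k22 k54 3 (.d k41 k44 k60 2 6))))))] (.c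
  k14 (.l (.s k174 k172 0 (.s k1 k2 0 (.s k34 k51 4 (.s k33 k49 3 (.s k48 k18 4 (.d k32 k35 k16 0
  3))))))) (.c k92 (.l (.s k93 k13 11 (.s k1 k2 0 (.s k85 k169 13 (.s k166 k247 12 (.d k89 k243 k81
  14 1)))))) (.c k93 (.q k92 [(.s k51 k34 4 (.s k6 k9 2 (.s k35 k19 3 (.s k38 k25 6 (.s k22 k54 3
  (.d k41 k44 k60 2 6)))))), (.s k1 k2 0 (.s k49 k33 3 (.s k85 k169 13 (.s k153 k221 9 (.s k101 k205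
  13 (.d k117 k69 k185 3 9))))))] (.c k14 (.l (.s k174 k172 0 (.s k1 k2 0 (.s k34 k51 4 (.s k33 k49
  3 (.s k48 k18 4 (.d k32 k35 k16 0 3))))))) (.c k174 (.q k14 [(.s k2 k1 0 (.d k6 k10 k9 1 2)), (.s
  k1 k2 0 (.s k34 k51 4 (.s k33 k49 3 (.s k48 k18 4 (.d k32 k35 k16 0 3))))), (.s k51 k34 4 (.s k6
  k9 2 (.s k35 k19 3 (.s k38 k25 6 (.s k22 k54 3 (.d k41 k44 k60 2 6))))))] .n) .n))) (.c k174 (.q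
  k14 [(.s k2 k1 0 (.d k6 k10 k9 1 2)), (.s k1 k2 0 (.s k34 k51 4 (.s k33 k49 3 (.s k48 k18 4 (.d
  k32 k35 k16 0 3))))), (.s k51 k34 4 (.s k6 k9 2 (.s k35 k19 3 (.s k38 k25 6 (.s k22 k54 3 (.d k41
  k44 k60 2 6))))))] (.c k92 (.l (.s k93 k13 11 (.s k2 k1 0 (.d k6 k9 k10 2 1)))) (.c k93 (.q k92
  [(.s k2 k1 0 (.d k6 k10 k9 1 2)), (.s k1 k2 0 (.s k34 k51 4 (.s k33 k49 3 (.s k48 k18 4 (.d k32
  k35 k16 0 3))))), (.s k51 k34 4 (.s k6 k9 2 (.s k35 k19 3 (.s k38 k25 6 (.s k22 k54 3 (.d k41 k44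
  k60 2 6))))))] .n) .n))) .n))))) (.c k174 (.q k14 [(.s k2 k1 0 (.d k6 k10 k9 1 2)), (.s k1 k2 0
  (.s k34 k51 4 (.s k33 k49 3 (.s k48 k18 4 (.d k32 k35 k16 0 3))))), (.s k51 k34 4 (.s k6 k9 2 (.s
  k35 k19 3 (.s k38 k25 6 (.s k22 k54 3 (.d k41 k44 k60 2 6))))))] (.c k95 (.q k175 [(.s k2 k1 0 (.d
  k6 k10 k9 1 2)), (.s k1 k2 0 (.s k34 k51 4 (.s k33 k49 3 (.s k48 k18 4 (.d k32 k35 k16 0 3))))),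
  (.s k51 k34 4 (.s k6 k9 2 (.s k35 k19 3 (.s k38 k25 6 (.s k22 k54 3 (.d k41 k44 k60 2 6))))))] (.c
  k92 (.l (.s k93 k13 11 (.s k2 k1 0 (.d k6 k9 k10 2 1)))) (.c k93 (.q k92 [(.s k2 k1 0 (.d k6 k10
  k9 1 2)), (.s k1 k2 0 (.s k34 k51 4 (.s k33 k49 3 (.s k48 k18 4 (.d k32 k35 k16 0 3))))), (.s k51
  k34 4 (.s k6 k9 2 (.s k35 k19 3 (.s k38 k25 6 (.s k22 k54 3 (.d k41 k44 k60 2 6))))))] .n) .n)))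
  (.c k175 (.q k95 [(.s k2 k1 0 (.d k6 k10 k9 1 2)), (.s k1 k2 0 (.s k85 k169 13 (.s k166 k247 12
  (.d k90 k80 k242 2 13)))), (.s k51 k34 4 (.s k6 k9 2 (.s k35 k19 3 (.s k38 k25 6 (.s k22 k54 3 (.d
  k41 k44 k60 2 6))))))] .n) .n))) (.c k175 (.q k95 [(.s k9 k6 2 (.s k13 k93 11 (.d k1 k2 k5 0 1))),
  (.s k51 k34 4 (.s k6 k9 2 (.s k35 k19 3 (.s k38 k25 6 (.s k22 k54 3 (.d k41 k44 k60 2 6)))))), (.s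
  k1 k2 0 (.s k34 k51 4 (.s k33 k49 3 (.s k48 k18 4 (.d k32 k35 k16 0 3)))))] (.c k14 (.q k174 [(.s
  k9 k6 2 (.s k13 k93 11 (.d k1 k2 k5 0 1))), (.s k2 k1 0 (.s k34 k51 4 (.s k18 k50 3 (.s k48 k33 4
  (.d k16 k19 k32 0 3))))), (.s k51 k34 4 (.s k6 k9 2 (.s k35 k19 3 (.s k38 k25 6 (.s k22 k54 3 (.d
  k41 k44 k60 2 6))))))] .n) (.c k174 (.q k14 [(.s k2 k1 0 (.d k6 k10 k9 1 2)), (.s k1 k2 0 (.s k85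
  k169 13 (.s k166 k247 12 (.d k90 k80 k242 2 13)))), (.s k51 k34 4 (.s k6 k9 2 (.s k35 k19 3 (.s
  k38 k25 6 (.s k22 k54 3 (.d k41 k44 k60 2 6))))))] .n) .n))) .n))))) .n))))) (.c k95 (.q k175 [(.s
  k1 k2 0 (.s k34 k51 4 (.s k33 k49 3 (.s k48 k18 4 (.d k32 k35 k16 0 3))))), (.s k51 k34 4 (.s k6
  k9 2 (.s k35 k19 3 (.s k38 k25 6 (.s k22 k54 3 (.d k41 k44 k60 2 6)))))), (.s k1 k2 0 (.s k49 k33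
  3 (.s k9 k6 2 (.s k13 k5 1 (.s k25 k37 5 (.s k41 k57 3 (.d k21 k29 k61 1 5)))))))] (.c k94 (.q
  k173 [(.s k1 k2 0 (.s k34 k51 4 (.s k33 k49 3 (.s k48 k18 4 (.d k32 k35 k16 0 3))))), (.s k51 k34
  4 (.s k6 k9 2 (.s k35 k19 3 (.s k38 k25 6 (.s k22 k54 3 (.d k41 k44 k60 2 6)))))), (.s k1 k2 0 (.s
  k49 k33 3 (.s k9 k6 2 (.s k13 k5 1 (.s k25 k37 5 (.s k41 k57 3 (.d k21 k29 k61 1 5)))))))] (.c k92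
  (.q k93 [(.s k1 k2 0 (.s k9 k6 2 (.d k13 k253 k5 11 1))), (.s k1 k2 0 (.s k34 k51 4 (.s k33 k49 3
  (.s k48 k18 4 (.d k32 k35 k16 0 3))))), (.s k51 k34 4 (.s k6 k9 2 (.s k35 k19 3 (.s k38 k25 6 (.s
  k22 k54 3 (.d k41 k44 k60 2 6))))))] (.c k253 (.q k254 [(.s k1 k2 0 (.s k51 k34 4 (.s k19 k35 3
  (.s k18 k16 0 (.d k33 k49 k48 3 4))))), (.s k2 k1 0 (.s k86 k170 13 (.s k6 k9 2 (.s k166 k246 11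
  (.s k85 k247 12 (.d k89 k243 k81 14 1)))))), (.s k51 k34 4 (.s k6 k9 2 (.s k35 k19 3 (.s k38 k25 6
  (.s k22 k54 3 (.d k41 k44 k60 2 6))))))] .n) (.c k254 (.l (.s k253 k13 11 (.s k1 k2 0 (.s k85 k169
  13 (.s k166 k247 12 (.d k89 k243 k81 14 1)))))) .n))) (.c k93 (.q k92 [(.s k1 k2 0 (.s k34 k51 4
  (.s k33 k49 3 (.s k48 k18 4 (.d k32 k35 k16 0 3))))), (.s k51 k34 4 (.s k6 k9 2 (.s k35 k19 3 (.s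
  k38 k25 6 (.s k22 k54 3 (.d k41 k44 k60 2 6)))))), (.s k1 k2 0 (.s k49 k33 3 (.s k9 k6 2 (.s k13
  k5 1 (.s k25 k37 5 (.s k41 k57 3 (.d k21 k29 k61 1 5)))))))] (.c k253 (.q k254 [(.s k1 k2 0 (.s
  k51 k34 4 (.s k19 k35 3 (.s k18 k16 0 (.d k33 k49 k48 3 4))))), (.s k2 k1 0 (.s k86 k170 13 (.s k6
  k9 2 (.s k166 k246 11 (.d k89 k243 k83 14 2))))), (.s k51 k34 4 (.s k6 k9 2 (.s k35 k19 3 (.s k38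
  k25 6 (.s k22 k54 3 (.d k41 k44 k60 2 6))))))] .n) (.c k254 (.q k253 [(.s k51 k34 4 (.s k6 k9 2
  (.s k35 k19 3 (.s k38 k25 6 (.s k22 k54 3 (.d k41 k44 k60 2 6)))))), (.s k1 k2 0 (.s k49 k33 3 (.s
  k85 k169 13 (.s k153 k221 9 (.s k101 k205 13 (.d k117 k69 k185 3 9))))))] (.c k14 (.l (.s k174
  k172 0 (.s k1 k2 0 (.s k34 k51 4 (.s k33 k49 3 (.s k48 k18 4 (.d k32 k35 k16 0 3))))))) (.c k174
  (.q k14 [(.s k2 k1 0 (.d k6 k10 k9 1 2)), (.s k1 k2 0 (.s k34 k51 4 (.s k33 k49 3 (.s k48 k18 4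
  (.d k32 k35 k16 0 3))))), (.s k51 k34 4 (.s k6 k9 2 (.s k35 k19 3 (.s k38 k25 6 (.s k22 k54 3 (.d
  k41 k44 k60 2 6))))))] .n) .n))) .n))) (.c k253 (.q k254 [(.s k1 k2 0 (.s k51 k34 4 (.s k19 k35 3
  (.s k18 k16 0 (.d k33 k49 k48 3 4))))), (.s k2 k1 0 (.s k170 k86 13 (.s k160 k165 2 (.s k240 k80
  11 (.s k164 k88 13 (.d k172 k168 k174 1 0)))))), (.s k51 k34 4 (.s k6 k9 2 (.s k35 k19 3 (.s k38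
  k25 6 (.s k22 k54 3 (.d k41 k44 k60 2 6))))))] (.c k92 (.q k93 [(.s k1 k2 0 (.s k51 k34 4 (.s k19
  k35 3 (.s k18 k16 0 (.d k33 k49 k48 3 4))))), (.s k2 k1 0 (.s k86 k170 13 (.s k6 k9 2 (.s k166
  k246 11 (.s k85 k247 12 (.d k89 k243 k81 14 1)))))), (.s k51 k34 4 (.s k6 k9 2 (.s k35 k19 3 (.s
  k38 k25 6 (.s k22 k54 3 (.d k41 k44 k60 2 6))))))] .n) (.c k93 (.q k92 [(.s k1 k2 0 (.s k51 k34 4
  (.s k19 k35 3 (.s k18 k16 0 (.d k33 k49 k48 3 4))))), (.s k2 k1 0 (.s k86 k170 13 (.s k6 k9 2 (.s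
  k166 k246 11 (.d k89 k243 k83 14 2))))), (.s k51 k34 4 (.s k6 k9 2 (.s k35 k19 3 (.s k38 k25 6 (.s
  k22 k54 3 (.d k41 k44 k60 2 6))))))] .n) .n))) (.c k254 (.q k253 [(.s k1 k2 0 (.s k9 k6 2 (.d k13
  k93 k5 11 1))), (.s k2 k1 0 (.s k34 k51 4 (.s k18 k50 3 (.s k48 k33 4 (.d k16 k19 k32 0 3))))),
  (.s k51 k34 4 (.s k6 k9 2 (.s k35 k19 3 (.s k38 k25 6 (.s k22 k54 3 (.d k41 k44 k60 2 6))))))] (.c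
  k14 (.l (.s k174 k172 0 (.s k1 k2 0 (.s k34 k51 4 (.s k33 k49 3 (.s k48 k18 4 (.d k32 k35 k16 0
  3))))))) (.c k92 (.l (.s k93 k13 11 (.s k1 k2 0 (.s k85 k169 13 (.s k166 k247 12 (.d k89 k243 k81
  14 1)))))) (.c k93 (.q k92 [(.s k51 k34 4 (.s k6 k9 2 (.s k35 k19 3 (.s k38 k25 6 (.s k22 k54 3
  (.d k41 k44 k60 2 6)))))), (.s k1 k2 0 (.s k49 k33 3 (.s k85 k169 13 (.s k153 k221 9 (.s k101 k205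
  13 (.d k117 k69 k185 3 9))))))] (.c k14 (.l (.s k174 k172 0 (.s k1 k2 0 (.s k34 k51 4 (.s k33 k49
  3 (.s k48 k18 4 (.d k32 k35 k16 0 3))))))) (.c k174 (.q k14 [(.s k2 k1 0 (.d k6 k10 k9 1 2)), (.s
  k1 k2 0 (.s k34 k51 4 (.s k33 k49 3 (.s k48 k18 4 (.d k32 k35 k16 0 3))))), (.s k51 k34 4 (.s k6
  k9 2 (.s k35 k19 3 (.s k38 k25 6 (.s k22 k54 3 (.d k41 k44 k60 2 6))))))] .n) .n))) (.c k174 (.q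
  k14 [(.s k2 k1 0 (.d k6 k10 k9 1 2)), (.s k1 k2 0 (.s k34 k51 4 (.s k33 k49 3 (.s k48 k18 4 (.d
  k32 k35 k16 0 3))))), (.s k51 k34 4 (.s k6 k9 2 (.s k35 k19 3 (.s k38 k25 6 (.s k22 k54 3 (.d k41
  k44 k60 2 6))))))] (.c k92 (.l (.s k93 k13 11 (.s k2 k1 0 (.d k6 k9 k10 2 1)))) (.c k93 (.q k92
  [(.s k2 k1 0 (.d k6 k10 k9 1 2)), (.s k1 k2 0 (.s k34 k51 4 (.s k33 k49 3 (.s k48 k18 4 (.d k32
  k35 k16 0 3))))), (.s k51 k34 4 (.s k6 k9 2 (.s k35 k19 3 (.s k38 k25 6 (.s k22 k54 3 (.d k41 k44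
  k60 2 6))))))] .n) .n))) .n))))) .n))))) (.c k173 (.q k94 [(.s k1 k2 0 (.s k34 k51 4 (.s k33 k49 3
  (.s k48 k18 4 (.d k32 k35 k16 0 3))))), (.s k51 k34 4 (.s k6 k9 2 (.s k35 k19 3 (.s k38 k25 6 (.s
  k22 k54 3 (.d k41 k44 k60 2 6)))))), (.s k1 k2 0 (.s k49 k33 3 (.s k9 k6 2 (.s k13 k5 1 (.s k25
  k37 5 (.s k41 k57 3 (.d k21 k29 k61 1 5)))))))] (.c k253 (.q k254 [(.s k6 k9 2 (.s k14 k174 11 (.d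
  k2 k10 k1 1 0))), (.s k1 k2 0 (.s k34 k51 4 (.s k33 k49 3 (.s k48 k18 4 (.d k32 k35 k16 0 3))))),
  (.s k51 k34 4 (.s k6 k9 2 (.s k35 k19 3 (.s k38 k25 6 (.s k22 k54 3 (.d k41 k44 k60 2 6))))))] (.c
  k13 (.q k93 [(.s k6 k9 2 (.s k14 k174 11 (.d k2 k1 k10 0 1))), (.s k51 k34 4 (.s k9 k6 2 (.s k19
  k35 3 (.s k25 k38 6 (.s k41 k57 3 (.d k22 k28 k60 2 6)))))), (.s k1 k2 0 (.s k34 k51 4 (.s k33 k49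
  3 (.s k48 k18 4 (.d k32 k35 k16 0 3)))))] .n) (.c k93 (.q k13 [(.s k1 k2 0 (.d k9 k5 k6 1 2)), (.s
  k51 k34 4 (.s k6 k9 2 (.s k35 k19 3 (.s k38 k25 6 (.s k22 k54 3 (.d k41 k44 k60 2 6)))))), (.s k1
  k2 0 (.s k51 k34 4 (.s k49 k33 3 (.d k25 k37 k38 5 6))))] .n) .n))) (.c k254 (.q k253 [(.s k51 k34
  4 (.s k6 k9 2 (.s k35 k19 3 (.s k38 k25 6 (.s k22 k54 3 (.d k41 k44 k60 2 6)))))), (.s k1 k2 0 (.s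
  k49 k33 3 (.s k85 k169 13 (.s k153 k221 9 (.s k101 k205 13 (.d k117 k69 k185 3 9))))))] .n) .n)))
  (.c k253 (.q k254 [(.s k1 k2 0 (.s k51 k34 4 (.s k19 k35 3 (.s k18 k16 0 (.d k33 k49 k48 3 4))))),
  (.s k51 k34 4 (.s k6 k9 2 (.s k35 k19 3 (.s k38 k25 6 (.s k22 k54 3 (.d k41 k44 k60 2 6)))))), (.s
  k1 k2 0 (.s k49 k33 3 (.s k9 k6 2 (.s k13 k5 1 (.s k25 k37 5 (.s k41 k57 3 (.d k21 k29 k61 1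
  5)))))))] (.c k94 (.q k173 [(.s k1 k2 0 (.s k51 k34 4 (.s k19 k35 3 (.s k18 k16 0 (.d k33 k49 k48
  3 4))))), (.s k2 k1 0 (.s k170 k86 13 (.s k160 k165 2 (.s k240 k80 11 (.s k164 k88 13 (.d k172
  k168 k174 1 0)))))), (.s k51 k34 4 (.s k6 k9 2 (.s k35 k19 3 (.s k38 k25 6 (.s k22 k54 3 (.d k41
  k44 k60 2 6))))))] (.c k92 (.q k93 [(.s k1 k2 0 (.s k51 k34 4 (.s k19 k35 3 (.s k18 k16 0 (.d k33
  k49 k48 3 4))))), (.s k2 k1 0 (.s k86 k170 13 (.s k6 k9 2 (.s k166 k246 11 (.s k85 k247 12 (.d k89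
  k243 k81 14 1)))))), (.s k51 k34 4 (.s k6 k9 2 (.s k35 k19 3 (.s k38 k25 6 (.s k22 k54 3 (.d k41
  k44 k60 2 6))))))] .n) (.c k93 (.q k92 [(.s k1 k2 0 (.s k51 k34 4 (.s k19 k35 3 (.s k18 k16 0 (.d
  k33 k49 k48 3 4))))), (.s k2 k1 0 (.s k86 k170 13 (.s k6 k9 2 (.s k166 k246 11 (.d k89 k243 k83 14
  2))))), (.s k51 k34 4 (.s k6 k9 2 (.s k35 k19 3 (.s k38 k25 6 (.s k22 k54 3 (.d k41 k44 k60 2
  6))))))] .n) .n))) (.c k173 (.q k94 [(.s k6 k9 2 (.s k14 k174 11 (.d k2 k10 k1 1 0))), (.s k1 k2 0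
  (.s k34 k51 4 (.s k33 k49 3 (.s k48 k18 4 (.d k32 k35 k16 0 3))))), (.s k51 k34 4 (.s k6 k9 2 (.s
  k35 k19 3 (.s k38 k25 6 (.s k22 k54 3 (.d k41 k44 k60 2 6))))))] (.c k13 (.q k93 [(.s k6 k9 2 (.s
  k14 k174 11 (.d k2 k1 k10 0 1))), (.s k51 k34 4 (.s k9 k6 2 (.s k19 k35 3 (.s k25 k38 6 (.s k41
  k57 3 (.d k22 k28 k60 2 6)))))), (.s k1 k2 0 (.s k34 k51 4 (.s k33 k49 3 (.s k48 k18 4 (.d k32 k35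
  k16 0 3)))))] .n) (.c k93 (.q k13 [(.s k1 k2 0 (.d k9 k5 k6 1 2)), (.s k51 k34 4 (.s k6 k9 2 (.s
  k35 k19 3 (.s k38 k25 6 (.s k22 k54 3 (.d k41 k44 k60 2 6)))))), (.s k1 k2 0 (.s k51 k34 4 (.s k49
  k33 3 (.d k25 k37 k38 5 6))))] .n) .n))) .n))) (.c k254 (.q k253 [(.s k1 k2 0 (.s k49 k33 3 (.s
  k85 k169 13 (.s k153 k221 9 (.s k101 k205 13 (.d k117 k69 k185 3 9)))))), (.s k51 k34 4 (.s k6 k9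
  2 (.s k35 k19 3 (.s k38 k25 6 (.s k22 k54 3 (.d k41 k44 k60 2 6))))))] (.c k94 (.q k173 [(.s k1 k2
  0 (.s k9 k6 2 (.d k13 k93 k5 11 1))), (.s k2 k1 0 (.s k34 k51 4 (.s k18 k50 3 (.s k48 k33 4 (.d
  k16 k19 k32 0 3))))), (.s k51 k34 4 (.s k6 k9 2 (.s k35 k19 3 (.s k38 k25 6 (.s k22 k54 3 (.d k41
  k44 k60 2 6))))))] (.c k14 (.l (.s k174 k172 0 (.s k1 k2 0 (.s k34 k51 4 (.s k33 k49 3 (.s k48 k18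
  4 (.d k32 k35 k16 0 3))))))) (.c k92 (.l (.s k93 k13 11 (.s k1 k2 0 (.s k85 k169 13 (.s k166 k247
  12 (.d k89 k243 k81 14 1)))))) (.c k93 (.q k92 [(.s k51 k34 4 (.s k6 k9 2 (.s k35 k19 3 (.s k38
  k25 6 (.s k22 k54 3 (.d k41 k44 k60 2 6)))))), (.s k1 k2 0 (.s k49 k33 3 (.s k85 k169 13 (.s k153
  k221 9 (.s k101 k205 13 (.d k117 k69 k185 3 9))))))] (.c k14 (.l (.s k174 k172 0 (.s k1 k2 0 (.s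
  k34 k51 4 (.s k33 k49 3 (.s k48 k18 4 (.d k32 k35 k16 0 3))))))) (.c k174 (.q k14 [(.s k2 k1 0 (.d
  k6 k10 k9 1 2)), (.s k1 k2 0 (.s k34 k51 4 (.s k33 k49 3 (.s k48 k18 4 (.d k32 k35 k16 0 3))))),
  (.s k51 k34 4 (.s k6 k9 2 (.s k35 k19 3 (.s k38 k25 6 (.s k22 k54 3 (.d k41 k44 k60 2 6))))))] .n)
  .n))) (.c k174 (.q k14 [(.s k2 k1 0 (.d k6 k10 k9 1 2)), (.s k1 k2 0 (.s k34 k51 4 (.s k33 k49 3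
  (.s k48 k18 4 (.d k32 k35 k16 0 3))))), (.s k51 k34 4 (.s k6 k9 2 (.s k35 k19 3 (.s k38 k25 6 (.s
  k22 k54 3 (.d k41 k44 k60 2 6))))))] (.c k92 (.l (.s k93 k13 11 (.s k2 k1 0 (.d k6 k9 k10 2 1))))
  (.c k93 (.q k92 [(.s k2 k1 0 (.d k6 k10 k9 1 2)), (.s k1 k2 0 (.s k34 k51 4 (.s k33 k49 3 (.s k48
  k18 4 (.d k32 k35 k16 0 3))))), (.s k51 k34 4 (.s k6 k9 2 (.s k35 k19 3 (.s k38 k25 6 (.s k22 k54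
  3 (.d k41 k44 k60 2 6))))))] .n) .n))) .n))))) (.c k173 (.q k94 [(.s k51 k34 4 (.s k6 k9 2 (.s k35
  k19 3 (.s k38 k25 6 (.s k22 k54 3 (.d k41 k44 k60 2 6)))))), (.s k1 k2 0 (.s k49 k33 3 (.s k85
  k169 13 (.s k153 k221 9 (.s k101 k205 13 (.d k117 k69 k185 3 9))))))] .n) .n))) .n))))) (.c k173
  (.q k94 [(.s k1 k2 0 (.s k34 k51 4 (.s k33 k49 3 (.s k48 k18 4 (.d k32 k35 k16 0 3))))), (.s k51
  k34 4 (.s k6 k9 2 (.s k35 k19 3 (.s k38 k25 6 (.s k22 k54 3 (.d k41 k44 k60 2 6)))))), (.s k1 k2 0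
  (.s k49 k33 3 (.s k9 k6 2 (.s k13 k5 1 (.s k25 k37 5 (.s k41 k57 3 (.d k21 k29 k61 1 5)))))))] (.c
  k95 (.q k175 [(.s k1 k2 0 (.s k34 k51 4 (.s k33 k49 3 (.s k48 k18 4 (.d k32 k35 k16 0 3))))), (.s
  k51 k34 4 (.s k6 k9 2 (.s k35 k19 3 (.s k38 k25 6 (.s k22 k54 3 (.d k41 k44 k60 2 6)))))), (.s k1
  k2 0 (.s k49 k33 3 (.s k9 k6 2 (.s k13 k5 1 (.s k25 k37 5 (.s k41 k57 3 (.d k21 k29 k61 1
  5)))))))] (.c k253 (.q k254 [(.s k6 k9 2 (.s k14 k174 11 (.d k2 k10 k1 1 0))), (.s k1 k2 0 (.s k34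
  k51 4 (.s k33 k49 3 (.s k48 k18 4 (.d k32 k35 k16 0 3))))), (.s k51 k34 4 (.s k6 k9 2 (.s k35 k19
  3 (.s k38 k25 6 (.s k22 k54 3 (.d k41 k44 k60 2 6))))))] (.c k13 (.q k93 [(.s k6 k9 2 (.s k14 k174
  11 (.d k2 k1 k10 0 1))), (.s k51 k34 4 (.s k9 k6 2 (.s k19 k35 3 (.s k25 k38 6 (.s k41 k57 3 (.d
  k22 k28 k60 2 6)))))), (.s k1 k2 0 (.s k34 k51 4 (.s k33 k49 3 (.s k48 k18 4 (.d k32 k35 k16 0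
  3)))))] .n) (.c k93 (.q k13 [(.s k1 k2 0 (.d k9 k5 k6 1 2)), (.s k51 k34 4 (.s k6 k9 2 (.s k35 k19
  3 (.s k38 k25 6 (.s k22 k54 3 (.d k41 k44 k60 2 6)))))), (.s k1 k2 0 (.s k51 k34 4 (.s k49 k33 3
  (.d k25 k37 k38 5 6))))] .n) .n))) (.c k254 (.q k253 [(.s k51 k34 4 (.s k6 k9 2 (.s k35 k19 3 (.s
  k38 k25 6 (.s k22 k54 3 (.d k41 k44 k60 2 6)))))), (.s k1 k2 0 (.s k49 k33 3 (.s k85 k169 13 (.s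
  k153 k221 9 (.s k101 k205 13 (.d k117 k69 k185 3 9))))))] .n) .n))) (.c k175 (.q k95 [(.s k1 k2 0
  (.s k34 k51 4 (.s k33 k49 3 (.s k48 k18 4 (.d k32 k35 k16 0 3))))), (.s k51 k34 4 (.s k6 k9 2 (.s
  k35 k19 3 (.s k38 k25 6 (.s k22 k54 3 (.d k41 k44 k60 2 6)))))), (.s k1 k2 0 (.s k49 k33 3 (.s k9
  k6 2 (.s k13 k5 1 (.s k25 k37 5 (.s k41 k57 3 (.d k21 k29 k61 1 5)))))))] (.c k172 (.q k174 [(.s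
  k2 k1 0 (.s k6 k9 2 (.d k14 k10 k254 1 11))), (.s k1 k2 0 (.s k34 k51 4 (.s k33 k49 3 (.s k48 k18
  4 (.d k32 k35 k16 0 3))))), (.s k51 k34 4 (.s k6 k9 2 (.s k35 k19 3 (.s k38 k25 6 (.s k22 k54 3
  (.d k41 k44 k60 2 6))))))] (.c k253 (.l (.s k254 k14 11 (.s k1 k2 0 (.s k34 k51 4 (.s k33 k49 3
  (.s k48 k18 4 (.d k32 k35 k16 0 3))))))) (.c k254 (.q k253 [(.s k1 k2 0 (.s k85 k169 13 (.s k166
  k247 12 (.s k243 k89 14 (.d k162 k170 k81 1 12))))), (.s k51 k34 4 (.s k6 k9 2 (.s k35 k19 3 (.s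
  k38 k25 6 (.s k22 k54 3 (.d k41 k44 k60 2 6))))))] (.c k9 (.l (.s k1 k2 0 (.s k34 k51 4 (.s k33
  k49 3 (.s k48 k18 4 (.d k32 k35 k16 0 3)))))) .n)) .n))) (.c k174 (.q k172 [(.s k1 k2 0 (.s k34
  k51 4 (.s k33 k49 3 (.s k48 k18 4 (.d k32 k35 k16 0 3))))), (.s k51 k34 4 (.s k6 k9 2 (.s k35 k19
  3 (.s k38 k25 6 (.s k22 k54 3 (.d k41 k44 k60 2 6)))))), (.s k1 k2 0 (.s k49 k33 3 (.s k9 k6 2 (.s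
  k13 k5 1 (.s k25 k37 5 (.s k41 k57 3 (.d k21 k29 k61 1 5)))))))] (.c k253 (.q k254 [(.s k1 k2 0
  (.s k51 k34 4 (.s k19 k35 3 (.s k18 k16 0 (.d k33 k49 k48 3 4))))), (.s k2 k1 0 (.s k86 k170 13
  (.s k6 k9 2 (.s k166 k246 11 (.s k85 k247 12 (.d k90 k82 k80 1 2)))))), (.s k51 k34 4 (.s k6 k9 2
  (.s k35 k19 3 (.s k38 k25 6 (.s k22 k54 3 (.d k41 k44 k60 2 6))))))] (.c k13 (.l (.s k93 k92 0 (.s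
  k1 k2 0 (.s k34 k51 4 (.s k33 k49 3 (.s k48 k18 4 (.d k32 k35 k16 0 3))))))) (.c k93 (.q k13 [(.s
  k1 k2 0 (.d k9 k5 k6 1 2)), (.s k51 k34 4 (.s k6 k9 2 (.s k35 k19 3 (.s k38 k25 6 (.s k22 k54 3
  (.d k41 k44 k60 2 6)))))), (.s k1 k2 0 (.s k51 k34 4 (.s k49 k33 3 (.d k25 k37 k38 5 6))))] .n)
  .n))) (.c k254 (.q k253 [(.s k1 k2 0 (.s k85 k169 13 (.s k166 k247 12 (.s k93 k92 0 (.d k89 k243
  k81 14 1))))), (.s k51 k34 4 (.s k6 k9 2 (.s k35 k19 3 (.s k38 k25 6 (.s k22 k54 3 (.d k41 k44 k60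
  2 6))))))] .n) .n))) (.c k253 (.q k254 [(.s k2 k1 0 (.s k6 k9 2 (.d k14 k10 k174 1 11))), (.s k1
  k2 0 (.s k34 k51 4 (.s k33 k49 3 (.s k48 k18 4 (.d k32 k35 k16 0 3))))), (.s k51 k34 4 (.s k6 k9 2
  (.s k35 k19 3 (.s k38 k25 6 (.s k22 k54 3 (.d k41 k44 k60 2 6))))))] (.c k13 (.l (.s k93 k92 0 (.s
  k2 k1 0 (.s k6 k9 2 (.s k5 k7 0 (.d k14 k10 k174 1 11)))))) (.c k93 (.q k13 [(.s k1 k2 0 (.d k9 k5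
  k6 1 2)), (.s k51 k34 4 (.s k6 k9 2 (.s k35 k19 3 (.s k38 k25 6 (.s k22 k54 3 (.d k41 k44 k60 2
  6)))))), (.s k1 k2 0 (.s k51 k34 4 (.s k49 k33 3 (.d k25 k37 k38 5 6))))] (.c k172 (.l (.s k174
  k14 11 (.s k1 k2 0 (.d k9 k6 k5 2 1)))) (.c k174 (.q k172 [(.s k1 k2 0 (.d k9 k5 k6 1 2)), (.s k51
  k34 4 (.s k6 k9 2 (.s k35 k19 3 (.s k38 k25 6 (.s k22 k54 3 (.d k41 k44 k60 2 6)))))), (.s k1 k2 0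
  (.s k51 k34 4 (.s k49 k33 3 (.d k25 k37 k38 5 6))))] .n) .n))) (.c k172 (.l (.s k174 k14 11 (.s k1
  k2 0 (.s k34 k51 4 (.s k33 k49 3 (.s k48 k18 4 (.d k32 k35 k16 0 3))))))) (.c k174 (.q k172 [(.s
  k1 k2 0 (.s k51 k34 4 (.s k19 k35 3 (.s k18 k16 0 (.d k33 k49 k48 3 4))))), (.s k2 k1 0 (.s k86
  k170 13 (.s k6 k9 2 (.s k166 k246 11 (.s k85 k247 12 (.d k90 k82 k80 1 2)))))), (.s k51 k34 4 (.s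
  k6 k9 2 (.s k35 k19 3 (.s k38 k25 6 (.s k22 k54 3 (.d k41 k44 k60 2 6))))))] (.c k13 (.l (.s k93
  k92 0 (.s k1 k2 0 (.s k34 k51 4 (.s k33 k49 3 (.s k48 k18 4 (.d k32 k35 k16 0 3))))))) (.c k93 (.q
  k13 [(.s k1 k2 0 (.d k9 k5 k6 1 2)), (.s k51 k34 4 (.s k6 k9 2 (.s k35 k19 3 (.s k38 k25 6 (.s k22
  k54 3 (.d k41 k44 k60 2 6)))))), (.s k1 k2 0 (.s k51 k34 4 (.s k49 k33 3 (.d k25 k37 k38 5 6))))]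
  .n) .n))) .n))))) (.c k254 (.q k253 [(.s k1 k2 0 (.s k85 k169 13 (.s k166 k247 12 (.s k93 k92 0
  (.d k89 k243 k81 14 1))))), (.s k51 k34 4 (.s k6 k9 2 (.s k35 k19 3 (.s k38 k25 6 (.s k22 k54 3
  (.d k41 k44 k60 2 6))))))] (.c k172 (.q k174 [(.s k1 k2 0 (.s k85 k169 13 (.s k166 k247 12 (.s
  k243 k89 14 (.d k162 k170 k81 1 12))))), (.s k51 k34 4 (.s k6 k9 2 (.s k35 k19 3 (.s k38 k25 6 (.s
  k22 k54 3 (.d k41 k44 k60 2 6))))))] (.c k9 (.l (.s k1 k2 0 (.s k34 k51 4 (.s k33 k49 3 (.s k48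
  k18 4 (.d k32 k35 k16 0 3)))))) .n)) (.c k174 (.q k172 [(.s k1 k2 0 (.s k85 k169 13 (.s k166 k247
  12 (.s k93 k92 0 (.d k89 k243 k81 14 1))))), (.s k51 k34 4 (.s k6 k9 2 (.s k35 k19 3 (.s k38 k25 6
  (.s k22 k54 3 (.d k41 k44 k60 2 6))))))] .n) .n))) .n))))) (.c k253 (.q k254 [(.s k6 k9 2 (.s k14
  k174 11 (.d k2 k10 k1 1 0))), (.s k1 k2 0 (.s k34 k51 4 (.s k33 k49 3 (.s k48 k18 4 (.d k32 k35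
  k16 0 3))))), (.s k51 k34 4 (.s k6 k9 2 (.s k35 k19 3 (.s k38 k25 6 (.s k22 k54 3 (.d k41 k44 k60
  2 6))))))] (.c k13 (.q k93 [(.s k6 k9 2 (.s k14 k174 11 (.d k2 k1 k10 0 1))), (.s k51 k34 4 (.s k9
  k6 2 (.s k19 k35 3 (.s k25 k38 6 (.s k41 k57 3 (.d k22 k28 k60 2 6)))))), (.s k1 k2 0 (.s k34 k51
  4 (.s k33 k49 3 (.s k48 k18 4 (.d k32 k35 k16 0 3)))))] (.c k95 (.q k175 [(.s k6 k9 2 (.s k14 k174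
  11 (.d k2 k1 k10 0 1))), (.s k51 k34 4 (.s k9 k6 2 (.s k19 k35 3 (.s k25 k38 6 (.s k41 k57 3 (.d
  k22 k28 k60 2 6)))))), (.s k1 k2 0 (.s k34 k51 4 (.s k33 k49 3 (.s k48 k18 4 (.d k32 k35 k16 0
  3)))))] .n) (.c k175 (.l (.s k95 k92 0 (.s k2 k1 0 (.s k6 k9 2 (.s k5 k7 0 (.d k14 k10 k174 1
  11)))))) .n))) (.c k93 (.q k13 [(.s k1 k2 0 (.d k9 k5 k6 1 2)), (.s k51 k34 4 (.s k6 k9 2 (.s k35
  k19 3 (.s k38 k25 6 (.s k22 k54 3 (.d k41 k44 k60 2 6)))))), (.s k1 k2 0 (.s k51 k34 4 (.s k49 k33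
  3 (.d k25 k37 k38 5 6))))] (.c k95 (.q k175 [(.s k1 k2 0 (.d k9 k5 k6 1 2)), (.s k51 k34 4 (.s k6
  k9 2 (.s k35 k19 3 (.s k38 k25 6 (.s k22 k54 3 (.d k41 k44 k60 2 6)))))), (.s k1 k2 0 (.s k51 k34
  4 (.s k49 k33 3 (.d k25 k37 k38 5 6))))] .n) (.c k175 (.q k95 [(.s k1 k2 0 (.d k9 k5 k6 1 2)), (.s
  k51 k34 4 (.s k6 k9 2 (.s k35 k19 3 (.s k38 k25 6 (.s k22 k54 3 (.d k41 k44 k60 2 6)))))), (.s k1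
  k2 0 (.s k51 k34 4 (.s k49 k33 3 (.d k25 k37 k38 5 6))))] (.c k172 (.l (.s k174 k14 11 (.s k1 k2 0
  (.d k9 k6 k5 2 1)))) (.c k174 (.q k172 [(.s k1 k2 0 (.d k9 k5 k6 1 2)), (.s k51 k34 4 (.s k6 k9 2
  (.s k35 k19 3 (.s k38 k25 6 (.s k22 k54 3 (.d k41 k44 k60 2 6)))))), (.s k1 k2 0 (.s k51 k34 4 (.s
  k49 k33 3 (.d k25 k37 k38 5 6))))] .n) .n))) .n))) (.c k95 (.q k175 [(.s k6 k9 2 (.s k14 k174 11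
  (.d k2 k10 k1 1 0))), (.s k1 k2 0 (.s k34 k51 4 (.s k33 k49 3 (.s k48 k18 4 (.d k32 k35 k16 0
  3))))), (.s k51 k34 4 (.s k6 k9 2 (.s k35 k19 3 (.s k38 k25 6 (.s k22 k54 3 (.d k41 k44 k60 2
  6))))))] (.c k13 (.q k93 [(.s k6 k9 2 (.s k14 k174 11 (.d k2 k1 k10 0 1))), (.s k51 k34 4 (.s k9
  k6 2 (.s k19 k35 3 (.s k25 k38 6 (.s k41 k57 3 (.d k22 k28 k60 2 6)))))), (.s k1 k2 0 (.s k34 k51
  4 (.s k33 k49 3 (.s k48 k18 4 (.d k32 k35 k16 0 3)))))] .n) (.c k93 (.q k13 [(.s k1 k2 0 (.d k9 k5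
  k6 1 2)), (.s k51 k34 4 (.s k6 k9 2 (.s k35 k19 3 (.s k38 k25 6 (.s k22 k54 3 (.d k41 k44 k60 2
  6)))))), (.s k1 k2 0 (.s k51 k34 4 (.s k49 k33 3 (.d k25 k37 k38 5 6))))] .n) .n))) (.c k175 (.q
  k95 [(.s k2 k1 0 (.s k6 k9 2 (.d k14 k10 k174 1 11))), (.s k1 k2 0 (.s k34 k51 4 (.s k33 k49 3 (.s
  k48 k18 4 (.d k32 k35 k16 0 3))))), (.s k51 k34 4 (.s k6 k9 2 (.s k35 k19 3 (.s k38 k25 6 (.s k22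
  k54 3 (.d k41 k44 k60 2 6))))))] (.c k13 (.l (.s k93 k92 0 (.s k2 k1 0 (.s k6 k9 2 (.s k5 k7 0 (.d
  k14 k10 k174 1 11)))))) (.c k93 (.q k13 [(.s k1 k2 0 (.d k9 k5 k6 1 2)), (.s k51 k34 4 (.s k6 k9 2
  (.s k35 k19 3 (.s k38 k25 6 (.s k22 k54 3 (.d k41 k44 k60 2 6)))))), (.s k1 k2 0 (.s k51 k34 4 (.s
  k49 k33 3 (.d k25 k37 k38 5 6))))] (.c k172 (.l (.s k174 k14 11 (.s k1 k2 0 (.d k9 k6 k5 2 1))))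
  (.c k174 (.q k172 [(.s k1 k2 0 (.d k9 k5 k6 1 2)), (.s k51 k34 4 (.s k6 k9 2 (.s k35 k19 3 (.s k38
  k25 6 (.s k22 k54 3 (.d k41 k44 k60 2 6)))))), (.s k1 k2 0 (.s k51 k34 4 (.s k49 k33 3 (.d k25 k37
  k38 5 6))))] .n) .n))) (.c k172 (.l (.s k174 k14 11 (.s k1 k2 0 (.s k34 k51 4 (.s k33 k49 3 (.s
  k48 k18 4 (.d k32 k35 k16 0 3))))))) (.c k174 (.q k172 [(.s k1 k2 0 (.s k51 k34 4 (.s k19 k35 3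
  (.s k18 k16 0 (.d k33 k49 k48 3 4))))), (.s k2 k1 0 (.s k86 k170 13 (.s k6 k9 2 (.s k166 k246 11
  (.s k85 k247 12 (.d k90 k82 k80 1 2)))))), (.s k51 k34 4 (.s k6 k9 2 (.s k35 k19 3 (.s k38 k25 6
  (.s k22 k54 3 (.d k41 k44 k60 2 6))))))] (.c k13 (.l (.s k93 k92 0 (.s k1 k2 0 (.s k34 k51 4 (.s
  k33 k49 3 (.s k48 k18 4 (.d k32 k35 k16 0 3))))))) (.c k93 (.q k13 [(.s k1 k2 0 (.d k9 k5 k6 1
  2)), (.s k51 k34 4 (.s k6 k9 2 (.s k35 k19 3 (.s k38 k25 6 (.s k22 k54 3 (.d k41 k44 k60 2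
  6)))))), (.s k1 k2 0 (.s k51 k34 4 (.s k49 k33 3 (.d k25 k37 k38 5 6))))] .n) .n))) .n)))))
  .n))))) (.c k254 (.q k253 [(.s k51 k34 4 (.s k6 k9 2 (.s k35 k19 3 (.s k38 k25 6 (.s k22 k54 3 (.d
  k41 k44 k60 2 6)))))), (.s k1 k2 0 (.s k49 k33 3 (.s k85 k169 13 (.s k153 k221 9 (.s k101 k205 13
  (.d k117 k69 k185 3 9))))))] (.c k95 (.q k175 [(.s k51 k34 4 (.s k6 k9 2 (.s k35 k19 3 (.s k38 k25
  6 (.s k22 k54 3 (.d k41 k44 k60 2 6)))))), (.s k1 k2 0 (.s k49 k33 3 (.s k85 k169 13 (.s k153 k221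
  9 (.s k101 k205 13 (.d k117 k69 k185 3 9))))))] .n) (.c k175 (.q k95 [(.s k1 k2 0 (.s k85 k169 13
  (.s k166 k247 12 (.s k93 k92 0 (.d k89 k243 k81 14 1))))), (.s k51 k34 4 (.s k6 k9 2 (.s k35 k19 3
  (.s k38 k25 6 (.s k22 k54 3 (.d k41 k44 k60 2 6))))))] (.c k172 (.q k174 [(.s k1 k2 0 (.s k85 k169
  13 (.s k166 k247 12 (.s k243 k89 14 (.d k162 k170 k81 1 12))))), (.s k51 k34 4 (.s k6 k9 2 (.s k35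
  k19 3 (.s k38 k25 6 (.s k22 k54 3 (.d k41 k44 k60 2 6))))))] (.c k9 (.l (.s k1 k2 0 (.s k34 k51 4
  (.s k33 k49 3 (.s k48 k18 4 (.d k32 k35 k16 0 3)))))) .n)) (.c k174 (.q k172 [(.s k1 k2 0 (.s k85
  k169 13 (.s k166 k247 12 (.s k93 k92 0 (.d k89 k243 k81 14 1))))), (.s k51 k34 4 (.s k6 k9 2 (.s
  k35 k19 3 (.s k38 k25 6 (.s k22 k54 3 (.d k41 k44 k60 2 6))))))] .n) .n))) .n))) .n))))) (.c k175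
  (.q k95 [(.s k1 k2 0 (.s k34 k51 4 (.s k33 k49 3 (.s k48 k18 4 (.d k32 k35 k16 0 3))))), (.s k51
  k34 4 (.s k6 k9 2 (.s k35 k19 3 (.s k38 k25 6 (.s k22 k54 3 (.d k41 k44 k60 2 6)))))), (.s k1 k2 0
  (.s k49 k33 3 (.s k9 k6 2 (.s k13 k5 1 (.s k25 k37 5 (.s k41 k57 3 (.d k21 k29 k61 1 5)))))))] (.c
  k94 (.q k173 [(.s k1 k2 0 (.s k34 k51 4 (.s k33 k49 3 (.s k48 k18 4 (.d k32 k35 k16 0 3))))), (.s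
  k51 k34 4 (.s k6 k9 2 (.s k35 k19 3 (.s k38 k25 6 (.s k22 k54 3 (.d k41 k44 k60 2 6)))))), (.s k1
  k2 0 (.s k49 k33 3 (.s k9 k6 2 (.s k13 k5 1 (.s k25 k37 5 (.s k41 k57 3 (.d k21 k29 k61 1
  5)))))))] (.c k253 (.q k254 [(.s k1 k2 0 (.s k51 k34 4 (.s k19 k35 3 (.s k18 k16 0 (.d k33 k49 k48
  3 4))))), (.s k51 k34 4 (.s k6 k9 2 (.s k35 k19 3 (.s k38 k25 6 (.s k22 k54 3 (.d k41 k44 k60 2
  6)))))), (.s k1 k2 0 (.s k49 k33 3 (.s k9 k6 2 (.s k13 k5 1 (.s k25 k37 5 (.s k41 k57 3 (.d k21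
  k29 k61 1 5)))))))] .n) (.c k254 (.q k253 [(.s k9 k6 2 (.s k13 k93 11 (.d k1 k2 k5 0 1))), (.s k51
  k34 4 (.s k6 k9 2 (.s k35 k19 3 (.s k38 k25 6 (.s k22 k54 3 (.d k41 k44 k60 2 6)))))), (.s k1 k2 0
  (.s k34 k51 4 (.s k33 k49 3 (.s k48 k18 4 (.d k32 k35 k16 0 3)))))] (.c k14 (.q k174 [(.s k9 k6 2
  (.s k13 k93 11 (.d k1 k2 k5 0 1))), (.s k2 k1 0 (.s k34 k51 4 (.s k18 k50 3 (.s k48 k33 4 (.d k16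
  k19 k32 0 3))))), (.s k51 k34 4 (.s k6 k9 2 (.s k35 k19 3 (.s k38 k25 6 (.s k22 k54 3 (.d k41 k44
  k60 2 6))))))] .n) (.c k174 (.q k14 [(.s k2 k1 0 (.d k6 k10 k9 1 2)), (.s k1 k2 0 (.s k85 k169 13
  (.s k166 k247 12 (.d k90 k80 k242 2 13)))), (.s k51 k34 4 (.s k6 k9 2 (.s k35 k19 3 (.s k38 k25 6
  (.s k22 k54 3 (.d k41 k44 k60 2 6))))))] .n) .n))) .n))) (.c k173 (.q k94 [(.s k1 k2 0 (.s k34 k51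
  4 (.s k33 k49 3 (.s k48 k18 4 (.d k32 k35 k16 0 3))))), (.s k51 k34 4 (.s k6 k9 2 (.s k35 k19 3
  (.s k38 k25 6 (.s k22 k54 3 (.d k41 k44 k60 2 6)))))), (.s k1 k2 0 (.s k49 k33 3 (.s k9 k6 2 (.s
  k13 k5 1 (.s k25 k37 5 (.s k41 k57 3 (.d k21 k29 k61 1 5)))))))] (.c k172 (.q k174 [(.s k2 k1 0
  (.s k6 k9 2 (.d k14 k10 k254 1 11))), (.s k1 k2 0 (.s k34 k51 4 (.s k33 k49 3 (.s k48 k18 4 (.d
  k32 k35 k16 0 3))))), (.s k51 k34 4 (.s k6 k9 2 (.s k35 k19 3 (.s k38 k25 6 (.s k22 k54 3 (.d k41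
  k44 k60 2 6))))))] (.c k253 (.l (.s k254 k14 11 (.s k1 k2 0 (.s k34 k51 4 (.s k33 k49 3 (.s k48
  k18 4 (.d k32 k35 k16 0 3))))))) (.c k254 (.q k253 [(.s k1 k2 0 (.s k85 k169 13 (.s k166 k247 12
  (.s k243 k89 14 (.d k162 k170 k81 1 12))))), (.s k51 k34 4 (.s k6 k9 2 (.s k35 k19 3 (.s k38 k25 6
  (.s k22 k54 3 (.d k41 k44 k60 2 6))))))] (.c k9 (.l (.s k1 k2 0 (.s k34 k51 4 (.s k33 k49 3 (.s
  k48 k18 4 (.d k32 k35 k16 0 3)))))) .n)) .n))) (.c k174 (.q k172 [(.s k1 k2 0 (.s k34 k51 4 (.s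
  k33 k49 3 (.s k48 k18 4 (.d k32 k35 k16 0 3))))), (.s k51 k34 4 (.s k6 k9 2 (.s k35 k19 3 (.s k38
  k25 6 (.s k22 k54 3 (.d k41 k44 k60 2 6)))))), (.s k1 k2 0 (.s k49 k33 3 (.s k9 k6 2 (.s k13 k5 1
  (.s k25 k37 5 (.s k41 k57 3 (.d k21 k29 k61 1 5)))))))] (.c k253 (.q k254 [(.s k1 k2 0 (.s k51 k34
  4 (.s k19 k35 3 (.s k18 k16 0 (.d k33 k49 k48 3 4))))), (.s k2 k1 0 (.s k86 k170 13 (.s k6 k9 2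
  (.s k166 k246 11 (.s k85 k247 12 (.d k90 k82 k80 1 2)))))), (.s k51 k34 4 (.s k6 k9 2 (.s k35 k19
  3 (.s k38 k25 6 (.s k22 k54 3 (.d k41 k44 k60 2 6))))))] (.c k13 (.l (.s k93 k92 0 (.s k1 k2 0 (.s
  k34 k51 4 (.s k33 k49 3 (.s k48 k18 4 (.d k32 k35 k16 0 3))))))) (.c k93 (.q k13 [(.s k1 k2 0 (.d
  k9 k5 k6 1 2)), (.s k51 k34 4 (.s k6 k9 2 (.s k35 k19 3 (.s k38 k25 6 (.s k22 k54 3 (.d k41 k44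
  k60 2 6)))))), (.s k1 k2 0 (.s k51 k34 4 (.s k49 k33 3 (.d k25 k37 k38 5 6))))] .n) .n))) (.c k254
  (.q k253 [(.s k1 k2 0 (.s k85 k169 13 (.s k166 k247 12 (.s k93 k92 0 (.d k89 k243 k81 14 1))))),
  (.s k51 k34 4 (.s k6 k9 2 (.s k35 k19 3 (.s k38 k25 6 (.s k22 k54 3 (.d k41 k44 k60 2 6))))))] .n)
  .n))) (.c k253 (.q k254 [(.s k2 k1 0 (.s k6 k9 2 (.d k14 k10 k174 1 11))), (.s k1 k2 0 (.s k34 k51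
  4 (.s k33 k49 3 (.s k48 k18 4 (.d k32 k35 k16 0 3))))), (.s k51 k34 4 (.s k6 k9 2 (.s k35 k19 3
  (.s k38 k25 6 (.s k22 k54 3 (.d k41 k44 k60 2 6))))))] (.c k13 (.l (.s k93 k92 0 (.s k2 k1 0 (.s
  k6 k9 2 (.s k5 k7 0 (.d k14 k10 k174 1 11)))))) (.c k93 (.q k13 [(.s k1 k2 0 (.d k9 k5 k6 1 2)),
  (.s k51 k34 4 (.s k6 k9 2 (.s k35 k19 3 (.s k38 k25 6 (.s k22 k54 3 (.d k41 k44 k60 2 6)))))), (.s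
  k1 k2 0 (.s k51 k34 4 (.s k49 k33 3 (.d k25 k37 k38 5 6))))] (.c k172 (.l (.s k174 k14 11 (.s k1
  k2 0 (.d k9 k6 k5 2 1)))) (.c k174 (.q k172 [(.s k1 k2 0 (.d k9 k5 k6 1 2)), (.s k51 k34 4 (.s k6
  k9 2 (.s k35 k19 3 (.s k38 k25 6 (.s k22 k54 3 (.d k41 k44 k60 2 6)))))), (.s k1 k2 0 (.s k51 k34
  4 (.s k49 k33 3 (.d k25 k37 k38 5 6))))] .n) .n))) (.c k172 (.l (.s k174 k14 11 (.s k1 k2 0 (.s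
  k34 k51 4 (.s k33 k49 3 (.s k48 k18 4 (.d k32 k35 k16 0 3))))))) (.c k174 (.q k172 [(.s k1 k2 0
  (.s k51 k34 4 (.s k19 k35 3 (.s k18 k16 0 (.d k33 k49 k48 3 4))))), (.s k2 k1 0 (.s k86 k170 13
  (.s k6 k9 2 (.s k166 k246 11 (.s k85 k247 12 (.d k90 k82 k80 1 2)))))), (.s k51 k34 4 (.s k6 k9 2
  (.s k35 k19 3 (.s k38 k25 6 (.s k22 k54 3 (.d k41 k44 k60 2 6))))))] (.c k13 (.l (.s k93 k92 0 (.s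
  k1 k2 0 (.s k34 k51 4 (.s k33 k49 3 (.s k48 k18 4 (.d k32 k35 k16 0 3))))))) (.c k93 (.q k13 [(.s
  k1 k2 0 (.d k9 k5 k6 1 2)), (.s k51 k34 4 (.s k6 k9 2 (.s k35 k19 3 (.s k38 k25 6 (.s k22 k54 3
  (.d k41 k44 k60 2 6)))))), (.s k1 k2 0 (.s k51 k34 4 (.s k49 k33 3 (.d k25 k37 k38 5 6))))] .n)
  .n))) .n))))) (.c k254 (.q k253 [(.s k1 k2 0 (.s k85 k169 13 (.s k166 k247 12 (.s k93 k92 0 (.d
  k89 k243 k81 14 1))))), (.s k51 k34 4 (.s k6 k9 2 (.s k35 k19 3 (.s k38 k25 6 (.s k22 k54 3 (.d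
  k41 k44 k60 2 6))))))] (.c k172 (.q k174 [(.s k1 k2 0 (.s k85 k169 13 (.s k166 k247 12 (.s k243
  k89 14 (.d k162 k170 k81 1 12))))), (.s k51 k34 4 (.s k6 k9 2 (.s k35 k19 3 (.s k38 k25 6 (.s k22
  k54 3 (.d k41 k44 k60 2 6))))))] (.c k9 (.l (.s k1 k2 0 (.s k34 k51 4 (.s k33 k49 3 (.s k48 k18 4
  (.d k32 k35 k16 0 3)))))) .n)) (.c k174 (.q k172 [(.s k1 k2 0 (.s k85 k169 13 (.s k166 k247 12 (.s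
  k93 k92 0 (.d k89 k243 k81 14 1))))), (.s k51 k34 4 (.s k6 k9 2 (.s k35 k19 3 (.s k38 k25 6 (.s
  k22 k54 3 (.d k41 k44 k60 2 6))))))] .n) .n))) .n))))) (.c k253 (.q k254 [(.s k1 k2 0 (.s k51 k34
  4 (.s k19 k35 3 (.s k18 k16 0 (.d k33 k49 k48 3 4))))), (.s k51 k34 4 (.s k6 k9 2 (.s k35 k19 3
  (.s k38 k25 6 (.s k22 k54 3 (.d k41 k44 k60 2 6)))))), (.s k1 k2 0 (.s k49 k33 3 (.s k9 k6 2 (.s
  k13 k5 1 (.s k25 k37 5 (.s k41 k57 3 (.d k21 k29 k61 1 5)))))))] (.c k94 (.q k173 [(.s k1 k2 0 (.s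
  k51 k34 4 (.s k19 k35 3 (.s k18 k16 0 (.d k33 k49 k48 3 4))))), (.s k51 k34 4 (.s k6 k9 2 (.s k35
  k19 3 (.s k38 k25 6 (.s k22 k54 3 (.d k41 k44 k60 2 6)))))), (.s k1 k2 0 (.s k49 k33 3 (.s k9 k6 2
  (.s k13 k5 1 (.s k25 k37 5 (.s k41 k57 3 (.d k21 k29 k61 1 5)))))))] .n) (.c k173 (.q k94 [(.s k2
  k1 0 (.s k6 k9 2 (.d k14 k10 k174 1 11))), (.s k1 k2 0 (.s k34 k51 4 (.s k33 k49 3 (.s k48 k18 4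
  (.d k32 k35 k16 0 3))))), (.s k51 k34 4 (.s k6 k9 2 (.s k35 k19 3 (.s k38 k25 6 (.s k22 k54 3 (.d
  k41 k44 k60 2 6))))))] (.c k13 (.l (.s k93 k92 0 (.s k2 k1 0 (.s k6 k9 2 (.s k5 k7 0 (.d k14 k10
  k174 1 11)))))) (.c k93 (.q k13 [(.s k1 k2 0 (.d k9 k5 k6 1 2)), (.s k51 k34 4 (.s k6 k9 2 (.s k35
  k19 3 (.s k38 k25 6 (.s k22 k54 3 (.d k41 k44 k60 2 6)))))), (.s k1 k2 0 (.s k51 k34 4 (.s k49 k33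
  3 (.d k25 k37 k38 5 6))))] (.c k172 (.l (.s k174 k14 11 (.s k1 k2 0 (.d k9 k6 k5 2 1)))) (.c k174
  (.q k172 [(.s k1 k2 0 (.d k9 k5 k6 1 2)), (.s k51 k34 4 (.s k6 k9 2 (.s k35 k19 3 (.s k38 k25 6
  (.s k22 k54 3 (.d k41 k44 k60 2 6)))))), (.s k1 k2 0 (.s k51 k34 4 (.s k49 k33 3 (.d k25 k37 k38 5
  6))))] .n) .n))) (.c k172 (.l (.s k174 k14 11 (.s k1 k2 0 (.s k34 k51 4 (.s k33 k49 3 (.s k48 k18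
  4 (.d k32 k35 k16 0 3))))))) (.c k174 (.q k172 [(.s k1 k2 0 (.s k51 k34 4 (.s k19 k35 3 (.s k18
  k16 0 (.d k33 k49 k48 3 4))))), (.s k2 k1 0 (.s k86 k170 13 (.s k6 k9 2 (.s k166 k246 11 (.s k85
  k247 12 (.d k90 k82 k80 1 2)))))), (.s k51 k34 4 (.s k6 k9 2 (.s k35 k19 3 (.s k38 k25 6 (.s k22
  k54 3 (.d k41 k44 k60 2 6))))))] (.c k13 (.l (.s k93 k92 0 (.s k1 k2 0 (.s k34 k51 4 (.s k33 k49 3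
  (.s k48 k18 4 (.d k32 k35 k16 0 3))))))) (.c k93 (.q k13 [(.s k1 k2 0 (.d k9 k5 k6 1 2)), (.s k51
  k34 4 (.s k6 k9 2 (.s k35 k19 3 (.s k38 k25 6 (.s k22 k54 3 (.d k41 k44 k60 2 6)))))), (.s k1 k2 0
  (.s k51 k34 4 (.s k49 k33 3 (.d k25 k37 k38 5 6))))] .n) .n))) .n))))) .n))) (.c k254 (.q k253
  [(.s k1 k2 0 (.s k49 k33 3 (.s k85 k169 13 (.s k153 k221 9 (.s k101 k205 13 (.d k117 k69 k185 3
  9)))))), (.s k51 k34 4 (.s k6 k9 2 (.s k35 k19 3 (.s k38 k25 6 (.s k22 k54 3 (.d k41 k44 k60 2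
  6))))))] (.c k94 (.q k173 [(.s k9 k6 2 (.s k13 k93 11 (.d k1 k2 k5 0 1))), (.s k51 k34 4 (.s k6 k9
  2 (.s k35 k19 3 (.s k38 k25 6 (.s k22 k54 3 (.d k41 k44 k60 2 6)))))), (.s k1 k2 0 (.s k34 k51 4
  (.s k33 k49 3 (.s k48 k18 4 (.d k32 k35 k16 0 3)))))] (.c k14 (.q k174 [(.s k9 k6 2 (.s k13 k93 11
  (.d k1 k2 k5 0 1))), (.s k2 k1 0 (.s k34 k51 4 (.s k18 k50 3 (.s k48 k33 4 (.d k16 k19 k32 0
  3))))), (.s k51 k34 4 (.s k6 k9 2 (.s k35 k19 3 (.s k38 k25 6 (.s k22 k54 3 (.d k41 k44 k60 2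
  6))))))] .n) (.c k174 (.q k14 [(.s k2 k1 0 (.d k6 k10 k9 1 2)), (.s k1 k2 0 (.s k85 k169 13 (.s
  k166 k247 12 (.d k90 k80 k242 2 13)))), (.s k51 k34 4 (.s k6 k9 2 (.s k35 k19 3 (.s k38 k25 6 (.s
  k22 k54 3 (.d k41 k44 k60 2 6))))))] .n) .n))) (.c k173 (.q k94 [(.s k1 k2 0 (.s k85 k169 13 (.s
  k166 k247 12 (.s k93 k92 0 (.d k89 k243 k81 14 1))))), (.s k51 k34 4 (.s k6 k9 2 (.s k35 k19 3 (.s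
  k38 k25 6 (.s k22 k54 3 (.d k41 k44 k60 2 6))))))] (.c k172 (.q k174 [(.s k1 k2 0 (.s k85 k169 13
  (.s k166 k247 12 (.s k243 k89 14 (.d k162 k170 k81 1 12))))), (.s k51 k34 4 (.s k6 k9 2 (.s k35
  k19 3 (.s k38 k25 6 (.s k22 k54 3 (.d k41 k44 k60 2 6))))))] (.c k9 (.l (.s k1 k2 0 (.s k34 k51 4
  (.s k33 k49 3 (.s k48 k18 4 (.d k32 k35 k16 0 3)))))) .n)) (.c k174 (.q k172 [(.s k1 k2 0 (.s k85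
  k169 13 (.s k166 k247 12 (.s k93 k92 0 (.d k89 k243 k81 14 1))))), (.s k51 k34 4 (.s k6 k9 2 (.s
  k35 k19 3 (.s k38 k25 6 (.s k22 k54 3 (.d k41 k44 k60 2 6))))))] .n) .n))) .n))) .n))))) (.c k253
  (.q k254 [(.s k1 k2 0 (.s k51 k34 4 (.s k19 k35 3 (.s k18 k16 0 (.d k33 k49 k48 3 4))))), (.s k51
  k34 4 (.s k6 k9 2 (.s k35 k19 3 (.s k38 k25 6 (.s k22 k54 3 (.d k41 k44 k60 2 6)))))), (.s k1 k2 0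
  (.s k49 k33 3 (.s k9 k6 2 (.s k13 k5 1 (.s k25 k37 5 (.s k41 k57 3 (.d k21 k29 k61 1 5)))))))] (.c
  k94 (.q k173 [(.s k1 k2 0 (.s k51 k34 4 (.s k19 k35 3 (.s k18 k16 0 (.d k33 k49 k48 3 4))))), (.s
  k51 k34 4 (.s k6 k9 2 (.s k35 k19 3 (.s k38 k25 6 (.s k22 k54 3 (.d k41 k44 k60 2 6)))))), (.s k1
  k2 0 (.s k49 k33 3 (.s k9 k6 2 (.s k13 k5 1 (.s k25 k37 5 (.s k41 k57 3 (.d k21 k29 k61 1
  5)))))))] (.c k95 (.q k175 [(.s k1 k2 0 (.s k51 k34 4 (.s k19 k35 3 (.s k18 k16 0 (.d k33 k49 k48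
  3 4))))), (.s k2 k1 0 (.s k170 k86 13 (.s k160 k165 2 (.s k240 k80 11 (.s k164 k88 13 (.d k172
  k168 k174 1 0)))))), (.s k51 k34 4 (.s k6 k9 2 (.s k35 k19 3 (.s k38 k25 6 (.s k22 k54 3 (.d k41
  k44 k60 2 6))))))] (.c k92 (.q k93 [(.s k1 k2 0 (.s k51 k34 4 (.s k19 k35 3 (.s k18 k16 0 (.d k33
  k49 k48 3 4))))), (.s k2 k1 0 (.s k86 k170 13 (.s k6 k9 2 (.s k166 k246 11 (.s k85 k247 12 (.d k89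
  k243 k81 14 1)))))), (.s k51 k34 4 (.s k6 k9 2 (.s k35 k19 3 (.s k38 k25 6 (.s k22 k54 3 (.d k41
  k44 k60 2 6))))))] .n) (.c k93 (.q k92 [(.s k1 k2 0 (.s k51 k34 4 (.s k19 k35 3 (.s k18 k16 0 (.d
  k33 k49 k48 3 4))))), (.s k2 k1 0 (.s k86 k170 13 (.s k6 k9 2 (.s k166 k246 11 (.d k89 k243 k83 14
  2))))), (.s k51 k34 4 (.s k6 k9 2 (.s k35 k19 3 (.s k38 k25 6 (.s k22 k54 3 (.d k41 k44 k60 2
  6))))))] .n) .n))) (.c k175 (.q k95 [(.s k1 k2 0 (.s k51 k34 4 (.s k19 k35 3 (.s k18 k16 0 (.d k33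
  k49 k48 3 4))))), (.s k51 k34 4 (.s k6 k9 2 (.s k35 k19 3 (.s k38 k25 6 (.s k22 k54 3 (.d k41 k44
  k60 2 6)))))), (.s k1 k2 0 (.s k49 k33 3 (.s k9 k6 2 (.s k13 k5 1 (.s k25 k37 5 (.s k41 k57 3 (.d
  k21 k29 k61 1 5)))))))] .n) .n))) (.c k95 (.q k175 [(.s k1 k2 0 (.s k51 k34 4 (.s k19 k35 3 (.s
  k18 k16 0 (.d k33 k49 k48 3 4))))), (.s k51 k34 4 (.s k6 k9 2 (.s k35 k19 3 (.s k38 k25 6 (.s k22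
  k54 3 (.d k41 k44 k60 2 6)))))), (.s k1 k2 0 (.s k49 k33 3 (.s k9 k6 2 (.s k13 k5 1 (.s k25 k37 5
  (.s k41 k57 3 (.d k21 k29 k61 1 5)))))))] (.c k94 (.q k173 [(.s k1 k2 0 (.s k51 k34 4 (.s k19 k35
  3 (.s k18 k16 0 (.d k33 k49 k48 3 4))))), (.s k2 k1 0 (.s k170 k86 13 (.s k160 k165 2 (.s k240 k80
  11 (.s k164 k88 13 (.d k172 k168 k174 1 0)))))), (.s k51 k34 4 (.s k6 k9 2 (.s k35 k19 3 (.s k38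
  k25 6 (.s k22 k54 3 (.d k41 k44 k60 2 6))))))] (.c k92 (.q k93 [(.s k1 k2 0 (.s k51 k34 4 (.s k19
  k35 3 (.s k18 k16 0 (.d k33 k49 k48 3 4))))), (.s k2 k1 0 (.s k86 k170 13 (.s k6 k9 2 (.s k166
  k246 11 (.s k85 k247 12 (.d k89 k243 k81 14 1)))))), (.s k51 k34 4 (.s k6 k9 2 (.s k35 k19 3 (.s
  k38 k25 6 (.s k22 k54 3 (.d k41 k44 k60 2 6))))))] .n) (.c k93 (.q k92 [(.s k1 k2 0 (.s k51 k34 4
  (.s k19 k35 3 (.s k18 k16 0 (.d k33 k49 k48 3 4))))), (.s k2 k1 0 (.s k86 k170 13 (.s k6 k9 2 (.s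
  k166 k246 11 (.d k89 k243 k83 14 2))))), (.s k51 k34 4 (.s k6 k9 2 (.s k35 k19 3 (.s k38 k25 6 (.s
  k22 k54 3 (.d k41 k44 k60 2 6))))))] .n) .n))) (.c k173 (.q k94 [(.s k6 k9 2 (.s k14 k174 11 (.d
  k2 k10 k1 1 0))), (.s k1 k2 0 (.s k34 k51 4 (.s k33 k49 3 (.s k48 k18 4 (.d k32 k35 k16 0 3))))),
  (.s k51 k34 4 (.s k6 k9 2 (.s k35 k19 3 (.s k38 k25 6 (.s k22 k54 3 (.d k41 k44 k60 2 6))))))] (.c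
  k13 (.q k93 [(.s k6 k9 2 (.s k14 k174 11 (.d k2 k1 k10 0 1))), (.s k51 k34 4 (.s k9 k6 2 (.s k19
  k35 3 (.s k25 k38 6 (.s k41 k57 3 (.d k22 k28 k60 2 6)))))), (.s k1 k2 0 (.s k34 k51 4 (.s k33 k49
  3 (.s k48 k18 4 (.d k32 k35 k16 0 3)))))] .n) (.c k93 (.q k13 [(.s k1 k2 0 (.d k9 k5 k6 1 2)), (.s
  k51 k34 4 (.s k6 k9 2 (.s k35 k19 3 (.s k38 k25 6 (.s k22 k54 3 (.d k41 k44 k60 2 6)))))), (.s k1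
  k2 0 (.s k51 k34 4 (.s k49 k33 3 (.d k25 k37 k38 5 6))))] .n) .n))) .n))) (.c k173 (.q k94 [(.s k6
  k9 2 (.s k14 k174 11 (.d k2 k10 k1 1 0))), (.s k1 k2 0 (.s k34 k51 4 (.s k33 k49 3 (.s k48 k18 4
  (.d k32 k35 k16 0 3))))), (.s k51 k34 4 (.s k6 k9 2 (.s k35 k19 3 (.s k38 k25 6 (.s k22 k54 3 (.d
  k41 k44 k60 2 6))))))] (.c k13 (.q k93 [(.s k6 k9 2 (.s k14 k174 11 (.d k2 k1 k10 0 1))), (.s k51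
  k34 4 (.s k9 k6 2 (.s k19 k35 3 (.s k25 k38 6 (.s k41 k57 3 (.d k22 k28 k60 2 6)))))), (.s k1 k2 0
  (.s k34 k51 4 (.s k33 k49 3 (.s k48 k18 4 (.d k32 k35 k16 0 3)))))] (.c k95 (.q k175 [(.s k6 k9 2
  (.s k14 k174 11 (.d k2 k1 k10 0 1))), (.s k51 k34 4 (.s k9 k6 2 (.s k19 k35 3 (.s k25 k38 6 (.s
  k41 k57 3 (.d k22 k28 k60 2 6)))))), (.s k1 k2 0 (.s k34 k51 4 (.s k33 k49 3 (.s k48 k18 4 (.d k32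
  k35 k16 0 3)))))] .n) (.c k175 (.l (.s k95 k92 0 (.s k2 k1 0 (.s k6 k9 2 (.s k5 k7 0 (.d k14 k10
  k174 1 11)))))) .n))) (.c k93 (.q k13 [(.s k1 k2 0 (.d k9 k5 k6 1 2)), (.s k51 k34 4 (.s k6 k9 2
  (.s k35 k19 3 (.s k38 k25 6 (.s k22 k54 3 (.d k41 k44 k60 2 6)))))), (.s k1 k2 0 (.s k51 k34 4 (.s
  k49 k33 3 (.d k25 k37 k38 5 6))))] (.c k95 (.q k175 [(.s k1 k2 0 (.d k9 k5 k6 1 2)), (.s k51 k34 4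
  (.s k6 k9 2 (.s k35 k19 3 (.s k38 k25 6 (.s k22 k54 3 (.d k41 k44 k60 2 6)))))), (.s k1 k2 0 (.s
  k51 k34 4 (.s k49 k33 3 (.d k25 k37 k38 5 6))))] .n) (.c k175 (.q k95 [(.s k1 k2 0 (.d k9 k5 k6 1
  2)), (.s k51 k34 4 (.s k6 k9 2 (.s k35 k19 3 (.s k38 k25 6 (.s k22 k54 3 (.d k41 k44 k60 2
  6)))))), (.s k1 k2 0 (.s k51 k34 4 (.s k49 k33 3 (.d k25 k37 k38 5 6))))] (.c k172 (.l (.s k174
  k14 11 (.s k1 k2 0 (.d k9 k6 k5 2 1)))) (.c k174 (.q k172 [(.s k1 k2 0 (.d k9 k5 k6 1 2)), (.s k51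
  k34 4 (.s k6 k9 2 (.s k35 k19 3 (.s k38 k25 6 (.s k22 k54 3 (.d k41 k44 k60 2 6)))))), (.s k1 k2 0
  (.s k51 k34 4 (.s k49 k33 3 (.d k25 k37 k38 5 6))))] .n) .n))) .n))) (.c k95 (.q k175 [(.s k6 k9 2
  (.s k14 k174 11 (.d k2 k10 k1 1 0))), (.s k1 k2 0 (.s k34 k51 4 (.s k33 k49 3 (.s k48 k18 4 (.d
  k32 k35 k16 0 3))))), (.s k51 k34 4 (.s k6 k9 2 (.s k35 k19 3 (.s k38 k25 6 (.s k22 k54 3 (.d k41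
  k44 k60 2 6))))))] (.c k13 (.q k93 [(.s k6 k9 2 (.s k14 k174 11 (.d k2 k1 k10 0 1))), (.s k51 k34
  4 (.s k9 k6 2 (.s k19 k35 3 (.s k25 k38 6 (.s k41 k57 3 (.d k22 k28 k60 2 6)))))), (.s k1 k2 0 (.s
  k34 k51 4 (.s k33 k49 3 (.s k48 k18 4 (.d k32 k35 k16 0 3)))))] .n) (.c k93 (.q k13 [(.s k1 k2 0
  (.d k9 k5 k6 1 2)), (.s k51 k34 4 (.s k6 k9 2 (.s k35 k19 3 (.s k38 k25 6 (.s k22 k54 3 (.d k41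
  k44 k60 2 6)))))), (.s k1 k2 0 (.s k51 k34 4 (.s k49 k33 3 (.d k25 k37 k38 5 6))))] .n) .n))) (.c
  k175 (.q k95 [(.s k2 k1 0 (.s k6 k9 2 (.d k14 k10 k174 1 11))), (.s k1 k2 0 (.s k34 k51 4 (.s k33
  k49 3 (.s k48 k18 4 (.d k32 k35 k16 0 3))))), (.s k51 k34 4 (.s k6 k9 2 (.s k35 k19 3 (.s k38 k25
  6 (.s k22 k54 3 (.d k41 k44 k60 2 6))))))] (.c k13 (.l (.s k93 k92 0 (.s k2 k1 0 (.s k6 k9 2 (.s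
  k5 k7 0 (.d k14 k10 k174 1 11)))))) (.c k93 (.q k13 [(.s k1 k2 0 (.d k9 k5 k6 1 2)), (.s k51 k34 4
  (.s k6 k9 2 (.s k35 k19 3 (.s k38 k25 6 (.s k22 k54 3 (.d k41 k44 k60 2 6)))))), (.s k1 k2 0 (.s
  k51 k34 4 (.s k49 k33 3 (.d k25 k37 k38 5 6))))] (.c k172 (.l (.s k174 k14 11 (.s k1 k2 0 (.d k9
  k6 k5 2 1)))) (.c k174 (.q k172 [(.s k1 k2 0 (.d k9 k5 k6 1 2)), (.s k51 k34 4 (.s k6 k9 2 (.s k35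
  k19 3 (.s k38 k25 6 (.s k22 k54 3 (.d k41 k44 k60 2 6)))))), (.s k1 k2 0 (.s k51 k34 4 (.s k49 k33
  3 (.d k25 k37 k38 5 6))))] .n) .n))) (.c k172 (.l (.s k174 k14 11 (.s k1 k2 0 (.s k34 k51 4 (.s
  k33 k49 3 (.s k48 k18 4 (.d k32 k35 k16 0 3))))))) (.c k174 (.q k172 [(.s k1 k2 0 (.s k51 k34 4
  (.s k19 k35 3 (.s k18 k16 0 (.d k33 k49 k48 3 4))))), (.s k2 k1 0 (.s k86 k170 13 (.s k6 k9 2 (.s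
  k166 k246 11 (.s k85 k247 12 (.d k90 k82 k80 1 2)))))), (.s k51 k34 4 (.s k6 k9 2 (.s k35 k19 3
  (.s k38 k25 6 (.s k22 k54 3 (.d k41 k44 k60 2 6))))))] (.c k13 (.l (.s k93 k92 0 (.s k1 k2 0 (.s
  k34 k51 4 (.s k33 k49 3 (.s k48 k18 4 (.d k32 k35 k16 0 3))))))) (.c k93 (.q k13 [(.s k1 k2 0 (.d
  k9 k5 k6 1 2)), (.s k51 k34 4 (.s k6 k9 2 (.s k35 k19 3 (.s k38 k25 6 (.s k22 k54 3 (.d k41 k44
  k60 2 6)))))), (.s k1 k2 0 (.s k51 k34 4 (.s k49 k33 3 (.d k25 k37 k38 5 6))))] .n) .n))) .n)))))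
  .n))))) (.c k175 (.q k95 [(.s k1 k2 0 (.s k51 k34 4 (.s k19 k35 3 (.s k18 k16 0 (.d k33 k49 k48 3
  4))))), (.s k51 k34 4 (.s k6 k9 2 (.s k35 k19 3 (.s k38 k25 6 (.s k22 k54 3 (.d k41 k44 k60 2
  6)))))), (.s k1 k2 0 (.s k49 k33 3 (.s k9 k6 2 (.s k13 k5 1 (.s k25 k37 5 (.s k41 k57 3 (.d k21
  k29 k61 1 5)))))))] (.c k94 (.q k173 [(.s k1 k2 0 (.s k51 k34 4 (.s k19 k35 3 (.s k18 k16 0 (.d
  k33 k49 k48 3 4))))), (.s k51 k34 4 (.s k6 k9 2 (.s k35 k19 3 (.s k38 k25 6 (.s k22 k54 3 (.d k41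
  k44 k60 2 6)))))), (.s k1 k2 0 (.s k49 k33 3 (.s k9 k6 2 (.s k13 k5 1 (.s k25 k37 5 (.s k41 k57 3
  (.d k21 k29 k61 1 5)))))))] .n) (.c k173 (.q k94 [(.s k2 k1 0 (.s k6 k9 2 (.d k14 k10 k174 1
  11))), (.s k1 k2 0 (.s k34 k51 4 (.s k33 k49 3 (.s k48 k18 4 (.d k32 k35 k16 0 3))))), (.s k51 k34
  4 (.s k6 k9 2 (.s k35 k19 3 (.s k38 k25 6 (.s k22 k54 3 (.d k41 k44 k60 2 6))))))] (.c k13 (.l (.s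
  k93 k92 0 (.s k2 k1 0 (.s k6 k9 2 (.s k5 k7 0 (.d k14 k10 k174 1 11)))))) (.c k93 (.q k13 [(.s k1
  k2 0 (.d k9 k5 k6 1 2)), (.s k51 k34 4 (.s k6 k9 2 (.s k35 k19 3 (.s k38 k25 6 (.s k22 k54 3 (.d
  k41 k44 k60 2 6)))))), (.s k1 k2 0 (.s k51 k34 4 (.s k49 k33 3 (.d k25 k37 k38 5 6))))] (.c k172
  (.l (.s k174 k14 11 (.s k1 k2 0 (.d k9 k6 k5 2 1)))) (.c k174 (.q k172 [(.s k1 k2 0 (.d k9 k5 k6 1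
  2)), (.s k51 k34 4 (.s k6 k9 2 (.s k35 k19 3 (.s k38 k25 6 (.s k22 k54 3 (.d k41 k44 k60 2
  6)))))), (.s k1 k2 0 (.s k51 k34 4 (.s k49 k33 3 (.d k25 k37 k38 5 6))))] .n) .n))) (.c k172 (.l
  (.s k174 k14 11 (.s k1 k2 0 (.s k34 k51 4 (.s k33 k49 3 (.s k48 k18 4 (.d k32 k35 k16 0 3)))))))
  (.c k174 (.q k172 [(.s k1 k2 0 (.s k51 k34 4 (.s k19 k35 3 (.s k18 k16 0 (.d k33 k49 k48 3 4))))),
  (.s k2 k1 0 (.s k86 k170 13 (.s k6 k9 2 (.s k166 k246 11 (.s k85 k247 12 (.d k90 k82 k80 1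
  2)))))), (.s k51 k34 4 (.s k6 k9 2 (.s k35 k19 3 (.s k38 k25 6 (.s k22 k54 3 (.d k41 k44 k60 2
  6))))))] (.c k13 (.l (.s k93 k92 0 (.s k1 k2 0 (.s k34 k51 4 (.s k33 k49 3 (.s k48 k18 4 (.d k32
  k35 k16 0 3))))))) (.c k93 (.q k13 [(.s k1 k2 0 (.d k9 k5 k6 1 2)), (.s k51 k34 4 (.s k6 k9 2 (.s
  k35 k19 3 (.s k38 k25 6 (.s k22 k54 3 (.d k41 k44 k60 2 6)))))), (.s k1 k2 0 (.s k51 k34 4 (.s k49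
  k33 3 (.d k25 k37 k38 5 6))))] .n) .n))) .n))))) .n))) .n))))) (.c k254 (.q k253 [(.s k1 k2 0 (.s
  k49 k33 3 (.s k85 k169 13 (.s k153 k221 9 (.s k101 k205 13 (.d k117 k69 k185 3 9)))))), (.s k51
  k34 4 (.s k6 k9 2 (.s k35 k19 3 (.s k38 k25 6 (.s k22 k54 3 (.d k41 k44 k60 2 6))))))] (.c k94 (.q
  k173 [(.s k9 k6 2 (.s k13 k93 11 (.d k1 k2 k5 0 1))), (.s k51 k34 4 (.s k6 k9 2 (.s k35 k19 3 (.s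
  k38 k25 6 (.s k22 k54 3 (.d k41 k44 k60 2 6)))))), (.s k1 k2 0 (.s k34 k51 4 (.s k33 k49 3 (.s k48
  k18 4 (.d k32 k35 k16 0 3)))))] (.c k14 (.q k174 [(.s k9 k6 2 (.s k13 k93 11 (.d k1 k2 k5 0 1))),
  (.s k2 k1 0 (.s k34 k51 4 (.s k18 k50 3 (.s k48 k33 4 (.d k16 k19 k32 0 3))))), (.s k51 k34 4 (.s
  k6 k9 2 (.s k35 k19 3 (.s k38 k25 6 (.s k22 k54 3 (.d k41 k44 k60 2 6))))))] (.c k95 (.l (.s k175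
  k172 0 (.s k1 k2 0 (.s k34 k51 4 (.s k33 k49 3 (.s k48 k18 4 (.d k32 k35 k16 0 3))))))) (.c k175
  (.q k95 [(.s k9 k6 2 (.s k13 k93 11 (.d k1 k2 k5 0 1))), (.s k2 k1 0 (.s k34 k51 4 (.s k18 k50 3
  (.s k48 k33 4 (.d k16 k19 k32 0 3))))), (.s k51 k34 4 (.s k6 k9 2 (.s k35 k19 3 (.s k38 k25 6 (.s
  k22 k54 3 (.d k41 k44 k60 2 6))))))] .n) .n))) (.c k95 (.q k175 [(.s k1 k2 0 (.s k9 k6 2 (.d k13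
  k93 k5 11 1))), (.s k2 k1 0 (.s k34 k51 4 (.s k18 k50 3 (.s k48 k33 4 (.d k16 k19 k32 0 3))))),
  (.s k51 k34 4 (.s k6 k9 2 (.s k35 k19 3 (.s k38 k25 6 (.s k22 k54 3 (.d k41 k44 k60 2 6))))))] (.c
  k14 (.l (.s k174 k172 0 (.s k1 k2 0 (.s k34 k51 4 (.s k33 k49 3 (.s k48 k18 4 (.d k32 k35 k16 0
  3))))))) (.c k92 (.l (.s k93 k13 11 (.s k1 k2 0 (.s k85 k169 13 (.s k166 k247 12 (.d k89 k243 k81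
  14 1)))))) (.c k93 (.q k92 [(.s k51 k34 4 (.s k6 k9 2 (.s k35 k19 3 (.s k38 k25 6 (.s k22 k54 3
  (.d k41 k44 k60 2 6)))))), (.s k1 k2 0 (.s k49 k33 3 (.s k85 k169 13 (.s k153 k221 9 (.s k101 k205
  13 (.d k117 k69 k185 3 9))))))] (.c k14 (.l (.s k174 k172 0 (.s k1 k2 0 (.s k34 k51 4 (.s k33 k49
  3 (.s k48 k18 4 (.d k32 k35 k16 0 3))))))) (.c k174 (.q k14 [(.s k2 k1 0 (.d k6 k10 k9 1 2)), (.s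
  k1 k2 0 (.s k34 k51 4 (.s k33 k49 3 (.s k48 k18 4 (.d k32 k35 k16 0 3))))), (.s k51 k34 4 (.s k6
  k9 2 (.s k35 k19 3 (.s k38 k25 6 (.s k22 k54 3 (.d k41 k44 k60 2 6))))))] .n) .n))) (.c k174 (.q
  k14 [(.s k2 k1 0 (.d k6 k10 k9 1 2)), (.s k1 k2 0 (.s k34 k51 4 (.s k33 k49 3 (.s k48 k18 4 (.d
  k32 k35 k16 0 3))))), (.s k51 k34 4 (.s k6 k9 2 (.s k35 k19 3 (.s k38 k25 6 (.s k22 k54 3 (.d k41
  k44 k60 2 6))))))] (.c k92 (.l (.s k93 k13 11 (.s k2 k1 0 (.d k6 k9 k10 2 1)))) (.c k93 (.q k92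
  [(.s k2 k1 0 (.d k6 k10 k9 1 2)), (.s k1 k2 0 (.s k34 k51 4 (.s k33 k49 3 (.s k48 k18 4 (.d k32
  k35 k16 0 3))))), (.s k51 k34 4 (.s k6 k9 2 (.s k35 k19 3 (.s k38 k25 6 (.s k22 k54 3 (.d k41 k44
  k60 2 6))))))] .n) .n))) .n))))) (.c k174 (.q k14 [(.s k2 k1 0 (.d k6 k10 k9 1 2)), (.s k1 k2 0
  (.s k34 k51 4 (.s k33 k49 3 (.s k48 k18 4 (.d k32 k35 k16 0 3))))), (.s k51 k34 4 (.s k6 k9 2 (.s
  k35 k19 3 (.s k38 k25 6 (.s k22 k54 3 (.d k41 k44 k60 2 6))))))] (.c k95 (.q k175 [(.s k2 k1 0 (.d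
  k6 k10 k9 1 2)), (.s k1 k2 0 (.s k34 k51 4 (.s k33 k49 3 (.s k48 k18 4 (.d k32 k35 k16 0 3))))),
  (.s k51 k34 4 (.s k6 k9 2 (.s k35 k19 3 (.s k38 k25 6 (.s k22 k54 3 (.d k41 k44 k60 2 6))))))] (.c
  k92 (.l (.s k93 k13 11 (.s k2 k1 0 (.d k6 k9 k10 2 1)))) (.c k93 (.q k92 [(.s k2 k1 0 (.d k6 k10
  k9 1 2)), (.s k1 k2 0 (.s k34 k51 4 (.s k33 k49 3 (.s k48 k18 4 (.d k32 k35 k16 0 3))))), (.s k51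
  k34 4 (.s k6 k9 2 (.s k35 k19 3 (.s k38 k25 6 (.s k22 k54 3 (.d k41 k44 k60 2 6))))))] .n) .n)))
  (.c k175 (.q k95 [(.s k2 k1 0 (.d k6 k10 k9 1 2)), (.s k1 k2 0 (.s k85 k169 13 (.s k166 k247 12
  (.d k90 k80 k242 2 13)))), (.s k51 k34 4 (.s k6 k9 2 (.s k35 k19 3 (.s k38 k25 6 (.s k22 k54 3 (.d
  k41 k44 k60 2 6))))))] .n) .n))) (.c k175 (.q k95 [(.s k9 k6 2 (.s k13 k93 11 (.d k1 k2 k5 0 1))),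
  (.s k51 k34 4 (.s k6 k9 2 (.s k35 k19 3 (.s k38 k25 6 (.s k22 k54 3 (.d k41 k44 k60 2 6)))))), (.s
  k1 k2 0 (.s k34 k51 4 (.s k33 k49 3 (.s k48 k18 4 (.d k32 k35 k16 0 3)))))] (.c k14 (.q k174 [(.s
  k9 k6 2 (.s k13 k93 11 (.d k1 k2 k5 0 1))), (.s k2 k1 0 (.s k34 k51 4 (.s k18 k50 3 (.s k48 k33 4
  (.d k16 k19 k32 0 3))))), (.s k51 k34 4 (.s k6 k9 2 (.s k35 k19 3 (.s k38 k25 6 (.s k22 k54 3 (.d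
  k41 k44 k60 2 6))))))] .n) (.c k174 (.q k14 [(.s k2 k1 0 (.d k6 k10 k9 1 2)), (.s k1 k2 0 (.s k85
  k169 13 (.s k166 k247 12 (.d k90 k80 k242 2 13)))), (.s k51 k34 4 (.s k6 k9 2 (.s k35 k19 3 (.s
  k38 k25 6 (.s k22 k54 3 (.d k41 k44 k60 2 6))))))] .n) .n))) .n))))) (.c k95 (.q k175 [(.s k1 k2 0
  (.s k49 k33 3 (.s k85 k169 13 (.s k153 k221 9 (.s k101 k205 13 (.d k117 k69 k185 3 9)))))), (.s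
  k51 k34 4 (.s k6 k9 2 (.s k35 k19 3 (.s k38 k25 6 (.s k22 k54 3 (.d k41 k44 k60 2 6))))))] (.c k94
  (.q k173 [(.s k1 k2 0 (.s k9 k6 2 (.d k13 k93 k5 11 1))), (.s k2 k1 0 (.s k34 k51 4 (.s k18 k50 3
  (.s k48 k33 4 (.d k16 k19 k32 0 3))))), (.s k51 k34 4 (.s k6 k9 2 (.s k35 k19 3 (.s k38 k25 6 (.s
  k22 k54 3 (.d k41 k44 k60 2 6))))))] (.c k14 (.l (.s k174 k172 0 (.s k1 k2 0 (.s k34 k51 4 (.s k33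
  k49 3 (.s k48 k18 4 (.d k32 k35 k16 0 3))))))) (.c k92 (.l (.s k93 k13 11 (.s k1 k2 0 (.s k85 k169
  13 (.s k166 k247 12 (.d k89 k243 k81 14 1)))))) (.c k93 (.q k92 [(.s k51 k34 4 (.s k6 k9 2 (.s k35
  k19 3 (.s k38 k25 6 (.s k22 k54 3 (.d k41 k44 k60 2 6)))))), (.s k1 k2 0 (.s k49 k33 3 (.s k85
  k169 13 (.s k153 k221 9 (.s k101 k205 13 (.d k117 k69 k185 3 9))))))] (.c k14 (.l (.s k174 k172 0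
  (.s k1 k2 0 (.s k34 k51 4 (.s k33 k49 3 (.s k48 k18 4 (.d k32 k35 k16 0 3))))))) (.c k174 (.q k14
  [(.s k2 k1 0 (.d k6 k10 k9 1 2)), (.s k1 k2 0 (.s k34 k51 4 (.s k33 k49 3 (.s k48 k18 4 (.d k32
  k35 k16 0 3))))), (.s k51 k34 4 (.s k6 k9 2 (.s k35 k19 3 (.s k38 k25 6 (.s k22 k54 3 (.d k41 k44
  k60 2 6))))))] .n) .n))) (.c k174 (.q k14 [(.s k2 k1 0 (.d k6 k10 k9 1 2)), (.s k1 k2 0 (.s k34
  k51 4 (.s k33 k49 3 (.s k48 k18 4 (.d k32 k35 k16 0 3))))), (.s k51 k34 4 (.s k6 k9 2 (.s k35 k19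
  3 (.s k38 k25 6 (.s k22 k54 3 (.d k41 k44 k60 2 6))))))] (.c k92 (.l (.s k93 k13 11 (.s k2 k1 0
  (.d k6 k9 k10 2 1)))) (.c k93 (.q k92 [(.s k2 k1 0 (.d k6 k10 k9 1 2)), (.s k1 k2 0 (.s k34 k51 4
  (.s k33 k49 3 (.s k48 k18 4 (.d k32 k35 k16 0 3))))), (.s k51 k34 4 (.s k6 k9 2 (.s k35 k19 3 (.s
  k38 k25 6 (.s k22 k54 3 (.d k41 k44 k60 2 6))))))] .n) .n))) .n))))) (.c k173 (.q k94 [(.s k51 k34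
  4 (.s k6 k9 2 (.s k35 k19 3 (.s k38 k25 6 (.s k22 k54 3 (.d k41 k44 k60 2 6)))))), (.s k1 k2 0 (.s
  k49 k33 3 (.s k85 k169 13 (.s k153 k221 9 (.s k101 k205 13 (.d k117 k69 k185 3 9))))))] .n) .n)))
  (.c k173 (.q k94 [(.s k51 k34 4 (.s k6 k9 2 (.s k35 k19 3 (.s k38 k25 6 (.s k22 k54 3 (.d k41 k44
  k60 2 6)))))), (.s k1 k2 0 (.s k49 k33 3 (.s k85 k169 13 (.s k153 k221 9 (.s k101 k205 13 (.d k117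
  k69 k185 3 9))))))] (.c k95 (.q k175 [(.s k51 k34 4 (.s k6 k9 2 (.s k35 k19 3 (.s k38 k25 6 (.s
  k22 k54 3 (.d k41 k44 k60 2 6)))))), (.s k1 k2 0 (.s k49 k33 3 (.s k85 k169 13 (.s k153 k221 9 (.s
  k101 k205 13 (.d k117 k69 k185 3 9))))))] .n) (.c k175 (.q k95 [(.s k1 k2 0 (.s k85 k169 13 (.s
  k166 k247 12 (.s k93 k92 0 (.d k89 k243 k81 14 1))))), (.s k51 k34 4 (.s k6 k9 2 (.s k35 k19 3 (.s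
  k38 k25 6 (.s k22 k54 3 (.d k41 k44 k60 2 6))))))] (.c k172 (.q k174 [(.s k1 k2 0 (.s k85 k169 13
  (.s k166 k247 12 (.s k243 k89 14 (.d k162 k170 k81 1 12))))), (.s k51 k34 4 (.s k6 k9 2 (.s k35
  k19 3 (.s k38 k25 6 (.s k22 k54 3 (.d k41 k44 k60 2 6))))))] (.c k9 (.l (.s k1 k2 0 (.s k34 k51 4
  (.s k33 k49 3 (.s k48 k18 4 (.d k32 k35 k16 0 3)))))) .n)) (.c k174 (.q k172 [(.s k1 k2 0 (.s k85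
  k169 13 (.s k166 k247 12 (.s k93 k92 0 (.d k89 k243 k81 14 1))))), (.s k51 k34 4 (.s k6 k9 2 (.s
  k35 k19 3 (.s k38 k25 6 (.s k22 k54 3 (.d k41 k44 k60 2 6))))))] .n) .n))) .n))) (.c k175 (.q k95
  [(.s k1 k2 0 (.s k49 k33 3 (.s k85 k169 13 (.s k153 k221 9 (.s k101 k205 13 (.d k117 k69 k185 3
  9)))))), (.s k51 k34 4 (.s k6 k9 2 (.s k35 k19 3 (.s k38 k25 6 (.s k22 k54 3 (.d k41 k44 k60 2
  6))))))] (.c k94 (.q k173 [(.s k9 k6 2 (.s k13 k93 11 (.d k1 k2 k5 0 1))), (.s k51 k34 4 (.s k6 k9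
  2 (.s k35 k19 3 (.s k38 k25 6 (.s k22 k54 3 (.d k41 k44 k60 2 6)))))), (.s k1 k2 0 (.s k34 k51 4
  (.s k33 k49 3 (.s k48 k18 4 (.d k32 k35 k16 0 3)))))] (.c k14 (.q k174 [(.s k9 k6 2 (.s k13 k93 11
  (.d k1 k2 k5 0 1))), (.s k2 k1 0 (.s k34 k51 4 (.s k18 k50 3 (.s k48 k33 4 (.d k16 k19 k32 0
  3))))), (.s k51 k34 4 (.s k6 k9 2 (.s k35 k19 3 (.s k38 k25 6 (.s k22 k54 3 (.d k41 k44 k60 2
  6))))))] .n) (.c k174 (.q k14 [(.s k2 k1 0 (.d k6 k10 k9 1 2)), (.s k1 k2 0 (.s k85 k169 13 (.s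
  k166 k247 12 (.d k90 k80 k242 2 13)))), (.s k51 k34 4 (.s k6 k9 2 (.s k35 k19 3 (.s k38 k25 6 (.s
  k22 k54 3 (.d k41 k44 k60 2 6))))))] .n) .n))) (.c k173 (.q k94 [(.s k1 k2 0 (.s k85 k169 13 (.s
  k166 k247 12 (.s k93 k92 0 (.d k89 k243 k81 14 1))))), (.s k51 k34 4 (.s k6 k9 2 (.s k35 k19 3 (.s
  k38 k25 6 (.s k22 k54 3 (.d k41 k44 k60 2 6))))))] (.c k172 (.q k174 [(.s k1 k2 0 (.s k85 k169 13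
  (.s k166 k247 12 (.s k243 k89 14 (.d k162 k170 k81 1 12))))), (.s k51 k34 4 (.s k6 k9 2 (.s k35
  k19 3 (.s k38 k25 6 (.s k22 k54 3 (.d k41 k44 k60 2 6))))))] (.c k9 (.l (.s k1 k2 0 (.s k34 k51 4
  (.s k33 k49 3 (.s k48 k18 4 (.d k32 k35 k16 0 3)))))) .n)) (.c k174 (.q k172 [(.s k1 k2 0 (.s k85
  k169 13 (.s k166 k247 12 (.s k93 k92 0 (.d k89 k243 k81 14 1))))), (.s k51 k34 4 (.s k6 k9 2 (.s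
  k35 k19 3 (.s k38 k25 6 (.s k22 k54 3 (.d k41 k44 k60 2 6))))))] .n) .n))) .n))) .n)))))
  .n))))))))

def t252_16 : T TT 256 :=
  (.l (.s k1 k2 0 (.s k8 k4 1 (.s k9 k6 2 (.s k5 k13 1 (.d k10 k11 k15 0 2))))))

def t252_17 : T TT 256 :=
  (.l (.s k1 k2 0 (.s k8 k4 1 (.s k9 k6 2 (.s k5 k13 1 (.d k10 k11 k15 0 2))))))

def t252_18 : T TT 256 :=
  (.l (.s k1 k2 0 (.s k8 k4 1 (.s k9 k6 2 (.s k5 k13 1 (.d k10 k11 k15 0 2))))))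

def t252_19 : T TT 256 :=
  (.l (.s k1 k2 0 (.s k8 k4 1 (.s k9 k6 2 (.s k5 k13 1 (.d k10 k11 k15 0 2))))))

def t252_20 : T TT 256 :=
  (.l (.s k1 k2 0 (.s k8 k4 1 (.s k9 k6 2 (.s k5 k13 1 (.d k10 k11 k15 0 2))))))

def t252_21 : T TT 256 :=
  (.l (.s k1 k2 0 (.s k8 k4 1 (.s k9 k6 2 (.s k5 k13 1 (.d k10 k11 k15 0 2))))))

def t252_22 : T TT 256 :=
  (.l (.s k1 k2 0 (.s k8 k4 1 (.s k9 k6 2 (.s k5 k13 1 (.d k10 k11 k15 0 2))))))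

def t252_23 : T TT 256 :=
  (.l (.s k1 k2 0 (.s k8 k4 1 (.s k9 k6 2 (.s k5 k13 1 (.d k10 k11 k15 0 2))))))

def t252_24 : T TT 256 :=
  (.l (.s k1 k2 0 (.s k8 k4 1 (.s k9 k6 2 (.s k5 k13 1 (.d k10 k11 k15 0 2))))))

def t252_25 : T TT 256 :=
  (.l (.s k1 k2 0 (.s k8 k4 1 (.s k9 k6 2 (.s k5 k13 1 (.d k10 k11 k15 0 2))))))

def t252_26 : T TT 256 :=
  (.l (.s k1 k2 0 (.s k8 k4 1 (.s k9 k6 2 (.s k5 k13 1 (.d k10 k11 k15 0 2))))))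

def t252_27 : T TT 256 :=
  (.l (.s k1 k2 0 (.s k8 k4 1 (.s k9 k6 2 (.s k5 k13 1 (.d k10 k11 k15 0 2))))))

def t252_28 : T TT 256 :=
  (.l (.s k1 k2 0 (.s k8 k4 1 (.s k9 k6 2 (.s k5 k13 1 (.d k10 k11 k15 0 2))))))

def t252_29 : T TT 256 :=
  (.l (.s k1 k2 0 (.s k8 k4 1 (.s k9 k6 2 (.s k5 k13 1 (.d k10 k11 k15 0 2))))))

def t252_30 : T TT 256 :=
  (.l (.s k1 k2 0 (.s k8 k4 1 (.s k9 k6 2 (.s k5 k13 1 (.d k10 k11 k15 0 2))))))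

def t252_31 : T TT 256 :=
  (.l (.s k1 k2 0 (.s k8 k4 1 (.s k9 k6 2 (.s k5 k13 1 (.d k10 k11 k15 0 2))))))

def t252_32 : T TT 256 :=
  (.l (.s k1 k2 0 (.s k8 k4 1 (.s k9 k6 2 (.s k5 k13 1 (.d k10 k11 k15 0 2))))))

def t252_33 : T TT 256 :=
  (.l (.s k1 k2 0 (.s k8 k4 1 (.s k9 k6 2 (.s k5 k13 1 (.d k10 k11 k15 0 2))))))

def t252_34 : T TT 256 :=
  (.l (.s k1 k2 0 (.s k8 k4 1 (.s k9 k6 2 (.s k5 k13 1 (.d k10 k11 k15 0 2))))))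

def t252_35 : T TT 256 :=
  (.l (.s k1 k2 0 (.s k8 k4 1 (.s k9 k6 2 (.s k5 k13 1 (.d k10 k11 k15 0 2))))))

def t252_36 : T TT 256 :=
  (.l (.s k1 k2 0 (.s k8 k4 1 (.s k9 k6 2 (.s k5 k13 1 (.d k10 k11 k15 0 2))))))

def t252_37 : T TT 256 :=
  (.l (.s k1 k2 0 (.s k8 k4 1 (.s k9 k6 2 (.s k5 k13 1 (.d k10 k11 k15 0 2))))))

def t252_38 : T TT 256 :=
  (.l (.s k1 k2 0 (.s k8 k4 1 (.s k9 k6 2 (.s k5 k13 1 (.d k10 k11 k15 0 2))))))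

def t252_39 : T TT 256 :=
  (.l (.s k1 k2 0 (.s k8 k4 1 (.s k9 k6 2 (.s k5 k13 1 (.d k10 k11 k15 0 2))))))

def t252_40 : T TT 256 :=
  (.l (.s k1 k2 0 (.s k8 k4 1 (.s k9 k6 2 (.s k5 k13 1 (.d k10 k11 k15 0 2))))))

def t252_41 : T TT 256 :=
  (.l (.s k1 k2 0 (.s k8 k4 1 (.s k9 k6 2 (.s k5 k13 1 (.d k10 k11 k15 0 2))))))

def t252_42 : T TT 256 :=
  (.l (.s k1 k2 0 (.s k8 k4 1 (.s k9 k6 2 (.s k5 k13 1 (.d k10 k11 k15 0 2))))))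

def t252_43 : T TT 256 :=
  (.l (.s k1 k2 0 (.s k8 k4 1 (.s k9 k6 2 (.s k5 k13 1 (.d k10 k11 k15 0 2))))))

def t252_44 : T TT 256 :=
  (.l (.s k1 k2 0 (.s k8 k4 1 (.s k9 k6 2 (.s k5 k13 1 (.d k10 k11 k15 0 2))))))

def t252_45 : T TT 256 :=
  (.l (.s k1 k2 0 (.s k8 k4 1 (.s k9 k6 2 (.s k5 k13 1 (.d k10 k11 k15 0 2))))))

def t252_46 : T TT 256 :=
  (.l (.s k1 k2 0 (.s k8 k4 1 (.s k9 k6 2 (.s k5 k13 1 (.d k10 k11 k15 0 2))))))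

def t252_47 : T TT 256 :=
  (.l (.s k1 k2 0 (.s k8 k4 1 (.s k9 k6 2 (.s k5 k13 1 (.d k10 k11 k15 0 2))))))

def t252_48 : T TT 256 :=
  (.l (.s k1 k2 0 (.s k8 k4 1 (.s k9 k6 2 (.s k5 k13 1 (.d k10 k11 k15 0 2))))))

def t252_49 : T TT 256 :=
  (.l (.s k1 k2 0 (.s k8 k4 1 (.s k9 k6 2 (.s k5 k13 1 (.d k10 k11 k15 0 2))))))

def t252_50 : T TT 256 :=
  (.l (.s k1 k2 0 (.s k8 k4 1 (.s k9 k6 2 (.s k5 k13 1 (.d k10 k11 k15 0 2))))))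

def t252_51 : T TT 256 :=
  (.l (.s k1 k2 0 (.s k8 k4 1 (.s k9 k6 2 (.s k5 k13 1 (.d k10 k11 k15 0 2))))))

def t252_52 : T TT 256 :=
  (.l (.s k1 k2 0 (.s k8 k4 1 (.s k9 k6 2 (.s k5 k13 1 (.d k10 k11 k15 0 2))))))

def t252_53 : T TT 256 :=
  (.l (.s k1 k2 0 (.s k8 k4 1 (.s k9 k6 2 (.s k5 k13 1 (.d k10 k11 k15 0 2))))))

def t252_54 : T TT 256 :=
  (.l (.s k1 k2 0 (.s k8 k4 1 (.s k9 k6 2 (.s k5 k13 1 (.d k10 k11 k15 0 2))))))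

def t252_55 : T TT 256 :=
  (.l (.s k1 k2 0 (.s k8 k4 1 (.s k9 k6 2 (.s k5 k13 1 (.d k10 k11 k15 0 2))))))

def t252_56 : T TT 256 :=
  (.l (.s k1 k2 0 (.s k8 k4 1 (.s k9 k6 2 (.s k5 k13 1 (.d k10 k11 k15 0 2))))))

def t252_57 : T TT 256 :=
  (.l (.s k1 k2 0 (.s k8 k4 1 (.s k9 k6 2 (.s k5 k13 1 (.d k10 k11 k15 0 2))))))

def t252_58 : T TT 256 :=
  (.l (.s k1 k2 0 (.s k8 k4 1 (.s k9 k6 2 (.s k5 k13 1 (.d k10 k11 k15 0 2))))))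

def t252_59 : T TT 256 :=
  (.l (.s k1 k2 0 (.s k8 k4 1 (.s k9 k6 2 (.s k5 k13 1 (.d k10 k11 k15 0 2))))))

def t252_60 : T TT 256 :=
  (.l (.s k1 k2 0 (.s k8 k4 1 (.s k9 k6 2 (.s k5 k13 1 (.d k10 k11 k15 0 2))))))

def t252_61 : T TT 256 :=
  (.l (.s k1 k2 0 (.s k8 k4 1 (.s k9 k6 2 (.s k5 k13 1 (.d k10 k11 k15 0 2))))))

def t252_62 : T TT 256 :=
  (.l (.s k1 k2 0 (.s k8 k4 1 (.s k9 k6 2 (.s k5 k13 1 (.d k10 k11 k15 0 2))))))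

def t252_63 : T TT 256 :=
  (.l (.s k1 k2 0 (.s k8 k4 1 (.s k9 k6 2 (.s k5 k13 1 (.d k10 k11 k15 0 2))))))

def t252_64 : T TT 256 :=
  (.l (.s k1 k2 0 (.s k8 k4 1 (.s k9 k6 2 (.s k5 k13 1 (.d k10 k11 k15 0 2))))))

def t252_65 : T TT 256 :=
  (.l (.s k1 k2 0 (.s k8 k4 1 (.s k9 k6 2 (.s k5 k13 1 (.d k10 k11 k15 0 2))))))

def t252_66 : T TT 256 :=
  (.l (.s k1 k2 0 (.s k8 k4 1 (.s k9 k6 2 (.s k5 k13 1 (.d k10 k11 k15 0 2))))))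

def t252_67 : T TT 256 :=
  (.l (.s k1 k2 0 (.s k8 k4 1 (.s k9 k6 2 (.s k5 k13 1 (.d k10 k11 k15 0 2))))))

def t252_68 : T TT 256 :=
  (.l (.s k1 k2 0 (.s k8 k4 1 (.s k9 k6 2 (.s k5 k13 1 (.d k10 k11 k15 0 2))))))

def t252_69 : T TT 256 :=
  (.l (.s k1 k2 0 (.s k8 k4 1 (.s k9 k6 2 (.s k5 k13 1 (.d k10 k11 k15 0 2))))))

def t252_70 : T TT 256 :=
  (.l (.s k1 k2 0 (.s k8 k4 1 (.s k9 k6 2 (.s k5 k13 1 (.d k10 k11 k15 0 2))))))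

def t252_71 : T TT 256 :=
  (.l (.s k1 k2 0 (.s k8 k4 1 (.s k9 k6 2 (.s k5 k13 1 (.d k10 k11 k15 0 2))))))

def t252_72 : T TT 256 :=
  (.l (.s k1 k2 0 (.s k8 k4 1 (.s k9 k6 2 (.s k5 k13 1 (.d k10 k11 k15 0 2))))))

def t252_73 : T TT 256 :=
  (.l (.s k1 k2 0 (.s k8 k4 1 (.s k9 k6 2 (.s k5 k13 1 (.d k10 k11 k15 0 2))))))

def t252_74 : T TT 256 :=
  (.l (.s k1 k2 0 (.s k8 k4 1 (.s k9 k6 2 (.s k5 k13 1 (.d k10 k11 k15 0 2))))))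

def t252_75 : T TT 256 :=
  (.l (.s k1 k2 0 (.s k8 k4 1 (.s k9 k6 2 (.s k5 k13 1 (.d k10 k11 k15 0 2))))))

def t252_76 : T TT 256 :=
  (.l (.s k1 k2 0 (.s k8 k4 1 (.s k9 k6 2 (.s k5 k13 1 (.d k10 k11 k15 0 2))))))

def t252_77 : T TT 256 :=
  (.l (.s k1 k2 0 (.s k8 k4 1 (.s k9 k6 2 (.s k5 k13 1 (.d k10 k11 k15 0 2))))))

def t252_78 : T TT 256 :=
  (.l (.s k1 k2 0 (.s k8 k4 1 (.s k9 k6 2 (.s k5 k13 1 (.d k10 k11 k15 0 2))))))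

def t252_79 : T TT 256 :=
  (.l (.s k1 k2 0 (.s k8 k4 1 (.s k9 k6 2 (.s k5 k13 1 (.d k10 k11 k15 0 2))))))

def t252_80 : T TT 256 :=
  (.l (.s k1 k2 0 (.s k8 k4 1 (.s k9 k6 2 (.s k5 k13 1 (.d k10 k11 k15 0 2))))))

def t252_81 : T TT 256 :=
  (.l (.s k1 k2 0 (.s k8 k4 1 (.s k9 k6 2 (.s k5 k13 1 (.d k10 k11 k15 0 2))))))

def t252_82 : T TT 256 :=
  (.l (.s k1 k2 0 (.s k8 k4 1 (.s k9 k6 2 (.s k5 k13 1 (.d k10 k11 k15 0 2))))))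

def t252_83 : T TT 256 :=
  (.l (.s k1 k2 0 (.s k8 k4 1 (.s k9 k6 2 (.s k5 k13 1 (.d k10 k11 k15 0 2))))))

def t252_84 : T TT 256 :=
  (.l (.s k1 k2 0 (.s k8 k4 1 (.s k9 k6 2 (.s k5 k13 1 (.d k10 k11 k15 0 2))))))

def t252_85 : T TT 256 :=
  (.l (.s k1 k2 0 (.s k8 k4 1 (.s k9 k6 2 (.s k5 k13 1 (.d k10 k11 k15 0 2))))))

def t252_86 : T TT 256 :=
  (.l (.s k1 k2 0 (.s k8 k4 1 (.s k9 k6 2 (.s k5 k13 1 (.d k10 k11 k15 0 2))))))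

def t252_87 : T TT 256 :=
  (.l (.s k1 k2 0 (.s k8 k4 1 (.s k9 k6 2 (.s k5 k13 1 (.d k10 k11 k15 0 2))))))

def t252_88 : T TT 256 :=
  (.l (.s k1 k2 0 (.s k8 k4 1 (.s k9 k6 2 (.s k5 k13 1 (.d k10 k11 k15 0 2))))))

def t252_89 : T TT 256 :=
  (.l (.s k1 k2 0 (.s k8 k4 1 (.s k9 k6 2 (.s k5 k13 1 (.d k10 k11 k15 0 2))))))

def t252_90 : T TT 256 :=
  (.l (.s k1 k2 0 (.s k8 k4 1 (.s k9 k6 2 (.s k5 k13 1 (.d k10 k11 k15 0 2))))))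

def t252_91 : T TT 256 :=
  (.l (.s k1 k2 0 (.s k8 k4 1 (.s k9 k6 2 (.s k5 k13 1 (.d k10 k11 k15 0 2))))))

def t252_92 : T TT 256 :=
  (.l (.s k1 k2 0 (.s k8 k4 1 (.s k9 k6 2 (.s k5 k13 1 (.d k10 k11 k15 0 2))))))

def t252_93 : T TT 256 :=
  (.l (.s k1 k2 0 (.s k8 k4 1 (.s k9 k6 2 (.s k5 k13 1 (.d k10 k11 k15 0 2))))))

def t252_94 : T TT 256 :=
  (.l (.s k1 k2 0 (.s k8 k4 1 (.s k9 k6 2 (.s k5 k13 1 (.d k10 k11 k15 0 2))))))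

def t252_95 : T TT 256 :=
  (.l (.s k1 k2 0 (.s k8 k4 1 (.s k9 k6 2 (.s k5 k13 1 (.d k10 k11 k15 0 2))))))

def t252_96 : T TT 256 :=
  (.l (.s k1 k2 0 (.s k8 k4 1 (.s k9 k6 2 (.s k5 k13 1 (.d k10 k11 k15 0 2))))))

def t252_97 : T TT 256 :=
  (.l (.s k1 k2 0 (.s k8 k4 1 (.s k9 k6 2 (.s k5 k13 1 (.d k10 k11 k15 0 2))))))

def t252_98 : T TT 256 :=
  (.l (.s k1 k2 0 (.s k8 k4 1 (.s k9 k6 2 (.s k5 k13 1 (.d k10 k11 k15 0 2))))))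

def t252_99 : T TT 256 :=
  (.l (.s k1 k2 0 (.s k8 k4 1 (.s k9 k6 2 (.s k5 k13 1 (.d k10 k11 k15 0 2))))))

def t252_100 : T TT 256 :=
  (.l (.s k1 k2 0 (.s k8 k4 1 (.s k9 k6 2 (.s k5 k13 1 (.d k10 k11 k15 0 2))))))

def t252_101 : T TT 256 :=
  (.l (.s k1 k2 0 (.s k8 k4 1 (.s k9 k6 2 (.s k5 k13 1 (.d k10 k11 k15 0 2))))))

def t252_102 : T TT 256 :=
  (.l (.s k1 k2 0 (.s k8 k4 1 (.s k9 k6 2 (.s k5 k13 1 (.d k10 k11 k15 0 2))))))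

def t252_103 : T TT 256 :=
  (.l (.s k1 k2 0 (.s k8 k4 1 (.s k9 k6 2 (.s k5 k13 1 (.d k10 k11 k15 0 2))))))

def t252_104 : T TT 256 :=
  (.l (.s k1 k2 0 (.s k8 k4 1 (.s k9 k6 2 (.s k5 k13 1 (.d k10 k11 k15 0 2))))))

def t252_105 : T TT 256 :=
  (.l (.s k1 k2 0 (.s k8 k4 1 (.s k9 k6 2 (.s k5 k13 1 (.d k10 k11 k15 0 2))))))

def t252_106 : T TT 256 :=
  (.l (.s k1 k2 0 (.s k8 k4 1 (.s k9 k6 2 (.s k5 k13 1 (.d k10 k11 k15 0 2))))))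

def t252_107 : T TT 256 :=
  (.l (.s k1 k2 0 (.s k8 k4 1 (.s k9 k6 2 (.s k5 k13 1 (.d k10 k11 k15 0 2))))))

def t252_108 : T TT 256 :=
  (.l (.s k1 k2 0 (.s k8 k4 1 (.s k9 k6 2 (.s k5 k13 1 (.d k10 k11 k15 0 2))))))

def t252_109 : T TT 256 :=
  (.l (.s k1 k2 0 (.s k8 k4 1 (.s k9 k6 2 (.s k5 k13 1 (.d k10 k11 k15 0 2))))))

def t252_110 : T TT 256 :=
  (.l (.s k1 k2 0 (.s k8 k4 1 (.s k9 k6 2 (.s k5 k13 1 (.d k10 k11 k15 0 2))))))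

def t252_111 : T TT 256 :=
  (.l (.s k1 k2 0 (.s k8 k4 1 (.s k9 k6 2 (.s k5 k13 1 (.d k10 k11 k15 0 2))))))

def t252_112 : T TT 256 :=
  (.l (.s k1 k2 0 (.s k8 k4 1 (.s k9 k6 2 (.s k5 k13 1 (.d k10 k11 k15 0 2))))))

def t252_113 : T TT 256 :=
  (.l (.s k1 k2 0 (.s k8 k4 1 (.s k9 k6 2 (.s k5 k13 1 (.d k10 k11 k15 0 2))))))

def t252_114 : T TT 256 :=
  (.l (.s k1 k2 0 (.s k8 k4 1 (.s k9 k6 2 (.s k5 k13 1 (.d k10 k11 k15 0 2))))))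

def t252_115 : T TT 256 :=
  (.l (.s k1 k2 0 (.s k8 k4 1 (.s k9 k6 2 (.s k5 k13 1 (.d k10 k11 k15 0 2))))))

def t252_116 : T TT 256 :=
  (.l (.s k1 k2 0 (.s k8 k4 1 (.s k9 k6 2 (.s k5 k13 1 (.d k10 k11 k15 0 2))))))

def t252_117 : T TT 256 :=
  (.l (.s k1 k2 0 (.s k8 k4 1 (.s k9 k6 2 (.s k5 k13 1 (.d k10 k11 k15 0 2))))))

def t252_118 : T TT 256 :=
  (.l (.s k1 k2 0 (.s k8 k4 1 (.s k9 k6 2 (.s k5 k13 1 (.d k10 k11 k15 0 2))))))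

def t252_119 : T TT 256 :=
  (.l (.s k1 k2 0 (.s k8 k4 1 (.s k9 k6 2 (.s k5 k13 1 (.d k10 k11 k15 0 2))))))

def t252_120 : T TT 256 :=
  (.l (.s k1 k2 0 (.s k8 k4 1 (.s k9 k6 2 (.s k5 k13 1 (.d k10 k11 k15 0 2))))))

def t252_121 : T TT 256 :=
  (.l (.s k1 k2 0 (.s k8 k4 1 (.s k9 k6 2 (.s k5 k13 1 (.d k10 k11 k15 0 2))))))

def t252_122 : T TT 256 :=
  (.l (.s k1 k2 0 (.s k8 k4 1 (.s k9 k6 2 (.s k5 k13 1 (.d k10 k11 k15 0 2))))))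

def t252_123 : T TT 256 :=
  (.l (.s k1 k2 0 (.s k8 k4 1 (.s k9 k6 2 (.s k5 k13 1 (.d k10 k11 k15 0 2))))))

def t252_124 : T TT 256 :=
  (.l (.s k1 k2 0 (.s k8 k4 1 (.s k9 k6 2 (.s k5 k13 1 (.d k10 k11 k15 0 2))))))

def t252_125 : T TT 256 :=
  (.l (.s k1 k2 0 (.s k8 k4 1 (.s k9 k6 2 (.s k5 k13 1 (.d k10 k11 k15 0 2))))))

def t252_126 : T TT 256 :=
  (.l (.s k1 k2 0 (.s k8 k4 1 (.s k9 k6 2 (.s k5 k13 1 (.d k10 k11 k15 0 2))))))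

def t252_127 : T TT 256 :=
  (.l (.s k1 k2 0 (.s k8 k4 1 (.s k9 k6 2 (.s k5 k13 1 (.d k10 k11 k15 0 2))))))

def t252_128 : T TT 256 :=
  (.l (.s k1 k2 0 (.s k8 k4 1 (.s k9 k6 2 (.s k5 k13 1 (.d k10 k11 k15 0 2))))))

def t252_129 : T TT 256 :=
  (.l (.s k1 k2 0 (.s k8 k4 1 (.s k9 k6 2 (.s k5 k13 1 (.d k10 k11 k15 0 2))))))

def t252_130 : T TT 256 :=
  (.l (.s k1 k2 0 (.s k8 k4 1 (.s k9 k6 2 (.s k5 k13 1 (.d k10 k11 k15 0 2))))))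

def t252_131 : T TT 256 :=
  (.l (.s k1 k2 0 (.s k8 k4 1 (.s k9 k6 2 (.s k5 k13 1 (.d k10 k11 k15 0 2))))))

def t252_132 : T TT 256 :=
  (.l (.s k1 k2 0 (.s k8 k4 1 (.s k9 k6 2 (.s k5 k13 1 (.d k10 k11 k15 0 2))))))

def t252_133 : T TT 256 :=
  (.l (.s k1 k2 0 (.s k8 k4 1 (.s k9 k6 2 (.s k5 k13 1 (.d k10 k11 k15 0 2))))))

def t252_134 : T TT 256 :=
  (.l (.s k1 k2 0 (.s k8 k4 1 (.s k9 k6 2 (.s k5 k13 1 (.d k10 k11 k15 0 2))))))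

def t252_135 : T TT 256 :=
  (.l (.s k1 k2 0 (.s k8 k4 1 (.s k9 k6 2 (.s k5 k13 1 (.d k10 k11 k15 0 2))))))

def t252_136 : T TT 256 :=
  (.l (.s k1 k2 0 (.s k8 k4 1 (.s k9 k6 2 (.s k5 k13 1 (.d k10 k11 k15 0 2))))))

def t252_137 : T TT 256 :=
  (.l (.s k1 k2 0 (.s k8 k4 1 (.s k9 k6 2 (.s k5 k13 1 (.d k10 k11 k15 0 2))))))

def t252_138 : T TT 256 :=
  (.l (.s k1 k2 0 (.s k8 k4 1 (.s k9 k6 2 (.s k5 k13 1 (.d k10 k11 k15 0 2))))))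

def t252_139 : T TT 256 :=
  (.l (.s k1 k2 0 (.s k8 k4 1 (.s k9 k6 2 (.s k5 k13 1 (.d k10 k11 k15 0 2))))))

def t252_140 : T TT 256 :=
  (.l (.s k1 k2 0 (.s k8 k4 1 (.s k9 k6 2 (.s k5 k13 1 (.d k10 k11 k15 0 2))))))

def t252_141 : T TT 256 :=
  (.l (.s k1 k2 0 (.s k8 k4 1 (.s k9 k6 2 (.s k5 k13 1 (.d k10 k11 k15 0 2))))))

def t252_142 : T TT 256 :=
  (.l (.s k1 k2 0 (.s k8 k4 1 (.s k9 k6 2 (.s k5 k13 1 (.d k10 k11 k15 0 2))))))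

def t252_143 : T TT 256 :=
  (.l (.s k1 k2 0 (.s k8 k4 1 (.s k9 k6 2 (.s k5 k13 1 (.d k10 k11 k15 0 2))))))

def t252_144 : T TT 256 :=
  (.l (.s k1 k2 0 (.s k8 k4 1 (.s k9 k6 2 (.s k5 k13 1 (.d k10 k11 k15 0 2))))))

def t252_145 : T TT 256 :=
  (.l (.s k1 k2 0 (.s k8 k4 1 (.s k9 k6 2 (.s k5 k13 1 (.d k10 k11 k15 0 2))))))

def t252_146 : T TT 256 :=
  (.l (.s k1 k2 0 (.s k8 k4 1 (.s k9 k6 2 (.s k5 k13 1 (.d k10 k11 k15 0 2))))))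

def t252_147 : T TT 256 :=
  (.l (.s k1 k2 0 (.s k8 k4 1 (.s k9 k6 2 (.s k5 k13 1 (.d k10 k11 k15 0 2))))))

def t252_148 : T TT 256 :=
  (.l (.s k1 k2 0 (.s k8 k4 1 (.s k9 k6 2 (.s k5 k13 1 (.d k10 k11 k15 0 2))))))

def t252_149 : T TT 256 :=
  (.l (.s k1 k2 0 (.s k8 k4 1 (.s k9 k6 2 (.s k5 k13 1 (.d k10 k11 k15 0 2))))))

def t252_150 : T TT 256 :=
  (.l (.s k1 k2 0 (.s k8 k4 1 (.s k9 k6 2 (.s k5 k13 1 (.d k10 k11 k15 0 2))))))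

def t252_151 : T TT 256 :=
  (.l (.s k1 k2 0 (.s k8 k4 1 (.s k9 k6 2 (.s k5 k13 1 (.d k10 k11 k15 0 2))))))

def t252_152 : T TT 256 :=
  (.l (.s k1 k2 0 (.s k8 k4 1 (.s k9 k6 2 (.s k5 k13 1 (.d k10 k11 k15 0 2))))))

def t252_153 : T TT 256 :=
  (.l (.s k1 k2 0 (.s k8 k4 1 (.s k9 k6 2 (.s k5 k13 1 (.d k10 k11 k15 0 2))))))

def t252_154 : T TT 256 :=
  (.l (.s k1 k2 0 (.s k8 k4 1 (.s k9 k6 2 (.s k5 k13 1 (.d k10 k11 k15 0 2))))))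

def t252_155 : T TT 256 :=
  (.l (.s k1 k2 0 (.s k8 k4 1 (.s k9 k6 2 (.s k5 k13 1 (.d k10 k11 k15 0 2))))))

def t252_156 : T TT 256 :=
  (.l (.s k1 k2 0 (.s k8 k4 1 (.s k9 k6 2 (.s k5 k13 1 (.d k10 k11 k15 0 2))))))

def t252_157 : T TT 256 :=
  (.l (.s k1 k2 0 (.s k8 k4 1 (.s k9 k6 2 (.s k5 k13 1 (.d k10 k11 k15 0 2))))))

def t252_158 : T TT 256 :=
  (.l (.s k1 k2 0 (.s k8 k4 1 (.s k9 k6 2 (.s k5 k13 1 (.d k10 k11 k15 0 2))))))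

def t252_159 : T TT 256 :=
  (.l (.s k1 k2 0 (.s k8 k4 1 (.s k9 k6 2 (.s k5 k13 1 (.d k10 k11 k15 0 2))))))

def t252_160 : T TT 256 :=
  (.l (.s k1 k2 0 (.s k8 k4 1 (.s k9 k6 2 (.s k5 k13 1 (.d k10 k11 k15 0 2))))))

def t252_161 : T TT 256 :=
  (.l (.s k1 k2 0 (.s k8 k4 1 (.s k9 k6 2 (.s k5 k13 1 (.d k10 k11 k15 0 2))))))

def t252_162 : T TT 256 :=
  (.l (.s k1 k2 0 (.s k8 k4 1 (.s k9 k6 2 (.s k5 k13 1 (.d k10 k11 k15 0 2))))))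

def t252_163 : T TT 256 :=
  (.l (.s k1 k2 0 (.s k8 k4 1 (.s k9 k6 2 (.s k5 k13 1 (.d k10 k11 k15 0 2))))))

def t252_164 : T TT 256 :=
  (.l (.s k1 k2 0 (.s k8 k4 1 (.s k9 k6 2 (.s k5 k13 1 (.d k10 k11 k15 0 2))))))

def t252_165 : T TT 256 :=
  (.l (.s k1 k2 0 (.s k8 k4 1 (.s k9 k6 2 (.s k5 k13 1 (.d k10 k11 k15 0 2))))))

def t252_166 : T TT 256 :=
  (.l (.s k1 k2 0 (.s k8 k4 1 (.s k9 k6 2 (.s k5 k13 1 (.d k10 k11 k15 0 2))))))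

def t252_167 : T TT 256 :=
  (.l (.s k1 k2 0 (.s k8 k4 1 (.s k9 k6 2 (.s k5 k13 1 (.d k10 k11 k15 0 2))))))

def t252_168 : T TT 256 :=
  (.l (.s k1 k2 0 (.s k8 k4 1 (.s k9 k6 2 (.s k5 k13 1 (.d k10 k11 k15 0 2))))))

def t252_169 : T TT 256 :=
  (.l (.s k1 k2 0 (.s k8 k4 1 (.s k9 k6 2 (.s k5 k13 1 (.d k10 k11 k15 0 2))))))

def t252_170 : T TT 256 :=
  (.l (.s k1 k2 0 (.s k8 k4 1 (.s k9 k6 2 (.s k5 k13 1 (.d k10 k11 k15 0 2))))))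

def t252_171 : T TT 256 :=
  (.l (.s k1 k2 0 (.s k8 k4 1 (.s k9 k6 2 (.s k5 k13 1 (.d k10 k11 k15 0 2))))))

def t252_172 : T TT 256 :=
  (.l (.s k1 k2 0 (.s k8 k4 1 (.s k9 k6 2 (.s k5 k13 1 (.d k10 k11 k15 0 2))))))

def t252_173 : T TT 256 :=
  (.l (.s k1 k2 0 (.s k8 k4 1 (.s k9 k6 2 (.s k5 k13 1 (.d k10 k11 k15 0 2))))))

def t252_174 : T TT 256 :=
  (.l (.s k1 k2 0 (.s k8 k4 1 (.s k9 k6 2 (.s k5 k13 1 (.d k10 k11 k15 0 2))))))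

def t252_175 : T TT 256 :=
  (.l (.s k1 k2 0 (.s k8 k4 1 (.s k9 k6 2 (.s k5 k13 1 (.d k10 k11 k15 0 2))))))

def t252_176 : T TT 256 :=
  (.l (.s k1 k2 0 (.s k8 k4 1 (.s k9 k6 2 (.s k5 k13 1 (.d k10 k11 k15 0 2))))))

def t252_177 : T TT 256 :=
  (.l (.s k1 k2 0 (.s k8 k4 1 (.s k9 k6 2 (.s k5 k13 1 (.d k10 k11 k15 0 2))))))

def t252_178 : T TT 256 :=
  (.l (.s k1 k2 0 (.s k8 k4 1 (.s k9 k6 2 (.s k5 k13 1 (.d k10 k11 k15 0 2))))))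

def t252_179 : T TT 256 :=
  (.l (.s k1 k2 0 (.s k8 k4 1 (.s k9 k6 2 (.s k5 k13 1 (.d k10 k11 k15 0 2))))))

def t252_180 : T TT 256 :=
  (.l (.s k1 k2 0 (.s k8 k4 1 (.s k9 k6 2 (.s k5 k13 1 (.d k10 k11 k15 0 2))))))

def t252_181 : T TT 256 :=
  (.l (.s k1 k2 0 (.s k8 k4 1 (.s k9 k6 2 (.s k5 k13 1 (.d k10 k11 k15 0 2))))))

def t252_182 : T TT 256 :=
  (.l (.s k1 k2 0 (.s k8 k4 1 (.s k9 k6 2 (.s k5 k13 1 (.d k10 k11 k15 0 2))))))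

def t252_183 : T TT 256 :=
  (.l (.s k1 k2 0 (.s k8 k4 1 (.s k9 k6 2 (.s k5 k13 1 (.d k10 k11 k15 0 2))))))

def t252_184 : T TT 256 :=
  (.l (.s k1 k2 0 (.s k8 k4 1 (.s k9 k6 2 (.s k5 k13 1 (.d k10 k11 k15 0 2))))))

def t252_185 : T TT 256 :=
  (.l (.s k1 k2 0 (.s k8 k4 1 (.s k9 k6 2 (.s k5 k13 1 (.d k10 k11 k15 0 2))))))

def t252_186 : T TT 256 :=
  (.l (.s k1 k2 0 (.s k8 k4 1 (.s k9 k6 2 (.s k5 k13 1 (.d k10 k11 k15 0 2))))))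

def t252_187 : T TT 256 :=
  (.l (.s k1 k2 0 (.s k8 k4 1 (.s k9 k6 2 (.s k5 k13 1 (.d k10 k11 k15 0 2))))))

def t252_188 : T TT 256 :=
  (.l (.s k1 k2 0 (.s k8 k4 1 (.s k9 k6 2 (.s k5 k13 1 (.d k10 k11 k15 0 2))))))

def t252_189 : T TT 256 :=
  (.l (.s k1 k2 0 (.s k8 k4 1 (.s k9 k6 2 (.s k5 k13 1 (.d k10 k11 k15 0 2))))))

def t252_190 : T TT 256 :=
  (.l (.s k1 k2 0 (.s k8 k4 1 (.s k9 k6 2 (.s k5 k13 1 (.d k10 k11 k15 0 2))))))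

def t252_191 : T TT 256 :=
  (.l (.s k1 k2 0 (.s k8 k4 1 (.s k9 k6 2 (.s k5 k13 1 (.d k10 k11 k15 0 2))))))

def t252_192 : T TT 256 :=
  (.l (.s k1 k2 0 (.s k8 k4 1 (.s k9 k6 2 (.s k5 k13 1 (.d k10 k11 k15 0 2))))))

def t252_193 : T TT 256 :=
  (.l (.s k1 k2 0 (.s k8 k4 1 (.s k9 k6 2 (.s k5 k13 1 (.d k10 k11 k15 0 2))))))

def t252_194 : T TT 256 :=
  (.l (.s k1 k2 0 (.s k8 k4 1 (.s k9 k6 2 (.s k5 k13 1 (.d k10 k11 k15 0 2))))))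

def t252_195 : T TT 256 :=
  (.l (.s k1 k2 0 (.s k8 k4 1 (.s k9 k6 2 (.s k5 k13 1 (.d k10 k11 k15 0 2))))))

def t252_196 : T TT 256 :=
  (.l (.s k1 k2 0 (.s k8 k4 1 (.s k9 k6 2 (.s k5 k13 1 (.d k10 k11 k15 0 2))))))

def t252_197 : T TT 256 :=
  (.l (.s k1 k2 0 (.s k8 k4 1 (.s k9 k6 2 (.s k5 k13 1 (.d k10 k11 k15 0 2))))))

def t252_198 : T TT 256 :=
  (.l (.s k1 k2 0 (.s k8 k4 1 (.s k9 k6 2 (.s k5 k13 1 (.d k10 k11 k15 0 2))))))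

def t252_199 : T TT 256 :=
  (.l (.s k1 k2 0 (.s k8 k4 1 (.s k9 k6 2 (.s k5 k13 1 (.d k10 k11 k15 0 2))))))

def t252_200 : T TT 256 :=
  (.l (.s k1 k2 0 (.s k8 k4 1 (.s k9 k6 2 (.s k5 k13 1 (.d k10 k11 k15 0 2))))))

def t252_201 : T TT 256 :=
  (.l (.s k1 k2 0 (.s k8 k4 1 (.s k9 k6 2 (.s k5 k13 1 (.d k10 k11 k15 0 2))))))

def t252_202 : T TT 256 :=
  (.l (.s k1 k2 0 (.s k8 k4 1 (.s k9 k6 2 (.s k5 k13 1 (.d k10 k11 k15 0 2))))))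

def t252_203 : T TT 256 :=
  (.l (.s k1 k2 0 (.s k8 k4 1 (.s k9 k6 2 (.s k5 k13 1 (.d k10 k11 k15 0 2))))))

def t252_204 : T TT 256 :=
  (.l (.s k1 k2 0 (.s k8 k4 1 (.s k9 k6 2 (.s k5 k13 1 (.d k10 k11 k15 0 2))))))

def t252_205 : T TT 256 :=
  (.l (.s k1 k2 0 (.s k8 k4 1 (.s k9 k6 2 (.s k5 k13 1 (.d k10 k11 k15 0 2))))))

def t252_206 : T TT 256 :=
  (.l (.s k1 k2 0 (.s k8 k4 1 (.s k9 k6 2 (.s k5 k13 1 (.d k10 k11 k15 0 2))))))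

def t252_207 : T TT 256 :=
  (.l (.s k1 k2 0 (.s k8 k4 1 (.s k9 k6 2 (.s k5 k13 1 (.d k10 k11 k15 0 2))))))

def t252_208 : T TT 256 :=
  (.l (.s k1 k2 0 (.s k8 k4 1 (.s k9 k6 2 (.s k5 k13 1 (.d k10 k11 k15 0 2))))))

def t252_209 : T TT 256 :=
  (.l (.s k1 k2 0 (.s k8 k4 1 (.s k9 k6 2 (.s k5 k13 1 (.d k10 k11 k15 0 2))))))

def t252_210 : T TT 256 :=
  (.l (.s k1 k2 0 (.s k8 k4 1 (.s k9 k6 2 (.s k5 k13 1 (.d k10 k11 k15 0 2))))))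

def t252_211 : T TT 256 :=
  (.l (.s k1 k2 0 (.s k8 k4 1 (.s k9 k6 2 (.s k5 k13 1 (.d k10 k11 k15 0 2))))))

def t252_212 : T TT 256 :=
  (.l (.s k1 k2 0 (.s k8 k4 1 (.s k9 k6 2 (.s k5 k13 1 (.d k10 k11 k15 0 2))))))

def t252_213 : T TT 256 :=
  (.l (.s k1 k2 0 (.s k8 k4 1 (.s k9 k6 2 (.s k5 k13 1 (.d k10 k11 k15 0 2))))))

def t252_214 : T TT 256 :=
  (.l (.s k1 k2 0 (.s k8 k4 1 (.s k9 k6 2 (.s k5 k13 1 (.d k10 k11 k15 0 2))))))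

def t252_215 : T TT 256 :=
  (.l (.s k1 k2 0 (.s k8 k4 1 (.s k9 k6 2 (.s k5 k13 1 (.d k10 k11 k15 0 2))))))

def t252_216 : T TT 256 :=
  (.l (.s k1 k2 0 (.s k8 k4 1 (.s k9 k6 2 (.s k5 k13 1 (.d k10 k11 k15 0 2))))))

def t252_217 : T TT 256 :=
  (.l (.s k1 k2 0 (.s k8 k4 1 (.s k9 k6 2 (.s k5 k13 1 (.d k10 k11 k15 0 2))))))

def t252_218 : T TT 256 :=
  (.l (.s k1 k2 0 (.s k8 k4 1 (.s k9 k6 2 (.s k5 k13 1 (.d k10 k11 k15 0 2))))))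

def t252_219 : T TT 256 :=
  (.l (.s k1 k2 0 (.s k8 k4 1 (.s k9 k6 2 (.s k5 k13 1 (.d k10 k11 k15 0 2))))))

def t252_220 : T TT 256 :=
  (.l (.s k1 k2 0 (.s k8 k4 1 (.s k9 k6 2 (.s k5 k13 1 (.d k10 k11 k15 0 2))))))

def t252_221 : T TT 256 :=
  (.l (.s k1 k2 0 (.s k8 k4 1 (.s k9 k6 2 (.s k5 k13 1 (.d k10 k11 k15 0 2))))))

def t252_222 : T TT 256 :=
  (.l (.s k1 k2 0 (.s k8 k4 1 (.s k9 k6 2 (.s k5 k13 1 (.d k10 k11 k15 0 2))))))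

def t252_223 : T TT 256 :=
  (.l (.s k1 k2 0 (.s k8 k4 1 (.s k9 k6 2 (.s k5 k13 1 (.d k10 k11 k15 0 2))))))

def t252_224 : T TT 256 :=
  (.l (.s k1 k2 0 (.s k8 k4 1 (.s k9 k6 2 (.s k5 k13 1 (.d k10 k11 k15 0 2))))))

def t252_225 : T TT 256 :=
  (.l (.s k1 k2 0 (.s k8 k4 1 (.s k9 k6 2 (.s k5 k13 1 (.d k10 k11 k15 0 2))))))

def t252_226 : T TT 256 :=
  (.l (.s k1 k2 0 (.s k8 k4 1 (.s k9 k6 2 (.s k5 k13 1 (.d k10 k11 k15 0 2))))))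

def t252_227 : T TT 256 :=
  (.l (.s k1 k2 0 (.s k8 k4 1 (.s k9 k6 2 (.s k5 k13 1 (.d k10 k11 k15 0 2))))))

def t252_228 : T TT 256 :=
  (.l (.s k1 k2 0 (.s k8 k4 1 (.s k9 k6 2 (.s k5 k13 1 (.d k10 k11 k15 0 2))))))

def t252_229 : T TT 256 :=
  (.l (.s k1 k2 0 (.s k8 k4 1 (.s k9 k6 2 (.s k5 k13 1 (.d k10 k11 k15 0 2))))))

def t252_230 : T TT 256 :=
  (.l (.s k1 k2 0 (.s k8 k4 1 (.s k9 k6 2 (.s k5 k13 1 (.d k10 k11 k15 0 2))))))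

def t252_231 : T TT 256 :=
  (.l (.s k1 k2 0 (.s k8 k4 1 (.s k9 k6 2 (.s k5 k13 1 (.d k10 k11 k15 0 2))))))

def t252_232 : T TT 256 :=
  (.l (.s k1 k2 0 (.s k8 k4 1 (.s k9 k6 2 (.s k5 k13 1 (.d k10 k11 k15 0 2))))))

def t252_233 : T TT 256 :=
  (.l (.s k1 k2 0 (.s k8 k4 1 (.s k9 k6 2 (.s k5 k13 1 (.d k10 k11 k15 0 2))))))

def t252_234 : T TT 256 :=
  (.l (.s k1 k2 0 (.s k8 k4 1 (.s k9 k6 2 (.s k5 k13 1 (.d k10 k11 k15 0 2))))))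

def t252_235 : T TT 256 :=
  (.l (.s k1 k2 0 (.s k8 k4 1 (.s k9 k6 2 (.s k5 k13 1 (.d k10 k11 k15 0 2))))))

def t252_236 : T TT 256 :=
  (.l (.s k1 k2 0 (.s k8 k4 1 (.s k9 k6 2 (.s k5 k13 1 (.d k10 k11 k15 0 2))))))

def t252_237 : T TT 256 :=
  (.l (.s k1 k2 0 (.s k8 k4 1 (.s k9 k6 2 (.s k5 k13 1 (.d k10 k11 k15 0 2))))))

def t252_238 : T TT 256 :=
  (.l (.s k1 k2 0 (.s k8 k4 1 (.s k9 k6 2 (.s k5 k13 1 (.d k10 k11 k15 0 2))))))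

def t252_239 : T TT 256 :=
  (.l (.s k1 k2 0 (.s k8 k4 1 (.s k9 k6 2 (.s k5 k13 1 (.d k10 k11 k15 0 2))))))

def t252_240 : T TT 256 :=
  (.l (.s k1 k2 0 (.s k8 k4 1 (.s k9 k6 2 (.s k5 k13 1 (.d k10 k11 k15 0 2))))))

def t252_241 : T TT 256 :=
  (.l (.s k1 k2 0 (.s k8 k4 1 (.s k9 k6 2 (.s k5 k13 1 (.d k10 k11 k15 0 2))))))

def t252_242 : T TT 256 :=
  (.l (.s k1 k2 0 (.s k8 k4 1 (.s k9 k6 2 (.s k5 k13 1 (.d k10 k11 k15 0 2))))))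

def t252_243 : T TT 256 :=
  (.l (.s k1 k2 0 (.s k8 k4 1 (.s k9 k6 2 (.s k5 k13 1 (.d k10 k11 k15 0 2))))))

def t252_244 : T TT 256 :=
  (.l (.s k1 k2 0 (.s k8 k4 1 (.s k9 k6 2 (.s k5 k13 1 (.d k10 k11 k15 0 2))))))

def t252_245 : T TT 256 :=
  (.l (.s k1 k2 0 (.s k8 k4 1 (.s k9 k6 2 (.s k5 k13 1 (.d k10 k11 k15 0 2))))))

def t252_246 : T TT 256 :=
  (.l (.s k1 k2 0 (.s k8 k4 1 (.s k9 k6 2 (.s k5 k13 1 (.d k10 k11 k15 0 2))))))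

def t252_247 : T TT 256 :=
  (.l (.s k1 k2 0 (.s k8 k4 1 (.s k9 k6 2 (.s k5 k13 1 (.d k10 k11 k15 0 2))))))

def t252_248 : T TT 256 :=
  (.l (.s k1 k2 0 (.s k8 k4 1 (.s k9 k6 2 (.s k5 k13 1 (.d k10 k11 k15 0 2))))))

def t252_249 : T TT 256 :=
  (.l (.s k1 k2 0 (.s k8 k4 1 (.s k9 k6 2 (.s k5 k13 1 (.d k10 k11 k15 0 2))))))

def t252_250 : T TT 256 :=
  (.l (.s k1 k2 0 (.s k8 k4 1 (.s k9 k6 2 (.s k5 k13 1 (.d k10 k11 k15 0 2))))))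

def t252_251 : T TT 256 :=
  (.l (.s k1 k2 0 (.s k8 k4 1 (.s k9 k6 2 (.s k5 k13 1 (.d k10 k11 k15 0 2))))))

def t252_253 : T TT 256 :=
  (.q k254 [(.s k1 k2 0 (.s k8 k4 1 (.s k9 k6 2 (.s k10 k11 0 (.d k5 k13 k15 1 2))))), (.s k2 k1 0
  (.s k86 k170 13 (.s k6 k9 2 (.s k14 k10 1 (.s k166 k246 11 (.s k90 k242 13 (.d k94 k82 k174 1
  11)))))))] (.c k1 (.f k9 k6 2 (.q k204 [(.s k137 k70 10 (.s k73 k201 7 (.s k140 k76 7 (.d k134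
  k131 k195 2 10)))), (.s k4 k8 1 (.s k68 k136 9 (.s k132 k196 7 (.s k72 k192 9 (.d k76 k64 k140 1
  7))))), (.s k8 k4 1 (.s k136 k68 9 (.s k137 k70 10 (.s k11 k10 0 (.d k200 k72 k74 7 8)))))] (.c
  k85 (.q k169 [(.s k137 k70 10 (.s k73 k201 7 (.s k140 k76 7 (.d k134 k131 k195 2 10)))), (.s k4 k8
  1 (.s k68 k136 9 (.s k132 k196 7 (.s k72 k192 9 (.d k76 k64 k140 1 7))))), (.s k8 k4 1 (.s k136
  k68 9 (.s k137 k70 10 (.s k11 k10 0 (.d k200 k72 k74 7 8)))))] .n) (.c k169 (.q k85 [(.s k137 k70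
  10 (.s k73 k201 7 (.s k140 k76 7 (.d k134 k131 k195 2 10)))), (.s k4 k8 1 (.s k68 k136 9 (.s k132
  k196 7 (.s k72 k192 9 (.d k76 k64 k140 1 7))))), (.s k8 k4 1 (.s k136 k68 9 (.s k137 k70 10 (.s
  k11 k10 0 (.d k200 k72 k74 7 8)))))] .n) .n)))) (.c k2 (.q k204 [(.s k4 k8 1 (.s k68 k136 9 (.s
  k132 k196 7 (.s k76 k140 7 (.d k72 k64 k192 1 9))))), (.s k6 k9 2 (.s k70 k137 10 (.s k134 k198 7
  (.s k73 k195 10 (.d k76 k67 k140 2 7))))), (.s k4 k8 1 (.s k68 k136 9 (.s k6 k9 2 (.s k70 k137 10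
  (.s k7 k5 0 (.d k196 k132 k133 7 8))))))] .n) (.c k5 (.q k204 [(.s k1 k2 0 (.s k136 k68 9 (.s k137
  k70 10 (.s k138 k139 0 (.d k69 k205 k207 9 10))))), (.s k4 k8 1 (.s k68 k136 9 (.s k132 k196 7 (.s
  k72 k192 9 (.d k76 k64 k140 1 7))))), (.s k6 k9 2 (.s k70 k137 10 (.s k134 k198 7 (.s k73 k195 10
  (.d k76 k67 k140 2 7)))))] .n) (.c k6 (.q k204 [(.s k2 k1 0 (.s k68 k136 9 (.s k70 k137 10 (.s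
  k138 k206 9 (.d k69 k71 k207 0 10))))), (.s k4 k8 1 (.s k68 k136 9 (.s k132 k196 7 (.s k72 k192 9
  (.d k76 k64 k140 1 7))))), (.s k1 k2 0 (.s k4 k8 1 (.s k137 k70 10 (.s k69 k205 9 (.s k134 k199 8
  (.d k140 k131 k76 2 7))))))] .n) (.c k8 (.q k22 [(.s k1 k2 0 (.s k41 k60 6 (.s k21 k61 5 (.s k23
  k20 0 (.d k63 k43 k42 5 6))))), (.s k2 k1 0 (.s k42 k62 5 (.s k6 k9 2 (.s k38 k54 3 (.s k34 k46 1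
  (.d k51 k17 k25 4 6)))))), (.s k6 k9 2 (.s k41 k60 6 (.s k38 k54 3 (.s k35 k44 2 (.d k51 k19 k25 3
  6)))))] .n) (.c k9 (.q k22 [(.s k1 k2 0 (.s k41 k60 6 (.s k21 k61 5 (.s k63 k42 6 (.d k23 k20 k43
  0 5))))), (.s k8 k4 1 (.s k60 k41 6 (.s k40 k20 5 (.s k24 k56 3 (.s k36 k48 5 (.d k44 k32 k28 1
  3)))))), (.s k2 k1 0 (.s k8 k4 1 (.s k42 k62 5 (.s k25 k59 4 (.s k19 k28 2 (.d k51 k35 k38 3
  6))))))] .n) (.c k10 (.q k22 [(.s k6 k9 2 (.s k41 k60 6 (.s k38 k54 3 (.s k51 k25 6 (.d k35 k44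
  k19 2 3))))), (.s k2 k1 0 (.s k42 k62 5 (.s k21 k63 6 (.s k60 k41 6 (.d k20 k23 k40 0 5))))), (.s
  k2 k1 0 (.s k8 k4 1 (.s k42 k62 5 (.s k6 k9 2 (.s k38 k54 3 (.d k25 k59 k51 4 6))))))] .n) (.c k11
  (.l (.s k2 k1 0 (.s k4 k8 1 (.s k6 k9 2 (.s k10 k14 1 (.d k5 k7 k15 0 2)))))) (.c k13 (.l (.s k2
  k1 0 (.s k4 k8 1 (.s k6 k9 2 (.s k5 k7 0 (.d k10 k14 k15 1 2)))))) (.c k14 (.l (.s k1 k2 0 (.s k8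
  k4 1 (.s k9 k6 2 (.s k10 k11 0 (.d k5 k13 k15 1 2)))))) .n)))))))))))

def t252_254 : T TT 256 :=
  (.q k253 [(.s k2 k1 0 (.s k4 k8 1 (.s k6 k9 2 (.s k5 k7 0 (.d k10 k14 k15 1 2))))), (.s k1 k2 0
  (.s k169 k85 13 (.s k9 k6 2 (.s k13 k5 1 (.s k89 k249 11 (.s k165 k241 13 (.d k173 k161 k93 1
  11)))))))] (.c k1 (.q k70 [(.s k9 k6 2 (.s k137 k204 10 (.s k73 k201 7 (.s k195 k134 10 (.d k67
  k76 k131 2 7))))), (.s k4 k8 1 (.s k204 k137 10 (.s k68 k136 9 (.s k132 k196 7 (.s k72 k192 9 (.d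
  k76 k64 k140 1 7)))))), (.s k4 k8 1 (.s k6 k9 2 (.s k134 k198 7 (.s k69 k199 8 (.s k207 k138 10
  (.d k71 k68 k139 0 9))))))] .n) (.c k2 (.q k70 [(.s k6 k9 2 (.s k137 k204 10 (.s k134 k198 7 (.s
  k195 k73 10 (.d k131 k140 k67 2 7))))), (.s k4 k8 1 (.s k204 k137 10 (.s k68 k136 9 (.s k132 k196
  7 (.s k72 k192 9 (.d k76 k64 k140 1 7)))))), (.s k4 k8 1 (.s k6 k9 2 (.s k134 k198 7 (.s k69 k199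
  8 (.s k207 k138 10 (.d k71 k68 k139 0 9))))))] (.c k86 (.q k170 [(.s k6 k9 2 (.s k137 k204 10 (.s
  k134 k198 7 (.s k195 k73 10 (.d k131 k140 k67 2 7))))), (.s k4 k8 1 (.s k204 k137 10 (.s k68 k136
  9 (.s k132 k196 7 (.s k72 k192 9 (.d k76 k64 k140 1 7)))))), (.s k4 k8 1 (.s k6 k9 2 (.s k134 k198
  7 (.s k69 k199 8 (.s k207 k138 10 (.d k71 k68 k139 0 9))))))] .n) (.c k170 (.q k86 [(.s k6 k9 2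
  (.s k137 k204 10 (.s k134 k198 7 (.s k195 k73 10 (.d k131 k140 k67 2 7))))), (.s k4 k8 1 (.s k204
  k137 10 (.s k68 k136 9 (.s k132 k196 7 (.s k72 k192 9 (.d k76 k64 k140 1 7)))))), (.s k4 k8 1 (.s
  k6 k9 2 (.s k134 k198 7 (.s k69 k199 8 (.s k207 k138 10 (.d k71 k68 k139 0 9))))))] .n) .n))) (.c
  k4 (.q k70 [(.s k2 k1 0 (.s k204 k137 10 (.s k68 k136 9 (.s k69 k71 0 (.d k138 k206 k207 9
  10))))), (.s k6 k9 2 (.s k137 k204 10 (.s k134 k198 7 (.s k195 k73 10 (.d k131 k140 k67 2 7))))),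
  (.s k2 k1 0 (.s k138 k206 9 (.s k6 k9 2 (.s k134 k198 7 (.s k130 k142 1 (.d k195 k65 k73 8
  10))))))] .n) (.c k5 (.q k70 [(.s k2 k1 0 (.s k204 k137 10 (.s k68 k136 9 (.s k69 k71 0 (.d k138
  k206 k207 9 10))))), (.s k9 k6 2 (.s k137 k204 10 (.s k73 k201 7 (.s k195 k134 10 (.d k67 k76 k131
  2 7))))), (.s k2 k1 0 (.s k8 k4 1 (.s k138 k206 9 (.s k73 k203 8 (.s k134 k195 10 (.d k6 k9 k198 2
  7))))))] (.c k9 (.l (.s k1 k2 0 (.s k137 k204 10 (.s k69 k205 9 (.s k207 k138 10 (.d k71 k68 k139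
  0 9)))))) .n)) (.c k6 (.q k70 [(.s k2 k1 0 (.s k204 k137 10 (.s k68 k136 9 (.s k69 k71 0 (.d k138
  k206 k207 9 10))))), (.s k2 k1 0 (.s k8 k4 1 (.s k138 k206 9 (.s k73 k203 8 (.s k67 k76 2 (.d k195
  k131 k134 7 10)))))), (.s k8 k4 1 (.s k204 k137 10 (.s k136 k68 9 (.s k72 k200 7 (.s k132 k192 9
  (.d k140 k128 k76 1 7))))))] .n) (.c k7 (.l (.s k1 k2 0 (.s k8 k4 1 (.s k9 k6 2 (.s k5 k13 1 (.d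
  k10 k11 k15 0 2)))))) (.c k9 (.q k70 [(.s k2 k1 0 (.s k8 k4 1 (.s k138 k206 9 (.s k73 k203 8 (.s
  k67 k76 2 (.d k195 k131 k134 7 10)))))), (.s k8 k4 1 (.s k204 k137 10 (.s k136 k68 9 (.s k72 k200
  7 (.s k132 k192 9 (.d k140 k128 k76 1 7)))))), (.s k1 k2 0 (.s k137 k204 10 (.s k69 k205 9 (.s
  k207 k138 10 (.d k71 k68 k139 0 9)))))] .n) (.c k10 (.q k70 [(.s k2 k1 0 (.s k204 k137 10 (.s k68
  k136 9 (.s k69 k71 0 (.d k138 k206 k207 9 10))))), (.s k6 k9 2 (.s k137 k204 10 (.s k134 k198 7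
  (.s k195 k73 10 (.d k131 k140 k67 2 7))))), (.s k2 k1 0 (.s k8 k4 1 (.s k138 k206 9 (.s k6 k9 2
  (.s k134 k198 7 (.d k73 k203 k195 8 10))))))] .n) (.c k13 (.l (.s k2 k1 0 (.s k4 k8 1 (.s k6 k9 2
  (.s k5 k7 0 (.d k10 k14 k15 1 2)))))) (.c k14 (.l (.s k1 k2 0 (.s k8 k4 1 (.s k9 k6 2 (.s k10 k11
  0 (.d k5 k13 k15 1 2)))))) .n)))))))))))

def t252 : T TT 256 :=
  (.q k12 [] (.c k1 t252_1 (.c k2 t252_2 (.c k4 t252_4 (.c k5 t252_5 (.c k6 t252_6 (.c k7 t252_7 (.c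
  k8 t252_8 (.c k9 t252_9 (.c k10 t252_10 (.c k11 t252_11 (.c k13 t252_13 (.c k14 t252_14 (.c k15
  t252_15 (.c k16 t252_16 (.c k17 t252_17 (.c k18 t252_18 (.c k19 t252_19 (.c k20 t252_20 (.c k21
  t252_21 (.c k22 t252_22 (.c k23 t252_23 (.c k24 t252_24 (.c k25 t252_25 (.c k26 t252_26 (.c k27
  t252_27 (.c k28 t252_28 (.c k29 t252_29 (.c k30 t252_30 (.c k31 t252_31 (.c k32 t252_32 (.c k33
  t252_33 (.c k34 t252_34 (.c k35 t252_35 (.c k36 t252_36 (.c k37 t252_37 (.c k38 t252_38 (.c k39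
  t252_39 (.c k40 t252_40 (.c k41 t252_41 (.c k42 t252_42 (.c k43 t252_43 (.c k44 t252_44 (.c k45
  t252_45 (.c k46 t252_46 (.c k47 t252_47 (.c k48 t252_48 (.c k49 t252_49 (.c k50 t252_50 (.c k51
  t252_51 (.c k52 t252_52 (.c k53 t252_53 (.c k54 t252_54 (.c k55 t252_55 (.c k56 t252_56 (.c k57
  t252_57 (.c k58 t252_58 (.c k59 t252_59 (.c k60 t252_60 (.c k61 t252_61 (.c k62 t252_62 (.c k63
  t252_63 (.c k64 t252_64 (.c k65 t252_65 (.c k66 t252_66 (.c k67 t252_67 (.c k68 t252_68 (.c k69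
  t252_69 (.c k70 t252_70 (.c k71 t252_71 (.c k72 t252_72 (.c k73 t252_73 (.c k74 t252_74 (.c k75
  t252_75 (.c k76 t252_76 (.c k77 t252_77 (.c k78 t252_78 (.c k79 t252_79 (.c k80 t252_80 (.c k81
  t252_81 (.c k82 t252_82 (.c k83 t252_83 (.c k84 t252_84 (.c k85 t252_85 (.c k86 t252_86 (.c k87
  t252_87 (.c k88 t252_88 (.c k89 t252_89 (.c k90 t252_90 (.c k91 t252_91 (.c k92 t252_92 (.c k93
  t252_93 (.c k94 t252_94 (.c k95 t252_95 (.c k96 t252_96 (.c k97 t252_97 (.c k98 t252_98 (.c k99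
  t252_99 (.c k100 t252_100 (.c k101 t252_101 (.c k102 t252_102 (.c k103 t252_103 (.c k104 t252_104
  (.c k105 t252_105 (.c k106 t252_106 (.c k107 t252_107 (.c k108 t252_108 (.c k109 t252_109 (.c k110
  t252_110 (.c k111 t252_111 (.c k112 t252_112 (.c k113 t252_113 (.c k114 t252_114 (.c k115 t252_115
  (.c k116 t252_116 (.c k117 t252_117 (.c k118 t252_118 (.c k119 t252_119 (.c k120 t252_120 (.c k121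
  t252_121 (.c k122 t252_122 (.c k123 t252_123 (.c k124 t252_124 (.c k125 t252_125 (.c k126 t252_126
  (.c k127 t252_127 (.c k128 t252_128 (.c k129 t252_129 (.c k130 t252_130 (.c k131 t252_131 (.c k132
  t252_132 (.c k133 t252_133 (.c k134 t252_134 (.c k135 t252_135 (.c k136 t252_136 (.c k137 t252_137
  (.c k138 t252_138 (.c k139 t252_139 (.c k140 t252_140 (.c k141 t252_141 (.c k142 t252_142 (.c k143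
  t252_143 (.c k144 t252_144 (.c k145 t252_145 (.c k146 t252_146 (.c k147 t252_147 (.c k148 t252_148
  (.c k149 t252_149 (.c k150 t252_150 (.c k151 t252_151 (.c k152 t252_152 (.c k153 t252_153 (.c k154
  t252_154 (.c k155 t252_155 (.c k156 t252_156 (.c k157 t252_157 (.c k158 t252_158 (.c k159 t252_159
  (.c k160 t252_160 (.c k161 t252_161 (.c k162 t252_162 (.c k163 t252_163 (.c k164 t252_164 (.c k165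
  t252_165 (.c k166 t252_166 (.c k167 t252_167 (.c k168 t252_168 (.c k169 t252_169 (.c k170 t252_170
  (.c k171 t252_171 (.c k172 t252_172 (.c k173 t252_173 (.c k174 t252_174 (.c k175 t252_175 (.c k176
  t252_176 (.c k177 t252_177 (.c k178 t252_178 (.c k179 t252_179 (.c k180 t252_180 (.c k181 t252_181
  (.c k182 t252_182 (.c k183 t252_183 (.c k184 t252_184 (.c k185 t252_185 (.c k186 t252_186 (.c k187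
  t252_187 (.c k188 t252_188 (.c k189 t252_189 (.c k190 t252_190 (.c k191 t252_191 (.c k192 t252_192
  (.c k193 t252_193 (.c k194 t252_194 (.c k195 t252_195 (.c k196 t252_196 (.c k197 t252_197 (.c k198
  t252_198 (.c k199 t252_199 (.c k200 t252_200 (.c k201 t252_201 (.c k202 t252_202 (.c k203 t252_203
  (.c k204 t252_204 (.c k205 t252_205 (.c k206 t252_206 (.c k207 t252_207 (.c k208 t252_208 (.c k209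
  t252_209 (.c k210 t252_210 (.c k211 t252_211 (.c k212 t252_212 (.c k213 t252_213 (.c k214 t252_214
  (.c k215 t252_215 (.c k216 t252_216 (.c k217 t252_217 (.c k218 t252_218 (.c k219 t252_219 (.c k220
  t252_220 (.c k221 t252_221 (.c k222 t252_222 (.c k223 t252_223 (.c k224 t252_224 (.c k225 t252_225
  (.c k226 t252_226 (.c k227 t252_227 (.c k228 t252_228 (.c k229 t252_229 (.c k230 t252_230 (.c k231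
  t252_231 (.c k232 t252_232 (.c k233 t252_233 (.c k234 t252_234 (.c k235 t252_235 (.c k236 t252_236
  (.c k237 t252_237 (.c k238 t252_238 (.c k239 t252_239 (.c k240 t252_240 (.c k241 t252_241 (.c k242
  t252_242 (.c k243 t252_243 (.c k244 t252_244 (.c k245 t252_245 (.c k246 t252_246 (.c k247 t252_247
  (.c k248 t252_248 (.c k249 t252_249 (.c k250 t252_250 (.c k251 t252_251 (.c k253 t252_253 (.c k254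
  t252_254 .n))))))))))))))))))))))))))))))))))))))))))))))))))))))))))))))))))))))))))))))))
  ))))))))))))))))))))))))))))))))))))))))))))))))))))))))))))))))))))))))))))))))
  )))))))))))))))))))))))))))))))))))))))))))))))))))))))))))))))))))))))))))))))) ))))))))))))

def t253 : T TT 256 :=
  (.q k12 [(.s k1 k2 0 (.s k8 k4 1 (.s k9 k6 2 (.s k10 k11 0 (.d k5 k13 k15 1 2)))))] (.c k1 (.q
  k252 [(.s k4 k8 1 (.s k84 k168 13 (.s k164 k244 11 (.s k92 k172 11 (.d k88 k80 k240 1 13))))), (.s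
  k9 k6 2 (.s k169 k86 14 (.s k89 k249 11 (.s k166 k243 14 (.d k172 k163 k92 2 11))))), (.s k4 k8 1
  (.s k84 k168 13 (.s k6 k9 2 (.s k86 k169 14 (.s k85 k87 0 (.d k166 k246 k247 11 12))))))] (.c k85
  (.l (.s k169 k86 14 (.s k9 k6 2 (.s k89 k249 11 (.s k166 k243 14 (.d k172 k163 k92 2 11)))))) (.c
  k169 (.q k85 [(.s k4 k8 1 (.s k84 k168 13 (.s k164 k244 11 (.s k88 k240 13 (.d k92 k80 k172 1
  11))))), (.s k4 k8 1 (.s k6 k9 2 (.s k166 k247 12 (.s k246 k86 11 (.d k243 k249 k89 2 14))))), (.s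
  k84 k168 13 (.s k6 k9 2 (.s k92 k172 11 (.s k86 k87 0 (.s k166 k246 11 (.d k89 k83 k243 2
  14))))))] .n) .n))) (.c k2 (.q k252 [(.s k4 k8 1 (.s k84 k168 13 (.s k164 k244 11 (.s k92 k172 11
  (.d k88 k80 k240 1 13))))), (.s k6 k9 2 (.s k86 k169 14 (.s k166 k246 11 (.s k89 k243 14 (.d k92
  k83 k172 2 11))))), (.s k4 k8 1 (.s k84 k168 13 (.s k6 k9 2 (.s k86 k169 14 (.s k7 k5 0 (.d k244
  k164 k165 11 12))))))] .n) (.c k4 (.q k42 [(.s k1 k2 0 (.s k21 k63 6 (.s k41 k61 5 (.s k60 k22 6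
  (.d k40 k43 k20 0 5))))), (.s k2 k1 0 (.s k22 k62 5 (.s k6 k9 2 (.s k38 k54 3 (.s k34 k46 1 (.d
  k51 k17 k25 4 6)))))), (.s k63 k21 6 (.s k6 k9 2 (.s k43 k23 5 (.s k46 k29 4 (.s k38 k34 1 (.s k22
  k54 3 (.d k41 k40 k60 0 6)))))))] (.c k22 (.l (.s k1 k2 0 (.s k21 k63 6 (.s k41 k61 5 (.s k9 k6 2
  (.s k25 k57 3 (.s k17 k29 1 (.d k51 k38 k34 6 4)))))))) (.c k252 (.q k254 [(.s k1 k2 0 (.s k21 k63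
  6 (.s k41 k61 5 (.s k60 k22 6 (.d k40 k43 k20 0 5))))), (.s k2 k1 0 (.s k22 k62 5 (.s k6 k9 2 (.s
  k38 k54 3 (.s k34 k46 1 (.d k51 k17 k25 4 6)))))), (.s k63 k21 6 (.s k6 k9 2 (.s k43 k23 5 (.s k46
  k29 4 (.s k38 k34 1 (.s k22 k54 3 (.d k41 k40 k60 0 6)))))))] (.c k22 (.l (.s k1 k2 0 (.s k21 k63
  6 (.s k41 k61 5 (.s k9 k6 2 (.s k25 k57 3 (.s k17 k29 1 (.d k51 k38 k34 6 4)))))))) .n)) (.c k254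
  (.q k252 [(.s k1 k2 0 (.s k21 k63 6 (.s k41 k61 5 (.s k60 k22 6 (.d k40 k43 k20 0 5))))), (.s k6
  k9 2 (.s k86 k169 14 (.s k166 k246 11 (.s k89 k243 14 (.d k92 k83 k172 2 11)))))] (.c k1 (.l (.s
  k9 k6 2 (.s k169 k86 14 (.s k89 k249 11 (.s k166 k243 14 (.d k172 k163 k92 2 11)))))) (.c k86 (.l
  (.s k2 k1 0 (.s k21 k63 6 (.s k22 k62 5 (.s k60 k41 6 (.d k20 k23 k40 0 5)))))) .n))) .n)))) (.c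
  k5 (.q k252 [(.s k4 k8 1 (.s k84 k168 13 (.s k164 k244 11 (.s k92 k172 11 (.d k88 k80 k240 1
  13))))), (.s k6 k9 2 (.s k86 k169 14 (.s k166 k246 11 (.s k89 k243 14 (.d k92 k83 k172 2 11))))),
  (.s k4 k8 1 (.s k84 k168 13 (.s k6 k9 2 (.s k86 k169 14 (.s k166 k246 11 (.d k85 k87 k247 0
  12))))))] .n) (.c k6 (.q k252 [(.s k4 k8 1 (.s k84 k168 13 (.s k164 k244 11 (.s k92 k172 11 (.d
  k88 k80 k240 1 13))))), (.s k8 k4 1 (.s k86 k169 14 (.s k92 k172 11 (.s k89 k83 2 (.s k170 k251 12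
  (.d k2 k1 k254 0 13)))))), (.s k84 k168 13 (.s k86 k169 14 (.s k92 k172 11 (.s k89 k83 2 (.s k85
  k87 0 (.s k81 k93 1 (.d k243 k166 k162 14 12))))))), (.s k8 k4 1 (.s k168 k84 13 (.s k169 k86 14
  (.s k170 k171 0 (.s k89 k251 12 (.s k249 k9 11 (.d k243 k246 k166 2 14)))))))] .n) (.c k7 (.l (.s
  k1 k2 0 (.s k8 k4 1 (.s k9 k6 2 (.s k5 k13 1 (.d k10 k11 k15 0 2)))))) (.c k8 (.q k42 [(.s k1 k2 0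
  (.s k21 k63 6 (.s k41 k61 5 (.s k60 k22 6 (.d k40 k43 k20 0 5))))), (.s k2 k1 0 (.s k22 k62 5 (.s
  k6 k9 2 (.s k38 k54 3 (.s k34 k46 1 (.d k51 k17 k25 4 6)))))), (.s k63 k21 6 (.s k6 k9 2 (.s k43
  k23 5 (.s k46 k29 4 (.s k38 k34 1 (.s k22 k54 3 (.d k41 k40 k60 0 6)))))))] (.c k22 (.l (.s k1 k2
  0 (.s k21 k63 6 (.s k41 k61 5 (.s k9 k6 2 (.s k25 k57 3 (.s k17 k29 1 (.d k51 k38 k34 6 4))))))))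
  (.c k252 (.q k254 [(.s k1 k2 0 (.s k21 k63 6 (.s k41 k61 5 (.s k60 k22 6 (.d k40 k43 k20 0 5))))),
  (.s k2 k1 0 (.s k22 k62 5 (.s k6 k9 2 (.s k38 k54 3 (.s k34 k46 1 (.d k51 k17 k25 4 6)))))), (.s
  k63 k21 6 (.s k6 k9 2 (.s k43 k23 5 (.s k46 k29 4 (.s k38 k34 1 (.s k22 k54 3 (.d k41 k40 k60 0
  6)))))))] (.c k22 (.l (.s k1 k2 0 (.s k21 k63 6 (.s k41 k61 5 (.s k9 k6 2 (.s k25 k57 3 (.s k17
  k29 1 (.d k51 k38 k34 6 4)))))))) .n)) (.c k254 (.q k252 [(.s k2 k1 0 (.s k63 k21 6 (.s k22 k62 5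
  (.s k41 k60 6 (.d k43 k40 k23 0 5))))), (.s k9 k6 2 (.s k169 k86 14 (.s k89 k249 11 (.s k166 k243
  14 (.d k172 k163 k92 2 11)))))] (.c k2 (.l (.s k6 k9 2 (.s k86 k169 14 (.s k166 k246 11 (.s k89
  k243 14 (.d k92 k83 k172 2 11)))))) (.c k169 (.l (.s k1 k2 0 (.s k21 k63 6 (.s k41 k61 5 (.s k60
  k22 6 (.d k40 k43 k20 0 5)))))) .n))) .n)))) (.c k9 (.q k252 [(.s k8 k4 1 (.s k172 k92 11 (.s k168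
  k84 13 (.s k164 k160 1 (.d k88 k248 k240 11 13))))), (.s k8 k4 1 (.s k86 k169 14 (.s k92 k172 11
  (.s k89 k83 2 (.s k170 k251 12 (.d k2 k1 k254 0 13)))))), (.s k84 k168 13 (.s k86 k169 14 (.s k92
  k172 11 (.s k89 k83 2 (.s k85 k87 0 (.s k81 k93 1 (.d k243 k166 k162 14 12))))))), (.s k4 k8 1 (.s
  k84 k168 13 (.s k86 k169 14 (.s k85 k87 0 (.s k166 k247 12 (.s k246 k6 11 (.d k243 k249 k89 2
  14)))))))] .n) (.c k10 (.q k252 [(.s k8 k4 1 (.s k172 k92 11 (.s k168 k84 13 (.s k164 k160 1 (.d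
  k88 k248 k240 11 13))))), (.s k9 k6 2 (.s k169 k86 14 (.s k89 k249 11 (.s k166 k243 14 (.d k172
  k163 k92 2 11))))), (.s k4 k8 1 (.s k84 k168 13 (.s k86 k169 14 (.s k85 k87 0 (.s k166 k247 12 (.d
  k6 k9 k246 2 11))))))] .n) (.c k11 (.l (.s k2 k1 0 (.s k4 k8 1 (.s k6 k9 2 (.s k10 k14 1 (.d k5 k7
  k15 0 2)))))) (.c k13 (.l (.s k2 k1 0 (.s k4 k8 1 (.s k6 k9 2 (.s k5 k7 0 (.d k10 k14 k15 1
  2)))))) (.c k14 (.l (.s k1 k2 0 (.s k8 k4 1 (.s k9 k6 2 (.s k10 k11 0 (.d k5 k13 k15 1 2)))))) (.c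
  k15 (.q k252 [(.s k4 k8 1 (.s k84 k168 13 (.s k164 k244 11 (.s k92 k172 11 (.d k88 k80 k240 1
  13))))), (.s k6 k9 2 (.s k86 k169 14 (.s k166 k246 11 (.s k89 k243 14 (.d k92 k83 k172 2 11))))),
  (.s k4 k8 1 (.s k84 k168 13 (.s k6 k9 2 (.s k86 k169 14 (.s k7 k5 0 (.d k244 k164 k165 11
  12))))))] (.c k95 (.q k175 [(.s k4 k8 1 (.s k84 k168 13 (.s k164 k244 11 (.s k92 k172 11 (.d k88
  k80 k240 1 13))))), (.s k6 k9 2 (.s k86 k169 14 (.s k166 k246 11 (.s k89 k243 14 (.d k92 k83 k172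
  2 11))))), (.s k4 k8 1 (.s k84 k168 13 (.s k6 k9 2 (.s k86 k169 14 (.s k7 k5 0 (.d k244 k164 k165
  11 12))))))] .n) (.c k175 (.q k95 [(.s k4 k8 1 (.s k84 k168 13 (.s k164 k244 11 (.s k92 k172 11
  (.d k88 k80 k240 1 13))))), (.s k6 k9 2 (.s k86 k169 14 (.s k166 k246 11 (.s k89 k243 14 (.d k92
  k83 k172 2 11))))), (.s k4 k8 1 (.s k84 k168 13 (.s k6 k9 2 (.s k86 k169 14 (.s k7 k5 0 (.d k244
  k164 k165 11 12))))))] .n) .n))) (.c k252 (.q k254 [(.s k1 k2 0 (.s k8 k4 1 (.s k9 k6 2 (.s k10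
  k11 0 (.d k5 k13 k15 1 2))))), (.s k2 k1 0 (.s k86 k170 13 (.s k6 k9 2 (.s k14 k10 1 (.s k166 k246
  11 (.s k90 k242 13 (.d k94 k82 k174 1 11)))))))] (.c k1 (.q k42 [(.s k4 k8 1 (.s k21 k63 6 (.s k38
  k55 4 (.s k51 k25 6 (.d k34 k46 k17 1 4))))), (.s k8 k4 1 (.s k9 k6 2 (.s k25 k59 4 (.s k41 k57 3
  (.s k60 k22 6 (.d k40 k43 k20 0 5)))))), (.s k63 k21 6 (.s k6 k9 2 (.s k43 k23 5 (.s k46 k29 4 (.s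
  k38 k34 1 (.s k22 k54 3 (.d k41 k40 k60 0 6)))))))] (.c k25 (.l (.s k4 k8 1 (.s k21 k63 6 (.s k6
  k9 2 (.s k38 k55 4 (.s k22 k54 3 (.s k20 k23 0 (.d k60 k41 k40 6 5)))))))) (.c k38 (.l (.s k8 k4 1
  (.s k9 k6 2 (.s k11 k10 0 (.s k59 k25 4 (.s k43 k27 3 (.d k63 k21 k23 6 5))))))) (.c k85 (.q k169
  [(.s k4 k8 1 (.s k21 k63 6 (.s k38 k55 4 (.s k51 k25 6 (.d k34 k46 k17 1 4))))), (.s k8 k4 1 (.s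
  k9 k6 2 (.s k25 k59 4 (.s k41 k57 3 (.s k60 k22 6 (.d k40 k43 k20 0 5)))))), (.s k63 k21 6 (.s k6
  k9 2 (.s k43 k23 5 (.s k46 k29 4 (.s k38 k34 1 (.s k22 k54 3 (.d k41 k40 k60 0 6)))))))] (.c k25
  (.l (.s k4 k8 1 (.s k21 k63 6 (.s k6 k9 2 (.s k38 k55 4 (.s k22 k54 3 (.s k20 k23 0 (.d k60 k41
  k40 6 5)))))))) (.c k38 (.l (.s k8 k4 1 (.s k9 k6 2 (.s k11 k10 0 (.s k59 k25 4 (.s k43 k27 3 (.d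
  k63 k21 k23 6 5))))))) .n))) (.c k169 (.q k85 [(.s k4 k8 1 (.s k21 k63 6 (.s k38 k55 4 (.s k51 k25
  6 (.d k34 k46 k17 1 4))))), (.s k8 k4 1 (.s k9 k6 2 (.s k25 k59 4 (.s k41 k57 3 (.s k60 k22 6 (.d
  k40 k43 k20 0 5)))))), (.s k63 k21 6 (.s k6 k9 2 (.s k43 k23 5 (.s k46 k29 4 (.s k38 k34 1 (.s k22
  k54 3 (.d k41 k40 k60 0 6)))))))] (.c k25 (.l (.s k4 k8 1 (.s k21 k63 6 (.s k6 k9 2 (.s k38 k55 4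
  (.s k22 k54 3 (.s k20 k23 0 (.d k60 k41 k40 6 5)))))))) (.c k38 (.l (.s k8 k4 1 (.s k9 k6 2 (.s
  k11 k10 0 (.s k59 k25 4 (.s k43 k27 3 (.d k63 k21 k23 6 5))))))) .n))) .n))))) (.c k2 (.q k60 [(.s
  k4 k8 1 (.s k20 k40 5 (.s k36 k52 3 (.s k28 k44 3 (.d k24 k16 k48 1 5))))), (.s k6 k9 2 (.s k22
  k41 6 (.s k38 k54 3 (.s k25 k51 6 (.d k28 k19 k44 2 3))))), (.s k4 k8 1 (.s k20 k40 5 (.s k6 k9 2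
  (.s k22 k41 6 (.s k7 k5 0 (.d k52 k36 k37 3 4))))))] .n) (.c k5 (.q k60 [(.s k1 k2 0 (.s k40 k20 5
  (.s k41 k22 6 (.s k42 k43 0 (.d k21 k61 k63 5 6))))), (.s k4 k8 1 (.s k20 k40 5 (.s k36 k52 3 (.s
  k24 k48 5 (.d k28 k16 k44 1 3))))), (.s k6 k9 2 (.s k22 k41 6 (.s k38 k54 3 (.s k25 k51 6 (.d k28
  k19 k44 2 3)))))] .n) (.c k6 (.q k60 [(.s k2 k1 0 (.s k20 k40 5 (.s k22 k41 6 (.s k42 k62 5 (.d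
  k21 k23 k63 0 6))))), (.s k4 k8 1 (.s k20 k40 5 (.s k36 k52 3 (.s k24 k48 5 (.d k28 k16 k44 1
  3))))), (.s k1 k2 0 (.s k4 k8 1 (.s k41 k22 6 (.s k21 k61 5 (.s k38 k55 4 (.d k44 k35 k28 2
  3))))))] .n) (.c k8 (.q k21 [(.s k1 k2 0 (.s k63 k42 6 (.s k23 k43 5 (.s k22 k20 0 (.d k41 k61 k60
  5 6))))), (.s k1 k2 0 (.s k41 k61 5 (.s k9 k6 2 (.s k25 k57 3 (.s k17 k29 1 (.d k51 k34 k38 4
  6)))))), (.s k63 k42 6 (.s k6 k9 2 (.s k23 k43 5 (.s k29 k46 4 (.s k25 k17 1 (.s k38 k51 6 (.d k22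
  k20 k54 0 3)))))))] (.c k25 (.l (.s k1 k2 0 (.s k42 k63 6 (.s k41 k61 5 (.s k60 k22 6 (.d k40 k43
  k20 0 5)))))) (.c k41 (.l (.s k2 k1 0 (.s k42 k63 6 (.s k22 k62 5 (.s k6 k9 2 (.s k38 k54 3 (.s
  k34 k46 1 (.d k51 k25 k17 6 4)))))))) .n))) (.c k9 (.q k21 [(.s k1 k2 0 (.s k63 k42 6 (.s k23 k43
  5 (.s k22 k20 0 (.d k41 k61 k60 5 6))))), (.s k4 k8 1 (.s k42 k63 6 (.s k38 k55 4 (.s k34 k46 1
  (.d k51 k17 k25 4 6))))), (.s k1 k2 0 (.s k4 k8 1 (.s k41 k61 5 (.s k38 k55 4 (.s k35 k44 2 (.d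
  k51 k19 k25 3 6))))))] .n) (.c k10 (.q k21 [(.s k1 k2 0 (.s k63 k42 6 (.s k23 k43 5 (.s k22 k20 0
  (.d k41 k61 k60 5 6))))), (.s k4 k8 1 (.s k42 k63 6 (.s k38 k55 4 (.s k51 k25 6 (.d k34 k46 k17 1
  4)))))] (.c k42 (.l (.s k1 k2 0 (.s k4 k8 1 (.s k41 k61 5 (.s k22 k60 6 (.s k38 k55 4 (.d k6 k9
  k54 2 3))))))) (.c k63 (.l (.s k1 k2 0 (.s k4 k8 1 (.s k41 k61 5 (.s k60 k22 6 (.s k38 k55 4 (.d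
  k44 k35 k28 2 3))))))) .n))) (.c k11 (.l (.s k2 k1 0 (.s k4 k8 1 (.s k6 k9 2 (.s k10 k14 1 (.d k5
  k7 k15 0 2)))))) (.c k13 (.l (.s k2 k1 0 (.s k4 k8 1 (.s k6 k9 2 (.s k5 k7 0 (.d k10 k14 k15 1
  2)))))) (.c k14 (.l (.s k1 k2 0 (.s k8 k4 1 (.s k9 k6 2 (.s k10 k11 0 (.d k5 k13 k15 1 2))))))
  .n))))))))))) (.c k254 (.q k252 [(.s k4 k8 1 (.s k84 k168 13 (.s k164 k244 11 (.s k88 k240 13 (.d
  k92 k80 k172 1 11))))), (.s k1 k2 0 (.s k8 k4 1 (.s k9 k6 2 (.s k5 k13 1 (.d k10 k11 k15 0 2))))),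
  (.s k6 k9 2 (.s k86 k169 14 (.s k166 k246 11 (.s k89 k243 14 (.d k92 k83 k172 2 11)))))] .n)
  .n))))))))))))))))

theorem c252 : rootOK2 k3 k255 k252 t252 = true := by decide +kernel

theorem c253 : rootOK2 k3 k255 k253 t253 = true := by decide +kernel

def l : List Nat :=
  [k252.c, k253.c]

theorem ok : AllQ k3.c k255.c l :=
  allQ_cons c252 (allQ_cons c253 (allQ_nil _ _))

end Pool.Agent.TTT.F04
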