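import Pool.Agent.TTT.Sym2

set_option autoImplicit false
set_option maxRecDepth 100000

namespace Pool.Agent.TTT.G01

def t1 : T TT 256 :=
  (.q k15 [(.s k5 k10 2 (.s k21 k42 6 (.s k37 k53 3 (.s k26 k48 6 (.d k31 k16 k47 2 3))))), (.s k10
  k5 2 (.s k42 k21 6 (.s k26 k58 3 (.s k37 k48 6 (.d k47 k32 k31 2 3)))))] (.c k5 (.f k31 k47 3 (.q
  k13 [(.s k12 k14 0 (.s k29 k46 4 (.s k30 k28 0 (.d k45 k61 k60 3 4)))), (.s k21 k42 6 (.s k26 k16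
  2 (.s k37 k48 6 (.s k25 k49 5 (.s k17 k29 1 (.s k51 k34 4 (.d k27 k24 k39 0 5))))))), (.s k21 k42
  6 (.s k12 k14 0 (.s k4 k8 1 (.s k38 k55 4 (.s k25 k51 6 (.s k37 k49 5 (.d k26 k48 k16 6 2)))))))]
  .n)) (.c k10 (.f k31 k47 3 (.q k13 [(.s k12 k14 0 (.s k29 k46 4 (.s k30 k28 0 (.d k45 k61 k60 3
  4)))), (.s k21 k42 6 (.s k26 k16 2 (.s k37 k48 6 (.s k25 k49 5 (.s k17 k29 1 (.s k51 k34 4 (.d k27
  k24 k39 0 5))))))), (.s k21 k42 6 (.s k12 k14 0 (.s k4 k8 1 (.s k38 k55 4 (.s k25 k51 6 (.s k37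
  k49 5 (.d k26 k48 k16 6 2)))))))] (.c k90 (.q k250 [(.s k12 k14 0 (.s k29 k46 4 (.s k30 k28 0 (.d
  k45 k61 k60 3 4)))), (.s k21 k42 6 (.s k26 k16 2 (.s k37 k48 6 (.s k25 k49 5 (.s k17 k29 1 (.s k51
  k34 4 (.d k27 k24 k39 0 5))))))), (.s k21 k42 6 (.s k12 k14 0 (.s k4 k8 1 (.s k38 k55 4 (.s k25
  k51 6 (.s k37 k49 5 (.d k26 k48 k16 6 2)))))))] .n) (.c k250 (.q k90 [(.s k12 k14 0 (.s k29 k46 4
  (.s k30 k28 0 (.d k45 k61 k60 3 4)))), (.s k165 k240 14 (.s k149 k208 10 (.s k192 k106 14 (.d k133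
  k181 k74 3 10))))] .n) .n)))) (.c k21 (.q k192 [(.s k5 k10 2 (.s k128 k64 7 (.s k133 k74 10 (.s
  k69 k197 7 (.d k138 k143 k207 2 10))))), (.s k31 k47 3 (.s k133 k74 10 (.s k149 k106 14 (.s k90
  k208 10 (.d k165 k181 k240 3 14))))), (.s k5 k10 2 (.s k47 k31 3 (.s k106 k149 14 (.s k165 k224 10
  (.s k85 k245 11 (.d k64 k128 k127 7 6))))))] (.c k41 (.q k61 [(.s k5 k10 2 (.s k128 k64 7 (.s k133
  k74 10 (.s k69 k197 7 (.d k138 k143 k207 2 10))))), (.s k47 k31 3 (.s k60 k62 0 (.s k45 k30 4 (.s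
  k29 k13 3 (.d k46 k44 k12 0 4)))))] (.c k5 (.l (.s k31 k47 3 (.s k133 k74 10 (.s k149 k106 14 (.s
  k90 k208 10 (.d k165 k181 k240 3 14)))))) .n)) (.c k61 (.q k41 [(.s k5 k10 2 (.s k128 k64 7 (.s
  k133 k74 10 (.s k69 k197 7 (.d k138 k143 k207 2 10))))), (.s k31 k47 3 (.s k133 k74 10 (.s k149
  k106 14 (.s k90 k208 10 (.d k165 k181 k240 3 14))))), (.s k5 k10 2 (.s k47 k31 3 (.s k106 k149 14
  (.s k165 k224 10 (.s k85 k245 11 (.d k64 k128 k127 7 6))))))] (.c k90 (.l (.s k10 k5 2 (.s k64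
  k128 7 (.s k74 k133 10 (.s k138 k202 7 (.d k69 k79 k207 2 10)))))) .n)) (.c k90 (.l (.s k10 k5 2
  (.s k64 k128 7 (.s k74 k133 10 (.s k138 k202 7 (.d k69 k79 k207 2 10)))))) .n)))) (.c k26 (.q k192
  [(.s k31 k47 3 (.s k133 k74 10 (.s k149 k106 14 (.s k90 k208 10 (.d k165 k181 k240 3 14))))), (.s
  k10 k5 2 (.s k64 k128 7 (.s k74 k133 10 (.s k138 k202 7 (.d k69 k79 k207 2 10))))), (.s k5 k10 2
  (.s k47 k31 3 (.s k106 k149 14 (.s k165 k224 10 (.s k85 k245 11 (.d k64 k128 k127 7 6))))))] (.c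
  k149 (.l (.s k5 k10 2 (.s k128 k64 7 (.s k133 k74 10 (.s k69 k197 7 (.d k138 k143 k207 2 10))))))
  .n)) (.c k31 (.q k37 [(.s k5 k10 2 (.d k21 k53 k42 3 6)), (.s k42 k21 6 (.s k32 k47 2 (.d k48 k16
  k26 3 6)))] (.c k21 (.q k41 [(.s k26 k48 6 (.s k11 k56 4 (.s k3 k7 1 (.s k60 k22 6 (.d k45 k33 k30
  1 4))))), (.s k10 k5 2 (.s k26 k48 6 (.s k42 k58 3 (.s k40 k43 0 (.s k60 k20 5 (.d k45 k33 k30 1
  4)))))), (.s k10 k5 2 (.s k26 k48 6 (.s k42 k58 3 (.s k11 k56 4 (.s k3 k7 1 (.d k43 k40 k23 0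
  5))))))] (.c k16 (.l (.s k26 k48 6 (.s k11 k56 4 (.s k3 k7 1 (.s k60 k22 6 (.d k45 k33 k30 1
  4)))))) (.c k23 (.l (.s k26 k48 6 (.s k11 k56 4 (.s k3 k7 1 (.s k45 k33 1 (.d k60 k30 k22 4
  6)))))) (.c k26 (.q k16 [(.s k48 k32 3 (.s k33 k45 1 (.s k3 k18 4 (.s k7 k11 1 (.d k22 k52 k60 4
  6))))), (.s k32 k48 3 (.s k42 k47 2 (.s k33 k45 1 (.s k35 k34 0 (.s k44 k38 2 (.d k40 k43 k36 0
  1)))))), (.s k45 k33 1 (.s k60 k30 4 (.s k40 k20 5 (.s k43 k42 0 (.d k3 k23 k22 5 6))))), (.s k32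
  k48 3 (.s k42 k47 2 (.s k40 k43 0 (.s k60 k20 5 (.s k62 k61 0 (.d k22 k2 k3 5 6))))))] .n) (.c k48
  (.l (.s k45 k33 1 (.s k60 k30 4 (.s k40 k20 5 (.s k43 k42 0 (.d k3 k23 k22 5 6)))))) (.c k60 (.l
  (.s k10 k5 2 (.s k26 k48 6 (.s k42 k58 3 (.s k43 k40 0 (.s k3 k23 5 (.d k11 k56 k7 4 1)))))))
  .n)))))) (.c k42 (.l (.s k5 k10 2 (.s k53 k21 3 (.d k48 k58 k26 2 6)))) .n))) (.c k37 (.q k192
  [(.s k5 k10 2 (.s k128 k64 7 (.s k133 k74 10 (.s k69 k197 7 (.d k138 k143 k207 2 10))))), (.s k31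
  k47 3 (.s k133 k74 10 (.s k149 k106 14 (.s k90 k208 10 (.d k165 k181 k240 3 14))))), (.s k5 k10 2
  (.s k47 k31 3 (.s k106 k149 14 (.s k165 k224 10 (.s k85 k245 11 (.d k64 k128 k127 7 6))))))] (.c
  k90 (.l (.s k10 k5 2 (.s k64 k128 7 (.s k74 k133 10 (.s k138 k202 7 (.d k69 k79 k207 2 10))))))
  .n)) (.c k42 (.q k192 [(.s k47 k31 3 (.s k74 k133 10 (.s k106 k149 14 (.s k165 k224 10 (.d k90
  k122 k240 3 14))))), (.s k5 k10 2 (.s k128 k64 7 (.s k133 k74 10 (.s k69 k197 7 (.d k138 k143 k207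
  2 10))))), (.s k5 k10 2 (.s k47 k31 3 (.s k106 k149 14 (.s k165 k224 10 (.s k85 k245 11 (.d k64
  k128 k127 7 6))))))] (.c k90 (.l (.s k10 k5 2 (.s k64 k128 7 (.s k74 k133 10 (.s k138 k202 7 (.d
  k69 k79 k207 2 10)))))) (.c k106 (.q k234 [(.s k10 k5 2 (.s k64 k128 7 (.s k74 k133 10 (.s k69 k79
  2 (.d k138 k202 k207 7 10))))), (.s k31 k47 3 (.s k255 k213 6 (.s k95 k175 11 (.s k159 k223 7 (.s
  k111 k207 11 (.d k127 k79 k191 3 7)))))), (.s k5 k10 2 (.s k133 k74 10 (.s k69 k197 7 (.s k138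
  k207 10 (.d k128 k143 k64 2 7)))))] (.c k207 (.l (.s k64 k128 7 (.s k74 k133 10 (.s k79 k69 2 (.s
  k255 k213 6 (.s k95 k175 11 (.d k127 k191 k111 7 3))))))) .n)) (.c k128 (.q k234 [(.s k133 k74 10
  (.s k149 k106 14 (.s k165 k181 3 (.s k90 k240 14 (.d k31 k47 k208 3 10))))), (.s k47 k31 3 (.s
  k255 k213 6 (.s k175 k95 11 (.s k111 k239 7 (.s k159 k207 11 (.d k191 k143 k127 3 7)))))), (.s k5
  k10 2 (.s k133 k74 10 (.s k149 k106 14 (.s k165 k181 3 (.s k85 k245 11 (.d k213 k255 k21 6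
  7))))))] (.c k149 (.q k191 [(.d k255 k213 k127 6 7)] (.c k127 (.l (.s k47 k31 3 (.s k255 k213 6
  (.s k175 k95 11 (.s k111 k239 7 (.d k159 k143 k207 3 11)))))) (.c k213 (.l (.s k47 k31 3 (.s k255
  k127 7 (.s k175 k95 11 (.s k111 k239 7 (.d k159 k143 k207 3 11)))))) (.c k255 (.q k13 [(.s k12 k14
  0 (.s k132 k72 9 (.s k133 k74 10 (.s k134 k135 0 (.d k73 k193 k195 9 10))))), (.s k12 k14 0 (.s
  k29 k46 4 (.s k31 k47 3 (.s k30 k28 0 (.d k45 k61 k60 3 4)))))] (.c k12 (.f k31 k47 3 (.l (.s k133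
  k74 10 (.s k193 k73 9 (.s k195 k194 0 (.s k151 k107 13 (.s k91 k211 9 (.s k167 k243 13 (.d k135
  k75 k183 9 3))))))))) (.c k14 (.f k5 k10 2 (.l (.s k133 k74 10 (.s k69 k197 7 (.s k73 k193 9 (.s
  k65 k77 1 (.s k195 k130 8 (.s k134 k12 10 (.d k135 k132 k75 0 9))))))))) .n))) .n)))) (.c k191 (.l
  (.s k149 k106 14 (.s k31 k47 3 (.s k133 k74 10 (.s k90 k208 10 (.d k165 k181 k240 3 14)))))) .n)))
  (.c k234 (.l (.s k106 k149 14 (.s k47 k31 3 (.s k74 k133 10 (.s k165 k224 10 (.d k90 k122 k240 3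
  14)))))) .n))))) (.c k47 (.q k37 [(.s k5 k10 2 (.d k21 k53 k42 3 6)), (.s k21 k42 6 (.s k53 k5 3
  (.d k48 k58 k26 2 6)))] (.c k5 (.q k13 [(.s k21 k42 6 (.s k12 k14 0 (.s k25 k49 5 (.d k29 k17 k46
  1 4)))), (.s k42 k21 6 (.s k12 k14 0 (.s k8 k4 1 (.d k25 k59 k49 4 5)))), (.s k21 k42 6 (.s k25
  k49 5 (.s k26 k48 6 (.s k17 k29 1 (.s k51 k34 4 (.d k27 k24 k39 0 5)))))), (.s k21 k42 6 (.s k12
  k14 0 (.s k29 k46 4 (.s k45 k61 3 (.s k26 k48 6 (.s k30 k60 4 (.d k31 k28 k16 0 2)))))))] (.c k21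
  (.l (.s k12 k14 0 (.s k8 k4 1 (.s k25 k49 5 (.s k59 k42 4 (.d k51 k55 k38 1 6)))))) (.c k42 (.l
  (.s k12 k14 0 (.s k29 k46 4 (.s k25 k49 5 (.s k17 k21 1 (.d k51 k34 k38 4 6)))))) .n))) (.c k21
  (.q k41 [(.s k26 k48 6 (.s k11 k56 4 (.s k3 k7 1 (.s k60 k22 6 (.d k45 k33 k30 1 4))))), (.s k45
  k33 1 (.s k60 k30 4 (.s k40 k20 5 (.s k43 k42 0 (.d k3 k23 k22 5 6))))), (.s k10 k5 2 (.s k26 k48
  6 (.s k42 k58 3 (.s k11 k56 4 (.s k3 k7 1 (.d k43 k40 k23 0 5))))))] (.c k3 (.l (.s k10 k5 2 (.s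
  k26 k48 6 (.s k42 k58 3 (.s k40 k43 0 (.s k60 k20 5 (.d k45 k33 k30 1 4))))))) (.c k23 (.l (.s k26
  k48 6 (.s k11 k56 4 (.s k3 k7 1 (.s k45 k33 1 (.d k60 k30 k22 4 6)))))) (.c k60 (.l (.s k10 k5 2
  (.s k26 k48 6 (.s k42 k58 3 (.s k43 k40 0 (.s k3 k23 5 (.d k11 k56 k7 4 1))))))) .n)))) (.c k42
  (.l (.s k5 k10 2 (.s k53 k21 3 (.d k48 k58 k26 2 6)))) (.c k53 (.l (.s k10 k5 2 (.s k42 k21 6 (.d
  k26 k58 k48 3 6)))) .n))))) (.c k48 (.q k192 [(.s k5 k10 2 (.s k128 k64 7 (.s k133 k74 10 (.s k69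
  k197 7 (.d k138 k143 k207 2 10))))), (.s k31 k47 3 (.s k133 k74 10 (.s k149 k106 14 (.s k90 k208
  10 (.d k165 k181 k240 3 14))))), (.s k5 k10 2 (.s k47 k31 3 (.s k106 k149 14 (.s k165 k224 10 (.s
  k85 k245 11 (.d k64 k128 k127 7 6))))))] (.c k90 (.l (.s k10 k5 2 (.s k64 k128 7 (.s k74 k133 10
  (.s k138 k202 7 (.d k69 k79 k207 2 10)))))) .n)) (.c k53 (.l (.s k10 k5 2 (.s k47 k31 3 (.s k42
  k21 6 (.s k37 k32 2 (.d k26 k58 k48 3 6)))))) (.c k58 (.l (.s k5 k10 2 (.s k31 k47 3 (.s k21 k42 6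
  (.s k26 k16 2 (.d k37 k53 k48 3 6)))))) .n))))))))))))

def t2 : T TT 256 :=
  (.q k12 [(.s k8 k4 1 (.s k42 k21 6 (.s k25 k59 4 (.s k38 k51 6 (.d k46 k34 k29 1 4)))))] (.c k4
  (.q k5 [(.s k15 k10 2 (.s k29 k46 4 (.s k31 k47 3 (.s k30 k28 0 (.s k45 k60 4 (.d k13 k14 k61 0
  3)))))), (.s k21 k42 6 (.s k37 k53 3 (.s k29 k46 4 (.s k25 k17 1 (.s k13 k49 5 (.s k1 k9 1 (.d k61
  k45 k41 3 5))))))), (.s k15 k10 2 (.s k21 k42 6 (.s k37 k53 3 (.s k26 k48 6 (.d k31 k16 k47 2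
  3)))))] (.c k86 (.q k254 [(.s k15 k10 2 (.s k29 k46 4 (.s k31 k47 3 (.s k30 k28 0 (.s k45 k60 4
  (.d k13 k14 k61 0 3)))))), (.s k21 k42 6 (.s k37 k53 3 (.s k29 k46 4 (.s k25 k17 1 (.s k13 k49 5
  (.s k1 k9 1 (.d k61 k45 k41 3 5))))))), (.s k15 k10 2 (.s k21 k42 6 (.s k37 k53 3 (.s k26 k48 6
  (.d k31 k16 k47 2 3)))))] .n) (.c k254 (.q k86 [(.s k15 k10 2 (.s k29 k46 4 (.s k31 k47 3 (.s k30
  k28 0 (.s k45 k60 4 (.d k13 k14 k61 0 3)))))), (.s k21 k42 6 (.s k37 k53 3 (.s k29 k46 4 (.s k25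
  k17 1 (.s k13 k49 5 (.s k1 k9 1 (.d k61 k45 k41 3 5))))))), (.s k15 k10 2 (.s k21 k42 6 (.s k37
  k53 3 (.s k26 k48 6 (.d k31 k16 k47 2 3)))))] .n) .n))) (.c k8 (.q k89 [(.s k29 k46 4 (.s k166
  k243 14 (.s k149 k209 9 (.s k132 k183 4 (.d k192 k72 k106 9 14))))), (.s k21 k42 6 (.s k29 k46 4
  (.s k149 k209 9 (.s k85 k213 7 (.s k93 k81 1 (.s k221 k157 7 (.d k17 k25 k153 1 9))))))), (.s k21
  k42 6 (.s k243 k166 14 (.s k123 k183 9 (.s k106 k72 4 (.s k149 k192 14 (.s k85 k213 7 (.d k81 k162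
  k93 12 1)))))))] (.c k86 (.q k254 [(.s k29 k46 4 (.s k166 k243 14 (.s k149 k209 9 (.s k132 k183 4
  (.d k192 k72 k106 9 14))))), (.s k21 k42 6 (.s k29 k46 4 (.s k149 k209 9 (.s k85 k213 7 (.s k93
  k81 1 (.s k221 k157 7 (.d k17 k25 k153 1 9))))))), (.s k21 k42 6 (.s k243 k166 14 (.s k123 k183 9
  (.s k106 k72 4 (.s k149 k192 14 (.s k85 k213 7 (.d k81 k162 k93 12 1)))))))] (.c k106 (.f k46 k29
  4 (.l (.s k42 k21 6 (.s k166 k243 14 (.s k38 k34 1 (.s k102 k230 7 (.s k76 k115 6 (.s k204 k140 7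
  (.d k51 k25 k153 6 14))))))))) (.c k149 (.f k46 k29 4 (.l (.s k42 k21 6 (.s k166 k243 14 (.s k38
  k34 1 (.s k102 k230 7 (.s k76 k115 6 (.s k204 k140 7 (.d k51 k25 k153 6 14))))))))) .n))) (.c k106
  (.f k46 k29 4 (.l (.s k42 k21 6 (.s k166 k243 14 (.s k38 k34 1 (.s k102 k230 7 (.s k76 k115 6 (.s
  k204 k140 7 (.d k51 k25 k153 6 14))))))))) (.c k149 (.f k46 k29 4 (.l (.s k42 k21 6 (.s k166 k243
  14 (.s k38 k34 1 (.s k102 k230 7 (.s k76 k115 6 (.s k204 k140 7 (.d k51 k25 k153 6 14))))))))) (.c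
  k254 (.q k86 [(.s k29 k46 4 (.s k166 k243 14 (.s k149 k209 9 (.s k132 k183 4 (.d k192 k72 k106 9
  14))))), (.s k166 k243 14 (.s k6 k246 11 (.s k3 k9 2 (.s k252 k169 14 (.d k92 k83 k172 2 11))))),
  (.s k29 k46 4 (.s k149 k209 9 (.s k23 k212 8 (.s k3 k43 5 (.s k9 k6 2 (.d k169 k249 k252 11
  14))))))] .n) .n))))) (.c k21 (.q k192 [(.s k4 k8 1 (.s k128 k64 7 (.s k132 k72 9 (.s k68 k196 7
  (.d k136 k140 k204 1 9))))), (.s k29 k46 4 (.s k132 k72 9 (.s k149 k106 14 (.s k89 k209 9 (.d k166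
  k183 k243 4 14))))), (.s k4 k8 1 (.s k46 k29 4 (.s k106 k149 14 (.s k166 k226 9 (.s k85 k247 12
  (.d k64 k128 k127 7 6))))))] (.c k86 (.q k254 [(.s k4 k8 1 (.s k128 k64 7 (.s k132 k72 9 (.s k68
  k196 7 (.d k136 k140 k204 1 9))))), (.s k29 k46 4 (.s k132 k72 9 (.s k149 k106 14 (.s k89 k209 9
  (.d k166 k183 k243 4 14))))), (.s k4 k8 1 (.s k46 k29 4 (.s k106 k149 14 (.s k166 k226 9 (.s k85
  k247 12 (.d k64 k128 k127 7 6))))))] (.c k89 (.l (.s k8 k4 1 (.s k64 k128 7 (.s k72 k132 9 (.s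
  k136 k200 7 (.d k68 k76 k204 1 9)))))) .n)) (.c k89 (.l (.s k8 k4 1 (.s k64 k128 7 (.s k72 k132 9
  (.s k136 k200 7 (.d k68 k76 k204 1 9)))))) (.c k254 (.q k86 [(.s k4 k8 1 (.s k128 k64 7 (.s k132
  k72 9 (.s k68 k196 7 (.d k136 k140 k204 1 9))))), (.s k106 k149 14 (.s k66 k126 5 (.s k3 k129 8
  (.s k43 k23 5 (.d k169 k232 k252 8 14)))))] (.c k128 (.l (.s k29 k46 4 (.s k132 k72 9 (.s k149
  k106 14 (.s k89 k209 9 (.d k166 k183 k243 4 14)))))) .n)) .n)))) (.c k25 (.f k46 k29 4 (.q k106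
  [(.s k166 k226 9 (.s k89 k243 14 (.s k72 k123 4 (.d k192 k132 k149 9 14)))), (.s k4 k8 1 (.s k166
  k226 9 (.s k85 k247 12 (.s k127 k64 6 (.s k255 k191 7 (.s k93 k174 12 (.d k89 k81 k243 1
  14))))))), (.s k4 k8 1 (.s k192 k149 14 (.s k128 k64 7 (.s k132 k72 9 (.s k68 k196 7 (.d k136 k140
  k204 1 9))))))] (.c k17 (.l (.s k21 k42 6 (.s k166 k226 9 (.s k89 k243 14 (.s k192 k149 14 (.d k72
  k123 k132 4 9)))))) (.c k21 (.q k17 [(.s k166 k226 9 (.s k89 k243 14 (.s k72 k123 4 (.d k192 k132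
  k149 9 14)))), (.s k4 k8 1 (.s k51 k34 4 (.s k166 k226 9 (.s k85 k247 12 (.s k153 k221 9 (.d k59
  k55 k200 1 12)))))), (.s k4 k8 1 (.s k192 k149 14 (.s k128 k64 7 (.s k132 k72 9 (.s k68 k196 7 (.d
  k136 k140 k204 1 9))))))] (.c k86 (.q k254 [(.s k166 k226 9 (.s k89 k243 14 (.s k72 k123 4 (.d
  k192 k132 k149 9 14)))), (.s k4 k8 1 (.s k51 k34 4 (.s k166 k226 9 (.s k85 k247 12 (.s k153 k221 9
  (.d k59 k55 k200 1 12)))))), (.s k4 k8 1 (.s k192 k149 14 (.s k128 k64 7 (.s k132 k72 9 (.s k68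
  k196 7 (.d k136 k140 k204 1 9))))))] (.c k89 (.l (.s k34 k51 4 (.s k226 k166 9 (.s k162 k98 7 (.s
  k243 k81 12 (.d k192 k209 k149 4 14)))))) .n)) (.c k89 (.l (.s k34 k51 4 (.s k226 k166 9 (.s k162
  k98 7 (.s k243 k81 12 (.d k192 k209 k149 4 14)))))) (.c k254 (.q k86 [(.s k166 k226 9 (.s k89 k243
  14 (.s k72 k123 4 (.d k192 k132 k149 9 14)))), (.s k166 k226 9 (.s k6 k246 11 (.s k3 k9 2 (.s k43
  k23 5 (.d k169 k232 k252 8 14))))), (.s k149 k192 14 (.s k23 k212 8 (.s k3 k43 5 (.s k252 k169 14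
  (.d k126 k66 k189 5 8)))))] .n) .n)))) (.c k86 (.q k254 [(.s k166 k226 9 (.s k89 k243 14 (.s k72
  k123 4 (.d k192 k132 k149 9 14)))), (.s k4 k8 1 (.s k166 k226 9 (.s k85 k247 12 (.s k127 k64 6 (.s
  k255 k191 7 (.s k93 k174 12 (.d k89 k81 k243 1 14))))))), (.s k4 k8 1 (.s k192 k149 14 (.s k128
  k64 7 (.s k132 k72 9 (.s k68 k196 7 (.d k136 k140 k204 1 9))))))] (.c k17 (.l (.s k21 k42 6 (.s
  k166 k226 9 (.s k89 k243 14 (.s k192 k149 14 (.d k72 k123 k132 4 9)))))) (.c k21 (.q k17 [(.s k166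
  k226 9 (.s k89 k243 14 (.s k72 k123 4 (.d k192 k132 k149 9 14)))), (.s k4 k8 1 (.s k51 k34 4 (.s
  k166 k226 9 (.s k85 k247 12 (.s k153 k221 9 (.d k59 k55 k200 1 12)))))), (.s k4 k8 1 (.s k192 k149
  14 (.s k128 k64 7 (.s k132 k72 9 (.s k68 k196 7 (.d k136 k140 k204 1 9))))))] (.c k89 (.l (.s k34
  k51 4 (.s k226 k166 9 (.s k162 k98 7 (.s k243 k81 12 (.d k192 k209 k149 4 14)))))) .n)) (.c k89
  (.l (.s k21 k42 6 (.s k166 k226 9 (.s k149 k192 14 (.s k85 k213 7 (.d k4 k8 k247 1 12)))))) (.c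
  k149 (.l (.s k4 k8 1 (.s k166 k226 9 (.s k85 k247 12 (.s k89 k243 14 (.s k64 k127 6 (.s k72 k123 4
  (.d k192 k128 k132 7 9)))))))) .n))))) (.c k89 (.l (.s k21 k42 6 (.s k166 k226 9 (.s k149 k192 14
  (.s k85 k213 7 (.d k4 k8 k247 1 12)))))) (.c k149 (.l (.s k4 k8 1 (.s k166 k226 9 (.s k85 k247 12
  (.s k89 k243 14 (.s k64 k127 6 (.s k72 k123 4 (.d k192 k128 k132 7 9)))))))) (.c k254 (.q k86 [(.s
  k166 k226 9 (.s k89 k243 14 (.s k72 k123 4 (.d k192 k132 k149 9 14)))), (.s k166 k226 9 (.s k6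
  k246 11 (.s k3 k9 2 (.s k43 k23 5 (.d k169 k232 k252 8 14))))), (.s k149 k192 14 (.s k23 k212 8
  (.s k3 k43 5 (.s k252 k169 14 (.d k126 k66 k189 5 8)))))] (.c k17 (.l (.s k21 k42 6 (.s k166 k226
  9 (.s k89 k243 14 (.s k192 k149 14 (.d k72 k123 k132 4 9)))))) (.c k21 (.q k17 [(.s k166 k226 9
  (.s k89 k243 14 (.s k72 k123 4 (.d k192 k132 k149 9 14)))), (.s k166 k226 9 (.s k6 k246 11 (.s k3
  k9 2 (.s k43 k23 5 (.d k169 k232 k252 8 14))))), (.s k149 k192 14 (.s k23 k212 8 (.s k3 k43 5 (.s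
  k252 k169 14 (.d k126 k66 k189 5 8)))))] .n) .n))) .n)))))))) (.c k29 (.q k5 [(.s k4 k8 1 (.s k6
  k7 0 (.s k9 k3 2 (.s k13 k1 1 (.d k15 k14 k10 0 2))))), (.s k15 k10 2 (.s k21 k42 6 (.s k37 k53 3
  (.s k26 k48 6 (.d k31 k16 k47 2 3))))), (.s k4 k8 1 (.s k21 k42 6 (.s k6 k7 0 (.s k38 k55 4 (.s
  k22 k54 3 (.s k23 k20 0 (.d k3 k9 k43 2 5)))))))] (.c k6 (.l (.s k15 k10 2 (.s k14 k13 0 (.s k21
  k42 6 (.s k37 k53 3 (.s k26 k48 6 (.d k31 k16 k47 2 3))))))) (.c k86 (.q k254 [(.s k4 k8 1 (.s k6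
  k7 0 (.s k9 k3 2 (.s k13 k1 1 (.d k15 k14 k10 0 2))))), (.s k15 k10 2 (.s k21 k42 6 (.s k37 k53 3
  (.s k26 k48 6 (.d k31 k16 k47 2 3))))), (.s k4 k8 1 (.s k21 k42 6 (.s k6 k7 0 (.s k38 k55 4 (.s
  k22 k54 3 (.s k23 k20 0 (.d k3 k9 k43 2 5)))))))] (.c k6 (.l (.s k15 k10 2 (.s k14 k13 0 (.s k21
  k42 6 (.s k37 k53 3 (.s k26 k48 6 (.d k31 k16 k47 2 3))))))) .n)) (.c k254 (.q k86 [(.s k4 k8 1
  (.s k6 k7 0 (.s k9 k3 2 (.s k13 k1 1 (.d k15 k14 k10 0 2))))), (.s k15 k10 2 (.s k21 k42 6 (.s k37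
  k53 3 (.s k26 k48 6 (.d k31 k16 k47 2 3))))), (.s k4 k8 1 (.s k21 k42 6 (.s k6 k7 0 (.s k38 k55 4
  (.s k22 k54 3 (.s k23 k20 0 (.d k3 k9 k43 2 5)))))))] (.c k6 (.l (.s k15 k10 2 (.s k14 k13 0 (.s
  k21 k42 6 (.s k37 k53 3 (.s k26 k48 6 (.d k31 k16 k47 2 3))))))) .n)) .n)))) (.c k34 (.l (.s k4 k8
  1 (.s k21 k42 6 (.s k38 k55 4 (.s k25 k51 6 (.d k29 k46 k17 4 1)))))) (.c k38 (.f k46 k29 4 (.q
  k106 [(.s k166 k226 9 (.s k89 k243 14 (.s k72 k123 4 (.d k192 k132 k149 9 14)))), (.s k4 k8 1 (.s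
  k21 k42 6 (.s k166 k226 9 (.s k85 k247 12 (.d k149 k213 k192 7 14))))), (.s k4 k8 1 (.s k192 k149
  14 (.s k128 k64 7 (.s k132 k72 9 (.s k68 k196 7 (.d k136 k140 k204 1 9))))))] (.c k86 (.q k254
  [(.s k166 k226 9 (.s k89 k243 14 (.s k72 k123 4 (.d k192 k132 k149 9 14)))), (.s k4 k8 1 (.s k21
  k42 6 (.s k166 k226 9 (.s k85 k247 12 (.d k149 k213 k192 7 14))))), (.s k4 k8 1 (.s k192 k149 14
  (.s k128 k64 7 (.s k132 k72 9 (.s k68 k196 7 (.d k136 k140 k204 1 9))))))] (.c k89 (.l (.s k21 k42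
  6 (.s k166 k226 9 (.s k149 k192 14 (.s k85 k213 7 (.d k4 k8 k247 1 12)))))) (.c k149 (.l (.s k4 k8
  1 (.s k166 k226 9 (.s k85 k247 12 (.s k89 k243 14 (.s k64 k127 6 (.s k72 k123 4 (.d k192 k128 k132
  7 9)))))))) (.c k192 (.l (.s k4 k8 1 (.s k21 k42 6 (.s k166 k226 9 (.s k85 k247 12 (.s k149 k213 7
  (.s k183 k132 4 (.d k243 k89 k123 14 9)))))))) .n)))) (.c k89 (.l (.s k21 k42 6 (.s k166 k226 9
  (.s k149 k192 14 (.s k85 k213 7 (.d k4 k8 k247 1 12)))))) (.c k149 (.l (.s k4 k8 1 (.s k166 k226 9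
  (.s k85 k247 12 (.s k89 k243 14 (.s k64 k127 6 (.s k72 k123 4 (.d k192 k128 k132 7 9)))))))) (.c
  k192 (.l (.s k4 k8 1 (.s k21 k42 6 (.s k166 k226 9 (.s k85 k247 12 (.s k149 k213 7 (.s k183 k132 4
  (.d k243 k89 k123 14 9)))))))) (.c k254 (.q k86 [(.s k166 k226 9 (.s k89 k243 14 (.s k72 k123 4
  (.d k192 k132 k149 9 14)))), (.s k166 k226 9 (.s k6 k246 11 (.s k3 k9 2 (.s k43 k23 5 (.d k169
  k232 k252 8 14))))), (.s k149 k192 14 (.s k23 k212 8 (.s k3 k43 5 (.s k252 k169 14 (.d k126 k66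
  k189 5 8)))))] .n) .n))))))) (.c k42 (.q k106 [(.s k46 k29 4 (.s k166 k226 9 (.s k89 k243 14 (.s
  k192 k149 14 (.d k72 k123 k132 4 9))))), (.s k4 k8 1 (.s k192 k149 14 (.s k128 k64 7 (.s k132 k72
  9 (.s k68 k196 7 (.d k136 k140 k204 1 9)))))), (.s k29 k46 4 (.s k149 k192 14 (.s k89 k209 9 (.s
  k243 k166 14 (.d k123 k72 k183 4 9)))))] (.c k22 (.q k62 [(.s k29 k46 4 (.s k149 k192 14 (.s k89
  k209 9 (.s k123 k72 4 (.d k243 k183 k166 9 14))))), (.s k60 k61 0 (.s k150 k194 13 (.s k105 k195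
  14 (.s k192 k149 14 (.d k104 k107 k148 0 13))))), (.s k46 k29 4 (.s k30 k14 3 (.s k60 k61 0 (.s
  k44 k28 3 (.d k45 k47 k15 0 4)))))] (.c k86 (.q k254 [(.s k29 k46 4 (.s k149 k192 14 (.s k89 k209
  9 (.s k123 k72 4 (.d k243 k183 k166 9 14))))), (.s k60 k61 0 (.s k150 k194 13 (.s k105 k195 14 (.s
  k192 k149 14 (.d k104 k107 k148 0 13))))), (.s k46 k29 4 (.s k30 k14 3 (.s k60 k61 0 (.s k44 k28 3
  (.d k45 k47 k15 0 4)))))] (.c k150 (.q k214 [(.s k29 k46 4 (.s k149 k192 14 (.s k89 k209 9 (.s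
  k123 k72 4 (.d k243 k183 k166 9 14))))), (.s k60 k61 0 (.s k190 k126 7 (.s k255 k125 8 (.s k192
  k149 14 (.d k234 k194 k213 5 6))))), (.s k46 k29 4 (.s k30 k14 3 (.s k60 k61 0 (.s k44 k28 3 (.d
  k45 k47 k15 0 4)))))] (.c k130 (.l (.s k190 k126 7 (.s k60 k61 0 (.s k255 k125 8 (.s k192 k149 14
  (.d k234 k194 k213 5 6)))))) (.c k190 (.q k130 [(.s k195 k65 8 (.s k194 k234 5 (.d k192 k193 k149
  0 14))), (.s k29 k46 4 (.s k149 k192 14 (.s k89 k209 9 (.s k243 k166 14 (.d k123 k72 k183 4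
  9))))), (.s k4 k8 1 (.s k195 k65 8 (.s k134 k73 10 (.s k69 k199 8 (.d k138 k142 k207 1 10)))))]
  .n) .n))) (.c k214 (.l (.s k150 k194 13 (.s k60 k61 0 (.s k105 k195 14 (.s k192 k149 14 (.d k104
  k107 k148 0 13)))))) .n))) (.c k254 (.q k86 [(.s k29 k46 4 (.s k149 k192 14 (.s k89 k209 9 (.s
  k123 k72 4 (.d k243 k183 k166 9 14))))), (.s k60 k61 0 (.s k150 k194 13 (.s k105 k195 14 (.s k192
  k149 14 (.d k104 k107 k148 0 13))))), (.s k46 k29 4 (.s k30 k14 3 (.s k60 k61 0 (.s k44 k28 3 (.d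
  k45 k47 k15 0 4)))))] .n) .n))) (.c k62 (.q k22 [(.s k46 k29 4 (.s k166 k226 9 (.s k89 k243 14 (.s
  k192 k149 14 (.d k72 k123 k132 4 9))))), (.s k4 k8 1 (.s k192 k149 14 (.s k128 k64 7 (.s k132 k72
  9 (.s k68 k196 7 (.d k136 k140 k204 1 9)))))), (.s k29 k46 4 (.s k149 k192 14 (.s k89 k209 9 (.s
  k243 k166 14 (.d k123 k72 k183 4 9)))))] (.c k72 (.l (.s k46 k29 4 (.s k166 k226 9 (.s k243 k89 14
  (.s k149 k192 14 (.d k183 k132 k123 4 9)))))) (.c k86 (.q k254 [(.s k29 k46 4 (.s k149 k192 14 (.s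
  k89 k209 9 (.s k123 k72 4 (.d k243 k183 k166 9 14))))), (.s k4 k8 1 (.s k192 k149 14 (.s k128 k64
  7 (.s k132 k72 9 (.s k68 k196 7 (.d k136 k140 k204 1 9))))))] (.c k72 (.l (.s k46 k29 4 (.s k166
  k226 9 (.s k243 k89 14 (.s k149 k192 14 (.d k183 k132 k123 4 9)))))) (.c k89 (.l (.s k8 k4 1 (.s
  k192 k149 14 (.s k72 k132 9 (.s k136 k200 7 (.s k68 k204 9 (.d k64 k128 k76 7 1))))))) (.c k149
  (.f k8 k4 1 (.f k46 k29 4 (.l (.s k166 k226 9 (.s k89 k243 14 (.s k72 k123 4 (.s k136 k200 7 (.s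
  k68 k204 9 (.s k192 k132 9 (.d k64 k76 k128 1 7)))))))))) (.c k192 (.q k5 [(.s k4 k8 1 (.s k6 k7 0
  (.s k38 k54 3 (.s k55 k21 4 (.d k51 k59 k25 1 6))))), (.s k15 k10 2 (.s k29 k46 4 (.s k31 k47 3
  (.s k30 k28 0 (.s k45 k60 4 (.d k13 k14 k61 0 3)))))), (.s k4 k8 1 (.s k46 k29 4 (.s k166 k226 9
  (.s k85 k247 12 (.s k165 k245 11 (.s k47 k224 10 (.d k15 k10 k31 2 3)))))))] .n) .n))))) (.c k89
  (.l (.s k8 k4 1 (.s k192 k149 14 (.s k72 k132 9 (.s k136 k200 7 (.s k68 k204 9 (.d k64 k128 k76 7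
  1))))))) (.c k149 (.f k8 k4 1 (.f k46 k29 4 (.l (.s k166 k226 9 (.s k89 k243 14 (.s k72 k123 4 (.s
  k136 k200 7 (.s k68 k204 9 (.s k192 k132 9 (.d k64 k76 k128 1 7)))))))))) (.c k192 (.q k86 [(.s
  k46 k29 4 (.s k166 k226 9 (.s k6 k246 11 (.s k3 k9 2 (.s k43 k23 5 (.d k169 k232 k252 8 14)))))),
  (.s k126 k66 5 (.s k252 k189 8 (.s k3 k169 14 (.s k23 k43 5 (.s k20 k21 0 (.d k60 k40 k41 5
  6)))))), (.s k4 k8 1 (.s k46 k29 4 (.s k166 k226 9 (.s k6 k246 11 (.s k38 k54 3 (.s k55 k21 4 (.d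
  k51 k59 k25 1 6)))))))] .n) (.c k254 (.q k86 [(.s k46 k29 4 (.s k166 k226 9 (.s k89 k243 14 (.s
  k192 k149 14 (.d k72 k123 k132 4 9))))), (.s k149 k192 14 (.s k23 k212 8 (.s k3 k43 5 (.s k252
  k169 14 (.d k126 k66 k189 5 8))))), (.s k46 k29 4 (.s k166 k226 9 (.s k6 k246 11 (.s k3 k9 2 (.s
  k43 k23 5 (.d k169 k232 k252 8 14))))))] (.c k126 (.q k190 [(.s k149 k192 14 (.s k23 k212 8 (.s k3
  k43 5 (.s k20 k21 0 (.d k60 k40 k41 5 6))))), (.s k29 k46 4 (.s k149 k192 14 (.s k89 k209 9 (.s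
  k243 k166 14 (.d k123 k72 k183 4 9))))), (.s k46 k29 4 (.s k166 k226 9 (.s k6 k246 11 (.s k3 k9 2
  (.s k43 k23 5 (.d k169 k232 k252 8 14))))))] .n) (.c k190 (.l (.s k126 k66 5 (.s k149 k192 14 (.s
  k23 k212 8 (.s k3 k43 5 (.d k252 k189 k169 8 14)))))) .n))) .n))))))) (.c k72 (.l (.s k46 k29 4
  (.s k166 k226 9 (.s k243 k89 14 (.s k149 k192 14 (.d k183 k132 k123 4 9)))))) (.c k86 (.q k254
  [(.s k29 k46 4 (.s k149 k192 14 (.s k89 k209 9 (.s k123 k72 4 (.d k243 k183 k166 9 14))))), (.s k4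
  k8 1 (.s k192 k149 14 (.s k128 k64 7 (.s k132 k72 9 (.s k68 k196 7 (.d k136 k140 k204 1 9))))))]
  (.c k22 (.q k62 [(.s k29 k46 4 (.s k149 k192 14 (.s k89 k209 9 (.s k123 k72 4 (.d k243 k183 k166 9
  14))))), (.s k60 k61 0 (.s k150 k194 13 (.s k105 k195 14 (.s k192 k149 14 (.d k104 k107 k148 0
  13))))), (.s k46 k29 4 (.s k30 k14 3 (.s k60 k61 0 (.s k44 k28 3 (.d k45 k47 k15 0 4)))))] (.c
  k150 (.q k214 [(.s k29 k46 4 (.s k149 k192 14 (.s k89 k209 9 (.s k123 k72 4 (.d k243 k183 k166 9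
  14))))), (.s k60 k61 0 (.s k190 k126 7 (.s k255 k125 8 (.s k192 k149 14 (.d k234 k194 k213 5
  6))))), (.s k46 k29 4 (.s k30 k14 3 (.s k60 k61 0 (.s k44 k28 3 (.d k45 k47 k15 0 4)))))] (.c k130
  (.l (.s k190 k126 7 (.s k60 k61 0 (.s k255 k125 8 (.s k192 k149 14 (.d k234 k194 k213 5 6))))))
  (.c k190 (.q k130 [(.s k195 k65 8 (.s k194 k234 5 (.d k192 k193 k149 0 14))), (.s k29 k46 4 (.s
  k149 k192 14 (.s k89 k209 9 (.s k243 k166 14 (.d k123 k72 k183 4 9))))), (.s k4 k8 1 (.s k195 k65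
  8 (.s k134 k73 10 (.s k69 k199 8 (.d k138 k142 k207 1 10)))))] .n) .n))) (.c k214 (.l (.s k150
  k194 13 (.s k60 k61 0 (.s k105 k195 14 (.s k192 k149 14 (.d k104 k107 k148 0 13)))))) .n))) (.c
  k62 (.q k22 [(.s k29 k46 4 (.s k149 k192 14 (.s k89 k209 9 (.s k123 k72 4 (.d k243 k183 k166 9
  14))))), (.s k4 k8 1 (.s k192 k149 14 (.s k128 k64 7 (.s k132 k72 9 (.s k68 k196 7 (.d k136 k140
  k204 1 9))))))] (.c k72 (.l (.s k46 k29 4 (.s k166 k226 9 (.s k243 k89 14 (.s k149 k192 14 (.d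
  k183 k132 k123 4 9)))))) (.c k89 (.l (.s k8 k4 1 (.s k192 k149 14 (.s k72 k132 9 (.s k136 k200 7
  (.s k68 k204 9 (.d k64 k128 k76 7 1))))))) (.c k149 (.f k8 k4 1 (.f k46 k29 4 (.l (.s k166 k226 9
  (.s k89 k243 14 (.s k72 k123 4 (.s k136 k200 7 (.s k68 k204 9 (.s k192 k132 9 (.d k64 k76 k128 1
  7)))))))))) (.c k192 (.q k5 [(.s k4 k8 1 (.s k6 k7 0 (.s k38 k54 3 (.s k55 k21 4 (.d k51 k59 k25 1
  6))))), (.s k15 k10 2 (.s k29 k46 4 (.s k31 k47 3 (.s k30 k28 0 (.s k45 k60 4 (.d k13 k14 k61 0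
  3)))))), (.s k4 k8 1 (.s k46 k29 4 (.s k166 k226 9 (.s k85 k247 12 (.s k165 k245 11 (.s k47 k224
  10 (.d k15 k10 k31 2 3)))))))] .n) .n))))) (.c k72 (.l (.s k46 k29 4 (.s k166 k226 9 (.s k243 k89
  14 (.s k149 k192 14 (.d k183 k132 k123 4 9)))))) (.c k89 (.l (.s k8 k4 1 (.s k192 k149 14 (.s k72
  k132 9 (.s k136 k200 7 (.s k68 k204 9 (.d k64 k128 k76 7 1))))))) (.c k149 (.f k46 k29 4 (.l (.s
  k4 k8 1 (.s k166 k226 9 (.s k85 k247 12 (.s k89 k243 14 (.s k64 k127 6 (.s k72 k123 4 (.d k192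
  k128 k132 7 9))))))))) (.c k192 (.f k46 k29 4 (.l (.s k4 k8 1 (.s k166 k226 9 (.s k85 k247 12 (.s
  k127 k64 6 (.s k255 k191 7 (.s k93 k174 12 (.d k89 k243 k81 14 1))))))))) .n))))))) (.c k89 (.l
  (.s k8 k4 1 (.s k192 k149 14 (.s k72 k132 9 (.s k136 k200 7 (.s k68 k204 9 (.d k64 k128 k76 7
  1))))))) (.c k149 (.f k46 k29 4 (.l (.s k4 k8 1 (.s k166 k226 9 (.s k85 k247 12 (.s k89 k243 14
  (.s k64 k127 6 (.s k72 k123 4 (.d k192 k128 k132 7 9))))))))) (.c k192 (.f k46 k29 4 (.l (.s k4 k8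
  1 (.s k166 k226 9 (.s k85 k247 12 (.s k127 k64 6 (.s k255 k191 7 (.s k93 k174 12 (.d k89 k243 k81
  14 1))))))))) (.c k254 (.q k86 [(.s k46 k29 4 (.s k166 k226 9 (.s k89 k243 14 (.s k192 k149 14 (.d
  k72 k123 k132 4 9))))), (.s k149 k192 14 (.s k23 k212 8 (.s k3 k43 5 (.s k252 k169 14 (.d k126 k66
  k189 5 8))))), (.s k46 k29 4 (.s k166 k226 9 (.s k6 k246 11 (.s k3 k9 2 (.s k43 k23 5 (.d k169
  k232 k252 8 14))))))] (.c k22 (.q k62 [(.s k29 k46 4 (.s k149 k192 14 (.s k89 k209 9 (.s k123 k72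
  4 (.d k243 k183 k166 9 14))))), (.s k60 k61 0 (.s k150 k194 13 (.s k105 k195 14 (.s k192 k149 14
  (.d k104 k107 k148 0 13))))), (.s k46 k29 4 (.s k30 k14 3 (.s k60 k61 0 (.s k44 k28 3 (.d k45 k47
  k15 0 4)))))] .n) (.c k62 (.q k22 [(.s k46 k29 4 (.s k166 k226 9 (.s k89 k243 14 (.s k192 k149 14
  (.d k72 k123 k132 4 9))))), (.s k149 k192 14 (.s k23 k212 8 (.s k3 k43 5 (.s k252 k169 14 (.d k126
  k66 k189 5 8))))), (.s k46 k29 4 (.s k166 k226 9 (.s k6 k246 11 (.s k3 k9 2 (.s k43 k23 5 (.d k169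
  k232 k252 8 14))))))] (.c k126 (.q k190 [(.s k149 k192 14 (.s k23 k212 8 (.s k3 k43 5 (.s k20 k21
  0 (.d k60 k40 k41 5 6))))), (.s k29 k46 4 (.s k149 k192 14 (.s k89 k209 9 (.s k243 k166 14 (.d
  k123 k72 k183 4 9))))), (.s k46 k29 4 (.s k166 k226 9 (.s k6 k246 11 (.s k3 k9 2 (.s k43 k23 5 (.d
  k169 k232 k252 8 14))))))] .n) (.c k190 (.l (.s k126 k66 5 (.s k149 k192 14 (.s k23 k212 8 (.s k3
  k43 5 (.d k252 k189 k169 8 14)))))) .n))) .n))) .n))))))))) (.c k46 (.q k5 [(.s k4 k8 1 (.s k6 k7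
  0 (.s k9 k3 2 (.s k13 k1 1 (.d k15 k14 k10 0 2))))), (.s k15 k10 2 (.s k21 k42 6 (.s k37 k53 3 (.s
  k26 k48 6 (.d k31 k16 k47 2 3))))), (.s k4 k8 1 (.s k21 k42 6 (.s k6 k7 0 (.s k38 k55 4 (.s k22
  k54 3 (.s k23 k20 0 (.d k3 k9 k43 2 5)))))))] (.c k6 (.l (.s k15 k10 2 (.s k14 k13 0 (.s k21 k42 6
  (.s k37 k53 3 (.s k26 k48 6 (.d k31 k16 k47 2 3))))))) (.c k86 (.q k254 [(.s k4 k8 1 (.s k6 k7 0
  (.s k9 k3 2 (.s k13 k1 1 (.d k15 k14 k10 0 2))))), (.s k15 k10 2 (.s k21 k42 6 (.s k37 k53 3 (.s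
  k26 k48 6 (.d k31 k16 k47 2 3))))), (.s k4 k8 1 (.s k21 k42 6 (.s k6 k7 0 (.s k38 k55 4 (.s k22
  k54 3 (.s k23 k20 0 (.d k3 k9 k43 2 5)))))))] (.c k6 (.l (.s k15 k10 2 (.s k14 k13 0 (.s k21 k42 6
  (.s k37 k53 3 (.s k26 k48 6 (.d k31 k16 k47 2 3))))))) .n)) (.c k254 (.q k86 [(.s k4 k8 1 (.s k6
  k7 0 (.s k9 k3 2 (.s k13 k1 1 (.d k15 k14 k10 0 2))))), (.s k15 k10 2 (.s k21 k42 6 (.s k37 k53 3
  (.s k26 k48 6 (.d k31 k16 k47 2 3))))), (.s k4 k8 1 (.s k21 k42 6 (.s k6 k7 0 (.s k38 k55 4 (.s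
  k22 k54 3 (.s k23 k20 0 (.d k3 k9 k43 2 5)))))))] (.c k6 (.l (.s k15 k10 2 (.s k14 k13 0 (.s k21
  k42 6 (.s k37 k53 3 (.s k26 k48 6 (.d k31 k16 k47 2 3))))))) .n)) .n)))) (.c k51 (.f k46 k29 4 (.q
  k106 [(.s k166 k226 9 (.s k89 k243 14 (.s k72 k123 4 (.d k192 k132 k149 9 14)))), (.s k4 k8 1 (.s
  k21 k42 6 (.s k166 k226 9 (.s k85 k247 12 (.d k149 k213 k192 7 14))))), (.s k4 k8 1 (.s k21 k42 6
  (.s k55 k38 4 (.s k166 k226 9 (.s k247 k85 12 (.s k183 k119 7 (.d k243 k89 k123 14 9))))))), (.s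
  k4 k8 1 (.s k192 k149 14 (.s k128 k64 7 (.s k132 k72 9 (.s k68 k196 7 (.d k136 k140 k204 1
  9))))))] (.c k86 (.q k254 [(.s k166 k226 9 (.s k89 k243 14 (.s k72 k123 4 (.d k192 k132 k149 9
  14)))), (.s k4 k8 1 (.s k21 k42 6 (.s k166 k226 9 (.s k85 k247 12 (.d k149 k213 k192 7 14))))),
  (.s k4 k8 1 (.s k21 k42 6 (.s k55 k38 4 (.s k166 k226 9 (.s k247 k85 12 (.s k183 k119 7 (.d k243
  k89 k123 14 9))))))), (.s k4 k8 1 (.s k192 k149 14 (.s k128 k64 7 (.s k132 k72 9 (.s k68 k196 7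
  (.d k136 k140 k204 1 9))))))] (.c k89 (.l (.s k21 k42 6 (.s k166 k226 9 (.s k149 k192 14 (.s k85
  k213 7 (.d k4 k8 k247 1 12)))))) .n)) (.c k89 (.l (.s k21 k42 6 (.s k166 k226 9 (.s k149 k192 14
  (.s k85 k213 7 (.d k4 k8 k247 1 12)))))) (.c k254 (.q k86 [(.s k166 k226 9 (.s k89 k243 14 (.s k72
  k123 4 (.d k192 k132 k149 9 14)))), (.s k166 k226 9 (.s k6 k246 11 (.s k3 k9 2 (.s k43 k23 5 (.d
  k169 k232 k252 8 14))))), (.s k149 k192 14 (.s k23 k212 8 (.s k3 k43 5 (.s k252 k169 14 (.d k126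
  k66 k189 5 8)))))] .n) .n))))) (.c k55 (.l (.s k8 k4 1 (.s k46 k29 4 (.s k42 k21 6 (.s k38 k34 1
  (.d k25 k59 k51 4 6)))))) (.c k59 (.l (.s k4 k8 1 (.s k29 k46 4 (.s k21 k42 6 (.s k25 k17 1 (.d
  k38 k55 k51 4 6)))))) (.c k86 (.q k254 [(.s k8 k4 1 (.s k42 k21 6 (.s k25 k59 4 (.s k38 k51 6 (.d
  k46 k34 k29 1 4)))))] (.c k4 (.q k62 [(.s k46 k29 4 (.s k60 k61 0 (.s k44 k28 3 (.s k45 k47 0 (.d
  k30 k14 k15 3 4))))), (.s k60 k61 0 (.s k44 k28 3 (.s k190 k126 7 (.s k255 k125 8 (.s k174 k93 12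
  (.s k109 k239 8 (.d k158 k142 k207 3 12))))))), (.s k46 k29 4 (.s k14 k30 3 (.s k94 k174 11 (.s
  k126 k190 7 (.s k252 k189 8 (.d k15 k13 k173 0 12))))))] (.c k28 (.l (.s k46 k29 4 (.s k60 k61 0
  (.s k190 k126 7 (.s k255 k125 8 (.s k174 k93 12 (.d k14 k30 k94 3 11))))))) .n)) (.c k8 (.q k62
  [(.s k46 k29 4 (.s k60 k61 0 (.s k44 k28 3 (.s k45 k47 0 (.d k30 k14 k15 3 4))))), (.s k60 k61 0
  (.s k44 k28 3 (.s k190 k126 7 (.s k255 k125 8 (.s k174 k93 12 (.s k109 k239 8 (.d k158 k142 k207 3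
  12))))))), (.s k46 k29 4 (.s k14 k30 3 (.s k94 k174 11 (.s k126 k190 7 (.s k252 k189 8 (.d k15 k13
  k173 0 12))))))] (.c k28 (.l (.s k46 k29 4 (.s k60 k61 0 (.s k190 k126 7 (.s k255 k125 8 (.s k174
  k93 12 (.d k14 k30 k94 3 11))))))) (.c k89 (.q k251 [(.s k46 k29 4 (.s k30 k14 3 (.s k60 k61 0 (.s
  k45 k15 4 (.d k44 k47 k28 0 3))))), (.s k60 k61 0 (.s k44 k28 3 (.s k190 k126 7 (.s k255 k125 8
  (.s k174 k93 12 (.s k109 k239 8 (.d k158 k142 k207 3 12))))))), (.s k46 k29 4 (.s k14 k30 3 (.s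
  k94 k174 11 (.s k126 k190 7 (.s k252 k189 8 (.d k15 k13 k173 0 12))))))] (.c k28 (.l (.s k46 k29 4
  (.s k60 k61 0 (.s k190 k126 7 (.s k255 k125 8 (.s k174 k93 12 (.d k14 k30 k94 3 11))))))) (.c k83
  (.q k92 [(.s k252 k172 11 (.d k126 k190 k189 7 8)), (.s k46 k29 4 (.s k30 k14 3 (.s k60 k61 0 (.s
  k44 k28 3 (.d k45 k47 k15 0 4)))))] .n) (.c k92 (.q k83 [(.s k46 k29 4 (.s k30 k14 3 (.s k60 k61 0
  (.s k45 k15 4 (.d k44 k47 k28 0 3))))), (.s k60 k61 0 (.s k44 k28 3 (.s k190 k126 7 (.s k255 k125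
  8 (.s k174 k93 12 (.s k109 k239 8 (.d k158 k142 k207 3 12))))))), (.s k46 k29 4 (.s k14 k30 3 (.s
  k174 k94 11 (.s k110 k238 7 (.s k158 k206 11 (.d k190 k142 k126 3 7))))))] (.c k28 (.l (.s k46 k29
  4 (.s k60 k61 0 (.s k190 k126 7 (.s k255 k125 8 (.s k174 k93 12 (.d k14 k30 k94 3 11))))))) .n))
  .n)))) (.c k251 (.q k89 [(.s k29 k46 4 (.s k166 k243 14 (.s k149 k209 9 (.s k132 k183 4 (.d k192
  k72 k106 9 14))))), (.s k46 k29 4 (.s k30 k14 3 (.s k60 k61 0 (.s k44 k28 3 (.d k45 k47 k15 0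
  4))))), (.s k166 k243 14 (.s k60 k61 0 (.s k28 k44 3 (.s k150 k211 10 (.s k195 k105 14 (.d k134
  k182 k73 3 10))))))] .n) .n)))) (.c k21 (.q k62 [(.s k46 k29 4 (.s k60 k61 0 (.s k44 k28 3 (.s k45
  k47 0 (.d k30 k14 k15 3 4))))), (.s k4 k8 1 (.s k60 k61 0 (.s k20 k40 5 (.s k36 k52 3 (.s k24 k48
  5 (.d k28 k16 k44 1 3)))))), (.s k46 k29 4 (.s k14 k30 3 (.s k94 k174 11 (.s k126 k190 7 (.s k252
  k189 8 (.d k15 k13 k173 0 12))))))] (.c k28 (.l (.s k46 k29 4 (.s k60 k61 0 (.s k190 k126 7 (.s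
  k255 k125 8 (.s k174 k93 12 (.d k14 k30 k94 3 11))))))) .n)) (.c k25 (.q k62 [(.s k46 k29 4 (.s
  k30 k14 3 (.s k60 k61 0 (.s k45 k15 4 (.d k44 k47 k28 0 3))))), (.s k4 k8 1 (.s k60 k61 0 (.s k20
  k40 5 (.s k36 k52 3 (.s k24 k48 5 (.d k28 k16 k44 1 3)))))), (.s k46 k29 4 (.s k14 k30 3 (.s k94
  k174 11 (.s k126 k190 7 (.s k252 k189 8 (.d k15 k13 k173 0 12))))))] (.c k28 (.l (.s k46 k29 4 (.s
  k60 k61 0 (.s k190 k126 7 (.s k255 k125 8 (.s k174 k93 12 (.d k14 k30 k94 3 11))))))) .n)) (.c k29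
  (.q k62 [(.s k8 k4 1 (.s k60 k61 0 (.s k40 k20 5 (.s k24 k56 3 (.s k36 k48 5 (.d k44 k32 k28 1
  3)))))), (.s k4 k8 1 (.s k126 k190 7 (.s k252 k189 8 (.s k84 k168 13 (.s k164 k244 11 (.s k88 k240
  13 (.d k92 k80 k172 1 11))))))), (.s k60 k61 0 (.s k44 k28 3 (.s k190 k126 7 (.s k255 k125 8 (.s
  k174 k93 12 (.s k109 k239 8 (.d k158 k142 k207 3 12)))))))] .n) (.c k34 (.l (.s k4 k8 1 (.s k21
  k42 6 (.s k38 k55 4 (.s k25 k51 6 (.d k29 k46 k17 4 1)))))) (.c k38 (.q k62 [(.s k46 k29 4 (.s k60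
  k61 0 (.s k44 k28 3 (.s k45 k47 0 (.d k30 k14 k15 3 4))))), (.s k4 k8 1 (.s k60 k61 0 (.s k20 k40
  5 (.s k36 k52 3 (.s k24 k48 5 (.d k28 k16 k44 1 3)))))), (.s k46 k29 4 (.s k14 k30 3 (.s k94 k174
  11 (.s k126 k190 7 (.s k252 k189 8 (.d k15 k13 k173 0 12))))))] (.c k28 (.l (.s k46 k29 4 (.s k60
  k61 0 (.s k190 k126 7 (.s k255 k125 8 (.s k174 k93 12 (.d k14 k30 k94 3 11))))))) .n)) (.c k42 (.f
  k46 k29 4 (.f k8 k4 1 (.q k62 [(.s k30 k14 3 (.s k60 k61 0 (.s k44 k28 3 (.d k45 k47 k15 0 4)))),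
  (.s k14 k30 3 (.s k94 k174 11 (.s k126 k190 7 (.s k252 k189 8 (.d k15 k13 k173 0 12))))), (.s k60
  k61 0 (.s k40 k20 5 (.s k24 k56 3 (.s k36 k48 5 (.d k44 k32 k28 1 3)))))] (.c k13 (.l (.s k30 k14
  3 (.s k60 k61 0 (.s k45 k15 4 (.d k44 k47 k28 0 3))))) (.c k28 (.l (.s k60 k61 0 (.s k190 k126 7
  (.s k255 k125 8 (.s k174 k93 12 (.d k14 k30 k94 3 11)))))) (.c k106 (.q k234 [(.s k30 k14 3 (.s
  k60 k61 0 (.s k44 k28 3 (.d k45 k47 k15 0 4)))), (.s k126 k190 7 (.s k252 k189 8 (.s k255 k253 0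
  (.s k174 k93 12 (.d k14 k30 k94 3 11))))), (.s k60 k61 0 (.s k40 k20 5 (.s k24 k56 3 (.s k36 k48 5
  (.d k44 k32 k28 1 3)))))] (.c k13 (.l (.s k30 k14 3 (.s k60 k61 0 (.s k45 k15 4 (.d k44 k47 k28 0
  3))))) (.c k61 (.l (.s k14 k30 3 (.s k94 k174 11 (.s k126 k190 7 (.s k252 k189 8 (.d k15 k13 k173
  0 12)))))) (.c k66 (.l (.s k126 k190 7 (.s k14 k30 3 (.s k15 k13 0 (.s k94 k174 11 (.d k252 k189
  k173 8 12)))))) (.c k126 (.q k66 [(.s k30 k14 3 (.s k60 k61 0 (.s k44 k28 3 (.d k45 k47 k15 0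
  4)))), (.s k14 k30 3 (.s k174 k94 11 (.s k93 k255 12 (.s k110 k238 7 (.s k204 k157 12 (.d k76 k127
  k140 4 7)))))), (.s k60 k61 0 (.s k40 k20 5 (.s k24 k56 3 (.s k36 k48 5 (.d k44 k32 k28 1 3)))))]
  (.c k28 (.l (.s k30 k14 3 (.s k60 k61 0 (.s k40 k20 5 (.s k24 k56 3 (.s k36 k48 5 (.s k45 k15 4
  (.d k44 k47 k32 0 1)))))))) .n)) .n))))) (.c k234 (.q k106 [(.s k30 k14 3 (.s k60 k61 0 (.s k44
  k28 3 (.d k45 k47 k15 0 4)))), (.s k166 k226 9 (.s k89 k243 14 (.s k192 k149 14 (.d k72 k123 k132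
  4 9))))] .n) .n))))))) (.c k46 (.q k62 [(.s k8 k4 1 (.s k60 k61 0 (.s k40 k20 5 (.s k24 k56 3 (.s
  k36 k48 5 (.d k44 k32 k28 1 3)))))), (.s k4 k8 1 (.s k126 k190 7 (.s k252 k189 8 (.s k84 k168 13
  (.s k164 k244 11 (.s k88 k240 13 (.d k92 k80 k172 1 11))))))), (.s k60 k61 0 (.s k44 k28 3 (.s
  k190 k126 7 (.s k255 k125 8 (.s k174 k93 12 (.s k109 k239 8 (.d k158 k142 k207 3 12)))))))] .n)
  (.c k51 (.q k62 [(.s k46 k29 4 (.s k60 k61 0 (.s k44 k28 3 (.s k45 k47 0 (.d k30 k14 k15 3 4))))),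
  (.s k4 k8 1 (.s k60 k61 0 (.s k20 k40 5 (.s k36 k52 3 (.s k24 k48 5 (.d k28 k16 k44 1 3)))))), (.s
  k46 k29 4 (.s k14 k30 3 (.s k94 k174 11 (.s k126 k190 7 (.s k252 k189 8 (.d k15 k13 k173 0
  12))))))] (.c k28 (.l (.s k46 k29 4 (.s k60 k61 0 (.s k190 k126 7 (.s k255 k125 8 (.s k174 k93 12
  (.d k14 k30 k94 3 11))))))) .n)) (.c k55 (.l (.s k8 k4 1 (.s k46 k29 4 (.s k42 k21 6 (.s k38 k34 1
  (.d k25 k59 k51 4 6)))))) (.c k59 (.l (.s k4 k8 1 (.s k29 k46 4 (.s k21 k42 6 (.s k25 k17 1 (.d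
  k38 k55 k51 4 6)))))) .n))))))))))))) (.c k254 (.q k86 [(.s k8 k4 1 (.s k42 k21 6 (.s k25 k59 4
  (.s k38 k51 6 (.d k46 k34 k29 1 4)))))] (.c k4 (.q k106 [(.s k29 k46 4 (.s k149 k192 14 (.s k89
  k209 9 (.s k123 k72 4 (.d k243 k183 k166 9 14))))), (.s k149 k192 14 (.s k23 k212 8 (.s k3 k43 5
  (.s k252 k169 14 (.d k126 k66 k189 5 8))))), (.s k46 k29 4 (.s k166 k226 9 (.s k6 k246 11 (.s k3
  k9 2 (.s k43 k23 5 (.d k169 k232 k252 8 14))))))] .n) (.c k8 (.q k106 [(.s k46 k29 4 (.s k166 k226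
  9 (.s k149 k192 14 (.s k183 k132 4 (.d k243 k89 k123 14 9))))), (.s k149 k192 14 (.s k23 k212 8
  (.s k3 k43 5 (.s k252 k169 14 (.d k126 k66 k189 5 8))))), (.s k46 k29 4 (.s k166 k226 9 (.s k6
  k246 11 (.s k3 k9 2 (.s k43 k23 5 (.d k169 k232 k252 8 14))))))] (.c k89 (.q k251 [(.s k149 k192
  14 (.s k23 k212 8 (.s k3 k43 5 (.s k126 k66 5 (.d k252 k189 k169 8 14))))), (.s k21 k42 6 (.s k149
  k192 14 (.s k85 k213 7 (.s k84 k87 0 (.s k252 k168 13 (.d k126 k66 k189 5 8)))))), (.s k46 k29 4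
  (.s k166 k226 9 (.s k6 k246 11 (.s k3 k9 2 (.s k23 k43 5 (.d k149 k212 k192 8 14))))))] (.c k149
  (.l (.s k126 k66 5 (.s k252 k189 8 (.s k169 k3 14 (.s k172 k92 11 (.s k166 k163 2 (.d k46 k29 k226
  4 9))))))) (.c k169 (.l (.s k21 k42 6 (.s k149 k192 14 (.s k85 k213 7 (.s k126 k66 5 (.s k252 k189
  8 (.d k84 k87 k168 0 13))))))) (.c k192 (.l (.s k46 k29 4 (.s k166 k226 9 (.s k6 k246 11 (.s k3 k9
  2 (.s k43 k23 5 (.d k169 k232 k252 8 14))))))) .n)))) (.c k251 (.q k89 [(.s k29 k46 4 (.d k149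
  k209 k192 9 14)), (.s k243 k166 14 (.d k123 k72 k183 4 9))] .n) .n))) (.c k21 (.q k106 [(.s k29
  k46 4 (.s k149 k192 14 (.s k89 k209 9 (.s k123 k72 4 (.d k243 k183 k166 9 14))))), (.s k149 k192
  14 (.s k23 k212 8 (.s k3 k43 5 (.s k252 k169 14 (.d k126 k66 k189 5 8))))), (.s k46 k29 4 (.s k166
  k226 9 (.s k6 k246 11 (.s k3 k9 2 (.s k43 k23 5 (.d k169 k232 k252 8 14))))))] .n) (.c k25 (.q
  k106 [(.s k29 k46 4 (.s k149 k192 14 (.s k89 k209 9 (.s k123 k72 4 (.d k243 k183 k166 9 14))))),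
  (.s k149 k192 14 (.s k23 k212 8 (.s k3 k43 5 (.s k252 k169 14 (.d k126 k66 k189 5 8))))), (.s k46
  k29 4 (.s k166 k226 9 (.s k6 k246 11 (.s k3 k9 2 (.s k43 k23 5 (.d k169 k232 k252 8 14))))))] .n)
  (.c k29 (.q k106 [(.s k149 k192 14 (.s k23 k212 8 (.s k3 k43 5 (.s k252 k169 14 (.d k126 k66 k189
  5 8))))), (.s k4 k8 1 (.s k192 k149 14 (.s k128 k64 7 (.s k132 k72 9 (.s k68 k196 7 (.d k136 k140
  k204 1 9)))))), (.s k126 k66 5 (.s k252 k189 8 (.s k92 k172 11 (.s k89 k83 2 (.s k243 k166 14 (.d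
  k123 k72 k183 4 9))))))] .n) (.c k34 (.l (.s k4 k8 1 (.s k21 k42 6 (.s k38 k55 4 (.s k25 k51 6 (.d
  k29 k46 k17 4 1)))))) (.c k38 (.q k106 [(.s k149 k192 14 (.s k23 k212 8 (.s k3 k43 5 (.s k252 k169
  14 (.d k126 k66 k189 5 8))))), (.s k29 k46 4 (.s k149 k192 14 (.s k89 k209 9 (.s k243 k166 14 (.d
  k123 k72 k183 4 9))))), (.s k46 k29 4 (.s k166 k226 9 (.s k6 k246 11 (.s k3 k9 2 (.s k43 k23 5 (.d
  k169 k232 k252 8 14))))))] .n) (.c k42 (.f k8 k4 1 (.f k46 k29 4 (.q k106 [(.s k166 k226 9 (.s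
  k243 k89 14 (.s k149 k192 14 (.d k183 k132 k123 4 9)))), (.s k166 k226 9 (.s k6 k246 11 (.s k3 k9
  2 (.s k43 k23 5 (.d k169 k232 k252 8 14))))), (.s k149 k192 14 (.s k23 k212 8 (.s k3 k43 5 (.s
  k252 k169 14 (.d k126 k66 k189 5 8)))))] (.c k22 (.q k62 [(.s k166 k226 9 (.s k89 k243 14 (.s k192
  k149 14 (.d k72 k123 k132 4 9)))), (.s k30 k14 3 (.s k60 k61 0 (.s k44 k28 3 (.d k45 k47 k15 0
  4))))] .n) (.c k62 (.q k22 [(.s k166 k226 9 (.s k243 k89 14 (.s k149 k192 14 (.d k183 k132 k123 4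
  9)))), (.s k166 k226 9 (.s k6 k246 11 (.s k3 k9 2 (.s k43 k23 5 (.d k169 k232 k252 8 14))))), (.s
  k149 k192 14 (.s k23 k212 8 (.s k3 k43 5 (.s k252 k169 14 (.d k126 k66 k189 5 8)))))] (.c k126 (.q
  k190 [(.s k166 k226 9 (.s k243 k89 14 (.s k149 k192 14 (.d k183 k132 k123 4 9)))), (.s k166 k226 9
  (.s k6 k246 11 (.s k3 k9 2 (.s k43 k23 5 (.d k169 k232 k252 8 14))))), (.s k149 k192 14 (.s k23
  k212 8 (.s k3 k43 5 (.s k20 k21 0 (.d k60 k40 k41 5 6)))))] .n) (.c k190 (.l (.s k126 k66 5 (.s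
  k166 k226 9 (.s k6 k246 11 (.s k3 k9 2 (.d k252 k189 k169 8 14)))))) .n))) .n))))) (.c k46 (.q
  k106 [(.s k149 k192 14 (.s k23 k212 8 (.s k3 k43 5 (.s k252 k169 14 (.d k126 k66 k189 5 8))))),
  (.s k4 k8 1 (.s k192 k149 14 (.s k128 k64 7 (.s k132 k72 9 (.s k68 k196 7 (.d k136 k140 k204 1
  9)))))), (.s k126 k66 5 (.s k252 k189 8 (.s k92 k172 11 (.s k89 k83 2 (.s k243 k166 14 (.d k123
  k72 k183 4 9))))))] .n) (.c k51 (.q k106 [(.s k29 k46 4 (.s k149 k192 14 (.s k89 k209 9 (.s k123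
  k72 4 (.d k243 k183 k166 9 14))))), (.s k149 k192 14 (.s k23 k212 8 (.s k3 k43 5 (.s k252 k169 14
  (.d k126 k66 k189 5 8))))), (.s k46 k29 4 (.s k166 k226 9 (.s k6 k246 11 (.s k3 k9 2 (.s k43 k23 5
  (.d k169 k232 k252 8 14))))))] .n) (.c k55 (.l (.s k8 k4 1 (.s k46 k29 4 (.s k42 k21 6 (.s k38 k34
  1 (.d k25 k59 k51 4 6)))))) (.c k59 (.l (.s k4 k8 1 (.s k29 k46 4 (.s k21 k42 6 (.s k25 k17 1 (.d
  k38 k55 k51 4 6)))))) .n))))))))))))) .n)))))))))))))))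

def t3 : T TT 256 :=
  (.f k42 k21 6 (.q k8 [(.s k12 k4 1 (.s k25 k59 4 (.s k46 k29 4 (.d k38 k34 k51 1 6))))] (.c k4 (.q
  k10 [(.s k15 k5 2 (.s k26 k58 3 (.s k47 k31 3 (.d k37 k32 k48 2 6)))), (.s k25 k59 4 (.s k26 k58 3
  (.s k24 k27 0 (.s k56 k40 3 (.d k11 k9 k41 0 4))))), (.s k15 k5 2 (.s k11 k9 0 (.s k59 k25 4 (.s
  k27 k43 3 (.d k51 k55 k39 1 5)))))] (.c k38 (.q k55 [(.d k59 k51 k25 1 4), (.s k15 k5 2 (.s k26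
  k58 3 (.s k37 k48 6 (.d k47 k32 k31 2 3))))] .n) (.c k55 (.q k38 [(.s k25 k59 4 (.s k12 k51 6 (.d
  k46 k34 k29 1 4))), (.s k15 k5 2 (.s k26 k58 3 (.s k37 k48 6 (.d k47 k32 k31 2 3))))] .n) .n)))
  (.c k12 (.q k10 [(.s k15 k5 2 (.s k26 k58 3 (.s k47 k31 3 (.d k37 k32 k48 2 6)))), (.s k25 k59 4
  (.s k26 k58 3 (.s k24 k27 0 (.s k56 k40 3 (.d k11 k9 k41 0 4))))), (.s k15 k5 2 (.s k59 k25 4 (.s
  k51 k55 1 (.s k27 k39 5 (.d k11 k9 k43 0 3)))))] (.c k6 (.l (.s k9 k11 0 (.s k15 k5 2 (.s k26 k58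
  3 (.s k37 k48 6 (.d k47 k32 k31 2 3)))))) (.c k9 (.q k6 [(.s k15 k5 2 (.s k26 k58 3 (.s k47 k31 3
  (.d k37 k32 k48 2 6)))), (.s k14 k2 1 (.s k59 k25 4 (.s k26 k58 3 (.s k38 k50 5 (.s k34 k46 1 (.d
  k51 k17 k55 4 1))))))] (.c k26 (.l (.s k2 k14 1 (.s k22 k62 5 (.s k38 k54 3 (.s k59 k25 4 (.s k51
  k55 1 (.d k34 k46 k17 1 4))))))) (.c k58 (.q k38 [(.s k22 k54 3 (.d k2 k62 k14 5 1)), (.s k59 k25
  4 (.s k34 k46 1 (.d k51 k17 k55 4 1)))] .n) .n))) .n))) (.c k25 (.q k15 [(.s k10 k5 2 (.s k26 k58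
  3 (.s k47 k31 3 (.d k37 k32 k48 2 6)))), (.s k12 k4 1 (.s k13 k14 0 (.s k29 k46 4 (.s k45 k61 3
  (.s k30 k60 4 (.d k31 k28 k47 0 3)))))), (.s k12 k4 1 (.s k10 k5 2 (.s k26 k58 3 (.s k14 k13 0 (.s
  k38 k50 5 (.d k46 k29 k34 4 1))))))] (.c k17 (.q k29 [(.d k12 k4 k46 1 4), (.s k10 k5 2 (.s k26
  k58 3 (.s k37 k48 6 (.d k47 k32 k31 2 3))))] .n) (.c k29 (.q k17 [(.s k10 k5 2 (.s k26 k58 3 (.s
  k37 k48 6 (.d k47 k32 k31 2 3)))), (.s k51 k34 4 (.s k27 k39 5 (.s k59 k55 1 (.s k11 k43 3 (.d k10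
  k9 k5 0 2))))), (.s k12 k4 1 (.s k34 k51 4 (.s k14 k13 0 (.s k47 k31 3 (.s k37 k32 2 (.s k26 k48 6
  (.d k38 k50 k46 5 1)))))))] (.c k47 (.l (.s k10 k5 2 (.s k51 k34 4 (.s k11 k9 0 (.s k27 k39 5 (.d
  k59 k43 k55 3 1)))))) .n)) .n))) (.c k29 (.q k15 [(.s k10 k5 2 (.s k26 k58 3 (.s k37 k48 6 (.d k47
  k32 k31 2 3)))), (.s k12 k4 1 (.s k25 k59 4 (.s k13 k14 0 (.s k37 k49 5 (.d k47 k32 k31 2 3))))),
  (.s k12 k4 1 (.s k25 k59 4 (.s k14 k13 0 (.s k38 k51 6 (.s k26 k50 5 (.d k10 k5 k58 2 3))))))] (.c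
  k17 (.l (.s k25 k59 4 (.s k12 k4 1 (.s k13 k14 0 (.s k37 k49 5 (.d k47 k32 k31 2 3)))))) (.c k25
  (.q k17 [(.s k10 k5 2 (.s k26 k58 3 (.s k37 k48 6 (.d k47 k32 k31 2 3)))), (.s k51 k34 4 (.s k27
  k39 5 (.s k59 k55 1 (.s k11 k43 3 (.d k10 k9 k5 0 2))))), (.s k12 k4 1 (.s k34 k51 4 (.s k14 k13 0
  (.s k47 k31 3 (.s k37 k32 2 (.s k26 k48 6 (.d k38 k50 k46 5 1)))))))] (.c k47 (.l (.s k10 k5 2 (.s
  k51 k34 4 (.s k11 k9 0 (.s k27 k39 5 (.d k59 k43 k55 3 1)))))) .n)) .n))) (.c k34 (.f k25 k59 4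
  (.q k15 [(.s k12 k4 1 (.s k13 k14 0 (.s k37 k49 5 (.d k47 k32 k31 2 3)))), (.s k10 k5 2 (.s k26
  k58 3 (.s k37 k48 6 (.d k47 k32 k31 2 3)))), (.s k12 k4 1 (.s k14 k13 0 (.s k38 k51 6 (.s k26 k50
  5 (.d k10 k5 k58 2 3)))))] (.c k102 (.q k238 [(.s k12 k4 1 (.s k13 k14 0 (.s k37 k49 5 (.d k47 k32
  k31 2 3)))), (.s k10 k5 2 (.s k26 k58 3 (.s k37 k48 6 (.d k47 k32 k31 2 3)))), (.s k12 k4 1 (.s
  k14 k13 0 (.s k38 k51 6 (.s k26 k50 5 (.d k10 k5 k58 2 3)))))] .n) (.c k238 (.q k102 [(.s k12 k4 1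
  (.s k13 k14 0 (.s k37 k49 5 (.d k47 k32 k31 2 3)))), (.s k10 k5 2 (.s k26 k58 3 (.s k37 k48 6 (.d
  k47 k32 k31 2 3)))), (.s k12 k4 1 (.s k14 k13 0 (.s k38 k51 6 (.s k26 k50 5 (.d k10 k5 k58 2
  3)))))] .n) .n)))) (.c k38 (.q k10 [(.s k15 k5 2 (.s k26 k58 3 (.s k47 k31 3 (.d k37 k32 k48 2
  6)))), (.s k11 k9 0 (.s k25 k59 4 (.s k26 k58 3 (.s k56 k41 4 (.d k24 k27 k40 0 3))))), (.s k15 k5
  2 (.s k11 k9 0 (.s k59 k25 4 (.s k27 k43 3 (.d k51 k55 k39 1 5)))))] (.c k4 (.q k55 [(.d k59 k51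
  k25 1 4), (.s k15 k5 2 (.s k26 k58 3 (.s k37 k48 6 (.d k47 k32 k31 2 3))))] .n) (.c k55 (.l (.s k4
  k12 1 (.s k15 k5 2 (.s k26 k58 3 (.s k37 k48 6 (.d k47 k32 k31 2 3)))))) .n))) (.c k46 (.q k10
  [(.s k15 k5 2 (.s k26 k58 3 (.s k47 k31 3 (.d k37 k32 k48 2 6)))), (.s k11 k9 0 (.s k25 k59 4 (.s
  k26 k58 3 (.s k56 k41 4 (.d k24 k27 k40 0 3))))), (.s k15 k5 2 (.s k11 k9 0 (.s k59 k25 4 (.s k27
  k43 3 (.d k51 k55 k39 1 5)))))] .n) (.c k51 (.q k10 [(.s k15 k5 2 (.s k26 k58 3 (.s k47 k31 3 (.d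
  k37 k32 k48 2 6)))), (.s k11 k9 0 (.s k25 k59 4 (.s k26 k58 3 (.s k56 k41 4 (.d k24 k27 k40 0
  3))))), (.s k12 k4 1 (.s k15 k5 2 (.s k25 k59 4 (.s k13 k14 0 (.s k37 k49 5 (.d k47 k32 k31 2
  3))))))] (.c k19 (.q k35 [(.s k15 k5 2 (.s k26 k58 3 (.s k47 k31 3 (.d k37 k32 k48 2 6)))), (.s
  k11 k9 0 (.s k25 k59 4 (.s k26 k58 3 (.s k56 k41 4 (.d k24 k27 k40 0 3))))), (.s k12 k4 1 (.s k15
  k5 2 (.s k25 k59 4 (.s k13 k14 0 (.s k37 k49 5 (.d k47 k32 k31 2 3))))))] .n) (.c k35 (.q k19 [(.s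
  k15 k5 2 (.s k26 k58 3 (.s k47 k31 3 (.d k37 k32 k48 2 6)))), (.s k11 k9 0 (.s k25 k59 4 (.s k26
  k58 3 (.s k56 k41 4 (.d k24 k27 k40 0 3))))), (.s k15 k5 2 (.s k11 k9 0 (.s k59 k25 4 (.s k27 k43
  3 (.d k31 k47 k23 3 1)))))] .n) .n))) (.c k55 (.l (.s k25 k59 4 (.s k12 k4 1 (.s k38 k51 6 (.d k46
  k34 k29 1 4))))) (.c k59 (.q k10 [(.s k15 k5 2 (.s k26 k58 3 (.s k47 k31 3 (.d k37 k32 k48 2
  6)))), (.s k12 k4 1 (.s k26 k58 3 (.s k46 k29 4 (.s k38 k34 1 (.s k14 k50 5 (.s k62 k30 3 (.d k2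
  k6 k22 1 5))))))), (.s k12 k4 1 (.s k15 k5 2 (.s k14 k13 0 (.s k46 k29 4 (.s k62 k30 3 (.d k2 k6
  k22 1 5))))))] (.c k31 (.l (.s k12 k4 1 (.s k15 k5 2 (.s k26 k58 3 (.s k14 k13 0 (.s k46 k29 4 (.d
  k38 k34 k50 1 5))))))) .n)) .n))))))))))))

def t5 : T TT 256 :=
  (.q k3 [(.s k1 k2 0 (.s k21 k42 6 (.s k41 k61 5 (.s k22 k60 6 (.d k23 k20 k43 0 5))))), (.s k2 k1
  0 (.s k42 k21 6 (.s k22 k62 5 (.s k41 k60 6 (.d k43 k40 k23 0 5)))))] (.c k1 (.q k51 [(.s k19 k35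
  3 (.s k23 k43 5 (.s k27 k31 1 (.s k39 k15 5 (.d k55 k59 k7 1 3))))), (.s k17 k34 4 (.s k21 k42 6
  (.s k25 k29 1 (.s k38 k12 6 (.d k55 k59 k4 1 4))))), (.s k17 k34 4 (.s k21 k42 6 (.s k19 k35 3 (.s
  k23 k43 5 (.s k16 k18 0 (.d k31 k27 k26 1 2))))))] (.c k9 (.q k13 [(.s k19 k35 3 (.s k23 k43 5 (.s
  k27 k31 1 (.s k39 k15 5 (.d k55 k59 k7 1 3))))), (.s k17 k34 4 (.s k21 k42 6 (.s k25 k29 1 (.s k38
  k12 6 (.d k55 k59 k4 1 4))))), (.s k17 k34 4 (.s k21 k42 6 (.s k19 k35 3 (.s k23 k43 5 (.s k16 k18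
  0 (.d k31 k27 k26 1 2))))))] .n) (.c k13 (.q k9 [(.s k21 k42 6 (.s k12 k6 2 (.s k4 k8 1 (.d k38
  k25 k55 6 4)))), (.s k42 k21 6 (.s k43 k23 5 (.s k41 k40 0 (.s k25 k57 3 (.d k59 k55 k8 1 4))))),
  (.s k12 k6 2 (.s k19 k35 3 (.s k25 k38 6 (.s k41 k57 3 (.d k22 k28 k60 2 6)))))] (.c k25 (.l (.s
  k12 k6 2 (.s k43 k23 5 (.s k59 k55 1 (.s k11 k27 3 (.d k8 k4 k10 1 0)))))) .n)) .n))) (.c k2 (.f
  k42 k21 6 (.q k37 [(.s k32 k47 2 (.s k48 k16 3 (.s k26 k15 6 (.d k58 k53 k10 2 3)))), (.s k43 k23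
  5 (.s k32 k47 2 (.s k41 k40 0 (.s k33 k45 1 (.d k48 k16 k18 3 4))))), (.s k43 k23 5 (.s k41 k40 0
  (.s k33 k45 1 (.s k48 k18 4 (.s k26 k15 6 (.d k58 k53 k10 2 3))))))] (.c k48 (.l (.s k43 k23 5 (.s
  k47 k32 2 (.s k15 k31 3 (.s k7 k11 1 (.s k22 k52 4 (.d k41 k60 k40 6 0))))))) (.c k86 (.q k254
  [(.s k32 k47 2 (.s k48 k16 3 (.s k26 k15 6 (.d k58 k53 k10 2 3)))), (.s k43 k23 5 (.s k32 k47 2
  (.s k41 k40 0 (.s k33 k45 1 (.d k48 k16 k18 3 4))))), (.s k43 k23 5 (.s k41 k40 0 (.s k33 k45 1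
  (.s k48 k18 4 (.s k26 k15 6 (.d k58 k53 k10 2 3))))))] (.c k48 (.l (.s k43 k23 5 (.s k47 k32 2 (.s
  k15 k31 3 (.s k7 k11 1 (.s k22 k52 4 (.d k41 k60 k40 6 0))))))) .n)) (.c k254 (.q k86 [(.s k32 k47
  2 (.s k48 k16 3 (.s k26 k15 6 (.d k58 k53 k10 2 3)))), (.s k23 k43 5 (.s k169 k252 14 (.s k149
  k212 8 (.s k192 k106 14 (.d k129 k189 k66 5 8)))))] .n) .n))))) (.c k21 (.q k51 [(.s k19 k35 3 (.s
  k23 k43 5 (.s k27 k31 1 (.s k39 k15 5 (.d k55 k59 k7 1 3))))), (.s k2 k1 0 (.s k34 k17 4 (.s k18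
  k50 3 (.s k33 k48 4 (.d k35 k32 k19 0 3)))))] (.c k19 (.q k53 [(.s k58 k48 2 (.s k55 k59 1 (.s k54
  k52 0 (.s k62 k50 1 (.d k60 k61 k57 0 2))))), (.s k1 k2 0 (.s k17 k34 4 (.s k33 k49 3 (.d k48 k18
  k58 4 2)))), (.s k1 k2 0 (.s k17 k34 4 (.s k49 k33 3 (.s k57 k61 1 (.s k54 k60 2 (.d k55 k52 k59 0
  1))))))] (.c k50 (.l (.s k58 k48 2 (.s k59 k55 1 (.s k57 k56 0 (.s k61 k49 1 (.d k60 k62 k54 0
  2)))))) .n)) (.c k35 (.q k53 [(.s k58 k48 2 (.s k55 k59 1 (.s k54 k52 0 (.s k62 k50 1 (.d k60 k61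
  k57 0 2))))), (.s k1 k2 0 (.s k17 k34 4 (.s k33 k49 3 (.d k48 k18 k58 4 2))))] (.c k48 (.l (.s k2
  k1 0 (.s k34 k17 4 (.s k50 k18 3 (.s k55 k59 1 (.s k54 k52 0 (.s k62 k58 1 (.d k60 k61 k57 0
  2)))))))) (.c k50 (.l (.s k58 k48 2 (.s k59 k55 1 (.s k57 k56 0 (.s k61 k49 1 (.d k60 k62 k54 0
  2)))))) (.c k58 (.l (.s k1 k2 0 (.s k17 k34 4 (.s k55 k59 1 (.s k54 k52 0 (.s k57 k60 2 (.d k49
  k33 k61 3 1))))))) .n)))) (.c k37 (.q k53 [(.s k1 k2 0 (.s k48 k58 2 (.s k33 k18 4 (.d k17 k34 k49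
  4 3)))), (.s k19 k35 3 (.s k23 k43 5 (.s k27 k31 1 (.s k55 k59 1 (.d k39 k7 k15 3 5)))))] .n) (.c
  k53 (.q k37 [(.s k19 k35 3 (.s k23 k43 5 (.s k27 k31 1 (.s k39 k15 5 (.d k55 k59 k7 1 3))))), (.s
  k2 k1 0 (.s k34 k17 4 (.s k18 k50 3 (.s k33 k48 4 (.d k35 k32 k19 0 3))))), (.s k1 k2 0 (.s k17
  k34 4 (.s k33 k49 3 (.s k43 k23 5 (.s k41 k45 1 (.s k40 k42 0 (.d k60 k20 k22 5 6)))))))] .n)
  .n))))) (.c k22 (.q k51 [(.s k19 k35 3 (.s k23 k43 5 (.s k27 k31 1 (.s k39 k15 5 (.d k55 k59 k7 1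
  3))))), (.s k1 k2 0 (.s k17 k34 4 (.s k33 k49 3 (.s k18 k48 4 (.d k19 k16 k35 0 3))))), (.s k17
  k34 4 (.s k21 k42 6 (.s k25 k29 1 (.s k38 k12 6 (.d k55 k59 k4 1 4)))))] .n) (.c k23 (.q k51 [(.s
  k2 k1 0 (.s k34 k17 4 (.s k18 k50 3 (.s k33 k48 4 (.d k35 k32 k19 0 3))))), (.s k17 k34 4 (.s k21
  k42 6 (.s k25 k29 1 (.s k38 k12 6 (.d k55 k59 k4 1 4))))), (.s k1 k2 0 (.s k21 k42 6 (.s k41 k61 5
  (.s k35 k19 3 (.s k38 k44 2 (.d k55 k59 k4 1 4))))))] .n) (.c k41 (.q k51 [(.s k1 k2 0 (.s k17 k34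
  4 (.s k33 k49 3 (.s k18 k48 4 (.d k19 k16 k35 0 3))))), (.s k19 k35 3 (.s k23 k43 5 (.s k27 k31 1
  (.s k39 k15 5 (.d k55 k59 k7 1 3))))), (.s k17 k34 4 (.s k21 k42 6 (.s k25 k29 1 (.s k38 k12 6 (.d
  k55 k59 k4 1 4)))))] .n) (.c k42 (.q k106 [(.s k43 k23 5 (.s k169 k232 8 (.s k86 k252 14 (.s k192
  k149 14 (.d k66 k126 k129 5 8))))), (.s k1 k2 0 (.s k192 k149 14 (.s k128 k64 7 (.s k129 k66 8 (.s
  k65 k193 7 (.d k130 k131 k195 0 8)))))), (.s k23 k43 5 (.s k149 k192 14 (.s k86 k212 8 (.s k252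
  k169 14 (.d k126 k66 k189 5 8)))))] (.c k66 (.l (.s k43 k23 5 (.s k169 k232 8 (.s k252 k86 14 (.s
  k149 k192 14 (.d k189 k129 k126 5 8)))))) (.c k86 (.l (.s k2 k1 0 (.s k192 k149 14 (.s k66 k129 8
  (.s k130 k194 7 (.s k65 k195 8 (.d k64 k128 k67 7 0))))))) (.c k149 (.q k51 [(.s k2 k1 0 (.s k34
  k17 4 (.s k18 k50 3 (.s k33 k48 4 (.d k35 k32 k19 0 3))))), (.s k43 k23 5 (.s k169 k232 8 (.s k59
  k55 1 (.s k153 k200 12 (.s k137 k185 3 (.d k204 k102 k70 14 10))))))] (.c k128 (.q k191 [(.s k2 k1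
  0 (.s k34 k17 4 (.s k18 k50 3 (.s k33 k48 4 (.d k35 k32 k19 0 3))))), (.s k17 k34 4 (.s k59 k55 1
  (.s k153 k200 12 (.s k85 k221 9 (.d k127 k64 k255 6 7))))), (.s k1 k2 0 (.s k43 k23 5 (.s k169
  k232 8 (.s k85 k253 13 (.d k127 k64 k255 6 7)))))] .n) (.c k191 (.q k128 [(.s k2 k1 0 (.s k34 k17
  4 (.s k18 k50 3 (.s k33 k48 4 (.d k35 k32 k19 0 3))))), (.s k17 k34 4 (.s k64 k192 7 (.s k59 k55 1
  (.s k153 k200 12 (.d k85 k127 k221 6 9))))), (.s k1 k2 0 (.s k64 k192 7 (.s k43 k23 5 (.s k169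
  k232 8 (.d k85 k127 k253 6 13)))))] .n) .n))) (.c k192 (.q k51 [(.s k19 k35 3 (.s k23 k43 5 (.s
  k27 k31 1 (.s k39 k15 5 (.d k55 k59 k7 1 3))))), (.s k1 k2 0 (.s k17 k34 4 (.s k33 k49 3 (.s k18
  k48 4 (.d k19 k16 k35 0 3))))), (.s k43 k23 5 (.s k169 k232 8 (.s k252 k86 14 (.s k59 k55 1 (.s
  k185 k118 10 (.d k153 k137 k200 3 12))))))] .n) .n))))) (.c k43 (.q k51 [(.s k2 k1 0 (.s k34 k17 4
  (.s k18 k50 3 (.s k33 k48 4 (.d k35 k32 k19 0 3))))), (.s k17 k34 4 (.s k21 k42 6 (.s k25 k29 1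
  (.s k38 k12 6 (.d k55 k59 k4 1 4))))), (.s k1 k2 0 (.s k21 k42 6 (.s k41 k61 5 (.s k35 k19 3 (.s
  k38 k44 2 (.d k55 k59 k4 1 4))))))] .n) (.c k60 (.q k51 [(.s k19 k35 3 (.s k23 k43 5 (.s k27 k31 1
  (.s k39 k15 5 (.d k55 k59 k7 1 3))))), (.s k1 k2 0 (.s k17 k34 4 (.s k33 k49 3 (.s k18 k48 4 (.d
  k19 k16 k35 0 3))))), (.s k17 k34 4 (.s k21 k42 6 (.s k25 k29 1 (.s k38 k12 6 (.d k55 k59 k4 1
  4)))))] .n) (.c k61 (.l (.s k2 k1 0 (.s k43 k23 5 (.s k42 k21 6 (.s k41 k40 0 (.d k22 k62 k60 5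
  6)))))) (.c k62 (.l (.s k1 k2 0 (.s k23 k43 5 (.s k21 k42 6 (.s k22 k20 0 (.d k41 k61 k60 5
  6)))))) .n))))))))))))

def t6 : T TT 256 :=
  (.q k12 [(.s k8 k4 1 (.s k42 k21 6 (.s k25 k59 4 (.s k38 k51 6 (.d k46 k34 k29 1 4))))), (.s k4 k8
  1 (.s k21 k42 6 (.s k38 k55 4 (.s k25 k51 6 (.d k29 k17 k46 1 4)))))] (.c k4 (.q k15 [(.s k14 k13
  0 (.s k46 k29 4 (.s k30 k62 3 (.s k45 k60 4 (.d k47 k44 k31 0 3))))), (.s k21 k42 6 (.s k31 k47 3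
  (.s k26 k16 2 (.s k37 k48 6 (.d k5 k10 k53 2 3))))), (.s k5 k10 2 (.s k21 k42 6 (.s k37 k53 3 (.s
  k29 k46 4 (.s k25 k17 1 (.d k13 k14 k49 0 5))))))] (.c k5 (.q k7 [(.s k3 k11 1 (.s k23 k43 5 (.s
  k31 k47 3 (.s k27 k19 1 (.d k39 k55 k51 3 5))))), (.s k13 k14 0 (.s k29 k46 4 (.s k45 k61 3 (.s
  k30 k60 4 (.d k31 k28 k47 0 3))))), (.s k21 k42 6 (.s k3 k11 1 (.s k1 k2 0 (.s k41 k61 5 (.s k22
  k60 6 (.d k23 k20 k43 0 5))))))] .n) (.c k7 (.l (.s k5 k10 2 (.s k21 k42 6 (.s k37 k53 3 (.s k26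
  k48 6 (.d k31 k16 k47 2 3)))))) .n))) (.c k8 (.f k29 k46 4 (.f k42 k21 6 (.q k15 [(.s k31 k47 3
  (.s k30 k28 0 (.s k45 k60 4 (.d k13 k14 k61 0 3)))), (.s k10 k5 2 (.s k26 k58 3 (.s k37 k48 6 (.d
  k47 k32 k31 2 3)))), (.s k10 k5 2 (.s k26 k58 3 (.s k13 k14 0 (.s k37 k48 6 (.s k25 k49 5 (.s k51
  k38 6 (.d k27 k24 k39 0 5)))))))] (.c k89 (.q k251 [(.s k10 k5 2 (.s k26 k58 3 (.s k37 k48 6 (.d
  k47 k32 k31 2 3)))), (.s k31 k47 3 (.s k30 k28 0 (.s k45 k60 4 (.d k13 k14 k61 0 3)))), (.s k10 k5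
  2 (.s k26 k58 3 (.s k13 k14 0 (.s k37 k48 6 (.s k25 k49 5 (.s k51 k38 6 (.d k27 k24 k39 0
  5)))))))] .n) (.c k251 (.q k89 [(.s k10 k5 2 (.s k26 k58 3 (.s k37 k48 6 (.d k47 k32 k31 2 3)))),
  (.s k166 k243 14 (.s k149 k209 9 (.s k192 k106 14 (.d k132 k183 k72 4 9))))] .n) .n))))) (.c k21
  (.f k29 k46 4 (.q k60 [(.s k28 k44 3 (.s k61 k62 0 (.s k45 k13 3 (.d k30 k31 k15 0 4)))), (.s k4
  k8 1 (.s k20 k40 5 (.s k36 k52 3 (.s k24 k48 5 (.d k28 k16 k44 1 3)))))] (.c k28 (.q k42 [(.s k40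
  k20 5 (.s k41 k43 0 (.s k22 k3 6 (.d k62 k61 k2 0 5)))), (.s k8 k4 1 (.s k25 k59 4 (.s k61 k62 0
  (.s k13 k45 3 (.s k37 k49 5 (.s k47 k32 2 (.d k15 k14 k31 0 3))))))), (.s k8 k4 1 (.s k40 k20 5
  (.s k25 k59 4 (.s k41 k43 0 (.s k57 k9 3 (.d k51 k38 k54 6 2))))))] .n) (.c k44 (.q k15 [(.s k45
  k30 4 (.d k13 k14 k61 0 3)), (.s k4 k8 1 (.s k20 k40 5 (.s k36 k52 3 (.s k24 k48 5 (.s k28 k16 1
  (.d k30 k31 k45 0 4))))))] (.c k30 (.q k42 [(.s k40 k20 5 (.s k41 k43 0 (.s k22 k3 6 (.d k62 k61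
  k2 0 5)))), (.s k10 k5 2 (.s k26 k58 3 (.s k37 k48 6 (.d k47 k32 k31 2 3))))] (.c k14 (.l (.s k62
  k61 0 (.s k40 k20 5 (.s k41 k43 0 (.d k22 k2 k3 5 6))))) (.c k45 (.l (.s k47 k31 3 (.s k10 k5 2
  (.s k26 k58 3 (.d k37 k32 k48 2 6))))) (.c k47 (.q k45 [(.d k13 k14 k61 0 3), (.s k10 k5 2 (.s k40
  k20 5 (.s k26 k58 3 (.s k37 k48 6 (.d k41 k43 k33 0 1)))))] (.c k14 (.l (.s k62 k61 0 (.s k40 k20
  5 (.s k41 k43 0 (.d k22 k2 k3 5 6))))) (.c k62 (.l (.s k14 k13 0 (.s k8 k4 1 (.s k25 k59 4 (.s k38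
  k51 6 (.s k26 k50 5 (.d k10 k5 k58 2 3))))))) .n))) (.c k62 (.l (.s k14 k13 0 (.s k10 k5 2 (.s k26
  k58 3 (.s k37 k48 6 (.d k47 k32 k31 2 3)))))) .n))))) (.c k45 (.f k47 k31 3 (.q k37 [(.s k32 k42 2
  (.d k48 k16 k26 3 6)), (.s k4 k8 1 (.s k20 k40 5 (.s k36 k52 3 (.d k48 k24 k26 5 6))))] (.c k16
  (.l (.s k26 k48 6 (.s k10 k5 2 (.d k42 k32 k58 2 3)))) (.c k26 (.q k16 [(.d k32 k42 k48 2 3)] (.c
  k32 (.l (.s k4 k8 1 (.s k20 k40 5 (.s k36 k52 3 (.d k24 k28 k48 1 5))))) (.c k42 (.l (.s k20 k40 5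
  (.s k24 k28 1 (.d k48 k32 k36 3 5)))) (.c k48 (.l (.s k8 k4 1 (.s k13 k14 0 (.s k25 k49 5 (.d k42
  k32 k59 2 4))))) .n)))) (.c k32 (.l (.s k4 k8 1 (.s k20 k40 5 (.s k36 k52 3 (.d k48 k24 k26 5
  6))))) (.c k48 (.l (.s k8 k4 1 (.s k13 k14 0 (.s k25 k49 5 (.d k42 k32 k59 2 4))))) .n)))))) (.c
  k47 (.l (.s k45 k30 4 (.d k13 k14 k61 0 3))) .n)))) .n)))) (.c k25 (.q k15 [(.s k13 k14 0 (.s k29
  k46 4 (.s k45 k61 3 (.s k30 k60 4 (.d k31 k28 k47 0 3))))), (.s k10 k5 2 (.s k42 k21 6 (.s k26 k58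
  3 (.s k37 k48 6 (.d k47 k32 k31 2 3))))), (.s k10 k5 2 (.s k42 k21 6 (.s k26 k58 3 (.s k14 k13 0
  (.s k38 k50 5 (.d k46 k29 k34 4 1))))))] (.c k10 (.l (.s k14 k13 0 (.s k46 k29 4 (.s k30 k62 3 (.s
  k45 k60 4 (.d k47 k44 k31 0 3)))))) (.c k29 (.l (.s k5 k10 2 (.s k21 k42 6 (.s k37 k53 3 (.s k26
  k48 6 (.d k31 k16 k47 2 3)))))) .n))) (.c k29 (.f k8 k4 1 (.f k42 k21 6 (.f k25 k59 4 (.f k38 k51
  6 (.q k15 [(.s k14 k13 0 (.s k26 k50 5 (.d k10 k5 k58 2 3))), (.s k47 k31 3 (.s k37 k32 2 (.d k13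
  k14 k49 0 5))), (.s k47 k31 3 (.s k37 k32 2 (.s k26 k48 6 (.d k10 k5 k58 2 3))))] (.c k5 (.q k7
  [(.s k13 k14 0 (.s k37 k49 5 (.d k47 k32 k31 2 3))), (.s k47 k31 3 (.s k37 k32 2 (.s k36 k39 0 (.d
  k48 k26 k24 6 5)))), (.s k11 k3 1 (.s k10 k9 0 (.s k26 k58 3 (.d k14 k13 k50 0 5))))] (.c k37 (.q
  k53 [(.s k11 k3 1 (.s k10 k9 0 (.d k58 k48 k26 2 3))), (.s k58 k48 2 (.s k26 k10 3 (.d k14 k50 k13
  5 0))), (.s k3 k11 1 (.s k2 k1 0 (.s k22 k62 5 (.s k41 k60 6 (.d k43 k40 k23 0 5)))))] (.c k13 (.l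
  (.s k11 k3 1 (.s k58 k48 2 (.d k10 k9 k26 0 3)))) .n)) (.c k53 (.q k37 [(.d k13 k14 k49 0 5), (.d
  k47 k32 k31 2 3)] .n) .n))) (.c k7 (.l (.s k5 k10 2 (.s k47 k31 3 (.s k37 k32 2 (.d k13 k14 k49 0
  5))))) (.c k26 (.l (.s k13 k14 0 (.s k37 k49 5 (.d k47 k32 k31 2 3)))) (.c k49 (.l (.s k14 k13 0
  (.s k26 k50 5 (.s k48 k37 6 (.d k10 k5 k58 2 3))))) .n))))))))) (.c k38 (.q k15 [(.s k14 k13 0 (.s
  k46 k29 4 (.s k30 k62 3 (.s k45 k60 4 (.d k47 k44 k31 0 3))))), (.s k10 k5 2 (.s k42 k21 6 (.s k26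
  k58 3 (.s k37 k48 6 (.d k47 k32 k31 2 3))))), (.s k10 k5 2 (.s k42 k21 6 (.s k26 k58 3 (.s k13 k14
  0 (.s k37 k48 6 (.s k25 k49 5 (.d k8 k4 k59 1 4)))))))] (.c k22 (.q k54 [(.s k14 k13 0 (.s k46 k29
  4 (.s k47 k31 3 (.s k45 k44 0 (.d k30 k62 k60 3 4))))), (.s k10 k5 2 (.s k42 k21 6 (.s k26 k58 3
  (.s k37 k48 6 (.d k47 k32 k31 2 3)))))] (.c k31 (.l (.s k4 k8 1 (.s k5 k10 2 (.s k21 k42 6 (.s k53
  k37 3 (.s k52 k55 0 (.s k36 k20 3 (.d k48 k58 k24 2 5)))))))) (.c k47 (.l (.s k10 k5 2 (.s k42 k21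
  6 (.s k58 k26 3 (.s k14 k13 0 (.s k46 k29 4 (.d k62 k50 k30 1 3))))))) .n))) (.c k54 (.q k22 [(.s
  k14 k13 0 (.s k46 k29 4 (.s k62 k30 3 (.d k42 k2 k21 5 6)))), (.s k10 k5 2 (.s k42 k21 6 (.s k26
  k58 3 (.s k37 k48 6 (.d k47 k32 k31 2 3))))), (.s k14 k13 0 (.s k46 k29 4 (.s k30 k62 3 (.s k45
  k60 4 (.d k47 k44 k31 0 3)))))] (.c k31 (.l (.s k42 k21 6 (.s k62 k2 5 (.s k14 k13 0 (.d k46 k30
  k29 3 4))))) (.c k62 (.l (.s k5 k10 2 (.s k21 k42 6 (.s k37 k53 3 (.s k26 k48 6 (.d k31 k16 k47 2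
  3)))))) .n))) .n))) (.c k42 (.q k106 [(.s k46 k29 4 (.s k166 k226 9 (.s k89 k243 14 (.s k192 k149
  14 (.d k72 k123 k132 4 9))))), (.s k4 k8 1 (.s k192 k149 14 (.s k128 k64 7 (.s k132 k72 9 (.s k68
  k196 7 (.d k136 k140 k204 1 9)))))), (.s k29 k46 4 (.s k149 k192 14 (.s k89 k209 9 (.s k243 k166
  14 (.d k123 k72 k183 4 9)))))] (.c k72 (.l (.s k46 k29 4 (.s k166 k226 9 (.s k243 k89 14 (.s k149
  k192 14 (.d k183 k132 k123 4 9)))))) (.c k89 (.l (.s k8 k4 1 (.s k192 k149 14 (.s k72 k132 9 (.s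
  k136 k200 7 (.s k68 k204 9 (.d k64 k128 k76 7 1))))))) (.c k149 (.q k15 [(.s k14 k13 0 (.s k46 k29
  4 (.s k30 k62 3 (.s k45 k60 4 (.d k47 k44 k31 0 3))))), (.s k13 k14 0 (.s k47 k31 3 (.s k165 k224
  10 (.s k89 k241 13 (.s k243 k166 14 (.d k123 k183 k72 9 4)))))), (.s k46 k29 4 (.s k47 k31 3 (.s
  k166 k226 9 (.s k165 k224 10 (.s k164 k167 0 (.d k240 k90 k88 14 13)))))), (.s k14 k13 0 (.s k46
  k29 4 (.s k166 k226 9 (.s k90 k242 13 (.s k240 k165 14 (.d k122 k181 k74 10 3))))))] (.c k89 (.l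
  (.s k13 k14 0 (.s k29 k46 4 (.s k45 k61 3 (.s k30 k60 4 (.d k31 k28 k47 0 3)))))) (.c k128 (.q
  k191 [(.s k4 k8 1 (.s k46 k29 4 (.s k166 k226 9 (.s k85 k247 12 (.d k127 k64 k255 6 7))))), (.s
  k13 k14 0 (.s k29 k46 4 (.s k45 k61 3 (.s k30 k60 4 (.d k31 k28 k47 0 3))))), (.s k5 k10 2 (.s k47
  k31 3 (.s k165 k224 10 (.s k85 k245 11 (.d k127 k64 k255 6 7)))))] .n) (.c k191 (.q k128 [(.s k4
  k8 1 (.s k64 k192 7 (.s k85 k127 6 (.s k166 k247 12 (.d k46 k29 k226 4 9))))), (.s k13 k14 0 (.s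
  k29 k46 4 (.s k45 k61 3 (.s k30 k60 4 (.d k31 k28 k47 0 3))))), (.s k5 k10 2 (.s k64 k192 7 (.s
  k47 k31 3 (.s k165 k224 10 (.d k85 k127 k245 6 11)))))] .n) .n)))) (.c k192 (.q k15 [(.s k14 k13 0
  (.s k46 k29 4 (.s k47 k31 3 (.s k45 k44 0 (.d k30 k62 k60 3 4))))), (.s k13 k14 0 (.s k47 k31 3
  (.s k165 k224 10 (.s k89 k241 13 (.s k243 k166 14 (.d k123 k72 k183 4 9)))))), (.s k46 k29 4 (.s
  k47 k31 3 (.s k166 k226 9 (.s k243 k89 14 (.s k167 k91 13 (.d k165 k164 k224 0 10)))))), (.s k14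
  k13 0 (.s k46 k29 4 (.s k166 k226 9 (.s k90 k242 13 (.s k240 k165 14 (.d k122 k74 k181 3 10))))))]
  .n) .n))))) (.c k46 (.f k42 k21 6 (.q k15 [(.s k10 k5 2 (.s k26 k58 3 (.s k37 k48 6 (.d k47 k32
  k31 2 3)))), (.s k13 k14 0 (.s k47 k31 3 (.s k37 k32 2 (.s k25 k49 5 (.d k8 k4 k59 1 4))))), (.s
  k8 k4 1 (.s k25 k59 4 (.s k14 k13 0 (.s k38 k51 6 (.s k26 k50 5 (.d k10 k5 k58 2 3))))))] (.c k4
  (.l (.s k47 k31 3 (.s k37 k32 2 (.s k26 k48 6 (.d k10 k5 k58 2 3))))) (.c k10 (.l (.s k8 k4 1 (.s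
  k25 k59 4 (.s k47 k31 3 (.s k37 k32 2 (.d k13 k14 k49 0 5)))))) (.c k26 (.l (.s k8 k4 1 (.s k25
  k59 4 (.s k13 k14 0 (.s k37 k49 5 (.d k47 k32 k31 2 3)))))) .n))))) (.c k51 (.q k15 [(.s k14 k13 0
  (.s k46 k29 4 (.s k30 k62 3 (.s k45 k60 4 (.d k47 k44 k31 0 3))))), (.s k10 k5 2 (.s k42 k21 6 (.s
  k26 k58 3 (.s k37 k48 6 (.d k47 k32 k31 2 3))))), (.s k5 k10 2 (.s k21 k42 6 (.s k37 k53 3 (.s k29
  k46 4 (.s k25 k17 1 (.d k13 k14 k49 0 5))))))] .n) (.c k55 (.l (.s k8 k4 1 (.s k46 k29 4 (.s k42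
  k21 6 (.s k38 k34 1 (.d k25 k59 k51 4 6)))))) (.c k59 (.l (.s k4 k8 1 (.s k29 k46 4 (.s k21 k42 6
  (.s k25 k17 1 (.d k38 k55 k51 4 6)))))) .n))))))))))))

def t7 : T TT 256 :=
  (.q k3 [(.s k2 k1 0 (.s k42 k21 6 (.s k22 k62 5 (.s k41 k60 6 (.d k43 k40 k23 0 5)))))] (.c k1 (.q
  k51 [(.s k35 k19 3 (.s k43 k23 5 (.s k39 k47 1 (.s k27 k15 5 (.d k59 k55 k11 1 3))))), (.s k17 k34
  4 (.s k21 k42 6 (.s k25 k29 1 (.s k38 k12 6 (.d k55 k59 k4 1 4))))), (.s k17 k34 4 (.s k21 k42 6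
  (.s k19 k35 3 (.s k23 k43 5 (.s k16 k18 0 (.d k31 k27 k26 1 2))))))] .n) (.c k2 (.q k86 [(.s k23
  k43 5 (.s k169 k252 14 (.s k149 k212 8 (.s k129 k189 5 (.d k192 k66 k106 8 14))))), (.s k21 k42 6
  (.s k23 k43 5 (.s k149 k212 8 (.s k85 k213 7 (.s k87 k84 0 (.s k215 k151 7 (.d k20 k22 k150 0
  8))))))), (.s k21 k42 6 (.s k252 k169 14 (.s k126 k189 8 (.s k106 k66 5 (.s k149 k192 14 (.s k85
  k213 7 (.d k84 k168 k87 13 0)))))))] (.c k106 (.f k42 k21 6 (.l (.s k43 k23 5 (.s k169 k252 14 (.s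
  k41 k40 0 (.s k105 k233 7 (.s k67 k124 6 (.s k195 k131 7 (.d k60 k22 k150 6 14))))))))) (.c k149
  (.f k42 k21 6 (.l (.s k43 k23 5 (.s k169 k252 14 (.s k41 k40 0 (.s k105 k233 7 (.s k67 k124 6 (.s
  k195 k131 7 (.d k60 k22 k150 6 14))))))))) .n))) (.c k21 (.q k51 [(.s k35 k19 3 (.s k43 k23 5 (.s
  k39 k47 1 (.s k27 k15 5 (.d k59 k55 k11 1 3))))), (.s k1 k2 0 (.s k17 k34 4 (.s k33 k49 3 (.s k18
  k48 4 (.d k19 k16 k35 0 3)))))] (.c k19 (.q k106 [(.s k23 k43 5 (.s k149 k192 14 (.s k86 k212 8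
  (.s k126 k66 5 (.d k252 k189 k169 8 14))))), (.s k55 k59 1 (.s k149 k192 14 (.s k102 k196 12 (.s
  k110 k98 1 (.d k204 k157 k153 12 14))))), (.s k1 k2 0 (.s k17 k34 4 (.s k43 k23 5 (.s k169 k232 8
  (.s k85 k253 13 (.s k153 k221 9 (.d k59 k55 k200 1 12)))))))] .n) (.c k35 (.q k106 [(.s k23 k43 5
  (.s k149 k192 14 (.s k86 k212 8 (.s k126 k66 5 (.d k252 k189 k169 8 14))))), (.s k55 k59 1 (.s
  k149 k192 14 (.s k102 k196 12 (.s k204 k153 14 (.d k110 k98 k157 1 12))))), (.s k1 k2 0 (.s k17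
  k34 4 (.s k43 k23 5 (.s k169 k232 8 (.s k85 k253 13 (.s k153 k221 9 (.d k59 k55 k200 1 12)))))))]
  .n) .n))) (.c k22 (.f k2 k1 0 (.q k51 [(.s k34 k17 4 (.s k18 k50 3 (.s k33 k48 4 (.d k35 k32 k19 0
  3)))), (.s k35 k19 3 (.s k43 k23 5 (.s k39 k47 1 (.s k27 k15 5 (.d k59 k55 k11 1 3))))), (.s k17
  k34 4 (.s k21 k42 6 (.s k25 k29 1 (.s k38 k12 6 (.d k55 k59 k4 1 4)))))] (.c k37 (.q k52 [(.s k34
  k17 4 (.s k18 k50 3 (.s k33 k48 4 (.d k35 k32 k19 0 3)))), (.s k17 k34 4 (.s k21 k42 6 (.s k25 k29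
  1 (.s k38 k12 6 (.d k55 k59 k4 1 4))))), (.s k35 k19 3 (.s k43 k23 5 (.s k39 k47 1 (.s k27 k15 5
  (.d k59 k55 k11 1 3)))))] (.c k32 (.l (.s k34 k17 4 (.s k42 k21 6 (.s k38 k46 1 (.s k25 k12 6 (.d
  k59 k55 k8 1 4)))))) .n)) (.c k52 (.q k37 [(.s k34 k17 4 (.s k18 k50 3 (.s k33 k48 4 (.d k35 k32
  k19 0 3)))), (.s k17 k34 4 (.s k21 k42 6 (.s k25 k29 1 (.s k38 k12 6 (.d k55 k59 k4 1 4))))), (.s
  k42 k21 6 (.s k35 k19 3 (.s k47 k32 2 (.d k43 k23 k39 5 1))))] .n) .n)))) (.c k23 (.q k51 [(.s k2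
  k1 0 (.s k34 k17 4 (.s k18 k50 3 (.s k33 k48 4 (.d k35 k32 k19 0 3))))), (.s k17 k34 4 (.s k21 k42
  6 (.s k25 k29 1 (.s k38 k12 6 (.d k55 k59 k4 1 4))))), (.s k1 k2 0 (.s k21 k42 6 (.s k41 k61 5 (.s
  k35 k19 3 (.s k38 k44 2 (.d k55 k59 k4 1 4))))))] (.c k39 (.l (.s k55 k59 1 (.s k17 k34 4 (.s k21
  k42 6 (.s k38 k4 4 (.d k25 k29 k12 1 6)))))) (.c k55 (.q k39 [(.s k35 k19 3 (.s k47 k43 1 (.d k15
  k31 k27 3 5))), (.s k1 k2 0 (.s k17 k34 4 (.s k33 k49 3 (.s k18 k48 4 (.d k19 k16 k35 0 3))))),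
  (.s k34 k17 4 (.s k42 k21 6 (.s k38 k46 1 (.s k37 k36 0 (.s k47 k32 2 (.d k15 k31 k27 3 5))))))]
  .n) .n))) (.c k40 (.l (.s k1 k2 0 (.s k21 k42 6 (.s k41 k61 5 (.s k22 k60 6 (.d k23 k43 k20 5
  0)))))) (.c k41 (.q k51 [(.s k35 k19 3 (.s k43 k23 5 (.s k39 k47 1 (.s k27 k15 5 (.d k59 k55 k11 1
  3))))), (.s k1 k2 0 (.s k17 k34 4 (.s k33 k49 3 (.s k18 k48 4 (.d k19 k16 k35 0 3))))), (.s k17
  k34 4 (.s k21 k42 6 (.s k25 k29 1 (.s k38 k12 6 (.d k55 k59 k4 1 4)))))] .n) (.c k42 (.q k106 [(.s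
  k23 k43 5 (.s k149 k192 14 (.s k86 k212 8 (.s k126 k66 5 (.d k252 k189 k169 8 14))))), (.s k1 k2 0
  (.s k192 k149 14 (.s k128 k64 7 (.s k129 k66 8 (.s k65 k193 7 (.d k130 k131 k195 0 8))))))] (.c
  k66 (.l (.s k43 k23 5 (.s k169 k232 8 (.s k252 k86 14 (.s k149 k192 14 (.d k189 k129 k126 5
  8)))))) (.c k86 (.l (.s k2 k1 0 (.s k192 k149 14 (.s k66 k129 8 (.s k130 k194 7 (.s k65 k195 8 (.d
  k64 k128 k67 7 0))))))) (.c k149 (.q k128 [(.s k192 k64 7 (.s k129 k66 8 (.s k130 k131 0 (.s k65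
  k195 8 (.d k1 k2 k193 0 7))))), (.s k1 k2 0 (.s k64 k192 7 (.s k43 k23 5 (.s k169 k232 8 (.d k85
  k127 k253 6 13))))), (.s k192 k64 7 (.s k43 k23 5 (.s k66 k129 8 (.s k169 k232 8 (.d k86 k126 k252
  5 14)))))] (.c k64 (.l (.s k2 k1 0 (.s k43 k23 5 (.s k169 k232 8 (.s k86 k252 14 (.s k66 k126 5
  (.s k130 k194 7 (.d k129 k192 k131 8 0)))))))) (.c k192 (.q k86 [(.s k169 k252 14 (.d k43 k232 k23
  8 5)), (.s k2 k1 0 (.s k66 k126 5 (.s k130 k194 7 (.s k195 k65 8 (.d k131 k129 k67 0 7)))))] .n)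
  .n))) (.c k192 (.q k51 [(.s k2 k1 0 (.s k34 k17 4 (.s k18 k50 3 (.s k33 k48 4 (.d k35 k32 k19 0
  3))))), (.s k43 k23 5 (.s k169 k232 8 (.s k252 k86 14 (.s k185 k118 10 (.s k153 k137 3 (.d k59 k55
  k200 1 12))))))] (.c k2 (.l (.s k35 k19 3 (.s k43 k23 5 (.s k39 k47 1 (.s k27 k15 5 (.d k59 k55
  k11 1 3)))))) .n)) .n))))) (.c k43 (.q k51 [(.s k2 k1 0 (.s k34 k17 4 (.s k18 k50 3 (.s k33 k48 4
  (.d k35 k32 k19 0 3))))), (.s k17 k34 4 (.s k21 k42 6 (.s k25 k29 1 (.s k38 k12 6 (.d k55 k59 k4 1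
  4))))), (.s k1 k2 0 (.s k21 k42 6 (.s k41 k61 5 (.s k35 k19 3 (.s k38 k44 2 (.d k55 k59 k4 1
  4))))))] .n) (.c k60 (.q k51 [(.s k2 k1 0 (.s k34 k17 4 (.s k18 k50 3 (.s k33 k48 4 (.d k35 k32
  k19 0 3))))), (.s k17 k34 4 (.s k21 k42 6 (.s k25 k29 1 (.s k38 k12 6 (.d k55 k59 k4 1 4))))), (.s
  k35 k19 3 (.s k43 k23 5 (.s k39 k47 1 (.s k27 k15 5 (.d k59 k55 k11 1 3)))))] .n) (.c k61 (.l (.s
  k2 k1 0 (.s k43 k23 5 (.s k42 k21 6 (.s k41 k40 0 (.d k22 k62 k60 5 6)))))) (.c k62 (.l (.s k1 k2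
  0 (.s k23 k43 5 (.s k21 k42 6 (.s k22 k20 0 (.d k41 k61 k60 5 6)))))) .n)))))))))))))

def t10 : T TT 256 :=
  (.q k60 [(.s k40 k20 5 (.s k42 k21 6 (.s k41 k43 0 (.s k22 k3 6 (.d k62 k61 k2 0 5)))))] (.c k2
  (.l (.s k20 k40 5 (.s k21 k42 6 (.s k22 k23 0 (.s k41 k3 6 (.d k61 k62 k1 0 5)))))) (.c k3 (.f k42
  k21 6 (.q k38 [(.s k34 k46 1 (.s k51 k17 4 (.s k59 k55 1 (.d k25 k8 k12 4 6)))), (.s k40 k20 5 (.s
  k46 k34 1 (.s k41 k43 0 (.s k44 k35 2 (.d k12 k28 k29 3 4))))), (.s k40 k20 5 (.s k41 k43 0 (.s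
  k44 k35 2 (.s k12 k28 3 (.s k8 k4 1 (.d k25 k51 k59 6 4))))))] (.c k12 (.l (.s k34 k46 1 (.s k51
  k17 4 (.s k54 k57 2 (.s k62 k61 0 (.d k22 k6 k2 3 5)))))) (.c k51 (.l (.s k40 k20 5 (.s k46 k34 1
  (.s k12 k29 4 (.s k44 k28 3 (.d k41 k43 k35 0 2)))))) (.c k90 (.q k250 [(.s k34 k46 1 (.s k51 k17
  4 (.s k59 k55 1 (.d k25 k8 k12 4 6)))), (.s k40 k20 5 (.s k46 k34 1 (.s k41 k43 0 (.s k44 k35 2
  (.d k12 k28 k29 3 4))))), (.s k40 k20 5 (.s k41 k43 0 (.s k44 k35 2 (.s k12 k28 3 (.s k8 k4 1 (.d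
  k25 k51 k59 6 4))))))] (.c k12 (.l (.s k34 k46 1 (.s k51 k17 4 (.s k54 k57 2 (.s k62 k61 0 (.d k22
  k6 k2 3 5)))))) (.c k51 (.l (.s k40 k20 5 (.s k46 k34 1 (.s k12 k29 4 (.s k44 k28 3 (.d k41 k43
  k35 0 2)))))) .n))) (.c k250 (.q k90 [(.s k34 k46 1 (.s k51 k17 4 (.s k59 k55 1 (.d k25 k8 k12 4
  6)))), (.s k40 k20 5 (.s k46 k34 1 (.s k41 k43 0 (.s k44 k35 2 (.d k12 k28 k29 3 4))))), (.s k40
  k20 5 (.s k41 k43 0 (.s k44 k35 2 (.s k12 k28 3 (.s k8 k4 1 (.d k25 k51 k59 6 4))))))] (.c k12 (.l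
  (.s k34 k46 1 (.s k51 k17 4 (.s k54 k57 2 (.s k62 k61 0 (.d k22 k6 k2 3 5)))))) (.c k51 (.l (.s
  k40 k20 5 (.s k46 k34 1 (.s k12 k29 4 (.s k44 k28 3 (.d k41 k43 k35 0 2)))))) .n))) .n)))))) (.c
  k20 (.q k15 [(.s k45 k30 4 (.s k47 k31 3 (.s k46 k44 0 (.s k29 k12 4 (.d k61 k62 k13 0 3))))), (.s
  k21 k42 6 (.s k31 k47 3 (.s k26 k16 2 (.s k61 k62 0 (.s k41 k1 5 (.s k11 k56 4 (.d k3 k22 k7 6
  1))))))), (.s k21 k42 6 (.s k45 k30 4 (.s k61 k62 0 (.s k41 k1 5 (.s k37 k33 1 (.s k53 k5 3 (.d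
  k48 k58 k26 2 6))))))), (.s k42 k21 6 (.s k45 k30 4 (.s k47 k31 3 (.s k37 k32 2 (.s k41 k33 1 (.s
  k43 k40 0 (.d k3 k23 k22 5 6)))))))] (.c k90 (.q k250 [(.s k30 k45 4 (.s k31 k47 3 (.s k29 k28 0
  (.s k46 k12 4 (.d k62 k61 k14 0 3))))), (.s k21 k42 6 (.s k45 k30 4 (.s k61 k62 0 (.s k41 k1 5 (.s
  k37 k33 1 (.s k53 k5 3 (.d k48 k58 k26 2 6))))))), (.s k21 k42 6 (.s k31 k47 3 (.s k26 k16 2 (.s
  k61 k62 0 (.s k41 k1 5 (.s k11 k56 4 (.d k3 k22 k7 6 1))))))), (.s k42 k21 6 (.s k45 k30 4 (.s k47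
  k31 3 (.s k37 k32 2 (.s k41 k33 1 (.s k43 k40 0 (.d k3 k23 k22 5 6)))))))] .n) (.c k250 (.q k90
  [(.s k30 k45 4 (.s k31 k47 3 (.s k29 k28 0 (.s k46 k12 4 (.d k62 k61 k14 0 3))))), (.s k30 k45 4
  (.s k165 k240 14 (.s k150 k210 9 (.s k195 k105 14 (.d k135 k180 k75 4 9))))), (.s k31 k47 3 (.s
  k165 k240 14 (.s k149 k208 10 (.s k192 k106 14 (.d k133 k181 k74 3 10)))))] .n) .n))) (.c k21 (.q
  k106 [(.s k61 k62 0 (.s k149 k192 14 (.s k105 k193 13 (.s k107 k104 0 (.d k195 k151 k150 13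
  14))))), (.s k20 k40 5 (.s k192 k149 14 (.s k128 k64 7 (.s k148 k104 13 (.s k84 k212 7 (.d k168
  k188 k252 5 13))))))] (.c k90 (.q k250 [(.s k61 k62 0 (.s k149 k192 14 (.s k105 k193 13 (.s k107
  k104 0 (.d k195 k151 k150 13 14))))), (.s k20 k40 5 (.s k192 k149 14 (.s k128 k64 7 (.s k148 k104
  13 (.s k84 k212 7 (.d k168 k188 k252 5 13))))))] (.c k104 (.l (.s k62 k61 0 (.s k150 k194 13 (.s
  k195 k105 14 (.s k149 k192 14 (.d k151 k148 k107 0 13)))))) (.c k105 (.l (.s k40 k20 5 (.s k192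
  k149 14 (.s k104 k148 13 (.s k168 k232 7 (.s k84 k252 13 (.d k64 k128 k124 7 5))))))) (.c k149 (.f
  k20 k40 5 (.l (.s k62 k61 0 (.s k150 k194 13 (.s k85 k215 8 (.s k105 k195 14 (.s k64 k127 6 (.s
  k104 k107 0 (.d k192 k128 k148 7 13))))))))) (.c k192 (.f k20 k40 5 (.l (.s k62 k61 0 (.s k150
  k194 13 (.s k85 k215 8 (.s k127 k64 6 (.s k255 k191 7 (.s k125 k190 8 (.d k105 k195 k65 14
  5))))))))) .n))))) (.c k104 (.l (.s k62 k61 0 (.s k150 k194 13 (.s k195 k105 14 (.s k149 k192 14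
  (.d k151 k148 k107 0 13)))))) (.c k105 (.l (.s k40 k20 5 (.s k192 k149 14 (.s k104 k148 13 (.s
  k168 k232 7 (.s k84 k252 13 (.d k64 k128 k124 7 5))))))) (.c k149 (.f k20 k40 5 (.l (.s k62 k61 0
  (.s k150 k194 13 (.s k85 k215 8 (.s k105 k195 14 (.s k64 k127 6 (.s k104 k107 0 (.d k192 k128 k148
  7 13))))))))) (.c k192 (.f k20 k40 5 (.l (.s k62 k61 0 (.s k150 k194 13 (.s k85 k215 8 (.s k127
  k64 6 (.s k255 k191 7 (.s k125 k190 8 (.d k105 k195 k65 14 5))))))))) (.c k250 (.q k90 [(.s k61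
  k62 0 (.s k149 k192 14 (.s k105 k193 13 (.s k107 k104 0 (.d k195 k151 k150 13 14))))), (.s k149
  k192 14 (.s k31 k208 10 (.s k15 k47 3 (.s k240 k165 14 (.d k122 k74 k181 3 10))))), (.s k61 k62 0
  (.s k122 k74 3 (.s k181 k240 10 (.s k121 k241 9 (.s k243 k182 10 (.d k123 k120 k183 0 9))))))] .n)
  .n))))))) (.c k22 (.q k17 [(.s k51 k34 4 (.s k54 k57 2 (.s k55 k59 1 (.s k53 k52 0 (.s k58 k48 2
  (.d k62 k61 k50 0 1)))))), (.s k21 k42 6 (.s k29 k25 1 (.s k46 k12 4 (.s k62 k61 0 (.s k30 k14 3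
  (.s k15 k45 4 (.d k31 k28 k47 0 3))))))), (.s k20 k40 5 (.s k21 k42 6 (.s k29 k25 1 (.s k12 k46 4
  (.s k28 k44 3 (.s k16 k24 1 (.d k31 k26 k30 2 0)))))))] (.c k58 (.f k20 k40 5 (.f k42 k21 6 (.l
  (.s k34 k51 4 (.s k46 k38 1 (.s k12 k29 4 (.s k4 k8 1 (.s k36 k52 3 (.s k24 k48 5 (.d k28 k16 k44
  1 3)))))))))) (.c k59 (.l (.s k51 k34 4 (.s k21 k42 6 (.s k25 k29 1 (.s k57 k54 2 (.s k41 k9 3 (.d
  k61 k62 k1 0 5))))))) (.c k62 (.l (.s k51 k34 4 (.s k20 k40 5 (.s k54 k57 2 (.s k55 k59 1 (.s k52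
  k53 0 (.s k4 k36 3 (.d k21 k38 k42 4 6)))))))) (.c k90 (.q k250 [(.s k51 k34 4 (.s k54 k57 2 (.s
  k55 k59 1 (.s k53 k52 0 (.s k58 k48 2 (.d k62 k61 k50 0 1)))))), (.s k21 k42 6 (.s k29 k25 1 (.s
  k46 k12 4 (.s k62 k61 0 (.s k30 k14 3 (.s k15 k45 4 (.d k31 k28 k47 0 3))))))), (.s k20 k40 5 (.s
  k21 k42 6 (.s k29 k25 1 (.s k12 k46 4 (.s k28 k44 3 (.s k16 k24 1 (.d k31 k26 k30 2 0)))))))] (.c
  k58 (.f k42 k21 6 (.l (.s k34 k51 4 (.s k46 k38 1 (.s k12 k29 4 (.s k44 k28 3 (.s k45 k47 0 (.s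
  k30 k15 4 (.d k62 k61 k14 0 3))))))))) (.c k59 (.l (.s k51 k34 4 (.s k21 k42 6 (.s k25 k29 1 (.s
  k57 k54 2 (.s k41 k9 3 (.d k61 k62 k1 0 5))))))) (.c k62 (.l (.s k51 k34 4 (.s k20 k40 5 (.s k54
  k57 2 (.s k55 k59 1 (.s k52 k53 0 (.s k4 k36 3 (.d k21 k38 k42 4 6)))))))) .n)))) (.c k250 (.q k90
  [(.s k51 k34 4 (.s k54 k57 2 (.s k55 k59 1 (.s k53 k52 0 (.s k58 k48 2 (.d k62 k61 k50 0 1)))))),
  (.s k21 k42 6 (.s k29 k25 1 (.s k46 k12 4 (.s k62 k61 0 (.s k30 k14 3 (.s k15 k45 4 (.d k31 k28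
  k47 0 3))))))), (.s k20 k40 5 (.s k21 k42 6 (.s k29 k25 1 (.s k12 k46 4 (.s k28 k44 3 (.s k16 k24
  1 (.d k31 k26 k30 2 0)))))))] (.c k58 (.f k42 k21 6 (.l (.s k34 k51 4 (.s k46 k38 1 (.s k12 k29 4
  (.s k44 k28 3 (.s k45 k47 0 (.s k30 k15 4 (.d k62 k61 k14 0 3))))))))) (.c k59 (.l (.s k51 k34 4
  (.s k21 k42 6 (.s k25 k29 1 (.s k57 k54 2 (.s k41 k9 3 (.d k61 k62 k1 0 5))))))) (.c k62 (.l (.s
  k51 k34 4 (.s k20 k40 5 (.s k54 k57 2 (.s k55 k59 1 (.s k52 k53 0 (.s k4 k36 3 (.d k21 k38 k42 4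
  6)))))))) .n)))) .n)))))) (.c k23 (.l (.s k40 k20 5 (.s k62 k61 0 (.s k42 k21 6 (.s k22 k2 5 (.d
  k41 k43 k3 0 6)))))) (.c k40 (.q k15 [(.s k30 k45 4 (.s k31 k47 3 (.s k29 k28 0 (.s k46 k12 4 (.d
  k62 k61 k14 0 3))))), (.s k21 k42 6 (.s k31 k47 3 (.s k26 k16 2 (.s k61 k62 0 (.s k41 k1 5 (.s k11
  k56 4 (.d k3 k22 k7 6 1))))))), (.s k21 k42 6 (.s k45 k30 4 (.s k61 k62 0 (.s k41 k1 5 (.s k37 k33
  1 (.s k53 k5 3 (.d k48 k58 k26 2 6))))))), (.s k21 k42 6 (.s k30 k45 4 (.s k31 k47 3 (.s k26 k16 2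
  (.s k22 k18 1 (.s k23 k20 0 (.d k3 k43 k41 5 6)))))))] (.c k90 (.q k250 [(.s k30 k45 4 (.s k31 k47
  3 (.s k29 k28 0 (.s k46 k12 4 (.d k62 k61 k14 0 3))))), (.s k21 k42 6 (.s k31 k47 3 (.s k26 k16 2
  (.s k61 k62 0 (.s k41 k1 5 (.s k11 k56 4 (.d k3 k22 k7 6 1))))))), (.s k21 k42 6 (.s k45 k30 4 (.s
  k61 k62 0 (.s k41 k1 5 (.s k37 k33 1 (.s k53 k5 3 (.d k48 k58 k26 2 6))))))), (.s k21 k42 6 (.s
  k30 k45 4 (.s k31 k47 3 (.s k26 k16 2 (.s k22 k18 1 (.s k23 k20 0 (.d k3 k43 k41 5 6)))))))] (.c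
  k105 (.q k235 [(.s k30 k45 4 (.s k31 k47 3 (.s k29 k28 0 (.s k46 k12 4 (.d k62 k61 k14 0 3))))),
  (.s k21 k42 6 (.s k31 k47 3 (.s k26 k16 2 (.s k61 k62 0 (.s k41 k1 5 (.s k11 k56 4 (.d k3 k22 k7 6
  1))))))), (.s k21 k42 6 (.s k45 k30 4 (.s k61 k62 0 (.s k41 k1 5 (.s k37 k33 1 (.s k53 k5 3 (.d
  k48 k58 k26 2 6))))))), (.s k21 k42 6 (.s k30 k45 4 (.s k31 k47 3 (.s k26 k16 2 (.s k22 k18 1 (.s
  k23 k20 0 (.d k3 k43 k41 5 6)))))))] (.c k75 (.q k120 [(.s k30 k45 4 (.s k31 k47 3 (.s k29 k28 0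
  (.s k46 k12 4 (.d k62 k61 k14 0 3))))), (.s k240 k180 9 (.s k122 k181 10 (.s k186 k58 7 (.s k255
  k245 2 (.s k117 k48 10 (.d k127 k112 k191 2 7))))))] .n) (.c k120 (.q k75 [(.s k30 k45 4 (.s k31
  k47 3 (.s k29 k28 0 (.s k46 k12 4 (.d k62 k61 k14 0 3))))), (.s k195 k135 9 (.s k107 k151 13 (.s
  k171 k43 7 (.s k255 k215 5 (.s k87 k3 13 (.d k127 k67 k191 5 7))))))] .n) .n))) (.c k235 (.q k105
  [(.s k30 k45 4 (.s k31 k47 3 (.s k29 k28 0 (.s k46 k12 4 (.d k62 k61 k14 0 3))))), (.s k61 k62 0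
  (.s k150 k195 14 (.s k149 k193 13 (.s k192 k106 14 (.d k148 k151 k104 0 13))))), (.s k45 k30 4 (.s
  k47 k31 3 (.s k165 k225 9 (.s k106 k224 10 (.s k104 k107 0 (.d k192 k149 k148 14 13))))))] .n)
  .n))) (.c k105 (.q k235 [(.s k45 k30 4 (.s k61 k62 0 (.s k29 k13 3 (.s k46 k12 4 (.d k47 k44 k31 0
  3))))), (.s k21 k42 6 (.s k31 k47 3 (.s k26 k16 2 (.s k61 k62 0 (.s k41 k1 5 (.s k11 k56 4 (.d k3
  k22 k7 6 1))))))), (.s k21 k42 6 (.s k45 k30 4 (.s k61 k62 0 (.s k41 k1 5 (.s k37 k33 1 (.s k53 k5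
  3 (.d k48 k58 k26 2 6))))))), (.s k21 k42 6 (.s k30 k45 4 (.s k31 k47 3 (.s k26 k16 2 (.s k22 k18
  1 (.s k23 k20 0 (.d k3 k43 k41 5 6)))))))] (.c k90 (.q k250 [(.s k30 k45 4 (.s k31 k47 3 (.s k29
  k28 0 (.s k46 k12 4 (.d k62 k61 k14 0 3))))), (.s k21 k42 6 (.s k31 k47 3 (.s k26 k16 2 (.s k61
  k62 0 (.s k41 k1 5 (.s k11 k56 4 (.d k3 k22 k7 6 1))))))), (.s k21 k42 6 (.s k45 k30 4 (.s k61 k62
  0 (.s k41 k1 5 (.s k37 k33 1 (.s k53 k5 3 (.d k48 k58 k26 2 6))))))), (.s k21 k42 6 (.s k30 k45 4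
  (.s k31 k47 3 (.s k26 k16 2 (.s k22 k18 1 (.s k23 k20 0 (.d k3 k43 k41 5 6)))))))] (.c k75 (.q
  k120 [(.s k30 k45 4 (.s k31 k47 3 (.s k29 k28 0 (.s k46 k12 4 (.d k62 k61 k14 0 3))))), (.s k240
  k180 9 (.s k122 k181 10 (.s k186 k58 7 (.s k255 k245 2 (.s k117 k48 10 (.d k127 k112 k191 2
  7))))))] .n) (.c k120 (.q k75 [(.s k30 k45 4 (.s k31 k47 3 (.s k29 k28 0 (.s k46 k12 4 (.d k62 k61
  k14 0 3))))), (.s k195 k135 9 (.s k107 k151 13 (.s k171 k43 7 (.s k255 k215 5 (.s k87 k3 13 (.d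
  k127 k67 k191 5 7))))))] .n) .n))) (.c k250 (.q k90 [(.s k45 k30 4 (.s k61 k62 0 (.s k29 k13 3 (.s
  k46 k12 4 (.d k47 k44 k31 0 3))))), (.s k31 k47 3 (.s k165 k240 14 (.s k149 k208 10 (.s k192 k106
  14 (.d k133 k181 k74 3 10))))), (.s k30 k45 4 (.s k150 k210 9 (.s k62 k61 0 (.s k106 k194 13 (.s
  k74 k122 3 (.d k192 k149 k133 14 10))))))] .n) .n))) (.c k235 (.q k105 [(.s k30 k45 4 (.s k31 k47
  3 (.s k29 k28 0 (.s k46 k12 4 (.d k62 k61 k14 0 3))))), (.s k30 k45 4 (.s k150 k195 14 (.s k90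
  k210 9 (.s k240 k165 14 (.d k120 k75 k180 4 9))))), (.s k61 k62 0 (.s k150 k195 14 (.s k149 k193
  13 (.s k192 k106 14 (.d k148 k151 k104 0 13)))))] (.c k90 (.q k250 [(.s k30 k45 4 (.s k31 k47 3
  (.s k29 k28 0 (.s k46 k12 4 (.d k62 k61 k14 0 3))))), (.s k61 k62 0 (.s k150 k195 14 (.s k149 k193
  13 (.s k192 k106 14 (.d k148 k151 k104 0 13))))), (.s k45 k30 4 (.s k47 k31 3 (.s k165 k225 9 (.s
  k106 k224 10 (.s k104 k107 0 (.d k192 k149 k148 14 13))))))] .n) (.c k250 (.q k90 [(.s k30 k45 4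
  (.d k150 k210 k195 9 14)), (.s k240 k165 14 (.d k120 k75 k180 4 9))] .n) .n))) (.c k250 (.q k90
  [(.s k30 k45 4 (.s k31 k47 3 (.s k29 k28 0 (.s k46 k12 4 (.d k62 k61 k14 0 3))))), (.s k30 k45 4
  (.s k165 k240 14 (.s k150 k210 9 (.s k135 k180 4 (.d k195 k105 k75 14 9))))), (.s k31 k47 3 (.s
  k165 k240 14 (.s k149 k208 10 (.s k192 k106 14 (.d k133 k181 k74 3 10)))))] (.c k105 (.q k235 [(.s
  k45 k30 4 (.s k61 k62 0 (.s k29 k13 3 (.s k46 k12 4 (.d k47 k44 k31 0 3))))), (.s k31 k47 3 (.s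
  k165 k240 14 (.s k149 k208 10 (.s k192 k106 14 (.d k133 k181 k74 3 10))))), (.s k30 k45 4 (.s k150
  k210 9 (.s k62 k61 0 (.s k106 k194 13 (.s k74 k122 3 (.d k192 k149 k133 14 10))))))] .n) (.c k235
  (.q k105 [(.s k30 k45 4 (.d k150 k210 k195 9 14)), (.s k240 k165 14 (.d k120 k75 k180 4 9))] .n)
  .n))) .n))))) (.c k41 (.q k8 [(.s k12 k4 1 (.s k40 k20 5 (.s k24 k56 3 (.s k36 k48 5 (.d k44 k32
  k28 1 3))))), (.s k12 k4 1 (.s k42 k21 6 (.s k25 k59 4 (.s k38 k51 6 (.d k46 k34 k29 1 4))))), (.s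
  k40 k20 5 (.s k42 k21 6 (.s k56 k24 3 (.s k59 k25 4 (.s k57 k58 0 (.d k51 k55 k54 1 2))))))] (.c
  k90 (.q k250 [(.s k12 k4 1 (.s k40 k20 5 (.s k24 k56 3 (.s k36 k48 5 (.d k44 k32 k28 1 3))))), (.s
  k12 k4 1 (.s k42 k21 6 (.s k25 k59 4 (.s k38 k51 6 (.d k46 k34 k29 1 4))))), (.s k40 k20 5 (.s k42
  k21 6 (.s k56 k24 3 (.s k59 k25 4 (.s k57 k58 0 (.d k51 k55 k54 1 2))))))] .n) (.c k250 (.q k90
  [(.s k12 k4 1 (.s k40 k20 5 (.s k24 k56 3 (.s k36 k48 5 (.d k44 k32 k28 1 3))))), (.s k12 k4 1 (.s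
  k42 k21 6 (.s k25 k59 4 (.s k38 k51 6 (.d k46 k34 k29 1 4))))), (.s k40 k20 5 (.s k42 k21 6 (.s
  k56 k24 3 (.s k59 k25 4 (.s k57 k58 0 (.d k51 k55 k54 1 2))))))] .n) .n))) (.c k42 (.q k106 [(.s
  k62 k61 0 (.s k150 k194 13 (.s k105 k195 14 (.s k192 k149 14 (.d k104 k107 k148 0 13))))), (.s k20
  k40 5 (.s k192 k149 14 (.s k128 k64 7 (.s k148 k104 13 (.s k84 k212 7 (.d k168 k188 k252 5
  13)))))), (.s k61 k62 0 (.s k149 k192 14 (.s k105 k193 13 (.s k195 k150 14 (.d k107 k104 k151 0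
  13)))))] (.c k26 (.q k58 [(.s k48 k53 2 (.s k56 k52 1 (.s k57 k59 0 (.s k54 k51 2 (.d k62 k61 k50
  0 1))))), (.s k61 k62 0 (.s k149 k192 14 (.s k105 k193 13 (.s k195 k150 14 (.d k107 k104 k151 0
  13))))), (.s k48 k53 2 (.s k154 k202 11 (.s k101 k207 14 (.s k192 k149 14 (.d k96 k111 k144 2
  11)))))] (.c k90 (.q k250 [(.s k48 k53 2 (.s k56 k52 1 (.s k57 k59 0 (.s k54 k51 2 (.d k62 k61 k50
  0 1))))), (.s k61 k62 0 (.s k149 k192 14 (.s k105 k193 13 (.s k195 k150 14 (.d k107 k104 k151 0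
  13))))), (.s k48 k53 2 (.s k154 k202 11 (.s k101 k207 14 (.s k192 k149 14 (.d k96 k111 k144 2
  11)))))] (.c k154 (.q k218 [(.s k48 k53 2 (.s k56 k52 1 (.s k57 k59 0 (.s k54 k51 2 (.d k62 k61
  k50 0 1))))), (.s k61 k62 0 (.s k149 k192 14 (.s k105 k193 13 (.s k195 k150 14 (.d k107 k104 k151
  0 13))))), (.s k48 k53 2 (.s k186 k122 7 (.s k255 k117 10 (.s k192 k149 14 (.d k234 k202 k213 3
  6)))))] (.c k138 (.l (.s k186 k122 7 (.s k48 k53 2 (.s k255 k117 10 (.s k192 k149 14 (.d k234 k202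
  k213 3 6)))))) (.c k186 (.q k138 [(.s k207 k69 10 (.s k202 k234 3 (.d k192 k197 k149 2 14))), (.s
  k48 k53 2 (.s k56 k52 1 (.s k57 k59 0 (.s k54 k51 2 (.d k62 k61 k50 0 1)))))] .n) .n))) (.c k218
  (.l (.s k154 k202 11 (.s k48 k53 2 (.s k101 k207 14 (.s k192 k149 14 (.d k96 k111 k144 2 11))))))
  .n))) (.c k250 (.q k90 [(.s k48 k53 2 (.s k56 k52 1 (.s k57 k59 0 (.s k54 k51 2 (.d k62 k61 k50 0
  1))))), (.s k61 k62 0 (.s k149 k192 14 (.s k105 k193 13 (.s k195 k150 14 (.d k107 k104 k151 0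
  13))))), (.s k48 k53 2 (.s k154 k202 11 (.s k101 k207 14 (.s k192 k149 14 (.d k96 k111 k144 2
  11)))))] .n) .n))) (.c k58 (.q k26 [(.s k62 k61 0 (.s k150 k194 13 (.s k105 k195 14 (.s k192 k149
  14 (.d k104 k107 k148 0 13))))), (.s k20 k40 5 (.s k192 k149 14 (.s k128 k64 7 (.s k148 k104 13
  (.s k84 k212 7 (.d k168 k188 k252 5 13)))))), (.s k61 k62 0 (.s k149 k192 14 (.s k105 k193 13 (.s
  k195 k150 14 (.d k107 k104 k151 0 13)))))] (.c k90 (.q k250 [(.s k62 k61 0 (.s k150 k194 13 (.s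
  k105 k195 14 (.s k192 k149 14 (.d k104 k107 k148 0 13))))), (.s k20 k40 5 (.s k192 k149 14 (.s
  k128 k64 7 (.s k148 k104 13 (.s k84 k212 7 (.d k168 k188 k252 5 13)))))), (.s k61 k62 0 (.s k149
  k192 14 (.s k105 k193 13 (.s k195 k150 14 (.d k107 k104 k151 0 13)))))] (.c k104 (.l (.s k62 k61 0
  (.s k150 k194 13 (.s k195 k105 14 (.s k149 k192 14 (.d k151 k148 k107 0 13)))))) (.c k105 (.l (.s
  k40 k20 5 (.s k192 k149 14 (.s k104 k148 13 (.s k168 k232 7 (.s k84 k252 13 (.d k64 k128 k124 7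
  5))))))) (.c k149 (.f k20 k40 5 (.l (.s k62 k61 0 (.s k150 k194 13 (.s k85 k215 8 (.s k105 k195 14
  (.s k64 k127 6 (.s k104 k107 0 (.d k192 k128 k148 7 13))))))))) (.c k192 (.f k20 k40 5 (.l (.s k62
  k61 0 (.s k150 k194 13 (.s k85 k215 8 (.s k127 k64 6 (.s k255 k191 7 (.s k125 k190 8 (.d k105 k195
  k65 14 5))))))))) .n))))) (.c k104 (.l (.s k62 k61 0 (.s k150 k194 13 (.s k195 k105 14 (.s k149
  k192 14 (.d k151 k148 k107 0 13)))))) (.c k105 (.l (.s k40 k20 5 (.s k192 k149 14 (.s k104 k148 13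
  (.s k168 k232 7 (.s k84 k252 13 (.d k64 k128 k124 7 5))))))) (.c k149 (.f k20 k40 5 (.l (.s k62
  k61 0 (.s k150 k194 13 (.s k85 k215 8 (.s k105 k195 14 (.s k64 k127 6 (.s k104 k107 0 (.d k192
  k128 k148 7 13))))))))) (.c k192 (.f k20 k40 5 (.l (.s k62 k61 0 (.s k150 k194 13 (.s k85 k215 8
  (.s k127 k64 6 (.s k255 k191 7 (.s k125 k190 8 (.d k105 k195 k65 14 5))))))))) (.c k250 (.q k90
  [(.s k62 k61 0 (.s k150 k194 13 (.s k105 k195 14 (.s k192 k149 14 (.d k104 k107 k148 0 13))))),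
  (.s k149 k192 14 (.s k31 k208 10 (.s k15 k47 3 (.s k240 k165 14 (.d k122 k74 k181 3 10))))), (.s
  k61 k62 0 (.s k122 k74 3 (.s k181 k240 10 (.s k121 k241 9 (.s k243 k182 10 (.d k123 k120 k183 0
  9))))))] (.c k122 (.q k186 [(.s k149 k192 14 (.s k31 k208 10 (.s k15 k47 3 (.s k16 k21 2 (.d k48
  k32 k37 3 6))))), (.s k61 k62 0 (.s k149 k192 14 (.s k105 k193 13 (.s k195 k150 14 (.d k107 k104
  k151 0 13))))), (.s k62 k61 0 (.s k150 k194 13 (.s k30 k210 9 (.s k15 k45 4 (.s k47 k31 3 (.d k165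
  k224 k240 10 14))))))] .n) (.c k186 (.l (.s k122 k74 3 (.s k149 k192 14 (.s k31 k208 10 (.s k15
  k47 3 (.d k240 k181 k165 10 14)))))) .n))) .n))))))) (.c k90 (.q k250 [(.s k61 k62 0 (.s k149 k192
  14 (.s k105 k193 13 (.s k107 k104 0 (.d k195 k151 k150 13 14))))), (.s k20 k40 5 (.s k192 k149 14
  (.s k128 k64 7 (.s k148 k104 13 (.s k84 k212 7 (.d k168 k188 k252 5 13))))))] (.c k26 (.q k58 [(.s
  k48 k53 2 (.s k56 k52 1 (.s k57 k59 0 (.s k54 k51 2 (.d k62 k61 k50 0 1))))), (.s k61 k62 0 (.s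
  k149 k192 14 (.s k105 k193 13 (.s k195 k150 14 (.d k107 k104 k151 0 13))))), (.s k48 k53 2 (.s
  k154 k202 11 (.s k101 k207 14 (.s k192 k149 14 (.d k96 k111 k144 2 11)))))] (.c k154 (.q k218 [(.s
  k48 k53 2 (.s k56 k52 1 (.s k57 k59 0 (.s k54 k51 2 (.d k62 k61 k50 0 1))))), (.s k61 k62 0 (.s
  k149 k192 14 (.s k105 k193 13 (.s k195 k150 14 (.d k107 k104 k151 0 13))))), (.s k48 k53 2 (.s
  k186 k122 7 (.s k255 k117 10 (.s k192 k149 14 (.d k234 k202 k213 3 6)))))] (.c k138 (.l (.s k186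
  k122 7 (.s k48 k53 2 (.s k255 k117 10 (.s k192 k149 14 (.d k234 k202 k213 3 6)))))) (.c k186 (.q
  k138 [(.s k207 k69 10 (.s k202 k234 3 (.d k192 k197 k149 2 14))), (.s k48 k53 2 (.s k56 k52 1 (.s
  k57 k59 0 (.s k54 k51 2 (.d k62 k61 k50 0 1)))))] .n) .n))) (.c k218 (.l (.s k154 k202 11 (.s k48
  k53 2 (.s k101 k207 14 (.s k192 k149 14 (.d k96 k111 k144 2 11)))))) .n))) (.c k58 (.q k26 [(.s
  k62 k61 0 (.s k150 k194 13 (.s k105 k195 14 (.s k192 k149 14 (.d k104 k107 k148 0 13))))), (.s k20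
  k40 5 (.s k192 k149 14 (.s k128 k64 7 (.s k148 k104 13 (.s k84 k212 7 (.d k168 k188 k252 5
  13)))))), (.s k61 k62 0 (.s k149 k192 14 (.s k105 k193 13 (.s k195 k150 14 (.d k107 k104 k151 0
  13)))))] (.c k104 (.l (.s k62 k61 0 (.s k150 k194 13 (.s k195 k105 14 (.s k149 k192 14 (.d k151
  k148 k107 0 13)))))) (.c k105 (.l (.s k40 k20 5 (.s k192 k149 14 (.s k104 k148 13 (.s k168 k232 7
  (.s k84 k252 13 (.d k64 k128 k124 7 5))))))) (.c k149 (.f k20 k40 5 (.l (.s k62 k61 0 (.s k150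
  k194 13 (.s k85 k215 8 (.s k105 k195 14 (.s k64 k127 6 (.s k104 k107 0 (.d k192 k128 k148 7
  13))))))))) (.c k192 (.f k20 k40 5 (.l (.s k62 k61 0 (.s k150 k194 13 (.s k85 k215 8 (.s k127 k64
  6 (.s k255 k191 7 (.s k125 k190 8 (.d k105 k195 k65 14 5))))))))) .n))))) (.c k104 (.l (.s k62 k61
  0 (.s k150 k194 13 (.s k195 k105 14 (.s k149 k192 14 (.d k151 k148 k107 0 13)))))) (.c k105 (.l
  (.s k40 k20 5 (.s k192 k149 14 (.s k104 k148 13 (.s k168 k232 7 (.s k84 k252 13 (.d k64 k128 k124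
  7 5))))))) (.c k149 (.f k20 k40 5 (.l (.s k62 k61 0 (.s k150 k194 13 (.s k85 k215 8 (.s k105 k195
  14 (.s k64 k127 6 (.s k104 k107 0 (.d k192 k128 k148 7 13))))))))) (.c k192 (.f k20 k40 5 (.l (.s
  k62 k61 0 (.s k150 k194 13 (.s k85 k215 8 (.s k127 k64 6 (.s k255 k191 7 (.s k125 k190 8 (.d k105
  k195 k65 14 5))))))))) .n))))))) (.c k104 (.l (.s k62 k61 0 (.s k150 k194 13 (.s k195 k105 14 (.s
  k149 k192 14 (.d k151 k148 k107 0 13)))))) (.c k105 (.l (.s k40 k20 5 (.s k192 k149 14 (.s k104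
  k148 13 (.s k168 k232 7 (.s k84 k252 13 (.d k64 k128 k124 7 5))))))) (.c k149 (.f k20 k40 5 (.l
  (.s k62 k61 0 (.s k150 k194 13 (.s k85 k215 8 (.s k105 k195 14 (.s k64 k127 6 (.s k104 k107 0 (.d
  k192 k128 k148 7 13))))))))) (.c k192 (.f k20 k40 5 (.l (.s k62 k61 0 (.s k150 k194 13 (.s k85
  k215 8 (.s k127 k64 6 (.s k255 k191 7 (.s k125 k190 8 (.d k105 k195 k65 14 5))))))))) (.c k250 (.q
  k90 [(.s k62 k61 0 (.s k150 k194 13 (.s k105 k195 14 (.s k192 k149 14 (.d k104 k107 k148 0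
  13))))), (.s k149 k192 14 (.s k31 k208 10 (.s k15 k47 3 (.s k240 k165 14 (.d k122 k74 k181 3
  10))))), (.s k61 k62 0 (.s k122 k74 3 (.s k181 k240 10 (.s k121 k241 9 (.s k243 k182 10 (.d k123
  k120 k183 0 9))))))] (.c k26 (.q k58 [(.s k48 k53 2 (.s k56 k52 1 (.s k57 k59 0 (.s k54 k51 2 (.d
  k62 k61 k50 0 1))))), (.s k61 k62 0 (.s k149 k192 14 (.s k105 k193 13 (.s k195 k150 14 (.d k107
  k104 k151 0 13))))), (.s k48 k53 2 (.s k154 k202 11 (.s k101 k207 14 (.s k192 k149 14 (.d k96 k111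
  k144 2 11)))))] .n) (.c k58 (.q k26 [(.s k62 k61 0 (.s k150 k194 13 (.s k105 k195 14 (.s k192 k149
  14 (.d k104 k107 k148 0 13))))), (.s k149 k192 14 (.s k31 k208 10 (.s k15 k47 3 (.s k240 k165 14
  (.d k122 k74 k181 3 10))))), (.s k61 k62 0 (.s k122 k74 3 (.s k181 k240 10 (.s k121 k241 9 (.s
  k243 k182 10 (.d k123 k120 k183 0 9))))))] (.c k122 (.q k186 [(.s k149 k192 14 (.s k31 k208 10 (.s
  k15 k47 3 (.s k16 k21 2 (.d k48 k32 k37 3 6))))), (.s k61 k62 0 (.s k149 k192 14 (.s k105 k193 13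
  (.s k195 k150 14 (.d k107 k104 k151 0 13))))), (.s k62 k61 0 (.s k150 k194 13 (.s k30 k210 9 (.s
  k15 k45 4 (.s k47 k31 3 (.d k165 k224 k240 10 14))))))] .n) (.c k186 (.l (.s k122 k74 3 (.s k149
  k192 14 (.s k31 k208 10 (.s k15 k47 3 (.d k240 k181 k165 10 14)))))) .n))) .n))) .n))))))))) (.c
  k43 (.l (.s k20 k40 5 (.s k61 k62 0 (.s k21 k42 6 (.s k41 k1 5 (.d k22 k23 k3 0 6)))))) (.c k61
  (.q k8 [(.s k12 k4 1 (.s k40 k20 5 (.s k24 k56 3 (.s k36 k48 5 (.d k44 k32 k28 1 3))))), (.s k12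
  k4 1 (.s k42 k21 6 (.s k25 k59 4 (.s k38 k51 6 (.d k46 k34 k29 1 4))))), (.s k40 k20 5 (.s k42 k21
  6 (.s k56 k24 3 (.s k59 k25 4 (.s k57 k58 0 (.d k51 k55 k54 1 2))))))] (.c k90 (.q k250 [(.s k12
  k4 1 (.s k40 k20 5 (.s k24 k56 3 (.s k36 k48 5 (.d k44 k32 k28 1 3))))), (.s k12 k4 1 (.s k42 k21
  6 (.s k25 k59 4 (.s k38 k51 6 (.d k46 k34 k29 1 4))))), (.s k40 k20 5 (.s k42 k21 6 (.s k56 k24 3
  (.s k59 k25 4 (.s k57 k58 0 (.d k51 k55 k54 1 2))))))] .n) (.c k250 (.q k90 [(.s k12 k4 1 (.s k40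
  k20 5 (.s k24 k56 3 (.s k36 k48 5 (.d k44 k32 k28 1 3))))), (.s k12 k4 1 (.s k42 k21 6 (.s k25 k59
  4 (.s k38 k51 6 (.d k46 k34 k29 1 4))))), (.s k40 k20 5 (.s k42 k21 6 (.s k56 k24 3 (.s k59 k25 4
  (.s k57 k58 0 (.d k51 k55 k54 1 2))))))] .n) .n))) (.c k62 (.f k42 k21 6 (.q k15 [(.s k40 k20 5
  (.s k45 k30 4 (.s k41 k43 0 (.s k37 k33 1 (.d k47 k32 k31 2 3))))), (.s k40 k20 5 (.s k31 k47 3
  (.s k43 k41 0 (.s k23 k3 5 (.s k27 k19 1 (.s k59 k11 3 (.d k51 k55 k39 1 5))))))), (.s k30 k45 4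
  (.s k47 k31 3 (.s k37 k32 2 (.s k26 k48 6 (.s k22 k18 1 (.s k3 k41 6 (.d k7 k11 k52 1 4))))))),
  (.s k40 k20 5 (.s k30 k45 4 (.s k41 k43 0 (.s k22 k3 6 (.s k26 k18 1 (.s k56 k11 4 (.d k48 k52 k37
  1 6)))))))] (.c k22 (.l (.s k45 k30 4 (.s k47 k31 3 (.s k37 k32 2 (.s k41 k33 1 (.d k40 k43 k20 0
  5)))))) (.c k41 (.l (.s k40 k20 5 (.s k45 k30 4 (.s k47 k31 3 (.s k32 k37 2 (.d k44 k46 k36 0
  1)))))) (.c k90 (.q k250 [(.s k40 k20 5 (.s k45 k30 4 (.s k41 k43 0 (.s k37 k33 1 (.d k47 k32 k31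
  2 3))))), (.s k40 k20 5 (.s k31 k47 3 (.s k43 k41 0 (.s k23 k3 5 (.s k27 k19 1 (.s k59 k11 3 (.d
  k51 k55 k39 1 5))))))), (.s k30 k45 4 (.s k47 k31 3 (.s k37 k32 2 (.s k26 k48 6 (.s k22 k18 1 (.s
  k3 k41 6 (.d k7 k11 k52 1 4))))))), (.s k40 k20 5 (.s k30 k45 4 (.s k41 k43 0 (.s k22 k3 6 (.s k26
  k18 1 (.s k56 k11 4 (.d k48 k52 k37 1 6)))))))] (.c k22 (.l (.s k45 k30 4 (.s k47 k31 3 (.s k37
  k32 2 (.s k41 k33 1 (.d k40 k43 k20 0 5)))))) (.c k41 (.l (.s k40 k20 5 (.s k45 k30 4 (.s k47 k31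
  3 (.s k32 k37 2 (.d k44 k46 k36 0 1)))))) .n))) (.c k250 (.q k90 [(.s k30 k45 4 (.s k165 k240 14
  (.s k150 k210 9 (.s k135 k180 4 (.d k195 k75 k105 9 14))))), (.s k40 k20 5 (.s k45 k30 4 (.s k47
  k31 3 (.s k32 k37 2 (.d k44 k46 k36 0 1))))), (.s k31 k47 3 (.s k165 k240 14 (.s k149 k208 10 (.s
  k192 k106 14 (.d k133 k181 k74 3 10)))))] .n) .n)))))) (.c k90 (.q k250 [(.s k40 k20 5 (.s k42 k21
  6 (.s k41 k43 0 (.s k22 k3 6 (.d k62 k61 k2 0 5)))))] (.c k2 (.l (.s k20 k40 5 (.s k21 k42 6 (.s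
  k22 k23 0 (.s k41 k3 6 (.d k61 k62 k1 0 5)))))) (.c k3 (.q k17 [(.s k51 k34 4 (.s k21 k42 6 (.s
  k25 k29 1 (.s k55 k59 1 (.d k38 k4 k12 4 6))))), (.s k51 k34 4 (.s k54 k57 2 (.s k55 k59 1 (.s k53
  k52 0 (.s k58 k48 2 (.d k62 k61 k50 0 1)))))), (.s k21 k42 6 (.s k25 k29 1 (.s k61 k62 0 (.s k1
  k41 5 (.s k49 k33 3 (.s k37 k13 5 (.d k53 k57 k5 1 3)))))))] (.c k58 (.l (.s k51 k34 4 (.s k40 k20
  5 (.s k42 k21 6 (.s k41 k43 0 (.s k57 k54 2 (.s k25 k9 3 (.d k59 k8 k55 4 1)))))))) .n)) (.c k20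
  (.q k255 [(.s k62 k61 0 (.s k191 k127 7 (.s k190 k125 8 (.s k189 k188 0 (.d k126 k254 k252 7
  8))))), (.s k127 k191 7 (.s k240 k245 2 (.s k122 k181 10 (.s k186 k58 7 (.d k117 k112 k48 2
  10))))), (.s k61 k62 0 (.s k240 k245 2 (.s k180 k120 9 (.s k181 k122 10 (.s k121 k241 9 (.d k182
  k183 k243 0 10))))))] .n) (.c k21 (.q k255 [(.s k61 k62 0 (.s k125 k190 8 (.s k189 k253 7 (.s k126
  k252 8 (.d k127 k124 k191 0 7))))), (.s k127 k191 7 (.s k240 k245 2 (.s k122 k181 10 (.s k186 k58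
  7 (.d k117 k112 k48 2 10))))), (.s k61 k62 0 (.s k240 k245 2 (.s k180 k120 9 (.s k181 k122 10 (.s
  k121 k241 9 (.d k182 k183 k243 0 10))))))] .n) (.c k22 (.q k255 [(.s k62 k61 0 (.s k190 k125 8 (.s
  k191 k127 7 (.s k189 k188 0 (.d k126 k254 k252 7 8))))), (.s k127 k191 7 (.s k240 k245 2 (.s k122
  k181 10 (.s k186 k58 7 (.d k117 k112 k48 2 10))))), (.s k61 k62 0 (.s k240 k245 2 (.s k180 k120 9
  (.s k181 k122 10 (.s k121 k241 9 (.d k182 k183 k243 0 10))))))] .n) (.c k23 (.l (.s k40 k20 5 (.s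
  k62 k61 0 (.s k42 k21 6 (.s k22 k2 5 (.d k41 k43 k3 0 6)))))) (.c k40 (.f k42 k21 6 (.q k58 [(.s
  k53 k48 2 (.s k61 k62 0 (.s k57 k49 1 (.s k51 k54 2 (.d k59 k56 k55 0 1))))), (.s k122 k186 7 (.s
  k61 k62 0 (.s k181 k240 10 (.s k121 k241 9 (.s k243 k182 10 (.d k123 k120 k183 0 9)))))), (.s k48
  k53 2 (.s k52 k56 1 (.s k186 k122 7 (.s k117 k255 10 (.s k182 k247 8 (.s k243 k121 10 (.d k178
  k190 k113 1 8)))))))] (.c k105 (.q k235 [(.s k53 k48 2 (.s k61 k62 0 (.s k57 k49 1 (.s k51 k54 2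
  (.d k59 k56 k55 0 1))))), (.s k122 k186 7 (.s k61 k62 0 (.s k181 k240 10 (.s k121 k241 9 (.s k243
  k182 10 (.d k123 k120 k183 0 9)))))), (.s k48 k53 2 (.s k52 k56 1 (.s k186 k122 7 (.s k117 k255 10
  (.s k182 k247 8 (.s k243 k121 10 (.d k178 k190 k113 1 8)))))))] (.c k75 (.q k120 [(.s k240 k180 9
  (.d k122 k186 k181 7 10)), (.s k48 k53 2 (.s k56 k52 1 (.s k57 k59 0 (.s k54 k51 2 (.d k62 k61 k50
  0 1)))))] .n) (.c k120 (.q k75 [(.s k53 k48 2 (.s k61 k62 0 (.s k57 k49 1 (.s k51 k54 2 (.d k59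
  k56 k55 0 1))))), (.s k48 k53 2 (.s k32 k16 3 (.s k37 k47 2 (.s k186 k122 7 (.s k255 k117 10 (.s
  k195 k215 5 (.d k15 k26 k135 6 9))))))), (.s k122 k186 7 (.s k62 k61 0 (.s k182 k242 9 (.s k243
  k121 10 (.s k181 k240 10 (.d k183 k180 k123 0 9))))))] .n) .n))) (.c k235 (.q k105 [(.s k53 k48 2
  (.s k61 k62 0 (.s k57 k49 1 (.s k51 k54 2 (.d k59 k56 k55 0 1))))), (.s k61 k62 0 (.s k150 k195 14
  (.s k149 k193 13 (.s k192 k106 14 (.d k148 k151 k104 0 13))))), (.s k48 k53 2 (.s k52 k56 1 (.s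
  k150 k195 14 (.s k101 k199 12 (.s k207 k154 14 (.d k109 k97 k158 1 12))))))] .n) .n)))) (.c k41
  (.q k255 [(.s k61 k62 0 (.s k125 k190 8 (.s k189 k253 7 (.s k126 k252 8 (.d k127 k124 k191 0
  7))))), (.s k127 k191 7 (.s k240 k245 2 (.s k122 k181 10 (.s k186 k58 7 (.d k117 k112 k48 2
  10))))), (.s k61 k62 0 (.s k240 k245 2 (.s k180 k120 9 (.s k181 k122 10 (.s k121 k241 9 (.d k182
  k183 k243 0 10))))))] .n) (.c k42 (.q k106 [(.s k61 k62 0 (.s k149 k192 14 (.s k105 k193 13 (.s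
  k107 k104 0 (.d k195 k151 k150 13 14))))), (.s k20 k40 5 (.s k192 k149 14 (.s k128 k64 7 (.s k148
  k104 13 (.s k84 k212 7 (.d k168 k188 k252 5 13))))))] (.c k26 (.q k58 [(.s k48 k53 2 (.s k56 k52 1
  (.s k57 k59 0 (.s k54 k51 2 (.d k62 k61 k50 0 1))))), (.s k61 k62 0 (.s k149 k192 14 (.s k105 k193
  13 (.s k195 k150 14 (.d k107 k104 k151 0 13))))), (.s k48 k53 2 (.s k154 k202 11 (.s k101 k207 14
  (.s k192 k149 14 (.d k96 k111 k144 2 11)))))] (.c k154 (.q k218 [(.s k48 k53 2 (.s k56 k52 1 (.s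
  k57 k59 0 (.s k54 k51 2 (.d k62 k61 k50 0 1))))), (.s k61 k62 0 (.s k149 k192 14 (.s k105 k193 13
  (.s k195 k150 14 (.d k107 k104 k151 0 13))))), (.s k48 k53 2 (.s k186 k122 7 (.s k255 k117 10 (.s
  k192 k149 14 (.d k234 k202 k213 3 6)))))] (.c k138 (.l (.s k186 k122 7 (.s k48 k53 2 (.s k255 k117
  10 (.s k192 k149 14 (.d k234 k202 k213 3 6)))))) (.c k186 (.q k138 [(.s k207 k69 10 (.s k202 k234
  3 (.d k192 k197 k149 2 14))), (.s k48 k53 2 (.s k56 k52 1 (.s k57 k59 0 (.s k54 k51 2 (.d k62 k61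
  k50 0 1)))))] .n) .n))) (.c k218 (.l (.s k154 k202 11 (.s k48 k53 2 (.s k101 k207 14 (.s k192 k149
  14 (.d k96 k111 k144 2 11)))))) .n))) (.c k58 (.q k26 [(.s k62 k61 0 (.s k150 k194 13 (.s k105
  k195 14 (.s k192 k149 14 (.d k104 k107 k148 0 13))))), (.s k20 k40 5 (.s k192 k149 14 (.s k128 k64
  7 (.s k148 k104 13 (.s k84 k212 7 (.d k168 k188 k252 5 13)))))), (.s k61 k62 0 (.s k149 k192 14
  (.s k105 k193 13 (.s k195 k150 14 (.d k107 k104 k151 0 13)))))] (.c k104 (.l (.s k62 k61 0 (.s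
  k150 k194 13 (.s k195 k105 14 (.s k149 k192 14 (.d k151 k148 k107 0 13)))))) (.c k105 (.l (.s k40
  k20 5 (.s k192 k149 14 (.s k104 k148 13 (.s k168 k232 7 (.s k84 k252 13 (.d k64 k128 k124 7
  5))))))) (.c k149 (.f k20 k40 5 (.l (.s k62 k61 0 (.s k150 k194 13 (.s k85 k215 8 (.s k105 k195 14
  (.s k64 k127 6 (.s k104 k107 0 (.d k192 k128 k148 7 13))))))))) (.c k192 (.f k20 k40 5 (.l (.s k62
  k61 0 (.s k150 k194 13 (.s k85 k215 8 (.s k127 k64 6 (.s k255 k191 7 (.s k125 k190 8 (.d k105 k195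
  k65 14 5))))))))) .n))))) (.c k104 (.l (.s k62 k61 0 (.s k150 k194 13 (.s k195 k105 14 (.s k149
  k192 14 (.d k151 k148 k107 0 13)))))) (.c k105 (.l (.s k40 k20 5 (.s k192 k149 14 (.s k104 k148 13
  (.s k168 k232 7 (.s k84 k252 13 (.d k64 k128 k124 7 5))))))) (.c k149 (.f k20 k40 5 (.l (.s k62
  k61 0 (.s k150 k194 13 (.s k85 k215 8 (.s k105 k195 14 (.s k64 k127 6 (.s k104 k107 0 (.d k192
  k128 k148 7 13))))))))) (.c k192 (.f k20 k40 5 (.l (.s k62 k61 0 (.s k150 k194 13 (.s k85 k215 8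
  (.s k127 k64 6 (.s k255 k191 7 (.s k125 k190 8 (.d k105 k195 k65 14 5))))))))) .n))))))) (.c k43
  (.l (.s k20 k40 5 (.s k61 k62 0 (.s k21 k42 6 (.s k41 k1 5 (.d k22 k23 k3 0 6)))))) (.c k61 (.q k8
  [(.s k12 k4 1 (.s k40 k20 5 (.s k24 k56 3 (.s k36 k48 5 (.d k44 k32 k28 1 3))))), (.s k12 k4 1 (.s
  k42 k21 6 (.s k25 k59 4 (.s k38 k51 6 (.d k46 k34 k29 1 4))))), (.s k40 k20 5 (.s k42 k21 6 (.s
  k56 k24 3 (.s k59 k25 4 (.s k57 k58 0 (.d k51 k55 k54 1 2))))))] .n) (.c k62 (.q k8 [(.s k12 k4 1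
  (.s k40 k20 5 (.s k24 k56 3 (.s k36 k48 5 (.d k44 k32 k28 1 3))))), (.s k12 k4 1 (.s k42 k21 6 (.s
  k25 k59 4 (.s k38 k51 6 (.d k46 k34 k29 1 4))))), (.s k40 k20 5 (.s k42 k21 6 (.s k56 k24 3 (.s
  k59 k25 4 (.s k57 k58 0 (.d k51 k54 k55 2 1))))))] .n) .n))))))))))))) (.c k250 (.q k90 [(.s k40
  k20 5 (.s k42 k21 6 (.s k41 k43 0 (.s k22 k3 6 (.d k62 k61 k2 0 5)))))] (.c k2 (.l (.s k20 k40 5
  (.s k21 k42 6 (.s k22 k23 0 (.s k41 k3 6 (.d k61 k62 k1 0 5)))))) (.c k3 (.q k15 [(.s k30 k45 4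
  (.s k31 k47 3 (.s k29 k28 0 (.s k62 k61 0 (.d k46 k14 k12 3 4))))), (.s k30 k45 4 (.s k165 k240 14
  (.s k150 k210 9 (.s k195 k105 14 (.d k135 k180 k75 4 9))))), (.s k31 k47 3 (.s k165 k240 14 (.s
  k149 k208 10 (.s k192 k106 14 (.d k133 k181 k74 3 10)))))] .n) (.c k20 (.q k15 [(.s k30 k45 4 (.s
  k31 k47 3 (.s k29 k28 0 (.s k46 k12 4 (.d k62 k61 k14 0 3))))), (.s k30 k45 4 (.s k165 k240 14 (.s
  k150 k210 9 (.s k195 k105 14 (.d k135 k180 k75 4 9))))), (.s k31 k47 3 (.s k165 k240 14 (.s k149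
  k208 10 (.s k192 k106 14 (.d k133 k181 k74 3 10)))))] .n) (.c k21 (.q k15 [(.s k30 k45 4 (.s k31
  k47 3 (.s k29 k28 0 (.s k46 k12 4 (.d k62 k61 k14 0 3))))), (.s k30 k45 4 (.s k165 k240 14 (.s
  k150 k210 9 (.s k195 k105 14 (.d k135 k180 k75 4 9))))), (.s k31 k47 3 (.s k165 k240 14 (.s k149
  k208 10 (.s k192 k106 14 (.d k133 k181 k74 3 10)))))] .n) (.c k22 (.q k15 [(.s k30 k45 4 (.s k31
  k47 3 (.s k29 k28 0 (.s k46 k12 4 (.d k62 k61 k14 0 3))))), (.s k30 k45 4 (.s k165 k240 14 (.s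
  k150 k210 9 (.s k195 k105 14 (.d k135 k180 k75 4 9))))), (.s k31 k47 3 (.s k165 k240 14 (.s k149
  k208 10 (.s k192 k106 14 (.d k133 k181 k74 3 10)))))] .n) (.c k23 (.l (.s k40 k20 5 (.s k62 k61 0
  (.s k42 k21 6 (.s k22 k2 5 (.d k41 k43 k3 0 6)))))) (.c k40 (.q k15 [(.s k30 k45 4 (.s k31 k47 3
  (.s k29 k28 0 (.s k46 k12 4 (.d k62 k61 k14 0 3))))), (.s k30 k45 4 (.s k165 k240 14 (.s k150 k210
  9 (.s k135 k180 4 (.d k195 k105 k75 14 9))))), (.s k31 k47 3 (.s k165 k240 14 (.s k149 k208 10 (.s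
  k192 k106 14 (.d k133 k181 k74 3 10)))))] (.c k105 (.q k235 [(.s k45 k30 4 (.s k61 k62 0 (.s k29
  k13 3 (.s k46 k12 4 (.d k47 k44 k31 0 3))))), (.s k31 k47 3 (.s k165 k240 14 (.s k149 k208 10 (.s
  k192 k106 14 (.d k133 k181 k74 3 10))))), (.s k30 k45 4 (.s k150 k210 9 (.s k62 k61 0 (.s k106
  k194 13 (.s k74 k122 3 (.d k192 k149 k133 14 10))))))] .n) (.c k235 (.q k105 [(.s k30 k45 4 (.d
  k150 k210 k195 9 14)), (.s k240 k165 14 (.d k120 k75 k180 4 9))] .n) .n))) (.c k41 (.q k15 [(.s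
  k30 k45 4 (.s k31 k47 3 (.s k29 k28 0 (.s k46 k12 4 (.d k62 k61 k14 0 3))))), (.s k31 k47 3 (.s
  k165 k240 14 (.s k149 k208 10 (.s k192 k106 14 (.d k133 k181 k74 3 10))))), (.s k30 k45 4 (.s k165
  k240 14 (.s k150 k210 9 (.s k195 k105 14 (.d k135 k180 k75 4 9)))))] .n) (.c k42 (.q k106 [(.s k62
  k61 0 (.s k150 k194 13 (.s k105 k195 14 (.s k192 k149 14 (.d k104 k107 k148 0 13))))), (.s k149
  k192 14 (.s k31 k208 10 (.s k15 k47 3 (.s k240 k165 14 (.d k122 k74 k181 3 10))))), (.s k61 k62 0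
  (.s k122 k74 3 (.s k181 k240 10 (.s k121 k241 9 (.s k243 k182 10 (.d k123 k120 k183 0 9))))))] (.c
  k26 (.q k58 [(.s k48 k53 2 (.s k56 k52 1 (.s k57 k59 0 (.s k54 k51 2 (.d k62 k61 k50 0 1))))), (.s
  k61 k62 0 (.s k149 k192 14 (.s k105 k193 13 (.s k195 k150 14 (.d k107 k104 k151 0 13))))), (.s k48
  k53 2 (.s k154 k202 11 (.s k101 k207 14 (.s k192 k149 14 (.d k96 k111 k144 2 11)))))] .n) (.c k58
  (.q k26 [(.s k62 k61 0 (.s k150 k194 13 (.s k105 k195 14 (.s k192 k149 14 (.d k104 k107 k148 0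
  13))))), (.s k149 k192 14 (.s k31 k208 10 (.s k15 k47 3 (.s k240 k165 14 (.d k122 k74 k181 3
  10))))), (.s k61 k62 0 (.s k122 k74 3 (.s k181 k240 10 (.s k121 k241 9 (.s k243 k182 10 (.d k123
  k120 k183 0 9))))))] (.c k122 (.q k186 [(.s k149 k192 14 (.s k31 k208 10 (.s k15 k47 3 (.s k16 k21
  2 (.d k48 k32 k37 3 6))))), (.s k61 k62 0 (.s k149 k192 14 (.s k105 k193 13 (.s k195 k150 14 (.d
  k107 k104 k151 0 13))))), (.s k62 k61 0 (.s k150 k194 13 (.s k30 k210 9 (.s k15 k45 4 (.s k47 k31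
  3 (.d k165 k224 k240 10 14))))))] .n) (.c k186 (.l (.s k122 k74 3 (.s k149 k192 14 (.s k31 k208 10
  (.s k15 k47 3 (.d k240 k181 k165 10 14)))))) .n))) .n))) (.c k43 (.l (.s k20 k40 5 (.s k61 k62 0
  (.s k21 k42 6 (.s k41 k1 5 (.d k22 k23 k3 0 6)))))) (.c k61 (.q k15 [(.s k45 k30 4 (.s k165 k240
  14 (.s k105 k225 9 (.s k195 k150 14 (.d k75 k120 k135 4 9))))), (.s k20 k40 5 (.s k21 k42 6 (.s
  k30 k45 4 (.s k31 k47 3 (.s k26 k16 2 (.d k22 k23 k18 0 1)))))), (.s k31 k47 3 (.s k165 k240 14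
  (.s k149 k208 10 (.s k192 k106 14 (.d k133 k181 k74 3 10)))))] .n) (.c k62 (.q k15 [(.s k30 k45 4
  (.s k165 k240 14 (.s k150 k210 9 (.s k135 k180 4 (.d k195 k75 k105 9 14))))), (.s k20 k40 5 (.s
  k21 k42 6 (.s k30 k45 4 (.s k31 k47 3 (.s k26 k16 2 (.d k22 k23 k18 0 1)))))), (.s k31 k47 3 (.s
  k165 k240 14 (.s k149 k208 10 (.s k192 k106 14 (.d k133 k181 k74 3 10)))))] .n) .n)))))))))))))
  .n)))))))))))))))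

def t11 : T TT 256 :=
  (.q k12 [(.s k8 k4 1 (.s k42 k21 6 (.s k25 k59 4 (.s k38 k51 6 (.d k46 k34 k29 1 4))))), (.s k4 k8
  1 (.s k21 k42 6 (.s k38 k55 4 (.s k25 k51 6 (.d k29 k17 k46 1 4)))))] (.c k4 (.q k13 [(.s k15 k14
  0 (.s k29 k46 4 (.s k45 k61 3 (.s k30 k60 4 (.d k31 k28 k47 0 3))))), (.s k21 k42 6 (.s k15 k14 0
  (.s k5 k10 2 (.s k37 k53 3 (.s k26 k48 6 (.d k31 k16 k47 2 3)))))), (.s k21 k42 6 (.s k29 k46 4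
  (.s k61 k45 3 (.s k1 k41 5 (.s k3 k2 0 (.d k9 k5 k6 1 2))))))] (.c k47 (.l (.s k21 k42 6 (.s k15
  k14 0 (.s k5 k10 2 (.s k37 k53 3 (.s k29 k46 4 (.d k25 k17 k49 1 5))))))) .n)) (.c k8 (.q k10 [(.s
  k15 k5 2 (.s k42 k21 6 (.s k26 k58 3 (.s k37 k48 6 (.d k47 k32 k31 2 3))))), (.s k42 k21 6 (.s k26
  k58 3 (.s k46 k29 4 (.s k38 k34 1 (.s k14 k50 5 (.s k2 k6 1 (.d k62 k30 k22 3 5))))))), (.s k15 k5
  2 (.s k13 k14 0 (.s k29 k46 4 (.s k45 k61 3 (.s k30 k60 4 (.d k31 k28 k47 0 3))))))] (.c k89 (.q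
  k251 [(.s k15 k5 2 (.s k42 k21 6 (.s k26 k58 3 (.s k37 k48 6 (.d k47 k32 k31 2 3))))), (.s k42 k21
  6 (.s k26 k58 3 (.s k46 k29 4 (.s k38 k34 1 (.s k14 k50 5 (.s k2 k6 1 (.d k62 k30 k22 3 5))))))),
  (.s k15 k5 2 (.s k13 k14 0 (.s k29 k46 4 (.s k45 k61 3 (.s k30 k60 4 (.d k31 k28 k47 0 3))))))]
  .n) (.c k251 (.q k89 [(.s k15 k5 2 (.s k42 k21 6 (.s k26 k58 3 (.s k37 k48 6 (.d k47 k32 k31 2
  3))))), (.s k29 k46 4 (.s k166 k243 14 (.s k149 k209 9 (.s k132 k183 4 (.d k192 k72 k106 9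
  14)))))] (.c k91 (.q k171 [(.s k15 k5 2 (.s k42 k21 6 (.s k26 k58 3 (.s k37 k48 6 (.d k47 k32 k31
  2 3))))), (.s k29 k46 4 (.s k243 k166 14 (.s k149 k209 9 (.s k106 k192 14 (.d k123 k72 k183 4
  9)))))] .n) (.c k171 (.q k91 [(.s k15 k5 2 (.d k243 k167 k166 13 14)), (.s k29 k46 4 (.s k166 k243
  14 (.s k149 k209 9 (.s k192 k106 14 (.d k132 k183 k72 4 9))))), (.s k15 k5 2 (.s k13 k14 0 (.s
  k165 k241 13 (.d k90 k88 k240 0 14))))] (.c k168 (.q k169 [(.s k15 k5 2 (.d k243 k167 k166 13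
  14)), (.s k9 k249 11 (.s k3 k6 2 (.s k86 k252 14 (.s k243 k166 14 (.d k83 k92 k163 2 11))))), (.s
  k5 k15 2 (.s k9 k249 11 (.s k1 k13 1 (.d k3 k2 k6 0 2))))] (.c k88 (.q k248 [(.s k15 k5 2 (.d k243
  k167 k166 13 14)), (.s k9 k249 11 (.s k3 k6 2 (.s k86 k252 14 (.s k243 k166 14 (.d k83 k92 k163 2
  11))))), (.s k5 k15 2 (.s k9 k249 11 (.s k1 k13 1 (.d k3 k2 k6 0 2))))] .n) (.c k248 (.l (.s k88
  k90 0 (.s k15 k5 2 (.d k243 k167 k166 13 14)))) .n))) (.c k169 (.q k168 [(.s k15 k5 2 (.d k243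
  k167 k166 13 14)), (.s k252 k84 13 (.s k172 k92 11 (.s k164 k160 1 (.d k88 k90 k240 0 13))))] (.c
  k90 (.q k248 [(.s k15 k5 2 (.d k243 k167 k166 13 14)), (.s k252 k84 13 (.s k172 k92 11 (.s k160
  k164 1 (.d k240 k244 k80 1 11))))] .n) (.c k248 (.l (.s k90 k88 0 (.s k15 k5 2 (.d k243 k167 k166
  13 14)))) .n))) .n))) .n))) .n))) (.c k21 (.q k15 [(.s k13 k14 0 (.s k29 k46 4 (.s k31 k47 3 (.s
  k30 k28 0 (.d k45 k61 k60 3 4))))), (.s k4 k8 1 (.s k13 k14 0 (.s k5 k10 2 (.s k9 k1 1 (.d k6 k7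
  k3 0 2)))))] (.c k13 (.q k106 [(.s k29 k46 4 (.s k149 k192 14 (.s k89 k209 9 (.s k123 k72 4 (.d
  k243 k183 k166 9 14))))), (.s k31 k47 3 (.s k149 k192 14 (.s k90 k208 10 (.s k122 k74 3 (.d k240
  k181 k165 10 14))))), (.s k46 k29 4 (.s k47 k31 3 (.s k166 k226 9 (.s k165 k224 10 (.s k164 k167 0
  (.d k240 k88 k90 13 14))))))] .n) (.c k14 (.q k106 [(.s k31 k47 3 (.s k149 k192 14 (.s k90 k208 10
  (.s k240 k165 14 (.d k122 k74 k181 3 10))))), (.s k46 k29 4 (.s k166 k226 9 (.s k89 k243 14 (.s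
  k192 k149 14 (.d k72 k123 k132 4 9))))), (.s k46 k29 4 (.s k47 k31 3 (.s k166 k226 9 (.s k165 k224
  10 (.s k164 k167 0 (.d k240 k88 k90 13 14))))))] .n) (.c k61 (.l (.s k14 k13 0 (.s k47 k31 3 (.s
  k46 k29 4 (.s k45 k44 0 (.d k30 k62 k60 3 4)))))) .n)))) (.c k25 (.q k13 [(.s k15 k14 0 (.s k29
  k46 4 (.s k45 k61 3 (.s k30 k60 4 (.d k31 k28 k47 0 3))))), (.s k4 k8 1 (.s k15 k14 0 (.s k5 k10 2
  (.s k9 k1 1 (.d k6 k7 k3 0 2))))), (.s k21 k42 6 (.s k29 k46 4 (.s k61 k45 3 (.s k1 k41 5 (.s k3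
  k2 0 (.d k9 k5 k6 1 2))))))] .n) (.c k29 (.q k15 [(.s k10 k5 2 (.s k42 k21 6 (.s k26 k58 3 (.s k37
  k48 6 (.d k47 k32 k31 2 3))))), (.s k4 k8 1 (.s k13 k14 0 (.s k5 k10 2 (.s k9 k1 1 (.d k6 k7 k3 0
  2))))), (.s k8 k4 1 (.s k42 k21 6 (.s k25 k59 4 (.s k13 k14 0 (.s k37 k49 5 (.d k47 k32 k31 2
  3))))))] .n) (.c k38 (.q k15 [(.s k14 k13 0 (.s k46 k29 4 (.s k30 k62 3 (.s k45 k60 4 (.d k47 k44
  k31 0 3))))), (.s k4 k8 1 (.s k13 k14 0 (.s k5 k10 2 (.s k9 k1 1 (.d k6 k7 k3 0 2))))), (.s k5 k10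
  2 (.s k21 k42 6 (.s k37 k53 3 (.s k26 k48 6 (.d k31 k16 k47 2 3)))))] .n) (.c k42 (.q k13 [(.s k15
  k14 0 (.s k29 k46 4 (.s k45 k61 3 (.s k30 k60 4 (.d k31 k28 k47 0 3))))), (.s k4 k8 1 (.s k15 k14
  0 (.s k5 k10 2 (.s k9 k1 1 (.d k6 k7 k3 0 2)))))] (.c k14 (.q k15 [(.s k29 k46 4 (.s k45 k61 3 (.s
  k30 k60 4 (.d k31 k28 k47 0 3)))), (.s k4 k8 1 (.s k5 k10 2 (.s k9 k1 1 (.d k6 k7 k3 0 2))))] (.c
  k106 (.q k234 [(.s k29 k46 4 (.s k45 k61 3 (.s k30 k60 4 (.d k31 k28 k47 0 3)))), (.s k4 k8 1 (.s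
  k5 k10 2 (.s k9 k1 1 (.d k6 k7 k3 0 2))))] .n) (.c k234 (.q k106 [(.s k29 k46 4 (.s k45 k61 3 (.s
  k30 k60 4 (.d k31 k28 k47 0 3)))), (.s k4 k8 1 (.s k5 k10 2 (.s k9 k1 1 (.d k6 k7 k3 0 2))))] .n)
  .n))) (.c k15 (.f k8 k4 1 (.l (.s k29 k46 4 (.s k61 k45 3 (.s k60 k62 0 (.s k40 k20 5 (.s k24 k56
  3 (.s k36 k48 5 (.d k44 k32 k28 1 3))))))))) (.c k106 (.q k234 [(.s k15 k14 0 (.s k29 k46 4 (.s
  k45 k61 3 (.s k30 k60 4 (.d k31 k28 k47 0 3))))), (.s k4 k8 1 (.s k15 k14 0 (.s k5 k10 2 (.s k9 k1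
  1 (.d k6 k7 k3 0 2)))))] (.c k14 (.q k15 [(.s k29 k46 4 (.s k45 k61 3 (.s k30 k60 4 (.d k31 k28
  k47 0 3)))), (.s k4 k8 1 (.s k5 k10 2 (.s k9 k1 1 (.d k6 k7 k3 0 2))))] .n) (.c k15 (.f k8 k4 1
  (.l (.s k29 k46 4 (.s k61 k45 3 (.s k60 k62 0 (.s k40 k20 5 (.s k24 k56 3 (.s k36 k48 5 (.d k44
  k32 k28 1 3))))))))) .n))) (.c k234 (.q k106 [(.s k15 k14 0 (.s k29 k46 4 (.s k45 k61 3 (.s k30
  k60 4 (.d k31 k28 k47 0 3))))), (.s k4 k8 1 (.s k15 k14 0 (.s k5 k10 2 (.s k9 k1 1 (.d k6 k7 k3 0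
  2))))), (.s k29 k46 4 (.s k149 k192 14 (.s k89 k209 9 (.s k243 k166 14 (.d k123 k72 k183 4 9)))))]
  .n) .n))))) (.c k46 (.q k15 [(.s k10 k5 2 (.s k42 k21 6 (.s k26 k58 3 (.s k37 k48 6 (.d k47 k32
  k31 2 3))))), (.s k4 k8 1 (.s k13 k14 0 (.s k5 k10 2 (.s k9 k1 1 (.d k6 k7 k3 0 2))))), (.s k8 k4
  1 (.s k42 k21 6 (.s k25 k59 4 (.s k13 k14 0 (.s k37 k49 5 (.d k47 k32 k31 2 3))))))] .n) (.c k51
  (.q k15 [(.s k13 k14 0 (.s k29 k46 4 (.s k45 k61 3 (.s k30 k60 4 (.d k31 k28 k47 0 3))))), (.s k4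
  k8 1 (.s k13 k14 0 (.s k5 k10 2 (.s k9 k1 1 (.d k6 k7 k3 0 2))))), (.s k5 k10 2 (.s k21 k42 6 (.s
  k37 k53 3 (.s k26 k48 6 (.d k31 k16 k47 2 3)))))] .n) (.c k55 (.l (.s k8 k4 1 (.s k46 k29 4 (.s
  k42 k21 6 (.s k38 k34 1 (.d k25 k59 k51 4 6)))))) (.c k59 (.l (.s k4 k8 1 (.s k29 k46 4 (.s k21
  k42 6 (.s k25 k17 1 (.d k38 k55 k51 4 6)))))) .n))))))))))))

def t15 : T TT 256 :=
  (.q k3 [(.s k2 k1 0 (.s k42 k21 6 (.s k22 k62 5 (.s k41 k60 6 (.d k43 k40 k23 0 5))))), (.s k1 k2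
  0 (.s k21 k42 6 (.s k41 k61 5 (.s k23 k43 5 (.d k22 k20 k60 0 6)))))] (.c k1 (.f k42 k21 6 (.q k51
  [(.s k34 k17 4 (.s k38 k46 1 (.s k59 k55 1 (.d k25 k8 k12 4 6)))), (.s k19 k35 3 (.s k43 k23 5 (.s
  k41 k40 0 (.s k22 k60 6 (.s k25 k28 2 (.d k59 k55 k8 1 4)))))), (.s k34 k17 4 (.s k35 k19 3 (.s
  k43 k23 5 (.s k38 k46 1 (.d k41 k40 k44 0 2)))))] (.c k25 (.l (.s k35 k19 3 (.s k43 k23 5 (.s k47
  k39 1 (.s k32 k37 2 (.d k34 k33 k17 0 4)))))) (.c k41 (.q k61 [(.s k34 k17 4 (.s k38 k46 1 (.s k59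
  k55 1 (.d k25 k8 k12 4 6)))), (.s k19 k35 3 (.s k59 k55 1 (.s k25 k8 4 (.s k22 k28 2 (.d k62 k60
  k2 0 5))))), (.s k34 k17 4 (.s k35 k19 3 (.s k43 k23 5 (.s k47 k39 1 (.d k32 k33 k37 0 2)))))] (.c
  k25 (.l (.s k35 k19 3 (.s k43 k23 5 (.s k47 k39 1 (.s k32 k37 2 (.d k34 k33 k17 0 4)))))) (.c k55
  (.l (.s k34 k17 4 (.s k19 k35 3 (.s k38 k46 1 (.s k25 k12 6 (.s k22 k28 2 (.d k62 k60 k2 0
  5))))))) .n))) (.c k61 (.q k41 [(.d k43 k40 k23 0 5), (.s k34 k17 4 (.s k35 k19 3 (.d k38 k46 k44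
  1 2)))] .n) .n))))) (.c k2 (.f k42 k21 6 (.q k51 [(.s k34 k17 4 (.s k38 k46 1 (.s k59 k55 1 (.d
  k25 k8 k12 4 6)))), (.s k34 k17 4 (.s k35 k19 3 (.s k43 k23 5 (.s k32 k33 0 (.d k47 k39 k37 1
  2))))), (.s k19 k35 3 (.s k43 k23 5 (.s k41 k40 0 (.s k22 k60 6 (.s k25 k28 2 (.d k59 k55 k8 1
  4))))))] (.c k25 (.l (.s k35 k19 3 (.s k43 k23 5 (.s k47 k39 1 (.s k32 k37 2 (.d k34 k33 k17 0
  4)))))) (.c k86 (.q k254 [(.s k34 k17 4 (.s k38 k46 1 (.s k59 k55 1 (.d k25 k8 k12 4 6)))), (.s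
  k34 k17 4 (.s k35 k19 3 (.s k43 k23 5 (.s k32 k33 0 (.d k47 k39 k37 1 2))))), (.s k19 k35 3 (.s
  k43 k23 5 (.s k41 k40 0 (.s k22 k60 6 (.s k25 k28 2 (.d k59 k55 k8 1 4))))))] (.c k25 (.l (.s k35
  k19 3 (.s k43 k23 5 (.s k47 k39 1 (.s k32 k37 2 (.d k34 k33 k17 0 4)))))) .n)) (.c k254 (.q k86
  [(.s k34 k17 4 (.s k38 k46 1 (.s k59 k55 1 (.d k25 k8 k12 4 6)))), (.s k19 k35 3 (.s k169 k252 14
  (.s k153 k220 10 (.s k137 k185 3 (.d k204 k70 k102 10 14)))))] .n) .n))))) (.c k21 (.q k192 [(.s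
  k1 k2 0 (.s k128 k64 7 (.s k129 k66 8 (.s k65 k193 7 (.d k130 k131 k195 0 8))))), (.s k23 k43 5
  (.s k129 k66 8 (.s k149 k106 14 (.s k86 k212 8 (.d k169 k189 k252 5 14))))), (.s k1 k2 0 (.s k43
  k23 5 (.s k106 k149 14 (.s k169 k232 8 (.s k85 k253 13 (.d k64 k128 k127 7 6))))))] (.c k86 (.l
  (.s k2 k1 0 (.s k64 k128 7 (.s k66 k129 8 (.s k130 k194 7 (.d k65 k67 k195 0 8)))))) .n)) (.c k22
  (.q k192 [(.s k23 k43 5 (.s k129 k66 8 (.s k149 k106 14 (.s k86 k212 8 (.d k169 k189 k252 5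
  14))))), (.s k2 k1 0 (.s k64 k128 7 (.s k66 k129 8 (.s k130 k194 7 (.d k65 k67 k195 0 8))))), (.s
  k1 k2 0 (.s k43 k23 5 (.s k106 k149 14 (.s k169 k232 8 (.s k85 k253 13 (.d k64 k128 k127 7
  6))))))] (.c k149 (.l (.s k1 k2 0 (.s k128 k64 7 (.s k129 k66 8 (.s k65 k193 7 (.d k130 k131 k195
  0 8)))))) .n)) (.c k23 (.q k51 [(.s k2 k1 0 (.s k34 k17 4 (.s k18 k50 3 (.s k33 k48 4 (.d k35 k32
  k19 0 3))))), (.s k17 k34 4 (.s k21 k42 6 (.s k25 k29 1 (.s k38 k12 6 (.d k55 k59 k4 1 4))))), (.s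
  k1 k2 0 (.s k21 k42 6 (.s k41 k61 5 (.s k35 k19 3 (.s k38 k44 2 (.d k55 k59 k4 1 4))))))] .n) (.c
  k41 (.q k51 [(.s k2 k1 0 (.s k34 k17 4 (.s k18 k50 3 (.s k33 k48 4 (.d k35 k32 k19 0 3))))), (.s
  k17 k34 4 (.s k21 k42 6 (.s k25 k29 1 (.s k38 k12 6 (.d k55 k59 k4 1 4))))), (.s k42 k21 6 (.s k19
  k35 3 (.s k59 k55 1 (.s k25 k8 4 (.s k22 k28 2 (.d k2 k1 k62 0 5))))))] (.c k21 (.l (.s k1 k2 0
  (.s k17 k34 4 (.s k33 k49 3 (.s k18 k48 4 (.d k19 k16 k35 0 3)))))) .n)) (.c k42 (.q k192 [(.s k43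
  k23 5 (.s k66 k129 8 (.s k106 k149 14 (.s k169 k232 8 (.d k86 k126 k252 5 14))))), (.s k1 k2 0 (.s
  k128 k64 7 (.s k129 k66 8 (.s k65 k193 7 (.d k130 k131 k195 0 8))))), (.s k1 k2 0 (.s k43 k23 5
  (.s k106 k149 14 (.s k169 k232 8 (.s k85 k253 13 (.d k64 k128 k127 7 6))))))] (.c k86 (.l (.s k2
  k1 0 (.s k64 k128 7 (.s k66 k129 8 (.s k130 k194 7 (.d k65 k67 k195 0 8)))))) (.c k106 (.q k234
  [(.s k2 k1 0 (.s k64 k128 7 (.s k66 k129 8 (.s k65 k67 0 (.d k130 k194 k195 7 8))))), (.s k23 k43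
  5 (.s k255 k213 6 (.s k87 k171 13 (.s k151 k215 7 (.s k107 k195 13 (.d k127 k67 k191 5 7)))))),
  (.s k1 k2 0 (.s k129 k66 8 (.s k65 k193 7 (.s k130 k195 8 (.d k128 k131 k64 0 7)))))] (.c k195 (.l
  (.s k64 k128 7 (.s k66 k129 8 (.s k67 k65 0 (.s k255 k213 6 (.s k87 k171 13 (.d k127 k191 k107 7
  5))))))) .n)) (.c k128 (.f k106 k149 14 (.q k191 [(.s k43 k23 5 (.s k169 k232 8 (.s k86 k252 14
  (.d k66 k126 k129 5 8)))), (.s k255 k127 7 (.s k171 k87 13 (.s k151 k131 5 (.s k107 k195 13 (.d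
  k43 k23 k235 5 7))))), (.s k1 k2 0 (.s k66 k129 8 (.s k127 k255 7 (.s k85 k64 6 (.s k169 k253 13
  (.d k86 k252 k126 14 5))))))] (.c k129 (.l (.s k1 k2 0 (.s k43 k23 5 (.s k169 k232 8 (.s k85 k253
  13 (.d k127 k64 k255 6 7)))))) .n))) (.c k234 (.l (.s k106 k149 14 (.s k43 k23 5 (.s k66 k129 8
  (.s k169 k232 8 (.d k86 k126 k252 5 14)))))) .n))))) (.c k43 (.q k51 [(.s k2 k1 0 (.s k34 k17 4
  (.s k18 k50 3 (.s k33 k48 4 (.d k35 k32 k19 0 3))))), (.s k17 k34 4 (.s k21 k42 6 (.s k25 k29 1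
  (.s k38 k12 6 (.d k55 k59 k4 1 4))))), (.s k1 k2 0 (.s k21 k42 6 (.s k41 k61 5 (.s k35 k19 3 (.s
  k38 k44 2 (.d k55 k59 k4 1 4))))))] .n) (.c k60 (.f k2 k1 0 (.q k51 [(.s k34 k17 4 (.s k18 k50 3
  (.s k35 k19 3 (.d k33 k32 k48 0 4)))), (.s k42 k21 6 (.s k22 k62 5 (.s k19 k35 3 (.s k25 k28 2 (.d
  k59 k55 k8 1 4))))), (.s k17 k34 4 (.s k21 k42 6 (.s k25 k29 1 (.s k38 k12 6 (.d k55 k59 k4 1
  4)))))] (.c k30 (.q k45 [(.s k34 k17 4 (.s k18 k50 3 (.s k35 k19 3 (.d k33 k32 k48 0 4)))), (.s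
  k42 k21 6 (.s k22 k62 5 (.s k19 k35 3 (.s k25 k28 2 (.d k59 k55 k8 1 4))))), (.s k17 k34 4 (.s k21
  k42 6 (.s k25 k29 1 (.s k38 k12 6 (.d k55 k59 k4 1 4)))))] .n) (.c k45 (.q k30 [(.s k34 k17 4 (.s
  k18 k50 3 (.s k33 k48 4 (.d k35 k32 k19 0 3)))), (.s k42 k21 6 (.s k22 k62 5 (.s k19 k35 3 (.s k25
  k28 2 (.d k59 k55 k8 1 4))))), (.s k34 k17 4 (.s k42 k21 6 (.s k18 k50 3 (.d k22 k26 k62 1 5))))]
  .n) .n)))) (.c k61 (.l (.s k2 k1 0 (.s k43 k23 5 (.s k42 k21 6 (.s k41 k40 0 (.d k22 k62 k60 5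
  6)))))) (.c k62 (.l (.s k1 k2 0 (.s k23 k43 5 (.s k21 k42 6 (.s k22 k20 0 (.d k41 k61 k60 5
  6)))))) .n))))))))))))

theorem c1 : rootOK2 k63 k170 k1 t1 = true := by decide +kernel

theorem c2 : rootOK2 k63 k170 k2 t2 = true := by decide +kernel

theorem c3 : rootOK2 k63 k170 k3 t3 = true := by decide +kernel

theorem c5 : rootOK2 k63 k170 k5 t5 = true := by decide +kernel

theorem c6 : rootOK2 k63 k170 k6 t6 = true := by decide +kernel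

theorem c7 : rootOK2 k63 k170 k7 t7 = true := by decide +kernel

theorem c10 : rootOK2 k63 k170 k10 t10 = true := by decide +kernel

theorem c11 : rootOK2 k63 k170 k11 t11 = true := by decide +kernel

theorem c15 : rootOK2 k63 k170 k15 t15 = true := by decide +kernel

def l : List Nat :=
  [k1.c, k2.c, k3.c, k5.c, k6.c, k7.c, k10.c, k11.c, k15.c]

theorem ok : AllQ k63.c k170.c l :=
  allQ_cons c1 (allQ_cons c2 (allQ_cons c3 (allQ_cons c5 (allQ_cons c6 (allQ_cons c7 (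
  allQ_cons c10 (allQ_cons c11 (allQ_cons c15 (allQ_nil _ _)))))))))

end Pool.Agent.TTT.G01
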