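import Pool.Agent.TTT.Sym2

set_option autoImplicit false
set_option maxRecDepth 100000

namespace Pool.Agent.TTT.G02

def t21_1 : T TT 256 :=
  (.q k15 [(.s k7 k11 1 (.s k23 k43 5 (.s k31 k47 3 (.s k27 k19 1 (.d k39 k55 k51 3 5)))))] (.c k7
  (.q k22 [(.s k60 k41 6 (.s k61 k62 0 (.s k45 k30 4 (.s k29 k13 3 (.s k46 k12 4 (.d k47 k44 k31 0
  3)))))), (.s k41 k60 6 (.s k43 k23 5 (.s k47 k31 3 (.s k42 k40 0 (.s k37 k32 2 (.s k26 k48 6 (.d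
  k10 k5 k58 2 3))))))), (.s k10 k5 2 (.s k41 k60 6 (.s k43 k23 5 (.s k42 k40 0 (.s k26 k58 3 (.s
  k18 k30 1 (.d k48 k37 k33 6 4)))))))] (.c k5 (.l (.s k60 k41 6 (.s k61 k62 0 (.s k45 k30 4 (.s k47
  k31 3 (.s k46 k44 0 (.d k29 k13 k12 3 4))))))) (.c k41 (.q k61 [(.s k60 k62 0 (.s k45 k30 4 (.s
  k29 k13 3 (.s k46 k12 4 (.d k47 k44 k31 0 3))))), (.s k10 k5 2 (.s k47 k31 3 (.s k62 k60 0 (.s k42
  k2 5 (.s k26 k58 3 (.d k37 k32 k48 2 6)))))), (.s k23 k43 5 (.s k31 k47 3 (.s k19 k27 1 (.s k28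
  k25 2 (.s k29 k30 0 (.s k13 k45 3 (.d k12 k46 k14 4 0))))))), (.s k10 k5 2 (.s k60 k62 0 (.s k30
  k45 4 (.s k26 k18 1 (.s k58 k42 3 (.d k48 k53 k37 2 6))))))] (.c k9 (.l (.s k47 k31 3 (.s k60 k62
  0 (.s k45 k30 4 (.s k46 k44 0 (.d k29 k13 k12 3 4)))))) (.c k13 (.l (.s k23 k43 5 (.s k31 k47 3
  (.s k19 k27 1 (.s k28 k25 2 (.s k60 k62 0 (.d k30 k29 k45 0 4))))))) .n))) (.c k60 (.q k26 [(.s
  k18 k30 1 (.d k48 k33 k37 4 6)), (.s k10 k5 2 (.s k58 k42 3 (.d k48 k53 k37 2 6))), (.s k23 k43 5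
  (.s k31 k47 3 (.s k30 k18 1 (.s k19 k27 1 (.d k28 k29 k25 0 2)))))] (.c k41 (.q k61 [(.s k18 k30 1
  (.d k48 k33 k37 4 6)), (.s k10 k5 2 (.s k58 k42 3 (.d k48 k53 k37 2 6))), (.s k23 k43 5 (.s k31
  k47 3 (.s k30 k18 1 (.s k19 k27 1 (.d k28 k29 k25 0 2)))))] .n) (.c k61 (.q k41 [(.s k18 k30 1 (.d
  k48 k33 k37 4 6)), (.s k43 k23 5 (.s k42 k40 0 (.d k10 k5 k58 2 3)))] .n) .n))) (.c k61 (.l (.s
  k41 k60 6 (.s k10 k5 2 (.s k43 k23 5 (.s k47 k31 3 (.s k42 k40 0 (.s k26 k58 3 (.d k37 k32 k48 2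
  6)))))))) .n))))) (.c k11 (.q k41 [(.s k43 k23 5 (.s k40 k42 0 (.d k60 k20 k22 5 6))), (.s k60 k22
  6 (.s k30 k45 4 (.s k31 k47 3 (.s k29 k28 0 (.s k46 k12 4 (.d k62 k61 k14 0 3))))))] (.c k20 (.l
  (.s k10 k5 2 (.s k22 k60 6 (.s k43 k23 5 (.s k47 k31 3 (.s k42 k40 0 (.s k26 k58 3 (.d k37 k32 k48
  2 6)))))))) (.c k22 (.q k26 [(.s k10 k5 2 (.s k42 k58 3 (.d k43 k23 k40 5 0))), (.s k23 k43 5 (.s
  k31 k47 3 (.s k27 k19 1 (.s k25 k24 0 (.s k9 k57 3 (.s k12 k6 2 (.d k51 k39 k38 5 6))))))), (.s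
  k37 k48 6 (.s k47 k31 3 (.s k42 k32 2 (.d k10 k5 k58 2 3))))] (.c k20 (.l (.s k23 k43 5 (.s k10 k5
  2 (.s k58 k42 3 (.d k48 k53 k37 2 6))))) (.c k23 (.q k20 [(.s k60 k40 5 (.s k37 k48 6 (.d k45 k33
  k30 1 4))), (.s k40 k60 5 (.s k42 k43 0 (.d k10 k5 k58 2 3))), (.s k10 k5 2 (.s k58 k42 3 (.d k48
  k53 k37 2 6)))] .n) .n))) (.c k23 (.l (.s k60 k22 6 (.s k20 k40 5 (.s k30 k45 4 (.s k31 k47 3 (.s
  k29 k28 0 (.s k46 k12 4 (.d k62 k61 k14 0 3)))))))) (.c k60 (.l (.s k10 k5 2 (.s k43 k23 5 (.s k47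
  k31 3 (.s k42 k40 0 (.s k26 k58 3 (.d k37 k32 k48 2 6))))))) .n))))) (.c k19 (.l (.s k11 k7 1 (.s
  k43 k23 5 (.s k27 k59 3 (.s k39 k51 5 (.d k47 k31 k35 3 1)))))) (.c k23 (.q k41 [(.s k7 k11 1 (.s
  k22 k60 6 (.s k37 k52 4 (.s k48 k26 6 (.d k33 k45 k18 1 4))))), (.s k60 k22 6 (.s k20 k40 5 (.s
  k30 k45 4 (.s k31 k47 3 (.s k29 k28 0 (.s k46 k12 4 (.d k62 k61 k14 0 3))))))), (.s k10 k5 2 (.s
  k11 k7 1 (.s k26 k56 4 (.s k58 k42 3 (.d k48 k53 k37 2 6)))))] (.c k20 (.l (.s k22 k60 6 (.s k7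
  k11 1 (.s k37 k52 4 (.s k48 k26 6 (.d k33 k45 k18 1 4)))))) (.c k22 (.q k20 [(.s k10 k5 2 (.s k40
  k60 5 (.s k42 k43 0 (.s k26 k58 3 (.d k11 k7 k56 1 4))))), (.s k60 k40 5 (.s k11 k7 1 (.s k26 k56
  4 (.s k37 k48 6 (.d k45 k33 k30 1 4))))), (.s k10 k5 2 (.s k40 k60 5 (.s k47 k31 3 (.s k42 k43 0
  (.s k26 k58 3 (.d k37 k32 k48 2 6)))))), (.s k10 k5 2 (.s k11 k7 1 (.s k26 k56 4 (.s k58 k42 3 (.d
  k48 k53 k37 2 6)))))] (.c k26 (.l (.s k40 k60 5 (.s k11 k7 1 (.s k43 k42 0 (.s k27 k59 3 (.s k39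
  k51 5 (.d k47 k35 k31 1 3))))))) (.c k37 (.l (.s k40 k60 5 (.s k47 k31 3 (.s k43 k42 0 (.s k39 k35
  1 (.s k27 k51 5 (.d k11 k7 k59 1 3))))))) .n))) .n))) (.c k27 (.q k41 [(.s k43 k23 5 (.s k40 k42 0
  (.d k60 k20 k22 5 6))), (.s k10 k5 2 (.s k11 k7 1 (.s k26 k56 4 (.s k58 k42 3 (.d k48 k53 k37 2
  6))))), (.s k7 k11 1 (.s k22 k60 6 (.s k37 k52 4 (.s k48 k26 6 (.d k33 k45 k18 1 4)))))] .n) (.c
  k31 (.q k41 [(.s k43 k23 5 (.s k40 k42 0 (.d k60 k20 k22 5 6))), (.s k7 k11 1 (.s k22 k60 6 (.s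
  k37 k52 4 (.s k33 k45 1 (.d k48 k26 k18 6 4))))), (.s k10 k5 2 (.s k11 k7 1 (.s k26 k56 4 (.s k42
  k58 3 (.d k43 k40 k23 0 5)))))] (.c k16 (.q k26 [(.d k11 k7 k56 1 4), (.s k10 k5 2 (.s k43 k23 5
  (.d k42 k40 k58 0 3)))] .n) (.c k26 (.q k16 [(.s k43 k23 5 (.s k40 k42 0 (.d k60 k20 k22 5 6))),
  (.s k48 k32 3 (.s k7 k11 1 (.s k33 k18 4 (.s k22 k60 6 (.d k37 k45 k52 1 4))))), (.s k48 k32 3 (.s
  k7 k11 1 (.s k18 k33 4 (.s k23 k43 5 (.s k39 k55 3 (.s k17 k19 0 (.d k51 k34 k27 4 5)))))))] .n)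
  .n))) (.c k35 (.l (.s k7 k11 1 (.s k23 k43 5 (.s k39 k55 3 (.s k27 k51 5 (.d k31 k47 k19 3 1))))))
  (.c k39 (.q k41 [(.s k43 k23 5 (.s k40 k42 0 (.d k60 k20 k22 5 6))), (.s k7 k11 1 (.s k22 k60 6
  (.s k37 k52 4 (.s k48 k26 6 (.d k33 k45 k18 1 4))))), (.s k10 k5 2 (.s k11 k7 1 (.s k26 k56 4 (.s
  k42 k58 3 (.d k43 k23 k40 5 0)))))] (.c k7 (.l (.s k60 k22 6 (.s k30 k45 4 (.s k31 k47 3 (.s k29
  k28 0 (.s k46 k12 4 (.d k62 k61 k14 0 3))))))) .n)) (.c k41 (.q k61 [(.s k11 k7 1 (.s k43 k23 5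
  (.s k27 k59 3 (.s k39 k51 5 (.d k47 k35 k31 1 3))))), (.s k47 k31 3 (.s k60 k62 0 (.s k45 k30 4
  (.s k29 k13 3 (.d k46 k44 k12 0 4))))), (.s k5 k10 2 (.s k7 k11 1 (.s k4 k6 0 (.s k60 k62 0 (.s
  k45 k30 4 (.s k29 k13 3 (.d k12 k8 k46 1 4)))))))] .n) (.c k43 (.q k41 [(.s k7 k11 1 (.s k22 k60 6
  (.s k37 k52 4 (.s k48 k26 6 (.d k33 k45 k18 1 4))))), (.s k60 k22 6 (.s k30 k45 4 (.s k31 k47 3
  (.s k29 k28 0 (.s k46 k12 4 (.d k62 k61 k14 0 3)))))), (.s k10 k5 2 (.s k11 k7 1 (.s k26 k56 4 (.s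
  k58 k42 3 (.d k48 k53 k37 2 6)))))] .n) (.c k47 (.q k41 [(.s k43 k23 5 (.s k40 k42 0 (.d k60 k20
  k22 5 6))), (.s k7 k11 1 (.s k22 k60 6 (.s k37 k52 4 (.s k48 k26 6 (.d k33 k45 k18 1 4))))), (.s
  k10 k5 2 (.s k11 k7 1 (.s k26 k56 4 (.s k42 k58 3 (.d k43 k40 k23 0 5)))))] (.c k37 (.l (.s k11 k7
  1 (.s k43 k23 5 (.s k26 k56 4 (.s k42 k40 0 (.d k10 k5 k58 2 3)))))) .n)) (.c k51 (.q k41 [(.s k43
  k23 5 (.s k40 k42 0 (.d k60 k20 k22 5 6))), (.s k7 k11 1 (.s k22 k60 6 (.s k37 k52 4 (.s k48 k26 6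
  (.d k33 k45 k18 1 4))))), (.s k10 k5 2 (.s k11 k7 1 (.s k26 k56 4 (.s k42 k58 3 (.d k43 k40 k23 0
  5)))))] .n) (.c k55 (.l (.s k11 k7 1 (.s k47 k31 3 (.s k43 k23 5 (.s k39 k35 1 (.d k27 k59 k51 3
  5)))))) (.c k59 (.l (.s k7 k11 1 (.s k31 k47 3 (.s k23 k43 5 (.s k27 k19 1 (.d k39 k55 k51 3
  5)))))) (.c k61 (.q k41 [(.s k43 k23 5 (.s k40 k42 0 (.d k60 k20 k22 5 6))), (.s k7 k11 1 (.s k22
  k60 6 (.s k37 k52 4 (.s k48 k26 6 (.d k33 k45 k18 1 4))))), (.s k10 k5 2 (.s k11 k7 1 (.s k26 k56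
  4 (.s k42 k58 3 (.d k43 k40 k23 0 5)))))] .n) .n))))))))))))))))

def t21_2 : T TT 256 :=
  (.f k23 k43 5 (.q k86 [(.s k169 k252 14 (.s k149 k212 8 (.s k129 k189 5 (.d k192 k66 k106 8
  14))))] (.c k66 (.q k130 [(.s k169 k252 14 (.s k149 k212 8 (.s k129 k189 5 (.s k131 k128 0 (.d
  k195 k67 k65 7 8))))), (.s k195 k65 8 (.s k151 k107 13 (.s k87 k215 7 (.s k171 k255 13 (.d k131
  k67 k191 7 5))))), (.s k169 k252 14 (.s k149 k212 8 (.s k192 k106 14 (.s k129 k189 5 (.d k128 k131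
  k64 0 7)))))] (.c k131 (.l (.s k195 k65 8 (.s k252 k169 14 (.s k151 k107 13 (.s k87 k215 7 (.d k84
  k168 k85 13 0)))))) .n)) (.c k106 (.f k212 k149 8 (.f k252 k169 14 (.f k232 k192 5 (.l (.s k168
  k84 13 (.s k40 k104 7 (.s k60 k20 5 (.s k22 k41 6 (.s k150 k214 7 (.s k105 k195 14 (.d k124 k67
  k188 6 7))))))))))) (.c k129 (.l (.s k252 k169 14 (.s k149 k212 8 (.s k106 k192 14 (.d k126 k189
  k66 8 5))))) (.c k149 (.q k85 [(.s k84 k87 0 (.d k252 k168 k169 13 14)), (.s k87 k84 0 (.s k171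
  k255 13 (.s k151 k215 7 (.s k195 k107 13 (.d k131 k191 k67 5 7)))))] (.c k84 (.q k126 [(.d k252
  k189 k169 8 14), (.s k106 k66 5 (.s k127 k64 6 (.s k124 k125 0 (.s k67 k105 6 (.s k195 k131 7 (.d
  k107 k87 k151 5 13))))))] (.c k128 (.q k191 [(.d k252 k189 k169 8 14), (.s k127 k255 7 (.d k106
  k66 k64 5 6))] .n) (.c k191 (.q k128 [(.d k252 k189 k169 8 14), (.s k64 k192 7 (.d k106 k66 k127 5
  6))] .n) .n))) (.c k87 (.q k67 [(.s k195 k131 7 (.s k105 k124 6 (.d k65 k125 k130 5 8))), (.s k195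
  k131 7 (.s k169 k252 14 (.s k105 k124 6 (.s k41 k233 7 (.d k60 k22 k150 6 14))))), (.s k195 k131 7
  (.s k65 k130 8 (.s k252 k169 14 (.s k66 k64 0 (.d k126 k106 k189 5 8))))), (.s k252 k169 14 (.s
  k105 k124 6 (.s k65 k125 5 (.s k66 k64 0 (.d k126 k106 k189 5 8)))))] (.c k128 (.q k191 [(.s k195
  k131 7 (.s k105 k124 6 (.d k65 k130 k125 8 5))), (.s k252 k169 14 (.s k189 k126 8 (.s k124 k105 6
  (.d k188 k190 k60 0 7)))), (.s k195 k131 7 (.s k127 k255 7 (.s k64 k106 6 (.d k65 k130 k66 8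
  0))))] (.c k129 (.l (.s k105 k124 6 (.s k65 k125 5 (.d k195 k131 k130 7 8)))) .n)) (.c k191 (.q
  k128 [(.s k64 k192 7 (.s k66 k65 0 (.d k106 k126 k127 5 6))), (.s k195 k131 7 (.s k105 k124 6 (.d
  k65 k125 k130 5 8)))] (.c k65 (.l (.s k192 k64 7 (.s k129 k66 8 (.d k131 k130 k195 0 7)))) .n))
  .n))) (.c k128 (.q k191 [(.s k255 k127 7 (.d k87 k84 k171 0 13)), (.s k84 k87 0 (.d k252 k168 k169
  13 14)), (.s k252 k169 14 (.s k127 k255 7 (.s k106 k64 6 (.d k126 k189 k66 8 5))))] .n) (.c k191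
  (.q k128 [(.s k84 k87 0 (.d k252 k168 k169 13 14)), (.s k64 k192 7 (.s k106 k127 6 (.s k126 k66 5
  (.d k252 k189 k169 8 14))))] (.c k169 (.l (.s k64 k192 7 (.s k106 k127 6 (.s k126 k66 5 (.s k84
  k87 0 (.d k252 k189 k168 8 13)))))) (.c k252 (.l (.s k64 k192 7 (.s k127 k106 6 (.s k87 k84 0 (.s
  k151 k215 7 (.d k107 k67 k195 5 13)))))) .n))) .n))))) (.c k169 (.f k149 k212 8 (.f k106 k192 14
  (.f k126 k66 5 (.f k252 k189 8 (.q k130 [(.s k195 k65 8 (.s k107 k151 13 (.s k105 k104 0 (.d k67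
  k124 k131 6 7)))), (.s k195 k65 8 (.s k151 k107 13 (.s k87 k215 7 (.d k84 k168 k85 13 0)))), (.s
  k195 k65 8 (.s k67 k131 7 (.s k105 k124 6 (.s k150 k60 14 (.d k214 k233 k22 6 7)))))] (.c k64 (.l
  (.s k195 k65 8 (.s k67 k131 7 (.s k107 k151 13 (.d k105 k104 k124 0 6))))) (.c k65 (.q k67 [(.s
  k195 k131 7 (.s k105 k124 6 (.d k107 k104 k151 0 13))), (.s k105 k124 6 (.s k107 k104 0 (.s k87
  k127 5 (.d k84 k168 k85 13 0)))), (.s k195 k131 7 (.s k107 k151 13 (.s k87 k127 5 (.d k84 k168 k85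
  13 0))))] (.c k107 (.l (.s k195 k131 7 (.s k105 k124 6 (.s k150 k60 14 (.d k214 k233 k22 6 7)))))
  (.c k168 (.q k171 [(.s k195 k131 7 (.s k107 k151 13 (.d k105 k104 k124 0 6))), (.s k131 k195 7 (.s
  k87 k255 13 (.d k151 k215 k191 7 5))), (.s k87 k255 13 (.s k105 k124 6 (.d k107 k104 k127 0 5)))]
  .n) (.c k171 (.l (.s k168 k84 13 (.s k195 k131 7 (.s k105 k124 6 (.d k107 k104 k151 0 13)))))
  .n)))) (.c k67 (.q k255 [(.s k65 k195 8 (.s k127 k191 7 (.s k85 k64 6 (.d k84 k168 k87 13 0)))),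
  (.s k168 k84 13 (.s k87 k171 13 (.s k151 k215 7 (.d k195 k65 k107 8 13)))), (.s k65 k195 8 (.s
  k127 k191 7 (.s k125 k124 0 (.s k190 k60 8 (.d k254 k253 k62 0 7)))))] (.c k64 (.l (.s k65 k195 8
  (.s k127 k191 7 (.s k125 k124 0 (.s k190 k60 8 (.d k254 k253 k62 0 7)))))) (.c k65 (.q k64 [(.d
  k127 k85 k191 6 7)] (.c k85 (.l (.s k84 k168 13 (.s k171 k87 13 (.s k127 k191 7 (.d k124 k125 k104
  0 5))))) (.c k127 (.l (.s k254 k253 0 (.s k62 k190 7 (.s k150 k194 13 (.s k22 k214 7 (.d k60 k61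
  k41 0 6)))))) (.c k168 (.l (.s k171 k87 13 (.d k127 k85 k191 6 7))) (.c k171 (.l (.s k168 k84 13
  (.d k127 k85 k191 6 7))) (.c k191 (.l (.s k85 k127 6 (.d k84 k87 k168 0 13))) .n)))))) (.c k168
  (.l (.s k171 k87 13 (.s k65 k195 8 (.s k127 k191 7 (.s k85 k64 6 (.d k125 k124 k105 0 5)))))) (.c
  k171 (.l (.s k168 k84 13 (.s k65 k195 8 (.s k127 k191 7 (.s k85 k64 6 (.d k125 k124 k105 0 5))))))
  (.c k195 (.l (.s k127 k191 7 (.s k64 k85 6 (.s k124 k125 0 (.d k84 k104 k168 5 13))))) .n))))))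
  (.c k168 (.q k171 [(.s k195 k65 8 (.s k151 k107 13 (.d k131 k67 k191 7 5))), (.s k65 k195 8 (.s
  k87 k255 13 (.s k85 k84 0 (.s k127 k64 6 (.d k125 k124 k105 0 5))))), (.s k87 k255 13 (.s k151
  k215 7 (.s k195 k107 13 (.d k131 k191 k67 5 7))))] (.c k195 (.l (.s k87 k255 13 (.s k85 k84 0 (.s
  k127 k64 6 (.s k67 k107 5 (.d k124 k125 k105 0 6)))))) .n)) (.c k171 (.l (.s k168 k84 13 (.s k195
  k65 8 (.s k67 k131 7 (.s k105 k124 6 (.d k107 k104 k151 0 13)))))) (.c k195 (.q k255 [(.s k127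
  k191 7 (.s k85 k64 6 (.d k84 k168 k87 13 0))), (.s k127 k191 7 (.s k125 k124 0 (.s k190 k60 8 (.d
  k254 k253 k62 0 7)))), (.s k254 k253 0 (.s k190 k62 7 (.s k125 k60 8 (.s k127 k124 0 (.s k85 k64 6
  (.d k84 k168 k87 13 0))))))] (.c k127 (.l (.s k168 k84 13 (.s k87 k171 13 (.s k151 k215 7 (.s k254
  k253 0 (.s k62 k190 7 (.d k150 k148 k194 0 13))))))) (.c k168 (.l (.s k171 k87 13 (.s k127 k191 7
  (.s k125 k124 0 (.s k190 k60 8 (.d k254 k253 k62 0 7)))))) (.c k171 (.l (.s k168 k84 13 (.s k127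
  k191 7 (.s k125 k124 0 (.s k190 k60 8 (.d k254 k253 k62 0 7)))))) (.c k190 (.l (.s k168 k84 13 (.s
  k87 k171 13 (.s k151 k215 7 (.s k148 k150 0 (.s k127 k191 7 (.s k188 k128 5 (.d k124 k60 k125 7
  0)))))))) (.c k193 (.q k194 [(.s k62 k150 13 (.d k254 k253 k190 0 7)), (.s k127 k191 7 (.s k85 k64
  6 (.d k84 k168 k87 13 0))), (.s k150 k62 13 (.s k151 k148 0 (.d k87 k171 k215 13 7)))] (.c k168
  (.l (.s k171 k87 13 (.s k62 k150 13 (.d k254 k253 k190 0 7)))) (.c k171 (.l (.s k168 k84 13 (.s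
  k62 k150 13 (.d k254 k253 k190 0 7)))) .n))) (.c k194 (.q k193 [(.s k127 k191 7 (.s k85 k64 6 (.d
  k84 k168 k87 13 0))), (.s k61 k105 13 (.s k254 k253 0 (.d k62 k60 k190 0 7))), (.s k105 k61 13 (.s
  k124 k67 6 (.d k127 k125 k191 0 7)))] (.c k168 (.l (.s k171 k87 13 (.s k61 k105 13 (.s k254 k253 0
  (.d k62 k60 k190 0 7))))) (.c k171 (.l (.s k168 k84 13 (.s k61 k105 13 (.s k254 k253 0 (.d k62 k60
  k190 0 7))))) .n))) .n))))))) .n))))))))))) (.c k189 (.q k130 [(.s k149 k212 8 (.s k192 k106 14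
  (.s k129 k66 8 (.d k128 k131 k64 0 7)))), (.s k195 k65 8 (.s k131 k67 7 (.s k151 k107 13 (.s k87
  k215 7 (.d k171 k191 k255 5 13))))), (.s k195 k65 8 (.s k252 k169 14 (.s k151 k107 13 (.s k87 k215
  7 (.d k84 k168 k85 13 0)))))] .n) (.c k192 (.q k22 [(.s k169 k252 14 (.s k150 k214 7 (.s k131 k188
  6 (.s k195 k67 7 (.d k60 k41 k105 6 14))))), (.s k60 k41 6 (.s k150 k214 7 (.s k149 k212 8 (.s
  k151 k148 0 (.s k215 k87 7 (.d k20 k40 k85 5 8)))))), (.s k60 k41 6 (.s k252 k169 14 (.s k149 k212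
  8 (.s k61 k62 0 (.s k105 k193 13 (.d k124 k67 k188 6 7)))))), (.s k60 k41 6 (.s k150 k214 7 (.s
  k195 k105 14 (.s k151 k107 13 (.d k149 k148 k212 0 8)))))] (.c k41 (.l (.s k169 k252 14 (.s k150
  k214 7 (.s k131 k188 6 (.s k195 k67 7 (.s k151 k107 13 (.d k149 k212 k148 8 0))))))) (.c k60 (.l
  (.s k252 k169 14 (.s k214 k150 7 (.s k212 k149 8 (.s k195 k233 6 (.s k151 k107 13 (.d k215 k213
  k87 0 7))))))) (.c k212 (.l (.s k60 k41 6 (.s k252 k169 14 (.s k150 k214 7 (.s k105 k195 14 (.d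
  k124 k67 k188 6 7)))))) .n)))) (.c k212 (.q k22 [(.s k169 k252 14 (.s k150 k214 7 (.s k131 k188 6
  (.s k195 k67 7 (.d k60 k41 k105 6 14))))), (.s k60 k41 6 (.s k40 k20 5 (.s k252 k169 14 (.s k188
  k124 7 (.s k168 k84 13 (.s k148 k128 5 (.d k104 k232 k192 7 13))))))), (.s k60 k41 6 (.s k150 k214
  7 (.s k195 k105 14 (.s k151 k107 13 (.s k215 k87 7 (.d k20 k40 k85 5 8)))))), (.s k169 k252 14 (.s
  k150 k214 7 (.s k131 k188 6 (.s k195 k67 7 (.s k151 k107 13 (.s k171 k191 5 (.d k87 k215 k255 7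
  13)))))))] (.c k60 (.l (.s k252 k169 14 (.s k214 k150 7 (.s k195 k233 6 (.s k151 k107 13 (.s k87
  k215 7 (.d k84 k85 k168 0 13))))))) (.c k169 (.l (.s k60 k41 6 (.s k150 k214 7 (.s k61 k62 0 (.s
  k105 k195 14 (.s k149 k193 13 (.s k148 k151 0 (.d k192 k104 k106 13 14)))))))) (.c k233 (.l (.s
  k60 k41 6 (.s k169 k252 14 (.s k150 k214 7 (.s k195 k105 14 (.d k131 k188 k67 6 7)))))) .n)))) (.c
  k232 (.l (.s k169 k252 14 (.s k149 k212 8 (.s k192 k106 14 (.d k129 k189 k66 5 8))))) (.c k252 (.q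
  k130 [(.s k149 k212 8 (.s k192 k106 14 (.s k129 k66 8 (.d k128 k131 k64 0 7)))), (.s k195 k65 8
  (.s k151 k107 13 (.s k87 k215 7 (.s k171 k255 13 (.d k131 k191 k67 5 7)))))] (.c k131 (.l (.s k65
  k195 8 (.s k149 k212 8 (.s k192 k106 14 (.s k64 k128 7 (.d k66 k67 k129 0 8)))))) .n))
  .n))))))))))))

def t21_4 : T TT 256 :=
  (.q k192 [(.s k1 k2 0 (.s k128 k64 7 (.s k129 k66 8 (.s k65 k193 7 (.d k130 k131 k195 0 8))))),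
  (.s k23 k43 5 (.s k129 k66 8 (.s k149 k106 14 (.s k86 k212 8 (.d k169 k189 k252 5 14))))), (.s k1
  k2 0 (.s k43 k23 5 (.s k106 k149 14 (.s k169 k232 8 (.s k85 k253 13 (.d k64 k128 k127 7 6))))))]
  (.c k38 (.q k55 [(.s k1 k2 0 (.s k128 k64 7 (.s k129 k66 8 (.s k65 k193 7 (.d k130 k131 k195 0
  8))))), (.s k23 k43 5 (.s k39 k7 3 (.s k51 k59 1 (.s k19 k35 3 (.d k27 k31 k15 1 5)))))] .n) (.c
  k55 (.q k38 [(.s k1 k2 0 (.s k128 k64 7 (.s k129 k66 8 (.s k65 k193 7 (.d k130 k131 k195 0 8))))),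
  (.s k23 k43 5 (.s k129 k66 8 (.s k149 k106 14 (.s k86 k212 8 (.d k169 k189 k252 5 14))))), (.s k1
  k2 0 (.s k43 k23 5 (.s k106 k149 14 (.s k169 k232 8 (.s k85 k253 13 (.d k64 k128 k127 7 6))))))]
  (.c k86 (.l (.s k2 k1 0 (.s k64 k128 7 (.s k66 k129 8 (.s k130 k194 7 (.d k65 k67 k195 0 8))))))
  .n)) (.c k86 (.l (.s k2 k1 0 (.s k64 k128 7 (.s k66 k129 8 (.s k130 k194 7 (.d k65 k67 k195 0
  8)))))) .n))))

def t21_5 : T TT 256 :=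
  (.q k192 [(.s k1 k2 0 (.s k128 k64 7 (.s k129 k66 8 (.s k65 k193 7 (.d k130 k131 k195 0 8))))),
  (.s k23 k43 5 (.s k129 k66 8 (.s k149 k106 14 (.s k86 k212 8 (.d k169 k189 k252 5 14))))), (.s k1
  k2 0 (.s k43 k23 5 (.s k106 k149 14 (.s k169 k232 8 (.s k85 k253 13 (.d k64 k128 k127 7 6))))))]
  (.c k37 (.q k53 [(.s k1 k2 0 (.s k128 k64 7 (.s k129 k66 8 (.s k65 k193 7 (.d k130 k131 k195 0
  8))))), (.s k48 k58 2 (.s k144 k96 11 (.s k149 k106 14 (.s k101 k197 11 (.d k154 k159 k207 2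
  14)))))] .n) (.c k53 (.q k37 [(.s k1 k2 0 (.s k128 k64 7 (.s k129 k66 8 (.s k65 k193 7 (.d k130
  k131 k195 0 8))))), (.s k23 k43 5 (.s k129 k66 8 (.s k149 k106 14 (.s k86 k212 8 (.d k169 k189
  k252 5 14))))), (.s k1 k2 0 (.s k43 k23 5 (.s k106 k149 14 (.s k169 k232 8 (.s k85 k253 13 (.d k64
  k128 k127 7 6))))))] (.c k86 (.l (.s k2 k1 0 (.s k64 k128 7 (.s k66 k129 8 (.s k130 k194 7 (.d k65
  k67 k195 0 8)))))) .n)) (.c k86 (.l (.s k2 k1 0 (.s k64 k128 7 (.s k66 k129 8 (.s k130 k194 7 (.d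
  k65 k67 k195 0 8)))))) .n))))

def t21_6 : T TT 256 :=
  (.q k192 [(.s k23 k43 5 (.s k129 k66 8 (.s k149 k106 14 (.s k86 k212 8 (.d k169 k189 k252 5
  14))))), (.s k1 k2 0 (.s k128 k64 7 (.s k129 k66 8 (.s k65 k193 7 (.d k130 k131 k195 0 8))))), (.s
  k1 k2 0 (.s k43 k23 5 (.s k106 k149 14 (.s k169 k232 8 (.s k85 k253 13 (.d k64 k128 k127 7
  6))))))] (.c k86 (.l (.s k2 k1 0 (.s k64 k128 7 (.s k66 k129 8 (.s k130 k194 7 (.d k65 k67 k195 0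
  8)))))) .n))

def t21_7 : T TT 256 :=
  (.q k192 [(.s k1 k2 0 (.s k128 k64 7 (.s k129 k66 8 (.s k65 k193 7 (.d k130 k131 k195 0 8))))),
  (.s k23 k43 5 (.s k129 k66 8 (.s k149 k106 14 (.s k86 k212 8 (.d k169 k189 k252 5 14))))), (.s k1
  k2 0 (.s k43 k23 5 (.s k106 k149 14 (.s k169 k232 8 (.s k85 k253 13 (.d k64 k128 k127 7 6))))))]
  (.c k86 (.l (.s k2 k1 0 (.s k64 k128 7 (.s k66 k129 8 (.s k130 k194 7 (.d k65 k67 k195 0 8))))))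
  .n))

def t21_8 : T TT 256 :=
  (.q k192 [(.s k1 k2 0 (.s k128 k64 7 (.s k129 k66 8 (.s k65 k193 7 (.d k130 k131 k195 0 8))))),
  (.s k23 k43 5 (.s k129 k66 8 (.s k149 k106 14 (.s k86 k212 8 (.d k169 k189 k252 5 14))))), (.s k1
  k2 0 (.s k43 k23 5 (.s k106 k149 14 (.s k169 k232 8 (.s k85 k253 13 (.d k64 k128 k127 7 6))))))]
  (.c k86 (.l (.s k2 k1 0 (.s k64 k128 7 (.s k66 k129 8 (.s k130 k194 7 (.d k65 k67 k195 0 8))))))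
  (.c k89 (.q k251 [(.s k1 k2 0 (.s k128 k64 7 (.s k129 k66 8 (.s k65 k193 7 (.d k130 k131 k195 0
  8))))), (.s k23 k43 5 (.s k129 k66 8 (.s k149 k106 14 (.s k86 k212 8 (.d k169 k189 k252 5 14))))),
  (.s k1 k2 0 (.s k43 k23 5 (.s k106 k149 14 (.s k169 k232 8 (.s k85 k253 13 (.d k64 k128 k127 7
  6))))))] (.c k86 (.l (.s k2 k1 0 (.s k64 k128 7 (.s k66 k129 8 (.s k130 k194 7 (.d k65 k67 k195 0
  8)))))) .n)) (.c k251 (.q k89 [(.s k1 k2 0 (.s k128 k64 7 (.s k129 k66 8 (.s k65 k193 7 (.d k130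
  k131 k195 0 8))))), (.s k106 k149 14 (.s k72 k123 4 (.s k12 k132 9 (.s k46 k29 4 (.d k166 k226
  k243 9 14)))))] (.c k128 (.l (.s k23 k43 5 (.s k129 k66 8 (.s k149 k106 14 (.s k86 k212 8 (.d k169
  k189 k252 5 14)))))) .n)) .n))))

def t21_9 : T TT 256 :=
  (.q k192 [(.s k1 k2 0 (.s k128 k64 7 (.s k129 k66 8 (.s k65 k193 7 (.d k130 k131 k195 0 8))))),
  (.s k23 k43 5 (.s k129 k66 8 (.s k149 k106 14 (.s k86 k212 8 (.d k169 k189 k252 5 14))))), (.s k1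
  k2 0 (.s k43 k23 5 (.s k106 k149 14 (.s k169 k232 8 (.s k85 k253 13 (.d k64 k128 k127 7 6))))))]
  (.c k86 (.l (.s k2 k1 0 (.s k64 k128 7 (.s k66 k129 8 (.s k130 k194 7 (.d k65 k67 k195 0 8))))))
  .n))

def t21_10 : T TT 256 :=
  (.q k192 [(.s k23 k43 5 (.s k129 k66 8 (.s k149 k106 14 (.s k86 k212 8 (.d k169 k189 k252 5
  14))))), (.s k1 k2 0 (.s k128 k64 7 (.s k129 k66 8 (.s k65 k193 7 (.d k130 k131 k195 0 8))))), (.s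
  k1 k2 0 (.s k43 k23 5 (.s k106 k149 14 (.s k169 k232 8 (.s k85 k253 13 (.d k64 k128 k127 7
  6))))))] (.c k86 (.l (.s k2 k1 0 (.s k64 k128 7 (.s k66 k129 8 (.s k130 k194 7 (.d k65 k67 k195 0
  8)))))) (.c k90 (.q k250 [(.s k1 k2 0 (.s k128 k64 7 (.s k129 k66 8 (.s k65 k193 7 (.d k130 k131
  k195 0 8))))), (.s k23 k43 5 (.s k129 k66 8 (.s k149 k106 14 (.s k86 k212 8 (.d k169 k189 k252 5
  14))))), (.s k1 k2 0 (.s k43 k23 5 (.s k106 k149 14 (.s k169 k232 8 (.s k85 k253 13 (.d k64 k128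
  k127 7 6))))))] (.c k86 (.l (.s k2 k1 0 (.s k64 k128 7 (.s k66 k129 8 (.s k130 k194 7 (.d k65 k67
  k195 0 8)))))) .n)) (.c k250 (.q k90 [(.s k23 k43 5 (.s k129 k66 8 (.s k149 k106 14 (.s k86 k212 8
  (.d k169 k189 k252 5 14))))), (.s k106 k149 14 (.s k74 k122 3 (.s k15 k133 10 (.s k47 k31 3 (.d
  k165 k224 k240 10 14))))), (.s k1 k2 0 (.s k128 k64 7 (.s k129 k66 8 (.s k65 k193 7 (.d k130 k131
  k195 0 8)))))] .n) .n))))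

def t21_11 : T TT 256 :=
  (.q k192 [(.s k1 k2 0 (.s k128 k64 7 (.s k129 k66 8 (.s k65 k193 7 (.d k130 k131 k195 0 8))))),
  (.s k23 k43 5 (.s k129 k66 8 (.s k149 k106 14 (.s k86 k212 8 (.d k169 k189 k252 5 14))))), (.s k1
  k2 0 (.s k43 k23 5 (.s k106 k149 14 (.s k169 k232 8 (.s k85 k253 13 (.d k64 k128 k127 7 6))))))]
  (.c k86 (.l (.s k2 k1 0 (.s k64 k128 7 (.s k66 k129 8 (.s k130 k194 7 (.d k65 k67 k195 0 8))))))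
  .n))

def t21_12 : T TT 256 :=
  (.q k192 [(.s k1 k2 0 (.s k128 k64 7 (.s k129 k66 8 (.s k65 k193 7 (.d k130 k131 k195 0 8))))),
  (.s k23 k43 5 (.s k129 k66 8 (.s k149 k106 14 (.s k86 k212 8 (.d k169 k189 k252 5 14))))), (.s k1
  k2 0 (.s k43 k23 5 (.s k106 k149 14 (.s k169 k232 8 (.s k85 k253 13 (.d k64 k128 k127 7 6))))))]
  (.c k86 (.l (.s k2 k1 0 (.s k64 k128 7 (.s k66 k129 8 (.s k130 k194 7 (.d k65 k67 k195 0 8))))))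
  .n))

def t21_13 : T TT 256 :=
  (.q k192 [(.s k23 k43 5 (.s k129 k66 8 (.s k149 k106 14 (.s k86 k212 8 (.d k169 k189 k252 5
  14))))), (.s k1 k2 0 (.s k128 k64 7 (.s k129 k66 8 (.s k65 k193 7 (.d k130 k131 k195 0 8))))), (.s
  k1 k2 0 (.s k43 k23 5 (.s k106 k149 14 (.s k169 k232 8 (.s k85 k253 13 (.d k64 k128 k127 7
  6))))))] (.c k86 (.l (.s k2 k1 0 (.s k64 k128 7 (.s k66 k129 8 (.s k130 k194 7 (.d k65 k67 k195 0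
  8)))))) .n))

def t21_14 : T TT 256 :=
  (.q k192 [(.s k23 k43 5 (.s k129 k66 8 (.s k149 k106 14 (.s k86 k212 8 (.d k169 k189 k252 5
  14))))), (.s k1 k2 0 (.s k128 k64 7 (.s k129 k66 8 (.s k65 k193 7 (.d k130 k131 k195 0 8))))), (.s
  k1 k2 0 (.s k43 k23 5 (.s k106 k149 14 (.s k169 k232 8 (.s k85 k253 13 (.d k64 k128 k127 7
  6))))))] (.c k86 (.l (.s k2 k1 0 (.s k64 k128 7 (.s k66 k129 8 (.s k130 k194 7 (.d k65 k67 k195 0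
  8)))))) .n))

def t21_15 : T TT 256 :=
  (.q k192 [(.s k1 k2 0 (.s k128 k64 7 (.s k129 k66 8 (.s k65 k193 7 (.d k130 k131 k195 0 8))))),
  (.s k23 k43 5 (.s k129 k66 8 (.s k149 k106 14 (.s k86 k212 8 (.d k169 k189 k252 5 14))))), (.s k1
  k2 0 (.s k43 k23 5 (.s k106 k149 14 (.s k169 k232 8 (.s k85 k253 13 (.d k64 k128 k127 7 6))))))]
  (.c k86 (.l (.s k2 k1 0 (.s k64 k128 7 (.s k66 k129 8 (.s k130 k194 7 (.d k65 k67 k195 0 8))))))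
  .n))

def t21_16 : T TT 256 :=
  (.q k192 [(.s k1 k2 0 (.s k128 k64 7 (.s k129 k66 8 (.s k65 k193 7 (.d k130 k131 k195 0 8))))),
  (.s k23 k43 5 (.s k129 k66 8 (.s k149 k106 14 (.s k86 k212 8 (.d k169 k189 k252 5 14))))), (.s k1
  k2 0 (.s k43 k23 5 (.s k106 k149 14 (.s k169 k232 8 (.s k85 k253 13 (.d k64 k128 k127 7 6))))))]
  (.c k26 (.q k31 [(.s k1 k2 0 (.s k128 k64 7 (.s k129 k66 8 (.s k65 k193 7 (.d k130 k131 k195 0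
  8))))), (.s k23 k43 5 (.s k15 k47 3 (.s k7 k11 1 (.s k39 k55 3 (.d k27 k19 k51 1 5)))))] .n) (.c
  k31 (.q k26 [(.s k1 k2 0 (.s k128 k64 7 (.s k129 k66 8 (.s k65 k193 7 (.d k130 k131 k195 0 8))))),
  (.s k23 k43 5 (.s k129 k66 8 (.s k149 k106 14 (.s k86 k212 8 (.d k169 k189 k252 5 14))))), (.s k1
  k2 0 (.s k43 k23 5 (.s k106 k149 14 (.s k169 k232 8 (.s k85 k253 13 (.d k64 k128 k127 7 6))))))]
  (.c k86 (.l (.s k2 k1 0 (.s k64 k128 7 (.s k66 k129 8 (.s k130 k194 7 (.d k65 k67 k195 0 8))))))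
  .n)) (.c k86 (.l (.s k2 k1 0 (.s k64 k128 7 (.s k66 k129 8 (.s k130 k194 7 (.d k65 k67 k195 0
  8)))))) .n))))

def t21_17 : T TT 256 :=
  (.q k192 [(.s k1 k2 0 (.s k128 k64 7 (.s k129 k66 8 (.s k65 k193 7 (.d k130 k131 k195 0 8))))),
  (.s k23 k43 5 (.s k129 k66 8 (.s k149 k106 14 (.s k86 k212 8 (.d k169 k189 k252 5 14))))), (.s k1
  k2 0 (.s k43 k23 5 (.s k106 k149 14 (.s k169 k232 8 (.s k85 k253 13 (.d k64 k128 k127 7 6))))))]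
  (.c k25 (.q k29 [(.s k1 k2 0 (.s k128 k64 7 (.s k129 k66 8 (.s k65 k193 7 (.d k130 k131 k195 0
  8))))), (.s k12 k46 4 (.s k132 k72 9 (.s k149 k106 14 (.s k89 k209 9 (.d k166 k183 k243 4 14)))))]
  .n) (.c k29 (.q k25 [(.s k1 k2 0 (.s k128 k64 7 (.s k129 k66 8 (.s k65 k193 7 (.d k130 k131 k195 0
  8))))), (.s k23 k43 5 (.s k129 k66 8 (.s k149 k106 14 (.s k86 k212 8 (.d k169 k189 k252 5 14))))),
  (.s k1 k2 0 (.s k43 k23 5 (.s k106 k149 14 (.s k169 k232 8 (.s k85 k253 13 (.d k64 k128 k127 7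
  6))))))] (.c k86 (.l (.s k2 k1 0 (.s k64 k128 7 (.s k66 k129 8 (.s k130 k194 7 (.d k65 k67 k195 0
  8)))))) .n)) (.c k86 (.l (.s k2 k1 0 (.s k64 k128 7 (.s k66 k129 8 (.s k130 k194 7 (.d k65 k67
  k195 0 8)))))) .n))))

def t21_18 : T TT 256 :=
  (.q k192 [(.s k23 k43 5 (.s k129 k66 8 (.s k149 k106 14 (.s k86 k212 8 (.d k169 k189 k252 5
  14))))), (.s k1 k2 0 (.s k128 k64 7 (.s k129 k66 8 (.s k65 k193 7 (.d k130 k131 k195 0 8))))), (.s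
  k1 k2 0 (.s k43 k23 5 (.s k106 k149 14 (.s k169 k232 8 (.s k85 k253 13 (.d k64 k128 k127 7
  6))))))] (.c k86 (.l (.s k2 k1 0 (.s k64 k128 7 (.s k66 k129 8 (.s k130 k194 7 (.d k65 k67 k195 0
  8)))))) .n))

def t21_19 : T TT 256 :=
  (.q k192 [(.s k1 k2 0 (.s k128 k64 7 (.s k129 k66 8 (.s k65 k193 7 (.d k130 k131 k195 0 8))))),
  (.s k23 k43 5 (.s k129 k66 8 (.s k149 k106 14 (.s k86 k212 8 (.d k169 k189 k252 5 14))))), (.s k1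
  k2 0 (.s k43 k23 5 (.s k106 k149 14 (.s k169 k232 8 (.s k85 k253 13 (.d k64 k128 k127 7 6))))))]
  (.c k86 (.l (.s k2 k1 0 (.s k64 k128 7 (.s k66 k129 8 (.s k130 k194 7 (.d k65 k67 k195 0 8))))))
  .n))

def t21_20 : T TT 256 :=
  (.q k192 [(.s k1 k2 0 (.s k128 k64 7 (.s k129 k66 8 (.s k65 k193 7 (.d k130 k131 k195 0 8))))),
  (.s k23 k43 5 (.s k129 k66 8 (.s k149 k106 14 (.s k86 k212 8 (.d k169 k189 k252 5 14)))))] (.c k22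
  (.l (.s k23 k43 5 (.s k129 k66 8 (.s k149 k106 14 (.s k86 k212 8 (.d k169 k189 k252 5 14)))))) (.c
  k23 (.q k22 [(.s k2 k1 0 (.s k62 k42 5 (.d k60 k61 k41 0 6))), (.s k1 k2 0 (.s k128 k64 7 (.s k129
  k66 8 (.s k65 k193 7 (.d k130 k131 k195 0 8)))))] (.c k1 (.l (.s k60 k41 6 (.s k61 k62 0 (.s k148
  k104 13 (.s k149 k106 14 (.s k105 k193 13 (.d k150 k151 k195 0 14))))))) (.c k2 (.l (.s k60 k41 6
  (.s k66 k129 8 (.s k106 k149 14 (.s k86 k126 5 (.s k150 k214 7 (.d k62 k61 k194 0 13))))))) .n)))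
  (.c k66 (.q k22 [(.s k2 k1 0 (.s k62 k42 5 (.d k60 k61 k41 0 6))), (.s k1 k2 0 (.s k43 k23 5 (.s
  k106 k149 14 (.s k169 k232 8 (.s k85 k253 13 (.d k64 k128 k127 7 6))))))] (.c k1 (.l (.s k60 k41 6
  (.s k61 k62 0 (.s k148 k104 13 (.s k149 k106 14 (.s k105 k193 13 (.d k150 k151 k195 0 14)))))))
  (.c k2 (.l (.s k60 k41 6 (.s k23 k43 5 (.s k148 k104 13 (.s k149 k106 14 (.s k86 k212 8 (.d k150
  k151 k214 0 7))))))) (.c k106 (.l (.s k2 k1 0 (.s k42 k62 5 (.s k41 k60 6 (.d k43 k40 k23 0 5)))))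
  .n)))) (.c k86 (.l (.s k2 k1 0 (.s k64 k128 7 (.s k66 k129 8 (.s k130 k194 7 (.d k65 k67 k195 0
  8)))))) (.c k129 (.q k22 [(.s k2 k1 0 (.s k62 k42 5 (.d k60 k61 k41 0 6))), (.s k1 k2 0 (.s k43
  k23 5 (.s k106 k149 14 (.s k169 k232 8 (.s k85 k253 13 (.d k64 k128 k127 7 6))))))] (.c k1 (.l (.s
  k60 k41 6 (.s k61 k62 0 (.s k148 k104 13 (.s k149 k106 14 (.s k150 k151 0 (.d k105 k193 k195 13
  14))))))) (.c k2 (.l (.s k60 k41 6 (.s k23 k43 5 (.s k148 k104 13 (.s k149 k106 14 (.s k86 k212 8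
  (.d k150 k151 k214 0 7))))))) (.c k106 (.l (.s k2 k1 0 (.s k42 k62 5 (.s k41 k60 6 (.d k43 k40 k23
  0 5))))) .n)))) .n))))))

def t21_22 : T TT 256 :=
  (.q k192 [(.s k23 k43 5 (.s k129 k66 8 (.s k149 k106 14 (.s k86 k212 8 (.d k169 k189 k252 5
  14))))), (.s k2 k1 0 (.s k64 k128 7 (.s k66 k129 8 (.s k130 k194 7 (.d k65 k67 k195 0 8)))))] (.c
  k20 (.l (.s k23 k43 5 (.s k129 k66 8 (.s k149 k106 14 (.s k86 k212 8 (.d k169 k189 k252 5 14))))))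
  (.c k23 (.q k20 [(.s k1 k2 0 (.s k128 k64 7 (.s k129 k66 8 (.s k65 k193 7 (.d k130 k131 k195 0
  8))))), (.s k60 k40 5 (.s k128 k64 7 (.s k148 k104 13 (.s k84 k212 7 (.d k168 k188 k252 5 13)))))]
  (.c k64 (.l (.s k2 k1 0 (.s k60 k40 5 (.s k66 k129 8 (.s k194 k130 7 (.s k106 k149 14 (.d k62 k61
  k150 0 13))))))) (.c k86 (.l (.s k2 k1 0 (.s k64 k128 7 (.s k66 k129 8 (.s k130 k194 7 (.d k65 k67
  k195 0 8)))))) (.c k128 (.l (.s k1 k2 0 (.s k60 k40 5 (.s k129 k66 8 (.s k193 k65 7 (.s k149 k106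
  14 (.d k61 k62 k105 0 13))))))) .n)))) (.c k66 (.q k20 [(.s k60 k40 5 (.s k128 k64 7 (.s k148 k104
  13 (.s k84 k212 7 (.d k168 k188 k252 5 13))))), (.s k1 k2 0 (.s k43 k23 5 (.s k106 k149 14 (.s
  k169 k232 8 (.s k85 k253 13 (.d k64 k128 k127 7 6)))))), (.s k60 k40 5 (.s k61 k62 0 (.s k148 k104
  13 (.s k149 k106 14 (.s k105 k193 13 (.d k150 k151 k195 0 14))))))] (.c k232 (.l (.s k60 k40 5 (.s
  k128 k64 7 (.s k148 k104 13 (.s k168 k188 5 (.d k84 k212 k252 7 13)))))) .n)) (.c k129 (.q k20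
  [(.s k60 k40 5 (.s k128 k64 7 (.s k148 k104 13 (.s k84 k212 7 (.d k168 k188 k252 5 13))))), (.s k1
  k2 0 (.s k43 k23 5 (.s k106 k149 14 (.s k169 k232 8 (.s k85 k253 13 (.d k64 k128 k127 7 6)))))),
  (.s k60 k40 5 (.s k61 k62 0 (.s k148 k104 13 (.s k149 k106 14 (.s k105 k193 13 (.d k150 k151 k195
  0 14))))))] (.c k232 (.l (.s k60 k40 5 (.s k128 k64 7 (.s k148 k104 13 (.s k168 k188 5 (.d k84
  k212 k252 7 13)))))) .n)) (.c k149 (.l (.s k1 k2 0 (.s k128 k64 7 (.s k129 k66 8 (.s k65 k193 7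
  (.d k130 k131 k195 0 8)))))) .n))))))

def t21_23 : T TT 256 :=
  (.q k192 [(.s k1 k2 0 (.s k128 k64 7 (.s k129 k66 8 (.s k65 k193 7 (.d k130 k131 k195 0 8))))),
  (.s k1 k2 0 (.s k66 k129 8 (.s k106 k149 14 (.s k86 k126 5 (.s k169 k252 14 (.s k85 k253 13 (.d
  k64 k128 k127 7 6))))))), (.s k2 k1 0 (.s k64 k128 7 (.s k66 k129 8 (.s k130 k194 7 (.d k65 k67
  k195 0 8)))))] (.c k1 (.q k22 [(.s k60 k41 6 (.s k61 k62 0 (.s k148 k104 13 (.s k149 k106 14 (.s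
  k105 k193 13 (.d k150 k151 k195 0 14)))))), (.s k64 k128 7 (.s k60 k41 6 (.s k61 k62 0 (.s k40 k20
  5 (.s k104 k148 13 (.s k168 k232 7 (.d k84 k124 k252 5 13))))))), (.s k128 k64 7 (.s k129 k66 8
  (.s k149 k106 14 (.s k131 k130 0 (.s k169 k189 5 (.s k86 k252 14 (.d k150 k188 k214 6 7)))))))]
  (.c k41 (.q k61 [(.s k60 k62 0 (.s k148 k104 13 (.s k149 k106 14 (.s k150 k151 0 (.d k105 k193
  k195 13 14))))), (.s k128 k64 7 (.s k60 k62 0 (.s k20 k40 5 (.s k148 k104 13 (.s k168 k188 5 (.d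
  k84 k212 k252 7 13)))))), (.s k66 k129 8 (.s k62 k60 0 (.s k106 k149 14 (.s k150 k194 13 (.d k86
  k126 k214 5 7))))), (.s k64 k128 7 (.s k66 k129 8 (.s k149 k106 14 (.s k193 k105 13 (.s k65 k67 0
  (.d k195 k130 k194 8 0))))))] .n) (.c k61 (.f k41 k60 6 (.l (.s k128 k64 7 (.s k129 k66 8 (.s k149
  k106 14 (.s k131 k130 0 (.s k169 k189 5 (.s k86 k252 14 (.d k150 k188 k214 6 7))))))))) (.c k149
  (.l (.s k128 k64 7 (.s k60 k41 6 (.s k61 k62 0 (.s k20 k40 5 (.s k148 k104 13 (.s k168 k188 5 (.d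
  k84 k212 k252 7 13)))))))) .n)))) (.c k2 (.q k86 [(.s k66 k129 8 (.d k106 k126 k149 5 14)), (.s
  k128 k64 7 (.s k252 k169 14 (.s k168 k84 13 (.s k148 k188 5 (.s k104 k60 13 (.d k232 k212 k40 5
  7))))))] (.c k20 (.q k22 [(.s k66 k129 8 (.d k106 k126 k149 5 14)), (.s k64 k128 7 (.s k60 k41 6
  (.s k252 k169 14 (.s k104 k148 13 (.d k84 k168 k124 13 5)))))] (.c k149 (.l (.s k66 k129 8 (.s
  k126 k106 5 (.d k252 k189 k169 8 14)))) .n)) (.c k22 (.q k20 [(.s k66 k129 8 (.d k106 k126 k149 5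
  14)), (.s k40 k60 5 (.s k252 k169 14 (.s k168 k84 13 (.d k232 k212 k104 5 7))))] (.c k42 (.q k62
  [(.d k60 k61 k40 0 5), (.s k66 k129 8 (.d k106 k126 k149 5 14))] (.c k106 (.q k234 [(.d k60 k61
  k40 0 5), (.s k252 k169 14 (.s k126 k189 8 (.s k254 k190 7 (.d k255 k253 k213 0 6))))] .n) (.c
  k234 (.l (.s k106 k149 14 (.d k60 k61 k40 0 5))) .n))) (.c k62 (.q k42 [(.s k66 k129 8 (.d k106
  k126 k149 5 14)), (.s k40 k60 5 (.s k252 k169 14 (.s k168 k84 13 (.d k232 k212 k104 5 7))))] .n)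
  .n))) .n))) (.c k20 (.q k22 [(.s k2 k1 0 (.s k62 k42 5 (.d k60 k61 k41 0 6))), (.s k1 k2 0 (.s
  k128 k64 7 (.s k129 k66 8 (.s k65 k193 7 (.d k130 k131 k195 0 8)))))] (.c k1 (.l (.s k60 k41 6 (.s
  k61 k62 0 (.s k148 k104 13 (.s k149 k106 14 (.s k105 k193 13 (.d k150 k151 k195 0 14))))))) (.c k2
  (.l (.s k60 k41 6 (.s k66 k129 8 (.s k106 k149 14 (.s k86 k126 5 (.s k150 k214 7 (.d k62 k61 k194
  0 13))))))) .n))) (.c k22 (.q k20 [(.s k1 k2 0 (.s k128 k64 7 (.s k129 k66 8 (.s k65 k193 7 (.d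
  k130 k131 k195 0 8))))), (.s k60 k40 5 (.s k128 k64 7 (.s k148 k104 13 (.s k84 k212 7 (.d k168
  k188 k252 5 13)))))] (.c k64 (.l (.s k2 k1 0 (.s k60 k40 5 (.s k66 k129 8 (.s k194 k130 7 (.s k106
  k149 14 (.d k62 k61 k150 0 13))))))) (.c k86 (.l (.s k2 k1 0 (.s k64 k128 7 (.s k66 k129 8 (.s
  k130 k194 7 (.d k65 k67 k195 0 8)))))) (.c k128 (.l (.s k1 k2 0 (.s k60 k40 5 (.s k129 k66 8 (.s
  k193 k65 7 (.s k149 k106 14 (.d k61 k62 k105 0 13))))))) .n)))) (.c k64 (.q k31 [(.s k15 k47 3 (.s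
  k149 k106 14 (.s k90 k208 10 (.s k165 k240 14 (.d k133 k181 k74 3 10))))), (.s k2 k1 0 (.s k15 k47
  3 (.s k10 k5 2 (.s k6 k14 1 (.s k9 k12 2 (.d k11 k8 k7 0 1))))))] (.c k15 (.l (.s k66 k129 8 (.s
  k149 k106 14 (.s k208 k90 10 (.s k240 k224 3 (.s k82 k161 12 (.s k145 k19 8 (.d k98 k114 k51 3
  12)))))))) (.c k20 (.q k22 [(.s k2 k1 0 (.s k62 k42 5 (.d k60 k61 k41 0 6))), (.s k1 k2 0 (.s k15
  k47 3 (.s k5 k10 2 (.s k9 k13 1 (.s k6 k12 2 (.d k7 k4 k11 0 1)))))), (.s k15 k47 3 (.s k133 k74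
  10 (.s k149 k106 14 (.s k90 k208 10 (.d k165 k181 k240 3 14)))))] .n) (.c k22 (.q k20 [(.s k15 k47
  3 (.s k149 k106 14 (.s k90 k208 10 (.s k165 k240 14 (.d k133 k181 k74 3 10))))), (.s k2 k1 0 (.s
  k60 k40 5 (.s k66 k129 8 (.s k194 k130 7 (.s k106 k149 14 (.d k62 k61 k150 0 13)))))), (.s k1 k2 0
  (.s k15 k47 3 (.s k5 k10 2 (.s k9 k13 1 (.s k6 k12 2 (.d k7 k4 k11 0 1))))))] .n) (.c k47 (.q k86
  [(.s k66 k129 8 (.d k106 k126 k149 5 14)), (.s k149 k106 14 (.s k90 k208 10 (.s k82 k94 1 (.s k240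
  k161 12 (.s k165 k15 14 (.d k181 k133 k122 3 10))))))] (.c k20 (.q k22 [(.s k66 k129 8 (.d k106
  k126 k149 5 14)), (.s k60 k41 6 (.s k169 k252 14 (.s k150 k214 7 (.s k195 k105 14 (.d k131 k188
  k67 6 7)))))] .n) (.c k22 (.q k20 [(.s k66 k129 8 (.d k106 k126 k149 5 14)), (.s k40 k60 5 (.s
  k252 k169 14 (.s k168 k84 13 (.d k232 k104 k212 7 5))))] .n) (.c k106 (.f k1 k2 0 (.l (.s k129 k66
  8 (.s k65 k193 7 (.s k169 k252 14 (.s k85 k253 13 (.s k105 k125 5 (.s k67 k124 6 (.d k195 k130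
  k131 8 7))))))))) (.c k149 (.l (.s k66 k129 8 (.s k126 k106 5 (.d k252 k189 k169 8 14)))) .n)))))
  .n))))) (.c k66 (.q k22 [(.s k2 k1 0 (.s k62 k42 5 (.d k60 k61 k41 0 6))), (.s k64 k128 7 (.s k60
  k41 6 (.s k40 k20 5 (.s k104 k148 13 (.s k168 k232 7 (.d k84 k124 k252 5 13))))))] (.c k1 (.l (.s
  k60 k41 6 (.s k61 k62 0 (.s k148 k104 13 (.s k149 k106 14 (.s k105 k193 13 (.d k150 k151 k195 0
  14))))))) (.c k41 (.q k61 [(.s k2 k1 0 (.d k62 k60 k42 0 5)), (.s k64 k128 7 (.s k60 k62 0 (.s k40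
  k20 5 (.s k104 k148 13 (.s k168 k232 7 (.d k84 k124 k252 5 13)))))), (.s k1 k2 0 (.s k149 k106 14
  (.s k193 k105 13 (.s k65 k129 7 (.d k195 k194 k130 0 8)))))] .n) (.c k60 (.q k86 [(.s k2 k1 0 (.s
  k62 k42 5 (.s k150 k214 7 (.d k106 k194 k149 13 14)))), (.s k1 k2 0 (.s k64 k128 7 (.s k169 k252
  14 (.s k85 k253 13 (.d k106 k149 k127 14 6))))), (.s k252 k169 14 (.s k214 k150 7 (.s k195 k233 6
  (.s k194 k193 0 (.s k234 k254 5 (.s k213 k255 6 (.d k212 k215 k232 0 5)))))))] (.c k194 (.l (.s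
  k128 k64 7 (.s k169 k252 14 (.s k150 k214 7 (.s k149 k106 14 (.s k129 k189 5 (.d k131 k188 k130 6
  0))))))) .n)) (.c k61 (.l (.s k1 k2 0 (.s k64 k128 7 (.s k60 k41 6 (.s k40 k20 5 (.s k104 k148 13
  (.s k168 k232 7 (.d k84 k124 k252 5 13)))))))) .n))))) (.c k128 (.f k1 k2 0 (.l (.s k129 k66 8 (.s
  k193 k65 7 (.s k149 k106 14 (.s k105 k61 13 (.s k169 k189 5 (.s k253 k85 13 (.d k233 k213 k41 5
  7))))))))) (.c k129 (.q k22 [(.s k2 k1 0 (.s k62 k42 5 (.d k60 k61 k41 0 6))), (.s k64 k128 7 (.s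
  k60 k41 6 (.s k40 k20 5 (.s k104 k148 13 (.s k168 k232 7 (.d k84 k124 k252 5 13))))))] (.c k1 (.l
  (.s k60 k41 6 (.s k61 k62 0 (.s k148 k104 13 (.s k149 k106 14 (.s k150 k151 0 (.d k105 k193 k195
  13 14))))))) (.c k41 (.q k62 [(.d k2 k1 k42 0 5), (.s k106 k149 14 (.s k150 k194 13 (.s k86 k214 7
  (.s k169 k252 14 (.s k131 k188 6 (.s k195 k67 7 (.d k60 k61 k105 0 14)))))))] (.c k1 (.l (.s k61
  k60 0 (.s k2 k42 5 (.s k106 k149 14 (.s k194 k150 13 (.s k130 k66 7 (.d k195 k193 k65 0 8)))))))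
  (.c k61 (.l (.s k1 k2 0 (.s k106 k149 14 (.s k150 k194 13 (.s k86 k214 7 (.s k169 k252 14 (.s k85
  k253 13 (.d k64 k128 k127 7 6)))))))) .n))) (.c k60 (.l (.s k2 k1 0 (.s k62 k42 5 (.s k106 k149 14
  (.s k194 k150 13 (.s k130 k66 7 (.d k195 k193 k65 0 8))))))) (.c k61 (.l (.s k1 k2 0 (.s k64 k128
  7 (.s k60 k41 6 (.s k40 k20 5 (.s k104 k148 13 (.s k168 k232 7 (.d k84 k124 k252 5 13))))))))
  .n))))) .n)))))))))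

def t21_24 : T TT 256 :=
  (.q k192 [(.s k1 k2 0 (.s k128 k64 7 (.s k129 k66 8 (.s k65 k193 7 (.d k130 k131 k195 0 8))))),
  (.s k23 k43 5 (.s k129 k66 8 (.s k149 k106 14 (.s k86 k212 8 (.d k169 k189 k252 5 14))))), (.s k1
  k2 0 (.s k43 k23 5 (.s k106 k149 14 (.s k169 k232 8 (.s k85 k253 13 (.d k64 k128 k127 7 6))))))]
  (.c k86 (.l (.s k2 k1 0 (.s k64 k128 7 (.s k66 k129 8 (.s k130 k194 7 (.d k65 k67 k195 0 8))))))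
  .n))

def t21_25 : T TT 256 :=
  (.q k192 [(.s k1 k2 0 (.s k128 k64 7 (.s k129 k66 8 (.s k65 k193 7 (.d k130 k131 k195 0 8))))),
  (.s k23 k43 5 (.s k129 k66 8 (.s k149 k106 14 (.s k86 k212 8 (.d k169 k189 k252 5 14))))), (.s k1
  k2 0 (.s k43 k23 5 (.s k106 k149 14 (.s k169 k232 8 (.s k85 k253 13 (.d k64 k128 k127 7 6))))))]
  (.c k17 (.q k29 [(.s k1 k2 0 (.s k128 k64 7 (.s k129 k66 8 (.s k65 k193 7 (.d k130 k131 k195 0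
  8))))), (.s k12 k46 4 (.s k132 k72 9 (.s k149 k106 14 (.s k89 k209 9 (.d k166 k183 k243 4 14)))))]
  .n) (.c k29 (.q k17 [(.s k1 k2 0 (.s k128 k64 7 (.s k129 k66 8 (.s k65 k193 7 (.d k130 k131 k195 0
  8))))), (.s k51 k34 4 (.s k128 k64 7 (.s k145 k98 12 (.s k81 k209 7 (.d k162 k179 k243 4 12))))),
  (.s k1 k2 0 (.s k34 k51 4 (.s k33 k49 3 (.s k48 k18 4 (.d k32 k35 k16 0 3)))))] .n) (.c k86 (.l
  (.s k2 k1 0 (.s k64 k128 7 (.s k66 k129 8 (.s k130 k194 7 (.d k65 k67 k195 0 8)))))) .n))))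

def t21_26 : T TT 256 :=
  (.q k192 [(.s k1 k2 0 (.s k128 k64 7 (.s k129 k66 8 (.s k65 k193 7 (.d k130 k131 k195 0 8))))),
  (.s k23 k43 5 (.s k129 k66 8 (.s k149 k106 14 (.s k86 k212 8 (.d k169 k189 k252 5 14))))), (.s k1
  k2 0 (.s k43 k23 5 (.s k106 k149 14 (.s k169 k232 8 (.s k85 k253 13 (.d k64 k128 k127 7 6))))))]
  (.c k16 (.q k31 [(.s k1 k2 0 (.s k128 k64 7 (.s k129 k66 8 (.s k65 k193 7 (.d k130 k131 k195 0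
  8))))), (.s k23 k43 5 (.s k15 k47 3 (.s k7 k11 1 (.s k39 k55 3 (.d k27 k19 k51 1 5)))))] .n) (.c
  k31 (.q k16 [(.s k1 k2 0 (.s k128 k64 7 (.s k129 k66 8 (.s k65 k193 7 (.d k130 k131 k195 0 8))))),
  (.s k48 k32 3 (.s k128 k64 7 (.s k144 k96 11 (.s k80 k208 7 (.d k160 k176 k240 3 11))))), (.s k2
  k1 0 (.s k48 k32 3 (.s k18 k33 4 (.s k34 k50 3 (.d k17 k19 k51 0 4)))))] .n) (.c k86 (.l (.s k2 k1
  0 (.s k64 k128 7 (.s k66 k129 8 (.s k130 k194 7 (.d k65 k67 k195 0 8)))))) .n))))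

def t21_27 : T TT 256 :=
  (.q k192 [(.s k1 k2 0 (.s k128 k64 7 (.s k129 k66 8 (.s k65 k193 7 (.d k130 k131 k195 0 8))))),
  (.s k23 k43 5 (.s k129 k66 8 (.s k149 k106 14 (.s k86 k212 8 (.d k169 k189 k252 5 14))))), (.s k1
  k2 0 (.s k43 k23 5 (.s k106 k149 14 (.s k169 k232 8 (.s k85 k253 13 (.d k64 k128 k127 7 6))))))]
  (.c k86 (.l (.s k2 k1 0 (.s k64 k128 7 (.s k66 k129 8 (.s k130 k194 7 (.d k65 k67 k195 0 8))))))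
  .n))

def t21_28 : T TT 256 :=
  (.q k192 [(.s k1 k2 0 (.s k128 k64 7 (.s k129 k66 8 (.s k65 k193 7 (.d k130 k131 k195 0 8))))),
  (.s k23 k43 5 (.s k129 k66 8 (.s k149 k106 14 (.s k86 k212 8 (.d k169 k189 k252 5 14))))), (.s k1
  k2 0 (.s k43 k23 5 (.s k106 k149 14 (.s k169 k232 8 (.s k85 k253 13 (.d k64 k128 k127 7 6))))))]
  (.c k86 (.l (.s k2 k1 0 (.s k64 k128 7 (.s k66 k129 8 (.s k130 k194 7 (.d k65 k67 k195 0 8))))))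
  .n))

def t21_29 : T TT 256 :=
  (.q k192 [(.s k1 k2 0 (.s k128 k64 7 (.s k129 k66 8 (.s k65 k193 7 (.d k130 k131 k195 0 8))))),
  (.s k23 k43 5 (.s k129 k66 8 (.s k149 k106 14 (.s k86 k212 8 (.d k169 k189 k252 5 14))))), (.s k1
  k2 0 (.s k43 k23 5 (.s k106 k149 14 (.s k169 k232 8 (.s k85 k253 13 (.d k64 k128 k127 7 6))))))]
  (.c k17 (.q k25 [(.s k1 k2 0 (.s k128 k64 7 (.s k129 k66 8 (.s k65 k193 7 (.d k130 k131 k195 0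
  8))))), (.s k23 k43 5 (.s k129 k66 8 (.s k149 k106 14 (.s k86 k212 8 (.d k169 k189 k252 5 14))))),
  (.s k1 k2 0 (.s k43 k23 5 (.s k106 k149 14 (.s k169 k232 8 (.s k85 k253 13 (.d k64 k128 k127 7
  6))))))] (.c k86 (.l (.s k2 k1 0 (.s k64 k128 7 (.s k66 k129 8 (.s k130 k194 7 (.d k65 k67 k195 0
  8)))))) .n)) (.c k25 (.q k17 [(.s k1 k2 0 (.s k128 k64 7 (.s k129 k66 8 (.s k65 k193 7 (.d k130
  k131 k195 0 8))))), (.s k51 k34 4 (.s k128 k64 7 (.s k145 k98 12 (.s k81 k209 7 (.d k162 k179 k243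
  4 12))))), (.s k1 k2 0 (.s k34 k51 4 (.s k33 k49 3 (.s k48 k18 4 (.d k32 k35 k16 0 3)))))] .n) (.c
  k86 (.l (.s k2 k1 0 (.s k64 k128 7 (.s k66 k129 8 (.s k130 k194 7 (.d k65 k67 k195 0 8))))))
  .n))))

def t21_30 : T TT 256 :=
  (.q k192 [(.s k1 k2 0 (.s k128 k64 7 (.s k129 k66 8 (.s k65 k193 7 (.d k130 k131 k195 0 8))))),
  (.s k23 k43 5 (.s k129 k66 8 (.s k149 k106 14 (.s k86 k212 8 (.d k169 k189 k252 5 14))))), (.s k1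
  k2 0 (.s k43 k23 5 (.s k106 k149 14 (.s k169 k232 8 (.s k85 k253 13 (.d k64 k128 k127 7 6))))))]
  (.c k86 (.l (.s k2 k1 0 (.s k64 k128 7 (.s k66 k129 8 (.s k130 k194 7 (.d k65 k67 k195 0 8))))))
  .n))

def t21_31 : T TT 256 :=
  (.q k192 [(.s k1 k2 0 (.s k128 k64 7 (.s k129 k66 8 (.s k65 k193 7 (.d k130 k131 k195 0 8))))),
  (.s k23 k43 5 (.s k129 k66 8 (.s k149 k106 14 (.s k86 k212 8 (.d k169 k189 k252 5 14))))), (.s k1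
  k2 0 (.s k43 k23 5 (.s k106 k149 14 (.s k169 k232 8 (.s k85 k253 13 (.d k64 k128 k127 7 6))))))]
  (.c k16 (.q k26 [(.s k1 k2 0 (.s k128 k64 7 (.s k129 k66 8 (.s k65 k193 7 (.d k130 k131 k195 0
  8))))), (.s k23 k43 5 (.s k129 k66 8 (.s k149 k106 14 (.s k86 k212 8 (.d k169 k189 k252 5 14))))),
  (.s k1 k2 0 (.s k43 k23 5 (.s k106 k149 14 (.s k169 k232 8 (.s k85 k253 13 (.d k64 k128 k127 7
  6))))))] (.c k86 (.l (.s k2 k1 0 (.s k64 k128 7 (.s k66 k129 8 (.s k130 k194 7 (.d k65 k67 k195 0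
  8)))))) .n)) (.c k26 (.q k16 [(.s k1 k2 0 (.s k128 k64 7 (.s k129 k66 8 (.s k65 k193 7 (.d k130
  k131 k195 0 8))))), (.s k48 k32 3 (.s k128 k64 7 (.s k144 k96 11 (.s k80 k208 7 (.d k160 k176 k240
  3 11))))), (.s k2 k1 0 (.s k48 k32 3 (.s k18 k33 4 (.s k34 k50 3 (.d k17 k19 k51 0 4)))))] .n) (.c
  k86 (.l (.s k2 k1 0 (.s k64 k128 7 (.s k66 k129 8 (.s k130 k194 7 (.d k65 k67 k195 0 8))))))
  .n))))

def t21_32 : T TT 256 :=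
  (.q k192 [(.s k1 k2 0 (.s k128 k64 7 (.s k129 k66 8 (.s k65 k193 7 (.d k130 k131 k195 0 8))))),
  (.s k23 k43 5 (.s k129 k66 8 (.s k149 k106 14 (.s k86 k212 8 (.d k169 k189 k252 5 14))))), (.s k1
  k2 0 (.s k43 k23 5 (.s k106 k149 14 (.s k169 k232 8 (.s k85 k253 13 (.d k64 k128 k127 7 6))))))]
  (.c k86 (.l (.s k2 k1 0 (.s k64 k128 7 (.s k66 k129 8 (.s k130 k194 7 (.d k65 k67 k195 0 8))))))
  (.c k101 (.q k239 [(.s k1 k2 0 (.s k128 k64 7 (.s k129 k66 8 (.s k65 k193 7 (.d k130 k131 k195 0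
  8))))), (.s k23 k43 5 (.s k129 k66 8 (.s k149 k106 14 (.s k86 k212 8 (.d k169 k189 k252 5 14))))),
  (.s k1 k2 0 (.s k43 k23 5 (.s k106 k149 14 (.s k169 k232 8 (.s k85 k253 13 (.d k64 k128 k127 7
  6))))))] (.c k86 (.l (.s k2 k1 0 (.s k64 k128 7 (.s k66 k129 8 (.s k130 k194 7 (.d k65 k67 k195 0
  8)))))) .n)) (.c k239 (.q k101 [(.s k1 k2 0 (.s k128 k64 7 (.s k129 k66 8 (.s k65 k193 7 (.d k130
  k131 k195 0 8))))), (.s k106 k149 14 (.s k96 k111 2 (.s k48 k144 11 (.s k58 k53 2 (.d k154 k202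
  k207 11 14)))))] (.c k128 (.l (.s k23 k43 5 (.s k129 k66 8 (.s k149 k106 14 (.s k86 k212 8 (.d
  k169 k189 k252 5 14)))))) .n)) .n))))

def t21_33 : T TT 256 :=
  (.q k192 [(.s k1 k2 0 (.s k128 k64 7 (.s k129 k66 8 (.s k65 k193 7 (.d k130 k131 k195 0 8))))),
  (.s k23 k43 5 (.s k129 k66 8 (.s k149 k106 14 (.s k86 k212 8 (.d k169 k189 k252 5 14))))), (.s k1
  k2 0 (.s k43 k23 5 (.s k106 k149 14 (.s k169 k232 8 (.s k85 k253 13 (.d k64 k128 k127 7 6))))))]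
  (.c k86 (.l (.s k2 k1 0 (.s k64 k128 7 (.s k66 k129 8 (.s k130 k194 7 (.d k65 k67 k195 0 8))))))
  .n))

def t21_34 : T TT 256 :=
  (.q k192 [(.s k23 k43 5 (.s k129 k66 8 (.s k149 k106 14 (.s k86 k212 8 (.d k169 k189 k252 5
  14))))), (.s k1 k2 0 (.s k128 k64 7 (.s k129 k66 8 (.s k65 k193 7 (.d k130 k131 k195 0 8))))), (.s
  k1 k2 0 (.s k43 k23 5 (.s k106 k149 14 (.s k169 k232 8 (.s k85 k253 13 (.d k64 k128 k127 7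
  6))))))] (.c k86 (.l (.s k2 k1 0 (.s k64 k128 7 (.s k66 k129 8 (.s k130 k194 7 (.d k65 k67 k195 0
  8)))))) (.c k102 (.q k238 [(.s k1 k2 0 (.s k128 k64 7 (.s k129 k66 8 (.s k65 k193 7 (.d k130 k131
  k195 0 8))))), (.s k23 k43 5 (.s k129 k66 8 (.s k149 k106 14 (.s k86 k212 8 (.d k169 k189 k252 5
  14))))), (.s k1 k2 0 (.s k43 k23 5 (.s k106 k149 14 (.s k169 k232 8 (.s k85 k253 13 (.d k64 k128
  k127 7 6))))))] (.c k86 (.l (.s k2 k1 0 (.s k64 k128 7 (.s k66 k129 8 (.s k130 k194 7 (.d k65 k67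
  k195 0 8)))))) .n)) (.c k238 (.q k102 [(.s k23 k43 5 (.s k129 k66 8 (.s k149 k106 14 (.s k86 k212
  8 (.d k169 k189 k252 5 14))))), (.s k106 k149 14 (.s k98 k110 1 (.s k51 k145 12 (.s k59 k55 1 (.d
  k153 k200 k204 12 14))))), (.s k1 k2 0 (.s k128 k64 7 (.s k129 k66 8 (.s k65 k193 7 (.d k130 k131
  k195 0 8)))))] .n) .n))))

def t21_35 : T TT 256 :=
  (.q k192 [(.s k1 k2 0 (.s k128 k64 7 (.s k129 k66 8 (.s k65 k193 7 (.d k130 k131 k195 0 8))))),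
  (.s k23 k43 5 (.s k129 k66 8 (.s k149 k106 14 (.s k86 k212 8 (.d k169 k189 k252 5 14))))), (.s k1
  k2 0 (.s k43 k23 5 (.s k106 k149 14 (.s k169 k232 8 (.s k85 k253 13 (.d k64 k128 k127 7 6))))))]
  (.c k86 (.l (.s k2 k1 0 (.s k64 k128 7 (.s k66 k129 8 (.s k130 k194 7 (.d k65 k67 k195 0 8))))))
  .n))

def t21_36 : T TT 256 :=
  (.q k192 [(.s k1 k2 0 (.s k128 k64 7 (.s k129 k66 8 (.s k65 k193 7 (.d k130 k131 k195 0 8))))),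
  (.s k23 k43 5 (.s k129 k66 8 (.s k149 k106 14 (.s k86 k212 8 (.d k169 k189 k252 5 14))))), (.s k1
  k2 0 (.s k43 k23 5 (.s k106 k149 14 (.s k169 k232 8 (.s k85 k253 13 (.d k64 k128 k127 7 6))))))]
  (.c k86 (.l (.s k2 k1 0 (.s k64 k128 7 (.s k66 k129 8 (.s k130 k194 7 (.d k65 k67 k195 0 8))))))
  .n))

def t21_37 : T TT 256 :=
  (.q k192 [(.s k1 k2 0 (.s k128 k64 7 (.s k129 k66 8 (.s k65 k193 7 (.d k130 k131 k195 0 8))))),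
  (.s k23 k43 5 (.s k129 k66 8 (.s k149 k106 14 (.s k86 k212 8 (.d k169 k189 k252 5 14))))), (.s k1
  k2 0 (.s k43 k23 5 (.s k106 k149 14 (.s k169 k232 8 (.s k85 k253 13 (.d k64 k128 k127 7 6))))))]
  (.c k5 (.q k53 [(.s k1 k2 0 (.s k128 k64 7 (.s k129 k66 8 (.s k65 k193 7 (.d k130 k131 k195 0
  8))))), (.s k48 k58 2 (.s k144 k96 11 (.s k149 k106 14 (.s k101 k197 11 (.d k154 k159 k207 2
  14)))))] .n) (.c k53 (.q k5 [(.s k1 k2 0 (.s k128 k64 7 (.s k129 k66 8 (.s k65 k193 7 (.d k130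
  k131 k195 0 8))))), (.s k15 k10 2 (.s k128 k64 7 (.s k133 k74 10 (.s k69 k197 7 (.d k138 k143 k207
  2 10))))), (.s k1 k2 0 (.s k10 k15 2 (.s k9 k13 1 (.s k12 k6 2 (.d k8 k11 k4 0 1)))))] .n) (.c k86
  (.l (.s k2 k1 0 (.s k64 k128 7 (.s k66 k129 8 (.s k130 k194 7 (.d k65 k67 k195 0 8)))))) .n))))

def t21_38 : T TT 256 :=
  (.q k192 [(.s k1 k2 0 (.s k128 k64 7 (.s k129 k66 8 (.s k65 k193 7 (.d k130 k131 k195 0 8))))),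
  (.s k23 k43 5 (.s k129 k66 8 (.s k149 k106 14 (.s k86 k212 8 (.d k169 k189 k252 5 14))))), (.s k1
  k2 0 (.s k43 k23 5 (.s k106 k149 14 (.s k169 k232 8 (.s k85 k253 13 (.d k64 k128 k127 7 6))))))]
  (.c k4 (.q k55 [(.s k1 k2 0 (.s k128 k64 7 (.s k129 k66 8 (.s k65 k193 7 (.d k130 k131 k195 0
  8))))), (.s k23 k43 5 (.s k39 k7 3 (.s k51 k59 1 (.s k19 k35 3 (.d k27 k31 k15 1 5)))))] .n) (.c
  k55 (.q k4 [(.s k1 k2 0 (.s k128 k64 7 (.s k129 k66 8 (.s k65 k193 7 (.d k130 k131 k195 0 8))))),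
  (.s k12 k8 1 (.s k128 k64 7 (.s k132 k72 9 (.s k68 k196 7 (.d k136 k140 k204 1 9))))), (.s k2 k1 0
  (.s k12 k8 1 (.s k6 k9 2 (.s k10 k14 1 (.d k5 k7 k15 0 2)))))] .n) (.c k86 (.l (.s k2 k1 0 (.s k64
  k128 7 (.s k66 k129 8 (.s k130 k194 7 (.d k65 k67 k195 0 8)))))) .n))))

def t21_39 : T TT 256 :=
  (.q k192 [(.s k1 k2 0 (.s k128 k64 7 (.s k129 k66 8 (.s k65 k193 7 (.d k130 k131 k195 0 8))))),
  (.s k23 k43 5 (.s k129 k66 8 (.s k149 k106 14 (.s k86 k212 8 (.d k169 k189 k252 5 14))))), (.s k1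
  k2 0 (.s k43 k23 5 (.s k106 k149 14 (.s k169 k232 8 (.s k85 k253 13 (.d k64 k128 k127 7 6))))))]
  (.c k86 (.l (.s k2 k1 0 (.s k64 k128 7 (.s k66 k129 8 (.s k130 k194 7 (.d k65 k67 k195 0 8))))))
  .n))

def t21_40 : T TT 256 :=
  (.q k192 [(.s k1 k2 0 (.s k128 k64 7 (.s k129 k66 8 (.s k65 k193 7 (.d k130 k131 k195 0 8))))),
  (.s k23 k43 5 (.s k129 k66 8 (.s k149 k106 14 (.s k86 k212 8 (.d k169 k189 k252 5 14))))), (.s k1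
  k2 0 (.s k43 k23 5 (.s k106 k149 14 (.s k169 k232 8 (.s k85 k253 13 (.d k64 k128 k127 7 6))))))]
  (.c k86 (.l (.s k2 k1 0 (.s k64 k128 7 (.s k66 k129 8 (.s k130 k194 7 (.d k65 k67 k195 0 8))))))
  (.c k105 (.q k235 [(.s k1 k2 0 (.s k128 k64 7 (.s k129 k66 8 (.s k130 k131 0 (.d k65 k193 k195 7
  8))))), (.s k23 k43 5 (.s k129 k66 8 (.s k149 k106 14 (.s k86 k212 8 (.d k169 k189 k252 5 14))))),
  (.s k1 k2 0 (.s k43 k23 5 (.s k106 k149 14 (.s k169 k232 8 (.s k85 k253 13 (.d k64 k128 k127 7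
  6))))))] (.c k86 (.l (.s k2 k1 0 (.s k64 k128 7 (.s k66 k129 8 (.s k130 k194 7 (.d k65 k67 k195 0
  8)))))) .n)) (.c k235 (.q k105 [(.s k1 k2 0 (.s k149 k106 14 (.s k193 k61 13 (.d k129 k65 k66 7
  8)))), (.s k106 k149 14 (.s k104 k107 0 (.s k60 k148 13 (.s k62 k61 0 (.d k150 k194 k195 13
  14))))), (.s k1 k2 0 (.s k128 k64 7 (.s k129 k66 8 (.s k65 k193 7 (.d k130 k131 k195 0 8)))))] (.c
  k1 (.l (.s k64 k128 7 (.s k66 k129 8 (.s k65 k67 0 (.s k85 k125 5 (.d k106 k149 k127 14 6))))))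
  .n)) .n))))

def t21_41 : T TT 256 :=
  (.q k192 [(.s k64 k128 7 (.s k66 k129 8 (.s k65 k67 0 (.s k130 k195 8 (.d k2 k1 k194 0 7))))), (.s
  k23 k43 5 (.s k129 k66 8 (.s k149 k106 14 (.s k86 k212 8 (.d k169 k189 k252 5 14))))), (.s k1 k2 0
  (.s k43 k23 5 (.s k106 k149 14 (.s k169 k232 8 (.s k85 k253 13 (.d k64 k128 k127 7 6))))))] (.c k1
  (.q k61 [(.s k60 k62 0 (.s k148 k104 13 (.s k149 k106 14 (.s k150 k151 0 (.d k105 k193 k195 13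
  14))))), (.s k43 k23 5 (.s k66 k129 8 (.s k106 k149 14 (.s k169 k232 8 (.d k86 k126 k252 5
  14))))), (.s k128 k64 7 (.s k60 k62 0 (.s k20 k40 5 (.s k148 k104 13 (.s k84 k212 7 (.d k168 k188
  k252 5 13))))))] .n) (.c k61 (.l (.s k1 k2 0 (.s k128 k64 7 (.s k129 k66 8 (.s k65 k193 7 (.d k130
  k131 k195 0 8)))))) (.c k149 (.l (.s k1 k2 0 (.s k128 k64 7 (.s k129 k66 8 (.s k65 k193 7 (.d k130
  k131 k195 0 8)))))) .n))))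

def t21_42 : T TT 256 :=
  (.q k192 [(.s k1 k2 0 (.s k128 k64 7 (.s k129 k66 8 (.s k65 k193 7 (.d k130 k131 k195 0 8))))),
  (.s k43 k23 5 (.s k66 k129 8 (.s k106 k149 14 (.s k169 k232 8 (.d k86 k126 k252 5 14))))), (.s k2
  k1 0 (.s k64 k128 7 (.s k66 k129 8 (.s k130 k194 7 (.d k65 k67 k195 0 8))))), (.s k1 k2 0 (.s k43
  k23 5 (.s k106 k149 14 (.s k169 k232 8 (.s k85 k253 13 (.d k64 k128 k127 7 6))))))] (.c k106 (.q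
  k234 [(.s k2 k1 0 (.s k64 k128 7 (.s k66 k129 8 (.s k65 k67 0 (.d k130 k194 k195 7 8))))), (.s k23
  k43 5 (.s k255 k213 6 (.s k87 k171 13 (.s k151 k215 7 (.s k107 k195 13 (.d k127 k67 k191 5
  7)))))), (.s k1 k2 0 (.s k129 k66 8 (.s k65 k193 7 (.s k130 k195 8 (.d k128 k131 k64 0 7)))))] (.c
  k195 (.l (.s k64 k128 7 (.s k66 k129 8 (.s k67 k65 0 (.s k255 k213 6 (.s k87 k171 13 (.d k127 k191
  k107 7 5))))))) .n)) (.c k128 (.q k191 [(.s k66 k129 8 (.s k106 k149 14 (.s k86 k126 5 (.s k169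
  k252 14 (.d k43 k23 k232 5 8))))), (.s k43 k23 5 (.s k255 k127 7 (.s k171 k87 13 (.s k107 k235 7
  (.d k151 k131 k195 5 13))))), (.s k1 k2 0 (.s k66 k129 8 (.s k106 k149 14 (.s k127 k255 7 (.s k85
  k64 6 (.s k169 k253 13 (.d k86 k252 k126 14 5)))))))] (.c k106 (.q k234 [(.d k255 k213 k127 6 7)]
  (.c k127 (.l (.s k43 k23 5 (.s k255 k213 6 (.s k171 k87 13 (.s k107 k235 7 (.d k151 k131 k195 5
  13)))))) (.c k213 (.l (.s k43 k23 5 (.s k255 k127 7 (.s k171 k87 13 (.s k107 k235 7 (.d k151 k131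
  k195 5 13)))))) (.c k255 (.q k17 [(.s k2 k1 0 (.s k34 k51 4 (.s k18 k50 3 (.s k48 k33 4 (.d k16
  k19 k32 0 3))))), (.s k1 k2 0 (.s k49 k33 3 (.s k129 k66 8 (.s k193 k65 7 (.s k145 k97 11 (.s k81
  k209 7 (.d k161 k177 k241 3 11))))))), (.s k51 k34 4 (.s k19 k35 3 (.s k23 k43 5 (.s k27 k31 1 (.s
  k39 k15 5 (.d k55 k59 k7 1 3))))))] (.c k33 (.l (.s k1 k2 0 (.s k51 k34 4 (.s k129 k66 8 (.s k145
  k98 12 (.s k81 k209 7 (.d k161 k177 k241 3 11))))))) .n)) .n)))) (.c k131 (.l (.s k43 k23 5 (.s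
  k106 k149 14 (.s k169 k232 8 (.s k86 k252 14 (.d k66 k126 k129 5 8)))))) (.c k234 (.l (.s k106
  k149 14 (.s k43 k23 5 (.s k66 k129 8 (.s k169 k232 8 (.d k86 k126 k252 5 14)))))) .n)))) (.c k234
  (.l (.s k106 k149 14 (.s k43 k23 5 (.s k66 k129 8 (.s k169 k232 8 (.d k86 k126 k252 5 14))))))
  .n))))

def t21_43 : T TT 256 :=
  (.q k192 [(.s k1 k2 0 (.s k128 k64 7 (.s k129 k66 8 (.s k65 k193 7 (.d k130 k131 k195 0 8))))),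
  (.s k1 k2 0 (.s k66 k129 8 (.s k106 k149 14 (.s k86 k126 5 (.s k169 k252 14 (.s k85 k253 13 (.d
  k64 k128 k127 7 6))))))), (.s k2 k1 0 (.s k64 k128 7 (.s k66 k129 8 (.s k130 k194 7 (.d k65 k67
  k195 0 8)))))] (.c k1 (.q k61 [(.s k60 k62 0 (.s k148 k104 13 (.s k149 k106 14 (.s k150 k151 0 (.d
  k105 k193 k195 13 14))))), (.s k64 k128 7 (.s k60 k62 0 (.s k40 k20 5 (.s k104 k148 13 (.s k84
  k124 5 (.d k168 k232 k252 7 13)))))), (.s k64 k128 7 (.s k66 k129 8 (.s k149 k106 14 (.s k193 k105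
  13 (.s k65 k67 0 (.d k195 k130 k194 8 0)))))), (.s k66 k129 8 (.s k62 k60 0 (.s k106 k149 14 (.s
  k194 k150 13 (.s k130 k2 7 (.d k195 k193 k65 0 8))))))] (.c k149 (.l (.s k128 k64 7 (.s k60 k62 0
  (.s k20 k40 5 (.s k148 k104 13 (.s k84 k212 7 (.d k168 k188 k252 5 13))))))) .n)) (.c k2 (.q k61
  [(.s k128 k64 7 (.s k129 k66 8 (.s k130 k131 0 (.s k65 k195 8 (.s k193 k1 7 (.d k149 k105 k106 13
  14)))))), (.s k64 k128 7 (.s k60 k62 0 (.s k40 k20 5 (.s k104 k148 13 (.s k84 k124 5 (.d k168 k232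
  k252 7 13)))))), (.s k129 k66 8 (.s k149 k106 14 (.s k193 k105 13 (.s k65 k1 7 (.d k195 k194 k130
  0 8)))))] (.c k86 (.q k254 [(.s k129 k66 8 (.s k62 k60 0 (.s k126 k190 7 (.s k189 k252 8 (.d k149
  k106 k169 14 5))))), (.s k128 k64 7 (.s k60 k62 0 (.s k20 k40 5 (.s k148 k104 13 (.s k168 k188 5
  (.d k84 k212 k252 7 13)))))), (.s k64 k128 7 (.s k66 k129 8 (.s k149 k106 14 (.s k193 k105 13 (.s
  k67 k65 0 (.d k195 k131 k194 7 0))))))] (.c k124 (.l (.s k129 k66 8 (.s k62 k60 0 (.s k126 k190 7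
  (.s k149 k106 14 (.d k189 k169 k252 5 8)))))) .n)) (.c k149 (.l (.s k128 k64 7 (.s k60 k62 0 (.s
  k20 k40 5 (.s k148 k104 13 (.s k84 k212 7 (.d k168 k188 k252 5 13))))))) (.c k254 (.q k86 [(.s k66
  k129 8 (.d k106 k126 k149 5 14)), (.s k149 k106 14 (.s k212 k23 8 (.d k252 k232 k169 5 14)))] (.c
  k106 (.l (.s k64 k128 7 (.s k60 k62 0 (.s k104 k148 13 (.s k84 k124 5 (.d k252 k168 k169 13
  14)))))) (.c k149 (.l (.s k66 k129 8 (.s k126 k106 5 (.d k252 k189 k169 8 14)))) .n))) .n)))) (.c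
  k64 (.q k29 [(.s k12 k46 4 (.s k149 k106 14 (.s k89 k209 9 (.s k166 k243 14 (.d k132 k183 k72 4
  9))))), (.s k1 k2 0 (.s k12 k46 4 (.s k8 k4 1 (.s k9 k6 2 (.s k5 k13 1 (.d k10 k11 k15 0 2))))))]
  (.c k12 (.q k17 [(.s k1 k2 0 (.s k34 k51 4 (.s k33 k49 3 (.s k48 k18 4 (.d k32 k35 k16 0 3))))),
  (.s k149 k106 14 (.s k209 k89 9 (.s k81 k145 7 (.d k243 k226 k162 4 12))))] .n) (.c k46 (.q k17
  [(.s k1 k2 0 (.s k34 k51 4 (.s k33 k49 3 (.s k48 k18 4 (.d k32 k35 k16 0 3))))), (.s k149 k106 14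
  (.s k209 k89 9 (.s k81 k145 7 (.d k243 k226 k162 4 12))))] .n) .n))) (.c k66 (.q k61 [(.s k60 k62
  0 (.s k148 k104 13 (.s k149 k106 14 (.s k105 k193 13 (.d k150 k151 k195 0 14))))), (.s k64 k128 7
  (.s k60 k62 0 (.s k40 k20 5 (.s k104 k148 13 (.s k84 k124 5 (.d k168 k232 k252 7 13)))))), (.s k1
  k2 0 (.s k149 k106 14 (.s k193 k105 13 (.s k65 k129 7 (.d k195 k194 k130 0 8)))))] (.c k104 (.l
  (.s k60 k62 0 (.s k41 k22 6 (.s k149 k106 14 (.s k105 k193 13 (.s k169 k233 7 (.s k189 k129 5 (.d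
  k252 k126 k86 8 14)))))))) (.c k149 (.l (.s k128 k64 7 (.s k60 k62 0 (.s k20 k40 5 (.s k148 k104
  13 (.s k84 k212 7 (.d k168 k188 k252 5 13))))))) (.c k232 (.l (.s k128 k64 7 (.s k60 k62 0 (.s k20
  k40 5 (.s k148 k104 13 (.s k168 k188 5 (.d k84 k212 k252 7 13))))))) .n)))) (.c k128 (.q k17 [(.s
  k1 k2 0 (.s k34 k51 4 (.s k33 k49 3 (.s k48 k18 4 (.d k32 k35 k16 0 3))))), (.s k51 k34 4 (.s k19
  k35 3 (.s k129 k66 8 (.s k145 k98 12 (.s k82 k208 8 (.d k161 k177 k240 3 12)))))), (.s k1 k2 0 (.s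
  k49 k33 3 (.s k129 k66 8 (.s k193 k65 7 (.s k145 k97 11 (.s k81 k209 7 (.d k161 k177 k241 3
  11)))))))] (.c k33 (.l (.s k1 k2 0 (.s k51 k34 4 (.s k129 k66 8 (.s k145 k98 12 (.s k81 k209 7 (.d
  k161 k177 k241 3 11))))))) (.c k149 (.q k191 [(.s k1 k2 0 (.s k34 k51 4 (.s k33 k49 3 (.s k48 k18
  4 (.d k32 k35 k16 0 3))))), (.s k51 k34 4 (.s k19 k35 3 (.s k129 k66 8 (.s k145 k98 12 (.s k82
  k208 8 (.d k161 k177 k240 3 12)))))), (.s k1 k2 0 (.s k49 k33 3 (.s k129 k66 8 (.s k193 k65 7 (.s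
  k145 k97 11 (.s k81 k209 7 (.d k161 k177 k241 3 11)))))))] (.c k33 (.l (.s k1 k2 0 (.s k51 k34 4
  (.s k129 k66 8 (.s k145 k98 12 (.s k81 k209 7 (.d k161 k177 k241 3 11))))))) (.c k85 (.q k213 [(.d
  k255 k234 k127 6 7), (.s k1 k2 0 (.s k34 k51 4 (.s k33 k49 3 (.s k48 k18 4 (.d k32 k35 k16 0
  3)))))] .n) (.c k213 (.q k85 [(.s k1 k2 0 (.s k34 k51 4 (.s k33 k49 3 (.s k48 k18 4 (.d k32 k35
  k16 0 3))))), (.s k51 k34 4 (.s k153 k221 9 (.s k59 k55 1 (.s k106 k200 12 (.d k127 k64 k255 6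
  7))))), (.s k1 k2 0 (.s k169 k253 13 (.s k86 k252 14 (.s k255 k127 7 (.d k87 k84 k171 0 13)))))]
  .n) .n)))) (.c k191 (.l (.s k149 k106 14 (.s k1 k2 0 (.s k34 k51 4 (.s k33 k49 3 (.s k48 k18 4 (.d
  k32 k35 k16 0 3))))))) .n)))) (.c k129 (.q k29 [(.s k12 k46 4 (.s k132 k72 9 (.s k149 k106 14 (.s
  k89 k209 9 (.d k166 k183 k243 4 14))))), (.s k1 k2 0 (.s k12 k46 4 (.s k8 k4 1 (.s k9 k6 2 (.s k5
  k13 1 (.d k10 k11 k15 0 2))))))] (.c k12 (.l (.s k64 k128 7 (.s k149 k106 14 (.s k209 k89 9 (.s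
  k243 k226 4 (.s k81 k162 12 (.s k145 k17 7 (.d k98 k115 k51 4 12)))))))) (.c k46 (.q k17 [(.s k1
  k2 0 (.s k34 k51 4 (.s k33 k49 3 (.s k48 k18 4 (.d k32 k35 k16 0 3))))), (.s k149 k106 14 (.s k209
  k89 9 (.s k81 k145 7 (.d k243 k226 k162 4 12))))] .n) .n))) .n)))))))

def t21_44 : T TT 256 :=
  (.q k15 [(.s k7 k11 1 (.s k23 k43 5 (.s k39 k55 3 (.s k27 k51 5 (.d k31 k19 k47 1 3))))), (.s k2
  k1 0 (.s k10 k5 2 (.s k6 k14 1 (.s k9 k12 2 (.d k11 k8 k7 0 1)))))] (.c k7 (.q k6 [(.s k2 k1 0 (.d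
  k10 k14 k5 1 2)), (.s k10 k5 2 (.s k14 k2 1 (.d k12 k13 k9 0 2))), (.s k12 k9 2 (.s k13 k14 0 (.s
  k29 k46 4 (.s k45 k61 3 (.s k30 k60 4 (.d k31 k47 k28 3 0))))))] (.c k14 (.l (.s k1 k2 0 (.s k5
  k10 2 (.d k9 k13 k12 1 2)))) .n)) (.c k11 (.q k6 [(.s k2 k1 0 (.d k10 k14 k5 1 2)), (.s k5 k10 2
  (.s k4 k7 0 (.d k12 k8 k9 1 2)))] (.c k5 (.l (.s k2 k1 0 (.s k14 k10 1 (.d k12 k13 k9 0 2)))) (.c
  k10 (.l (.s k12 k9 2 (.s k8 k4 1 (.s k13 k14 0 (.s k29 k46 4 (.s k45 k61 3 (.s k30 k60 4 (.d k31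
  k47 k28 3 0)))))))) .n))) .n)))

def t21_45 : T TT 256 :=
  (.q k15 [(.s k7 k11 1 (.s k23 k43 5 (.s k39 k55 3 (.s k27 k51 5 (.d k31 k19 k47 1 3))))), (.s k2
  k1 0 (.s k10 k5 2 (.s k6 k14 1 (.s k9 k12 2 (.d k11 k8 k7 0 1)))))] (.c k7 (.q k16 [(.s k23 k43 5
  (.s k31 k47 3 (.s k19 k27 1 (.s k17 k18 0 (.d k51 k35 k34 3 4))))), (.s k1 k2 0 (.s k5 k10 2 (.s
  k48 k32 3 (.s k13 k9 1 (.s k33 k18 4 (.s k49 k17 3 (.d k37 k25 k26 5 6))))))), (.s k2 k1 0 (.s k32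
  k48 3 (.s k43 k23 5 (.s k47 k31 3 (.s k42 k37 2 (.s k22 k62 5 (.d k41 k40 k60 0 6)))))))] .n) (.c
  k11 (.q k6 [(.s k2 k1 0 (.d k10 k14 k5 1 2)), (.s k23 k43 5 (.s k31 k47 3 (.s k27 k19 1 (.s k39
  k51 5 (.s k7 k55 3 (.s k4 k5 0 (.d k12 k8 k9 1 2)))))))] (.c k5 (.l (.s k2 k1 0 (.s k14 k10 1 (.d
  k12 k13 k9 0 2)))) .n)) .n)))

def t21_46 : T TT 256 :=
  (.q k15 [(.s k7 k11 1 (.s k23 k43 5 (.s k39 k55 3 (.s k27 k51 5 (.d k31 k19 k47 1 3))))), (.s k2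
  k1 0 (.s k10 k5 2 (.s k6 k14 1 (.s k9 k12 2 (.d k11 k8 k7 0 1)))))] (.c k7 (.q k16 [(.s k23 k43 5
  (.s k31 k47 3 (.s k19 k27 1 (.s k17 k18 0 (.d k51 k35 k34 3 4))))), (.s k1 k2 0 (.s k5 k10 2 (.s
  k48 k32 3 (.s k13 k9 1 (.s k33 k18 4 (.s k49 k17 3 (.d k37 k25 k26 5 6))))))), (.s k2 k1 0 (.s k32
  k48 3 (.s k43 k23 5 (.s k47 k31 3 (.s k42 k37 2 (.s k22 k62 5 (.d k41 k40 k60 0 6)))))))] .n) (.c
  k11 (.q k6 [(.s k2 k1 0 (.d k10 k14 k5 1 2)), (.s k23 k43 5 (.s k31 k47 3 (.s k27 k19 1 (.s k39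
  k51 5 (.s k7 k55 3 (.s k4 k5 0 (.d k12 k8 k9 1 2)))))))] (.c k5 (.l (.s k2 k1 0 (.s k14 k10 1 (.d
  k12 k13 k9 0 2)))) .n)) .n)))

def t21_47 : T TT 256 :=
  (.q k192 [(.s k1 k2 0 (.s k128 k64 7 (.s k129 k66 8 (.s k65 k193 7 (.d k130 k131 k195 0 8))))),
  (.s k23 k43 5 (.s k129 k66 8 (.s k149 k106 14 (.s k86 k212 8 (.d k169 k189 k252 5 14))))), (.s k1
  k2 0 (.s k43 k23 5 (.s k106 k149 14 (.s k169 k232 8 (.s k85 k253 13 (.d k64 k128 k127 7 6))))))]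
  (.c k86 (.l (.s k2 k1 0 (.s k64 k128 7 (.s k66 k129 8 (.s k130 k194 7 (.d k65 k67 k195 0 8))))))
  .n))

def t21_48 : T TT 256 :=
  (.q k192 [(.s k1 k2 0 (.s k128 k64 7 (.s k129 k66 8 (.s k65 k193 7 (.d k130 k131 k195 0 8))))),
  (.s k23 k43 5 (.s k129 k66 8 (.s k149 k106 14 (.s k86 k212 8 (.d k169 k189 k252 5 14))))), (.s k1
  k2 0 (.s k43 k23 5 (.s k106 k149 14 (.s k169 k232 8 (.s k85 k253 13 (.d k64 k128 k127 7 6))))))]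
  (.c k86 (.l (.s k2 k1 0 (.s k64 k128 7 (.s k66 k129 8 (.s k130 k194 7 (.d k65 k67 k195 0 8))))))
  .n))

def t21_49 : T TT 256 :=
  (.q k192 [(.s k23 k43 5 (.s k129 k66 8 (.s k149 k106 14 (.s k86 k212 8 (.d k169 k189 k252 5
  14))))), (.s k1 k2 0 (.s k128 k64 7 (.s k129 k66 8 (.s k65 k193 7 (.d k130 k131 k195 0 8))))), (.s
  k1 k2 0 (.s k43 k23 5 (.s k106 k149 14 (.s k169 k232 8 (.s k85 k253 13 (.d k64 k128 k127 7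
  6))))))] (.c k86 (.l (.s k2 k1 0 (.s k64 k128 7 (.s k66 k129 8 (.s k130 k194 7 (.d k65 k67 k195 0
  8)))))) .n))

def t21_50 : T TT 256 :=
  (.q k192 [(.s k23 k43 5 (.s k129 k66 8 (.s k149 k106 14 (.s k86 k212 8 (.d k169 k189 k252 5
  14))))), (.s k1 k2 0 (.s k128 k64 7 (.s k129 k66 8 (.s k65 k193 7 (.d k130 k131 k195 0 8))))), (.s
  k1 k2 0 (.s k43 k23 5 (.s k106 k149 14 (.s k169 k232 8 (.s k85 k253 13 (.d k64 k128 k127 7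
  6))))))] (.c k86 (.l (.s k2 k1 0 (.s k64 k128 7 (.s k66 k129 8 (.s k130 k194 7 (.d k65 k67 k195 0
  8)))))) .n))

def t21_51 : T TT 256 :=
  (.q k192 [(.s k1 k2 0 (.s k128 k64 7 (.s k129 k66 8 (.s k65 k193 7 (.d k130 k131 k195 0 8))))),
  (.s k23 k43 5 (.s k129 k66 8 (.s k149 k106 14 (.s k86 k212 8 (.d k169 k189 k252 5 14))))), (.s k1
  k2 0 (.s k43 k23 5 (.s k106 k149 14 (.s k169 k232 8 (.s k85 k253 13 (.d k64 k128 k127 7 6))))))]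
  (.c k86 (.l (.s k2 k1 0 (.s k64 k128 7 (.s k66 k129 8 (.s k130 k194 7 (.d k65 k67 k195 0 8))))))
  .n))

def t21_52 : T TT 256 :=
  (.q k192 [(.s k1 k2 0 (.s k128 k64 7 (.s k129 k66 8 (.s k65 k193 7 (.d k130 k131 k195 0 8))))),
  (.s k23 k43 5 (.s k129 k66 8 (.s k149 k106 14 (.s k86 k212 8 (.d k169 k189 k252 5 14))))), (.s k1
  k2 0 (.s k43 k23 5 (.s k106 k149 14 (.s k169 k232 8 (.s k85 k253 13 (.d k64 k128 k127 7 6))))))]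
  (.c k86 (.l (.s k2 k1 0 (.s k64 k128 7 (.s k66 k129 8 (.s k130 k194 7 (.d k65 k67 k195 0 8))))))
  .n))

def t21_53 : T TT 256 :=
  (.q k192 [(.s k1 k2 0 (.s k128 k64 7 (.s k129 k66 8 (.s k65 k193 7 (.d k130 k131 k195 0 8))))),
  (.s k23 k43 5 (.s k129 k66 8 (.s k149 k106 14 (.s k86 k212 8 (.d k169 k189 k252 5 14))))), (.s k1
  k2 0 (.s k43 k23 5 (.s k106 k149 14 (.s k169 k232 8 (.s k85 k253 13 (.d k64 k128 k127 7 6))))))]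
  (.c k5 (.q k37 [(.s k1 k2 0 (.s k128 k64 7 (.s k129 k66 8 (.s k65 k193 7 (.d k130 k131 k195 0
  8))))), (.s k23 k43 5 (.s k129 k66 8 (.s k149 k106 14 (.s k86 k212 8 (.d k169 k189 k252 5 14))))),
  (.s k1 k2 0 (.s k43 k23 5 (.s k106 k149 14 (.s k169 k232 8 (.s k85 k253 13 (.d k64 k128 k127 7
  6))))))] (.c k86 (.l (.s k2 k1 0 (.s k64 k128 7 (.s k66 k129 8 (.s k130 k194 7 (.d k65 k67 k195 0
  8)))))) .n)) (.c k37 (.q k5 [(.s k1 k2 0 (.s k128 k64 7 (.s k129 k66 8 (.s k65 k193 7 (.d k130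
  k131 k195 0 8))))), (.s k15 k10 2 (.s k128 k64 7 (.s k133 k74 10 (.s k69 k197 7 (.d k138 k143 k207
  2 10))))), (.s k1 k2 0 (.s k10 k15 2 (.s k9 k13 1 (.s k12 k6 2 (.d k8 k11 k4 0 1)))))] .n) (.c k86
  (.l (.s k2 k1 0 (.s k64 k128 7 (.s k66 k129 8 (.s k130 k194 7 (.d k65 k67 k195 0 8)))))) .n))))

def t21_54 : T TT 256 :=
  (.q k192 [(.s k1 k2 0 (.s k128 k64 7 (.s k129 k66 8 (.s k65 k193 7 (.d k130 k131 k195 0 8))))),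
  (.s k23 k43 5 (.s k129 k66 8 (.s k149 k106 14 (.s k86 k212 8 (.d k169 k189 k252 5 14))))), (.s k1
  k2 0 (.s k43 k23 5 (.s k106 k149 14 (.s k169 k232 8 (.s k85 k253 13 (.d k64 k128 k127 7 6))))))]
  (.c k86 (.l (.s k2 k1 0 (.s k64 k128 7 (.s k66 k129 8 (.s k130 k194 7 (.d k65 k67 k195 0 8))))))
  .n))

def t21_55 : T TT 256 :=
  (.q k192 [(.s k1 k2 0 (.s k128 k64 7 (.s k129 k66 8 (.s k65 k193 7 (.d k130 k131 k195 0 8))))),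
  (.s k23 k43 5 (.s k129 k66 8 (.s k149 k106 14 (.s k86 k212 8 (.d k169 k189 k252 5 14))))), (.s k1
  k2 0 (.s k43 k23 5 (.s k106 k149 14 (.s k169 k232 8 (.s k85 k253 13 (.d k64 k128 k127 7 6))))))]
  (.c k4 (.q k38 [(.s k1 k2 0 (.s k128 k64 7 (.s k129 k66 8 (.s k65 k193 7 (.d k130 k131 k195 0
  8))))), (.s k23 k43 5 (.s k129 k66 8 (.s k149 k106 14 (.s k86 k212 8 (.d k169 k189 k252 5 14))))),
  (.s k1 k2 0 (.s k43 k23 5 (.s k106 k149 14 (.s k169 k232 8 (.s k85 k253 13 (.d k64 k128 k127 7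
  6))))))] (.c k86 (.l (.s k2 k1 0 (.s k64 k128 7 (.s k66 k129 8 (.s k130 k194 7 (.d k65 k67 k195 0
  8)))))) .n)) (.c k38 (.q k4 [(.s k1 k2 0 (.s k128 k64 7 (.s k129 k66 8 (.s k65 k193 7 (.d k130
  k131 k195 0 8))))), (.s k12 k8 1 (.s k128 k64 7 (.s k132 k72 9 (.s k68 k196 7 (.d k136 k140 k204 1
  9))))), (.s k2 k1 0 (.s k12 k8 1 (.s k6 k9 2 (.s k10 k14 1 (.d k5 k7 k15 0 2)))))] .n) (.c k86 (.l
  (.s k2 k1 0 (.s k64 k128 7 (.s k66 k129 8 (.s k130 k194 7 (.d k65 k67 k195 0 8)))))) .n))))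

def t21_56 : T TT 256 :=
  (.q k192 [(.s k1 k2 0 (.s k128 k64 7 (.s k129 k66 8 (.s k65 k193 7 (.d k130 k131 k195 0 8))))),
  (.s k23 k43 5 (.s k129 k66 8 (.s k149 k106 14 (.s k86 k212 8 (.d k169 k189 k252 5 14))))), (.s k1
  k2 0 (.s k43 k23 5 (.s k106 k149 14 (.s k169 k232 8 (.s k85 k253 13 (.d k64 k128 k127 7 6))))))]
  (.c k86 (.l (.s k2 k1 0 (.s k64 k128 7 (.s k66 k129 8 (.s k130 k194 7 (.d k65 k67 k195 0 8))))))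
  .n))

def t21_57 : T TT 256 :=
  (.q k192 [(.s k1 k2 0 (.s k128 k64 7 (.s k129 k66 8 (.s k65 k193 7 (.d k130 k131 k195 0 8))))),
  (.s k23 k43 5 (.s k129 k66 8 (.s k149 k106 14 (.s k86 k212 8 (.d k169 k189 k252 5 14))))), (.s k1
  k2 0 (.s k43 k23 5 (.s k106 k149 14 (.s k169 k232 8 (.s k85 k253 13 (.d k64 k128 k127 7 6))))))]
  (.c k86 (.l (.s k2 k1 0 (.s k64 k128 7 (.s k66 k129 8 (.s k130 k194 7 (.d k65 k67 k195 0 8))))))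
  .n))

def t21_58 : T TT 256 :=
  (.q k192 [(.s k1 k2 0 (.s k128 k64 7 (.s k129 k66 8 (.s k65 k193 7 (.d k130 k131 k195 0 8))))),
  (.s k23 k43 5 (.s k129 k66 8 (.s k149 k106 14 (.s k86 k212 8 (.d k169 k189 k252 5 14))))), (.s k1
  k2 0 (.s k43 k23 5 (.s k106 k149 14 (.s k169 k232 8 (.s k85 k253 13 (.d k64 k128 k127 7 6))))))]
  (.c k86 (.l (.s k2 k1 0 (.s k64 k128 7 (.s k66 k129 8 (.s k130 k194 7 (.d k65 k67 k195 0 8))))))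
  .n))

def t21_59 : T TT 256 :=
  (.q k192 [(.s k1 k2 0 (.s k128 k64 7 (.s k129 k66 8 (.s k65 k193 7 (.d k130 k131 k195 0 8))))),
  (.s k23 k43 5 (.s k129 k66 8 (.s k149 k106 14 (.s k86 k212 8 (.d k169 k189 k252 5 14))))), (.s k1
  k2 0 (.s k43 k23 5 (.s k106 k149 14 (.s k169 k232 8 (.s k85 k253 13 (.d k64 k128 k127 7 6))))))]
  (.c k86 (.l (.s k2 k1 0 (.s k64 k128 7 (.s k66 k129 8 (.s k130 k194 7 (.d k65 k67 k195 0 8))))))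
  .n))

def t21_60 : T TT 256 :=
  (.q k192 [(.s k1 k2 0 (.s k128 k64 7 (.s k129 k66 8 (.s k65 k193 7 (.d k130 k131 k195 0 8))))),
  (.s k23 k43 5 (.s k129 k66 8 (.s k149 k106 14 (.s k86 k212 8 (.d k169 k189 k252 5 14))))), (.s k1
  k2 0 (.s k43 k23 5 (.s k106 k149 14 (.s k169 k232 8 (.s k85 k253 13 (.d k64 k128 k127 7 6))))))]
  (.c k86 (.l (.s k2 k1 0 (.s k64 k128 7 (.s k66 k129 8 (.s k130 k194 7 (.d k65 k67 k195 0 8))))))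
  .n))

def t21_61 : T TT 256 :=
  (.q k192 [(.s k64 k128 7 (.s k66 k129 8 (.s k65 k67 0 (.s k130 k195 8 (.d k2 k1 k194 0 7))))), (.s
  k23 k43 5 (.s k129 k66 8 (.s k149 k106 14 (.s k86 k212 8 (.d k169 k189 k252 5 14))))), (.s k1 k2 0
  (.s k43 k23 5 (.s k106 k149 14 (.s k169 k232 8 (.s k85 k253 13 (.d k64 k128 k127 7 6))))))] (.c k1
  (.q k41 [(.s k43 k23 5 (.s k40 k42 0 (.d k60 k20 k22 5 6))), (.s k23 k43 5 (.s k129 k66 8 (.s k149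
  k106 14 (.s k86 k212 8 (.d k169 k189 k252 5 14))))), (.s k128 k64 7 (.s k60 k22 6 (.s k20 k40 5
  (.s k148 k104 13 (.s k84 k212 7 (.d k168 k188 k252 5 13))))))] (.c k23 (.l (.s k128 k64 7 (.s k60
  k22 6 (.s k20 k40 5 (.s k148 k104 13 (.s k84 k212 7 (.d k168 k188 k252 5 13))))))) .n)) (.c k41
  (.l (.s k1 k2 0 (.s k128 k64 7 (.s k129 k66 8 (.s k65 k193 7 (.d k130 k131 k195 0 8)))))) (.c k149
  (.l (.s k1 k2 0 (.s k128 k64 7 (.s k129 k66 8 (.s k130 k131 0 (.d k65 k193 k195 7 8)))))) .n))))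

def t21_62 : T TT 256 :=
  (.q k192 [(.s k1 k2 0 (.s k128 k64 7 (.s k129 k66 8 (.s k65 k193 7 (.d k130 k131 k195 0 8))))),
  (.s k23 k43 5 (.s k129 k66 8 (.s k149 k106 14 (.s k86 k212 8 (.d k169 k189 k252 5 14))))), (.s k1
  k2 0 (.s k43 k23 5 (.s k106 k149 14 (.s k169 k232 8 (.s k85 k253 13 (.d k64 k128 k127 7 6)))))),
  (.s k2 k1 0 (.s k64 k128 7 (.s k66 k129 8 (.s k130 k194 7 (.d k65 k67 k195 0 8)))))] .n)

def t21_64 : T TT 256 :=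
  (.q k15 [(.s k7 k11 1 (.s k23 k43 5 (.s k39 k55 3 (.s k27 k51 5 (.d k31 k19 k47 1 3))))), (.s k2
  k1 0 (.s k10 k5 2 (.s k6 k14 1 (.s k9 k12 2 (.d k11 k8 k7 0 1)))))] (.c k7 (.q k192 [(.s k23 k43 5
  (.s k149 k106 14 (.s k86 k212 8 (.s k169 k252 14 (.d k129 k189 k66 5 8))))), (.s k1 k2 0 (.s k5
  k10 2 (.s k13 k9 1 (.s k129 k66 8 (.s k133 k74 10 (.d k193 k65 k73 7 9)))))), (.s k31 k47 3 (.s
  k133 k74 10 (.s k149 k106 14 (.s k90 k208 10 (.d k165 k181 k240 3 14)))))] .n) (.c k11 (.q k192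
  [(.s k23 k43 5 (.s k149 k106 14 (.s k86 k212 8 (.s k169 k252 14 (.d k129 k189 k66 5 8))))), (.s k1
  k2 0 (.s k5 k10 2 (.s k129 k66 8 (.s k133 k74 10 (.s k69 k197 7 (.d k137 k141 k205 1 9)))))), (.s
  k31 k47 3 (.s k133 k74 10 (.s k149 k106 14 (.s k90 k208 10 (.d k165 k181 k240 3 14)))))] .n) .n)))

def t21_65 : T TT 256 :=
  (.q k55 [(.s k23 k43 5 (.s k39 k7 3 (.s k51 k59 1 (.s k19 k35 3 (.d k27 k31 k15 1 5))))), (.s k1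
  k2 0 (.s k51 k59 1 (.s k17 k34 4 (.s k33 k49 3 (.s k18 k48 4 (.d k19 k16 k35 0 3)))))), (.s k1 k2
  0 (.s k23 k43 5 (.s k7 k39 3 (.s k15 k11 1 (.s k5 k10 2 (.s k9 k13 1 (.d k6 k4 k12 0 2)))))))] (.c
  k35 (.q k192 [(.s k23 k43 5 (.s k149 k106 14 (.s k86 k212 8 (.s k169 k252 14 (.d k129 k189 k66 5
  8))))), (.s k64 k128 7 (.s k51 k59 1 (.s k34 k17 4 (.s k98 k145 12 (.s k162 k226 7 (.d k81 k115
  k243 4 12))))))] (.c k149 (.l (.s k128 k64 7 (.s k51 k59 1 (.s k17 k34 4 (.s k145 k98 12 (.s k81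
  k209 7 (.d k162 k179 k243 4 12))))))) .n)) (.c k59 (.q k17 [(.s k1 k2 0 (.s k34 k51 4 (.s k33 k49
  3 (.s k48 k18 4 (.d k32 k35 k16 0 3))))), (.s k51 k34 4 (.s k23 k43 5 (.s k39 k7 3 (.s k27 k15 5
  (.d k19 k31 k35 1 3)))))] (.c k34 (.q k16 [(.s k18 k19 0 (.d k48 k32 k33 3 4)), (.s k23 k43 5 (.s
  k39 k7 3 (.s k19 k18 0 (.s k27 k31 1 (.d k51 k35 k15 3 5))))), (.s k48 k32 3 (.s k23 k43 5 (.s k7
  k39 3 (.s k53 k58 2 (.s k52 k54 0 (.s k22 k37 4 (.d k60 k56 k41 1 6)))))))] (.c k102 (.q k238 [(.s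
  k18 k19 0 (.d k48 k32 k33 3 4)), (.s k23 k43 5 (.s k39 k7 3 (.s k19 k18 0 (.s k27 k31 1 (.d k51
  k35 k15 3 5))))), (.s k48 k32 3 (.s k23 k43 5 (.s k7 k39 3 (.s k53 k58 2 (.s k52 k54 0 (.s k22 k37
  4 (.d k60 k56 k41 1 6)))))))] .n) (.c k238 (.q k102 [(.s k18 k19 0 (.d k48 k32 k33 3 4)), (.s k23
  k43 5 (.s k7 k39 3 (.s k149 k196 12 (.s k86 k212 8 (.s k244 k165 12 (.d k118 k70 k181 3 8))))))]
  .n) .n))) (.c k35 (.l (.s k2 k1 0 (.s k34 k51 4 (.s k18 k50 3 (.s k48 k33 4 (.d k16 k19 k32 0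
  3)))))) (.c k51 (.q k16 [(.s k18 k19 0 (.d k48 k32 k33 3 4)), (.s k48 k32 3 (.s k23 k43 5 (.s k7
  k39 3 (.s k53 k58 2 (.s k52 k54 0 (.s k22 k37 4 (.d k60 k56 k41 1 6)))))))] (.c k32 (.l (.s k1 k2
  0 (.s k33 k49 3 (.d k18 k48 k19 4 0)))) (.c k48 (.q k25 [(.s k23 k43 5 (.s k19 k18 0 (.s k28 k22 2
  (.s k24 k20 1 (.d k27 k26 k31 0 1))))), (.s k2 k1 0 (.s k19 k18 0 (.s k22 k28 2 (.s k62 k42 5 (.d
  k60 k61 k41 0 6))))), (.s k1 k2 0 (.s k49 k33 3 (.s k23 k43 5 (.s k7 k39 3 (.s k13 k37 5 (.s k5 k9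
  1 (.d k15 k11 k10 1 2)))))))] (.c k49 (.q k50 [(.s k18 k19 0 (.d k2 k1 k34 0 3)), (.s k23 k43 5
  (.s k19 k18 0 (.s k28 k22 2 (.s k24 k20 1 (.d k27 k26 k31 0 1)))))] (.c k18 (.q k85 [(.s k1 k2 0
  (.s k169 k253 13 (.s k43 k23 5 (.s k106 k232 8 (.s k64 k127 6 (.d k192 k128 k149 7 14)))))), (.s
  k154 k223 10 (.s k153 k221 9 (.s k89 k217 7 (.s k24 k219 8 (.s k28 k20 1 (.s k211 k150 10 (.d k81
  k93 k146 1 8))))))), (.s k1 k2 0 (.s k169 k253 13 (.s k86 k252 14 (.s k153 k221 9 (.s k220 k19 10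
  (.d k84 k87 k152 0 9))))))] .n) (.c k19 (.q k85 [(.s k1 k2 0 (.s k169 k253 13 (.s k43 k23 5 (.s
  k106 k232 8 (.s k64 k127 6 (.d k192 k128 k149 7 14)))))), (.s k2 k1 0 (.s k18 k34 3 (.s k154 k223
  10 (.s k86 k222 9 (.s k252 k169 14 (.d k84 k87 k168 0 13)))))), (.s k23 k43 5 (.s k154 k223 10 (.s
  k102 k206 13 (.s k149 k196 12 (.s k86 k212 8 (.s k252 k169 14 (.d k84 k87 k168 0 13)))))))] (.c
  k86 (.l (.s k43 k23 5 (.s k154 k223 10 (.s k102 k206 13 (.s k149 k196 12 (.s k106 k192 14 (.s k169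
  k232 8 (.d k1 k2 k253 0 13)))))))) (.c k169 (.l (.s k2 k1 0 (.s k18 k34 3 (.s k23 k43 5 (.s k154
  k223 10 (.s k86 k222 9 (.s k149 k212 8 (.d k102 k196 k206 12 13)))))))) .n))) .n))) (.c k50 (.q
  k49 [(.d k1 k2 k33 0 3), (.s k23 k43 5 (.s k7 k39 3 (.s k37 k13 5 (.s k22 k52 4 (.d k19 k18 k28 0
  2)))))] .n) .n))) .n))) .n)))) .n)))

def t21_66 : T TT 256 :=
  (.q k15 [(.s k7 k11 1 (.s k23 k43 5 (.s k39 k55 3 (.s k27 k51 5 (.d k31 k19 k47 1 3))))), (.s k2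
  k1 0 (.s k10 k5 2 (.s k6 k14 1 (.s k9 k12 2 (.d k11 k8 k7 0 1)))))] (.c k7 (.q k192 [(.s k5 k10 2
  (.s k133 k74 10 (.s k69 k197 7 (.s k138 k207 10 (.d k128 k143 k64 2 7))))), (.s k1 k2 0 (.s k43
  k23 5 (.s k106 k149 14 (.s k169 k232 8 (.s k85 k253 13 (.d k64 k128 k127 7 6)))))), (.s k31 k47 3
  (.s k133 k74 10 (.s k149 k106 14 (.s k90 k208 10 (.d k165 k181 k240 3 14)))))] .n) (.c k11 (.q
  k192 [(.s k10 k5 2 (.s k64 k128 7 (.s k74 k133 10 (.s k138 k202 7 (.d k69 k79 k207 2 10))))), (.s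
  k31 k47 3 (.s k133 k74 10 (.s k149 k106 14 (.s k90 k208 10 (.d k165 k181 k240 3 14))))), (.s k1 k2
  0 (.s k43 k23 5 (.s k106 k149 14 (.s k169 k232 8 (.s k85 k253 13 (.d k64 k128 k127 7 6))))))] (.c
  k149 (.l (.s k5 k10 2 (.s k128 k64 7 (.s k133 k74 10 (.s k69 k197 7 (.d k138 k143 k207 2 10))))))
  .n)) .n)))

def t21_67 : T TT 256 :=
  (.q k15 [(.s k7 k11 1 (.s k23 k43 5 (.s k39 k55 3 (.s k27 k51 5 (.d k31 k19 k47 1 3))))), (.s k2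
  k1 0 (.s k10 k5 2 (.s k6 k14 1 (.s k9 k12 2 (.d k11 k8 k7 0 1)))))] (.c k7 (.q k192 [(.s k1 k2 0
  (.s k128 k64 7 (.s k129 k66 8 (.s k65 k193 7 (.d k130 k131 k195 0 8))))), (.s k5 k10 2 (.s k133
  k74 10 (.s k69 k197 7 (.s k138 k207 10 (.d k128 k143 k64 2 7))))), (.s k23 k43 5 (.s k149 k106 14
  (.s k86 k212 8 (.s k169 k252 14 (.d k129 k189 k66 5 8)))))] .n) (.c k11 (.q k192 [(.s k1 k2 0 (.s
  k128 k64 7 (.s k129 k66 8 (.s k65 k193 7 (.d k130 k131 k195 0 8))))), (.s k5 k10 2 (.s k133 k74 10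
  (.s k69 k197 7 (.s k138 k207 10 (.d k128 k143 k64 2 7))))), (.s k23 k43 5 (.s k149 k106 14 (.s k86
  k212 8 (.s k169 k252 14 (.d k129 k189 k66 5 8)))))] .n) .n)))

def t21_68 : T TT 256 :=
  (.q k192 [(.s k1 k2 0 (.s k129 k66 8 (.s k65 k193 7 (.s k130 k195 8 (.d k128 k131 k64 0 7))))),
  (.s k23 k43 5 (.s k129 k66 8 (.s k149 k106 14 (.s k86 k212 8 (.d k169 k189 k252 5 14))))), (.s k1
  k2 0 (.s k43 k23 5 (.s k106 k149 14 (.s k169 k232 8 (.s k85 k253 13 (.d k64 k128 k127 7 6))))))]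
  (.c k86 (.l (.s k2 k1 0 (.s k64 k128 7 (.s k66 k129 8 (.s k130 k194 7 (.d k65 k67 k195 0 8))))))
  .n))

def t21_69 : T TT 256 :=
  (.q k192 [(.s k1 k2 0 (.s k129 k66 8 (.s k65 k193 7 (.s k130 k195 8 (.d k128 k131 k64 0 7))))),
  (.s k23 k43 5 (.s k129 k66 8 (.s k149 k106 14 (.s k86 k212 8 (.d k169 k189 k252 5 14))))), (.s k1
  k2 0 (.s k43 k23 5 (.s k106 k149 14 (.s k169 k232 8 (.s k85 k253 13 (.d k64 k128 k127 7 6))))))]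
  (.c k86 (.l (.s k2 k1 0 (.s k64 k128 7 (.s k66 k129 8 (.s k130 k194 7 (.d k65 k67 k195 0 8))))))
  .n))

def t21_70 : T TT 256 :=
  (.q k192 [(.s k23 k43 5 (.s k129 k66 8 (.s k149 k106 14 (.s k86 k212 8 (.d k169 k189 k252 5
  14))))), (.s k2 k1 0 (.s k64 k128 7 (.s k66 k129 8 (.s k130 k194 7 (.d k65 k67 k195 0 8))))), (.s
  k1 k2 0 (.s k43 k23 5 (.s k106 k149 14 (.s k169 k232 8 (.s k85 k253 13 (.d k64 k128 k127 7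
  6))))))] (.c k149 (.l (.s k1 k2 0 (.s k128 k64 7 (.s k129 k66 8 (.s k65 k193 7 (.d k130 k131 k195
  0 8)))))) .n))

def t21_71 : T TT 256 :=
  (.q k192 [(.s k1 k2 0 (.s k128 k64 7 (.s k129 k66 8 (.s k65 k193 7 (.d k130 k131 k195 0 8))))),
  (.s k23 k43 5 (.s k129 k66 8 (.s k149 k106 14 (.s k86 k212 8 (.d k169 k189 k252 5 14))))), (.s k1
  k2 0 (.s k43 k23 5 (.s k106 k149 14 (.s k169 k232 8 (.s k85 k253 13 (.d k64 k128 k127 7 6))))))]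
  (.c k86 (.l (.s k2 k1 0 (.s k64 k128 7 (.s k66 k129 8 (.s k130 k194 7 (.d k65 k67 k195 0 8))))))
  .n))

def t21_72 : T TT 256 :=
  (.q k192 [(.s k1 k2 0 (.s k129 k66 8 (.s k65 k193 7 (.s k130 k195 8 (.d k128 k131 k64 0 7))))),
  (.s k23 k43 5 (.s k129 k66 8 (.s k149 k106 14 (.s k86 k212 8 (.d k169 k189 k252 5 14))))), (.s k1
  k2 0 (.s k43 k23 5 (.s k106 k149 14 (.s k169 k232 8 (.s k85 k253 13 (.d k64 k128 k127 7 6))))))]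
  (.c k86 (.l (.s k2 k1 0 (.s k64 k128 7 (.s k66 k129 8 (.s k130 k194 7 (.d k65 k67 k195 0 8))))))
  .n))

def t21_73 : T TT 256 :=
  (.q k192 [(.s k23 k43 5 (.s k129 k66 8 (.s k149 k106 14 (.s k86 k212 8 (.d k169 k189 k252 5
  14))))), (.s k1 k2 0 (.s k128 k64 7 (.s k129 k66 8 (.s k65 k193 7 (.d k130 k131 k195 0 8))))), (.s
  k1 k2 0 (.s k43 k23 5 (.s k106 k149 14 (.s k169 k232 8 (.s k85 k253 13 (.d k64 k128 k127 7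
  6))))))] (.c k86 (.l (.s k2 k1 0 (.s k64 k128 7 (.s k66 k129 8 (.s k130 k194 7 (.d k65 k67 k195 0
  8)))))) .n))

def t21_74 : T TT 256 :=
  (.q k192 [(.s k1 k2 0 (.s k129 k66 8 (.s k65 k193 7 (.s k130 k195 8 (.d k128 k131 k64 0 7))))),
  (.s k23 k43 5 (.s k129 k66 8 (.s k149 k106 14 (.s k86 k212 8 (.d k169 k189 k252 5 14))))), (.s k1
  k2 0 (.s k43 k23 5 (.s k106 k149 14 (.s k169 k232 8 (.s k85 k253 13 (.d k64 k128 k127 7 6))))))]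
  (.c k86 (.l (.s k2 k1 0 (.s k64 k128 7 (.s k66 k129 8 (.s k130 k194 7 (.d k65 k67 k195 0 8))))))
  .n))

def t21_75 : T TT 256 :=
  (.q k192 [(.s k1 k2 0 (.s k128 k64 7 (.s k129 k66 8 (.s k65 k193 7 (.d k130 k131 k195 0 8))))),
  (.s k23 k43 5 (.s k129 k66 8 (.s k149 k106 14 (.s k86 k212 8 (.d k169 k189 k252 5 14))))), (.s k1
  k2 0 (.s k43 k23 5 (.s k106 k149 14 (.s k169 k232 8 (.s k85 k253 13 (.d k64 k128 k127 7 6))))))]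
  (.c k86 (.l (.s k2 k1 0 (.s k64 k128 7 (.s k66 k129 8 (.s k130 k194 7 (.d k65 k67 k195 0 8))))))
  .n))

def t21_76 : T TT 256 :=
  (.q k192 [(.s k1 k2 0 (.s k129 k66 8 (.s k65 k193 7 (.s k130 k195 8 (.d k128 k131 k64 0 7))))),
  (.s k23 k43 5 (.s k129 k66 8 (.s k149 k106 14 (.s k86 k212 8 (.d k169 k189 k252 5 14))))), (.s k1
  k2 0 (.s k43 k23 5 (.s k106 k149 14 (.s k169 k232 8 (.s k85 k253 13 (.d k64 k128 k127 7 6))))))]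
  (.c k86 (.l (.s k2 k1 0 (.s k64 k128 7 (.s k66 k129 8 (.s k130 k194 7 (.d k65 k67 k195 0 8))))))
  .n))

def t21_77 : T TT 256 :=
  (.q k192 [(.s k1 k2 0 (.s k128 k64 7 (.s k129 k66 8 (.s k65 k193 7 (.d k130 k131 k195 0 8))))),
  (.s k23 k43 5 (.s k129 k66 8 (.s k149 k106 14 (.s k86 k212 8 (.d k169 k189 k252 5 14))))), (.s k1
  k2 0 (.s k43 k23 5 (.s k106 k149 14 (.s k169 k232 8 (.s k85 k253 13 (.d k64 k128 k127 7 6))))))]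
  (.c k86 (.l (.s k2 k1 0 (.s k64 k128 7 (.s k66 k129 8 (.s k130 k194 7 (.d k65 k67 k195 0 8))))))
  .n))

def t21_78 : T TT 256 :=
  (.q k192 [(.s k1 k2 0 (.s k128 k64 7 (.s k129 k66 8 (.s k65 k193 7 (.d k130 k131 k195 0 8))))),
  (.s k23 k43 5 (.s k129 k66 8 (.s k149 k106 14 (.s k86 k212 8 (.d k169 k189 k252 5 14))))), (.s k1
  k2 0 (.s k43 k23 5 (.s k106 k149 14 (.s k169 k232 8 (.s k85 k253 13 (.d k64 k128 k127 7 6))))))]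
  (.c k86 (.l (.s k2 k1 0 (.s k64 k128 7 (.s k66 k129 8 (.s k130 k194 7 (.d k65 k67 k195 0 8))))))
  .n))

def t21_79 : T TT 256 :=
  (.q k192 [(.s k1 k2 0 (.s k129 k66 8 (.s k65 k193 7 (.s k130 k195 8 (.d k128 k131 k64 0 7))))),
  (.s k23 k43 5 (.s k129 k66 8 (.s k149 k106 14 (.s k86 k212 8 (.d k169 k189 k252 5 14))))), (.s k1
  k2 0 (.s k43 k23 5 (.s k106 k149 14 (.s k169 k232 8 (.s k85 k253 13 (.d k64 k128 k127 7 6))))))]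
  (.c k86 (.l (.s k2 k1 0 (.s k64 k128 7 (.s k66 k129 8 (.s k130 k194 7 (.d k65 k67 k195 0 8))))))
  .n))

def t21_80 : T TT 256 :=
  (.q k192 [(.s k1 k2 0 (.s k129 k66 8 (.s k65 k193 7 (.s k130 k195 8 (.d k128 k131 k64 0 7))))),
  (.s k23 k43 5 (.s k129 k66 8 (.s k149 k106 14 (.s k86 k212 8 (.d k169 k189 k252 5 14))))), (.s k1
  k2 0 (.s k43 k23 5 (.s k106 k149 14 (.s k169 k232 8 (.s k85 k253 13 (.d k64 k128 k127 7 6))))))]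
  (.c k86 (.l (.s k2 k1 0 (.s k64 k128 7 (.s k66 k129 8 (.s k130 k194 7 (.d k65 k67 k195 0 8))))))
  .n))

def t21_81 : T TT 256 :=
  (.q k192 [(.s k1 k2 0 (.s k129 k66 8 (.s k65 k193 7 (.s k130 k195 8 (.d k128 k131 k64 0 7))))),
  (.s k23 k43 5 (.s k129 k66 8 (.s k149 k106 14 (.s k86 k212 8 (.d k169 k189 k252 5 14))))), (.s k1
  k2 0 (.s k43 k23 5 (.s k106 k149 14 (.s k169 k232 8 (.s k85 k253 13 (.d k64 k128 k127 7 6))))))]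
  (.c k86 (.l (.s k2 k1 0 (.s k64 k128 7 (.s k66 k129 8 (.s k130 k194 7 (.d k65 k67 k195 0 8))))))
  .n))

def t21_82 : T TT 256 :=
  (.q k192 [(.s k23 k43 5 (.s k129 k66 8 (.s k149 k106 14 (.s k86 k212 8 (.d k169 k189 k252 5
  14))))), (.s k2 k1 0 (.s k64 k128 7 (.s k66 k129 8 (.s k130 k194 7 (.d k65 k67 k195 0 8))))), (.s
  k1 k2 0 (.s k43 k23 5 (.s k106 k149 14 (.s k169 k232 8 (.s k85 k253 13 (.d k64 k128 k127 7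
  6))))))] (.c k149 (.l (.s k1 k2 0 (.s k128 k64 7 (.s k129 k66 8 (.s k65 k193 7 (.d k130 k131 k195
  0 8)))))) .n))

def t21_83 : T TT 256 :=
  (.q k192 [(.s k1 k2 0 (.s k128 k64 7 (.s k129 k66 8 (.s k65 k193 7 (.d k130 k131 k195 0 8))))),
  (.s k23 k43 5 (.s k129 k66 8 (.s k149 k106 14 (.s k86 k212 8 (.d k169 k189 k252 5 14))))), (.s k1
  k2 0 (.s k43 k23 5 (.s k106 k149 14 (.s k169 k232 8 (.s k85 k253 13 (.d k64 k128 k127 7 6))))))]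
  (.c k86 (.l (.s k2 k1 0 (.s k64 k128 7 (.s k66 k129 8 (.s k130 k194 7 (.d k65 k67 k195 0 8))))))
  .n))

def t21_84 : T TT 256 :=
  (.q k192 [(.s k1 k2 0 (.s k129 k66 8 (.s k65 k193 7 (.s k130 k195 8 (.d k128 k131 k64 0 7))))),
  (.s k23 k43 5 (.s k129 k66 8 (.s k149 k106 14 (.s k86 k212 8 (.d k169 k189 k252 5 14))))), (.s k1
  k2 0 (.s k43 k23 5 (.s k106 k149 14 (.s k169 k232 8 (.s k85 k253 13 (.d k64 k128 k127 7 6))))))]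
  (.c k86 (.l (.s k2 k1 0 (.s k64 k128 7 (.s k66 k129 8 (.s k130 k194 7 (.d k65 k67 k195 0 8))))))
  .n))

def t21_85 : T TT 256 :=
  (.q k149 [(.s k23 k43 5 (.s k86 k212 8 (.s k169 k252 14 (.s k129 k189 5 (.d k192 k66 k106 8
  14))))), (.s k1 k2 0 (.s k192 k106 14 (.s k129 k66 8 (.s k65 k193 7 (.s k130 k195 8 (.d k128 k64
  k131 7 0))))))] (.c k66 (.l (.s k43 k23 5 (.s k106 k192 14 (.s k169 k232 8 (.s k252 k86 14 (.d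
  k189 k129 k126 5 8)))))) (.c k86 (.l (.s k2 k1 0 (.s k192 k106 14 (.s k64 k128 7 (.s k66 k129 8
  (.s k130 k194 7 (.d k65 k67 k195 0 8))))))) (.c k106 (.q k15 [(.s k1 k2 0 (.s k5 k10 2 (.s k9 k13
  1 (.s k6 k12 2 (.d k7 k4 k11 0 1))))), (.s k23 k43 5 (.s k31 k47 3 (.s k86 k212 8 (.s k90 k208 10
  (.s k82 k94 1 (.d k240 k165 k161 14 12)))))), (.s k7 k11 1 (.s k23 k43 5 (.s k39 k55 3 (.s k27 k51
  5 (.d k31 k19 k47 1 3)))))] (.c k42 (.q k234 [(.s k7 k11 1 (.s k23 k43 5 (.s k39 k55 3 (.s k27 k51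
  5 (.d k31 k19 k47 1 3))))), (.s k1 k2 0 (.s k5 k10 2 (.s k9 k13 1 (.s k6 k12 2 (.d k7 k4 k11 0
  1))))), (.s k23 k43 5 (.s k31 k47 3 (.s k86 k212 8 (.s k90 k208 10 (.s k82 k94 1 (.d k240 k165
  k161 14 12))))))] (.c k64 (.q k127 [(.s k7 k11 1 (.s k23 k43 5 (.s k39 k55 3 (.s k27 k51 5 (.d k31
  k19 k47 1 3))))), (.s k1 k2 0 (.s k5 k10 2 (.s k9 k13 1 (.s k6 k12 2 (.d k7 k4 k11 0 1))))), (.s
  k23 k43 5 (.s k255 k191 7 (.s k87 k171 13 (.s k151 k215 7 (.d k107 k67 k195 5 13)))))] .n) (.c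
  k127 (.q k64 [(.s k10 k5 2 (.s k192 k128 7 (.s k74 k133 10 (.s k138 k202 7 (.d k69 k79 k207 2
  10))))), (.s k2 k1 0 (.s k192 k128 7 (.s k66 k129 8 (.s k130 k194 7 (.d k65 k67 k195 0 8))))), (.s
  k1 k2 0 (.s k5 k10 2 (.s k9 k13 1 (.s k6 k12 2 (.d k7 k4 k11 0 1)))))] .n) .n))) (.c k64 (.q k127
  [(.s k1 k2 0 (.s k5 k10 2 (.s k9 k13 1 (.s k6 k12 2 (.d k7 k4 k11 0 1))))), (.s k23 k43 5 (.s k255
  k191 7 (.s k87 k171 13 (.s k151 k215 7 (.d k107 k67 k195 5 13)))))] (.c k42 (.q k234 [(.s k7 k11 1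
  (.s k23 k43 5 (.s k39 k55 3 (.s k27 k51 5 (.d k31 k19 k47 1 3))))), (.s k1 k2 0 (.s k5 k10 2 (.s
  k9 k13 1 (.s k6 k12 2 (.d k7 k4 k11 0 1))))), (.s k23 k43 5 (.s k255 k191 7 (.s k87 k171 13 (.s
  k151 k215 7 (.d k107 k67 k195 5 13)))))] .n) (.c k234 (.q k42 [(.s k2 k1 0 (.s k22 k62 5 (.s k41
  k60 6 (.d k43 k40 k23 0 5)))), (.s k10 k5 2 (.s k26 k58 3 (.s k37 k48 6 (.d k47 k32 k31 2 3))))]
  .n) .n))) (.c k127 (.q k64 [(.s k1 k2 0 (.s k5 k10 2 (.s k9 k13 1 (.s k6 k12 2 (.d k7 k4 k11 0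
  1))))), (.s k10 k5 2 (.s k192 k128 7 (.s k74 k133 10 (.s k138 k202 7 (.d k69 k79 k207 2 10))))),
  (.s k2 k1 0 (.s k192 k128 7 (.s k66 k129 8 (.s k130 k194 7 (.d k65 k67 k195 0 8)))))] (.c k42 (.q
  k234 [(.s k10 k5 2 (.s k192 k128 7 (.s k74 k133 10 (.s k138 k202 7 (.d k69 k79 k207 2 10))))), (.s
  k2 k1 0 (.s k192 k128 7 (.s k66 k129 8 (.s k130 k194 7 (.d k65 k67 k195 0 8))))), (.s k1 k2 0 (.s
  k5 k10 2 (.s k9 k13 1 (.s k6 k12 2 (.d k7 k4 k11 0 1)))))] .n) (.c k234 (.q k42 [(.s k2 k1 0 (.s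
  k22 k62 5 (.s k41 k60 6 (.d k43 k40 k23 0 5)))), (.s k10 k5 2 (.s k26 k58 3 (.s k37 k48 6 (.d k47
  k32 k31 2 3))))] .n) .n))) (.c k234 (.q k42 [(.s k2 k1 0 (.s k22 k62 5 (.s k41 k60 6 (.d k43 k40
  k23 0 5)))), (.s k10 k5 2 (.s k26 k58 3 (.s k37 k48 6 (.d k47 k32 k31 2 3))))] (.c k64 (.q k127
  [(.s k2 k1 0 (.s k22 k62 5 (.s k41 k60 6 (.d k43 k40 k23 0 5)))), (.s k10 k5 2 (.s k26 k58 3 (.s
  k37 k48 6 (.d k47 k32 k31 2 3))))] .n) (.c k127 (.q k64 [(.s k2 k1 0 (.s k22 k62 5 (.s k41 k60 6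
  (.d k43 k40 k23 0 5)))), (.s k10 k5 2 (.s k26 k58 3 (.s k37 k48 6 (.d k47 k32 k31 2 3))))] .n)
  .n))) .n))))) (.c k129 (.l (.s k23 k43 5 (.s k86 k212 8 (.s k252 k169 14 (.s k106 k192 14 (.d k126
  k66 k189 5 8)))))) (.c k192 (.q k15 [(.s k7 k11 1 (.s k23 k43 5 (.s k39 k55 3 (.s k27 k51 5 (.d
  k31 k19 k47 1 3))))), (.s k2 k1 0 (.s k10 k5 2 (.s k6 k14 1 (.s k9 k12 2 (.d k11 k8 k7 0 1))))),
  (.s k23 k43 5 (.s k31 k47 3 (.s k86 k212 8 (.s k252 k169 14 (.s k94 k173 12 (.d k90 k82 k208 1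
  10))))))] .n) .n))))))

def t21_86 : T TT 256 :=
  (.f k2 k1 0 (.q k31 [(.s k15 k47 3 (.s k10 k5 2 (.s k6 k14 1 (.s k9 k12 2 (.d k11 k8 k7 0 1))))),
  (.s k43 k23 5 (.s k47 k15 3 (.s k35 k39 1 (.s k51 k19 3 (.s k34 k17 4 (.s k18 k50 3 (.d k33 k32
  k48 0 4)))))))] (.c k7 (.q k22 [(.s k62 k42 5 (.d k60 k61 k41 0 6)), (.s k41 k60 6 (.s k23 k43 5
  (.s k19 k27 1 (.s k51 k35 3 (.s k25 k28 2 (.s k9 k57 3 (.d k12 k6 k38 2 6)))))))] (.c k41 (.q k61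
  [(.d k62 k60 k42 0 5), (.s k23 k43 5 (.s k15 k47 3 (.s k19 k27 1 (.s k28 k25 2 (.s k29 k30 0 (.s
  k13 k45 3 (.d k12 k46 k14 4 0)))))))] (.c k42 (.l (.s k15 k47 3 (.s k10 k5 2 (.s k60 k62 0 (.s k45
  k30 4 (.s k13 k29 3 (.d k14 k6 k12 1 0))))))) (.c k165 (.q k244 [(.d k62 k60 k42 0 5), (.s k23 k43
  5 (.s k15 k47 3 (.s k19 k27 1 (.s k28 k25 2 (.s k29 k30 0 (.s k13 k45 3 (.d k12 k46 k14 4
  0)))))))] (.c k42 (.l (.s k15 k47 3 (.s k10 k5 2 (.s k60 k62 0 (.s k45 k30 4 (.s k13 k29 3 (.d k14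
  k6 k12 1 0))))))) (.c k160 (.q k175 [(.d k62 k60 k42 0 5), (.s k15 k47 3 (.s k95 k255 11 (.s k159
  k223 7 (.s k207 k111 11 (.d k143 k191 k79 3 7)))))] .n) (.c k175 (.q k160 [(.d k62 k60 k42 0 5),
  (.s k240 k80 11 (.s k82 k161 12 (.s k242 k162 11 (.s k181 k122 10 (.d k241 k243 k121 0 9)))))] .n)
  .n)))) (.c k244 (.q k165 [(.d k62 k60 k42 0 5), (.s k15 k47 3 (.s k90 k240 14 (.s k149 k208 10 (.s
  k133 k181 3 (.d k192 k74 k106 10 14)))))] .n) .n)))) (.c k60 (.l (.s k42 k62 5 (.s k23 k43 5 (.s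
  k19 k27 1 (.s k51 k35 3 (.s k25 k28 2 (.d k59 k55 k8 1 4))))))) (.c k61 (.l (.s k41 k60 6 (.s k42
  k62 5 (.d k43 k40 k23 0 5)))) (.c k165 (.q k244 [(.s k62 k42 5 (.d k60 k61 k41 0 6)), (.s k41 k60
  6 (.s k23 k43 5 (.s k19 k27 1 (.s k51 k35 3 (.s k25 k28 2 (.s k9 k57 3 (.d k12 k6 k38 2 6)))))))]
  (.c k41 (.q k61 [(.d k62 k60 k42 0 5), (.s k23 k43 5 (.s k15 k47 3 (.s k19 k27 1 (.s k28 k25 2 (.s
  k29 k30 0 (.s k13 k45 3 (.d k12 k46 k14 4 0)))))))] (.c k42 (.l (.s k15 k47 3 (.s k10 k5 2 (.s k60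
  k62 0 (.s k45 k30 4 (.s k13 k29 3 (.d k14 k6 k12 1 0))))))) (.c k160 (.q k175 [(.d k62 k60 k42 0
  5), (.s k15 k47 3 (.s k95 k255 11 (.s k159 k223 7 (.s k207 k111 11 (.d k143 k191 k79 3 7)))))] .n)
  (.c k175 (.q k160 [(.d k62 k60 k42 0 5), (.s k240 k80 11 (.s k82 k161 12 (.s k242 k162 11 (.s k181
  k122 10 (.d k241 k243 k121 0 9)))))] .n) .n)))) (.c k60 (.l (.s k42 k62 5 (.s k23 k43 5 (.s k19
  k27 1 (.s k51 k35 3 (.s k25 k28 2 (.d k59 k55 k8 1 4))))))) (.c k61 (.l (.s k41 k60 6 (.s k42 k62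
  5 (.d k43 k40 k23 0 5)))) (.c k160 (.q k175 [(.s k62 k42 5 (.d k60 k61 k41 0 6)), (.s k15 k47 3
  (.s k95 k255 11 (.s k159 k223 7 (.s k207 k111 11 (.d k143 k191 k79 3 7)))))] (.c k41 (.q k61 [(.d
  k62 k60 k42 0 5), (.s k15 k47 3 (.s k95 k255 11 (.s k159 k223 7 (.s k207 k111 11 (.d k143 k191 k79
  3 7)))))] .n) (.c k61 (.l (.s k41 k60 6 (.s k42 k62 5 (.d k43 k40 k23 0 5)))) (.c k106 (.l (.s k42
  k62 5 (.s k41 k60 6 (.d k43 k40 k23 0 5)))) .n)))) (.c k175 (.q k160 [(.s k62 k42 5 (.d k60 k61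
  k41 0 6)), (.s k240 k80 11 (.s k23 k43 5 (.s k19 k27 1 (.s k51 k35 3 (.s k181 k122 10 (.d k55 k59
  k118 1 8))))))] (.c k41 (.q k61 [(.d k62 k60 k42 0 5), (.s k240 k80 11 (.s k82 k161 12 (.s k242
  k162 11 (.s k181 k122 10 (.d k241 k243 k121 0 9)))))] .n) (.c k61 (.l (.s k41 k60 6 (.s k42 k62 5
  (.d k43 k40 k23 0 5)))) .n))) .n)))))) (.c k244 (.q k165 [(.s k62 k42 5 (.d k60 k61 k41 0 6)), (.s
  k15 k47 3 (.s k90 k240 14 (.s k149 k208 10 (.s k133 k181 3 (.d k192 k74 k106 10 14)))))] (.c k41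
  (.q k61 [(.d k62 k60 k42 0 5), (.s k15 k47 3 (.s k90 k240 14 (.s k149 k208 10 (.s k133 k181 3 (.d
  k192 k74 k106 10 14)))))] .n) (.c k61 (.l (.s k41 k60 6 (.s k42 k62 5 (.d k43 k40 k23 0 5)))) (.c
  k106 (.l (.s k42 k62 5 (.s k41 k60 6 (.d k43 k40 k23 0 5)))) .n)))) .n)))))) (.c k15 (.q k22 [(.s
  k62 k42 5 (.d k60 k61 k41 0 6)), (.s k41 k60 6 (.s k23 k43 5 (.s k19 k27 1 (.s k51 k35 3 (.s k25
  k28 2 (.s k9 k57 3 (.d k12 k6 k38 2 6)))))))] (.c k41 (.q k61 [(.d k62 k60 k42 0 5), (.s k23 k43 5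
  (.s k19 k27 1 (.s k51 k35 3 (.s k17 k34 4 (.s k18 k16 0 (.s k30 k26 1 (.d k28 k25 k29 2 0)))))))]
  (.c k42 (.l (.s k60 k62 0 (.s k40 k20 5 (.s k23 k43 5 (.s k19 k27 1 (.s k28 k25 2 (.s k12 k44 3
  (.d k29 k30 k46 0 4)))))))) .n)) (.c k60 (.l (.s k42 k62 5 (.s k23 k43 5 (.s k19 k27 1 (.s k51 k35
  3 (.s k25 k28 2 (.d k59 k55 k8 1 4))))))) (.c k61 (.l (.s k41 k60 6 (.s k42 k62 5 (.d k43 k40 k23
  0 5)))) .n)))) (.c k41 (.q k61 [(.s k15 k47 3 (.s k10 k5 2 (.s k6 k14 1 (.s k9 k12 2 (.d k11 k8 k7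
  0 1))))), (.s k23 k43 5 (.s k15 k47 3 (.s k7 k11 1 (.s k39 k55 3 (.d k27 k19 k51 1 5))))), (.s k15
  k47 3 (.s k10 k5 2 (.s k60 k62 0 (.s k45 k30 4 (.s k13 k29 3 (.d k14 k12 k6 0 1))))))] (.c k15 (.q
  k192 [(.s k66 k129 8 (.s k130 k194 7 (.s k65 k195 8 (.d k64 k67 k128 0 7)))), (.s k64 k128 7 (.s
  k60 k62 0 (.s k40 k20 5 (.s k104 k148 13 (.s k168 k232 7 (.d k84 k124 k252 5 13)))))), (.s k66
  k129 8 (.s k149 k106 14 (.s k193 k105 13 (.d k194 k195 k130 0 7))))] .n) (.c k47 (.q k192 [(.s k66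
  k129 8 (.s k130 k194 7 (.s k65 k195 8 (.d k64 k67 k128 0 7)))), (.s k64 k128 7 (.s k60 k62 0 (.s
  k40 k20 5 (.s k104 k148 13 (.s k168 k232 7 (.d k84 k124 k252 5 13)))))), (.s k66 k129 8 (.s k149
  k106 14 (.s k193 k105 13 (.d k194 k195 k130 0 7))))] .n) .n))) (.c k47 (.q k22 [(.s k42 k62 5 (.s
  k41 k60 6 (.d k43 k40 k23 0 5))), (.s k62 k42 5 (.d k60 k61 k41 0 6)), (.s k41 k60 6 (.s k23 k43 5
  (.s k19 k27 1 (.s k25 k28 2 (.s k9 k57 3 (.s k12 k6 2 (.d k51 k35 k38 3 6)))))))] (.c k41 (.q k61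
  [(.d k62 k60 k42 0 5)] (.c k42 (.l (.s k60 k62 0 (.s k40 k20 5 (.s k23 k43 5 (.s k19 k27 1 (.s k28
  k25 2 (.s k12 k44 3 (.d k29 k46 k30 4 0)))))))) (.c k60 (.l (.s k42 k62 5 (.s k23 k43 5 (.s k19
  k27 1 (.s k25 k28 2 (.s k59 k8 4 (.d k51 k35 k55 3 1))))))) (.c k62 (.q k37 [(.s k7 k52 4 (.s k15
  k11 1 (.s k26 k48 6 (.s k30 k18 1 (.s k29 k28 0 (.d k45 k60 k13 4 3)))))), (.s k23 k43 5 (.s k7
  k52 4 (.s k39 k55 3 (.s k19 k27 1 (.s k51 k35 3 (.s k25 k28 2 (.d k38 k36 k12 0 6))))))), (.s k23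
  k43 5 (.s k19 k27 1 (.s k25 k28 2 (.s k49 k13 5 (.s k53 k57 1 (.s k48 k58 2 (.d k51 k50 k35 0
  3)))))))] (.c k11 (.q k26 [(.s k48 k15 6 (.d k18 k30 k33 1 4)), (.s k23 k43 5 (.s k30 k18 1 (.s
  k28 k29 0 (.d k19 k27 k25 1 2)))), (.s k23 k43 5 (.s k7 k52 4 (.s k39 k55 3 (.s k15 k48 6 (.d k27
  k19 k51 1 5)))))] .n) (.c k28 (.l (.s k23 k43 5 (.s k7 k52 4 (.s k15 k11 1 (.s k39 k55 3 (.d k27
  k19 k51 1 5)))))) .n))) .n)))) (.c k60 (.l (.s k42 k62 5 (.s k23 k43 5 (.s k19 k27 1 (.s k25 k28 2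
  (.s k59 k8 4 (.d k51 k35 k55 3 1))))))) (.c k61 (.l (.s k41 k60 6 (.s k42 k62 5 (.d k43 k40 k23 0
  5)))) .n)))) (.c k61 (.q k41 [(.s k22 k60 6 (.s k42 k62 5 (.d k43 k40 k23 0 5))), (.s k15 k47 3
  (.s k10 k5 2 (.s k6 k14 1 (.s k9 k12 2 (.d k11 k8 k7 0 1)))))] .n) .n)))))))

def t21_87 : T TT 256 :=
  (.q k192 [(.s k1 k2 0 (.s k128 k64 7 (.s k129 k66 8 (.s k65 k193 7 (.d k130 k131 k195 0 8))))),
  (.s k23 k43 5 (.s k129 k66 8 (.s k149 k106 14 (.s k86 k212 8 (.d k169 k189 k252 5 14))))), (.s k1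
  k2 0 (.s k43 k23 5 (.s k106 k149 14 (.s k169 k232 8 (.s k85 k253 13 (.d k64 k128 k127 7 6))))))]
  (.c k86 (.l (.s k2 k1 0 (.s k64 k128 7 (.s k66 k129 8 (.s k130 k194 7 (.d k65 k67 k195 0 8))))))
  .n))

def t21_88 : T TT 256 :=
  (.q k192 [(.s k1 k2 0 (.s k128 k64 7 (.s k129 k66 8 (.s k65 k193 7 (.d k130 k131 k195 0 8))))),
  (.s k23 k43 5 (.s k129 k66 8 (.s k149 k106 14 (.s k86 k212 8 (.d k169 k189 k252 5 14))))), (.s k1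
  k2 0 (.s k43 k23 5 (.s k106 k149 14 (.s k169 k232 8 (.s k85 k253 13 (.d k64 k128 k127 7 6))))))]
  (.c k86 (.l (.s k2 k1 0 (.s k64 k128 7 (.s k66 k129 8 (.s k130 k194 7 (.d k65 k67 k195 0 8))))))
  .n))

def t21_89 : T TT 256 :=
  (.q k192 [(.s k1 k2 0 (.s k128 k64 7 (.s k129 k66 8 (.s k65 k193 7 (.d k130 k131 k195 0 8))))),
  (.s k23 k43 5 (.s k129 k66 8 (.s k149 k106 14 (.s k86 k212 8 (.d k169 k189 k252 5 14))))), (.s k1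
  k2 0 (.s k43 k23 5 (.s k106 k149 14 (.s k169 k232 8 (.s k85 k253 13 (.d k64 k128 k127 7 6))))))]
  (.c k8 (.q k251 [(.s k1 k2 0 (.s k128 k64 7 (.s k129 k66 8 (.s k65 k193 7 (.d k130 k131 k195 0
  8))))), (.s k23 k43 5 (.s k129 k66 8 (.s k149 k106 14 (.s k86 k212 8 (.d k169 k189 k252 5 14))))),
  (.s k1 k2 0 (.s k43 k23 5 (.s k106 k149 14 (.s k169 k232 8 (.s k85 k253 13 (.d k64 k128 k127 7
  6))))))] (.c k86 (.l (.s k2 k1 0 (.s k64 k128 7 (.s k66 k129 8 (.s k130 k194 7 (.d k65 k67 k195 0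
  8)))))) .n)) (.c k86 (.l (.s k2 k1 0 (.s k64 k128 7 (.s k66 k129 8 (.s k130 k194 7 (.d k65 k67
  k195 0 8)))))) (.c k251 (.q k8 [(.s k1 k2 0 (.s k128 k64 7 (.s k129 k66 8 (.s k65 k193 7 (.d k130
  k131 k195 0 8))))), (.s k12 k4 1 (.s k64 k128 7 (.s k72 k132 9 (.s k136 k200 7 (.d k68 k76 k204 1
  9))))), (.s k1 k2 0 (.s k12 k4 1 (.s k9 k6 2 (.s k5 k13 1 (.d k10 k11 k15 0 2)))))] .n) .n))))

def t21_90 : T TT 256 :=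
  (.q k192 [(.s k1 k2 0 (.s k128 k64 7 (.s k129 k66 8 (.s k65 k193 7 (.d k130 k131 k195 0 8))))),
  (.s k23 k43 5 (.s k129 k66 8 (.s k149 k106 14 (.s k86 k212 8 (.d k169 k189 k252 5 14))))), (.s k1
  k2 0 (.s k43 k23 5 (.s k106 k149 14 (.s k169 k232 8 (.s k85 k253 13 (.d k64 k128 k127 7 6))))))]
  (.c k10 (.q k250 [(.s k1 k2 0 (.s k128 k64 7 (.s k129 k66 8 (.s k65 k193 7 (.d k130 k131 k195 0
  8))))), (.s k23 k43 5 (.s k129 k66 8 (.s k149 k106 14 (.s k86 k212 8 (.d k169 k189 k252 5 14))))),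
  (.s k1 k2 0 (.s k43 k23 5 (.s k106 k149 14 (.s k169 k232 8 (.s k85 k253 13 (.d k64 k128 k127 7
  6))))))] (.c k86 (.l (.s k2 k1 0 (.s k64 k128 7 (.s k66 k129 8 (.s k130 k194 7 (.d k65 k67 k195 0
  8)))))) .n)) (.c k86 (.l (.s k2 k1 0 (.s k64 k128 7 (.s k66 k129 8 (.s k130 k194 7 (.d k65 k67
  k195 0 8)))))) (.c k250 (.q k10 [(.s k1 k2 0 (.s k128 k64 7 (.s k129 k66 8 (.s k65 k193 7 (.d k130
  k131 k195 0 8))))), (.s k15 k5 2 (.s k64 k128 7 (.s k74 k133 10 (.s k138 k202 7 (.d k69 k79 k207 2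
  10))))), (.s k1 k2 0 (.s k5 k15 2 (.s k9 k13 1 (.s k12 k6 2 (.d k8 k11 k4 0 1)))))] .n) .n))))

def t21_91 : T TT 256 :=
  (.q k192 [(.s k1 k2 0 (.s k128 k64 7 (.s k129 k66 8 (.s k65 k193 7 (.d k130 k131 k195 0 8))))),
  (.s k23 k43 5 (.s k129 k66 8 (.s k149 k106 14 (.s k86 k212 8 (.d k169 k189 k252 5 14))))), (.s k1
  k2 0 (.s k43 k23 5 (.s k106 k149 14 (.s k169 k232 8 (.s k85 k253 13 (.d k64 k128 k127 7 6))))))]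
  (.c k86 (.l (.s k2 k1 0 (.s k64 k128 7 (.s k66 k129 8 (.s k130 k194 7 (.d k65 k67 k195 0 8))))))
  .n))

def t21_92 : T TT 256 :=
  (.q k192 [(.s k1 k2 0 (.s k128 k64 7 (.s k129 k66 8 (.s k65 k193 7 (.d k130 k131 k195 0 8))))),
  (.s k23 k43 5 (.s k129 k66 8 (.s k149 k106 14 (.s k86 k212 8 (.d k169 k189 k252 5 14))))), (.s k1
  k2 0 (.s k43 k23 5 (.s k106 k149 14 (.s k169 k232 8 (.s k85 k253 13 (.d k64 k128 k127 7 6))))))]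
  (.c k86 (.l (.s k2 k1 0 (.s k64 k128 7 (.s k66 k129 8 (.s k130 k194 7 (.d k65 k67 k195 0 8))))))
  .n))

def t21_93 : T TT 256 :=
  (.q k192 [(.s k1 k2 0 (.s k128 k64 7 (.s k129 k66 8 (.s k65 k193 7 (.d k130 k131 k195 0 8))))),
  (.s k23 k43 5 (.s k129 k66 8 (.s k149 k106 14 (.s k86 k212 8 (.d k169 k189 k252 5 14))))), (.s k1
  k2 0 (.s k43 k23 5 (.s k106 k149 14 (.s k169 k232 8 (.s k85 k253 13 (.d k64 k128 k127 7 6))))))]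
  (.c k86 (.l (.s k2 k1 0 (.s k64 k128 7 (.s k66 k129 8 (.s k130 k194 7 (.d k65 k67 k195 0 8))))))
  .n))

def t21_94 : T TT 256 :=
  (.q k192 [(.s k1 k2 0 (.s k128 k64 7 (.s k129 k66 8 (.s k65 k193 7 (.d k130 k131 k195 0 8))))),
  (.s k23 k43 5 (.s k129 k66 8 (.s k149 k106 14 (.s k86 k212 8 (.d k169 k189 k252 5 14))))), (.s k1
  k2 0 (.s k43 k23 5 (.s k106 k149 14 (.s k169 k232 8 (.s k85 k253 13 (.d k64 k128 k127 7 6))))))]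
  (.c k86 (.l (.s k2 k1 0 (.s k64 k128 7 (.s k66 k129 8 (.s k130 k194 7 (.d k65 k67 k195 0 8))))))
  .n))

def t21_95 : T TT 256 :=
  (.q k192 [(.s k1 k2 0 (.s k128 k64 7 (.s k129 k66 8 (.s k65 k193 7 (.d k130 k131 k195 0 8))))),
  (.s k23 k43 5 (.s k129 k66 8 (.s k149 k106 14 (.s k86 k212 8 (.d k169 k189 k252 5 14))))), (.s k1
  k2 0 (.s k43 k23 5 (.s k106 k149 14 (.s k169 k232 8 (.s k85 k253 13 (.d k64 k128 k127 7 6))))))]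
  (.c k86 (.l (.s k2 k1 0 (.s k64 k128 7 (.s k66 k129 8 (.s k130 k194 7 (.d k65 k67 k195 0 8))))))
  .n))

def t21_96 : T TT 256 :=
  (.q k192 [(.s k1 k2 0 (.s k129 k66 8 (.s k65 k193 7 (.s k130 k195 8 (.d k128 k131 k64 0 7))))),
  (.s k23 k43 5 (.s k129 k66 8 (.s k149 k106 14 (.s k86 k212 8 (.d k169 k189 k252 5 14))))), (.s k1
  k2 0 (.s k43 k23 5 (.s k106 k149 14 (.s k169 k232 8 (.s k85 k253 13 (.d k64 k128 k127 7 6))))))]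
  (.c k86 (.l (.s k2 k1 0 (.s k64 k128 7 (.s k66 k129 8 (.s k130 k194 7 (.d k65 k67 k195 0 8))))))
  .n))

def t21_97 : T TT 256 :=
  (.q k192 [(.s k23 k43 5 (.s k129 k66 8 (.s k149 k106 14 (.s k86 k212 8 (.d k169 k189 k252 5
  14))))), (.s k1 k2 0 (.s k128 k64 7 (.s k129 k66 8 (.s k65 k193 7 (.d k130 k131 k195 0 8))))), (.s
  k1 k2 0 (.s k43 k23 5 (.s k106 k149 14 (.s k169 k232 8 (.s k85 k253 13 (.d k64 k128 k127 7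
  6))))))] (.c k86 (.l (.s k2 k1 0 (.s k64 k128 7 (.s k66 k129 8 (.s k130 k194 7 (.d k65 k67 k195 0
  8)))))) .n))

def t21_98 : T TT 256 :=
  (.q k192 [(.s k1 k2 0 (.s k129 k66 8 (.s k65 k193 7 (.s k130 k195 8 (.d k128 k131 k64 0 7))))),
  (.s k23 k43 5 (.s k129 k66 8 (.s k149 k106 14 (.s k86 k212 8 (.d k169 k189 k252 5 14))))), (.s k1
  k2 0 (.s k43 k23 5 (.s k106 k149 14 (.s k169 k232 8 (.s k85 k253 13 (.d k64 k128 k127 7 6))))))]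
  (.c k86 (.l (.s k2 k1 0 (.s k64 k128 7 (.s k66 k129 8 (.s k130 k194 7 (.d k65 k67 k195 0 8))))))
  .n))

def t21_99 : T TT 256 :=
  (.q k192 [(.s k1 k2 0 (.s k128 k64 7 (.s k129 k66 8 (.s k65 k193 7 (.d k130 k131 k195 0 8))))),
  (.s k23 k43 5 (.s k129 k66 8 (.s k149 k106 14 (.s k86 k212 8 (.d k169 k189 k252 5 14))))), (.s k1
  k2 0 (.s k43 k23 5 (.s k106 k149 14 (.s k169 k232 8 (.s k85 k253 13 (.d k64 k128 k127 7 6))))))]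
  (.c k86 (.l (.s k2 k1 0 (.s k64 k128 7 (.s k66 k129 8 (.s k130 k194 7 (.d k65 k67 k195 0 8))))))
  .n))

def t21_100 : T TT 256 :=
  (.q k192 [(.s k1 k2 0 (.s k128 k64 7 (.s k129 k66 8 (.s k65 k193 7 (.d k130 k131 k195 0 8))))),
  (.s k23 k43 5 (.s k129 k66 8 (.s k149 k106 14 (.s k86 k212 8 (.d k169 k189 k252 5 14))))), (.s k1
  k2 0 (.s k43 k23 5 (.s k106 k149 14 (.s k169 k232 8 (.s k85 k253 13 (.d k64 k128 k127 7 6))))))]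
  (.c k86 (.l (.s k2 k1 0 (.s k64 k128 7 (.s k66 k129 8 (.s k130 k194 7 (.d k65 k67 k195 0 8))))))
  .n))

def t21_101 : T TT 256 :=
  (.q k192 [(.s k1 k2 0 (.s k128 k64 7 (.s k129 k66 8 (.s k65 k193 7 (.d k130 k131 k195 0 8))))),
  (.s k23 k43 5 (.s k129 k66 8 (.s k149 k106 14 (.s k86 k212 8 (.d k169 k189 k252 5 14))))), (.s k1
  k2 0 (.s k43 k23 5 (.s k106 k149 14 (.s k169 k232 8 (.s k85 k253 13 (.d k64 k128 k127 7 6))))))]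
  (.c k32 (.q k239 [(.s k1 k2 0 (.s k128 k64 7 (.s k129 k66 8 (.s k65 k193 7 (.d k130 k131 k195 0
  8))))), (.s k23 k43 5 (.s k129 k66 8 (.s k149 k106 14 (.s k86 k212 8 (.d k169 k189 k252 5 14))))),
  (.s k1 k2 0 (.s k43 k23 5 (.s k106 k149 14 (.s k169 k232 8 (.s k85 k253 13 (.d k64 k128 k127 7
  6))))))] (.c k86 (.l (.s k2 k1 0 (.s k64 k128 7 (.s k66 k129 8 (.s k130 k194 7 (.d k65 k67 k195 0
  8)))))) .n)) (.c k86 (.l (.s k2 k1 0 (.s k64 k128 7 (.s k66 k129 8 (.s k130 k194 7 (.d k65 k67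
  k195 0 8)))))) (.c k239 (.q k32 [(.s k1 k2 0 (.s k128 k64 7 (.s k129 k66 8 (.s k65 k193 7 (.d k130
  k131 k195 0 8))))), (.s k48 k16 3 (.s k64 k128 7 (.s k96 k144 11 (.s k160 k224 7 (.d k80 k112 k240
  3 11))))), (.s k1 k2 0 (.s k48 k16 3 (.s k33 k18 4 (.s k17 k49 3 (.d k34 k35 k51 0 4)))))] .n)
  .n))))

def t21_102 : T TT 256 :=
  (.q k192 [(.s k1 k2 0 (.s k128 k64 7 (.s k129 k66 8 (.s k65 k193 7 (.d k130 k131 k195 0 8))))),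
  (.s k23 k43 5 (.s k129 k66 8 (.s k149 k106 14 (.s k86 k212 8 (.d k169 k189 k252 5 14))))), (.s k1
  k2 0 (.s k43 k23 5 (.s k106 k149 14 (.s k169 k232 8 (.s k85 k253 13 (.d k64 k128 k127 7 6))))))]
  (.c k34 (.q k238 [(.s k1 k2 0 (.s k128 k64 7 (.s k129 k66 8 (.s k65 k193 7 (.d k130 k131 k195 0
  8))))), (.s k23 k43 5 (.s k129 k66 8 (.s k149 k106 14 (.s k86 k212 8 (.d k169 k189 k252 5 14))))),
  (.s k1 k2 0 (.s k43 k23 5 (.s k106 k149 14 (.s k169 k232 8 (.s k85 k253 13 (.d k64 k128 k127 7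
  6))))))] (.c k86 (.l (.s k2 k1 0 (.s k64 k128 7 (.s k66 k129 8 (.s k130 k194 7 (.d k65 k67 k195 0
  8)))))) .n)) (.c k86 (.l (.s k2 k1 0 (.s k64 k128 7 (.s k66 k129 8 (.s k130 k194 7 (.d k65 k67
  k195 0 8)))))) (.c k238 (.q k34 [(.s k1 k2 0 (.s k128 k64 7 (.s k129 k66 8 (.s k65 k193 7 (.d k130
  k131 k195 0 8))))), (.s k51 k17 4 (.s k64 k128 7 (.s k98 k145 12 (.s k162 k226 7 (.d k81 k115 k243
  4 12))))), (.s k1 k2 0 (.s k17 k51 4 (.s k33 k49 3 (.s k48 k18 4 (.d k32 k35 k16 0 3)))))] .n)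
  .n))))

def t21_103 : T TT 256 :=
  (.q k192 [(.s k1 k2 0 (.s k128 k64 7 (.s k129 k66 8 (.s k65 k193 7 (.d k130 k131 k195 0 8))))),
  (.s k23 k43 5 (.s k129 k66 8 (.s k149 k106 14 (.s k86 k212 8 (.d k169 k189 k252 5 14))))), (.s k1
  k2 0 (.s k43 k23 5 (.s k106 k149 14 (.s k169 k232 8 (.s k85 k253 13 (.d k64 k128 k127 7 6))))))]
  (.c k86 (.l (.s k2 k1 0 (.s k64 k128 7 (.s k66 k129 8 (.s k130 k194 7 (.d k65 k67 k195 0 8))))))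
  .n))

def t21_104 : T TT 256 :=
  (.q k192 [(.s k1 k2 0 (.s k129 k66 8 (.s k65 k193 7 (.s k130 k195 8 (.d k128 k131 k64 0 7))))),
  (.s k23 k43 5 (.s k129 k66 8 (.s k149 k106 14 (.s k86 k212 8 (.d k169 k189 k252 5 14))))), (.s k1
  k2 0 (.s k43 k23 5 (.s k106 k149 14 (.s k169 k232 8 (.s k85 k253 13 (.d k64 k128 k127 7 6))))))]
  (.c k86 (.l (.s k2 k1 0 (.s k64 k128 7 (.s k66 k129 8 (.s k130 k194 7 (.d k65 k67 k195 0 8))))))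
  .n))

def t21_105 : T TT 256 :=
  (.q k192 [(.s k1 k2 0 (.s k128 k64 7 (.s k129 k66 8 (.s k130 k131 0 (.d k65 k193 k195 7 8))))),
  (.s k23 k43 5 (.s k129 k66 8 (.s k149 k106 14 (.s k86 k212 8 (.d k169 k189 k252 5 14))))), (.s k1
  k2 0 (.s k43 k23 5 (.s k106 k149 14 (.s k169 k232 8 (.s k85 k253 13 (.d k64 k128 k127 7 6))))))]
  (.c k40 (.q k235 [(.s k1 k2 0 (.s k128 k64 7 (.s k129 k66 8 (.s k130 k131 0 (.d k65 k193 k195 7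
  8))))), (.s k23 k43 5 (.s k129 k66 8 (.s k149 k106 14 (.s k86 k212 8 (.d k169 k189 k252 5 14))))),
  (.s k1 k2 0 (.s k43 k23 5 (.s k106 k149 14 (.s k169 k232 8 (.s k85 k253 13 (.d k64 k128 k127 7
  6))))))] (.c k86 (.l (.s k2 k1 0 (.s k64 k128 7 (.s k66 k129 8 (.s k130 k194 7 (.d k65 k67 k195 0
  8)))))) .n)) (.c k86 (.l (.s k2 k1 0 (.s k64 k128 7 (.s k66 k129 8 (.s k130 k194 7 (.d k65 k67
  k195 0 8)))))) (.c k235 (.q k40 [(.s k43 k23 5 (.s k41 k42 0 (.d k60 k20 k22 5 6))), (.s k1 k2 0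
  (.s k128 k64 7 (.s k129 k66 8 (.s k65 k193 7 (.d k130 k131 k195 0 8)))))] .n) .n))))

def t21_106 : T TT 256 :=
  (.q k51 [(.s k1 k2 0 (.s k17 k34 4 (.s k33 k49 3 (.s k18 k48 4 (.d k19 k16 k35 0 3))))), (.s k19
  k35 3 (.s k23 k43 5 (.s k27 k31 1 (.s k39 k15 5 (.d k55 k59 k7 1 3)))))] (.c k16 (.l (.s k2 k1 0
  (.s k34 k17 4 (.s k18 k50 3 (.s k33 k48 4 (.d k35 k19 k32 3 0)))))) (.c k19 (.q k42 [(.s k2 k1 0
  (.s k22 k62 5 (.s k41 k60 6 (.d k43 k40 k23 0 5)))), (.s k34 k17 4 (.s k38 k46 1 (.s k25 k12 6 (.d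
  k59 k55 k8 1 4))))] .n) (.c k35 (.q k42 [(.s k2 k1 0 (.s k22 k62 5 (.s k41 k60 6 (.d k43 k40 k23 0
  5)))), (.s k34 k17 4 (.s k38 k46 1 (.s k25 k12 6 (.d k59 k55 k8 1 4))))] .n) (.c k42 (.q k234 [(.s
  k2 k1 0 (.s k34 k17 4 (.s k18 k50 3 (.s k33 k48 4 (.d k35 k32 k19 0 3))))), (.s k19 k35 3 (.s k23
  k43 5 (.s k27 k31 1 (.s k39 k15 5 (.d k55 k59 k7 1 3)))))] (.c k19 (.q k192 [(.s k2 k1 0 (.s k64
  k128 7 (.s k66 k129 8 (.s k65 k67 0 (.d k130 k194 k195 7 8))))), (.s k17 k34 4 (.s k128 k64 7 (.s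
  k145 k98 12 (.s k81 k209 7 (.d k162 k179 k243 4 12))))), (.s k1 k2 0 (.s k17 k34 4 (.s k49 k33 3
  (.s k129 k66 8 (.s k145 k98 12 (.d k193 k65 k97 7 11))))))] .n) (.c k35 (.q k192 [(.s k2 k1 0 (.s
  k64 k128 7 (.s k66 k129 8 (.s k65 k67 0 (.d k130 k194 k195 7 8))))), (.s k17 k34 4 (.s k128 k64 7
  (.s k145 k98 12 (.s k81 k209 7 (.d k162 k179 k243 4 12))))), (.s k1 k2 0 (.s k17 k34 4 (.s k129
  k66 8 (.s k145 k98 12 (.s k81 k209 7 (.d k161 k177 k241 3 11))))))] .n) (.c k41 (.l (.s k1 k2 0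
  (.s k17 k34 4 (.s k33 k49 3 (.s k18 k48 4 (.d k19 k16 k35 0 3)))))) .n)))) (.c k234 (.q k42 [(.s
  k2 k1 0 (.s k22 k62 5 (.s k41 k60 6 (.d k43 k40 k23 0 5)))), (.s k34 k17 4 (.s k38 k46 1 (.s k25
  k12 6 (.d k59 k55 k8 1 4))))] .n) .n))))))

def t21_107 : T TT 256 :=
  (.q k149 [(.s k23 k43 5 (.s k86 k212 8 (.s k169 k252 14 (.s k129 k189 5 (.d k192 k66 k106 8
  14))))), (.s k2 k1 0 (.s k192 k106 14 (.s k64 k128 7 (.s k66 k129 8 (.s k130 k194 7 (.d k65 k67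
  k195 0 8))))))] (.c k66 (.l (.s k43 k23 5 (.s k106 k192 14 (.s k169 k232 8 (.s k252 k86 14 (.d
  k189 k129 k126 5 8)))))) (.c k106 (.f k23 k43 5 (.f k86 k212 8 (.l (.s k1 k2 0 (.s k169 k252 14
  (.s k253 k85 13 (.s k129 k189 5 (.s k193 k65 7 (.s k105 k61 13 (.d k233 k213 k41 5 7)))))))))) (.c
  k129 (.l (.s k23 k43 5 (.s k86 k212 8 (.s k252 k169 14 (.s k106 k192 14 (.d k126 k66 k189 5
  8)))))) (.c k192 (.q k86 [(.d k23 k43 k212 5 8), (.s k1 k2 0 (.s k169 k252 14 (.s k253 k85 13 (.s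
  k129 k189 5 (.s k193 k65 7 (.s k105 k61 13 (.d k233 k213 k41 5 7)))))))] (.c k212 (.f k252 k169 14
  (.q k130 [(.s k2 k1 0 (.s k126 k189 8 (.d k66 k106 k194 5 7))), (.s k195 k65 8 (.s k67 k131 7 (.s
  k105 k124 6 (.s k150 k60 14 (.d k214 k233 k22 6 7)))))] (.c k168 (.q k171 [(.s k195 k65 8 (.s k131
  k67 7 (.s k191 k151 5 (.d k255 k127 k87 7 13)))), (.s k126 k189 8 (.s k66 k106 5 (.d k2 k1 k194 0
  7)))] (.c k66 (.l (.s k195 k65 8 (.s k23 k43 5 (.s k87 k255 13 (.s k151 k215 7 (.d k131 k67 k191 7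
  5)))))) .n)) (.c k171 (.l (.s k168 k84 13 (.s k2 k1 0 (.s k66 k194 7 (.d k126 k106 k189 5 8)))))
  .n)))) .n)) .n)))))

def t21_108 : T TT 256 :=
  (.q k192 [(.s k1 k2 0 (.s k128 k64 7 (.s k129 k66 8 (.s k65 k193 7 (.d k130 k131 k195 0 8))))),
  (.s k23 k43 5 (.s k129 k66 8 (.s k149 k106 14 (.s k86 k212 8 (.d k169 k189 k252 5 14))))), (.s k1
  k2 0 (.s k43 k23 5 (.s k106 k149 14 (.s k169 k232 8 (.s k85 k253 13 (.d k64 k128 k127 7 6))))))]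
  (.c k86 (.l (.s k2 k1 0 (.s k64 k128 7 (.s k66 k129 8 (.s k130 k194 7 (.d k65 k67 k195 0 8))))))
  .n))

def t21_109 : T TT 256 :=
  (.q k192 [(.s k1 k2 0 (.s k128 k64 7 (.s k129 k66 8 (.s k65 k193 7 (.d k130 k131 k195 0 8))))),
  (.s k23 k43 5 (.s k129 k66 8 (.s k149 k106 14 (.s k86 k212 8 (.d k169 k189 k252 5 14))))), (.s k1
  k2 0 (.s k43 k23 5 (.s k106 k149 14 (.s k169 k232 8 (.s k85 k253 13 (.d k64 k128 k127 7 6))))))]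
  (.c k86 (.l (.s k2 k1 0 (.s k64 k128 7 (.s k66 k129 8 (.s k130 k194 7 (.d k65 k67 k195 0 8))))))
  .n))

def t21_110 : T TT 256 :=
  (.q k192 [(.s k1 k2 0 (.s k128 k64 7 (.s k129 k66 8 (.s k65 k193 7 (.d k130 k131 k195 0 8))))),
  (.s k23 k43 5 (.s k129 k66 8 (.s k149 k106 14 (.s k86 k212 8 (.d k169 k189 k252 5 14))))), (.s k1
  k2 0 (.s k43 k23 5 (.s k106 k149 14 (.s k169 k232 8 (.s k85 k253 13 (.d k64 k128 k127 7 6))))))]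
  (.c k86 (.l (.s k2 k1 0 (.s k64 k128 7 (.s k66 k129 8 (.s k130 k194 7 (.d k65 k67 k195 0 8))))))
  .n))

def t21_111 : T TT 256 :=
  (.q k130 [(.s k1 k2 0 (.s k65 k195 8 (.s k129 k193 7 (.s k192 k66 8 (.d k128 k131 k64 0 7))))),
  (.s k195 k65 8 (.s k23 k43 5 (.s k151 k107 13 (.s k87 k215 7 (.s k171 k255 13 (.d k131 k191 k67 5
  7)))))), (.s k2 k1 0 (.s k66 k194 7 (.s k43 k23 5 (.s k192 k129 8 (.s k106 k149 14 (.s k169 k232 8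
  (.d k86 k126 k252 5 14)))))))] (.c k65 (.q k149 [(.s k2 k1 0 (.s k66 k194 7 (.d k192 k129 k106 8
  14))), (.s k23 k43 5 (.s k86 k212 8 (.s k252 k169 14 (.s k106 k192 14 (.d k126 k66 k189 5 8)))))]
  (.c k66 (.l (.s k43 k23 5 (.s k106 k192 14 (.s k169 k232 8 (.s k252 k86 14 (.d k189 k129 k126 5
  8)))))) (.c k106 (.l (.s k2 k1 0 (.s k66 k194 7 (.s k23 k43 5 (.s k129 k192 8 (.s k86 k212 8 (.d
  k169 k252 k189 14 5))))))) (.c k192 (.l (.s k2 k1 0 (.s k66 k194 7 (.s k23 k43 5 (.s k86 k212 8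
  (.s k252 k169 14 (.d k126 k106 k189 5 8))))))) .n)))) .n))

def t21_112 : T TT 256 :=
  (.q k192 [(.s k1 k2 0 (.s k129 k66 8 (.s k65 k193 7 (.s k130 k195 8 (.d k128 k131 k64 0 7))))),
  (.s k23 k43 5 (.s k129 k66 8 (.s k149 k106 14 (.s k86 k212 8 (.d k169 k189 k252 5 14))))), (.s k1
  k2 0 (.s k43 k23 5 (.s k106 k149 14 (.s k169 k232 8 (.s k85 k253 13 (.d k64 k128 k127 7 6))))))]
  (.c k86 (.l (.s k2 k1 0 (.s k64 k128 7 (.s k66 k129 8 (.s k130 k194 7 (.d k65 k67 k195 0 8))))))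
  .n))

def t21_113 : T TT 256 :=
  (.q k192 [(.s k1 k2 0 (.s k128 k64 7 (.s k129 k66 8 (.s k65 k193 7 (.d k130 k131 k195 0 8))))),
  (.s k23 k43 5 (.s k129 k66 8 (.s k149 k106 14 (.s k86 k212 8 (.d k169 k189 k252 5 14))))), (.s k1
  k2 0 (.s k43 k23 5 (.s k106 k149 14 (.s k169 k232 8 (.s k85 k253 13 (.d k64 k128 k127 7 6))))))]
  (.c k86 (.l (.s k2 k1 0 (.s k64 k128 7 (.s k66 k129 8 (.s k130 k194 7 (.d k65 k67 k195 0 8))))))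
  .n))

def t21_114 : T TT 256 :=
  (.q k192 [(.s k1 k2 0 (.s k128 k64 7 (.s k129 k66 8 (.s k65 k193 7 (.d k130 k131 k195 0 8))))),
  (.s k23 k43 5 (.s k129 k66 8 (.s k149 k106 14 (.s k86 k212 8 (.d k169 k189 k252 5 14))))), (.s k1
  k2 0 (.s k43 k23 5 (.s k106 k149 14 (.s k169 k232 8 (.s k85 k253 13 (.d k64 k128 k127 7 6))))))]
  (.c k86 (.l (.s k2 k1 0 (.s k64 k128 7 (.s k66 k129 8 (.s k130 k194 7 (.d k65 k67 k195 0 8))))))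
  .n))

def t21_115 : T TT 256 :=
  (.q k130 [(.s k1 k2 0 (.s k65 k195 8 (.s k129 k193 7 (.s k192 k66 8 (.d k128 k131 k64 0 7))))),
  (.s k195 k65 8 (.s k23 k43 5 (.s k151 k107 13 (.s k87 k215 7 (.s k171 k255 13 (.d k131 k191 k67 5
  7)))))), (.s k2 k1 0 (.s k66 k194 7 (.s k43 k23 5 (.s k192 k129 8 (.s k106 k149 14 (.s k169 k232 8
  (.d k86 k126 k252 5 14)))))))] (.c k65 (.q k149 [(.s k2 k1 0 (.s k66 k194 7 (.d k192 k129 k106 8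
  14))), (.s k23 k43 5 (.s k86 k212 8 (.s k252 k169 14 (.s k106 k192 14 (.d k126 k66 k189 5 8)))))]
  (.c k66 (.l (.s k43 k23 5 (.s k106 k192 14 (.s k169 k232 8 (.s k252 k86 14 (.d k189 k129 k126 5
  8)))))) (.c k106 (.l (.s k2 k1 0 (.s k66 k194 7 (.s k23 k43 5 (.s k129 k192 8 (.s k86 k212 8 (.d
  k169 k252 k189 14 5))))))) (.c k192 (.l (.s k2 k1 0 (.s k66 k194 7 (.s k23 k43 5 (.s k86 k212 8
  (.s k252 k169 14 (.d k126 k106 k189 5 8))))))) .n)))) .n))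

def t21_116 : T TT 256 :=
  (.q k192 [(.s k1 k2 0 (.s k128 k64 7 (.s k129 k66 8 (.s k65 k193 7 (.d k130 k131 k195 0 8))))),
  (.s k23 k43 5 (.s k129 k66 8 (.s k149 k106 14 (.s k86 k212 8 (.d k169 k189 k252 5 14))))), (.s k1
  k2 0 (.s k43 k23 5 (.s k106 k149 14 (.s k169 k232 8 (.s k85 k253 13 (.d k64 k128 k127 7 6))))))]
  (.c k86 (.l (.s k2 k1 0 (.s k64 k128 7 (.s k66 k129 8 (.s k130 k194 7 (.d k65 k67 k195 0 8))))))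
  .n))

def t21_117 : T TT 256 :=
  (.q k192 [(.s k1 k2 0 (.s k128 k64 7 (.s k129 k66 8 (.s k65 k193 7 (.d k130 k131 k195 0 8))))),
  (.s k23 k43 5 (.s k129 k66 8 (.s k149 k106 14 (.s k86 k212 8 (.d k169 k189 k252 5 14))))), (.s k1
  k2 0 (.s k43 k23 5 (.s k106 k149 14 (.s k169 k232 8 (.s k85 k253 13 (.d k64 k128 k127 7 6))))))]
  (.c k86 (.l (.s k2 k1 0 (.s k64 k128 7 (.s k66 k129 8 (.s k130 k194 7 (.d k65 k67 k195 0 8))))))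
  .n))

def t21_118 : T TT 256 :=
  (.q k192 [(.s k1 k2 0 (.s k128 k64 7 (.s k129 k66 8 (.s k65 k193 7 (.d k130 k131 k195 0 8))))),
  (.s k23 k43 5 (.s k129 k66 8 (.s k149 k106 14 (.s k86 k212 8 (.d k169 k189 k252 5 14))))), (.s k1
  k2 0 (.s k43 k23 5 (.s k106 k149 14 (.s k169 k232 8 (.s k85 k253 13 (.d k64 k128 k127 7 6))))))]
  (.c k86 (.l (.s k2 k1 0 (.s k64 k128 7 (.s k66 k129 8 (.s k130 k194 7 (.d k65 k67 k195 0 8))))))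
  .n))

def t21_119 : T TT 256 :=
  (.q k130 [(.s k1 k2 0 (.s k65 k195 8 (.s k129 k193 7 (.s k192 k66 8 (.d k128 k131 k64 0 7))))),
  (.s k195 k65 8 (.s k23 k43 5 (.s k151 k107 13 (.s k87 k215 7 (.s k171 k255 13 (.d k131 k191 k67 5
  7)))))), (.s k2 k1 0 (.s k66 k194 7 (.s k43 k23 5 (.s k192 k129 8 (.s k106 k149 14 (.s k169 k232 8
  (.d k86 k126 k252 5 14)))))))] (.c k65 (.q k149 [(.s k2 k1 0 (.s k66 k194 7 (.d k192 k129 k106 8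
  14))), (.s k23 k43 5 (.s k86 k212 8 (.s k252 k169 14 (.s k106 k192 14 (.d k126 k66 k189 5 8)))))]
  (.c k66 (.l (.s k43 k23 5 (.s k106 k192 14 (.s k169 k232 8 (.s k252 k86 14 (.d k189 k129 k126 5
  8)))))) (.c k106 (.l (.s k2 k1 0 (.s k66 k194 7 (.s k23 k43 5 (.s k129 k192 8 (.s k86 k212 8 (.d
  k169 k252 k189 14 5))))))) (.c k192 (.l (.s k2 k1 0 (.s k66 k194 7 (.s k23 k43 5 (.s k86 k212 8
  (.s k252 k169 14 (.d k126 k106 k189 5 8))))))) .n)))) .n))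

def t21_120 : T TT 256 :=
  (.q k192 [(.s k1 k2 0 (.s k128 k64 7 (.s k129 k66 8 (.s k65 k193 7 (.d k130 k131 k195 0 8))))),
  (.s k23 k43 5 (.s k129 k66 8 (.s k149 k106 14 (.s k86 k212 8 (.d k169 k189 k252 5 14))))), (.s k1
  k2 0 (.s k43 k23 5 (.s k106 k149 14 (.s k169 k232 8 (.s k85 k253 13 (.d k64 k128 k127 7 6))))))]
  (.c k86 (.l (.s k2 k1 0 (.s k64 k128 7 (.s k66 k129 8 (.s k130 k194 7 (.d k65 k67 k195 0 8))))))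
  .n))

def t21_121 : T TT 256 :=
  (.q k192 [(.s k1 k2 0 (.s k128 k64 7 (.s k129 k66 8 (.s k65 k193 7 (.d k130 k131 k195 0 8))))),
  (.s k23 k43 5 (.s k129 k66 8 (.s k149 k106 14 (.s k86 k212 8 (.d k169 k189 k252 5 14))))), (.s k1
  k2 0 (.s k43 k23 5 (.s k106 k149 14 (.s k169 k232 8 (.s k85 k253 13 (.d k64 k128 k127 7 6))))))]
  (.c k86 (.l (.s k2 k1 0 (.s k64 k128 7 (.s k66 k129 8 (.s k130 k194 7 (.d k65 k67 k195 0 8))))))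
  .n))

def t21_122 : T TT 256 :=
  (.q k192 [(.s k1 k2 0 (.s k128 k64 7 (.s k129 k66 8 (.s k65 k193 7 (.d k130 k131 k195 0 8))))),
  (.s k23 k43 5 (.s k129 k66 8 (.s k149 k106 14 (.s k86 k212 8 (.d k169 k189 k252 5 14))))), (.s k1
  k2 0 (.s k43 k23 5 (.s k106 k149 14 (.s k169 k232 8 (.s k85 k253 13 (.d k64 k128 k127 7 6))))))]
  (.c k86 (.l (.s k2 k1 0 (.s k64 k128 7 (.s k66 k129 8 (.s k130 k194 7 (.d k65 k67 k195 0 8))))))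
  .n))

def t21_123 : T TT 256 :=
  (.q k192 [(.s k1 k2 0 (.s k128 k64 7 (.s k129 k66 8 (.s k65 k193 7 (.d k130 k131 k195 0 8))))),
  (.s k23 k43 5 (.s k129 k66 8 (.s k149 k106 14 (.s k86 k212 8 (.d k169 k189 k252 5 14))))), (.s k1
  k2 0 (.s k43 k23 5 (.s k106 k149 14 (.s k169 k232 8 (.s k85 k253 13 (.d k64 k128 k127 7 6))))))]
  (.c k86 (.l (.s k2 k1 0 (.s k64 k128 7 (.s k66 k129 8 (.s k130 k194 7 (.d k65 k67 k195 0 8))))))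
  .n))

def t21_124 : T TT 256 :=
  (.q k130 [(.s k1 k2 0 (.s k65 k195 8 (.s k129 k193 7 (.s k192 k66 8 (.d k128 k131 k64 0 7))))),
  (.s k195 k65 8 (.s k23 k43 5 (.s k151 k107 13 (.s k87 k215 7 (.s k171 k255 13 (.d k131 k191 k67 5
  7)))))), (.s k2 k1 0 (.s k66 k194 7 (.s k43 k23 5 (.s k192 k129 8 (.s k106 k149 14 (.s k169 k232 8
  (.d k86 k126 k252 5 14)))))))] (.c k65 (.q k149 [(.s k2 k1 0 (.s k66 k194 7 (.d k192 k129 k106 8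
  14))), (.s k23 k43 5 (.s k86 k212 8 (.s k252 k169 14 (.s k106 k192 14 (.d k126 k66 k189 5 8)))))]
  (.c k66 (.l (.s k43 k23 5 (.s k106 k192 14 (.s k169 k232 8 (.s k252 k86 14 (.d k189 k129 k126 5
  8)))))) (.c k106 (.l (.s k2 k1 0 (.s k66 k194 7 (.s k23 k43 5 (.s k129 k192 8 (.s k86 k212 8 (.d
  k169 k252 k189 14 5))))))) (.c k192 (.l (.s k2 k1 0 (.s k66 k194 7 (.s k23 k43 5 (.s k86 k212 8
  (.s k252 k169 14 (.d k126 k106 k189 5 8))))))) .n)))) .n))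

def t21_125 : T TT 256 :=
  (.q k192 [(.s k1 k2 0 (.s k128 k64 7 (.s k129 k66 8 (.s k65 k193 7 (.d k130 k131 k195 0 8))))),
  (.s k23 k43 5 (.s k129 k66 8 (.s k149 k106 14 (.s k86 k212 8 (.d k169 k189 k252 5 14))))), (.s k1
  k2 0 (.s k43 k23 5 (.s k106 k149 14 (.s k169 k232 8 (.s k85 k253 13 (.d k64 k128 k127 7 6))))))]
  (.c k86 (.l (.s k2 k1 0 (.s k64 k128 7 (.s k66 k129 8 (.s k130 k194 7 (.d k65 k67 k195 0 8))))))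
  .n))

def t21_126 : T TT 256 :=
  (.q k192 [(.s k23 k43 5 (.s k129 k66 8 (.s k149 k106 14 (.s k86 k212 8 (.d k169 k189 k252 5
  14))))), (.s k2 k1 0 (.s k64 k128 7 (.s k66 k129 8 (.s k130 k194 7 (.d k65 k67 k195 0 8))))), (.s
  k1 k2 0 (.s k43 k23 5 (.s k106 k149 14 (.s k169 k232 8 (.s k85 k253 13 (.d k64 k128 k127 7
  6))))))] (.c k149 (.l (.s k1 k2 0 (.s k128 k64 7 (.s k129 k66 8 (.s k65 k193 7 (.d k130 k131 k195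
  0 8)))))) .n))

def t21_127 : T TT 256 :=
  (.q k192 [(.s k1 k2 0 (.s k129 k66 8 (.s k65 k193 7 (.s k130 k195 8 (.d k128 k131 k64 0 7))))),
  (.s k23 k43 5 (.s k129 k66 8 (.s k149 k106 14 (.s k86 k212 8 (.d k169 k189 k252 5 14)))))] (.c k64
  (.l (.s k43 k23 5 (.s k66 k129 8 (.s k106 k149 14 (.s k169 k232 8 (.d k86 k126 k252 5 14)))))) (.c
  k66 (.q k15 [(.s k7 k11 1 (.s k23 k43 5 (.s k39 k55 3 (.s k27 k51 5 (.d k31 k19 k47 1 3))))), (.s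
  k5 k10 2 (.s k128 k64 7 (.s k133 k74 10 (.s k69 k197 7 (.d k138 k143 k207 2 10)))))] .n) (.c k86
  (.l (.s k2 k1 0 (.s k64 k128 7 (.s k66 k129 8 (.s k130 k194 7 (.d k65 k67 k195 0 8)))))) (.c k129
  (.q k15 [(.s k7 k11 1 (.s k23 k43 5 (.s k39 k55 3 (.s k27 k51 5 (.d k31 k19 k47 1 3))))), (.s k5
  k10 2 (.s k128 k64 7 (.s k133 k74 10 (.s k69 k197 7 (.d k138 k143 k207 2 10)))))] .n) .n)))))

def t21_128 : T TT 256 :=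
  (.q k7 [(.s k15 k11 1 (.s k23 k43 5 (.s k31 k47 3 (.s k27 k19 1 (.d k39 k55 k51 3 5))))), (.s k1
  k2 0 (.s k15 k11 1 (.s k5 k10 2 (.s k9 k13 1 (.d k6 k4 k12 0 2)))))] (.c k11 (.f k23 k43 5 (.q
  k149 [(.s k86 k212 8 (.s k169 k252 14 (.s k129 k189 5 (.d k192 k66 k106 8 14)))), (.s k55 k39 3
  (.s k86 k212 8 (.s k165 k244 12 (.s k196 k102 12 (.d k133 k181 k70 3 8))))), (.s k55 k39 3 (.s
  k196 k102 12 (.s k70 k133 8 (.s k204 k137 10 (.d k192 k200 k106 1 14)))))] (.c k27 (.q k59 [(.d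
  k55 k51 k39 1 3), (.s k86 k212 8 (.s k169 k252 14 (.s k192 k106 14 (.d k129 k189 k66 5 8))))] .n)
  (.c k59 (.q k27 [(.s k39 k55 3 (.s k15 k51 5 (.d k31 k19 k47 1 3))), (.s k86 k212 8 (.s k169 k252
  14 (.s k192 k106 14 (.d k129 k189 k66 5 8))))] .n) .n)))) (.c k15 (.f k23 k43 5 (.l (.s k1 k2 0
  (.s k55 k39 3 (.s k51 k59 1 (.s k17 k34 4 (.s k33 k49 3 (.s k18 k48 4 (.d k19 k35 k16 3 0)))))))))
  (.c k149 (.q k191 [(.s k15 k11 1 (.s k23 k43 5 (.s k31 k47 3 (.s k27 k19 1 (.d k39 k55 k51 3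
  5))))), (.s k1 k2 0 (.s k15 k11 1 (.s k5 k10 2 (.s k9 k13 1 (.d k6 k4 k12 0 2))))), (.s k43 k23 5
  (.s k255 k127 7 (.s k171 k87 13 (.s k107 k235 7 (.d k151 k131 k195 5 13)))))] (.c k85 (.q k213
  [(.s k15 k11 1 (.s k23 k43 5 (.s k31 k47 3 (.s k27 k19 1 (.d k39 k55 k51 3 5))))), (.s k1 k2 0 (.s
  k15 k11 1 (.s k5 k10 2 (.s k9 k13 1 (.d k6 k4 k12 0 2))))), (.s k43 k23 5 (.s k255 k127 7 (.s k171
  k87 13 (.s k107 k235 7 (.d k151 k131 k195 5 13)))))] .n) (.c k213 (.q k85 [(.s k1 k2 0 (.s k169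
  k253 13 (.s k86 k252 14 (.s k255 k127 7 (.d k87 k84 k171 0 13))))), (.s k15 k11 1 (.s k23 k43 5
  (.s k39 k55 3 (.s k27 k51 5 (.d k31 k19 k47 1 3)))))] .n) .n))) (.c k191 (.q k149 [(.s k15 k11 1
  (.s k23 k43 5 (.s k31 k47 3 (.s k27 k19 1 (.d k39 k55 k51 3 5))))), (.s k1 k2 0 (.s k15 k11 1 (.s
  k5 k10 2 (.s k9 k13 1 (.d k6 k4 k12 0 2))))), (.s k23 k43 5 (.s k86 k212 8 (.s k169 k252 14 (.s
  k192 k106 14 (.d k129 k189 k66 5 8)))))] .n) .n)))))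

def t21_129 : T TT 256 :=
  (.q k15 [(.s k7 k11 1 (.s k23 k43 5 (.s k39 k55 3 (.s k27 k51 5 (.d k31 k19 k47 1 3))))), (.s k2
  k1 0 (.s k10 k5 2 (.s k6 k14 1 (.s k9 k12 2 (.d k11 k8 k7 0 1)))))] (.c k7 (.q k192 [(.s k5 k10 2
  (.s k128 k64 7 (.s k133 k74 10 (.s k69 k197 7 (.d k138 k143 k207 2 10))))), (.s k1 k2 0 (.s k43
  k23 5 (.s k106 k149 14 (.s k169 k232 8 (.s k85 k253 13 (.d k64 k128 k127 7 6)))))), (.s k31 k47 3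
  (.s k133 k74 10 (.s k149 k106 14 (.s k90 k208 10 (.d k165 k181 k240 3 14)))))] .n) (.c k11 (.q
  k192 [(.s k31 k47 3 (.s k149 k106 14 (.s k90 k208 10 (.s k165 k240 14 (.d k133 k181 k74 3 10))))),
  (.s k1 k2 0 (.s k43 k23 5 (.s k106 k149 14 (.s k169 k232 8 (.s k85 k253 13 (.d k64 k128 k127 7
  6)))))), (.s k5 k10 2 (.s k128 k64 7 (.s k133 k74 10 (.s k69 k197 7 (.d k138 k143 k207 2 10)))))]
  .n) .n)))

def t21_130 : T TT 256 :=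
  (.q k51 [(.s k19 k35 3 (.s k23 k43 5 (.s k27 k31 1 (.s k39 k15 5 (.d k55 k59 k7 1 3))))), (.s k2
  k1 0 (.s k34 k17 4 (.s k18 k50 3 (.s k33 k48 4 (.d k35 k32 k19 0 3)))))] (.c k19 (.q k42 [(.s k2
  k1 0 (.s k22 k62 5 (.s k41 k60 6 (.d k43 k40 k23 0 5)))), (.s k34 k17 4 (.s k38 k46 1 (.s k25 k12
  6 (.d k59 k55 k8 1 4))))] (.c k150 (.q k190 [(.s k34 k17 4 (.s k38 k46 1 (.s k25 k12 6 (.d k59 k55
  k8 1 4)))), (.s k2 k1 0 (.s k22 k62 5 (.s k41 k60 6 (.d k43 k40 k23 0 5))))] .n) (.c k190 (.q k150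
  [(.s k34 k17 4 (.s k38 k46 1 (.s k25 k12 6 (.d k59 k55 k8 1 4)))), (.s k2 k1 0 (.s k22 k62 5 (.s
  k41 k60 6 (.d k43 k40 k23 0 5))))] .n) .n))) (.c k35 (.q k42 [(.s k2 k1 0 (.s k22 k62 5 (.s k41
  k60 6 (.d k43 k40 k23 0 5)))), (.s k34 k17 4 (.s k38 k46 1 (.s k25 k12 6 (.d k59 k55 k8 1 4))))]
  (.c k150 (.q k190 [(.s k34 k17 4 (.s k38 k46 1 (.s k25 k12 6 (.d k59 k55 k8 1 4)))), (.s k2 k1 0
  (.s k22 k62 5 (.s k41 k60 6 (.d k43 k40 k23 0 5))))] .n) (.c k190 (.q k150 [(.s k34 k17 4 (.s k38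
  k46 1 (.s k25 k12 6 (.d k59 k55 k8 1 4)))), (.s k2 k1 0 (.s k22 k62 5 (.s k41 k60 6 (.d k43 k40
  k23 0 5))))] .n) .n))) (.c k150 (.q k190 [(.s k19 k35 3 (.s k23 k43 5 (.s k27 k31 1 (.s k39 k15 5
  (.d k55 k59 k7 1 3))))), (.s k2 k1 0 (.s k34 k17 4 (.s k18 k50 3 (.s k33 k48 4 (.d k35 k32 k19 0
  3)))))] (.c k19 (.q k42 [(.s k34 k17 4 (.s k38 k46 1 (.s k25 k12 6 (.d k59 k55 k8 1 4)))), (.s k2
  k1 0 (.s k22 k62 5 (.s k41 k60 6 (.d k43 k40 k23 0 5))))] .n) (.c k35 (.q k42 [(.s k34 k17 4 (.s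
  k38 k46 1 (.s k25 k12 6 (.d k59 k55 k8 1 4)))), (.s k2 k1 0 (.s k22 k62 5 (.s k41 k60 6 (.d k43
  k40 k23 0 5))))] .n) .n))) (.c k190 (.q k150 [(.s k19 k35 3 (.s k23 k43 5 (.s k27 k31 1 (.s k39
  k15 5 (.d k55 k59 k7 1 3))))), (.s k2 k1 0 (.s k34 k17 4 (.s k18 k50 3 (.s k33 k48 4 (.d k35 k32
  k19 0 3)))))] (.c k19 (.q k42 [(.s k34 k17 4 (.s k38 k46 1 (.s k25 k12 6 (.d k59 k55 k8 1 4)))),
  (.s k2 k1 0 (.s k22 k62 5 (.s k41 k60 6 (.d k43 k40 k23 0 5))))] .n) (.c k35 (.q k42 [(.s k34 k17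
  4 (.s k38 k46 1 (.s k25 k12 6 (.d k59 k55 k8 1 4)))), (.s k2 k1 0 (.s k22 k62 5 (.s k41 k60 6 (.d
  k43 k40 k23 0 5))))] .n) .n))) .n)))))

def t21_131 : T TT 256 :=
  (.q k192 [(.s k2 k1 0 (.s k66 k129 8 (.s k130 k194 7 (.s k65 k195 8 (.d k64 k128 k67 7 0))))), (.s
  k23 k43 5 (.s k129 k66 8 (.s k149 k106 14 (.s k86 k212 8 (.d k169 k189 k252 5 14))))), (.s k1 k2 0
  (.s k43 k23 5 (.s k106 k149 14 (.s k169 k232 8 (.s k85 k253 13 (.d k64 k128 k127 7 6))))))] .n)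

def t21_132 : T TT 256 :=
  (.q k192 [(.s k1 k2 0 (.s k128 k64 7 (.s k129 k66 8 (.s k65 k193 7 (.d k130 k131 k195 0 8))))),
  (.s k23 k43 5 (.s k129 k66 8 (.s k149 k106 14 (.s k86 k212 8 (.d k169 k189 k252 5 14))))), (.s k1
  k2 0 (.s k43 k23 5 (.s k106 k149 14 (.s k169 k232 8 (.s k85 k253 13 (.d k64 k128 k127 7 6))))))]
  (.c k86 (.l (.s k2 k1 0 (.s k64 k128 7 (.s k66 k129 8 (.s k130 k194 7 (.d k65 k67 k195 0 8))))))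
  .n))

def t21_133 : T TT 256 :=
  (.q k192 [(.s k23 k43 5 (.s k129 k66 8 (.s k149 k106 14 (.s k86 k212 8 (.d k169 k189 k252 5
  14))))), (.s k1 k2 0 (.s k128 k64 7 (.s k129 k66 8 (.s k65 k193 7 (.d k130 k131 k195 0 8))))), (.s
  k1 k2 0 (.s k43 k23 5 (.s k106 k149 14 (.s k169 k232 8 (.s k85 k253 13 (.d k64 k128 k127 7
  6))))))] (.c k86 (.l (.s k2 k1 0 (.s k64 k128 7 (.s k66 k129 8 (.s k130 k194 7 (.d k65 k67 k195 0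
  8)))))) .n))

def t21_134 : T TT 256 :=
  (.q k192 [(.s k1 k2 0 (.s k128 k64 7 (.s k129 k66 8 (.s k65 k193 7 (.d k130 k131 k195 0 8))))),
  (.s k23 k43 5 (.s k129 k66 8 (.s k149 k106 14 (.s k86 k212 8 (.d k169 k189 k252 5 14))))), (.s k1
  k2 0 (.s k43 k23 5 (.s k106 k149 14 (.s k169 k232 8 (.s k85 k253 13 (.d k64 k128 k127 7 6))))))]
  (.c k86 (.l (.s k2 k1 0 (.s k64 k128 7 (.s k66 k129 8 (.s k130 k194 7 (.d k65 k67 k195 0 8))))))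
  .n))

def t21_135 : T TT 256 :=
  (.q k192 [(.s k1 k2 0 (.s k128 k64 7 (.s k129 k66 8 (.s k65 k193 7 (.d k130 k131 k195 0 8))))),
  (.s k23 k43 5 (.s k129 k66 8 (.s k149 k106 14 (.s k86 k212 8 (.d k169 k189 k252 5 14))))), (.s k1
  k2 0 (.s k43 k23 5 (.s k106 k149 14 (.s k169 k232 8 (.s k85 k253 13 (.d k64 k128 k127 7 6))))))]
  (.c k86 (.l (.s k2 k1 0 (.s k64 k128 7 (.s k66 k129 8 (.s k130 k194 7 (.d k65 k67 k195 0 8))))))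
  .n))

def t21_136 : T TT 256 :=
  (.q k192 [(.s k1 k2 0 (.s k128 k64 7 (.s k129 k66 8 (.s k65 k193 7 (.d k130 k131 k195 0 8))))),
  (.s k23 k43 5 (.s k129 k66 8 (.s k149 k106 14 (.s k86 k212 8 (.d k169 k189 k252 5 14))))), (.s k1
  k2 0 (.s k43 k23 5 (.s k106 k149 14 (.s k169 k232 8 (.s k85 k253 13 (.d k64 k128 k127 7 6))))))]
  (.c k86 (.l (.s k2 k1 0 (.s k64 k128 7 (.s k66 k129 8 (.s k130 k194 7 (.d k65 k67 k195 0 8))))))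
  (.c k153 (.q k187 [(.s k1 k2 0 (.s k128 k64 7 (.s k129 k66 8 (.s k65 k193 7 (.d k130 k131 k195 0
  8))))), (.s k23 k43 5 (.s k129 k66 8 (.s k149 k106 14 (.s k86 k212 8 (.d k169 k189 k252 5 14))))),
  (.s k1 k2 0 (.s k43 k23 5 (.s k106 k149 14 (.s k169 k232 8 (.s k85 k253 13 (.d k64 k128 k127 7
  6))))))] (.c k86 (.l (.s k2 k1 0 (.s k64 k128 7 (.s k66 k129 8 (.s k130 k194 7 (.d k65 k67 k195 0
  8)))))) .n)) (.c k187 (.q k153 [(.s k1 k2 0 (.s k128 k64 7 (.s k129 k66 8 (.s k65 k193 7 (.d k130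
  k131 k195 0 8))))), (.s k106 k149 14 (.s k59 k200 12 (.s k51 k55 1 (.s k98 k145 12 (.d k102 k110
  k204 1 14)))))] (.c k128 (.l (.s k23 k43 5 (.s k129 k66 8 (.s k149 k106 14 (.s k86 k212 8 (.d k169
  k189 k252 5 14)))))) .n)) .n))))

def t21_137 : T TT 256 :=
  (.q k192 [(.s k1 k2 0 (.s k128 k64 7 (.s k129 k66 8 (.s k65 k193 7 (.d k130 k131 k195 0 8))))),
  (.s k23 k43 5 (.s k129 k66 8 (.s k149 k106 14 (.s k86 k212 8 (.d k169 k189 k252 5 14))))), (.s k1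
  k2 0 (.s k43 k23 5 (.s k106 k149 14 (.s k169 k232 8 (.s k85 k253 13 (.d k64 k128 k127 7 6))))))]
  (.c k86 (.l (.s k2 k1 0 (.s k64 k128 7 (.s k66 k129 8 (.s k130 k194 7 (.d k65 k67 k195 0 8))))))
  .n))

def t21_138 : T TT 256 :=
  (.q k192 [(.s k23 k43 5 (.s k129 k66 8 (.s k149 k106 14 (.s k86 k212 8 (.d k169 k189 k252 5
  14))))), (.s k1 k2 0 (.s k128 k64 7 (.s k129 k66 8 (.s k65 k193 7 (.d k130 k131 k195 0 8))))), (.s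
  k1 k2 0 (.s k43 k23 5 (.s k106 k149 14 (.s k169 k232 8 (.s k85 k253 13 (.d k64 k128 k127 7
  6))))))] (.c k86 (.l (.s k2 k1 0 (.s k64 k128 7 (.s k66 k129 8 (.s k130 k194 7 (.d k65 k67 k195 0
  8)))))) (.c k154 (.q k186 [(.s k1 k2 0 (.s k128 k64 7 (.s k129 k66 8 (.s k65 k193 7 (.d k130 k131
  k195 0 8))))), (.s k23 k43 5 (.s k129 k66 8 (.s k149 k106 14 (.s k86 k212 8 (.d k169 k189 k252 5
  14))))), (.s k1 k2 0 (.s k43 k23 5 (.s k106 k149 14 (.s k169 k232 8 (.s k85 k253 13 (.d k64 k128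
  k127 7 6))))))] (.c k86 (.l (.s k2 k1 0 (.s k64 k128 7 (.s k66 k129 8 (.s k130 k194 7 (.d k65 k67
  k195 0 8)))))) .n)) (.c k186 (.q k154 [(.s k23 k43 5 (.s k129 k66 8 (.s k149 k106 14 (.s k86 k212
  8 (.d k169 k189 k252 5 14))))), (.s k106 k149 14 (.s k58 k202 11 (.s k48 k53 2 (.s k96 k144 11 (.d
  k101 k111 k207 2 14))))), (.s k1 k2 0 (.s k128 k64 7 (.s k129 k66 8 (.s k65 k193 7 (.d k130 k131
  k195 0 8)))))] .n) .n))))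

def t21_139 : T TT 256 :=
  (.q k192 [(.s k1 k2 0 (.s k128 k64 7 (.s k129 k66 8 (.s k65 k193 7 (.d k130 k131 k195 0 8))))),
  (.s k23 k43 5 (.s k129 k66 8 (.s k149 k106 14 (.s k86 k212 8 (.d k169 k189 k252 5 14))))), (.s k1
  k2 0 (.s k43 k23 5 (.s k106 k149 14 (.s k169 k232 8 (.s k85 k253 13 (.d k64 k128 k127 7 6))))))]
  (.c k86 (.l (.s k2 k1 0 (.s k64 k128 7 (.s k66 k129 8 (.s k130 k194 7 (.d k65 k67 k195 0 8))))))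
  .n))

def t21_140 : T TT 256 :=
  (.q k192 [(.s k1 k2 0 (.s k128 k64 7 (.s k129 k66 8 (.s k65 k193 7 (.d k130 k131 k195 0 8))))),
  (.s k23 k43 5 (.s k129 k66 8 (.s k149 k106 14 (.s k86 k212 8 (.d k169 k189 k252 5 14))))), (.s k1
  k2 0 (.s k43 k23 5 (.s k106 k149 14 (.s k169 k232 8 (.s k85 k253 13 (.d k64 k128 k127 7 6))))))]
  (.c k86 (.l (.s k2 k1 0 (.s k64 k128 7 (.s k66 k129 8 (.s k130 k194 7 (.d k65 k67 k195 0 8))))))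
  .n))

def t21_141 : T TT 256 :=
  (.q k192 [(.s k1 k2 0 (.s k128 k64 7 (.s k129 k66 8 (.s k65 k193 7 (.d k130 k131 k195 0 8))))),
  (.s k23 k43 5 (.s k129 k66 8 (.s k149 k106 14 (.s k86 k212 8 (.d k169 k189 k252 5 14))))), (.s k1
  k2 0 (.s k43 k23 5 (.s k106 k149 14 (.s k169 k232 8 (.s k85 k253 13 (.d k64 k128 k127 7 6))))))]
  (.c k86 (.l (.s k2 k1 0 (.s k64 k128 7 (.s k66 k129 8 (.s k130 k194 7 (.d k65 k67 k195 0 8))))))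
  .n))

def t21_142 : T TT 256 :=
  (.q k192 [(.s k1 k2 0 (.s k128 k64 7 (.s k129 k66 8 (.s k65 k193 7 (.d k130 k131 k195 0 8))))),
  (.s k23 k43 5 (.s k129 k66 8 (.s k149 k106 14 (.s k86 k212 8 (.d k169 k189 k252 5 14))))), (.s k1
  k2 0 (.s k43 k23 5 (.s k106 k149 14 (.s k169 k232 8 (.s k85 k253 13 (.d k64 k128 k127 7 6))))))]
  (.c k86 (.l (.s k2 k1 0 (.s k64 k128 7 (.s k66 k129 8 (.s k130 k194 7 (.d k65 k67 k195 0 8))))))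
  .n))

def t21_143 : T TT 256 :=
  (.q k192 [(.s k1 k2 0 (.s k128 k64 7 (.s k129 k66 8 (.s k65 k193 7 (.d k130 k131 k195 0 8))))),
  (.s k23 k43 5 (.s k129 k66 8 (.s k149 k106 14 (.s k86 k212 8 (.d k169 k189 k252 5 14))))), (.s k1
  k2 0 (.s k43 k23 5 (.s k106 k149 14 (.s k169 k232 8 (.s k85 k253 13 (.d k64 k128 k127 7 6))))))]
  (.c k86 (.l (.s k2 k1 0 (.s k64 k128 7 (.s k66 k129 8 (.s k130 k194 7 (.d k65 k67 k195 0 8))))))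
  .n))

def t21_144 : T TT 256 :=
  (.q k192 [(.s k1 k2 0 (.s k128 k64 7 (.s k129 k66 8 (.s k65 k193 7 (.d k130 k131 k195 0 8))))),
  (.s k23 k43 5 (.s k129 k66 8 (.s k149 k106 14 (.s k86 k212 8 (.d k169 k189 k252 5 14))))), (.s k1
  k2 0 (.s k43 k23 5 (.s k106 k149 14 (.s k169 k232 8 (.s k85 k253 13 (.d k64 k128 k127 7 6))))))]
  (.c k86 (.l (.s k2 k1 0 (.s k64 k128 7 (.s k66 k129 8 (.s k130 k194 7 (.d k65 k67 k195 0 8))))))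
  .n))

def t21_145 : T TT 256 :=
  (.q k192 [(.s k23 k43 5 (.s k129 k66 8 (.s k149 k106 14 (.s k86 k212 8 (.d k169 k189 k252 5
  14))))), (.s k1 k2 0 (.s k128 k64 7 (.s k129 k66 8 (.s k65 k193 7 (.d k130 k131 k195 0 8))))), (.s
  k1 k2 0 (.s k43 k23 5 (.s k106 k149 14 (.s k169 k232 8 (.s k85 k253 13 (.d k64 k128 k127 7
  6))))))] (.c k86 (.l (.s k2 k1 0 (.s k64 k128 7 (.s k66 k129 8 (.s k130 k194 7 (.d k65 k67 k195 0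
  8)))))) .n))

def t21_146 : T TT 256 :=
  (.q k130 [(.s k195 k65 8 (.s k23 k43 5 (.s k151 k107 13 (.s k87 k215 7 (.s k171 k255 13 (.d k131
  k191 k67 5 7)))))), (.s k1 k2 0 (.s k65 k195 8 (.s k129 k193 7 (.s k192 k66 8 (.d k128 k131 k64 0
  7))))), (.s k2 k1 0 (.s k66 k194 7 (.s k43 k23 5 (.s k192 k129 8 (.s k106 k149 14 (.s k169 k232 8
  (.d k86 k126 k252 5 14)))))))] (.c k65 (.q k149 [(.s k2 k1 0 (.s k66 k194 7 (.d k192 k129 k106 8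
  14))), (.s k23 k43 5 (.s k86 k212 8 (.s k252 k169 14 (.s k106 k192 14 (.d k126 k66 k189 5 8)))))]
  (.c k66 (.l (.s k43 k23 5 (.s k106 k192 14 (.s k169 k232 8 (.s k252 k86 14 (.d k189 k129 k126 5
  8)))))) (.c k106 (.l (.s k2 k1 0 (.s k66 k194 7 (.s k23 k43 5 (.s k129 k192 8 (.s k86 k212 8 (.d
  k169 k252 k189 14 5))))))) (.c k192 (.l (.s k2 k1 0 (.s k66 k194 7 (.s k23 k43 5 (.s k86 k212 8
  (.s k252 k169 14 (.d k126 k106 k189 5 8))))))) .n)))) .n))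

def t21_147 : T TT 256 :=
  (.q k192 [(.s k1 k2 0 (.s k128 k64 7 (.s k129 k66 8 (.s k65 k193 7 (.d k130 k131 k195 0 8))))),
  (.s k23 k43 5 (.s k129 k66 8 (.s k149 k106 14 (.s k86 k212 8 (.d k169 k189 k252 5 14))))), (.s k1
  k2 0 (.s k43 k23 5 (.s k106 k149 14 (.s k169 k232 8 (.s k85 k253 13 (.d k64 k128 k127 7 6))))))]
  (.c k86 (.l (.s k2 k1 0 (.s k64 k128 7 (.s k66 k129 8 (.s k130 k194 7 (.d k65 k67 k195 0 8))))))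
  .n))

def t21_148 : T TT 256 :=
  (.q k192 [(.s k1 k2 0 (.s k128 k64 7 (.s k129 k66 8 (.s k65 k193 7 (.d k130 k131 k195 0 8))))),
  (.s k23 k43 5 (.s k129 k66 8 (.s k149 k106 14 (.s k86 k212 8 (.d k169 k189 k252 5 14))))), (.s k1
  k2 0 (.s k43 k23 5 (.s k106 k149 14 (.s k169 k232 8 (.s k85 k253 13 (.d k64 k128 k127 7 6))))))]
  (.c k86 (.l (.s k2 k1 0 (.s k64 k128 7 (.s k66 k129 8 (.s k130 k194 7 (.d k65 k67 k195 0 8))))))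
  .n))

def t21_149 : T TT 256 :=
  (.q k15 [(.s k1 k2 0 (.s k5 k10 2 (.s k9 k13 1 (.s k6 k12 2 (.d k7 k4 k11 0 1))))), (.s k7 k11 1
  (.s k23 k43 5 (.s k39 k55 3 (.s k27 k51 5 (.d k31 k19 k47 1 3)))))] (.c k4 (.l (.s k2 k1 0 (.s k10
  k5 2 (.s k6 k14 1 (.s k9 k12 2 (.d k11 k7 k8 1 0)))))) (.c k7 (.q k192 [(.s k1 k2 0 (.s k128 k64 7
  (.s k129 k66 8 (.s k130 k131 0 (.d k65 k193 k195 7 8))))), (.s k5 k10 2 (.s k128 k64 7 (.s k133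
  k74 10 (.s k69 k197 7 (.d k138 k143 k207 2 10)))))] (.c k64 (.l (.s k1 k2 0 (.s k5 k10 2 (.s k13
  k9 1 (.s k129 k66 8 (.s k133 k74 10 (.d k193 k65 k73 7 9))))))) (.c k85 (.q k213 [(.s k1 k2 0 (.s
  k129 k66 8 (.s k65 k193 7 (.s k130 k195 8 (.d k128 k131 k64 0 7))))), (.s k5 k10 2 (.s k128 k64 7
  (.s k133 k74 10 (.s k69 k197 7 (.d k138 k143 k207 2 10)))))] (.c k64 (.l (.s k1 k2 0 (.s k5 k10 2
  (.s k13 k9 1 (.s k129 k66 8 (.s k133 k74 10 (.d k193 k65 k73 7 9))))))) (.c k128 (.q k191 [(.d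
  k255 k234 k127 6 7), (.s k1 k2 0 (.s k5 k10 2 (.s k13 k9 1 (.s k129 k66 8 (.s k193 k65 7 (.d k133
  k73 k74 9 10))))))] .n) (.c k191 (.l (.s k128 k64 7 (.s k1 k2 0 (.s k129 k66 8 (.s k65 k193 7 (.d
  k130 k131 k195 0 8)))))) .n)))) (.c k128 (.q k191 [(.s k47 k31 3 (.s k255 k127 7 (.s k175 k95 11
  (.s k111 k239 7 (.d k159 k143 k207 3 11))))), (.s k1 k2 0 (.s k5 k10 2 (.s k13 k9 1 (.s k129 k66 8
  (.s k193 k65 7 (.d k133 k73 k74 9 10))))))] (.c k85 (.q k213 [(.d k255 k234 k127 6 7), (.s k1 k2 0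
  (.s k5 k10 2 (.s k13 k9 1 (.s k129 k66 8 (.s k193 k65 7 (.d k133 k73 k74 9 10))))))] .n) (.c k90
  (.l (.s k43 k23 5 (.s k255 k127 7 (.s k171 k87 13 (.s k107 k235 7 (.d k151 k131 k195 5 13))))))
  (.c k213 (.q k85 [(.s k1 k2 0 (.s k169 k253 13 (.s k86 k252 14 (.s k255 k127 7 (.d k87 k84 k171 0
  13))))), (.s k5 k10 2 (.s k165 k245 11 (.s k47 k31 3 (.s k106 k224 10 (.d k127 k64 k255 6 7))))),
  (.s k1 k2 0 (.s k169 k253 13 (.s k43 k23 5 (.s k232 k106 8 (.d k252 k212 k86 5 14)))))] .n) .n))))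
  (.c k191 (.l (.s k128 k64 7 (.s k1 k2 0 (.s k129 k66 8 (.s k65 k193 7 (.d k130 k131 k195 0 8))))))
  (.c k213 (.q k85 [(.s k1 k2 0 (.s k128 k64 7 (.s k129 k66 8 (.s k130 k131 0 (.d k65 k193 k195 7
  8))))), (.s k5 k10 2 (.s k128 k64 7 (.s k133 k74 10 (.s k69 k197 7 (.d k138 k143 k207 2 10)))))]
  (.c k64 (.l (.s k1 k2 0 (.s k169 k253 13 (.s k43 k23 5 (.s k232 k106 8 (.d k252 k212 k86 5
  14)))))) (.c k128 (.q k191 [(.s k1 k2 0 (.s k169 k253 13 (.s k86 k252 14 (.s k255 k127 7 (.d k87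
  k84 k171 0 13))))), (.s k5 k10 2 (.s k165 k245 11 (.s k47 k31 3 (.s k106 k224 10 (.d k127 k64 k255
  6 7))))), (.s k1 k2 0 (.s k169 k253 13 (.s k43 k23 5 (.s k232 k106 8 (.d k252 k212 k86 5 14)))))]
  .n) (.c k191 (.l (.s k128 k64 7 (.s k1 k2 0 (.s k129 k66 8 (.s k65 k193 7 (.d k130 k131 k195 0
  8)))))) .n)))) .n)))))) (.c k11 (.q k192 [(.s k1 k2 0 (.s k128 k64 7 (.s k129 k66 8 (.s k130 k131
  0 (.d k65 k193 k195 7 8))))), (.s k5 k10 2 (.s k128 k64 7 (.s k133 k74 10 (.s k69 k197 7 (.d k138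
  k143 k207 2 10)))))] (.c k64 (.l (.s k1 k2 0 (.s k5 k10 2 (.s k129 k66 8 (.s k133 k74 10 (.s k69
  k197 7 (.d k137 k141 k205 1 9))))))) (.c k85 (.q k213 [(.s k1 k2 0 (.s k129 k66 8 (.s k65 k193 7
  (.s k130 k195 8 (.d k128 k131 k64 0 7))))), (.s k5 k10 2 (.s k128 k64 7 (.s k133 k74 10 (.s k69
  k197 7 (.d k138 k143 k207 2 10)))))] (.c k64 (.l (.s k1 k2 0 (.s k5 k10 2 (.s k129 k66 8 (.s k133
  k74 10 (.s k69 k197 7 (.d k137 k141 k205 1 9))))))) (.c k128 (.q k191 [(.d k255 k234 k127 6 7),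
  (.s k1 k2 0 (.s k5 k10 2 (.s k129 k66 8 (.s k193 k65 7 (.s k133 k74 10 (.d k13 k9 k73 1 9))))))]
  .n) (.c k191 (.l (.s k128 k64 7 (.s k1 k2 0 (.s k129 k66 8 (.s k65 k193 7 (.d k130 k131 k195 0
  8)))))) .n)))) (.c k128 (.q k191 [(.s k43 k23 5 (.s k255 k127 7 (.s k171 k87 13 (.s k107 k235 7
  (.d k151 k131 k195 5 13))))), (.s k47 k31 3 (.s k255 k127 7 (.s k175 k95 11 (.s k111 k239 7 (.d
  k159 k143 k207 3 11))))), (.s k1 k2 0 (.s k5 k10 2 (.s k129 k66 8 (.s k193 k65 7 (.s k133 k74 10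
  (.d k13 k9 k73 1 9))))))] (.c k85 (.q k213 [(.d k255 k234 k127 6 7), (.s k1 k2 0 (.s k5 k10 2 (.s
  k129 k66 8 (.s k193 k65 7 (.s k133 k74 10 (.d k13 k9 k73 1 9))))))] .n) (.c k213 (.q k85 [(.s k1
  k2 0 (.s k169 k253 13 (.s k86 k252 14 (.s k255 k127 7 (.d k87 k84 k171 0 13))))), (.s k5 k10 2 (.s
  k165 k245 11 (.s k47 k31 3 (.s k106 k224 10 (.d k127 k64 k255 6 7))))), (.s k1 k2 0 (.s k169 k253
  13 (.s k43 k23 5 (.s k232 k106 8 (.d k252 k212 k86 5 14)))))] .n) .n))) (.c k191 (.l (.s k128 k64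
  7 (.s k1 k2 0 (.s k129 k66 8 (.s k65 k193 7 (.d k130 k131 k195 0 8)))))) (.c k213 (.q k85 [(.s k1
  k2 0 (.s k128 k64 7 (.s k129 k66 8 (.s k130 k131 0 (.d k65 k193 k195 7 8))))), (.s k5 k10 2 (.s
  k128 k64 7 (.s k133 k74 10 (.s k69 k197 7 (.d k138 k143 k207 2 10)))))] (.c k64 (.l (.s k1 k2 0
  (.s k169 k253 13 (.s k43 k23 5 (.s k232 k106 8 (.d k252 k212 k86 5 14)))))) (.c k128 (.q k191 [(.s
  k1 k2 0 (.s k169 k253 13 (.s k86 k252 14 (.s k255 k127 7 (.d k87 k84 k171 0 13))))), (.s k5 k10 2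
  (.s k165 k245 11 (.s k47 k31 3 (.s k106 k224 10 (.d k127 k64 k255 6 7))))), (.s k1 k2 0 (.s k169
  k253 13 (.s k43 k23 5 (.s k232 k106 8 (.d k252 k212 k86 5 14)))))] .n) (.c k191 (.l (.s k128 k64 7
  (.s k1 k2 0 (.s k129 k66 8 (.s k65 k193 7 (.d k130 k131 k195 0 8)))))) .n)))) .n)))))) (.c k85 (.q
  k213 [(.s k1 k2 0 (.s k5 k10 2 (.s k9 k13 1 (.s k6 k12 2 (.d k7 k4 k11 0 1))))), (.s k7 k11 1 (.s
  k23 k43 5 (.s k39 k55 3 (.s k27 k51 5 (.d k31 k19 k47 1 3)))))] (.c k4 (.l (.s k2 k1 0 (.s k10 k5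
  2 (.s k6 k14 1 (.s k9 k12 2 (.d k11 k7 k8 1 0)))))) (.c k7 (.q k192 [(.s k1 k2 0 (.s k129 k66 8
  (.s k65 k193 7 (.s k130 k195 8 (.d k128 k131 k64 0 7))))), (.s k5 k10 2 (.s k128 k64 7 (.s k133
  k74 10 (.s k69 k197 7 (.d k138 k143 k207 2 10)))))] (.c k64 (.l (.s k1 k2 0 (.s k5 k10 2 (.s k13
  k9 1 (.s k129 k66 8 (.s k133 k74 10 (.d k193 k65 k73 7 9))))))) (.c k128 (.q k191 [(.d k255 k234
  k127 6 7), (.s k1 k2 0 (.s k5 k10 2 (.s k13 k9 1 (.s k129 k66 8 (.s k193 k65 7 (.d k133 k73 k74 9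
  10))))))] .n) (.c k191 (.l (.s k128 k64 7 (.s k1 k2 0 (.s k129 k66 8 (.s k65 k193 7 (.d k130 k131
  k195 0 8)))))) .n)))) (.c k11 (.q k192 [(.s k1 k2 0 (.s k129 k66 8 (.s k65 k193 7 (.s k130 k195 8
  (.d k128 k131 k64 0 7))))), (.s k5 k10 2 (.s k128 k64 7 (.s k133 k74 10 (.s k69 k197 7 (.d k138
  k143 k207 2 10)))))] (.c k64 (.l (.s k1 k2 0 (.s k5 k10 2 (.s k129 k66 8 (.s k133 k74 10 (.s k69
  k197 7 (.d k137 k141 k205 1 9))))))) (.c k128 (.q k191 [(.d k255 k234 k127 6 7), (.s k1 k2 0 (.s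
  k5 k10 2 (.s k129 k66 8 (.s k193 k65 7 (.s k133 k74 10 (.d k13 k9 k73 1 9))))))] .n) (.c k191 (.l
  (.s k128 k64 7 (.s k1 k2 0 (.s k129 k66 8 (.s k65 k193 7 (.d k130 k131 k195 0 8)))))) .n)))) (.c
  k128 (.q k191 [(.s k1 k2 0 (.s k5 k10 2 (.s k9 k13 1 (.s k6 k12 2 (.d k7 k4 k11 0 1))))), (.s k43
  k23 5 (.s k255 k127 7 (.s k171 k87 13 (.s k107 k235 7 (.d k151 k131 k195 5 13)))))] (.c k86 (.l
  (.s k2 k1 0 (.s k10 k5 2 (.s k6 k14 1 (.s k9 k12 2 (.d k11 k8 k7 0 1)))))) .n)) (.c k191 (.q k128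
  [(.s k1 k2 0 (.s k5 k10 2 (.s k9 k13 1 (.s k6 k12 2 (.d k7 k4 k11 0 1))))), (.s k5 k10 2 (.s k192
  k64 7 (.s k133 k74 10 (.s k69 k197 7 (.d k138 k143 k207 2 10))))), (.s k1 k2 0 (.s k192 k64 7 (.s
  k129 k66 8 (.s k65 k193 7 (.d k130 k131 k195 0 8)))))] .n) .n)))))) (.c k128 (.q k191 [(.s k1 k2 0
  (.s k5 k10 2 (.s k9 k13 1 (.s k6 k12 2 (.d k7 k4 k11 0 1))))), (.s k43 k23 5 (.s k255 k127 7 (.s
  k171 k87 13 (.s k107 k235 7 (.d k151 k131 k195 5 13)))))] (.c k85 (.q k213 [(.s k1 k2 0 (.s k5 k10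
  2 (.s k9 k13 1 (.s k6 k12 2 (.d k7 k4 k11 0 1))))), (.s k43 k23 5 (.s k255 k127 7 (.s k171 k87 13
  (.s k107 k235 7 (.d k151 k131 k195 5 13)))))] (.c k86 (.l (.s k2 k1 0 (.s k10 k5 2 (.s k6 k14 1
  (.s k9 k12 2 (.d k11 k8 k7 0 1)))))) .n)) (.c k86 (.l (.s k2 k1 0 (.s k10 k5 2 (.s k6 k14 1 (.s k9
  k12 2 (.d k11 k8 k7 0 1)))))) (.c k213 (.q k85 [(.s k1 k2 0 (.s k5 k10 2 (.s k9 k13 1 (.s k6 k12 2
  (.d k7 k4 k11 0 1))))), (.s k5 k10 2 (.s k165 k245 11 (.s k47 k31 3 (.s k106 k224 10 (.d k127 k64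
  k255 6 7))))), (.s k1 k2 0 (.s k169 k253 13 (.s k43 k23 5 (.s k106 k232 8 (.d k127 k64 k255 6
  7)))))] .n) .n)))) (.c k191 (.q k128 [(.s k1 k2 0 (.s k5 k10 2 (.s k9 k13 1 (.s k6 k12 2 (.d k7 k4
  k11 0 1))))), (.s k5 k10 2 (.s k192 k64 7 (.s k133 k74 10 (.s k69 k197 7 (.d k138 k143 k207 2
  10))))), (.s k1 k2 0 (.s k192 k64 7 (.s k129 k66 8 (.s k65 k193 7 (.d k130 k131 k195 0 8)))))] (.c
  k85 (.q k213 [(.s k1 k2 0 (.s k5 k10 2 (.s k9 k13 1 (.s k6 k12 2 (.d k7 k4 k11 0 1))))), (.s k5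
  k10 2 (.s k192 k64 7 (.s k133 k74 10 (.s k69 k197 7 (.d k138 k143 k207 2 10))))), (.s k1 k2 0 (.s
  k192 k64 7 (.s k129 k66 8 (.s k65 k193 7 (.d k130 k131 k195 0 8)))))] .n) (.c k213 (.q k85 [(.s k1
  k2 0 (.s k5 k10 2 (.s k9 k13 1 (.s k6 k12 2 (.d k7 k4 k11 0 1))))), (.s k5 k10 2 (.s k64 k192 7
  (.s k165 k245 11 (.s k47 k31 3 (.d k106 k127 k224 6 10))))), (.s k1 k2 0 (.s k64 k192 7 (.s k169
  k253 13 (.s k43 k23 5 (.d k106 k127 k232 6 8)))))] .n) .n))) (.c k213 (.q k85 [(.s k1 k2 0 (.s k5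
  k10 2 (.s k9 k13 1 (.s k6 k12 2 (.d k7 k4 k11 0 1))))), (.s k7 k11 1 (.s k23 k43 5 (.s k39 k55 3
  (.s k27 k51 5 (.d k31 k19 k47 1 3))))), (.s k1 k2 0 (.s k5 k10 2 (.s k169 k253 13 (.s k165 k245 11
  (.s k161 k173 1 (.d k240 k90 k82 14 12))))))] (.c k128 (.q k191 [(.s k1 k2 0 (.s k5 k10 2 (.s k9
  k13 1 (.s k6 k12 2 (.d k7 k4 k11 0 1))))), (.s k5 k10 2 (.s k165 k245 11 (.s k47 k31 3 (.s k106
  k224 10 (.d k127 k64 k255 6 7))))), (.s k1 k2 0 (.s k169 k253 13 (.s k43 k23 5 (.s k106 k232 8 (.d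
  k127 k64 k255 6 7)))))] .n) (.c k191 (.q k128 [(.s k1 k2 0 (.s k5 k10 2 (.s k9 k13 1 (.s k6 k12 2
  (.d k7 k4 k11 0 1))))), (.s k5 k10 2 (.s k64 k192 7 (.s k165 k245 11 (.s k47 k31 3 (.d k106 k127
  k224 6 10))))), (.s k1 k2 0 (.s k64 k192 7 (.s k169 k253 13 (.s k43 k23 5 (.d k106 k127 k232 6
  8)))))] .n) .n))) .n))))))))

def t21_150 : T TT 256 :=
  (.q k130 [(.s k1 k2 0 (.s k65 k195 8 (.s k129 k193 7 (.s k192 k66 8 (.d k128 k131 k64 0 7))))),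
  (.s k195 k65 8 (.s k23 k43 5 (.s k151 k107 13 (.s k87 k215 7 (.s k171 k255 13 (.d k131 k191 k67 5
  7)))))), (.s k2 k1 0 (.s k66 k194 7 (.s k43 k23 5 (.s k192 k129 8 (.s k106 k149 14 (.s k169 k232 8
  (.d k86 k126 k252 5 14)))))))] (.c k65 (.q k192 [(.s k128 k64 7 (.d k129 k66 k131 8 0)), (.s k2 k1
  0 (.d k66 k129 k194 8 7)), (.s k1 k2 0 (.s k43 k23 5 (.s k106 k149 14 (.s k169 k232 8 (.s k85 k253
  13 (.d k64 k128 k127 7 6))))))] .n) .n))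

def t21_151 : T TT 256 :=
  (.f k23 k43 5 (.q k7 [(.s k15 k11 1 (.s k31 k47 3 (.s k27 k19 1 (.d k39 k55 k51 3 5)))), (.s k1 k2
  0 (.s k15 k11 1 (.s k5 k10 2 (.s k9 k13 1 (.d k6 k4 k12 0 2)))))] (.c k11 (.q k27 [(.s k39 k55 3
  (.s k15 k51 5 (.d k31 k19 k47 1 3))), (.s k1 k2 0 (.s k19 k31 1 (.s k51 k35 3 (.s k17 k34 4 (.s
  k33 k49 3 (.d k18 k16 k48 0 4)))))), (.s k1 k2 0 (.s k39 k55 3 (.s k15 k51 5 (.s k5 k10 2 (.s k9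
  k13 1 (.d k6 k4 k12 0 2))))))] (.c k39 (.q k35 [(.d k19 k31 k51 1 3)] (.c k19 (.q k149 [(.s k86
  k212 8 (.s k169 k252 14 (.s k129 k189 5 (.d k192 k66 k106 8 14)))), (.s k86 k212 8 (.s k165 k244
  12 (.s k181 k133 3 (.s k240 k122 10 (.s k82 k161 12 (.d k90 k94 k15 1 14)))))), (.s k2 k1 0 (.s
  k192 k106 14 (.s k64 k128 7 (.s k66 k129 8 (.s k130 k194 7 (.d k65 k67 k195 0 8))))))] .n) (.c k31
  (.l (.s k2 k1 0 (.s k51 k19 3 (.s k34 k17 4 (.s k18 k50 3 (.d k33 k32 k48 0 4)))))) (.c k51 (.l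
  (.s k1 k2 0 (.s k31 k19 1 (.s k15 k47 3 (.s k5 k10 2 (.s k9 k13 1 (.d k6 k4 k12 0 2))))))) .n))))
  (.c k51 (.l (.s k1 k2 0 (.s k31 k19 1 (.s k15 k47 3 (.s k5 k10 2 (.s k9 k13 1 (.d k6 k4 k12 0
  2))))))) .n))) (.c k15 (.l (.s k1 k2 0 (.s k55 k39 3 (.s k51 k59 1 (.s k17 k34 4 (.s k33 k49 3 (.s
  k18 k48 4 (.d k19 k35 k16 3 0)))))))) (.c k27 (.l (.s k1 k2 0 (.s k55 k39 3 (.s k15 k11 1 (.s k59
  k51 1 (.s k5 k10 2 (.s k9 k13 1 (.d k6 k4 k12 0 2)))))))) (.c k59 (.l (.s k39 k55 3 (.s k15 k11 1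
  (.s k27 k51 5 (.d k31 k19 k47 1 3))))) .n))))))

def t21_152 : T TT 256 :=
  (.f k23 k43 5 (.q k7 [(.s k15 k11 1 (.s k31 k47 3 (.s k27 k19 1 (.d k39 k55 k51 3 5)))), (.s k1 k2
  0 (.s k15 k11 1 (.s k5 k10 2 (.s k9 k13 1 (.d k6 k4 k12 0 2)))))] (.c k11 (.q k27 [(.s k39 k55 3
  (.s k15 k51 5 (.d k31 k19 k47 1 3))), (.s k1 k2 0 (.s k19 k31 1 (.s k51 k35 3 (.s k17 k34 4 (.s
  k33 k49 3 (.d k18 k16 k48 0 4)))))), (.s k1 k2 0 (.s k39 k55 3 (.s k15 k51 5 (.s k5 k10 2 (.s k9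
  k13 1 (.d k6 k4 k12 0 2))))))] (.c k39 (.q k35 [(.d k19 k31 k51 1 3)] (.c k19 (.q k149 [(.s k86
  k212 8 (.s k169 k252 14 (.s k129 k189 5 (.d k192 k66 k106 8 14)))), (.s k86 k212 8 (.s k165 k244
  12 (.s k181 k133 3 (.s k240 k122 10 (.s k82 k161 12 (.d k90 k94 k15 1 14)))))), (.s k2 k1 0 (.s
  k192 k106 14 (.s k64 k128 7 (.s k66 k129 8 (.s k130 k194 7 (.d k65 k67 k195 0 8))))))] .n) (.c k31
  (.l (.s k2 k1 0 (.s k51 k19 3 (.s k34 k17 4 (.s k18 k50 3 (.d k33 k32 k48 0 4)))))) (.c k51 (.l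
  (.s k1 k2 0 (.s k31 k19 1 (.s k15 k47 3 (.s k5 k10 2 (.s k9 k13 1 (.d k6 k4 k12 0 2))))))) .n))))
  (.c k51 (.l (.s k1 k2 0 (.s k31 k19 1 (.s k15 k47 3 (.s k5 k10 2 (.s k9 k13 1 (.d k6 k4 k12 0
  2))))))) .n))) (.c k15 (.l (.s k1 k2 0 (.s k55 k39 3 (.s k51 k59 1 (.s k17 k34 4 (.s k33 k49 3 (.s
  k18 k48 4 (.d k19 k35 k16 3 0)))))))) (.c k27 (.l (.s k1 k2 0 (.s k55 k39 3 (.s k15 k11 1 (.s k59
  k51 1 (.s k5 k10 2 (.s k9 k13 1 (.d k6 k4 k12 0 2)))))))) (.c k59 (.l (.s k39 k55 3 (.s k15 k11 1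
  (.s k27 k51 5 (.d k31 k19 k47 1 3))))) .n))))))

def t21_153 : T TT 256 :=
  (.q k192 [(.s k1 k2 0 (.s k128 k64 7 (.s k129 k66 8 (.s k65 k193 7 (.d k130 k131 k195 0 8))))),
  (.s k23 k43 5 (.s k129 k66 8 (.s k149 k106 14 (.s k86 k212 8 (.d k169 k189 k252 5 14))))), (.s k1
  k2 0 (.s k43 k23 5 (.s k106 k149 14 (.s k169 k232 8 (.s k85 k253 13 (.d k64 k128 k127 7 6))))))]
  (.c k86 (.l (.s k2 k1 0 (.s k64 k128 7 (.s k66 k129 8 (.s k130 k194 7 (.d k65 k67 k195 0 8))))))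
  (.c k136 (.q k187 [(.s k1 k2 0 (.s k128 k64 7 (.s k129 k66 8 (.s k65 k193 7 (.d k130 k131 k195 0
  8))))), (.s k23 k43 5 (.s k129 k66 8 (.s k149 k106 14 (.s k86 k212 8 (.d k169 k189 k252 5 14))))),
  (.s k1 k2 0 (.s k43 k23 5 (.s k106 k149 14 (.s k169 k232 8 (.s k85 k253 13 (.d k64 k128 k127 7
  6))))))] (.c k86 (.l (.s k2 k1 0 (.s k64 k128 7 (.s k66 k129 8 (.s k130 k194 7 (.d k65 k67 k195 0
  8)))))) .n)) (.c k187 (.q k136 [(.s k1 k2 0 (.s k128 k64 7 (.s k129 k66 8 (.s k65 k193 7 (.d k130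
  k131 k195 0 8))))), (.s k64 k128 7 (.s k68 k204 9 (.s k72 k76 1 (.s k8 k200 7 (.d k12 k4 k132 1
  9))))), (.s k1 k2 0 (.s k204 k68 9 (.s k137 k70 10 (.s k69 k205 9 (.d k138 k139 k207 0 10)))))]
  .n) .n))))

def t21_154 : T TT 256 :=
  (.q k192 [(.s k1 k2 0 (.s k128 k64 7 (.s k129 k66 8 (.s k65 k193 7 (.d k130 k131 k195 0 8))))),
  (.s k23 k43 5 (.s k129 k66 8 (.s k149 k106 14 (.s k86 k212 8 (.d k169 k189 k252 5 14))))), (.s k1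
  k2 0 (.s k43 k23 5 (.s k106 k149 14 (.s k169 k232 8 (.s k85 k253 13 (.d k64 k128 k127 7 6))))))]
  (.c k86 (.l (.s k2 k1 0 (.s k64 k128 7 (.s k66 k129 8 (.s k130 k194 7 (.d k65 k67 k195 0 8))))))
  (.c k138 (.q k186 [(.s k1 k2 0 (.s k128 k64 7 (.s k129 k66 8 (.s k65 k193 7 (.d k130 k131 k195 0
  8))))), (.s k23 k43 5 (.s k129 k66 8 (.s k149 k106 14 (.s k86 k212 8 (.d k169 k189 k252 5 14))))),
  (.s k1 k2 0 (.s k43 k23 5 (.s k106 k149 14 (.s k169 k232 8 (.s k85 k253 13 (.d k64 k128 k127 7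
  6))))))] (.c k86 (.l (.s k2 k1 0 (.s k64 k128 7 (.s k66 k129 8 (.s k130 k194 7 (.d k65 k67 k195 0
  8)))))) .n)) (.c k186 (.q k138 [(.s k1 k2 0 (.s k128 k64 7 (.s k129 k66 8 (.s k65 k193 7 (.d k130
  k131 k195 0 8))))), (.s k64 k128 7 (.s k69 k207 10 (.s k74 k79 2 (.s k10 k202 7 (.d k15 k5 k133 2
  10))))), (.s k1 k2 0 (.s k69 k207 10 (.s k137 k205 9 (.s k204 k70 10 (.d k136 k139 k68 0 9)))))]
  .n) .n))))

def t21_155 : T TT 256 :=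
  (.q k192 [(.s k1 k2 0 (.s k128 k64 7 (.s k129 k66 8 (.s k65 k193 7 (.d k130 k131 k195 0 8))))),
  (.s k23 k43 5 (.s k129 k66 8 (.s k149 k106 14 (.s k86 k212 8 (.d k169 k189 k252 5 14))))), (.s k1
  k2 0 (.s k43 k23 5 (.s k106 k149 14 (.s k169 k232 8 (.s k85 k253 13 (.d k64 k128 k127 7 6))))))]
  (.c k86 (.l (.s k2 k1 0 (.s k64 k128 7 (.s k66 k129 8 (.s k130 k194 7 (.d k65 k67 k195 0 8))))))
  .n))

def t21_156 : T TT 256 :=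
  (.q k192 [(.s k1 k2 0 (.s k128 k64 7 (.s k129 k66 8 (.s k65 k193 7 (.d k130 k131 k195 0 8))))),
  (.s k23 k43 5 (.s k129 k66 8 (.s k149 k106 14 (.s k86 k212 8 (.d k169 k189 k252 5 14))))), (.s k1
  k2 0 (.s k43 k23 5 (.s k106 k149 14 (.s k169 k232 8 (.s k85 k253 13 (.d k64 k128 k127 7 6))))))]
  (.c k86 (.l (.s k2 k1 0 (.s k64 k128 7 (.s k66 k129 8 (.s k130 k194 7 (.d k65 k67 k195 0 8))))))
  .n))

def t21_157 : T TT 256 :=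
  (.q k192 [(.s k1 k2 0 (.s k128 k64 7 (.s k129 k66 8 (.s k65 k193 7 (.d k130 k131 k195 0 8))))),
  (.s k23 k43 5 (.s k129 k66 8 (.s k149 k106 14 (.s k86 k212 8 (.d k169 k189 k252 5 14))))), (.s k1
  k2 0 (.s k43 k23 5 (.s k106 k149 14 (.s k169 k232 8 (.s k85 k253 13 (.d k64 k128 k127 7 6))))))]
  (.c k86 (.l (.s k2 k1 0 (.s k64 k128 7 (.s k66 k129 8 (.s k130 k194 7 (.d k65 k67 k195 0 8))))))
  .n))

def t21_158 : T TT 256 :=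
  (.f k23 k43 5 (.q k7 [(.s k15 k11 1 (.s k31 k47 3 (.s k27 k19 1 (.d k39 k55 k51 3 5)))), (.s k1 k2
  0 (.s k15 k11 1 (.s k5 k10 2 (.s k9 k13 1 (.d k6 k4 k12 0 2)))))] (.c k11 (.q k27 [(.s k39 k55 3
  (.s k15 k51 5 (.d k31 k19 k47 1 3))), (.s k1 k2 0 (.s k19 k31 1 (.s k51 k35 3 (.s k17 k34 4 (.s
  k33 k49 3 (.d k18 k16 k48 0 4)))))), (.s k1 k2 0 (.s k39 k55 3 (.s k15 k51 5 (.s k5 k10 2 (.s k9
  k13 1 (.d k6 k4 k12 0 2))))))] (.c k39 (.q k35 [(.d k19 k31 k51 1 3)] (.c k19 (.q k149 [(.s k86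
  k212 8 (.s k169 k252 14 (.s k129 k189 5 (.d k192 k66 k106 8 14)))), (.s k86 k212 8 (.s k165 k244
  12 (.s k181 k133 3 (.s k240 k122 10 (.s k82 k161 12 (.d k90 k94 k15 1 14)))))), (.s k2 k1 0 (.s
  k192 k106 14 (.s k64 k128 7 (.s k66 k129 8 (.s k130 k194 7 (.d k65 k67 k195 0 8))))))] .n) (.c k31
  (.l (.s k2 k1 0 (.s k51 k19 3 (.s k34 k17 4 (.s k18 k50 3 (.d k33 k32 k48 0 4)))))) (.c k51 (.l
  (.s k1 k2 0 (.s k31 k19 1 (.s k15 k47 3 (.s k5 k10 2 (.s k9 k13 1 (.d k6 k4 k12 0 2))))))) .n))))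
  (.c k51 (.l (.s k1 k2 0 (.s k31 k19 1 (.s k15 k47 3 (.s k5 k10 2 (.s k9 k13 1 (.d k6 k4 k12 0
  2))))))) .n))) (.c k15 (.l (.s k1 k2 0 (.s k55 k39 3 (.s k51 k59 1 (.s k17 k34 4 (.s k33 k49 3 (.s
  k18 k48 4 (.d k19 k35 k16 3 0)))))))) (.c k27 (.l (.s k1 k2 0 (.s k55 k39 3 (.s k15 k11 1 (.s k59
  k51 1 (.s k5 k10 2 (.s k9 k13 1 (.d k6 k4 k12 0 2)))))))) (.c k59 (.l (.s k39 k55 3 (.s k15 k11 1
  (.s k27 k51 5 (.d k31 k19 k47 1 3))))) .n))))))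

def t21_159 : T TT 256 :=
  (.q k192 [(.s k1 k2 0 (.s k128 k64 7 (.s k129 k66 8 (.s k65 k193 7 (.d k130 k131 k195 0 8))))),
  (.s k23 k43 5 (.s k129 k66 8 (.s k149 k106 14 (.s k86 k212 8 (.d k169 k189 k252 5 14))))), (.s k1
  k2 0 (.s k43 k23 5 (.s k106 k149 14 (.s k169 k232 8 (.s k85 k253 13 (.d k64 k128 k127 7 6))))))]
  (.c k86 (.l (.s k2 k1 0 (.s k64 k128 7 (.s k66 k129 8 (.s k130 k194 7 (.d k65 k67 k195 0 8))))))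
  .n))

def t21_160 : T TT 256 :=
  (.q k192 [(.s k1 k2 0 (.s k128 k64 7 (.s k129 k66 8 (.s k65 k193 7 (.d k130 k131 k195 0 8))))),
  (.s k23 k43 5 (.s k129 k66 8 (.s k149 k106 14 (.s k86 k212 8 (.d k169 k189 k252 5 14))))), (.s k1
  k2 0 (.s k43 k23 5 (.s k106 k149 14 (.s k169 k232 8 (.s k85 k253 13 (.d k64 k128 k127 7 6))))))]
  (.c k86 (.l (.s k2 k1 0 (.s k64 k128 7 (.s k66 k129 8 (.s k130 k194 7 (.d k65 k67 k195 0 8))))))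
  (.c k165 (.q k175 [(.s k1 k2 0 (.s k128 k64 7 (.s k129 k66 8 (.s k65 k193 7 (.d k130 k131 k195 0
  8))))), (.s k23 k43 5 (.s k129 k66 8 (.s k149 k106 14 (.s k86 k212 8 (.d k169 k189 k252 5 14))))),
  (.s k1 k2 0 (.s k43 k23 5 (.s k106 k149 14 (.s k169 k232 8 (.s k85 k253 13 (.d k64 k128 k127 7
  6))))))] (.c k86 (.l (.s k2 k1 0 (.s k64 k128 7 (.s k66 k129 8 (.s k130 k194 7 (.d k65 k67 k195 0
  8)))))) .n)) (.c k175 (.q k165 [(.s k1 k2 0 (.s k128 k64 7 (.s k129 k66 8 (.s k65 k193 7 (.d k130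
  k131 k195 0 8))))), (.s k106 k149 14 (.s k47 k224 10 (.s k15 k31 3 (.s k74 k133 10 (.d k90 k122
  k240 3 14)))))] (.c k128 (.l (.s k23 k43 5 (.s k129 k66 8 (.s k149 k106 14 (.s k86 k212 8 (.d k169
  k189 k252 5 14)))))) .n)) .n))))

def t21_161 : T TT 256 :=
  (.q k192 [(.s k1 k2 0 (.s k128 k64 7 (.s k129 k66 8 (.s k65 k193 7 (.d k130 k131 k195 0 8))))),
  (.s k23 k43 5 (.s k129 k66 8 (.s k149 k106 14 (.s k86 k212 8 (.d k169 k189 k252 5 14))))), (.s k1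
  k2 0 (.s k43 k23 5 (.s k106 k149 14 (.s k169 k232 8 (.s k85 k253 13 (.d k64 k128 k127 7 6))))))]
  (.c k86 (.l (.s k2 k1 0 (.s k64 k128 7 (.s k66 k129 8 (.s k130 k194 7 (.d k65 k67 k195 0 8))))))
  .n))

def t21_162 : T TT 256 :=
  (.q k192 [(.s k23 k43 5 (.s k129 k66 8 (.s k149 k106 14 (.s k86 k212 8 (.d k169 k189 k252 5
  14))))), (.s k1 k2 0 (.s k128 k64 7 (.s k129 k66 8 (.s k65 k193 7 (.d k130 k131 k195 0 8))))), (.s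
  k1 k2 0 (.s k43 k23 5 (.s k106 k149 14 (.s k169 k232 8 (.s k85 k253 13 (.d k64 k128 k127 7
  6))))))] (.c k86 (.l (.s k2 k1 0 (.s k64 k128 7 (.s k66 k129 8 (.s k130 k194 7 (.d k65 k67 k195 0
  8)))))) (.c k166 (.q k174 [(.s k1 k2 0 (.s k128 k64 7 (.s k129 k66 8 (.s k65 k193 7 (.d k130 k131
  k195 0 8))))), (.s k23 k43 5 (.s k129 k66 8 (.s k149 k106 14 (.s k86 k212 8 (.d k169 k189 k252 5
  14))))), (.s k1 k2 0 (.s k43 k23 5 (.s k106 k149 14 (.s k169 k232 8 (.s k85 k253 13 (.d k64 k128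
  k127 7 6))))))] (.c k86 (.l (.s k2 k1 0 (.s k64 k128 7 (.s k66 k129 8 (.s k130 k194 7 (.d k65 k67
  k195 0 8)))))) .n)) (.c k174 (.q k166 [(.s k23 k43 5 (.s k129 k66 8 (.s k149 k106 14 (.s k86 k212
  8 (.d k169 k189 k252 5 14))))), (.s k106 k149 14 (.s k46 k226 9 (.s k12 k29 4 (.s k72 k132 9 (.d
  k89 k123 k243 4 14))))), (.s k1 k2 0 (.s k128 k64 7 (.s k129 k66 8 (.s k65 k193 7 (.d k130 k131
  k195 0 8)))))] .n) .n))))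

def t21_163 : T TT 256 :=
  (.q k192 [(.s k1 k2 0 (.s k128 k64 7 (.s k129 k66 8 (.s k65 k193 7 (.d k130 k131 k195 0 8))))),
  (.s k23 k43 5 (.s k129 k66 8 (.s k149 k106 14 (.s k86 k212 8 (.d k169 k189 k252 5 14))))), (.s k1
  k2 0 (.s k43 k23 5 (.s k106 k149 14 (.s k169 k232 8 (.s k85 k253 13 (.d k64 k128 k127 7 6))))))]
  (.c k86 (.l (.s k2 k1 0 (.s k64 k128 7 (.s k66 k129 8 (.s k130 k194 7 (.d k65 k67 k195 0 8))))))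
  .n))

def t21_164 : T TT 256 :=
  (.q k192 [(.s k1 k2 0 (.s k128 k64 7 (.s k129 k66 8 (.s k65 k193 7 (.d k130 k131 k195 0 8))))),
  (.s k23 k43 5 (.s k129 k66 8 (.s k149 k106 14 (.s k86 k212 8 (.d k169 k189 k252 5 14))))), (.s k1
  k2 0 (.s k43 k23 5 (.s k106 k149 14 (.s k169 k232 8 (.s k85 k253 13 (.d k64 k128 k127 7 6))))))]
  (.c k86 (.l (.s k2 k1 0 (.s k64 k128 7 (.s k66 k129 8 (.s k130 k194 7 (.d k65 k67 k195 0 8))))))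
  .n))

def t21_165 : T TT 256 :=
  (.q k192 [(.s k1 k2 0 (.s k128 k64 7 (.s k129 k66 8 (.s k65 k193 7 (.d k130 k131 k195 0 8))))),
  (.s k23 k43 5 (.s k129 k66 8 (.s k149 k106 14 (.s k86 k212 8 (.d k169 k189 k252 5 14))))), (.s k1
  k2 0 (.s k43 k23 5 (.s k106 k149 14 (.s k169 k232 8 (.s k85 k253 13 (.d k64 k128 k127 7 6))))))]
  (.c k86 (.l (.s k2 k1 0 (.s k64 k128 7 (.s k66 k129 8 (.s k130 k194 7 (.d k65 k67 k195 0 8))))))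
  (.c k160 (.q k175 [(.s k1 k2 0 (.s k128 k64 7 (.s k129 k66 8 (.s k65 k193 7 (.d k130 k131 k195 0
  8))))), (.s k23 k43 5 (.s k129 k66 8 (.s k149 k106 14 (.s k86 k212 8 (.d k169 k189 k252 5 14))))),
  (.s k1 k2 0 (.s k43 k23 5 (.s k106 k149 14 (.s k169 k232 8 (.s k85 k253 13 (.d k64 k128 k127 7
  6))))))] (.c k86 (.l (.s k2 k1 0 (.s k64 k128 7 (.s k66 k129 8 (.s k130 k194 7 (.d k65 k67 k195 0
  8)))))) .n)) (.c k175 (.q k160 [(.s k1 k2 0 (.s k128 k64 7 (.s k129 k66 8 (.s k65 k193 7 (.d k130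
  k131 k195 0 8))))), (.s k64 k128 7 (.s k80 k240 11 (.s k96 k112 3 (.s k32 k224 7 (.d k48 k16 k144
  3 11))))), (.s k1 k2 0 (.s k240 k80 11 (.s k161 k82 12 (.s k81 k241 11 (.d k162 k163 k243 0
  12)))))] .n) .n))))

def t21_166 : T TT 256 :=
  (.q k192 [(.s k1 k2 0 (.s k128 k64 7 (.s k129 k66 8 (.s k65 k193 7 (.d k130 k131 k195 0 8))))),
  (.s k23 k43 5 (.s k129 k66 8 (.s k149 k106 14 (.s k86 k212 8 (.d k169 k189 k252 5 14))))), (.s k1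
  k2 0 (.s k43 k23 5 (.s k106 k149 14 (.s k169 k232 8 (.s k85 k253 13 (.d k64 k128 k127 7 6))))))]
  (.c k86 (.l (.s k2 k1 0 (.s k64 k128 7 (.s k66 k129 8 (.s k130 k194 7 (.d k65 k67 k195 0 8))))))
  (.c k162 (.q k174 [(.s k1 k2 0 (.s k128 k64 7 (.s k129 k66 8 (.s k65 k193 7 (.d k130 k131 k195 0
  8))))), (.s k23 k43 5 (.s k129 k66 8 (.s k149 k106 14 (.s k86 k212 8 (.d k169 k189 k252 5 14))))),
  (.s k1 k2 0 (.s k43 k23 5 (.s k106 k149 14 (.s k169 k232 8 (.s k85 k253 13 (.d k64 k128 k127 7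
  6))))))] (.c k86 (.l (.s k2 k1 0 (.s k64 k128 7 (.s k66 k129 8 (.s k130 k194 7 (.d k65 k67 k195 0
  8)))))) .n)) (.c k174 (.q k162 [(.s k1 k2 0 (.s k128 k64 7 (.s k129 k66 8 (.s k65 k193 7 (.d k130
  k131 k195 0 8))))), (.s k64 k128 7 (.s k81 k243 12 (.s k98 k115 4 (.s k34 k226 7 (.d k51 k17 k145
  4 12))))), (.s k1 k2 0 (.s k81 k243 12 (.s k161 k241 11 (.s k240 k82 12 (.d k160 k163 k80 0
  11)))))] .n) .n))))

def t21_167 : T TT 256 :=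
  (.q k130 [(.s k1 k2 0 (.s k65 k195 8 (.s k129 k193 7 (.s k192 k66 8 (.d k128 k131 k64 0 7))))),
  (.s k195 k65 8 (.s k23 k43 5 (.s k151 k107 13 (.s k87 k215 7 (.s k171 k255 13 (.d k131 k191 k67 5
  7)))))), (.s k2 k1 0 (.s k66 k194 7 (.s k43 k23 5 (.s k192 k129 8 (.s k106 k149 14 (.s k169 k232 8
  (.d k86 k126 k252 5 14)))))))] (.c k65 (.q k149 [(.s k2 k1 0 (.s k66 k194 7 (.d k192 k129 k106 8
  14))), (.s k23 k43 5 (.s k86 k212 8 (.s k252 k169 14 (.s k106 k192 14 (.d k126 k66 k189 5 8)))))]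
  (.c k66 (.l (.s k43 k23 5 (.s k106 k192 14 (.s k169 k232 8 (.s k252 k86 14 (.d k189 k129 k126 5
  8)))))) (.c k106 (.l (.s k2 k1 0 (.s k66 k194 7 (.s k23 k43 5 (.s k129 k192 8 (.s k86 k212 8 (.d
  k169 k252 k189 14 5))))))) (.c k192 (.l (.s k2 k1 0 (.s k66 k194 7 (.s k23 k43 5 (.s k86 k212 8
  (.s k252 k169 14 (.d k126 k106 k189 5 8))))))) .n)))) .n))

def t21_168 : T TT 256 :=
  (.q k192 [(.s k23 k43 5 (.s k129 k66 8 (.s k149 k106 14 (.s k86 k212 8 (.d k169 k189 k252 5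
  14))))), (.s k1 k2 0 (.s k128 k64 7 (.s k129 k66 8 (.s k65 k193 7 (.d k130 k131 k195 0 8))))), (.s
  k1 k2 0 (.s k43 k23 5 (.s k106 k149 14 (.s k169 k232 8 (.s k85 k253 13 (.d k64 k128 k127 7
  6))))))] (.c k86 (.l (.s k2 k1 0 (.s k64 k128 7 (.s k66 k129 8 (.s k130 k194 7 (.d k65 k67 k195 0
  8)))))) (.c k169 (.q k171 [(.s k23 k43 5 (.s k87 k255 13 (.s k151 k215 7 (.s k195 k107 13 (.d k131
  k191 k67 5 7))))), (.s k1 k2 0 (.s k128 k64 7 (.s k129 k66 8 (.s k65 k193 7 (.d k130 k131 k195 0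
  8)))))] (.c k67 (.l (.s k1 k2 0 (.s k128 k64 7 (.s k129 k66 8 (.s k65 k193 7 (.d k130 k131 k195 0
  8)))))) (.c k131 (.l (.s k2 k1 0 (.s k64 k128 7 (.s k66 k129 8 (.s k130 k194 7 (.d k65 k67 k195 0
  8)))))) (.c k195 (.l (.s k128 k64 7 (.s k129 k66 8 (.s k255 k87 13 (.s k191 k127 7 (.d k131 k130
  k151 0 5)))))) .n)))) (.c k171 (.q k169 [(.s k129 k66 8 (.d k149 k189 k106 5 14)), (.s k43 k23 5
  (.s k232 k106 8 (.d k252 k212 k86 5 14)))] (.c k106 (.l (.s k129 k66 8 (.s k189 k149 5 (.d k252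
  k126 k86 8 14)))) .n)) .n))))

def t21_169 : T TT 256 :=
  (.q k51 [(.s k1 k2 0 (.s k17 k34 4 (.s k33 k49 3 (.s k18 k48 4 (.d k19 k16 k35 0 3))))), (.s k19
  k35 3 (.s k23 k43 5 (.s k27 k31 1 (.s k39 k15 5 (.d k55 k59 k7 1 3))))), (.s k2 k1 0 (.s k34 k17 4
  (.s k18 k50 3 (.s k33 k48 4 (.d k35 k32 k19 0 3)))))] (.c k19 (.q k171 [(.s k23 k43 5 (.s k87 k255
  13 (.s k151 k215 7 (.s k195 k107 13 (.d k131 k191 k67 5 7))))), (.s k255 k87 13 (.s k55 k59 1 (.s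
  k119 k187 9 (.s k183 k247 7 (.s k123 k243 9 (.d k127 k115 k191 1 7)))))), (.s k43 k23 5 (.s k107
  k235 7 (.s k59 k55 1 (.s k155 k203 11 (.s k207 k103 13 (.d k139 k187 k71 3 9))))))] .n) (.c k35
  (.f k1 k2 0 (.f k17 k34 4 (.l (.s k33 k49 3 (.s k18 k48 4 (.s k23 k43 5 (.s k19 k16 0 (.s k55 k59
  1 (.s k39 k7 3 (.d k27 k31 k15 1 5)))))))))) (.c k168 (.q k171 [(.s k23 k43 5 (.s k87 k255 13 (.s
  k151 k215 7 (.s k195 k107 13 (.d k131 k191 k67 5 7))))), (.s k1 k2 0 (.s k17 k34 4 (.s k33 k49 3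
  (.s k18 k48 4 (.d k19 k16 k35 0 3)))))] .n) (.c k171 (.q k168 [(.s k1 k2 0 (.s k17 k34 4 (.s k33
  k49 3 (.s k18 k48 4 (.d k19 k16 k35 0 3))))), (.s k252 k84 13 (.s k55 k59 1 (.s k118 k185 10 (.s
  k181 k244 8 (.s k122 k240 10 (.d k126 k114 k189 1 8))))))] .n) .n)))))

def t21_171 : T TT 256 :=
  (.q k192 [(.s k1 k2 0 (.s k128 k64 7 (.s k129 k66 8 (.s k65 k193 7 (.d k130 k131 k195 0 8))))),
  (.s k23 k43 5 (.s k129 k66 8 (.s k149 k106 14 (.s k86 k212 8 (.d k169 k189 k252 5 14))))), (.s k1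
  k2 0 (.s k43 k23 5 (.s k106 k149 14 (.s k169 k232 8 (.s k85 k253 13 (.d k64 k128 k127 7 6))))))]
  (.c k86 (.l (.s k2 k1 0 (.s k64 k128 7 (.s k66 k129 8 (.s k130 k194 7 (.d k65 k67 k195 0 8))))))
  (.c k168 (.q k169 [(.s k129 k66 8 (.d k149 k189 k106 5 14)), (.s k43 k23 5 (.s k232 k106 8 (.d
  k252 k212 k86 5 14)))] (.c k106 (.l (.s k129 k66 8 (.s k189 k149 5 (.d k252 k126 k86 8 14)))) .n))
  (.c k169 (.q k168 [(.s k1 k2 0 (.s k128 k64 7 (.s k129 k66 8 (.s k65 k193 7 (.d k130 k131 k195 0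
  8))))), (.s k64 k128 7 (.s k84 k252 13 (.s k104 k124 5 (.s k40 k232 7 (.d k60 k20 k148 5 13)))))]
  (.c k64 (.q k160 [(.s k240 k80 11 (.s k84 k252 13 (.s k164 k172 1 (.s k4 k244 11 (.d k12 k8 k88 1
  13))))), (.s k1 k2 0 (.s k240 k80 11 (.s k161 k82 12 (.s k81 k241 11 (.d k162 k163 k243 0 12))))),
  (.s k252 k84 13 (.s k164 k172 1 (.s k232 k212 5 (.s k104 k40 7 (.s k224 k44 9 (.s k236 k228 1 (.d
  k32 k96 k100 7 9)))))))] (.c k96 (.l (.s k84 k252 13 (.s k164 k172 1 (.s k4 k244 11 (.s k12 k8 1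
  (.d k240 k80 k88 11 13)))))) (.c k163 (.l (.s k240 k80 11 (.s k252 k84 13 (.s k248 k244 1 (.s k88
  k8 11 (.d k164 k172 k12 1 13)))))) .n))) (.c k128 (.l (.s k252 k84 13 (.s k43 k23 5 (.s k232 k212
  5 (.s k40 k104 7 (.s k41 k42 0 (.d k60 k20 k22 5 6))))))) .n))) .n))))

def t21_172 : T TT 256 :=
  (.q k130 [(.s k1 k2 0 (.s k65 k195 8 (.s k129 k193 7 (.s k192 k66 8 (.d k128 k131 k64 0 7))))),
  (.s k195 k65 8 (.s k23 k43 5 (.s k151 k107 13 (.s k87 k215 7 (.s k171 k255 13 (.d k131 k191 k67 5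
  7)))))), (.s k2 k1 0 (.s k66 k194 7 (.s k43 k23 5 (.s k192 k129 8 (.s k106 k149 14 (.s k169 k232 8
  (.d k86 k126 k252 5 14)))))))] (.c k65 (.q k149 [(.s k2 k1 0 (.s k66 k194 7 (.d k192 k129 k106 8
  14))), (.s k23 k43 5 (.s k86 k212 8 (.s k252 k169 14 (.s k106 k192 14 (.d k126 k66 k189 5 8)))))]
  (.c k66 (.l (.s k43 k23 5 (.s k106 k192 14 (.s k169 k232 8 (.s k252 k86 14 (.d k189 k129 k126 5
  8)))))) (.c k106 (.l (.s k2 k1 0 (.s k66 k194 7 (.s k23 k43 5 (.s k129 k192 8 (.s k86 k212 8 (.d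
  k169 k252 k189 14 5))))))) (.c k192 (.l (.s k2 k1 0 (.s k66 k194 7 (.s k23 k43 5 (.s k86 k212 8
  (.s k252 k169 14 (.d k126 k106 k189 5 8))))))) .n)))) .n))

def t21_173 : T TT 256 :=
  (.q k130 [(.s k1 k2 0 (.s k65 k195 8 (.s k129 k193 7 (.s k192 k66 8 (.d k128 k131 k64 0 7))))),
  (.s k195 k65 8 (.s k23 k43 5 (.s k151 k107 13 (.s k87 k215 7 (.s k171 k255 13 (.d k131 k191 k67 5
  7)))))), (.s k2 k1 0 (.s k66 k194 7 (.s k43 k23 5 (.s k192 k129 8 (.s k106 k149 14 (.s k169 k232 8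
  (.d k86 k126 k252 5 14)))))))] (.c k65 (.q k149 [(.s k2 k1 0 (.s k66 k194 7 (.d k192 k129 k106 8
  14))), (.s k23 k43 5 (.s k86 k212 8 (.s k252 k169 14 (.s k106 k192 14 (.d k126 k66 k189 5 8)))))]
  (.c k66 (.l (.s k43 k23 5 (.s k106 k192 14 (.s k169 k232 8 (.s k252 k86 14 (.d k189 k129 k126 5
  8)))))) (.c k106 (.l (.s k2 k1 0 (.s k66 k194 7 (.s k23 k43 5 (.s k129 k192 8 (.s k86 k212 8 (.d
  k169 k252 k189 14 5))))))) (.c k192 (.l (.s k2 k1 0 (.s k66 k194 7 (.s k23 k43 5 (.s k86 k212 8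
  (.s k252 k169 14 (.d k126 k106 k189 5 8))))))) .n)))) .n))

def t21_174 : T TT 256 :=
  (.q k130 [(.s k1 k2 0 (.s k65 k195 8 (.s k129 k193 7 (.s k192 k66 8 (.d k128 k131 k64 0 7))))),
  (.s k195 k65 8 (.s k23 k43 5 (.s k151 k107 13 (.s k87 k215 7 (.s k171 k255 13 (.d k131 k191 k67 5
  7)))))), (.s k2 k1 0 (.s k66 k194 7 (.s k43 k23 5 (.s k192 k129 8 (.s k106 k149 14 (.s k169 k232 8
  (.d k86 k126 k252 5 14)))))))] (.c k65 (.f k23 k43 5 (.q k162 [(.s k1 k2 0 (.s k81 k243 12 (.s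
  k161 k241 11 (.s k240 k82 12 (.d k160 k163 k80 0 11))))), (.s k2 k1 0 (.s k194 k66 7 (.s k82 k242
  11 (.s k146 k178 3 (.s k18 k210 7 (.d k50 k34 k98 3 11)))))), (.s k243 k81 12 (.s k163 k83 11 (.s
  k146 k178 3 (.s k161 k160 0 (.s k131 k176 4 (.s k179 k147 3 (.d k128 k129 k145 0 4)))))))] (.c k82
  (.q k149 [(.s k2 k1 0 (.s k66 k194 7 (.d k192 k129 k106 8 14))), (.s k86 k212 8 (.s k169 k252 14
  (.s k192 k106 14 (.s k129 k189 5 (.d k128 k131 k64 0 7)))))] (.c k106 (.l (.s k2 k1 0 (.s k66 k194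
  7 (.s k129 k192 8 (.s k86 k212 8 (.d k169 k252 k189 14 5)))))) (.c k129 (.l (.s k86 k212 8 (.s
  k252 k169 14 (.s k106 k192 14 (.d k126 k66 k189 5 8))))) (.c k192 (.l (.s k2 k1 0 (.s k66 k194 7
  (.s k86 k212 8 (.s k252 k169 14 (.d k126 k106 k189 5 8)))))) .n)))) .n))) (.c k162 (.q k166 [(.s
  k2 k1 0 (.s k195 k65 8 (.s k66 k194 7 (.s k129 k192 8 (.d k131 k128 k67 0 7))))), (.s k195 k65 8
  (.s k23 k43 5 (.s k151 k107 13 (.s k87 k215 7 (.s k171 k255 13 (.d k131 k191 k67 5 7)))))), (.s k2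
  k1 0 (.s k66 k194 7 (.s k43 k23 5 (.s k192 k129 8 (.s k106 k149 14 (.s k169 k232 8 (.d k86 k126
  k252 5 14)))))))] (.c k65 (.q k149 [(.s k2 k1 0 (.s k66 k194 7 (.d k192 k129 k106 8 14))), (.s k23
  k43 5 (.s k86 k212 8 (.s k252 k169 14 (.s k106 k192 14 (.d k126 k66 k189 5 8)))))] (.c k66 (.l (.s
  k43 k23 5 (.s k106 k192 14 (.s k169 k232 8 (.s k252 k86 14 (.d k189 k129 k126 5 8)))))) (.c k106
  (.l (.s k2 k1 0 (.s k66 k194 7 (.s k23 k43 5 (.s k129 k192 8 (.s k86 k212 8 (.d k169 k252 k189 14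
  5))))))) (.c k192 (.l (.s k2 k1 0 (.s k66 k194 7 (.s k23 k43 5 (.s k86 k212 8 (.s k252 k169 14 (.d
  k126 k106 k189 5 8))))))) .n)))) .n)) (.c k166 (.q k162 [(.s k1 k2 0 (.s k65 k195 8 (.s k129 k193
  7 (.s k192 k66 8 (.d k128 k131 k64 0 7))))), (.s k195 k65 8 (.s k81 k243 12 (.s k146 k178 3 (.s
  k16 k211 8 (.d k48 k32 k97 3 12))))), (.s k1 k2 0 (.s k81 k243 12 (.s k161 k241 11 (.s k240 k82 12
  (.d k160 k163 k80 0 11)))))] .n) .n))))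

def t21_175 : T TT 256 :=
  (.q k192 [(.s k1 k2 0 (.s k128 k64 7 (.s k129 k66 8 (.s k65 k193 7 (.d k130 k131 k195 0 8))))),
  (.s k23 k43 5 (.s k129 k66 8 (.s k149 k106 14 (.s k86 k212 8 (.d k169 k189 k252 5 14))))), (.s k1
  k2 0 (.s k43 k23 5 (.s k106 k149 14 (.s k169 k232 8 (.s k85 k253 13 (.d k64 k128 k127 7 6))))))]
  (.c k86 (.l (.s k2 k1 0 (.s k64 k128 7 (.s k66 k129 8 (.s k130 k194 7 (.d k65 k67 k195 0 8))))))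
  (.c k160 (.q k165 [(.s k1 k2 0 (.s k128 k64 7 (.s k129 k66 8 (.s k65 k193 7 (.d k130 k131 k195 0
  8))))), (.s k106 k149 14 (.s k47 k224 10 (.s k15 k31 3 (.s k74 k133 10 (.d k90 k122 k240 3
  14)))))] (.c k128 (.l (.s k23 k43 5 (.s k129 k66 8 (.s k149 k106 14 (.s k86 k212 8 (.d k169 k189
  k252 5 14)))))) .n)) (.c k165 (.q k160 [(.s k1 k2 0 (.s k128 k64 7 (.s k129 k66 8 (.s k65 k193 7
  (.d k130 k131 k195 0 8))))), (.s k64 k128 7 (.s k80 k240 11 (.s k96 k112 3 (.s k32 k224 7 (.d k48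
  k16 k144 3 11))))), (.s k1 k2 0 (.s k240 k80 11 (.s k161 k82 12 (.s k81 k241 11 (.d k162 k163 k243
  0 12)))))] .n) .n))))

def t21_176 : T TT 256 :=
  (.q k192 [(.s k1 k2 0 (.s k128 k64 7 (.s k129 k66 8 (.s k65 k193 7 (.d k130 k131 k195 0 8))))),
  (.s k23 k43 5 (.s k129 k66 8 (.s k149 k106 14 (.s k86 k212 8 (.d k169 k189 k252 5 14))))), (.s k1
  k2 0 (.s k43 k23 5 (.s k106 k149 14 (.s k169 k232 8 (.s k85 k253 13 (.d k64 k128 k127 7 6))))))]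
  (.c k86 (.l (.s k2 k1 0 (.s k64 k128 7 (.s k66 k129 8 (.s k130 k194 7 (.d k65 k67 k195 0 8))))))
  .n))

def t21_177 : T TT 256 :=
  (.q k192 [(.s k1 k2 0 (.s k128 k64 7 (.s k129 k66 8 (.s k65 k193 7 (.d k130 k131 k195 0 8))))),
  (.s k23 k43 5 (.s k129 k66 8 (.s k149 k106 14 (.s k86 k212 8 (.d k169 k189 k252 5 14))))), (.s k1
  k2 0 (.s k43 k23 5 (.s k106 k149 14 (.s k169 k232 8 (.s k85 k253 13 (.d k64 k128 k127 7 6))))))]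
  (.c k86 (.l (.s k2 k1 0 (.s k64 k128 7 (.s k66 k129 8 (.s k130 k194 7 (.d k65 k67 k195 0 8))))))
  .n))

def t21_178 : T TT 256 :=
  (.q k130 [(.s k1 k2 0 (.s k65 k195 8 (.s k129 k193 7 (.s k192 k66 8 (.d k128 k131 k64 0 7))))),
  (.s k195 k65 8 (.s k23 k43 5 (.s k151 k107 13 (.s k87 k215 7 (.s k171 k255 13 (.d k131 k191 k67 5
  7)))))), (.s k2 k1 0 (.s k66 k194 7 (.s k43 k23 5 (.s k192 k129 8 (.s k106 k149 14 (.s k169 k232 8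
  (.d k86 k126 k252 5 14)))))))] (.c k65 (.q k149 [(.s k2 k1 0 (.s k66 k194 7 (.d k192 k129 k106 8
  14))), (.s k23 k43 5 (.s k86 k212 8 (.s k252 k169 14 (.s k106 k192 14 (.d k126 k66 k189 5 8)))))]
  (.c k66 (.l (.s k43 k23 5 (.s k106 k192 14 (.s k169 k232 8 (.s k252 k86 14 (.d k189 k129 k126 5
  8)))))) (.c k106 (.l (.s k2 k1 0 (.s k66 k194 7 (.s k23 k43 5 (.s k129 k192 8 (.s k86 k212 8 (.d
  k169 k252 k189 14 5))))))) (.c k192 (.l (.s k2 k1 0 (.s k66 k194 7 (.s k23 k43 5 (.s k86 k212 8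
  (.s k252 k169 14 (.d k126 k106 k189 5 8))))))) .n)))) .n))

def t21_179 : T TT 256 :=
  (.q k192 [(.s k1 k2 0 (.s k128 k64 7 (.s k129 k66 8 (.s k65 k193 7 (.d k130 k131 k195 0 8))))),
  (.s k23 k43 5 (.s k129 k66 8 (.s k149 k106 14 (.s k86 k212 8 (.d k169 k189 k252 5 14))))), (.s k1
  k2 0 (.s k43 k23 5 (.s k106 k149 14 (.s k169 k232 8 (.s k85 k253 13 (.d k64 k128 k127 7 6))))))]
  (.c k86 (.l (.s k2 k1 0 (.s k64 k128 7 (.s k66 k129 8 (.s k130 k194 7 (.d k65 k67 k195 0 8))))))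
  .n))

def t21_180 : T TT 256 :=
  (.q k192 [(.s k1 k2 0 (.s k128 k64 7 (.s k129 k66 8 (.s k65 k193 7 (.d k130 k131 k195 0 8))))),
  (.s k23 k43 5 (.s k129 k66 8 (.s k149 k106 14 (.s k86 k212 8 (.d k169 k189 k252 5 14))))), (.s k1
  k2 0 (.s k43 k23 5 (.s k106 k149 14 (.s k169 k232 8 (.s k85 k253 13 (.d k64 k128 k127 7 6))))))]
  (.c k86 (.l (.s k2 k1 0 (.s k64 k128 7 (.s k66 k129 8 (.s k130 k194 7 (.d k65 k67 k195 0 8))))))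
  .n))

def t21_181 : T TT 256 :=
  (.q k192 [(.s k1 k2 0 (.s k128 k64 7 (.s k129 k66 8 (.s k65 k193 7 (.d k130 k131 k195 0 8))))),
  (.s k23 k43 5 (.s k129 k66 8 (.s k149 k106 14 (.s k86 k212 8 (.d k169 k189 k252 5 14))))), (.s k1
  k2 0 (.s k43 k23 5 (.s k106 k149 14 (.s k169 k232 8 (.s k85 k253 13 (.d k64 k128 k127 7 6))))))]
  (.c k86 (.l (.s k2 k1 0 (.s k64 k128 7 (.s k66 k129 8 (.s k130 k194 7 (.d k65 k67 k195 0 8))))))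
  .n))

def t21_182 : T TT 256 :=
  (.q k130 [(.s k1 k2 0 (.s k65 k195 8 (.s k129 k193 7 (.s k192 k66 8 (.d k128 k131 k64 0 7))))),
  (.s k195 k65 8 (.s k23 k43 5 (.s k151 k107 13 (.s k87 k215 7 (.s k171 k255 13 (.d k131 k191 k67 5
  7)))))), (.s k2 k1 0 (.s k66 k194 7 (.s k43 k23 5 (.s k192 k129 8 (.s k106 k149 14 (.s k169 k232 8
  (.d k86 k126 k252 5 14)))))))] (.c k65 (.q k149 [(.s k2 k1 0 (.s k66 k194 7 (.d k192 k129 k106 8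
  14))), (.s k23 k43 5 (.s k86 k212 8 (.s k252 k169 14 (.s k106 k192 14 (.d k126 k66 k189 5 8)))))]
  (.c k66 (.l (.s k43 k23 5 (.s k106 k192 14 (.s k169 k232 8 (.s k252 k86 14 (.d k189 k129 k126 5
  8)))))) (.c k106 (.l (.s k2 k1 0 (.s k66 k194 7 (.s k23 k43 5 (.s k129 k192 8 (.s k86 k212 8 (.d
  k169 k252 k189 14 5))))))) (.c k192 (.l (.s k2 k1 0 (.s k66 k194 7 (.s k23 k43 5 (.s k86 k212 8
  (.s k252 k169 14 (.d k126 k106 k189 5 8))))))) .n)))) .n))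

def t21_183 : T TT 256 :=
  (.q k192 [(.s k1 k2 0 (.s k128 k64 7 (.s k129 k66 8 (.s k65 k193 7 (.d k130 k131 k195 0 8))))),
  (.s k23 k43 5 (.s k129 k66 8 (.s k149 k106 14 (.s k86 k212 8 (.d k169 k189 k252 5 14))))), (.s k1
  k2 0 (.s k43 k23 5 (.s k106 k149 14 (.s k169 k232 8 (.s k85 k253 13 (.d k64 k128 k127 7 6))))))]
  (.c k86 (.l (.s k2 k1 0 (.s k64 k128 7 (.s k66 k129 8 (.s k130 k194 7 (.d k65 k67 k195 0 8))))))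
  .n))

def t21_184 : T TT 256 :=
  (.q k192 [(.s k1 k2 0 (.s k128 k64 7 (.s k129 k66 8 (.s k65 k193 7 (.d k130 k131 k195 0 8))))),
  (.s k23 k43 5 (.s k129 k66 8 (.s k149 k106 14 (.s k86 k212 8 (.d k169 k189 k252 5 14))))), (.s k1
  k2 0 (.s k43 k23 5 (.s k106 k149 14 (.s k169 k232 8 (.s k85 k253 13 (.d k64 k128 k127 7 6))))))]
  (.c k86 (.l (.s k2 k1 0 (.s k64 k128 7 (.s k66 k129 8 (.s k130 k194 7 (.d k65 k67 k195 0 8))))))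
  .n))

def t21_185 : T TT 256 :=
  (.q k130 [(.s k1 k2 0 (.s k65 k195 8 (.s k129 k193 7 (.s k192 k66 8 (.d k128 k131 k64 0 7))))),
  (.s k195 k65 8 (.s k23 k43 5 (.s k151 k107 13 (.s k87 k215 7 (.s k171 k255 13 (.d k131 k191 k67 5
  7)))))), (.s k2 k1 0 (.s k66 k194 7 (.s k43 k23 5 (.s k192 k129 8 (.s k106 k149 14 (.s k169 k232 8
  (.d k86 k126 k252 5 14)))))))] (.c k65 (.q k149 [(.s k2 k1 0 (.s k66 k194 7 (.d k192 k129 k106 8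
  14))), (.s k23 k43 5 (.s k86 k212 8 (.s k252 k169 14 (.s k106 k192 14 (.d k126 k66 k189 5 8)))))]
  (.c k66 (.l (.s k43 k23 5 (.s k106 k192 14 (.s k169 k232 8 (.s k252 k86 14 (.d k189 k129 k126 5
  8)))))) (.c k106 (.l (.s k2 k1 0 (.s k66 k194 7 (.s k23 k43 5 (.s k129 k192 8 (.s k86 k212 8 (.d
  k169 k252 k189 14 5))))))) (.c k192 (.l (.s k2 k1 0 (.s k66 k194 7 (.s k23 k43 5 (.s k86 k212 8
  (.s k252 k169 14 (.d k126 k106 k189 5 8))))))) .n)))) .n))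

def t21_186 : T TT 256 :=
  (.q k192 [(.s k1 k2 0 (.s k128 k64 7 (.s k129 k66 8 (.s k65 k193 7 (.d k130 k131 k195 0 8))))),
  (.s k23 k43 5 (.s k129 k66 8 (.s k149 k106 14 (.s k86 k212 8 (.d k169 k189 k252 5 14))))), (.s k1
  k2 0 (.s k43 k23 5 (.s k106 k149 14 (.s k169 k232 8 (.s k85 k253 13 (.d k64 k128 k127 7 6))))))]
  (.c k86 (.l (.s k2 k1 0 (.s k64 k128 7 (.s k66 k129 8 (.s k130 k194 7 (.d k65 k67 k195 0 8))))))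
  (.c k138 (.q k154 [(.s k23 k43 5 (.s k129 k66 8 (.s k149 k106 14 (.s k86 k212 8 (.d k169 k189 k252
  5 14))))), (.s k106 k149 14 (.s k58 k202 11 (.s k48 k53 2 (.s k96 k144 11 (.d k101 k111 k207 2
  14))))), (.s k1 k2 0 (.s k128 k64 7 (.s k129 k66 8 (.s k65 k193 7 (.d k130 k131 k195 0 8)))))] .n)
  (.c k154 (.q k138 [(.s k1 k2 0 (.s k128 k64 7 (.s k129 k66 8 (.s k65 k193 7 (.d k130 k131 k195 0
  8))))), (.s k64 k128 7 (.s k69 k207 10 (.s k74 k79 2 (.s k10 k202 7 (.d k15 k5 k133 2 10))))), (.s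
  k1 k2 0 (.s k69 k207 10 (.s k137 k205 9 (.s k204 k70 10 (.d k136 k139 k68 0 9)))))] .n) .n))))

def t21_187 : T TT 256 :=
  (.q k130 [(.s k1 k2 0 (.s k65 k195 8 (.s k129 k193 7 (.s k192 k66 8 (.d k128 k131 k64 0 7))))),
  (.s k195 k65 8 (.s k23 k43 5 (.s k151 k107 13 (.s k87 k215 7 (.s k171 k255 13 (.d k131 k191 k67 5
  7)))))), (.s k2 k1 0 (.s k66 k194 7 (.s k43 k23 5 (.s k192 k129 8 (.s k106 k149 14 (.s k169 k232 8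
  (.d k86 k126 k252 5 14)))))))] (.c k65 (.f k23 k43 5 (.q k149 [(.s k2 k1 0 (.s k66 k194 7 (.d k192
  k129 k106 8 14))), (.s k86 k212 8 (.s k169 k252 14 (.s k192 k106 14 (.s k129 k189 5 (.d k128 k131
  k64 0 7)))))] (.c k106 (.l (.s k2 k1 0 (.s k66 k194 7 (.s k129 k192 8 (.s k86 k212 8 (.d k169 k252
  k189 14 5)))))) (.c k129 (.l (.s k86 k212 8 (.s k252 k169 14 (.s k106 k192 14 (.d k126 k66 k189 5
  8))))) (.c k136 (.q k153 [(.s k2 k1 0 (.s k66 k194 7 (.d k192 k129 k106 8 14))), (.s k86 k212 8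
  (.s k169 k252 14 (.s k192 k106 14 (.s k129 k189 5 (.d k128 k131 k64 0 7)))))] (.c k106 (.l (.s k2
  k1 0 (.s k66 k194 7 (.s k129 k192 8 (.s k86 k212 8 (.d k169 k252 k189 14 5)))))) (.c k129 (.l (.s
  k86 k212 8 (.s k252 k169 14 (.s k106 k192 14 (.d k126 k66 k189 5 8))))) (.c k192 (.l (.s k2 k1 0
  (.s k66 k194 7 (.s k86 k212 8 (.s k252 k169 14 (.d k126 k106 k189 5 8)))))) .n)))) (.c k153 (.q
  k136 [(.s k2 k1 0 (.s k66 k194 7 (.d k192 k129 k106 8 14))), (.s k1 k2 0 (.s k204 k68 9 (.s k137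
  k70 10 (.s k69 k205 9 (.d k138 k139 k207 0 10))))), (.s k192 k106 14 (.s k128 k64 7 (.d k129 k66
  k131 8 0)))] .n) (.c k192 (.l (.s k2 k1 0 (.s k66 k194 7 (.s k86 k212 8 (.s k252 k169 14 (.d k126
  k106 k189 5 8)))))) .n))))))) (.c k136 (.q k153 [(.s k1 k2 0 (.s k65 k195 8 (.s k129 k193 7 (.s
  k192 k66 8 (.d k128 k131 k64 0 7))))), (.s k195 k65 8 (.s k23 k43 5 (.s k151 k107 13 (.s k87 k215
  7 (.s k171 k255 13 (.d k131 k191 k67 5 7)))))), (.s k2 k1 0 (.s k66 k194 7 (.s k43 k23 5 (.s k192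
  k129 8 (.s k106 k149 14 (.s k169 k232 8 (.d k86 k126 k252 5 14)))))))] (.c k65 (.q k149 [(.s k2 k1
  0 (.s k66 k194 7 (.d k192 k129 k106 8 14))), (.s k23 k43 5 (.s k86 k212 8 (.s k252 k169 14 (.s
  k106 k192 14 (.d k126 k66 k189 5 8)))))] (.c k66 (.l (.s k43 k23 5 (.s k106 k192 14 (.s k169 k232
  8 (.s k252 k86 14 (.d k189 k129 k126 5 8)))))) (.c k106 (.l (.s k2 k1 0 (.s k66 k194 7 (.s k23 k43
  5 (.s k129 k192 8 (.s k86 k212 8 (.d k169 k252 k189 14 5))))))) (.c k192 (.l (.s k2 k1 0 (.s k66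
  k194 7 (.s k23 k43 5 (.s k86 k212 8 (.s k252 k169 14 (.d k126 k106 k189 5 8))))))) .n)))) .n)) (.c
  k153 (.q k136 [(.s k1 k2 0 (.s k65 k195 8 (.s k129 k193 7 (.s k192 k66 8 (.d k128 k131 k64 0
  7))))), (.s k1 k2 0 (.s k204 k68 9 (.s k137 k70 10 (.s k69 k205 9 (.d k138 k139 k207 0 10))))),
  (.s k195 k65 8 (.s k204 k68 9 (.s k131 k67 7 (.s k137 k70 10 (.s k134 k140 2 (.d k138 k139 k142 0
  1))))))] .n) .n))))

def t21_188 : T TT 256 :=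
  (.q k192 [(.s k1 k2 0 (.s k128 k64 7 (.s k129 k66 8 (.s k65 k193 7 (.d k130 k131 k195 0 8))))),
  (.s k23 k43 5 (.s k129 k66 8 (.s k149 k106 14 (.s k86 k212 8 (.d k169 k189 k252 5 14))))), (.s k1
  k2 0 (.s k43 k23 5 (.s k106 k149 14 (.s k169 k232 8 (.s k85 k253 13 (.d k64 k128 k127 7 6))))))]
  (.c k86 (.l (.s k2 k1 0 (.s k64 k128 7 (.s k66 k129 8 (.s k130 k194 7 (.d k65 k67 k195 0 8))))))
  .n))

def t21_189 : T TT 256 :=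
  (.q k130 [(.s k1 k2 0 (.s k65 k195 8 (.s k129 k193 7 (.s k192 k66 8 (.d k128 k131 k64 0 7))))),
  (.s k195 k65 8 (.s k23 k43 5 (.s k151 k107 13 (.s k87 k215 7 (.s k171 k255 13 (.d k131 k191 k67 5
  7)))))), (.s k2 k1 0 (.s k66 k194 7 (.s k43 k23 5 (.s k192 k129 8 (.s k106 k149 14 (.s k169 k232 8
  (.d k86 k126 k252 5 14)))))))] (.c k65 (.q k192 [(.s k128 k64 7 (.d k129 k66 k131 8 0)), (.s k2 k1
  0 (.d k66 k129 k194 8 7))] (.c k66 (.l (.s k1 k2 0 (.s k43 k23 5 (.s k106 k149 14 (.s k169 k232 8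
  (.s k85 k253 13 (.d k64 k128 k127 7 6))))))) (.c k129 (.l (.s k1 k2 0 (.s k43 k23 5 (.s k106 k149
  14 (.s k169 k232 8 (.s k85 k253 13 (.d k64 k128 k127 7 6))))))) .n))) .n))

def t21_190 : T TT 256 :=
  (.q k130 [(.s k1 k2 0 (.s k65 k195 8 (.s k129 k193 7 (.s k192 k66 8 (.d k128 k131 k64 0 7))))),
  (.s k195 k65 8 (.s k23 k43 5 (.s k151 k107 13 (.s k87 k215 7 (.s k171 k255 13 (.d k131 k191 k67 5
  7)))))), (.s k2 k1 0 (.s k66 k194 7 (.s k43 k23 5 (.s k192 k129 8 (.s k106 k149 14 (.s k169 k232 8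
  (.d k86 k126 k252 5 14)))))))] (.c k65 (.q k149 [(.s k2 k1 0 (.s k66 k194 7 (.d k192 k129 k106 8
  14))), (.s k23 k43 5 (.s k86 k212 8 (.s k252 k169 14 (.s k106 k192 14 (.d k126 k66 k189 5 8)))))]
  (.c k66 (.l (.s k43 k23 5 (.s k106 k192 14 (.s k169 k232 8 (.s k252 k86 14 (.d k189 k129 k126 5
  8)))))) (.c k106 (.l (.s k2 k1 0 (.s k66 k194 7 (.s k23 k43 5 (.s k129 k192 8 (.s k86 k212 8 (.d
  k169 k252 k189 14 5))))))) (.c k192 (.l (.s k2 k1 0 (.s k66 k194 7 (.s k23 k43 5 (.s k86 k212 8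
  (.s k252 k169 14 (.d k126 k106 k189 5 8))))))) .n)))) .n))

def t21_191 : T TT 256 :=
  (.q k149 [(.s k23 k43 5 (.s k86 k212 8 (.s k169 k252 14 (.s k192 k106 14 (.d k129 k189 k66 5
  8))))), (.s k2 k1 0 (.s k192 k106 14 (.s k64 k128 7 (.s k66 k129 8 (.s k130 k194 7 (.d k65 k67
  k195 0 8)))))), (.s k43 k23 5 (.s k106 k192 14 (.s k169 k232 8 (.s k252 k86 14 (.d k189 k129 k126
  5 8)))))] (.c k106 (.f k23 k43 5 (.f k86 k212 8 (.l (.s k1 k2 0 (.s k169 k252 14 (.s k253 k85 13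
  (.s k129 k189 5 (.s k193 k65 7 (.s k105 k61 13 (.d k233 k213 k41 5 7)))))))))) (.c k129 (.l (.s
  k23 k43 5 (.s k86 k212 8 (.s k252 k169 14 (.s k106 k192 14 (.d k126 k66 k189 5 8)))))) (.c k192
  (.q k130 [(.s k195 k65 8 (.s k23 k43 5 (.s k131 k67 7 (.s k86 k212 8 (.s k129 k128 0 (.d k169 k252
  k189 14 5)))))), (.s k195 k65 8 (.s k43 k23 5 (.s k67 k131 7 (.s k107 k151 13 (.s k171 k235 7 (.d
  k87 k127 k255 5 13)))))), (.s k2 k1 0 (.s k23 k43 5 (.s k86 k212 8 (.s k252 k169 14 (.s k126 k189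
  8 (.d k66 k106 k194 5 7)))))), (.s k195 k65 8 (.s k131 k67 7 (.s k151 k107 13 (.s k129 k128 0 (.s
  k169 k189 5 (.d k150 k188 k148 6 0))))))] .n) .n))))

def t21_192 : T TT 256 :=
  (.q k7 [(.s k15 k11 1 (.s k23 k43 5 (.s k31 k47 3 (.s k27 k19 1 (.d k39 k55 k51 3 5))))), (.s k1
  k2 0 (.s k15 k11 1 (.s k5 k10 2 (.s k9 k13 1 (.d k6 k4 k12 0 2)))))] (.c k11 (.q k86 [(.s k23 k43
  5 (.s k165 k244 12 (.s k149 k212 8 (.s k133 k181 3 (.s k196 k70 8 (.d k55 k39 k102 3 12)))))), (.s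
  k1 k2 0 (.s k169 k252 14 (.s k85 k253 13 (.s k165 k244 12 (.s k5 k245 11 (.s k9 k13 1 (.d k6 k4
  k12 0 2))))))), (.s k23 k43 5 (.s k55 k39 3 (.s k244 k165 12 (.s k118 k181 8 (.s k102 k70 3 (.d
  k149 k212 k196 8 12))))))] (.c k165 (.l (.s k23 k43 5 (.s k252 k169 14 (.s k55 k39 3 (.s k149 k212
  8 (.s k102 k196 12 (.s k118 k70 3 (.d k51 k59 k185 1 10)))))))) (.c k212 (.l (.s k23 k43 5 (.s
  k252 k169 14 (.s k55 k39 3 (.s k244 k165 12 (.s k118 k181 8 (.d k51 k59 k185 1 10))))))) (.c k244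
  (.q k130 [(.s k2 k1 0 (.s k66 k194 7 (.s k126 k106 5 (.d k252 k189 k169 8 14)))), (.s k195 k65 8
  (.s k23 k43 5 (.s k131 k67 7 (.s k151 k107 13 (.s k87 k215 7 (.d k171 k191 k255 5 13))))))] (.c
  k66 (.l (.s k195 k65 8 (.s k23 k43 5 (.s k252 k169 14 (.s k151 k107 13 (.s k87 k215 7 (.d k84 k168
  k85 13 0))))))) (.c k195 (.l (.s k2 k1 0 (.s k252 k169 14 (.s k126 k189 8 (.d k66 k106 k194 5
  7))))) .n))) .n)))) (.c k15 (.f k23 k43 5 (.l (.s k1 k2 0 (.s k55 k39 3 (.s k51 k59 1 (.s k17 k34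
  4 (.s k33 k49 3 (.s k18 k48 4 (.d k19 k35 k16 3 0))))))))) .n)))

def t21_193 : T TT 256 :=
  (.q k7 [(.s k15 k11 1 (.s k23 k43 5 (.s k31 k47 3 (.s k27 k19 1 (.d k39 k55 k51 3 5))))), (.s k1
  k2 0 (.s k15 k11 1 (.s k5 k10 2 (.s k9 k13 1 (.d k6 k4 k12 0 2)))))] (.c k11 (.q k138 [(.s k1 k2 0
  (.s k69 k207 10 (.s k137 k205 9 (.s k204 k70 10 (.d k136 k139 k68 0 9))))), (.s k207 k69 10 (.s
  k23 k43 5 (.s k71 k139 9 (.s k55 k39 3 (.s k199 k135 7 (.s k103 k151 11 (.d k51 k59 k155 1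
  13))))))), (.s k2 k1 0 (.s k70 k206 9 (.s k133 k196 8 (.s k128 k143 2 (.s k192 k64 7 (.s k129 k66
  8 (.d k137 k141 k204 1 10)))))))] .n) (.c k15 (.q k138 [(.s k1 k2 0 (.s k69 k207 10 (.s k137 k205
  9 (.s k204 k70 10 (.d k136 k139 k68 0 9))))), (.s k207 k69 10 (.s k23 k43 5 (.s k71 k139 9 (.s k55
  k39 3 (.s k199 k135 7 (.s k51 k59 1 (.d k103 k151 k155 11 13))))))), (.s k2 k1 0 (.s k70 k206 9
  (.s k137 k204 10 (.s k133 k196 8 (.s k128 k143 2 (.s k192 k64 7 (.d k129 k141 k66 1 8)))))))] (.c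
  k143 (.l (.s k2 k1 0 (.s k207 k69 10 (.s k70 k206 9 (.s k137 k204 10 (.d k139 k136 k71 0 9))))))
  (.c k207 (.q k192 [(.s k2 k1 0 (.s k128 k64 7 (.s k70 k206 9 (.d k133 k143 k196 2 8)))), (.s k23
  k43 5 (.s k129 k66 8 (.s k149 k106 14 (.s k86 k212 8 (.d k169 k189 k252 5 14)))))] (.c k79 (.q
  k143 [(.d k128 k133 k64 2 7), (.s k2 k1 0 (.s k70 k206 9 (.s k204 k137 10 (.d k196 k200 k133 1
  8))))] (.c k133 (.l (.s k2 k1 0 (.s k64 k128 7 (.s k66 k129 8 (.s k65 k67 0 (.d k130 k194 k195 7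
  8)))))) .n)) (.c k129 (.l (.s k1 k2 0 (.s k43 k23 5 (.s k106 k149 14 (.s k169 k232 8 (.s k85 k253
  13 (.d k64 k128 k127 7 6))))))) (.c k143 (.q k79 [(.s k2 k1 0 (.s k70 k206 9 (.s k204 k137 10 (.d
  k196 k200 k133 1 8)))), (.s k23 k43 5 (.s k129 k66 8 (.s k149 k106 14 (.s k86 k212 8 (.d k169 k189
  k252 5 14)))))] (.c k129 (.l (.s k1 k2 0 (.s k64 k128 7 (.s k69 k74 2 (.s k137 k205 9 (.s k204 k70
  10 (.d k136 k139 k68 0 9))))))) .n)) .n)))) .n))) .n)))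

def t21_194 : T TT 256 :=
  (.f k23 k43 5 (.q k7 [(.s k15 k11 1 (.s k31 k47 3 (.s k27 k19 1 (.d k39 k55 k51 3 5)))), (.s k1 k2
  0 (.s k15 k11 1 (.s k5 k10 2 (.s k9 k13 1 (.d k6 k4 k12 0 2)))))] (.c k11 (.q k86 [(.s k169 k252
  14 (.s k149 k212 8 (.s k129 k189 5 (.d k192 k66 k106 8 14)))), (.s k55 k39 3 (.s k165 k244 12 (.s
  k149 k212 8 (.s k196 k102 12 (.d k133 k181 k70 3 8))))), (.s k252 k169 14 (.s k55 k39 3 (.s k244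
  k165 12 (.s k181 k118 8 (.d k240 k248 k122 1 10)))))] (.c k27 (.q k59 [(.d k55 k51 k39 1 3), (.s
  k169 k252 14 (.s k149 k212 8 (.s k192 k106 14 (.d k129 k189 k66 5 8))))] .n) (.c k59 (.q k27 [(.s
  k39 k55 3 (.s k15 k51 5 (.d k31 k19 k47 1 3))), (.s k169 k252 14 (.s k149 k212 8 (.s k192 k106 14
  (.d k129 k189 k66 5 8))))] .n) .n))) (.c k15 (.l (.s k1 k2 0 (.s k55 k39 3 (.s k51 k59 1 (.s k17
  k34 4 (.s k33 k49 3 (.s k18 k48 4 (.d k19 k35 k16 3 0)))))))) (.c k27 (.l (.s k1 k2 0 (.s k55 k39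
  3 (.s k15 k11 1 (.s k59 k51 1 (.s k5 k10 2 (.s k9 k13 1 (.d k6 k4 k12 0 2)))))))) (.c k59 (.l (.s
  k39 k55 3 (.s k15 k11 1 (.s k27 k51 5 (.d k31 k19 k47 1 3))))) .n))))))

def t21_195 : T TT 256 :=
  (.q k51 [(.s k19 k35 3 (.s k23 k43 5 (.s k27 k31 1 (.s k39 k15 5 (.d k55 k59 k7 1 3))))), (.s k2
  k1 0 (.s k34 k17 4 (.s k18 k50 3 (.s k33 k48 4 (.d k35 k32 k19 0 3)))))] (.c k19 (.q k192 [(.s k17
  k34 4 (.s k128 k64 7 (.s k145 k98 12 (.s k81 k209 7 (.d k162 k179 k243 4 12))))), (.s k23 k43 5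
  (.s k129 k66 8 (.s k149 k106 14 (.s k86 k212 8 (.d k169 k189 k252 5 14)))))] .n) (.c k35 (.q k192
  [(.s k23 k43 5 (.s k129 k66 8 (.s k149 k106 14 (.s k86 k212 8 (.d k169 k189 k252 5 14))))), (.s
  k17 k34 4 (.s k128 k64 7 (.s k145 k98 12 (.s k81 k209 7 (.d k162 k179 k243 4 12)))))] .n) .n)))

def t21_196 : T TT 256 :=
  (.q k192 [(.s k1 k2 0 (.s k128 k64 7 (.s k129 k66 8 (.s k65 k193 7 (.d k130 k131 k195 0 8))))),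
  (.s k23 k43 5 (.s k129 k66 8 (.s k149 k106 14 (.s k86 k212 8 (.d k169 k189 k252 5 14))))), (.s k1
  k2 0 (.s k43 k23 5 (.s k106 k149 14 (.s k169 k232 8 (.s k85 k253 13 (.d k64 k128 k127 7 6))))))]
  (.c k86 (.l (.s k2 k1 0 (.s k64 k128 7 (.s k66 k129 8 (.s k130 k194 7 (.d k65 k67 k195 0 8))))))
  .n))

def t21_197 : T TT 256 :=
  (.q k192 [(.s k23 k43 5 (.s k129 k66 8 (.s k149 k106 14 (.s k86 k212 8 (.d k169 k189 k252 5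
  14))))), (.s k1 k2 0 (.s k128 k64 7 (.s k129 k66 8 (.s k65 k193 7 (.d k130 k131 k195 0 8))))), (.s
  k1 k2 0 (.s k43 k23 5 (.s k106 k149 14 (.s k169 k232 8 (.s k85 k253 13 (.d k64 k128 k127 7
  6))))))] (.c k86 (.l (.s k2 k1 0 (.s k64 k128 7 (.s k66 k129 8 (.s k130 k194 7 (.d k65 k67 k195 0
  8)))))) .n))

def t21_198 : T TT 256 :=
  (.q k192 [(.s k1 k2 0 (.s k128 k64 7 (.s k129 k66 8 (.s k65 k193 7 (.d k130 k131 k195 0 8))))),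
  (.s k23 k43 5 (.s k129 k66 8 (.s k149 k106 14 (.s k86 k212 8 (.d k169 k189 k252 5 14))))), (.s k1
  k2 0 (.s k43 k23 5 (.s k106 k149 14 (.s k169 k232 8 (.s k85 k253 13 (.d k64 k128 k127 7 6))))))]
  (.c k86 (.l (.s k2 k1 0 (.s k64 k128 7 (.s k66 k129 8 (.s k130 k194 7 (.d k65 k67 k195 0 8))))))
  .n))

def t21_199 : T TT 256 :=
  (.q k192 [(.s k1 k2 0 (.s k128 k64 7 (.s k129 k66 8 (.s k65 k193 7 (.d k130 k131 k195 0 8))))),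
  (.s k23 k43 5 (.s k129 k66 8 (.s k149 k106 14 (.s k86 k212 8 (.d k169 k189 k252 5 14))))), (.s k1
  k2 0 (.s k43 k23 5 (.s k106 k149 14 (.s k169 k232 8 (.s k85 k253 13 (.d k64 k128 k127 7 6))))))]
  (.c k86 (.l (.s k2 k1 0 (.s k64 k128 7 (.s k66 k129 8 (.s k130 k194 7 (.d k65 k67 k195 0 8))))))
  .n))

def t21_200 : T TT 256 :=
  (.q k192 [(.s k1 k2 0 (.s k128 k64 7 (.s k129 k66 8 (.s k65 k193 7 (.d k130 k131 k195 0 8))))),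
  (.s k23 k43 5 (.s k129 k66 8 (.s k149 k106 14 (.s k86 k212 8 (.d k169 k189 k252 5 14))))), (.s k1
  k2 0 (.s k43 k23 5 (.s k106 k149 14 (.s k169 k232 8 (.s k85 k253 13 (.d k64 k128 k127 7 6))))))]
  (.c k86 (.l (.s k2 k1 0 (.s k64 k128 7 (.s k66 k129 8 (.s k130 k194 7 (.d k65 k67 k195 0 8))))))
  .n))

def t21_201 : T TT 256 :=
  (.f k23 k43 5 (.q k7 [(.s k15 k11 1 (.s k31 k47 3 (.s k27 k19 1 (.d k39 k55 k51 3 5)))), (.s k1 k2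
  0 (.s k15 k11 1 (.s k5 k10 2 (.s k9 k13 1 (.d k6 k4 k12 0 2)))))] (.c k11 (.q k27 [(.s k39 k55 3
  (.s k15 k51 5 (.d k31 k19 k47 1 3))), (.s k1 k2 0 (.s k19 k31 1 (.s k51 k35 3 (.s k17 k34 4 (.s
  k33 k49 3 (.d k18 k16 k48 0 4)))))), (.s k1 k2 0 (.s k39 k55 3 (.s k15 k51 5 (.s k5 k10 2 (.s k9
  k13 1 (.d k6 k4 k12 0 2))))))] (.c k39 (.q k35 [(.d k19 k31 k51 1 3)] (.c k19 (.q k86 [(.s k169
  k252 14 (.s k149 k212 8 (.s k129 k189 5 (.d k192 k66 k106 8 14)))), (.s k1 k2 0 (.s k169 k252 14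
  (.s k85 k253 13 (.s k165 k244 12 (.s k5 k245 11 (.s k9 k13 1 (.d k6 k4 k12 0 2))))))), (.s k165
  k244 12 (.s k149 k212 8 (.s k181 k133 3 (.s k240 k122 10 (.s k82 k161 12 (.d k90 k94 k15 1
  14))))))] .n) (.c k31 (.l (.s k2 k1 0 (.s k51 k19 3 (.s k34 k17 4 (.s k18 k50 3 (.d k33 k32 k48 0
  4)))))) (.c k51 (.l (.s k1 k2 0 (.s k31 k19 1 (.s k15 k47 3 (.s k5 k10 2 (.s k9 k13 1 (.d k6 k4
  k12 0 2))))))) .n)))) (.c k51 (.l (.s k1 k2 0 (.s k31 k19 1 (.s k15 k47 3 (.s k5 k10 2 (.s k9 k13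
  1 (.d k6 k4 k12 0 2))))))) .n))) (.c k15 (.l (.s k1 k2 0 (.s k55 k39 3 (.s k51 k59 1 (.s k17 k34 4
  (.s k33 k49 3 (.s k18 k48 4 (.d k19 k35 k16 3 0)))))))) (.c k27 (.l (.s k1 k2 0 (.s k55 k39 3 (.s
  k15 k11 1 (.s k59 k51 1 (.s k5 k10 2 (.s k9 k13 1 (.d k6 k4 k12 0 2)))))))) (.c k59 (.l (.s k39
  k55 3 (.s k15 k11 1 (.s k27 k51 5 (.d k31 k19 k47 1 3))))) .n))))))

def t21_202 : T TT 256 :=
  (.q k192 [(.s k1 k2 0 (.s k128 k64 7 (.s k129 k66 8 (.s k65 k193 7 (.d k130 k131 k195 0 8))))),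
  (.s k23 k43 5 (.s k129 k66 8 (.s k149 k106 14 (.s k86 k212 8 (.d k169 k189 k252 5 14))))), (.s k1
  k2 0 (.s k43 k23 5 (.s k106 k149 14 (.s k169 k232 8 (.s k85 k253 13 (.d k64 k128 k127 7 6))))))]
  (.c k86 (.l (.s k2 k1 0 (.s k64 k128 7 (.s k66 k129 8 (.s k130 k194 7 (.d k65 k67 k195 0 8))))))
  .n))

def t21_203 : T TT 256 :=
  (.q k192 [(.s k1 k2 0 (.s k128 k64 7 (.s k129 k66 8 (.s k65 k193 7 (.d k130 k131 k195 0 8))))),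
  (.s k23 k43 5 (.s k129 k66 8 (.s k149 k106 14 (.s k86 k212 8 (.d k169 k189 k252 5 14))))), (.s k1
  k2 0 (.s k43 k23 5 (.s k106 k149 14 (.s k169 k232 8 (.s k85 k253 13 (.d k64 k128 k127 7 6))))))]
  (.c k86 (.l (.s k2 k1 0 (.s k64 k128 7 (.s k66 k129 8 (.s k130 k194 7 (.d k65 k67 k195 0 8))))))
  .n))

def t21_204 : T TT 256 :=
  (.q k192 [(.s k1 k2 0 (.s k128 k64 7 (.s k129 k66 8 (.s k65 k193 7 (.d k130 k131 k195 0 8))))),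
  (.s k23 k43 5 (.s k129 k66 8 (.s k149 k106 14 (.s k86 k212 8 (.d k169 k189 k252 5 14))))), (.s k1
  k2 0 (.s k43 k23 5 (.s k106 k149 14 (.s k169 k232 8 (.s k85 k253 13 (.d k64 k128 k127 7 6))))))]
  (.c k86 (.l (.s k2 k1 0 (.s k64 k128 7 (.s k66 k129 8 (.s k130 k194 7 (.d k65 k67 k195 0 8))))))
  .n))

def t21_205 : T TT 256 :=
  (.q k192 [(.s k23 k43 5 (.s k129 k66 8 (.s k149 k106 14 (.s k86 k212 8 (.d k169 k189 k252 5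
  14))))), (.s k1 k2 0 (.s k128 k64 7 (.s k129 k66 8 (.s k65 k193 7 (.d k130 k131 k195 0 8))))), (.s
  k1 k2 0 (.s k43 k23 5 (.s k106 k149 14 (.s k169 k232 8 (.s k85 k253 13 (.d k64 k128 k127 7
  6))))))] (.c k86 (.l (.s k2 k1 0 (.s k64 k128 7 (.s k66 k129 8 (.s k130 k194 7 (.d k65 k67 k195 0
  8)))))) .n))

def t21_206 : T TT 256 :=
  (.q k192 [(.s k23 k43 5 (.s k129 k66 8 (.s k149 k106 14 (.s k86 k212 8 (.d k169 k189 k252 5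
  14))))), (.s k1 k2 0 (.s k128 k64 7 (.s k129 k66 8 (.s k65 k193 7 (.d k130 k131 k195 0 8))))), (.s
  k1 k2 0 (.s k43 k23 5 (.s k106 k149 14 (.s k169 k232 8 (.s k85 k253 13 (.d k64 k128 k127 7
  6))))))] (.c k86 (.l (.s k2 k1 0 (.s k64 k128 7 (.s k66 k129 8 (.s k130 k194 7 (.d k65 k67 k195 0
  8)))))) .n))

def t21_207 : T TT 256 :=
  (.q k192 [(.s k1 k2 0 (.s k128 k64 7 (.s k129 k66 8 (.s k65 k193 7 (.d k130 k131 k195 0 8))))),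
  (.s k23 k43 5 (.s k129 k66 8 (.s k149 k106 14 (.s k86 k212 8 (.d k169 k189 k252 5 14))))), (.s k1
  k2 0 (.s k43 k23 5 (.s k106 k149 14 (.s k169 k232 8 (.s k85 k253 13 (.d k64 k128 k127 7 6))))))]
  (.c k86 (.l (.s k2 k1 0 (.s k64 k128 7 (.s k66 k129 8 (.s k130 k194 7 (.d k65 k67 k195 0 8))))))
  .n))

def t21_208 : T TT 256 :=
  (.q k192 [(.s k1 k2 0 (.s k128 k64 7 (.s k129 k66 8 (.s k65 k193 7 (.d k130 k131 k195 0 8))))),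
  (.s k23 k43 5 (.s k129 k66 8 (.s k149 k106 14 (.s k86 k212 8 (.d k169 k189 k252 5 14))))), (.s k1
  k2 0 (.s k43 k23 5 (.s k106 k149 14 (.s k169 k232 8 (.s k85 k253 13 (.d k64 k128 k127 7 6))))))]
  (.c k86 (.l (.s k2 k1 0 (.s k64 k128 7 (.s k66 k129 8 (.s k130 k194 7 (.d k65 k67 k195 0 8))))))
  .n))

def t21_209 : T TT 256 :=
  (.q k192 [(.s k23 k43 5 (.s k129 k66 8 (.s k149 k106 14 (.s k86 k212 8 (.d k169 k189 k252 5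
  14))))), (.s k1 k2 0 (.s k128 k64 7 (.s k129 k66 8 (.s k65 k193 7 (.d k130 k131 k195 0 8))))), (.s
  k1 k2 0 (.s k43 k23 5 (.s k106 k149 14 (.s k169 k232 8 (.s k85 k253 13 (.d k64 k128 k127 7
  6))))))] (.c k86 (.l (.s k2 k1 0 (.s k64 k128 7 (.s k66 k129 8 (.s k130 k194 7 (.d k65 k67 k195 0
  8)))))) .n))

def t21_210 : T TT 256 :=
  (.q k192 [(.s k1 k2 0 (.s k128 k64 7 (.s k129 k66 8 (.s k65 k193 7 (.d k130 k131 k195 0 8))))),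
  (.s k23 k43 5 (.s k129 k66 8 (.s k149 k106 14 (.s k86 k212 8 (.d k169 k189 k252 5 14))))), (.s k1
  k2 0 (.s k43 k23 5 (.s k106 k149 14 (.s k169 k232 8 (.s k85 k253 13 (.d k64 k128 k127 7 6))))))]
  (.c k86 (.l (.s k2 k1 0 (.s k64 k128 7 (.s k66 k129 8 (.s k130 k194 7 (.d k65 k67 k195 0 8))))))
  .n))

def t21_211 : T TT 256 :=
  (.q k192 [(.s k1 k2 0 (.s k128 k64 7 (.s k129 k66 8 (.s k65 k193 7 (.d k130 k131 k195 0 8))))),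
  (.s k23 k43 5 (.s k129 k66 8 (.s k149 k106 14 (.s k86 k212 8 (.d k169 k189 k252 5 14))))), (.s k1
  k2 0 (.s k43 k23 5 (.s k106 k149 14 (.s k169 k232 8 (.s k85 k253 13 (.d k64 k128 k127 7 6))))))]
  (.c k86 (.l (.s k2 k1 0 (.s k64 k128 7 (.s k66 k129 8 (.s k130 k194 7 (.d k65 k67 k195 0 8))))))
  .n))

def t21_212 : T TT 256 :=
  (.q k15 [(.s k7 k11 1 (.s k23 k43 5 (.s k39 k55 3 (.s k27 k51 5 (.d k31 k19 k47 1 3))))), (.s k2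
  k1 0 (.s k10 k5 2 (.s k6 k14 1 (.s k9 k12 2 (.d k11 k8 k7 0 1)))))] (.c k7 (.q k192 [(.s k1 k2 0
  (.s k128 k64 7 (.s k129 k66 8 (.s k65 k193 7 (.d k130 k131 k195 0 8))))), (.s k31 k47 3 (.s k133
  k74 10 (.s k149 k106 14 (.s k90 k208 10 (.d k165 k181 k240 3 14)))))] .n) (.c k11 (.q k192 [(.s k1
  k2 0 (.s k128 k64 7 (.s k129 k66 8 (.s k65 k193 7 (.d k130 k131 k195 0 8))))), (.s k31 k47 3 (.s
  k133 k74 10 (.s k149 k106 14 (.s k90 k208 10 (.d k165 k181 k240 3 14)))))] .n) .n)))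

def t21_213 : T TT 256 :=
  (.q k7 [(.s k15 k11 1 (.s k23 k43 5 (.s k31 k47 3 (.s k27 k19 1 (.d k39 k55 k51 3 5))))), (.s k1
  k2 0 (.s k15 k11 1 (.s k5 k10 2 (.s k9 k13 1 (.d k6 k4 k12 0 2)))))] (.c k11 (.q k149 [(.s k23 k43
  5 (.s k86 k212 8 (.s k169 k252 14 (.s k129 k189 5 (.d k192 k66 k106 8 14))))), (.s k2 k1 0 (.s
  k192 k106 14 (.s k64 k128 7 (.s k66 k129 8 (.s k130 k194 7 (.d k65 k67 k195 0 8)))))), (.s k23 k43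
  5 (.s k55 k39 3 (.s k86 k212 8 (.s k165 k244 12 (.s k196 k102 12 (.d k133 k181 k70 3 8))))))] .n)
  (.c k15 (.q k149 [(.s k23 k43 5 (.s k192 k106 14 (.s k129 k66 8 (.s k169 k189 5 (.d k86 k212 k252
  8 14))))), (.s k23 k43 5 (.s k55 k39 3 (.s k86 k212 8 (.s k165 k244 12 (.s k196 k102 12 (.d k133
  k181 k70 3 8)))))), (.s k2 k1 0 (.s k192 k106 14 (.s k64 k128 7 (.s k66 k129 8 (.s k130 k194 7 (.d
  k65 k67 k195 0 8))))))] .n) (.c k85 (.q k149 [(.s k15 k11 1 (.s k23 k43 5 (.s k31 k47 3 (.s k27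
  k19 1 (.d k39 k55 k51 3 5))))), (.s k1 k2 0 (.s k15 k11 1 (.s k5 k10 2 (.s k9 k13 1 (.d k6 k4 k12
  0 2))))), (.s k23 k43 5 (.s k86 k212 8 (.s k169 k252 14 (.s k192 k106 14 (.d k129 k189 k66 5
  8)))))] .n) (.c k149 (.q k85 [(.s k15 k11 1 (.s k23 k43 5 (.s k31 k47 3 (.s k27 k19 1 (.d k39 k55
  k51 3 5))))), (.s k1 k2 0 (.s k169 k253 13 (.s k86 k252 14 (.s k165 k244 12 (.s k5 k245 11 (.s k9
  k13 1 (.d k6 k4 k12 0 2)))))))] (.c k128 (.q k191 [(.s k1 k2 0 (.s k169 k253 13 (.s k86 k252 14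
  (.s k255 k127 7 (.d k87 k84 k171 0 13))))), (.s k15 k11 1 (.s k23 k43 5 (.s k39 k55 3 (.s k27 k51
  5 (.d k31 k19 k47 1 3)))))] .n) (.c k191 (.q k128 [(.s k192 k64 7 (.s k129 k66 8 (.s k130 k131 0
  (.s k65 k195 8 (.d k1 k2 k193 0 7))))), (.s k15 k11 1 (.s k23 k43 5 (.s k39 k55 3 (.s k27 k51 5
  (.d k31 k19 k47 1 3)))))] .n) .n))) .n)))))

def t21_214 : T TT 256 :=
  (.f k23 k43 5 (.q k7 [(.s k15 k11 1 (.s k31 k47 3 (.s k27 k19 1 (.d k39 k55 k51 3 5)))), (.s k1 k2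
  0 (.s k15 k11 1 (.s k5 k10 2 (.s k9 k13 1 (.d k6 k4 k12 0 2)))))] (.c k11 (.q k27 [(.s k39 k55 3
  (.s k15 k51 5 (.d k31 k19 k47 1 3))), (.s k1 k2 0 (.s k19 k31 1 (.s k51 k35 3 (.s k17 k34 4 (.s
  k33 k49 3 (.d k18 k16 k48 0 4)))))), (.s k1 k2 0 (.s k39 k55 3 (.s k15 k51 5 (.s k5 k10 2 (.s k9
  k13 1 (.d k6 k4 k12 0 2))))))] (.c k39 (.q k35 [(.d k19 k31 k51 1 3)] (.c k19 (.q k86 [(.s k169
  k252 14 (.s k149 k212 8 (.s k129 k189 5 (.d k192 k66 k106 8 14)))), (.s k1 k2 0 (.s k169 k252 14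
  (.s k85 k253 13 (.s k165 k244 12 (.s k5 k245 11 (.s k9 k13 1 (.d k6 k4 k12 0 2))))))), (.s k165
  k244 12 (.s k149 k212 8 (.s k181 k133 3 (.s k240 k122 10 (.s k82 k161 12 (.d k90 k94 k15 1
  14))))))] .n) (.c k31 (.l (.s k2 k1 0 (.s k51 k19 3 (.s k34 k17 4 (.s k18 k50 3 (.d k33 k32 k48 0
  4)))))) (.c k51 (.l (.s k1 k2 0 (.s k31 k19 1 (.s k15 k47 3 (.s k5 k10 2 (.s k9 k13 1 (.d k6 k4
  k12 0 2))))))) .n)))) (.c k51 (.l (.s k1 k2 0 (.s k31 k19 1 (.s k15 k47 3 (.s k5 k10 2 (.s k9 k13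
  1 (.d k6 k4 k12 0 2))))))) .n))) (.c k15 (.l (.s k1 k2 0 (.s k55 k39 3 (.s k51 k59 1 (.s k17 k34 4
  (.s k33 k49 3 (.s k18 k48 4 (.d k19 k35 k16 3 0)))))))) (.c k27 (.l (.s k1 k2 0 (.s k55 k39 3 (.s
  k15 k11 1 (.s k59 k51 1 (.s k5 k10 2 (.s k9 k13 1 (.d k6 k4 k12 0 2)))))))) (.c k59 (.l (.s k39
  k55 3 (.s k15 k11 1 (.s k27 k51 5 (.d k31 k19 k47 1 3))))) .n))))))

def t21_215 : T TT 256 :=
  (.q k192 [(.s k1 k2 0 (.s k128 k64 7 (.s k129 k66 8 (.s k65 k193 7 (.d k130 k131 k195 0 8))))),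
  (.s k23 k43 5 (.s k129 k66 8 (.s k149 k106 14 (.s k86 k212 8 (.d k169 k189 k252 5 14))))), (.s k1
  k2 0 (.s k43 k23 5 (.s k106 k149 14 (.s k169 k232 8 (.s k85 k253 13 (.d k64 k128 k127 7 6))))))]
  (.c k86 (.l (.s k2 k1 0 (.s k64 k128 7 (.s k66 k129 8 (.s k130 k194 7 (.d k65 k67 k195 0 8))))))
  .n))

def t21_216 : T TT 256 :=
  (.q k192 [(.s k1 k2 0 (.s k128 k64 7 (.s k129 k66 8 (.s k65 k193 7 (.d k130 k131 k195 0 8))))),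
  (.s k23 k43 5 (.s k129 k66 8 (.s k149 k106 14 (.s k86 k212 8 (.d k169 k189 k252 5 14))))), (.s k1
  k2 0 (.s k43 k23 5 (.s k106 k149 14 (.s k169 k232 8 (.s k85 k253 13 (.d k64 k128 k127 7 6))))))]
  (.c k86 (.l (.s k2 k1 0 (.s k64 k128 7 (.s k66 k129 8 (.s k130 k194 7 (.d k65 k67 k195 0 8))))))
  .n))

def t21_217 : T TT 256 :=
  (.q k192 [(.s k1 k2 0 (.s k128 k64 7 (.s k129 k66 8 (.s k65 k193 7 (.d k130 k131 k195 0 8))))),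
  (.s k23 k43 5 (.s k129 k66 8 (.s k149 k106 14 (.s k86 k212 8 (.d k169 k189 k252 5 14))))), (.s k1
  k2 0 (.s k43 k23 5 (.s k106 k149 14 (.s k169 k232 8 (.s k85 k253 13 (.d k64 k128 k127 7 6))))))]
  (.c k86 (.l (.s k2 k1 0 (.s k64 k128 7 (.s k66 k129 8 (.s k130 k194 7 (.d k65 k67 k195 0 8))))))
  .n))

def t21_218 : T TT 256 :=
  (.q k192 [(.s k1 k2 0 (.s k128 k64 7 (.s k129 k66 8 (.s k65 k193 7 (.d k130 k131 k195 0 8))))),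
  (.s k23 k43 5 (.s k129 k66 8 (.s k149 k106 14 (.s k86 k212 8 (.d k169 k189 k252 5 14))))), (.s k1
  k2 0 (.s k43 k23 5 (.s k106 k149 14 (.s k169 k232 8 (.s k85 k253 13 (.d k64 k128 k127 7 6))))))]
  (.c k86 (.l (.s k2 k1 0 (.s k64 k128 7 (.s k66 k129 8 (.s k130 k194 7 (.d k65 k67 k195 0 8))))))
  .n))

def t21_219 : T TT 256 :=
  (.q k192 [(.s k1 k2 0 (.s k128 k64 7 (.s k129 k66 8 (.s k65 k193 7 (.d k130 k131 k195 0 8))))),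
  (.s k23 k43 5 (.s k129 k66 8 (.s k149 k106 14 (.s k86 k212 8 (.d k169 k189 k252 5 14))))), (.s k1
  k2 0 (.s k43 k23 5 (.s k106 k149 14 (.s k169 k232 8 (.s k85 k253 13 (.d k64 k128 k127 7 6))))))]
  (.c k86 (.l (.s k2 k1 0 (.s k64 k128 7 (.s k66 k129 8 (.s k130 k194 7 (.d k65 k67 k195 0 8))))))
  .n))

def t21_220 : T TT 256 :=
  (.q k192 [(.s k1 k2 0 (.s k128 k64 7 (.s k129 k66 8 (.s k65 k193 7 (.d k130 k131 k195 0 8))))),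
  (.s k23 k43 5 (.s k129 k66 8 (.s k149 k106 14 (.s k86 k212 8 (.d k169 k189 k252 5 14))))), (.s k1
  k2 0 (.s k43 k23 5 (.s k106 k149 14 (.s k169 k232 8 (.s k85 k253 13 (.d k64 k128 k127 7 6))))))]
  (.c k86 (.l (.s k2 k1 0 (.s k64 k128 7 (.s k66 k129 8 (.s k130 k194 7 (.d k65 k67 k195 0 8))))))
  .n))

def t21_221 : T TT 256 :=
  (.q k192 [(.s k1 k2 0 (.s k128 k64 7 (.s k129 k66 8 (.s k65 k193 7 (.d k130 k131 k195 0 8))))),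
  (.s k23 k43 5 (.s k129 k66 8 (.s k149 k106 14 (.s k86 k212 8 (.d k169 k189 k252 5 14))))), (.s k1
  k2 0 (.s k43 k23 5 (.s k106 k149 14 (.s k169 k232 8 (.s k85 k253 13 (.d k64 k128 k127 7 6))))))]
  (.c k86 (.l (.s k2 k1 0 (.s k64 k128 7 (.s k66 k129 8 (.s k130 k194 7 (.d k65 k67 k195 0 8))))))
  .n))

def t21_222 : T TT 256 :=
  (.q k192 [(.s k1 k2 0 (.s k128 k64 7 (.s k129 k66 8 (.s k65 k193 7 (.d k130 k131 k195 0 8))))),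
  (.s k23 k43 5 (.s k129 k66 8 (.s k149 k106 14 (.s k86 k212 8 (.d k169 k189 k252 5 14))))), (.s k1
  k2 0 (.s k43 k23 5 (.s k106 k149 14 (.s k169 k232 8 (.s k85 k253 13 (.d k64 k128 k127 7 6))))))]
  (.c k86 (.l (.s k2 k1 0 (.s k64 k128 7 (.s k66 k129 8 (.s k130 k194 7 (.d k65 k67 k195 0 8))))))
  .n))

def t21_223 : T TT 256 :=
  (.q k192 [(.s k1 k2 0 (.s k128 k64 7 (.s k129 k66 8 (.s k65 k193 7 (.d k130 k131 k195 0 8))))),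
  (.s k23 k43 5 (.s k129 k66 8 (.s k149 k106 14 (.s k86 k212 8 (.d k169 k189 k252 5 14))))), (.s k1
  k2 0 (.s k43 k23 5 (.s k106 k149 14 (.s k169 k232 8 (.s k85 k253 13 (.d k64 k128 k127 7 6))))))]
  (.c k86 (.l (.s k2 k1 0 (.s k64 k128 7 (.s k66 k129 8 (.s k130 k194 7 (.d k65 k67 k195 0 8))))))
  .n))

def t21_224 : T TT 256 :=
  (.q k192 [(.s k1 k2 0 (.s k128 k64 7 (.s k129 k66 8 (.s k65 k193 7 (.d k130 k131 k195 0 8))))),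
  (.s k23 k43 5 (.s k129 k66 8 (.s k149 k106 14 (.s k86 k212 8 (.d k169 k189 k252 5 14))))), (.s k1
  k2 0 (.s k43 k23 5 (.s k106 k149 14 (.s k169 k232 8 (.s k85 k253 13 (.d k64 k128 k127 7 6))))))]
  (.c k86 (.l (.s k2 k1 0 (.s k64 k128 7 (.s k66 k129 8 (.s k130 k194 7 (.d k65 k67 k195 0 8))))))
  .n))

def t21_225 : T TT 256 :=
  (.q k192 [(.s k23 k43 5 (.s k129 k66 8 (.s k149 k106 14 (.s k86 k212 8 (.d k169 k189 k252 5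
  14))))), (.s k1 k2 0 (.s k128 k64 7 (.s k129 k66 8 (.s k65 k193 7 (.d k130 k131 k195 0 8))))), (.s
  k1 k2 0 (.s k43 k23 5 (.s k106 k149 14 (.s k169 k232 8 (.s k85 k253 13 (.d k64 k128 k127 7
  6))))))] (.c k86 (.l (.s k2 k1 0 (.s k64 k128 7 (.s k66 k129 8 (.s k130 k194 7 (.d k65 k67 k195 0
  8)))))) .n))

def t21_226 : T TT 256 :=
  (.q k192 [(.s k1 k2 0 (.s k128 k64 7 (.s k129 k66 8 (.s k65 k193 7 (.d k130 k131 k195 0 8))))),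
  (.s k23 k43 5 (.s k129 k66 8 (.s k149 k106 14 (.s k86 k212 8 (.d k169 k189 k252 5 14))))), (.s k1
  k2 0 (.s k43 k23 5 (.s k106 k149 14 (.s k169 k232 8 (.s k85 k253 13 (.d k64 k128 k127 7 6))))))]
  (.c k86 (.l (.s k2 k1 0 (.s k64 k128 7 (.s k66 k129 8 (.s k130 k194 7 (.d k65 k67 k195 0 8))))))
  .n))

def t21_227 : T TT 256 :=
  (.q k192 [(.s k1 k2 0 (.s k128 k64 7 (.s k129 k66 8 (.s k65 k193 7 (.d k130 k131 k195 0 8))))),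
  (.s k23 k43 5 (.s k129 k66 8 (.s k149 k106 14 (.s k86 k212 8 (.d k169 k189 k252 5 14))))), (.s k1
  k2 0 (.s k43 k23 5 (.s k106 k149 14 (.s k169 k232 8 (.s k85 k253 13 (.d k64 k128 k127 7 6))))))]
  (.c k86 (.l (.s k2 k1 0 (.s k64 k128 7 (.s k66 k129 8 (.s k130 k194 7 (.d k65 k67 k195 0 8))))))
  .n))

def t21_228 : T TT 256 :=
  (.q k192 [(.s k1 k2 0 (.s k128 k64 7 (.s k129 k66 8 (.s k65 k193 7 (.d k130 k131 k195 0 8))))),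
  (.s k23 k43 5 (.s k129 k66 8 (.s k149 k106 14 (.s k86 k212 8 (.d k169 k189 k252 5 14))))), (.s k1
  k2 0 (.s k43 k23 5 (.s k106 k149 14 (.s k169 k232 8 (.s k85 k253 13 (.d k64 k128 k127 7 6))))))]
  (.c k86 (.l (.s k2 k1 0 (.s k64 k128 7 (.s k66 k129 8 (.s k130 k194 7 (.d k65 k67 k195 0 8))))))
  .n))

def t21_229 : T TT 256 :=
  (.q k192 [(.s k1 k2 0 (.s k128 k64 7 (.s k129 k66 8 (.s k65 k193 7 (.d k130 k131 k195 0 8))))),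
  (.s k23 k43 5 (.s k129 k66 8 (.s k149 k106 14 (.s k86 k212 8 (.d k169 k189 k252 5 14))))), (.s k1
  k2 0 (.s k43 k23 5 (.s k106 k149 14 (.s k169 k232 8 (.s k85 k253 13 (.d k64 k128 k127 7 6))))))]
  (.c k86 (.l (.s k2 k1 0 (.s k64 k128 7 (.s k66 k129 8 (.s k130 k194 7 (.d k65 k67 k195 0 8))))))
  .n))

def t21_230 : T TT 256 :=
  (.q k192 [(.s k1 k2 0 (.s k128 k64 7 (.s k129 k66 8 (.s k65 k193 7 (.d k130 k131 k195 0 8))))),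
  (.s k23 k43 5 (.s k129 k66 8 (.s k149 k106 14 (.s k86 k212 8 (.d k169 k189 k252 5 14))))), (.s k1
  k2 0 (.s k43 k23 5 (.s k106 k149 14 (.s k169 k232 8 (.s k85 k253 13 (.d k64 k128 k127 7 6))))))]
  (.c k86 (.l (.s k2 k1 0 (.s k64 k128 7 (.s k66 k129 8 (.s k130 k194 7 (.d k65 k67 k195 0 8))))))
  .n))

def t21_231 : T TT 256 :=
  (.q k192 [(.s k1 k2 0 (.s k128 k64 7 (.s k129 k66 8 (.s k65 k193 7 (.d k130 k131 k195 0 8))))),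
  (.s k23 k43 5 (.s k129 k66 8 (.s k149 k106 14 (.s k86 k212 8 (.d k169 k189 k252 5 14))))), (.s k1
  k2 0 (.s k43 k23 5 (.s k106 k149 14 (.s k169 k232 8 (.s k85 k253 13 (.d k64 k128 k127 7 6))))))]
  (.c k86 (.l (.s k2 k1 0 (.s k64 k128 7 (.s k66 k129 8 (.s k130 k194 7 (.d k65 k67 k195 0 8))))))
  .n))

def t21_232 : T TT 256 :=
  (.q k192 [(.s k23 k43 5 (.s k129 k66 8 (.s k149 k106 14 (.s k169 k189 5 (.d k86 k212 k252 8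
  14))))), (.s k1 k2 0 (.s k128 k64 7 (.s k129 k66 8 (.s k65 k193 7 (.d k130 k131 k195 0 8)))))] (.c
  k66 (.q k15 [(.s k2 k1 0 (.s k10 k5 2 (.s k6 k14 1 (.s k9 k12 2 (.d k11 k8 k7 0 1))))), (.s k5 k10
  2 (.s k128 k64 7 (.s k133 k74 10 (.s k69 k197 7 (.d k138 k143 k207 2 10))))), (.s k7 k11 1 (.s k23
  k43 5 (.s k39 k55 3 (.s k27 k51 5 (.d k31 k19 k47 1 3)))))] .n) (.c k86 (.l (.s k2 k1 0 (.s k64
  k128 7 (.s k66 k129 8 (.s k130 k194 7 (.d k65 k67 k195 0 8)))))) (.c k129 (.q k15 [(.s k5 k10 2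
  (.s k128 k64 7 (.s k133 k74 10 (.s k69 k197 7 (.d k138 k143 k207 2 10))))), (.s k7 k11 1 (.s k23
  k43 5 (.s k39 k55 3 (.s k27 k51 5 (.d k31 k19 k47 1 3)))))] .n) .n))))

def t21_233 : T TT 256 :=
  (.q k192 [(.s k23 k43 5 (.s k129 k66 8 (.s k149 k106 14 (.s k86 k212 8 (.d k169 k189 k252 5
  14))))), (.s k1 k2 0 (.s k128 k64 7 (.s k129 k66 8 (.s k65 k193 7 (.d k130 k131 k195 0 8))))), (.s
  k1 k2 0 (.s k43 k23 5 (.s k106 k149 14 (.s k169 k232 8 (.s k85 k253 13 (.d k64 k128 k127 7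
  6))))))] (.c k86 (.l (.s k2 k1 0 (.s k64 k128 7 (.s k66 k129 8 (.s k130 k194 7 (.d k65 k67 k195 0
  8)))))) .n))

def t21_234 : T TT 256 :=
  (.q k106 [(.s k23 k43 5 (.s k149 k192 14 (.s k86 k212 8 (.s k126 k66 5 (.d k252 k189 k169 8
  14))))), (.s k1 k2 0 (.s k192 k149 14 (.s k128 k64 7 (.s k129 k66 8 (.s k65 k193 7 (.d k130 k131
  k195 0 8)))))), (.s k1 k2 0 (.s k43 k23 5 (.s k169 k232 8 (.s k85 k253 13 (.s k192 k149 14 (.d k64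
  k128 k127 7 6))))))] (.c k86 (.l (.s k2 k1 0 (.s k192 k149 14 (.s k66 k129 8 (.s k130 k194 7 (.s
  k65 k195 8 (.d k64 k128 k67 7 0))))))) (.c k149 (.f k1 k2 0 (.l (.s k43 k23 5 (.s k169 k232 8 (.s
  k85 k253 13 (.s k86 k252 14 (.s k64 k127 6 (.s k66 k126 5 (.d k192 k128 k129 7 8))))))))) (.c k192
  (.f k1 k2 0 (.l (.s k43 k23 5 (.s k169 k232 8 (.s k85 k253 13 (.s k127 k64 6 (.s k255 k191 7 (.s
  k87 k171 13 (.d k86 k252 k84 14 0))))))))) .n))))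

def t21_235 : T TT 256 :=
  (.q k7 [(.s k15 k11 1 (.s k23 k43 5 (.s k31 k47 3 (.s k27 k19 1 (.d k39 k55 k51 3 5))))), (.s k1
  k2 0 (.s k15 k11 1 (.s k5 k10 2 (.s k9 k13 1 (.d k6 k4 k12 0 2)))))] (.c k11 (.q k86 [(.s k23 k43
  5 (.s k169 k252 14 (.s k149 k212 8 (.s k129 k189 5 (.d k192 k66 k106 8 14))))), (.s k1 k2 0 (.s
  k169 k252 14 (.s k85 k253 13 (.s k165 k244 12 (.s k5 k245 11 (.s k9 k13 1 (.d k6 k4 k12 0
  2))))))), (.s k23 k43 5 (.s k55 k39 3 (.s k165 k244 12 (.s k149 k212 8 (.s k196 k102 12 (.d k133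
  k181 k70 3 8))))))] (.c k40 (.q k105 [(.s k169 k252 14 (.s k41 k233 7 (.s k67 k124 6 (.s k195 k131
  7 (.d k60 k22 k150 6 14))))), (.s k1 k2 0 (.s k23 k43 5 (.s k149 k212 8 (.s k193 k61 13 (.s k129
  k65 7 (.d k192 k66 k106 8 14))))))] (.c k41 (.l (.s k43 k23 5 (.s k169 k252 14 (.s k106 k232 8 (.s
  k192 k149 14 (.d k66 k126 k129 5 8)))))) .n)) (.c k105 (.q k40 [(.s k43 k23 5 (.s k41 k42 0 (.d
  k60 k20 k22 5 6))), (.s k252 k169 14 (.s k168 k84 13 (.s k232 k104 7 (.s k126 k189 8 (.s k106 k66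
  5 (.d k192 k149 k212 14 5)))))), (.s k20 k60 5 (.s k23 k43 5 (.s k212 k149 8 (.s k84 k148 7 (.d
  k252 k168 k169 13 14)))))] .n) .n))) (.c k15 (.f k23 k43 5 (.l (.s k1 k2 0 (.s k55 k39 3 (.s k51
  k59 1 (.s k17 k34 4 (.s k33 k49 3 (.s k18 k48 4 (.d k19 k35 k16 3 0))))))))) (.c k40 (.q k105 [(.s
  k15 k11 1 (.s k5 k10 2 (.s k6 k4 0 (.s k9 k12 2 (.d k1 k2 k13 0 1))))), (.s k15 k11 1 (.s k23 k43
  5 (.s k31 k47 3 (.s k27 k19 1 (.d k39 k55 k51 3 5)))))] (.c k11 (.q k86 [(.s k169 k252 14 (.s k41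
  k233 7 (.s k67 k124 6 (.s k195 k131 7 (.d k60 k22 k150 6 14))))), (.s k1 k2 0 (.s k23 k43 5 (.s
  k149 k212 8 (.s k193 k61 13 (.s k129 k65 7 (.d k192 k66 k106 8 14))))))] (.c k41 (.l (.s k43 k23 5
  (.s k169 k252 14 (.s k106 k232 8 (.s k192 k149 14 (.d k66 k126 k129 5 8)))))) .n)) (.c k15 (.q k86
  [(.s k169 k252 14 (.s k41 k233 7 (.s k67 k124 6 (.s k195 k131 7 (.d k60 k22 k150 6 14))))), (.s k1
  k2 0 (.s k23 k43 5 (.s k149 k212 8 (.s k193 k61 13 (.s k129 k65 7 (.d k192 k66 k106 8 14))))))]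
  (.c k41 (.l (.s k43 k23 5 (.s k169 k252 14 (.s k106 k232 8 (.s k192 k149 14 (.d k66 k126 k129 5
  8)))))) .n)) (.c k55 (.l (.s k1 k2 0 (.s k15 k11 1 (.s k5 k10 2 (.s k9 k13 1 (.d k6 k4 k12 0
  2)))))) .n)))) (.c k105 (.q k40 [(.s k43 k23 5 (.s k41 k42 0 (.d k60 k20 k22 5 6))), (.s k1 k2 0
  (.s k15 k11 1 (.s k5 k10 2 (.s k9 k13 1 (.d k6 k4 k12 0 2)))))] .n) .n)))))

def t21_236 : T TT 256 :=
  (.q k192 [(.s k1 k2 0 (.s k128 k64 7 (.s k129 k66 8 (.s k65 k193 7 (.d k130 k131 k195 0 8))))),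
  (.s k23 k43 5 (.s k129 k66 8 (.s k149 k106 14 (.s k86 k212 8 (.d k169 k189 k252 5 14))))), (.s k1
  k2 0 (.s k43 k23 5 (.s k106 k149 14 (.s k169 k232 8 (.s k85 k253 13 (.d k64 k128 k127 7 6))))))]
  (.c k86 (.l (.s k2 k1 0 (.s k64 k128 7 (.s k66 k129 8 (.s k130 k194 7 (.d k65 k67 k195 0 8))))))
  .n))

def t21_237 : T TT 256 :=
  (.q k192 [(.s k1 k2 0 (.s k128 k64 7 (.s k129 k66 8 (.s k65 k193 7 (.d k130 k131 k195 0 8))))),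
  (.s k23 k43 5 (.s k129 k66 8 (.s k149 k106 14 (.s k86 k212 8 (.d k169 k189 k252 5 14))))), (.s k1
  k2 0 (.s k43 k23 5 (.s k106 k149 14 (.s k169 k232 8 (.s k85 k253 13 (.d k64 k128 k127 7 6))))))]
  (.c k86 (.l (.s k2 k1 0 (.s k64 k128 7 (.s k66 k129 8 (.s k130 k194 7 (.d k65 k67 k195 0 8))))))
  .n))

def t21_238 : T TT 256 :=
  (.q k192 [(.s k1 k2 0 (.s k128 k64 7 (.s k129 k66 8 (.s k65 k193 7 (.d k130 k131 k195 0 8))))),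
  (.s k23 k43 5 (.s k129 k66 8 (.s k149 k106 14 (.s k86 k212 8 (.d k169 k189 k252 5 14))))), (.s k1
  k2 0 (.s k43 k23 5 (.s k106 k149 14 (.s k169 k232 8 (.s k85 k253 13 (.d k64 k128 k127 7 6))))))]
  (.c k34 (.q k102 [(.s k23 k43 5 (.s k129 k66 8 (.s k149 k106 14 (.s k86 k212 8 (.d k169 k189 k252
  5 14))))), (.s k106 k149 14 (.s k98 k110 1 (.s k51 k145 12 (.s k59 k55 1 (.d k153 k200 k204 12
  14))))), (.s k1 k2 0 (.s k128 k64 7 (.s k129 k66 8 (.s k65 k193 7 (.d k130 k131 k195 0 8)))))] .n)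
  (.c k86 (.l (.s k2 k1 0 (.s k64 k128 7 (.s k66 k129 8 (.s k130 k194 7 (.d k65 k67 k195 0 8))))))
  (.c k102 (.q k34 [(.s k1 k2 0 (.s k128 k64 7 (.s k129 k66 8 (.s k65 k193 7 (.d k130 k131 k195 0
  8))))), (.s k51 k17 4 (.s k64 k128 7 (.s k98 k145 12 (.s k162 k226 7 (.d k81 k115 k243 4 12))))),
  (.s k1 k2 0 (.s k17 k51 4 (.s k33 k49 3 (.s k48 k18 4 (.d k32 k35 k16 0 3)))))] .n) .n))))

def t21_239 : T TT 256 :=
  (.q k192 [(.s k1 k2 0 (.s k128 k64 7 (.s k129 k66 8 (.s k65 k193 7 (.d k130 k131 k195 0 8))))),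
  (.s k23 k43 5 (.s k129 k66 8 (.s k149 k106 14 (.s k86 k212 8 (.d k169 k189 k252 5 14))))), (.s k1
  k2 0 (.s k43 k23 5 (.s k106 k149 14 (.s k169 k232 8 (.s k85 k253 13 (.d k64 k128 k127 7 6))))))]
  (.c k32 (.q k101 [(.s k1 k2 0 (.s k128 k64 7 (.s k129 k66 8 (.s k65 k193 7 (.d k130 k131 k195 0
  8))))), (.s k106 k149 14 (.s k96 k111 2 (.s k48 k144 11 (.s k58 k53 2 (.d k154 k202 k207 11
  14)))))] (.c k128 (.l (.s k23 k43 5 (.s k129 k66 8 (.s k149 k106 14 (.s k86 k212 8 (.d k169 k189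
  k252 5 14)))))) .n)) (.c k86 (.l (.s k2 k1 0 (.s k64 k128 7 (.s k66 k129 8 (.s k130 k194 7 (.d k65
  k67 k195 0 8)))))) (.c k101 (.q k32 [(.s k1 k2 0 (.s k128 k64 7 (.s k129 k66 8 (.s k65 k193 7 (.d
  k130 k131 k195 0 8))))), (.s k48 k16 3 (.s k64 k128 7 (.s k96 k144 11 (.s k160 k224 7 (.d k80 k112
  k240 3 11))))), (.s k1 k2 0 (.s k48 k16 3 (.s k33 k18 4 (.s k17 k49 3 (.d k34 k35 k51 0 4)))))]
  .n) .n))))

def t21_240 : T TT 256 :=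
  (.q k192 [(.s k1 k2 0 (.s k128 k64 7 (.s k129 k66 8 (.s k65 k193 7 (.d k130 k131 k195 0 8))))),
  (.s k23 k43 5 (.s k129 k66 8 (.s k149 k106 14 (.s k86 k212 8 (.d k169 k189 k252 5 14))))), (.s k1
  k2 0 (.s k43 k23 5 (.s k106 k149 14 (.s k169 k232 8 (.s k85 k253 13 (.d k64 k128 k127 7 6))))))]
  (.c k86 (.l (.s k2 k1 0 (.s k64 k128 7 (.s k66 k129 8 (.s k130 k194 7 (.d k65 k67 k195 0 8))))))
  .n))

def t21_241 : T TT 256 :=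
  (.q k192 [(.s k23 k43 5 (.s k129 k66 8 (.s k149 k106 14 (.s k86 k212 8 (.d k169 k189 k252 5
  14))))), (.s k1 k2 0 (.s k128 k64 7 (.s k129 k66 8 (.s k65 k193 7 (.d k130 k131 k195 0 8))))), (.s
  k1 k2 0 (.s k43 k23 5 (.s k106 k149 14 (.s k169 k232 8 (.s k85 k253 13 (.d k64 k128 k127 7
  6))))))] (.c k86 (.l (.s k2 k1 0 (.s k64 k128 7 (.s k66 k129 8 (.s k130 k194 7 (.d k65 k67 k195 0
  8)))))) .n))

def t21_242 : T TT 256 :=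
  (.q k192 [(.s k23 k43 5 (.s k129 k66 8 (.s k149 k106 14 (.s k86 k212 8 (.d k169 k189 k252 5
  14))))), (.s k1 k2 0 (.s k128 k64 7 (.s k129 k66 8 (.s k65 k193 7 (.d k130 k131 k195 0 8))))), (.s
  k1 k2 0 (.s k43 k23 5 (.s k106 k149 14 (.s k169 k232 8 (.s k85 k253 13 (.d k64 k128 k127 7
  6))))))] (.c k86 (.l (.s k2 k1 0 (.s k64 k128 7 (.s k66 k129 8 (.s k130 k194 7 (.d k65 k67 k195 0
  8)))))) .n))

def t21_243 : T TT 256 :=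
  (.q k192 [(.s k1 k2 0 (.s k128 k64 7 (.s k129 k66 8 (.s k65 k193 7 (.d k130 k131 k195 0 8))))),
  (.s k23 k43 5 (.s k129 k66 8 (.s k149 k106 14 (.s k86 k212 8 (.d k169 k189 k252 5 14))))), (.s k1
  k2 0 (.s k43 k23 5 (.s k106 k149 14 (.s k169 k232 8 (.s k85 k253 13 (.d k64 k128 k127 7 6))))))]
  (.c k86 (.l (.s k2 k1 0 (.s k64 k128 7 (.s k66 k129 8 (.s k130 k194 7 (.d k65 k67 k195 0 8))))))
  .n))

def t21_244 : T TT 256 :=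
  (.q k192 [(.s k1 k2 0 (.s k128 k64 7 (.s k129 k66 8 (.s k65 k193 7 (.d k130 k131 k195 0 8))))),
  (.s k23 k43 5 (.s k129 k66 8 (.s k149 k106 14 (.s k86 k212 8 (.d k169 k189 k252 5 14))))), (.s k1
  k2 0 (.s k43 k23 5 (.s k106 k149 14 (.s k169 k232 8 (.s k85 k253 13 (.d k64 k128 k127 7 6))))))]
  (.c k86 (.l (.s k2 k1 0 (.s k64 k128 7 (.s k66 k129 8 (.s k130 k194 7 (.d k65 k67 k195 0 8))))))
  .n))

def t21_245 : T TT 256 :=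
  (.q k192 [(.s k1 k2 0 (.s k128 k64 7 (.s k129 k66 8 (.s k65 k193 7 (.d k130 k131 k195 0 8))))),
  (.s k23 k43 5 (.s k129 k66 8 (.s k149 k106 14 (.s k86 k212 8 (.d k169 k189 k252 5 14))))), (.s k1
  k2 0 (.s k43 k23 5 (.s k106 k149 14 (.s k169 k232 8 (.s k85 k253 13 (.d k64 k128 k127 7 6))))))]
  (.c k86 (.l (.s k2 k1 0 (.s k64 k128 7 (.s k66 k129 8 (.s k130 k194 7 (.d k65 k67 k195 0 8))))))
  .n))

def t21_246 : T TT 256 :=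
  (.q k192 [(.s k1 k2 0 (.s k128 k64 7 (.s k129 k66 8 (.s k65 k193 7 (.d k130 k131 k195 0 8))))),
  (.s k23 k43 5 (.s k129 k66 8 (.s k149 k106 14 (.s k86 k212 8 (.d k169 k189 k252 5 14))))), (.s k1
  k2 0 (.s k43 k23 5 (.s k106 k149 14 (.s k169 k232 8 (.s k85 k253 13 (.d k64 k128 k127 7 6))))))]
  (.c k86 (.l (.s k2 k1 0 (.s k64 k128 7 (.s k66 k129 8 (.s k130 k194 7 (.d k65 k67 k195 0 8))))))
  .n))

def t21_247 : T TT 256 :=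
  (.q k192 [(.s k1 k2 0 (.s k128 k64 7 (.s k129 k66 8 (.s k65 k193 7 (.d k130 k131 k195 0 8))))),
  (.s k23 k43 5 (.s k129 k66 8 (.s k149 k106 14 (.s k86 k212 8 (.d k169 k189 k252 5 14))))), (.s k1
  k2 0 (.s k43 k23 5 (.s k106 k149 14 (.s k169 k232 8 (.s k85 k253 13 (.d k64 k128 k127 7 6))))))]
  (.c k86 (.l (.s k2 k1 0 (.s k64 k128 7 (.s k66 k129 8 (.s k130 k194 7 (.d k65 k67 k195 0 8))))))
  .n))

def t21_248 : T TT 256 :=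
  (.q k192 [(.s k1 k2 0 (.s k128 k64 7 (.s k129 k66 8 (.s k65 k193 7 (.d k130 k131 k195 0 8))))),
  (.s k23 k43 5 (.s k129 k66 8 (.s k149 k106 14 (.s k86 k212 8 (.d k169 k189 k252 5 14))))), (.s k1
  k2 0 (.s k43 k23 5 (.s k106 k149 14 (.s k169 k232 8 (.s k85 k253 13 (.d k64 k128 k127 7 6))))))]
  (.c k86 (.l (.s k2 k1 0 (.s k64 k128 7 (.s k66 k129 8 (.s k130 k194 7 (.d k65 k67 k195 0 8))))))
  .n))

def t21_249 : T TT 256 :=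
  (.q k192 [(.s k1 k2 0 (.s k128 k64 7 (.s k129 k66 8 (.s k65 k193 7 (.d k130 k131 k195 0 8))))),
  (.s k23 k43 5 (.s k129 k66 8 (.s k149 k106 14 (.s k86 k212 8 (.d k169 k189 k252 5 14))))), (.s k1
  k2 0 (.s k43 k23 5 (.s k106 k149 14 (.s k169 k232 8 (.s k85 k253 13 (.d k64 k128 k127 7 6))))))]
  (.c k86 (.l (.s k2 k1 0 (.s k64 k128 7 (.s k66 k129 8 (.s k130 k194 7 (.d k65 k67 k195 0 8))))))
  .n))

def t21_250 : T TT 256 :=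
  (.q k192 [(.s k1 k2 0 (.s k128 k64 7 (.s k129 k66 8 (.s k65 k193 7 (.d k130 k131 k195 0 8))))),
  (.s k23 k43 5 (.s k129 k66 8 (.s k149 k106 14 (.s k86 k212 8 (.d k169 k189 k252 5 14))))), (.s k1
  k2 0 (.s k43 k23 5 (.s k106 k149 14 (.s k169 k232 8 (.s k85 k253 13 (.d k64 k128 k127 7 6))))))]
  (.c k10 (.q k90 [(.s k23 k43 5 (.s k129 k66 8 (.s k149 k106 14 (.s k86 k212 8 (.d k169 k189 k252 5
  14))))), (.s k106 k149 14 (.s k74 k122 3 (.s k15 k133 10 (.s k47 k31 3 (.d k165 k224 k240 10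
  14))))), (.s k1 k2 0 (.s k128 k64 7 (.s k129 k66 8 (.s k65 k193 7 (.d k130 k131 k195 0 8)))))] .n)
  (.c k86 (.l (.s k2 k1 0 (.s k64 k128 7 (.s k66 k129 8 (.s k130 k194 7 (.d k65 k67 k195 0 8))))))
  (.c k90 (.q k10 [(.s k1 k2 0 (.s k128 k64 7 (.s k129 k66 8 (.s k65 k193 7 (.d k130 k131 k195 0
  8))))), (.s k15 k5 2 (.s k64 k128 7 (.s k74 k133 10 (.s k138 k202 7 (.d k69 k79 k207 2 10))))),
  (.s k1 k2 0 (.s k5 k15 2 (.s k9 k13 1 (.s k12 k6 2 (.d k8 k11 k4 0 1)))))] .n) .n))))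

def t21_251 : T TT 256 :=
  (.q k192 [(.s k1 k2 0 (.s k128 k64 7 (.s k129 k66 8 (.s k65 k193 7 (.d k130 k131 k195 0 8))))),
  (.s k23 k43 5 (.s k129 k66 8 (.s k149 k106 14 (.s k86 k212 8 (.d k169 k189 k252 5 14))))), (.s k1
  k2 0 (.s k43 k23 5 (.s k106 k149 14 (.s k169 k232 8 (.s k85 k253 13 (.d k64 k128 k127 7 6))))))]
  (.c k8 (.q k89 [(.s k1 k2 0 (.s k128 k64 7 (.s k129 k66 8 (.s k65 k193 7 (.d k130 k131 k195 0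
  8))))), (.s k106 k149 14 (.s k72 k123 4 (.s k12 k132 9 (.s k46 k29 4 (.d k166 k226 k243 9 14)))))]
  (.c k128 (.l (.s k23 k43 5 (.s k129 k66 8 (.s k149 k106 14 (.s k86 k212 8 (.d k169 k189 k252 5
  14)))))) .n)) (.c k86 (.l (.s k2 k1 0 (.s k64 k128 7 (.s k66 k129 8 (.s k130 k194 7 (.d k65 k67
  k195 0 8)))))) (.c k89 (.q k8 [(.s k1 k2 0 (.s k128 k64 7 (.s k129 k66 8 (.s k65 k193 7 (.d k130
  k131 k195 0 8))))), (.s k12 k4 1 (.s k64 k128 7 (.s k72 k132 9 (.s k136 k200 7 (.d k68 k76 k204 1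
  9))))), (.s k1 k2 0 (.s k12 k4 1 (.s k9 k6 2 (.s k5 k13 1 (.d k10 k11 k15 0 2)))))] .n) .n))))

def t21_252 : T TT 256 :=
  (.q k7 [(.s k15 k11 1 (.s k23 k43 5 (.s k31 k47 3 (.s k27 k19 1 (.d k39 k55 k51 3 5))))), (.s k1
  k2 0 (.s k15 k11 1 (.s k5 k10 2 (.s k9 k13 1 (.d k6 k4 k12 0 2)))))] (.c k11 (.q k192 [(.s k1 k2 0
  (.s k128 k64 7 (.s k129 k66 8 (.s k65 k193 7 (.d k130 k131 k195 0 8))))), (.s k23 k43 5 (.s k55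
  k39 3 (.s k149 k106 14 (.s k196 k102 12 (.s k70 k133 8 (.d k204 k200 k137 1 10))))))] .n) (.c k15
  (.q k192 [(.s k1 k2 0 (.s k128 k64 7 (.s k129 k66 8 (.s k65 k193 7 (.d k130 k131 k195 0 8))))),
  (.s k23 k43 5 (.s k55 k39 3 (.s k149 k106 14 (.s k196 k102 12 (.s k70 k133 8 (.d k204 k200 k137 1
  10))))))] (.c k94 (.q k173 [(.s k1 k2 0 (.s k128 k64 7 (.s k129 k66 8 (.s k65 k193 7 (.d k130 k131
  k195 0 8))))), (.s k23 k43 5 (.s k129 k66 8 (.s k149 k106 14 (.s k86 k212 8 (.s k165 k244 12 (.d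
  k169 k161 k189 1 5)))))), (.s k1 k2 0 (.s k43 k23 5 (.s k106 k149 14 (.s k169 k232 8 (.s k85 k253
  13 (.d k64 k128 k127 7 6))))))] (.c k86 (.l (.s k2 k1 0 (.s k64 k128 7 (.s k66 k129 8 (.s k130
  k194 7 (.d k65 k67 k195 0 8)))))) .n)) (.c k173 (.q k94 [(.s k1 k2 0 (.s k128 k64 7 (.s k129 k66 8
  (.s k65 k193 7 (.d k130 k131 k195 0 8))))), (.s k23 k43 5 (.s k55 k39 3 (.s k149 k106 14 (.s k196
  k102 12 (.s k70 k133 8 (.d k204 k200 k137 1 10))))))] .n) .n))) .n)))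

def t21_253 : T TT 256 :=
  (.f k23 k43 5 (.q k7 [(.s k15 k11 1 (.s k31 k47 3 (.s k27 k19 1 (.d k39 k55 k51 3 5)))), (.s k1 k2
  0 (.s k15 k11 1 (.s k5 k10 2 (.s k9 k13 1 (.d k6 k4 k12 0 2)))))] (.c k11 (.q k27 [(.s k39 k55 3
  (.s k15 k51 5 (.d k31 k19 k47 1 3))), (.s k1 k2 0 (.s k19 k31 1 (.s k51 k35 3 (.s k17 k34 4 (.s
  k33 k49 3 (.d k18 k16 k48 0 4)))))), (.s k1 k2 0 (.s k39 k55 3 (.s k15 k51 5 (.s k5 k10 2 (.s k9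
  k13 1 (.d k6 k4 k12 0 2))))))] (.c k39 (.q k35 [(.d k19 k31 k51 1 3)] (.c k19 (.q k86 [(.s k169
  k252 14 (.s k149 k212 8 (.s k192 k106 14 (.d k129 k189 k66 5 8)))), (.s k165 k244 12 (.s k149 k212
  8 (.s k181 k133 3 (.s k240 k122 10 (.s k82 k161 12 (.d k90 k94 k15 1 14)))))), (.s k169 k252 14
  (.s k165 k244 12 (.s k161 k173 1 (.s k240 k82 12 (.s k15 k90 14 (.s k224 k98 8 (.d k47 k31 k106 3
  10)))))))] .n) (.c k31 (.l (.s k2 k1 0 (.s k51 k19 3 (.s k34 k17 4 (.s k18 k50 3 (.d k33 k32 k48 0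
  4)))))) (.c k51 (.l (.s k1 k2 0 (.s k31 k19 1 (.s k15 k47 3 (.s k5 k10 2 (.s k9 k13 1 (.d k6 k4
  k12 0 2))))))) .n)))) (.c k51 (.l (.s k1 k2 0 (.s k31 k19 1 (.s k15 k47 3 (.s k5 k10 2 (.s k9 k13
  1 (.d k6 k4 k12 0 2))))))) .n))) (.c k15 (.l (.s k1 k2 0 (.s k55 k39 3 (.s k51 k59 1 (.s k17 k34 4
  (.s k33 k49 3 (.s k18 k48 4 (.d k19 k35 k16 3 0)))))))) (.c k27 (.l (.s k1 k2 0 (.s k55 k39 3 (.s
  k15 k11 1 (.s k59 k51 1 (.s k5 k10 2 (.s k9 k13 1 (.d k6 k4 k12 0 2)))))))) (.c k59 (.l (.s k39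
  k55 3 (.s k15 k11 1 (.s k27 k51 5 (.d k31 k19 k47 1 3))))) .n))))))

def t21_254 : T TT 256 :=
  (.q k192 [(.s k128 k64 7 (.s k129 k66 8 (.s k130 k131 0 (.s k65 k195 8 (.d k1 k2 k193 0 7))))),
  (.s k23 k43 5 (.s k129 k66 8 (.s k149 k106 14 (.s k86 k212 8 (.d k169 k189 k252 5 14)))))] (.c k2
  (.q k86 [(.s k23 k43 5 (.d k149 k212 k106 8 14)), (.s k66 k129 8 (.s k126 k106 5 (.d k252 k189
  k169 8 14)))] (.c k106 (.l (.s k23 k43 5 (.s k212 k149 8 (.d k252 k232 k169 5 14)))) .n)) (.c k66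
  (.q k86 [(.s k23 k43 5 (.d k149 k212 k106 8 14)), (.s k128 k64 7 (.s k252 k169 14 (.s k168 k84 13
  (.s k148 k188 5 (.s k104 k60 13 (.d k232 k212 k40 5 7))))))] (.c k212 (.l (.s k43 k23 5 (.s k169
  k252 14 (.d k106 k232 k149 8 14)))) .n)) (.c k86 (.l (.s k2 k1 0 (.s k64 k128 7 (.s k66 k129 8 (.s
  k130 k194 7 (.d k65 k67 k195 0 8)))))) (.c k129 (.q k86 [(.s k23 k43 5 (.d k149 k212 k106 8 14)),
  (.s k106 k149 14 (.s k126 k66 5 (.d k252 k189 k169 8 14)))] (.c k106 (.l (.s k23 k43 5 (.s k212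
  k149 8 (.d k252 k232 k169 5 14)))) (.c k149 (.l (.s k128 k64 7 (.s k252 k169 14 (.s k189 k126 8
  (.s k168 k84 13 (.s k148 k188 5 (.s k104 k60 13 (.d k232 k212 k40 5 7)))))))) .n))) .n)))))

def t21_255 : T TT 256 :=
  (.q k192 [(.s k1 k2 0 (.s k128 k64 7 (.s k129 k66 8 (.s k65 k193 7 (.d k130 k131 k195 0 8))))),
  (.s k23 k43 5 (.s k129 k66 8 (.s k149 k106 14 (.s k86 k212 8 (.d k169 k189 k252 5 14))))), (.s k1
  k2 0 (.s k43 k23 5 (.s k106 k149 14 (.s k169 k232 8 (.s k85 k253 13 (.d k64 k128 k127 7 6))))))]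
  (.c k86 (.l (.s k2 k1 0 (.s k64 k128 7 (.s k66 k129 8 (.s k130 k194 7 (.d k65 k67 k195 0 8))))))
  .n))

def t21 : T TT 256 :=
  (.q k3 [] (.c k1 t21_1 (.c k2 t21_2 (.c k4 t21_4 (.c k5 t21_5 (.c k6 t21_6 (.c k7 t21_7 (.c k8
  t21_8 (.c k9 t21_9 (.c k10 t21_10 (.c k11 t21_11 (.c k12 t21_12 (.c k13 t21_13 (.c k14 t21_14 (.c
  k15 t21_15 (.c k16 t21_16 (.c k17 t21_17 (.c k18 t21_18 (.c k19 t21_19 (.c k20 t21_20 (.c k22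
  t21_22 (.c k23 t21_23 (.c k24 t21_24 (.c k25 t21_25 (.c k26 t21_26 (.c k27 t21_27 (.c k28 t21_28
  (.c k29 t21_29 (.c k30 t21_30 (.c k31 t21_31 (.c k32 t21_32 (.c k33 t21_33 (.c k34 t21_34 (.c k35
  t21_35 (.c k36 t21_36 (.c k37 t21_37 (.c k38 t21_38 (.c k39 t21_39 (.c k40 t21_40 (.c k41 t21_41
  (.c k42 t21_42 (.c k43 t21_43 (.c k44 t21_44 (.c k45 t21_45 (.c k46 t21_46 (.c k47 t21_47 (.c k48
  t21_48 (.c k49 t21_49 (.c k50 t21_50 (.c k51 t21_51 (.c k52 t21_52 (.c k53 t21_53 (.c k54 t21_54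
  (.c k55 t21_55 (.c k56 t21_56 (.c k57 t21_57 (.c k58 t21_58 (.c k59 t21_59 (.c k60 t21_60 (.c k61
  t21_61 (.c k62 t21_62 (.c k64 t21_64 (.c k65 t21_65 (.c k66 t21_66 (.c k67 t21_67 (.c k68 t21_68
  (.c k69 t21_69 (.c k70 t21_70 (.c k71 t21_71 (.c k72 t21_72 (.c k73 t21_73 (.c k74 t21_74 (.c k75
  t21_75 (.c k76 t21_76 (.c k77 t21_77 (.c k78 t21_78 (.c k79 t21_79 (.c k80 t21_80 (.c k81 t21_81
  (.c k82 t21_82 (.c k83 t21_83 (.c k84 t21_84 (.c k85 t21_85 (.c k86 t21_86 (.c k87 t21_87 (.c k88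
  t21_88 (.c k89 t21_89 (.c k90 t21_90 (.c k91 t21_91 (.c k92 t21_92 (.c k93 t21_93 (.c k94 t21_94
  (.c k95 t21_95 (.c k96 t21_96 (.c k97 t21_97 (.c k98 t21_98 (.c k99 t21_99 (.c k100 t21_100 (.c
  k101 t21_101 (.c k102 t21_102 (.c k103 t21_103 (.c k104 t21_104 (.c k105 t21_105 (.c k106 t21_106
  (.c k107 t21_107 (.c k108 t21_108 (.c k109 t21_109 (.c k110 t21_110 (.c k111 t21_111 (.c k112
  t21_112 (.c k113 t21_113 (.c k114 t21_114 (.c k115 t21_115 (.c k116 t21_116 (.c k117 t21_117 (.c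
  k118 t21_118 (.c k119 t21_119 (.c k120 t21_120 (.c k121 t21_121 (.c k122 t21_122 (.c k123 t21_123
  (.c k124 t21_124 (.c k125 t21_125 (.c k126 t21_126 (.c k127 t21_127 (.c k128 t21_128 (.c k129
  t21_129 (.c k130 t21_130 (.c k131 t21_131 (.c k132 t21_132 (.c k133 t21_133 (.c k134 t21_134 (.c
  k135 t21_135 (.c k136 t21_136 (.c k137 t21_137 (.c k138 t21_138 (.c k139 t21_139 (.c k140 t21_140
  (.c k141 t21_141 (.c k142 t21_142 (.c k143 t21_143 (.c k144 t21_144 (.c k145 t21_145 (.c k146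
  t21_146 (.c k147 t21_147 (.c k148 t21_148 (.c k149 t21_149 (.c k150 t21_150 (.c k151 t21_151 (.c
  k152 t21_152 (.c k153 t21_153 (.c k154 t21_154 (.c k155 t21_155 (.c k156 t21_156 (.c k157 t21_157
  (.c k158 t21_158 (.c k159 t21_159 (.c k160 t21_160 (.c k161 t21_161 (.c k162 t21_162 (.c k163
  t21_163 (.c k164 t21_164 (.c k165 t21_165 (.c k166 t21_166 (.c k167 t21_167 (.c k168 t21_168 (.c
  k169 t21_169 (.c k171 t21_171 (.c k172 t21_172 (.c k173 t21_173 (.c k174 t21_174 (.c k175 t21_175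
  (.c k176 t21_176 (.c k177 t21_177 (.c k178 t21_178 (.c k179 t21_179 (.c k180 t21_180 (.c k181
  t21_181 (.c k182 t21_182 (.c k183 t21_183 (.c k184 t21_184 (.c k185 t21_185 (.c k186 t21_186 (.c
  k187 t21_187 (.c k188 t21_188 (.c k189 t21_189 (.c k190 t21_190 (.c k191 t21_191 (.c k192 t21_192
  (.c k193 t21_193 (.c k194 t21_194 (.c k195 t21_195 (.c k196 t21_196 (.c k197 t21_197 (.c k198
  t21_198 (.c k199 t21_199 (.c k200 t21_200 (.c k201 t21_201 (.c k202 t21_202 (.c k203 t21_203 (.c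
  k204 t21_204 (.c k205 t21_205 (.c k206 t21_206 (.c k207 t21_207 (.c k208 t21_208 (.c k209 t21_209
  (.c k210 t21_210 (.c k211 t21_211 (.c k212 t21_212 (.c k213 t21_213 (.c k214 t21_214 (.c k215
  t21_215 (.c k216 t21_216 (.c k217 t21_217 (.c k218 t21_218 (.c k219 t21_219 (.c k220 t21_220 (.c
  k221 t21_221 (.c k222 t21_222 (.c k223 t21_223 (.c k224 t21_224 (.c k225 t21_225 (.c k226 t21_226
  (.c k227 t21_227 (.c k228 t21_228 (.c k229 t21_229 (.c k230 t21_230 (.c k231 t21_231 (.c k232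
  t21_232 (.c k233 t21_233 (.c k234 t21_234 (.c k235 t21_235 (.c k236 t21_236 (.c k237 t21_237 (.c
  k238 t21_238 (.c k239 t21_239 (.c k240 t21_240 (.c k241 t21_241 (.c k242 t21_242 (.c k243 t21_243
  (.c k244 t21_244 (.c k245 t21_245 (.c k246 t21_246 (.c k247 t21_247 (.c k248 t21_248 (.c k249
  t21_249 (.c k250 t21_250 (.c k251 t21_251 (.c k252 t21_252 (.c k253 t21_253 (.c k254 t21_254 (.c
  k255 t21_255 .n))))))))))))))))))))))))))))))))))))))))))))))))))))))))))))))))))))))))))))))))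
  ))))))))))))))))))))))))))))))))))))))))))))))))))))))))))))))))))))))))))))))))
  )))))))))))))))))))))))))))))))))))))))))))))))))))))))))))))))))))))))))))))))) ))))))))))))

def t22 : T TT 256 :=
  (.q k48 [(.s k32 k16 3 (.s k42 k21 6 (.s k37 k47 2 (.s k26 k15 6 (.d k58 k53 k10 2 3))))), (.s k16
  k32 3 (.s k21 k42 6 (.s k26 k31 2 (.s k37 k15 6 (.d k53 k58 k5 2 3)))))] (.c k15 (.q k51 [(.s k32
  k16 3 (.s k34 k17 4 (.s k33 k35 0 (.s k18 k3 4 (.d k50 k49 k2 0 3))))), (.s k17 k34 4 (.s k21 k42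
  6 (.s k25 k29 1 (.s k38 k12 6 (.d k55 k59 k4 1 4))))), (.s k49 k50 0 (.s k53 k58 2 (.s k57 k61 1
  (.s k54 k60 2 (.d k55 k52 k59 0 1)))))] .n) (.c k16 (.q k51 [(.s k49 k50 0 (.s k53 k58 2 (.s k57
  k61 1 (.s k54 k60 2 (.d k55 k52 k59 0 1))))), (.s k34 k17 4 (.s k42 k21 6 (.s k38 k46 1 (.s k25
  k12 6 (.d k59 k55 k8 1 4))))), (.s k17 k34 4 (.s k21 k42 6 (.s k25 k29 1 (.s k49 k50 0 (.s k37 k13
  5 (.d k53 k58 k5 2 3))))))] .n) (.c k21 (.q k192 [(.s k16 k32 3 (.s k128 k64 7 (.s k144 k96 11 (.s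
  k80 k208 7 (.d k160 k176 k240 3 11))))), (.s k53 k58 2 (.s k144 k96 11 (.s k149 k106 14 (.s k101
  k197 11 (.d k154 k159 k207 2 14))))), (.s k16 k32 3 (.s k58 k53 2 (.s k106 k149 14 (.s k154 k202
  11 (.s k85 k223 10 (.d k64 k128 k127 7 6))))))] (.c k20 (.q k23 [(.s k16 k32 3 (.s k128 k64 7 (.s
  k144 k96 11 (.s k80 k208 7 (.d k160 k176 k240 3 11))))), (.s k3 k43 5 (.s k129 k66 8 (.s k149 k106
  14 (.s k86 k212 8 (.d k169 k189 k252 5 14)))))] .n) (.c k23 (.q k20 [(.s k16 k32 3 (.s k128 k64 7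
  (.s k144 k96 11 (.s k80 k208 7 (.d k160 k176 k240 3 11))))), (.s k60 k40 5 (.s k128 k64 7 (.s k148
  k104 13 (.s k84 k212 7 (.d k168 k188 k252 5 13))))), (.s k16 k32 3 (.s k40 k60 5 (.s k24 k28 1 (.s
  k8 k56 3 (.d k12 k4 k36 1 5)))))] .n) (.c k101 (.l (.s k32 k16 3 (.s k64 k128 7 (.s k96 k144 11
  (.s k160 k224 7 (.d k80 k112 k240 3 11)))))) .n)))) (.c k26 (.q k51 [(.s k32 k16 3 (.s k34 k17 4
  (.s k33 k35 0 (.s k18 k3 4 (.d k50 k49 k2 0 3))))), (.s k17 k34 4 (.s k21 k42 6 (.s k25 k29 1 (.s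
  k38 k12 6 (.d k55 k59 k4 1 4))))), (.s k49 k50 0 (.s k53 k58 2 (.s k57 k61 1 (.s k54 k60 2 (.d k55
  k52 k59 0 1)))))] (.c k18 (.q k30 [(.s k50 k49 0 (.s k58 k53 2 (.s k59 k55 1 (.s k57 k56 0 (.d k54
  k62 k60 1 2))))), (.s k34 k17 4 (.s k42 k21 6 (.s k38 k46 1 (.s k25 k12 6 (.d k59 k55 k8 1 4)))))]
  (.c k55 (.l (.s k16 k32 3 (.s k17 k34 4 (.s k21 k42 6 (.s k29 k25 1 (.s k28 k31 0 (.s k24 k20 1
  (.d k12 k46 k36 4 5)))))))) (.c k59 (.l (.s k34 k17 4 (.s k42 k21 6 (.s k46 k38 1 (.s k62 k14 3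
  (.s k50 k49 0 (.d k58 k54 k53 1 2))))))) .n))) (.c k30 (.q k18 [(.s k34 k17 4 (.d k50 k49 k2 0
  3)), (.s k16 k32 3 (.s k19 k17 0 (.d k3 k35 k33 3 4)))] (.c k17 (.l (.s k50 k49 0 (.s k2 k34 3 (.d
  k3 k1 k33 0 4)))) .n)) .n))) (.c k31 (.l (.s k32 k16 3 (.s k58 k53 2 (.s k42 k21 6 (.s k26 k10 3
  (.d k37 k47 k15 2 6)))))) (.c k32 (.f k53 k58 2 (.q k51 [(.s k49 k50 0 (.s k57 k61 1 (.s k55 k59 1
  (.d k54 k52 k60 0 2)))), (.s k17 k34 4 (.s k21 k42 6 (.s k25 k29 1 (.s k38 k12 6 (.d k55 k59 k4 1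
  4))))), (.s k17 k34 4 (.s k21 k42 6 (.s k37 k5 3 (.s k25 k29 1 (.d k49 k50 k13 0 5)))))] (.c k62
  (.l (.s k55 k59 1 (.s k49 k50 0 (.s k54 k52 0 (.d k57 k61 k60 1 2))))) (.c k101 (.q k239 [(.s k49
  k50 0 (.s k57 k61 1 (.s k55 k59 1 (.d k54 k52 k60 0 2)))), (.s k17 k34 4 (.s k21 k42 6 (.s k25 k29
  1 (.s k38 k12 6 (.d k55 k59 k4 1 4))))), (.s k17 k34 4 (.s k21 k42 6 (.s k37 k5 3 (.s k25 k29 1
  (.d k49 k50 k13 0 5)))))] (.c k62 (.l (.s k55 k59 1 (.s k49 k50 0 (.s k54 k52 0 (.d k57 k61 k60 1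
  2))))) .n)) (.c k239 (.q k101 [(.s k49 k50 0 (.s k57 k61 1 (.s k55 k59 1 (.d k54 k52 k60 0 2)))),
  (.s k154 k207 14 (.s k149 k197 11 (.s k192 k106 14 (.d k144 k159 k96 2 11))))] .n) .n))))) (.c k37
  (.f k53 k58 2 (.q k192 [(.s k144 k96 11 (.s k149 k106 14 (.s k101 k197 11 (.d k154 k159 k207 2
  14)))), (.s k32 k16 3 (.s k64 k128 7 (.s k96 k144 11 (.s k160 k224 7 (.d k80 k112 k240 3 11))))),
  (.s k16 k32 3 (.s k149 k106 14 (.s k101 k197 11 (.s k154 k207 14 (.s k85 k223 10 (.d k21 k42 k213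
  6 7))))))] (.c k7 (.q k52 [(.s k60 k56 1 (.s k54 k55 0 (.s k57 k51 2 (.d k61 k62 k49 0 1)))), (.s
  k144 k96 11 (.s k149 k106 14 (.s k101 k197 11 (.d k154 k159 k207 2 14))))] .n) (.c k52 (.q k7 [(.s
  k144 k96 11 (.s k149 k106 14 (.s k101 k197 11 (.d k154 k159 k207 2 14)))), (.s k32 k16 3 (.s k64
  k128 7 (.s k96 k144 11 (.s k160 k224 7 (.d k80 k112 k240 3 11))))), (.s k16 k32 3 (.s k149 k106 14
  (.s k101 k197 11 (.s k154 k207 14 (.s k85 k223 10 (.d k21 k42 k213 6 7))))))] (.c k149 (.l (.s k16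
  k32 3 (.s k128 k64 7 (.s k144 k96 11 (.s k80 k208 7 (.d k160 k176 k240 3 11)))))) .n)) (.c k149
  (.l (.s k16 k32 3 (.s k128 k64 7 (.s k144 k96 11 (.s k80 k208 7 (.d k160 k176 k240 3 11))))))
  .n))))) (.c k42 (.q k62 [(.s k58 k53 2 (.s k54 k50 1 (.s k60 k61 0 (.s k57 k51 2 (.d k56 k59 k52 0
  1))))), (.s k16 k32 3 (.s k60 k61 0 (.s k20 k40 5 (.s k24 k28 1 (.s k36 k12 5 (.d k52 k56 k4 1
  3)))))), (.s k32 k16 3 (.s k58 k53 2 (.s k50 k54 1 (.s k51 k49 0 (.s k34 k17 4 (.s k18 k2 3 (.d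
  k33 k35 k3 0 4)))))))] (.c k52 (.f k53 k58 2 (.l (.s k16 k32 3 (.s k61 k60 0 (.s k49 k57 1 (.s k51
  k50 0 (.s k17 k34 4 (.s k33 k1 3 (.d k18 k3 k19 4 0))))))))) (.c k61 (.q k106 [(.s k53 k58 2 (.s
  k149 k192 14 (.s k101 k197 11 (.s k111 k96 2 (.d k207 k159 k154 11 14))))), (.s k16 k32 3 (.s k192
  k149 14 (.s k128 k64 7 (.s k144 k96 11 (.s k80 k208 7 (.d k160 k176 k240 3 11)))))), (.s k58 k53 2
  (.s k50 k54 1 (.s k154 k202 11 (.s k102 k206 13 (.s k194 k150 13 (.d k98 k110 k146 1 11))))))] .n)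
  (.c k106 (.q k234 [(.s k58 k53 2 (.s k54 k50 1 (.s k60 k61 0 (.s k57 k51 2 (.d k56 k59 k52 0
  1))))), (.s k16 k32 3 (.s k60 k61 0 (.s k20 k40 5 (.s k24 k28 1 (.s k36 k12 5 (.d k52 k56 k4 1
  3)))))), (.s k32 k16 3 (.s k58 k53 2 (.s k50 k54 1 (.s k51 k49 0 (.s k34 k17 4 (.s k18 k2 3 (.d
  k33 k35 k3 0 4)))))))] (.c k52 (.f k53 k58 2 (.l (.s k16 k32 3 (.s k61 k60 0 (.s k49 k57 1 (.s k51
  k50 0 (.s k17 k34 4 (.s k33 k1 3 (.d k18 k3 k19 4 0))))))))) (.c k61 (.q k254 [(.s k58 k53 2 (.s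
  k50 k54 1 (.s k186 k118 9 (.s k122 k250 7 (.s k182 k242 9 (.d k190 k178 k126 1 7)))))), (.s k16
  k32 3 (.s k126 k190 7 (.s k252 k189 8 (.s k84 k168 13 (.s k152 k220 9 (.s k100 k204 13 (.d k116
  k68 k184 3 9))))))), (.s k58 k53 2 (.s k50 k54 1 (.s k186 k118 9 (.s k117 k255 10 (.s k122 k250 7
  (.s k240 k181 10 (.d k112 k127 k176 2 7)))))))] .n) .n))) (.c k234 (.q k106 [(.s k58 k53 2 (.s k54
  k50 1 (.s k60 k61 0 (.s k56 k52 1 (.d k57 k59 k51 0 2))))), (.s k53 k58 2 (.s k149 k192 14 (.s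
  k101 k197 11 (.s k207 k154 14 (.d k111 k96 k159 2 11))))), (.s k60 k61 0 (.s k150 k194 13 (.s k105
  k195 14 (.s k192 k149 14 (.d k104 k107 k148 0 13)))))] .n) .n))))) (.c k47 (.l (.s k16 k32 3 (.s
  k53 k58 2 (.s k21 k42 6 (.s k37 k5 3 (.d k26 k31 k15 2 6)))))) (.c k53 (.q k51 [(.s k32 k16 3 (.s
  k34 k17 4 (.s k33 k35 0 (.s k18 k3 4 (.d k50 k49 k2 0 3))))), (.s k17 k34 4 (.s k21 k42 6 (.s k25
  k29 1 (.s k38 k12 6 (.d k55 k59 k4 1 4))))), (.s k16 k32 3 (.s k21 k42 6 (.s k26 k31 2 (.s k50 k49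
  0 (.s k38 k14 5 (.d k55 k59 k4 1 4))))))] (.c k2 (.l (.s k16 k32 3 (.s k17 k34 4 (.s k18 k19 0 (.s
  k33 k3 4 (.d k49 k50 k1 0 3)))))) .n)) (.c k58 (.q k51 [(.s k32 k16 3 (.s k34 k17 4 (.s k33 k35 0
  (.s k18 k3 4 (.d k50 k49 k2 0 3))))), (.s k17 k34 4 (.s k21 k42 6 (.s k25 k29 1 (.s k38 k12 6 (.d
  k55 k59 k4 1 4))))), (.s k16 k32 3 (.s k21 k42 6 (.s k26 k31 2 (.s k50 k49 0 (.s k38 k14 5 (.d k55
  k59 k4 1 4))))))] (.c k2 (.l (.s k16 k32 3 (.s k17 k34 4 (.s k18 k19 0 (.s k33 k3 4 (.d k49 k50 k1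
  0 3)))))) .n)) .n))))))))))))

def t23 : T TT 256 :=
  (.q k15 [(.s k10 k5 2 (.s k42 k21 6 (.s k26 k58 3 (.s k37 k48 6 (.d k47 k32 k31 2 3))))), (.s k5
  k10 2 (.s k21 k42 6 (.s k37 k53 3 (.s k26 k48 6 (.d k31 k16 k47 2 3)))))] (.c k5 (.q k12 [(.s k13
  k14 0 (.s k29 k46 4 (.s k45 k61 3 (.s k30 k60 4 (.d k31 k28 k47 0 3))))), (.s k4 k8 1 (.s k21 k42
  6 (.s k38 k55 4 (.s k25 k51 6 (.d k29 k17 k46 1 4))))), (.s k4 k8 1 (.s k21 k42 6 (.s k38 k55 4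
  (.s k14 k13 0 (.s k26 k50 5 (.d k31 k16 k47 2 3))))))] .n) (.c k10 (.f k31 k47 3 (.q k12 [(.s k29
  k46 4 (.s k30 k28 0 (.s k45 k60 4 (.d k13 k14 k61 0 3)))), (.s k4 k8 1 (.s k21 k42 6 (.s k38 k55 4
  (.s k25 k51 6 (.d k29 k17 k46 1 4))))), (.s k4 k8 1 (.s k21 k42 6 (.s k38 k55 4 (.s k14 k13 0 (.d
  k26 k16 k50 2 5)))))] (.c k90 (.q k250 [(.s k29 k46 4 (.s k30 k28 0 (.s k45 k60 4 (.d k13 k14 k61
  0 3)))), (.s k4 k8 1 (.s k21 k42 6 (.s k38 k55 4 (.s k25 k51 6 (.d k29 k17 k46 1 4))))), (.s k4 k8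
  1 (.s k21 k42 6 (.s k38 k55 4 (.s k14 k13 0 (.d k26 k16 k50 2 5)))))] .n) (.c k250 (.q k90 [(.s
  k29 k46 4 (.s k30 k28 0 (.s k45 k60 4 (.d k13 k14 k61 0 3)))), (.s k165 k240 14 (.s k149 k208 10
  (.s k192 k106 14 (.d k133 k181 k74 3 10))))] .n) .n)))) (.c k21 (.f k31 k47 3 (.q k12 [(.s k13 k14
  0 (.s k29 k46 4 (.s k30 k28 0 (.d k45 k61 k60 3 4)))), (.s k4 k8 1 (.s k5 k10 2 (.s k6 k7 0 (.s k9
  k3 2 (.d k13 k14 k1 0 1)))))] (.c k13 (.f k5 k10 2 (.q k20 [(.s k60 k40 5 (.s k29 k46 4 (.d k28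
  k44 k30 3 0))), (.s k4 k8 1 (.s k40 k60 5 (.s k36 k52 3 (.s k48 k24 5 (.d k32 k44 k16 1 3))))),
  (.s k4 k8 1 (.s k36 k52 3 (.s k24 k48 5 (.s k28 k16 1 (.d k29 k30 k46 0 4)))))] (.c k60 (.l (.s k4
  k8 1 (.s k36 k52 3 (.s k29 k46 4 (.s k28 k30 0 (.d k24 k48 k16 5 1)))))) (.c k90 (.q k250 [(.s k60
  k40 5 (.s k29 k46 4 (.d k28 k44 k30 3 0))), (.s k4 k8 1 (.s k40 k60 5 (.s k36 k52 3 (.s k48 k24 5
  (.d k32 k44 k16 1 3))))), (.s k4 k8 1 (.s k36 k52 3 (.s k24 k48 5 (.s k28 k16 1 (.d k29 k30 k46 0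
  4)))))] (.c k60 (.l (.s k4 k8 1 (.s k36 k52 3 (.s k29 k46 4 (.s k28 k30 0 (.d k24 k48 k16 5
  1)))))) .n)) (.c k250 (.q k90 [(.s k60 k40 5 (.s k29 k46 4 (.d k28 k44 k30 3 0))), (.s k165 k240
  14 (.s k149 k208 10 (.s k192 k106 14 (.d k133 k181 k74 3 10))))] .n) .n))))) (.c k14 (.f k5 k10 2
  (.l (.s k4 k8 1 (.s k6 k7 0 (.s k9 k3 2 (.s k13 k1 1 (.s k29 k46 4 (.s k30 k28 0 (.d k45 k61 k60 3
  4))))))))) (.c k20 (.q k22 [(.s k13 k14 0 (.s k29 k46 4 (.s k45 k61 3 (.d k30 k28 k60 0 4)))), (.s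
  k4 k8 1 (.s k5 k10 2 (.s k6 k7 0 (.s k9 k3 2 (.d k13 k14 k1 0 1))))), (.s k10 k5 2 (.s k29 k46 4
  (.s k30 k28 0 (.s k26 k18 1 (.s k58 k42 3 (.d k48 k53 k37 2 6))))))] .n) (.c k22 (.q k20 [(.s k60
  k40 5 (.s k29 k46 4 (.d k28 k44 k30 3 0))), (.s k4 k8 1 (.s k5 k10 2 (.s k6 k7 0 (.s k13 k14 0 (.d
  k9 k1 k3 1 2)))))] .n) .n)))))) (.c k26 (.q k12 [(.s k13 k14 0 (.s k29 k46 4 (.s k45 k61 3 (.s k30
  k60 4 (.d k31 k28 k47 0 3))))), (.s k4 k8 1 (.s k5 k10 2 (.s k6 k7 0 (.s k9 k3 2 (.d k13 k14 k1 0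
  1))))), (.s k4 k8 1 (.s k21 k42 6 (.s k38 k55 4 (.s k25 k51 6 (.d k29 k17 k46 1 4)))))] .n) (.c
  k31 (.q k12 [(.s k8 k4 1 (.s k10 k5 2 (.s k9 k11 0 (.s k6 k3 2 (.d k14 k13 k2 0 1))))), (.s k4 k8
  1 (.s k21 k42 6 (.s k29 k46 4 (.s k25 k17 1 (.d k38 k55 k51 4 6))))), (.s k5 k10 2 (.s k21 k42 6
  (.s k37 k53 3 (.s k13 k14 0 (.s k29 k46 4 (.d k25 k17 k49 1 5))))))] (.c k19 (.q k27 [(.s k21 k42
  6 (.s k29 k46 4 (.s k51 k39 5 (.d k17 k34 k25 4 1)))), (.s k4 k8 1 (.s k5 k10 2 (.s k13 k14 0 (.s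
  k9 k1 1 (.d k6 k7 k3 0 2)))))] (.c k7 (.l (.s k4 k8 1 (.s k21 k42 6 (.s k55 k38 4 (.d k51 k59 k39
  1 5))))) .n)) (.c k27 (.q k19 [(.s k8 k4 1 (.s k10 k5 2 (.s k9 k11 0 (.s k6 k3 2 (.d k14 k13 k2 0
  1))))), (.s k4 k8 1 (.s k21 k42 6 (.s k29 k46 4 (.s k25 k17 1 (.d k38 k55 k51 4 6))))), (.s k5 k10
  2 (.s k21 k42 6 (.s k37 k53 3 (.s k13 k14 0 (.s k29 k46 4 (.d k25 k17 k49 1 5))))))] .n) .n))) (.c
  k37 (.q k12 [(.s k13 k14 0 (.s k29 k46 4 (.s k45 k61 3 (.s k30 k60 4 (.d k31 k28 k47 0 3))))), (.s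
  k4 k8 1 (.s k5 k10 2 (.s k6 k7 0 (.s k9 k3 2 (.d k13 k14 k1 0 1))))), (.s k4 k8 1 (.s k21 k42 6
  (.s k38 k55 4 (.s k25 k51 6 (.d k29 k17 k46 1 4)))))] .n) (.c k42 (.q k106 [(.s k31 k47 3 (.s k149
  k192 14 (.s k90 k208 10 (.s k122 k74 3 (.d k240 k181 k165 10 14))))), (.s k5 k10 2 (.s k192 k149
  14 (.s k128 k64 7 (.s k133 k74 10 (.s k69 k197 7 (.d k138 k143 k207 2 10))))))] (.c k74 (.l (.s
  k47 k31 3 (.s k165 k224 10 (.s k240 k90 14 (.s k149 k192 14 (.d k181 k133 k122 3 10)))))) (.c k90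
  (.l (.s k10 k5 2 (.s k192 k149 14 (.s k74 k133 10 (.s k138 k202 7 (.s k69 k207 10 (.d k64 k128 k79
  7 2))))))) (.c k149 (.f k5 k10 2 (.l (.s k47 k31 3 (.s k165 k224 10 (.s k85 k245 11 (.s k90 k240
  14 (.s k64 k127 6 (.s k74 k122 3 (.d k192 k128 k133 7 10))))))))) (.c k192 (.f k5 k10 2 (.l (.s
  k47 k31 3 (.s k165 k224 10 (.s k85 k245 11 (.s k127 k64 6 (.s k255 k191 7 (.s k95 k175 11 (.d k90
  k240 k80 14 2))))))))) .n))))) (.c k47 (.q k12 [(.s k8 k4 1 (.s k10 k5 2 (.s k9 k11 0 (.s k6 k3 2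
  (.d k14 k13 k2 0 1))))), (.s k4 k8 1 (.s k21 k42 6 (.s k29 k46 4 (.s k25 k17 1 (.d k38 k55 k51 4
  6))))), (.s k5 k10 2 (.s k21 k42 6 (.s k37 k53 3 (.s k13 k14 0 (.s k29 k46 4 (.d k25 k17 k49 1
  5))))))] .n) (.c k48 (.q k12 [(.s k13 k14 0 (.s k29 k46 4 (.s k45 k61 3 (.s k30 k60 4 (.d k31 k28
  k47 0 3))))), (.s k4 k8 1 (.s k5 k10 2 (.s k6 k7 0 (.s k9 k3 2 (.d k13 k14 k1 0 1))))), (.s k4 k8
  1 (.s k21 k42 6 (.s k38 k55 4 (.s k25 k51 6 (.d k29 k17 k46 1 4)))))] .n) (.c k53 (.l (.s k10 k5 2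
  (.s k47 k31 3 (.s k42 k21 6 (.s k37 k32 2 (.d k26 k58 k48 3 6)))))) (.c k58 (.l (.s k5 k10 2 (.s
  k31 k47 3 (.s k21 k42 6 (.s k26 k16 2 (.d k37 k53 k48 3 6)))))) .n))))))))))))

def t26 : T TT 256 :=
  (.q k60 [(.s k40 k20 5 (.s k42 k21 6 (.s k41 k43 0 (.s k22 k3 6 (.d k62 k61 k2 0 5))))), (.s k20
  k40 5 (.s k21 k42 6 (.s k22 k23 0 (.s k41 k3 6 (.d k61 k62 k1 0 5)))))] (.c k3 (.q k12 [(.s k4 k8
  1 (.s k20 k40 5 (.s k36 k52 3 (.s k28 k44 3 (.d k24 k16 k48 1 5))))), (.s k28 k44 3 (.s k29 k46 4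
  (.s k30 k31 0 (.s k45 k15 4 (.d k61 k62 k13 0 3))))), (.s k4 k8 1 (.s k21 k42 6 (.s k38 k55 4 (.s
  k25 k51 6 (.d k29 k17 k46 1 4)))))] .n) (.c k20 (.q k12 [(.s k28 k44 3 (.s k29 k46 4 (.s k61 k62 0
  (.s k45 k13 3 (.d k30 k31 k15 0 4))))), (.s k4 k8 1 (.s k21 k42 6 (.s k38 k55 4 (.s k25 k51 6 (.d
  k29 k17 k46 1 4))))), (.s k4 k8 1 (.s k21 k42 6 (.s k38 k55 4 (.s k44 k28 3 (.s k41 k35 2 (.d k61
  k62 k1 0 5))))))] .n) (.c k21 (.q k12 [(.s k28 k44 3 (.s k29 k46 4 (.s k61 k62 0 (.s k45 k13 3 (.d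
  k30 k31 k15 0 4))))), (.s k4 k8 1 (.s k20 k40 5 (.s k36 k52 3 (.s k28 k44 3 (.d k24 k16 k48 1
  5)))))] (.c k16 (.q k31 [(.s k28 k44 3 (.d k29 k30 k46 0 4)), (.s k8 k4 1 (.s k40 k20 5 (.s k24
  k56 3 (.s k36 k48 5 (.d k44 k28 k32 3 1)))))] (.c k28 (.l (.s k29 k46 4 (.s k15 k47 3 (.s k13 k14
  0 (.d k45 k30 k61 4 3))))) (.c k44 (.l (.s k29 k46 4 (.s k30 k28 0 (.d k15 k47 k45 3 4)))) .n)))
  (.c k28 (.q k15 [(.s k13 k14 0 (.s k29 k46 4 (.d k45 k30 k61 4 3))), (.s k4 k8 1 (.s k5 k10 2 (.s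
  k20 k40 5 (.s k7 k6 0 (.s k52 k36 3 (.s k22 k37 4 (.d k3 k11 k41 1 6))))))), (.s k4 k8 1 (.s k5
  k10 2 (.s k6 k7 0 (.s k9 k3 2 (.s k13 k1 1 (.s k29 k46 4 (.d k45 k61 k30 3 4)))))))] (.c k16 (.l
  (.s k31 k47 3 (.s k13 k14 0 (.s k29 k46 4 (.d k45 k30 k61 4 3))))) (.c k31 (.q k16 [(.s k13 k14 0
  (.s k29 k46 4 (.d k45 k30 k61 4 3))), (.s k4 k8 1 (.s k48 k32 3 (.s k20 k40 5 (.d k36 k24 k52 5
  3))))] (.c k29 (.l (.s k30 k45 4 (.s k4 k8 1 (.s k48 k32 3 (.s k20 k40 5 (.d k36 k24 k52 5 3))))))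
  (.c k30 (.l (.s k29 k46 4 (.s k4 k8 1 (.s k48 k32 3 (.s k20 k40 5 (.d k36 k24 k52 5 3)))))) .n)))
  .n))) (.c k31 (.q k16 [(.s k28 k44 3 (.d k20 k24 k40 1 5)), (.s k44 k28 3 (.s k62 k61 0 (.s k46
  k29 4 (.s k30 k14 3 (.d k45 k47 k15 0 4)))))] (.c k28 (.l (.s k4 k8 1 (.s k48 k32 3 (.s k20 k40 5
  (.d k36 k24 k52 5 3))))) (.c k44 (.l (.s k20 k40 5 (.s k24 k28 1 (.d k48 k32 k36 3 5)))) .n))) (.c
  k44 (.q k16 [(.s k20 k40 5 (.s k24 k28 1 (.d k48 k32 k36 3 5))), (.s k48 k32 3 (.s k52 k56 1 (.s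
  k53 k58 2 (.s k54 k55 0 (.s k57 k51 2 (.d k61 k62 k49 0 1)))))), (.s k29 k46 4 (.s k61 k62 0 (.s
  k45 k13 3 (.s k30 k15 4 (.s k28 k31 0 (.d k20 k24 k40 1 5))))))] (.c k40 (.l (.s k48 k32 3 (.s k36
  k24 5 (.s k56 k52 1 (.s k58 k53 2 (.s k57 k59 0 (.s k54 k51 2 (.d k62 k61 k50 0 1)))))))) (.c k48
  (.l (.s k20 k40 5 (.s k29 k46 4 (.s k28 k24 1 (.s k30 k31 0 (.s k61 k62 0 (.d k45 k13 k15 3
  4))))))) .n))) .n))))) (.c k22 (.q k12 [(.s k28 k44 3 (.s k29 k46 4 (.s k30 k31 0 (.s k45 k15 4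
  (.d k61 k62 k13 0 3))))), (.s k4 k8 1 (.s k21 k42 6 (.s k38 k55 4 (.s k25 k51 6 (.d k29 k17 k46 1
  4))))), (.s k4 k8 1 (.s k20 k40 5 (.s k36 k52 3 (.s k24 k48 5 (.d k28 k16 k44 1 3)))))] (.c k18
  (.q k30 [(.s k28 k44 3 (.d k29 k31 k46 0 4)), (.s k62 k61 0 (.s k14 k46 3 (.d k15 k13 k45 0 4)))]
  (.c k46 (.l (.s k28 k44 3 (.s k31 k29 0 (.d k15 k47 k45 3 4)))) .n)) (.c k30 (.q k18 [(.s k4 k8 1
  (.s k20 k40 5 (.s k36 k52 3 (.s k28 k44 3 (.d k24 k16 k48 1 5))))), (.s k4 k8 1 (.s k21 k42 6 (.s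
  k38 k55 4 (.s k25 k51 6 (.d k29 k17 k46 1 4))))), (.s k20 k40 5 (.s k21 k42 6 (.s k28 k44 3 (.s
  k29 k46 4 (.s k16 k24 1 (.d k17 k25 k19 1 0))))))] (.c k8 (.l (.s k20 k40 5 (.s k42 k21 6 (.s k28
  k44 3 (.s k46 k29 4 (.s k34 k38 1 (.s k17 k51 4 (.d k16 k24 k19 1 0)))))))) .n)) .n))) (.c k23 (.l
  (.s k40 k20 5 (.s k62 k61 0 (.s k42 k21 6 (.s k22 k2 5 (.d k41 k43 k3 0 6)))))) (.c k40 (.q k12
  [(.s k8 k4 1 (.s k42 k21 6 (.s k25 k59 4 (.s k38 k51 6 (.d k46 k34 k29 1 4))))), (.s k28 k44 3 (.s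
  k29 k46 4 (.s k61 k62 0 (.s k45 k13 3 (.d k30 k31 k15 0 4))))), (.s k4 k8 1 (.s k21 k42 6 (.s k38
  k55 4 (.s k44 k28 3 (.s k41 k35 2 (.d k61 k62 k1 0 5))))))] (.c k105 (.q k235 [(.s k8 k4 1 (.s k42
  k21 6 (.s k25 k59 4 (.s k38 k51 6 (.d k46 k34 k29 1 4))))), (.s k28 k44 3 (.s k29 k46 4 (.s k61
  k62 0 (.s k45 k13 3 (.d k30 k31 k15 0 4))))), (.s k4 k8 1 (.s k21 k42 6 (.s k38 k55 4 (.s k44 k28
  3 (.s k41 k35 2 (.d k61 k62 k1 0 5))))))] .n) (.c k235 (.q k105 [(.s k8 k4 1 (.s k42 k21 6 (.s k25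
  k59 4 (.s k38 k51 6 (.d k46 k34 k29 1 4))))), (.s k28 k44 3 (.s k150 k195 14 (.s k89 k211 10 (.s
  k243 k166 14 (.d k121 k73 k182 3 10)))))] .n) .n))) (.c k41 (.q k12 [(.s k8 k4 1 (.s k40 k20 5 (.s
  k44 k28 3 (.s k36 k32 1 (.d k24 k56 k48 3 5))))), (.s k4 k8 1 (.s k21 k42 6 (.s k38 k55 4 (.s k25
  k51 6 (.d k29 k17 k46 1 4))))), (.s k28 k44 3 (.s k29 k46 4 (.s k30 k31 0 (.s k45 k15 4 (.d k61
  k62 k13 0 3)))))] (.c k11 (.q k56 [(.s k8 k4 1 (.d k40 k24 k20 3 5)), (.s k8 k4 1 (.s k42 k21 6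
  (.s k25 k59 4 (.s k38 k51 6 (.d k46 k34 k29 1 4))))), (.s k20 k40 5 (.s k28 k44 3 (.s k16 k24 1
  (.d k48 k32 k52 3 1))))] .n) (.c k56 (.q k11 [(.s k44 k28 3 (.s k46 k29 4 (.s k45 k47 0 (.s k30
  k15 4 (.d k62 k61 k14 0 3))))), (.s k4 k8 1 (.s k21 k42 6 (.s k38 k55 4 (.s k25 k51 6 (.d k29 k17
  k46 1 4))))), (.s k4 k8 1 (.s k28 k44 3 (.s k20 k40 5 (.s k24 k16 1 (.d k36 k52 k48 3 5)))))] .n)
  .n))) (.c k42 (.q k106 [(.s k62 k61 0 (.s k150 k194 13 (.s k105 k195 14 (.s k192 k149 14 (.d k104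
  k107 k148 0 13))))), (.s k20 k40 5 (.s k192 k149 14 (.s k128 k64 7 (.s k148 k104 13 (.s k84 k212 7
  (.d k168 k188 k252 5 13)))))), (.s k61 k62 0 (.s k149 k192 14 (.s k105 k193 13 (.s k195 k150 14
  (.d k107 k104 k151 0 13)))))] (.c k10 (.q k58 [(.s k48 k53 2 (.s k56 k52 1 (.s k57 k59 0 (.s k54
  k51 2 (.d k62 k61 k50 0 1))))), (.s k61 k62 0 (.s k149 k192 14 (.s k105 k193 13 (.s k195 k150 14
  (.d k107 k104 k151 0 13))))), (.s k48 k53 2 (.s k154 k202 11 (.s k101 k207 14 (.s k192 k149 14 (.d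
  k96 k111 k144 2 11)))))] (.c k90 (.q k250 [(.s k48 k53 2 (.s k56 k52 1 (.s k57 k59 0 (.s k54 k51 2
  (.d k62 k61 k50 0 1))))), (.s k61 k62 0 (.s k149 k192 14 (.s k105 k193 13 (.s k195 k150 14 (.d
  k107 k104 k151 0 13))))), (.s k48 k53 2 (.s k154 k202 11 (.s k101 k207 14 (.s k192 k149 14 (.d k96
  k111 k144 2 11)))))] (.c k154 (.q k218 [(.s k48 k53 2 (.s k56 k52 1 (.s k57 k59 0 (.s k54 k51 2
  (.d k62 k61 k50 0 1))))), (.s k61 k62 0 (.s k149 k192 14 (.s k105 k193 13 (.s k195 k150 14 (.d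
  k107 k104 k151 0 13))))), (.s k48 k53 2 (.s k186 k122 7 (.s k255 k117 10 (.s k192 k149 14 (.d k234
  k202 k213 3 6)))))] (.c k138 (.l (.s k186 k122 7 (.s k48 k53 2 (.s k255 k117 10 (.s k192 k149 14
  (.d k234 k202 k213 3 6)))))) (.c k186 (.q k138 [(.s k207 k69 10 (.s k202 k234 3 (.d k192 k197 k149
  2 14))), (.s k48 k53 2 (.s k56 k52 1 (.s k57 k59 0 (.s k54 k51 2 (.d k62 k61 k50 0 1)))))] .n)
  .n))) (.c k218 (.l (.s k154 k202 11 (.s k48 k53 2 (.s k101 k207 14 (.s k192 k149 14 (.d k96 k111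
  k144 2 11)))))) .n))) (.c k250 (.q k90 [(.s k48 k53 2 (.s k56 k52 1 (.s k57 k59 0 (.s k54 k51 2
  (.d k62 k61 k50 0 1))))), (.s k61 k62 0 (.s k149 k192 14 (.s k105 k193 13 (.s k195 k150 14 (.d
  k107 k104 k151 0 13))))), (.s k48 k53 2 (.s k154 k202 11 (.s k101 k207 14 (.s k192 k149 14 (.d k96
  k111 k144 2 11)))))] .n) .n))) (.c k58 (.q k10 [(.s k62 k61 0 (.s k150 k194 13 (.s k105 k195 14
  (.s k192 k149 14 (.d k104 k107 k148 0 13))))), (.s k15 k5 2 (.s k31 k47 3 (.s k149 k192 14 (.s k90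
  k208 10 (.s k240 k165 14 (.d k122 k74 k181 3 10)))))), (.s k15 k5 2 (.s k30 k45 4 (.s k31 k47 3
  (.s k29 k28 0 (.s k46 k12 4 (.d k62 k61 k14 0 3))))))] .n) (.c k104 (.l (.s k62 k61 0 (.s k150
  k194 13 (.s k195 k105 14 (.s k149 k192 14 (.d k151 k148 k107 0 13)))))) (.c k105 (.l (.s k40 k20 5
  (.s k192 k149 14 (.s k104 k148 13 (.s k168 k232 7 (.s k84 k252 13 (.d k64 k128 k124 7 5))))))) (.c
  k149 (.q k58 [(.s k48 k53 2 (.s k56 k52 1 (.s k57 k59 0 (.s k54 k51 2 (.d k62 k61 k50 0 1))))),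
  (.s k154 k202 11 (.s k62 k61 0 (.s k50 k54 1 (.s k102 k206 13 (.s k194 k150 13 (.d k98 k110 k146 1
  11)))))), (.s k20 k40 5 (.s k48 k53 2 (.s k16 k32 3 (.s k24 k28 1 (.s k36 k12 5 (.d k52 k56 k4 1
  3))))))] (.c k128 (.q k191 [(.s k20 k40 5 (.s k62 k61 0 (.s k150 k194 13 (.s k85 k215 8 (.d k127
  k64 k255 6 7))))), (.s k48 k53 2 (.s k56 k52 1 (.s k57 k59 0 (.s k54 k51 2 (.d k62 k61 k50 0
  1))))), (.s k48 k53 2 (.s k16 k32 3 (.s k154 k202 11 (.s k85 k223 10 (.d k127 k64 k255 6 7)))))]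
  .n) (.c k191 (.q k128 [(.s k20 k40 5 (.s k64 k192 7 (.s k85 k127 6 (.s k150 k215 8 (.d k62 k61
  k194 0 13))))), (.s k48 k53 2 (.s k56 k52 1 (.s k57 k59 0 (.s k54 k51 2 (.d k62 k61 k50 0 1))))),
  (.s k64 k192 7 (.s k48 k53 2 (.s k16 k32 3 (.s k154 k202 11 (.d k85 k127 k223 6 10)))))] .n) .n)))
  (.c k192 (.q k58 [(.s k48 k53 2 (.s k56 k52 1 (.s k57 k59 0 (.s k62 k61 0 (.d k54 k50 k51 1
  2))))), (.s k154 k202 11 (.s k62 k61 0 (.s k50 k54 1 (.s k102 k206 13 (.s k194 k150 13 (.d k98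
  k110 k146 1 11)))))), (.s k20 k40 5 (.s k48 k53 2 (.s k16 k32 3 (.s k24 k28 1 (.s k36 k12 5 (.d
  k52 k56 k4 1 3))))))] .n) .n))))))) (.c k43 (.l (.s k20 k40 5 (.s k61 k62 0 (.s k21 k42 6 (.s k41
  k1 5 (.d k22 k23 k3 0 6)))))) (.c k61 (.q k12 [(.s k4 k8 1 (.s k20 k40 5 (.s k36 k52 3 (.s k28 k44
  3 (.d k24 k16 k48 1 5))))), (.s k4 k8 1 (.s k21 k42 6 (.s k38 k55 4 (.s k25 k51 6 (.d k29 k17 k46
  1 4))))), (.s k20 k40 5 (.s k21 k42 6 (.s k28 k44 3 (.s k29 k46 4 (.s k25 k17 1 (.d k22 k23 k19 0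
  2))))))] .n) (.c k62 (.q k12 [(.s k4 k8 1 (.s k20 k40 5 (.s k36 k52 3 (.s k28 k44 3 (.d k24 k16
  k48 1 5))))), (.s k4 k8 1 (.s k21 k42 6 (.s k38 k55 4 (.s k25 k51 6 (.d k29 k17 k46 1 4))))), (.s
  k20 k40 5 (.s k21 k42 6 (.s k28 k44 3 (.s k29 k46 4 (.s k25 k17 1 (.d k22 k23 k19 0 2))))))] .n)
  .n))))))))))))

def t27 : T TT 256 :=
  (.q k3 [(.s k2 k1 0 (.s k42 k21 6 (.s k22 k62 5 (.s k41 k60 6 (.d k43 k40 k23 0 5)))))] (.c k1 (.q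
  k48 [(.s k32 k16 3 (.s k42 k21 6 (.s k37 k47 2 (.s k26 k15 6 (.d k58 k53 k10 2 3))))), (.s k21 k42
  6 (.s k18 k33 4 (.s k23 k43 5 (.s k22 k20 0 (.s k26 k30 1 (.d k16 k31 k32 2 3)))))), (.s k21 k42 6
  (.s k18 k33 4 (.s k23 k43 5 (.s k22 k20 0 (.s k26 k30 1 (.s k37 k15 6 (.d k53 k58 k5 2 3))))))),
  (.s k32 k16 3 (.s k33 k18 4 (.s k43 k23 5 (.s k35 k34 0 (.s k47 k39 1 (.s k37 k42 2 (.d k15 k31
  k26 3 6)))))))] (.c k26 (.l (.s k32 k16 3 (.s k33 k18 4 (.s k43 k23 5 (.s k35 k34 0 (.s k47 k39 1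
  (.d k42 k21 k37 6 2))))))) (.c k42 (.q k106 [(.s k43 k23 5 (.s k169 k232 8 (.s k86 k252 14 (.s
  k192 k149 14 (.d k66 k126 k129 5 8))))), (.s k53 k58 2 (.s k149 k192 14 (.s k101 k197 11 (.s k207
  k154 14 (.d k111 k96 k159 2 11))))), (.s k18 k33 4 (.s k43 k23 5 (.s k169 k232 8 (.s k58 k53 2 (.s
  k154 k202 11 (.d k86 k222 k252 9 14))))))] .n) .n))) (.c k2 (.f k42 k21 6 (.q k48 [(.s k32 k16 3
  (.s k37 k47 2 (.s k58 k53 2 (.d k26 k10 k15 3 6)))), (.s k33 k18 4 (.s k43 k23 5 (.s k41 k40 0 (.s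
  k37 k45 1 (.d k32 k47 k16 2 3))))), (.s k18 k33 4 (.s k43 k23 5 (.s k41 k40 0 (.s k22 k60 6 (.s
  k26 k30 1 (.d k58 k53 k10 2 3))))))] (.c k31 (.l (.s k58 k53 2 (.s k32 k16 3 (.s k26 k10 3 (.d k37
  k47 k15 2 6))))) (.c k86 (.q k254 [(.s k32 k16 3 (.s k37 k47 2 (.s k58 k53 2 (.d k26 k10 k15 3
  6)))), (.s k33 k18 4 (.s k43 k23 5 (.s k41 k40 0 (.s k37 k45 1 (.d k32 k47 k16 2 3))))), (.s k18
  k33 4 (.s k43 k23 5 (.s k41 k40 0 (.s k22 k60 6 (.s k26 k30 1 (.d k58 k53 k10 2 3))))))] (.c k31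
  (.l (.s k58 k53 2 (.s k32 k16 3 (.s k26 k10 3 (.d k37 k47 k15 2 6))))) .n)) (.c k254 (.q k86 [(.s
  k32 k16 3 (.s k37 k47 2 (.s k58 k53 2 (.d k26 k10 k15 3 6)))), (.s k18 k33 4 (.s k169 k252 14 (.s
  k154 k222 9 (.s k139 k184 4 (.d k207 k71 k101 9 14)))))] .n) .n))))) (.c k21 (.q k192 [(.s k1 k2 0
  (.s k128 k64 7 (.s k129 k66 8 (.s k65 k193 7 (.d k130 k131 k195 0 8))))), (.s k23 k43 5 (.s k129
  k66 8 (.s k149 k106 14 (.s k86 k212 8 (.d k169 k189 k252 5 14))))), (.s k1 k2 0 (.s k43 k23 5 (.s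
  k106 k149 14 (.s k169 k232 8 (.s k85 k253 13 (.d k64 k128 k127 7 6))))))] (.c k86 (.l (.s k2 k1 0
  (.s k64 k128 7 (.s k66 k129 8 (.s k130 k194 7 (.d k65 k67 k195 0 8)))))) .n)) (.c k22 (.q k51 [(.s
  k2 k1 0 (.s k34 k17 4 (.s k18 k50 3 (.s k33 k48 4 (.d k35 k32 k19 0 3))))), (.s k34 k17 4 (.s k42
  k21 6 (.s k38 k46 1 (.s k25 k12 6 (.d k59 k55 k8 1 4))))), (.s k21 k42 6 (.s k35 k19 3 (.s k55 k59
  1 (.s k38 k4 4 (.s k41 k44 2 (.d k1 k2 k61 0 5))))))] .n) (.c k23 (.q k51 [(.s k2 k1 0 (.s k34 k17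
  4 (.s k18 k50 3 (.s k33 k48 4 (.d k35 k19 k32 3 0))))), (.s k17 k34 4 (.s k21 k42 6 (.s k25 k29 1
  (.s k38 k12 6 (.d k55 k59 k4 1 4))))), (.s k1 k2 0 (.s k21 k42 6 (.s k41 k61 5 (.s k55 k59 1 (.s
  k38 k4 4 (.d k35 k19 k44 3 2))))))] (.c k19 (.q k31 [(.s k17 k34 4 (.s k21 k42 6 (.s k25 k29 1 (.s
  k38 k12 6 (.d k55 k59 k4 1 4))))), (.s k1 k2 0 (.s k15 k47 3 (.s k5 k10 2 (.s k9 k13 1 (.s k6 k12
  2 (.d k7 k4 k11 0 1)))))), (.s k21 k42 6 (.s k15 k47 3 (.s k5 k10 2 (.s k37 k53 3 (.d k26 k16 k48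
  2 6)))))] .n) (.c k31 (.l (.s k19 k35 3 (.s k1 k2 0 (.s k17 k34 4 (.s k33 k49 3 (.d k18 k16 k48 0
  4)))))) .n))) (.c k40 (.l (.s k1 k2 0 (.s k21 k42 6 (.s k41 k61 5 (.s k22 k60 6 (.d k23 k43 k20 5
  0)))))) (.c k41 (.q k51 [(.s k2 k1 0 (.s k34 k17 4 (.s k18 k50 3 (.s k33 k48 4 (.d k35 k32 k19 0
  3))))), (.s k17 k34 4 (.s k21 k42 6 (.s k25 k29 1 (.s k38 k12 6 (.d k55 k59 k4 1 4))))), (.s k42
  k21 6 (.s k19 k35 3 (.s k59 k55 1 (.s k25 k8 4 (.s k22 k28 2 (.d k2 k1 k62 0 5))))))] (.c k21 (.l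
  (.s k1 k2 0 (.s k17 k34 4 (.s k33 k49 3 (.s k18 k48 4 (.d k19 k16 k35 0 3)))))) .n)) (.c k42 (.q
  k106 [(.s k43 k23 5 (.s k169 k232 8 (.s k86 k252 14 (.s k192 k149 14 (.d k66 k126 k129 5 8))))),
  (.s k1 k2 0 (.s k192 k149 14 (.s k128 k64 7 (.s k129 k66 8 (.s k65 k193 7 (.d k130 k131 k195 0
  8)))))), (.s k23 k43 5 (.s k149 k192 14 (.s k86 k212 8 (.s k252 k169 14 (.d k126 k66 k189 5
  8)))))] (.c k66 (.l (.s k43 k23 5 (.s k169 k232 8 (.s k252 k86 14 (.s k149 k192 14 (.d k189 k129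
  k126 5 8)))))) (.c k86 (.l (.s k2 k1 0 (.s k192 k149 14 (.s k66 k129 8 (.s k130 k194 7 (.s k65
  k195 8 (.d k64 k128 k67 7 0))))))) (.c k149 (.f k2 k1 0 (.q k48 [(.s k18 k33 4 (.s k34 k50 3 (.s
  k17 k51 4 (.d k16 k19 k32 0 3)))), (.s k43 k23 5 (.s k169 k232 8 (.s k58 k53 2 (.s k154 k202 11
  (.s k139 k184 4 (.d k207 k101 k71 14 9))))))] (.c k19 (.l (.s k18 k33 4 (.s k58 k53 2 (.s k154
  k202 11 (.s k86 k222 9 (.s k169 k252 14 (.d k43 k23 k232 5 8))))))) (.c k128 (.q k191 [(.s k18 k33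
  4 (.s k34 k50 3 (.s k17 k51 4 (.d k16 k19 k32 0 3)))), (.s k43 k23 5 (.s k255 k127 7 (.s k171 k87
  13 (.s k107 k235 7 (.d k151 k131 k195 5 13)))))] (.c k19 (.l (.s k16 k32 3 (.s k58 k53 2 (.s k154
  k202 11 (.s k85 k223 10 (.d k127 k64 k255 6 7)))))) .n)) (.c k191 (.q k128 [(.s k18 k33 4 (.s k34
  k50 3 (.s k17 k51 4 (.d k16 k19 k32 0 3)))), (.s k192 k64 7 (.s k43 k23 5 (.s k66 k129 8 (.s k169
  k232 8 (.d k86 k126 k252 5 14)))))] (.c k19 (.l (.s k16 k32 3 (.s k64 k192 7 (.s k58 k53 2 (.s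
  k154 k202 11 (.d k85 k127 k223 6 10)))))) .n)) .n))))) (.c k192 (.q k51 [(.s k2 k1 0 (.s k34 k17 4
  (.s k18 k50 3 (.s k33 k48 4 (.d k35 k32 k19 0 3))))), (.s k59 k55 1 (.s k153 k200 12 (.s k204 k102
  14 (.s k137 k70 10 (.s k169 k185 3 (.d k43 k23 k232 5 8))))))] (.c k34 (.l (.s k19 k35 3 (.s k43
  k23 5 (.s k169 k232 8 (.s k59 k55 1 (.s k153 k200 12 (.d k86 k252 k220 14 10))))))) .n)) .n)))))
  (.c k43 (.q k51 [(.s k2 k1 0 (.s k34 k17 4 (.s k18 k50 3 (.s k33 k48 4 (.d k35 k32 k19 0 3))))),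
  (.s k17 k34 4 (.s k21 k42 6 (.s k25 k29 1 (.s k38 k12 6 (.d k55 k59 k4 1 4))))), (.s k1 k2 0 (.s
  k21 k42 6 (.s k41 k61 5 (.s k35 k19 3 (.s k38 k44 2 (.d k55 k59 k4 1 4))))))] (.c k11 (.l (.s k59
  k55 1 (.s k34 k17 4 (.s k42 k21 6 (.s k25 k8 4 (.d k38 k46 k12 1 6)))))) (.c k59 (.q k11 [(.s k2
  k1 0 (.s k34 k17 4 (.s k18 k50 3 (.s k33 k48 4 (.d k35 k32 k19 0 3))))), (.s k2 k1 0 (.s k15 k7 1
  (.s k10 k5 2 (.s k6 k14 1 (.d k9 k8 k12 0 2))))), (.s k17 k34 4 (.s k21 k42 6 (.s k15 k7 1 (.s k31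
  k47 3 (.s k16 k26 2 (.d k19 k35 k18 3 0))))))] .n) .n))) (.c k60 (.q k51 [(.s k2 k1 0 (.s k34 k17
  4 (.s k18 k50 3 (.s k33 k48 4 (.d k35 k32 k19 0 3))))), (.s k17 k34 4 (.s k21 k42 6 (.s k25 k29 1
  (.s k38 k12 6 (.d k55 k59 k4 1 4))))), (.s k1 k2 0 (.s k21 k42 6 (.s k41 k61 5 (.s k35 k19 3 (.s
  k38 k44 2 (.d k55 k59 k4 1 4))))))] .n) (.c k61 (.l (.s k2 k1 0 (.s k43 k23 5 (.s k42 k21 6 (.s
  k41 k40 0 (.d k22 k62 k60 5 6)))))) (.c k62 (.l (.s k1 k2 0 (.s k23 k43 5 (.s k21 k42 6 (.s k22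
  k20 0 (.d k41 k61 k60 5 6)))))) .n)))))))))))))

theorem c21 : rootOK2 k63 k170 k21 t21 = true := by decide +kernel

theorem c22 : rootOK2 k63 k170 k22 t22 = true := by decide +kernel

theorem c23 : rootOK2 k63 k170 k23 t23 = true := by decide +kernel

theorem c26 : rootOK2 k63 k170 k26 t26 = true := by decide +kernel

theorem c27 : rootOK2 k63 k170 k27 t27 = true := by decide +kernel

def l : List Nat :=
  [k21.c, k22.c, k23.c, k26.c, k27.c]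

theorem ok : AllQ k63.c k170.c l :=
  allQ_cons c21 (allQ_cons c22 (allQ_cons c23 (allQ_cons c26 (allQ_cons c27 (allQ_nil _ _)))))

end Pool.Agent.TTT.G02
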