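import Pool.Agent.TTT.Sym2

set_option autoImplicit false
set_option maxRecDepth 100000

namespace Pool.Agent.TTT.G03

def t31 : T TT 256 :=
  (.q k3 [(.s k2 k1 0 (.s k42 k21 6 (.s k22 k62 5 (.s k41 k60 6 (.d k43 k40 k23 0 5))))), (.s k1 k2
  0 (.s k21 k42 6 (.s k41 k61 5 (.s k22 k60 6 (.d k23 k20 k43 0 5)))))] (.c k1 (.q k51 [(.s k35 k19
  3 (.s k59 k55 1 (.s k43 k23 5 (.s k27 k11 3 (.d k39 k47 k15 1 5))))), (.s k17 k34 4 (.s k21 k42 6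
  (.s k25 k29 1 (.s k38 k12 6 (.d k55 k59 k4 1 4))))), (.s k17 k34 4 (.s k21 k42 6 (.s k19 k35 3 (.s
  k23 k43 5 (.s k25 k29 1 (.d k22 k28 k20 2 0))))))] .n) (.c k2 (.q k51 [(.s k35 k19 3 (.s k59 k55 1
  (.s k43 k23 5 (.s k27 k11 3 (.d k39 k47 k15 1 5))))), (.s k17 k34 4 (.s k21 k42 6 (.s k25 k29 1
  (.s k38 k12 6 (.d k55 k59 k4 1 4))))), (.s k17 k34 4 (.s k21 k42 6 (.s k19 k35 3 (.s k23 k43 5 (.s
  k25 k29 1 (.d k22 k28 k20 2 0))))))] (.c k86 (.q k254 [(.s k34 k17 4 (.s k42 k21 6 (.s k38 k46 1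
  (.s k25 k12 6 (.d k59 k55 k8 1 4))))), (.s k35 k19 3 (.s k59 k55 1 (.s k43 k23 5 (.s k27 k11 3 (.d
  k39 k47 k15 1 5))))), (.s k17 k34 4 (.s k21 k42 6 (.s k19 k35 3 (.s k23 k43 5 (.s k25 k29 1 (.d
  k22 k28 k20 2 0))))))] .n) (.c k254 (.q k86 [(.s k34 k17 4 (.s k42 k21 6 (.s k38 k46 1 (.s k25 k12
  6 (.d k59 k55 k8 1 4))))), (.s k19 k35 3 (.s k169 k252 14 (.s k153 k220 10 (.s k137 k185 3 (.d
  k204 k70 k102 10 14)))))] .n) .n))) (.c k21 (.q k192 [(.s k1 k2 0 (.s k128 k64 7 (.s k129 k66 8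
  (.s k65 k193 7 (.d k130 k131 k195 0 8))))), (.s k23 k43 5 (.s k129 k66 8 (.s k149 k106 14 (.s k86
  k212 8 (.d k169 k189 k252 5 14))))), (.s k1 k2 0 (.s k43 k23 5 (.s k106 k149 14 (.s k169 k232 8
  (.s k85 k253 13 (.d k64 k128 k127 7 6))))))] (.c k16 (.q k26 [(.s k1 k2 0 (.s k128 k64 7 (.s k129
  k66 8 (.s k65 k193 7 (.d k130 k131 k195 0 8))))), (.s k23 k43 5 (.s k129 k66 8 (.s k149 k106 14
  (.s k86 k212 8 (.d k169 k189 k252 5 14))))), (.s k1 k2 0 (.s k43 k23 5 (.s k106 k149 14 (.s k169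
  k232 8 (.s k85 k253 13 (.d k64 k128 k127 7 6))))))] (.c k86 (.l (.s k2 k1 0 (.s k64 k128 7 (.s k66
  k129 8 (.s k130 k194 7 (.d k65 k67 k195 0 8)))))) .n)) (.c k26 (.q k16 [(.s k1 k2 0 (.s k128 k64 7
  (.s k129 k66 8 (.s k65 k193 7 (.d k130 k131 k195 0 8))))), (.s k48 k32 3 (.s k128 k64 7 (.s k144
  k96 11 (.s k80 k208 7 (.d k160 k176 k240 3 11))))), (.s k2 k1 0 (.s k48 k32 3 (.s k18 k33 4 (.s
  k34 k50 3 (.d k17 k19 k51 0 4)))))] .n) (.c k86 (.l (.s k2 k1 0 (.s k64 k128 7 (.s k66 k129 8 (.s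
  k130 k194 7 (.d k65 k67 k195 0 8)))))) .n)))) (.c k22 (.q k51 [(.s k2 k1 0 (.s k34 k17 4 (.s k18
  k50 3 (.s k33 k48 4 (.d k35 k32 k19 0 3))))), (.s k34 k17 4 (.s k42 k21 6 (.s k38 k46 1 (.s k25
  k12 6 (.d k59 k55 k8 1 4))))), (.s k35 k19 3 (.s k59 k55 1 (.s k43 k23 5 (.s k27 k11 3 (.d k39 k47
  k15 1 5)))))] .n) (.c k23 (.q k51 [(.s k2 k1 0 (.s k34 k17 4 (.s k18 k50 3 (.s k33 k48 4 (.d k35
  k19 k32 3 0))))), (.s k17 k34 4 (.s k21 k42 6 (.s k25 k29 1 (.s k38 k12 6 (.d k55 k59 k4 1 4))))),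
  (.s k1 k2 0 (.s k21 k42 6 (.s k41 k61 5 (.s k55 k59 1 (.s k38 k4 4 (.d k35 k19 k44 3 2))))))] (.c
  k19 (.q k27 [(.s k59 k55 1 (.s k11 k43 3 (.d k15 k7 k39 1 5))), (.s k17 k34 4 (.s k21 k42 6 (.s
  k25 k29 1 (.s k38 k12 6 (.d k55 k59 k4 1 4)))))] (.c k55 (.l (.s k1 k2 0 (.s k15 k39 5 (.s k7 k11
  1 (.s k5 k10 2 (.s k9 k13 1 (.d k6 k4 k12 0 2))))))) (.c k59 (.l (.s k1 k2 0 (.s k15 k39 5 (.s k5
  k10 2 (.s k9 k13 1 (.s k6 k12 2 (.d k7 k4 k11 0 1))))))) .n))) (.c k27 (.l (.s k19 k35 3 (.s k1 k2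
  0 (.s k17 k34 4 (.s k33 k49 3 (.d k18 k16 k48 0 4)))))) .n))) (.c k41 (.q k51 [(.s k2 k1 0 (.s k34
  k17 4 (.s k18 k50 3 (.s k33 k48 4 (.d k35 k32 k19 0 3))))), (.s k35 k19 3 (.s k59 k55 1 (.s k43
  k23 5 (.s k27 k11 3 (.d k39 k47 k15 1 5))))), (.s k17 k34 4 (.s k21 k42 6 (.s k25 k29 1 (.s k38
  k12 6 (.d k55 k59 k4 1 4)))))] .n) (.c k42 (.q k192 [(.s k2 k1 0 (.s k64 k128 7 (.s k66 k129 8 (.s
  k130 k194 7 (.d k65 k67 k195 0 8))))), (.s k43 k23 5 (.s k66 k129 8 (.s k106 k149 14 (.s k169 k232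
  8 (.d k86 k126 k252 5 14))))), (.s k1 k2 0 (.s k128 k64 7 (.s k129 k66 8 (.s k65 k193 7 (.d k130
  k131 k195 0 8))))), (.s k1 k2 0 (.s k43 k23 5 (.s k106 k149 14 (.s k169 k232 8 (.s k85 k253 13 (.d
  k64 k128 k127 7 6))))))] (.c k106 (.q k234 [(.s k2 k1 0 (.s k64 k128 7 (.s k66 k129 8 (.s k65 k67
  0 (.d k130 k194 k195 7 8))))), (.s k23 k43 5 (.s k255 k213 6 (.s k87 k171 13 (.s k151 k215 7 (.s
  k107 k195 13 (.d k127 k67 k191 5 7)))))), (.s k1 k2 0 (.s k129 k66 8 (.s k65 k193 7 (.s k130 k195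
  8 (.d k128 k131 k64 0 7)))))] (.c k195 (.l (.s k64 k128 7 (.s k66 k129 8 (.s k67 k65 0 (.s k255
  k213 6 (.s k87 k171 13 (.d k127 k191 k107 7 5))))))) .n)) (.c k128 (.q k191 [(.s k66 k129 8 (.s
  k106 k149 14 (.s k86 k126 5 (.s k169 k252 14 (.d k43 k23 k232 5 8))))), (.s k43 k23 5 (.s k255
  k127 7 (.s k171 k87 13 (.s k107 k235 7 (.d k151 k131 k195 5 13))))), (.s k1 k2 0 (.s k66 k129 8
  (.s k106 k149 14 (.s k127 k255 7 (.s k85 k64 6 (.s k169 k253 13 (.d k86 k252 k126 14 5)))))))] (.c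
  k106 (.q k234 [(.d k255 k213 k127 6 7)] (.c k127 (.l (.s k43 k23 5 (.s k255 k213 6 (.s k171 k87 13
  (.s k107 k235 7 (.d k151 k131 k195 5 13)))))) (.c k213 (.l (.s k43 k23 5 (.s k255 k127 7 (.s k171
  k87 13 (.s k107 k235 7 (.d k151 k131 k195 5 13)))))) (.c k255 (.q k51 [(.s k2 k1 0 (.s k34 k17 4
  (.s k18 k50 3 (.s k33 k48 4 (.d k35 k32 k19 0 3))))), (.s k19 k35 3 (.s k129 k66 8 (.s k145 k98 12
  (.s k82 k208 8 (.d k161 k177 k240 3 12))))), (.s k1 k2 0 (.s k17 k34 4 (.s k129 k66 8 (.s k193 k65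
  7 (.s k145 k98 12 (.d k49 k33 k97 3 11))))))] .n) .n)))) (.c k131 (.l (.s k43 k23 5 (.s k106 k149
  14 (.s k169 k232 8 (.s k86 k252 14 (.d k66 k126 k129 5 8)))))) (.c k234 (.l (.s k106 k149 14 (.s
  k43 k23 5 (.s k66 k129 8 (.s k169 k232 8 (.d k86 k126 k252 5 14)))))) .n)))) (.c k234 (.l (.s k106
  k149 14 (.s k43 k23 5 (.s k66 k129 8 (.s k169 k232 8 (.d k86 k126 k252 5 14)))))) .n)))) (.c k43
  (.q k51 [(.s k2 k1 0 (.s k34 k17 4 (.s k18 k50 3 (.s k33 k48 4 (.d k35 k32 k19 0 3))))), (.s k17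
  k34 4 (.s k21 k42 6 (.s k25 k29 1 (.s k38 k12 6 (.d k55 k59 k4 1 4))))), (.s k1 k2 0 (.s k21 k42 6
  (.s k41 k61 5 (.s k35 k19 3 (.s k38 k44 2 (.d k55 k59 k4 1 4))))))] .n) (.c k60 (.q k51 [(.s k35
  k19 3 (.s k59 k55 1 (.s k43 k23 5 (.s k27 k11 3 (.d k39 k47 k15 1 5))))), (.s k1 k2 0 (.s k17 k34
  4 (.s k33 k49 3 (.s k18 k48 4 (.d k19 k16 k35 0 3))))), (.s k17 k34 4 (.s k21 k42 6 (.s k25 k29 1
  (.s k38 k12 6 (.d k55 k59 k4 1 4)))))] .n) (.c k61 (.l (.s k2 k1 0 (.s k43 k23 5 (.s k42 k21 6 (.s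
  k41 k40 0 (.d k22 k62 k60 5 6)))))) (.c k62 (.l (.s k1 k2 0 (.s k23 k43 5 (.s k21 k42 6 (.s k22
  k20 0 (.d k41 k61 k60 5 6)))))) .n))))))))))))

theorem c31 : rootOK2 k63 k170 k31 t31 = true := by decide +kernel

def l : List Nat :=
  [k31.c]

theorem ok : AllQ k63.c k170.c l :=
  allQ_cons c31 (allQ_nil _ _)

end Pool.Agent.TTT.G03
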