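import Pool.Agent.TTT.Sym2

set_option autoImplicit false
set_option maxRecDepth 100000

namespace Pool.Agent.TTT.G04

def t42_1 : T TT 256 :=
  (.f k192 k149 14 (.q k51 [(.s k59 k55 1 (.s k98 k145 12 (.s k153 k200 12 (.d k102 k110 k204 1
  14)))), (.s k17 k34 4 (.s k128 k64 7 (.s k145 k98 12 (.s k81 k209 7 (.d k162 k179 k243 4 12))))),
  (.s k17 k34 4 (.s k59 k55 1 (.s k153 k200 12 (.s k85 k221 9 (.d k64 k128 k127 7 6)))))] (.c k102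
  (.l (.s k34 k17 4 (.s k98 k145 12 (.s k162 k226 7 (.s k81 k243 12 (.d k64 k115 k128 4 7)))))) (.c
  k128 (.q k191 [(.s k59 k55 1 (.s k153 k200 12 (.s k102 k204 14 (.d k98 k110 k145 1 12)))), (.s
  k255 k127 7 (.s k187 k119 9 (.s k183 k179 1 (.s k123 k243 9 (.d k59 k55 k251 1 7))))), (.s k17 k34
  4 (.s k98 k145 12 (.s k127 k255 7 (.s k85 k64 6 (.s k153 k221 9 (.d k102 k204 k110 14 1))))))] (.c
  k145 (.l (.s k17 k34 4 (.s k59 k55 1 (.s k153 k200 12 (.s k85 k221 9 (.d k127 k64 k255 6 7))))))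
  .n)) (.c k191 (.l (.s k128 k64 7 (.s k17 k34 4 (.s k145 k98 12 (.s k81 k209 7 (.d k162 k179 k243 4
  12)))))) .n)))))

def t42_2 : T TT 256 :=
  (.q k60 [(.s k62 k61 0 (.s k150 k194 13 (.s k105 k195 14 (.s k104 k107 0 (.d k192 k148 k149 13
  14))))), (.s k20 k40 5 (.s k192 k149 14 (.s k128 k64 7 (.s k148 k104 13 (.s k84 k212 7 (.d k168
  k188 k252 5 13)))))), (.s k20 k40 5 (.s k62 k61 0 (.s k150 k194 13 (.s k85 k215 8 (.s k192 k149 14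
  (.d k64 k128 k127 7 6))))))] (.c k22 (.l (.s k62 k61 0 (.s k150 k194 13 (.s k105 k195 14 (.s k192
  k149 14 (.d k104 k107 k148 0 13)))))) (.c k62 (.q k22 [(.s k20 k40 5 (.s k23 k21 0 (.d k3 k43 k41
  5 6))), (.s k40 k20 5 (.s k192 k149 14 (.s k104 k148 13 (.s k168 k232 7 (.s k84 k252 13 (.d k64
  k128 k124 7 5))))))] (.c k20 (.l (.s k3 k41 6 (.s k43 k23 5 (.s k169 k232 8 (.s k86 k252 14 (.s
  k192 k149 14 (.d k66 k126 k129 5 8))))))) (.c k40 (.l (.s k3 k41 6 (.s k43 k23 5 (.s k169 k232 8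
  (.s k86 k252 14 (.s k192 k149 14 (.d k66 k126 k129 5 8))))))) (.c k86 (.q k254 [(.s k20 k40 5 (.s
  k23 k21 0 (.d k3 k43 k41 5 6))), (.s k40 k20 5 (.s k192 k149 14 (.s k104 k148 13 (.s k168 k232 7
  (.s k84 k252 13 (.d k64 k128 k124 7 5))))))] (.c k3 (.l (.s k20 k40 5 (.s k192 k149 14 (.s k128
  k64 7 (.s k148 k104 13 (.s k168 k188 5 (.d k84 k212 k252 7 13))))))) (.c k20 (.q k130 [(.s k195
  k65 8 (.s k107 k151 13 (.d k105 k104 k150 0 14))), (.s k3 k41 6 (.s k192 k149 14 (.s k128 k64 7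
  (.d k129 k131 k66 0 8))))] .n) (.c k23 (.q k212 [(.s k192 k149 14 (.s k148 k104 13 (.d k20 k40 k84
  5 7))), (.s k192 k149 14 (.s k252 k232 5 (.s k124 k188 7 (.s k126 k189 8 (.s k125 k127 0 (.d k255
  k190 k253 8 0)))))), (.s k20 k40 5 (.s k148 k84 7 (.d k192 k104 k149 13 14))), (.s k20 k40 5 (.s
  k84 k148 7 (.s k252 k168 13 (.s k188 k124 7 (.s k189 k126 8 (.s k191 k190 0 (.d k255 k127 k253 7
  0)))))))] .n) (.c k40 (.f k192 k149 14 (.l (.s k128 k64 7 (.s k148 k104 13 (.s k168 k188 5 (.s k84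
  k252 13 (.s k20 k212 7 (.s k23 k21 0 (.d k3 k43 k41 5 6))))))))) .n))))) (.c k254 (.q k86 [(.s k3
  k41 6 (.s k43 k23 5 (.d k169 k232 k252 8 14))), (.s k20 k40 5 (.s k23 k21 0 (.d k149 k212 k192 8
  14))), (.s k149 k192 14 (.s k23 k212 8 (.d k20 k21 k40 0 5)))] (.c k23 (.l (.s k3 k41 6 (.s k252
  k169 14 (.d k126 k66 k189 5 8)))) (.c k40 (.l (.s k3 k41 6 (.s k43 k23 5 (.d k169 k232 k252 8
  14)))) (.c k126 (.q k190 [(.s k3 k41 6 (.s k43 k23 5 (.d k169 k232 k252 8 14))), (.s k150 k214 7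
  (.s k105 k195 14 (.s k192 k149 14 (.d k104 k107 k148 0 13))))] (.c k252 (.l (.s k20 k40 5 (.s k23
  k21 0 (.d k3 k43 k41 5 6)))) .n)) (.c k190 (.l (.s k126 k66 5 (.s k3 k41 6 (.d k252 k189 k169 8
  14)))) .n))))) .n))))) (.c k86 (.q k254 [(.s k62 k61 0 (.s k150 k194 13 (.s k105 k195 14 (.s k104
  k107 0 (.d k192 k148 k149 13 14))))), (.s k20 k40 5 (.s k192 k149 14 (.s k128 k64 7 (.s k148 k104
  13 (.s k168 k188 5 (.d k84 k212 k252 7 13)))))), (.s k20 k40 5 (.s k62 k61 0 (.s k150 k194 13 (.s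
  k85 k215 8 (.s k190 k126 7 (.s k125 k255 8 (.d k105 k195 k65 14 5)))))))] (.c k22 (.l (.s k62 k61
  0 (.s k150 k194 13 (.s k105 k195 14 (.s k192 k149 14 (.d k104 k107 k148 0 13)))))) (.c k62 (.q k22
  [(.s k20 k40 5 (.s k23 k21 0 (.d k3 k43 k41 5 6))), (.s k40 k20 5 (.s k192 k149 14 (.s k104 k148
  13 (.s k168 k232 7 (.s k84 k252 13 (.d k64 k128 k124 7 5))))))] (.c k3 (.l (.s k20 k40 5 (.s k192
  k149 14 (.s k128 k64 7 (.s k148 k104 13 (.s k168 k188 5 (.d k84 k212 k252 7 13))))))) (.c k20 (.q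
  k130 [(.s k195 k65 8 (.s k107 k151 13 (.d k105 k104 k150 0 14))), (.s k3 k41 6 (.s k192 k149 14
  (.s k128 k64 7 (.d k129 k131 k66 0 8))))] .n) (.c k23 (.q k212 [(.s k192 k149 14 (.s k148 k104 13
  (.d k20 k40 k84 5 7))), (.s k192 k149 14 (.s k252 k232 5 (.s k124 k188 7 (.s k126 k189 8 (.s k125
  k127 0 (.d k255 k190 k253 8 0)))))), (.s k20 k40 5 (.s k148 k84 7 (.d k192 k104 k149 13 14))), (.s
  k20 k40 5 (.s k84 k148 7 (.s k252 k168 13 (.s k188 k124 7 (.s k189 k126 8 (.s k191 k190 0 (.d k255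
  k127 k253 7 0)))))))] .n) (.c k40 (.f k192 k149 14 (.l (.s k128 k64 7 (.s k148 k104 13 (.s k168
  k188 5 (.s k84 k252 13 (.s k20 k212 7 (.s k23 k21 0 (.d k3 k43 k41 5 6))))))))) .n))))) (.c k105
  (.l (.s k40 k20 5 (.s k192 k149 14 (.s k104 k148 13 (.s k168 k232 7 (.s k84 k252 13 (.d k64 k128
  k124 7 5))))))) .n)))) (.c k105 (.l (.s k40 k20 5 (.s k192 k149 14 (.s k104 k148 13 (.s k168 k232
  7 (.s k84 k252 13 (.d k64 k128 k124 7 5))))))) (.c k149 (.f k62 k61 0 (.l (.s k20 k40 5 (.s k150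
  k194 13 (.s k85 k215 8 (.s k105 k195 14 (.s k64 k127 6 (.s k104 k107 0 (.d k192 k128 k148 7
  13))))))))) (.c k192 (.f k62 k61 0 (.l (.s k20 k40 5 (.s k150 k194 13 (.s k85 k215 8 (.s k127 k64
  6 (.s k255 k191 7 (.s k125 k190 8 (.d k105 k195 k65 14 5))))))))) (.c k254 (.q k86 [(.s k20 k40 5
  (.s k149 k192 14 (.s k23 k212 8 (.s k22 k21 0 (.d k3 k43 k41 5 6))))), (.s k62 k61 0 (.s k150 k194
  13 (.s k105 k195 14 (.s k192 k149 14 (.d k104 k107 k148 0 13))))), (.s k40 k20 5 (.s k126 k66 5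
  (.s k252 k189 8 (.s k168 k84 13 (.s k232 k104 7 (.d k169 k43 k3 8 14))))))] (.c k22 (.l (.s k62
  k61 0 (.s k150 k194 13 (.s k105 k195 14 (.s k192 k149 14 (.d k104 k107 k148 0 13)))))) (.c k62 (.q
  k22 [(.s k3 k41 6 (.s k43 k23 5 (.d k169 k232 k252 8 14))), (.s k20 k40 5 (.s k23 k21 0 (.d k149
  k212 k192 8 14))), (.s k149 k192 14 (.s k23 k212 8 (.d k20 k21 k40 0 5)))] (.c k23 (.l (.s k3 k41
  6 (.s k252 k169 14 (.d k126 k66 k189 5 8)))) (.c k40 (.l (.s k3 k41 6 (.s k43 k23 5 (.d k169 k232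
  k252 8 14)))) (.c k126 (.q k190 [(.s k3 k41 6 (.s k43 k23 5 (.d k169 k232 k252 8 14))), (.s k150
  k214 7 (.s k105 k195 14 (.s k192 k149 14 (.d k104 k107 k148 0 13))))] (.c k252 (.l (.s k20 k40 5
  (.s k23 k21 0 (.d k3 k43 k41 5 6)))) .n)) (.c k190 (.l (.s k126 k66 5 (.s k3 k41 6 (.d k252 k189
  k169 8 14)))) .n))))) .n))) .n))))))))

def t42_3 : T TT 256 :=
  (.f k192 k149 14 (.q k51 [(.s k59 k55 1 (.s k98 k145 12 (.s k153 k200 12 (.d k102 k110 k204 1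
  14)))), (.s k17 k34 4 (.s k128 k64 7 (.s k145 k98 12 (.s k81 k209 7 (.d k162 k179 k243 4 12))))),
  (.s k17 k34 4 (.s k59 k55 1 (.s k153 k200 12 (.s k85 k221 9 (.d k64 k128 k127 7 6)))))] (.c k102
  (.l (.s k34 k17 4 (.s k98 k145 12 (.s k162 k226 7 (.s k81 k243 12 (.d k64 k115 k128 4 7)))))) (.c
  k128 (.q k191 [(.s k59 k55 1 (.s k153 k200 12 (.s k102 k204 14 (.d k98 k110 k145 1 12)))), (.s
  k255 k127 7 (.s k187 k119 9 (.s k183 k179 1 (.s k123 k243 9 (.d k59 k55 k251 1 7))))), (.s k17 k34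
  4 (.s k98 k145 12 (.s k127 k255 7 (.s k85 k64 6 (.s k153 k221 9 (.d k102 k204 k110 14 1))))))] (.c
  k145 (.l (.s k17 k34 4 (.s k59 k55 1 (.s k153 k200 12 (.s k85 k221 9 (.d k127 k64 k255 6 7))))))
  .n)) (.c k191 (.l (.s k128 k64 7 (.s k17 k34 4 (.s k145 k98 12 (.s k81 k209 7 (.d k162 k179 k243 4
  12)))))) .n)))))

def t42_4 : T TT 256 :=
  (.f k192 k149 14 (.q k51 [(.s k98 k145 12 (.s k102 k110 1 (.s k153 k204 14 (.d k59 k55 k200 1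
  12)))), (.s k17 k34 4 (.s k128 k64 7 (.s k145 k98 12 (.s k81 k209 7 (.d k162 k179 k243 4 12))))),
  (.s k17 k34 4 (.s k59 k55 1 (.s k153 k200 12 (.s k85 k221 9 (.d k64 k128 k127 7 6)))))] (.c k102
  (.l (.s k34 k17 4 (.s k98 k145 12 (.s k162 k226 7 (.s k81 k243 12 (.d k64 k115 k128 4 7)))))) (.c
  k128 (.q k191 [(.s k98 k145 12 (.s k102 k110 1 (.s k153 k204 14 (.d k59 k55 k200 1 12)))), (.s k59
  k55 1 (.s k255 k127 7 (.s k187 k119 9 (.s k123 k251 7 (.d k183 k179 k243 1 9))))), (.s k17 k34 4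
  (.s k98 k145 12 (.s k127 k255 7 (.s k85 k64 6 (.s k153 k221 9 (.d k102 k204 k110 14 1))))))] (.c
  k102 (.l (.s k255 k127 7 (.s k187 k119 9 (.s k183 k179 1 (.s k123 k243 9 (.d k59 k55 k251 1
  7)))))) (.c k179 (.l (.s k59 k55 1 (.s k153 k200 12 (.s k102 k204 14 (.d k98 k110 k145 1 12)))))
  .n))) (.c k191 (.l (.s k128 k64 7 (.s k17 k34 4 (.s k145 k98 12 (.s k81 k209 7 (.d k162 k179 k243
  4 12)))))) .n)))))

def t42_5 : T TT 256 :=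
  (.f k192 k149 14 (.f k128 k64 7 (.q k160 [(.s k240 k80 11 (.s k144 k176 3 (.s k96 k48 11 (.d k224
  k208 k32 3 7)))), (.s k240 k80 11 (.s k122 k181 10 (.s k90 k74 3 (.s k165 k15 14 (.d k224 k208 k47
  3 10)))))] (.c k80 (.l (.s k144 k176 3 (.s k96 k48 11 (.s k224 k32 7 (.s k240 k208 3 (.s k122 k181
  10 (.s k90 k74 3 (.d k165 k47 k15 10 14)))))))) (.c k96 (.l (.s k176 k144 3 (.s k240 k80 11 (.s
  k112 k48 7 (.s k122 k181 10 (.s k90 k74 3 (.s k165 k15 14 (.d k224 k208 k47 3 10)))))))) (.c k112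
  (.l (.s k80 k240 11 (.s k144 k176 3 (.s k48 k96 11 (.d k16 k32 k208 3 7))))) (.c k208 (.l (.s k240
  k80 11 (.s k122 k181 10 (.s k90 k74 3 (.s k165 k15 14 (.s k224 k47 10 (.s k144 k176 3 (.d k96 k32
  k48 7 11)))))))) (.c k224 (.l (.s k80 k240 11 (.s k144 k176 3 (.s k16 k208 7 (.d k48 k32 k96 3
  11))))) (.c k240 (.q k138 [(.s k207 k69 10 (.s k133 k143 2 (.s k74 k15 10 (.d k202 k197 k10 2
  7)))), (.s k144 k176 3 (.s k48 k96 11 (.s k58 k53 2 (.s k154 k202 11 (.d k207 k101 k69 14 10))))),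
  (.s k133 k143 2 (.s k15 k74 10 (.s k47 k31 3 (.s k224 k165 10 (.s k96 k32 7 (.d k144 k176 k48 3
  11))))))] (.c k69 (.l (.s k133 k143 2 (.s k74 k15 10 (.s k202 k10 7 (.s k58 k154 11 (.s k48 k53 2
  (.d k144 k176 k96 3 11))))))) .n)) .n)))))))))

def t42_6 : T TT 256 :=
  (.q k86 [(.s k149 k192 14 (.s k23 k212 8 (.s k126 k66 5 (.s k252 k189 8 (.d k3 k43 k169 5 14))))),
  (.s k192 k149 14 (.s k128 k64 7 (.s k66 k126 5 (.s k129 k3 8 (.s k130 k131 0 (.s k195 k65 8 (.d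
  k194 k193 k2 0 7)))))))] (.c k3 (.l (.s k192 k149 14 (.s k126 k66 5 (.s k252 k189 8 (.s k84 k168
  13 (.s k85 k87 0 (.d k64 k128 k127 7 6))))))) (.c k66 (.q k23 [(.d k149 k212 k192 8 14), (.s k3
  k43 5 (.s k1 k2 0 (.s k169 k252 14 (.s k85 k253 13 (.s k127 k64 6 (.s k87 k84 0 (.d k255 k191 k171
  7 13)))))))] .n) (.c k126 (.q k23 [(.d k149 k212 k192 8 14), (.s k3 k43 5 (.s k1 k2 0 (.s k169
  k252 14 (.s k85 k253 13 (.s k127 k64 6 (.s k87 k84 0 (.d k255 k191 k171 7 13)))))))] .n) (.c k129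
  (.l (.s k149 k192 14 (.s k23 k212 8 (.s k3 k43 5 (.s k252 k169 14 (.d k126 k66 k189 5 8)))))) (.c
  k149 (.q k105 [(.s k66 k126 5 (.s k67 k124 6 (.s k64 k65 0 (.s k107 k104 0 (.d k127 k87 k85 5
  6))))), (.s k66 k126 5 (.s k107 k104 0 (.s k195 k151 13 (.s k130 k65 8 (.s k194 k2 7 (.d k150 k62
  k60 13 14))))))] (.c k65 (.l (.s k126 k66 5 (.s k252 k189 8 (.s k84 k168 13 (.s k104 k107 0 (.d
  k124 k64 k67 5 6)))))) (.c k66 (.l (.s k67 k124 6 (.s k107 k104 0 (.s k195 k151 13 (.s k65 k130 8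
  (.s k85 k125 5 (.d k127 k64 k87 6 5))))))) (.c k104 (.l (.s k126 k66 5 (.s k252 k189 8 (.s k84
  k168 13 (.s k124 k67 6 (.s k85 k87 0 (.d k125 k127 k65 0 5))))))) (.c k107 (.l (.s k126 k66 5 (.s
  k252 k189 8 (.s k84 k168 13 (.s k124 k67 6 (.s k64 k104 5 (.d k85 k87 k127 0 6))))))) (.c k126 (.l
  (.s k67 k124 6 (.s k107 k104 0 (.s k195 k151 13 (.s k65 k130 8 (.s k64 k66 0 (.d k85 k125 k127 5
  6))))))) (.c k128 (.q k191 [(.s k127 k255 7 (.s k126 k66 5 (.d k124 k125 k67 0 6))), (.s k127 k255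
  7 (.s k107 k104 0 (.s k87 k67 5 (.d k85 k84 k64 0 6)))), (.s k66 k126 5 (.s k107 k104 0 (.s k195
  k151 13 (.s k65 k130 8 (.d k67 k64 k124 0 6)))))] (.c k67 (.l (.s k127 k255 7 (.s k126 k66 5 (.s
  k125 k124 0 (.d k85 k65 k64 5 6))))) .n)) (.c k191 (.q k128 [(.s k64 k192 7 (.s k66 k126 5 (.d k67
  k65 k124 0 6))), (.s k64 k192 7 (.s k104 k107 0 (.s k84 k124 5 (.d k85 k87 k127 0 6)))), (.s k126
  k66 5 (.s k252 k189 8 (.s k168 k84 13 (.s k188 k148 5 (.d k124 k67 k60 6 7)))))] (.c k124 (.l (.s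
  k64 k192 7 (.s k66 k126 5 (.s k65 k67 0 (.d k85 k125 k127 5 6))))) .n)) .n)))))))) (.c k192 (.q
  k105 [(.s k66 k126 5 (.s k67 k124 6 (.s k64 k65 0 (.s k127 k85 6 (.d k107 k104 k87 0 5))))), (.s
  k66 k126 5 (.s k107 k104 0 (.s k195 k151 13 (.s k130 k65 8 (.s k194 k2 7 (.d k150 k62 k60 13
  14))))))] (.c k65 (.l (.s k126 k66 5 (.s k252 k189 8 (.s k84 k168 13 (.s k104 k107 0 (.d k124 k64
  k67 5 6)))))) (.c k66 (.l (.s k67 k124 6 (.s k107 k104 0 (.s k195 k151 13 (.s k65 k130 8 (.s k85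
  k125 5 (.d k127 k64 k87 6 5))))))) (.c k104 (.l (.s k126 k66 5 (.s k252 k189 8 (.s k84 k168 13 (.s
  k124 k67 6 (.s k85 k87 0 (.d k125 k127 k65 0 5))))))) (.c k107 (.l (.s k126 k66 5 (.s k252 k189 8
  (.s k84 k168 13 (.s k124 k67 6 (.s k64 k104 5 (.d k85 k87 k127 0 6))))))) (.c k126 (.l (.s k67
  k124 6 (.s k107 k104 0 (.s k195 k151 13 (.s k65 k130 8 (.s k64 k66 0 (.d k85 k125 k127 5 6)))))))
  .n)))))) .n)))))))

def t42_7 : T TT 256 :=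
  (.f k192 k149 14 (.q k51 [(.s k98 k145 12 (.s k102 k110 1 (.s k153 k204 14 (.d k59 k55 k200 1
  12)))), (.s k17 k34 4 (.s k128 k64 7 (.s k145 k98 12 (.s k81 k209 7 (.d k162 k179 k243 4 12))))),
  (.s k17 k34 4 (.s k59 k55 1 (.s k153 k200 12 (.s k85 k221 9 (.d k64 k128 k127 7 6)))))] (.c k102
  (.l (.s k34 k17 4 (.s k98 k145 12 (.s k162 k226 7 (.s k81 k243 12 (.d k64 k115 k128 4 7)))))) (.c
  k128 (.q k191 [(.s k98 k145 12 (.s k102 k110 1 (.s k153 k204 14 (.d k59 k55 k200 1 12)))), (.s k59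
  k55 1 (.s k255 k127 7 (.s k187 k119 9 (.s k123 k251 7 (.d k183 k179 k243 1 9))))), (.s k17 k34 4
  (.s k98 k145 12 (.s k127 k255 7 (.s k85 k64 6 (.s k153 k221 9 (.d k102 k204 k110 14 1))))))] (.c
  k102 (.l (.s k255 k127 7 (.s k187 k119 9 (.s k183 k179 1 (.s k123 k243 9 (.d k59 k55 k251 1
  7)))))) (.c k179 (.l (.s k59 k55 1 (.s k153 k200 12 (.s k102 k204 14 (.d k98 k110 k145 1 12)))))
  .n))) (.c k191 (.l (.s k128 k64 7 (.s k17 k34 4 (.s k145 k98 12 (.s k81 k209 7 (.d k162 k179 k243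
  4 12)))))) .n)))))

def t42_8 : T TT 256 :=
  (.f k192 k149 14 (.q k51 [(.s k59 k55 1 (.s k98 k145 12 (.s k102 k110 1 (.d k153 k200 k204 12
  14)))), (.s k17 k34 4 (.s k128 k64 7 (.s k145 k98 12 (.s k81 k209 7 (.d k162 k179 k243 4 12))))),
  (.s k17 k34 4 (.s k59 k55 1 (.s k153 k200 12 (.s k85 k221 9 (.d k64 k128 k127 7 6)))))] (.c k25
  (.l (.s k59 k55 1 (.s k98 k145 12 (.s k153 k200 12 (.d k102 k110 k204 1 14))))) (.c k59 (.q k25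
  [(.s k17 k34 4 (.s k29 k21 1 (.d k12 k46 k38 4 6))), (.s k34 k17 4 (.s k98 k145 12 (.s k162 k226 7
  (.s k81 k243 12 (.d k64 k128 k115 7 4)))))] (.c k17 (.l (.s k12 k38 6 (.s k46 k29 4 (.s k72 k132 9
  (.s k166 k226 9 (.d k89 k123 k243 4 14)))))) (.c k34 (.l (.s k12 k38 6 (.s k46 k29 4 (.s k72 k132
  9 (.s k166 k226 9 (.d k89 k123 k243 4 14)))))) (.c k89 (.q k251 [(.s k17 k34 4 (.s k29 k21 1 (.d
  k12 k46 k38 4 6))), (.s k34 k17 4 (.s k98 k145 12 (.s k162 k226 7 (.s k81 k243 12 (.d k64 k128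
  k115 7 4)))))] (.c k12 (.l (.s k17 k34 4 (.s k128 k64 7 (.s k145 k98 12 (.s k162 k179 4 (.d k81
  k209 k243 7 12)))))) (.c k17 (.l (.s k128 k64 7 (.s k12 k38 6 (.s k132 k72 9 (.s k98 k145 12 (.s
  k102 k110 1 (.s k136 k140 1 (.d k204 k68 k153 9 14)))))))) (.c k29 (.q k209 [(.s k145 k98 12 (.d
  k17 k34 k81 4 7)), (.s k243 k226 4 (.s k115 k179 7 (.s k123 k183 9 (.s k119 k127 1 (.d k255 k187
  k247 9 1)))))] (.c k128 (.q k191 [(.s k255 k127 7 (.d k243 k247 k226 1 4)), (.s k17 k34 4 (.d k145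
  k81 k98 7 12))] .n) (.c k191 (.l (.s k128 k64 7 (.s k17 k34 4 (.d k145 k81 k98 7 12)))) .n))) (.c
  k34 (.l (.s k128 k64 7 (.s k145 k98 12 (.s k162 k179 4 (.s k81 k243 12 (.s k17 k209 7 (.s k29 k21
  1 (.d k12 k46 k38 4 6)))))))) (.c k128 (.q k191 [(.s k17 k34 4 (.s k29 k21 1 (.d k12 k46 k38 4
  6))), (.s k255 k127 7 (.s k187 k119 9 (.s k179 k183 1 (.d k243 k247 k115 1 7))))] (.c k29 (.q k209
  [(.s k255 k127 7 (.d k243 k247 k226 1 4)), (.s k17 k34 4 (.d k145 k81 k98 7 12))] .n) (.c k209 (.q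
  k29 [(.d k12 k46 k38 4 6), (.d k17 k21 k34 1 4)] .n) .n))) (.c k191 (.l (.s k128 k64 7 (.s k17 k34
  4 (.s k29 k21 1 (.d k12 k46 k38 4 6))))) (.c k209 (.q k29 [(.d k12 k46 k38 4 6), (.d k17 k21 k34 1
  4)] (.c k128 (.q k191 [(.d k12 k46 k38 4 6), (.d k17 k21 k34 1 4)] .n) (.c k191 (.l (.s k128 k64 7
  (.d k12 k46 k38 4 6))) .n))) .n)))))))) (.c k128 (.q k191 [(.s k17 k34 4 (.s k29 k21 1 (.d k12 k46
  k38 4 6))), (.s k34 k17 4 (.s k98 k145 12 (.s k162 k226 7 (.s k81 k243 12 (.s k127 k255 7 (.d k64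
  k115 k85 4 6)))))), (.s k12 k38 6 (.s k46 k29 4 (.s k72 k132 9 (.s k166 k226 9 (.d k89 k123 k243 4
  14)))))] (.c k34 (.l (.s k12 k38 6 (.s k46 k29 4 (.s k72 k132 9 (.s k166 k226 9 (.d k89 k123 k243
  4 14)))))) (.c k89 (.q k251 [(.s k17 k34 4 (.s k29 k21 1 (.d k12 k46 k38 4 6))), (.s k255 k127 7
  (.s k187 k119 9 (.s k179 k183 1 (.d k243 k247 k115 1 7))))] (.c k29 (.q k209 [(.s k255 k127 7 (.d
  k243 k247 k226 1 4)), (.s k17 k34 4 (.d k145 k81 k98 7 12))] .n) (.c k209 (.q k29 [(.d k12 k46 k38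
  4 6), (.d k17 k21 k34 1 4)] .n) .n))) (.c k251 (.q k89 [(.s k12 k38 6 (.d k72 k123 k132 4 9)), (.s
  k153 k217 7 (.s k98 k145 12 (.d k102 k110 k204 1 14)))] (.c k123 (.q k187 [(.d k255 k127 k119 7
  9), (.s k17 k34 4 (.s k29 k21 1 (.d k12 k46 k38 4 6)))] .n) (.c k187 (.l (.s k123 k72 4 (.s k12
  k38 6 (.d k243 k183 k166 9 14)))) .n))) .n)))) (.c k191 (.l (.s k128 k64 7 (.s k17 k34 4 (.s k29
  k21 1 (.d k12 k46 k38 4 6))))) (.c k251 (.q k89 [(.s k12 k38 6 (.d k72 k123 k132 4 9)), (.s k153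
  k217 7 (.s k98 k145 12 (.d k102 k110 k204 1 14)))] (.c k123 (.q k187 [(.s k12 k38 6 (.s k46 k29 4
  (.d k166 k226 k243 9 14))), (.s k153 k217 7 (.s k98 k145 12 (.d k102 k110 k204 1 14)))] (.c k128
  (.q k191 [(.d k255 k127 k119 7 9), (.s k17 k34 4 (.s k29 k21 1 (.d k12 k46 k38 4 6)))] .n) (.c
  k191 (.l (.s k128 k64 7 (.s k17 k34 4 (.s k29 k21 1 (.d k12 k46 k38 4 6))))) .n))) (.c k128 (.q
  k191 [(.s k12 k38 6 (.d k72 k123 k132 4 9)), (.s k153 k217 7 (.s k98 k145 12 (.d k102 k110 k204 1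
  14)))] (.c k123 (.q k187 [(.d k255 k127 k119 7 9), (.s k17 k34 4 (.s k29 k21 1 (.d k12 k46 k38 4
  6)))] .n) (.c k187 (.l (.s k123 k72 4 (.s k12 k38 6 (.d k243 k183 k166 9 14)))) .n))) (.c k187 (.l
  (.s k123 k72 4 (.s k12 k38 6 (.d k243 k183 k166 9 14)))) (.c k191 (.l (.s k128 k64 7 (.s k12 k38 6
  (.d k72 k123 k132 4 9)))) .n))))) .n))))))) (.c k89 (.q k251 [(.s k59 k55 1 (.s k98 k145 12 (.s
  k102 k110 1 (.d k153 k200 k204 12 14)))), (.s k17 k34 4 (.s k128 k64 7 (.s k145 k98 12 (.s k162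
  k179 4 (.d k81 k209 k243 7 12))))), (.s k17 k34 4 (.s k59 k55 1 (.s k153 k200 12 (.s k85 k221 9
  (.d k64 k128 k127 7 6)))))] (.c k25 (.l (.s k59 k55 1 (.s k98 k145 12 (.s k153 k200 12 (.d k102
  k110 k204 1 14))))) (.c k29 (.q k209 [(.s k145 k98 12 (.d k17 k34 k81 4 7)), (.s k59 k55 1 (.s
  k123 k187 7 (.d k243 k226 k183 4 9)))] (.c k25 (.l (.s k59 k55 1 (.s k17 k34 4 (.d k145 k81 k98 7
  12)))) (.c k59 (.q k25 [(.s k145 k98 12 (.d k17 k34 k81 4 7)), (.s k243 k226 4 (.s k115 k179 7 (.s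
  k123 k183 9 (.s k119 k127 1 (.d k255 k187 k247 9 1)))))] (.c k128 (.q k191 [(.s k255 k127 7 (.d
  k243 k247 k226 1 4)), (.s k17 k34 4 (.d k145 k81 k98 7 12))] .n) (.c k191 (.l (.s k128 k64 7 (.s
  k17 k34 4 (.d k145 k81 k98 7 12)))) .n))) (.c k128 (.q k191 [(.s k255 k127 7 (.d k243 k247 k226 1
  4)), (.s k17 k34 4 (.d k145 k81 k98 7 12))] (.c k25 (.l (.s k59 k55 1 (.s k17 k34 4 (.d k145 k81
  k98 7 12)))) (.c k59 (.q k25 [(.s k255 k127 7 (.d k243 k247 k226 1 4)), (.s k17 k34 4 (.d k145 k81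
  k98 7 12))] .n) .n))) (.c k191 (.l (.s k128 k64 7 (.s k17 k34 4 (.d k145 k81 k98 7 12)))) .n)))))
  (.c k59 (.q k25 [(.s k17 k34 4 (.s k29 k21 1 (.d k12 k46 k38 4 6))), (.s k34 k17 4 (.s k98 k145 12
  (.s k162 k226 7 (.s k81 k243 12 (.d k64 k128 k115 7 4)))))] (.c k12 (.l (.s k17 k34 4 (.s k128 k64
  7 (.s k145 k98 12 (.s k162 k179 4 (.d k81 k209 k243 7 12)))))) (.c k17 (.l (.s k128 k64 7 (.s k12
  k38 6 (.s k132 k72 9 (.s k98 k145 12 (.s k102 k110 1 (.s k136 k140 1 (.d k204 k68 k153 9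
  14)))))))) (.c k29 (.q k209 [(.s k145 k98 12 (.d k17 k34 k81 4 7)), (.s k243 k226 4 (.s k115 k179
  7 (.s k123 k183 9 (.s k119 k127 1 (.d k255 k187 k247 9 1)))))] (.c k128 (.q k191 [(.s k255 k127 7
  (.d k243 k247 k226 1 4)), (.s k17 k34 4 (.d k145 k81 k98 7 12))] .n) (.c k191 (.l (.s k128 k64 7
  (.s k17 k34 4 (.d k145 k81 k98 7 12)))) .n))) (.c k34 (.l (.s k128 k64 7 (.s k145 k98 12 (.s k162
  k179 4 (.s k81 k243 12 (.s k17 k209 7 (.s k29 k21 1 (.d k12 k46 k38 4 6)))))))) (.c k128 (.q k191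
  [(.s k17 k34 4 (.s k29 k21 1 (.d k12 k46 k38 4 6))), (.s k255 k127 7 (.s k187 k119 9 (.s k179 k183
  1 (.d k243 k247 k115 1 7))))] (.c k29 (.q k209 [(.s k255 k127 7 (.d k243 k247 k226 1 4)), (.s k17
  k34 4 (.d k145 k81 k98 7 12))] .n) (.c k209 (.q k29 [(.d k12 k46 k38 4 6), (.d k17 k21 k34 1 4)]
  .n) .n))) (.c k191 (.l (.s k128 k64 7 (.s k17 k34 4 (.s k29 k21 1 (.d k12 k46 k38 4 6))))) (.c
  k209 (.q k29 [(.d k12 k46 k38 4 6), (.d k17 k21 k34 1 4)] (.c k128 (.q k191 [(.d k12 k46 k38 4 6),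
  (.d k17 k21 k34 1 4)] .n) (.c k191 (.l (.s k128 k64 7 (.d k12 k46 k38 4 6))) .n))) .n)))))))) (.c
  k102 (.l (.s k34 k17 4 (.s k98 k145 12 (.s k162 k226 7 (.s k81 k243 12 (.d k64 k115 k128 4 7))))))
  (.c k128 (.q k191 [(.s k255 k127 7 (.s k187 k119 9 (.d k59 k123 k55 7 1))), (.s k59 k55 1 (.s k98
  k145 12 (.s k153 k200 12 (.d k102 k110 k204 1 14))))] (.c k25 (.l (.s k59 k55 1 (.s k187 k123 7
  (.d k255 k127 k119 7 9)))) (.c k29 (.q k209 [(.s k255 k127 7 (.d k243 k247 k226 1 4)), (.s k17 k34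
  4 (.d k145 k81 k98 7 12))] (.c k25 (.l (.s k59 k55 1 (.s k17 k34 4 (.d k145 k81 k98 7 12)))) (.c
  k59 (.q k25 [(.s k255 k127 7 (.d k243 k247 k226 1 4)), (.s k17 k34 4 (.d k145 k81 k98 7 12))] .n)
  .n))) (.c k55 (.l (.s k255 k127 7 (.s k187 k119 9 (.s k183 k179 1 (.d k123 k59 k243 7 9))))) (.c
  k59 (.q k25 [(.s k17 k34 4 (.s k29 k21 1 (.d k12 k46 k38 4 6))), (.s k255 k127 7 (.s k187 k119 9
  (.s k179 k183 1 (.d k243 k247 k115 1 7))))] (.c k29 (.q k209 [(.s k255 k127 7 (.d k243 k247 k226 1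
  4)), (.s k17 k34 4 (.d k145 k81 k98 7 12))] .n) (.c k209 (.q k29 [(.d k12 k46 k38 4 6), (.d k17
  k21 k34 1 4)] .n) .n))) (.c k209 (.q k29 [(.s k255 k127 7 (.s k187 k119 9 (.d k59 k123 k55 7 1))),
  (.s k17 k34 4 (.s k25 k21 1 (.d k12 k46 k38 4 6)))] (.c k25 (.l (.s k59 k55 1 (.s k187 k123 7 (.d
  k255 k127 k119 7 9)))) (.c k59 (.q k25 [(.d k12 k46 k38 4 6), (.d k17 k21 k34 1 4)] .n) .n)))
  .n)))))) (.c k191 (.l (.s k128 k64 7 (.s k17 k34 4 (.s k145 k98 12 (.s k162 k179 4 (.d k81 k209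
  k243 7 12)))))) (.c k209 (.q k29 [(.s k17 k34 4 (.s k25 k21 1 (.d k12 k46 k38 4 6))), (.s k59 k55
  1 (.s k153 k200 12 (.s k102 k204 14 (.d k98 k110 k145 1 12))))] (.c k25 (.l (.s k59 k55 1 (.s k98
  k145 12 (.s k153 k200 12 (.d k102 k110 k204 1 14))))) (.c k59 (.q k25 [(.d k12 k46 k38 4 6), (.d
  k17 k21 k34 1 4)] (.c k128 (.q k191 [(.d k12 k46 k38 4 6), (.d k17 k21 k34 1 4)] .n) (.c k191 (.l
  (.s k128 k64 7 (.d k12 k46 k38 4 6))) .n))) (.c k102 (.f k34 k17 4 (.l (.s k128 k64 7 (.s k46 k12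
  4 (.s k166 k226 9 (.s k145 k98 12 (.s k179 k162 4 (.s k153 k140 6 (.d k59 k55 k200 1 12)))))))))
  (.c k128 (.q k191 [(.s k255 k127 7 (.s k187 k119 9 (.d k59 k123 k55 7 1))), (.s k17 k34 4 (.s k25
  k21 1 (.d k12 k46 k38 4 6)))] (.c k25 (.l (.s k59 k55 1 (.s k187 k123 7 (.d k255 k127 k119 7 9))))
  (.c k59 (.q k25 [(.d k12 k46 k38 4 6), (.d k17 k21 k34 1 4)] .n) .n))) (.c k191 (.l (.s k128 k64 7
  (.s k17 k34 4 (.s k25 k21 1 (.d k12 k46 k38 4 6))))) .n)))))) .n)))))))) (.c k102 (.l (.s k34 k17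
  4 (.s k98 k145 12 (.s k162 k226 7 (.s k81 k243 12 (.d k64 k115 k128 4 7)))))) (.c k128 (.q k191
  [(.s k59 k55 1 (.s k153 k200 12 (.s k102 k204 14 (.d k98 k110 k145 1 12)))), (.s k255 k127 7 (.s
  k187 k119 9 (.s k183 k179 1 (.s k123 k243 9 (.d k59 k251 k55 7 1)))))] (.c k25 (.l (.s k59 k55 1
  (.s k98 k145 12 (.s k153 k200 12 (.d k102 k110 k204 1 14))))) (.c k55 (.l (.s k17 k34 4 (.s k98
  k145 12 (.s k127 k255 7 (.s k85 k64 6 (.s k153 k221 9 (.d k102 k204 k110 14 1))))))) (.c k59 (.q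
  k25 [(.s k17 k34 4 (.s k29 k21 1 (.d k12 k46 k38 4 6))), (.s k34 k17 4 (.s k98 k145 12 (.s k162
  k226 7 (.s k81 k243 12 (.s k127 k255 7 (.d k64 k115 k85 4 6)))))), (.s k12 k38 6 (.s k46 k29 4 (.s
  k72 k132 9 (.s k166 k226 9 (.d k89 k123 k243 4 14)))))] (.c k34 (.l (.s k12 k38 6 (.s k46 k29 4
  (.s k72 k132 9 (.s k166 k226 9 (.d k89 k123 k243 4 14)))))) (.c k89 (.q k251 [(.s k17 k34 4 (.s
  k29 k21 1 (.d k12 k46 k38 4 6))), (.s k255 k127 7 (.s k187 k119 9 (.s k179 k183 1 (.d k243 k247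
  k115 1 7))))] (.c k29 (.q k209 [(.s k255 k127 7 (.d k243 k247 k226 1 4)), (.s k17 k34 4 (.d k145
  k81 k98 7 12))] .n) (.c k209 (.q k29 [(.d k12 k46 k38 4 6), (.d k17 k21 k34 1 4)] .n) .n))) (.c
  k251 (.q k89 [(.s k12 k38 6 (.d k72 k123 k132 4 9)), (.s k153 k217 7 (.s k98 k145 12 (.d k102 k110
  k204 1 14)))] (.c k123 (.q k187 [(.d k255 k127 k119 7 9), (.s k17 k34 4 (.s k29 k21 1 (.d k12 k46
  k38 4 6)))] .n) (.c k187 (.l (.s k123 k72 4 (.s k12 k38 6 (.d k243 k183 k166 9 14)))) .n))) .n))))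
  (.c k89 (.q k251 [(.s k255 k127 7 (.s k187 k119 9 (.d k59 k123 k55 7 1))), (.s k59 k55 1 (.s k98
  k145 12 (.s k153 k200 12 (.d k102 k110 k204 1 14))))] (.c k25 (.l (.s k59 k55 1 (.s k187 k123 7
  (.d k255 k127 k119 7 9)))) (.c k29 (.q k209 [(.s k255 k127 7 (.d k243 k247 k226 1 4)), (.s k17 k34
  4 (.d k145 k81 k98 7 12))] (.c k25 (.l (.s k59 k55 1 (.s k17 k34 4 (.d k145 k81 k98 7 12)))) (.c
  k59 (.q k25 [(.s k255 k127 7 (.d k243 k247 k226 1 4)), (.s k17 k34 4 (.d k145 k81 k98 7 12))] .n)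
  .n))) (.c k55 (.l (.s k255 k127 7 (.s k187 k119 9 (.s k183 k179 1 (.d k123 k59 k243 7 9))))) (.c
  k59 (.q k25 [(.s k17 k34 4 (.s k29 k21 1 (.d k12 k46 k38 4 6))), (.s k255 k127 7 (.s k187 k119 9
  (.s k179 k183 1 (.d k243 k247 k115 1 7))))] (.c k29 (.q k209 [(.s k255 k127 7 (.d k243 k247 k226 1
  4)), (.s k17 k34 4 (.d k145 k81 k98 7 12))] .n) (.c k209 (.q k29 [(.d k12 k46 k38 4 6), (.d k17
  k21 k34 1 4)] .n) .n))) (.c k209 (.q k29 [(.s k255 k127 7 (.s k187 k119 9 (.d k59 k123 k55 7 1))),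
  (.s k17 k34 4 (.s k25 k21 1 (.d k12 k46 k38 4 6)))] (.c k25 (.l (.s k59 k55 1 (.s k187 k123 7 (.d
  k255 k127 k119 7 9)))) (.c k59 (.q k25 [(.d k12 k46 k38 4 6), (.d k17 k21 k34 1 4)] .n) .n)))
  .n)))))) (.c k145 (.l (.s k17 k34 4 (.s k59 k55 1 (.s k153 k200 12 (.s k85 k221 9 (.d k127 k64
  k255 6 7)))))) (.c k251 (.q k89 [(.s k59 k55 1 (.s k98 k145 12 (.s k102 k110 1 (.d k153 k200 k204
  12 14)))), (.s k127 k255 7 (.s k123 k72 4 (.s k243 k183 9 (.d k115 k119 k179 1 7))))] (.c k25 (.l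
  (.s k59 k55 1 (.s k98 k145 12 (.s k153 k200 12 (.d k102 k110 k204 1 14))))) (.c k59 (.q k25 [(.s
  k12 k38 6 (.d k72 k123 k132 4 9)), (.s k153 k217 7 (.s k98 k145 12 (.d k102 k110 k204 1 14)))] (.c
  k123 (.q k187 [(.d k255 k127 k119 7 9), (.s k17 k34 4 (.s k29 k21 1 (.d k12 k46 k38 4 6)))] .n)
  (.c k187 (.l (.s k123 k72 4 (.s k12 k38 6 (.d k243 k183 k166 9 14)))) .n))) (.c k179 (.l (.s k59
  k55 1 (.s k153 k200 12 (.s k102 k204 14 (.d k98 k110 k145 1 12))))) (.c k200 (.l (.s k255 k127 7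
  (.s k187 k119 9 (.s k183 k179 1 (.d k123 k72 k243 4 9))))) .n))))) .n))))))) (.c k191 (.l (.s k128
  k64 7 (.s k17 k34 4 (.s k145 k98 12 (.s k81 k209 7 (.d k162 k179 k243 4 12)))))) (.c k251 (.q k89
  [(.s k59 k55 1 (.s k98 k145 12 (.s k102 k110 1 (.d k153 k200 k204 12 14)))), (.s k72 k123 4 (.s
  k12 k132 9 (.s k46 k29 4 (.d k166 k226 k243 9 14))))] (.c k25 (.l (.s k59 k55 1 (.s k98 k145 12
  (.s k153 k200 12 (.d k102 k110 k204 1 14))))) (.c k59 (.q k25 [(.s k12 k38 6 (.d k72 k123 k132 4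
  9)), (.s k153 k217 7 (.s k98 k145 12 (.d k102 k110 k204 1 14)))] (.c k123 (.q k187 [(.s k12 k38 6
  (.s k46 k29 4 (.d k166 k226 k243 9 14))), (.s k153 k217 7 (.s k98 k145 12 (.d k102 k110 k204 1
  14)))] (.c k128 (.q k191 [(.d k255 k127 k119 7 9), (.s k17 k34 4 (.s k29 k21 1 (.d k12 k46 k38 4
  6)))] .n) (.c k191 (.l (.s k128 k64 7 (.s k17 k34 4 (.s k29 k21 1 (.d k12 k46 k38 4 6))))) .n)))
  (.c k128 (.q k191 [(.s k12 k38 6 (.d k72 k123 k132 4 9)), (.s k153 k217 7 (.s k98 k145 12 (.d k102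
  k110 k204 1 14)))] (.c k123 (.q k187 [(.d k255 k127 k119 7 9), (.s k17 k34 4 (.s k29 k21 1 (.d k12
  k46 k38 4 6)))] .n) (.c k187 (.l (.s k123 k72 4 (.s k12 k38 6 (.d k243 k183 k166 9 14)))) .n)))
  (.c k187 (.l (.s k123 k72 4 (.s k12 k38 6 (.d k243 k183 k166 9 14)))) (.c k191 (.l (.s k128 k64 7
  (.s k12 k38 6 (.d k72 k123 k132 4 9)))) .n))))) (.c k128 (.q k191 [(.s k59 k55 1 (.s k98 k145 12
  (.s k102 k110 1 (.d k153 k200 k204 12 14)))), (.s k127 k255 7 (.s k123 k72 4 (.s k243 k183 9 (.d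
  k115 k119 k179 1 7))))] (.c k25 (.l (.s k59 k55 1 (.s k98 k145 12 (.s k153 k200 12 (.d k102 k110
  k204 1 14))))) (.c k59 (.q k25 [(.s k12 k38 6 (.d k72 k123 k132 4 9)), (.s k153 k217 7 (.s k98
  k145 12 (.d k102 k110 k204 1 14)))] (.c k123 (.q k187 [(.d k255 k127 k119 7 9), (.s k17 k34 4 (.s
  k29 k21 1 (.d k12 k46 k38 4 6)))] .n) (.c k187 (.l (.s k123 k72 4 (.s k12 k38 6 (.d k243 k183 k166
  9 14)))) .n))) (.c k179 (.l (.s k59 k55 1 (.s k153 k200 12 (.s k102 k204 14 (.d k98 k110 k145 1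
  12))))) (.c k200 (.l (.s k255 k127 7 (.s k187 k119 9 (.s k183 k179 1 (.d k123 k72 k243 4 9)))))
  .n))))) (.c k191 (.l (.s k128 k64 7 (.s k17 k34 4 (.s k145 k98 12 (.s k81 k209 7 (.d k162 k179
  k243 4 12)))))) .n))))) .n)))))))))

def t42_9 : T TT 256 :=
  (.f k192 k149 14 (.q k51 [(.s k59 k55 1 (.s k98 k145 12 (.s k153 k200 12 (.d k102 k110 k204 1
  14)))), (.s k17 k34 4 (.s k128 k64 7 (.s k145 k98 12 (.s k81 k209 7 (.d k162 k179 k243 4 12))))),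
  (.s k17 k34 4 (.s k59 k55 1 (.s k153 k200 12 (.s k85 k221 9 (.d k64 k128 k127 7 6)))))] (.c k102
  (.l (.s k34 k17 4 (.s k98 k145 12 (.s k162 k226 7 (.s k81 k243 12 (.d k64 k115 k128 4 7)))))) (.c
  k128 (.q k191 [(.s k59 k55 1 (.s k153 k200 12 (.s k102 k204 14 (.d k98 k110 k145 1 12)))), (.s
  k255 k127 7 (.s k187 k119 9 (.s k183 k179 1 (.s k123 k243 9 (.d k59 k55 k251 1 7))))), (.s k17 k34
  4 (.s k98 k145 12 (.s k127 k255 7 (.s k85 k64 6 (.s k153 k221 9 (.d k102 k204 k110 14 1))))))] (.c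
  k145 (.l (.s k17 k34 4 (.s k59 k55 1 (.s k153 k200 12 (.s k85 k221 9 (.d k127 k64 k255 6 7))))))
  .n)) (.c k191 (.l (.s k128 k64 7 (.s k17 k34 4 (.s k145 k98 12 (.s k81 k209 7 (.d k162 k179 k243 4
  12)))))) .n)))))

def t42_10 : T TT 256 :=
  (.f k192 k149 14 (.q k48 [(.s k58 k53 2 (.s k96 k144 11 (.s k101 k111 2 (.d k154 k202 k207 11
  14)))), (.s k16 k32 3 (.s k128 k64 7 (.s k144 k96 11 (.s k80 k208 7 (.d k160 k176 k240 3 11))))),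
  (.s k16 k32 3 (.s k58 k53 2 (.s k154 k202 11 (.s k85 k223 10 (.d k64 k128 k127 7 6)))))] (.c k26
  (.l (.s k58 k53 2 (.s k96 k144 11 (.s k154 k202 11 (.d k101 k111 k207 2 14))))) (.c k58 (.q k26
  [(.s k16 k32 3 (.s k31 k21 2 (.d k15 k47 k37 3 6))), (.s k32 k16 3 (.s k96 k144 11 (.s k160 k224 7
  (.s k80 k240 11 (.d k64 k128 k112 7 3)))))] (.c k16 (.l (.s k15 k37 6 (.s k47 k31 3 (.s k74 k133
  10 (.s k165 k224 10 (.d k90 k122 k240 3 14)))))) (.c k32 (.l (.s k15 k37 6 (.s k47 k31 3 (.s k74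
  k133 10 (.s k165 k224 10 (.d k90 k122 k240 3 14)))))) (.c k90 (.q k250 [(.s k16 k32 3 (.s k31 k21
  2 (.d k15 k47 k37 3 6))), (.s k32 k16 3 (.s k96 k144 11 (.s k160 k224 7 (.s k80 k240 11 (.d k64
  k128 k112 7 3)))))] (.c k15 (.l (.s k16 k32 3 (.s k128 k64 7 (.s k144 k96 11 (.s k160 k176 3 (.d
  k80 k208 k240 7 11)))))) (.c k16 (.l (.s k128 k64 7 (.s k15 k37 6 (.s k133 k74 10 (.s k96 k144 11
  (.s k101 k111 2 (.s k138 k143 2 (.d k207 k69 k154 10 14)))))))) (.c k31 (.q k208 [(.s k144 k96 11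
  (.d k16 k32 k80 3 7)), (.s k240 k224 3 (.s k112 k176 7 (.s k122 k181 10 (.s k117 k127 2 (.d k255
  k186 k245 10 2)))))] (.c k128 (.q k191 [(.s k255 k127 7 (.d k240 k245 k224 2 3)), (.s k16 k32 3
  (.d k144 k80 k96 7 11))] .n) (.c k191 (.l (.s k128 k64 7 (.s k16 k32 3 (.d k144 k80 k96 7 11))))
  .n))) (.c k32 (.l (.s k128 k64 7 (.s k144 k96 11 (.s k160 k176 3 (.s k80 k240 11 (.s k16 k208 7
  (.s k31 k21 2 (.d k15 k47 k37 3 6)))))))) (.c k128 (.q k191 [(.s k16 k32 3 (.s k31 k21 2 (.d k15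
  k47 k37 3 6))), (.s k255 k127 7 (.s k186 k117 10 (.s k176 k181 2 (.d k240 k245 k112 2 7))))] (.c
  k31 (.q k208 [(.s k255 k127 7 (.d k240 k245 k224 2 3)), (.s k16 k32 3 (.d k144 k80 k96 7 11))] .n)
  (.c k208 (.q k31 [(.d k15 k47 k37 3 6), (.d k16 k21 k32 2 3)] .n) .n))) (.c k191 (.l (.s k128 k64
  7 (.s k16 k32 3 (.s k31 k21 2 (.d k15 k47 k37 3 6))))) (.c k208 (.q k31 [(.d k15 k47 k37 3 6), (.d
  k16 k21 k32 2 3)] (.c k128 (.q k191 [(.d k15 k47 k37 3 6), (.d k16 k21 k32 2 3)] .n) (.c k191 (.l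
  (.s k128 k64 7 (.d k15 k47 k37 3 6))) .n))) .n)))))))) (.c k128 (.q k191 [(.s k16 k32 3 (.s k31
  k21 2 (.d k15 k47 k37 3 6))), (.s k32 k16 3 (.s k96 k144 11 (.s k160 k224 7 (.s k80 k240 11 (.s
  k127 k255 7 (.d k64 k112 k85 3 6)))))), (.s k15 k37 6 (.s k47 k31 3 (.s k74 k133 10 (.s k165 k224
  10 (.d k90 k122 k240 3 14)))))] (.c k32 (.l (.s k15 k37 6 (.s k47 k31 3 (.s k74 k133 10 (.s k165
  k224 10 (.d k90 k122 k240 3 14)))))) (.c k90 (.q k250 [(.s k16 k32 3 (.s k31 k21 2 (.d k15 k47 k37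
  3 6))), (.s k255 k127 7 (.s k186 k117 10 (.s k176 k181 2 (.d k240 k245 k112 2 7))))] (.c k31 (.q
  k208 [(.s k255 k127 7 (.d k240 k245 k224 2 3)), (.s k16 k32 3 (.d k144 k80 k96 7 11))] .n) (.c
  k208 (.q k31 [(.d k15 k47 k37 3 6), (.d k16 k21 k32 2 3)] .n) .n))) (.c k250 (.q k90 [(.s k15 k37
  6 (.d k74 k122 k133 3 10)), (.s k154 k218 7 (.s k96 k144 11 (.d k101 k111 k207 2 14)))] (.c k122
  (.q k186 [(.d k255 k127 k117 7 10), (.s k16 k32 3 (.s k31 k21 2 (.d k15 k47 k37 3 6)))] .n) (.c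
  k186 (.l (.s k122 k74 3 (.s k15 k37 6 (.d k240 k181 k165 10 14)))) .n))) .n)))) (.c k191 (.l (.s
  k128 k64 7 (.s k16 k32 3 (.s k31 k21 2 (.d k15 k47 k37 3 6))))) (.c k250 (.q k90 [(.s k15 k37 6
  (.d k74 k122 k133 3 10)), (.s k154 k218 7 (.s k96 k144 11 (.d k101 k111 k207 2 14)))] (.c k122 (.q
  k186 [(.s k15 k37 6 (.s k47 k31 3 (.d k165 k224 k240 10 14))), (.s k154 k218 7 (.s k96 k144 11 (.d
  k101 k111 k207 2 14)))] (.c k128 (.q k191 [(.d k255 k127 k117 7 10), (.s k16 k32 3 (.s k31 k21 2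
  (.d k15 k47 k37 3 6)))] .n) (.c k191 (.l (.s k128 k64 7 (.s k16 k32 3 (.s k31 k21 2 (.d k15 k47
  k37 3 6))))) .n))) (.c k128 (.q k191 [(.s k15 k37 6 (.d k74 k122 k133 3 10)), (.s k154 k218 7 (.s
  k96 k144 11 (.d k101 k111 k207 2 14)))] (.c k122 (.q k186 [(.d k255 k127 k117 7 10), (.s k16 k32 3
  (.s k31 k21 2 (.d k15 k47 k37 3 6)))] .n) (.c k186 (.l (.s k122 k74 3 (.s k15 k37 6 (.d k240 k181
  k165 10 14)))) .n))) (.c k186 (.l (.s k122 k74 3 (.s k15 k37 6 (.d k240 k181 k165 10 14)))) (.c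
  k191 (.l (.s k128 k64 7 (.s k15 k37 6 (.d k74 k122 k133 3 10)))) .n))))) .n))))))) (.c k90 (.q
  k250 [(.s k58 k53 2 (.s k96 k144 11 (.s k101 k111 2 (.d k154 k202 k207 11 14)))), (.s k16 k32 3
  (.s k128 k64 7 (.s k144 k96 11 (.s k160 k176 3 (.d k80 k208 k240 7 11))))), (.s k16 k32 3 (.s k58
  k53 2 (.s k154 k202 11 (.s k85 k223 10 (.d k64 k128 k127 7 6)))))] (.c k26 (.l (.s k58 k53 2 (.s
  k96 k144 11 (.s k154 k202 11 (.d k101 k111 k207 2 14))))) (.c k31 (.q k208 [(.s k144 k96 11 (.d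
  k16 k32 k80 3 7)), (.s k58 k53 2 (.s k122 k186 7 (.d k240 k224 k181 3 10)))] (.c k26 (.l (.s k58
  k53 2 (.s k16 k32 3 (.d k144 k80 k96 7 11)))) (.c k58 (.q k26 [(.s k144 k96 11 (.d k16 k32 k80 3
  7)), (.s k240 k224 3 (.s k112 k176 7 (.s k122 k181 10 (.s k117 k127 2 (.d k255 k186 k245 10
  2)))))] (.c k128 (.q k191 [(.s k255 k127 7 (.d k240 k245 k224 2 3)), (.s k16 k32 3 (.d k144 k80
  k96 7 11))] .n) (.c k191 (.l (.s k128 k64 7 (.s k16 k32 3 (.d k144 k80 k96 7 11)))) .n))) (.c k128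
  (.q k191 [(.s k255 k127 7 (.d k240 k245 k224 2 3)), (.s k16 k32 3 (.d k144 k80 k96 7 11))] (.c k26
  (.l (.s k58 k53 2 (.s k16 k32 3 (.d k144 k80 k96 7 11)))) (.c k58 (.q k26 [(.s k255 k127 7 (.d
  k240 k245 k224 2 3)), (.s k16 k32 3 (.d k144 k80 k96 7 11))] .n) .n))) (.c k191 (.l (.s k128 k64 7
  (.s k16 k32 3 (.d k144 k80 k96 7 11)))) .n))))) (.c k58 (.q k26 [(.s k16 k32 3 (.s k31 k21 2 (.d
  k15 k47 k37 3 6))), (.s k32 k16 3 (.s k96 k144 11 (.s k160 k224 7 (.s k80 k240 11 (.d k64 k128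
  k112 7 3)))))] (.c k15 (.l (.s k16 k32 3 (.s k128 k64 7 (.s k144 k96 11 (.s k160 k176 3 (.d k80
  k208 k240 7 11)))))) (.c k16 (.l (.s k128 k64 7 (.s k15 k37 6 (.s k133 k74 10 (.s k96 k144 11 (.s
  k101 k111 2 (.s k138 k143 2 (.d k207 k69 k154 10 14)))))))) (.c k31 (.q k208 [(.s k144 k96 11 (.d
  k16 k32 k80 3 7)), (.s k240 k224 3 (.s k112 k176 7 (.s k122 k181 10 (.s k117 k127 2 (.d k255 k186
  k245 10 2)))))] (.c k128 (.q k191 [(.s k255 k127 7 (.d k240 k245 k224 2 3)), (.s k16 k32 3 (.d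
  k144 k80 k96 7 11))] .n) (.c k191 (.l (.s k128 k64 7 (.s k16 k32 3 (.d k144 k80 k96 7 11)))) .n)))
  (.c k32 (.l (.s k128 k64 7 (.s k144 k96 11 (.s k160 k176 3 (.s k80 k240 11 (.s k16 k208 7 (.s k31
  k21 2 (.d k15 k47 k37 3 6)))))))) (.c k128 (.q k191 [(.s k16 k32 3 (.s k31 k21 2 (.d k15 k47 k37 3
  6))), (.s k255 k127 7 (.s k186 k117 10 (.s k176 k181 2 (.d k240 k245 k112 2 7))))] (.c k31 (.q
  k208 [(.s k255 k127 7 (.d k240 k245 k224 2 3)), (.s k16 k32 3 (.d k144 k80 k96 7 11))] .n) (.c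
  k208 (.q k31 [(.d k15 k47 k37 3 6), (.d k16 k21 k32 2 3)] .n) .n))) (.c k191 (.l (.s k128 k64 7
  (.s k16 k32 3 (.s k31 k21 2 (.d k15 k47 k37 3 6))))) (.c k208 (.q k31 [(.d k15 k47 k37 3 6), (.d
  k16 k21 k32 2 3)] (.c k128 (.q k191 [(.d k15 k47 k37 3 6), (.d k16 k21 k32 2 3)] .n) (.c k191 (.l
  (.s k128 k64 7 (.d k15 k47 k37 3 6))) .n))) .n)))))))) (.c k101 (.l (.s k32 k16 3 (.s k96 k144 11
  (.s k160 k224 7 (.s k80 k240 11 (.d k64 k112 k128 3 7)))))) (.c k128 (.q k191 [(.s k255 k127 7 (.s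
  k186 k117 10 (.d k58 k122 k53 7 2))), (.s k58 k53 2 (.s k96 k144 11 (.s k154 k202 11 (.d k101 k111
  k207 2 14))))] (.c k26 (.l (.s k58 k53 2 (.s k186 k122 7 (.d k255 k127 k117 7 10)))) (.c k31 (.q
  k208 [(.s k255 k127 7 (.d k240 k245 k224 2 3)), (.s k16 k32 3 (.d k144 k80 k96 7 11))] (.c k26 (.l
  (.s k58 k53 2 (.s k16 k32 3 (.d k144 k80 k96 7 11)))) (.c k58 (.q k26 [(.s k255 k127 7 (.d k240
  k245 k224 2 3)), (.s k16 k32 3 (.d k144 k80 k96 7 11))] .n) .n))) (.c k53 (.l (.s k255 k127 7 (.s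
  k186 k117 10 (.s k181 k176 2 (.d k122 k58 k240 7 10))))) (.c k58 (.q k26 [(.s k16 k32 3 (.s k31
  k21 2 (.d k15 k47 k37 3 6))), (.s k255 k127 7 (.s k186 k117 10 (.s k176 k181 2 (.d k240 k245 k112
  2 7))))] (.c k31 (.q k208 [(.s k255 k127 7 (.d k240 k245 k224 2 3)), (.s k16 k32 3 (.d k144 k80
  k96 7 11))] .n) (.c k208 (.q k31 [(.d k15 k47 k37 3 6), (.d k16 k21 k32 2 3)] .n) .n))) (.c k208
  (.q k31 [(.s k255 k127 7 (.s k186 k117 10 (.d k58 k122 k53 7 2))), (.s k16 k32 3 (.s k26 k21 2 (.d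
  k15 k47 k37 3 6)))] (.c k26 (.l (.s k58 k53 2 (.s k186 k122 7 (.d k255 k127 k117 7 10)))) (.c k58
  (.q k26 [(.d k15 k47 k37 3 6), (.d k16 k21 k32 2 3)] .n) .n))) .n)))))) (.c k191 (.l (.s k128 k64
  7 (.s k16 k32 3 (.s k144 k96 11 (.s k160 k176 3 (.d k80 k208 k240 7 11)))))) (.c k208 (.q k31 [(.s
  k16 k32 3 (.s k26 k21 2 (.d k15 k47 k37 3 6))), (.s k58 k53 2 (.s k154 k202 11 (.s k101 k207 14
  (.d k96 k111 k144 2 11))))] (.c k26 (.l (.s k58 k53 2 (.s k96 k144 11 (.s k154 k202 11 (.d k101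
  k111 k207 2 14))))) (.c k58 (.q k26 [(.d k15 k47 k37 3 6), (.d k16 k21 k32 2 3)] (.c k128 (.q k191
  [(.d k15 k47 k37 3 6), (.d k16 k21 k32 2 3)] .n) (.c k191 (.l (.s k128 k64 7 (.d k15 k47 k37 3
  6))) .n))) (.c k101 (.f k32 k16 3 (.l (.s k128 k64 7 (.s k47 k15 3 (.s k165 k224 10 (.s k144 k96
  11 (.s k176 k160 3 (.s k154 k143 6 (.d k58 k53 k202 2 11))))))))) (.c k128 (.q k191 [(.s k255 k127
  7 (.s k186 k117 10 (.d k58 k122 k53 7 2))), (.s k16 k32 3 (.s k26 k21 2 (.d k15 k47 k37 3 6)))]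
  (.c k26 (.l (.s k58 k53 2 (.s k186 k122 7 (.d k255 k127 k117 7 10)))) (.c k58 (.q k26 [(.d k15 k47
  k37 3 6), (.d k16 k21 k32 2 3)] .n) .n))) (.c k191 (.l (.s k128 k64 7 (.s k16 k32 3 (.s k26 k21 2
  (.d k15 k47 k37 3 6))))) .n)))))) .n)))))))) (.c k101 (.l (.s k32 k16 3 (.s k96 k144 11 (.s k160
  k224 7 (.s k80 k240 11 (.d k64 k112 k128 3 7)))))) (.c k128 (.q k191 [(.s k58 k53 2 (.s k154 k202
  11 (.s k101 k207 14 (.d k96 k111 k144 2 11)))), (.s k255 k127 7 (.s k186 k117 10 (.s k181 k176 2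
  (.s k122 k240 10 (.d k58 k250 k53 7 2)))))] (.c k26 (.l (.s k58 k53 2 (.s k96 k144 11 (.s k154
  k202 11 (.d k101 k111 k207 2 14))))) (.c k53 (.l (.s k16 k32 3 (.s k96 k144 11 (.s k127 k255 7 (.s
  k85 k64 6 (.s k154 k223 10 (.d k101 k207 k111 14 2))))))) (.c k58 (.q k26 [(.s k16 k32 3 (.s k31
  k21 2 (.d k15 k47 k37 3 6))), (.s k32 k16 3 (.s k96 k144 11 (.s k160 k224 7 (.s k80 k240 11 (.s
  k127 k255 7 (.d k64 k112 k85 3 6)))))), (.s k15 k37 6 (.s k47 k31 3 (.s k74 k133 10 (.s k165 k224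
  10 (.d k90 k122 k240 3 14)))))] (.c k32 (.l (.s k15 k37 6 (.s k47 k31 3 (.s k74 k133 10 (.s k165
  k224 10 (.d k90 k122 k240 3 14)))))) (.c k90 (.q k250 [(.s k16 k32 3 (.s k31 k21 2 (.d k15 k47 k37
  3 6))), (.s k255 k127 7 (.s k186 k117 10 (.s k176 k181 2 (.d k240 k245 k112 2 7))))] (.c k31 (.q
  k208 [(.s k255 k127 7 (.d k240 k245 k224 2 3)), (.s k16 k32 3 (.d k144 k80 k96 7 11))] .n) (.c
  k208 (.q k31 [(.d k15 k47 k37 3 6), (.d k16 k21 k32 2 3)] .n) .n))) (.c k250 (.q k90 [(.s k15 k37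
  6 (.d k74 k122 k133 3 10)), (.s k154 k218 7 (.s k96 k144 11 (.d k101 k111 k207 2 14)))] (.c k122
  (.q k186 [(.d k255 k127 k117 7 10), (.s k16 k32 3 (.s k31 k21 2 (.d k15 k47 k37 3 6)))] .n) (.c
  k186 (.l (.s k122 k74 3 (.s k15 k37 6 (.d k240 k181 k165 10 14)))) .n))) .n)))) (.c k90 (.q k250
  [(.s k255 k127 7 (.s k186 k117 10 (.d k58 k122 k53 7 2))), (.s k58 k53 2 (.s k96 k144 11 (.s k154
  k202 11 (.d k101 k111 k207 2 14))))] (.c k26 (.l (.s k58 k53 2 (.s k186 k122 7 (.d k255 k127 k117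
  7 10)))) (.c k31 (.q k208 [(.s k255 k127 7 (.d k240 k245 k224 2 3)), (.s k16 k32 3 (.d k144 k80
  k96 7 11))] (.c k26 (.l (.s k58 k53 2 (.s k16 k32 3 (.d k144 k80 k96 7 11)))) (.c k58 (.q k26 [(.s
  k255 k127 7 (.d k240 k245 k224 2 3)), (.s k16 k32 3 (.d k144 k80 k96 7 11))] .n) .n))) (.c k53 (.l
  (.s k255 k127 7 (.s k186 k117 10 (.s k181 k176 2 (.d k122 k58 k240 7 10))))) (.c k58 (.q k26 [(.s
  k16 k32 3 (.s k31 k21 2 (.d k15 k47 k37 3 6))), (.s k255 k127 7 (.s k186 k117 10 (.s k176 k181 2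
  (.d k240 k245 k112 2 7))))] (.c k31 (.q k208 [(.s k255 k127 7 (.d k240 k245 k224 2 3)), (.s k16
  k32 3 (.d k144 k80 k96 7 11))] .n) (.c k208 (.q k31 [(.d k15 k47 k37 3 6), (.d k16 k21 k32 2 3)]
  .n) .n))) (.c k208 (.q k31 [(.s k255 k127 7 (.s k186 k117 10 (.d k58 k122 k53 7 2))), (.s k16 k32
  3 (.s k26 k21 2 (.d k15 k47 k37 3 6)))] (.c k26 (.l (.s k58 k53 2 (.s k186 k122 7 (.d k255 k127
  k117 7 10)))) (.c k58 (.q k26 [(.d k15 k47 k37 3 6), (.d k16 k21 k32 2 3)] .n) .n))) .n)))))) (.c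
  k144 (.l (.s k16 k32 3 (.s k58 k53 2 (.s k154 k202 11 (.s k85 k223 10 (.d k127 k64 k255 6 7))))))
  (.c k250 (.q k90 [(.s k58 k53 2 (.s k96 k144 11 (.s k101 k111 2 (.d k154 k202 k207 11 14)))), (.s
  k127 k255 7 (.s k122 k74 3 (.s k240 k181 10 (.d k112 k117 k176 2 7))))] (.c k26 (.l (.s k58 k53 2
  (.s k96 k144 11 (.s k154 k202 11 (.d k101 k111 k207 2 14))))) (.c k58 (.q k26 [(.s k15 k37 6 (.d
  k74 k122 k133 3 10)), (.s k154 k218 7 (.s k96 k144 11 (.d k101 k111 k207 2 14)))] (.c k122 (.q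
  k186 [(.d k255 k127 k117 7 10), (.s k16 k32 3 (.s k31 k21 2 (.d k15 k47 k37 3 6)))] .n) (.c k186
  (.l (.s k122 k74 3 (.s k15 k37 6 (.d k240 k181 k165 10 14)))) .n))) (.c k176 (.l (.s k58 k53 2 (.s
  k154 k202 11 (.s k101 k207 14 (.d k96 k111 k144 2 11))))) (.c k202 (.l (.s k255 k127 7 (.s k186
  k117 10 (.s k181 k176 2 (.d k122 k74 k240 3 10))))) .n))))) .n))))))) (.c k191 (.l (.s k128 k64 7
  (.s k16 k32 3 (.s k144 k96 11 (.s k80 k208 7 (.d k160 k176 k240 3 11)))))) (.c k250 (.q k90 [(.s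
  k58 k53 2 (.s k96 k144 11 (.s k101 k111 2 (.d k154 k202 k207 11 14)))), (.s k74 k122 3 (.s k15
  k133 10 (.s k47 k31 3 (.d k165 k224 k240 10 14))))] (.c k26 (.l (.s k58 k53 2 (.s k96 k144 11 (.s
  k154 k202 11 (.d k101 k111 k207 2 14))))) (.c k58 (.q k26 [(.s k15 k37 6 (.d k74 k122 k133 3 10)),
  (.s k154 k218 7 (.s k96 k144 11 (.d k101 k111 k207 2 14)))] (.c k122 (.q k186 [(.s k15 k37 6 (.s
  k47 k31 3 (.d k165 k224 k240 10 14))), (.s k154 k218 7 (.s k96 k144 11 (.d k101 k111 k207 2 14)))]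
  (.c k128 (.q k191 [(.d k255 k127 k117 7 10), (.s k16 k32 3 (.s k31 k21 2 (.d k15 k47 k37 3 6)))]
  .n) (.c k191 (.l (.s k128 k64 7 (.s k16 k32 3 (.s k31 k21 2 (.d k15 k47 k37 3 6))))) .n))) (.c
  k128 (.q k191 [(.s k15 k37 6 (.d k74 k122 k133 3 10)), (.s k154 k218 7 (.s k96 k144 11 (.d k101
  k111 k207 2 14)))] (.c k122 (.q k186 [(.d k255 k127 k117 7 10), (.s k16 k32 3 (.s k31 k21 2 (.d
  k15 k47 k37 3 6)))] .n) (.c k186 (.l (.s k122 k74 3 (.s k15 k37 6 (.d k240 k181 k165 10 14))))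
  .n))) (.c k186 (.l (.s k122 k74 3 (.s k15 k37 6 (.d k240 k181 k165 10 14)))) (.c k191 (.l (.s k128
  k64 7 (.s k15 k37 6 (.d k74 k122 k133 3 10)))) .n))))) (.c k128 (.q k191 [(.s k58 k53 2 (.s k96
  k144 11 (.s k101 k111 2 (.d k154 k202 k207 11 14)))), (.s k127 k255 7 (.s k122 k74 3 (.s k240 k181
  10 (.d k112 k117 k176 2 7))))] (.c k26 (.l (.s k58 k53 2 (.s k96 k144 11 (.s k154 k202 11 (.d k101
  k111 k207 2 14))))) (.c k58 (.q k26 [(.s k15 k37 6 (.d k74 k122 k133 3 10)), (.s k154 k218 7 (.s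
  k96 k144 11 (.d k101 k111 k207 2 14)))] (.c k122 (.q k186 [(.d k255 k127 k117 7 10), (.s k16 k32 3
  (.s k31 k21 2 (.d k15 k47 k37 3 6)))] .n) (.c k186 (.l (.s k122 k74 3 (.s k15 k37 6 (.d k240 k181
  k165 10 14)))) .n))) (.c k176 (.l (.s k58 k53 2 (.s k154 k202 11 (.s k101 k207 14 (.d k96 k111
  k144 2 11))))) (.c k202 (.l (.s k255 k127 7 (.s k186 k117 10 (.s k181 k176 2 (.d k122 k74 k240 3
  10))))) .n))))) (.c k191 (.l (.s k128 k64 7 (.s k16 k32 3 (.s k144 k96 11 (.s k80 k208 7 (.d k160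
  k176 k240 3 11)))))) .n))))) .n)))))))))

def t42_11 : T TT 256 :=
  (.f k192 k149 14 (.q k51 [(.s k59 k55 1 (.s k98 k145 12 (.s k102 k110 1 (.d k153 k200 k204 12
  14)))), (.s k17 k34 4 (.s k128 k64 7 (.s k145 k98 12 (.s k81 k209 7 (.d k162 k179 k243 4 12))))),
  (.s k17 k34 4 (.s k59 k55 1 (.s k153 k200 12 (.s k85 k221 9 (.d k64 k128 k127 7 6)))))] (.c k102
  (.l (.s k34 k17 4 (.s k98 k145 12 (.s k162 k226 7 (.s k81 k243 12 (.d k64 k115 k128 4 7)))))) (.c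
  k128 (.q k191 [(.s k59 k55 1 (.s k153 k200 12 (.s k102 k204 14 (.d k98 k110 k145 1 12)))), (.s
  k255 k127 7 (.s k187 k119 9 (.s k183 k179 1 (.s k123 k243 9 (.d k59 k55 k251 1 7))))), (.s k17 k34
  4 (.s k98 k145 12 (.s k127 k255 7 (.s k85 k64 6 (.s k153 k221 9 (.d k102 k204 k110 14 1))))))] (.c
  k145 (.l (.s k17 k34 4 (.s k59 k55 1 (.s k153 k200 12 (.s k85 k221 9 (.d k127 k64 k255 6 7))))))
  .n)) (.c k191 (.l (.s k128 k64 7 (.s k17 k34 4 (.s k145 k98 12 (.s k81 k209 7 (.d k162 k179 k243 4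
  12)))))) .n)))))

def t42_12 : T TT 256 :=
  (.f k192 k149 14 (.q k51 [(.s k59 k55 1 (.s k98 k145 12 (.s k153 k200 12 (.d k102 k110 k204 1
  14)))), (.s k17 k34 4 (.s k128 k64 7 (.s k145 k98 12 (.s k81 k209 7 (.d k162 k179 k243 4 12))))),
  (.s k17 k34 4 (.s k59 k55 1 (.s k153 k200 12 (.s k85 k221 9 (.d k64 k128 k127 7 6)))))] (.c k102
  (.l (.s k34 k17 4 (.s k98 k145 12 (.s k162 k226 7 (.s k81 k243 12 (.d k64 k115 k128 4 7)))))) (.c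
  k128 (.q k191 [(.s k59 k55 1 (.s k153 k200 12 (.s k102 k204 14 (.d k98 k110 k145 1 12)))), (.s
  k255 k127 7 (.s k187 k119 9 (.s k183 k179 1 (.s k123 k243 9 (.d k59 k55 k251 1 7))))), (.s k17 k34
  4 (.s k98 k145 12 (.s k127 k255 7 (.s k85 k64 6 (.s k153 k221 9 (.d k102 k204 k110 14 1))))))] (.c
  k145 (.l (.s k17 k34 4 (.s k59 k55 1 (.s k153 k200 12 (.s k85 k221 9 (.d k127 k64 k255 6 7))))))
  .n)) (.c k191 (.l (.s k128 k64 7 (.s k17 k34 4 (.s k145 k98 12 (.s k81 k209 7 (.d k162 k179 k243 4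
  12)))))) .n)))))

def t42_13 : T TT 256 :=
  (.f k192 k149 14 (.q k51 [(.s k59 k55 1 (.s k98 k145 12 (.s k153 k200 12 (.d k102 k110 k204 1
  14)))), (.s k17 k34 4 (.s k128 k64 7 (.s k145 k98 12 (.s k81 k209 7 (.d k162 k179 k243 4 12))))),
  (.s k17 k34 4 (.s k59 k55 1 (.s k153 k200 12 (.s k85 k221 9 (.d k64 k128 k127 7 6)))))] (.c k102
  (.l (.s k34 k17 4 (.s k98 k145 12 (.s k162 k226 7 (.s k81 k243 12 (.d k64 k115 k128 4 7)))))) (.c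
  k128 (.q k191 [(.s k59 k55 1 (.s k153 k200 12 (.s k102 k204 14 (.d k98 k110 k145 1 12)))), (.s
  k255 k127 7 (.s k187 k119 9 (.s k183 k179 1 (.s k123 k243 9 (.d k59 k55 k251 1 7))))), (.s k17 k34
  4 (.s k98 k145 12 (.s k127 k255 7 (.s k85 k64 6 (.s k153 k221 9 (.d k102 k204 k110 14 1))))))] (.c
  k145 (.l (.s k17 k34 4 (.s k59 k55 1 (.s k153 k200 12 (.s k85 k221 9 (.d k127 k64 k255 6 7))))))
  .n)) (.c k191 (.l (.s k128 k64 7 (.s k17 k34 4 (.s k145 k98 12 (.s k81 k209 7 (.d k162 k179 k243 4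
  12)))))) .n)))))

def t42_14 : T TT 256 :=
  (.f k192 k149 14 (.q k51 [(.s k59 k55 1 (.s k98 k145 12 (.s k153 k200 12 (.d k102 k110 k204 1
  14)))), (.s k17 k34 4 (.s k128 k64 7 (.s k145 k98 12 (.s k81 k209 7 (.d k162 k179 k243 4 12))))),
  (.s k17 k34 4 (.s k59 k55 1 (.s k153 k200 12 (.s k85 k221 9 (.d k64 k128 k127 7 6)))))] (.c k102
  (.l (.s k34 k17 4 (.s k98 k145 12 (.s k162 k226 7 (.s k81 k243 12 (.d k64 k115 k128 4 7)))))) (.c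
  k128 (.q k191 [(.s k59 k55 1 (.s k153 k200 12 (.s k102 k204 14 (.d k98 k110 k145 1 12)))), (.s
  k255 k127 7 (.s k187 k119 9 (.s k183 k179 1 (.s k123 k243 9 (.d k59 k55 k251 1 7))))), (.s k17 k34
  4 (.s k98 k145 12 (.s k127 k255 7 (.s k85 k64 6 (.s k153 k221 9 (.d k102 k204 k110 14 1))))))] (.c
  k145 (.l (.s k17 k34 4 (.s k59 k55 1 (.s k153 k200 12 (.s k85 k221 9 (.d k127 k64 k255 6 7))))))
  .n)) (.c k191 (.l (.s k128 k64 7 (.s k17 k34 4 (.s k145 k98 12 (.s k81 k209 7 (.d k162 k179 k243 4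
  12)))))) .n)))))

def t42_15 : T TT 256 :=
  (.f k192 k149 14 (.q k51 [(.s k59 k55 1 (.s k98 k145 12 (.s k153 k200 12 (.d k102 k110 k204 1
  14)))), (.s k17 k34 4 (.s k128 k64 7 (.s k145 k98 12 (.s k81 k209 7 (.d k162 k179 k243 4 12))))),
  (.s k17 k34 4 (.s k59 k55 1 (.s k153 k200 12 (.s k85 k221 9 (.d k64 k128 k127 7 6)))))] (.c k102
  (.l (.s k34 k17 4 (.s k98 k145 12 (.s k162 k226 7 (.s k81 k243 12 (.d k64 k115 k128 4 7)))))) (.c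
  k128 (.q k191 [(.s k59 k55 1 (.s k153 k200 12 (.s k102 k204 14 (.d k98 k110 k145 1 12)))), (.s
  k255 k127 7 (.s k187 k119 9 (.s k183 k179 1 (.s k123 k243 9 (.d k59 k55 k251 1 7))))), (.s k17 k34
  4 (.s k98 k145 12 (.s k127 k255 7 (.s k85 k64 6 (.s k153 k221 9 (.d k102 k204 k110 14 1))))))] (.c
  k145 (.l (.s k17 k34 4 (.s k59 k55 1 (.s k153 k200 12 (.s k85 k221 9 (.d k127 k64 k255 6 7))))))
  .n)) (.c k191 (.l (.s k128 k64 7 (.s k17 k34 4 (.s k145 k98 12 (.s k81 k209 7 (.d k162 k179 k243 4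
  12)))))) .n)))))

def t42_16 : T TT 256 :=
  (.f k192 k149 14 (.q k51 [(.s k59 k55 1 (.s k98 k145 12 (.s k153 k200 12 (.d k102 k110 k204 1
  14)))), (.s k17 k34 4 (.s k128 k64 7 (.s k145 k98 12 (.s k81 k209 7 (.d k162 k179 k243 4 12))))),
  (.s k17 k34 4 (.s k59 k55 1 (.s k153 k200 12 (.s k85 k221 9 (.d k64 k128 k127 7 6)))))] (.c k102
  (.l (.s k34 k17 4 (.s k98 k145 12 (.s k162 k226 7 (.s k81 k243 12 (.d k64 k115 k128 4 7)))))) (.c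
  k128 (.q k191 [(.s k59 k55 1 (.s k153 k200 12 (.s k102 k204 14 (.d k98 k110 k145 1 12)))), (.s
  k255 k127 7 (.s k187 k119 9 (.s k183 k179 1 (.s k123 k243 9 (.d k59 k55 k251 1 7))))), (.s k17 k34
  4 (.s k98 k145 12 (.s k127 k255 7 (.s k85 k64 6 (.s k153 k221 9 (.d k102 k204 k110 14 1))))))] (.c
  k145 (.l (.s k17 k34 4 (.s k59 k55 1 (.s k153 k200 12 (.s k85 k221 9 (.d k127 k64 k255 6 7))))))
  .n)) (.c k191 (.l (.s k128 k64 7 (.s k17 k34 4 (.s k145 k98 12 (.s k81 k209 7 (.d k162 k179 k243 4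
  12)))))) .n)))))

def t42_17 : T TT 256 :=
  (.f k192 k149 14 (.q k89 [(.s k72 k123 4 (.s k12 k132 9 (.s k166 k243 14 (.d k46 k29 k226 4 9)))),
  (.s k128 k64 7 (.s k72 k123 4 (.s k132 k12 9 (.s k136 k140 1 (.s k204 k68 9 (.d k200 k196 k8 1
  7))))))] (.c k12 (.l (.s k123 k72 4 (.s k243 k183 9 (.s k81 k162 12 (.s k85 k93 1 (.d k64 k127
  k128 6 7)))))) (.c k72 (.q k85 [(.d k64 k128 k127 7 6), (.s k81 k93 1 (.s k243 k162 12 (.s k166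
  k12 14 (.d k226 k209 k46 4 9))))] (.c k128 (.q k191 [(.d k127 k64 k255 6 7), (.s k81 k93 1 (.s
  k243 k162 12 (.s k226 k209 4 (.d k166 k46 k12 9 14))))] .n) (.c k191 (.l (.s k128 k64 7 (.s k81
  k93 1 (.s k243 k162 12 (.s k166 k12 14 (.d k226 k209 k46 4 9)))))) .n))) (.c k123 (.q k85 [(.d k64
  k128 k127 7 6), (.s k81 k93 1 (.s k243 k162 12 (.s k166 k12 14 (.d k226 k209 k46 4 9))))] (.c k128
  (.q k191 [(.d k127 k64 k255 6 7), (.s k81 k93 1 (.s k243 k162 12 (.s k226 k209 4 (.d k166 k46 k12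
  9 14))))] .n) (.c k191 (.l (.s k128 k64 7 (.s k81 k93 1 (.s k243 k162 12 (.s k166 k12 14 (.d k226
  k209 k46 4 9)))))) .n))) (.c k128 (.q k191 [(.s k123 k72 4 (.s k243 k183 9 (.s k166 k12 14 (.d
  k226 k209 k46 4 9)))), (.s k127 k255 7 (.s k64 k85 6 (.s k72 k123 4 (.s k76 k68 1 (.s k102 k115 6
  (.d k110 k98 k93 1 4)))))), (.s k127 k255 7 (.s k85 k64 6 (.s k81 k93 1 (.s k243 k162 12 (.s k226
  k209 4 (.d k166 k12 k46 14 9))))))] .n) (.c k132 (.l (.s k123 k72 4 (.s k243 k183 9 (.s k166 k12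
  14 (.d k226 k209 k46 4 9))))) (.c k191 (.l (.s k128 k64 7 (.s k72 k123 4 (.s k12 k132 9 (.s k46
  k29 4 (.d k166 k226 k243 9 14)))))) .n))))))))

def t42_18 : T TT 256 :=
  (.f k192 k149 14 (.q k51 [(.s k59 k55 1 (.s k98 k145 12 (.s k153 k200 12 (.d k102 k110 k204 1
  14)))), (.s k17 k34 4 (.s k128 k64 7 (.s k145 k98 12 (.s k81 k209 7 (.d k162 k179 k243 4 12))))),
  (.s k17 k34 4 (.s k59 k55 1 (.s k153 k200 12 (.s k85 k221 9 (.d k64 k128 k127 7 6)))))] (.c k102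
  (.l (.s k34 k17 4 (.s k98 k145 12 (.s k162 k226 7 (.s k81 k243 12 (.d k64 k115 k128 4 7)))))) (.c
  k128 (.q k191 [(.s k59 k55 1 (.s k153 k200 12 (.s k102 k204 14 (.d k98 k110 k145 1 12)))), (.s
  k255 k127 7 (.s k187 k119 9 (.s k183 k179 1 (.s k123 k243 9 (.d k59 k55 k251 1 7))))), (.s k17 k34
  4 (.s k98 k145 12 (.s k127 k255 7 (.s k85 k64 6 (.s k153 k221 9 (.d k102 k204 k110 14 1))))))] (.c
  k145 (.l (.s k17 k34 4 (.s k59 k55 1 (.s k153 k200 12 (.s k85 k221 9 (.d k127 k64 k255 6 7))))))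
  .n)) (.c k191 (.l (.s k128 k64 7 (.s k17 k34 4 (.s k145 k98 12 (.s k81 k209 7 (.d k162 k179 k243 4
  12)))))) .n)))))

def t42_19 : T TT 256 :=
  (.f k192 k149 14 (.q k51 [(.s k59 k55 1 (.s k153 k200 12 (.s k102 k204 14 (.d k98 k110 k145 1
  12)))), (.s k17 k34 4 (.s k128 k64 7 (.s k145 k98 12 (.s k81 k209 7 (.d k162 k179 k243 4 12))))),
  (.s k17 k34 4 (.s k59 k55 1 (.s k153 k200 12 (.s k85 k221 9 (.d k64 k128 k127 7 6)))))] (.c k102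
  (.l (.s k34 k17 4 (.s k98 k145 12 (.s k162 k226 7 (.s k81 k243 12 (.d k64 k115 k128 4 7)))))) (.c
  k128 (.q k191 [(.s k59 k55 1 (.s k153 k200 12 (.s k102 k204 14 (.d k98 k110 k145 1 12)))), (.s
  k255 k127 7 (.s k187 k119 9 (.s k183 k179 1 (.s k123 k243 9 (.d k59 k55 k251 1 7))))), (.s k17 k34
  4 (.s k98 k145 12 (.s k127 k255 7 (.s k85 k64 6 (.s k153 k221 9 (.d k102 k204 k110 14 1))))))] (.c
  k145 (.l (.s k17 k34 4 (.s k59 k55 1 (.s k153 k200 12 (.s k85 k221 9 (.d k127 k64 k255 6 7))))))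
  .n)) (.c k191 (.l (.s k128 k64 7 (.s k17 k34 4 (.s k145 k98 12 (.s k81 k209 7 (.d k162 k179 k243 4
  12)))))) .n)))))

def t42_20 : T TT 256 :=
  (.f k192 k149 14 (.q k51 [(.s k59 k55 1 (.s k98 k145 12 (.s k153 k200 12 (.d k102 k110 k204 1
  14)))), (.s k17 k34 4 (.s k128 k64 7 (.s k145 k98 12 (.s k81 k209 7 (.d k162 k179 k243 4 12))))),
  (.s k17 k34 4 (.s k59 k55 1 (.s k153 k200 12 (.s k85 k221 9 (.d k64 k128 k127 7 6)))))] (.c k102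
  (.l (.s k34 k17 4 (.s k98 k145 12 (.s k162 k226 7 (.s k81 k243 12 (.d k64 k115 k128 4 7)))))) (.c
  k128 (.q k191 [(.s k59 k55 1 (.s k153 k200 12 (.s k102 k204 14 (.d k98 k110 k145 1 12)))), (.s
  k255 k127 7 (.s k187 k119 9 (.s k183 k179 1 (.s k123 k243 9 (.d k59 k55 k251 1 7))))), (.s k17 k34
  4 (.s k98 k145 12 (.s k127 k255 7 (.s k85 k64 6 (.s k153 k221 9 (.d k102 k204 k110 14 1))))))] (.c
  k145 (.l (.s k17 k34 4 (.s k59 k55 1 (.s k153 k200 12 (.s k85 k221 9 (.d k127 k64 k255 6 7))))))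
  .n)) (.c k191 (.l (.s k128 k64 7 (.s k17 k34 4 (.s k145 k98 12 (.s k81 k209 7 (.d k162 k179 k243 4
  12)))))) .n)))))

def t42_21 : T TT 256 :=
  (.q k51 [(.s k55 k59 1 (.s k149 k192 14 (.s k102 k196 12 (.s k110 k98 1 (.d k204 k157 k153 12
  14))))), (.s k17 k34 4 (.s k192 k149 14 (.s k128 k64 7 (.s k145 k98 12 (.s k81 k209 7 (.d k162
  k179 k243 4 12))))))] (.c k98 (.l (.s k59 k55 1 (.s k153 k200 12 (.s k204 k102 14 (.s k149 k192 14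
  (.d k157 k145 k110 1 12)))))) (.c k102 (.l (.s k34 k17 4 (.s k192 k149 14 (.s k98 k145 12 (.s k162
  k226 7 (.s k81 k243 12 (.d k64 k128 k115 7 4))))))) (.c k149 (.f k17 k34 4 (.l (.s k59 k55 1 (.s
  k153 k200 12 (.s k85 k221 9 (.s k102 k204 14 (.s k64 k127 6 (.s k98 k110 1 (.d k192 k128 k145 7
  12))))))))) (.c k192 (.f k17 k34 4 (.l (.s k59 k55 1 (.s k153 k200 12 (.s k85 k221 9 (.s k127 k64
  6 (.s k255 k191 7 (.s k119 k187 9 (.d k102 k204 k68 14 4))))))))) .n)))))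

def t42_22 : T TT 256 :=
  (.f k192 k149 14 (.q k60 [(.s k62 k61 0 (.s k104 k148 13 (.s k150 k194 13 (.d k105 k107 k195 0
  14)))), (.s k20 k40 5 (.s k128 k64 7 (.s k148 k104 13 (.s k84 k212 7 (.d k168 k188 k252 5 13))))),
  (.s k20 k40 5 (.s k62 k61 0 (.s k150 k194 13 (.s k85 k215 8 (.d k64 k128 k127 7 6)))))] (.c k2 (.l
  (.s k62 k61 0 (.s k104 k148 13 (.s k150 k194 13 (.d k105 k107 k195 0 14))))) (.c k62 (.q k2 [(.s
  k3 k1 0 (.s k66 k129 8 (.s k130 k194 7 (.s k65 k195 8 (.d k64 k128 k67 7 0))))), (.s k20 k40 5 (.s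
  k128 k64 7 (.s k148 k104 13 (.s k84 k212 7 (.d k168 k188 k252 5 13)))))] (.c k64 (.l (.s k3 k1 0
  (.s k40 k20 5 (.s k104 k148 13 (.s k232 k168 7 (.d k43 k23 k169 5 8)))))) (.c k128 (.q k191 [(.s
  k3 k1 0 (.s k43 k23 5 (.s k169 k232 8 (.s k86 k252 14 (.d k66 k126 k129 5 8))))), (.s k20 k40 5
  (.s k104 k148 13 (.s k127 k255 7 (.s k85 k64 6 (.s k150 k215 8 (.d k105 k195 k107 14 0)))))), (.s
  k3 k1 0 (.s k66 k129 8 (.s k130 k194 7 (.s k65 k195 8 (.s k127 k255 7 (.d k64 k67 k85 0 6))))))]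
  .n) (.c k191 (.l (.s k128 k64 7 (.s k20 k40 5 (.s k148 k104 13 (.s k84 k212 7 (.d k168 k188 k252 5
  13)))))) .n)))) (.c k105 (.l (.s k40 k20 5 (.s k104 k148 13 (.s k168 k232 7 (.s k84 k252 13 (.d
  k64 k124 k128 5 7)))))) (.c k128 (.q k191 [(.s k62 k61 0 (.s k150 k194 13 (.s k105 k195 14 (.d
  k104 k107 k148 0 13)))), (.s k255 k127 7 (.s k190 k125 8 (.s k189 k188 0 (.s k126 k252 8 (.d k62
  k61 k254 0 7)))))] (.c k2 (.l (.s k62 k61 0 (.s k104 k148 13 (.s k150 k194 13 (.d k105 k107 k195 0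
  14))))) (.c k61 (.l (.s k20 k40 5 (.s k104 k148 13 (.s k127 k255 7 (.s k85 k64 6 (.s k150 k215 8
  (.d k105 k195 k107 14 0))))))) (.c k62 (.q k2 [(.s k3 k1 0 (.s k43 k23 5 (.s k169 k232 8 (.s k86
  k252 14 (.d k66 k126 k129 5 8))))), (.s k20 k40 5 (.s k104 k148 13 (.s k127 k255 7 (.s k85 k64 6
  (.s k150 k215 8 (.d k105 k195 k107 14 0)))))), (.s k3 k1 0 (.s k66 k129 8 (.s k130 k194 7 (.s k65
  k195 8 (.s k127 k255 7 (.d k64 k67 k85 0 6))))))] .n) (.c k148 (.l (.s k20 k40 5 (.s k62 k61 0 (.s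
  k150 k194 13 (.s k85 k215 8 (.d k127 k64 k255 6 7)))))) .n))))) (.c k191 (.l (.s k128 k64 7 (.s
  k20 k40 5 (.s k148 k104 13 (.s k84 k212 7 (.d k168 k188 k252 5 13)))))) .n)))))))

def t42_23 : T TT 256 :=
  (.q k51 [(.s k55 k59 1 (.s k149 k192 14 (.s k102 k196 12 (.s k110 k98 1 (.d k204 k157 k153 12
  14))))), (.s k17 k34 4 (.s k192 k149 14 (.s k128 k64 7 (.s k145 k98 12 (.s k81 k209 7 (.d k162
  k179 k243 4 12))))))] (.c k98 (.l (.s k59 k55 1 (.s k153 k200 12 (.s k204 k102 14 (.s k149 k192 14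
  (.d k157 k145 k110 1 12)))))) (.c k102 (.l (.s k34 k17 4 (.s k192 k149 14 (.s k98 k145 12 (.s k162
  k226 7 (.s k81 k243 12 (.d k64 k128 k115 7 4))))))) (.c k149 (.f k17 k34 4 (.l (.s k59 k55 1 (.s
  k153 k200 12 (.s k85 k221 9 (.s k102 k204 14 (.s k64 k127 6 (.s k98 k110 1 (.d k192 k128 k145 7
  12))))))))) (.c k192 (.f k17 k34 4 (.l (.s k59 k55 1 (.s k153 k200 12 (.s k85 k221 9 (.s k127 k64
  6 (.s k255 k191 7 (.s k119 k187 9 (.d k102 k204 k68 14 4))))))))) .n)))))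

def t42_24 : T TT 256 :=
  (.f k192 k149 14 (.q k51 [(.s k59 k55 1 (.s k98 k145 12 (.s k153 k200 12 (.d k102 k110 k204 1
  14)))), (.s k17 k34 4 (.s k128 k64 7 (.s k145 k98 12 (.s k81 k209 7 (.d k162 k179 k243 4 12))))),
  (.s k17 k34 4 (.s k59 k55 1 (.s k153 k200 12 (.s k85 k221 9 (.d k64 k128 k127 7 6)))))] (.c k102
  (.l (.s k34 k17 4 (.s k98 k145 12 (.s k162 k226 7 (.s k81 k243 12 (.d k64 k115 k128 4 7)))))) (.c
  k128 (.q k191 [(.s k59 k55 1 (.s k153 k200 12 (.s k102 k204 14 (.d k98 k110 k145 1 12)))), (.s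
  k255 k127 7 (.s k187 k119 9 (.s k183 k179 1 (.s k123 k243 9 (.d k59 k55 k251 1 7))))), (.s k17 k34
  4 (.s k98 k145 12 (.s k127 k255 7 (.s k85 k64 6 (.s k153 k221 9 (.d k102 k204 k110 14 1))))))] (.c
  k145 (.l (.s k17 k34 4 (.s k59 k55 1 (.s k153 k200 12 (.s k85 k221 9 (.d k127 k64 k255 6 7))))))
  .n)) (.c k191 (.l (.s k128 k64 7 (.s k17 k34 4 (.s k145 k98 12 (.s k81 k209 7 (.d k162 k179 k243 4
  12)))))) .n)))))

def t42_25 : T TT 256 :=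
  (.f k192 k149 14 (.q k51 [(.s k59 k55 1 (.s k98 k145 12 (.s k153 k200 12 (.d k102 k110 k204 1
  14)))), (.s k17 k34 4 (.s k128 k64 7 (.s k145 k98 12 (.s k81 k209 7 (.d k162 k179 k243 4 12))))),
  (.s k17 k34 4 (.s k59 k55 1 (.s k153 k200 12 (.s k85 k221 9 (.d k64 k128 k127 7 6)))))] (.c k8 (.l
  (.s k59 k55 1 (.s k98 k145 12 (.s k153 k200 12 (.d k102 k110 k204 1 14))))) (.c k59 (.q k8 [(.s
  k12 k4 1 (.s k72 k132 9 (.s k136 k200 7 (.s k68 k204 9 (.d k64 k128 k76 7 1))))), (.s k17 k34 4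
  (.s k128 k64 7 (.s k145 k98 12 (.s k81 k209 7 (.d k162 k179 k243 4 12)))))] (.c k64 (.l (.s k12 k4
  1 (.s k34 k17 4 (.s k98 k145 12 (.s k226 k162 7 (.d k46 k29 k166 4 9)))))) (.c k128 (.q k191 [(.s
  k12 k4 1 (.s k46 k29 4 (.s k166 k226 9 (.s k89 k243 14 (.d k72 k123 k132 4 9))))), (.s k17 k34 4
  (.s k98 k145 12 (.s k127 k255 7 (.s k85 k64 6 (.s k153 k221 9 (.d k102 k204 k110 14 1)))))), (.s
  k12 k4 1 (.s k72 k132 9 (.s k136 k200 7 (.s k68 k204 9 (.s k127 k255 7 (.d k64 k76 k85 1 6))))))]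
  .n) (.c k191 (.l (.s k128 k64 7 (.s k17 k34 4 (.s k145 k98 12 (.s k81 k209 7 (.d k162 k179 k243 4
  12)))))) .n)))) (.c k102 (.l (.s k34 k17 4 (.s k98 k145 12 (.s k162 k226 7 (.s k81 k243 12 (.d k64
  k115 k128 4 7)))))) (.c k128 (.q k191 [(.s k59 k55 1 (.s k153 k200 12 (.s k102 k204 14 (.d k98
  k110 k145 1 12)))), (.s k255 k127 7 (.s k187 k119 9 (.s k183 k179 1 (.s k123 k243 9 (.d k59 k55
  k251 1 7)))))] (.c k8 (.l (.s k59 k55 1 (.s k98 k145 12 (.s k153 k200 12 (.d k102 k110 k204 1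
  14))))) (.c k55 (.l (.s k17 k34 4 (.s k98 k145 12 (.s k127 k255 7 (.s k85 k64 6 (.s k153 k221 9
  (.d k102 k204 k110 14 1))))))) (.c k59 (.q k8 [(.s k12 k4 1 (.s k46 k29 4 (.s k166 k226 9 (.s k89
  k243 14 (.d k72 k123 k132 4 9))))), (.s k17 k34 4 (.s k98 k145 12 (.s k127 k255 7 (.s k85 k64 6
  (.s k153 k221 9 (.d k102 k204 k110 14 1)))))), (.s k12 k4 1 (.s k72 k132 9 (.s k136 k200 7 (.s k68
  k204 9 (.s k127 k255 7 (.d k64 k76 k85 1 6))))))] .n) (.c k145 (.l (.s k17 k34 4 (.s k59 k55 1 (.s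
  k153 k200 12 (.s k85 k221 9 (.d k127 k64 k255 6 7)))))) .n))))) (.c k191 (.l (.s k128 k64 7 (.s
  k17 k34 4 (.s k145 k98 12 (.s k81 k209 7 (.d k162 k179 k243 4 12)))))) .n)))))))

def t42_26 : T TT 256 :=
  (.f k192 k149 14 (.q k48 [(.s k58 k53 2 (.s k96 k144 11 (.s k154 k202 11 (.d k101 k111 k207 2
  14)))), (.s k16 k32 3 (.s k128 k64 7 (.s k144 k96 11 (.s k80 k208 7 (.d k160 k176 k240 3 11))))),
  (.s k16 k32 3 (.s k58 k53 2 (.s k154 k202 11 (.s k85 k223 10 (.d k64 k128 k127 7 6)))))] (.c k10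
  (.l (.s k58 k53 2 (.s k96 k144 11 (.s k154 k202 11 (.d k101 k111 k207 2 14))))) (.c k58 (.q k10
  [(.s k15 k5 2 (.s k74 k133 10 (.s k138 k202 7 (.s k69 k207 10 (.d k64 k128 k79 7 2))))), (.s k16
  k32 3 (.s k128 k64 7 (.s k144 k96 11 (.s k80 k208 7 (.d k160 k176 k240 3 11)))))] (.c k64 (.l (.s
  k15 k5 2 (.s k32 k16 3 (.s k96 k144 11 (.s k224 k160 7 (.d k47 k31 k165 3 10)))))) (.c k128 (.q
  k191 [(.s k15 k5 2 (.s k47 k31 3 (.s k165 k224 10 (.s k90 k240 14 (.d k74 k122 k133 3 10))))), (.s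
  k16 k32 3 (.s k96 k144 11 (.s k127 k255 7 (.s k85 k64 6 (.s k154 k223 10 (.d k101 k207 k111 14
  2)))))), (.s k15 k5 2 (.s k74 k133 10 (.s k138 k202 7 (.s k69 k207 10 (.s k127 k255 7 (.d k64 k79
  k85 2 6))))))] .n) (.c k191 (.l (.s k128 k64 7 (.s k16 k32 3 (.s k144 k96 11 (.s k80 k208 7 (.d
  k160 k176 k240 3 11)))))) .n)))) (.c k101 (.l (.s k32 k16 3 (.s k96 k144 11 (.s k160 k224 7 (.s
  k80 k240 11 (.d k64 k112 k128 3 7)))))) (.c k128 (.q k191 [(.s k58 k53 2 (.s k154 k202 11 (.s k101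
  k207 14 (.d k96 k111 k144 2 11)))), (.s k255 k127 7 (.s k186 k117 10 (.s k181 k176 2 (.s k122 k240
  10 (.d k58 k53 k250 2 7)))))] (.c k10 (.l (.s k58 k53 2 (.s k96 k144 11 (.s k154 k202 11 (.d k101
  k111 k207 2 14))))) (.c k53 (.l (.s k16 k32 3 (.s k96 k144 11 (.s k127 k255 7 (.s k85 k64 6 (.s
  k154 k223 10 (.d k101 k207 k111 14 2))))))) (.c k58 (.q k10 [(.s k15 k5 2 (.s k47 k31 3 (.s k165
  k224 10 (.s k90 k240 14 (.d k74 k122 k133 3 10))))), (.s k16 k32 3 (.s k96 k144 11 (.s k127 k255 7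
  (.s k85 k64 6 (.s k154 k223 10 (.d k101 k207 k111 14 2)))))), (.s k15 k5 2 (.s k74 k133 10 (.s
  k138 k202 7 (.s k69 k207 10 (.s k127 k255 7 (.d k64 k79 k85 2 6))))))] .n) (.c k144 (.l (.s k16
  k32 3 (.s k58 k53 2 (.s k154 k202 11 (.s k85 k223 10 (.d k127 k64 k255 6 7)))))) .n))))) (.c k191
  (.l (.s k128 k64 7 (.s k16 k32 3 (.s k144 k96 11 (.s k80 k208 7 (.d k160 k176 k240 3 11))))))
  .n)))))))

def t42_27 : T TT 256 :=
  (.f k192 k149 14 (.q k48 [(.s k58 k53 2 (.s k96 k144 11 (.s k154 k202 11 (.d k101 k111 k207 2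
  14)))), (.s k16 k32 3 (.s k128 k64 7 (.s k144 k96 11 (.s k80 k208 7 (.d k160 k176 k240 3 11))))),
  (.s k16 k32 3 (.s k58 k53 2 (.s k154 k202 11 (.s k85 k223 10 (.d k64 k128 k127 7 6)))))] (.c k101
  (.l (.s k32 k16 3 (.s k96 k144 11 (.s k160 k224 7 (.s k80 k240 11 (.d k64 k112 k128 3 7)))))) (.c
  k128 (.q k191 [(.s k58 k53 2 (.s k154 k202 11 (.s k101 k207 14 (.d k96 k111 k144 2 11)))), (.s
  k255 k127 7 (.s k186 k117 10 (.s k181 k176 2 (.s k122 k240 10 (.d k58 k53 k250 2 7))))), (.s k16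
  k32 3 (.s k96 k144 11 (.s k127 k255 7 (.s k85 k64 6 (.s k154 k223 10 (.d k101 k207 k111 14
  2))))))] (.c k144 (.l (.s k16 k32 3 (.s k58 k53 2 (.s k154 k202 11 (.s k85 k223 10 (.d k127 k64
  k255 6 7)))))) .n)) (.c k191 (.l (.s k128 k64 7 (.s k16 k32 3 (.s k144 k96 11 (.s k80 k208 7 (.d
  k160 k176 k240 3 11)))))) .n)))))

def t42_28 : T TT 256 :=
  (.f k192 k149 14 (.q k48 [(.s k58 k53 2 (.s k96 k144 11 (.s k154 k202 11 (.d k101 k111 k207 2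
  14)))), (.s k16 k32 3 (.s k128 k64 7 (.s k144 k96 11 (.s k80 k208 7 (.d k160 k176 k240 3 11))))),
  (.s k16 k32 3 (.s k58 k53 2 (.s k154 k202 11 (.s k85 k223 10 (.d k64 k128 k127 7 6)))))] (.c k101
  (.l (.s k32 k16 3 (.s k96 k144 11 (.s k160 k224 7 (.s k80 k240 11 (.d k64 k112 k128 3 7)))))) (.c
  k128 (.q k191 [(.s k58 k53 2 (.s k154 k202 11 (.s k101 k207 14 (.d k96 k111 k144 2 11)))), (.s
  k255 k127 7 (.s k186 k117 10 (.s k181 k176 2 (.s k122 k240 10 (.d k58 k53 k250 2 7))))), (.s k16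
  k32 3 (.s k96 k144 11 (.s k127 k255 7 (.s k85 k64 6 (.s k154 k223 10 (.d k101 k207 k111 14
  2))))))] (.c k144 (.l (.s k16 k32 3 (.s k58 k53 2 (.s k154 k202 11 (.s k85 k223 10 (.d k127 k64
  k255 6 7)))))) .n)) (.c k191 (.l (.s k128 k64 7 (.s k16 k32 3 (.s k144 k96 11 (.s k80 k208 7 (.d
  k160 k176 k240 3 11)))))) .n)))))

def t42_29 : T TT 256 :=
  (.q k48 [(.s k58 k53 2 (.s k154 k202 11 (.s k207 k101 14 (.s k149 k192 14 (.d k159 k144 k111 2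
  11))))), (.s k16 k32 3 (.s k192 k149 14 (.s k128 k64 7 (.s k144 k96 11 (.s k80 k208 7 (.d k160
  k176 k240 3 11)))))), (.s k53 k58 2 (.s k149 k192 14 (.s k101 k197 11 (.s k207 k154 14 (.d k111
  k96 k159 2 11)))))] (.c k101 (.l (.s k32 k16 3 (.s k192 k149 14 (.s k96 k144 11 (.s k160 k224 7
  (.s k80 k240 11 (.d k64 k128 k112 7 3))))))) (.c k149 (.f k16 k32 3 (.l (.s k58 k53 2 (.s k154
  k202 11 (.s k85 k223 10 (.s k101 k207 14 (.s k64 k127 6 (.s k96 k111 2 (.d k192 k128 k144 7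
  11))))))))) (.c k192 (.f k16 k32 3 (.l (.s k58 k53 2 (.s k154 k202 11 (.s k85 k223 10 (.s k127 k64
  6 (.s k255 k191 7 (.s k117 k186 10 (.d k101 k207 k69 14 3))))))))) .n))))

def t42_30 : T TT 256 :=
  (.f k192 k149 14 (.q k48 [(.s k58 k53 2 (.s k96 k144 11 (.s k154 k202 11 (.d k101 k111 k207 2
  14)))), (.s k16 k32 3 (.s k128 k64 7 (.s k144 k96 11 (.s k80 k208 7 (.d k160 k176 k240 3 11))))),
  (.s k16 k32 3 (.s k58 k53 2 (.s k154 k202 11 (.s k85 k223 10 (.d k64 k128 k127 7 6)))))] (.c k101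
  (.l (.s k32 k16 3 (.s k96 k144 11 (.s k160 k224 7 (.s k80 k240 11 (.d k64 k112 k128 3 7)))))) (.c
  k128 (.q k191 [(.s k58 k53 2 (.s k154 k202 11 (.s k101 k207 14 (.d k96 k111 k144 2 11)))), (.s
  k255 k127 7 (.s k186 k117 10 (.s k181 k176 2 (.s k122 k240 10 (.d k58 k53 k250 2 7))))), (.s k16
  k32 3 (.s k96 k144 11 (.s k127 k255 7 (.s k85 k64 6 (.s k154 k223 10 (.d k101 k207 k111 14
  2))))))] (.c k144 (.l (.s k16 k32 3 (.s k58 k53 2 (.s k154 k202 11 (.s k85 k223 10 (.d k127 k64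
  k255 6 7)))))) .n)) (.c k191 (.l (.s k128 k64 7 (.s k16 k32 3 (.s k144 k96 11 (.s k80 k208 7 (.d
  k160 k176 k240 3 11)))))) .n)))))

def t42_31 : T TT 256 :=
  (.q k48 [(.s k58 k53 2 (.s k154 k202 11 (.s k207 k101 14 (.s k149 k192 14 (.d k159 k144 k111 2
  11))))), (.s k16 k32 3 (.s k192 k149 14 (.s k128 k64 7 (.s k144 k96 11 (.s k160 k176 3 (.d k80
  k208 k240 7 11)))))), (.s k53 k58 2 (.s k149 k192 14 (.s k101 k197 11 (.s k207 k154 14 (.d k111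
  k96 k159 2 11)))))] (.c k101 (.l (.s k32 k16 3 (.s k192 k149 14 (.s k96 k144 11 (.s k160 k224 7
  (.s k80 k240 11 (.d k64 k128 k112 7 3))))))) (.c k149 (.f k16 k32 3 (.l (.s k58 k53 2 (.s k154
  k202 11 (.s k85 k223 10 (.s k101 k207 14 (.s k64 k127 6 (.s k96 k111 2 (.d k192 k128 k144 7
  11))))))))) (.c k192 (.f k16 k32 3 (.l (.s k58 k53 2 (.s k154 k202 11 (.s k85 k223 10 (.s k127 k64
  6 (.s k255 k191 7 (.s k117 k186 10 (.d k101 k207 k69 14 3))))))))) .n))))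

def t42_32 : T TT 256 :=
  (.q k15 [(.s k47 k31 3 (.s k165 k224 10 (.s k90 k240 14 (.s k74 k122 3 (.d k192 k133 k149 10
  14))))), (.s k5 k10 2 (.s k192 k149 14 (.s k128 k64 7 (.s k133 k74 10 (.s k69 k197 7 (.d k138 k143
  k207 2 10)))))), (.s k5 k10 2 (.s k47 k31 3 (.s k165 k224 10 (.s k85 k245 11 (.s k192 k149 14 (.d
  k64 k128 k127 7 6))))))] (.c k37 (.l (.s k47 k31 3 (.s k165 k224 10 (.s k90 k240 14 (.s k192 k149
  14 (.d k74 k122 k133 3 10)))))) (.c k47 (.q k37 [(.s k5 k10 2 (.s k53 k21 3 (.d k48 k58 k26 2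
  6))), (.s k10 k5 2 (.s k192 k149 14 (.s k74 k133 10 (.s k138 k202 7 (.s k69 k207 10 (.d k64 k128
  k79 7 2))))))] (.c k5 (.l (.s k48 k26 6 (.s k58 k53 2 (.s k154 k202 11 (.s k101 k207 14 (.s k192
  k149 14 (.d k96 k111 k144 2 11))))))) (.c k10 (.l (.s k48 k26 6 (.s k58 k53 2 (.s k154 k202 11 (.s
  k101 k207 14 (.s k192 k149 14 (.d k96 k111 k144 2 11))))))) (.c k101 (.q k239 [(.s k5 k10 2 (.s
  k53 k21 3 (.d k48 k58 k26 2 6))), (.s k10 k5 2 (.s k192 k149 14 (.s k74 k133 10 (.s k138 k202 7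
  (.s k69 k207 10 (.d k64 k128 k79 7 2))))))] (.c k5 (.q k160 [(.s k240 k80 11 (.s k122 k181 10 (.d
  k90 k74 k165 3 14))), (.s k48 k26 6 (.s k192 k149 14 (.s k128 k64 7 (.d k144 k176 k96 3 11))))]
  .n) (.c k10 (.f k192 k149 14 (.l (.s k128 k64 7 (.s k133 k74 10 (.s k138 k143 2 (.s k69 k207 10
  (.s k5 k197 7 (.s k53 k21 3 (.d k48 k58 k26 2 6))))))))) (.c k48 (.l (.s k5 k10 2 (.s k192 k149 14
  (.s k128 k64 7 (.s k133 k74 10 (.s k138 k143 2 (.d k69 k197 k207 7 10))))))) (.c k53 (.f k192 k149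
  14 (.q k197 [(.s k133 k74 10 (.d k5 k10 k69 2 7)), (.s k207 k202 2 (.s k79 k143 7 (.s k111 k159 11
  (.s k95 k127 3 (.d k255 k175 k223 11 3)))))] (.c k128 (.q k191 [(.s k255 k127 7 (.d k207 k202 k223
  2 3)), (.s k5 k10 2 (.d k133 k69 k74 7 10))] .n) (.c k191 (.l (.s k128 k64 7 (.s k5 k10 2 (.d k133
  k69 k74 7 10)))) .n)))) .n))))) (.c k239 (.q k101 [(.s k48 k26 6 (.s k58 k53 2 (.d k154 k202 k207
  11 14))), (.s k149 k192 14 (.s k53 k197 11 (.d k5 k10 k21 2 3))), (.s k5 k10 2 (.s k53 k21 3 (.d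
  k48 k58 k26 2 6)))] (.c k10 (.l (.s k48 k26 6 (.s k58 k53 2 (.d k154 k202 k207 11 14)))) (.c k53
  (.l (.s k48 k26 6 (.s k207 k154 14 (.d k111 k96 k159 2 11)))) (.c k111 (.q k175 [(.s k48 k26 6 (.s
  k58 k53 2 (.d k154 k202 k207 11 14))), (.s k255 k95 11 (.s k127 k191 7 (.s k64 k85 6 (.d k192 k128
  k149 7 14))))] .n) (.c k175 (.l (.s k111 k96 2 (.s k48 k26 6 (.d k207 k159 k154 11 14)))) .n)))))
  .n))))) (.c k90 (.l (.s k10 k5 2 (.s k192 k149 14 (.s k74 k133 10 (.s k138 k202 7 (.s k69 k207 10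
  (.d k64 k128 k79 7 2))))))) (.c k101 (.q k239 [(.s k47 k31 3 (.s k165 k224 10 (.s k90 k240 14 (.s
  k74 k122 3 (.d k192 k133 k149 10 14))))), (.s k5 k10 2 (.s k192 k149 14 (.s k128 k64 7 (.s k133
  k74 10 (.s k138 k143 2 (.d k69 k197 k207 7 10)))))), (.s k5 k10 2 (.s k47 k31 3 (.s k165 k224 10
  (.s k85 k245 11 (.s k175 k111 7 (.s k95 k255 11 (.d k90 k240 k80 14 2)))))))] (.c k37 (.l (.s k47
  k31 3 (.s k165 k224 10 (.s k90 k240 14 (.s k192 k149 14 (.d k74 k122 k133 3 10)))))) (.c k47 (.q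
  k37 [(.s k5 k10 2 (.s k53 k21 3 (.d k48 k58 k26 2 6))), (.s k10 k5 2 (.s k192 k149 14 (.s k74 k133
  10 (.s k138 k202 7 (.s k69 k207 10 (.d k64 k128 k79 7 2))))))] (.c k5 (.q k160 [(.s k240 k80 11
  (.s k122 k181 10 (.d k90 k74 k165 3 14))), (.s k48 k26 6 (.s k192 k149 14 (.s k128 k64 7 (.d k144
  k176 k96 3 11))))] .n) (.c k10 (.f k192 k149 14 (.l (.s k128 k64 7 (.s k133 k74 10 (.s k138 k143 2
  (.s k69 k207 10 (.s k5 k197 7 (.s k53 k21 3 (.d k48 k58 k26 2 6))))))))) (.c k48 (.l (.s k5 k10 2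
  (.s k192 k149 14 (.s k128 k64 7 (.s k133 k74 10 (.s k138 k143 2 (.d k69 k197 k207 7 10))))))) (.c
  k53 (.f k192 k149 14 (.q k197 [(.s k133 k74 10 (.d k5 k10 k69 2 7)), (.s k207 k202 2 (.s k79 k143
  7 (.s k111 k159 11 (.s k95 k127 3 (.d k255 k175 k223 11 3)))))] (.c k128 (.q k191 [(.s k255 k127 7
  (.d k207 k202 k223 2 3)), (.s k5 k10 2 (.d k133 k69 k74 7 10))] .n) (.c k191 (.l (.s k128 k64 7
  (.s k5 k10 2 (.d k133 k69 k74 7 10)))) .n)))) .n))))) (.c k90 (.l (.s k10 k5 2 (.s k192 k149 14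
  (.s k74 k133 10 (.s k138 k202 7 (.s k69 k207 10 (.d k64 k128 k79 7 2))))))) .n)))) (.c k149 (.f
  k47 k31 3 (.l (.s k5 k10 2 (.s k165 k224 10 (.s k85 k245 11 (.s k90 k240 14 (.s k64 k127 6 (.s k74
  k122 3 (.d k192 k128 k133 7 10))))))))) (.c k192 (.f k47 k31 3 (.l (.s k5 k10 2 (.s k165 k224 10
  (.s k85 k245 11 (.s k127 k64 6 (.s k255 k191 7 (.s k95 k175 11 (.d k90 k240 k80 14 2))))))))) (.c
  k239 (.q k101 [(.s k5 k10 2 (.s k149 k192 14 (.s k53 k197 11 (.s k37 k21 3 (.d k48 k58 k26 2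
  6))))), (.s k47 k31 3 (.s k165 k224 10 (.s k90 k240 14 (.s k192 k149 14 (.d k74 k122 k133 3
  10))))), (.s k10 k5 2 (.s k111 k96 2 (.s k207 k159 11 (.s k138 k69 10 (.s k202 k74 7 (.d k154 k58
  k48 11 14))))))] (.c k37 (.l (.s k47 k31 3 (.s k165 k224 10 (.s k90 k240 14 (.s k192 k149 14 (.d
  k74 k122 k133 3 10)))))) (.c k47 (.q k37 [(.s k48 k26 6 (.s k58 k53 2 (.d k154 k202 k207 11 14))),
  (.s k149 k192 14 (.s k53 k197 11 (.d k5 k10 k21 2 3))), (.s k5 k10 2 (.s k53 k21 3 (.d k48 k58 k26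
  2 6)))] (.c k10 (.l (.s k48 k26 6 (.s k58 k53 2 (.d k154 k202 k207 11 14)))) (.c k53 (.l (.s k48
  k26 6 (.s k207 k154 14 (.d k111 k96 k159 2 11)))) (.c k111 (.q k175 [(.s k48 k26 6 (.s k58 k53 2
  (.d k154 k202 k207 11 14))), (.s k255 k95 11 (.s k127 k191 7 (.s k64 k85 6 (.d k192 k128 k149 7
  14))))] .n) (.c k175 (.l (.s k111 k96 2 (.s k48 k26 6 (.d k207 k159 k154 11 14)))) .n))))) .n)))
  .n))))))))

def t42_33 : T TT 256 :=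
  (.f k192 k149 14 (.q k60 [(.s k62 k61 0 (.s k104 k148 13 (.s k150 k194 13 (.d k105 k107 k195 0
  14)))), (.s k20 k40 5 (.s k128 k64 7 (.s k148 k104 13 (.s k84 k212 7 (.d k168 k188 k252 5 13))))),
  (.s k20 k40 5 (.s k62 k61 0 (.s k150 k194 13 (.s k85 k215 8 (.d k64 k128 k127 7 6)))))] (.c k105
  (.l (.s k40 k20 5 (.s k104 k148 13 (.s k168 k232 7 (.s k84 k252 13 (.d k64 k124 k128 5 7)))))) (.c
  k128 (.q k191 [(.s k62 k61 0 (.s k150 k194 13 (.s k105 k195 14 (.d k104 k107 k148 0 13)))), (.s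
  k255 k127 7 (.s k190 k125 8 (.s k189 k188 0 (.s k126 k252 8 (.d k62 k61 k254 0 7))))), (.s k20 k40
  5 (.s k104 k148 13 (.s k127 k255 7 (.s k85 k64 6 (.s k150 k215 8 (.d k105 k195 k107 14 0))))))]
  (.c k148 (.l (.s k20 k40 5 (.s k62 k61 0 (.s k150 k194 13 (.s k85 k215 8 (.d k127 k64 k255 6
  7)))))) .n)) (.c k191 (.l (.s k128 k64 7 (.s k20 k40 5 (.s k148 k104 13 (.s k84 k212 7 (.d k168
  k188 k252 5 13)))))) .n)))))

def t42_34 : T TT 256 :=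
  (.q k46 [(.s k12 k29 4 (.s k166 k226 9 (.s k89 k243 14 (.s k72 k123 4 (.d k192 k132 k149 9
  14))))), (.s k12 k29 4 (.s k4 k8 1 (.s k192 k149 14 (.s k128 k64 7 (.s k132 k72 9 (.s k68 k196 7
  (.d k136 k140 k204 1 9))))))), (.s k12 k29 4 (.s k4 k8 1 (.s k166 k226 9 (.s k85 k247 12 (.s k192
  k149 14 (.d k64 k128 k127 7 6))))))] (.c k12 (.q k15 [(.s k47 k31 3 (.s k165 k224 10 (.s k90 k240
  14 (.s k192 k149 14 (.d k74 k122 k133 3 10))))), (.s k47 k31 3 (.s k44 k45 0 (.s k166 k226 9 (.s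
  k105 k227 10 (.s k224 k165 10 (.d k104 k107 k164 0 9)))))), (.s k5 k10 2 (.s k192 k149 14 (.s k128
  k64 7 (.s k133 k74 10 (.s k69 k197 7 (.d k138 k143 k207 2 10))))))] (.c k102 (.q k238 [(.s k31 k47
  3 (.s k149 k192 14 (.s k90 k208 10 (.s k122 k74 3 (.d k240 k181 k165 10 14))))), (.s k5 k10 2 (.s
  k192 k149 14 (.s k128 k64 7 (.s k133 k74 10 (.s k69 k197 7 (.d k138 k143 k207 2 10)))))), (.s k31
  k47 3 (.s k110 k174 7 (.s k157 k204 12 (.s k94 k220 8 (.s k252 k173 12 (.d k126 k78 k189 3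
  8))))))] .n) (.c k238 (.q k102 [(.s k47 k31 3 (.s k165 k224 10 (.s k90 k240 14 (.s k192 k149 14
  (.d k74 k122 k133 3 10))))), (.s k149 k192 14 (.s k55 k196 12 (.s k51 k59 1 (.s k204 k153 14 (.d
  k110 k98 k157 1 12))))), (.s k31 k47 3 (.s k110 k98 1 (.s k157 k204 12 (.s k94 k220 8 (.s k252
  k173 12 (.d k126 k78 k189 3 8))))))] .n) .n))) (.c k29 (.q k102 [(.s k149 k192 14 (.s k55 k196 12
  (.s k51 k59 1 (.s k204 k153 14 (.d k110 k98 k157 1 12))))), (.s k166 k226 9 (.s k230 k38 7 (.s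
  k149 k192 14 (.s k196 k55 12 (.s k132 k183 4 (.s k4 k68 7 (.d k247 k213 k85 4 12))))))), (.s k110
  k98 1 (.s k238 k174 7 (.s k204 k157 12 (.s k68 k136 9 (.s k85 k119 4 (.s k127 k64 6 (.d k255 k221
  k191 4 7)))))))] (.c k98 (.q k162 [(.s k243 k81 12 (.s k226 k166 9 (.d k192 k209 k149 4 14))), (.s
  k166 k226 9 (.s k38 k230 7 (.s k149 k192 14 (.s k55 k196 12 (.s k4 k21 4 (.s k12 k8 1 (.d k51 k59
  k25 1 6))))))), (.s k243 k81 12 (.s k166 k226 9 (.s k89 k12 14 (.d k123 k72 k183 4 9)))), (.s k243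
  k81 12 (.s k149 k192 14 (.s k55 k196 12 (.s k51 k59 1 (.s k115 k179 7 (.s k123 k183 9 (.d k89 k72
  k76 4 6)))))))] (.c k243 (.l (.s k166 k226 9 (.s k192 k149 14 (.s k128 k64 7 (.s k179 k145 4 (.s
  k153 k140 6 (.s k51 k204 14 (.d k59 k55 k200 1 12)))))))) .n)) .n)) (.c k89 (.q k102 [(.s k149
  k192 14 (.s k55 k196 12 (.s k110 k98 1 (.s k204 k157 12 (.d k51 k59 k153 1 14))))), (.s k110 k98 1
  (.s k174 k238 7 (.s k157 k204 12 (.s k191 k140 4 (.s k255 k127 7 (.d k12 k29 k93 4 12)))))), (.s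
  k12 k29 4 (.s k8 k4 1 (.s k149 k192 14 (.s k55 k196 12 (.s k51 k59 1 (.s k38 k25 6 (.d k166 k230
  k226 7 9)))))))] (.c k8 (.q k251 [(.s k149 k192 14 (.s k55 k196 12 (.s k110 k98 1 (.s k204 k157 12
  (.d k51 k59 k153 1 14))))), (.s k110 k98 1 (.s k174 k238 7 (.s k157 k204 12 (.s k191 k140 4 (.s
  k255 k127 7 (.d k12 k29 k93 4 12)))))), (.s k12 k29 4 (.s k166 k226 9 (.s k38 k230 7 (.s k51 k25 6
  (.s k59 k55 1 (.d k153 k200 k204 12 14)))))), (.s k192 k149 14 (.s k98 k110 1 (.s k51 k145 12 (.s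
  k153 k204 14 (.d k59 k55 k200 1 12)))))] (.c k25 (.q k59 [(.s k51 k55 1 (.d k153 k200 k204 12
  14)), (.s k166 k226 9 (.s k123 k187 7 (.s k149 k192 14 (.d k183 k243 k132 9 4))))] (.c k153 (.q
  k217 [(.s k149 k192 14 (.d k55 k51 k196 1 12)), (.s k166 k226 9 (.s k230 k38 7 (.s k243 k204 6 (.d
  k123 k187 k183 7 9))))] (.c k51 (.l (.s k166 k226 9 (.s k149 k192 14 (.s k183 k132 4 (.d k123 k243
  k187 9 7))))) (.c k136 (.l (.s k187 k123 7 (.s k55 k51 1 (.d k149 k196 k192 12 14)))) (.c k187 (.q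
  k136 [(.s k204 k68 9 (.d k110 k98 k157 1 12)), (.s k55 k51 1 (.d k149 k196 k192 12 14))] .n)
  .n)))) (.c k217 (.l (.s k153 k200 12 (.d k51 k55 k204 1 14))) .n))) (.c k59 (.q k25 [(.s k12 k29 4
  (.s k38 k51 6 (.d k166 k230 k226 7 9))), (.s k192 k149 14 (.s k110 k98 1 (.s k204 k157 12 (.s k68
  k136 9 (.s k85 k119 4 (.d k64 k128 k127 7 6)))))), (.s k166 k226 9 (.s k38 k230 7 (.s k51 k12 6
  (.s k204 k153 14 (.d k110 k98 k157 1 12)))))] (.c k226 (.l (.s k12 k29 4 (.s k51 k38 6 (.s k204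
  k153 14 (.d k110 k98 k157 1 12))))) .n)) (.c k98 (.f k192 k149 14 (.l (.s k29 k12 4 (.s k226 k166
  9 (.s k243 k209 4 (.s k255 k247 1 (.s k234 k213 6 (.s k217 k200 4 (.d k230 k238 k204 1 6)))))))))
  (.c k204 (.l (.s k166 k226 9 (.s k38 k230 7 (.s k192 k149 14 (.s k98 k110 1 (.s k51 k145 12 (.d
  k12 k29 k25 4 6))))))) .n))))) (.c k204 (.l (.s k12 k29 4 (.s k166 k226 9 (.s k38 k230 7 (.s k51
  k25 6 (.s k149 k192 14 (.d k55 k59 k196 1 12))))))) (.c k226 (.l (.s k149 k192 14 (.s k55 k196 12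
  (.s k51 k59 1 (.s k204 k153 14 (.d k110 k98 k157 1 12)))))) (.c k251 (.q k8 [(.d k12 k4 k29 1 4),
  (.s k149 k192 14 (.s k55 k196 12 (.s k51 k59 1 (.s k204 k153 14 (.d k110 k98 k157 1 12)))))] .n)
  .n))))) (.c k102 (.q k238 [(.s k12 k29 4 (.s k166 k226 9 (.s k89 k243 14 (.s k72 k123 4 (.d k192
  k132 k149 9 14))))), (.s k12 k29 4 (.s k174 k110 7 (.s k255 k93 12 (.s k127 k191 7 (.s k64 k85 6
  (.d k192 k128 k149 7 14)))))), (.s k110 k174 7 (.s k192 k149 14 (.s k204 k157 12 (.s k255 k221 4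
  (.s k234 k213 6 (.d k226 k166 k230 9 1)))))), (.s k12 k29 4 (.s k4 k8 1 (.s k166 k226 9 (.s k85
  k247 12 (.s k174 k110 7 (.s k93 k255 12 (.d k89 k243 k81 14 1)))))))] (.c k29 (.q k230 [(.d k226
  k234 k166 1 9)] (.c k166 (.l (.s k192 k149 14 (.s k234 k226 1 (.s k255 k213 6 (.s k204 k221 4 (.d
  k110 k157 k174 12 7)))))) (.c k226 (.l (.s k110 k174 7 (.s k192 k149 14 (.s k204 k157 12 (.s k196
  k200 1 (.s k213 k247 4 (.d k255 k221 k234 4 6))))))) (.c k234 (.l (.s k110 k174 7 (.s k192 k149 14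
  (.s k204 k157 12 (.s k243 k217 6 (.d k226 k209 k166 4 9)))))) .n)))) .n)) (.c k149 (.f k12 k29 4
  (.l (.s k4 k8 1 (.s k166 k226 9 (.s k85 k247 12 (.s k89 k243 14 (.s k64 k127 6 (.s k72 k123 4 (.d
  k192 k128 k132 7 9))))))))) (.c k192 (.f k12 k29 4 (.l (.s k4 k8 1 (.s k166 k226 9 (.s k85 k247 12
  (.s k127 k64 6 (.s k255 k191 7 (.s k93 k174 12 (.d k89 k243 k81 14 1))))))))) (.c k209 (.l (.s k12
  k29 4 (.s k166 k226 9 (.s k89 k243 14 (.s k192 k149 14 (.d k72 k123 k132 4 9)))))) (.c k238 (.q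
  k102 [(.s k12 k29 4 (.s k192 k149 14 (.s k72 k132 9 (.s k89 k123 4 (.d k166 k226 k243 9 14))))),
  (.s k149 k192 14 (.s k55 k196 12 (.s k51 k59 1 (.s k204 k153 14 (.d k110 k98 k157 1 12)))))] (.c
  k149 (.l (.s k12 k29 4 (.s k166 k226 9 (.s k89 k243 14 (.s k76 k115 6 (.s k204 k140 7 (.d k110 k98
  k157 1 12))))))) (.c k192 (.l (.s k12 k29 4 (.s k166 k226 9 (.s k243 k89 14 (.s k230 k38 7 (.s
  k204 k217 6 (.d k110 k98 k157 1 12))))))) .n))) .n)))))))))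

def t42_35 : T TT 256 :=
  (.f k192 k149 14 (.q k51 [(.s k59 k55 1 (.s k98 k145 12 (.s k153 k200 12 (.d k102 k110 k204 1
  14)))), (.s k17 k34 4 (.s k128 k64 7 (.s k145 k98 12 (.s k81 k209 7 (.d k162 k179 k243 4 12))))),
  (.s k17 k34 4 (.s k59 k55 1 (.s k153 k200 12 (.s k85 k221 9 (.d k64 k128 k127 7 6)))))] (.c k102
  (.l (.s k34 k17 4 (.s k98 k145 12 (.s k162 k226 7 (.s k81 k243 12 (.d k64 k115 k128 4 7)))))) (.c
  k128 (.q k191 [(.s k59 k55 1 (.s k153 k200 12 (.s k102 k204 14 (.d k98 k110 k145 1 12)))), (.s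
  k255 k127 7 (.s k187 k119 9 (.s k183 k179 1 (.s k123 k243 9 (.d k59 k55 k251 1 7))))), (.s k17 k34
  4 (.s k98 k145 12 (.s k127 k255 7 (.s k85 k64 6 (.s k153 k221 9 (.d k102 k204 k110 14 1))))))] (.c
  k145 (.l (.s k17 k34 4 (.s k59 k55 1 (.s k153 k200 12 (.s k85 k221 9 (.d k127 k64 k255 6 7))))))
  .n)) (.c k191 (.l (.s k128 k64 7 (.s k17 k34 4 (.s k145 k98 12 (.s k81 k209 7 (.d k162 k179 k243 4
  12)))))) .n)))))

def t42_36 : T TT 256 :=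
  (.f k192 k149 14 (.q k51 [(.s k59 k55 1 (.s k98 k145 12 (.s k153 k200 12 (.d k102 k110 k204 1
  14)))), (.s k17 k34 4 (.s k128 k64 7 (.s k145 k98 12 (.s k81 k209 7 (.d k162 k179 k243 4 12))))),
  (.s k17 k34 4 (.s k59 k55 1 (.s k153 k200 12 (.s k85 k221 9 (.d k64 k128 k127 7 6)))))] (.c k102
  (.l (.s k34 k17 4 (.s k98 k145 12 (.s k162 k226 7 (.s k81 k243 12 (.d k64 k115 k128 4 7)))))) (.c
  k128 (.q k191 [(.s k59 k55 1 (.s k153 k200 12 (.s k102 k204 14 (.d k98 k110 k145 1 12)))), (.s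
  k255 k127 7 (.s k187 k119 9 (.s k183 k179 1 (.s k123 k243 9 (.d k59 k55 k251 1 7))))), (.s k17 k34
  4 (.s k98 k145 12 (.s k127 k255 7 (.s k85 k64 6 (.s k153 k221 9 (.d k102 k204 k110 14 1))))))] (.c
  k145 (.l (.s k17 k34 4 (.s k59 k55 1 (.s k153 k200 12 (.s k85 k221 9 (.d k127 k64 k255 6 7))))))
  .n)) (.c k191 (.l (.s k128 k64 7 (.s k17 k34 4 (.s k145 k98 12 (.s k81 k209 7 (.d k162 k179 k243 4
  12)))))) .n)))))

def t42_37 : T TT 256 :=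
  (.f k192 k149 14 (.q k15 [(.s k47 k31 3 (.s k74 k133 10 (.s k165 k224 10 (.d k90 k122 k240 3
  14)))), (.s k5 k10 2 (.s k128 k64 7 (.s k133 k74 10 (.s k69 k197 7 (.d k138 k143 k207 2 10))))),
  (.s k5 k10 2 (.s k47 k31 3 (.s k165 k224 10 (.s k85 k245 11 (.d k64 k128 k127 7 6)))))] (.c k32
  (.l (.s k47 k31 3 (.s k74 k133 10 (.s k165 k224 10 (.d k90 k122 k240 3 14))))) (.c k47 (.q k32
  [(.s k48 k16 3 (.s k96 k144 11 (.s k160 k224 7 (.s k80 k240 11 (.d k64 k128 k112 7 3))))), (.s k5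
  k10 2 (.s k128 k64 7 (.s k133 k74 10 (.s k69 k197 7 (.d k138 k143 k207 2 10)))))] (.c k64 (.l (.s
  k10 k5 2 (.s k48 k16 3 (.s k74 k133 10 (.s k202 k138 7 (.d k58 k53 k154 2 11)))))) (.c k128 (.q
  k191 [(.s k48 k16 3 (.s k96 k144 11 (.s k101 k111 2 (.s k154 k207 14 (.d k58 k53 k202 2 11))))),
  (.s k5 k10 2 (.s k74 k133 10 (.s k127 k255 7 (.s k85 k64 6 (.s k165 k245 11 (.d k90 k240 k122 14
  3))))))] (.c k58 (.l (.s k10 k5 2 (.s k74 k133 10 (.s k138 k202 7 (.s k69 k207 10 (.s k127 k255 7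
  (.d k64 k79 k85 2 6))))))) .n)) (.c k191 (.l (.s k128 k64 7 (.s k5 k10 2 (.s k133 k74 10 (.s k69
  k197 7 (.d k138 k143 k207 2 10)))))) .n)))) (.c k90 (.l (.s k10 k5 2 (.s k74 k133 10 (.s k138 k202
  7 (.s k69 k207 10 (.d k64 k79 k128 2 7)))))) (.c k128 (.q k191 [(.s k47 k31 3 (.s k165 k224 10 (.s
  k90 k240 14 (.d k74 k122 k133 3 10)))), (.s k255 k127 7 (.s k175 k95 11 (.s k159 k143 3 (.s k111
  k207 11 (.d k47 k31 k239 3 7)))))] (.c k31 (.l (.s k5 k10 2 (.s k74 k133 10 (.s k127 k255 7 (.s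
  k85 k64 6 (.s k165 k245 11 (.d k90 k240 k122 14 3))))))) (.c k32 (.l (.s k47 k31 3 (.s k74 k133 10
  (.s k165 k224 10 (.d k90 k122 k240 3 14))))) (.c k47 (.q k32 [(.s k48 k16 3 (.s k96 k144 11 (.s
  k101 k111 2 (.s k154 k207 14 (.d k58 k53 k202 2 11))))), (.s k5 k10 2 (.s k74 k133 10 (.s k127
  k255 7 (.s k85 k64 6 (.s k165 k245 11 (.d k90 k240 k122 14 3))))))] (.c k58 (.l (.s k10 k5 2 (.s
  k74 k133 10 (.s k138 k202 7 (.s k69 k207 10 (.s k127 k255 7 (.d k64 k79 k85 2 6))))))) .n)) (.c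
  k133 (.l (.s k5 k10 2 (.s k47 k31 3 (.s k165 k224 10 (.s k85 k245 11 (.d k127 k64 k255 6 7))))))
  .n))))) (.c k191 (.l (.s k128 k64 7 (.s k5 k10 2 (.s k133 k74 10 (.s k69 k197 7 (.d k138 k143 k207
  2 10)))))) .n)))))))

def t42_38 : T TT 256 :=
  (.f k192 k149 14 (.q k12 [(.s k46 k29 4 (.s k72 k132 9 (.s k166 k226 9 (.d k89 k123 k243 4 14)))),
  (.s k4 k8 1 (.s k128 k64 7 (.s k132 k72 9 (.s k68 k196 7 (.d k136 k140 k204 1 9))))), (.s k4 k8 1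
  (.s k46 k29 4 (.s k166 k226 9 (.s k85 k247 12 (.d k64 k128 k127 7 6)))))] (.c k34 (.l (.s k46 k29
  4 (.s k72 k132 9 (.s k166 k226 9 (.d k89 k123 k243 4 14))))) (.c k46 (.q k34 [(.s k51 k17 4 (.s
  k98 k145 12 (.s k162 k226 7 (.s k81 k243 12 (.d k64 k128 k115 7 4))))), (.s k4 k8 1 (.s k128 k64 7
  (.s k132 k72 9 (.s k68 k196 7 (.d k136 k140 k204 1 9)))))] (.c k64 (.l (.s k8 k4 1 (.s k51 k17 4
  (.s k72 k132 9 (.s k200 k136 7 (.d k59 k55 k153 1 12)))))) (.c k128 (.q k191 [(.s k51 k17 4 (.s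
  k98 k145 12 (.s k102 k110 1 (.s k153 k204 14 (.d k59 k55 k200 1 12))))), (.s k4 k8 1 (.s k72 k132
  9 (.s k127 k255 7 (.s k85 k64 6 (.s k166 k247 12 (.d k89 k243 k123 14 4))))))] (.c k59 (.l (.s k8
  k4 1 (.s k72 k132 9 (.s k136 k200 7 (.s k68 k204 9 (.s k127 k255 7 (.d k64 k76 k85 1 6))))))) .n))
  (.c k191 (.l (.s k128 k64 7 (.s k4 k8 1 (.s k132 k72 9 (.s k68 k196 7 (.d k136 k140 k204 1 9))))))
  .n)))) (.c k89 (.l (.s k8 k4 1 (.s k72 k132 9 (.s k136 k200 7 (.s k68 k204 9 (.d k64 k76 k128 1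
  7)))))) (.c k128 (.q k191 [(.s k46 k29 4 (.s k166 k226 9 (.s k89 k243 14 (.d k72 k123 k132 4
  9)))), (.s k255 k127 7 (.s k174 k93 12 (.s k157 k140 4 (.s k110 k204 12 (.d k46 k29 k238 4 7)))))]
  (.c k29 (.l (.s k4 k8 1 (.s k72 k132 9 (.s k127 k255 7 (.s k85 k64 6 (.s k166 k247 12 (.d k89 k243
  k123 14 4))))))) (.c k34 (.l (.s k46 k29 4 (.s k72 k132 9 (.s k166 k226 9 (.d k89 k123 k243 4
  14))))) (.c k46 (.q k34 [(.s k51 k17 4 (.s k98 k145 12 (.s k102 k110 1 (.s k153 k204 14 (.d k59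
  k55 k200 1 12))))), (.s k4 k8 1 (.s k72 k132 9 (.s k127 k255 7 (.s k85 k64 6 (.s k166 k247 12 (.d
  k89 k243 k123 14 4))))))] (.c k59 (.l (.s k8 k4 1 (.s k72 k132 9 (.s k136 k200 7 (.s k68 k204 9
  (.s k127 k255 7 (.d k64 k76 k85 1 6))))))) .n)) (.c k132 (.l (.s k4 k8 1 (.s k46 k29 4 (.s k166
  k226 9 (.s k85 k247 12 (.d k127 k64 k255 6 7)))))) .n))))) (.c k191 (.l (.s k128 k64 7 (.s k4 k8 1
  (.s k132 k72 9 (.s k68 k196 7 (.d k136 k140 k204 1 9)))))) .n)))))))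

def t42_39 : T TT 256 :=
  (.f k192 k149 14 (.q k15 [(.s k47 k31 3 (.s k74 k133 10 (.s k165 k224 10 (.d k90 k122 k240 3
  14)))), (.s k5 k10 2 (.s k128 k64 7 (.s k133 k74 10 (.s k69 k197 7 (.d k138 k143 k207 2 10))))),
  (.s k5 k10 2 (.s k47 k31 3 (.s k165 k224 10 (.s k85 k245 11 (.d k64 k128 k127 7 6)))))] (.c k90
  (.l (.s k10 k5 2 (.s k74 k133 10 (.s k138 k202 7 (.s k69 k207 10 (.d k64 k79 k128 2 7)))))) (.c
  k128 (.q k191 [(.s k47 k31 3 (.s k165 k224 10 (.s k90 k240 14 (.d k74 k122 k133 3 10)))), (.s k255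
  k127 7 (.s k175 k95 11 (.s k159 k143 3 (.s k111 k207 11 (.d k47 k31 k239 3 7))))), (.s k5 k10 2
  (.s k74 k133 10 (.s k127 k255 7 (.s k85 k64 6 (.s k165 k245 11 (.d k90 k240 k122 14 3))))))] (.c
  k133 (.l (.s k5 k10 2 (.s k47 k31 3 (.s k165 k224 10 (.s k85 k245 11 (.d k127 k64 k255 6 7))))))
  .n)) (.c k191 (.l (.s k128 k64 7 (.s k5 k10 2 (.s k133 k74 10 (.s k69 k197 7 (.d k138 k143 k207 2
  10)))))) .n)))))

def t42_40 : T TT 256 :=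
  (.q k43 [(.s k3 k23 5 (.s k169 k232 8 (.s k86 k252 14 (.s k66 k126 5 (.d k192 k129 k149 8 14))))),
  (.s k3 k23 5 (.s k1 k2 0 (.s k192 k149 14 (.s k128 k64 7 (.s k129 k66 8 (.s k65 k193 7 (.d k130
  k131 k195 0 8))))))), (.s k3 k23 5 (.s k1 k2 0 (.s k169 k232 8 (.s k85 k253 13 (.s k192 k149 14
  (.d k64 k128 k127 7 6))))))] (.c k3 (.f k192 k149 14 (.q k191 [(.s k64 k128 7 (.d k127 k85 k255 6
  7)), (.s k128 k64 7 (.s k232 k169 8 (.s k252 k212 5 (.s k168 k84 13 (.s k189 k126 8 (.d k188 k148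
  k190 5 0)))))), (.s k232 k169 8 (.s k255 k127 7 (.s k234 k213 6 (.s k235 k233 0 (.s k195 k215 5
  (.d k107 k171 k151 7 13))))))] (.c k105 (.q k235 [(.s k64 k128 7 (.d k127 k85 k255 6 7)), (.s k232
  k169 8 (.s k252 k212 5 (.s k233 k234 0 (.s k195 k214 6 (.d k107 k171 k151 7 13)))))] (.c k61 (.q
  k193 [(.s k64 k128 7 (.d k127 k85 k255 6 7)), (.s k195 k194 0 (.d k107 k171 k151 7 13))] .n) (.c
  k193 (.q k61 [(.s k64 k128 7 (.d k127 k85 k255 6 7)), (.s k169 k232 8 (.s k171 k107 7 (.s k62 k60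
  0 (.s k150 k194 13 (.d k131 k151 k188 5 6)))))] .n) .n))) (.c k235 (.q k105 [(.s k64 k128 7 (.d
  k127 k85 k255 6 7)), (.s k104 k107 0 (.s k60 k148 13 (.s k62 k61 0 (.d k150 k194 k195 13 14))))]
  .n) .n)))) (.c k23 (.q k105 [(.s k149 k192 14 (.s k61 k193 13 (.s k60 k62 0 (.s k195 k150 14 (.d
  k107 k104 k151 0 13))))), (.s k169 k232 8 (.s k233 k41 7 (.s k149 k192 14 (.s k193 k61 13 (.s k129
  k189 5 (.s k1 k65 7 (.d k253 k213 k85 5 13))))))), (.s k107 k104 0 (.s k235 k171 7 (.s k195 k151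
  13 (.s k65 k130 8 (.s k85 k125 5 (.s k127 k64 6 (.d k255 k215 k191 5 7)))))))] (.c k104 (.q k168
  [(.s k252 k84 13 (.s k232 k169 8 (.d k192 k212 k149 5 14))), (.s k169 k232 8 (.s k41 k233 7 (.s
  k149 k192 14 (.s k61 k193 13 (.s k1 k21 5 (.s k3 k2 0 (.d k60 k62 k22 0 6))))))), (.s k252 k84 13
  (.s k169 k232 8 (.s k86 k3 14 (.d k126 k66 k189 5 8)))), (.s k252 k84 13 (.s k149 k192 14 (.s k61
  k193 13 (.s k60 k62 0 (.s k124 k188 7 (.s k126 k189 8 (.d k86 k66 k67 5 6)))))))] (.c k252 (.l (.s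
  k169 k232 8 (.s k192 k149 14 (.s k128 k64 7 (.s k188 k148 5 (.s k150 k131 6 (.s k60 k195 14 (.d
  k62 k61 k194 0 13)))))))) .n)) .n)) (.c k86 (.q k105 [(.s k149 k192 14 (.s k61 k193 13 (.s k107
  k104 0 (.s k195 k151 13 (.d k60 k62 k150 0 14))))), (.s k107 k104 0 (.s k171 k235 7 (.s k151 k195
  13 (.s k191 k131 5 (.s k255 k127 7 (.d k3 k23 k87 5 13)))))), (.s k3 k23 5 (.s k2 k1 0 (.s k149
  k192 14 (.s k61 k193 13 (.s k60 k62 0 (.s k41 k22 6 (.d k169 k233 k232 7 8)))))))] (.c k2 (.q k254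
  [(.s k149 k192 14 (.s k61 k193 13 (.s k107 k104 0 (.s k195 k151 13 (.d k60 k62 k150 0 14))))), (.s
  k107 k104 0 (.s k171 k235 7 (.s k151 k195 13 (.s k191 k131 5 (.s k255 k127 7 (.d k3 k23 k87 5
  13)))))), (.s k3 k23 5 (.s k169 k232 8 (.s k41 k233 7 (.s k60 k22 6 (.s k62 k61 0 (.d k150 k194
  k195 13 14)))))), (.s k192 k149 14 (.s k104 k107 0 (.s k60 k148 13 (.s k150 k195 14 (.d k62 k61
  k194 0 13)))))] (.c k22 (.q k62 [(.s k60 k61 0 (.d k150 k194 k195 13 14)), (.s k169 k232 8 (.s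
  k126 k190 7 (.s k149 k192 14 (.d k189 k252 k129 8 5))))] (.c k150 (.q k214 [(.s k149 k192 14 (.d
  k61 k60 k193 0 13)), (.s k169 k232 8 (.s k233 k41 7 (.s k252 k195 6 (.d k126 k190 k189 7 8))))]
  (.c k60 (.l (.s k169 k232 8 (.s k149 k192 14 (.s k189 k129 5 (.d k126 k252 k190 8 7))))) (.c k130
  (.l (.s k190 k126 7 (.s k61 k60 0 (.d k149 k193 k192 13 14)))) (.c k190 (.q k130 [(.s k195 k65 8
  (.d k107 k104 k151 0 13)), (.s k61 k60 0 (.d k149 k193 k192 13 14))] .n) .n)))) (.c k214 (.l (.s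
  k150 k194 13 (.d k60 k61 k195 0 14))) .n))) (.c k62 (.q k22 [(.s k3 k23 5 (.s k41 k60 6 (.d k169
  k233 k232 7 8))), (.s k192 k149 14 (.s k107 k104 0 (.s k195 k151 13 (.s k65 k130 8 (.s k85 k125 5
  (.d k64 k128 k127 7 6)))))), (.s k169 k232 8 (.s k41 k233 7 (.s k60 k3 6 (.s k195 k150 14 (.d k107
  k104 k151 0 13)))))] (.c k232 (.l (.s k3 k23 5 (.s k60 k41 6 (.s k195 k150 14 (.d k107 k104 k151 0
  13))))) .n)) (.c k104 (.f k192 k149 14 (.l (.s k23 k3 5 (.s k232 k169 8 (.s k252 k212 5 (.s k255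
  k253 0 (.s k234 k213 6 (.s k214 k194 5 (.d k233 k235 k195 0 6))))))))) (.c k195 (.l (.s k169 k232
  8 (.s k41 k233 7 (.s k192 k149 14 (.s k104 k107 0 (.s k60 k148 13 (.d k3 k23 k22 5 6)))))))
  .n))))) (.c k195 (.l (.s k3 k23 5 (.s k169 k232 8 (.s k41 k233 7 (.s k60 k22 6 (.s k149 k192 14
  (.d k61 k62 k193 0 13))))))) (.c k232 (.l (.s k149 k192 14 (.s k61 k193 13 (.s k60 k62 0 (.s k195
  k150 14 (.d k107 k104 k151 0 13)))))) (.c k254 (.q k2 [(.d k3 k1 k23 0 5), (.s k149 k192 14 (.s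
  k61 k193 13 (.s k60 k62 0 (.s k195 k150 14 (.d k107 k104 k151 0 13)))))] .n) .n))))) (.c k105 (.q
  k235 [(.s k3 k23 5 (.s k169 k232 8 (.s k86 k252 14 (.s k66 k126 5 (.d k192 k129 k149 8 14))))),
  (.s k3 k23 5 (.s k171 k107 7 (.s k255 k87 13 (.s k127 k191 7 (.s k64 k85 6 (.d k192 k128 k149 7
  14)))))), (.s k107 k171 7 (.s k192 k149 14 (.s k195 k151 13 (.s k255 k215 5 (.s k234 k213 6 (.d
  k232 k169 k233 8 0)))))), (.s k3 k23 5 (.s k1 k2 0 (.s k169 k232 8 (.s k85 k253 13 (.s k171 k107 7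
  (.s k87 k255 13 (.d k86 k252 k84 14 0)))))))] (.c k23 (.q k233 [(.d k232 k234 k169 0 8)] (.c k169
  (.l (.s k192 k149 14 (.s k234 k232 0 (.s k255 k213 6 (.s k195 k215 5 (.d k107 k151 k171 13 7))))))
  (.c k232 (.l (.s k107 k171 7 (.s k192 k149 14 (.s k195 k151 13 (.s k193 k194 0 (.s k213 k253 5 (.d
  k255 k215 k234 5 6))))))) (.c k234 (.l (.s k107 k171 7 (.s k192 k149 14 (.s k195 k151 13 (.s k252
  k214 6 (.d k232 k212 k169 5 8)))))) .n)))) .n)) (.c k149 (.f k3 k23 5 (.l (.s k1 k2 0 (.s k169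
  k232 8 (.s k85 k253 13 (.s k86 k252 14 (.s k64 k127 6 (.s k66 k126 5 (.d k192 k128 k129 7
  8))))))))) (.c k192 (.f k3 k23 5 (.l (.s k1 k2 0 (.s k169 k232 8 (.s k85 k253 13 (.s k127 k64 6
  (.s k255 k191 7 (.s k87 k171 13 (.d k86 k252 k84 14 0))))))))) (.c k212 (.l (.s k3 k23 5 (.s k169
  k232 8 (.s k86 k252 14 (.s k192 k149 14 (.d k66 k126 k129 5 8)))))) (.c k235 (.q k105 [(.s k3 k23
  5 (.s k192 k149 14 (.s k66 k129 8 (.s k86 k126 5 (.d k169 k232 k252 8 14))))), (.s k149 k192 14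
  (.s k61 k193 13 (.s k60 k62 0 (.s k195 k150 14 (.d k107 k104 k151 0 13)))))] (.c k149 (.l (.s k3
  k23 5 (.s k169 k232 8 (.s k86 k252 14 (.s k67 k124 6 (.s k195 k131 7 (.d k107 k104 k151 0
  13))))))) (.c k192 (.l (.s k3 k23 5 (.s k169 k232 8 (.s k252 k86 14 (.s k233 k41 7 (.s k195 k214 6
  (.d k107 k104 k151 0 13))))))) .n))) .n)))))))))

def t42_41 : T TT 256 :=
  (.f k192 k149 14 (.q k3 [(.s k43 k23 5 (.s k66 k129 8 (.s k169 k232 8 (.d k86 k126 k252 5 14)))),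
  (.s k1 k2 0 (.s k128 k64 7 (.s k129 k66 8 (.s k65 k193 7 (.d k130 k131 k195 0 8))))), (.s k1 k2 0
  (.s k43 k23 5 (.s k169 k232 8 (.s k85 k253 13 (.d k64 k128 k127 7 6)))))] (.c k40 (.l (.s k43 k23
  5 (.s k66 k129 8 (.s k169 k232 8 (.d k86 k126 k252 5 14))))) (.c k43 (.q k40 [(.s k60 k20 5 (.s
  k104 k148 13 (.s k168 k232 7 (.s k84 k252 13 (.d k64 k128 k124 7 5))))), (.s k1 k2 0 (.s k128 k64
  7 (.s k129 k66 8 (.s k65 k193 7 (.d k130 k131 k195 0 8)))))] (.c k64 (.l (.s k2 k1 0 (.s k60 k20 5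
  (.s k66 k129 8 (.s k194 k130 7 (.d k62 k61 k150 0 13)))))) (.c k128 (.q k191 [(.s k60 k20 5 (.s
  k104 k148 13 (.s k105 k107 0 (.s k150 k195 14 (.d k62 k61 k194 0 13))))), (.s k1 k2 0 (.s k66 k129
  8 (.s k127 k255 7 (.s k85 k64 6 (.s k169 k253 13 (.d k86 k252 k126 14 5))))))] (.c k62 (.l (.s k2
  k1 0 (.s k66 k129 8 (.s k130 k194 7 (.s k65 k195 8 (.s k127 k255 7 (.d k64 k67 k85 0 6))))))) .n))
  (.c k191 (.l (.s k128 k64 7 (.s k1 k2 0 (.s k129 k66 8 (.s k65 k193 7 (.d k130 k131 k195 0 8))))))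
  .n)))) (.c k86 (.l (.s k2 k1 0 (.s k66 k129 8 (.s k130 k194 7 (.s k65 k195 8 (.d k64 k67 k128 0
  7)))))) (.c k128 (.q k191 [(.s k43 k23 5 (.s k169 k232 8 (.s k86 k252 14 (.d k66 k126 k129 5
  8)))), (.s k255 k127 7 (.s k171 k87 13 (.s k151 k131 5 (.s k107 k195 13 (.d k43 k23 k235 5 7)))))]
  (.c k23 (.l (.s k1 k2 0 (.s k66 k129 8 (.s k127 k255 7 (.s k85 k64 6 (.s k169 k253 13 (.d k86 k252
  k126 14 5))))))) (.c k40 (.l (.s k43 k23 5 (.s k66 k129 8 (.s k169 k232 8 (.d k86 k126 k252 5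
  14))))) (.c k43 (.q k40 [(.s k60 k20 5 (.s k104 k148 13 (.s k105 k107 0 (.s k150 k195 14 (.d k62
  k61 k194 0 13))))), (.s k1 k2 0 (.s k66 k129 8 (.s k127 k255 7 (.s k85 k64 6 (.s k169 k253 13 (.d
  k86 k252 k126 14 5))))))] (.c k62 (.l (.s k2 k1 0 (.s k66 k129 8 (.s k130 k194 7 (.s k65 k195 8
  (.s k127 k255 7 (.d k64 k67 k85 0 6))))))) .n)) (.c k129 (.l (.s k1 k2 0 (.s k43 k23 5 (.s k169
  k232 8 (.s k85 k253 13 (.d k127 k64 k255 6 7)))))) .n))))) (.c k191 (.l (.s k128 k64 7 (.s k1 k2 0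
  (.s k129 k66 8 (.s k65 k193 7 (.d k130 k131 k195 0 8)))))) .n)))))))

def t42_43 : T TT 256 :=
  (.f k192 k149 14 (.q k12 [(.s k46 k29 4 (.s k72 k132 9 (.s k166 k226 9 (.d k89 k123 k243 4 14)))),
  (.s k4 k8 1 (.s k128 k64 7 (.s k132 k72 9 (.s k68 k196 7 (.d k136 k140 k204 1 9))))), (.s k4 k8 1
  (.s k46 k29 4 (.s k166 k226 9 (.s k85 k247 12 (.d k64 k128 k127 7 6)))))] (.c k40 (.q k41 [(.s k46
  k29 4 (.s k72 k132 9 (.s k166 k226 9 (.d k89 k123 k243 4 14)))), (.s k4 k8 1 (.s k128 k64 7 (.s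
  k132 k72 9 (.s k68 k196 7 (.d k136 k140 k204 1 9))))), (.s k4 k8 1 (.s k46 k29 4 (.s k166 k226 9
  (.s k85 k247 12 (.d k64 k128 k127 7 6)))))] (.c k89 (.l (.s k8 k4 1 (.s k72 k132 9 (.s k136 k200 7
  (.s k68 k204 9 (.d k64 k76 k128 1 7)))))) (.c k105 (.q k235 [(.s k46 k29 4 (.s k72 k132 9 (.s k166
  k226 9 (.d k89 k123 k243 4 14)))), (.s k4 k8 1 (.s k128 k64 7 (.s k132 k72 9 (.s k68 k196 7 (.d
  k136 k140 k204 1 9))))), (.s k4 k8 1 (.s k46 k29 4 (.s k166 k226 9 (.s k85 k247 12 (.d k64 k128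
  k127 7 6)))))] (.c k61 (.q k193 [(.s k72 k132 9 (.s k89 k123 4 (.s k166 k243 14 (.d k46 k29 k226 4
  9)))), (.s k4 k8 1 (.s k128 k64 7 (.s k132 k72 9 (.s k68 k196 7 (.d k136 k140 k204 1 9))))), (.s
  k4 k8 1 (.s k46 k29 4 (.s k166 k226 9 (.s k85 k247 12 (.d k64 k128 k127 7 6)))))] (.c k89 (.l (.s
  k8 k4 1 (.s k72 k132 9 (.s k136 k200 7 (.s k68 k204 9 (.d k64 k76 k128 1 7)))))) (.c k128 (.q k191
  [(.s k255 k127 7 (.d k195 k194 k215 0 5)), (.s k46 k29 4 (.s k72 k132 9 (.s k166 k226 9 (.d k89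
  k123 k243 4 14))))] .n) (.c k191 (.l (.s k128 k64 7 (.s k4 k8 1 (.s k132 k72 9 (.s k68 k196 7 (.d
  k136 k140 k204 1 9)))))) .n)))) (.c k89 (.l (.s k8 k4 1 (.s k72 k132 9 (.s k136 k200 7 (.s k68
  k204 9 (.d k64 k76 k128 1 7)))))) (.c k128 (.q k191 [(.s k46 k29 4 (.s k166 k226 9 (.s k89 k243 14
  (.d k72 k123 k132 4 9)))), (.s k255 k127 7 (.s k174 k93 12 (.s k157 k140 4 (.s k110 k204 12 (.d
  k46 k29 k238 4 7))))), (.s k4 k8 1 (.s k72 k132 9 (.s k127 k255 7 (.s k85 k64 6 (.s k166 k247 12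
  (.d k89 k243 k123 14 4))))))] (.c k61 (.q k193 [(.s k255 k127 7 (.d k195 k194 k215 0 5)), (.s k46
  k29 4 (.s k72 k132 9 (.s k166 k226 9 (.d k89 k123 k243 4 14))))] .n) (.c k132 (.l (.s k4 k8 1 (.s
  k46 k29 4 (.s k166 k226 9 (.s k85 k247 12 (.d k127 k64 k255 6 7)))))) (.c k193 (.q k61 [(.s k1 k21
  5 (.s k60 k62 0 (.d k3 k2 k22 0 6))), (.s k46 k29 4 (.s k72 k132 9 (.s k166 k226 9 (.d k89 k123
  k243 4 14))))] .n) .n)))) (.c k191 (.l (.s k128 k64 7 (.s k4 k8 1 (.s k132 k72 9 (.s k68 k196 7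
  (.d k136 k140 k204 1 9)))))) (.c k193 (.q k61 [(.s k1 k21 5 (.s k60 k62 0 (.d k3 k2 k22 0 6))),
  (.s k46 k29 4 (.s k72 k132 9 (.s k166 k226 9 (.d k89 k123 k243 4 14))))] (.c k128 (.q k191 [(.s k1
  k21 5 (.s k60 k62 0 (.d k3 k2 k22 0 6))), (.s k46 k29 4 (.s k72 k132 9 (.s k166 k226 9 (.d k89
  k123 k243 4 14))))] .n) (.c k191 (.l (.s k128 k64 7 (.s k1 k21 5 (.s k3 k2 0 (.d k60 k62 k22 0
  6))))) .n))) .n)))))) (.c k128 (.q k191 [(.s k46 k29 4 (.s k166 k226 9 (.s k89 k243 14 (.d k72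
  k123 k132 4 9)))), (.s k255 k127 7 (.s k174 k93 12 (.s k157 k140 4 (.s k110 k204 12 (.d k46 k29
  k238 4 7))))), (.s k4 k8 1 (.s k72 k132 9 (.s k127 k255 7 (.s k85 k64 6 (.s k166 k247 12 (.d k89
  k243 k123 14 4))))))] (.c k105 (.q k235 [(.s k46 k29 4 (.s k166 k226 9 (.s k89 k243 14 (.d k72
  k123 k132 4 9)))), (.s k255 k127 7 (.s k174 k93 12 (.s k157 k140 4 (.s k110 k204 12 (.d k46 k29
  k238 4 7))))), (.s k4 k8 1 (.s k72 k132 9 (.s k127 k255 7 (.s k85 k64 6 (.s k166 k247 12 (.d k89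
  k243 k123 14 4))))))] (.c k61 (.q k193 [(.s k255 k127 7 (.d k195 k194 k215 0 5)), (.s k46 k29 4
  (.s k72 k132 9 (.s k166 k226 9 (.d k89 k123 k243 4 14))))] .n) (.c k132 (.l (.s k4 k8 1 (.s k46
  k29 4 (.s k166 k226 9 (.s k85 k247 12 (.d k127 k64 k255 6 7)))))) (.c k193 (.q k61 [(.s k1 k21 5
  (.s k60 k62 0 (.d k3 k2 k22 0 6))), (.s k46 k29 4 (.s k72 k132 9 (.s k166 k226 9 (.d k89 k123 k243
  4 14))))] .n) .n)))) (.c k132 (.l (.s k4 k8 1 (.s k46 k29 4 (.s k166 k226 9 (.s k85 k247 12 (.d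
  k127 k64 k255 6 7)))))) (.c k235 (.q k105 [(.s k46 k29 4 (.s k166 k226 9 (.s k89 k243 14 (.d k72
  k123 k132 4 9)))), (.s k107 k104 0 (.s k195 k151 13 (.s k150 k60 14 (.d k194 k193 k62 0 13))))]
  (.c k107 (.q k171 [(.s k46 k29 4 (.s k166 k226 9 (.s k89 k243 14 (.d k72 k123 k132 4 9)))), (.s
  k169 k233 7 (.s k131 k151 5 (.s k150 k188 6 (.s k60 k195 14 (.d k62 k61 k194 0 13)))))] .n) (.c
  k171 (.l (.s k107 k104 0 (.s k195 k151 13 (.s k150 k60 14 (.d k194 k193 k62 0 13))))) .n))) .n))))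
  (.c k191 (.l (.s k128 k64 7 (.s k4 k8 1 (.s k132 k72 9 (.s k68 k196 7 (.d k136 k140 k204 1 9))))))
  (.c k235 (.q k105 [(.s k46 k29 4 (.s k72 k132 9 (.s k166 k226 9 (.d k89 k123 k243 4 14)))), (.s
  k107 k104 0 (.s k195 k151 13 (.s k150 k60 14 (.d k194 k193 k62 0 13))))] (.c k107 (.q k171 [(.s
  k46 k29 4 (.s k72 k132 9 (.s k166 k226 9 (.d k89 k123 k243 4 14)))), (.s k4 k8 1 (.s k128 k64 7
  (.s k132 k72 9 (.s k68 k196 7 (.d k136 k140 k204 1 9))))), (.s k4 k8 1 (.s k46 k29 4 (.s k166 k226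
  9 (.s k85 k247 12 (.d k64 k128 k127 7 6)))))] (.c k89 (.l (.s k8 k4 1 (.s k72 k132 9 (.s k136 k200
  7 (.s k68 k204 9 (.d k64 k76 k128 1 7)))))) (.c k128 (.q k191 [(.s k46 k29 4 (.s k166 k226 9 (.s
  k89 k243 14 (.d k72 k123 k132 4 9)))), (.s k169 k233 7 (.s k131 k151 5 (.s k150 k188 6 (.s k60
  k195 14 (.d k62 k61 k194 0 13)))))] .n) (.c k191 (.l (.s k128 k64 7 (.s k4 k8 1 (.s k132 k72 9 (.s
  k68 k196 7 (.d k136 k140 k204 1 9)))))) .n)))) (.c k128 (.q k191 [(.s k46 k29 4 (.s k166 k226 9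
  (.s k89 k243 14 (.d k72 k123 k132 4 9)))), (.s k107 k104 0 (.s k195 k151 13 (.s k150 k60 14 (.d
  k194 k193 k62 0 13))))] (.c k107 (.q k171 [(.s k46 k29 4 (.s k166 k226 9 (.s k89 k243 14 (.d k72
  k123 k132 4 9)))), (.s k169 k233 7 (.s k131 k151 5 (.s k150 k188 6 (.s k60 k195 14 (.d k62 k61
  k194 0 13)))))] .n) (.c k171 (.l (.s k107 k104 0 (.s k195 k151 13 (.s k150 k60 14 (.d k194 k193
  k62 0 13))))) .n))) (.c k171 (.l (.s k107 k104 0 (.s k195 k151 13 (.s k150 k60 14 (.d k194 k193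
  k62 0 13))))) (.c k191 (.l (.s k128 k64 7 (.s k4 k8 1 (.s k132 k72 9 (.s k68 k196 7 (.d k136 k140
  k204 1 9)))))) .n))))) .n)))))) (.c k41 (.q k40 [(.s k46 k29 4 (.s k72 k132 9 (.s k166 k226 9 (.d
  k89 k123 k243 4 14)))), (.s k8 k4 1 (.s k20 k60 5 (.s k24 k56 3 (.s k48 k36 5 (.d k16 k28 k32 1
  3)))))] (.c k128 (.q k191 [(.s k46 k29 4 (.s k166 k226 9 (.s k89 k243 14 (.d k72 k123 k132 4
  9)))), (.s k8 k4 1 (.s k20 k60 5 (.s k24 k56 3 (.s k48 k36 5 (.d k16 k28 k32 1 3)))))] .n) (.c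
  k191 (.l (.s k128 k64 7 (.s k4 k8 1 (.s k132 k72 9 (.s k68 k196 7 (.d k136 k140 k204 1 9))))))
  .n))) (.c k89 (.l (.s k8 k4 1 (.s k72 k132 9 (.s k136 k200 7 (.s k68 k204 9 (.d k64 k76 k128 1
  7)))))) (.c k128 (.q k191 [(.s k46 k29 4 (.s k166 k226 9 (.s k89 k243 14 (.d k72 k123 k132 4
  9)))), (.s k255 k127 7 (.s k174 k93 12 (.s k157 k140 4 (.s k110 k204 12 (.d k46 k29 k238 4 7))))),
  (.s k4 k8 1 (.s k72 k132 9 (.s k127 k255 7 (.s k85 k64 6 (.s k166 k247 12 (.d k89 k243 k123 14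
  4))))))] (.c k40 (.q k41 [(.s k46 k29 4 (.s k166 k226 9 (.s k89 k243 14 (.d k72 k123 k132 4 9)))),
  (.s k255 k127 7 (.s k174 k93 12 (.s k157 k140 4 (.s k110 k204 12 (.d k46 k29 k238 4 7))))), (.s k4
  k8 1 (.s k72 k132 9 (.s k127 k255 7 (.s k85 k64 6 (.s k166 k247 12 (.d k89 k243 k123 14 4))))))]
  (.c k105 (.q k235 [(.s k46 k29 4 (.s k166 k226 9 (.s k89 k243 14 (.d k72 k123 k132 4 9)))), (.s
  k255 k127 7 (.s k174 k93 12 (.s k157 k140 4 (.s k110 k204 12 (.d k46 k29 k238 4 7))))), (.s k4 k8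
  1 (.s k72 k132 9 (.s k127 k255 7 (.s k85 k64 6 (.s k166 k247 12 (.d k89 k243 k123 14 4))))))] (.c
  k61 (.q k193 [(.s k255 k127 7 (.d k195 k194 k215 0 5)), (.s k46 k29 4 (.s k72 k132 9 (.s k166 k226
  9 (.d k89 k123 k243 4 14))))] .n) (.c k132 (.l (.s k4 k8 1 (.s k46 k29 4 (.s k166 k226 9 (.s k85
  k247 12 (.d k127 k64 k255 6 7)))))) (.c k193 (.q k61 [(.s k1 k21 5 (.s k60 k62 0 (.d k3 k2 k22 0
  6))), (.s k46 k29 4 (.s k72 k132 9 (.s k166 k226 9 (.d k89 k123 k243 4 14))))] .n) .n)))) (.c k132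
  (.l (.s k4 k8 1 (.s k46 k29 4 (.s k166 k226 9 (.s k85 k247 12 (.d k127 k64 k255 6 7)))))) (.c k235
  (.q k105 [(.s k46 k29 4 (.s k166 k226 9 (.s k89 k243 14 (.d k72 k123 k132 4 9)))), (.s k107 k104 0
  (.s k195 k151 13 (.s k150 k60 14 (.d k194 k193 k62 0 13))))] (.c k107 (.q k171 [(.s k46 k29 4 (.s
  k166 k226 9 (.s k89 k243 14 (.d k72 k123 k132 4 9)))), (.s k169 k233 7 (.s k131 k151 5 (.s k150
  k188 6 (.s k60 k195 14 (.d k62 k61 k194 0 13)))))] .n) (.c k171 (.l (.s k107 k104 0 (.s k195 k151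
  13 (.s k150 k60 14 (.d k194 k193 k62 0 13))))) .n))) .n)))) (.c k41 (.q k40 [(.s k46 k29 4 (.s
  k166 k226 9 (.s k89 k243 14 (.d k72 k123 k132 4 9)))), (.s k8 k4 1 (.s k20 k60 5 (.s k24 k56 3 (.s
  k48 k36 5 (.d k16 k28 k32 1 3)))))] .n) (.c k132 (.l (.s k4 k8 1 (.s k46 k29 4 (.s k166 k226 9 (.s
  k85 k247 12 (.d k127 k64 k255 6 7)))))) .n)))) (.c k191 (.l (.s k128 k64 7 (.s k4 k8 1 (.s k132
  k72 9 (.s k68 k196 7 (.d k136 k140 k204 1 9)))))) .n)))))))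

def t42_44 : T TT 256 :=
  (.f k192 k149 14 (.q k15 [(.s k47 k31 3 (.s k74 k133 10 (.s k90 k122 3 (.d k165 k224 k240 10
  14)))), (.s k5 k10 2 (.s k128 k64 7 (.s k133 k74 10 (.s k69 k197 7 (.d k138 k143 k207 2 10))))),
  (.s k5 k10 2 (.s k47 k31 3 (.s k165 k224 10 (.s k85 k245 11 (.d k64 k128 k127 7 6)))))] (.c k90
  (.l (.s k10 k5 2 (.s k74 k133 10 (.s k138 k202 7 (.s k69 k207 10 (.d k64 k79 k128 2 7)))))) (.c
  k128 (.q k191 [(.s k47 k31 3 (.s k165 k224 10 (.s k90 k240 14 (.d k74 k122 k133 3 10)))), (.s k255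
  k127 7 (.s k175 k95 11 (.s k159 k143 3 (.s k111 k207 11 (.d k47 k31 k239 3 7))))), (.s k5 k10 2
  (.s k74 k133 10 (.s k127 k255 7 (.s k85 k64 6 (.s k165 k245 11 (.d k90 k240 k122 14 3))))))] (.c
  k133 (.l (.s k5 k10 2 (.s k47 k31 3 (.s k165 k224 10 (.s k85 k245 11 (.d k127 k64 k255 6 7))))))
  .n)) (.c k191 (.l (.s k128 k64 7 (.s k5 k10 2 (.s k133 k74 10 (.s k69 k197 7 (.d k138 k143 k207 2
  10)))))) .n)))))

def t42_45 : T TT 256 :=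
  (.f k192 k149 14 (.q k15 [(.s k47 k31 3 (.s k74 k133 10 (.s k165 k224 10 (.d k90 k122 k240 3
  14)))), (.s k5 k10 2 (.s k128 k64 7 (.s k133 k74 10 (.s k69 k197 7 (.d k138 k143 k207 2 10))))),
  (.s k5 k10 2 (.s k47 k31 3 (.s k165 k224 10 (.s k85 k245 11 (.d k64 k128 k127 7 6)))))] (.c k90
  (.l (.s k10 k5 2 (.s k74 k133 10 (.s k138 k202 7 (.s k69 k207 10 (.d k64 k79 k128 2 7)))))) (.c
  k128 (.q k191 [(.s k47 k31 3 (.s k165 k224 10 (.s k90 k240 14 (.d k74 k122 k133 3 10)))), (.s k255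
  k127 7 (.s k175 k95 11 (.s k159 k143 3 (.s k111 k207 11 (.d k47 k31 k239 3 7))))), (.s k5 k10 2
  (.s k74 k133 10 (.s k127 k255 7 (.s k85 k64 6 (.s k165 k245 11 (.d k90 k240 k122 14 3))))))] (.c
  k133 (.l (.s k5 k10 2 (.s k47 k31 3 (.s k165 k224 10 (.s k85 k245 11 (.d k127 k64 k255 6 7))))))
  .n)) (.c k191 (.l (.s k128 k64 7 (.s k5 k10 2 (.s k133 k74 10 (.s k69 k197 7 (.d k138 k143 k207 2
  10)))))) .n)))))

def t42_46 : T TT 256 :=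
  (.q k34 [(.s k51 k17 4 (.s k59 k55 1 (.s k153 k200 12 (.s k204 k102 14 (.s k149 k192 14 (.d k157
  k145 k110 1 12)))))), (.s k51 k17 4 (.s k192 k149 14 (.s k98 k145 12 (.s k162 k226 7 (.s k81 k243
  12 (.d k64 k128 k115 7 4))))))] (.c k17 (.f k192 k149 14 (.q k15 [(.s k47 k31 3 (.s k74 k133 10
  (.s k165 k224 10 (.d k90 k122 k240 3 14)))), (.s k5 k10 2 (.s k128 k64 7 (.s k133 k74 10 (.s k69
  k197 7 (.d k138 k143 k207 2 10))))), (.s k5 k10 2 (.s k47 k31 3 (.s k165 k224 10 (.s k85 k245 11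
  (.d k64 k128 k127 7 6)))))] (.c k90 (.l (.s k10 k5 2 (.s k74 k133 10 (.s k138 k202 7 (.s k69 k207
  10 (.d k64 k79 k128 2 7)))))) (.c k128 (.q k191 [(.s k47 k31 3 (.s k165 k224 10 (.s k90 k240 14
  (.d k74 k122 k133 3 10)))), (.s k255 k127 7 (.s k175 k95 11 (.s k159 k143 3 (.s k111 k207 11 (.d
  k47 k31 k239 3 7))))), (.s k5 k10 2 (.s k74 k133 10 (.s k127 k255 7 (.s k85 k64 6 (.s k165 k245 11
  (.d k90 k240 k122 14 3))))))] (.c k133 (.l (.s k5 k10 2 (.s k47 k31 3 (.s k165 k224 10 (.s k85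
  k245 11 (.d k127 k64 k255 6 7)))))) .n)) (.c k191 (.l (.s k128 k64 7 (.s k5 k10 2 (.s k133 k74 10
  (.s k69 k197 7 (.d k138 k143 k207 2 10)))))) .n))))) (.c k51 (.f k192 k149 14 (.q k15 [(.s k47 k31
  3 (.s k74 k133 10 (.s k165 k224 10 (.d k90 k122 k240 3 14)))), (.s k5 k10 2 (.s k128 k64 7 (.s
  k133 k74 10 (.s k69 k197 7 (.d k138 k143 k207 2 10))))), (.s k5 k10 2 (.s k47 k31 3 (.s k165 k224
  10 (.s k85 k245 11 (.d k64 k128 k127 7 6)))))] (.c k90 (.l (.s k10 k5 2 (.s k74 k133 10 (.s k138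
  k202 7 (.s k69 k207 10 (.d k64 k79 k128 2 7)))))) (.c k128 (.q k191 [(.s k47 k31 3 (.s k165 k224
  10 (.s k90 k240 14 (.d k74 k122 k133 3 10)))), (.s k255 k127 7 (.s k175 k95 11 (.s k159 k143 3 (.s
  k111 k207 11 (.d k47 k31 k239 3 7))))), (.s k5 k10 2 (.s k74 k133 10 (.s k127 k255 7 (.s k85 k64 6
  (.s k165 k245 11 (.d k90 k240 k122 14 3))))))] (.c k133 (.l (.s k5 k10 2 (.s k47 k31 3 (.s k165
  k224 10 (.s k85 k245 11 (.d k127 k64 k255 6 7)))))) .n)) (.c k191 (.l (.s k128 k64 7 (.s k5 k10 2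
  (.s k133 k74 10 (.s k69 k197 7 (.d k138 k143 k207 2 10)))))) .n))))) (.c k145 (.l (.s k51 k17 4
  (.s k55 k59 1 (.s k149 k192 14 (.s k102 k196 12 (.s k204 k153 14 (.d k110 k98 k157 1 12))))))) (.c
  k149 (.f k51 k17 4 (.q k15 [(.s k39 k27 5 (.s k47 k31 3 (.s k43 k35 1 (.s k23 k3 5 (.d k55 k59 k7
  1 3))))), (.s k47 k31 3 (.s k165 k224 10 (.s k59 k55 1 (.s k153 k200 12 (.s k141 k177 5 (.d k204
  k102 k78 14 8)))))), (.s k27 k39 5 (.s k59 k55 1 (.s k153 k200 12 (.s k90 k216 8 (.s k240 k165 14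
  (.d k122 k181 k74 10 3)))))), (.s k39 k27 5 (.s k47 k31 3 (.s k165 k224 10 (.s k102 k228 8 (.s
  k204 k153 14 (.d k110 k157 k98 12 1))))))] (.c k90 (.l (.s k27 k39 5 (.s k31 k47 3 (.s k23 k19 1
  (.s k43 k3 5 (.d k59 k55 k11 1 3)))))) (.c k128 (.q k191 [(.s k5 k10 2 (.s k47 k31 3 (.s k165 k224
  10 (.s k85 k245 11 (.d k127 k64 k255 6 7))))), (.s k27 k39 5 (.s k31 k47 3 (.s k23 k19 1 (.s k43
  k3 5 (.d k59 k55 k11 1 3))))), (.s k59 k55 1 (.s k255 k127 7 (.s k187 k119 9 (.s k123 k251 7 (.d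
  k183 k179 k243 1 9)))))] .n) (.c k191 (.q k128 [(.s k192 k64 7 (.s k47 k31 3 (.s k74 k133 10 (.s
  k165 k224 10 (.d k90 k122 k240 3 14))))), (.s k27 k39 5 (.s k31 k47 3 (.s k23 k19 1 (.s k43 k3 5
  (.d k59 k55 k11 1 3))))), (.s k5 k10 2 (.s k192 k64 7 (.s k133 k74 10 (.s k69 k197 7 (.d k138 k143
  k207 2 10)))))] .n) .n))))) (.c k153 (.q k15 [(.s k47 k31 3 (.s k165 k224 10 (.s k90 k240 14 (.s
  k192 k149 14 (.d k74 k122 k133 3 10))))), (.s k51 k17 4 (.s k27 k39 5 (.s k31 k47 3 (.s k23 k19 1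
  (.s k43 k3 5 (.d k59 k55 k11 1 3)))))), (.s k5 k10 2 (.s k192 k149 14 (.s k128 k64 7 (.s k133 k74
  10 (.s k69 k197 7 (.d k138 k143 k207 2 10))))))] (.c k136 (.q k187 [(.s k47 k31 3 (.s k165 k224 10
  (.s k90 k240 14 (.s k192 k149 14 (.d k74 k122 k133 3 10))))), (.s k51 k17 4 (.s k27 k39 5 (.s k31
  k47 3 (.s k23 k19 1 (.s k43 k3 5 (.d k59 k55 k11 1 3)))))), (.s k5 k10 2 (.s k192 k149 14 (.s k128
  k64 7 (.s k133 k74 10 (.s k69 k197 7 (.d k138 k143 k207 2 10))))))] .n) (.c k187 (.q k136 [(.s k51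
  k17 4 (.s k204 k68 9 (.s k110 k157 12 (.s k98 k102 1 (.d k192 k145 k149 12 14))))), (.s k31 k47 3
  (.s k149 k192 14 (.s k90 k208 10 (.s k240 k165 14 (.d k122 k74 k181 3 10))))), (.s k51 k17 4 (.s
  k27 k39 5 (.s k31 k47 3 (.s k23 k19 1 (.s k43 k3 5 (.d k59 k55 k11 1 3))))))] .n) .n))) (.c k157
  (.l (.s k51 k17 4 (.s k59 k55 1 (.s k153 k200 12 (.s k102 k204 14 (.s k192 k149 14 (.d k98 k110
  k145 1 12))))))) (.c k192 (.f k51 k17 4 (.q k15 [(.s k39 k27 5 (.s k47 k31 3 (.s k43 k35 1 (.s k23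
  k3 5 (.d k55 k59 k7 1 3))))), (.s k47 k31 3 (.s k165 k224 10 (.s k240 k90 14 (.s k59 k55 1 (.s
  k177 k114 8 (.d k153 k141 k200 5 12)))))), (.s k27 k39 5 (.s k59 k55 1 (.s k153 k200 12 (.s k90
  k216 8 (.s k240 k165 14 (.d k122 k74 k181 3 10)))))), (.s k39 k27 5 (.s k47 k31 3 (.s k165 k224 10
  (.s k102 k228 8 (.s k204 k153 14 (.d k110 k98 k157 1 12))))))] .n)) .n))))))))

def t42_47 : T TT 256 :=
  (.f k192 k149 14 (.q k12 [(.s k46 k29 4 (.s k72 k132 9 (.s k166 k226 9 (.d k89 k123 k243 4 14)))),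
  (.s k4 k8 1 (.s k128 k64 7 (.s k132 k72 9 (.s k68 k196 7 (.d k136 k140 k204 1 9))))), (.s k4 k8 1
  (.s k46 k29 4 (.s k166 k226 9 (.s k85 k247 12 (.d k64 k128 k127 7 6)))))] (.c k32 (.q k37 [(.s k46
  k29 4 (.s k72 k132 9 (.s k166 k226 9 (.d k89 k123 k243 4 14)))), (.s k4 k8 1 (.s k128 k64 7 (.s
  k132 k72 9 (.s k68 k196 7 (.d k136 k140 k204 1 9))))), (.s k4 k8 1 (.s k46 k29 4 (.s k166 k226 9
  (.s k85 k247 12 (.d k64 k128 k127 7 6)))))] (.c k89 (.l (.s k8 k4 1 (.s k72 k132 9 (.s k136 k200 7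
  (.s k68 k204 9 (.d k64 k76 k128 1 7)))))) (.c k101 (.q k239 [(.s k46 k29 4 (.s k72 k132 9 (.s k166
  k226 9 (.d k89 k123 k243 4 14)))), (.s k4 k8 1 (.s k128 k64 7 (.s k132 k72 9 (.s k68 k196 7 (.d
  k136 k140 k204 1 9))))), (.s k4 k8 1 (.s k46 k29 4 (.s k166 k226 9 (.s k85 k247 12 (.d k64 k128
  k127 7 6)))))] (.c k53 (.q k197 [(.s k46 k29 4 (.s k72 k132 9 (.s k166 k226 9 (.d k89 k123 k243 4
  14)))), (.s k4 k8 1 (.s k128 k64 7 (.s k132 k72 9 (.s k68 k196 7 (.d k136 k140 k204 1 9))))), (.s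
  k4 k8 1 (.s k46 k29 4 (.s k166 k226 9 (.s k85 k247 12 (.d k64 k128 k127 7 6)))))] (.c k89 (.l (.s
  k8 k4 1 (.s k72 k132 9 (.s k136 k200 7 (.s k68 k204 9 (.d k64 k76 k128 1 7)))))) (.c k128 (.q k191
  [(.s k255 k127 7 (.d k207 k202 k223 2 3)), (.s k46 k29 4 (.s k72 k132 9 (.s k166 k226 9 (.d k89
  k123 k243 4 14))))] .n) (.c k191 (.l (.s k128 k64 7 (.s k4 k8 1 (.s k132 k72 9 (.s k68 k196 7 (.d
  k136 k140 k204 1 9)))))) .n)))) (.c k89 (.l (.s k8 k4 1 (.s k72 k132 9 (.s k136 k200 7 (.s k68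
  k204 9 (.d k64 k76 k128 1 7)))))) (.c k128 (.q k191 [(.s k46 k29 4 (.s k166 k226 9 (.s k89 k243 14
  (.d k72 k123 k132 4 9)))), (.s k255 k127 7 (.s k174 k93 12 (.s k157 k140 4 (.s k110 k204 12 (.d
  k46 k29 k238 4 7))))), (.s k4 k8 1 (.s k72 k132 9 (.s k127 k255 7 (.s k85 k64 6 (.s k166 k247 12
  (.d k89 k243 k123 14 4))))))] (.c k53 (.q k197 [(.s k255 k127 7 (.d k207 k202 k223 2 3)), (.s k46
  k29 4 (.s k72 k132 9 (.s k166 k226 9 (.d k89 k123 k243 4 14))))] .n) (.c k132 (.l (.s k4 k8 1 (.s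
  k46 k29 4 (.s k166 k226 9 (.s k85 k247 12 (.d k127 k64 k255 6 7)))))) (.c k197 (.q k53 [(.s k5 k21
  3 (.s k48 k58 2 (.d k15 k10 k26 2 6))), (.s k46 k29 4 (.s k72 k132 9 (.s k166 k226 9 (.d k89 k123
  k243 4 14))))] .n) .n)))) (.c k191 (.l (.s k128 k64 7 (.s k4 k8 1 (.s k132 k72 9 (.s k68 k196 7
  (.d k136 k140 k204 1 9)))))) (.c k197 (.q k53 [(.s k5 k21 3 (.s k48 k58 2 (.d k15 k10 k26 2 6))),
  (.s k46 k29 4 (.s k72 k132 9 (.s k166 k226 9 (.d k89 k123 k243 4 14))))] (.c k128 (.q k191 [(.s k5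
  k21 3 (.s k48 k58 2 (.d k15 k10 k26 2 6))), (.s k46 k29 4 (.s k72 k132 9 (.s k166 k226 9 (.d k89
  k123 k243 4 14))))] .n) (.c k191 (.l (.s k128 k64 7 (.s k5 k21 3 (.s k15 k10 2 (.d k48 k58 k26 2
  6))))) .n))) .n)))))) (.c k128 (.q k191 [(.s k46 k29 4 (.s k166 k226 9 (.s k89 k243 14 (.d k72
  k123 k132 4 9)))), (.s k255 k127 7 (.s k174 k93 12 (.s k157 k140 4 (.s k110 k204 12 (.d k46 k29
  k238 4 7))))), (.s k4 k8 1 (.s k72 k132 9 (.s k127 k255 7 (.s k85 k64 6 (.s k166 k247 12 (.d k89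
  k243 k123 14 4))))))] (.c k101 (.q k239 [(.s k46 k29 4 (.s k166 k226 9 (.s k89 k243 14 (.d k72
  k123 k132 4 9)))), (.s k255 k127 7 (.s k174 k93 12 (.s k157 k140 4 (.s k110 k204 12 (.d k46 k29
  k238 4 7))))), (.s k4 k8 1 (.s k72 k132 9 (.s k127 k255 7 (.s k85 k64 6 (.s k166 k247 12 (.d k89
  k243 k123 14 4))))))] (.c k53 (.q k197 [(.s k255 k127 7 (.d k207 k202 k223 2 3)), (.s k46 k29 4
  (.s k72 k132 9 (.s k166 k226 9 (.d k89 k123 k243 4 14))))] .n) (.c k132 (.l (.s k4 k8 1 (.s k46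
  k29 4 (.s k166 k226 9 (.s k85 k247 12 (.d k127 k64 k255 6 7)))))) (.c k197 (.q k53 [(.s k5 k21 3
  (.s k48 k58 2 (.d k15 k10 k26 2 6))), (.s k46 k29 4 (.s k72 k132 9 (.s k166 k226 9 (.d k89 k123
  k243 4 14))))] .n) .n)))) (.c k132 (.l (.s k4 k8 1 (.s k46 k29 4 (.s k166 k226 9 (.s k85 k247 12
  (.d k127 k64 k255 6 7)))))) (.c k239 (.q k101 [(.s k46 k29 4 (.s k166 k226 9 (.s k89 k243 14 (.d
  k72 k123 k132 4 9)))), (.s k111 k96 2 (.s k207 k159 11 (.s k154 k48 14 (.d k202 k197 k58 2 11))))]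
  (.c k111 (.q k175 [(.s k46 k29 4 (.s k166 k226 9 (.s k89 k243 14 (.d k72 k123 k132 4 9)))), (.s
  k165 k229 7 (.s k143 k159 3 (.s k154 k176 6 (.s k48 k207 14 (.d k58 k53 k202 2 11)))))] .n) (.c
  k175 (.l (.s k111 k96 2 (.s k207 k159 11 (.s k154 k48 14 (.d k202 k197 k58 2 11))))) .n))) .n))))
  (.c k191 (.l (.s k128 k64 7 (.s k4 k8 1 (.s k132 k72 9 (.s k68 k196 7 (.d k136 k140 k204 1 9))))))
  (.c k239 (.q k101 [(.s k46 k29 4 (.s k72 k132 9 (.s k166 k226 9 (.d k89 k123 k243 4 14)))), (.s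
  k111 k96 2 (.s k207 k159 11 (.s k154 k48 14 (.d k202 k197 k58 2 11))))] (.c k111 (.q k175 [(.s k46
  k29 4 (.s k72 k132 9 (.s k166 k226 9 (.d k89 k123 k243 4 14)))), (.s k4 k8 1 (.s k128 k64 7 (.s
  k132 k72 9 (.s k68 k196 7 (.d k136 k140 k204 1 9))))), (.s k4 k8 1 (.s k46 k29 4 (.s k166 k226 9
  (.s k85 k247 12 (.d k64 k128 k127 7 6)))))] (.c k89 (.l (.s k8 k4 1 (.s k72 k132 9 (.s k136 k200 7
  (.s k68 k204 9 (.d k64 k76 k128 1 7)))))) (.c k128 (.q k191 [(.s k46 k29 4 (.s k166 k226 9 (.s k89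
  k243 14 (.d k72 k123 k132 4 9)))), (.s k165 k229 7 (.s k143 k159 3 (.s k154 k176 6 (.s k48 k207 14
  (.d k58 k53 k202 2 11)))))] .n) (.c k191 (.l (.s k128 k64 7 (.s k4 k8 1 (.s k132 k72 9 (.s k68
  k196 7 (.d k136 k140 k204 1 9)))))) .n)))) (.c k128 (.q k191 [(.s k46 k29 4 (.s k166 k226 9 (.s
  k89 k243 14 (.d k72 k123 k132 4 9)))), (.s k111 k96 2 (.s k207 k159 11 (.s k154 k48 14 (.d k202
  k197 k58 2 11))))] (.c k111 (.q k175 [(.s k46 k29 4 (.s k166 k226 9 (.s k89 k243 14 (.d k72 k123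
  k132 4 9)))), (.s k165 k229 7 (.s k143 k159 3 (.s k154 k176 6 (.s k48 k207 14 (.d k58 k53 k202 2
  11)))))] .n) (.c k175 (.l (.s k111 k96 2 (.s k207 k159 11 (.s k154 k48 14 (.d k202 k197 k58 2
  11))))) .n))) (.c k175 (.l (.s k111 k96 2 (.s k207 k159 11 (.s k154 k48 14 (.d k202 k197 k58 2
  11))))) (.c k191 (.l (.s k128 k64 7 (.s k4 k8 1 (.s k132 k72 9 (.s k68 k196 7 (.d k136 k140 k204 1
  9)))))) .n))))) .n)))))) (.c k37 (.q k32 [(.s k46 k29 4 (.s k72 k132 9 (.s k166 k226 9 (.d k89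
  k123 k243 4 14)))), (.s k4 k8 1 (.s k48 k16 3 (.s k36 k24 5 (.s k20 k52 3 (.d k40 k44 k60 1
  5)))))] (.c k89 (.l (.s k8 k4 1 (.s k72 k132 9 (.s k136 k200 7 (.s k68 k204 9 (.d k64 k76 k128 1
  7)))))) (.c k128 (.q k191 [(.s k46 k29 4 (.s k166 k226 9 (.s k89 k243 14 (.d k72 k123 k132 4
  9)))), (.s k4 k8 1 (.s k48 k16 3 (.s k36 k24 5 (.s k20 k52 3 (.d k40 k44 k60 1 5)))))] (.c k89 (.l
  (.s k48 k16 3 (.s k36 k24 5 (.s k40 k44 1 (.s k20 k60 5 (.d k4 k8 k52 1 3)))))) .n)) (.c k191 (.l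
  (.s k128 k64 7 (.s k4 k8 1 (.s k132 k72 9 (.s k68 k196 7 (.d k136 k140 k204 1 9)))))) .n)))) (.c
  k89 (.l (.s k8 k4 1 (.s k72 k132 9 (.s k136 k200 7 (.s k68 k204 9 (.d k64 k76 k128 1 7)))))) (.c
  k128 (.q k191 [(.s k46 k29 4 (.s k166 k226 9 (.s k89 k243 14 (.d k72 k123 k132 4 9)))), (.s k255
  k127 7 (.s k174 k93 12 (.s k157 k140 4 (.s k110 k204 12 (.d k46 k29 k238 4 7))))), (.s k4 k8 1 (.s
  k72 k132 9 (.s k127 k255 7 (.s k85 k64 6 (.s k166 k247 12 (.d k89 k243 k123 14 4))))))] (.c k32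
  (.q k37 [(.s k46 k29 4 (.s k166 k226 9 (.s k89 k243 14 (.d k72 k123 k132 4 9)))), (.s k255 k127 7
  (.s k174 k93 12 (.s k157 k140 4 (.s k110 k204 12 (.d k46 k29 k238 4 7))))), (.s k4 k8 1 (.s k72
  k132 9 (.s k127 k255 7 (.s k85 k64 6 (.s k166 k247 12 (.d k89 k243 k123 14 4))))))] (.c k101 (.q
  k239 [(.s k46 k29 4 (.s k166 k226 9 (.s k89 k243 14 (.d k72 k123 k132 4 9)))), (.s k255 k127 7 (.s
  k174 k93 12 (.s k157 k140 4 (.s k110 k204 12 (.d k46 k29 k238 4 7))))), (.s k4 k8 1 (.s k72 k132 9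
  (.s k127 k255 7 (.s k85 k64 6 (.s k166 k247 12 (.d k89 k243 k123 14 4))))))] (.c k53 (.q k197 [(.s
  k255 k127 7 (.d k207 k202 k223 2 3)), (.s k46 k29 4 (.s k72 k132 9 (.s k166 k226 9 (.d k89 k123
  k243 4 14))))] .n) (.c k132 (.l (.s k4 k8 1 (.s k46 k29 4 (.s k166 k226 9 (.s k85 k247 12 (.d k127
  k64 k255 6 7)))))) (.c k197 (.q k53 [(.s k5 k21 3 (.s k48 k58 2 (.d k15 k10 k26 2 6))), (.s k46
  k29 4 (.s k72 k132 9 (.s k166 k226 9 (.d k89 k123 k243 4 14))))] .n) .n)))) (.c k132 (.l (.s k4 k8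
  1 (.s k46 k29 4 (.s k166 k226 9 (.s k85 k247 12 (.d k127 k64 k255 6 7)))))) (.c k239 (.q k101 [(.s
  k46 k29 4 (.s k166 k226 9 (.s k89 k243 14 (.d k72 k123 k132 4 9)))), (.s k111 k96 2 (.s k207 k159
  11 (.s k154 k48 14 (.d k202 k197 k58 2 11))))] (.c k111 (.q k175 [(.s k46 k29 4 (.s k166 k226 9
  (.s k89 k243 14 (.d k72 k123 k132 4 9)))), (.s k165 k229 7 (.s k143 k159 3 (.s k154 k176 6 (.s k48
  k207 14 (.d k58 k53 k202 2 11)))))] .n) (.c k175 (.l (.s k111 k96 2 (.s k207 k159 11 (.s k154 k48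
  14 (.d k202 k197 k58 2 11))))) .n))) .n)))) (.c k37 (.q k32 [(.s k46 k29 4 (.s k166 k226 9 (.s k89
  k243 14 (.d k72 k123 k132 4 9)))), (.s k4 k8 1 (.s k48 k16 3 (.s k36 k24 5 (.s k20 k52 3 (.d k40
  k44 k60 1 5)))))] (.c k89 (.l (.s k48 k16 3 (.s k36 k24 5 (.s k40 k44 1 (.s k20 k60 5 (.d k4 k8
  k52 1 3)))))) .n)) (.c k132 (.l (.s k4 k8 1 (.s k46 k29 4 (.s k166 k226 9 (.s k85 k247 12 (.d k127
  k64 k255 6 7)))))) .n)))) (.c k191 (.l (.s k128 k64 7 (.s k4 k8 1 (.s k132 k72 9 (.s k68 k196 7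
  (.d k136 k140 k204 1 9)))))) .n)))))))

def t42_48 : T TT 256 :=
  (.f k192 k149 14 (.q k12 [(.s k46 k29 4 (.s k72 k132 9 (.s k166 k226 9 (.d k89 k123 k243 4 14)))),
  (.s k4 k8 1 (.s k128 k64 7 (.s k132 k72 9 (.s k68 k196 7 (.d k136 k140 k204 1 9))))), (.s k4 k8 1
  (.s k46 k29 4 (.s k166 k226 9 (.s k85 k247 12 (.d k64 k128 k127 7 6)))))] (.c k89 (.l (.s k8 k4 1
  (.s k72 k132 9 (.s k136 k200 7 (.s k68 k204 9 (.d k64 k76 k128 1 7)))))) (.c k128 (.q k191 [(.s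
  k46 k29 4 (.s k166 k226 9 (.s k89 k243 14 (.d k72 k123 k132 4 9)))), (.s k255 k127 7 (.s k174 k93
  12 (.s k157 k140 4 (.s k110 k204 12 (.d k46 k29 k238 4 7))))), (.s k4 k8 1 (.s k72 k132 9 (.s k127
  k255 7 (.s k85 k64 6 (.s k166 k247 12 (.d k89 k243 k123 14 4))))))] (.c k132 (.l (.s k4 k8 1 (.s
  k46 k29 4 (.s k166 k226 9 (.s k85 k247 12 (.d k127 k64 k255 6 7)))))) .n)) (.c k191 (.l (.s k128
  k64 7 (.s k4 k8 1 (.s k132 k72 9 (.s k68 k196 7 (.d k136 k140 k204 1 9)))))) .n)))))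

def t42_49 : T TT 256 :=
  (.f k192 k149 14 (.q k12 [(.s k46 k29 4 (.s k72 k132 9 (.s k166 k226 9 (.d k89 k123 k243 4 14)))),
  (.s k4 k8 1 (.s k128 k64 7 (.s k132 k72 9 (.s k68 k196 7 (.d k136 k140 k204 1 9))))), (.s k4 k8 1
  (.s k46 k29 4 (.s k166 k226 9 (.s k85 k247 12 (.d k64 k128 k127 7 6)))))] (.c k89 (.l (.s k8 k4 1
  (.s k72 k132 9 (.s k136 k200 7 (.s k68 k204 9 (.d k64 k76 k128 1 7)))))) (.c k128 (.q k191 [(.s
  k46 k29 4 (.s k166 k226 9 (.s k89 k243 14 (.d k72 k123 k132 4 9)))), (.s k255 k127 7 (.s k174 k93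
  12 (.s k157 k140 4 (.s k110 k204 12 (.d k46 k29 k238 4 7))))), (.s k4 k8 1 (.s k72 k132 9 (.s k127
  k255 7 (.s k85 k64 6 (.s k166 k247 12 (.d k89 k243 k123 14 4))))))] (.c k132 (.l (.s k4 k8 1 (.s
  k46 k29 4 (.s k166 k226 9 (.s k85 k247 12 (.d k127 k64 k255 6 7)))))) .n)) (.c k191 (.l (.s k128
  k64 7 (.s k4 k8 1 (.s k132 k72 9 (.s k68 k196 7 (.d k136 k140 k204 1 9)))))) .n)))))

def t42_50 : T TT 256 :=
  (.f k192 k149 14 (.q k12 [(.s k46 k29 4 (.s k72 k132 9 (.s k166 k226 9 (.d k89 k123 k243 4 14)))),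
  (.s k4 k8 1 (.s k128 k64 7 (.s k132 k72 9 (.s k68 k196 7 (.d k136 k140 k204 1 9))))), (.s k4 k8 1
  (.s k46 k29 4 (.s k166 k226 9 (.s k85 k247 12 (.d k64 k128 k127 7 6)))))] (.c k89 (.l (.s k8 k4 1
  (.s k72 k132 9 (.s k136 k200 7 (.s k68 k204 9 (.d k64 k76 k128 1 7)))))) (.c k128 (.q k191 [(.s
  k46 k29 4 (.s k166 k226 9 (.s k89 k243 14 (.d k72 k123 k132 4 9)))), (.s k255 k127 7 (.s k174 k93
  12 (.s k157 k140 4 (.s k110 k204 12 (.d k46 k29 k238 4 7))))), (.s k4 k8 1 (.s k72 k132 9 (.s k127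
  k255 7 (.s k85 k64 6 (.s k166 k247 12 (.d k89 k243 k123 14 4))))))] (.c k132 (.l (.s k4 k8 1 (.s
  k46 k29 4 (.s k166 k226 9 (.s k85 k247 12 (.d k127 k64 k255 6 7)))))) .n)) (.c k191 (.l (.s k128
  k64 7 (.s k4 k8 1 (.s k132 k72 9 (.s k68 k196 7 (.d k136 k140 k204 1 9)))))) .n)))))

def t42_51 : T TT 256 :=
  (.f k192 k149 14 (.q k12 [(.s k46 k29 4 (.s k72 k132 9 (.s k166 k226 9 (.d k89 k123 k243 4 14)))),
  (.s k4 k8 1 (.s k128 k64 7 (.s k132 k72 9 (.s k68 k196 7 (.d k136 k140 k204 1 9))))), (.s k4 k8 1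
  (.s k46 k29 4 (.s k166 k226 9 (.s k85 k247 12 (.d k64 k128 k127 7 6)))))] (.c k89 (.l (.s k8 k4 1
  (.s k72 k132 9 (.s k136 k200 7 (.s k68 k204 9 (.d k64 k76 k128 1 7)))))) (.c k128 (.q k191 [(.s
  k46 k29 4 (.s k166 k226 9 (.s k89 k243 14 (.d k72 k123 k132 4 9)))), (.s k255 k127 7 (.s k174 k93
  12 (.s k157 k140 4 (.s k110 k204 12 (.d k46 k29 k238 4 7))))), (.s k4 k8 1 (.s k72 k132 9 (.s k127
  k255 7 (.s k85 k64 6 (.s k166 k247 12 (.d k89 k243 k123 14 4))))))] (.c k132 (.l (.s k4 k8 1 (.s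
  k46 k29 4 (.s k166 k226 9 (.s k85 k247 12 (.d k127 k64 k255 6 7)))))) .n)) (.c k191 (.l (.s k128
  k64 7 (.s k4 k8 1 (.s k132 k72 9 (.s k68 k196 7 (.d k136 k140 k204 1 9)))))) .n)))))

def t42_52 : T TT 256 :=
  (.f k192 k149 14 (.q k12 [(.s k46 k29 4 (.s k72 k132 9 (.s k166 k226 9 (.d k89 k123 k243 4 14)))),
  (.s k4 k8 1 (.s k128 k64 7 (.s k132 k72 9 (.s k68 k196 7 (.d k136 k140 k204 1 9))))), (.s k4 k8 1
  (.s k46 k29 4 (.s k166 k226 9 (.s k85 k247 12 (.d k64 k128 k127 7 6)))))] (.c k89 (.l (.s k8 k4 1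
  (.s k72 k132 9 (.s k136 k200 7 (.s k68 k204 9 (.d k64 k76 k128 1 7)))))) (.c k128 (.q k191 [(.s
  k46 k29 4 (.s k166 k226 9 (.s k89 k243 14 (.d k72 k123 k132 4 9)))), (.s k255 k127 7 (.s k174 k93
  12 (.s k157 k140 4 (.s k110 k204 12 (.d k46 k29 k238 4 7))))), (.s k4 k8 1 (.s k72 k132 9 (.s k127
  k255 7 (.s k85 k64 6 (.s k166 k247 12 (.d k89 k243 k123 14 4))))))] (.c k132 (.l (.s k4 k8 1 (.s
  k46 k29 4 (.s k166 k226 9 (.s k85 k247 12 (.d k127 k64 k255 6 7)))))) .n)) (.c k191 (.l (.s k128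
  k64 7 (.s k4 k8 1 (.s k132 k72 9 (.s k68 k196 7 (.d k136 k140 k204 1 9)))))) .n)))))

def t42_53 : T TT 256 :=
  (.f k192 k149 14 (.q k207 [(.s k111 k159 11 (.s k101 k96 2 (.s k154 k48 14 (.d k202 k197 k58 2
  11)))), (.s k128 k64 7 (.s k138 k69 10 (.s k133 k143 2 (.s k74 k15 10 (.d k202 k197 k10 2 7)))))]
  (.c k101 (.l (.s k197 k202 2 (.s k69 k138 10 (.s k133 k5 7 (.s k74 k15 10 (.d k64 k79 k128 2
  7)))))) (.c k128 (.q k191 [(.s k111 k159 11 (.s k101 k96 2 (.s k154 k48 14 (.d k202 k197 k58 2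
  11)))), (.s k197 k202 2 (.s k69 k138 10 (.s k133 k5 7 (.s k74 k15 10 (.s k127 k255 7 (.d k64 k79
  k85 2 6)))))), (.s k159 k111 11 (.s k255 k127 7 (.s k175 k143 3 (.s k95 k15 11 (.d k223 k239 k31 3
  7)))))] (.c k101 (.l (.s k197 k202 2 (.s k69 k138 10 (.s k133 k5 7 (.s k74 k15 10 (.s k127 k255 7
  (.d k64 k79 k85 2 6))))))) (.c k197 (.q k101 [(.d k111 k96 k159 2 11), (.s k69 k138 10 (.s k127
  k255 7 (.d k85 k117 k64 3 6)))] .n) .n))) (.c k191 (.l (.s k128 k64 7 (.s k138 k69 10 (.s k133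
  k143 2 (.s k74 k15 10 (.d k202 k197 k10 2 7)))))) (.c k197 (.q k101 [(.d k111 k96 k159 2 11), (.s
  k69 k138 10 (.s k85 k117 3 (.d k64 k128 k127 7 6)))] (.c k128 (.q k191 [(.d k111 k96 k159 2 11),
  (.s k69 k138 10 (.s k127 k255 7 (.d k85 k117 k64 3 6)))] .n) (.c k191 (.l (.s k128 k64 7 (.d k111
  k96 k159 2 11))) .n))) (.c k202 (.l (.s k69 k138 10 (.s k111 k159 11 (.s k101 k96 2 (.s k85 k117 3
  (.d k64 k127 k128 6 7)))))) .n)))))))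

def t42_54 : T TT 256 :=
  (.f k192 k149 14 (.q k51 [(.s k98 k145 12 (.s k102 k110 1 (.s k153 k204 14 (.d k59 k55 k200 1
  12)))), (.s k17 k34 4 (.s k128 k64 7 (.s k145 k98 12 (.s k81 k209 7 (.d k162 k179 k243 4 12))))),
  (.s k17 k34 4 (.s k59 k55 1 (.s k153 k200 12 (.s k85 k221 9 (.d k64 k128 k127 7 6)))))] (.c k102
  (.l (.s k34 k17 4 (.s k98 k145 12 (.s k162 k226 7 (.s k81 k243 12 (.d k64 k115 k128 4 7)))))) (.c
  k128 (.q k191 [(.s k98 k145 12 (.s k102 k110 1 (.s k153 k204 14 (.d k59 k55 k200 1 12)))), (.s k59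
  k55 1 (.s k255 k127 7 (.s k187 k119 9 (.s k123 k251 7 (.d k183 k179 k243 1 9))))), (.s k17 k34 4
  (.s k98 k145 12 (.s k127 k255 7 (.s k85 k64 6 (.s k153 k221 9 (.d k102 k204 k110 14 1))))))] (.c
  k102 (.l (.s k255 k127 7 (.s k187 k119 9 (.s k183 k179 1 (.s k123 k243 9 (.d k59 k55 k251 1
  7)))))) (.c k179 (.l (.s k59 k55 1 (.s k153 k200 12 (.s k102 k204 14 (.d k98 k110 k145 1 12)))))
  .n))) (.c k191 (.l (.s k128 k64 7 (.s k17 k34 4 (.s k145 k98 12 (.s k81 k209 7 (.d k162 k179 k243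
  4 12)))))) .n)))))

def t42_55 : T TT 256 :=
  (.q k15 [(.s k47 k31 3 (.s k165 k224 10 (.s k240 k90 14 (.s k149 k192 14 (.d k181 k133 k122 3
  10))))), (.s k5 k10 2 (.s k192 k149 14 (.s k128 k64 7 (.s k133 k74 10 (.s k69 k197 7 (.d k138 k143
  k207 2 10)))))), (.s k31 k47 3 (.s k149 k192 14 (.s k90 k208 10 (.s k240 k165 14 (.d k122 k74 k181
  3 10)))))] (.c k90 (.l (.s k10 k5 2 (.s k192 k149 14 (.s k74 k133 10 (.s k138 k202 7 (.s k69 k207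
  10 (.d k64 k128 k79 7 2))))))) (.c k149 (.f k47 k31 3 (.l (.s k5 k10 2 (.s k165 k224 10 (.s k85
  k245 11 (.s k90 k240 14 (.s k64 k127 6 (.s k74 k122 3 (.d k192 k128 k133 7 10))))))))) (.c k192
  (.f k47 k31 3 (.l (.s k5 k10 2 (.s k165 k224 10 (.s k85 k245 11 (.s k127 k64 6 (.s k255 k191 7 (.s
  k95 k175 11 (.d k90 k240 k80 14 2))))))))) .n))))

def t42_56 : T TT 256 :=
  (.f k192 k149 14 (.q k207 [(.s k111 k159 11 (.s k101 k96 2 (.s k202 k197 2 (.d k154 k58 k48 11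
  14)))), (.s k128 k64 7 (.s k138 k69 10 (.s k133 k143 2 (.s k74 k15 10 (.d k202 k197 k10 2 7))))),
  (.s k69 k138 10 (.s k111 k159 11 (.s k101 k96 2 (.s k85 k117 3 (.d k64 k128 k127 7 6)))))] (.c
  k128 (.q k191 [(.s k111 k159 11 (.s k101 k96 2 (.s k202 k197 2 (.d k154 k58 k48 11 14)))), (.s
  k159 k111 11 (.s k255 k127 7 (.s k175 k143 3 (.s k95 k15 11 (.d k223 k239 k31 3 7))))), (.s k69
  k138 10 (.s k127 k255 7 (.s k64 k85 6 (.s k74 k79 2 (.s k133 k15 10 (.d k197 k202 k5 2 7))))))]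
  .n) (.c k191 (.l (.s k128 k64 7 (.s k138 k69 10 (.s k133 k143 2 (.s k74 k15 10 (.d k202 k197 k10 2
  7)))))) .n))))

def t42_57 : T TT 256 :=
  (.f k192 k149 14 (.q k207 [(.s k111 k159 11 (.s k101 k96 2 (.s k154 k48 14 (.d k202 k197 k58 2
  11)))), (.s k128 k64 7 (.s k138 k69 10 (.s k133 k143 2 (.s k74 k15 10 (.d k202 k197 k10 2 7))))),
  (.s k69 k138 10 (.s k111 k159 11 (.s k101 k96 2 (.s k85 k117 3 (.d k64 k128 k127 7 6)))))] (.c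
  k128 (.q k191 [(.s k111 k159 11 (.s k101 k96 2 (.s k154 k48 14 (.d k202 k197 k58 2 11)))), (.s
  k159 k111 11 (.s k255 k127 7 (.s k175 k143 3 (.s k95 k15 11 (.d k223 k239 k31 3 7))))), (.s k69
  k138 10 (.s k127 k255 7 (.s k64 k85 6 (.s k74 k79 2 (.s k133 k15 10 (.d k197 k202 k5 2 7))))))]
  .n) (.c k191 (.l (.s k128 k64 7 (.s k138 k69 10 (.s k133 k143 2 (.s k74 k15 10 (.d k202 k197 k10 2
  7)))))) .n))))

def t42_58 : T TT 256 :=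
  (.q k10 [(.s k15 k5 2 (.s k47 k31 3 (.s k165 k224 10 (.s k240 k90 14 (.s k149 k192 14 (.d k181
  k133 k122 3 10)))))), (.s k15 k5 2 (.s k192 k149 14 (.s k74 k133 10 (.s k138 k202 7 (.s k69 k207
  10 (.d k64 k128 k79 7 2))))))] (.c k5 (.f k192 k149 14 (.q k207 [(.s k138 k69 10 (.d k202 k197 k74
  2 7)), (.s k128 k64 7 (.s k111 k159 11 (.s k96 k101 2 (.s k144 k48 11 (.s k160 k176 3 (.s k240 k80
  11 (.d k224 k32 k208 7 3)))))))] (.c k128 (.q k191 [(.s k138 k69 10 (.d k202 k197 k74 2 7)), (.s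
  k159 k111 11 (.s k255 k127 7 (.s k223 k239 3 (.s k95 k31 7 (.d k175 k143 k15 3 11)))))] .n) (.c
  k191 (.l (.s k128 k64 7 (.s k138 k69 10 (.d k202 k197 k74 2 7)))) (.c k197 (.l (.s k128 k64 7 (.s
  k138 k69 10 (.s k133 k143 2 (.d k74 k202 k15 7 10))))) .n))))) (.c k15 (.f k192 k149 14 (.q k207
  [(.s k138 k69 10 (.d k202 k197 k74 2 7)), (.s k128 k64 7 (.s k111 k159 11 (.s k96 k101 2 (.s k144
  k48 11 (.s k160 k176 3 (.s k240 k80 11 (.d k224 k32 k208 7 3)))))))] (.c k128 (.q k191 [(.s k138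
  k69 10 (.d k202 k197 k74 2 7)), (.s k111 k159 11 (.s k255 k127 7 (.s k234 k213 6 (.s k239 k223 3
  (.s k47 k175 7 (.d k224 k165 k229 10 2))))))] .n) (.c k191 (.l (.s k128 k64 7 (.s k138 k69 10 (.d
  k202 k74 k197 7 2)))) (.c k197 (.l (.s k69 k138 10 (.s k111 k159 11 (.s k101 k96 2 (.s k85 k117 3
  (.d k64 k127 k128 6 7)))))) .n))))) (.c k133 (.l (.s k15 k5 2 (.s k31 k47 3 (.s k149 k192 14 (.s
  k90 k208 10 (.s k240 k165 14 (.d k122 k74 k181 3 10))))))) (.c k149 (.f k15 k5 2 (.q k207 [(.s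
  k138 k69 10 (.s k74 k202 7 (.s k133 k192 10 (.d k143 k128 k79 2 7)))), (.s k31 k47 3 (.s k143 k79
  7 (.s k159 k111 11 (.s k95 k223 7 (.d k175 k191 k255 3 11))))), (.s k138 k69 10 (.s k74 k202 7 (.s
  k47 k31 3 (.s k165 k224 10 (.d k90 k122 k240 3 14)))))] (.c k128 (.q k191 [(.s k143 k79 7 (.d k159
  k175 k111 3 11)), (.s k69 k138 10 (.s k127 k255 7 (.s k64 k85 6 (.d k79 k143 k74 7 2)))), (.s k31
  k47 3 (.s k159 k111 11 (.s k95 k223 7 (.d k255 k175 k127 11 7))))] .n) (.c k191 (.q k128 [(.s k143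
  k79 7 (.d k138 k133 k69 2 10)), (.s k64 k192 7 (.s k79 k143 7 (.s k127 k85 6 (.d k111 k159 k95 11
  3))))] (.c k79 (.l (.s k192 k64 7 (.s k138 k69 10 (.d k74 k133 k202 10 7)))) (.c k143 (.l (.s k192
  k64 7 (.s k138 k69 10 (.d k74 k133 k202 10 7)))) .n))) .n)))) (.c k165 (.q k207 [(.s k138 k69 10
  (.s k202 k74 7 (.d k192 k197 k149 2 14))), (.s k15 k5 2 (.s k31 k47 3 (.s k143 k79 7 (.s k159 k111
  11 (.s k95 k223 7 (.d k175 k191 k255 3 11))))))] (.c k79 (.l (.s k138 k69 10 (.s k192 k149 14 (.d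
  k202 k74 k197 7 2)))) (.c k160 (.q k175 [(.s k15 k5 2 (.s k47 k31 3 (.d k111 k239 k159 7 11))),
  (.s k138 k69 10 (.s k202 k74 7 (.d k192 k197 k149 2 14)))] .n) (.c k175 (.q k160 [(.s k138 k69 10
  (.s k202 k74 7 (.d k192 k197 k149 2 14))), (.s k15 k5 2 (.s k240 k80 11 (.s k122 k181 10 (.s k74
  k90 3 (.d k192 k133 k149 10 14))))), (.s k138 k69 10 (.s k240 k80 11 (.s k74 k202 7 (.d k122 k90
  k181 3 10))))] (.c k74 (.l (.s k5 k15 2 (.s k69 k138 10 (.s k197 k133 7 (.d k192 k149 k202 14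
  2))))) .n)) .n)))) (.c k181 (.l (.s k15 k5 2 (.s k47 k31 3 (.s k165 k224 10 (.s k90 k240 14 (.s
  k192 k149 14 (.d k74 k122 k133 3 10))))))) (.c k192 (.f k15 k5 2 (.q k207 [(.s k138 k69 10 (.s k74
  k202 7 (.s k47 k31 3 (.s k165 k224 10 (.d k90 k240 k122 14 3))))), (.s k31 k47 3 (.s k143 k79 7
  (.s k159 k111 11 (.s k95 k223 7 (.d k175 k191 k255 3 11))))), (.s k69 k138 10 (.s k79 k143 7 (.s
  k111 k159 11 (.s k64 k74 2 (.d k127 k95 k85 3 6)))))] .n)) .n))))))))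

def t42_59 : T TT 256 :=
  (.f k192 k149 14 (.q k15 [(.s k47 k31 3 (.s k74 k133 10 (.s k165 k224 10 (.d k90 k122 k240 3
  14)))), (.s k5 k10 2 (.s k128 k64 7 (.s k133 k74 10 (.s k69 k197 7 (.d k138 k143 k207 2 10))))),
  (.s k5 k10 2 (.s k47 k31 3 (.s k165 k224 10 (.s k85 k245 11 (.d k64 k128 k127 7 6)))))] (.c k8 (.q
  k25 [(.s k47 k31 3 (.s k74 k133 10 (.s k165 k224 10 (.d k90 k122 k240 3 14)))), (.s k5 k10 2 (.s
  k128 k64 7 (.s k133 k74 10 (.s k69 k197 7 (.d k138 k143 k207 2 10))))), (.s k5 k10 2 (.s k47 k31 3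
  (.s k165 k224 10 (.s k85 k245 11 (.d k64 k128 k127 7 6)))))] (.c k89 (.q k251 [(.s k47 k31 3 (.s
  k74 k133 10 (.s k165 k224 10 (.d k90 k122 k240 3 14)))), (.s k5 k10 2 (.s k128 k64 7 (.s k133 k74
  10 (.s k69 k197 7 (.d k138 k143 k207 2 10))))), (.s k5 k10 2 (.s k47 k31 3 (.s k165 k224 10 (.s
  k85 k245 11 (.d k64 k128 k127 7 6)))))] (.c k29 (.q k209 [(.s k74 k133 10 (.s k90 k122 3 (.s k165
  k240 14 (.d k47 k31 k224 3 10)))), (.s k5 k10 2 (.s k128 k64 7 (.s k133 k74 10 (.s k69 k197 7 (.d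
  k138 k143 k207 2 10))))), (.s k5 k10 2 (.s k47 k31 3 (.s k165 k224 10 (.s k85 k245 11 (.d k64 k128
  k127 7 6)))))] (.c k90 (.l (.s k10 k5 2 (.s k74 k133 10 (.s k138 k202 7 (.s k69 k207 10 (.d k64
  k79 k128 2 7)))))) (.c k128 (.q k191 [(.s k255 k127 7 (.d k243 k247 k226 1 4)), (.s k47 k31 3 (.s
  k74 k133 10 (.s k165 k224 10 (.d k90 k122 k240 3 14))))] .n) (.c k191 (.l (.s k128 k64 7 (.s k5
  k10 2 (.s k133 k74 10 (.s k69 k197 7 (.d k138 k143 k207 2 10)))))) .n)))) (.c k90 (.l (.s k10 k5 2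
  (.s k74 k133 10 (.s k138 k202 7 (.s k69 k207 10 (.d k64 k79 k128 2 7)))))) (.c k128 (.q k191 [(.s
  k47 k31 3 (.s k165 k224 10 (.s k90 k240 14 (.d k74 k122 k133 3 10)))), (.s k255 k127 7 (.s k175
  k95 11 (.s k159 k143 3 (.s k111 k207 11 (.d k47 k31 k239 3 7))))), (.s k5 k10 2 (.s k74 k133 10
  (.s k127 k255 7 (.s k85 k64 6 (.s k165 k245 11 (.d k90 k240 k122 14 3))))))] (.c k29 (.q k209 [(.s
  k255 k127 7 (.d k243 k247 k226 1 4)), (.s k47 k31 3 (.s k74 k133 10 (.s k165 k224 10 (.d k90 k122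
  k240 3 14))))] .n) (.c k133 (.l (.s k5 k10 2 (.s k47 k31 3 (.s k165 k224 10 (.s k85 k245 11 (.d
  k127 k64 k255 6 7)))))) (.c k209 (.q k29 [(.s k12 k46 4 (.s k17 k21 1 (.d k51 k34 k38 4 6))), (.s
  k47 k31 3 (.s k74 k133 10 (.s k165 k224 10 (.d k90 k122 k240 3 14))))] .n) .n)))) (.c k191 (.l (.s
  k128 k64 7 (.s k5 k10 2 (.s k133 k74 10 (.s k69 k197 7 (.d k138 k143 k207 2 10)))))) (.c k209 (.q
  k29 [(.s k12 k46 4 (.s k17 k21 1 (.d k51 k34 k38 4 6))), (.s k47 k31 3 (.s k74 k133 10 (.s k165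
  k224 10 (.d k90 k122 k240 3 14))))] (.c k128 (.q k191 [(.s k12 k46 4 (.s k17 k21 1 (.d k51 k34 k38
  4 6))), (.s k47 k31 3 (.s k74 k133 10 (.s k165 k224 10 (.d k90 k122 k240 3 14))))] .n) (.c k191
  (.l (.s k128 k64 7 (.s k12 k46 4 (.s k17 k21 1 (.d k51 k34 k38 4 6))))) .n))) .n)))))) (.c k90 (.l
  (.s k10 k5 2 (.s k74 k133 10 (.s k138 k202 7 (.s k69 k207 10 (.d k64 k79 k128 2 7)))))) (.c k128
  (.q k191 [(.s k47 k31 3 (.s k165 k224 10 (.s k90 k240 14 (.d k74 k122 k133 3 10)))), (.s k255 k127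
  7 (.s k175 k95 11 (.s k159 k143 3 (.s k111 k207 11 (.d k47 k31 k239 3 7))))), (.s k5 k10 2 (.s k74
  k133 10 (.s k127 k255 7 (.s k85 k64 6 (.s k165 k245 11 (.d k90 k240 k122 14 3))))))] (.c k89 (.q
  k251 [(.s k47 k31 3 (.s k165 k224 10 (.s k90 k240 14 (.d k74 k122 k133 3 10)))), (.s k255 k127 7
  (.s k175 k95 11 (.s k159 k143 3 (.s k111 k207 11 (.d k47 k31 k239 3 7))))), (.s k5 k10 2 (.s k74
  k133 10 (.s k127 k255 7 (.s k85 k64 6 (.s k165 k245 11 (.d k90 k240 k122 14 3))))))] (.c k29 (.q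
  k209 [(.s k255 k127 7 (.d k243 k247 k226 1 4)), (.s k47 k31 3 (.s k74 k133 10 (.s k165 k224 10 (.d
  k90 k122 k240 3 14))))] .n) (.c k133 (.l (.s k5 k10 2 (.s k47 k31 3 (.s k165 k224 10 (.s k85 k245
  11 (.d k127 k64 k255 6 7)))))) (.c k209 (.q k29 [(.s k12 k46 4 (.s k17 k21 1 (.d k51 k34 k38 4
  6))), (.s k47 k31 3 (.s k74 k133 10 (.s k165 k224 10 (.d k90 k122 k240 3 14))))] .n) .n)))) (.c
  k133 (.l (.s k5 k10 2 (.s k47 k31 3 (.s k165 k224 10 (.s k85 k245 11 (.d k127 k64 k255 6 7))))))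
  (.c k251 (.q k89 [(.s k47 k31 3 (.s k165 k224 10 (.s k90 k240 14 (.d k74 k122 k133 3 10)))), (.s
  k123 k72 4 (.s k243 k183 9 (.s k166 k12 14 (.d k226 k209 k46 4 9))))] (.c k123 (.q k187 [(.s k47
  k31 3 (.s k165 k224 10 (.s k90 k240 14 (.d k74 k122 k133 3 10)))), (.s k153 k217 7 (.s k179 k183 1
  (.s k166 k140 6 (.s k12 k243 14 (.d k46 k29 k226 4 9)))))] .n) (.c k187 (.l (.s k123 k72 4 (.s
  k243 k183 9 (.s k166 k12 14 (.d k226 k209 k46 4 9))))) .n))) .n)))) (.c k191 (.l (.s k128 k64 7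
  (.s k5 k10 2 (.s k133 k74 10 (.s k69 k197 7 (.d k138 k143 k207 2 10)))))) (.c k251 (.q k89 [(.s
  k47 k31 3 (.s k74 k133 10 (.s k165 k224 10 (.d k90 k122 k240 3 14)))), (.s k123 k72 4 (.s k243
  k183 9 (.s k166 k12 14 (.d k226 k209 k46 4 9))))] (.c k123 (.q k187 [(.s k47 k31 3 (.s k74 k133 10
  (.s k165 k224 10 (.d k90 k122 k240 3 14)))), (.s k5 k10 2 (.s k128 k64 7 (.s k133 k74 10 (.s k69
  k197 7 (.d k138 k143 k207 2 10))))), (.s k5 k10 2 (.s k47 k31 3 (.s k165 k224 10 (.s k85 k245 11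
  (.d k64 k128 k127 7 6)))))] (.c k90 (.l (.s k10 k5 2 (.s k74 k133 10 (.s k138 k202 7 (.s k69 k207
  10 (.d k64 k79 k128 2 7)))))) (.c k128 (.q k191 [(.s k47 k31 3 (.s k165 k224 10 (.s k90 k240 14
  (.d k74 k122 k133 3 10)))), (.s k153 k217 7 (.s k179 k183 1 (.s k166 k140 6 (.s k12 k243 14 (.d
  k46 k29 k226 4 9)))))] .n) (.c k191 (.l (.s k128 k64 7 (.s k5 k10 2 (.s k133 k74 10 (.s k69 k197 7
  (.d k138 k143 k207 2 10)))))) .n)))) (.c k128 (.q k191 [(.s k47 k31 3 (.s k165 k224 10 (.s k90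
  k240 14 (.d k74 k122 k133 3 10)))), (.s k123 k72 4 (.s k243 k183 9 (.s k166 k12 14 (.d k226 k209
  k46 4 9))))] (.c k123 (.q k187 [(.s k47 k31 3 (.s k165 k224 10 (.s k90 k240 14 (.d k74 k122 k133 3
  10)))), (.s k153 k217 7 (.s k179 k183 1 (.s k166 k140 6 (.s k12 k243 14 (.d k46 k29 k226 4 9)))))]
  .n) (.c k187 (.l (.s k123 k72 4 (.s k243 k183 9 (.s k166 k12 14 (.d k226 k209 k46 4 9))))) .n)))
  (.c k187 (.l (.s k123 k72 4 (.s k243 k183 9 (.s k166 k12 14 (.d k226 k209 k46 4 9))))) (.c k191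
  (.l (.s k128 k64 7 (.s k5 k10 2 (.s k133 k74 10 (.s k69 k197 7 (.d k138 k143 k207 2 10))))))
  .n))))) .n)))))) (.c k25 (.q k8 [(.s k47 k31 3 (.s k74 k133 10 (.s k165 k224 10 (.d k90 k122 k240
  3 14)))), (.s k12 k4 1 (.s k10 k5 2 (.s k9 k11 0 (.s k6 k3 2 (.d k14 k13 k2 0 1)))))] (.c k128 (.q
  k191 [(.s k47 k31 3 (.s k165 k224 10 (.s k90 k240 14 (.d k74 k122 k133 3 10)))), (.s k12 k4 1 (.s
  k10 k5 2 (.s k9 k11 0 (.s k6 k3 2 (.d k14 k13 k2 0 1)))))] .n) (.c k191 (.l (.s k128 k64 7 (.s k5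
  k10 2 (.s k133 k74 10 (.s k69 k197 7 (.d k138 k143 k207 2 10)))))) .n))) (.c k90 (.l (.s k10 k5 2
  (.s k74 k133 10 (.s k138 k202 7 (.s k69 k207 10 (.d k64 k79 k128 2 7)))))) (.c k128 (.q k191 [(.s
  k47 k31 3 (.s k165 k224 10 (.s k90 k240 14 (.d k74 k122 k133 3 10)))), (.s k255 k127 7 (.s k175
  k95 11 (.s k159 k143 3 (.s k111 k207 11 (.d k47 k31 k239 3 7))))), (.s k5 k10 2 (.s k74 k133 10
  (.s k127 k255 7 (.s k85 k64 6 (.s k165 k245 11 (.d k90 k240 k122 14 3))))))] (.c k8 (.q k25 [(.s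
  k47 k31 3 (.s k165 k224 10 (.s k90 k240 14 (.d k74 k122 k133 3 10)))), (.s k255 k127 7 (.s k175
  k95 11 (.s k159 k143 3 (.s k111 k207 11 (.d k47 k31 k239 3 7))))), (.s k5 k10 2 (.s k74 k133 10
  (.s k127 k255 7 (.s k85 k64 6 (.s k165 k245 11 (.d k90 k240 k122 14 3))))))] (.c k89 (.q k251 [(.s
  k47 k31 3 (.s k165 k224 10 (.s k90 k240 14 (.d k74 k122 k133 3 10)))), (.s k255 k127 7 (.s k175
  k95 11 (.s k159 k143 3 (.s k111 k207 11 (.d k47 k31 k239 3 7))))), (.s k5 k10 2 (.s k74 k133 10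
  (.s k127 k255 7 (.s k85 k64 6 (.s k165 k245 11 (.d k90 k240 k122 14 3))))))] (.c k29 (.q k209 [(.s
  k255 k127 7 (.d k243 k247 k226 1 4)), (.s k47 k31 3 (.s k74 k133 10 (.s k165 k224 10 (.d k90 k122
  k240 3 14))))] .n) (.c k133 (.l (.s k5 k10 2 (.s k47 k31 3 (.s k165 k224 10 (.s k85 k245 11 (.d
  k127 k64 k255 6 7)))))) (.c k209 (.q k29 [(.s k12 k46 4 (.s k17 k21 1 (.d k51 k34 k38 4 6))), (.s
  k47 k31 3 (.s k74 k133 10 (.s k165 k224 10 (.d k90 k122 k240 3 14))))] .n) .n)))) (.c k133 (.l (.s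
  k5 k10 2 (.s k47 k31 3 (.s k165 k224 10 (.s k85 k245 11 (.d k127 k64 k255 6 7)))))) (.c k251 (.q
  k89 [(.s k47 k31 3 (.s k165 k224 10 (.s k90 k240 14 (.d k74 k122 k133 3 10)))), (.s k123 k72 4 (.s
  k243 k183 9 (.s k166 k12 14 (.d k226 k209 k46 4 9))))] (.c k123 (.q k187 [(.s k47 k31 3 (.s k165
  k224 10 (.s k90 k240 14 (.d k74 k122 k133 3 10)))), (.s k153 k217 7 (.s k179 k183 1 (.s k166 k140
  6 (.s k12 k243 14 (.d k46 k29 k226 4 9)))))] .n) (.c k187 (.l (.s k123 k72 4 (.s k243 k183 9 (.s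
  k166 k12 14 (.d k226 k209 k46 4 9))))) .n))) .n)))) (.c k25 (.q k8 [(.s k47 k31 3 (.s k165 k224 10
  (.s k90 k240 14 (.d k74 k122 k133 3 10)))), (.s k12 k4 1 (.s k10 k5 2 (.s k9 k11 0 (.s k6 k3 2 (.d
  k14 k13 k2 0 1)))))] .n) (.c k133 (.l (.s k5 k10 2 (.s k47 k31 3 (.s k165 k224 10 (.s k85 k245 11
  (.d k127 k64 k255 6 7)))))) .n)))) (.c k191 (.l (.s k128 k64 7 (.s k5 k10 2 (.s k133 k74 10 (.s
  k69 k197 7 (.d k138 k143 k207 2 10)))))) .n)))))))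

def t42_60 : T TT 256 :=
  (.f k192 k149 14 (.q k12 [(.s k46 k29 4 (.s k72 k132 9 (.s k166 k226 9 (.d k89 k123 k243 4 14)))),
  (.s k4 k8 1 (.s k128 k64 7 (.s k132 k72 9 (.s k68 k196 7 (.d k136 k140 k204 1 9))))), (.s k4 k8 1
  (.s k46 k29 4 (.s k166 k226 9 (.s k85 k247 12 (.d k64 k128 k127 7 6)))))] (.c k89 (.l (.s k8 k4 1
  (.s k72 k132 9 (.s k136 k200 7 (.s k68 k204 9 (.d k64 k76 k128 1 7)))))) (.c k128 (.q k191 [(.s
  k46 k29 4 (.s k166 k226 9 (.s k89 k243 14 (.d k72 k123 k132 4 9)))), (.s k255 k127 7 (.s k174 k93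
  12 (.s k157 k140 4 (.s k110 k204 12 (.d k46 k29 k238 4 7))))), (.s k4 k8 1 (.s k72 k132 9 (.s k127
  k255 7 (.s k85 k64 6 (.s k166 k247 12 (.d k89 k243 k123 14 4))))))] (.c k132 (.l (.s k4 k8 1 (.s
  k46 k29 4 (.s k166 k226 9 (.s k85 k247 12 (.d k127 k64 k255 6 7)))))) .n)) (.c k191 (.l (.s k128
  k64 7 (.s k4 k8 1 (.s k132 k72 9 (.s k68 k196 7 (.d k136 k140 k204 1 9)))))) .n)))))

def t42_61 : T TT 256 :=
  (.f k192 k149 14 (.q k195 [(.s k107 k151 13 (.s k105 k104 0 (.s k150 k60 14 (.d k194 k193 k62 0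
  13)))), (.s k128 k64 7 (.s k130 k65 8 (.s k129 k131 0 (.s k66 k3 8 (.d k194 k193 k2 0 7)))))] (.c
  k105 (.l (.s k193 k194 0 (.s k65 k130 8 (.s k129 k1 7 (.s k66 k3 8 (.d k64 k67 k128 0 7)))))) (.c
  k128 (.q k191 [(.s k107 k151 13 (.s k105 k104 0 (.s k150 k60 14 (.d k194 k193 k62 0 13)))), (.s
  k193 k194 0 (.s k65 k130 8 (.s k129 k1 7 (.s k66 k3 8 (.s k127 k255 7 (.d k64 k67 k85 0 6)))))),
  (.s k151 k107 13 (.s k255 k127 7 (.s k171 k131 5 (.s k87 k3 13 (.d k215 k235 k23 5 7)))))] (.c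
  k105 (.l (.s k193 k194 0 (.s k65 k130 8 (.s k129 k1 7 (.s k66 k3 8 (.s k127 k255 7 (.d k64 k67 k85
  0 6))))))) (.c k193 (.q k105 [(.d k107 k104 k151 0 13), (.s k65 k130 8 (.s k127 k255 7 (.d k85
  k125 k64 5 6)))] .n) .n))) (.c k191 (.l (.s k128 k64 7 (.s k130 k65 8 (.s k129 k131 0 (.s k66 k3 8
  (.d k194 k193 k2 0 7)))))) (.c k193 (.q k105 [(.d k107 k104 k151 0 13), (.s k65 k130 8 (.s k85
  k125 5 (.d k64 k128 k127 7 6)))] (.c k128 (.q k191 [(.d k107 k104 k151 0 13), (.s k65 k130 8 (.s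
  k127 k255 7 (.d k85 k125 k64 5 6)))] .n) (.c k191 (.l (.s k128 k64 7 (.d k107 k104 k151 0 13)))
  .n))) (.c k194 (.l (.s k65 k130 8 (.s k107 k151 13 (.s k105 k104 0 (.s k85 k125 5 (.d k64 k127
  k128 6 7)))))) .n)))))))

def t42_62 : T TT 256 :=
  (.f k192 k149 14 (.q k15 [(.s k47 k31 3 (.s k74 k133 10 (.s k165 k224 10 (.d k90 k122 k240 3
  14)))), (.s k5 k10 2 (.s k128 k64 7 (.s k133 k74 10 (.s k69 k197 7 (.d k138 k143 k207 2 10))))),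
  (.s k5 k10 2 (.s k47 k31 3 (.s k165 k224 10 (.s k85 k245 11 (.d k64 k128 k127 7 6)))))] (.c k2 (.q
  k22 [(.s k47 k31 3 (.s k74 k133 10 (.s k165 k224 10 (.d k90 k122 k240 3 14)))), (.s k5 k10 2 (.s
  k128 k64 7 (.s k133 k74 10 (.s k69 k197 7 (.d k138 k143 k207 2 10))))), (.s k5 k10 2 (.s k47 k31 3
  (.s k165 k224 10 (.s k85 k245 11 (.d k64 k128 k127 7 6)))))] (.c k86 (.q k254 [(.s k47 k31 3 (.s
  k74 k133 10 (.s k165 k224 10 (.d k90 k122 k240 3 14)))), (.s k5 k10 2 (.s k128 k64 7 (.s k133 k74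
  10 (.s k69 k197 7 (.d k138 k143 k207 2 10))))), (.s k5 k10 2 (.s k47 k31 3 (.s k165 k224 10 (.s
  k85 k245 11 (.d k64 k128 k127 7 6)))))] (.c k23 (.q k212 [(.s k74 k133 10 (.s k90 k122 3 (.s k165
  k240 14 (.d k47 k31 k224 3 10)))), (.s k5 k10 2 (.s k128 k64 7 (.s k133 k74 10 (.s k69 k197 7 (.d
  k138 k143 k207 2 10))))), (.s k5 k10 2 (.s k47 k31 3 (.s k165 k224 10 (.s k85 k245 11 (.d k64 k128
  k127 7 6)))))] (.c k90 (.l (.s k10 k5 2 (.s k74 k133 10 (.s k138 k202 7 (.s k69 k207 10 (.d k64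
  k79 k128 2 7)))))) (.c k128 (.q k191 [(.s k255 k127 7 (.d k252 k253 k232 0 5)), (.s k47 k31 3 (.s
  k74 k133 10 (.s k165 k224 10 (.d k90 k122 k240 3 14))))] .n) (.c k191 (.l (.s k128 k64 7 (.s k5
  k10 2 (.s k133 k74 10 (.s k69 k197 7 (.d k138 k143 k207 2 10)))))) .n)))) (.c k90 (.l (.s k10 k5 2
  (.s k74 k133 10 (.s k138 k202 7 (.s k69 k207 10 (.d k64 k79 k128 2 7)))))) (.c k128 (.q k191 [(.s
  k47 k31 3 (.s k165 k224 10 (.s k90 k240 14 (.d k74 k122 k133 3 10)))), (.s k255 k127 7 (.s k175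
  k95 11 (.s k159 k143 3 (.s k111 k207 11 (.d k47 k31 k239 3 7))))), (.s k5 k10 2 (.s k74 k133 10
  (.s k127 k255 7 (.s k85 k64 6 (.s k165 k245 11 (.d k90 k240 k122 14 3))))))] (.c k23 (.q k212 [(.s
  k255 k127 7 (.d k252 k253 k232 0 5)), (.s k47 k31 3 (.s k74 k133 10 (.s k165 k224 10 (.d k90 k122
  k240 3 14))))] .n) (.c k133 (.l (.s k5 k10 2 (.s k47 k31 3 (.s k165 k224 10 (.s k85 k245 11 (.d
  k127 k64 k255 6 7)))))) (.c k212 (.q k23 [(.s k3 k43 5 (.s k20 k21 0 (.d k60 k40 k41 5 6))), (.s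
  k47 k31 3 (.s k74 k133 10 (.s k165 k224 10 (.d k90 k122 k240 3 14))))] .n) .n)))) (.c k191 (.l (.s
  k128 k64 7 (.s k5 k10 2 (.s k133 k74 10 (.s k69 k197 7 (.d k138 k143 k207 2 10)))))) (.c k212 (.q
  k23 [(.s k3 k43 5 (.s k20 k21 0 (.d k60 k40 k41 5 6))), (.s k47 k31 3 (.s k74 k133 10 (.s k165
  k224 10 (.d k90 k122 k240 3 14))))] (.c k128 (.q k191 [(.s k3 k43 5 (.s k20 k21 0 (.d k60 k40 k41
  5 6))), (.s k47 k31 3 (.s k74 k133 10 (.s k165 k224 10 (.d k90 k122 k240 3 14))))] .n) (.c k191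
  (.l (.s k128 k64 7 (.s k3 k43 5 (.s k20 k21 0 (.d k60 k40 k41 5 6))))) .n))) .n)))))) (.c k90 (.l
  (.s k10 k5 2 (.s k74 k133 10 (.s k138 k202 7 (.s k69 k207 10 (.d k64 k79 k128 2 7)))))) (.c k128
  (.q k191 [(.s k47 k31 3 (.s k165 k224 10 (.s k90 k240 14 (.d k74 k122 k133 3 10)))), (.s k255 k127
  7 (.s k175 k95 11 (.s k159 k143 3 (.s k111 k207 11 (.d k47 k31 k239 3 7))))), (.s k5 k10 2 (.s k74
  k133 10 (.s k127 k255 7 (.s k85 k64 6 (.s k165 k245 11 (.d k90 k240 k122 14 3))))))] (.c k86 (.q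
  k254 [(.s k47 k31 3 (.s k165 k224 10 (.s k90 k240 14 (.d k74 k122 k133 3 10)))), (.s k255 k127 7
  (.s k175 k95 11 (.s k159 k143 3 (.s k111 k207 11 (.d k47 k31 k239 3 7))))), (.s k5 k10 2 (.s k74
  k133 10 (.s k127 k255 7 (.s k85 k64 6 (.s k165 k245 11 (.d k90 k240 k122 14 3))))))] (.c k23 (.q
  k212 [(.s k255 k127 7 (.d k252 k253 k232 0 5)), (.s k47 k31 3 (.s k74 k133 10 (.s k165 k224 10 (.d
  k90 k122 k240 3 14))))] .n) (.c k133 (.l (.s k5 k10 2 (.s k47 k31 3 (.s k165 k224 10 (.s k85 k245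
  11 (.d k127 k64 k255 6 7)))))) (.c k212 (.q k23 [(.s k3 k43 5 (.s k20 k21 0 (.d k60 k40 k41 5
  6))), (.s k47 k31 3 (.s k74 k133 10 (.s k165 k224 10 (.d k90 k122 k240 3 14))))] .n) .n)))) (.c
  k133 (.l (.s k5 k10 2 (.s k47 k31 3 (.s k165 k224 10 (.s k85 k245 11 (.d k127 k64 k255 6 7))))))
  (.c k254 (.q k86 [(.s k47 k31 3 (.s k165 k224 10 (.s k90 k240 14 (.d k74 k122 k133 3 10)))), (.s
  k126 k66 5 (.s k252 k189 8 (.s k169 k3 14 (.d k232 k212 k43 5 8))))] (.c k126 (.q k190 [(.s k47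
  k31 3 (.s k165 k224 10 (.s k90 k240 14 (.d k74 k122 k133 3 10)))), (.s k150 k214 7 (.s k188 k189 0
  (.s k169 k131 6 (.s k3 k252 14 (.d k43 k23 k232 5 8)))))] .n) (.c k190 (.l (.s k126 k66 5 (.s k252
  k189 8 (.s k169 k3 14 (.d k232 k212 k43 5 8))))) .n))) .n)))) (.c k191 (.l (.s k128 k64 7 (.s k5
  k10 2 (.s k133 k74 10 (.s k69 k197 7 (.d k138 k143 k207 2 10)))))) (.c k254 (.q k86 [(.s k47 k31 3
  (.s k74 k133 10 (.s k165 k224 10 (.d k90 k122 k240 3 14)))), (.s k126 k66 5 (.s k252 k189 8 (.s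
  k169 k3 14 (.d k232 k212 k43 5 8))))] (.c k126 (.q k190 [(.s k47 k31 3 (.s k74 k133 10 (.s k165
  k224 10 (.d k90 k122 k240 3 14)))), (.s k5 k10 2 (.s k128 k64 7 (.s k133 k74 10 (.s k69 k197 7 (.d
  k138 k143 k207 2 10))))), (.s k5 k10 2 (.s k47 k31 3 (.s k165 k224 10 (.s k85 k245 11 (.d k64 k128
  k127 7 6)))))] (.c k90 (.l (.s k10 k5 2 (.s k74 k133 10 (.s k138 k202 7 (.s k69 k207 10 (.d k64
  k79 k128 2 7)))))) (.c k128 (.q k191 [(.s k47 k31 3 (.s k165 k224 10 (.s k90 k240 14 (.d k74 k122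
  k133 3 10)))), (.s k150 k214 7 (.s k188 k189 0 (.s k169 k131 6 (.s k3 k252 14 (.d k43 k23 k232 5
  8)))))] .n) (.c k191 (.l (.s k128 k64 7 (.s k5 k10 2 (.s k133 k74 10 (.s k69 k197 7 (.d k138 k143
  k207 2 10)))))) .n)))) (.c k128 (.q k191 [(.s k47 k31 3 (.s k165 k224 10 (.s k90 k240 14 (.d k74
  k122 k133 3 10)))), (.s k126 k66 5 (.s k252 k189 8 (.s k169 k3 14 (.d k232 k212 k43 5 8))))] (.c
  k126 (.q k190 [(.s k47 k31 3 (.s k165 k224 10 (.s k90 k240 14 (.d k74 k122 k133 3 10)))), (.s k150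
  k214 7 (.s k188 k189 0 (.s k169 k131 6 (.s k3 k252 14 (.d k43 k23 k232 5 8)))))] .n) (.c k190 (.l
  (.s k126 k66 5 (.s k252 k189 8 (.s k169 k3 14 (.d k232 k212 k43 5 8))))) .n))) (.c k190 (.l (.s
  k126 k66 5 (.s k252 k189 8 (.s k169 k3 14 (.d k232 k212 k43 5 8))))) (.c k191 (.l (.s k128 k64 7
  (.s k5 k10 2 (.s k133 k74 10 (.s k69 k197 7 (.d k138 k143 k207 2 10)))))) .n))))) .n)))))) (.c k22
  (.q k2 [(.s k47 k31 3 (.s k74 k133 10 (.s k165 k224 10 (.d k90 k122 k240 3 14)))), (.s k3 k1 0 (.s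
  k10 k5 2 (.s k6 k14 1 (.s k9 k12 2 (.d k11 k8 k7 0 1)))))] (.c k128 (.q k191 [(.s k47 k31 3 (.s
  k165 k224 10 (.s k90 k240 14 (.d k74 k122 k133 3 10)))), (.s k3 k1 0 (.s k10 k5 2 (.s k6 k14 1 (.s
  k9 k12 2 (.d k11 k8 k7 0 1)))))] .n) (.c k191 (.l (.s k128 k64 7 (.s k5 k10 2 (.s k133 k74 10 (.s
  k69 k197 7 (.d k138 k143 k207 2 10)))))) .n))) (.c k90 (.l (.s k10 k5 2 (.s k74 k133 10 (.s k138
  k202 7 (.s k69 k207 10 (.d k64 k79 k128 2 7)))))) (.c k128 (.q k191 [(.s k47 k31 3 (.s k165 k224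
  10 (.s k90 k240 14 (.d k74 k122 k133 3 10)))), (.s k255 k127 7 (.s k175 k95 11 (.s k159 k143 3 (.s
  k111 k207 11 (.d k47 k31 k239 3 7))))), (.s k5 k10 2 (.s k74 k133 10 (.s k127 k255 7 (.s k85 k64 6
  (.s k165 k245 11 (.d k90 k240 k122 14 3))))))] (.c k2 (.q k22 [(.s k47 k31 3 (.s k165 k224 10 (.s
  k90 k240 14 (.d k74 k122 k133 3 10)))), (.s k255 k127 7 (.s k175 k95 11 (.s k159 k143 3 (.s k111
  k207 11 (.d k47 k31 k239 3 7))))), (.s k5 k10 2 (.s k74 k133 10 (.s k127 k255 7 (.s k85 k64 6 (.s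
  k165 k245 11 (.d k90 k240 k122 14 3))))))] (.c k86 (.q k254 [(.s k47 k31 3 (.s k165 k224 10 (.s
  k90 k240 14 (.d k74 k122 k133 3 10)))), (.s k255 k127 7 (.s k175 k95 11 (.s k159 k143 3 (.s k111
  k207 11 (.d k47 k31 k239 3 7))))), (.s k5 k10 2 (.s k74 k133 10 (.s k127 k255 7 (.s k85 k64 6 (.s
  k165 k245 11 (.d k90 k240 k122 14 3))))))] (.c k23 (.q k212 [(.s k255 k127 7 (.d k252 k253 k232 0
  5)), (.s k47 k31 3 (.s k74 k133 10 (.s k165 k224 10 (.d k90 k122 k240 3 14))))] .n) (.c k133 (.l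
  (.s k5 k10 2 (.s k47 k31 3 (.s k165 k224 10 (.s k85 k245 11 (.d k127 k64 k255 6 7)))))) (.c k212
  (.q k23 [(.s k3 k43 5 (.s k20 k21 0 (.d k60 k40 k41 5 6))), (.s k47 k31 3 (.s k74 k133 10 (.s k165
  k224 10 (.d k90 k122 k240 3 14))))] .n) .n)))) (.c k133 (.l (.s k5 k10 2 (.s k47 k31 3 (.s k165
  k224 10 (.s k85 k245 11 (.d k127 k64 k255 6 7)))))) (.c k254 (.q k86 [(.s k47 k31 3 (.s k165 k224
  10 (.s k90 k240 14 (.d k74 k122 k133 3 10)))), (.s k126 k66 5 (.s k252 k189 8 (.s k169 k3 14 (.d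
  k232 k212 k43 5 8))))] (.c k126 (.q k190 [(.s k47 k31 3 (.s k165 k224 10 (.s k90 k240 14 (.d k74
  k122 k133 3 10)))), (.s k150 k214 7 (.s k188 k189 0 (.s k169 k131 6 (.s k3 k252 14 (.d k43 k23
  k232 5 8)))))] .n) (.c k190 (.l (.s k126 k66 5 (.s k252 k189 8 (.s k169 k3 14 (.d k232 k212 k43 5
  8))))) .n))) .n)))) (.c k22 (.q k2 [(.s k47 k31 3 (.s k165 k224 10 (.s k90 k240 14 (.d k74 k122
  k133 3 10)))), (.s k3 k1 0 (.s k10 k5 2 (.s k6 k14 1 (.s k9 k12 2 (.d k11 k8 k7 0 1)))))] .n) (.c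
  k133 (.l (.s k5 k10 2 (.s k47 k31 3 (.s k165 k224 10 (.s k85 k245 11 (.d k127 k64 k255 6 7))))))
  .n)))) (.c k191 (.l (.s k128 k64 7 (.s k5 k10 2 (.s k133 k74 10 (.s k69 k197 7 (.d k138 k143 k207
  2 10)))))) .n)))))))

def t42_64 : T TT 256 :=
  (.f k149 k192 14 (.q k195 [(.s k151 k107 13 (.s k150 k148 0 (.s k60 k105 14 (.d k62 k61 k194 0
  13)))), (.s k107 k151 13 (.s k105 k104 0 (.s k60 k150 14 (.d k61 k62 k193 0 13))))] (.c k60 (.q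
  k105 [(.d k107 k104 k151 0 13), (.s k65 k130 8 (.s k193 k61 13 (.s k1 k129 7 (.s k85 k125 5 (.s
  k253 k169 13 (.d k213 k233 k21 5 7))))))] (.c k104 (.q k148 [(.d k151 k150 k107 0 13), (.s k65
  k130 8 (.s k193 k61 13 (.s k1 k129 7 (.s k85 k125 5 (.s k253 k169 13 (.d k213 k233 k21 5 7))))))]
  (.c k84 (.q k124 [(.d k151 k150 k107 0 13), (.s k86 k67 6 (.s k23 k212 8 (.s k3 k43 5 (.s k252
  k169 14 (.d k126 k66 k189 5 8)))))] .n) (.c k124 (.q k84 [(.d k151 k150 k107 0 13), (.s k252 k168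
  13 (.s k212 k20 7 (.s k86 k23 8 (.d k126 k66 k189 5 8))))] (.c k188 (.l (.s k252 k168 13 (.d k151
  k150 k107 0 13))) (.c k252 (.q k188 [(.d k151 k150 k107 0 13), (.s k65 k130 8 (.s k212 k20 7 (.s
  k86 k23 8 (.d k85 k87 k125 0 5))))] (.c k150 (.l (.s k212 k20 7 (.s k86 k23 8 (.s k85 k87 0 (.d
  k65 k125 k130 5 8))))) (.c k212 (.q k232 [(.d k151 k150 k107 0 13), (.s k130 k65 8 (.s k169 k43 8
  (.s k128 k168 5 (.d k129 k131 k189 0 5))))] .n) (.c k232 (.l (.s k212 k20 7 (.d k151 k150 k107 0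
  13))) .n)))) .n))) (.c k150 (.q k84 [(.s k212 k20 7 (.s k86 k23 8 (.s k85 k87 0 (.d k65 k130 k125
  8 5)))), (.s k252 k168 13 (.s k189 k126 8 (.s k169 k129 5 (.d k233 k214 k41 6 7))))] (.c k130 (.q
  k190 [(.s k252 k168 13 (.s k189 k126 8 (.s k233 k214 6 (.d k169 k129 k41 5 7)))), (.s k212 k20 7
  (.s k86 k23 8 (.s k107 k151 13 (.s k67 k124 6 (.d k87 k85 k127 0 5))))), (.s k252 k168 13 (.s k189
  k126 8 (.s k169 k129 5 (.d k233 k214 k41 6 7))))] (.c k252 (.l (.s k212 k20 7 (.s k23 k86 8 (.s k3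
  k43 5 (.s k131 k67 7 (.s k151 k107 13 (.s k171 k191 5 (.d k87 k215 k255 7 13)))))))) .n)) (.c k190
  (.l (.s k130 k65 8 (.s k252 k168 13 (.s k212 k20 7 (.s k86 k23 8 (.d k126 k66 k189 5 8)))))) .n)))
  .n)))) (.c k148 (.l (.s k104 k107 0 (.s k65 k130 8 (.s k193 k61 13 (.s k1 k129 7 (.s k85 k125 5
  (.s k253 k169 13 (.d k213 k233 k21 5 7)))))))) .n))) (.c k61 (.q k12 [(.s k29 k46 4 (.s k89 k209 9
  (.s k243 k166 14 (.d k123 k72 k183 4 9)))), (.s k8 k4 1 (.s k65 k130 8 (.s k73 k134 10 (.s k138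
  k203 8 (.d k69 k77 k207 1 10)))))] .n) (.c k62 (.q k86 [(.s k23 k212 8 (.s k126 k66 5 (.s k252
  k189 8 (.d k3 k43 k169 5 14)))), (.s k65 k130 8 (.s k107 k151 13 (.s k105 k104 0 (.s k125 k85 5
  (.s k124 k67 6 (.d k126 k127 k66 0 5)))))), (.s k23 k212 8 (.s k3 k43 5 (.s k67 k131 7 (.s k107
  k151 13 (.d k105 k104 k124 0 6)))))] (.c k2 (.q k22 [(.s k150 k214 7 (.d k151 k148 k107 0 13)),
  (.s k23 k212 8 (.s k3 k43 5 (.s k252 k169 14 (.d k126 k66 k189 5 8))))] .n) (.c k22 (.q k2 [(.s k3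
  k1 0 (.d k23 k43 k212 5 8)), (.s k130 k65 8 (.d k66 k126 k194 5 7))] .n) (.c k67 (.l (.s k23 k212
  8 (.s k3 k43 5 (.s k252 k169 14 (.d k126 k66 k189 5 8))))) .n)))) (.c k104 (.l (.s k151 k107 13
  (.s k150 k148 0 (.s k60 k105 14 (.d k62 k61 k194 0 13))))) (.c k105 (.q k23 [(.s k86 k212 8 (.s
  k126 k66 5 (.s k252 k189 8 (.d k3 k43 k169 5 14)))), (.s k3 k43 5 (.s k151 k107 13 (.s k87 k215 7
  (.s k171 k255 13 (.d k131 k191 k67 5 7))))), (.s k130 k65 8 (.s k86 k212 8 (.s k151 k107 13 (.s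
  k66 k126 5 (.s k194 k2 7 (.d k150 k62 k148 13 0))))))] (.c k40 (.q k235 [(.s k107 k151 13 (.d k43
  k3 k171 5 7)), (.s k86 k212 8 (.s k126 k66 5 (.s k252 k189 8 (.d k3 k43 k169 5 14))))] (.c k3 (.l
  (.s k151 k107 13 (.d k215 k255 k87 5 7))) (.c k41 (.l (.s k43 k3 5 (.d k107 k171 k151 7 13))) (.c
  k43 (.q k41 [(.s k151 k107 13 (.d k215 k255 k87 5 7)), (.s k86 k212 8 (.s k126 k66 5 (.s k252 k189
  8 (.s k3 k169 14 (.s k22 k60 6 (.d k214 k233 k150 6 7))))))] .n) .n)))) (.c k67 (.l (.s k3 k43 5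
  (.s k86 k212 8 (.s k252 k169 14 (.d k126 k66 k189 5 8))))) (.c k235 (.q k40 [(.s k60 k20 5 (.s k62
  k61 0 (.s k150 k194 13 (.d k151 k148 k107 0 13)))), (.s k86 k212 8 (.s k126 k66 5 (.s k252 k189 8
  (.d k3 k43 k169 5 14))))] .n) .n)))) (.c k107 (.q k12 [(.s k46 k29 4 (.s k166 k226 9 (.s k243 k89
  14 (.d k183 k132 k123 4 9)))), (.s k8 k4 1 (.s k65 k130 8 (.s k73 k134 10 (.s k138 k203 8 (.d k69
  k77 k207 1 10)))))] (.c k8 (.l (.s k29 k46 4 (.s k89 k209 9 (.s k243 k166 14 (.d k123 k72 k183 4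
  9))))) .n)) (.c k148 (.l (.s k107 k151 13 (.s k105 k104 0 (.s k60 k150 14 (.d k61 k62 k193 0
  13))))) (.c k150 (.q k12 [(.s k46 k29 4 (.s k166 k226 9 (.s k243 k89 14 (.d k183 k132 k123 4
  9)))), (.s k8 k4 1 (.s k73 k134 10 (.s k138 k203 8 (.s k69 k207 10 (.d k65 k130 k77 8 1)))))] (.c
  k8 (.l (.s k29 k46 4 (.s k89 k209 9 (.s k243 k166 14 (.d k123 k72 k183 4 9))))) (.c k130 (.q k190
  [(.s k46 k29 4 (.s k166 k226 9 (.s k243 k89 14 (.d k183 k132 k123 4 9)))), (.s k73 k134 10 (.s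
  k107 k151 13 (.s k105 k104 0 (.s k89 k121 3 (.s k123 k72 4 (.d k243 k166 k183 14 9)))))), (.s k46
  k29 4 (.s k166 k226 9 (.s k107 k151 13 (.s k105 k104 0 (.s k44 k227 10 (.s k61 k193 13 (.d k60 k62
  k28 0 3)))))))] (.c k166 (.l (.s k29 k46 4 (.s k89 k209 9 (.s k107 k151 13 (.s k105 k104 0 (.d k73
  k121 k134 3 10)))))) (.c k243 (.l (.s k29 k46 4 (.s k73 k134 10 (.s k107 k151 13 (.s k105 k104 0
  (.d k89 k121 k209 3 9)))))) .n))) (.c k166 (.l (.s k4 k8 1 (.s k130 k65 8 (.s k134 k73 10 (.s k69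
  k199 8 (.d k138 k142 k207 1 10)))))) (.c k190 (.l (.s k130 k65 8 (.s k4 k8 1 (.s k134 k73 10 (.s
  k69 k199 8 (.d k138 k142 k207 1 10)))))) .n))))) (.c k151 (.q k12 [(.s k46 k29 4 (.s k166 k226 9
  (.s k243 k89 14 (.d k183 k132 k123 4 9)))), (.s k8 k4 1 (.s k65 k130 8 (.s k73 k134 10 (.s k138
  k203 8 (.d k69 k77 k207 1 10)))))] (.c k8 (.l (.s k29 k46 4 (.s k89 k209 9 (.s k243 k166 14 (.d
  k123 k72 k183 4 9))))) .n)) .n)))))))))))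

def t42_65 : T TT 256 :=
  (.f k192 k149 14 (.q k15 [(.s k47 k31 3 (.s k74 k133 10 (.s k165 k224 10 (.d k90 k122 k240 3
  14)))), (.s k5 k10 2 (.s k128 k64 7 (.s k133 k74 10 (.s k69 k197 7 (.d k138 k143 k207 2 10))))),
  (.s k5 k10 2 (.s k47 k31 3 (.s k165 k224 10 (.s k85 k245 11 (.d k64 k128 k127 7 6)))))] (.c k90
  (.l (.s k10 k5 2 (.s k74 k133 10 (.s k138 k202 7 (.s k69 k207 10 (.d k64 k79 k128 2 7)))))) (.c
  k128 (.q k191 [(.s k47 k31 3 (.s k165 k224 10 (.s k90 k240 14 (.d k74 k122 k133 3 10)))), (.s k255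
  k127 7 (.s k175 k95 11 (.s k159 k143 3 (.s k111 k207 11 (.d k47 k31 k239 3 7))))), (.s k5 k10 2
  (.s k74 k133 10 (.s k127 k255 7 (.s k85 k64 6 (.s k165 k245 11 (.d k90 k240 k122 14 3))))))] (.c
  k133 (.l (.s k5 k10 2 (.s k47 k31 3 (.s k165 k224 10 (.s k85 k245 11 (.d k127 k64 k255 6 7))))))
  .n)) (.c k191 (.l (.s k128 k64 7 (.s k5 k10 2 (.s k133 k74 10 (.s k69 k197 7 (.d k138 k143 k207 2
  10)))))) .n)))))

def t42_66 : T TT 256 :=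
  (.f k192 k149 14 (.q k15 [(.s k47 k31 3 (.s k74 k133 10 (.s k165 k224 10 (.d k90 k122 k240 3
  14)))), (.s k5 k10 2 (.s k128 k64 7 (.s k133 k74 10 (.s k69 k197 7 (.d k138 k143 k207 2 10))))),
  (.s k5 k10 2 (.s k47 k31 3 (.s k165 k224 10 (.s k85 k245 11 (.d k64 k128 k127 7 6)))))] (.c k90
  (.l (.s k10 k5 2 (.s k74 k133 10 (.s k138 k202 7 (.s k69 k207 10 (.d k64 k79 k128 2 7)))))) (.c
  k128 (.q k191 [(.s k47 k31 3 (.s k165 k224 10 (.s k90 k240 14 (.d k74 k122 k133 3 10)))), (.s k255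
  k127 7 (.s k175 k95 11 (.s k159 k143 3 (.s k111 k207 11 (.d k47 k31 k239 3 7))))), (.s k5 k10 2
  (.s k74 k133 10 (.s k127 k255 7 (.s k85 k64 6 (.s k165 k245 11 (.d k90 k240 k122 14 3))))))] (.c
  k133 (.l (.s k5 k10 2 (.s k47 k31 3 (.s k165 k224 10 (.s k85 k245 11 (.d k127 k64 k255 6 7))))))
  .n)) (.c k191 (.l (.s k128 k64 7 (.s k5 k10 2 (.s k133 k74 10 (.s k69 k197 7 (.d k138 k143 k207 2
  10)))))) .n)))))

def t42_67 : T TT 256 :=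
  (.f k192 k149 14 (.q k15 [(.s k47 k31 3 (.s k74 k133 10 (.s k165 k224 10 (.d k90 k122 k240 3
  14)))), (.s k5 k10 2 (.s k128 k64 7 (.s k133 k74 10 (.s k69 k197 7 (.d k138 k143 k207 2 10))))),
  (.s k5 k10 2 (.s k47 k31 3 (.s k165 k224 10 (.s k85 k245 11 (.d k64 k128 k127 7 6)))))] (.c k90
  (.l (.s k10 k5 2 (.s k74 k133 10 (.s k138 k202 7 (.s k69 k207 10 (.d k64 k79 k128 2 7)))))) (.c
  k128 (.q k191 [(.s k47 k31 3 (.s k165 k224 10 (.s k90 k240 14 (.d k74 k122 k133 3 10)))), (.s k255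
  k127 7 (.s k175 k95 11 (.s k159 k143 3 (.s k111 k207 11 (.d k47 k31 k239 3 7))))), (.s k5 k10 2
  (.s k74 k133 10 (.s k127 k255 7 (.s k85 k64 6 (.s k165 k245 11 (.d k90 k240 k122 14 3))))))] (.c
  k133 (.l (.s k5 k10 2 (.s k47 k31 3 (.s k165 k224 10 (.s k85 k245 11 (.d k127 k64 k255 6 7))))))
  .n)) (.c k191 (.l (.s k128 k64 7 (.s k5 k10 2 (.s k133 k74 10 (.s k69 k197 7 (.d k138 k143 k207 2
  10)))))) .n)))))

def t42_68 : T TT 256 :=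
  (.f k192 k149 14 (.q k15 [(.s k47 k31 3 (.s k74 k133 10 (.s k165 k224 10 (.d k90 k122 k240 3
  14)))), (.s k5 k10 2 (.s k128 k64 7 (.s k133 k74 10 (.s k69 k197 7 (.d k138 k143 k207 2 10))))),
  (.s k5 k10 2 (.s k47 k31 3 (.s k165 k224 10 (.s k85 k245 11 (.d k64 k128 k127 7 6)))))] (.c k90
  (.l (.s k10 k5 2 (.s k74 k133 10 (.s k138 k202 7 (.s k69 k207 10 (.d k64 k79 k128 2 7)))))) (.c
  k128 (.q k191 [(.s k47 k31 3 (.s k165 k224 10 (.s k90 k240 14 (.d k74 k122 k133 3 10)))), (.s k255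
  k127 7 (.s k175 k95 11 (.s k159 k143 3 (.s k111 k207 11 (.d k47 k31 k239 3 7))))), (.s k5 k10 2
  (.s k74 k133 10 (.s k127 k255 7 (.s k85 k64 6 (.s k165 k245 11 (.d k90 k240 k122 14 3))))))] (.c
  k133 (.l (.s k5 k10 2 (.s k47 k31 3 (.s k165 k224 10 (.s k85 k245 11 (.d k127 k64 k255 6 7))))))
  .n)) (.c k191 (.l (.s k128 k64 7 (.s k5 k10 2 (.s k133 k74 10 (.s k69 k197 7 (.d k138 k143 k207 2
  10)))))) .n)))))

def t42_69 : T TT 256 :=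
  (.f k192 k149 14 (.q k51 [(.s k59 k55 1 (.s k98 k145 12 (.s k153 k200 12 (.d k102 k110 k204 1
  14)))), (.s k17 k34 4 (.s k128 k64 7 (.s k145 k98 12 (.s k81 k209 7 (.d k162 k179 k243 4 12))))),
  (.s k17 k34 4 (.s k59 k55 1 (.s k153 k200 12 (.s k85 k221 9 (.d k64 k128 k127 7 6)))))] (.c k102
  (.l (.s k34 k17 4 (.s k98 k145 12 (.s k162 k226 7 (.s k81 k243 12 (.d k64 k115 k128 4 7)))))) (.c
  k128 (.q k191 [(.s k59 k55 1 (.s k153 k200 12 (.s k102 k204 14 (.d k98 k110 k145 1 12)))), (.s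
  k255 k127 7 (.s k187 k119 9 (.s k183 k179 1 (.s k123 k243 9 (.d k59 k55 k251 1 7))))), (.s k17 k34
  4 (.s k98 k145 12 (.s k127 k255 7 (.s k85 k64 6 (.s k153 k221 9 (.d k102 k204 k110 14 1))))))] (.c
  k145 (.l (.s k17 k34 4 (.s k59 k55 1 (.s k153 k200 12 (.s k85 k221 9 (.d k127 k64 k255 6 7))))))
  .n)) (.c k191 (.l (.s k128 k64 7 (.s k17 k34 4 (.s k145 k98 12 (.s k81 k209 7 (.d k162 k179 k243 4
  12)))))) .n)))))

def t42_70 : T TT 256 :=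
  (.f k192 k149 14 (.q k51 [(.s k59 k55 1 (.s k98 k145 12 (.s k153 k200 12 (.d k102 k110 k204 1
  14)))), (.s k17 k34 4 (.s k128 k64 7 (.s k145 k98 12 (.s k81 k209 7 (.d k162 k179 k243 4 12))))),
  (.s k17 k34 4 (.s k59 k55 1 (.s k153 k200 12 (.s k85 k221 9 (.d k64 k128 k127 7 6)))))] (.c k102
  (.l (.s k34 k17 4 (.s k98 k145 12 (.s k162 k226 7 (.s k81 k243 12 (.d k64 k115 k128 4 7)))))) (.c
  k128 (.q k191 [(.s k59 k55 1 (.s k153 k200 12 (.s k102 k204 14 (.d k98 k110 k145 1 12)))), (.s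
  k255 k127 7 (.s k187 k119 9 (.s k183 k179 1 (.s k123 k243 9 (.d k59 k55 k251 1 7))))), (.s k17 k34
  4 (.s k98 k145 12 (.s k127 k255 7 (.s k85 k64 6 (.s k153 k221 9 (.d k102 k204 k110 14 1))))))] (.c
  k145 (.l (.s k17 k34 4 (.s k59 k55 1 (.s k153 k200 12 (.s k85 k221 9 (.d k127 k64 k255 6 7))))))
  .n)) (.c k191 (.l (.s k128 k64 7 (.s k17 k34 4 (.s k145 k98 12 (.s k81 k209 7 (.d k162 k179 k243 4
  12)))))) .n)))))

def t42_71 : T TT 256 :=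
  (.f k192 k149 14 (.q k51 [(.s k59 k55 1 (.s k98 k145 12 (.s k153 k200 12 (.d k102 k110 k204 1
  14)))), (.s k17 k34 4 (.s k128 k64 7 (.s k145 k98 12 (.s k81 k209 7 (.d k162 k179 k243 4 12))))),
  (.s k17 k34 4 (.s k59 k55 1 (.s k153 k200 12 (.s k85 k221 9 (.d k64 k128 k127 7 6)))))] (.c k102
  (.l (.s k34 k17 4 (.s k98 k145 12 (.s k162 k226 7 (.s k81 k243 12 (.d k64 k115 k128 4 7)))))) (.c
  k128 (.q k191 [(.s k59 k55 1 (.s k153 k200 12 (.s k102 k204 14 (.d k98 k110 k145 1 12)))), (.s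
  k255 k127 7 (.s k187 k119 9 (.s k183 k179 1 (.s k123 k243 9 (.d k59 k55 k251 1 7))))), (.s k17 k34
  4 (.s k98 k145 12 (.s k127 k255 7 (.s k85 k64 6 (.s k153 k221 9 (.d k102 k204 k110 14 1))))))] (.c
  k145 (.l (.s k17 k34 4 (.s k59 k55 1 (.s k153 k200 12 (.s k85 k221 9 (.d k127 k64 k255 6 7))))))
  .n)) (.c k191 (.l (.s k128 k64 7 (.s k17 k34 4 (.s k145 k98 12 (.s k81 k209 7 (.d k162 k179 k243 4
  12)))))) .n)))))

def t42_72 : T TT 256 :=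
  (.f k192 k149 14 (.q k51 [(.s k59 k55 1 (.s k98 k145 12 (.s k102 k110 1 (.d k153 k200 k204 12
  14)))), (.s k17 k34 4 (.s k128 k64 7 (.s k145 k98 12 (.s k81 k209 7 (.d k162 k179 k243 4 12))))),
  (.s k17 k34 4 (.s k59 k55 1 (.s k153 k200 12 (.s k85 k221 9 (.d k64 k128 k127 7 6)))))] (.c k102
  (.l (.s k34 k17 4 (.s k98 k145 12 (.s k162 k226 7 (.s k81 k243 12 (.d k64 k115 k128 4 7)))))) (.c
  k128 (.q k191 [(.s k59 k55 1 (.s k153 k200 12 (.s k102 k204 14 (.d k98 k110 k145 1 12)))), (.s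
  k255 k127 7 (.s k187 k119 9 (.s k183 k179 1 (.s k123 k243 9 (.d k59 k55 k251 1 7))))), (.s k17 k34
  4 (.s k98 k145 12 (.s k127 k255 7 (.s k85 k64 6 (.s k153 k221 9 (.d k102 k204 k110 14 1))))))] (.c
  k145 (.l (.s k17 k34 4 (.s k59 k55 1 (.s k153 k200 12 (.s k85 k221 9 (.d k127 k64 k255 6 7))))))
  .n)) (.c k191 (.l (.s k128 k64 7 (.s k17 k34 4 (.s k145 k98 12 (.s k81 k209 7 (.d k162 k179 k243 4
  12)))))) .n)))))

def t42_73 : T TT 256 :=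
  (.f k192 k149 14 (.q k51 [(.s k59 k55 1 (.s k98 k145 12 (.s k153 k200 12 (.d k102 k110 k204 1
  14)))), (.s k17 k34 4 (.s k128 k64 7 (.s k145 k98 12 (.s k81 k209 7 (.d k162 k179 k243 4 12))))),
  (.s k17 k34 4 (.s k59 k55 1 (.s k153 k200 12 (.s k85 k221 9 (.d k64 k128 k127 7 6)))))] (.c k102
  (.l (.s k34 k17 4 (.s k98 k145 12 (.s k162 k226 7 (.s k81 k243 12 (.d k64 k115 k128 4 7)))))) (.c
  k128 (.q k191 [(.s k59 k55 1 (.s k153 k200 12 (.s k102 k204 14 (.d k98 k110 k145 1 12)))), (.s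
  k255 k127 7 (.s k187 k119 9 (.s k183 k179 1 (.s k123 k243 9 (.d k59 k55 k251 1 7))))), (.s k17 k34
  4 (.s k98 k145 12 (.s k127 k255 7 (.s k85 k64 6 (.s k153 k221 9 (.d k102 k204 k110 14 1))))))] (.c
  k145 (.l (.s k17 k34 4 (.s k59 k55 1 (.s k153 k200 12 (.s k85 k221 9 (.d k127 k64 k255 6 7))))))
  .n)) (.c k191 (.l (.s k128 k64 7 (.s k17 k34 4 (.s k145 k98 12 (.s k81 k209 7 (.d k162 k179 k243 4
  12)))))) .n)))))

def t42_74 : T TT 256 :=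
  (.f k192 k149 14 (.q k51 [(.s k59 k55 1 (.s k98 k145 12 (.s k102 k110 1 (.d k153 k200 k204 12
  14)))), (.s k17 k34 4 (.s k128 k64 7 (.s k145 k98 12 (.s k81 k209 7 (.d k162 k179 k243 4 12))))),
  (.s k17 k34 4 (.s k59 k55 1 (.s k153 k200 12 (.s k85 k221 9 (.d k64 k128 k127 7 6)))))] (.c k102
  (.l (.s k34 k17 4 (.s k98 k145 12 (.s k162 k226 7 (.s k81 k243 12 (.d k64 k115 k128 4 7)))))) (.c
  k128 (.q k191 [(.s k59 k55 1 (.s k153 k200 12 (.s k102 k204 14 (.d k98 k110 k145 1 12)))), (.s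
  k255 k127 7 (.s k187 k119 9 (.s k183 k179 1 (.s k123 k243 9 (.d k59 k55 k251 1 7))))), (.s k17 k34
  4 (.s k98 k145 12 (.s k127 k255 7 (.s k85 k64 6 (.s k153 k221 9 (.d k102 k204 k110 14 1))))))] (.c
  k145 (.l (.s k17 k34 4 (.s k59 k55 1 (.s k153 k200 12 (.s k85 k221 9 (.d k127 k64 k255 6 7))))))
  .n)) (.c k191 (.l (.s k128 k64 7 (.s k17 k34 4 (.s k145 k98 12 (.s k81 k209 7 (.d k162 k179 k243 4
  12)))))) .n)))))

def t42_75 : T TT 256 :=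
  (.f k192 k149 14 (.q k51 [(.s k59 k55 1 (.s k98 k145 12 (.s k153 k200 12 (.d k102 k110 k204 1
  14)))), (.s k17 k34 4 (.s k128 k64 7 (.s k145 k98 12 (.s k81 k209 7 (.d k162 k179 k243 4 12))))),
  (.s k17 k34 4 (.s k59 k55 1 (.s k153 k200 12 (.s k85 k221 9 (.d k64 k128 k127 7 6)))))] (.c k102
  (.l (.s k34 k17 4 (.s k98 k145 12 (.s k162 k226 7 (.s k81 k243 12 (.d k64 k115 k128 4 7)))))) (.c
  k128 (.q k191 [(.s k59 k55 1 (.s k153 k200 12 (.s k102 k204 14 (.d k98 k110 k145 1 12)))), (.s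
  k255 k127 7 (.s k187 k119 9 (.s k183 k179 1 (.s k123 k243 9 (.d k59 k55 k251 1 7))))), (.s k17 k34
  4 (.s k98 k145 12 (.s k127 k255 7 (.s k85 k64 6 (.s k153 k221 9 (.d k102 k204 k110 14 1))))))] (.c
  k145 (.l (.s k17 k34 4 (.s k59 k55 1 (.s k153 k200 12 (.s k85 k221 9 (.d k127 k64 k255 6 7))))))
  .n)) (.c k191 (.l (.s k128 k64 7 (.s k17 k34 4 (.s k145 k98 12 (.s k81 k209 7 (.d k162 k179 k243 4
  12)))))) .n)))))

def t42_76 : T TT 256 :=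
  (.f k192 k149 14 (.q k3 [(.s k43 k23 5 (.s k66 k129 8 (.s k169 k232 8 (.d k86 k126 k252 5 14)))),
  (.s k1 k2 0 (.s k128 k64 7 (.s k129 k66 8 (.s k65 k193 7 (.d k130 k131 k195 0 8))))), (.s k1 k2 0
  (.s k43 k23 5 (.s k169 k232 8 (.s k85 k253 13 (.d k64 k128 k127 7 6)))))] (.c k86 (.l (.s k2 k1 0
  (.s k66 k129 8 (.s k130 k194 7 (.s k65 k195 8 (.d k64 k67 k128 0 7)))))) (.c k128 (.q k191 [(.s
  k43 k23 5 (.s k169 k232 8 (.s k86 k252 14 (.d k66 k126 k129 5 8)))), (.s k255 k127 7 (.s k171 k87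
  13 (.s k151 k131 5 (.s k107 k195 13 (.d k43 k23 k235 5 7))))), (.s k1 k2 0 (.s k66 k129 8 (.s k127
  k255 7 (.s k85 k64 6 (.s k169 k253 13 (.d k86 k252 k126 14 5))))))] (.c k129 (.l (.s k1 k2 0 (.s
  k43 k23 5 (.s k169 k232 8 (.s k85 k253 13 (.d k127 k64 k255 6 7)))))) .n)) (.c k191 (.l (.s k128
  k64 7 (.s k1 k2 0 (.s k129 k66 8 (.s k65 k193 7 (.d k130 k131 k195 0 8)))))) .n)))))

def t42_77 : T TT 256 :=
  (.f k192 k149 14 (.q k51 [(.s k59 k55 1 (.s k98 k145 12 (.s k153 k200 12 (.d k102 k110 k204 1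
  14)))), (.s k17 k34 4 (.s k128 k64 7 (.s k145 k98 12 (.s k81 k209 7 (.d k162 k179 k243 4 12))))),
  (.s k17 k34 4 (.s k59 k55 1 (.s k153 k200 12 (.s k85 k221 9 (.d k64 k128 k127 7 6)))))] (.c k102
  (.l (.s k34 k17 4 (.s k98 k145 12 (.s k162 k226 7 (.s k81 k243 12 (.d k64 k115 k128 4 7)))))) (.c
  k128 (.q k191 [(.s k59 k55 1 (.s k153 k200 12 (.s k102 k204 14 (.d k98 k110 k145 1 12)))), (.s
  k255 k127 7 (.s k187 k119 9 (.s k183 k179 1 (.s k123 k243 9 (.d k59 k55 k251 1 7))))), (.s k17 k34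
  4 (.s k98 k145 12 (.s k127 k255 7 (.s k85 k64 6 (.s k153 k221 9 (.d k102 k204 k110 14 1))))))] (.c
  k145 (.l (.s k17 k34 4 (.s k59 k55 1 (.s k153 k200 12 (.s k85 k221 9 (.d k127 k64 k255 6 7))))))
  .n)) (.c k191 (.l (.s k128 k64 7 (.s k17 k34 4 (.s k145 k98 12 (.s k81 k209 7 (.d k162 k179 k243 4
  12)))))) .n)))))

def t42_78 : T TT 256 :=
  (.f k192 k149 14 (.q k3 [(.s k43 k23 5 (.s k66 k129 8 (.s k169 k232 8 (.d k86 k126 k252 5 14)))),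
  (.s k1 k2 0 (.s k128 k64 7 (.s k129 k66 8 (.s k65 k193 7 (.d k130 k131 k195 0 8))))), (.s k1 k2 0
  (.s k43 k23 5 (.s k169 k232 8 (.s k85 k253 13 (.d k64 k128 k127 7 6)))))] (.c k86 (.l (.s k2 k1 0
  (.s k66 k129 8 (.s k130 k194 7 (.s k65 k195 8 (.d k64 k67 k128 0 7)))))) (.c k128 (.q k191 [(.s
  k43 k23 5 (.s k169 k232 8 (.s k86 k252 14 (.d k66 k126 k129 5 8)))), (.s k255 k127 7 (.s k171 k87
  13 (.s k151 k131 5 (.s k107 k195 13 (.d k43 k23 k235 5 7))))), (.s k1 k2 0 (.s k66 k129 8 (.s k127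
  k255 7 (.s k85 k64 6 (.s k169 k253 13 (.d k86 k252 k126 14 5))))))] (.c k129 (.l (.s k1 k2 0 (.s
  k43 k23 5 (.s k169 k232 8 (.s k85 k253 13 (.d k127 k64 k255 6 7)))))) .n)) (.c k191 (.l (.s k128
  k64 7 (.s k1 k2 0 (.s k129 k66 8 (.s k65 k193 7 (.d k130 k131 k195 0 8)))))) .n)))))

def t42_79 : T TT 256 :=
  (.f k192 k149 14 (.q k3 [(.s k43 k23 5 (.s k66 k129 8 (.s k169 k232 8 (.d k86 k126 k252 5 14)))),
  (.s k1 k2 0 (.s k128 k64 7 (.s k129 k66 8 (.s k65 k193 7 (.d k130 k131 k195 0 8))))), (.s k1 k2 0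
  (.s k43 k23 5 (.s k169 k232 8 (.s k85 k253 13 (.d k64 k128 k127 7 6)))))] (.c k86 (.l (.s k2 k1 0
  (.s k66 k129 8 (.s k130 k194 7 (.s k65 k195 8 (.d k64 k67 k128 0 7)))))) (.c k128 (.q k191 [(.s
  k43 k23 5 (.s k169 k232 8 (.s k86 k252 14 (.d k66 k126 k129 5 8)))), (.s k255 k127 7 (.s k171 k87
  13 (.s k151 k131 5 (.s k107 k195 13 (.d k43 k23 k235 5 7))))), (.s k1 k2 0 (.s k66 k129 8 (.s k127
  k255 7 (.s k85 k64 6 (.s k169 k253 13 (.d k86 k252 k126 14 5))))))] (.c k129 (.l (.s k1 k2 0 (.s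
  k43 k23 5 (.s k169 k232 8 (.s k85 k253 13 (.d k127 k64 k255 6 7)))))) .n)) (.c k191 (.l (.s k128
  k64 7 (.s k1 k2 0 (.s k129 k66 8 (.s k65 k193 7 (.d k130 k131 k195 0 8)))))) .n)))))

def t42_80 : T TT 256 :=
  (.f k192 k149 14 (.q k51 [(.s k59 k55 1 (.s k98 k145 12 (.s k153 k200 12 (.d k102 k110 k204 1
  14)))), (.s k17 k34 4 (.s k128 k64 7 (.s k145 k98 12 (.s k81 k209 7 (.d k162 k179 k243 4 12))))),
  (.s k17 k34 4 (.s k59 k55 1 (.s k153 k200 12 (.s k85 k221 9 (.d k64 k128 k127 7 6)))))] (.c k102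
  (.l (.s k34 k17 4 (.s k98 k145 12 (.s k162 k226 7 (.s k81 k243 12 (.d k64 k115 k128 4 7)))))) (.c
  k128 (.q k191 [(.s k59 k55 1 (.s k153 k200 12 (.s k102 k204 14 (.d k98 k110 k145 1 12)))), (.s
  k255 k127 7 (.s k187 k119 9 (.s k183 k179 1 (.s k123 k243 9 (.d k59 k55 k251 1 7))))), (.s k17 k34
  4 (.s k98 k145 12 (.s k127 k255 7 (.s k85 k64 6 (.s k153 k221 9 (.d k102 k204 k110 14 1))))))] (.c
  k145 (.l (.s k17 k34 4 (.s k59 k55 1 (.s k153 k200 12 (.s k85 k221 9 (.d k127 k64 k255 6 7))))))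
  .n)) (.c k191 (.l (.s k128 k64 7 (.s k17 k34 4 (.s k145 k98 12 (.s k81 k209 7 (.d k162 k179 k243 4
  12)))))) .n)))))

def t42_81 : T TT 256 :=
  (.f k192 k149 14 (.q k3 [(.s k43 k23 5 (.s k66 k129 8 (.s k169 k232 8 (.d k86 k126 k252 5 14)))),
  (.s k1 k2 0 (.s k128 k64 7 (.s k129 k66 8 (.s k65 k193 7 (.d k130 k131 k195 0 8))))), (.s k1 k2 0
  (.s k43 k23 5 (.s k169 k232 8 (.s k85 k253 13 (.d k64 k128 k127 7 6)))))] (.c k86 (.l (.s k2 k1 0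
  (.s k66 k129 8 (.s k130 k194 7 (.s k65 k195 8 (.d k64 k67 k128 0 7)))))) (.c k128 (.q k191 [(.s
  k43 k23 5 (.s k169 k232 8 (.s k86 k252 14 (.d k66 k126 k129 5 8)))), (.s k255 k127 7 (.s k171 k87
  13 (.s k151 k131 5 (.s k107 k195 13 (.d k43 k23 k235 5 7))))), (.s k1 k2 0 (.s k66 k129 8 (.s k127
  k255 7 (.s k85 k64 6 (.s k169 k253 13 (.d k86 k252 k126 14 5))))))] (.c k129 (.l (.s k1 k2 0 (.s
  k43 k23 5 (.s k169 k232 8 (.s k85 k253 13 (.d k127 k64 k255 6 7)))))) .n)) (.c k191 (.l (.s k128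
  k64 7 (.s k1 k2 0 (.s k129 k66 8 (.s k65 k193 7 (.d k130 k131 k195 0 8)))))) .n)))))

def t42_82 : T TT 256 :=
  (.q k195 [(.s k149 k192 14 (.s k107 k151 13 (.s k105 k104 0 (.s k61 k193 13 (.d k60 k62 k150 0
  14))))), (.s k130 k65 8 (.s k192 k149 14 (.s k128 k64 7 (.s k129 k131 0 (.s k66 k3 8 (.d k194 k193
  k2 0 7))))))] (.c k149 (.q k191 [(.s k65 k130 8 (.s k107 k151 13 (.s k127 k255 7 (.s k85 k64 6 (.d
  k105 k104 k125 0 5))))), (.s k151 k107 13 (.s k255 k127 7 (.s k171 k131 5 (.s k87 k3 13 (.d k215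
  k235 k23 5 7))))), (.s k65 k130 8 (.s k127 k255 7 (.s k64 k85 6 (.s k192 k128 7 (.s k66 k67 0 (.s
  k129 k3 8 (.d k193 k194 k1 0 7)))))))] (.c k127 (.q k105 [(.d k107 k104 k151 0 13), (.s k130 k65 8
  (.s k150 k60 14 (.s k194 k62 13 (.s k192 k193 0 (.s k128 k64 7 (.s k129 k131 0 (.d k66 k2 k3 7
  8)))))))] .n) (.c k255 (.l (.s k130 k65 8 (.s k151 k107 13 (.s k131 k171 5 (.s k3 k67 7 (.s k2 k1
  0 (.s k66 k194 7 (.d k129 k128 k192 0 8)))))))) .n))) (.c k192 (.q k105 [(.d k107 k104 k151 0 13),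
  (.s k65 k130 8 (.s k85 k125 5 (.s k127 k64 6 (.s k255 k191 7 (.s k215 k235 5 (.d k150 k20 k60 8
  14))))))] .n) (.c k193 (.l (.s k149 k192 14 (.s k151 k107 13 (.s k150 k148 0 (.s k60 k105 14 (.d
  k62 k61 k194 0 13)))))) .n))))

def t42_83 : T TT 256 :=
  (.f k192 k149 14 (.q k51 [(.s k59 k55 1 (.s k98 k145 12 (.s k153 k200 12 (.d k102 k110 k204 1
  14)))), (.s k17 k34 4 (.s k128 k64 7 (.s k145 k98 12 (.s k81 k209 7 (.d k162 k179 k243 4 12))))),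
  (.s k17 k34 4 (.s k59 k55 1 (.s k153 k200 12 (.s k85 k221 9 (.d k64 k128 k127 7 6)))))] (.c k102
  (.l (.s k34 k17 4 (.s k98 k145 12 (.s k162 k226 7 (.s k81 k243 12 (.d k64 k115 k128 4 7)))))) (.c
  k128 (.q k191 [(.s k59 k55 1 (.s k153 k200 12 (.s k102 k204 14 (.d k98 k110 k145 1 12)))), (.s
  k255 k127 7 (.s k187 k119 9 (.s k183 k179 1 (.s k123 k243 9 (.d k59 k55 k251 1 7))))), (.s k17 k34
  4 (.s k98 k145 12 (.s k127 k255 7 (.s k85 k64 6 (.s k153 k221 9 (.d k102 k204 k110 14 1))))))] (.c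
  k145 (.l (.s k17 k34 4 (.s k59 k55 1 (.s k153 k200 12 (.s k85 k221 9 (.d k127 k64 k255 6 7))))))
  .n)) (.c k191 (.l (.s k128 k64 7 (.s k17 k34 4 (.s k145 k98 12 (.s k81 k209 7 (.d k162 k179 k243 4
  12)))))) .n)))))

def t42_84 : T TT 256 :=
  (.f k192 k149 14 (.q k3 [(.s k43 k23 5 (.s k66 k129 8 (.s k169 k232 8 (.d k86 k126 k252 5 14)))),
  (.s k1 k2 0 (.s k128 k64 7 (.s k129 k66 8 (.s k65 k193 7 (.d k130 k131 k195 0 8))))), (.s k1 k2 0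
  (.s k43 k23 5 (.s k169 k232 8 (.s k85 k253 13 (.d k64 k128 k127 7 6)))))] (.c k86 (.l (.s k2 k1 0
  (.s k66 k129 8 (.s k130 k194 7 (.s k65 k195 8 (.d k64 k67 k128 0 7)))))) (.c k128 (.q k191 [(.s
  k43 k23 5 (.s k169 k232 8 (.s k86 k252 14 (.d k66 k126 k129 5 8)))), (.s k2 k1 0 (.s k66 k129 8
  (.s k130 k194 7 (.s k65 k195 8 (.s k127 k255 7 (.d k64 k67 k85 0 6)))))), (.s k43 k23 5 (.s k255
  k127 7 (.s k171 k87 13 (.s k107 k235 7 (.d k151 k131 k195 5 13)))))] .n) (.c k191 (.l (.s k128 k64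
  7 (.s k1 k2 0 (.s k129 k66 8 (.s k65 k193 7 (.d k130 k131 k195 0 8)))))) .n)))))

def t42_85 : T TT 256 :=
  (.q k3 [(.s k23 k43 5 (.s k149 k192 14 (.s k86 k212 8 (.s k126 k66 5 (.d k252 k189 k169 8 14))))),
  (.s k1 k2 0 (.s k192 k149 14 (.s k128 k64 7 (.s k129 k66 8 (.s k65 k193 7 (.d k130 k131 k195 0
  8))))))] (.c k66 (.l (.s k43 k23 5 (.s k169 k232 8 (.s k252 k86 14 (.s k149 k192 14 (.d k189 k129
  k126 5 8)))))) (.c k86 (.l (.s k2 k1 0 (.s k192 k149 14 (.s k66 k129 8 (.s k130 k194 7 (.s k65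
  k195 8 (.d k64 k128 k67 7 0))))))) (.c k149 (.q k51 [(.s k19 k35 3 (.s k23 k43 5 (.s k27 k31 1 (.s
  k39 k15 5 (.d k55 k59 k7 1 3))))), (.s k1 k2 0 (.s k17 k34 4 (.s k33 k49 3 (.s k18 k48 4 (.d k19
  k16 k35 0 3))))), (.s k43 k23 5 (.s k169 k232 8 (.s k59 k55 1 (.s k153 k200 12 (.s k137 k185 3 (.d
  k204 k102 k70 14 10))))))] (.c k21 (.q k213 [(.s k19 k35 3 (.s k23 k43 5 (.s k27 k31 1 (.s k39 k15
  5 (.d k55 k59 k7 1 3))))), (.s k1 k2 0 (.s k17 k34 4 (.s k33 k49 3 (.s k18 k48 4 (.d k19 k16 k35 0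
  3))))), (.s k43 k23 5 (.s k169 k232 8 (.s k59 k55 1 (.s k153 k200 12 (.s k137 k185 3 (.d k204 k102
  k70 14 10))))))] (.c k128 (.q k191 [(.s k19 k35 3 (.s k23 k43 5 (.s k27 k31 1 (.s k39 k15 5 (.d
  k55 k59 k7 1 3))))), (.s k1 k2 0 (.s k17 k34 4 (.s k33 k49 3 (.s k18 k48 4 (.d k19 k16 k35 0
  3))))), (.s k43 k23 5 (.s k255 k127 7 (.s k171 k87 13 (.s k107 k235 7 (.d k151 k131 k195 5
  13)))))] .n) (.c k191 (.q k128 [(.s k17 k34 4 (.s k192 k64 7 (.s k145 k98 12 (.s k81 k209 7 (.d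
  k162 k179 k243 4 12))))), (.s k1 k2 0 (.s k192 k64 7 (.s k129 k66 8 (.s k65 k193 7 (.d k130 k131
  k195 0 8))))), (.s k1 k2 0 (.s k17 k34 4 (.s k33 k49 3 (.s k18 k48 4 (.d k19 k16 k35 0 3)))))] .n)
  .n))) (.c k128 (.q k191 [(.s k19 k35 3 (.s k23 k43 5 (.s k27 k31 1 (.s k39 k15 5 (.d k55 k59 k7 1
  3))))), (.s k1 k2 0 (.s k17 k34 4 (.s k33 k49 3 (.s k18 k48 4 (.d k19 k16 k35 0 3))))), (.s k43
  k23 5 (.s k255 k127 7 (.s k171 k87 13 (.s k107 k235 7 (.d k151 k131 k195 5 13)))))] (.c k21 (.q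
  k213 [(.s k19 k35 3 (.s k23 k43 5 (.s k27 k31 1 (.s k39 k15 5 (.d k55 k59 k7 1 3))))), (.s k1 k2 0
  (.s k17 k34 4 (.s k33 k49 3 (.s k18 k48 4 (.d k19 k16 k35 0 3))))), (.s k43 k23 5 (.s k255 k127 7
  (.s k171 k87 13 (.s k107 k235 7 (.d k151 k131 k195 5 13)))))] .n) (.c k213 (.q k21 [(.s k1 k2 0
  (.s k41 k61 5 (.s k22 k60 6 (.d k23 k20 k43 0 5)))), (.s k17 k34 4 (.s k25 k29 1 (.s k38 k12 6 (.d
  k55 k59 k4 1 4))))] .n) .n))) (.c k191 (.q k128 [(.s k2 k1 0 (.s k34 k17 4 (.s k18 k50 3 (.s k33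
  k48 4 (.d k35 k32 k19 0 3))))), (.s k17 k34 4 (.s k192 k64 7 (.s k145 k98 12 (.s k81 k209 7 (.d
  k162 k179 k243 4 12))))), (.s k1 k2 0 (.s k192 k64 7 (.s k129 k66 8 (.s k65 k193 7 (.d k130 k131
  k195 0 8)))))] (.c k21 (.q k213 [(.s k17 k34 4 (.s k192 k64 7 (.s k145 k98 12 (.s k81 k209 7 (.d
  k162 k179 k243 4 12))))), (.s k1 k2 0 (.s k192 k64 7 (.s k129 k66 8 (.s k65 k193 7 (.d k130 k131
  k195 0 8))))), (.s k1 k2 0 (.s k17 k34 4 (.s k33 k49 3 (.s k18 k48 4 (.d k19 k16 k35 0 3)))))] .n)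
  (.c k213 (.q k21 [(.s k1 k2 0 (.s k41 k61 5 (.s k22 k60 6 (.d k23 k20 k43 0 5)))), (.s k17 k34 4
  (.s k25 k29 1 (.s k38 k12 6 (.d k55 k59 k4 1 4))))] .n) .n))) (.c k213 (.q k21 [(.s k1 k2 0 (.s
  k41 k61 5 (.s k22 k60 6 (.d k23 k20 k43 0 5)))), (.s k17 k34 4 (.s k25 k29 1 (.s k38 k12 6 (.d k55
  k59 k4 1 4))))] (.c k128 (.q k191 [(.s k1 k2 0 (.s k41 k61 5 (.s k22 k60 6 (.d k23 k20 k43 0
  5)))), (.s k17 k34 4 (.s k25 k29 1 (.s k38 k12 6 (.d k55 k59 k4 1 4))))] .n) (.c k191 (.q k128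
  [(.s k1 k2 0 (.s k41 k61 5 (.s k22 k60 6 (.d k23 k20 k43 0 5)))), (.s k17 k34 4 (.s k25 k29 1 (.s
  k38 k12 6 (.d k55 k59 k4 1 4))))] .n) .n))) .n))))) (.c k192 (.q k15 [(.s k7 k11 1 (.s k23 k43 5
  (.s k39 k55 3 (.s k27 k51 5 (.d k31 k19 k47 1 3))))), (.s k1 k2 0 (.s k5 k10 2 (.s k9 k13 1 (.s k6
  k12 2 (.d k7 k4 k11 0 1))))), (.s k43 k23 5 (.s k47 k31 3 (.s k169 k232 8 (.s k252 k86 14 (.s k173
  k94 12 (.d k165 k161 k224 1 10))))))] .n) .n)))))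

def t42_86 : T TT 256 :=
  (.q k60 [(.s k61 k62 0 (.s k149 k192 14 (.s k105 k193 13 (.s k107 k104 0 (.d k195 k151 k150 13
  14))))), (.s k20 k40 5 (.s k192 k149 14 (.s k128 k64 7 (.s k148 k104 13 (.s k168 k188 5 (.d k84
  k212 k252 7 13))))))] (.c k2 (.q k254 [(.s k62 k61 0 (.s k150 k194 13 (.s k105 k195 14 (.s k104
  k107 0 (.d k192 k148 k149 13 14))))), (.s k20 k40 5 (.s k192 k149 14 (.s k128 k64 7 (.s k148 k104
  13 (.s k168 k188 5 (.d k84 k212 k252 7 13)))))), (.s k20 k40 5 (.s k62 k61 0 (.s k150 k194 13 (.s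
  k85 k215 8 (.s k190 k126 7 (.s k125 k255 8 (.d k105 k195 k65 14 5)))))))] (.c k22 (.l (.s k62 k61
  0 (.s k150 k194 13 (.s k105 k195 14 (.s k192 k149 14 (.d k104 k107 k148 0 13)))))) (.c k62 (.q k22
  [(.s k20 k40 5 (.s k23 k21 0 (.d k3 k43 k41 5 6))), (.s k40 k20 5 (.s k192 k149 14 (.s k104 k148
  13 (.s k168 k232 7 (.s k84 k252 13 (.d k64 k128 k124 7 5))))))] (.c k3 (.l (.s k20 k40 5 (.s k192
  k149 14 (.s k128 k64 7 (.s k148 k104 13 (.s k168 k188 5 (.d k84 k212 k252 7 13))))))) (.c k20 (.q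
  k191 [(.s k192 k149 14 (.s k64 k128 7 (.d k127 k85 k255 6 7))), (.s k255 k127 7 (.s k190 k125 8
  (.s k188 k189 0 (.d k252 k253 k124 0 7)))), (.s k192 k149 14 (.s k128 k64 7 (.s k148 k104 13 (.s
  k188 k168 5 (.s k189 k190 0 (.d k252 k124 k126 7 8))))))] .n) (.c k23 (.q k212 [(.s k192 k149 14
  (.s k148 k104 13 (.d k20 k40 k84 5 7))), (.s k192 k149 14 (.s k252 k232 5 (.s k124 k188 7 (.s k126
  k189 8 (.s k125 k127 0 (.d k255 k190 k253 8 0)))))), (.s k20 k40 5 (.s k148 k84 7 (.d k192 k104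
  k149 13 14))), (.s k20 k40 5 (.s k84 k148 7 (.s k252 k168 13 (.s k188 k124 7 (.s k189 k126 8 (.s
  k191 k190 0 (.d k255 k127 k253 7 0)))))))] .n) (.c k40 (.f k192 k149 14 (.l (.s k128 k64 7 (.s
  k148 k104 13 (.s k168 k188 5 (.s k84 k252 13 (.s k20 k212 7 (.s k23 k21 0 (.d k3 k43 k41 5
  6))))))))) .n))))) (.c k105 (.l (.s k40 k20 5 (.s k192 k149 14 (.s k104 k148 13 (.s k168 k232 7
  (.s k84 k252 13 (.d k64 k128 k124 7 5))))))) .n)))) (.c k104 (.l (.s k62 k61 0 (.s k150 k194 13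
  (.s k195 k105 14 (.s k149 k192 14 (.d k151 k148 k107 0 13)))))) (.c k105 (.l (.s k40 k20 5 (.s
  k192 k149 14 (.s k104 k148 13 (.s k168 k232 7 (.s k84 k252 13 (.d k64 k128 k124 7 5))))))) (.c
  k149 (.f k40 k20 5 (.f k62 k61 0 (.l (.s k150 k194 13 (.s k105 k195 14 (.s k104 k107 0 (.s k168
  k232 7 (.s k84 k252 13 (.s k192 k148 13 (.d k64 k124 k128 5 7)))))))))) (.c k192 (.f k62 k61 0 (.l
  (.s k20 k40 5 (.s k150 k194 13 (.s k85 k215 8 (.s k127 k64 6 (.s k255 k191 7 (.s k125 k190 8 (.d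
  k105 k195 k65 14 5))))))))) (.c k254 (.q k2 [(.s k61 k62 0 (.s k149 k192 14 (.s k105 k193 13 (.s
  k107 k104 0 (.d k195 k151 k150 13 14))))), (.s k3 k1 0 (.s k40 k20 5 (.s k192 k149 14 (.s k104
  k148 13 (.s k232 k168 7 (.d k43 k23 k169 5 8)))))), (.s k3 k1 0 (.s k41 k22 6 (.s k62 k61 0 (.s
  k150 k194 13 (.s k105 k195 14 (.s k169 k233 7 (.d k43 k23 k232 5 8)))))))] (.c k150 (.l (.s k3 k1
  0 (.s k192 k149 14 (.s k66 k129 8 (.s k130 k194 7 (.s k65 k195 8 (.d k64 k128 k67 7 0))))))) (.c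
  k192 (.l (.s k3 k1 0 (.s k41 k22 6 (.s k43 k23 5 (.s k169 k232 8 (.s k105 k233 7 (.s k62 k61 0 (.d
  k150 k194 k195 13 14)))))))) .n))) .n)))))))

def t42_87 : T TT 256 :=
  (.q k195 [(.s k149 k192 14 (.s k107 k151 13 (.s k105 k104 0 (.s k61 k193 13 (.d k60 k62 k150 0
  14))))), (.s k130 k65 8 (.s k192 k149 14 (.s k128 k64 7 (.s k129 k131 0 (.s k66 k3 8 (.d k194 k193
  k2 0 7))))))] (.c k149 (.f k130 k65 8 (.q k128 [(.s k192 k64 7 (.s k129 k131 0 (.s k66 k3 8 (.d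
  k194 k193 k2 0 7)))), (.s k192 k64 7 (.s k107 k151 13 (.s k105 k104 0 (.s k150 k60 14 (.d k194
  k193 k62 0 13))))), (.s k64 k192 7 (.s k151 k107 13 (.s k127 k85 6 (.s k191 k255 7 (.d k131 k171
  k129 5 0))))), (.s k107 k151 13 (.s k105 k104 0 (.s k150 k60 14 (.s k194 k62 13 (.s k129 k131 0
  (.s k192 k193 0 (.d k66 k2 k3 7 8)))))))] (.c k192 (.l (.s k131 k129 0 (.s k3 k67 7 (.s k43 k23 5
  (.s k169 k232 8 (.s k150 k188 6 (.s k60 k105 14 (.d k62 k61 k194 0 13)))))))) .n))) (.c k192 (.q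
  k105 [(.d k107 k104 k151 0 13), (.s k65 k130 8 (.s k85 k125 5 (.s k127 k64 6 (.s k255 k191 7 (.s
  k215 k235 5 (.d k150 k20 k60 8 14))))))] .n) (.c k193 (.l (.s k149 k192 14 (.s k151 k107 13 (.s
  k150 k148 0 (.s k60 k105 14 (.d k62 k61 k194 0 13)))))) .n))))

def t42_88 : T TT 256 :=
  (.f k192 k149 14 (.q k15 [(.s k47 k31 3 (.s k74 k133 10 (.s k165 k224 10 (.d k90 k122 k240 3
  14)))), (.s k5 k10 2 (.s k128 k64 7 (.s k133 k74 10 (.s k69 k197 7 (.d k138 k143 k207 2 10))))),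
  (.s k5 k10 2 (.s k47 k31 3 (.s k165 k224 10 (.s k85 k245 11 (.d k64 k128 k127 7 6)))))] (.c k90
  (.l (.s k10 k5 2 (.s k74 k133 10 (.s k138 k202 7 (.s k69 k207 10 (.d k64 k79 k128 2 7)))))) (.c
  k128 (.q k191 [(.s k47 k31 3 (.s k165 k224 10 (.s k90 k240 14 (.d k74 k122 k133 3 10)))), (.s k255
  k127 7 (.s k175 k95 11 (.s k159 k143 3 (.s k111 k207 11 (.d k47 k31 k239 3 7))))), (.s k5 k10 2
  (.s k74 k133 10 (.s k127 k255 7 (.s k85 k64 6 (.s k165 k245 11 (.d k90 k240 k122 14 3))))))] (.c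
  k133 (.l (.s k5 k10 2 (.s k47 k31 3 (.s k165 k224 10 (.s k85 k245 11 (.d k127 k64 k255 6 7))))))
  .n)) (.c k191 (.l (.s k128 k64 7 (.s k5 k10 2 (.s k133 k74 10 (.s k69 k197 7 (.d k138 k143 k207 2
  10)))))) .n)))))

def t42_89 : T TT 256 :=
  (.q k51 [(.s k55 k59 1 (.s k149 k192 14 (.s k102 k196 12 (.s k110 k98 1 (.d k204 k157 k153 12
  14))))), (.s k17 k34 4 (.s k192 k149 14 (.s k128 k64 7 (.s k145 k98 12 (.s k162 k179 4 (.d k81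
  k209 k243 7 12))))))] (.c k8 (.q k251 [(.s k59 k55 1 (.s k153 k200 12 (.s k102 k204 14 (.s k98
  k110 1 (.d k192 k145 k149 12 14))))), (.s k17 k34 4 (.s k192 k149 14 (.s k128 k64 7 (.s k145 k98
  12 (.s k162 k179 4 (.d k81 k209 k243 7 12)))))), (.s k17 k34 4 (.s k59 k55 1 (.s k153 k200 12 (.s
  k85 k221 9 (.s k187 k123 7 (.s k119 k255 9 (.d k102 k204 k68 14 4)))))))] (.c k25 (.l (.s k59 k55
  1 (.s k153 k200 12 (.s k102 k204 14 (.s k192 k149 14 (.d k98 k110 k145 1 12)))))) (.c k59 (.q k25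
  [(.s k17 k34 4 (.s k29 k21 1 (.d k12 k46 k38 4 6))), (.s k34 k17 4 (.s k192 k149 14 (.s k98 k145
  12 (.s k162 k226 7 (.s k81 k243 12 (.d k64 k128 k115 7 4))))))] (.c k12 (.l (.s k17 k34 4 (.s k192
  k149 14 (.s k128 k64 7 (.s k145 k98 12 (.s k162 k179 4 (.d k81 k209 k243 7 12))))))) (.c k17 (.q
  k86 [(.s k149 k192 14 (.s k23 k212 8 (.s k126 k66 5 (.s k252 k189 8 (.d k3 k43 k169 5 14))))), (.s
  k126 k66 5 (.s k252 k189 8 (.s k118 k185 10 (.s k102 k70 3 (.s k204 k153 14 (.d k110 k98 k157 1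
  12)))))), (.s k12 k38 6 (.s k46 k29 4 (.s k166 k226 9 (.s k6 k246 11 (.s k3 k9 2 (.s k23 k43 5 (.d
  k149 k212 k192 8 14)))))))] (.c k169 (.l (.s k192 k149 14 (.s k98 k145 12 (.s k126 k66 5 (.s k102
  k110 1 (.s k118 k70 3 (.d k252 k189 k185 8 10))))))) .n)) (.c k29 (.f k34 k17 4 (.f k192 k149 14
  (.q k209 [(.s k98 k145 12 (.d k226 k243 k162 4 7)), (.s k243 k226 4 (.s k115 k179 7 (.s k123 k183
  9 (.s k119 k127 1 (.d k255 k187 k247 9 1))))), (.s k128 k64 7 (.s k12 k38 6 (.s k132 k72 9 (.s k98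
  k145 12 (.s k102 k110 1 (.s k136 k140 1 (.d k204 k68 k153 9 14)))))))] (.c k128 (.q k191 [(.s k255
  k127 7 (.d k243 k247 k226 1 4)), (.s k98 k145 12 (.d k226 k162 k243 7 4))] (.c k226 (.l (.s k255
  k127 7 (.s k187 k119 9 (.s k179 k183 1 (.d k243 k247 k115 1 7))))) (.c k243 (.l (.s k98 k145 12
  (.s k102 k110 1 (.s k38 k12 6 (.s k166 k230 7 (.d k226 k162 k46 7 9)))))) .n))) (.c k191 (.l (.s
  k128 k64 7 (.s k98 k145 12 (.d k226 k243 k162 4 7)))) .n))))) (.c k34 (.f k192 k149 14 (.l (.s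
  k128 k64 7 (.s k145 k98 12 (.s k162 k179 4 (.s k81 k243 12 (.s k17 k209 7 (.s k29 k21 1 (.d k12
  k46 k38 4 6))))))))) .n))))) (.c k102 (.l (.s k34 k17 4 (.s k192 k149 14 (.s k98 k145 12 (.s k162
  k226 7 (.s k81 k243 12 (.d k64 k128 k115 7 4))))))) .n)))) (.c k98 (.l (.s k59 k55 1 (.s k153 k200
  12 (.s k204 k102 14 (.s k149 k192 14 (.d k157 k145 k110 1 12)))))) (.c k102 (.l (.s k34 k17 4 (.s
  k192 k149 14 (.s k98 k145 12 (.s k162 k226 7 (.s k81 k243 12 (.d k64 k128 k115 7 4))))))) (.c k149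
  (.f k59 k55 1 (.l (.s k17 k34 4 (.s k153 k200 12 (.s k85 k221 9 (.s k102 k204 14 (.s k64 k127 6
  (.s k98 k110 1 (.d k192 k128 k145 7 12))))))))) (.c k192 (.f k59 k55 1 (.l (.s k17 k34 4 (.s k153
  k200 12 (.s k85 k221 9 (.s k127 k64 6 (.s k255 k191 7 (.s k119 k187 9 (.d k102 k204 k68 14
  4))))))))) (.c k251 (.q k8 [(.s k55 k59 1 (.s k149 k192 14 (.s k102 k196 12 (.s k110 k98 1 (.d
  k204 k157 k153 12 14))))), (.s k12 k4 1 (.s k34 k17 4 (.s k192 k149 14 (.s k98 k145 12 (.s k226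
  k162 7 (.d k46 k29 k166 4 9)))))), (.s k12 k4 1 (.s k38 k25 6 (.s k59 k55 1 (.s k153 k200 12 (.s
  k102 k204 14 (.s k166 k230 7 (.d k46 k29 k226 4 9)))))))] (.c k153 (.l (.s k12 k4 1 (.s k192 k149
  14 (.s k72 k132 9 (.s k136 k200 7 (.s k68 k204 9 (.d k64 k128 k76 7 1))))))) (.c k192 (.l (.s k12
  k4 1 (.s k38 k25 6 (.s k46 k29 4 (.s k166 k226 9 (.s k102 k230 7 (.s k59 k55 1 (.d k153 k200 k204
  12 14)))))))) .n))) .n)))))))

def t42_90 : T TT 256 :=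
  (.q k48 [(.s k53 k58 2 (.s k149 k192 14 (.s k101 k197 11 (.s k111 k96 2 (.d k207 k159 k154 11
  14))))), (.s k16 k32 3 (.s k192 k149 14 (.s k128 k64 7 (.s k144 k96 11 (.s k160 k176 3 (.d k80
  k208 k240 7 11))))))] (.c k10 (.q k250 [(.s k58 k53 2 (.s k154 k202 11 (.s k101 k207 14 (.s k96
  k111 2 (.d k192 k144 k149 11 14))))), (.s k16 k32 3 (.s k192 k149 14 (.s k128 k64 7 (.s k144 k96
  11 (.s k160 k176 3 (.d k80 k208 k240 7 11)))))), (.s k16 k32 3 (.s k58 k53 2 (.s k154 k202 11 (.s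
  k85 k223 10 (.s k186 k122 7 (.s k117 k255 10 (.d k101 k207 k69 14 3)))))))] (.c k26 (.l (.s k58
  k53 2 (.s k154 k202 11 (.s k101 k207 14 (.s k192 k149 14 (.d k96 k111 k144 2 11)))))) (.c k58 (.q
  k26 [(.s k16 k32 3 (.s k31 k21 2 (.d k15 k47 k37 3 6))), (.s k32 k16 3 (.s k192 k149 14 (.s k96
  k144 11 (.s k160 k224 7 (.s k80 k240 11 (.d k64 k128 k112 7 3))))))] (.c k15 (.l (.s k16 k32 3 (.s
  k192 k149 14 (.s k128 k64 7 (.s k144 k96 11 (.s k160 k176 3 (.d k80 k208 k240 7 11))))))) (.c k16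
  (.q k86 [(.s k149 k192 14 (.s k23 k212 8 (.s k126 k66 5 (.s k252 k189 8 (.d k3 k43 k169 5 14))))),
  (.s k126 k66 5 (.s k252 k189 8 (.s k116 k184 9 (.s k101 k71 4 (.s k207 k154 14 (.d k111 k96 k159 2
  11)))))), (.s k15 k37 6 (.s k47 k31 3 (.s k165 k224 10 (.s k7 k244 12 (.s k3 k11 1 (.s k23 k43 5
  (.d k149 k212 k192 8 14)))))))] (.c k169 (.l (.s k192 k149 14 (.s k96 k144 11 (.s k126 k66 5 (.s
  k101 k111 2 (.s k116 k71 4 (.d k252 k189 k184 8 9))))))) .n)) (.c k31 (.f k32 k16 3 (.f k192 k149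
  14 (.q k208 [(.s k96 k144 11 (.d k224 k240 k160 3 7)), (.s k240 k224 3 (.s k112 k176 7 (.s k122
  k181 10 (.s k117 k127 2 (.d k255 k186 k245 10 2))))), (.s k128 k64 7 (.s k15 k37 6 (.s k133 k74 10
  (.s k96 k144 11 (.s k101 k111 2 (.s k138 k143 2 (.d k207 k69 k154 10 14)))))))] (.c k128 (.q k191
  [(.s k255 k127 7 (.d k240 k245 k224 2 3)), (.s k96 k144 11 (.d k224 k160 k240 7 3))] (.c k224 (.l
  (.s k255 k127 7 (.s k186 k117 10 (.s k176 k181 2 (.d k240 k245 k112 2 7))))) (.c k240 (.l (.s k96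
  k144 11 (.s k101 k111 2 (.s k37 k15 6 (.s k165 k229 7 (.d k224 k160 k47 7 10)))))) .n))) (.c k191
  (.l (.s k128 k64 7 (.s k96 k144 11 (.d k224 k240 k160 3 7)))) .n))))) (.c k32 (.f k192 k149 14 (.l
  (.s k128 k64 7 (.s k144 k96 11 (.s k160 k176 3 (.s k80 k240 11 (.s k16 k208 7 (.s k31 k21 2 (.d
  k15 k47 k37 3 6))))))))) .n))))) (.c k101 (.l (.s k32 k16 3 (.s k192 k149 14 (.s k96 k144 11 (.s
  k160 k224 7 (.s k80 k240 11 (.d k64 k128 k112 7 3))))))) .n)))) (.c k96 (.l (.s k58 k53 2 (.s k154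
  k202 11 (.s k207 k101 14 (.s k149 k192 14 (.d k159 k144 k111 2 11)))))) (.c k101 (.l (.s k32 k16 3
  (.s k192 k149 14 (.s k96 k144 11 (.s k160 k224 7 (.s k80 k240 11 (.d k64 k128 k112 7 3))))))) (.c
  k149 (.f k58 k53 2 (.l (.s k16 k32 3 (.s k154 k202 11 (.s k85 k223 10 (.s k101 k207 14 (.s k64
  k127 6 (.s k96 k111 2 (.d k192 k128 k144 7 11))))))))) (.c k192 (.f k58 k53 2 (.l (.s k16 k32 3
  (.s k154 k202 11 (.s k85 k223 10 (.s k127 k64 6 (.s k255 k191 7 (.s k117 k186 10 (.d k101 k207 k69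
  14 3))))))))) (.c k250 (.q k10 [(.s k53 k58 2 (.s k149 k192 14 (.s k101 k197 11 (.s k111 k96 2 (.d
  k207 k159 k154 11 14))))), (.s k15 k5 2 (.s k32 k16 3 (.s k192 k149 14 (.s k96 k144 11 (.s k224
  k160 7 (.d k47 k31 k165 3 10)))))), (.s k15 k5 2 (.s k37 k26 6 (.s k58 k53 2 (.s k154 k202 11 (.s
  k101 k207 14 (.s k165 k229 7 (.d k47 k31 k224 3 10)))))))] (.c k154 (.l (.s k15 k5 2 (.s k192 k149
  14 (.s k74 k133 10 (.s k138 k202 7 (.s k69 k207 10 (.d k64 k128 k79 7 2))))))) (.c k192 (.l (.s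
  k15 k5 2 (.s k37 k26 6 (.s k47 k31 3 (.s k165 k224 10 (.s k101 k229 7 (.s k58 k53 2 (.d k154 k202
  k207 11 14)))))))) .n))) .n)))))))

def t42_91 : T TT 256 :=
  (.f k192 k149 14 (.q k48 [(.s k58 k53 2 (.s k96 k144 11 (.s k154 k202 11 (.d k101 k111 k207 2
  14)))), (.s k16 k32 3 (.s k128 k64 7 (.s k144 k96 11 (.s k80 k208 7 (.d k160 k176 k240 3 11))))),
  (.s k16 k32 3 (.s k58 k53 2 (.s k154 k202 11 (.s k85 k223 10 (.d k64 k128 k127 7 6)))))] (.c k101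
  (.l (.s k32 k16 3 (.s k96 k144 11 (.s k160 k224 7 (.s k80 k240 11 (.d k64 k112 k128 3 7)))))) (.c
  k128 (.q k191 [(.s k58 k53 2 (.s k154 k202 11 (.s k101 k207 14 (.d k96 k111 k144 2 11)))), (.s
  k255 k127 7 (.s k186 k117 10 (.s k181 k176 2 (.s k122 k240 10 (.d k58 k53 k250 2 7))))), (.s k16
  k32 3 (.s k96 k144 11 (.s k127 k255 7 (.s k85 k64 6 (.s k154 k223 10 (.d k101 k207 k111 14
  2))))))] (.c k144 (.l (.s k16 k32 3 (.s k58 k53 2 (.s k154 k202 11 (.s k85 k223 10 (.d k127 k64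
  k255 6 7)))))) .n)) (.c k191 (.l (.s k128 k64 7 (.s k16 k32 3 (.s k144 k96 11 (.s k80 k208 7 (.d
  k160 k176 k240 3 11)))))) .n)))))

def t42_92 : T TT 256 :=
  (.f k192 k149 14 (.q k48 [(.s k58 k53 2 (.s k96 k144 11 (.s k154 k202 11 (.d k101 k111 k207 2
  14)))), (.s k16 k32 3 (.s k128 k64 7 (.s k144 k96 11 (.s k80 k208 7 (.d k160 k176 k240 3 11))))),
  (.s k16 k32 3 (.s k58 k53 2 (.s k154 k202 11 (.s k85 k223 10 (.d k64 k128 k127 7 6)))))] (.c k101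
  (.l (.s k32 k16 3 (.s k96 k144 11 (.s k160 k224 7 (.s k80 k240 11 (.d k64 k112 k128 3 7)))))) (.c
  k128 (.q k191 [(.s k58 k53 2 (.s k154 k202 11 (.s k101 k207 14 (.d k96 k111 k144 2 11)))), (.s
  k255 k127 7 (.s k186 k117 10 (.s k181 k176 2 (.s k122 k240 10 (.d k58 k53 k250 2 7))))), (.s k16
  k32 3 (.s k96 k144 11 (.s k127 k255 7 (.s k85 k64 6 (.s k154 k223 10 (.d k101 k207 k111 14
  2))))))] (.c k144 (.l (.s k16 k32 3 (.s k58 k53 2 (.s k154 k202 11 (.s k85 k223 10 (.d k127 k64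
  k255 6 7)))))) .n)) (.c k191 (.l (.s k128 k64 7 (.s k16 k32 3 (.s k144 k96 11 (.s k80 k208 7 (.d
  k160 k176 k240 3 11)))))) .n)))))

def t42_93 : T TT 256 :=
  (.f k192 k149 14 (.q k60 [(.s k62 k61 0 (.s k104 k148 13 (.s k150 k194 13 (.d k105 k107 k195 0
  14)))), (.s k20 k40 5 (.s k128 k64 7 (.s k148 k104 13 (.s k84 k212 7 (.d k168 k188 k252 5 13))))),
  (.s k20 k40 5 (.s k62 k61 0 (.s k150 k194 13 (.s k85 k215 8 (.d k64 k128 k127 7 6)))))] (.c k105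
  (.l (.s k40 k20 5 (.s k104 k148 13 (.s k168 k232 7 (.s k84 k252 13 (.d k64 k124 k128 5 7)))))) (.c
  k128 (.q k191 [(.s k62 k61 0 (.s k150 k194 13 (.s k105 k195 14 (.d k104 k107 k148 0 13)))), (.s
  k255 k127 7 (.s k190 k125 8 (.s k189 k188 0 (.s k126 k252 8 (.d k62 k61 k254 0 7))))), (.s k20 k40
  5 (.s k104 k148 13 (.s k127 k255 7 (.s k85 k64 6 (.s k150 k215 8 (.d k105 k195 k107 14 0))))))]
  (.c k148 (.l (.s k20 k40 5 (.s k62 k61 0 (.s k150 k194 13 (.s k85 k215 8 (.d k127 k64 k255 6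
  7)))))) .n)) (.c k191 (.l (.s k128 k64 7 (.s k20 k40 5 (.s k148 k104 13 (.s k84 k212 7 (.d k168
  k188 k252 5 13)))))) .n)))))

def t42_94 : T TT 256 :=
  (.f k192 k149 14 (.q k48 [(.s k58 k53 2 (.s k96 k144 11 (.s k154 k202 11 (.d k101 k111 k207 2
  14)))), (.s k16 k32 3 (.s k128 k64 7 (.s k144 k96 11 (.s k80 k208 7 (.d k160 k176 k240 3 11))))),
  (.s k16 k32 3 (.s k58 k53 2 (.s k154 k202 11 (.s k85 k223 10 (.d k64 k128 k127 7 6)))))] (.c k101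
  (.l (.s k32 k16 3 (.s k96 k144 11 (.s k160 k224 7 (.s k80 k240 11 (.d k64 k112 k128 3 7)))))) (.c
  k128 (.q k191 [(.s k58 k53 2 (.s k154 k202 11 (.s k101 k207 14 (.d k96 k111 k144 2 11)))), (.s
  k255 k127 7 (.s k186 k117 10 (.s k181 k176 2 (.s k122 k240 10 (.d k58 k53 k250 2 7))))), (.s k16
  k32 3 (.s k96 k144 11 (.s k127 k255 7 (.s k85 k64 6 (.s k154 k223 10 (.d k101 k207 k111 14
  2))))))] (.c k144 (.l (.s k16 k32 3 (.s k58 k53 2 (.s k154 k202 11 (.s k85 k223 10 (.d k127 k64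
  k255 6 7)))))) .n)) (.c k191 (.l (.s k128 k64 7 (.s k16 k32 3 (.s k144 k96 11 (.s k80 k208 7 (.d
  k160 k176 k240 3 11)))))) .n)))))

def t42_95 : T TT 256 :=
  (.f k192 k149 14 (.q k60 [(.s k62 k61 0 (.s k104 k148 13 (.s k150 k194 13 (.d k105 k107 k195 0
  14)))), (.s k20 k40 5 (.s k128 k64 7 (.s k148 k104 13 (.s k84 k212 7 (.d k168 k188 k252 5 13))))),
  (.s k20 k40 5 (.s k62 k61 0 (.s k150 k194 13 (.s k85 k215 8 (.d k64 k128 k127 7 6)))))] (.c k105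
  (.l (.s k40 k20 5 (.s k104 k148 13 (.s k168 k232 7 (.s k84 k252 13 (.d k64 k124 k128 5 7)))))) (.c
  k128 (.q k191 [(.s k62 k61 0 (.s k150 k194 13 (.s k105 k195 14 (.d k104 k107 k148 0 13)))), (.s
  k255 k127 7 (.s k190 k125 8 (.s k189 k188 0 (.s k126 k252 8 (.d k62 k61 k254 0 7))))), (.s k20 k40
  5 (.s k104 k148 13 (.s k127 k255 7 (.s k85 k64 6 (.s k150 k215 8 (.d k105 k195 k107 14 0))))))]
  (.c k148 (.l (.s k20 k40 5 (.s k62 k61 0 (.s k150 k194 13 (.s k85 k215 8 (.d k127 k64 k255 6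
  7)))))) .n)) (.c k191 (.l (.s k128 k64 7 (.s k20 k40 5 (.s k148 k104 13 (.s k84 k212 7 (.d k168
  k188 k252 5 13)))))) .n)))))

def t42_96 : T TT 256 :=
  (.f k192 k149 14 (.q k15 [(.s k47 k31 3 (.s k74 k133 10 (.s k90 k122 3 (.d k165 k224 k240 10
  14)))), (.s k5 k10 2 (.s k128 k64 7 (.s k133 k74 10 (.s k69 k197 7 (.d k138 k143 k207 2 10))))),
  (.s k5 k10 2 (.s k47 k31 3 (.s k165 k224 10 (.s k85 k245 11 (.d k64 k128 k127 7 6)))))] (.c k90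
  (.l (.s k10 k5 2 (.s k74 k133 10 (.s k138 k202 7 (.s k69 k207 10 (.d k64 k79 k128 2 7)))))) (.c
  k128 (.q k191 [(.s k47 k31 3 (.s k165 k224 10 (.s k90 k240 14 (.d k74 k122 k133 3 10)))), (.s k255
  k127 7 (.s k175 k95 11 (.s k159 k143 3 (.s k111 k207 11 (.d k47 k31 k239 3 7))))), (.s k5 k10 2
  (.s k74 k133 10 (.s k127 k255 7 (.s k85 k64 6 (.s k165 k245 11 (.d k90 k240 k122 14 3))))))] (.c
  k133 (.l (.s k5 k10 2 (.s k47 k31 3 (.s k165 k224 10 (.s k85 k245 11 (.d k127 k64 k255 6 7))))))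
  .n)) (.c k191 (.l (.s k128 k64 7 (.s k5 k10 2 (.s k133 k74 10 (.s k69 k197 7 (.d k138 k143 k207 2
  10)))))) .n)))))

def t42_97 : T TT 256 :=
  (.f k192 k149 14 (.q k60 [(.s k62 k61 0 (.s k104 k148 13 (.s k150 k194 13 (.d k105 k107 k195 0
  14)))), (.s k20 k40 5 (.s k128 k64 7 (.s k148 k104 13 (.s k84 k212 7 (.d k168 k188 k252 5 13))))),
  (.s k20 k40 5 (.s k62 k61 0 (.s k150 k194 13 (.s k85 k215 8 (.d k64 k128 k127 7 6)))))] (.c k105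
  (.l (.s k40 k20 5 (.s k104 k148 13 (.s k168 k232 7 (.s k84 k252 13 (.d k64 k124 k128 5 7)))))) (.c
  k128 (.q k191 [(.s k62 k61 0 (.s k150 k194 13 (.s k105 k195 14 (.d k104 k107 k148 0 13)))), (.s
  k255 k127 7 (.s k190 k125 8 (.s k189 k188 0 (.s k126 k252 8 (.d k62 k61 k254 0 7))))), (.s k20 k40
  5 (.s k104 k148 13 (.s k127 k255 7 (.s k85 k64 6 (.s k150 k215 8 (.d k105 k195 k107 14 0))))))]
  (.c k148 (.l (.s k20 k40 5 (.s k62 k61 0 (.s k150 k194 13 (.s k85 k215 8 (.d k127 k64 k255 6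
  7)))))) .n)) (.c k191 (.l (.s k128 k64 7 (.s k20 k40 5 (.s k148 k104 13 (.s k84 k212 7 (.d k168
  k188 k252 5 13)))))) .n)))))

def t42_98 : T TT 256 :=
  (.f k192 k149 14 (.q k15 [(.s k47 k31 3 (.s k74 k133 10 (.s k90 k122 3 (.d k165 k224 k240 10
  14)))), (.s k5 k10 2 (.s k128 k64 7 (.s k133 k74 10 (.s k69 k197 7 (.d k138 k143 k207 2 10))))),
  (.s k5 k10 2 (.s k47 k31 3 (.s k165 k224 10 (.s k85 k245 11 (.d k64 k128 k127 7 6)))))] (.c k90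
  (.l (.s k10 k5 2 (.s k74 k133 10 (.s k138 k202 7 (.s k69 k207 10 (.d k64 k79 k128 2 7)))))) (.c
  k128 (.q k191 [(.s k47 k31 3 (.s k165 k224 10 (.s k90 k240 14 (.d k74 k122 k133 3 10)))), (.s k255
  k127 7 (.s k175 k95 11 (.s k159 k143 3 (.s k111 k207 11 (.d k47 k31 k239 3 7))))), (.s k5 k10 2
  (.s k74 k133 10 (.s k127 k255 7 (.s k85 k64 6 (.s k165 k245 11 (.d k90 k240 k122 14 3))))))] (.c
  k133 (.l (.s k5 k10 2 (.s k47 k31 3 (.s k165 k224 10 (.s k85 k245 11 (.d k127 k64 k255 6 7))))))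
  .n)) (.c k191 (.l (.s k128 k64 7 (.s k5 k10 2 (.s k133 k74 10 (.s k69 k197 7 (.d k138 k143 k207 2
  10)))))) .n)))))

def t42_99 : T TT 256 :=
  (.f k192 k149 14 (.q k60 [(.s k62 k61 0 (.s k104 k148 13 (.s k150 k194 13 (.d k105 k107 k195 0
  14)))), (.s k20 k40 5 (.s k128 k64 7 (.s k148 k104 13 (.s k84 k212 7 (.d k168 k188 k252 5 13))))),
  (.s k20 k40 5 (.s k62 k61 0 (.s k150 k194 13 (.s k85 k215 8 (.d k64 k128 k127 7 6)))))] (.c k105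
  (.l (.s k40 k20 5 (.s k104 k148 13 (.s k168 k232 7 (.s k84 k252 13 (.d k64 k124 k128 5 7)))))) (.c
  k128 (.q k191 [(.s k62 k61 0 (.s k150 k194 13 (.s k105 k195 14 (.d k104 k107 k148 0 13)))), (.s
  k255 k127 7 (.s k190 k125 8 (.s k189 k188 0 (.s k126 k252 8 (.d k62 k61 k254 0 7))))), (.s k20 k40
  5 (.s k104 k148 13 (.s k127 k255 7 (.s k85 k64 6 (.s k150 k215 8 (.d k105 k195 k107 14 0))))))]
  (.c k148 (.l (.s k20 k40 5 (.s k62 k61 0 (.s k150 k194 13 (.s k85 k215 8 (.d k127 k64 k255 6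
  7)))))) .n)) (.c k191 (.l (.s k128 k64 7 (.s k20 k40 5 (.s k148 k104 13 (.s k84 k212 7 (.d k168
  k188 k252 5 13)))))) .n)))))

def t42_100 : T TT 256 :=
  (.f k192 k149 14 (.q k15 [(.s k47 k31 3 (.s k74 k133 10 (.s k165 k224 10 (.d k90 k122 k240 3
  14)))), (.s k5 k10 2 (.s k128 k64 7 (.s k133 k74 10 (.s k69 k197 7 (.d k138 k143 k207 2 10))))),
  (.s k5 k10 2 (.s k47 k31 3 (.s k165 k224 10 (.s k85 k245 11 (.d k64 k128 k127 7 6)))))] (.c k90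
  (.l (.s k10 k5 2 (.s k74 k133 10 (.s k138 k202 7 (.s k69 k207 10 (.d k64 k79 k128 2 7)))))) (.c
  k128 (.q k191 [(.s k47 k31 3 (.s k165 k224 10 (.s k90 k240 14 (.d k74 k122 k133 3 10)))), (.s k255
  k127 7 (.s k175 k95 11 (.s k159 k143 3 (.s k111 k207 11 (.d k47 k31 k239 3 7))))), (.s k5 k10 2
  (.s k74 k133 10 (.s k127 k255 7 (.s k85 k64 6 (.s k165 k245 11 (.d k90 k240 k122 14 3))))))] (.c
  k133 (.l (.s k5 k10 2 (.s k47 k31 3 (.s k165 k224 10 (.s k85 k245 11 (.d k127 k64 k255 6 7))))))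
  .n)) (.c k191 (.l (.s k128 k64 7 (.s k5 k10 2 (.s k133 k74 10 (.s k69 k197 7 (.d k138 k143 k207 2
  10)))))) .n)))))

def t42_101 : T TT 256 :=
  (.q k3 [(.s k23 k43 5 (.s k149 k192 14 (.s k86 k212 8 (.s k126 k66 5 (.d k252 k189 k169 8 14))))),
  (.s k1 k2 0 (.s k192 k149 14 (.s k128 k64 7 (.s k129 k66 8 (.s k65 k193 7 (.d k130 k131 k195 0
  8))))))] (.c k32 (.q k239 [(.s k23 k43 5 (.s k149 k192 14 (.s k86 k212 8 (.s k126 k66 5 (.d k252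
  k189 k169 8 14))))), (.s k1 k2 0 (.s k192 k149 14 (.s k128 k64 7 (.s k129 k66 8 (.s k65 k193 7 (.d
  k130 k131 k195 0 8))))))] (.c k37 (.q k47 [(.s k23 k43 5 (.s k149 k192 14 (.s k86 k212 8 (.s k126
  k66 5 (.d k252 k189 k169 8 14))))), (.s k15 k31 3 (.s k165 k224 10 (.s k90 k240 14 (.s k192 k149
  14 (.d k74 k122 k133 3 10))))), (.s k43 k23 5 (.s k15 k31 3 (.s k11 k7 1 (.s k27 k59 3 (.d k39 k35
  k51 1 5)))))] (.c k165 (.q k229 [(.s k23 k43 5 (.s k149 k192 14 (.s k86 k212 8 (.s k126 k66 5 (.d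
  k252 k189 k169 8 14))))), (.s k15 k31 3 (.s k175 k111 7 (.s k255 k95 11 (.s k192 k149 14 (.d k234
  k224 k213 2 6))))), (.s k43 k23 5 (.s k15 k31 3 (.s k11 k7 1 (.s k27 k59 3 (.d k39 k35 k51 1
  5)))))] (.c k160 (.l (.s k175 k111 7 (.s k15 k31 3 (.s k255 k95 11 (.s k192 k149 14 (.d k234 k224
  k213 2 6)))))) (.c k175 (.q k160 [(.s k240 k80 11 (.s k224 k234 2 (.d k192 k208 k149 3 14))), (.s
  k23 k43 5 (.s k149 k192 14 (.s k86 k212 8 (.s k252 k169 14 (.d k126 k66 k189 5 8))))), (.s k1 k2 0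
  (.s k240 k80 11 (.s k161 k82 12 (.s k81 k241 11 (.d k162 k163 k243 0 12)))))] .n) .n))) (.c k229
  (.l (.s k165 k224 10 (.s k15 k31 3 (.s k90 k240 14 (.s k192 k149 14 (.d k74 k122 k133 3 10))))))
  .n))) (.c k47 (.q k37 [(.s k23 k43 5 (.s k149 k192 14 (.s k86 k212 8 (.s k126 k66 5 (.d k252 k189
  k169 8 14))))), (.s k1 k2 0 (.s k192 k149 14 (.s k128 k64 7 (.s k129 k66 8 (.s k65 k193 7 (.d k130
  k131 k195 0 8))))))] (.c k66 (.l (.s k43 k23 5 (.s k169 k232 8 (.s k252 k86 14 (.s k149 k192 14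
  (.d k189 k129 k126 5 8)))))) (.c k86 (.l (.s k2 k1 0 (.s k192 k149 14 (.s k66 k129 8 (.s k130 k194
  7 (.s k65 k195 8 (.d k64 k128 k67 7 0))))))) (.c k149 (.f k43 k23 5 (.l (.s k1 k2 0 (.s k169 k232
  8 (.s k85 k253 13 (.s k86 k252 14 (.s k64 k127 6 (.s k66 k126 5 (.d k192 k128 k129 7 8)))))))))
  (.c k192 (.f k43 k23 5 (.l (.s k1 k2 0 (.s k169 k232 8 (.s k85 k253 13 (.s k127 k64 6 (.s k255
  k191 7 (.s k87 k171 13 (.d k86 k252 k84 14 0))))))))) .n))))) (.c k66 (.l (.s k43 k23 5 (.s k169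
  k232 8 (.s k252 k86 14 (.s k149 k192 14 (.d k189 k129 k126 5 8)))))) (.c k86 (.l (.s k2 k1 0 (.s
  k192 k149 14 (.s k66 k129 8 (.s k130 k194 7 (.s k65 k195 8 (.d k64 k128 k67 7 0))))))) (.c k149
  (.f k43 k23 5 (.l (.s k1 k2 0 (.s k169 k232 8 (.s k85 k253 13 (.s k86 k252 14 (.s k64 k127 6 (.s
  k66 k126 5 (.d k192 k128 k129 7 8))))))))) (.c k192 (.f k43 k23 5 (.l (.s k1 k2 0 (.s k169 k232 8
  (.s k85 k253 13 (.s k127 k64 6 (.s k255 k191 7 (.s k87 k171 13 (.d k86 k252 k84 14 0)))))))))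
  .n))))))) (.c k66 (.l (.s k43 k23 5 (.s k169 k232 8 (.s k252 k86 14 (.s k149 k192 14 (.d k189 k129
  k126 5 8)))))) (.c k86 (.l (.s k2 k1 0 (.s k192 k149 14 (.s k66 k129 8 (.s k130 k194 7 (.s k65
  k195 8 (.d k64 k128 k67 7 0))))))) (.c k149 (.f k43 k23 5 (.l (.s k1 k2 0 (.s k169 k232 8 (.s k85
  k253 13 (.s k86 k252 14 (.s k64 k127 6 (.s k66 k126 5 (.d k192 k128 k129 7 8))))))))) (.c k192 (.f
  k43 k23 5 (.l (.s k1 k2 0 (.s k169 k232 8 (.s k85 k253 13 (.s k127 k64 6 (.s k255 k191 7 (.s k87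
  k171 13 (.d k86 k252 k84 14 0))))))))) (.c k239 (.q k32 [(.s k48 k16 3 (.s k33 k18 4 (.s k34 k35 0
  (.s k17 k51 4 (.d k1 k2 k49 0 3))))), (.s k23 k43 5 (.s k149 k192 14 (.s k86 k212 8 (.s k126 k66 5
  (.d k252 k189 k169 8 14)))))] .n) .n)))))))

def t42_102 : T TT 256 :=
  (.q k12 [(.s k29 k46 4 (.s k149 k192 14 (.s k89 k209 9 (.s k123 k72 4 (.d k243 k183 k166 9
  14))))), (.s k4 k8 1 (.s k192 k149 14 (.s k128 k64 7 (.s k132 k72 9 (.s k136 k140 1 (.d k68 k196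
  k204 7 9))))))] (.c k34 (.q k238 [(.s k46 k29 4 (.s k166 k226 9 (.s k89 k243 14 (.s k72 k123 4 (.d
  k192 k132 k149 9 14))))), (.s k4 k8 1 (.s k192 k149 14 (.s k128 k64 7 (.s k132 k72 9 (.s k136 k140
  1 (.d k68 k196 k204 7 9)))))), (.s k4 k8 1 (.s k46 k29 4 (.s k166 k226 9 (.s k85 k247 12 (.s k174
  k110 7 (.s k93 k255 12 (.d k89 k243 k81 14 1)))))))] (.c k38 (.l (.s k46 k29 4 (.s k166 k226 9 (.s
  k89 k243 14 (.s k192 k149 14 (.d k72 k123 k132 4 9)))))) (.c k46 (.q k38 [(.s k4 k8 1 (.s k55 k21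
  4 (.d k51 k59 k25 1 6))), (.s k8 k4 1 (.s k192 k149 14 (.s k72 k132 9 (.s k136 k200 7 (.s k68 k204
  9 (.d k64 k128 k76 7 1))))))] (.c k4 (.f k192 k149 14 (.l (.s k128 k64 7 (.s k51 k25 6 (.s k72
  k132 9 (.s k145 k98 12 (.s k89 k123 4 (.s k162 k179 4 (.d k243 k81 k166 12 14))))))))) (.c k8 (.f
  k192 k149 14 (.l (.s k128 k64 7 (.s k132 k72 9 (.s k136 k140 1 (.s k68 k204 9 (.s k4 k196 7 (.s
  k55 k21 4 (.d k51 k59 k25 1 6))))))))) (.c k51 (.l (.s k4 k8 1 (.s k192 k149 14 (.s k128 k64 7 (.s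
  k132 k72 9 (.s k136 k140 1 (.d k68 k196 k204 7 9))))))) (.c k55 (.q k196 [(.s k192 k149 14 (.s
  k132 k72 9 (.d k4 k8 k68 1 7))), (.s k192 k149 14 (.s k204 k200 1 (.s k76 k140 7 (.s k110 k157 12
  (.s k93 k127 4 (.d k255 k174 k221 12 4)))))), (.s k4 k8 1 (.s k132 k68 7 (.d k192 k72 k149 9
  14))), (.s k4 k8 1 (.s k68 k132 7 (.s k204 k136 9 (.s k140 k76 7 (.s k157 k110 12 (.s k191 k174 4
  (.d k255 k127 k221 7 4)))))))] .n) .n))))) (.c k89 (.l (.s k8 k4 1 (.s k192 k149 14 (.s k72 k132 9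
  (.s k136 k200 7 (.s k68 k204 9 (.d k64 k128 k76 7 1))))))) .n)))) (.c k72 (.l (.s k46 k29 4 (.s
  k166 k226 9 (.s k243 k89 14 (.s k149 k192 14 (.d k183 k132 k123 4 9)))))) (.c k89 (.l (.s k8 k4 1
  (.s k192 k149 14 (.s k72 k132 9 (.s k136 k200 7 (.s k68 k204 9 (.d k64 k128 k76 7 1))))))) (.c
  k149 (.f k46 k29 4 (.l (.s k4 k8 1 (.s k166 k226 9 (.s k85 k247 12 (.s k89 k243 14 (.s k64 k127 6
  (.s k72 k123 4 (.d k192 k128 k132 7 9))))))))) (.c k192 (.f k46 k29 4 (.l (.s k4 k8 1 (.s k166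
  k226 9 (.s k85 k247 12 (.s k127 k64 6 (.s k255 k191 7 (.s k93 k174 12 (.d k89 k243 k81 14
  1))))))))) (.c k238 (.q k34 [(.s k29 k46 4 (.s k149 k192 14 (.s k89 k209 9 (.s k123 k72 4 (.d k243
  k183 k166 9 14))))), (.s k4 k8 1 (.s k192 k149 14 (.s k128 k64 7 (.s k132 k72 9 (.s k136 k140 1
  (.d k68 k196 k204 7 9)))))), (.s k51 k17 4 (.s k192 k149 14 (.s k98 k145 12 (.s k226 k162 7 (.d
  k46 k166 k29 9 4)))))] (.c k149 (.l (.s k51 k17 4 (.s k25 k38 6 (.s k46 k29 4 (.s k166 k226 9 (.s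
  k89 k243 14 (.s k153 k217 7 (.d k59 k55 k200 1 12)))))))) (.c k192 (.l (.s k51 k17 4 (.s k25 k38 6
  (.s k46 k29 4 (.s k166 k226 9 (.s k59 k55 1 (.s k153 k200 12 (.d k89 k243 k217 14 7)))))))) .n)))
  .n)))))))

def t42_103 : T TT 256 :=
  (.f k192 k149 14 (.q k51 [(.s k98 k145 12 (.s k102 k110 1 (.s k153 k204 14 (.d k59 k55 k200 1
  12)))), (.s k17 k34 4 (.s k128 k64 7 (.s k145 k98 12 (.s k81 k209 7 (.d k162 k179 k243 4 12))))),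
  (.s k17 k34 4 (.s k59 k55 1 (.s k153 k200 12 (.s k85 k221 9 (.d k64 k128 k127 7 6)))))] (.c k102
  (.l (.s k34 k17 4 (.s k98 k145 12 (.s k162 k226 7 (.s k81 k243 12 (.d k64 k115 k128 4 7)))))) (.c
  k128 (.q k191 [(.s k98 k145 12 (.s k102 k110 1 (.s k153 k204 14 (.d k59 k55 k200 1 12)))), (.s k59
  k55 1 (.s k255 k127 7 (.s k187 k119 9 (.s k123 k251 7 (.d k183 k179 k243 1 9))))), (.s k17 k34 4
  (.s k98 k145 12 (.s k127 k255 7 (.s k85 k64 6 (.s k153 k221 9 (.d k102 k204 k110 14 1))))))] (.c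
  k102 (.l (.s k255 k127 7 (.s k187 k119 9 (.s k183 k179 1 (.s k123 k243 9 (.d k59 k55 k251 1
  7)))))) (.c k179 (.l (.s k59 k55 1 (.s k153 k200 12 (.s k102 k204 14 (.d k98 k110 k145 1 12)))))
  .n))) (.c k191 (.l (.s k128 k64 7 (.s k17 k34 4 (.s k145 k98 12 (.s k81 k209 7 (.d k162 k179 k243
  4 12)))))) .n)))))

def t42_104 : T TT 256 :=
  (.f k192 k149 14 (.q k51 [(.s k59 k55 1 (.s k98 k145 12 (.s k102 k110 1 (.d k153 k200 k204 12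
  14)))), (.s k17 k34 4 (.s k128 k64 7 (.s k145 k98 12 (.s k81 k209 7 (.d k162 k179 k243 4 12))))),
  (.s k17 k34 4 (.s k59 k55 1 (.s k153 k200 12 (.s k85 k221 9 (.d k64 k128 k127 7 6)))))] (.c k102
  (.l (.s k34 k17 4 (.s k98 k145 12 (.s k162 k226 7 (.s k81 k243 12 (.d k64 k115 k128 4 7)))))) (.c
  k128 (.q k191 [(.s k59 k55 1 (.s k153 k200 12 (.s k102 k204 14 (.d k98 k110 k145 1 12)))), (.s
  k255 k127 7 (.s k187 k119 9 (.s k183 k179 1 (.s k123 k243 9 (.d k59 k55 k251 1 7))))), (.s k17 k34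
  4 (.s k98 k145 12 (.s k127 k255 7 (.s k85 k64 6 (.s k153 k221 9 (.d k102 k204 k110 14 1))))))] (.c
  k145 (.l (.s k17 k34 4 (.s k59 k55 1 (.s k153 k200 12 (.s k85 k221 9 (.d k127 k64 k255 6 7))))))
  .n)) (.c k191 (.l (.s k128 k64 7 (.s k17 k34 4 (.s k145 k98 12 (.s k81 k209 7 (.d k162 k179 k243 4
  12)))))) .n)))))

def t42_105 : T TT 256 :=
  (.q k3 [(.s k23 k43 5 (.s k149 k192 14 (.s k86 k212 8 (.s k126 k66 5 (.d k252 k189 k169 8 14))))),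
  (.s k1 k2 0 (.s k192 k149 14 (.s k128 k64 7 (.s k129 k66 8 (.s k130 k131 0 (.d k65 k193 k195 7
  8))))))] (.c k40 (.q k235 [(.s k43 k23 5 (.s k169 k232 8 (.s k86 k252 14 (.s k66 k126 5 (.d k192
  k129 k149 8 14))))), (.s k1 k2 0 (.s k192 k149 14 (.s k128 k64 7 (.s k129 k66 8 (.s k130 k131 0
  (.d k65 k193 k195 7 8)))))), (.s k1 k2 0 (.s k43 k23 5 (.s k169 k232 8 (.s k85 k253 13 (.s k171
  k107 7 (.s k87 k255 13 (.d k86 k252 k84 14 0)))))))] (.c k41 (.l (.s k43 k23 5 (.s k169 k232 8 (.s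
  k86 k252 14 (.s k192 k149 14 (.d k66 k126 k129 5 8)))))) (.c k43 (.q k41 [(.s k1 k2 0 (.s k61 k21
  5 (.d k60 k62 k22 0 6))), (.s k2 k1 0 (.s k192 k149 14 (.s k66 k129 8 (.s k130 k194 7 (.s k65 k195
  8 (.d k64 k128 k67 7 0))))))] (.c k1 (.f k192 k149 14 (.l (.s k128 k64 7 (.s k60 k22 6 (.s k66
  k129 8 (.s k148 k104 13 (.s k86 k126 5 (.s k168 k188 5 (.d k252 k84 k169 13 14))))))))) (.c k2 (.f
  k192 k149 14 (.l (.s k128 k64 7 (.s k129 k66 8 (.s k130 k131 0 (.s k65 k195 8 (.s k1 k193 7 (.s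
  k61 k21 5 (.d k60 k62 k22 0 6))))))))) (.c k60 (.l (.s k1 k2 0 (.s k192 k149 14 (.s k128 k64 7 (.s
  k129 k66 8 (.s k130 k131 0 (.d k65 k193 k195 7 8))))))) (.c k61 (.q k193 [(.s k192 k149 14 (.s
  k129 k66 8 (.d k1 k2 k65 0 7))), (.s k192 k149 14 (.s k195 k194 0 (.s k67 k131 7 (.s k107 k151 13
  (.s k87 k127 5 (.d k255 k171 k215 13 5)))))), (.s k1 k2 0 (.s k129 k65 7 (.d k192 k66 k149 8
  14))), (.s k1 k2 0 (.s k65 k129 7 (.s k195 k130 8 (.s k131 k67 7 (.s k151 k107 13 (.s k191 k171 5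
  (.d k255 k127 k215 7 5)))))))] .n) .n))))) (.c k86 (.l (.s k2 k1 0 (.s k192 k149 14 (.s k66 k129 8
  (.s k130 k194 7 (.s k65 k195 8 (.d k64 k128 k67 7 0))))))) .n)))) (.c k66 (.l (.s k43 k23 5 (.s
  k169 k232 8 (.s k252 k86 14 (.s k149 k192 14 (.d k189 k129 k126 5 8)))))) (.c k86 (.l (.s k2 k1 0
  (.s k192 k149 14 (.s k66 k129 8 (.s k130 k194 7 (.s k65 k195 8 (.d k64 k128 k67 7 0))))))) (.c
  k149 (.f k1 k2 0 (.l (.s k43 k23 5 (.s k169 k232 8 (.s k85 k253 13 (.s k86 k252 14 (.s k64 k127 6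
  (.s k66 k126 5 (.d k192 k128 k129 7 8))))))))) (.c k192 (.f k43 k23 5 (.l (.s k1 k2 0 (.s k169
  k232 8 (.s k85 k253 13 (.s k127 k64 6 (.s k255 k191 7 (.s k87 k171 13 (.d k86 k252 k84 14
  0))))))))) (.c k235 (.q k40 [(.s k23 k43 5 (.s k149 k192 14 (.s k86 k212 8 (.s k126 k66 5 (.d k252
  k189 k169 8 14))))), (.s k1 k2 0 (.s k192 k149 14 (.s k128 k64 7 (.s k129 k66 8 (.s k130 k131 0
  (.d k65 k193 k195 7 8)))))), (.s k60 k20 5 (.s k192 k149 14 (.s k104 k148 13 (.s k232 k168 7 (.d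
  k43 k169 k23 8 5)))))] (.c k149 (.l (.s k60 k20 5 (.s k22 k41 6 (.s k43 k23 5 (.s k169 k232 8 (.s
  k86 k252 14 (.s k150 k214 7 (.d k62 k61 k194 0 13)))))))) (.c k192 (.l (.s k60 k20 5 (.s k22 k41 6
  (.s k43 k23 5 (.s k169 k232 8 (.s k62 k61 0 (.s k150 k194 13 (.d k86 k252 k214 14 7)))))))) .n)))
  .n)))))))

def t42_107 : T TT 256 :=
  (.q k3 [(.s k43 k23 5 (.s k169 k232 8 (.s k86 k252 14 (.s k192 k149 14 (.d k66 k126 k129 5 8))))),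
  (.s k1 k2 0 (.s k192 k149 14 (.s k128 k64 7 (.s k129 k66 8 (.s k65 k193 7 (.d k130 k131 k195 0
  8)))))), (.s k23 k43 5 (.s k149 k192 14 (.s k86 k212 8 (.s k252 k169 14 (.d k126 k66 k189 5
  8)))))] (.c k66 (.l (.s k43 k23 5 (.s k169 k232 8 (.s k252 k86 14 (.s k149 k192 14 (.d k189 k129
  k126 5 8)))))) (.c k86 (.l (.s k2 k1 0 (.s k192 k149 14 (.s k66 k129 8 (.s k130 k194 7 (.s k65
  k195 8 (.d k64 k128 k67 7 0))))))) (.c k149 (.f k43 k23 5 (.l (.s k1 k2 0 (.s k169 k232 8 (.s k85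
  k253 13 (.s k86 k252 14 (.s k64 k127 6 (.s k66 k126 5 (.d k192 k128 k129 7 8))))))))) (.c k192 (.f
  k43 k23 5 (.l (.s k1 k2 0 (.s k169 k232 8 (.s k85 k253 13 (.s k127 k64 6 (.s k255 k191 7 (.s k87
  k171 13 (.d k86 k252 k84 14 0))))))))) .n)))))

def t42_108 : T TT 256 :=
  (.f k192 k149 14 (.q k3 [(.s k43 k23 5 (.s k66 k129 8 (.s k169 k232 8 (.d k86 k126 k252 5 14)))),
  (.s k1 k2 0 (.s k128 k64 7 (.s k129 k66 8 (.s k65 k193 7 (.d k130 k131 k195 0 8))))), (.s k1 k2 0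
  (.s k43 k23 5 (.s k169 k232 8 (.s k85 k253 13 (.d k64 k128 k127 7 6)))))] (.c k86 (.l (.s k2 k1 0
  (.s k66 k129 8 (.s k130 k194 7 (.s k65 k195 8 (.d k64 k67 k128 0 7)))))) (.c k128 (.q k191 [(.s
  k43 k23 5 (.s k169 k232 8 (.s k86 k252 14 (.d k66 k126 k129 5 8)))), (.s k255 k127 7 (.s k171 k87
  13 (.s k151 k131 5 (.s k107 k195 13 (.d k43 k23 k235 5 7))))), (.s k1 k2 0 (.s k66 k129 8 (.s k127
  k255 7 (.s k85 k64 6 (.s k169 k253 13 (.d k86 k252 k126 14 5))))))] (.c k129 (.l (.s k1 k2 0 (.s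
  k43 k23 5 (.s k169 k232 8 (.s k85 k253 13 (.d k127 k64 k255 6 7)))))) .n)) (.c k191 (.l (.s k128
  k64 7 (.s k1 k2 0 (.s k129 k66 8 (.s k65 k193 7 (.d k130 k131 k195 0 8)))))) .n)))))

def t42_109 : T TT 256 :=
  (.f k192 k149 14 (.q k3 [(.s k43 k23 5 (.s k66 k129 8 (.s k169 k232 8 (.d k86 k126 k252 5 14)))),
  (.s k1 k2 0 (.s k128 k64 7 (.s k129 k66 8 (.s k65 k193 7 (.d k130 k131 k195 0 8))))), (.s k1 k2 0
  (.s k43 k23 5 (.s k169 k232 8 (.s k85 k253 13 (.d k64 k128 k127 7 6)))))] (.c k86 (.l (.s k2 k1 0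
  (.s k66 k129 8 (.s k130 k194 7 (.s k65 k195 8 (.d k64 k67 k128 0 7)))))) (.c k128 (.q k191 [(.s
  k43 k23 5 (.s k169 k232 8 (.s k86 k252 14 (.d k66 k126 k129 5 8)))), (.s k255 k127 7 (.s k171 k87
  13 (.s k151 k131 5 (.s k107 k195 13 (.d k43 k23 k235 5 7))))), (.s k1 k2 0 (.s k66 k129 8 (.s k127
  k255 7 (.s k85 k64 6 (.s k169 k253 13 (.d k86 k252 k126 14 5))))))] (.c k129 (.l (.s k1 k2 0 (.s
  k43 k23 5 (.s k169 k232 8 (.s k85 k253 13 (.d k127 k64 k255 6 7)))))) .n)) (.c k191 (.l (.s k128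
  k64 7 (.s k1 k2 0 (.s k129 k66 8 (.s k65 k193 7 (.d k130 k131 k195 0 8)))))) .n)))))

def t42_110 : T TT 256 :=
  (.f k192 k149 14 (.q k3 [(.s k43 k23 5 (.s k66 k129 8 (.s k169 k232 8 (.d k86 k126 k252 5 14)))),
  (.s k1 k2 0 (.s k128 k64 7 (.s k129 k66 8 (.s k65 k193 7 (.d k130 k131 k195 0 8))))), (.s k1 k2 0
  (.s k43 k23 5 (.s k169 k232 8 (.s k85 k253 13 (.d k64 k128 k127 7 6)))))] (.c k86 (.l (.s k2 k1 0
  (.s k66 k129 8 (.s k130 k194 7 (.s k65 k195 8 (.d k64 k67 k128 0 7)))))) (.c k128 (.q k191 [(.s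
  k43 k23 5 (.s k169 k232 8 (.s k86 k252 14 (.d k66 k126 k129 5 8)))), (.s k255 k127 7 (.s k171 k87
  13 (.s k151 k131 5 (.s k107 k195 13 (.d k43 k23 k235 5 7))))), (.s k1 k2 0 (.s k66 k129 8 (.s k127
  k255 7 (.s k85 k64 6 (.s k169 k253 13 (.d k86 k252 k126 14 5))))))] (.c k129 (.l (.s k1 k2 0 (.s
  k43 k23 5 (.s k169 k232 8 (.s k85 k253 13 (.d k127 k64 k255 6 7)))))) .n)) (.c k191 (.l (.s k128
  k64 7 (.s k1 k2 0 (.s k129 k66 8 (.s k65 k193 7 (.d k130 k131 k195 0 8)))))) .n)))))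

def t42_111 : T TT 256 :=
  (.f k192 k149 14 (.q k3 [(.s k43 k23 5 (.s k66 k129 8 (.s k169 k232 8 (.d k86 k126 k252 5 14)))),
  (.s k1 k2 0 (.s k128 k64 7 (.s k129 k66 8 (.s k65 k193 7 (.d k130 k131 k195 0 8))))), (.s k1 k2 0
  (.s k43 k23 5 (.s k169 k232 8 (.s k85 k253 13 (.d k64 k128 k127 7 6)))))] (.c k86 (.l (.s k2 k1 0
  (.s k66 k129 8 (.s k130 k194 7 (.s k65 k195 8 (.d k64 k67 k128 0 7)))))) (.c k128 (.q k191 [(.s
  k43 k23 5 (.s k169 k232 8 (.s k86 k252 14 (.d k66 k126 k129 5 8)))), (.s k255 k127 7 (.s k171 k87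
  13 (.s k151 k131 5 (.s k107 k195 13 (.d k43 k23 k235 5 7))))), (.s k1 k2 0 (.s k66 k129 8 (.s k127
  k255 7 (.s k85 k64 6 (.s k169 k253 13 (.d k86 k252 k126 14 5))))))] (.c k129 (.l (.s k1 k2 0 (.s
  k43 k23 5 (.s k169 k232 8 (.s k85 k253 13 (.d k127 k64 k255 6 7)))))) .n)) (.c k191 (.l (.s k128
  k64 7 (.s k1 k2 0 (.s k129 k66 8 (.s k65 k193 7 (.d k130 k131 k195 0 8)))))) .n)))))

def t42_112 : T TT 256 :=
  (.f k192 k149 14 (.q k3 [(.s k43 k23 5 (.s k66 k129 8 (.s k169 k232 8 (.d k86 k126 k252 5 14)))),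
  (.s k1 k2 0 (.s k128 k64 7 (.s k129 k66 8 (.s k65 k193 7 (.d k130 k131 k195 0 8))))), (.s k1 k2 0
  (.s k43 k23 5 (.s k169 k232 8 (.s k85 k253 13 (.d k64 k128 k127 7 6)))))] (.c k86 (.l (.s k2 k1 0
  (.s k66 k129 8 (.s k130 k194 7 (.s k65 k195 8 (.d k64 k67 k128 0 7)))))) (.c k128 (.q k191 [(.s
  k43 k23 5 (.s k169 k232 8 (.s k86 k252 14 (.d k66 k126 k129 5 8)))), (.s k255 k127 7 (.s k171 k87
  13 (.s k151 k131 5 (.s k107 k195 13 (.d k43 k23 k235 5 7))))), (.s k1 k2 0 (.s k66 k129 8 (.s k127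
  k255 7 (.s k85 k64 6 (.s k169 k253 13 (.d k86 k252 k126 14 5))))))] (.c k129 (.l (.s k1 k2 0 (.s
  k43 k23 5 (.s k169 k232 8 (.s k85 k253 13 (.d k127 k64 k255 6 7)))))) .n)) (.c k191 (.l (.s k128
  k64 7 (.s k1 k2 0 (.s k129 k66 8 (.s k65 k193 7 (.d k130 k131 k195 0 8)))))) .n)))))

def t42_113 : T TT 256 :=
  (.f k192 k149 14 (.q k3 [(.s k43 k23 5 (.s k66 k129 8 (.s k169 k232 8 (.d k86 k126 k252 5 14)))),
  (.s k1 k2 0 (.s k128 k64 7 (.s k129 k66 8 (.s k65 k193 7 (.d k130 k131 k195 0 8))))), (.s k1 k2 0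
  (.s k43 k23 5 (.s k169 k232 8 (.s k85 k253 13 (.d k64 k128 k127 7 6)))))] (.c k86 (.l (.s k2 k1 0
  (.s k66 k129 8 (.s k130 k194 7 (.s k65 k195 8 (.d k64 k67 k128 0 7)))))) (.c k128 (.q k191 [(.s
  k43 k23 5 (.s k169 k232 8 (.s k86 k252 14 (.d k66 k126 k129 5 8)))), (.s k255 k127 7 (.s k171 k87
  13 (.s k151 k131 5 (.s k107 k195 13 (.d k43 k23 k235 5 7))))), (.s k1 k2 0 (.s k66 k129 8 (.s k127
  k255 7 (.s k85 k64 6 (.s k169 k253 13 (.d k86 k252 k126 14 5))))))] (.c k129 (.l (.s k1 k2 0 (.s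
  k43 k23 5 (.s k169 k232 8 (.s k85 k253 13 (.d k127 k64 k255 6 7)))))) .n)) (.c k191 (.l (.s k128
  k64 7 (.s k1 k2 0 (.s k129 k66 8 (.s k65 k193 7 (.d k130 k131 k195 0 8)))))) .n)))))

def t42_114 : T TT 256 :=
  (.f k192 k149 14 (.q k3 [(.s k43 k23 5 (.s k66 k129 8 (.s k169 k232 8 (.d k86 k126 k252 5 14)))),
  (.s k1 k2 0 (.s k128 k64 7 (.s k129 k66 8 (.s k65 k193 7 (.d k130 k131 k195 0 8))))), (.s k1 k2 0
  (.s k43 k23 5 (.s k169 k232 8 (.s k85 k253 13 (.d k64 k128 k127 7 6)))))] (.c k86 (.l (.s k2 k1 0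
  (.s k66 k129 8 (.s k130 k194 7 (.s k65 k195 8 (.d k64 k67 k128 0 7)))))) (.c k128 (.q k191 [(.s
  k43 k23 5 (.s k169 k232 8 (.s k86 k252 14 (.d k66 k126 k129 5 8)))), (.s k255 k127 7 (.s k171 k87
  13 (.s k151 k131 5 (.s k107 k195 13 (.d k43 k23 k235 5 7))))), (.s k1 k2 0 (.s k66 k129 8 (.s k127
  k255 7 (.s k85 k64 6 (.s k169 k253 13 (.d k86 k252 k126 14 5))))))] (.c k129 (.l (.s k1 k2 0 (.s
  k43 k23 5 (.s k169 k232 8 (.s k85 k253 13 (.d k127 k64 k255 6 7)))))) .n)) (.c k191 (.l (.s k128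
  k64 7 (.s k1 k2 0 (.s k129 k66 8 (.s k65 k193 7 (.d k130 k131 k195 0 8)))))) .n)))))

def t42_115 : T TT 256 :=
  (.f k192 k149 14 (.q k3 [(.s k43 k23 5 (.s k66 k129 8 (.s k169 k232 8 (.d k86 k126 k252 5 14)))),
  (.s k1 k2 0 (.s k128 k64 7 (.s k129 k66 8 (.s k65 k193 7 (.d k130 k131 k195 0 8))))), (.s k1 k2 0
  (.s k43 k23 5 (.s k169 k232 8 (.s k85 k253 13 (.d k64 k128 k127 7 6)))))] (.c k86 (.l (.s k2 k1 0
  (.s k66 k129 8 (.s k130 k194 7 (.s k65 k195 8 (.d k64 k67 k128 0 7)))))) (.c k128 (.q k191 [(.s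
  k43 k23 5 (.s k169 k232 8 (.s k86 k252 14 (.d k66 k126 k129 5 8)))), (.s k255 k127 7 (.s k171 k87
  13 (.s k151 k131 5 (.s k107 k195 13 (.d k43 k23 k235 5 7))))), (.s k1 k2 0 (.s k66 k129 8 (.s k127
  k255 7 (.s k85 k64 6 (.s k169 k253 13 (.d k86 k252 k126 14 5))))))] (.c k129 (.l (.s k1 k2 0 (.s
  k43 k23 5 (.s k169 k232 8 (.s k85 k253 13 (.d k127 k64 k255 6 7)))))) .n)) (.c k191 (.l (.s k128
  k64 7 (.s k1 k2 0 (.s k129 k66 8 (.s k65 k193 7 (.d k130 k131 k195 0 8)))))) .n)))))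

def t42_116 : T TT 256 :=
  (.f k192 k149 14 (.q k3 [(.s k43 k23 5 (.s k66 k129 8 (.s k169 k232 8 (.d k86 k126 k252 5 14)))),
  (.s k1 k2 0 (.s k128 k64 7 (.s k129 k66 8 (.s k65 k193 7 (.d k130 k131 k195 0 8))))), (.s k1 k2 0
  (.s k43 k23 5 (.s k169 k232 8 (.s k85 k253 13 (.d k64 k128 k127 7 6)))))] (.c k86 (.l (.s k2 k1 0
  (.s k66 k129 8 (.s k130 k194 7 (.s k65 k195 8 (.d k64 k67 k128 0 7)))))) (.c k128 (.q k191 [(.s
  k43 k23 5 (.s k169 k232 8 (.s k86 k252 14 (.d k66 k126 k129 5 8)))), (.s k255 k127 7 (.s k171 k87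
  13 (.s k151 k131 5 (.s k107 k195 13 (.d k43 k23 k235 5 7))))), (.s k1 k2 0 (.s k66 k129 8 (.s k127
  k255 7 (.s k85 k64 6 (.s k169 k253 13 (.d k86 k252 k126 14 5))))))] (.c k129 (.l (.s k1 k2 0 (.s
  k43 k23 5 (.s k169 k232 8 (.s k85 k253 13 (.d k127 k64 k255 6 7)))))) .n)) (.c k191 (.l (.s k128
  k64 7 (.s k1 k2 0 (.s k129 k66 8 (.s k65 k193 7 (.d k130 k131 k195 0 8)))))) .n)))))

def t42_117 : T TT 256 :=
  (.f k192 k149 14 (.q k3 [(.s k43 k23 5 (.s k66 k129 8 (.s k169 k232 8 (.d k86 k126 k252 5 14)))),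
  (.s k1 k2 0 (.s k128 k64 7 (.s k129 k66 8 (.s k65 k193 7 (.d k130 k131 k195 0 8))))), (.s k1 k2 0
  (.s k43 k23 5 (.s k169 k232 8 (.s k85 k253 13 (.d k64 k128 k127 7 6)))))] (.c k86 (.l (.s k2 k1 0
  (.s k66 k129 8 (.s k130 k194 7 (.s k65 k195 8 (.d k64 k67 k128 0 7)))))) (.c k128 (.q k191 [(.s
  k43 k23 5 (.s k169 k232 8 (.s k86 k252 14 (.d k66 k126 k129 5 8)))), (.s k255 k127 7 (.s k171 k87
  13 (.s k151 k131 5 (.s k107 k195 13 (.d k43 k23 k235 5 7))))), (.s k1 k2 0 (.s k66 k129 8 (.s k127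
  k255 7 (.s k85 k64 6 (.s k169 k253 13 (.d k86 k252 k126 14 5))))))] (.c k129 (.l (.s k1 k2 0 (.s
  k43 k23 5 (.s k169 k232 8 (.s k85 k253 13 (.d k127 k64 k255 6 7)))))) .n)) (.c k191 (.l (.s k128
  k64 7 (.s k1 k2 0 (.s k129 k66 8 (.s k65 k193 7 (.d k130 k131 k195 0 8)))))) .n)))))

def t42_118 : T TT 256 :=
  (.f k192 k149 14 (.q k3 [(.s k43 k23 5 (.s k66 k129 8 (.s k169 k232 8 (.d k86 k126 k252 5 14)))),
  (.s k1 k2 0 (.s k128 k64 7 (.s k129 k66 8 (.s k65 k193 7 (.d k130 k131 k195 0 8))))), (.s k1 k2 0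
  (.s k43 k23 5 (.s k169 k232 8 (.s k85 k253 13 (.d k64 k128 k127 7 6)))))] (.c k86 (.l (.s k2 k1 0
  (.s k66 k129 8 (.s k130 k194 7 (.s k65 k195 8 (.d k64 k67 k128 0 7)))))) (.c k128 (.q k191 [(.s
  k43 k23 5 (.s k169 k232 8 (.s k86 k252 14 (.d k66 k126 k129 5 8)))), (.s k255 k127 7 (.s k171 k87
  13 (.s k151 k131 5 (.s k107 k195 13 (.d k43 k23 k235 5 7))))), (.s k1 k2 0 (.s k66 k129 8 (.s k127
  k255 7 (.s k85 k64 6 (.s k169 k253 13 (.d k86 k252 k126 14 5))))))] (.c k129 (.l (.s k1 k2 0 (.s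
  k43 k23 5 (.s k169 k232 8 (.s k85 k253 13 (.d k127 k64 k255 6 7)))))) .n)) (.c k191 (.l (.s k128
  k64 7 (.s k1 k2 0 (.s k129 k66 8 (.s k65 k193 7 (.d k130 k131 k195 0 8)))))) .n)))))

def t42_119 : T TT 256 :=
  (.f k192 k149 14 (.q k3 [(.s k43 k23 5 (.s k66 k129 8 (.s k169 k232 8 (.d k86 k126 k252 5 14)))),
  (.s k1 k2 0 (.s k128 k64 7 (.s k129 k66 8 (.s k65 k193 7 (.d k130 k131 k195 0 8))))), (.s k1 k2 0
  (.s k43 k23 5 (.s k169 k232 8 (.s k85 k253 13 (.d k64 k128 k127 7 6)))))] (.c k86 (.l (.s k2 k1 0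
  (.s k66 k129 8 (.s k130 k194 7 (.s k65 k195 8 (.d k64 k67 k128 0 7)))))) (.c k128 (.q k191 [(.s
  k43 k23 5 (.s k169 k232 8 (.s k86 k252 14 (.d k66 k126 k129 5 8)))), (.s k255 k127 7 (.s k171 k87
  13 (.s k151 k131 5 (.s k107 k195 13 (.d k43 k23 k235 5 7))))), (.s k1 k2 0 (.s k66 k129 8 (.s k127
  k255 7 (.s k85 k64 6 (.s k169 k253 13 (.d k86 k252 k126 14 5))))))] (.c k129 (.l (.s k1 k2 0 (.s
  k43 k23 5 (.s k169 k232 8 (.s k85 k253 13 (.d k127 k64 k255 6 7)))))) .n)) (.c k191 (.l (.s k128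
  k64 7 (.s k1 k2 0 (.s k129 k66 8 (.s k65 k193 7 (.d k130 k131 k195 0 8)))))) .n)))))

def t42_120 : T TT 256 :=
  (.f k192 k149 14 (.q k3 [(.s k43 k23 5 (.s k66 k129 8 (.s k169 k232 8 (.d k86 k126 k252 5 14)))),
  (.s k1 k2 0 (.s k128 k64 7 (.s k129 k66 8 (.s k65 k193 7 (.d k130 k131 k195 0 8))))), (.s k1 k2 0
  (.s k43 k23 5 (.s k169 k232 8 (.s k85 k253 13 (.d k64 k128 k127 7 6)))))] (.c k86 (.l (.s k2 k1 0
  (.s k66 k129 8 (.s k130 k194 7 (.s k65 k195 8 (.d k64 k67 k128 0 7)))))) (.c k128 (.q k191 [(.s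
  k43 k23 5 (.s k169 k232 8 (.s k86 k252 14 (.d k66 k126 k129 5 8)))), (.s k255 k127 7 (.s k171 k87
  13 (.s k151 k131 5 (.s k107 k195 13 (.d k43 k23 k235 5 7))))), (.s k1 k2 0 (.s k66 k129 8 (.s k127
  k255 7 (.s k85 k64 6 (.s k169 k253 13 (.d k86 k252 k126 14 5))))))] (.c k129 (.l (.s k1 k2 0 (.s
  k43 k23 5 (.s k169 k232 8 (.s k85 k253 13 (.d k127 k64 k255 6 7)))))) .n)) (.c k191 (.l (.s k128
  k64 7 (.s k1 k2 0 (.s k129 k66 8 (.s k65 k193 7 (.d k130 k131 k195 0 8)))))) .n)))))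

def t42_121 : T TT 256 :=
  (.f k192 k149 14 (.q k3 [(.s k43 k23 5 (.s k66 k129 8 (.s k169 k232 8 (.d k86 k126 k252 5 14)))),
  (.s k1 k2 0 (.s k128 k64 7 (.s k129 k66 8 (.s k65 k193 7 (.d k130 k131 k195 0 8))))), (.s k1 k2 0
  (.s k43 k23 5 (.s k169 k232 8 (.s k85 k253 13 (.d k64 k128 k127 7 6)))))] (.c k86 (.l (.s k2 k1 0
  (.s k66 k129 8 (.s k130 k194 7 (.s k65 k195 8 (.d k64 k67 k128 0 7)))))) (.c k128 (.q k191 [(.s
  k43 k23 5 (.s k169 k232 8 (.s k86 k252 14 (.d k66 k126 k129 5 8)))), (.s k255 k127 7 (.s k171 k87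
  13 (.s k151 k131 5 (.s k107 k195 13 (.d k43 k23 k235 5 7))))), (.s k1 k2 0 (.s k66 k129 8 (.s k127
  k255 7 (.s k85 k64 6 (.s k169 k253 13 (.d k86 k252 k126 14 5))))))] (.c k129 (.l (.s k1 k2 0 (.s
  k43 k23 5 (.s k169 k232 8 (.s k85 k253 13 (.d k127 k64 k255 6 7)))))) .n)) (.c k191 (.l (.s k128
  k64 7 (.s k1 k2 0 (.s k129 k66 8 (.s k65 k193 7 (.d k130 k131 k195 0 8)))))) .n)))))

def t42_122 : T TT 256 :=
  (.f k192 k149 14 (.q k3 [(.s k43 k23 5 (.s k66 k129 8 (.s k169 k232 8 (.d k86 k126 k252 5 14)))),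
  (.s k1 k2 0 (.s k128 k64 7 (.s k129 k66 8 (.s k65 k193 7 (.d k130 k131 k195 0 8))))), (.s k1 k2 0
  (.s k43 k23 5 (.s k169 k232 8 (.s k85 k253 13 (.d k64 k128 k127 7 6)))))] (.c k86 (.l (.s k2 k1 0
  (.s k66 k129 8 (.s k130 k194 7 (.s k65 k195 8 (.d k64 k67 k128 0 7)))))) (.c k128 (.q k191 [(.s
  k43 k23 5 (.s k169 k232 8 (.s k86 k252 14 (.d k66 k126 k129 5 8)))), (.s k255 k127 7 (.s k171 k87
  13 (.s k151 k131 5 (.s k107 k195 13 (.d k43 k23 k235 5 7))))), (.s k1 k2 0 (.s k66 k129 8 (.s k127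
  k255 7 (.s k85 k64 6 (.s k169 k253 13 (.d k86 k252 k126 14 5))))))] (.c k129 (.l (.s k1 k2 0 (.s
  k43 k23 5 (.s k169 k232 8 (.s k85 k253 13 (.d k127 k64 k255 6 7)))))) .n)) (.c k191 (.l (.s k128
  k64 7 (.s k1 k2 0 (.s k129 k66 8 (.s k65 k193 7 (.d k130 k131 k195 0 8)))))) .n)))))

def t42_123 : T TT 256 :=
  (.f k192 k149 14 (.q k3 [(.s k43 k23 5 (.s k66 k129 8 (.s k169 k232 8 (.d k86 k126 k252 5 14)))),
  (.s k1 k2 0 (.s k128 k64 7 (.s k129 k66 8 (.s k65 k193 7 (.d k130 k131 k195 0 8))))), (.s k1 k2 0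
  (.s k43 k23 5 (.s k169 k232 8 (.s k85 k253 13 (.d k64 k128 k127 7 6)))))] (.c k86 (.l (.s k2 k1 0
  (.s k66 k129 8 (.s k130 k194 7 (.s k65 k195 8 (.d k64 k67 k128 0 7)))))) (.c k128 (.q k191 [(.s
  k43 k23 5 (.s k169 k232 8 (.s k86 k252 14 (.d k66 k126 k129 5 8)))), (.s k255 k127 7 (.s k171 k87
  13 (.s k151 k131 5 (.s k107 k195 13 (.d k43 k23 k235 5 7))))), (.s k1 k2 0 (.s k66 k129 8 (.s k127
  k255 7 (.s k85 k64 6 (.s k169 k253 13 (.d k86 k252 k126 14 5))))))] (.c k129 (.l (.s k1 k2 0 (.s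
  k43 k23 5 (.s k169 k232 8 (.s k85 k253 13 (.d k127 k64 k255 6 7)))))) .n)) (.c k191 (.l (.s k128
  k64 7 (.s k1 k2 0 (.s k129 k66 8 (.s k65 k193 7 (.d k130 k131 k195 0 8)))))) .n)))))

def t42_124 : T TT 256 :=
  (.f k192 k149 14 (.q k3 [(.s k43 k23 5 (.s k66 k129 8 (.s k169 k232 8 (.d k86 k126 k252 5 14)))),
  (.s k1 k2 0 (.s k128 k64 7 (.s k129 k66 8 (.s k65 k193 7 (.d k130 k131 k195 0 8))))), (.s k1 k2 0
  (.s k43 k23 5 (.s k169 k232 8 (.s k85 k253 13 (.d k64 k128 k127 7 6)))))] (.c k86 (.l (.s k2 k1 0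
  (.s k66 k129 8 (.s k130 k194 7 (.s k65 k195 8 (.d k64 k67 k128 0 7)))))) (.c k128 (.q k191 [(.s
  k43 k23 5 (.s k169 k232 8 (.s k86 k252 14 (.d k66 k126 k129 5 8)))), (.s k255 k127 7 (.s k171 k87
  13 (.s k151 k131 5 (.s k107 k195 13 (.d k43 k23 k235 5 7))))), (.s k1 k2 0 (.s k66 k129 8 (.s k127
  k255 7 (.s k85 k64 6 (.s k169 k253 13 (.d k86 k252 k126 14 5)))))), (.s k1 k2 0 (.s k43 k23 5 (.s
  k169 k232 8 (.s k85 k253 13 (.d k127 k64 k255 6 7)))))] .n) (.c k191 (.l (.s k128 k64 7 (.s k1 k2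
  0 (.s k129 k66 8 (.s k65 k193 7 (.d k130 k131 k195 0 8)))))) .n)))))

def t42_125 : T TT 256 :=
  (.f k192 k149 14 (.q k3 [(.s k43 k23 5 (.s k66 k129 8 (.s k169 k232 8 (.d k86 k126 k252 5 14)))),
  (.s k1 k2 0 (.s k128 k64 7 (.s k129 k66 8 (.s k65 k193 7 (.d k130 k131 k195 0 8))))), (.s k1 k2 0
  (.s k43 k23 5 (.s k169 k232 8 (.s k85 k253 13 (.d k64 k128 k127 7 6)))))] (.c k86 (.l (.s k2 k1 0
  (.s k66 k129 8 (.s k130 k194 7 (.s k65 k195 8 (.d k64 k67 k128 0 7)))))) (.c k128 (.q k191 [(.s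
  k43 k23 5 (.s k169 k232 8 (.s k86 k252 14 (.d k66 k126 k129 5 8)))), (.s k255 k127 7 (.s k171 k87
  13 (.s k151 k131 5 (.s k107 k195 13 (.d k43 k23 k235 5 7))))), (.s k1 k2 0 (.s k66 k129 8 (.s k127
  k255 7 (.s k85 k64 6 (.s k169 k253 13 (.d k86 k252 k126 14 5)))))), (.s k1 k2 0 (.s k43 k23 5 (.s
  k169 k232 8 (.s k85 k253 13 (.d k127 k64 k255 6 7)))))] .n) (.c k191 (.l (.s k128 k64 7 (.s k1 k2
  0 (.s k129 k66 8 (.s k65 k193 7 (.d k130 k131 k195 0 8)))))) .n)))))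

def t42_126 : T TT 256 :=
  (.f k192 k149 14 (.q k105 [(.s k104 k107 0 (.s k60 k148 13 (.s k62 k61 0 (.d k150 k194 k195 13
  14)))), (.s k128 k64 7 (.s k104 k107 0 (.s k148 k60 13 (.s k168 k188 5 (.s k252 k84 13 (.d k232
  k212 k40 5 7))))))] (.c k60 (.l (.s k107 k104 0 (.s k195 k151 13 (.s k65 k130 8 (.s k85 k125 5 (.d
  k64 k127 k128 6 7)))))) (.c k104 (.q k3 [(.s k2 k1 0 (.s k66 k129 8 (.s k130 k194 7 (.s k65 k195 8
  (.d k64 k128 k67 7 0))))), (.s k1 k2 0 (.s k43 k23 5 (.s k169 k232 8 (.s k85 k253 13 (.d k64 k128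
  k127 7 6))))), (.s k43 k23 5 (.s k66 k129 8 (.s k169 k232 8 (.s k86 k252 14 (.s k67 k124 6 (.d k64
  k128 k65 7 0))))))] (.c k64 (.l (.s k2 k1 0 (.s k66 k129 8 (.s k194 k130 7 (.s k150 k62 13 (.d
  k195 k193 k60 0 14)))))) (.c k128 (.q k191 [(.s k129 k66 8 (.s k127 k255 7 (.s k85 k64 6 (.s k65
  k125 5 (.d k1 k2 k193 0 7))))), (.s k43 k23 5 (.s k255 k127 7 (.s k171 k87 13 (.s k107 k235 7 (.d
  k151 k131 k195 5 13))))), (.s k1 k2 0 (.s k43 k23 5 (.s k129 k66 8 (.s k65 k193 7 (.s k169 k232 8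
  (.d k85 k125 k253 5 13))))))] (.c k125 (.l (.s k1 k2 0 (.s k43 k23 5 (.s k169 k232 8 (.s k85 k253
  13 (.d k127 k64 k255 6 7)))))) .n)) (.c k169 (.l (.s k1 k2 0 (.s k128 k64 7 (.s k129 k66 8 (.s k65
  k193 7 (.d k130 k131 k195 0 8)))))) (.c k191 (.l (.s k128 k64 7 (.s k1 k2 0 (.s k129 k66 8 (.s k65
  k193 7 (.d k130 k131 k195 0 8)))))) .n))))) (.c k107 (.q k3 [(.s k2 k1 0 (.s k66 k129 8 (.s k130
  k194 7 (.s k65 k195 8 (.d k64 k128 k67 7 0))))), (.s k1 k2 0 (.s k43 k23 5 (.s k169 k232 8 (.s k85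
  k253 13 (.d k64 k128 k127 7 6))))), (.s k43 k23 5 (.s k66 k129 8 (.s k169 k232 8 (.s k86 k252 14
  (.s k67 k124 6 (.d k64 k128 k65 7 0))))))] (.c k64 (.l (.s k2 k1 0 (.s k66 k129 8 (.s k194 k130 7
  (.s k150 k62 13 (.d k195 k193 k60 0 14)))))) (.c k128 (.q k191 [(.s k43 k23 5 (.s k169 k232 8 (.s
  k127 k255 7 (.s k85 k64 6 (.d k1 k2 k253 0 13))))), (.s k129 k66 8 (.s k127 k255 7 (.s k85 k64 6
  (.s k65 k125 5 (.d k1 k2 k193 0 7))))), (.s k43 k23 5 (.s k169 k232 8 (.s k41 k233 7 (.s k60 k22 6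
  (.s k62 k61 0 (.d k150 k194 k195 13 14))))))] (.c k2 (.l (.s k43 k23 5 (.s k169 k232 8 (.s k41
  k233 7 (.s k60 k22 6 (.s k62 k61 0 (.d k150 k194 k195 13 14))))))) .n)) (.c k169 (.l (.s k1 k2 0
  (.s k128 k64 7 (.s k129 k66 8 (.s k65 k193 7 (.d k130 k131 k195 0 8)))))) (.c k191 (.l (.s k128
  k64 7 (.s k1 k2 0 (.s k129 k66 8 (.s k65 k193 7 (.d k130 k131 k195 0 8)))))) .n))))) (.c k128 (.q
  k191 [(.s k107 k104 0 (.s k195 k151 13 (.s k150 k60 14 (.d k194 k193 k62 0 13)))), (.s k127 k255 7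
  (.s k85 k64 6 (.s k65 k125 5 (.s k107 k104 0 (.d k195 k130 k151 8 13))))), (.s k127 k255 7 (.s k85
  k64 6 (.s k65 k125 5 (.s k195 k130 8 (.s k194 k193 0 (.d k150 k60 k62 14 13))))))] (.c k60 (.l (.s
  k127 k255 7 (.s k85 k64 6 (.s k107 k104 0 (.s k195 k151 13 (.d k65 k125 k130 5 8)))))) (.c k195
  (.l (.s k127 k255 7 (.s k64 k85 6 (.s k104 k107 0 (.s k60 k148 13 (.s k40 k20 5 (.s k168 k232 7
  (.d k84 k124 k252 5 13)))))))) .n))) (.c k148 (.l (.s k107 k104 0 (.s k195 k151 13 (.s k150 k60 14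
  (.d k194 k193 k62 0 13))))) (.c k191 (.l (.s k128 k64 7 (.s k104 k107 0 (.s k60 k148 13 (.s k62
  k61 0 (.d k150 k194 k195 13 14)))))) .n))))))))

def t42_127 : T TT 256 :=
  (.f k192 k149 14 (.f k128 k64 7 (.q k168 [(.s k252 k84 13 (.s k148 k188 5 (.s k104 k60 13 (.d k232
  k212 k40 5 7)))), (.s k252 k84 13 (.s k126 k189 8 (.s k86 k66 5 (.s k169 k3 14 (.d k232 k212 k43 5
  8)))))] (.c k84 (.l (.s k148 k188 5 (.s k104 k60 13 (.s k232 k40 7 (.s k252 k212 5 (.s k126 k189 8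
  (.s k86 k66 5 (.d k169 k43 k3 8 14)))))))) (.c k104 (.l (.s k188 k148 5 (.s k252 k84 13 (.s k124
  k60 7 (.s k126 k189 8 (.s k86 k66 5 (.s k169 k3 14 (.d k232 k212 k43 5 8)))))))) (.c k124 (.l (.s
  k84 k252 13 (.s k148 k188 5 (.s k60 k104 13 (.d k20 k40 k212 5 7))))) (.c k212 (.l (.s k252 k84 13
  (.s k126 k189 8 (.s k86 k66 5 (.s k169 k3 14 (.s k232 k43 8 (.s k148 k188 5 (.d k104 k40 k60 7
  13)))))))) (.c k232 (.l (.s k84 k252 13 (.s k148 k188 5 (.s k20 k212 7 (.d k60 k40 k104 5 13)))))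
  (.c k252 (.q k3 [(.s k129 k66 8 (.s k130 k131 0 (.s k65 k195 8 (.d k1 k2 k193 0 7)))), (.s k43 k23
  5 (.s k232 k169 8 (.s k104 k40 7 (.d k148 k188 k60 5 13))))] (.c k129 (.l (.s k2 k1 0 (.s k148
  k188 5 (.s k60 k104 13 (.s k62 k61 0 (.s k194 k150 13 (.s k130 k66 7 (.d k195 k193 k65 0 8))))))))
  .n)) .n)))))))))

def t42_128 : T TT 256 :=
  (.f k149 k192 14 (.q k3 [(.s k43 k23 5 (.s k169 k232 8 (.s k252 k86 14 (.d k189 k129 k126 5 8)))),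
  (.s k23 k43 5 (.s k86 k212 8 (.s k252 k169 14 (.d k126 k66 k189 5 8))))] (.c k23 (.q k105 [(.s k61
  k193 13 (.s k107 k104 0 (.s k195 k151 13 (.d k60 k62 k150 0 14)))), (.s k1 k2 0 (.s k193 k61 13
  (.s k65 k129 7 (.s k85 k125 5 (.s k253 k169 13 (.d k213 k233 k21 5 7)))))), (.s k107 k104 0 (.s
  k195 k151 13 (.s k65 k130 8 (.s k85 k125 5 (.s k64 k127 6 (.d k67 k131 k66 7 0))))))] .n) (.c k43
  (.q k105 [(.s k61 k193 13 (.s k107 k104 0 (.s k195 k151 13 (.d k60 k62 k150 0 14)))), (.s k1 k2 0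
  (.s k193 k61 13 (.s k65 k129 7 (.s k85 k125 5 (.s k253 k169 13 (.d k213 k233 k21 5 7)))))), (.s
  k107 k104 0 (.s k195 k151 13 (.s k65 k130 8 (.s k85 k125 5 (.s k64 k127 6 (.d k67 k131 k66 7
  0))))))] (.c k40 (.q k41 [(.s k60 k22 6 (.d k61 k62 k193 0 13)), (.s k61 k193 13 (.d k1 k2 k21 0
  5)), (.s k60 k22 6 (.s k195 k150 14 (.d k107 k104 k151 0 13)))] (.c k2 (.l (.s k61 k193 13 (.d k60
  k62 k22 0 6))) .n)) (.c k41 (.q k40 [(.s k60 k20 5 (.d k61 k62 k193 0 13)), (.s k104 k107 0 (.s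
  k168 k232 7 (.s k252 k84 13 (.s k86 k169 14 (.d k126 k66 k189 5 8)))))] .n) .n))) (.c k86 (.q k62
  [(.s k60 k61 0 (.s k150 k194 13 (.s k151 k148 0 (.d k195 k107 k105 13 14)))), (.s k43 k23 5 (.s
  k169 k232 8 (.s k61 k60 0 (.s k189 k129 5 (.s k253 k125 7 (.d k1 k2 k85 0 13)))))), (.s k43 k23 5
  (.s k169 k232 8 (.s k150 k194 13 (.s k131 k188 6 (.s k195 k67 7 (.d k151 k148 k107 0 13))))))] (.c
  k2 (.q k254 [(.s k43 k23 5 (.s k169 k232 8 (.s k126 k190 7 (.d k189 k252 k129 8 5)))), (.s k60 k61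
  0 (.s k150 k194 13 (.s k195 k105 14 (.d k151 k148 k107 0 13))))] (.c k130 (.l (.s k43 k23 5 (.s
  k169 k232 8 (.s k60 k61 0 (.s k41 k22 6 (.s k105 k233 7 (.d k150 k194 k195 13 14))))))) (.c k150
  (.l (.s k43 k23 5 (.s k169 k232 8 (.s k189 k129 5 (.d k126 k252 k190 8 7))))) .n))) (.c k148 (.l
  (.s k43 k23 5 (.s k169 k232 8 (.s k60 k61 0 (.s k41 k22 6 (.s k105 k233 7 (.d k150 k194 k195 13
  14))))))) (.c k254 (.l (.s k2 k1 0 (.s k60 k61 0 (.s k150 k194 13 (.s k195 k105 14 (.d k151 k148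
  k107 0 13)))))) .n)))) (.c k126 (.q k105 [(.s k61 k193 13 (.s k107 k104 0 (.s k195 k151 13 (.d k60
  k62 k150 0 14)))), (.s k1 k2 0 (.s k43 k23 5 (.s k169 k232 8 (.s k41 k233 7 (.d k61 k21 k193 5
  13))))), (.s k23 k43 5 (.s k86 k212 8 (.s k67 k124 6 (.s k195 k131 7 (.d k107 k104 k151 0 13)))))]
  .n) (.c k169 (.f k23 k43 5 (.f k86 k212 8 (.l (.s k2 k1 0 (.s k66 k126 5 (.s k130 k194 7 (.s k195
  k65 8 (.s k67 k131 7 (.s k107 k151 13 (.d k105 k104 k124 0 6)))))))))) (.c k189 (.q k105 [(.s k61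
  k193 13 (.s k107 k104 0 (.s k195 k151 13 (.d k60 k62 k150 0 14)))), (.s k1 k2 0 (.s k43 k23 5 (.s
  k169 k232 8 (.s k41 k233 7 (.d k61 k21 k193 5 13))))), (.s k23 k43 5 (.s k86 k212 8 (.s k67 k124 6
  (.s k195 k131 7 (.d k107 k104 k151 0 13)))))] .n) (.c k212 (.l (.s k43 k23 5 (.s k169 k232 8 (.s
  k252 k86 14 (.d k189 k129 k126 5 8))))) (.c k232 (.l (.s k23 k43 5 (.s k86 k212 8 (.s k252 k169 14
  (.d k126 k66 k189 5 8))))) (.c k252 (.f k43 k23 5 (.q k105 [(.s k1 k2 0 (.s k193 k61 13 (.s k129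
  k65 7 (.d k169 k232 k189 8 5)))), (.s k107 k104 0 (.s k171 k235 7 (.s k87 k255 13 (.s k195 k151 13
  (.d k67 k127 k131 5 7)))))] (.c k212 (.l (.s k232 k169 8 (.s k1 k2 0 (.s k61 k193 13 (.s k41 k21 5
  (.d k60 k62 k22 0 6)))))) (.c k232 (.q k212 [(.s k1 k2 0 (.s k61 k193 13 (.s k41 k21 5 (.d k60 k62
  k22 0 6)))), (.s k107 k104 0 (.s k171 k235 7 (.s k87 k255 13 (.s k195 k151 13 (.d k67 k127 k131 5
  7))))), (.s k1 k2 0 (.s k193 k61 13 (.s k65 k129 7 (.s k85 k125 5 (.s k253 k169 13 (.d k213 k233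
  k21 5 7))))))] (.c k254 (.l (.s k61 k193 13 (.s k60 k62 0 (.s k195 k150 14 (.d k107 k104 k151 0
  13))))) .n)) (.c k254 (.l (.s k61 k193 13 (.s k60 k62 0 (.s k195 k150 14 (.d k107 k104 k151 0
  13))))) .n))))) .n)))))))))))

def t42_129 : T TT 256 :=
  (.q k12 [(.s k46 k29 4 (.s k166 k226 9 (.s k89 k243 14 (.s k192 k149 14 (.d k72 k123 k132 4
  9))))), (.s k4 k8 1 (.s k192 k149 14 (.s k128 k64 7 (.s k132 k72 9 (.s k68 k196 7 (.d k136 k140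
  k204 1 9)))))), (.s k29 k46 4 (.s k149 k192 14 (.s k89 k209 9 (.s k243 k166 14 (.d k123 k72 k183 4
  9)))))] (.c k72 (.l (.s k46 k29 4 (.s k166 k226 9 (.s k243 k89 14 (.s k149 k192 14 (.d k183 k132
  k123 4 9)))))) (.c k89 (.l (.s k8 k4 1 (.s k192 k149 14 (.s k72 k132 9 (.s k136 k200 7 (.s k68
  k204 9 (.d k64 k128 k76 7 1))))))) (.c k149 (.q k128 [(.s k192 k64 7 (.s k132 k72 9 (.s k136 k140
  1 (.s k68 k204 9 (.d k4 k8 k196 1 7))))), (.s k4 k8 1 (.s k64 k192 7 (.s k46 k29 4 (.s k166 k226 9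
  (.d k85 k127 k247 6 12))))), (.s k192 k64 7 (.s k46 k29 4 (.s k72 k132 9 (.s k166 k226 9 (.d k89
  k123 k243 4 14)))))] (.c k64 (.l (.s k8 k4 1 (.s k46 k29 4 (.s k166 k226 9 (.s k89 k243 14 (.s k72
  k123 4 (.s k136 k200 7 (.d k132 k192 k140 9 1)))))))) (.c k169 (.q k189 [(.s k192 k64 7 (.s k132
  k72 9 (.s k136 k140 1 (.s k68 k204 9 (.d k4 k8 k196 1 7))))), (.s k8 k4 1 (.s k252 k126 8 (.s k168
  k84 13 (.s k88 k248 11 (.s k164 k240 13 (.d k172 k160 k92 1 11)))))), (.s k192 k64 7 (.s k46 k29 4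
  (.s k72 k132 9 (.s k166 k226 9 (.d k89 k123 k243 4 14)))))] (.c k168 (.q k171 [(.s k192 k64 7 (.s
  k132 k72 9 (.s k136 k140 1 (.s k68 k204 9 (.d k4 k8 k196 1 7))))), (.s k4 k8 1 (.s k64 k192 7 (.s
  k46 k29 4 (.s k166 k226 9 (.d k85 k127 k247 6 12))))), (.s k192 k64 7 (.s k46 k29 4 (.s k72 k132 9
  (.s k166 k226 9 (.d k89 k123 k243 4 14)))))] (.c k64 (.l (.s k8 k4 1 (.s k46 k29 4 (.s k166 k226 9
  (.s k89 k243 14 (.s k72 k123 4 (.s k136 k200 7 (.d k132 k192 k140 9 1)))))))) (.c k192 (.q k3 [(.s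
  k6 k9 2 (.s k46 k29 4 (.s k166 k226 9 (.s k86 k246 11 (.d k126 k66 k252 5 8))))), (.s k23 k43 5
  (.s k87 k255 13 (.s k151 k215 7 (.s k195 k107 13 (.d k131 k191 k67 5 7)))))] .n) .n))) (.c k171
  (.q k168 [(.d k252 k126 k84 8 13), (.s k64 k192 7 (.s k127 k85 6 (.s k191 k255 7 (.d k188 k190
  k148 0 5))))] .n) .n))) (.c k189 (.q k169 [(.s k64 k192 7 (.s k46 k29 4 (.s k166 k226 9 (.s k85
  k127 6 (.d k4 k8 k247 1 12))))), (.s k4 k8 1 (.s k192 k64 7 (.s k132 k72 9 (.s k68 k196 7 (.d k136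
  k140 k204 1 9))))), (.s k46 k29 4 (.s k43 k232 8 (.s k3 k23 5 (.s k6 k9 2 (.s k166 k226 9 (.d k86
  k246 k252 11 14))))))] (.c k89 (.l (.s k64 k192 7 (.s k43 k232 8 (.s k3 k23 5 (.s k1 k2 0 (.d k85
  k127 k253 6 13)))))) .n)) (.c k192 (.q k3 [(.s k6 k9 2 (.s k43 k23 5 (.s k46 k29 4 (.s k169 k232 8
  (.s k166 k226 9 (.d k86 k252 k246 14 11)))))), (.s k1 k2 0 (.s k8 k4 1 (.s k9 k6 2 (.s k5 k13 1
  (.d k10 k11 k15 0 2))))), (.s k43 k23 5 (.s k46 k29 4 (.s k169 k232 8 (.s k166 k226 9 (.s k163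
  k172 2 (.d k243 k89 k83 14 11))))))] (.c k86 (.l (.s k2 k1 0 (.s k4 k8 1 (.s k6 k9 2 (.s k10 k14 1
  (.d k5 k7 k15 0 2)))))) (.c k169 (.q k189 [(.s k6 k9 2 (.s k46 k29 4 (.s k166 k226 9 (.s k86 k246
  11 (.d k126 k66 k252 5 8))))), (.s k8 k4 1 (.s k252 k126 8 (.s k168 k84 13 (.s k88 k248 11 (.s
  k164 k240 13 (.d k172 k160 k92 1 11)))))), (.s k1 k2 0 (.s k8 k4 1 (.s k9 k6 2 (.s k5 k13 1 (.d
  k10 k11 k15 0 2)))))] (.c k168 (.q k171 [(.s k6 k9 2 (.s k46 k29 4 (.s k166 k226 9 (.s k86 k246 11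
  (.d k126 k66 k252 5 8))))), (.s k23 k43 5 (.s k87 k255 13 (.s k151 k215 7 (.s k195 k107 13 (.d
  k131 k191 k67 5 7)))))] .n) (.c k171 (.q k168 [(.d k252 k126 k84 8 13), (.s k1 k2 0 (.s k8 k4 1
  (.s k9 k6 2 (.s k5 k13 1 (.d k10 k11 k15 0 2)))))] .n) .n))) (.c k189 (.q k169 [(.d k43 k23 k232 5
  8), (.s k6 k9 2 (.s k46 k29 4 (.s k166 k226 9 (.d k86 k246 k252 11 14))))] .n) .n)))) .n))))) (.c
  k192 (.q k3 [(.s k6 k9 2 (.s k43 k23 5 (.s k46 k29 4 (.s k169 k232 8 (.s k166 k226 9 (.d k86 k252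
  k246 14 11)))))), (.s k2 k1 0 (.s k4 k8 1 (.s k6 k9 2 (.s k10 k14 1 (.d k5 k7 k15 0 2))))), (.s
  k43 k23 5 (.s k46 k29 4 (.s k169 k232 8 (.s k252 k86 14 (.s k172 k92 11 (.d k166 k163 k226 2
  9))))))] .n) .n)))))

def t42_130 : T TT 256 :=
  (.q k12 [(.s k46 k29 4 (.s k166 k226 9 (.s k89 k243 14 (.s k192 k149 14 (.d k72 k123 k132 4
  9))))), (.s k4 k8 1 (.s k192 k149 14 (.s k128 k64 7 (.s k132 k72 9 (.s k68 k196 7 (.d k136 k140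
  k204 1 9)))))), (.s k29 k46 4 (.s k149 k192 14 (.s k89 k209 9 (.s k243 k166 14 (.d k123 k72 k183 4
  9)))))] (.c k72 (.l (.s k46 k29 4 (.s k166 k226 9 (.s k243 k89 14 (.s k149 k192 14 (.d k183 k132
  k123 4 9)))))) (.c k89 (.l (.s k8 k4 1 (.s k192 k149 14 (.s k72 k132 9 (.s k136 k200 7 (.s k68
  k204 9 (.d k64 k128 k76 7 1))))))) (.c k149 (.f k46 k29 4 (.l (.s k4 k8 1 (.s k166 k226 9 (.s k85
  k247 12 (.s k89 k243 14 (.s k64 k127 6 (.s k72 k123 4 (.d k192 k128 k132 7 9))))))))) (.c k150 (.q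
  k190 [(.s k29 k46 4 (.s k149 k192 14 (.s k89 k209 9 (.s k123 k72 4 (.d k243 k183 k166 9 14))))),
  (.s k4 k8 1 (.s k192 k149 14 (.s k128 k64 7 (.s k132 k72 9 (.s k68 k196 7 (.d k136 k140 k204 1
  9))))))] (.c k72 (.l (.s k46 k29 4 (.s k166 k226 9 (.s k243 k89 14 (.s k149 k192 14 (.d k183 k132
  k123 4 9)))))) (.c k89 (.l (.s k8 k4 1 (.s k192 k149 14 (.s k72 k132 9 (.s k136 k200 7 (.s k68
  k204 9 (.d k64 k128 k76 7 1))))))) (.c k149 (.f k46 k29 4 (.l (.s k4 k8 1 (.s k166 k226 9 (.s k85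
  k247 12 (.s k89 k243 14 (.s k64 k127 6 (.s k72 k123 4 (.d k192 k128 k132 7 9))))))))) (.c k192 (.f
  k46 k29 4 (.l (.s k4 k8 1 (.s k166 k226 9 (.s k85 k247 12 (.s k127 k64 6 (.s k255 k191 7 (.s k93
  k174 12 (.d k89 k243 k81 14 1))))))))) .n))))) (.c k190 (.q k150 [(.s k46 k29 4 (.s k166 k226 9
  (.s k89 k243 14 (.s k192 k149 14 (.d k72 k123 k132 4 9))))), (.s k62 k194 13 (.s k60 k61 0 (.s
  k105 k195 14 (.s k192 k149 14 (.d k104 k107 k148 0 13))))), (.s k46 k29 4 (.s k166 k226 9 (.s k89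
  k243 14 (.s k28 k211 10 (.s k60 k44 3 (.d k62 k61 k194 0 13))))))] (.c k192 (.l (.s k46 k29 4 (.s
  k166 k226 9 (.s k243 k89 14 (.s k62 k194 13 (.s k60 k61 0 (.d k182 k134 k121 3 10))))))) .n)) (.c
  k192 (.q k150 [(.s k46 k29 4 (.s k166 k226 9 (.s k134 k182 3 (.s k195 k73 10 (.s k105 k60 14 (.d
  k107 k104 k151 0 13)))))), (.s k62 k194 13 (.s k60 k61 0 (.s k28 k44 3 (.s k89 k211 10 (.s k243
  k166 14 (.d k123 k72 k183 4 9)))))), (.s k46 k29 4 (.s k62 k194 13 (.s k30 k14 3 (.s k60 k61 0 (.s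
  k44 k28 3 (.d k45 k47 k15 0 4))))))] (.c k60 (.l (.s k46 k29 4 (.s k166 k226 9 (.s k62 k194 13 (.s
  k14 k30 3 (.s k242 k90 13 (.d k182 k134 k122 3 9))))))) (.c k195 (.l (.s k46 k29 4 (.s k166 k226 9
  (.s k243 k89 14 (.s k182 k134 3 (.s k60 k121 10 (.d k62 k61 k194 0 13))))))) .n))) .n)))))))

def t42_131 : T TT 256 :=
  (.q k51 [(.s k59 k55 1 (.s k153 k200 12 (.s k102 k204 14 (.s k192 k149 14 (.d k98 k110 k145 1
  12))))), (.s k17 k34 4 (.s k192 k149 14 (.s k128 k64 7 (.s k145 k98 12 (.s k81 k209 7 (.d k162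
  k179 k243 4 12)))))), (.s k55 k59 1 (.s k149 k192 14 (.s k102 k196 12 (.s k204 k153 14 (.d k110
  k98 k157 1 12)))))] (.c k98 (.l (.s k59 k55 1 (.s k153 k200 12 (.s k204 k102 14 (.s k149 k192 14
  (.d k157 k145 k110 1 12)))))) (.c k102 (.l (.s k34 k17 4 (.s k192 k149 14 (.s k98 k145 12 (.s k162
  k226 7 (.s k81 k243 12 (.d k64 k128 k115 7 4))))))) (.c k149 (.q k128 [(.s k192 k64 7 (.s k59 k55
  1 (.s k98 k145 12 (.s k153 k200 12 (.d k102 k110 k204 1 14))))), (.s k192 k64 7 (.s k145 k98 12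
  (.s k162 k179 4 (.s k81 k243 12 (.d k17 k34 k209 4 7))))), (.s k17 k34 4 (.s k64 k192 7 (.s k59
  k55 1 (.s k153 k200 12 (.d k85 k127 k221 6 9)))))] (.c k64 (.l (.s k34 k17 4 (.s k59 k55 1 (.s
  k153 k200 12 (.s k102 k204 14 (.s k98 k110 1 (.s k162 k226 7 (.d k145 k192 k179 12 4)))))))) (.c
  k192 (.q k3 [(.s k2 k1 0 (.s k34 k17 4 (.s k18 k50 3 (.s k33 k48 4 (.d k35 k32 k19 0 3))))), (.s
  k43 k23 5 (.s k169 k232 8 (.s k59 k55 1 (.s k153 k200 12 (.s k137 k185 3 (.d k204 k102 k70 14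
  10))))))] .n) .n))) (.c k192 (.q k3 [(.s k2 k1 0 (.s k34 k17 4 (.s k18 k50 3 (.s k33 k48 4 (.d k35
  k32 k19 0 3))))), (.s k43 k23 5 (.s k169 k232 8 (.s k252 k86 14 (.s k59 k55 1 (.s k185 k118 10 (.d
  k153 k137 k200 3 12))))))] (.c k2 (.l (.s k19 k35 3 (.s k23 k43 5 (.s k27 k31 1 (.s k39 k15 5 (.d
  k55 k59 k7 1 3)))))) .n)) .n)))))

def t42_132 : T TT 256 :=
  (.q k126 [(.s k149 k192 14 (.s k252 k189 8 (.s k86 k66 5 (.s k23 k212 8 (.d k3 k43 k169 5 14))))),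
  (.s k192 k149 14 (.s k128 k64 7 (.s k252 k189 8 (.s k168 k84 13 (.s k148 k188 5 (.s k104 k60 13
  (.d k232 k212 k40 5 7)))))))] (.c k129 (.l (.s k149 k192 14 (.s k252 k189 8 (.s k86 k66 5 (.s k3
  k169 14 (.d k23 k43 k212 5 8)))))) (.c k149 (.f k86 k66 5 (.l (.s k252 k189 8 (.s k84 k168 13 (.s
  k169 k3 14 (.s k232 k43 8 (.s k85 k87 0 (.s k64 k127 6 (.d k192 k212 k128 5 7))))))))) (.c k169
  (.f k192 k149 14 (.l (.s k128 k64 7 (.s k66 k86 5 (.s k129 k3 8 (.s k252 k189 8 (.s k130 k131 0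
  (.s k195 k65 8 (.d k194 k2 k193 7 0))))))))) (.c k189 (.l (.s k192 k149 14 (.s k128 k64 7 (.s k66
  k86 5 (.s k129 k3 8 (.s k130 k131 0 (.s k195 k65 8 (.d k194 k2 k193 7 0)))))))) (.c k192 (.f k86
  k66 5 (.l (.s k252 k189 8 (.s k84 k168 13 (.s k85 k87 0 (.s k127 k64 6 (.s k255 k191 7 (.s k253
  k254 0 (.d k169 k1 k3 13 14))))))))) (.c k212 (.l (.s k192 k149 14 (.s k252 k189 8 (.s k84 k168 13
  (.s k86 k66 5 (.s k85 k87 0 (.d k64 k128 k127 7 6))))))) (.c k252 (.l (.s k192 k149 14 (.s k66 k86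
  5 (.s k3 k129 8 (.s k2 k1 0 (.s k130 k194 7 (.s k65 k195 8 (.d k64 k128 k67 7 0)))))))) .n))))))))

def t42_133 : T TT 256 :=
  (.q k3 [(.s k43 k23 5 (.s k169 k232 8 (.s k86 k252 14 (.s k192 k149 14 (.d k66 k126 k129 5 8))))),
  (.s k1 k2 0 (.s k192 k149 14 (.s k128 k64 7 (.s k129 k66 8 (.s k65 k193 7 (.d k130 k131 k195 0
  8)))))), (.s k23 k43 5 (.s k149 k192 14 (.s k86 k212 8 (.s k252 k169 14 (.d k126 k66 k189 5
  8)))))] (.c k66 (.l (.s k43 k23 5 (.s k169 k232 8 (.s k252 k86 14 (.s k149 k192 14 (.d k189 k129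
  k126 5 8)))))) (.c k86 (.l (.s k2 k1 0 (.s k192 k149 14 (.s k66 k129 8 (.s k130 k194 7 (.s k65
  k195 8 (.d k64 k128 k67 7 0))))))) (.c k149 (.f k43 k23 5 (.l (.s k1 k2 0 (.s k169 k232 8 (.s k85
  k253 13 (.s k86 k252 14 (.s k64 k127 6 (.s k66 k126 5 (.d k192 k128 k129 7 8))))))))) (.c k192 (.f
  k43 k23 5 (.l (.s k1 k2 0 (.s k169 k232 8 (.s k85 k253 13 (.s k127 k64 6 (.s k255 k191 7 (.s k87
  k171 13 (.d k86 k252 k84 14 0))))))))) .n)))))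

def t42_134 : T TT 256 :=
  (.f k192 k149 14 (.q k3 [(.s k43 k23 5 (.s k66 k129 8 (.s k169 k232 8 (.d k86 k126 k252 5 14)))),
  (.s k1 k2 0 (.s k128 k64 7 (.s k129 k66 8 (.s k65 k193 7 (.d k130 k131 k195 0 8))))), (.s k1 k2 0
  (.s k43 k23 5 (.s k169 k232 8 (.s k85 k253 13 (.d k64 k128 k127 7 6)))))] (.c k86 (.l (.s k2 k1 0
  (.s k66 k129 8 (.s k130 k194 7 (.s k65 k195 8 (.d k64 k67 k128 0 7)))))) (.c k128 (.q k191 [(.s
  k43 k23 5 (.s k169 k232 8 (.s k86 k252 14 (.d k66 k126 k129 5 8)))), (.s k255 k127 7 (.s k171 k87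
  13 (.s k151 k131 5 (.s k107 k195 13 (.d k43 k23 k235 5 7))))), (.s k1 k2 0 (.s k66 k129 8 (.s k127
  k255 7 (.s k85 k64 6 (.s k169 k253 13 (.d k86 k252 k126 14 5))))))] (.c k129 (.l (.s k1 k2 0 (.s
  k43 k23 5 (.s k169 k232 8 (.s k85 k253 13 (.d k127 k64 k255 6 7)))))) .n)) (.c k191 (.l (.s k128
  k64 7 (.s k1 k2 0 (.s k129 k66 8 (.s k65 k193 7 (.d k130 k131 k195 0 8)))))) .n)))))

def t42_135 : T TT 256 :=
  (.f k192 k149 14 (.q k3 [(.s k43 k23 5 (.s k66 k129 8 (.s k169 k232 8 (.d k86 k126 k252 5 14)))),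
  (.s k1 k2 0 (.s k128 k64 7 (.s k129 k66 8 (.s k65 k193 7 (.d k130 k131 k195 0 8))))), (.s k1 k2 0
  (.s k43 k23 5 (.s k169 k232 8 (.s k85 k253 13 (.d k64 k128 k127 7 6)))))] (.c k86 (.l (.s k2 k1 0
  (.s k66 k129 8 (.s k130 k194 7 (.s k65 k195 8 (.d k64 k67 k128 0 7)))))) (.c k128 (.q k191 [(.s
  k43 k23 5 (.s k169 k232 8 (.s k86 k252 14 (.d k66 k126 k129 5 8)))), (.s k255 k127 7 (.s k171 k87
  13 (.s k151 k131 5 (.s k107 k195 13 (.d k43 k23 k235 5 7))))), (.s k1 k2 0 (.s k66 k129 8 (.s k127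
  k255 7 (.s k85 k64 6 (.s k169 k253 13 (.d k86 k252 k126 14 5))))))] (.c k129 (.l (.s k1 k2 0 (.s
  k43 k23 5 (.s k169 k232 8 (.s k85 k253 13 (.d k127 k64 k255 6 7)))))) .n)) (.c k191 (.l (.s k128
  k64 7 (.s k1 k2 0 (.s k129 k66 8 (.s k65 k193 7 (.d k130 k131 k195 0 8)))))) .n)))))

def t42_136 : T TT 256 :=
  (.q k51 [(.s k55 k59 1 (.s k149 k192 14 (.s k102 k196 12 (.s k110 k98 1 (.d k204 k153 k157 14
  12))))), (.s k17 k34 4 (.s k192 k149 14 (.s k128 k64 7 (.s k145 k98 12 (.s k81 k209 7 (.d k162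
  k179 k243 4 12))))))] (.c k98 (.l (.s k59 k55 1 (.s k153 k200 12 (.s k204 k102 14 (.s k149 k192 14
  (.d k157 k145 k110 1 12)))))) (.c k102 (.l (.s k34 k17 4 (.s k192 k149 14 (.s k98 k145 12 (.s k162
  k226 7 (.s k81 k243 12 (.d k64 k128 k115 7 4))))))) (.c k149 (.q k153 [(.d k59 k55 k200 1 12), (.s
  k17 k34 4 (.s k85 k221 9 (.s k102 k204 14 (.s k64 k127 6 (.s k98 k110 1 (.d k192 k128 k145 7
  12))))))] (.c k128 (.q k191 [(.d k59 k55 k200 1 12), (.s k17 k34 4 (.s k85 k221 9 (.d k127 k64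
  k255 6 7)))] (.c k132 (.q k140 [(.d k59 k55 k200 1 12), (.s k157 k174 4 (.d k204 k110 k102 12
  14))] (.c k166 (.q k183 [(.d k59 k55 k200 1 12), (.s k243 k123 9 (.d k179 k187 k115 1 7))] (.c
  k162 (.l (.s k174 k157 4 (.d k59 k55 k200 1 12))) (.c k174 (.q k162 [(.d k59 k55 k200 1 12), (.d
  k243 k123 k81 9 12)] .n) .n))) (.c k183 (.l (.s k166 k179 6 (.d k59 k55 k200 1 12))) .n))) (.c
  k140 (.q k132 [(.d k59 k55 k200 1 12), (.s k17 k34 4 (.s k85 k221 9 (.d k127 k64 k255 6 7)))] .n)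
  .n))) (.c k191 (.q k128 [(.d k59 k55 k200 1 12), (.s k17 k34 4 (.s k64 k192 7 (.d k85 k127 k221 6
  9)))] .n) .n))) (.c k153 (.q k187 [(.s k255 k119 9 (.s k127 k191 7 (.s k64 k85 6 (.d k192 k128
  k149 7 14)))), (.s k55 k59 1 (.s k119 k255 9 (.s k183 k247 7 (.s k243 k123 9 (.d k179 k191 k115 1
  7))))), (.s k17 k34 4 (.s k192 k149 14 (.s k128 k64 7 (.s k145 k98 12 (.s k81 k209 7 (.d k162 k179
  k243 4 12))))))] (.c k191 (.l (.s k59 k55 1 (.s k119 k255 9 (.s k123 k251 7 (.s k243 k183 9 (.d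
  k115 k127 k179 1 7)))))) .n)) (.c k187 (.q k153 [(.d k59 k55 k200 1 12), (.s k102 k204 14 (.s k192
  k149 14 (.d k98 k110 k145 1 12)))] .n) (.c k192 (.q k153 [(.d k59 k55 k200 1 12), (.s k17 k34 4
  (.s k85 k221 9 (.s k127 k64 6 (.s k255 k191 7 (.s k119 k187 9 (.d k102 k68 k204 4 14))))))] .n)
  .n)))))))

def t42_137 : T TT 256 :=
  (.f k192 k149 14 (.q k3 [(.s k43 k23 5 (.s k169 k232 8 (.s k86 k252 14 (.d k66 k126 k129 5 8)))),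
  (.s k1 k2 0 (.s k128 k64 7 (.s k129 k66 8 (.s k65 k193 7 (.d k130 k131 k195 0 8))))), (.s k1 k2 0
  (.s k43 k23 5 (.s k169 k232 8 (.s k85 k253 13 (.d k64 k128 k127 7 6)))))] (.c k86 (.l (.s k2 k1 0
  (.s k66 k129 8 (.s k130 k194 7 (.s k65 k195 8 (.d k64 k67 k128 0 7)))))) (.c k128 (.q k191 [(.s
  k43 k23 5 (.s k169 k232 8 (.s k86 k252 14 (.d k66 k126 k129 5 8)))), (.s k255 k127 7 (.s k171 k87
  13 (.s k151 k131 5 (.s k107 k195 13 (.d k43 k23 k235 5 7))))), (.s k1 k2 0 (.s k66 k129 8 (.s k127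
  k255 7 (.s k85 k64 6 (.s k169 k253 13 (.d k86 k252 k126 14 5))))))] (.c k129 (.l (.s k1 k2 0 (.s
  k43 k23 5 (.s k169 k232 8 (.s k85 k253 13 (.d k127 k64 k255 6 7)))))) .n)) (.c k191 (.l (.s k128
  k64 7 (.s k1 k2 0 (.s k129 k66 8 (.s k65 k193 7 (.d k130 k131 k195 0 8)))))) .n)))))

def t42_138 : T TT 256 :=
  (.q k3 [(.s k43 k23 5 (.s k169 k232 8 (.s k86 k252 14 (.s k192 k149 14 (.d k66 k126 k129 5 8))))),
  (.s k1 k2 0 (.s k192 k149 14 (.s k128 k64 7 (.s k129 k66 8 (.s k65 k193 7 (.d k130 k131 k195 0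
  8)))))), (.s k23 k43 5 (.s k149 k192 14 (.s k86 k212 8 (.s k252 k169 14 (.d k126 k66 k189 5
  8)))))] (.c k66 (.l (.s k43 k23 5 (.s k169 k232 8 (.s k252 k86 14 (.s k149 k192 14 (.d k189 k129
  k126 5 8)))))) (.c k86 (.l (.s k2 k1 0 (.s k192 k149 14 (.s k66 k129 8 (.s k130 k194 7 (.s k65
  k195 8 (.d k64 k128 k67 7 0))))))) (.c k149 (.f k43 k23 5 (.l (.s k1 k2 0 (.s k169 k232 8 (.s k85
  k253 13 (.s k86 k252 14 (.s k64 k127 6 (.s k66 k126 5 (.d k192 k128 k129 7 8))))))))) (.c k154 (.q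
  k186 [(.s k23 k43 5 (.s k149 k192 14 (.s k86 k212 8 (.s k126 k66 5 (.d k252 k189 k169 8 14))))),
  (.s k1 k2 0 (.s k192 k149 14 (.s k128 k64 7 (.s k129 k66 8 (.s k65 k193 7 (.d k130 k131 k195 0
  8))))))] (.c k66 (.l (.s k43 k23 5 (.s k169 k232 8 (.s k252 k86 14 (.s k149 k192 14 (.d k189 k129
  k126 5 8)))))) (.c k86 (.l (.s k2 k1 0 (.s k192 k149 14 (.s k66 k129 8 (.s k130 k194 7 (.s k65
  k195 8 (.d k64 k128 k67 7 0))))))) (.c k149 (.f k43 k23 5 (.l (.s k1 k2 0 (.s k169 k232 8 (.s k85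
  k253 13 (.s k86 k252 14 (.s k64 k127 6 (.s k66 k126 5 (.d k192 k128 k129 7 8))))))))) (.c k192 (.f
  k43 k23 5 (.l (.s k1 k2 0 (.s k169 k232 8 (.s k85 k253 13 (.s k127 k64 6 (.s k255 k191 7 (.s k87
  k171 13 (.d k86 k252 k84 14 0))))))))) .n))))) (.c k186 (.q k154 [(.s k43 k23 5 (.s k169 k232 8
  (.s k86 k252 14 (.s k192 k149 14 (.d k66 k126 k129 5 8))))), (.s k58 k202 11 (.s k48 k53 2 (.s
  k101 k207 14 (.s k192 k149 14 (.d k96 k111 k144 2 11))))), (.s k43 k23 5 (.s k169 k232 8 (.s k86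
  k252 14 (.s k18 k222 9 (.s k48 k33 4 (.d k58 k53 k202 2 11))))))] (.c k192 (.l (.s k43 k23 5 (.s
  k169 k232 8 (.s k252 k86 14 (.s k58 k202 11 (.s k48 k53 2 (.d k184 k139 k116 4 9))))))) .n)) (.c
  k192 (.f k43 k23 5 (.l (.s k1 k2 0 (.s k169 k232 8 (.s k85 k253 13 (.s k127 k64 6 (.s k255 k191 7
  (.s k87 k171 13 (.d k86 k252 k84 14 0))))))))) .n)))))))

def t42_139 : T TT 256 :=
  (.f k192 k149 14 (.q k3 [(.s k43 k23 5 (.s k66 k129 8 (.s k169 k232 8 (.d k86 k126 k252 5 14)))),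
  (.s k1 k2 0 (.s k128 k64 7 (.s k129 k66 8 (.s k65 k193 7 (.d k130 k131 k195 0 8))))), (.s k1 k2 0
  (.s k43 k23 5 (.s k169 k232 8 (.s k85 k253 13 (.d k64 k128 k127 7 6)))))] (.c k86 (.l (.s k2 k1 0
  (.s k66 k129 8 (.s k130 k194 7 (.s k65 k195 8 (.d k64 k67 k128 0 7)))))) (.c k128 (.q k191 [(.s
  k43 k23 5 (.s k169 k232 8 (.s k86 k252 14 (.d k66 k126 k129 5 8)))), (.s k255 k127 7 (.s k171 k87
  13 (.s k151 k131 5 (.s k107 k195 13 (.d k43 k23 k235 5 7))))), (.s k1 k2 0 (.s k66 k129 8 (.s k127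
  k255 7 (.s k85 k64 6 (.s k169 k253 13 (.d k86 k252 k126 14 5))))))] (.c k129 (.l (.s k1 k2 0 (.s
  k43 k23 5 (.s k169 k232 8 (.s k85 k253 13 (.d k127 k64 k255 6 7)))))) .n)) (.c k191 (.l (.s k128
  k64 7 (.s k1 k2 0 (.s k129 k66 8 (.s k65 k193 7 (.d k130 k131 k195 0 8)))))) .n)))))

def t42_140 : T TT 256 :=
  (.q k3 [(.s k43 k23 5 (.s k169 k232 8 (.s k86 k252 14 (.s k192 k149 14 (.d k66 k126 k129 5 8))))),
  (.s k1 k2 0 (.s k192 k149 14 (.s k128 k64 7 (.s k129 k66 8 (.s k65 k193 7 (.d k130 k131 k195 0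
  8)))))), (.s k23 k43 5 (.s k149 k192 14 (.s k86 k212 8 (.s k252 k169 14 (.d k126 k66 k189 5
  8)))))] (.c k66 (.l (.s k43 k23 5 (.s k169 k232 8 (.s k252 k86 14 (.s k149 k192 14 (.d k189 k129
  k126 5 8)))))) (.c k86 (.l (.s k2 k1 0 (.s k192 k149 14 (.s k66 k129 8 (.s k130 k194 7 (.s k65
  k195 8 (.d k64 k128 k67 7 0))))))) (.c k149 (.f k43 k23 5 (.l (.s k1 k2 0 (.s k169 k232 8 (.s k85
  k253 13 (.s k86 k252 14 (.s k64 k127 6 (.s k66 k126 5 (.d k192 k128 k129 7 8))))))))) (.c k192 (.f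
  k43 k23 5 (.l (.s k1 k2 0 (.s k169 k232 8 (.s k85 k253 13 (.s k127 k64 6 (.s k255 k191 7 (.s k87
  k171 13 (.d k86 k252 k84 14 0))))))))) .n)))))

def t42_141 : T TT 256 :=
  (.f k192 k149 14 (.q k3 [(.s k43 k23 5 (.s k169 k232 8 (.s k86 k252 14 (.d k66 k126 k129 5 8)))),
  (.s k1 k2 0 (.s k128 k64 7 (.s k129 k66 8 (.s k65 k193 7 (.d k130 k131 k195 0 8))))), (.s k1 k2 0
  (.s k43 k23 5 (.s k169 k232 8 (.s k85 k253 13 (.d k64 k128 k127 7 6)))))] (.c k86 (.l (.s k2 k1 0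
  (.s k66 k129 8 (.s k130 k194 7 (.s k65 k195 8 (.d k64 k67 k128 0 7)))))) (.c k128 (.q k191 [(.s
  k43 k23 5 (.s k169 k232 8 (.s k86 k252 14 (.d k66 k126 k129 5 8)))), (.s k255 k127 7 (.s k171 k87
  13 (.s k151 k131 5 (.s k107 k195 13 (.d k43 k23 k235 5 7))))), (.s k1 k2 0 (.s k66 k129 8 (.s k127
  k255 7 (.s k85 k64 6 (.s k169 k253 13 (.d k86 k252 k126 14 5))))))] (.c k129 (.l (.s k1 k2 0 (.s
  k43 k23 5 (.s k169 k232 8 (.s k85 k253 13 (.d k127 k64 k255 6 7)))))) .n)) (.c k191 (.l (.s k128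
  k64 7 (.s k1 k2 0 (.s k129 k66 8 (.s k65 k193 7 (.d k130 k131 k195 0 8)))))) .n)))))

def t42_142 : T TT 256 :=
  (.f k192 k149 14 (.q k3 [(.s k43 k23 5 (.s k66 k129 8 (.s k169 k232 8 (.d k86 k126 k252 5 14)))),
  (.s k1 k2 0 (.s k128 k64 7 (.s k129 k66 8 (.s k65 k193 7 (.d k130 k131 k195 0 8))))), (.s k1 k2 0
  (.s k43 k23 5 (.s k169 k232 8 (.s k85 k253 13 (.d k64 k128 k127 7 6)))))] (.c k86 (.l (.s k2 k1 0
  (.s k66 k129 8 (.s k130 k194 7 (.s k65 k195 8 (.d k64 k67 k128 0 7)))))) (.c k128 (.q k191 [(.s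
  k43 k23 5 (.s k169 k232 8 (.s k86 k252 14 (.d k66 k126 k129 5 8)))), (.s k255 k127 7 (.s k171 k87
  13 (.s k151 k131 5 (.s k107 k195 13 (.d k43 k23 k235 5 7))))), (.s k1 k2 0 (.s k66 k129 8 (.s k127
  k255 7 (.s k85 k64 6 (.s k169 k253 13 (.d k86 k252 k126 14 5))))))] (.c k129 (.l (.s k1 k2 0 (.s
  k43 k23 5 (.s k169 k232 8 (.s k85 k253 13 (.d k127 k64 k255 6 7)))))) .n)) (.c k191 (.l (.s k128
  k64 7 (.s k1 k2 0 (.s k129 k66 8 (.s k65 k193 7 (.d k130 k131 k195 0 8)))))) .n)))))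

def t42_143 : T TT 256 :=
  (.q k3 [(.s k43 k23 5 (.s k169 k232 8 (.s k86 k252 14 (.s k192 k149 14 (.d k66 k126 k129 5 8))))),
  (.s k1 k2 0 (.s k192 k149 14 (.s k128 k64 7 (.s k129 k66 8 (.s k65 k193 7 (.d k130 k131 k195 0
  8)))))), (.s k23 k43 5 (.s k149 k192 14 (.s k86 k212 8 (.s k252 k169 14 (.d k126 k66 k189 5
  8)))))] (.c k66 (.l (.s k43 k23 5 (.s k169 k232 8 (.s k252 k86 14 (.s k149 k192 14 (.d k189 k129
  k126 5 8)))))) (.c k86 (.l (.s k2 k1 0 (.s k192 k149 14 (.s k66 k129 8 (.s k130 k194 7 (.s k65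
  k195 8 (.d k64 k128 k67 7 0))))))) (.c k149 (.f k43 k23 5 (.l (.s k1 k2 0 (.s k169 k232 8 (.s k85
  k253 13 (.s k86 k252 14 (.s k64 k127 6 (.s k66 k126 5 (.d k192 k128 k129 7 8))))))))) (.c k192 (.f
  k43 k23 5 (.l (.s k1 k2 0 (.s k169 k232 8 (.s k85 k253 13 (.s k127 k64 6 (.s k255 k191 7 (.s k87
  k171 13 (.d k86 k252 k84 14 0))))))))) .n)))))

def t42_144 : T TT 256 :=
  (.q k12 [(.s k46 k29 4 (.s k166 k226 9 (.s k89 k243 14 (.s k192 k149 14 (.d k72 k123 k132 4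
  9))))), (.s k4 k8 1 (.s k192 k149 14 (.s k128 k64 7 (.s k132 k72 9 (.s k68 k196 7 (.d k136 k140
  k204 1 9)))))), (.s k29 k46 4 (.s k149 k192 14 (.s k89 k209 9 (.s k243 k166 14 (.d k123 k72 k183 4
  9)))))] (.c k72 (.l (.s k46 k29 4 (.s k166 k226 9 (.s k243 k89 14 (.s k149 k192 14 (.d k183 k132
  k123 4 9)))))) (.c k89 (.l (.s k8 k4 1 (.s k192 k149 14 (.s k72 k132 9 (.s k136 k200 7 (.s k68
  k204 9 (.d k64 k128 k76 7 1))))))) (.c k149 (.f k46 k29 4 (.l (.s k4 k8 1 (.s k166 k226 9 (.s k85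
  k247 12 (.s k89 k243 14 (.s k64 k127 6 (.s k72 k123 4 (.d k192 k128 k132 7 9))))))))) (.c k192 (.f
  k46 k29 4 (.l (.s k4 k8 1 (.s k166 k226 9 (.s k85 k247 12 (.s k127 k64 6 (.s k255 k191 7 (.s k93
  k174 12 (.d k89 k243 k81 14 1))))))))) .n)))))

def t42_145 : T TT 256 :=
  (.q k3 [(.s k43 k23 5 (.s k169 k232 8 (.s k86 k252 14 (.s k192 k149 14 (.d k66 k126 k129 5 8))))),
  (.s k1 k2 0 (.s k192 k149 14 (.s k128 k64 7 (.s k129 k66 8 (.s k65 k193 7 (.d k130 k131 k195 0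
  8)))))), (.s k23 k43 5 (.s k149 k192 14 (.s k86 k212 8 (.s k252 k169 14 (.d k126 k66 k189 5
  8)))))] (.c k66 (.l (.s k43 k23 5 (.s k169 k232 8 (.s k252 k86 14 (.s k149 k192 14 (.d k189 k129
  k126 5 8)))))) (.c k86 (.l (.s k2 k1 0 (.s k192 k149 14 (.s k66 k129 8 (.s k130 k194 7 (.s k65
  k195 8 (.d k64 k128 k67 7 0))))))) (.c k149 (.f k43 k23 5 (.l (.s k1 k2 0 (.s k169 k232 8 (.s k85
  k253 13 (.s k86 k252 14 (.s k64 k127 6 (.s k66 k126 5 (.d k192 k128 k129 7 8))))))))) (.c k192 (.f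
  k43 k23 5 (.l (.s k1 k2 0 (.s k169 k232 8 (.s k85 k253 13 (.s k127 k64 6 (.s k255 k191 7 (.s k87
  k171 13 (.d k86 k252 k84 14 0))))))))) .n)))))

def t42_146 : T TT 256 :=
  (.f k192 k149 14 (.q k3 [(.s k43 k23 5 (.s k66 k129 8 (.s k169 k232 8 (.d k86 k126 k252 5 14)))),
  (.s k1 k2 0 (.s k128 k64 7 (.s k129 k66 8 (.s k65 k193 7 (.d k130 k131 k195 0 8))))), (.s k1 k2 0
  (.s k43 k23 5 (.s k169 k232 8 (.s k85 k253 13 (.d k64 k128 k127 7 6)))))] (.c k86 (.l (.s k2 k1 0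
  (.s k66 k129 8 (.s k130 k194 7 (.s k65 k195 8 (.d k64 k67 k128 0 7)))))) (.c k128 (.q k191 [(.s
  k43 k23 5 (.s k169 k232 8 (.s k86 k252 14 (.d k66 k126 k129 5 8)))), (.s k255 k127 7 (.s k171 k87
  13 (.s k151 k131 5 (.s k107 k195 13 (.d k43 k23 k235 5 7))))), (.s k1 k2 0 (.s k66 k129 8 (.s k127
  k255 7 (.s k85 k64 6 (.s k169 k253 13 (.d k86 k252 k126 14 5))))))] (.c k129 (.l (.s k1 k2 0 (.s
  k43 k23 5 (.s k169 k232 8 (.s k85 k253 13 (.d k127 k64 k255 6 7)))))) .n)) (.c k191 (.l (.s k128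
  k64 7 (.s k1 k2 0 (.s k129 k66 8 (.s k65 k193 7 (.d k130 k131 k195 0 8)))))) .n)))))

def t42_147 : T TT 256 :=
  (.f k192 k149 14 (.q k12 [(.s k46 k29 4 (.s k72 k132 9 (.s k166 k226 9 (.d k89 k123 k243 4 14)))),
  (.s k4 k8 1 (.s k128 k64 7 (.s k132 k72 9 (.s k68 k196 7 (.d k136 k140 k204 1 9))))), (.s k4 k8 1
  (.s k46 k29 4 (.s k166 k226 9 (.s k85 k247 12 (.d k64 k128 k127 7 6)))))] (.c k89 (.l (.s k8 k4 1
  (.s k72 k132 9 (.s k136 k200 7 (.s k68 k204 9 (.d k64 k76 k128 1 7)))))) (.c k128 (.q k191 [(.s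
  k46 k29 4 (.s k166 k226 9 (.s k89 k243 14 (.d k72 k123 k132 4 9)))), (.s k255 k127 7 (.s k174 k93
  12 (.s k157 k140 4 (.s k110 k204 12 (.d k46 k29 k238 4 7))))), (.s k4 k8 1 (.s k72 k132 9 (.s k127
  k255 7 (.s k85 k64 6 (.s k166 k247 12 (.d k89 k243 k123 14 4))))))] (.c k132 (.l (.s k4 k8 1 (.s
  k46 k29 4 (.s k166 k226 9 (.s k85 k247 12 (.d k127 k64 k255 6 7)))))) .n)) (.c k191 (.l (.s k128
  k64 7 (.s k4 k8 1 (.s k132 k72 9 (.s k68 k196 7 (.d k136 k140 k204 1 9)))))) .n)))))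

def t42_148 : T TT 256 :=
  (.q k3 [(.s k43 k23 5 (.s k169 k232 8 (.s k86 k252 14 (.s k192 k149 14 (.d k66 k126 k129 5 8))))),
  (.s k1 k2 0 (.s k192 k149 14 (.s k128 k64 7 (.s k129 k66 8 (.s k65 k193 7 (.d k130 k131 k195 0
  8)))))), (.s k23 k43 5 (.s k149 k192 14 (.s k86 k212 8 (.s k252 k169 14 (.d k126 k66 k189 5
  8)))))] (.c k66 (.l (.s k43 k23 5 (.s k169 k232 8 (.s k252 k86 14 (.s k149 k192 14 (.d k189 k129
  k126 5 8)))))) (.c k86 (.l (.s k2 k1 0 (.s k192 k149 14 (.s k66 k129 8 (.s k130 k194 7 (.s k65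
  k195 8 (.d k64 k128 k67 7 0))))))) (.c k149 (.f k43 k23 5 (.l (.s k1 k2 0 (.s k169 k232 8 (.s k85
  k253 13 (.s k86 k252 14 (.s k64 k127 6 (.s k66 k126 5 (.d k192 k128 k129 7 8))))))))) (.c k192 (.f
  k43 k23 5 (.l (.s k1 k2 0 (.s k169 k232 8 (.s k85 k253 13 (.s k127 k64 6 (.s k255 k191 7 (.s k87
  k171 13 (.d k86 k252 k84 14 0))))))))) .n)))))

def t42_149_1 : T TT 256 :=
  (.f k20 k40 5 (.l (.s k62 k61 0 (.s k150 k194 13 (.s k85 k215 8 (.s k105 k195 14 (.s k64 k127 6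
  (.s k104 k107 0 (.d k192 k128 k148 7 13)))))))))

def t42_149_2 : T TT 256 :=
  (.f k20 k40 5 (.l (.s k62 k61 0 (.s k150 k194 13 (.s k85 k215 8 (.s k105 k195 14 (.s k64 k127 6
  (.s k104 k107 0 (.d k192 k128 k148 7 13)))))))))

def t42_149_3 : T TT 256 :=
  (.f k20 k40 5 (.l (.s k62 k61 0 (.s k150 k194 13 (.s k85 k215 8 (.s k105 k195 14 (.s k64 k127 6
  (.s k104 k107 0 (.d k192 k128 k148 7 13)))))))))

def t42_149_4 : T TT 256 :=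
  (.f k20 k40 5 (.l (.s k62 k61 0 (.s k150 k194 13 (.s k85 k215 8 (.s k105 k195 14 (.s k64 k127 6
  (.s k104 k107 0 (.d k192 k128 k148 7 13)))))))))

def t42_149_5 : T TT 256 :=
  (.f k20 k40 5 (.l (.s k62 k61 0 (.s k150 k194 13 (.s k85 k215 8 (.s k105 k195 14 (.s k64 k127 6
  (.s k104 k107 0 (.d k192 k128 k148 7 13)))))))))

def t42_149_6 : T TT 256 :=
  (.f k20 k40 5 (.l (.s k62 k61 0 (.s k150 k194 13 (.s k85 k215 8 (.s k105 k195 14 (.s k64 k127 6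
  (.s k104 k107 0 (.d k192 k128 k148 7 13)))))))))

def t42_149_7 : T TT 256 :=
  (.f k20 k40 5 (.l (.s k62 k61 0 (.s k150 k194 13 (.s k85 k215 8 (.s k105 k195 14 (.s k64 k127 6
  (.s k104 k107 0 (.d k192 k128 k148 7 13)))))))))

def t42_149_8 : T TT 256 :=
  (.f k20 k40 5 (.l (.s k62 k61 0 (.s k150 k194 13 (.s k85 k215 8 (.s k105 k195 14 (.s k64 k127 6
  (.s k104 k107 0 (.d k192 k128 k148 7 13)))))))))

def t42_149_9 : T TT 256 :=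
  (.f k20 k40 5 (.l (.s k62 k61 0 (.s k150 k194 13 (.s k85 k215 8 (.s k105 k195 14 (.s k64 k127 6
  (.s k104 k107 0 (.d k192 k128 k148 7 13)))))))))

def t42_149_10 : T TT 256 :=
  (.f k20 k40 5 (.l (.s k62 k61 0 (.s k150 k194 13 (.s k85 k215 8 (.s k105 k195 14 (.s k64 k127 6
  (.s k104 k107 0 (.d k192 k128 k148 7 13)))))))))

def t42_149_11 : T TT 256 :=
  (.f k20 k40 5 (.l (.s k62 k61 0 (.s k150 k194 13 (.s k85 k215 8 (.s k105 k195 14 (.s k64 k127 6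
  (.s k104 k107 0 (.d k192 k128 k148 7 13)))))))))

def t42_149_12 : T TT 256 :=
  (.f k20 k40 5 (.l (.s k62 k61 0 (.s k150 k194 13 (.s k85 k215 8 (.s k105 k195 14 (.s k64 k127 6
  (.s k104 k107 0 (.d k192 k128 k148 7 13)))))))))

def t42_149_13 : T TT 256 :=
  (.f k20 k40 5 (.l (.s k62 k61 0 (.s k150 k194 13 (.s k85 k215 8 (.s k105 k195 14 (.s k64 k127 6
  (.s k104 k107 0 (.d k192 k128 k148 7 13)))))))))

def t42_149_14 : T TT 256 :=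
  (.f k20 k40 5 (.l (.s k62 k61 0 (.s k150 k194 13 (.s k85 k215 8 (.s k105 k195 14 (.s k64 k127 6
  (.s k104 k107 0 (.d k192 k128 k148 7 13)))))))))

def t42_149_15 : T TT 256 :=
  (.f k20 k40 5 (.l (.s k62 k61 0 (.s k150 k194 13 (.s k85 k215 8 (.s k105 k195 14 (.s k64 k127 6
  (.s k104 k107 0 (.d k192 k128 k148 7 13)))))))))

def t42_149_16 : T TT 256 :=
  (.f k20 k40 5 (.l (.s k62 k61 0 (.s k150 k194 13 (.s k85 k215 8 (.s k105 k195 14 (.s k64 k127 6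
  (.s k104 k107 0 (.d k192 k128 k148 7 13)))))))))

def t42_149_17 : T TT 256 :=
  (.f k20 k40 5 (.l (.s k62 k61 0 (.s k150 k194 13 (.s k85 k215 8 (.s k105 k195 14 (.s k64 k127 6
  (.s k104 k107 0 (.d k192 k128 k148 7 13)))))))))

def t42_149_18 : T TT 256 :=
  (.f k20 k40 5 (.l (.s k62 k61 0 (.s k150 k194 13 (.s k85 k215 8 (.s k105 k195 14 (.s k64 k127 6
  (.s k104 k107 0 (.d k192 k128 k148 7 13)))))))))

def t42_149_19 : T TT 256 :=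
  (.f k20 k40 5 (.l (.s k62 k61 0 (.s k150 k194 13 (.s k85 k215 8 (.s k105 k195 14 (.s k64 k127 6
  (.s k104 k107 0 (.d k192 k128 k148 7 13)))))))))

def t42_149_20 : T TT 256 :=
  (.f k62 k61 0 (.f k150 k194 13 (.f k105 k195 14 (.f k104 k107 0 (.f k192 k148 13 (.f k128 k64 7
  (.q k252 [(.s k188 k124 7 (.s k169 k131 6 (.d k232 k212 k43 5 8))), (.s k124 k188 7 (.s k126 k189
  8 (.d k86 k66 k67 5 6))), (.s k126 k189 8 (.s k86 k66 5 (.s k169 k3 14 (.d k232 k212 k43 5 8))))]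
  (.c k67 (.l (.s k84 k168 13 (.s k188 k124 7 (.s k232 k212 5 (.d k169 k131 k43 6 8))))) (.c k84 (.l
  (.s k212 k232 5 (.s k124 k188 7 (.s k126 k189 8 (.d k86 k66 k67 5 6))))) (.c k169 (.l (.s k124
  k188 7 (.s k86 k67 6 (.d k126 k66 k189 5 8)))) (.c k212 (.l (.s k84 k168 13 (.s k124 k188 7 (.s
  k126 k189 8 (.d k86 k66 k67 5 6))))) .n)))))))))))

def t42_149_21 : T TT 256 :=
  (.f k20 k40 5 (.l (.s k62 k61 0 (.s k150 k194 13 (.s k85 k215 8 (.s k105 k195 14 (.s k64 k127 6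
  (.s k104 k107 0 (.d k192 k128 k148 7 13)))))))))

def t42_149_22 : T TT 256 :=
  (.f k20 k40 5 (.l (.s k62 k61 0 (.s k150 k194 13 (.s k85 k215 8 (.s k105 k195 14 (.s k64 k127 6
  (.s k104 k107 0 (.d k192 k128 k148 7 13)))))))))

def t42_149_23 : T TT 256 :=
  (.f k20 k40 5 (.l (.s k62 k61 0 (.s k150 k194 13 (.s k85 k215 8 (.s k105 k195 14 (.s k64 k127 6
  (.s k104 k107 0 (.d k192 k128 k148 7 13)))))))))

def t42_149_24 : T TT 256 :=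
  (.f k20 k40 5 (.l (.s k62 k61 0 (.s k150 k194 13 (.s k85 k215 8 (.s k105 k195 14 (.s k64 k127 6
  (.s k104 k107 0 (.d k192 k128 k148 7 13)))))))))

def t42_149_25 : T TT 256 :=
  (.f k20 k40 5 (.l (.s k62 k61 0 (.s k150 k194 13 (.s k85 k215 8 (.s k105 k195 14 (.s k64 k127 6
  (.s k104 k107 0 (.d k192 k128 k148 7 13)))))))))

def t42_149_26 : T TT 256 :=
  (.f k20 k40 5 (.l (.s k62 k61 0 (.s k150 k194 13 (.s k85 k215 8 (.s k105 k195 14 (.s k64 k127 6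
  (.s k104 k107 0 (.d k192 k128 k148 7 13)))))))))

def t42_149_27 : T TT 256 :=
  (.f k20 k40 5 (.l (.s k62 k61 0 (.s k150 k194 13 (.s k85 k215 8 (.s k105 k195 14 (.s k64 k127 6
  (.s k104 k107 0 (.d k192 k128 k148 7 13)))))))))

def t42_149_28 : T TT 256 :=
  (.f k20 k40 5 (.l (.s k62 k61 0 (.s k150 k194 13 (.s k85 k215 8 (.s k105 k195 14 (.s k64 k127 6
  (.s k104 k107 0 (.d k192 k128 k148 7 13)))))))))

def t42_149_29 : T TT 256 :=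
  (.f k20 k40 5 (.l (.s k62 k61 0 (.s k150 k194 13 (.s k85 k215 8 (.s k105 k195 14 (.s k64 k127 6
  (.s k104 k107 0 (.d k192 k128 k148 7 13)))))))))

def t42_149_30 : T TT 256 :=
  (.f k20 k40 5 (.l (.s k62 k61 0 (.s k150 k194 13 (.s k85 k215 8 (.s k105 k195 14 (.s k64 k127 6
  (.s k104 k107 0 (.d k192 k128 k148 7 13)))))))))

def t42_149_31 : T TT 256 :=
  (.f k20 k40 5 (.l (.s k62 k61 0 (.s k150 k194 13 (.s k85 k215 8 (.s k105 k195 14 (.s k64 k127 6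
  (.s k104 k107 0 (.d k192 k128 k148 7 13)))))))))

def t42_149_32 : T TT 256 :=
  (.f k20 k40 5 (.l (.s k62 k61 0 (.s k150 k194 13 (.s k85 k215 8 (.s k105 k195 14 (.s k64 k127 6
  (.s k104 k107 0 (.d k192 k128 k148 7 13)))))))))

def t42_149_33 : T TT 256 :=
  (.f k20 k40 5 (.l (.s k62 k61 0 (.s k150 k194 13 (.s k85 k215 8 (.s k105 k195 14 (.s k64 k127 6
  (.s k104 k107 0 (.d k192 k128 k148 7 13)))))))))

def t42_149_34 : T TT 256 :=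
  (.f k20 k40 5 (.l (.s k62 k61 0 (.s k150 k194 13 (.s k85 k215 8 (.s k105 k195 14 (.s k64 k127 6
  (.s k104 k107 0 (.d k192 k128 k148 7 13)))))))))

def t42_149_35 : T TT 256 :=
  (.f k20 k40 5 (.l (.s k62 k61 0 (.s k150 k194 13 (.s k85 k215 8 (.s k105 k195 14 (.s k64 k127 6
  (.s k104 k107 0 (.d k192 k128 k148 7 13)))))))))

def t42_149_36 : T TT 256 :=
  (.f k20 k40 5 (.l (.s k62 k61 0 (.s k150 k194 13 (.s k85 k215 8 (.s k105 k195 14 (.s k64 k127 6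
  (.s k104 k107 0 (.d k192 k128 k148 7 13)))))))))

def t42_149_37 : T TT 256 :=
  (.f k20 k40 5 (.l (.s k62 k61 0 (.s k150 k194 13 (.s k85 k215 8 (.s k105 k195 14 (.s k64 k127 6
  (.s k104 k107 0 (.d k192 k128 k148 7 13)))))))))

def t42_149_38 : T TT 256 :=
  (.f k20 k40 5 (.l (.s k62 k61 0 (.s k150 k194 13 (.s k85 k215 8 (.s k105 k195 14 (.s k64 k127 6
  (.s k104 k107 0 (.d k192 k128 k148 7 13)))))))))

def t42_149_39 : T TT 256 :=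
  (.f k20 k40 5 (.l (.s k62 k61 0 (.s k150 k194 13 (.s k85 k215 8 (.s k105 k195 14 (.s k64 k127 6
  (.s k104 k107 0 (.d k192 k128 k148 7 13)))))))))

def t42_149_40 : T TT 256 :=
  (.q k105 [(.s k62 k61 0 (.d k150 k194 k195 13 14)), (.s k195 k150 14 (.d k107 k151 k104 13 0))]
  (.c k41 (.q k43 [(.s k150 k195 14 (.d k62 k61 k194 0 13)), (.s k3 k23 5 (.s k169 k232 8 (.s k86
  k252 14 (.s k66 k126 5 (.s k192 k129 8 (.d k104 k107 k148 0 13))))))] (.c k128 (.q k191 [(.s k150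
  k195 14 (.d k62 k61 k194 0 13)), (.s k3 k23 5 (.s k255 k127 7 (.s k171 k87 13 (.d k107 k104 k235 0
  7))))] .n) (.c k191 (.q k128 [(.s k192 k64 7 (.d k104 k107 k148 0 13)), (.s k62 k61 0 (.d k150
  k194 k195 13 14))] .n) .n))) (.c k43 (.q k41 [(.s k62 k61 0 (.d k150 k194 k195 13 14)), (.s k195
  k150 14 (.d k107 k151 k104 13 0)), (.s k61 k62 0 (.s k1 k21 5 (.d k3 k2 k22 0 6)))] (.c k128 (.q
  k191 [(.s k62 k61 0 (.d k150 k194 k195 13 14)), (.s k195 k150 14 (.d k107 k151 k104 13 0)), (.s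
  k61 k62 0 (.s k1 k21 5 (.d k3 k2 k22 0 6)))] .n) (.c k191 (.q k128 [(.s k192 k64 7 (.d k104 k107
  k148 0 13)), (.s k62 k61 0 (.d k150 k194 k195 13 14))] .n) .n))) (.c k128 (.q k191 [(.s k62 k61 0
  (.d k150 k194 k195 13 14)), (.s k195 k150 14 (.d k107 k151 k104 13 0)), (.s k62 k61 0 (.s k255
  k127 7 (.s k190 k125 8 (.s k126 k254 7 (.d k189 k188 k252 0 8)))))] (.c k41 (.q k43 [(.s k150 k195
  14 (.d k62 k61 k194 0 13)), (.s k3 k23 5 (.s k255 k127 7 (.s k171 k87 13 (.d k107 k104 k235 0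
  7))))] .n) (.c k43 (.q k41 [(.s k62 k61 0 (.d k150 k194 k195 13 14)), (.s k195 k150 14 (.d k107
  k151 k104 13 0)), (.s k61 k62 0 (.s k1 k21 5 (.d k3 k2 k22 0 6)))] .n) .n))) (.c k150 (.f k104
  k107 0 (.f k148 k192 13 (.q k41 [(.s k61 k62 0 (.s k1 k21 5 (.d k3 k2 k22 0 6))), (.s k169 k233 7
  (.s k43 k232 8 (.d k3 k23 k22 5 6)))] (.c k3 (.l (.s k169 k233 7 (.s k61 k62 0 (.s k1 k21 5 (.s
  k85 k253 13 (.s k127 k64 6 (.s k125 k65 5 (.d k255 k191 k190 7 8)))))))) (.c k22 (.f k169 k233 7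
  (.f k43 k232 8 (.l (.s k3 k23 5 (.s k1 k2 0 (.s k62 k61 0 (.s k85 k253 13 (.s k64 k127 6 (.s k84
  k124 5 (.d k252 k86 k168 14 13)))))))))) (.c k128 (.q k191 [(.s k61 k62 0 (.s k1 k21 5 (.d k3 k2
  k22 0 6))), (.s k169 k233 7 (.s k43 k232 8 (.d k3 k23 k22 5 6))), (.s k169 k233 7 (.s k127 k255 7
  (.s k85 k64 6 (.s k1 k253 13 (.d k61 k62 k21 0 5)))))] (.c k130 (.q k190 [(.d k255 k127 k125 7 8),
  (.s k3 k22 6 (.s k43 k23 5 (.d k169 k233 k232 7 8)))] (.c k129 (.q k131 [(.d k255 k127 k125 7 8),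
  (.s k3 k22 6 (.s k43 k23 5 (.d k169 k233 k232 7 8)))] (.c k3 (.q k66 [(.d k255 k127 k125 7 8), (.s
  k62 k61 0 (.d k126 k86 k254 5 7))] (.c k169 (.l (.s k189 k188 0 (.d k255 k127 k125 7 8))) (.c k189
  (.l (.s k169 k233 7 (.d k255 k127 k125 7 8))) .n))) (.c k66 (.l (.s k3 k22 6 (.d k255 k127 k125 7
  8))) (.c k169 (.l (.s k189 k188 0 (.d k255 k127 k125 7 8))) (.c k189 (.l (.s k169 k233 7 (.d k255
  k127 k125 7 8))) .n))))) (.c k131 (.q k129 [(.d k255 k127 k125 7 8), (.s k3 k22 6 (.s k43 k23 5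
  (.d k169 k233 k232 7 8)))] (.c k169 (.l (.s k188 k189 0 (.d k255 k127 k125 7 8))) (.c k188 (.l (.s
  k169 k233 7 (.d k255 k127 k125 7 8))) .n))) .n))) (.c k190 (.q k130 [(.s k65 k195 8 (.s k85 k125 5
  (.d k127 k64 k255 6 7))), (.s k3 k22 6 (.s k43 k23 5 (.d k169 k233 k232 7 8)))] .n) .n))) (.c k130
  (.q k190 [(.s k61 k62 0 (.s k1 k21 5 (.d k3 k2 k22 0 6))), (.s k169 k233 7 (.s k43 k232 8 (.d k3
  k23 k22 5 6)))] (.c k3 (.l (.s k169 k233 7 (.s k61 k62 0 (.s k1 k21 5 (.s k85 k253 13 (.d k125 k65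
  k255 5 8)))))) (.c k22 (.l (.s k169 k233 7 (.s k62 k61 0 (.s k126 k254 7 (.s k252 k189 8 (.d k86
  k66 k3 5 14)))))) (.c k128 (.q k191 [(.d k255 k127 k125 7 8), (.s k3 k22 6 (.s k43 k23 5 (.d k169
  k233 k232 7 8)))] (.c k129 (.q k131 [(.d k255 k127 k125 7 8), (.s k3 k22 6 (.s k43 k23 5 (.d k169
  k233 k232 7 8)))] (.c k3 (.q k66 [(.d k255 k127 k125 7 8), (.s k62 k61 0 (.d k126 k86 k254 5 7))]
  (.c k169 (.l (.s k189 k188 0 (.d k255 k127 k125 7 8))) (.c k189 (.l (.s k169 k233 7 (.d k255 k127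
  k125 7 8))) .n))) (.c k66 (.l (.s k3 k22 6 (.d k255 k127 k125 7 8))) (.c k169 (.l (.s k189 k188 0
  (.d k255 k127 k125 7 8))) (.c k189 (.l (.s k169 k233 7 (.d k255 k127 k125 7 8))) .n))))) (.c k131
  (.q k129 [(.d k255 k127 k125 7 8), (.s k3 k22 6 (.s k43 k23 5 (.d k169 k233 k232 7 8)))] (.c k169
  (.l (.s k188 k189 0 (.d k255 k127 k125 7 8))) (.c k188 (.l (.s k169 k233 7 (.d k255 k127 k125 7
  8))) .n))) .n))) (.c k191 (.q k128 [(.s k61 k62 0 (.s k1 k21 5 (.d k3 k2 k22 0 6))), (.s k169 k233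
  7 (.s k43 k232 8 (.d k3 k23 k22 5 6))), (.s k62 k61 0 (.s k126 k254 7 (.s k252 k189 8 (.d k168
  k188 k84 5 13))))] .n) .n))))) (.c k190 (.q k130 [(.s k169 k233 7 (.s k43 k232 8 (.d k3 k23 k22 5
  6))), (.s k61 k62 0 (.s k1 k21 5 (.d k3 k2 k22 0 6))), (.s k65 k195 8 (.s k169 k233 7 (.s k85 k125
  5 (.s k1 k253 13 (.d k61 k62 k21 0 5)))))] (.c k128 (.q k191 [(.s k65 k195 8 (.s k85 k125 5 (.d
  k127 k64 k255 6 7))), (.s k3 k22 6 (.s k43 k23 5 (.d k169 k233 k232 7 8)))] .n) (.c k191 (.q k128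
  [(.s k195 k65 8 (.s k188 k168 5 (.s k252 k124 7 (.d k233 k169 k214 7 6)))), (.s k65 k195 8 (.s k61
  k62 0 (.s k1 k21 5 (.d k129 k193 k131 7 0)))), (.s k3 k22 6 (.s k43 k23 5 (.d k169 k233 k232 7
  8)))] (.c k188 (.q k189 [(.s k195 k65 8 (.s k131 k129 0 (.d k3 k22 k67 6 7))), (.s k3 k22 6 (.s
  k43 k23 5 (.d k169 k233 k232 7 8))), (.s k65 k195 8 (.s k125 k85 5 (.d k61 k62 k253 0 7)))] (.c
  k131 (.l (.s k169 k233 7 (.s k3 k22 6 (.d k43 k23 k232 5 8)))) (.c k169 (.l (.s k131 k129 0 (.s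
  k195 k65 8 (.d k3 k22 k67 6 7)))) .n))) (.c k189 (.l (.s k188 k168 5 (.s k195 k65 8 (.s k3 k22 6
  (.d k131 k129 k67 0 7))))) .n))) .n))) (.c k191 (.q k128 [(.s k61 k62 0 (.s k1 k21 5 (.d k3 k2 k22
  0 6))), (.s k188 k168 5 (.s k124 k252 7 (.s k64 k84 5 (.s k85 k127 6 (.s k65 k125 5 (.d k67 k66
  k86 0 6))))))] (.c k85 (.l (.s k3 k22 6 (.s k43 k23 5 (.d k169 k233 k232 7 8)))) (.c k130 (.q k190
  [(.s k61 k62 0 (.s k1 k21 5 (.d k3 k2 k22 0 6))), (.s k169 k233 7 (.s k43 k232 8 (.d k3 k23 k22 5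
  6))), (.s k62 k61 0 (.s k126 k254 7 (.s k252 k189 8 (.d k168 k188 k84 5 13))))] .n) (.c k190 (.q
  k130 [(.s k195 k65 8 (.s k188 k168 5 (.s k252 k124 7 (.d k233 k169 k214 7 6)))), (.s k65 k195 8
  (.s k61 k62 0 (.s k1 k21 5 (.d k129 k193 k131 7 0)))), (.s k3 k22 6 (.s k43 k23 5 (.d k169 k233
  k232 7 8)))] (.c k188 (.q k189 [(.s k195 k65 8 (.s k131 k129 0 (.d k3 k22 k67 6 7))), (.s k3 k22 6
  (.s k43 k23 5 (.d k169 k233 k232 7 8))), (.s k65 k195 8 (.s k125 k85 5 (.d k61 k62 k253 0 7)))]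
  (.c k131 (.l (.s k169 k233 7 (.s k3 k22 6 (.d k43 k23 k232 5 8)))) (.c k169 (.l (.s k131 k129 0
  (.s k195 k65 8 (.d k3 k22 k67 6 7)))) .n))) (.c k189 (.l (.s k188 k168 5 (.s k195 k65 8 (.s k3 k22
  6 (.d k131 k129 k67 0 7))))) .n))) .n)))) .n))))))))) (.c k191 (.q k128 [(.s k192 k64 7 (.d k104
  k107 k148 0 13)), (.s k62 k61 0 (.d k150 k194 k195 13 14))] (.c k41 (.q k43 [(.s k192 k64 7 (.d
  k104 k107 k148 0 13)), (.s k62 k61 0 (.d k150 k194 k195 13 14))] .n) (.c k43 (.q k41 [(.s k192 k64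
  7 (.d k104 k107 k148 0 13)), (.s k62 k61 0 (.d k150 k194 k195 13 14))] .n) .n))) (.c k195 (.f k62
  k61 0 (.f k104 k107 0 (.q k41 [(.s k3 k22 6 (.s k169 k233 7 (.d k43 k23 k232 5 8))), (.s k3 k22 6
  (.s k1 k2 0 (.s k192 k148 13 (.s k129 k66 8 (.s k65 k193 7 (.s k85 k125 5 (.d k64 k128 k127 7
  6))))))), (.s k169 k233 7 (.s k232 k43 8 (.s k192 k148 13 (.s k150 k194 13 (.s k252 k212 5 (.d
  k188 k131 k124 6 7))))))] (.c k128 (.q k191 [(.s k3 k22 6 (.s k169 k233 7 (.d k43 k23 k232 5 8))),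
  (.s k255 k127 7 (.s k190 k125 8 (.s k126 k254 7 (.d k189 k188 k252 0 8))))] (.c k252 (.l (.s k3
  k22 6 (.s k43 k23 5 (.d k169 k233 k232 7 8)))) .n)) (.c k191 (.q k128 [(.d k192 k64 k148 7 13),
  (.s k3 k22 6 (.s k43 k23 5 (.d k169 k233 k232 7 8)))] .n) .n))))) .n)))))))

def t42_149_41 : T TT 256 :=
  (.f k40 k20 5 (.f k62 k61 0 (.l (.s k150 k194 13 (.s k105 k195 14 (.s k104 k107 0 (.s k168 k232 7
  (.s k84 k252 13 (.s k192 k148 13 (.d k64 k124 k128 5 7))))))))))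

def t42_149_43 : T TT 256 :=
  (.f k40 k20 5 (.f k62 k61 0 (.l (.s k150 k194 13 (.s k105 k195 14 (.s k104 k107 0 (.s k168 k232 7
  (.s k84 k252 13 (.s k192 k148 13 (.d k64 k124 k128 5 7))))))))))

def t42_149_44 : T TT 256 :=
  (.f k62 k61 0 (.l (.s k20 k40 5 (.s k150 k194 13 (.s k85 k215 8 (.s k105 k195 14 (.s k64 k127 6
  (.s k104 k107 0 (.d k192 k128 k148 7 13)))))))))

def t42_149_45 : T TT 256 :=
  (.f k62 k61 0 (.l (.s k20 k40 5 (.s k150 k194 13 (.s k85 k215 8 (.s k105 k195 14 (.s k64 k127 6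
  (.s k104 k107 0 (.d k192 k128 k148 7 13)))))))))

def t42_149_46 : T TT 256 :=
  (.f k62 k61 0 (.l (.s k20 k40 5 (.s k150 k194 13 (.s k85 k215 8 (.s k105 k195 14 (.s k64 k127 6
  (.s k104 k107 0 (.d k192 k128 k148 7 13)))))))))

def t42_149_47 : T TT 256 :=
  (.f k62 k61 0 (.l (.s k20 k40 5 (.s k150 k194 13 (.s k85 k215 8 (.s k105 k195 14 (.s k64 k127 6
  (.s k104 k107 0 (.d k192 k128 k148 7 13)))))))))

def t42_149_48 : T TT 256 :=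
  (.f k62 k61 0 (.l (.s k20 k40 5 (.s k150 k194 13 (.s k85 k215 8 (.s k105 k195 14 (.s k64 k127 6
  (.s k104 k107 0 (.d k192 k128 k148 7 13)))))))))

def t42_149_49 : T TT 256 :=
  (.f k62 k61 0 (.l (.s k20 k40 5 (.s k150 k194 13 (.s k85 k215 8 (.s k105 k195 14 (.s k64 k127 6
  (.s k104 k107 0 (.d k192 k128 k148 7 13)))))))))

def t42_149_50 : T TT 256 :=
  (.f k62 k61 0 (.l (.s k20 k40 5 (.s k150 k194 13 (.s k85 k215 8 (.s k105 k195 14 (.s k64 k127 6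
  (.s k104 k107 0 (.d k192 k128 k148 7 13)))))))))

def t42_149_51 : T TT 256 :=
  (.f k62 k61 0 (.l (.s k20 k40 5 (.s k150 k194 13 (.s k85 k215 8 (.s k105 k195 14 (.s k64 k127 6
  (.s k104 k107 0 (.d k192 k128 k148 7 13)))))))))

def t42_149_52 : T TT 256 :=
  (.f k62 k61 0 (.l (.s k20 k40 5 (.s k150 k194 13 (.s k85 k215 8 (.s k105 k195 14 (.s k64 k127 6
  (.s k104 k107 0 (.d k192 k128 k148 7 13)))))))))

def t42_149_53 : T TT 256 :=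
  (.f k62 k61 0 (.l (.s k20 k40 5 (.s k150 k194 13 (.s k85 k215 8 (.s k105 k195 14 (.s k64 k127 6
  (.s k104 k107 0 (.d k192 k128 k148 7 13)))))))))

def t42_149_54 : T TT 256 :=
  (.f k62 k61 0 (.l (.s k20 k40 5 (.s k150 k194 13 (.s k85 k215 8 (.s k105 k195 14 (.s k64 k127 6
  (.s k104 k107 0 (.d k192 k128 k148 7 13)))))))))

def t42_149_55 : T TT 256 :=
  (.f k62 k61 0 (.l (.s k20 k40 5 (.s k150 k194 13 (.s k85 k215 8 (.s k105 k195 14 (.s k64 k127 6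
  (.s k104 k107 0 (.d k192 k128 k148 7 13)))))))))

def t42_149_56 : T TT 256 :=
  (.f k62 k61 0 (.l (.s k20 k40 5 (.s k150 k194 13 (.s k85 k215 8 (.s k105 k195 14 (.s k64 k127 6
  (.s k104 k107 0 (.d k192 k128 k148 7 13)))))))))

def t42_149_57 : T TT 256 :=
  (.f k62 k61 0 (.l (.s k20 k40 5 (.s k150 k194 13 (.s k85 k215 8 (.s k105 k195 14 (.s k64 k127 6
  (.s k104 k107 0 (.d k192 k128 k148 7 13)))))))))

def t42_149_58 : T TT 256 :=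
  (.f k62 k61 0 (.l (.s k20 k40 5 (.s k150 k194 13 (.s k85 k215 8 (.s k105 k195 14 (.s k64 k127 6
  (.s k104 k107 0 (.d k192 k128 k148 7 13)))))))))

def t42_149_59 : T TT 256 :=
  (.f k62 k61 0 (.l (.s k20 k40 5 (.s k150 k194 13 (.s k85 k215 8 (.s k105 k195 14 (.s k64 k127 6
  (.s k104 k107 0 (.d k192 k128 k148 7 13)))))))))

def t42_149_61 : T TT 256 :=
  (.q k105 [(.s k107 k104 0 (.d k195 k151 k150 13 14)), (.s k20 k40 5 (.s k150 k195 14 (.s k85 k215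
  8 (.s k127 k64 6 (.s k125 k65 5 (.d k255 k191 k190 7 8)))))), (.s k20 k40 5 (.s k104 k107 0 (.s
  k148 k192 13 (.s k84 k212 7 (.s k252 k168 13 (.d k124 k64 k188 5 7))))))] (.c k128 (.q k191 [(.s
  k107 k104 0 (.d k195 k151 k150 13 14)), (.s k20 k40 5 (.s k150 k195 14 (.s k85 k215 8 (.d k127
  k255 k64 7 6)))), (.s k20 k40 5 (.s k127 k255 7 (.s k64 k85 6 (.s k104 k107 0 (.s k148 k192 13 (.d
  k84 k124 k212 5 7))))))] .n) (.c k191 (.q k128 [(.s k192 k64 7 (.d k104 k107 k148 0 13)), (.s k20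
  k40 5 (.s k64 k192 7 (.s k150 k195 14 (.d k85 k127 k215 6 8)))), (.s k195 k150 14 (.d k107 k151
  k104 13 0))] .n) .n)))

def t42_149_62 : T TT 256 :=
  (.q k22 [(.s k20 k40 5 (.s k23 k21 0 (.d k3 k43 k41 5 6))), (.s k3 k41 6 (.s k43 k23 5 (.s k169
  k232 8 (.s k86 k252 14 (.s k150 k214 7 (.s k131 k188 6 (.d k195 k67 k105 7 14)))))))] (.c k3 (.q
  k105 [(.s k107 k104 0 (.d k195 k151 k150 13 14)), (.s k150 k195 14 (.s k86 k214 7 (.s k126 k66 5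
  (.s k252 k189 8 (.d k124 k67 k188 6 7))))), (.s k20 k40 5 (.s k104 k107 0 (.s k148 k192 13 (.s k84
  k212 7 (.s k252 k168 13 (.d k124 k64 k188 5 7))))))] (.c k128 (.q k191 [(.s k107 k104 0 (.d k195
  k151 k150 13 14)), (.s k20 k40 5 (.s k150 k195 14 (.s k85 k215 8 (.d k127 k255 k64 7 6)))), (.s
  k20 k40 5 (.s k127 k255 7 (.s k64 k85 6 (.s k104 k107 0 (.s k148 k192 13 (.d k84 k124 k212 5
  7))))))] .n) (.c k191 (.q k128 [(.s k192 k64 7 (.d k104 k107 k148 0 13)), (.s k20 k40 5 (.s k64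
  k192 7 (.s k150 k195 14 (.d k85 k127 k215 6 8)))), (.s k195 k150 14 (.d k107 k151 k104 13 0))] .n)
  .n))) (.c k23 (.q k86 [(.s k126 k66 5 (.s k252 k189 8 (.d k3 k169 k41 14 6))), (.s k3 k41 6 (.s
  k169 k252 14 (.s k150 k214 7 (.s k195 k105 14 (.d k131 k188 k67 6 7))))), (.s k150 k214 7 (.s k105
  k195 14 (.s k126 k66 5 (.s k252 k189 8 (.d k124 k67 k188 6 7)))))] (.c k128 (.q k191 [(.s k126 k66
  5 (.s k252 k189 8 (.d k3 k169 k41 14 6))), (.s k150 k214 7 (.s k127 k255 7 (.s k85 k64 6 (.d k20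
  k40 k215 5 8))))] .n) (.c k169 (.l (.s k150 k214 7 (.s k105 k195 14 (.s k126 k66 5 (.s k124 k67 6
  (.d k252 k188 k189 7 8)))))) (.c k191 (.q k128 [(.s k192 k64 7 (.s k3 k41 6 (.d k66 k126 k129 5
  8))), (.s k64 k192 7 (.s k150 k214 7 (.s k85 k127 6 (.d k20 k40 k215 5 8)))), (.s k3 k41 6 (.s
  k252 k169 14 (.d k126 k189 k66 8 5)))] (.c k40 (.l (.s k192 k64 7 (.s k66 k126 5 (.d k3 k41 k129 6
  8)))) .n)) (.c k252 (.l (.s k3 k41 6 (.s k2 k1 0 (.s k150 k214 7 (.s k195 k105 14 (.s k130 k65 8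
  (.d k66 k126 k194 5 7))))))) .n))))) (.c k40 (.l (.s k3 k41 6 (.s k43 k23 5 (.s k169 k232 8 (.s
  k86 k252 14 (.s k150 k214 7 (.s k131 k188 6 (.d k195 k67 k105 7 14)))))))) (.c k41 (.q k105 [(.s
  k107 k104 0 (.d k195 k151 k150 13 14)), (.s k150 k195 14 (.s k86 k214 7 (.s k126 k66 5 (.s k252
  k189 8 (.d k124 k67 k188 6 7))))), (.s k40 k20 5 (.s k104 k107 0 (.s k168 k232 7 (.s k84 k252 13
  (.s k64 k124 5 (.d k192 k128 k148 7 13))))))] (.c k40 (.q k43 [(.s k107 k104 0 (.d k195 k151 k150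
  13 14)), (.s k3 k23 5 (.s k150 k195 14 (.s k86 k214 7 (.d k169 k252 k232 14 8)))), (.s k3 k23 5
  (.s k169 k232 8 (.s k86 k252 14 (.s k66 k126 5 (.s k192 k129 8 (.d k104 k107 k148 0 13))))))] (.c
  k128 (.q k191 [(.s k107 k104 0 (.d k195 k151 k150 13 14)), (.s k3 k23 5 (.s k150 k195 14 (.s k86
  k214 7 (.d k169 k252 k232 14 8)))), (.s k3 k23 5 (.s k255 k127 7 (.s k171 k87 13 (.d k107 k104
  k235 0 7))))] .n) (.c k191 (.q k128 [(.s k192 k64 7 (.d k104 k107 k148 0 13)), (.s k107 k104 0 (.d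
  k195 k151 k150 13 14)), (.s k64 k192 7 (.s k195 k150 14 (.s k85 k127 6 (.d k65 k130 k125 8 5))))]
  .n) (.c k232 (.l (.s k195 k150 14 (.d k107 k151 k104 13 0))) .n)))) (.c k43 (.l (.s k40 k20 5 (.s
  k195 k150 14 (.d k107 k151 k104 13 0)))) (.c k128 (.q k191 [(.s k107 k104 0 (.d k195 k151 k150 13
  14)), (.s k150 k195 14 (.s k127 k255 7 (.s k85 k64 6 (.d k20 k40 k215 5 8))))] (.c k40 (.q k43
  [(.s k107 k104 0 (.d k195 k151 k150 13 14)), (.s k3 k23 5 (.s k150 k195 14 (.s k86 k214 7 (.d k169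
  k252 k232 14 8)))), (.s k3 k23 5 (.s k255 k127 7 (.s k171 k87 13 (.d k107 k104 k235 0 7))))] .n)
  (.c k43 (.l (.s k40 k20 5 (.s k195 k150 14 (.d k107 k151 k104 13 0)))) (.c k150 (.l (.s k127 k255
  7 (.s k85 k64 6 (.s k65 k125 5 (.s k107 k104 0 (.d k195 k130 k151 8 13)))))) (.c k195 (.l (.s k40
  k20 5 (.s k127 k255 7 (.s k64 k85 6 (.s k104 k107 0 (.s k168 k232 7 (.d k84 k124 k252 5 13)))))))
  .n))))) (.c k191 (.q k128 [(.s k192 k64 7 (.d k104 k107 k148 0 13)), (.s k64 k192 7 (.s k150 k195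
  14 (.s k85 k127 6 (.d k20 k40 k215 5 8)))), (.s k195 k150 14 (.d k107 k151 k104 13 0))] (.c k40
  (.q k43 [(.s k192 k64 7 (.d k104 k107 k148 0 13)), (.s k107 k104 0 (.d k195 k151 k150 13 14)), (.s
  k64 k192 7 (.s k195 k150 14 (.s k85 k127 6 (.d k65 k130 k125 8 5))))] .n) (.c k43 (.l (.s k40 k20
  5 (.s k192 k64 7 (.d k104 k107 k148 0 13)))) .n))) .n))))) (.c k43 (.f k20 k40 5 (.f k41 k3 6 (.q
  k105 [(.s k107 k104 0 (.d k195 k151 k150 13 14)), (.s k21 k23 0 (.s k1 k61 5 (.s k169 k233 7 (.s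
  k85 k253 13 (.d k150 k215 k195 8 14))))), (.s k104 k107 0 (.s k148 k192 13 (.s k84 k212 7 (.s k252
  k168 13 (.d k124 k64 k188 5 7)))))] (.c k128 (.q k191 [(.s k107 k104 0 (.d k195 k151 k150 13 14)),
  (.s k21 k23 0 (.s k1 k61 5 (.s k169 k233 7 (.s k85 k253 13 (.d k127 k64 k255 6 7)))))] .n) (.c
  k191 (.q k128 [(.s k192 k64 7 (.d k104 k107 k148 0 13)), (.s k64 k192 7 (.s k150 k195 14 (.d k85
  k127 k215 6 8))), (.s k195 k150 14 (.d k107 k151 k104 13 0))] .n) .n))))) (.c k105 (.f k3 k41 6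
  (.l (.s k1 k2 0 (.s k43 k23 5 (.s k169 k232 8 (.s k85 k253 13 (.s k86 k252 14 (.s k150 k214 7 (.d
  k20 k40 k215 5 8))))))))) (.c k128 (.q k191 [(.s k20 k40 5 (.s k23 k21 0 (.d k3 k43 k41 5 6))),
  (.s k3 k41 6 (.s k1 k2 0 (.s k43 k23 5 (.s k169 k232 8 (.s k85 k253 13 (.d k127 k64 k255 6
  7))))))] (.c k3 (.q k105 [(.s k107 k104 0 (.d k195 k151 k150 13 14)), (.s k20 k40 5 (.s k150 k195
  14 (.s k85 k215 8 (.d k127 k255 k64 7 6)))), (.s k20 k40 5 (.s k127 k255 7 (.s k64 k85 6 (.s k104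
  k107 0 (.s k148 k192 13 (.d k84 k124 k212 5 7))))))] .n) (.c k23 (.q k86 [(.s k126 k66 5 (.s k252
  k189 8 (.d k3 k169 k41 14 6))), (.s k150 k214 7 (.s k127 k255 7 (.s k85 k64 6 (.d k20 k40 k215 5
  8))))] .n) (.c k40 (.l (.s k3 k41 6 (.s k43 k23 5 (.s k1 k2 0 (.s k169 k232 8 (.s k85 k253 13 (.d
  k127 k64 k255 6 7))))))) (.c k41 (.q k43 [(.s k23 k3 5 (.d k20 k21 k40 0 5)), (.s k40 k20 5 (.s
  k232 k169 8 (.s k168 k104 7 (.s k252 k84 13 (.s k189 k126 8 (.d k188 k190 k124 0 7)))))), (.s k3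
  k23 5 (.s k1 k2 0 (.s k169 k232 8 (.s k85 k253 13 (.d k127 k64 k255 6 7)))))] .n) (.c k43 (.q k86
  [(.s k126 k66 5 (.s k252 k189 8 (.d k3 k41 k169 6 14))), (.s k150 k214 7 (.s k127 k255 7 (.s k85
  k64 6 (.d k20 k40 k215 5 8))))] (.c k40 (.l (.s k41 k3 6 (.s k127 k255 7 (.s k126 k66 5 (.s k252
  k189 8 (.d k124 k125 k188 0 7)))))) (.c k41 (.l (.s k40 k20 5 (.s k127 k255 7 (.s k126 k66 5 (.s
  k252 k189 8 (.d k124 k125 k188 0 7)))))) .n))) (.c k85 (.l (.s k3 k41 6 (.s k43 k23 5 (.s k255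
  k127 7 (.s k171 k87 13 (.s k107 k235 7 (.d k151 k131 k195 5 13))))))) .n))))))) (.c k191 (.q k128
  [(.s k20 k40 5 (.s k23 k21 0 (.d k3 k43 k41 5 6))), (.s k192 k64 7 (.s k148 k104 13 (.s k168 k188
  5 (.s k84 k252 13 (.d k20 k40 k212 5 7)))))] (.c k20 (.l (.s k64 k192 7 (.s k3 k41 6 (.s k1 k2 0
  (.s k43 k23 5 (.s k169 k232 8 (.d k85 k127 k253 6 13))))))) (.c k40 (.l (.s k64 k192 7 (.s k3 k41
  6 (.s k43 k23 5 (.s k1 k2 0 (.s k169 k232 8 (.d k85 k127 k253 6 13))))))) .n))) .n)))))))))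

def t42_149_64 : T TT 256 :=
  (.f k62 k61 0 (.f k150 k194 13 (.l (.s k40 k20 5 (.s k105 k195 14 (.s k104 k107 0 (.s k168 k232 7
  (.s k252 k84 13 (.s k188 k124 7 (.d k148 k192 k128 13 5))))))))))

def t42_149_65 : T TT 256 :=
  (.f k62 k61 0 (.l (.s k20 k40 5 (.s k150 k194 13 (.s k85 k215 8 (.s k105 k195 14 (.s k64 k127 6
  (.s k104 k107 0 (.d k192 k128 k148 7 13)))))))))

def t42_149_66 : T TT 256 :=
  (.f k62 k61 0 (.l (.s k20 k40 5 (.s k150 k194 13 (.s k85 k215 8 (.s k105 k195 14 (.s k64 k127 6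
  (.s k104 k107 0 (.d k192 k128 k148 7 13)))))))))

def t42_149_67 : T TT 256 :=
  (.f k62 k61 0 (.l (.s k20 k40 5 (.s k150 k194 13 (.s k85 k215 8 (.s k105 k195 14 (.s k125 k65 5
  (.s k255 k190 8 (.d k127 k64 k191 6 7)))))))))

def t42_149_68 : T TT 256 :=
  (.f k62 k61 0 (.l (.s k20 k40 5 (.s k150 k194 13 (.s k85 k215 8 (.s k105 k195 14 (.s k64 k127 6
  (.s k104 k107 0 (.d k192 k128 k148 7 13)))))))))

def t42_149_69 : T TT 256 :=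
  (.f k62 k61 0 (.l (.s k20 k40 5 (.s k150 k194 13 (.s k85 k215 8 (.s k105 k195 14 (.s k64 k127 6
  (.s k104 k107 0 (.d k192 k128 k148 7 13)))))))))

def t42_149_70 : T TT 256 :=
  (.f k62 k61 0 (.l (.s k20 k40 5 (.s k150 k194 13 (.s k85 k215 8 (.s k105 k195 14 (.s k64 k127 6
  (.s k104 k107 0 (.d k192 k128 k148 7 13)))))))))

def t42_149_71 : T TT 256 :=
  (.f k62 k61 0 (.l (.s k20 k40 5 (.s k150 k194 13 (.s k85 k215 8 (.s k105 k195 14 (.s k64 k127 6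
  (.s k104 k107 0 (.d k192 k128 k148 7 13)))))))))

def t42_149_72 : T TT 256 :=
  (.f k62 k61 0 (.l (.s k20 k40 5 (.s k150 k194 13 (.s k85 k215 8 (.s k105 k195 14 (.s k64 k127 6
  (.s k104 k107 0 (.d k192 k128 k148 7 13)))))))))

def t42_149_73 : T TT 256 :=
  (.f k62 k61 0 (.l (.s k20 k40 5 (.s k150 k194 13 (.s k85 k215 8 (.s k105 k195 14 (.s k64 k127 6
  (.s k104 k107 0 (.d k192 k128 k148 7 13)))))))))

def t42_149_74 : T TT 256 :=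
  (.f k62 k61 0 (.l (.s k20 k40 5 (.s k150 k194 13 (.s k85 k215 8 (.s k105 k195 14 (.s k64 k127 6
  (.s k104 k107 0 (.d k192 k128 k148 7 13)))))))))

def t42_149_75 : T TT 256 :=
  (.f k62 k61 0 (.l (.s k20 k40 5 (.s k150 k194 13 (.s k85 k215 8 (.s k105 k195 14 (.s k64 k127 6
  (.s k104 k107 0 (.d k192 k128 k148 7 13)))))))))

def t42_149_76 : T TT 256 :=
  (.f k62 k61 0 (.l (.s k20 k40 5 (.s k150 k194 13 (.s k85 k215 8 (.s k105 k195 14 (.s k64 k127 6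
  (.s k104 k107 0 (.d k192 k128 k148 7 13)))))))))

def t42_149_77 : T TT 256 :=
  (.f k62 k61 0 (.l (.s k20 k40 5 (.s k150 k194 13 (.s k85 k215 8 (.s k105 k195 14 (.s k64 k127 6
  (.s k104 k107 0 (.d k192 k128 k148 7 13)))))))))

def t42_149_78 : T TT 256 :=
  (.f k62 k61 0 (.l (.s k20 k40 5 (.s k150 k194 13 (.s k85 k215 8 (.s k105 k195 14 (.s k64 k127 6
  (.s k104 k107 0 (.d k192 k128 k148 7 13)))))))))

def t42_149_79 : T TT 256 :=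
  (.f k62 k61 0 (.l (.s k20 k40 5 (.s k150 k194 13 (.s k85 k215 8 (.s k105 k195 14 (.s k64 k127 6
  (.s k104 k107 0 (.d k192 k128 k148 7 13)))))))))

def t42_149_80 : T TT 256 :=
  (.f k62 k61 0 (.l (.s k20 k40 5 (.s k150 k194 13 (.s k85 k215 8 (.s k105 k195 14 (.s k64 k127 6
  (.s k104 k107 0 (.d k192 k128 k148 7 13)))))))))

def t42_149_81 : T TT 256 :=
  (.f k62 k61 0 (.l (.s k20 k40 5 (.s k150 k194 13 (.s k85 k215 8 (.s k105 k195 14 (.s k64 k127 6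
  (.s k104 k107 0 (.d k192 k128 k148 7 13)))))))))

def t42_149_82 : T TT 256 :=
  (.f k62 k61 0 (.l (.s k20 k40 5 (.s k150 k194 13 (.s k85 k215 8 (.s k105 k195 14 (.s k64 k127 6
  (.s k104 k107 0 (.d k192 k128 k148 7 13)))))))))

def t42_149_83 : T TT 256 :=
  (.f k62 k61 0 (.l (.s k20 k40 5 (.s k150 k194 13 (.s k85 k215 8 (.s k105 k195 14 (.s k64 k127 6
  (.s k104 k107 0 (.d k192 k128 k148 7 13)))))))))

def t42_149_84 : T TT 256 :=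
  (.f k62 k61 0 (.l (.s k20 k40 5 (.s k150 k194 13 (.s k85 k215 8 (.s k105 k195 14 (.s k64 k127 6
  (.s k104 k107 0 (.d k192 k128 k148 7 13)))))))))

def t42_149_85 : T TT 256 :=
  (.f k62 k61 0 (.f k150 k194 13 (.l (.s k40 k20 5 (.s k105 k195 14 (.s k104 k107 0 (.s k168 k232 7
  (.s k84 k252 13 (.s k192 k148 13 (.d k64 k124 k128 5 7))))))))))

def t42_149_86 : T TT 256 :=
  (.f k62 k61 0 (.l (.s k20 k40 5 (.s k150 k194 13 (.s k85 k215 8 (.s k105 k195 14 (.s k64 k127 6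
  (.s k104 k107 0 (.d k192 k128 k148 7 13)))))))))

def t42_149_87 : T TT 256 :=
  (.f k62 k61 0 (.l (.s k20 k40 5 (.s k150 k194 13 (.s k85 k215 8 (.s k105 k195 14 (.s k127 k64 6
  (.s k125 k65 5 (.d k255 k191 k190 7 8)))))))))

def t42_149_88 : T TT 256 :=
  (.f k62 k61 0 (.l (.s k20 k40 5 (.s k150 k194 13 (.s k85 k215 8 (.s k105 k195 14 (.s k64 k127 6
  (.s k104 k107 0 (.d k192 k128 k148 7 13)))))))))

def t42_149_89 : T TT 256 :=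
  (.f k62 k61 0 (.l (.s k20 k40 5 (.s k150 k194 13 (.s k85 k215 8 (.s k105 k195 14 (.s k64 k127 6
  (.s k104 k107 0 (.d k192 k128 k148 7 13)))))))))

def t42_149_90 : T TT 256 :=
  (.f k62 k61 0 (.l (.s k20 k40 5 (.s k150 k194 13 (.s k85 k215 8 (.s k105 k195 14 (.s k64 k127 6
  (.s k104 k107 0 (.d k192 k128 k148 7 13)))))))))

def t42_149_91 : T TT 256 :=
  (.f k62 k61 0 (.l (.s k20 k40 5 (.s k150 k194 13 (.s k85 k215 8 (.s k105 k195 14 (.s k64 k127 6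
  (.s k104 k107 0 (.d k192 k128 k148 7 13)))))))))

def t42_149_92 : T TT 256 :=
  (.f k62 k61 0 (.l (.s k20 k40 5 (.s k150 k194 13 (.s k85 k215 8 (.s k105 k195 14 (.s k64 k127 6
  (.s k104 k107 0 (.d k192 k128 k148 7 13)))))))))

def t42_149_93 : T TT 256 :=
  (.f k62 k61 0 (.l (.s k20 k40 5 (.s k150 k194 13 (.s k85 k215 8 (.s k105 k195 14 (.s k64 k127 6
  (.s k104 k107 0 (.d k192 k128 k148 7 13)))))))))

def t42_149_94 : T TT 256 :=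
  (.f k62 k61 0 (.l (.s k20 k40 5 (.s k150 k194 13 (.s k85 k215 8 (.s k105 k195 14 (.s k64 k127 6
  (.s k104 k107 0 (.d k192 k128 k148 7 13)))))))))

def t42_149_95 : T TT 256 :=
  (.f k62 k61 0 (.l (.s k20 k40 5 (.s k150 k194 13 (.s k85 k215 8 (.s k105 k195 14 (.s k64 k127 6
  (.s k104 k107 0 (.d k192 k128 k148 7 13)))))))))

def t42_149_96 : T TT 256 :=
  (.f k62 k61 0 (.l (.s k20 k40 5 (.s k150 k194 13 (.s k85 k215 8 (.s k105 k195 14 (.s k64 k127 6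
  (.s k104 k107 0 (.d k192 k128 k148 7 13)))))))))

def t42_149_97 : T TT 256 :=
  (.f k62 k61 0 (.l (.s k20 k40 5 (.s k150 k194 13 (.s k85 k215 8 (.s k105 k195 14 (.s k64 k127 6
  (.s k104 k107 0 (.d k192 k128 k148 7 13)))))))))

def t42_149_98 : T TT 256 :=
  (.f k62 k61 0 (.l (.s k20 k40 5 (.s k150 k194 13 (.s k85 k215 8 (.s k105 k195 14 (.s k64 k127 6
  (.s k104 k107 0 (.d k192 k128 k148 7 13)))))))))

def t42_149_99 : T TT 256 :=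
  (.f k62 k61 0 (.l (.s k20 k40 5 (.s k150 k194 13 (.s k85 k215 8 (.s k105 k195 14 (.s k64 k127 6
  (.s k104 k107 0 (.d k192 k128 k148 7 13)))))))))

def t42_149_100 : T TT 256 :=
  (.f k62 k61 0 (.l (.s k20 k40 5 (.s k150 k194 13 (.s k85 k215 8 (.s k105 k195 14 (.s k64 k127 6
  (.s k104 k107 0 (.d k192 k128 k148 7 13)))))))))

def t42_149_101 : T TT 256 :=
  (.f k62 k61 0 (.l (.s k20 k40 5 (.s k150 k194 13 (.s k85 k215 8 (.s k105 k195 14 (.s k64 k127 6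
  (.s k104 k107 0 (.d k192 k128 k148 7 13)))))))))

def t42_149_102 : T TT 256 :=
  (.f k62 k61 0 (.l (.s k20 k40 5 (.s k150 k194 13 (.s k85 k215 8 (.s k105 k195 14 (.s k64 k127 6
  (.s k104 k107 0 (.d k192 k128 k148 7 13)))))))))

def t42_149_103 : T TT 256 :=
  (.f k62 k61 0 (.l (.s k20 k40 5 (.s k150 k194 13 (.s k85 k215 8 (.s k105 k195 14 (.s k64 k127 6
  (.s k104 k107 0 (.d k192 k128 k148 7 13)))))))))

def t42_149_104 : T TT 256 :=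
  (.f k62 k61 0 (.l (.s k20 k40 5 (.s k150 k194 13 (.s k85 k215 8 (.s k105 k195 14 (.s k127 k64 6
  (.s k125 k65 5 (.d k255 k191 k190 7 8)))))))))

def t42_149_105 : T TT 256 :=
  (.f k40 k20 5 (.q k252 [(.s k168 k84 13 (.s k104 k232 7 (.s k148 k192 13 (.d k188 k128 k124 5
  7)))), (.s k61 k62 0 (.s k188 k124 7 (.s k189 k126 8 (.s k125 k253 7 (.d k190 k191 k255 0 8))))),
  (.s k168 k84 13 (.s k126 k189 8 (.s k86 k66 5 (.s k169 k3 14 (.d k232 k104 k43 7 8)))))] (.c k61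
  (.q k193 [(.s k168 k84 13 (.s k104 k232 7 (.s k148 k192 13 (.d k188 k128 k124 5 7)))), (.s k84
  k168 13 (.s k124 k188 7 (.s k126 k189 8 (.s k86 k66 5 (.s k85 k87 0 (.d k127 k125 k64 0 6)))))),
  (.s k126 k189 8 (.s k86 k66 5 (.s k169 k3 14 (.s k232 k43 8 (.s k104 k168 7 (.d k192 k212 k148 5
  13))))))] (.c k128 (.q k191 [(.s k189 k126 8 (.d k188 k190 k124 0 7)), (.s k84 k168 13 (.s k127
  k255 7 (.s k64 k85 6 (.d k124 k188 k104 7 5))))] (.c k124 (.l (.s k189 k126 8 (.s k190 k188 0 (.d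
  k255 k127 k125 7 8)))) (.c k188 (.l (.s k168 k84 13 (.s k232 k104 7 (.s k169 k43 8 (.s k86 k3 14
  (.d k126 k66 k189 5 8)))))) .n))) (.c k148 (.l (.s k126 k189 8 (.s k86 k66 5 (.s k169 k3 14 (.s
  k232 k43 8 (.d k168 k104 k84 7 13)))))) (.c k168 (.f k126 k189 8 (.l (.s k188 k124 7 (.s k86 k66 5
  (.s k169 k3 14 (.s k232 k43 8 (.s k150 k131 6 (.s k194 k62 13 (.d k192 k195 k212 0 5))))))))) (.c
  k191 (.q k128 [(.s k168 k84 13 (.d k188 k148 k124 5 7)), (.s k64 k192 7 (.s k124 k188 7 (.s k127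
  k85 6 (.d k126 k125 k189 0 8))))] (.c k124 (.l (.s k192 k64 7 (.s k168 k84 13 (.d k104 k148 k232
  13 7)))) (.c k188 (.l (.s k192 k64 7 (.s k168 k84 13 (.d k104 k148 k232 13 7)))) .n))) .n))))) (.c
  k128 (.q k191 [(.s k189 k126 8 (.d k188 k190 k124 0 7)), (.s k84 k168 13 (.s k127 k255 7 (.s k64
  k85 6 (.d k124 k188 k104 7 5)))), (.s k61 k62 0 (.s k189 k126 8 (.s k125 k253 7 (.d k255 k190 k127
  8 7))))] (.c k61 (.q k193 [(.s k189 k126 8 (.d k188 k190 k124 0 7)), (.s k84 k168 13 (.s k127 k255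
  7 (.s k64 k85 6 (.d k124 k188 k104 7 5))))] (.c k124 (.l (.s k189 k126 8 (.s k190 k188 0 (.d k255
  k127 k125 7 8)))) (.c k188 (.l (.s k168 k84 13 (.s k232 k104 7 (.s k169 k43 8 (.s k86 k3 14 (.d
  k126 k66 k189 5 8)))))) .n))) (.c k193 (.l (.s k61 k62 0 (.s k188 k124 7 (.d k189 k190 k126 0
  8)))) .n))) (.c k191 (.q k128 [(.s k168 k84 13 (.d k188 k148 k124 5 7)), (.s k64 k192 7 (.s k124
  k188 7 (.s k127 k85 6 (.d k126 k125 k189 0 8))))] (.c k61 (.q k193 [(.s k168 k84 13 (.d k188 k148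
  k124 5 7)), (.s k64 k192 7 (.s k124 k188 7 (.s k127 k85 6 (.d k126 k125 k189 0 8))))] (.c k124 (.l
  (.s k192 k64 7 (.s k168 k84 13 (.d k104 k148 k232 13 7)))) (.c k188 (.l (.s k192 k64 7 (.s k168
  k84 13 (.d k104 k148 k232 13 7)))) .n))) (.c k124 (.l (.s k192 k64 7 (.s k168 k84 13 (.d k104 k148
  k232 13 7)))) (.c k188 (.l (.s k192 k64 7 (.s k168 k84 13 (.d k104 k148 k232 13 7)))) (.c k193 (.l
  (.s k61 k62 0 (.s k168 k84 13 (.d k188 k148 k124 5 7)))) .n))))) (.c k193 (.l (.s k61 k62 0 (.s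
  k168 k84 13 (.s k104 k232 7 (.s k148 k192 13 (.d k188 k128 k124 5 7)))))) .n))))))

def t42_149_107 : T TT 256 :=
  (.f k62 k61 0 (.l (.s k20 k40 5 (.s k150 k194 13 (.s k85 k215 8 (.s k105 k195 14 (.s k127 k64 6
  (.s k125 k65 5 (.d k255 k191 k190 7 8)))))))))

def t42_149_108 : T TT 256 :=
  (.f k62 k61 0 (.l (.s k20 k40 5 (.s k150 k194 13 (.s k85 k215 8 (.s k105 k195 14 (.s k64 k127 6
  (.s k104 k107 0 (.d k192 k128 k148 7 13)))))))))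

def t42_149_109 : T TT 256 :=
  (.f k62 k61 0 (.l (.s k20 k40 5 (.s k150 k194 13 (.s k85 k215 8 (.s k105 k195 14 (.s k64 k127 6
  (.s k104 k107 0 (.d k192 k128 k148 7 13)))))))))

def t42_149_110 : T TT 256 :=
  (.f k62 k61 0 (.l (.s k20 k40 5 (.s k150 k194 13 (.s k85 k215 8 (.s k105 k195 14 (.s k64 k127 6
  (.s k104 k107 0 (.d k192 k128 k148 7 13)))))))))

def t42_149_111 : T TT 256 :=
  (.f k62 k61 0 (.l (.s k20 k40 5 (.s k150 k194 13 (.s k85 k215 8 (.s k105 k195 14 (.s k64 k127 6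
  (.s k104 k107 0 (.d k192 k128 k148 7 13)))))))))

def t42_149_112 : T TT 256 :=
  (.f k62 k61 0 (.l (.s k20 k40 5 (.s k150 k194 13 (.s k85 k215 8 (.s k105 k195 14 (.s k64 k127 6
  (.s k104 k107 0 (.d k192 k128 k148 7 13)))))))))

def t42_149_113 : T TT 256 :=
  (.f k62 k61 0 (.l (.s k20 k40 5 (.s k150 k194 13 (.s k85 k215 8 (.s k105 k195 14 (.s k64 k127 6
  (.s k104 k107 0 (.d k192 k128 k148 7 13)))))))))

def t42_149_114 : T TT 256 :=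
  (.f k62 k61 0 (.l (.s k20 k40 5 (.s k150 k194 13 (.s k85 k215 8 (.s k105 k195 14 (.s k64 k127 6
  (.s k104 k107 0 (.d k192 k128 k148 7 13)))))))))

def t42_149_115 : T TT 256 :=
  (.f k62 k61 0 (.l (.s k20 k40 5 (.s k150 k194 13 (.s k85 k215 8 (.s k105 k195 14 (.s k64 k127 6
  (.s k104 k107 0 (.d k192 k128 k148 7 13)))))))))

def t42_149_116 : T TT 256 :=
  (.f k62 k61 0 (.l (.s k20 k40 5 (.s k150 k194 13 (.s k85 k215 8 (.s k105 k195 14 (.s k64 k127 6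
  (.s k104 k107 0 (.d k192 k128 k148 7 13)))))))))

def t42_149_117 : T TT 256 :=
  (.f k62 k61 0 (.l (.s k20 k40 5 (.s k150 k194 13 (.s k85 k215 8 (.s k105 k195 14 (.s k64 k127 6
  (.s k104 k107 0 (.d k192 k128 k148 7 13)))))))))

def t42_149_118 : T TT 256 :=
  (.f k62 k61 0 (.l (.s k20 k40 5 (.s k150 k194 13 (.s k85 k215 8 (.s k105 k195 14 (.s k64 k127 6
  (.s k104 k107 0 (.d k192 k128 k148 7 13)))))))))

def t42_149_119 : T TT 256 :=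
  (.f k62 k61 0 (.l (.s k20 k40 5 (.s k150 k194 13 (.s k85 k215 8 (.s k105 k195 14 (.s k64 k127 6
  (.s k104 k107 0 (.d k192 k128 k148 7 13)))))))))

def t42_149_120 : T TT 256 :=
  (.f k62 k61 0 (.l (.s k20 k40 5 (.s k150 k194 13 (.s k85 k215 8 (.s k105 k195 14 (.s k64 k127 6
  (.s k104 k107 0 (.d k192 k128 k148 7 13)))))))))

def t42_149_121 : T TT 256 :=
  (.f k62 k61 0 (.l (.s k20 k40 5 (.s k150 k194 13 (.s k85 k215 8 (.s k105 k195 14 (.s k64 k127 6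
  (.s k104 k107 0 (.d k192 k128 k148 7 13)))))))))

def t42_149_122 : T TT 256 :=
  (.f k62 k61 0 (.l (.s k20 k40 5 (.s k150 k194 13 (.s k85 k215 8 (.s k105 k195 14 (.s k64 k127 6
  (.s k104 k107 0 (.d k192 k128 k148 7 13)))))))))

def t42_149_123 : T TT 256 :=
  (.f k62 k61 0 (.l (.s k20 k40 5 (.s k150 k194 13 (.s k85 k215 8 (.s k105 k195 14 (.s k64 k127 6
  (.s k104 k107 0 (.d k192 k128 k148 7 13)))))))))

def t42_149_124 : T TT 256 :=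
  (.f k62 k61 0 (.l (.s k20 k40 5 (.s k150 k194 13 (.s k85 k215 8 (.s k105 k195 14 (.s k64 k127 6
  (.s k104 k107 0 (.d k192 k128 k148 7 13)))))))))

def t42_149_125 : T TT 256 :=
  (.f k62 k61 0 (.l (.s k20 k40 5 (.s k150 k194 13 (.s k85 k215 8 (.s k105 k195 14 (.s k64 k127 6
  (.s k104 k107 0 (.d k192 k128 k148 7 13)))))))))

def t42_149_126 : T TT 256 :=
  (.f k62 k61 0 (.l (.s k20 k40 5 (.s k150 k194 13 (.s k85 k215 8 (.s k105 k195 14 (.s k64 k127 6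
  (.s k104 k107 0 (.d k192 k128 k148 7 13)))))))))

def t42_149_127 : T TT 256 :=
  (.f k62 k61 0 (.f k40 k20 5 (.l (.s k150 k194 13 (.s k105 k195 14 (.s k104 k107 0 (.s k168 k232 7
  (.s k84 k252 13 (.s k192 k148 13 (.d k64 k124 k128 5 7))))))))))

def t42_149_128 : T TT 256 :=
  (.q k191 [(.s k62 k61 0 (.s k150 k194 13 (.s k127 k255 7 (.s k85 k64 6 (.d k20 k40 k215 5 8))))),
  (.s k255 k127 7 (.s k190 k125 8 (.s k189 k188 0 (.s k126 k252 8 (.d k62 k61 k254 0 7)))))] (.c k61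
  (.q k105 [(.s k107 k104 0 (.d k195 k151 k150 13 14)), (.s k20 k40 5 (.s k150 k195 14 (.s k85 k215
  8 (.d k127 k255 k64 7 6)))), (.s k20 k40 5 (.s k127 k255 7 (.s k64 k85 6 (.s k104 k107 0 (.s k148
  k192 13 (.d k84 k124 k212 5 7))))))] .n) (.c k62 (.q k86 [(.s k127 k255 7 (.s k126 k66 5 (.s k124
  k125 0 (.d k252 k188 k189 7 8)))), (.s k127 k255 7 (.s k85 k64 6 (.s k87 k84 0 (.s k107 k67 5 (.s
  k195 k151 13 (.d k105 k104 k150 0 14)))))), (.s k40 k20 5 (.s k126 k66 5 (.s k252 k189 8 (.s k168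
  k84 13 (.s k169 k3 14 (.d k232 k104 k43 7 8))))))] (.c k2 (.q k22 [(.s k3 k41 6 (.s k43 k23 5 (.d
  k169 k232 k252 8 14))), (.s k150 k214 7 (.s k127 k255 7 (.s k85 k64 6 (.d k20 k40 k215 5 8))))]
  (.c k40 (.l (.s k3 k41 6 (.s k43 k23 5 (.d k169 k232 k252 8 14)))) .n)) (.c k22 (.q k2 [(.s k3 k1
  0 (.s k169 k252 14 (.d k43 k23 k232 5 8))), (.s k127 k255 7 (.s k64 k85 6 (.s k66 k126 5 (.s k130
  k194 7 (.d k65 k67 k195 0 8)))))] .n) (.c k66 (.l (.s k127 k255 7 (.s k85 k64 6 (.s k84 k87 0 (.s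
  k252 k168 13 (.s k188 k124 7 (.d k189 k190 k126 0 8))))))) .n)))) (.c k127 (.q k105 [(.s k62 k61 0
  (.d k150 k194 k195 13 14)), (.s k20 k40 5 (.s k104 k107 0 (.s k148 k192 13 (.s k84 k212 7 (.s k252
  k168 13 (.d k124 k64 k188 5 7))))))] .n) (.c k255 (.q k105 [(.s k62 k61 0 (.d k150 k194 k195 13
  14)), (.s k20 k40 5 (.s k104 k107 0 (.s k148 k192 13 (.s k84 k212 7 (.s k252 k168 13 (.d k124 k64
  k188 5 7))))))] .n) .n)))))

def t42_149_129 : T TT 256 :=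
  (.f k62 k61 0 (.l (.s k20 k40 5 (.s k150 k194 13 (.s k85 k215 8 (.s k105 k195 14 (.s k64 k127 6
  (.s k104 k107 0 (.d k192 k128 k148 7 13)))))))))

def t42_149_130 : T TT 256 :=
  (.f k62 k61 0 (.l (.s k20 k40 5 (.s k150 k194 13 (.s k85 k215 8 (.s k105 k195 14 (.s k64 k127 6
  (.s k104 k107 0 (.d k192 k128 k148 7 13)))))))))

def t42_149_131 : T TT 256 :=
  (.f k62 k61 0 (.l (.s k20 k40 5 (.s k150 k194 13 (.s k85 k215 8 (.s k105 k195 14 (.s k64 k127 6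
  (.s k104 k107 0 (.d k192 k128 k148 7 13)))))))))

def t42_149_132 : T TT 256 :=
  (.f k62 k61 0 (.l (.s k20 k40 5 (.s k150 k194 13 (.s k85 k215 8 (.s k105 k195 14 (.s k64 k127 6
  (.s k104 k107 0 (.d k192 k128 k148 7 13)))))))))

def t42_149_133 : T TT 256 :=
  (.f k62 k61 0 (.l (.s k20 k40 5 (.s k150 k194 13 (.s k85 k215 8 (.s k105 k195 14 (.s k64 k127 6
  (.s k104 k107 0 (.d k192 k128 k148 7 13)))))))))

def t42_149_134 : T TT 256 :=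
  (.f k62 k61 0 (.l (.s k20 k40 5 (.s k150 k194 13 (.s k85 k215 8 (.s k105 k195 14 (.s k64 k127 6
  (.s k104 k107 0 (.d k192 k128 k148 7 13)))))))))

def t42_149_135 : T TT 256 :=
  (.f k62 k61 0 (.l (.s k20 k40 5 (.s k150 k194 13 (.s k85 k215 8 (.s k105 k195 14 (.s k64 k127 6
  (.s k104 k107 0 (.d k192 k128 k148 7 13)))))))))

def t42_149_136 : T TT 256 :=
  (.f k62 k61 0 (.l (.s k20 k40 5 (.s k150 k194 13 (.s k85 k215 8 (.s k105 k195 14 (.s k64 k127 6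
  (.s k104 k107 0 (.d k192 k128 k148 7 13)))))))))

def t42_149_137 : T TT 256 :=
  (.f k62 k61 0 (.l (.s k20 k40 5 (.s k150 k194 13 (.s k85 k215 8 (.s k105 k195 14 (.s k64 k127 6
  (.s k104 k107 0 (.d k192 k128 k148 7 13)))))))))

def t42_149_138 : T TT 256 :=
  (.f k62 k61 0 (.l (.s k20 k40 5 (.s k150 k194 13 (.s k85 k215 8 (.s k105 k195 14 (.s k64 k127 6
  (.s k104 k107 0 (.d k192 k128 k148 7 13)))))))))

def t42_149_139 : T TT 256 :=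
  (.f k62 k61 0 (.l (.s k20 k40 5 (.s k150 k194 13 (.s k85 k215 8 (.s k105 k195 14 (.s k64 k127 6
  (.s k104 k107 0 (.d k192 k128 k148 7 13)))))))))

def t42_149_140 : T TT 256 :=
  (.f k62 k61 0 (.l (.s k20 k40 5 (.s k150 k194 13 (.s k85 k215 8 (.s k105 k195 14 (.s k64 k127 6
  (.s k104 k107 0 (.d k192 k128 k148 7 13)))))))))

def t42_149_141 : T TT 256 :=
  (.f k62 k61 0 (.l (.s k20 k40 5 (.s k150 k194 13 (.s k85 k215 8 (.s k105 k195 14 (.s k64 k127 6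
  (.s k104 k107 0 (.d k192 k128 k148 7 13)))))))))

def t42_149_142 : T TT 256 :=
  (.f k62 k61 0 (.l (.s k20 k40 5 (.s k150 k194 13 (.s k85 k215 8 (.s k105 k195 14 (.s k64 k127 6
  (.s k104 k107 0 (.d k192 k128 k148 7 13)))))))))

def t42_149_143 : T TT 256 :=
  (.f k62 k61 0 (.l (.s k20 k40 5 (.s k150 k194 13 (.s k85 k215 8 (.s k105 k195 14 (.s k64 k127 6
  (.s k104 k107 0 (.d k192 k128 k148 7 13)))))))))

def t42_149_144 : T TT 256 :=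
  (.f k62 k61 0 (.l (.s k20 k40 5 (.s k150 k194 13 (.s k85 k215 8 (.s k105 k195 14 (.s k64 k127 6
  (.s k104 k107 0 (.d k192 k128 k148 7 13)))))))))

def t42_149_145 : T TT 256 :=
  (.f k62 k61 0 (.l (.s k20 k40 5 (.s k150 k194 13 (.s k85 k215 8 (.s k105 k195 14 (.s k64 k127 6
  (.s k104 k107 0 (.d k192 k128 k148 7 13)))))))))

def t42_149_146 : T TT 256 :=
  (.f k62 k61 0 (.l (.s k20 k40 5 (.s k150 k194 13 (.s k85 k215 8 (.s k105 k195 14 (.s k64 k127 6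
  (.s k104 k107 0 (.d k192 k128 k148 7 13)))))))))

def t42_149_147 : T TT 256 :=
  (.f k62 k61 0 (.l (.s k20 k40 5 (.s k150 k194 13 (.s k85 k215 8 (.s k105 k195 14 (.s k64 k127 6
  (.s k104 k107 0 (.d k192 k128 k148 7 13)))))))))

def t42_149_148 : T TT 256 :=
  (.f k62 k61 0 (.l (.s k20 k40 5 (.s k150 k194 13 (.s k85 k215 8 (.s k105 k195 14 (.s k127 k64 6
  (.s k125 k65 5 (.d k255 k191 k190 7 8)))))))))

def t42_149_150 : T TT 256 :=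
  (.q k190 [(.s k61 k62 0 (.s k125 k255 8 (.s k189 k253 7 (.s k252 k126 8 (.d k188 k191 k124 0
  7))))), (.s k62 k61 0 (.s k255 k125 8 (.s k191 k127 7 (.s k189 k188 0 (.d k126 k254 k252 7 8)))))]
  (.c k61 (.q k105 [(.s k125 k255 8 (.s k85 k65 5 (.s k64 k127 6 (.s k104 k107 0 (.d k192 k128 k148
  7 13))))), (.s k20 k40 5 (.s k104 k107 0 (.s k148 k192 13 (.s k84 k212 7 (.s k252 k168 13 (.d k124
  k64 k188 5 7)))))), (.s k125 k255 8 (.s k85 k65 5 (.s k127 k64 6 (.s k124 k126 0 (.s k252 k188 7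
  (.s k84 k168 13 (.d k86 k67 k87 6 0)))))))] (.c k64 (.l (.s k125 k255 8 (.s k65 k85 5 (.s k195
  k130 8 (.d k107 k104 k151 0 13))))) (.c k128 (.q k191 [(.d k255 k127 k125 7 8), (.s k40 k20 5 (.s
  k104 k107 0 (.s k168 k232 7 (.s k252 k84 13 (.d k188 k189 k124 0 7)))))] (.c k148 (.q k151 [(.d
  k255 k127 k125 7 8), (.d k107 k104 k195 0 13)] (.c k168 (.l (.s k188 k189 0 (.d k255 k125 k127 8
  7))) (.c k188 (.q k168 [(.d k255 k127 k125 7 8), (.d k107 k104 k195 0 13)] (.c k131 (.q k169 [(.d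
  k255 k127 k125 7 8), (.d k107 k104 k195 0 13)] (.c k129 (.q k130 [(.d k195 k65 k107 8 13), (.d
  k255 k127 k125 7 8)] .n) (.c k130 (.q k129 [(.d k255 k127 k125 7 8), (.d k107 k104 k195 0 13)] .n)
  .n))) (.c k169 (.l (.s k131 k171 5 (.d k255 k127 k125 7 8))) .n))) .n))) (.c k151 (.q k148 [(.d
  k255 k127 k125 7 8), (.d k104 k107 k192 0 13)] .n) .n))) (.c k148 (.q k151 [(.d k107 k104 k195 0
  13), (.s k125 k255 8 (.s k85 k65 5 (.s k127 k64 6 (.s k126 k124 0 (.s k252 k189 8 (.s k84 k168 13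
  (.d k86 k66 k87 5 0)))))))] (.c k104 (.l (.s k125 k255 8 (.s k195 k107 13 (.d k65 k85 k130 5 8))))
  (.c k128 (.q k191 [(.d k255 k127 k125 7 8), (.d k107 k104 k195 0 13)] (.c k168 (.l (.s k188 k189 0
  (.d k255 k125 k127 8 7))) (.c k188 (.q k168 [(.d k255 k127 k125 7 8), (.d k107 k104 k195 0 13)]
  (.c k131 (.q k169 [(.d k255 k127 k125 7 8), (.d k107 k104 k195 0 13)] (.c k129 (.q k130 [(.d k195
  k65 k107 8 13), (.d k255 k127 k125 7 8)] .n) (.c k130 (.q k129 [(.d k255 k127 k125 7 8), (.d k107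
  k104 k195 0 13)] .n) .n))) (.c k169 (.l (.s k131 k171 5 (.d k255 k127 k125 7 8))) .n))) .n))) (.c
  k191 (.q k128 [(.d k107 k104 k195 0 13), (.s k64 k192 7 (.s k125 k255 8 (.d k85 k65 k127 5 6)))]
  .n) .n)))) (.c k151 (.q k148 [(.d k104 k107 k192 0 13), (.s k20 k40 5 (.s k84 k212 7 (.s k168 k252
  13 (.s k255 k125 8 (.s k191 k127 7 (.d k188 k189 k128 0 5))))))] (.c k128 (.q k191 [(.d k255 k127
  k125 7 8), (.d k104 k107 k192 0 13)] .n) (.c k191 (.q k128 [(.d k192 k64 k104 7 13), (.s k20 k40 5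
  (.s k84 k212 7 (.d k168 k188 k252 5 13)))] (.c k131 (.q k171 [(.d k192 k64 k104 7 13), (.s k20 k40
  5 (.s k84 k212 7 (.d k168 k188 k252 5 13)))] (.c k169 (.l (.s k188 k168 5 (.d k192 k64 k104 7
  13))) (.c k188 (.q k169 [(.d k192 k64 k104 7 13), (.s k43 k232 8 (.d k107 k104 k235 0 7))] (.c
  k104 (.l (.s k64 k192 7 (.s k125 k255 8 (.d k85 k65 k127 5 6)))) .n)) .n))) (.c k171 (.q k131 [(.d
  k192 k64 k104 7 13), (.s k20 k40 5 (.s k84 k212 7 (.d k168 k188 k252 5 13)))] (.c k168 (.q k169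
  [(.d k192 k64 k104 7 13), (.s k41 k233 7 (.s k3 k22 6 (.d k43 k23 k232 5 8)))] .n) (.c k169 (.l
  (.s k168 k188 5 (.d k192 k64 k104 7 13))) .n))) .n))) (.c k192 (.l (.s k20 k40 5 (.s k84 k212 7
  (.s k252 k168 13 (.s k124 k188 7 (.d k104 k107 k64 0 5)))))) .n)))) (.c k191 (.q k128 [(.s k192
  k64 7 (.d k104 k148 k107 13 0)), (.s k64 k192 7 (.s k125 k255 8 (.d k85 k65 k127 5 6))), (.s k125
  k255 8 (.s k65 k85 5 (.s k195 k130 8 (.d k107 k151 k104 13 0))))] (.c k148 (.q k151 [(.d k107 k104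
  k195 0 13), (.s k64 k192 7 (.s k125 k255 8 (.d k85 k65 k127 5 6)))] .n) (.c k151 (.q k148 [(.d
  k192 k64 k104 7 13), (.s k20 k40 5 (.s k84 k212 7 (.d k168 k188 k252 5 13)))] (.c k131 (.q k171
  [(.d k192 k64 k104 7 13), (.s k20 k40 5 (.s k84 k212 7 (.d k168 k188 k252 5 13)))] (.c k169 (.l
  (.s k188 k168 5 (.d k192 k64 k104 7 13))) (.c k188 (.q k169 [(.d k192 k64 k104 7 13), (.s k43 k232
  8 (.d k107 k104 k235 0 7))] (.c k104 (.l (.s k64 k192 7 (.s k125 k255 8 (.d k85 k65 k127 5 6))))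
  .n)) .n))) (.c k171 (.q k131 [(.d k192 k64 k104 7 13), (.s k20 k40 5 (.s k84 k212 7 (.d k168 k188
  k252 5 13)))] (.c k168 (.q k169 [(.d k192 k64 k104 7 13), (.s k41 k233 7 (.s k3 k22 6 (.d k43 k23
  k232 5 8)))] .n) (.c k169 (.l (.s k168 k188 5 (.d k192 k64 k104 7 13))) .n))) .n))) .n))) .n))))))
  (.c k62 (.f k255 k125 8 (.f k191 k127 7 (.q k3 [(.s k171 k87 13 (.s k151 k131 5 (.s k107 k195 13
  (.d k43 k23 k235 5 7)))), (.s k43 k23 5 (.s k169 k232 8 (.s k188 k189 0 (.d k252 k124 k86 7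
  14)))), (.s k43 k23 5 (.s k171 k87 13 (.s k107 k235 7 (.d k151 k131 k195 5 13))))] (.c k2 (.l (.s
  k22 k41 6 (.s k43 k23 5 (.s k171 k87 13 (.s k107 k235 7 (.d k151 k131 k195 5 13)))))) (.c k22 (.l
  (.s k2 k1 0 (.s k43 k23 5 (.s k171 k87 13 (.s k107 k235 7 (.d k151 k131 k195 5 13)))))) (.c k23
  (.l (.s k40 k20 5 (.s k171 k87 13 (.s k151 k131 5 (.s k107 k195 13 (.s k43 k235 7 (.s k104 k105 0
  (.d k232 k169 k168 8 7)))))))) (.c k43 (.f k171 k87 13 (.l (.s k2 k1 0 (.s k189 k188 0 (.s k126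
  k252 8 (.s k66 k86 5 (.s k130 k194 7 (.s k195 k65 8 (.d k131 k151 k67 5 7))))))))) (.c k124 (.q
  k126 [(.d k189 k188 k252 0 8), (.s k43 k23 5 (.s k171 k87 13 (.s k107 k235 7 (.d k151 k131 k195 5
  13))))] (.c k2 (.l (.s k22 k41 6 (.d k189 k188 k252 0 8))) (.c k22 (.l (.s k2 k1 0 (.d k189 k188
  k252 0 8))) (.c k148 (.q k151 [(.d k171 k131 k87 5 13), (.d k189 k188 k252 0 8)] (.c k2 (.l (.s
  k22 k41 6 (.d k171 k131 k87 5 13))) (.c k22 (.l (.s k2 k1 0 (.d k171 k131 k87 5 13))) .n))) (.c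
  k151 (.q k148 [(.d k189 k188 k252 0 8), (.s k192 k104 13 (.d k66 k86 k129 5 8))] (.c k2 (.l (.s
  k22 k41 6 (.d k189 k188 k252 0 8))) (.c k22 (.l (.s k2 k1 0 (.d k189 k188 k252 0 8))) .n)))
  .n))))) (.c k126 (.q k124 [(.d k188 k189 k252 0 7), (.s k43 k23 5 (.s k171 k87 13 (.s k107 k235 7
  (.d k151 k131 k195 5 13))))] (.c k2 (.l (.s k22 k41 6 (.d k188 k189 k252 0 7))) (.c k22 (.l (.s k2
  k1 0 (.d k188 k189 k252 0 7))) (.c k148 (.q k151 [(.d k171 k131 k87 5 13), (.d k188 k189 k252 0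
  7)] (.c k2 (.l (.s k22 k41 6 (.d k171 k131 k87 5 13))) (.c k22 (.l (.s k2 k1 0 (.d k171 k131 k87 5
  13))) .n))) (.c k151 (.q k148 [(.d k188 k189 k252 0 7), (.s k20 k40 5 (.s k84 k212 7 (.d k104 k64
  k192 5 13)))] (.c k2 (.l (.s k22 k41 6 (.d k188 k189 k252 0 7))) (.c k22 (.l (.s k2 k1 0 (.d k188
  k189 k252 0 7))) .n))) .n))))) (.c k148 (.q k151 [(.d k171 k131 k87 5 13), (.s k23 k43 5 (.s k215
  k87 7 (.d k195 k107 k235 13 5)))] (.c k2 (.l (.s k22 k41 6 (.d k171 k131 k87 5 13))) (.c k22 (.l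
  (.s k2 k1 0 (.d k171 k131 k87 5 13))) (.c k87 (.l (.s k131 k171 5 (.d k195 k67 k107 7 13))) (.c
  k124 (.q k126 [(.d k171 k131 k87 5 13), (.d k189 k188 k252 0 8)] (.c k2 (.l (.s k22 k41 6 (.d k171
  k131 k87 5 13))) (.c k22 (.l (.s k2 k1 0 (.d k171 k131 k87 5 13))) .n))) (.c k126 (.q k124 [(.d
  k171 k131 k87 5 13), (.d k188 k189 k252 0 7)] (.c k2 (.l (.s k22 k41 6 (.d k171 k131 k87 5 13)))
  (.c k22 (.l (.s k2 k1 0 (.d k171 k131 k87 5 13))) .n))) .n)))))) (.c k151 (.q k148 [(.s k192 k104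
  13 (.s k128 k64 7 (.d k188 k189 k168 0 5))), (.s k43 k23 5 (.s k169 k232 8 (.s k188 k189 0 (.d
  k252 k124 k86 7 14)))), (.s k40 k20 5 (.s k43 k23 5 (.s k104 k192 13 (.d k232 k168 k169 7 8))))]
  (.c k2 (.l (.s k22 k41 6 (.s k192 k104 13 (.s k128 k64 7 (.d k188 k189 k168 0 5))))) (.c k22 (.l
  (.s k2 k1 0 (.s k192 k104 13 (.s k128 k64 7 (.d k188 k189 k168 0 5))))) (.c k124 (.q k126 [(.d
  k189 k188 k252 0 8), (.s k192 k104 13 (.d k66 k86 k129 5 8))] (.c k2 (.l (.s k22 k41 6 (.d k189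
  k188 k252 0 8))) (.c k22 (.l (.s k2 k1 0 (.d k189 k188 k252 0 8))) .n))) (.c k126 (.q k124 [(.d
  k188 k189 k252 0 7), (.s k20 k40 5 (.s k84 k212 7 (.d k104 k64 k192 5 13)))] (.c k2 (.l (.s k22
  k41 6 (.d k188 k189 k252 0 7))) (.c k22 (.l (.s k2 k1 0 (.d k188 k189 k252 0 7))) .n))) .n)))))
  .n))))))))))) (.c k124 (.l (.s k62 k61 0 (.s k255 k125 8 (.s k126 k254 7 (.s k189 k252 8 (.d k191
  k127 k188 7 0)))))) (.c k125 (.q k148 [(.s k40 k20 5 (.s k104 k192 13 (.s k168 k232 7 (.s k252 k84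
  13 (.d k188 k128 k124 5 7))))), (.s k62 k61 0 (.s k192 k104 13 (.s k126 k254 7 (.s k189 k252 8 (.s
  k188 k191 0 (.d k128 k168 k64 5 7)))))), (.s k20 k40 5 (.s k84 k212 7 (.s k62 k61 0 (.s k126 k254
  7 (.d k252 k189 k168 8 13)))))] (.c k128 (.q k191 [(.s k189 k188 0 (.s k126 k252 8 (.d k62 k61
  k254 0 7))), (.s k20 k40 5 (.s k84 k212 7 (.s k127 k255 7 (.s k64 k85 6 (.d k104 k124 k192 5
  13)))))] .n) (.c k168 (.l (.s k20 k40 5 (.s k84 k212 7 (.s k62 k61 0 (.s k104 k192 13 (.s k126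
  k254 7 (.s k124 k64 5 (.d k252 k189 k188 8 7)))))))) (.c k191 (.q k128 [(.d k192 k64 k104 7 13),
  (.s k20 k40 5 (.s k84 k212 7 (.d k168 k188 k252 5 13)))] .n) (.c k252 (.f k62 k61 0 (.l (.s k20
  k40 5 (.s k84 k212 7 (.s k192 k104 13 (.s k126 k254 7 (.s k86 k66 5 (.s k85 k87 0 (.d k64 k127
  k128 6 7))))))))) .n))))) (.c k126 (.q k148 [(.s k40 k20 5 (.s k104 k192 13 (.s k168 k232 7 (.s
  k252 k84 13 (.d k188 k128 k124 5 7))))), (.s k61 k62 0 (.s k192 k104 13 (.s k128 k64 7 (.s k125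
  k255 8 (.s k189 k253 7 (.d k188 k191 k168 0 5)))))), (.s k20 k40 5 (.s k84 k212 7 (.s k104 k192 13
  (.s k255 k125 8 (.s k64 k124 5 (.d k127 k191 k85 7 6))))))] (.c k84 (.l (.s k40 k20 5 (.s k104
  k192 13 (.s k168 k232 7 (.s k255 k125 8 (.s k188 k128 5 (.d k191 k127 k189 7 0))))))) (.c k104 (.l
  (.s k20 k40 5 (.s k84 k212 7 (.s k168 k252 13 (.s k255 k125 8 (.s k188 k128 5 (.d k191 k127 k189 7
  0))))))) (.c k124 (.l (.s k20 k40 5 (.s k84 k212 7 (.s k168 k252 13 (.s k192 k104 13 (.d k128 k188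
  k64 5 7)))))) (.c k128 (.q k191 [(.d k255 k127 k125 7 8), (.s k20 k40 5 (.s k84 k212 7 (.s k252
  k168 13 (.d k188 k189 k124 0 7))))] .n) (.c k191 (.q k128 [(.d k192 k64 k104 7 13), (.s k20 k40 5
  (.s k84 k212 7 (.d k168 k188 k252 5 13)))] .n) (.c k192 (.l (.s k20 k40 5 (.s k84 k212 7 (.s k252
  k168 13 (.s k188 k124 7 (.s k191 k189 0 (.d k255 k127 k125 7 8))))))) (.c k252 (.l (.s k192 k104
  13 (.s k128 k64 7 (.s k255 k125 8 (.s k188 k168 5 (.d k191 k127 k189 7 0)))))) .n)))))))) (.c k128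
  (.q k191 [(.d k255 k127 k125 7 8), (.s k62 k61 0 (.s k126 k254 7 (.d k189 k188 k252 0 8)))] (.c
  k148 (.q k151 [(.d k255 k127 k125 7 8), (.s k62 k61 0 (.s k126 k254 7 (.d k189 k188 k252 0 8)))]
  (.c k168 (.l (.s k188 k189 0 (.d k255 k127 k125 7 8))) (.c k188 (.q k168 [(.d k255 k127 k125 7 8),
  (.s k40 k20 5 (.s k104 k232 7 (.d k107 k105 k195 0 13)))] (.c k131 (.q k169 [(.d k255 k127 k125 7
  8), (.s k40 k20 5 (.d k232 k104 k43 7 8))] (.c k129 (.q k130 [(.d k195 k65 k107 8 13), (.d k255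
  k127 k125 7 8)] .n) (.c k130 (.q k129 [(.d k255 k127 k125 7 8), (.s k40 k20 5 (.d k232 k104 k43 7
  8))] .n) .n))) (.c k169 (.l (.s k131 k171 5 (.d k255 k127 k125 7 8))) .n))) .n))) (.c k151 (.q
  k148 [(.d k255 k127 k125 7 8), (.s k62 k61 0 (.s k126 k254 7 (.d k189 k188 k252 0 8)))] .n) .n)))
  (.c k148 (.q k151 [(.s k61 k62 0 (.s k125 k255 8 (.s k189 k253 7 (.s k252 k126 8 (.d k188 k191
  k124 0 7))))), (.s k255 k125 8 (.s k195 k107 13 (.s k215 k235 5 (.s k87 k23 7 (.s k171 k3 13 (.d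
  k191 k131 k127 5 7)))))), (.s k62 k61 0 (.s k126 k254 7 (.s k107 k195 13 (.s k86 k66 5 (.s k105
  k104 0 (.s k124 k67 6 (.d k252 k188 k189 7 8)))))))] (.c k128 (.q k191 [(.d k255 k127 k125 7 8),
  (.s k62 k61 0 (.s k126 k254 7 (.d k189 k188 k252 0 8)))] (.c k168 (.l (.s k188 k189 0 (.d k255
  k127 k125 7 8))) (.c k188 (.q k168 [(.d k255 k127 k125 7 8), (.s k40 k20 5 (.s k104 k232 7 (.d
  k107 k105 k195 0 13)))] (.c k131 (.q k169 [(.d k255 k127 k125 7 8), (.s k40 k20 5 (.d k232 k104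
  k43 7 8))] (.c k129 (.q k130 [(.d k195 k65 k107 8 13), (.d k255 k127 k125 7 8)] .n) (.c k130 (.q
  k129 [(.d k255 k127 k125 7 8), (.s k40 k20 5 (.d k232 k104 k43 7 8))] .n) .n))) (.c k169 (.l (.s
  k131 k171 5 (.d k255 k127 k125 7 8))) .n))) .n))) (.c k191 (.q k128 [(.s k64 k192 7 (.s k125 k255
  8 (.s k195 k107 13 (.s k65 k130 8 (.d k85 k105 k127 5 6))))), (.s k62 k61 0 (.s k125 k255 8 (.s
  k126 k254 7 (.s k252 k189 8 (.d k124 k127 k188 0 7))))), (.s k40 k20 5 (.s k64 k192 7 (.s k107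
  k195 13 (.s k104 k105 0 (.s k168 k232 7 (.d k84 k252 k124 13 5))))))] (.c k105 (.l (.s k64 k192 7
  (.s k125 k255 8 (.s k127 k85 6 (.s k126 k124 0 (.d k62 k61 k254 0 7)))))) .n)) .n))) (.c k151 (.q
  k148 [(.s k192 k104 13 (.s k128 k64 7 (.s k255 k125 8 (.s k191 k127 7 (.d k188 k189 k168 0 5))))),
  (.s k20 k40 5 (.s k84 k212 7 (.s k62 k61 0 (.s k126 k254 7 (.d k252 k189 k168 8 13))))), (.s k20
  k40 5 (.s k84 k212 7 (.s k168 k252 13 (.s k192 k104 13 (.d k128 k188 k64 5 7))))), (.s k61 k62 0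
  (.s k125 k255 8 (.s k189 k253 7 (.s k252 k126 8 (.d k188 k191 k124 0 7)))))] (.c k128 (.q k191
  [(.d k255 k127 k125 7 8), (.s k62 k61 0 (.s k126 k254 7 (.d k189 k188 k252 0 8)))] .n) (.c k191
  (.q k128 [(.d k192 k64 k104 7 13), (.s k20 k40 5 (.s k84 k212 7 (.d k168 k188 k252 5 13)))] (.c
  k131 (.q k171 [(.d k192 k64 k104 7 13), (.s k20 k40 5 (.s k84 k212 7 (.d k168 k188 k252 5 13)))]
  (.c k169 (.l (.s k188 k168 5 (.d k192 k64 k104 7 13))) (.c k188 (.q k169 [(.d k192 k64 k104 7 13),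
  (.s k43 k232 8 (.s k3 k23 5 (.d k255 k87 k125 13 8)))] .n) .n))) (.c k171 (.q k131 [(.d k192 k64
  k104 7 13), (.s k20 k40 5 (.s k84 k212 7 (.d k168 k188 k252 5 13)))] (.c k168 (.q k169 [(.d k192
  k64 k104 7 13), (.s k43 k232 8 (.s k3 k23 5 (.s k195 k67 7 (.d k130 k129 k65 0 8))))] (.c k104 (.l
  (.s k192 k64 7 (.s k232 k43 8 (.s k212 k252 5 (.d k20 k40 k84 5 7))))) .n)) (.c k169 (.l (.s k168
  k188 5 (.d k192 k64 k104 7 13))) .n))) .n))) .n))) (.c k188 (.f k62 k61 0 (.l (.s k40 k20 5 (.s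
  k126 k254 7 (.s k252 k189 8 (.s k168 k84 13 (.s k232 k104 7 (.s k169 k43 8 (.d k86 k66 k3 5
  14))))))))) (.c k189 (.f k62 k61 0 (.f k20 k40 5 (.l (.s k125 k255 8 (.s k126 k254 7 (.s k124 k127
  0 (.s k252 k188 7 (.s k84 k168 13 (.s k148 k212 7 (.d k104 k64 k192 5 13)))))))))) (.c k191 (.q
  k128 [(.s k64 k192 7 (.s k125 k255 8 (.s k127 k85 6 (.s k126 k124 0 (.d k62 k61 k254 0 7))))), (.s
  k20 k40 5 (.s k192 k64 7 (.s k148 k104 13 (.s k84 k212 7 (.d k168 k188 k252 5 13))))), (.s k62 k61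
  0 (.s k125 k255 8 (.s k126 k254 7 (.s k252 k189 8 (.d k124 k127 k188 0 7)))))] (.c k124 (.l (.s
  k20 k40 5 (.s k192 k64 7 (.s k148 k104 13 (.s k84 k212 7 (.d k168 k188 k252 5 13)))))) (.c k148
  (.q k151 [(.s k64 k192 7 (.s k125 k255 8 (.s k195 k107 13 (.s k65 k130 8 (.d k85 k105 k127 5
  6))))), (.s k62 k61 0 (.s k125 k255 8 (.s k126 k254 7 (.s k252 k189 8 (.d k124 k127 k188 0 7))))),
  (.s k40 k20 5 (.s k64 k192 7 (.s k107 k195 13 (.s k104 k105 0 (.s k168 k232 7 (.d k84 k252 k124 13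
  5))))))] (.c k105 (.l (.s k64 k192 7 (.s k125 k255 8 (.s k127 k85 6 (.s k126 k124 0 (.d k62 k61
  k254 0 7)))))) .n)) (.c k151 (.q k148 [(.d k192 k64 k104 7 13), (.s k20 k40 5 (.s k84 k212 7 (.d
  k168 k188 k252 5 13)))] (.c k131 (.q k171 [(.d k192 k64 k104 7 13), (.s k20 k40 5 (.s k84 k212 7
  (.d k168 k188 k252 5 13)))] (.c k169 (.l (.s k188 k168 5 (.d k192 k64 k104 7 13))) (.c k188 (.q
  k169 [(.d k192 k64 k104 7 13), (.s k43 k232 8 (.s k3 k23 5 (.d k255 k87 k125 13 8)))] .n) .n)))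
  (.c k171 (.q k131 [(.d k192 k64 k104 7 13), (.s k20 k40 5 (.s k84 k212 7 (.d k168 k188 k252 5
  13)))] (.c k168 (.q k169 [(.d k192 k64 k104 7 13), (.s k43 k232 8 (.s k3 k23 5 (.s k195 k67 7 (.d
  k130 k129 k65 0 8))))] (.c k104 (.l (.s k192 k64 7 (.s k232 k43 8 (.s k212 k252 5 (.d k20 k40 k84
  5 7))))) .n)) (.c k169 (.l (.s k168 k188 5 (.d k192 k64 k104 7 13))) .n))) .n))) .n)))) (.c k252
  (.f k255 k125 8 (.q k151 [(.s k195 k107 13 (.s k191 k127 7 (.s k171 k131 5 (.s k87 k3 13 (.d k215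
  k235 k23 5 7))))), (.s k40 k20 5 (.s k107 k195 13 (.s k191 k127 7 (.s k104 k105 0 (.s k168 k232 7
  (.s k188 k189 0 (.d k148 k128 k192 5 13))))))), (.s k195 k107 13 (.s k215 k235 5 (.s k87 k23 7 (.s
  k171 k3 13 (.d k191 k131 k127 5 7)))))] (.c k107 (.f k191 k127 7 (.f k171 k131 5 (.f k62 k61 0 (.f
  k126 k254 7 (.f k20 k40 5 (.l (.s k87 k3 13 (.s k86 k66 5 (.s k84 k85 0 (.s k148 k212 7 (.s k192
  k104 13 (.s k128 k64 7 (.d k188 k168 k189 5 0))))))))))))) (.c k127 (.l (.s k40 k20 5 (.s k107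
  k195 13 (.s k104 k105 0 (.s k232 k168 7 (.s k43 k169 8 (.s k171 k235 7 (.d k3 k23 k87 5 13))))))))
  (.c k128 (.l (.s k191 k127 7 (.s k107 k195 13 (.s k171 k131 5 (.s k3 k87 13 (.d k43 k23 k235 5
  7)))))) (.c k169 (.l (.s k195 k107 13 (.s k191 k127 7 (.s k215 k235 5 (.s k87 k23 7 (.d k171 k131
  k3 5 13)))))) (.c k191 (.q k128 [(.s k192 k64 7 (.s k104 k148 13 (.d k107 k105 k195 0 13))), (.s
  k195 k107 13 (.s k130 k65 8 (.s k131 k129 0 (.s k3 k67 7 (.s k23 k43 5 (.d k87 k171 k215 13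
  7))))))] (.c k64 (.l (.s k40 k20 5 (.s k107 k195 13 (.s k104 k105 0 (.s k168 k232 7 (.d k148 k192
  k188 13 5)))))) (.c k105 (.l (.s k40 k20 5 (.s k192 k64 7 (.s k104 k148 13 (.s k232 k168 7 (.s
  k195 k107 13 (.s k234 k213 6 (.d k235 k215 k233 5 0)))))))) (.c k107 (.q k87 [(.s k23 k215 7 (.d
  k3 k43 k171 5 13)), (.s k64 k192 7 (.s k62 k61 0 (.s k126 k254 7 (.s k85 k127 6 (.d k86 k84 k66 0
  5)))))] (.c k85 (.l (.s k3 k171 13 (.d k23 k43 k215 5 7))) .n)) (.c k195 (.f k62 k61 0 (.l (.s k64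
  k192 7 (.s k126 k254 7 (.s k85 k127 6 (.s k86 k66 5 (.s k87 k84 0 (.s k3 k171 13 (.d k23 k43 k215
  5 7))))))))) .n))))) (.c k195 (.f k191 k127 7 (.l (.s k40 k20 5 (.s k171 k131 5 (.s k3 k87 13 (.s
  k43 k23 5 (.s k107 k235 7 (.s k104 k105 0 (.d k232 k169 k168 8 7))))))))) (.c k215 (.l (.s k107
  k195 13 (.s k191 k127 7 (.s k171 k131 5 (.s k3 k87 13 (.d k43 k23 k235 5 7)))))) .n))))))))) (.c
  k253 (.l (.s k62 k61 0 (.s k125 k255 8 (.s k126 k254 7 (.s k252 k189 8 (.d k124 k127 k188 0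
  7)))))) (.c k254 (.l (.s k61 k62 0 (.s k125 k255 8 (.s k189 k253 7 (.s k252 k126 8 (.d k188 k191
  k124 0 7)))))) (.c k255 (.l (.s k62 k61 0 (.s k126 k254 7 (.s k252 k189 8 (.s k84 k168 13 (.s k124
  k188 7 (.s k64 k104 5 (.d k127 k125 k85 0 6)))))))) .n))))))))))))))))

def t42_149_151 : T TT 256 :=
  (.f k20 k40 5 (.l (.s k62 k61 0 (.s k150 k194 13 (.s k85 k215 8 (.s k105 k195 14 (.s k64 k127 6
  (.s k104 k107 0 (.d k192 k128 k148 7 13)))))))))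

def t42_149_152 : T TT 256 :=
  (.f k20 k40 5 (.l (.s k62 k61 0 (.s k150 k194 13 (.s k85 k215 8 (.s k105 k195 14 (.s k64 k127 6
  (.s k104 k107 0 (.d k192 k128 k148 7 13)))))))))

def t42_149_153 : T TT 256 :=
  (.f k20 k40 5 (.l (.s k62 k61 0 (.s k150 k194 13 (.s k85 k215 8 (.s k105 k195 14 (.s k64 k127 6
  (.s k104 k107 0 (.d k192 k128 k148 7 13)))))))))

def t42_149_154 : T TT 256 :=
  (.f k20 k40 5 (.l (.s k62 k61 0 (.s k150 k194 13 (.s k85 k215 8 (.s k105 k195 14 (.s k64 k127 6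
  (.s k104 k107 0 (.d k192 k128 k148 7 13)))))))))

def t42_149_155 : T TT 256 :=
  (.f k20 k40 5 (.l (.s k62 k61 0 (.s k150 k194 13 (.s k85 k215 8 (.s k105 k195 14 (.s k64 k127 6
  (.s k104 k107 0 (.d k192 k128 k148 7 13)))))))))

def t42_149_156 : T TT 256 :=
  (.f k20 k40 5 (.l (.s k62 k61 0 (.s k150 k194 13 (.s k85 k215 8 (.s k105 k195 14 (.s k64 k127 6
  (.s k104 k107 0 (.d k192 k128 k148 7 13)))))))))

def t42_149_157 : T TT 256 :=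
  (.f k20 k40 5 (.l (.s k62 k61 0 (.s k150 k194 13 (.s k85 k215 8 (.s k105 k195 14 (.s k64 k127 6
  (.s k104 k107 0 (.d k192 k128 k148 7 13)))))))))

def t42_149_158 : T TT 256 :=
  (.f k20 k40 5 (.l (.s k62 k61 0 (.s k150 k194 13 (.s k85 k215 8 (.s k105 k195 14 (.s k64 k127 6
  (.s k104 k107 0 (.d k192 k128 k148 7 13)))))))))

def t42_149_159 : T TT 256 :=
  (.f k20 k40 5 (.l (.s k62 k61 0 (.s k150 k194 13 (.s k85 k215 8 (.s k105 k195 14 (.s k64 k127 6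
  (.s k104 k107 0 (.d k192 k128 k148 7 13)))))))))

def t42_149_160 : T TT 256 :=
  (.f k20 k40 5 (.l (.s k62 k61 0 (.s k150 k194 13 (.s k85 k215 8 (.s k105 k195 14 (.s k64 k127 6
  (.s k104 k107 0 (.d k192 k128 k148 7 13)))))))))

def t42_149_161 : T TT 256 :=
  (.f k20 k40 5 (.l (.s k62 k61 0 (.s k150 k194 13 (.s k85 k215 8 (.s k105 k195 14 (.s k64 k127 6
  (.s k104 k107 0 (.d k192 k128 k148 7 13)))))))))

def t42_149_162 : T TT 256 :=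
  (.f k20 k40 5 (.l (.s k62 k61 0 (.s k150 k194 13 (.s k85 k215 8 (.s k105 k195 14 (.s k64 k127 6
  (.s k104 k107 0 (.d k192 k128 k148 7 13)))))))))

def t42_149_163 : T TT 256 :=
  (.f k20 k40 5 (.l (.s k62 k61 0 (.s k150 k194 13 (.s k85 k215 8 (.s k105 k195 14 (.s k64 k127 6
  (.s k104 k107 0 (.d k192 k128 k148 7 13)))))))))

def t42_149_164 : T TT 256 :=
  (.f k20 k40 5 (.l (.s k62 k61 0 (.s k150 k194 13 (.s k85 k215 8 (.s k105 k195 14 (.s k64 k127 6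
  (.s k104 k107 0 (.d k192 k128 k148 7 13)))))))))

def t42_149_165 : T TT 256 :=
  (.f k20 k40 5 (.l (.s k62 k61 0 (.s k150 k194 13 (.s k85 k215 8 (.s k105 k195 14 (.s k64 k127 6
  (.s k104 k107 0 (.d k192 k128 k148 7 13)))))))))

def t42_149_166 : T TT 256 :=
  (.f k20 k40 5 (.l (.s k62 k61 0 (.s k150 k194 13 (.s k85 k215 8 (.s k105 k195 14 (.s k64 k127 6
  (.s k104 k107 0 (.d k192 k128 k148 7 13)))))))))

def t42_149_167 : T TT 256 :=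
  (.f k20 k40 5 (.l (.s k62 k61 0 (.s k150 k194 13 (.s k85 k215 8 (.s k105 k195 14 (.s k64 k127 6
  (.s k104 k107 0 (.d k192 k128 k148 7 13)))))))))

def t42_149_168 : T TT 256 :=
  (.f k20 k40 5 (.l (.s k62 k61 0 (.s k150 k194 13 (.s k85 k215 8 (.s k105 k195 14 (.s k64 k127 6
  (.s k104 k107 0 (.d k192 k128 k148 7 13)))))))))

def t42_149_169 : T TT 256 :=
  (.f k20 k40 5 (.l (.s k62 k61 0 (.s k150 k194 13 (.s k85 k215 8 (.s k105 k195 14 (.s k64 k127 6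
  (.s k104 k107 0 (.d k192 k128 k148 7 13)))))))))

def t42_149_171 : T TT 256 :=
  (.f k20 k40 5 (.l (.s k62 k61 0 (.s k150 k194 13 (.s k85 k215 8 (.s k105 k195 14 (.s k64 k127 6
  (.s k104 k107 0 (.d k192 k128 k148 7 13)))))))))

def t42_149_172 : T TT 256 :=
  (.f k20 k40 5 (.l (.s k62 k61 0 (.s k150 k194 13 (.s k85 k215 8 (.s k105 k195 14 (.s k64 k127 6
  (.s k104 k107 0 (.d k192 k128 k148 7 13)))))))))

def t42_149_173 : T TT 256 :=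
  (.f k20 k40 5 (.l (.s k62 k61 0 (.s k150 k194 13 (.s k85 k215 8 (.s k105 k195 14 (.s k64 k127 6
  (.s k104 k107 0 (.d k192 k128 k148 7 13)))))))))

def t42_149_174 : T TT 256 :=
  (.f k20 k40 5 (.l (.s k62 k61 0 (.s k150 k194 13 (.s k85 k215 8 (.s k105 k195 14 (.s k64 k127 6
  (.s k104 k107 0 (.d k192 k128 k148 7 13)))))))))

def t42_149_175 : T TT 256 :=
  (.f k20 k40 5 (.l (.s k62 k61 0 (.s k150 k194 13 (.s k85 k215 8 (.s k105 k195 14 (.s k64 k127 6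
  (.s k104 k107 0 (.d k192 k128 k148 7 13)))))))))

def t42_149_176 : T TT 256 :=
  (.f k20 k40 5 (.l (.s k62 k61 0 (.s k150 k194 13 (.s k85 k215 8 (.s k105 k195 14 (.s k64 k127 6
  (.s k104 k107 0 (.d k192 k128 k148 7 13)))))))))

def t42_149_177 : T TT 256 :=
  (.f k20 k40 5 (.l (.s k62 k61 0 (.s k150 k194 13 (.s k85 k215 8 (.s k105 k195 14 (.s k64 k127 6
  (.s k104 k107 0 (.d k192 k128 k148 7 13)))))))))

def t42_149_178 : T TT 256 :=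
  (.f k20 k40 5 (.l (.s k62 k61 0 (.s k150 k194 13 (.s k85 k215 8 (.s k105 k195 14 (.s k64 k127 6
  (.s k104 k107 0 (.d k192 k128 k148 7 13)))))))))

def t42_149_179 : T TT 256 :=
  (.f k20 k40 5 (.l (.s k62 k61 0 (.s k150 k194 13 (.s k85 k215 8 (.s k105 k195 14 (.s k64 k127 6
  (.s k104 k107 0 (.d k192 k128 k148 7 13)))))))))

def t42_149_180 : T TT 256 :=
  (.f k20 k40 5 (.l (.s k62 k61 0 (.s k150 k194 13 (.s k85 k215 8 (.s k105 k195 14 (.s k64 k127 6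
  (.s k104 k107 0 (.d k192 k128 k148 7 13)))))))))

def t42_149_181 : T TT 256 :=
  (.f k20 k40 5 (.l (.s k62 k61 0 (.s k150 k194 13 (.s k85 k215 8 (.s k105 k195 14 (.s k64 k127 6
  (.s k104 k107 0 (.d k192 k128 k148 7 13)))))))))

def t42_149_182 : T TT 256 :=
  (.f k20 k40 5 (.l (.s k62 k61 0 (.s k150 k194 13 (.s k85 k215 8 (.s k105 k195 14 (.s k64 k127 6
  (.s k104 k107 0 (.d k192 k128 k148 7 13)))))))))

def t42_149_183 : T TT 256 :=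
  (.f k20 k40 5 (.l (.s k62 k61 0 (.s k150 k194 13 (.s k85 k215 8 (.s k105 k195 14 (.s k64 k127 6
  (.s k104 k107 0 (.d k192 k128 k148 7 13)))))))))

def t42_149_184 : T TT 256 :=
  (.f k20 k40 5 (.l (.s k62 k61 0 (.s k150 k194 13 (.s k85 k215 8 (.s k105 k195 14 (.s k64 k127 6
  (.s k104 k107 0 (.d k192 k128 k148 7 13)))))))))

def t42_149_185 : T TT 256 :=
  (.f k20 k40 5 (.l (.s k62 k61 0 (.s k150 k194 13 (.s k85 k215 8 (.s k105 k195 14 (.s k64 k127 6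
  (.s k104 k107 0 (.d k192 k128 k148 7 13)))))))))

def t42_149_186 : T TT 256 :=
  (.f k20 k40 5 (.l (.s k62 k61 0 (.s k150 k194 13 (.s k85 k215 8 (.s k105 k195 14 (.s k64 k127 6
  (.s k104 k107 0 (.d k192 k128 k148 7 13)))))))))

def t42_149_187 : T TT 256 :=
  (.f k20 k40 5 (.l (.s k62 k61 0 (.s k150 k194 13 (.s k85 k215 8 (.s k105 k195 14 (.s k64 k127 6
  (.s k104 k107 0 (.d k192 k128 k148 7 13)))))))))

def t42_149_188 : T TT 256 :=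
  (.f k20 k40 5 (.l (.s k62 k61 0 (.s k150 k194 13 (.s k85 k215 8 (.s k105 k195 14 (.s k64 k127 6
  (.s k104 k107 0 (.d k192 k128 k148 7 13)))))))))

def t42_149_189 : T TT 256 :=
  (.f k20 k40 5 (.l (.s k62 k61 0 (.s k150 k194 13 (.s k85 k215 8 (.s k105 k195 14 (.s k64 k127 6
  (.s k104 k107 0 (.d k192 k128 k148 7 13)))))))))

def t42_149_190 : T TT 256 :=
  (.f k20 k40 5 (.l (.s k62 k61 0 (.s k150 k194 13 (.s k85 k215 8 (.s k105 k195 14 (.s k64 k127 6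
  (.s k104 k107 0 (.d k192 k128 k148 7 13)))))))))

def t42_149_191 : T TT 256 :=
  (.q k128 [(.s k192 k64 7 (.s k62 k61 0 (.s k104 k148 13 (.s k150 k194 13 (.d k105 k107 k195 0
  14))))), (.s k192 k64 7 (.s k148 k104 13 (.s k168 k188 5 (.s k84 k252 13 (.d k20 k40 k212 5
  7))))), (.s k20 k40 5 (.s k64 k192 7 (.s k62 k61 0 (.s k150 k194 13 (.d k85 k127 k215 6 8)))))]
  (.c k64 (.l (.s k40 k20 5 (.s k62 k61 0 (.s k150 k194 13 (.s k105 k195 14 (.s k104 k107 0 (.s k168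
  k232 7 (.d k148 k192 k188 13 5)))))))) (.c k192 (.q k105 [(.s k62 k61 0 (.d k150 k194 k195 13
  14)), (.s k40 k20 5 (.s k104 k107 0 (.s k168 k232 7 (.s k252 k84 13 (.d k188 k148 k124 5 7)))))]
  .n) .n)))

def t42_149_192 : T TT 256 :=
  (.q k105 [(.s k62 k61 0 (.d k150 k194 k195 13 14)), (.s k40 k20 5 (.s k104 k107 0 (.s k168 k232 7
  (.s k252 k84 13 (.s k124 k188 7 (.s k126 k189 8 (.d k86 k66 k67 5 6)))))))] (.c k128 (.q k191 [(.s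
  k62 k61 0 (.d k150 k194 k195 13 14)), (.s k195 k150 14 (.d k107 k151 k104 13 0)), (.s k62 k61 0
  (.s k255 k127 7 (.s k190 k125 8 (.s k126 k254 7 (.d k189 k188 k252 0 8)))))] .n) (.c k191 (.q k128
  [(.s k62 k61 0 (.d k150 k194 k195 13 14)), (.s k40 k20 5 (.s k104 k107 0 (.s k168 k232 7 (.s k252
  k84 13 (.d k188 k148 k124 5 7)))))] .n) .n)))

def t42_149_193 : T TT 256 :=
  (.f k40 k20 5 (.f k62 k61 0 (.q k105 [(.d k150 k194 k195 13 14), (.s k104 k107 0 (.s k168 k232 7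
  (.s k84 k252 13 (.s k64 k124 5 (.d k192 k128 k148 7 13)))))] (.c k128 (.q k191 [(.d k150 k194 k195
  13 14), (.s k255 k127 7 (.s k190 k125 8 (.s k126 k254 7 (.d k189 k188 k252 0 8))))] .n) (.c k191
  (.q k128 [(.d k150 k194 k195 13 14), (.s k192 k64 7 (.d k104 k107 k148 0 13))] .n) .n)))))

def t42_149_194 : T TT 256 :=
  (.q k105 [(.s k107 k104 0 (.d k195 k151 k150 13 14)), (.s k20 k40 5 (.s k150 k195 14 (.s k85 k215
  8 (.s k127 k64 6 (.s k125 k65 5 (.d k255 k191 k190 7 8))))))] (.c k128 (.q k191 [(.s k107 k104 0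
  (.d k195 k151 k150 13 14)), (.s k62 k61 0 (.s k255 k127 7 (.s k190 k125 8 (.s k126 k254 7 (.d k189
  k188 k252 0 8)))))] .n) (.c k150 (.l (.s k20 k40 5 (.s k104 k107 0 (.s k148 k192 13 (.s k84 k212 7
  (.s k252 k168 13 (.d k124 k64 k188 5 7))))))) (.c k191 (.q k128 [(.s k192 k64 7 (.d k104 k107 k148
  0 13)), (.s k20 k40 5 (.s k64 k192 7 (.s k85 k127 6 (.d k150 k195 k215 14 8)))), (.s k195 k150 14
  (.d k107 k151 k104 13 0))] .n) (.c k195 (.l (.s k40 k20 5 (.s k104 k107 0 (.s k168 k232 7 (.s k84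
  k252 13 (.s k192 k148 13 (.d k64 k124 k128 5 7))))))) .n)))))

def t42_149_195 : T TT 256 :=
  (.f k40 k20 5 (.q k252 [(.s k168 k84 13 (.s k104 k232 7 (.s k188 k124 7 (.d k148 k128 k192 5
  13)))), (.s k61 k62 0 (.s k188 k124 7 (.s k189 k126 8 (.s k125 k253 7 (.d k190 k191 k255 0 8))))),
  (.s k168 k84 13 (.s k126 k189 8 (.s k86 k66 5 (.s k169 k3 14 (.d k232 k104 k43 7 8)))))] (.c k128
  (.q k191 [(.s k188 k124 7 (.d k189 k190 k126 0 8)), (.s k84 k168 13 (.s k127 k255 7 (.s k64 k85 6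
  (.d k124 k188 k104 7 5)))), (.s k61 k62 0 (.s k189 k126 8 (.s k125 k253 7 (.d k255 k190 k127 8
  7))))] .n) (.c k191 (.q k128 [(.s k188 k124 7 (.d k168 k148 k84 5 13)), (.s k64 k192 7 (.s k124
  k188 7 (.s k127 k85 6 (.d k126 k189 k125 8 0))))] (.c k124 (.l (.s k192 k64 7 (.s k168 k84 13 (.d
  k104 k148 k232 13 7)))) (.c k188 (.l (.s k192 k64 7 (.s k168 k84 13 (.d k104 k148 k232 13 7))))
  .n))) .n))))

def t42_149_196 : T TT 256 :=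
  (.f k20 k40 5 (.l (.s k62 k61 0 (.s k150 k194 13 (.s k85 k215 8 (.s k105 k195 14 (.s k64 k127 6
  (.s k104 k107 0 (.d k192 k128 k148 7 13)))))))))

def t42_149_197 : T TT 256 :=
  (.f k20 k40 5 (.l (.s k62 k61 0 (.s k150 k194 13 (.s k85 k215 8 (.s k105 k195 14 (.s k64 k127 6
  (.s k104 k107 0 (.d k192 k128 k148 7 13)))))))))

def t42_149_198 : T TT 256 :=
  (.f k20 k40 5 (.l (.s k62 k61 0 (.s k150 k194 13 (.s k85 k215 8 (.s k105 k195 14 (.s k64 k127 6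
  (.s k104 k107 0 (.d k192 k128 k148 7 13)))))))))

def t42_149_199 : T TT 256 :=
  (.f k20 k40 5 (.l (.s k62 k61 0 (.s k150 k194 13 (.s k85 k215 8 (.s k105 k195 14 (.s k64 k127 6
  (.s k104 k107 0 (.d k192 k128 k148 7 13)))))))))

def t42_149_200 : T TT 256 :=
  (.f k20 k40 5 (.l (.s k62 k61 0 (.s k150 k194 13 (.s k85 k215 8 (.s k105 k195 14 (.s k64 k127 6
  (.s k104 k107 0 (.d k192 k128 k148 7 13)))))))))

def t42_149_201 : T TT 256 :=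
  (.f k20 k40 5 (.l (.s k62 k61 0 (.s k150 k194 13 (.s k85 k215 8 (.s k105 k195 14 (.s k64 k127 6
  (.s k104 k107 0 (.d k192 k128 k148 7 13)))))))))

def t42_149_202 : T TT 256 :=
  (.f k20 k40 5 (.l (.s k62 k61 0 (.s k150 k194 13 (.s k85 k215 8 (.s k105 k195 14 (.s k64 k127 6
  (.s k104 k107 0 (.d k192 k128 k148 7 13)))))))))

def t42_149_203 : T TT 256 :=
  (.f k20 k40 5 (.l (.s k62 k61 0 (.s k150 k194 13 (.s k85 k215 8 (.s k105 k195 14 (.s k64 k127 6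
  (.s k104 k107 0 (.d k192 k128 k148 7 13)))))))))

def t42_149_204 : T TT 256 :=
  (.f k20 k40 5 (.l (.s k62 k61 0 (.s k150 k194 13 (.s k85 k215 8 (.s k105 k195 14 (.s k64 k127 6
  (.s k104 k107 0 (.d k192 k128 k148 7 13)))))))))

def t42_149_205 : T TT 256 :=
  (.f k20 k40 5 (.l (.s k62 k61 0 (.s k150 k194 13 (.s k85 k215 8 (.s k105 k195 14 (.s k64 k127 6
  (.s k104 k107 0 (.d k192 k128 k148 7 13)))))))))

def t42_149_206 : T TT 256 :=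
  (.f k20 k40 5 (.l (.s k62 k61 0 (.s k150 k194 13 (.s k85 k215 8 (.s k105 k195 14 (.s k64 k127 6
  (.s k104 k107 0 (.d k192 k128 k148 7 13)))))))))

def t42_149_207 : T TT 256 :=
  (.f k20 k40 5 (.l (.s k62 k61 0 (.s k150 k194 13 (.s k85 k215 8 (.s k105 k195 14 (.s k64 k127 6
  (.s k104 k107 0 (.d k192 k128 k148 7 13)))))))))

def t42_149_208 : T TT 256 :=
  (.f k20 k40 5 (.l (.s k62 k61 0 (.s k150 k194 13 (.s k85 k215 8 (.s k105 k195 14 (.s k64 k127 6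
  (.s k104 k107 0 (.d k192 k128 k148 7 13)))))))))

def t42_149_209 : T TT 256 :=
  (.f k20 k40 5 (.l (.s k62 k61 0 (.s k150 k194 13 (.s k85 k215 8 (.s k105 k195 14 (.s k64 k127 6
  (.s k104 k107 0 (.d k192 k128 k148 7 13)))))))))

def t42_149_210 : T TT 256 :=
  (.f k20 k40 5 (.l (.s k62 k61 0 (.s k150 k194 13 (.s k85 k215 8 (.s k105 k195 14 (.s k64 k127 6
  (.s k104 k107 0 (.d k192 k128 k148 7 13)))))))))

def t42_149_211 : T TT 256 :=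
  (.f k20 k40 5 (.l (.s k62 k61 0 (.s k150 k194 13 (.s k85 k215 8 (.s k105 k195 14 (.s k64 k127 6
  (.s k104 k107 0 (.d k192 k128 k148 7 13)))))))))

def t42_149_212 : T TT 256 :=
  (.f k20 k40 5 (.l (.s k62 k61 0 (.s k150 k194 13 (.s k85 k215 8 (.s k105 k195 14 (.s k64 k127 6
  (.s k104 k107 0 (.d k192 k128 k148 7 13)))))))))

def t42_149_213 : T TT 256 :=
  (.f k20 k40 5 (.l (.s k62 k61 0 (.s k150 k194 13 (.s k85 k215 8 (.s k105 k195 14 (.s k64 k127 6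
  (.s k104 k107 0 (.d k192 k128 k148 7 13)))))))))

def t42_149_214 : T TT 256 :=
  (.f k20 k40 5 (.l (.s k62 k61 0 (.s k150 k194 13 (.s k85 k215 8 (.s k105 k195 14 (.s k64 k127 6
  (.s k104 k107 0 (.d k192 k128 k148 7 13)))))))))

def t42_149_215 : T TT 256 :=
  (.q k128 [(.s k192 k64 7 (.s k148 k104 13 (.s k168 k188 5 (.s k84 k252 13 (.d k20 k40 k212 5
  7))))), (.s k192 k64 7 (.s k62 k61 0 (.s k104 k148 13 (.s k150 k194 13 (.d k105 k107 k195 0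
  14))))), (.s k64 k192 7 (.s k61 k62 0 (.s k127 k85 6 (.s k255 k191 7 (.s k125 k190 8 (.s k189 k253
  7 (.d k126 k124 k252 0 8)))))))] (.c k64 (.l (.s k40 k20 5 (.s k62 k61 0 (.s k150 k194 13 (.s k105
  k195 14 (.s k104 k107 0 (.s k168 k232 7 (.d k148 k192 k188 13 5)))))))) (.c k192 (.q k86 [(.s k126
  k66 5 (.s k252 k189 8 (.s k168 k84 13 (.d k188 k148 k124 5 7)))), (.s k20 k40 5 (.s k62 k61 0 (.s
  k150 k194 13 (.s k22 k214 7 (.s k23 k21 0 (.d k3 k43 k41 5 6))))))] (.c k3 (.q k129 [(.s k126 k66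
  5 (.s k252 k189 8 (.s k168 k84 13 (.d k188 k148 k124 5 7)))), (.s k62 k61 0 (.s k150 k194 13 (.s
  k130 k131 0 (.d k195 k105 k65 14 8))))] .n) .n)) .n)))

def t42_149_216 : T TT 256 :=
  (.f k62 k61 0 (.l (.s k20 k40 5 (.s k150 k194 13 (.s k85 k215 8 (.s k105 k195 14 (.s k64 k127 6
  (.s k104 k107 0 (.d k192 k128 k148 7 13)))))))))

def t42_149_217 : T TT 256 :=
  (.f k62 k61 0 (.l (.s k20 k40 5 (.s k150 k194 13 (.s k85 k215 8 (.s k105 k195 14 (.s k64 k127 6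
  (.s k104 k107 0 (.d k192 k128 k148 7 13)))))))))

def t42_149_218 : T TT 256 :=
  (.f k62 k61 0 (.l (.s k20 k40 5 (.s k150 k194 13 (.s k85 k215 8 (.s k105 k195 14 (.s k64 k127 6
  (.s k104 k107 0 (.d k192 k128 k148 7 13)))))))))

def t42_149_219 : T TT 256 :=
  (.f k62 k61 0 (.l (.s k20 k40 5 (.s k150 k194 13 (.s k85 k215 8 (.s k105 k195 14 (.s k64 k127 6
  (.s k104 k107 0 (.d k192 k128 k148 7 13)))))))))

def t42_149_220 : T TT 256 :=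
  (.f k62 k61 0 (.l (.s k20 k40 5 (.s k150 k194 13 (.s k85 k215 8 (.s k105 k195 14 (.s k64 k127 6
  (.s k104 k107 0 (.d k192 k128 k148 7 13)))))))))

def t42_149_221 : T TT 256 :=
  (.f k62 k61 0 (.l (.s k20 k40 5 (.s k150 k194 13 (.s k85 k215 8 (.s k105 k195 14 (.s k64 k127 6
  (.s k104 k107 0 (.d k192 k128 k148 7 13)))))))))

def t42_149_222 : T TT 256 :=
  (.f k62 k61 0 (.l (.s k20 k40 5 (.s k150 k194 13 (.s k85 k215 8 (.s k105 k195 14 (.s k64 k127 6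
  (.s k104 k107 0 (.d k192 k128 k148 7 13)))))))))

def t42_149_223 : T TT 256 :=
  (.f k62 k61 0 (.l (.s k20 k40 5 (.s k150 k194 13 (.s k85 k215 8 (.s k105 k195 14 (.s k64 k127 6
  (.s k104 k107 0 (.d k192 k128 k148 7 13)))))))))

def t42_149_224 : T TT 256 :=
  (.f k62 k61 0 (.l (.s k20 k40 5 (.s k150 k194 13 (.s k85 k215 8 (.s k105 k195 14 (.s k64 k127 6
  (.s k104 k107 0 (.d k192 k128 k148 7 13)))))))))

def t42_149_225 : T TT 256 :=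
  (.f k62 k61 0 (.l (.s k20 k40 5 (.s k150 k194 13 (.s k85 k215 8 (.s k105 k195 14 (.s k64 k127 6
  (.s k104 k107 0 (.d k192 k128 k148 7 13)))))))))

def t42_149_226 : T TT 256 :=
  (.f k62 k61 0 (.l (.s k20 k40 5 (.s k150 k194 13 (.s k85 k215 8 (.s k105 k195 14 (.s k64 k127 6
  (.s k104 k107 0 (.d k192 k128 k148 7 13)))))))))

def t42_149_227 : T TT 256 :=
  (.f k62 k61 0 (.l (.s k20 k40 5 (.s k150 k194 13 (.s k85 k215 8 (.s k105 k195 14 (.s k64 k127 6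
  (.s k104 k107 0 (.d k192 k128 k148 7 13)))))))))

def t42_149_228 : T TT 256 :=
  (.f k62 k61 0 (.l (.s k20 k40 5 (.s k150 k194 13 (.s k85 k215 8 (.s k105 k195 14 (.s k64 k127 6
  (.s k104 k107 0 (.d k192 k128 k148 7 13)))))))))

def t42_149_229 : T TT 256 :=
  (.f k62 k61 0 (.l (.s k20 k40 5 (.s k150 k194 13 (.s k85 k215 8 (.s k105 k195 14 (.s k64 k127 6
  (.s k104 k107 0 (.d k192 k128 k148 7 13)))))))))

def t42_149_230 : T TT 256 :=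
  (.f k62 k61 0 (.l (.s k20 k40 5 (.s k150 k194 13 (.s k85 k215 8 (.s k105 k195 14 (.s k64 k127 6
  (.s k104 k107 0 (.d k192 k128 k148 7 13)))))))))

def t42_149_231 : T TT 256 :=
  (.f k62 k61 0 (.l (.s k20 k40 5 (.s k150 k194 13 (.s k85 k215 8 (.s k105 k195 14 (.s k64 k127 6
  (.s k104 k107 0 (.d k192 k128 k148 7 13)))))))))

def t42_149_232 : T TT 256 :=
  (.f k62 k61 0 (.l (.s k20 k40 5 (.s k150 k194 13 (.s k85 k215 8 (.s k105 k195 14 (.s k64 k127 6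
  (.s k104 k107 0 (.d k192 k128 k148 7 13)))))))))

def t42_149_233 : T TT 256 :=
  (.f k62 k61 0 (.l (.s k20 k40 5 (.s k150 k194 13 (.s k85 k215 8 (.s k105 k195 14 (.s k64 k127 6
  (.s k104 k107 0 (.d k192 k128 k148 7 13)))))))))

def t42_149_234 : T TT 256 :=
  (.f k62 k61 0 (.l (.s k20 k40 5 (.s k150 k194 13 (.s k85 k215 8 (.s k105 k195 14 (.s k64 k127 6
  (.s k104 k107 0 (.d k192 k128 k148 7 13)))))))))

def t42_149_235 : T TT 256 :=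
  (.f k62 k61 0 (.f k40 k20 5 (.l (.s k150 k194 13 (.s k105 k195 14 (.s k104 k107 0 (.s k168 k232 7
  (.s k84 k252 13 (.s k192 k148 13 (.d k64 k124 k128 5 7))))))))))

def t42_149_236 : T TT 256 :=
  (.f k62 k61 0 (.l (.s k20 k40 5 (.s k150 k194 13 (.s k85 k215 8 (.s k105 k195 14 (.s k64 k127 6
  (.s k104 k107 0 (.d k192 k128 k148 7 13)))))))))

def t42_149_237 : T TT 256 :=
  (.f k62 k61 0 (.l (.s k20 k40 5 (.s k150 k194 13 (.s k85 k215 8 (.s k105 k195 14 (.s k64 k127 6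
  (.s k104 k107 0 (.d k192 k128 k148 7 13)))))))))

def t42_149_238 : T TT 256 :=
  (.f k62 k61 0 (.l (.s k20 k40 5 (.s k150 k194 13 (.s k85 k215 8 (.s k105 k195 14 (.s k64 k127 6
  (.s k104 k107 0 (.d k192 k128 k148 7 13)))))))))

def t42_149_239 : T TT 256 :=
  (.f k62 k61 0 (.l (.s k20 k40 5 (.s k150 k194 13 (.s k85 k215 8 (.s k105 k195 14 (.s k64 k127 6
  (.s k104 k107 0 (.d k192 k128 k148 7 13)))))))))

def t42_149_240 : T TT 256 :=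
  (.f k62 k61 0 (.l (.s k20 k40 5 (.s k150 k194 13 (.s k85 k215 8 (.s k105 k195 14 (.s k64 k127 6
  (.s k104 k107 0 (.d k192 k128 k148 7 13)))))))))

def t42_149_241 : T TT 256 :=
  (.f k62 k61 0 (.l (.s k20 k40 5 (.s k150 k194 13 (.s k85 k215 8 (.s k105 k195 14 (.s k64 k127 6
  (.s k104 k107 0 (.d k192 k128 k148 7 13)))))))))

def t42_149_242 : T TT 256 :=
  (.f k62 k61 0 (.l (.s k20 k40 5 (.s k150 k194 13 (.s k85 k215 8 (.s k105 k195 14 (.s k64 k127 6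
  (.s k104 k107 0 (.d k192 k128 k148 7 13)))))))))

def t42_149_243 : T TT 256 :=
  (.f k62 k61 0 (.l (.s k20 k40 5 (.s k150 k194 13 (.s k85 k215 8 (.s k105 k195 14 (.s k64 k127 6
  (.s k104 k107 0 (.d k192 k128 k148 7 13)))))))))

def t42_149_244 : T TT 256 :=
  (.f k62 k61 0 (.l (.s k20 k40 5 (.s k150 k194 13 (.s k85 k215 8 (.s k105 k195 14 (.s k64 k127 6
  (.s k104 k107 0 (.d k192 k128 k148 7 13)))))))))

def t42_149_245 : T TT 256 :=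
  (.f k62 k61 0 (.l (.s k20 k40 5 (.s k150 k194 13 (.s k85 k215 8 (.s k105 k195 14 (.s k64 k127 6
  (.s k104 k107 0 (.d k192 k128 k148 7 13)))))))))

def t42_149_246 : T TT 256 :=
  (.f k62 k61 0 (.l (.s k20 k40 5 (.s k150 k194 13 (.s k85 k215 8 (.s k105 k195 14 (.s k64 k127 6
  (.s k104 k107 0 (.d k192 k128 k148 7 13)))))))))

def t42_149_247 : T TT 256 :=
  (.f k62 k61 0 (.l (.s k20 k40 5 (.s k150 k194 13 (.s k85 k215 8 (.s k105 k195 14 (.s k64 k127 6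
  (.s k104 k107 0 (.d k192 k128 k148 7 13)))))))))

def t42_149_248 : T TT 256 :=
  (.f k62 k61 0 (.l (.s k20 k40 5 (.s k150 k194 13 (.s k85 k215 8 (.s k105 k195 14 (.s k64 k127 6
  (.s k104 k107 0 (.d k192 k128 k148 7 13)))))))))

def t42_149_249 : T TT 256 :=
  (.f k62 k61 0 (.l (.s k20 k40 5 (.s k150 k194 13 (.s k85 k215 8 (.s k105 k195 14 (.s k64 k127 6
  (.s k104 k107 0 (.d k192 k128 k148 7 13)))))))))

def t42_149_250 : T TT 256 :=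
  (.f k62 k61 0 (.l (.s k20 k40 5 (.s k150 k194 13 (.s k85 k215 8 (.s k105 k195 14 (.s k64 k127 6
  (.s k104 k107 0 (.d k192 k128 k148 7 13)))))))))

def t42_149_251 : T TT 256 :=
  (.f k62 k61 0 (.l (.s k20 k40 5 (.s k150 k194 13 (.s k85 k215 8 (.s k105 k195 14 (.s k64 k127 6
  (.s k104 k107 0 (.d k192 k128 k148 7 13)))))))))

def t42_149_252 : T TT 256 :=
  (.f k62 k61 0 (.l (.s k20 k40 5 (.s k150 k194 13 (.s k85 k215 8 (.s k105 k195 14 (.s k64 k127 6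
  (.s k104 k107 0 (.d k192 k128 k148 7 13)))))))))

def t42_149_253 : T TT 256 :=
  (.f k62 k61 0 (.l (.s k20 k40 5 (.s k150 k194 13 (.s k85 k215 8 (.s k105 k195 14 (.s k64 k127 6
  (.s k104 k107 0 (.d k192 k128 k148 7 13)))))))))

def t42_149_254 : T TT 256 :=
  (.f k62 k61 0 (.l (.s k20 k40 5 (.s k150 k194 13 (.s k85 k215 8 (.s k105 k195 14 (.s k64 k127 6
  (.s k104 k107 0 (.d k192 k128 k148 7 13)))))))))

def t42_149_255 : T TT 256 :=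
  (.f k62 k61 0 (.f k40 k20 5 (.l (.s k150 k194 13 (.s k105 k195 14 (.s k104 k107 0 (.s k168 k232 7
  (.s k84 k252 13 (.s k192 k148 13 (.d k64 k124 k128 5 7))))))))))

def t42_149 : T TT 256 :=
  (.q k60 [] (.c k1 t42_149_1 (.c k2 t42_149_2 (.c k3 t42_149_3 (.c k4 t42_149_4 (.c k5 t42_149_5
  (.c k6 t42_149_6 (.c k7 t42_149_7 (.c k8 t42_149_8 (.c k9 t42_149_9 (.c k10 t42_149_10 (.c k11
  t42_149_11 (.c k12 t42_149_12 (.c k13 t42_149_13 (.c k14 t42_149_14 (.c k15 t42_149_15 (.c k16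
  t42_149_16 (.c k17 t42_149_17 (.c k18 t42_149_18 (.c k19 t42_149_19 (.c k20 t42_149_20 (.c k21
  t42_149_21 (.c k22 t42_149_22 (.c k23 t42_149_23 (.c k24 t42_149_24 (.c k25 t42_149_25 (.c k26
  t42_149_26 (.c k27 t42_149_27 (.c k28 t42_149_28 (.c k29 t42_149_29 (.c k30 t42_149_30 (.c k31
  t42_149_31 (.c k32 t42_149_32 (.c k33 t42_149_33 (.c k34 t42_149_34 (.c k35 t42_149_35 (.c k36
  t42_149_36 (.c k37 t42_149_37 (.c k38 t42_149_38 (.c k39 t42_149_39 (.c k40 t42_149_40 (.c k41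
  t42_149_41 (.c k43 t42_149_43 (.c k44 t42_149_44 (.c k45 t42_149_45 (.c k46 t42_149_46 (.c k47
  t42_149_47 (.c k48 t42_149_48 (.c k49 t42_149_49 (.c k50 t42_149_50 (.c k51 t42_149_51 (.c k52
  t42_149_52 (.c k53 t42_149_53 (.c k54 t42_149_54 (.c k55 t42_149_55 (.c k56 t42_149_56 (.c k57
  t42_149_57 (.c k58 t42_149_58 (.c k59 t42_149_59 (.c k61 t42_149_61 (.c k62 t42_149_62 (.c k64
  t42_149_64 (.c k65 t42_149_65 (.c k66 t42_149_66 (.c k67 t42_149_67 (.c k68 t42_149_68 (.c k69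
  t42_149_69 (.c k70 t42_149_70 (.c k71 t42_149_71 (.c k72 t42_149_72 (.c k73 t42_149_73 (.c k74
  t42_149_74 (.c k75 t42_149_75 (.c k76 t42_149_76 (.c k77 t42_149_77 (.c k78 t42_149_78 (.c k79
  t42_149_79 (.c k80 t42_149_80 (.c k81 t42_149_81 (.c k82 t42_149_82 (.c k83 t42_149_83 (.c k84
  t42_149_84 (.c k85 t42_149_85 (.c k86 t42_149_86 (.c k87 t42_149_87 (.c k88 t42_149_88 (.c k89
  t42_149_89 (.c k90 t42_149_90 (.c k91 t42_149_91 (.c k92 t42_149_92 (.c k93 t42_149_93 (.c k94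
  t42_149_94 (.c k95 t42_149_95 (.c k96 t42_149_96 (.c k97 t42_149_97 (.c k98 t42_149_98 (.c k99
  t42_149_99 (.c k100 t42_149_100 (.c k101 t42_149_101 (.c k102 t42_149_102 (.c k103 t42_149_103 (.c
  k104 t42_149_104 (.c k105 t42_149_105 (.c k107 t42_149_107 (.c k108 t42_149_108 (.c k109
  t42_149_109 (.c k110 t42_149_110 (.c k111 t42_149_111 (.c k112 t42_149_112 (.c k113 t42_149_113
  (.c k114 t42_149_114 (.c k115 t42_149_115 (.c k116 t42_149_116 (.c k117 t42_149_117 (.c k118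
  t42_149_118 (.c k119 t42_149_119 (.c k120 t42_149_120 (.c k121 t42_149_121 (.c k122 t42_149_122
  (.c k123 t42_149_123 (.c k124 t42_149_124 (.c k125 t42_149_125 (.c k126 t42_149_126 (.c k127
  t42_149_127 (.c k128 t42_149_128 (.c k129 t42_149_129 (.c k130 t42_149_130 (.c k131 t42_149_131
  (.c k132 t42_149_132 (.c k133 t42_149_133 (.c k134 t42_149_134 (.c k135 t42_149_135 (.c k136
  t42_149_136 (.c k137 t42_149_137 (.c k138 t42_149_138 (.c k139 t42_149_139 (.c k140 t42_149_140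
  (.c k141 t42_149_141 (.c k142 t42_149_142 (.c k143 t42_149_143 (.c k144 t42_149_144 (.c k145
  t42_149_145 (.c k146 t42_149_146 (.c k147 t42_149_147 (.c k148 t42_149_148 (.c k150 t42_149_150
  (.c k151 t42_149_151 (.c k152 t42_149_152 (.c k153 t42_149_153 (.c k154 t42_149_154 (.c k155
  t42_149_155 (.c k156 t42_149_156 (.c k157 t42_149_157 (.c k158 t42_149_158 (.c k159 t42_149_159
  (.c k160 t42_149_160 (.c k161 t42_149_161 (.c k162 t42_149_162 (.c k163 t42_149_163 (.c k164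
  t42_149_164 (.c k165 t42_149_165 (.c k166 t42_149_166 (.c k167 t42_149_167 (.c k168 t42_149_168
  (.c k169 t42_149_169 (.c k171 t42_149_171 (.c k172 t42_149_172 (.c k173 t42_149_173 (.c k174
  t42_149_174 (.c k175 t42_149_175 (.c k176 t42_149_176 (.c k177 t42_149_177 (.c k178 t42_149_178
  (.c k179 t42_149_179 (.c k180 t42_149_180 (.c k181 t42_149_181 (.c k182 t42_149_182 (.c k183
  t42_149_183 (.c k184 t42_149_184 (.c k185 t42_149_185 (.c k186 t42_149_186 (.c k187 t42_149_187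
  (.c k188 t42_149_188 (.c k189 t42_149_189 (.c k190 t42_149_190 (.c k191 t42_149_191 (.c k192
  t42_149_192 (.c k193 t42_149_193 (.c k194 t42_149_194 (.c k195 t42_149_195 (.c k196 t42_149_196
  (.c k197 t42_149_197 (.c k198 t42_149_198 (.c k199 t42_149_199 (.c k200 t42_149_200 (.c k201
  t42_149_201 (.c k202 t42_149_202 (.c k203 t42_149_203 (.c k204 t42_149_204 (.c k205 t42_149_205
  (.c k206 t42_149_206 (.c k207 t42_149_207 (.c k208 t42_149_208 (.c k209 t42_149_209 (.c k210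
  t42_149_210 (.c k211 t42_149_211 (.c k212 t42_149_212 (.c k213 t42_149_213 (.c k214 t42_149_214
  (.c k215 t42_149_215 (.c k216 t42_149_216 (.c k217 t42_149_217 (.c k218 t42_149_218 (.c k219
  t42_149_219 (.c k220 t42_149_220 (.c k221 t42_149_221 (.c k222 t42_149_222 (.c k223 t42_149_223
  (.c k224 t42_149_224 (.c k225 t42_149_225 (.c k226 t42_149_226 (.c k227 t42_149_227 (.c k228
  t42_149_228 (.c k229 t42_149_229 (.c k230 t42_149_230 (.c k231 t42_149_231 (.c k232 t42_149_232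
  (.c k233 t42_149_233 (.c k234 t42_149_234 (.c k235 t42_149_235 (.c k236 t42_149_236 (.c k237
  t42_149_237 (.c k238 t42_149_238 (.c k239 t42_149_239 (.c k240 t42_149_240 (.c k241 t42_149_241
  (.c k242 t42_149_242 (.c k243 t42_149_243 (.c k244 t42_149_244 (.c k245 t42_149_245 (.c k246
  t42_149_246 (.c k247 t42_149_247 (.c k248 t42_149_248 (.c k249 t42_149_249 (.c k250 t42_149_250
  (.c k251 t42_149_251 (.c k252 t42_149_252 (.c k253 t42_149_253 (.c k254 t42_149_254 (.c k255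
  t42_149_255 .n))))))))))))))))))))))))))))))))))))))))))))))))))))))))))))))))))))))))))))))))
  ))))))))))))))))))))))))))))))))))))))))))))))))))))))))))))))))))))))))))))))))
  )))))))))))))))))))))))))))))))))))))))))))))))))))))))))))))))))))))))))))))))) ))))))))))

def t42_150 : T TT 256 :=
  (.q k252 [(.s k149 k192 14 (.s k126 k189 8 (.s k86 k66 5 (.s k23 k212 8 (.d k3 k43 k169 5 14))))),
  (.s k84 k168 13 (.s k192 k149 14 (.s k212 k232 5 (.s k148 k20 7 (.s k104 k60 13 (.d k64 k128 k124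
  7 5))))))] (.c k130 (.q k190 [(.s k168 k84 13 (.s k192 k149 14 (.s k189 k126 8 (.s k188 k191 0 (.d
  k128 k148 k64 5 7))))), (.s k126 k189 8 (.s k62 k254 7 (.s k60 k61 0 (.s k124 k188 7 (.d k125 k127
  k255 0 8))))), (.s k84 k168 13 (.s k192 k149 14 (.s k212 k232 5 (.s k148 k20 7 (.s k104 k60 13 (.d
  k64 k128 k124 7 5))))))] .n) (.c k149 (.f k126 k189 8 (.l (.s k84 k168 13 (.s k86 k66 5 (.s k169
  k3 14 (.s k232 k43 8 (.s k85 k87 0 (.s k64 k127 6 (.d k192 k212 k128 5 7))))))))) (.c k169 (.l (.s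
  k168 k84 13 (.s k192 k149 14 (.s k128 k64 7 (.s k232 k212 5 (.s k104 k40 7 (.d k148 k188 k60 5
  13))))))) (.c k190 (.q k130 [(.s k149 k192 14 (.s k126 k189 8 (.s k86 k66 5 (.s k3 k169 14 (.d k23
  k43 k212 5 8))))), (.s k195 k65 8 (.s k192 k149 14 (.s k194 k193 0 (.s k66 k2 7 (.d k126 k86 k189
  5 8))))), (.s k65 k195 8 (.s k192 k149 14 (.s k128 k64 7 (.s k129 k131 0 (.s k1 k193 7 (.d k3 k2
  k66 0 8)))))), (.s k65 k195 8 (.s k84 k168 13 (.s k126 k189 8 (.s k66 k86 5 (.s k64 k67 0 (.s k124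
  k104 5 (.d k127 k125 k85 0 6)))))))] (.c k66 (.l (.s k149 k192 14 (.s k189 k126 8 (.s k169 k129 5
  (.s k3 k86 14 (.d k43 k23 k232 5 8)))))) (.c k191 (.l (.s k149 k192 14 (.s k189 k126 8 (.s k169
  k129 5 (.s k3 k86 14 (.d k43 k23 k232 5 8)))))) .n))) (.c k192 (.f k126 k189 8 (.l (.s k84 k168 13
  (.s k86 k66 5 (.s k85 k87 0 (.s k127 k64 6 (.s k255 k191 7 (.s k253 k254 0 (.d k169 k3 k1 14
  13))))))))) (.c k212 (.l (.s k149 k192 14 (.s k189 k126 8 (.s k169 k129 5 (.s k3 k86 14 (.d k43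
  k23 k232 5 8)))))) .n)))))))

def t42_151 : T TT 256 :=
  (.q k3 [(.s k23 k43 5 (.s k149 k192 14 (.s k86 k212 8 (.s k126 k66 5 (.d k252 k189 k169 8 14))))),
  (.s k1 k2 0 (.s k192 k149 14 (.s k128 k64 7 (.s k129 k66 8 (.s k65 k193 7 (.d k130 k131 k195 0
  8))))))] (.c k66 (.l (.s k43 k23 5 (.s k169 k232 8 (.s k252 k86 14 (.s k149 k192 14 (.d k189 k129
  k126 5 8)))))) (.c k86 (.l (.s k2 k1 0 (.s k192 k149 14 (.s k66 k129 8 (.s k130 k194 7 (.s k65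
  k195 8 (.d k64 k128 k67 7 0))))))) (.c k149 (.f k43 k23 5 (.l (.s k1 k2 0 (.s k169 k232 8 (.s k85
  k253 13 (.s k86 k252 14 (.s k64 k127 6 (.s k66 k126 5 (.d k192 k128 k129 7 8))))))))) (.c k192 (.q
  k154 [(.s k58 k202 11 (.s k48 k53 2 (.s k18 k33 4 (.s k86 k222 9 (.s k169 k252 14 (.d k43 k232 k23
  8 5)))))), (.s k43 k23 5 (.s k169 k232 8 (.s k139 k184 4 (.s k207 k71 9 (.s k101 k48 14 (.d k111
  k96 k159 2 11)))))), (.s k1 k2 0 (.s k58 k202 11 (.s k48 k53 2 (.s k32 k16 3 (.s k33 k18 4 (.s k17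
  k49 3 (.d k34 k35 k51 0 4)))))))] (.c k48 (.f k43 k23 5 (.l (.s k2 k1 0 (.s k169 k232 8 (.s k139
  k184 4 (.s k207 k71 9 (.s k138 k69 10 (.s k70 k206 9 (.d k137 k136 k204 0 10))))))))) (.c k207 (.l
  (.s k43 k23 5 (.s k169 k232 8 (.s k252 k86 14 (.s k184 k139 4 (.s k48 k116 9 (.d k58 k53 k202 2
  11))))))) .n))) .n)))))

def t42_152 : T TT 256 :=
  (.f k192 k149 14 (.q k12 [(.s k46 k29 4 (.s k72 k132 9 (.s k166 k226 9 (.d k89 k123 k243 4 14)))),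
  (.s k4 k8 1 (.s k128 k64 7 (.s k132 k72 9 (.s k68 k196 7 (.d k136 k140 k204 1 9))))), (.s k4 k8 1
  (.s k46 k29 4 (.s k166 k226 9 (.s k85 k247 12 (.d k64 k128 k127 7 6)))))] (.c k89 (.l (.s k8 k4 1
  (.s k72 k132 9 (.s k136 k200 7 (.s k68 k204 9 (.d k64 k76 k128 1 7)))))) (.c k128 (.q k191 [(.s
  k46 k29 4 (.s k166 k226 9 (.s k89 k243 14 (.d k72 k123 k132 4 9)))), (.s k255 k127 7 (.s k174 k93
  12 (.s k157 k140 4 (.s k110 k204 12 (.d k46 k29 k238 4 7))))), (.s k4 k8 1 (.s k72 k132 9 (.s k127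
  k255 7 (.s k85 k64 6 (.s k166 k247 12 (.d k89 k243 k123 14 4))))))] (.c k132 (.l (.s k4 k8 1 (.s
  k46 k29 4 (.s k166 k226 9 (.s k85 k247 12 (.d k127 k64 k255 6 7)))))) .n)) (.c k191 (.l (.s k128
  k64 7 (.s k4 k8 1 (.s k132 k72 9 (.s k68 k196 7 (.d k136 k140 k204 1 9)))))) .n)))))

def t42_153 : T TT 256 :=
  (.q k3 [(.s k23 k43 5 (.s k149 k192 14 (.s k86 k212 8 (.s k126 k66 5 (.d k252 k189 k169 8 14))))),
  (.s k1 k2 0 (.s k192 k149 14 (.s k128 k64 7 (.s k129 k66 8 (.s k65 k193 7 (.d k130 k131 k195 0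
  8))))))] (.c k66 (.l (.s k43 k23 5 (.s k169 k232 8 (.s k252 k86 14 (.s k149 k192 14 (.d k189 k129
  k126 5 8)))))) (.c k86 (.l (.s k2 k1 0 (.s k192 k149 14 (.s k66 k129 8 (.s k130 k194 7 (.s k65
  k195 8 (.d k64 k128 k67 7 0))))))) (.c k136 (.q k187 [(.s k23 k43 5 (.s k149 k192 14 (.s k86 k212
  8 (.s k126 k66 5 (.d k252 k189 k169 8 14))))), (.s k1 k2 0 (.s k192 k149 14 (.s k128 k64 7 (.s
  k129 k66 8 (.s k65 k193 7 (.d k130 k131 k195 0 8))))))] (.c k66 (.l (.s k43 k23 5 (.s k169 k232 8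
  (.s k252 k86 14 (.s k149 k192 14 (.d k189 k129 k126 5 8)))))) (.c k86 (.l (.s k2 k1 0 (.s k192
  k149 14 (.s k66 k129 8 (.s k130 k194 7 (.s k65 k195 8 (.d k64 k128 k67 7 0))))))) (.c k149 (.f k43
  k23 5 (.l (.s k1 k2 0 (.s k169 k232 8 (.s k85 k253 13 (.s k86 k252 14 (.s k64 k127 6 (.s k66 k126
  5 (.d k192 k128 k129 7 8))))))))) (.c k192 (.f k43 k23 5 (.l (.s k1 k2 0 (.s k169 k232 8 (.s k85
  k253 13 (.s k127 k64 6 (.s k255 k191 7 (.s k87 k171 13 (.d k86 k252 k84 14 0))))))))) .n))))) (.c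
  k149 (.f k43 k23 5 (.l (.s k1 k2 0 (.s k169 k232 8 (.s k85 k253 13 (.s k86 k252 14 (.s k64 k127 6
  (.s k66 k126 5 (.d k192 k128 k129 7 8))))))))) (.c k187 (.q k136 [(.s k204 k68 9 (.s k137 k70 10
  (.s k138 k139 0 (.s k69 k207 10 (.d k1 k2 k205 0 9))))), (.s k23 k43 5 (.s k149 k192 14 (.s k86
  k212 8 (.s k126 k66 5 (.d k252 k189 k169 8 14)))))] .n) (.c k192 (.f k43 k23 5 (.l (.s k1 k2 0 (.s
  k169 k232 8 (.s k85 k253 13 (.s k127 k64 6 (.s k255 k191 7 (.s k87 k171 13 (.d k86 k252 k84 14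
  0))))))))) .n)))))))

def t42_154 : T TT 256 :=
  (.q k3 [(.s k23 k43 5 (.s k149 k192 14 (.s k86 k212 8 (.s k126 k66 5 (.d k252 k189 k169 8 14))))),
  (.s k1 k2 0 (.s k192 k149 14 (.s k128 k64 7 (.s k129 k66 8 (.s k65 k193 7 (.d k130 k131 k195 0
  8))))))] (.c k66 (.l (.s k43 k23 5 (.s k169 k232 8 (.s k252 k86 14 (.s k149 k192 14 (.d k189 k129
  k126 5 8)))))) (.c k86 (.l (.s k2 k1 0 (.s k192 k149 14 (.s k66 k129 8 (.s k130 k194 7 (.s k65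
  k195 8 (.d k64 k128 k67 7 0))))))) (.c k138 (.q k186 [(.s k23 k43 5 (.s k149 k192 14 (.s k86 k212
  8 (.s k126 k66 5 (.d k252 k189 k169 8 14))))), (.s k1 k2 0 (.s k192 k149 14 (.s k128 k64 7 (.s
  k129 k66 8 (.s k65 k193 7 (.d k130 k131 k195 0 8))))))] (.c k66 (.l (.s k43 k23 5 (.s k169 k232 8
  (.s k252 k86 14 (.s k149 k192 14 (.d k189 k129 k126 5 8)))))) (.c k86 (.l (.s k2 k1 0 (.s k192
  k149 14 (.s k66 k129 8 (.s k130 k194 7 (.s k65 k195 8 (.d k64 k128 k67 7 0))))))) (.c k149 (.f k43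
  k23 5 (.l (.s k1 k2 0 (.s k169 k232 8 (.s k85 k253 13 (.s k86 k252 14 (.s k64 k127 6 (.s k66 k126
  5 (.d k192 k128 k129 7 8))))))))) (.c k192 (.f k43 k23 5 (.l (.s k1 k2 0 (.s k169 k232 8 (.s k85
  k253 13 (.s k127 k64 6 (.s k255 k191 7 (.s k87 k171 13 (.d k86 k252 k84 14 0))))))))) .n))))) (.c
  k149 (.f k43 k23 5 (.l (.s k1 k2 0 (.s k169 k232 8 (.s k85 k253 13 (.s k86 k252 14 (.s k64 k127 6
  (.s k66 k126 5 (.d k192 k128 k129 7 8))))))))) (.c k186 (.q k138 [(.s k2 k1 0 (.s k207 k69 10 (.s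
  k70 k206 9 (.s k137 k204 10 (.d k139 k136 k71 0 9))))), (.s k23 k43 5 (.s k149 k192 14 (.s k86
  k212 8 (.s k252 k169 14 (.d k126 k66 k189 5 8)))))] (.c k139 (.l (.s k2 k1 0 (.s k69 k207 10 (.s
  k70 k206 9 (.s k204 k137 10 (.d k68 k71 k136 0 9)))))) .n)) (.c k192 (.f k43 k23 5 (.l (.s k1 k2 0
  (.s k169 k232 8 (.s k85 k253 13 (.s k127 k64 6 (.s k255 k191 7 (.s k87 k171 13 (.d k86 k252 k84 14
  0))))))))) .n)))))))

def t42_155 : T TT 256 :=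
  (.f k192 k149 14 (.q k252 [(.s k126 k189 8 (.s k86 k66 5 (.s k169 k3 14 (.d k232 k212 k43 5 8)))),
  (.s k128 k64 7 (.s k168 k84 13 (.s k148 k188 5 (.s k104 k60 13 (.d k232 k212 k40 5 7))))), (.s k84
  k168 13 (.s k126 k189 8 (.s k86 k66 5 (.s k85 k87 0 (.d k64 k128 k127 7 6)))))] (.c k128 (.q k191
  [(.s k126 k189 8 (.s k86 k66 5 (.s k169 k3 14 (.d k232 k212 k43 5 8)))), (.s k189 k126 8 (.s k255
  k127 7 (.s k190 k188 0 (.s k125 k60 8 (.d k253 k254 k61 0 7))))), (.s k84 k168 13 (.s k127 k255 7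
  (.s k64 k85 6 (.s k104 k124 5 (.s k148 k60 13 (.d k212 k232 k20 5 7))))))] .n) (.c k191 (.l (.s
  k128 k64 7 (.s k168 k84 13 (.s k148 k188 5 (.s k104 k60 13 (.d k232 k212 k40 5 7)))))) .n))))

def t42_156 : T TT 256 :=
  (.f k192 k149 14 (.q k252 [(.s k126 k189 8 (.s k86 k66 5 (.s k169 k3 14 (.d k232 k212 k43 5 8)))),
  (.s k128 k64 7 (.s k168 k84 13 (.s k148 k188 5 (.s k104 k60 13 (.d k232 k212 k40 5 7))))), (.s k84
  k168 13 (.s k126 k189 8 (.s k86 k66 5 (.s k85 k87 0 (.d k64 k128 k127 7 6)))))] (.c k128 (.q k191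
  [(.s k126 k189 8 (.s k86 k66 5 (.s k169 k3 14 (.d k232 k212 k43 5 8)))), (.s k189 k126 8 (.s k255
  k127 7 (.s k190 k188 0 (.s k125 k60 8 (.d k253 k254 k61 0 7))))), (.s k84 k168 13 (.s k127 k255 7
  (.s k64 k85 6 (.s k104 k124 5 (.s k148 k60 13 (.d k212 k232 k20 5 7))))))] .n) (.c k191 (.l (.s
  k128 k64 7 (.s k168 k84 13 (.s k148 k188 5 (.s k104 k60 13 (.d k232 k212 k40 5 7)))))) .n))))

def t42_157 : T TT 256 :=
  (.q k252 [(.s k149 k192 14 (.s k189 k126 8 (.s k169 k129 5 (.s k3 k86 14 (.d k43 k23 k232 5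
  8))))), (.s k168 k84 13 (.s k192 k149 14 (.s k128 k64 7 (.s k148 k188 5 (.s k104 k60 13 (.d k232
  k212 k40 5 7))))))] (.c k149 (.f k126 k189 8 (.l (.s k84 k168 13 (.s k86 k66 5 (.s k169 k3 14 (.s
  k232 k43 8 (.s k85 k87 0 (.s k64 k127 6 (.d k192 k212 k128 5 7))))))))) (.c k192 (.f k126 k189 8
  (.l (.s k84 k168 13 (.s k86 k66 5 (.s k85 k87 0 (.s k127 k64 6 (.s k255 k191 7 (.s k253 k254 0 (.d
  k169 k3 k1 14 13))))))))) (.c k232 (.l (.s k149 k192 14 (.s k126 k189 8 (.s k86 k66 5 (.s k3 k169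
  14 (.d k23 k43 k212 5 8)))))) .n))))

def t42_158 : T TT 256 :=
  (.f k192 k149 14 (.q k252 [(.s k126 k189 8 (.s k86 k66 5 (.s k169 k3 14 (.d k232 k212 k43 5 8)))),
  (.s k128 k64 7 (.s k168 k84 13 (.s k148 k188 5 (.s k104 k60 13 (.d k232 k212 k40 5 7))))), (.s k84
  k168 13 (.s k126 k189 8 (.s k86 k66 5 (.s k85 k87 0 (.d k64 k128 k127 7 6)))))] (.c k128 (.q k191
  [(.s k126 k189 8 (.s k86 k66 5 (.s k169 k3 14 (.d k232 k212 k43 5 8)))), (.s k189 k126 8 (.s k255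
  k127 7 (.s k190 k188 0 (.s k125 k60 8 (.d k253 k254 k61 0 7))))), (.s k84 k168 13 (.s k127 k255 7
  (.s k64 k85 6 (.s k104 k124 5 (.s k148 k60 13 (.d k212 k232 k20 5 7))))))] .n) (.c k191 (.l (.s
  k128 k64 7 (.s k168 k84 13 (.s k148 k188 5 (.s k104 k60 13 (.d k232 k212 k40 5 7)))))) .n))))

def t42_159 : T TT 256 :=
  (.q k252 [(.s k149 k192 14 (.s k126 k189 8 (.s k86 k66 5 (.s k23 k212 8 (.d k3 k43 k169 5 14))))),
  (.s k168 k84 13 (.s k192 k149 14 (.s k128 k64 7 (.s k148 k188 5 (.s k104 k60 13 (.d k232 k212 k40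
  5 7))))))] (.c k149 (.f k126 k189 8 (.l (.s k84 k168 13 (.s k86 k66 5 (.s k169 k3 14 (.s k232 k43
  8 (.s k85 k87 0 (.s k64 k127 6 (.d k192 k212 k128 5 7))))))))) (.c k192 (.f k126 k189 8 (.l (.s
  k84 k168 13 (.s k86 k66 5 (.s k85 k87 0 (.s k127 k64 6 (.s k255 k191 7 (.s k253 k254 0 (.d k169 k3
  k1 14 13))))))))) (.c k212 (.l (.s k149 k192 14 (.s k189 k126 8 (.s k169 k129 5 (.s k3 k86 14 (.d
  k43 k23 k232 5 8)))))) .n))))

def t42_160 : T TT 256 :=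
  (.q k252 [(.s k149 k192 14 (.s k126 k189 8 (.s k86 k66 5 (.s k23 k212 8 (.d k3 k43 k169 5 14))))),
  (.s k168 k84 13 (.s k192 k149 14 (.s k128 k64 7 (.s k148 k188 5 (.s k104 k60 13 (.d k232 k212 k40
  5 7))))))] (.c k149 (.f k126 k189 8 (.l (.s k84 k168 13 (.s k86 k66 5 (.s k169 k3 14 (.s k232 k43
  8 (.s k85 k87 0 (.s k64 k127 6 (.d k192 k212 k128 5 7))))))))) (.c k165 (.q k175 [(.s k149 k192 14
  (.s k126 k189 8 (.s k86 k66 5 (.s k23 k212 8 (.d k3 k43 k169 5 14))))), (.s k168 k84 13 (.s k192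
  k149 14 (.s k128 k64 7 (.s k148 k188 5 (.s k104 k60 13 (.d k232 k212 k40 5 7))))))] (.c k149 (.f
  k126 k189 8 (.l (.s k84 k168 13 (.s k86 k66 5 (.s k169 k3 14 (.s k232 k43 8 (.s k85 k87 0 (.s k64
  k127 6 (.d k192 k212 k128 5 7))))))))) (.c k192 (.f k126 k189 8 (.l (.s k84 k168 13 (.s k86 k66 5
  (.s k85 k87 0 (.s k127 k64 6 (.s k255 k191 7 (.s k253 k254 0 (.d k169 k3 k1 14 13))))))))) (.c
  k212 (.l (.s k149 k192 14 (.s k189 k126 8 (.s k169 k129 5 (.s k3 k86 14 (.d k43 k23 k232 5 8))))))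
  .n)))) (.c k175 (.q k165 [(.s k149 k192 14 (.s k126 k189 8 (.s k86 k66 5 (.s k3 k169 14 (.d k23
  k43 k212 5 8))))), (.s k47 k224 10 (.s k15 k31 3 (.s k90 k240 14 (.s k192 k149 14 (.d k74 k122
  k133 3 10)))))] (.c k149 (.l (.s k47 k224 10 (.s k15 k31 3 (.s k90 k240 14 (.s k94 k173 12 (.s
  k126 k189 8 (.d k86 k82 k66 1 5))))))) (.c k192 (.l (.s k47 k224 10 (.s k15 k31 3 (.s k240 k90 14
  (.s k126 k189 8 (.s k86 k66 5 (.d k244 k248 k7 1 12))))))) .n))) (.c k192 (.f k126 k189 8 (.l (.s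
  k84 k168 13 (.s k86 k66 5 (.s k85 k87 0 (.s k127 k64 6 (.s k255 k191 7 (.s k253 k254 0 (.d k169 k3
  k1 14 13))))))))) (.c k212 (.l (.s k149 k192 14 (.s k189 k126 8 (.s k169 k129 5 (.s k3 k86 14 (.d
  k43 k23 k232 5 8)))))) .n))))))

def t42_161 : T TT 256 :=
  (.f k192 k149 14 (.q k252 [(.s k126 k189 8 (.s k86 k66 5 (.s k232 k212 5 (.d k169 k43 k3 8 14)))),
  (.s k128 k64 7 (.s k168 k84 13 (.s k148 k188 5 (.s k104 k60 13 (.d k232 k212 k40 5 7))))), (.s k84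
  k168 13 (.s k126 k189 8 (.s k86 k66 5 (.s k85 k87 0 (.d k64 k128 k127 7 6)))))] (.c k128 (.q k191
  [(.s k126 k189 8 (.s k86 k66 5 (.s k232 k212 5 (.d k169 k43 k3 8 14)))), (.s k189 k126 8 (.s k255
  k127 7 (.s k190 k188 0 (.s k125 k60 8 (.d k253 k254 k61 0 7))))), (.s k84 k168 13 (.s k127 k255 7
  (.s k64 k85 6 (.s k104 k124 5 (.s k148 k60 13 (.d k212 k232 k20 5 7))))))] .n) (.c k191 (.l (.s
  k128 k64 7 (.s k168 k84 13 (.s k148 k188 5 (.s k104 k60 13 (.d k232 k212 k40 5 7)))))) .n))))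

def t42_162 : T TT 256 :=
  (.q k252 [(.s k149 k192 14 (.s k126 k189 8 (.s k86 k66 5 (.s k23 k212 8 (.d k3 k43 k169 5 14))))),
  (.s k168 k84 13 (.s k192 k149 14 (.s k128 k64 7 (.s k148 k188 5 (.s k104 k60 13 (.d k232 k212 k40
  5 7))))))] (.c k149 (.f k126 k189 8 (.l (.s k84 k168 13 (.s k86 k66 5 (.s k169 k3 14 (.s k232 k43
  8 (.s k85 k87 0 (.s k64 k127 6 (.d k192 k212 k128 5 7))))))))) (.c k166 (.q k174 [(.s k149 k192 14
  (.s k126 k189 8 (.s k86 k66 5 (.s k23 k212 8 (.d k3 k43 k169 5 14))))), (.s k168 k84 13 (.s k192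
  k149 14 (.s k128 k64 7 (.s k148 k188 5 (.s k104 k60 13 (.d k232 k212 k40 5 7))))))] (.c k149 (.f
  k126 k189 8 (.l (.s k84 k168 13 (.s k86 k66 5 (.s k169 k3 14 (.s k232 k43 8 (.s k85 k87 0 (.s k64
  k127 6 (.d k192 k212 k128 5 7))))))))) (.c k192 (.f k126 k189 8 (.l (.s k84 k168 13 (.s k86 k66 5
  (.s k85 k87 0 (.s k127 k64 6 (.s k255 k191 7 (.s k253 k254 0 (.d k169 k3 k1 14 13))))))))) (.c
  k212 (.l (.s k149 k192 14 (.s k189 k126 8 (.s k169 k129 5 (.s k3 k86 14 (.d k43 k23 k232 5 8))))))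
  .n)))) (.c k174 (.q k166 [(.s k149 k192 14 (.s k126 k189 8 (.s k86 k66 5 (.s k3 k169 14 (.d k23
  k43 k212 5 8))))), (.s k46 k226 9 (.s k12 k29 4 (.s k89 k243 14 (.s k192 k149 14 (.d k72 k123 k132
  4 9)))))] (.c k149 (.l (.s k46 k226 9 (.s k12 k29 4 (.s k89 k243 14 (.s k92 k172 11 (.s k126 k189
  8 (.d k86 k83 k66 2 5))))))) (.c k192 (.l (.s k46 k226 9 (.s k12 k29 4 (.s k243 k89 14 (.s k126
  k189 8 (.s k86 k66 5 (.d k246 k249 k6 2 11))))))) .n))) (.c k192 (.f k126 k189 8 (.l (.s k84 k168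
  13 (.s k86 k66 5 (.s k85 k87 0 (.s k127 k64 6 (.s k255 k191 7 (.s k253 k254 0 (.d k169 k3 k1 14
  13))))))))) (.c k212 (.l (.s k149 k192 14 (.s k189 k126 8 (.s k169 k129 5 (.s k3 k86 14 (.d k43
  k23 k232 5 8)))))) .n))))))

def t42_163 : T TT 256 :=
  (.f k192 k149 14 (.q k252 [(.s k126 k189 8 (.s k86 k66 5 (.s k232 k212 5 (.d k169 k43 k3 8 14)))),
  (.s k128 k64 7 (.s k168 k84 13 (.s k148 k188 5 (.s k104 k60 13 (.d k232 k212 k40 5 7))))), (.s k84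
  k168 13 (.s k126 k189 8 (.s k86 k66 5 (.s k85 k87 0 (.d k64 k128 k127 7 6)))))] (.c k128 (.q k191
  [(.s k126 k189 8 (.s k86 k66 5 (.s k232 k212 5 (.d k169 k43 k3 8 14)))), (.s k189 k126 8 (.s k255
  k127 7 (.s k190 k188 0 (.s k125 k60 8 (.d k253 k254 k61 0 7))))), (.s k84 k168 13 (.s k127 k255 7
  (.s k64 k85 6 (.s k104 k124 5 (.s k148 k60 13 (.d k212 k232 k20 5 7))))))] .n) (.c k191 (.l (.s
  k128 k64 7 (.s k168 k84 13 (.s k148 k188 5 (.s k104 k60 13 (.d k232 k212 k40 5 7)))))) .n))))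

def t42_164 : T TT 256 :=
  (.f k192 k149 14 (.q k3 [(.s k43 k23 5 (.s k66 k129 8 (.s k169 k232 8 (.d k86 k126 k252 5 14)))),
  (.s k1 k2 0 (.s k128 k64 7 (.s k129 k66 8 (.s k65 k193 7 (.d k130 k131 k195 0 8))))), (.s k1 k2 0
  (.s k43 k23 5 (.s k169 k232 8 (.s k85 k253 13 (.d k64 k128 k127 7 6)))))] (.c k86 (.l (.s k2 k1 0
  (.s k66 k129 8 (.s k130 k194 7 (.s k65 k195 8 (.d k64 k67 k128 0 7)))))) (.c k128 (.q k191 [(.s
  k43 k23 5 (.s k169 k232 8 (.s k86 k252 14 (.d k66 k126 k129 5 8)))), (.s k255 k127 7 (.s k171 k87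
  13 (.s k151 k131 5 (.s k107 k195 13 (.d k43 k23 k235 5 7))))), (.s k1 k2 0 (.s k66 k129 8 (.s k127
  k255 7 (.s k85 k64 6 (.s k169 k253 13 (.d k86 k252 k126 14 5))))))] (.c k129 (.l (.s k1 k2 0 (.s
  k43 k23 5 (.s k169 k232 8 (.s k85 k253 13 (.d k127 k64 k255 6 7)))))) .n)) (.c k191 (.l (.s k128
  k64 7 (.s k1 k2 0 (.s k129 k66 8 (.s k65 k193 7 (.d k130 k131 k195 0 8)))))) .n)))))

def t42_165 : T TT 256 :=
  (.q k3 [(.s k23 k43 5 (.s k149 k192 14 (.s k86 k212 8 (.s k126 k66 5 (.d k252 k189 k169 8 14))))),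
  (.s k1 k2 0 (.s k192 k149 14 (.s k128 k64 7 (.s k129 k66 8 (.s k65 k193 7 (.d k130 k131 k195 0
  8))))))] (.c k66 (.l (.s k43 k23 5 (.s k169 k232 8 (.s k252 k86 14 (.s k149 k192 14 (.d k189 k129
  k126 5 8)))))) (.c k86 (.l (.s k2 k1 0 (.s k192 k149 14 (.s k66 k129 8 (.s k130 k194 7 (.s k65
  k195 8 (.d k64 k128 k67 7 0))))))) (.c k149 (.f k43 k23 5 (.l (.s k1 k2 0 (.s k169 k232 8 (.s k85
  k253 13 (.s k86 k252 14 (.s k64 k127 6 (.s k66 k126 5 (.d k192 k128 k129 7 8))))))))) (.c k160 (.q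
  k175 [(.s k23 k43 5 (.s k149 k192 14 (.s k86 k212 8 (.s k126 k66 5 (.d k252 k189 k169 8 14))))),
  (.s k1 k2 0 (.s k192 k149 14 (.s k128 k64 7 (.s k129 k66 8 (.s k65 k193 7 (.d k130 k131 k195 0
  8))))))] (.c k66 (.l (.s k43 k23 5 (.s k169 k232 8 (.s k252 k86 14 (.s k149 k192 14 (.d k189 k129
  k126 5 8)))))) (.c k86 (.l (.s k2 k1 0 (.s k192 k149 14 (.s k66 k129 8 (.s k130 k194 7 (.s k65
  k195 8 (.d k64 k128 k67 7 0))))))) (.c k149 (.f k43 k23 5 (.l (.s k1 k2 0 (.s k169 k232 8 (.s k85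
  k253 13 (.s k86 k252 14 (.s k64 k127 6 (.s k66 k126 5 (.d k192 k128 k129 7 8))))))))) (.c k192 (.f
  k43 k23 5 (.l (.s k1 k2 0 (.s k169 k232 8 (.s k85 k253 13 (.s k127 k64 6 (.s k255 k191 7 (.s k87
  k171 13 (.d k86 k252 k84 14 0))))))))) .n))))) (.c k175 (.q k160 [(.s k240 k80 11 (.s k161 k82 12
  (.s k162 k163 0 (.s k81 k243 12 (.d k1 k2 k241 0 11))))), (.s k23 k43 5 (.s k149 k192 14 (.s k86
  k212 8 (.s k126 k66 5 (.d k252 k189 k169 8 14)))))] .n) (.c k192 (.f k43 k23 5 (.l (.s k1 k2 0 (.s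
  k169 k232 8 (.s k85 k253 13 (.s k127 k64 6 (.s k255 k191 7 (.s k87 k171 13 (.d k86 k252 k84 14
  0))))))))) .n)))))))

def t42_166 : T TT 256 :=
  (.q k252 [(.s k149 k192 14 (.s k126 k189 8 (.s k86 k66 5 (.s k23 k212 8 (.d k3 k43 k169 5 14))))),
  (.s k168 k84 13 (.s k192 k149 14 (.s k128 k64 7 (.s k148 k188 5 (.s k104 k60 13 (.d k232 k212 k40
  5 7))))))] (.c k149 (.f k126 k189 8 (.l (.s k84 k168 13 (.s k86 k66 5 (.s k169 k3 14 (.s k232 k43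
  8 (.s k85 k87 0 (.s k64 k127 6 (.d k192 k212 k128 5 7))))))))) (.c k162 (.q k174 [(.s k149 k192 14
  (.s k126 k189 8 (.s k86 k66 5 (.s k23 k212 8 (.d k3 k43 k169 5 14))))), (.s k168 k84 13 (.s k192
  k149 14 (.s k128 k64 7 (.s k148 k188 5 (.s k104 k60 13 (.d k232 k212 k40 5 7))))))] (.c k149 (.f
  k126 k189 8 (.l (.s k84 k168 13 (.s k86 k66 5 (.s k169 k3 14 (.s k232 k43 8 (.s k85 k87 0 (.s k64
  k127 6 (.d k192 k212 k128 5 7))))))))) (.c k192 (.f k126 k189 8 (.l (.s k84 k168 13 (.s k86 k66 5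
  (.s k85 k87 0 (.s k127 k64 6 (.s k255 k191 7 (.s k253 k254 0 (.d k169 k3 k1 14 13))))))))) (.c
  k212 (.l (.s k149 k192 14 (.s k189 k126 8 (.s k169 k129 5 (.s k3 k86 14 (.d k43 k23 k232 5 8))))))
  .n)))) (.c k174 (.q k162 [(.s k149 k192 14 (.s k126 k189 8 (.s k86 k66 5 (.s k23 k212 8 (.d k3 k43
  k169 5 14))))), (.s k81 k243 12 (.s k192 k149 14 (.s k128 k64 7 (.s k145 k179 4 (.s k17 k209 7 (.d
  k51 k34 k98 4 12))))))] (.c k149 (.l (.s k243 k81 12 (.s k126 k189 8 (.s k86 k66 5 (.s k169 k3 14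
  (.s k249 k246 2 (.s k89 k9 11 (.d k123 k72 k183 4 9)))))))) (.c k192 (.l (.s k243 k81 12 (.s k123
  k183 9 (.s k126 k189 8 (.s k86 k66 5 (.s k3 k169 14 (.s k89 k72 4 (.d k83 k163 k92 11 2))))))))
  .n))) (.c k192 (.f k126 k189 8 (.l (.s k84 k168 13 (.s k86 k66 5 (.s k85 k87 0 (.s k127 k64 6 (.s
  k255 k191 7 (.s k253 k254 0 (.d k169 k3 k1 14 13))))))))) (.c k212 (.l (.s k149 k192 14 (.s k189
  k126 8 (.s k169 k129 5 (.s k3 k86 14 (.d k43 k23 k232 5 8)))))) .n))))))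

def t42_167 : T TT 256 :=
  (.f k192 k149 14 (.q k3 [(.s k43 k23 5 (.s k66 k129 8 (.s k169 k232 8 (.d k86 k126 k252 5 14)))),
  (.s k1 k2 0 (.s k128 k64 7 (.s k129 k66 8 (.s k65 k193 7 (.d k130 k131 k195 0 8))))), (.s k1 k2 0
  (.s k43 k23 5 (.s k169 k232 8 (.s k85 k253 13 (.d k64 k128 k127 7 6)))))] (.c k86 (.l (.s k2 k1 0
  (.s k66 k129 8 (.s k130 k194 7 (.s k65 k195 8 (.d k64 k67 k128 0 7)))))) (.c k128 (.q k191 [(.s
  k43 k23 5 (.s k169 k232 8 (.s k86 k252 14 (.d k66 k126 k129 5 8)))), (.s k255 k127 7 (.s k171 k87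
  13 (.s k151 k131 5 (.s k107 k195 13 (.d k43 k23 k235 5 7))))), (.s k1 k2 0 (.s k66 k129 8 (.s k127
  k255 7 (.s k85 k64 6 (.s k169 k253 13 (.d k86 k252 k126 14 5))))))] (.c k129 (.l (.s k1 k2 0 (.s
  k43 k23 5 (.s k169 k232 8 (.s k85 k253 13 (.d k127 k64 k255 6 7)))))) .n)) (.c k191 (.l (.s k128
  k64 7 (.s k1 k2 0 (.s k129 k66 8 (.s k65 k193 7 (.d k130 k131 k195 0 8)))))) .n)))))

def t42_168 : T TT 256 :=
  (.q k3 [(.s k23 k43 5 (.s k149 k192 14 (.s k86 k212 8 (.s k126 k66 5 (.d k252 k169 k189 14 8))))),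
  (.s k1 k2 0 (.s k192 k149 14 (.s k128 k64 7 (.s k129 k66 8 (.s k65 k193 7 (.d k130 k131 k195 0
  8))))))] (.c k66 (.l (.s k43 k23 5 (.s k169 k232 8 (.s k252 k86 14 (.s k149 k192 14 (.d k189 k129
  k126 5 8)))))) (.c k86 (.l (.s k2 k1 0 (.s k192 k149 14 (.s k66 k129 8 (.s k130 k194 7 (.s k65
  k195 8 (.d k64 k128 k67 7 0))))))) (.c k149 (.f k43 k23 5 (.l (.s k1 k2 0 (.s k169 k232 8 (.s k85
  k253 13 (.s k86 k252 14 (.s k64 k127 6 (.s k66 k126 5 (.d k192 k128 k129 7 8))))))))) (.c k169 (.q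
  k171 [(.s k255 k87 13 (.s k127 k191 7 (.s k64 k85 6 (.d k192 k128 k149 7 14)))), (.s k23 k43 5 (.s
  k87 k255 13 (.s k151 k215 7 (.s k195 k107 13 (.d k131 k191 k67 5 7))))), (.s k1 k2 0 (.s k192 k149
  14 (.s k128 k64 7 (.s k129 k66 8 (.s k65 k193 7 (.d k130 k131 k195 0 8))))))] (.c k191 (.l (.s k43
  k23 5 (.s k87 k255 13 (.s k107 k235 7 (.s k195 k151 13 (.d k67 k127 k131 5 7)))))) .n)) (.c k171
  (.q k169 [(.d k43 k23 k232 5 8), (.s k86 k252 14 (.s k192 k149 14 (.d k66 k126 k129 5 8)))] .n)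
  (.c k192 (.q k169 [(.d k43 k23 k232 5 8), (.s k1 k2 0 (.s k85 k253 13 (.s k127 k64 6 (.s k255 k191
  7 (.s k87 k171 13 (.d k86 k84 k252 0 14))))))] .n) .n)))))))

def t42_169 : T TT 256 :=
  (.q k195 [(.s k149 k192 14 (.s k107 k151 13 (.s k105 k104 0 (.s k61 k193 13 (.d k60 k62 k150 0
  14))))), (.s k65 k130 8 (.s k192 k149 14 (.s k193 k194 0 (.s k129 k1 7 (.s k66 k3 8 (.d k64 k128
  k67 7 0))))))] (.c k149 (.f k65 k130 8 (.l (.s k107 k151 13 (.s k105 k104 0 (.s k150 k60 14 (.s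
  k194 k62 13 (.s k85 k125 5 (.s k64 k127 6 (.d k192 k193 k128 0 7))))))))) (.c k150 (.l (.s k130
  k65 8 (.s k192 k149 14 (.s k128 k64 7 (.s k194 k193 0 (.s k66 k2 7 (.d k129 k131 k3 0 8))))))) (.c
  k168 (.q k171 [(.s k130 k65 8 (.s k192 k149 14 (.s k151 k107 13 (.s k131 k191 5 (.d k128 k129 k64
  0 7))))), (.s k107 k151 13 (.s k43 k235 7 (.s k3 k23 5 (.s k67 k131 7 (.d k87 k127 k255 5 13))))),
  (.s k65 k130 8 (.s k192 k149 14 (.s k193 k194 0 (.s k129 k1 7 (.s k66 k3 8 (.d k64 k128 k67 7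
  0))))))] .n) (.c k171 (.q k168 [(.s k149 k192 14 (.s k107 k151 13 (.s k105 k104 0 (.s k60 k150 14
  (.d k61 k62 k193 0 13))))), (.s k65 k130 8 (.s k252 k84 13 (.s k126 k189 8 (.s k66 k86 5 (.s k64
  k67 0 (.d k192 k149 k128 14 7)))))), (.s k84 k252 13 (.s k107 k151 13 (.s k104 k105 0 (.s k64 k124
  5 (.d k192 k128 k149 7 14))))), (.s k65 k130 8 (.s k84 k252 13 (.s k107 k151 13 (.s k104 k105 0
  (.s k64 k124 5 (.s k67 k66 0 (.d k127 k87 k85 5 6)))))))] (.c k105 (.l (.s k65 k130 8 (.s k192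
  k149 14 (.s k193 k194 0 (.s k129 k1 7 (.s k66 k3 8 (.d k64 k128 k67 7 0))))))) .n)) (.c k192 (.f
  k65 k130 8 (.l (.s k107 k151 13 (.s k105 k104 0 (.s k85 k125 5 (.s k127 k64 6 (.s k255 k191 7 (.s
  k215 k235 5 (.d k150 k60 k20 14 8))))))))) (.c k193 (.l (.s k149 k192 14 (.s k151 k107 13 (.s k150
  k148 0 (.s k60 k105 14 (.d k62 k61 k194 0 13)))))) .n)))))))

def t42_171 : T TT 256 :=
  (.q k252 [(.s k149 k192 14 (.s k126 k189 8 (.s k86 k66 5 (.s k23 k212 8 (.d k3 k169 k43 14 5))))),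
  (.s k168 k84 13 (.s k192 k149 14 (.s k128 k64 7 (.s k148 k188 5 (.s k104 k60 13 (.d k232 k212 k40
  5 7))))))] (.c k149 (.f k126 k189 8 (.f k86 k66 5 (.l (.s k168 k84 13 (.s k169 k3 14 (.s k232 k43
  8 (.s k192 k212 5 (.s k128 k64 7 (.s k148 k188 5 (.d k104 k40 k60 7 13)))))))))) (.c k168 (.q k169
  [(.s k3 k86 14 (.d k43 k23 k232 5 8)), (.s k86 k3 14 (.d k126 k66 k189 5 8)), (.s k232 k43 8 (.d
  k192 k212 k149 5 14))] .n) (.c k169 (.l (.s k168 k84 13 (.s k192 k149 14 (.s k128 k64 7 (.s k148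
  k188 5 (.s k104 k60 13 (.d k232 k212 k40 5 7))))))) (.c k192 (.q k169 [(.s k3 k86 14 (.d k43 k23
  k232 5 8)), (.s k86 k3 14 (.d k126 k66 k189 5 8)), (.s k168 k84 13 (.s k232 k43 8 (.s k40 k104 7
  (.s k60 k20 5 (.s k62 k61 0 (.s k150 k194 13 (.d k188 k124 k131 7 6)))))))] .n) (.c k212 (.l (.s
  k149 k192 14 (.s k189 k126 8 (.s k169 k129 5 (.s k3 k86 14 (.d k43 k23 k232 5 8)))))) .n))))))

def t42_172 : T TT 256 :=
  (.f k192 k149 14 (.q k3 [(.s k43 k23 5 (.s k66 k129 8 (.s k169 k232 8 (.d k86 k126 k252 5 14)))),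
  (.s k1 k2 0 (.s k128 k64 7 (.s k129 k66 8 (.s k65 k193 7 (.d k130 k131 k195 0 8))))), (.s k1 k2 0
  (.s k43 k23 5 (.s k169 k232 8 (.s k85 k253 13 (.d k64 k128 k127 7 6)))))] (.c k86 (.l (.s k2 k1 0
  (.s k66 k129 8 (.s k130 k194 7 (.s k65 k195 8 (.d k64 k67 k128 0 7)))))) (.c k128 (.q k191 [(.s
  k43 k23 5 (.s k169 k232 8 (.s k86 k252 14 (.d k66 k126 k129 5 8)))), (.s k255 k127 7 (.s k171 k87
  13 (.s k151 k131 5 (.s k107 k195 13 (.d k43 k23 k235 5 7))))), (.s k1 k2 0 (.s k66 k129 8 (.s k127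
  k255 7 (.s k85 k64 6 (.s k169 k253 13 (.d k86 k252 k126 14 5))))))] (.c k129 (.l (.s k1 k2 0 (.s
  k43 k23 5 (.s k169 k232 8 (.s k85 k253 13 (.d k127 k64 k255 6 7)))))) .n)) (.c k191 (.l (.s k128
  k64 7 (.s k1 k2 0 (.s k129 k66 8 (.s k65 k193 7 (.d k130 k131 k195 0 8)))))) .n)))))

def t42_173 : T TT 256 :=
  (.f k192 k149 14 (.q k3 [(.s k43 k23 5 (.s k66 k129 8 (.s k169 k232 8 (.d k86 k126 k252 5 14)))),
  (.s k1 k2 0 (.s k128 k64 7 (.s k129 k66 8 (.s k65 k193 7 (.d k130 k131 k195 0 8))))), (.s k1 k2 0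
  (.s k43 k23 5 (.s k169 k232 8 (.s k85 k253 13 (.d k64 k128 k127 7 6)))))] (.c k86 (.l (.s k2 k1 0
  (.s k66 k129 8 (.s k130 k194 7 (.s k65 k195 8 (.d k64 k67 k128 0 7)))))) (.c k128 (.q k191 [(.s
  k43 k23 5 (.s k169 k232 8 (.s k86 k252 14 (.d k66 k126 k129 5 8)))), (.s k255 k127 7 (.s k171 k87
  13 (.s k151 k131 5 (.s k107 k195 13 (.d k43 k23 k235 5 7))))), (.s k1 k2 0 (.s k66 k129 8 (.s k127
  k255 7 (.s k85 k64 6 (.s k169 k253 13 (.d k86 k252 k126 14 5))))))] (.c k129 (.l (.s k1 k2 0 (.s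
  k43 k23 5 (.s k169 k232 8 (.s k85 k253 13 (.d k127 k64 k255 6 7)))))) .n)) (.c k191 (.l (.s k128
  k64 7 (.s k1 k2 0 (.s k129 k66 8 (.s k65 k193 7 (.d k130 k131 k195 0 8)))))) .n)))))

def t42_174 : T TT 256 :=
  (.q k3 [(.s k43 k23 5 (.s k169 k232 8 (.s k86 k252 14 (.s k192 k149 14 (.d k66 k126 k129 5 8))))),
  (.s k1 k2 0 (.s k192 k149 14 (.s k128 k64 7 (.s k129 k66 8 (.s k65 k193 7 (.d k130 k131 k195 0
  8)))))), (.s k23 k43 5 (.s k149 k192 14 (.s k86 k212 8 (.s k252 k169 14 (.d k126 k66 k189 5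
  8)))))] (.c k66 (.l (.s k43 k23 5 (.s k169 k232 8 (.s k252 k86 14 (.s k149 k192 14 (.d k189 k129
  k126 5 8)))))) (.c k86 (.l (.s k2 k1 0 (.s k192 k149 14 (.s k66 k129 8 (.s k130 k194 7 (.s k65
  k195 8 (.d k64 k128 k67 7 0))))))) (.c k149 (.f k43 k23 5 (.l (.s k1 k2 0 (.s k169 k232 8 (.s k85
  k253 13 (.s k86 k252 14 (.s k64 k127 6 (.s k66 k126 5 (.d k192 k128 k129 7 8))))))))) (.c k162 (.q
  k166 [(.s k43 k23 5 (.s k169 k232 8 (.s k86 k252 14 (.s k192 k149 14 (.d k66 k126 k129 5 8))))),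
  (.s k46 k226 9 (.s k12 k29 4 (.s k89 k243 14 (.s k192 k149 14 (.d k72 k123 k132 4 9))))), (.s k43
  k23 5 (.s k169 k232 8 (.s k86 k252 14 (.s k6 k246 11 (.s k12 k9 2 (.d k46 k29 k226 4 9))))))] (.c
  k192 (.l (.s k43 k23 5 (.s k169 k232 8 (.s k252 k86 14 (.s k46 k226 9 (.s k12 k29 4 (.d k172 k163
  k92 2 11))))))) .n)) (.c k166 (.q k162 [(.s k2 k1 0 (.s k243 k81 12 (.s k82 k242 11 (.s k161 k240
  12 (.d k163 k160 k83 0 11))))), (.s k23 k43 5 (.s k149 k192 14 (.s k86 k212 8 (.s k252 k169 14 (.d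
  k126 k66 k189 5 8)))))] (.c k163 (.l (.s k2 k1 0 (.s k81 k243 12 (.s k82 k242 11 (.s k240 k161 12
  (.d k80 k83 k160 0 11)))))) .n)) (.c k192 (.f k43 k23 5 (.l (.s k1 k2 0 (.s k169 k232 8 (.s k85
  k253 13 (.s k127 k64 6 (.s k255 k191 7 (.s k87 k171 13 (.d k86 k252 k84 14 0))))))))) .n)))))))

def t42_175 : T TT 256 :=
  (.q k252 [(.s k149 k192 14 (.s k126 k189 8 (.s k86 k66 5 (.s k23 k212 8 (.d k3 k43 k169 5 14))))),
  (.s k168 k84 13 (.s k192 k149 14 (.s k128 k64 7 (.s k148 k188 5 (.s k104 k60 13 (.d k232 k212 k40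
  5 7))))))] (.c k149 (.f k126 k189 8 (.l (.s k84 k168 13 (.s k86 k66 5 (.s k169 k3 14 (.s k232 k43
  8 (.s k85 k87 0 (.s k64 k127 6 (.d k192 k212 k128 5 7))))))))) (.c k160 (.q k165 [(.s k149 k192 14
  (.s k126 k189 8 (.s k86 k66 5 (.s k3 k169 14 (.d k23 k43 k212 5 8))))), (.s k47 k224 10 (.s k15
  k31 3 (.s k90 k240 14 (.s k192 k149 14 (.d k74 k122 k133 3 10)))))] (.c k149 (.l (.s k47 k224 10
  (.s k15 k31 3 (.s k90 k240 14 (.s k94 k173 12 (.s k126 k189 8 (.d k86 k82 k66 1 5))))))) (.c k192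
  (.l (.s k47 k224 10 (.s k15 k31 3 (.s k240 k90 14 (.s k126 k189 8 (.s k86 k66 5 (.d k244 k248 k7 1
  12))))))) .n))) (.c k165 (.q k160 [(.s k149 k192 14 (.s k126 k189 8 (.s k86 k66 5 (.s k23 k212 8
  (.d k3 k43 k169 5 14))))), (.s k240 k80 11 (.s k168 k84 13 (.s k164 k172 1 (.s k88 k12 13 (.d k248
  k244 k8 1 11)))))] .n) (.c k192 (.f k126 k189 8 (.l (.s k84 k168 13 (.s k86 k66 5 (.s k85 k87 0
  (.s k127 k64 6 (.s k255 k191 7 (.s k253 k254 0 (.d k169 k3 k1 14 13))))))))) (.c k212 (.l (.s k149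
  k192 14 (.s k189 k126 8 (.s k169 k129 5 (.s k3 k86 14 (.d k43 k23 k232 5 8)))))) .n))))))

def t42_176 : T TT 256 :=
  (.q k3 [(.s k43 k23 5 (.s k169 k232 8 (.s k86 k252 14 (.s k192 k149 14 (.d k66 k126 k129 5 8))))),
  (.s k1 k2 0 (.s k192 k149 14 (.s k128 k64 7 (.s k129 k66 8 (.s k65 k193 7 (.d k130 k131 k195 0
  8)))))), (.s k23 k43 5 (.s k149 k192 14 (.s k86 k212 8 (.s k252 k169 14 (.d k126 k66 k189 5
  8)))))] (.c k66 (.l (.s k43 k23 5 (.s k169 k232 8 (.s k252 k86 14 (.s k149 k192 14 (.d k189 k129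
  k126 5 8)))))) (.c k86 (.l (.s k2 k1 0 (.s k192 k149 14 (.s k66 k129 8 (.s k130 k194 7 (.s k65
  k195 8 (.d k64 k128 k67 7 0))))))) (.c k149 (.f k43 k23 5 (.l (.s k1 k2 0 (.s k169 k232 8 (.s k85
  k253 13 (.s k86 k252 14 (.s k64 k127 6 (.s k66 k126 5 (.d k192 k128 k129 7 8))))))))) (.c k192 (.f
  k43 k23 5 (.l (.s k1 k2 0 (.s k169 k232 8 (.s k85 k253 13 (.s k127 k64 6 (.s k255 k191 7 (.s k87
  k171 13 (.d k86 k252 k84 14 0))))))))) .n)))))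

def t42_177 : T TT 256 :=
  (.f k192 k149 14 (.q k3 [(.s k43 k23 5 (.s k169 k232 8 (.s k86 k252 14 (.d k66 k126 k129 5 8)))),
  (.s k1 k2 0 (.s k128 k64 7 (.s k129 k66 8 (.s k65 k193 7 (.d k130 k131 k195 0 8))))), (.s k1 k2 0
  (.s k43 k23 5 (.s k169 k232 8 (.s k85 k253 13 (.d k64 k128 k127 7 6)))))] (.c k86 (.l (.s k2 k1 0
  (.s k66 k129 8 (.s k130 k194 7 (.s k65 k195 8 (.d k64 k67 k128 0 7)))))) (.c k128 (.q k191 [(.s
  k43 k23 5 (.s k169 k232 8 (.s k86 k252 14 (.d k66 k126 k129 5 8)))), (.s k255 k127 7 (.s k171 k87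
  13 (.s k151 k131 5 (.s k107 k195 13 (.d k43 k23 k235 5 7))))), (.s k1 k2 0 (.s k66 k129 8 (.s k127
  k255 7 (.s k85 k64 6 (.s k169 k253 13 (.d k86 k252 k126 14 5))))))] (.c k129 (.l (.s k1 k2 0 (.s
  k43 k23 5 (.s k169 k232 8 (.s k85 k253 13 (.d k127 k64 k255 6 7)))))) .n)) (.c k191 (.l (.s k128
  k64 7 (.s k1 k2 0 (.s k129 k66 8 (.s k65 k193 7 (.d k130 k131 k195 0 8)))))) .n)))))

def t42_178 : T TT 256 :=
  (.f k192 k149 14 (.q k252 [(.s k126 k189 8 (.s k86 k66 5 (.s k169 k3 14 (.d k232 k212 k43 5 8)))),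
  (.s k128 k64 7 (.s k168 k84 13 (.s k148 k188 5 (.s k104 k60 13 (.d k232 k212 k40 5 7))))), (.s k84
  k168 13 (.s k126 k189 8 (.s k86 k66 5 (.s k85 k87 0 (.d k64 k128 k127 7 6)))))] (.c k128 (.q k191
  [(.s k126 k189 8 (.s k86 k66 5 (.s k169 k3 14 (.d k232 k212 k43 5 8)))), (.s k189 k126 8 (.s k255
  k127 7 (.s k190 k188 0 (.s k125 k60 8 (.d k253 k254 k61 0 7))))), (.s k84 k168 13 (.s k127 k255 7
  (.s k64 k85 6 (.s k104 k124 5 (.s k148 k60 13 (.d k212 k232 k20 5 7))))))] .n) (.c k191 (.l (.s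
  k128 k64 7 (.s k168 k84 13 (.s k148 k188 5 (.s k104 k60 13 (.d k232 k212 k40 5 7)))))) .n))))

def t42_179 : T TT 256 :=
  (.q k3 [(.s k43 k23 5 (.s k169 k232 8 (.s k86 k252 14 (.s k192 k149 14 (.d k66 k126 k129 5 8))))),
  (.s k1 k2 0 (.s k192 k149 14 (.s k128 k64 7 (.s k129 k66 8 (.s k65 k193 7 (.d k130 k131 k195 0
  8)))))), (.s k23 k43 5 (.s k149 k192 14 (.s k86 k212 8 (.s k252 k169 14 (.d k126 k66 k189 5
  8)))))] (.c k66 (.l (.s k43 k23 5 (.s k169 k232 8 (.s k252 k86 14 (.s k149 k192 14 (.d k189 k129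
  k126 5 8)))))) (.c k86 (.l (.s k2 k1 0 (.s k192 k149 14 (.s k66 k129 8 (.s k130 k194 7 (.s k65
  k195 8 (.d k64 k128 k67 7 0))))))) (.c k149 (.f k43 k23 5 (.l (.s k1 k2 0 (.s k169 k232 8 (.s k85
  k253 13 (.s k86 k252 14 (.s k64 k127 6 (.s k66 k126 5 (.d k192 k128 k129 7 8))))))))) (.c k192 (.f
  k43 k23 5 (.l (.s k1 k2 0 (.s k169 k232 8 (.s k85 k253 13 (.s k127 k64 6 (.s k255 k191 7 (.s k87
  k171 13 (.d k86 k252 k84 14 0))))))))) .n)))))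

def t42_180 : T TT 256 :=
  (.f k192 k149 14 (.q k252 [(.s k126 k189 8 (.s k86 k66 5 (.s k169 k3 14 (.d k232 k212 k43 5 8)))),
  (.s k128 k64 7 (.s k168 k84 13 (.s k148 k188 5 (.s k104 k60 13 (.d k232 k212 k40 5 7))))), (.s k84
  k168 13 (.s k126 k189 8 (.s k86 k66 5 (.s k85 k87 0 (.d k64 k128 k127 7 6)))))] (.c k128 (.q k191
  [(.s k126 k189 8 (.s k86 k66 5 (.s k169 k3 14 (.d k232 k212 k43 5 8)))), (.s k189 k126 8 (.s k255
  k127 7 (.s k190 k188 0 (.s k125 k60 8 (.d k253 k254 k61 0 7))))), (.s k84 k168 13 (.s k127 k255 7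
  (.s k64 k85 6 (.s k104 k124 5 (.s k148 k60 13 (.d k212 k232 k20 5 7))))))] .n) (.c k191 (.l (.s
  k128 k64 7 (.s k168 k84 13 (.s k148 k188 5 (.s k104 k60 13 (.d k232 k212 k40 5 7)))))) .n))))

def t42_181 : T TT 256 :=
  (.q k252 [(.s k149 k192 14 (.s k189 k126 8 (.s k169 k129 5 (.s k3 k86 14 (.d k43 k23 k232 5
  8))))), (.s k168 k84 13 (.s k192 k149 14 (.s k128 k64 7 (.s k148 k188 5 (.s k104 k60 13 (.d k232
  k212 k40 5 7))))))] (.c k149 (.f k126 k189 8 (.l (.s k84 k168 13 (.s k86 k66 5 (.s k169 k3 14 (.s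
  k232 k43 8 (.s k85 k87 0 (.s k64 k127 6 (.d k192 k212 k128 5 7))))))))) (.c k192 (.f k126 k189 8
  (.l (.s k84 k168 13 (.s k86 k66 5 (.s k85 k87 0 (.s k127 k64 6 (.s k255 k191 7 (.s k253 k254 0 (.d
  k169 k3 k1 14 13))))))))) (.c k232 (.l (.s k149 k192 14 (.s k126 k189 8 (.s k86 k66 5 (.s k3 k169
  14 (.d k23 k43 k212 5 8)))))) .n))))

def t42_182 : T TT 256 :=
  (.f k192 k149 14 (.q k3 [(.s k43 k23 5 (.s k66 k129 8 (.s k169 k232 8 (.d k86 k126 k252 5 14)))),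
  (.s k1 k2 0 (.s k128 k64 7 (.s k129 k66 8 (.s k65 k193 7 (.d k130 k131 k195 0 8))))), (.s k1 k2 0
  (.s k43 k23 5 (.s k169 k232 8 (.s k85 k253 13 (.d k64 k128 k127 7 6)))))] (.c k86 (.l (.s k2 k1 0
  (.s k66 k129 8 (.s k130 k194 7 (.s k65 k195 8 (.d k64 k67 k128 0 7)))))) (.c k128 (.q k191 [(.s
  k43 k23 5 (.s k169 k232 8 (.s k86 k252 14 (.d k66 k126 k129 5 8)))), (.s k255 k127 7 (.s k171 k87
  13 (.s k151 k131 5 (.s k107 k195 13 (.d k43 k23 k235 5 7))))), (.s k1 k2 0 (.s k66 k129 8 (.s k127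
  k255 7 (.s k85 k64 6 (.s k169 k253 13 (.d k86 k252 k126 14 5))))))] (.c k129 (.l (.s k1 k2 0 (.s
  k43 k23 5 (.s k169 k232 8 (.s k85 k253 13 (.d k127 k64 k255 6 7)))))) .n)) (.c k191 (.l (.s k128
  k64 7 (.s k1 k2 0 (.s k129 k66 8 (.s k65 k193 7 (.d k130 k131 k195 0 8)))))) .n)))))

def t42_183 : T TT 256 :=
  (.q k252 [(.s k149 k192 14 (.s k126 k189 8 (.s k86 k66 5 (.s k23 k212 8 (.d k3 k43 k169 5 14))))),
  (.s k168 k84 13 (.s k192 k149 14 (.s k128 k64 7 (.s k148 k188 5 (.s k104 k60 13 (.d k232 k212 k40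
  5 7))))))] (.c k149 (.f k126 k189 8 (.l (.s k84 k168 13 (.s k86 k66 5 (.s k169 k3 14 (.s k232 k43
  8 (.s k85 k87 0 (.s k64 k127 6 (.d k192 k212 k128 5 7))))))))) (.c k192 (.f k126 k189 8 (.l (.s
  k84 k168 13 (.s k86 k66 5 (.s k85 k87 0 (.s k127 k64 6 (.s k255 k191 7 (.s k253 k254 0 (.d k169 k3
  k1 14 13))))))))) (.c k212 (.l (.s k149 k192 14 (.s k189 k126 8 (.s k169 k129 5 (.s k3 k86 14 (.d
  k43 k23 k232 5 8)))))) .n))))

def t42_184 : T TT 256 :=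
  (.f k192 k149 14 (.q k3 [(.s k43 k23 5 (.s k66 k129 8 (.s k169 k232 8 (.d k86 k126 k252 5 14)))),
  (.s k1 k2 0 (.s k128 k64 7 (.s k129 k66 8 (.s k65 k193 7 (.d k130 k131 k195 0 8))))), (.s k1 k2 0
  (.s k43 k23 5 (.s k169 k232 8 (.s k85 k253 13 (.d k64 k128 k127 7 6)))))] (.c k86 (.l (.s k2 k1 0
  (.s k66 k129 8 (.s k130 k194 7 (.s k65 k195 8 (.d k64 k67 k128 0 7)))))) (.c k128 (.q k191 [(.s
  k43 k23 5 (.s k169 k232 8 (.s k86 k252 14 (.d k66 k126 k129 5 8)))), (.s k255 k127 7 (.s k171 k87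
  13 (.s k151 k131 5 (.s k107 k195 13 (.d k43 k23 k235 5 7))))), (.s k1 k2 0 (.s k66 k129 8 (.s k127
  k255 7 (.s k85 k64 6 (.s k169 k253 13 (.d k86 k252 k126 14 5))))))] (.c k129 (.l (.s k1 k2 0 (.s
  k43 k23 5 (.s k169 k232 8 (.s k85 k253 13 (.d k127 k64 k255 6 7)))))) .n)) (.c k191 (.l (.s k128
  k64 7 (.s k1 k2 0 (.s k129 k66 8 (.s k65 k193 7 (.d k130 k131 k195 0 8)))))) .n)))))

def t42_185 : T TT 256 :=
  (.f k192 k149 14 (.q k51 [(.s k59 k55 1 (.s k98 k145 12 (.s k153 k200 12 (.d k102 k110 k204 1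
  14)))), (.s k17 k34 4 (.s k128 k64 7 (.s k145 k98 12 (.s k81 k209 7 (.d k162 k179 k243 4 12))))),
  (.s k17 k34 4 (.s k59 k55 1 (.s k153 k200 12 (.s k85 k221 9 (.d k64 k128 k127 7 6)))))] (.c k102
  (.l (.s k34 k17 4 (.s k98 k145 12 (.s k162 k226 7 (.s k81 k243 12 (.d k64 k115 k128 4 7)))))) (.c
  k128 (.q k191 [(.s k59 k55 1 (.s k153 k200 12 (.s k102 k204 14 (.d k98 k110 k145 1 12)))), (.s
  k255 k127 7 (.s k187 k119 9 (.s k183 k179 1 (.s k123 k243 9 (.d k59 k55 k251 1 7))))), (.s k17 k34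
  4 (.s k98 k145 12 (.s k127 k255 7 (.s k85 k64 6 (.s k153 k221 9 (.d k102 k204 k110 14 1))))))] (.c
  k145 (.l (.s k17 k34 4 (.s k59 k55 1 (.s k153 k200 12 (.s k85 k221 9 (.d k127 k64 k255 6 7))))))
  .n)) (.c k191 (.l (.s k128 k64 7 (.s k17 k34 4 (.s k145 k98 12 (.s k81 k209 7 (.d k162 k179 k243 4
  12)))))) .n)))))

def t42_186 : T TT 256 :=
  (.q k252 [(.s k149 k192 14 (.s k126 k189 8 (.s k86 k66 5 (.s k23 k212 8 (.d k3 k43 k169 5 14))))),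
  (.s k168 k84 13 (.s k192 k149 14 (.s k128 k64 7 (.s k148 k188 5 (.s k104 k60 13 (.d k232 k212 k40
  5 7))))))] (.c k138 (.q k154 [(.s k149 k192 14 (.s k126 k189 8 (.s k86 k66 5 (.s k3 k169 14 (.d
  k23 k43 k212 5 8))))), (.s k58 k202 11 (.s k48 k53 2 (.s k101 k207 14 (.s k192 k149 14 (.d k96
  k111 k144 2 11)))))] (.c k149 (.l (.s k58 k202 11 (.s k48 k53 2 (.s k101 k207 14 (.s k116 k184 9
  (.s k126 k189 8 (.d k86 k71 k66 4 5))))))) (.c k192 (.l (.s k58 k202 11 (.s k48 k53 2 (.s k207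
  k101 14 (.s k126 k189 8 (.s k86 k66 5 (.d k222 k237 k18 4 9))))))) .n))) (.c k149 (.f k126 k189 8
  (.l (.s k84 k168 13 (.s k86 k66 5 (.s k169 k3 14 (.s k232 k43 8 (.s k85 k87 0 (.s k64 k127 6 (.d
  k192 k212 k128 5 7))))))))) (.c k154 (.q k138 [(.s k149 k192 14 (.s k126 k189 8 (.s k86 k66 5 (.s
  k23 k212 8 (.d k3 k43 k169 5 14))))), (.s k69 k207 10 (.s k192 k149 14 (.s k128 k64 7 (.s k133
  k143 2 (.s k5 k197 7 (.d k15 k10 k74 2 10))))))] (.c k149 (.l (.s k207 k69 10 (.s k126 k189 8 (.s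
  k86 k66 5 (.s k169 k3 14 (.s k237 k222 4 (.s k101 k33 9 (.d k111 k96 k159 2 11)))))))) (.c k192
  (.l (.s k207 k69 10 (.s k111 k159 11 (.s k126 k189 8 (.s k86 k66 5 (.s k3 k169 14 (.s k101 k96 2
  (.d k71 k139 k116 9 4)))))))) .n))) (.c k192 (.f k126 k189 8 (.l (.s k84 k168 13 (.s k86 k66 5 (.s
  k85 k87 0 (.s k127 k64 6 (.s k255 k191 7 (.s k253 k254 0 (.d k169 k3 k1 14 13))))))))) (.c k212
  (.l (.s k149 k192 14 (.s k189 k126 8 (.s k169 k129 5 (.s k3 k86 14 (.d k43 k23 k232 5 8))))))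
  .n))))))

def t42_187 : T TT 256 :=
  (.q k3 [(.s k43 k23 5 (.s k169 k232 8 (.s k86 k252 14 (.s k192 k149 14 (.d k66 k126 k129 5 8))))),
  (.s k1 k2 0 (.s k192 k149 14 (.s k128 k64 7 (.s k129 k66 8 (.s k65 k193 7 (.d k130 k131 k195 0
  8)))))), (.s k23 k43 5 (.s k149 k192 14 (.s k86 k212 8 (.s k252 k169 14 (.d k126 k66 k189 5
  8)))))] (.c k66 (.l (.s k43 k23 5 (.s k169 k232 8 (.s k252 k86 14 (.s k149 k192 14 (.d k189 k129
  k126 5 8)))))) (.c k86 (.l (.s k2 k1 0 (.s k192 k149 14 (.s k66 k129 8 (.s k130 k194 7 (.s k65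
  k195 8 (.d k64 k128 k67 7 0))))))) (.c k136 (.q k153 [(.s k43 k23 5 (.s k169 k232 8 (.s k86 k252
  14 (.s k192 k149 14 (.d k66 k126 k129 5 8))))), (.s k59 k200 12 (.s k51 k55 1 (.s k102 k204 14 (.s
  k192 k149 14 (.d k98 k110 k145 1 12))))), (.s k43 k23 5 (.s k169 k232 8 (.s k86 k252 14 (.s k19
  k220 10 (.s k51 k35 3 (.d k59 k55 k200 1 12))))))] (.c k192 (.l (.s k43 k23 5 (.s k169 k232 8 (.s
  k252 k86 14 (.s k59 k200 12 (.s k51 k55 1 (.d k185 k137 k118 3 10))))))) .n)) (.c k149 (.f k43 k23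
  5 (.l (.s k1 k2 0 (.s k169 k232 8 (.s k85 k253 13 (.s k86 k252 14 (.s k64 k127 6 (.s k66 k126 5
  (.d k192 k128 k129 7 8))))))))) (.c k153 (.q k136 [(.s k204 k68 9 (.s k137 k70 10 (.s k138 k139 0
  (.s k69 k207 10 (.d k1 k2 k205 0 9))))), (.s k23 k43 5 (.s k149 k192 14 (.s k86 k212 8 (.s k126
  k66 5 (.d k252 k189 k169 8 14)))))] .n) (.c k192 (.f k43 k23 5 (.l (.s k1 k2 0 (.s k169 k232 8 (.s
  k85 k253 13 (.s k127 k64 6 (.s k255 k191 7 (.s k87 k171 13 (.d k86 k252 k84 14 0)))))))))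
  .n)))))))

def t42_188 : T TT 256 :=
  (.f k192 k149 14 (.f k128 k64 7 (.q k132 [(.s k72 k12 9 (.s k136 k140 1 (.s k204 k68 9 (.d k200
  k196 k8 1 7)))), (.s k72 k12 9 (.s k123 k89 4 (.s k243 k183 9 (.s k162 k81 12 (.s k145 k179 4 (.s
  k98 k51 12 (.d k226 k209 k34 4 7))))))), (.s k136 k140 1 (.s k204 k68 9 (.s k110 k157 12 (.s k102
  k98 1 (.s k153 k51 14 (.d k200 k196 k59 1 12))))))] (.c k72 (.q k51 [(.s k59 k55 1 (.s k153 k200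
  12 (.s k136 k140 1 (.d k204 k68 k102 9 14)))), (.s k145 k98 12 (.s k162 k179 4 (.s k81 k243 12 (.d
  k17 k34 k209 4 7))))] (.c k68 (.q k76 [(.s k59 k55 1 (.s k140 k136 1 (.s k204 k12 7 (.d k153 k200
  k102 12 14)))), (.s k145 k98 12 (.s k162 k179 4 (.s k81 k243 12 (.d k17 k34 k209 4 7))))] .n) (.c
  k76 (.q k68 [(.d k136 k140 k204 1 9), (.s k17 k34 4 (.s k145 k98 12 (.s k81 k209 7 (.d k162 k179
  k243 4 12))))] .n) .n))) .n))))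

def t42_189 : T TT 256 :=
  (.f k192 k149 14 (.f k128 k64 7 (.q k130 [(.s k195 k65 8 (.s k129 k131 0 (.s k66 k3 8 (.d k194
  k193 k2 0 7)))), (.s k195 k65 8 (.s k107 k151 13 (.s k105 k104 0 (.s k150 k60 14 (.d k194 k193 k62
  0 13)))))] (.c k65 (.l (.s k129 k131 0 (.s k66 k3 8 (.s k194 k2 7 (.s k195 k193 0 (.s k107 k151 13
  (.s k105 k104 0 (.d k150 k62 k60 13 14)))))))) (.c k66 (.q k169 [(.s k43 k232 8 (.s k3 k23 5 (.s
  k131 k129 0 (.d k195 k67 k65 7 8)))), (.s k131 k129 0 (.s k150 k188 6 (.s k194 k62 13 (.d k195 k65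
  k193 8 0)))), (.s k232 k43 8 (.s k252 k212 5 (.s k168 k84 13 (.s k148 k188 5 (.d k104 k40 k60 7
  13)))))] (.c k65 (.q k67 [(.s k43 k232 8 (.s k3 k23 5 (.d k131 k129 k195 0 7))), (.s k131 k129 0
  (.s k195 k3 7 (.s k150 k188 6 (.d k194 k193 k62 0 13)))), (.s k232 k43 8 (.s k252 k212 5 (.s k168
  k84 13 (.s k148 k188 5 (.d k104 k40 k60 7 13)))))] .n) (.c k67 (.l (.s k65 k195 8 (.s k43 k232 8
  (.s k3 k23 5 (.s k1 k2 0 (.d k129 k131 k193 0 7)))))) .n))) (.c k67 (.l (.s k65 k195 8 (.s k129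
  k131 0 (.s k3 k66 8 (.d k1 k2 k193 0 7))))) (.c k129 (.q k169 [(.s k43 k232 8 (.s k3 k23 5 (.s k86
  k252 14 (.s k66 k126 5 (.d k2 k1 k194 0 7))))), (.s k195 k65 8 (.s k107 k151 13 (.s k105 k104 0
  (.s k150 k60 14 (.d k194 k193 k62 0 13))))), (.s k232 k43 8 (.s k252 k212 5 (.s k168 k84 13 (.s
  k148 k188 5 (.d k104 k40 k60 7 13)))))] .n) (.c k169 (.l (.s k129 k131 0 (.s k65 k195 8 (.s k1
  k193 7 (.d k3 k2 k66 0 8))))) (.c k193 (.l (.s k195 k65 8 (.s k107 k151 13 (.s k105 k104 0 (.s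
  k150 k60 14 (.s k194 k62 13 (.s k129 k131 0 (.d k66 k2 k3 7 8)))))))) (.c k194 (.l (.s k65 k195 8
  (.s k129 k131 0 (.s k1 k193 7 (.d k3 k2 k66 0 8))))) (.c k195 (.q k169 [(.s k43 k232 8 (.s k129
  k131 0 (.d k3 k23 k66 5 8))), (.s k232 k43 8 (.s k131 k129 0 (.s k188 k150 6 (.s k252 k212 5 (.d
  k168 k148 k84 5 13))))), (.s k43 k232 8 (.s k3 k23 5 (.s k2 k1 0 (.s k66 k194 7 (.d k86 k126 k252
  5 14)))))] (.c k23 (.l (.s k232 k43 8 (.s k129 k131 0 (.s k3 k66 8 (.d k252 k212 k86 5 14))))) (.c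
  k43 (.l (.s k129 k131 0 (.s k3 k66 8 (.s k252 k86 14 (.s k168 k84 13 (.s k148 k188 5 (.s k104 k60
  13 (.d k232 k212 k40 5 7)))))))) (.c k232 (.q k51 [(.s k145 k98 12 (.s k162 k179 4 (.s k81 k243 12
  (.d k17 k34 k209 4 7)))), (.s k59 k55 1 (.s k153 k200 12 (.s k102 k204 14 (.s k35 k236 10 (.s k3
  k19 3 (.d k129 k131 k66 0 8))))))] .n) .n)))) .n)))))))))))

def t42_190 : T TT 256 :=
  (.q k3 [(.s k43 k23 5 (.s k169 k232 8 (.s k86 k252 14 (.s k192 k149 14 (.d k66 k126 k129 5 8))))),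
  (.s k1 k2 0 (.s k192 k149 14 (.s k128 k64 7 (.s k129 k66 8 (.s k65 k193 7 (.d k130 k131 k195 0
  8)))))), (.s k23 k43 5 (.s k149 k192 14 (.s k86 k212 8 (.s k252 k169 14 (.d k126 k66 k189 5
  8)))))] (.c k66 (.l (.s k43 k23 5 (.s k169 k232 8 (.s k252 k86 14 (.s k149 k192 14 (.d k189 k129
  k126 5 8)))))) (.c k86 (.l (.s k2 k1 0 (.s k192 k149 14 (.s k66 k129 8 (.s k130 k194 7 (.s k65
  k195 8 (.d k64 k128 k67 7 0))))))) (.c k130 (.q k150 [(.s k43 k23 5 (.s k169 k232 8 (.s k86 k252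
  14 (.s k192 k149 14 (.d k66 k126 k129 5 8))))), (.s k62 k194 13 (.s k60 k61 0 (.s k105 k195 14 (.s
  k192 k149 14 (.d k104 k107 k148 0 13))))), (.s k43 k23 5 (.s k169 k232 8 (.s k86 k252 14 (.s k22
  k214 7 (.s k60 k41 6 (.d k62 k61 k194 0 13))))))] (.c k192 (.l (.s k43 k23 5 (.s k169 k232 8 (.s
  k252 k86 14 (.s k62 k194 13 (.s k60 k61 0 (.d k188 k131 k124 6 7))))))) .n)) (.c k149 (.f k43 k23
  5 (.l (.s k1 k2 0 (.s k169 k232 8 (.s k85 k253 13 (.s k86 k252 14 (.s k64 k127 6 (.s k66 k126 5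
  (.d k192 k128 k129 7 8))))))))) (.c k150 (.q k130 [(.s k2 k1 0 (.s k66 k194 7 (.d k192 k129 k149 8
  14))), (.s k192 k149 14 (.s k128 k64 7 (.s k131 k129 0 (.d k195 k67 k65 7 8)))), (.s k2 k1 0 (.s
  k66 k194 7 (.s k43 k23 5 (.s k169 k232 8 (.d k86 k126 k252 5 14)))))] .n) (.c k192 (.f k43 k23 5
  (.l (.s k1 k2 0 (.s k169 k232 8 (.s k85 k253 13 (.s k127 k64 6 (.s k255 k191 7 (.s k87 k171 13 (.d
  k86 k252 k84 14 0))))))))) .n)))))))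

def t42_191 : T TT 256 :=
  (.f k192 k149 14 (.f k128 k64 7 (.q k252 [(.s k168 k84 13 (.s k148 k188 5 (.s k104 k60 13 (.d k232
  k212 k40 5 7)))), (.s k232 k212 5 (.s k169 k43 8 (.s k86 k3 14 (.d k126 k66 k189 5 8)))), (.s k126
  k189 8 (.s k66 k86 5 (.s k129 k3 8 (.s k130 k131 0 (.s k195 k65 8 (.d k194 k2 k193 7 0))))))] (.c
  k189 (.l (.s k168 k84 13 (.s k232 k212 5 (.s k104 k40 7 (.d k148 k188 k60 5 13))))) (.c k212 (.q
  k86 [(.d k126 k66 k189 5 8), (.s k168 k84 13 (.s k169 k3 14 (.s k232 k43 8 (.s k148 k188 5 (.d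
  k104 k40 k60 7 13)))))] (.c k189 (.l (.s k66 k126 5 (.d k3 k129 k169 8 14))) .n)) .n)))))

def t42_192_1 : T TT 256 :=
  (.q k252 [(.s k60 k61 0 (.s k124 k188 7 (.s k126 k189 8 (.s k125 k127 0 (.d k190 k254 k255 7
  8))))), (.s k150 k194 13 (.s k126 k189 8 (.s k86 k66 5 (.s k214 k22 7 (.s k195 k233 6 (.d k60 k61
  k105 0 14)))))), (.s k84 k168 13 (.s k126 k189 8 (.s k254 k190 7 (.s k86 k66 5 (.s k85 k87 0 (.s
  k127 k64 6 (.d k255 k191 k253 7 0))))))), (.s k168 k84 13 (.s k60 k61 0 (.s k40 k20 5 (.s k104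
  k232 7 (.s k150 k194 13 (.d k105 k195 k107 14 0))))))] .n)

def t42_192_2 : T TT 256 :=
  (.f k150 k194 13 (.l (.s k60 k61 0 (.s k20 k40 5 (.s k85 k215 8 (.s k127 k64 6 (.s k255 k191 7 (.s
  k125 k190 8 (.d k105 k65 k195 5 14)))))))))

def t42_192_3 : T TT 256 :=
  (.f k150 k194 13 (.l (.s k60 k61 0 (.s k20 k40 5 (.s k85 k215 8 (.s k127 k64 6 (.s k255 k191 7 (.s
  k125 k190 8 (.d k105 k65 k195 5 14)))))))))

def t42_192_4 : T TT 256 :=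
  (.f k150 k194 13 (.l (.s k60 k61 0 (.s k20 k40 5 (.s k85 k215 8 (.s k127 k64 6 (.s k255 k191 7 (.s
  k125 k190 8 (.d k105 k65 k195 5 14)))))))))

def t42_192_5 : T TT 256 :=
  (.f k150 k194 13 (.l (.s k60 k61 0 (.s k20 k40 5 (.s k85 k215 8 (.s k127 k64 6 (.s k255 k191 7 (.s
  k125 k190 8 (.d k105 k65 k195 5 14)))))))))

def t42_192_6 : T TT 256 :=
  (.f k150 k194 13 (.l (.s k60 k61 0 (.s k20 k40 5 (.s k85 k215 8 (.s k127 k64 6 (.s k255 k191 7 (.s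
  k125 k190 8 (.d k105 k65 k195 5 14)))))))))

def t42_192_7 : T TT 256 :=
  (.f k150 k194 13 (.l (.s k60 k61 0 (.s k20 k40 5 (.s k85 k215 8 (.s k127 k64 6 (.s k255 k191 7 (.s
  k125 k190 8 (.d k105 k65 k195 5 14)))))))))

def t42_192_8 : T TT 256 :=
  (.f k150 k194 13 (.l (.s k60 k61 0 (.s k20 k40 5 (.s k85 k215 8 (.s k127 k64 6 (.s k255 k191 7 (.s
  k125 k190 8 (.d k105 k65 k195 5 14)))))))))

def t42_192_9 : T TT 256 :=
  (.f k150 k194 13 (.l (.s k60 k61 0 (.s k20 k40 5 (.s k85 k215 8 (.s k127 k64 6 (.s k255 k191 7 (.s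
  k125 k190 8 (.d k105 k65 k195 5 14)))))))))

def t42_192_10 : T TT 256 :=
  (.f k150 k194 13 (.l (.s k60 k61 0 (.s k20 k40 5 (.s k85 k215 8 (.s k127 k64 6 (.s k255 k191 7 (.s
  k125 k190 8 (.d k105 k65 k195 5 14)))))))))

def t42_192_11 : T TT 256 :=
  (.f k150 k194 13 (.l (.s k60 k61 0 (.s k20 k40 5 (.s k85 k215 8 (.s k127 k64 6 (.s k255 k191 7 (.s
  k125 k190 8 (.d k105 k65 k195 5 14)))))))))

def t42_192_12 : T TT 256 :=
  (.f k150 k194 13 (.l (.s k60 k61 0 (.s k20 k40 5 (.s k85 k215 8 (.s k127 k64 6 (.s k255 k191 7 (.s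
  k125 k190 8 (.d k105 k65 k195 5 14)))))))))

def t42_192_13 : T TT 256 :=
  (.f k150 k194 13 (.l (.s k60 k61 0 (.s k20 k40 5 (.s k85 k215 8 (.s k127 k64 6 (.s k255 k191 7 (.s
  k125 k190 8 (.d k105 k65 k195 5 14)))))))))

def t42_192_14 : T TT 256 :=
  (.f k150 k194 13 (.l (.s k60 k61 0 (.s k20 k40 5 (.s k85 k215 8 (.s k127 k64 6 (.s k255 k191 7 (.s
  k125 k190 8 (.d k105 k65 k195 5 14)))))))))

def t42_192_15 : T TT 256 :=
  (.f k150 k194 13 (.l (.s k60 k61 0 (.s k20 k40 5 (.s k85 k215 8 (.s k127 k64 6 (.s k255 k191 7 (.s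
  k125 k190 8 (.d k105 k65 k195 5 14)))))))))

def t42_192_16 : T TT 256 :=
  (.f k150 k194 13 (.l (.s k60 k61 0 (.s k20 k40 5 (.s k85 k215 8 (.s k127 k64 6 (.s k255 k191 7 (.s
  k125 k190 8 (.d k105 k65 k195 5 14)))))))))

def t42_192_17 : T TT 256 :=
  (.f k150 k194 13 (.l (.s k60 k61 0 (.s k20 k40 5 (.s k85 k215 8 (.s k127 k64 6 (.s k255 k191 7 (.s
  k125 k190 8 (.d k105 k65 k195 5 14)))))))))

def t42_192_18 : T TT 256 :=
  (.f k150 k194 13 (.l (.s k60 k61 0 (.s k20 k40 5 (.s k85 k215 8 (.s k127 k64 6 (.s k255 k191 7 (.s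
  k125 k190 8 (.d k105 k65 k195 5 14)))))))))

def t42_192_19 : T TT 256 :=
  (.f k150 k194 13 (.l (.s k60 k61 0 (.s k20 k40 5 (.s k85 k215 8 (.s k127 k64 6 (.s k255 k191 7 (.s
  k125 k190 8 (.d k105 k65 k195 5 14)))))))))

def t42_192_20 : T TT 256 :=
  (.q k252 [(.s k60 k61 0 (.s k124 k188 7 (.s k126 k189 8 (.s k125 k127 0 (.d k190 k254 k255 7
  8))))), (.s k84 k168 13 (.s k60 k61 0 (.s k124 k188 7 (.s k150 k194 13 (.s k104 k64 5 (.d k105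
  k195 k107 14 0)))))), (.s k84 k168 13 (.s k126 k189 8 (.s k254 k190 7 (.s k86 k66 5 (.s k85 k87 0
  (.s k127 k64 6 (.d k255 k191 k253 7 0)))))))] (.c k188 (.l (.s k60 k61 0 (.s k150 k194 13 (.s k195
  k105 14 (.s k126 k189 8 (.s k86 k66 5 (.d k214 k233 k22 6 7))))))) .n))

def t42_192_21 : T TT 256 :=
  (.q k252 [(.s k60 k61 0 (.s k124 k188 7 (.s k126 k189 8 (.s k125 k127 0 (.d k190 k254 k255 7
  8))))), (.s k150 k194 13 (.s k126 k189 8 (.s k86 k66 5 (.s k214 k22 7 (.s k195 k233 6 (.d k60 k61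
  k105 0 14)))))), (.s k84 k168 13 (.s k126 k189 8 (.s k254 k190 7 (.s k86 k66 5 (.s k85 k87 0 (.s
  k127 k64 6 (.d k255 k191 k253 7 0))))))), (.s k168 k84 13 (.s k60 k61 0 (.s k40 k20 5 (.s k104
  k232 7 (.s k150 k194 13 (.d k105 k195 k107 14 0))))))] .n)

def t42_192_22 : T TT 256 :=
  (.q k252 [(.s k60 k61 0 (.s k124 k188 7 (.s k126 k189 8 (.s k125 k127 0 (.d k190 k254 k255 7
  8))))), (.s k168 k84 13 (.s k60 k61 0 (.s k40 k20 5 (.s k104 k232 7 (.s k150 k194 13 (.d k105 k195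
  k107 14 0)))))), (.s k84 k168 13 (.s k126 k189 8 (.s k254 k190 7 (.s k86 k66 5 (.s k85 k87 0 (.s
  k127 k64 6 (.d k255 k191 k253 7 0)))))))] .n)

def t42_192_23 : T TT 256 :=
  (.q k252 [(.s k60 k61 0 (.s k124 k188 7 (.s k126 k189 8 (.s k125 k127 0 (.d k190 k254 k255 7
  8))))), (.s k168 k84 13 (.s k60 k61 0 (.s k40 k20 5 (.s k104 k232 7 (.s k150 k194 13 (.d k105 k195
  k107 14 0)))))), (.s k84 k168 13 (.s k126 k189 8 (.s k254 k190 7 (.s k86 k66 5 (.s k85 k87 0 (.s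
  k127 k64 6 (.d k255 k191 k253 7 0)))))))] .n)

def t42_192_24 : T TT 256 :=
  (.q k252 [(.s k60 k61 0 (.s k124 k188 7 (.s k126 k189 8 (.s k125 k127 0 (.d k190 k254 k255 7
  8))))), (.s k168 k84 13 (.s k60 k61 0 (.s k40 k20 5 (.s k104 k232 7 (.s k150 k194 13 (.d k105 k195
  k107 14 0)))))), (.s k84 k168 13 (.s k126 k189 8 (.s k254 k190 7 (.s k86 k66 5 (.s k85 k87 0 (.s
  k127 k64 6 (.d k255 k191 k253 7 0)))))))] .n)

def t42_192_25 : T TT 256 :=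
  (.f k150 k194 13 (.l (.s k60 k61 0 (.s k20 k40 5 (.s k85 k215 8 (.s k127 k64 6 (.s k255 k191 7 (.s
  k125 k190 8 (.d k105 k65 k195 5 14)))))))))

def t42_192_26 : T TT 256 :=
  (.f k150 k194 13 (.l (.s k60 k61 0 (.s k20 k40 5 (.s k85 k215 8 (.s k127 k64 6 (.s k255 k191 7 (.s
  k125 k190 8 (.d k105 k65 k195 5 14)))))))))

def t42_192_27 : T TT 256 :=
  (.f k150 k194 13 (.l (.s k60 k61 0 (.s k20 k40 5 (.s k85 k215 8 (.s k127 k64 6 (.s k255 k191 7 (.s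
  k125 k190 8 (.d k105 k65 k195 5 14)))))))))

def t42_192_28 : T TT 256 :=
  (.f k150 k194 13 (.l (.s k60 k61 0 (.s k20 k40 5 (.s k85 k215 8 (.s k127 k64 6 (.s k255 k191 7 (.s
  k125 k190 8 (.d k105 k65 k195 5 14)))))))))

def t42_192_29 : T TT 256 :=
  (.f k150 k194 13 (.l (.s k60 k61 0 (.s k20 k40 5 (.s k85 k215 8 (.s k127 k64 6 (.s k255 k191 7 (.s
  k125 k190 8 (.d k105 k65 k195 5 14)))))))))

def t42_192_30 : T TT 256 :=
  (.f k150 k194 13 (.l (.s k60 k61 0 (.s k20 k40 5 (.s k85 k215 8 (.s k127 k64 6 (.s k255 k191 7 (.s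
  k125 k190 8 (.d k105 k65 k195 5 14)))))))))

def t42_192_31 : T TT 256 :=
  (.f k150 k194 13 (.l (.s k60 k61 0 (.s k20 k40 5 (.s k85 k215 8 (.s k127 k64 6 (.s k255 k191 7 (.s
  k125 k190 8 (.d k105 k65 k195 5 14)))))))))

def t42_192_32 : T TT 256 :=
  (.f k150 k194 13 (.l (.s k60 k61 0 (.s k20 k40 5 (.s k85 k215 8 (.s k127 k64 6 (.s k255 k191 7 (.s
  k125 k190 8 (.d k105 k65 k195 5 14)))))))))

def t42_192_33 : T TT 256 :=
  (.f k150 k194 13 (.l (.s k60 k61 0 (.s k20 k40 5 (.s k85 k215 8 (.s k127 k64 6 (.s k255 k191 7 (.s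
  k125 k190 8 (.d k105 k65 k195 5 14)))))))))

def t42_192_34 : T TT 256 :=
  (.f k150 k194 13 (.l (.s k60 k61 0 (.s k20 k40 5 (.s k85 k215 8 (.s k127 k64 6 (.s k255 k191 7 (.s
  k125 k190 8 (.d k105 k65 k195 5 14)))))))))

def t42_192_35 : T TT 256 :=
  (.f k150 k194 13 (.l (.s k60 k61 0 (.s k20 k40 5 (.s k85 k215 8 (.s k127 k64 6 (.s k255 k191 7 (.s
  k125 k190 8 (.d k105 k65 k195 5 14)))))))))

def t42_192_36 : T TT 256 :=
  (.f k150 k194 13 (.l (.s k60 k61 0 (.s k20 k40 5 (.s k85 k215 8 (.s k127 k64 6 (.s k255 k191 7 (.s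
  k125 k190 8 (.d k105 k65 k195 5 14)))))))))

def t42_192_37 : T TT 256 :=
  (.f k150 k194 13 (.l (.s k60 k61 0 (.s k20 k40 5 (.s k85 k215 8 (.s k127 k64 6 (.s k255 k191 7 (.s
  k125 k190 8 (.d k105 k65 k195 5 14)))))))))

def t42_192_38 : T TT 256 :=
  (.f k150 k194 13 (.l (.s k60 k61 0 (.s k20 k40 5 (.s k85 k215 8 (.s k127 k64 6 (.s k255 k191 7 (.s
  k125 k190 8 (.d k105 k65 k195 5 14)))))))))

def t42_192_39 : T TT 256 :=
  (.f k150 k194 13 (.l (.s k60 k61 0 (.s k20 k40 5 (.s k85 k215 8 (.s k127 k64 6 (.s k255 k191 7 (.s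
  k125 k190 8 (.d k105 k65 k195 5 14)))))))))

def t42_192_40 : T TT 256 :=
  (.q k12 [(.s k46 k29 4 (.s k30 k14 3 (.s k60 k61 0 (.s k44 k28 3 (.d k45 k47 k15 0 4))))), (.s k60
  k61 0 (.s k28 k44 3 (.s k150 k194 13 (.s k89 k211 10 (.s k243 k166 14 (.d k123 k72 k183 4 9)))))),
  (.s k46 k29 4 (.s k14 k30 3 (.s k166 k226 9 (.s k90 k242 13 (.s k194 k150 13 (.d k74 k122 k134 3
  9))))))] (.c k28 (.l (.s k46 k29 4 (.s k166 k226 9 (.s k243 k89 14 (.s k60 k61 0 (.s k182 k121 10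
  (.d k150 k134 k194 3 13))))))) (.c k41 (.q k43 [(.s k46 k29 4 (.s k30 k14 3 (.s k60 k61 0 (.s k44
  k28 3 (.d k45 k47 k15 0 4))))), (.s k8 k4 1 (.s k3 k23 5 (.s k1 k2 0 (.s k9 k6 2 (.s k10 k11 0 (.d
  k5 k13 k15 1 2)))))), (.s k3 k23 5 (.s k2 k1 0 (.s k46 k29 4 (.s k14 k30 3 (.d k6 k10 k9 1 2)))))]
  (.c k1 (.l (.s k3 k23 5 (.s k6 k9 2 (.s k46 k29 4 (.s k14 k30 3 (.s k10 k2 1 (.d k15 k13 k5 0
  2))))))) (.c k14 (.l (.s k8 k4 1 (.s k3 k23 5 (.s k1 k2 0 (.s k9 k6 2 (.s k10 k11 0 (.d k5 k13 k15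
  1 2))))))) (.c k105 (.q k235 [(.s k3 k23 5 (.s k2 k1 0 (.s k46 k29 4 (.s k14 k30 3 (.d k6 k10 k9 1
  2))))), (.s k46 k29 4 (.s k30 k14 3 (.s k60 k61 0 (.s k44 k28 3 (.d k45 k47 k15 0 4))))), (.s k8
  k4 1 (.s k3 k23 5 (.s k1 k2 0 (.s k9 k6 2 (.s k10 k11 0 (.d k5 k13 k15 1 2))))))] (.c k1 (.l (.s
  k3 k23 5 (.s k6 k9 2 (.s k46 k29 4 (.s k14 k30 3 (.s k10 k2 1 (.d k15 k13 k5 0 2))))))) (.c k14
  (.l (.s k8 k4 1 (.s k3 k23 5 (.s k1 k2 0 (.s k9 k6 2 (.s k10 k11 0 (.d k5 k13 k15 1 2))))))) (.c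
  k169 (.q k233 [(.s k46 k29 4 (.s k30 k14 3 (.s k60 k61 0 (.s k44 k28 3 (.d k45 k47 k15 0 4))))),
  (.s k8 k4 1 (.s k3 k23 5 (.s k1 k2 0 (.s k9 k6 2 (.s k10 k11 0 (.d k5 k13 k15 1 2)))))), (.s k3
  k23 5 (.s k2 k1 0 (.s k46 k29 4 (.s k14 k30 3 (.d k6 k10 k9 1 2)))))] (.c k1 (.l (.s k3 k23 5 (.s
  k6 k9 2 (.s k46 k29 4 (.s k14 k30 3 (.s k10 k2 1 (.d k15 k13 k5 0 2))))))) (.c k14 (.l (.s k8 k4 1
  (.s k3 k23 5 (.s k1 k2 0 (.s k9 k6 2 (.s k10 k11 0 (.d k5 k13 k15 1 2))))))) (.c k168 (.l (.s k171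
  k107 7 (.s k3 k23 5 (.s k2 k1 0 (.s k6 k9 2 (.s k14 k10 1 (.d k46 k30 k29 3 4))))))) (.c k171 (.q
  k168 [(.s k252 k84 13 (.s k214 k195 6 (.s k234 k232 0 (.d k194 k150 k254 13 5)))), (.s k3 k23 5
  (.s k2 k1 0 (.s k6 k9 2 (.s k14 k10 1 (.d k46 k30 k29 3 4)))))] .n) .n))))) (.c k233 (.l (.s k169
  k232 8 (.s k3 k23 5 (.s k2 k1 0 (.s k6 k9 2 (.s k14 k10 1 (.d k46 k30 k29 3 4))))))) .n))))) (.c
  k235 (.q k105 [(.s k150 k194 13 (.d k60 k195 k61 14 0)), (.s k3 k23 5 (.s k2 k1 0 (.s k6 k9 2 (.s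
  k14 k10 1 (.d k46 k30 k29 3 4)))))] (.c k61 (.l (.s k150 k194 13 (.s k195 k60 14 (.d k107 k104
  k151 0 13)))) .n)) .n))))) (.c k43 (.q k41 [(.s k46 k29 4 (.s k30 k14 3 (.s k60 k61 0 (.s k44 k28
  3 (.d k45 k47 k15 0 4))))), (.s k4 k8 1 (.s k29 k46 4 (.s k61 k60 0 (.s k21 k1 5 (.s k38 k55 4 (.d
  k25 k17 k51 1 6)))))), (.s k4 k8 1 (.s k60 k61 0 (.s k44 k28 3 (.s k38 k35 2 (.s k55 k21 4 (.d k51
  k59 k25 1 6)))))), (.s k46 k29 4 (.s k14 k30 3 (.s k166 k226 9 (.s k90 k242 13 (.s k194 k150 13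
  (.d k74 k122 k134 3 9))))))] (.c k105 (.q k235 [(.s k46 k29 4 (.s k30 k14 3 (.s k60 k61 0 (.s k44
  k28 3 (.d k45 k47 k15 0 4))))), (.s k4 k8 1 (.s k29 k46 4 (.s k61 k60 0 (.s k21 k1 5 (.s k38 k55 4
  (.d k25 k17 k51 1 6)))))), (.s k4 k8 1 (.s k60 k61 0 (.s k44 k28 3 (.s k38 k35 2 (.s k55 k21 4 (.d
  k51 k59 k25 1 6)))))), (.s k46 k29 4 (.s k14 k30 3 (.s k166 k226 9 (.s k90 k242 13 (.s k74 k122 3
  (.d k194 k134 k150 9 13))))))] .n) (.c k235 (.q k105 [(.s k60 k61 0 (.d k150 k194 k195 13 14)),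
  (.s k46 k29 4 (.s k14 k30 3 (.s k15 k13 0 (.s k166 k226 9 (.s k44 k227 10 (.d k47 k45 k31 0
  3))))))] (.c k61 (.l (.s k150 k194 13 (.s k195 k60 14 (.d k107 k104 k151 0 13)))) (.c k107 (.q
  k171 [(.s k60 k61 0 (.d k150 k194 k195 13 14)), (.s k46 k29 4 (.s k14 k30 3 (.s k15 k13 0 (.s k166
  k226 9 (.s k44 k227 10 (.d k47 k45 k31 0 3))))))] (.c k61 (.l (.s k46 k29 4 (.s k166 k226 9 (.s
  k44 k227 10 (.s k60 k28 3 (.d k150 k194 k195 13 14)))))) .n)) (.c k171 (.l (.s k107 k104 0 (.s k60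
  k61 0 (.d k150 k194 k195 13 14)))) .n)))) .n))) (.c k105 (.q k235 [(.s k46 k29 4 (.s k30 k14 3 (.s
  k60 k61 0 (.s k44 k28 3 (.d k45 k47 k15 0 4))))), (.s k46 k29 4 (.s k14 k30 3 (.s k166 k226 9 (.s
  k90 k242 13 (.s k74 k122 3 (.d k194 k134 k150 9 13)))))), (.s k60 k61 0 (.s k28 k44 3 (.s k150
  k194 13 (.s k89 k211 10 (.s k123 k72 4 (.d k243 k166 k183 14 9))))))] (.c k28 (.l (.s k46 k29 4
  (.s k166 k226 9 (.s k243 k89 14 (.s k60 k61 0 (.s k150 k194 13 (.d k182 k121 k134 10 3))))))) (.c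
  k41 (.q k43 [(.s k3 k23 5 (.s k2 k1 0 (.s k46 k29 4 (.s k14 k30 3 (.d k6 k10 k9 1 2))))), (.s k46
  k29 4 (.s k30 k14 3 (.s k60 k61 0 (.s k44 k28 3 (.d k45 k47 k15 0 4))))), (.s k8 k4 1 (.s k3 k23 5
  (.s k1 k2 0 (.s k9 k6 2 (.s k10 k11 0 (.d k5 k13 k15 1 2))))))] (.c k1 (.l (.s k3 k23 5 (.s k6 k9
  2 (.s k46 k29 4 (.s k14 k30 3 (.s k10 k2 1 (.d k15 k13 k5 0 2))))))) (.c k14 (.l (.s k8 k4 1 (.s
  k3 k23 5 (.s k1 k2 0 (.s k9 k6 2 (.s k10 k11 0 (.d k5 k13 k15 1 2))))))) (.c k169 (.q k233 [(.s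
  k46 k29 4 (.s k30 k14 3 (.s k60 k61 0 (.s k44 k28 3 (.d k45 k47 k15 0 4))))), (.s k8 k4 1 (.s k3
  k23 5 (.s k1 k2 0 (.s k9 k6 2 (.s k10 k11 0 (.d k5 k13 k15 1 2)))))), (.s k3 k23 5 (.s k2 k1 0 (.s
  k46 k29 4 (.s k14 k30 3 (.d k6 k10 k9 1 2)))))] (.c k1 (.l (.s k3 k23 5 (.s k6 k9 2 (.s k46 k29 4
  (.s k14 k30 3 (.s k10 k2 1 (.d k15 k13 k5 0 2))))))) (.c k14 (.l (.s k8 k4 1 (.s k3 k23 5 (.s k1
  k2 0 (.s k9 k6 2 (.s k10 k11 0 (.d k5 k13 k15 1 2))))))) (.c k168 (.l (.s k171 k107 7 (.s k3 k23 5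
  (.s k2 k1 0 (.s k6 k9 2 (.s k14 k10 1 (.d k46 k30 k29 3 4))))))) (.c k171 (.q k168 [(.s k252 k84
  13 (.s k214 k195 6 (.s k234 k232 0 (.d k194 k150 k254 13 5)))), (.s k3 k23 5 (.s k2 k1 0 (.s k6 k9
  2 (.s k14 k10 1 (.d k46 k30 k29 3 4)))))] .n) .n))))) (.c k233 (.l (.s k169 k232 8 (.s k3 k23 5
  (.s k2 k1 0 (.s k6 k9 2 (.s k14 k10 1 (.d k46 k30 k29 3 4))))))) .n))))) (.c k43 (.q k41 [(.s k46
  k29 4 (.s k30 k14 3 (.s k60 k61 0 (.s k44 k28 3 (.d k45 k47 k15 0 4))))), (.s k4 k8 1 (.s k29 k46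
  4 (.s k61 k60 0 (.s k21 k1 5 (.s k38 k55 4 (.d k25 k17 k51 1 6)))))), (.s k4 k8 1 (.s k60 k61 0
  (.s k44 k28 3 (.s k38 k35 2 (.s k55 k21 4 (.d k51 k59 k25 1 6)))))), (.s k46 k29 4 (.s k14 k30 3
  (.s k166 k226 9 (.s k90 k242 13 (.s k74 k122 3 (.d k194 k134 k150 9 13))))))] .n) .n)))) (.c k235
  (.q k105 [(.s k60 k61 0 (.d k150 k194 k195 13 14)), (.s k46 k29 4 (.s k14 k30 3 (.s k15 k13 0 (.s
  k166 k226 9 (.s k44 k227 10 (.d k47 k45 k31 0 3))))))] (.c k41 (.q k43 [(.s k150 k194 13 (.d k60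
  k195 k61 14 0)), (.s k3 k23 5 (.s k2 k1 0 (.s k6 k9 2 (.s k14 k10 1 (.d k46 k30 k29 3 4)))))] (.c
  k61 (.l (.s k150 k194 13 (.s k195 k60 14 (.d k107 k104 k151 0 13)))) .n)) (.c k43 (.q k41 [(.s k60
  k61 0 (.d k150 k194 k195 13 14)), (.s k46 k29 4 (.s k14 k30 3 (.s k15 k13 0 (.s k166 k226 9 (.s
  k44 k227 10 (.d k47 k45 k31 0 3))))))] (.c k61 (.l (.s k150 k194 13 (.s k195 k60 14 (.d k107 k104
  k151 0 13)))) (.c k107 (.q k171 [(.s k60 k61 0 (.d k150 k194 k195 13 14)), (.s k46 k29 4 (.s k14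
  k30 3 (.s k15 k13 0 (.s k166 k226 9 (.s k44 k227 10 (.d k47 k45 k31 0 3))))))] (.c k61 (.l (.s k46
  k29 4 (.s k166 k226 9 (.s k44 k227 10 (.s k60 k28 3 (.d k150 k194 k195 13 14)))))) .n)) (.c k171
  (.l (.s k107 k104 0 (.s k60 k61 0 (.d k150 k194 k195 13 14)))) .n)))) (.c k61 (.l (.s k150 k194 13
  (.s k195 k60 14 (.d k107 k104 k151 0 13)))) .n)))) .n))))))

def t42_192_41 : T TT 256 :=
  (.q k43 [(.s k3 k23 5 (.s k169 k232 8 (.s k60 k61 0 (.s k150 k194 13 (.s k131 k188 6 (.d k195 k67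
  k105 7 14)))))), (.s k3 k23 5 (.s k1 k2 0 (.s k169 k232 8 (.s k253 k85 13 (.s k252 k86 14 (.s k254
  k255 0 (.d k126 k190 k189 7 8))))))), (.s k60 k61 0 (.s k20 k40 5 (.s k150 k194 13 (.s k215 k85 8
  (.s k195 k105 14 (.s k235 k255 5 (.d k107 k171 k151 7 13)))))))] (.c k1 (.l (.s k3 k23 5 (.s k169
  k232 8 (.s k252 k86 14 (.s k150 k194 13 (.s k188 k131 6 (.d k60 k61 k124 0 7))))))) (.c k169 (.l
  (.s k23 k3 5 (.s k60 k61 0 (.s k20 k40 5 (.s k150 k194 13 (.s k215 k85 8 (.s k151 k87 7 (.d k195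
  k105 k107 14 13)))))))) .n)))

def t42_192_43 : T TT 256 :=
  (.q k40 [(.d k60 k61 k20 0 5)] (.c k20 (.q k105 [(.s k60 k61 0 (.d k150 k194 k195 13 14)), (.s k60
  k61 0 (.s k104 k107 0 (.s k168 k232 7 (.s k252 k84 13 (.s k124 k188 7 (.s k126 k189 8 (.d k86 k66
  k67 5 6)))))))] (.c k60 (.q k86 [(.s k126 k66 5 (.s k252 k189 8 (.s k168 k84 13 (.d k104 k107 k232
  0 7)))), (.s k194 k150 13 (.s k66 k126 5 (.s k130 k2 7 (.s k65 k195 8 (.d k67 k64 k124 0 6))))),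
  (.s k124 k67 6 (.s k104 k107 0 (.s k168 k232 7 (.d k84 k252 k64 13 5))))] (.c k104 (.q k148 [(.s
  k194 k150 13 (.s k66 k126 5 (.s k130 k2 7 (.s k65 k195 8 (.d k67 k64 k124 0 6))))), (.s k150 k194
  13 (.s k214 k22 7 (.s k151 k149 0 (.s k195 k107 13 (.s k252 k233 6 (.d k126 k66 k189 5 8)))))),
  (.s k126 k66 5 (.s k190 k254 7 (.s k189 k252 8 (.s k124 k67 6 (.s k127 k125 0 (.d k191 k188 k255 0
  7)))))), (.s k150 k194 13 (.s k214 k22 7 (.s k67 k124 6 (.s k151 k149 0 (.s k195 k107 13 (.s k3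
  k131 7 (.d k252 k233 k169 6 14)))))))] .n) (.c k148 (.l (.s k104 k107 0 (.s k168 k232 7 (.s k126
  k66 5 (.d k252 k189 k84 8 13))))) .n))) (.c k61 (.l (.s k150 k194 13 (.s k195 k60 14 (.d k107 k104
  k151 0 13)))) .n))) (.c k60 (.q k110 [(.s k150 k194 13 (.s k206 k158 11 (.s k102 k98 1 (.s k54
  k198 11 (.d k50 k58 k154 1 13))))), (.s k206 k158 11 (.s k204 k157 12 (.s k136 k68 9 (.s k207 k205
  0 (.s k138 k69 10 (.s k70 k2 9 (.d k137 k139 k3 0 10))))))), (.s k150 k194 13 (.s k102 k98 1 (.s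
  k54 k198 11 (.s k50 k58 1 (.d k206 k158 k154 11 13)))))] (.c k104 (.q k148 [(.s k150 k194 13 (.s
  k206 k158 11 (.s k102 k98 1 (.s k54 k198 11 (.d k50 k58 k154 1 13))))), (.s k206 k158 11 (.s k204
  k157 12 (.s k136 k68 9 (.s k207 k205 0 (.s k138 k69 10 (.s k70 k2 9 (.d k137 k139 k3 0 10))))))),
  (.s k150 k194 13 (.s k204 k157 12 (.s k102 k98 1 (.s k51 k153 14 (.s k55 k59 1 (.d k149 k151 k196
  0 12))))))] .n) (.c k148 (.q k104 [(.s k150 k194 13 (.s k206 k158 11 (.s k102 k98 1 (.s k54 k198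
  11 (.d k50 k58 k154 1 13))))), (.s k102 k98 1 (.s k105 k107 0 (.s k108 k99 2 (.s k96 k100 1 (.d
  k111 k109 k101 0 2))))), (.s k194 k150 13 (.s k206 k158 11 (.s k204 k157 12 (.s k198 k202 1 (.s
  k107 k105 0 (.d k195 k151 k201 13 2))))))] (.c k109 (.l (.s k150 k194 13 (.s k102 k98 1 (.s k54
  k198 11 (.s k50 k58 1 (.d k206 k158 k154 11 13)))))) .n)) (.c k158 (.q k104 [(.s k102 k98 1 (.s
  k105 k107 0 (.s k108 k99 2 (.s k96 k100 1 (.d k111 k109 k101 0 2))))), (.s k168 k232 7 (.s k252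
  k84 13 (.s k157 k204 12 (.s k126 k189 8 (.s k94 k78 3 (.s k15 k173 12 (.d k31 k47 k220 3 8)))))))]
  (.c k108 (.l (.s k150 k194 13 (.s k204 k157 12 (.s k102 k98 1 (.s k198 k54 11 (.s k107 k105 0 (.d
  k195 k201 k151 2 13))))))) (.c k109 (.q k207 [(.s k102 k98 1 (.s k105 k107 0 (.s k108 k99 2 (.s
  k96 k100 1 (.d k111 k101 k159 2 11))))), (.s k69 k138 10 (.s k204 k157 12 (.s k68 k136 9 (.s k70
  k71 0 (.s k137 k3 10 (.d k205 k206 k1 0 9))))))] (.c k159 (.l (.s k150 k194 13 (.s k102 k98 1 (.s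
  k54 k198 11 (.s k50 k58 1 (.s k206 k154 13 (.d k204 k205 k157 0 12))))))) .n)) (.c k207 (.q k109
  [(.s k105 k107 0 (.s k101 k97 1 (.d k111 k108 k96 0 2))), (.s k150 k194 13 (.s k204 k157 12 (.s
  k102 k98 1 (.s k198 k54 11 (.s k107 k105 0 (.d k195 k201 k151 2 13)))))), (.s k168 k232 7 (.s k252
  k84 13 (.s k204 k157 12 (.s k108 k111 0 (.s k100 k96 1 (.d k236 k220 k32 3 9))))))] (.c k197 (.q
  k202 [(.s k105 k107 0 (.s k101 k97 1 (.d k111 k108 k96 0 2))), (.s k58 k154 11 (.s k50 k54 1 (.s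
  k98 k102 1 (.d k194 k146 k150 11 13))))] (.c k101 (.l (.s k102 k98 1 (.s k105 k107 0 (.d k108 k111
  k99 0 2)))) .n)) (.c k202 (.q k197 [(.s k105 k107 0 (.s k101 k97 1 (.d k111 k108 k96 0 2))), (.s
  k168 k232 7 (.s k252 k84 13 (.s k204 k157 12 (.s k108 k111 0 (.s k100 k96 1 (.d k236 k220 k32 3
  9)))))), (.s k105 k107 0 (.s k101 k97 1 (.s k149 k53 11 (.s k61 k193 13 (.d k157 k205 k204 11
  12)))))] .n) .n))) .n)))) (.c k206 (.q k104 [(.s k102 k98 1 (.s k105 k107 0 (.s k108 k99 2 (.s k96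
  k100 1 (.d k111 k109 k101 0 2))))), (.s k168 k232 7 (.s k252 k84 13 (.s k157 k204 12 (.s k126 k189
  8 (.s k94 k78 3 (.s k15 k173 12 (.d k31 k47 k220 3 8)))))))] (.c k108 (.l (.s k150 k194 13 (.s
  k204 k157 12 (.s k102 k98 1 (.s k198 k54 11 (.s k107 k105 0 (.d k195 k201 k151 2 13))))))) .n))
  .n))))) (.c k61 (.q k86 [(.s k60 k20 5 (.s k126 k66 5 (.s k190 k254 7 (.s k125 k255 8 (.s k252
  k189 8 (.d k124 k127 k188 0 7)))))), (.s k20 k60 5 (.s k150 k194 13 (.s k85 k215 8 (.s k22 k214 7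
  (.s k23 k21 0 (.s k212 k149 8 (.d k84 k148 k87 7 0))))))), (.s k150 k194 13 (.s k214 k22 7 (.s
  k126 k66 5 (.s k252 k189 8 (.s k195 k233 6 (.s k105 k60 14 (.d k107 k104 k151 0 13)))))))] (.c k60
  (.l (.s k126 k66 5 (.s k254 k190 7 (.s k252 k189 8 (.s k84 k168 13 (.s k85 k87 0 (.s k127 k64 6
  (.d k255 k253 k191 0 7)))))))) .n)) .n))))

def t42_192_44 : T TT 256 :=
  (.q k110 [(.s k60 k61 0 (.s k158 k206 11 (.s k109 k207 12 (.s k204 k157 12 (.d k108 k111 k156 0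
  11))))), (.s k150 k194 13 (.s k206 k158 11 (.s k102 k98 1 (.s k50 k154 13 (.d k54 k58 k198 1
  11))))), (.s k60 k61 0 (.s k150 k194 13 (.s k195 k105 14 (.s k204 k157 12 (.s k102 k98 1 (.d k198
  k201 k54 2 11))))))] .n)

def t42_192_45 : T TT 256 :=
  (.q k110 [(.s k60 k61 0 (.s k158 k206 11 (.s k109 k207 12 (.s k204 k157 12 (.d k108 k111 k156 0
  11))))), (.s k150 k194 13 (.s k206 k158 11 (.s k102 k98 1 (.s k50 k154 13 (.d k54 k58 k198 1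
  11))))), (.s k60 k61 0 (.s k150 k194 13 (.s k195 k105 14 (.s k204 k157 12 (.s k102 k98 1 (.d k198
  k201 k54 2 11))))))] .n)

def t42_192_46 : T TT 256 :=
  (.q k110 [(.s k60 k61 0 (.s k158 k206 11 (.s k109 k207 12 (.s k204 k157 12 (.d k108 k111 k156 0
  11))))), (.s k150 k194 13 (.s k206 k158 11 (.s k102 k98 1 (.s k50 k154 13 (.d k54 k58 k198 1
  11))))), (.s k60 k61 0 (.s k150 k194 13 (.s k195 k105 14 (.s k204 k157 12 (.s k102 k98 1 (.d k198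
  k201 k54 2 11))))))] (.c k34 (.q k38 [(.s k60 k61 0 (.s k158 k206 11 (.s k109 k207 12 (.s k204
  k157 12 (.d k108 k111 k156 0 11))))), (.s k150 k194 13 (.s k206 k158 11 (.s k102 k98 1 (.s k50
  k154 13 (.d k54 k58 k198 1 11))))), (.s k60 k61 0 (.s k150 k194 13 (.s k195 k105 14 (.s k204 k157
  12 (.s k102 k98 1 (.d k198 k201 k54 2 11))))))] (.c k102 (.q k238 [(.s k60 k61 0 (.s k204 k157 12
  (.s k108 k156 11 (.s k109 k111 0 (.d k158 k206 k207 11 12))))), (.s k204 k157 12 (.s k68 k136 9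
  (.s k255 k221 4 (.s k127 k191 7 (.s k64 k85 6 (.d k76 k93 k72 4 1))))))] (.c k157 (.l (.s k60 k61
  0 (.s k150 k194 13 (.s k158 k206 11 (.s k109 k207 12 (.s k111 k108 0 (.s k101 k96 2 (.d k105 k195
  k97 14 1)))))))) (.c k204 (.l (.s k60 k61 0 (.s k150 k194 13 (.s k158 k206 11 (.s k207 k109 12 (.s
  k111 k159 11 (.s k101 k96 2 (.d k154 k48 k146 14 1)))))))) .n))) (.c k238 (.l (.s k102 k98 1 (.s
  k150 k194 13 (.s k54 k198 11 (.s k50 k58 1 (.d k206 k158 k154 11 13)))))) .n))) (.c k38 (.q k34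
  [(.s k51 k17 4 (.s k204 k157 12 (.d k102 k98 k153 1 14))), (.s k60 k61 0 (.s k158 k206 11 (.s k109
  k207 12 (.s k204 k157 12 (.d k108 k111 k156 0 11))))), (.s k51 k17 4 (.s k60 k61 0 (.s k54 k57 2
  (.s k150 k194 13 (.d k102 k98 k198 1 11)))))] .n) .n)))

def t42_192_47 : T TT 256 :=
  (.q k32 [(.s k48 k16 3 (.s k58 k53 2 (.s k54 k50 1 (.s k60 k61 0 (.s k56 k52 1 (.d k57 k59 k51 0
  2)))))), (.s k48 k16 3 (.s k60 k61 0 (.s k40 k20 5 (.s k36 k44 1 (.s k24 k12 5 (.d k56 k52 k8 1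
  3)))))), (.s k48 k16 3 (.s k58 k53 2 (.s k50 k54 1 (.s k154 k202 11 (.s k102 k206 13 (.s k194 k150
  13 (.d k98 k110 k146 1 11)))))))] (.c k16 (.q k110 [(.s k60 k61 0 (.s k158 k206 11 (.s k109 k207
  12 (.s k204 k157 12 (.d k108 k111 k156 0 11))))), (.s k150 k194 13 (.s k206 k158 11 (.s k102 k98 1
  (.s k50 k154 13 (.d k54 k58 k198 1 11))))), (.s k60 k61 0 (.s k150 k194 13 (.s k195 k105 14 (.s
  k204 k157 12 (.s k102 k98 1 (.d k198 k201 k54 2 11))))))] .n) (.c k48 (.q k110 [(.s k60 k61 0 (.s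
  k158 k206 11 (.s k109 k207 12 (.s k204 k157 12 (.d k108 k111 k156 0 11))))), (.s k150 k194 13 (.s
  k206 k158 11 (.s k102 k98 1 (.s k54 k198 11 (.d k50 k58 k154 1 13))))), (.s k60 k61 0 (.s k150
  k194 13 (.s k195 k105 14 (.s k204 k157 12 (.s k102 k98 1 (.d k198 k201 k54 2 11))))))] (.c k96 (.q
  k144 [(.s k60 k61 0 (.s k158 k206 11 (.s k109 k207 12 (.s k204 k157 12 (.d k108 k111 k156 0
  11))))), (.s k150 k194 13 (.s k206 k158 11 (.s k102 k98 1 (.s k50 k154 13 (.d k54 k58 k198 1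
  11))))), (.s k60 k61 0 (.s k150 k194 13 (.s k195 k105 14 (.s k204 k157 12 (.s k102 k98 1 (.d k198
  k201 k54 2 11))))))] .n) (.c k144 (.q k96 [(.s k60 k61 0 (.s k158 k206 11 (.s k111 k101 2 (.d k207
  k159 k109 11 12)))), (.s k150 k194 13 (.s k206 k158 11 (.s k102 k98 1 (.s k50 k154 13 (.d k54 k58
  k198 1 11))))), (.s k60 k61 0 (.s k204 k157 12 (.s k111 k101 2 (.d k108 k109 k156 0 11)))), (.s
  k60 k61 0 (.s k158 k206 11 (.s k207 k109 12 (.s k157 k204 12 (.d k159 k156 k111 0 11)))))] (.c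
  k207 (.l (.s k60 k61 0 (.s k204 k157 12 (.s k108 k156 11 (.d k111 k109 k101 0 2))))) .n)) .n)))
  (.c k52 (.l (.s k48 k16 3 (.s k58 k53 2 (.s k154 k202 11 (.s k207 k101 14 (.s k60 k61 0 (.s k158
  k109 12 (.d k150 k146 k194 1 13)))))))) .n))))

def t42_192_48 : T TT 256 :=
  (.q k110 [(.s k60 k61 0 (.s k158 k206 11 (.s k109 k207 12 (.s k204 k157 12 (.d k108 k111 k156 0
  11))))), (.s k150 k194 13 (.s k206 k158 11 (.s k102 k98 1 (.s k54 k198 11 (.d k50 k58 k154 1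
  13))))), (.s k60 k61 0 (.s k150 k194 13 (.s k195 k105 14 (.s k204 k157 12 (.s k102 k98 1 (.d k198
  k201 k54 2 11))))))] (.c k96 (.q k144 [(.s k60 k61 0 (.s k158 k206 11 (.s k109 k207 12 (.s k204
  k157 12 (.d k108 k111 k156 0 11))))), (.s k150 k194 13 (.s k206 k158 11 (.s k102 k98 1 (.s k50
  k154 13 (.d k54 k58 k198 1 11))))), (.s k60 k61 0 (.s k150 k194 13 (.s k195 k105 14 (.s k204 k157
  12 (.s k102 k98 1 (.d k198 k201 k54 2 11))))))] .n) (.c k144 (.q k96 [(.s k60 k61 0 (.s k158 k206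
  11 (.s k207 k109 12 (.d k111 k101 k159 2 11)))), (.s k150 k194 13 (.s k206 k158 11 (.s k102 k98 1
  (.s k50 k154 13 (.d k54 k58 k198 1 11))))), (.s k60 k61 0 (.s k204 k157 12 (.s k111 k101 2 (.d
  k108 k109 k156 0 11))))] (.c k101 (.l (.s k60 k61 0 (.s k158 k206 11 (.s k207 k109 12 (.s k157
  k204 12 (.d k159 k156 k111 0 11)))))) (.c k207 (.l (.s k60 k61 0 (.s k204 k157 12 (.s k108 k156 11
  (.d k111 k109 k101 0 2))))) .n))) .n)))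

def t42_192_49 : T TT 256 :=
  (.q k110 [(.s k60 k61 0 (.s k158 k206 11 (.s k109 k207 12 (.s k204 k157 12 (.d k108 k111 k156 0
  11))))), (.s k150 k194 13 (.s k206 k158 11 (.s k102 k98 1 (.s k50 k154 13 (.d k54 k58 k198 1
  11))))), (.s k60 k61 0 (.s k150 k194 13 (.s k195 k105 14 (.s k204 k157 12 (.s k102 k98 1 (.d k198
  k201 k54 2 11))))))] .n)

def t42_192_50 : T TT 256 :=
  (.q k86 [(.s k60 k61 0 (.s k126 k66 5 (.s k190 k254 7 (.s k125 k255 8 (.s k252 k189 8 (.d k124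
  k127 k188 0 7)))))), (.s k60 k61 0 (.s k20 k40 5 (.s k150 k194 13 (.s k22 k214 7 (.s k23 k21 0 (.d
  k3 k43 k41 5 6)))))), (.s k60 k61 0 (.s k150 k194 13 (.s k214 k22 7 (.s k195 k105 14 (.s k252 k233
  6 (.d k126 k66 k189 5 8)))))), (.s k126 k66 5 (.s k254 k190 7 (.s k252 k189 8 (.s k84 k168 13 (.s
  k85 k87 0 (.s k127 k64 6 (.d k255 k191 k253 7 0)))))))] .n)

def t42_192_51 : T TT 256 :=
  (.q k110 [(.s k60 k61 0 (.s k158 k206 11 (.s k109 k207 12 (.s k204 k157 12 (.d k108 k111 k156 0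
  11))))), (.s k194 k150 13 (.s k206 k158 11 (.s k202 k198 1 (.s k154 k58 11 (.d k102 k98 k50 1
  13))))), (.s k60 k61 0 (.s k150 k194 13 (.s k195 k105 14 (.s k204 k157 12 (.s k198 k201 2 (.d k102
  k98 k54 1 11))))))] (.c k98 (.q k145 [(.s k60 k61 0 (.s k158 k206 11 (.s k109 k207 12 (.s k204
  k157 12 (.d k108 k111 k156 0 11))))), (.s k60 k61 0 (.s k150 k194 13 (.s k195 k105 14 (.s k151
  k107 13 (.s k157 k204 12 (.d k149 k153 k148 1 0)))))), (.s k150 k194 13 (.s k158 k206 11 (.s k157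
  k204 12 (.s k153 k149 1 (.d k156 k159 k147 0 2)))))] (.c k157 (.l (.s k60 k61 0 (.s k150 k194 13
  (.s k158 k206 11 (.s k109 k207 12 (.s k111 k108 0 (.s k101 k96 2 (.d k105 k97 k195 1 14))))))))
  (.c k204 (.l (.s k60 k61 0 (.s k150 k194 13 (.s k158 k206 11 (.s k207 k109 12 (.s k111 k159 11 (.s
  k101 k96 2 (.d k154 k146 k48 1 14)))))))) .n))) (.c k145 (.l (.s k98 k102 1 (.s k60 k61 0 (.s k158
  k206 11 (.s k109 k207 12 (.s k204 k157 12 (.d k108 k111 k156 0 11))))))) .n)))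

def t42_192_52 : T TT 256 :=
  (.q k110 [(.s k60 k61 0 (.s k158 k206 11 (.s k109 k207 12 (.s k204 k157 12 (.d k108 k111 k156 0
  11))))), (.s k150 k194 13 (.s k206 k158 11 (.s k102 k98 1 (.s k50 k154 13 (.d k54 k58 k198 1
  11))))), (.s k60 k61 0 (.s k150 k194 13 (.s k195 k105 14 (.s k204 k157 12 (.s k102 k98 1 (.d k198
  k201 k54 2 11))))))] .n)

def t42_192_53 : T TT 256 :=
  (.q k110 [(.s k60 k61 0 (.s k158 k206 11 (.s k109 k207 12 (.s k204 k157 12 (.d k108 k111 k156 0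
  11))))), (.s k150 k194 13 (.s k206 k158 11 (.s k102 k98 1 (.s k50 k154 13 (.d k54 k58 k198 1
  11))))), (.s k60 k61 0 (.s k150 k194 13 (.s k195 k105 14 (.s k204 k157 12 (.s k102 k98 1 (.d k198
  k201 k54 2 11))))))] .n)

def t42_192_54 : T TT 256 :=
  (.q k110 [(.s k60 k61 0 (.s k158 k206 11 (.s k109 k207 12 (.s k204 k157 12 (.d k108 k111 k156 0
  11))))), (.s k194 k150 13 (.s k206 k158 11 (.s k102 k98 1 (.s k154 k50 13 (.d k202 k198 k58 1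
  11))))), (.s k60 k61 0 (.s k150 k194 13 (.s k204 k157 12 (.s k156 k108 11 (.s k102 k98 1 (.d k153
  k51 k147 14 2))))))] .n)

def t42_192_55 : T TT 256 :=
  (.q k110 [(.s k60 k61 0 (.s k158 k206 11 (.s k109 k207 12 (.s k204 k157 12 (.d k108 k111 k156 0
  11))))), (.s k150 k194 13 (.s k206 k158 11 (.s k102 k98 1 (.s k50 k154 13 (.d k54 k58 k198 1
  11))))), (.s k60 k61 0 (.s k150 k194 13 (.s k195 k105 14 (.s k204 k157 12 (.s k102 k98 1 (.d k198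
  k201 k54 2 11))))))] .n)

def t42_192_56 : T TT 256 :=
  (.q k110 [(.s k60 k61 0 (.s k158 k206 11 (.s k109 k207 12 (.s k204 k157 12 (.d k108 k111 k156 0
  11))))), (.s k150 k194 13 (.s k206 k158 11 (.s k102 k98 1 (.s k50 k154 13 (.d k54 k58 k198 1
  11))))), (.s k60 k61 0 (.s k150 k194 13 (.s k195 k105 14 (.s k204 k157 12 (.s k102 k98 1 (.d k198
  k201 k54 2 11))))))] .n)

def t42_192_57 : T TT 256 :=
  (.q k110 [(.s k60 k61 0 (.s k158 k206 11 (.s k109 k207 12 (.s k204 k157 12 (.d k108 k111 k156 0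
  11))))), (.s k150 k194 13 (.s k206 k158 11 (.s k102 k98 1 (.s k50 k154 13 (.d k54 k58 k198 1
  11))))), (.s k60 k61 0 (.s k150 k194 13 (.s k195 k105 14 (.s k204 k157 12 (.s k102 k98 1 (.d k198
  k201 k54 2 11))))))] .n)

def t42_192_58 : T TT 256 :=
  (.q k90 [(.s k194 k150 13 (.s k122 k74 3 (.s k242 k182 9 (.s k166 k14 13 (.d k226 k210 k46 3
  9))))), (.s k60 k61 0 (.s k150 k194 13 (.s k30 k210 9 (.s k15 k45 4 (.s k47 k31 3 (.d k165 k224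
  k240 10 14)))))), (.s k60 k61 0 (.s k122 k74 3 (.s k182 k242 9 (.s k121 k243 10 (.s k240 k181 10
  (.d k120 k123 k180 0 9)))))), (.s k60 k61 0 (.s k150 k194 13 (.s k210 k30 9 (.s k195 k105 14 (.s
  k122 k74 3 (.d k240 k225 k181 4 10))))))] (.c k10 (.q k26 [(.s k194 k150 13 (.s k74 k122 3 (.s k14
  k134 9 (.s k166 k242 13 (.d k46 k30 k226 3 9))))), (.s k154 k218 7 (.s k150 k194 13 (.s k30 k210 9
  (.s k18 k22 1 (.s k222 k86 9 (.d k158 k146 k94 1 7)))))), (.s k60 k61 0 (.s k122 k74 3 (.s k182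
  k242 9 (.s k121 k243 10 (.s k240 k181 10 (.d k120 k123 k180 0 9)))))), (.s k60 k61 0 (.s k150 k194
  13 (.s k210 k30 9 (.s k195 k105 14 (.s k122 k74 3 (.d k240 k225 k181 4 10))))))] .n) (.c k15 (.l
  (.s k150 k194 13 (.s k30 k210 9 (.s k14 k46 3 (.s k242 k166 13 (.d k122 k74 k182 3 9)))))) (.c k26
  (.q k10 [(.s k15 k5 2 (.s k165 k240 14 (.d k47 k224 k31 10 3))), (.s k150 k194 13 (.s k30 k210 9
  (.s k14 k46 3 (.s k242 k166 13 (.d k122 k74 k182 3 9)))))] .n) .n))))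

def t42_192_59 : T TT 256 :=
  (.q k8 [(.s k12 k4 1 (.s k46 k29 4 (.s k30 k14 3 (.s k60 k61 0 (.s k44 k28 3 (.d k45 k47 k15 0
  4)))))), (.s k12 k4 1 (.s k60 k61 0 (.s k40 k20 5 (.s k24 k56 3 (.s k36 k48 5 (.d k44 k32 k28 1
  3)))))), (.s k12 k4 1 (.s k46 k29 4 (.s k14 k30 3 (.s k166 k226 9 (.s k90 k242 13 (.s k194 k150 13
  (.d k74 k122 k134 3 9)))))))] (.c k4 (.q k90 [(.s k194 k150 13 (.s k122 k74 3 (.s k242 k182 9 (.s
  k166 k14 13 (.d k226 k210 k46 3 9))))), (.s k60 k61 0 (.s k150 k194 13 (.s k30 k210 9 (.s k15 k45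
  4 (.s k47 k31 3 (.d k165 k224 k240 10 14)))))), (.s k60 k61 0 (.s k122 k74 3 (.s k182 k242 9 (.s
  k121 k243 10 (.s k240 k181 10 (.d k120 k123 k180 0 9)))))), (.s k60 k61 0 (.s k150 k194 13 (.s
  k210 k30 9 (.s k195 k105 14 (.s k122 k74 3 (.d k240 k225 k181 4 10))))))] (.c k15 (.l (.s k150
  k194 13 (.s k30 k210 9 (.s k14 k46 3 (.s k242 k166 13 (.d k122 k74 k182 3 9)))))) .n)) (.c k12 (.q
  k90 [(.s k194 k150 13 (.s k122 k74 3 (.s k242 k182 9 (.s k166 k14 13 (.d k226 k210 k46 3 9))))),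
  (.s k60 k61 0 (.s k150 k194 13 (.s k30 k210 9 (.s k15 k45 4 (.s k47 k31 3 (.d k165 k224 k240 10
  14)))))), (.s k60 k61 0 (.s k122 k74 3 (.s k182 k242 9 (.s k121 k243 10 (.s k240 k181 10 (.d k120
  k123 k180 0 9)))))), (.s k60 k61 0 (.s k150 k194 13 (.s k210 k30 9 (.s k195 k105 14 (.s k122 k74 3
  (.d k240 k225 k181 4 10))))))] (.c k15 (.l (.s k150 k194 13 (.s k30 k210 9 (.s k14 k46 3 (.s k242
  k166 13 (.d k122 k74 k182 3 9)))))) (.c k72 (.q k132 [(.s k194 k150 13 (.s k74 k122 3 (.s k14 k134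
  9 (.s k166 k242 13 (.d k46 k30 k226 3 9))))), (.s k60 k61 0 (.s k150 k194 13 (.s k30 k210 9 (.s
  k15 k45 4 (.s k47 k31 3 (.d k165 k224 k240 10 14)))))), (.s k60 k61 0 (.s k122 k74 3 (.s k182 k242
  9 (.s k121 k243 10 (.s k240 k181 10 (.d k120 k123 k180 0 9)))))), (.s k60 k61 0 (.s k150 k194 13
  (.s k210 k30 9 (.s k195 k105 14 (.s k122 k74 3 (.d k240 k225 k181 4 10))))))] .n) (.c k132 (.q k72
  [(.s k60 k61 0 (.s k150 k194 13 (.s k74 k122 3 (.s k75 k73 0 (.d k105 k195 k120 14 4))))), (.s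
  k200 k136 7 (.s k89 k123 4 (.s k88 k91 0 (.s k248 k168 11 (.s k169 k11 12 (.d k232 k43 k216 8
  3)))))), (.s k150 k194 13 (.s k30 k210 9 (.s k14 k46 3 (.s k242 k166 13 (.d k122 k74 k182 3
  9)))))] .n) .n)))) (.c k28 (.l (.s k12 k4 1 (.s k46 k29 4 (.s k166 k226 9 (.s k243 k89 14 (.s k60
  k61 0 (.s k182 k121 10 (.d k150 k134 k194 3 13)))))))) .n))))

def t42_192_60 : T TT 256 :=
  (.q k110 [(.s k150 k194 13 (.s k206 k158 11 (.s k102 k98 1 (.s k54 k198 11 (.d k50 k58 k154 1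
  13))))), (.s k206 k158 11 (.s k204 k157 12 (.s k136 k68 9 (.s k207 k205 0 (.s k138 k69 10 (.s k70
  k2 9 (.d k137 k139 k3 0 10))))))), (.s k150 k194 13 (.s k102 k98 1 (.s k54 k198 11 (.s k50 k58 1
  (.d k206 k158 k154 11 13)))))] (.c k104 (.q k148 [(.s k150 k194 13 (.s k206 k158 11 (.s k102 k98 1
  (.s k54 k198 11 (.d k50 k58 k154 1 13))))), (.s k206 k158 11 (.s k204 k157 12 (.s k136 k68 9 (.s
  k207 k205 0 (.s k138 k69 10 (.s k70 k2 9 (.d k137 k139 k3 0 10))))))), (.s k150 k194 13 (.s k204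
  k157 12 (.s k102 k98 1 (.s k51 k153 14 (.s k55 k59 1 (.d k149 k151 k196 0 12))))))] .n) (.c k148
  (.q k104 [(.s k102 k98 1 (.s k105 k107 0 (.s k108 k99 2 (.s k96 k100 1 (.d k111 k109 k101 0
  2))))), (.s k194 k150 13 (.s k206 k158 11 (.s k204 k157 12 (.s k198 k202 1 (.s k107 k105 0 (.d
  k195 k151 k201 13 2)))))), (.s k150 k194 13 (.s k102 k98 1 (.s k54 k198 11 (.s k50 k58 1 (.d k206
  k158 k154 11 13)))))] .n) (.c k158 (.q k169 [(.s k232 k43 8 (.s k102 k98 1 (.s k236 k35 10 (.s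
  k224 k228 1 (.d k47 k173 k165 8 10))))), (.s k43 k232 8 (.s k3 k23 5 (.s k1 k2 0 (.s k253 k85 13
  (.s k252 k86 14 (.s k254 k255 0 (.d k126 k190 k189 7 8))))))), (.s k204 k157 12 (.s k102 k98 1 (.s
  k236 k35 10 (.s k252 k220 3 (.s k86 k3 14 (.d k126 k66 k189 5 8))))))] (.c k104 (.q k148 [(.s k232
  k43 8 (.s k102 k98 1 (.s k236 k35 10 (.s k224 k228 1 (.d k47 k173 k165 8 10))))), (.s k43 k232 8
  (.s k3 k23 5 (.s k252 k86 14 (.s k168 k84 13 (.s k150 k194 13 (.d k188 k128 k131 5 6)))))), (.s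
  k150 k194 13 (.s k204 k157 12 (.s k102 k98 1 (.s k51 k153 14 (.s k55 k59 1 (.d k149 k151 k196 0
  12))))))] (.c k109 (.q k207 [(.s k232 k43 8 (.s k102 k98 1 (.s k236 k35 10 (.s k224 k228 1 (.d k47
  k173 k165 8 10))))), (.s k69 k138 10 (.s k204 k157 12 (.s k68 k136 9 (.s k70 k71 0 (.s k137 k3 10
  (.d k205 k206 k1 0 9))))))] (.c k41 (.l (.s k102 k98 1 (.s k236 k35 10 (.s k47 k173 8 (.s k224
  k165 10 (.d k232 k228 k43 1 8)))))) .n)) (.c k207 (.q k109 [(.s k232 k43 8 (.s k102 k98 1 (.s k236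
  k35 10 (.s k224 k228 1 (.d k47 k173 k165 8 10))))), (.s k43 k232 8 (.s k3 k23 5 (.s k252 k86 14
  (.s k168 k84 13 (.s k150 k194 13 (.d k188 k128 k131 5 6)))))), (.s k150 k194 13 (.s k204 k157 12
  (.s k102 k98 1 (.s k51 k153 14 (.s k55 k59 1 (.d k149 k151 k196 0 12))))))] (.c k197 (.q k202 [(.s
  k58 k154 11 (.s k54 k50 1 (.s k150 k194 13 (.d k102 k98 k198 1 11)))), (.s k232 k43 8 (.s k102 k98
  1 (.s k236 k35 10 (.s k47 k173 8 (.d k224 k228 k165 1 10))))), (.s k43 k232 8 (.s k3 k23 5 (.s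
  k252 k86 14 (.s k168 k84 13 (.s k150 k194 13 (.d k188 k128 k131 5 6))))))] .n) (.c k202 (.q k197
  [(.s k150 k194 13 (.s k149 k151 0 (.s k101 k53 11 (.d k111 k108 k96 0 2)))), (.s k232 k43 8 (.s
  k102 k98 1 (.s k236 k35 10 (.s k47 k173 8 (.d k224 k228 k165 1 10)))))] .n) .n))) .n))) (.c k109
  (.q k207 [(.s k232 k43 8 (.s k102 k98 1 (.s k236 k35 10 (.s k224 k228 1 (.d k47 k173 k165 8
  10))))), (.s k69 k138 10 (.s k204 k157 12 (.s k68 k136 9 (.s k70 k71 0 (.s k137 k3 10 (.d k205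
  k206 k1 0 9))))))] (.c k41 (.l (.s k102 k98 1 (.s k236 k35 10 (.s k47 k173 8 (.s k224 k165 10 (.d
  k232 k228 k43 1 8)))))) (.c k104 (.q k148 [(.s k232 k43 8 (.s k102 k98 1 (.s k236 k35 10 (.s k224
  k228 1 (.d k47 k173 k165 8 10))))), (.s k69 k138 10 (.s k204 k157 12 (.s k68 k136 9 (.s k70 k71 0
  (.s k137 k3 10 (.d k205 k206 k1 0 9))))))] (.c k41 (.l (.s k102 k98 1 (.s k236 k35 10 (.s k47 k173
  8 (.s k224 k165 10 (.d k232 k228 k43 1 8)))))) .n)) (.c k148 (.q k104 [(.s k232 k43 8 (.s k102 k98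
  1 (.s k236 k35 10 (.s k224 k228 1 (.d k47 k173 k165 8 10))))), (.s k111 k159 11 (.s k96 k101 2 (.s
  k108 k100 1 (.s k105 k107 0 (.d k102 k98 k99 1 2))))), (.s k69 k138 10 (.s k43 k232 8 (.s k3 k23 5
  (.s k1 k2 0 (.s k137 k205 9 (.d k204 k70 k157 10 12))))))] .n) .n)))) (.c k148 (.q k104 [(.s k102
  k98 1 (.s k105 k107 0 (.s k108 k99 2 (.s k96 k100 1 (.d k111 k109 k101 0 2))))), (.s k43 k232 8
  (.s k3 k23 5 (.s k252 k86 14 (.s k204 k157 12 (.s k236 k220 3 (.d k102 k98 k35 1 10)))))), (.s k43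
  k232 8 (.s k3 k23 5 (.s k150 k194 13 (.s k107 k105 0 (.s k195 k151 13 (.d k131 k188 k67 6 7))))))]
  (.c k109 (.q k207 [(.s k232 k43 8 (.s k102 k98 1 (.s k236 k35 10 (.s k224 k228 1 (.d k47 k173 k165
  8 10))))), (.s k111 k159 11 (.s k96 k101 2 (.s k108 k100 1 (.s k105 k107 0 (.d k102 k98 k99 1
  2))))), (.s k69 k138 10 (.s k43 k232 8 (.s k3 k23 5 (.s k1 k2 0 (.s k137 k205 9 (.d k204 k70 k157
  10 12))))))] .n) (.c k207 (.q k109 [(.s k105 k107 0 (.s k101 k97 1 (.d k111 k108 k96 0 2))), (.s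
  k232 k43 8 (.s k102 k98 1 (.s k236 k35 10 (.s k47 k173 8 (.d k224 k228 k165 1 10)))))] (.c k197
  (.q k202 [(.s k105 k107 0 (.s k101 k97 1 (.d k111 k108 k96 0 2))), (.s k58 k154 11 (.s k50 k54 1
  (.s k98 k102 1 (.d k194 k146 k150 11 13))))] (.c k101 (.l (.s k102 k98 1 (.s k105 k107 0 (.d k108
  k111 k99 0 2)))) .n)) (.c k202 (.q k197 [(.s k105 k107 0 (.s k101 k97 1 (.d k111 k108 k96 0 2))),
  (.s k232 k43 8 (.s k102 k98 1 (.s k236 k35 10 (.s k47 k173 8 (.d k224 k228 k165 1 10)))))] .n)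
  .n))) .n))) (.c k207 (.q k109 [(.s k232 k43 8 (.s k102 k98 1 (.s k236 k35 10 (.s k224 k228 1 (.d
  k47 k173 k165 8 10))))), (.s k43 k232 8 (.s k3 k23 5 (.s k204 k157 12 (.s k70 k137 10 (.s k102 k98
  1 (.d k86 k252 k118 14 3)))))), (.s k111 k108 0 (.s k101 k96 2 (.s k237 k33 9 (.s k173 k45 7 (.s
  k47 k236 8 (.d k165 k161 k224 1 10))))))] (.c k104 (.q k148 [(.s k232 k43 8 (.s k102 k98 1 (.s
  k236 k35 10 (.s k224 k228 1 (.d k47 k173 k165 8 10))))), (.s k43 k232 8 (.s k3 k23 5 (.s k252 k86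
  14 (.s k168 k84 13 (.s k150 k194 13 (.d k188 k128 k131 5 6)))))), (.s k150 k194 13 (.s k204 k157
  12 (.s k102 k98 1 (.s k51 k153 14 (.s k55 k59 1 (.d k149 k151 k196 0 12))))))] (.c k197 (.q k202
  [(.s k58 k154 11 (.s k54 k50 1 (.s k150 k194 13 (.d k102 k98 k198 1 11)))), (.s k232 k43 8 (.s
  k102 k98 1 (.s k236 k35 10 (.s k47 k173 8 (.d k224 k228 k165 1 10))))), (.s k43 k232 8 (.s k3 k23
  5 (.s k252 k86 14 (.s k168 k84 13 (.s k150 k194 13 (.d k188 k128 k131 5 6))))))] .n) (.c k202 (.q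
  k197 [(.s k150 k194 13 (.s k149 k151 0 (.s k101 k53 11 (.d k111 k108 k96 0 2)))), (.s k232 k43 8
  (.s k102 k98 1 (.s k236 k35 10 (.s k47 k173 8 (.d k224 k228 k165 1 10)))))] .n) .n))) (.c k148 (.q
  k104 [(.s k105 k107 0 (.s k101 k97 1 (.d k111 k108 k96 0 2))), (.s k232 k43 8 (.s k102 k98 1 (.s
  k236 k35 10 (.s k47 k173 8 (.d k224 k228 k165 1 10)))))] (.c k197 (.q k202 [(.s k105 k107 0 (.s
  k101 k97 1 (.d k111 k108 k96 0 2))), (.s k58 k154 11 (.s k50 k54 1 (.s k98 k102 1 (.d k194 k146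
  k150 11 13))))] (.c k101 (.l (.s k102 k98 1 (.s k105 k107 0 (.d k108 k111 k99 0 2)))) .n)) (.c
  k202 (.q k197 [(.s k105 k107 0 (.s k101 k97 1 (.d k111 k108 k96 0 2))), (.s k232 k43 8 (.s k102
  k98 1 (.s k236 k35 10 (.s k47 k173 8 (.d k224 k228 k165 1 10)))))] .n) .n))) (.c k197 (.q k202
  [(.s k58 k154 11 (.s k54 k50 1 (.s k150 k194 13 (.d k102 k98 k198 1 11)))), (.s k232 k43 8 (.s
  k102 k98 1 (.s k236 k35 10 (.s k47 k173 8 (.d k224 k228 k165 1 10))))), (.s k111 k108 0 (.s k101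
  k96 2 (.s k237 k33 9 (.s k173 k45 7 (.s k47 k236 8 (.d k165 k161 k224 1 10))))))] (.c k104 (.q
  k148 [(.s k58 k154 11 (.s k54 k50 1 (.s k150 k194 13 (.d k102 k98 k198 1 11)))), (.s k232 k43 8
  (.s k102 k98 1 (.s k236 k35 10 (.s k47 k173 8 (.d k224 k228 k165 1 10))))), (.s k43 k232 8 (.s k3
  k23 5 (.s k252 k86 14 (.s k168 k84 13 (.s k150 k194 13 (.d k188 k128 k131 5 6))))))] .n) (.c k148
  (.q k104 [(.s k105 k107 0 (.s k101 k97 1 (.d k111 k108 k96 0 2))), (.s k58 k154 11 (.s k50 k54 1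
  (.s k98 k102 1 (.d k194 k146 k150 11 13))))] (.c k101 (.l (.s k102 k98 1 (.s k105 k107 0 (.d k108
  k111 k99 0 2)))) .n)) .n))) (.c k202 (.q k197 [(.s k232 k43 8 (.s k102 k98 1 (.s k236 k35 10 (.s
  k224 k228 1 (.d k47 k173 k165 8 10))))), (.s k150 k194 13 (.s k102 k98 1 (.s k198 k54 11 (.s k111
  k108 0 (.s k101 k96 2 (.d k199 k196 k52 0 12)))))), (.s k111 k108 0 (.s k101 k96 2 (.s k237 k33 9
  (.s k173 k45 7 (.s k47 k236 8 (.d k165 k161 k224 1 10))))))] (.c k104 (.q k148 [(.s k150 k194 13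
  (.s k149 k151 0 (.s k101 k53 11 (.d k111 k108 k96 0 2)))), (.s k232 k43 8 (.s k102 k98 1 (.s k236
  k35 10 (.s k47 k173 8 (.d k224 k228 k165 1 10)))))] .n) (.c k148 (.q k104 [(.s k105 k107 0 (.s
  k101 k97 1 (.d k111 k108 k96 0 2))), (.s k232 k43 8 (.s k102 k98 1 (.s k236 k35 10 (.s k47 k173 8
  (.d k224 k228 k165 1 10)))))] .n) .n))) .n))))) .n))))) (.c k206 (.q k169 [(.s k43 k232 8 (.s k3
  k23 5 (.s k204 k157 12 (.s k70 k137 10 (.s k102 k98 1 (.d k86 k252 k118 14 3)))))), (.s k232 k43 8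
  (.s k102 k98 1 (.s k236 k35 10 (.s k47 k173 8 (.d k224 k228 k165 1 10))))), (.s k43 k232 8 (.s k3
  k23 5 (.s k1 k2 0 (.s k253 k85 13 (.s k252 k86 14 (.s k254 k255 0 (.d k126 k190 k189 7 8))))))),
  (.s k204 k157 12 (.s k102 k98 1 (.s k236 k35 10 (.s k252 k220 3 (.s k86 k3 14 (.d k126 k66 k189 5
  8))))))] (.c k104 (.q k148 [(.s k102 k98 1 (.s k236 k35 10 (.s k47 k173 8 (.s k224 k165 10 (.d
  k232 k228 k43 1 8))))), (.s k43 k232 8 (.s k3 k23 5 (.s k252 k86 14 (.s k168 k84 13 (.s k150 k194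
  13 (.d k188 k128 k131 5 6)))))), (.s k150 k194 13 (.s k204 k157 12 (.s k102 k98 1 (.s k51 k153 14
  (.s k55 k59 1 (.d k149 k151 k196 0 12))))))] .n) (.c k148 (.q k104 [(.s k102 k98 1 (.s k236 k35 10
  (.s k47 k173 8 (.s k224 k165 10 (.d k232 k228 k43 1 8))))), (.s k43 k232 8 (.s k3 k23 5 (.s k150
  k194 13 (.s k107 k105 0 (.s k195 k151 13 (.d k131 k188 k67 6 7)))))), (.s k102 k98 1 (.s k105 k107
  0 (.s k108 k99 2 (.s k96 k100 1 (.d k111 k109 k101 0 2)))))] .n) .n))) .n)))))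

def t42_192_61 : T TT 256 :=
  (.q k90 [(.s k194 k150 13 (.s k74 k122 3 (.s k14 k134 9 (.s k166 k242 13 (.d k46 k30 k226 3
  9))))), (.s k150 k194 13 (.s k210 k30 9 (.s k122 k74 3 (.s k240 k181 10 (.s k195 k225 4 (.s k105
  k60 14 (.d k107 k104 k151 0 13))))))), (.s k122 k74 3 (.s k242 k182 9 (.s k166 k14 13 (.s k46 k226
  9 (.s k12 k29 4 (.s k243 k89 14 (.d k240 k241 k181 0 10)))))))] (.c k14 (.q k15 [(.s k47 k31 3 (.d
  k165 k224 k240 10 14)), (.s k10 k5 2 (.s k74 k122 3 (.s k138 k202 7 (.s k207 k69 10 (.s k79 k143 7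
  (.s k111 k159 11 (.d k101 k96 k112 2 6)))))))] .n) (.c k74 (.q k15 [(.s k47 k31 3 (.d k165 k224
  k240 10 14)), (.s k31 k47 3 (.s k150 k194 13 (.s k30 k210 9 (.s k29 k28 0 (.d k46 k14 k12 3
  4))))), (.s k5 k10 2 (.s k165 k240 14 (.s k85 k245 11 (.s k127 k64 6 (.s k255 k191 7 (.d k95 k80
  k175 2 11))))))] .n) (.c k122 (.q k15 [(.s k47 k31 3 (.d k165 k224 k240 10 14)), (.s k31 k47 3 (.s
  k150 k194 13 (.s k30 k210 9 (.s k46 k14 3 (.d k29 k28 k12 0 4))))), (.s k5 k10 2 (.s k165 k240 14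
  (.s k85 k245 11 (.s k127 k64 6 (.s k255 k191 7 (.d k95 k80 k175 2 11))))))] .n) (.c k134 (.l (.s
  k150 k194 13 (.s k30 k210 9 (.s k14 k46 3 (.s k242 k166 13 (.d k122 k74 k182 3 9)))))) (.c k194
  (.l (.s k122 k74 3 (.s k242 k182 9 (.s k14 k166 13 (.s k46 k30 3 (.s k12 k29 4 (.s k240 k181 10
  (.d k15 k13 k165 0 14)))))))) .n))))))

def t42_192_64 : T TT 256 :=
  (.q k90 [(.s k194 k150 13 (.s k74 k122 3 (.s k14 k134 9 (.s k166 k242 13 (.d k46 k30 k226 3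
  9))))), (.s k60 k61 0 (.s k150 k194 13 (.s k30 k210 9 (.s k15 k45 4 (.s k47 k31 3 (.d k165 k224
  k240 10 14)))))), (.s k60 k61 0 (.s k122 k74 3 (.s k182 k242 9 (.s k121 k243 10 (.s k240 k181 10
  (.d k120 k123 k180 0 9)))))), (.s k60 k61 0 (.s k150 k194 13 (.s k210 k30 9 (.s k195 k105 14 (.s
  k122 k74 3 (.d k240 k225 k181 4 10))))))] .n)

def t42_192_65 : T TT 256 :=
  (.q k90 [(.s k194 k150 13 (.s k74 k122 3 (.s k14 k134 9 (.s k166 k242 13 (.d k46 k30 k226 3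
  9))))), (.s k60 k61 0 (.s k150 k194 13 (.s k30 k210 9 (.s k15 k45 4 (.s k47 k31 3 (.d k165 k224
  k240 10 14)))))), (.s k60 k61 0 (.s k122 k74 3 (.s k182 k242 9 (.s k121 k243 10 (.s k240 k181 10
  (.d k120 k123 k180 0 9)))))), (.s k60 k61 0 (.s k150 k194 13 (.s k210 k30 9 (.s k195 k105 14 (.s
  k122 k74 3 (.d k240 k225 k181 4 10))))))] .n)

def t42_192_66 : T TT 256 :=
  (.q k3 [(.s k43 k23 5 (.s k169 k232 8 (.s k252 k86 14 (.s k60 k61 0 (.s k188 k124 7 (.d k150 k131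
  k194 6 13)))))), (.s k23 k43 5 (.s k60 k61 0 (.s k150 k194 13 (.s k195 k105 14 (.s k151 k107 13
  (.s k215 k87 7 (.d k20 k40 k85 5 8))))))), (.s k1 k2 0 (.s k43 k23 5 (.s k169 k232 8 (.s k253 k85
  13 (.s k252 k86 14 (.s k254 k255 0 (.d k126 k190 k189 7 8))))))), (.s k43 k23 5 (.s k169 k232 8
  (.s k60 k61 0 (.s k41 k22 6 (.s k105 k233 7 (.d k150 k194 k195 13 14)))))), (.s k60 k61 0 (.s k150
  k194 13 (.s k195 k105 14 (.s k131 k67 7 (.s k169 k188 6 (.s k86 k252 14 (.d k22 k41 k214 6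
  7)))))))] (.c k194 (.l (.s k43 k23 5 (.s k169 k232 8 (.s k252 k86 14 (.s k61 k60 0 (.s k189 k126 8
  (.s k253 k125 7 (.d k1 k2 k85 0 13)))))))) .n))

def t42_192_67 : T TT 256 :=
  (.q k90 [(.s k194 k150 13 (.s k74 k122 3 (.s k14 k134 9 (.s k166 k242 13 (.d k46 k30 k226 3
  9))))), (.s k60 k61 0 (.s k150 k194 13 (.s k30 k210 9 (.s k15 k45 4 (.s k47 k31 3 (.d k165 k224
  k240 10 14)))))), (.s k60 k61 0 (.s k122 k74 3 (.s k182 k242 9 (.s k121 k243 10 (.s k240 k181 10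
  (.d k120 k123 k180 0 9)))))), (.s k60 k61 0 (.s k150 k194 13 (.s k210 k30 9 (.s k195 k105 14 (.s
  k122 k74 3 (.d k240 k225 k181 4 10))))))] .n)

def t42_192_68 : T TT 256 :=
  (.q k90 [(.s k194 k150 13 (.s k74 k122 3 (.s k14 k134 9 (.s k166 k242 13 (.d k46 k30 k226 3
  9))))), (.s k60 k61 0 (.s k150 k194 13 (.s k30 k210 9 (.s k15 k45 4 (.s k47 k31 3 (.d k165 k224
  k240 10 14)))))), (.s k60 k61 0 (.s k122 k74 3 (.s k182 k242 9 (.s k121 k243 10 (.s k240 k181 10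
  (.d k120 k123 k180 0 9)))))), (.s k60 k61 0 (.s k150 k194 13 (.s k210 k30 9 (.s k195 k105 14 (.s
  k122 k74 3 (.d k240 k225 k181 4 10))))))] .n)

def t42_192_69 : T TT 256 :=
  (.q k90 [(.s k194 k150 13 (.s k74 k122 3 (.s k14 k134 9 (.s k166 k242 13 (.d k46 k30 k226 3
  9))))), (.s k60 k61 0 (.s k150 k194 13 (.s k30 k210 9 (.s k15 k45 4 (.s k47 k31 3 (.d k165 k224
  k240 10 14)))))), (.s k60 k61 0 (.s k122 k74 3 (.s k182 k242 9 (.s k121 k243 10 (.s k240 k181 10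
  (.d k120 k123 k180 0 9)))))), (.s k60 k61 0 (.s k150 k194 13 (.s k210 k30 9 (.s k195 k105 14 (.s
  k122 k74 3 (.d k240 k225 k181 4 10))))))] .n)

def t42_192_70 : T TT 256 :=
  (.q k90 [(.s k194 k150 13 (.s k74 k122 3 (.s k14 k134 9 (.s k166 k242 13 (.d k46 k30 k226 3
  9))))), (.s k60 k61 0 (.s k150 k194 13 (.s k30 k210 9 (.s k15 k45 4 (.s k47 k31 3 (.d k165 k224
  k240 10 14)))))), (.s k60 k61 0 (.s k122 k74 3 (.s k182 k242 9 (.s k121 k243 10 (.s k240 k181 10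
  (.d k120 k123 k180 0 9)))))), (.s k60 k61 0 (.s k150 k194 13 (.s k210 k30 9 (.s k195 k105 14 (.s
  k122 k74 3 (.d k240 k225 k181 4 10))))))] .n)

def t42_192_71 : T TT 256 :=
  (.q k90 [(.s k194 k150 13 (.s k74 k122 3 (.s k14 k134 9 (.s k166 k242 13 (.d k46 k30 k226 3
  9))))), (.s k60 k61 0 (.s k150 k194 13 (.s k30 k210 9 (.s k15 k45 4 (.s k47 k31 3 (.d k165 k224
  k240 10 14)))))), (.s k60 k61 0 (.s k122 k74 3 (.s k182 k242 9 (.s k121 k243 10 (.s k240 k181 10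
  (.d k120 k123 k180 0 9)))))), (.s k60 k61 0 (.s k150 k194 13 (.s k210 k30 9 (.s k195 k105 14 (.s
  k122 k74 3 (.d k240 k225 k181 4 10))))))] .n)

def t42_192_72 : T TT 256 :=
  (.q k12 [(.s k46 k29 4 (.s k30 k14 3 (.s k60 k61 0 (.s k44 k28 3 (.d k45 k47 k15 0 4))))), (.s k4
  k8 1 (.s k60 k61 0 (.s k20 k40 5 (.s k36 k52 3 (.s k24 k48 5 (.d k28 k16 k44 1 3)))))), (.s k46
  k29 4 (.s k14 k30 3 (.s k166 k226 9 (.s k90 k242 13 (.s k194 k150 13 (.d k74 k122 k134 3 9))))))]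
  (.c k28 (.l (.s k46 k29 4 (.s k166 k226 9 (.s k243 k89 14 (.s k60 k61 0 (.s k182 k121 10 (.d k150
  k134 k194 3 13))))))) .n))

def t42_192_73 : T TT 256 :=
  (.q k12 [(.s k46 k29 4 (.s k30 k14 3 (.s k60 k61 0 (.s k44 k28 3 (.d k45 k47 k15 0 4))))), (.s k4
  k8 1 (.s k60 k61 0 (.s k20 k40 5 (.s k36 k52 3 (.s k24 k48 5 (.d k28 k16 k44 1 3)))))), (.s k46
  k29 4 (.s k14 k30 3 (.s k166 k226 9 (.s k90 k242 13 (.s k194 k150 13 (.d k74 k122 k134 3 9))))))]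
  (.c k28 (.l (.s k46 k29 4 (.s k166 k226 9 (.s k243 k89 14 (.s k60 k61 0 (.s k150 k194 13 (.d k182
  k121 k134 10 3))))))) .n))

def t42_192_74 : T TT 256 :=
  (.q k15 [(.s k31 k47 3 (.s k60 k61 0 (.s k30 k45 4 (.s k29 k28 0 (.d k46 k14 k12 3 4))))), (.s k47
  k31 3 (.s k165 k224 10 (.s k240 k90 14 (.s k60 k61 0 (.s k180 k120 9 (.d k150 k135 k194 4
  13)))))), (.s k60 k61 0 (.s k30 k45 4 (.s k150 k194 13 (.s k90 k210 9 (.s k165 k240 14 (.s k195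
  k105 14 (.d k135 k180 k75 4 9)))))))] (.c k60 (.q k12 [(.s k14 k13 0 (.d k46 k30 k29 3 4)), (.s k4
  k8 1 (.s k5 k10 2 (.s k6 k7 0 (.s k9 k3 2 (.d k13 k14 k1 0 1))))), (.s k46 k29 4 (.s k47 k31 3 (.s
  k166 k226 9 (.s k243 k89 14 (.s k167 k91 13 (.d k165 k164 k224 0 10))))))] (.c k104 (.q k148 [(.s
  k14 k13 0 (.d k46 k30 k29 3 4)), (.s k4 k8 1 (.s k5 k10 2 (.s k6 k7 0 (.s k9 k3 2 (.d k13 k14 k1 0
  1))))), (.s k29 k46 4 (.s k31 k47 3 (.s k28 k30 0 (.s k208 k88 9 (.s k149 k90 10 (.d k150 k151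
  k194 0 13))))))] .n) (.c k148 (.q k104 [(.s k14 k13 0 (.d k46 k30 k29 3 4)), (.s k4 k8 1 (.s k5
  k10 2 (.s k6 k7 0 (.s k9 k3 2 (.d k13 k14 k1 0 1))))), (.s k46 k29 4 (.s k47 k31 3 (.s k224 k165
  10 (.d k44 k45 k164 0 9))))] .n) .n))) (.c k61 (.l (.s k47 k31 3 (.s k165 k224 10 (.s k150 k194 13
  (.s k135 k180 4 (.s k195 k75 9 (.s k105 k60 14 (.d k107 k104 k151 0 13)))))))) .n)))

def t42_192_75 : T TT 256 :=
  (.q k12 [(.s k46 k29 4 (.s k30 k14 3 (.s k60 k61 0 (.s k44 k28 3 (.d k45 k47 k15 0 4))))), (.s k4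
  k8 1 (.s k60 k61 0 (.s k20 k40 5 (.s k36 k52 3 (.s k24 k48 5 (.d k28 k16 k44 1 3)))))), (.s k46
  k29 4 (.s k14 k30 3 (.s k166 k226 9 (.s k90 k242 13 (.s k194 k150 13 (.d k74 k122 k134 3 9))))))]
  (.c k28 (.l (.s k46 k29 4 (.s k166 k226 9 (.s k243 k89 14 (.s k60 k61 0 (.s k182 k121 10 (.d k150
  k134 k194 3 13))))))) .n))

def t42_192_76 : T TT 256 :=
  (.q k12 [(.s k46 k29 4 (.s k30 k14 3 (.s k60 k61 0 (.s k44 k28 3 (.d k45 k47 k15 0 4))))), (.s k4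
  k8 1 (.s k60 k61 0 (.s k20 k40 5 (.s k36 k52 3 (.s k24 k48 5 (.d k28 k16 k44 1 3)))))), (.s k46
  k29 4 (.s k14 k30 3 (.s k166 k226 9 (.s k90 k242 13 (.s k194 k150 13 (.d k74 k122 k134 3 9))))))]
  (.c k28 (.l (.s k46 k29 4 (.s k166 k226 9 (.s k243 k89 14 (.s k60 k61 0 (.s k182 k121 10 (.d k150
  k134 k194 3 13))))))) .n))

def t42_192_77 : T TT 256 :=
  (.q k12 [(.s k46 k29 4 (.s k30 k14 3 (.s k60 k61 0 (.s k44 k28 3 (.d k45 k47 k15 0 4))))), (.s k4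
  k8 1 (.s k60 k61 0 (.s k20 k40 5 (.s k36 k52 3 (.s k24 k48 5 (.d k28 k16 k44 1 3)))))), (.s k46
  k29 4 (.s k14 k30 3 (.s k166 k226 9 (.s k90 k242 13 (.s k194 k150 13 (.d k74 k122 k134 3 9))))))]
  (.c k28 (.l (.s k46 k29 4 (.s k166 k226 9 (.s k243 k89 14 (.s k60 k61 0 (.s k182 k121 10 (.d k150
  k134 k194 3 13))))))) .n))

def t42_192_78 : T TT 256 :=
  (.q k12 [(.s k46 k29 4 (.s k30 k14 3 (.s k60 k61 0 (.s k44 k28 3 (.d k45 k47 k15 0 4))))), (.s k4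
  k8 1 (.s k60 k61 0 (.s k20 k40 5 (.s k36 k52 3 (.s k24 k48 5 (.d k28 k16 k44 1 3)))))), (.s k46
  k29 4 (.s k14 k30 3 (.s k166 k226 9 (.s k90 k242 13 (.s k194 k150 13 (.d k74 k122 k134 3 9))))))]
  (.c k28 (.l (.s k46 k29 4 (.s k166 k226 9 (.s k243 k89 14 (.s k60 k61 0 (.s k182 k121 10 (.d k150
  k134 k194 3 13))))))) .n))

def t42_192_79 : T TT 256 :=
  (.q k12 [(.s k46 k29 4 (.s k30 k14 3 (.s k60 k61 0 (.s k44 k28 3 (.d k45 k47 k15 0 4))))), (.s k4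
  k8 1 (.s k60 k61 0 (.s k20 k40 5 (.s k36 k52 3 (.s k24 k48 5 (.d k28 k16 k44 1 3)))))), (.s k46
  k29 4 (.s k14 k30 3 (.s k166 k226 9 (.s k90 k242 13 (.s k194 k150 13 (.d k74 k122 k134 3 9))))))]
  (.c k28 (.l (.s k46 k29 4 (.s k166 k226 9 (.s k243 k89 14 (.s k60 k61 0 (.s k182 k121 10 (.d k150
  k134 k194 3 13))))))) .n))

def t42_192_80 : T TT 256 :=
  (.q k12 [(.s k46 k29 4 (.s k30 k14 3 (.s k60 k61 0 (.s k44 k28 3 (.d k45 k47 k15 0 4))))), (.s k4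
  k8 1 (.s k60 k61 0 (.s k20 k40 5 (.s k36 k52 3 (.s k24 k48 5 (.d k28 k16 k44 1 3)))))), (.s k46
  k29 4 (.s k14 k30 3 (.s k166 k226 9 (.s k90 k242 13 (.s k194 k150 13 (.d k74 k122 k134 3 9))))))]
  (.c k28 (.l (.s k46 k29 4 (.s k166 k226 9 (.s k243 k89 14 (.s k60 k61 0 (.s k182 k121 10 (.d k150
  k134 k194 3 13))))))) .n))

def t42_192_81 : T TT 256 :=
  (.q k12 [(.s k46 k29 4 (.s k30 k14 3 (.s k60 k61 0 (.s k44 k28 3 (.d k45 k47 k15 0 4))))), (.s k4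
  k8 1 (.s k60 k61 0 (.s k20 k40 5 (.s k36 k52 3 (.s k24 k48 5 (.d k28 k16 k44 1 3)))))), (.s k46
  k29 4 (.s k14 k30 3 (.s k166 k226 9 (.s k90 k242 13 (.s k194 k150 13 (.d k74 k122 k134 3 9))))))]
  (.c k28 (.l (.s k46 k29 4 (.s k166 k226 9 (.s k243 k89 14 (.s k60 k61 0 (.s k182 k121 10 (.d k150
  k134 k194 3 13))))))) .n))

def t42_192_82 : T TT 256 :=
  (.q k12 [(.s k46 k29 4 (.s k30 k14 3 (.s k60 k61 0 (.s k44 k28 3 (.d k45 k47 k15 0 4))))), (.s k4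
  k8 1 (.s k60 k61 0 (.s k20 k40 5 (.s k36 k52 3 (.s k24 k48 5 (.d k28 k16 k44 1 3)))))), (.s k46
  k29 4 (.s k14 k30 3 (.s k166 k226 9 (.s k90 k242 13 (.s k194 k150 13 (.d k74 k122 k134 3 9))))))]
  (.c k28 (.l (.s k46 k29 4 (.s k166 k226 9 (.s k243 k89 14 (.s k60 k61 0 (.s k182 k121 10 (.d k150
  k134 k194 3 13))))))) .n))

def t42_192_83 : T TT 256 :=
  (.q k12 [(.s k46 k29 4 (.s k30 k14 3 (.s k60 k61 0 (.s k44 k28 3 (.d k45 k47 k15 0 4))))), (.s k4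
  k8 1 (.s k60 k61 0 (.s k20 k40 5 (.s k36 k52 3 (.s k24 k48 5 (.d k28 k16 k44 1 3)))))), (.s k46
  k29 4 (.s k14 k30 3 (.s k166 k226 9 (.s k90 k242 13 (.s k194 k150 13 (.d k74 k122 k134 3 9))))))]
  (.c k28 (.l (.s k46 k29 4 (.s k166 k226 9 (.s k243 k89 14 (.s k60 k61 0 (.s k182 k121 10 (.d k150
  k134 k194 3 13))))))) .n))

def t42_192_84 : T TT 256 :=
  (.q k12 [(.s k46 k29 4 (.s k30 k14 3 (.s k60 k61 0 (.s k44 k28 3 (.d k45 k47 k15 0 4))))), (.s k4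
  k8 1 (.s k60 k61 0 (.s k20 k40 5 (.s k36 k52 3 (.s k24 k48 5 (.d k28 k16 k44 1 3)))))), (.s k46
  k29 4 (.s k14 k30 3 (.s k166 k226 9 (.s k90 k242 13 (.s k194 k150 13 (.d k74 k122 k134 3 9))))))]
  (.c k28 (.l (.s k46 k29 4 (.s k166 k226 9 (.s k243 k89 14 (.s k60 k61 0 (.s k182 k121 10 (.d k150
  k134 k194 3 13))))))) .n))

def t42_192_85 : T TT 256 :=
  (.q k12 [(.s k46 k29 4 (.s k30 k14 3 (.s k60 k61 0 (.s k44 k28 3 (.d k45 k47 k15 0 4))))), (.s k4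
  k8 1 (.s k60 k61 0 (.s k20 k40 5 (.s k36 k52 3 (.s k24 k48 5 (.d k28 k16 k44 1 3)))))), (.s k46
  k29 4 (.s k14 k30 3 (.s k166 k226 9 (.s k90 k242 13 (.s k194 k150 13 (.d k74 k122 k134 3 9))))))]
  (.c k28 (.l (.s k46 k29 4 (.s k166 k226 9 (.s k243 k89 14 (.s k60 k61 0 (.s k182 k121 10 (.d k150
  k134 k194 3 13))))))) .n))

def t42_192_86 : T TT 256 :=
  (.q k12 [(.s k46 k29 4 (.s k30 k14 3 (.s k60 k61 0 (.s k44 k28 3 (.d k45 k47 k15 0 4))))), (.s k4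
  k8 1 (.s k60 k61 0 (.s k20 k40 5 (.s k36 k52 3 (.s k24 k48 5 (.d k28 k16 k44 1 3)))))), (.s k46
  k29 4 (.s k14 k30 3 (.s k166 k226 9 (.s k90 k242 13 (.s k194 k150 13 (.d k74 k122 k134 3 9))))))]
  (.c k2 (.q k254 [(.s k46 k29 4 (.s k30 k14 3 (.s k60 k61 0 (.s k44 k28 3 (.d k45 k47 k15 0 4))))),
  (.s k4 k8 1 (.s k60 k61 0 (.s k20 k40 5 (.s k36 k52 3 (.s k24 k48 5 (.d k28 k16 k44 1 3)))))), (.s
  k46 k29 4 (.s k14 k30 3 (.s k94 k174 11 (.s k126 k190 7 (.s k252 k189 8 (.d k15 k13 k173 0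
  12))))))] (.c k28 (.l (.s k46 k29 4 (.s k166 k226 9 (.s k243 k89 14 (.s k60 k61 0 (.s k182 k121 10
  (.d k150 k134 k194 3 13))))))) .n)) (.c k28 (.l (.s k46 k29 4 (.s k166 k226 9 (.s k243 k89 14 (.s
  k60 k61 0 (.s k182 k121 10 (.d k150 k134 k194 3 13))))))) (.c k254 (.q k2 [(.s k3 k1 0 (.s k46 k29
  4 (.s k14 k30 3 (.d k6 k10 k9 1 2)))), (.s k4 k8 1 (.s k60 k61 0 (.s k20 k40 5 (.s k36 k52 3 (.s
  k24 k48 5 (.d k28 k16 k44 1 3))))))] (.c k28 (.l (.s k3 k1 0 (.s k6 k9 2 (.s k14 k10 1 (.d k46 k30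
  k29 3 4))))) .n)) .n))))

def t42_192_87 : T TT 256 :=
  (.q k12 [(.s k46 k29 4 (.s k30 k14 3 (.s k60 k61 0 (.s k44 k28 3 (.d k45 k47 k15 0 4))))), (.s k4
  k8 1 (.s k60 k61 0 (.s k20 k40 5 (.s k36 k52 3 (.s k24 k48 5 (.d k28 k16 k44 1 3)))))), (.s k46
  k29 4 (.s k14 k30 3 (.s k166 k226 9 (.s k90 k242 13 (.s k194 k150 13 (.d k74 k122 k134 3 9))))))]
  (.c k28 (.l (.s k46 k29 4 (.s k166 k226 9 (.s k243 k89 14 (.s k60 k61 0 (.s k182 k121 10 (.d k150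
  k134 k194 3 13))))))) .n))

def t42_192_88 : T TT 256 :=
  (.q k12 [(.s k46 k29 4 (.s k30 k14 3 (.s k60 k61 0 (.s k44 k28 3 (.d k45 k47 k15 0 4))))), (.s k4
  k8 1 (.s k60 k61 0 (.s k20 k40 5 (.s k36 k52 3 (.s k24 k48 5 (.d k28 k16 k44 1 3)))))), (.s k46
  k29 4 (.s k14 k30 3 (.s k166 k226 9 (.s k90 k242 13 (.s k194 k150 13 (.d k74 k122 k134 3 9))))))]
  (.c k28 (.l (.s k46 k29 4 (.s k166 k226 9 (.s k243 k89 14 (.s k60 k61 0 (.s k182 k121 10 (.d k150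
  k134 k194 3 13))))))) .n))

def t42_192_89 : T TT 256 :=
  (.q k8 [(.s k12 k4 1 (.s k60 k61 0 (.s k40 k20 5 (.s k24 k56 3 (.s k36 k48 5 (.d k44 k32 k28 1
  3)))))), (.s k12 k4 1 (.s k46 k29 4 (.s k14 k30 3 (.s k166 k226 9 (.s k90 k242 13 (.s k194 k150 13
  (.d k74 k122 k134 3 9)))))))] (.c k4 (.q k90 [(.s k150 k194 13 (.s k30 k210 9 (.s k122 k74 3 (.s
  k242 k182 9 (.d k14 k46 k166 3 13))))), (.s k60 k61 0 (.s k122 k74 3 (.s k182 k242 9 (.s k121 k243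
  10 (.s k240 k181 10 (.d k120 k123 k180 0 9)))))), (.s k60 k61 0 (.s k150 k194 13 (.s k30 k210 9
  (.s k15 k45 4 (.s k47 k31 3 (.d k165 k224 k240 10 14)))))), (.s k60 k61 0 (.s k150 k194 13 (.s
  k210 k30 9 (.s k195 k105 14 (.s k122 k74 3 (.d k240 k225 k181 4 10))))))] (.c k15 (.l (.s k150
  k194 13 (.s k30 k210 9 (.s k14 k46 3 (.s k242 k166 13 (.d k122 k74 k182 3 9)))))) .n)) (.c k12 (.l
  (.s k60 k61 0 (.s k40 k20 5 (.s k56 k24 3 (.s k48 k52 1 (.s k58 k53 2 (.s k54 k50 1 (.d k57 k59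
  k51 0 2)))))))) (.c k28 (.l (.s k12 k4 1 (.s k46 k29 4 (.s k166 k226 9 (.s k60 k61 0 (.s k150 k194
  13 (.s k195 k105 14 (.d k134 k73 k182 10 3)))))))) .n))))

def t42_192_90 : T TT 256 :=
  (.q k58 [(.s k48 k53 2 (.s k54 k50 1 (.s k60 k61 0 (.s k56 k52 1 (.d k57 k59 k51 0 2))))), (.s k50
  k54 1 (.s k154 k202 11 (.s k102 k206 13 (.s k194 k150 13 (.d k98 k110 k146 1 11))))), (.s k48 k53
  2 (.s k154 k202 11 (.s k207 k101 14 (.s k60 k61 0 (.s k158 k109 12 (.d k150 k146 k194 1 13))))))]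
  (.c k10 (.q k250 [(.s k48 k53 2 (.s k54 k50 1 (.s k60 k61 0 (.s k56 k52 1 (.d k57 k59 k51 0
  2))))), (.s k50 k54 1 (.s k154 k202 11 (.s k102 k206 13 (.s k194 k150 13 (.d k98 k110 k146 1
  11))))), (.s k48 k53 2 (.s k154 k202 11 (.s k207 k101 14 (.s k60 k61 0 (.s k158 k109 12 (.d k150
  k146 k194 1 13))))))] .n) (.c k250 (.q k10 [(.s k48 k53 2 (.s k54 k50 1 (.s k60 k61 0 (.s k56 k52
  1 (.d k57 k59 k51 0 2))))), (.s k50 k54 1 (.s k154 k202 11 (.s k102 k206 13 (.s k194 k150 13 (.d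
  k98 k110 k146 1 11))))), (.s k15 k5 2 (.s k31 k47 3 (.s k60 k61 0 (.s k30 k45 4 (.s k46 k14 3 (.d
  k29 k28 k12 0 4))))))] .n) .n)))

def t42_192_91 : T TT 256 :=
  (.q k12 [(.s k46 k29 4 (.s k30 k14 3 (.s k60 k61 0 (.s k44 k28 3 (.d k45 k47 k15 0 4))))), (.s k4
  k8 1 (.s k60 k61 0 (.s k20 k40 5 (.s k36 k52 3 (.s k24 k48 5 (.d k28 k16 k44 1 3)))))), (.s k46
  k29 4 (.s k14 k30 3 (.s k166 k226 9 (.s k90 k242 13 (.s k194 k150 13 (.d k74 k122 k134 3 9))))))]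
  (.c k28 (.l (.s k46 k29 4 (.s k166 k226 9 (.s k243 k89 14 (.s k60 k61 0 (.s k182 k121 10 (.d k150
  k134 k194 3 13))))))) .n))

def t42_192_92 : T TT 256 :=
  (.q k12 [(.s k46 k29 4 (.s k30 k14 3 (.s k60 k61 0 (.s k44 k28 3 (.d k45 k47 k15 0 4))))), (.s k4
  k8 1 (.s k60 k61 0 (.s k20 k40 5 (.s k36 k52 3 (.s k24 k48 5 (.d k28 k16 k44 1 3)))))), (.s k46
  k29 4 (.s k14 k30 3 (.s k166 k226 9 (.s k90 k242 13 (.s k194 k150 13 (.d k74 k122 k134 3 9))))))]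
  (.c k28 (.l (.s k46 k29 4 (.s k166 k226 9 (.s k243 k89 14 (.s k60 k61 0 (.s k182 k121 10 (.d k150
  k134 k194 3 13))))))) .n))

def t42_192_93 : T TT 256 :=
  (.q k12 [(.s k46 k29 4 (.s k30 k14 3 (.s k60 k61 0 (.s k44 k28 3 (.d k45 k47 k15 0 4))))), (.s k4
  k8 1 (.s k60 k61 0 (.s k20 k40 5 (.s k36 k52 3 (.s k24 k48 5 (.d k28 k16 k44 1 3)))))), (.s k46
  k29 4 (.s k14 k30 3 (.s k166 k226 9 (.s k90 k242 13 (.s k194 k150 13 (.d k74 k122 k134 3 9))))))]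
  (.c k28 (.l (.s k46 k29 4 (.s k166 k226 9 (.s k243 k89 14 (.s k60 k61 0 (.s k182 k121 10 (.d k150
  k134 k194 3 13))))))) .n))

def t42_192_94 : T TT 256 :=
  (.q k12 [(.s k46 k29 4 (.s k30 k14 3 (.s k60 k61 0 (.s k44 k28 3 (.d k45 k47 k15 0 4))))), (.s k4
  k8 1 (.s k60 k61 0 (.s k20 k40 5 (.s k36 k52 3 (.s k24 k48 5 (.d k28 k16 k44 1 3)))))), (.s k46
  k29 4 (.s k14 k30 3 (.s k166 k226 9 (.s k90 k242 13 (.s k194 k150 13 (.d k74 k122 k134 3 9))))))]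
  (.c k28 (.l (.s k46 k29 4 (.s k166 k226 9 (.s k243 k89 14 (.s k60 k61 0 (.s k182 k121 10 (.d k150
  k134 k194 3 13))))))) .n))

def t42_192_95 : T TT 256 :=
  (.q k12 [(.s k46 k29 4 (.s k30 k14 3 (.s k60 k61 0 (.s k44 k28 3 (.d k45 k47 k15 0 4))))), (.s k4
  k8 1 (.s k60 k61 0 (.s k20 k40 5 (.s k36 k52 3 (.s k24 k48 5 (.d k28 k16 k44 1 3)))))), (.s k46
  k29 4 (.s k14 k30 3 (.s k166 k226 9 (.s k90 k242 13 (.s k194 k150 13 (.d k74 k122 k134 3 9))))))]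
  (.c k28 (.l (.s k46 k29 4 (.s k166 k226 9 (.s k243 k89 14 (.s k60 k61 0 (.s k182 k121 10 (.d k150
  k134 k194 3 13))))))) .n))

def t42_192_96 : T TT 256 :=
  (.f k150 k194 13 (.l (.s k60 k61 0 (.s k20 k40 5 (.s k85 k215 8 (.s k127 k64 6 (.s k255 k191 7 (.s
  k125 k190 8 (.d k105 k65 k195 5 14)))))))))

def t42_192_97 : T TT 256 :=
  (.f k150 k194 13 (.l (.s k60 k61 0 (.s k20 k40 5 (.s k85 k215 8 (.s k127 k64 6 (.s k255 k191 7 (.s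
  k125 k190 8 (.d k105 k65 k195 5 14)))))))))

def t42_192_98 : T TT 256 :=
  (.f k150 k194 13 (.l (.s k60 k61 0 (.s k20 k40 5 (.s k85 k215 8 (.s k127 k64 6 (.s k255 k191 7 (.s
  k125 k190 8 (.d k105 k65 k195 5 14)))))))))

def t42_192_99 : T TT 256 :=
  (.f k150 k194 13 (.l (.s k60 k61 0 (.s k20 k40 5 (.s k85 k215 8 (.s k127 k64 6 (.s k255 k191 7 (.s
  k125 k190 8 (.d k105 k65 k195 5 14)))))))))

def t42_192_100 : T TT 256 :=
  (.f k150 k194 13 (.l (.s k60 k61 0 (.s k20 k40 5 (.s k85 k215 8 (.s k127 k64 6 (.s k255 k191 7 (.s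
  k125 k190 8 (.d k105 k65 k195 5 14)))))))))

def t42_192_101 : T TT 256 :=
  (.f k150 k194 13 (.l (.s k60 k61 0 (.s k20 k40 5 (.s k85 k215 8 (.s k127 k64 6 (.s k255 k191 7 (.s
  k125 k190 8 (.d k105 k65 k195 5 14)))))))))

def t42_192_102 : T TT 256 :=
  (.f k150 k194 13 (.l (.s k60 k61 0 (.s k20 k40 5 (.s k85 k215 8 (.s k127 k64 6 (.s k255 k191 7 (.s
  k125 k190 8 (.d k105 k65 k195 5 14)))))))))

def t42_192_103 : T TT 256 :=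
  (.f k150 k194 13 (.l (.s k60 k61 0 (.s k20 k40 5 (.s k85 k215 8 (.s k127 k64 6 (.s k255 k191 7 (.s
  k125 k190 8 (.d k105 k65 k195 5 14)))))))))

def t42_192_104 : T TT 256 :=
  (.f k150 k194 13 (.l (.s k60 k61 0 (.s k20 k40 5 (.s k85 k215 8 (.s k127 k64 6 (.s k255 k191 7 (.s
  k125 k190 8 (.d k105 k65 k195 5 14)))))))))

def t42_192_105 : T TT 256 :=
  (.q k12 [(.s k46 k29 4 (.s k30 k14 3 (.s k60 k61 0 (.s k44 k28 3 (.d k45 k47 k15 0 4))))), (.s k46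
  k29 4 (.s k14 k30 3 (.s k166 k226 9 (.s k90 k242 13 (.s k74 k122 3 (.d k194 k134 k150 9 13)))))),
  (.s k8 k4 1 (.s k60 k61 0 (.s k40 k20 5 (.s k24 k56 3 (.s k36 k48 5 (.d k44 k32 k28 1 3))))))] (.c
  k28 (.l (.s k46 k29 4 (.s k166 k226 9 (.s k243 k89 14 (.s k60 k61 0 (.s k150 k194 13 (.d k182 k121
  k134 10 3))))))) (.c k40 (.q k235 [(.s k46 k29 4 (.s k30 k14 3 (.s k60 k61 0 (.s k44 k28 3 (.d k45
  k47 k15 0 4))))), (.s k46 k29 4 (.s k14 k30 3 (.s k166 k226 9 (.s k90 k242 13 (.s k74 k122 3 (.d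
  k194 k134 k150 9 13)))))), (.s k60 k61 0 (.s k28 k44 3 (.s k150 k194 13 (.s k89 k211 10 (.s k123
  k72 4 (.d k243 k166 k183 14 9))))))] (.c k28 (.l (.s k46 k29 4 (.s k166 k226 9 (.s k243 k89 14 (.s
  k60 k61 0 (.s k150 k194 13 (.d k182 k121 k134 10 3))))))) (.c k41 (.q k43 [(.s k3 k23 5 (.s k2 k1
  0 (.s k46 k29 4 (.s k14 k30 3 (.d k6 k10 k9 1 2))))), (.s k46 k29 4 (.s k30 k14 3 (.s k60 k61 0
  (.s k44 k28 3 (.d k45 k47 k15 0 4))))), (.s k8 k4 1 (.s k3 k23 5 (.s k1 k2 0 (.s k9 k6 2 (.s k10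
  k11 0 (.d k5 k13 k15 1 2))))))] (.c k1 (.l (.s k3 k23 5 (.s k6 k9 2 (.s k46 k29 4 (.s k14 k30 3
  (.s k10 k2 1 (.d k15 k13 k5 0 2))))))) (.c k14 (.l (.s k8 k4 1 (.s k3 k23 5 (.s k1 k2 0 (.s k9 k6
  2 (.s k10 k11 0 (.d k5 k13 k15 1 2))))))) (.c k169 (.q k233 [(.s k46 k29 4 (.s k30 k14 3 (.s k60
  k61 0 (.s k44 k28 3 (.d k45 k47 k15 0 4))))), (.s k8 k4 1 (.s k3 k23 5 (.s k1 k2 0 (.s k9 k6 2 (.s
  k10 k11 0 (.d k5 k13 k15 1 2)))))), (.s k3 k23 5 (.s k2 k1 0 (.s k46 k29 4 (.s k14 k30 3 (.d k6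
  k10 k9 1 2)))))] (.c k1 (.l (.s k3 k23 5 (.s k6 k9 2 (.s k46 k29 4 (.s k14 k30 3 (.s k10 k2 1 (.d
  k15 k13 k5 0 2))))))) (.c k14 (.l (.s k8 k4 1 (.s k3 k23 5 (.s k1 k2 0 (.s k9 k6 2 (.s k10 k11 0
  (.d k5 k13 k15 1 2))))))) (.c k168 (.l (.s k171 k107 7 (.s k3 k23 5 (.s k2 k1 0 (.s k6 k9 2 (.s
  k14 k10 1 (.d k46 k30 k29 3 4))))))) (.c k171 (.q k168 [(.s k252 k84 13 (.s k214 k195 6 (.s k234
  k232 0 (.d k194 k150 k254 13 5)))), (.s k3 k23 5 (.s k2 k1 0 (.s k6 k9 2 (.s k14 k10 1 (.d k46 k30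
  k29 3 4)))))] .n) .n))))) (.c k233 (.l (.s k169 k232 8 (.s k3 k23 5 (.s k2 k1 0 (.s k6 k9 2 (.s
  k14 k10 1 (.d k46 k30 k29 3 4))))))) .n))))) (.c k43 (.q k41 [(.s k46 k29 4 (.s k30 k14 3 (.s k60
  k61 0 (.s k44 k28 3 (.d k45 k47 k15 0 4))))), (.s k4 k8 1 (.s k29 k46 4 (.s k61 k60 0 (.s k21 k1 5
  (.s k38 k55 4 (.d k25 k17 k51 1 6)))))), (.s k4 k8 1 (.s k60 k61 0 (.s k44 k28 3 (.s k38 k35 2 (.s
  k55 k21 4 (.d k51 k59 k25 1 6)))))), (.s k46 k29 4 (.s k14 k30 3 (.s k166 k226 9 (.s k90 k242 13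
  (.s k74 k122 3 (.d k194 k134 k150 9 13))))))] .n) .n)))) (.c k235 (.q k40 [(.d k60 k61 k20 0 5),
  (.s k46 k29 4 (.s k14 k30 3 (.s k166 k226 9 (.s k90 k242 13 (.s k74 k122 3 (.d k194 k134 k150 9
  13))))))] .n) .n))))

def t42_192_107 : T TT 256 :=
  (.q k58 [(.s k48 k53 2 (.s k54 k50 1 (.s k60 k61 0 (.s k56 k52 1 (.d k57 k59 k51 0 2))))), (.s k50
  k54 1 (.s k154 k202 11 (.s k102 k206 13 (.s k194 k150 13 (.d k98 k110 k146 1 11))))), (.s k48 k53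
  2 (.s k154 k202 11 (.s k207 k101 14 (.s k60 k61 0 (.s k158 k109 12 (.d k150 k146 k194 1 13))))))]
  .n)

def t42_192_108 : T TT 256 :=
  (.q k58 [(.s k48 k53 2 (.s k54 k50 1 (.s k60 k61 0 (.s k56 k52 1 (.d k57 k59 k51 0 2))))), (.s k50
  k54 1 (.s k154 k202 11 (.s k102 k206 13 (.s k194 k150 13 (.d k98 k110 k146 1 11))))), (.s k48 k53
  2 (.s k154 k202 11 (.s k207 k101 14 (.s k60 k61 0 (.s k158 k109 12 (.d k150 k146 k194 1 13))))))]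
  .n)

def t42_192_109 : T TT 256 :=
  (.q k58 [(.s k48 k53 2 (.s k54 k50 1 (.s k60 k61 0 (.s k56 k52 1 (.d k57 k59 k51 0 2))))), (.s k50
  k54 1 (.s k154 k202 11 (.s k102 k206 13 (.s k194 k150 13 (.d k98 k110 k146 1 11))))), (.s k48 k53
  2 (.s k154 k202 11 (.s k60 k61 0 (.s k52 k56 1 (.s k150 k194 13 (.d k101 k207 k199 14 12))))))]
  .n)

def t42_192_110 : T TT 256 :=
  (.q k58 [(.s k48 k53 2 (.s k54 k50 1 (.s k60 k61 0 (.s k56 k52 1 (.d k57 k59 k51 0 2))))), (.s k48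
  k53 2 (.s k154 k202 11 (.s k150 k194 13 (.s k146 k158 1 (.s k195 k97 12 (.s k105 k60 14 (.d k107
  k104 k151 0 13)))))))] (.c k48 (.l (.s k54 k50 1 (.s k60 k61 0 (.s k51 k57 2 (.s k59 k55 1 (.s
  k153 k200 12 (.s k150 k194 13 (.d k102 k204 k198 14 11)))))))) (.c k53 (.l (.s k54 k50 1 (.s k154
  k202 11 (.s k60 k61 0 (.s k57 k51 2 (.s k56 k59 0 (.s k105 k203 12 (.d k150 k194 k195 13
  14)))))))) (.c k60 (.l (.s k48 k53 2 (.s k32 k16 3 (.s k50 k54 1 (.s k51 k49 0 (.s k34 k17 4 (.s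
  k18 k2 3 (.d k33 k35 k3 0 4)))))))) .n))))

def t42_192_111 : T TT 256 :=
  (.q k58 [(.s k48 k53 2 (.s k54 k50 1 (.s k60 k61 0 (.s k56 k52 1 (.d k57 k59 k51 0 2))))), (.s k50
  k54 1 (.s k154 k202 11 (.s k102 k206 13 (.s k194 k150 13 (.d k98 k110 k146 1 11))))), (.s k48 k53
  2 (.s k154 k202 11 (.s k207 k101 14 (.s k60 k61 0 (.s k158 k109 12 (.d k150 k146 k194 1 13))))))]
  .n)

def t42_192_112 : T TT 256 :=
  (.q k58 [(.s k48 k53 2 (.s k54 k50 1 (.s k60 k61 0 (.s k56 k52 1 (.d k57 k59 k51 0 2))))), (.s k50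
  k54 1 (.s k154 k202 11 (.s k102 k206 13 (.s k194 k150 13 (.d k98 k110 k146 1 11))))), (.s k48 k53
  2 (.s k154 k202 11 (.s k207 k101 14 (.s k60 k61 0 (.s k158 k109 12 (.d k150 k146 k194 1 13))))))]
  .n)

def t42_192_113 : T TT 256 :=
  (.q k58 [(.s k48 k53 2 (.s k54 k50 1 (.s k60 k61 0 (.s k56 k52 1 (.d k57 k59 k51 0 2))))), (.s k50
  k54 1 (.s k154 k202 11 (.s k102 k206 13 (.s k194 k150 13 (.d k98 k110 k146 1 11))))), (.s k48 k53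
  2 (.s k154 k202 11 (.s k207 k101 14 (.s k60 k61 0 (.s k158 k109 12 (.d k150 k146 k194 1 13))))))]
  .n)

def t42_192_114 : T TT 256 :=
  (.q k58 [(.s k48 k53 2 (.s k54 k50 1 (.s k60 k61 0 (.s k56 k52 1 (.d k57 k59 k51 0 2))))), (.s k50
  k54 1 (.s k154 k202 11 (.s k102 k206 13 (.s k194 k150 13 (.d k98 k110 k146 1 11))))), (.s k48 k53
  2 (.s k154 k202 11 (.s k207 k101 14 (.s k60 k61 0 (.s k158 k109 12 (.d k150 k146 k194 1 13))))))]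
  .n)

def t42_192_115 : T TT 256 :=
  (.q k58 [(.s k48 k53 2 (.s k54 k50 1 (.s k60 k61 0 (.s k56 k52 1 (.d k57 k59 k51 0 2))))), (.s k50
  k54 1 (.s k154 k202 11 (.s k102 k206 13 (.s k194 k150 13 (.d k98 k110 k146 1 11))))), (.s k48 k53
  2 (.s k154 k202 11 (.s k207 k101 14 (.s k60 k61 0 (.s k158 k109 12 (.d k150 k146 k194 1 13))))))]
  .n)

def t42_192_116 : T TT 256 :=
  (.q k58 [(.s k48 k53 2 (.s k54 k50 1 (.s k60 k61 0 (.s k56 k52 1 (.d k57 k59 k51 0 2))))), (.s k50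
  k54 1 (.s k154 k202 11 (.s k102 k206 13 (.s k194 k150 13 (.d k98 k110 k146 1 11))))), (.s k48 k53
  2 (.s k154 k202 11 (.s k207 k101 14 (.s k60 k61 0 (.s k158 k109 12 (.d k150 k146 k194 1 13))))))]
  .n)

def t42_192_117 : T TT 256 :=
  (.q k58 [(.s k48 k53 2 (.s k54 k50 1 (.s k60 k61 0 (.s k56 k52 1 (.d k57 k59 k51 0 2))))), (.s k50
  k54 1 (.s k154 k202 11 (.s k102 k206 13 (.s k194 k150 13 (.d k98 k110 k146 1 11))))), (.s k48 k53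
  2 (.s k154 k202 11 (.s k207 k101 14 (.s k60 k61 0 (.s k158 k109 12 (.d k150 k146 k194 1 13))))))]
  .n)

def t42_192_118 : T TT 256 :=
  (.q k58 [(.s k48 k53 2 (.s k54 k50 1 (.s k60 k61 0 (.s k56 k52 1 (.d k57 k59 k51 0 2))))), (.s k50
  k54 1 (.s k154 k202 11 (.s k102 k206 13 (.s k194 k150 13 (.d k98 k110 k146 1 11))))), (.s k48 k53
  2 (.s k154 k202 11 (.s k207 k101 14 (.s k60 k61 0 (.s k158 k109 12 (.d k150 k146 k194 1 13))))))]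
  .n)

def t42_192_119 : T TT 256 :=
  (.q k58 [(.s k48 k53 2 (.s k54 k50 1 (.s k60 k61 0 (.s k56 k52 1 (.d k57 k59 k51 0 2))))), (.s k50
  k54 1 (.s k154 k202 11 (.s k102 k206 13 (.s k194 k150 13 (.d k98 k110 k146 1 11))))), (.s k48 k53
  2 (.s k154 k202 11 (.s k207 k101 14 (.s k60 k61 0 (.s k158 k109 12 (.d k150 k146 k194 1 13))))))]
  .n)

def t42_192_120 : T TT 256 :=
  (.q k58 [(.s k48 k53 2 (.s k54 k50 1 (.s k60 k61 0 (.s k56 k52 1 (.d k57 k59 k51 0 2))))), (.s k50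
  k54 1 (.s k154 k202 11 (.s k102 k206 13 (.s k194 k150 13 (.d k98 k110 k146 1 11))))), (.s k48 k53
  2 (.s k154 k202 11 (.s k207 k101 14 (.s k60 k61 0 (.s k158 k109 12 (.d k150 k146 k194 1 13))))))]
  .n)

def t42_192_121 : T TT 256 :=
  (.q k58 [(.s k48 k53 2 (.s k54 k50 1 (.s k60 k61 0 (.s k56 k52 1 (.d k57 k59 k51 0 2))))), (.s k50
  k54 1 (.s k154 k202 11 (.s k102 k206 13 (.s k194 k150 13 (.d k98 k110 k146 1 11))))), (.s k48 k53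
  2 (.s k154 k202 11 (.s k207 k101 14 (.s k60 k61 0 (.s k158 k109 12 (.d k150 k146 k194 1 13))))))]
  .n)

def t42_192_122 : T TT 256 :=
  (.q k58 [(.s k48 k53 2 (.s k54 k50 1 (.s k60 k61 0 (.s k56 k52 1 (.d k57 k59 k51 0 2))))), (.s k50
  k54 1 (.s k154 k202 11 (.s k102 k206 13 (.s k194 k150 13 (.d k98 k110 k146 1 11))))), (.s k48 k53
  2 (.s k154 k202 11 (.s k207 k101 14 (.s k60 k61 0 (.s k158 k109 12 (.d k150 k146 k194 1 13))))))]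
  .n)

def t42_192_123 : T TT 256 :=
  (.q k58 [(.s k48 k53 2 (.s k54 k50 1 (.s k60 k61 0 (.s k56 k52 1 (.d k57 k59 k51 0 2))))), (.s k50
  k54 1 (.s k154 k202 11 (.s k102 k206 13 (.s k194 k150 13 (.d k98 k110 k146 1 11))))), (.s k48 k53
  2 (.s k154 k202 11 (.s k207 k101 14 (.s k60 k61 0 (.s k158 k109 12 (.d k150 k146 k194 1 13))))))]
  .n)

def t42_192_124 : T TT 256 :=
  (.q k58 [(.s k48 k53 2 (.s k54 k50 1 (.s k60 k61 0 (.s k56 k52 1 (.d k57 k59 k51 0 2))))), (.s k50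
  k54 1 (.s k154 k202 11 (.s k102 k206 13 (.s k194 k150 13 (.d k98 k110 k146 1 11))))), (.s k48 k53
  2 (.s k154 k202 11 (.s k207 k101 14 (.s k60 k61 0 (.s k158 k109 12 (.d k150 k146 k194 1 13))))))]
  .n)

def t42_192_125 : T TT 256 :=
  (.q k58 [(.s k48 k53 2 (.s k54 k50 1 (.s k60 k61 0 (.s k56 k52 1 (.d k57 k59 k51 0 2))))), (.s k50
  k54 1 (.s k154 k202 11 (.s k102 k206 13 (.s k194 k150 13 (.d k98 k110 k146 1 11))))), (.s k48 k53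
  2 (.s k154 k202 11 (.s k207 k101 14 (.s k60 k61 0 (.s k158 k109 12 (.d k150 k146 k194 1 13))))))]
  .n)

def t42_192_126 : T TT 256 :=
  (.q k58 [(.s k48 k53 2 (.s k54 k50 1 (.s k60 k61 0 (.s k56 k52 1 (.d k57 k59 k51 0 2))))), (.s k50
  k54 1 (.s k154 k202 11 (.s k102 k206 13 (.s k194 k150 13 (.d k98 k110 k146 1 11))))), (.s k48 k53
  2 (.s k154 k202 11 (.s k207 k101 14 (.s k60 k61 0 (.s k158 k109 12 (.d k150 k146 k194 1 13))))))]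
  .n)

def t42_192_127 : T TT 256 :=
  (.q k58 [(.s k48 k53 2 (.s k54 k50 1 (.s k60 k61 0 (.s k56 k52 1 (.d k57 k59 k51 0 2))))), (.s k50
  k54 1 (.s k154 k202 11 (.s k102 k206 13 (.s k194 k150 13 (.d k98 k110 k146 1 11))))), (.s k48 k53
  2 (.s k154 k202 11 (.s k207 k101 14 (.s k60 k61 0 (.s k158 k109 12 (.d k150 k146 k194 1 13))))))]
  .n)

def t42_192_128 : T TT 256 :=
  (.q k58 [(.s k48 k53 2 (.s k54 k50 1 (.s k60 k61 0 (.s k56 k52 1 (.d k57 k59 k51 0 2))))), (.s k50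
  k54 1 (.s k154 k202 11 (.s k102 k206 13 (.s k194 k150 13 (.d k98 k110 k146 1 11))))), (.s k48 k53
  2 (.s k154 k202 11 (.s k207 k101 14 (.s k60 k61 0 (.s k158 k109 12 (.d k150 k146 k194 1 13))))))]
  (.c k149 (.q k191 [(.s k48 k53 2 (.s k54 k50 1 (.s k60 k61 0 (.s k56 k52 1 (.d k57 k59 k51 0
  2))))), (.s k50 k54 1 (.s k154 k202 11 (.s k102 k206 13 (.s k194 k150 13 (.d k98 k110 k146 1
  11))))), (.s k48 k53 2 (.s k16 k32 3 (.s k154 k202 11 (.s k85 k223 10 (.d k127 k64 k255 6 7)))))]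
  (.c k197 (.l (.s k53 k48 2 (.s k54 k50 1 (.s k55 k52 0 (.s k51 k59 1 (.d k60 k61 k57 0 2))))))
  .n)) (.c k191 (.q k149 [(.s k48 k53 2 (.s k154 k202 11 (.s k207 k101 14 (.d k159 k144 k111 2
  11)))), (.s k60 k61 0 (.s k150 k194 13 (.s k195 k105 14 (.d k151 k148 k107 0 13))))] .n) .n)))

def t42_192_129 : T TT 256 :=
  (.q k3 [(.s k43 k23 5 (.s k169 k232 8 (.s k60 k61 0 (.s k22 k41 6 (.s k150 k194 13 (.d k86 k252
  k214 14 7)))))), (.s k1 k2 0 (.s k43 k23 5 (.s k169 k232 8 (.s k253 k85 13 (.s k252 k86 14 (.s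
  k254 k255 0 (.d k126 k190 k189 7 8))))))), (.s k23 k43 5 (.s k60 k61 0 (.s k150 k194 13 (.s k195
  k105 14 (.s k151 k107 13 (.s k215 k87 7 (.d k20 k40 k85 5 8))))))), (.s k60 k61 0 (.s k40 k20 5
  (.s k22 k41 6 (.s k150 k194 13 (.s k86 k214 7 (.s k252 k169 14 (.d k126 k189 k66 8 5)))))))] .n)

def t42_192_130 : T TT 256 :=
  (.f k150 k194 13 (.l (.s k60 k61 0 (.s k20 k40 5 (.s k85 k215 8 (.s k127 k64 6 (.s k255 k191 7 (.s
  k125 k190 8 (.d k105 k65 k195 5 14)))))))))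

def t42_192_131 : T TT 256 :=
  (.q k3 [(.s k43 k23 5 (.s k169 k232 8 (.s k60 k61 0 (.s k22 k41 6 (.s k150 k194 13 (.d k86 k252
  k214 14 7)))))), (.s k1 k2 0 (.s k43 k23 5 (.s k169 k232 8 (.s k253 k85 13 (.s k252 k86 14 (.s
  k254 k255 0 (.d k126 k190 k189 7 8))))))), (.s k23 k43 5 (.s k60 k61 0 (.s k150 k194 13 (.s k195
  k105 14 (.s k151 k107 13 (.s k215 k87 7 (.d k20 k40 k85 5 8))))))), (.s k60 k61 0 (.s k40 k20 5
  (.s k22 k41 6 (.s k150 k194 13 (.s k86 k214 7 (.s k252 k169 14 (.d k126 k66 k189 5 8)))))))] .n)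

def t42_192_132 : T TT 256 :=
  (.f k150 k194 13 (.l (.s k60 k61 0 (.s k20 k40 5 (.s k85 k215 8 (.s k127 k64 6 (.s k255 k191 7 (.s
  k125 k190 8 (.d k105 k65 k195 5 14)))))))))

def t42_192_133 : T TT 256 :=
  (.f k150 k194 13 (.l (.s k60 k61 0 (.s k20 k40 5 (.s k85 k215 8 (.s k127 k64 6 (.s k255 k191 7 (.s
  k125 k190 8 (.d k105 k65 k195 5 14)))))))))

def t42_192_134 : T TT 256 :=
  (.f k150 k194 13 (.l (.s k60 k61 0 (.s k20 k40 5 (.s k85 k215 8 (.s k127 k64 6 (.s k255 k191 7 (.s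
  k125 k190 8 (.d k105 k65 k195 5 14)))))))))

def t42_192_135 : T TT 256 :=
  (.f k150 k194 13 (.l (.s k60 k61 0 (.s k20 k40 5 (.s k85 k215 8 (.s k127 k64 6 (.s k255 k191 7 (.s
  k125 k190 8 (.d k105 k65 k195 5 14)))))))))

def t42_192_136 : T TT 256 :=
  (.f k150 k194 13 (.l (.s k60 k61 0 (.s k20 k40 5 (.s k85 k215 8 (.s k127 k64 6 (.s k255 k191 7 (.s
  k125 k190 8 (.d k105 k65 k195 5 14)))))))))

def t42_192_137 : T TT 256 :=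
  (.f k150 k194 13 (.l (.s k60 k61 0 (.s k20 k40 5 (.s k85 k215 8 (.s k127 k64 6 (.s k255 k191 7 (.s
  k125 k190 8 (.d k105 k65 k195 5 14)))))))))

def t42_192_138 : T TT 256 :=
  (.f k150 k194 13 (.l (.s k60 k61 0 (.s k20 k40 5 (.s k85 k215 8 (.s k127 k64 6 (.s k255 k191 7 (.s
  k125 k190 8 (.d k105 k65 k195 5 14)))))))))

def t42_192_139 : T TT 256 :=
  (.f k150 k194 13 (.l (.s k60 k61 0 (.s k20 k40 5 (.s k85 k215 8 (.s k127 k64 6 (.s k255 k191 7 (.s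
  k125 k190 8 (.d k105 k65 k195 5 14)))))))))

def t42_192_140 : T TT 256 :=
  (.f k150 k194 13 (.l (.s k60 k61 0 (.s k20 k40 5 (.s k85 k215 8 (.s k127 k64 6 (.s k255 k191 7 (.s
  k125 k190 8 (.d k105 k65 k195 5 14)))))))))

def t42_192_141 : T TT 256 :=
  (.f k150 k194 13 (.l (.s k60 k61 0 (.s k20 k40 5 (.s k85 k215 8 (.s k127 k64 6 (.s k255 k191 7 (.s
  k125 k190 8 (.d k105 k65 k195 5 14)))))))))

def t42_192_142 : T TT 256 :=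
  (.f k150 k194 13 (.l (.s k60 k61 0 (.s k20 k40 5 (.s k85 k215 8 (.s k127 k64 6 (.s k255 k191 7 (.s
  k125 k190 8 (.d k105 k65 k195 5 14)))))))))

def t42_192_143 : T TT 256 :=
  (.f k150 k194 13 (.l (.s k60 k61 0 (.s k20 k40 5 (.s k85 k215 8 (.s k127 k64 6 (.s k255 k191 7 (.s
  k125 k190 8 (.d k105 k65 k195 5 14)))))))))

def t42_192_144 : T TT 256 :=
  (.f k150 k194 13 (.l (.s k60 k61 0 (.s k20 k40 5 (.s k85 k215 8 (.s k127 k64 6 (.s k255 k191 7 (.s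
  k125 k190 8 (.d k105 k65 k195 5 14)))))))))

def t42_192_145 : T TT 256 :=
  (.f k150 k194 13 (.l (.s k60 k61 0 (.s k20 k40 5 (.s k85 k215 8 (.s k127 k64 6 (.s k255 k191 7 (.s
  k125 k190 8 (.d k105 k65 k195 5 14)))))))))

def t42_192_146 : T TT 256 :=
  (.f k150 k194 13 (.l (.s k60 k61 0 (.s k20 k40 5 (.s k85 k215 8 (.s k127 k64 6 (.s k255 k191 7 (.s
  k125 k190 8 (.d k105 k65 k195 5 14)))))))))

def t42_192_147 : T TT 256 :=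
  (.f k150 k194 13 (.l (.s k60 k61 0 (.s k20 k40 5 (.s k85 k215 8 (.s k127 k64 6 (.s k255 k191 7 (.s
  k125 k190 8 (.d k105 k65 k195 5 14)))))))))

def t42_192_148 : T TT 256 :=
  (.f k150 k194 13 (.l (.s k60 k61 0 (.s k20 k40 5 (.s k85 k215 8 (.s k127 k64 6 (.s k255 k191 7 (.s
  k125 k190 8 (.d k105 k65 k195 5 14)))))))))

def t42_192_149 : T TT 256 :=
  (.q k12 [(.s k46 k29 4 (.s k30 k14 3 (.s k60 k61 0 (.s k44 k28 3 (.d k45 k47 k15 0 4))))), (.s k8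
  k4 1 (.s k60 k61 0 (.s k40 k20 5 (.s k24 k56 3 (.s k36 k48 5 (.d k44 k32 k28 1 3)))))), (.s k46
  k29 4 (.s k14 k30 3 (.s k166 k226 9 (.s k90 k242 13 (.s k194 k150 13 (.d k74 k122 k134 3 9))))))]
  (.c k28 (.l (.s k46 k29 4 (.s k166 k226 9 (.s k60 k61 0 (.s k150 k194 13 (.s k134 k182 3 (.d k195
  k105 k73 14 10))))))) (.c k128 (.q k191 [(.s k46 k29 4 (.s k30 k14 3 (.s k60 k61 0 (.s k44 k28 3
  (.d k45 k47 k15 0 4))))), (.s k4 k8 1 (.s k127 k255 7 (.s k85 k64 6 (.s k166 k247 12 (.d k46 k29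
  k226 4 9))))), (.s k60 k61 0 (.s k20 k40 5 (.s k150 k194 13 (.s k85 k215 8 (.d k127 k64 k255 6
  7)))))] .n) (.c k191 (.q k128 [(.s k46 k29 4 (.s k30 k14 3 (.s k60 k61 0 (.s k44 k28 3 (.d k45 k47
  k15 0 4))))), (.s k8 k4 1 (.s k60 k61 0 (.s k40 k20 5 (.s k24 k56 3 (.s k36 k48 5 (.d k44 k32 k28
  1 3)))))), (.s k46 k29 4 (.s k14 k30 3 (.s k166 k226 9 (.s k90 k242 13 (.s k194 k150 13 (.d k74
  k122 k134 3 9))))))] (.c k28 (.l (.s k46 k29 4 (.s k166 k226 9 (.s k60 k61 0 (.s k150 k194 13 (.s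
  k134 k182 3 (.d k195 k105 k73 14 10))))))) .n)) .n))))

def t42_192_150 : T TT 256 :=
  (.f k60 k61 0 (.q k12 [(.s k46 k29 4 (.s k30 k14 3 (.s k45 k15 4 (.d k44 k47 k28 0 3)))), (.s k4
  k8 1 (.s k20 k40 5 (.s k36 k52 3 (.s k24 k48 5 (.d k28 k16 k44 1 3)))))] (.c k28 (.f k20 k40 5 (.l
  (.s k4 k8 1 (.s k52 k36 3 (.s k46 k29 4 (.s k166 k226 9 (.s k247 k85 12 (.s k182 k117 8 (.d k243
  k89 k121 14 10))))))))) (.c k44 (.l (.s k46 k29 4 (.s k14 k30 3 (.s k166 k226 9 (.s k243 k89 14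
  (.s k182 k121 10 (.d k242 k90 k122 13 9))))))) (.c k130 (.q k190 [(.s k46 k29 4 (.s k30 k14 3 (.s
  k45 k15 4 (.d k44 k47 k28 0 3)))), (.s k125 k255 8 (.s k126 k254 7 (.s k252 k189 8 (.d k124 k127
  k188 0 7))))] .n) (.c k190 (.q k130 [(.s k46 k29 4 (.s k30 k14 3 (.s k45 k15 4 (.d k44 k47 k28 0
  3)))), (.s k4 k8 1 (.s k195 k65 8 (.s k134 k73 10 (.s k69 k199 8 (.d k138 k142 k207 1 10)))))] .n)
  .n))))))

def t42_192_151 : T TT 256 :=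
  (.q k12 [(.s k46 k29 4 (.s k30 k14 3 (.s k60 k61 0 (.s k44 k28 3 (.d k45 k47 k15 0 4))))), (.s k4
  k8 1 (.s k60 k61 0 (.s k20 k40 5 (.s k36 k52 3 (.s k24 k48 5 (.d k28 k16 k44 1 3)))))), (.s k46
  k29 4 (.s k14 k30 3 (.s k166 k226 9 (.s k90 k242 13 (.s k194 k150 13 (.d k74 k122 k134 3 9))))))]
  (.c k28 (.l (.s k46 k29 4 (.s k166 k226 9 (.s k243 k89 14 (.s k60 k61 0 (.s k182 k121 10 (.d k150
  k134 k194 3 13))))))) .n))

def t42_192_152 : T TT 256 :=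
  (.q k12 [(.s k46 k29 4 (.s k30 k14 3 (.s k60 k61 0 (.s k44 k28 3 (.d k45 k47 k15 0 4))))), (.s k4
  k8 1 (.s k60 k61 0 (.s k20 k40 5 (.s k36 k52 3 (.s k24 k48 5 (.d k28 k16 k44 1 3)))))), (.s k46
  k29 4 (.s k14 k30 3 (.s k166 k226 9 (.s k90 k242 13 (.s k194 k150 13 (.d k74 k122 k134 3 9))))))]
  (.c k28 (.l (.s k46 k29 4 (.s k166 k226 9 (.s k243 k89 14 (.s k60 k61 0 (.s k182 k121 10 (.d k150
  k134 k194 3 13))))))) .n))

def t42_192_153 : T TT 256 :=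
  (.f k150 k194 13 (.l (.s k60 k61 0 (.s k20 k40 5 (.s k85 k215 8 (.s k127 k64 6 (.s k255 k191 7 (.s
  k125 k190 8 (.d k105 k65 k195 5 14)))))))))

def t42_192_154 : T TT 256 :=
  (.f k150 k194 13 (.l (.s k60 k61 0 (.s k20 k40 5 (.s k85 k215 8 (.s k127 k64 6 (.s k255 k191 7 (.s
  k125 k190 8 (.d k105 k65 k195 5 14)))))))))

def t42_192_155 : T TT 256 :=
  (.f k150 k194 13 (.l (.s k60 k61 0 (.s k20 k40 5 (.s k85 k215 8 (.s k127 k64 6 (.s k255 k191 7 (.s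
  k125 k190 8 (.d k105 k65 k195 5 14)))))))))

def t42_192_156 : T TT 256 :=
  (.f k150 k194 13 (.l (.s k60 k61 0 (.s k20 k40 5 (.s k85 k215 8 (.s k127 k64 6 (.s k255 k191 7 (.s
  k125 k190 8 (.d k105 k65 k195 5 14)))))))))

def t42_192_157 : T TT 256 :=
  (.f k150 k194 13 (.l (.s k60 k61 0 (.s k20 k40 5 (.s k85 k215 8 (.s k127 k64 6 (.s k255 k191 7 (.s
  k125 k190 8 (.d k105 k65 k195 5 14)))))))))

def t42_192_158 : T TT 256 :=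
  (.f k150 k194 13 (.l (.s k60 k61 0 (.s k20 k40 5 (.s k85 k215 8 (.s k127 k64 6 (.s k255 k191 7 (.s
  k125 k190 8 (.d k105 k65 k195 5 14)))))))))

def t42_192_159 : T TT 256 :=
  (.f k150 k194 13 (.l (.s k60 k61 0 (.s k20 k40 5 (.s k85 k215 8 (.s k127 k64 6 (.s k255 k191 7 (.s
  k125 k190 8 (.d k105 k65 k195 5 14)))))))))

def t42_192_160 : T TT 256 :=
  (.f k150 k194 13 (.l (.s k60 k61 0 (.s k20 k40 5 (.s k85 k215 8 (.s k127 k64 6 (.s k255 k191 7 (.s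
  k125 k190 8 (.d k105 k65 k195 5 14)))))))))

def t42_192_161 : T TT 256 :=
  (.f k150 k194 13 (.l (.s k60 k61 0 (.s k20 k40 5 (.s k85 k215 8 (.s k127 k64 6 (.s k255 k191 7 (.s
  k125 k190 8 (.d k105 k65 k195 5 14)))))))))

def t42_192_162 : T TT 256 :=
  (.f k150 k194 13 (.l (.s k60 k61 0 (.s k20 k40 5 (.s k85 k215 8 (.s k127 k64 6 (.s k255 k191 7 (.s
  k125 k190 8 (.d k105 k65 k195 5 14)))))))))

def t42_192_163 : T TT 256 :=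
  (.f k150 k194 13 (.l (.s k60 k61 0 (.s k20 k40 5 (.s k85 k215 8 (.s k127 k64 6 (.s k255 k191 7 (.s
  k125 k190 8 (.d k105 k65 k195 5 14)))))))))

def t42_192_164 : T TT 256 :=
  (.f k150 k194 13 (.l (.s k60 k61 0 (.s k20 k40 5 (.s k85 k215 8 (.s k127 k64 6 (.s k255 k191 7 (.s
  k125 k190 8 (.d k105 k65 k195 5 14)))))))))

def t42_192_165 : T TT 256 :=
  (.f k150 k194 13 (.l (.s k60 k61 0 (.s k20 k40 5 (.s k85 k215 8 (.s k127 k64 6 (.s k255 k191 7 (.s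
  k125 k190 8 (.d k105 k65 k195 5 14)))))))))

def t42_192_166 : T TT 256 :=
  (.f k150 k194 13 (.l (.s k60 k61 0 (.s k20 k40 5 (.s k85 k215 8 (.s k127 k64 6 (.s k255 k191 7 (.s
  k125 k190 8 (.d k105 k65 k195 5 14)))))))))

def t42_192_167 : T TT 256 :=
  (.f k150 k194 13 (.l (.s k60 k61 0 (.s k20 k40 5 (.s k85 k215 8 (.s k127 k64 6 (.s k255 k191 7 (.s
  k125 k190 8 (.d k105 k65 k195 5 14)))))))))

def t42_192_168 : T TT 256 :=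
  (.f k150 k194 13 (.l (.s k60 k61 0 (.s k20 k40 5 (.s k85 k215 8 (.s k127 k64 6 (.s k255 k191 7 (.s
  k125 k190 8 (.d k105 k65 k195 5 14)))))))))

def t42_192_169 : T TT 256 :=
  (.f k150 k194 13 (.l (.s k60 k61 0 (.s k20 k40 5 (.s k85 k215 8 (.s k127 k64 6 (.s k255 k191 7 (.s
  k125 k190 8 (.d k105 k65 k195 5 14)))))))))

def t42_192_171 : T TT 256 :=
  (.f k150 k194 13 (.l (.s k60 k61 0 (.s k20 k40 5 (.s k85 k215 8 (.s k127 k64 6 (.s k255 k191 7 (.s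
  k125 k190 8 (.d k105 k65 k195 5 14)))))))))

def t42_192_172 : T TT 256 :=
  (.f k150 k194 13 (.l (.s k60 k61 0 (.s k20 k40 5 (.s k85 k215 8 (.s k127 k64 6 (.s k255 k191 7 (.s
  k125 k190 8 (.d k105 k65 k195 5 14)))))))))

def t42_192_173 : T TT 256 :=
  (.f k150 k194 13 (.l (.s k60 k61 0 (.s k20 k40 5 (.s k85 k215 8 (.s k127 k64 6 (.s k255 k191 7 (.s
  k125 k190 8 (.d k105 k65 k195 5 14)))))))))

def t42_192_174 : T TT 256 :=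
  (.f k150 k194 13 (.l (.s k60 k61 0 (.s k20 k40 5 (.s k85 k215 8 (.s k127 k64 6 (.s k255 k191 7 (.s
  k125 k190 8 (.d k105 k65 k195 5 14)))))))))

def t42_192_175 : T TT 256 :=
  (.f k150 k194 13 (.l (.s k60 k61 0 (.s k20 k40 5 (.s k85 k215 8 (.s k127 k64 6 (.s k255 k191 7 (.s
  k125 k190 8 (.d k105 k65 k195 5 14)))))))))

def t42_192_176 : T TT 256 :=
  (.f k150 k194 13 (.l (.s k60 k61 0 (.s k20 k40 5 (.s k85 k215 8 (.s k127 k64 6 (.s k255 k191 7 (.s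
  k125 k190 8 (.d k105 k65 k195 5 14)))))))))

def t42_192_177 : T TT 256 :=
  (.f k150 k194 13 (.l (.s k60 k61 0 (.s k20 k40 5 (.s k85 k215 8 (.s k127 k64 6 (.s k255 k191 7 (.s
  k125 k190 8 (.d k105 k65 k195 5 14)))))))))

def t42_192_178 : T TT 256 :=
  (.f k150 k194 13 (.l (.s k60 k61 0 (.s k20 k40 5 (.s k85 k215 8 (.s k127 k64 6 (.s k255 k191 7 (.s
  k125 k190 8 (.d k105 k65 k195 5 14)))))))))

def t42_192_179 : T TT 256 :=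
  (.f k150 k194 13 (.l (.s k60 k61 0 (.s k20 k40 5 (.s k85 k215 8 (.s k127 k64 6 (.s k255 k191 7 (.s
  k125 k190 8 (.d k105 k65 k195 5 14)))))))))

def t42_192_180 : T TT 256 :=
  (.f k150 k194 13 (.l (.s k60 k61 0 (.s k20 k40 5 (.s k85 k215 8 (.s k127 k64 6 (.s k255 k191 7 (.s
  k125 k190 8 (.d k105 k65 k195 5 14)))))))))

def t42_192_181 : T TT 256 :=
  (.f k150 k194 13 (.l (.s k60 k61 0 (.s k20 k40 5 (.s k85 k215 8 (.s k127 k64 6 (.s k255 k191 7 (.s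
  k125 k190 8 (.d k105 k65 k195 5 14)))))))))

def t42_192_182 : T TT 256 :=
  (.f k150 k194 13 (.l (.s k60 k61 0 (.s k20 k40 5 (.s k85 k215 8 (.s k127 k64 6 (.s k255 k191 7 (.s
  k125 k190 8 (.d k105 k65 k195 5 14)))))))))

def t42_192_183 : T TT 256 :=
  (.f k150 k194 13 (.l (.s k60 k61 0 (.s k20 k40 5 (.s k85 k215 8 (.s k127 k64 6 (.s k255 k191 7 (.s
  k125 k190 8 (.d k105 k65 k195 5 14)))))))))

def t42_192_184 : T TT 256 :=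
  (.f k150 k194 13 (.l (.s k60 k61 0 (.s k20 k40 5 (.s k85 k215 8 (.s k127 k64 6 (.s k255 k191 7 (.s
  k125 k190 8 (.d k105 k65 k195 5 14)))))))))

def t42_192_185 : T TT 256 :=
  (.f k150 k194 13 (.l (.s k60 k61 0 (.s k20 k40 5 (.s k85 k215 8 (.s k127 k64 6 (.s k255 k191 7 (.s
  k125 k190 8 (.d k105 k65 k195 5 14)))))))))

def t42_192_186 : T TT 256 :=
  (.f k150 k194 13 (.l (.s k60 k61 0 (.s k20 k40 5 (.s k85 k215 8 (.s k127 k64 6 (.s k255 k191 7 (.s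
  k125 k190 8 (.d k105 k65 k195 5 14)))))))))

def t42_192_187 : T TT 256 :=
  (.f k150 k194 13 (.l (.s k60 k61 0 (.s k20 k40 5 (.s k85 k215 8 (.s k127 k64 6 (.s k255 k191 7 (.s
  k125 k190 8 (.d k105 k65 k195 5 14)))))))))

def t42_192_188 : T TT 256 :=
  (.q k12 [(.s k46 k29 4 (.s k30 k14 3 (.s k60 k61 0 (.s k44 k28 3 (.d k45 k47 k15 0 4))))), (.s k4
  k8 1 (.s k60 k61 0 (.s k20 k40 5 (.s k36 k52 3 (.s k24 k48 5 (.d k28 k16 k44 1 3)))))), (.s k46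
  k29 4 (.s k14 k30 3 (.s k166 k226 9 (.s k90 k242 13 (.s k194 k150 13 (.d k74 k122 k134 3 9))))))]
  (.c k28 (.l (.s k46 k29 4 (.s k166 k226 9 (.s k243 k89 14 (.s k60 k61 0 (.s k182 k121 10 (.d k150
  k134 k194 3 13))))))) .n))

def t42_192_189 : T TT 256 :=
  (.q k12 [(.s k46 k29 4 (.s k30 k14 3 (.s k60 k61 0 (.s k44 k28 3 (.d k45 k47 k15 0 4))))), (.s k46
  k29 4 (.s k14 k30 3 (.s k166 k226 9 (.s k90 k242 13 (.s k194 k150 13 (.d k74 k122 k134 3 9)))))),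
  (.s k4 k8 1 (.s k60 k61 0 (.s k20 k40 5 (.s k36 k52 3 (.s k24 k48 5 (.d k28 k16 k44 1 3))))))] (.c
  k28 (.l (.s k46 k29 4 (.s k166 k226 9 (.s k243 k89 14 (.s k60 k61 0 (.s k182 k121 10 (.d k150 k134
  k194 3 13))))))) .n))

def t42_192_190 : T TT 256 :=
  (.q k12 [(.s k46 k29 4 (.s k30 k14 3 (.s k60 k61 0 (.s k44 k28 3 (.d k45 k47 k15 0 4))))), (.s k4
  k8 1 (.s k60 k61 0 (.s k20 k40 5 (.s k36 k52 3 (.s k24 k48 5 (.d k28 k16 k44 1 3)))))), (.s k46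
  k29 4 (.s k14 k30 3 (.s k166 k226 9 (.s k90 k242 13 (.s k74 k122 3 (.d k194 k150 k134 13 9))))))]
  (.c k28 (.l (.s k46 k29 4 (.s k166 k226 9 (.s k243 k89 14 (.s k60 k61 0 (.s k182 k121 10 (.d k150
  k134 k194 3 13))))))) (.c k130 (.l (.s k150 k194 13 (.s k46 k29 4 (.s k14 k30 3 (.s k166 k226 9
  (.s k242 k90 13 (.d k182 k134 k122 3 9))))))) (.c k150 (.q k130 [(.s k46 k29 4 (.s k30 k14 3 (.s
  k60 k61 0 (.s k44 k28 3 (.d k45 k47 k15 0 4))))), (.s k195 k65 8 (.s k134 k73 10 (.s k138 k142 1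
  (.s k69 k207 10 (.d k4 k8 k199 1 8)))))] .n) .n))))

def t42_192_191 : T TT 256 :=
  (.q k12 [(.s k46 k29 4 (.s k30 k14 3 (.s k60 k61 0 (.s k44 k28 3 (.d k45 k47 k15 0 4))))), (.s k4
  k8 1 (.s k60 k61 0 (.s k20 k40 5 (.s k36 k52 3 (.s k24 k48 5 (.d k28 k16 k44 1 3)))))), (.s k46
  k29 4 (.s k14 k30 3 (.s k166 k226 9 (.s k90 k242 13 (.s k194 k150 13 (.d k74 k122 k134 3 9))))))]
  (.c k28 (.l (.s k46 k29 4 (.s k166 k226 9 (.s k243 k89 14 (.s k60 k61 0 (.s k182 k121 10 (.d k150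
  k134 k194 3 13))))))) (.c k128 (.q k149 [(.s k60 k61 0 (.s k150 k194 13 (.s k195 k105 14 (.d k151
  k148 k107 0 13)))), (.s k29 k46 4 (.s k89 k209 9 (.s k243 k166 14 (.d k123 k72 k183 4 9))))] .n)
  (.c k149 (.q k128 [(.s k46 k29 4 (.s k30 k14 3 (.s k60 k61 0 (.s k44 k28 3 (.d k45 k47 k15 0
  4))))), (.s k8 k4 1 (.s k60 k61 0 (.s k40 k20 5 (.s k24 k56 3 (.s k36 k48 5 (.d k44 k32 k28 1
  3)))))), (.s k46 k29 4 (.s k14 k30 3 (.s k166 k226 9 (.s k90 k242 13 (.s k194 k150 13 (.d k74 k122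
  k134 3 9))))))] (.c k28 (.l (.s k46 k29 4 (.s k166 k226 9 (.s k60 k61 0 (.s k150 k194 13 (.s k134
  k182 3 (.d k195 k105 k73 14 10))))))) .n)) .n))))

def t42_192_193 : T TT 256 :=
  (.q k12 [(.s k46 k29 4 (.s k30 k14 3 (.s k60 k61 0 (.s k44 k28 3 (.d k45 k47 k15 0 4))))), (.s k46
  k29 4 (.s k14 k30 3 (.s k166 k226 9 (.s k90 k242 13 (.s k194 k150 13 (.d k74 k122 k134 3 9)))))),
  (.s k4 k8 1 (.s k60 k61 0 (.s k20 k40 5 (.s k36 k52 3 (.s k24 k48 5 (.d k28 k16 k44 1 3))))))] (.c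
  k28 (.l (.s k46 k29 4 (.s k166 k226 9 (.s k243 k89 14 (.s k60 k61 0 (.s k182 k121 10 (.d k150 k134
  k194 3 13))))))) (.c k194 (.q k195 [(.s k60 k61 0 (.s k107 k151 13 (.d k105 k104 k150 0 14))), (.s
  k4 k8 1 (.s k130 k65 8 (.s k134 k73 10 (.s k69 k199 8 (.d k138 k142 k207 1 10)))))] .n) (.c k195
  (.l (.s k194 k150 13 (.s k46 k29 4 (.s k14 k30 3 (.s k74 k134 9 (.s k166 k226 9 (.d k90 k122 k242
  3 13))))))) .n))))

def t42_192_194 : T TT 256 :=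
  (.q k12 [(.s k46 k29 4 (.s k30 k14 3 (.s k60 k61 0 (.s k44 k28 3 (.d k45 k47 k15 0 4))))), (.s k4
  k8 1 (.s k60 k61 0 (.s k20 k40 5 (.s k36 k52 3 (.s k24 k48 5 (.d k28 k16 k44 1 3)))))), (.s k46
  k29 4 (.s k14 k30 3 (.s k166 k226 9 (.s k243 k89 14 (.s k242 k90 13 (.s k122 k182 9 (.d k240 k241
  k181 0 10)))))))] (.c k28 (.l (.s k46 k29 4 (.s k166 k226 9 (.s k243 k89 14 (.s k60 k61 0 (.s k182
  k121 10 (.s k242 k122 9 (.d k14 k30 k90 3 13)))))))) (.c k193 (.q k195 [(.s k60 k61 0 (.s k107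
  k151 13 (.d k105 k104 k150 0 14))), (.s k4 k8 1 (.s k130 k65 8 (.s k134 k73 10 (.s k69 k199 8 (.d
  k138 k142 k207 1 10)))))] .n) (.c k195 (.q k193 [(.s k46 k29 4 (.s k30 k14 3 (.s k60 k61 0 (.s k44
  k28 3 (.d k45 k47 k15 0 4))))), (.s k4 k8 1 (.s k60 k61 0 (.s k20 k40 5 (.s k36 k52 3 (.s k24 k48
  5 (.d k28 k16 k44 1 3)))))), (.s k46 k29 4 (.s k14 k30 3 (.s k166 k226 9 (.s k243 k89 14 (.s k242
  k90 13 (.s k122 k182 9 (.d k240 k241 k181 0 10)))))))] (.c k28 (.l (.s k46 k29 4 (.s k166 k226 9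
  (.s k243 k89 14 (.s k61 k60 0 (.s k183 k123 9 (.d k149 k105 k132 13 4))))))) .n)) .n))))

def t42_192_195 : T TT 256 :=
  (.q k12 [(.s k46 k29 4 (.s k30 k14 3 (.s k60 k61 0 (.s k44 k28 3 (.d k45 k47 k15 0 4))))), (.s k4
  k8 1 (.s k60 k61 0 (.s k20 k40 5 (.s k36 k52 3 (.s k24 k48 5 (.d k28 k16 k44 1 3)))))), (.s k46
  k29 4 (.s k14 k30 3 (.s k166 k226 9 (.s k90 k242 13 (.s k74 k122 3 (.d k194 k134 k150 9 13))))))]
  (.c k28 (.l (.s k46 k29 4 (.s k166 k226 9 (.s k243 k89 14 (.s k60 k61 0 (.s k182 k121 10 (.d k150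
  k134 k194 3 13))))))) (.c k193 (.l (.s k194 k150 13 (.s k46 k29 4 (.s k14 k30 3 (.s k74 k134 9 (.s
  k166 k226 9 (.d k90 k122 k242 3 13))))))) (.c k194 (.q k193 [(.s k46 k29 4 (.s k30 k14 3 (.s k60
  k61 0 (.s k44 k28 3 (.d k45 k47 k15 0 4))))), (.s k4 k8 1 (.s k60 k61 0 (.s k20 k40 5 (.s k36 k52
  3 (.s k24 k48 5 (.d k28 k16 k44 1 3)))))), (.s k46 k29 4 (.s k14 k30 3 (.s k166 k226 9 (.s k243
  k89 14 (.s k242 k90 13 (.s k122 k182 9 (.d k240 k241 k181 0 10)))))))] (.c k28 (.l (.s k46 k29 4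
  (.s k166 k226 9 (.s k243 k89 14 (.s k61 k60 0 (.s k183 k123 9 (.d k149 k105 k132 13 4))))))) .n))
  .n))))

def t42_192_196 : T TT 256 :=
  (.f k150 k194 13 (.l (.s k60 k61 0 (.s k20 k40 5 (.s k85 k215 8 (.s k127 k64 6 (.s k255 k191 7 (.s
  k125 k190 8 (.d k105 k65 k195 5 14)))))))))

def t42_192_197 : T TT 256 :=
  (.f k150 k194 13 (.l (.s k60 k61 0 (.s k20 k40 5 (.s k85 k215 8 (.s k127 k64 6 (.s k255 k191 7 (.s
  k125 k190 8 (.d k105 k65 k195 5 14)))))))))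

def t42_192_198 : T TT 256 :=
  (.f k150 k194 13 (.l (.s k60 k61 0 (.s k20 k40 5 (.s k85 k215 8 (.s k127 k64 6 (.s k255 k191 7 (.s
  k125 k190 8 (.d k105 k65 k195 5 14)))))))))

def t42_192_199 : T TT 256 :=
  (.f k150 k194 13 (.l (.s k60 k61 0 (.s k20 k40 5 (.s k85 k215 8 (.s k127 k64 6 (.s k255 k191 7 (.s
  k125 k190 8 (.d k105 k65 k195 5 14)))))))))

def t42_192_200 : T TT 256 :=
  (.f k150 k194 13 (.l (.s k60 k61 0 (.s k20 k40 5 (.s k85 k215 8 (.s k127 k64 6 (.s k255 k191 7 (.s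
  k125 k190 8 (.d k105 k65 k195 5 14)))))))))

def t42_192_201 : T TT 256 :=
  (.f k150 k194 13 (.l (.s k60 k61 0 (.s k20 k40 5 (.s k85 k215 8 (.s k127 k64 6 (.s k255 k191 7 (.s
  k125 k190 8 (.d k105 k65 k195 5 14)))))))))

def t42_192_202 : T TT 256 :=
  (.f k150 k194 13 (.l (.s k60 k61 0 (.s k20 k40 5 (.s k85 k215 8 (.s k127 k64 6 (.s k255 k191 7 (.s
  k125 k190 8 (.d k105 k65 k195 5 14)))))))))

def t42_192_203 : T TT 256 :=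
  (.f k150 k194 13 (.l (.s k60 k61 0 (.s k20 k40 5 (.s k85 k215 8 (.s k127 k64 6 (.s k255 k191 7 (.s
  k125 k190 8 (.d k105 k65 k195 5 14)))))))))

def t42_192_204 : T TT 256 :=
  (.f k150 k194 13 (.l (.s k60 k61 0 (.s k20 k40 5 (.s k85 k215 8 (.s k127 k64 6 (.s k255 k191 7 (.s
  k125 k190 8 (.d k105 k65 k195 5 14)))))))))

def t42_192_205 : T TT 256 :=
  (.f k150 k194 13 (.l (.s k60 k61 0 (.s k20 k40 5 (.s k85 k215 8 (.s k127 k64 6 (.s k255 k191 7 (.s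
  k125 k190 8 (.d k105 k65 k195 5 14)))))))))

def t42_192_206 : T TT 256 :=
  (.f k150 k194 13 (.l (.s k60 k61 0 (.s k20 k40 5 (.s k85 k215 8 (.s k127 k64 6 (.s k255 k191 7 (.s
  k125 k190 8 (.d k105 k65 k195 5 14)))))))))

def t42_192_207 : T TT 256 :=
  (.f k150 k194 13 (.l (.s k60 k61 0 (.s k20 k40 5 (.s k85 k215 8 (.s k127 k64 6 (.s k255 k191 7 (.s
  k125 k190 8 (.d k105 k65 k195 5 14)))))))))

def t42_192_208 : T TT 256 :=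
  (.f k150 k194 13 (.l (.s k60 k61 0 (.s k20 k40 5 (.s k85 k215 8 (.s k127 k64 6 (.s k255 k191 7 (.s
  k125 k190 8 (.d k105 k65 k195 5 14)))))))))

def t42_192_209 : T TT 256 :=
  (.f k150 k194 13 (.l (.s k60 k61 0 (.s k20 k40 5 (.s k85 k215 8 (.s k127 k64 6 (.s k255 k191 7 (.s
  k125 k190 8 (.d k105 k65 k195 5 14)))))))))

def t42_192_210 : T TT 256 :=
  (.f k150 k194 13 (.l (.s k60 k61 0 (.s k20 k40 5 (.s k85 k215 8 (.s k127 k64 6 (.s k255 k191 7 (.s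
  k125 k190 8 (.d k105 k65 k195 5 14)))))))))

def t42_192_211 : T TT 256 :=
  (.f k150 k194 13 (.l (.s k60 k61 0 (.s k20 k40 5 (.s k85 k215 8 (.s k127 k64 6 (.s k255 k191 7 (.s
  k125 k190 8 (.d k105 k65 k195 5 14)))))))))

def t42_192_212 : T TT 256 :=
  (.f k150 k194 13 (.l (.s k60 k61 0 (.s k20 k40 5 (.s k85 k215 8 (.s k127 k64 6 (.s k255 k191 7 (.s
  k125 k190 8 (.d k105 k65 k195 5 14)))))))))

def t42_192_213 : T TT 256 :=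
  (.f k150 k194 13 (.l (.s k60 k61 0 (.s k20 k40 5 (.s k85 k215 8 (.s k127 k64 6 (.s k255 k191 7 (.s
  k125 k190 8 (.d k105 k65 k195 5 14)))))))))

def t42_192_214 : T TT 256 :=
  (.f k150 k194 13 (.l (.s k60 k61 0 (.s k20 k40 5 (.s k85 k215 8 (.s k127 k64 6 (.s k255 k191 7 (.s
  k125 k190 8 (.d k105 k65 k195 5 14)))))))))

def t42_192_215 : T TT 256 :=
  (.q k12 [(.s k46 k29 4 (.s k30 k14 3 (.s k60 k61 0 (.s k44 k28 3 (.d k45 k47 k15 0 4))))), (.s k4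
  k8 1 (.s k60 k61 0 (.s k20 k40 5 (.s k36 k52 3 (.s k24 k48 5 (.d k28 k16 k44 1 3)))))), (.s k46
  k29 4 (.s k14 k30 3 (.s k166 k226 9 (.s k90 k242 13 (.s k194 k150 13 (.d k74 k122 k134 3 9))))))]
  (.c k28 (.l (.s k46 k29 4 (.s k166 k226 9 (.s k243 k89 14 (.s k60 k61 0 (.s k182 k121 10 (.d k150
  k134 k194 3 13))))))) .n))

def t42_192_216 : T TT 256 :=
  (.q k12 [(.s k46 k29 4 (.s k30 k14 3 (.s k60 k61 0 (.s k44 k28 3 (.d k45 k47 k15 0 4))))), (.s k4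
  k8 1 (.s k60 k61 0 (.s k20 k40 5 (.s k36 k52 3 (.s k24 k48 5 (.d k28 k16 k44 1 3)))))), (.s k46
  k29 4 (.s k14 k30 3 (.s k166 k226 9 (.s k90 k242 13 (.s k194 k150 13 (.d k74 k122 k134 3 9))))))]
  (.c k28 (.l (.s k46 k29 4 (.s k166 k226 9 (.s k243 k89 14 (.s k60 k61 0 (.s k182 k121 10 (.d k150
  k134 k194 3 13))))))) .n))

def t42_192_217 : T TT 256 :=
  (.q k12 [(.s k46 k29 4 (.s k30 k14 3 (.s k60 k61 0 (.s k44 k28 3 (.d k45 k47 k15 0 4))))), (.s k4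
  k8 1 (.s k60 k61 0 (.s k20 k40 5 (.s k36 k52 3 (.s k24 k48 5 (.d k28 k16 k44 1 3)))))), (.s k46
  k29 4 (.s k14 k30 3 (.s k166 k226 9 (.s k90 k242 13 (.s k194 k150 13 (.d k74 k122 k134 3 9))))))]
  (.c k28 (.l (.s k46 k29 4 (.s k166 k226 9 (.s k243 k89 14 (.s k60 k61 0 (.s k182 k121 10 (.d k150
  k134 k194 3 13))))))) .n))

def t42_192_218 : T TT 256 :=
  (.q k12 [(.s k46 k29 4 (.s k30 k14 3 (.s k60 k61 0 (.s k44 k28 3 (.d k45 k47 k15 0 4))))), (.s k4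
  k8 1 (.s k60 k61 0 (.s k20 k40 5 (.s k36 k52 3 (.s k24 k48 5 (.d k28 k16 k44 1 3)))))), (.s k46
  k29 4 (.s k14 k30 3 (.s k166 k226 9 (.s k90 k242 13 (.s k194 k150 13 (.d k74 k122 k134 3 9))))))]
  (.c k28 (.l (.s k46 k29 4 (.s k166 k226 9 (.s k243 k89 14 (.s k60 k61 0 (.s k182 k121 10 (.d k150
  k134 k194 3 13))))))) .n))

def t42_192_219 : T TT 256 :=
  (.q k12 [(.s k46 k29 4 (.s k30 k14 3 (.s k60 k61 0 (.s k44 k28 3 (.d k45 k47 k15 0 4))))), (.s k4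
  k8 1 (.s k60 k61 0 (.s k20 k40 5 (.s k36 k52 3 (.s k24 k48 5 (.d k28 k16 k44 1 3)))))), (.s k46
  k29 4 (.s k14 k30 3 (.s k166 k226 9 (.s k90 k242 13 (.s k194 k150 13 (.d k74 k122 k134 3 9))))))]
  (.c k28 (.l (.s k46 k29 4 (.s k166 k226 9 (.s k243 k89 14 (.s k60 k61 0 (.s k182 k121 10 (.d k150
  k134 k194 3 13))))))) .n))

def t42_192_220 : T TT 256 :=
  (.q k12 [(.s k46 k29 4 (.s k30 k14 3 (.s k60 k61 0 (.s k44 k28 3 (.d k45 k47 k15 0 4))))), (.s k4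
  k8 1 (.s k60 k61 0 (.s k20 k40 5 (.s k36 k52 3 (.s k24 k48 5 (.d k28 k16 k44 1 3)))))), (.s k46
  k29 4 (.s k14 k30 3 (.s k166 k226 9 (.s k90 k242 13 (.s k194 k150 13 (.d k74 k122 k134 3 9))))))]
  (.c k28 (.l (.s k46 k29 4 (.s k166 k226 9 (.s k243 k89 14 (.s k60 k61 0 (.s k182 k121 10 (.d k150
  k134 k194 3 13))))))) .n))

def t42_192_221 : T TT 256 :=
  (.q k12 [(.s k46 k29 4 (.s k30 k14 3 (.s k60 k61 0 (.s k44 k28 3 (.d k45 k47 k15 0 4))))), (.s k4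
  k8 1 (.s k60 k61 0 (.s k20 k40 5 (.s k36 k52 3 (.s k24 k48 5 (.d k28 k16 k44 1 3)))))), (.s k46
  k29 4 (.s k14 k30 3 (.s k166 k226 9 (.s k90 k242 13 (.s k194 k150 13 (.d k74 k122 k134 3 9))))))]
  (.c k28 (.l (.s k46 k29 4 (.s k166 k226 9 (.s k243 k89 14 (.s k60 k61 0 (.s k182 k121 10 (.d k150
  k134 k194 3 13))))))) .n))

def t42_192_222 : T TT 256 :=
  (.q k12 [(.s k46 k29 4 (.s k30 k14 3 (.s k60 k61 0 (.s k44 k28 3 (.d k45 k47 k15 0 4))))), (.s k4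
  k8 1 (.s k60 k61 0 (.s k20 k40 5 (.s k36 k52 3 (.s k24 k48 5 (.d k28 k16 k44 1 3)))))), (.s k46
  k29 4 (.s k14 k30 3 (.s k166 k226 9 (.s k90 k242 13 (.s k194 k150 13 (.d k74 k122 k134 3 9))))))]
  (.c k28 (.l (.s k46 k29 4 (.s k166 k226 9 (.s k243 k89 14 (.s k60 k61 0 (.s k182 k121 10 (.d k150
  k134 k194 3 13))))))) .n))

def t42_192_223 : T TT 256 :=
  (.q k12 [(.s k46 k29 4 (.s k30 k14 3 (.s k60 k61 0 (.s k44 k28 3 (.d k45 k47 k15 0 4))))), (.s k4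
  k8 1 (.s k60 k61 0 (.s k20 k40 5 (.s k36 k52 3 (.s k24 k48 5 (.d k28 k16 k44 1 3)))))), (.s k46
  k29 4 (.s k14 k30 3 (.s k166 k226 9 (.s k90 k242 13 (.s k194 k150 13 (.d k74 k122 k134 3 9))))))]
  (.c k28 (.l (.s k46 k29 4 (.s k166 k226 9 (.s k243 k89 14 (.s k60 k61 0 (.s k182 k121 10 (.d k150
  k134 k194 3 13))))))) .n))

def t42_192_224 : T TT 256 :=
  (.f k150 k194 13 (.l (.s k60 k61 0 (.s k20 k40 5 (.s k85 k215 8 (.s k127 k64 6 (.s k255 k191 7 (.s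
  k125 k190 8 (.d k105 k65 k195 5 14)))))))))

def t42_192_225 : T TT 256 :=
  (.f k150 k194 13 (.l (.s k60 k61 0 (.s k20 k40 5 (.s k85 k215 8 (.s k127 k64 6 (.s k255 k191 7 (.s
  k125 k190 8 (.d k105 k65 k195 5 14)))))))))

def t42_192_226 : T TT 256 :=
  (.f k150 k194 13 (.l (.s k60 k61 0 (.s k20 k40 5 (.s k85 k215 8 (.s k127 k64 6 (.s k255 k191 7 (.s
  k125 k190 8 (.d k105 k65 k195 5 14)))))))))

def t42_192_227 : T TT 256 :=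
  (.f k150 k194 13 (.l (.s k60 k61 0 (.s k20 k40 5 (.s k85 k215 8 (.s k127 k64 6 (.s k255 k191 7 (.s
  k125 k190 8 (.d k105 k65 k195 5 14)))))))))

def t42_192_228 : T TT 256 :=
  (.f k150 k194 13 (.l (.s k60 k61 0 (.s k20 k40 5 (.s k85 k215 8 (.s k127 k64 6 (.s k255 k191 7 (.s
  k125 k190 8 (.d k105 k65 k195 5 14)))))))))

def t42_192_229 : T TT 256 :=
  (.f k150 k194 13 (.l (.s k60 k61 0 (.s k20 k40 5 (.s k85 k215 8 (.s k127 k64 6 (.s k255 k191 7 (.s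
  k125 k190 8 (.d k105 k65 k195 5 14)))))))))

def t42_192_230 : T TT 256 :=
  (.f k150 k194 13 (.l (.s k60 k61 0 (.s k20 k40 5 (.s k85 k215 8 (.s k127 k64 6 (.s k255 k191 7 (.s
  k125 k190 8 (.d k105 k65 k195 5 14)))))))))

def t42_192_231 : T TT 256 :=
  (.f k150 k194 13 (.l (.s k60 k61 0 (.s k20 k40 5 (.s k85 k215 8 (.s k127 k64 6 (.s k255 k191 7 (.s
  k125 k190 8 (.d k105 k65 k195 5 14)))))))))

def t42_192_232 : T TT 256 :=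
  (.f k150 k194 13 (.l (.s k60 k61 0 (.s k20 k40 5 (.s k85 k215 8 (.s k127 k64 6 (.s k255 k191 7 (.s
  k125 k190 8 (.d k105 k65 k195 5 14)))))))))

def t42_192_233 : T TT 256 :=
  (.f k150 k194 13 (.l (.s k60 k61 0 (.s k20 k40 5 (.s k85 k215 8 (.s k127 k64 6 (.s k255 k191 7 (.s
  k125 k190 8 (.d k105 k65 k195 5 14)))))))))

def t42_192_234 : T TT 256 :=
  (.f k150 k194 13 (.l (.s k60 k61 0 (.s k20 k40 5 (.s k85 k215 8 (.s k127 k64 6 (.s k255 k191 7 (.s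
  k125 k190 8 (.d k105 k65 k195 5 14)))))))))

def t42_192_235 : T TT 256 :=
  (.q k12 [(.s k46 k29 4 (.s k30 k14 3 (.s k60 k61 0 (.s k44 k28 3 (.d k45 k47 k15 0 4))))), (.s k8
  k4 1 (.s k60 k61 0 (.s k40 k20 5 (.s k24 k56 3 (.s k36 k48 5 (.d k44 k32 k28 1 3)))))), (.s k46
  k29 4 (.s k14 k30 3 (.s k166 k226 9 (.s k90 k242 13 (.s k194 k150 13 (.d k74 k122 k134 3 9))))))]
  (.c k28 (.l (.s k46 k29 4 (.s k166 k226 9 (.s k243 k89 14 (.s k60 k61 0 (.s k182 k121 10 (.d k150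
  k134 k194 3 13))))))) (.c k40 (.q k105 [(.s k60 k61 0 (.d k150 k194 k195 13 14)), (.s k46 k29 4
  (.s k14 k30 3 (.s k15 k13 0 (.s k166 k226 9 (.s k44 k227 10 (.d k47 k45 k31 0 3))))))] (.c k41 (.q
  k43 [(.s k150 k194 13 (.d k60 k195 k61 14 0)), (.s k3 k23 5 (.s k2 k1 0 (.s k6 k9 2 (.s k14 k10 1
  (.d k46 k30 k29 3 4)))))] (.c k61 (.l (.s k150 k194 13 (.s k195 k60 14 (.d k107 k104 k151 0 13))))
  .n)) (.c k43 (.q k41 [(.s k60 k61 0 (.d k150 k194 k195 13 14)), (.s k46 k29 4 (.s k14 k30 3 (.s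
  k15 k13 0 (.s k166 k226 9 (.s k44 k227 10 (.d k47 k45 k31 0 3))))))] (.c k61 (.l (.s k150 k194 13
  (.s k195 k60 14 (.d k107 k104 k151 0 13)))) (.c k107 (.q k171 [(.s k60 k61 0 (.d k150 k194 k195 13
  14)), (.s k46 k29 4 (.s k14 k30 3 (.s k15 k13 0 (.s k166 k226 9 (.s k44 k227 10 (.d k47 k45 k31 0
  3))))))] (.c k61 (.l (.s k46 k29 4 (.s k166 k226 9 (.s k44 k227 10 (.s k60 k28 3 (.d k150 k194
  k195 13 14)))))) .n)) (.c k171 (.l (.s k107 k104 0 (.s k60 k61 0 (.d k150 k194 k195 13 14))))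
  .n)))) (.c k61 (.l (.s k150 k194 13 (.s k195 k60 14 (.d k107 k104 k151 0 13)))) .n)))) (.c k105
  (.q k40 [(.d k60 k61 k20 0 5), (.s k46 k29 4 (.s k14 k30 3 (.s k166 k226 9 (.s k90 k242 13 (.s k74
  k122 3 (.d k194 k134 k150 9 13))))))] .n) .n))))

def t42_192_236 : T TT 256 :=
  (.q k12 [(.s k46 k29 4 (.s k30 k14 3 (.s k60 k61 0 (.s k44 k28 3 (.d k45 k47 k15 0 4))))), (.s k4
  k8 1 (.s k60 k61 0 (.s k20 k40 5 (.s k36 k52 3 (.s k24 k48 5 (.d k28 k16 k44 1 3)))))), (.s k46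
  k29 4 (.s k14 k30 3 (.s k166 k226 9 (.s k90 k242 13 (.s k194 k150 13 (.d k74 k122 k134 3 9))))))]
  (.c k28 (.l (.s k46 k29 4 (.s k166 k226 9 (.s k243 k89 14 (.s k60 k61 0 (.s k182 k121 10 (.d k150
  k134 k194 3 13))))))) .n))

def t42_192_237 : T TT 256 :=
  (.q k12 [(.s k46 k29 4 (.s k30 k14 3 (.s k60 k61 0 (.s k44 k28 3 (.d k45 k47 k15 0 4))))), (.s k4
  k8 1 (.s k60 k61 0 (.s k20 k40 5 (.s k36 k52 3 (.s k24 k48 5 (.d k28 k16 k44 1 3)))))), (.s k46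
  k29 4 (.s k14 k30 3 (.s k166 k226 9 (.s k90 k242 13 (.s k194 k150 13 (.d k74 k122 k134 3 9))))))]
  (.c k28 (.l (.s k46 k29 4 (.s k166 k226 9 (.s k243 k89 14 (.s k60 k61 0 (.s k182 k121 10 (.d k150
  k134 k194 3 13))))))) .n))

def t42_192_238 : T TT 256 :=
  (.q k110 [(.s k60 k61 0 (.s k204 k157 12 (.s k108 k156 11 (.s k109 k111 0 (.d k158 k206 k207 11
  12))))), (.s k102 k98 1 (.s k150 k194 13 (.s k54 k198 11 (.s k50 k58 1 (.d k206 k158 k154 11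
  13))))), (.s k60 k61 0 (.s k150 k194 13 (.s k195 k105 14 (.s k204 k157 12 (.s k102 k98 1 (.d k198
  k201 k54 2 11))))))] (.c k34 (.l (.s k102 k98 1 (.s k150 k194 13 (.s k54 k198 11 (.s k50 k58 1 (.d
  k206 k158 k154 11 13)))))) (.c k102 (.q k34 [(.s k60 k61 0 (.s k204 k157 12 (.s k108 k156 11 (.s
  k109 k111 0 (.d k158 k206 k207 11 12))))), (.s k51 k17 4 (.s k55 k59 1 (.s k60 k61 0 (.s k54 k57 2
  (.s k53 k52 0 (.d k58 k50 k48 1 2)))))), (.s k51 k17 4 (.s k59 k55 1 (.s k153 k200 12 (.s k150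
  k194 13 (.s k158 k206 11 (.s k156 k147 2 (.d k157 k204 k159 12 0)))))))] .n) .n)))

def t42_192_239 : T TT 256 :=
  (.f k150 k194 13 (.l (.s k60 k61 0 (.s k20 k40 5 (.s k85 k215 8 (.s k127 k64 6 (.s k255 k191 7 (.s
  k125 k190 8 (.d k105 k65 k195 5 14)))))))))

def t42_192_240 : T TT 256 :=
  (.f k150 k194 13 (.l (.s k60 k61 0 (.s k20 k40 5 (.s k85 k215 8 (.s k127 k64 6 (.s k255 k191 7 (.s
  k125 k190 8 (.d k105 k65 k195 5 14)))))))))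

def t42_192_241 : T TT 256 :=
  (.f k150 k194 13 (.l (.s k60 k61 0 (.s k20 k40 5 (.s k85 k215 8 (.s k127 k64 6 (.s k255 k191 7 (.s
  k125 k190 8 (.d k105 k65 k195 5 14)))))))))

def t42_192_242 : T TT 256 :=
  (.f k150 k194 13 (.l (.s k60 k61 0 (.s k20 k40 5 (.s k85 k215 8 (.s k127 k64 6 (.s k255 k191 7 (.s
  k125 k190 8 (.d k105 k65 k195 5 14)))))))))

def t42_192_243 : T TT 256 :=
  (.f k150 k194 13 (.l (.s k60 k61 0 (.s k20 k40 5 (.s k85 k215 8 (.s k127 k64 6 (.s k255 k191 7 (.s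
  k125 k190 8 (.d k105 k65 k195 5 14)))))))))

def t42_192_244 : T TT 256 :=
  (.f k150 k194 13 (.l (.s k60 k61 0 (.s k20 k40 5 (.s k85 k215 8 (.s k127 k64 6 (.s k255 k191 7 (.s
  k125 k190 8 (.d k105 k65 k195 5 14)))))))))

def t42_192_245 : T TT 256 :=
  (.f k150 k194 13 (.l (.s k60 k61 0 (.s k20 k40 5 (.s k85 k215 8 (.s k127 k64 6 (.s k255 k191 7 (.s
  k125 k190 8 (.d k105 k65 k195 5 14)))))))))

def t42_192_246 : T TT 256 :=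
  (.f k150 k194 13 (.l (.s k60 k61 0 (.s k20 k40 5 (.s k85 k215 8 (.s k127 k64 6 (.s k255 k191 7 (.s
  k125 k190 8 (.d k105 k65 k195 5 14)))))))))

def t42_192_247 : T TT 256 :=
  (.f k150 k194 13 (.l (.s k60 k61 0 (.s k20 k40 5 (.s k85 k215 8 (.s k127 k64 6 (.s k255 k191 7 (.s
  k125 k190 8 (.d k105 k65 k195 5 14)))))))))

def t42_192_248 : T TT 256 :=
  (.f k150 k194 13 (.l (.s k60 k61 0 (.s k20 k40 5 (.s k85 k215 8 (.s k127 k64 6 (.s k255 k191 7 (.s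
  k125 k190 8 (.d k105 k65 k195 5 14)))))))))

def t42_192_249 : T TT 256 :=
  (.f k150 k194 13 (.l (.s k60 k61 0 (.s k20 k40 5 (.s k85 k215 8 (.s k127 k64 6 (.s k255 k191 7 (.s
  k125 k190 8 (.d k105 k65 k195 5 14)))))))))

def t42_192_250 : T TT 256 :=
  (.f k150 k194 13 (.l (.s k60 k61 0 (.s k20 k40 5 (.s k85 k215 8 (.s k127 k64 6 (.s k255 k191 7 (.s
  k125 k190 8 (.d k105 k65 k195 5 14)))))))))

def t42_192_251 : T TT 256 :=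
  (.f k150 k194 13 (.l (.s k60 k61 0 (.s k20 k40 5 (.s k85 k215 8 (.s k127 k64 6 (.s k255 k191 7 (.s
  k125 k190 8 (.d k105 k65 k195 5 14)))))))))

def t42_192_252 : T TT 256 :=
  (.f k150 k194 13 (.l (.s k60 k61 0 (.s k20 k40 5 (.s k85 k215 8 (.s k127 k64 6 (.s k255 k191 7 (.s
  k125 k190 8 (.d k105 k65 k195 5 14)))))))))

def t42_192_253 : T TT 256 :=
  (.f k150 k194 13 (.l (.s k60 k61 0 (.s k20 k40 5 (.s k85 k215 8 (.s k127 k64 6 (.s k255 k191 7 (.s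
  k125 k190 8 (.d k105 k65 k195 5 14)))))))))

def t42_192_254 : T TT 256 :=
  (.f k150 k194 13 (.l (.s k60 k61 0 (.s k20 k40 5 (.s k85 k215 8 (.s k127 k64 6 (.s k255 k191 7 (.s
  k125 k190 8 (.d k105 k65 k195 5 14)))))))))

def t42_192_255 : T TT 256 :=
  (.q k12 [(.s k46 k29 4 (.s k30 k14 3 (.s k60 k61 0 (.s k44 k28 3 (.d k45 k47 k15 0 4))))), (.s k4
  k8 1 (.s k60 k61 0 (.s k20 k40 5 (.s k36 k52 3 (.s k24 k48 5 (.d k28 k16 k44 1 3)))))), (.s k46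
  k29 4 (.s k14 k30 3 (.s k166 k226 9 (.s k90 k242 13 (.s k194 k150 13 (.d k74 k122 k134 3 9))))))]
  (.c k28 (.l (.s k46 k29 4 (.s k166 k226 9 (.s k243 k89 14 (.s k60 k61 0 (.s k182 k121 10 (.d k150
  k134 k194 3 13))))))) (.c k213 (.q k234 [(.s k46 k29 4 (.s k30 k14 3 (.s k60 k61 0 (.s k44 k28 3
  (.d k45 k47 k15 0 4))))), (.s k4 k8 1 (.s k60 k61 0 (.s k20 k40 5 (.s k36 k52 3 (.s k24 k48 5 (.d
  k28 k16 k44 1 3)))))), (.s k46 k29 4 (.s k14 k30 3 (.s k166 k226 9 (.s k90 k242 13 (.s k194 k150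
  13 (.d k74 k122 k134 3 9))))))] (.c k28 (.l (.s k46 k29 4 (.s k166 k226 9 (.s k243 k89 14 (.s k60
  k61 0 (.s k182 k121 10 (.d k150 k134 k194 3 13))))))) .n)) (.c k234 (.q k213 [(.s k46 k29 4 (.s
  k30 k14 3 (.s k60 k61 0 (.s k44 k28 3 (.d k45 k47 k15 0 4))))), (.s k4 k8 1 (.s k60 k61 0 (.s k20
  k40 5 (.s k36 k52 3 (.s k24 k48 5 (.d k28 k16 k44 1 3)))))), (.s k46 k29 4 (.s k14 k30 3 (.s k166
  k226 9 (.s k90 k242 13 (.s k194 k150 13 (.d k74 k122 k134 3 9))))))] (.c k28 (.l (.s k46 k29 4 (.s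
  k166 k226 9 (.s k243 k89 14 (.s k60 k61 0 (.s k182 k121 10 (.d k150 k134 k194 3 13))))))) .n))
  .n))))

def t42_192 : T TT 256 :=
  (.q k62 [] (.c k1 t42_192_1 (.c k2 t42_192_2 (.c k3 t42_192_3 (.c k4 t42_192_4 (.c k5 t42_192_5
  (.c k6 t42_192_6 (.c k7 t42_192_7 (.c k8 t42_192_8 (.c k9 t42_192_9 (.c k10 t42_192_10 (.c k11
  t42_192_11 (.c k12 t42_192_12 (.c k13 t42_192_13 (.c k14 t42_192_14 (.c k15 t42_192_15 (.c k16
  t42_192_16 (.c k17 t42_192_17 (.c k18 t42_192_18 (.c k19 t42_192_19 (.c k20 t42_192_20 (.c k21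
  t42_192_21 (.c k22 t42_192_22 (.c k23 t42_192_23 (.c k24 t42_192_24 (.c k25 t42_192_25 (.c k26
  t42_192_26 (.c k27 t42_192_27 (.c k28 t42_192_28 (.c k29 t42_192_29 (.c k30 t42_192_30 (.c k31
  t42_192_31 (.c k32 t42_192_32 (.c k33 t42_192_33 (.c k34 t42_192_34 (.c k35 t42_192_35 (.c k36
  t42_192_36 (.c k37 t42_192_37 (.c k38 t42_192_38 (.c k39 t42_192_39 (.c k40 t42_192_40 (.c k41
  t42_192_41 (.c k43 t42_192_43 (.c k44 t42_192_44 (.c k45 t42_192_45 (.c k46 t42_192_46 (.c k47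
  t42_192_47 (.c k48 t42_192_48 (.c k49 t42_192_49 (.c k50 t42_192_50 (.c k51 t42_192_51 (.c k52
  t42_192_52 (.c k53 t42_192_53 (.c k54 t42_192_54 (.c k55 t42_192_55 (.c k56 t42_192_56 (.c k57
  t42_192_57 (.c k58 t42_192_58 (.c k59 t42_192_59 (.c k60 t42_192_60 (.c k61 t42_192_61 (.c k64
  t42_192_64 (.c k65 t42_192_65 (.c k66 t42_192_66 (.c k67 t42_192_67 (.c k68 t42_192_68 (.c k69
  t42_192_69 (.c k70 t42_192_70 (.c k71 t42_192_71 (.c k72 t42_192_72 (.c k73 t42_192_73 (.c k74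
  t42_192_74 (.c k75 t42_192_75 (.c k76 t42_192_76 (.c k77 t42_192_77 (.c k78 t42_192_78 (.c k79
  t42_192_79 (.c k80 t42_192_80 (.c k81 t42_192_81 (.c k82 t42_192_82 (.c k83 t42_192_83 (.c k84
  t42_192_84 (.c k85 t42_192_85 (.c k86 t42_192_86 (.c k87 t42_192_87 (.c k88 t42_192_88 (.c k89
  t42_192_89 (.c k90 t42_192_90 (.c k91 t42_192_91 (.c k92 t42_192_92 (.c k93 t42_192_93 (.c k94
  t42_192_94 (.c k95 t42_192_95 (.c k96 t42_192_96 (.c k97 t42_192_97 (.c k98 t42_192_98 (.c k99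
  t42_192_99 (.c k100 t42_192_100 (.c k101 t42_192_101 (.c k102 t42_192_102 (.c k103 t42_192_103 (.c
  k104 t42_192_104 (.c k105 t42_192_105 (.c k107 t42_192_107 (.c k108 t42_192_108 (.c k109
  t42_192_109 (.c k110 t42_192_110 (.c k111 t42_192_111 (.c k112 t42_192_112 (.c k113 t42_192_113
  (.c k114 t42_192_114 (.c k115 t42_192_115 (.c k116 t42_192_116 (.c k117 t42_192_117 (.c k118
  t42_192_118 (.c k119 t42_192_119 (.c k120 t42_192_120 (.c k121 t42_192_121 (.c k122 t42_192_122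
  (.c k123 t42_192_123 (.c k124 t42_192_124 (.c k125 t42_192_125 (.c k126 t42_192_126 (.c k127
  t42_192_127 (.c k128 t42_192_128 (.c k129 t42_192_129 (.c k130 t42_192_130 (.c k131 t42_192_131
  (.c k132 t42_192_132 (.c k133 t42_192_133 (.c k134 t42_192_134 (.c k135 t42_192_135 (.c k136
  t42_192_136 (.c k137 t42_192_137 (.c k138 t42_192_138 (.c k139 t42_192_139 (.c k140 t42_192_140
  (.c k141 t42_192_141 (.c k142 t42_192_142 (.c k143 t42_192_143 (.c k144 t42_192_144 (.c k145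
  t42_192_145 (.c k146 t42_192_146 (.c k147 t42_192_147 (.c k148 t42_192_148 (.c k149 t42_192_149
  (.c k150 t42_192_150 (.c k151 t42_192_151 (.c k152 t42_192_152 (.c k153 t42_192_153 (.c k154
  t42_192_154 (.c k155 t42_192_155 (.c k156 t42_192_156 (.c k157 t42_192_157 (.c k158 t42_192_158
  (.c k159 t42_192_159 (.c k160 t42_192_160 (.c k161 t42_192_161 (.c k162 t42_192_162 (.c k163
  t42_192_163 (.c k164 t42_192_164 (.c k165 t42_192_165 (.c k166 t42_192_166 (.c k167 t42_192_167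
  (.c k168 t42_192_168 (.c k169 t42_192_169 (.c k171 t42_192_171 (.c k172 t42_192_172 (.c k173
  t42_192_173 (.c k174 t42_192_174 (.c k175 t42_192_175 (.c k176 t42_192_176 (.c k177 t42_192_177
  (.c k178 t42_192_178 (.c k179 t42_192_179 (.c k180 t42_192_180 (.c k181 t42_192_181 (.c k182
  t42_192_182 (.c k183 t42_192_183 (.c k184 t42_192_184 (.c k185 t42_192_185 (.c k186 t42_192_186
  (.c k187 t42_192_187 (.c k188 t42_192_188 (.c k189 t42_192_189 (.c k190 t42_192_190 (.c k191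
  t42_192_191 (.c k193 t42_192_193 (.c k194 t42_192_194 (.c k195 t42_192_195 (.c k196 t42_192_196
  (.c k197 t42_192_197 (.c k198 t42_192_198 (.c k199 t42_192_199 (.c k200 t42_192_200 (.c k201
  t42_192_201 (.c k202 t42_192_202 (.c k203 t42_192_203 (.c k204 t42_192_204 (.c k205 t42_192_205
  (.c k206 t42_192_206 (.c k207 t42_192_207 (.c k208 t42_192_208 (.c k209 t42_192_209 (.c k210
  t42_192_210 (.c k211 t42_192_211 (.c k212 t42_192_212 (.c k213 t42_192_213 (.c k214 t42_192_214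
  (.c k215 t42_192_215 (.c k216 t42_192_216 (.c k217 t42_192_217 (.c k218 t42_192_218 (.c k219
  t42_192_219 (.c k220 t42_192_220 (.c k221 t42_192_221 (.c k222 t42_192_222 (.c k223 t42_192_223
  (.c k224 t42_192_224 (.c k225 t42_192_225 (.c k226 t42_192_226 (.c k227 t42_192_227 (.c k228
  t42_192_228 (.c k229 t42_192_229 (.c k230 t42_192_230 (.c k231 t42_192_231 (.c k232 t42_192_232
  (.c k233 t42_192_233 (.c k234 t42_192_234 (.c k235 t42_192_235 (.c k236 t42_192_236 (.c k237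
  t42_192_237 (.c k238 t42_192_238 (.c k239 t42_192_239 (.c k240 t42_192_240 (.c k241 t42_192_241
  (.c k242 t42_192_242 (.c k243 t42_192_243 (.c k244 t42_192_244 (.c k245 t42_192_245 (.c k246
  t42_192_246 (.c k247 t42_192_247 (.c k248 t42_192_248 (.c k249 t42_192_249 (.c k250 t42_192_250
  (.c k251 t42_192_251 (.c k252 t42_192_252 (.c k253 t42_192_253 (.c k254 t42_192_254 (.c k255
  t42_192_255 .n))))))))))))))))))))))))))))))))))))))))))))))))))))))))))))))))))))))))))))))))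
  ))))))))))))))))))))))))))))))))))))))))))))))))))))))))))))))))))))))))))))))))
  )))))))))))))))))))))))))))))))))))))))))))))))))))))))))))))))))))))))))))))))) ))))))))))

def t42_193 : T TT 256 :=
  (.q k3 [(.s k43 k23 5 (.s k169 k232 8 (.s k86 k252 14 (.s k192 k149 14 (.d k66 k126 k129 5 8))))),
  (.s k23 k43 5 (.s k149 k192 14 (.s k86 k212 8 (.s k252 k169 14 (.d k126 k66 k189 5 8))))), (.s k1
  k2 0 (.s k192 k149 14 (.s k66 k129 8 (.s k86 k126 5 (.s k169 k252 14 (.s k85 k253 13 (.d k64 k128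
  k127 7 6))))))), (.s k1 k2 0 (.s k43 k23 5 (.s k169 k232 8 (.s k85 k253 13 (.s k192 k149 14 (.d
  k64 k128 k127 7 6))))))] (.c k86 (.q k131 [(.s k192 k149 14 (.s k128 k64 7 (.d k129 k130 k66 0
  8))), (.s k23 k43 5 (.s k195 k67 7 (.s k151 k107 13 (.s k87 k215 7 (.d k171 k191 k255 5 13))))),
  (.s k43 k23 5 (.s k169 k232 8 (.s k149 k192 14 (.s k129 k189 5 (.s k130 k128 0 (.d k195 k67 k65 7
  8))))))] (.c k2 (.q k254 [(.s k192 k149 14 (.s k128 k64 7 (.d k129 k130 k66 0 8))), (.s k23 k43 5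
  (.s k195 k67 7 (.s k151 k107 13 (.s k87 k215 7 (.d k171 k191 k255 5 13))))), (.s k43 k23 5 (.s
  k169 k232 8 (.s k149 k192 14 (.s k129 k189 5 (.s k130 k128 0 (.d k195 k67 k65 7 8))))))] (.c k22
  (.q k62 [(.s k195 k67 7 (.s k60 k61 0 (.d k150 k105 k194 14 13))), (.s k43 k23 5 (.s k169 k232 8
  (.d k150 k188 k194 6 13)))] (.c k149 (.l (.s k195 k67 7 (.s k150 k194 13 (.d k60 k105 k61 14 0))))
  (.c k150 (.q k214 [(.s k195 k67 7 (.s k252 k233 6 (.d k126 k190 k189 7 8))), (.s k192 k149 14 (.s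
  k128 k64 7 (.d k129 k130 k66 0 8)))] (.c k105 (.l (.s k43 k23 5 (.s k169 k232 8 (.s k149 k192 14
  (.s k189 k129 5 (.d k126 k252 k190 8 7)))))) (.c k130 (.l (.s k190 k126 7 (.s k67 k195 7 (.s k192
  k149 14 (.s k66 k129 8 (.d k64 k65 k128 0 7)))))) (.c k190 (.q k130 [(.d k195 k67 k65 7 8), (.s
  k192 k149 14 (.d k128 k129 k64 0 7))] .n) .n)))) (.c k194 (.l (.s k192 k149 14 (.s k128 k64 7 (.d
  k129 k130 k66 0 8)))) (.c k214 (.l (.s k150 k194 13 (.s k43 k23 5 (.d k169 k188 k232 6 8))))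
  .n))))) (.c k23 (.l (.s k195 k67 7 (.s k130 k65 8 (.s k129 k128 0 (.d k192 k66 k149 8 14))))) (.c
  k62 (.q k22 [(.s k23 k43 5 (.s k20 k21 0 (.d k60 k40 k41 5 6))), (.s k192 k149 14 (.s k128 k64 7
  (.d k129 k130 k66 0 8)))] (.c k23 (.l (.s k60 k41 6 (.s k195 k67 7 (.s k105 k150 14 (.d k107 k104
  k151 0 13))))) .n)) .n)))) (.c k23 (.l (.s k195 k67 7 (.s k130 k65 8 (.s k129 k128 0 (.d k192 k66
  k149 8 14))))) (.c k254 (.l (.s k2 k1 0 (.s k192 k149 14 (.s k128 k64 7 (.d k129 k130 k66 0 8)))))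
  .n)))) (.c k149 (.f k43 k23 5 (.l (.s k1 k2 0 (.s k169 k232 8 (.s k85 k253 13 (.s k86 k252 14 (.s
  k64 k127 6 (.s k66 k126 5 (.d k192 k128 k129 7 8))))))))) (.c k169 (.q k171 [(.s k255 k87 13 (.s
  k127 k191 7 (.s k64 k85 6 (.d k192 k128 k149 7 14)))), (.s k23 k43 5 (.s k87 k255 13 (.s k151 k215
  7 (.s k195 k107 13 (.d k131 k191 k67 5 7))))), (.s k192 k149 14 (.s k128 k64 7 (.s k129 k66 8 (.s
  k131 k130 0 (.s k151 k191 5 (.d k195 k67 k107 7 13))))))] (.c k191 (.l (.s k43 k23 5 (.s k87 k255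
  13 (.s k107 k235 7 (.s k195 k151 13 (.d k67 k127 k131 5 7)))))) .n)) (.c k192 (.f k43 k23 5 (.l
  (.s k1 k2 0 (.s k169 k232 8 (.s k85 k253 13 (.s k127 k64 6 (.s k255 k191 7 (.s k87 k171 13 (.d k86
  k252 k84 14 0))))))))) .n)))))

def t42_194 : T TT 256 :=
  (.f k192 k149 14 (.f k128 k64 7 (.q k252 [(.s k168 k84 13 (.s k148 k188 5 (.s k104 k60 13 (.d k232
  k212 k40 5 7)))), (.s k126 k189 8 (.s k86 k66 5 (.s k169 k3 14 (.d k232 k212 k43 5 8))))] (.c k212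
  (.l (.s k168 k84 13 (.s k126 k189 8 (.s k86 k66 5 (.s k169 k3 14 (.s k232 k43 8 (.s k148 k188 5
  (.d k104 k40 k60 7 13)))))))) (.c k232 (.q k86 [(.d k126 k66 k189 5 8), (.s k168 k84 13 (.s k169
  k3 14 (.s k188 k148 5 (.s k150 k131 6 (.s k214 k22 7 (.s k195 k233 6 (.d k60 k124 k105 7
  14)))))))] .n) .n)))))

def t42_195 : T TT 256 :=
  (.f k192 k149 14 (.f k128 k64 7 (.q k252 [(.s k168 k84 13 (.s k148 k188 5 (.s k104 k60 13 (.d k232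
  k212 k40 5 7)))), (.s k126 k189 8 (.s k86 k66 5 (.s k169 k3 14 (.d k232 k212 k43 5 8))))] (.c k212
  (.l (.s k168 k84 13 (.s k126 k189 8 (.s k86 k66 5 (.s k169 k3 14 (.s k232 k43 8 (.s k148 k188 5
  (.d k104 k40 k60 7 13)))))))) (.c k232 (.q k138 [(.s k207 k69 10 (.s k133 k143 2 (.s k74 k15 10
  (.d k202 k197 k10 2 7)))), (.s k207 k69 10 (.s k111 k159 11 (.s k101 k96 2 (.s k154 k48 14 (.d
  k202 k197 k58 2 11))))), (.s k126 k189 8 (.s k66 k86 5 (.s k133 k143 2 (.s k74 k15 10 (.s k70 k78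
  1 (.s k2 k206 9 (.d k3 k129 k1 8 0)))))))] (.c k74 (.l (.s k168 k84 13 (.s k143 k133 2 (.s k188
  k148 5 (.s k173 k158 4 (.s k15 k94 12 (.d k207 k79 k69 7 10))))))) (.c k79 (.l (.s k69 k207 10 (.s
  k133 k143 2 (.s k15 k74 10 (.d k5 k10 k197 2 7))))) (.c k207 (.l (.s k126 k189 8 (.s k133 k143 2
  (.s k15 k74 10 (.s k31 k47 3 (.s k94 k173 12 (.s k157 k220 8 (.d k110 k78 k204 3 12)))))))) .n))))
  .n)))))

def t42_196 : T TT 256 :=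
  (.q k252 [(.s k149 k192 14 (.s k126 k189 8 (.s k86 k66 5 (.s k3 k169 14 (.d k23 k43 k212 5 8))))),
  (.s k168 k84 13 (.s k192 k149 14 (.s k128 k64 7 (.s k148 k188 5 (.s k104 k60 13 (.d k232 k212 k40
  5 7)))))), (.s k149 k192 14 (.s k189 k126 8 (.s k169 k129 5 (.s k3 k86 14 (.d k43 k23 k232 5
  8)))))] (.c k149 (.f k126 k189 8 (.l (.s k84 k168 13 (.s k86 k66 5 (.s k169 k3 14 (.s k232 k43 8
  (.s k85 k87 0 (.s k64 k127 6 (.d k192 k212 k128 5 7))))))))) (.c k192 (.f k126 k189 8 (.l (.s k84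
  k168 13 (.s k86 k66 5 (.s k85 k87 0 (.s k127 k64 6 (.s k255 k191 7 (.s k253 k254 0 (.d k169 k3 k1
  14 13))))))))) .n)))

def t42_197 : T TT 256 :=
  (.q k252 [(.s k149 k192 14 (.s k126 k189 8 (.s k86 k66 5 (.s k23 k212 8 (.d k3 k43 k169 5 14))))),
  (.s k168 k84 13 (.s k192 k149 14 (.s k128 k64 7 (.s k148 k188 5 (.s k104 k60 13 (.d k232 k212 k40
  5 7))))))] (.c k149 (.f k126 k189 8 (.l (.s k84 k168 13 (.s k86 k66 5 (.s k169 k3 14 (.s k232 k43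
  8 (.s k85 k87 0 (.s k64 k127 6 (.d k192 k212 k128 5 7))))))))) (.c k192 (.f k126 k189 8 (.l (.s
  k84 k168 13 (.s k86 k66 5 (.s k85 k87 0 (.s k127 k64 6 (.s k255 k191 7 (.s k253 k254 0 (.d k169 k3
  k1 14 13))))))))) (.c k212 (.l (.s k149 k192 14 (.s k189 k126 8 (.s k169 k129 5 (.s k3 k86 14 (.d
  k43 k23 k232 5 8)))))) .n))))

def t42_198 : T TT 256 :=
  (.f k192 k149 14 (.q k252 [(.s k126 k189 8 (.s k86 k66 5 (.s k169 k3 14 (.d k232 k212 k43 5 8)))),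
  (.s k128 k64 7 (.s k168 k84 13 (.s k148 k188 5 (.s k104 k60 13 (.d k232 k212 k40 5 7))))), (.s k84
  k168 13 (.s k126 k189 8 (.s k86 k66 5 (.s k85 k87 0 (.d k64 k128 k127 7 6)))))] (.c k128 (.q k191
  [(.s k126 k189 8 (.s k86 k66 5 (.s k169 k3 14 (.d k232 k212 k43 5 8)))), (.s k189 k126 8 (.s k255
  k127 7 (.s k190 k188 0 (.s k125 k60 8 (.d k253 k254 k61 0 7))))), (.s k84 k168 13 (.s k127 k255 7
  (.s k64 k85 6 (.s k104 k124 5 (.s k148 k60 13 (.d k212 k232 k20 5 7))))))] .n) (.c k191 (.l (.s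
  k128 k64 7 (.s k168 k84 13 (.s k148 k188 5 (.s k104 k60 13 (.d k232 k212 k40 5 7)))))) .n))))

def t42_199 : T TT 256 :=
  (.f k192 k149 14 (.q k252 [(.s k126 k189 8 (.s k86 k66 5 (.s k169 k3 14 (.d k232 k212 k43 5 8)))),
  (.s k128 k64 7 (.s k168 k84 13 (.s k148 k188 5 (.s k104 k60 13 (.d k232 k212 k40 5 7))))), (.s k84
  k168 13 (.s k126 k189 8 (.s k86 k66 5 (.s k85 k87 0 (.d k64 k128 k127 7 6)))))] (.c k128 (.q k191
  [(.s k126 k189 8 (.s k86 k66 5 (.s k169 k3 14 (.d k232 k212 k43 5 8)))), (.s k189 k126 8 (.s k255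
  k127 7 (.s k190 k188 0 (.s k125 k60 8 (.d k253 k254 k61 0 7))))), (.s k84 k168 13 (.s k127 k255 7
  (.s k64 k85 6 (.s k104 k124 5 (.s k148 k60 13 (.d k212 k232 k20 5 7))))))] .n) (.c k191 (.l (.s
  k128 k64 7 (.s k168 k84 13 (.s k148 k188 5 (.s k104 k60 13 (.d k232 k212 k40 5 7)))))) .n))))

def t42_200 : T TT 256 :=
  (.f k192 k149 14 (.f k128 k64 7 (.q k130 [(.s k195 k65 8 (.s k129 k131 0 (.s k66 k3 8 (.d k194
  k193 k2 0 7)))), (.s k195 k65 8 (.s k107 k151 13 (.s k105 k104 0 (.s k150 k60 14 (.d k194 k193 k62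
  0 13)))))] (.c k65 (.l (.s k129 k131 0 (.s k66 k3 8 (.s k194 k2 7 (.s k195 k193 0 (.s k107 k151 13
  (.s k105 k104 0 (.d k150 k62 k60 13 14)))))))) (.c k66 (.l (.s k131 k129 0 (.s k195 k65 8 (.s k67
  k3 7 (.s k107 k151 13 (.s k105 k104 0 (.s k150 k60 14 (.d k194 k193 k62 0 13)))))))) (.c k67 (.l
  (.s k65 k195 8 (.s k129 k131 0 (.s k3 k66 8 (.d k1 k2 k193 0 7))))) (.c k193 (.l (.s k195 k65 8
  (.s k107 k151 13 (.s k105 k104 0 (.s k150 k60 14 (.s k194 k62 13 (.s k129 k131 0 (.d k66 k2 k3 7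
  8)))))))) (.c k194 (.l (.s k65 k195 8 (.s k129 k131 0 (.s k1 k193 7 (.d k3 k2 k66 0 8))))) (.c
  k195 (.q k51 [(.s k145 k98 12 (.s k162 k179 4 (.s k81 k243 12 (.d k17 k34 k209 4 7)))), (.s k17
  k34 4 (.s k129 k131 0 (.s k3 k66 8 (.s k1 k2 0 (.s k33 k49 3 (.s k18 k48 4 (.d k19 k16 k35 0
  3))))))), (.s k145 k98 12 (.s k129 k131 0 (.s k3 k66 8 (.s k19 k35 3 (.s k82 k208 8 (.d k161 k177
  k240 3 12))))))] .n) .n)))))))))

def t42_201 : T TT 256 :=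
  (.f k192 k149 14 (.q k252 [(.s k126 k189 8 (.s k86 k66 5 (.s k169 k3 14 (.d k232 k212 k43 5 8)))),
  (.s k128 k64 7 (.s k168 k84 13 (.s k148 k188 5 (.s k104 k60 13 (.d k232 k212 k40 5 7))))), (.s k84
  k168 13 (.s k126 k189 8 (.s k86 k66 5 (.s k85 k87 0 (.d k64 k128 k127 7 6)))))] (.c k128 (.q k191
  [(.s k126 k189 8 (.s k86 k66 5 (.s k169 k3 14 (.d k232 k212 k43 5 8)))), (.s k189 k126 8 (.s k255
  k127 7 (.s k190 k188 0 (.s k125 k60 8 (.d k253 k254 k61 0 7))))), (.s k84 k168 13 (.s k127 k255 7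
  (.s k64 k85 6 (.s k104 k124 5 (.s k148 k60 13 (.d k212 k232 k20 5 7))))))] .n) (.c k191 (.l (.s
  k128 k64 7 (.s k168 k84 13 (.s k148 k188 5 (.s k104 k60 13 (.d k232 k212 k40 5 7)))))) .n))))

def t42_202 : T TT 256 :=
  (.f k192 k149 14 (.q k252 [(.s k126 k189 8 (.s k86 k66 5 (.s k169 k3 14 (.d k232 k212 k43 5 8)))),
  (.s k128 k64 7 (.s k168 k84 13 (.s k148 k188 5 (.s k104 k60 13 (.d k232 k212 k40 5 7))))), (.s k84
  k168 13 (.s k126 k189 8 (.s k86 k66 5 (.s k85 k87 0 (.d k64 k128 k127 7 6)))))] (.c k128 (.q k191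
  [(.s k126 k189 8 (.s k86 k66 5 (.s k169 k3 14 (.d k232 k212 k43 5 8)))), (.s k189 k126 8 (.s k255
  k127 7 (.s k190 k188 0 (.s k125 k60 8 (.d k253 k254 k61 0 7))))), (.s k84 k168 13 (.s k127 k255 7
  (.s k64 k85 6 (.s k104 k124 5 (.s k148 k60 13 (.d k212 k232 k20 5 7))))))] .n) (.c k191 (.l (.s
  k128 k64 7 (.s k168 k84 13 (.s k148 k188 5 (.s k104 k60 13 (.d k232 k212 k40 5 7)))))) .n))))

def t42_203 : T TT 256 :=
  (.f k192 k149 14 (.q k51 [(.s k98 k145 12 (.s k59 k55 1 (.s k102 k110 1 (.d k153 k200 k204 12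
  14)))), (.s k17 k34 4 (.s k128 k64 7 (.s k145 k98 12 (.s k81 k209 7 (.d k162 k179 k243 4 12))))),
  (.s k17 k34 4 (.s k59 k55 1 (.s k153 k200 12 (.s k85 k221 9 (.d k64 k128 k127 7 6)))))] (.c k102
  (.l (.s k34 k17 4 (.s k98 k145 12 (.s k162 k226 7 (.s k81 k243 12 (.d k64 k115 k128 4 7)))))) (.c
  k128 (.q k191 [(.s k59 k55 1 (.s k153 k200 12 (.s k102 k204 14 (.d k98 k110 k145 1 12)))), (.s
  k255 k127 7 (.s k187 k119 9 (.s k183 k179 1 (.s k123 k243 9 (.d k59 k55 k251 1 7))))), (.s k17 k34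
  4 (.s k98 k145 12 (.s k127 k255 7 (.s k85 k64 6 (.s k153 k221 9 (.d k102 k204 k110 14 1))))))] (.c
  k145 (.l (.s k17 k34 4 (.s k59 k55 1 (.s k153 k200 12 (.s k85 k221 9 (.d k127 k64 k255 6 7))))))
  .n)) (.c k191 (.l (.s k128 k64 7 (.s k17 k34 4 (.s k145 k98 12 (.s k81 k209 7 (.d k162 k179 k243 4
  12)))))) .n)))))

def t42_204 : T TT 256 :=
  (.f k192 k149 14 (.q k252 [(.s k126 k189 8 (.s k86 k66 5 (.s k232 k212 5 (.d k169 k43 k3 8 14)))),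
  (.s k128 k64 7 (.s k168 k84 13 (.s k148 k188 5 (.s k104 k60 13 (.d k232 k212 k40 5 7))))), (.s k84
  k168 13 (.s k126 k189 8 (.s k86 k66 5 (.s k85 k87 0 (.d k64 k128 k127 7 6)))))] (.c k128 (.q k191
  [(.s k126 k189 8 (.s k86 k66 5 (.s k232 k212 5 (.d k169 k43 k3 8 14)))), (.s k189 k126 8 (.s k255
  k127 7 (.s k190 k188 0 (.s k125 k60 8 (.d k253 k254 k61 0 7))))), (.s k84 k168 13 (.s k127 k255 7
  (.s k64 k85 6 (.s k104 k124 5 (.s k148 k60 13 (.d k212 k232 k20 5 7))))))] .n) (.c k191 (.l (.s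
  k128 k64 7 (.s k168 k84 13 (.s k148 k188 5 (.s k104 k60 13 (.d k232 k212 k40 5 7)))))) .n))))

def t42_205 : T TT 256 :=
  (.f k192 k149 14 (.q k51 [(.s k59 k55 1 (.s k98 k145 12 (.s k153 k200 12 (.d k102 k110 k204 1
  14)))), (.s k17 k34 4 (.s k128 k64 7 (.s k145 k98 12 (.s k81 k209 7 (.d k162 k179 k243 4 12))))),
  (.s k17 k34 4 (.s k59 k55 1 (.s k153 k200 12 (.s k85 k221 9 (.d k64 k128 k127 7 6)))))] (.c k102
  (.l (.s k34 k17 4 (.s k98 k145 12 (.s k162 k226 7 (.s k81 k243 12 (.d k64 k115 k128 4 7)))))) (.c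
  k128 (.q k191 [(.s k59 k55 1 (.s k153 k200 12 (.s k102 k204 14 (.d k98 k110 k145 1 12)))), (.s
  k255 k127 7 (.s k187 k119 9 (.s k183 k179 1 (.s k123 k243 9 (.d k59 k55 k251 1 7))))), (.s k17 k34
  4 (.s k98 k145 12 (.s k127 k255 7 (.s k85 k64 6 (.s k153 k221 9 (.d k102 k204 k110 14 1))))))] (.c
  k145 (.l (.s k17 k34 4 (.s k59 k55 1 (.s k153 k200 12 (.s k85 k221 9 (.d k127 k64 k255 6 7))))))
  .n)) (.c k191 (.l (.s k128 k64 7 (.s k17 k34 4 (.s k145 k98 12 (.s k81 k209 7 (.d k162 k179 k243 4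
  12)))))) .n)))))

def t42_206 : T TT 256 :=
  (.f k192 k149 14 (.q k252 [(.s k126 k189 8 (.s k86 k66 5 (.s k169 k3 14 (.d k232 k212 k43 5 8)))),
  (.s k128 k64 7 (.s k168 k84 13 (.s k148 k188 5 (.s k104 k60 13 (.d k232 k212 k40 5 7))))), (.s k84
  k168 13 (.s k126 k189 8 (.s k86 k66 5 (.s k85 k87 0 (.d k64 k128 k127 7 6)))))] (.c k128 (.q k191
  [(.s k126 k189 8 (.s k86 k66 5 (.s k169 k3 14 (.d k232 k212 k43 5 8)))), (.s k189 k126 8 (.s k255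
  k127 7 (.s k190 k188 0 (.s k125 k60 8 (.d k253 k254 k61 0 7))))), (.s k84 k168 13 (.s k127 k255 7
  (.s k64 k85 6 (.s k104 k124 5 (.s k148 k60 13 (.d k212 k232 k20 5 7))))))] .n) (.c k191 (.l (.s
  k128 k64 7 (.s k168 k84 13 (.s k148 k188 5 (.s k104 k60 13 (.d k232 k212 k40 5 7)))))) .n))))

def t42_207 : T TT 256 :=
  (.f k192 k149 14 (.q k51 [(.s k59 k55 1 (.s k98 k145 12 (.s k153 k200 12 (.d k102 k110 k204 1
  14)))), (.s k17 k34 4 (.s k128 k64 7 (.s k145 k98 12 (.s k81 k209 7 (.d k162 k179 k243 4 12))))),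
  (.s k17 k34 4 (.s k59 k55 1 (.s k153 k200 12 (.s k85 k221 9 (.d k64 k128 k127 7 6)))))] (.c k102
  (.l (.s k34 k17 4 (.s k98 k145 12 (.s k162 k226 7 (.s k81 k243 12 (.d k64 k115 k128 4 7)))))) (.c
  k128 (.q k191 [(.s k59 k55 1 (.s k153 k200 12 (.s k102 k204 14 (.d k98 k110 k145 1 12)))), (.s
  k255 k127 7 (.s k187 k119 9 (.s k183 k179 1 (.s k123 k243 9 (.d k59 k55 k251 1 7))))), (.s k17 k34
  4 (.s k98 k145 12 (.s k127 k255 7 (.s k85 k64 6 (.s k153 k221 9 (.d k102 k204 k110 14 1))))))] (.c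
  k145 (.l (.s k17 k34 4 (.s k59 k55 1 (.s k153 k200 12 (.s k85 k221 9 (.d k127 k64 k255 6 7))))))
  .n)) (.c k191 (.l (.s k128 k64 7 (.s k17 k34 4 (.s k145 k98 12 (.s k81 k209 7 (.d k162 k179 k243 4
  12)))))) .n)))))

def t42_208 : T TT 256 :=
  (.q k252 [(.s k149 k192 14 (.s k126 k189 8 (.s k86 k66 5 (.s k3 k169 14 (.d k23 k43 k212 5 8))))),
  (.s k168 k84 13 (.s k192 k149 14 (.s k128 k64 7 (.s k148 k188 5 (.s k104 k60 13 (.d k232 k212 k40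
  5 7)))))), (.s k149 k192 14 (.s k189 k126 8 (.s k169 k129 5 (.s k3 k86 14 (.d k43 k23 k232 5
  8)))))] (.c k149 (.f k126 k189 8 (.l (.s k84 k168 13 (.s k86 k66 5 (.s k169 k3 14 (.s k232 k43 8
  (.s k85 k87 0 (.s k64 k127 6 (.d k192 k212 k128 5 7))))))))) (.c k192 (.f k126 k189 8 (.l (.s k84
  k168 13 (.s k86 k66 5 (.s k85 k87 0 (.s k127 k64 6 (.s k255 k191 7 (.s k253 k254 0 (.d k169 k3 k1
  14 13))))))))) .n)))

def t42_209 : T TT 256 :=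
  (.f k192 k149 14 (.f k128 k64 7 (.q k89 [(.s k72 k123 4 (.s k12 k132 9 (.s k46 k29 4 (.d k166 k226
  k243 9 14)))), (.s k72 k123 4 (.s k132 k12 9 (.s k136 k140 1 (.s k204 k68 9 (.d k200 k196 k8 1
  7)))))] (.c k12 (.q k15 [(.s k47 k31 3 (.s k74 k133 10 (.s k165 k224 10 (.d k90 k122 k240 3
  14)))), (.s k133 k74 10 (.s k138 k143 2 (.s k69 k207 10 (.d k5 k10 k197 2 7)))), (.s k31 k47 3 (.s
  k123 k72 4 (.s k243 k183 9 (.s k91 k167 13 (.s k151 k211 9 (.d k107 k75 k195 3 13))))))] .n) (.c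
  k72 (.q k15 [(.s k47 k31 3 (.s k74 k133 10 (.s k165 k224 10 (.d k90 k122 k240 3 14)))), (.s k133
  k74 10 (.s k138 k143 2 (.s k69 k207 10 (.d k5 k10 k197 2 7)))), (.s k47 k31 3 (.s k165 k224 10 (.s
  k13 k241 13 (.s k12 k14 0 (.s k46 k29 4 (.d k166 k226 k243 9 14))))))] (.c k68 (.q k76 [(.s k47
  k31 3 (.s k74 k133 10 (.s k165 k224 10 (.d k90 k122 k240 3 14)))), (.s k102 k115 6 (.s k98 k110 1
  (.s k51 k145 12 (.s k59 k55 1 (.d k153 k200 k204 12 14)))))] .n) (.c k76 (.q k68 [(.s k47 k31 3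
  (.s k74 k133 10 (.s k165 k224 10 (.d k90 k122 k240 3 14)))), (.s k204 k136 9 (.s k110 k157 12 (.s
  k102 k98 1 (.s k153 k51 14 (.d k200 k196 k59 1 12)))))] .n) .n))) (.c k123 (.q k15 [(.s k133 k74
  10 (.s k138 k143 2 (.s k69 k207 10 (.d k5 k10 k197 2 7)))), (.s k47 k31 3 (.s k165 k224 10 (.s k13
  k241 13 (.s k12 k14 0 (.s k46 k29 4 (.d k166 k226 k243 9 14))))))] .n) (.c k132 (.l (.s k123 k72 4
  (.s k243 k183 9 (.s k166 k12 14 (.s k162 k81 12 (.s k226 k46 9 (.s k145 k179 4 (.d k98 k34 k51 7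
  12)))))))) .n)))))))

def t42_210 : T TT 256 :=
  (.f k192 k149 14 (.q k252 [(.s k126 k189 8 (.s k86 k66 5 (.s k169 k3 14 (.d k232 k212 k43 5 8)))),
  (.s k128 k64 7 (.s k168 k84 13 (.s k148 k188 5 (.s k104 k60 13 (.d k232 k212 k40 5 7))))), (.s k84
  k168 13 (.s k126 k189 8 (.s k86 k66 5 (.s k85 k87 0 (.d k64 k128 k127 7 6)))))] (.c k128 (.q k191
  [(.s k126 k189 8 (.s k86 k66 5 (.s k169 k3 14 (.d k232 k212 k43 5 8)))), (.s k189 k126 8 (.s k255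
  k127 7 (.s k190 k188 0 (.s k125 k60 8 (.d k253 k254 k61 0 7))))), (.s k84 k168 13 (.s k127 k255 7
  (.s k64 k85 6 (.s k104 k124 5 (.s k148 k60 13 (.d k212 k232 k20 5 7))))))] .n) (.c k191 (.l (.s
  k128 k64 7 (.s k168 k84 13 (.s k148 k188 5 (.s k104 k60 13 (.d k232 k212 k40 5 7)))))) .n))))

def t42_211 : T TT 256 :=
  (.f k192 k149 14 (.q k252 [(.s k126 k189 8 (.s k86 k66 5 (.s k169 k3 14 (.d k232 k212 k43 5 8)))),
  (.s k128 k64 7 (.s k168 k84 13 (.s k148 k188 5 (.s k104 k60 13 (.d k232 k212 k40 5 7))))), (.s k84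
  k168 13 (.s k126 k189 8 (.s k86 k66 5 (.s k85 k87 0 (.d k64 k128 k127 7 6)))))] (.c k128 (.q k191
  [(.s k126 k189 8 (.s k86 k66 5 (.s k169 k3 14 (.d k232 k212 k43 5 8)))), (.s k189 k126 8 (.s k255
  k127 7 (.s k190 k188 0 (.s k125 k60 8 (.d k253 k254 k61 0 7))))), (.s k84 k168 13 (.s k127 k255 7
  (.s k64 k85 6 (.s k104 k124 5 (.s k148 k60 13 (.d k212 k232 k20 5 7))))))] .n) (.c k191 (.l (.s
  k128 k64 7 (.s k168 k84 13 (.s k148 k188 5 (.s k104 k60 13 (.d k232 k212 k40 5 7)))))) .n))))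

def t42_212 : T TT 256 :=
  (.f k192 k149 14 (.f k128 k64 7 (.q k86 [(.s k66 k126 5 (.s k3 k129 8 (.s k43 k23 5 (.d k169 k232
  k252 8 14)))), (.s k66 k126 5 (.s k129 k3 8 (.s k130 k131 0 (.s k195 k65 8 (.d k194 k193 k2 0
  7)))))] (.c k3 (.q k15 [(.s k47 k31 3 (.s k74 k133 10 (.s k165 k224 10 (.d k90 k122 k240 3 14)))),
  (.s k133 k74 10 (.s k138 k143 2 (.s k69 k207 10 (.d k5 k10 k197 2 7)))), (.s k31 k47 3 (.s k126
  k66 5 (.s k252 k189 8 (.s k94 k173 12 (.s k157 k220 8 (.d k110 k78 k204 3 12))))))] .n) (.c k66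
  (.q k15 [(.s k47 k31 3 (.s k74 k133 10 (.s k165 k224 10 (.d k90 k122 k240 3 14)))), (.s k133 k74
  10 (.s k138 k143 2 (.s k69 k207 10 (.d k5 k10 k197 2 7)))), (.s k47 k31 3 (.s k165 k224 10 (.s k7
  k244 12 (.s k3 k11 1 (.s k43 k23 5 (.d k169 k232 k252 8 14))))))] (.c k65 (.q k67 [(.s k47 k31 3
  (.s k74 k133 10 (.s k165 k224 10 (.d k90 k122 k240 3 14)))), (.s k105 k124 6 (.s k104 k107 0 (.s
  k60 k148 13 (.s k62 k61 0 (.d k150 k194 k195 13 14)))))] .n) (.c k67 (.q k65 [(.s k47 k31 3 (.s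
  k74 k133 10 (.s k165 k224 10 (.d k90 k122 k240 3 14)))), (.s k195 k130 8 (.s k107 k151 13 (.s k105
  k104 0 (.s k150 k60 14 (.d k194 k193 k62 0 13)))))] .n) .n))) (.c k126 (.q k15 [(.s k133 k74 10
  (.s k138 k143 2 (.s k69 k207 10 (.d k5 k10 k197 2 7)))), (.s k47 k31 3 (.s k165 k224 10 (.s k7
  k244 12 (.s k3 k11 1 (.s k43 k23 5 (.d k169 k232 k252 8 14))))))] .n) (.c k129 (.l (.s k126 k66 5
  (.s k252 k189 8 (.s k169 k3 14 (.s k168 k84 13 (.s k232 k43 8 (.s k148 k188 5 (.d k104 k40 k60 7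
  13)))))))) .n)))))))

def t42_213 : T TT 256 :=
  (.q k252 [(.s k149 k192 14 (.s k126 k189 8 (.s k86 k66 5 (.s k3 k169 14 (.d k23 k43 k212 5 8))))),
  (.s k168 k84 13 (.s k192 k149 14 (.s k128 k64 7 (.s k148 k188 5 (.s k104 k60 13 (.d k232 k212 k40
  5 7)))))), (.s k149 k192 14 (.s k189 k126 8 (.s k169 k129 5 (.s k3 k86 14 (.d k43 k23 k232 5
  8)))))] (.c k149 (.f k126 k189 8 (.l (.s k84 k168 13 (.s k86 k66 5 (.s k169 k3 14 (.s k232 k43 8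
  (.s k85 k87 0 (.s k64 k127 6 (.d k192 k212 k128 5 7))))))))) (.c k192 (.f k126 k189 8 (.l (.s k84
  k168 13 (.s k86 k66 5 (.s k85 k87 0 (.s k127 k64 6 (.s k255 k191 7 (.s k253 k254 0 (.d k169 k3 k1
  14 13))))))))) .n)))

def t42_214 : T TT 256 :=
  (.f k192 k149 14 (.q k252 [(.s k126 k189 8 (.s k86 k66 5 (.s k169 k3 14 (.d k232 k212 k43 5 8)))),
  (.s k128 k64 7 (.s k168 k84 13 (.s k148 k188 5 (.s k104 k60 13 (.d k232 k212 k40 5 7))))), (.s k84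
  k168 13 (.s k126 k189 8 (.s k86 k66 5 (.s k85 k87 0 (.d k64 k128 k127 7 6)))))] (.c k128 (.q k191
  [(.s k126 k189 8 (.s k86 k66 5 (.s k169 k3 14 (.d k232 k212 k43 5 8)))), (.s k189 k126 8 (.s k255
  k127 7 (.s k190 k188 0 (.s k125 k60 8 (.d k253 k254 k61 0 7))))), (.s k84 k168 13 (.s k127 k255 7
  (.s k64 k85 6 (.s k104 k124 5 (.s k148 k60 13 (.d k212 k232 k20 5 7))))))] .n) (.c k191 (.l (.s
  k128 k64 7 (.s k168 k84 13 (.s k148 k188 5 (.s k104 k60 13 (.d k232 k212 k40 5 7)))))) .n))))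

def t42_215 : T TT 256 :=
  (.f k192 k149 14 (.q k252 [(.s k126 k189 8 (.s k86 k66 5 (.s k169 k3 14 (.d k232 k212 k43 5 8)))),
  (.s k128 k64 7 (.s k168 k84 13 (.s k148 k188 5 (.s k104 k60 13 (.d k232 k212 k40 5 7))))), (.s k84
  k168 13 (.s k126 k189 8 (.s k86 k66 5 (.s k85 k87 0 (.d k64 k128 k127 7 6)))))] (.c k128 (.q k191
  [(.s k126 k189 8 (.s k86 k66 5 (.s k169 k3 14 (.d k232 k212 k43 5 8)))), (.s k189 k126 8 (.s k255
  k127 7 (.s k190 k188 0 (.s k125 k60 8 (.d k253 k254 k61 0 7))))), (.s k84 k168 13 (.s k127 k255 7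
  (.s k64 k85 6 (.s k104 k124 5 (.s k148 k60 13 (.d k212 k20 k232 7 5))))))] .n) (.c k191 (.l (.s
  k128 k64 7 (.s k168 k84 13 (.s k148 k188 5 (.s k104 k60 13 (.d k232 k212 k40 5 7)))))) .n))))

def t42_216 : T TT 256 :=
  (.f k192 k149 14 (.q k252 [(.s k126 k189 8 (.s k86 k66 5 (.s k169 k3 14 (.d k232 k212 k43 5 8)))),
  (.s k128 k64 7 (.s k168 k84 13 (.s k148 k188 5 (.s k104 k60 13 (.d k232 k212 k40 5 7))))), (.s k84
  k168 13 (.s k126 k189 8 (.s k86 k66 5 (.s k85 k87 0 (.d k64 k128 k127 7 6)))))] (.c k128 (.q k191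
  [(.s k126 k189 8 (.s k86 k66 5 (.s k169 k3 14 (.d k232 k212 k43 5 8)))), (.s k189 k126 8 (.s k255
  k127 7 (.s k190 k188 0 (.s k125 k60 8 (.d k253 k254 k61 0 7))))), (.s k84 k168 13 (.s k127 k255 7
  (.s k64 k85 6 (.s k104 k124 5 (.s k148 k60 13 (.d k212 k232 k20 5 7))))))] .n) (.c k191 (.l (.s
  k128 k64 7 (.s k168 k84 13 (.s k148 k188 5 (.s k104 k60 13 (.d k232 k212 k40 5 7)))))) .n))))

def t42_217 : T TT 256 :=
  (.f k192 k149 14 (.q k252 [(.s k126 k189 8 (.s k86 k66 5 (.s k169 k3 14 (.d k232 k212 k43 5 8)))),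
  (.s k128 k64 7 (.s k168 k84 13 (.s k148 k188 5 (.s k104 k60 13 (.d k232 k212 k40 5 7))))), (.s k84
  k168 13 (.s k126 k189 8 (.s k86 k66 5 (.s k85 k87 0 (.d k64 k128 k127 7 6)))))] (.c k128 (.q k191
  [(.s k126 k189 8 (.s k86 k66 5 (.s k169 k3 14 (.d k232 k212 k43 5 8)))), (.s k189 k126 8 (.s k255
  k127 7 (.s k190 k188 0 (.s k125 k60 8 (.d k253 k254 k61 0 7))))), (.s k84 k168 13 (.s k127 k255 7
  (.s k64 k85 6 (.s k104 k124 5 (.s k148 k60 13 (.d k212 k232 k20 5 7))))))] .n) (.c k191 (.l (.s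
  k128 k64 7 (.s k168 k84 13 (.s k148 k188 5 (.s k104 k60 13 (.d k232 k212 k40 5 7)))))) .n))))

def t42_218 : T TT 256 :=
  (.f k192 k149 14 (.q k252 [(.s k126 k189 8 (.s k86 k66 5 (.s k169 k3 14 (.d k232 k212 k43 5 8)))),
  (.s k128 k64 7 (.s k168 k84 13 (.s k148 k188 5 (.s k104 k60 13 (.d k232 k212 k40 5 7))))), (.s k84
  k168 13 (.s k126 k189 8 (.s k86 k66 5 (.s k85 k87 0 (.d k64 k128 k127 7 6)))))] (.c k128 (.q k191
  [(.s k126 k189 8 (.s k86 k66 5 (.s k169 k3 14 (.d k232 k212 k43 5 8)))), (.s k189 k126 8 (.s k255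
  k127 7 (.s k190 k188 0 (.s k125 k60 8 (.d k253 k254 k61 0 7))))), (.s k84 k168 13 (.s k127 k255 7
  (.s k64 k85 6 (.s k104 k124 5 (.s k148 k60 13 (.d k212 k232 k20 5 7))))))] .n) (.c k191 (.l (.s
  k128 k64 7 (.s k168 k84 13 (.s k148 k188 5 (.s k104 k60 13 (.d k232 k212 k40 5 7)))))) .n))))

def t42_219 : T TT 256 :=
  (.f k192 k149 14 (.q k252 [(.s k126 k189 8 (.s k86 k66 5 (.s k169 k3 14 (.d k232 k212 k43 5 8)))),
  (.s k128 k64 7 (.s k168 k84 13 (.s k148 k188 5 (.s k104 k60 13 (.d k232 k212 k40 5 7))))), (.s k84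
  k168 13 (.s k126 k189 8 (.s k86 k66 5 (.s k85 k87 0 (.d k64 k128 k127 7 6)))))] (.c k128 (.q k191
  [(.s k126 k189 8 (.s k86 k66 5 (.s k169 k3 14 (.d k232 k212 k43 5 8)))), (.s k189 k126 8 (.s k255
  k127 7 (.s k190 k188 0 (.s k125 k60 8 (.d k253 k254 k61 0 7))))), (.s k84 k168 13 (.s k127 k255 7
  (.s k64 k85 6 (.s k104 k124 5 (.s k148 k60 13 (.d k212 k232 k20 5 7))))))] .n) (.c k191 (.l (.s
  k128 k64 7 (.s k168 k84 13 (.s k148 k188 5 (.s k104 k60 13 (.d k232 k212 k40 5 7)))))) .n))))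

def t42_220 : T TT 256 :=
  (.f k192 k149 14 (.q k252 [(.s k126 k189 8 (.s k86 k66 5 (.s k169 k3 14 (.d k232 k212 k43 5 8)))),
  (.s k128 k64 7 (.s k168 k84 13 (.s k148 k188 5 (.s k104 k60 13 (.d k232 k212 k40 5 7))))), (.s k84
  k168 13 (.s k126 k189 8 (.s k86 k66 5 (.s k85 k87 0 (.d k64 k128 k127 7 6)))))] (.c k128 (.q k191
  [(.s k126 k189 8 (.s k86 k66 5 (.s k169 k3 14 (.d k232 k212 k43 5 8)))), (.s k189 k126 8 (.s k255
  k127 7 (.s k190 k188 0 (.s k125 k60 8 (.d k253 k254 k61 0 7))))), (.s k84 k168 13 (.s k127 k255 7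
  (.s k64 k85 6 (.s k104 k124 5 (.s k148 k60 13 (.d k212 k232 k20 5 7))))))] .n) (.c k191 (.l (.s
  k128 k64 7 (.s k168 k84 13 (.s k148 k188 5 (.s k104 k60 13 (.d k232 k212 k40 5 7)))))) .n))))

def t42_221 : T TT 256 :=
  (.f k192 k149 14 (.q k252 [(.s k126 k189 8 (.s k86 k66 5 (.s k169 k3 14 (.d k232 k212 k43 5 8)))),
  (.s k128 k64 7 (.s k168 k84 13 (.s k148 k188 5 (.s k104 k60 13 (.d k232 k212 k40 5 7))))), (.s k84
  k168 13 (.s k126 k189 8 (.s k86 k66 5 (.s k85 k87 0 (.d k64 k128 k127 7 6)))))] (.c k128 (.q k191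
  [(.s k126 k189 8 (.s k86 k66 5 (.s k169 k3 14 (.d k232 k212 k43 5 8)))), (.s k189 k126 8 (.s k255
  k127 7 (.s k190 k188 0 (.s k125 k60 8 (.d k253 k254 k61 0 7))))), (.s k84 k168 13 (.s k127 k255 7
  (.s k64 k85 6 (.s k104 k124 5 (.s k148 k60 13 (.d k212 k232 k20 5 7))))))] .n) (.c k191 (.l (.s
  k128 k64 7 (.s k168 k84 13 (.s k148 k188 5 (.s k104 k60 13 (.d k232 k212 k40 5 7)))))) .n))))

def t42_222 : T TT 256 :=
  (.f k192 k149 14 (.q k252 [(.s k126 k189 8 (.s k86 k66 5 (.s k169 k3 14 (.d k232 k212 k43 5 8)))),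
  (.s k128 k64 7 (.s k168 k84 13 (.s k148 k188 5 (.s k104 k60 13 (.d k232 k212 k40 5 7))))), (.s k84
  k168 13 (.s k126 k189 8 (.s k86 k66 5 (.s k85 k87 0 (.d k64 k128 k127 7 6)))))] (.c k128 (.q k191
  [(.s k126 k189 8 (.s k86 k66 5 (.s k169 k3 14 (.d k232 k212 k43 5 8)))), (.s k189 k126 8 (.s k255
  k127 7 (.s k190 k188 0 (.s k125 k60 8 (.d k253 k254 k61 0 7))))), (.s k84 k168 13 (.s k127 k255 7
  (.s k64 k85 6 (.s k104 k124 5 (.s k148 k60 13 (.d k212 k232 k20 5 7))))))] .n) (.c k191 (.l (.s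
  k128 k64 7 (.s k168 k84 13 (.s k148 k188 5 (.s k104 k60 13 (.d k232 k212 k40 5 7)))))) .n))))

def t42_223 : T TT 256 :=
  (.f k192 k149 14 (.q k15 [(.s k74 k133 10 (.s k90 k122 3 (.s k165 k240 14 (.d k47 k31 k224 3
  10)))), (.s k5 k10 2 (.s k128 k64 7 (.s k133 k74 10 (.s k69 k197 7 (.d k138 k143 k207 2 10))))),
  (.s k5 k10 2 (.s k47 k31 3 (.s k165 k224 10 (.s k85 k245 11 (.d k64 k128 k127 7 6)))))] (.c k90
  (.l (.s k10 k5 2 (.s k74 k133 10 (.s k138 k202 7 (.s k69 k207 10 (.d k64 k79 k128 2 7)))))) (.c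
  k128 (.q k191 [(.s k74 k133 10 (.s k90 k122 3 (.s k165 k240 14 (.d k47 k31 k224 3 10)))), (.s k5
  k10 2 (.s k47 k31 3 (.s k165 k224 10 (.s k85 k245 11 (.d k127 k64 k255 6 7))))), (.s k5 k10 2 (.s
  k74 k133 10 (.s k127 k255 7 (.s k85 k64 6 (.s k165 k245 11 (.d k90 k240 k122 14 3)))))), (.s k255
  k127 7 (.s k175 k95 11 (.s k159 k143 3 (.s k111 k207 11 (.d k47 k31 k239 3 7)))))] .n) (.c k191
  (.l (.s k128 k64 7 (.s k5 k10 2 (.s k133 k74 10 (.s k69 k197 7 (.d k138 k143 k207 2 10))))))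
  .n)))))

def t42_224 : T TT 256 :=
  (.f k192 k149 14 (.q k252 [(.s k126 k189 8 (.s k86 k66 5 (.s k169 k3 14 (.d k232 k212 k43 5 8)))),
  (.s k128 k64 7 (.s k168 k84 13 (.s k148 k188 5 (.s k104 k60 13 (.d k232 k212 k40 5 7))))), (.s k84
  k168 13 (.s k126 k189 8 (.s k86 k66 5 (.s k85 k87 0 (.d k64 k128 k127 7 6)))))] (.c k128 (.q k191
  [(.s k126 k189 8 (.s k86 k66 5 (.s k169 k3 14 (.d k232 k212 k43 5 8)))), (.s k189 k126 8 (.s k255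
  k127 7 (.s k190 k188 0 (.s k125 k60 8 (.d k253 k254 k61 0 7))))), (.s k84 k168 13 (.s k127 k255 7
  (.s k64 k85 6 (.s k104 k124 5 (.s k148 k60 13 (.d k212 k232 k20 5 7))))))] .n) (.c k191 (.l (.s
  k128 k64 7 (.s k168 k84 13 (.s k148 k188 5 (.s k104 k60 13 (.d k232 k212 k40 5 7)))))) .n))))

def t42_225 : T TT 256 :=
  (.f k192 k149 14 (.q k15 [(.s k74 k133 10 (.s k47 k31 3 (.s k90 k122 3 (.d k165 k224 k240 10
  14)))), (.s k5 k10 2 (.s k128 k64 7 (.s k133 k74 10 (.s k69 k197 7 (.d k138 k143 k207 2 10))))),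
  (.s k5 k10 2 (.s k47 k31 3 (.s k165 k224 10 (.s k85 k245 11 (.d k64 k128 k127 7 6)))))] (.c k90
  (.l (.s k10 k5 2 (.s k74 k133 10 (.s k138 k202 7 (.s k69 k207 10 (.d k64 k79 k128 2 7)))))) (.c
  k128 (.q k191 [(.s k74 k133 10 (.s k47 k31 3 (.s k90 k122 3 (.d k165 k224 k240 10 14)))), (.s k255
  k127 7 (.s k175 k95 11 (.s k159 k143 3 (.s k111 k207 11 (.d k47 k31 k239 3 7))))), (.s k5 k10 2
  (.s k47 k31 3 (.s k165 k224 10 (.s k85 k245 11 (.d k127 k64 k255 6 7))))), (.s k5 k10 2 (.s k74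
  k133 10 (.s k127 k255 7 (.s k85 k64 6 (.s k165 k245 11 (.d k90 k240 k122 14 3))))))] .n) (.c k191
  (.l (.s k128 k64 7 (.s k5 k10 2 (.s k133 k74 10 (.s k69 k197 7 (.d k138 k143 k207 2 10))))))
  .n)))))

def t42_226 : T TT 256 :=
  (.q k195 [(.s k192 k149 14 (.s k107 k151 13 (.s k105 k104 0 (.s k150 k60 14 (.d k194 k193 k62 0
  13))))), (.s k130 k65 8 (.s k192 k149 14 (.s k128 k64 7 (.s k129 k131 0 (.s k66 k3 8 (.d k194 k193
  k2 0 7)))))), (.s k149 k192 14 (.s k107 k151 13 (.s k105 k104 0 (.s k60 k150 14 (.d k61 k62 k193 0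
  13)))))] (.c k149 (.f k65 k130 8 (.l (.s k107 k151 13 (.s k105 k104 0 (.s k150 k60 14 (.s k194 k62
  13 (.s k85 k125 5 (.s k64 k127 6 (.d k192 k193 k128 0 7))))))))) (.c k192 (.f k65 k130 8 (.l (.s
  k107 k151 13 (.s k105 k104 0 (.s k85 k125 5 (.s k127 k64 6 (.s k255 k191 7 (.s k215 k235 5 (.d
  k150 k60 k20 14 8))))))))) (.c k193 (.l (.s k149 k192 14 (.s k151 k107 13 (.s k150 k148 0 (.s k60
  k105 14 (.d k62 k61 k194 0 13)))))) .n))))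

def t42_227 : T TT 256 :=
  (.f k192 k149 14 (.q k15 [(.s k74 k133 10 (.s k47 k31 3 (.s k90 k122 3 (.d k165 k224 k240 10
  14)))), (.s k5 k10 2 (.s k128 k64 7 (.s k133 k74 10 (.s k69 k197 7 (.d k138 k143 k207 2 10))))),
  (.s k5 k10 2 (.s k47 k31 3 (.s k165 k224 10 (.s k85 k245 11 (.d k64 k128 k127 7 6)))))] (.c k90
  (.l (.s k10 k5 2 (.s k74 k133 10 (.s k138 k202 7 (.s k69 k207 10 (.d k64 k79 k128 2 7)))))) (.c
  k128 (.q k191 [(.s k47 k31 3 (.s k165 k224 10 (.s k90 k240 14 (.d k74 k122 k133 3 10)))), (.s k255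
  k127 7 (.s k175 k95 11 (.s k159 k143 3 (.s k111 k207 11 (.d k47 k31 k239 3 7))))), (.s k5 k10 2
  (.s k74 k133 10 (.s k127 k255 7 (.s k85 k64 6 (.s k165 k245 11 (.d k90 k240 k122 14 3))))))] (.c
  k133 (.l (.s k5 k10 2 (.s k47 k31 3 (.s k165 k224 10 (.s k85 k245 11 (.d k127 k64 k255 6 7))))))
  .n)) (.c k191 (.l (.s k128 k64 7 (.s k5 k10 2 (.s k133 k74 10 (.s k69 k197 7 (.d k138 k143 k207 2
  10)))))) .n)))))

def t42_228 : T TT 256 :=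
  (.f k192 k149 14 (.q k252 [(.s k126 k189 8 (.s k86 k66 5 (.s k169 k3 14 (.d k232 k212 k43 5 8)))),
  (.s k128 k64 7 (.s k168 k84 13 (.s k148 k188 5 (.s k104 k60 13 (.d k232 k212 k40 5 7))))), (.s k84
  k168 13 (.s k126 k189 8 (.s k86 k66 5 (.s k85 k87 0 (.d k64 k128 k127 7 6)))))] (.c k128 (.q k191
  [(.s k126 k189 8 (.s k86 k66 5 (.s k169 k3 14 (.d k232 k212 k43 5 8)))), (.s k189 k126 8 (.s k255
  k127 7 (.s k190 k188 0 (.s k125 k60 8 (.d k253 k254 k61 0 7))))), (.s k84 k168 13 (.s k127 k255 7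
  (.s k64 k85 6 (.s k104 k124 5 (.s k148 k60 13 (.d k212 k232 k20 5 7))))))] .n) (.c k191 (.l (.s
  k128 k64 7 (.s k168 k84 13 (.s k148 k188 5 (.s k104 k60 13 (.d k232 k212 k40 5 7)))))) .n))))

def t42_229 : T TT 256 :=
  (.q k195 [(.s k149 k192 14 (.s k107 k151 13 (.s k105 k104 0 (.s k61 k193 13 (.d k60 k62 k150 0
  14))))), (.s k130 k65 8 (.s k192 k149 14 (.s k128 k64 7 (.s k129 k131 0 (.s k66 k3 8 (.d k194 k193
  k2 0 7))))))] (.c k149 (.f k65 k130 8 (.l (.s k107 k151 13 (.s k105 k104 0 (.s k150 k60 14 (.s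
  k194 k62 13 (.s k85 k125 5 (.s k64 k127 6 (.d k192 k193 k128 0 7))))))))) (.c k192 (.f k65 k130 8
  (.l (.s k107 k151 13 (.s k105 k104 0 (.s k85 k125 5 (.s k127 k64 6 (.s k255 k191 7 (.s k215 k235 5
  (.d k150 k60 k20 14 8))))))))) (.c k193 (.l (.s k149 k192 14 (.s k151 k107 13 (.s k150 k148 0 (.s
  k60 k105 14 (.d k62 k61 k194 0 13)))))) .n))))

def t42_230 : T TT 256 :=
  (.f k192 k149 14 (.q k15 [(.s k47 k31 3 (.s k74 k133 10 (.s k165 k224 10 (.d k90 k122 k240 3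
  14)))), (.s k5 k10 2 (.s k128 k64 7 (.s k133 k74 10 (.s k69 k197 7 (.d k138 k143 k207 2 10))))),
  (.s k5 k10 2 (.s k47 k31 3 (.s k165 k224 10 (.s k85 k245 11 (.d k64 k128 k127 7 6)))))] (.c k90
  (.l (.s k10 k5 2 (.s k74 k133 10 (.s k138 k202 7 (.s k69 k207 10 (.d k64 k79 k128 2 7)))))) (.c
  k128 (.q k191 [(.s k47 k31 3 (.s k165 k224 10 (.s k90 k240 14 (.d k74 k122 k133 3 10)))), (.s k255
  k127 7 (.s k175 k95 11 (.s k159 k143 3 (.s k111 k207 11 (.d k47 k31 k239 3 7))))), (.s k5 k10 2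
  (.s k74 k133 10 (.s k127 k255 7 (.s k85 k64 6 (.s k165 k245 11 (.d k90 k240 k122 14 3))))))] (.c
  k133 (.l (.s k5 k10 2 (.s k47 k31 3 (.s k165 k224 10 (.s k85 k245 11 (.d k127 k64 k255 6 7))))))
  .n)) (.c k191 (.l (.s k128 k64 7 (.s k5 k10 2 (.s k133 k74 10 (.s k69 k197 7 (.d k138 k143 k207 2
  10)))))) .n)))))

def t42_231 : T TT 256 :=
  (.f k192 k149 14 (.q k252 [(.s k126 k189 8 (.s k86 k66 5 (.s k169 k3 14 (.d k232 k212 k43 5 8)))),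
  (.s k128 k64 7 (.s k168 k84 13 (.s k148 k188 5 (.s k104 k60 13 (.d k232 k212 k40 5 7))))), (.s k84
  k168 13 (.s k126 k189 8 (.s k86 k66 5 (.s k85 k87 0 (.d k64 k128 k127 7 6)))))] (.c k128 (.q k191
  [(.s k126 k189 8 (.s k86 k66 5 (.s k169 k3 14 (.d k232 k212 k43 5 8)))), (.s k189 k126 8 (.s k255
  k127 7 (.s k190 k188 0 (.s k125 k60 8 (.d k253 k254 k61 0 7))))), (.s k84 k168 13 (.s k127 k255 7
  (.s k64 k85 6 (.s k104 k124 5 (.s k148 k60 13 (.d k212 k232 k20 5 7))))))] .n) (.c k191 (.l (.s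
  k128 k64 7 (.s k168 k84 13 (.s k148 k188 5 (.s k104 k60 13 (.d k232 k212 k40 5 7)))))) .n))))

def t42_232 : T TT 256 :=
  (.q k195 [(.s k149 k192 14 (.s k151 k107 13 (.s k150 k148 0 (.s k62 k194 13 (.d k60 k61 k105 0
  14))))), (.s k130 k65 8 (.s k192 k149 14 (.s k128 k64 7 (.s k129 k131 0 (.s k66 k3 8 (.d k194 k193
  k2 0 7))))))] (.c k149 (.f k65 k130 8 (.l (.s k107 k151 13 (.s k105 k104 0 (.s k150 k60 14 (.s
  k194 k62 13 (.s k85 k125 5 (.s k64 k127 6 (.d k192 k193 k128 0 7))))))))) (.c k192 (.f k65 k130 8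
  (.l (.s k107 k151 13 (.s k105 k104 0 (.s k85 k125 5 (.s k127 k64 6 (.s k255 k191 7 (.s k215 k235 5
  (.d k150 k60 k20 14 8))))))))) (.c k194 (.l (.s k149 k192 14 (.s k107 k151 13 (.s k105 k104 0 (.s
  k60 k150 14 (.d k61 k62 k193 0 13)))))) .n))))

def t42_233 : T TT 256 :=
  (.f k192 k149 14 (.q k15 [(.s k47 k31 3 (.s k74 k133 10 (.s k165 k224 10 (.d k90 k122 k240 3
  14)))), (.s k5 k10 2 (.s k128 k64 7 (.s k133 k74 10 (.s k69 k197 7 (.d k138 k143 k207 2 10))))),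
  (.s k5 k10 2 (.s k47 k31 3 (.s k165 k224 10 (.s k85 k245 11 (.d k64 k128 k127 7 6)))))] (.c k90
  (.l (.s k10 k5 2 (.s k74 k133 10 (.s k138 k202 7 (.s k69 k207 10 (.d k64 k79 k128 2 7)))))) (.c
  k128 (.q k191 [(.s k47 k31 3 (.s k165 k224 10 (.s k90 k240 14 (.d k74 k122 k133 3 10)))), (.s k255
  k127 7 (.s k175 k95 11 (.s k159 k143 3 (.s k111 k207 11 (.d k47 k31 k239 3 7))))), (.s k5 k10 2
  (.s k74 k133 10 (.s k127 k255 7 (.s k85 k64 6 (.s k165 k245 11 (.d k90 k240 k122 14 3))))))] (.c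
  k133 (.l (.s k5 k10 2 (.s k47 k31 3 (.s k165 k224 10 (.s k85 k245 11 (.d k127 k64 k255 6 7))))))
  .n)) (.c k191 (.l (.s k128 k64 7 (.s k5 k10 2 (.s k133 k74 10 (.s k69 k197 7 (.d k138 k143 k207 2
  10)))))) .n)))))

def t42_234 : T TT 256 :=
  (.f k192 k149 14 (.q k252 [(.s k126 k189 8 (.s k86 k66 5 (.s k169 k3 14 (.d k232 k212 k43 5 8)))),
  (.s k128 k64 7 (.s k168 k84 13 (.s k148 k188 5 (.s k104 k60 13 (.d k232 k212 k40 5 7))))), (.s k84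
  k168 13 (.s k126 k189 8 (.s k86 k66 5 (.s k85 k87 0 (.d k64 k128 k127 7 6)))))] (.c k128 (.q k191
  [(.s k126 k189 8 (.s k86 k66 5 (.s k169 k3 14 (.d k232 k212 k43 5 8)))), (.s k189 k126 8 (.s k255
  k127 7 (.s k190 k188 0 (.s k125 k60 8 (.d k253 k254 k61 0 7))))), (.s k84 k168 13 (.s k127 k255 7
  (.s k64 k85 6 (.s k104 k124 5 (.s k148 k60 13 (.d k212 k232 k20 5 7))))))] .n) (.c k191 (.l (.s
  k128 k64 7 (.s k168 k84 13 (.s k148 k188 5 (.s k104 k60 13 (.d k232 k212 k40 5 7)))))) .n))))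

def t42_235 : T TT 256 :=
  (.q k3 [(.s k23 k43 5 (.s k149 k192 14 (.s k86 k212 8 (.s k126 k66 5 (.d k252 k189 k169 8 14))))),
  (.s k1 k2 0 (.s k192 k149 14 (.s k128 k64 7 (.s k129 k66 8 (.s k65 k193 7 (.d k130 k131 k195 0
  8))))))] (.c k40 (.q k105 [(.s k1 k2 0 (.s k149 k192 14 (.s k61 k193 13 (.s k41 k21 5 (.d k60 k62
  k22 0 6))))), (.s k43 k23 5 (.s k169 k232 8 (.s k86 k252 14 (.s k192 k149 14 (.d k66 k126 k129 5
  8))))), (.s k2 k1 0 (.s k107 k104 0 (.s k195 k151 13 (.s k130 k65 8 (.s k194 k66 7 (.d k150 k62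
  k60 13 14))))))] (.c k41 (.l (.s k43 k23 5 (.s k169 k232 8 (.s k86 k252 14 (.s k192 k149 14 (.d
  k66 k126 k129 5 8)))))) (.c k43 (.q k41 [(.s k60 k22 6 (.s k62 k61 0 (.d k150 k194 k195 13 14))),
  (.s k149 k192 14 (.s k61 k193 13 (.d k1 k2 k21 0 5))), (.s k1 k2 0 (.s k61 k21 5 (.d k60 k62 k22 0
  6)))] (.c k2 (.l (.s k60 k22 6 (.s k62 k61 0 (.d k150 k194 k195 13 14)))) (.c k61 (.l (.s k60 k22
  6 (.s k195 k150 14 (.d k107 k104 k151 0 13)))) (.c k107 (.q k171 [(.s k60 k22 6 (.s k62 k61 0 (.d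
  k150 k194 k195 13 14))), (.s k255 k87 13 (.s k127 k191 7 (.s k64 k85 6 (.d k192 k128 k149 7
  14))))] .n) (.c k171 (.l (.s k107 k104 0 (.s k60 k22 6 (.d k195 k151 k150 13 14)))) .n))))) .n)))
  (.c k66 (.l (.s k43 k23 5 (.s k169 k232 8 (.s k252 k86 14 (.s k149 k192 14 (.d k189 k129 k126 5
  8)))))) (.c k86 (.l (.s k2 k1 0 (.s k192 k149 14 (.s k66 k129 8 (.s k130 k194 7 (.s k65 k195 8 (.d
  k64 k128 k67 7 0))))))) (.c k105 (.q k40 [(.s k23 k43 5 (.s k149 k192 14 (.s k86 k212 8 (.s k126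
  k66 5 (.d k252 k189 k169 8 14))))), (.s k1 k2 0 (.s k192 k149 14 (.s k128 k64 7 (.s k129 k66 8 (.s
  k130 k131 0 (.d k65 k193 k195 7 8)))))), (.s k60 k20 5 (.s k192 k149 14 (.s k104 k148 13 (.s k232
  k168 7 (.d k43 k169 k23 8 5)))))] (.c k149 (.l (.s k60 k20 5 (.s k22 k41 6 (.s k43 k23 5 (.s k169
  k232 8 (.s k86 k252 14 (.s k150 k214 7 (.d k62 k61 k194 0 13)))))))) (.c k192 (.l (.s k60 k20 5
  (.s k22 k41 6 (.s k43 k23 5 (.s k169 k232 8 (.s k62 k61 0 (.s k150 k194 13 (.d k86 k252 k214 14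
  7)))))))) .n))) (.c k149 (.f k43 k23 5 (.l (.s k1 k2 0 (.s k169 k232 8 (.s k85 k253 13 (.s k86
  k252 14 (.s k64 k127 6 (.s k66 k126 5 (.d k192 k128 k129 7 8))))))))) (.c k192 (.f k43 k23 5 (.l
  (.s k1 k2 0 (.s k169 k232 8 (.s k85 k253 13 (.s k127 k64 6 (.s k255 k191 7 (.s k87 k171 13 (.d k86
  k252 k84 14 0))))))))) .n)))))))

def t42_236 : T TT 256 :=
  (.f k192 k149 14 (.q k15 [(.s k74 k133 10 (.s k47 k31 3 (.s k90 k122 3 (.d k165 k224 k240 10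
  14)))), (.s k5 k10 2 (.s k128 k64 7 (.s k133 k74 10 (.s k69 k197 7 (.d k138 k143 k207 2 10))))),
  (.s k5 k10 2 (.s k47 k31 3 (.s k165 k224 10 (.s k85 k245 11 (.d k64 k128 k127 7 6)))))] (.c k90
  (.l (.s k10 k5 2 (.s k74 k133 10 (.s k138 k202 7 (.s k69 k207 10 (.d k64 k79 k128 2 7)))))) (.c
  k128 (.q k191 [(.s k47 k31 3 (.s k165 k224 10 (.s k90 k240 14 (.d k74 k122 k133 3 10)))), (.s k255
  k127 7 (.s k175 k95 11 (.s k159 k143 3 (.s k111 k207 11 (.d k47 k31 k239 3 7))))), (.s k5 k10 2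
  (.s k74 k133 10 (.s k127 k255 7 (.s k85 k64 6 (.s k165 k245 11 (.d k90 k240 k122 14 3))))))] (.c
  k133 (.l (.s k5 k10 2 (.s k47 k31 3 (.s k165 k224 10 (.s k85 k245 11 (.d k127 k64 k255 6 7))))))
  .n)) (.c k191 (.l (.s k128 k64 7 (.s k5 k10 2 (.s k133 k74 10 (.s k69 k197 7 (.d k138 k143 k207 2
  10)))))) .n)))))

def t42_237 : T TT 256 :=
  (.f k192 k149 14 (.q k252 [(.s k126 k189 8 (.s k86 k66 5 (.s k169 k3 14 (.d k232 k212 k43 5 8)))),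
  (.s k128 k64 7 (.s k168 k84 13 (.s k148 k188 5 (.s k104 k60 13 (.d k232 k212 k40 5 7))))), (.s k84
  k168 13 (.s k126 k189 8 (.s k86 k66 5 (.s k85 k87 0 (.d k64 k128 k127 7 6)))))] (.c k128 (.q k191
  [(.s k126 k189 8 (.s k86 k66 5 (.s k169 k3 14 (.d k232 k212 k43 5 8)))), (.s k189 k126 8 (.s k255
  k127 7 (.s k190 k188 0 (.s k125 k60 8 (.d k253 k254 k61 0 7))))), (.s k84 k168 13 (.s k127 k255 7
  (.s k64 k85 6 (.s k104 k124 5 (.s k148 k60 13 (.d k212 k232 k20 5 7))))))] .n) (.c k191 (.l (.s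
  k128 k64 7 (.s k168 k84 13 (.s k148 k188 5 (.s k104 k60 13 (.d k232 k212 k40 5 7)))))) .n))))

def t42_238 : T TT 256 :=
  (.f k192 k149 14 (.f k128 k64 7 (.q k102 [(.s k98 k110 1 (.s k51 k145 12 (.s k59 k55 1 (.d k153
  k200 k204 12 14)))), (.s k98 k110 1 (.s k145 k51 12 (.s k162 k179 4 (.s k243 k81 12 (.d k226 k209
  k34 4 7))))), (.s k110 k98 1 (.s k204 k157 12 (.s k153 k51 14 (.d k200 k196 k59 1 12))))] (.c k51
  (.l (.s k110 k98 1 (.s k204 k157 12 (.s k136 k68 9 (.s k132 k140 1 (.s k72 k12 9 (.d k200 k196 k8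
  1 7))))))) (.c k98 (.q k15 [(.s k133 k74 10 (.s k138 k143 2 (.s k69 k207 10 (.d k5 k10 k197 2
  7)))), (.s k47 k31 3 (.s k165 k224 10 (.s k39 k228 8 (.s k51 k27 5 (.s k59 k55 1 (.d k153 k200
  k204 12 14))))))] (.c k81 (.q k115 [(.s k133 k74 10 (.s k138 k143 2 (.s k69 k207 10 (.d k5 k10
  k197 2 7)))), (.s k89 k76 6 (.s k72 k123 4 (.s k12 k132 9 (.s k46 k29 4 (.d k166 k226 k243 9
  14)))))] .n) (.c k115 (.q k81 [(.s k133 k74 10 (.s k138 k143 2 (.s k69 k207 10 (.d k5 k10 k197 2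
  7)))), (.s k243 k162 12 (.s k123 k183 9 (.s k89 k72 4 (.s k166 k12 14 (.d k226 k209 k46 4 9)))))]
  .n) .n))) (.c k110 (.q k46 [(.s k12 k29 4 (.s k72 k132 9 (.s k89 k123 4 (.d k166 k226 k243 9
  14)))), (.s k12 k29 4 (.s k4 k8 1 (.s k132 k72 9 (.s k68 k196 7 (.d k136 k140 k204 1 9))))), (.s
  k226 k166 9 (.s k243 k209 4 (.s k162 k81 12 (.s k98 k34 7 (.d k145 k179 k51 4 12)))))] (.c k29 (.q
  k89 [(.s k166 k226 9 (.s k12 k243 14 (.d k72 k123 k132 4 9))), (.s k72 k123 4 (.s k132 k12 9 (.s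
  k136 k140 1 (.s k204 k68 9 (.d k200 k196 k8 1 7))))), (.s k166 k226 9 (.s k243 k12 14 (.s k162 k81
  12 (.s k179 k145 4 (.d k115 k76 k51 6 7)))))] (.c k12 (.l (.s k226 k166 9 (.s k123 k72 4 (.d k243
  k183 k209 9 4)))) .n)) (.c k89 (.l (.s k29 k12 4 (.s k226 k166 9 (.s k243 k209 4 (.s k162 k81 12
  (.s k98 k34 7 (.d k145 k179 k51 4 12))))))) (.c k132 (.l (.s k12 k29 4 (.s k166 k226 9 (.s k89
  k243 14 (.s k76 k115 6 (.s k204 k140 7 (.s k51 k153 14 (.d k38 k230 k25 7 6)))))))) (.c k209 (.l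
  (.s k166 k226 9 (.s k12 k29 4 (.s k89 k243 14 (.d k72 k123 k132 4 9))))) .n))))) (.c k145 (.l (.s
  k110 k98 1 (.s k204 k157 12 (.s k153 k51 14 (.d k200 k196 k59 1 12))))) .n)))))))

def t42_239 : T TT 256 :=
  (.f k192 k149 14 (.f k128 k64 7 (.q k252 [(.s k168 k84 13 (.s k148 k188 5 (.s k104 k60 13 (.d k232
  k212 k40 5 7)))), (.s k126 k189 8 (.s k66 k86 5 (.s k129 k3 8 (.s k130 k131 0 (.s k195 k65 8 (.d
  k194 k2 k193 7 0))))))] (.c k32 (.q k101 [(.s k168 k84 13 (.s k148 k188 5 (.s k104 k60 13 (.d k232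
  k212 k40 5 7)))), (.s k96 k111 2 (.s k48 k144 11 (.s k58 k53 2 (.d k154 k202 k207 11 14))))] (.c
  k37 (.q k47 [(.s k168 k84 13 (.s k148 k188 5 (.s k104 k60 13 (.d k232 k212 k40 5 7)))), (.s k15
  k31 3 (.s k74 k133 10 (.s k165 k224 10 (.d k90 k122 k240 3 14))))] .n) (.c k47 (.q k37 [(.s k168
  k84 13 (.s k148 k188 5 (.s k104 k60 13 (.d k232 k212 k40 5 7)))), (.s k111 k96 2 (.s k207 k159 11
  (.s k154 k48 14 (.d k202 k197 k58 2 11))))] (.c k111 (.q k175 [(.s k168 k84 13 (.s k148 k188 5 (.s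
  k104 k60 13 (.d k232 k212 k40 5 7)))), (.s k126 k189 8 (.s k86 k66 5 (.s k116 k71 4 (.s k48 k184 9
  (.s k58 k53 2 (.d k154 k202 k207 11 14))))))] .n) (.c k175 (.l (.s k111 k96 2 (.s k207 k159 11 (.s
  k154 k48 14 (.d k202 k197 k58 2 11))))) .n))) .n))) (.c k101 (.q k32 [(.s k168 k84 13 (.s k148
  k188 5 (.s k104 k60 13 (.d k232 k212 k40 5 7)))), (.s k126 k189 8 (.s k86 k66 5 (.s k169 k3 14 (.d
  k232 k212 k43 5 8)))), (.s k48 k16 3 (.s k168 k84 13 (.s k100 k236 9 (.s k152 k204 13 (.d k184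
  k136 k116 3 9)))))] (.c k53 (.q k197 [(.s k168 k84 13 (.s k148 k188 5 (.s k104 k60 13 (.d k232
  k212 k40 5 7)))), (.s k126 k189 8 (.s k86 k66 5 (.s k169 k3 14 (.d k232 k212 k43 5 8)))), (.s k48
  k16 3 (.s k168 k84 13 (.s k100 k236 9 (.s k152 k204 13 (.d k184 k136 k116 3 9)))))] .n) (.c k197
  (.q k53 [(.d k48 k58 k16 2 3), (.s k168 k84 13 (.s k148 k188 5 (.s k104 k60 13 (.d k232 k212 k40 5
  7))))] .n) .n))) (.c k212 (.l (.s k168 k84 13 (.s k126 k189 8 (.s k86 k66 5 (.s k169 k3 14 (.s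
  k232 k43 8 (.s k148 k188 5 (.d k104 k40 k60 7 13)))))))) .n))))))

def t42_240 : T TT 256 :=
  (.f k192 k149 14 (.q k51 [(.s k59 k55 1 (.s k98 k145 12 (.s k153 k200 12 (.d k102 k110 k204 1
  14)))), (.s k17 k34 4 (.s k128 k64 7 (.s k145 k98 12 (.s k81 k209 7 (.d k162 k179 k243 4 12))))),
  (.s k17 k34 4 (.s k59 k55 1 (.s k153 k200 12 (.s k85 k221 9 (.d k64 k128 k127 7 6)))))] (.c k102
  (.l (.s k34 k17 4 (.s k98 k145 12 (.s k162 k226 7 (.s k81 k243 12 (.d k64 k115 k128 4 7)))))) (.c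
  k128 (.q k191 [(.s k59 k55 1 (.s k153 k200 12 (.s k102 k204 14 (.d k98 k110 k145 1 12)))), (.s
  k255 k127 7 (.s k187 k119 9 (.s k183 k179 1 (.s k123 k243 9 (.d k59 k55 k251 1 7))))), (.s k17 k34
  4 (.s k98 k145 12 (.s k127 k255 7 (.s k85 k64 6 (.s k153 k221 9 (.d k102 k204 k110 14 1))))))] (.c
  k145 (.l (.s k17 k34 4 (.s k59 k55 1 (.s k153 k200 12 (.s k85 k221 9 (.d k127 k64 k255 6 7))))))
  .n)) (.c k191 (.l (.s k128 k64 7 (.s k17 k34 4 (.s k145 k98 12 (.s k81 k209 7 (.d k162 k179 k243 4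
  12)))))) .n)))))

def t42_241 : T TT 256 :=
  (.q k3 [(.s k43 k23 5 (.s k169 k232 8 (.s k86 k252 14 (.s k192 k149 14 (.d k66 k126 k129 5 8))))),
  (.s k1 k2 0 (.s k192 k149 14 (.s k128 k64 7 (.s k129 k66 8 (.s k65 k193 7 (.d k130 k131 k195 0
  8)))))), (.s k23 k43 5 (.s k149 k192 14 (.s k86 k212 8 (.s k252 k169 14 (.d k126 k66 k189 5
  8)))))] (.c k66 (.l (.s k43 k23 5 (.s k169 k232 8 (.s k252 k86 14 (.s k149 k192 14 (.d k189 k129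
  k126 5 8)))))) (.c k86 (.l (.s k2 k1 0 (.s k192 k149 14 (.s k66 k129 8 (.s k130 k194 7 (.s k65
  k195 8 (.d k64 k128 k67 7 0))))))) (.c k149 (.f k43 k23 5 (.l (.s k1 k2 0 (.s k169 k232 8 (.s k85
  k253 13 (.s k86 k252 14 (.s k64 k127 6 (.s k66 k126 5 (.d k192 k128 k129 7 8))))))))) (.c k192 (.f
  k43 k23 5 (.l (.s k1 k2 0 (.s k169 k232 8 (.s k85 k253 13 (.s k127 k64 6 (.s k255 k191 7 (.s k87
  k171 13 (.d k86 k252 k84 14 0))))))))) .n)))))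

def t42_242 : T TT 256 :=
  (.f k192 k149 14 (.f k128 k64 7 (.q k252 [(.s k168 k84 13 (.s k148 k188 5 (.s k104 k60 13 (.d k232
  k212 k40 5 7)))), (.s k126 k189 8 (.s k66 k86 5 (.s k129 k3 8 (.s k130 k131 0 (.s k195 k65 8 (.d
  k194 k2 k193 7 0))))))] (.c k212 (.l (.s k168 k84 13 (.s k126 k189 8 (.s k86 k66 5 (.s k169 k3 14
  (.s k232 k43 8 (.s k148 k188 5 (.d k104 k40 k60 7 13)))))))) .n))))

def t42_243 : T TT 256 :=
  (.f k192 k149 14 (.q k15 [(.s k47 k31 3 (.s k74 k133 10 (.s k165 k224 10 (.d k90 k122 k240 3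
  14)))), (.s k5 k10 2 (.s k128 k64 7 (.s k133 k74 10 (.s k69 k197 7 (.d k138 k143 k207 2 10))))),
  (.s k5 k10 2 (.s k47 k31 3 (.s k165 k224 10 (.s k85 k245 11 (.d k64 k128 k127 7 6)))))] (.c k90
  (.l (.s k10 k5 2 (.s k74 k133 10 (.s k138 k202 7 (.s k69 k207 10 (.d k64 k79 k128 2 7)))))) (.c
  k128 (.q k191 [(.s k47 k31 3 (.s k165 k224 10 (.s k90 k240 14 (.d k74 k122 k133 3 10)))), (.s k255
  k127 7 (.s k175 k95 11 (.s k159 k143 3 (.s k111 k207 11 (.d k47 k31 k239 3 7))))), (.s k5 k10 2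
  (.s k74 k133 10 (.s k127 k255 7 (.s k85 k64 6 (.s k165 k245 11 (.d k90 k240 k122 14 3))))))] (.c
  k133 (.l (.s k5 k10 2 (.s k47 k31 3 (.s k165 k224 10 (.s k85 k245 11 (.d k127 k64 k255 6 7))))))
  .n)) (.c k191 (.l (.s k128 k64 7 (.s k5 k10 2 (.s k133 k74 10 (.s k69 k197 7 (.d k138 k143 k207 2
  10)))))) .n)))))

def t42_244 : T TT 256 :=
  (.q k3 [(.s k43 k23 5 (.s k169 k232 8 (.s k86 k252 14 (.s k192 k149 14 (.d k66 k126 k129 5 8))))),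
  (.s k1 k2 0 (.s k192 k149 14 (.s k128 k64 7 (.s k129 k66 8 (.s k65 k193 7 (.d k130 k131 k195 0
  8)))))), (.s k23 k43 5 (.s k149 k192 14 (.s k86 k212 8 (.s k252 k169 14 (.d k126 k66 k189 5
  8)))))] (.c k66 (.l (.s k43 k23 5 (.s k169 k232 8 (.s k252 k86 14 (.s k149 k192 14 (.d k189 k129
  k126 5 8)))))) (.c k86 (.l (.s k2 k1 0 (.s k192 k149 14 (.s k66 k129 8 (.s k130 k194 7 (.s k65
  k195 8 (.d k64 k128 k67 7 0))))))) (.c k149 (.f k43 k23 5 (.l (.s k1 k2 0 (.s k169 k232 8 (.s k85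
  k253 13 (.s k86 k252 14 (.s k64 k127 6 (.s k66 k126 5 (.d k192 k128 k129 7 8))))))))) (.c k192 (.f
  k43 k23 5 (.l (.s k1 k2 0 (.s k169 k232 8 (.s k85 k253 13 (.s k127 k64 6 (.s k255 k191 7 (.s k87
  k171 13 (.d k86 k252 k84 14 0))))))))) .n)))))

def t42_245 : T TT 256 :=
  (.f k192 k149 14 (.f k128 k64 7 (.q k252 [(.s k168 k84 13 (.s k148 k188 5 (.s k104 k60 13 (.d k232
  k212 k40 5 7)))), (.s k126 k189 8 (.s k66 k86 5 (.s k129 k3 8 (.s k130 k131 0 (.s k195 k65 8 (.d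
  k194 k2 k193 7 0))))))] (.c k212 (.l (.s k168 k84 13 (.s k126 k189 8 (.s k86 k66 5 (.s k169 k3 14
  (.s k232 k43 8 (.s k148 k188 5 (.d k104 k40 k60 7 13)))))))) .n))))

def t42_246 : T TT 256 :=
  (.f k192 k149 14 (.f k128 k64 7 (.q k252 [(.s k168 k84 13 (.s k148 k188 5 (.s k104 k60 13 (.d k232
  k212 k40 5 7)))), (.s k126 k189 8 (.s k66 k86 5 (.s k129 k3 8 (.s k130 k131 0 (.s k195 k65 8 (.d
  k194 k2 k193 7 0))))))] (.c k212 (.l (.s k168 k84 13 (.s k126 k189 8 (.s k86 k66 5 (.s k169 k3 14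
  (.s k232 k43 8 (.s k148 k188 5 (.d k104 k40 k60 7 13)))))))) .n))))

def t42_247 : T TT 256 :=
  (.q k3 [(.s k43 k23 5 (.s k169 k232 8 (.s k86 k252 14 (.s k192 k149 14 (.d k66 k126 k129 5 8))))),
  (.s k1 k2 0 (.s k192 k149 14 (.s k128 k64 7 (.s k129 k66 8 (.s k65 k193 7 (.d k130 k131 k195 0
  8)))))), (.s k23 k43 5 (.s k149 k192 14 (.s k86 k212 8 (.s k252 k169 14 (.d k126 k66 k189 5
  8)))))] (.c k66 (.l (.s k43 k23 5 (.s k169 k232 8 (.s k252 k86 14 (.s k149 k192 14 (.d k189 k129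
  k126 5 8)))))) (.c k86 (.l (.s k2 k1 0 (.s k192 k149 14 (.s k66 k129 8 (.s k130 k194 7 (.s k65
  k195 8 (.d k64 k128 k67 7 0))))))) (.c k149 (.f k43 k23 5 (.l (.s k1 k2 0 (.s k169 k232 8 (.s k85
  k253 13 (.s k86 k252 14 (.s k64 k127 6 (.s k66 k126 5 (.d k192 k128 k129 7 8))))))))) (.c k192 (.f
  k43 k23 5 (.l (.s k1 k2 0 (.s k169 k232 8 (.s k85 k253 13 (.s k127 k64 6 (.s k255 k191 7 (.s k87
  k171 13 (.d k86 k252 k84 14 0))))))))) .n)))))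

def t42_248 : T TT 256 :=
  (.f k192 k149 14 (.f k128 k64 7 (.q k252 [(.s k168 k84 13 (.s k148 k188 5 (.s k104 k60 13 (.d k232
  k212 k40 5 7)))), (.s k126 k189 8 (.s k66 k86 5 (.s k129 k3 8 (.s k130 k131 0 (.s k195 k65 8 (.d
  k194 k2 k193 7 0))))))] (.c k212 (.l (.s k168 k84 13 (.s k126 k189 8 (.s k86 k66 5 (.s k169 k3 14
  (.s k232 k43 8 (.s k148 k188 5 (.d k104 k40 k60 7 13)))))))) .n))))

def t42_249 : T TT 256 :=
  (.f k192 k149 14 (.q k15 [(.s k47 k31 3 (.s k74 k133 10 (.s k165 k224 10 (.d k90 k122 k240 3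
  14)))), (.s k5 k10 2 (.s k128 k64 7 (.s k133 k74 10 (.s k69 k197 7 (.d k138 k143 k207 2 10))))),
  (.s k5 k10 2 (.s k47 k31 3 (.s k165 k224 10 (.s k85 k245 11 (.d k64 k128 k127 7 6)))))] (.c k90
  (.l (.s k10 k5 2 (.s k74 k133 10 (.s k138 k202 7 (.s k69 k207 10 (.d k64 k79 k128 2 7)))))) (.c
  k128 (.q k191 [(.s k47 k31 3 (.s k165 k224 10 (.s k90 k240 14 (.d k74 k122 k133 3 10)))), (.s k255
  k127 7 (.s k175 k95 11 (.s k159 k143 3 (.s k111 k207 11 (.d k47 k31 k239 3 7))))), (.s k5 k10 2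
  (.s k74 k133 10 (.s k127 k255 7 (.s k85 k64 6 (.s k165 k245 11 (.d k90 k240 k122 14 3))))))] (.c
  k133 (.l (.s k5 k10 2 (.s k47 k31 3 (.s k165 k224 10 (.s k85 k245 11 (.d k127 k64 k255 6 7))))))
  .n)) (.c k191 (.l (.s k128 k64 7 (.s k5 k10 2 (.s k133 k74 10 (.s k69 k197 7 (.d k138 k143 k207 2
  10)))))) .n)))))

def t42_250 : T TT 256 :=
  (.f k192 k149 14 (.f k128 k64 7 (.q k252 [(.s k168 k84 13 (.s k148 k188 5 (.s k104 k60 13 (.d k232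
  k212 k40 5 7)))), (.s k126 k189 8 (.s k66 k86 5 (.s k129 k3 8 (.s k130 k131 0 (.s k195 k65 8 (.d
  k194 k2 k193 7 0))))))] (.c k10 (.q k90 [(.s k168 k84 13 (.s k148 k188 5 (.s k104 k60 13 (.d k232
  k212 k40 5 7)))), (.s k74 k122 3 (.s k15 k133 10 (.s k47 k31 3 (.d k165 k224 k240 10 14))))] (.c
  k26 (.q k58 [(.s k168 k84 13 (.s k148 k188 5 (.s k104 k60 13 (.d k232 k212 k40 5 7)))), (.s k48
  k53 2 (.s k96 k144 11 (.s k154 k202 11 (.d k101 k111 k207 2 14))))] .n) (.c k58 (.q k26 [(.s k168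
  k84 13 (.s k148 k188 5 (.s k104 k60 13 (.d k232 k212 k40 5 7)))), (.s k122 k74 3 (.s k240 k181 10
  (.s k165 k15 14 (.d k224 k208 k47 3 10))))] (.c k122 (.q k186 [(.s k168 k84 13 (.s k148 k188 5 (.s
  k104 k60 13 (.d k232 k212 k40 5 7)))), (.s k126 k189 8 (.s k86 k66 5 (.s k94 k82 1 (.s k15 k173 12
  (.s k47 k31 3 (.d k165 k224 k240 10 14))))))] .n) (.c k186 (.l (.s k122 k74 3 (.s k240 k181 10 (.s
  k165 k15 14 (.d k224 k208 k47 3 10))))) .n))) .n))) (.c k90 (.q k10 [(.s k168 k84 13 (.s k148 k188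
  5 (.s k104 k60 13 (.d k232 k212 k40 5 7)))), (.s k126 k189 8 (.s k86 k66 5 (.s k169 k3 14 (.d k232
  k212 k43 5 8)))), (.s k15 k5 2 (.s k168 k84 13 (.s k133 k74 10 (.s k173 k94 12 (.s k143 k138 2 (.d
  k188 k158 k148 4 5))))))] (.c k31 (.q k208 [(.s k168 k84 13 (.s k148 k188 5 (.s k104 k60 13 (.d
  k232 k212 k40 5 7)))), (.s k126 k189 8 (.s k86 k66 5 (.s k169 k3 14 (.d k232 k212 k43 5 8)))), (.s
  k168 k84 13 (.s k148 k188 5 (.s k88 k28 9 (.s k248 k8 11 (.d k240 k244 k224 1 3)))))] .n) (.c k208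
  (.q k31 [(.d k15 k5 k47 2 3), (.s k168 k84 13 (.s k148 k188 5 (.s k104 k60 13 (.d k232 k212 k40 5
  7))))] .n) .n))) (.c k212 (.l (.s k168 k84 13 (.s k126 k189 8 (.s k86 k66 5 (.s k169 k3 14 (.s
  k232 k43 8 (.s k148 k188 5 (.d k104 k40 k60 7 13)))))))) .n))))))

def t42_251 : T TT 256 :=
  (.q k12 [(.s k46 k29 4 (.s k166 k226 9 (.s k149 k192 14 (.s k183 k132 4 (.d k243 k89 k123 14
  9))))), (.s k192 k149 14 (.s k128 k64 7 (.s k132 k72 9 (.s k136 k140 1 (.s k68 k204 9 (.d k4 k8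
  k196 1 7))))))] (.c k8 (.q k89 [(.s k46 k29 4 (.d k166 k226 k243 9 14)), (.s k29 k46 4 (.d k149
  k209 k192 9 14)), (.s k243 k166 14 (.d k123 k72 k183 4 9))] (.c k25 (.q k59 [(.s k29 k46 4 (.d
  k149 k209 k192 9 14)), (.s k243 k166 14 (.d k123 k72 k183 4 9))] .n) (.c k59 (.q k25 [(.s k46 k29
  4 (.d k166 k226 k243 9 14)), (.s k29 k46 4 (.d k149 k209 k192 9 14)), (.s k243 k166 14 (.d k123
  k72 k183 4 9))] (.c k123 (.q k187 [(.s k46 k29 4 (.d k166 k226 k243 9 14)), (.s k29 k46 4 (.d k149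
  k209 k192 9 14))] (.c k29 (.l (.s k51 k38 6 (.s k166 k243 14 (.s k153 k217 7 (.s k204 k102 14 (.d
  k140 k179 k76 6 7)))))) (.c k46 (.l (.s k149 k192 14 (.s k29 k209 9 (.s k17 k21 1 (.d k51 k34 k38
  4 6))))) .n))) (.c k187 (.l (.s k123 k72 4 (.d k243 k183 k166 9 14))) .n))) .n))) (.c k89 (.l (.s
  k8 k4 1 (.s k192 k149 14 (.s k72 k132 9 (.s k136 k200 7 (.s k68 k204 9 (.d k64 k128 k76 7 1)))))))
  (.c k132 (.l (.s k29 k46 4 (.s k149 k192 14 (.s k89 k209 9 (.s k243 k166 14 (.d k123 k72 k183 4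
  9)))))) (.c k149 (.q k89 [(.s k46 k29 4 (.d k166 k226 k243 9 14)), (.s k4 k8 1 (.s k72 k123 4 (.s
  k132 k192 9 (.s k68 k196 7 (.s k204 k136 9 (.d k76 k64 k140 1 7))))))] (.c k128 (.q k191 [(.s k46
  k29 4 (.d k166 k226 k243 9 14)), (.s k243 k166 14 (.d k123 k183 k72 9 4)), (.s k46 k29 4 (.s k255
  k127 7 (.s k174 k93 12 (.s k110 k238 7 (.d k157 k140 k204 4 12)))))] .n) (.c k191 (.q k128 [(.s
  k192 k64 7 (.d k72 k123 k132 4 9)), (.s k46 k29 4 (.d k166 k226 k243 9 14))] .n) .n))) (.c k192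
  (.q k89 [(.s k46 k29 4 (.d k166 k226 k243 9 14)), (.s k8 k4 1 (.s k72 k123 4 (.s k136 k200 7 (.s
  k204 k68 9 (.s k76 k140 7 (.s k110 k157 12 (.d k102 k98 k115 1 6)))))))] .n) .n))))))

def t42_252 : T TT 256 :=
  (.f k192 k149 14 (.q k15 [(.s k47 k31 3 (.s k74 k133 10 (.s k165 k224 10 (.d k90 k122 k240 3
  14)))), (.s k5 k10 2 (.s k128 k64 7 (.s k133 k74 10 (.s k69 k197 7 (.d k138 k143 k207 2 10))))),
  (.s k5 k10 2 (.s k47 k31 3 (.s k165 k224 10 (.s k85 k245 11 (.d k64 k128 k127 7 6)))))] (.c k90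
  (.l (.s k10 k5 2 (.s k74 k133 10 (.s k138 k202 7 (.s k69 k207 10 (.d k64 k79 k128 2 7)))))) (.c
  k128 (.q k191 [(.s k47 k31 3 (.s k165 k224 10 (.s k90 k240 14 (.d k74 k122 k133 3 10)))), (.s k255
  k127 7 (.s k175 k95 11 (.s k159 k143 3 (.s k111 k207 11 (.d k47 k31 k239 3 7))))), (.s k5 k10 2
  (.s k74 k133 10 (.s k127 k255 7 (.s k85 k64 6 (.s k165 k245 11 (.d k90 k240 k122 14 3))))))] (.c
  k133 (.l (.s k5 k10 2 (.s k47 k31 3 (.s k165 k224 10 (.s k85 k245 11 (.d k127 k64 k255 6 7))))))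
  .n)) (.c k191 (.l (.s k128 k64 7 (.s k5 k10 2 (.s k133 k74 10 (.s k69 k197 7 (.d k138 k143 k207 2
  10)))))) .n)))))

def t42_253 : T TT 256 :=
  (.f k192 k149 14 (.q k15 [(.s k47 k31 3 (.s k74 k133 10 (.s k165 k224 10 (.d k90 k122 k240 3
  14)))), (.s k5 k10 2 (.s k128 k64 7 (.s k133 k74 10 (.s k69 k197 7 (.d k138 k143 k207 2 10))))),
  (.s k5 k10 2 (.s k47 k31 3 (.s k165 k224 10 (.s k85 k245 11 (.d k64 k128 k127 7 6)))))] (.c k90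
  (.l (.s k10 k5 2 (.s k74 k133 10 (.s k138 k202 7 (.s k69 k207 10 (.d k64 k79 k128 2 7)))))) (.c
  k128 (.q k191 [(.s k47 k31 3 (.s k165 k224 10 (.s k90 k240 14 (.d k74 k122 k133 3 10)))), (.s k255
  k127 7 (.s k175 k95 11 (.s k159 k143 3 (.s k111 k207 11 (.d k47 k31 k239 3 7))))), (.s k5 k10 2
  (.s k74 k133 10 (.s k127 k255 7 (.s k85 k64 6 (.s k165 k245 11 (.d k90 k240 k122 14 3))))))] (.c
  k133 (.l (.s k5 k10 2 (.s k47 k31 3 (.s k165 k224 10 (.s k85 k245 11 (.d k127 k64 k255 6 7))))))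
  .n)) (.c k191 (.l (.s k128 k64 7 (.s k5 k10 2 (.s k133 k74 10 (.s k69 k197 7 (.d k138 k143 k207 2
  10)))))) .n)))))

def t42_254 : T TT 256 :=
  (.q k3 [(.s k43 k23 5 (.s k169 k232 8 (.s k149 k192 14 (.s k189 k129 5 (.d k252 k86 k126 14
  8))))), (.s k192 k149 14 (.s k128 k64 7 (.s k129 k66 8 (.s k130 k131 0 (.s k65 k195 8 (.d k1 k2
  k193 0 7))))))] (.c k2 (.q k86 [(.s k43 k23 5 (.d k169 k232 k252 8 14)), (.s k23 k43 5 (.d k149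
  k212 k192 8 14)), (.s k252 k169 14 (.d k126 k66 k189 5 8))] (.c k22 (.q k62 [(.s k23 k43 5 (.d
  k149 k212 k192 8 14)), (.s k252 k169 14 (.d k126 k66 k189 5 8))] .n) (.c k62 (.q k22 [(.s k43 k23
  5 (.d k169 k232 k252 8 14)), (.s k23 k43 5 (.d k149 k212 k192 8 14)), (.s k252 k169 14 (.d k126
  k66 k189 5 8))] (.c k126 (.q k190 [(.s k43 k23 5 (.d k169 k232 k252 8 14)), (.s k23 k43 5 (.d k149
  k212 k192 8 14))] (.c k23 (.l (.s k60 k41 6 (.s k169 k252 14 (.s k150 k214 7 (.s k195 k105 14 (.d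
  k131 k188 k67 6 7)))))) (.c k43 (.l (.s k149 k192 14 (.s k23 k212 8 (.s k20 k21 0 (.d k60 k40 k41
  5 6))))) .n))) (.c k190 (.l (.s k126 k66 5 (.d k252 k189 k169 8 14))) .n))) .n))) (.c k86 (.l (.s
  k2 k1 0 (.s k192 k149 14 (.s k66 k129 8 (.s k130 k194 7 (.s k65 k195 8 (.d k64 k128 k67 7 0)))))))
  (.c k129 (.l (.s k23 k43 5 (.s k149 k192 14 (.s k86 k212 8 (.s k252 k169 14 (.d k126 k66 k189 5
  8)))))) (.c k149 (.q k86 [(.s k43 k23 5 (.d k169 k232 k252 8 14)), (.s k1 k2 0 (.s k66 k126 5 (.s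
  k129 k192 8 (.s k65 k193 7 (.s k195 k130 8 (.d k67 k64 k131 0 7))))))] (.c k128 (.q k191 [(.s k43
  k23 5 (.d k169 k232 k252 8 14)), (.s k252 k169 14 (.d k126 k189 k66 8 5)), (.s k43 k23 5 (.s k255
  k127 7 (.s k171 k87 13 (.s k107 k235 7 (.d k151 k131 k195 5 13)))))] .n) (.c k191 (.q k128 [(.s
  k192 k64 7 (.d k66 k126 k129 5 8)), (.s k43 k23 5 (.d k169 k232 k252 8 14))] .n) .n))) (.c k192
  (.q k86 [(.s k43 k23 5 (.d k169 k232 k252 8 14)), (.s k2 k1 0 (.s k66 k126 5 (.s k130 k194 7 (.s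
  k195 k65 8 (.s k67 k131 7 (.s k107 k151 13 (.d k105 k104 k124 0 6)))))))] .n) .n))))))

def t42_255 : T TT 256 :=
  (.f k192 k149 14 (.f k128 k64 7 (.q k252 [(.s k168 k84 13 (.s k148 k188 5 (.s k104 k60 13 (.d k232
  k212 k40 5 7)))), (.s k126 k189 8 (.s k66 k86 5 (.s k129 k3 8 (.s k130 k131 0 (.s k195 k65 8 (.d
  k194 k2 k193 7 0))))))] (.c k212 (.l (.s k168 k84 13 (.s k126 k189 8 (.s k86 k66 5 (.s k169 k3 14
  (.s k232 k43 8 (.s k148 k188 5 (.d k104 k40 k60 7 13)))))))) .n))))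

def t42 : T TT 256 :=
  (.q k106 [] (.c k1 t42_1 (.c k2 t42_2 (.c k3 t42_3 (.c k4 t42_4 (.c k5 t42_5 (.c k6 t42_6 (.c k7
  t42_7 (.c k8 t42_8 (.c k9 t42_9 (.c k10 t42_10 (.c k11 t42_11 (.c k12 t42_12 (.c k13 t42_13 (.c
  k14 t42_14 (.c k15 t42_15 (.c k16 t42_16 (.c k17 t42_17 (.c k18 t42_18 (.c k19 t42_19 (.c k20
  t42_20 (.c k21 t42_21 (.c k22 t42_22 (.c k23 t42_23 (.c k24 t42_24 (.c k25 t42_25 (.c k26 t42_26
  (.c k27 t42_27 (.c k28 t42_28 (.c k29 t42_29 (.c k30 t42_30 (.c k31 t42_31 (.c k32 t42_32 (.c k33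
  t42_33 (.c k34 t42_34 (.c k35 t42_35 (.c k36 t42_36 (.c k37 t42_37 (.c k38 t42_38 (.c k39 t42_39
  (.c k40 t42_40 (.c k41 t42_41 (.c k43 t42_43 (.c k44 t42_44 (.c k45 t42_45 (.c k46 t42_46 (.c k47
  t42_47 (.c k48 t42_48 (.c k49 t42_49 (.c k50 t42_50 (.c k51 t42_51 (.c k52 t42_52 (.c k53 t42_53
  (.c k54 t42_54 (.c k55 t42_55 (.c k56 t42_56 (.c k57 t42_57 (.c k58 t42_58 (.c k59 t42_59 (.c k60
  t42_60 (.c k61 t42_61 (.c k62 t42_62 (.c k64 t42_64 (.c k65 t42_65 (.c k66 t42_66 (.c k67 t42_67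
  (.c k68 t42_68 (.c k69 t42_69 (.c k70 t42_70 (.c k71 t42_71 (.c k72 t42_72 (.c k73 t42_73 (.c k74
  t42_74 (.c k75 t42_75 (.c k76 t42_76 (.c k77 t42_77 (.c k78 t42_78 (.c k79 t42_79 (.c k80 t42_80
  (.c k81 t42_81 (.c k82 t42_82 (.c k83 t42_83 (.c k84 t42_84 (.c k85 t42_85 (.c k86 t42_86 (.c k87
  t42_87 (.c k88 t42_88 (.c k89 t42_89 (.c k90 t42_90 (.c k91 t42_91 (.c k92 t42_92 (.c k93 t42_93
  (.c k94 t42_94 (.c k95 t42_95 (.c k96 t42_96 (.c k97 t42_97 (.c k98 t42_98 (.c k99 t42_99 (.c k100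
  t42_100 (.c k101 t42_101 (.c k102 t42_102 (.c k103 t42_103 (.c k104 t42_104 (.c k105 t42_105 (.c
  k107 t42_107 (.c k108 t42_108 (.c k109 t42_109 (.c k110 t42_110 (.c k111 t42_111 (.c k112 t42_112
  (.c k113 t42_113 (.c k114 t42_114 (.c k115 t42_115 (.c k116 t42_116 (.c k117 t42_117 (.c k118
  t42_118 (.c k119 t42_119 (.c k120 t42_120 (.c k121 t42_121 (.c k122 t42_122 (.c k123 t42_123 (.c
  k124 t42_124 (.c k125 t42_125 (.c k126 t42_126 (.c k127 t42_127 (.c k128 t42_128 (.c k129 t42_129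
  (.c k130 t42_130 (.c k131 t42_131 (.c k132 t42_132 (.c k133 t42_133 (.c k134 t42_134 (.c k135
  t42_135 (.c k136 t42_136 (.c k137 t42_137 (.c k138 t42_138 (.c k139 t42_139 (.c k140 t42_140 (.c
  k141 t42_141 (.c k142 t42_142 (.c k143 t42_143 (.c k144 t42_144 (.c k145 t42_145 (.c k146 t42_146
  (.c k147 t42_147 (.c k148 t42_148 (.c k149 t42_149 (.c k150 t42_150 (.c k151 t42_151 (.c k152
  t42_152 (.c k153 t42_153 (.c k154 t42_154 (.c k155 t42_155 (.c k156 t42_156 (.c k157 t42_157 (.c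
  k158 t42_158 (.c k159 t42_159 (.c k160 t42_160 (.c k161 t42_161 (.c k162 t42_162 (.c k163 t42_163
  (.c k164 t42_164 (.c k165 t42_165 (.c k166 t42_166 (.c k167 t42_167 (.c k168 t42_168 (.c k169
  t42_169 (.c k171 t42_171 (.c k172 t42_172 (.c k173 t42_173 (.c k174 t42_174 (.c k175 t42_175 (.c
  k176 t42_176 (.c k177 t42_177 (.c k178 t42_178 (.c k179 t42_179 (.c k180 t42_180 (.c k181 t42_181
  (.c k182 t42_182 (.c k183 t42_183 (.c k184 t42_184 (.c k185 t42_185 (.c k186 t42_186 (.c k187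
  t42_187 (.c k188 t42_188 (.c k189 t42_189 (.c k190 t42_190 (.c k191 t42_191 (.c k192 t42_192 (.c
  k193 t42_193 (.c k194 t42_194 (.c k195 t42_195 (.c k196 t42_196 (.c k197 t42_197 (.c k198 t42_198
  (.c k199 t42_199 (.c k200 t42_200 (.c k201 t42_201 (.c k202 t42_202 (.c k203 t42_203 (.c k204
  t42_204 (.c k205 t42_205 (.c k206 t42_206 (.c k207 t42_207 (.c k208 t42_208 (.c k209 t42_209 (.c
  k210 t42_210 (.c k211 t42_211 (.c k212 t42_212 (.c k213 t42_213 (.c k214 t42_214 (.c k215 t42_215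
  (.c k216 t42_216 (.c k217 t42_217 (.c k218 t42_218 (.c k219 t42_219 (.c k220 t42_220 (.c k221
  t42_221 (.c k222 t42_222 (.c k223 t42_223 (.c k224 t42_224 (.c k225 t42_225 (.c k226 t42_226 (.c
  k227 t42_227 (.c k228 t42_228 (.c k229 t42_229 (.c k230 t42_230 (.c k231 t42_231 (.c k232 t42_232
  (.c k233 t42_233 (.c k234 t42_234 (.c k235 t42_235 (.c k236 t42_236 (.c k237 t42_237 (.c k238
  t42_238 (.c k239 t42_239 (.c k240 t42_240 (.c k241 t42_241 (.c k242 t42_242 (.c k243 t42_243 (.c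
  k244 t42_244 (.c k245 t42_245 (.c k246 t42_246 (.c k247 t42_247 (.c k248 t42_248 (.c k249 t42_249
  (.c k250 t42_250 (.c k251 t42_251 (.c k252 t42_252 (.c k253 t42_253 (.c k254 t42_254 (.c k255
  t42_255 .n))))))))))))))))))))))))))))))))))))))))))))))))))))))))))))))))))))))))))))))))
  ))))))))))))))))))))))))))))))))))))))))))))))))))))))))))))))))))))))))))))))))
  )))))))))))))))))))))))))))))))))))))))))))))))))))))))))))))))))))))))))))))))) ))))))))))))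

theorem c42 : rootOK2 k63 k170 k42 t42 = true := by decide +kernel

def l : List Nat :=
  [k42.c]

theorem ok : AllQ k63.c k170.c l :=
  allQ_cons c42 (allQ_nil _ _)

end Pool.Agent.TTT.G04
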