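import Pool.Agent.TTT.Sym2

set_option autoImplicit false
set_option maxRecDepth 100000

namespace Pool.Agent.TTT.G05

def t43 : T TT 256 :=
  (.q k48 [(.s k32 k16 3 (.s k42 k21 6 (.s k37 k47 2 (.s k26 k15 6 (.d k58 k53 k10 2 3))))), (.s k16
  k32 3 (.s k21 k42 6 (.s k26 k31 2 (.s k37 k15 6 (.d k53 k58 k5 2 3)))))] (.c k15 (.q k51 [(.s k49
  k50 0 (.s k53 k58 2 (.s k57 k61 1 (.s k54 k60 2 (.d k55 k52 k59 0 1))))), (.s k16 k32 3 (.s k17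
  k34 4 (.s k18 k19 0 (.s k33 k3 4 (.d k49 k50 k1 0 3))))), (.s k17 k34 4 (.s k21 k42 6 (.s k25 k29
  1 (.s k38 k12 6 (.d k55 k59 k4 1 4)))))] .n) (.c k16 (.q k51 [(.s k49 k50 0 (.s k53 k58 2 (.s k57
  k61 1 (.s k54 k60 2 (.d k55 k52 k59 0 1))))), (.s k17 k34 4 (.s k21 k42 6 (.s k25 k29 1 (.s k38
  k12 6 (.d k55 k59 k4 1 4))))), (.s k17 k34 4 (.s k21 k42 6 (.s k25 k29 1 (.s k49 k50 0 (.s k37 k13
  5 (.d k53 k58 k5 2 3))))))] .n) (.c k21 (.q k192 [(.s k16 k32 3 (.s k128 k64 7 (.s k144 k96 11 (.s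
  k80 k208 7 (.d k160 k176 k240 3 11))))), (.s k53 k58 2 (.s k144 k96 11 (.s k149 k106 14 (.s k101
  k197 11 (.d k154 k159 k207 2 14))))), (.s k16 k32 3 (.s k58 k53 2 (.s k106 k149 14 (.s k154 k202
  11 (.s k85 k223 10 (.d k64 k128 k127 7 6))))))] (.c k101 (.l (.s k32 k16 3 (.s k64 k128 7 (.s k96
  k144 11 (.s k160 k224 7 (.d k80 k112 k240 3 11)))))) .n)) (.c k26 (.q k192 [(.s k16 k32 3 (.s k128
  k64 7 (.s k144 k96 11 (.s k80 k208 7 (.d k160 k176 k240 3 11))))), (.s k53 k58 2 (.s k144 k96 11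
  (.s k149 k106 14 (.s k101 k197 11 (.d k154 k159 k207 2 14))))), (.s k16 k32 3 (.s k58 k53 2 (.s
  k106 k149 14 (.s k154 k202 11 (.s k85 k223 10 (.d k64 k128 k127 7 6))))))] (.c k101 (.l (.s k32
  k16 3 (.s k64 k128 7 (.s k96 k144 11 (.s k160 k224 7 (.d k80 k112 k240 3 11)))))) .n)) (.c k31 (.l
  (.s k32 k16 3 (.s k58 k53 2 (.s k42 k21 6 (.s k26 k10 3 (.d k37 k47 k15 2 6)))))) (.c k32 (.f k42
  k21 6 (.f k53 k58 2 (.q k51 [(.s k34 k17 4 (.s k38 k46 1 (.s k25 k12 6 (.d k59 k55 k8 1 4)))), (.s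
  k49 k50 0 (.s k57 k61 1 (.s k54 k60 2 (.d k55 k52 k59 0 1)))), (.s k34 k17 4 (.s k38 k46 1 (.s k25
  k12 6 (.s k49 k50 0 (.s k37 k13 5 (.s k15 k26 6 (.d k39 k36 k27 0 5)))))))] (.c k101 (.q k239 [(.s
  k34 k17 4 (.s k38 k46 1 (.s k25 k12 6 (.d k59 k55 k8 1 4)))), (.s k49 k50 0 (.s k57 k61 1 (.s k54
  k60 2 (.d k55 k52 k59 0 1)))), (.s k34 k17 4 (.s k38 k46 1 (.s k25 k12 6 (.s k49 k50 0 (.s k37 k13
  5 (.s k15 k26 6 (.d k39 k36 k27 0 5)))))))] .n) (.c k239 (.q k101 [(.s k34 k17 4 (.s k38 k46 1 (.s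
  k25 k12 6 (.d k59 k55 k8 1 4)))), (.s k154 k207 14 (.s k149 k197 11 (.s k192 k106 14 (.d k144 k159
  k96 2 11))))] .n) .n))))) (.c k37 (.q k192 [(.s k32 k16 3 (.s k64 k128 7 (.s k96 k144 11 (.s k160
  k224 7 (.d k80 k112 k240 3 11))))), (.s k53 k58 2 (.s k144 k96 11 (.s k149 k106 14 (.s k101 k197
  11 (.d k154 k159 k207 2 14))))), (.s k16 k32 3 (.s k58 k53 2 (.s k106 k149 14 (.s k154 k202 11 (.s
  k85 k223 10 (.d k64 k128 k127 7 6))))))] (.c k149 (.l (.s k16 k32 3 (.s k128 k64 7 (.s k144 k96 11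
  (.s k80 k208 7 (.d k160 k176 k240 3 11)))))) .n)) (.c k42 (.f k58 k53 2 (.q k106 [(.s k154 k202 11
  (.s k101 k207 14 (.s k96 k111 2 (.d k192 k144 k149 11 14)))), (.s k16 k32 3 (.s k154 k202 11 (.s
  k85 k223 10 (.s k127 k64 6 (.s k255 k191 7 (.s k117 k186 10 (.d k101 k69 k207 3 14))))))), (.s k16
  k32 3 (.s k192 k149 14 (.s k128 k64 7 (.s k144 k96 11 (.s k80 k208 7 (.d k160 k176 k240 3
  11))))))] (.c k40 (.q k41 [(.s k154 k202 11 (.s k101 k207 14 (.s k96 k111 2 (.d k192 k144 k149 11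
  14)))), (.s k16 k32 3 (.s k154 k202 11 (.s k85 k223 10 (.s k127 k64 6 (.s k255 k191 7 (.s k117
  k186 10 (.d k101 k69 k207 3 14))))))), (.s k16 k32 3 (.s k192 k149 14 (.s k128 k64 7 (.s k144 k96
  11 (.s k80 k208 7 (.d k160 k176 k240 3 11))))))] (.c k101 (.f k202 k154 11 (.l (.s k192 k149 14
  (.s k197 k207 2 (.s k128 k64 7 (.s k144 k96 11 (.s k160 k176 3 (.s k80 k240 11 (.d k16 k32 k208 3
  7))))))))) (.c k105 (.q k235 [(.s k154 k202 11 (.s k101 k207 14 (.s k96 k111 2 (.d k192 k144 k149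
  11 14)))), (.s k16 k32 3 (.s k154 k202 11 (.s k85 k223 10 (.s k127 k64 6 (.s k255 k191 7 (.s k117
  k186 10 (.d k101 k69 k207 3 14))))))), (.s k16 k32 3 (.s k192 k149 14 (.s k128 k64 7 (.s k144 k96
  11 (.s k80 k208 7 (.d k160 k176 k240 3 11))))))] (.c k101 (.f k202 k154 11 (.l (.s k192 k149 14
  (.s k197 k207 2 (.s k128 k64 7 (.s k144 k96 11 (.s k160 k176 3 (.s k80 k240 11 (.d k16 k32 k208 3
  7))))))))) (.c k149 (.l (.s k16 k32 3 (.s k154 k202 11 (.s k85 k223 10 (.s k101 k207 14 (.s k64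
  k127 6 (.s k96 k111 2 (.d k192 k128 k144 7 11)))))))) .n))) (.c k149 (.l (.s k16 k32 3 (.s k154
  k202 11 (.s k85 k223 10 (.s k101 k207 14 (.s k64 k127 6 (.s k96 k111 2 (.d k192 k128 k144 7
  11)))))))) (.c k235 (.q k105 [(.s k154 k202 11 (.s k101 k207 14 (.s k96 k111 2 (.d k192 k144 k149
  11 14)))), (.s k149 k192 14 (.s k61 k193 13 (.s k1 k21 5 (.s k3 k2 0 (.d k60 k62 k22 0 6)))))] (.c
  k107 (.q k171 [(.s k154 k202 11 (.s k101 k207 14 (.s k192 k149 14 (.d k96 k111 k144 2 11)))), (.s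
  k154 k202 11 (.s k56 k203 12 (.s k60 k52 1 (.s k62 k61 0 (.d k150 k194 k195 13 14))))), (.s k149
  k192 14 (.s k61 k193 13 (.s k1 k21 5 (.s k3 k2 0 (.d k60 k62 k22 0 6)))))] .n) (.c k149 (.l (.s
  k154 k202 11 (.s k101 k207 14 (.s k97 k109 1 (.s k195 k146 12 (.d k107 k104 k151 0 13)))))) (.c
  k171 (.l (.s k107 k104 0 (.s k154 k202 11 (.s k101 k207 14 (.s k192 k149 14 (.d k96 k111 k144 2
  11)))))) (.c k192 (.l (.s k154 k202 11 (.s k207 k101 14 (.s k203 k56 12 (.s k107 k104 0 (.d k195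
  k199 k151 1 13)))))) .n))))) .n))))) (.c k41 (.q k40 [(.s k154 k202 11 (.s k101 k207 14 (.s k96
  k111 2 (.d k192 k144 k149 11 14)))), (.s k32 k16 3 (.s k20 k60 5 (.s k36 k44 1 (.s k4 k52 3 (.d
  k12 k8 k24 1 5)))))] .n) (.c k101 (.f k202 k154 11 (.l (.s k192 k149 14 (.s k197 k207 2 (.s k128
  k64 7 (.s k144 k96 11 (.s k160 k176 3 (.s k80 k240 11 (.d k16 k32 k208 3 7))))))))) (.c k149 (.l
  (.s k16 k32 3 (.s k154 k202 11 (.s k85 k223 10 (.s k101 k207 14 (.s k64 k127 6 (.s k96 k111 2 (.d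
  k192 k128 k144 7 11)))))))) .n)))))) (.c k47 (.l (.s k16 k32 3 (.s k53 k58 2 (.s k21 k42 6 (.s k37
  k5 3 (.d k26 k31 k15 2 6)))))) (.c k53 (.q k51 [(.s k32 k16 3 (.s k34 k17 4 (.s k33 k35 0 (.s k18
  k3 4 (.d k50 k49 k2 0 3))))), (.s k17 k34 4 (.s k21 k42 6 (.s k25 k29 1 (.s k38 k12 6 (.d k55 k59
  k4 1 4))))), (.s k16 k32 3 (.s k21 k42 6 (.s k26 k31 2 (.s k50 k49 0 (.s k38 k14 5 (.d k55 k59 k4
  1 4))))))] .n) (.c k58 (.q k51 [(.s k32 k16 3 (.s k34 k17 4 (.s k33 k35 0 (.s k18 k3 4 (.d k50 k49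
  k2 0 3))))), (.s k17 k34 4 (.s k21 k42 6 (.s k25 k29 1 (.s k38 k12 6 (.d k55 k59 k4 1 4))))), (.s
  k16 k32 3 (.s k21 k42 6 (.s k26 k31 2 (.s k50 k49 0 (.s k38 k14 5 (.d k55 k59 k4 1 4))))))] .n)
  .n))))))))))))

def t47 : T TT 256 :=
  (.f k42 k21 6 (.q k12 [(.s k8 k4 1 (.s k25 k59 4 (.s k38 k51 6 (.d k46 k34 k29 1 4))))] (.c k4 (.q
  k60 [(.s k28 k44 3 (.s k61 k62 0 (.s k29 k46 4 (.s k45 k13 3 (.d k30 k31 k15 0 4))))), (.s k40 k20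
  5 (.s k41 k43 0 (.s k22 k3 6 (.d k62 k61 k2 0 5)))), (.s k40 k20 5 (.s k44 k28 3 (.s k46 k29 4 (.s
  k38 k34 1 (.d k41 k43 k35 0 2)))))] (.c k38 (.q k55 [(.s k62 k61 0 (.s k22 k2 5 (.s k41 k3 6 (.d
  k40 k43 k20 0 5)))), (.s k29 k46 4 (.s k61 k62 0 (.s k45 k13 3 (.s k30 k15 4 (.d k28 k44 k31 3
  0))))), (.s k40 k20 5 (.s k28 k44 3 (.s k41 k43 0 (.s k22 k3 6 (.s k25 k19 2 (.d k59 k51 k8 1
  4))))))] .n) (.c k55 (.q k38 [(.d k46 k34 k29 1 4), (.s k40 k20 5 (.s k44 k28 3 (.d k41 k43 k35 0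
  2)))] .n) .n))) (.c k8 (.q k60 [(.s k40 k20 5 (.s k41 k43 0 (.s k22 k3 6 (.d k62 k61 k2 0 5)))),
  (.s k28 k44 3 (.s k61 k62 0 (.s k29 k46 4 (.s k45 k13 3 (.d k30 k31 k15 0 4))))), (.s k40 k20 5
  (.s k44 k28 3 (.s k46 k29 4 (.s k38 k34 1 (.d k41 k43 k35 0 2)))))] (.c k89 (.q k251 [(.s k40 k20
  5 (.s k41 k43 0 (.s k22 k3 6 (.d k62 k61 k2 0 5)))), (.s k28 k44 3 (.s k61 k62 0 (.s k29 k46 4 (.s
  k45 k13 3 (.d k30 k31 k15 0 4))))), (.s k40 k20 5 (.s k44 k28 3 (.s k46 k29 4 (.s k38 k34 1 (.d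
  k41 k43 k35 0 2)))))] .n) (.c k251 (.q k89 [(.s k40 k20 5 (.s k41 k43 0 (.s k22 k3 6 (.d k62 k61
  k2 0 5)))), (.s k28 k44 3 (.s k166 k243 14 (.s k150 k211 10 (.s k134 k182 3 (.d k195 k73 k105 10
  14)))))] .n) .n))) (.c k25 (.q k60 [(.s k40 k20 5 (.s k41 k43 0 (.s k22 k3 6 (.d k62 k61 k2 0
  5)))), (.s k4 k8 1 (.s k20 k40 5 (.s k36 k52 3 (.s k24 k48 5 (.d k28 k16 k44 1 3))))), (.s k28 k44
  3 (.s k61 k62 0 (.s k29 k46 4 (.s k45 k13 3 (.d k30 k31 k15 0 4)))))] (.c k17 (.l (.s k29 k46 4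
  (.s k40 k20 5 (.s k41 k43 0 (.s k22 k3 6 (.d k62 k61 k2 0 5)))))) (.c k29 (.q k17 [(.s k40 k20 5
  (.s k41 k43 0 (.s k22 k3 6 (.d k62 k61 k2 0 5)))), (.s k4 k8 1 (.s k20 k40 5 (.s k36 k52 3 (.s k24
  k48 5 (.d k28 k16 k44 1 3))))), (.s k34 k51 4 (.s k44 k28 3 (.s k38 k46 1 (.s k41 k35 2 (.s k62
  k61 0 (.d k22 k3 k2 6 5))))))] .n) .n))) (.c k29 (.q k60 [(.s k40 k20 5 (.s k41 k43 0 (.s k22 k3 6
  (.d k62 k61 k2 0 5)))), (.s k4 k8 1 (.s k20 k40 5 (.s k36 k52 3 (.s k24 k48 5 (.d k28 k16 k44 1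
  3))))), (.s k8 k4 1 (.s k25 k59 4 (.s k28 k44 3 (.s k22 k19 2 (.d k62 k61 k2 0 5)))))] (.c k17 (.q
  k25 [(.d k8 k4 k59 1 4), (.s k28 k44 3 (.s k22 k19 2 (.d k62 k61 k2 0 5)))] .n) (.c k25 (.q k17
  [(.s k40 k20 5 (.s k41 k43 0 (.s k22 k3 6 (.d k62 k61 k2 0 5)))), (.s k4 k8 1 (.s k20 k40 5 (.s
  k36 k52 3 (.s k24 k48 5 (.d k28 k16 k44 1 3))))), (.s k34 k51 4 (.s k44 k28 3 (.s k38 k46 1 (.s
  k41 k35 2 (.s k62 k61 0 (.d k22 k3 k2 6 5))))))] .n) .n))) (.c k34 (.q k60 [(.s k40 k20 5 (.s k41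
  k43 0 (.s k22 k3 6 (.d k62 k61 k2 0 5)))), (.s k4 k8 1 (.s k20 k40 5 (.s k36 k52 3 (.s k24 k48 5
  (.d k28 k16 k44 1 3))))), (.s k8 k4 1 (.s k25 k59 4 (.s k28 k44 3 (.s k22 k19 2 (.d k62 k61 k2 0
  5)))))] (.c k102 (.q k238 [(.s k40 k20 5 (.s k41 k43 0 (.s k22 k3 6 (.d k62 k61 k2 0 5)))), (.s k4
  k8 1 (.s k20 k40 5 (.s k36 k52 3 (.s k24 k48 5 (.d k28 k16 k44 1 3))))), (.s k8 k4 1 (.s k25 k59 4
  (.s k28 k44 3 (.s k22 k19 2 (.d k62 k61 k2 0 5)))))] .n) (.c k238 (.q k102 [(.s k40 k20 5 (.s k41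
  k43 0 (.s k22 k3 6 (.d k62 k61 k2 0 5)))), (.s k4 k8 1 (.s k20 k40 5 (.s k36 k52 3 (.s k24 k48 5
  (.d k28 k16 k44 1 3))))), (.s k8 k4 1 (.s k25 k59 4 (.s k28 k44 3 (.s k22 k19 2 (.d k62 k61 k2 0
  5)))))] .n) .n))) (.c k38 (.q k60 [(.s k40 k20 5 (.s k41 k43 0 (.s k22 k3 6 (.d k62 k61 k2 0
  5)))), (.s k4 k8 1 (.s k20 k40 5 (.s k36 k52 3 (.s k24 k48 5 (.d k28 k16 k44 1 3))))), (.s k28 k44
  3 (.s k61 k62 0 (.s k29 k46 4 (.s k45 k13 3 (.d k30 k31 k15 0 4)))))] (.c k4 (.q k55 [(.s k62 k61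
  0 (.s k22 k2 5 (.s k41 k3 6 (.d k40 k43 k20 0 5)))), (.s k29 k46 4 (.s k61 k62 0 (.s k45 k13 3 (.s
  k30 k15 4 (.d k28 k44 k31 3 0))))), (.s k40 k20 5 (.s k28 k44 3 (.s k41 k43 0 (.s k22 k3 6 (.s k25
  k19 2 (.d k59 k51 k8 1 4))))))] .n) (.c k55 (.l (.s k4 k8 1 (.s k20 k40 5 (.s k36 k52 3 (.s k24
  k48 5 (.d k28 k16 k44 1 3)))))) .n))) (.c k46 (.q k60 [(.s k40 k20 5 (.s k41 k43 0 (.s k22 k3 6
  (.d k62 k61 k2 0 5)))), (.s k4 k8 1 (.s k20 k40 5 (.s k36 k52 3 (.s k24 k48 5 (.d k28 k44 k16 3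
  1))))), (.s k8 k4 1 (.s k25 k59 4 (.s k62 k61 0 (.s k22 k2 5 (.d k28 k44 k19 3 2)))))] (.c k44 (.q
  k45 [(.s k61 k62 0 (.s k13 k29 3 (.d k15 k14 k30 0 4))), (.s k40 k20 5 (.s k41 k43 0 (.s k22 k3 6
  (.d k62 k61 k2 0 5)))), (.s k8 k4 1 (.s k40 k20 5 (.s k56 k24 3 (.s k59 k25 4 (.s k57 k58 0 (.d
  k51 k55 k54 1 2))))))] .n) (.c k45 (.l (.s k44 k28 3 (.s k8 k4 1 (.s k40 k20 5 (.s k24 k56 3 (.d
  k36 k32 k48 1 5)))))) .n))) (.c k51 (.q k60 [(.s k40 k20 5 (.s k41 k43 0 (.s k62 k61 0 (.d k22 k2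
  k3 5 6)))), (.s k4 k8 1 (.s k20 k40 5 (.s k36 k52 3 (.s k24 k48 5 (.d k28 k16 k44 1 3))))), (.s k8
  k4 1 (.s k25 k59 4 (.s k28 k44 3 (.s k22 k19 2 (.d k62 k61 k2 0 5)))))] .n) (.c k55 (.l (.s k46
  k29 4 (.s k8 k4 1 (.s k38 k34 1 (.d k25 k59 k51 4 6))))) (.c k59 (.q k60 [(.s k28 k44 3 (.s k61
  k62 0 (.s k29 k46 4 (.s k45 k13 3 (.d k30 k31 k15 0 4))))), (.s k40 k20 5 (.s k41 k43 0 (.s k22 k3
  6 (.d k62 k61 k2 0 5)))), (.s k4 k8 1 (.s k20 k40 5 (.s k36 k52 3 (.s k24 k48 5 (.d k28 k16 k44 1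
  3)))))] .n) .n))))))))))))

def t64 : T TT 256 :=
  (.f k42 k21 6 (.q k48 [(.s k32 k16 3 (.s k37 k47 2 (.s k26 k15 6 (.d k58 k53 k10 2 3))))] (.c k10
  (.q k51 [(.s k34 k17 4 (.s k38 k46 1 (.s k25 k12 6 (.d k59 k55 k8 1 4)))), (.s k16 k32 3 (.s k17
  k34 4 (.s k18 k19 0 (.s k33 k3 4 (.d k49 k50 k1 0 3))))), (.s k32 k16 3 (.s k37 k47 2 (.s k49 k50
  0 (.s k25 k13 5 (.d k59 k55 k8 1 4)))))] (.c k90 (.q k250 [(.s k34 k17 4 (.s k38 k46 1 (.s k25 k12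
  6 (.d k59 k55 k8 1 4)))), (.s k16 k32 3 (.s k17 k34 4 (.s k18 k19 0 (.s k33 k3 4 (.d k49 k50 k1 0
  3))))), (.s k32 k16 3 (.s k37 k47 2 (.s k49 k50 0 (.s k25 k13 5 (.d k59 k55 k8 1 4)))))] .n) (.c
  k250 (.q k90 [(.s k34 k17 4 (.s k38 k46 1 (.s k25 k12 6 (.d k59 k55 k8 1 4)))), (.s k16 k32 3 (.s
  k17 k34 4 (.s k18 k19 0 (.s k33 k3 4 (.d k49 k50 k1 0 3))))), (.s k32 k16 3 (.s k37 k47 2 (.s k49
  k50 0 (.s k25 k13 5 (.d k59 k55 k8 1 4)))))] .n) .n))) (.c k15 (.q k51 [(.s k34 k17 4 (.s k38 k46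
  1 (.s k59 k55 1 (.d k25 k8 k12 4 6)))), (.s k16 k32 3 (.s k17 k34 4 (.s k18 k19 0 (.s k33 k3 4 (.d
  k49 k50 k1 0 3))))), (.s k32 k16 3 (.s k37 k47 2 (.s k49 k50 0 (.s k25 k13 5 (.d k59 k55 k8 1
  4)))))] .n) (.c k16 (.q k51 [(.s k34 k17 4 (.s k38 k46 1 (.s k25 k12 6 (.d k59 k55 k8 1 4)))), (.s
  k49 k50 0 (.s k53 k58 2 (.s k57 k61 1 (.s k54 k60 2 (.d k55 k52 k59 0 1))))), (.s k34 k17 4 (.s
  k38 k46 1 (.s k50 k49 0 (.s k26 k14 5 (.d k58 k53 k10 2 3)))))] (.c k26 (.q k31 [(.s k34 k17 4 (.s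
  k38 k46 1 (.s k25 k12 6 (.d k59 k55 k8 1 4)))), (.s k15 k47 3 (.s k27 k39 5 (.s k59 k55 1 (.s k43
  k11 3 (.d k23 k19 k3 1 5))))), (.s k34 k17 4 (.s k50 k49 0 (.s k58 k53 2 (.s k62 k54 1 (.d k2 k18
  k22 3 5)))))] (.c k19 (.l (.s k59 k55 1 (.s k25 k8 4 (.s k38 k12 6 (.d k34 k46 k17 1 4))))) (.c
  k55 (.l (.s k34 k17 4 (.s k15 k47 3 (.s k39 k27 5 (.s k38 k46 1 (.s k36 k37 0 (.d k12 k24 k25 5
  6))))))) .n))) (.c k31 (.q k26 [(.d k58 k53 k10 2 3), (.s k34 k17 4 (.s k38 k46 1 (.d k50 k49 k14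
  0 5)))] .n) .n))) (.c k26 (.q k51 [(.s k34 k17 4 (.s k38 k46 1 (.s k25 k12 6 (.d k59 k55 k8 1
  4)))), (.s k16 k32 3 (.s k17 k34 4 (.s k18 k19 0 (.s k33 k3 4 (.d k49 k50 k1 0 3))))), (.s k49 k50
  0 (.s k53 k58 2 (.s k57 k61 1 (.s k54 k60 2 (.d k55 k52 k59 0 1)))))] (.c k16 (.q k31 [(.s k34 k17
  4 (.s k38 k46 1 (.s k25 k12 6 (.d k59 k55 k8 1 4)))), (.s k15 k47 3 (.s k27 k39 5 (.s k59 k55 1
  (.s k43 k11 3 (.d k23 k19 k3 1 5))))), (.s k34 k17 4 (.s k50 k49 0 (.s k58 k53 2 (.s k62 k54 1 (.d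
  k2 k18 k22 3 5)))))] (.c k19 (.l (.s k59 k55 1 (.s k25 k8 4 (.s k38 k12 6 (.d k34 k46 k17 1 4)))))
  (.c k55 (.l (.s k34 k17 4 (.s k15 k47 3 (.s k39 k27 5 (.s k38 k46 1 (.s k36 k37 0 (.d k12 k24 k25
  5 6))))))) .n))) (.c k31 (.l (.s k16 k32 3 (.s k17 k34 4 (.s k18 k19 0 (.s k33 k3 4 (.d k49 k50 k1
  0 3)))))) .n))) (.c k31 (.l (.s k58 k53 2 (.s k32 k16 3 (.s k26 k10 3 (.d k37 k47 k15 2 6))))) (.c
  k32 (.f k53 k58 2 (.q k51 [(.s k34 k17 4 (.s k38 k46 1 (.s k25 k12 6 (.d k59 k55 k8 1 4)))), (.s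
  k49 k50 0 (.s k57 k61 1 (.s k54 k60 2 (.d k55 k52 k59 0 1)))), (.s k34 k17 4 (.s k38 k46 1 (.s k25
  k12 6 (.s k49 k50 0 (.s k37 k13 5 (.s k15 k26 6 (.d k39 k36 k27 0 5)))))))] (.c k101 (.q k239 [(.s
  k34 k17 4 (.s k38 k46 1 (.s k25 k12 6 (.d k59 k55 k8 1 4)))), (.s k49 k50 0 (.s k57 k61 1 (.s k54
  k60 2 (.d k55 k52 k59 0 1)))), (.s k34 k17 4 (.s k38 k46 1 (.s k25 k12 6 (.s k49 k50 0 (.s k37 k13
  5 (.s k15 k26 6 (.d k39 k36 k27 0 5)))))))] .n) (.c k239 (.q k101 [(.s k34 k17 4 (.s k38 k46 1 (.s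
  k25 k12 6 (.d k59 k55 k8 1 4)))), (.s k154 k207 14 (.s k149 k197 11 (.s k192 k106 14 (.d k144 k159
  k96 2 11))))] .n) .n)))) (.c k37 (.q k51 [(.s k34 k17 4 (.s k38 k46 1 (.s k25 k12 6 (.d k59 k55 k8
  1 4)))), (.s k16 k32 3 (.s k17 k34 4 (.s k18 k19 0 (.s k33 k3 4 (.d k49 k50 k1 0 3))))), (.s k49
  k50 0 (.s k53 k58 2 (.s k57 k61 1 (.s k54 k60 2 (.d k55 k52 k59 0 1)))))] (.c k5 (.l (.s k53 k58 2
  (.s k34 k17 4 (.s k38 k46 1 (.s k25 k12 6 (.d k59 k55 k8 1 4)))))) (.c k53 (.q k5 [(.s k34 k17 4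
  (.s k38 k46 1 (.s k25 k12 6 (.d k59 k55 k8 1 4)))), (.s k16 k32 3 (.s k17 k34 4 (.s k18 k19 0 (.s
  k33 k3 4 (.d k49 k50 k1 0 3))))), (.s k10 k15 2 (.s k26 k58 3 (.s k50 k49 0 (.s k38 k14 5 (.s k59
  k55 1 (.d k25 k12 k8 6 4))))))] .n) .n))) (.c k47 (.q k51 [(.s k34 k17 4 (.s k38 k46 1 (.s k25 k12
  6 (.d k59 k55 k8 1 4)))), (.s k16 k32 3 (.s k17 k34 4 (.s k18 k19 0 (.s k33 k3 4 (.d k49 k50 k1 0
  3))))), (.s k49 k50 0 (.s k53 k58 2 (.s k57 k61 1 (.s k54 k60 2 (.d k55 k52 k59 0 1)))))] .n) (.c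
  k53 (.q k51 [(.s k34 k17 4 (.s k38 k46 1 (.s k25 k12 6 (.d k59 k55 k8 1 4)))), (.s k16 k32 3 (.s
  k17 k34 4 (.s k18 k19 0 (.s k33 k3 4 (.d k49 k50 k1 0 3))))), (.s k32 k16 3 (.s k37 k47 2 (.s k49
  k50 0 (.s k25 k13 5 (.d k59 k55 k8 1 4)))))] (.c k5 (.q k37 [(.d k32 k47 k16 2 3), (.s k49 k50 0
  (.s k25 k13 5 (.d k59 k55 k8 1 4)))] .n) (.c k37 (.q k5 [(.s k34 k17 4 (.s k38 k46 1 (.s k25 k12 6
  (.d k59 k55 k8 1 4)))), (.s k16 k32 3 (.s k17 k34 4 (.s k18 k19 0 (.s k33 k3 4 (.d k49 k50 k1 0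
  3))))), (.s k10 k15 2 (.s k26 k58 3 (.s k50 k49 0 (.s k38 k14 5 (.s k59 k55 1 (.d k25 k12 k8 6
  4))))))] .n) .n))) (.c k58 (.q k51 [(.s k34 k17 4 (.s k38 k46 1 (.s k25 k12 6 (.d k59 k55 k8 1
  4)))), (.s k16 k32 3 (.s k17 k34 4 (.s k18 k19 0 (.s k33 k3 4 (.d k49 k50 k1 0 3))))), (.s k32 k16
  3 (.s k37 k47 2 (.s k49 k50 0 (.s k25 k13 5 (.d k59 k55 k8 1 4)))))] .n) .n))))))))))))

def t65 : T TT 256 :=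
  (.f k42 k21 6 (.q k48 [(.s k32 k16 3 (.s k37 k47 2 (.s k26 k15 6 (.d k58 k53 k10 2 3))))] (.c k10
  (.f k53 k58 2 (.q k51 [(.s k34 k17 4 (.s k38 k46 1 (.s k25 k12 6 (.d k59 k55 k8 1 4)))), (.s k49
  k50 0 (.s k57 k61 1 (.s k54 k60 2 (.d k55 k52 k59 0 1)))), (.s k16 k32 3 (.s k17 k34 4 (.s k18 k19
  0 (.s k33 k3 4 (.d k49 k50 k1 0 3)))))] (.c k90 (.q k250 [(.s k34 k17 4 (.s k38 k46 1 (.s k25 k12
  6 (.d k59 k55 k8 1 4)))), (.s k49 k50 0 (.s k57 k61 1 (.s k54 k60 2 (.d k55 k52 k59 0 1)))), (.s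
  k16 k32 3 (.s k17 k34 4 (.s k18 k19 0 (.s k33 k3 4 (.d k49 k50 k1 0 3)))))] .n) (.c k250 (.q k90
  [(.s k34 k17 4 (.s k38 k46 1 (.s k25 k12 6 (.d k59 k55 k8 1 4)))), (.s k49 k50 0 (.s k57 k61 1 (.s
  k54 k60 2 (.d k55 k52 k59 0 1)))), (.s k16 k32 3 (.s k17 k34 4 (.s k18 k19 0 (.s k33 k3 4 (.d k49
  k50 k1 0 3)))))] (.c k122 (.q k186 [(.s k34 k17 4 (.s k38 k46 1 (.s k25 k12 6 (.d k59 k55 k8 1
  4)))), (.s k49 k50 0 (.s k57 k61 1 (.s k54 k60 2 (.d k55 k52 k59 0 1)))), (.s k16 k32 3 (.s k17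
  k34 4 (.s k18 k19 0 (.s k33 k3 4 (.d k49 k50 k1 0 3)))))] .n) (.c k186 (.q k122 [(.s k34 k17 4 (.s
  k38 k46 1 (.s k25 k12 6 (.d k59 k55 k8 1 4)))), (.s k32 k16 3 (.s k37 k47 2 (.s k240 k181 10 (.d
  k15 k26 k165 6 14))))] (.c k138 (.q k154 [(.s k101 k207 14 (.s k149 k197 11 (.d k106 k74 k192 3
  14))), (.s k32 k16 3 (.s k26 k218 7 (.d k37 k47 k15 2 6)))] (.c k74 (.q k202 [(.s k26 k218 7 (.s
  k15 k37 6 (.d k240 k181 k165 10 14))), (.s k101 k207 14 (.s k240 k181 10 (.d k112 k176 k79 7 6))),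
  (.s k32 k16 3 (.s k26 k218 7 (.d k37 k47 k15 2 6)))] .n) (.c k202 (.l (.s k74 k106 3 (.s k32 k16 3
  (.s k37 k47 2 (.d k26 k15 k218 6 7))))) .n))) (.c k154 (.q k138 [(.s k34 k17 4 (.s k38 k46 1 (.s
  k25 k12 6 (.d k59 k55 k8 1 4)))), (.s k32 k16 3 (.s k37 k47 2 (.s k240 k181 10 (.d k15 k26 k165 6
  14))))] (.c k106 (.q k202 [(.s k34 k17 4 (.s k38 k46 1 (.s k25 k12 6 (.d k59 k55 k8 1 4)))), (.s
  k32 k16 3 (.s k37 k47 2 (.s k240 k181 10 (.d k15 k26 k165 6 14))))] .n) (.c k202 (.l (.s k106 k74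
  3 (.s k32 k16 3 (.s k37 k47 2 (.s k240 k181 10 (.d k15 k26 k165 6 14)))))) .n))) .n))) .n)))
  .n)))) (.c k15 (.q k51 [(.s k34 k17 4 (.s k38 k46 1 (.s k59 k55 1 (.d k25 k8 k12 4 6)))), (.s k16
  k32 3 (.s k17 k34 4 (.s k18 k19 0 (.s k33 k3 4 (.d k49 k50 k1 0 3))))), (.s k32 k16 3 (.s k37 k47
  2 (.s k49 k50 0 (.s k25 k13 5 (.d k59 k55 k8 1 4)))))] .n) (.c k16 (.q k51 [(.s k34 k17 4 (.s k38
  k46 1 (.s k25 k12 6 (.d k59 k55 k8 1 4)))), (.s k49 k50 0 (.s k53 k58 2 (.s k57 k61 1 (.s k54 k60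
  2 (.d k55 k52 k59 0 1))))), (.s k34 k17 4 (.s k38 k46 1 (.s k50 k49 0 (.s k26 k14 5 (.d k58 k53
  k10 2 3)))))] (.c k26 (.q k31 [(.s k34 k17 4 (.s k38 k46 1 (.s k25 k12 6 (.d k59 k55 k8 1 4)))),
  (.s k15 k47 3 (.s k27 k39 5 (.s k59 k55 1 (.s k43 k11 3 (.d k23 k19 k3 1 5))))), (.s k34 k17 4 (.s
  k50 k49 0 (.s k58 k53 2 (.s k62 k54 1 (.d k2 k18 k22 3 5)))))] (.c k19 (.l (.s k59 k55 1 (.s k25
  k8 4 (.s k38 k12 6 (.d k34 k46 k17 1 4))))) (.c k55 (.l (.s k34 k17 4 (.s k15 k47 3 (.s k39 k27 5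
  (.s k38 k46 1 (.s k36 k37 0 (.d k12 k24 k25 5 6))))))) .n))) (.c k31 (.q k26 [(.d k58 k53 k10 2
  3), (.s k34 k17 4 (.s k38 k46 1 (.d k50 k49 k14 0 5)))] .n) .n))) (.c k26 (.q k51 [(.s k34 k17 4
  (.s k38 k46 1 (.s k25 k12 6 (.d k59 k55 k8 1 4)))), (.s k16 k32 3 (.s k17 k34 4 (.s k18 k19 0 (.s
  k33 k3 4 (.d k49 k50 k1 0 3))))), (.s k49 k50 0 (.s k53 k58 2 (.s k57 k61 1 (.s k54 k60 2 (.d k55
  k52 k59 0 1)))))] (.c k16 (.q k31 [(.s k34 k17 4 (.s k38 k46 1 (.s k25 k12 6 (.d k59 k55 k8 1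
  4)))), (.s k15 k47 3 (.s k27 k39 5 (.s k59 k55 1 (.s k43 k11 3 (.d k23 k19 k3 1 5))))), (.s k34
  k17 4 (.s k50 k49 0 (.s k58 k53 2 (.s k62 k54 1 (.d k2 k18 k22 3 5)))))] (.c k19 (.l (.s k59 k55 1
  (.s k25 k8 4 (.s k38 k12 6 (.d k34 k46 k17 1 4))))) (.c k55 (.l (.s k34 k17 4 (.s k15 k47 3 (.s
  k39 k27 5 (.s k38 k46 1 (.s k36 k37 0 (.d k12 k24 k25 5 6))))))) .n))) (.c k31 (.l (.s k16 k32 3
  (.s k17 k34 4 (.s k18 k19 0 (.s k33 k3 4 (.d k49 k50 k1 0 3)))))) .n))) (.c k31 (.l (.s k58 k53 2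
  (.s k32 k16 3 (.s k26 k10 3 (.d k37 k47 k15 2 6))))) (.c k32 (.f k53 k58 2 (.q k51 [(.s k34 k17 4
  (.s k38 k46 1 (.s k25 k12 6 (.d k59 k55 k8 1 4)))), (.s k49 k50 0 (.s k57 k61 1 (.s k54 k60 2 (.d
  k55 k52 k59 0 1)))), (.s k34 k17 4 (.s k38 k46 1 (.s k25 k12 6 (.s k49 k50 0 (.s k37 k13 5 (.s k15
  k26 6 (.d k39 k36 k27 0 5)))))))] (.c k101 (.q k239 [(.s k34 k17 4 (.s k38 k46 1 (.s k25 k12 6 (.d
  k59 k55 k8 1 4)))), (.s k49 k50 0 (.s k57 k61 1 (.s k54 k60 2 (.d k55 k52 k59 0 1)))), (.s k34 k17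
  4 (.s k38 k46 1 (.s k25 k12 6 (.s k49 k50 0 (.s k37 k13 5 (.s k15 k26 6 (.d k39 k36 k27 0
  5)))))))] .n) (.c k239 (.q k101 [(.s k34 k17 4 (.s k38 k46 1 (.s k25 k12 6 (.d k59 k55 k8 1 4)))),
  (.s k154 k207 14 (.s k149 k197 11 (.s k192 k106 14 (.d k144 k159 k96 2 11))))] .n) .n)))) (.c k37
  (.q k51 [(.s k34 k17 4 (.s k38 k46 1 (.s k25 k12 6 (.d k59 k55 k8 1 4)))), (.s k16 k32 3 (.s k17
  k34 4 (.s k18 k19 0 (.s k33 k3 4 (.d k49 k50 k1 0 3))))), (.s k49 k50 0 (.s k53 k58 2 (.s k57 k61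
  1 (.s k54 k60 2 (.d k55 k52 k59 0 1)))))] (.c k5 (.l (.s k53 k58 2 (.s k34 k17 4 (.s k38 k46 1 (.s
  k25 k12 6 (.d k59 k55 k8 1 4)))))) (.c k53 (.q k5 [(.s k34 k17 4 (.s k38 k46 1 (.s k25 k12 6 (.d
  k59 k55 k8 1 4)))), (.s k16 k32 3 (.s k17 k34 4 (.s k18 k19 0 (.s k33 k3 4 (.d k49 k50 k1 0
  3))))), (.s k10 k15 2 (.s k26 k58 3 (.s k50 k49 0 (.s k38 k14 5 (.s k59 k55 1 (.d k25 k12 k8 6
  4))))))] .n) .n))) (.c k47 (.q k51 [(.s k34 k17 4 (.s k38 k46 1 (.s k25 k12 6 (.d k59 k55 k8 1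
  4)))), (.s k16 k32 3 (.s k17 k34 4 (.s k18 k19 0 (.s k33 k3 4 (.d k49 k50 k1 0 3))))), (.s k49 k50
  0 (.s k53 k58 2 (.s k57 k61 1 (.s k54 k60 2 (.d k55 k52 k59 0 1)))))] .n) (.c k53 (.q k51 [(.s k34
  k17 4 (.s k38 k46 1 (.s k25 k12 6 (.d k59 k55 k8 1 4)))), (.s k16 k32 3 (.s k17 k34 4 (.s k18 k19
  0 (.s k33 k3 4 (.d k49 k50 k1 0 3))))), (.s k32 k16 3 (.s k37 k47 2 (.s k49 k50 0 (.s k25 k13 5
  (.d k59 k55 k8 1 4)))))] (.c k5 (.q k37 [(.d k32 k47 k16 2 3), (.s k49 k50 0 (.s k25 k13 5 (.d k59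
  k55 k8 1 4)))] .n) (.c k37 (.q k5 [(.s k34 k17 4 (.s k38 k46 1 (.s k25 k12 6 (.d k59 k55 k8 1
  4)))), (.s k16 k32 3 (.s k17 k34 4 (.s k18 k19 0 (.s k33 k3 4 (.d k49 k50 k1 0 3))))), (.s k10 k15
  2 (.s k26 k58 3 (.s k50 k49 0 (.s k38 k14 5 (.s k59 k55 1 (.d k25 k12 k8 6 4))))))] .n) .n))) (.c
  k58 (.q k51 [(.s k34 k17 4 (.s k38 k46 1 (.s k25 k12 6 (.d k59 k55 k8 1 4)))), (.s k16 k32 3 (.s
  k17 k34 4 (.s k18 k19 0 (.s k33 k3 4 (.d k49 k50 k1 0 3))))), (.s k32 k16 3 (.s k37 k47 2 (.s k49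
  k50 0 (.s k25 k13 5 (.d k59 k55 k8 1 4)))))] .n) .n))))))))))))

def t66 : T TT 256 :=
  (.f k42 k21 6 (.q k48 [(.s k32 k16 3 (.s k37 k47 2 (.s k26 k15 6 (.d k58 k53 k10 2 3))))] (.c k10
  (.q k51 [(.s k34 k17 4 (.s k38 k46 1 (.s k25 k12 6 (.d k59 k55 k8 1 4)))), (.s k16 k32 3 (.s k17
  k34 4 (.s k18 k19 0 (.s k33 k3 4 (.d k49 k50 k1 0 3))))), (.s k32 k16 3 (.s k37 k47 2 (.s k49 k50
  0 (.s k25 k13 5 (.d k59 k55 k8 1 4)))))] (.c k90 (.q k250 [(.s k34 k17 4 (.s k38 k46 1 (.s k25 k12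
  6 (.d k59 k55 k8 1 4)))), (.s k16 k32 3 (.s k17 k34 4 (.s k18 k19 0 (.s k33 k3 4 (.d k49 k50 k1 0
  3))))), (.s k32 k16 3 (.s k37 k47 2 (.s k49 k50 0 (.s k25 k13 5 (.d k59 k55 k8 1 4)))))] .n) (.c
  k250 (.q k90 [(.s k34 k17 4 (.s k38 k46 1 (.s k25 k12 6 (.d k59 k55 k8 1 4)))), (.s k16 k32 3 (.s
  k17 k34 4 (.s k18 k19 0 (.s k33 k3 4 (.d k49 k50 k1 0 3))))), (.s k32 k16 3 (.s k37 k47 2 (.s k49
  k50 0 (.s k25 k13 5 (.d k59 k55 k8 1 4)))))] .n) .n))) (.c k15 (.q k51 [(.s k34 k17 4 (.s k38 k46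
  1 (.s k59 k55 1 (.d k25 k8 k12 4 6)))), (.s k16 k32 3 (.s k17 k34 4 (.s k18 k19 0 (.s k33 k3 4 (.d
  k49 k50 k1 0 3))))), (.s k32 k16 3 (.s k37 k47 2 (.s k49 k50 0 (.s k25 k13 5 (.d k59 k55 k8 1
  4)))))] .n) (.c k16 (.q k51 [(.s k34 k17 4 (.s k38 k46 1 (.s k25 k12 6 (.d k59 k55 k8 1 4)))), (.s
  k49 k50 0 (.s k53 k58 2 (.s k57 k61 1 (.s k54 k60 2 (.d k55 k52 k59 0 1))))), (.s k34 k17 4 (.s
  k38 k46 1 (.s k50 k49 0 (.s k26 k14 5 (.d k58 k53 k10 2 3)))))] (.c k26 (.q k31 [(.s k34 k17 4 (.s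
  k38 k46 1 (.s k25 k12 6 (.d k59 k55 k8 1 4)))), (.s k15 k47 3 (.s k27 k39 5 (.s k59 k55 1 (.s k43
  k11 3 (.d k23 k19 k3 1 5))))), (.s k34 k17 4 (.s k50 k49 0 (.s k58 k53 2 (.s k62 k54 1 (.d k2 k18
  k22 3 5)))))] (.c k19 (.l (.s k59 k55 1 (.s k25 k8 4 (.s k38 k12 6 (.d k34 k46 k17 1 4))))) (.c
  k55 (.l (.s k34 k17 4 (.s k15 k47 3 (.s k39 k27 5 (.s k38 k46 1 (.s k36 k37 0 (.d k12 k24 k25 5
  6))))))) .n))) (.c k31 (.q k26 [(.d k58 k53 k10 2 3), (.s k34 k17 4 (.s k38 k46 1 (.d k50 k49 k14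
  0 5)))] .n) .n))) (.c k26 (.q k51 [(.s k34 k17 4 (.s k38 k46 1 (.s k25 k12 6 (.d k59 k55 k8 1
  4)))), (.s k16 k32 3 (.s k17 k34 4 (.s k18 k19 0 (.s k33 k3 4 (.d k49 k50 k1 0 3))))), (.s k49 k50
  0 (.s k53 k58 2 (.s k57 k61 1 (.s k54 k60 2 (.d k55 k52 k59 0 1)))))] (.c k16 (.q k31 [(.s k34 k17
  4 (.s k38 k46 1 (.s k25 k12 6 (.d k59 k55 k8 1 4)))), (.s k15 k47 3 (.s k27 k39 5 (.s k59 k55 1
  (.s k43 k11 3 (.d k23 k19 k3 1 5))))), (.s k34 k17 4 (.s k50 k49 0 (.s k58 k53 2 (.s k62 k54 1 (.d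
  k2 k18 k22 3 5)))))] (.c k19 (.l (.s k59 k55 1 (.s k25 k8 4 (.s k38 k12 6 (.d k34 k46 k17 1 4)))))
  (.c k55 (.l (.s k34 k17 4 (.s k15 k47 3 (.s k39 k27 5 (.s k38 k46 1 (.s k36 k37 0 (.d k12 k24 k25
  5 6))))))) .n))) (.c k31 (.l (.s k16 k32 3 (.s k17 k34 4 (.s k18 k19 0 (.s k33 k3 4 (.d k49 k50 k1
  0 3)))))) .n))) (.c k31 (.l (.s k58 k53 2 (.s k32 k16 3 (.s k26 k10 3 (.d k37 k47 k15 2 6))))) (.c
  k32 (.f k53 k58 2 (.q k51 [(.s k34 k17 4 (.s k38 k46 1 (.s k25 k12 6 (.d k59 k55 k8 1 4)))), (.s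
  k49 k50 0 (.s k57 k61 1 (.s k54 k60 2 (.d k55 k52 k59 0 1)))), (.s k34 k17 4 (.s k38 k46 1 (.s k25
  k12 6 (.s k49 k50 0 (.s k37 k13 5 (.s k15 k26 6 (.d k39 k36 k27 0 5)))))))] (.c k101 (.q k239 [(.s
  k34 k17 4 (.s k38 k46 1 (.s k25 k12 6 (.d k59 k55 k8 1 4)))), (.s k49 k50 0 (.s k57 k61 1 (.s k54
  k60 2 (.d k55 k52 k59 0 1)))), (.s k34 k17 4 (.s k38 k46 1 (.s k25 k12 6 (.s k49 k50 0 (.s k37 k13
  5 (.s k15 k26 6 (.d k39 k36 k27 0 5)))))))] .n) (.c k239 (.q k101 [(.s k34 k17 4 (.s k38 k46 1 (.s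
  k25 k12 6 (.d k59 k55 k8 1 4)))), (.s k154 k207 14 (.s k149 k197 11 (.s k192 k106 14 (.d k144 k159
  k96 2 11))))] .n) .n)))) (.c k37 (.q k51 [(.s k34 k17 4 (.s k38 k46 1 (.s k25 k12 6 (.d k59 k55 k8
  1 4)))), (.s k16 k32 3 (.s k17 k34 4 (.s k18 k19 0 (.s k33 k3 4 (.d k49 k50 k1 0 3))))), (.s k49
  k50 0 (.s k53 k58 2 (.s k57 k61 1 (.s k54 k60 2 (.d k55 k52 k59 0 1)))))] (.c k5 (.l (.s k53 k58 2
  (.s k34 k17 4 (.s k38 k46 1 (.s k25 k12 6 (.d k59 k55 k8 1 4)))))) (.c k53 (.q k5 [(.s k34 k17 4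
  (.s k38 k46 1 (.s k25 k12 6 (.d k59 k55 k8 1 4)))), (.s k16 k32 3 (.s k17 k34 4 (.s k18 k19 0 (.s
  k33 k3 4 (.d k49 k50 k1 0 3))))), (.s k10 k15 2 (.s k26 k58 3 (.s k50 k49 0 (.s k38 k14 5 (.s k59
  k55 1 (.d k25 k12 k8 6 4))))))] .n) .n))) (.c k47 (.q k51 [(.s k34 k17 4 (.s k38 k46 1 (.s k25 k12
  6 (.d k59 k55 k8 1 4)))), (.s k16 k32 3 (.s k17 k34 4 (.s k18 k19 0 (.s k33 k3 4 (.d k49 k50 k1 0
  3))))), (.s k49 k50 0 (.s k53 k58 2 (.s k57 k61 1 (.s k54 k60 2 (.d k55 k52 k59 0 1)))))] .n) (.c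
  k53 (.q k51 [(.s k34 k17 4 (.s k38 k46 1 (.s k25 k12 6 (.d k59 k55 k8 1 4)))), (.s k16 k32 3 (.s
  k17 k34 4 (.s k18 k19 0 (.s k33 k3 4 (.d k49 k50 k1 0 3))))), (.s k32 k16 3 (.s k37 k47 2 (.s k49
  k50 0 (.s k25 k13 5 (.d k59 k55 k8 1 4)))))] (.c k5 (.q k37 [(.d k32 k47 k16 2 3), (.s k49 k50 0
  (.s k25 k13 5 (.d k59 k55 k8 1 4)))] .n) (.c k37 (.q k5 [(.s k34 k17 4 (.s k38 k46 1 (.s k25 k12 6
  (.d k59 k55 k8 1 4)))), (.s k16 k32 3 (.s k17 k34 4 (.s k18 k19 0 (.s k33 k3 4 (.d k49 k50 k1 0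
  3))))), (.s k10 k15 2 (.s k26 k58 3 (.s k50 k49 0 (.s k38 k14 5 (.s k59 k55 1 (.d k25 k12 k8 6
  4))))))] .n) .n))) (.c k58 (.q k51 [(.s k34 k17 4 (.s k38 k46 1 (.s k25 k12 6 (.d k59 k55 k8 1
  4)))), (.s k16 k32 3 (.s k17 k34 4 (.s k18 k19 0 (.s k33 k3 4 (.d k49 k50 k1 0 3))))), (.s k32 k16
  3 (.s k37 k47 2 (.s k49 k50 0 (.s k25 k13 5 (.d k59 k55 k8 1 4)))))] .n) .n))))))))))))

def t67 : T TT 256 :=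
  (.f k42 k21 6 (.q k48 [(.s k32 k16 3 (.s k37 k47 2 (.s k26 k15 6 (.d k58 k53 k10 2 3))))] (.c k10
  (.f k53 k58 2 (.q k51 [(.s k34 k17 4 (.s k38 k46 1 (.s k25 k12 6 (.d k59 k55 k8 1 4)))), (.s k49
  k50 0 (.s k57 k61 1 (.s k54 k60 2 (.d k55 k52 k59 0 1)))), (.s k16 k32 3 (.s k17 k34 4 (.s k18 k19
  0 (.s k33 k3 4 (.d k49 k50 k1 0 3)))))] (.c k90 (.q k250 [(.s k34 k17 4 (.s k38 k46 1 (.s k25 k12
  6 (.d k59 k55 k8 1 4)))), (.s k49 k50 0 (.s k57 k61 1 (.s k54 k60 2 (.d k55 k52 k59 0 1)))), (.s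
  k16 k32 3 (.s k17 k34 4 (.s k18 k19 0 (.s k33 k3 4 (.d k49 k50 k1 0 3)))))] .n) (.c k250 (.q k90
  [(.s k34 k17 4 (.s k38 k46 1 (.s k25 k12 6 (.d k59 k55 k8 1 4)))), (.s k49 k50 0 (.s k57 k61 1 (.s
  k54 k60 2 (.d k55 k52 k59 0 1)))), (.s k16 k32 3 (.s k17 k34 4 (.s k18 k19 0 (.s k33 k3 4 (.d k49
  k50 k1 0 3)))))] (.c k122 (.q k186 [(.s k34 k17 4 (.s k38 k46 1 (.s k25 k12 6 (.d k59 k55 k8 1
  4)))), (.s k49 k50 0 (.s k57 k61 1 (.s k54 k60 2 (.d k55 k52 k59 0 1)))), (.s k16 k32 3 (.s k17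
  k34 4 (.s k18 k19 0 (.s k33 k3 4 (.d k49 k50 k1 0 3)))))] .n) (.c k186 (.q k122 [(.s k34 k17 4 (.s
  k38 k46 1 (.s k25 k12 6 (.d k59 k55 k8 1 4)))), (.s k32 k16 3 (.s k37 k47 2 (.s k240 k181 10 (.d
  k15 k26 k165 6 14))))] (.c k138 (.q k154 [(.s k101 k207 14 (.s k149 k197 11 (.d k106 k74 k192 3
  14))), (.s k32 k16 3 (.s k26 k218 7 (.d k37 k47 k15 2 6)))] (.c k74 (.q k202 [(.s k26 k218 7 (.s
  k15 k37 6 (.d k240 k181 k165 10 14))), (.s k101 k207 14 (.s k240 k181 10 (.d k112 k176 k79 7 6))),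
  (.s k32 k16 3 (.s k26 k218 7 (.d k37 k47 k15 2 6)))] .n) (.c k202 (.l (.s k74 k106 3 (.s k32 k16 3
  (.s k37 k47 2 (.d k26 k15 k218 6 7))))) .n))) (.c k154 (.q k138 [(.s k34 k17 4 (.s k38 k46 1 (.s
  k25 k12 6 (.d k59 k55 k8 1 4)))), (.s k32 k16 3 (.s k37 k47 2 (.s k240 k181 10 (.d k15 k26 k165 6
  14))))] (.c k106 (.q k202 [(.s k34 k17 4 (.s k38 k46 1 (.s k25 k12 6 (.d k59 k55 k8 1 4)))), (.s
  k32 k16 3 (.s k37 k47 2 (.s k240 k181 10 (.d k15 k26 k165 6 14))))] .n) (.c k202 (.l (.s k106 k74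
  3 (.s k32 k16 3 (.s k37 k47 2 (.s k240 k181 10 (.d k15 k26 k165 6 14)))))) .n))) .n))) .n)))
  .n)))) (.c k15 (.q k51 [(.s k34 k17 4 (.s k38 k46 1 (.s k59 k55 1 (.d k25 k8 k12 4 6)))), (.s k16
  k32 3 (.s k17 k34 4 (.s k18 k19 0 (.s k33 k3 4 (.d k49 k50 k1 0 3))))), (.s k32 k16 3 (.s k37 k47
  2 (.s k49 k50 0 (.s k25 k13 5 (.d k59 k55 k8 1 4)))))] .n) (.c k16 (.q k51 [(.s k34 k17 4 (.s k38
  k46 1 (.s k25 k12 6 (.d k59 k55 k8 1 4)))), (.s k49 k50 0 (.s k53 k58 2 (.s k57 k61 1 (.s k54 k60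
  2 (.d k55 k52 k59 0 1))))), (.s k34 k17 4 (.s k38 k46 1 (.s k50 k49 0 (.s k26 k14 5 (.d k58 k53
  k10 2 3)))))] (.c k26 (.q k31 [(.s k34 k17 4 (.s k38 k46 1 (.s k25 k12 6 (.d k59 k55 k8 1 4)))),
  (.s k15 k47 3 (.s k27 k39 5 (.s k59 k55 1 (.s k43 k11 3 (.d k23 k19 k3 1 5))))), (.s k34 k17 4 (.s
  k50 k49 0 (.s k58 k53 2 (.s k62 k54 1 (.d k2 k18 k22 3 5)))))] (.c k19 (.l (.s k59 k55 1 (.s k25
  k8 4 (.s k38 k12 6 (.d k34 k46 k17 1 4))))) (.c k55 (.l (.s k34 k17 4 (.s k15 k47 3 (.s k39 k27 5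
  (.s k38 k46 1 (.s k36 k37 0 (.d k12 k24 k25 5 6))))))) .n))) (.c k31 (.q k26 [(.d k58 k53 k10 2
  3), (.s k34 k17 4 (.s k38 k46 1 (.d k50 k49 k14 0 5)))] .n) .n))) (.c k26 (.q k51 [(.s k34 k17 4
  (.s k38 k46 1 (.s k25 k12 6 (.d k59 k55 k8 1 4)))), (.s k16 k32 3 (.s k17 k34 4 (.s k18 k19 0 (.s
  k33 k3 4 (.d k49 k50 k1 0 3))))), (.s k49 k50 0 (.s k53 k58 2 (.s k57 k61 1 (.s k54 k60 2 (.d k55
  k52 k59 0 1)))))] (.c k16 (.q k31 [(.s k34 k17 4 (.s k38 k46 1 (.s k25 k12 6 (.d k59 k55 k8 1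
  4)))), (.s k15 k47 3 (.s k27 k39 5 (.s k59 k55 1 (.s k43 k11 3 (.d k23 k19 k3 1 5))))), (.s k34
  k17 4 (.s k50 k49 0 (.s k58 k53 2 (.s k62 k54 1 (.d k2 k18 k22 3 5)))))] (.c k19 (.l (.s k59 k55 1
  (.s k25 k8 4 (.s k38 k12 6 (.d k34 k46 k17 1 4))))) (.c k55 (.l (.s k34 k17 4 (.s k15 k47 3 (.s
  k39 k27 5 (.s k38 k46 1 (.s k36 k37 0 (.d k12 k24 k25 5 6))))))) .n))) (.c k31 (.l (.s k16 k32 3
  (.s k17 k34 4 (.s k18 k19 0 (.s k33 k3 4 (.d k49 k50 k1 0 3)))))) .n))) (.c k31 (.l (.s k58 k53 2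
  (.s k32 k16 3 (.s k26 k10 3 (.d k37 k47 k15 2 6))))) (.c k32 (.f k53 k58 2 (.q k51 [(.s k34 k17 4
  (.s k38 k46 1 (.s k25 k12 6 (.d k59 k55 k8 1 4)))), (.s k49 k50 0 (.s k57 k61 1 (.s k54 k60 2 (.d
  k55 k52 k59 0 1)))), (.s k34 k17 4 (.s k38 k46 1 (.s k25 k12 6 (.s k49 k50 0 (.s k37 k13 5 (.s k15
  k26 6 (.d k39 k36 k27 0 5)))))))] (.c k101 (.q k239 [(.s k34 k17 4 (.s k38 k46 1 (.s k25 k12 6 (.d
  k59 k55 k8 1 4)))), (.s k49 k50 0 (.s k57 k61 1 (.s k54 k60 2 (.d k55 k52 k59 0 1)))), (.s k34 k17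
  4 (.s k38 k46 1 (.s k25 k12 6 (.s k49 k50 0 (.s k37 k13 5 (.s k15 k26 6 (.d k39 k36 k27 0
  5)))))))] .n) (.c k239 (.q k101 [(.s k34 k17 4 (.s k38 k46 1 (.s k25 k12 6 (.d k59 k55 k8 1 4)))),
  (.s k154 k207 14 (.s k149 k197 11 (.s k192 k106 14 (.d k144 k159 k96 2 11))))] .n) .n)))) (.c k37
  (.q k51 [(.s k34 k17 4 (.s k38 k46 1 (.s k25 k12 6 (.d k59 k55 k8 1 4)))), (.s k16 k32 3 (.s k17
  k34 4 (.s k18 k19 0 (.s k33 k3 4 (.d k49 k50 k1 0 3))))), (.s k49 k50 0 (.s k53 k58 2 (.s k57 k61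
  1 (.s k54 k60 2 (.d k55 k52 k59 0 1)))))] (.c k5 (.l (.s k53 k58 2 (.s k34 k17 4 (.s k38 k46 1 (.s
  k25 k12 6 (.d k59 k55 k8 1 4)))))) (.c k53 (.q k5 [(.s k34 k17 4 (.s k38 k46 1 (.s k25 k12 6 (.d
  k59 k55 k8 1 4)))), (.s k16 k32 3 (.s k17 k34 4 (.s k18 k19 0 (.s k33 k3 4 (.d k49 k50 k1 0
  3))))), (.s k10 k15 2 (.s k26 k58 3 (.s k50 k49 0 (.s k38 k14 5 (.s k59 k55 1 (.d k25 k12 k8 6
  4))))))] .n) .n))) (.c k47 (.q k51 [(.s k34 k17 4 (.s k38 k46 1 (.s k25 k12 6 (.d k59 k55 k8 1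
  4)))), (.s k16 k32 3 (.s k17 k34 4 (.s k18 k19 0 (.s k33 k3 4 (.d k49 k50 k1 0 3))))), (.s k49 k50
  0 (.s k53 k58 2 (.s k57 k61 1 (.s k54 k60 2 (.d k55 k52 k59 0 1)))))] .n) (.c k53 (.q k51 [(.s k34
  k17 4 (.s k38 k46 1 (.s k25 k12 6 (.d k59 k55 k8 1 4)))), (.s k16 k32 3 (.s k17 k34 4 (.s k18 k19
  0 (.s k33 k3 4 (.d k49 k50 k1 0 3))))), (.s k32 k16 3 (.s k37 k47 2 (.s k49 k50 0 (.s k25 k13 5
  (.d k59 k55 k8 1 4)))))] (.c k5 (.q k37 [(.d k32 k47 k16 2 3), (.s k49 k50 0 (.s k25 k13 5 (.d k59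
  k55 k8 1 4)))] .n) (.c k37 (.q k5 [(.s k34 k17 4 (.s k38 k46 1 (.s k25 k12 6 (.d k59 k55 k8 1
  4)))), (.s k16 k32 3 (.s k17 k34 4 (.s k18 k19 0 (.s k33 k3 4 (.d k49 k50 k1 0 3))))), (.s k10 k15
  2 (.s k26 k58 3 (.s k50 k49 0 (.s k38 k14 5 (.s k59 k55 1 (.d k25 k12 k8 6 4))))))] .n) .n))) (.c
  k58 (.q k51 [(.s k34 k17 4 (.s k38 k46 1 (.s k25 k12 6 (.d k59 k55 k8 1 4)))), (.s k16 k32 3 (.s
  k17 k34 4 (.s k18 k19 0 (.s k33 k3 4 (.d k49 k50 k1 0 3))))), (.s k32 k16 3 (.s k37 k47 2 (.s k49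
  k50 0 (.s k25 k13 5 (.d k59 k55 k8 1 4)))))] .n) .n))))))))))))

def t69 : T TT 256 :=
  (.q k3 [(.s k2 k1 0 (.s k42 k21 6 (.s k22 k62 5 (.s k41 k60 6 (.d k43 k40 k23 0 5))))), (.s k1 k2
  0 (.s k21 k42 6 (.s k41 k61 5 (.s k22 k60 6 (.d k23 k20 k43 0 5)))))] (.c k1 (.q k51 [(.s k19 k35
  3 (.s k23 k43 5 (.s k27 k31 1 (.s k39 k15 5 (.d k55 k59 k7 1 3))))), (.s k17 k34 4 (.s k21 k42 6
  (.s k25 k29 1 (.s k38 k12 6 (.d k55 k59 k4 1 4))))), (.s k17 k34 4 (.s k21 k42 6 (.s k19 k35 3 (.s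
  k23 k43 5 (.s k16 k18 0 (.d k31 k27 k26 1 2))))))] (.c k137 (.q k205 [(.s k19 k35 3 (.s k23 k43 5
  (.s k27 k31 1 (.s k39 k15 5 (.d k55 k59 k7 1 3))))), (.s k17 k34 4 (.s k21 k42 6 (.s k25 k29 1 (.s
  k38 k12 6 (.d k55 k59 k4 1 4))))), (.s k17 k34 4 (.s k21 k42 6 (.s k19 k35 3 (.s k23 k43 5 (.s k16
  k18 0 (.d k31 k27 k26 1 2))))))] .n) (.c k205 (.q k137 [(.s k19 k35 3 (.s k23 k43 5 (.s k27 k31 1
  (.s k39 k15 5 (.d k55 k59 k7 1 3))))), (.s k17 k34 4 (.s k21 k42 6 (.s k25 k29 1 (.s k38 k12 6 (.d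
  k55 k59 k4 1 4))))), (.s k19 k35 3 (.s k204 k70 10 (.s k153 k102 14 (.s k86 k220 10 (.d k169 k185
  k252 3 14)))))] .n) .n))) (.c k2 (.f k42 k21 6 (.q k51 [(.s k34 k17 4 (.s k38 k46 1 (.s k25 k12 6
  (.d k59 k55 k8 1 4)))), (.s k19 k35 3 (.s k23 k43 5 (.s k27 k31 1 (.s k39 k15 5 (.d k55 k59 k7 1
  3))))), (.s k34 k17 4 (.s k35 k19 3 (.s k43 k23 5 (.s k32 k33 0 (.d k47 k39 k37 1 2)))))] (.c k86
  (.q k254 [(.s k34 k17 4 (.s k38 k46 1 (.s k25 k12 6 (.d k59 k55 k8 1 4)))), (.s k19 k35 3 (.s k23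
  k43 5 (.s k27 k31 1 (.s k39 k15 5 (.d k55 k59 k7 1 3))))), (.s k34 k17 4 (.s k35 k19 3 (.s k43 k23
  5 (.s k32 k33 0 (.d k47 k39 k37 1 2)))))] .n) (.c k254 (.q k86 [(.s k34 k17 4 (.s k38 k46 1 (.s
  k25 k12 6 (.d k59 k55 k8 1 4)))), (.s k19 k35 3 (.s k23 k43 5 (.s k27 k31 1 (.s k39 k15 5 (.d k55
  k59 k7 1 3))))), (.s k34 k17 4 (.s k35 k19 3 (.s k43 k23 5 (.s k32 k33 0 (.d k47 k39 k37 1 2)))))]
  .n) .n)))) (.c k21 (.q k192 [(.s k1 k2 0 (.s k129 k66 8 (.s k65 k193 7 (.s k130 k195 8 (.d k128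
  k131 k64 0 7))))), (.s k23 k43 5 (.s k129 k66 8 (.s k149 k106 14 (.s k86 k212 8 (.d k169 k189 k252
  5 14))))), (.s k1 k2 0 (.s k43 k23 5 (.s k106 k149 14 (.s k169 k232 8 (.s k85 k253 13 (.d k64 k128
  k127 7 6))))))] (.c k86 (.l (.s k2 k1 0 (.s k64 k128 7 (.s k66 k129 8 (.s k130 k194 7 (.d k65 k67
  k195 0 8)))))) .n)) (.c k22 (.q k192 [(.s k23 k43 5 (.s k129 k66 8 (.s k149 k106 14 (.s k86 k212 8
  (.d k169 k189 k252 5 14))))), (.s k2 k1 0 (.s k64 k128 7 (.s k66 k129 8 (.s k130 k194 7 (.d k65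
  k67 k195 0 8))))), (.s k1 k2 0 (.s k43 k23 5 (.s k106 k149 14 (.s k169 k232 8 (.s k85 k253 13 (.d
  k64 k128 k127 7 6))))))] (.c k149 (.l (.s k1 k2 0 (.s k128 k64 7 (.s k129 k66 8 (.s k65 k193 7 (.d
  k130 k131 k195 0 8)))))) .n)) (.c k23 (.q k51 [(.s k2 k1 0 (.s k34 k17 4 (.s k18 k50 3 (.s k33 k48
  4 (.d k35 k32 k19 0 3))))), (.s k17 k34 4 (.s k21 k42 6 (.s k25 k29 1 (.s k38 k12 6 (.d k55 k59 k4
  1 4))))), (.s k1 k2 0 (.s k21 k42 6 (.s k41 k61 5 (.s k35 k19 3 (.s k38 k44 2 (.d k55 k59 k4 1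
  4))))))] .n) (.c k41 (.q k51 [(.s k1 k2 0 (.s k17 k34 4 (.s k33 k49 3 (.s k18 k48 4 (.d k19 k16
  k35 0 3))))), (.s k19 k35 3 (.s k23 k43 5 (.s k27 k31 1 (.s k39 k15 5 (.d k55 k59 k7 1 3))))), (.s
  k17 k34 4 (.s k21 k42 6 (.s k25 k29 1 (.s k38 k12 6 (.d k55 k59 k4 1 4)))))] .n) (.c k42 (.q k192
  [(.s k43 k23 5 (.s k66 k129 8 (.s k106 k149 14 (.s k169 k232 8 (.d k86 k126 k252 5 14))))), (.s k1
  k2 0 (.s k128 k64 7 (.s k129 k66 8 (.s k65 k193 7 (.d k130 k131 k195 0 8))))), (.s k1 k2 0 (.s k43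
  k23 5 (.s k106 k149 14 (.s k169 k232 8 (.s k85 k253 13 (.d k64 k128 k127 7 6))))))] (.c k86 (.l
  (.s k2 k1 0 (.s k64 k128 7 (.s k66 k129 8 (.s k130 k194 7 (.d k65 k67 k195 0 8)))))) (.c k106 (.q
  k234 [(.s k2 k1 0 (.s k64 k128 7 (.s k66 k129 8 (.s k65 k67 0 (.d k130 k194 k195 7 8))))), (.s k23
  k43 5 (.s k255 k213 6 (.s k87 k171 13 (.s k151 k215 7 (.s k107 k195 13 (.d k127 k67 k191 5
  7)))))), (.s k1 k2 0 (.s k129 k66 8 (.s k65 k193 7 (.s k130 k195 8 (.d k128 k131 k64 0 7)))))] (.c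
  k195 (.l (.s k64 k128 7 (.s k66 k129 8 (.s k67 k65 0 (.s k255 k213 6 (.s k87 k171 13 (.d k127 k191
  k107 7 5))))))) .n)) (.c k128 (.q k234 [(.s k129 k66 8 (.s k149 k106 14 (.s k169 k189 5 (.s k86
  k252 14 (.d k23 k43 k212 5 8))))), (.s k43 k23 5 (.s k255 k213 6 (.s k171 k87 13 (.s k107 k235 7
  (.s k151 k195 13 (.d k191 k131 k127 5 7)))))), (.s k1 k2 0 (.s k129 k66 8 (.s k149 k106 14 (.s
  k169 k189 5 (.s k85 k253 13 (.d k213 k255 k21 6 7))))))] (.c k149 (.q k191 [(.d k255 k213 k127 6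
  7)] (.c k127 (.l (.s k43 k23 5 (.s k255 k213 6 (.s k171 k87 13 (.s k107 k235 7 (.d k151 k131 k195
  5 13)))))) (.c k213 (.l (.s k43 k23 5 (.s k255 k127 7 (.s k171 k87 13 (.s k107 k235 7 (.d k151
  k131 k195 5 13)))))) (.c k255 (.q k51 [(.s k2 k1 0 (.s k34 k17 4 (.s k18 k50 3 (.s k33 k48 4 (.d
  k35 k32 k19 0 3))))), (.s k19 k35 3 (.s k23 k43 5 (.s k27 k31 1 (.s k39 k15 5 (.d k55 k59 k7 1
  3))))), (.s k1 k2 0 (.s k17 k34 4 (.s k129 k66 8 (.s k193 k65 7 (.s k145 k98 12 (.d k49 k33 k97 3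
  11))))))] .n) .n)))) (.c k191 (.l (.s k149 k106 14 (.s k23 k43 5 (.s k129 k66 8 (.s k86 k212 8 (.d
  k169 k189 k252 5 14)))))) .n))) (.c k234 (.l (.s k106 k149 14 (.s k43 k23 5 (.s k66 k129 8 (.s
  k169 k232 8 (.d k86 k126 k252 5 14)))))) .n))))) (.c k43 (.q k51 [(.s k2 k1 0 (.s k34 k17 4 (.s
  k18 k50 3 (.s k33 k48 4 (.d k35 k32 k19 0 3))))), (.s k17 k34 4 (.s k21 k42 6 (.s k25 k29 1 (.s
  k38 k12 6 (.d k55 k59 k4 1 4))))), (.s k1 k2 0 (.s k21 k42 6 (.s k41 k61 5 (.s k35 k19 3 (.s k38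
  k44 2 (.d k55 k59 k4 1 4))))))] .n) (.c k60 (.q k51 [(.s k19 k35 3 (.s k23 k43 5 (.s k27 k31 1 (.s
  k39 k15 5 (.d k55 k59 k7 1 3))))), (.s k1 k2 0 (.s k17 k34 4 (.s k33 k49 3 (.s k18 k48 4 (.d k19
  k16 k35 0 3))))), (.s k17 k34 4 (.s k21 k42 6 (.s k25 k29 1 (.s k38 k12 6 (.d k55 k59 k4 1 4)))))]
  .n) (.c k61 (.l (.s k2 k1 0 (.s k43 k23 5 (.s k42 k21 6 (.s k41 k40 0 (.d k22 k62 k60 5 6))))))
  (.c k62 (.l (.s k1 k2 0 (.s k23 k43 5 (.s k21 k42 6 (.s k22 k20 0 (.d k41 k61 k60 5 6))))))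
  .n))))))))))))

def t70 : T TT 256 :=
  (.q k15 [(.s k10 k5 2 (.s k42 k21 6 (.s k26 k58 3 (.s k37 k48 6 (.d k47 k32 k31 2 3)))))] (.c k5
  (.q k60 [(.s k30 k45 4 (.s k31 k47 3 (.s k29 k28 0 (.s k46 k12 4 (.d k62 k61 k14 0 3))))), (.s k20
  k40 5 (.s k21 k42 6 (.s k22 k23 0 (.s k41 k3 6 (.d k61 k62 k1 0 5))))), (.s k20 k40 5 (.s k21 k42
  6 (.s k30 k45 4 (.s k31 k47 3 (.s k16 k26 2 (.d k28 k29 k24 0 1))))))] .n) (.c k10 (.f k31 k47 3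
  (.f k42 k21 6 (.q k12 [(.s k8 k4 1 (.s k25 k59 4 (.s k38 k51 6 (.d k46 k34 k29 1 4)))), (.s k13
  k14 0 (.s k29 k46 4 (.s k45 k61 3 (.d k30 k28 k60 0 4)))), (.s k8 k4 1 (.s k25 k59 4 (.s k13 k14 0
  (.s k38 k51 6 (.s k37 k49 5 (.s k48 k26 6 (.d k36 k39 k24 0 5)))))))] (.c k90 (.q k250 [(.s k8 k4
  1 (.s k25 k59 4 (.s k38 k51 6 (.d k46 k34 k29 1 4)))), (.s k13 k14 0 (.s k29 k46 4 (.s k45 k61 3
  (.d k30 k28 k60 0 4)))), (.s k8 k4 1 (.s k25 k59 4 (.s k13 k14 0 (.s k38 k51 6 (.s k37 k49 5 (.s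
  k48 k26 6 (.d k36 k39 k24 0 5)))))))] .n) (.c k250 (.q k90 [(.s k8 k4 1 (.s k25 k59 4 (.s k38 k51
  6 (.d k46 k34 k29 1 4)))), (.s k165 k240 14 (.s k149 k208 10 (.s k192 k106 14 (.d k133 k181 k74 3
  10))))] .n) .n))))) (.c k21 (.f k31 k47 3 (.q k13 [(.s k12 k14 0 (.s k29 k46 4 (.s k30 k28 0 (.d
  k45 k61 k60 3 4)))), (.s k5 k10 2 (.s k1 k9 1 (.s k3 k2 0 (.s k23 k43 5 (.s k27 k19 1 (.s k39 k51
  5 (.d k7 k11 k55 1 3)))))))] (.c k14 (.q k12 [(.s k29 k46 4 (.s k30 k28 0 (.d k45 k61 k60 3 4))),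
  (.s k4 k8 1 (.s k5 k10 2 (.s k6 k7 0 (.d k9 k1 k3 1 2))))] .n) .n))) (.c k26 (.q k60 [(.s k30 k45
  4 (.s k31 k47 3 (.s k29 k28 0 (.s k46 k12 4 (.d k62 k61 k14 0 3))))), (.s k20 k40 5 (.s k21 k42 6
  (.s k22 k23 0 (.s k41 k3 6 (.d k61 k62 k1 0 5))))), (.s k40 k20 5 (.s k42 k21 6 (.s k45 k30 4 (.s
  k41 k43 0 (.s k37 k33 1 (.d k47 k31 k32 3 2))))))] .n) (.c k31 (.q k12 [(.s k8 k4 1 (.s k10 k5 2
  (.s k9 k11 0 (.s k6 k3 2 (.d k14 k13 k2 0 1))))), (.s k4 k8 1 (.s k21 k42 6 (.s k38 k55 4 (.s k25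
  k51 6 (.d k29 k17 k46 1 4))))), (.s k5 k10 2 (.s k21 k42 6 (.s k37 k53 3 (.s k13 k14 0 (.s k29 k46
  4 (.d k25 k17 k49 1 5))))))] .n) (.c k32 (.l (.s k5 k10 2 (.s k21 k42 6 (.s k37 k53 3 (.s k26 k48
  6 (.d k31 k47 k16 3 2)))))) (.c k37 (.q k12 [(.s k13 k14 0 (.s k29 k46 4 (.s k45 k61 3 (.s k30 k60
  4 (.d k31 k28 k47 0 3))))), (.s k4 k8 1 (.s k5 k10 2 (.s k6 k7 0 (.s k9 k3 2 (.d k13 k14 k1 0
  1))))), (.s k4 k8 1 (.s k21 k42 6 (.s k38 k55 4 (.s k25 k51 6 (.d k29 k17 k46 1 4)))))] .n) (.c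
  k42 (.q k106 [(.s k47 k31 3 (.s k165 k224 10 (.s k90 k240 14 (.s k192 k149 14 (.d k74 k122 k133 3
  10))))), (.s k5 k10 2 (.s k192 k149 14 (.s k128 k64 7 (.s k133 k74 10 (.s k69 k197 7 (.d k138 k143
  k207 2 10)))))), (.s k31 k47 3 (.s k149 k192 14 (.s k90 k208 10 (.s k240 k165 14 (.d k122 k74 k181
  3 10)))))] (.c k74 (.l (.s k47 k31 3 (.s k165 k224 10 (.s k240 k90 14 (.s k149 k192 14 (.d k181
  k133 k122 3 10)))))) (.c k90 (.l (.s k10 k5 2 (.s k192 k149 14 (.s k74 k133 10 (.s k138 k202 7 (.s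
  k69 k207 10 (.d k64 k128 k79 7 2))))))) (.c k149 (.f k5 k10 2 (.l (.s k47 k31 3 (.s k165 k224 10
  (.s k85 k245 11 (.s k90 k240 14 (.s k64 k127 6 (.s k74 k122 3 (.d k192 k128 k133 7 10))))))))) (.c
  k192 (.f k5 k10 2 (.l (.s k47 k31 3 (.s k165 k224 10 (.s k85 k245 11 (.s k127 k64 6 (.s k255 k191
  7 (.s k95 k175 11 (.d k90 k240 k80 14 2))))))))) .n))))) (.c k47 (.q k12 [(.s k8 k4 1 (.s k10 k5 2
  (.s k9 k11 0 (.s k6 k3 2 (.d k14 k13 k2 0 1))))), (.s k4 k8 1 (.s k21 k42 6 (.s k38 k55 4 (.s k25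
  k51 6 (.d k29 k17 k46 1 4))))), (.s k5 k10 2 (.s k21 k42 6 (.s k37 k53 3 (.s k13 k14 0 (.s k29 k46
  4 (.d k25 k17 k49 1 5))))))] .n) (.c k48 (.q k12 [(.s k13 k14 0 (.s k29 k46 4 (.s k45 k61 3 (.s
  k30 k60 4 (.d k31 k28 k47 0 3))))), (.s k4 k8 1 (.s k5 k10 2 (.s k6 k7 0 (.s k9 k3 2 (.d k13 k14
  k1 0 1))))), (.s k4 k8 1 (.s k21 k42 6 (.s k38 k55 4 (.s k25 k51 6 (.d k29 k17 k46 1 4)))))] .n)
  (.c k53 (.l (.s k10 k5 2 (.s k47 k31 3 (.s k42 k21 6 (.s k37 k32 2 (.d k26 k58 k48 3 6)))))) (.c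
  k58 (.l (.s k5 k10 2 (.s k31 k47 3 (.s k21 k42 6 (.s k26 k16 2 (.d k37 k53 k48 3 6))))))
  .n)))))))))))))

def t71 : T TT 256 :=
  (.q k3 [(.s k2 k1 0 (.s k42 k21 6 (.s k22 k62 5 (.s k41 k60 6 (.d k43 k40 k23 0 5)))))] (.c k1 (.q
  k51 [(.s k19 k35 3 (.s k23 k43 5 (.s k27 k31 1 (.s k39 k15 5 (.d k55 k59 k7 1 3))))), (.s k17 k34
  4 (.s k21 k42 6 (.s k25 k29 1 (.s k38 k12 6 (.d k55 k59 k4 1 4))))), (.s k17 k34 4 (.s k21 k42 6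
  (.s k19 k35 3 (.s k23 k43 5 (.s k16 k18 0 (.d k31 k27 k26 1 2))))))] .n) (.c k2 (.q k86 [(.s k23
  k43 5 (.s k169 k252 14 (.s k149 k212 8 (.s k129 k189 5 (.d k192 k66 k106 8 14))))), (.s k21 k42 6
  (.s k23 k43 5 (.s k149 k212 8 (.s k85 k213 7 (.s k87 k84 0 (.s k215 k151 7 (.d k20 k22 k150 0
  8))))))), (.s k21 k42 6 (.s k252 k169 14 (.s k126 k189 8 (.s k106 k66 5 (.s k149 k192 14 (.s k85
  k213 7 (.d k84 k168 k87 13 0)))))))] (.c k106 (.f k42 k21 6 (.l (.s k43 k23 5 (.s k169 k252 14 (.s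
  k41 k40 0 (.s k105 k233 7 (.s k67 k124 6 (.s k195 k131 7 (.d k60 k22 k150 6 14))))))))) (.c k149
  (.f k42 k21 6 (.l (.s k43 k23 5 (.s k169 k252 14 (.s k41 k40 0 (.s k105 k233 7 (.s k67 k124 6 (.s
  k195 k131 7 (.d k60 k22 k150 6 14))))))))) .n))) (.c k21 (.q k192 [(.s k1 k2 0 (.s k128 k64 7 (.s
  k129 k66 8 (.s k65 k193 7 (.d k130 k131 k195 0 8))))), (.s k23 k43 5 (.s k129 k66 8 (.s k149 k106
  14 (.s k86 k212 8 (.d k169 k189 k252 5 14))))), (.s k1 k2 0 (.s k43 k23 5 (.s k106 k149 14 (.s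
  k169 k232 8 (.s k85 k253 13 (.d k64 k128 k127 7 6))))))] (.c k86 (.l (.s k2 k1 0 (.s k64 k128 7
  (.s k66 k129 8 (.s k130 k194 7 (.d k65 k67 k195 0 8)))))) .n)) (.c k22 (.q k192 [(.s k23 k43 5 (.s
  k129 k66 8 (.s k149 k106 14 (.s k86 k212 8 (.d k169 k189 k252 5 14))))), (.s k2 k1 0 (.s k64 k128
  7 (.s k66 k129 8 (.s k130 k194 7 (.d k65 k67 k195 0 8))))), (.s k1 k2 0 (.s k43 k23 5 (.s k106
  k149 14 (.s k169 k232 8 (.s k85 k253 13 (.d k64 k128 k127 7 6))))))] (.c k149 (.l (.s k1 k2 0 (.s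
  k128 k64 7 (.s k129 k66 8 (.s k65 k193 7 (.d k130 k131 k195 0 8)))))) .n)) (.c k23 (.q k51 [(.s k2
  k1 0 (.s k34 k17 4 (.s k18 k50 3 (.s k33 k48 4 (.d k35 k32 k19 0 3))))), (.s k17 k34 4 (.s k21 k42
  6 (.s k25 k29 1 (.s k38 k12 6 (.d k55 k59 k4 1 4))))), (.s k1 k2 0 (.s k21 k42 6 (.s k41 k61 5 (.s
  k35 k19 3 (.s k38 k44 2 (.d k55 k59 k4 1 4))))))] .n) (.c k40 (.l (.s k1 k2 0 (.s k21 k42 6 (.s
  k41 k61 5 (.s k22 k60 6 (.d k23 k43 k20 5 0)))))) (.c k41 (.q k51 [(.s k2 k1 0 (.s k34 k17 4 (.s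
  k18 k50 3 (.s k33 k48 4 (.d k35 k32 k19 0 3))))), (.s k19 k35 3 (.s k23 k43 5 (.s k27 k31 1 (.s
  k39 k15 5 (.d k55 k59 k7 1 3))))), (.s k17 k34 4 (.s k21 k42 6 (.s k25 k29 1 (.s k38 k12 6 (.d k55
  k59 k4 1 4)))))] .n) (.c k42 (.q k192 [(.s k43 k23 5 (.s k66 k129 8 (.s k106 k149 14 (.s k169 k232
  8 (.d k86 k126 k252 5 14))))), (.s k1 k2 0 (.s k128 k64 7 (.s k129 k66 8 (.s k65 k193 7 (.d k130
  k131 k195 0 8))))), (.s k1 k2 0 (.s k43 k23 5 (.s k106 k149 14 (.s k169 k232 8 (.s k85 k253 13 (.d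
  k64 k128 k127 7 6))))))] (.c k86 (.l (.s k2 k1 0 (.s k64 k128 7 (.s k66 k129 8 (.s k130 k194 7 (.d
  k65 k67 k195 0 8)))))) (.c k106 (.q k234 [(.s k2 k1 0 (.s k64 k128 7 (.s k66 k129 8 (.s k130 k194
  7 (.d k65 k67 k195 0 8))))), (.s k23 k43 5 (.s k255 k213 6 (.s k87 k171 13 (.s k151 k215 7 (.s
  k107 k195 13 (.d k127 k67 k191 5 7)))))), (.s k1 k2 0 (.s k129 k66 8 (.s k65 k193 7 (.s k130 k195
  8 (.d k128 k131 k64 0 7)))))] (.c k195 (.l (.s k64 k128 7 (.s k66 k129 8 (.s k67 k65 0 (.s k255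
  k213 6 (.s k87 k171 13 (.d k127 k191 k107 7 5))))))) .n)) (.c k128 (.q k234 [(.s k129 k66 8 (.s
  k149 k106 14 (.s k169 k189 5 (.s k86 k252 14 (.d k23 k43 k212 5 8))))), (.s k43 k23 5 (.s k255
  k213 6 (.s k171 k87 13 (.s k107 k235 7 (.s k151 k195 13 (.d k191 k131 k127 5 7)))))), (.s k1 k2 0
  (.s k129 k66 8 (.s k149 k106 14 (.s k169 k189 5 (.s k85 k253 13 (.d k213 k255 k21 6 7))))))] (.c
  k149 (.q k191 [(.d k255 k213 k127 6 7)] (.c k127 (.l (.s k43 k23 5 (.s k255 k213 6 (.s k171 k87 13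
  (.s k107 k235 7 (.d k151 k131 k195 5 13)))))) (.c k213 (.l (.s k43 k23 5 (.s k255 k127 7 (.s k171
  k87 13 (.s k107 k235 7 (.d k151 k131 k195 5 13)))))) (.c k255 (.q k51 [(.s k2 k1 0 (.s k34 k17 4
  (.s k18 k50 3 (.s k33 k48 4 (.d k35 k32 k19 0 3))))), (.s k19 k35 3 (.s k23 k43 5 (.s k27 k31 1
  (.s k39 k15 5 (.d k55 k59 k7 1 3))))), (.s k1 k2 0 (.s k17 k34 4 (.s k129 k66 8 (.s k193 k65 7 (.s
  k145 k98 12 (.d k49 k33 k97 3 11))))))] .n) .n)))) (.c k191 (.l (.s k149 k106 14 (.s k23 k43 5 (.s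
  k129 k66 8 (.s k86 k212 8 (.d k169 k189 k252 5 14)))))) .n))) (.c k234 (.l (.s k106 k149 14 (.s
  k43 k23 5 (.s k66 k129 8 (.s k169 k232 8 (.d k86 k126 k252 5 14)))))) .n))))) (.c k43 (.q k51 [(.s
  k2 k1 0 (.s k34 k17 4 (.s k18 k50 3 (.s k33 k48 4 (.d k35 k32 k19 0 3))))), (.s k17 k34 4 (.s k21
  k42 6 (.s k25 k29 1 (.s k38 k12 6 (.d k55 k59 k4 1 4))))), (.s k1 k2 0 (.s k21 k42 6 (.s k41 k61 5
  (.s k35 k19 3 (.s k38 k44 2 (.d k55 k59 k4 1 4))))))] .n) (.c k60 (.q k51 [(.s k2 k1 0 (.s k34 k17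
  4 (.s k18 k50 3 (.s k33 k48 4 (.d k35 k32 k19 0 3))))), (.s k17 k34 4 (.s k21 k42 6 (.s k25 k29 1
  (.s k38 k12 6 (.d k55 k59 k4 1 4))))), (.s k19 k35 3 (.s k23 k43 5 (.s k27 k31 1 (.s k39 k15 5 (.d
  k55 k59 k7 1 3)))))] .n) (.c k61 (.l (.s k2 k1 0 (.s k43 k23 5 (.s k42 k21 6 (.s k41 k40 0 (.d k22
  k62 k60 5 6)))))) (.c k62 (.l (.s k1 k2 0 (.s k23 k43 5 (.s k21 k42 6 (.s k22 k20 0 (.d k41 k61
  k60 5 6)))))) .n)))))))))))))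

def t74 : T TT 256 :=
  (.q k3 [(.s k2 k1 0 (.s k42 k21 6 (.s k22 k62 5 (.s k41 k60 6 (.d k43 k40 k23 0 5)))))] (.c k1 (.q
  k51 [(.s k19 k35 3 (.s k23 k43 5 (.s k27 k31 1 (.s k39 k15 5 (.d k55 k59 k7 1 3))))), (.s k17 k34
  4 (.s k21 k42 6 (.s k25 k29 1 (.s k38 k12 6 (.d k55 k59 k4 1 4))))), (.s k17 k34 4 (.s k21 k42 6
  (.s k19 k35 3 (.s k23 k43 5 (.s k16 k18 0 (.d k31 k27 k26 1 2))))))] .n) (.c k2 (.f k42 k21 6 (.q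
  k15 [(.s k10 k5 2 (.s k26 k58 3 (.s k37 k48 6 (.d k47 k32 k31 2 3)))), (.s k7 k11 1 (.s k23 k43 5
  (.s k39 k55 3 (.s k27 k51 5 (.d k31 k19 k47 1 3))))), (.s k10 k5 2 (.s k11 k7 1 (.s k43 k23 5 (.s
  k8 k9 0 (.d k59 k27 k25 3 4)))))] (.c k86 (.q k254 [(.s k10 k5 2 (.s k26 k58 3 (.s k37 k48 6 (.d
  k47 k32 k31 2 3)))), (.s k7 k11 1 (.s k23 k43 5 (.s k39 k55 3 (.s k27 k51 5 (.d k31 k19 k47 1
  3))))), (.s k10 k5 2 (.s k11 k7 1 (.s k43 k23 5 (.s k8 k9 0 (.d k59 k27 k25 3 4)))))] .n) (.c k254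
  (.q k86 [(.s k10 k5 2 (.s k26 k58 3 (.s k37 k48 6 (.d k47 k32 k31 2 3)))), (.s k7 k11 1 (.s k23
  k43 5 (.s k39 k55 3 (.s k27 k51 5 (.d k31 k19 k47 1 3))))), (.s k10 k5 2 (.s k11 k7 1 (.s k43 k23
  5 (.s k8 k9 0 (.d k59 k27 k25 3 4)))))] .n) .n)))) (.c k21 (.q k192 [(.s k1 k2 0 (.s k129 k66 8
  (.s k65 k193 7 (.s k130 k195 8 (.d k128 k131 k64 0 7))))), (.s k23 k43 5 (.s k129 k66 8 (.s k149
  k106 14 (.s k86 k212 8 (.d k169 k189 k252 5 14))))), (.s k1 k2 0 (.s k43 k23 5 (.s k106 k149 14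
  (.s k169 k232 8 (.s k85 k253 13 (.d k64 k128 k127 7 6))))))] (.c k86 (.l (.s k2 k1 0 (.s k64 k128
  7 (.s k66 k129 8 (.s k130 k194 7 (.d k65 k67 k195 0 8)))))) .n)) (.c k22 (.q k192 [(.s k2 k1 0 (.s
  k64 k128 7 (.s k66 k129 8 (.s k65 k67 0 (.d k130 k194 k195 7 8))))), (.s k23 k43 5 (.s k129 k66 8
  (.s k149 k106 14 (.s k86 k212 8 (.d k169 k189 k252 5 14))))), (.s k1 k2 0 (.s k43 k23 5 (.s k106
  k149 14 (.s k169 k232 8 (.s k85 k253 13 (.d k64 k128 k127 7 6))))))] (.c k149 (.l (.s k1 k2 0 (.s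
  k128 k64 7 (.s k129 k66 8 (.s k65 k193 7 (.d k130 k131 k195 0 8)))))) .n)) (.c k23 (.q k51 [(.s k2
  k1 0 (.s k34 k17 4 (.s k18 k50 3 (.s k33 k48 4 (.d k35 k32 k19 0 3))))), (.s k17 k34 4 (.s k21 k42
  6 (.s k25 k29 1 (.s k38 k12 6 (.d k55 k59 k4 1 4))))), (.s k1 k2 0 (.s k21 k42 6 (.s k41 k61 5 (.s
  k35 k19 3 (.s k38 k44 2 (.d k55 k59 k4 1 4))))))] .n) (.c k40 (.l (.s k1 k2 0 (.s k21 k42 6 (.s
  k41 k61 5 (.s k22 k60 6 (.d k23 k43 k20 5 0)))))) (.c k41 (.q k51 [(.s k2 k1 0 (.s k34 k17 4 (.s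
  k18 k50 3 (.s k33 k48 4 (.d k35 k32 k19 0 3))))), (.s k19 k35 3 (.s k23 k43 5 (.s k27 k31 1 (.s
  k39 k15 5 (.d k55 k59 k7 1 3))))), (.s k17 k34 4 (.s k21 k42 6 (.s k25 k29 1 (.s k38 k12 6 (.d k55
  k59 k4 1 4)))))] .n) (.c k42 (.q k106 [(.s k43 k23 5 (.s k169 k232 8 (.s k86 k252 14 (.s k192 k149
  14 (.d k66 k126 k129 5 8))))), (.s k1 k2 0 (.s k192 k149 14 (.s k128 k64 7 (.s k129 k66 8 (.s k65
  k193 7 (.d k130 k131 k195 0 8)))))), (.s k23 k43 5 (.s k149 k192 14 (.s k86 k212 8 (.s k252 k169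
  14 (.d k126 k66 k189 5 8)))))] (.c k66 (.l (.s k43 k23 5 (.s k169 k232 8 (.s k252 k86 14 (.s k149
  k192 14 (.d k189 k129 k126 5 8)))))) (.c k86 (.l (.s k2 k1 0 (.s k192 k149 14 (.s k66 k129 8 (.s
  k130 k194 7 (.s k65 k195 8 (.d k64 k128 k67 7 0))))))) (.c k149 (.q k192 [(.s k43 k23 5 (.s k66
  k129 8 (.s k169 k232 8 (.d k86 k126 k252 5 14)))), (.s k1 k2 0 (.s k128 k64 7 (.s k129 k66 8 (.s
  k65 k193 7 (.d k130 k131 k195 0 8))))), (.s k1 k2 0 (.s k43 k23 5 (.s k169 k232 8 (.s k85 k253 13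
  (.d k64 k128 k127 7 6)))))] (.c k86 (.l (.s k2 k1 0 (.s k66 k129 8 (.s k130 k194 7 (.s k65 k195 8
  (.d k64 k67 k128 0 7)))))) (.c k128 (.q k191 [(.s k43 k23 5 (.s k169 k232 8 (.s k86 k252 14 (.d
  k66 k126 k129 5 8)))), (.s k255 k127 7 (.s k171 k87 13 (.s k151 k131 5 (.s k107 k195 13 (.d k43
  k23 k235 5 7))))), (.s k1 k2 0 (.s k66 k129 8 (.s k127 k255 7 (.s k85 k64 6 (.s k169 k253 13 (.d
  k86 k252 k126 14 5))))))] (.c k129 (.l (.s k1 k2 0 (.s k43 k23 5 (.s k169 k232 8 (.s k85 k253 13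
  (.d k127 k64 k255 6 7)))))) .n)) (.c k191 (.l (.s k128 k64 7 (.s k1 k2 0 (.s k129 k66 8 (.s k65
  k193 7 (.d k130 k131 k195 0 8)))))) .n)))) (.c k192 (.q k15 [(.s k2 k1 0 (.s k10 k5 2 (.s k6 k14 1
  (.s k9 k12 2 (.d k11 k8 k7 0 1))))), (.s k43 k23 5 (.s k47 k31 3 (.s k169 k232 8 (.s k252 k86 14
  (.s k173 k94 12 (.d k165 k161 k224 1 10))))))] (.c k2 (.l (.s k7 k11 1 (.s k23 k43 5 (.s k39 k55 3
  (.s k27 k51 5 (.d k31 k19 k47 1 3)))))) .n)) .n))))) (.c k43 (.q k51 [(.s k2 k1 0 (.s k34 k17 4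
  (.s k18 k50 3 (.s k33 k48 4 (.d k35 k32 k19 0 3))))), (.s k17 k34 4 (.s k21 k42 6 (.s k25 k29 1
  (.s k38 k12 6 (.d k55 k59 k4 1 4))))), (.s k1 k2 0 (.s k21 k42 6 (.s k41 k61 5 (.s k35 k19 3 (.s
  k38 k44 2 (.d k55 k59 k4 1 4))))))] .n) (.c k60 (.q k51 [(.s k2 k1 0 (.s k34 k17 4 (.s k18 k50 3
  (.s k33 k48 4 (.d k35 k32 k19 0 3))))), (.s k17 k34 4 (.s k21 k42 6 (.s k25 k29 1 (.s k38 k12 6
  (.d k55 k59 k4 1 4))))), (.s k19 k35 3 (.s k23 k43 5 (.s k27 k31 1 (.s k39 k15 5 (.d k55 k59 k7 1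
  3)))))] .n) (.c k61 (.l (.s k2 k1 0 (.s k43 k23 5 (.s k42 k21 6 (.s k41 k40 0 (.d k22 k62 k60 5
  6)))))) (.c k62 (.l (.s k1 k2 0 (.s k23 k43 5 (.s k21 k42 6 (.s k22 k20 0 (.d k41 k61 k60 5
  6)))))) .n)))))))))))))

def t75 : T TT 256 :=
  (.q k3 [(.s k2 k1 0 (.s k42 k21 6 (.s k22 k62 5 (.s k41 k60 6 (.d k43 k40 k23 0 5)))))] (.c k1 (.q
  k15 [(.s k7 k11 1 (.s k23 k43 5 (.s k39 k55 3 (.s k27 k51 5 (.d k31 k19 k47 1 3))))), (.s k5 k10 2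
  (.s k21 k42 6 (.s k37 k53 3 (.s k26 k48 6 (.d k31 k16 k47 2 3))))), (.s k5 k10 2 (.s k21 k42 6 (.s
  k7 k11 1 (.s k23 k43 5 (.s k4 k6 0 (.d k55 k39 k38 3 4))))))] .n) (.c k2 (.f k42 k21 6 (.q k15
  [(.s k10 k5 2 (.s k26 k58 3 (.s k37 k48 6 (.d k47 k32 k31 2 3)))), (.s k7 k11 1 (.s k23 k43 5 (.s
  k39 k55 3 (.s k27 k51 5 (.d k31 k19 k47 1 3))))), (.s k10 k5 2 (.s k11 k7 1 (.s k43 k23 5 (.s k8
  k9 0 (.d k59 k27 k25 3 4)))))] (.c k86 (.q k254 [(.s k10 k5 2 (.s k26 k58 3 (.s k37 k48 6 (.d k47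
  k32 k31 2 3)))), (.s k7 k11 1 (.s k23 k43 5 (.s k39 k55 3 (.s k27 k51 5 (.d k31 k19 k47 1 3))))),
  (.s k10 k5 2 (.s k11 k7 1 (.s k43 k23 5 (.s k8 k9 0 (.d k59 k27 k25 3 4)))))] .n) (.c k254 (.q k86
  [(.s k10 k5 2 (.s k26 k58 3 (.s k37 k48 6 (.d k47 k32 k31 2 3)))), (.s k7 k11 1 (.s k23 k43 5 (.s
  k39 k55 3 (.s k27 k51 5 (.d k31 k19 k47 1 3))))), (.s k10 k5 2 (.s k11 k7 1 (.s k43 k23 5 (.s k8
  k9 0 (.d k59 k27 k25 3 4)))))] .n) .n)))) (.c k21 (.q k192 [(.s k1 k2 0 (.s k128 k64 7 (.s k129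
  k66 8 (.s k65 k193 7 (.d k130 k131 k195 0 8))))), (.s k23 k43 5 (.s k129 k66 8 (.s k149 k106 14
  (.s k86 k212 8 (.d k169 k189 k252 5 14))))), (.s k1 k2 0 (.s k43 k23 5 (.s k106 k149 14 (.s k169
  k232 8 (.s k85 k253 13 (.d k64 k128 k127 7 6))))))] (.c k86 (.l (.s k2 k1 0 (.s k64 k128 7 (.s k66
  k129 8 (.s k130 k194 7 (.d k65 k67 k195 0 8)))))) .n)) (.c k22 (.q k192 [(.s k23 k43 5 (.s k129
  k66 8 (.s k149 k106 14 (.s k86 k212 8 (.d k169 k189 k252 5 14))))), (.s k2 k1 0 (.s k64 k128 7 (.s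
  k66 k129 8 (.s k130 k194 7 (.d k65 k67 k195 0 8))))), (.s k1 k2 0 (.s k43 k23 5 (.s k106 k149 14
  (.s k169 k232 8 (.s k85 k253 13 (.d k64 k128 k127 7 6))))))] (.c k149 (.l (.s k1 k2 0 (.s k128 k64
  7 (.s k129 k66 8 (.s k65 k193 7 (.d k130 k131 k195 0 8)))))) .n)) (.c k23 (.q k15 [(.s k2 k1 0 (.s
  k10 k5 2 (.s k6 k14 1 (.s k9 k12 2 (.d k11 k8 k7 0 1))))), (.s k5 k10 2 (.s k21 k42 6 (.s k37 k53
  3 (.s k26 k48 6 (.d k31 k16 k47 2 3))))), (.s k1 k2 0 (.s k21 k42 6 (.s k41 k61 5 (.s k11 k7 1 (.s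
  k26 k56 4 (.d k31 k16 k47 2 3))))))] .n) (.c k40 (.l (.s k1 k2 0 (.s k21 k42 6 (.s k41 k61 5 (.s
  k22 k60 6 (.d k23 k43 k20 5 0)))))) (.c k41 (.q k15 [(.s k2 k1 0 (.s k10 k5 2 (.s k6 k14 1 (.s k9
  k12 2 (.d k11 k8 k7 0 1))))), (.s k7 k11 1 (.s k23 k43 5 (.s k39 k55 3 (.s k27 k51 5 (.d k31 k19
  k47 1 3))))), (.s k5 k10 2 (.s k21 k42 6 (.s k37 k53 3 (.s k26 k48 6 (.d k31 k16 k47 2 3)))))] .n)
  (.c k42 (.q k192 [(.s k43 k23 5 (.s k66 k129 8 (.s k106 k149 14 (.s k169 k232 8 (.d k86 k126 k252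
  5 14))))), (.s k1 k2 0 (.s k128 k64 7 (.s k129 k66 8 (.s k65 k193 7 (.d k130 k131 k195 0 8))))),
  (.s k1 k2 0 (.s k43 k23 5 (.s k106 k149 14 (.s k169 k232 8 (.s k85 k253 13 (.d k64 k128 k127 7
  6))))))] (.c k86 (.l (.s k2 k1 0 (.s k64 k128 7 (.s k66 k129 8 (.s k130 k194 7 (.d k65 k67 k195 0
  8)))))) (.c k106 (.q k234 [(.s k2 k1 0 (.s k64 k128 7 (.s k66 k129 8 (.s k130 k194 7 (.d k65 k67
  k195 0 8))))), (.s k23 k43 5 (.s k255 k213 6 (.s k87 k171 13 (.s k151 k215 7 (.s k107 k195 13 (.d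
  k127 k67 k191 5 7)))))), (.s k1 k2 0 (.s k129 k66 8 (.s k65 k193 7 (.s k130 k195 8 (.d k128 k131
  k64 0 7)))))] (.c k195 (.l (.s k64 k128 7 (.s k66 k129 8 (.s k67 k65 0 (.s k255 k213 6 (.s k87
  k171 13 (.d k127 k191 k107 7 5))))))) .n)) (.c k128 (.q k234 [(.s k129 k66 8 (.s k149 k106 14 (.s
  k169 k189 5 (.s k86 k252 14 (.d k23 k43 k212 5 8))))), (.s k43 k23 5 (.s k255 k213 6 (.s k171 k87
  13 (.s k107 k235 7 (.s k151 k195 13 (.d k191 k131 k127 5 7)))))), (.s k1 k2 0 (.s k129 k66 8 (.s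
  k149 k106 14 (.s k169 k189 5 (.s k85 k253 13 (.d k213 k255 k21 6 7))))))] (.c k149 (.q k191 [(.d
  k255 k213 k127 6 7)] (.c k127 (.l (.s k43 k23 5 (.s k255 k213 6 (.s k171 k87 13 (.s k107 k235 7
  (.d k151 k131 k195 5 13)))))) (.c k213 (.l (.s k43 k23 5 (.s k255 k127 7 (.s k171 k87 13 (.s k107
  k235 7 (.d k151 k131 k195 5 13)))))) (.c k255 (.q k15 [(.s k2 k1 0 (.s k10 k5 2 (.s k6 k14 1 (.s
  k9 k12 2 (.d k11 k8 k7 0 1))))), (.s k7 k11 1 (.s k23 k43 5 (.s k39 k55 3 (.s k27 k51 5 (.d k31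
  k19 k47 1 3))))), (.s k1 k2 0 (.s k5 k10 2 (.s k129 k66 8 (.s k193 k65 7 (.s k133 k74 10 (.d k13
  k73 k9 9 1))))))] .n) .n)))) (.c k191 (.l (.s k149 k106 14 (.s k23 k43 5 (.s k129 k66 8 (.s k86
  k212 8 (.d k169 k189 k252 5 14)))))) .n))) (.c k234 (.l (.s k106 k149 14 (.s k43 k23 5 (.s k66
  k129 8 (.s k169 k232 8 (.d k86 k126 k252 5 14)))))) .n))))) (.c k43 (.q k15 [(.s k2 k1 0 (.s k10
  k5 2 (.s k6 k14 1 (.s k9 k12 2 (.d k11 k8 k7 0 1))))), (.s k5 k10 2 (.s k21 k42 6 (.s k37 k53 3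
  (.s k26 k48 6 (.d k31 k16 k47 2 3))))), (.s k1 k2 0 (.s k21 k42 6 (.s k41 k61 5 (.s k11 k7 1 (.s
  k26 k56 4 (.d k31 k16 k47 2 3))))))] .n) (.c k60 (.q k15 [(.s k2 k1 0 (.s k10 k5 2 (.s k6 k14 1
  (.s k9 k12 2 (.d k11 k8 k7 0 1))))), (.s k5 k10 2 (.s k21 k42 6 (.s k37 k53 3 (.s k26 k48 6 (.d
  k31 k16 k47 2 3))))), (.s k7 k11 1 (.s k23 k43 5 (.s k39 k55 3 (.s k27 k51 5 (.d k31 k19 k47 1
  3)))))] .n) (.c k61 (.l (.s k2 k1 0 (.s k43 k23 5 (.s k42 k21 6 (.s k41 k40 0 (.d k22 k62 k60 5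
  6)))))) (.c k62 (.l (.s k1 k2 0 (.s k23 k43 5 (.s k21 k42 6 (.s k22 k20 0 (.d k41 k61 k60 5
  6)))))) .n)))))))))))))

def t79 : T TT 256 :=
  (.q k3 [(.s k2 k1 0 (.s k42 k21 6 (.s k22 k62 5 (.s k41 k60 6 (.d k43 k40 k23 0 5)))))] (.c k1 (.q
  k15 [(.s k7 k11 1 (.s k23 k43 5 (.s k39 k55 3 (.s k27 k51 5 (.d k31 k19 k47 1 3))))), (.s k5 k10 2
  (.s k21 k42 6 (.s k37 k53 3 (.s k26 k48 6 (.d k31 k16 k47 2 3))))), (.s k5 k10 2 (.s k21 k42 6 (.s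
  k7 k11 1 (.s k23 k43 5 (.s k4 k6 0 (.d k55 k39 k38 3 4))))))] .n) (.c k2 (.f k42 k21 6 (.q k15
  [(.s k10 k5 2 (.s k26 k58 3 (.s k37 k48 6 (.d k47 k32 k31 2 3)))), (.s k7 k11 1 (.s k23 k43 5 (.s
  k39 k55 3 (.s k27 k51 5 (.d k31 k19 k47 1 3))))), (.s k10 k5 2 (.s k11 k7 1 (.s k43 k23 5 (.s k8
  k9 0 (.d k59 k27 k25 3 4)))))] (.c k86 (.q k254 [(.s k10 k5 2 (.s k26 k58 3 (.s k37 k48 6 (.d k47
  k32 k31 2 3)))), (.s k7 k11 1 (.s k23 k43 5 (.s k39 k55 3 (.s k27 k51 5 (.d k31 k19 k47 1 3))))),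
  (.s k10 k5 2 (.s k11 k7 1 (.s k43 k23 5 (.s k8 k9 0 (.d k59 k27 k25 3 4)))))] .n) (.c k254 (.q k86
  [(.s k10 k5 2 (.s k26 k58 3 (.s k37 k48 6 (.d k47 k32 k31 2 3)))), (.s k7 k11 1 (.s k23 k43 5 (.s
  k39 k55 3 (.s k27 k51 5 (.d k31 k19 k47 1 3))))), (.s k10 k5 2 (.s k11 k7 1 (.s k43 k23 5 (.s k8
  k9 0 (.d k59 k27 k25 3 4)))))] .n) .n)))) (.c k21 (.q k192 [(.s k1 k2 0 (.s k129 k66 8 (.s k65
  k193 7 (.s k130 k195 8 (.d k128 k131 k64 0 7))))), (.s k23 k43 5 (.s k129 k66 8 (.s k149 k106 14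
  (.s k86 k212 8 (.d k169 k189 k252 5 14))))), (.s k1 k2 0 (.s k43 k23 5 (.s k106 k149 14 (.s k169
  k232 8 (.s k85 k253 13 (.d k64 k128 k127 7 6))))))] (.c k86 (.l (.s k2 k1 0 (.s k64 k128 7 (.s k66
  k129 8 (.s k130 k194 7 (.d k65 k67 k195 0 8)))))) .n)) (.c k22 (.q k192 [(.s k23 k43 5 (.s k129
  k66 8 (.s k149 k106 14 (.s k86 k212 8 (.d k169 k189 k252 5 14))))), (.s k2 k1 0 (.s k64 k128 7 (.s
  k66 k129 8 (.s k130 k194 7 (.d k65 k67 k195 0 8))))), (.s k1 k2 0 (.s k43 k23 5 (.s k106 k149 14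
  (.s k169 k232 8 (.s k85 k253 13 (.d k64 k128 k127 7 6))))))] (.c k149 (.l (.s k1 k2 0 (.s k128 k64
  7 (.s k129 k66 8 (.s k65 k193 7 (.d k130 k131 k195 0 8)))))) .n)) (.c k23 (.q k15 [(.s k2 k1 0 (.s
  k10 k5 2 (.s k6 k14 1 (.s k9 k12 2 (.d k11 k8 k7 0 1))))), (.s k5 k10 2 (.s k21 k42 6 (.s k37 k53
  3 (.s k26 k48 6 (.d k31 k16 k47 2 3))))), (.s k1 k2 0 (.s k21 k42 6 (.s k41 k61 5 (.s k11 k7 1 (.s
  k26 k56 4 (.d k31 k16 k47 2 3))))))] .n) (.c k40 (.l (.s k1 k2 0 (.s k21 k42 6 (.s k41 k61 5 (.s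
  k22 k60 6 (.d k23 k43 k20 5 0)))))) (.c k41 (.q k15 [(.s k2 k1 0 (.s k10 k5 2 (.s k6 k14 1 (.s k9
  k12 2 (.d k11 k8 k7 0 1))))), (.s k7 k11 1 (.s k23 k43 5 (.s k39 k55 3 (.s k27 k51 5 (.d k31 k19
  k47 1 3))))), (.s k5 k10 2 (.s k21 k42 6 (.s k37 k53 3 (.s k26 k48 6 (.d k31 k16 k47 2 3)))))] .n)
  (.c k42 (.q k192 [(.s k43 k23 5 (.s k66 k129 8 (.s k106 k149 14 (.s k169 k232 8 (.d k86 k126 k252
  5 14))))), (.s k1 k2 0 (.s k128 k64 7 (.s k129 k66 8 (.s k65 k193 7 (.d k130 k131 k195 0 8))))),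
  (.s k1 k2 0 (.s k43 k23 5 (.s k106 k149 14 (.s k169 k232 8 (.s k85 k253 13 (.d k64 k128 k127 7
  6))))))] (.c k86 (.l (.s k2 k1 0 (.s k64 k128 7 (.s k66 k129 8 (.s k130 k194 7 (.d k65 k67 k195 0
  8)))))) (.c k106 (.q k234 [(.s k2 k1 0 (.s k64 k128 7 (.s k66 k129 8 (.s k130 k194 7 (.d k65 k67
  k195 0 8))))), (.s k23 k43 5 (.s k255 k213 6 (.s k87 k171 13 (.s k151 k215 7 (.s k107 k195 13 (.d
  k127 k67 k191 5 7)))))), (.s k1 k2 0 (.s k129 k66 8 (.s k65 k193 7 (.s k130 k195 8 (.d k128 k131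
  k64 0 7)))))] (.c k195 (.l (.s k64 k128 7 (.s k66 k129 8 (.s k67 k65 0 (.s k255 k213 6 (.s k87
  k171 13 (.d k127 k191 k107 7 5))))))) .n)) (.c k128 (.q k234 [(.s k129 k66 8 (.s k149 k106 14 (.s
  k169 k189 5 (.s k86 k252 14 (.d k23 k43 k212 5 8))))), (.s k43 k23 5 (.s k255 k213 6 (.s k171 k87
  13 (.s k107 k235 7 (.s k151 k195 13 (.d k191 k131 k127 5 7)))))), (.s k1 k2 0 (.s k129 k66 8 (.s
  k149 k106 14 (.s k169 k189 5 (.s k85 k253 13 (.d k213 k255 k21 6 7))))))] (.c k149 (.q k191 [(.d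
  k255 k213 k127 6 7)] (.c k127 (.l (.s k43 k23 5 (.s k255 k213 6 (.s k171 k87 13 (.s k107 k235 7
  (.d k151 k131 k195 5 13)))))) (.c k213 (.l (.s k43 k23 5 (.s k255 k127 7 (.s k171 k87 13 (.s k107
  k235 7 (.d k151 k131 k195 5 13)))))) (.c k255 (.q k15 [(.s k2 k1 0 (.s k10 k5 2 (.s k6 k14 1 (.s
  k9 k12 2 (.d k11 k8 k7 0 1))))), (.s k7 k11 1 (.s k23 k43 5 (.s k39 k55 3 (.s k27 k51 5 (.d k31
  k19 k47 1 3))))), (.s k1 k2 0 (.s k5 k10 2 (.s k129 k66 8 (.s k193 k65 7 (.s k133 k74 10 (.d k13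
  k9 k73 1 9))))))] .n) .n)))) (.c k191 (.l (.s k149 k106 14 (.s k23 k43 5 (.s k129 k66 8 (.s k86
  k212 8 (.d k169 k189 k252 5 14)))))) .n))) (.c k234 (.l (.s k106 k149 14 (.s k43 k23 5 (.s k66
  k129 8 (.s k169 k232 8 (.d k86 k126 k252 5 14)))))) .n))))) (.c k43 (.q k15 [(.s k2 k1 0 (.s k10
  k5 2 (.s k6 k14 1 (.s k9 k12 2 (.d k11 k8 k7 0 1))))), (.s k5 k10 2 (.s k21 k42 6 (.s k37 k53 3
  (.s k26 k48 6 (.d k31 k16 k47 2 3))))), (.s k1 k2 0 (.s k21 k42 6 (.s k41 k61 5 (.s k11 k7 1 (.s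
  k26 k56 4 (.d k31 k16 k47 2 3))))))] .n) (.c k60 (.q k15 [(.s k2 k1 0 (.s k10 k5 2 (.s k6 k14 1
  (.s k9 k12 2 (.d k11 k8 k7 0 1))))), (.s k5 k10 2 (.s k21 k42 6 (.s k37 k53 3 (.s k26 k48 6 (.d
  k31 k16 k47 2 3))))), (.s k7 k11 1 (.s k23 k43 5 (.s k39 k55 3 (.s k27 k51 5 (.d k31 k19 k47 1
  3)))))] .n) (.c k61 (.l (.s k2 k1 0 (.s k43 k23 5 (.s k42 k21 6 (.s k41 k40 0 (.d k22 k62 k60 5
  6)))))) (.c k62 (.l (.s k1 k2 0 (.s k23 k43 5 (.s k21 k42 6 (.s k22 k20 0 (.d k41 k61 k60 5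
  6)))))) .n)))))))))))))

def t85 : T TT 256 :=
  (.q k48 [(.s k16 k32 3 (.s k21 k42 6 (.s k26 k31 2 (.s k37 k15 6 (.d k53 k58 k5 2 3))))), (.s k32
  k16 3 (.s k42 k21 6 (.s k37 k47 2 (.s k26 k15 6 (.d k58 k53 k10 2 3)))))] (.c k15 (.q k51 [(.s k49
  k50 0 (.s k53 k58 2 (.s k57 k61 1 (.s k54 k60 2 (.d k55 k52 k59 0 1))))), (.s k16 k32 3 (.s k17
  k34 4 (.s k18 k19 0 (.s k33 k3 4 (.d k49 k50 k1 0 3))))), (.s k17 k34 4 (.s k21 k42 6 (.s k25 k29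
  1 (.s k38 k12 6 (.d k55 k59 k4 1 4)))))] .n) (.c k16 (.f k58 k53 2 (.q k51 [(.s k50 k49 0 (.s k54
  k62 1 (.s k57 k60 2 (.d k59 k56 k55 0 1)))), (.s k17 k34 4 (.s k21 k42 6 (.s k25 k29 1 (.s k38 k12
  6 (.d k55 k59 k4 1 4))))), (.s k34 k17 4 (.s k42 k21 6 (.s k26 k10 3 (.s k38 k46 1 (.d k50 k49 k14
  0 5)))))] (.c k154 (.q k223 [(.s k50 k49 0 (.s k54 k62 1 (.s k57 k60 2 (.d k59 k56 k55 0 1)))),
  (.s k17 k34 4 (.s k21 k42 6 (.s k25 k29 1 (.s k38 k12 6 (.d k55 k59 k4 1 4))))), (.s k34 k17 4 (.s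
  k42 k21 6 (.s k26 k10 3 (.s k38 k46 1 (.d k50 k49 k14 0 5)))))] (.c k138 (.q k186 [(.s k50 k49 0
  (.s k54 k62 1 (.s k57 k60 2 (.d k59 k56 k55 0 1)))), (.s k117 k255 10 (.s k122 k250 7 (.s k240
  k181 10 (.d k112 k127 k176 2 7))))] .n) (.c k186 (.q k138 [(.s k50 k49 0 (.s k54 k62 1 (.s k57 k60
  2 (.d k59 k56 k55 0 1)))), (.s k17 k34 4 (.s k21 k42 6 (.s k25 k29 1 (.s k38 k12 6 (.d k55 k59 k4
  1 4))))), (.s k34 k17 4 (.s k42 k21 6 (.s k26 k10 3 (.s k38 k46 1 (.d k50 k49 k14 0 5)))))] .n)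
  .n))) (.c k223 (.q k154 [(.s k50 k49 0 (.s k54 k62 1 (.s k57 k60 2 (.d k59 k56 k55 0 1)))), (.s
  k101 k207 14 (.s k106 k202 11 (.s k192 k149 14 (.d k96 k111 k144 2 11))))] .n) .n)))) (.c k21 (.q
  k149 [(.s k53 k58 2 (.s k101 k197 11 (.s k154 k207 14 (.s k144 k159 2 (.d k192 k96 k106 11
  14))))), (.s k16 k32 3 (.s k192 k106 14 (.s k144 k96 11 (.s k80 k208 7 (.s k160 k240 11 (.d k128
  k64 k176 7 3))))))] (.c k96 (.l (.s k58 k53 2 (.s k106 k192 14 (.s k154 k202 11 (.s k207 k101 14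
  (.d k159 k144 k111 2 11)))))) (.c k101 (.l (.s k32 k16 3 (.s k192 k106 14 (.s k64 k128 7 (.s k96
  k144 11 (.s k160 k224 7 (.d k80 k112 k240 3 11))))))) (.c k106 (.f k53 k58 2 (.f k101 k197 11 (.l
  (.s k16 k32 3 (.s k154 k207 14 (.s k144 k159 2 (.s k80 k208 7 (.s k160 k240 11 (.s k192 k96 11 (.d
  k128 k176 k64 3 7)))))))))) (.c k144 (.l (.s k53 k58 2 (.s k101 k197 11 (.s k207 k154 14 (.s k106
  k192 14 (.d k111 k96 k159 2 11)))))) (.c k192 (.q k51 [(.s k49 k50 0 (.s k53 k58 2 (.s k57 k61 1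
  (.s k54 k60 2 (.d k55 k52 k59 0 1))))), (.s k32 k16 3 (.s k34 k17 4 (.s k33 k35 0 (.s k18 k3 4 (.d
  k50 k49 k2 0 3))))), (.s k53 k58 2 (.s k55 k59 1 (.s k101 k197 11 (.s k207 k154 14 (.s k103 k155
  13 (.d k102 k100 k196 0 12))))))] .n) .n)))))) (.c k26 (.q k51 [(.s k16 k32 3 (.s k17 k34 4 (.s
  k18 k19 0 (.s k33 k3 4 (.d k49 k50 k1 0 3))))), (.s k49 k50 0 (.s k53 k58 2 (.s k57 k61 1 (.s k54
  k60 2 (.d k55 k52 k59 0 1))))), (.s k17 k34 4 (.s k21 k42 6 (.s k25 k29 1 (.s k38 k12 6 (.d k55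
  k59 k4 1 4)))))] .n) (.c k31 (.l (.s k32 k16 3 (.s k58 k53 2 (.s k42 k21 6 (.s k26 k10 3 (.d k37
  k47 k15 2 6)))))) (.c k32 (.f k53 k58 2 (.q k51 [(.s k49 k50 0 (.s k57 k61 1 (.s k54 k60 2 (.d k55
  k52 k59 0 1)))), (.s k17 k34 4 (.s k21 k42 6 (.s k25 k29 1 (.s k38 k12 6 (.d k55 k59 k4 1 4))))),
  (.s k17 k34 4 (.s k21 k42 6 (.s k37 k5 3 (.s k25 k29 1 (.d k49 k50 k13 0 5)))))] (.c k101 (.q k239
  [(.s k49 k50 0 (.s k57 k61 1 (.s k54 k60 2 (.d k55 k52 k59 0 1)))), (.s k17 k34 4 (.s k21 k42 6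
  (.s k25 k29 1 (.s k38 k12 6 (.d k55 k59 k4 1 4))))), (.s k17 k34 4 (.s k21 k42 6 (.s k37 k5 3 (.s
  k25 k29 1 (.d k49 k50 k13 0 5)))))] (.c k69 (.q k117 [(.s k49 k50 0 (.s k57 k61 1 (.s k54 k60 2
  (.d k55 k52 k59 0 1)))), (.s k186 k255 10 (.s k181 k245 7 (.s k240 k122 10 (.d k176 k191 k112 2
  7))))] .n) (.c k117 (.q k69 [(.s k49 k50 0 (.s k57 k61 1 (.s k54 k60 2 (.d k55 k52 k59 0 1)))),
  (.s k17 k34 4 (.s k21 k42 6 (.s k25 k29 1 (.s k38 k12 6 (.d k55 k59 k4 1 4))))), (.s k17 k34 4 (.s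
  k21 k42 6 (.s k37 k5 3 (.s k25 k29 1 (.d k49 k50 k13 0 5)))))] .n) .n))) (.c k239 (.q k101 [(.s
  k49 k50 0 (.s k57 k61 1 (.s k54 k60 2 (.d k55 k52 k59 0 1)))), (.s k154 k207 14 (.s k149 k197 11
  (.s k192 k106 14 (.d k144 k159 k96 2 11))))] .n) .n)))) (.c k37 (.q k51 [(.s k49 k50 0 (.s k53 k58
  2 (.s k57 k61 1 (.s k54 k60 2 (.d k55 k52 k59 0 1))))), (.s k16 k32 3 (.s k17 k34 4 (.s k18 k19 0
  (.s k33 k3 4 (.d k49 k50 k1 0 3))))), (.s k17 k34 4 (.s k21 k42 6 (.s k25 k29 1 (.s k38 k12 6 (.d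
  k55 k59 k4 1 4)))))] .n) (.c k42 (.q k106 [(.s k53 k58 2 (.s k149 k192 14 (.s k101 k197 11 (.s
  k111 k96 2 (.d k207 k159 k154 11 14))))), (.s k16 k32 3 (.s k192 k149 14 (.s k128 k64 7 (.s k144
  k96 11 (.s k80 k208 7 (.d k160 k176 k240 3 11))))))] (.c k96 (.l (.s k58 k53 2 (.s k154 k202 11
  (.s k207 k101 14 (.s k149 k192 14 (.d k159 k144 k111 2 11)))))) (.c k101 (.l (.s k32 k16 3 (.s
  k192 k149 14 (.s k96 k144 11 (.s k160 k224 7 (.s k80 k240 11 (.d k64 k128 k112 7 3))))))) (.c k149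
  (.f k58 k53 2 (.f k154 k202 11 (.l (.s k32 k16 3 (.s k101 k207 14 (.s k96 k111 2 (.s k160 k224 7
  (.s k80 k240 11 (.s k192 k144 11 (.d k64 k112 k128 3 7)))))))))) (.c k192 (.q k51 [(.s k49 k50 0
  (.s k53 k58 2 (.s k57 k61 1 (.s k54 k60 2 (.d k55 k52 k59 0 1))))), (.s k16 k32 3 (.s k17 k34 4
  (.s k18 k19 0 (.s k33 k3 4 (.d k49 k50 k1 0 3))))), (.s k58 k53 2 (.s k59 k55 1 (.s k154 k202 11
  (.s k207 k101 14 (.s k155 k103 13 (.d k153 k152 k200 0 12))))))] .n) .n))))) (.c k47 (.l (.s k16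
  k32 3 (.s k53 k58 2 (.s k21 k42 6 (.s k37 k5 3 (.d k26 k31 k15 2 6)))))) (.c k53 (.q k51 [(.s k16
  k32 3 (.s k17 k34 4 (.s k18 k19 0 (.s k33 k3 4 (.d k49 k50 k1 0 3))))), (.s k17 k34 4 (.s k21 k42
  6 (.s k25 k29 1 (.s k38 k12 6 (.d k55 k59 k4 1 4))))), (.s k16 k32 3 (.s k21 k42 6 (.s k26 k31 2
  (.s k50 k49 0 (.s k38 k14 5 (.d k55 k59 k4 1 4))))))] .n) (.c k58 (.q k51 [(.s k16 k32 3 (.s k17
  k34 4 (.s k18 k19 0 (.s k33 k3 4 (.d k49 k50 k1 0 3))))), (.s k17 k34 4 (.s k21 k42 6 (.s k25 k29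
  1 (.s k38 k12 6 (.d k55 k59 k4 1 4))))), (.s k16 k32 3 (.s k21 k42 6 (.s k26 k31 2 (.s k50 k49 0
  (.s k38 k14 5 (.d k55 k59 k4 1 4))))))] .n) .n))))))))))))

def t86 : T TT 256 :=
  (.q k2 [(.s k3 k1 0 (.s k42 k21 6 (.s k22 k62 5 (.s k41 k60 6 (.d k43 k40 k23 0 5)))))] (.c k1 (.f
  k42 k21 6 (.q k10 [(.s k15 k5 2 (.s k26 k58 3 (.s k37 k48 6 (.d k47 k32 k31 2 3)))), (.s k14 k6 1
  (.s k22 k62 5 (.s k26 k58 3 (.s k50 k38 5 (.d k18 k30 k34 1 3))))), (.s k15 k5 2 (.s k14 k6 1 (.s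
  k62 k22 5 (.s k30 k46 3 (.d k60 k61 k45 0 4)))))] (.c k41 (.q k61 [(.d k62 k60 k22 0 5), (.s k15
  k5 2 (.s k26 k58 3 (.s k37 k48 6 (.d k47 k32 k31 2 3))))] .n) (.c k61 (.q k41 [(.s k22 k62 5 (.s
  k3 k60 6 (.d k43 k40 k23 0 5))), (.s k15 k5 2 (.s k26 k58 3 (.s k37 k48 6 (.d k47 k32 k31 2 3))))]
  .n) .n)))) (.c k3 (.f k42 k21 6 (.q k15 [(.s k10 k5 2 (.s k26 k58 3 (.s k47 k31 3 (.d k37 k32 k48
  2 6)))), (.s k62 k22 5 (.s k31 k47 3 (.s k60 k61 0 (.s k30 k45 4 (.s k46 k14 3 (.d k29 k28 k12 0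
  4)))))), (.s k10 k5 2 (.s k14 k6 1 (.s k62 k22 5 (.s k12 k13 0 (.d k46 k30 k29 3 4)))))] (.c k169
  (.q k252 [(.s k10 k5 2 (.s k26 k58 3 (.s k47 k31 3 (.d k37 k32 k48 2 6)))), (.s k62 k22 5 (.s k60
  k61 0 (.s k30 k45 4 (.s k14 k46 3 (.d k10 k6 k5 1 2))))), (.s k168 k84 13 (.s k47 k31 3 (.s k173
  k94 12 (.s k236 k110 8 (.d k32 k37 k100 2 9)))))] (.c k47 (.l (.s k10 k5 2 (.s k14 k6 1 (.s k62
  k22 5 (.s k12 k13 0 (.d k46 k30 k29 3 4)))))) (.c k168 (.q k171 [(.s k10 k5 2 (.s k26 k58 3 (.s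
  k47 k31 3 (.d k37 k32 k48 2 6)))), (.s k31 k47 3 (.s k94 k173 12 (.s k157 k220 8 (.s k110 k204 12
  (.d k126 k78 k189 3 8))))), (.s k10 k5 2 (.s k14 k6 1 (.s k62 k22 5 (.s k12 k13 0 (.d k46 k30 k29
  3 4)))))] .n) (.c k171 (.l (.s k168 k84 13 (.s k10 k5 2 (.s k26 k58 3 (.s k37 k48 6 (.d k47 k32
  k31 2 3)))))) .n)))) (.c k252 (.q k169 [(.s k10 k5 2 (.s k26 k58 3 (.s k47 k31 3 (.d k37 k32 k48 2
  6)))), (.s k62 k22 5 (.s k31 k47 3 (.s k60 k61 0 (.s k30 k45 4 (.s k46 k14 3 (.d k29 k28 k12 0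
  4)))))), (.s k10 k5 2 (.s k14 k6 1 (.s k62 k22 5 (.s k12 k13 0 (.d k46 k30 k29 3 4)))))] .n)
  .n)))) (.c k21 (.q k15 [(.s k3 k1 0 (.s k10 k5 2 (.s k6 k14 1 (.s k9 k12 2 (.d k11 k8 k7 0 1))))),
  (.s k3 k1 0 (.s k7 k11 1 (.s k23 k43 5 (.s k39 k55 3 (.s k27 k51 5 (.d k31 k19 k47 1 3)))))), (.s
  k10 k5 2 (.s k14 k6 1 (.s k12 k13 0 (.s k46 k29 4 (.s k30 k62 3 (.s k45 k60 4 (.d k47 k44 k31 0
  3)))))))] (.c k1 (.q k61 [(.s k47 k31 3 (.s k60 k62 0 (.s k45 k30 4 (.s k46 k44 0 (.d k29 k13 k12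
  3 4))))), (.s k47 k31 3 (.s k62 k60 0 (.s k42 k22 5 (.s k37 k32 2 (.s k26 k48 6 (.d k10 k5 k58 2
  3)))))), (.s k10 k5 2 (.s k14 k6 1 (.s k13 k12 0 (.s k45 k29 3 (.d k60 k62 k30 0 4)))))] (.c k60
  (.q k12 [(.s k13 k14 0 (.d k29 k45 k46 3 4)), (.s k10 k5 2 (.d k14 k13 k6 0 1))] (.c k13 (.l (.s
  k8 k4 1 (.s k10 k5 2 (.s k9 k11 0 (.d k6 k14 k3 1 2))))) (.c k14 (.q k42 [(.s k8 k4 1 (.s k25 k59
  4 (.s k46 k29 4 (.d k38 k34 k51 1 6)))), (.s k10 k5 2 (.s k26 k58 3 (.s k37 k48 6 (.d k47 k32 k31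
  2 3))))] .n) .n))) (.c k62 (.q k12 [(.s k13 k14 0 (.d k29 k46 k45 4 3)), (.s k10 k5 2 (.d k14 k13
  k6 0 1))] (.c k13 (.l (.s k8 k4 1 (.s k10 k5 2 (.s k9 k11 0 (.d k6 k14 k3 1 2))))) (.c k14 (.l (.s
  k31 k47 3 (.s k29 k46 4 (.s k30 k28 0 (.d k45 k13 k60 3 4))))) .n))) .n))) (.c k7 (.f k5 k10 2 (.l
  (.s k1 k3 0 (.s k13 k9 1 (.s k12 k14 0 (.s k29 k46 4 (.s k45 k61 3 (.s k30 k60 4 (.d k31 k28 k47 0
  3))))))))) (.c k61 (.l (.s k10 k5 2 (.s k14 k6 1 (.s k12 k13 0 (.s k47 k31 3 (.s k46 k29 4 (.s k45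
  k44 0 (.d k30 k62 k60 3 4)))))))) .n)))) (.c k22 (.q k15 [(.s k3 k1 0 (.s k10 k5 2 (.s k6 k14 1
  (.s k9 k12 2 (.d k11 k8 k7 0 1))))), (.s k5 k10 2 (.s k21 k42 6 (.s k37 k53 3 (.s k26 k48 6 (.d
  k31 k16 k47 2 3))))), (.s k3 k1 0 (.s k7 k11 1 (.s k23 k43 5 (.s k39 k55 3 (.s k27 k51 5 (.d k31
  k19 k47 1 3))))))] (.c k150 (.q k214 [(.s k3 k1 0 (.s k10 k5 2 (.s k6 k14 1 (.s k9 k12 2 (.d k11
  k8 k7 0 1))))), (.s k5 k10 2 (.s k21 k42 6 (.s k37 k53 3 (.s k26 k48 6 (.d k31 k16 k47 2 3))))),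
  (.s k3 k1 0 (.s k7 k11 1 (.s k23 k43 5 (.s k39 k55 3 (.s k27 k51 5 (.d k31 k19 k47 1 3))))))] (.c
  k130 (.q k190 [(.s k3 k1 0 (.s k10 k5 2 (.s k6 k14 1 (.s k9 k12 2 (.d k11 k8 k7 0 1))))), (.s k5
  k10 2 (.s k21 k42 6 (.s k37 k53 3 (.s k26 k48 6 (.d k31 k16 k47 2 3))))), (.s k3 k1 0 (.s k7 k11 1
  (.s k23 k43 5 (.s k39 k55 3 (.s k27 k51 5 (.d k31 k19 k47 1 3))))))] .n) (.c k190 (.q k130 [(.s k3
  k1 0 (.s k10 k5 2 (.s k6 k14 1 (.s k9 k12 2 (.d k11 k8 k7 0 1))))), (.s k5 k10 2 (.s k21 k42 6 (.s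
  k37 k53 3 (.s k26 k48 6 (.d k31 k16 k47 2 3))))), (.s k3 k1 0 (.s k65 k195 8 (.s k66 k194 7 (.s
  k192 k129 8 (.d k64 k67 k128 0 7)))))] .n) .n))) (.c k214 (.q k150 [(.s k3 k1 0 (.s k10 k5 2 (.s
  k6 k14 1 (.s k9 k12 2 (.d k11 k8 k7 0 1))))), (.s k5 k10 2 (.s k21 k42 6 (.s k37 k53 3 (.s k26 k48
  6 (.d k31 k16 k47 2 3))))), (.s k3 k1 0 (.s k7 k11 1 (.s k23 k43 5 (.s k39 k55 3 (.s k27 k51 5 (.d
  k31 k19 k47 1 3))))))] .n) .n))) (.c k23 (.q k15 [(.s k3 k1 0 (.s k10 k5 2 (.s k6 k14 1 (.s k9 k12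
  2 (.d k11 k8 k7 0 1))))), (.s k5 k10 2 (.s k21 k42 6 (.s k37 k53 3 (.s k26 k48 6 (.d k31 k16 k47 2
  3))))), (.s k3 k1 0 (.s k42 k21 6 (.s k22 k62 5 (.s k7 k11 1 (.s k37 k52 4 (.d k47 k32 k31 2
  3))))))] (.c k149 (.q k212 [(.s k3 k1 0 (.s k10 k5 2 (.s k6 k14 1 (.s k9 k12 2 (.d k11 k8 k7 0
  1))))), (.s k5 k10 2 (.s k21 k42 6 (.s k37 k53 3 (.s k26 k48 6 (.d k31 k16 k47 2 3))))), (.s k3 k1
  0 (.s k42 k21 6 (.s k22 k62 5 (.s k7 k11 1 (.s k37 k52 4 (.d k47 k32 k31 2 3))))))] (.c k128 (.q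
  k191 [(.s k3 k1 0 (.s k10 k5 2 (.s k6 k14 1 (.s k9 k12 2 (.d k11 k8 k7 0 1))))), (.s k47 k31 3 (.s
  k255 k127 7 (.s k175 k95 11 (.s k111 k239 7 (.d k159 k143 k207 3 11)))))] .n) (.c k191 (.q k128
  [(.s k3 k1 0 (.s k10 k5 2 (.s k6 k14 1 (.s k9 k12 2 (.d k11 k8 k7 0 1))))), (.s k5 k10 2 (.s k21
  k42 6 (.s k37 k53 3 (.s k26 k48 6 (.d k31 k16 k47 2 3))))), (.s k3 k1 0 (.s k42 k21 6 (.s k22 k62
  5 (.s k7 k11 1 (.s k37 k52 4 (.d k47 k32 k31 2 3))))))] .n) .n))) (.c k212 (.q k149 [(.s k3 k1 0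
  (.s k10 k5 2 (.s k6 k14 1 (.s k9 k12 2 (.d k11 k8 k7 0 1))))), (.s k31 k47 3 (.s k90 k208 10 (.s
  k165 k240 14 (.s k192 k106 14 (.d k133 k181 k74 3 10)))))] .n) .n))) (.c k40 (.f k42 k21 6 (.q k15
  [(.s k10 k5 2 (.s k26 k58 3 (.s k37 k48 6 (.d k47 k32 k31 2 3)))), (.s k62 k22 5 (.s k60 k61 0 (.s
  k30 k45 4 (.s k14 k46 3 (.d k10 k6 k5 1 2))))), (.s k3 k1 0 (.s k22 k62 5 (.s k7 k11 1 (.s k37 k52
  4 (.d k47 k32 k31 2 3)))))] (.c k47 (.l (.s k3 k1 0 (.s k10 k5 2 (.s k6 k14 1 (.s k9 k12 2 (.d k11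
  k8 k7 0 1)))))) (.c k105 (.q k235 [(.s k10 k5 2 (.s k26 k58 3 (.s k37 k48 6 (.d k47 k32 k31 2
  3)))), (.s k62 k22 5 (.s k60 k61 0 (.s k30 k45 4 (.s k14 k46 3 (.d k10 k6 k5 1 2))))), (.s k3 k1 0
  (.s k22 k62 5 (.s k7 k11 1 (.s k37 k52 4 (.d k47 k32 k31 2 3)))))] (.c k47 (.l (.s k3 k1 0 (.s k10
  k5 2 (.s k6 k14 1 (.s k9 k12 2 (.d k11 k8 k7 0 1)))))) (.c k67 (.q k124 [(.s k10 k5 2 (.s k26 k58
  3 (.s k37 k48 6 (.d k47 k32 k31 2 3)))), (.s k62 k22 5 (.s k60 k61 0 (.s k30 k45 4 (.s k14 k46 3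
  (.d k10 k6 k5 1 2))))), (.s k3 k1 0 (.s k22 k62 5 (.s k7 k11 1 (.s k37 k52 4 (.d k47 k32 k31 2
  3)))))] (.c k47 (.l (.s k3 k1 0 (.s k10 k5 2 (.s k6 k14 1 (.s k9 k12 2 (.d k11 k8 k7 0 1))))))
  .n)) (.c k124 (.q k67 [(.s k10 k5 2 (.s k26 k58 3 (.s k37 k48 6 (.d k47 k32 k31 2 3)))), (.s k3 k1
  0 (.s k43 k23 5 (.s k195 k131 7 (.d k107 k171 k151 7 13))))] .n) .n)))) (.c k235 (.q k105 [(.s k10
  k5 2 (.s k26 k58 3 (.s k37 k48 6 (.d k47 k32 k31 2 3)))), (.s k62 k22 5 (.s k60 k61 0 (.s k30 k45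
  4 (.s k14 k46 3 (.d k10 k6 k5 1 2))))), (.s k3 k1 0 (.s k22 k62 5 (.s k7 k11 1 (.s k37 k52 4 (.d
  k47 k32 k31 2 3)))))] (.c k47 (.l (.s k3 k1 0 (.s k10 k5 2 (.s k6 k14 1 (.s k9 k12 2 (.d k11 k8 k7
  0 1)))))) .n)) .n))))) (.c k41 (.q k15 [(.s k3 k1 0 (.s k10 k5 2 (.s k6 k14 1 (.s k9 k12 2 (.d k11
  k8 k7 0 1))))), (.s k5 k10 2 (.s k21 k42 6 (.s k37 k53 3 (.s k26 k48 6 (.d k31 k16 k47 2 3))))),
  (.s k3 k1 0 (.s k7 k11 1 (.s k23 k43 5 (.s k39 k55 3 (.s k27 k51 5 (.d k31 k19 k47 1 3))))))] (.c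
  k21 (.l (.s k10 k5 2 (.s k14 k6 1 (.s k12 k13 0 (.s k46 k29 4 (.s k30 k62 3 (.s k45 k60 4 (.d k47
  k44 k31 0 3)))))))) .n)) (.c k42 (.q k15 [(.s k3 k1 0 (.s k10 k5 2 (.s k6 k14 1 (.s k9 k12 2 (.d
  k11 k8 k7 0 1))))), (.s k3 k1 0 (.s k7 k11 1 (.s k23 k43 5 (.s k39 k55 3 (.s k27 k51 5 (.d k31 k19
  k47 1 3)))))), (.s k10 k5 2 (.s k14 k6 1 (.s k12 k13 0 (.s k46 k29 4 (.s k30 k62 3 (.s k45 k60 4
  (.d k47 k44 k31 0 3)))))))] (.c k1 (.f k10 k5 2 (.q k106 [(.s k31 k47 3 (.s k149 k192 14 (.s k90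
  k208 10 (.s k122 k74 3 (.d k240 k181 k165 10 14))))), (.s k192 k149 14 (.s k74 k133 10 (.s k138
  k202 7 (.s k69 k207 10 (.d k64 k128 k79 7 2))))), (.s k14 k6 1 (.s k47 k31 3 (.s k165 k224 10 (.s
  k90 k240 14 (.s k166 k242 13 (.s k46 k226 9 (.d k12 k13 k29 0 4)))))))] (.c k9 (.q k13 [(.d k14
  k12 k6 0 1), (.s k31 k47 3 (.s k149 k192 14 (.s k90 k208 10 (.s k240 k165 14 (.d k122 k74 k181 3
  10)))))] .n) (.c k13 (.q k9 [(.s k6 k14 1 (.s k3 k12 2 (.d k11 k8 k7 0 1))), (.s k31 k47 3 (.s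
  k149 k192 14 (.s k90 k208 10 (.s k240 k165 14 (.d k122 k74 k181 3 10)))))] (.c k7 (.l (.s k6 k14 1
  (.s k12 k3 2 (.d k8 k11 k4 0 1)))) .n)) (.c k165 (.l (.s k14 k6 1 (.s k31 k47 3 (.s k149 k192 14
  (.s k90 k208 10 (.s k166 k242 13 (.s k46 k226 9 (.d k12 k13 k29 0 4)))))))) (.c k192 (.q k12 [(.d
  k14 k13 k6 0 1), (.s k46 k29 4 (.s k47 k31 3 (.s k166 k226 9 (.s k243 k89 14 (.s k167 k91 13 (.d
  k165 k164 k224 0 10))))))] (.c k9 (.l (.s k13 k14 0 (.s k29 k46 4 (.s k45 k61 3 (.s k30 k60 4 (.d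
  k31 k28 k47 0 3)))))) (.c k13 (.q k9 [(.d k6 k14 k3 1 2), (.d k8 k11 k4 0 1)] .n) .n))) .n))))))
  (.c k7 (.f k5 k10 2 (.l (.s k1 k3 0 (.s k13 k9 1 (.s k12 k14 0 (.s k29 k46 4 (.s k45 k61 3 (.s k30
  k60 4 (.d k31 k28 k47 0 3))))))))) (.c k106 (.q k234 [(.s k3 k1 0 (.s k10 k5 2 (.s k6 k14 1 (.s k9
  k12 2 (.d k11 k8 k7 0 1))))), (.s k3 k1 0 (.s k7 k11 1 (.s k23 k43 5 (.s k39 k55 3 (.s k27 k51 5
  (.d k31 k19 k47 1 3)))))), (.s k10 k5 2 (.s k14 k6 1 (.s k12 k13 0 (.s k46 k29 4 (.s k30 k62 3 (.s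
  k45 k60 4 (.d k47 k44 k31 0 3)))))))] (.c k1 (.q k12 [(.s k10 k5 2 (.d k14 k13 k6 0 1)), (.s k13
  k14 0 (.s k29 k46 4 (.s k45 k61 3 (.s k30 k60 4 (.d k31 k28 k47 0 3)))))] (.c k13 (.l (.s k8 k4 1
  (.s k10 k5 2 (.s k9 k11 0 (.d k6 k14 k3 1 2))))) (.c k14 (.q k126 [(.s k252 k189 8 (.s k94 k173 12
  (.s k110 k78 3 (.s k157 k204 12 (.d k31 k47 k220 3 8))))), (.s k4 k8 1 (.s k252 k189 8 (.s k84
  k168 13 (.s k164 k244 11 (.s k88 k240 13 (.d k92 k80 k172 1 11))))))] (.c k189 (.q k9 [(.s k8 k4 1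
  (.d k10 k11 k5 0 2)), (.s k3 k6 2 (.s k7 k11 1 (.s k23 k43 5 (.s k39 k55 3 (.s k27 k51 5 (.d k31
  k19 k47 1 3))))))] (.c k11 (.l (.s k4 k8 1 (.s k5 k10 2 (.d k6 k7 k3 0 2)))) .n)) (.c k252 (.q k9
  [(.s k8 k4 1 (.d k10 k11 k5 0 2)), (.s k3 k6 2 (.s k7 k11 1 (.s k23 k43 5 (.s k39 k55 3 (.s k27
  k51 5 (.d k31 k19 k47 1 3))))))] (.c k3 (.q k169 [(.s k8 k4 1 (.d k10 k11 k5 0 2)), (.s k89 k249
  11 (.s k29 k46 4 (.s k31 k47 3 (.s k149 k209 9 (.s k90 k208 10 (.s k88 k91 0 (.d k240 k165 k164 14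
  13)))))))] .n) (.c k11 (.l (.s k4 k8 1 (.s k5 k10 2 (.d k6 k7 k3 0 2)))) (.c k169 (.l (.s k3 k6 2
  (.s k8 k4 1 (.d k10 k5 k11 2 0)))) .n)))) .n))) (.c k66 (.q k126 [(.s k10 k5 2 (.d k14 k13 k6 0
  1)), (.s k31 k47 3 (.s k252 k189 8 (.s k94 k173 12 (.s k157 k220 8 (.d k110 k78 k204 3 12)))))]
  .n) (.c k126 (.q k66 [(.s k10 k5 2 (.d k14 k13 k6 0 1)), (.s k4 k8 1 (.s k130 k194 7 (.s k195 k65
  8 (.s k134 k73 10 (.s k69 k199 8 (.d k138 k142 k207 1 10))))))] .n) .n))))) (.c k7 (.f k5 k10 2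
  (.l (.s k1 k3 0 (.s k13 k9 1 (.s k12 k14 0 (.s k29 k46 4 (.s k45 k61 3 (.s k30 k60 4 (.d k31 k28
  k47 0 3))))))))) (.c k66 (.q k126 [(.s k3 k1 0 (.s k10 k5 2 (.s k6 k14 1 (.s k9 k12 2 (.d k11 k8
  k7 0 1))))), (.s k31 k47 3 (.s k252 k189 8 (.s k94 k173 12 (.s k157 k220 8 (.d k110 k78 k204 3
  12)))))] .n) (.c k126 (.q k66 [(.s k3 k1 0 (.s k10 k5 2 (.s k6 k14 1 (.s k9 k12 2 (.d k11 k8 k7 0
  1))))), (.s k3 k1 0 (.s k130 k194 7 (.s k65 k195 8 (.s k192 k129 8 (.d k64 k67 k128 0 7))))), (.s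
  k10 k5 2 (.s k14 k6 1 (.s k194 k130 7 (.s k74 k134 9 (.s k138 k202 7 (.d k70 k78 k206 1 9))))))]
  .n) .n))))) (.c k234 (.q k106 [(.s k3 k1 0 (.s k10 k5 2 (.s k6 k14 1 (.s k9 k12 2 (.d k11 k8 k7 0
  1))))), (.s k31 k47 3 (.s k149 k192 14 (.s k90 k208 10 (.s k122 k74 3 (.d k240 k181 k165 10
  14)))))] .n) .n))))) (.c k43 (.q k15 [(.s k3 k1 0 (.s k10 k5 2 (.s k6 k14 1 (.s k9 k12 2 (.d k11
  k8 k7 0 1))))), (.s k5 k10 2 (.s k21 k42 6 (.s k37 k53 3 (.s k26 k48 6 (.d k31 k16 k47 2 3))))),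
  (.s k3 k1 0 (.s k42 k21 6 (.s k22 k62 5 (.s k7 k11 1 (.s k37 k52 4 (.d k47 k32 k31 2 3))))))] .n)
  (.c k60 (.q k15 [(.s k3 k1 0 (.s k10 k5 2 (.s k6 k14 1 (.s k9 k12 2 (.d k11 k8 k7 0 1))))), (.s k5
  k10 2 (.s k21 k42 6 (.s k37 k53 3 (.s k26 k48 6 (.d k31 k16 k47 2 3))))), (.s k3 k1 0 (.s k42 k21
  6 (.s k22 k62 5 (.s k7 k11 1 (.s k37 k52 4 (.d k47 k32 k31 2 3))))))] .n) (.c k61 (.l (.s k3 k1 0
  (.s k43 k23 5 (.s k42 k21 6 (.s k41 k40 0 (.d k22 k62 k60 5 6)))))) (.c k62 (.q k15 [(.s k3 k1 0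
  (.s k10 k5 2 (.s k6 k14 1 (.s k9 k12 2 (.d k11 k8 k7 0 1))))), (.s k5 k10 2 (.s k21 k42 6 (.s k37
  k53 3 (.s k26 k48 6 (.d k31 k16 k47 2 3))))), (.s k3 k1 0 (.s k7 k11 1 (.s k23 k43 5 (.s k39 k55 3
  (.s k27 k51 5 (.d k31 k19 k47 1 3))))))] .n) .n)))))))))))))

def t87 : T TT 256 :=
  (.f k42 k21 6 (.q k48 [(.s k32 k16 3 (.s k37 k47 2 (.s k26 k15 6 (.d k58 k53 k10 2 3))))] (.c k10
  (.f k53 k58 2 (.q k51 [(.s k34 k17 4 (.s k38 k46 1 (.s k25 k12 6 (.d k59 k55 k8 1 4)))), (.s k49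
  k50 0 (.s k57 k61 1 (.s k54 k60 2 (.d k55 k52 k59 0 1)))), (.s k16 k32 3 (.s k17 k34 4 (.s k18 k19
  0 (.s k33 k3 4 (.d k49 k50 k1 0 3)))))] (.c k90 (.q k250 [(.s k34 k17 4 (.s k38 k46 1 (.s k25 k12
  6 (.d k59 k55 k8 1 4)))), (.s k49 k50 0 (.s k57 k61 1 (.s k54 k60 2 (.d k55 k52 k59 0 1)))), (.s
  k16 k32 3 (.s k17 k34 4 (.s k18 k19 0 (.s k33 k3 4 (.d k49 k50 k1 0 3)))))] .n) (.c k250 (.q k90
  [(.s k34 k17 4 (.s k38 k46 1 (.s k25 k12 6 (.d k59 k55 k8 1 4)))), (.s k49 k50 0 (.s k57 k61 1 (.s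
  k54 k60 2 (.d k55 k52 k59 0 1)))), (.s k16 k32 3 (.s k17 k34 4 (.s k18 k19 0 (.s k33 k3 4 (.d k49
  k50 k1 0 3)))))] (.c k122 (.q k186 [(.s k34 k17 4 (.s k38 k46 1 (.s k25 k12 6 (.d k59 k55 k8 1
  4)))), (.s k49 k50 0 (.s k57 k61 1 (.s k54 k60 2 (.d k55 k52 k59 0 1)))), (.s k16 k32 3 (.s k17
  k34 4 (.s k18 k19 0 (.s k33 k3 4 (.d k49 k50 k1 0 3)))))] .n) (.c k186 (.q k122 [(.s k34 k17 4 (.s
  k38 k46 1 (.s k25 k12 6 (.d k59 k55 k8 1 4)))), (.s k32 k16 3 (.s k37 k47 2 (.s k240 k181 10 (.d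
  k15 k26 k165 6 14))))] (.c k138 (.q k154 [(.s k101 k207 14 (.s k149 k197 11 (.d k106 k74 k192 3
  14))), (.s k32 k16 3 (.s k26 k218 7 (.d k37 k47 k15 2 6)))] (.c k74 (.q k202 [(.s k26 k218 7 (.s
  k15 k37 6 (.d k240 k181 k165 10 14))), (.s k101 k207 14 (.s k240 k181 10 (.d k112 k176 k79 7 6))),
  (.s k32 k16 3 (.s k26 k218 7 (.d k37 k47 k15 2 6)))] .n) (.c k202 (.l (.s k74 k106 3 (.s k32 k16 3
  (.s k37 k47 2 (.d k26 k15 k218 6 7))))) .n))) (.c k154 (.q k138 [(.s k34 k17 4 (.s k38 k46 1 (.s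
  k25 k12 6 (.d k59 k55 k8 1 4)))), (.s k32 k16 3 (.s k37 k47 2 (.s k240 k181 10 (.d k15 k26 k165 6
  14))))] (.c k106 (.q k202 [(.s k34 k17 4 (.s k38 k46 1 (.s k25 k12 6 (.d k59 k55 k8 1 4)))), (.s
  k32 k16 3 (.s k37 k47 2 (.s k240 k181 10 (.d k15 k26 k165 6 14))))] .n) (.c k202 (.l (.s k106 k74
  3 (.s k32 k16 3 (.s k37 k47 2 (.s k240 k181 10 (.d k15 k26 k165 6 14)))))) .n))) .n))) .n)))
  .n)))) (.c k15 (.q k51 [(.s k34 k17 4 (.s k38 k46 1 (.s k59 k55 1 (.d k25 k8 k12 4 6)))), (.s k16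
  k32 3 (.s k17 k34 4 (.s k18 k19 0 (.s k33 k3 4 (.d k49 k50 k1 0 3))))), (.s k32 k16 3 (.s k37 k47
  2 (.s k49 k50 0 (.s k25 k13 5 (.d k59 k55 k8 1 4)))))] .n) (.c k16 (.q k51 [(.s k34 k17 4 (.s k38
  k46 1 (.s k25 k12 6 (.d k59 k55 k8 1 4)))), (.s k49 k50 0 (.s k53 k58 2 (.s k57 k61 1 (.s k54 k60
  2 (.d k55 k52 k59 0 1))))), (.s k34 k17 4 (.s k38 k46 1 (.s k50 k49 0 (.s k26 k14 5 (.d k58 k53
  k10 2 3)))))] (.c k26 (.q k31 [(.s k34 k17 4 (.s k38 k46 1 (.s k25 k12 6 (.d k59 k55 k8 1 4)))),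
  (.s k15 k47 3 (.s k27 k39 5 (.s k59 k55 1 (.s k43 k11 3 (.d k23 k19 k3 1 5))))), (.s k34 k17 4 (.s
  k50 k49 0 (.s k58 k53 2 (.s k62 k54 1 (.d k2 k18 k22 3 5)))))] (.c k19 (.l (.s k59 k55 1 (.s k25
  k8 4 (.s k38 k12 6 (.d k34 k46 k17 1 4))))) (.c k55 (.l (.s k34 k17 4 (.s k15 k47 3 (.s k39 k27 5
  (.s k38 k46 1 (.s k36 k37 0 (.d k12 k24 k25 5 6))))))) .n))) (.c k31 (.q k26 [(.d k58 k53 k10 2
  3), (.s k34 k17 4 (.s k38 k46 1 (.d k50 k49 k14 0 5)))] .n) .n))) (.c k26 (.q k51 [(.s k34 k17 4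
  (.s k38 k46 1 (.s k25 k12 6 (.d k59 k55 k8 1 4)))), (.s k16 k32 3 (.s k17 k34 4 (.s k18 k19 0 (.s
  k33 k3 4 (.d k49 k50 k1 0 3))))), (.s k49 k50 0 (.s k53 k58 2 (.s k57 k61 1 (.s k54 k60 2 (.d k55
  k52 k59 0 1)))))] (.c k16 (.q k31 [(.s k34 k17 4 (.s k38 k46 1 (.s k25 k12 6 (.d k59 k55 k8 1
  4)))), (.s k15 k47 3 (.s k27 k39 5 (.s k59 k55 1 (.s k43 k11 3 (.d k23 k19 k3 1 5))))), (.s k34
  k17 4 (.s k50 k49 0 (.s k58 k53 2 (.s k62 k54 1 (.d k2 k18 k22 3 5)))))] (.c k19 (.l (.s k59 k55 1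
  (.s k25 k8 4 (.s k38 k12 6 (.d k34 k46 k17 1 4))))) (.c k55 (.l (.s k34 k17 4 (.s k15 k47 3 (.s
  k39 k27 5 (.s k38 k46 1 (.s k36 k37 0 (.d k12 k24 k25 5 6))))))) .n))) (.c k31 (.l (.s k16 k32 3
  (.s k17 k34 4 (.s k18 k19 0 (.s k33 k3 4 (.d k49 k50 k1 0 3)))))) .n))) (.c k31 (.l (.s k58 k53 2
  (.s k32 k16 3 (.s k26 k10 3 (.d k37 k47 k15 2 6))))) (.c k32 (.f k53 k58 2 (.q k51 [(.s k34 k17 4
  (.s k38 k46 1 (.s k25 k12 6 (.d k59 k55 k8 1 4)))), (.s k49 k50 0 (.s k57 k61 1 (.s k54 k60 2 (.d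
  k55 k52 k59 0 1)))), (.s k34 k17 4 (.s k38 k46 1 (.s k25 k12 6 (.s k49 k50 0 (.s k37 k13 5 (.s k15
  k26 6 (.d k39 k36 k27 0 5)))))))] (.c k101 (.q k239 [(.s k34 k17 4 (.s k38 k46 1 (.s k25 k12 6 (.d
  k59 k55 k8 1 4)))), (.s k49 k50 0 (.s k57 k61 1 (.s k54 k60 2 (.d k55 k52 k59 0 1)))), (.s k34 k17
  4 (.s k38 k46 1 (.s k25 k12 6 (.s k49 k50 0 (.s k37 k13 5 (.s k15 k26 6 (.d k39 k36 k27 0
  5)))))))] .n) (.c k239 (.q k101 [(.s k34 k17 4 (.s k38 k46 1 (.s k25 k12 6 (.d k59 k55 k8 1 4)))),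
  (.s k154 k207 14 (.s k149 k197 11 (.s k192 k106 14 (.d k144 k159 k96 2 11))))] .n) .n)))) (.c k37
  (.q k51 [(.s k34 k17 4 (.s k38 k46 1 (.s k25 k12 6 (.d k59 k55 k8 1 4)))), (.s k16 k32 3 (.s k17
  k34 4 (.s k18 k19 0 (.s k33 k3 4 (.d k49 k50 k1 0 3))))), (.s k49 k50 0 (.s k53 k58 2 (.s k57 k61
  1 (.s k54 k60 2 (.d k55 k52 k59 0 1)))))] (.c k5 (.l (.s k53 k58 2 (.s k34 k17 4 (.s k38 k46 1 (.s
  k25 k12 6 (.d k59 k55 k8 1 4)))))) (.c k53 (.q k5 [(.s k34 k17 4 (.s k38 k46 1 (.s k25 k12 6 (.d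
  k59 k55 k8 1 4)))), (.s k16 k32 3 (.s k17 k34 4 (.s k18 k19 0 (.s k33 k3 4 (.d k49 k50 k1 0
  3))))), (.s k10 k15 2 (.s k26 k58 3 (.s k50 k49 0 (.s k38 k14 5 (.s k59 k55 1 (.d k25 k12 k8 6
  4))))))] .n) .n))) (.c k47 (.q k51 [(.s k34 k17 4 (.s k38 k46 1 (.s k25 k12 6 (.d k59 k55 k8 1
  4)))), (.s k16 k32 3 (.s k17 k34 4 (.s k18 k19 0 (.s k33 k3 4 (.d k49 k50 k1 0 3))))), (.s k49 k50
  0 (.s k53 k58 2 (.s k57 k61 1 (.s k54 k60 2 (.d k55 k52 k59 0 1)))))] .n) (.c k53 (.q k51 [(.s k34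
  k17 4 (.s k38 k46 1 (.s k25 k12 6 (.d k59 k55 k8 1 4)))), (.s k16 k32 3 (.s k17 k34 4 (.s k18 k19
  0 (.s k33 k3 4 (.d k49 k50 k1 0 3))))), (.s k32 k16 3 (.s k37 k47 2 (.s k49 k50 0 (.s k25 k13 5
  (.d k59 k55 k8 1 4)))))] (.c k5 (.q k37 [(.d k32 k47 k16 2 3), (.s k49 k50 0 (.s k25 k13 5 (.d k59
  k55 k8 1 4)))] .n) (.c k37 (.q k5 [(.s k34 k17 4 (.s k38 k46 1 (.s k25 k12 6 (.d k59 k55 k8 1
  4)))), (.s k16 k32 3 (.s k17 k34 4 (.s k18 k19 0 (.s k33 k3 4 (.d k49 k50 k1 0 3))))), (.s k10 k15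
  2 (.s k26 k58 3 (.s k50 k49 0 (.s k38 k14 5 (.s k59 k55 1 (.d k25 k12 k8 6 4))))))] .n) .n))) (.c
  k58 (.q k51 [(.s k34 k17 4 (.s k38 k46 1 (.s k25 k12 6 (.d k59 k55 k8 1 4)))), (.s k16 k32 3 (.s
  k17 k34 4 (.s k18 k19 0 (.s k33 k3 4 (.d k49 k50 k1 0 3))))), (.s k32 k16 3 (.s k37 k47 2 (.s k49
  k50 0 (.s k25 k13 5 (.d k59 k55 k8 1 4)))))] .n) .n))))))))))))

def t90 : T TT 256 :=
  (.q k10 [(.s k15 k5 2 (.s k42 k21 6 (.s k26 k58 3 (.s k37 k48 6 (.d k47 k32 k31 2 3)))))] (.c k5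
  (.f k42 k21 6 (.q k51 [(.s k34 k17 4 (.s k38 k46 1 (.s k25 k12 6 (.d k59 k55 k8 1 4)))), (.s k58
  k26 3 (.s k53 k48 2 (.s k55 k59 1 (.s k54 k52 0 (.s k60 k57 2 (.d k62 k61 k50 0 1)))))), (.s k34
  k17 4 (.s k26 k58 3 (.s k38 k46 1 (.s k50 k14 5 (.s k48 k49 0 (.s k32 k16 3 (.d k37 k47 k15 2
  6)))))))] (.c k37 (.q k53 [(.d k58 k48 k26 2 3), (.s k34 k17 4 (.s k38 k46 1 (.s k25 k12 6 (.d k59
  k55 k8 1 4))))] .n) (.c k53 (.q k37 [(.s k26 k58 3 (.s k15 k48 6 (.d k47 k32 k31 2 3))), (.s k34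
  k17 4 (.s k38 k46 1 (.s k25 k12 6 (.d k59 k55 k8 1 4))))] .n) .n)))) (.c k15 (.f k42 k21 6 (.q k3
  [(.s k2 k1 0 (.s k22 k62 5 (.s k43 k23 5 (.d k41 k40 k60 0 6)))), (.s k2 k1 0 (.s k6 k14 1 (.s k12
  k9 2 (.s k8 k4 1 (.s k25 k59 4 (.s k38 k51 6 (.d k46 k34 k29 1 4))))))), (.s k43 k23 5 (.s k26 k58
  3 (.s k41 k40 0 (.s k11 k56 4 (.s k8 k9 0 (.d k59 k27 k25 3 4))))))] (.c k41 (.l (.s k1 k2 0 (.s
  k58 k26 3 (.s k48 k53 2 (.s k33 k18 4 (.s k17 k49 3 (.s k34 k51 4 (.d k32 k16 k35 3 0)))))))) (.c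
  k165 (.q k240 [(.s k2 k1 0 (.s k22 k62 5 (.s k43 k23 5 (.d k41 k40 k60 0 6)))), (.s k1 k2 0 (.s
  k160 k80 11 (.s k161 k82 12 (.s k81 k241 11 (.d k162 k163 k243 0 12))))), (.s k43 k23 5 (.s k26
  k58 3 (.s k41 k40 0 (.s k11 k56 4 (.s k8 k9 0 (.d k59 k27 k25 3 4))))))] (.c k160 (.q k175 [(.s k2
  k1 0 (.s k22 k62 5 (.s k43 k23 5 (.d k41 k40 k60 0 6)))), (.s k58 k26 3 (.s k48 k53 2 (.s k112
  k176 7 (.s k122 k181 10 (.s k186 k250 7 (.d k117 k127 k255 2 10))))))] .n) (.c k175 (.l (.s k160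
  k80 11 (.s k1 k2 0 (.s k161 k82 12 (.s k81 k241 11 (.d k162 k163 k243 0 12)))))) .n))) (.c k240
  (.q k165 [(.s k2 k1 0 (.s k22 k62 5 (.s k43 k23 5 (.d k41 k40 k60 0 6)))), (.s k2 k1 0 (.s k6 k14
  1 (.s k12 k9 2 (.s k8 k4 1 (.s k25 k59 4 (.s k38 k51 6 (.d k46 k34 k29 1 4))))))), (.s k43 k23 5
  (.s k26 k58 3 (.s k41 k40 0 (.s k11 k56 4 (.s k8 k9 0 (.d k59 k27 k25 3 4))))))] (.c k41 (.l (.s
  k1 k2 0 (.s k58 k26 3 (.s k48 k53 2 (.s k33 k18 4 (.s k17 k49 3 (.s k34 k51 4 (.d k32 k16 k35 3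
  0)))))))) .n)) .n))))) (.c k21 (.q k3 [(.s k1 k2 0 (.s k5 k15 2 (.s k9 k13 1 (.s k12 k6 2 (.d k8
  k11 k4 0 1))))), (.s k15 k5 2 (.s k7 k11 1 (.s k23 k43 5 (.s k39 k55 3 (.s k27 k51 5 (.d k31 k19
  k47 1 3))))))] (.c k4 (.l (.s k2 k1 0 (.s k15 k5 2 (.s k6 k14 1 (.s k9 k12 2 (.d k11 k7 k8 1
  0)))))) (.c k5 (.q k51 [(.s k1 k2 0 (.s k17 k34 4 (.s k33 k49 3 (.s k18 k48 4 (.d k19 k16 k35 0
  3))))), (.s k2 k1 0 (.s k6 k14 1 (.s k9 k12 2 (.s k43 k23 5 (.s k11 k8 0 (.d k59 k55 k27 1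
  3)))))), (.s k19 k35 3 (.s k23 k43 5 (.s k27 k31 1 (.s k39 k15 5 (.d k55 k59 k7 1 3)))))] (.c k37
  (.q k53 [(.s k1 k2 0 (.s k48 k58 2 (.s k33 k18 4 (.d k17 k34 k49 4 3)))), (.s k19 k35 3 (.s k23
  k43 5 (.s k27 k31 1 (.s k55 k59 1 (.d k39 k7 k15 3 5)))))] .n) (.c k53 (.q k37 [(.s k1 k2 0 (.s
  k17 k34 4 (.s k33 k49 3 (.s k18 k48 4 (.d k19 k16 k35 0 3))))), (.s k19 k35 3 (.s k23 k43 5 (.s
  k27 k31 1 (.s k39 k15 5 (.d k55 k59 k7 1 3))))), (.s k2 k1 0 (.s k6 k14 1 (.s k9 k12 2 (.s k43 k23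
  5 (.s k11 k8 0 (.d k59 k55 k27 1 3))))))] .n) .n))) (.c k11 (.l (.s k2 k1 0 (.s k5 k15 2 (.s k6
  k14 1 (.s k12 k9 2 (.d k4 k7 k8 0 1)))))) (.c k15 (.q k42 [(.s k2 k1 0 (.s k22 k62 5 (.s k43 k23 5
  (.d k41 k40 k60 0 6)))), (.s k2 k1 0 (.s k6 k14 1 (.s k12 k9 2 (.s k8 k4 1 (.s k25 k59 4 (.s k38
  k51 6 (.d k46 k34 k29 1 4))))))), (.s k43 k23 5 (.s k26 k58 3 (.s k41 k40 0 (.s k11 k56 4 (.s k8
  k9 0 (.d k59 k27 k25 3 4))))))] (.c k41 (.l (.s k1 k2 0 (.s k58 k26 3 (.s k48 k53 2 (.s k33 k18 4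
  (.s k17 k49 3 (.s k34 k51 4 (.d k32 k16 k35 3 0)))))))) (.c k165 (.q k240 [(.s k2 k1 0 (.s k22 k62
  5 (.s k43 k23 5 (.d k41 k40 k60 0 6)))), (.s k1 k2 0 (.s k160 k80 11 (.s k161 k82 12 (.s k81 k241
  11 (.d k162 k163 k243 0 12))))), (.s k43 k23 5 (.s k26 k58 3 (.s k41 k40 0 (.s k11 k56 4 (.s k8 k9
  0 (.d k59 k27 k25 3 4))))))] (.c k160 (.q k175 [(.s k2 k1 0 (.s k22 k62 5 (.s k43 k23 5 (.d k41
  k40 k60 0 6)))), (.s k58 k26 3 (.s k48 k53 2 (.s k112 k176 7 (.s k122 k181 10 (.s k186 k250 7 (.d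
  k117 k127 k255 2 10))))))] .n) (.c k175 (.l (.s k160 k80 11 (.s k1 k2 0 (.s k161 k82 12 (.s k81
  k241 11 (.d k162 k163 k243 0 12)))))) .n))) (.c k240 (.q k165 [(.s k2 k1 0 (.s k22 k62 5 (.s k43
  k23 5 (.d k41 k40 k60 0 6)))), (.s k2 k1 0 (.s k6 k14 1 (.s k12 k9 2 (.s k8 k4 1 (.s k25 k59 4 (.s
  k38 k51 6 (.d k46 k34 k29 1 4))))))), (.s k43 k23 5 (.s k26 k58 3 (.s k41 k40 0 (.s k11 k56 4 (.s
  k8 k9 0 (.d k59 k27 k25 3 4))))))] (.c k41 (.l (.s k1 k2 0 (.s k58 k26 3 (.s k48 k53 2 (.s k33 k18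
  4 (.s k17 k49 3 (.s k34 k51 4 (.d k32 k16 k35 3 0)))))))) .n)) .n)))) .n))))) (.c k26 (.f k15 k5 2
  (.q k3 [(.s k11 k7 1 (.s k2 k1 0 (.s k9 k8 0 (.d k6 k14 k12 1 2)))), (.s k1 k2 0 (.s k21 k42 6 (.s
  k41 k61 5 (.s k22 k60 6 (.d k23 k20 k43 0 5))))), (.s k42 k21 6 (.s k11 k7 1 (.s k43 k23 5 (.s k59
  k27 3 (.d k8 k25 k9 4 0)))))] (.c k154 (.q k218 [(.s k11 k7 1 (.s k2 k1 0 (.s k9 k8 0 (.d k6 k14
  k12 1 2)))), (.s k1 k2 0 (.s k21 k42 6 (.s k41 k61 5 (.s k22 k60 6 (.d k23 k20 k43 0 5))))), (.s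
  k42 k21 6 (.s k11 k7 1 (.s k43 k23 5 (.s k59 k27 3 (.d k8 k25 k9 4 0)))))] (.c k138 (.q k186 [(.s
  k2 k1 0 (.s k6 k14 1 (.s k9 k12 2 (.d k11 k8 k7 0 1)))), (.s k1 k2 0 (.s k21 k42 6 (.s k41 k61 5
  (.s k22 k60 6 (.d k23 k20 k43 0 5))))), (.s k42 k21 6 (.s k11 k7 1 (.s k43 k23 5 (.s k59 k27 3 (.d
  k8 k25 k9 4 0)))))] .n) (.c k186 (.q k138 [(.s k2 k1 0 (.s k11 k7 1 (.s k9 k8 0 (.d k6 k14 k12 1
  2)))), (.s k69 k207 10 (.s k74 k202 7 (.s k192 k133 10 (.d k64 k79 k128 2 7))))] .n) .n))) (.c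
  k218 (.q k154 [(.s k11 k7 1 (.s k2 k1 0 (.s k9 k8 0 (.d k6 k14 k12 1 2)))), (.s k1 k2 0 (.s k21
  k42 6 (.s k41 k61 5 (.s k22 k60 6 (.d k23 k20 k43 0 5))))), (.s k42 k21 6 (.s k11 k7 1 (.s k43 k23
  5 (.s k59 k27 3 (.d k8 k25 k9 4 0)))))] .n) .n)))) (.c k31 (.f k15 k5 2 (.q k3 [(.s k2 k1 0 (.s k6
  k14 1 (.s k9 k12 2 (.d k11 k8 k7 0 1)))), (.s k1 k2 0 (.s k21 k42 6 (.s k41 k61 5 (.s k22 k60 6
  (.d k23 k20 k43 0 5))))), (.s k42 k21 6 (.s k11 k7 1 (.s k43 k23 5 (.s k26 k58 3 (.d k41 k40 k56 0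
  4)))))] (.c k149 (.q k208 [(.s k2 k1 0 (.s k6 k14 1 (.s k9 k12 2 (.d k11 k8 k7 0 1)))), (.s k1 k2
  0 (.s k21 k42 6 (.s k41 k61 5 (.s k22 k60 6 (.d k23 k20 k43 0 5))))), (.s k42 k21 6 (.s k11 k7 1
  (.s k43 k23 5 (.s k26 k58 3 (.d k41 k40 k56 0 4)))))] (.c k128 (.q k191 [(.s k2 k1 0 (.s k6 k14 1
  (.s k9 k12 2 (.d k11 k8 k7 0 1)))), (.s k1 k2 0 (.s k21 k42 6 (.s k41 k61 5 (.s k22 k60 6 (.d k23
  k20 k43 0 5))))), (.s k42 k21 6 (.s k11 k7 1 (.s k43 k23 5 (.s k26 k58 3 (.d k41 k40 k56 0 4)))))]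
  .n) (.c k191 (.q k128 [(.s k2 k1 0 (.s k6 k14 1 (.s k9 k12 2 (.d k11 k8 k7 0 1)))), (.s k1 k2 0
  (.s k21 k42 6 (.s k41 k61 5 (.s k22 k60 6 (.d k23 k20 k43 0 5))))), (.s k42 k21 6 (.s k11 k7 1 (.s
  k43 k23 5 (.s k26 k58 3 (.d k41 k40 k56 0 4)))))] .n) .n))) (.c k208 (.q k149 [(.s k2 k1 0 (.s k6
  k14 1 (.s k9 k12 2 (.d k11 k8 k7 0 1)))), (.s k1 k2 0 (.s k21 k42 6 (.s k41 k61 5 (.s k22 k60 6
  (.d k23 k20 k43 0 5))))), (.s k42 k21 6 (.s k11 k7 1 (.s k43 k23 5 (.s k26 k58 3 (.d k41 k40 k56 0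
  4)))))] .n) .n)))) (.c k32 (.f k42 k21 6 (.q k3 [(.s k2 k1 0 (.s k22 k62 5 (.s k41 k60 6 (.d k43
  k40 k23 0 5)))), (.s k1 k2 0 (.s k5 k15 2 (.s k9 k13 1 (.s k12 k6 2 (.d k8 k11 k4 0 1))))), (.s
  k15 k5 2 (.s k11 k7 1 (.s k43 k23 5 (.s k26 k58 3 (.d k41 k40 k56 0 4)))))] (.c k101 (.q k239 [(.s
  k2 k1 0 (.s k22 k62 5 (.s k41 k60 6 (.d k43 k40 k23 0 5)))), (.s k1 k2 0 (.s k5 k15 2 (.s k9 k13 1
  (.s k12 k6 2 (.d k8 k11 k4 0 1))))), (.s k15 k5 2 (.s k11 k7 1 (.s k43 k23 5 (.s k26 k58 3 (.d k41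
  k40 k56 0 4)))))] (.c k79 (.q k112 [(.s k2 k1 0 (.s k22 k62 5 (.s k41 k60 6 (.d k43 k40 k23 0
  5)))), (.s k1 k2 0 (.s k5 k15 2 (.s k9 k13 1 (.s k12 k6 2 (.d k8 k11 k4 0 1))))), (.s k15 k5 2 (.s
  k11 k7 1 (.s k43 k23 5 (.s k26 k58 3 (.d k41 k40 k56 0 4)))))] .n) (.c k112 (.q k79 [(.s k2 k1 0
  (.s k22 k62 5 (.s k41 k60 6 (.d k43 k40 k23 0 5)))), (.s k15 k5 2 (.s k47 k31 3 (.s k207 k143 7
  (.d k111 k175 k159 7 11))))] .n) .n))) (.c k239 (.q k101 [(.s k2 k1 0 (.s k22 k62 5 (.s k41 k60 6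
  (.d k43 k40 k23 0 5)))), (.s k1 k2 0 (.s k5 k15 2 (.s k9 k13 1 (.s k12 k6 2 (.d k8 k11 k4 0
  1))))), (.s k15 k5 2 (.s k11 k7 1 (.s k43 k23 5 (.s k26 k58 3 (.d k41 k40 k56 0 4)))))] .n) .n))))
  (.c k37 (.q k3 [(.s k15 k5 2 (.s k7 k11 1 (.s k23 k43 5 (.s k39 k55 3 (.s k27 k51 5 (.d k31 k19
  k47 1 3)))))), (.s k1 k2 0 (.s k5 k15 2 (.s k9 k13 1 (.s k12 k6 2 (.d k8 k11 k4 0 1))))), (.s k1
  k2 0 (.s k21 k42 6 (.s k41 k61 5 (.s k22 k60 6 (.d k23 k20 k43 0 5)))))] .n) (.c k42 (.f k15 k5 2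
  (.q k207 [(.s k138 k69 10 (.s k74 k202 7 (.s k133 k192 10 (.d k143 k128 k79 2 7)))), (.s k31 k47 3
  (.s k143 k79 7 (.s k159 k111 11 (.s k95 k223 7 (.d k175 k191 k255 3 11)))))] (.c k79 (.q k101 [(.s
  k154 k48 14 (.s k111 k159 11 (.s k106 k96 2 (.s k202 k58 11 (.d k192 k197 k149 2 14))))), (.s k69
  k138 10 (.s k31 k47 3 (.s k154 k48 14 (.s k159 k111 11 (.s k85 k117 3 (.d k223 k95 k16 7 10)))))),
  (.s k138 k69 10 (.s k74 k202 7 (.s k111 k159 11 (.s k106 k96 2 (.d k192 k133 k149 10 14))))), (.s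
  k47 k31 3 (.s k48 k154 14 (.s k53 k58 2 (.s k149 k197 11 (.s k106 k192 14 (.s k165 k224 10 (.d k37
  k26 k229 6 7)))))))] (.c k106 (.q k234 [(.s k69 k138 10 (.s k154 k48 14 (.s k159 k111 11 (.s k85
  k117 3 (.s k223 k16 10 (.d k31 k95 k47 7 3)))))), (.s k138 k69 10 (.s k154 k48 14 (.s k159 k111 11
  (.s k149 k144 2 (.s k197 k53 11 (.d k202 k192 k74 2 7)))))), (.s k138 k69 10 (.s k47 k31 3 (.s
  k111 k159 11 (.s k239 k175 7 (.s k229 k224 2 (.s k218 k240 6 (.d k202 k74 k250 7 3)))))))] (.c k69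
  (.l (.s k47 k31 3 (.s k48 k154 14 (.s k111 k159 11 (.s k239 k175 7 (.s k229 k224 2 (.d k37 k26
  k165 6 7))))))) (.c k74 (.q k122 [(.s k69 k138 10 (.s k117 k85 3 (.s k127 k112 2 (.s k255 k191 7
  (.d k48 k186 k154 10 14))))), (.s k47 k31 3 (.s k111 k159 11 (.s k240 k181 10 (.s k229 k218 6 (.d
  k239 k224 k175 2 7)))))] (.c k64 (.l (.s k69 k138 10 (.s k240 k181 10 (.s k229 k218 6 (.s k37 k165
  7 (.d k48 k26 k154 6 14)))))) (.c k69 (.q k64 [(.s k192 k128 7 (.s k240 k181 10 (.s k218 k229 6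
  (.d k202 k197 k250 2 3)))), (.s k240 k181 10 (.s k80 k160 11 (.s k112 k96 3 (.d k48 k176 k154 7
  14)))), (.s k192 k128 7 (.s k31 k47 3 (.s k159 k111 11 (.s k95 k223 7 (.d k255 k175 k213 11
  6)))))] (.c k133 (.q k197 [(.d k192 k202 k128 2 7), (.s k48 k154 14 (.d k53 k58 k149 2 11))] (.c
  k202 (.l (.s k53 k149 11 (.d k48 k58 k154 2 14))) .n)) (.c k197 (.q k133 [(.s k192 k128 7 (.s k240
  k181 10 (.s k224 k208 3 (.d k229 k239 k218 2 6)))), (.s k48 k154 14 (.s k240 k181 10 (.s k80 k160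
  11 (.d k112 k96 k176 3 7)))), (.s k192 k128 7 (.s k31 k47 3 (.s k159 k111 11 (.s k95 k223 7 (.d
  k255 k175 k213 11 6)))))] .n) .n))) (.c k95 (.l (.s k240 k181 10 (.s k229 k218 6 (.s k37 k165 7
  (.d k48 k26 k154 6 14))))) (.c k149 (.l (.s k69 k138 10 (.s k117 k85 3 (.s k48 k154 14 (.s k186
  k255 10 (.d k58 k53 k250 2 7)))))) (.c k154 (.l (.s k47 k31 3 (.s k111 k159 11 (.s k239 k175 7 (.s
  k240 k181 10 (.d k229 k224 k218 2 6)))))) .n)))))) (.c k95 (.l (.s k69 k138 10 (.s k47 k31 3 (.s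
  k154 k48 14 (.s k85 k117 3 (.s k223 k16 10 (.s k111 k159 11 (.d k239 k255 k175 3 7)))))))) (.c
  k111 (.l (.s k69 k138 10 (.s k31 k47 3 (.s k154 k48 14 (.s k85 k117 3 (.s k223 k16 10 (.s k95 k159
  7 (.d k255 k239 k175 3 11)))))))) (.c k122 (.q k74 [(.d k138 k202 k69 7 10)] (.c k69 (.l (.s k202
  k138 7 (.d k192 k197 k133 2 10))) (.c k138 (.l (.s k192 k133 10 (.s k197 k202 2 (.s k53 k149 11
  (.d k48 k58 k154 2 14))))) (.c k202 (.l (.s k69 k138 10 (.s k192 k133 10 (.s k117 k85 3 (.s k255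
  k213 6 (.d k48 k186 k154 10 14)))))) .n)))) (.c k138 (.q k122 [(.s k111 k159 11 (.s k240 k181 10
  (.s k229 k218 6 (.s k239 k224 2 (.d k47 k31 k175 3 7))))), (.s k240 k181 10 (.s k160 k80 11 (.s
  k229 k218 6 (.s k37 k165 7 (.d k48 k26 k154 6 14))))), (.s k154 k48 14 (.s k159 k111 11 (.s k181
  k240 10 (.s k149 k144 2 (.s k197 k53 11 (.s k133 k165 3 (.d k192 k202 k74 2 10)))))))] (.c k47 (.l
  (.s k240 k181 10 (.s k229 k218 6 (.s k37 k165 7 (.s k224 k239 2 (.d k48 k26 k154 6 14)))))) (.c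
  k154 (.q k186 [(.s k240 k181 10 (.s k218 k229 6 (.d k250 k202 k58 3 7))), (.s k31 k47 3 (.s k58
  k250 7 (.s k48 k53 2 (.s k159 k111 11 (.s k95 k223 7 (.d k255 k175 k117 11 10))))))] (.c k26 (.q
  k218 [(.d k250 k202 k58 3 7)] (.c k58 (.l (.s k202 k250 3 (.d k240 k229 k181 6 10))) (.c k202 (.l
  (.s k58 k250 7 (.d k240 k229 k181 6 10))) (.c k250 (.l (.d k240 k229 k181 6 10)) .n)))) (.c k58
  (.q k202 [(.s k240 k181 10 (.d k218 k250 k229 3 6)), (.s k192 k197 2 (.s k255 k213 6 (.s k117 k48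
  10 (.d k127 k112 k191 2 7))))] (.c k26 (.l (.s k218 k250 3 (.d k240 k229 k181 6 10))) (.c k218 (.q
  k26 [(.s k31 k47 3 (.s k16 k21 2 (.d k48 k32 k37 3 6))), (.s k181 k240 10 (.s k192 k197 2 (.s k255
  k213 6 (.d k191 k176 k127 2 7))))] .n) (.c k229 (.l (.s k181 k240 10 (.s k191 k176 2 (.s k255 k127
  7 (.d k192 k197 k213 2 6))))) .n)))) (.c k202 (.l (.s k58 k250 7 (.s k48 k53 2 (.s k117 k255 10
  (.s k240 k181 10 (.d k112 k127 k176 2 7)))))) (.c k218 (.q k26 [(.s k58 k250 7 (.d k48 k53 k37 2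
  6)), (.s k31 k47 3 (.s k159 k111 11 (.s k95 k223 7 (.s k175 k255 11 (.s k181 k240 10 (.d k191 k176
  k143 2 3))))))] (.c k37 (.l (.s k58 k250 7 (.s k181 k240 10 (.s k191 k176 2 (.s k255 k127 7 (.d
  k48 k53 k117 2 10)))))) (.c k58 (.q k202 [(.s k31 k47 3 (.s k16 k21 2 (.d k48 k32 k37 3 6))), (.s
  k181 k240 10 (.s k192 k197 2 (.s k255 k213 6 (.d k191 k176 k127 2 7))))] .n) (.c k202 (.l (.s k58
  k250 7 (.d k48 k53 k37 2 6))) (.c k250 (.l (.s k31 k47 3 (.s k16 k21 2 (.d k48 k32 k37 3 6))))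
  .n))))) (.c k250 (.l (.s k47 k31 3 (.s k111 k159 11 (.s k239 k175 7 (.s k240 k181 10 (.d k229 k224
  k218 2 6)))))) .n)))))) (.c k165 (.l (.s k47 k31 3 (.s k111 k159 11 (.s k240 k181 10 (.s k229 k218
  6 (.d k239 k224 k175 2 7)))))) (.c k181 (.q k186 [(.s k58 k250 7 (.d k48 k53 k154 2 14)), (.s k47
  k31 3 (.s k250 k58 7 (.s k111 k159 11 (.s k239 k175 7 (.s k229 k224 2 (.d k218 k202 k240 3
  6))))))] (.c k58 (.q k202 [(.s k48 k154 14 (.s k37 k26 6 (.s k218 k250 3 (.d k229 k240 k165 6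
  7)))), (.s k31 k47 3 (.s k159 k111 11 (.s k95 k223 7 (.s k192 k197 2 (.d k255 k175 k213 11 6))))),
  (.s k48 k154 14 (.s k255 k117 10 (.d k192 k197 k213 2 6)))] .n) (.c k154 (.l (.s k31 k47 3 (.s k58
  k250 7 (.s k48 k53 2 (.s k159 k111 11 (.s k95 k223 7 (.d k255 k117 k175 10 11))))))) (.c k250 (.l
  (.s k31 k47 3 (.s k48 k154 14 (.s k255 k117 10 (.s k95 k175 11 (.d k159 k111 k223 11 7))))))
  .n)))) (.c k186 (.l (.s k154 k48 14 (.s k47 k31 3 (.s k111 k159 11 (.s k239 k175 7 (.s k240 k181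
  10 (.d k229 k224 k218 2 6))))))) (.c k224 (.l (.s k47 k31 3 (.s k240 k181 10 (.s k229 k218 6 (.s
  k37 k165 7 (.d k48 k26 k154 6 14)))))) (.c k240 (.q k186 [(.s k58 k250 7 (.d k48 k53 k154 2 14)),
  (.s k31 k47 3 (.s k250 k58 7 (.s k159 k111 11 (.s k95 k223 7 (.s k202 k218 3 (.s k192 k197 2 (.d
  k255 k213 k175 6 11)))))))] (.c k58 (.q k202 [(.s k48 k154 14 (.s k255 k117 10 (.d k192 k197 k213
  2 6))), (.s k31 k47 3 (.s k159 k111 11 (.s k95 k223 7 (.s k192 k197 2 (.d k255 k175 k213 11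
  6))))), (.s k31 k47 3 (.s k48 k154 14 (.s k255 k117 10 (.s k95 k175 11 (.d k159 k111 k223 11
  7)))))] (.c k255 (.l (.s k154 k48 14 (.s k159 k111 11 (.s k149 k144 2 (.d k197 k192 k53 2 11)))))
  .n)) (.c k154 (.l (.s k31 k47 3 (.s k58 k250 7 (.s k48 k53 2 (.s k255 k117 10 (.s k95 k175 11 (.d
  k159 k111 k223 11 7))))))) (.c k250 (.l (.s k31 k47 3 (.s k48 k154 14 (.s k255 k117 10 (.s k95
  k175 11 (.d k159 k111 k223 11 7)))))) (.c k255 (.l (.s k48 k154 14 (.d k58 k53 k250 2 7))) .n)))))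
  .n)))))))) (.c k159 (.q k74 [(.d k138 k202 k69 7 10)] (.c k69 (.l (.s k202 k138 7 (.d k192 k197
  k133 2 10))) (.c k138 (.l (.s k192 k133 10 (.s k197 k202 2 (.s k53 k149 11 (.d k48 k58 k154 2
  14))))) (.c k202 (.l (.s k69 k138 10 (.s k192 k133 10 (.s k117 k85 3 (.s k255 k213 6 (.d k48 k186
  k154 10 14)))))) .n)))) .n)))))))) (.c k234 (.q k106 [(.d k111 k96 k159 2 11), (.s k138 k69 10 (.s
  k74 k202 7 (.d k192 k133 k149 10 14)))] .n) .n))) (.c k106 (.q k234 [(.s k138 k69 10 (.s k74 k202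
  7 (.s k133 k192 10 (.d k143 k128 k79 2 7)))), (.s k31 k47 3 (.s k143 k79 7 (.s k159 k111 11 (.s
  k95 k223 7 (.d k175 k191 k255 3 11)))))] (.c k74 (.q k122 [(.s k47 k31 3 (.s k240 k181 10 (.s k229
  k218 6 (.s k239 k224 2 (.d k111 k175 k159 7 11))))), (.s k240 k181 10 (.s k218 k229 6 (.s k202
  k250 3 (.s k192 k197 2 (.s k213 k255 6 (.d k208 k223 k224 2 3)))))), (.s k31 k47 3 (.s k143 k79 7
  (.s k159 k111 11 (.s k95 k223 7 (.d k175 k191 k255 3 11)))))] (.c k224 (.l (.s k47 k31 3 (.s k79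
  k143 7 (.s k111 k159 11 (.s k175 k239 7 (.d k95 k127 k255 3 11)))))) .n)) (.c k79 (.l (.s k138 k69
  10 (.s k47 k31 3 (.s k111 k159 11 (.s k239 k175 7 (.s k229 k224 2 (.s k218 k240 6 (.d k202 k74
  k250 7 3)))))))) (.c k122 (.q k74 [(.d k138 k202 k69 7 10), (.s k79 k143 7 (.s k64 k69 2 (.d k192
  k133 k128 10 7)))] (.c k69 (.l (.s k202 k138 7 (.d k192 k197 k133 2 10))) .n)) (.c k143 (.q k74
  [(.d k138 k202 k69 7 10)] (.c k69 (.l (.s k202 k138 7 (.d k192 k133 k197 10 2))) (.c k138 (.l (.s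
  k31 k47 3 (.s k192 k133 10 (.s k128 k64 7 (.s k159 k111 11 (.s k95 k223 7 (.d k255 k175 k213 11
  6))))))) (.c k202 (.l (.s k69 k138 10 (.s k64 k79 2 (.d k192 k128 k133 7 10)))) .n)))) .n))))) (.c
  k143 (.q k192 [(.s k138 k69 10 (.d k74 k133 k202 10 7)), (.s k106 k149 14 (.s k111 k159 11 (.s
  k101 k96 2 (.s k154 k48 14 (.d k202 k197 k58 2 11))))), (.s k69 k138 10 (.s k106 k149 14 (.s k111
  k159 11 (.s k101 k96 2 (.s k85 k117 3 (.d k64 k128 k127 7 6))))))] (.c k106 (.q k234 [(.s k138 k69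
  10 (.d k74 k133 k202 10 7)), (.s k31 k47 3 (.s k159 k111 11 (.s k95 k223 7 (.d k255 k175 k213 11
  6))))] (.c k74 (.q k122 [(.s k240 k181 10 (.s k202 k197 2 (.d k218 k250 k229 3 6))), (.s k31 k47 3
  (.s k159 k111 11 (.s k95 k223 7 (.d k255 k175 k213 11 6))))] .n) (.c k122 (.l (.s k74 k133 10 (.d
  k138 k69 k202 10 7))) .n))) (.c k234 (.l (.s k106 k149 14 (.s k138 k69 10 (.d k74 k133 k202 10
  7)))) .n))) (.c k234 (.q k106 [(.s k138 k69 10 (.s k74 k202 7 (.d k192 k133 k149 10 14))), (.s k31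
  k47 3 (.s k143 k79 7 (.s k159 k111 11 (.s k95 k223 7 (.d k175 k191 k255 3 11)))))] .n) .n))))))
  (.c k47 (.q k3 [(.s k1 k2 0 (.s k5 k15 2 (.s k9 k13 1 (.s k12 k6 2 (.d k8 k11 k4 0 1))))), (.s k1
  k2 0 (.s k21 k42 6 (.s k41 k61 5 (.s k22 k60 6 (.d k23 k20 k43 0 5))))), (.s k15 k5 2 (.s k42 k21
  6 (.s k11 k7 1 (.s k43 k23 5 (.s k26 k58 3 (.d k41 k40 k56 0 4))))))] .n) (.c k48 (.q k3 [(.s k1
  k2 0 (.s k5 k15 2 (.s k9 k13 1 (.s k12 k6 2 (.d k8 k11 k4 0 1))))), (.s k1 k2 0 (.s k21 k42 6 (.s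
  k41 k61 5 (.s k22 k60 6 (.d k23 k20 k43 0 5))))), (.s k15 k5 2 (.s k42 k21 6 (.s k11 k7 1 (.s k43
  k23 5 (.s k26 k58 3 (.d k41 k40 k56 0 4))))))] .n) (.c k53 (.l (.s k15 k5 2 (.s k47 k31 3 (.s k42
  k21 6 (.s k37 k32 2 (.d k26 k58 k48 3 6)))))) (.c k58 (.q k3 [(.s k1 k2 0 (.s k5 k15 2 (.s k9 k13
  1 (.s k12 k6 2 (.d k8 k11 k4 0 1))))), (.s k1 k2 0 (.s k21 k42 6 (.s k41 k61 5 (.s k22 k60 6 (.d
  k23 k20 k43 0 5))))), (.s k15 k5 2 (.s k42 k21 6 (.s k11 k7 1 (.s k43 k23 5 (.s k59 k27 3 (.d k8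
  k9 k25 0 4))))))] .n) .n)))))))))))))

def t91 : T TT 256 :=
  (.q k3 [(.s k2 k1 0 (.s k42 k21 6 (.s k22 k62 5 (.s k41 k60 6 (.d k43 k40 k23 0 5)))))] (.c k1 (.q
  k51 [(.s k17 k34 4 (.s k21 k42 6 (.s k25 k29 1 (.s k38 k12 6 (.d k55 k59 k4 1 4))))), (.s k19 k35
  3 (.s k23 k43 5 (.s k27 k31 1 (.s k39 k15 5 (.d k55 k59 k7 1 3))))), (.s k17 k34 4 (.s k21 k42 6
  (.s k19 k35 3 (.s k23 k43 5 (.s k16 k18 0 (.d k31 k27 k26 1 2))))))] .n) (.c k2 (.f k42 k21 6 (.q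
  k51 [(.s k34 k17 4 (.s k38 k46 1 (.s k25 k12 6 (.d k59 k55 k8 1 4)))), (.s k19 k35 3 (.s k23 k43 5
  (.s k27 k31 1 (.s k39 k15 5 (.d k55 k59 k7 1 3))))), (.s k34 k17 4 (.s k35 k19 3 (.s k43 k23 5 (.s
  k32 k33 0 (.d k47 k39 k37 1 2)))))] (.c k86 (.q k254 [(.s k34 k17 4 (.s k38 k46 1 (.s k25 k12 6
  (.d k59 k55 k8 1 4)))), (.s k19 k35 3 (.s k23 k43 5 (.s k27 k31 1 (.s k39 k15 5 (.d k55 k59 k7 1
  3))))), (.s k34 k17 4 (.s k35 k19 3 (.s k43 k23 5 (.s k32 k33 0 (.d k47 k39 k37 1 2)))))] .n) (.c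
  k254 (.q k86 [(.s k34 k17 4 (.s k38 k46 1 (.s k25 k12 6 (.d k59 k55 k8 1 4)))), (.s k19 k35 3 (.s
  k23 k43 5 (.s k27 k31 1 (.s k39 k15 5 (.d k55 k59 k7 1 3))))), (.s k34 k17 4 (.s k35 k19 3 (.s k43
  k23 5 (.s k32 k33 0 (.d k47 k39 k37 1 2)))))] .n) .n)))) (.c k21 (.q k51 [(.s k1 k2 0 (.s k17 k34
  4 (.s k33 k49 3 (.s k18 k48 4 (.d k19 k16 k35 0 3))))), (.s k19 k35 3 (.s k23 k43 5 (.s k27 k31 1
  (.s k39 k15 5 (.d k55 k59 k7 1 3)))))] (.c k16 (.l (.s k2 k1 0 (.s k34 k17 4 (.s k18 k50 3 (.s k33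
  k48 4 (.d k35 k19 k32 3 0)))))) (.c k19 (.q k106 [(.s k55 k59 1 (.s k149 k192 14 (.s k102 k196 12
  (.s k110 k98 1 (.d k204 k157 k153 12 14))))), (.s k23 k43 5 (.s k149 k192 14 (.s k86 k212 8 (.s
  k252 k169 14 (.d k126 k66 k189 5 8))))), (.s k43 k23 5 (.s k169 k232 8 (.s k59 k55 1 (.s k153 k200
  12 (.s k137 k185 3 (.d k204 k70 k102 10 14))))))] .n) (.c k35 (.q k106 [(.s k55 k59 1 (.s k149
  k192 14 (.s k102 k196 12 (.s k204 k153 14 (.d k110 k98 k157 1 12))))), (.s k43 k23 5 (.s k169 k232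
  8 (.s k86 k252 14 (.s k192 k149 14 (.d k66 k126 k129 5 8))))), (.s k43 k23 5 (.s k169 k232 8 (.s
  k59 k55 1 (.s k153 k200 12 (.s k137 k185 3 (.d k204 k70 k102 10 14))))))] .n) .n)))) (.c k22 (.q
  k51 [(.s k2 k1 0 (.s k34 k17 4 (.s k18 k50 3 (.s k33 k48 4 (.d k35 k32 k19 0 3))))), (.s k34 k17 4
  (.s k42 k21 6 (.s k38 k46 1 (.s k25 k12 6 (.d k59 k55 k8 1 4))))), (.s k19 k35 3 (.s k23 k43 5 (.s
  k27 k31 1 (.s k39 k15 5 (.d k55 k59 k7 1 3)))))] .n) (.c k23 (.q k51 [(.s k2 k1 0 (.s k34 k17 4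
  (.s k18 k50 3 (.s k33 k48 4 (.d k35 k32 k19 0 3))))), (.s k17 k34 4 (.s k21 k42 6 (.s k25 k29 1
  (.s k38 k12 6 (.d k55 k59 k4 1 4))))), (.s k1 k2 0 (.s k21 k42 6 (.s k41 k61 5 (.s k35 k19 3 (.s
  k38 k44 2 (.d k55 k59 k4 1 4))))))] .n) (.c k40 (.l (.s k1 k2 0 (.s k21 k42 6 (.s k41 k61 5 (.s
  k22 k60 6 (.d k23 k43 k20 5 0)))))) (.c k41 (.q k51 [(.s k2 k1 0 (.s k34 k17 4 (.s k18 k50 3 (.s
  k33 k48 4 (.d k35 k32 k19 0 3))))), (.s k19 k35 3 (.s k23 k43 5 (.s k27 k31 1 (.s k39 k15 5 (.d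
  k55 k59 k7 1 3))))), (.s k17 k34 4 (.s k21 k42 6 (.s k25 k29 1 (.s k38 k12 6 (.d k55 k59 k4 1
  4)))))] .n) (.c k42 (.q k106 [(.s k43 k23 5 (.s k169 k232 8 (.s k86 k252 14 (.s k192 k149 14 (.d
  k66 k126 k129 5 8))))), (.s k1 k2 0 (.s k192 k149 14 (.s k128 k64 7 (.s k129 k66 8 (.s k65 k193 7
  (.d k130 k131 k195 0 8)))))), (.s k23 k43 5 (.s k149 k192 14 (.s k86 k212 8 (.s k252 k169 14 (.d
  k126 k66 k189 5 8)))))] (.c k66 (.l (.s k43 k23 5 (.s k169 k232 8 (.s k252 k86 14 (.s k149 k192 14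
  (.d k189 k129 k126 5 8)))))) (.c k86 (.l (.s k2 k1 0 (.s k192 k149 14 (.s k66 k129 8 (.s k130 k194
  7 (.s k65 k195 8 (.d k64 k128 k67 7 0))))))) (.c k149 (.q k128 [(.s k192 k64 7 (.s k129 k66 8 (.s
  k130 k131 0 (.s k65 k195 8 (.d k1 k2 k193 0 7))))), (.s k1 k2 0 (.s k64 k192 7 (.s k43 k23 5 (.s
  k169 k232 8 (.d k85 k127 k253 6 13))))), (.s k192 k64 7 (.s k43 k23 5 (.s k66 k129 8 (.s k169 k232
  8 (.d k86 k126 k252 5 14)))))] (.c k64 (.l (.s k2 k1 0 (.s k43 k23 5 (.s k169 k232 8 (.s k86 k252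
  14 (.s k66 k126 5 (.s k130 k194 7 (.d k129 k192 k131 8 0)))))))) (.c k192 (.q k51 [(.s k2 k1 0 (.s
  k34 k17 4 (.s k18 k50 3 (.s k33 k48 4 (.d k35 k32 k19 0 3))))), (.s k43 k23 5 (.s k169 k232 8 (.s
  k59 k55 1 (.s k153 k200 12 (.s k137 k185 3 (.d k204 k102 k70 14 10))))))] .n) .n))) (.c k192 (.q
  k51 [(.s k2 k1 0 (.s k34 k17 4 (.s k18 k50 3 (.s k33 k48 4 (.d k35 k32 k19 0 3))))), (.s k43 k23 5
  (.s k169 k232 8 (.s k252 k86 14 (.s k59 k55 1 (.s k185 k118 10 (.d k153 k137 k200 3 12))))))] (.c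
  k2 (.l (.s k19 k35 3 (.s k23 k43 5 (.s k27 k31 1 (.s k39 k15 5 (.d k55 k59 k7 1 3)))))) .n))
  .n))))) (.c k43 (.q k51 [(.s k2 k1 0 (.s k34 k17 4 (.s k18 k50 3 (.s k33 k48 4 (.d k35 k32 k19 0
  3))))), (.s k17 k34 4 (.s k21 k42 6 (.s k25 k29 1 (.s k38 k12 6 (.d k55 k59 k4 1 4))))), (.s k1 k2
  0 (.s k21 k42 6 (.s k41 k61 5 (.s k35 k19 3 (.s k38 k44 2 (.d k55 k59 k4 1 4))))))] .n) (.c k60
  (.q k51 [(.s k2 k1 0 (.s k34 k17 4 (.s k18 k50 3 (.s k33 k48 4 (.d k35 k32 k19 0 3))))), (.s k17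
  k34 4 (.s k21 k42 6 (.s k25 k29 1 (.s k38 k12 6 (.d k55 k59 k4 1 4))))), (.s k19 k35 3 (.s k23 k43
  5 (.s k27 k31 1 (.s k39 k15 5 (.d k55 k59 k7 1 3)))))] .n) (.c k61 (.l (.s k2 k1 0 (.s k43 k23 5
  (.s k42 k21 6 (.s k41 k40 0 (.d k22 k62 k60 5 6)))))) (.c k62 (.l (.s k1 k2 0 (.s k23 k43 5 (.s
  k21 k42 6 (.s k22 k20 0 (.d k41 k61 k60 5 6)))))) .n)))))))))))))

def t95 : T TT 256 :=
  (.q k15 [(.s k10 k5 2 (.s k42 k21 6 (.s k26 k58 3 (.s k37 k48 6 (.d k47 k32 k31 2 3)))))] (.c k5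
  (.q k12 [(.s k13 k14 0 (.s k29 k46 4 (.s k45 k61 3 (.s k30 k60 4 (.d k31 k28 k47 0 3))))), (.s k4
  k8 1 (.s k21 k42 6 (.s k38 k55 4 (.s k25 k51 6 (.d k29 k17 k46 1 4))))), (.s k4 k8 1 (.s k21 k42 6
  (.s k38 k55 4 (.s k14 k13 0 (.s k26 k50 5 (.d k31 k16 k47 2 3))))))] .n) (.c k10 (.f k31 k47 3 (.q
  k12 [(.s k29 k46 4 (.s k30 k28 0 (.s k45 k60 4 (.d k13 k14 k61 0 3)))), (.s k4 k8 1 (.s k21 k42 6
  (.s k38 k55 4 (.s k25 k51 6 (.d k29 k17 k46 1 4))))), (.s k4 k8 1 (.s k21 k42 6 (.s k38 k55 4 (.s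
  k14 k13 0 (.d k26 k16 k50 2 5)))))] (.c k90 (.q k250 [(.s k29 k46 4 (.s k30 k28 0 (.s k45 k60 4
  (.d k13 k14 k61 0 3)))), (.s k4 k8 1 (.s k21 k42 6 (.s k38 k55 4 (.s k25 k51 6 (.d k29 k17 k46 1
  4))))), (.s k4 k8 1 (.s k21 k42 6 (.s k38 k55 4 (.s k14 k13 0 (.d k26 k16 k50 2 5)))))] (.c k80
  (.q k85 [(.s k29 k46 4 (.s k30 k28 0 (.s k45 k60 4 (.d k13 k14 k61 0 3)))), (.s k4 k8 1 (.s k21
  k42 6 (.s k38 k55 4 (.s k25 k51 6 (.d k29 k17 k46 1 4))))), (.s k4 k8 1 (.s k21 k42 6 (.s k38 k55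
  4 (.s k14 k13 0 (.d k26 k16 k50 2 5)))))] .n) (.c k85 (.q k80 [(.s k29 k46 4 (.s k30 k28 0 (.s k45
  k60 4 (.d k13 k14 k61 0 3)))), (.s k4 k8 1 (.s k21 k42 6 (.s k38 k55 4 (.s k25 k51 6 (.d k29 k17
  k46 1 4))))), (.s k4 k8 1 (.s k21 k42 6 (.s k38 k55 4 (.s k14 k13 0 (.d k26 k16 k50 2 5)))))] .n)
  .n))) (.c k250 (.q k90 [(.s k29 k46 4 (.s k30 k28 0 (.s k45 k60 4 (.d k13 k14 k61 0 3)))), (.s
  k165 k240 14 (.s k149 k208 10 (.s k192 k106 14 (.d k133 k181 k74 3 10))))] .n) .n)))) (.c k21 (.f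
  k31 k47 3 (.q k13 [(.s k12 k14 0 (.s k29 k46 4 (.s k30 k28 0 (.d k45 k61 k60 3 4)))), (.s k5 k10 2
  (.s k1 k9 1 (.s k3 k2 0 (.s k23 k43 5 (.s k27 k19 1 (.s k39 k51 5 (.d k7 k11 k55 1 3)))))))] (.c
  k14 (.q k12 [(.s k29 k46 4 (.s k30 k28 0 (.d k45 k61 k60 3 4))), (.s k4 k8 1 (.s k5 k10 2 (.s k6
  k7 0 (.d k9 k1 k3 1 2))))] .n) .n))) (.c k26 (.q k12 [(.s k13 k14 0 (.s k29 k46 4 (.s k45 k61 3
  (.s k30 k60 4 (.d k31 k28 k47 0 3))))), (.s k4 k8 1 (.s k5 k10 2 (.s k6 k7 0 (.s k9 k3 2 (.d k13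
  k14 k1 0 1))))), (.s k4 k8 1 (.s k21 k42 6 (.s k38 k55 4 (.s k25 k51 6 (.d k29 k17 k46 1 4)))))]
  .n) (.c k31 (.q k12 [(.s k8 k4 1 (.s k10 k5 2 (.s k9 k11 0 (.s k6 k3 2 (.d k14 k13 k2 0 1))))),
  (.s k4 k8 1 (.s k21 k42 6 (.s k38 k55 4 (.s k25 k51 6 (.d k29 k17 k46 1 4))))), (.s k5 k10 2 (.s
  k21 k42 6 (.s k37 k53 3 (.s k13 k14 0 (.s k29 k46 4 (.d k25 k17 k49 1 5))))))] (.c k159 (.q k223
  [(.s k8 k4 1 (.s k10 k5 2 (.s k9 k11 0 (.s k6 k3 2 (.d k14 k13 k2 0 1))))), (.s k4 k8 1 (.s k21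
  k42 6 (.s k38 k55 4 (.s k25 k51 6 (.d k29 k17 k46 1 4))))), (.s k5 k10 2 (.s k21 k42 6 (.s k37 k53
  3 (.s k13 k14 0 (.s k29 k46 4 (.d k25 k17 k49 1 5))))))] .n) (.c k223 (.q k159 [(.s k8 k4 1 (.s
  k10 k5 2 (.s k9 k11 0 (.s k6 k3 2 (.d k14 k13 k2 0 1))))), (.s k4 k8 1 (.s k21 k42 6 (.s k38 k55 4
  (.s k25 k51 6 (.d k29 k17 k46 1 4))))), (.s k5 k10 2 (.s k21 k42 6 (.s k37 k53 3 (.s k13 k14 0 (.s
  k29 k46 4 (.d k25 k17 k49 1 5))))))] .n) .n))) (.c k32 (.l (.s k5 k10 2 (.s k21 k42 6 (.s k37 k53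
  3 (.s k26 k48 6 (.d k31 k47 k16 3 2)))))) (.c k37 (.q k12 [(.s k13 k14 0 (.s k29 k46 4 (.s k45 k61
  3 (.s k30 k60 4 (.d k31 k28 k47 0 3))))), (.s k4 k8 1 (.s k5 k10 2 (.s k6 k7 0 (.s k9 k3 2 (.d k13
  k14 k1 0 1))))), (.s k4 k8 1 (.s k21 k42 6 (.s k38 k55 4 (.s k25 k51 6 (.d k29 k17 k46 1 4)))))]
  .n) (.c k42 (.q k106 [(.s k31 k47 3 (.s k149 k192 14 (.s k90 k208 10 (.s k122 k74 3 (.d k240 k181
  k165 10 14))))), (.s k5 k10 2 (.s k192 k149 14 (.s k128 k64 7 (.s k133 k74 10 (.s k69 k197 7 (.d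
  k138 k143 k207 2 10))))))] (.c k74 (.l (.s k47 k31 3 (.s k165 k224 10 (.s k240 k90 14 (.s k149
  k192 14 (.d k181 k133 k122 3 10)))))) (.c k90 (.l (.s k10 k5 2 (.s k192 k149 14 (.s k74 k133 10
  (.s k138 k202 7 (.s k69 k207 10 (.d k64 k128 k79 7 2))))))) (.c k149 (.f k5 k10 2 (.l (.s k47 k31
  3 (.s k165 k224 10 (.s k85 k245 11 (.s k90 k240 14 (.s k64 k127 6 (.s k74 k122 3 (.d k192 k128
  k133 7 10))))))))) (.c k192 (.q k12 [(.s k8 k4 1 (.s k10 k5 2 (.s k9 k11 0 (.s k6 k3 2 (.d k14 k13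
  k2 0 1))))), (.s k46 k29 4 (.s k47 k31 3 (.s k166 k226 9 (.s k243 k89 14 (.s k167 k91 13 (.d k165
  k164 k224 0 10))))))] (.c k8 (.l (.s k13 k14 0 (.s k29 k46 4 (.s k45 k61 3 (.s k30 k60 4 (.d k31
  k28 k47 0 3)))))) .n)) .n))))) (.c k47 (.q k12 [(.s k8 k4 1 (.s k10 k5 2 (.s k9 k11 0 (.s k6 k3 2
  (.d k14 k13 k2 0 1))))), (.s k4 k8 1 (.s k21 k42 6 (.s k38 k55 4 (.s k25 k51 6 (.d k29 k17 k46 1
  4))))), (.s k5 k10 2 (.s k21 k42 6 (.s k37 k53 3 (.s k13 k14 0 (.s k29 k46 4 (.d k25 k17 k49 1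
  5))))))] .n) (.c k48 (.q k12 [(.s k13 k14 0 (.s k29 k46 4 (.s k45 k61 3 (.s k30 k60 4 (.d k31 k28
  k47 0 3))))), (.s k4 k8 1 (.s k5 k10 2 (.s k6 k7 0 (.s k9 k3 2 (.d k13 k14 k1 0 1))))), (.s k4 k8
  1 (.s k21 k42 6 (.s k38 k55 4 (.s k25 k51 6 (.d k29 k17 k46 1 4)))))] .n) (.c k53 (.l (.s k10 k5 2
  (.s k47 k31 3 (.s k42 k21 6 (.s k37 k32 2 (.d k26 k58 k48 3 6)))))) (.c k58 (.l (.s k5 k10 2 (.s
  k31 k47 3 (.s k21 k42 6 (.s k26 k16 2 (.d k37 k53 k48 3 6)))))) .n)))))))))))))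

def t106 : T TT 256 :=
  (.f k42 k21 6 (.q k3 [(.s k2 k1 0 (.s k22 k62 5 (.s k41 k60 6 (.d k43 k40 k23 0 5)))), (.s k43 k23
  5 (.s k2 k1 0 (.s k41 k40 0 (.d k22 k62 k60 5 6))))] (.c k1 (.q k51 [(.s k59 k55 1 (.s k25 k8 4
  (.s k38 k12 6 (.d k34 k46 k17 1 4)))), (.s k19 k35 3 (.s k23 k43 5 (.s k27 k31 1 (.s k39 k15 5 (.d
  k55 k59 k7 1 3))))), (.s k34 k17 4 (.s k35 k19 3 (.s k43 k23 5 (.s k38 k46 1 (.d k41 k40 k44 0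
  2)))))] (.c k41 (.q k61 [(.s k59 k55 1 (.s k25 k8 4 (.s k38 k12 6 (.d k34 k46 k17 1 4)))), (.s k19
  k35 3 (.s k23 k43 5 (.s k27 k31 1 (.s k39 k15 5 (.d k55 k59 k7 1 3))))), (.s k34 k17 4 (.s k35 k19
  3 (.s k43 k23 5 (.s k47 k39 1 (.d k32 k33 k37 0 2)))))] (.c k55 (.l (.s k34 k17 4 (.s k19 k35 3
  (.s k38 k46 1 (.s k25 k12 6 (.s k22 k28 2 (.d k62 k60 k2 0 5))))))) .n)) (.c k61 (.q k41 [(.d k43
  k40 k23 0 5), (.s k34 k17 4 (.s k35 k19 3 (.d k38 k46 k44 1 2)))] .n) .n))) (.c k2 (.q k51 [(.s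
  k34 k17 4 (.s k38 k46 1 (.s k25 k12 6 (.d k59 k55 k8 1 4)))), (.s k19 k35 3 (.s k23 k43 5 (.s k27
  k31 1 (.s k39 k15 5 (.d k55 k59 k7 1 3))))), (.s k34 k17 4 (.s k35 k19 3 (.s k43 k23 5 (.s k32 k33
  0 (.d k47 k39 k37 1 2)))))] (.c k86 (.q k254 [(.s k34 k17 4 (.s k38 k46 1 (.s k25 k12 6 (.d k59
  k55 k8 1 4)))), (.s k19 k35 3 (.s k23 k43 5 (.s k27 k31 1 (.s k39 k15 5 (.d k55 k59 k7 1 3))))),
  (.s k34 k17 4 (.s k35 k19 3 (.s k43 k23 5 (.s k32 k33 0 (.d k47 k39 k37 1 2)))))] (.c k66 (.q k126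
  [(.s k34 k17 4 (.s k38 k46 1 (.s k25 k12 6 (.d k59 k55 k8 1 4)))), (.s k43 k23 5 (.s k40 k41 0 (.s
  k62 k190 7 (.d k60 k61 k20 0 5))))] (.c k130 (.q k194 [(.s k34 k17 4 (.s k38 k46 1 (.s k25 k12 6
  (.d k59 k55 k8 1 4)))), (.s k19 k35 3 (.s k23 k43 5 (.s k27 k31 1 (.s k39 k15 5 (.d k55 k59 k7 1
  3))))), (.s k34 k17 4 (.s k35 k19 3 (.s k43 k23 5 (.s k32 k33 0 (.d k47 k39 k37 1 2)))))] (.c k150
  (.l (.s k190 k62 7 (.s k34 k17 4 (.s k38 k46 1 (.s k25 k12 6 (.d k59 k55 k8 1 4)))))) (.c k190 (.q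
  k150 [(.s k34 k17 4 (.s k38 k46 1 (.s k25 k12 6 (.d k59 k55 k8 1 4)))), (.s k19 k35 3 (.s k23 k43
  5 (.s k27 k31 1 (.s k39 k15 5 (.d k55 k59 k7 1 3))))), (.s k34 k17 4 (.s k35 k19 3 (.s k43 k23 5
  (.s k32 k33 0 (.d k47 k39 k37 1 2)))))] .n) .n))) (.c k194 (.q k130 [(.s k34 k17 4 (.s k38 k46 1
  (.s k25 k12 6 (.d k59 k55 k8 1 4)))), (.s k43 k23 5 (.s k40 k41 0 (.s k62 k190 7 (.d k60 k61 k20 0
  5))))] (.c k62 (.q k150 [(.s k34 k17 4 (.s k59 k55 1 (.s k25 k8 4 (.d k38 k46 k12 1 6)))), (.s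
  k195 k65 8 (.s k43 k23 5 (.s k40 k41 0 (.d k60 k20 k105 5 14))))] .n) (.c k150 (.l (.s k62 k190 7
  (.s k43 k23 5 (.s k40 k41 0 (.d k60 k61 k20 0 5))))) .n))) .n))) (.c k126 (.q k66 [(.s k34 k17 4
  (.s k38 k46 1 (.s k25 k12 6 (.d k59 k55 k8 1 4)))), (.s k19 k35 3 (.s k23 k43 5 (.s k27 k31 1 (.s
  k39 k15 5 (.d k55 k59 k7 1 3))))), (.s k34 k17 4 (.s k35 k19 3 (.s k43 k23 5 (.s k32 k33 0 (.d k47
  k39 k37 1 2)))))] .n) .n))) (.c k254 (.q k86 [(.s k34 k17 4 (.s k38 k46 1 (.s k25 k12 6 (.d k59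
  k55 k8 1 4)))), (.s k19 k35 3 (.s k23 k43 5 (.s k27 k31 1 (.s k39 k15 5 (.d k55 k59 k7 1 3))))),
  (.s k34 k17 4 (.s k35 k19 3 (.s k43 k23 5 (.s k32 k33 0 (.d k47 k39 k37 1 2)))))] .n) .n))) (.c
  k22 (.q k51 [(.s k34 k17 4 (.s k38 k46 1 (.s k25 k12 6 (.d k59 k55 k8 1 4)))), (.s k1 k2 0 (.s k17
  k34 4 (.s k33 k49 3 (.s k18 k48 4 (.d k19 k16 k35 0 3))))), (.s k19 k35 3 (.s k23 k43 5 (.s k27
  k31 1 (.s k39 k15 5 (.d k55 k59 k7 1 3)))))] (.c k20 (.l (.s k23 k43 5 (.s k34 k17 4 (.s k38 k46 1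
  (.s k25 k12 6 (.d k59 k55 k8 1 4)))))) (.c k23 (.q k20 [(.s k34 k17 4 (.s k38 k46 1 (.s k25 k12 6
  (.d k59 k55 k8 1 4)))), (.s k1 k2 0 (.s k17 k34 4 (.s k33 k49 3 (.s k18 k48 4 (.d k19 k16 k35 0
  3))))), (.s k40 k60 5 (.s k35 k19 3 (.s k41 k43 0 (.s k38 k44 2 (.s k59 k55 1 (.d k25 k12 k8 6
  4))))))] .n) .n))) (.c k23 (.q k51 [(.s k34 k17 4 (.s k38 k46 1 (.s k25 k12 6 (.d k59 k55 k8 1
  4)))), (.s k1 k2 0 (.s k17 k34 4 (.s k33 k49 3 (.s k18 k48 4 (.d k19 k16 k35 0 3))))), (.s k2 k1 0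
  (.s k22 k62 5 (.s k19 k35 3 (.s k25 k28 2 (.d k59 k55 k8 1 4)))))] (.c k20 (.q k22 [(.d k2 k1 k62
  0 5), (.s k19 k35 3 (.s k25 k28 2 (.d k59 k55 k8 1 4)))] .n) (.c k22 (.q k20 [(.s k34 k17 4 (.s
  k38 k46 1 (.s k25 k12 6 (.d k59 k55 k8 1 4)))), (.s k1 k2 0 (.s k17 k34 4 (.s k33 k49 3 (.s k18
  k48 4 (.d k19 k16 k35 0 3))))), (.s k40 k60 5 (.s k35 k19 3 (.s k41 k43 0 (.s k38 k44 2 (.s k59
  k55 1 (.d k25 k12 k8 6 4))))))] .n) .n))) (.c k40 (.q k51 [(.s k34 k17 4 (.s k38 k46 1 (.s k25 k12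
  6 (.d k59 k55 k8 1 4)))), (.s k1 k2 0 (.s k17 k34 4 (.s k33 k49 3 (.s k18 k48 4 (.d k19 k16 k35 0
  3))))), (.s k2 k1 0 (.s k22 k62 5 (.s k19 k35 3 (.s k25 k28 2 (.d k59 k55 k8 1 4)))))] (.c k105
  (.q k235 [(.s k34 k17 4 (.s k38 k46 1 (.s k25 k12 6 (.d k59 k55 k8 1 4)))), (.s k1 k2 0 (.s k17
  k34 4 (.s k33 k49 3 (.s k18 k48 4 (.d k19 k16 k35 0 3))))), (.s k2 k1 0 (.s k22 k62 5 (.s k19 k35
  3 (.s k25 k28 2 (.d k59 k55 k8 1 4)))))] (.c k104 (.q k107 [(.d k43 k23 k171 5 7), (.s k34 k17 4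
  (.s k38 k46 1 (.s k25 k12 6 (.d k59 k55 k8 1 4))))] (.c k168 (.q k232 [(.d k43 k171 k23 7 5), (.s
  k34 k17 4 (.s k38 k46 1 (.s k25 k12 6 (.d k59 k55 k8 1 4))))] (.c k169 (.l (.s k171 k43 7 (.s k255
  k87 13 (.d k195 k215 k151 5 13)))) (.c k171 (.q k169 [(.s k195 k151 13 (.s k233 k234 0 (.d k252
  k214 k86 6 14))), (.s k34 k17 4 (.s k38 k46 1 (.s k25 k12 6 (.d k59 k55 k8 1 4))))] .n) .n))) (.c
  k232 (.q k168 [(.d k43 k23 k171 5 7), (.s k34 k17 4 (.s k38 k46 1 (.s k25 k12 6 (.d k59 k55 k8 1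
  4))))] (.c k43 (.q k169 [(.d k252 k84 k86 13 14), (.s k34 k17 4 (.s k35 k19 3 (.s k32 k33 0 (.d
  k236 k100 k102 9 10))))] .n) (.c k169 (.l (.d k43 k23 k171 5 7)) .n))) .n))) (.c k107 (.q k104
  [(.s k34 k17 4 (.s k38 k46 1 (.s k25 k12 6 (.d k59 k55 k8 1 4)))), (.s k1 k2 0 (.s k17 k34 4 (.s
  k33 k49 3 (.s k18 k48 4 (.d k19 k16 k35 0 3))))), (.s k2 k1 0 (.s k22 k62 5 (.s k19 k35 3 (.s k25
  k28 2 (.d k59 k55 k8 1 4)))))] .n) .n))) (.c k235 (.q k105 [(.s k34 k17 4 (.s k38 k46 1 (.s k25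
  k12 6 (.d k59 k55 k8 1 4)))), (.s k1 k2 0 (.s k17 k34 4 (.s k33 k49 3 (.s k18 k48 4 (.d k19 k16
  k35 0 3))))), (.s k2 k1 0 (.s k22 k62 5 (.s k19 k35 3 (.s k25 k28 2 (.d k59 k55 k8 1 4)))))] .n)
  .n))) (.c k41 (.q k51 [(.s k34 k17 4 (.s k38 k46 1 (.s k25 k12 6 (.d k59 k55 k8 1 4)))), (.s k1 k2
  0 (.s k17 k34 4 (.s k33 k49 3 (.s k18 k48 4 (.d k19 k16 k35 0 3))))), (.s k19 k35 3 (.s k23 k43 5
  (.s k27 k31 1 (.s k39 k15 5 (.d k55 k59 k7 1 3)))))] (.c k1 (.q k61 [(.s k59 k55 1 (.s k25 k8 4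
  (.s k38 k12 6 (.d k34 k46 k17 1 4)))), (.s k19 k35 3 (.s k23 k43 5 (.s k27 k31 1 (.s k39 k15 5 (.d
  k55 k59 k7 1 3))))), (.s k34 k17 4 (.s k35 k19 3 (.s k43 k23 5 (.s k47 k39 1 (.d k32 k33 k37 0
  2)))))] (.c k55 (.l (.s k34 k17 4 (.s k19 k35 3 (.s k38 k46 1 (.s k25 k12 6 (.s k22 k28 2 (.d k62
  k60 k2 0 5))))))) .n)) (.c k61 (.l (.s k1 k2 0 (.s k17 k34 4 (.s k33 k49 3 (.s k18 k48 4 (.d k19
  k16 k35 0 3)))))) .n))) (.c k43 (.q k51 [(.s k34 k17 4 (.s k38 k46 1 (.s k25 k12 6 (.d k59 k55 k8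
  1 4)))), (.s k1 k2 0 (.s k17 k34 4 (.s k33 k49 3 (.s k18 k48 4 (.d k19 k16 k35 0 3))))), (.s k2 k1
  0 (.s k22 k62 5 (.s k19 k35 3 (.s k25 k28 2 (.d k59 k55 k8 1 4)))))] (.c k169 (.q k232 [(.s k34
  k17 4 (.s k38 k46 1 (.s k25 k12 6 (.d k59 k55 k8 1 4)))), (.s k1 k2 0 (.s k17 k34 4 (.s k33 k49 3
  (.s k18 k48 4 (.d k19 k16 k35 0 3))))), (.s k2 k1 0 (.s k22 k62 5 (.s k19 k35 3 (.s k25 k28 2 (.d
  k59 k55 k8 1 4)))))] (.c k168 (.q k171 [(.s k34 k17 4 (.s k38 k46 1 (.s k25 k12 6 (.d k59 k55 k8 1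
  4)))), (.s k1 k2 0 (.s k17 k34 4 (.s k33 k49 3 (.s k18 k48 4 (.d k19 k16 k35 0 3))))), (.s k2 k1 0
  (.s k22 k62 5 (.s k19 k35 3 (.s k25 k28 2 (.d k59 k55 k8 1 4)))))] .n) (.c k171 (.q k168 [(.s k34
  k17 4 (.s k38 k46 1 (.s k25 k12 6 (.d k59 k55 k8 1 4)))), (.s k2 k1 0 (.s k22 k62 5 (.s k40 k104 7
  (.d k60 k41 k20 6 5))))] (.c k107 (.q k235 [(.s k34 k17 4 (.s k38 k46 1 (.s k25 k12 6 (.d k59 k55
  k8 1 4)))), (.s k1 k2 0 (.s k17 k34 4 (.s k33 k49 3 (.s k18 k48 4 (.d k19 k16 k35 0 3))))), (.s k2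
  k1 0 (.s k22 k62 5 (.s k19 k35 3 (.s k25 k28 2 (.d k59 k55 k8 1 4)))))] (.c k104 (.q k105 [(.s k34
  k17 4 (.s k38 k46 1 (.s k25 k12 6 (.d k59 k55 k8 1 4)))), (.s k1 k2 0 (.s k17 k34 4 (.s k33 k49 3
  (.s k18 k48 4 (.d k19 k16 k35 0 3))))), (.s k2 k1 0 (.s k22 k62 5 (.s k19 k35 3 (.s k25 k28 2 (.d
  k59 k55 k8 1 4)))))] .n) (.c k105 (.l (.s k104 k40 7 (.s k34 k17 4 (.s k38 k46 1 (.s k25 k12 6 (.d
  k59 k55 k8 1 4)))))) .n))) (.c k235 (.q k107 [(.s k34 k17 4 (.s k38 k46 1 (.s k25 k12 6 (.d k59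
  k55 k8 1 4)))), (.s k2 k1 0 (.s k22 k62 5 (.s k40 k104 7 (.d k60 k41 k20 6 5))))] (.c k40 (.q k105
  [(.s k34 k17 4 (.s k38 k46 1 (.s k25 k12 6 (.d k59 k55 k8 1 4)))), (.s k2 k1 0 (.s k22 k62 5 (.s
  k195 k151 13 (.d k60 k41 k150 6 14))))] .n) (.c k105 (.l (.s k40 k104 7 (.s k2 k1 0 (.s k60 k20 5
  (.d k22 k41 k62 6 5))))) .n))) .n))) .n))) (.c k232 (.q k169 [(.s k34 k17 4 (.s k38 k46 1 (.s k25
  k12 6 (.d k59 k55 k8 1 4)))), (.s k1 k2 0 (.s k17 k34 4 (.s k33 k49 3 (.s k18 k48 4 (.d k19 k16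
  k35 0 3))))), (.s k2 k1 0 (.s k22 k62 5 (.s k19 k35 3 (.s k25 k28 2 (.d k59 k55 k8 1 4)))))] .n)
  .n))) (.c k60 (.q k51 [(.s k34 k17 4 (.s k38 k46 1 (.s k59 k55 1 (.d k25 k8 k12 4 6)))), (.s k1 k2
  0 (.s k17 k34 4 (.s k33 k49 3 (.s k18 k48 4 (.d k19 k16 k35 0 3))))), (.s k2 k1 0 (.s k22 k62 5
  (.s k19 k35 3 (.s k25 k28 2 (.d k59 k55 k8 1 4)))))] .n) (.c k61 (.l (.s k43 k23 5 (.s k2 k1 0 (.s
  k41 k40 0 (.d k22 k62 k60 5 6))))) (.c k62 (.q k51 [(.s k34 k17 4 (.s k59 k55 1 (.s k25 k8 4 (.d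
  k38 k46 k12 1 6)))), (.s k1 k2 0 (.s k17 k34 4 (.s k33 k49 3 (.s k18 k48 4 (.d k19 k16 k35 0
  3))))), (.s k19 k35 3 (.s k23 k43 5 (.s k27 k31 1 (.s k39 k15 5 (.d k55 k59 k7 1 3)))))] (.c k150
  (.q k194 [(.s k34 k17 4 (.s k59 k55 1 (.s k25 k8 4 (.d k38 k46 k12 1 6)))), (.s k1 k2 0 (.s k17
  k34 4 (.s k33 k49 3 (.s k18 k48 4 (.d k19 k16 k35 0 3))))), (.s k19 k35 3 (.s k23 k43 5 (.s k27
  k31 1 (.s k39 k15 5 (.d k55 k59 k7 1 3)))))] (.c k130 (.q k190 [(.s k34 k17 4 (.s k59 k55 1 (.s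
  k25 k8 4 (.d k38 k46 k12 1 6)))), (.s k1 k2 0 (.s k17 k34 4 (.s k33 k49 3 (.s k18 k48 4 (.d k19
  k16 k35 0 3))))), (.s k19 k35 3 (.s k23 k43 5 (.s k27 k31 1 (.s k39 k15 5 (.d k55 k59 k7 1 3)))))]
  .n) (.c k190 (.q k130 [(.d k2 k1 k66 0 7), (.s k34 k17 4 (.s k38 k46 1 (.s k25 k12 6 (.d k59 k55
  k8 1 4))))] (.c k126 (.q k254 [(.d k2 k66 k1 7 0), (.s k34 k17 4 (.s k38 k46 1 (.s k25 k12 6 (.d
  k59 k55 k8 1 4))))] (.c k66 (.q k86 [(.s k195 k65 8 (.s k214 k234 5 (.d k252 k233 k169 6 14))),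
  (.s k34 k17 4 (.s k38 k46 1 (.s k25 k12 6 (.d k59 k55 k8 1 4))))] .n) (.c k86 (.l (.s k66 k2 7 (.s
  k195 k65 8 (.d k192 k193 k129 0 8)))) .n))) (.c k254 (.q k126 [(.d k2 k1 k66 0 7), (.s k34 k17 4
  (.s k38 k46 1 (.s k25 k12 6 (.d k59 k55 k8 1 4))))] (.c k2 (.q k86 [(.d k252 k189 k169 8 14), (.s
  k34 k17 4 (.s k38 k46 1 (.s k25 k12 6 (.d k59 k55 k8 1 4))))] .n) (.c k86 (.l (.d k2 k1 k66 0 7))
  .n))) .n))) .n))) (.c k194 (.q k150 [(.s k34 k17 4 (.s k59 k55 1 (.s k25 k8 4 (.d k38 k46 k12 1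
  6)))), (.s k1 k2 0 (.s k17 k34 4 (.s k33 k49 3 (.s k18 k48 4 (.d k19 k16 k35 0 3))))), (.s k19 k35
  3 (.s k23 k43 5 (.s k27 k31 1 (.s k39 k15 5 (.d k55 k59 k7 1 3)))))] .n) .n))) .n))))))))))))

def t107 : T TT 256 :=
  (.f k42 k21 6 (.q k40 [(.s k60 k20 5 (.s k41 k43 0 (.s k22 k3 6 (.d k62 k61 k2 0 5)))), (.s k60
  k20 5 (.s k62 k61 0 (.s k22 k2 5 (.d k41 k43 k3 0 6))))] (.c k2 (.q k15 [(.s k10 k5 2 (.s k26 k58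
  3 (.s k37 k48 6 (.d k47 k32 k31 2 3)))), (.s k60 k20 5 (.s k30 k45 4 (.s k31 k47 3 (.s k29 k28 0
  (.s k46 k12 4 (.d k62 k61 k14 0 3)))))), (.s k10 k5 2 (.s k60 k20 5 (.s k26 k58 3 (.s k37 k48 6
  (.s k45 k30 4 (.d k41 k43 k33 0 1))))))] (.c k86 (.q k254 [(.s k10 k5 2 (.s k26 k58 3 (.s k37 k48
  6 (.d k47 k32 k31 2 3)))), (.s k60 k20 5 (.s k30 k45 4 (.s k31 k47 3 (.s k29 k28 0 (.s k46 k12 4
  (.d k62 k61 k14 0 3)))))), (.s k10 k5 2 (.s k60 k20 5 (.s k26 k58 3 (.s k37 k48 6 (.s k45 k30 4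
  (.d k41 k43 k33 0 1))))))] .n) (.c k254 (.q k86 [(.s k10 k5 2 (.s k26 k58 3 (.s k37 k48 6 (.d k47
  k32 k31 2 3)))), (.s k60 k20 5 (.s k30 k45 4 (.s k31 k47 3 (.s k29 k28 0 (.s k46 k12 4 (.d k62 k61
  k14 0 3)))))), (.s k10 k5 2 (.s k60 k20 5 (.s k26 k58 3 (.s k37 k48 6 (.s k45 k30 4 (.d k41 k43
  k33 0 1))))))] .n) .n))) (.c k3 (.q k15 [(.s k10 k5 2 (.s k26 k58 3 (.s k47 k31 3 (.d k37 k32 k48
  2 6)))), (.s k60 k20 5 (.s k30 k45 4 (.s k31 k47 3 (.s k29 k28 0 (.s k46 k12 4 (.d k62 k61 k14 0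
  3)))))), (.s k10 k5 2 (.s k60 k20 5 (.s k26 k58 3 (.s k37 k48 6 (.s k45 k30 4 (.d k41 k33 k43 1
  0))))))] .n) (.c k20 (.q k15 [(.s k10 k5 2 (.s k26 k58 3 (.s k37 k48 6 (.d k47 k32 k31 2 3)))),
  (.s k31 k47 3 (.s k43 k41 0 (.s k23 k3 5 (.s k27 k19 1 (.s k51 k39 5 (.d k59 k55 k11 1 3)))))),
  (.s k10 k5 2 (.s k26 k58 3 (.s k41 k43 0 (.s k11 k56 4 (.s k3 k7 1 (.s k2 k1 0 (.d k22 k62 k60 5
  6)))))))] (.c k22 (.q k23 [(.d k43 k41 k3 0 5), (.s k10 k5 2 (.s k26 k58 3 (.s k37 k48 6 (.d k47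
  k32 k31 2 3))))] .n) (.c k23 (.q k22 [(.s k2 k62 5 (.s k3 k1 0 (.d k41 k43 k60 0 6))), (.s k10 k5
  2 (.s k26 k58 3 (.s k37 k48 6 (.d k47 k32 k31 2 3))))] .n) .n))) (.c k22 (.q k15 [(.s k10 k5 2 (.s
  k26 k58 3 (.s k37 k48 6 (.d k47 k32 k31 2 3)))), (.s k47 k31 3 (.s k43 k41 0 (.s k39 k35 1 (.s k27
  k51 5 (.s k11 k59 3 (.d k3 k23 k7 5 1)))))), (.s k10 k5 2 (.s k20 k60 5 (.s k43 k41 0 (.s k3 k23 5
  (.s k11 k7 1 (.s k8 k9 0 (.d k59 k25 k27 4 3)))))))] (.c k20 (.q k23 [(.d k43 k41 k3 0 5), (.s k10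
  k5 2 (.s k26 k58 3 (.s k37 k48 6 (.d k47 k32 k31 2 3))))] .n) (.c k23 (.l (.s k20 k60 5 (.s k10 k5
  2 (.s k26 k58 3 (.s k37 k48 6 (.d k47 k32 k31 2 3)))))) .n))) (.c k23 (.l (.s k41 k43 0 (.s k60
  k20 5 (.s k22 k3 6 (.d k62 k61 k2 0 5))))) (.c k41 (.q k15 [(.s k10 k5 2 (.s k26 k58 3 (.s k37 k48
  6 (.d k47 k32 k31 2 3)))), (.s k60 k20 5 (.s k30 k45 4 (.s k31 k47 3 (.s k29 k28 0 (.s k46 k12 4
  (.d k62 k61 k14 0 3)))))), (.s k10 k5 2 (.s k60 k20 5 (.s k26 k58 3 (.s k30 k45 4 (.s k22 k18 1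
  (.d k62 k61 k2 0 5))))))] (.c k1 (.q k61 [(.d k60 k62 k20 0 5), (.s k10 k5 2 (.s k26 k58 3 (.s k37
  k48 6 (.d k47 k32 k31 2 3))))] .n) (.c k37 (.l (.s k60 k20 5 (.s k45 k30 4 (.s k47 k31 3 (.s k46
  k44 0 (.s k29 k12 4 (.d k61 k62 k13 0 3))))))) (.c k61 (.q k1 [(.s k10 k5 2 (.s k26 k58 3 (.s k37
  k48 6 (.d k47 k32 k31 2 3)))), (.s k3 k2 0 (.s k5 k10 2 (.s k9 k13 1 (.s k6 k12 2 (.d k7 k4 k11 0
  1))))), (.s k60 k20 5 (.s k45 k30 4 (.s k47 k31 3 (.s k44 k46 0 (.d k32 k36 k37 1 2)))))] .n)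
  .n)))) (.c k43 (.q k15 [(.s k10 k5 2 (.s k26 k58 3 (.s k37 k48 6 (.d k47 k32 k31 2 3)))), (.s k60
  k20 5 (.s k30 k45 4 (.s k31 k47 3 (.s k29 k28 0 (.s k46 k12 4 (.d k62 k61 k14 0 3)))))), (.s k10
  k5 2 (.s k60 k20 5 (.s k26 k58 3 (.s k30 k45 4 (.s k22 k18 1 (.d k62 k61 k2 0 5))))))] (.c k171
  (.q k235 [(.s k10 k5 2 (.s k26 k58 3 (.s k37 k48 6 (.d k47 k32 k31 2 3)))), (.s k60 k20 5 (.s k30
  k45 4 (.s k31 k47 3 (.s k29 k28 0 (.s k46 k12 4 (.d k62 k61 k14 0 3)))))), (.s k10 k5 2 (.s k60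
  k20 5 (.s k26 k58 3 (.s k30 k45 4 (.s k22 k18 1 (.d k62 k61 k2 0 5))))))] (.c k168 (.q k169 [(.s
  k10 k5 2 (.s k26 k58 3 (.s k37 k48 6 (.d k47 k32 k31 2 3)))), (.s k60 k20 5 (.s k30 k45 4 (.s k31
  k47 3 (.s k29 k28 0 (.s k46 k12 4 (.d k62 k61 k14 0 3)))))), (.s k10 k5 2 (.s k60 k20 5 (.s k26
  k58 3 (.s k30 k45 4 (.s k22 k18 1 (.d k62 k61 k2 0 5))))))] .n) (.c k169 (.q k168 [(.s k10 k5 2
  (.s k26 k58 3 (.s k37 k48 6 (.d k47 k32 k31 2 3)))), (.s k60 k20 5 (.s k252 k84 13 (.s k188 k124 7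
  (.s k148 k128 5 (.d k104 k232 k192 7 13)))))] (.c k106 (.f k232 k104 7 (.q k105 [(.s k10 k5 2 (.s
  k26 k58 3 (.s k37 k48 6 (.d k47 k32 k31 2 3)))), (.s k60 k20 5 (.s k252 k84 13 (.s k195 k150 14
  (.d k233 k234 k214 0 6))))] .n)) (.c k232 (.q k106 [(.s k10 k5 2 (.s k26 k58 3 (.s k37 k48 6 (.d
  k47 k32 k31 2 3)))), (.s k60 k20 5 (.s k192 k149 14 (.s k128 k64 7 (.d k148 k188 k104 5 13))))]
  .n) .n))) .n))) (.c k235 (.q k171 [(.s k10 k5 2 (.s k26 k58 3 (.s k37 k48 6 (.d k47 k32 k31 2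
  3)))), (.s k60 k20 5 (.s k30 k45 4 (.s k31 k47 3 (.s k29 k28 0 (.s k46 k12 4 (.d k62 k61 k14 0
  3)))))), (.s k10 k5 2 (.s k60 k20 5 (.s k26 k58 3 (.s k30 k45 4 (.s k22 k18 1 (.d k62 k61 k2 0
  5))))))] .n) .n))) (.c k60 (.q k15 [(.s k10 k5 2 (.s k26 k58 3 (.s k47 k31 3 (.d k37 k32 k48 2
  6)))), (.s k47 k31 3 (.s k43 k41 0 (.s k3 k23 5 (.s k11 k7 1 (.s k27 k59 3 (.d k39 k35 k51 1
  5)))))), (.s k10 k5 2 (.s k43 k41 0 (.s k3 k23 5 (.s k11 k7 1 (.s k8 k9 0 (.d k59 k25 k27 4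
  3))))))] .n) (.c k61 (.q k15 [(.s k10 k5 2 (.s k26 k58 3 (.s k37 k48 6 (.d k47 k32 k31 2 3)))),
  (.s k60 k20 5 (.s k45 k30 4 (.s k41 k43 0 (.s k37 k33 1 (.d k47 k32 k31 2 3))))), (.s k60 k20 5
  (.s k30 k45 4 (.s k41 k43 0 (.s k22 k3 6 (.s k26 k18 1 (.d k10 k5 k58 2 3))))))] (.c k1 (.l (.s
  k41 k43 0 (.s k10 k5 2 (.s k26 k58 3 (.s k37 k48 6 (.d k47 k32 k31 2 3)))))) (.c k41 (.q k1 [(.s
  k10 k5 2 (.s k26 k58 3 (.s k37 k48 6 (.d k47 k32 k31 2 3)))), (.s k3 k2 0 (.s k5 k10 2 (.s k9 k13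
  1 (.s k6 k12 2 (.d k7 k4 k11 0 1))))), (.s k60 k20 5 (.s k45 k30 4 (.s k47 k31 3 (.s k44 k46 0 (.d
  k32 k36 k37 1 2)))))] .n) .n))) (.c k62 (.q k15 [(.s k10 k5 2 (.s k26 k58 3 (.s k37 k48 6 (.d k47
  k32 k31 2 3)))), (.s k60 k20 5 (.s k45 k30 4 (.s k41 k43 0 (.s k37 k33 1 (.d k47 k32 k31 2 3))))),
  (.s k60 k20 5 (.s k30 k45 4 (.s k41 k43 0 (.s k22 k3 6 (.s k26 k18 1 (.d k10 k5 k58 2 3))))))] .n)
  .n))))))))))))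

def t111 : T TT 256 :=
  (.f k42 k21 6 (.q k40 [(.s k60 k20 5 (.s k41 k43 0 (.s k22 k3 6 (.d k62 k61 k2 0 5))))] (.c k2 (.q
  k15 [(.s k10 k5 2 (.s k26 k58 3 (.s k37 k48 6 (.d k47 k32 k31 2 3)))), (.s k60 k20 5 (.s k30 k45 4
  (.s k31 k47 3 (.s k29 k28 0 (.s k46 k12 4 (.d k62 k61 k14 0 3)))))), (.s k10 k5 2 (.s k60 k20 5
  (.s k26 k58 3 (.s k37 k48 6 (.s k45 k30 4 (.d k41 k43 k33 0 1))))))] (.c k86 (.q k254 [(.s k10 k5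
  2 (.s k26 k58 3 (.s k37 k48 6 (.d k47 k32 k31 2 3)))), (.s k60 k20 5 (.s k30 k45 4 (.s k31 k47 3
  (.s k29 k28 0 (.s k46 k12 4 (.d k62 k61 k14 0 3)))))), (.s k10 k5 2 (.s k60 k20 5 (.s k26 k58 3
  (.s k37 k48 6 (.s k45 k30 4 (.d k41 k43 k33 0 1))))))] .n) (.c k254 (.q k86 [(.s k10 k5 2 (.s k26
  k58 3 (.s k37 k48 6 (.d k47 k32 k31 2 3)))), (.s k60 k20 5 (.s k30 k45 4 (.s k31 k47 3 (.s k29 k28
  0 (.s k46 k12 4 (.d k62 k61 k14 0 3)))))), (.s k10 k5 2 (.s k60 k20 5 (.s k26 k58 3 (.s k37 k48 6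
  (.s k45 k30 4 (.d k41 k43 k33 0 1))))))] .n) .n))) (.c k3 (.q k15 [(.s k10 k5 2 (.s k26 k58 3 (.s
  k47 k31 3 (.d k37 k32 k48 2 6)))), (.s k60 k20 5 (.s k30 k45 4 (.s k31 k47 3 (.s k29 k28 0 (.s k46
  k12 4 (.d k62 k61 k14 0 3)))))), (.s k10 k5 2 (.s k60 k20 5 (.s k26 k58 3 (.s k37 k48 6 (.s k45
  k30 4 (.d k41 k33 k43 1 0))))))] .n) (.c k20 (.q k15 [(.s k10 k5 2 (.s k26 k58 3 (.s k37 k48 6 (.d
  k47 k32 k31 2 3)))), (.s k31 k47 3 (.s k43 k41 0 (.s k23 k3 5 (.s k27 k19 1 (.s k51 k39 5 (.d k59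
  k55 k11 1 3)))))), (.s k10 k5 2 (.s k26 k58 3 (.s k41 k43 0 (.s k11 k56 4 (.s k3 k7 1 (.s k2 k1 0
  (.d k22 k62 k60 5 6)))))))] (.c k22 (.q k23 [(.d k43 k41 k3 0 5), (.s k10 k5 2 (.s k26 k58 3 (.s
  k37 k48 6 (.d k47 k32 k31 2 3))))] .n) (.c k23 (.q k22 [(.s k2 k62 5 (.s k3 k1 0 (.d k41 k43 k60 0
  6))), (.s k10 k5 2 (.s k26 k58 3 (.s k37 k48 6 (.d k47 k32 k31 2 3))))] .n) .n))) (.c k22 (.q k15
  [(.s k10 k5 2 (.s k26 k58 3 (.s k37 k48 6 (.d k47 k32 k31 2 3)))), (.s k47 k31 3 (.s k43 k41 0 (.s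
  k39 k35 1 (.s k27 k51 5 (.s k11 k59 3 (.d k3 k23 k7 5 1)))))), (.s k10 k5 2 (.s k20 k60 5 (.s k43
  k41 0 (.s k3 k23 5 (.s k11 k7 1 (.s k8 k9 0 (.d k59 k25 k27 4 3)))))))] (.c k20 (.q k23 [(.d k43
  k41 k3 0 5), (.s k10 k5 2 (.s k26 k58 3 (.s k37 k48 6 (.d k47 k32 k31 2 3))))] .n) (.c k23 (.l (.s
  k20 k60 5 (.s k10 k5 2 (.s k26 k58 3 (.s k37 k48 6 (.d k47 k32 k31 2 3)))))) .n))) (.c k23 (.l (.s
  k41 k43 0 (.s k60 k20 5 (.s k22 k3 6 (.d k62 k61 k2 0 5))))) (.c k41 (.q k15 [(.s k10 k5 2 (.s k26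
  k58 3 (.s k37 k48 6 (.d k47 k32 k31 2 3)))), (.s k60 k20 5 (.s k30 k45 4 (.s k31 k47 3 (.s k29 k28
  0 (.s k46 k12 4 (.d k62 k61 k14 0 3)))))), (.s k10 k5 2 (.s k60 k20 5 (.s k26 k58 3 (.s k30 k45 4
  (.s k22 k18 1 (.d k62 k61 k2 0 5))))))] (.c k1 (.q k61 [(.d k60 k62 k20 0 5), (.s k10 k5 2 (.s k26
  k58 3 (.s k37 k48 6 (.d k47 k32 k31 2 3))))] .n) (.c k37 (.l (.s k60 k20 5 (.s k45 k30 4 (.s k47
  k31 3 (.s k46 k44 0 (.s k29 k12 4 (.d k61 k62 k13 0 3))))))) (.c k61 (.q k1 [(.s k10 k5 2 (.s k26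
  k58 3 (.s k37 k48 6 (.d k47 k32 k31 2 3)))), (.s k3 k2 0 (.s k5 k10 2 (.s k9 k13 1 (.s k6 k12 2
  (.d k7 k4 k11 0 1))))), (.s k60 k20 5 (.s k45 k30 4 (.s k47 k31 3 (.s k44 k46 0 (.d k32 k36 k37 1
  2)))))] .n) .n)))) (.c k43 (.q k15 [(.s k10 k5 2 (.s k26 k58 3 (.s k37 k48 6 (.d k47 k32 k31 2
  3)))), (.s k60 k20 5 (.s k30 k45 4 (.s k31 k47 3 (.s k29 k28 0 (.s k46 k12 4 (.d k62 k61 k14 0
  3)))))), (.s k10 k5 2 (.s k60 k20 5 (.s k26 k58 3 (.s k30 k45 4 (.s k22 k18 1 (.d k62 k61 k2 0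
  5))))))] .n) (.c k60 (.q k15 [(.s k10 k5 2 (.s k26 k58 3 (.s k47 k31 3 (.d k37 k32 k48 2 6)))),
  (.s k47 k31 3 (.s k43 k41 0 (.s k3 k23 5 (.s k11 k7 1 (.s k27 k59 3 (.d k39 k35 k51 1 5)))))), (.s
  k10 k5 2 (.s k43 k41 0 (.s k3 k23 5 (.s k11 k7 1 (.s k8 k9 0 (.d k59 k25 k27 4 3))))))] .n) (.c
  k61 (.q k15 [(.s k10 k5 2 (.s k26 k58 3 (.s k37 k48 6 (.d k47 k32 k31 2 3)))), (.s k60 k20 5 (.s
  k45 k30 4 (.s k41 k43 0 (.s k37 k33 1 (.d k47 k32 k31 2 3))))), (.s k60 k20 5 (.s k30 k45 4 (.s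
  k41 k43 0 (.s k22 k3 6 (.s k26 k18 1 (.d k10 k5 k58 2 3))))))] (.c k1 (.l (.s k41 k43 0 (.s k10 k5
  2 (.s k26 k58 3 (.s k37 k48 6 (.d k47 k32 k31 2 3)))))) (.c k41 (.q k1 [(.s k10 k5 2 (.s k26 k58 3
  (.s k37 k48 6 (.d k47 k32 k31 2 3)))), (.s k3 k2 0 (.s k5 k10 2 (.s k9 k13 1 (.s k6 k12 2 (.d k7
  k4 k11 0 1))))), (.s k60 k20 5 (.s k45 k30 4 (.s k47 k31 3 (.s k44 k46 0 (.d k32 k36 k37 1 2)))))]
  .n) .n))) (.c k62 (.q k15 [(.s k10 k5 2 (.s k26 k58 3 (.s k37 k48 6 (.d k47 k32 k31 2 3)))), (.s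
  k60 k20 5 (.s k45 k30 4 (.s k41 k43 0 (.s k37 k33 1 (.d k47 k32 k31 2 3))))), (.s k60 k20 5 (.s
  k30 k45 4 (.s k41 k43 0 (.s k22 k3 6 (.s k26 k18 1 (.d k10 k5 k58 2 3))))))] .n) .n))))))))))))

def t127 : T TT 256 :=
  (.f k42 k21 6 (.q k40 [(.s k60 k20 5 (.s k41 k43 0 (.s k22 k3 6 (.d k62 k61 k2 0 5))))] (.c k2 (.q
  k15 [(.s k10 k5 2 (.s k26 k58 3 (.s k37 k48 6 (.d k47 k32 k31 2 3)))), (.s k60 k20 5 (.s k30 k45 4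
  (.s k31 k47 3 (.s k29 k28 0 (.s k46 k12 4 (.d k62 k61 k14 0 3)))))), (.s k10 k5 2 (.s k60 k20 5
  (.s k26 k58 3 (.s k37 k48 6 (.s k45 k30 4 (.d k41 k43 k33 0 1))))))] (.c k86 (.q k254 [(.s k10 k5
  2 (.s k26 k58 3 (.s k37 k48 6 (.d k47 k32 k31 2 3)))), (.s k60 k20 5 (.s k30 k45 4 (.s k31 k47 3
  (.s k29 k28 0 (.s k46 k12 4 (.d k62 k61 k14 0 3)))))), (.s k10 k5 2 (.s k60 k20 5 (.s k26 k58 3
  (.s k37 k48 6 (.s k45 k30 4 (.d k41 k43 k33 0 1))))))] .n) (.c k254 (.q k86 [(.s k10 k5 2 (.s k26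
  k58 3 (.s k37 k48 6 (.d k47 k32 k31 2 3)))), (.s k60 k20 5 (.s k30 k45 4 (.s k31 k47 3 (.s k29 k28
  0 (.s k46 k12 4 (.d k62 k61 k14 0 3)))))), (.s k10 k5 2 (.s k60 k20 5 (.s k26 k58 3 (.s k37 k48 6
  (.s k45 k30 4 (.d k41 k43 k33 0 1))))))] .n) .n))) (.c k3 (.q k15 [(.s k10 k5 2 (.s k26 k58 3 (.s
  k47 k31 3 (.d k37 k32 k48 2 6)))), (.s k60 k20 5 (.s k30 k45 4 (.s k31 k47 3 (.s k29 k28 0 (.s k46
  k12 4 (.d k62 k61 k14 0 3)))))), (.s k10 k5 2 (.s k60 k20 5 (.s k26 k58 3 (.s k37 k48 6 (.s k45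
  k30 4 (.d k41 k33 k43 1 0))))))] .n) (.c k20 (.q k15 [(.s k10 k5 2 (.s k26 k58 3 (.s k37 k48 6 (.d
  k47 k32 k31 2 3)))), (.s k31 k47 3 (.s k43 k41 0 (.s k23 k3 5 (.s k27 k19 1 (.s k51 k39 5 (.d k59
  k55 k11 1 3)))))), (.s k10 k5 2 (.s k26 k58 3 (.s k41 k43 0 (.s k11 k56 4 (.s k3 k7 1 (.s k2 k1 0
  (.d k22 k62 k60 5 6)))))))] (.c k22 (.q k23 [(.d k43 k41 k3 0 5), (.s k10 k5 2 (.s k26 k58 3 (.s
  k37 k48 6 (.d k47 k32 k31 2 3))))] .n) (.c k23 (.q k22 [(.s k2 k62 5 (.s k3 k1 0 (.d k41 k43 k60 0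
  6))), (.s k10 k5 2 (.s k26 k58 3 (.s k37 k48 6 (.d k47 k32 k31 2 3))))] .n) .n))) (.c k22 (.q k15
  [(.s k10 k5 2 (.s k26 k58 3 (.s k37 k48 6 (.d k47 k32 k31 2 3)))), (.s k47 k31 3 (.s k43 k41 0 (.s
  k39 k35 1 (.s k27 k51 5 (.s k11 k59 3 (.d k3 k23 k7 5 1)))))), (.s k10 k5 2 (.s k20 k60 5 (.s k43
  k41 0 (.s k3 k23 5 (.s k11 k7 1 (.s k8 k9 0 (.d k59 k25 k27 4 3)))))))] (.c k20 (.q k23 [(.d k43
  k41 k3 0 5), (.s k10 k5 2 (.s k26 k58 3 (.s k37 k48 6 (.d k47 k32 k31 2 3))))] .n) (.c k23 (.l (.s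
  k20 k60 5 (.s k10 k5 2 (.s k26 k58 3 (.s k37 k48 6 (.d k47 k32 k31 2 3)))))) .n))) (.c k23 (.l (.s
  k41 k43 0 (.s k60 k20 5 (.s k22 k3 6 (.d k62 k61 k2 0 5))))) (.c k41 (.q k15 [(.s k10 k5 2 (.s k26
  k58 3 (.s k37 k48 6 (.d k47 k32 k31 2 3)))), (.s k60 k20 5 (.s k30 k45 4 (.s k31 k47 3 (.s k29 k28
  0 (.s k46 k12 4 (.d k62 k61 k14 0 3)))))), (.s k10 k5 2 (.s k60 k20 5 (.s k26 k58 3 (.s k30 k45 4
  (.s k22 k18 1 (.d k62 k61 k2 0 5))))))] (.c k1 (.q k61 [(.d k60 k62 k20 0 5), (.s k10 k5 2 (.s k26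
  k58 3 (.s k37 k48 6 (.d k47 k32 k31 2 3))))] .n) (.c k37 (.l (.s k60 k20 5 (.s k45 k30 4 (.s k47
  k31 3 (.s k46 k44 0 (.s k29 k12 4 (.d k61 k62 k13 0 3))))))) (.c k61 (.q k1 [(.s k10 k5 2 (.s k26
  k58 3 (.s k37 k48 6 (.d k47 k32 k31 2 3)))), (.s k3 k2 0 (.s k5 k10 2 (.s k9 k13 1 (.s k6 k12 2
  (.d k7 k4 k11 0 1))))), (.s k60 k20 5 (.s k45 k30 4 (.s k47 k31 3 (.s k44 k46 0 (.d k32 k36 k37 1
  2)))))] .n) .n)))) (.c k43 (.q k15 [(.s k10 k5 2 (.s k26 k58 3 (.s k37 k48 6 (.d k47 k32 k31 2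
  3)))), (.s k60 k20 5 (.s k30 k45 4 (.s k31 k47 3 (.s k29 k28 0 (.s k46 k12 4 (.d k62 k61 k14 0
  3)))))), (.s k10 k5 2 (.s k60 k20 5 (.s k26 k58 3 (.s k30 k45 4 (.s k22 k18 1 (.d k62 k61 k2 0
  5))))))] .n) (.c k60 (.q k15 [(.s k10 k5 2 (.s k26 k58 3 (.s k47 k31 3 (.d k37 k32 k48 2 6)))),
  (.s k47 k31 3 (.s k43 k41 0 (.s k3 k23 5 (.s k11 k7 1 (.s k27 k59 3 (.d k39 k35 k51 1 5)))))), (.s
  k10 k5 2 (.s k43 k41 0 (.s k3 k23 5 (.s k11 k7 1 (.s k8 k9 0 (.d k59 k25 k27 4 3))))))] .n) (.c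
  k61 (.q k15 [(.s k10 k5 2 (.s k26 k58 3 (.s k37 k48 6 (.d k47 k32 k31 2 3)))), (.s k60 k20 5 (.s
  k45 k30 4 (.s k41 k43 0 (.s k37 k33 1 (.d k47 k32 k31 2 3))))), (.s k60 k20 5 (.s k30 k45 4 (.s
  k41 k43 0 (.s k22 k3 6 (.s k26 k18 1 (.d k10 k5 k58 2 3))))))] (.c k1 (.l (.s k41 k43 0 (.s k10 k5
  2 (.s k26 k58 3 (.s k37 k48 6 (.d k47 k32 k31 2 3)))))) (.c k41 (.q k1 [(.s k10 k5 2 (.s k26 k58 3
  (.s k37 k48 6 (.d k47 k32 k31 2 3)))), (.s k3 k2 0 (.s k5 k10 2 (.s k9 k13 1 (.s k6 k12 2 (.d k7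
  k4 k11 0 1))))), (.s k60 k20 5 (.s k45 k30 4 (.s k47 k31 3 (.s k44 k46 0 (.d k32 k36 k37 1 2)))))]
  .n) .n))) (.c k62 (.q k15 [(.s k10 k5 2 (.s k26 k58 3 (.s k37 k48 6 (.d k47 k32 k31 2 3)))), (.s
  k60 k20 5 (.s k45 k30 4 (.s k41 k43 0 (.s k37 k33 1 (.d k47 k32 k31 2 3))))), (.s k60 k20 5 (.s
  k30 k45 4 (.s k41 k43 0 (.s k22 k3 6 (.s k26 k18 1 (.d k10 k5 k58 2 3))))))] .n) .n))))))))))))

def t128 : T TT 256 :=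
  (.q k60 [(.s k40 k20 5 (.s k42 k21 6 (.s k41 k43 0 (.s k22 k3 6 (.d k62 k61 k2 0 5)))))] (.c k2
  (.l (.s k20 k40 5 (.s k21 k42 6 (.s k22 k23 0 (.s k41 k3 6 (.d k61 k62 k1 0 5)))))) (.c k3 (.f k40
  k20 5 (.f k61 k62 0 (.q k15 [(.s k45 k30 4 (.s k29 k13 3 (.s k47 k31 3 (.d k46 k44 k12 0 4)))),
  (.s k5 k10 2 (.s k21 k42 6 (.s k41 k1 5 (.s k37 k53 3 (.d k45 k33 k30 1 4))))), (.s k5 k10 2 (.s
  k21 k42 6 (.s k37 k53 3 (.s k26 k48 6 (.d k31 k16 k47 2 3)))))] (.c k149 (.q k191 [(.s k45 k30 4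
  (.s k29 k13 3 (.s k46 k12 4 (.d k47 k44 k31 0 3)))), (.s k5 k10 2 (.s k21 k42 6 (.s k41 k1 5 (.s
  k37 k53 3 (.d k45 k33 k30 1 4))))), (.s k5 k10 2 (.s k21 k42 6 (.s k37 k53 3 (.s k26 k48 6 (.d k31
  k16 k47 2 3)))))] .n) (.c k191 (.q k149 [(.s k45 k30 4 (.s k29 k13 3 (.s k47 k31 3 (.d k46 k44 k12
  0 4)))), (.s k105 k193 13 (.s k150 k195 14 (.s k192 k106 14 (.d k148 k151 k104 0 13))))] .n)
  .n))))) (.c k20 (.f k61 k62 0 (.q k15 [(.s k45 k30 4 (.s k29 k13 3 (.s k46 k12 4 (.d k47 k44 k31 0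
  3)))), (.s k5 k10 2 (.s k21 k42 6 (.s k41 k1 5 (.s k37 k53 3 (.d k45 k33 k30 1 4))))), (.s k5 k10
  2 (.s k21 k42 6 (.s k37 k53 3 (.s k26 k48 6 (.d k31 k16 k47 2 3)))))] (.c k149 (.q k191 [(.s k45
  k30 4 (.s k29 k13 3 (.s k46 k12 4 (.d k47 k44 k31 0 3)))), (.s k5 k10 2 (.s k21 k42 6 (.s k41 k1 5
  (.s k37 k53 3 (.d k45 k33 k30 1 4))))), (.s k5 k10 2 (.s k21 k42 6 (.s k37 k53 3 (.s k26 k48 6 (.d
  k31 k16 k47 2 3)))))] .n) (.c k191 (.q k149 [(.s k45 k30 4 (.s k29 k13 3 (.s k46 k12 4 (.d k47 k44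
  k31 0 3)))), (.s k105 k193 13 (.s k150 k195 14 (.s k192 k106 14 (.d k148 k151 k104 0 13))))] .n)
  .n)))) (.c k21 (.f k61 k62 0 (.q k12 [(.s k28 k44 3 (.s k29 k46 4 (.s k45 k13 3 (.d k30 k31 k15 0
  4)))), (.s k4 k8 1 (.s k20 k40 5 (.s k36 k52 3 (.s k24 k48 5 (.d k28 k16 k44 1 3)))))] (.c k28 (.q
  k149 [(.s k105 k193 13 (.s k150 k195 14 (.s k148 k151 0 (.d k192 k104 k106 13 14)))), (.s k29 k46
  4 (.s k89 k209 9 (.s k166 k243 14 (.s k132 k183 4 (.d k192 k72 k106 9 14))))), (.s k29 k46 4 (.s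
  k89 k209 9 (.s k105 k193 13 (.s k73 k121 3 (.d k195 k134 k150 10 14)))))] .n) (.c k44 (.q k149
  [(.s k105 k193 13 (.s k150 k195 14 (.s k148 k151 0 (.d k192 k104 k106 13 14)))), (.s k29 k46 4 (.s
  k89 k209 9 (.s k166 k243 14 (.s k132 k183 4 (.d k192 k72 k106 9 14))))), (.s k29 k46 4 (.s k89
  k209 9 (.s k105 k193 13 (.s k73 k121 3 (.d k195 k134 k150 10 14)))))] .n) (.c k149 (.q k191 [(.s
  k28 k44 3 (.s k29 k46 4 (.s k45 k13 3 (.d k30 k31 k15 0 4)))), (.s k4 k8 1 (.s k20 k40 5 (.s k36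
  k52 3 (.s k24 k48 5 (.d k28 k16 k44 1 3))))), (.s k46 k29 4 (.s k255 k127 7 (.s k174 k93 12 (.s
  k110 k238 7 (.d k157 k140 k204 4 12)))))] (.c k85 (.q k213 [(.s k28 k44 3 (.s k29 k46 4 (.s k45
  k13 3 (.d k30 k31 k15 0 4)))), (.s k4 k8 1 (.s k20 k40 5 (.s k36 k52 3 (.s k24 k48 5 (.d k28 k16
  k44 1 3))))), (.s k46 k29 4 (.s k255 k127 7 (.s k174 k93 12 (.s k110 k238 7 (.d k157 k140 k204 4
  12)))))] .n) (.c k213 (.q k85 [(.s k28 k44 3 (.s k29 k46 4 (.s k45 k13 3 (.d k30 k31 k15 0 4)))),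
  (.s k4 k8 1 (.s k20 k40 5 (.s k36 k52 3 (.s k24 k48 5 (.d k28 k16 k44 1 3))))), (.s k4 k8 1 (.s
  k166 k247 12 (.s k46 k29 4 (.s k106 k226 9 (.d k127 k64 k255 6 7)))))] .n) .n))) (.c k191 (.q k149
  [(.s k28 k44 3 (.s k29 k46 4 (.s k45 k13 3 (.d k30 k31 k15 0 4)))), (.s k105 k193 13 (.s k150 k195
  14 (.s k192 k106 14 (.d k148 k151 k104 0 13))))] .n) .n)))))) (.c k22 (.q k15 [(.s k10 k5 2 (.s
  k42 k21 6 (.s k26 k58 3 (.s k37 k48 6 (.d k47 k32 k31 2 3))))), (.s k30 k45 4 (.s k31 k47 3 (.s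
  k29 k28 0 (.s k46 k12 4 (.d k62 k61 k14 0 3))))), (.s k5 k10 2 (.s k21 k42 6 (.s k37 k53 3 (.s k45
  k30 4 (.s k41 k33 1 (.d k61 k62 k1 0 5))))))] (.c k149 (.q k191 [(.s k30 k45 4 (.s k31 k47 3 (.s
  k29 k28 0 (.s k46 k12 4 (.d k62 k61 k14 0 3))))), (.s k10 k5 2 (.s k42 k21 6 (.s k26 k58 3 (.s k37
  k48 6 (.d k47 k32 k31 2 3))))), (.s k62 k61 0 (.s k255 k127 7 (.s k190 k125 8 (.s k126 k254 7 (.d
  k189 k188 k252 0 8)))))] .n) (.c k191 (.q k149 [(.s k10 k5 2 (.s k42 k21 6 (.s k26 k58 3 (.s k37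
  k48 6 (.d k47 k32 k31 2 3))))), (.s k61 k62 0 (.s k105 k193 13 (.s k150 k195 14 (.s k192 k106 14
  (.d k148 k151 k104 0 13)))))] (.c k42 (.l (.s k30 k45 4 (.s k31 k47 3 (.s k29 k28 0 (.s k46 k12 4
  (.d k62 k61 k14 0 3)))))) .n)) .n))) (.c k23 (.l (.s k40 k20 5 (.s k62 k61 0 (.s k42 k21 6 (.s k22
  k2 5 (.d k41 k43 k3 0 6)))))) (.c k40 (.q k105 [(.s k61 k62 0 (.s k150 k195 14 (.s k149 k193 13
  (.s k148 k151 0 (.d k192 k104 k106 13 14))))), (.s k21 k42 6 (.s k61 k62 0 (.s k149 k193 13 (.s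
  k85 k213 7 (.s k125 k65 5 (.s k253 k189 7 (.d k1 k41 k169 5 13))))))), (.s k21 k42 6 (.s k195 k150
  14 (.s k107 k151 13 (.s k106 k104 0 (.s k149 k192 14 (.s k85 k213 7 (.d k65 k130 k125 8 5)))))))]
  (.c k106 (.f k42 k21 6 (.l (.s k62 k61 0 (.s k22 k2 5 (.s k150 k195 14 (.s k86 k214 7 (.s k124 k67
  6 (.s k252 k188 7 (.d k3 k41 k169 6 14))))))))) (.c k149 (.q k191 [(.s k255 k127 7 (.s k125 k190 8
  (.s k65 k85 5 (.d k195 k130 k150 8 14)))), (.s k62 k61 0 (.s k255 k127 7 (.s k190 k125 8 (.s k126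
  k254 7 (.d k189 k188 k252 0 8))))), (.s k21 k42 6 (.s k61 k62 0 (.s k41 k1 5 (.s k195 k150 14 (.s
  k151 k107 13 (.s k131 k171 5 (.d k3 k22 k67 6 7)))))))] (.c k190 (.l (.s k195 k150 14 (.s k130 k65
  8 (.s k151 k107 13 (.s k255 k127 7 (.s k171 k131 5 (.s k87 k3 13 (.d k215 k235 k23 5 7))))))))
  .n)) (.c k191 (.q k149 [(.d k61 k62 k193 0 13), (.s k150 k195 14 (.s k192 k106 14 (.d k148 k151
  k104 0 13)))] .n) .n)))) (.c k41 (.f k40 k20 5 (.f k61 k62 0 (.q k15 [(.s k45 k30 4 (.s k29 k13 3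
  (.s k46 k12 4 (.d k47 k44 k31 0 3)))), (.s k10 k5 2 (.s k42 k21 6 (.s k58 k26 3 (.s k53 k48 2 (.s
  k57 k49 1 (.s k51 k54 2 (.d k59 k56 k55 0 1)))))))] (.c k31 (.l (.s k5 k10 2 (.s k21 k42 6 (.s k53
  k37 3 (.s k58 k48 2 (.s k57 k49 1 (.s k51 k54 2 (.d k59 k56 k55 0 1)))))))) (.c k149 (.q k191 [(.s
  k45 k30 4 (.s k29 k13 3 (.s k46 k12 4 (.d k47 k44 k31 0 3)))), (.s k10 k5 2 (.s k42 k21 6 (.s k58
  k26 3 (.s k53 k48 2 (.s k57 k49 1 (.s k51 k54 2 (.d k59 k56 k55 0 1)))))))] (.c k31 (.l (.s k5 k10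
  2 (.s k21 k42 6 (.s k53 k37 3 (.s k58 k48 2 (.s k57 k49 1 (.s k51 k54 2 (.d k59 k56 k55 0
  1)))))))) .n)) (.c k191 (.q k149 [(.s k45 k30 4 (.s k29 k13 3 (.s k46 k12 4 (.d k47 k44 k31 0
  3)))), (.s k105 k193 13 (.s k150 k195 14 (.s k192 k106 14 (.d k148 k151 k104 0 13))))] .n)
  .n)))))) (.c k42 (.q k8 [(.s k12 k4 1 (.s k40 k20 5 (.s k24 k56 3 (.s k36 k48 5 (.d k44 k32 k28 1
  3))))), (.s k12 k4 1 (.s k28 k44 3 (.s k29 k46 4 (.s k30 k31 0 (.s k45 k15 4 (.d k61 k62 k13 0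
  3)))))), (.s k40 k20 5 (.s k56 k24 3 (.s k48 k52 1 (.s k58 k53 2 (.s k57 k59 0 (.s k54 k51 2 (.d
  k62 k61 k50 0 1)))))))] (.c k4 (.q k10 [(.s k5 k15 2 (.s k9 k11 0 (.s k1 k13 1 (.s k61 k62 0 (.s
  k41 k21 5 (.d k3 k2 k22 0 6)))))), (.s k15 k5 2 (.s k30 k45 4 (.s k31 k47 3 (.s k29 k28 0 (.s k46
  k12 4 (.d k62 k61 k14 0 3)))))), (.s k40 k20 5 (.s k11 k9 0 (.s k56 k24 3 (.s k41 k26 4 (.s k61
  k62 0 (.s k1 k21 5 (.d k3 k2 k22 0 6))))))), (.s k15 k5 2 (.s k40 k20 5 (.s k11 k9 0 (.s k56 k24 3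
  (.s k26 k41 4 (.d k48 k52 k37 1 6))))))] (.c k106 (.q k234 [(.s k5 k15 2 (.s k9 k11 0 (.s k1 k13 1
  (.s k61 k62 0 (.s k41 k21 5 (.d k3 k2 k22 0 6)))))), (.s k15 k5 2 (.s k30 k45 4 (.s k31 k47 3 (.s
  k29 k28 0 (.s k46 k12 4 (.d k62 k61 k14 0 3)))))), (.s k40 k20 5 (.s k11 k9 0 (.s k56 k24 3 (.s
  k41 k26 4 (.s k61 k62 0 (.s k1 k21 5 (.d k3 k2 k22 0 6))))))), (.s k15 k5 2 (.s k40 k20 5 (.s k11
  k9 0 (.s k56 k24 3 (.s k26 k41 4 (.d k48 k52 k37 1 6))))))] (.c k149 (.q k191 [(.s k255 k127 7 (.s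
  k190 k125 8 (.s k189 k188 0 (.s k126 k252 8 (.d k62 k61 k254 0 7))))), (.s k15 k5 2 (.s k40 k20 5
  (.s k11 k9 0 (.s k56 k24 3 (.s k26 k41 4 (.d k48 k52 k37 1 6))))))] .n) (.c k191 (.q k149 [(.s k5
  k15 2 (.s k9 k11 0 (.s k1 k13 1 (.s k61 k62 0 (.s k41 k21 5 (.d k3 k2 k22 0 6)))))), (.s k15 k5 2
  (.s k30 k45 4 (.s k31 k47 3 (.s k29 k28 0 (.s k46 k12 4 (.d k62 k61 k14 0 3)))))), (.s k40 k20 5
  (.s k11 k9 0 (.s k56 k24 3 (.s k41 k26 4 (.s k61 k62 0 (.s k1 k21 5 (.d k3 k2 k22 0 6))))))), (.s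
  k15 k5 2 (.s k40 k20 5 (.s k11 k9 0 (.s k56 k24 3 (.s k26 k41 4 (.d k48 k52 k37 1 6))))))] .n)
  .n))) (.c k149 (.q k191 [(.s k255 k127 7 (.s k190 k125 8 (.s k189 k188 0 (.s k126 k252 8 (.d k62
  k61 k254 0 7))))), (.s k15 k5 2 (.s k40 k20 5 (.s k11 k9 0 (.s k56 k24 3 (.s k26 k41 4 (.d k48 k52
  k37 1 6))))))] (.c k106 (.q k234 [(.s k255 k127 7 (.s k190 k125 8 (.s k189 k188 0 (.s k126 k252 8
  (.d k62 k61 k254 0 7))))), (.s k15 k5 2 (.s k40 k20 5 (.s k11 k9 0 (.s k56 k24 3 (.s k26 k41 4 (.d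
  k48 k52 k37 1 6))))))] .n) (.c k234 (.q k106 [(.s k255 k127 7 (.s k190 k125 8 (.s k189 k188 0 (.s
  k126 k252 8 (.d k62 k61 k254 0 7))))), (.s k15 k5 2 (.s k40 k20 5 (.s k11 k9 0 (.s k56 k24 3 (.s
  k26 k41 4 (.d k48 k52 k37 1 6))))))] .n) .n))) (.c k191 (.q k149 [(.s k62 k61 0 (.s k106 k192 14
  (.s k150 k194 13 (.s k195 k105 14 (.d k151 k148 k107 0 13))))), (.s k15 k5 2 (.s k40 k20 5 (.s k11
  k9 0 (.s k56 k24 3 (.s k26 k41 4 (.d k48 k52 k37 1 6))))))] (.c k40 (.l (.s k61 k62 0 (.s k105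
  k193 13 (.s k150 k195 14 (.s k148 k151 0 (.d k192 k104 k106 13 14)))))) (.c k106 (.q k234 [(.s k5
  k15 2 (.s k9 k11 0 (.s k1 k13 1 (.s k61 k62 0 (.s k41 k21 5 (.d k3 k2 k22 0 6)))))), (.s k15 k5 2
  (.s k30 k45 4 (.s k31 k47 3 (.s k29 k28 0 (.s k46 k12 4 (.d k62 k61 k14 0 3)))))), (.s k40 k20 5
  (.s k11 k9 0 (.s k56 k24 3 (.s k41 k26 4 (.s k61 k62 0 (.s k1 k21 5 (.d k3 k2 k22 0 6))))))), (.s
  k15 k5 2 (.s k40 k20 5 (.s k11 k9 0 (.s k56 k24 3 (.s k26 k41 4 (.d k48 k52 k37 1 6))))))] .n) (.c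
  k234 (.l (.s k106 k192 14 (.s k61 k62 0 (.s k105 k193 13 (.s k195 k150 14 (.d k107 k104 k151 0
  13)))))) .n)))) (.c k234 (.q k106 [(.s k62 k61 0 (.s k150 k194 13 (.s k105 k195 14 (.s k104 k107 0
  (.d k192 k149 k148 14 13))))), (.s k15 k5 2 (.s k40 k20 5 (.s k11 k9 0 (.s k56 k24 3 (.s k26 k41 4
  (.d k48 k52 k37 1 6))))))] (.c k149 (.q k191 [(.s k255 k127 7 (.s k190 k125 8 (.s k189 k188 0 (.s
  k126 k252 8 (.d k62 k61 k254 0 7))))), (.s k15 k5 2 (.s k40 k20 5 (.s k11 k9 0 (.s k56 k24 3 (.s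
  k26 k41 4 (.d k48 k52 k37 1 6))))))] .n) (.c k191 (.l (.s k149 k192 14 (.s k61 k62 0 (.s k105 k193
  13 (.s k195 k150 14 (.d k107 k104 k151 0 13)))))) .n))) .n))))) (.c k28 (.f k61 k62 0 (.l (.s k4
  k12 1 (.s k20 k40 5 (.s k52 k36 3 (.s k48 k56 1 (.s k53 k58 2 (.s k57 k49 1 (.d k54 k55 k51 0
  2))))))))) (.c k106 (.q k234 [(.s k12 k4 1 (.s k40 k20 5 (.s k24 k56 3 (.s k36 k48 5 (.d k44 k32
  k28 1 3))))), (.s k12 k4 1 (.s k28 k44 3 (.s k29 k46 4 (.s k30 k31 0 (.s k45 k15 4 (.d k61 k62 k13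
  0 3)))))), (.s k40 k20 5 (.s k56 k24 3 (.s k48 k52 1 (.s k58 k53 2 (.s k57 k59 0 (.s k54 k51 2 (.d
  k62 k61 k50 0 1)))))))] (.c k4 (.q k15 [(.s k45 k30 4 (.s k47 k31 3 (.s k46 k44 0 (.s k29 k12 4
  (.d k61 k62 k13 0 3))))), (.s k10 k5 2 (.s k40 k20 5 (.s k11 k9 0 (.s k56 k24 3 (.s k26 k41 4 (.d
  k48 k52 k37 1 6))))))] (.c k13 (.l (.s k30 k45 4 (.s k31 k47 3 (.s k29 k28 0 (.s k46 k12 4 (.d k62
  k61 k14 0 3)))))) (.c k28 (.l (.s k45 k30 4 (.s k61 k62 0 (.s k29 k13 3 (.s k46 k12 4 (.d k47 k31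
  k44 3 0)))))) (.c k149 (.q k191 [(.s k45 k30 4 (.s k47 k31 3 (.s k46 k44 0 (.s k29 k12 4 (.d k61
  k62 k13 0 3))))), (.s k62 k61 0 (.s k255 k127 7 (.s k190 k125 8 (.s k126 k254 7 (.d k189 k188 k252
  0 8))))), (.s k47 k31 3 (.s k255 k127 7 (.s k175 k95 11 (.s k111 k239 7 (.d k159 k143 k207 3
  11)))))] .n) (.c k191 (.q k149 [(.s k45 k30 4 (.s k47 k31 3 (.s k46 k44 0 (.s k29 k12 4 (.d k61
  k62 k13 0 3))))), (.s k10 k5 2 (.s k40 k20 5 (.s k11 k9 0 (.s k56 k24 3 (.s k26 k41 4 (.d k48 k52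
  k37 1 6))))))] (.c k13 (.l (.s k30 k45 4 (.s k31 k47 3 (.s k29 k28 0 (.s k46 k12 4 (.d k62 k61 k14
  0 3)))))) (.c k28 (.l (.s k45 k30 4 (.s k61 k62 0 (.s k29 k13 3 (.s k46 k12 4 (.d k47 k31 k44 3
  0)))))) .n))) .n))))) (.c k28 (.f k61 k62 0 (.l (.s k4 k12 1 (.s k20 k40 5 (.s k52 k36 3 (.s k48
  k56 1 (.s k53 k58 2 (.s k57 k49 1 (.d k54 k55 k51 0 2))))))))) (.c k149 (.q k191 [(.s k12 k4 1 (.s
  k40 k20 5 (.s k24 k56 3 (.s k36 k48 5 (.d k44 k32 k28 1 3))))), (.s k62 k61 0 (.s k255 k127 7 (.s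
  k190 k125 8 (.s k126 k254 7 (.d k189 k188 k252 0 8)))))] .n) (.c k191 (.q k149 [(.s k12 k4 1 (.s
  k40 k20 5 (.s k24 k56 3 (.s k36 k48 5 (.d k44 k32 k28 1 3))))), (.s k12 k4 1 (.s k29 k46 4 (.s k89
  k209 9 (.s k61 k62 0 (.s k105 k193 13 (.s k73 k121 3 (.d k195 k150 k134 14 10)))))))] (.c k4 (.f
  k61 k62 0 (.l (.s k20 k40 5 (.s k105 k193 13 (.s k150 k195 14 (.s k85 k215 8 (.s k21 k213 7 (.s
  k41 k1 5 (.d k22 k23 k3 0 6))))))))) (.c k12 (.l (.s k40 k20 5 (.s k56 k24 3 (.s k48 k52 1 (.s k58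
  k53 2 (.s k57 k59 0 (.s k54 k51 2 (.d k62 k61 k50 0 1)))))))) .n))) .n))))) (.c k149 (.q k191 [(.s
  k12 k4 1 (.s k40 k20 5 (.s k24 k56 3 (.s k36 k48 5 (.d k44 k32 k28 1 3))))), (.s k62 k61 0 (.s
  k255 k127 7 (.s k190 k125 8 (.s k126 k254 7 (.d k189 k188 k252 0 8)))))] (.c k106 (.q k234 [(.s
  k12 k4 1 (.s k40 k20 5 (.s k24 k56 3 (.s k36 k48 5 (.d k44 k32 k28 1 3))))), (.s k62 k61 0 (.s
  k255 k127 7 (.s k190 k125 8 (.s k126 k254 7 (.d k189 k188 k252 0 8)))))] .n) (.c k234 (.q k106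
  [(.s k12 k4 1 (.s k40 k20 5 (.s k24 k56 3 (.s k36 k48 5 (.d k44 k32 k28 1 3))))), (.s k62 k61 0
  (.s k255 k127 7 (.s k190 k125 8 (.s k126 k254 7 (.d k189 k188 k252 0 8)))))] .n) .n))) (.c k191
  (.q k149 [(.s k12 k4 1 (.s k40 k20 5 (.s k24 k56 3 (.s k36 k48 5 (.d k44 k32 k28 1 3))))), (.s k61
  k62 0 (.s k105 k193 13 (.s k150 k195 14 (.s k148 k151 0 (.d k192 k106 k104 14 13)))))] (.c k106
  (.q k234 [(.s k12 k4 1 (.s k40 k20 5 (.s k24 k56 3 (.s k36 k48 5 (.d k44 k32 k28 1 3))))), (.s k12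
  k4 1 (.s k29 k46 4 (.s k89 k209 9 (.s k61 k62 0 (.s k105 k193 13 (.s k73 k121 3 (.d k195 k150 k134
  14 10)))))))] (.c k4 (.f k61 k62 0 (.l (.s k20 k40 5 (.s k105 k193 13 (.s k150 k195 14 (.s k85
  k215 8 (.s k21 k213 7 (.s k41 k1 5 (.d k22 k23 k3 0 6))))))))) (.c k12 (.l (.s k40 k20 5 (.s k56
  k24 3 (.s k48 k52 1 (.s k58 k53 2 (.s k57 k59 0 (.s k54 k51 2 (.d k62 k61 k50 0 1)))))))) .n)))
  (.c k234 (.l (.s k106 k192 14 (.s k61 k62 0 (.s k105 k193 13 (.s k195 k150 14 (.d k107 k104 k151 0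
  13)))))) .n))) (.c k234 (.q k106 [(.s k12 k4 1 (.s k40 k20 5 (.s k24 k56 3 (.s k36 k48 5 (.d k44
  k32 k28 1 3))))), (.s k61 k62 0 (.s k149 k192 14 (.s k105 k193 13 (.s k195 k150 14 (.d k107 k104
  k151 0 13)))))] (.c k149 (.q k191 [(.s k12 k4 1 (.s k40 k20 5 (.s k24 k56 3 (.s k36 k48 5 (.d k44
  k32 k28 1 3))))), (.s k62 k61 0 (.s k255 k127 7 (.s k190 k125 8 (.s k126 k254 7 (.d k189 k188 k252
  0 8)))))] .n) (.c k191 (.l (.s k149 k192 14 (.s k61 k62 0 (.s k105 k193 13 (.s k195 k150 14 (.d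
  k107 k104 k151 0 13)))))) .n))) .n))))))) (.c k43 (.l (.s k20 k40 5 (.s k61 k62 0 (.s k21 k42 6
  (.s k41 k1 5 (.d k22 k23 k3 0 6)))))) (.c k61 (.f k40 k20 5 (.q k12 [(.s k8 k4 1 (.s k24 k56 3 (.s
  k36 k48 5 (.d k44 k32 k28 1 3)))), (.s k4 k8 1 (.s k21 k42 6 (.s k38 k55 4 (.s k25 k51 6 (.d k29
  k17 k46 1 4))))), (.s k42 k21 6 (.s k44 k28 3 (.s k46 k29 4 (.s k38 k34 1 (.d k41 k43 k35 0
  2)))))] (.c k149 (.q k191 [(.s k8 k4 1 (.s k24 k56 3 (.s k36 k48 5 (.d k44 k32 k28 1 3)))), (.s k4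
  k8 1 (.s k21 k42 6 (.s k38 k55 4 (.s k25 k51 6 (.d k29 k17 k46 1 4))))), (.s k42 k21 6 (.s k44 k28
  3 (.s k46 k29 4 (.s k38 k34 1 (.d k41 k43 k35 0 2)))))] (.c k105 (.q k193 [(.s k8 k4 1 (.s k24 k56
  3 (.s k36 k48 5 (.d k44 k32 k28 1 3)))), (.s k4 k8 1 (.s k21 k42 6 (.s k38 k55 4 (.s k25 k51 6 (.d
  k29 k17 k46 1 4))))), (.s k42 k21 6 (.s k44 k28 3 (.s k46 k29 4 (.s k38 k34 1 (.d k41 k43 k35 0
  2)))))] .n) (.c k193 (.q k105 [(.s k8 k4 1 (.s k24 k56 3 (.s k36 k48 5 (.d k44 k32 k28 1 3)))),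
  (.s k255 k127 7 (.s k125 k190 8 (.s k65 k85 5 (.d k195 k130 k150 8 14))))] .n) .n))) (.c k191 (.q
  k149 [(.s k8 k4 1 (.s k24 k56 3 (.s k36 k48 5 (.d k44 k32 k28 1 3)))), (.s k4 k8 1 (.s k21 k42 6
  (.s k38 k55 4 (.s k25 k51 6 (.d k29 k17 k46 1 4))))), (.s k42 k21 6 (.s k44 k28 3 (.s k46 k29 4
  (.s k38 k34 1 (.d k41 k43 k35 0 2)))))] .n) .n)))) (.c k62 (.f k40 k20 5 (.q k12 [(.s k8 k4 1 (.s
  k24 k56 3 (.s k36 k48 5 (.d k44 k32 k28 1 3)))), (.s k4 k8 1 (.s k21 k42 6 (.s k38 k55 4 (.s k25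
  k51 6 (.d k29 k17 k46 1 4))))), (.s k42 k21 6 (.s k44 k28 3 (.s k46 k29 4 (.s k38 k34 1 (.d k41
  k43 k35 0 2)))))] (.c k149 (.q k191 [(.s k8 k4 1 (.s k24 k56 3 (.s k36 k48 5 (.d k44 k32 k28 1
  3)))), (.s k4 k8 1 (.s k21 k42 6 (.s k38 k55 4 (.s k25 k51 6 (.d k29 k17 k46 1 4))))), (.s k42 k21
  6 (.s k44 k28 3 (.s k46 k29 4 (.s k38 k34 1 (.d k41 k43 k35 0 2)))))] .n) (.c k191 (.q k149 [(.s
  k8 k4 1 (.s k24 k56 3 (.s k36 k48 5 (.d k44 k32 k28 1 3)))), (.s k4 k8 1 (.s k21 k42 6 (.s k38 k55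
  4 (.s k25 k51 6 (.d k29 k17 k46 1 4))))), (.s k42 k21 6 (.s k44 k28 3 (.s k46 k29 4 (.s k38 k34 1
  (.d k41 k43 k35 0 2)))))] .n) .n)))) (.c k149 (.q k191 [(.s k40 k20 5 (.s k42 k21 6 (.s k41 k43 0
  (.s k22 k3 6 (.d k62 k61 k2 0 5))))), (.s k62 k61 0 (.s k255 k127 7 (.s k190 k125 8 (.s k126 k254
  7 (.d k189 k188 k252 0 8)))))] (.c k2 (.l (.s k20 k40 5 (.s k21 k42 6 (.s k22 k23 0 (.s k41 k3 6
  (.d k61 k62 k1 0 5)))))) (.c k61 (.f k42 k21 6 (.f k40 k20 5 (.l (.s k41 k43 0 (.s k22 k3 6 (.s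
  k62 k2 5 (.s k255 k127 7 (.s k190 k125 8 (.s k189 k188 0 (.d k126 k254 k252 7 8)))))))))) (.c k62
  (.q k15 [(.s k10 k5 2 (.s k42 k21 6 (.s k26 k58 3 (.s k37 k48 6 (.d k47 k32 k31 2 3))))), (.s k47
  k31 3 (.s k255 k127 7 (.s k175 k95 11 (.s k111 k239 7 (.d k159 k143 k207 3 11))))), (.s k5 k10 2
  (.s k20 k40 5 (.s k21 k42 6 (.s k37 k53 3 (.s k26 k48 6 (.s k30 k45 4 (.d k22 k23 k18 0 1)))))))]
  .n) .n)))) (.c k191 (.q k149 [(.s k40 k20 5 (.s k42 k21 6 (.s k41 k43 0 (.s k22 k3 6 (.d k62 k61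
  k2 0 5))))), (.s k61 k62 0 (.s k105 k193 13 (.s k150 k195 14 (.s k148 k151 0 (.d k192 k104 k106 13
  14))))), (.s k20 k40 5 (.s k21 k42 6 (.s k85 k213 7 (.s k150 k215 8 (.s k148 k151 0 (.d k192 k106
  k104 14 13))))))] .n) .n)))))))))))))))

def t129 : T TT 256 :=
  (.q k15 [(.s k10 k5 2 (.s k42 k21 6 (.s k26 k58 3 (.s k37 k48 6 (.d k47 k32 k31 2 3)))))] (.c k5
  (.q k3 [(.s k7 k11 1 (.s k23 k43 5 (.s k39 k55 3 (.s k27 k51 5 (.d k31 k19 k47 1 3))))), (.s k1 k2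
  0 (.s k21 k42 6 (.s k41 k61 5 (.s k22 k60 6 (.d k23 k20 k43 0 5))))), (.s k1 k2 0 (.s k21 k42 6
  (.s k41 k61 5 (.s k11 k7 1 (.s k26 k56 4 (.d k31 k16 k47 2 3))))))] .n) (.c k10 (.f k42 k21 6 (.q
  k3 [(.s k2 k1 0 (.s k22 k62 5 (.s k41 k60 6 (.d k43 k40 k23 0 5)))), (.s k7 k11 1 (.s k23 k43 5
  (.s k39 k55 3 (.s k27 k51 5 (.d k31 k19 k47 1 3))))), (.s k2 k1 0 (.s k22 k62 5 (.s k7 k11 1 (.s
  k37 k52 4 (.d k47 k32 k31 2 3)))))] (.c k90 (.q k250 [(.s k2 k1 0 (.s k22 k62 5 (.s k41 k60 6 (.d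
  k43 k40 k23 0 5)))), (.s k7 k11 1 (.s k23 k43 5 (.s k39 k55 3 (.s k27 k51 5 (.d k31 k19 k47 1
  3))))), (.s k2 k1 0 (.s k22 k62 5 (.s k7 k11 1 (.s k37 k52 4 (.d k47 k32 k31 2 3)))))] .n) (.c
  k250 (.q k90 [(.s k2 k1 0 (.s k22 k62 5 (.s k41 k60 6 (.d k43 k40 k23 0 5)))), (.s k7 k11 1 (.s
  k23 k43 5 (.s k39 k55 3 (.s k27 k51 5 (.d k31 k19 k47 1 3))))), (.s k2 k1 0 (.s k22 k62 5 (.s k7
  k11 1 (.s k37 k52 4 (.d k47 k32 k31 2 3)))))] .n) .n)))) (.c k21 (.q k3 [(.s k7 k11 1 (.s k23 k43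
  5 (.s k39 k55 3 (.s k27 k51 5 (.d k31 k19 k47 1 3))))), (.s k2 k1 0 (.s k10 k5 2 (.s k6 k14 1 (.s
  k9 k12 2 (.d k11 k8 k7 0 1)))))] (.c k7 (.q k42 [(.s k2 k1 0 (.s k22 k62 5 (.s k41 k60 6 (.d k43
  k40 k23 0 5)))), (.s k10 k5 2 (.s k26 k58 3 (.s k37 k48 6 (.d k47 k32 k31 2 3))))] .n) (.c k11 (.q
  k42 [(.s k10 k5 2 (.s k26 k58 3 (.s k37 k48 6 (.d k47 k32 k31 2 3)))), (.s k2 k1 0 (.s k22 k62 5
  (.s k41 k60 6 (.d k43 k40 k23 0 5))))] .n) .n))) (.c k26 (.q k3 [(.s k7 k11 1 (.s k23 k43 5 (.s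
  k39 k55 3 (.s k27 k51 5 (.d k31 k19 k47 1 3))))), (.s k1 k2 0 (.s k5 k10 2 (.s k9 k13 1 (.s k6 k12
  2 (.d k7 k4 k11 0 1))))), (.s k1 k2 0 (.s k21 k42 6 (.s k41 k61 5 (.s k22 k60 6 (.d k23 k20 k43 0
  5)))))] .n) (.c k31 (.q k3 [(.s k2 k1 0 (.s k10 k5 2 (.s k6 k14 1 (.s k9 k12 2 (.d k11 k8 k7 0
  1))))), (.s k1 k2 0 (.s k21 k42 6 (.s k41 k61 5 (.s k22 k60 6 (.d k23 k20 k43 0 5))))), (.s k5 k10
  2 (.s k21 k42 6 (.s k7 k11 1 (.s k23 k43 5 (.s k37 k53 3 (.d k22 k20 k52 0 4))))))] .n) (.c k32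
  (.l (.s k5 k10 2 (.s k21 k42 6 (.s k37 k53 3 (.s k26 k48 6 (.d k31 k47 k16 3 2)))))) (.c k37 (.q
  k3 [(.s k7 k11 1 (.s k23 k43 5 (.s k39 k55 3 (.s k27 k51 5 (.d k31 k19 k47 1 3))))), (.s k1 k2 0
  (.s k5 k10 2 (.s k9 k13 1 (.s k6 k12 2 (.d k7 k4 k11 0 1))))), (.s k1 k2 0 (.s k21 k42 6 (.s k41
  k61 5 (.s k22 k60 6 (.d k23 k20 k43 0 5)))))] .n) (.c k42 (.q k3 [(.s k7 k11 1 (.s k23 k43 5 (.s
  k39 k55 3 (.s k27 k51 5 (.d k31 k19 k47 1 3))))), (.s k1 k2 0 (.s k5 k10 2 (.s k9 k13 1 (.s k6 k12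
  2 (.d k7 k4 k11 0 1)))))] (.c k7 (.q k51 [(.s k19 k35 3 (.s k27 k39 5 (.d k23 k43 k31 5 1))), (.s
  k1 k2 0 (.s k5 k10 2 (.s k17 k34 4 (.s k13 k9 1 (.s k49 k33 3 (.s k25 k37 5 (.d k12 k14 k38 0
  6))))))), (.s k1 k2 0 (.s k17 k34 4 (.s k33 k49 3 (.s k18 k48 4 (.s k23 k43 5 (.s k19 k16 0 (.d
  k27 k31 k39 1 5)))))))] (.c k106 (.q k234 [(.s k19 k35 3 (.s k27 k39 5 (.d k23 k43 k31 5 1))), (.s
  k1 k2 0 (.s k5 k10 2 (.s k17 k34 4 (.s k13 k9 1 (.s k49 k33 3 (.s k25 k37 5 (.d k12 k14 k38 0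
  6))))))), (.s k1 k2 0 (.s k17 k34 4 (.s k33 k49 3 (.s k18 k48 4 (.s k23 k43 5 (.s k19 k16 0 (.d
  k27 k31 k39 1 5)))))))] .n) (.c k234 (.q k106 [(.s k19 k35 3 (.s k27 k39 5 (.d k23 k43 k31 5 1))),
  (.s k23 k43 5 (.s k149 k192 14 (.s k86 k212 8 (.s k252 k169 14 (.d k126 k66 k189 5 8))))), (.s k1
  k2 0 (.s k17 k34 4 (.s k33 k49 3 (.s k18 k48 4 (.d k19 k16 k35 0 3)))))] .n) .n))) (.c k11 (.q k51
  [(.s k19 k35 3 (.s k27 k39 5 (.d k23 k43 k31 5 1))), (.s k1 k2 0 (.s k17 k34 4 (.s k33 k49 3 (.s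
  k18 k48 4 (.d k19 k16 k35 0 3))))), (.s k1 k2 0 (.s k5 k10 2 (.s k9 k13 1 (.s k6 k12 2 (.s k23 k43
  5 (.s k7 k4 0 (.d k39 k27 k55 5 3)))))))] (.c k106 (.q k234 [(.s k19 k35 3 (.s k27 k39 5 (.d k23
  k43 k31 5 1))), (.s k1 k2 0 (.s k17 k34 4 (.s k33 k49 3 (.s k18 k48 4 (.d k19 k16 k35 0 3))))),
  (.s k1 k2 0 (.s k5 k10 2 (.s k9 k13 1 (.s k6 k12 2 (.s k23 k43 5 (.s k7 k4 0 (.d k39 k27 k55 5
  3)))))))] .n) (.c k234 (.q k106 [(.s k19 k35 3 (.s k27 k39 5 (.d k23 k43 k31 5 1))), (.s k1 k2 0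
  (.s k17 k34 4 (.s k33 k49 3 (.s k18 k48 4 (.d k19 k16 k35 0 3))))), (.s k23 k43 5 (.s k149 k192 14
  (.s k86 k212 8 (.s k252 k169 14 (.d k126 k66 k189 5 8)))))] .n) .n))) (.c k106 (.q k234 [(.s k2 k1
  0 (.s k10 k5 2 (.s k6 k14 1 (.s k9 k12 2 (.d k11 k8 k7 0 1))))), (.s k7 k11 1 (.s k23 k43 5 (.s
  k39 k55 3 (.s k27 k51 5 (.d k31 k19 k47 1 3)))))] (.c k7 (.q k51 [(.s k19 k35 3 (.s k27 k39 5 (.d
  k23 k43 k31 5 1))), (.s k1 k2 0 (.s k5 k10 2 (.s k17 k34 4 (.s k13 k9 1 (.s k49 k33 3 (.s k25 k37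
  5 (.d k12 k14 k38 0 6))))))), (.s k1 k2 0 (.s k17 k34 4 (.s k33 k49 3 (.s k18 k48 4 (.s k23 k43 5
  (.s k19 k16 0 (.d k27 k31 k39 1 5)))))))] .n) (.c k11 (.q k51 [(.s k19 k35 3 (.s k27 k39 5 (.d k23
  k43 k31 5 1))), (.s k1 k2 0 (.s k17 k34 4 (.s k33 k49 3 (.s k18 k48 4 (.d k19 k16 k35 0 3))))),
  (.s k1 k2 0 (.s k5 k10 2 (.s k9 k13 1 (.s k6 k12 2 (.s k23 k43 5 (.s k7 k4 0 (.d k39 k27 k55 5
  3)))))))] .n) .n))) (.c k234 (.q k106 [(.s k7 k11 1 (.s k23 k43 5 (.s k39 k55 3 (.s k27 k51 5 (.d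
  k31 k19 k47 1 3))))), (.s k1 k2 0 (.s k5 k10 2 (.s k9 k13 1 (.s k6 k12 2 (.d k7 k4 k11 0 1))))),
  (.s k23 k43 5 (.s k149 k192 14 (.s k86 k212 8 (.s k252 k169 14 (.d k126 k66 k189 5 8)))))] .n)
  .n))))) (.c k47 (.q k3 [(.s k2 k1 0 (.s k10 k5 2 (.s k6 k14 1 (.s k9 k12 2 (.d k11 k8 k7 0 1))))),
  (.s k1 k2 0 (.s k21 k42 6 (.s k41 k61 5 (.s k22 k60 6 (.d k23 k20 k43 0 5))))), (.s k5 k10 2 (.s
  k21 k42 6 (.s k7 k11 1 (.s k23 k43 5 (.s k37 k53 3 (.d k22 k20 k52 0 4))))))] .n) (.c k48 (.q k3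
  [(.s k7 k11 1 (.s k23 k43 5 (.s k39 k55 3 (.s k27 k51 5 (.d k31 k19 k47 1 3))))), (.s k1 k2 0 (.s
  k5 k10 2 (.s k9 k13 1 (.s k6 k12 2 (.d k7 k4 k11 0 1))))), (.s k1 k2 0 (.s k21 k42 6 (.s k41 k61 5
  (.s k22 k60 6 (.d k23 k20 k43 0 5)))))] .n) (.c k53 (.l (.s k10 k5 2 (.s k47 k31 3 (.s k42 k21 6
  (.s k37 k32 2 (.d k26 k58 k48 3 6)))))) (.c k58 (.l (.s k5 k10 2 (.s k31 k47 3 (.s k21 k42 6 (.s
  k26 k16 2 (.d k37 k53 k48 3 6)))))) .n)))))))))))))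

def t130 : T TT 256 :=
  (.q k48 [(.s k32 k16 3 (.s k42 k21 6 (.s k37 k47 2 (.s k26 k15 6 (.d k58 k53 k10 2 3)))))] (.c k10
  (.l (.s k16 k32 3 (.s k21 k42 6 (.s k26 k31 2 (.s k37 k15 6 (.d k53 k58 k5 2 3)))))) (.c k15 (.f
  k53 k58 2 (.q k51 [(.s k49 k50 0 (.s k57 k61 1 (.s k55 k59 1 (.d k54 k52 k60 0 2)))), (.s k17 k34
  4 (.s k21 k42 6 (.s k25 k29 1 (.s k38 k12 6 (.d k55 k59 k4 1 4))))), (.s k16 k32 3 (.s k17 k34 4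
  (.s k18 k19 0 (.s k33 k3 4 (.d k49 k50 k1 0 3)))))] (.c k150 (.q k190 [(.s k49 k50 0 (.s k57 k61 1
  (.s k55 k59 1 (.d k54 k52 k60 0 2)))), (.s k17 k34 4 (.s k21 k42 6 (.s k25 k29 1 (.s k38 k12 6 (.d
  k55 k59 k4 1 4))))), (.s k16 k32 3 (.s k17 k34 4 (.s k18 k19 0 (.s k33 k3 4 (.d k49 k50 k1 0
  3)))))] .n) (.c k190 (.q k150 [(.s k49 k50 0 (.s k57 k61 1 (.s k55 k59 1 (.d k54 k52 k60 0 2)))),
  (.s k17 k34 4 (.s k21 k42 6 (.s k25 k29 1 (.s k38 k12 6 (.d k55 k59 k4 1 4))))), (.s k16 k32 3 (.s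
  k17 k34 4 (.s k18 k19 0 (.s k33 k3 4 (.d k49 k50 k1 0 3)))))] .n) .n)))) (.c k16 (.f k53 k58 2 (.q
  k51 [(.s k49 k50 0 (.s k57 k61 1 (.s k54 k60 2 (.d k55 k52 k59 0 1)))), (.s k17 k34 4 (.s k21 k42
  6 (.s k25 k29 1 (.s k38 k12 6 (.d k55 k59 k4 1 4))))), (.s k17 k34 4 (.s k21 k42 6 (.s k37 k5 3
  (.s k25 k29 1 (.d k49 k50 k13 0 5)))))] (.c k150 (.q k190 [(.s k49 k50 0 (.s k57 k61 1 (.s k55 k59
  1 (.d k54 k52 k60 0 2)))), (.s k17 k34 4 (.s k21 k42 6 (.s k25 k29 1 (.s k38 k12 6 (.d k55 k59 k4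
  1 4))))), (.s k17 k34 4 (.s k21 k42 6 (.s k37 k5 3 (.s k25 k29 1 (.d k49 k50 k13 0 5)))))] .n) (.c
  k190 (.q k150 [(.s k49 k50 0 (.s k57 k61 1 (.s k55 k59 1 (.d k54 k52 k60 0 2)))), (.s k17 k34 4
  (.s k21 k42 6 (.s k25 k29 1 (.s k38 k12 6 (.d k55 k59 k4 1 4))))), (.s k17 k34 4 (.s k21 k42 6 (.s
  k37 k5 3 (.s k25 k29 1 (.d k49 k50 k13 0 5)))))] .n) .n)))) (.c k21 (.q k192 [(.s k16 k32 3 (.s
  k128 k64 7 (.s k144 k96 11 (.s k80 k208 7 (.d k160 k176 k240 3 11))))), (.s k53 k58 2 (.s k144 k96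
  11 (.s k149 k106 14 (.s k101 k197 11 (.d k154 k159 k207 2 14))))), (.s k16 k32 3 (.s k58 k53 2 (.s
  k106 k149 14 (.s k154 k202 11 (.s k85 k223 10 (.d k64 k128 k127 7 6))))))] (.c k101 (.l (.s k32
  k16 3 (.s k64 k128 7 (.s k96 k144 11 (.s k160 k224 7 (.d k80 k112 k240 3 11)))))) (.c k150 (.q
  k190 [(.s k16 k32 3 (.s k128 k64 7 (.s k144 k96 11 (.s k80 k208 7 (.d k160 k176 k240 3 11))))),
  (.s k53 k58 2 (.s k144 k96 11 (.s k149 k106 14 (.s k101 k197 11 (.d k154 k159 k207 2 14))))), (.s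
  k16 k32 3 (.s k58 k53 2 (.s k106 k149 14 (.s k154 k202 11 (.s k85 k223 10 (.d k64 k128 k127 7
  6))))))] (.c k101 (.l (.s k32 k16 3 (.s k64 k128 7 (.s k96 k144 11 (.s k160 k224 7 (.d k80 k112
  k240 3 11)))))) .n)) (.c k190 (.q k150 [(.s k16 k32 3 (.s k128 k64 7 (.s k144 k96 11 (.s k80 k208
  7 (.d k160 k176 k240 3 11))))), (.s k106 k149 14 (.s k62 k194 13 (.s k60 k61 0 (.s k104 k148 13
  (.d k105 k107 k195 0 14)))))] (.c k128 (.l (.s k53 k58 2 (.s k144 k96 11 (.s k149 k106 14 (.s k101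
  k197 11 (.d k154 k159 k207 2 14)))))) .n)) .n)))) (.c k26 (.q k51 [(.s k32 k16 3 (.s k34 k17 4 (.s
  k33 k35 0 (.s k18 k3 4 (.d k50 k49 k2 0 3))))), (.s k49 k50 0 (.s k53 k58 2 (.s k57 k61 1 (.s k54
  k60 2 (.d k55 k52 k59 0 1))))), (.s k17 k34 4 (.s k21 k42 6 (.s k25 k29 1 (.s k38 k12 6 (.d k55
  k59 k4 1 4)))))] (.c k150 (.q k190 [(.s k32 k16 3 (.s k34 k17 4 (.s k33 k35 0 (.s k18 k3 4 (.d k50
  k49 k2 0 3))))), (.s k49 k50 0 (.s k53 k58 2 (.s k57 k61 1 (.s k54 k60 2 (.d k55 k52 k59 0 1))))),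
  (.s k17 k34 4 (.s k21 k42 6 (.s k25 k29 1 (.s k38 k12 6 (.d k55 k59 k4 1 4)))))] .n) (.c k190 (.q
  k150 [(.s k32 k16 3 (.s k34 k17 4 (.s k33 k35 0 (.s k18 k3 4 (.d k50 k49 k2 0 3))))), (.s k49 k50
  0 (.s k53 k58 2 (.s k57 k61 1 (.s k54 k60 2 (.d k55 k52 k59 0 1))))), (.s k17 k34 4 (.s k21 k42 6
  (.s k25 k29 1 (.s k38 k12 6 (.d k55 k59 k4 1 4)))))] .n) .n))) (.c k31 (.l (.s k32 k16 3 (.s k58
  k53 2 (.s k42 k21 6 (.s k26 k10 3 (.d k37 k47 k15 2 6)))))) (.c k32 (.q k101 [(.s k53 k58 2 (.s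
  k154 k207 14 (.s k149 k197 11 (.s k144 k159 2 (.d k192 k96 k106 11 14))))), (.s k21 k42 6 (.s k53
  k58 2 (.s k149 k197 11 (.s k85 k213 7 (.s k117 k69 3 (.s k245 k181 7 (.d k5 k37 k165 3 11))))))),
  (.s k21 k42 6 (.s k207 k154 14 (.s k111 k159 11 (.s k106 k96 2 (.s k149 k192 14 (.s k85 k213 7 (.d
  k69 k138 k117 10 3)))))))] (.c k106 (.f k154 k207 14 (.l (.s k42 k21 6 (.s k58 k53 2 (.s k26 k10 3
  (.s k90 k218 7 (.s k112 k79 6 (.s k240 k176 7 (.d k15 k37 k165 6 14))))))))) (.c k149 (.f k154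
  k207 14 (.l (.s k21 k42 6 (.s k53 k58 2 (.s k37 k5 3 (.s k165 k229 7 (.s k176 k143 6 (.s k240 k112
  7 (.d k15 k26 k90 6 14))))))))) (.c k150 (.q k190 [(.s k53 k58 2 (.s k154 k207 14 (.s k149 k197 11
  (.s k144 k159 2 (.d k192 k96 k106 11 14))))), (.s k21 k42 6 (.s k53 k58 2 (.s k149 k197 11 (.s k85
  k213 7 (.s k117 k69 3 (.s k245 k181 7 (.d k5 k37 k165 3 11))))))), (.s k21 k42 6 (.s k207 k154 14
  (.s k111 k159 11 (.s k106 k96 2 (.s k149 k192 14 (.s k85 k213 7 (.d k69 k138 k117 10 3)))))))] (.c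
  k106 (.f k154 k207 14 (.l (.s k42 k21 6 (.s k58 k53 2 (.s k26 k10 3 (.s k90 k218 7 (.s k112 k79 6
  (.s k240 k176 7 (.d k15 k37 k165 6 14))))))))) (.c k149 (.f k154 k207 14 (.l (.s k21 k42 6 (.s k53
  k58 2 (.s k37 k5 3 (.s k165 k229 7 (.s k176 k143 6 (.s k240 k112 7 (.d k15 k26 k90 6 14)))))))))
  .n))) (.c k190 (.q k150 [(.s k53 k58 2 (.s k154 k207 14 (.s k149 k197 11 (.s k144 k159 2 (.d k192
  k96 k106 11 14))))), (.s k154 k207 14 (.s k52 k199 12 (.s k60 k56 1 (.s k195 k105 14 (.d k146 k158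
  k97 1 12))))), (.s k53 k58 2 (.s k52 k199 12 (.s k60 k56 1 (.s k54 k55 0 (.s k57 k51 2 (.d k61 k62
  k49 0 1))))))] .n) .n))))) (.c k37 (.f k53 k58 2 (.q k51 [(.s k49 k50 0 (.s k57 k61 1 (.s k54 k60
  2 (.d k55 k52 k59 0 1)))), (.s k17 k34 4 (.s k21 k42 6 (.s k25 k29 1 (.s k38 k12 6 (.d k55 k59 k4
  1 4))))), (.s k16 k32 3 (.s k17 k34 4 (.s k18 k19 0 (.s k33 k3 4 (.d k49 k50 k1 0 3)))))] (.c k150
  (.q k190 [(.s k49 k50 0 (.s k57 k61 1 (.s k55 k59 1 (.d k54 k52 k60 0 2)))), (.s k17 k34 4 (.s k21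
  k42 6 (.s k25 k29 1 (.s k38 k12 6 (.d k55 k59 k4 1 4))))), (.s k16 k32 3 (.s k17 k34 4 (.s k18 k19
  0 (.s k33 k3 4 (.d k49 k50 k1 0 3)))))] .n) (.c k190 (.q k150 [(.s k49 k50 0 (.s k57 k61 1 (.s k55
  k59 1 (.d k54 k52 k60 0 2)))), (.s k17 k34 4 (.s k21 k42 6 (.s k25 k29 1 (.s k38 k12 6 (.d k55 k59
  k4 1 4))))), (.s k16 k32 3 (.s k17 k34 4 (.s k18 k19 0 (.s k33 k3 4 (.d k49 k50 k1 0 3)))))] .n)
  .n)))) (.c k42 (.q k106 [(.s k58 k53 2 (.s k154 k202 11 (.s k101 k207 14 (.s k192 k149 14 (.d k96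
  k111 k144 2 11))))), (.s k16 k32 3 (.s k192 k149 14 (.s k128 k64 7 (.s k144 k96 11 (.s k80 k208 7
  (.d k160 k176 k240 3 11)))))), (.s k53 k58 2 (.s k149 k192 14 (.s k101 k197 11 (.s k207 k154 14
  (.d k111 k96 k159 2 11)))))] (.c k96 (.l (.s k58 k53 2 (.s k154 k202 11 (.s k207 k101 14 (.s k149
  k192 14 (.d k159 k144 k111 2 11)))))) (.c k101 (.l (.s k32 k16 3 (.s k192 k149 14 (.s k96 k144 11
  (.s k160 k224 7 (.s k80 k240 11 (.d k64 k128 k112 7 3))))))) (.c k149 (.q k150 [(.s k58 k53 2 (.s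
  k154 k202 11 (.s k101 k207 14 (.s k52 k199 12 (.s k60 k56 1 (.d k62 k61 k194 0 13)))))), (.s k58
  k53 2 (.s k154 k202 11 (.s k62 k194 13 (.s k50 k54 1 (.s k206 k102 13 (.d k158 k146 k110 1
  11)))))), (.s k62 k194 13 (.s k60 k61 0 (.s k52 k56 1 (.s k101 k199 12 (.s k207 k154 14 (.d k111
  k159 k96 11 2)))))), (.s k58 k53 2 (.s k154 k202 11 (.s k146 k158 1 (.s k195 k97 12 (.s k105 k60
  14 (.d k107 k104 k151 0 13))))))] (.c k101 (.l (.s k62 k194 13 (.s k60 k61 0 (.s k56 k52 1 (.s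
  k105 k195 14 (.s k154 k203 12 (.d k58 k53 k202 2 11))))))) (.c k128 (.q k191 [(.s k58 k53 2 (.s
  k154 k202 11 (.s k127 k255 7 (.s k85 k64 6 (.d k16 k32 k223 3 10))))), (.s k62 k194 13 (.s k60 k61
  0 (.s k20 k40 5 (.s k85 k215 8 (.d k127 k64 k255 6 7))))), (.s k58 k53 2 (.s k154 k202 11 (.s k101
  k207 14 (.s k52 k199 12 (.s k60 k56 1 (.d k62 k61 k194 0 13))))))] (.c k129 (.q k131 [(.s k62 k194
  13 (.s k60 k61 0 (.s k151 k171 5 (.d k195 k105 k107 14 13)))), (.s k16 k32 3 (.s k58 k53 2 (.s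
  k154 k202 11 (.s k85 k223 10 (.d k127 k64 k255 6 7)))))] (.c k169 (.q k189 [(.s k62 k194 13 (.s
  k190 k188 0 (.d k126 k254 k252 7 8))), (.s k16 k32 3 (.s k58 k53 2 (.s k154 k202 11 (.s k85 k223
  10 (.d k127 k64 k255 6 7)))))] (.c k168 (.l (.s k171 k151 5 (.s k62 k194 13 (.s k126 k252 8 (.d
  k190 k188 k254 0 7))))) (.c k171 (.q k168 [(.d k252 k126 k84 8 13), (.s k62 k194 13 (.s k60 k61 0
  (.s k255 k127 7 (.d k190 k188 k125 0 8))))] .n) .n))) (.c k189 (.l (.s k169 k188 6 (.s k43 k232 8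
  (.s k3 k23 5 (.s k195 k67 7 (.d k151 k171 k107 5 13)))))) .n))) (.c k131 (.q k129 [(.s k58 k53 2
  (.s k154 k202 11 (.s k127 k255 7 (.s k85 k64 6 (.d k16 k32 k223 3 10))))), (.s k62 k194 13 (.s k60
  k61 0 (.s k20 k40 5 (.s k85 k215 8 (.d k127 k64 k255 6 7))))), (.s k58 k53 2 (.s k154 k202 11 (.s
  k101 k207 14 (.s k52 k199 12 (.s k60 k56 1 (.d k62 k61 k194 0 13))))))] .n) .n))) (.c k154 (.l (.s
  k58 k53 2 (.s k62 k194 13 (.s k54 k50 1 (.s k60 k61 0 (.s k56 k52 1 (.d k57 k59 k51 0 2))))))) (.c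
  k191 (.q k128 [(.s k64 k192 7 (.s k58 k53 2 (.s k154 k202 11 (.s k85 k127 6 (.d k16 k32 k223 3
  10))))), (.s k64 k192 7 (.s k62 k194 13 (.s k60 k61 0 (.s k20 k40 5 (.d k85 k127 k215 6 8))))),
  (.s k58 k53 2 (.s k154 k202 11 (.s k62 k194 13 (.s k50 k54 1 (.s k206 k102 13 (.d k158 k146 k110 1
  11))))))] .n) .n))))) (.c k150 (.q k190 [(.s k53 k58 2 (.s k149 k192 14 (.s k101 k197 11 (.s k111
  k96 2 (.d k207 k159 k154 11 14))))), (.s k16 k32 3 (.s k192 k149 14 (.s k128 k64 7 (.s k144 k96 11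
  (.s k80 k208 7 (.d k160 k176 k240 3 11))))))] (.c k96 (.l (.s k58 k53 2 (.s k154 k202 11 (.s k207
  k101 14 (.s k149 k192 14 (.d k159 k144 k111 2 11)))))) (.c k101 (.l (.s k32 k16 3 (.s k192 k149 14
  (.s k96 k144 11 (.s k160 k224 7 (.s k80 k240 11 (.d k64 k128 k112 7 3))))))) (.c k149 (.q k191
  [(.s k255 k127 7 (.s k186 k117 10 (.s k181 k176 2 (.s k122 k240 10 (.d k58 k53 k250 2 7))))), (.s
  k16 k32 3 (.s k189 k188 0 (.s k252 k126 8 (.s k84 k168 13 (.s k152 k220 9 (.s k100 k204 13 (.d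
  k116 k68 k184 3 9)))))))] (.c k148 (.q k151 [(.s k58 k53 2 (.s k154 k202 11 (.s k127 k255 7 (.s
  k85 k64 6 (.d k16 k32 k223 3 10))))), (.s k195 k107 13 (.s k146 k97 12 (.s k131 k171 5 (.s k176
  k161 4 (.s k240 k112 7 (.d k181 k186 k122 2 10))))))] .n) (.c k151 (.q k148 [(.s k127 k255 7 (.s
  k188 k189 0 (.s k128 k168 5 (.d k64 k85 k192 6 7)))), (.s k58 k53 2 (.s k255 k127 7 (.s k186 k117
  10 (.s k122 k250 7 (.d k181 k176 k240 2 10))))), (.s k188 k189 0 (.s k168 k128 5 (.s k252 k84 13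
  (.s k60 k124 7 (.s k40 k20 5 (.d k104 k232 k192 7 13))))))] .n) .n))) (.c k192 (.q k51 [(.s k32
  k16 3 (.s k34 k17 4 (.s k33 k35 0 (.s k18 k3 4 (.d k50 k49 k2 0 3))))), (.s k58 k53 2 (.s k59 k55
  1 (.s k154 k202 11 (.s k207 k101 14 (.s k155 k103 13 (.d k153 k152 k200 0 12))))))] (.c k32 (.l
  (.s k49 k50 0 (.s k53 k58 2 (.s k57 k61 1 (.s k54 k60 2 (.d k55 k52 k59 0 1)))))) .n)) .n))))) (.c
  k190 (.q k150 [(.s k58 k53 2 (.s k154 k202 11 (.s k101 k207 14 (.s k192 k149 14 (.d k96 k111 k144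
  2 11))))), (.s k62 k194 13 (.s k60 k61 0 (.s k105 k195 14 (.s k192 k149 14 (.d k104 k107 k148 0
  13))))), (.s k58 k53 2 (.s k154 k202 11 (.s k101 k207 14 (.s k52 k199 12 (.s k60 k56 1 (.d k62 k61
  k194 0 13))))))] (.c k192 (.l (.s k58 k53 2 (.s k154 k202 11 (.s k207 k101 14 (.s k62 k194 13 (.s
  k60 k61 0 (.d k158 k146 k109 1 12))))))) .n)) (.c k192 (.q k150 [(.s k58 k53 2 (.s k154 k202 11
  (.s k146 k158 1 (.s k195 k97 12 (.s k105 k60 14 (.d k107 k104 k151 0 13)))))), (.s k62 k194 13 (.s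
  k60 k61 0 (.s k52 k56 1 (.s k101 k199 12 (.s k207 k154 14 (.d k111 k96 k159 2 11)))))), (.s k58
  k53 2 (.s k62 k194 13 (.s k54 k50 1 (.s k60 k61 0 (.s k56 k52 1 (.d k57 k59 k51 0 2))))))] (.c k60
  (.l (.s k58 k53 2 (.s k154 k202 11 (.s k62 k194 13 (.s k50 k54 1 (.s k206 k102 13 (.d k158 k146
  k110 1 11))))))) (.c k195 (.l (.s k58 k53 2 (.s k154 k202 11 (.s k207 k101 14 (.s k158 k146 1 (.s
  k60 k109 12 (.d k62 k61 k194 0 13))))))) .n))) .n))))))) (.c k47 (.l (.s k16 k32 3 (.s k53 k58 2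
  (.s k21 k42 6 (.s k37 k5 3 (.d k26 k31 k15 2 6)))))) (.c k53 (.q k51 [(.s k32 k16 3 (.s k34 k17 4
  (.s k33 k35 0 (.s k18 k3 4 (.d k50 k49 k2 0 3))))), (.s k17 k34 4 (.s k21 k42 6 (.s k25 k29 1 (.s
  k38 k12 6 (.d k55 k59 k4 1 4))))), (.s k16 k32 3 (.s k21 k42 6 (.s k26 k31 2 (.s k50 k49 0 (.s k38
  k14 5 (.d k55 k59 k4 1 4))))))] (.c k150 (.q k190 [(.s k32 k16 3 (.s k34 k17 4 (.s k33 k35 0 (.s
  k18 k3 4 (.d k50 k49 k2 0 3))))), (.s k17 k34 4 (.s k21 k42 6 (.s k25 k29 1 (.s k38 k12 6 (.d k55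
  k59 k4 1 4))))), (.s k16 k32 3 (.s k21 k42 6 (.s k26 k31 2 (.s k50 k49 0 (.s k38 k14 5 (.d k55 k59
  k4 1 4))))))] .n) (.c k190 (.q k150 [(.s k32 k16 3 (.s k34 k17 4 (.s k33 k35 0 (.s k18 k3 4 (.d
  k50 k49 k2 0 3))))), (.s k17 k34 4 (.s k21 k42 6 (.s k25 k29 1 (.s k38 k12 6 (.d k55 k59 k4 1
  4))))), (.s k16 k32 3 (.s k21 k42 6 (.s k26 k31 2 (.s k50 k49 0 (.s k38 k14 5 (.d k55 k59 k4 1
  4))))))] .n) .n))) (.c k58 (.q k51 [(.s k32 k16 3 (.s k34 k17 4 (.s k33 k35 0 (.s k18 k3 4 (.d k50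
  k49 k2 0 3))))), (.s k17 k34 4 (.s k21 k42 6 (.s k25 k29 1 (.s k38 k12 6 (.d k55 k59 k4 1 4))))),
  (.s k16 k32 3 (.s k21 k42 6 (.s k26 k31 2 (.s k50 k49 0 (.s k38 k14 5 (.d k55 k59 k4 1 4))))))]
  (.c k150 (.q k190 [(.s k32 k16 3 (.s k34 k17 4 (.s k33 k35 0 (.s k18 k3 4 (.d k50 k49 k2 0 3))))),
  (.s k17 k34 4 (.s k21 k42 6 (.s k25 k29 1 (.s k38 k12 6 (.d k55 k59 k4 1 4))))), (.s k16 k32 3 (.s
  k21 k42 6 (.s k26 k31 2 (.s k50 k49 0 (.s k38 k14 5 (.d k55 k59 k4 1 4))))))] .n) (.c k190 (.q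
  k150 [(.s k32 k16 3 (.s k34 k17 4 (.s k33 k35 0 (.s k18 k3 4 (.d k50 k49 k2 0 3))))), (.s k17 k34
  4 (.s k21 k42 6 (.s k25 k29 1 (.s k38 k12 6 (.d k55 k59 k4 1 4))))), (.s k16 k32 3 (.s k21 k42 6
  (.s k26 k31 2 (.s k50 k49 0 (.s k38 k14 5 (.d k55 k59 k4 1 4))))))] .n) .n))) (.c k150 (.q k190
  [(.s k32 k16 3 (.s k42 k21 6 (.s k37 k47 2 (.s k26 k15 6 (.d k58 k53 k10 2 3)))))] (.c k10 (.l (.s
  k16 k32 3 (.s k21 k42 6 (.s k26 k31 2 (.s k37 k15 6 (.d k53 k58 k5 2 3)))))) (.c k15 (.q k51 [(.s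
  k32 k16 3 (.s k34 k17 4 (.s k33 k35 0 (.s k18 k3 4 (.d k50 k49 k2 0 3))))), (.s k17 k34 4 (.s k21
  k42 6 (.s k25 k29 1 (.s k38 k12 6 (.d k55 k59 k4 1 4))))), (.s k49 k50 0 (.s k53 k58 2 (.s k57 k61
  1 (.s k54 k60 2 (.d k55 k52 k59 0 1)))))] .n) (.c k16 (.q k51 [(.s k49 k50 0 (.s k53 k58 2 (.s k57
  k61 1 (.s k54 k60 2 (.d k55 k52 k59 0 1))))), (.s k17 k34 4 (.s k21 k42 6 (.s k25 k29 1 (.s k38
  k12 6 (.d k55 k59 k4 1 4))))), (.s k17 k34 4 (.s k21 k42 6 (.s k25 k29 1 (.s k49 k50 0 (.s k37 k13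
  5 (.d k53 k58 k5 2 3))))))] .n) (.c k21 (.q k191 [(.s k255 k127 7 (.s k186 k117 10 (.s k181 k176 2
  (.s k122 k240 10 (.d k58 k53 k250 2 7))))), (.s k16 k32 3 (.s k189 k188 0 (.s k252 k126 8 (.s k84
  k168 13 (.s k152 k220 9 (.s k100 k204 13 (.d k116 k68 k184 3 9)))))))] .n) (.c k26 (.q k191 [(.s
  k58 k53 2 (.s k255 k127 7 (.s k186 k117 10 (.s k181 k176 2 (.d k122 k250 k240 7 10))))), (.s k16
  k32 3 (.s k189 k188 0 (.s k252 k126 8 (.s k84 k168 13 (.s k152 k220 9 (.s k100 k204 13 (.d k116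
  k68 k184 3 9)))))))] .n) (.c k31 (.l (.s k32 k16 3 (.s k58 k53 2 (.s k42 k21 6 (.s k26 k10 3 (.d
  k37 k47 k15 2 6)))))) (.c k32 (.f k53 k58 2 (.f k42 k21 6 (.q k51 [(.s k34 k17 4 (.s k38 k46 1 (.s
  k25 k12 6 (.d k59 k55 k8 1 4)))), (.s k49 k50 0 (.s k57 k61 1 (.s k54 k60 2 (.d k55 k52 k59 0
  1)))), (.s k34 k17 4 (.s k38 k46 1 (.s k25 k12 6 (.s k49 k50 0 (.s k37 k13 5 (.s k15 k26 6 (.d k39
  k36 k27 0 5)))))))] (.c k101 (.q k239 [(.s k34 k17 4 (.s k38 k46 1 (.s k25 k12 6 (.d k59 k55 k8 1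
  4)))), (.s k49 k50 0 (.s k57 k61 1 (.s k54 k60 2 (.d k55 k52 k59 0 1)))), (.s k34 k17 4 (.s k38
  k46 1 (.s k25 k12 6 (.s k49 k50 0 (.s k37 k13 5 (.s k15 k26 6 (.d k39 k36 k27 0 5)))))))] (.c k52
  (.q k199 [(.s k34 k17 4 (.s k38 k46 1 (.s k25 k12 6 (.d k59 k55 k8 1 4)))), (.s k49 k50 0 (.s k57
  k61 1 (.s k55 k59 1 (.s k103 k151 11 (.s k207 k155 13 (.s k255 k223 3 (.d k60 k54 k125 2 8))))))),
  (.s k34 k17 4 (.s k38 k46 1 (.s k25 k12 6 (.s k49 k50 0 (.s k37 k13 5 (.s k15 k26 6 (.d k39 k36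
  k27 0 5)))))))] .n) (.c k199 (.q k52 [(.d k55 k54 k59 0 1)] (.c k54 (.l (.s k34 k17 4 (.s k38 k46
  1 (.s k25 k12 6 (.d k59 k55 k8 1 4))))) (.c k55 (.l (.s k49 k50 0 (.s k60 k56 1 (.d k57 k54 k61 2
  1)))) (.c k59 (.l (.s k54 k55 0 (.d k60 k56 k57 1 2))) .n)))) .n))) (.c k239 (.q k101 [(.s k34 k17
  4 (.s k38 k46 1 (.s k25 k12 6 (.d k59 k55 k8 1 4)))), (.s k154 k207 14 (.s k149 k197 11 (.s k192
  k106 14 (.d k144 k159 k96 2 11))))] .n) .n))))) (.c k37 (.q k191 [(.s k255 k127 7 (.s k186 k117 10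
  (.s k181 k176 2 (.s k122 k240 10 (.d k58 k53 k250 2 7))))), (.s k16 k32 3 (.s k189 k188 0 (.s k252
  k126 8 (.s k84 k168 13 (.s k152 k220 9 (.s k100 k204 13 (.d k116 k68 k184 3 9)))))))] .n) (.c k42
  (.q k106 [(.s k53 k58 2 (.s k149 k192 14 (.s k101 k197 11 (.s k111 k96 2 (.d k207 k159 k154 11
  14))))), (.s k16 k32 3 (.s k192 k149 14 (.s k128 k64 7 (.s k144 k96 11 (.s k80 k208 7 (.d k160
  k176 k240 3 11))))))] (.c k96 (.l (.s k58 k53 2 (.s k154 k202 11 (.s k207 k101 14 (.s k149 k192 14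
  (.d k159 k144 k111 2 11)))))) (.c k101 (.l (.s k32 k16 3 (.s k192 k149 14 (.s k96 k144 11 (.s k160
  k224 7 (.s k80 k240 11 (.d k64 k128 k112 7 3))))))) (.c k149 (.q k191 [(.s k255 k127 7 (.s k186
  k117 10 (.s k181 k176 2 (.s k122 k240 10 (.d k58 k53 k250 2 7))))), (.s k16 k32 3 (.s k189 k188 0
  (.s k252 k126 8 (.s k84 k168 13 (.s k152 k220 9 (.s k100 k204 13 (.d k116 k68 k184 3 9)))))))] (.c
  k148 (.q k151 [(.s k58 k53 2 (.s k154 k202 11 (.s k127 k255 7 (.s k85 k64 6 (.d k16 k32 k223 3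
  10))))), (.s k195 k107 13 (.s k146 k97 12 (.s k131 k171 5 (.s k176 k161 4 (.s k240 k112 7 (.d k181
  k186 k122 2 10))))))] .n) (.c k151 (.q k148 [(.s k127 k255 7 (.s k188 k189 0 (.s k128 k168 5 (.d
  k64 k85 k192 6 7)))), (.s k58 k53 2 (.s k255 k127 7 (.s k186 k117 10 (.s k122 k250 7 (.d k181 k176
  k240 2 10))))), (.s k188 k189 0 (.s k168 k128 5 (.s k252 k84 13 (.s k60 k124 7 (.s k40 k20 5 (.d
  k104 k232 k192 7 13))))))] .n) .n))) (.c k192 (.q k51 [(.s k32 k16 3 (.s k34 k17 4 (.s k33 k35 0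
  (.s k18 k3 4 (.d k50 k49 k2 0 3))))), (.s k58 k53 2 (.s k59 k55 1 (.s k154 k202 11 (.s k207 k101
  14 (.s k155 k103 13 (.d k153 k152 k200 0 12))))))] (.c k32 (.l (.s k49 k50 0 (.s k53 k58 2 (.s k57
  k61 1 (.s k54 k60 2 (.d k55 k52 k59 0 1)))))) .n)) .n))))) (.c k47 (.l (.s k16 k32 3 (.s k53 k58 2
  (.s k21 k42 6 (.s k37 k5 3 (.d k26 k31 k15 2 6)))))) (.c k53 (.q k191 [(.s k255 k127 7 (.s k60
  k125 8 (.s k189 k188 0 (.s k126 k252 8 (.d k62 k61 k254 0 7))))), (.s k16 k32 3 (.s k189 k188 0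
  (.s k252 k126 8 (.s k84 k168 13 (.s k152 k220 9 (.s k100 k204 13 (.d k116 k68 k184 3 9))))))), (.s
  k255 k127 7 (.s k186 k117 10 (.s k181 k176 2 (.s k122 k240 10 (.s k182 k178 1 (.s k62 k242 9 (.d
  k60 k61 k125 0 8)))))))] .n) (.c k58 (.q k191 [(.s k255 k127 7 (.s k60 k125 8 (.s k62 k61 0 (.s
  k126 k254 7 (.d k189 k188 k252 0 8))))), (.s k255 k127 7 (.s k186 k117 10 (.s k176 k181 2 (.s k178
  k182 1 (.s k243 k113 8 (.s k183 k123 9 (.d k179 k177 k187 0 1))))))), (.s k16 k32 3 (.s k189 k188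
  0 (.s k252 k126 8 (.s k84 k168 13 (.s k152 k220 9 (.s k100 k204 13 (.d k116 k68 k184 3 9)))))))]
  .n) .n))))))))))))) (.c k190 (.q k150 [(.s k32 k16 3 (.s k42 k21 6 (.s k37 k47 2 (.s k26 k15 6 (.d
  k58 k53 k10 2 3)))))] (.c k10 (.l (.s k16 k32 3 (.s k21 k42 6 (.s k26 k31 2 (.s k37 k15 6 (.d k53
  k58 k5 2 3)))))) (.c k15 (.q k51 [(.s k32 k16 3 (.s k34 k17 4 (.s k33 k35 0 (.s k18 k3 4 (.d k50
  k49 k2 0 3))))), (.s k17 k34 4 (.s k21 k42 6 (.s k25 k29 1 (.s k38 k12 6 (.d k55 k59 k4 1 4))))),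
  (.s k49 k50 0 (.s k53 k58 2 (.s k57 k61 1 (.s k54 k60 2 (.d k55 k52 k59 0 1)))))] .n) (.c k16 (.q
  k51 [(.s k49 k50 0 (.s k53 k58 2 (.s k57 k61 1 (.s k54 k60 2 (.d k55 k52 k59 0 1))))), (.s k17 k34
  4 (.s k21 k42 6 (.s k25 k29 1 (.s k38 k12 6 (.d k55 k59 k4 1 4))))), (.s k17 k34 4 (.s k21 k42 6
  (.s k25 k29 1 (.s k49 k50 0 (.s k37 k13 5 (.d k53 k58 k5 2 3))))))] .n) (.c k21 (.q k106 [(.s k53
  k58 2 (.s k149 k192 14 (.s k101 k197 11 (.s k111 k96 2 (.d k207 k159 k154 11 14))))), (.s k62 k194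
  13 (.s k60 k61 0 (.s k105 k195 14 (.s k192 k149 14 (.d k104 k107 k148 0 13)))))] (.c k149 (.l (.s
  k58 k53 2 (.s k154 k202 11 (.s k101 k207 14 (.s k52 k199 12 (.s k60 k56 1 (.d k62 k61 k194 0
  13))))))) (.c k192 (.l (.s k58 k53 2 (.s k154 k202 11 (.s k207 k101 14 (.s k62 k194 13 (.s k60 k61
  0 (.d k158 k146 k109 1 12))))))) .n))) (.c k26 (.q k106 [(.s k58 k53 2 (.s k154 k202 11 (.s k101
  k207 14 (.s k192 k149 14 (.d k96 k111 k144 2 11))))), (.s k42 k21 6 (.s k62 k194 13 (.s k60 k61 0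
  (.s k40 k20 5 (.s k41 k43 0 (.d k22 k2 k3 5 6))))))] .n) (.c k31 (.l (.s k32 k16 3 (.s k58 k53 2
  (.s k42 k21 6 (.s k26 k10 3 (.d k37 k47 k15 2 6)))))) (.c k32 (.q k154 [(.s k53 k58 2 (.s k101
  k207 14 (.s k149 k197 11 (.s k144 k159 2 (.d k192 k96 k106 11 14))))), (.s k101 k207 14 (.s k52
  k199 12 (.s k60 k56 1 (.s k195 k105 14 (.d k146 k158 k97 1 12)))))] (.c k101 (.q k239 [(.s k58 k53
  2 (.s k106 k202 11 (.s k149 k192 14 (.s k146 k158 1 (.s k195 k97 12 (.d k151 k148 k107 0 13)))))),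
  (.s k58 k53 2 (.s k106 k202 11 (.s k62 k194 13 (.s k50 k54 1 (.s k206 k102 13 (.d k158 k146 k110 1
  11)))))), (.s k146 k158 1 (.s k195 k97 12 (.s k151 k107 13 (.s k149 k148 0 (.s k192 k106 14 (.d
  k144 k96 k159 11 2)))))), (.s k58 k53 2 (.s k106 k202 11 (.s k62 k194 13 (.s k60 k61 0 (.s k56 k52
  1 (.d k105 k203 k195 12 14))))))] (.c k106 (.f k42 k21 6 (.l (.s k58 k53 2 (.s k26 k10 3 (.s k90
  k218 7 (.s k30 k210 9 (.s k18 k22 1 (.s k222 k86 9 (.d k158 k146 k94 1 7))))))))) (.c k149 (.l (.s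
  k146 k158 1 (.s k195 k97 12 (.s k105 k60 14 (.s k107 k151 13 (.s k106 k104 0 (.d k58 k53 k202 2
  11))))))) .n))) (.c k207 (.l (.s k58 k53 2 (.s k106 k202 11 (.s k62 k194 13 (.s k50 k54 1 (.s k206
  k102 13 (.d k158 k146 k110 1 11))))))) (.c k239 (.l (.s k101 k207 14 (.s k53 k58 2 (.s k149 k197
  11 (.s k192 k106 14 (.d k144 k159 k96 2 11)))))) .n)))) (.c k37 (.q k106 [(.s k53 k58 2 (.s k149
  k192 14 (.s k101 k197 11 (.s k111 k96 2 (.d k207 k159 k154 11 14))))), (.s k42 k21 6 (.s k62 k194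
  13 (.s k60 k61 0 (.s k40 k20 5 (.s k41 k43 0 (.d k22 k2 k3 5 6))))))] (.c k53 (.l (.s k62 k194 13
  (.s k60 k61 0 (.s k105 k195 14 (.s k192 k149 14 (.d k104 k107 k148 0 13)))))) .n)) (.c k42 (.q
  k106 [(.s k58 k53 2 (.s k154 k202 11 (.s k101 k207 14 (.s k192 k149 14 (.d k96 k111 k144 2
  11))))), (.s k62 k194 13 (.s k60 k61 0 (.s k105 k195 14 (.s k192 k149 14 (.d k104 k107 k148 0
  13))))), (.s k58 k53 2 (.s k154 k202 11 (.s k101 k207 14 (.s k52 k199 12 (.s k60 k56 1 (.d k62 k61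
  k194 0 13))))))] (.c k192 (.l (.s k58 k53 2 (.s k154 k202 11 (.s k207 k101 14 (.s k62 k194 13 (.s
  k60 k61 0 (.d k158 k146 k109 1 12))))))) .n)) (.c k47 (.l (.s k16 k32 3 (.s k53 k58 2 (.s k21 k42
  6 (.s k37 k5 3 (.d k26 k31 k15 2 6)))))) (.c k53 (.q k106 [(.s k62 k194 13 (.s k149 k192 14 (.s
  k151 k148 0 (.s k195 k107 13 (.d k60 k61 k105 0 14))))), (.s k16 k32 3 (.s k192 k149 14 (.s k128
  k64 7 (.s k144 k96 11 (.s k80 k208 7 (.d k160 k176 k240 3 11)))))), (.s k42 k21 6 (.s k62 k194 13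
  (.s k60 k61 0 (.s k40 k20 5 (.s k41 k43 0 (.d k22 k2 k3 5 6))))))] .n) (.c k58 (.q k106 [(.s k62
  k194 13 (.s k60 k61 0 (.s k105 k195 14 (.s k104 k107 0 (.d k192 k148 k149 13 14))))), (.s k16 k32
  3 (.s k192 k149 14 (.s k128 k64 7 (.s k144 k96 11 (.s k80 k208 7 (.d k160 k176 k240 3 11)))))),
  (.s k42 k21 6 (.s k62 k194 13 (.s k60 k61 0 (.s k40 k20 5 (.s k41 k43 0 (.d k22 k2 k3 5 6))))))]
  .n) .n))))))))))))) .n)))))))))))))))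

def t131 : T TT 256 :=
  (.q k48 [(.s k32 k16 3 (.s k42 k21 6 (.s k37 k47 2 (.s k26 k15 6 (.d k58 k53 k10 2 3)))))] (.c k10
  (.l (.s k16 k32 3 (.s k21 k42 6 (.s k26 k31 2 (.s k37 k15 6 (.d k53 k58 k5 2 3)))))) (.c k15 (.q
  k51 [(.s k49 k50 0 (.s k53 k58 2 (.s k57 k61 1 (.s k54 k60 2 (.d k55 k52 k59 0 1))))), (.s k16 k32
  3 (.s k17 k34 4 (.s k18 k19 0 (.s k33 k3 4 (.d k49 k50 k1 0 3))))), (.s k17 k34 4 (.s k21 k42 6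
  (.s k25 k29 1 (.s k38 k12 6 (.d k55 k59 k4 1 4)))))] .n) (.c k16 (.q k51 [(.s k49 k50 0 (.s k53
  k58 2 (.s k57 k61 1 (.s k54 k60 2 (.d k55 k52 k59 0 1))))), (.s k17 k34 4 (.s k21 k42 6 (.s k25
  k29 1 (.s k38 k12 6 (.d k55 k59 k4 1 4))))), (.s k17 k34 4 (.s k21 k42 6 (.s k25 k29 1 (.s k49 k50
  0 (.s k37 k13 5 (.d k53 k58 k5 2 3))))))] .n) (.c k21 (.f k53 k58 2 (.q k51 [(.s k49 k50 0 (.s k55
  k59 1 (.s k54 k52 0 (.d k57 k61 k60 1 2)))), (.s k16 k32 3 (.s k17 k34 4 (.s k18 k19 0 (.s k33 k3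
  4 (.d k49 k50 k1 0 3)))))] (.c k49 (.q k3 [(.s k16 k32 3 (.s k18 k33 4 (.d k17 k34 k19 4 0))), (.s
  k23 k43 5 (.s k55 k59 1 (.s k7 k39 3 (.s k52 k54 0 (.s k22 k37 4 (.d k60 k56 k41 1 6))))))] (.c
  k35 (.l (.s k16 k32 3 (.s k23 k43 5 (.s k55 k59 1 (.s k39 k7 3 (.s k27 k15 5 (.s k19 k31 1 (.d k17
  k34 k18 4 0)))))))) .n)) (.c k50 (.q k3 [(.s k16 k32 3 (.s k18 k33 4 (.d k17 k34 k19 4 0))), (.s
  k19 k35 3 (.s k23 k43 5 (.s k55 k59 1 (.s k39 k7 3 (.d k27 k31 k15 1 5))))), (.s k1 k2 0 (.s k55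
  k59 1 (.s k54 k52 0 (.s k57 k60 2 (.s k49 k61 1 (.d k17 k34 k33 4 3))))))] (.c k54 (.q k62 [(.s k2
  k1 0 (.s k22 k42 5 (.d k60 k61 k41 0 6))), (.s k16 k32 3 (.s k17 k34 4 (.d k18 k33 k19 4 0)))] (.c
  k2 (.l (.s k16 k32 3 (.s k17 k34 4 (.d k18 k33 k19 4 0)))) .n)) (.c k62 (.q k54 [(.d k55 k52 k59 0
  1), (.s k16 k32 3 (.s k17 k34 4 (.d k18 k33 k19 4 0)))] .n) .n))) .n)))) (.c k26 (.q k51 [(.s k32
  k16 3 (.s k34 k17 4 (.s k33 k35 0 (.s k18 k3 4 (.d k50 k49 k2 0 3))))), (.s k49 k50 0 (.s k53 k58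
  2 (.s k57 k61 1 (.s k54 k60 2 (.d k55 k52 k59 0 1))))), (.s k17 k34 4 (.s k21 k42 6 (.s k25 k29 1
  (.s k38 k12 6 (.d k55 k59 k4 1 4)))))] .n) (.c k31 (.l (.s k32 k16 3 (.s k58 k53 2 (.s k42 k21 6
  (.s k26 k10 3 (.d k37 k47 k15 2 6)))))) (.c k32 (.f k42 k21 6 (.f k53 k58 2 (.q k51 [(.s k34 k17 4
  (.s k38 k46 1 (.s k25 k12 6 (.d k59 k55 k8 1 4)))), (.s k49 k50 0 (.s k57 k61 1 (.s k54 k60 2 (.d
  k55 k52 k59 0 1)))), (.s k34 k17 4 (.s k38 k46 1 (.s k25 k12 6 (.s k49 k50 0 (.s k37 k13 5 (.s k15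
  k26 6 (.d k39 k36 k27 0 5)))))))] (.c k101 (.q k239 [(.s k34 k17 4 (.s k38 k46 1 (.s k25 k12 6 (.d
  k59 k55 k8 1 4)))), (.s k49 k50 0 (.s k57 k61 1 (.s k54 k60 2 (.d k55 k52 k59 0 1)))), (.s k34 k17
  4 (.s k38 k46 1 (.s k25 k12 6 (.s k49 k50 0 (.s k37 k13 5 (.s k15 k26 6 (.d k39 k36 k27 0
  5)))))))] .n) (.c k239 (.q k101 [(.s k34 k17 4 (.s k38 k46 1 (.s k25 k12 6 (.d k59 k55 k8 1 4)))),
  (.s k154 k207 14 (.s k149 k197 11 (.s k192 k106 14 (.d k144 k159 k96 2 11))))] .n) .n))))) (.c k37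
  (.q k51 [(.s k49 k50 0 (.s k53 k58 2 (.s k57 k61 1 (.s k54 k60 2 (.d k55 k52 k59 0 1))))), (.s k16
  k32 3 (.s k17 k34 4 (.s k18 k19 0 (.s k33 k3 4 (.d k49 k50 k1 0 3))))), (.s k17 k34 4 (.s k21 k42
  6 (.s k25 k29 1 (.s k38 k12 6 (.d k55 k59 k4 1 4)))))] .n) (.c k42 (.q k106 [(.s k58 k53 2 (.s
  k154 k202 11 (.s k101 k207 14 (.s k192 k149 14 (.d k96 k111 k144 2 11))))), (.s k16 k32 3 (.s k192
  k149 14 (.s k128 k64 7 (.s k144 k96 11 (.s k80 k208 7 (.d k160 k176 k240 3 11)))))), (.s k53 k58 2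
  (.s k149 k192 14 (.s k101 k197 11 (.s k207 k154 14 (.d k111 k96 k159 2 11)))))] (.c k96 (.l (.s
  k58 k53 2 (.s k154 k202 11 (.s k207 k101 14 (.s k149 k192 14 (.d k159 k144 k111 2 11)))))) (.c
  k101 (.l (.s k32 k16 3 (.s k192 k149 14 (.s k96 k144 11 (.s k160 k224 7 (.s k80 k240 11 (.d k64
  k128 k112 7 3))))))) (.c k149 (.q k128 [(.s k192 k64 7 (.s k58 k53 2 (.s k96 k144 11 (.s k154 k202
  11 (.d k101 k111 k207 2 14))))), (.s k192 k64 7 (.s k144 k96 11 (.s k160 k176 3 (.s k80 k240 11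
  (.d k16 k32 k208 3 7))))), (.s k16 k32 3 (.s k64 k192 7 (.s k58 k53 2 (.s k154 k202 11 (.d k85
  k127 k223 6 10)))))] (.c k64 (.l (.s k32 k16 3 (.s k58 k53 2 (.s k154 k202 11 (.s k101 k207 14 (.s
  k96 k111 2 (.s k160 k224 7 (.d k144 k192 k176 11 3)))))))) (.c k192 (.q k3 [(.s k1 k2 0 (.s k32
  k16 3 (.s k33 k18 4 (.s k17 k49 3 (.d k34 k35 k51 0 4))))), (.s k43 k23 5 (.s k169 k232 8 (.s k58
  k53 2 (.s k154 k202 11 (.s k139 k184 4 (.d k207 k101 k71 14 9))))))] (.c k86 (.l (.s k2 k1 0 (.s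
  k16 k32 3 (.s k18 k33 4 (.s k34 k50 3 (.d k17 k19 k51 0 4)))))) .n)) .n))) (.c k192 (.q k51 [(.s
  k32 k16 3 (.s k34 k17 4 (.s k33 k35 0 (.s k18 k3 4 (.d k50 k49 k2 0 3))))), (.s k58 k53 2 (.s k59
  k55 1 (.s k154 k202 11 (.s k207 k101 14 (.s k155 k103 13 (.d k153 k152 k200 0 12))))))] (.c k32
  (.l (.s k49 k50 0 (.s k53 k58 2 (.s k57 k61 1 (.s k54 k60 2 (.d k55 k52 k59 0 1)))))) .n)) .n)))))
  (.c k47 (.l (.s k16 k32 3 (.s k53 k58 2 (.s k21 k42 6 (.s k37 k5 3 (.d k26 k31 k15 2 6)))))) (.c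
  k53 (.q k51 [(.s k32 k16 3 (.s k34 k17 4 (.s k33 k35 0 (.s k18 k3 4 (.d k50 k49 k2 0 3))))), (.s
  k17 k34 4 (.s k21 k42 6 (.s k25 k29 1 (.s k38 k12 6 (.d k55 k59 k4 1 4))))), (.s k16 k32 3 (.s k21
  k42 6 (.s k26 k31 2 (.s k50 k49 0 (.s k38 k14 5 (.d k55 k59 k4 1 4))))))] .n) (.c k58 (.q k51 [(.s
  k32 k16 3 (.s k34 k17 4 (.s k33 k35 0 (.s k18 k3 4 (.d k50 k49 k2 0 3))))), (.s k17 k34 4 (.s k21
  k42 6 (.s k25 k29 1 (.s k38 k12 6 (.d k55 k59 k4 1 4))))), (.s k16 k32 3 (.s k21 k42 6 (.s k26 k31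
  2 (.s k50 k49 0 (.s k38 k14 5 (.d k55 k59 k4 1 4))))))] .n) .n)))))))))))))

def t133 : T TT 256 :=
  (.q k3 [(.s k2 k1 0 (.s k42 k21 6 (.s k22 k62 5 (.s k41 k60 6 (.d k43 k40 k23 0 5)))))] (.c k1 (.q
  k51 [(.s k19 k35 3 (.s k23 k43 5 (.s k27 k31 1 (.s k39 k15 5 (.d k55 k59 k7 1 3))))), (.s k17 k34
  4 (.s k21 k42 6 (.s k25 k29 1 (.s k38 k12 6 (.d k55 k59 k4 1 4))))), (.s k17 k34 4 (.s k21 k42 6
  (.s k19 k35 3 (.s k23 k43 5 (.s k16 k18 0 (.d k31 k27 k26 1 2))))))] .n) (.c k2 (.f k42 k21 6 (.q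
  k48 [(.s k32 k16 3 (.s k37 k47 2 (.s k58 k53 2 (.d k26 k10 k15 3 6)))), (.s k33 k18 4 (.s k43 k23
  5 (.s k41 k40 0 (.s k37 k45 1 (.d k32 k47 k16 2 3))))), (.s k18 k33 4 (.s k43 k23 5 (.s k41 k40 0
  (.s k22 k60 6 (.s k26 k30 1 (.d k58 k53 k10 2 3))))))] (.c k86 (.q k254 [(.s k32 k16 3 (.s k37 k47
  2 (.s k58 k53 2 (.d k26 k10 k15 3 6)))), (.s k33 k18 4 (.s k43 k23 5 (.s k41 k40 0 (.s k37 k45 1
  (.d k32 k47 k16 2 3))))), (.s k18 k33 4 (.s k43 k23 5 (.s k41 k40 0 (.s k22 k60 6 (.s k26 k30 1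
  (.d k58 k53 k10 2 3))))))] .n) (.c k254 (.q k86 [(.s k32 k16 3 (.s k37 k47 2 (.s k58 k53 2 (.d k26
  k10 k15 3 6)))), (.s k18 k33 4 (.s k169 k252 14 (.s k154 k222 9 (.s k139 k184 4 (.d k207 k71 k101
  9 14)))))] .n) .n)))) (.c k21 (.q k51 [(.s k1 k2 0 (.s k17 k34 4 (.s k33 k49 3 (.s k18 k48 4 (.d
  k19 k16 k35 0 3))))), (.s k19 k35 3 (.s k23 k43 5 (.s k27 k31 1 (.s k39 k15 5 (.d k55 k59 k7 1
  3)))))] (.c k16 (.l (.s k2 k1 0 (.s k34 k17 4 (.s k18 k50 3 (.s k33 k48 4 (.d k35 k19 k32 3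
  0)))))) (.c k19 (.q k106 [(.s k23 k43 5 (.s k149 k192 14 (.s k86 k212 8 (.s k126 k66 5 (.d k252
  k189 k169 8 14))))), (.s k55 k59 1 (.s k149 k192 14 (.s k102 k196 12 (.s k110 k98 1 (.d k204 k157
  k153 12 14))))), (.s k43 k23 5 (.s k169 k232 8 (.s k59 k55 1 (.s k153 k200 12 (.s k137 k185 3 (.d
  k204 k70 k102 10 14))))))] .n) (.c k35 (.q k106 [(.s k23 k43 5 (.s k149 k192 14 (.s k86 k212 8 (.s
  k126 k66 5 (.d k252 k189 k169 8 14))))), (.s k55 k59 1 (.s k149 k192 14 (.s k102 k196 12 (.s k204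
  k153 14 (.d k110 k98 k157 1 12))))), (.s k43 k23 5 (.s k169 k232 8 (.s k59 k55 1 (.s k153 k200 12
  (.s k137 k185 3 (.d k204 k70 k102 10 14))))))] .n) .n)))) (.c k22 (.q k51 [(.s k2 k1 0 (.s k34 k17
  4 (.s k18 k50 3 (.s k33 k48 4 (.d k35 k32 k19 0 3))))), (.s k34 k17 4 (.s k42 k21 6 (.s k38 k46 1
  (.s k25 k12 6 (.d k59 k55 k8 1 4))))), (.s k19 k35 3 (.s k23 k43 5 (.s k27 k31 1 (.s k39 k15 5 (.d
  k55 k59 k7 1 3)))))] .n) (.c k23 (.q k51 [(.s k2 k1 0 (.s k34 k17 4 (.s k18 k50 3 (.s k33 k48 4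
  (.d k35 k32 k19 0 3))))), (.s k17 k34 4 (.s k21 k42 6 (.s k25 k29 1 (.s k38 k12 6 (.d k55 k59 k4 1
  4))))), (.s k1 k2 0 (.s k21 k42 6 (.s k41 k61 5 (.s k35 k19 3 (.s k38 k44 2 (.d k55 k59 k4 1
  4))))))] .n) (.c k40 (.l (.s k1 k2 0 (.s k21 k42 6 (.s k41 k61 5 (.s k22 k60 6 (.d k23 k43 k20 5
  0)))))) (.c k41 (.q k51 [(.s k2 k1 0 (.s k34 k17 4 (.s k18 k50 3 (.s k33 k48 4 (.d k35 k32 k19 0
  3))))), (.s k19 k35 3 (.s k23 k43 5 (.s k27 k31 1 (.s k39 k15 5 (.d k55 k59 k7 1 3))))), (.s k17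
  k34 4 (.s k21 k42 6 (.s k25 k29 1 (.s k38 k12 6 (.d k55 k59 k4 1 4)))))] .n) (.c k42 (.q k51 [(.s
  k2 k1 0 (.s k34 k17 4 (.s k18 k50 3 (.s k33 k48 4 (.d k35 k32 k19 0 3))))), (.s k19 k35 3 (.s k23
  k43 5 (.s k27 k31 1 (.s k39 k15 5 (.d k55 k59 k7 1 3)))))] (.c k19 (.q k48 [(.s k2 k1 0 (.s k34
  k17 4 (.d k18 k33 k50 4 3))), (.s k49 k50 0 (.s k53 k58 2 (.s k57 k61 1 (.s k54 k60 2 (.d k55 k52
  k59 0 1)))))] (.c k49 (.l (.s k2 k1 0 (.s k58 k53 2 (.s k59 k55 1 (.s k57 k56 0 (.s k54 k60 2 (.s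
  k50 k62 1 (.d k34 k17 k18 4 3)))))))) (.c k50 (.l (.s k1 k2 0 (.s k53 k58 2 (.s k55 k59 1 (.s k54
  k52 0 (.s k57 k60 2 (.s k49 k61 1 (.d k17 k34 k33 4 3)))))))) (.c k106 (.q k234 [(.s k2 k1 0 (.s
  k34 k17 4 (.d k18 k33 k50 4 3))), (.s k49 k50 0 (.s k53 k58 2 (.s k57 k61 1 (.s k54 k60 2 (.d k55
  k52 k59 0 1)))))] (.c k49 (.l (.s k2 k1 0 (.s k58 k53 2 (.s k59 k55 1 (.s k57 k56 0 (.s k54 k60 2
  (.s k50 k62 1 (.d k34 k17 k18 4 3)))))))) (.c k50 (.l (.s k1 k2 0 (.s k53 k58 2 (.s k55 k59 1 (.s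
  k54 k52 0 (.s k57 k60 2 (.s k49 k61 1 (.d k17 k34 k33 4 3)))))))) .n))) (.c k234 (.q k106 [(.s k2
  k1 0 (.s k34 k17 4 (.d k18 k33 k50 4 3))), (.s k23 k43 5 (.s k149 k192 14 (.s k86 k212 8 (.s k252
  k169 14 (.d k126 k66 k189 5 8)))))] .n) .n))))) (.c k35 (.q k48 [(.s k2 k1 0 (.s k34 k17 4 (.d k18
  k33 k50 4 3))), (.s k49 k50 0 (.s k53 k58 2 (.s k57 k61 1 (.s k54 k60 2 (.d k55 k52 k59 0 1)))))]
  (.c k49 (.l (.s k2 k1 0 (.s k58 k53 2 (.s k59 k55 1 (.s k57 k56 0 (.s k54 k60 2 (.s k50 k62 1 (.d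
  k34 k17 k18 4 3)))))))) (.c k50 (.l (.s k1 k2 0 (.s k53 k58 2 (.s k55 k59 1 (.s k54 k52 0 (.s k57
  k60 2 (.s k49 k61 1 (.d k17 k34 k33 4 3)))))))) (.c k106 (.q k234 [(.s k2 k1 0 (.s k34 k17 4 (.d
  k18 k33 k50 4 3))), (.s k49 k50 0 (.s k53 k58 2 (.s k57 k61 1 (.s k54 k60 2 (.d k55 k52 k59 0
  1)))))] (.c k49 (.l (.s k2 k1 0 (.s k58 k53 2 (.s k59 k55 1 (.s k57 k56 0 (.s k54 k60 2 (.s k50
  k62 1 (.d k34 k17 k18 4 3)))))))) (.c k50 (.l (.s k1 k2 0 (.s k53 k58 2 (.s k55 k59 1 (.s k54 k52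
  0 (.s k57 k60 2 (.s k49 k61 1 (.d k17 k34 k33 4 3)))))))) .n))) (.c k234 (.q k106 [(.s k2 k1 0 (.s
  k34 k17 4 (.d k18 k33 k50 4 3))), (.s k23 k43 5 (.s k149 k192 14 (.s k86 k212 8 (.s k252 k169 14
  (.d k126 k66 k189 5 8)))))] .n) .n))))) (.c k106 (.q k234 [(.s k2 k1 0 (.s k34 k17 4 (.s k18 k50 3
  (.s k33 k48 4 (.d k35 k32 k19 0 3))))), (.s k19 k35 3 (.s k23 k43 5 (.s k27 k31 1 (.s k39 k15 5
  (.d k55 k59 k7 1 3)))))] (.c k19 (.q k48 [(.s k2 k1 0 (.s k34 k17 4 (.d k18 k33 k50 4 3))), (.s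
  k49 k50 0 (.s k53 k58 2 (.s k57 k61 1 (.s k54 k60 2 (.d k55 k52 k59 0 1)))))] (.c k49 (.l (.s k2
  k1 0 (.s k58 k53 2 (.s k59 k55 1 (.s k57 k56 0 (.s k54 k60 2 (.s k50 k62 1 (.d k34 k17 k18 4
  3)))))))) (.c k50 (.l (.s k1 k2 0 (.s k53 k58 2 (.s k55 k59 1 (.s k54 k52 0 (.s k57 k60 2 (.s k49
  k61 1 (.d k17 k34 k33 4 3)))))))) .n))) (.c k35 (.q k48 [(.s k2 k1 0 (.s k34 k17 4 (.d k18 k33 k50
  4 3))), (.s k49 k50 0 (.s k53 k58 2 (.s k57 k61 1 (.s k54 k60 2 (.d k55 k52 k59 0 1)))))] (.c k49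
  (.l (.s k2 k1 0 (.s k58 k53 2 (.s k59 k55 1 (.s k57 k56 0 (.s k54 k60 2 (.s k50 k62 1 (.d k34 k17
  k18 4 3)))))))) (.c k50 (.l (.s k1 k2 0 (.s k53 k58 2 (.s k55 k59 1 (.s k54 k52 0 (.s k57 k60 2
  (.s k49 k61 1 (.d k17 k34 k33 4 3)))))))) .n))) .n))) (.c k234 (.q k106 [(.s k2 k1 0 (.s k34 k17 4
  (.s k18 k50 3 (.s k33 k48 4 (.d k35 k32 k19 0 3))))), (.s k23 k43 5 (.s k149 k192 14 (.s k86 k212
  8 (.s k252 k169 14 (.d k126 k66 k189 5 8)))))] .n) .n))))) (.c k43 (.q k51 [(.s k2 k1 0 (.s k34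
  k17 4 (.s k18 k50 3 (.s k33 k48 4 (.d k35 k32 k19 0 3))))), (.s k17 k34 4 (.s k21 k42 6 (.s k25
  k29 1 (.s k38 k12 6 (.d k55 k59 k4 1 4))))), (.s k1 k2 0 (.s k21 k42 6 (.s k41 k61 5 (.s k35 k19 3
  (.s k38 k44 2 (.d k55 k59 k4 1 4))))))] .n) (.c k60 (.q k51 [(.s k2 k1 0 (.s k34 k17 4 (.s k18 k50
  3 (.s k33 k48 4 (.d k35 k32 k19 0 3))))), (.s k17 k34 4 (.s k21 k42 6 (.s k25 k29 1 (.s k38 k12 6
  (.d k55 k59 k4 1 4))))), (.s k19 k35 3 (.s k23 k43 5 (.s k27 k31 1 (.s k39 k15 5 (.d k55 k59 k7 1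
  3)))))] .n) (.c k61 (.l (.s k2 k1 0 (.s k43 k23 5 (.s k42 k21 6 (.s k41 k40 0 (.d k22 k62 k60 5
  6)))))) (.c k62 (.l (.s k1 k2 0 (.s k23 k43 5 (.s k21 k42 6 (.s k22 k20 0 (.d k41 k61 k60 5
  6)))))) .n)))))))))))))

def t134 : T TT 256 :=
  (.f k42 k21 6 (.q k48 [(.s k32 k16 3 (.s k37 k47 2 (.s k26 k15 6 (.d k58 k53 k10 2 3))))] (.c k10
  (.q k3 [(.s k2 k1 0 (.s k22 k62 5 (.s k41 k60 6 (.d k43 k40 k23 0 5)))), (.s k1 k2 0 (.s k32 k16 3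
  (.s k33 k18 4 (.s k17 k49 3 (.d k34 k35 k51 0 4))))), (.s k32 k16 3 (.s k33 k18 4 (.s k43 k23 5
  (.s k37 k47 2 (.d k41 k40 k45 0 1)))))] (.c k90 (.q k250 [(.s k2 k1 0 (.s k22 k62 5 (.s k41 k60 6
  (.d k43 k40 k23 0 5)))), (.s k1 k2 0 (.s k32 k16 3 (.s k33 k18 4 (.s k17 k49 3 (.d k34 k35 k51 0
  4))))), (.s k32 k16 3 (.s k33 k18 4 (.s k43 k23 5 (.s k37 k47 2 (.d k41 k40 k45 0 1)))))] .n) (.c
  k250 (.q k90 [(.s k2 k1 0 (.s k22 k62 5 (.s k41 k60 6 (.d k43 k40 k23 0 5)))), (.s k1 k2 0 (.s k32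
  k16 3 (.s k33 k18 4 (.s k17 k49 3 (.d k34 k35 k51 0 4))))), (.s k32 k16 3 (.s k33 k18 4 (.s k43
  k23 5 (.s k37 k47 2 (.d k41 k40 k45 0 1)))))] .n) .n))) (.c k15 (.q k3 [(.s k2 k1 0 (.s k22 k62 5
  (.s k43 k23 5 (.d k41 k40 k60 0 6)))), (.s k1 k2 0 (.s k32 k16 3 (.s k33 k18 4 (.s k17 k49 3 (.d
  k34 k35 k51 0 4))))), (.s k32 k16 3 (.s k33 k18 4 (.s k43 k23 5 (.s k37 k47 2 (.d k41 k40 k45 0
  1)))))] .n) (.c k16 (.q k3 [(.s k2 k1 0 (.s k22 k62 5 (.s k41 k60 6 (.d k43 k40 k23 0 5)))), (.s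
  k18 k33 4 (.s k58 k53 2 (.s k26 k10 3 (.s k22 k30 1 (.d k2 k1 k62 0 5))))), (.s k33 k18 4 (.s k58
  k53 2 (.s k26 k10 3 (.s k37 k15 6 (.s k41 k45 1 (.d k43 k40 k23 0 5))))))] (.c k26 (.q k31 [(.s k2
  k1 0 (.s k22 k62 5 (.s k41 k60 6 (.d k43 k40 k23 0 5)))), (.s k33 k18 4 (.s k43 k23 5 (.s k47 k15
  3 (.s k32 k37 2 (.d k35 k34 k39 0 1))))), (.s k2 k1 0 (.s k18 k33 4 (.s k50 k34 3 (.s k58 k53 2
  (.d k62 k54 k22 1 5)))))] (.c k22 (.l (.s k23 k43 5 (.s k15 k47 3 (.s k7 k11 1 (.s k39 k55 3 (.d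
  k27 k19 k51 1 5)))))) .n)) (.c k31 (.q k26 [(.d k58 k53 k10 2 3), (.s k2 k1 0 (.s k22 k62 5 (.d
  k18 k30 k33 1 4)))] .n) .n))) (.c k26 (.q k3 [(.s k2 k1 0 (.s k22 k62 5 (.s k41 k60 6 (.d k43 k40
  k23 0 5)))), (.s k1 k2 0 (.s k33 k18 4 (.s k17 k49 3 (.s k34 k51 4 (.d k32 k16 k35 3 0))))), (.s
  k33 k18 4 (.s k43 k23 5 (.s k41 k40 0 (.s k37 k45 1 (.d k32 k16 k47 3 2)))))] (.c k16 (.q k31 [(.s
  k2 k1 0 (.s k22 k62 5 (.s k41 k60 6 (.d k43 k40 k23 0 5)))), (.s k33 k18 4 (.s k43 k23 5 (.s k47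
  k15 3 (.s k32 k37 2 (.d k35 k34 k39 0 1))))), (.s k2 k1 0 (.s k18 k33 4 (.s k50 k34 3 (.s k58 k53
  2 (.d k62 k54 k22 1 5)))))] (.c k22 (.l (.s k23 k43 5 (.s k15 k47 3 (.s k7 k11 1 (.s k39 k55 3 (.d
  k27 k19 k51 1 5)))))) .n)) (.c k22 (.l (.s k2 k1 0 (.s k16 k32 3 (.s k18 k33 4 (.s k34 k50 3 (.d
  k17 k19 k51 0 4)))))) (.c k31 (.l (.s k16 k32 3 (.s k2 k1 0 (.s k22 k62 5 (.s k41 k60 6 (.d k43
  k40 k23 0 5)))))) .n)))) (.c k31 (.l (.s k58 k53 2 (.s k32 k16 3 (.s k26 k10 3 (.d k37 k47 k15 2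
  6))))) (.c k32 (.f k53 k58 2 (.q k51 [(.s k34 k17 4 (.s k38 k46 1 (.s k59 k55 1 (.d k25 k8 k12 4
  6)))), (.s k49 k50 0 (.s k57 k61 1 (.s k54 k60 2 (.d k55 k52 k59 0 1)))), (.s k34 k17 4 (.s k38
  k46 1 (.s k25 k12 6 (.s k49 k50 0 (.s k37 k13 5 (.s k15 k26 6 (.d k39 k36 k27 0 5)))))))] (.c k101
  (.q k239 [(.s k34 k17 4 (.s k38 k46 1 (.s k59 k55 1 (.d k25 k8 k12 4 6)))), (.s k49 k50 0 (.s k57
  k61 1 (.s k54 k60 2 (.d k55 k52 k59 0 1)))), (.s k34 k17 4 (.s k38 k46 1 (.s k25 k12 6 (.s k49 k50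
  0 (.s k37 k13 5 (.s k15 k26 6 (.d k39 k36 k27 0 5)))))))] .n) (.c k239 (.q k101 [(.s k34 k17 4 (.s
  k38 k46 1 (.s k59 k55 1 (.d k25 k8 k12 4 6)))), (.s k154 k207 14 (.s k149 k197 11 (.s k192 k106 14
  (.d k144 k159 k96 2 11))))] .n) .n)))) (.c k37 (.q k3 [(.s k2 k1 0 (.s k22 k62 5 (.s k41 k60 6 (.d
  k43 k40 k23 0 5)))), (.s k1 k2 0 (.s k32 k16 3 (.s k33 k18 4 (.s k17 k49 3 (.d k34 k35 k51 0
  4))))), (.s k18 k33 4 (.s k43 k23 5 (.s k41 k40 0 (.s k22 k60 6 (.s k26 k30 1 (.d k58 k53 k10 2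
  3))))))] (.c k5 (.l (.s k53 k58 2 (.s k2 k1 0 (.s k22 k62 5 (.s k41 k60 6 (.d k43 k40 k23 0
  5)))))) (.c k53 (.q k5 [(.s k2 k1 0 (.s k22 k62 5 (.s k41 k60 6 (.d k43 k40 k23 0 5)))), (.s k1 k2
  0 (.s k10 k15 2 (.s k9 k13 1 (.s k12 k6 2 (.d k8 k11 k4 0 1))))), (.s k10 k15 2 (.s k18 k33 4 (.s
  k43 k23 5 (.s k26 k58 3 (.s k22 k30 1 (.d k41 k60 k40 6 0))))))] .n) .n))) (.c k47 (.q k3 [(.s k2
  k1 0 (.s k22 k62 5 (.s k41 k60 6 (.d k43 k40 k23 0 5)))), (.s k1 k2 0 (.s k32 k16 3 (.s k33 k18 4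
  (.s k17 k49 3 (.d k34 k35 k51 0 4))))), (.s k18 k33 4 (.s k43 k23 5 (.s k41 k40 0 (.s k22 k60 6
  (.s k26 k30 1 (.d k58 k53 k10 2 3))))))] .n) (.c k53 (.q k3 [(.s k2 k1 0 (.s k22 k62 5 (.s k41 k60
  6 (.d k43 k40 k23 0 5)))), (.s k1 k2 0 (.s k32 k16 3 (.s k33 k18 4 (.s k17 k49 3 (.d k34 k35 k51 0
  4))))), (.s k32 k16 3 (.s k33 k18 4 (.s k43 k23 5 (.s k37 k47 2 (.d k41 k40 k45 0 1)))))] (.c k5
  (.q k37 [(.d k32 k47 k16 2 3), (.s k33 k18 4 (.s k43 k23 5 (.d k41 k40 k45 0 1)))] .n) (.c k37 (.q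
  k5 [(.s k2 k1 0 (.s k22 k62 5 (.s k41 k60 6 (.d k43 k40 k23 0 5)))), (.s k1 k2 0 (.s k10 k15 2 (.s
  k9 k13 1 (.s k12 k6 2 (.d k8 k11 k4 0 1))))), (.s k10 k15 2 (.s k18 k33 4 (.s k43 k23 5 (.s k26
  k58 3 (.s k22 k30 1 (.d k41 k60 k40 6 0))))))] .n) .n))) (.c k58 (.q k3 [(.s k2 k1 0 (.s k22 k62 5
  (.s k41 k60 6 (.d k43 k40 k23 0 5)))), (.s k1 k2 0 (.s k32 k16 3 (.s k33 k18 4 (.s k17 k49 3 (.d
  k34 k35 k51 0 4))))), (.s k32 k16 3 (.s k33 k18 4 (.s k43 k23 5 (.s k37 k47 2 (.d k41 k40 k45 0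
  1)))))] .n) .n))))))))))))

def t135 : T TT 256 :=
  (.f k42 k21 6 (.q k48 [(.s k32 k16 3 (.s k37 k47 2 (.s k58 k53 2 (.d k26 k10 k15 3 6))))] (.c k10
  (.f k53 k58 2 (.q k3 [(.s k2 k1 0 (.s k22 k62 5 (.s k41 k60 6 (.d k43 k40 k23 0 5)))), (.s k1 k2 0
  (.s k32 k16 3 (.s k33 k18 4 (.s k17 k49 3 (.d k34 k35 k51 0 4))))), (.s k32 k16 3 (.s k33 k18 4
  (.s k43 k23 5 (.s k37 k47 2 (.d k41 k40 k45 0 1)))))] (.c k90 (.q k250 [(.s k2 k1 0 (.s k22 k62 5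
  (.s k41 k60 6 (.d k43 k40 k23 0 5)))), (.s k1 k2 0 (.s k32 k16 3 (.s k33 k18 4 (.s k17 k49 3 (.d
  k34 k35 k51 0 4))))), (.s k32 k16 3 (.s k33 k18 4 (.s k43 k23 5 (.s k37 k47 2 (.d k41 k40 k45 0
  1)))))] .n) (.c k250 (.q k90 [(.s k2 k1 0 (.s k22 k62 5 (.s k41 k60 6 (.d k43 k40 k23 0 5)))), (.s
  k1 k2 0 (.s k32 k16 3 (.s k33 k18 4 (.s k17 k49 3 (.d k34 k35 k51 0 4))))), (.s k32 k16 3 (.s k33
  k18 4 (.s k43 k23 5 (.s k37 k47 2 (.d k41 k40 k45 0 1)))))] (.c k122 (.q k186 [(.s k2 k1 0 (.s k43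
  k23 5 (.s k41 k40 0 (.d k22 k62 k60 5 6)))), (.s k1 k2 0 (.s k32 k16 3 (.s k33 k18 4 (.s k17 k49 3
  (.d k34 k35 k51 0 4))))), (.s k32 k16 3 (.s k33 k18 4 (.s k43 k23 5 (.s k37 k47 2 (.d k41 k40 k45
  0 1)))))] .n) (.c k186 (.q k122 [(.s k2 k1 0 (.s k22 k62 5 (.s k41 k60 6 (.d k43 k40 k23 0 5)))),
  (.s k32 k16 3 (.s k37 k47 2 (.s k240 k181 10 (.d k15 k26 k165 6 14))))] (.c k138 (.q k154 [(.s
  k101 k207 14 (.s k149 k197 11 (.d k106 k74 k192 3 14))), (.s k32 k16 3 (.s k26 k218 7 (.d k37 k47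
  k15 2 6)))] (.c k74 (.q k202 [(.s k26 k218 7 (.s k15 k37 6 (.d k240 k181 k165 10 14))), (.s k101
  k207 14 (.s k240 k181 10 (.d k112 k176 k79 7 6))), (.s k32 k16 3 (.s k26 k218 7 (.d k37 k47 k15 2
  6)))] .n) (.c k202 (.l (.s k74 k106 3 (.s k32 k16 3 (.s k37 k47 2 (.d k26 k15 k218 6 7))))) .n)))
  (.c k154 (.q k138 [(.s k2 k1 0 (.s k22 k62 5 (.s k41 k60 6 (.d k43 k40 k23 0 5)))), (.s k32 k16 3
  (.s k37 k47 2 (.s k240 k181 10 (.d k15 k26 k165 6 14))))] (.c k106 (.q k202 [(.s k2 k1 0 (.s k43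
  k23 5 (.s k41 k40 0 (.d k22 k62 k60 5 6)))), (.s k32 k16 3 (.s k37 k47 2 (.s k240 k181 10 (.d k15
  k26 k165 6 14))))] .n) (.c k202 (.l (.s k106 k74 3 (.s k2 k1 0 (.s k22 k62 5 (.s k41 k60 6 (.d k43
  k40 k23 0 5)))))) .n))) .n))) .n))) .n)))) (.c k15 (.f k53 k58 2 (.q k3 [(.s k2 k1 0 (.s k22 k62 5
  (.s k43 k23 5 (.d k41 k40 k60 0 6)))), (.s k1 k2 0 (.s k32 k16 3 (.s k33 k18 4 (.s k17 k49 3 (.d
  k34 k35 k51 0 4))))), (.s k32 k16 3 (.s k33 k18 4 (.s k43 k23 5 (.s k37 k47 2 (.d k41 k40 k45 0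
  1)))))] (.c k75 (.q k195 [(.s k2 k1 0 (.s k22 k62 5 (.s k43 k23 5 (.d k41 k40 k60 0 6)))), (.s k16
  k32 3 (.s k130 k65 8 (.s k146 k97 12 (.s k81 k211 8 (.d k162 k178 k243 3 12)))))] .n) (.c k195 (.q
  k75 [(.s k2 k1 0 (.s k22 k62 5 (.s k43 k23 5 (.d k41 k40 k60 0 6)))), (.s k1 k2 0 (.s k32 k16 3
  (.s k33 k18 4 (.s k17 k49 3 (.d k34 k35 k51 0 4))))), (.s k32 k16 3 (.s k33 k18 4 (.s k43 k23 5
  (.s k37 k47 2 (.d k41 k40 k45 0 1)))))] .n) .n)))) (.c k16 (.f k53 k58 2 (.q k51 [(.s k34 k17 4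
  (.s k38 k46 1 (.s k25 k12 6 (.d k59 k55 k8 1 4)))), (.s k49 k50 0 (.s k57 k61 1 (.s k54 k60 2 (.d
  k55 k52 k59 0 1)))), (.s k17 k34 4 (.s k49 k50 0 (.s k1 k33 3 (.s k2 k3 0 (.s k62 k22 5 (.d k61
  k60 k57 0 1))))))] (.c k26 (.q k31 [(.s k55 k59 1 (.s k54 k52 0 (.s k57 k60 2 (.d k49 k50 k61 0
  1)))), (.s k34 k17 4 (.s k38 k46 1 (.s k25 k12 6 (.d k59 k55 k8 1 4)))), (.s k17 k34 4 (.s k49 k50
  0 (.s k1 k33 3 (.s k2 k3 0 (.s k62 k22 5 (.d k61 k60 k57 0 1))))))] .n) (.c k31 (.q k26 [(.s k50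
  k49 0 (.s k38 k14 5 (.d k34 k46 k17 1 4))), (.s k15 k37 6 (.s k27 k39 5 (.s k25 k24 0 (.d k59 k55
  k8 1 4))))] (.c k38 (.l (.s k37 k15 6 (.s k49 k50 0 (.s k25 k13 5 (.d k59 k55 k8 1 4))))) .n))
  .n)))) (.c k26 (.f k53 k58 2 (.q k51 [(.s k34 k17 4 (.s k38 k46 1 (.s k25 k12 6 (.d k59 k55 k8 1
  4)))), (.s k16 k32 3 (.s k17 k34 4 (.s k18 k19 0 (.s k33 k3 4 (.d k49 k50 k1 0 3))))), (.s k49 k50
  0 (.s k57 k61 1 (.s k54 k60 2 (.d k55 k52 k59 0 1))))] (.c k16 (.q k31 [(.s k55 k59 1 (.s k54 k52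
  0 (.s k57 k60 2 (.d k49 k50 k61 0 1)))), (.s k34 k17 4 (.s k38 k46 1 (.s k25 k12 6 (.d k59 k55 k8
  1 4)))), (.s k17 k34 4 (.s k49 k50 0 (.s k1 k33 3 (.s k2 k3 0 (.s k62 k22 5 (.d k61 k60 k57 0
  1))))))] .n) (.c k31 (.l (.s k16 k32 3 (.s k17 k34 4 (.s k18 k19 0 (.s k33 k3 4 (.d k49 k50 k1 0
  3)))))) .n)))) (.c k31 (.l (.s k58 k53 2 (.s k32 k16 3 (.s k26 k10 3 (.d k37 k47 k15 2 6))))) (.c
  k32 (.f k53 k58 2 (.q k51 [(.s k34 k17 4 (.s k38 k46 1 (.s k25 k12 6 (.d k59 k55 k8 1 4)))), (.s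
  k49 k50 0 (.s k57 k61 1 (.s k54 k60 2 (.d k55 k52 k59 0 1)))), (.s k34 k17 4 (.s k38 k46 1 (.s k25
  k12 6 (.s k49 k50 0 (.s k37 k13 5 (.s k15 k26 6 (.d k39 k36 k27 0 5)))))))] (.c k101 (.q k239 [(.s
  k34 k17 4 (.s k38 k46 1 (.s k25 k12 6 (.d k59 k55 k8 1 4)))), (.s k49 k50 0 (.s k57 k61 1 (.s k54
  k60 2 (.d k55 k52 k59 0 1)))), (.s k34 k17 4 (.s k38 k46 1 (.s k25 k12 6 (.s k49 k50 0 (.s k37 k13
  5 (.s k15 k26 6 (.d k39 k36 k27 0 5)))))))] .n) (.c k239 (.q k101 [(.s k34 k17 4 (.s k38 k46 1 (.s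
  k25 k12 6 (.d k59 k55 k8 1 4)))), (.s k154 k207 14 (.s k149 k197 11 (.s k192 k106 14 (.d k144 k159
  k96 2 11))))] .n) .n)))) (.c k37 (.q k3 [(.s k2 k1 0 (.s k22 k62 5 (.s k41 k60 6 (.d k43 k40 k23 0
  5)))), (.s k1 k2 0 (.s k32 k16 3 (.s k33 k18 4 (.s k17 k49 3 (.d k34 k35 k51 0 4))))), (.s k18 k33
  4 (.s k43 k23 5 (.s k41 k40 0 (.s k22 k60 6 (.s k26 k30 1 (.d k58 k53 k10 2 3))))))] (.c k5 (.l
  (.s k53 k58 2 (.s k2 k1 0 (.s k22 k62 5 (.s k41 k60 6 (.d k43 k40 k23 0 5)))))) (.c k53 (.q k5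
  [(.s k2 k1 0 (.s k22 k62 5 (.s k41 k60 6 (.d k43 k40 k23 0 5)))), (.s k1 k2 0 (.s k10 k15 2 (.s k9
  k13 1 (.s k12 k6 2 (.d k8 k11 k4 0 1))))), (.s k10 k15 2 (.s k18 k33 4 (.s k43 k23 5 (.s k26 k58 3
  (.s k22 k30 1 (.d k41 k60 k40 6 0))))))] .n) .n))) (.c k47 (.q k3 [(.s k2 k1 0 (.s k22 k62 5 (.s
  k41 k60 6 (.d k43 k40 k23 0 5)))), (.s k1 k2 0 (.s k32 k16 3 (.s k33 k18 4 (.s k17 k49 3 (.d k34
  k35 k51 0 4))))), (.s k18 k33 4 (.s k43 k23 5 (.s k41 k40 0 (.s k22 k60 6 (.s k26 k30 1 (.d k58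
  k53 k10 2 3))))))] .n) (.c k53 (.q k3 [(.s k2 k1 0 (.s k22 k62 5 (.s k41 k60 6 (.d k43 k40 k23 0
  5)))), (.s k1 k2 0 (.s k32 k16 3 (.s k33 k18 4 (.s k17 k49 3 (.d k34 k35 k51 0 4))))), (.s k32 k16
  3 (.s k33 k18 4 (.s k43 k23 5 (.s k37 k47 2 (.d k41 k40 k45 0 1)))))] (.c k5 (.q k37 [(.d k32 k47
  k16 2 3), (.s k33 k18 4 (.s k43 k23 5 (.d k41 k40 k45 0 1)))] .n) (.c k37 (.q k5 [(.s k2 k1 0 (.s
  k22 k62 5 (.s k41 k60 6 (.d k43 k40 k23 0 5)))), (.s k1 k2 0 (.s k10 k15 2 (.s k9 k13 1 (.s k12 k6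
  2 (.d k8 k11 k4 0 1))))), (.s k10 k15 2 (.s k18 k33 4 (.s k43 k23 5 (.s k26 k58 3 (.s k22 k30 1
  (.d k41 k60 k40 6 0))))))] .n) .n))) (.c k58 (.q k3 [(.s k2 k1 0 (.s k22 k62 5 (.s k41 k60 6 (.d
  k43 k40 k23 0 5)))), (.s k1 k2 0 (.s k32 k16 3 (.s k33 k18 4 (.s k17 k49 3 (.d k34 k35 k51 0
  4))))), (.s k32 k16 3 (.s k33 k18 4 (.s k43 k23 5 (.s k37 k47 2 (.d k41 k40 k45 0 1)))))] .n)
  .n))))))))))))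

theorem c43 : rootOK2 k63 k170 k43 t43 = true := by decide +kernel

theorem c47 : rootOK2 k63 k170 k47 t47 = true := by decide +kernel

theorem c64 : rootOK2 k63 k170 k64 t64 = true := by decide +kernel

theorem c65 : rootOK2 k63 k170 k65 t65 = true := by decide +kernel

theorem c66 : rootOK2 k63 k170 k66 t66 = true := by decide +kernel

theorem c67 : rootOK2 k63 k170 k67 t67 = true := by decide +kernel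

theorem c69 : rootOK2 k63 k170 k69 t69 = true := by decide +kernel

theorem c70 : rootOK2 k63 k170 k70 t70 = true := by decide +kernel

theorem c71 : rootOK2 k63 k170 k71 t71 = true := by decide +kernel

theorem c74 : rootOK2 k63 k170 k74 t74 = true := by decide +kernel

theorem c75 : rootOK2 k63 k170 k75 t75 = true := by decide +kernel

theorem c79 : rootOK2 k63 k170 k79 t79 = true := by decide +kernel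

theorem c85 : rootOK2 k63 k170 k85 t85 = true := by decide +kernel

theorem c86 : rootOK2 k63 k170 k86 t86 = true := by decide +kernel

theorem c87 : rootOK2 k63 k170 k87 t87 = true := by decide +kernel

theorem c90 : rootOK2 k63 k170 k90 t90 = true := by decide +kernel

theorem c91 : rootOK2 k63 k170 k91 t91 = true := by decide +kernel

theorem c95 : rootOK2 k63 k170 k95 t95 = true := by decide +kernel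

theorem c106 : rootOK2 k63 k170 k106 t106 = true := by decide +kernel

theorem c107 : rootOK2 k63 k170 k107 t107 = true := by decide +kernel

theorem c111 : rootOK2 k63 k170 k111 t111 = true := by decide +kernel

theorem c127 : rootOK2 k63 k170 k127 t127 = true := by decide +kernel

theorem c128 : rootOK2 k63 k170 k128 t128 = true := by decide +kernel

theorem c129 : rootOK2 k63 k170 k129 t129 = true := by decide +kernel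

theorem c130 : rootOK2 k63 k170 k130 t130 = true := by decide +kernel

theorem c131 : rootOK2 k63 k170 k131 t131 = true := by decide +kernel

theorem c133 : rootOK2 k63 k170 k133 t133 = true := by decide +kernel

theorem c134 : rootOK2 k63 k170 k134 t134 = true := by decide +kernel

theorem c135 : rootOK2 k63 k170 k135 t135 = true := by decide +kernel

def l : List Nat :=
  [k43.c, k47.c, k64.c, k65.c, k66.c, k67.c, k69.c, k70.c, k71.c, k74.c, k75.c, k79.c, k85.c, k86.c,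
  k87.c, k90.c, k91.c, k95.c, k106.c, k107.c, k111.c, k127.c, k128.c, k129.c, k130.c, k131.c,
  k133.c, k134.c, k135.c]

theorem ok : AllQ k63.c k170.c l :=
  allQ_cons c43 (allQ_cons c47 (allQ_cons c64 (allQ_cons c65 (allQ_cons c66 (allQ_cons c67 (
  allQ_cons c69 (allQ_cons c70 (allQ_cons c71 (allQ_cons c74 (allQ_cons c75 (allQ_cons c79 (
  allQ_cons c85 (allQ_cons c86 (allQ_cons c87 (allQ_cons c90 (allQ_cons c91 (allQ_cons c95 (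
  allQ_cons c106 (allQ_cons c107 (allQ_cons c111 (allQ_cons c127 (allQ_cons c128 (
  allQ_cons c129 (allQ_cons c130 (allQ_cons c131 (allQ_cons c133 (allQ_cons c134 (
  allQ_cons c135 (allQ_nil _ _)))))))))))))))))))))))))))))

end Pool.Agent.TTT.G05
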