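import Pool.Agent.TTT.Sym2

set_option autoImplicit false
set_option maxRecDepth 100000

namespace Pool.Agent.TTT.G06

def t138 : T TT 256 :=
  (.q k48 [(.s k32 k16 3 (.s k42 k21 6 (.s k37 k47 2 (.s k26 k15 6 (.d k58 k53 k10 2 3)))))] (.c k10
  (.l (.s k16 k32 3 (.s k21 k42 6 (.s k26 k31 2 (.s k37 k15 6 (.d k53 k58 k5 2 3)))))) (.c k15 (.q
  k154 [(.s k53 k58 2 (.s k101 k207 14 (.s k149 k197 11 (.s k144 k159 2 (.d k192 k96 k106 11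
  14))))), (.s k16 k32 3 (.s k21 k42 6 (.s k31 k26 2 (.s k223 k85 10 (.s k159 k95 7 (.d k207 k101
  k111 14 11)))))), (.s k16 k32 3 (.s k21 k42 6 (.s k85 k223 10 (.s k149 k213 7 (.s k144 k159 2 (.d
  k192 k106 k96 14 11)))))), (.s k21 k42 6 (.s k58 k53 2 (.s k106 k202 11 (.s k149 k192 14 (.s k85
  k213 7 (.d k16 k32 k223 3 10))))))] (.c k106 (.l (.s k16 k32 3 (.s k85 k223 10 (.s k53 k58 2 (.s
  k101 k207 14 (.s k149 k197 11 (.d k21 k42 k213 6 7))))))) .n)) (.c k16 (.f k58 k53 2 (.q k154 [(.s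
  k101 k207 14 (.s k106 k202 11 (.s k96 k111 2 (.d k192 k144 k149 11 14)))), (.s k42 k21 6 (.s k26
  k10 3 (.s k90 k218 7 (.s k101 k207 14 (.s k112 k79 6 (.s k240 k176 7 (.d k15 k37 k165 6 14))))))),
  (.s k207 k101 14 (.s k159 k111 11 (.s k149 k144 2 (.d k106 k202 k192 11 14))))] (.c k101 (.f k42
  k21 6 (.l (.s k26 k10 3 (.s k90 k218 7 (.s k106 k202 11 (.s k74 k122 3 (.s k149 k192 14 (.s k31
  k208 10 (.d k15 k47 k37 3 6))))))))) (.c k202 (.q k149 [(.s k207 k101 14 (.d k159 k144 k111 2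
  11)), (.s k192 k106 14 (.d k144 k159 k96 2 11)), (.s k21 k42 6 (.s k85 k213 7 (.s k101 k207 14 (.s
  k117 k69 3 (.s k255 k186 10 (.s k127 k191 7 (.d k106 k192 k64 14 6)))))))] (.c k10 (.q k74 [(.s
  k207 k101 14 (.d k159 k144 k111 2 11)), (.s k192 k106 14 (.d k144 k159 k96 2 11)), (.s k207 k101
  14 (.s k192 k106 14 (.s k64 k128 7 (.s k79 k69 2 (.d k15 k143 k133 7 10)))))] (.c k90 (.q k250
  [(.s k192 k106 14 (.d k144 k159 k96 2 11)), (.s k207 k101 14 (.d k159 k144 k111 2 11)), (.s k122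
  k186 7 (.s k192 k106 14 (.s k133 k15 10 (.d k181 k165 k240 3 10))))] .n) (.c k250 (.q k90 [(.d
  k106 k122 k192 3 14), (.s k207 k101 14 (.d k159 k144 k111 2 11))] (.c k218 (.q k234 [(.d k106 k122
  k192 3 14), (.s k207 k101 14 (.d k159 k144 k111 2 11))] .n) (.c k234 (.l (.s k218 k26 7 (.d k106
  k122 k192 3 14))) .n))) .n))) (.c k74 (.q k10 [(.d k42 k26 k21 3 6), (.s k207 k101 14 (.d k159
  k144 k111 2 11))] .n) .n))) (.c k207 (.l (.s k42 k21 6 (.s k26 k10 3 (.s k90 k218 7 (.s k106 k202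
  11 (.s k74 k122 3 (.s k192 k149 14 (.d k15 k37 k133 6 10)))))))) .n))))) (.c k21 (.q k51 [(.s k49
  k50 0 (.s k53 k58 2 (.s k57 k61 1 (.s k54 k60 2 (.d k55 k52 k59 0 1))))), (.s k32 k16 3 (.s k34
  k17 4 (.s k33 k35 0 (.s k18 k3 4 (.d k50 k49 k2 0 3)))))] (.c k49 (.q k154 [(.s k53 k58 2 (.s k101
  k207 14 (.s k149 k197 11 (.s k144 k159 2 (.d k192 k96 k106 11 14))))), (.s k16 k32 3 (.s k17 k34 4
  (.s k85 k223 10 (.s k153 k221 9 (.s k152 k155 0 (.d k204 k102 k100 14 13))))))] (.c k101 (.l (.s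
  k58 k53 2 (.s k59 k55 1 (.s k106 k202 11 (.s k153 k200 12 (.s k204 k102 14 (.d k152 k100 k155 13
  0))))))) .n)) (.c k50 (.q k154 [(.s k53 k58 2 (.s k101 k207 14 (.s k149 k197 11 (.s k144 k159 2
  (.d k192 k96 k106 11 14))))), (.s k16 k32 3 (.s k17 k34 4 (.s k85 k223 10 (.s k153 k221 9 (.s k152
  k155 0 (.d k204 k102 k100 14 13))))))] (.c k101 (.l (.s k58 k53 2 (.s k59 k55 1 (.s k106 k202 11
  (.s k153 k200 12 (.s k204 k102 14 (.d k152 k100 k155 13 0))))))) .n)) (.c k154 (.q k186 [(.s k53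
  k58 2 (.s k117 k255 10 (.s k181 k245 7 (.s k240 k122 10 (.d k176 k191 k112 2 7))))), (.s k16 k32 3
  (.s k17 k34 4 (.s k18 k19 0 (.s k33 k3 4 (.d k49 k50 k1 0 3)))))] .n) (.c k186 (.q k154 [(.s k16
  k32 3 (.s k17 k34 4 (.s k18 k19 0 (.s k33 k3 4 (.d k49 k50 k1 0 3))))), (.s k53 k58 2 (.s k101
  k207 14 (.s k149 k197 11 (.s k192 k106 14 (.d k144 k159 k96 2 11)))))] (.c k101 (.l (.s k32 k16 3
  (.s k34 k17 4 (.s k33 k35 0 (.s k18 k3 4 (.d k50 k49 k2 0 3)))))) .n)) .n))))) (.c k26 (.f k58 k53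
  2 (.q k154 [(.s k101 k207 14 (.s k106 k202 11 (.s k96 k111 2 (.d k192 k144 k149 11 14)))), (.s k16
  k32 3 (.s k21 k42 6 (.s k85 k223 10 (.s k149 k213 7 (.d k106 k202 k192 11 14))))), (.s k16 k32 3
  (.s k21 k42 6 (.s k85 k223 10 (.s k149 k213 7 (.s k159 k144 2 (.d k207 k101 k111 14 11))))))] (.c
  k101 (.l (.s k21 k42 6 (.s k106 k202 11 (.s k149 k192 14 (.s k85 k213 7 (.d k16 k32 k223 3
  10)))))) (.c k106 (.q k149 [(.s k159 k144 2 (.d k207 k111 k101 11 14)), (.s k16 k32 3 (.s k85 k223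
  10 (.d k21 k42 k213 6 7)))] (.c k42 (.q k234 [(.s k159 k144 2 (.d k207 k111 k101 11 14)), (.s k32
  k16 3 (.s k144 k159 2 (.s k96 k192 11 (.s k160 k224 7 (.s k240 k80 11 (.d k176 k128 k112 3
  7)))))), (.s k16 k32 3 (.s k85 k223 10 (.s k213 k21 7 (.s k101 k207 14 (.s k117 k69 3 (.d k255
  k192 k186 6 10))))))] .n) (.c k101 (.l (.s k32 k16 3 (.s k144 k159 2 (.s k96 k192 11 (.s k160 k224
  7 (.s k240 k80 11 (.d k176 k128 k112 3 7))))))) (.c k234 (.l (.s k42 k21 6 (.s k207 k101 14 (.d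
  k159 k111 k144 11 2)))) .n)))) (.c k149 (.l (.s k16 k32 3 (.s k85 k223 10 (.s k101 k207 14 (.s
  k106 k202 11 (.s k64 k127 6 (.s k96 k111 2 (.d k192 k128 k144 7 11)))))))) .n))))) (.c k31 (.l (.s
  k32 k16 3 (.s k58 k53 2 (.s k42 k21 6 (.s k26 k10 3 (.d k37 k47 k15 2 6)))))) (.c k32 (.f k42 k21
  6 (.q k2 [(.s k3 k1 0 (.s k22 k62 5 (.s k41 k60 6 (.d k43 k40 k23 0 5)))), (.s k62 k22 5 (.s k58
  k53 2 (.s k50 k54 1 (.s k34 k18 3 (.d k51 k49 k17 0 4))))), (.s k3 k1 0 (.s k33 k18 4 (.s k58 k53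
  2 (.s k26 k10 3 (.s k37 k15 6 (.s k41 k45 1 (.d k43 k40 k23 0 5)))))))] (.c k23 (.l (.s k3 k1 0
  (.s k22 k62 5 (.s k18 k33 4 (.s k26 k30 1 (.d k58 k53 k10 2 3)))))) (.c k101 (.q k239 [(.s k3 k1 0
  (.s k22 k62 5 (.s k41 k60 6 (.d k43 k40 k23 0 5)))), (.s k62 k22 5 (.s k58 k53 2 (.s k50 k54 1 (.s
  k34 k18 3 (.d k51 k49 k17 0 4))))), (.s k3 k1 0 (.s k33 k18 4 (.s k58 k53 2 (.s k26 k10 3 (.s k37
  k15 6 (.s k41 k45 1 (.d k43 k40 k23 0 5)))))))] (.c k23 (.l (.s k3 k1 0 (.s k22 k62 5 (.s k18 k33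
  4 (.s k26 k30 1 (.d k58 k53 k10 2 3)))))) (.c k154 (.q k186 [(.s k3 k1 0 (.s k22 k62 5 (.s k41 k60
  6 (.d k43 k40 k23 0 5)))), (.s k53 k58 2 (.s k117 k255 10 (.s k181 k245 7 (.s k240 k122 10 (.d
  k176 k191 k112 2 7)))))] .n) (.c k186 (.q k154 [(.s k3 k1 0 (.s k22 k62 5 (.s k41 k60 6 (.d k43
  k40 k23 0 5)))), (.s k62 k22 5 (.s k58 k53 2 (.s k50 k54 1 (.s k34 k18 3 (.d k51 k49 k17 0 4))))),
  (.s k3 k1 0 (.s k18 k33 4 (.s k23 k43 5 (.s k86 k222 9 (.s k149 k212 8 (.s k58 k53 2 (.d k106 k202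
  k192 11 14)))))))] (.c k23 (.l (.s k3 k1 0 (.s k22 k62 5 (.s k18 k33 4 (.s k26 k30 1 (.d k58 k53
  k10 2 3)))))) .n)) .n)))) (.c k154 (.q k186 [(.s k3 k1 0 (.s k22 k62 5 (.s k41 k60 6 (.d k43 k40
  k23 0 5)))), (.s k53 k58 2 (.s k117 k255 10 (.s k181 k245 7 (.s k240 k122 10 (.d k176 k191 k112 2
  7)))))] (.c k101 (.q k239 [(.s k3 k1 0 (.s k22 k62 5 (.s k41 k60 6 (.d k43 k40 k23 0 5)))), (.s
  k53 k58 2 (.s k117 k255 10 (.s k181 k245 7 (.s k240 k122 10 (.d k176 k191 k112 2 7)))))] .n) (.c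
  k239 (.q k101 [(.s k3 k1 0 (.s k22 k62 5 (.s k41 k60 6 (.d k43 k40 k23 0 5)))), (.s k53 k58 2 (.s
  k117 k255 10 (.s k181 k245 7 (.s k240 k122 10 (.d k176 k191 k112 2 7)))))] .n) .n))) (.c k186 (.q
  k154 [(.s k3 k1 0 (.s k22 k62 5 (.s k41 k60 6 (.d k43 k40 k23 0 5)))), (.s k53 k58 2 (.s k101 k207
  14 (.s k149 k197 11 (.s k192 k106 14 (.d k144 k159 k96 2 11)))))] (.c k101 (.q k239 [(.s k3 k1 0
  (.s k22 k62 5 (.s k41 k60 6 (.d k43 k40 k23 0 5)))), (.s k62 k22 5 (.s k58 k53 2 (.s k50 k54 1 (.s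
  k34 k18 3 (.d k51 k49 k17 0 4))))), (.s k3 k1 0 (.s k18 k33 4 (.s k23 k43 5 (.s k86 k222 9 (.s
  k149 k212 8 (.s k58 k53 2 (.d k106 k202 k192 11 14)))))))] (.c k23 (.l (.s k3 k1 0 (.s k22 k62 5
  (.s k18 k33 4 (.s k26 k30 1 (.d k58 k53 k10 2 3)))))) .n)) (.c k239 (.l (.s k101 k207 14 (.s k3 k1
  0 (.s k22 k62 5 (.s k41 k60 6 (.d k43 k40 k23 0 5)))))) .n))) (.c k239 (.q k101 [(.s k3 k1 0 (.s
  k22 k62 5 (.s k41 k60 6 (.d k43 k40 k23 0 5)))), (.s k53 k58 2 (.s k154 k207 14 (.s k149 k197 11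
  (.s k192 k106 14 (.d k144 k159 k96 2 11)))))] (.c k154 (.q k186 [(.s k3 k1 0 (.s k22 k62 5 (.s k41
  k60 6 (.d k43 k40 k23 0 5)))), (.s k53 k58 2 (.s k117 k255 10 (.s k181 k245 7 (.s k240 k122 10 (.d
  k176 k191 k112 2 7)))))] .n) (.c k186 (.l (.s k154 k207 14 (.s k3 k1 0 (.s k22 k62 5 (.s k41 k60 6
  (.d k43 k40 k23 0 5)))))) .n))) .n))))))) (.c k37 (.q k154 [(.s k53 k58 2 (.s k101 k207 14 (.s
  k149 k197 11 (.s k144 k159 2 (.d k192 k96 k106 11 14))))), (.s k16 k32 3 (.s k223 k85 10 (.s k207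
  k101 14 (.s k239 k255 3 (.s k159 k111 11 (.s k31 k95 7 (.d k21 k42 k26 6 2))))))), (.s k21 k42 6
  (.s k58 k53 2 (.s k106 k202 11 (.s k149 k192 14 (.s k85 k213 7 (.d k16 k32 k223 3 10))))))] (.c
  k106 (.l (.s k16 k32 3 (.s k85 k223 10 (.s k53 k58 2 (.s k101 k207 14 (.s k149 k197 11 (.d k21 k42
  k213 6 7))))))) (.c k207 (.l (.s k16 k32 3 (.s k85 k223 10 (.s k58 k53 2 (.s k106 k202 11 (.s k192
  k149 14 (.d k64 k128 k127 7 6))))))) .n))) (.c k42 (.f k32 k16 3 (.f k58 k53 2 (.q k106 [(.s k154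
  k202 11 (.s k207 k101 14 (.s k149 k192 14 (.d k159 k144 k111 2 11)))), (.s k192 k149 14 (.s k96
  k144 11 (.s k160 k224 7 (.s k80 k240 11 (.d k64 k128 k112 7 3))))), (.s k154 k202 11 (.s k101 k207
  14 (.s k192 k149 14 (.s k96 k111 2 (.s k160 k224 7 (.s k80 k240 11 (.d k64 k128 k112 7 3)))))))]
  (.c k101 (.f k149 k192 14 (.q k186 [(.s k255 k117 10 (.s k191 k127 7 (.s k181 k176 2 (.d k122 k250
  k240 7 10)))), (.s k122 k250 7 (.s k90 k74 3 (.s k31 k208 10 (.s k15 k47 3 (.s k26 k37 6 (.d k154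
  k202 k218 11 7)))))), (.s k255 k117 10 (.s k154 k202 11 (.s k191 k127 7 (.s k159 k144 2 (.s k143
  k175 3 (.d k176 k181 k165 2 6))))))] (.c k122 (.q k51 [(.s k34 k17 4 (.s k33 k35 0 (.s k18 k3 4
  (.d k50 k49 k2 0 3)))), (.s k55 k59 1 (.s k102 k196 12 (.s k110 k98 1 (.d k204 k157 k153 12
  14))))] .n) .n))) (.c k149 (.l (.s k154 k202 11 (.s k101 k207 14 (.s k96 k111 2 (.s k160 k224 7
  (.s k80 k240 11 (.s k192 k144 11 (.d k64 k112 k128 3 7)))))))) (.c k154 (.q k186 [(.s k117 k255 10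
  (.s k122 k250 7 (.s k240 k181 10 (.d k112 k127 k176 2 7)))), (.s k122 k250 7 (.s k149 k192 14 (.s
  k90 k74 3 (.s k31 k208 10 (.s k15 k47 3 (.d k240 k181 k165 10 14)))))), (.s k255 k117 10 (.s k192
  k149 14 (.s k128 k64 7 (.s k144 k96 11 (.s k176 k160 3 (.d k191 k181 k127 2 7))))))] (.c k85 (.q
  k223 [(.s k117 k255 10 (.s k122 k250 7 (.s k240 k181 10 (.d k112 k127 k176 2 7)))), (.s k122 k250
  7 (.s k149 k192 14 (.s k90 k74 3 (.s k31 k208 10 (.s k15 k47 3 (.d k240 k181 k165 10 14)))))), (.s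
  k255 k117 10 (.s k192 k149 14 (.s k128 k64 7 (.s k144 k96 11 (.s k176 k160 3 (.d k191 k181 k127 2
  7))))))] (.c k181 (.l (.s k117 k255 10 (.s k122 k250 7 (.s k192 k149 14 (.s k128 k64 7 (.s k144
  k96 11 (.s k112 k127 2 (.d k176 k240 k160 7 3)))))))) .n)) (.c k181 (.l (.s k117 k255 10 (.s k122
  k250 7 (.s k192 k149 14 (.s k127 k112 2 (.d k64 k128 k85 7 6)))))) (.c k223 (.q k85 [(.s k64 k127
  6 (.d k192 k128 k149 7 14)), (.s k117 k255 10 (.s k122 k250 7 (.s k240 k181 10 (.d k112 k127 k176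
  2 7))))] (.c k127 (.l (.s k117 k255 10 (.s k192 k149 14 (.s k101 k69 3 (.d k96 k144 k111 11 2)))))
  .n)) .n)))) (.c k186 (.l (.s k154 k202 11 (.s k101 k207 14 (.s k192 k149 14 (.d k96 k111 k144 2
  11))))) (.c k192 (.q k51 [(.s k50 k49 0 (.s k59 k55 1 (.s k57 k56 0 (.d k54 k62 k60 1 2)))), (.s
  k34 k17 4 (.s k33 k35 0 (.s k18 k3 4 (.d k50 k49 k2 0 3)))), (.s k59 k55 1 (.s k154 k202 11 (.s
  k207 k101 14 (.s k155 k103 13 (.d k153 k152 k200 0 12)))))] (.c k154 (.q k186 [(.s k34 k17 4 (.s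
  k33 k35 0 (.s k18 k3 4 (.d k50 k49 k2 0 3)))), (.s k117 k255 10 (.s k122 k250 7 (.s k240 k181 10
  (.d k112 k127 k176 2 7))))] (.c k85 (.q k223 [(.s k50 k49 0 (.s k59 k55 1 (.s k57 k56 0 (.d k54
  k62 k60 1 2)))), (.s k117 k255 10 (.s k122 k250 7 (.s k240 k181 10 (.d k112 k127 k176 2 7))))] .n)
  (.c k223 (.q k85 [(.s k127 k64 6 (.d k255 k191 k117 7 10)), (.s k17 k34 4 (.s k153 k221 9 (.d k59
  k55 k200 1 12)))] .n) .n))) (.c k186 (.l (.s k154 k202 11 (.s k34 k17 4 (.s k33 k35 0 (.s k18 k3 4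
  (.d k50 k49 k2 0 3)))))) .n))) (.c k197 (.l (.s k154 k202 11 (.s k101 k207 14 (.s k192 k149 14 (.d
  k96 k111 k144 2 11))))) .n))))))))) (.c k47 (.l (.s k16 k32 3 (.s k53 k58 2 (.s k21 k42 6 (.s k37
  k5 3 (.d k26 k31 k15 2 6)))))) (.c k53 (.q k51 [(.s k32 k16 3 (.s k34 k17 4 (.s k33 k35 0 (.s k18
  k3 4 (.d k50 k49 k2 0 3))))), (.s k17 k34 4 (.s k21 k42 6 (.s k25 k29 1 (.s k38 k12 6 (.d k55 k59
  k4 1 4))))), (.s k16 k32 3 (.s k21 k42 6 (.s k26 k31 2 (.s k50 k49 0 (.s k38 k14 5 (.d k55 k59 k4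
  1 4))))))] (.c k154 (.q k186 [(.s k32 k16 3 (.s k34 k17 4 (.s k33 k35 0 (.s k18 k3 4 (.d k50 k49
  k2 0 3))))), (.s k17 k34 4 (.s k21 k42 6 (.s k25 k29 1 (.s k38 k12 6 (.d k55 k59 k4 1 4))))), (.s
  k49 k50 0 (.s k117 k255 10 (.s k185 k253 9 (.s k252 k118 10 (.d k184 k187 k116 0 9)))))] .n) (.c
  k186 (.q k154 [(.s k32 k16 3 (.s k34 k17 4 (.s k33 k35 0 (.s k18 k3 4 (.d k50 k49 k2 0 3))))), (.s
  k17 k34 4 (.s k21 k42 6 (.s k25 k29 1 (.s k38 k12 6 (.d k55 k59 k4 1 4))))), (.s k49 k50 0 (.s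
  k101 k207 14 (.s k153 k205 13 (.s k152 k155 0 (.d k204 k100 k102 13 14)))))] .n) .n))) (.c k58 (.q
  k26 [(.s k16 k32 3 (.d k21 k31 k42 2 6)), (.s k32 k16 3 (.s k42 k21 6 (.d k37 k47 k15 2 6)))] (.c
  k16 (.q k154 [(.s k15 k37 6 (.s k90 k218 7 (.s k165 k240 14 (.s k143 k176 6 (.d k207 k79 k101 7
  14))))), (.s k15 k37 6 (.s k31 k47 3 (.s k90 k218 7 (.s k149 k208 10 (.s k144 k159 2 (.d k192 k96
  k106 11 14)))))), (.s k21 k42 6 (.s k37 k15 6 (.s k53 k5 3 (.s k101 k207 14 (.s k149 k197 11 (.s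
  k144 k159 2 (.d k192 k106 k96 14 11)))))))] (.c k15 (.l (.s k218 k90 7 (.s k207 k101 14 (.s k159
  k111 11 (.s k144 k149 2 (.s k240 k229 6 (.s k160 k80 11 (.d k176 k128 k112 3 7)))))))) (.c k37 (.q
  k106 [(.s k101 k207 14 (.s k96 k111 2 (.d k192 k144 k149 11 14))), (.s k90 k218 7 (.s k122 k74 3
  (.s k240 k181 10 (.s k165 k15 14 (.d k176 k143 k112 6 7)))))] (.c k192 (.l (.s k90 k218 7 (.s k101
  k207 14 (.s k122 k74 3 (.s k240 k181 10 (.d k112 k79 k176 6 7)))))) .n)) .n))) (.c k21 (.q k154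
  [(.s k90 k218 7 (.s k101 k207 14 (.s k112 k79 6 (.s k240 k176 7 (.d k15 k37 k165 6 14))))), (.s
  k15 k37 6 (.s k31 k47 3 (.s k90 k218 7 (.s k149 k208 10 (.s k144 k159 2 (.d k192 k96 k106 11
  14)))))), (.s k16 k32 3 (.s k85 k223 10 (.s k90 k218 7 (.s k101 k207 14 (.s k80 k95 2 (.s k240
  k160 11 (.d k112 k79 k176 6 7))))))), (.s k15 k37 6 (.s k31 k47 3 (.s k207 k101 14 (.s k159 k111
  11 (.s k223 k95 7 (.d k16 k32 k85 3 10))))))] .n) (.c k32 (.l (.s k21 k42 6 (.s k31 k16 2 (.d k15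
  k47 k37 3 6)))) (.c k42 (.l (.s k16 k32 3 (.s k31 k21 2 (.d k15 k47 k37 3 6)))) (.c k154 (.q k186
  [(.s k21 k42 6 (.d k16 k31 k32 2 3)), (.s k21 k42 6 (.s k37 k15 6 (.s k53 k5 3 (.s k117 k255 10
  (.s k181 k245 7 (.s k240 k122 10 (.d k176 k191 k112 2 7))))))), (.s k15 k37 6 (.s k31 k47 3 (.s
  k255 k117 10 (.s k95 k175 11 (.s k159 k223 7 (.s k111 k207 11 (.d k127 k79 k191 3 7)))))))] (.c
  k42 (.l (.s k16 k32 3 (.s k31 k21 2 (.d k15 k47 k37 3 6)))) (.c k106 (.q k202 [(.s k16 k32 3 (.d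
  k21 k42 k31 6 2)), (.s k15 k37 6 (.s k47 k31 3 (.s k255 k117 10 (.s k175 k95 11 (.s k191 k127 7
  (.s k159 k143 3 (.d k111 k239 k207 7 11))))))), (.s k32 k16 3 (.s k42 k21 6 (.d k37 k47 k15 2
  6)))] (.c k42 (.q k234 [(.s k16 k32 3 (.s k31 k21 2 (.d k15 k47 k37 3 6))), (.s k255 k117 10 (.s
  k191 k127 7 (.s k176 k181 2 (.s k250 k218 3 (.d k240 k245 k112 2 7)))))] .n) (.c k234 (.l (.s k42
  k21 6 (.s k32 k16 3 (.d k37 k47 k15 2 6)))) .n))) (.c k202 (.q k106 [(.s k21 k42 6 (.d k16 k31 k32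
  2 3)), (.s k255 k117 10 (.s k127 k191 7 (.s k64 k85 6 (.d k192 k128 k149 7 14))))] (.c k10 (.q k74
  [(.s k15 k37 6 (.d k192 k133 k149 10 14)), (.s k16 k32 3 (.d k21 k31 k42 2 6))] (.c k90 (.q k250
  [(.s k15 k37 6 (.d k192 k133 k149 10 14)), (.s k16 k32 3 (.d k21 k31 k42 2 6))] .n) (.c k250 (.l
  (.s k90 k122 3 (.s k16 k32 3 (.d k21 k31 k42 2 6)))) .n))) (.c k16 (.l (.s k21 k42 6 (.s k255 k117
  10 (.s k149 k192 14 (.s k85 k213 7 (.d k127 k64 k191 6 7)))))) (.c k74 (.q k10 [(.d k15 k5 k37 2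
  6), (.s k16 k32 3 (.d k21 k31 k42 2 6))] .n) .n)))) .n)))) (.c k186 (.q k154 [(.s k16 k32 3 (.d
  k21 k31 k42 2 6)), (.s k15 k37 6 (.s k90 k218 7 (.s k165 k240 14 (.s k207 k101 14 (.d k143 k176
  k79 6 7))))), (.s k21 k42 6 (.s k31 k16 2 (.d k15 k47 k37 3 6)))] (.c k122 (.q k250 [(.s k16 k32 3
  (.d k21 k31 k42 2 6)), (.s k15 k37 6 (.s k90 k218 7 (.s k165 k240 14 (.s k207 k101 14 (.d k143
  k176 k79 6 7))))), (.s k21 k42 6 (.s k31 k16 2 (.d k15 k47 k37 3 6)))] .n) (.c k250 (.q k122 [(.s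
  k16 k32 3 (.d k21 k31 k42 2 6)), (.s k15 k37 6 (.s k90 k218 7 (.d k240 k181 k165 10 14)))] (.c k10
  (.l (.s k90 k218 7 (.s k16 k32 3 (.d k21 k31 k42 2 6)))) (.c k90 (.q k10 [(.d k15 k5 k37 2 6), (.s
  k16 k32 3 (.d k21 k31 k42 2 6))] .n) .n))) .n))) .n))))))) (.c k154 (.q k186 [(.s k32 k16 3 (.s
  k42 k21 6 (.s k37 k47 2 (.s k26 k15 6 (.d k58 k53 k10 2 3))))), (.s k53 k58 2 (.s k117 k255 10 (.s
  k181 k245 7 (.s k240 k122 10 (.d k176 k191 k112 2 7)))))] (.c k53 (.q k58 [(.s k117 k255 10 (.s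
  k122 k250 7 (.s k240 k181 10 (.d k112 k127 k176 2 7)))), (.s k32 k16 3 (.s k42 k21 6 (.s k37 k47 2
  (.d k26 k10 k15 3 6))))] (.c k10 (.l (.s k255 k117 10 (.s k191 k127 7 (.s k181 k176 2 (.d k122
  k250 k240 7 10))))) .n)) (.c k58 (.f k16 k32 3 (.f k117 k255 10 (.l (.s k21 k42 6 (.s k26 k31 2
  (.s k37 k15 6 (.s k53 k5 3 (.s k181 k245 7 (.s k240 k122 10 (.d k176 k191 k112 2 7)))))))))) .n)))
  (.c k186 (.q k154 [(.s k32 k16 3 (.s k42 k21 6 (.s k37 k47 2 (.s k26 k15 6 (.d k58 k53 k10 2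
  3))))), (.s k53 k58 2 (.s k101 k207 14 (.s k149 k197 11 (.s k144 k159 2 (.d k192 k96 k106 11
  14))))), (.s k16 k32 3 (.s k21 k42 6 (.s k85 k223 10 (.s k149 k213 7 (.s k144 k159 2 (.d k192 k106
  k96 14 11))))))] .n) .n)))))))))))))))

def t139 : T TT 256 :=
  (.q k15 [(.s k10 k5 2 (.s k42 k21 6 (.s k26 k58 3 (.s k37 k48 6 (.d k47 k32 k31 2 3)))))] (.c k5
  (.q k12 [(.s k13 k14 0 (.s k29 k46 4 (.s k45 k61 3 (.s k30 k60 4 (.d k31 k28 k47 0 3))))), (.s k4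
  k8 1 (.s k21 k42 6 (.s k38 k55 4 (.s k25 k51 6 (.d k29 k17 k46 1 4))))), (.s k4 k8 1 (.s k21 k42 6
  (.s k38 k55 4 (.s k14 k13 0 (.s k26 k50 5 (.d k31 k16 k47 2 3))))))] .n) (.c k10 (.f k31 k47 3 (.q
  k12 [(.s k29 k46 4 (.s k30 k28 0 (.s k45 k60 4 (.d k13 k14 k61 0 3)))), (.s k4 k8 1 (.s k21 k42 6
  (.s k38 k55 4 (.s k25 k51 6 (.d k29 k17 k46 1 4))))), (.s k4 k8 1 (.s k21 k42 6 (.s k38 k55 4 (.s
  k14 k13 0 (.d k26 k16 k50 2 5)))))] (.c k90 (.q k250 [(.s k29 k46 4 (.s k30 k28 0 (.s k45 k60 4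
  (.d k13 k14 k61 0 3)))), (.s k4 k8 1 (.s k21 k42 6 (.s k38 k55 4 (.s k25 k51 6 (.d k29 k17 k46 1
  4))))), (.s k4 k8 1 (.s k21 k42 6 (.s k38 k55 4 (.s k14 k13 0 (.d k26 k16 k50 2 5)))))] .n) (.c
  k250 (.q k90 [(.s k29 k46 4 (.s k30 k28 0 (.s k45 k60 4 (.d k13 k14 k61 0 3)))), (.s k165 k240 14
  (.s k149 k208 10 (.s k192 k106 14 (.d k133 k181 k74 3 10))))] .n) .n)))) (.c k21 (.f k31 k47 3 (.q
  k12 [(.s k13 k14 0 (.s k29 k46 4 (.s k30 k28 0 (.d k45 k61 k60 3 4)))), (.s k4 k8 1 (.s k5 k10 2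
  (.s k6 k7 0 (.s k9 k3 2 (.d k13 k14 k1 0 1)))))] (.c k13 (.q k90 [(.s k165 k240 14 (.s k149 k208
  10 (.s k133 k181 3 (.d k192 k74 k106 10 14)))), (.s k29 k46 4 (.s k149 k208 10 (.s k89 k209 9 (.s
  k243 k166 14 (.d k91 k88 k167 0 13))))), (.s k4 k8 1 (.s k240 k165 14 (.s k160 k80 11 (.s k164 k88
  13 (.s k84 k244 11 (.d k168 k172 k252 1 13))))))] (.c k106 (.l (.s k29 k46 4 (.s k28 k30 0 (.s
  k208 k149 10 (.s k88 k148 9 (.d k240 k164 k165 13 14)))))) .n)) (.c k14 (.q k90 [(.s k165 k240 14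
  (.s k149 k208 10 (.s k133 k181 3 (.d k192 k74 k106 10 14)))), (.s k29 k46 4 (.s k149 k208 10 (.s
  k89 k209 9 (.s k243 k166 14 (.d k91 k88 k167 0 13))))), (.s k4 k8 1 (.s k240 k165 14 (.s k160 k80
  11 (.s k164 k88 13 (.s k84 k244 11 (.d k168 k172 k252 1 13))))))] (.c k106 (.l (.s k29 k46 4 (.s
  k149 k208 10 (.s k89 k209 9 (.s k88 k91 0 (.d k240 k164 k165 13 14)))))) .n)) .n)))) (.c k26 (.q
  k12 [(.s k13 k14 0 (.s k29 k46 4 (.s k45 k61 3 (.s k30 k60 4 (.d k31 k28 k47 0 3))))), (.s k4 k8 1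
  (.s k5 k10 2 (.s k6 k7 0 (.s k9 k3 2 (.d k13 k14 k1 0 1))))), (.s k4 k8 1 (.s k21 k42 6 (.s k38
  k55 4 (.s k25 k51 6 (.d k29 k17 k46 1 4)))))] .n) (.c k31 (.q k12 [(.s k4 k8 1 (.s k21 k42 6 (.s
  k38 k55 4 (.s k25 k51 6 (.d k29 k17 k46 1 4))))), (.s k8 k4 1 (.s k10 k5 2 (.s k9 k11 0 (.s k6 k3
  2 (.d k14 k13 k2 0 1))))), (.s k5 k10 2 (.s k21 k42 6 (.s k37 k53 3 (.s k13 k14 0 (.s k29 k46 4
  (.d k25 k17 k49 1 5))))))] .n) (.c k32 (.l (.s k5 k10 2 (.s k21 k42 6 (.s k37 k53 3 (.s k26 k48 6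
  (.d k31 k47 k16 3 2)))))) (.c k37 (.q k12 [(.s k13 k14 0 (.s k29 k46 4 (.s k45 k61 3 (.s k30 k60 4
  (.d k31 k28 k47 0 3))))), (.s k4 k8 1 (.s k5 k10 2 (.s k6 k7 0 (.s k9 k3 2 (.d k13 k14 k1 0
  1))))), (.s k4 k8 1 (.s k21 k42 6 (.s k38 k55 4 (.s k25 k51 6 (.d k29 k17 k46 1 4)))))] .n) (.c
  k42 (.q k106 [(.s k47 k31 3 (.s k165 k224 10 (.s k90 k240 14 (.s k192 k149 14 (.d k74 k122 k133 3
  10))))), (.s k5 k10 2 (.s k192 k149 14 (.s k128 k64 7 (.s k133 k74 10 (.s k69 k197 7 (.d k138 k143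
  k207 2 10)))))), (.s k31 k47 3 (.s k149 k192 14 (.s k90 k208 10 (.s k240 k165 14 (.d k122 k74 k181
  3 10)))))] (.c k74 (.l (.s k47 k31 3 (.s k165 k224 10 (.s k240 k90 14 (.s k149 k192 14 (.d k181
  k133 k122 3 10)))))) (.c k90 (.l (.s k10 k5 2 (.s k192 k149 14 (.s k74 k133 10 (.s k138 k202 7 (.s
  k69 k207 10 (.d k64 k128 k79 7 2))))))) (.c k149 (.f k5 k10 2 (.l (.s k47 k31 3 (.s k165 k224 10
  (.s k85 k245 11 (.s k90 k240 14 (.s k64 k127 6 (.s k74 k122 3 (.d k192 k128 k133 7 10))))))))) (.c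
  k192 (.f k5 k10 2 (.l (.s k47 k31 3 (.s k165 k224 10 (.s k85 k245 11 (.s k127 k64 6 (.s k255 k191
  7 (.s k95 k175 11 (.d k90 k240 k80 14 2))))))))) .n))))) (.c k47 (.q k12 [(.s k4 k8 1 (.s k5 k10 2
  (.s k6 k7 0 (.s k13 k14 0 (.d k9 k1 k3 1 2))))), (.s k4 k8 1 (.s k21 k42 6 (.s k38 k55 4 (.s k25
  k51 6 (.d k29 k17 k46 1 4))))), (.s k5 k10 2 (.s k21 k42 6 (.s k37 k53 3 (.s k13 k14 0 (.s k29 k46
  4 (.d k25 k17 k49 1 5))))))] .n) (.c k48 (.q k12 [(.s k13 k14 0 (.s k29 k46 4 (.s k45 k61 3 (.s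
  k30 k60 4 (.d k31 k28 k47 0 3))))), (.s k4 k8 1 (.s k5 k10 2 (.s k6 k7 0 (.s k9 k3 2 (.d k13 k14
  k1 0 1))))), (.s k4 k8 1 (.s k21 k42 6 (.s k38 k55 4 (.s k25 k51 6 (.d k29 k17 k46 1 4)))))] .n)
  (.c k53 (.l (.s k10 k5 2 (.s k47 k31 3 (.s k42 k21 6 (.s k37 k32 2 (.d k26 k58 k48 3 6)))))) (.c
  k58 (.l (.s k5 k10 2 (.s k31 k47 3 (.s k21 k42 6 (.s k26 k16 2 (.d k37 k53 k48 3 6))))))
  .n)))))))))))))

def t143 : T TT 256 :=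
  (.q k3 [(.s k2 k1 0 (.s k42 k21 6 (.s k22 k62 5 (.s k41 k60 6 (.d k43 k40 k23 0 5)))))] (.c k1 (.q
  k15 [(.s k7 k11 1 (.s k23 k43 5 (.s k39 k55 3 (.s k27 k51 5 (.d k31 k19 k47 1 3))))), (.s k5 k10 2
  (.s k21 k42 6 (.s k37 k53 3 (.s k26 k48 6 (.d k31 k16 k47 2 3))))), (.s k5 k10 2 (.s k21 k42 6 (.s
  k7 k11 1 (.s k23 k43 5 (.s k4 k6 0 (.d k55 k39 k38 3 4))))))] .n) (.c k2 (.f k42 k21 6 (.q k15
  [(.s k10 k5 2 (.s k26 k58 3 (.s k37 k48 6 (.d k47 k32 k31 2 3)))), (.s k7 k11 1 (.s k23 k43 5 (.s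
  k39 k55 3 (.s k27 k51 5 (.d k31 k19 k47 1 3))))), (.s k10 k5 2 (.s k11 k7 1 (.s k43 k23 5 (.s k8
  k9 0 (.d k59 k27 k25 3 4)))))] (.c k86 (.q k254 [(.s k10 k5 2 (.s k26 k58 3 (.s k37 k48 6 (.d k47
  k32 k31 2 3)))), (.s k7 k11 1 (.s k23 k43 5 (.s k39 k55 3 (.s k27 k51 5 (.d k31 k19 k47 1 3))))),
  (.s k10 k5 2 (.s k11 k7 1 (.s k43 k23 5 (.s k8 k9 0 (.d k59 k27 k25 3 4)))))] .n) (.c k254 (.q k86
  [(.s k10 k5 2 (.s k26 k58 3 (.s k37 k48 6 (.d k47 k32 k31 2 3)))), (.s k7 k11 1 (.s k23 k43 5 (.s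
  k39 k55 3 (.s k27 k51 5 (.d k31 k19 k47 1 3))))), (.s k10 k5 2 (.s k11 k7 1 (.s k43 k23 5 (.s k8
  k9 0 (.d k59 k27 k25 3 4)))))] .n) .n)))) (.c k21 (.q k15 [(.s k7 k11 1 (.s k23 k43 5 (.s k39 k55
  3 (.s k27 k51 5 (.d k31 k19 k47 1 3))))), (.s k2 k1 0 (.s k10 k5 2 (.s k6 k14 1 (.s k9 k12 2 (.d
  k11 k8 k7 0 1)))))] (.c k7 (.q k12 [(.s k1 k2 0 (.s k9 k6 2 (.d k5 k10 k13 2 1))), (.s k13 k14 0
  (.s k29 k46 4 (.s k31 k47 3 (.s k30 k28 0 (.d k45 k61 k60 3 4)))))] (.c k13 (.l (.s k2 k1 0 (.s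
  k46 k29 4 (.s k47 k31 3 (.s k45 k44 0 (.s k30 k60 4 (.s k14 k62 3 (.d k10 k5 k6 2 1)))))))) (.c
  k14 (.l (.s k1 k2 0 (.s k29 k46 4 (.s k31 k47 3 (.s k30 k28 0 (.s k45 k60 4 (.s k13 k61 3 (.d k5
  k10 k9 2 1)))))))) .n))) (.c k11 (.q k12 [(.s k1 k2 0 (.s k9 k6 2 (.d k5 k10 k13 2 1))), (.s k13
  k14 0 (.s k29 k46 4 (.s k31 k47 3 (.s k30 k28 0 (.d k45 k61 k60 3 4)))))] (.c k13 (.l (.s k2 k1 0
  (.s k46 k29 4 (.s k47 k31 3 (.s k45 k44 0 (.s k30 k60 4 (.s k14 k62 3 (.d k10 k5 k6 2 1))))))))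
  (.c k14 (.l (.s k1 k2 0 (.s k29 k46 4 (.s k31 k47 3 (.s k30 k28 0 (.s k45 k60 4 (.s k13 k61 3 (.d
  k5 k10 k9 2 1)))))))) .n))) .n))) (.c k22 (.q k15 [(.s k2 k1 0 (.s k10 k5 2 (.s k6 k14 1 (.s k9
  k12 2 (.d k11 k8 k7 0 1))))), (.s k10 k5 2 (.s k42 k21 6 (.s k26 k58 3 (.s k37 k48 6 (.d k47 k32
  k31 2 3))))), (.s k7 k11 1 (.s k23 k43 5 (.s k39 k55 3 (.s k27 k51 5 (.d k31 k19 k47 1 3)))))] .n)
  (.c k23 (.q k15 [(.s k2 k1 0 (.s k10 k5 2 (.s k6 k14 1 (.s k9 k12 2 (.d k11 k8 k7 0 1))))), (.s k5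
  k10 2 (.s k21 k42 6 (.s k37 k53 3 (.s k26 k48 6 (.d k31 k16 k47 2 3))))), (.s k1 k2 0 (.s k21 k42
  6 (.s k41 k61 5 (.s k11 k7 1 (.s k26 k56 4 (.d k31 k16 k47 2 3))))))] .n) (.c k40 (.l (.s k1 k2 0
  (.s k21 k42 6 (.s k41 k61 5 (.s k22 k60 6 (.d k23 k43 k20 5 0)))))) (.c k41 (.q k15 [(.s k2 k1 0
  (.s k10 k5 2 (.s k6 k14 1 (.s k9 k12 2 (.d k11 k8 k7 0 1))))), (.s k7 k11 1 (.s k23 k43 5 (.s k39
  k55 3 (.s k27 k51 5 (.d k31 k19 k47 1 3))))), (.s k5 k10 2 (.s k21 k42 6 (.s k37 k53 3 (.s k26 k48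
  6 (.d k31 k16 k47 2 3)))))] .n) (.c k42 (.q k106 [(.s k43 k23 5 (.s k169 k232 8 (.s k86 k252 14
  (.s k192 k149 14 (.d k66 k126 k129 5 8))))), (.s k1 k2 0 (.s k192 k149 14 (.s k128 k64 7 (.s k129
  k66 8 (.s k65 k193 7 (.d k130 k131 k195 0 8)))))), (.s k23 k43 5 (.s k149 k192 14 (.s k86 k212 8
  (.s k252 k169 14 (.d k126 k66 k189 5 8)))))] (.c k66 (.l (.s k43 k23 5 (.s k169 k232 8 (.s k252
  k86 14 (.s k149 k192 14 (.d k189 k129 k126 5 8)))))) (.c k86 (.l (.s k2 k1 0 (.s k192 k149 14 (.s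
  k66 k129 8 (.s k130 k194 7 (.s k65 k195 8 (.d k64 k128 k67 7 0))))))) (.c k149 (.q k191 [(.s k43
  k23 5 (.s k169 k232 8 (.s k127 k255 7 (.s k85 k64 6 (.d k1 k2 k253 0 13))))), (.s k255 k127 7 (.s
  k171 k87 13 (.s k151 k131 5 (.s k107 k195 13 (.d k43 k23 k235 5 7))))), (.s k2 k1 0 (.s k127 k255
  7 (.s k64 k85 6 (.s k192 k128 7 (.s k66 k129 8 (.s k130 k194 7 (.d k65 k67 k195 0 8)))))))] (.c
  k127 (.q k15 [(.s k2 k1 0 (.s k10 k5 2 (.s k6 k14 1 (.s k9 k12 2 (.d k11 k8 k7 0 1))))), (.s k43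
  k23 5 (.s k47 k31 3 (.s k169 k232 8 (.s k165 k224 10 (.s k161 k173 1 (.d k240 k90 k82 14 12))))))]
  .n) (.c k255 (.q k15 [(.s k2 k1 0 (.s k10 k5 2 (.s k6 k14 1 (.s k9 k12 2 (.d k11 k8 k7 0 1))))),
  (.s k43 k23 5 (.s k47 k31 3 (.s k169 k232 8 (.s k165 k224 10 (.s k161 k173 1 (.d k240 k90 k82 14
  12))))))] .n) .n))) (.c k192 (.q k15 [(.s k2 k1 0 (.s k10 k5 2 (.s k6 k14 1 (.s k9 k12 2 (.d k11
  k8 k7 0 1))))), (.s k43 k23 5 (.s k47 k31 3 (.s k169 k232 8 (.s k252 k86 14 (.s k173 k94 12 (.d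
  k165 k161 k224 1 10))))))] (.c k2 (.l (.s k7 k11 1 (.s k23 k43 5 (.s k39 k55 3 (.s k27 k51 5 (.d
  k31 k19 k47 1 3)))))) .n)) .n))))) (.c k43 (.q k15 [(.s k2 k1 0 (.s k10 k5 2 (.s k6 k14 1 (.s k9
  k12 2 (.d k11 k8 k7 0 1))))), (.s k5 k10 2 (.s k21 k42 6 (.s k37 k53 3 (.s k26 k48 6 (.d k31 k16
  k47 2 3))))), (.s k1 k2 0 (.s k21 k42 6 (.s k41 k61 5 (.s k11 k7 1 (.s k26 k56 4 (.d k31 k16 k47 2
  3))))))] .n) (.c k60 (.q k15 [(.s k2 k1 0 (.s k10 k5 2 (.s k6 k14 1 (.s k9 k12 2 (.d k11 k8 k7 0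
  1))))), (.s k5 k10 2 (.s k21 k42 6 (.s k37 k53 3 (.s k26 k48 6 (.d k31 k16 k47 2 3))))), (.s k7
  k11 1 (.s k23 k43 5 (.s k39 k55 3 (.s k27 k51 5 (.d k31 k19 k47 1 3)))))] .n) (.c k61 (.l (.s k2
  k1 0 (.s k43 k23 5 (.s k42 k21 6 (.s k41 k40 0 (.d k22 k62 k60 5 6)))))) (.c k62 (.l (.s k1 k2 0
  (.s k23 k43 5 (.s k21 k42 6 (.s k22 k20 0 (.d k41 k61 k60 5 6)))))) .n)))))))))))))

def t149 : T TT 256 :=
  (.q k15 [(.s k10 k5 2 (.s k42 k21 6 (.s k26 k58 3 (.s k37 k48 6 (.d k47 k32 k31 2 3))))), (.s k5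
  k10 2 (.s k21 k42 6 (.s k37 k53 3 (.s k26 k48 6 (.d k31 k16 k47 2 3)))))] (.c k5 (.f k31 k47 3 (.q
  k3 [(.s k7 k11 1 (.s k23 k43 5 (.s k27 k19 1 (.d k39 k55 k51 3 5)))), (.s k1 k2 0 (.s k21 k42 6
  (.s k41 k61 5 (.s k22 k60 6 (.d k23 k20 k43 0 5))))), (.s k1 k2 0 (.s k21 k42 6 (.s k41 k61 5 (.s
  k11 k7 1 (.d k26 k16 k56 2 4)))))] (.c k128 (.q k191 [(.s k7 k11 1 (.s k23 k43 5 (.s k27 k19 1 (.d
  k39 k55 k51 3 5)))), (.s k1 k2 0 (.s k21 k42 6 (.s k41 k61 5 (.s k22 k60 6 (.d k23 k20 k43 0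
  5))))), (.s k1 k2 0 (.s k21 k42 6 (.s k41 k61 5 (.s k11 k7 1 (.d k26 k16 k56 2 4)))))] .n) (.c
  k191 (.q k128 [(.s k7 k11 1 (.s k23 k43 5 (.s k27 k19 1 (.d k39 k55 k51 3 5)))), (.s k1 k2 0 (.s
  k21 k42 6 (.s k41 k61 5 (.s k22 k60 6 (.d k23 k20 k43 0 5))))), (.s k1 k2 0 (.s k21 k42 6 (.s k41
  k61 5 (.s k11 k7 1 (.d k26 k16 k56 2 4)))))] .n) .n)))) (.c k10 (.f k31 k47 3 (.q k1 [(.s k21 k42
  6 (.s k41 k61 5 (.s k26 k16 2 (.s k11 k56 4 (.d k3 k2 k7 0 1))))), (.s k3 k2 0 (.s k7 k11 1 (.s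
  k23 k43 5 (.s k39 k55 3 (.d k27 k19 k51 1 5))))), (.s k21 k42 6 (.s k61 k41 5 (.s k26 k16 2 (.s
  k60 k62 0 (.s k30 k45 4 (.s k22 k18 1 (.d k20 k40 k23 5 0)))))))] (.c k2 (.l (.s k21 k42 6 (.s k41
  k61 5 (.s k26 k16 2 (.s k11 k56 4 (.s k3 k7 1 (.s k22 k60 6 (.d k23 k20 k43 0 5)))))))) (.c k90
  (.q k250 [(.s k21 k42 6 (.s k41 k61 5 (.s k26 k16 2 (.s k11 k56 4 (.d k3 k2 k7 0 1))))), (.s k3 k2
  0 (.s k7 k11 1 (.s k23 k43 5 (.s k39 k55 3 (.d k27 k19 k51 1 5))))), (.s k21 k42 6 (.s k61 k41 5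
  (.s k26 k16 2 (.s k60 k62 0 (.s k30 k45 4 (.s k22 k18 1 (.d k20 k40 k23 5 0)))))))] (.c k2 (.l (.s
  k21 k42 6 (.s k41 k61 5 (.s k26 k16 2 (.s k11 k56 4 (.s k3 k7 1 (.s k22 k60 6 (.d k23 k20 k43 0
  5)))))))) (.c k128 (.q k191 [(.s k21 k42 6 (.s k41 k61 5 (.s k26 k16 2 (.s k11 k56 4 (.d k3 k2 k7
  0 1))))), (.s k3 k2 0 (.s k7 k11 1 (.s k23 k43 5 (.s k39 k55 3 (.d k27 k19 k51 1 5))))), (.s k21
  k42 6 (.s k61 k41 5 (.s k26 k16 2 (.s k60 k62 0 (.s k30 k45 4 (.s k22 k18 1 (.d k20 k40 k23 5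
  0)))))))] (.c k2 (.l (.s k21 k42 6 (.s k41 k61 5 (.s k26 k16 2 (.s k11 k56 4 (.s k3 k7 1 (.s k22
  k60 6 (.d k23 k20 k43 0 5)))))))) .n)) (.c k191 (.q k128 [(.s k21 k42 6 (.s k41 k61 5 (.s k26 k16
  2 (.s k11 k56 4 (.d k3 k2 k7 0 1))))), (.s k3 k2 0 (.s k192 k64 7 (.s k129 k66 8 (.s k130 k131 0
  (.d k65 k193 k195 7 8))))), (.s k21 k42 6 (.s k61 k41 5 (.s k26 k16 2 (.s k60 k62 0 (.s k30 k45 4
  (.s k22 k18 1 (.d k20 k40 k23 5 0)))))))] (.c k2 (.l (.s k21 k42 6 (.s k41 k61 5 (.s k26 k16 2 (.s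
  k11 k56 4 (.s k3 k7 1 (.s k22 k60 6 (.d k23 k20 k43 0 5)))))))) .n)) .n)))) (.c k128 (.q k191 [(.s
  k21 k42 6 (.s k41 k61 5 (.s k26 k16 2 (.s k11 k56 4 (.d k3 k2 k7 0 1))))), (.s k3 k2 0 (.s k7 k11
  1 (.s k23 k43 5 (.s k39 k55 3 (.d k27 k19 k51 1 5))))), (.s k21 k42 6 (.s k61 k41 5 (.s k26 k16 2
  (.s k60 k62 0 (.s k30 k45 4 (.s k22 k18 1 (.d k20 k40 k23 5 0)))))))] (.c k2 (.l (.s k21 k42 6 (.s
  k41 k61 5 (.s k26 k16 2 (.s k11 k56 4 (.s k3 k7 1 (.s k22 k60 6 (.d k23 k20 k43 0 5)))))))) (.c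
  k90 (.q k250 [(.s k21 k42 6 (.s k41 k61 5 (.s k26 k16 2 (.s k11 k56 4 (.d k3 k2 k7 0 1))))), (.s
  k3 k2 0 (.s k7 k11 1 (.s k23 k43 5 (.s k39 k55 3 (.d k27 k19 k51 1 5))))), (.s k21 k42 6 (.s k61
  k41 5 (.s k26 k16 2 (.s k60 k62 0 (.s k30 k45 4 (.s k22 k18 1 (.d k20 k40 k23 5 0)))))))] (.c k2
  (.l (.s k21 k42 6 (.s k41 k61 5 (.s k26 k16 2 (.s k11 k56 4 (.s k3 k7 1 (.s k22 k60 6 (.d k23 k20
  k43 0 5)))))))) .n)) (.c k250 (.q k90 [(.s k255 k127 7 (.s k95 k175 11 (.s k80 k85 2 (.d k240 k160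
  k165 11 14)))), (.s k3 k2 0 (.s k7 k11 1 (.s k23 k43 5 (.s k39 k55 3 (.d k27 k19 k51 1 5)))))] .n)
  .n)))) (.c k191 (.q k128 [(.s k21 k42 6 (.s k41 k61 5 (.s k26 k16 2 (.s k11 k56 4 (.d k3 k2 k7 0
  1))))), (.s k3 k2 0 (.s k192 k64 7 (.s k129 k66 8 (.s k130 k131 0 (.d k65 k193 k195 7 8))))), (.s
  k21 k42 6 (.s k61 k41 5 (.s k26 k16 2 (.s k60 k62 0 (.s k30 k45 4 (.s k22 k18 1 (.d k20 k40 k23 5
  0)))))))] (.c k2 (.l (.s k21 k42 6 (.s k41 k61 5 (.s k26 k16 2 (.s k11 k56 4 (.s k3 k7 1 (.s k22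
  k60 6 (.d k23 k20 k43 0 5)))))))) (.c k90 (.q k250 [(.s k21 k42 6 (.s k41 k61 5 (.s k26 k16 2 (.s
  k11 k56 4 (.d k3 k2 k7 0 1))))), (.s k3 k2 0 (.s k192 k64 7 (.s k129 k66 8 (.s k130 k131 0 (.d k65
  k193 k195 7 8))))), (.s k21 k42 6 (.s k61 k41 5 (.s k26 k16 2 (.s k60 k62 0 (.s k30 k45 4 (.s k22
  k18 1 (.d k20 k40 k23 5 0)))))))] (.c k2 (.l (.s k21 k42 6 (.s k41 k61 5 (.s k26 k16 2 (.s k11 k56
  4 (.s k3 k7 1 (.s k22 k60 6 (.d k23 k20 k43 0 5)))))))) .n)) (.c k250 (.q k90 [(.s k192 k64 7 (.s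
  k74 k133 10 (.s k122 k106 3 (.d k240 k181 k165 10 14)))), (.s k3 k2 0 (.s k192 k64 7 (.s k129 k66
  8 (.s k65 k193 7 (.d k130 k131 k195 0 8))))), (.s k3 k2 0 (.s k21 k42 6 (.s k41 k61 5 (.s k11 k7 1
  (.d k26 k16 k56 2 4)))))] .n) .n)))) (.c k250 (.q k90 [(.s k21 k42 6 (.s k41 k61 5 (.s k26 k16 2
  (.s k11 k56 4 (.d k3 k2 k7 0 1))))), (.s k3 k2 0 (.s k7 k11 1 (.s k23 k43 5 (.s k39 k55 3 (.d k27
  k19 k51 1 5))))), (.s k21 k42 6 (.s k61 k41 5 (.s k240 k165 14 (.s k181 k122 10 (.s k241 k121 9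
  (.s k81 k161 11 (.d k243 k242 k162 0 12)))))))] (.c k128 (.q k191 [(.s k255 k127 7 (.s k95 k175 11
  (.s k80 k85 2 (.d k240 k160 k165 11 14)))), (.s k3 k2 0 (.s k7 k11 1 (.s k23 k43 5 (.s k39 k55 3
  (.d k27 k19 k51 1 5)))))] .n) (.c k191 (.q k128 [(.s k192 k64 7 (.s k74 k133 10 (.s k122 k106 3
  (.d k240 k181 k165 10 14)))), (.s k3 k2 0 (.s k192 k64 7 (.s k129 k66 8 (.s k65 k193 7 (.d k130
  k131 k195 0 8))))), (.s k3 k2 0 (.s k21 k42 6 (.s k41 k61 5 (.s k11 k7 1 (.d k26 k16 k56 2 4)))))]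
  .n) .n))) .n))))))) (.c k21 (.f k31 k47 3 (.q k7 [(.s k3 k11 1 (.s k23 k43 5 (.s k27 k19 1 (.d k39
  k55 k51 3 5)))), (.s k5 k10 2 (.s k4 k6 0 (.s k12 k8 1 (.s k29 k46 4 (.s k30 k28 0 (.s k45 k60 4
  (.d k13 k14 k61 0 3)))))))] (.c k11 (.q k3 [(.s k23 k43 5 (.s k27 k19 1 (.d k39 k55 k51 3 5))),
  (.s k1 k2 0 (.s k5 k10 2 (.s k9 k13 1 (.d k6 k4 k12 0 2))))] (.c k85 (.q k213 [(.s k23 k43 5 (.s
  k27 k19 1 (.d k39 k55 k51 3 5))), (.s k1 k2 0 (.s k5 k10 2 (.s k9 k13 1 (.d k6 k4 k12 0 2))))] (.c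
  k128 (.q k191 [(.s k23 k43 5 (.s k27 k19 1 (.d k39 k55 k51 3 5))), (.s k1 k2 0 (.s k5 k10 2 (.s k9
  k13 1 (.d k6 k4 k12 0 2))))] .n) (.c k191 (.q k128 [(.s k23 k43 5 (.s k27 k19 1 (.d k39 k55 k51 3
  5))), (.s k1 k2 0 (.s k5 k10 2 (.s k9 k13 1 (.d k6 k4 k12 0 2))))] .n) .n))) (.c k128 (.q k191
  [(.s k23 k43 5 (.s k27 k19 1 (.d k39 k55 k51 3 5))), (.s k1 k2 0 (.s k5 k10 2 (.s k9 k13 1 (.d k6
  k4 k12 0 2))))] (.c k85 (.q k213 [(.s k23 k43 5 (.s k27 k19 1 (.d k39 k55 k51 3 5))), (.s k1 k2 0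
  (.s k5 k10 2 (.s k9 k13 1 (.d k6 k4 k12 0 2))))] .n) (.c k213 (.q k85 [(.s k23 k43 5 (.s k27 k19 1
  (.d k39 k55 k51 3 5))), (.s k1 k2 0 (.s k5 k10 2 (.s k9 k13 1 (.d k6 k4 k12 0 2))))] .n) .n))) (.c
  k191 (.q k128 [(.s k23 k43 5 (.s k27 k19 1 (.d k39 k55 k51 3 5))), (.s k1 k2 0 (.s k5 k10 2 (.s k9
  k13 1 (.d k6 k4 k12 0 2))))] (.c k85 (.q k213 [(.s k23 k43 5 (.s k27 k19 1 (.d k39 k55 k51 3 5))),
  (.s k1 k2 0 (.s k5 k10 2 (.s k9 k13 1 (.d k6 k4 k12 0 2))))] .n) (.c k213 (.q k85 [(.s k23 k43 5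
  (.s k27 k19 1 (.d k39 k55 k51 3 5))), (.s k1 k2 0 (.s k5 k10 2 (.s k9 k13 1 (.d k6 k4 k12 0 2))))]
  .n) .n))) (.c k213 (.q k85 [(.s k23 k43 5 (.s k27 k19 1 (.d k39 k55 k51 3 5))), (.s k1 k2 0 (.s k5
  k10 2 (.s k9 k13 1 (.d k6 k4 k12 0 2))))] (.c k128 (.q k191 [(.s k23 k43 5 (.s k27 k19 1 (.d k39
  k55 k51 3 5))), (.s k1 k2 0 (.s k5 k10 2 (.s k9 k13 1 (.d k6 k4 k12 0 2))))] .n) (.c k191 (.q k128
  [(.s k23 k43 5 (.s k27 k19 1 (.d k39 k55 k51 3 5))), (.s k1 k2 0 (.s k5 k10 2 (.s k9 k13 1 (.d k6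
  k4 k12 0 2))))] .n) .n))) .n))))) (.c k85 (.q k213 [(.s k3 k11 1 (.s k23 k43 5 (.s k27 k19 1 (.d
  k39 k55 k51 3 5)))), (.s k5 k10 2 (.s k4 k6 0 (.s k12 k8 1 (.s k29 k46 4 (.s k30 k28 0 (.s k45 k60
  4 (.d k13 k14 k61 0 3)))))))] (.c k11 (.q k12 [(.s k4 k8 1 (.d k5 k10 k6 2 0)), (.s k13 k14 0 (.s
  k29 k46 4 (.s k45 k61 3 (.d k30 k28 k60 0 4))))] (.c k128 (.q k191 [(.s k4 k8 1 (.d k5 k10 k6 2
  0)), (.s k13 k14 0 (.s k29 k46 4 (.s k45 k61 3 (.d k30 k28 k60 0 4))))] .n) (.c k191 (.q k128 [(.s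
  k4 k8 1 (.d k5 k10 k6 2 0)), (.s k13 k14 0 (.s k29 k46 4 (.s k45 k61 3 (.d k30 k28 k60 0 4))))]
  .n) .n))) (.c k128 (.q k191 [(.s k3 k11 1 (.s k23 k43 5 (.s k27 k19 1 (.d k39 k55 k51 3 5)))), (.s
  k255 k127 7 (.s k192 k234 6 (.s k133 k74 10 (.s k196 k70 8 (.s k247 k230 4 (.s k167 k87 11 (.d
  k243 k251 k91 1 13)))))))] .n) (.c k191 (.q k128 [(.s k3 k11 1 (.s k23 k43 5 (.s k27 k19 1 (.d k39
  k55 k51 3 5)))), (.s k5 k10 2 (.s k192 k64 7 (.s k133 k74 10 (.s k69 k197 7 (.d k138 k143 k207 2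
  10)))))] .n) .n)))) (.c k128 (.q k191 [(.s k3 k11 1 (.s k23 k43 5 (.s k27 k19 1 (.d k39 k55 k51 3
  5)))), (.s k5 k10 2 (.s k4 k6 0 (.s k12 k8 1 (.s k29 k46 4 (.s k30 k28 0 (.s k45 k60 4 (.d k13 k14
  k61 0 3)))))))] (.c k11 (.q k12 [(.s k4 k8 1 (.d k5 k10 k6 2 0)), (.s k13 k14 0 (.s k29 k46 4 (.s
  k45 k61 3 (.d k30 k28 k60 0 4))))] (.c k85 (.q k213 [(.s k4 k8 1 (.d k5 k10 k6 2 0)), (.s k13 k14
  0 (.s k29 k46 4 (.s k45 k61 3 (.d k30 k28 k60 0 4))))] .n) (.c k213 (.q k85 [(.s k4 k8 1 (.d k5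
  k10 k6 2 0)), (.s k13 k14 0 (.s k29 k46 4 (.s k45 k61 3 (.d k30 k28 k60 0 4))))] .n) .n))) (.c k85
  (.q k213 [(.s k3 k11 1 (.s k23 k43 5 (.s k27 k19 1 (.d k39 k55 k51 3 5)))), (.s k255 k127 7 (.s
  k192 k234 6 (.s k133 k74 10 (.s k196 k70 8 (.s k247 k230 4 (.s k167 k87 11 (.d k243 k251 k91 1
  13)))))))] .n) (.c k213 (.q k85 [(.s k3 k11 1 (.s k23 k43 5 (.s k27 k19 1 (.d k39 k55 k51 3 5)))),
  (.s k5 k10 2 (.s k165 k245 11 (.s k90 k240 14 (.s k255 k127 7 (.d k95 k80 k175 2 11)))))] .n)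
  .n)))) (.c k191 (.q k128 [(.s k3 k11 1 (.s k23 k43 5 (.s k27 k19 1 (.d k39 k55 k51 3 5)))), (.s k5
  k10 2 (.s k192 k64 7 (.s k133 k74 10 (.s k69 k197 7 (.d k138 k143 k207 2 10)))))] (.c k85 (.q k213
  [(.s k3 k11 1 (.s k23 k43 5 (.s k27 k19 1 (.d k39 k55 k51 3 5)))), (.s k5 k10 2 (.s k192 k64 7 (.s
  k133 k74 10 (.s k69 k197 7 (.d k138 k143 k207 2 10)))))] .n) (.c k213 (.q k85 [(.s k3 k11 1 (.s
  k23 k43 5 (.s k27 k19 1 (.d k39 k55 k51 3 5)))), (.s k5 k10 2 (.s k192 k64 7 (.s k133 k74 10 (.s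
  k69 k197 7 (.d k138 k143 k207 2 10)))))] .n) .n))) (.c k213 (.q k85 [(.s k3 k11 1 (.s k23 k43 5
  (.s k27 k19 1 (.d k39 k55 k51 3 5)))), (.s k5 k10 2 (.s k4 k6 0 (.s k166 k247 12 (.s k165 k245 11
  (.s k244 k86 12 (.d k164 k167 k84 0 11))))))] (.c k23 (.l (.s k5 k10 2 (.s k3 k11 1 (.s k1 k2 0
  (.s k9 k13 1 (.d k6 k4 k12 0 2)))))) (.c k128 (.q k191 [(.s k3 k11 1 (.s k23 k43 5 (.s k27 k19 1
  (.d k39 k55 k51 3 5)))), (.s k5 k10 2 (.s k165 k245 11 (.s k90 k240 14 (.s k255 k127 7 (.d k95 k80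
  k175 2 11)))))] .n) (.c k191 (.q k128 [(.s k3 k11 1 (.s k23 k43 5 (.s k27 k19 1 (.d k39 k55 k51 3
  5)))), (.s k5 k10 2 (.s k192 k64 7 (.s k133 k74 10 (.s k69 k197 7 (.d k138 k143 k207 2 10)))))]
  .n) .n)))) .n))))))) (.c k26 (.f k31 k47 3 (.q k3 [(.s k23 k43 5 (.s k27 k19 1 (.s k39 k51 5 (.d
  k7 k11 k55 1 3)))), (.s k1 k2 0 (.s k21 k42 6 (.s k41 k61 5 (.s k22 k60 6 (.d k23 k20 k43 0
  5))))), (.s k1 k2 0 (.s k5 k10 2 (.s k9 k13 1 (.s k6 k12 2 (.d k7 k4 k11 0 1)))))] (.c k128 (.q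
  k191 [(.s k23 k43 5 (.s k27 k19 1 (.s k39 k51 5 (.d k7 k11 k55 1 3)))), (.s k1 k2 0 (.s k21 k42 6
  (.s k41 k61 5 (.s k22 k60 6 (.d k23 k20 k43 0 5))))), (.s k1 k2 0 (.s k5 k10 2 (.s k9 k13 1 (.s k6
  k12 2 (.d k7 k4 k11 0 1)))))] .n) (.c k191 (.q k128 [(.s k23 k43 5 (.s k27 k19 1 (.s k39 k51 5 (.d
  k7 k11 k55 1 3)))), (.s k1 k2 0 (.s k21 k42 6 (.s k41 k61 5 (.s k22 k60 6 (.d k23 k20 k43 0
  5))))), (.s k1 k2 0 (.s k5 k10 2 (.s k9 k13 1 (.s k6 k12 2 (.d k7 k4 k11 0 1)))))] .n) .n)))) (.c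
  k31 (.f k10 k5 2 (.q k3 [(.s k2 k1 0 (.s k6 k14 1 (.s k9 k12 2 (.d k11 k8 k7 0 1)))), (.s k1 k2 0
  (.s k21 k42 6 (.s k41 k61 5 (.s k22 k60 6 (.d k23 k20 k43 0 5))))), (.s k42 k21 6 (.s k11 k7 1 (.s
  k43 k23 5 (.s k26 k58 3 (.d k41 k40 k56 0 4)))))] (.c k90 (.q k208 [(.s k2 k1 0 (.s k6 k14 1 (.s
  k9 k12 2 (.d k11 k8 k7 0 1)))), (.s k1 k2 0 (.s k21 k42 6 (.s k41 k61 5 (.s k22 k60 6 (.d k23 k20
  k43 0 5))))), (.s k42 k21 6 (.s k11 k7 1 (.s k43 k23 5 (.s k26 k58 3 (.d k41 k40 k56 0 4)))))] (.c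
  k128 (.q k191 [(.s k2 k1 0 (.s k6 k14 1 (.s k9 k12 2 (.d k11 k8 k7 0 1)))), (.s k1 k2 0 (.s k21
  k42 6 (.s k41 k61 5 (.s k22 k60 6 (.d k23 k20 k43 0 5))))), (.s k42 k21 6 (.s k11 k7 1 (.s k43 k23
  5 (.s k26 k58 3 (.d k41 k40 k56 0 4)))))] .n) (.c k191 (.q k128 [(.s k2 k1 0 (.s k6 k14 1 (.s k9
  k12 2 (.d k11 k8 k7 0 1)))), (.s k1 k2 0 (.s k21 k42 6 (.s k41 k61 5 (.s k22 k60 6 (.d k23 k20 k43
  0 5))))), (.s k42 k21 6 (.s k11 k7 1 (.s k43 k23 5 (.s k26 k58 3 (.d k41 k40 k56 0 4)))))] .n)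
  .n))) (.c k128 (.q k191 [(.s k2 k1 0 (.s k6 k14 1 (.s k9 k12 2 (.d k11 k8 k7 0 1)))), (.s k1 k2 0
  (.s k21 k42 6 (.s k41 k61 5 (.s k22 k60 6 (.d k23 k20 k43 0 5))))), (.s k42 k21 6 (.s k11 k7 1 (.s
  k43 k23 5 (.s k26 k58 3 (.d k41 k40 k56 0 4)))))] (.c k90 (.q k208 [(.s k2 k1 0 (.s k6 k14 1 (.s
  k9 k12 2 (.d k11 k8 k7 0 1)))), (.s k1 k2 0 (.s k21 k42 6 (.s k41 k61 5 (.s k22 k60 6 (.d k23 k20
  k43 0 5))))), (.s k42 k21 6 (.s k11 k7 1 (.s k43 k23 5 (.s k26 k58 3 (.d k41 k40 k56 0 4)))))] .n)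
  (.c k208 (.q k90 [(.s k2 k1 0 (.s k6 k14 1 (.s k9 k12 2 (.d k11 k8 k7 0 1)))), (.s k255 k127 7 (.s
  k95 k175 11 (.s k80 k85 2 (.d k240 k160 k165 11 14))))] .n) .n))) (.c k191 (.q k128 [(.s k2 k1 0
  (.s k6 k14 1 (.s k9 k12 2 (.d k11 k8 k7 0 1)))), (.s k1 k2 0 (.s k21 k42 6 (.s k41 k61 5 (.s k22
  k60 6 (.d k23 k20 k43 0 5))))), (.s k42 k21 6 (.s k11 k7 1 (.s k43 k23 5 (.s k26 k58 3 (.d k41 k40
  k56 0 4)))))] (.c k90 (.q k208 [(.s k2 k1 0 (.s k6 k14 1 (.s k9 k12 2 (.d k11 k8 k7 0 1)))), (.s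
  k1 k2 0 (.s k21 k42 6 (.s k41 k61 5 (.s k22 k60 6 (.d k23 k20 k43 0 5))))), (.s k42 k21 6 (.s k11
  k7 1 (.s k43 k23 5 (.s k26 k58 3 (.d k41 k40 k56 0 4)))))] .n) (.c k208 (.q k90 [(.s k2 k1 0 (.s
  k6 k14 1 (.s k9 k12 2 (.d k11 k8 k7 0 1)))), (.s k192 k64 7 (.s k74 k133 10 (.s k122 k106 3 (.d
  k240 k181 k165 10 14))))] .n) .n))) (.c k208 (.q k90 [(.s k2 k1 0 (.s k6 k14 1 (.s k9 k12 2 (.d
  k11 k8 k7 0 1)))), (.s k1 k2 0 (.s k21 k42 6 (.s k41 k61 5 (.s k22 k60 6 (.d k23 k20 k43 0 5))))),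
  (.s k42 k21 6 (.s k11 k7 1 (.s k43 k23 5 (.s k26 k58 3 (.d k41 k40 k56 0 4)))))] (.c k128 (.q k191
  [(.s k2 k1 0 (.s k6 k14 1 (.s k9 k12 2 (.d k11 k8 k7 0 1)))), (.s k255 k127 7 (.s k95 k175 11 (.s
  k80 k85 2 (.d k240 k160 k165 11 14))))] .n) (.c k191 (.q k128 [(.s k2 k1 0 (.s k6 k14 1 (.s k9 k12
  2 (.d k11 k8 k7 0 1)))), (.s k192 k64 7 (.s k74 k133 10 (.s k122 k106 3 (.d k240 k181 k165 10
  14))))] .n) .n))) .n)))))) (.c k37 (.q k3 [(.s k7 k11 1 (.s k23 k43 5 (.s k39 k55 3 (.s k27 k51 5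
  (.d k31 k19 k47 1 3))))), (.s k1 k2 0 (.s k5 k10 2 (.s k9 k13 1 (.s k6 k12 2 (.d k7 k4 k11 0
  1))))), (.s k1 k2 0 (.s k21 k42 6 (.s k41 k61 5 (.s k22 k60 6 (.d k23 k20 k43 0 5)))))] (.c k128
  (.q k191 [(.s k7 k11 1 (.s k23 k43 5 (.s k39 k55 3 (.s k27 k51 5 (.d k31 k19 k47 1 3))))), (.s k1
  k2 0 (.s k5 k10 2 (.s k9 k13 1 (.s k6 k12 2 (.d k7 k4 k11 0 1))))), (.s k1 k2 0 (.s k21 k42 6 (.s
  k41 k61 5 (.s k22 k60 6 (.d k23 k20 k43 0 5)))))] .n) (.c k191 (.q k128 [(.s k2 k1 0 (.s k10 k5 2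
  (.s k6 k14 1 (.s k9 k12 2 (.d k11 k8 k7 0 1))))), (.s k5 k10 2 (.s k192 k64 7 (.s k133 k74 10 (.s
  k69 k197 7 (.d k138 k143 k207 2 10))))), (.s k1 k2 0 (.s k21 k42 6 (.s k41 k61 5 (.s k22 k60 6 (.d
  k23 k20 k43 0 5)))))] .n) .n))) (.c k42 (.q k2 [(.s k3 k1 0 (.s k10 k5 2 (.s k6 k14 1 (.s k9 k12 2
  (.d k11 k8 k7 0 1))))), (.s k3 k1 0 (.s k7 k11 1 (.s k23 k43 5 (.s k39 k55 3 (.s k27 k51 5 (.d k31
  k19 k47 1 3)))))), (.s k10 k5 2 (.s k14 k6 1 (.s k12 k13 0 (.s k46 k29 4 (.s k30 k62 3 (.s k45 k60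
  4 (.d k47 k44 k31 0 3)))))))] (.c k1 (.q k14 [(.d k10 k6 k5 1 2), (.s k12 k13 0 (.s k46 k29 4 (.s
  k30 k62 3 (.s k45 k60 4 (.d k47 k44 k31 0 3)))))] (.c k5 (.l (.s k6 k10 1 (.s k12 k13 0 (.s k9 k3
  2 (.s k46 k29 4 (.s k30 k62 3 (.s k45 k60 4 (.d k47 k44 k31 0 3)))))))) (.c k106 (.q k234 [(.d k10
  k6 k5 1 2), (.s k12 k13 0 (.s k46 k29 4 (.s k30 k62 3 (.s k45 k60 4 (.d k47 k44 k31 0 3)))))] (.c
  k5 (.l (.s k6 k10 1 (.s k12 k13 0 (.s k9 k3 2 (.s k46 k29 4 (.s k30 k62 3 (.s k45 k60 4 (.d k47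
  k44 k31 0 3)))))))) (.c k128 (.q k191 [(.d k10 k6 k5 1 2), (.s k47 k31 3 (.s k255 k127 7 (.s k175
  k95 11 (.s k111 k239 7 (.d k159 k143 k207 3 11)))))] .n) (.c k191 (.q k128 [(.d k10 k6 k5 1 2),
  (.s k192 k64 7 (.s k74 k133 10 (.s k194 k134 9 (.s k130 k66 7 (.d k195 k65 k193 8 0)))))] .n)
  .n)))) (.c k128 (.q k191 [(.d k10 k6 k5 1 2), (.s k47 k31 3 (.s k255 k127 7 (.s k175 k95 11 (.s
  k111 k239 7 (.d k159 k143 k207 3 11)))))] (.c k106 (.q k234 [(.d k10 k6 k5 1 2), (.s k47 k31 3 (.s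
  k255 k127 7 (.s k175 k95 11 (.s k111 k239 7 (.d k159 k143 k207 3 11)))))] .n) (.c k234 (.q k106
  [(.d k10 k6 k5 1 2), (.s k47 k31 3 (.s k255 k127 7 (.s k175 k95 11 (.s k111 k239 7 (.d k159 k143
  k207 3 11)))))] .n) .n))) (.c k191 (.q k128 [(.d k10 k6 k5 1 2), (.s k192 k64 7 (.s k74 k133 10
  (.s k194 k134 9 (.s k130 k66 7 (.d k195 k65 k193 8 0)))))] (.c k106 (.q k234 [(.d k10 k6 k5 1 2),
  (.s k192 k64 7 (.s k74 k133 10 (.s k194 k134 9 (.s k130 k66 7 (.d k195 k65 k193 8 0)))))] .n) (.c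
  k234 (.q k106 [(.d k10 k6 k5 1 2), (.s k192 k64 7 (.s k47 k31 3 (.s k74 k133 10 (.s k165 k224 10
  (.d k90 k122 k240 3 14)))))] .n) .n))) (.c k234 (.q k106 [(.d k10 k6 k5 1 2), (.s k47 k31 3 (.s
  k165 k224 10 (.s k90 k240 14 (.s k166 k242 13 (.s k46 k226 9 (.d k12 k13 k29 0 4))))))] (.c k128
  (.q k191 [(.d k10 k6 k5 1 2), (.s k47 k31 3 (.s k255 k127 7 (.s k175 k95 11 (.s k111 k239 7 (.d
  k159 k143 k207 3 11)))))] .n) (.c k191 (.q k128 [(.d k10 k6 k5 1 2), (.s k192 k64 7 (.s k47 k31 3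
  (.s k74 k133 10 (.s k165 k224 10 (.d k90 k122 k240 3 14)))))] .n) .n))) .n)))))) (.c k7 (.f k31
  k47 3 (.l (.s k1 k3 0 (.s k5 k10 2 (.s k13 k9 1 (.s k12 k14 0 (.s k29 k46 4 (.s k45 k61 3 (.d k30
  k28 k60 0 4))))))))) (.c k106 (.q k234 [(.s k3 k1 0 (.s k10 k5 2 (.s k6 k14 1 (.s k9 k12 2 (.d k11
  k8 k7 0 1))))), (.s k3 k1 0 (.s k7 k11 1 (.s k23 k43 5 (.s k39 k55 3 (.s k27 k51 5 (.d k31 k19 k47
  1 3)))))), (.s k10 k5 2 (.s k14 k6 1 (.s k12 k13 0 (.s k46 k29 4 (.s k30 k62 3 (.s k45 k60 4 (.d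
  k47 k44 k31 0 3)))))))] (.c k1 (.q k12 [(.s k10 k5 2 (.d k14 k13 k6 0 1)), (.s k13 k14 0 (.s k29
  k46 4 (.s k45 k61 3 (.s k30 k60 4 (.d k31 k28 k47 0 3)))))] (.c k13 (.l (.s k8 k4 1 (.s k10 k5 2
  (.s k9 k11 0 (.d k6 k14 k3 1 2))))) (.c k14 (.q k60 [(.s k28 k44 3 (.s k30 k45 4 (.d k29 k46 k31 4
  0))), (.s k4 k8 1 (.s k5 k10 2 (.s k20 k40 5 (.s k7 k6 0 (.s k52 k36 3 (.s k22 k37 4 (.d k3 k11
  k41 1 6))))))), (.s k4 k8 1 (.s k20 k40 5 (.s k36 k52 3 (.s k24 k48 5 (.s k29 k46 4 (.s k28 k16 1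
  (.d k30 k31 k45 0 4)))))))] (.c k128 (.q k191 [(.s k28 k44 3 (.s k30 k45 4 (.d k29 k46 k31 4 0))),
  (.s k46 k29 4 (.s k255 k127 7 (.s k174 k93 12 (.s k110 k238 7 (.d k157 k140 k204 4 12))))), (.s k4
  k8 1 (.s k20 k40 5 (.s k36 k52 3 (.s k24 k48 5 (.d k28 k16 k44 1 3)))))] .n) (.c k191 (.q k128
  [(.s k28 k44 3 (.s k30 k45 4 (.d k29 k46 k31 4 0))), (.s k4 k8 1 (.s k192 k64 7 (.s k132 k72 9 (.s
  k68 k196 7 (.d k136 k140 k204 1 9)))))] .n) .n))) (.c k128 (.q k191 [(.s k10 k5 2 (.d k14 k13 k6 0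
  1)), (.s k46 k29 4 (.s k255 k127 7 (.s k174 k93 12 (.s k110 k238 7 (.d k157 k140 k204 4 12)))))]
  .n) (.c k191 (.q k128 [(.s k10 k5 2 (.d k14 k13 k6 0 1)), (.s k4 k8 1 (.s k192 k64 7 (.s k132 k72
  9 (.s k68 k196 7 (.d k136 k140 k204 1 9)))))] .n) .n))))) (.c k7 (.f k5 k10 2 (.l (.s k1 k3 0 (.s
  k13 k9 1 (.s k12 k14 0 (.s k29 k46 4 (.s k45 k61 3 (.s k30 k60 4 (.d k31 k28 k47 0 3))))))))) (.c
  k128 (.q k191 [(.s k3 k1 0 (.s k10 k5 2 (.s k6 k14 1 (.s k9 k12 2 (.d k11 k8 k7 0 1))))), (.s k47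
  k31 3 (.s k255 k127 7 (.s k175 k95 11 (.s k111 k239 7 (.d k159 k143 k207 3 11)))))] .n) (.c k191
  (.q k128 [(.s k3 k1 0 (.s k10 k5 2 (.s k6 k14 1 (.s k9 k12 2 (.d k11 k8 k7 0 1))))), (.s k5 k10 2
  (.s k192 k64 7 (.s k133 k74 10 (.s k69 k197 7 (.d k138 k143 k207 2 10))))), (.s k3 k1 0 (.s k192
  k64 7 (.s k7 k11 1 (.s k133 k74 10 (.s k70 k196 8 (.d k138 k143 k206 2 9))))))] .n) .n))))) (.c
  k128 (.q k191 [(.s k3 k1 0 (.s k10 k5 2 (.s k6 k14 1 (.s k9 k12 2 (.d k11 k8 k7 0 1))))), (.s k47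
  k31 3 (.s k255 k127 7 (.s k175 k95 11 (.s k111 k239 7 (.d k159 k143 k207 3 11)))))] (.c k106 (.q
  k234 [(.s k3 k1 0 (.s k10 k5 2 (.s k6 k14 1 (.s k9 k12 2 (.d k11 k8 k7 0 1))))), (.s k47 k31 3 (.s
  k255 k127 7 (.s k175 k95 11 (.s k111 k239 7 (.d k159 k143 k207 3 11)))))] .n) (.c k234 (.q k106
  [(.s k3 k1 0 (.s k10 k5 2 (.s k6 k14 1 (.s k9 k12 2 (.d k11 k8 k7 0 1))))), (.s k47 k31 3 (.s k255
  k127 7 (.s k175 k95 11 (.s k111 k239 7 (.d k159 k143 k207 3 11)))))] .n) .n))) (.c k191 (.q k128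
  [(.s k3 k1 0 (.s k10 k5 2 (.s k6 k14 1 (.s k9 k12 2 (.d k11 k8 k7 0 1))))), (.s k5 k10 2 (.s k192
  k64 7 (.s k133 k74 10 (.s k69 k197 7 (.d k138 k143 k207 2 10))))), (.s k3 k1 0 (.s k192 k64 7 (.s
  k7 k11 1 (.s k133 k74 10 (.s k70 k196 8 (.d k138 k143 k206 2 9))))))] (.c k106 (.q k234 [(.s k3 k1
  0 (.s k10 k5 2 (.s k6 k14 1 (.s k9 k12 2 (.d k11 k8 k7 0 1))))), (.s k5 k10 2 (.s k192 k64 7 (.s
  k133 k74 10 (.s k69 k197 7 (.d k138 k143 k207 2 10))))), (.s k3 k1 0 (.s k192 k64 7 (.s k7 k11 1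
  (.s k133 k74 10 (.s k70 k196 8 (.d k138 k143 k206 2 9))))))] .n) (.c k234 (.q k106 [(.s k3 k1 0
  (.s k10 k5 2 (.s k6 k14 1 (.s k9 k12 2 (.d k11 k8 k7 0 1))))), (.s k192 k64 7 (.s k47 k31 3 (.s
  k74 k133 10 (.s k165 k224 10 (.d k90 k122 k240 3 14)))))] .n) .n))) (.c k234 (.q k106 [(.s k3 k1 0
  (.s k10 k5 2 (.s k6 k14 1 (.s k9 k12 2 (.d k11 k8 k7 0 1))))), (.s k3 k1 0 (.s k43 k23 5 (.s k47
  k31 3 (.s k169 k232 8 (.s k165 k224 10 (.s k161 k173 1 (.d k240 k90 k82 14 12)))))))] (.c k1 (.f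
  k5 k10 2 (.l (.s k47 k31 3 (.s k165 k224 10 (.s k85 k245 11 (.s k90 k240 14 (.s k64 k127 6 (.s k74
  k122 3 (.d k192 k128 k133 7 10))))))))) (.c k3 (.l (.s k10 k5 2 (.s k14 k6 1 (.s k12 k13 0 (.s k46
  k29 4 (.s k30 k62 3 (.s k45 k60 4 (.d k47 k44 k31 0 3)))))))) (.c k128 (.q k191 [(.s k3 k1 0 (.s
  k10 k5 2 (.s k6 k14 1 (.s k9 k12 2 (.d k11 k8 k7 0 1))))), (.s k47 k31 3 (.s k255 k127 7 (.s k175
  k95 11 (.s k111 k239 7 (.d k159 k143 k207 3 11)))))] .n) (.c k191 (.q k128 [(.s k3 k1 0 (.s k10 k5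
  2 (.s k6 k14 1 (.s k9 k12 2 (.d k11 k8 k7 0 1))))), (.s k192 k64 7 (.s k47 k31 3 (.s k74 k133 10
  (.s k165 k224 10 (.d k90 k122 k240 3 14)))))] .n) .n))))) .n))))))) (.c k47 (.q k3 [(.s k2 k1 0
  (.s k10 k5 2 (.s k6 k14 1 (.s k9 k12 2 (.d k11 k8 k7 0 1))))), (.s k1 k2 0 (.s k21 k42 6 (.s k41
  k61 5 (.s k22 k60 6 (.d k23 k20 k43 0 5))))), (.s k5 k10 2 (.s k21 k42 6 (.s k7 k11 1 (.s k23 k43
  5 (.s k37 k53 3 (.d k22 k20 k52 0 4))))))] (.c k128 (.q k191 [(.s k2 k1 0 (.s k10 k5 2 (.s k6 k14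
  1 (.s k9 k12 2 (.d k11 k8 k7 0 1))))), (.s k43 k23 5 (.s k255 k127 7 (.s k171 k87 13 (.s k107 k235
  7 (.d k151 k131 k195 5 13)))))] .n) (.c k191 (.q k128 [(.s k2 k1 0 (.s k10 k5 2 (.s k6 k14 1 (.s
  k9 k12 2 (.d k11 k8 k7 0 1))))), (.s k5 k10 2 (.s k192 k64 7 (.s k133 k74 10 (.s k69 k197 7 (.d
  k138 k143 k207 2 10))))), (.s k1 k2 0 (.s k21 k42 6 (.s k41 k61 5 (.s k22 k60 6 (.d k23 k20 k43 0
  5)))))] .n) .n))) (.c k48 (.f k31 k47 3 (.q k3 [(.s k7 k11 1 (.s k23 k43 5 (.s k27 k19 1 (.d k39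
  k55 k51 3 5)))), (.s k1 k2 0 (.s k21 k42 6 (.s k41 k61 5 (.s k22 k60 6 (.d k23 k20 k43 0 5))))),
  (.s k1 k2 0 (.s k5 k10 2 (.s k9 k13 1 (.s k6 k12 2 (.d k7 k4 k11 0 1)))))] (.c k128 (.q k191 [(.s
  k7 k11 1 (.s k23 k43 5 (.s k27 k19 1 (.d k39 k55 k51 3 5)))), (.s k1 k2 0 (.s k21 k42 6 (.s k41
  k61 5 (.s k22 k60 6 (.d k23 k20 k43 0 5))))), (.s k1 k2 0 (.s k5 k10 2 (.s k9 k13 1 (.s k6 k12 2
  (.d k7 k4 k11 0 1)))))] .n) (.c k191 (.q k128 [(.s k7 k11 1 (.s k23 k43 5 (.s k27 k19 1 (.d k39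
  k55 k51 3 5)))), (.s k1 k2 0 (.s k21 k42 6 (.s k41 k61 5 (.s k22 k60 6 (.d k23 k20 k43 0 5))))),
  (.s k1 k2 0 (.s k5 k10 2 (.s k9 k13 1 (.s k6 k12 2 (.d k7 k4 k11 0 1)))))] .n) .n)))) (.c k53 (.l
  (.s k10 k5 2 (.s k47 k31 3 (.s k42 k21 6 (.s k37 k32 2 (.d k26 k58 k48 3 6)))))) (.c k58 (.l (.s
  k5 k10 2 (.s k31 k47 3 (.s k21 k42 6 (.s k26 k16 2 (.d k37 k53 k48 3 6)))))) (.c k128 (.q k191
  [(.s k10 k5 2 (.s k42 k21 6 (.s k26 k58 3 (.s k37 k48 6 (.d k47 k32 k31 2 3))))), (.s k47 k31 3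
  (.s k255 k127 7 (.s k175 k95 11 (.s k111 k239 7 (.d k159 k143 k207 3 11)))))] (.c k31 (.q k3 [(.s
  k2 k1 0 (.s k10 k5 2 (.s k6 k14 1 (.s k9 k12 2 (.d k11 k8 k7 0 1))))), (.s k43 k23 5 (.s k255 k127
  7 (.s k171 k87 13 (.s k107 k235 7 (.d k151 k131 k195 5 13)))))] (.c k90 (.q k208 [(.s k2 k1 0 (.s
  k10 k5 2 (.s k6 k14 1 (.s k9 k12 2 (.d k11 k8 k7 0 1))))), (.s k43 k23 5 (.s k255 k127 7 (.s k171
  k87 13 (.s k107 k235 7 (.d k151 k131 k195 5 13)))))] (.c k10 (.q k250 [(.s k2 k1 0 (.s k42 k21 6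
  (.s k22 k62 5 (.s k41 k60 6 (.d k43 k40 k23 0 5))))), (.s k7 k11 1 (.s k255 k127 7 (.s k87 k171 13
  (.s k167 k247 11 (.s k91 k243 13 (.d k95 k83 k175 1 11))))))] .n) (.c k250 (.l (.s k10 k5 2 (.s k2
  k1 0 (.s k6 k14 1 (.s k9 k12 2 (.d k11 k8 k7 0 1)))))) .n))) (.c k208 (.q k90 [(.s k255 k127 7 (.s
  k95 k175 11 (.s k80 k85 2 (.d k240 k160 k165 11 14)))), (.s k1 k2 0 (.s k5 k10 2 (.s k9 k13 1 (.s
  k6 k12 2 (.d k7 k4 k11 0 1)))))] .n) .n))) (.c k32 (.l (.s k5 k10 2 (.s k21 k42 6 (.s k37 k53 3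
  (.s k26 k48 6 (.d k31 k47 k16 3 2)))))) (.c k47 (.q k3 [(.s k2 k1 0 (.s k10 k5 2 (.s k6 k14 1 (.s
  k9 k12 2 (.d k11 k8 k7 0 1))))), (.s k43 k23 5 (.s k255 k127 7 (.s k171 k87 13 (.s k107 k235 7 (.d
  k151 k131 k195 5 13)))))] .n) .n)))) (.c k191 (.q k128 [(.s k10 k5 2 (.s k42 k21 6 (.s k26 k58 3
  (.s k37 k48 6 (.d k47 k32 k31 2 3))))), (.s k5 k10 2 (.s k192 k64 7 (.s k133 k74 10 (.s k138 k143
  2 (.d k69 k197 k207 7 10)))))] (.c k5 (.q k3 [(.s k7 k11 1 (.s k23 k43 5 (.s k39 k55 3 (.s k27 k51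
  5 (.d k31 k19 k47 1 3))))), (.s k1 k2 0 (.s k192 k64 7 (.s k129 k66 8 (.s k65 k193 7 (.d k130 k131
  k195 0 8)))))] .n) (.c k10 (.f k31 k47 3 (.q k3 [(.s k23 k43 5 (.s k27 k19 1 (.s k39 k51 5 (.d k7
  k11 k55 1 3)))), (.s k1 k2 0 (.s k21 k42 6 (.s k41 k61 5 (.s k22 k60 6 (.d k23 k20 k43 0 5))))),
  (.s k1 k2 0 (.s k21 k42 6 (.s k41 k61 5 (.s k11 k7 1 (.d k26 k16 k56 2 4)))))] (.c k90 (.q k250
  [(.s k23 k43 5 (.s k27 k19 1 (.s k39 k51 5 (.d k7 k11 k55 1 3)))), (.s k1 k2 0 (.s k21 k42 6 (.s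
  k41 k61 5 (.s k22 k60 6 (.d k23 k20 k43 0 5))))), (.s k1 k2 0 (.s k21 k42 6 (.s k41 k61 5 (.s k11
  k7 1 (.d k26 k16 k56 2 4)))))] .n) (.c k250 (.q k90 [(.s k192 k64 7 (.s k74 k133 10 (.s k122 k106
  3 (.d k240 k181 k165 10 14)))), (.s k7 k11 1 (.s k23 k43 5 (.s k39 k55 3 (.d k27 k19 k51 1 5))))]
  .n) .n)))) .n))) .n))))))))))))))

def t150 : T TT 256 :=
  (.q k48 [(.s k32 k16 3 (.s k42 k21 6 (.s k37 k47 2 (.s k26 k15 6 (.d k58 k53 k10 2 3)))))] (.c k10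
  (.l (.s k16 k32 3 (.s k21 k42 6 (.s k26 k31 2 (.s k37 k15 6 (.d k53 k58 k5 2 3)))))) (.c k15 (.f
  k53 k58 2 (.f k42 k21 6 (.q k51 [(.s k34 k17 4 (.s k38 k46 1 (.s k59 k55 1 (.d k25 k8 k12 4 6)))),
  (.s k49 k50 0 (.s k57 k61 1 (.s k54 k60 2 (.d k55 k52 k59 0 1)))), (.s k16 k32 3 (.s k17 k34 4 (.s
  k18 k19 0 (.s k33 k3 4 (.d k49 k50 k1 0 3)))))] (.c k130 (.q k190 [(.s k34 k17 4 (.s k38 k46 1 (.s
  k59 k55 1 (.d k25 k8 k12 4 6)))), (.s k49 k50 0 (.s k57 k61 1 (.s k54 k60 2 (.d k55 k52 k59 0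
  1)))), (.s k16 k32 3 (.s k17 k34 4 (.s k18 k19 0 (.s k33 k3 4 (.d k49 k50 k1 0 3)))))] .n) (.c
  k190 (.q k130 [(.s k34 k17 4 (.s k38 k46 1 (.s k59 k55 1 (.d k25 k8 k12 4 6)))), (.s k49 k50 0 (.s
  k57 k61 1 (.s k54 k60 2 (.d k55 k52 k59 0 1)))), (.s k16 k32 3 (.s k17 k34 4 (.s k18 k19 0 (.s k33
  k3 4 (.d k49 k50 k1 0 3)))))] .n) .n))))) (.c k16 (.f k53 k58 2 (.q k51 [(.s k49 k50 0 (.s k57 k61
  1 (.s k55 k59 1 (.d k54 k52 k60 0 2)))), (.s k17 k34 4 (.s k21 k42 6 (.s k25 k29 1 (.s k38 k12 6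
  (.d k55 k59 k4 1 4))))), (.s k17 k34 4 (.s k21 k42 6 (.s k37 k5 3 (.s k25 k29 1 (.d k49 k50 k13 0
  5)))))] (.c k130 (.q k190 [(.s k49 k50 0 (.s k57 k61 1 (.s k55 k59 1 (.d k54 k52 k60 0 2)))), (.s
  k17 k34 4 (.s k21 k42 6 (.s k25 k29 1 (.s k38 k12 6 (.d k55 k59 k4 1 4))))), (.s k17 k34 4 (.s k21
  k42 6 (.s k37 k5 3 (.s k25 k29 1 (.d k49 k50 k13 0 5)))))] .n) (.c k190 (.q k130 [(.s k49 k50 0
  (.s k57 k61 1 (.s k55 k59 1 (.d k54 k52 k60 0 2)))), (.s k17 k34 4 (.s k21 k42 6 (.s k25 k29 1 (.s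
  k38 k12 6 (.d k55 k59 k4 1 4))))), (.s k17 k34 4 (.s k21 k42 6 (.s k37 k5 3 (.s k25 k29 1 (.d k49
  k50 k13 0 5)))))] .n) .n)))) (.c k21 (.q k192 [(.s k16 k32 3 (.s k128 k64 7 (.s k144 k96 11 (.s
  k80 k208 7 (.d k160 k176 k240 3 11))))), (.s k53 k58 2 (.s k144 k96 11 (.s k149 k106 14 (.s k101
  k197 11 (.d k154 k159 k207 2 14))))), (.s k16 k32 3 (.s k58 k53 2 (.s k106 k149 14 (.s k154 k202
  11 (.s k85 k223 10 (.d k64 k128 k127 7 6))))))] (.c k101 (.l (.s k32 k16 3 (.s k64 k128 7 (.s k96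
  k144 11 (.s k160 k224 7 (.d k80 k112 k240 3 11)))))) (.c k130 (.q k190 [(.s k16 k32 3 (.s k128 k64
  7 (.s k144 k96 11 (.s k80 k208 7 (.d k160 k176 k240 3 11))))), (.s k53 k58 2 (.s k144 k96 11 (.s
  k149 k106 14 (.s k101 k197 11 (.d k154 k159 k207 2 14))))), (.s k16 k32 3 (.s k58 k53 2 (.s k106
  k149 14 (.s k154 k202 11 (.s k85 k223 10 (.d k64 k128 k127 7 6))))))] (.c k101 (.l (.s k32 k16 3
  (.s k64 k128 7 (.s k96 k144 11 (.s k160 k224 7 (.d k80 k112 k240 3 11)))))) .n)) (.c k190 (.q k130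
  [(.s k16 k32 3 (.s k128 k64 7 (.s k144 k96 11 (.s k80 k208 7 (.d k160 k176 k240 3 11))))), (.s k64
  k128 7 (.s k65 k195 8 (.s k66 k67 0 (.s k2 k194 7 (.d k3 k1 k129 0 8))))), (.s k16 k32 3 (.s k195
  k65 8 (.s k146 k97 12 (.s k81 k211 8 (.d k162 k178 k243 3 12)))))] .n) .n)))) (.c k26 (.q k192
  [(.s k16 k32 3 (.s k128 k64 7 (.s k144 k96 11 (.s k80 k208 7 (.d k160 k176 k240 3 11))))), (.s k53
  k58 2 (.s k144 k96 11 (.s k149 k106 14 (.s k101 k197 11 (.d k154 k159 k207 2 14))))), (.s k16 k32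
  3 (.s k58 k53 2 (.s k106 k149 14 (.s k154 k202 11 (.s k85 k223 10 (.d k64 k128 k127 7 6))))))] (.c
  k101 (.l (.s k32 k16 3 (.s k64 k128 7 (.s k96 k144 11 (.s k160 k224 7 (.d k80 k112 k240 3 11))))))
  (.c k130 (.q k190 [(.s k16 k32 3 (.s k128 k64 7 (.s k144 k96 11 (.s k80 k208 7 (.d k160 k176 k240
  3 11))))), (.s k53 k58 2 (.s k144 k96 11 (.s k149 k106 14 (.s k101 k197 11 (.d k154 k159 k207 2
  14))))), (.s k16 k32 3 (.s k58 k53 2 (.s k106 k149 14 (.s k154 k202 11 (.s k85 k223 10 (.d k64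
  k128 k127 7 6))))))] (.c k101 (.l (.s k32 k16 3 (.s k64 k128 7 (.s k96 k144 11 (.s k160 k224 7 (.d
  k80 k112 k240 3 11)))))) .n)) (.c k190 (.q k130 [(.s k16 k32 3 (.s k128 k64 7 (.s k144 k96 11 (.s
  k80 k208 7 (.d k160 k176 k240 3 11))))), (.s k64 k128 7 (.s k65 k195 8 (.s k66 k67 0 (.s k2 k194 7
  (.d k3 k1 k129 0 8))))), (.s k16 k32 3 (.s k195 k65 8 (.s k146 k97 12 (.s k81 k211 8 (.d k162 k178
  k243 3 12)))))] .n) .n)))) (.c k31 (.l (.s k32 k16 3 (.s k58 k53 2 (.s k42 k21 6 (.s k26 k10 3 (.d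
  k37 k47 k15 2 6)))))) (.c k32 (.q k101 [(.s k53 k58 2 (.s k154 k207 14 (.s k149 k197 11 (.s k144
  k159 2 (.d k192 k96 k106 11 14))))), (.s k21 k42 6 (.s k53 k58 2 (.s k149 k197 11 (.s k85 k213 7
  (.s k117 k69 3 (.s k245 k181 7 (.d k5 k37 k165 3 11))))))), (.s k21 k42 6 (.s k207 k154 14 (.s
  k111 k159 11 (.s k106 k96 2 (.s k149 k192 14 (.s k85 k213 7 (.d k69 k138 k117 10 3)))))))] (.c
  k106 (.f k42 k21 6 (.l (.s k58 k53 2 (.s k26 k10 3 (.s k154 k207 14 (.s k90 k218 7 (.s k112 k79 6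
  (.s k240 k176 7 (.d k15 k37 k165 6 14))))))))) (.c k130 (.q k190 [(.s k53 k58 2 (.s k154 k207 14
  (.s k149 k197 11 (.s k144 k159 2 (.d k192 k96 k106 11 14))))), (.s k21 k42 6 (.s k53 k58 2 (.s
  k149 k197 11 (.s k85 k213 7 (.s k117 k69 3 (.s k245 k181 7 (.d k5 k37 k165 3 11))))))), (.s k21
  k42 6 (.s k207 k154 14 (.s k111 k159 11 (.s k106 k96 2 (.s k149 k192 14 (.s k85 k213 7 (.d k69
  k138 k117 10 3)))))))] (.c k106 (.f k42 k21 6 (.l (.s k58 k53 2 (.s k26 k10 3 (.s k154 k207 14 (.s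
  k90 k218 7 (.s k112 k79 6 (.s k240 k176 7 (.d k15 k37 k165 6 14))))))))) (.c k149 (.f k42 k21 6
  (.l (.s k58 k53 2 (.s k26 k10 3 (.s k154 k207 14 (.s k90 k218 7 (.s k112 k79 6 (.s k240 k176 7 (.d
  k15 k37 k165 6 14))))))))) .n))) (.c k149 (.f k42 k21 6 (.l (.s k58 k53 2 (.s k26 k10 3 (.s k154
  k207 14 (.s k90 k218 7 (.s k112 k79 6 (.s k240 k176 7 (.d k15 k37 k165 6 14))))))))) (.c k190 (.q
  k130 [(.s k53 k58 2 (.s k154 k207 14 (.s k149 k197 11 (.s k144 k159 2 (.d k192 k96 k106 11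
  14))))), (.s k195 k65 8 (.s k207 k154 14 (.s k138 k69 10 (.s k134 k142 1 (.s k73 k12 10 (.d k203
  k199 k8 1 8)))))), (.s k21 k42 6 (.s k53 k58 2 (.s k149 k197 11 (.s k85 k213 7 (.s k117 k69 3 (.s
  k245 k181 7 (.d k5 k37 k165 3 11)))))))] .n) .n))))) (.c k37 (.f k53 k58 2 (.f k42 k21 6 (.q k51
  [(.s k34 k17 4 (.s k38 k46 1 (.s k25 k12 6 (.d k59 k55 k8 1 4)))), (.s k49 k50 0 (.s k57 k61 1 (.s
  k54 k60 2 (.d k55 k52 k59 0 1)))), (.s k16 k32 3 (.s k17 k34 4 (.s k18 k19 0 (.s k33 k3 4 (.d k49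
  k50 k1 0 3)))))] (.c k130 (.q k190 [(.s k34 k17 4 (.s k38 k46 1 (.s k25 k12 6 (.d k59 k55 k8 1
  4)))), (.s k49 k50 0 (.s k57 k61 1 (.s k54 k60 2 (.d k55 k52 k59 0 1)))), (.s k16 k32 3 (.s k17
  k34 4 (.s k18 k19 0 (.s k33 k3 4 (.d k49 k50 k1 0 3)))))] .n) (.c k190 (.q k130 [(.s k34 k17 4 (.s
  k38 k46 1 (.s k25 k12 6 (.d k59 k55 k8 1 4)))), (.s k49 k50 0 (.s k57 k61 1 (.s k54 k60 2 (.d k55
  k52 k59 0 1)))), (.s k16 k32 3 (.s k17 k34 4 (.s k18 k19 0 (.s k33 k3 4 (.d k49 k50 k1 0 3)))))]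
  .n) .n))))) (.c k42 (.f k58 k53 2 (.q k106 [(.s k154 k202 11 (.s k101 k207 14 (.s k96 k111 2 (.d
  k192 k144 k149 11 14)))), (.s k16 k32 3 (.s k154 k202 11 (.s k85 k223 10 (.s k127 k64 6 (.s k255
  k191 7 (.s k117 k186 10 (.d k101 k69 k207 3 14))))))), (.s k16 k32 3 (.s k192 k149 14 (.s k128 k64
  7 (.s k144 k96 11 (.s k80 k208 7 (.d k160 k176 k240 3 11))))))] (.c k101 (.f k202 k154 11 (.l (.s
  k192 k149 14 (.s k197 k207 2 (.s k128 k64 7 (.s k144 k96 11 (.s k160 k176 3 (.s k80 k240 11 (.d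
  k16 k32 k208 3 7))))))))) (.c k130 (.q k190 [(.s k154 k202 11 (.s k101 k207 14 (.s k96 k111 2 (.d
  k192 k144 k149 11 14)))), (.s k16 k32 3 (.s k154 k202 11 (.s k85 k223 10 (.s k127 k64 6 (.s k255
  k191 7 (.s k117 k186 10 (.d k101 k69 k207 3 14))))))), (.s k16 k32 3 (.s k192 k149 14 (.s k128 k64
  7 (.s k144 k96 11 (.s k80 k208 7 (.d k160 k176 k240 3 11))))))] (.c k101 (.f k202 k154 11 (.l (.s
  k192 k149 14 (.s k197 k207 2 (.s k128 k64 7 (.s k144 k96 11 (.s k160 k176 3 (.s k80 k240 11 (.d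
  k16 k32 k208 3 7))))))))) (.c k149 (.l (.s k16 k32 3 (.s k154 k202 11 (.s k85 k223 10 (.s k101
  k207 14 (.s k64 k127 6 (.s k96 k111 2 (.d k192 k128 k144 7 11)))))))) .n))) (.c k149 (.l (.s k16
  k32 3 (.s k154 k202 11 (.s k85 k223 10 (.s k101 k207 14 (.s k64 k127 6 (.s k96 k111 2 (.d k192
  k128 k144 7 11)))))))) (.c k190 (.q k130 [(.s k154 k202 11 (.s k101 k207 14 (.s k96 k111 2 (.d
  k192 k144 k149 11 14)))), (.s k195 k65 8 (.s k146 k97 12 (.s k162 k178 3 (.s k81 k243 12 (.d k16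
  k32 k211 3 8)))))] .n) .n)))))) (.c k47 (.l (.s k16 k32 3 (.s k53 k58 2 (.s k21 k42 6 (.s k37 k5 3
  (.d k26 k31 k15 2 6)))))) (.c k53 (.q k51 [(.s k32 k16 3 (.s k34 k17 4 (.s k33 k35 0 (.s k18 k3 4
  (.d k50 k49 k2 0 3))))), (.s k17 k34 4 (.s k21 k42 6 (.s k25 k29 1 (.s k38 k12 6 (.d k55 k59 k4 1
  4))))), (.s k16 k32 3 (.s k21 k42 6 (.s k26 k31 2 (.s k50 k49 0 (.s k38 k14 5 (.d k55 k59 k4 1
  4))))))] (.c k130 (.q k190 [(.s k32 k16 3 (.s k34 k17 4 (.s k33 k35 0 (.s k18 k3 4 (.d k50 k49 k2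
  0 3))))), (.s k17 k34 4 (.s k21 k42 6 (.s k25 k29 1 (.s k38 k12 6 (.d k55 k59 k4 1 4))))), (.s k16
  k32 3 (.s k21 k42 6 (.s k26 k31 2 (.s k50 k49 0 (.s k38 k14 5 (.d k55 k59 k4 1 4))))))] .n) (.c
  k190 (.q k130 [(.s k32 k16 3 (.s k34 k17 4 (.s k33 k35 0 (.s k18 k3 4 (.d k50 k49 k2 0 3))))), (.s
  k16 k32 3 (.s k195 k65 8 (.s k146 k97 12 (.s k81 k211 8 (.d k162 k178 k243 3 12))))), (.s k17 k34
  4 (.s k21 k42 6 (.s k25 k29 1 (.s k38 k12 6 (.d k55 k59 k4 1 4)))))] .n) .n))) (.c k58 (.f k42 k21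
  6 (.q k51 [(.s k34 k17 4 (.s k38 k46 1 (.s k25 k12 6 (.d k59 k55 k8 1 4)))), (.s k16 k32 3 (.s k17
  k34 4 (.s k18 k19 0 (.s k33 k3 4 (.d k49 k50 k1 0 3))))), (.s k32 k16 3 (.s k37 k47 2 (.s k49 k50
  0 (.s k25 k13 5 (.d k59 k55 k8 1 4)))))] (.c k130 (.q k190 [(.s k34 k17 4 (.s k38 k46 1 (.s k25
  k12 6 (.d k59 k55 k8 1 4)))), (.s k16 k32 3 (.s k17 k34 4 (.s k18 k19 0 (.s k33 k3 4 (.d k49 k50
  k1 0 3))))), (.s k32 k16 3 (.s k37 k47 2 (.s k49 k50 0 (.s k25 k13 5 (.d k59 k55 k8 1 4)))))] .n)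
  (.c k190 (.q k130 [(.s k34 k17 4 (.s k38 k46 1 (.s k25 k12 6 (.d k59 k55 k8 1 4)))), (.s k16 k32 3
  (.s k195 k65 8 (.s k146 k97 12 (.s k81 k211 8 (.d k162 k178 k243 3 12)))))] .n) .n)))) (.c k130
  (.q k190 [(.s k32 k16 3 (.s k42 k21 6 (.s k37 k47 2 (.s k26 k15 6 (.d k58 k53 k10 2 3)))))] (.c
  k10 (.l (.s k16 k32 3 (.s k21 k42 6 (.s k26 k31 2 (.s k37 k15 6 (.d k53 k58 k5 2 3)))))) (.c k15
  (.q k191 [(.s k58 k53 2 (.s k255 k127 7 (.s k186 k117 10 (.s k181 k176 2 (.d k122 k250 k240 7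
  10))))), (.s k16 k32 3 (.s k189 k188 0 (.s k252 k126 8 (.s k84 k168 13 (.s k152 k220 9 (.s k100
  k204 13 (.d k116 k68 k184 3 9)))))))] .n) (.c k16 (.q k51 [(.s k49 k50 0 (.s k53 k58 2 (.s k57 k61
  1 (.s k54 k60 2 (.d k55 k52 k59 0 1))))), (.s k17 k34 4 (.s k21 k42 6 (.s k25 k29 1 (.s k38 k12 6
  (.d k55 k59 k4 1 4))))), (.s k17 k34 4 (.s k21 k42 6 (.s k25 k29 1 (.s k49 k50 0 (.s k37 k13 5 (.d
  k53 k58 k5 2 3))))))] .n) (.c k21 (.q k191 [(.s k255 k127 7 (.s k186 k117 10 (.s k181 k176 2 (.s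
  k122 k240 10 (.d k58 k53 k250 2 7))))), (.s k16 k32 3 (.s k189 k188 0 (.s k252 k126 8 (.s k84 k168
  13 (.s k152 k220 9 (.s k100 k204 13 (.d k116 k68 k184 3 9)))))))] .n) (.c k26 (.q k191 [(.s k58
  k53 2 (.s k255 k127 7 (.s k186 k117 10 (.s k181 k176 2 (.d k122 k250 k240 7 10))))), (.s k16 k32 3
  (.s k189 k188 0 (.s k252 k126 8 (.s k84 k168 13 (.s k152 k220 9 (.s k100 k204 13 (.d k116 k68 k184
  3 9)))))))] .n) (.c k31 (.l (.s k32 k16 3 (.s k58 k53 2 (.s k42 k21 6 (.s k26 k10 3 (.d k37 k47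
  k15 2 6)))))) (.c k32 (.q k101 [(.s k53 k58 2 (.s k154 k207 14 (.s k149 k197 11 (.s k144 k159 2
  (.d k192 k96 k106 11 14))))), (.s k21 k42 6 (.s k53 k58 2 (.s k149 k197 11 (.s k85 k213 7 (.s k117
  k69 3 (.s k245 k181 7 (.d k5 k37 k165 3 11))))))), (.s k21 k42 6 (.s k207 k154 14 (.s k111 k159 11
  (.s k106 k96 2 (.s k149 k192 14 (.s k85 k213 7 (.d k69 k138 k117 10 3)))))))] (.c k106 (.f k42 k21
  6 (.l (.s k58 k53 2 (.s k26 k10 3 (.s k154 k207 14 (.s k90 k218 7 (.s k112 k79 6 (.s k240 k176 7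
  (.d k15 k37 k165 6 14))))))))) (.c k149 (.f k42 k21 6 (.l (.s k58 k53 2 (.s k26 k10 3 (.s k154
  k207 14 (.s k90 k218 7 (.s k112 k79 6 (.s k240 k176 7 (.d k15 k37 k165 6 14))))))))) .n))) (.c k37
  (.q k191 [(.s k255 k127 7 (.s k186 k117 10 (.s k181 k176 2 (.s k122 k240 10 (.d k58 k53 k250 2
  7))))), (.s k16 k32 3 (.s k189 k188 0 (.s k252 k126 8 (.s k84 k168 13 (.s k152 k220 9 (.s k100
  k204 13 (.d k116 k68 k184 3 9)))))))] .n) (.c k42 (.q k106 [(.s k53 k58 2 (.s k149 k192 14 (.s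
  k101 k197 11 (.s k111 k96 2 (.d k207 k159 k154 11 14))))), (.s k16 k32 3 (.s k192 k149 14 (.s k128
  k64 7 (.s k144 k96 11 (.s k80 k208 7 (.d k160 k176 k240 3 11))))))] (.c k96 (.l (.s k58 k53 2 (.s
  k154 k202 11 (.s k207 k101 14 (.s k149 k192 14 (.d k159 k144 k111 2 11)))))) (.c k101 (.l (.s k32
  k16 3 (.s k192 k149 14 (.s k96 k144 11 (.s k160 k224 7 (.s k80 k240 11 (.d k64 k128 k112 7
  3))))))) (.c k149 (.q k191 [(.s k255 k127 7 (.s k186 k117 10 (.s k181 k176 2 (.s k122 k240 10 (.d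
  k58 k53 k250 2 7))))), (.s k16 k32 3 (.s k189 k188 0 (.s k252 k126 8 (.s k84 k168 13 (.s k152 k220
  9 (.s k100 k204 13 (.d k116 k68 k184 3 9)))))))] (.c k148 (.q k151 [(.s k58 k53 2 (.s k154 k202 11
  (.s k127 k255 7 (.s k85 k64 6 (.d k16 k32 k223 3 10))))), (.s k195 k107 13 (.s k146 k97 12 (.s
  k131 k171 5 (.s k176 k161 4 (.s k240 k112 7 (.d k181 k186 k122 2 10))))))] .n) (.c k151 (.q k148
  [(.s k127 k255 7 (.s k188 k189 0 (.s k128 k168 5 (.d k64 k85 k192 6 7)))), (.s k58 k53 2 (.s k255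
  k127 7 (.s k186 k117 10 (.s k122 k250 7 (.d k181 k176 k240 2 10))))), (.s k188 k189 0 (.s k168
  k128 5 (.s k252 k84 13 (.s k60 k124 7 (.s k40 k20 5 (.d k104 k232 k192 7 13))))))] .n) .n))) (.c
  k192 (.q k51 [(.s k32 k16 3 (.s k34 k17 4 (.s k33 k35 0 (.s k18 k3 4 (.d k50 k49 k2 0 3))))), (.s
  k58 k53 2 (.s k59 k55 1 (.s k154 k202 11 (.s k207 k101 14 (.s k155 k103 13 (.d k153 k152 k200 0
  12))))))] (.c k32 (.l (.s k49 k50 0 (.s k53 k58 2 (.s k57 k61 1 (.s k54 k60 2 (.d k55 k52 k59 0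
  1)))))) .n)) .n))))) (.c k47 (.l (.s k16 k32 3 (.s k53 k58 2 (.s k21 k42 6 (.s k37 k5 3 (.d k26
  k31 k15 2 6)))))) (.c k53 (.q k191 [(.s k255 k127 7 (.s k60 k125 8 (.s k189 k188 0 (.s k126 k252 8
  (.d k62 k61 k254 0 7))))), (.s k16 k32 3 (.s k189 k188 0 (.s k252 k126 8 (.s k84 k168 13 (.s k152
  k220 9 (.s k100 k204 13 (.d k116 k68 k184 3 9))))))), (.s k255 k127 7 (.s k186 k117 10 (.s k181
  k176 2 (.s k122 k240 10 (.s k182 k178 1 (.s k62 k242 9 (.d k60 k61 k125 0 8)))))))] .n) (.c k58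
  (.q k191 [(.s k255 k127 7 (.s k60 k125 8 (.s k62 k61 0 (.s k126 k254 7 (.d k189 k188 k252 0
  8))))), (.s k255 k127 7 (.s k186 k117 10 (.s k176 k181 2 (.s k178 k182 1 (.s k243 k113 8 (.s k183
  k123 9 (.d k179 k177 k187 0 1))))))), (.s k16 k32 3 (.s k189 k188 0 (.s k252 k126 8 (.s k84 k168
  13 (.s k152 k220 9 (.s k100 k204 13 (.d k116 k68 k184 3 9)))))))] .n) .n))))))))))))) (.c k190 (.q
  k130 [(.s k32 k16 3 (.s k42 k21 6 (.s k37 k47 2 (.s k26 k15 6 (.d k58 k53 k10 2 3))))), (.s k16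
  k32 3 (.s k195 k65 8 (.s k146 k97 12 (.s k81 k211 8 (.d k162 k178 k243 3 12)))))] (.c k16 (.q k191
  [(.s k58 k53 2 (.s k255 k127 7 (.s k186 k117 10 (.s k181 k176 2 (.d k122 k250 k240 7 10))))), (.s
  k195 k65 8 (.s k151 k107 13 (.s k255 k127 7 (.s k171 k131 5 (.s k87 k3 13 (.d k215 k235 k23 5
  7)))))), (.s k195 k65 8 (.s k146 k97 12 (.s k151 k107 13 (.s k131 k171 5 (.s k176 k161 4 (.s k240
  k112 7 (.d k181 k186 k122 2 10)))))))] .n) (.c k32 (.q k101 [(.s k53 k58 2 (.s k154 k207 14 (.s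
  k149 k197 11 (.s k144 k159 2 (.d k192 k96 k106 11 14))))), (.s k195 k65 8 (.s k207 k154 14 (.s
  k138 k69 10 (.s k134 k142 1 (.s k73 k12 10 (.d k203 k199 k8 1 8)))))), (.s k21 k42 6 (.s k53 k58 2
  (.s k149 k197 11 (.s k85 k213 7 (.s k117 k69 3 (.s k245 k181 7 (.d k5 k37 k165 3 11)))))))] .n)
  .n))) .n)))))))))))))))

def t151 : T TT 256 :=
  (.q k12 [(.s k8 k4 1 (.s k42 k21 6 (.s k25 k59 4 (.s k38 k51 6 (.d k46 k34 k29 1 4)))))] (.c k4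
  (.q k62 [(.s k46 k29 4 (.s k30 k14 3 (.s k60 k61 0 (.s k44 k28 3 (.d k45 k47 k15 0 4))))), (.s k42
  k21 6 (.s k22 k2 5 (.s k60 k61 0 (.s k40 k20 5 (.d k41 k43 k3 0 6))))), (.s k42 k21 6 (.s k2 k22 5
  (.s k46 k29 4 (.s k14 k30 3 (.s k6 k10 1 (.d k3 k1 k9 0 2))))))] .n) (.c k8 (.q k62 [(.s k46 k29 4
  (.s k30 k14 3 (.s k60 k61 0 (.s k44 k28 3 (.d k45 k47 k15 0 4))))), (.s k42 k21 6 (.s k22 k2 5 (.s
  k60 k61 0 (.s k40 k20 5 (.d k41 k43 k3 0 6))))), (.s k42 k21 6 (.s k2 k22 5 (.s k46 k29 4 (.s k14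
  k30 3 (.s k6 k10 1 (.d k3 k9 k1 2 0))))))] (.c k89 (.q k251 [(.s k42 k21 6 (.s k60 k61 0 (.s k40
  k20 5 (.s k41 k43 0 (.d k22 k2 k3 5 6))))), (.s k46 k29 4 (.s k30 k14 3 (.s k60 k61 0 (.s k44 k28
  3 (.d k45 k47 k15 0 4))))), (.s k42 k21 6 (.s k2 k22 5 (.s k46 k29 4 (.s k14 k30 3 (.s k6 k10 1
  (.d k3 k9 k1 2 0))))))] .n) (.c k251 (.q k89 [(.s k42 k21 6 (.s k60 k61 0 (.s k40 k20 5 (.s k41
  k43 0 (.d k22 k2 k3 5 6))))), (.s k29 k46 4 (.s k166 k243 14 (.s k149 k209 9 (.s k132 k183 4 (.d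
  k192 k72 k106 9 14)))))] .n) .n))) (.c k21 (.q k62 [(.s k46 k29 4 (.s k30 k14 3 (.s k60 k61 0 (.s
  k44 k28 3 (.d k45 k47 k15 0 4))))), (.s k4 k8 1 (.s k60 k61 0 (.s k20 k40 5 (.s k36 k52 3 (.s k24
  k48 5 (.d k28 k16 k44 1 3)))))), (.s k8 k4 1 (.s k46 k29 4 (.s k14 k30 3 (.s k15 k13 0 (.s k10 k5
  2 (.s k9 k11 0 (.d k6 k2 k3 1 2)))))))] (.c k1 (.l (.s k8 k4 1 (.s k46 k29 4 (.s k14 k30 3 (.s k15
  k13 0 (.s k10 k5 2 (.s k9 k11 0 (.d k6 k2 k3 1 2)))))))) (.c k28 (.q k106 [(.s k29 k46 4 (.s k149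
  k192 14 (.s k89 k209 9 (.s k123 k72 4 (.d k243 k183 k166 9 14))))), (.s k60 k61 0 (.s k150 k194 13
  (.s k105 k195 14 (.s k192 k149 14 (.d k104 k107 k148 0 13))))), (.s k46 k29 4 (.s k166 k226 9 (.s
  k60 k61 0 (.s k150 k194 13 (.s k134 k182 3 (.d k195 k73 k105 10 14))))))] .n) (.c k61 (.q k106
  [(.s k29 k46 4 (.s k149 k192 14 (.s k89 k209 9 (.s k123 k72 4 (.d k243 k183 k166 9 14))))), (.s k4
  k8 1 (.s k192 k149 14 (.s k128 k64 7 (.s k132 k72 9 (.s k68 k196 7 (.d k136 k140 k204 1 9)))))),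
  (.s k46 k29 4 (.s k14 k30 3 (.s k166 k226 9 (.s k90 k242 13 (.s k74 k122 3 (.d k194 k134 k150 9
  13))))))] (.c k1 (.q k41 [(.s k29 k46 4 (.s k149 k192 14 (.s k89 k209 9 (.s k123 k72 4 (.d k243
  k183 k166 9 14))))), (.s k4 k8 1 (.s k192 k149 14 (.s k128 k64 7 (.s k132 k72 9 (.s k68 k196 7 (.d
  k136 k140 k204 1 9)))))), (.s k46 k29 4 (.s k14 k30 3 (.s k166 k226 9 (.s k90 k242 13 (.s k74 k122
  3 (.d k194 k134 k150 9 13))))))] .n) (.c k41 (.q k1 [(.s k29 k46 4 (.s k149 k192 14 (.s k89 k209 9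
  (.s k243 k166 14 (.d k123 k72 k183 4 9))))), (.s k3 k2 0 (.s k8 k4 1 (.s k9 k6 2 (.s k5 k13 1 (.d
  k10 k11 k15 0 2)))))] (.c k29 (.l (.s k2 k3 0 (.s k194 k150 13 (.s k130 k66 7 (.s k195 k65 8 (.d
  k192 k149 k193 14 0)))))) .n)) .n))) .n)))) (.c k25 (.q k62 [(.s k46 k29 4 (.s k30 k14 3 (.s k60
  k61 0 (.s k45 k15 4 (.d k44 k47 k28 0 3))))), (.s k4 k8 1 (.s k60 k61 0 (.s k20 k40 5 (.s k36 k52
  3 (.s k24 k48 5 (.d k28 k16 k44 1 3)))))), (.s k42 k21 6 (.s k22 k2 5 (.s k60 k61 0 (.s k40 k20 5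
  (.d k41 k43 k3 0 6)))))] (.c k60 (.l (.s k42 k21 6 (.s k2 k22 5 (.s k3 k1 0 (.s k6 k9 2 (.s k14
  k10 1 (.d k46 k29 k30 4 3))))))) (.c k61 (.q k106 [(.s k29 k46 4 (.s k149 k192 14 (.s k89 k209 9
  (.s k123 k72 4 (.d k243 k183 k166 9 14))))), (.s k4 k8 1 (.s k192 k149 14 (.s k128 k64 7 (.s k132
  k72 9 (.s k68 k196 7 (.d k136 k140 k204 1 9)))))), (.s k46 k29 4 (.s k14 k30 3 (.s k166 k226 9 (.s
  k90 k242 13 (.s k74 k122 3 (.d k194 k134 k150 9 13))))))] .n) .n))) (.c k29 (.q k62 [(.s k42 k21 6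
  (.s k60 k61 0 (.s k40 k20 5 (.s k41 k43 0 (.d k22 k2 k3 5 6))))), (.s k4 k8 1 (.s k60 k61 0 (.s
  k20 k40 5 (.s k36 k52 3 (.s k24 k48 5 (.d k28 k16 k44 1 3)))))), (.s k8 k4 1 (.s k42 k21 6 (.s k22
  k2 5 (.s k25 k59 4 (.s k28 k19 2 (.d k60 k61 k44 0 3))))))] (.c k60 (.l (.s k4 k8 1 (.s k42 k21 6
  (.s k2 k22 5 (.s k3 k1 0 (.s k6 k9 2 (.s k10 k14 1 (.d k5 k7 k15 0 2)))))))) (.c k61 (.f k8 k4 1
  (.l (.s k42 k21 6 (.s k22 k2 5 (.s k25 k59 4 (.s k28 k19 2 (.s k60 k44 3 (.s k40 k20 5 (.d k41 k43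
  k3 0 6))))))))) .n))) (.c k34 (.l (.s k4 k8 1 (.s k21 k42 6 (.s k38 k55 4 (.s k25 k51 6 (.d k29
  k46 k17 4 1)))))) (.c k38 (.q k62 [(.s k46 k29 4 (.s k30 k14 3 (.s k60 k61 0 (.s k44 k28 3 (.d k45
  k47 k15 0 4))))), (.s k42 k21 6 (.s k22 k2 5 (.s k60 k61 0 (.s k40 k20 5 (.d k41 k43 k3 0 6))))),
  (.s k42 k21 6 (.s k2 k22 5 (.s k46 k29 4 (.s k14 k30 3 (.s k6 k10 1 (.d k3 k1 k9 0 2))))))] .n)
  (.c k42 (.f k8 k4 1 (.q k62 [(.s k46 k29 4 (.s k30 k14 3 (.s k60 k61 0 (.s k44 k28 3 (.d k45 k47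
  k15 0 4))))), (.s k60 k61 0 (.s k40 k20 5 (.s k24 k56 3 (.s k36 k48 5 (.d k44 k32 k28 1 3))))),
  (.s k46 k29 4 (.s k14 k30 3 (.s k15 k13 0 (.s k10 k5 2 (.s k6 k2 1 (.d k9 k11 k3 0 2))))))] (.c
  k28 (.q k106 [(.s k60 k61 0 (.s k150 k194 13 (.s k105 k195 14 (.s k192 k149 14 (.d k104 k107 k148
  0 13))))), (.s k29 k46 4 (.s k149 k192 14 (.s k89 k209 9 (.s k243 k166 14 (.d k123 k72 k183 4
  9))))), (.s k46 k29 4 (.s k166 k226 9 (.s k60 k61 0 (.s k150 k194 13 (.s k134 k182 3 (.d k195 k73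
  k105 10 14))))))] .n) (.c k61 (.q k106 [(.s k46 k29 4 (.s k166 k226 9 (.s k243 k89 14 (.s k149
  k192 14 (.d k183 k132 k123 4 9))))), (.s k192 k149 14 (.s k72 k132 9 (.s k136 k200 7 (.s k68 k204
  9 (.d k64 k128 k76 7 1))))), (.s k46 k29 4 (.s k14 k30 3 (.s k166 k226 9 (.s k90 k242 13 (.s k74
  k122 3 (.d k194 k134 k150 9 13))))))] (.c k166 (.l (.s k46 k29 4 (.s k14 k30 3 (.s k194 k150 13
  (.s k134 k74 9 (.s k195 k73 10 (.d k192 k149 k193 14 0))))))) .n)) (.c k106 (.q k234 [(.s k46 k29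
  4 (.s k30 k14 3 (.s k60 k61 0 (.s k44 k28 3 (.d k45 k47 k15 0 4))))), (.s k60 k61 0 (.s k40 k20 5
  (.s k24 k56 3 (.s k36 k48 5 (.d k44 k32 k28 1 3))))), (.s k46 k29 4 (.s k14 k30 3 (.s k15 k13 0
  (.s k10 k5 2 (.s k6 k2 1 (.d k9 k11 k3 0 2))))))] (.c k28 (.q k41 [(.s k46 k29 4 (.s k60 k61 0 (.s
  k3 k22 6 (.s k2 k1 0 (.s k6 k9 2 (.d k14 k30 k10 3 1)))))), (.s k29 k46 4 (.s k61 k60 0 (.s k21 k1
  5 (.s k13 k45 3 (.s k25 k17 1 (.s k57 k9 3 (.d k49 k53 k37 1 5))))))), (.s k60 k61 0 (.s k40 k20 5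
  (.s k3 k22 6 (.s k9 k6 2 (.s k11 k10 0 (.d k56 k24 k26 3 4)))))), (.s k46 k29 4 (.s k30 k14 3 (.s
  k60 k61 0 (.s k40 k20 5 (.s k22 k3 6 (.s k26 k18 1 (.d k56 k24 k11 3 4)))))))] (.c k60 (.q k25
  [(.s k29 k46 4 (.s k17 k21 1 (.d k51 k34 k38 4 6))), (.s k9 k57 3 (.s k3 k6 2 (.s k1 k2 0 (.s k5
  k13 1 (.d k10 k11 k15 0 2)))))] (.c k51 (.l (.s k29 k46 4 (.s k21 k17 1 (.s k1 k61 5 (.s k3 k2 0
  (.d k9 k6 k57 2 3)))))) .n)) (.c k61 (.q k25 [(.s k29 k46 4 (.s k17 k21 1 (.d k51 k34 k38 4 6))),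
  (.s k9 k57 3 (.s k3 k6 2 (.s k1 k2 0 (.s k10 k11 0 (.d k5 k13 k15 1 2)))))] .n) .n))) (.c k61 (.q
  k254 [(.s k126 k190 7 (.s k252 k189 8 (.s k168 k84 13 (.s k88 k248 11 (.s k164 k240 13 (.d k172
  k160 k92 1 11)))))), (.s k46 k29 4 (.s k14 k30 3 (.s k174 k94 11 (.s k93 k255 12 (.s k110 k238 7
  (.s k204 k157 12 (.d k76 k127 k140 4 7)))))))] .n) .n))) (.c k234 (.q k106 [(.s k60 k61 0 (.s k40
  k20 5 (.s k24 k56 3 (.s k36 k48 5 (.d k44 k32 k28 1 3))))), (.s k29 k46 4 (.s k149 k192 14 (.s k89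
  k209 9 (.s k243 k166 14 (.d k123 k72 k183 4 9)))))] .n) .n)))))) (.c k46 (.q k62 [(.s k42 k21 6
  (.s k60 k61 0 (.s k40 k20 5 (.s k41 k43 0 (.d k22 k2 k3 5 6))))), (.s k4 k8 1 (.s k60 k61 0 (.s
  k20 k40 5 (.s k36 k52 3 (.s k24 k48 5 (.d k28 k16 k44 1 3)))))), (.s k8 k4 1 (.s k42 k21 6 (.s k22
  k2 5 (.s k25 k59 4 (.s k28 k19 2 (.d k60 k61 k44 0 3))))))] (.c k60 (.l (.s k4 k8 1 (.s k42 k21 6
  (.s k2 k22 5 (.s k3 k1 0 (.s k6 k9 2 (.s k10 k14 1 (.d k5 k7 k15 0 2)))))))) (.c k61 (.f k8 k4 1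
  (.l (.s k42 k21 6 (.s k22 k2 5 (.s k25 k59 4 (.s k28 k19 2 (.s k60 k44 3 (.s k40 k20 5 (.d k41 k43
  k3 0 6))))))))) .n))) (.c k51 (.q k62 [(.s k46 k29 4 (.s k30 k14 3 (.s k60 k61 0 (.s k44 k28 3 (.d
  k45 k47 k15 0 4))))), (.s k42 k21 6 (.s k22 k2 5 (.s k60 k61 0 (.s k40 k20 5 (.d k41 k43 k3 0
  6))))), (.s k42 k21 6 (.s k2 k22 5 (.s k46 k29 4 (.s k14 k30 3 (.s k6 k10 1 (.d k3 k1 k9 0
  2))))))] .n) (.c k55 (.l (.s k8 k4 1 (.s k46 k29 4 (.s k42 k21 6 (.s k38 k34 1 (.d k25 k59 k51 4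
  6)))))) (.c k59 (.l (.s k4 k8 1 (.s k29 k46 4 (.s k21 k42 6 (.s k25 k17 1 (.d k38 k55 k51 4
  6)))))) .n)))))))))))))

def t154 : T TT 256 :=
  (.q k60 [(.s k40 k20 5 (.s k42 k21 6 (.s k41 k43 0 (.s k22 k3 6 (.d k62 k61 k2 0 5)))))] (.c k2
  (.l (.s k20 k40 5 (.s k21 k42 6 (.s k22 k23 0 (.s k41 k3 6 (.d k61 k62 k1 0 5)))))) (.c k3 (.f k62
  k61 0 (.q k8 [(.s k12 k4 1 (.s k40 k20 5 (.s k24 k56 3 (.s k44 k28 3 (.d k36 k32 k48 1 5))))), (.s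
  k12 k4 1 (.s k42 k21 6 (.s k25 k59 4 (.s k38 k51 6 (.d k46 k34 k29 1 4))))), (.s k40 k20 5 (.s k42
  k21 6 (.s k56 k24 3 (.s k59 k25 4 (.s k57 k58 0 (.d k51 k55 k54 1 2))))))] (.c k138 (.q k186 [(.s
  k12 k4 1 (.s k40 k20 5 (.s k24 k56 3 (.s k44 k28 3 (.d k36 k32 k48 1 5))))), (.s k12 k4 1 (.s k42
  k21 6 (.s k25 k59 4 (.s k38 k51 6 (.d k46 k34 k29 1 4))))), (.s k40 k20 5 (.s k42 k21 6 (.s k56
  k24 3 (.s k59 k25 4 (.s k57 k58 0 (.d k51 k55 k54 1 2))))))] .n) (.c k186 (.q k138 [(.s k12 k4 1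
  (.s k40 k20 5 (.s k44 k28 3 (.s k36 k32 1 (.d k24 k56 k48 3 5))))), (.s k42 k21 6 (.s k207 k69 10
  (.s k2 k22 5 (.s k206 k70 9 (.d k158 k110 k109 11 12)))))] (.c k20 (.l (.s k12 k4 1 (.s k42 k21 6
  (.s k22 k2 5 (.s k25 k59 4 (.d k28 k19 k44 2 3)))))) .n)) .n)))) (.c k20 (.f k62 k61 0 (.q k8 [(.s
  k42 k21 6 (.s k22 k2 5 (.s k25 k59 4 (.s k28 k19 2 (.d k12 k4 k44 1 3))))), (.s k12 k4 1 (.s k44
  k28 3 (.s k46 k29 4 (.s k30 k14 3 (.d k45 k47 k15 0 4))))), (.s k42 k21 6 (.s k22 k2 5 (.s k59 k25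
  4 (.s k51 k55 1 (.s k54 k57 2 (.s k38 k6 3 (.d k34 k17 k46 4 1)))))))] (.c k4 (.l (.s k42 k21 6
  (.s k22 k2 5 (.s k25 k59 4 (.s k28 k19 2 (.s k12 k44 3 (.s k38 k51 6 (.d k46 k34 k29 1 4))))))))
  (.c k138 (.q k186 [(.s k12 k4 1 (.s k44 k28 3 (.s k46 k29 4 (.s k30 k14 3 (.d k45 k47 k15 0
  4))))), (.s k42 k21 6 (.s k22 k2 5 (.s k59 k25 4 (.s k51 k55 1 (.s k54 k57 2 (.s k38 k6 3 (.d k34
  k17 k46 4 1))))))), (.s k12 k4 1 (.s k42 k21 6 (.s k22 k2 5 (.s k25 k59 4 (.d k28 k19 k44 2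
  3)))))] (.c k4 (.l (.s k42 k21 6 (.s k22 k2 5 (.s k25 k59 4 (.s k28 k19 2 (.s k12 k44 3 (.s k38
  k51 6 (.d k46 k34 k29 1 4)))))))) .n)) (.c k186 (.q k138 [(.s k12 k4 1 (.s k69 k207 10 (.s k73
  k203 8 (.s k195 k134 10 (.d k65 k77 k130 1 8))))), (.s k42 k21 6 (.s k207 k69 10 (.s k158 k109 12
  (.s k206 k110 11 (.d k2 k22 k70 5 9))))), (.s k12 k4 1 (.s k42 k21 6 (.s k22 k2 5 (.s k25 k59 4
  (.d k28 k19 k44 2 3)))))] .n) .n))))) (.c k21 (.q k192 [(.s k20 k40 5 (.s k128 k64 7 (.s k148 k104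
  13 (.s k84 k212 7 (.d k168 k188 k252 5 13))))), (.s k61 k62 0 (.s k148 k104 13 (.s k149 k106 14
  (.s k105 k193 13 (.d k150 k151 k195 0 14))))), (.s k20 k40 5 (.s k62 k61 0 (.s k106 k149 14 (.s
  k150 k194 13 (.s k85 k215 8 (.d k64 k128 k127 7 6))))))] (.c k105 (.l (.s k40 k20 5 (.s k64 k128 7
  (.s k104 k148 13 (.s k168 k232 7 (.d k84 k124 k252 5 13)))))) (.c k138 (.q k186 [(.s k20 k40 5 (.s
  k128 k64 7 (.s k148 k104 13 (.s k84 k212 7 (.d k168 k188 k252 5 13))))), (.s k61 k62 0 (.s k148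
  k104 13 (.s k149 k106 14 (.s k105 k193 13 (.d k150 k151 k195 0 14))))), (.s k20 k40 5 (.s k62 k61
  0 (.s k106 k149 14 (.s k150 k194 13 (.s k85 k215 8 (.d k64 k128 k127 7 6))))))] (.c k105 (.l (.s
  k40 k20 5 (.s k64 k128 7 (.s k104 k148 13 (.s k168 k232 7 (.d k84 k124 k252 5 13)))))) .n)) (.c
  k186 (.q k138 [(.s k20 k40 5 (.s k128 k64 7 (.s k148 k104 13 (.s k84 k212 7 (.d k168 k188 k252 5
  13))))), (.s k64 k128 7 (.s k69 k207 10 (.s k74 k79 2 (.s k10 k202 7 (.d k15 k5 k133 2 10))))),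
  (.s k61 k62 0 (.s k148 k104 13 (.s k149 k106 14 (.s k105 k193 13 (.d k150 k151 k195 0 14)))))] .n)
  .n)))) (.c k22 (.f k62 k61 0 (.q k192 [(.s k104 k148 13 (.s k106 k149 14 (.s k150 k194 13 (.d k105
  k107 k195 0 14)))), (.s k20 k40 5 (.s k128 k64 7 (.s k148 k104 13 (.s k84 k212 7 (.d k168 k188
  k252 5 13))))), (.s k20 k40 5 (.s k106 k149 14 (.s k150 k194 13 (.s k85 k215 8 (.d k64 k128 k127 7
  6)))))] (.c k105 (.l (.s k40 k20 5 (.s k64 k128 7 (.s k104 k148 13 (.s k168 k232 7 (.d k84 k124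
  k252 5 13)))))) (.c k128 (.l (.s k20 k40 5 (.s k148 k104 13 (.s k149 k106 14 (.s k150 k151 0 (.s
  k85 k215 8 (.d k21 k42 k213 6 7))))))) (.c k138 (.q k186 [(.s k104 k148 13 (.s k106 k149 14 (.s
  k150 k194 13 (.d k105 k107 k195 0 14)))), (.s k20 k40 5 (.s k128 k64 7 (.s k148 k104 13 (.s k84
  k212 7 (.d k168 k188 k252 5 13))))), (.s k20 k40 5 (.s k106 k149 14 (.s k150 k194 13 (.s k85 k215
  8 (.d k64 k128 k127 7 6)))))] (.c k105 (.l (.s k40 k20 5 (.s k64 k128 7 (.s k104 k148 13 (.s k168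
  k232 7 (.d k84 k124 k252 5 13)))))) (.c k128 (.l (.s k20 k40 5 (.s k148 k104 13 (.s k149 k106 14
  (.s k150 k151 0 (.s k85 k215 8 (.d k21 k42 k213 6 7))))))) .n))) (.c k186 (.q k138 [(.s k207 k69
  10 (.s k158 k109 12 (.s k110 k206 11 (.s k157 k204 12 (.d k159 k156 k111 0 11))))), (.s k40 k20 5
  (.s k64 k128 7 (.s k104 k148 13 (.s k168 k232 7 (.d k84 k124 k252 5 13)))))] .n) .n)))))) (.c k23
  (.l (.s k40 k20 5 (.s k62 k61 0 (.s k42 k21 6 (.s k22 k2 5 (.d k41 k43 k3 0 6)))))) (.c k40 (.q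
  k105 [(.s k61 k62 0 (.s k150 k195 14 (.s k149 k193 13 (.s k148 k151 0 (.d k192 k104 k106 13
  14))))), (.s k21 k42 6 (.s k61 k62 0 (.s k149 k193 13 (.s k85 k213 7 (.s k125 k65 5 (.s k253 k189
  7 (.d k1 k41 k169 5 13))))))), (.s k21 k42 6 (.s k195 k150 14 (.s k107 k151 13 (.s k106 k104 0 (.s
  k149 k192 14 (.s k85 k213 7 (.d k65 k130 k125 8 5)))))))] (.c k106 (.f k62 k61 0 (.l (.s k42 k21 6
  (.s k22 k2 5 (.s k150 k195 14 (.s k86 k214 7 (.s k124 k67 6 (.s k252 k188 7 (.d k3 k41 k169 6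
  14))))))))) (.c k138 (.q k186 [(.s k61 k62 0 (.s k150 k195 14 (.s k149 k193 13 (.s k148 k151 0 (.d
  k192 k104 k106 13 14))))), (.s k21 k42 6 (.s k61 k62 0 (.s k149 k193 13 (.s k85 k213 7 (.s k125
  k65 5 (.s k253 k189 7 (.d k1 k41 k169 5 13))))))), (.s k21 k42 6 (.s k195 k150 14 (.s k107 k151 13
  (.s k106 k104 0 (.s k149 k192 14 (.s k85 k213 7 (.d k65 k130 k125 8 5)))))))] (.c k106 (.f k62 k61
  0 (.l (.s k42 k21 6 (.s k22 k2 5 (.s k150 k195 14 (.s k86 k214 7 (.s k124 k67 6 (.s k252 k188 7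
  (.d k3 k41 k169 6 14))))))))) (.c k149 (.f k62 k61 0 (.l (.s k42 k21 6 (.s k22 k2 5 (.s k150 k195
  14 (.s k86 k214 7 (.s k124 k67 6 (.s k252 k188 7 (.d k3 k41 k169 6 14))))))))) .n))) (.c k149 (.f
  k62 k61 0 (.l (.s k42 k21 6 (.s k22 k2 5 (.s k150 k195 14 (.s k86 k214 7 (.s k124 k67 6 (.s k252
  k188 7 (.d k3 k41 k169 6 14))))))))) (.c k186 (.q k138 [(.s k61 k62 0 (.s k150 k195 14 (.s k149
  k193 13 (.s k148 k151 0 (.d k192 k104 k106 13 14))))), (.s k69 k207 10 (.s k195 k150 14 (.s k130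
  k65 8 (.s k134 k142 1 (.s k4 k199 8 (.d k12 k8 k73 1 10)))))), (.s k42 k21 6 (.s k207 k69 10 (.s
  k62 k61 0 (.s k2 k22 5 (.s k206 k70 9 (.d k158 k110 k109 11 12))))))] .n) .n))))) (.c k41 (.q k192
  [(.s k40 k20 5 (.s k64 k128 7 (.s k104 k148 13 (.s k168 k232 7 (.d k84 k124 k252 5 13))))), (.s
  k61 k62 0 (.s k148 k104 13 (.s k149 k106 14 (.s k105 k193 13 (.d k150 k151 k195 0 14))))), (.s k20
  k40 5 (.s k62 k61 0 (.s k106 k149 14 (.s k150 k194 13 (.s k85 k215 8 (.d k64 k128 k127 7 6))))))]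
  (.c k138 (.q k186 [(.s k20 k40 5 (.s k128 k64 7 (.s k148 k104 13 (.s k84 k212 7 (.d k168 k188 k252
  5 13))))), (.s k61 k62 0 (.s k148 k104 13 (.s k149 k106 14 (.s k105 k193 13 (.d k150 k151 k195 0
  14))))), (.s k40 k20 5 (.s k64 k128 7 (.s k104 k148 13 (.s k168 k232 7 (.d k84 k124 k252 5
  13))))), (.s k20 k40 5 (.s k62 k61 0 (.s k106 k149 14 (.s k150 k194 13 (.s k85 k215 8 (.d k64 k128
  k127 7 6))))))] .n) (.c k149 (.l (.s k20 k40 5 (.s k128 k64 7 (.s k148 k104 13 (.s k84 k212 7 (.d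
  k168 k188 k252 5 13)))))) (.c k186 (.q k138 [(.s k40 k20 5 (.s k64 k128 7 (.s k104 k148 13 (.s
  k168 k232 7 (.d k84 k124 k252 5 13))))), (.s k61 k62 0 (.s k148 k104 13 (.s k149 k106 14 (.s k105
  k193 13 (.d k150 k151 k195 0 14))))), (.s k64 k128 7 (.s k69 k207 10 (.s k74 k79 2 (.s k10 k202 7
  (.d k15 k5 k133 2 10)))))] (.c k149 (.l (.s k20 k40 5 (.s k128 k64 7 (.s k148 k104 13 (.s k84 k212
  7 (.d k168 k188 k252 5 13)))))) .n)) .n)))) (.c k42 (.q k106 [(.s k61 k62 0 (.s k149 k192 14 (.s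
  k105 k193 13 (.s k107 k104 0 (.d k195 k151 k150 13 14))))), (.s k20 k40 5 (.s k192 k149 14 (.s
  k128 k64 7 (.s k148 k104 13 (.s k84 k212 7 (.d k168 k188 k252 5 13))))))] (.c k104 (.l (.s k62 k61
  0 (.s k150 k194 13 (.s k195 k105 14 (.s k149 k192 14 (.d k151 k148 k107 0 13)))))) (.c k105 (.l
  (.s k40 k20 5 (.s k192 k149 14 (.s k104 k148 13 (.s k168 k232 7 (.s k84 k252 13 (.d k64 k128 k124
  7 5))))))) (.c k138 (.q k186 [(.s k61 k62 0 (.s k149 k192 14 (.s k105 k193 13 (.s k107 k104 0 (.d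
  k195 k151 k150 13 14))))), (.s k20 k40 5 (.s k192 k149 14 (.s k128 k64 7 (.s k148 k104 13 (.s k84
  k212 7 (.d k168 k188 k252 5 13))))))] (.c k104 (.l (.s k62 k61 0 (.s k150 k194 13 (.s k195 k105 14
  (.s k149 k192 14 (.d k151 k148 k107 0 13)))))) (.c k105 (.l (.s k40 k20 5 (.s k192 k149 14 (.s
  k104 k148 13 (.s k168 k232 7 (.s k84 k252 13 (.d k64 k128 k124 7 5))))))) (.c k149 (.f k62 k61 0
  (.l (.s k20 k40 5 (.s k150 k194 13 (.s k85 k215 8 (.s k105 k195 14 (.s k64 k127 6 (.s k104 k107 0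
  (.d k192 k128 k148 7 13))))))))) (.c k192 (.f k62 k61 0 (.l (.s k20 k40 5 (.s k150 k194 13 (.s k85
  k215 8 (.s k127 k64 6 (.s k255 k191 7 (.s k125 k190 8 (.d k105 k195 k65 14 5))))))))) .n))))) (.c
  k149 (.f k62 k61 0 (.l (.s k20 k40 5 (.s k150 k194 13 (.s k85 k215 8 (.s k105 k195 14 (.s k64 k127
  6 (.s k104 k107 0 (.d k192 k128 k148 7 13))))))))) (.c k186 (.q k138 [(.s k61 k62 0 (.s k149 k192
  14 (.s k105 k193 13 (.s k107 k104 0 (.d k195 k151 k150 13 14))))), (.s k20 k40 5 (.s k192 k149 14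
  (.s k128 k64 7 (.s k148 k104 13 (.s k84 k212 7 (.d k168 k188 k252 5 13)))))), (.s k207 k69 10 (.s
  k61 k62 0 (.s k109 k158 12 (.s k157 k205 11 (.s k110 k204 12 (.d k111 k108 k159 0 11))))))] .n)
  (.c k192 (.f k62 k61 0 (.l (.s k20 k40 5 (.s k150 k194 13 (.s k85 k215 8 (.s k127 k64 6 (.s k255
  k191 7 (.s k125 k190 8 (.d k105 k195 k65 14 5))))))))) .n))))))) (.c k43 (.l (.s k20 k40 5 (.s k61
  k62 0 (.s k21 k42 6 (.s k41 k1 5 (.d k22 k23 k3 0 6)))))) (.c k61 (.q k8 [(.s k12 k4 1 (.s k42 k21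
  6 (.s k25 k59 4 (.s k38 k51 6 (.d k46 k34 k29 1 4))))), (.s k12 k4 1 (.s k40 k20 5 (.s k24 k56 3
  (.s k36 k48 5 (.d k44 k32 k28 1 3))))), (.s k40 k20 5 (.s k42 k21 6 (.s k56 k24 3 (.s k59 k25 4
  (.s k57 k58 0 (.d k51 k55 k54 1 2))))))] (.c k138 (.q k186 [(.s k12 k4 1 (.s k42 k21 6 (.s k25 k59
  4 (.s k38 k51 6 (.d k46 k34 k29 1 4))))), (.s k12 k4 1 (.s k40 k20 5 (.s k24 k56 3 (.s k36 k48 5
  (.d k44 k32 k28 1 3))))), (.s k40 k20 5 (.s k42 k21 6 (.s k56 k24 3 (.s k59 k25 4 (.s k57 k58 0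
  (.d k51 k55 k54 1 2))))))] .n) (.c k186 (.q k138 [(.s k12 k4 1 (.s k42 k21 6 (.s k25 k59 4 (.s k38
  k51 6 (.d k46 k34 k29 1 4))))), (.s k12 k4 1 (.s k40 k20 5 (.s k24 k56 3 (.s k36 k48 5 (.d k44 k32
  k28 1 3))))), (.s k40 k20 5 (.s k42 k21 6 (.s k56 k24 3 (.s k59 k25 4 (.s k57 k58 0 (.d k51 k55
  k54 1 2))))))] .n) .n))) (.c k62 (.q k8 [(.s k12 k4 1 (.s k42 k21 6 (.s k25 k59 4 (.s k38 k51 6
  (.d k46 k34 k29 1 4))))), (.s k12 k4 1 (.s k40 k20 5 (.s k24 k56 3 (.s k36 k48 5 (.d k44 k32 k28 1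
  3))))), (.s k40 k20 5 (.s k42 k21 6 (.s k56 k24 3 (.s k59 k25 4 (.s k57 k58 0 (.d k51 k54 k55 2
  1))))))] (.c k138 (.q k186 [(.s k12 k4 1 (.s k42 k21 6 (.s k25 k59 4 (.s k38 k51 6 (.d k46 k34 k29
  1 4))))), (.s k12 k4 1 (.s k40 k20 5 (.s k24 k56 3 (.s k36 k48 5 (.d k44 k32 k28 1 3))))), (.s k40
  k20 5 (.s k42 k21 6 (.s k56 k24 3 (.s k59 k25 4 (.s k57 k58 0 (.d k51 k54 k55 2 1))))))] .n) (.c
  k186 (.q k138 [(.s k12 k4 1 (.s k42 k21 6 (.s k25 k59 4 (.s k38 k51 6 (.d k46 k34 k29 1 4))))),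
  (.s k12 k4 1 (.s k40 k20 5 (.s k24 k56 3 (.s k36 k48 5 (.d k44 k32 k28 1 3))))), (.s k40 k20 5 (.s
  k42 k21 6 (.s k56 k24 3 (.s k59 k25 4 (.s k57 k58 0 (.d k51 k54 k55 2 1))))))] .n) .n))) (.c k138
  (.q k186 [(.s k40 k20 5 (.s k42 k21 6 (.s k41 k43 0 (.s k22 k3 6 (.d k62 k61 k2 0 5)))))] (.c k2
  (.l (.s k20 k40 5 (.s k21 k42 6 (.s k22 k23 0 (.s k41 k3 6 (.d k61 k62 k1 0 5)))))) (.c k3 (.q
  k192 [(.s k20 k40 5 (.s k128 k64 7 (.s k148 k104 13 (.s k84 k212 7 (.d k168 k188 k252 5 13))))),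
  (.s k61 k62 0 (.s k148 k104 13 (.s k149 k106 14 (.s k105 k193 13 (.d k150 k151 k195 0 14))))), (.s
  k20 k40 5 (.s k62 k61 0 (.s k106 k149 14 (.s k150 k194 13 (.s k85 k215 8 (.d k64 k128 k127 7
  6))))))] (.c k105 (.l (.s k40 k20 5 (.s k64 k128 7 (.s k104 k148 13 (.s k168 k232 7 (.d k84 k124
  k252 5 13)))))) .n)) (.c k20 (.f k62 k61 0 (.q k8 [(.s k12 k4 1 (.s k44 k28 3 (.s k46 k29 4 (.s
  k30 k14 3 (.d k45 k47 k15 0 4))))), (.s k42 k21 6 (.s k22 k2 5 (.s k59 k25 4 (.s k51 k55 1 (.s k54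
  k57 2 (.s k38 k6 3 (.d k34 k17 k46 4 1))))))), (.s k12 k4 1 (.s k42 k21 6 (.s k22 k2 5 (.s k25 k59
  4 (.d k28 k19 k44 2 3)))))] (.c k4 (.l (.s k42 k21 6 (.s k22 k2 5 (.s k25 k59 4 (.s k28 k19 2 (.s
  k12 k44 3 (.s k38 k51 6 (.d k46 k34 k29 1 4)))))))) .n))) (.c k21 (.q k192 [(.s k20 k40 5 (.s k128
  k64 7 (.s k148 k104 13 (.s k84 k212 7 (.d k168 k188 k252 5 13))))), (.s k61 k62 0 (.s k148 k104 13
  (.s k149 k106 14 (.s k105 k193 13 (.d k150 k151 k195 0 14))))), (.s k20 k40 5 (.s k62 k61 0 (.s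
  k106 k149 14 (.s k150 k194 13 (.s k85 k215 8 (.d k64 k128 k127 7 6))))))] (.c k105 (.l (.s k40 k20
  5 (.s k64 k128 7 (.s k104 k148 13 (.s k168 k232 7 (.d k84 k124 k252 5 13)))))) .n)) (.c k22 (.q
  k192 [(.s k20 k40 5 (.s k128 k64 7 (.s k148 k104 13 (.s k84 k212 7 (.d k168 k188 k252 5 13))))),
  (.s k61 k62 0 (.s k148 k104 13 (.s k149 k106 14 (.s k105 k193 13 (.d k150 k151 k195 0 14))))), (.s
  k20 k40 5 (.s k62 k61 0 (.s k106 k149 14 (.s k150 k194 13 (.s k85 k215 8 (.d k64 k128 k127 7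
  6))))))] (.c k105 (.l (.s k40 k20 5 (.s k64 k128 7 (.s k104 k148 13 (.s k168 k232 7 (.d k84 k124
  k252 5 13)))))) .n)) (.c k23 (.l (.s k40 k20 5 (.s k62 k61 0 (.s k42 k21 6 (.s k22 k2 5 (.d k41
  k43 k3 0 6)))))) (.c k40 (.q k105 [(.s k61 k62 0 (.s k150 k195 14 (.s k149 k193 13 (.s k148 k151 0
  (.d k192 k104 k106 13 14))))), (.s k21 k42 6 (.s k61 k62 0 (.s k149 k193 13 (.s k85 k213 7 (.s
  k125 k65 5 (.s k253 k189 7 (.d k1 k41 k169 5 13))))))), (.s k21 k42 6 (.s k195 k150 14 (.s k107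
  k151 13 (.s k106 k104 0 (.s k149 k192 14 (.s k85 k213 7 (.d k65 k130 k125 8 5)))))))] (.c k106 (.f
  k62 k61 0 (.l (.s k42 k21 6 (.s k22 k2 5 (.s k150 k195 14 (.s k86 k214 7 (.s k124 k67 6 (.s k252
  k188 7 (.d k3 k41 k169 6 14))))))))) (.c k149 (.f k62 k61 0 (.l (.s k42 k21 6 (.s k22 k2 5 (.s
  k150 k195 14 (.s k86 k214 7 (.s k124 k67 6 (.s k252 k188 7 (.d k3 k41 k169 6 14))))))))) .n))) (.c
  k41 (.q k192 [(.s k20 k40 5 (.s k128 k64 7 (.s k148 k104 13 (.s k84 k212 7 (.d k168 k188 k252 5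
  13))))), (.s k61 k62 0 (.s k148 k104 13 (.s k149 k106 14 (.s k105 k193 13 (.d k150 k151 k195 0
  14))))), (.s k40 k20 5 (.s k64 k128 7 (.s k104 k148 13 (.s k168 k232 7 (.d k84 k124 k252 5
  13))))), (.s k20 k40 5 (.s k62 k61 0 (.s k106 k149 14 (.s k150 k194 13 (.s k85 k215 8 (.d k64 k128
  k127 7 6))))))] .n) (.c k42 (.q k106 [(.s k61 k62 0 (.s k149 k192 14 (.s k105 k193 13 (.s k107
  k104 0 (.d k195 k151 k150 13 14))))), (.s k20 k40 5 (.s k192 k149 14 (.s k128 k64 7 (.s k148 k104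
  13 (.s k84 k212 7 (.d k168 k188 k252 5 13))))))] (.c k104 (.l (.s k62 k61 0 (.s k150 k194 13 (.s
  k195 k105 14 (.s k149 k192 14 (.d k151 k148 k107 0 13)))))) (.c k105 (.l (.s k40 k20 5 (.s k192
  k149 14 (.s k104 k148 13 (.s k168 k232 7 (.s k84 k252 13 (.d k64 k128 k124 7 5))))))) (.c k149 (.f
  k62 k61 0 (.l (.s k20 k40 5 (.s k150 k194 13 (.s k85 k215 8 (.s k105 k195 14 (.s k64 k127 6 (.s
  k104 k107 0 (.d k192 k128 k148 7 13))))))))) (.c k192 (.f k62 k61 0 (.l (.s k20 k40 5 (.s k150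
  k194 13 (.s k85 k215 8 (.s k127 k64 6 (.s k255 k191 7 (.s k125 k190 8 (.d k105 k195 k65 14
  5))))))))) .n))))) (.c k43 (.l (.s k20 k40 5 (.s k61 k62 0 (.s k21 k42 6 (.s k41 k1 5 (.d k22 k23
  k3 0 6)))))) (.c k61 (.q k8 [(.s k12 k4 1 (.s k42 k21 6 (.s k25 k59 4 (.s k38 k51 6 (.d k46 k34
  k29 1 4))))), (.s k12 k4 1 (.s k40 k20 5 (.s k24 k56 3 (.s k36 k48 5 (.d k44 k32 k28 1 3))))), (.s
  k40 k20 5 (.s k42 k21 6 (.s k56 k24 3 (.s k59 k25 4 (.s k57 k58 0 (.d k51 k55 k54 1 2))))))] .n)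
  (.c k62 (.q k8 [(.s k12 k4 1 (.s k42 k21 6 (.s k25 k59 4 (.s k38 k51 6 (.d k46 k34 k29 1 4))))),
  (.s k12 k4 1 (.s k40 k20 5 (.s k24 k56 3 (.s k36 k48 5 (.d k44 k32 k28 1 3))))), (.s k40 k20 5 (.s
  k42 k21 6 (.s k56 k24 3 (.s k59 k25 4 (.s k57 k58 0 (.d k51 k54 k55 2 1))))))] .n) .n)))))))))))))
  (.c k186 (.q k138 [(.s k40 k20 5 (.s k42 k21 6 (.s k41 k43 0 (.s k22 k3 6 (.d k62 k61 k2 0 5))))),
  (.s k207 k69 10 (.s k61 k62 0 (.s k109 k158 12 (.s k157 k205 11 (.s k110 k204 12 (.d k111 k108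
  k159 0 11))))))] (.c k61 (.q k8 [(.s k12 k4 1 (.s k42 k21 6 (.s k25 k59 4 (.s k38 k51 6 (.d k46
  k34 k29 1 4))))), (.s k12 k4 1 (.s k40 k20 5 (.s k24 k56 3 (.s k36 k48 5 (.d k44 k32 k28 1 3))))),
  (.s k40 k20 5 (.s k42 k21 6 (.s k56 k24 3 (.s k59 k25 4 (.s k57 k58 0 (.d k51 k55 k54 1 2))))))]
  .n) (.c k62 (.q k8 [(.s k12 k4 1 (.s k42 k21 6 (.s k25 k59 4 (.s k38 k51 6 (.d k46 k34 k29 1
  4))))), (.s k12 k4 1 (.s k40 k20 5 (.s k24 k56 3 (.s k36 k48 5 (.d k44 k32 k28 1 3))))), (.s k40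
  k20 5 (.s k42 k21 6 (.s k56 k24 3 (.s k59 k25 4 (.s k57 k58 0 (.d k51 k54 k55 2 1))))))] .n) .n)))
  .n)))))))))))))))

def t155 : T TT 256 :=
  (.q k51 [(.s k34 k17 4 (.s k42 k21 6 (.s k38 k46 1 (.s k25 k12 6 (.d k59 k55 k8 1 4)))))] (.c k8
  (.l (.s k17 k34 4 (.s k21 k42 6 (.s k25 k29 1 (.s k38 k12 6 (.d k55 k59 k4 1 4)))))) (.c k12 (.q
  k3 [(.s k19 k35 3 (.s k23 k43 5 (.s k27 k31 1 (.s k39 k15 5 (.d k55 k59 k7 1 3))))), (.s k1 k2 0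
  (.s k17 k34 4 (.s k33 k49 3 (.s k18 k48 4 (.d k19 k16 k35 0 3))))), (.s k1 k2 0 (.s k21 k42 6 (.s
  k41 k61 5 (.s k22 k60 6 (.d k23 k20 k43 0 5)))))] .n) (.c k17 (.q k3 [(.s k19 k35 3 (.s k23 k43 5
  (.s k27 k31 1 (.s k39 k15 5 (.d k55 k59 k7 1 3))))), (.s k1 k2 0 (.s k21 k42 6 (.s k41 k61 5 (.s
  k22 k60 6 (.d k23 k20 k43 0 5))))), (.s k1 k2 0 (.s k21 k42 6 (.s k41 k61 5 (.s k35 k19 3 (.s k38
  k44 2 (.d k55 k59 k4 1 4))))))] .n) (.c k21 (.q k58 [(.s k48 k53 2 (.s k50 k49 0 (.s k54 k62 1 (.s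
  k57 k60 2 (.d k59 k56 k55 0 1))))), (.s k17 k34 4 (.s k48 k53 2 (.s k16 k32 3 (.s k18 k19 0 (.s
  k33 k3 4 (.d k49 k50 k1 0 3)))))), (.s k53 k48 2 (.s k55 k59 1 (.s k54 k52 0 (.s k62 k50 1 (.d k60
  k61 k57 0 2)))))] (.c k48 (.q k3 [(.s k19 k35 3 (.s k23 k43 5 (.s k27 k31 1 (.s k39 k15 5 (.d k55
  k59 k7 1 3))))), (.s k2 k1 0 (.s k34 k17 4 (.s k50 k18 3 (.s k62 k54 1 (.s k22 k42 5 (.d k60 k61
  k41 0 6)))))), (.s k1 k2 0 (.s k17 k34 4 (.s k49 k33 3 (.s k59 k55 1 (.s k57 k56 0 (.s k61 k53 1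
  (.d k60 k54 k62 2 0)))))))] .n) (.c k50 (.l (.s k53 k48 2 (.s k59 k55 1 (.s k57 k56 0 (.s k61 k49
  1 (.d k60 k62 k54 0 2)))))) (.c k53 (.q k3 [(.s k19 k35 3 (.s k23 k43 5 (.s k27 k31 1 (.s k39 k15
  5 (.d k55 k59 k7 1 3))))), (.s k2 k1 0 (.s k34 k17 4 (.s k18 k50 3 (.s k33 k48 4 (.d k35 k32 k19 0
  3))))), (.s k2 k1 0 (.s k34 k17 4 (.s k59 k55 1 (.s k57 k56 0 (.s k54 k60 2 (.d k50 k62 k18 1
  3))))))] (.c k5 (.q k37 [(.s k19 k35 3 (.s k23 k43 5 (.s k27 k31 1 (.s k39 k15 5 (.d k55 k59 k7 1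
  3))))), (.s k2 k1 0 (.s k34 k17 4 (.s k18 k50 3 (.s k33 k48 4 (.d k35 k32 k19 0 3))))), (.s k2 k1
  0 (.s k34 k17 4 (.s k59 k55 1 (.s k57 k56 0 (.s k54 k60 2 (.d k50 k62 k18 1 3))))))] .n) (.c k37
  (.q k5 [(.s k15 k10 2 (.s k19 k35 3 (.s k23 k43 5 (.d k27 k39 k31 5 1)))), (.s k1 k2 0 (.s k17 k34
  4 (.s k33 k49 3 (.s k19 k35 3 (.d k18 k16 k48 0 4))))), (.s k15 k10 2 (.s k7 k11 1 (.s k23 k43 5
  (.d k39 k27 k55 5 3))))] .n) .n))) .n)))) (.c k25 (.q k3 [(.s k19 k35 3 (.s k23 k43 5 (.s k27 k31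
  1 (.s k39 k15 5 (.d k55 k59 k7 1 3))))), (.s k1 k2 0 (.s k17 k34 4 (.s k33 k49 3 (.s k18 k48 4 (.d
  k19 k16 k35 0 3))))), (.s k1 k2 0 (.s k21 k42 6 (.s k41 k61 5 (.s k22 k60 6 (.d k23 k20 k43 0
  5)))))] .n) (.c k29 (.l (.s k34 k17 4 (.s k59 k55 1 (.s k42 k21 6 (.s k25 k8 4 (.d k38 k46 k12 1
  6)))))) (.c k34 (.q k3 [(.s k2 k1 0 (.s k42 k21 6 (.s k22 k62 5 (.s k41 k60 6 (.d k43 k40 k23 0
  5))))), (.s k19 k35 3 (.s k23 k43 5 (.s k27 k31 1 (.s k39 k15 5 (.d k55 k59 k7 1 3))))), (.s k1 k2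
  0 (.s k21 k42 6 (.s k41 k61 5 (.s k35 k19 3 (.s k38 k44 2 (.d k55 k59 k4 1 4))))))] (.c k102 (.q
  k238 [(.s k2 k1 0 (.s k42 k21 6 (.s k22 k62 5 (.s k41 k60 6 (.d k43 k40 k23 0 5))))), (.s k19 k35
  3 (.s k23 k43 5 (.s k27 k31 1 (.s k39 k15 5 (.d k55 k59 k7 1 3))))), (.s k1 k2 0 (.s k21 k42 6 (.s
  k41 k61 5 (.s k35 k19 3 (.s k38 k44 2 (.d k55 k59 k4 1 4))))))] .n) (.c k238 (.q k102 [(.s k2 k1 0
  (.s k42 k21 6 (.s k22 k62 5 (.s k41 k60 6 (.d k43 k40 k23 0 5))))), (.s k19 k35 3 (.s k153 k204 14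
  (.s k86 k220 10 (.s k252 k169 14 (.d k118 k70 k185 3 10)))))] .n) .n))) (.c k38 (.q k3 [(.s k19
  k35 3 (.s k23 k43 5 (.s k27 k31 1 (.s k39 k15 5 (.d k55 k59 k7 1 3))))), (.s k1 k2 0 (.s k17 k34 4
  (.s k33 k49 3 (.s k18 k48 4 (.d k19 k16 k35 0 3))))), (.s k1 k2 0 (.s k21 k42 6 (.s k41 k61 5 (.s
  k22 k60 6 (.d k23 k20 k43 0 5)))))] .n) (.c k42 (.q k106 [(.s k59 k55 1 (.s k153 k200 12 (.s k102
  k204 14 (.s k192 k149 14 (.d k98 k110 k145 1 12))))), (.s k17 k34 4 (.s k192 k149 14 (.s k128 k64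
  7 (.s k145 k98 12 (.s k81 k209 7 (.d k162 k179 k243 4 12)))))), (.s k55 k59 1 (.s k149 k192 14 (.s
  k102 k196 12 (.s k204 k153 14 (.d k110 k98 k157 1 12)))))] (.c k98 (.l (.s k59 k55 1 (.s k153 k200
  12 (.s k204 k102 14 (.s k149 k192 14 (.d k157 k145 k110 1 12)))))) (.c k102 (.l (.s k34 k17 4 (.s
  k192 k149 14 (.s k98 k145 12 (.s k162 k226 7 (.s k81 k243 12 (.d k64 k128 k115 7 4))))))) (.c k149
  (.q k128 [(.s k192 k64 7 (.s k59 k55 1 (.s k98 k145 12 (.s k153 k200 12 (.d k102 k110 k204 1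
  14))))), (.s k192 k64 7 (.s k145 k98 12 (.s k162 k179 4 (.s k81 k243 12 (.d k17 k34 k209 4 7))))),
  (.s k17 k34 4 (.s k64 k192 7 (.s k59 k55 1 (.s k153 k200 12 (.d k85 k127 k221 6 9)))))] (.c k64
  (.l (.s k34 k17 4 (.s k59 k55 1 (.s k153 k200 12 (.s k102 k204 14 (.s k98 k110 1 (.s k162 k226 7
  (.d k145 k192 k179 12 4)))))))) (.c k192 (.q k58 [(.s k53 k48 2 (.s k59 k55 1 (.s k57 k56 0 (.s
  k61 k49 1 (.d k60 k62 k54 0 2))))), (.s k17 k34 4 (.s k48 k53 2 (.s k16 k32 3 (.s k18 k19 0 (.s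
  k33 k3 4 (.d k49 k50 k1 0 3)))))), (.s k59 k55 1 (.s k56 k57 0 (.s k154 k202 11 (.s k105 k203 12
  (.s k200 k153 12 (.d k104 k107 k152 0 11))))))] (.c k102 (.l (.s k48 k53 2 (.s k50 k49 0 (.s k54
  k62 1 (.s k57 k60 2 (.d k59 k56 k55 0 1)))))) .n)) .n))) (.c k192 (.q k3 [(.s k2 k1 0 (.s k34 k17
  4 (.s k18 k50 3 (.s k33 k48 4 (.d k35 k32 k19 0 3))))), (.s k43 k23 5 (.s k169 k232 8 (.s k252 k86
  14 (.s k59 k55 1 (.s k185 k118 10 (.d k153 k137 k200 3 12))))))] (.c k2 (.l (.s k19 k35 3 (.s k23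
  k43 5 (.s k27 k31 1 (.s k39 k15 5 (.d k55 k59 k7 1 3)))))) .n)) .n))))) (.c k46 (.l (.s k17 k34 4
  (.s k55 k59 1 (.s k21 k42 6 (.s k38 k4 4 (.d k25 k29 k12 1 6)))))) (.c k55 (.q k3 [(.s k2 k1 0 (.s
  k34 k17 4 (.s k18 k50 3 (.s k33 k48 4 (.d k35 k32 k19 0 3))))), (.s k1 k2 0 (.s k21 k42 6 (.s k41
  k61 5 (.s k22 k60 6 (.d k23 k20 k43 0 5))))), (.s k17 k34 4 (.s k21 k42 6 (.s k19 k35 3 (.s k23
  k43 5 (.s k25 k29 1 (.d k22 k20 k28 0 2))))))] .n) (.c k59 (.q k3 [(.s k2 k1 0 (.s k34 k17 4 (.s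
  k18 k50 3 (.s k33 k48 4 (.d k35 k32 k19 0 3))))), (.s k1 k2 0 (.s k21 k42 6 (.s k41 k61 5 (.s k22
  k60 6 (.d k23 k20 k43 0 5))))), (.s k17 k34 4 (.s k21 k42 6 (.s k19 k35 3 (.s k23 k43 5 (.s k25
  k29 1 (.d k22 k20 k28 0 2))))))] (.c k107 (.q k203 [(.s k2 k1 0 (.s k34 k17 4 (.s k18 k50 3 (.s
  k33 k48 4 (.d k35 k32 k19 0 3))))), (.s k1 k2 0 (.s k21 k42 6 (.s k41 k61 5 (.s k22 k60 6 (.d k23
  k20 k43 0 5))))), (.s k17 k34 4 (.s k21 k42 6 (.s k19 k35 3 (.s k23 k43 5 (.s k25 k29 1 (.d k22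
  k20 k28 0 2))))))] .n) (.c k203 (.q k107 [(.s k2 k1 0 (.s k34 k17 4 (.s k18 k50 3 (.s k33 k48 4
  (.d k35 k32 k19 0 3))))), (.s k23 k43 5 (.s k151 k195 13 (.s k87 k215 7 (.s k255 k171 13 (.d k127
  k67 k191 5 7)))))] .n) .n))) .n)))))))))))))

def t159 : T TT 256 :=
  (.q k48 [(.s k32 k16 3 (.s k42 k21 6 (.s k37 k47 2 (.s k26 k15 6 (.d k58 k53 k10 2 3)))))] (.c k10
  (.l (.s k16 k32 3 (.s k21 k42 6 (.s k26 k31 2 (.s k37 k15 6 (.d k53 k58 k5 2 3)))))) (.c k15 (.q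
  k51 [(.s k32 k16 3 (.s k34 k17 4 (.s k33 k35 0 (.s k18 k3 4 (.d k50 k49 k2 0 3))))), (.s k17 k34 4
  (.s k21 k42 6 (.s k25 k29 1 (.s k38 k12 6 (.d k55 k59 k4 1 4))))), (.s k49 k50 0 (.s k53 k58 2 (.s
  k57 k61 1 (.s k54 k60 2 (.d k55 k52 k59 0 1)))))] .n) (.c k16 (.q k51 [(.s k49 k50 0 (.s k53 k58 2
  (.s k57 k61 1 (.s k54 k60 2 (.d k55 k52 k59 0 1))))), (.s k17 k34 4 (.s k21 k42 6 (.s k25 k29 1
  (.s k38 k12 6 (.d k55 k59 k4 1 4))))), (.s k17 k34 4 (.s k21 k42 6 (.s k25 k29 1 (.s k49 k50 0 (.s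
  k37 k13 5 (.d k53 k58 k5 2 3))))))] .n) (.c k21 (.q k51 [(.s k49 k50 0 (.s k53 k58 2 (.s k57 k61 1
  (.s k54 k60 2 (.d k55 k52 k59 0 1))))), (.s k32 k16 3 (.s k34 k17 4 (.s k33 k35 0 (.s k18 k3 4 (.d
  k50 k49 k2 0 3)))))] (.c k49 (.q k106 [(.s k55 k59 1 (.s k149 k192 14 (.s k102 k196 12 (.s k110
  k98 1 (.d k204 k157 k153 12 14))))), (.s k58 k53 2 (.s k154 k202 11 (.s k101 k207 14 (.s k192 k149
  14 (.d k96 k111 k144 2 11))))), (.s k58 k53 2 (.s k59 k55 1 (.s k154 k202 11 (.s k153 k200 12 (.s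
  k152 k155 0 (.d k204 k100 k102 13 14))))))] .n) (.c k50 (.q k106 [(.s k55 k59 1 (.s k149 k192 14
  (.s k102 k196 12 (.s k204 k153 14 (.d k110 k98 k157 1 12))))), (.s k58 k53 2 (.s k154 k202 11 (.s
  k101 k207 14 (.s k192 k149 14 (.d k96 k111 k144 2 11))))), (.s k58 k53 2 (.s k59 k55 1 (.s k154
  k202 11 (.s k153 k200 12 (.s k152 k155 0 (.d k204 k100 k102 13 14))))))] .n) .n))) (.c k26 (.q k51
  [(.s k32 k16 3 (.s k34 k17 4 (.s k33 k35 0 (.s k18 k3 4 (.d k50 k49 k2 0 3))))), (.s k49 k50 0 (.s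
  k53 k58 2 (.s k57 k61 1 (.s k54 k60 2 (.d k55 k52 k59 0 1))))), (.s k17 k34 4 (.s k21 k42 6 (.s
  k25 k29 1 (.s k38 k12 6 (.d k55 k59 k4 1 4)))))] .n) (.c k31 (.l (.s k32 k16 3 (.s k58 k53 2 (.s
  k42 k21 6 (.s k26 k10 3 (.d k37 k47 k15 2 6)))))) (.c k32 (.q k51 [(.s k34 k17 4 (.s k42 k21 6 (.s
  k38 k46 1 (.s k25 k12 6 (.d k59 k55 k8 1 4))))), (.s k49 k50 0 (.s k53 k58 2 (.s k57 k61 1 (.s k54
  k60 2 (.d k55 k52 k59 0 1))))), (.s k17 k34 4 (.s k21 k42 6 (.s k25 k29 1 (.s k49 k50 0 (.s k37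
  k13 5 (.d k53 k58 k5 2 3))))))] (.c k101 (.q k239 [(.s k34 k17 4 (.s k42 k21 6 (.s k38 k46 1 (.s
  k25 k12 6 (.d k59 k55 k8 1 4))))), (.s k49 k50 0 (.s k53 k58 2 (.s k57 k61 1 (.s k54 k60 2 (.d k55
  k52 k59 0 1))))), (.s k17 k34 4 (.s k21 k42 6 (.s k25 k29 1 (.s k49 k50 0 (.s k37 k13 5 (.d k53
  k58 k5 2 3))))))] .n) (.c k239 (.q k101 [(.s k34 k17 4 (.s k42 k21 6 (.s k38 k46 1 (.s k25 k12 6
  (.d k59 k55 k8 1 4))))), (.s k49 k50 0 (.s k154 k207 14 (.s k153 k205 13 (.s k204 k102 14 (.d k152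
  k155 k100 0 13)))))] (.c k34 (.l (.s k49 k50 0 (.s k53 k58 2 (.s k57 k61 1 (.s k54 k60 2 (.d k55
  k52 k59 0 1)))))) .n)) .n))) (.c k37 (.q k51 [(.s k32 k16 3 (.s k34 k17 4 (.s k33 k35 0 (.s k18 k3
  4 (.d k50 k49 k2 0 3))))), (.s k49 k50 0 (.s k53 k58 2 (.s k57 k61 1 (.s k54 k60 2 (.d k55 k52 k59
  0 1))))), (.s k17 k34 4 (.s k21 k42 6 (.s k25 k29 1 (.s k38 k12 6 (.d k55 k59 k4 1 4)))))] .n) (.c
  k42 (.q k106 [(.s k58 k53 2 (.s k154 k202 11 (.s k101 k207 14 (.s k96 k111 2 (.d k192 k144 k149 11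
  14))))), (.s k192 k149 14 (.s k128 k64 7 (.s k144 k96 11 (.s k160 k176 3 (.s k80 k240 11 (.d k16
  k32 k208 3 7)))))), (.s k16 k32 3 (.s k58 k53 2 (.s k154 k202 11 (.s k85 k223 10 (.s k192 k149 14
  (.d k64 k128 k127 7 6))))))] (.c k149 (.q k154 [(.d k58 k53 k202 2 11), (.s k16 k32 3 (.s k85 k223
  10 (.s k101 k207 14 (.s k64 k127 6 (.s k96 k111 2 (.d k192 k128 k144 7 11))))))] (.c k128 (.q k191
  [(.d k58 k53 k202 2 11), (.s k16 k32 3 (.s k85 k223 10 (.d k127 k64 k255 6 7)))] .n) (.c k191 (.q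
  k128 [(.d k58 k53 k202 2 11), (.s k16 k32 3 (.s k64 k192 7 (.d k85 k127 k223 6 10)))] (.c k143 (.q
  k175 [(.d k58 k53 k202 2 11), (.s k16 k32 3 (.s k64 k192 7 (.d k85 k127 k223 6 10)))] .n) (.c k175
  (.q k143 [(.d k58 k53 k202 2 11), (.s k138 k133 2 (.d k207 k69 k101 10 14))] (.c k160 (.l (.s k165
  k176 6 (.d k58 k53 k202 2 11))) (.c k165 (.q k160 [(.d k58 k53 k202 2 11), (.s k192 k64 7 (.d k144
  k176 k96 3 11))] (.c k133 (.q k181 [(.d k58 k53 k202 2 11), (.d k240 k122 k80 10 11)] .n) (.c k181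
  (.l (.s k133 k138 2 (.d k58 k53 k202 2 11))) .n))) .n))) .n))) .n))) (.c k154 (.l (.s k16 k32 3
  (.s k192 k149 14 (.s k144 k96 11 (.s k128 k64 7 (.s k80 k208 7 (.d k160 k176 k240 3 11))))))) (.c
  k192 (.q k51 [(.s k32 k16 3 (.s k34 k17 4 (.s k33 k35 0 (.s k18 k3 4 (.d k50 k49 k2 0 3))))), (.s
  k58 k53 2 (.s k59 k55 1 (.s k154 k202 11 (.s k207 k101 14 (.s k155 k103 13 (.d k153 k152 k200 0
  12))))))] (.c k32 (.l (.s k49 k50 0 (.s k53 k58 2 (.s k57 k61 1 (.s k54 k60 2 (.d k55 k52 k59 0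
  1)))))) .n)) .n)))) (.c k47 (.l (.s k16 k32 3 (.s k53 k58 2 (.s k21 k42 6 (.s k37 k5 3 (.d k26 k31
  k15 2 6)))))) (.c k53 (.q k51 [(.s k32 k16 3 (.s k34 k17 4 (.s k33 k35 0 (.s k18 k3 4 (.d k50 k49
  k2 0 3))))), (.s k17 k34 4 (.s k21 k42 6 (.s k25 k29 1 (.s k38 k12 6 (.d k55 k59 k4 1 4))))), (.s
  k16 k32 3 (.s k21 k42 6 (.s k26 k31 2 (.s k50 k49 0 (.s k38 k14 5 (.d k55 k59 k4 1 4))))))] .n)
  (.c k58 (.q k51 [(.s k32 k16 3 (.s k34 k17 4 (.s k33 k35 0 (.s k18 k3 4 (.d k50 k49 k2 0 3))))),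
  (.s k17 k34 4 (.s k21 k42 6 (.s k25 k29 1 (.s k38 k12 6 (.d k55 k59 k4 1 4))))), (.s k16 k32 3 (.s
  k21 k42 6 (.s k26 k31 2 (.s k50 k49 0 (.s k38 k14 5 (.d k55 k59 k4 1 4))))))] .n) .n)))))))))))))

def t171 : T TT 256 :=
  (.q k12 [(.s k8 k4 1 (.s k42 k21 6 (.s k25 k59 4 (.s k38 k51 6 (.d k46 k34 k29 1 4)))))] (.c k4
  (.q k89 [(.s k29 k46 4 (.s k166 k243 14 (.s k149 k209 9 (.s k132 k183 4 (.d k192 k72 k106 9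
  14))))), (.s k21 k42 6 (.s k29 k46 4 (.s k17 k25 1 (.s k149 k209 9 (.s k85 k213 7 (.s k221 k153 9
  (.d k93 k81 k157 1 7))))))), (.s k21 k42 6 (.s k243 k166 14 (.s k123 k183 9 (.s k106 k72 4 (.s
  k149 k192 14 (.s k85 k213 7 (.d k81 k162 k93 12 1)))))))] (.c k106 (.f k42 k21 6 (.l (.s k46 k29 4
  (.s k166 k243 14 (.s k38 k34 1 (.s k102 k230 7 (.s k76 k115 6 (.s k204 k140 7 (.d k51 k25 k153 6
  14))))))))) (.c k149 (.f k42 k21 6 (.l (.s k46 k29 4 (.s k166 k243 14 (.s k38 k34 1 (.s k25 k51 6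
  (.s k59 k8 4 (.s k153 k217 7 (.d k106 k226 k200 9 12))))))))) (.c k168 (.q k169 [(.s k29 k46 4 (.s
  k166 k243 14 (.s k149 k209 9 (.s k192 k106 14 (.d k132 k183 k72 4 9))))), (.s k9 k249 11 (.s k3 k6
  2 (.s k86 k252 14 (.s k243 k166 14 (.d k83 k92 k163 2 11))))), (.s k9 k249 11 (.s k3 k6 2 (.s k23
  k43 5 (.s k29 k46 4 (.s k149 k209 9 (.d k86 k212 k252 8 14))))))] .n) (.c k169 (.q k168 [(.s k29
  k46 4 (.s k166 k243 14 (.s k149 k209 9 (.s k132 k183 4 (.d k192 k72 k106 9 14))))), (.s k21 k42 6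
  (.s k29 k46 4 (.s k17 k25 1 (.s k149 k209 9 (.s k85 k213 7 (.s k221 k153 9 (.d k93 k81 k157 1
  7))))))), (.s k21 k42 6 (.s k243 k166 14 (.s k123 k183 9 (.s k106 k72 4 (.s k149 k192 14 (.s k85
  k213 7 (.d k81 k162 k93 12 1)))))))] (.c k106 (.f k42 k21 6 (.l (.s k46 k29 4 (.s k166 k243 14 (.s
  k38 k34 1 (.s k102 k230 7 (.s k76 k115 6 (.s k204 k140 7 (.d k51 k25 k153 6 14))))))))) (.c k149
  (.l (.s k252 k84 13 (.s k46 k29 4 (.s k166 k243 14 (.s k92 k172 11 (.s k106 k226 9 (.s k86 k83 2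
  (.d k126 k66 k189 5 8)))))))) .n))) .n))))) (.c k8 (.q k89 [(.s k29 k46 4 (.s k166 k243 14 (.s
  k149 k209 9 (.s k132 k183 4 (.d k192 k72 k106 9 14))))), (.s k21 k42 6 (.s k29 k46 4 (.s k149 k209
  9 (.s k85 k213 7 (.s k93 k81 1 (.s k221 k157 7 (.d k17 k25 k153 1 9))))))), (.s k21 k42 6 (.s k243
  k166 14 (.s k123 k183 9 (.s k106 k72 4 (.s k149 k192 14 (.s k85 k213 7 (.d k81 k162 k93 12
  1)))))))] (.c k106 (.f k42 k21 6 (.l (.s k46 k29 4 (.s k166 k243 14 (.s k38 k34 1 (.s k102 k230 7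
  (.s k76 k115 6 (.s k204 k140 7 (.d k51 k25 k153 6 14))))))))) (.c k149 (.f k42 k21 6 (.l (.s k46
  k29 4 (.s k166 k243 14 (.s k38 k34 1 (.s k102 k230 7 (.s k76 k115 6 (.s k204 k140 7 (.d k51 k25
  k153 6 14))))))))) (.c k168 (.q k169 [(.s k9 k249 11 (.s k3 k6 2 (.s k86 k252 14 (.s k83 k92 2 (.d
  k243 k163 k166 11 14))))), (.s k29 k46 4 (.s k166 k243 14 (.s k149 k209 9 (.s k192 k106 14 (.d
  k132 k183 k72 4 9))))), (.s k9 k249 11 (.s k3 k6 2 (.s k23 k43 5 (.s k29 k46 4 (.s k149 k209 9 (.d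
  k86 k212 k252 8 14))))))] (.c k88 (.q k248 [(.s k9 k249 11 (.s k3 k6 2 (.s k86 k252 14 (.s k243
  k166 14 (.d k83 k92 k163 2 11))))), (.s k29 k46 4 (.s k166 k243 14 (.s k149 k209 9 (.s k192 k106
  14 (.d k132 k183 k72 4 9))))), (.s k9 k249 11 (.s k3 k6 2 (.s k1 k2 0 (.s k5 k13 1 (.s k11 k90 12
  (.d k15 k10 k7 2 1))))))] .n) (.c k248 (.q k88 [(.s k29 k46 4 (.s k166 k243 14 (.s k149 k209 9 (.s
  k192 k106 14 (.d k132 k183 k72 4 9))))), (.s k9 k249 11 (.s k3 k6 2 (.s k86 k252 14 (.s k243 k166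
  14 (.d k83 k92 k163 2 11))))), (.s k9 k249 11 (.s k3 k6 2 (.s k23 k43 5 (.s k29 k46 4 (.s k149
  k209 9 (.d k86 k212 k252 8 14))))))] .n) .n))) (.c k169 (.q k168 [(.s k29 k46 4 (.s k166 k243 14
  (.s k149 k209 9 (.s k132 k183 4 (.d k192 k72 k106 9 14))))), (.s k21 k42 6 (.s k29 k46 4 (.s k149
  k209 9 (.s k85 k213 7 (.s k93 k81 1 (.s k221 k157 7 (.d k17 k25 k153 1 9))))))), (.s k21 k42 6 (.s
  k243 k166 14 (.s k123 k183 9 (.s k106 k72 4 (.s k149 k192 14 (.s k85 k213 7 (.d k81 k162 k93 12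
  1)))))))] (.c k106 (.f k42 k21 6 (.l (.s k46 k29 4 (.s k166 k243 14 (.s k38 k34 1 (.s k102 k230 7
  (.s k76 k115 6 (.s k204 k140 7 (.d k51 k25 k153 6 14))))))))) (.c k149 (.l (.s k252 k84 13 (.s k46
  k29 4 (.s k166 k243 14 (.s k92 k172 11 (.s k106 k226 9 (.s k86 k83 2 (.d k126 k66 k189 5 8))))))))
  .n))) .n))))) (.c k21 (.q k192 [(.s k4 k8 1 (.s k128 k64 7 (.s k132 k72 9 (.s k68 k196 7 (.d k136
  k140 k204 1 9))))), (.s k29 k46 4 (.s k132 k72 9 (.s k149 k106 14 (.s k89 k209 9 (.d k166 k183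
  k243 4 14))))), (.s k4 k8 1 (.s k46 k29 4 (.s k106 k149 14 (.s k166 k226 9 (.s k85 k247 12 (.d k64
  k128 k127 7 6))))))] (.c k89 (.l (.s k8 k4 1 (.s k64 k128 7 (.s k72 k132 9 (.s k136 k200 7 (.d k68
  k76 k204 1 9)))))) (.c k168 (.q k169 [(.s k29 k46 4 (.s k132 k72 9 (.s k149 k106 14 (.s k89 k209 9
  (.d k166 k183 k243 4 14))))), (.s k106 k149 14 (.s k43 k232 8 (.s k3 k23 5 (.s k66 k129 8 (.d k86
  k126 k252 5 14))))), (.s k4 k8 1 (.s k128 k64 7 (.s k132 k72 9 (.s k68 k196 7 (.d k136 k140 k204 1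
  9)))))] .n) (.c k169 (.q k168 [(.s k4 k8 1 (.s k128 k64 7 (.s k132 k72 9 (.s k68 k196 7 (.d k136
  k140 k204 1 9))))), (.s k64 k128 7 (.s k84 k252 13 (.s k104 k124 5 (.s k40 k232 7 (.d k60 k20 k148
  5 13))))), (.s k4 k8 1 (.s k84 k252 13 (.s k164 k244 11 (.s k240 k88 13 (.d k160 k172 k80 1
  11)))))] .n) .n)))) (.c k25 (.q k106 [(.s k29 k46 4 (.s k149 k192 14 (.s k89 k209 9 (.s k123 k72 4
  (.d k243 k183 k166 9 14))))), (.s k4 k8 1 (.s k192 k149 14 (.s k128 k64 7 (.s k132 k72 9 (.s k68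
  k196 7 (.d k136 k140 k204 1 9))))))] (.c k72 (.l (.s k46 k29 4 (.s k166 k226 9 (.s k243 k89 14 (.s
  k149 k192 14 (.d k183 k132 k123 4 9)))))) (.c k89 (.l (.s k8 k4 1 (.s k192 k149 14 (.s k72 k132 9
  (.s k136 k200 7 (.s k68 k204 9 (.d k64 k128 k76 7 1))))))) (.c k149 (.q k169 [(.s k46 k29 4 (.s
  k43 k232 8 (.s k3 k23 5 (.s k9 k6 2 (.s k89 k249 11 (.d k166 k226 k243 9 14)))))), (.s k42 k21 6
  (.s k43 k232 8 (.s k3 k23 5 (.s k2 k1 0 (.s k22 k62 5 (.d k41 k40 k60 0 6)))))), (.s k46 k29 4 (.s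
  k166 k226 9 (.s k172 k163 2 (.s k252 k92 11 (.s k86 k3 14 (.d k126 k66 k189 5 8)))))), (.s k43
  k232 8 (.s k3 k23 5 (.s k9 k6 2 (.s k89 k249 11 (.s k243 k166 14 (.d k123 k183 k72 9 4))))))] (.c
  k3 (.f k42 k21 6 (.l (.s k8 k4 1 (.s k43 k232 8 (.s k40 k41 0 (.s k60 k20 5 (.s k24 k56 3 (.s k36
  k48 5 (.d k44 k32 k28 1 3))))))))) (.c k86 (.l (.s k46 k29 4 (.s k43 k232 8 (.s k166 k226 9 (.s
  k89 k243 14 (.s k9 k249 11 (.d k3 k6 k23 2 5))))))) (.c k128 (.q k191 [(.s k43 k232 8 (.s k3 k23 5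
  (.s k1 k2 0 (.s k85 k253 13 (.d k127 k64 k255 6 7))))), (.s k46 k29 4 (.s k255 k127 7 (.s k174 k93
  12 (.s k110 k238 7 (.d k157 k140 k204 4 12))))), (.s k42 k21 6 (.s k43 k232 8 (.s k3 k23 5 (.s k2
  k1 0 (.s k22 k62 5 (.d k41 k40 k60 0 6))))))] .n) (.c k191 (.q k128 [(.s k64 k192 7 (.s k43 k232 8
  (.s k3 k23 5 (.s k1 k2 0 (.d k85 k127 k253 6 13))))), (.s k4 k8 1 (.s k192 k64 7 (.s k132 k72 9
  (.s k68 k196 7 (.d k136 k140 k204 1 9))))), (.s k42 k21 6 (.s k43 k232 8 (.s k3 k23 5 (.s k2 k1 0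
  (.s k22 k62 5 (.d k41 k40 k60 0 6))))))] (.c k131 (.q k151 [(.s k4 k8 1 (.s k64 k192 7 (.s k85
  k127 6 (.s k166 k247 12 (.d k46 k29 k226 4 9))))), (.s k42 k21 6 (.s k43 k232 8 (.s k41 k40 0 (.s
  k105 k233 7 (.d k107 k104 k195 0 13))))), (.s k4 k8 1 (.s k192 k64 7 (.s k132 k72 9 (.s k68 k196 7
  (.d k136 k140 k204 1 9)))))] (.c k42 (.l (.s k64 k192 7 (.s k46 k29 4 (.s k166 k226 9 (.s k85 k127
  6 (.d k4 k8 k247 1 12)))))) .n)) (.c k151 (.q k131 [(.s k192 k64 7 (.s k43 k232 8 (.s k129 k130 0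
  (.d k3 k23 k66 5 8)))), (.s k4 k8 1 (.s k64 k192 7 (.s k46 k29 4 (.s k166 k226 9 (.d k85 k127 k247
  6 12))))), (.s k43 k232 8 (.s k3 k23 5 (.s k195 k67 7 (.d k130 k129 k65 0 8))))] (.c k148 (.l (.s
  k150 k188 6 (.s k192 k64 7 (.s k43 k232 8 (.s k3 k23 5 (.d k129 k130 k66 0 8)))))) (.c k150 (.q
  k148 [(.s k168 k188 5 (.s k252 k84 13 (.s k86 k3 14 (.d k126 k189 k66 8 5)))), (.s k192 k64 7 (.s
  k232 k43 8 (.s k104 k60 13 (.d k168 k188 k40 5 7)))), (.s k192 k64 7 (.s k43 k232 8 (.s k3 k23 5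
  (.d k129 k130 k66 0 8))))] (.c k130 (.q k190 [(.s k192 k64 7 (.s k232 k43 8 (.s k168 k188 5 (.d
  k252 k212 k84 5 13)))), (.s k4 k8 1 (.s k64 k192 7 (.s k46 k29 4 (.s k166 k226 9 (.d k85 k127 k247
  6 12))))), (.s k168 k188 5 (.s k252 k84 13 (.s k86 k3 14 (.d k126 k66 k189 5 8))))] .n) (.c k190
  (.l (.s k130 k129 0 (.s k195 k65 8 (.s k3 k67 7 (.d k43 k23 k232 5 8))))) .n))) .n))) .n)))
  .n))))) (.c k168 (.q k169 [(.s k29 k46 4 (.s k149 k192 14 (.s k89 k209 9 (.s k123 k72 4 (.d k243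
  k183 k166 9 14))))), (.s k42 k21 6 (.s k43 k232 8 (.s k3 k23 5 (.s k2 k1 0 (.s k22 k62 5 (.d k41
  k40 k60 0 6))))))] (.c k29 (.l (.s k43 k232 8 (.s k3 k23 5 (.s k86 k252 14 (.s k192 k149 14 (.d
  k66 k126 k129 5 8)))))) .n)) (.c k169 (.q k168 [(.s k8 k4 1 (.s k252 k84 13 (.s k88 k248 11 (.s
  k164 k240 13 (.d k172 k160 k92 1 11))))), (.s k29 k46 4 (.s k149 k192 14 (.s k89 k209 9 (.s k243
  k166 14 (.d k123 k72 k183 4 9)))))] (.c k172 (.l (.s k8 k4 1 (.s k84 k252 13 (.s k88 k248 11 (.s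
  k240 k164 13 (.d k80 k92 k160 1 11)))))) .n)) (.c k192 (.q k169 [(.s k43 k232 8 (.s k3 k23 5 (.s
  k9 k6 2 (.s k89 k249 11 (.s k166 k243 14 (.d k46 k226 k29 9 4)))))), (.s k42 k21 6 (.s k43 k232 8
  (.s k3 k23 5 (.s k2 k1 0 (.s k22 k62 5 (.d k41 k40 k60 0 6)))))), (.s k46 k29 4 (.s k166 k226 9
  (.s k172 k163 2 (.s k252 k92 11 (.s k86 k3 14 (.d k126 k66 k189 5 8))))))] (.c k3 (.f k42 k21 6
  (.l (.s k8 k4 1 (.s k43 k232 8 (.s k40 k41 0 (.s k60 k20 5 (.s k24 k56 3 (.s k36 k48 5 (.d k44 k32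
  k28 1 3))))))))) (.c k29 (.l (.s k43 k232 8 (.s k3 k23 5 (.s k9 k6 2 (.s k89 k249 11 (.s k243 k166
  14 (.d k123 k72 k183 4 9))))))) (.c k252 (.l (.s k46 k29 4 (.s k166 k226 9 (.s k243 k89 14 (.s
  k163 k172 2 (.s k3 k83 11 (.d k43 k23 k232 5 8))))))) .n)))) .n))))))) (.c k29 (.q k32 [(.s k48
  k16 3 (.s k42 k21 6 (.s k37 k47 2 (.s k26 k15 6 (.d k58 k53 k10 2 3))))), (.s k4 k8 1 (.s k48 k16
  3 (.s k36 k24 5 (.s k20 k52 3 (.d k40 k44 k60 1 5)))))] (.c k16 (.q k168 [(.s k8 k4 1 (.s k84 k252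
  13 (.s k88 k248 11 (.s k240 k164 13 (.d k80 k92 k160 1 11))))), (.s k42 k21 6 (.s k252 k84 13 (.s
  k47 k37 2 (.s k236 k100 9 (.s k110 k173 8 (.d k204 k220 k157 3 12)))))), (.s k8 k4 1 (.s k88 k248
  11 (.s k100 k236 9 (.s k76 k112 5 (.s k204 k140 7 (.s k136 k68 9 (.d k152 k184 k48 3 13)))))))]
  .n) (.c k48 (.f k42 k21 6 (.l (.s k4 k8 1 (.s k47 k37 2 (.s k15 k31 3 (.s k5 k10 2 (.s k6 k7 0 (.s
  k9 k3 2 (.d k13 k14 k1 0 1))))))))) (.c k168 (.q k169 [(.s k48 k16 3 (.s k42 k21 6 (.s k37 k47 2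
  (.s k26 k15 6 (.d k58 k53 k10 2 3))))), (.s k4 k8 1 (.s k48 k16 3 (.s k36 k24 5 (.s k20 k52 3 (.d
  k40 k44 k60 1 5)))))] (.c k16 (.f k42 k21 6 (.l (.s k8 k4 1 (.s k25 k59 4 (.s k38 k51 6 (.s k37
  k47 2 (.s k36 k39 0 (.s k24 k48 5 (.d k40 k44 k56 1 3))))))))) (.c k48 (.f k42 k21 6 (.l (.s k4 k8
  1 (.s k47 k37 2 (.s k15 k31 3 (.s k5 k10 2 (.s k6 k7 0 (.s k9 k3 2 (.d k13 k14 k1 0 1)))))))))
  .n))) (.c k169 (.q k168 [(.s k48 k16 3 (.s k42 k21 6 (.s k37 k47 2 (.s k26 k15 6 (.d k58 k53 k10 2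
  3))))), (.s k4 k8 1 (.s k84 k252 13 (.s k164 k244 11 (.s k240 k88 13 (.d k160 k172 k80 1 11)))))]
  .n) .n))))) (.c k34 (.l (.s k4 k8 1 (.s k21 k42 6 (.s k38 k55 4 (.s k25 k51 6 (.d k29 k46 k17 4
  1)))))) (.c k38 (.q k32 [(.s k48 k16 3 (.s k42 k21 6 (.s k37 k47 2 (.s k26 k15 6 (.d k58 k53 k10 2
  3))))), (.s k4 k8 1 (.s k48 k16 3 (.s k36 k24 5 (.s k20 k52 3 (.d k40 k44 k60 1 5))))), (.s k42
  k21 6 (.s k46 k29 4 (.s k47 k37 2 (.s k44 k45 0 (.s k60 k28 3 (.d k40 k36 k20 1 5))))))] (.c k4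
  (.l (.s k48 k16 3 (.s k36 k24 5 (.s k46 k29 4 (.s k44 k40 1 (.s k47 k45 0 (.d k42 k37 k21 2
  6))))))) (.c k168 (.q k169 [(.s k48 k16 3 (.s k42 k21 6 (.s k37 k47 2 (.s k26 k15 6 (.d k58 k53
  k10 2 3))))), (.s k4 k8 1 (.s k48 k16 3 (.s k36 k24 5 (.s k20 k52 3 (.d k40 k44 k60 1 5))))), (.s
  k42 k21 6 (.s k46 k29 4 (.s k47 k37 2 (.s k44 k45 0 (.s k60 k28 3 (.d k40 k36 k20 1 5))))))] (.c
  k4 (.l (.s k48 k16 3 (.s k36 k24 5 (.s k46 k29 4 (.s k44 k40 1 (.s k47 k45 0 (.d k42 k37 k21 2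
  6))))))) .n)) (.c k169 (.q k168 [(.s k48 k16 3 (.s k42 k21 6 (.s k37 k47 2 (.s k26 k15 6 (.d k58
  k53 k10 2 3))))), (.s k4 k8 1 (.s k84 k252 13 (.s k164 k244 11 (.s k240 k88 13 (.d k160 k172 k80 1
  11)))))] (.c k4 (.l (.s k48 k16 3 (.s k84 k252 13 (.s k100 k236 9 (.s k204 k152 13 (.d k68 k116
  k136 3 9)))))) .n)) .n)))) (.c k42 (.f k46 k29 4 (.q k106 [(.s k166 k226 9 (.s k89 k243 14 (.s k72
  k123 4 (.d k192 k132 k149 9 14)))), (.s k4 k8 1 (.s k166 k226 9 (.s k85 k247 12 (.s k127 k64 6 (.s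
  k255 k191 7 (.s k93 k174 12 (.d k89 k81 k243 1 14))))))), (.s k4 k8 1 (.s k192 k149 14 (.s k128
  k64 7 (.s k132 k72 9 (.s k68 k196 7 (.d k136 k140 k204 1 9))))))] (.c k89 (.f k8 k4 1 (.q k168
  [(.s k84 k252 13 (.s k88 k248 11 (.s k240 k164 13 (.d k80 k92 k160 1 11)))), (.s k252 k84 13 (.s
  k166 k226 9 (.s k126 k189 8 (.s k86 k66 5 (.s k3 k169 14 (.d k6 k9 k246 2 11))))))] (.c k84 (.f
  k88 k248 11 (.l (.s k164 k240 13 (.s k166 k226 9 (.s k149 k192 14 (.s k172 k160 1 (.s k252 k92 11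
  (.s k189 k126 8 (.d k169 k163 k129 2 5))))))))) (.c k149 (.q k209 [(.s k84 k252 13 (.s k88 k248 11
  (.s k240 k164 13 (.d k80 k92 k160 1 11)))), (.s k84 k252 13 (.s k226 k166 9 (.s k192 k243 4 (.s
  k128 k64 7 (.s k148 k188 5 (.s k20 k212 7 (.d k60 k40 k104 5 13)))))))] (.c k84 (.l (.s k88 k248
  11 (.s k164 k240 13 (.s k226 k166 9 (.s k192 k243 4 (.s k128 k64 7 (.s k132 k72 9 (.d k148 k180
  k188 3 5)))))))) (.c k128 (.q k191 [(.s k84 k252 13 (.s k88 k248 11 (.s k240 k164 13 (.d k80 k92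
  k160 1 11)))), (.s k255 k127 7 (.s k174 k93 12 (.s k110 k238 7 (.d k157 k140 k204 4 12))))] .n)
  (.c k191 (.q k128 [(.s k192 k64 7 (.d k226 k243 k166 4 9)), (.s k84 k252 13 (.s k88 k248 11 (.s
  k240 k164 13 (.d k80 k92 k160 1 11))))] (.c k131 (.q k151 [(.s k192 k64 7 (.d k226 k243 k166 4
  9)), (.s k84 k252 13 (.s k88 k248 11 (.s k240 k164 13 (.d k80 k92 k160 1 11))))] .n) (.c k151 (.q
  k131 [(.s k192 k64 7 (.d k226 k243 k166 4 9)), (.s k84 k252 13 (.s k88 k248 11 (.s k240 k164 13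
  (.d k80 k92 k160 1 11))))] (.c k148 (.q k150 [(.s k192 k64 7 (.d k226 k243 k166 4 9)), (.s k84
  k252 13 (.s k88 k248 11 (.s k240 k164 13 (.d k80 k92 k160 1 11))))] .n) (.c k150 (.l (.s k148 k188
  5 (.s k192 k64 7 (.d k226 k243 k166 4 9)))) .n))) .n))) (.c k252 (.l (.s k88 k248 11 (.s k240 k164
  13 (.s k166 k226 9 (.s k122 k181 10 (.s k90 k74 3 (.s k14 k242 13 (.d k15 k165 k13 14 0))))))))
  .n))))) (.c k164 (.q k209 [(.s k192 k149 14 (.d k226 k243 k166 4 9)), (.s k84 k252 13 (.s k192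
  k149 14 (.s k128 k64 7 (.s k148 k188 5 (.s k20 k212 7 (.d k60 k40 k104 5 13)))))), (.s k226 k166 9
  (.d k192 k243 k149 4 14))] (.c k84 (.q k244 [(.s k192 k149 14 (.d k226 k243 k166 4 9)), (.s k248
  k88 11 (.s k166 k226 9 (.s k240 k252 1 (.s k122 k181 10 (.s k90 k74 3 (.s k14 k242 13 (.d k15 k13
  k165 0 14))))))), (.s k88 k248 11 (.s k192 k149 14 (.s k128 k64 7 (.s k148 k188 5 (.s k28 k208 9
  (.d k60 k104 k44 13 3))))))] .n) (.c k149 (.l (.s k84 k252 13 (.s k226 k166 9 (.s k192 k243 4 (.s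
  k128 k64 7 (.s k148 k188 5 (.s k20 k212 7 (.d k60 k40 k104 5 13)))))))) (.c k192 (.q k90 [(.s k248
  k88 11 (.s k122 k74 3 (.s k240 k181 10 (.d k252 k244 k84 1 13)))), (.s k166 k226 9 (.s k14 k242 13
  (.s k15 k13 0 (.s k47 k31 3 (.d k165 k224 k240 10 14))))), (.s k248 k88 11 (.s k169 k11 12 (.s k43
  k232 8 (.s k3 k23 5 (.d k252 k84 k86 13 14)))))] (.c k84 (.q k244 [(.s k122 k74 3 (.s k240 k181 10
  (.d k248 k252 k88 1 11))), (.s k166 k226 9 (.s k14 k242 13 (.s k15 k13 0 (.s k47 k31 3 (.d k165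
  k224 k240 10 14))))), (.s k166 k226 9 (.s k14 k242 13 (.s k62 k30 3 (.s k194 k150 13 (.d k74 k122
  k134 3 9)))))] .n) (.c k244 (.l (.s k84 k252 13 (.s k122 k74 3 (.s k88 k248 11 (.s k240 k181 10
  (.d k80 k92 k160 1 11)))))) .n))) (.c k244 (.l (.s k84 k252 13 (.s k226 k166 9 (.d k192 k243 k149
  4 14)))) .n))))) (.c k209 (.l (.s k149 k192 14 (.s k84 k252 13 (.s k88 k248 11 (.s k240 k164 13
  (.d k80 k92 k160 1 11)))))) (.c k244 (.l (.s k84 k252 13 (.s k88 k248 11 (.s k240 k164 13 (.d k80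
  k92 k160 1 11))))) (.c k252 (.l (.s k88 k248 11 (.s k240 k164 13 (.s k166 k226 9 (.s k122 k181 10
  (.s k90 k74 3 (.s k14 k242 13 (.d k15 k13 k165 0 14)))))))) .n)))))))) (.c k149 (.l (.s k4 k8 1
  (.s k166 k226 9 (.s k85 k247 12 (.s k89 k243 14 (.s k64 k127 6 (.s k72 k123 4 (.d k192 k128 k132 7
  9)))))))) (.c k168 (.q k169 [(.s k166 k226 9 (.s k89 k243 14 (.s k72 k123 4 (.d k192 k132 k149 9
  14)))), (.s k43 k232 8 (.s k3 k23 5 (.s k6 k9 2 (.s k166 k226 9 (.d k86 k246 k252 11 14))))), (.s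
  k43 k232 8 (.s k3 k23 5 (.s k86 k252 14 (.s k192 k149 14 (.d k66 k126 k129 5 8)))))] .n) (.c k169
  (.q k168 [(.s k166 k226 9 (.s k89 k243 14 (.s k72 k123 4 (.d k192 k132 k149 9 14)))), (.s k8 k4 1
  (.s k84 k252 13 (.s k88 k248 11 (.s k240 k164 13 (.d k80 k92 k160 1 11)))))] .n) .n)))))) (.c k46
  (.f k8 k4 1 (.q k168 [(.s k84 k252 13 (.s k88 k248 11 (.s k240 k164 13 (.d k80 k92 k160 1 11)))),
  (.s k42 k21 6 (.s k59 k25 4 (.s k248 k88 11 (.s k122 k185 8 (.s k240 k181 10 (.d k252 k244 k84 1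
  13))))))] (.c k84 (.f k88 k248 11 (.q k106 [(.s k192 k149 14 (.s k128 k64 7 (.s k148 k188 5 (.s
  k28 k208 9 (.d k60 k104 k44 13 3))))), (.s k42 k21 6 (.s k59 k25 4 (.s k200 k153 12 (.s k136 k72 7
  (.s k152 k184 3 (.s k24 k216 7 (.d k56 k40 k104 3 11))))))), (.s k42 k21 6 (.s k59 k25 4 (.s k200
  k153 12 (.s k192 k149 14 (.d k72 k136 k132 7 9)))))] (.c k164 (.q k244 [(.s k192 k149 14 (.s k128
  k64 7 (.s k148 k188 5 (.s k28 k208 9 (.d k60 k104 k44 13 3))))), (.s k42 k21 6 (.s k59 k25 4 (.s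
  k200 k153 12 (.s k136 k72 7 (.s k152 k184 3 (.s k24 k216 7 (.d k56 k40 k104 3 11))))))), (.s k42
  k21 6 (.s k59 k25 4 (.s k200 k153 12 (.s k192 k149 14 (.d k72 k136 k132 7 9)))))] .n) (.c k244 (.f
  k164 k240 13 (.q k252 [(.d k172 k160 k92 1 11), (.s k192 k149 14 (.s k128 k64 7 (.s k132 k72 9 (.d
  k148 k180 k188 3 5))))] .n)) .n)))) (.c k88 (.q k32 [(.s k48 k16 3 (.s k84 k252 13 (.s k100 k236 9
  (.s k204 k152 13 (.d k68 k116 k136 3 9))))), (.s k48 k16 3 (.s k42 k21 6 (.s k37 k47 2 (.s k26 k15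
  6 (.d k58 k53 k10 2 3))))), (.s k42 k21 6 (.s k252 k84 13 (.s k47 k37 2 (.s k236 k100 9 (.s k110
  k173 8 (.d k204 k220 k157 3 12))))))] .n) (.c k240 (.l (.s k42 k21 6 (.s k252 k84 13 (.s k59 k25 4
  (.s k248 k88 11 (.s k185 k122 8 (.d k51 k55 k118 1 10))))))) (.c k244 (.l (.s k84 k252 13 (.s k88
  k248 11 (.s k240 k164 13 (.d k80 k92 k160 1 11))))) (.c k248 (.q k32 [(.s k48 k16 3 (.s k84 k252
  13 (.s k100 k236 9 (.s k204 k152 13 (.d k68 k116 k136 3 9))))), (.s k48 k16 3 (.s k42 k21 6 (.s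
  k37 k47 2 (.s k26 k15 6 (.d k58 k53 k10 2 3))))), (.s k42 k21 6 (.s k252 k84 13 (.s k47 k37 2 (.s
  k236 k100 9 (.s k110 k173 8 (.d k204 k220 k157 3 12))))))] .n) (.c k252 (.q k89 [(.s k88 k248 11
  (.s k240 k164 13 (.s k166 k243 14 (.s k90 k91 0 (.s k14 k242 13 (.d k15 k13 k165 0 14)))))), (.s
  k21 k42 6 (.s k243 k166 14 (.s k123 k183 9 (.s k106 k72 4 (.s k149 k192 14 (.s k85 k213 7 (.d k81
  k162 k93 12 1))))))), (.s k88 k248 11 (.s k240 k164 13 (.s k122 k181 10 (.s k90 k91 0 (.s k106 k74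
  3 (.s k192 k149 14 (.d k72 k123 k132 4 9)))))))] .n) .n)))))))) (.c k51 (.q k32 [(.s k48 k16 3 (.s
  k42 k21 6 (.s k37 k47 2 (.s k26 k15 6 (.d k58 k53 k10 2 3))))), (.s k4 k8 1 (.s k48 k16 3 (.s k36
  k24 5 (.s k20 k52 3 (.d k40 k44 k60 1 5))))), (.s k42 k21 6 (.s k46 k29 4 (.s k47 k37 2 (.s k44
  k45 0 (.s k60 k28 3 (.d k40 k36 k20 1 5))))))] (.c k168 (.q k169 [(.s k48 k16 3 (.s k42 k21 6 (.s
  k37 k47 2 (.s k26 k15 6 (.d k58 k53 k10 2 3))))), (.s k4 k8 1 (.s k48 k16 3 (.s k36 k24 5 (.s k20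
  k52 3 (.d k40 k44 k60 1 5))))), (.s k42 k21 6 (.s k46 k29 4 (.s k47 k37 2 (.s k44 k45 0 (.s k60
  k28 3 (.d k40 k36 k20 1 5))))))] .n) (.c k169 (.q k168 [(.s k48 k16 3 (.s k42 k21 6 (.s k37 k47 2
  (.s k26 k15 6 (.d k58 k53 k10 2 3))))), (.s k4 k8 1 (.s k84 k252 13 (.s k164 k244 11 (.s k240 k88
  13 (.d k160 k172 k80 1 11)))))] .n) .n))) (.c k55 (.l (.s k8 k4 1 (.s k46 k29 4 (.s k42 k21 6 (.s
  k38 k34 1 (.d k25 k59 k51 4 6)))))) (.c k59 (.l (.s k4 k8 1 (.s k29 k46 4 (.s k21 k42 6 (.s k25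
  k17 1 (.d k38 k55 k51 4 6)))))) (.c k168 (.q k169 [(.s k8 k4 1 (.s k42 k21 6 (.s k25 k59 4 (.s k38
  k51 6 (.d k46 k34 k29 1 4)))))] (.c k4 (.q k106 [(.s k29 k46 4 (.s k149 k192 14 (.s k89 k209 9 (.s
  k123 k72 4 (.d k243 k183 k166 9 14))))), (.s k42 k21 6 (.s k43 k232 8 (.s k3 k23 5 (.s k2 k1 0 (.s
  k22 k62 5 (.d k41 k40 k60 0 6))))))] .n) (.c k8 (.q k89 [(.s k9 k249 11 (.s k3 k6 2 (.s k86 k252
  14 (.s k83 k92 2 (.d k243 k163 k166 11 14))))), (.s k29 k46 4 (.s k166 k243 14 (.s k149 k209 9 (.s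
  k192 k106 14 (.d k132 k183 k72 4 9))))), (.s k9 k249 11 (.s k3 k6 2 (.s k23 k43 5 (.s k29 k46 4
  (.s k149 k209 9 (.d k86 k212 k252 8 14))))))] (.c k88 (.q k248 [(.s k9 k249 11 (.s k3 k6 2 (.s k86
  k252 14 (.s k243 k166 14 (.d k83 k92 k163 2 11))))), (.s k29 k46 4 (.s k166 k243 14 (.s k149 k209
  9 (.s k192 k106 14 (.d k132 k183 k72 4 9))))), (.s k9 k249 11 (.s k3 k6 2 (.s k1 k2 0 (.s k5 k13 1
  (.s k11 k90 12 (.d k15 k10 k7 2 1))))))] .n) (.c k248 (.q k88 [(.s k29 k46 4 (.s k166 k243 14 (.s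
  k149 k209 9 (.s k192 k106 14 (.d k132 k183 k72 4 9))))), (.s k9 k249 11 (.s k3 k6 2 (.s k86 k252
  14 (.s k243 k166 14 (.d k83 k92 k163 2 11))))), (.s k9 k249 11 (.s k3 k6 2 (.s k23 k43 5 (.s k29
  k46 4 (.s k149 k209 9 (.d k86 k212 k252 8 14))))))] .n) .n))) (.c k21 (.q k106 [(.s k29 k46 4 (.s
  k149 k192 14 (.s k89 k209 9 (.s k123 k72 4 (.d k243 k183 k166 9 14))))), (.s k43 k232 8 (.s k3 k23
  5 (.s k86 k252 14 (.s k192 k149 14 (.d k66 k126 k129 5 8))))), (.s k46 k29 4 (.s k43 k232 8 (.s k3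
  k23 5 (.s k6 k9 2 (.s k166 k226 9 (.d k86 k246 k252 11 14))))))] .n) (.c k25 (.q k106 [(.s k29 k46
  4 (.s k149 k192 14 (.s k89 k209 9 (.s k123 k72 4 (.d k243 k183 k166 9 14))))), (.s k42 k21 6 (.s
  k43 k232 8 (.s k3 k23 5 (.s k2 k1 0 (.s k22 k62 5 (.d k41 k40 k60 0 6))))))] (.c k29 (.l (.s k43
  k232 8 (.s k3 k23 5 (.s k86 k252 14 (.s k192 k149 14 (.d k66 k126 k129 5 8)))))) .n)) (.c k29 (.q
  k106 [(.s k43 k232 8 (.s k3 k23 5 (.s k86 k252 14 (.s k66 k126 5 (.d k192 k129 k149 8 14))))), (.s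
  k4 k8 1 (.s k192 k149 14 (.s k128 k64 7 (.s k132 k72 9 (.s k68 k196 7 (.d k136 k140 k204 1
  9)))))), (.s k42 k21 6 (.s k43 k232 8 (.s k3 k23 5 (.s k2 k1 0 (.s k22 k62 5 (.d k41 k40 k60 0
  6))))))] .n) (.c k34 (.l (.s k4 k8 1 (.s k21 k42 6 (.s k38 k55 4 (.s k25 k51 6 (.d k29 k46 k17 4
  1)))))) (.c k38 (.q k106 [(.s k46 k29 4 (.s k166 k226 9 (.s k89 k243 14 (.s k192 k149 14 (.d k72
  k123 k132 4 9))))), (.s k42 k21 6 (.s k43 k232 8 (.s k3 k23 5 (.s k2 k1 0 (.s k22 k62 5 (.d k41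
  k40 k60 0 6))))))] .n) (.c k42 (.q k106 [(.s k46 k29 4 (.s k166 k226 9 (.s k89 k243 14 (.s k192
  k149 14 (.d k72 k123 k132 4 9))))), (.s k43 k232 8 (.s k3 k23 5 (.s k86 k252 14 (.s k192 k149 14
  (.d k66 k126 k129 5 8))))), (.s k46 k29 4 (.s k43 k232 8 (.s k3 k23 5 (.s k6 k9 2 (.s k166 k226 9
  (.d k86 k246 k252 11 14))))))] .n) (.c k46 (.q k106 [(.s k43 k232 8 (.s k3 k23 5 (.s k86 k252 14
  (.s k66 k126 5 (.d k192 k129 k149 8 14))))), (.s k4 k8 1 (.s k192 k149 14 (.s k128 k64 7 (.s k132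
  k72 9 (.s k68 k196 7 (.d k136 k140 k204 1 9)))))), (.s k42 k21 6 (.s k43 k232 8 (.s k3 k23 5 (.s
  k2 k1 0 (.s k22 k62 5 (.d k41 k40 k60 0 6))))))] .n) (.c k51 (.q k106 [(.s k29 k46 4 (.s k149 k192
  14 (.s k89 k209 9 (.s k123 k72 4 (.d k243 k183 k166 9 14))))), (.s k42 k21 6 (.s k43 k232 8 (.s k3
  k23 5 (.s k2 k1 0 (.s k22 k62 5 (.d k41 k40 k60 0 6))))))] .n) (.c k55 (.l (.s k8 k4 1 (.s k46 k29
  4 (.s k42 k21 6 (.s k38 k34 1 (.d k25 k59 k51 4 6)))))) (.c k59 (.l (.s k4 k8 1 (.s k29 k46 4 (.s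
  k21 k42 6 (.s k25 k17 1 (.d k38 k55 k51 4 6)))))) .n))))))))))))) (.c k169 (.q k168 [(.s k8 k4 1
  (.s k42 k21 6 (.s k25 k59 4 (.s k38 k51 6 (.d k46 k34 k29 1 4))))), (.s k4 k8 1 (.s k84 k252 13
  (.s k164 k244 11 (.s k240 k88 13 (.d k160 k172 k80 1 11)))))] (.c k4 (.q k106 [(.s k29 k46 4 (.s
  k149 k192 14 (.s k89 k209 9 (.s k123 k72 4 (.d k243 k183 k166 9 14))))), (.s k84 k252 13 (.s k192
  k149 14 (.s k128 k64 7 (.s k148 k188 5 (.s k20 k212 7 (.d k60 k40 k104 5 13))))))] (.c k149 (.l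
  (.s k252 k84 13 (.s k46 k29 4 (.s k92 k172 11 (.s k166 k226 9 (.s k89 k243 14 (.s k86 k83 2 (.d
  k126 k66 k189 5 8)))))))) (.c k192 (.l (.s k252 k84 13 (.s k46 k29 4 (.s k92 k172 11 (.s k166 k226
  9 (.s k126 k189 8 (.s k86 k66 5 (.d k89 k243 k83 14 2)))))))) .n))) (.c k8 (.q k89 [(.s k29 k46 4
  (.s k166 k243 14 (.s k149 k209 9 (.s k132 k183 4 (.d k192 k72 k106 9 14))))), (.s k21 k42 6 (.s
  k29 k46 4 (.s k149 k209 9 (.s k85 k213 7 (.s k93 k81 1 (.s k221 k157 7 (.d k17 k25 k153 1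
  9))))))), (.s k21 k42 6 (.s k243 k166 14 (.s k123 k183 9 (.s k106 k72 4 (.s k149 k192 14 (.s k85
  k213 7 (.d k81 k162 k93 12 1)))))))] (.c k106 (.f k42 k21 6 (.l (.s k46 k29 4 (.s k166 k243 14 (.s
  k38 k34 1 (.s k102 k230 7 (.s k76 k115 6 (.s k204 k140 7 (.d k51 k25 k153 6 14))))))))) (.c k149
  (.l (.s k252 k84 13 (.s k46 k29 4 (.s k166 k243 14 (.s k92 k172 11 (.s k106 k226 9 (.s k86 k83 2
  (.d k126 k66 k189 5 8)))))))) .n))) .n))) .n)))))))))))))))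

def t175 : T TT 256 :=
  (.q k60 [(.s k40 k20 5 (.s k42 k21 6 (.s k41 k43 0 (.s k22 k3 6 (.d k62 k61 k2 0 5)))))] (.c k2
  (.l (.s k20 k40 5 (.s k21 k42 6 (.s k22 k23 0 (.s k41 k3 6 (.d k61 k62 k1 0 5)))))) (.c k3 (.f k62
  k61 0 (.q k8 [(.s k12 k4 1 (.s k40 k20 5 (.s k24 k56 3 (.s k44 k28 3 (.d k36 k32 k48 1 5))))), (.s
  k12 k4 1 (.s k42 k21 6 (.s k25 k59 4 (.s k38 k51 6 (.d k46 k34 k29 1 4))))), (.s k40 k20 5 (.s k42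
  k21 6 (.s k56 k24 3 (.s k59 k25 4 (.s k57 k58 0 (.d k51 k55 k54 1 2))))))] (.c k160 (.q k165 [(.s
  k12 k4 1 (.s k40 k20 5 (.s k24 k56 3 (.s k44 k28 3 (.d k36 k32 k48 1 5))))), (.s k12 k4 1 (.s k42
  k21 6 (.s k25 k59 4 (.s k38 k51 6 (.d k46 k34 k29 1 4))))), (.s k40 k20 5 (.s k42 k21 6 (.s k56
  k24 3 (.s k59 k25 4 (.s k57 k58 0 (.d k51 k55 k54 1 2))))))] .n) (.c k165 (.q k160 [(.s k12 k4 1
  (.s k40 k20 5 (.s k24 k56 3 (.s k44 k28 3 (.d k36 k32 k48 1 5))))), (.s k240 k80 11 (.s k120 k180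
  9 (.s k122 k181 10 (.s k182 k242 9 (.d k121 k123 k243 0 10)))))] .n) .n)))) (.c k20 (.f k62 k61 0
  (.q k8 [(.s k42 k21 6 (.s k22 k2 5 (.s k25 k59 4 (.s k28 k19 2 (.d k12 k4 k44 1 3))))), (.s k12 k4
  1 (.s k44 k28 3 (.s k46 k29 4 (.s k30 k14 3 (.d k45 k47 k15 0 4))))), (.s k42 k21 6 (.s k22 k2 5
  (.s k59 k25 4 (.s k51 k55 1 (.s k54 k57 2 (.s k38 k6 3 (.d k34 k17 k46 4 1)))))))] (.c k4 (.l (.s
  k42 k21 6 (.s k22 k2 5 (.s k25 k59 4 (.s k28 k19 2 (.s k12 k44 3 (.s k38 k51 6 (.d k46 k34 k29 1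
  4)))))))) (.c k160 (.q k165 [(.s k42 k21 6 (.s k22 k2 5 (.s k25 k59 4 (.s k28 k19 2 (.d k12 k4 k44
  1 3))))), (.s k12 k4 1 (.s k44 k28 3 (.s k46 k29 4 (.s k30 k14 3 (.d k45 k47 k15 0 4))))), (.s k42
  k21 6 (.s k22 k2 5 (.s k59 k25 4 (.s k51 k55 1 (.s k54 k57 2 (.s k38 k6 3 (.d k34 k17 k46 4
  1)))))))] (.c k4 (.l (.s k42 k21 6 (.s k22 k2 5 (.s k25 k59 4 (.s k28 k19 2 (.s k12 k44 3 (.s k38
  k51 6 (.d k46 k34 k29 1 4)))))))) .n)) (.c k165 (.q k160 [(.s k42 k21 6 (.s k22 k2 5 (.s k25 k59 4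
  (.s k28 k19 2 (.d k12 k4 k44 1 3))))), (.s k240 k80 11 (.s k120 k180 9 (.s k122 k181 10 (.s k182
  k242 9 (.d k121 k123 k243 0 10)))))] .n) .n))))) (.c k21 (.q k106 [(.s k61 k62 0 (.s k149 k192 14
  (.s k105 k193 13 (.s k107 k104 0 (.d k195 k151 k150 13 14))))), (.s k20 k40 5 (.s k192 k149 14 (.s
  k128 k64 7 (.s k148 k104 13 (.s k84 k212 7 (.d k168 k188 k252 5 13))))))] (.c k104 (.l (.s k62 k61
  0 (.s k150 k194 13 (.s k195 k105 14 (.s k149 k192 14 (.d k151 k148 k107 0 13)))))) (.c k105 (.l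
  (.s k40 k20 5 (.s k192 k149 14 (.s k104 k148 13 (.s k168 k232 7 (.s k84 k252 13 (.d k64 k128 k124
  7 5))))))) (.c k149 (.f k62 k61 0 (.l (.s k20 k40 5 (.s k150 k194 13 (.s k85 k215 8 (.s k105 k195
  14 (.s k64 k127 6 (.s k104 k107 0 (.d k192 k128 k148 7 13))))))))) (.c k160 (.q k165 [(.s k61 k62
  0 (.s k149 k192 14 (.s k105 k193 13 (.s k195 k150 14 (.d k107 k104 k151 0 13))))), (.s k47 k224 10
  (.s k15 k31 3 (.s k90 k240 14 (.s k192 k149 14 (.d k74 k122 k133 3 10))))), (.s k47 k224 10 (.s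
  k15 k31 3 (.s k30 k45 4 (.s k62 k61 0 (.s k150 k194 13 (.d k90 k210 k240 9 14))))))] .n) (.c k165
  (.q k160 [(.s k61 k62 0 (.s k149 k192 14 (.s k105 k193 13 (.s k107 k104 0 (.d k195 k151 k150 13
  14))))), (.s k240 k80 11 (.s k61 k62 0 (.s k180 k120 9 (.s k181 k122 10 (.s k121 k241 9 (.d k182
  k183 k243 0 10)))))), (.s k20 k40 5 (.s k192 k149 14 (.s k128 k64 7 (.s k148 k104 13 (.s k84 k212
  7 (.d k168 k188 k252 5 13))))))] .n) (.c k192 (.f k62 k61 0 (.l (.s k20 k40 5 (.s k150 k194 13 (.s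
  k85 k215 8 (.s k127 k64 6 (.s k255 k191 7 (.s k125 k190 8 (.d k105 k195 k65 14 5)))))))))
  .n))))))) (.c k22 (.f k62 k61 0 (.q k106 [(.s k150 k194 13 (.s k105 k195 14 (.s k104 k107 0 (.d
  k192 k148 k149 13 14)))), (.s k20 k40 5 (.s k21 k42 6 (.s k150 k194 13 (.s k85 k215 8 (.d k149
  k213 k192 7 14))))), (.s k20 k40 5 (.s k192 k149 14 (.s k128 k64 7 (.s k148 k104 13 (.s k84 k212 7
  (.d k168 k188 k252 5 13))))))] (.c k105 (.l (.s k21 k42 6 (.s k150 k194 13 (.s k149 k192 14 (.s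
  k85 k213 7 (.d k20 k40 k215 5 8)))))) (.c k149 (.l (.s k20 k40 5 (.s k150 k194 13 (.s k85 k215 8
  (.s k105 k195 14 (.s k64 k127 6 (.s k104 k107 0 (.d k192 k128 k148 7 13)))))))) (.c k160 (.q k165
  [(.s k150 k194 13 (.s k105 k195 14 (.s k104 k107 0 (.d k192 k148 k149 13 14)))), (.s k47 k224 10
  (.s k15 k31 3 (.s k30 k45 4 (.s k150 k194 13 (.d k90 k210 k240 9 14))))), (.s k47 k224 10 (.s k15
  k31 3 (.s k90 k240 14 (.s k192 k149 14 (.d k74 k122 k133 3 10)))))] .n) (.c k165 (.q k160 [(.s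
  k150 k194 13 (.s k105 k195 14 (.s k104 k107 0 (.d k192 k148 k149 13 14)))), (.s k240 k80 11 (.s
  k122 k181 10 (.s k182 k242 9 (.s k121 k243 10 (.d k120 k123 k180 0 9)))))] (.c k149 (.l (.s k240
  k80 11 (.s k120 k180 9 (.s k150 k194 13 (.s k105 k195 14 (.s k90 k75 4 (.d k122 k74 k181 3
  10))))))) .n)) (.c k192 (.l (.s k20 k40 5 (.s k21 k42 6 (.s k150 k194 13 (.s k85 k215 8 (.s k149
  k213 7 (.s k151 k148 0 (.d k195 k105 k107 14 13)))))))) .n))))))) (.c k23 (.l (.s k40 k20 5 (.s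
  k62 k61 0 (.s k42 k21 6 (.s k22 k2 5 (.d k41 k43 k3 0 6)))))) (.c k40 (.q k105 [(.s k61 k62 0 (.s
  k150 k195 14 (.s k149 k193 13 (.s k148 k151 0 (.d k192 k104 k106 13 14))))), (.s k21 k42 6 (.s k61
  k62 0 (.s k149 k193 13 (.s k85 k213 7 (.s k125 k65 5 (.s k253 k189 7 (.d k1 k41 k169 5 13))))))),
  (.s k21 k42 6 (.s k195 k150 14 (.s k107 k151 13 (.s k106 k104 0 (.s k149 k192 14 (.s k85 k213 7
  (.d k65 k130 k125 8 5)))))))] (.c k106 (.f k62 k61 0 (.l (.s k42 k21 6 (.s k22 k2 5 (.s k150 k195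
  14 (.s k86 k214 7 (.s k124 k67 6 (.s k252 k188 7 (.d k3 k41 k169 6 14))))))))) (.c k149 (.f k62
  k61 0 (.l (.s k42 k21 6 (.s k22 k2 5 (.s k150 k195 14 (.s k86 k214 7 (.s k124 k67 6 (.s k252 k188
  7 (.d k3 k41 k169 6 14))))))))) (.c k160 (.q k165 [(.s k45 k225 9 (.s k15 k30 4 (.s k90 k240 14
  (.s k75 k120 4 (.d k195 k135 k150 9 14))))), (.s k61 k62 0 (.s k150 k195 14 (.s k149 k193 13 (.s
  k192 k106 14 (.d k148 k151 k104 0 13))))), (.s k45 k225 9 (.s k15 k30 4 (.s k31 k47 3 (.s k61 k62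
  0 (.s k149 k193 13 (.d k90 k208 k240 10 14))))))] .n) (.c k165 (.q k160 [(.s k61 k62 0 (.s k150
  k195 14 (.s k149 k193 13 (.s k148 k151 0 (.d k192 k104 k106 13 14))))), (.s k240 k80 11 (.s k61
  k62 0 (.s k180 k120 9 (.s k181 k122 10 (.s k121 k241 9 (.d k182 k183 k243 0 10)))))), (.s k21 k42
  6 (.s k195 k150 14 (.s k107 k151 13 (.s k106 k104 0 (.s k149 k192 14 (.s k85 k213 7 (.d k65 k130
  k125 8 5)))))))] .n) .n))))) (.c k41 (.q k8 [(.s k12 k4 1 (.s k40 k20 5 (.s k24 k56 3 (.s k36 k48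
  5 (.d k44 k32 k28 1 3))))), (.s k12 k4 1 (.s k42 k21 6 (.s k25 k59 4 (.s k38 k51 6 (.d k46 k34 k29
  1 4))))), (.s k40 k20 5 (.s k42 k21 6 (.s k56 k24 3 (.s k59 k25 4 (.s k57 k58 0 (.d k51 k55 k54 1
  2))))))] (.c k160 (.q k165 [(.s k12 k4 1 (.s k40 k20 5 (.s k24 k56 3 (.s k36 k48 5 (.d k44 k32 k28
  1 3))))), (.s k12 k4 1 (.s k42 k21 6 (.s k25 k59 4 (.s k38 k51 6 (.d k46 k34 k29 1 4))))), (.s k40
  k20 5 (.s k42 k21 6 (.s k56 k24 3 (.s k59 k25 4 (.s k57 k58 0 (.d k51 k55 k54 1 2))))))] .n) (.c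
  k165 (.q k160 [(.s k12 k4 1 (.s k40 k20 5 (.s k24 k56 3 (.s k36 k48 5 (.d k44 k32 k28 1 3))))),
  (.s k12 k4 1 (.s k42 k21 6 (.s k25 k59 4 (.s k38 k51 6 (.d k46 k34 k29 1 4))))), (.s k40 k20 5 (.s
  k42 k21 6 (.s k56 k24 3 (.s k59 k25 4 (.s k57 k58 0 (.d k51 k55 k54 1 2))))))] .n) .n))) (.c k42
  (.q k106 [(.s k62 k61 0 (.s k150 k194 13 (.s k105 k195 14 (.s k192 k149 14 (.d k104 k107 k148 0
  13))))), (.s k20 k40 5 (.s k192 k149 14 (.s k128 k64 7 (.s k148 k104 13 (.s k84 k212 7 (.d k168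
  k188 k252 5 13)))))), (.s k61 k62 0 (.s k149 k192 14 (.s k105 k193 13 (.s k195 k150 14 (.d k107
  k104 k151 0 13)))))] (.c k104 (.l (.s k62 k61 0 (.s k150 k194 13 (.s k195 k105 14 (.s k149 k192 14
  (.d k151 k148 k107 0 13)))))) (.c k105 (.l (.s k40 k20 5 (.s k192 k149 14 (.s k104 k148 13 (.s
  k168 k232 7 (.s k84 k252 13 (.d k64 k128 k124 7 5))))))) (.c k149 (.f k62 k61 0 (.l (.s k20 k40 5
  (.s k150 k194 13 (.s k85 k215 8 (.s k105 k195 14 (.s k64 k127 6 (.s k104 k107 0 (.d k192 k128 k148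
  7 13))))))))) (.c k160 (.q k165 [(.s k47 k224 10 (.s k15 k31 3 (.s k90 k240 14 (.s k74 k122 3 (.d
  k192 k133 k149 10 14))))), (.s k61 k62 0 (.s k149 k192 14 (.s k105 k193 13 (.s k195 k150 14 (.d
  k107 k104 k151 0 13))))), (.s k47 k224 10 (.s k15 k31 3 (.s k30 k45 4 (.s k62 k61 0 (.s k150 k194
  13 (.d k90 k210 k240 9 14))))))] .n) (.c k165 (.q k160 [(.s k61 k62 0 (.s k149 k192 14 (.s k105
  k193 13 (.s k107 k104 0 (.d k195 k151 k150 13 14))))), (.s k20 k40 5 (.s k192 k149 14 (.s k128 k64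
  7 (.s k148 k104 13 (.s k84 k212 7 (.d k168 k188 k252 5 13)))))), (.s k240 k80 11 (.s k61 k62 0 (.s
  k180 k120 9 (.s k181 k122 10 (.s k121 k241 9 (.d k182 k183 k243 0 10))))))] .n) (.c k192 (.f k62
  k61 0 (.l (.s k20 k40 5 (.s k150 k194 13 (.s k85 k215 8 (.s k127 k64 6 (.s k255 k191 7 (.s k125
  k190 8 (.d k105 k195 k65 14 5))))))))) .n))))))) (.c k43 (.l (.s k20 k40 5 (.s k61 k62 0 (.s k21
  k42 6 (.s k41 k1 5 (.d k22 k23 k3 0 6)))))) (.c k61 (.q k8 [(.s k12 k4 1 (.s k40 k20 5 (.s k24 k56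
  3 (.s k36 k48 5 (.d k44 k32 k28 1 3))))), (.s k12 k4 1 (.s k42 k21 6 (.s k25 k59 4 (.s k38 k51 6
  (.d k46 k34 k29 1 4))))), (.s k40 k20 5 (.s k42 k21 6 (.s k56 k24 3 (.s k59 k25 4 (.s k57 k58 0
  (.d k51 k55 k54 1 2))))))] (.c k160 (.q k165 [(.s k12 k4 1 (.s k40 k20 5 (.s k24 k56 3 (.s k36 k48
  5 (.d k44 k32 k28 1 3))))), (.s k12 k4 1 (.s k42 k21 6 (.s k25 k59 4 (.s k38 k51 6 (.d k46 k34 k29
  1 4))))), (.s k40 k20 5 (.s k42 k21 6 (.s k56 k24 3 (.s k59 k25 4 (.s k57 k58 0 (.d k51 k55 k54 1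
  2))))))] .n) (.c k165 (.q k160 [(.s k12 k4 1 (.s k40 k20 5 (.s k24 k56 3 (.s k36 k48 5 (.d k44 k32
  k28 1 3))))), (.s k12 k4 1 (.s k42 k21 6 (.s k25 k59 4 (.s k38 k51 6 (.d k46 k34 k29 1 4))))), (.s
  k40 k20 5 (.s k42 k21 6 (.s k56 k24 3 (.s k59 k25 4 (.s k57 k58 0 (.d k51 k55 k54 1 2))))))] .n)
  .n))) (.c k62 (.q k8 [(.s k12 k4 1 (.s k40 k20 5 (.s k24 k56 3 (.s k36 k48 5 (.d k44 k32 k28 1
  3))))), (.s k12 k4 1 (.s k42 k21 6 (.s k25 k59 4 (.s k38 k51 6 (.d k46 k34 k29 1 4))))), (.s k40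
  k20 5 (.s k42 k21 6 (.s k56 k24 3 (.s k59 k25 4 (.s k57 k58 0 (.d k51 k54 k55 2 1))))))] (.c k160
  (.q k165 [(.s k12 k4 1 (.s k40 k20 5 (.s k24 k56 3 (.s k36 k48 5 (.d k44 k32 k28 1 3))))), (.s k12
  k4 1 (.s k42 k21 6 (.s k25 k59 4 (.s k38 k51 6 (.d k46 k34 k29 1 4))))), (.s k40 k20 5 (.s k42 k21
  6 (.s k56 k24 3 (.s k59 k25 4 (.s k57 k58 0 (.d k51 k54 k55 2 1))))))] .n) (.c k165 (.q k160 [(.s
  k12 k4 1 (.s k40 k20 5 (.s k24 k56 3 (.s k36 k48 5 (.d k44 k32 k28 1 3))))), (.s k12 k4 1 (.s k42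
  k21 6 (.s k25 k59 4 (.s k38 k51 6 (.d k46 k34 k29 1 4))))), (.s k40 k20 5 (.s k42 k21 6 (.s k56
  k24 3 (.s k59 k25 4 (.s k57 k58 0 (.d k51 k54 k55 2 1))))))] .n) .n))) (.c k160 (.q k165 [(.s k40
  k20 5 (.s k42 k21 6 (.s k41 k43 0 (.s k22 k3 6 (.d k62 k61 k2 0 5)))))] (.c k2 (.l (.s k20 k40 5
  (.s k21 k42 6 (.s k22 k23 0 (.s k41 k3 6 (.d k61 k62 k1 0 5)))))) (.c k3 (.q k106 [(.s k61 k62 0
  (.s k149 k192 14 (.s k105 k193 13 (.s k195 k150 14 (.d k107 k104 k151 0 13))))), (.s k42 k21 6 (.s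
  k47 k224 10 (.s k15 k31 3 (.s k10 k5 2 (.s k26 k58 3 (.d k37 k32 k48 2 6))))))] .n) (.c k20 (.q
  k106 [(.s k47 k224 10 (.s k15 k31 3 (.s k90 k240 14 (.s k74 k122 3 (.d k192 k133 k149 10 14))))),
  (.s k61 k62 0 (.s k149 k192 14 (.s k105 k193 13 (.s k195 k150 14 (.d k107 k104 k151 0 13))))), (.s
  k42 k21 6 (.s k47 k224 10 (.s k15 k31 3 (.s k10 k5 2 (.s k26 k58 3 (.d k37 k32 k48 2 6))))))] .n)
  (.c k21 (.q k106 [(.s k61 k62 0 (.s k149 k192 14 (.s k105 k193 13 (.s k195 k150 14 (.d k107 k104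
  k151 0 13))))), (.s k47 k224 10 (.s k15 k31 3 (.s k90 k240 14 (.s k192 k149 14 (.d k74 k122 k133 3
  10))))), (.s k47 k224 10 (.s k15 k31 3 (.s k30 k45 4 (.s k62 k61 0 (.s k150 k194 13 (.d k90 k210
  k240 9 14))))))] .n) (.c k22 (.q k106 [(.s k47 k224 10 (.s k15 k31 3 (.s k90 k240 14 (.s k74 k122
  3 (.d k192 k133 k149 10 14))))), (.s k61 k62 0 (.s k149 k192 14 (.s k105 k193 13 (.s k195 k150 14
  (.d k107 k104 k151 0 13))))), (.s k42 k21 6 (.s k47 k224 10 (.s k15 k31 3 (.s k10 k5 2 (.s k26 k58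
  3 (.d k37 k32 k48 2 6))))))] .n) (.c k23 (.l (.s k40 k20 5 (.s k62 k61 0 (.s k42 k21 6 (.s k22 k2
  5 (.d k41 k43 k3 0 6)))))) (.c k40 (.q k105 [(.s k45 k225 9 (.s k15 k30 4 (.s k90 k240 14 (.s k75
  k120 4 (.d k195 k135 k150 9 14))))), (.s k61 k62 0 (.s k150 k195 14 (.s k149 k193 13 (.s k192 k106
  14 (.d k148 k151 k104 0 13))))), (.s k45 k225 9 (.s k15 k30 4 (.s k31 k47 3 (.s k61 k62 0 (.s k149
  k193 13 (.d k90 k208 k240 10 14))))))] .n) (.c k41 (.q k105 [(.s k45 k225 9 (.s k15 k30 4 (.s k90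
  k240 14 (.s k75 k120 4 (.d k195 k135 k150 9 14))))), (.s k61 k62 0 (.s k150 k195 14 (.s k149 k193
  13 (.s k192 k106 14 (.d k148 k151 k104 0 13))))), (.s k45 k225 9 (.s k15 k30 4 (.s k31 k47 3 (.s
  k61 k62 0 (.s k149 k193 13 (.d k90 k208 k240 10 14))))))] .n) (.c k42 (.q k106 [(.s k47 k224 10
  (.s k15 k31 3 (.s k90 k240 14 (.s k74 k122 3 (.d k192 k133 k149 10 14))))), (.s k61 k62 0 (.s k149
  k192 14 (.s k105 k193 13 (.s k195 k150 14 (.d k107 k104 k151 0 13))))), (.s k47 k224 10 (.s k15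
  k31 3 (.s k30 k45 4 (.s k62 k61 0 (.s k150 k194 13 (.d k90 k210 k240 9 14))))))] .n) (.c k43 (.l
  (.s k20 k40 5 (.s k61 k62 0 (.s k21 k42 6 (.s k41 k1 5 (.d k22 k23 k3 0 6)))))) (.c k61 (.q k106
  [(.s k47 k224 10 (.s k15 k31 3 (.s k90 k240 14 (.s k74 k122 3 (.d k192 k133 k149 10 14))))), (.s
  k20 k40 5 (.s k192 k149 14 (.s k128 k64 7 (.s k148 k104 13 (.s k84 k212 7 (.d k168 k188 k252 5
  13)))))), (.s k42 k21 6 (.s k47 k224 10 (.s k15 k31 3 (.s k10 k5 2 (.s k26 k58 3 (.d k37 k32 k48 2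
  6))))))] .n) (.c k62 (.q k106 [(.s k47 k224 10 (.s k15 k31 3 (.s k90 k240 14 (.s k192 k149 14 (.d
  k74 k122 k133 3 10))))), (.s k20 k40 5 (.s k192 k149 14 (.s k128 k64 7 (.s k148 k104 13 (.s k84
  k212 7 (.d k168 k188 k252 5 13)))))), (.s k42 k21 6 (.s k47 k224 10 (.s k15 k31 3 (.s k10 k5 2 (.s
  k26 k58 3 (.d k37 k32 k48 2 6))))))] .n) .n))))))))))))) (.c k165 (.q k160 [(.s k40 k20 5 (.s k42
  k21 6 (.s k41 k43 0 (.s k22 k3 6 (.d k62 k61 k2 0 5))))), (.s k240 k80 11 (.s k61 k62 0 (.s k180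
  k120 9 (.s k181 k122 10 (.s k121 k241 9 (.d k182 k183 k243 0 10))))))] (.c k61 (.q k62 [(.s k40
  k20 5 (.s k42 k21 6 (.s k41 k43 0 (.d k22 k2 k3 5 6)))), (.s k240 k80 11 (.s k120 k180 9 (.s k122
  k181 10 (.s k182 k242 9 (.d k121 k123 k243 0 10)))))] .n) (.c k62 (.q k8 [(.s k12 k4 1 (.s k40 k20
  5 (.s k24 k56 3 (.s k36 k48 5 (.d k44 k32 k28 1 3))))), (.s k12 k4 1 (.s k42 k21 6 (.s k25 k59 4
  (.s k38 k51 6 (.d k46 k34 k29 1 4))))), (.s k40 k20 5 (.s k42 k21 6 (.s k56 k24 3 (.s k59 k25 4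
  (.s k57 k58 0 (.d k51 k54 k55 2 1))))))] .n) .n))) .n)))))))))))))))

def t191 : T TT 256 :=
  (.q k48 [(.s k32 k16 3 (.s k42 k21 6 (.s k37 k47 2 (.s k26 k15 6 (.d k58 k53 k10 2 3)))))] (.c k10
  (.l (.s k16 k32 3 (.s k21 k42 6 (.s k26 k31 2 (.s k37 k15 6 (.d k53 k58 k5 2 3)))))) (.c k15 (.q
  k192 [(.s k32 k16 3 (.s k96 k144 11 (.s k160 k224 7 (.s k80 k240 11 (.d k64 k128 k112 7 3))))),
  (.s k53 k58 2 (.s k144 k96 11 (.s k149 k106 14 (.s k101 k197 11 (.d k154 k159 k207 2 14))))), (.s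
  k16 k32 3 (.s k53 k58 2 (.s k149 k106 14 (.s k101 k197 11 (.s k154 k207 14 (.s k85 k223 10 (.d k21
  k42 k213 6 7)))))))] (.c k128 (.l (.s k149 k106 14 (.s k53 k58 2 (.s k144 k96 11 (.s k101 k197 11
  (.d k154 k159 k207 2 14)))))) (.c k149 (.l (.s k128 k64 7 (.s k16 k32 3 (.s k144 k96 11 (.s k80
  k208 7 (.d k160 k176 k240 3 11)))))) .n))) (.c k16 (.f k53 k58 2 (.q k51 [(.s k49 k50 0 (.s k57
  k61 1 (.s k54 k60 2 (.d k55 k52 k59 0 1)))), (.s k17 k34 4 (.s k21 k42 6 (.s k25 k29 1 (.s k38 k12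
  6 (.d k55 k59 k4 1 4))))), (.s k17 k34 4 (.s k21 k42 6 (.s k37 k5 3 (.s k25 k29 1 (.d k49 k50 k13
  0 5)))))] (.c k128 (.q k149 [(.s k49 k50 0 (.s k57 k61 1 (.s k54 k60 2 (.d k55 k52 k59 0 1)))),
  (.s k101 k197 11 (.s k154 k207 14 (.s k192 k106 14 (.d k144 k159 k96 2 11))))] .n) (.c k149 (.q
  k128 [(.s k55 k59 1 (.s k49 k50 0 (.s k54 k52 0 (.d k57 k61 k60 1 2)))), (.s k17 k34 4 (.s k21 k42
  6 (.s k25 k29 1 (.s k38 k12 6 (.d k55 k59 k4 1 4))))), (.s k17 k34 4 (.s k21 k42 6 (.s k37 k5 3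
  (.s k25 k29 1 (.d k49 k50 k13 0 5)))))] .n) .n)))) (.c k21 (.f k53 k58 2 (.q k192 [(.s k144 k96 11
  (.s k149 k106 14 (.s k101 k197 11 (.d k154 k159 k207 2 14)))), (.s k32 k16 3 (.s k96 k144 11 (.s
  k160 k224 7 (.s k80 k240 11 (.d k64 k128 k112 7 3)))))] (.c k96 (.f k128 k64 7 (.l (.s k16 k32 3
  (.s k149 k106 14 (.s k101 k197 11 (.s k154 k207 14 (.s k144 k159 2 (.s k80 k208 7 (.d k160 k176
  k240 3 11))))))))) (.c k128 (.l (.s k149 k106 14 (.s k144 k96 11 (.s k101 k197 11 (.d k154 k159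
  k207 2 14))))) (.c k144 (.q k51 [(.s k49 k50 0 (.s k55 k59 1 (.s k54 k52 0 (.d k57 k61 k60 1
  2)))), (.s k17 k34 4 (.s k128 k64 7 (.s k145 k98 12 (.s k81 k209 7 (.d k162 k179 k243 4 12)))))]
  (.c k128 (.l (.s k149 k106 14 (.s k49 k50 0 (.s k57 k61 1 (.s k54 k60 2 (.d k55 k52 k59 0 1))))))
  (.c k149 (.l (.s k128 k64 7 (.s k17 k34 4 (.s k145 k98 12 (.s k81 k209 7 (.d k162 k179 k243 4
  12)))))) .n))) (.c k149 (.l (.s k128 k64 7 (.s k16 k32 3 (.s k144 k96 11 (.s k80 k208 7 (.d k160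
  k176 k240 3 11)))))) .n)))))) (.c k26 (.q k192 [(.s k32 k16 3 (.s k96 k144 11 (.s k160 k224 7 (.s
  k80 k240 11 (.d k64 k128 k112 7 3))))), (.s k53 k58 2 (.s k144 k96 11 (.s k149 k106 14 (.s k101
  k197 11 (.d k154 k159 k207 2 14))))), (.s k16 k32 3 (.s k53 k58 2 (.s k149 k106 14 (.s k101 k197
  11 (.s k154 k207 14 (.s k85 k223 10 (.d k21 k42 k213 6 7)))))))] (.c k128 (.l (.s k149 k106 14 (.s
  k53 k58 2 (.s k144 k96 11 (.s k101 k197 11 (.d k154 k159 k207 2 14)))))) (.c k149 (.l (.s k128 k64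
  7 (.s k16 k32 3 (.s k144 k96 11 (.s k80 k208 7 (.d k160 k176 k240 3 11)))))) .n))) (.c k31 (.l (.s
  k32 k16 3 (.s k58 k53 2 (.s k42 k21 6 (.s k26 k10 3 (.d k37 k47 k15 2 6)))))) (.c k32 (.f k53 k58
  2 (.q k101 [(.s k154 k207 14 (.s k149 k197 11 (.s k192 k106 14 (.d k144 k159 k96 2 11)))), (.s k21
  k42 6 (.s k149 k197 11 (.s k85 k213 7 (.s k117 k69 3 (.s k245 k181 7 (.d k5 k37 k165 3 11)))))),
  (.s k154 k207 14 (.s k149 k197 11 (.s k144 k159 2 (.d k192 k96 k106 11 14))))] (.c k106 (.f k42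
  k21 6 (.f k154 k207 14 (.q k85 [(.s k117 k69 3 (.s k245 k181 7 (.s k165 k5 11 (.s k229 k37 7 (.d
  k197 k149 k213 11 3))))), (.s k16 k223 10 (.s k149 k197 11 (.s k144 k159 2 (.s k80 k208 7 (.s k160
  k240 11 (.s k192 k96 11 (.d k128 k176 k64 3 7))))))), (.s k117 k69 3 (.s k181 k245 7 (.s k240 k122
  10 (.s k80 k160 11 (.s k112 k176 7 (.d k90 k95 k79 2 6))))))] (.c k128 (.l (.s k149 k197 11 (.s
  k117 k69 3 (.s k181 k245 7 (.s k240 k122 10 (.s k176 k112 7 (.d k165 k133 k143 3 6))))))) (.c k149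
  (.q k128 [(.s k117 k69 3 (.s k181 k245 7 (.s k240 k122 10 (.s k160 k80 11 (.d k176 k144 k112 3
  7))))), (.s k192 k64 7 (.s k16 k223 10 (.s k144 k96 11 (.s k80 k208 7 (.d k160 k176 k240 3
  11))))), (.s k192 k64 7 (.s k117 k69 3 (.s k245 k181 7 (.s k165 k5 11 (.s k176 k143 6 (.d k144
  k160 k96 3 11)))))), (.s k117 k69 3 (.s k245 k181 7 (.s k165 k5 11 (.s k255 k186 10 (.s k176 k143
  6 (.d k240 k250 k112 2 7))))))] (.c k176 (.l (.s k64 k192 7 (.s k117 k69 3 (.s k181 k245 7 (.s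
  k122 k240 10 (.s k112 k127 2 (.s k80 k96 3 (.d k90 k95 k79 2 6)))))))) .n)) (.c k176 (.l (.s k117
  k69 3 (.s k186 k255 10 (.s k245 k181 7 (.s k165 k5 11 (.s k229 k37 7 (.d k197 k213 k149 3
  11))))))) .n)))))) (.c k128 (.l (.s k149 k197 11 (.s k154 k207 14 (.s k192 k106 14 (.d k144 k159
  k96 2 11))))) (.c k149 (.q k128 [(.s k192 k64 7 (.s k96 k144 11 (.s k111 k106 2 (.d k207 k159 k154
  11 14)))), (.s k21 k42 6 (.s k37 k5 3 (.s k165 k229 7 (.s k154 k207 14 (.s k176 k143 6 (.s k240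
  k112 7 (.d k15 k26 k90 6 14))))))), (.s k192 k64 7 (.s k207 k154 14 (.s k138 k69 10 (.s k133 k143
  2 (.s k74 k15 10 (.d k202 k197 k10 2 7))))))] (.c k106 (.l (.s k192 k64 7 (.s k207 k154 14 (.s
  k202 k197 2 (.s k138 k69 10 (.s k74 k10 7 (.d k133 k143 k15 2 10))))))) (.c k154 (.f k192 k64 7
  (.l (.s k21 k42 6 (.s k37 k5 3 (.s k26 k15 6 (.s k16 k31 2 (.s k144 k96 11 (.s k160 k176 3 (.d k80
  k208 k240 7 11))))))))) (.c k159 (.l (.s k21 k42 6 (.s k192 k64 7 (.s k37 k5 3 (.s k165 k229 7 (.s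
  k144 k96 11 (.s k154 k207 14 (.d k176 k160 k143 3 6)))))))) (.c k207 (.f k192 k64 7 (.l (.s k21
  k42 6 (.s k37 k5 3 (.s k26 k15 6 (.s k16 k31 2 (.s k144 k96 11 (.s k160 k176 3 (.d k80 k208 k240 7
  11))))))))) .n))))) (.c k197 (.l (.s k21 k42 6 (.s k37 k5 3 (.s k165 k229 7 (.s k154 k207 14 (.s
  k176 k143 6 (.s k240 k112 7 (.d k15 k26 k90 6 14)))))))) .n)))))) (.c k37 (.q k192 [(.s k32 k16 3
  (.s k96 k144 11 (.s k160 k224 7 (.s k80 k240 11 (.d k64 k128 k112 7 3))))), (.s k53 k58 2 (.s k144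
  k96 11 (.s k149 k106 14 (.s k101 k197 11 (.d k154 k159 k207 2 14))))), (.s k16 k32 3 (.s k53 k58 2
  (.s k149 k106 14 (.s k101 k197 11 (.s k154 k207 14 (.s k85 k223 10 (.d k21 k42 k213 6 7)))))))]
  (.c k128 (.l (.s k149 k106 14 (.s k53 k58 2 (.s k144 k96 11 (.s k101 k197 11 (.d k154 k159 k207 2
  14)))))) (.c k149 (.l (.s k128 k64 7 (.s k16 k32 3 (.s k144 k96 11 (.s k80 k208 7 (.d k160 k176
  k240 3 11)))))) .n))) (.c k42 (.q k106 [(.s k58 k53 2 (.s k154 k202 11 (.s k101 k207 14 (.s k96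
  k111 2 (.d k192 k149 k144 14 11))))), (.s k192 k149 14 (.s k128 k64 7 (.s k144 k96 11 (.s k160
  k176 3 (.s k80 k240 11 (.d k16 k32 k208 3 7)))))), (.s k16 k32 3 (.s k58 k53 2 (.s k154 k202 11
  (.s k85 k223 10 (.s k64 k127 6 (.d k192 k128 k149 7 14))))))] (.c k128 (.l (.s k149 k192 14 (.s
  k53 k58 2 (.s k101 k197 11 (.s k207 k154 14 (.d k111 k96 k159 2 11)))))) (.c k149 (.q k128 [(.s
  k192 k64 7 (.s k58 k53 2 (.s k96 k144 11 (.s k154 k202 11 (.d k101 k111 k207 2 14))))), (.s k192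
  k64 7 (.s k144 k96 11 (.s k160 k176 3 (.s k80 k240 11 (.d k16 k32 k208 3 7))))), (.s k16 k32 3 (.s
  k64 k192 7 (.s k58 k53 2 (.s k154 k202 11 (.d k85 k127 k223 6 10)))))] (.c k64 (.l (.s k32 k16 3
  (.s k58 k53 2 (.s k154 k202 11 (.s k101 k207 14 (.s k96 k111 2 (.s k160 k224 7 (.d k144 k192 k176
  11 3)))))))) (.c k192 (.q k51 [(.s k32 k16 3 (.s k34 k17 4 (.s k33 k35 0 (.s k18 k3 4 (.d k50 k49
  k2 0 3))))), (.s k58 k53 2 (.s k59 k55 1 (.s k154 k202 11 (.s k153 k200 12 (.s k152 k155 0 (.d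
  k204 k102 k100 14 13))))))] .n) .n))) (.c k192 (.q k51 [(.s k32 k16 3 (.s k34 k17 4 (.s k33 k35 0
  (.s k18 k3 4 (.d k50 k49 k2 0 3))))), (.s k58 k53 2 (.s k59 k55 1 (.s k154 k202 11 (.s k207 k101
  14 (.s k155 k103 13 (.d k153 k152 k200 0 12))))))] (.c k32 (.l (.s k49 k50 0 (.s k53 k58 2 (.s k57
  k61 1 (.s k54 k60 2 (.d k55 k52 k59 0 1)))))) (.c k128 (.q k149 [(.s k58 k53 2 (.s k154 k202 11
  (.s k207 k101 14 (.d k159 k144 k111 2 11)))), (.s k55 k59 1 (.s k102 k196 12 (.s k204 k153 14 (.d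
  k110 k98 k157 1 12))))] .n) (.c k149 (.q k128 [(.s k32 k16 3 (.s k34 k17 4 (.s k33 k35 0 (.s k18
  k3 4 (.d k50 k49 k2 0 3))))), (.s k58 k53 2 (.s k59 k55 1 (.s k154 k202 11 (.s k153 k200 12 (.s
  k152 k155 0 (.d k204 k102 k100 14 13))))))] .n) .n)))) .n)))) (.c k47 (.l (.s k16 k32 3 (.s k53
  k58 2 (.s k21 k42 6 (.s k37 k5 3 (.d k26 k31 k15 2 6)))))) (.c k53 (.q k51 [(.s k32 k16 3 (.s k34
  k17 4 (.s k33 k35 0 (.s k18 k3 4 (.d k50 k49 k2 0 3))))), (.s k17 k34 4 (.s k21 k42 6 (.s k25 k29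
  1 (.s k38 k12 6 (.d k55 k59 k4 1 4))))), (.s k16 k32 3 (.s k21 k42 6 (.s k26 k31 2 (.s k50 k49 0
  (.s k38 k14 5 (.d k55 k59 k4 1 4))))))] (.c k128 (.q k149 [(.s k32 k16 3 (.s k34 k17 4 (.s k33 k35
  0 (.s k18 k3 4 (.d k50 k49 k2 0 3))))), (.s k55 k59 1 (.s k102 k196 12 (.s k153 k204 14 (.s k192
  k106 14 (.d k145 k157 k98 1 12)))))] .n) (.c k149 (.q k128 [(.s k32 k16 3 (.s k34 k17 4 (.s k33
  k35 0 (.s k18 k3 4 (.d k50 k49 k2 0 3))))), (.s k16 k32 3 (.s k192 k64 7 (.s k144 k96 11 (.s k80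
  k208 7 (.d k160 k176 k240 3 11))))), (.s k17 k34 4 (.s k21 k42 6 (.s k25 k29 1 (.s k38 k12 6 (.d
  k55 k59 k4 1 4)))))] (.c k101 (.q k197 [(.s k32 k16 3 (.s k34 k17 4 (.s k33 k35 0 (.s k18 k3 4 (.d
  k50 k49 k2 0 3))))), (.s k192 k64 7 (.s k144 k96 11 (.s k160 k176 3 (.s k80 k240 11 (.d k16 k32
  k208 3 7)))))] (.c k16 (.l (.s k17 k34 4 (.s k21 k42 6 (.s k25 k29 1 (.s k38 k12 6 (.d k55 k59 k4
  1 4)))))) (.c k32 (.q k239 [(.s k34 k17 4 (.s k42 k21 6 (.s k38 k46 1 (.s k25 k12 6 (.d k59 k55 k8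
  1 4))))), (.s k192 k64 7 (.s k49 k50 0 (.s k144 k96 11 (.s k145 k98 12 (.s k97 k193 11 (.d k146
  k147 k195 0 12))))))] .n) (.c k239 (.l (.s k32 k16 3 (.s k34 k17 4 (.s k33 k35 0 (.s k18 k3 4 (.d
  k50 k49 k2 0 3)))))) .n)))) (.c k197 (.q k101 [(.s k192 k64 7 (.s k96 k144 11 (.s k111 k106 2 (.d
  k207 k159 k154 11 14)))), (.s k16 k32 3 (.s k17 k34 4 (.s k18 k19 0 (.s k33 k3 4 (.d k49 k50 k1 0
  3)))))] .n) .n))) .n))) (.c k58 (.f k42 k21 6 (.q k51 [(.s k34 k17 4 (.s k38 k46 1 (.s k25 k12 6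
  (.d k59 k55 k8 1 4)))), (.s k16 k32 3 (.s k17 k34 4 (.s k18 k19 0 (.s k33 k3 4 (.d k49 k50 k1 0
  3))))), (.s k32 k16 3 (.s k37 k47 2 (.s k49 k50 0 (.s k25 k13 5 (.d k59 k55 k8 1 4)))))] (.c k128
  (.q k149 [(.s k34 k17 4 (.s k38 k46 1 (.s k25 k12 6 (.d k59 k55 k8 1 4)))), (.s k16 k32 3 (.s k17
  k34 4 (.s k18 k19 0 (.s k33 k3 4 (.d k49 k50 k1 0 3))))), (.s k32 k16 3 (.s k37 k47 2 (.s k49 k50
  0 (.s k25 k13 5 (.d k59 k55 k8 1 4)))))] .n) (.c k149 (.q k128 [(.s k34 k17 4 (.s k38 k46 1 (.s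
  k25 k12 6 (.d k59 k55 k8 1 4)))), (.s k16 k32 3 (.s k192 k64 7 (.s k144 k96 11 (.s k80 k208 7 (.d
  k160 k176 k240 3 11)))))] (.c k85 (.q k213 [(.s k34 k17 4 (.s k38 k46 1 (.s k25 k12 6 (.d k59 k55
  k8 1 4)))), (.s k16 k32 3 (.s k192 k64 7 (.s k144 k96 11 (.s k80 k208 7 (.d k160 k176 k240 3
  11)))))] .n) (.c k213 (.q k85 [(.s k34 k17 4 (.s k38 k46 1 (.s k25 k12 6 (.d k59 k55 k8 1 4)))),
  (.s k16 k32 3 (.s k192 k64 7 (.s k144 k96 11 (.s k80 k208 7 (.d k160 k176 k240 3 11)))))] .n)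
  .n))) .n)))) (.c k128 (.q k149 [(.s k32 k16 3 (.s k42 k21 6 (.s k37 k47 2 (.s k26 k15 6 (.d k58
  k53 k10 2 3))))), (.s k53 k58 2 (.s k101 k197 11 (.s k154 k207 14 (.s k144 k159 2 (.d k192 k96
  k106 11 14))))), (.s k16 k32 3 (.s k21 k42 6 (.s k85 k213 7 (.s k154 k223 10 (.s k144 k159 2 (.d
  k192 k106 k96 14 11))))))] .n) (.c k149 (.q k128 [(.s k32 k16 3 (.s k42 k21 6 (.s k37 k47 2 (.s
  k26 k15 6 (.d k58 k53 k10 2 3))))), (.s k16 k32 3 (.s k192 k64 7 (.s k144 k96 11 (.s k160 k176 3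
  (.d k80 k208 k240 7 11)))))] (.c k16 (.q k51 [(.s k49 k50 0 (.s k53 k58 2 (.s k57 k61 1 (.s k54
  k60 2 (.d k55 k52 k59 0 1))))), (.s k17 k34 4 (.s k192 k64 7 (.s k145 k98 12 (.s k81 k209 7 (.d
  k162 k179 k243 4 12)))))] .n) (.c k32 (.f k192 k64 7 (.f k53 k58 2 (.l (.s k21 k42 6 (.s k37 k5 3
  (.s k26 k15 6 (.s k16 k31 2 (.s k144 k96 11 (.s k160 k176 3 (.d k80 k208 k240 7 11)))))))))) .n)))
  .n)))))))))))))))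

def t192 : T TT 256 :=
  (.q k60 [(.s k40 k20 5 (.s k42 k21 6 (.s k41 k43 0 (.s k22 k3 6 (.d k62 k61 k2 0 5))))), (.s k20
  k40 5 (.s k21 k42 6 (.s k22 k23 0 (.s k61 k62 0 (.d k41 k1 k3 5 6)))))] (.c k3 (.f k62 k61 0 (.f
  k40 k20 5 (.q k12 [(.s k8 k4 1 (.s k24 k56 3 (.s k44 k28 3 (.d k36 k32 k48 1 5)))), (.s k46 k29 4
  (.s k30 k14 3 (.s k45 k15 4 (.d k44 k47 k28 0 3)))), (.s k4 k8 1 (.s k21 k42 6 (.s k38 k55 4 (.s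
  k25 k51 6 (.d k29 k17 k46 1 4)))))] (.c k66 (.q k129 [(.s k8 k4 1 (.s k24 k56 3 (.s k44 k28 3 (.d
  k36 k32 k48 1 5)))), (.s k46 k29 4 (.s k30 k14 3 (.s k45 k15 4 (.d k44 k47 k28 0 3)))), (.s k4 k8
  1 (.s k21 k42 6 (.s k38 k55 4 (.s k25 k51 6 (.d k29 k17 k46 1 4)))))] .n) (.c k129 (.q k66 [(.s k8
  k4 1 (.s k24 k56 3 (.s k44 k28 3 (.d k36 k32 k48 1 5)))), (.s k46 k29 4 (.s k30 k14 3 (.s k45 k15
  4 (.d k44 k47 k28 0 3)))), (.s k4 k8 1 (.s k21 k42 6 (.s k38 k55 4 (.s k25 k51 6 (.d k29 k17 k46 1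
  4)))))] .n) .n))))) (.c k20 (.q k12 [(.s k28 k44 3 (.s k29 k46 4 (.s k30 k31 0 (.s k45 k15 4 (.d
  k61 k62 k13 0 3))))), (.s k4 k8 1 (.s k21 k42 6 (.s k38 k55 4 (.s k25 k51 6 (.d k29 k17 k46 1
  4))))), (.s k4 k8 1 (.s k21 k42 6 (.s k38 k55 4 (.s k44 k28 3 (.s k41 k35 2 (.d k61 k62 k1 0
  5))))))] .n) (.c k21 (.q k12 [(.s k28 k44 3 (.s k29 k46 4 (.s k30 k31 0 (.s k45 k15 4 (.d k61 k62
  k13 0 3))))), (.s k8 k4 1 (.s k40 k20 5 (.s k24 k56 3 (.s k36 k48 5 (.d k44 k32 k28 1 3)))))] (.c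
  k28 (.q k255 [(.s k29 k46 4 (.s k93 k174 12 (.s k157 k221 7 (.s k110 k204 12 (.d k127 k76 k191 4
  7))))), (.s k61 k62 0 (.s k125 k190 8 (.s k189 k253 7 (.s k126 k252 8 (.d k127 k124 k191 0 7))))),
  (.s k29 k46 4 (.s k93 k174 12 (.s k157 k221 7 (.s k61 k62 0 (.s k125 k190 8 (.d k109 k77 k205 3
  11))))))] .n) (.c k44 (.q k255 [(.s k46 k29 4 (.s k191 k127 7 (.s k174 k93 12 (.s k157 k140 4 (.d
  k110 k238 k204 7 12))))), (.s k61 k62 0 (.s k125 k190 8 (.s k189 k253 7 (.s k126 k252 8 (.d k127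
  k124 k191 0 7))))), (.s k29 k46 4 (.s k93 k174 12 (.s k157 k221 7 (.s k61 k62 0 (.s k125 k190 8
  (.d k109 k77 k205 3 11))))))] .n) .n))) (.c k22 (.q k12 [(.s k28 k44 3 (.s k29 k46 4 (.s k30 k31 0
  (.s k45 k15 4 (.d k61 k62 k13 0 3))))), (.s k4 k8 1 (.s k20 k40 5 (.s k36 k52 3 (.s k24 k48 5 (.d
  k28 k16 k44 1 3))))), (.s k4 k8 1 (.s k21 k42 6 (.s k38 k55 4 (.s k25 k51 6 (.d k29 k17 k46 1
  4)))))] .n) (.c k23 (.l (.s k40 k20 5 (.s k62 k61 0 (.s k42 k21 6 (.s k22 k2 5 (.d k41 k43 k3 0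
  6)))))) (.c k40 (.q k12 [(.s k8 k4 1 (.s k42 k21 6 (.s k25 k59 4 (.s k38 k51 6 (.d k46 k34 k29 1
  4))))), (.s k28 k44 3 (.s k29 k46 4 (.s k30 k31 0 (.s k45 k15 4 (.d k61 k62 k13 0 3))))), (.s k4
  k8 1 (.s k21 k42 6 (.s k38 k55 4 (.s k44 k28 3 (.s k41 k35 2 (.d k61 k62 k1 0 5))))))] (.c k105
  (.q k235 [(.s k8 k4 1 (.s k42 k21 6 (.s k25 k59 4 (.s k38 k51 6 (.d k46 k34 k29 1 4))))), (.s k28
  k44 3 (.s k29 k46 4 (.s k30 k31 0 (.s k45 k15 4 (.d k61 k62 k13 0 3))))), (.s k4 k8 1 (.s k21 k42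
  6 (.s k38 k55 4 (.s k44 k28 3 (.s k41 k35 2 (.d k61 k62 k1 0 5))))))] .n) (.c k235 (.q k105 [(.s
  k8 k4 1 (.s k42 k21 6 (.s k25 k59 4 (.s k38 k51 6 (.d k46 k34 k29 1 4))))), (.s k28 k44 3 (.s k150
  k195 14 (.s k89 k211 10 (.s k243 k166 14 (.d k121 k73 k182 3 10)))))] .n) .n))) (.c k41 (.q k12
  [(.s k28 k44 3 (.s k29 k46 4 (.s k30 k31 0 (.s k45 k15 4 (.d k61 k62 k13 0 3))))), (.s k4 k8 1 (.s
  k20 k40 5 (.s k36 k52 3 (.s k24 k48 5 (.d k28 k16 k44 1 3))))), (.s k4 k8 1 (.s k21 k42 6 (.s k38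
  k55 4 (.s k25 k51 6 (.d k29 k17 k46 1 4)))))] .n) (.c k42 (.f k40 k20 5 (.f k62 k61 0 (.q k12 [(.s
  k8 k4 1 (.s k24 k56 3 (.s k44 k28 3 (.d k36 k32 k48 1 5)))), (.s k46 k29 4 (.s k30 k14 3 (.s k45
  k15 4 (.d k44 k47 k28 0 3))))] (.c k28 (.l (.s k8 k4 1 (.s k24 k56 3 (.s k36 k48 5 (.s k46 k29 4
  (.s k30 k14 3 (.s k45 k15 4 (.d k44 k47 k32 0 1)))))))) (.c k44 (.q k255 [(.s k190 k125 8 (.s k191
  k127 7 (.s k189 k188 0 (.d k126 k254 k252 7 8)))), (.s k29 k46 4 (.s k93 k174 12 (.s k157 k221 7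
  (.s k110 k204 12 (.d k127 k76 k191 4 7))))), (.s k46 k29 4 (.s k174 k93 12 (.s k14 k30 3 (.s k254
  k94 11 (.d k190 k126 k125 7 8)))))] (.c k106 (.q k234 [(.s k190 k125 8 (.s k191 k127 7 (.s k189
  k188 0 (.d k126 k254 k252 7 8)))), (.s k29 k46 4 (.s k93 k174 12 (.s k157 k221 7 (.s k110 k204 12
  (.d k127 k76 k191 4 7))))), (.s k46 k29 4 (.s k174 k93 12 (.s k14 k30 3 (.s k254 k94 11 (.d k190
  k126 k125 7 8)))))] .n) (.c k234 (.q k106 [(.s k190 k125 8 (.s k191 k127 7 (.s k189 k188 0 (.d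
  k126 k254 k252 7 8)))), (.s k4 k8 1 (.s k46 k29 4 (.s k166 k226 9 (.s k247 k85 12 (.d k243 k251
  k89 1 14)))))] .n) .n))) (.c k106 (.q k234 [(.s k8 k4 1 (.s k24 k56 3 (.s k44 k28 3 (.d k36 k32
  k48 1 5)))), (.s k46 k29 4 (.s k30 k14 3 (.s k45 k15 4 (.d k44 k47 k28 0 3))))] (.c k28 (.l (.s k8
  k4 1 (.s k24 k56 3 (.s k36 k48 5 (.s k46 k29 4 (.s k30 k14 3 (.s k45 k15 4 (.d k44 k47 k32 0
  1)))))))) (.c k44 (.q k255 [(.s k190 k125 8 (.s k191 k127 7 (.s k189 k188 0 (.d k126 k254 k252 7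
  8)))), (.s k29 k46 4 (.s k93 k174 12 (.s k157 k221 7 (.s k110 k204 12 (.d k127 k76 k191 4 7))))),
  (.s k46 k29 4 (.s k174 k93 12 (.s k14 k30 3 (.s k254 k94 11 (.d k190 k126 k125 7 8)))))] .n) .n)))
  (.c k234 (.q k106 [(.s k8 k4 1 (.s k24 k56 3 (.s k44 k28 3 (.d k36 k32 k48 1 5)))), (.s k46 k29 4
  (.s k166 k226 9 (.s k243 k89 14 (.s k182 k121 10 (.d k150 k134 k194 3 13)))))] (.c k8 (.l (.s k44
  k28 3 (.s k46 k29 4 (.s k30 k14 3 (.d k45 k47 k15 0 4))))) (.c k213 (.q k255 [(.s k8 k4 1 (.s k24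
  k56 3 (.s k44 k28 3 (.d k36 k32 k48 1 5)))), (.s k190 k125 8 (.s k126 k254 7 (.s k189 k252 8 (.d
  k191 k188 k127 0 7))))] .n) (.c k255 (.q k213 [(.s k8 k4 1 (.s k24 k56 3 (.s k44 k28 3 (.d k36 k32
  k48 1 5)))), (.s k46 k29 4 (.s k166 k226 9 (.s k243 k89 14 (.s k182 k121 10 (.d k150 k134 k194 3
  13)))))] (.c k8 (.l (.s k44 k28 3 (.s k46 k29 4 (.s k30 k14 3 (.d k45 k47 k15 0 4))))) .n)) .n))))
  .n))))))) (.c k43 (.l (.s k20 k40 5 (.s k61 k62 0 (.s k21 k42 6 (.s k41 k1 5 (.d k22 k23 k3 0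
  6)))))) (.c k61 (.q k12 [(.s k8 k4 1 (.s k40 k20 5 (.s k24 k56 3 (.s k36 k48 5 (.d k44 k32 k28 1
  3))))), (.s k4 k8 1 (.s k21 k42 6 (.s k38 k55 4 (.s k25 k51 6 (.d k29 k17 k46 1 4))))), (.s k20
  k40 5 (.s k21 k42 6 (.s k28 k44 3 (.s k29 k46 4 (.s k25 k17 1 (.d k22 k23 k19 0 2))))))] .n) (.c
  k62 (.q k12 [(.s k8 k4 1 (.s k40 k20 5 (.s k24 k56 3 (.s k36 k48 5 (.d k44 k32 k28 1 3))))), (.s
  k4 k8 1 (.s k21 k42 6 (.s k38 k55 4 (.s k25 k51 6 (.d k29 k17 k46 1 4))))), (.s k20 k40 5 (.s k21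
  k42 6 (.s k28 k44 3 (.s k29 k46 4 (.s k25 k17 1 (.d k22 k23 k19 0 2))))))] .n) .n))))))))))))

def t193 : T TT 256 :=
  (.f k42 k21 6 (.q k48 [(.s k32 k16 3 (.s k37 k47 2 (.s k26 k15 6 (.d k58 k53 k10 2 3))))] (.c k10
  (.f k53 k58 2 (.q k51 [(.s k34 k17 4 (.s k38 k46 1 (.s k25 k12 6 (.d k59 k55 k8 1 4)))), (.s k49
  k50 0 (.s k57 k61 1 (.s k54 k60 2 (.d k55 k52 k59 0 1)))), (.s k16 k32 3 (.s k17 k34 4 (.s k18 k19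
  0 (.s k33 k3 4 (.d k49 k50 k1 0 3)))))] (.c k90 (.q k250 [(.s k34 k17 4 (.s k38 k46 1 (.s k25 k12
  6 (.d k59 k55 k8 1 4)))), (.s k49 k50 0 (.s k57 k61 1 (.s k54 k60 2 (.d k55 k52 k59 0 1)))), (.s
  k16 k32 3 (.s k17 k34 4 (.s k18 k19 0 (.s k33 k3 4 (.d k49 k50 k1 0 3)))))] .n) (.c k250 (.q k90
  [(.s k34 k17 4 (.s k38 k46 1 (.s k25 k12 6 (.d k59 k55 k8 1 4)))), (.s k49 k50 0 (.s k57 k61 1 (.s
  k54 k60 2 (.d k55 k52 k59 0 1)))), (.s k16 k32 3 (.s k17 k34 4 (.s k18 k19 0 (.s k33 k3 4 (.d k49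
  k50 k1 0 3)))))] (.c k122 (.q k186 [(.s k34 k17 4 (.s k38 k46 1 (.s k25 k12 6 (.d k59 k55 k8 1
  4)))), (.s k49 k50 0 (.s k57 k61 1 (.s k54 k60 2 (.d k55 k52 k59 0 1)))), (.s k16 k32 3 (.s k17
  k34 4 (.s k18 k19 0 (.s k33 k3 4 (.d k49 k50 k1 0 3)))))] .n) (.c k186 (.q k122 [(.s k34 k17 4 (.s
  k38 k46 1 (.s k25 k12 6 (.d k59 k55 k8 1 4)))), (.s k32 k16 3 (.s k37 k47 2 (.s k240 k181 10 (.d
  k15 k26 k165 6 14))))] (.c k138 (.q k154 [(.s k26 k218 7 (.s k15 k37 6 (.d k240 k181 k165 10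
  14))), (.s k101 k207 14 (.s k149 k197 11 (.d k106 k74 k192 3 14)))] (.c k74 (.q k202 [(.s k26 k218
  7 (.s k15 k37 6 (.d k240 k181 k165 10 14))), (.s k101 k207 14 (.s k240 k181 10 (.d k112 k176 k79 7
  6))), (.s k32 k16 3 (.s k26 k218 7 (.d k37 k47 k15 2 6)))] .n) (.c k202 (.l (.s k74 k106 3 (.s k32
  k16 3 (.s k37 k47 2 (.d k26 k15 k218 6 7))))) .n))) (.c k154 (.q k138 [(.s k34 k17 4 (.s k38 k46 1
  (.s k25 k12 6 (.d k59 k55 k8 1 4)))), (.s k32 k16 3 (.s k37 k47 2 (.s k240 k181 10 (.d k15 k26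
  k165 6 14))))] (.c k106 (.q k202 [(.s k34 k17 4 (.s k38 k46 1 (.s k25 k12 6 (.d k59 k55 k8 1
  4)))), (.s k32 k16 3 (.s k37 k47 2 (.s k240 k181 10 (.d k15 k26 k165 6 14))))] .n) (.c k202 (.l
  (.s k106 k74 3 (.s k32 k16 3 (.s k37 k47 2 (.s k240 k181 10 (.d k15 k26 k165 6 14)))))) .n)))
  .n))) .n))) .n)))) (.c k15 (.q k51 [(.s k34 k17 4 (.s k38 k46 1 (.s k59 k55 1 (.d k25 k8 k12 4
  6)))), (.s k16 k32 3 (.s k17 k34 4 (.s k18 k19 0 (.s k33 k3 4 (.d k49 k50 k1 0 3))))), (.s k32 k16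
  3 (.s k37 k47 2 (.s k49 k50 0 (.s k25 k13 5 (.d k59 k55 k8 1 4)))))] .n) (.c k16 (.q k51 [(.s k34
  k17 4 (.s k38 k46 1 (.s k25 k12 6 (.d k59 k55 k8 1 4)))), (.s k49 k50 0 (.s k53 k58 2 (.s k57 k61
  1 (.s k54 k60 2 (.d k55 k52 k59 0 1))))), (.s k34 k17 4 (.s k38 k46 1 (.s k50 k49 0 (.s k26 k14 5
  (.d k58 k53 k10 2 3)))))] (.c k26 (.q k31 [(.s k34 k17 4 (.s k38 k46 1 (.s k25 k12 6 (.d k59 k55
  k8 1 4)))), (.s k15 k47 3 (.s k27 k39 5 (.s k59 k55 1 (.s k43 k11 3 (.d k23 k19 k3 1 5))))), (.s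
  k34 k17 4 (.s k50 k49 0 (.s k58 k53 2 (.s k62 k54 1 (.d k2 k18 k22 3 5)))))] (.c k19 (.l (.s k59
  k55 1 (.s k25 k8 4 (.s k38 k12 6 (.d k34 k46 k17 1 4))))) (.c k55 (.l (.s k34 k17 4 (.s k15 k47 3
  (.s k39 k27 5 (.s k38 k46 1 (.s k36 k37 0 (.d k12 k24 k25 5 6))))))) .n))) (.c k31 (.q k26 [(.d
  k58 k53 k10 2 3), (.s k34 k17 4 (.s k38 k46 1 (.d k50 k49 k14 0 5)))] .n) .n))) (.c k26 (.q k51
  [(.s k34 k17 4 (.s k38 k46 1 (.s k25 k12 6 (.d k59 k55 k8 1 4)))), (.s k16 k32 3 (.s k17 k34 4 (.s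
  k18 k19 0 (.s k33 k3 4 (.d k49 k50 k1 0 3))))), (.s k49 k50 0 (.s k53 k58 2 (.s k57 k61 1 (.s k54
  k60 2 (.d k55 k52 k59 0 1)))))] (.c k16 (.q k31 [(.s k34 k17 4 (.s k38 k46 1 (.s k25 k12 6 (.d k59
  k55 k8 1 4)))), (.s k15 k47 3 (.s k27 k39 5 (.s k59 k55 1 (.s k43 k11 3 (.d k23 k19 k3 1 5))))),
  (.s k34 k17 4 (.s k50 k49 0 (.s k58 k53 2 (.s k62 k54 1 (.d k2 k18 k22 3 5)))))] (.c k19 (.l (.s
  k59 k55 1 (.s k25 k8 4 (.s k38 k12 6 (.d k34 k46 k17 1 4))))) (.c k55 (.l (.s k34 k17 4 (.s k15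
  k47 3 (.s k39 k27 5 (.s k38 k46 1 (.s k36 k37 0 (.d k12 k24 k25 5 6))))))) .n))) (.c k31 (.l (.s
  k16 k32 3 (.s k17 k34 4 (.s k18 k19 0 (.s k33 k3 4 (.d k49 k50 k1 0 3)))))) .n))) (.c k31 (.l (.s
  k58 k53 2 (.s k32 k16 3 (.s k26 k10 3 (.d k37 k47 k15 2 6))))) (.c k32 (.f k53 k58 2 (.q k51 [(.s
  k34 k17 4 (.s k38 k46 1 (.s k25 k12 6 (.d k59 k55 k8 1 4)))), (.s k49 k50 0 (.s k57 k61 1 (.s k54
  k60 2 (.d k55 k52 k59 0 1)))), (.s k34 k17 4 (.s k38 k46 1 (.s k25 k12 6 (.s k49 k50 0 (.s k37 k13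
  5 (.s k15 k26 6 (.d k39 k36 k27 0 5)))))))] (.c k101 (.q k239 [(.s k34 k17 4 (.s k38 k46 1 (.s k25
  k12 6 (.d k59 k55 k8 1 4)))), (.s k49 k50 0 (.s k57 k61 1 (.s k54 k60 2 (.d k55 k52 k59 0 1)))),
  (.s k34 k17 4 (.s k38 k46 1 (.s k25 k12 6 (.s k49 k50 0 (.s k37 k13 5 (.s k15 k26 6 (.d k39 k36
  k27 0 5)))))))] .n) (.c k239 (.q k101 [(.s k34 k17 4 (.s k38 k46 1 (.s k25 k12 6 (.d k59 k55 k8 1
  4)))), (.s k154 k207 14 (.s k149 k197 11 (.s k192 k106 14 (.d k144 k159 k96 2 11))))] .n) .n))))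
  (.c k37 (.q k51 [(.s k34 k17 4 (.s k38 k46 1 (.s k25 k12 6 (.d k59 k55 k8 1 4)))), (.s k16 k32 3
  (.s k17 k34 4 (.s k18 k19 0 (.s k33 k3 4 (.d k49 k50 k1 0 3))))), (.s k49 k50 0 (.s k53 k58 2 (.s
  k57 k61 1 (.s k54 k60 2 (.d k55 k52 k59 0 1)))))] (.c k5 (.l (.s k53 k58 2 (.s k34 k17 4 (.s k38
  k46 1 (.s k25 k12 6 (.d k59 k55 k8 1 4)))))) (.c k53 (.q k5 [(.s k34 k17 4 (.s k38 k46 1 (.s k25
  k12 6 (.d k59 k55 k8 1 4)))), (.s k16 k32 3 (.s k17 k34 4 (.s k18 k19 0 (.s k33 k3 4 (.d k49 k50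
  k1 0 3))))), (.s k10 k15 2 (.s k26 k58 3 (.s k50 k49 0 (.s k38 k14 5 (.s k59 k55 1 (.d k25 k12 k8
  6 4))))))] .n) .n))) (.c k47 (.q k51 [(.s k34 k17 4 (.s k38 k46 1 (.s k25 k12 6 (.d k59 k55 k8 1
  4)))), (.s k16 k32 3 (.s k17 k34 4 (.s k18 k19 0 (.s k33 k3 4 (.d k49 k50 k1 0 3))))), (.s k49 k50
  0 (.s k53 k58 2 (.s k57 k61 1 (.s k54 k60 2 (.d k55 k52 k59 0 1)))))] .n) (.c k53 (.q k51 [(.s k34
  k17 4 (.s k38 k46 1 (.s k25 k12 6 (.d k59 k55 k8 1 4)))), (.s k16 k32 3 (.s k17 k34 4 (.s k18 k19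
  0 (.s k33 k3 4 (.d k49 k50 k1 0 3))))), (.s k32 k16 3 (.s k37 k47 2 (.s k49 k50 0 (.s k25 k13 5
  (.d k59 k55 k8 1 4)))))] (.c k5 (.q k37 [(.d k32 k47 k16 2 3), (.s k49 k50 0 (.s k25 k13 5 (.d k59
  k55 k8 1 4)))] .n) (.c k37 (.q k5 [(.s k34 k17 4 (.s k38 k46 1 (.s k25 k12 6 (.d k59 k55 k8 1
  4)))), (.s k16 k32 3 (.s k17 k34 4 (.s k18 k19 0 (.s k33 k3 4 (.d k49 k50 k1 0 3))))), (.s k10 k15
  2 (.s k26 k58 3 (.s k50 k49 0 (.s k38 k14 5 (.s k59 k55 1 (.d k25 k12 k8 6 4))))))] .n) .n))) (.c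
  k58 (.q k51 [(.s k34 k17 4 (.s k38 k46 1 (.s k25 k12 6 (.d k59 k55 k8 1 4)))), (.s k16 k32 3 (.s
  k17 k34 4 (.s k18 k19 0 (.s k33 k3 4 (.d k49 k50 k1 0 3))))), (.s k32 k16 3 (.s k37 k47 2 (.s k49
  k50 0 (.s k25 k13 5 (.d k59 k55 k8 1 4)))))] .n) .n))))))))))))

def t194 : T TT 256 :=
  (.f k42 k21 6 (.q k48 [(.s k32 k16 3 (.s k37 k47 2 (.s k26 k15 6 (.d k58 k53 k10 2 3))))] (.c k10
  (.q k51 [(.s k34 k17 4 (.s k38 k46 1 (.s k25 k12 6 (.d k59 k55 k8 1 4)))), (.s k16 k32 3 (.s k17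
  k34 4 (.s k18 k19 0 (.s k33 k3 4 (.d k49 k50 k1 0 3))))), (.s k32 k16 3 (.s k37 k47 2 (.s k49 k50
  0 (.s k25 k13 5 (.d k59 k55 k8 1 4)))))] (.c k90 (.q k250 [(.s k34 k17 4 (.s k38 k46 1 (.s k25 k12
  6 (.d k59 k55 k8 1 4)))), (.s k16 k32 3 (.s k17 k34 4 (.s k18 k19 0 (.s k33 k3 4 (.d k49 k50 k1 0
  3))))), (.s k32 k16 3 (.s k37 k47 2 (.s k49 k50 0 (.s k25 k13 5 (.d k59 k55 k8 1 4)))))] .n) (.c
  k250 (.q k90 [(.s k34 k17 4 (.s k38 k46 1 (.s k25 k12 6 (.d k59 k55 k8 1 4)))), (.s k16 k32 3 (.s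
  k17 k34 4 (.s k18 k19 0 (.s k33 k3 4 (.d k49 k50 k1 0 3))))), (.s k32 k16 3 (.s k37 k47 2 (.s k49
  k50 0 (.s k25 k13 5 (.d k59 k55 k8 1 4)))))] .n) .n))) (.c k15 (.q k51 [(.s k34 k17 4 (.s k38 k46
  1 (.s k59 k55 1 (.d k25 k8 k12 4 6)))), (.s k16 k32 3 (.s k17 k34 4 (.s k18 k19 0 (.s k33 k3 4 (.d
  k49 k50 k1 0 3))))), (.s k32 k16 3 (.s k37 k47 2 (.s k49 k50 0 (.s k25 k13 5 (.d k59 k55 k8 1
  4)))))] .n) (.c k16 (.q k51 [(.s k34 k17 4 (.s k38 k46 1 (.s k25 k12 6 (.d k59 k55 k8 1 4)))), (.s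
  k49 k50 0 (.s k53 k58 2 (.s k57 k61 1 (.s k54 k60 2 (.d k55 k52 k59 0 1))))), (.s k34 k17 4 (.s
  k38 k46 1 (.s k50 k49 0 (.s k26 k14 5 (.d k58 k53 k10 2 3)))))] (.c k26 (.q k31 [(.s k34 k17 4 (.s
  k38 k46 1 (.s k25 k12 6 (.d k59 k55 k8 1 4)))), (.s k15 k47 3 (.s k27 k39 5 (.s k59 k55 1 (.s k43
  k11 3 (.d k23 k19 k3 1 5))))), (.s k34 k17 4 (.s k50 k49 0 (.s k58 k53 2 (.s k62 k54 1 (.d k2 k18
  k22 3 5)))))] (.c k19 (.l (.s k59 k55 1 (.s k25 k8 4 (.s k38 k12 6 (.d k34 k46 k17 1 4))))) (.c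
  k55 (.l (.s k34 k17 4 (.s k15 k47 3 (.s k39 k27 5 (.s k38 k46 1 (.s k36 k37 0 (.d k12 k24 k25 5
  6))))))) .n))) (.c k31 (.q k26 [(.d k58 k53 k10 2 3), (.s k34 k17 4 (.s k38 k46 1 (.d k50 k49 k14
  0 5)))] .n) .n))) (.c k26 (.q k51 [(.s k34 k17 4 (.s k38 k46 1 (.s k25 k12 6 (.d k59 k55 k8 1
  4)))), (.s k16 k32 3 (.s k17 k34 4 (.s k18 k19 0 (.s k33 k3 4 (.d k49 k50 k1 0 3))))), (.s k49 k50
  0 (.s k53 k58 2 (.s k57 k61 1 (.s k54 k60 2 (.d k55 k52 k59 0 1)))))] (.c k16 (.q k31 [(.s k34 k17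
  4 (.s k38 k46 1 (.s k25 k12 6 (.d k59 k55 k8 1 4)))), (.s k15 k47 3 (.s k27 k39 5 (.s k59 k55 1
  (.s k43 k11 3 (.d k23 k19 k3 1 5))))), (.s k34 k17 4 (.s k50 k49 0 (.s k58 k53 2 (.s k62 k54 1 (.d
  k2 k18 k22 3 5)))))] (.c k19 (.l (.s k59 k55 1 (.s k25 k8 4 (.s k38 k12 6 (.d k34 k46 k17 1 4)))))
  (.c k55 (.l (.s k34 k17 4 (.s k15 k47 3 (.s k39 k27 5 (.s k38 k46 1 (.s k36 k37 0 (.d k12 k24 k25
  5 6))))))) .n))) (.c k31 (.l (.s k16 k32 3 (.s k17 k34 4 (.s k18 k19 0 (.s k33 k3 4 (.d k49 k50 k1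
  0 3)))))) .n))) (.c k31 (.l (.s k58 k53 2 (.s k32 k16 3 (.s k26 k10 3 (.d k37 k47 k15 2 6))))) (.c
  k32 (.f k53 k58 2 (.q k51 [(.s k34 k17 4 (.s k38 k46 1 (.s k25 k12 6 (.d k59 k55 k8 1 4)))), (.s
  k49 k50 0 (.s k57 k61 1 (.s k54 k60 2 (.d k55 k52 k59 0 1)))), (.s k34 k17 4 (.s k38 k46 1 (.s k25
  k12 6 (.s k49 k50 0 (.s k37 k13 5 (.s k15 k26 6 (.d k39 k36 k27 0 5)))))))] (.c k101 (.q k239 [(.s
  k34 k17 4 (.s k38 k46 1 (.s k25 k12 6 (.d k59 k55 k8 1 4)))), (.s k49 k50 0 (.s k57 k61 1 (.s k54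
  k60 2 (.d k55 k52 k59 0 1)))), (.s k34 k17 4 (.s k38 k46 1 (.s k25 k12 6 (.s k49 k50 0 (.s k37 k13
  5 (.s k15 k26 6 (.d k39 k36 k27 0 5)))))))] .n) (.c k239 (.q k101 [(.s k34 k17 4 (.s k38 k46 1 (.s
  k25 k12 6 (.d k59 k55 k8 1 4)))), (.s k154 k207 14 (.s k149 k197 11 (.s k192 k106 14 (.d k144 k159
  k96 2 11))))] .n) .n)))) (.c k37 (.q k51 [(.s k34 k17 4 (.s k38 k46 1 (.s k25 k12 6 (.d k59 k55 k8
  1 4)))), (.s k16 k32 3 (.s k17 k34 4 (.s k18 k19 0 (.s k33 k3 4 (.d k49 k50 k1 0 3))))), (.s k49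
  k50 0 (.s k53 k58 2 (.s k57 k61 1 (.s k54 k60 2 (.d k55 k52 k59 0 1)))))] (.c k5 (.l (.s k53 k58 2
  (.s k34 k17 4 (.s k38 k46 1 (.s k25 k12 6 (.d k59 k55 k8 1 4)))))) (.c k53 (.q k5 [(.s k34 k17 4
  (.s k38 k46 1 (.s k25 k12 6 (.d k59 k55 k8 1 4)))), (.s k16 k32 3 (.s k17 k34 4 (.s k18 k19 0 (.s
  k33 k3 4 (.d k49 k50 k1 0 3))))), (.s k10 k15 2 (.s k26 k58 3 (.s k50 k49 0 (.s k38 k14 5 (.s k59
  k55 1 (.d k25 k12 k8 6 4))))))] .n) .n))) (.c k47 (.q k51 [(.s k34 k17 4 (.s k38 k46 1 (.s k25 k12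
  6 (.d k59 k55 k8 1 4)))), (.s k16 k32 3 (.s k17 k34 4 (.s k18 k19 0 (.s k33 k3 4 (.d k49 k50 k1 0
  3))))), (.s k49 k50 0 (.s k53 k58 2 (.s k57 k61 1 (.s k54 k60 2 (.d k55 k52 k59 0 1)))))] .n) (.c
  k53 (.q k51 [(.s k34 k17 4 (.s k38 k46 1 (.s k25 k12 6 (.d k59 k55 k8 1 4)))), (.s k16 k32 3 (.s
  k17 k34 4 (.s k18 k19 0 (.s k33 k3 4 (.d k49 k50 k1 0 3))))), (.s k32 k16 3 (.s k37 k47 2 (.s k49
  k50 0 (.s k25 k13 5 (.d k59 k55 k8 1 4)))))] (.c k5 (.q k37 [(.d k32 k47 k16 2 3), (.s k49 k50 0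
  (.s k25 k13 5 (.d k59 k55 k8 1 4)))] .n) (.c k37 (.q k5 [(.s k34 k17 4 (.s k38 k46 1 (.s k25 k12 6
  (.d k59 k55 k8 1 4)))), (.s k16 k32 3 (.s k17 k34 4 (.s k18 k19 0 (.s k33 k3 4 (.d k49 k50 k1 0
  3))))), (.s k10 k15 2 (.s k26 k58 3 (.s k50 k49 0 (.s k38 k14 5 (.s k59 k55 1 (.d k25 k12 k8 6
  4))))))] .n) .n))) (.c k58 (.q k51 [(.s k34 k17 4 (.s k38 k46 1 (.s k25 k12 6 (.d k59 k55 k8 1
  4)))), (.s k16 k32 3 (.s k17 k34 4 (.s k18 k19 0 (.s k33 k3 4 (.d k49 k50 k1 0 3))))), (.s k32 k16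
  3 (.s k37 k47 2 (.s k49 k50 0 (.s k25 k13 5 (.d k59 k55 k8 1 4)))))] .n) .n))))))))))))

def t195 : T TT 256 :=
  (.f k42 k21 6 (.q k48 [(.s k32 k16 3 (.s k37 k47 2 (.s k58 k53 2 (.d k26 k10 k15 3 6))))] (.c k10
  (.f k53 k58 2 (.q k51 [(.s k34 k17 4 (.s k38 k46 1 (.s k59 k55 1 (.d k25 k8 k12 4 6)))), (.s k49
  k50 0 (.s k57 k61 1 (.s k54 k60 2 (.d k55 k52 k59 0 1)))), (.s k16 k32 3 (.s k17 k34 4 (.s k18 k19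
  0 (.s k33 k3 4 (.d k49 k50 k1 0 3)))))] (.c k90 (.q k250 [(.s k34 k17 4 (.s k38 k46 1 (.s k59 k55
  1 (.d k25 k8 k12 4 6)))), (.s k49 k50 0 (.s k57 k61 1 (.s k54 k60 2 (.d k55 k52 k59 0 1)))), (.s
  k16 k32 3 (.s k17 k34 4 (.s k18 k19 0 (.s k33 k3 4 (.d k49 k50 k1 0 3)))))] .n) (.c k250 (.q k90
  [(.s k34 k17 4 (.s k38 k46 1 (.s k59 k55 1 (.d k25 k8 k12 4 6)))), (.s k49 k50 0 (.s k57 k61 1 (.s
  k54 k60 2 (.d k55 k52 k59 0 1)))), (.s k16 k32 3 (.s k17 k34 4 (.s k18 k19 0 (.s k33 k3 4 (.d k49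
  k50 k1 0 3)))))] (.c k122 (.q k186 [(.s k34 k17 4 (.s k38 k46 1 (.s k59 k55 1 (.d k25 k8 k12 4
  6)))), (.s k49 k50 0 (.s k57 k61 1 (.s k54 k60 2 (.d k55 k52 k59 0 1)))), (.s k16 k32 3 (.s k17
  k34 4 (.s k18 k19 0 (.s k33 k3 4 (.d k49 k50 k1 0 3)))))] .n) (.c k186 (.q k122 [(.s k32 k16 3 (.s
  k37 k47 2 (.s k240 k181 10 (.d k15 k26 k165 6 14)))), (.s k34 k17 4 (.s k38 k46 1 (.s k25 k12 6
  (.d k59 k55 k8 1 4))))] (.c k138 (.q k154 [(.s k26 k218 7 (.s k15 k37 6 (.d k240 k181 k165 10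
  14))), (.s k101 k207 14 (.s k149 k197 11 (.d k106 k74 k192 3 14)))] (.c k74 (.q k202 [(.s k26 k218
  7 (.s k15 k37 6 (.d k240 k181 k165 10 14))), (.s k101 k207 14 (.s k240 k181 10 (.d k112 k176 k79 7
  6))), (.s k32 k16 3 (.s k26 k218 7 (.d k37 k47 k15 2 6)))] .n) (.c k202 (.l (.s k74 k106 3 (.s k32
  k16 3 (.s k37 k47 2 (.d k26 k15 k218 6 7))))) .n))) (.c k154 (.q k138 [(.s k34 k17 4 (.s k38 k46 1
  (.s k25 k12 6 (.d k59 k55 k8 1 4)))), (.s k32 k16 3 (.s k37 k47 2 (.s k240 k181 10 (.d k15 k26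
  k165 6 14))))] (.c k106 (.q k202 [(.s k34 k17 4 (.s k38 k46 1 (.s k25 k12 6 (.d k59 k55 k8 1
  4)))), (.s k32 k16 3 (.s k37 k47 2 (.s k240 k181 10 (.d k15 k26 k165 6 14))))] .n) (.c k202 (.l
  (.s k106 k74 3 (.s k32 k16 3 (.s k37 k47 2 (.s k240 k181 10 (.d k15 k26 k165 6 14)))))) .n)))
  .n))) .n))) .n)))) (.c k15 (.f k53 k58 2 (.q k51 [(.s k34 k17 4 (.s k38 k46 1 (.s k59 k55 1 (.d
  k25 k8 k12 4 6)))), (.s k49 k50 0 (.s k57 k61 1 (.s k54 k60 2 (.d k55 k52 k59 0 1)))), (.s k16 k32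
  3 (.s k17 k34 4 (.s k18 k19 0 (.s k33 k3 4 (.d k49 k50 k1 0 3)))))] (.c k75 (.q k135 [(.s k34 k17
  4 (.s k38 k46 1 (.s k59 k55 1 (.d k25 k8 k12 4 6)))), (.s k49 k50 0 (.s k57 k61 1 (.s k54 k60 2
  (.d k55 k52 k59 0 1)))), (.s k16 k32 3 (.s k17 k34 4 (.s k18 k19 0 (.s k33 k3 4 (.d k49 k50 k1 0
  3)))))] .n) (.c k135 (.q k75 [(.s k34 k17 4 (.s k38 k46 1 (.s k59 k55 1 (.d k25 k8 k12 4 6)))),
  (.s k49 k50 0 (.s k57 k61 1 (.s k54 k60 2 (.d k55 k52 k59 0 1)))), (.s k16 k32 3 (.s k17 k34 4 (.s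
  k18 k19 0 (.s k33 k3 4 (.d k49 k50 k1 0 3)))))] .n) .n)))) (.c k16 (.q k51 [(.s k34 k17 4 (.s k38
  k46 1 (.s k59 k55 1 (.d k25 k8 k12 4 6)))), (.s k49 k50 0 (.s k53 k58 2 (.s k57 k61 1 (.s k54 k60
  2 (.d k55 k52 k59 0 1))))), (.s k34 k17 4 (.s k38 k46 1 (.s k50 k49 0 (.s k26 k14 5 (.d k58 k53
  k10 2 3)))))] (.c k26 (.q k31 [(.s k34 k17 4 (.s k38 k46 1 (.s k59 k55 1 (.d k25 k8 k12 4 6)))),
  (.s k15 k47 3 (.s k27 k39 5 (.s k59 k55 1 (.s k43 k11 3 (.d k23 k19 k3 1 5))))), (.s k34 k17 4 (.s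
  k50 k49 0 (.s k58 k53 2 (.s k62 k54 1 (.d k2 k18 k22 3 5)))))] (.c k19 (.l (.s k59 k55 1 (.s k25
  k8 4 (.s k38 k12 6 (.d k34 k46 k17 1 4))))) (.c k55 (.l (.s k34 k17 4 (.s k15 k47 3 (.s k39 k27 5
  (.s k38 k46 1 (.s k36 k37 0 (.d k12 k24 k25 5 6))))))) .n))) (.c k31 (.q k26 [(.d k58 k53 k10 2
  3), (.s k34 k17 4 (.s k38 k46 1 (.d k50 k49 k14 0 5)))] .n) .n))) (.c k26 (.q k51 [(.s k34 k17 4
  (.s k38 k46 1 (.s k59 k55 1 (.d k25 k8 k12 4 6)))), (.s k16 k32 3 (.s k17 k34 4 (.s k18 k19 0 (.s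
  k33 k3 4 (.d k49 k50 k1 0 3))))), (.s k49 k50 0 (.s k53 k58 2 (.s k57 k61 1 (.s k54 k60 2 (.d k55
  k52 k59 0 1)))))] (.c k16 (.q k31 [(.s k34 k17 4 (.s k38 k46 1 (.s k59 k55 1 (.d k25 k8 k12 4
  6)))), (.s k15 k47 3 (.s k27 k39 5 (.s k59 k55 1 (.s k43 k11 3 (.d k23 k19 k3 1 5))))), (.s k34
  k17 4 (.s k50 k49 0 (.s k58 k53 2 (.s k62 k54 1 (.d k2 k18 k22 3 5)))))] (.c k19 (.l (.s k59 k55 1
  (.s k25 k8 4 (.s k38 k12 6 (.d k34 k46 k17 1 4))))) (.c k55 (.l (.s k34 k17 4 (.s k15 k47 3 (.s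
  k39 k27 5 (.s k38 k46 1 (.s k36 k37 0 (.d k12 k24 k25 5 6))))))) .n))) (.c k31 (.l (.s k16 k32 3
  (.s k17 k34 4 (.s k18 k19 0 (.s k33 k3 4 (.d k49 k50 k1 0 3)))))) .n))) (.c k31 (.l (.s k58 k53 2
  (.s k32 k16 3 (.s k26 k10 3 (.d k37 k47 k15 2 6))))) (.c k32 (.f k53 k58 2 (.q k51 [(.s k34 k17 4
  (.s k38 k46 1 (.s k59 k55 1 (.d k25 k8 k12 4 6)))), (.s k49 k50 0 (.s k57 k61 1 (.s k54 k60 2 (.d
  k55 k52 k59 0 1)))), (.s k34 k17 4 (.s k38 k46 1 (.s k25 k12 6 (.s k49 k50 0 (.s k37 k13 5 (.s k15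
  k26 6 (.d k39 k36 k27 0 5)))))))] (.c k101 (.q k239 [(.s k34 k17 4 (.s k38 k46 1 (.s k59 k55 1 (.d
  k25 k8 k12 4 6)))), (.s k49 k50 0 (.s k57 k61 1 (.s k54 k60 2 (.d k55 k52 k59 0 1)))), (.s k34 k17
  4 (.s k38 k46 1 (.s k25 k12 6 (.s k49 k50 0 (.s k37 k13 5 (.s k15 k26 6 (.d k39 k36 k27 0
  5)))))))] .n) (.c k239 (.q k101 [(.s k34 k17 4 (.s k38 k46 1 (.s k59 k55 1 (.d k25 k8 k12 4 6)))),
  (.s k154 k207 14 (.s k149 k197 11 (.s k192 k106 14 (.d k144 k159 k96 2 11))))] .n) .n)))) (.c k37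
  (.q k51 [(.s k34 k17 4 (.s k38 k46 1 (.s k59 k55 1 (.d k25 k8 k12 4 6)))), (.s k16 k32 3 (.s k17
  k34 4 (.s k18 k19 0 (.s k33 k3 4 (.d k49 k50 k1 0 3))))), (.s k49 k50 0 (.s k53 k58 2 (.s k57 k61
  1 (.s k54 k60 2 (.d k55 k52 k59 0 1)))))] (.c k5 (.l (.s k53 k58 2 (.s k34 k17 4 (.s k38 k46 1 (.s
  k25 k12 6 (.d k59 k55 k8 1 4)))))) (.c k53 (.q k5 [(.s k34 k17 4 (.s k38 k46 1 (.s k25 k12 6 (.d
  k59 k55 k8 1 4)))), (.s k16 k32 3 (.s k17 k34 4 (.s k18 k19 0 (.s k33 k3 4 (.d k49 k50 k1 0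
  3))))), (.s k10 k15 2 (.s k26 k58 3 (.s k50 k49 0 (.s k38 k14 5 (.s k59 k55 1 (.d k25 k12 k8 6
  4))))))] .n) .n))) (.c k47 (.q k51 [(.s k34 k17 4 (.s k38 k46 1 (.s k59 k55 1 (.d k25 k8 k12 4
  6)))), (.s k16 k32 3 (.s k17 k34 4 (.s k18 k19 0 (.s k33 k3 4 (.d k49 k50 k1 0 3))))), (.s k49 k50
  0 (.s k53 k58 2 (.s k57 k61 1 (.s k54 k60 2 (.d k55 k52 k59 0 1)))))] .n) (.c k53 (.q k51 [(.s k34
  k17 4 (.s k38 k46 1 (.s k25 k12 6 (.d k59 k55 k8 1 4)))), (.s k16 k32 3 (.s k17 k34 4 (.s k18 k19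
  0 (.s k33 k3 4 (.d k49 k50 k1 0 3))))), (.s k32 k16 3 (.s k37 k47 2 (.s k49 k50 0 (.s k25 k13 5
  (.d k59 k55 k8 1 4)))))] (.c k5 (.q k37 [(.d k32 k47 k16 2 3), (.s k49 k50 0 (.s k25 k13 5 (.d k59
  k55 k8 1 4)))] .n) (.c k37 (.q k5 [(.s k34 k17 4 (.s k38 k46 1 (.s k25 k12 6 (.d k59 k55 k8 1
  4)))), (.s k16 k32 3 (.s k17 k34 4 (.s k18 k19 0 (.s k33 k3 4 (.d k49 k50 k1 0 3))))), (.s k10 k15
  2 (.s k26 k58 3 (.s k50 k49 0 (.s k38 k14 5 (.s k59 k55 1 (.d k25 k12 k8 6 4))))))] .n) .n))) (.c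
  k58 (.q k51 [(.s k34 k17 4 (.s k38 k46 1 (.s k59 k55 1 (.d k25 k8 k12 4 6)))), (.s k16 k32 3 (.s
  k17 k34 4 (.s k18 k19 0 (.s k33 k3 4 (.d k49 k50 k1 0 3))))), (.s k32 k16 3 (.s k37 k47 2 (.s k49
  k50 0 (.s k25 k13 5 (.d k59 k55 k8 1 4)))))] .n) .n))))))))))))

def t197 : T TT 256 :=
  (.q k60 [(.s k40 k20 5 (.s k42 k21 6 (.s k41 k43 0 (.s k22 k3 6 (.d k62 k61 k2 0 5)))))] (.c k2
  (.l (.s k20 k40 5 (.s k21 k42 6 (.s k22 k23 0 (.s k41 k3 6 (.d k61 k62 k1 0 5)))))) (.c k3 (.q k12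
  [(.s k28 k44 3 (.s k29 k46 4 (.s k30 k31 0 (.s k45 k15 4 (.d k61 k62 k13 0 3))))), (.s k4 k8 1 (.s
  k20 k40 5 (.s k36 k52 3 (.s k24 k48 5 (.d k28 k16 k44 1 3))))), (.s k4 k8 1 (.s k21 k42 6 (.s k38
  k55 4 (.s k25 k51 6 (.d k29 k17 k46 1 4)))))] .n) (.c k20 (.q k12 [(.s k28 k44 3 (.s k29 k46 4 (.s
  k30 k31 0 (.s k45 k15 4 (.d k61 k62 k13 0 3))))), (.s k4 k8 1 (.s k21 k42 6 (.s k38 k55 4 (.s k25
  k51 6 (.d k29 k17 k46 1 4))))), (.s k4 k8 1 (.s k21 k42 6 (.s k38 k55 4 (.s k44 k28 3 (.s k41 k35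
  2 (.d k61 k62 k1 0 5))))))] .n) (.c k21 (.q k12 [(.s k28 k44 3 (.s k29 k46 4 (.s k30 k31 0 (.s k45
  k15 4 (.d k61 k62 k13 0 3))))), (.s k8 k4 1 (.s k40 k20 5 (.s k24 k56 3 (.s k36 k48 5 (.d k44 k32
  k28 1 3)))))] (.c k28 (.q k106 [(.s k29 k46 4 (.s k149 k192 14 (.s k89 k209 9 (.s k123 k72 4 (.d
  k243 k183 k166 9 14))))), (.s k61 k62 0 (.s k149 k192 14 (.s k105 k193 13 (.s k107 k104 0 (.d k195
  k151 k150 13 14))))), (.s k46 k29 4 (.s k166 k226 9 (.s k62 k61 0 (.s k150 k194 13 (.s k134 k182 3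
  (.d k195 k73 k105 10 14))))))] .n) (.c k44 (.q k106 [(.s k29 k46 4 (.s k149 k192 14 (.s k89 k209 9
  (.s k123 k72 4 (.d k243 k183 k166 9 14))))), (.s k61 k62 0 (.s k149 k192 14 (.s k105 k193 13 (.s
  k195 k150 14 (.d k107 k104 k151 0 13))))), (.s k46 k29 4 (.s k166 k226 9 (.s k62 k61 0 (.s k150
  k194 13 (.s k134 k182 3 (.d k195 k73 k105 10 14))))))] .n) .n))) (.c k22 (.q k12 [(.s k28 k44 3
  (.s k29 k46 4 (.s k30 k31 0 (.s k45 k15 4 (.d k61 k62 k13 0 3))))), (.s k4 k8 1 (.s k20 k40 5 (.s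
  k36 k52 3 (.s k24 k48 5 (.d k28 k16 k44 1 3))))), (.s k4 k8 1 (.s k21 k42 6 (.s k38 k55 4 (.s k25
  k51 6 (.d k29 k17 k46 1 4)))))] .n) (.c k23 (.l (.s k40 k20 5 (.s k62 k61 0 (.s k42 k21 6 (.s k22
  k2 5 (.d k41 k43 k3 0 6)))))) (.c k40 (.q k12 [(.s k8 k4 1 (.s k42 k21 6 (.s k25 k59 4 (.s k38 k51
  6 (.d k46 k34 k29 1 4))))), (.s k28 k44 3 (.s k29 k46 4 (.s k30 k31 0 (.s k45 k15 4 (.d k61 k62
  k13 0 3))))), (.s k4 k8 1 (.s k21 k42 6 (.s k38 k55 4 (.s k44 k28 3 (.s k41 k35 2 (.d k61 k62 k1 0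
  5))))))] (.c k105 (.q k235 [(.s k8 k4 1 (.s k42 k21 6 (.s k25 k59 4 (.s k38 k51 6 (.d k46 k34 k29
  1 4))))), (.s k28 k44 3 (.s k29 k46 4 (.s k30 k31 0 (.s k45 k15 4 (.d k61 k62 k13 0 3))))), (.s k4
  k8 1 (.s k21 k42 6 (.s k38 k55 4 (.s k44 k28 3 (.s k41 k35 2 (.d k61 k62 k1 0 5))))))] .n) (.c
  k235 (.q k105 [(.s k8 k4 1 (.s k42 k21 6 (.s k25 k59 4 (.s k38 k51 6 (.d k46 k34 k29 1 4))))), (.s
  k28 k44 3 (.s k150 k195 14 (.s k89 k211 10 (.s k243 k166 14 (.d k121 k73 k182 3 10)))))] .n) .n)))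
  (.c k41 (.q k12 [(.s k28 k44 3 (.s k29 k46 4 (.s k30 k31 0 (.s k45 k15 4 (.d k61 k62 k13 0 3))))),
  (.s k4 k8 1 (.s k20 k40 5 (.s k36 k52 3 (.s k24 k48 5 (.d k28 k16 k44 1 3))))), (.s k4 k8 1 (.s
  k21 k42 6 (.s k38 k55 4 (.s k25 k51 6 (.d k29 k17 k46 1 4)))))] .n) (.c k42 (.q k106 [(.s k62 k61
  0 (.s k150 k194 13 (.s k105 k195 14 (.s k192 k149 14 (.d k104 k107 k148 0 13))))), (.s k20 k40 5
  (.s k192 k149 14 (.s k128 k64 7 (.s k148 k104 13 (.s k84 k212 7 (.d k168 k188 k252 5 13)))))), (.s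
  k61 k62 0 (.s k149 k192 14 (.s k105 k193 13 (.s k195 k150 14 (.d k107 k104 k151 0 13)))))] (.c
  k104 (.l (.s k62 k61 0 (.s k150 k194 13 (.s k195 k105 14 (.s k149 k192 14 (.d k151 k148 k107 0
  13)))))) (.c k105 (.l (.s k40 k20 5 (.s k192 k149 14 (.s k104 k148 13 (.s k168 k232 7 (.s k84 k252
  13 (.d k64 k128 k124 7 5))))))) (.c k149 (.f k62 k61 0 (.l (.s k20 k40 5 (.s k150 k194 13 (.s k85
  k215 8 (.s k105 k195 14 (.s k64 k127 6 (.s k104 k107 0 (.d k192 k128 k148 7 13))))))))) (.c k192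
  (.f k62 k61 0 (.l (.s k20 k40 5 (.s k150 k194 13 (.s k85 k215 8 (.s k127 k64 6 (.s k255 k191 7 (.s
  k125 k190 8 (.d k105 k195 k65 14 5))))))))) .n))))) (.c k43 (.l (.s k20 k40 5 (.s k61 k62 0 (.s
  k21 k42 6 (.s k41 k1 5 (.d k22 k23 k3 0 6)))))) (.c k61 (.q k12 [(.s k8 k4 1 (.s k40 k20 5 (.s k24
  k56 3 (.s k36 k48 5 (.d k44 k32 k28 1 3))))), (.s k4 k8 1 (.s k21 k42 6 (.s k38 k55 4 (.s k25 k51
  6 (.d k29 k17 k46 1 4))))), (.s k20 k40 5 (.s k21 k42 6 (.s k28 k44 3 (.s k29 k46 4 (.s k25 k17 1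
  (.d k22 k23 k19 0 2))))))] .n) (.c k62 (.q k12 [(.s k8 k4 1 (.s k40 k20 5 (.s k24 k56 3 (.s k36
  k48 5 (.d k44 k32 k28 1 3))))), (.s k4 k8 1 (.s k21 k42 6 (.s k38 k55 4 (.s k25 k51 6 (.d k29 k17
  k46 1 4))))), (.s k20 k40 5 (.s k21 k42 6 (.s k28 k44 3 (.s k29 k46 4 (.s k25 k17 1 (.d k22 k23
  k19 0 2))))))] .n) .n)))))))))))))

def t198 : T TT 256 :=
  (.f k42 k21 6 (.q k48 [(.s k32 k16 3 (.s k37 k47 2 (.s k26 k15 6 (.d k58 k53 k10 2 3))))] (.c k10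
  (.f k53 k58 2 (.q k51 [(.s k34 k17 4 (.s k38 k46 1 (.s k25 k12 6 (.d k59 k55 k8 1 4)))), (.s k49
  k50 0 (.s k57 k61 1 (.s k54 k60 2 (.d k55 k52 k59 0 1)))), (.s k16 k32 3 (.s k17 k34 4 (.s k18 k19
  0 (.s k33 k3 4 (.d k49 k50 k1 0 3)))))] (.c k90 (.q k250 [(.s k34 k17 4 (.s k38 k46 1 (.s k25 k12
  6 (.d k59 k55 k8 1 4)))), (.s k49 k50 0 (.s k57 k61 1 (.s k54 k60 2 (.d k55 k52 k59 0 1)))), (.s
  k16 k32 3 (.s k17 k34 4 (.s k18 k19 0 (.s k33 k3 4 (.d k49 k50 k1 0 3)))))] .n) (.c k250 (.q k90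
  [(.s k34 k17 4 (.s k38 k46 1 (.s k25 k12 6 (.d k59 k55 k8 1 4)))), (.s k49 k50 0 (.s k57 k61 1 (.s
  k54 k60 2 (.d k55 k52 k59 0 1)))), (.s k16 k32 3 (.s k17 k34 4 (.s k18 k19 0 (.s k33 k3 4 (.d k49
  k50 k1 0 3)))))] (.c k122 (.q k186 [(.s k34 k17 4 (.s k38 k46 1 (.s k25 k12 6 (.d k59 k55 k8 1
  4)))), (.s k49 k50 0 (.s k57 k61 1 (.s k54 k60 2 (.d k55 k52 k59 0 1)))), (.s k16 k32 3 (.s k17
  k34 4 (.s k18 k19 0 (.s k33 k3 4 (.d k49 k50 k1 0 3)))))] .n) (.c k186 (.q k122 [(.s k34 k17 4 (.s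
  k38 k46 1 (.s k25 k12 6 (.d k59 k55 k8 1 4)))), (.s k32 k16 3 (.s k37 k47 2 (.s k240 k181 10 (.d
  k15 k26 k165 6 14))))] (.c k138 (.q k154 [(.s k26 k218 7 (.s k15 k37 6 (.d k240 k181 k165 10
  14))), (.s k101 k207 14 (.s k149 k197 11 (.d k106 k74 k192 3 14)))] (.c k74 (.q k202 [(.s k26 k218
  7 (.s k15 k37 6 (.d k240 k181 k165 10 14))), (.s k101 k207 14 (.s k240 k181 10 (.d k112 k176 k79 7
  6))), (.s k32 k16 3 (.s k26 k218 7 (.d k37 k47 k15 2 6)))] .n) (.c k202 (.l (.s k74 k106 3 (.s k32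
  k16 3 (.s k37 k47 2 (.d k26 k15 k218 6 7))))) .n))) (.c k154 (.q k138 [(.s k34 k17 4 (.s k38 k46 1
  (.s k25 k12 6 (.d k59 k55 k8 1 4)))), (.s k32 k16 3 (.s k37 k47 2 (.s k240 k181 10 (.d k15 k26
  k165 6 14))))] (.c k106 (.q k202 [(.s k34 k17 4 (.s k38 k46 1 (.s k25 k12 6 (.d k59 k55 k8 1
  4)))), (.s k32 k16 3 (.s k37 k47 2 (.s k240 k181 10 (.d k15 k26 k165 6 14))))] .n) (.c k202 (.l
  (.s k106 k74 3 (.s k32 k16 3 (.s k37 k47 2 (.s k240 k181 10 (.d k15 k26 k165 6 14)))))) .n)))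
  .n))) .n))) .n)))) (.c k15 (.q k51 [(.s k34 k17 4 (.s k38 k46 1 (.s k59 k55 1 (.d k25 k8 k12 4
  6)))), (.s k16 k32 3 (.s k17 k34 4 (.s k18 k19 0 (.s k33 k3 4 (.d k49 k50 k1 0 3))))), (.s k32 k16
  3 (.s k37 k47 2 (.s k49 k50 0 (.s k25 k13 5 (.d k59 k55 k8 1 4)))))] .n) (.c k16 (.q k51 [(.s k34
  k17 4 (.s k38 k46 1 (.s k25 k12 6 (.d k59 k55 k8 1 4)))), (.s k49 k50 0 (.s k53 k58 2 (.s k57 k61
  1 (.s k54 k60 2 (.d k55 k52 k59 0 1))))), (.s k34 k17 4 (.s k38 k46 1 (.s k50 k49 0 (.s k26 k14 5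
  (.d k58 k53 k10 2 3)))))] (.c k26 (.q k31 [(.s k34 k17 4 (.s k38 k46 1 (.s k25 k12 6 (.d k59 k55
  k8 1 4)))), (.s k15 k47 3 (.s k27 k39 5 (.s k59 k55 1 (.s k43 k11 3 (.d k23 k19 k3 1 5))))), (.s
  k34 k17 4 (.s k50 k49 0 (.s k58 k53 2 (.s k62 k54 1 (.d k2 k18 k22 3 5)))))] (.c k19 (.l (.s k59
  k55 1 (.s k25 k8 4 (.s k38 k12 6 (.d k34 k46 k17 1 4))))) (.c k55 (.l (.s k34 k17 4 (.s k15 k47 3
  (.s k39 k27 5 (.s k38 k46 1 (.s k36 k37 0 (.d k12 k24 k25 5 6))))))) .n))) (.c k31 (.q k26 [(.d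
  k58 k53 k10 2 3), (.s k34 k17 4 (.s k38 k46 1 (.d k50 k49 k14 0 5)))] .n) .n))) (.c k26 (.q k51
  [(.s k34 k17 4 (.s k38 k46 1 (.s k25 k12 6 (.d k59 k55 k8 1 4)))), (.s k16 k32 3 (.s k17 k34 4 (.s
  k18 k19 0 (.s k33 k3 4 (.d k49 k50 k1 0 3))))), (.s k49 k50 0 (.s k53 k58 2 (.s k57 k61 1 (.s k54
  k60 2 (.d k55 k52 k59 0 1)))))] (.c k16 (.q k31 [(.s k34 k17 4 (.s k38 k46 1 (.s k25 k12 6 (.d k59
  k55 k8 1 4)))), (.s k15 k47 3 (.s k27 k39 5 (.s k59 k55 1 (.s k43 k11 3 (.d k23 k19 k3 1 5))))),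
  (.s k34 k17 4 (.s k50 k49 0 (.s k58 k53 2 (.s k62 k54 1 (.d k2 k18 k22 3 5)))))] (.c k19 (.l (.s
  k59 k55 1 (.s k25 k8 4 (.s k38 k12 6 (.d k34 k46 k17 1 4))))) (.c k55 (.l (.s k34 k17 4 (.s k15
  k47 3 (.s k39 k27 5 (.s k38 k46 1 (.s k36 k37 0 (.d k12 k24 k25 5 6))))))) .n))) (.c k31 (.l (.s
  k16 k32 3 (.s k17 k34 4 (.s k18 k19 0 (.s k33 k3 4 (.d k49 k50 k1 0 3)))))) .n))) (.c k31 (.l (.s
  k58 k53 2 (.s k32 k16 3 (.s k26 k10 3 (.d k37 k47 k15 2 6))))) (.c k32 (.f k53 k58 2 (.q k51 [(.s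
  k34 k17 4 (.s k38 k46 1 (.s k25 k12 6 (.d k59 k55 k8 1 4)))), (.s k49 k50 0 (.s k57 k61 1 (.s k54
  k60 2 (.d k55 k52 k59 0 1)))), (.s k34 k17 4 (.s k38 k46 1 (.s k25 k12 6 (.s k49 k50 0 (.s k37 k13
  5 (.s k15 k26 6 (.d k39 k36 k27 0 5)))))))] (.c k101 (.q k239 [(.s k34 k17 4 (.s k38 k46 1 (.s k25
  k12 6 (.d k59 k55 k8 1 4)))), (.s k49 k50 0 (.s k57 k61 1 (.s k54 k60 2 (.d k55 k52 k59 0 1)))),
  (.s k34 k17 4 (.s k38 k46 1 (.s k25 k12 6 (.s k49 k50 0 (.s k37 k13 5 (.s k15 k26 6 (.d k39 k36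
  k27 0 5)))))))] .n) (.c k239 (.q k101 [(.s k34 k17 4 (.s k38 k46 1 (.s k25 k12 6 (.d k59 k55 k8 1
  4)))), (.s k154 k207 14 (.s k149 k197 11 (.s k192 k106 14 (.d k144 k159 k96 2 11))))] .n) .n))))
  (.c k37 (.q k51 [(.s k34 k17 4 (.s k38 k46 1 (.s k25 k12 6 (.d k59 k55 k8 1 4)))), (.s k16 k32 3
  (.s k17 k34 4 (.s k18 k19 0 (.s k33 k3 4 (.d k49 k50 k1 0 3))))), (.s k49 k50 0 (.s k53 k58 2 (.s
  k57 k61 1 (.s k54 k60 2 (.d k55 k52 k59 0 1)))))] (.c k5 (.l (.s k53 k58 2 (.s k34 k17 4 (.s k38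
  k46 1 (.s k25 k12 6 (.d k59 k55 k8 1 4)))))) (.c k53 (.q k5 [(.s k34 k17 4 (.s k38 k46 1 (.s k25
  k12 6 (.d k59 k55 k8 1 4)))), (.s k16 k32 3 (.s k17 k34 4 (.s k18 k19 0 (.s k33 k3 4 (.d k49 k50
  k1 0 3))))), (.s k10 k15 2 (.s k26 k58 3 (.s k50 k49 0 (.s k38 k14 5 (.s k59 k55 1 (.d k25 k12 k8
  6 4))))))] .n) .n))) (.c k47 (.q k51 [(.s k34 k17 4 (.s k38 k46 1 (.s k25 k12 6 (.d k59 k55 k8 1
  4)))), (.s k16 k32 3 (.s k17 k34 4 (.s k18 k19 0 (.s k33 k3 4 (.d k49 k50 k1 0 3))))), (.s k49 k50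
  0 (.s k53 k58 2 (.s k57 k61 1 (.s k54 k60 2 (.d k55 k52 k59 0 1)))))] .n) (.c k53 (.q k51 [(.s k34
  k17 4 (.s k38 k46 1 (.s k25 k12 6 (.d k59 k55 k8 1 4)))), (.s k16 k32 3 (.s k17 k34 4 (.s k18 k19
  0 (.s k33 k3 4 (.d k49 k50 k1 0 3))))), (.s k32 k16 3 (.s k37 k47 2 (.s k49 k50 0 (.s k25 k13 5
  (.d k59 k55 k8 1 4)))))] (.c k5 (.q k37 [(.d k32 k47 k16 2 3), (.s k49 k50 0 (.s k25 k13 5 (.d k59
  k55 k8 1 4)))] .n) (.c k37 (.q k5 [(.s k34 k17 4 (.s k38 k46 1 (.s k25 k12 6 (.d k59 k55 k8 1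
  4)))), (.s k16 k32 3 (.s k17 k34 4 (.s k18 k19 0 (.s k33 k3 4 (.d k49 k50 k1 0 3))))), (.s k10 k15
  2 (.s k26 k58 3 (.s k50 k49 0 (.s k38 k14 5 (.s k59 k55 1 (.d k25 k12 k8 6 4))))))] .n) .n))) (.c
  k58 (.q k51 [(.s k34 k17 4 (.s k38 k46 1 (.s k25 k12 6 (.d k59 k55 k8 1 4)))), (.s k16 k32 3 (.s
  k17 k34 4 (.s k18 k19 0 (.s k33 k3 4 (.d k49 k50 k1 0 3))))), (.s k32 k16 3 (.s k37 k47 2 (.s k49
  k50 0 (.s k25 k13 5 (.d k59 k55 k8 1 4)))))] .n) .n))))))))))))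

def t199 : T TT 256 :=
  (.f k42 k21 6 (.q k48 [(.s k32 k16 3 (.s k37 k47 2 (.s k26 k15 6 (.d k58 k53 k10 2 3))))] (.c k10
  (.f k53 k58 2 (.q k51 [(.s k34 k17 4 (.s k38 k46 1 (.s k25 k12 6 (.d k59 k55 k8 1 4)))), (.s k49
  k50 0 (.s k57 k61 1 (.s k54 k60 2 (.d k55 k52 k59 0 1)))), (.s k16 k32 3 (.s k17 k34 4 (.s k18 k19
  0 (.s k33 k3 4 (.d k49 k50 k1 0 3)))))] (.c k90 (.q k250 [(.s k34 k17 4 (.s k38 k46 1 (.s k25 k12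
  6 (.d k59 k55 k8 1 4)))), (.s k49 k50 0 (.s k57 k61 1 (.s k54 k60 2 (.d k55 k52 k59 0 1)))), (.s
  k16 k32 3 (.s k17 k34 4 (.s k18 k19 0 (.s k33 k3 4 (.d k49 k50 k1 0 3)))))] .n) (.c k250 (.q k90
  [(.s k34 k17 4 (.s k38 k46 1 (.s k25 k12 6 (.d k59 k55 k8 1 4)))), (.s k49 k50 0 (.s k57 k61 1 (.s
  k54 k60 2 (.d k55 k52 k59 0 1)))), (.s k16 k32 3 (.s k17 k34 4 (.s k18 k19 0 (.s k33 k3 4 (.d k49
  k50 k1 0 3)))))] (.c k122 (.q k186 [(.s k34 k17 4 (.s k38 k46 1 (.s k25 k12 6 (.d k59 k55 k8 1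
  4)))), (.s k49 k50 0 (.s k57 k61 1 (.s k54 k60 2 (.d k55 k52 k59 0 1)))), (.s k16 k32 3 (.s k17
  k34 4 (.s k18 k19 0 (.s k33 k3 4 (.d k49 k50 k1 0 3)))))] .n) (.c k186 (.q k122 [(.s k34 k17 4 (.s
  k38 k46 1 (.s k25 k12 6 (.d k59 k55 k8 1 4)))), (.s k32 k16 3 (.s k37 k47 2 (.s k240 k181 10 (.d
  k15 k26 k165 6 14))))] (.c k138 (.q k154 [(.s k26 k218 7 (.s k15 k37 6 (.d k240 k181 k165 10
  14))), (.s k101 k207 14 (.s k149 k197 11 (.d k106 k74 k192 3 14)))] (.c k74 (.q k202 [(.s k26 k218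
  7 (.s k15 k37 6 (.d k240 k181 k165 10 14))), (.s k101 k207 14 (.s k240 k181 10 (.d k112 k176 k79 7
  6))), (.s k32 k16 3 (.s k26 k218 7 (.d k37 k47 k15 2 6)))] .n) (.c k202 (.l (.s k74 k106 3 (.s k32
  k16 3 (.s k37 k47 2 (.d k26 k15 k218 6 7))))) .n))) (.c k154 (.q k138 [(.s k34 k17 4 (.s k38 k46 1
  (.s k25 k12 6 (.d k59 k55 k8 1 4)))), (.s k32 k16 3 (.s k37 k47 2 (.s k240 k181 10 (.d k15 k26
  k165 6 14))))] (.c k106 (.q k202 [(.s k34 k17 4 (.s k38 k46 1 (.s k25 k12 6 (.d k59 k55 k8 1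
  4)))), (.s k32 k16 3 (.s k37 k47 2 (.s k240 k181 10 (.d k15 k26 k165 6 14))))] .n) (.c k202 (.l
  (.s k106 k74 3 (.s k32 k16 3 (.s k37 k47 2 (.s k240 k181 10 (.d k15 k26 k165 6 14)))))) .n)))
  .n))) .n))) .n)))) (.c k15 (.q k51 [(.s k34 k17 4 (.s k38 k46 1 (.s k25 k12 6 (.d k59 k55 k8 1
  4)))), (.s k16 k32 3 (.s k17 k34 4 (.s k18 k19 0 (.s k33 k3 4 (.d k49 k50 k1 0 3))))), (.s k32 k16
  3 (.s k37 k47 2 (.s k49 k50 0 (.s k25 k13 5 (.d k59 k55 k8 1 4)))))] .n) (.c k16 (.q k51 [(.s k34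
  k17 4 (.s k38 k46 1 (.s k25 k12 6 (.d k59 k55 k8 1 4)))), (.s k49 k50 0 (.s k53 k58 2 (.s k57 k61
  1 (.s k54 k60 2 (.d k55 k52 k59 0 1))))), (.s k34 k17 4 (.s k38 k46 1 (.s k50 k49 0 (.s k26 k14 5
  (.d k58 k53 k10 2 3)))))] (.c k26 (.q k31 [(.s k34 k17 4 (.s k38 k46 1 (.s k25 k12 6 (.d k59 k55
  k8 1 4)))), (.s k15 k47 3 (.s k27 k39 5 (.s k59 k55 1 (.s k43 k11 3 (.d k23 k19 k3 1 5))))), (.s
  k34 k17 4 (.s k50 k49 0 (.s k58 k53 2 (.s k62 k54 1 (.d k2 k18 k22 3 5)))))] (.c k19 (.l (.s k59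
  k55 1 (.s k25 k8 4 (.s k38 k12 6 (.d k34 k46 k17 1 4))))) (.c k55 (.l (.s k34 k17 4 (.s k15 k47 3
  (.s k39 k27 5 (.s k38 k46 1 (.s k36 k37 0 (.d k12 k24 k25 5 6))))))) .n))) (.c k31 (.q k26 [(.d
  k58 k53 k10 2 3), (.s k34 k17 4 (.s k38 k46 1 (.d k50 k49 k14 0 5)))] .n) .n))) (.c k26 (.q k51
  [(.s k34 k17 4 (.s k38 k46 1 (.s k25 k12 6 (.d k59 k55 k8 1 4)))), (.s k16 k32 3 (.s k17 k34 4 (.s
  k18 k19 0 (.s k33 k3 4 (.d k49 k50 k1 0 3))))), (.s k49 k50 0 (.s k53 k58 2 (.s k57 k61 1 (.s k54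
  k60 2 (.d k55 k52 k59 0 1)))))] (.c k16 (.q k31 [(.s k34 k17 4 (.s k38 k46 1 (.s k25 k12 6 (.d k59
  k55 k8 1 4)))), (.s k15 k47 3 (.s k27 k39 5 (.s k59 k55 1 (.s k43 k11 3 (.d k23 k19 k3 1 5))))),
  (.s k34 k17 4 (.s k50 k49 0 (.s k58 k53 2 (.s k62 k54 1 (.d k2 k18 k22 3 5)))))] (.c k19 (.l (.s
  k59 k55 1 (.s k25 k8 4 (.s k38 k12 6 (.d k34 k46 k17 1 4))))) (.c k55 (.l (.s k34 k17 4 (.s k15
  k47 3 (.s k39 k27 5 (.s k38 k46 1 (.s k36 k37 0 (.d k12 k24 k25 5 6))))))) .n))) (.c k31 (.l (.s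
  k16 k32 3 (.s k17 k34 4 (.s k18 k19 0 (.s k33 k3 4 (.d k49 k50 k1 0 3)))))) .n))) (.c k31 (.l (.s
  k58 k53 2 (.s k32 k16 3 (.s k26 k10 3 (.d k37 k47 k15 2 6))))) (.c k32 (.f k53 k58 2 (.q k51 [(.s
  k34 k17 4 (.s k38 k46 1 (.s k25 k12 6 (.d k59 k55 k8 1 4)))), (.s k49 k50 0 (.s k57 k61 1 (.s k54
  k60 2 (.d k55 k52 k59 0 1)))), (.s k34 k17 4 (.s k38 k46 1 (.s k25 k12 6 (.s k49 k50 0 (.s k37 k13
  5 (.s k15 k26 6 (.d k39 k36 k27 0 5)))))))] (.c k101 (.q k239 [(.s k34 k17 4 (.s k38 k46 1 (.s k25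
  k12 6 (.d k59 k55 k8 1 4)))), (.s k49 k50 0 (.s k57 k61 1 (.s k54 k60 2 (.d k55 k52 k59 0 1)))),
  (.s k34 k17 4 (.s k38 k46 1 (.s k25 k12 6 (.s k49 k50 0 (.s k37 k13 5 (.s k15 k26 6 (.d k39 k36
  k27 0 5)))))))] (.c k52 (.q k150 [(.s k34 k17 4 (.s k38 k46 1 (.s k25 k12 6 (.d k59 k55 k8 1
  4)))), (.s k17 k34 4 (.s k49 k50 0 (.s k61 k57 1 (.s k62 k60 0 (.s k2 k22 5 (.d k1 k3 k33 0
  3)))))), (.s k49 k50 0 (.s k57 k61 1 (.s k59 k55 1 (.s k25 k8 4 (.s k41 k9 3 (.s k40 k43 0 (.d k60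
  k54 k20 2 5)))))))] (.c k59 (.l (.s k34 k17 4 (.s k38 k46 1 (.s k25 k12 6 (.s k49 k50 0 (.s k37
  k13 5 (.s k15 k26 6 (.d k39 k36 k27 0 5)))))))) .n)) (.c k150 (.q k52 [(.d k55 k54 k59 0 1)] (.c
  k54 (.l (.s k34 k17 4 (.s k38 k46 1 (.s k25 k12 6 (.d k59 k55 k8 1 4))))) (.c k55 (.l (.s k49 k50
  0 (.s k60 k56 1 (.d k57 k54 k61 2 1)))) (.c k59 (.l (.s k54 k55 0 (.d k60 k56 k57 1 2))) (.c k130
  (.q k190 [(.d k55 k54 k59 0 1)] (.c k54 (.l (.s k34 k17 4 (.s k38 k46 1 (.s k25 k12 6 (.d k59 k55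
  k8 1 4))))) (.c k55 (.l (.s k49 k50 0 (.s k60 k56 1 (.d k57 k54 k61 2 1)))) (.c k59 (.l (.s k54
  k55 0 (.d k60 k56 k57 1 2))) .n)))) (.c k190 (.q k130 [(.d k55 k54 k59 0 1)] (.c k54 (.l (.s k34
  k17 4 (.s k38 k46 1 (.s k25 k12 6 (.d k59 k55 k8 1 4))))) (.c k55 (.l (.s k49 k50 0 (.s k60 k56 1
  (.d k57 k54 k61 2 1)))) (.c k59 (.l (.s k54 k55 0 (.d k60 k56 k57 1 2))) .n)))) .n)))))) .n))) (.c
  k239 (.q k101 [(.s k34 k17 4 (.s k38 k46 1 (.s k25 k12 6 (.d k59 k55 k8 1 4)))), (.s k154 k207 14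
  (.s k149 k197 11 (.s k192 k106 14 (.d k144 k159 k96 2 11))))] .n) .n)))) (.c k37 (.q k51 [(.s k34
  k17 4 (.s k38 k46 1 (.s k25 k12 6 (.d k59 k55 k8 1 4)))), (.s k16 k32 3 (.s k17 k34 4 (.s k18 k19
  0 (.s k33 k3 4 (.d k49 k50 k1 0 3))))), (.s k49 k50 0 (.s k53 k58 2 (.s k57 k61 1 (.s k54 k60 2
  (.d k55 k52 k59 0 1)))))] (.c k5 (.l (.s k53 k58 2 (.s k34 k17 4 (.s k38 k46 1 (.s k25 k12 6 (.d
  k59 k55 k8 1 4)))))) (.c k53 (.q k5 [(.s k34 k17 4 (.s k38 k46 1 (.s k25 k12 6 (.d k59 k55 k8 1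
  4)))), (.s k16 k32 3 (.s k17 k34 4 (.s k18 k19 0 (.s k33 k3 4 (.d k49 k50 k1 0 3))))), (.s k10 k15
  2 (.s k26 k58 3 (.s k50 k49 0 (.s k38 k14 5 (.s k59 k55 1 (.d k25 k12 k8 6 4))))))] .n) .n))) (.c
  k47 (.q k51 [(.s k34 k17 4 (.s k38 k46 1 (.s k25 k12 6 (.d k59 k55 k8 1 4)))), (.s k16 k32 3 (.s
  k17 k34 4 (.s k18 k19 0 (.s k33 k3 4 (.d k49 k50 k1 0 3))))), (.s k49 k50 0 (.s k53 k58 2 (.s k57
  k61 1 (.s k54 k60 2 (.d k55 k52 k59 0 1)))))] .n) (.c k53 (.q k51 [(.s k34 k17 4 (.s k38 k46 1 (.s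
  k25 k12 6 (.d k59 k55 k8 1 4)))), (.s k16 k32 3 (.s k17 k34 4 (.s k18 k19 0 (.s k33 k3 4 (.d k49
  k50 k1 0 3))))), (.s k32 k16 3 (.s k37 k47 2 (.s k49 k50 0 (.s k25 k13 5 (.d k59 k55 k8 1 4)))))]
  (.c k5 (.q k37 [(.d k32 k47 k16 2 3), (.s k49 k50 0 (.s k25 k13 5 (.d k59 k55 k8 1 4)))] .n) (.c
  k37 (.q k5 [(.s k34 k17 4 (.s k38 k46 1 (.s k25 k12 6 (.d k59 k55 k8 1 4)))), (.s k16 k32 3 (.s
  k17 k34 4 (.s k18 k19 0 (.s k33 k3 4 (.d k49 k50 k1 0 3))))), (.s k10 k15 2 (.s k26 k58 3 (.s k50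
  k49 0 (.s k38 k14 5 (.s k59 k55 1 (.d k25 k12 k8 6 4))))))] .n) .n))) (.c k58 (.q k51 [(.s k34 k17
  4 (.s k38 k46 1 (.s k25 k12 6 (.d k59 k55 k8 1 4)))), (.s k16 k32 3 (.s k17 k34 4 (.s k18 k19 0
  (.s k33 k3 4 (.d k49 k50 k1 0 3))))), (.s k32 k16 3 (.s k37 k47 2 (.s k49 k50 0 (.s k25 k13 5 (.d
  k59 k55 k8 1 4)))))] .n) .n))))))))))))

def t202 : T TT 256 :=
  (.q k60 [(.s k40 k20 5 (.s k42 k21 6 (.s k41 k43 0 (.s k22 k3 6 (.d k62 k61 k2 0 5)))))] (.c k2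
  (.l (.s k20 k40 5 (.s k21 k42 6 (.s k22 k23 0 (.s k41 k3 6 (.d k61 k62 k1 0 5)))))) (.c k3 (.q k12
  [(.s k28 k44 3 (.s k29 k46 4 (.s k30 k31 0 (.s k45 k15 4 (.d k61 k62 k13 0 3))))), (.s k4 k8 1 (.s
  k20 k40 5 (.s k36 k52 3 (.s k24 k48 5 (.d k28 k16 k44 1 3))))), (.s k4 k8 1 (.s k21 k42 6 (.s k38
  k55 4 (.s k25 k51 6 (.d k29 k17 k46 1 4)))))] .n) (.c k20 (.q k12 [(.s k28 k44 3 (.s k29 k46 4 (.s
  k30 k31 0 (.s k45 k15 4 (.d k61 k62 k13 0 3))))), (.s k4 k8 1 (.s k21 k42 6 (.s k38 k55 4 (.s k25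
  k51 6 (.d k29 k17 k46 1 4))))), (.s k4 k8 1 (.s k21 k42 6 (.s k38 k55 4 (.s k44 k28 3 (.s k41 k35
  2 (.d k61 k62 k1 0 5))))))] .n) (.c k21 (.q k12 [(.s k28 k44 3 (.s k29 k46 4 (.s k30 k31 0 (.s k45
  k15 4 (.d k61 k62 k13 0 3))))), (.s k8 k4 1 (.s k40 k20 5 (.s k24 k56 3 (.s k36 k48 5 (.d k44 k32
  k28 1 3)))))] (.c k28 (.q k106 [(.s k61 k62 0 (.s k149 k192 14 (.s k105 k193 13 (.s k107 k104 0
  (.d k195 k151 k150 13 14))))), (.s k46 k29 4 (.s k166 k226 9 (.s k89 k243 14 (.s k192 k149 14 (.d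
  k72 k123 k132 4 9))))), (.s k46 k29 4 (.s k166 k226 9 (.s k62 k61 0 (.s k150 k194 13 (.s k134 k182
  3 (.d k195 k73 k105 10 14))))))] .n) (.c k44 (.q k106 [(.s k61 k62 0 (.s k149 k192 14 (.s k105
  k193 13 (.s k195 k150 14 (.d k107 k104 k151 0 13))))), (.s k46 k29 4 (.s k166 k226 9 (.s k89 k243
  14 (.s k192 k149 14 (.d k72 k123 k132 4 9))))), (.s k46 k29 4 (.s k166 k226 9 (.s k62 k61 0 (.s
  k150 k194 13 (.s k134 k182 3 (.d k195 k73 k105 10 14))))))] .n) .n))) (.c k22 (.q k12 [(.s k28 k44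
  3 (.s k29 k46 4 (.s k30 k31 0 (.s k45 k15 4 (.d k61 k62 k13 0 3))))), (.s k4 k8 1 (.s k20 k40 5
  (.s k36 k52 3 (.s k24 k48 5 (.d k28 k16 k44 1 3))))), (.s k4 k8 1 (.s k21 k42 6 (.s k38 k55 4 (.s
  k25 k51 6 (.d k29 k17 k46 1 4)))))] .n) (.c k23 (.l (.s k40 k20 5 (.s k62 k61 0 (.s k42 k21 6 (.s
  k22 k2 5 (.d k41 k43 k3 0 6)))))) (.c k40 (.q k12 [(.s k8 k4 1 (.s k42 k21 6 (.s k25 k59 4 (.s k38
  k51 6 (.d k46 k34 k29 1 4))))), (.s k28 k44 3 (.s k29 k46 4 (.s k30 k31 0 (.s k45 k15 4 (.d k61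
  k62 k13 0 3))))), (.s k4 k8 1 (.s k21 k42 6 (.s k38 k55 4 (.s k44 k28 3 (.s k41 k35 2 (.d k61 k62
  k1 0 5))))))] (.c k105 (.q k235 [(.s k8 k4 1 (.s k42 k21 6 (.s k25 k59 4 (.s k38 k51 6 (.d k46 k34
  k29 1 4))))), (.s k28 k44 3 (.s k29 k46 4 (.s k30 k31 0 (.s k45 k15 4 (.d k61 k62 k13 0 3))))),
  (.s k4 k8 1 (.s k21 k42 6 (.s k38 k55 4 (.s k44 k28 3 (.s k41 k35 2 (.d k61 k62 k1 0 5))))))] .n)
  (.c k235 (.q k105 [(.s k8 k4 1 (.s k42 k21 6 (.s k25 k59 4 (.s k38 k51 6 (.d k46 k34 k29 1 4))))),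
  (.s k28 k44 3 (.s k150 k195 14 (.s k89 k211 10 (.s k243 k166 14 (.d k121 k73 k182 3 10)))))] .n)
  .n))) (.c k41 (.q k12 [(.s k28 k44 3 (.s k29 k46 4 (.s k30 k31 0 (.s k45 k15 4 (.d k61 k62 k13 0
  3))))), (.s k4 k8 1 (.s k20 k40 5 (.s k36 k52 3 (.s k24 k48 5 (.d k28 k16 k44 1 3))))), (.s k4 k8
  1 (.s k21 k42 6 (.s k38 k55 4 (.s k25 k51 6 (.d k29 k17 k46 1 4)))))] .n) (.c k42 (.f k62 k61 0
  (.q k106 [(.s k150 k194 13 (.s k105 k195 14 (.s k104 k107 0 (.d k192 k148 k149 13 14)))), (.s k20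
  k40 5 (.s k192 k149 14 (.s k128 k64 7 (.s k148 k104 13 (.s k84 k212 7 (.d k168 k188 k252 5
  13)))))), (.s k20 k40 5 (.s k150 k194 13 (.s k85 k215 8 (.s k127 k64 6 (.s k255 k191 7 (.s k125
  k190 8 (.d k105 k65 k195 5 14)))))))] (.c k105 (.f k40 k20 5 (.q k12 [(.s k46 k29 4 (.s k30 k14 3
  (.s k45 k15 4 (.d k44 k47 k28 0 3)))), (.s k8 k4 1 (.s k24 k56 3 (.s k36 k48 5 (.d k44 k32 k28 1
  3)))), (.s k29 k46 4 (.s k149 k192 14 (.s k89 k209 9 (.s k123 k72 4 (.d k243 k183 k166 9 14)))))]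
  (.c k149 (.q k193 [(.s k8 k4 1 (.s k24 k56 3 (.s k36 k48 5 (.d k44 k32 k28 1 3)))), (.s k46 k29 4
  (.s k166 k226 9 (.s k150 k194 13 (.s k182 k134 3 (.d k243 k89 k121 14 10)))))] (.c k128 (.q k191
  [(.s k8 k4 1 (.s k24 k56 3 (.s k36 k48 5 (.d k44 k32 k28 1 3)))), (.s k255 k127 7 (.s k190 k125 8
  (.s k126 k254 7 (.d k189 k188 k252 0 8))))] .n) (.c k191 (.q k128 [(.s k192 k64 7 (.d k194 k195
  k150 0 13)), (.s k8 k4 1 (.s k24 k56 3 (.s k36 k48 5 (.d k44 k32 k28 1 3))))] .n) .n))) (.c k193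
  (.l (.s k149 k192 14 (.s k8 k4 1 (.s k24 k56 3 (.s k36 k48 5 (.d k44 k32 k28 1 3)))))) .n)))) (.c
  k149 (.l (.s k20 k40 5 (.s k150 k194 13 (.s k85 k215 8 (.s k105 k195 14 (.s k64 k127 6 (.s k104
  k107 0 (.d k192 k128 k148 7 13)))))))) .n)))) (.c k43 (.l (.s k20 k40 5 (.s k61 k62 0 (.s k21 k42
  6 (.s k41 k1 5 (.d k22 k23 k3 0 6)))))) (.c k61 (.q k12 [(.s k8 k4 1 (.s k40 k20 5 (.s k24 k56 3
  (.s k36 k48 5 (.d k44 k32 k28 1 3))))), (.s k4 k8 1 (.s k21 k42 6 (.s k38 k55 4 (.s k25 k51 6 (.d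
  k29 k17 k46 1 4))))), (.s k20 k40 5 (.s k21 k42 6 (.s k28 k44 3 (.s k29 k46 4 (.s k25 k17 1 (.d
  k22 k23 k19 0 2))))))] .n) (.c k62 (.q k12 [(.s k8 k4 1 (.s k40 k20 5 (.s k24 k56 3 (.s k36 k48 5
  (.d k44 k32 k28 1 3))))), (.s k4 k8 1 (.s k21 k42 6 (.s k38 k55 4 (.s k25 k51 6 (.d k29 k17 k46 1
  4))))), (.s k20 k40 5 (.s k21 k42 6 (.s k28 k44 3 (.s k29 k46 4 (.s k25 k17 1 (.d k22 k23 k19 0
  2))))))] .n) .n)))))))))))))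

def t203 : T TT 256 :=
  (.f k42 k21 6 (.q k48 [(.s k32 k16 3 (.s k37 k47 2 (.s k26 k15 6 (.d k58 k53 k10 2 3))))] (.c k10
  (.q k51 [(.s k34 k17 4 (.s k38 k46 1 (.s k25 k12 6 (.d k59 k55 k8 1 4)))), (.s k16 k32 3 (.s k17
  k34 4 (.s k18 k19 0 (.s k33 k3 4 (.d k49 k50 k1 0 3))))), (.s k32 k16 3 (.s k37 k47 2 (.s k49 k50
  0 (.s k25 k13 5 (.d k59 k55 k8 1 4)))))] (.c k90 (.q k250 [(.s k34 k17 4 (.s k38 k46 1 (.s k25 k12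
  6 (.d k59 k55 k8 1 4)))), (.s k16 k32 3 (.s k17 k34 4 (.s k18 k19 0 (.s k33 k3 4 (.d k49 k50 k1 0
  3))))), (.s k32 k16 3 (.s k37 k47 2 (.s k49 k50 0 (.s k25 k13 5 (.d k59 k55 k8 1 4)))))] .n) (.c
  k250 (.q k90 [(.s k34 k17 4 (.s k38 k46 1 (.s k25 k12 6 (.d k59 k55 k8 1 4)))), (.s k16 k32 3 (.s
  k17 k34 4 (.s k18 k19 0 (.s k33 k3 4 (.d k49 k50 k1 0 3))))), (.s k32 k16 3 (.s k37 k47 2 (.s k49
  k50 0 (.s k25 k13 5 (.d k59 k55 k8 1 4)))))] .n) .n))) (.c k15 (.q k51 [(.s k34 k17 4 (.s k38 k46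
  1 (.s k59 k55 1 (.d k25 k8 k12 4 6)))), (.s k16 k32 3 (.s k17 k34 4 (.s k18 k19 0 (.s k33 k3 4 (.d
  k49 k50 k1 0 3))))), (.s k32 k16 3 (.s k37 k47 2 (.s k49 k50 0 (.s k25 k13 5 (.d k59 k55 k8 1
  4)))))] .n) (.c k16 (.q k51 [(.s k34 k17 4 (.s k38 k46 1 (.s k25 k12 6 (.d k59 k55 k8 1 4)))), (.s
  k49 k50 0 (.s k53 k58 2 (.s k57 k61 1 (.s k54 k60 2 (.d k55 k52 k59 0 1))))), (.s k34 k17 4 (.s
  k38 k46 1 (.s k50 k49 0 (.s k26 k14 5 (.d k58 k53 k10 2 3)))))] (.c k26 (.q k31 [(.s k34 k17 4 (.s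
  k38 k46 1 (.s k25 k12 6 (.d k59 k55 k8 1 4)))), (.s k15 k47 3 (.s k27 k39 5 (.s k59 k55 1 (.s k43
  k11 3 (.d k23 k19 k3 1 5))))), (.s k34 k17 4 (.s k50 k49 0 (.s k58 k53 2 (.s k62 k54 1 (.d k2 k18
  k22 3 5)))))] (.c k19 (.l (.s k59 k55 1 (.s k25 k8 4 (.s k38 k12 6 (.d k34 k46 k17 1 4))))) (.c
  k55 (.l (.s k34 k17 4 (.s k15 k47 3 (.s k39 k27 5 (.s k38 k46 1 (.s k36 k37 0 (.d k12 k24 k25 5
  6))))))) .n))) (.c k31 (.q k26 [(.d k58 k53 k10 2 3), (.s k34 k17 4 (.s k38 k46 1 (.d k50 k49 k14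
  0 5)))] .n) .n))) (.c k26 (.q k51 [(.s k34 k17 4 (.s k38 k46 1 (.s k25 k12 6 (.d k59 k55 k8 1
  4)))), (.s k16 k32 3 (.s k17 k34 4 (.s k18 k19 0 (.s k33 k3 4 (.d k49 k50 k1 0 3))))), (.s k49 k50
  0 (.s k53 k58 2 (.s k57 k61 1 (.s k54 k60 2 (.d k55 k52 k59 0 1)))))] (.c k16 (.q k31 [(.s k34 k17
  4 (.s k38 k46 1 (.s k25 k12 6 (.d k59 k55 k8 1 4)))), (.s k15 k47 3 (.s k27 k39 5 (.s k59 k55 1
  (.s k43 k11 3 (.d k23 k19 k3 1 5))))), (.s k34 k17 4 (.s k50 k49 0 (.s k58 k53 2 (.s k62 k54 1 (.d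
  k2 k18 k22 3 5)))))] (.c k19 (.l (.s k59 k55 1 (.s k25 k8 4 (.s k38 k12 6 (.d k34 k46 k17 1 4)))))
  (.c k55 (.l (.s k34 k17 4 (.s k15 k47 3 (.s k39 k27 5 (.s k38 k46 1 (.s k36 k37 0 (.d k12 k24 k25
  5 6))))))) .n))) (.c k31 (.l (.s k16 k32 3 (.s k17 k34 4 (.s k18 k19 0 (.s k33 k3 4 (.d k49 k50 k1
  0 3)))))) .n))) (.c k31 (.l (.s k58 k53 2 (.s k32 k16 3 (.s k26 k10 3 (.d k37 k47 k15 2 6))))) (.c
  k32 (.f k53 k58 2 (.q k51 [(.s k34 k17 4 (.s k38 k46 1 (.s k25 k12 6 (.d k59 k55 k8 1 4)))), (.s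
  k49 k50 0 (.s k57 k61 1 (.s k54 k60 2 (.d k55 k52 k59 0 1)))), (.s k34 k17 4 (.s k38 k46 1 (.s k25
  k12 6 (.s k49 k50 0 (.s k37 k13 5 (.s k15 k26 6 (.d k39 k36 k27 0 5)))))))] (.c k101 (.q k239 [(.s
  k34 k17 4 (.s k38 k46 1 (.s k25 k12 6 (.d k59 k55 k8 1 4)))), (.s k49 k50 0 (.s k57 k61 1 (.s k54
  k60 2 (.d k55 k52 k59 0 1)))), (.s k34 k17 4 (.s k38 k46 1 (.s k25 k12 6 (.s k49 k50 0 (.s k37 k13
  5 (.s k15 k26 6 (.d k39 k36 k27 0 5)))))))] .n) (.c k239 (.q k101 [(.s k34 k17 4 (.s k38 k46 1 (.s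
  k25 k12 6 (.d k59 k55 k8 1 4)))), (.s k154 k207 14 (.s k149 k197 11 (.s k192 k106 14 (.d k144 k159
  k96 2 11))))] .n) .n)))) (.c k37 (.q k51 [(.s k34 k17 4 (.s k38 k46 1 (.s k25 k12 6 (.d k59 k55 k8
  1 4)))), (.s k16 k32 3 (.s k17 k34 4 (.s k18 k19 0 (.s k33 k3 4 (.d k49 k50 k1 0 3))))), (.s k49
  k50 0 (.s k53 k58 2 (.s k57 k61 1 (.s k54 k60 2 (.d k55 k52 k59 0 1)))))] (.c k5 (.l (.s k53 k58 2
  (.s k34 k17 4 (.s k38 k46 1 (.s k25 k12 6 (.d k59 k55 k8 1 4)))))) (.c k53 (.q k5 [(.s k34 k17 4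
  (.s k38 k46 1 (.s k25 k12 6 (.d k59 k55 k8 1 4)))), (.s k16 k32 3 (.s k17 k34 4 (.s k18 k19 0 (.s
  k33 k3 4 (.d k49 k50 k1 0 3))))), (.s k10 k15 2 (.s k26 k58 3 (.s k50 k49 0 (.s k38 k14 5 (.s k59
  k55 1 (.d k25 k12 k8 6 4))))))] .n) .n))) (.c k47 (.q k51 [(.s k34 k17 4 (.s k38 k46 1 (.s k25 k12
  6 (.d k59 k55 k8 1 4)))), (.s k16 k32 3 (.s k17 k34 4 (.s k18 k19 0 (.s k33 k3 4 (.d k49 k50 k1 0
  3))))), (.s k49 k50 0 (.s k53 k58 2 (.s k57 k61 1 (.s k54 k60 2 (.d k55 k52 k59 0 1)))))] .n) (.c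
  k53 (.q k51 [(.s k34 k17 4 (.s k38 k46 1 (.s k25 k12 6 (.d k59 k55 k8 1 4)))), (.s k16 k32 3 (.s
  k17 k34 4 (.s k18 k19 0 (.s k33 k3 4 (.d k49 k50 k1 0 3))))), (.s k32 k16 3 (.s k37 k47 2 (.s k49
  k50 0 (.s k25 k13 5 (.d k59 k55 k8 1 4)))))] (.c k5 (.q k37 [(.d k32 k47 k16 2 3), (.s k49 k50 0
  (.s k25 k13 5 (.d k59 k55 k8 1 4)))] .n) (.c k37 (.q k5 [(.s k34 k17 4 (.s k38 k46 1 (.s k25 k12 6
  (.d k59 k55 k8 1 4)))), (.s k16 k32 3 (.s k17 k34 4 (.s k18 k19 0 (.s k33 k3 4 (.d k49 k50 k1 0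
  3))))), (.s k10 k15 2 (.s k26 k58 3 (.s k50 k49 0 (.s k38 k14 5 (.s k59 k55 1 (.d k25 k12 k8 6
  4))))))] .n) .n))) (.c k58 (.q k51 [(.s k34 k17 4 (.s k38 k46 1 (.s k25 k12 6 (.d k59 k55 k8 1
  4)))), (.s k16 k32 3 (.s k17 k34 4 (.s k18 k19 0 (.s k33 k3 4 (.d k49 k50 k1 0 3))))), (.s k32 k16
  3 (.s k37 k47 2 (.s k49 k50 0 (.s k25 k13 5 (.d k59 k55 k8 1 4)))))] .n) .n))))))))))))

def t207 : T TT 256 :=
  (.q k12 [(.s k8 k4 1 (.s k42 k21 6 (.s k25 k59 4 (.s k38 k51 6 (.d k46 k34 k29 1 4))))), (.s k4 k8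
  1 (.s k21 k42 6 (.s k38 k55 4 (.s k29 k46 4 (.d k25 k17 k51 1 6)))))] (.c k4 (.f k46 k29 4 (.q k3
  [(.s k2 k1 0 (.s k42 k21 6 (.s k22 k62 5 (.s k6 k9 2 (.d k38 k34 k54 1 3))))), (.s k1 k2 0 (.s k21
  k42 6 (.s k23 k43 5 (.s k22 k20 0 (.d k41 k61 k60 5 6))))), (.s k42 k21 6 (.s k9 k6 2 (.s k38 k34
  1 (.s k25 k51 6 (.s k41 k57 3 (.d k43 k40 k23 0 5))))))] (.c k21 (.l (.s k2 k1 0 (.s k6 k9 2 (.s
  k14 k10 1 (.s k62 k30 3 (.s k22 k42 5 (.d k60 k61 k41 0 6))))))) (.c k41 (.l (.s k2 k1 0 (.s k6 k9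
  2 (.s k14 k10 1 (.s k62 k30 3 (.d k42 k21 k22 6 5)))))) (.c k42 (.q k106 [(.s k6 k9 2 (.s k43 k23
  5 (.s k169 k232 8 (.s k166 k226 9 (.d k86 k246 k252 11 14))))), (.s k166 k226 9 (.s k89 k243 14
  (.s k192 k149 14 (.d k72 k123 k132 4 9)))), (.s k23 k43 5 (.s k149 k192 14 (.s k86 k212 8 (.s k252
  k169 14 (.d k126 k66 k189 5 8)))))] .n) .n))))) (.c k8 (.q k89 [(.s k29 k46 4 (.s k166 k243 14 (.s
  k149 k209 9 (.s k132 k183 4 (.d k192 k72 k106 9 14))))), (.s k21 k42 6 (.s k29 k46 4 (.s k149 k209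
  9 (.s k85 k213 7 (.s k93 k81 1 (.s k221 k157 7 (.d k17 k25 k153 1 9))))))), (.s k21 k42 6 (.s k243
  k166 14 (.s k123 k183 9 (.s k106 k72 4 (.s k149 k192 14 (.s k85 k213 7 (.d k81 k162 k93 12
  1)))))))] (.c k106 (.f k46 k29 4 (.l (.s k42 k21 6 (.s k166 k243 14 (.s k38 k34 1 (.s k102 k230 7
  (.s k76 k115 6 (.s k204 k140 7 (.d k51 k25 k153 6 14))))))))) (.c k149 (.f k46 k29 4 (.l (.s k42
  k21 6 (.s k166 k243 14 (.s k38 k34 1 (.s k102 k230 7 (.s k76 k115 6 (.s k204 k140 7 (.d k51 k25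
  k153 6 14))))))))) .n))) (.c k21 (.q k106 [(.s k29 k46 4 (.s k149 k192 14 (.s k89 k209 9 (.s k123
  k72 4 (.d k243 k183 k166 9 14))))), (.s k4 k8 1 (.s k192 k149 14 (.s k128 k64 7 (.s k132 k72 9 (.s
  k68 k196 7 (.d k136 k140 k204 1 9))))))] (.c k72 (.l (.s k46 k29 4 (.s k166 k226 9 (.s k243 k89 14
  (.s k149 k192 14 (.d k183 k132 k123 4 9)))))) (.c k89 (.l (.s k8 k4 1 (.s k192 k149 14 (.s k72
  k132 9 (.s k136 k200 7 (.s k68 k204 9 (.d k64 k128 k76 7 1))))))) (.c k149 (.f k46 k29 4 (.l (.s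
  k4 k8 1 (.s k166 k226 9 (.s k85 k247 12 (.s k89 k243 14 (.s k64 k127 6 (.s k72 k123 4 (.d k192
  k128 k132 7 9))))))))) (.c k192 (.f k46 k29 4 (.l (.s k4 k8 1 (.s k166 k226 9 (.s k85 k247 12 (.s
  k127 k64 6 (.s k255 k191 7 (.s k93 k174 12 (.d k89 k243 k81 14 1))))))))) .n))))) (.c k25 (.q k3
  [(.s k1 k2 0 (.s k8 k4 1 (.s k9 k6 2 (.s k10 k11 0 (.d k5 k13 k15 1 2))))), (.s k2 k1 0 (.s k42
  k21 6 (.s k22 k62 5 (.s k41 k60 6 (.d k43 k40 k23 0 5))))), (.s k21 k42 6 (.s k6 k9 2 (.s k23 k43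
  5 (.s k22 k20 0 (.s k38 k54 3 (.d k4 k8 k55 1 4))))))] .n) (.c k29 (.q k3 [(.s k1 k2 0 (.s k8 k4 1
  (.s k9 k6 2 (.s k10 k11 0 (.d k5 k13 k15 1 2))))), (.s k1 k2 0 (.s k21 k42 6 (.s k23 k43 5 (.s k22
  k20 0 (.d k41 k61 k60 5 6))))), (.s k4 k8 1 (.s k21 k42 6 (.s k6 k9 2 (.s k23 k43 5 (.s k38 k55 4
  (.d k22 k20 k54 0 3))))))] .n) (.c k38 (.q k3 [(.s k2 k1 0 (.s k4 k8 1 (.s k6 k9 2 (.s k10 k14 1
  (.d k5 k7 k15 0 2))))), (.s k1 k2 0 (.s k21 k42 6 (.s k41 k61 5 (.s k22 k60 6 (.d k23 k20 k43 0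
  5))))), (.s k42 k21 6 (.s k9 k6 2 (.s k43 k23 5 (.s k41 k40 0 (.s k25 k57 3 (.d k8 k4 k59 1
  4))))))] .n) (.c k42 (.f k46 k29 4 (.q k106 [(.s k166 k226 9 (.s k89 k243 14 (.s k72 k123 4 (.d
  k192 k132 k149 9 14)))), (.s k4 k8 1 (.s k166 k226 9 (.s k85 k247 12 (.s k127 k64 6 (.s k255 k191
  7 (.s k93 k174 12 (.d k89 k81 k243 1 14))))))), (.s k4 k8 1 (.s k192 k149 14 (.s k128 k64 7 (.s
  k132 k72 9 (.s k68 k196 7 (.d k136 k140 k204 1 9))))))] (.c k89 (.f k8 k4 1 (.q k3 [(.s k9 k6 2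
  (.s k10 k11 0 (.s k5 k15 2 (.d k1 k2 k13 0 1)))), (.s k23 k43 5 (.s k149 k192 14 (.s k86 k212 8
  (.s k126 k66 5 (.d k252 k189 k169 8 14)))))] (.c k149 (.q k209 [(.s k43 k23 5 (.s k169 k232 8 (.s
  k166 k226 9 (.s k172 k163 2 (.d k252 k86 k92 14 11))))), (.s k9 k6 2 (.s k10 k11 0 (.s k5 k15 2
  (.d k1 k2 k13 0 1))))] (.c k128 (.q k191 [(.s k9 k6 2 (.s k10 k11 0 (.s k5 k15 2 (.d k1 k2 k13 0
  1)))), (.s k255 k127 7 (.s k174 k93 12 (.s k110 k238 7 (.d k157 k140 k204 4 12))))] .n) (.c k191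
  (.q k128 [(.s k192 k64 7 (.d k226 k243 k166 4 9)), (.s k1 k2 0 (.s k9 k6 2 (.s k5 k13 1 (.d k10
  k11 k15 0 2))))] .n) .n))) (.c k209 (.l (.s k149 k192 14 (.s k1 k2 0 (.s k9 k6 2 (.s k5 k13 1 (.d
  k10 k11 k15 0 2)))))) .n)))) (.c k149 (.l (.s k4 k8 1 (.s k166 k226 9 (.s k85 k247 12 (.s k89 k243
  14 (.s k64 k127 6 (.s k72 k123 4 (.d k192 k128 k132 7 9)))))))) .n)))) (.c k46 (.q k3 [(.s k1 k2 0
  (.s k8 k4 1 (.s k9 k6 2 (.s k5 k13 1 (.d k10 k11 k15 0 2))))), (.s k1 k2 0 (.s k21 k42 6 (.s k41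
  k61 5 (.s k22 k60 6 (.d k23 k20 k43 0 5))))), (.s k4 k8 1 (.s k21 k42 6 (.s k6 k9 2 (.s k23 k43 5
  (.s k38 k55 4 (.d k22 k20 k54 0 3))))))] .n) (.c k51 (.f k8 k4 1 (.f k46 k29 4 (.q k3 [(.s k1 k2 0
  (.s k9 k6 2 (.s k10 k11 0 (.d k5 k13 k15 1 2)))), (.s k42 k21 6 (.s k9 k6 2 (.s k43 k23 5 (.s k25
  k59 4 (.d k41 k40 k57 0 3))))), (.s k1 k2 0 (.s k21 k42 6 (.s k41 k61 5 (.s k22 k60 6 (.d k23 k20
  k43 0 5)))))] (.c k103 (.q k155 [(.s k1 k2 0 (.s k9 k6 2 (.s k10 k11 0 (.d k5 k13 k15 1 2)))), (.s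
  k42 k21 6 (.s k9 k6 2 (.s k43 k23 5 (.s k25 k59 4 (.d k41 k40 k57 0 3))))), (.s k1 k2 0 (.s k21
  k42 6 (.s k41 k61 5 (.s k22 k60 6 (.d k23 k20 k43 0 5)))))] .n) (.c k155 (.q k103 [(.s k1 k2 0 (.s
  k9 k6 2 (.s k10 k11 0 (.d k5 k13 k15 1 2)))), (.s k42 k21 6 (.s k9 k6 2 (.s k43 k23 5 (.s k25 k59
  4 (.d k41 k40 k57 0 3))))), (.s k1 k2 0 (.s k21 k42 6 (.s k41 k61 5 (.s k22 k60 6 (.d k23 k20 k43
  0 5)))))] .n) .n))))) (.c k55 (.l (.s k8 k4 1 (.s k46 k29 4 (.s k42 k21 6 (.s k38 k34 1 (.d k25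
  k59 k51 4 6)))))) (.c k59 (.l (.s k4 k8 1 (.s k29 k46 4 (.s k21 k42 6 (.s k25 k17 1 (.d k38 k55
  k51 4 6)))))) .n))))))))))))

def t213 : T TT 256 :=
  (.q k60 [(.s k40 k20 5 (.s k42 k21 6 (.s k41 k43 0 (.s k22 k3 6 (.d k62 k61 k2 0 5))))), (.s k20
  k40 5 (.s k21 k42 6 (.s k22 k23 0 (.s k41 k3 6 (.d k61 k62 k1 0 5)))))] (.c k3 (.q k12 [(.s k28
  k44 3 (.s k29 k46 4 (.s k30 k31 0 (.s k45 k15 4 (.d k61 k62 k13 0 3))))), (.s k4 k8 1 (.s k20 k40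
  5 (.s k36 k52 3 (.s k24 k48 5 (.d k28 k16 k44 1 3))))), (.s k4 k8 1 (.s k21 k42 6 (.s k38 k55 4
  (.s k25 k51 6 (.d k29 k17 k46 1 4)))))] .n) (.c k20 (.q k12 [(.s k28 k44 3 (.s k29 k46 4 (.s k30
  k31 0 (.s k45 k15 4 (.d k61 k62 k13 0 3))))), (.s k4 k8 1 (.s k21 k42 6 (.s k38 k55 4 (.s k25 k51
  6 (.d k29 k17 k46 1 4))))), (.s k4 k8 1 (.s k21 k42 6 (.s k38 k55 4 (.s k44 k28 3 (.s k41 k35 2
  (.d k61 k62 k1 0 5))))))] .n) (.c k21 (.q k12 [(.s k28 k44 3 (.s k29 k46 4 (.s k30 k31 0 (.s k45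
  k15 4 (.d k61 k62 k13 0 3))))), (.s k8 k4 1 (.s k40 k20 5 (.s k24 k56 3 (.s k36 k48 5 (.d k44 k32
  k28 1 3)))))] (.c k28 (.q k85 [(.s k20 k40 5 (.s k150 k215 8 (.s k62 k61 0 (.s k106 k194 13 (.s
  k192 k149 14 (.d k64 k128 k127 7 6)))))), (.s k4 k8 1 (.s k166 k247 12 (.s k46 k29 4 (.s k106 k226
  9 (.s k192 k149 14 (.d k64 k128 k127 7 6)))))), (.s k4 k8 1 (.s k20 k40 5 (.s k166 k247 12 (.s
  k150 k215 8 (.s k134 k182 3 (.d k195 k105 k73 14 10))))))] .n) (.c k44 (.q k85 [(.s k4 k8 1 (.s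
  k166 k247 12 (.s k46 k29 4 (.s k106 k226 9 (.s k192 k149 14 (.d k64 k128 k127 7 6)))))), (.s k20
  k40 5 (.s k150 k215 8 (.s k62 k61 0 (.s k106 k194 13 (.s k192 k149 14 (.d k64 k128 k127 7 6)))))),
  (.s k4 k8 1 (.s k20 k40 5 (.s k166 k247 12 (.s k150 k215 8 (.s k134 k182 3 (.d k195 k105 k73 14
  10))))))] .n) (.c k85 (.q k149 [(.s k28 k44 3 (.s k29 k46 4 (.s k30 k31 0 (.s k45 k15 4 (.d k61
  k62 k13 0 3))))), (.s k8 k4 1 (.s k40 k20 5 (.s k24 k56 3 (.s k36 k48 5 (.d k44 k32 k28 1 3))))),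
  (.s k29 k46 4 (.s k89 k209 9 (.s k166 k243 14 (.s k192 k106 14 (.d k132 k183 k72 4 9)))))] .n) (.c
  k149 (.q k85 [(.s k4 k8 1 (.s k20 k40 5 (.s k36 k52 3 (.s k24 k48 5 (.d k28 k16 k44 1 3))))), (.s
  k28 k44 3 (.s k29 k46 4 (.s k30 k31 0 (.s k45 k15 4 (.d k61 k62 k13 0 3))))), (.s k4 k8 1 (.s k20
  k40 5 (.s k166 k247 12 (.s k150 k215 8 (.s k134 k182 3 (.d k195 k105 k73 14 10))))))] (.c k128 (.q
  k191 [(.s k4 k8 1 (.s k20 k40 5 (.s k36 k52 3 (.s k24 k48 5 (.d k28 k16 k44 1 3))))), (.s k20 k40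
  5 (.s k150 k215 8 (.s k62 k61 0 (.s k106 k194 13 (.d k127 k64 k255 6 7))))), (.s k4 k8 1 (.s k166
  k247 12 (.s k46 k29 4 (.s k106 k226 9 (.d k127 k64 k255 6 7)))))] .n) (.c k191 (.q k128 [(.s k4 k8
  1 (.s k20 k40 5 (.s k36 k52 3 (.s k24 k48 5 (.d k28 k16 k44 1 3))))), (.s k20 k40 5 (.s k64 k192 7
  (.s k150 k215 8 (.s k62 k61 0 (.d k106 k127 k194 6 13))))), (.s k4 k8 1 (.s k64 k192 7 (.s k166
  k247 12 (.s k46 k29 4 (.d k106 k127 k226 6 9)))))] .n) .n))) .n))))) (.c k22 (.q k12 [(.s k28 k44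
  3 (.s k29 k46 4 (.s k30 k31 0 (.s k45 k15 4 (.d k61 k62 k13 0 3))))), (.s k4 k8 1 (.s k20 k40 5
  (.s k36 k52 3 (.s k24 k48 5 (.d k28 k16 k44 1 3))))), (.s k4 k8 1 (.s k21 k42 6 (.s k38 k55 4 (.s
  k25 k51 6 (.d k29 k17 k46 1 4)))))] .n) (.c k23 (.l (.s k40 k20 5 (.s k62 k61 0 (.s k42 k21 6 (.s
  k22 k2 5 (.d k41 k43 k3 0 6)))))) (.c k40 (.q k12 [(.s k28 k44 3 (.s k29 k46 4 (.s k30 k31 0 (.s
  k45 k15 4 (.d k61 k62 k13 0 3))))), (.s k4 k8 1 (.s k21 k42 6 (.s k38 k55 4 (.s k25 k51 6 (.d k29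
  k17 k46 1 4))))), (.s k4 k8 1 (.s k21 k42 6 (.s k38 k55 4 (.s k44 k28 3 (.s k41 k35 2 (.d k61 k62
  k1 0 5))))))] (.c k105 (.q k235 [(.s k8 k4 1 (.s k42 k21 6 (.s k25 k59 4 (.s k38 k51 6 (.d k46 k34
  k29 1 4))))), (.s k28 k44 3 (.s k29 k46 4 (.s k30 k31 0 (.s k45 k15 4 (.d k61 k62 k13 0 3))))),
  (.s k4 k8 1 (.s k21 k42 6 (.s k38 k55 4 (.s k44 k28 3 (.s k41 k35 2 (.d k61 k62 k1 0 5))))))] .n)
  (.c k235 (.q k105 [(.s k28 k44 3 (.s k29 k46 4 (.s k30 k31 0 (.s k45 k15 4 (.d k61 k62 k13 0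
  3))))), (.s k4 k8 1 (.s k21 k42 6 (.s k38 k55 4 (.s k25 k51 6 (.d k29 k17 k46 1 4))))), (.s k28
  k44 3 (.s k150 k195 14 (.s k89 k211 10 (.s k243 k166 14 (.d k121 k73 k182 3 10)))))] .n) .n))) (.c
  k41 (.q k12 [(.s k28 k44 3 (.s k29 k46 4 (.s k30 k31 0 (.s k45 k15 4 (.d k61 k62 k13 0 3))))), (.s
  k4 k8 1 (.s k20 k40 5 (.s k36 k52 3 (.s k24 k48 5 (.d k28 k16 k44 1 3))))), (.s k4 k8 1 (.s k21
  k42 6 (.s k38 k55 4 (.s k25 k51 6 (.d k29 k17 k46 1 4)))))] .n) (.c k42 (.q k106 [(.s k62 k61 0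
  (.s k150 k194 13 (.s k105 k195 14 (.s k192 k149 14 (.d k104 k107 k148 0 13))))), (.s k20 k40 5 (.s
  k192 k149 14 (.s k128 k64 7 (.s k148 k104 13 (.s k84 k212 7 (.d k168 k188 k252 5 13)))))), (.s k61
  k62 0 (.s k149 k192 14 (.s k105 k193 13 (.s k195 k150 14 (.d k107 k104 k151 0 13)))))] (.c k104
  (.l (.s k62 k61 0 (.s k150 k194 13 (.s k195 k105 14 (.s k149 k192 14 (.d k151 k148 k107 0 13))))))
  (.c k105 (.l (.s k40 k20 5 (.s k192 k149 14 (.s k104 k148 13 (.s k168 k232 7 (.s k84 k252 13 (.d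
  k64 k128 k124 7 5))))))) (.c k149 (.f k62 k61 0 (.l (.s k20 k40 5 (.s k150 k194 13 (.s k85 k215 8
  (.s k105 k195 14 (.s k64 k127 6 (.s k104 k107 0 (.d k192 k128 k148 7 13))))))))) (.c k192 (.f k62
  k61 0 (.l (.s k20 k40 5 (.s k150 k194 13 (.s k85 k215 8 (.s k127 k64 6 (.s k255 k191 7 (.s k125
  k190 8 (.d k105 k195 k65 14 5))))))))) .n))))) (.c k43 (.l (.s k20 k40 5 (.s k61 k62 0 (.s k21 k42
  6 (.s k41 k1 5 (.d k22 k23 k3 0 6)))))) (.c k61 (.q k12 [(.s k8 k4 1 (.s k40 k20 5 (.s k24 k56 3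
  (.s k36 k48 5 (.d k44 k32 k28 1 3))))), (.s k4 k8 1 (.s k21 k42 6 (.s k38 k55 4 (.s k25 k51 6 (.d
  k29 k17 k46 1 4))))), (.s k20 k40 5 (.s k21 k42 6 (.s k28 k44 3 (.s k29 k46 4 (.s k25 k17 1 (.d
  k22 k23 k19 0 2))))))] .n) (.c k62 (.q k12 [(.s k8 k4 1 (.s k40 k20 5 (.s k24 k56 3 (.s k36 k48 5
  (.d k44 k32 k28 1 3))))), (.s k4 k8 1 (.s k21 k42 6 (.s k38 k55 4 (.s k25 k51 6 (.d k29 k17 k46 1
  4))))), (.s k20 k40 5 (.s k21 k42 6 (.s k28 k44 3 (.s k29 k46 4 (.s k25 k17 1 (.d k22 k23 k19 0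
  2))))))] .n) .n))))))))))))

def t214 : T TT 256 :=
  (.f k42 k21 6 (.q k48 [(.s k32 k16 3 (.s k37 k47 2 (.s k26 k15 6 (.d k58 k53 k10 2 3))))] (.c k10
  (.f k53 k58 2 (.q k51 [(.s k34 k17 4 (.s k38 k46 1 (.s k25 k12 6 (.d k59 k55 k8 1 4)))), (.s k49
  k50 0 (.s k57 k61 1 (.s k54 k60 2 (.d k55 k52 k59 0 1)))), (.s k16 k32 3 (.s k17 k34 4 (.s k18 k19
  0 (.s k33 k3 4 (.d k49 k50 k1 0 3)))))] (.c k90 (.q k250 [(.s k34 k17 4 (.s k38 k46 1 (.s k25 k12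
  6 (.d k59 k55 k8 1 4)))), (.s k49 k50 0 (.s k57 k61 1 (.s k54 k60 2 (.d k55 k52 k59 0 1)))), (.s
  k16 k32 3 (.s k17 k34 4 (.s k18 k19 0 (.s k33 k3 4 (.d k49 k50 k1 0 3)))))] .n) (.c k250 (.q k90
  [(.s k34 k17 4 (.s k38 k46 1 (.s k25 k12 6 (.d k59 k55 k8 1 4)))), (.s k49 k50 0 (.s k57 k61 1 (.s
  k54 k60 2 (.d k55 k52 k59 0 1)))), (.s k16 k32 3 (.s k17 k34 4 (.s k18 k19 0 (.s k33 k3 4 (.d k49
  k50 k1 0 3)))))] (.c k122 (.q k186 [(.s k34 k17 4 (.s k38 k46 1 (.s k25 k12 6 (.d k59 k55 k8 1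
  4)))), (.s k49 k50 0 (.s k57 k61 1 (.s k54 k60 2 (.d k55 k52 k59 0 1)))), (.s k16 k32 3 (.s k17
  k34 4 (.s k18 k19 0 (.s k33 k3 4 (.d k49 k50 k1 0 3)))))] .n) (.c k186 (.q k122 [(.s k34 k17 4 (.s
  k38 k46 1 (.s k25 k12 6 (.d k59 k55 k8 1 4)))), (.s k32 k16 3 (.s k37 k47 2 (.s k240 k181 10 (.d
  k15 k26 k165 6 14))))] (.c k138 (.q k154 [(.s k101 k207 14 (.s k149 k197 11 (.d k106 k74 k192 3
  14))), (.s k32 k16 3 (.s k26 k218 7 (.d k37 k47 k15 2 6)))] (.c k74 (.q k202 [(.s k101 k207 14 (.s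
  k240 k181 10 (.d k112 k176 k79 7 6))), (.s k32 k16 3 (.s k26 k218 7 (.d k37 k47 k15 2 6)))] .n)
  (.c k202 (.l (.s k74 k106 3 (.s k32 k16 3 (.s k37 k47 2 (.d k26 k15 k218 6 7))))) .n))) (.c k154
  (.q k138 [(.s k34 k17 4 (.s k38 k46 1 (.s k25 k12 6 (.d k59 k55 k8 1 4)))), (.s k32 k16 3 (.s k37
  k47 2 (.s k240 k181 10 (.d k15 k26 k165 6 14))))] (.c k106 (.q k202 [(.s k34 k17 4 (.s k38 k46 1
  (.s k25 k12 6 (.d k59 k55 k8 1 4)))), (.s k32 k16 3 (.s k37 k47 2 (.s k240 k181 10 (.d k15 k26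
  k165 6 14))))] .n) (.c k202 (.l (.s k106 k74 3 (.s k32 k16 3 (.s k37 k47 2 (.s k240 k181 10 (.d
  k15 k26 k165 6 14)))))) .n))) .n))) .n))) .n)))) (.c k15 (.q k51 [(.s k34 k17 4 (.s k38 k46 1 (.s
  k59 k55 1 (.d k25 k8 k12 4 6)))), (.s k16 k32 3 (.s k17 k34 4 (.s k18 k19 0 (.s k33 k3 4 (.d k49
  k50 k1 0 3))))), (.s k32 k16 3 (.s k37 k47 2 (.s k49 k50 0 (.s k25 k13 5 (.d k59 k55 k8 1 4)))))]
  .n) (.c k16 (.q k51 [(.s k34 k17 4 (.s k38 k46 1 (.s k25 k12 6 (.d k59 k55 k8 1 4)))), (.s k49 k50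
  0 (.s k53 k58 2 (.s k57 k61 1 (.s k54 k60 2 (.d k55 k52 k59 0 1))))), (.s k34 k17 4 (.s k38 k46 1
  (.s k50 k49 0 (.s k26 k14 5 (.d k58 k53 k10 2 3)))))] (.c k26 (.q k31 [(.s k34 k17 4 (.s k38 k46 1
  (.s k25 k12 6 (.d k59 k55 k8 1 4)))), (.s k15 k47 3 (.s k27 k39 5 (.s k59 k55 1 (.s k43 k11 3 (.d
  k23 k19 k3 1 5))))), (.s k34 k17 4 (.s k50 k49 0 (.s k58 k53 2 (.s k62 k54 1 (.d k2 k18 k22 3
  5)))))] (.c k19 (.l (.s k59 k55 1 (.s k25 k8 4 (.s k38 k12 6 (.d k34 k46 k17 1 4))))) (.c k55 (.l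
  (.s k34 k17 4 (.s k15 k47 3 (.s k39 k27 5 (.s k38 k46 1 (.s k36 k37 0 (.d k12 k24 k25 5 6)))))))
  .n))) (.c k31 (.q k26 [(.d k58 k53 k10 2 3), (.s k34 k17 4 (.s k38 k46 1 (.d k50 k49 k14 0 5)))]
  .n) .n))) (.c k26 (.q k51 [(.s k34 k17 4 (.s k38 k46 1 (.s k25 k12 6 (.d k59 k55 k8 1 4)))), (.s
  k16 k32 3 (.s k17 k34 4 (.s k18 k19 0 (.s k33 k3 4 (.d k49 k50 k1 0 3))))), (.s k49 k50 0 (.s k53
  k58 2 (.s k57 k61 1 (.s k54 k60 2 (.d k55 k52 k59 0 1)))))] (.c k16 (.q k31 [(.s k34 k17 4 (.s k38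
  k46 1 (.s k25 k12 6 (.d k59 k55 k8 1 4)))), (.s k15 k47 3 (.s k27 k39 5 (.s k59 k55 1 (.s k43 k11
  3 (.d k23 k19 k3 1 5))))), (.s k34 k17 4 (.s k50 k49 0 (.s k58 k53 2 (.s k62 k54 1 (.d k2 k18 k22
  3 5)))))] (.c k19 (.l (.s k59 k55 1 (.s k25 k8 4 (.s k38 k12 6 (.d k34 k46 k17 1 4))))) (.c k55
  (.l (.s k34 k17 4 (.s k15 k47 3 (.s k39 k27 5 (.s k38 k46 1 (.s k36 k37 0 (.d k12 k24 k25 5
  6))))))) .n))) (.c k31 (.l (.s k16 k32 3 (.s k17 k34 4 (.s k18 k19 0 (.s k33 k3 4 (.d k49 k50 k1 0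
  3)))))) .n))) (.c k31 (.l (.s k58 k53 2 (.s k32 k16 3 (.s k26 k10 3 (.d k37 k47 k15 2 6))))) (.c
  k32 (.f k53 k58 2 (.q k51 [(.s k34 k17 4 (.s k38 k46 1 (.s k25 k12 6 (.d k59 k55 k8 1 4)))), (.s
  k49 k50 0 (.s k57 k61 1 (.s k54 k60 2 (.d k55 k52 k59 0 1)))), (.s k34 k17 4 (.s k38 k46 1 (.s k25
  k12 6 (.s k49 k50 0 (.s k37 k13 5 (.s k15 k26 6 (.d k39 k36 k27 0 5)))))))] (.c k101 (.q k239 [(.s
  k34 k17 4 (.s k38 k46 1 (.s k25 k12 6 (.d k59 k55 k8 1 4)))), (.s k49 k50 0 (.s k57 k61 1 (.s k54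
  k60 2 (.d k55 k52 k59 0 1)))), (.s k34 k17 4 (.s k38 k46 1 (.s k25 k12 6 (.s k49 k50 0 (.s k37 k13
  5 (.s k15 k26 6 (.d k39 k36 k27 0 5)))))))] .n) (.c k239 (.q k101 [(.s k34 k17 4 (.s k38 k46 1 (.s
  k25 k12 6 (.d k59 k55 k8 1 4)))), (.s k154 k207 14 (.s k149 k197 11 (.s k192 k106 14 (.d k144 k159
  k96 2 11))))] .n) .n)))) (.c k37 (.q k51 [(.s k34 k17 4 (.s k38 k46 1 (.s k25 k12 6 (.d k59 k55 k8
  1 4)))), (.s k16 k32 3 (.s k17 k34 4 (.s k18 k19 0 (.s k33 k3 4 (.d k49 k50 k1 0 3))))), (.s k49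
  k50 0 (.s k53 k58 2 (.s k57 k61 1 (.s k54 k60 2 (.d k55 k52 k59 0 1)))))] (.c k5 (.l (.s k53 k58 2
  (.s k34 k17 4 (.s k38 k46 1 (.s k25 k12 6 (.d k59 k55 k8 1 4)))))) (.c k53 (.q k5 [(.s k34 k17 4
  (.s k38 k46 1 (.s k25 k12 6 (.d k59 k55 k8 1 4)))), (.s k16 k32 3 (.s k17 k34 4 (.s k18 k19 0 (.s
  k33 k3 4 (.d k49 k50 k1 0 3))))), (.s k10 k15 2 (.s k26 k58 3 (.s k50 k49 0 (.s k38 k14 5 (.s k59
  k55 1 (.d k25 k12 k8 6 4))))))] .n) .n))) (.c k47 (.q k51 [(.s k34 k17 4 (.s k38 k46 1 (.s k25 k12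
  6 (.d k59 k55 k8 1 4)))), (.s k16 k32 3 (.s k17 k34 4 (.s k18 k19 0 (.s k33 k3 4 (.d k49 k50 k1 0
  3))))), (.s k49 k50 0 (.s k53 k58 2 (.s k57 k61 1 (.s k54 k60 2 (.d k55 k52 k59 0 1)))))] .n) (.c
  k53 (.q k51 [(.s k34 k17 4 (.s k38 k46 1 (.s k25 k12 6 (.d k59 k55 k8 1 4)))), (.s k16 k32 3 (.s
  k17 k34 4 (.s k18 k19 0 (.s k33 k3 4 (.d k49 k50 k1 0 3))))), (.s k32 k16 3 (.s k37 k47 2 (.s k49
  k50 0 (.s k25 k13 5 (.d k59 k55 k8 1 4)))))] (.c k5 (.q k37 [(.d k32 k47 k16 2 3), (.s k49 k50 0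
  (.s k25 k13 5 (.d k59 k55 k8 1 4)))] .n) (.c k37 (.q k5 [(.s k34 k17 4 (.s k38 k46 1 (.s k25 k12 6
  (.d k59 k55 k8 1 4)))), (.s k16 k32 3 (.s k17 k34 4 (.s k18 k19 0 (.s k33 k3 4 (.d k49 k50 k1 0
  3))))), (.s k10 k15 2 (.s k26 k58 3 (.s k50 k49 0 (.s k38 k14 5 (.s k59 k55 1 (.d k25 k12 k8 6
  4))))))] .n) .n))) (.c k58 (.q k51 [(.s k34 k17 4 (.s k38 k46 1 (.s k25 k12 6 (.d k59 k55 k8 1
  4)))), (.s k16 k32 3 (.s k17 k34 4 (.s k18 k19 0 (.s k33 k3 4 (.d k49 k50 k1 0 3))))), (.s k32 k16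
  3 (.s k37 k47 2 (.s k49 k50 0 (.s k25 k13 5 (.d k59 k55 k8 1 4)))))] .n) .n))))))))))))

def t215 : T TT 256 :=
  (.f k42 k21 6 (.q k48 [(.s k32 k16 3 (.s k37 k47 2 (.s k26 k15 6 (.d k58 k53 k10 2 3))))] (.c k10
  (.f k53 k58 2 (.q k51 [(.s k34 k17 4 (.s k38 k46 1 (.s k25 k12 6 (.d k59 k55 k8 1 4)))), (.s k49
  k50 0 (.s k57 k61 1 (.s k54 k60 2 (.d k55 k52 k59 0 1)))), (.s k16 k32 3 (.s k17 k34 4 (.s k18 k19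
  0 (.s k33 k3 4 (.d k49 k50 k1 0 3)))))] (.c k90 (.q k250 [(.s k34 k17 4 (.s k38 k46 1 (.s k25 k12
  6 (.d k59 k55 k8 1 4)))), (.s k49 k50 0 (.s k57 k61 1 (.s k54 k60 2 (.d k55 k52 k59 0 1)))), (.s
  k16 k32 3 (.s k17 k34 4 (.s k18 k19 0 (.s k33 k3 4 (.d k49 k50 k1 0 3)))))] .n) (.c k250 (.q k90
  [(.s k34 k17 4 (.s k38 k46 1 (.s k25 k12 6 (.d k59 k55 k8 1 4)))), (.s k49 k50 0 (.s k57 k61 1 (.s
  k54 k60 2 (.d k55 k52 k59 0 1)))), (.s k16 k32 3 (.s k17 k34 4 (.s k18 k19 0 (.s k33 k3 4 (.d k49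
  k50 k1 0 3)))))] (.c k122 (.q k186 [(.s k34 k17 4 (.s k38 k46 1 (.s k25 k12 6 (.d k59 k55 k8 1
  4)))), (.s k49 k50 0 (.s k57 k61 1 (.s k54 k60 2 (.d k55 k52 k59 0 1)))), (.s k16 k32 3 (.s k17
  k34 4 (.s k18 k19 0 (.s k33 k3 4 (.d k49 k50 k1 0 3)))))] .n) (.c k186 (.q k122 [(.s k34 k17 4 (.s
  k38 k46 1 (.s k25 k12 6 (.d k59 k55 k8 1 4)))), (.s k32 k16 3 (.s k37 k47 2 (.s k240 k181 10 (.d
  k15 k26 k165 6 14))))] (.c k138 (.q k154 [(.s k101 k207 14 (.s k149 k197 11 (.d k106 k74 k192 3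
  14))), (.s k32 k16 3 (.s k26 k218 7 (.d k37 k47 k15 2 6)))] (.c k74 (.q k202 [(.s k26 k218 7 (.s
  k15 k37 6 (.d k240 k181 k165 10 14))), (.s k101 k207 14 (.s k240 k181 10 (.d k112 k176 k79 7 6))),
  (.s k32 k16 3 (.s k26 k218 7 (.d k37 k47 k15 2 6)))] .n) (.c k202 (.l (.s k74 k106 3 (.s k32 k16 3
  (.s k37 k47 2 (.d k26 k15 k218 6 7))))) .n))) (.c k154 (.q k138 [(.s k34 k17 4 (.s k38 k46 1 (.s
  k25 k12 6 (.d k59 k55 k8 1 4)))), (.s k32 k16 3 (.s k37 k47 2 (.s k240 k181 10 (.d k15 k26 k165 6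
  14))))] (.c k106 (.q k202 [(.s k34 k17 4 (.s k38 k46 1 (.s k25 k12 6 (.d k59 k55 k8 1 4)))), (.s
  k32 k16 3 (.s k37 k47 2 (.s k240 k181 10 (.d k15 k26 k165 6 14))))] .n) (.c k202 (.l (.s k106 k74
  3 (.s k32 k16 3 (.s k37 k47 2 (.s k240 k181 10 (.d k15 k26 k165 6 14)))))) .n))) .n))) .n)))
  .n)))) (.c k15 (.q k51 [(.s k34 k17 4 (.s k38 k46 1 (.s k59 k55 1 (.d k25 k8 k12 4 6)))), (.s k16
  k32 3 (.s k17 k34 4 (.s k18 k19 0 (.s k33 k3 4 (.d k49 k50 k1 0 3))))), (.s k32 k16 3 (.s k37 k47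
  2 (.s k49 k50 0 (.s k25 k13 5 (.d k59 k55 k8 1 4)))))] .n) (.c k16 (.q k51 [(.s k34 k17 4 (.s k38
  k46 1 (.s k25 k12 6 (.d k59 k55 k8 1 4)))), (.s k49 k50 0 (.s k53 k58 2 (.s k57 k61 1 (.s k54 k60
  2 (.d k55 k52 k59 0 1))))), (.s k34 k17 4 (.s k38 k46 1 (.s k50 k49 0 (.s k26 k14 5 (.d k58 k53
  k10 2 3)))))] (.c k26 (.q k31 [(.s k34 k17 4 (.s k38 k46 1 (.s k25 k12 6 (.d k59 k55 k8 1 4)))),
  (.s k15 k47 3 (.s k27 k39 5 (.s k59 k55 1 (.s k43 k11 3 (.d k23 k19 k3 1 5))))), (.s k34 k17 4 (.s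
  k50 k49 0 (.s k58 k53 2 (.s k62 k54 1 (.d k2 k18 k22 3 5)))))] (.c k19 (.l (.s k59 k55 1 (.s k25
  k8 4 (.s k38 k12 6 (.d k34 k46 k17 1 4))))) (.c k55 (.l (.s k34 k17 4 (.s k15 k47 3 (.s k39 k27 5
  (.s k38 k46 1 (.s k36 k37 0 (.d k12 k24 k25 5 6))))))) .n))) (.c k31 (.q k26 [(.d k58 k53 k10 2
  3), (.s k34 k17 4 (.s k38 k46 1 (.d k50 k49 k14 0 5)))] .n) .n))) (.c k26 (.q k51 [(.s k34 k17 4
  (.s k38 k46 1 (.s k25 k12 6 (.d k59 k55 k8 1 4)))), (.s k16 k32 3 (.s k17 k34 4 (.s k18 k19 0 (.s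
  k33 k3 4 (.d k49 k50 k1 0 3))))), (.s k49 k50 0 (.s k53 k58 2 (.s k57 k61 1 (.s k54 k60 2 (.d k55
  k52 k59 0 1)))))] (.c k16 (.q k31 [(.s k34 k17 4 (.s k38 k46 1 (.s k25 k12 6 (.d k59 k55 k8 1
  4)))), (.s k15 k47 3 (.s k27 k39 5 (.s k59 k55 1 (.s k43 k11 3 (.d k23 k19 k3 1 5))))), (.s k34
  k17 4 (.s k50 k49 0 (.s k58 k53 2 (.s k62 k54 1 (.d k2 k18 k22 3 5)))))] (.c k19 (.l (.s k59 k55 1
  (.s k25 k8 4 (.s k38 k12 6 (.d k34 k46 k17 1 4))))) (.c k55 (.l (.s k34 k17 4 (.s k15 k47 3 (.s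
  k39 k27 5 (.s k38 k46 1 (.s k36 k37 0 (.d k12 k24 k25 5 6))))))) .n))) (.c k31 (.l (.s k16 k32 3
  (.s k17 k34 4 (.s k18 k19 0 (.s k33 k3 4 (.d k49 k50 k1 0 3)))))) .n))) (.c k31 (.l (.s k58 k53 2
  (.s k32 k16 3 (.s k26 k10 3 (.d k37 k47 k15 2 6))))) (.c k32 (.f k53 k58 2 (.q k51 [(.s k34 k17 4
  (.s k38 k46 1 (.s k25 k12 6 (.d k59 k55 k8 1 4)))), (.s k49 k50 0 (.s k57 k61 1 (.s k54 k60 2 (.d
  k55 k52 k59 0 1)))), (.s k34 k17 4 (.s k38 k46 1 (.s k25 k12 6 (.s k49 k50 0 (.s k37 k13 5 (.s k15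
  k26 6 (.d k39 k36 k27 0 5)))))))] (.c k101 (.q k239 [(.s k34 k17 4 (.s k38 k46 1 (.s k25 k12 6 (.d
  k59 k55 k8 1 4)))), (.s k49 k50 0 (.s k57 k61 1 (.s k54 k60 2 (.d k55 k52 k59 0 1)))), (.s k34 k17
  4 (.s k38 k46 1 (.s k25 k12 6 (.s k49 k50 0 (.s k37 k13 5 (.s k15 k26 6 (.d k39 k36 k27 0
  5)))))))] .n) (.c k239 (.q k101 [(.s k34 k17 4 (.s k38 k46 1 (.s k25 k12 6 (.d k59 k55 k8 1 4)))),
  (.s k154 k207 14 (.s k149 k197 11 (.s k192 k106 14 (.d k144 k159 k96 2 11))))] .n) .n)))) (.c k37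
  (.q k51 [(.s k34 k17 4 (.s k38 k46 1 (.s k25 k12 6 (.d k59 k55 k8 1 4)))), (.s k16 k32 3 (.s k17
  k34 4 (.s k18 k19 0 (.s k33 k3 4 (.d k49 k50 k1 0 3))))), (.s k49 k50 0 (.s k53 k58 2 (.s k57 k61
  1 (.s k54 k60 2 (.d k55 k52 k59 0 1)))))] (.c k5 (.l (.s k53 k58 2 (.s k34 k17 4 (.s k38 k46 1 (.s
  k25 k12 6 (.d k59 k55 k8 1 4)))))) (.c k53 (.q k5 [(.s k34 k17 4 (.s k38 k46 1 (.s k25 k12 6 (.d
  k59 k55 k8 1 4)))), (.s k16 k32 3 (.s k17 k34 4 (.s k18 k19 0 (.s k33 k3 4 (.d k49 k50 k1 0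
  3))))), (.s k10 k15 2 (.s k26 k58 3 (.s k50 k49 0 (.s k38 k14 5 (.s k59 k55 1 (.d k25 k12 k8 6
  4))))))] .n) .n))) (.c k47 (.q k51 [(.s k34 k17 4 (.s k38 k46 1 (.s k25 k12 6 (.d k59 k55 k8 1
  4)))), (.s k16 k32 3 (.s k17 k34 4 (.s k18 k19 0 (.s k33 k3 4 (.d k49 k50 k1 0 3))))), (.s k49 k50
  0 (.s k53 k58 2 (.s k57 k61 1 (.s k54 k60 2 (.d k55 k52 k59 0 1)))))] .n) (.c k53 (.q k51 [(.s k34
  k17 4 (.s k38 k46 1 (.s k25 k12 6 (.d k59 k55 k8 1 4)))), (.s k16 k32 3 (.s k17 k34 4 (.s k18 k19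
  0 (.s k33 k3 4 (.d k49 k50 k1 0 3))))), (.s k32 k16 3 (.s k37 k47 2 (.s k49 k50 0 (.s k25 k13 5
  (.d k59 k55 k8 1 4)))))] (.c k5 (.q k37 [(.d k32 k47 k16 2 3), (.s k49 k50 0 (.s k25 k13 5 (.d k59
  k55 k8 1 4)))] .n) (.c k37 (.q k5 [(.s k34 k17 4 (.s k38 k46 1 (.s k25 k12 6 (.d k59 k55 k8 1
  4)))), (.s k16 k32 3 (.s k17 k34 4 (.s k18 k19 0 (.s k33 k3 4 (.d k49 k50 k1 0 3))))), (.s k10 k15
  2 (.s k26 k58 3 (.s k50 k49 0 (.s k38 k14 5 (.s k59 k55 1 (.d k25 k12 k8 6 4))))))] .n) .n))) (.c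
  k58 (.q k51 [(.s k34 k17 4 (.s k38 k46 1 (.s k25 k12 6 (.d k59 k55 k8 1 4)))), (.s k16 k32 3 (.s
  k17 k34 4 (.s k18 k19 0 (.s k33 k3 4 (.d k49 k50 k1 0 3))))), (.s k32 k16 3 (.s k37 k47 2 (.s k49
  k50 0 (.s k25 k13 5 (.d k59 k55 k8 1 4)))))] .n) .n))))))))))))

theorem c138 : rootOK2 k63 k170 k138 t138 = true := by decide +kernel

theorem c139 : rootOK2 k63 k170 k139 t139 = true := by decide +kernel

theorem c143 : rootOK2 k63 k170 k143 t143 = true := by decide +kernel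

theorem c149 : rootOK2 k63 k170 k149 t149 = true := by decide +kernel

theorem c150 : rootOK2 k63 k170 k150 t150 = true := by decide +kernel

theorem c151 : rootOK2 k63 k170 k151 t151 = true := by decide +kernel

theorem c154 : rootOK2 k63 k170 k154 t154 = true := by decide +kernel

theorem c155 : rootOK2 k63 k170 k155 t155 = true := by decide +kernel

theorem c159 : rootOK2 k63 k170 k159 t159 = true := by decide +kernel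

theorem c171 : rootOK2 k63 k170 k171 t171 = true := by decide +kernel

theorem c175 : rootOK2 k63 k170 k175 t175 = true := by decide +kernel

theorem c191 : rootOK2 k63 k170 k191 t191 = true := by decide +kernel

theorem c192 : rootOK2 k63 k170 k192 t192 = true := by decide +kernel

theorem c193 : rootOK2 k63 k170 k193 t193 = true := by decide +kernel

theorem c194 : rootOK2 k63 k170 k194 t194 = true := by decide +kernel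

theorem c195 : rootOK2 k63 k170 k195 t195 = true := by decide +kernel

theorem c197 : rootOK2 k63 k170 k197 t197 = true := by decide +kernel

theorem c198 : rootOK2 k63 k170 k198 t198 = true := by decide +kernel

theorem c199 : rootOK2 k63 k170 k199 t199 = true := by decide +kernel

theorem c202 : rootOK2 k63 k170 k202 t202 = true := by decide +kernel

theorem c203 : rootOK2 k63 k170 k203 t203 = true := by decide +kernel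

theorem c207 : rootOK2 k63 k170 k207 t207 = true := by decide +kernel

theorem c213 : rootOK2 k63 k170 k213 t213 = true := by decide +kernel

theorem c214 : rootOK2 k63 k170 k214 t214 = true := by decide +kernel

theorem c215 : rootOK2 k63 k170 k215 t215 = true := by decide +kernel

def l : List Nat :=
  [k138.c, k139.c, k143.c, k149.c, k150.c, k151.c, k154.c, k155.c, k159.c, k171.c, k175.c, k191.c,
  k192.c, k193.c, k194.c, k195.c, k197.c, k198.c, k199.c, k202.c, k203.c, k207.c, k213.c, k214.c,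
  k215.c]

theorem ok : AllQ k63.c k170.c l :=
  allQ_cons c138 (allQ_cons c139 (allQ_cons c143 (allQ_cons c149 (allQ_cons c150 (
  allQ_cons c151 (allQ_cons c154 (allQ_cons c155 (allQ_cons c159 (allQ_cons c171 (
  allQ_cons c175 (allQ_cons c191 (allQ_cons c192 (allQ_cons c193 (allQ_cons c194 (
  allQ_cons c195 (allQ_cons c197 (allQ_cons c198 (allQ_cons c199 (allQ_cons c202 (
  allQ_cons c203 (allQ_cons c207 (allQ_cons c213 (allQ_cons c214 (allQ_cons c215 (allQ_nil _ _)))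
  ))))))))))))))))))))))

end Pool.Agent.TTT.G06
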