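import Pool.Agent.TTT.Sym2

set_option autoImplicit false
set_option maxRecDepth 100000

namespace Pool.Agent.TTT.G07

def t218 : T TT 256 :=
  (.q k3 [(.s k2 k1 0 (.s k42 k21 6 (.s k22 k62 5 (.s k41 k60 6 (.d k43 k40 k23 0 5)))))] (.c k1 (.q
  k51 [(.s k19 k35 3 (.s k23 k43 5 (.s k27 k31 1 (.s k39 k15 5 (.d k55 k59 k7 1 3))))), (.s k17 k34
  4 (.s k21 k42 6 (.s k25 k29 1 (.s k38 k12 6 (.d k55 k59 k4 1 4))))), (.s k17 k34 4 (.s k21 k42 6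
  (.s k19 k35 3 (.s k23 k43 5 (.s k16 k18 0 (.d k31 k27 k26 1 2))))))] .n) (.c k2 (.f k42 k21 6 (.q
  k51 [(.s k34 k17 4 (.s k38 k46 1 (.s k25 k12 6 (.d k59 k55 k8 1 4)))), (.s k19 k35 3 (.s k23 k43 5
  (.s k27 k31 1 (.s k39 k15 5 (.d k55 k59 k7 1 3))))), (.s k34 k17 4 (.s k35 k19 3 (.s k43 k23 5 (.s
  k32 k33 0 (.d k47 k39 k37 1 2)))))] (.c k86 (.q k254 [(.s k34 k17 4 (.s k38 k46 1 (.s k25 k12 6
  (.d k59 k55 k8 1 4)))), (.s k19 k35 3 (.s k23 k43 5 (.s k27 k31 1 (.s k39 k15 5 (.d k55 k59 k7 1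
  3))))), (.s k34 k17 4 (.s k35 k19 3 (.s k43 k23 5 (.s k32 k33 0 (.d k47 k39 k37 1 2)))))] .n) (.c
  k254 (.q k86 [(.s k34 k17 4 (.s k38 k46 1 (.s k25 k12 6 (.d k59 k55 k8 1 4)))), (.s k19 k35 3 (.s
  k23 k43 5 (.s k27 k31 1 (.s k39 k15 5 (.d k55 k59 k7 1 3))))), (.s k34 k17 4 (.s k35 k19 3 (.s k43
  k23 5 (.s k32 k33 0 (.d k47 k39 k37 1 2)))))] .n) .n)))) (.c k21 (.q k51 [(.s k19 k35 3 (.s k23
  k43 5 (.s k27 k31 1 (.s k39 k15 5 (.d k55 k59 k7 1 3))))), (.s k2 k1 0 (.s k34 k17 4 (.s k18 k50 3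
  (.s k33 k48 4 (.d k35 k32 k19 0 3)))))] (.c k19 (.q k106 [(.s k55 k59 1 (.s k149 k192 14 (.s k102
  k196 12 (.s k110 k98 1 (.d k204 k157 k153 12 14))))), (.s k23 k43 5 (.s k149 k192 14 (.s k86 k212
  8 (.s k252 k169 14 (.d k126 k66 k189 5 8))))), (.s k43 k23 5 (.s k169 k232 8 (.s k59 k55 1 (.s
  k153 k200 12 (.s k137 k185 3 (.d k204 k70 k102 10 14))))))] .n) (.c k35 (.q k106 [(.s k55 k59 1
  (.s k149 k192 14 (.s k102 k196 12 (.s k204 k153 14 (.d k110 k98 k157 1 12))))), (.s k43 k23 5 (.s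
  k169 k232 8 (.s k86 k252 14 (.s k192 k149 14 (.d k66 k126 k129 5 8))))), (.s k43 k23 5 (.s k169
  k232 8 (.s k59 k55 1 (.s k153 k200 12 (.s k137 k185 3 (.d k204 k70 k102 10 14))))))] .n) .n))) (.c
  k22 (.q k51 [(.s k2 k1 0 (.s k34 k17 4 (.s k18 k50 3 (.s k33 k48 4 (.d k35 k32 k19 0 3))))), (.s
  k34 k17 4 (.s k42 k21 6 (.s k38 k46 1 (.s k25 k12 6 (.d k59 k55 k8 1 4))))), (.s k19 k35 3 (.s k23
  k43 5 (.s k27 k31 1 (.s k39 k15 5 (.d k55 k59 k7 1 3)))))] .n) (.c k23 (.q k51 [(.s k2 k1 0 (.s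
  k34 k17 4 (.s k18 k50 3 (.s k33 k48 4 (.d k35 k32 k19 0 3))))), (.s k17 k34 4 (.s k21 k42 6 (.s
  k25 k29 1 (.s k38 k12 6 (.d k55 k59 k4 1 4))))), (.s k1 k2 0 (.s k21 k42 6 (.s k41 k61 5 (.s k35
  k19 3 (.s k38 k44 2 (.d k55 k59 k4 1 4))))))] .n) (.c k40 (.l (.s k1 k2 0 (.s k21 k42 6 (.s k41
  k61 5 (.s k22 k60 6 (.d k23 k43 k20 5 0)))))) (.c k41 (.q k51 [(.s k2 k1 0 (.s k34 k17 4 (.s k18
  k50 3 (.s k33 k48 4 (.d k35 k32 k19 0 3))))), (.s k19 k35 3 (.s k23 k43 5 (.s k27 k31 1 (.s k39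
  k15 5 (.d k55 k59 k7 1 3))))), (.s k17 k34 4 (.s k21 k42 6 (.s k25 k29 1 (.s k38 k12 6 (.d k55 k59
  k4 1 4)))))] .n) (.c k42 (.q k106 [(.s k43 k23 5 (.s k169 k232 8 (.s k86 k252 14 (.s k192 k149 14
  (.d k66 k126 k129 5 8))))), (.s k1 k2 0 (.s k192 k149 14 (.s k128 k64 7 (.s k129 k66 8 (.s k65
  k193 7 (.d k130 k131 k195 0 8)))))), (.s k23 k43 5 (.s k149 k192 14 (.s k86 k212 8 (.s k252 k169
  14 (.d k126 k66 k189 5 8)))))] (.c k66 (.l (.s k43 k23 5 (.s k169 k232 8 (.s k252 k86 14 (.s k149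
  k192 14 (.d k189 k129 k126 5 8)))))) (.c k86 (.l (.s k2 k1 0 (.s k192 k149 14 (.s k66 k129 8 (.s
  k130 k194 7 (.s k65 k195 8 (.d k64 k128 k67 7 0))))))) (.c k149 (.q k128 [(.s k192 k64 7 (.s k129
  k66 8 (.s k130 k131 0 (.s k65 k195 8 (.d k1 k2 k193 0 7))))), (.s k1 k2 0 (.s k64 k192 7 (.s k43
  k23 5 (.s k169 k232 8 (.d k85 k127 k253 6 13))))), (.s k192 k64 7 (.s k43 k23 5 (.s k66 k129 8 (.s
  k169 k232 8 (.d k86 k126 k252 5 14)))))] (.c k64 (.l (.s k2 k1 0 (.s k43 k23 5 (.s k169 k232 8 (.s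
  k86 k252 14 (.s k66 k126 5 (.s k130 k194 7 (.d k129 k192 k131 8 0)))))))) (.c k192 (.q k51 [(.s k2
  k1 0 (.s k34 k17 4 (.s k18 k50 3 (.s k33 k48 4 (.d k35 k32 k19 0 3))))), (.s k43 k23 5 (.s k169
  k232 8 (.s k59 k55 1 (.s k153 k200 12 (.s k137 k185 3 (.d k204 k102 k70 14 10))))))] .n) .n))) (.c
  k192 (.q k51 [(.s k2 k1 0 (.s k34 k17 4 (.s k18 k50 3 (.s k33 k48 4 (.d k35 k32 k19 0 3))))), (.s
  k43 k23 5 (.s k169 k232 8 (.s k252 k86 14 (.s k59 k55 1 (.s k185 k118 10 (.d k153 k137 k200 3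
  12))))))] (.c k2 (.l (.s k19 k35 3 (.s k23 k43 5 (.s k27 k31 1 (.s k39 k15 5 (.d k55 k59 k7 1
  3)))))) .n)) .n))))) (.c k43 (.q k51 [(.s k2 k1 0 (.s k34 k17 4 (.s k18 k50 3 (.s k33 k48 4 (.d
  k35 k32 k19 0 3))))), (.s k17 k34 4 (.s k21 k42 6 (.s k25 k29 1 (.s k38 k12 6 (.d k55 k59 k4 1
  4))))), (.s k1 k2 0 (.s k21 k42 6 (.s k41 k61 5 (.s k35 k19 3 (.s k38 k44 2 (.d k55 k59 k4 1
  4))))))] .n) (.c k60 (.q k51 [(.s k2 k1 0 (.s k34 k17 4 (.s k18 k50 3 (.s k33 k48 4 (.d k35 k32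
  k19 0 3))))), (.s k17 k34 4 (.s k21 k42 6 (.s k25 k29 1 (.s k38 k12 6 (.d k55 k59 k4 1 4))))), (.s
  k19 k35 3 (.s k23 k43 5 (.s k27 k31 1 (.s k39 k15 5 (.d k55 k59 k7 1 3)))))] .n) (.c k61 (.l (.s
  k2 k1 0 (.s k43 k23 5 (.s k42 k21 6 (.s k41 k40 0 (.d k22 k62 k60 5 6)))))) (.c k62 (.l (.s k1 k2
  0 (.s k23 k43 5 (.s k21 k42 6 (.s k22 k20 0 (.d k41 k61 k60 5 6)))))) .n)))))))))))))

def t219 : T TT 256 :=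
  (.q k12 [(.s k8 k4 1 (.s k42 k21 6 (.s k25 k59 4 (.s k38 k51 6 (.d k46 k34 k29 1 4)))))] (.c k4
  (.f k46 k29 4 (.q k3 [(.s k1 k2 0 (.s k21 k42 6 (.s k41 k61 5 (.s k22 k60 6 (.d k23 k20 k43 0
  5))))), (.s k42 k21 6 (.s k9 k6 2 (.s k38 k34 1 (.s k25 k51 6 (.s k41 k57 3 (.d k43 k40 k23 0
  5)))))), (.s k2 k1 0 (.s k6 k9 2 (.s k14 k10 1 (.s k62 k30 3 (.d k42 k22 k21 5 6)))))] (.c k21 (.l
  (.s k2 k1 0 (.s k6 k9 2 (.s k14 k10 1 (.s k62 k30 3 (.s k22 k42 5 (.d k60 k61 k41 0 6))))))) (.c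
  k42 (.q k106 [(.s k6 k9 2 (.s k43 k23 5 (.s k169 k232 8 (.s k166 k226 9 (.d k86 k246 k252 11
  14))))), (.s k166 k226 9 (.s k89 k243 14 (.s k192 k149 14 (.d k72 k123 k132 4 9)))), (.s k23 k43 5
  (.s k149 k192 14 (.s k86 k212 8 (.s k252 k169 14 (.d k126 k66 k189 5 8)))))] .n) .n)))) (.c k8 (.q
  k89 [(.s k29 k46 4 (.s k166 k243 14 (.s k149 k209 9 (.s k132 k183 4 (.d k192 k72 k106 9 14))))),
  (.s k21 k42 6 (.s k29 k46 4 (.s k149 k209 9 (.s k85 k213 7 (.s k93 k81 1 (.s k221 k157 7 (.d k17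
  k25 k153 1 9))))))), (.s k21 k42 6 (.s k243 k166 14 (.s k123 k183 9 (.s k106 k72 4 (.s k149 k192
  14 (.s k85 k213 7 (.d k81 k162 k93 12 1)))))))] (.c k106 (.f k46 k29 4 (.l (.s k42 k21 6 (.s k166
  k243 14 (.s k38 k34 1 (.s k102 k230 7 (.s k76 k115 6 (.s k204 k140 7 (.d k51 k25 k153 6
  14))))))))) (.c k149 (.f k46 k29 4 (.l (.s k42 k21 6 (.s k166 k243 14 (.s k38 k34 1 (.s k102 k230
  7 (.s k76 k115 6 (.s k204 k140 7 (.d k51 k25 k153 6 14))))))))) .n))) (.c k21 (.q k106 [(.s k29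
  k46 4 (.s k149 k192 14 (.s k89 k209 9 (.s k123 k72 4 (.d k243 k183 k166 9 14))))), (.s k4 k8 1 (.s
  k192 k149 14 (.s k128 k64 7 (.s k132 k72 9 (.s k68 k196 7 (.d k136 k140 k204 1 9))))))] (.c k72
  (.l (.s k46 k29 4 (.s k166 k226 9 (.s k243 k89 14 (.s k149 k192 14 (.d k183 k132 k123 4 9))))))
  (.c k89 (.l (.s k8 k4 1 (.s k192 k149 14 (.s k72 k132 9 (.s k136 k200 7 (.s k68 k204 9 (.d k64
  k128 k76 7 1))))))) (.c k149 (.f k46 k29 4 (.l (.s k4 k8 1 (.s k166 k226 9 (.s k85 k247 12 (.s k89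
  k243 14 (.s k64 k127 6 (.s k72 k123 4 (.d k192 k128 k132 7 9))))))))) (.c k192 (.f k46 k29 4 (.l
  (.s k4 k8 1 (.s k166 k226 9 (.s k85 k247 12 (.s k127 k64 6 (.s k255 k191 7 (.s k93 k174 12 (.d k89
  k243 k81 14 1))))))))) .n))))) (.c k25 (.q k3 [(.s k2 k1 0 (.s k42 k21 6 (.s k22 k62 5 (.s k41 k60
  6 (.d k43 k40 k23 0 5))))), (.s k1 k2 0 (.s k8 k4 1 (.s k9 k6 2 (.s k5 k13 1 (.d k10 k11 k15 0
  2))))), (.s k21 k42 6 (.s k6 k9 2 (.s k23 k43 5 (.s k22 k20 0 (.s k38 k54 3 (.d k4 k8 k55 1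
  4))))))] .n) (.c k29 (.q k3 [(.s k1 k2 0 (.s k8 k4 1 (.s k9 k6 2 (.s k10 k11 0 (.d k5 k13 k15 1
  2))))), (.s k1 k2 0 (.s k21 k42 6 (.s k23 k43 5 (.s k22 k20 0 (.d k41 k61 k60 5 6))))), (.s k4 k8
  1 (.s k21 k42 6 (.s k6 k9 2 (.s k23 k43 5 (.s k38 k55 4 (.d k22 k20 k54 0 3))))))] .n) (.c k34 (.l
  (.s k4 k8 1 (.s k21 k42 6 (.s k38 k55 4 (.s k25 k51 6 (.d k29 k46 k17 4 1)))))) (.c k38 (.q k3
  [(.s k1 k2 0 (.s k9 k6 2 (.s k5 k13 1 (.s k10 k15 2 (.d k8 k11 k4 0 1))))), (.s k1 k2 0 (.s k21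
  k42 6 (.s k41 k61 5 (.s k22 k60 6 (.d k23 k20 k43 0 5))))), (.s k42 k21 6 (.s k9 k6 2 (.s k43 k23
  5 (.s k41 k40 0 (.s k25 k57 3 (.d k8 k4 k59 1 4))))))] (.c k22 (.l (.s k2 k1 0 (.s k4 k8 1 (.s k6
  k9 2 (.s k10 k14 1 (.d k5 k7 k15 0 2)))))) .n)) (.c k42 (.q k106 [(.s k29 k46 4 (.s k149 k192 14
  (.s k89 k209 9 (.s k123 k72 4 (.d k243 k183 k166 9 14))))), (.s k4 k8 1 (.s k192 k149 14 (.s k128
  k64 7 (.s k132 k72 9 (.s k68 k196 7 (.d k136 k140 k204 1 9))))))] (.c k72 (.l (.s k46 k29 4 (.s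
  k166 k226 9 (.s k243 k89 14 (.s k149 k192 14 (.d k183 k132 k123 4 9)))))) (.c k89 (.l (.s k8 k4 1
  (.s k192 k149 14 (.s k72 k132 9 (.s k136 k200 7 (.s k68 k204 9 (.d k64 k128 k76 7 1))))))) (.c
  k149 (.f k46 k29 4 (.l (.s k4 k8 1 (.s k166 k226 9 (.s k85 k247 12 (.s k89 k243 14 (.s k64 k127 6
  (.s k72 k123 4 (.d k192 k128 k132 7 9))))))))) (.c k192 (.f k46 k29 4 (.l (.s k4 k8 1 (.s k166
  k226 9 (.s k85 k247 12 (.s k127 k64 6 (.s k255 k191 7 (.s k93 k174 12 (.d k89 k243 k81 14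
  1))))))))) .n))))) (.c k46 (.q k3 [(.s k1 k2 0 (.s k8 k4 1 (.s k9 k6 2 (.s k5 k13 1 (.d k10 k11
  k15 0 2))))), (.s k1 k2 0 (.s k21 k42 6 (.s k41 k61 5 (.s k22 k60 6 (.d k23 k20 k43 0 5))))), (.s
  k4 k8 1 (.s k21 k42 6 (.s k6 k9 2 (.s k23 k43 5 (.s k38 k55 4 (.d k22 k20 k54 0 3))))))] .n) (.c
  k51 (.q k3 [(.s k1 k2 0 (.s k8 k4 1 (.s k9 k6 2 (.s k5 k13 1 (.d k10 k11 k15 0 2))))), (.s k1 k2 0
  (.s k21 k42 6 (.s k41 k61 5 (.s k22 k60 6 (.d k23 k20 k43 0 5))))), (.s k4 k8 1 (.s k21 k42 6 (.s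
  k6 k9 2 (.s k23 k43 5 (.s k38 k55 4 (.d k22 k20 k54 0 3))))))] .n) (.c k55 (.l (.s k8 k4 1 (.s k46
  k29 4 (.s k42 k21 6 (.s k38 k34 1 (.d k25 k59 k51 4 6)))))) (.c k59 (.l (.s k4 k8 1 (.s k29 k46 4
  (.s k21 k42 6 (.s k25 k17 1 (.d k38 k55 k51 4 6)))))) .n)))))))))))))

def t223 : T TT 256 :=
  (.q k3 [(.s k2 k1 0 (.s k42 k21 6 (.s k22 k62 5 (.s k41 k60 6 (.d k43 k40 k23 0 5)))))] (.c k1 (.q
  k51 [(.s k19 k35 3 (.s k23 k43 5 (.s k27 k31 1 (.s k39 k15 5 (.d k55 k59 k7 1 3))))), (.s k17 k34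
  4 (.s k21 k42 6 (.s k25 k29 1 (.s k38 k12 6 (.d k55 k59 k4 1 4))))), (.s k17 k34 4 (.s k21 k42 6
  (.s k19 k35 3 (.s k23 k43 5 (.s k16 k18 0 (.d k31 k27 k26 1 2))))))] .n) (.c k2 (.f k42 k21 6 (.q
  k51 [(.s k34 k17 4 (.s k38 k46 1 (.s k25 k12 6 (.d k59 k55 k8 1 4)))), (.s k19 k35 3 (.s k23 k43 5
  (.s k27 k31 1 (.s k39 k15 5 (.d k55 k59 k7 1 3))))), (.s k34 k17 4 (.s k35 k19 3 (.s k43 k23 5 (.s
  k32 k33 0 (.d k47 k39 k37 1 2)))))] (.c k86 (.q k254 [(.s k34 k17 4 (.s k38 k46 1 (.s k25 k12 6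
  (.d k59 k55 k8 1 4)))), (.s k19 k35 3 (.s k23 k43 5 (.s k27 k31 1 (.s k39 k15 5 (.d k55 k59 k7 1
  3))))), (.s k34 k17 4 (.s k35 k19 3 (.s k43 k23 5 (.s k32 k33 0 (.d k47 k39 k37 1 2)))))] .n) (.c
  k254 (.q k86 [(.s k34 k17 4 (.s k38 k46 1 (.s k25 k12 6 (.d k59 k55 k8 1 4)))), (.s k19 k35 3 (.s
  k23 k43 5 (.s k27 k31 1 (.s k39 k15 5 (.d k55 k59 k7 1 3))))), (.s k34 k17 4 (.s k35 k19 3 (.s k43
  k23 5 (.s k32 k33 0 (.d k47 k39 k37 1 2)))))] .n) .n)))) (.c k21 (.q k51 [(.s k1 k2 0 (.s k17 k34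
  4 (.s k33 k49 3 (.s k18 k48 4 (.d k19 k16 k35 0 3))))), (.s k19 k35 3 (.s k23 k43 5 (.s k27 k31 1
  (.s k39 k15 5 (.d k55 k59 k7 1 3)))))] (.c k16 (.l (.s k2 k1 0 (.s k34 k17 4 (.s k18 k50 3 (.s k33
  k48 4 (.d k35 k19 k32 3 0)))))) (.c k19 (.q k87 [(.s k23 k43 5 (.s k171 k255 13 (.s k151 k215 7
  (.s k195 k107 13 (.d k131 k191 k67 5 7))))), (.s k255 k171 13 (.s k55 k59 1 (.s k119 k187 9 (.s
  k183 k247 7 (.s k123 k243 9 (.d k127 k115 k191 1 7)))))), (.s k23 k43 5 (.s k151 k215 7 (.s k55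
  k59 1 (.s k103 k199 11 (.s k71 k119 3 (.d k207 k139 k155 9 13))))))] .n) (.c k35 (.q k87 [(.s k23
  k43 5 (.s k151 k215 7 (.s k107 k195 13 (.s k127 k67 5 (.d k255 k191 k171 7 13))))), (.s k255 k171
  13 (.s k55 k59 1 (.s k119 k187 9 (.s k183 k247 7 (.s k123 k243 9 (.d k127 k115 k191 1 7)))))), (.s
  k23 k43 5 (.s k151 k215 7 (.s k55 k59 1 (.s k103 k199 11 (.s k71 k119 3 (.d k207 k139 k155 9
  13))))))] .n) .n)))) (.c k22 (.q k51 [(.s k2 k1 0 (.s k34 k17 4 (.s k18 k50 3 (.s k33 k48 4 (.d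
  k35 k32 k19 0 3))))), (.s k34 k17 4 (.s k42 k21 6 (.s k38 k46 1 (.s k25 k12 6 (.d k59 k55 k8 1
  4))))), (.s k19 k35 3 (.s k23 k43 5 (.s k27 k31 1 (.s k39 k15 5 (.d k55 k59 k7 1 3)))))] .n) (.c
  k23 (.q k51 [(.s k2 k1 0 (.s k34 k17 4 (.s k18 k50 3 (.s k33 k48 4 (.d k35 k32 k19 0 3))))), (.s
  k17 k34 4 (.s k21 k42 6 (.s k25 k29 1 (.s k38 k12 6 (.d k55 k59 k4 1 4))))), (.s k1 k2 0 (.s k21
  k42 6 (.s k41 k61 5 (.s k35 k19 3 (.s k38 k44 2 (.d k55 k59 k4 1 4))))))] .n) (.c k40 (.l (.s k1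
  k2 0 (.s k21 k42 6 (.s k41 k61 5 (.s k22 k60 6 (.d k23 k43 k20 5 0)))))) (.c k41 (.q k51 [(.s k2
  k1 0 (.s k34 k17 4 (.s k18 k50 3 (.s k33 k48 4 (.d k35 k32 k19 0 3))))), (.s k19 k35 3 (.s k23 k43
  5 (.s k27 k31 1 (.s k39 k15 5 (.d k55 k59 k7 1 3))))), (.s k17 k34 4 (.s k21 k42 6 (.s k25 k29 1
  (.s k38 k12 6 (.d k55 k59 k4 1 4)))))] .n) (.c k42 (.q k106 [(.s k43 k23 5 (.s k169 k232 8 (.s k86
  k252 14 (.s k192 k149 14 (.d k66 k126 k129 5 8))))), (.s k1 k2 0 (.s k192 k149 14 (.s k128 k64 7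
  (.s k129 k66 8 (.s k65 k193 7 (.d k130 k131 k195 0 8)))))), (.s k23 k43 5 (.s k149 k192 14 (.s k86
  k212 8 (.s k252 k169 14 (.d k126 k66 k189 5 8)))))] (.c k66 (.l (.s k43 k23 5 (.s k169 k232 8 (.s
  k252 k86 14 (.s k149 k192 14 (.d k189 k129 k126 5 8)))))) (.c k86 (.l (.s k2 k1 0 (.s k192 k149 14
  (.s k66 k129 8 (.s k130 k194 7 (.s k65 k195 8 (.d k64 k128 k67 7 0))))))) (.c k149 (.q k128 [(.s
  k192 k64 7 (.s k129 k66 8 (.s k130 k131 0 (.s k65 k195 8 (.d k1 k2 k193 0 7))))), (.s k1 k2 0 (.s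
  k64 k192 7 (.s k43 k23 5 (.s k169 k232 8 (.d k85 k127 k253 6 13))))), (.s k192 k64 7 (.s k43 k23 5
  (.s k66 k129 8 (.s k169 k232 8 (.d k86 k126 k252 5 14)))))] (.c k64 (.l (.s k2 k1 0 (.s k43 k23 5
  (.s k169 k232 8 (.s k86 k252 14 (.s k66 k126 5 (.s k130 k194 7 (.d k129 k192 k131 8 0)))))))) (.c
  k192 (.q k51 [(.s k2 k1 0 (.s k34 k17 4 (.s k18 k50 3 (.s k33 k48 4 (.d k35 k32 k19 0 3))))), (.s
  k43 k23 5 (.s k169 k232 8 (.s k59 k55 1 (.s k153 k200 12 (.s k137 k185 3 (.d k204 k102 k70 14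
  10))))))] .n) .n))) (.c k192 (.q k51 [(.s k2 k1 0 (.s k34 k17 4 (.s k18 k50 3 (.s k33 k48 4 (.d
  k35 k32 k19 0 3))))), (.s k43 k23 5 (.s k169 k232 8 (.s k252 k86 14 (.s k59 k55 1 (.s k185 k118 10
  (.d k153 k137 k200 3 12))))))] (.c k2 (.l (.s k19 k35 3 (.s k23 k43 5 (.s k27 k31 1 (.s k39 k15 5
  (.d k55 k59 k7 1 3)))))) .n)) .n))))) (.c k43 (.q k51 [(.s k2 k1 0 (.s k34 k17 4 (.s k18 k50 3 (.s
  k33 k48 4 (.d k35 k32 k19 0 3))))), (.s k17 k34 4 (.s k21 k42 6 (.s k25 k29 1 (.s k38 k12 6 (.d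
  k55 k59 k4 1 4))))), (.s k1 k2 0 (.s k21 k42 6 (.s k41 k61 5 (.s k35 k19 3 (.s k38 k44 2 (.d k55
  k59 k4 1 4))))))] .n) (.c k60 (.q k51 [(.s k2 k1 0 (.s k34 k17 4 (.s k18 k50 3 (.s k33 k48 4 (.d
  k35 k32 k19 0 3))))), (.s k17 k34 4 (.s k21 k42 6 (.s k25 k29 1 (.s k38 k12 6 (.d k55 k59 k4 1
  4))))), (.s k19 k35 3 (.s k23 k43 5 (.s k27 k31 1 (.s k39 k15 5 (.d k55 k59 k7 1 3)))))] .n) (.c
  k61 (.l (.s k2 k1 0 (.s k43 k23 5 (.s k42 k21 6 (.s k41 k40 0 (.d k22 k62 k60 5 6)))))) (.c k62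
  (.l (.s k1 k2 0 (.s k23 k43 5 (.s k21 k42 6 (.s k22 k20 0 (.d k41 k61 k60 5 6))))))
  .n)))))))))))))

def t234 : T TT 256 :=
  (.f k42 k21 6 (.q k10 [(.s k15 k5 2 (.s k26 k58 3 (.s k37 k48 6 (.d k47 k32 k31 2 3))))] (.c k5
  (.q k51 [(.s k34 k17 4 (.s k38 k46 1 (.s k25 k12 6 (.d k59 k55 k8 1 4)))), (.s k58 k26 3 (.s k53
  k48 2 (.s k55 k59 1 (.s k54 k52 0 (.s k60 k57 2 (.d k62 k61 k50 0 1)))))), (.s k34 k17 4 (.s k26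
  k58 3 (.s k38 k46 1 (.s k50 k14 5 (.s k48 k49 0 (.s k32 k16 3 (.d k37 k47 k15 2 6)))))))] (.c k37
  (.q k53 [(.d k58 k48 k26 2 3), (.s k34 k17 4 (.s k38 k46 1 (.s k25 k12 6 (.d k59 k55 k8 1 4))))]
  .n) (.c k53 (.q k37 [(.s k26 k58 3 (.s k15 k48 6 (.d k47 k32 k31 2 3))), (.s k34 k17 4 (.s k38 k46
  1 (.s k25 k12 6 (.d k59 k55 k8 1 4))))] .n) .n))) (.c k15 (.q k51 [(.s k34 k17 4 (.s k38 k46 1 (.s
  k59 k55 1 (.d k25 k8 k12 4 6)))), (.s k58 k26 3 (.s k48 k53 2 (.s k50 k49 0 (.s k54 k62 1 (.s k57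
  k60 2 (.d k59 k56 k55 0 1)))))), (.s k34 k17 4 (.s k58 k26 3 (.s k48 k53 2 (.s k50 k49 0 (.s k2
  k18 3 (.d k62 k22 k54 5 1))))))] .n) (.c k26 (.q k51 [(.s k34 k17 4 (.s k38 k46 1 (.s k25 k12 6
  (.d k59 k55 k8 1 4)))), (.s k15 k5 2 (.s k27 k39 5 (.s k31 k47 3 (.s k23 k19 1 (.s k43 k3 5 (.d
  k59 k55 k11 1 3)))))), (.s k15 k5 2 (.s k34 k17 4 (.s k39 k27 5 (.s k38 k46 1 (.s k37 k36 0 (.d
  k47 k31 k32 3 2))))))] (.c k16 (.q k31 [(.d k15 k5 k47 2 3), (.s k34 k17 4 (.s k38 k46 1 (.s k25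
  k12 6 (.d k59 k55 k8 1 4))))] .n) (.c k31 (.q k16 [(.s k34 k17 4 (.s k38 k46 1 (.s k25 k12 6 (.d
  k59 k55 k8 1 4)))), (.s k48 k32 3 (.s k17 k34 4 (.s k18 k19 0 (.s k33 k3 4 (.d k49 k50 k1 0
  3))))), (.s k15 k5 2 (.s k27 k39 5 (.s k59 k55 1 (.s k11 k43 3 (.d k8 k9 k25 0 4)))))] .n) .n)))
  (.c k31 (.q k51 [(.s k34 k17 4 (.s k38 k46 1 (.s k25 k12 6 (.d k59 k55 k8 1 4)))), (.s k15 k5 2
  (.s k26 k58 3 (.s k27 k39 5 (.s k25 k24 0 (.d k59 k55 k8 1 4))))), (.s k15 k5 2 (.s k26 k58 3 (.s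
  k37 k48 6 (.s k39 k27 5 (.s k38 k36 0 (.d k34 k46 k17 1 4))))))] (.c k16 (.l (.s k26 k58 3 (.s k15
  k5 2 (.s k27 k39 5 (.s k25 k24 0 (.d k59 k55 k8 1 4)))))) (.c k26 (.q k16 [(.s k34 k17 4 (.s k38
  k46 1 (.s k25 k12 6 (.d k59 k55 k8 1 4)))), (.s k48 k32 3 (.s k17 k34 4 (.s k18 k19 0 (.s k33 k3 4
  (.d k49 k50 k1 0 3))))), (.s k15 k5 2 (.s k27 k39 5 (.s k59 k55 1 (.s k11 k43 3 (.d k8 k9 k25 0
  4)))))] .n) .n))) (.c k32 (.q k51 [(.s k34 k17 4 (.s k38 k46 1 (.s k25 k12 6 (.d k59 k55 k8 1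
  4)))), (.s k15 k5 2 (.s k26 k58 3 (.s k27 k39 5 (.s k25 k24 0 (.d k59 k55 k8 1 4))))), (.s k15 k5
  2 (.s k26 k58 3 (.s k37 k48 6 (.s k39 k27 5 (.s k38 k36 0 (.d k34 k46 k17 1 4))))))] (.c k101 (.q
  k239 [(.s k34 k17 4 (.s k38 k46 1 (.s k25 k12 6 (.d k59 k55 k8 1 4)))), (.s k15 k5 2 (.s k26 k58 3
  (.s k27 k39 5 (.s k25 k24 0 (.d k59 k55 k8 1 4))))), (.s k15 k5 2 (.s k26 k58 3 (.s k37 k48 6 (.s
  k39 k27 5 (.s k38 k36 0 (.d k34 k46 k17 1 4))))))] .n) (.c k239 (.q k101 [(.s k34 k17 4 (.s k38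
  k46 1 (.s k25 k12 6 (.d k59 k55 k8 1 4)))), (.s k15 k5 2 (.s k26 k58 3 (.s k27 k39 5 (.s k25 k24 0
  (.d k59 k55 k8 1 4))))), (.s k15 k5 2 (.s k26 k58 3 (.s k37 k48 6 (.s k39 k27 5 (.s k38 k36 0 (.d
  k34 k46 k17 1 4))))))] (.c k224 (.q k229 [(.s k15 k5 2 (.s k26 k58 3 (.d k37 k48 k165 6 7))), (.s
  k34 k17 4 (.s k38 k46 1 (.s k25 k12 6 (.d k59 k55 k8 1 4))))] (.c k96 (.q k160 [(.s k15 k5 2 (.s
  k26 k58 3 (.d k37 k48 k165 6 7))), (.s k34 k17 4 (.s k38 k46 1 (.s k25 k12 6 (.d k59 k55 k8 1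
  4))))] .n) (.c k160 (.q k96 [(.s k15 k5 2 (.s k26 k58 3 (.d k37 k165 k48 7 6))), (.s k34 k17 4 (.s
  k38 k46 1 (.s k25 k12 6 (.d k59 k55 k8 1 4))))] (.c k165 (.q k175 [(.s k34 k17 4 (.s k38 k46 1 (.s
  k25 k12 6 (.d k59 k55 k8 1 4)))), (.s k58 k26 3 (.s k48 k53 2 (.s k192 k144 11 (.d k106 k111 k149
  2 14))))] (.c k47 (.l (.s k106 k111 2 (.s k58 k26 3 (.s k48 k53 2 (.d k154 k202 k207 11 14)))))
  (.c k106 (.q k47 [(.d k15 k5 k31 2 3), (.s k34 k17 4 (.s k38 k46 1 (.s k25 k12 6 (.d k59 k55 k8 1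
  4))))] .n) .n))) (.c k175 (.l (.s k165 k37 7 (.s k34 k17 4 (.s k38 k46 1 (.s k25 k12 6 (.d k59 k55
  k8 1 4)))))) .n))) .n))) (.c k229 (.q k224 [(.s k34 k17 4 (.s k38 k46 1 (.s k25 k12 6 (.d k59 k55
  k8 1 4)))), (.s k15 k5 2 (.s k26 k58 3 (.s k27 k39 5 (.s k25 k24 0 (.d k59 k55 k8 1 4))))), (.s
  k15 k5 2 (.s k26 k58 3 (.s k37 k48 6 (.s k39 k27 5 (.s k38 k36 0 (.d k34 k46 k17 1 4))))))] .n)
  .n))) .n))) (.c k37 (.q k51 [(.s k34 k17 4 (.s k38 k46 1 (.s k25 k12 6 (.d k59 k55 k8 1 4)))), (.s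
  k58 k26 3 (.s k59 k55 1 (.s k57 k56 0 (.s k54 k60 2 (.s k50 k62 1 (.d k48 k53 k49 2 0)))))), (.s
  k5 k15 2 (.s k34 k17 4 (.s k58 k26 3 (.s k48 k53 2 (.s k50 k49 0 (.s k2 k18 3 (.d k62 k22 k54 5
  1)))))))] (.c k5 (.q k53 [(.d k58 k48 k26 2 3), (.s k34 k17 4 (.s k38 k46 1 (.s k25 k12 6 (.d k59
  k55 k8 1 4))))] .n) (.c k53 (.l (.s k5 k15 2 (.s k34 k17 4 (.s k38 k46 1 (.s k25 k12 6 (.d k59 k55
  k8 1 4)))))) .n))) (.c k47 (.q k51 [(.s k34 k17 4 (.s k38 k46 1 (.s k25 k12 6 (.d k59 k55 k8 1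
  4)))), (.s k15 k5 2 (.s k26 k58 3 (.s k27 k39 5 (.s k25 k24 0 (.d k59 k55 k8 1 4))))), (.s k15 k5
  2 (.s k26 k58 3 (.s k37 k48 6 (.s k39 k27 5 (.s k38 k36 0 (.d k34 k46 k17 1 4))))))] .n) (.c k48
  (.q k51 [(.s k34 k17 4 (.s k38 k46 1 (.s k59 k55 1 (.d k25 k8 k12 4 6)))), (.s k15 k5 2 (.s k27
  k39 5 (.s k31 k47 3 (.s k23 k19 1 (.s k43 k3 5 (.d k59 k55 k11 1 3)))))), (.s k15 k5 2 (.s k34 k17
  4 (.s k26 k58 3 (.s k27 k39 5 (.s k25 k24 0 (.d k38 k12 k46 6 1))))))] .n) (.c k53 (.l (.s k26 k58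
  3 (.s k15 k5 2 (.s k37 k48 6 (.d k47 k32 k31 2 3))))) (.c k58 (.q k51 [(.s k34 k17 4 (.s k38 k46 1
  (.s k25 k12 6 (.d k59 k55 k8 1 4)))), (.s k15 k5 2 (.s k27 k39 5 (.s k31 k47 3 (.s k23 k19 1 (.s
  k43 k3 5 (.d k59 k55 k11 1 3)))))), (.s k15 k5 2 (.s k34 k17 4 (.s k39 k27 5 (.s k47 k31 3 (.s k37
  k32 2 (.d k38 k36 k46 0 1))))))] .n) .n))))))))))))

def t235 : T TT 256 :=
  (.q k60 [(.s k40 k20 5 (.s k42 k21 6 (.s k41 k43 0 (.s k22 k3 6 (.d k62 k61 k2 0 5))))), (.s k21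
  k42 6 (.s k61 k62 0 (.s k41 k1 5 (.s k22 k3 6 (.d k20 k40 k23 5 0)))))] (.c k2 (.f k62 k61 0 (.q
  k12 [(.s k44 k28 3 (.s k46 k29 4 (.s k45 k47 0 (.d k30 k14 k15 3 4)))), (.s k4 k8 1 (.s k21 k42 6
  (.s k38 k55 4 (.s k25 k51 6 (.d k29 k17 k46 1 4))))), (.s k8 k4 1 (.s k40 k20 5 (.s k24 k56 3 (.s
  k36 k48 5 (.d k44 k32 k28 1 3)))))] (.c k40 (.q k105 [(.s k44 k28 3 (.s k46 k29 4 (.s k45 k47 0
  (.d k30 k14 k15 3 4)))), (.s k150 k195 14 (.s k106 k194 13 (.s k192 k149 14 (.d k104 k107 k148 0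
  13))))] (.c k86 (.q k254 [(.s k44 k28 3 (.s k46 k29 4 (.s k45 k47 0 (.d k30 k14 k15 3 4)))), (.s
  k150 k195 14 (.s k106 k194 13 (.s k192 k149 14 (.d k104 k107 k148 0 13))))] .n) (.c k254 (.q k86
  [(.s k44 k28 3 (.s k46 k29 4 (.s k45 k47 0 (.d k30 k14 k15 3 4)))), (.s k150 k195 14 (.s k106 k194
  13 (.s k192 k149 14 (.d k104 k107 k148 0 13))))] .n) .n))) (.c k86 (.q k254 [(.s k44 k28 3 (.s k46
  k29 4 (.s k45 k47 0 (.d k30 k14 k15 3 4)))), (.s k4 k8 1 (.s k21 k42 6 (.s k38 k55 4 (.s k25 k51 6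
  (.d k29 k17 k46 1 4))))), (.s k8 k4 1 (.s k40 k20 5 (.s k24 k56 3 (.s k36 k48 5 (.d k44 k32 k28 1
  3)))))] (.c k40 (.q k105 [(.s k44 k28 3 (.s k46 k29 4 (.s k45 k47 0 (.d k30 k14 k15 3 4)))), (.s
  k150 k195 14 (.s k106 k194 13 (.s k192 k149 14 (.d k104 k107 k148 0 13))))] .n) (.c k105 (.l (.s
  k40 k20 5 (.s k8 k4 1 (.s k24 k56 3 (.s k36 k48 5 (.d k44 k32 k28 1 3)))))) .n))) (.c k105 (.l (.s
  k40 k20 5 (.s k8 k4 1 (.s k24 k56 3 (.s k36 k48 5 (.d k44 k32 k28 1 3)))))) (.c k254 (.q k86 [(.s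
  k44 k28 3 (.s k46 k29 4 (.s k45 k47 0 (.d k30 k14 k15 3 4)))), (.s k4 k8 1 (.s k21 k42 6 (.s k38
  k55 4 (.s k25 k51 6 (.d k29 k17 k46 1 4))))), (.s k8 k4 1 (.s k40 k20 5 (.s k24 k56 3 (.s k36 k48
  5 (.d k44 k32 k28 1 3)))))] (.c k40 (.q k105 [(.s k44 k28 3 (.s k46 k29 4 (.s k45 k47 0 (.d k30
  k14 k15 3 4)))), (.s k150 k195 14 (.s k106 k194 13 (.s k192 k149 14 (.d k104 k107 k148 0 13))))]
  .n) (.c k105 (.l (.s k40 k20 5 (.s k8 k4 1 (.s k24 k56 3 (.s k36 k48 5 (.d k44 k32 k28 1 3))))))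
  .n))) .n)))))) (.c k3 (.f k62 k61 0 (.q k12 [(.s k44 k28 3 (.s k46 k29 4 (.s k30 k14 3 (.d k45 k47
  k15 0 4)))), (.s k4 k8 1 (.s k21 k42 6 (.s k38 k55 4 (.s k25 k51 6 (.d k29 k17 k46 1 4))))), (.s
  k8 k4 1 (.s k40 k20 5 (.s k24 k56 3 (.s k36 k48 5 (.d k44 k32 k28 1 3)))))] (.c k40 (.q k105 [(.s
  k44 k28 3 (.s k46 k29 4 (.s k30 k14 3 (.d k45 k47 k15 0 4)))), (.s k150 k195 14 (.s k106 k194 13
  (.s k192 k149 14 (.d k104 k107 k148 0 13))))] .n) (.c k105 (.l (.s k40 k20 5 (.s k8 k4 1 (.s k24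
  k56 3 (.s k36 k48 5 (.d k44 k32 k28 1 3)))))) .n)))) (.c k20 (.q k105 [(.s k61 k62 0 (.s k149 k193
  13 (.s k106 k192 14 (.s k107 k104 0 (.d k195 k151 k150 13 14))))), (.s k21 k42 6 (.s k61 k62 0 (.s
  k1 k41 5 (.s k149 k193 13 (.s k85 k213 7 (.s k253 k169 13 (.d k125 k65 k189 5 7))))))), (.s k21
  k42 6 (.s k195 k150 14 (.s k107 k151 13 (.s k106 k104 0 (.s k149 k192 14 (.s k85 k213 7 (.d k65
  k130 k125 8 5)))))))] (.c k106 (.f k62 k61 0 (.l (.s k42 k21 6 (.s k22 k2 5 (.s k150 k195 14 (.s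
  k86 k214 7 (.s k124 k67 6 (.s k252 k188 7 (.d k3 k41 k169 6 14))))))))) (.c k149 (.f k62 k61 0 (.l
  (.s k42 k21 6 (.s k22 k2 5 (.s k41 k3 6 (.s k43 k40 0 (.s k169 k233 7 (.s k150 k195 14 (.d k106
  k232 k194 8 13))))))))) .n))) (.c k21 (.q k12 [(.s k28 k44 3 (.s k29 k46 4 (.s k30 k31 0 (.s k45
  k15 4 (.d k61 k62 k13 0 3))))), (.s k8 k4 1 (.s k40 k20 5 (.s k24 k56 3 (.s k36 k48 5 (.d k44 k32
  k28 1 3)))))] (.c k28 (.q k105 [(.s k61 k62 0 (.s k150 k195 14 (.s k149 k193 13 (.s k148 k151 0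
  (.d k192 k104 k106 13 14))))), (.s k4 k8 1 (.s k195 k150 14 (.s k130 k65 8 (.s k134 k73 10 (.s k69
  k199 8 (.d k138 k142 k207 1 10)))))), (.s k29 k46 4 (.s k61 k62 0 (.s k149 k193 13 (.s k89 k209 9
  (.s k243 k166 14 (.d k121 k73 k182 3 10))))))] .n) (.c k40 (.q k105 [(.s k44 k28 3 (.s k46 k29 4
  (.s k45 k47 0 (.s k30 k15 4 (.d k62 k61 k14 0 3))))), (.s k28 k44 3 (.s k150 k195 14 (.s k89 k211
  10 (.s k243 k166 14 (.d k121 k73 k182 3 10))))), (.s k61 k62 0 (.s k150 k195 14 (.s k149 k193 13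
  (.s k192 k106 14 (.d k148 k151 k104 0 13)))))] .n) (.c k44 (.q k105 [(.s k61 k62 0 (.s k150 k195
  14 (.s k149 k193 13 (.s k148 k151 0 (.d k192 k104 k106 13 14))))), (.s k4 k8 1 (.s k195 k150 14
  (.s k130 k65 8 (.s k134 k73 10 (.s k69 k199 8 (.d k138 k142 k207 1 10)))))), (.s k29 k46 4 (.s k61
  k62 0 (.s k149 k193 13 (.s k89 k209 9 (.s k243 k166 14 (.d k121 k73 k182 3 10))))))] .n) (.c k105
  (.l (.s k40 k20 5 (.s k8 k4 1 (.s k24 k56 3 (.s k36 k48 5 (.d k44 k32 k28 1 3)))))) .n))))) (.c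
  k22 (.f k62 k61 0 (.q k12 [(.s k46 k29 4 (.s k30 k14 3 (.s k45 k15 4 (.d k44 k47 k28 0 3)))), (.s
  k4 k8 1 (.s k21 k42 6 (.s k38 k55 4 (.s k25 k51 6 (.d k29 k17 k46 1 4))))), (.s k8 k4 1 (.s k40
  k20 5 (.s k24 k56 3 (.s k36 k48 5 (.d k44 k32 k28 1 3)))))] (.c k40 (.q k105 [(.s k46 k29 4 (.s
  k30 k14 3 (.s k45 k15 4 (.d k44 k47 k28 0 3)))), (.s k150 k195 14 (.s k106 k194 13 (.s k192 k149
  14 (.d k104 k107 k148 0 13))))] .n) (.c k105 (.l (.s k40 k20 5 (.s k8 k4 1 (.s k24 k56 3 (.s k36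
  k48 5 (.d k44 k32 k28 1 3)))))) .n)))) (.c k23 (.l (.s k40 k20 5 (.s k62 k61 0 (.s k42 k21 6 (.s
  k22 k2 5 (.d k41 k43 k3 0 6)))))) (.c k40 (.q k105 [(.s k61 k62 0 (.s k150 k195 14 (.s k149 k193
  13 (.s k148 k151 0 (.d k192 k104 k106 13 14))))), (.s k21 k42 6 (.s k61 k62 0 (.s k149 k193 13 (.s
  k85 k213 7 (.s k125 k65 5 (.s k253 k189 7 (.d k1 k41 k169 5 13))))))), (.s k21 k42 6 (.s k195 k150
  14 (.s k107 k151 13 (.s k106 k104 0 (.s k149 k192 14 (.s k85 k213 7 (.d k65 k130 k125 8 5)))))))]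
  (.c k106 (.f k62 k61 0 (.l (.s k42 k21 6 (.s k22 k2 5 (.s k150 k195 14 (.s k86 k214 7 (.s k124 k67
  6 (.s k252 k188 7 (.d k3 k41 k169 6 14))))))))) (.c k149 (.f k62 k61 0 (.l (.s k42 k21 6 (.s k22
  k2 5 (.s k150 k195 14 (.s k86 k214 7 (.s k124 k67 6 (.s k252 k188 7 (.d k3 k41 k169 6 14)))))))))
  .n))) (.c k41 (.q k12 [(.s k8 k4 1 (.s k40 k20 5 (.s k24 k56 3 (.s k36 k48 5 (.d k44 k32 k28 1
  3))))), (.s k4 k8 1 (.s k21 k42 6 (.s k38 k55 4 (.s k25 k51 6 (.d k29 k17 k46 1 4))))), (.s k28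
  k44 3 (.s k29 k46 4 (.s k30 k31 0 (.s k45 k15 4 (.d k61 k62 k13 0 3)))))] (.c k40 (.q k105 [(.s
  k44 k28 3 (.s k46 k29 4 (.s k45 k47 0 (.s k30 k15 4 (.d k62 k61 k14 0 3))))), (.s k28 k44 3 (.s
  k150 k195 14 (.s k89 k211 10 (.s k243 k166 14 (.d k121 k73 k182 3 10))))), (.s k8 k4 1 (.s k42 k21
  6 (.s k25 k59 4 (.s k38 k51 6 (.d k46 k34 k29 1 4)))))] (.c k42 (.q k43 [(.s k44 k28 3 (.s k46 k29
  4 (.s k45 k47 0 (.s k30 k15 4 (.d k62 k61 k14 0 3))))), (.s k61 k62 0 (.s k150 k195 14 (.s k149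
  k193 13 (.s k148 k151 0 (.d k192 k106 k104 14 13))))), (.s k28 k44 3 (.s k150 k195 14 (.s k89 k211
  10 (.s k243 k166 14 (.d k121 k73 k182 3 10)))))] (.c k106 (.q k234 [(.s k44 k28 3 (.s k46 k29 4
  (.s k62 k61 0 (.s k30 k14 3 (.d k45 k47 k15 0 4))))), (.s k28 k44 3 (.s k150 k195 14 (.s k89 k211
  10 (.s k121 k73 3 (.d k243 k182 k166 10 14))))), (.s k4 k8 1 (.s k3 k23 5 (.s k2 k1 0 (.s k6 k9 2
  (.s k10 k14 1 (.d k5 k7 k15 0 2))))))] .n) (.c k234 (.q k106 [(.s k61 k62 0 (.d k149 k193 k192 13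
  14)), (.s k195 k150 14 (.d k107 k104 k151 0 13))] (.c k232 (.q k233 [(.s k104 k107 0 (.d k192 k148
  k149 13 14)), (.s k62 k61 0 (.d k150 k194 k195 13 14))] (.c k104 (.q k168 [(.s k252 k84 13 (.d
  k195 k214 k150 6 14)), (.s k61 k62 0 (.d k149 k193 k192 13 14))] .n) (.c k168 (.l (.s k104 k107 0
  (.d k192 k148 k149 13 14))) .n))) (.c k233 (.l (.s k232 k169 8 (.s k61 k62 0 (.d k149 k193 k192 13
  14)))) .n))) .n))) (.c k43 (.l (.s k42 k21 6 (.s k8 k4 1 (.s k25 k59 4 (.s k38 k51 6 (.d k46 k34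
  k29 1 4)))))) .n))) (.c k105 (.l (.s k40 k20 5 (.s k8 k4 1 (.s k24 k56 3 (.s k36 k48 5 (.d k44 k32
  k28 1 3)))))) .n))) (.c k42 (.q k106 [(.s k62 k61 0 (.s k150 k194 13 (.s k149 k192 14 (.s k151
  k148 0 (.d k195 k105 k107 14 13))))), (.s k192 k149 14 (.s k128 k64 7 (.s k148 k104 13 (.s k168
  k188 5 (.s k84 k252 13 (.d k20 k40 k212 5 7))))))] (.c k40 (.q k105 [(.s k62 k61 0 (.d k150 k194
  k195 13 14)), (.s k61 k62 0 (.d k149 k193 k192 13 14)), (.s k195 k150 14 (.d k107 k104 k151 0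
  13))] (.c k41 (.q k43 [(.s k61 k62 0 (.d k149 k193 k192 13 14)), (.s k195 k150 14 (.d k107 k104
  k151 0 13))] .n) (.c k43 (.q k41 [(.s k62 k61 0 (.d k150 k194 k195 13 14)), (.s k61 k62 0 (.d k149
  k193 k192 13 14)), (.s k195 k150 14 (.d k107 k104 k151 0 13))] (.c k107 (.q k171 [(.s k62 k61 0
  (.d k150 k194 k195 13 14)), (.s k61 k62 0 (.d k149 k193 k192 13 14))] (.c k61 (.l (.s k3 k22 6 (.s
  k255 k87 13 (.s k125 k190 8 (.s k127 k191 7 (.d k85 k65 k64 5 6)))))) (.c k62 (.l (.s k149 k192 14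
  (.s k61 k193 13 (.s k1 k21 5 (.d k3 k2 k22 0 6))))) .n))) (.c k171 (.l (.s k107 k104 0 (.d k195
  k151 k150 13 14))) .n))) .n))) (.c k105 (.l (.s k40 k20 5 (.s k192 k149 14 (.s k104 k148 13 (.s
  k168 k232 7 (.s k84 k252 13 (.d k64 k128 k124 7 5))))))) (.c k148 (.l (.s k61 k62 0 (.s k149 k192
  14 (.s k105 k193 13 (.s k195 k150 14 (.d k107 k104 k151 0 13)))))) (.c k149 (.f k62 k61 0 (.q k105
  [(.d k150 k194 k195 13 14), (.s k20 k40 5 (.s k104 k107 0 (.s k148 k192 13 (.s k84 k212 7 (.s k252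
  k168 13 (.d k124 k64 k188 5 7))))))] (.c k128 (.q k191 [(.d k150 k194 k195 13 14), (.s k255 k127 7
  (.s k190 k125 8 (.s k126 k254 7 (.d k189 k188 k252 0 8))))] .n) (.c k191 (.q k128 [(.d k150 k194
  k195 13 14), (.s k192 k64 7 (.d k104 k107 k148 0 13))] .n) .n)))) (.c k192 (.q k105 [(.s k62 k61 0
  (.d k150 k194 k195 13 14)), (.s k40 k20 5 (.s k104 k107 0 (.s k168 k232 7 (.s k252 k84 13 (.s k124
  k188 7 (.s k126 k189 8 (.d k86 k66 k67 5 6)))))))] .n) .n)))))) (.c k61 (.q k12 [(.s k8 k4 1 (.s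
  k40 k20 5 (.s k24 k56 3 (.s k36 k48 5 (.d k44 k32 k28 1 3))))), (.s k4 k8 1 (.s k21 k42 6 (.s k38
  k55 4 (.s k25 k51 6 (.d k29 k17 k46 1 4))))), (.s k40 k20 5 (.s k42 k21 6 (.s k44 k28 3 (.s k46
  k29 4 (.s k38 k34 1 (.d k41 k43 k35 0 2))))))] (.c k40 (.q k105 [(.s k8 k4 1 (.s k42 k21 6 (.s k25
  k59 4 (.s k38 k51 6 (.d k46 k34 k29 1 4))))), (.s k28 k44 3 (.s k150 k195 14 (.s k89 k211 10 (.s
  k243 k166 14 (.d k121 k73 k182 3 10)))))] .n) (.c k105 (.l (.s k40 k20 5 (.s k8 k4 1 (.s k24 k56 3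
  (.s k36 k48 5 (.d k44 k32 k28 1 3)))))) .n))) (.c k62 (.q k12 [(.s k8 k4 1 (.s k40 k20 5 (.s k24
  k56 3 (.s k36 k48 5 (.d k44 k32 k28 1 3))))), (.s k4 k8 1 (.s k21 k42 6 (.s k38 k55 4 (.s k25 k51
  6 (.d k29 k17 k46 1 4))))), (.s k40 k20 5 (.s k42 k21 6 (.s k44 k28 3 (.s k46 k29 4 (.s k38 k34 1
  (.d k41 k43 k35 0 2))))))] (.c k40 (.q k105 [(.s k8 k4 1 (.s k42 k21 6 (.s k25 k59 4 (.s k38 k51 6
  (.d k46 k34 k29 1 4))))), (.s k28 k44 3 (.s k150 k195 14 (.s k89 k211 10 (.s k243 k166 14 (.d k121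
  k73 k182 3 10)))))] .n) (.c k105 (.l (.s k40 k20 5 (.s k8 k4 1 (.s k24 k56 3 (.s k36 k48 5 (.d k44
  k32 k28 1 3)))))) .n))) (.c k105 (.l (.s k40 k20 5 (.s k42 k21 6 (.s k41 k43 0 (.s k22 k3 6 (.d
  k62 k61 k2 0 5)))))) .n)))))))))))))

def t239 : T TT 256 :=
  (.q k48 [(.s k32 k16 3 (.s k42 k21 6 (.s k37 k47 2 (.s k26 k15 6 (.d k58 k53 k10 2 3))))), (.s k21
  k42 6 (.s k53 k58 2 (.s k37 k5 3 (.s k26 k15 6 (.d k16 k32 k31 3 2)))))] (.c k10 (.f k42 k21 6 (.f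
  k53 k58 2 (.q k101 [(.s k154 k207 14 (.s k149 k197 11 (.s k192 k106 14 (.d k144 k159 k96 2 11)))),
  (.s k32 k16 3 (.s k37 k47 2 (.s k165 k229 7 (.s k154 k207 14 (.s k176 k143 6 (.s k240 k112 7 (.d
  k15 k26 k90 6 14))))))), (.s k32 k16 3 (.s k47 k37 2 (.s k149 k197 11 (.s k106 k192 14 (.s k224
  k165 10 (.d k96 k160 k111 7 2))))))] (.c k90 (.q k250 [(.s k154 k207 14 (.s k149 k197 11 (.s k144
  k159 2 (.d k192 k96 k106 11 14)))), (.s k32 k16 3 (.s k37 k47 2 (.s k165 k229 7 (.s k149 k197 11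
  (.s k181 k133 3 (.s k245 k117 7 (.d k240 k255 k122 2 10)))))))] (.c k149 (.f k154 k207 14 (.l (.s
  k32 k16 3 (.s k37 k47 2 (.s k165 k229 7 (.s k176 k143 6 (.s k240 k112 7 (.s k181 k122 10 (.d k245
  k117 k255 7 2))))))))) (.c k197 (.f k154 k207 14 (.l (.s k32 k16 3 (.s k37 k47 2 (.s k165 k229 7
  (.s k176 k143 6 (.s k240 k112 7 (.s k181 k122 10 (.d k245 k117 k255 7 2))))))))) (.c k255 (.l (.s
  k207 k154 14 (.s k149 k197 11 (.s k106 k192 14 (.d k111 k96 k159 2 11))))) .n)))) (.c k207 (.l (.s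
  k16 k32 3 (.s k149 k197 11 (.s k192 k106 14 (.s k128 k64 7 (.s k144 k96 11 (.s k80 k208 7 (.d k160
  k176 k240 3 11)))))))) (.c k250 (.q k90 [(.s k32 k16 3 (.s k47 k37 2 (.s k31 k15 3 (.d k149 k208
  k197 10 11)))), (.s k154 k207 14 (.s k149 k197 11 (.s k192 k106 14 (.d k144 k159 k96 2 11)))), (.s
  k32 k16 3 (.s k37 k47 2 (.s k26 k15 6 (.d k154 k218 k207 7 14))))] (.c k122 (.q k186 [(.s k207
  k154 14 (.s k69 k138 10 (.d k117 k85 k255 3 10))), (.s k32 k16 3 (.s k37 k47 2 (.s k165 k229 7 (.d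
  k15 k26 k240 6 14))))] .n) (.c k186 (.q k122 [(.s k149 k197 11 (.d k106 k74 k192 3 14)), (.s k240
  k181 10 (.d k112 k176 k79 7 6))] (.c k138 (.l (.s k154 k207 14 (.s k149 k197 11 (.d k106 k192 k74
  14 3)))) (.c k154 (.q k138 [(.s k149 k197 11 (.d k106 k74 k192 3 14)), (.s k240 k181 10 (.d k112
  k176 k79 7 6))] (.c k106 (.q k202 [(.s k207 k69 10 (.d k197 k192 k149 2 11)), (.s k240 k181 10 (.d
  k112 k176 k79 7 6))] .n) (.c k202 (.l (.s k106 k74 3 (.d k149 k197 k192 11 14))) .n))) .n))) .n)))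
  .n)))))) (.c k15 (.q k3 [(.s k1 k2 0 (.s k32 k16 3 (.s k33 k18 4 (.s k17 k49 3 (.d k34 k35 k51 0
  4))))), (.s k2 k1 0 (.s k42 k21 6 (.s k22 k62 5 (.s k41 k60 6 (.d k43 k40 k23 0 5))))), (.s k32
  k16 3 (.s k42 k21 6 (.s k33 k18 4 (.s k43 k23 5 (.s k37 k47 2 (.d k41 k40 k45 0 1))))))] (.c k32
  (.q k101 [(.s k2 k1 0 (.s k42 k21 6 (.s k22 k62 5 (.s k41 k60 6 (.d k43 k40 k23 0 5))))), (.s k18
  k33 4 (.s k154 k207 14 (.s k86 k222 9 (.s k252 k169 14 (.d k116 k71 k184 4 9)))))] .n) (.c k101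
  (.l (.s k32 k16 3 (.s k1 k2 0 (.s k33 k18 4 (.s k17 k49 3 (.d k34 k35 k51 0 4)))))) .n))) (.c k16
  (.f k53 k58 2 (.q k51 [(.s k49 k50 0 (.s k57 k61 1 (.s k54 k60 2 (.d k55 k52 k59 0 1)))), (.s k17
  k34 4 (.s k21 k42 6 (.s k25 k29 1 (.s k38 k12 6 (.d k55 k59 k4 1 4))))), (.s k17 k34 4 (.s k21 k42
  6 (.s k37 k5 3 (.s k25 k29 1 (.d k49 k50 k13 0 5)))))] (.c k32 (.q k101 [(.s k49 k50 0 (.s k57 k61
  1 (.s k54 k60 2 (.d k55 k52 k59 0 1)))), (.s k154 k207 14 (.s k149 k197 11 (.s k192 k106 14 (.d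
  k144 k159 k96 2 11))))] .n) (.c k101 (.q k32 [(.s k49 k50 0 (.s k57 k61 1 (.s k54 k60 2 (.d k55
  k52 k59 0 1)))), (.s k34 k17 4 (.s k33 k35 0 (.s k18 k3 4 (.d k50 k49 k2 0 3)))), (.s k17 k34 4
  (.s k21 k42 6 (.s k25 k29 1 (.s k38 k12 6 (.d k55 k59 k4 1 4)))))] .n) .n)))) (.c k21 (.f k53 k58
  2 (.q k51 [(.s k49 k50 0 (.s k55 k59 1 (.s k54 k52 0 (.d k57 k61 k60 1 2)))), (.s k32 k16 3 (.s
  k34 k17 4 (.s k33 k35 0 (.s k18 k3 4 (.d k50 k49 k2 0 3)))))] (.c k32 (.q k101 [(.s k49 k50 0 (.s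
  k55 k59 1 (.s k54 k52 0 (.d k57 k61 k60 1 2)))), (.s k154 k207 14 (.s k149 k197 11 (.s k192 k106
  14 (.d k144 k159 k96 2 11))))] .n) (.c k49 (.q k101 [(.s k154 k207 14 (.s k149 k197 11 (.s k144
  k159 2 (.d k192 k96 k106 11 14)))), (.s k55 k59 1 (.s k52 k54 0 (.s k199 k150 12 (.s k103 k151 11
  (.d k207 k155 k154 13 14))))), (.s k55 k59 1 (.s k149 k197 11 (.s k102 k196 12 (.s k204 k153 14
  (.d k100 k103 k152 0 13)))))] (.c k149 (.l (.s k207 k154 14 (.s k55 k59 1 (.s k103 k155 13 (.s k52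
  k54 0 (.d k199 k151 k150 11 12)))))) .n)) (.c k50 (.q k101 [(.s k154 k207 14 (.s k149 k197 11 (.s
  k144 k159 2 (.d k192 k96 k106 11 14)))), (.s k55 k59 1 (.s k149 k197 11 (.s k102 k196 12 (.s k100
  k103 0 (.d k204 k152 k153 13 14))))), (.s k207 k154 14 (.s k55 k59 1 (.s k103 k155 13 (.s k199
  k151 11 (.d k52 k54 k150 0 12)))))] (.c k54 (.q k62 [(.s k154 k207 14 (.s k149 k197 11 (.s k144
  k159 2 (.d k192 k96 k106 11 14)))), (.s k16 k32 3 (.s k17 k34 4 (.s k18 k19 0 (.s k33 k3 4 (.s k49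
  k1 3 (.d k61 k60 k57 0 1))))))] .n) (.c k62 (.q k54 [(.d k55 k52 k59 0 1), (.s k154 k207 14 (.s
  k149 k197 11 (.s k192 k106 14 (.d k144 k159 k96 2 11))))] .n) .n))) (.c k101 (.l (.s k32 k16 3 (.s
  k34 k17 4 (.s k33 k35 0 (.s k18 k3 4 (.d k50 k49 k2 0 3)))))) .n)))))) (.c k26 (.q k3 [(.s k2 k1 0
  (.s k18 k33 4 (.s k34 k50 3 (.s k17 k51 4 (.d k16 k32 k19 3 0))))), (.s k1 k2 0 (.s k21 k42 6 (.s
  k41 k61 5 (.s k22 k60 6 (.d k23 k20 k43 0 5))))), (.s k42 k21 6 (.s k33 k18 4 (.s k43 k23 5 (.s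
  k41 k40 0 (.s k37 k45 1 (.d k32 k16 k47 3 2))))))] (.c k32 (.q k101 [(.s k2 k1 0 (.s k42 k21 6 (.s
  k22 k62 5 (.s k41 k60 6 (.d k43 k40 k23 0 5))))), (.s k18 k33 4 (.s k154 k207 14 (.s k86 k222 9
  (.s k252 k169 14 (.d k116 k71 k184 4 9)))))] .n) (.c k101 (.l (.s k32 k16 3 (.s k1 k2 0 (.s k33
  k18 4 (.s k17 k49 3 (.d k34 k35 k51 0 4)))))) .n))) (.c k31 (.l (.s k32 k16 3 (.s k58 k53 2 (.s
  k42 k21 6 (.s k26 k10 3 (.d k37 k47 k15 2 6)))))) (.c k32 (.q k101 [(.s k53 k58 2 (.s k154 k207 14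
  (.s k149 k197 11 (.s k144 k159 2 (.d k192 k96 k106 11 14))))), (.s k21 k42 6 (.s k53 k58 2 (.s
  k149 k197 11 (.s k85 k213 7 (.s k117 k69 3 (.s k245 k181 7 (.d k5 k37 k165 3 11))))))), (.s k21
  k42 6 (.s k207 k154 14 (.s k111 k159 11 (.s k106 k96 2 (.s k149 k192 14 (.s k85 k213 7 (.d k69
  k138 k117 10 3)))))))] (.c k106 (.f k42 k21 6 (.l (.s k58 k53 2 (.s k26 k10 3 (.s k154 k207 14 (.s
  k90 k218 7 (.s k112 k79 6 (.s k240 k176 7 (.d k15 k37 k165 6 14))))))))) (.c k149 (.f k42 k21 6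
  (.l (.s k58 k53 2 (.s k26 k10 3 (.s k154 k207 14 (.s k90 k218 7 (.s k112 k79 6 (.s k240 k176 7 (.d
  k15 k37 k165 6 14))))))))) .n))) (.c k37 (.f k42 k21 6 (.f k53 k58 2 (.q k51 [(.s k34 k17 4 (.s
  k38 k46 1 (.s k25 k12 6 (.d k59 k55 k8 1 4)))), (.s k49 k50 0 (.s k57 k61 1 (.s k54 k60 2 (.d k55
  k52 k59 0 1)))), (.s k32 k16 3 (.s k34 k17 4 (.s k33 k35 0 (.s k18 k3 4 (.d k50 k49 k2 0 3)))))]
  (.c k32 (.q k101 [(.s k34 k17 4 (.s k38 k46 1 (.s k25 k12 6 (.d k59 k55 k8 1 4)))), (.s k154 k207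
  14 (.s k149 k197 11 (.s k192 k106 14 (.d k144 k159 k96 2 11))))] .n) (.c k101 (.l (.s k32 k16 3
  (.s k34 k17 4 (.s k33 k35 0 (.s k18 k3 4 (.d k50 k49 k2 0 3)))))) .n))))) (.c k42 (.q k106 [(.s
  k58 k53 2 (.s k154 k202 11 (.s k149 k192 14 (.s k159 k144 2 (.d k207 k101 k111 14 11))))), (.s
  k192 k149 14 (.s k128 k64 7 (.s k144 k96 11 (.s k160 k176 3 (.s k80 k240 11 (.d k16 k32 k208 3
  7))))))] (.c k32 (.q k101 [(.s k58 k53 2 (.d k154 k202 k207 11 14)), (.s k53 k58 2 (.d k149 k197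
  k192 11 14)), (.s k207 k154 14 (.d k111 k96 k159 2 11))] (.c k37 (.q k47 [(.s k53 k58 2 (.d k149
  k197 k192 11 14)), (.s k207 k154 14 (.d k111 k96 k159 2 11))] .n) (.c k47 (.q k37 [(.s k58 k53 2
  (.d k154 k202 k207 11 14)), (.s k53 k58 2 (.d k149 k197 k192 11 14)), (.s k207 k154 14 (.d k111
  k96 k159 2 11))] (.c k111 (.q k175 [(.s k58 k53 2 (.d k154 k202 k207 11 14)), (.s k53 k58 2 (.d
  k149 k197 k192 11 14))] (.c k53 (.l (.s k15 k26 6 (.s k255 k95 11 (.s k117 k186 10 (.s k127 k191 7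
  (.d k85 k69 k64 3 6)))))) (.c k58 (.l (.s k149 k192 14 (.s k53 k197 11 (.s k5 k21 3 (.d k15 k10
  k26 2 6))))) .n))) (.c k175 (.l (.s k111 k96 2 (.d k207 k159 k154 11 14))) .n))) .n))) (.c k101
  (.l (.s k32 k16 3 (.s k192 k149 14 (.s k96 k144 11 (.s k160 k224 7 (.s k80 k240 11 (.d k64 k128
  k112 7 3))))))) (.c k144 (.l (.s k53 k58 2 (.s k149 k192 14 (.s k101 k197 11 (.s k207 k154 14 (.d
  k111 k96 k159 2 11)))))) (.c k149 (.q k101 [(.s k58 k53 2 (.d k154 k202 k207 11 14)), (.s k16 k32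
  3 (.s k96 k111 2 (.s k144 k192 11 (.s k80 k208 7 (.s k240 k160 11 (.d k112 k64 k176 3 7))))))] (.c
  k128 (.q k191 [(.s k58 k53 2 (.d k154 k202 k207 11 14)), (.s k207 k154 14 (.d k111 k159 k96 11
  2)), (.s k58 k53 2 (.s k255 k127 7 (.s k186 k117 10 (.s k122 k250 7 (.d k181 k176 k240 2 10)))))]
  .n) (.c k191 (.q k128 [(.s k192 k64 7 (.d k96 k111 k144 2 11)), (.s k58 k53 2 (.d k154 k202 k207
  11 14))] .n) .n))) (.c k192 (.q k101 [(.s k58 k53 2 (.d k154 k202 k207 11 14)), (.s k32 k16 3 (.s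
  k96 k111 2 (.s k160 k224 7 (.s k240 k80 11 (.s k112 k176 7 (.s k122 k181 10 (.d k90 k74 k79 3
  6)))))))] .n) .n)))))) (.c k53 (.q k3 [(.s k2 k1 0 (.s k42 k21 6 (.s k22 k62 5 (.s k41 k60 6 (.d
  k43 k40 k23 0 5))))), (.s k1 k2 0 (.s k32 k16 3 (.s k33 k18 4 (.s k34 k35 0 (.d k17 k49 k51 3
  4))))), (.s k32 k16 3 (.s k42 k21 6 (.s k33 k18 4 (.s k43 k23 5 (.s k37 k47 2 (.d k41 k40 k45 0
  1))))))] (.c k32 (.q k101 [(.s k2 k1 0 (.s k42 k21 6 (.s k22 k62 5 (.s k41 k60 6 (.d k43 k40 k23 0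
  5))))), (.s k18 k33 4 (.s k154 k207 14 (.s k86 k222 9 (.s k252 k169 14 (.d k116 k71 k184 4 9)))))]
  .n) (.c k101 (.l (.s k32 k16 3 (.s k1 k2 0 (.s k33 k18 4 (.s k17 k49 3 (.d k34 k35 k51 0 4))))))
  .n))) (.c k58 (.f k42 k21 6 (.q k3 [(.s k2 k1 0 (.s k22 k62 5 (.s k41 k60 6 (.d k43 k40 k23 0
  5)))), (.s k1 k2 0 (.s k32 k16 3 (.s k33 k18 4 (.s k17 k49 3 (.d k34 k35 k51 0 4))))), (.s k32 k16
  3 (.s k33 k18 4 (.s k43 k23 5 (.s k37 k47 2 (.d k41 k40 k45 0 1)))))] (.c k32 (.q k101 [(.s k2 k1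
  0 (.s k22 k62 5 (.s k41 k60 6 (.d k43 k40 k23 0 5)))), (.s k18 k33 4 (.s k154 k207 14 (.s k86 k222
  9 (.s k252 k169 14 (.d k116 k71 k184 4 9)))))] .n) (.c k101 (.l (.s k32 k16 3 (.s k1 k2 0 (.s k33
  k18 4 (.s k17 k49 3 (.d k34 k35 k51 0 4)))))) .n)))) (.c k101 (.l (.s k32 k16 3 (.s k42 k21 6 (.s
  k37 k47 2 (.s k26 k15 6 (.d k58 k53 k10 2 3)))))) .n)))))))))))))

def t255 : T TT 256 :=
  (.q k60 [(.s k40 k20 5 (.s k42 k21 6 (.s k41 k43 0 (.s k22 k3 6 (.d k62 k61 k2 0 5))))), (.s k20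
  k40 5 (.s k21 k42 6 (.s k22 k23 0 (.s k61 k62 0 (.d k41 k1 k3 5 6)))))] (.c k3 (.q k12 [(.s k28
  k44 3 (.s k29 k46 4 (.s k30 k31 0 (.s k45 k15 4 (.d k61 k62 k13 0 3))))), (.s k4 k8 1 (.s k20 k40
  5 (.s k36 k52 3 (.s k24 k48 5 (.d k28 k16 k44 1 3))))), (.s k4 k8 1 (.s k21 k42 6 (.s k38 k55 4
  (.s k25 k51 6 (.d k29 k17 k46 1 4)))))] (.c k87 (.q k171 [(.s k28 k44 3 (.s k29 k46 4 (.s k30 k31
  0 (.s k45 k15 4 (.d k61 k62 k13 0 3))))), (.s k4 k8 1 (.s k20 k40 5 (.s k36 k52 3 (.s k24 k48 5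
  (.d k28 k16 k44 1 3))))), (.s k4 k8 1 (.s k21 k42 6 (.s k38 k55 4 (.s k25 k51 6 (.d k29 k17 k46 1
  4)))))] .n) (.c k171 (.q k87 [(.s k28 k44 3 (.s k29 k46 4 (.s k30 k31 0 (.s k45 k15 4 (.d k61 k62
  k13 0 3))))), (.s k4 k8 1 (.s k20 k40 5 (.s k36 k52 3 (.s k24 k48 5 (.d k28 k16 k44 1 3))))), (.s
  k4 k8 1 (.s k21 k42 6 (.s k38 k55 4 (.s k25 k51 6 (.d k29 k17 k46 1 4)))))] (.c k168 (.q k169 [(.s
  k28 k44 3 (.s k29 k46 4 (.s k30 k31 0 (.s k45 k15 4 (.d k61 k62 k13 0 3))))), (.s k4 k8 1 (.s k20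
  k40 5 (.s k36 k52 3 (.s k24 k48 5 (.d k28 k16 k44 1 3))))), (.s k4 k8 1 (.s k21 k42 6 (.s k38 k55
  4 (.s k25 k51 6 (.d k29 k17 k46 1 4)))))] .n) (.c k169 (.q k168 [(.s k4 k8 1 (.s k20 k40 5 (.s k36
  k52 3 (.s k28 k44 3 (.d k24 k16 k48 1 5))))), (.s k40 k20 5 (.s k252 k84 13 (.s k104 k232 7 (.s
  k148 k192 13 (.d k188 k128 k124 5 7))))), (.s k4 k8 1 (.s k21 k42 6 (.s k38 k55 4 (.s k25 k51 6
  (.d k29 k17 k46 1 4)))))] (.c k86 (.l (.s k252 k84 13 (.s k8 k4 1 (.s k88 k248 11 (.s k164 k240 13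
  (.d k172 k160 k92 1 11)))))) (.c k252 (.q k86 [(.s k4 k8 1 (.s k20 k40 5 (.s k36 k52 3 (.s k28 k44
  3 (.d k24 k16 k48 1 5))))), (.s k20 k40 5 (.s k21 k42 6 (.s k22 k23 0 (.s k150 k214 7 (.d k85 k84
  k215 0 8))))), (.s k4 k8 1 (.s k21 k42 6 (.s k38 k55 4 (.s k25 k51 6 (.d k29 k17 k46 1 4)))))] (.c
  k253 (.q k254 [(.s k85 k84 0 (.s k20 k40 5 (.s k21 k42 6 (.s k22 k23 0 (.d k150 k214 k215 7
  8))))), (.s k8 k4 1 (.s k40 k20 5 (.s k24 k56 3 (.s k36 k48 5 (.d k44 k32 k28 1 3))))), (.s k4 k8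
  1 (.s k21 k42 6 (.s k38 k55 4 (.s k25 k51 6 (.d k29 k17 k46 1 4)))))] (.c k1 (.l (.s k85 k84 0 (.s
  k20 k40 5 (.s k21 k42 6 (.s k22 k23 0 (.d k150 k214 k215 7 8)))))) (.c k85 (.q k1 [(.s k61 k62 0
  (.d k21 k41 k42 5 6)), (.s k4 k8 1 (.s k20 k40 5 (.s k36 k52 3 (.s k24 k48 5 (.d k28 k16 k44 1
  3)))))] .n) .n))) (.c k254 (.q k253 [(.s k4 k8 1 (.s k20 k40 5 (.s k36 k52 3 (.s k28 k44 3 (.d k24
  k16 k48 1 5))))), (.s k20 k40 5 (.s k21 k42 6 (.s k22 k23 0 (.s k150 k214 7 (.d k85 k84 k215 0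
  8))))), (.s k4 k8 1 (.s k21 k42 6 (.s k38 k55 4 (.s k25 k51 6 (.d k29 k17 k46 1 4)))))] .n) .n)))
  .n))) .n))) .n))) (.c k20 (.q k12 [(.s k28 k44 3 (.s k29 k46 4 (.s k30 k31 0 (.s k45 k15 4 (.d k61
  k62 k13 0 3))))), (.s k4 k8 1 (.s k21 k42 6 (.s k38 k55 4 (.s k25 k51 6 (.d k29 k17 k46 1 4))))),
  (.s k4 k8 1 (.s k21 k42 6 (.s k38 k55 4 (.s k44 k28 3 (.s k41 k35 2 (.d k61 k62 k1 0 5))))))] .n)
  (.c k21 (.q k12 [(.s k28 k44 3 (.s k29 k46 4 (.s k30 k31 0 (.s k45 k15 4 (.d k61 k62 k13 0 3))))),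
  (.s k8 k4 1 (.s k40 k20 5 (.s k24 k56 3 (.s k36 k48 5 (.d k44 k32 k28 1 3)))))] (.c k28 (.q k105
  [(.s k61 k62 0 (.s k150 k195 14 (.s k149 k193 13 (.s k148 k151 0 (.d k192 k104 k106 13 14))))),
  (.s k4 k8 1 (.s k195 k150 14 (.s k130 k65 8 (.s k134 k73 10 (.s k69 k199 8 (.d k138 k142 k207 1
  10)))))), (.s k29 k46 4 (.s k61 k62 0 (.s k149 k193 13 (.s k89 k209 9 (.s k243 k166 14 (.d k121
  k73 k182 3 10))))))] .n) (.c k44 (.q k105 [(.s k61 k62 0 (.s k150 k195 14 (.s k149 k193 13 (.s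
  k148 k151 0 (.d k192 k104 k106 13 14))))), (.s k4 k8 1 (.s k195 k150 14 (.s k130 k65 8 (.s k134
  k73 10 (.s k69 k199 8 (.d k138 k142 k207 1 10)))))), (.s k29 k46 4 (.s k61 k62 0 (.s k149 k193 13
  (.s k89 k209 9 (.s k243 k166 14 (.d k121 k73 k182 3 10))))))] .n) .n))) (.c k22 (.q k12 [(.s k28
  k44 3 (.s k29 k46 4 (.s k30 k31 0 (.s k45 k15 4 (.d k61 k62 k13 0 3))))), (.s k4 k8 1 (.s k20 k40
  5 (.s k36 k52 3 (.s k24 k48 5 (.d k28 k16 k44 1 3))))), (.s k4 k8 1 (.s k21 k42 6 (.s k38 k55 4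
  (.s k25 k51 6 (.d k29 k17 k46 1 4)))))] .n) (.c k23 (.l (.s k40 k20 5 (.s k62 k61 0 (.s k42 k21 6
  (.s k22 k2 5 (.d k41 k43 k3 0 6)))))) (.c k40 (.q k12 [(.s k8 k4 1 (.s k42 k21 6 (.s k25 k59 4 (.s
  k38 k51 6 (.d k46 k34 k29 1 4))))), (.s k28 k44 3 (.s k29 k46 4 (.s k30 k31 0 (.s k45 k15 4 (.d
  k61 k62 k13 0 3))))), (.s k4 k8 1 (.s k21 k42 6 (.s k38 k55 4 (.s k44 k28 3 (.s k41 k35 2 (.d k61
  k62 k1 0 5))))))] (.c k105 (.q k235 [(.s k8 k4 1 (.s k42 k21 6 (.s k25 k59 4 (.s k38 k51 6 (.d k46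
  k34 k29 1 4))))), (.s k28 k44 3 (.s k29 k46 4 (.s k30 k31 0 (.s k45 k15 4 (.d k61 k62 k13 0
  3))))), (.s k4 k8 1 (.s k21 k42 6 (.s k38 k55 4 (.s k44 k28 3 (.s k41 k35 2 (.d k61 k62 k1 0
  5))))))] .n) (.c k235 (.q k105 [(.s k8 k4 1 (.s k42 k21 6 (.s k25 k59 4 (.s k38 k51 6 (.d k46 k34
  k29 1 4))))), (.s k44 k28 3 (.s k166 k227 10 (.s k89 k243 14 (.s k195 k150 14 (.d k73 k121 k134 3
  10)))))] (.c k195 (.q k215 [(.s k8 k4 1 (.s k46 k29 4 (.s k42 k21 6 (.s k38 k34 1 (.d k25 k59 k51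
  4 6))))), (.s k28 k44 3 (.s k29 k46 4 (.s k30 k31 0 (.s k45 k15 4 (.d k61 k62 k13 0 3))))), (.s k4
  k8 1 (.s k21 k42 6 (.s k38 k55 4 (.s k44 k28 3 (.s k41 k35 2 (.d k61 k62 k1 0 5))))))] .n) (.c
  k215 (.l (.s k195 k150 14 (.s k44 k28 3 (.s k73 k134 10 (.s k166 k227 10 (.d k89 k121 k243 3
  14)))))) .n))) .n))) (.c k41 (.q k12 [(.s k28 k44 3 (.s k29 k46 4 (.s k30 k31 0 (.s k45 k15 4 (.d
  k61 k62 k13 0 3))))), (.s k4 k8 1 (.s k20 k40 5 (.s k36 k52 3 (.s k24 k48 5 (.d k28 k16 k44 1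
  3))))), (.s k4 k8 1 (.s k21 k42 6 (.s k38 k55 4 (.s k25 k51 6 (.d k29 k17 k46 1 4)))))] .n) (.c
  k42 (.q k106 [(.s k62 k61 0 (.s k150 k194 13 (.s k105 k195 14 (.s k192 k149 14 (.d k104 k107 k148
  0 13))))), (.s k40 k20 5 (.s k192 k149 14 (.s k104 k148 13 (.s k168 k232 7 (.s k84 k252 13 (.d k64
  k128 k124 7 5)))))), (.s k61 k62 0 (.s k149 k192 14 (.s k105 k193 13 (.s k195 k150 14 (.d k107
  k104 k151 0 13)))))] (.c k104 (.l (.s k62 k61 0 (.s k150 k194 13 (.s k195 k105 14 (.s k149 k192 14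
  (.d k151 k148 k107 0 13)))))) (.c k149 (.f k62 k61 0 (.q k105 [(.d k150 k194 k195 13 14), (.s k20
  k40 5 (.s k104 k107 0 (.s k148 k192 13 (.s k84 k212 7 (.s k252 k168 13 (.d k124 k64 k188 5
  7))))))] (.c k128 (.q k191 [(.d k150 k194 k195 13 14), (.s k20 k40 5 (.s k104 k107 0 (.s k148 k192
  13 (.s k84 k212 7 (.s k252 k168 13 (.d k124 k64 k188 5 7))))))] .n) (.c k191 (.q k128 [(.d k150
  k194 k195 13 14), (.s k192 k64 7 (.d k104 k107 k148 0 13))] .n) .n)))) (.c k150 (.l (.s k20 k40 5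
  (.s k192 k149 14 (.s k128 k64 7 (.s k148 k104 13 (.s k84 k212 7 (.d k168 k188 k252 5 13))))))) (.c
  k192 (.f k62 k61 0 (.q k12 [(.s k44 k28 3 (.s k46 k29 4 (.s k30 k14 3 (.d k45 k47 k15 0 4)))), (.s
  k4 k8 1 (.s k20 k40 5 (.s k36 k52 3 (.s k24 k48 5 (.d k28 k16 k44 1 3))))), (.s k46 k29 4 (.s k166
  k226 9 (.s k243 k89 14 (.s k182 k121 10 (.d k150 k134 k194 3 13)))))] (.c k213 (.q k234 [(.s k44
  k28 3 (.s k46 k29 4 (.s k30 k14 3 (.d k45 k47 k15 0 4)))), (.s k4 k8 1 (.s k20 k40 5 (.s k36 k52 3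
  (.s k24 k48 5 (.d k28 k16 k44 1 3))))), (.s k46 k29 4 (.s k166 k226 9 (.s k243 k89 14 (.s k182
  k121 10 (.d k150 k134 k194 3 13)))))] .n) (.c k234 (.q k213 [(.s k44 k28 3 (.s k46 k29 4 (.s k30
  k14 3 (.d k45 k47 k15 0 4)))), (.s k4 k8 1 (.s k20 k40 5 (.s k36 k52 3 (.s k24 k48 5 (.d k28 k16
  k44 1 3))))), (.s k46 k29 4 (.s k166 k226 9 (.s k243 k89 14 (.s k182 k121 10 (.d k150 k134 k194 3
  13)))))] .n) .n)))) .n))))) (.c k43 (.l (.s k20 k40 5 (.s k61 k62 0 (.s k21 k42 6 (.s k41 k1 5 (.d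
  k22 k23 k3 0 6)))))) (.c k61 (.q k12 [(.s k8 k4 1 (.s k40 k20 5 (.s k24 k56 3 (.s k36 k48 5 (.d
  k44 k32 k28 1 3))))), (.s k4 k8 1 (.s k21 k42 6 (.s k38 k55 4 (.s k25 k51 6 (.d k29 k17 k46 1
  4))))), (.s k20 k40 5 (.s k21 k42 6 (.s k28 k44 3 (.s k29 k46 4 (.s k25 k17 1 (.d k22 k23 k19 0
  2))))))] .n) (.c k62 (.q k12 [(.s k8 k4 1 (.s k40 k20 5 (.s k24 k56 3 (.s k36 k48 5 (.d k44 k32
  k28 1 3))))), (.s k4 k8 1 (.s k21 k42 6 (.s k38 k55 4 (.s k25 k51 6 (.d k29 k17 k46 1 4))))), (.s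
  k20 k40 5 (.s k21 k42 6 (.s k28 k44 3 (.s k29 k46 4 (.s k25 k17 1 (.d k22 k23 k19 0 2))))))] .n)
  .n))))))))))))

theorem c218 : rootOK2 k63 k170 k218 t218 = true := by decide +kernel

theorem c219 : rootOK2 k63 k170 k219 t219 = true := by decide +kernel

theorem c223 : rootOK2 k63 k170 k223 t223 = true := by decide +kernel

theorem c234 : rootOK2 k63 k170 k234 t234 = true := by decide +kernel

theorem c235 : rootOK2 k63 k170 k235 t235 = true := by decide +kernel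

theorem c239 : rootOK2 k63 k170 k239 t239 = true := by decide +kernel

theorem c255 : rootOK2 k63 k170 k255 t255 = true := by decide +kernel

def l : List Nat :=
  [k218.c, k219.c, k223.c, k234.c, k235.c, k239.c, k255.c]

theorem ok : AllQ k63.c k170.c l :=
  allQ_cons c218 (allQ_cons c219 (allQ_cons c223 (allQ_cons c234 (allQ_cons c235 (
  allQ_cons c239 (allQ_cons c255 (allQ_nil _ _)))))))

end Pool.Agent.TTT.G07
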