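import Pool.Agent.TTT.Sym2

set_option autoImplicit false
set_option maxRecDepth 100000

namespace Pool.Agent.TTT.H01

def t1 : T TT 256 :=
  (.q k12 [(.s k4 k8 1 (.s k21 k42 6 (.s k38 k55 4 (.s k25 k51 6 (.d k29 k17 k46 1 4))))), (.s k8 k4
  1 (.s k42 k21 6 (.s k25 k59 4 (.s k38 k51 6 (.d k46 k34 k29 1 4)))))] (.c k4 (.q k60 [(.s k28 k44
  3 (.s k29 k46 4 (.s k30 k31 0 (.s k45 k15 4 (.d k61 k62 k13 0 3))))), (.s k40 k20 5 (.s k42 k21 6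
  (.s k41 k43 0 (.s k22 k3 6 (.d k62 k61 k2 0 5))))), (.s k20 k40 5 (.s k21 k42 6 (.s k28 k44 3 (.s
  k29 k46 4 (.s k16 k24 1 (.d k31 k30 k26 0 2))))))] .n) (.c k8 (.q k60 [(.s k40 k20 5 (.s k42 k21 6
  (.s k41 k43 0 (.s k22 k3 6 (.d k62 k61 k2 0 5))))), (.s k28 k44 3 (.s k29 k46 4 (.s k30 k31 0 (.s
  k45 k15 4 (.d k61 k62 k13 0 3))))), (.s k20 k40 5 (.s k21 k42 6 (.s k28 k44 3 (.s k29 k46 4 (.s
  k25 k17 1 (.d k22 k23 k19 0 2))))))] .n) (.c k21 (.q k60 [(.s k4 k8 1 (.s k20 k40 5 (.s k36 k52 3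
  (.s k24 k48 5 (.d k28 k16 k44 1 3))))), (.s k61 k62 0 (.s k28 k44 3 (.s k29 k46 4 (.s k45 k13 3
  (.d k30 k31 k15 0 4)))))] (.c k28 (.q k48 [(.s k4 k8 1 (.s k20 k40 5 (.d k36 k24 k52 5 3))), (.s
  k29 k46 4 (.s k53 k58 2 (.s k61 k62 0 (.s k13 k45 3 (.s k49 k57 1 (.s k25 k37 5 (.d k51 k50 k38 0
  6)))))))] (.c k41 (.l (.s k61 k62 0 (.s k4 k8 1 (.s k20 k40 5 (.d k36 k24 k52 5 3))))) (.c k56 (.l
  (.s k4 k8 1 (.s k53 k58 2 (.s k61 k62 0 (.s k57 k49 1 (.s k54 k51 2 (.s k52 k55 0 (.d k20 k40 k36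
  5 3)))))))) (.c k61 (.q k41 [(.s k4 k8 1 (.s k20 k40 5 (.d k36 k24 k52 5 3))), (.s k22 k3 6 (.s
  k52 k56 1 (.s k37 k7 4 (.s k15 k26 6 (.d k45 k33 k30 1 4))))), (.s k40 k20 5 (.s k43 k42 0 (.d k3
  k23 k22 5 6)))] .n) .n)))) (.c k41 (.l (.s k61 k62 0 (.s k28 k44 3 (.s k29 k46 4 (.s k45 k13 3 (.d
  k30 k31 k15 0 4)))))) (.c k44 (.q k48 [(.s k4 k8 1 (.s k20 k40 5 (.d k36 k24 k52 5 3))), (.s k52
  k56 1 (.s k53 k58 2 (.s k61 k62 0 (.s k57 k49 1 (.d k54 k55 k51 0 2))))), (.s k16 k32 3 (.s k29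
  k46 4 (.s k61 k62 0 (.s k45 k13 3 (.s k30 k15 4 (.s k28 k31 0 (.d k20 k40 k24 5 1)))))))] (.c k41
  (.l (.s k61 k62 0 (.s k4 k8 1 (.s k20 k40 5 (.d k36 k24 k52 5 3))))) (.c k61 (.q k41 [(.s k4 k8 1
  (.s k20 k40 5 (.d k36 k24 k52 5 3))), (.s k40 k20 5 (.s k43 k42 0 (.d k3 k23 k22 5 6))), (.s k22
  k3 6 (.s k52 k56 1 (.s k37 k7 4 (.s k15 k26 6 (.d k45 k33 k30 1 4)))))] .n) .n))) (.c k61 (.q k41
  [(.s k40 k20 5 (.s k43 k42 0 (.d k3 k23 k22 5 6))), (.s k4 k8 1 (.s k20 k40 5 (.s k36 k52 3 (.s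
  k24 k48 5 (.d k28 k16 k44 1 3))))), (.s k22 k3 6 (.s k28 k44 3 (.s k25 k19 2 (.s k57 k9 3 (.d k51
  k54 k38 2 6)))))] .n) .n))))) (.c k25 (.q k60 [(.s k8 k4 1 (.s k40 k20 5 (.s k24 k56 3 (.s k36 k48
  5 (.d k44 k32 k28 1 3))))), (.s k40 k20 5 (.s k42 k21 6 (.s k41 k43 0 (.s k22 k3 6 (.d k62 k61 k2
  0 5))))), (.s k28 k44 3 (.s k29 k46 4 (.s k30 k31 0 (.s k45 k15 4 (.d k61 k62 k13 0 3)))))] .n)
  (.c k29 (.q k60 [(.s k4 k8 1 (.s k20 k40 5 (.s k36 k52 3 (.s k24 k48 5 (.d k28 k16 k44 1 3))))),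
  (.s k40 k20 5 (.s k42 k21 6 (.s k41 k43 0 (.s k22 k3 6 (.d k62 k61 k2 0 5))))), (.s k8 k4 1 (.s
  k42 k21 6 (.s k25 k59 4 (.s k28 k44 3 (.s k22 k19 2 (.d k62 k61 k2 0 5))))))] .n) (.c k38 (.q k60
  [(.s k4 k8 1 (.s k20 k40 5 (.s k36 k52 3 (.s k24 k48 5 (.d k28 k16 k44 1 3))))), (.s k28 k44 3 (.s
  k29 k46 4 (.s k30 k31 0 (.s k45 k15 4 (.d k61 k62 k13 0 3))))), (.s k40 k20 5 (.s k42 k21 6 (.s
  k41 k43 0 (.s k22 k3 6 (.d k62 k61 k2 0 5)))))] .n) (.c k42 (.q k60 [(.s k8 k4 1 (.s k40 k20 5 (.s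
  k24 k56 3 (.s k36 k48 5 (.d k44 k32 k28 1 3))))), (.s k28 k44 3 (.s k29 k46 4 (.s k30 k31 0 (.s
  k45 k15 4 (.d k61 k62 k13 0 3)))))] (.c k28 (.q k170 [(.s k8 k4 1 (.s k85 k255 14 (.s k89 k251 12
  (.s k243 k166 14 (.d k81 k93 k162 1 12))))), (.s k20 k40 5 (.s k85 k255 14 (.s k150 k215 8 (.s
  k195 k105 14 (.d k130 k190 k65 5 8))))), (.s k8 k4 1 (.s k40 k20 5 (.s k89 k251 12 (.s k105 k235 8
  (.s k73 k121 3 (.d k195 k134 k150 10 14))))))] .n) (.c k44 (.q k170 [(.s k4 k8 1 (.s k85 k255 14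
  (.s k166 k247 12 (.s k243 k89 14 (.d k162 k174 k81 1 12))))), (.s k20 k40 5 (.s k85 k255 14 (.s
  k150 k215 8 (.s k130 k190 5 (.d k195 k65 k105 8 14))))), (.s k8 k4 1 (.s k40 k20 5 (.s k89 k251 12
  (.s k105 k235 8 (.s k73 k121 3 (.d k195 k134 k150 10 14))))))] .n) (.c k170 (.q k234 [(.s k8 k4 1
  (.s k40 k20 5 (.s k24 k56 3 (.s k36 k48 5 (.d k44 k32 k28 1 3))))), (.s k28 k44 3 (.s k29 k46 4
  (.s k30 k31 0 (.s k45 k15 4 (.d k61 k62 k13 0 3)))))] (.c k28 (.q k48 [(.s k8 k4 1 (.s k40 k20 5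
  (.d k24 k36 k56 5 3))), (.s k52 k56 1 (.s k53 k58 2 (.s k54 k55 0 (.s k57 k51 2 (.d k61 k62 k49 0
  1)))))] (.c k52 (.l (.s k8 k4 1 (.s k58 k53 2 (.s k62 k61 0 (.s k54 k50 1 (.s k57 k51 2 (.s k56
  k59 0 (.d k40 k20 k24 5 3)))))))) (.c k56 (.l (.s k4 k8 1 (.s k53 k58 2 (.s k61 k62 0 (.s k57 k49
  1 (.s k54 k51 2 (.s k52 k55 0 (.d k20 k40 k36 5 3)))))))) .n))) (.c k44 (.q k48 [(.s k8 k4 1 (.s
  k40 k20 5 (.d k24 k36 k56 5 3))), (.s k52 k56 1 (.s k53 k58 2 (.s k54 k55 0 (.s k57 k51 2 (.d k61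
  k62 k49 0 1)))))] (.c k52 (.l (.s k8 k4 1 (.s k58 k53 2 (.s k62 k61 0 (.s k54 k50 1 (.s k57 k51 2
  (.s k56 k59 0 (.d k40 k20 k24 5 3)))))))) (.c k56 (.l (.s k4 k8 1 (.s k53 k58 2 (.s k61 k62 0 (.s
  k57 k49 1 (.s k54 k51 2 (.s k52 k55 0 (.d k20 k40 k36 5 3)))))))) .n))) .n))) (.c k234 (.q k170
  [(.s k8 k4 1 (.s k40 k20 5 (.s k24 k56 3 (.s k36 k48 5 (.d k44 k32 k28 1 3))))), (.s k20 k40 5 (.s
  k85 k255 14 (.s k150 k215 8 (.s k195 k105 14 (.d k130 k190 k65 5 8))))), (.s k4 k8 1 (.s k85 k255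
  14 (.s k166 k247 12 (.s k243 k89 14 (.d k162 k174 k81 1 12)))))] .n) .n))))) (.c k46 (.f k42 k21 6
  (.q k41 [(.s k40 k43 0 (.s k60 k20 5 (.s k22 k3 6 (.d k62 k61 k2 0 5)))), (.s k8 k4 1 (.s k25 k59
  4 (.s k9 k57 3 (.s k3 k6 2 (.s k22 k60 6 (.s k19 k28 2 (.d k51 k38 k35 6 3))))))), (.s k8 k4 1 (.s
  k25 k59 4 (.s k9 k57 3 (.s k3 k6 2 (.d k43 k40 k23 0 5)))))] (.c k3 (.l (.s k4 k8 1 (.s k40 k43 0
  (.s k20 k60 5 (.s k36 k52 3 (.s k48 k24 5 (.d k32 k44 k16 1 3))))))) (.c k166 (.q k226 [(.s k40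
  k43 0 (.s k60 k20 5 (.s k22 k3 6 (.d k62 k61 k2 0 5)))), (.s k8 k4 1 (.s k25 k59 4 (.s k9 k57 3
  (.s k3 k6 2 (.s k22 k60 6 (.s k19 k28 2 (.d k51 k38 k35 6 3))))))), (.s k8 k4 1 (.s k25 k59 4 (.s
  k9 k57 3 (.s k3 k6 2 (.d k43 k40 k23 0 5)))))] (.c k3 (.l (.s k4 k8 1 (.s k40 k43 0 (.s k20 k60 5
  (.s k36 k52 3 (.s k48 k24 5 (.d k32 k44 k16 1 3))))))) .n)) (.c k226 (.q k166 [(.s k40 k43 0 (.s
  k60 k20 5 (.s k22 k3 6 (.d k62 k61 k2 0 5)))), (.s k4 k8 1 (.s k85 k247 12 (.s k170 k255 14 (.s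
  k243 k89 14 (.d k162 k174 k81 1 12)))))] .n) .n))))) (.c k51 (.q k60 [(.s k4 k8 1 (.s k20 k40 5
  (.s k36 k52 3 (.s k28 k44 3 (.d k24 k16 k48 1 5))))), (.s k40 k20 5 (.s k42 k21 6 (.s k41 k43 0
  (.s k22 k3 6 (.d k62 k61 k2 0 5))))), (.s k28 k44 3 (.s k29 k46 4 (.s k30 k31 0 (.s k45 k15 4 (.d
  k61 k62 k13 0 3)))))] .n) (.c k55 (.l (.s k8 k4 1 (.s k46 k29 4 (.s k42 k21 6 (.s k38 k34 1 (.d
  k25 k59 k51 4 6)))))) (.c k59 (.l (.s k4 k8 1 (.s k29 k46 4 (.s k21 k42 6 (.s k25 k17 1 (.d k38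
  k55 k51 4 6)))))) .n))))))))))))

def t2 : T TT 256 :=
  (.q k12 [(.s k8 k4 1 (.s k42 k21 6 (.s k25 k59 4 (.s k38 k51 6 (.d k46 k34 k29 1 4))))), (.s k4 k8
  1 (.s k21 k42 6 (.s k38 k55 4 (.s k25 k51 6 (.d k29 k17 k46 1 4)))))] (.c k4 (.q k5 [(.s k15 k10 2
  (.s k14 k13 0 (.s k46 k29 4 (.s k47 k31 3 (.s k45 k44 0 (.d k30 k62 k60 3 4)))))), (.s k21 k42 6
  (.s k37 k53 3 (.s k29 k46 4 (.s k25 k17 1 (.s k13 k49 5 (.s k1 k9 1 (.d k61 k45 k41 3 5))))))),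
  (.s k15 k10 2 (.s k21 k42 6 (.s k37 k53 3 (.s k26 k48 6 (.d k31 k16 k47 2 3)))))] (.c k62 (.l (.s
  k15 k10 2 (.s k29 k46 4 (.s k31 k47 3 (.s k30 k28 0 (.s k45 k60 4 (.d k13 k14 k61 0 3))))))) .n))
  (.c k8 (.q k5 [(.s k15 k10 2 (.s k14 k13 0 (.s k46 k29 4 (.s k47 k31 3 (.s k45 k44 0 (.d k30 k62
  k60 3 4)))))), (.s k21 k42 6 (.s k37 k53 3 (.s k29 k46 4 (.s k25 k17 1 (.s k13 k49 5 (.d k15 k14
  k10 0 2)))))), (.s k15 k10 2 (.s k21 k42 6 (.s k37 k53 3 (.s k26 k48 6 (.d k31 k16 k47 2 3))))),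
  (.s k21 k42 6 (.s k37 k53 3 (.s k29 k46 4 (.s k25 k17 1 (.s k13 k49 5 (.s k61 k45 3 (.d k1 k9 k41
  1 5)))))))] (.c k62 (.l (.s k15 k10 2 (.s k29 k46 4 (.s k31 k47 3 (.s k30 k28 0 (.s k45 k60 4 (.d
  k13 k14 k61 0 3))))))) .n)) (.c k21 (.q k170 [(.s k4 k8 1 (.s k85 k255 14 (.s k166 k247 12 (.s
  k162 k174 1 (.d k243 k81 k89 12 14))))), (.s k255 k85 14 (.s k29 k46 4 (.s k93 k174 12 (.s k157
  k221 7 (.s k110 k204 12 (.d k127 k76 k191 4 7))))))] (.c k85 (.f k8 k4 1 (.l (.s k89 k251 12 (.s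
  k29 k46 4 (.s k166 k243 14 (.s k149 k209 9 (.s k128 k191 6 (.s k132 k183 4 (.d k192 k64 k72 7
  9))))))))) (.c k166 (.l (.s k255 k85 14 (.s k46 k29 4 (.s k174 k93 12 (.s k110 k238 7 (.s k157
  k204 12 (.d k191 k127 k140 7 4))))))) (.c k174 (.l (.s k8 k4 1 (.s k85 k255 14 (.s k89 k251 12 (.s
  k243 k166 14 (.d k81 k93 k162 1 12)))))) (.c k255 (.f k8 k4 1 (.l (.s k89 k251 12 (.s k29 k46 4
  (.s k149 k209 9 (.s k128 k191 6 (.s k192 k64 7 (.s k132 k72 9 (.d k166 k243 k183 14 4)))))))))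
  .n))))) (.c k25 (.f k8 k4 1 (.q k255 [(.s k170 k85 14 (.s k89 k251 12 (.s k166 k243 14 (.d k174
  k162 k93 1 12)))), (.s k46 k29 4 (.s k174 k93 12 (.s k110 k238 7 (.s k157 k204 12 (.d k191 k140
  k127 4 7))))), (.s k170 k85 14 (.s k89 k251 12 (.s k29 k46 4 (.s k149 k209 9 (.d k191 k127 k128 7
  6)))))] (.c k127 (.l (.s k85 k170 14 (.s k29 k46 4 (.s k93 k174 12 (.s k89 k81 1 (.s k149 k209 9
  (.d k21 k42 k213 6 7))))))) .n))) (.c k29 (.q k5 [(.s k4 k8 1 (.s k15 k10 2 (.s k6 k7 0 (.s k9 k3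
  2 (.d k13 k14 k1 0 1))))), (.s k15 k10 2 (.s k21 k42 6 (.s k37 k53 3 (.s k26 k48 6 (.d k31 k16 k47
  2 3))))), (.s k4 k8 1 (.s k21 k42 6 (.s k6 k7 0 (.s k38 k55 4 (.s k22 k54 3 (.s k23 k20 0 (.d k3
  k9 k43 2 5)))))))] (.c k6 (.l (.s k15 k10 2 (.s k14 k13 0 (.s k21 k42 6 (.s k37 k53 3 (.s k26 k48
  6 (.d k31 k16 k47 2 3))))))) .n)) (.c k38 (.q k255 [(.s k46 k29 4 (.s k174 k93 12 (.s k110 k238 7
  (.s k157 k204 12 (.d k191 k140 k127 4 7))))), (.s k4 k8 1 (.s k85 k170 14 (.s k166 k247 12 (.s k89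
  k243 14 (.d k93 k81 k174 1 12))))), (.s k8 k4 1 (.s k170 k85 14 (.s k89 k251 12 (.s k29 k46 4 (.s
  k149 k209 9 (.d k191 k127 k128 7 6))))))] .n) (.c k42 (.q k170 [(.s k8 k4 1 (.s k85 k255 14 (.s
  k89 k251 12 (.s k243 k166 14 (.d k81 k93 k162 1 12))))), (.s k255 k85 14 (.s k29 k46 4 (.s k93
  k174 12 (.s k157 k221 7 (.s k110 k204 12 (.d k127 k76 k191 4 7)))))), (.s k4 k8 1 (.s k85 k255 14
  (.s k166 k247 12 (.s k243 k89 14 (.d k162 k174 k81 1 12)))))] (.c k22 (.q k62 [(.s k8 k4 1 (.s k85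
  k255 14 (.s k89 k251 12 (.s k243 k166 14 (.d k81 k93 k162 1 12))))), (.s k46 k29 4 (.s k30 k14 3
  (.s k60 k61 0 (.s k44 k28 3 (.d k45 k47 k15 0 4)))))] (.c k46 (.l (.s k4 k8 1 (.s k85 k255 14 (.s
  k166 k247 12 (.s k243 k89 14 (.d k162 k174 k81 1 12)))))) .n)) (.c k62 (.q k22 [(.s k8 k4 1 (.s
  k85 k255 14 (.s k89 k251 12 (.s k243 k166 14 (.d k81 k93 k162 1 12))))), (.s k255 k85 14 (.s k29
  k46 4 (.s k93 k174 12 (.s k157 k221 7 (.s k110 k204 12 (.d k127 k76 k191 4 7)))))), (.s k4 k8 1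
  (.s k85 k255 14 (.s k166 k247 12 (.s k243 k89 14 (.d k162 k174 k81 1 12)))))] (.c k85 (.f k8 k4 1
  (.l (.s k89 k251 12 (.s k29 k46 4 (.s k166 k243 14 (.s k149 k209 9 (.s k128 k191 6 (.s k132 k183 4
  (.d k192 k64 k72 7 9))))))))) (.c k150 (.q k194 [(.s k4 k8 1 (.s k85 k255 14 (.s k166 k247 12 (.s
  k162 k174 1 (.d k243 k81 k89 12 14))))), (.s k255 k85 14 (.s k29 k46 4 (.s k93 k174 12 (.s k157
  k221 7 (.s k110 k204 12 (.d k127 k76 k191 4 7))))))] (.c k85 (.f k8 k4 1 (.l (.s k89 k251 12 (.s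
  k29 k46 4 (.s k166 k243 14 (.s k149 k209 9 (.s k128 k191 6 (.s k132 k183 4 (.d k192 k64 k72 7
  9))))))))) (.c k166 (.l (.s k255 k85 14 (.s k46 k29 4 (.s k174 k93 12 (.s k110 k238 7 (.s k157
  k204 12 (.d k191 k127 k140 7 4))))))) (.c k174 (.l (.s k8 k4 1 (.s k85 k255 14 (.s k89 k251 12 (.s
  k243 k166 14 (.d k81 k93 k162 1 12)))))) (.c k255 (.f k8 k4 1 (.l (.s k89 k251 12 (.s k29 k46 4
  (.s k149 k209 9 (.s k128 k191 6 (.s k192 k64 7 (.s k132 k72 9 (.d k166 k243 k183 14 4)))))))))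
  .n))))) (.c k166 (.l (.s k255 k85 14 (.s k46 k29 4 (.s k174 k93 12 (.s k110 k238 7 (.s k157 k204
  12 (.d k191 k127 k140 7 4))))))) (.c k194 (.q k150 [(.s k85 k255 14 (.s k20 k215 8 (.s k60 k40 5
  (.s k23 k21 0 (.d k3 k43 k41 5 6))))), (.s k4 k8 1 (.s k130 k190 5 (.s k195 k65 8 (.s k134 k73 10
  (.s k69 k199 8 (.d k138 k142 k207 1 10))))))] (.c k66 (.l (.s k130 k190 5 (.s k195 k65 8 (.s k85
  k255 14 (.s k20 k215 8 (.d k60 k40 k105 5 14)))))) (.c k130 (.q k66 [(.s k85 k255 14 (.s k20 k215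
  8 (.s k60 k40 5 (.s k23 k21 0 (.d k3 k43 k41 5 6))))), (.s k4 k8 1 (.s k85 k255 14 (.s k166 k247
  12 (.s k243 k89 14 (.d k162 k174 k81 1 12))))), (.s k8 k4 1 (.s k89 k251 12 (.s k28 k211 10 (.s
  k60 k44 3 (.s k40 k20 5 (.d k105 k235 k195 8 14))))))] .n) (.c k195 (.l (.s k4 k8 1 (.s k85 k255
  14 (.s k166 k247 12 (.s k243 k89 14 (.d k162 k174 k81 1 12)))))) .n)))) (.c k255 (.q k150 [(.s k8
  k4 1 (.s k89 k251 12 (.s k28 k211 10 (.s k60 k44 3 (.s k40 k20 5 (.d k105 k235 k195 8 14)))))),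
  (.s k4 k8 1 (.s k130 k190 5 (.s k195 k65 8 (.s k134 k73 10 (.s k69 k199 8 (.d k138 k142 k207 1
  10)))))), (.s k130 k190 5 (.s k195 k65 8 (.s k134 k73 10 (.s k166 k182 3 (.s k243 k89 14 (.d k162
  k174 k81 1 12)))))), (.s k8 k4 1 (.s k89 k251 12 (.s k29 k46 4 (.s k28 k211 10 (.s k25 k19 2 (.s
  k17 k21 1 (.d k51 k34 k38 4 6)))))))] .n) .n)))))) (.c k85 (.f k8 k4 1 (.l (.s k89 k251 12 (.s k29
  k46 4 (.s k166 k243 14 (.s k149 k209 9 (.s k128 k191 6 (.s k132 k183 4 (.d k192 k64 k72 7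
  9))))))))) (.c k166 (.l (.s k255 k85 14 (.s k46 k29 4 (.s k174 k93 12 (.s k110 k238 7 (.s k157
  k204 12 (.d k191 k127 k140 7 4))))))) (.c k255 (.f k8 k4 1 (.l (.s k89 k251 12 (.s k29 k46 4 (.s
  k149 k209 9 (.s k128 k191 6 (.s k192 k64 7 (.s k132 k72 9 (.d k166 k243 k183 14 4)))))))))
  .n)))))) (.c k46 (.q k5 [(.s k4 k8 1 (.s k15 k10 2 (.s k6 k7 0 (.s k9 k3 2 (.d k13 k14 k1 0
  1))))), (.s k15 k10 2 (.s k21 k42 6 (.s k37 k53 3 (.s k26 k48 6 (.d k31 k16 k47 2 3))))), (.s k4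
  k8 1 (.s k21 k42 6 (.s k6 k7 0 (.s k38 k55 4 (.s k22 k54 3 (.s k23 k20 0 (.d k3 k9 k43 2 5)))))))]
  (.c k6 (.l (.s k15 k10 2 (.s k14 k13 0 (.s k21 k42 6 (.s k37 k53 3 (.s k26 k48 6 (.d k31 k16 k47 2
  3))))))) (.c k166 (.q k226 [(.s k4 k8 1 (.s k15 k10 2 (.s k6 k7 0 (.s k9 k3 2 (.d k13 k14 k1 0
  1))))), (.s k15 k10 2 (.s k21 k42 6 (.s k37 k53 3 (.s k26 k48 6 (.d k31 k16 k47 2 3))))), (.s k4
  k8 1 (.s k21 k42 6 (.s k6 k7 0 (.s k38 k55 4 (.s k22 k54 3 (.s k23 k20 0 (.d k3 k9 k43 2 5)))))))]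
  (.c k6 (.l (.s k15 k10 2 (.s k14 k13 0 (.s k21 k42 6 (.s k37 k53 3 (.s k26 k48 6 (.d k31 k16 k47 2
  3))))))) .n)) (.c k226 (.q k166 [(.s k4 k8 1 (.s k15 k10 2 (.s k6 k7 0 (.s k9 k3 2 (.d k13 k14 k1
  0 1))))), (.s k4 k8 1 (.s k85 k247 12 (.s k170 k255 14 (.s k243 k89 14 (.d k162 k174 k81 1
  12))))), (.s k15 k10 2 (.s k21 k42 6 (.s k37 k53 3 (.s k26 k48 6 (.d k31 k16 k47 2 3)))))] .n)
  .n)))) (.c k51 (.q k255 [(.s k46 k29 4 (.s k174 k93 12 (.s k110 k238 7 (.s k157 k204 12 (.d k191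
  k140 k127 4 7))))), (.s k4 k8 1 (.s k85 k170 14 (.s k166 k247 12 (.s k89 k243 14 (.d k93 k81 k174
  1 12))))), (.s k8 k4 1 (.s k170 k85 14 (.s k89 k251 12 (.s k29 k46 4 (.s k149 k209 9 (.d k191 k127
  k128 7 6))))))] .n) (.c k55 (.l (.s k8 k4 1 (.s k46 k29 4 (.s k42 k21 6 (.s k38 k34 1 (.d k25 k59
  k51 4 6)))))) (.c k59 (.l (.s k4 k8 1 (.s k29 k46 4 (.s k21 k42 6 (.s k25 k17 1 (.d k38 k55 k51 4
  6)))))) .n))))))))))))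

def t3 : T TT 256 :=
  (.q k15 [(.s k10 k5 2 (.s k47 k31 3 (.s k42 k21 6 (.s k37 k32 2 (.d k26 k58 k48 3 6)))))] (.c k5
  (.q k8 [(.s k12 k4 1 (.s k46 k29 4 (.s k42 k21 6 (.s k38 k34 1 (.d k25 k59 k51 4 6))))), (.s k12
  k4 1 (.s k13 k14 0 (.s k29 k46 4 (.s k45 k61 3 (.s k30 k60 4 (.d k31 k28 k47 0 3)))))), (.s k42
  k21 6 (.s k25 k59 4 (.s k47 k31 3 (.s k37 k32 2 (.s k13 k49 5 (.d k12 k14 k4 0 1))))))] (.c k4 (.f
  k42 k21 6 (.l (.s k25 k59 4 (.s k47 k31 3 (.s k37 k32 2 (.s k13 k49 5 (.s k12 k14 0 (.s k38 k51 6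
  (.d k46 k34 k29 1 4))))))))) (.c k12 (.f k42 k21 6 (.l (.s k59 k25 4 (.s k47 k31 3 (.s k37 k32 2
  (.s k51 k55 1 (.s k39 k27 5 (.s k38 k36 0 (.d k34 k17 k46 4 1))))))))) .n))) (.c k10 (.q k16 [(.s
  k31 k47 3 (.d k21 k26 k42 2 6)), (.s k32 k48 3 (.s k42 k21 6 (.d k47 k37 k31 2 3)))] (.c k21 (.q
  k170 [(.s k48 k32 3 (.s k85 k255 14 (.s k154 k223 10 (.s k138 k186 3 (.d k207 k69 k101 10 14))))),
  (.s k32 k48 3 (.s k47 k31 3 (.s k37 k42 2 (.s k101 k239 10 (.s k165 k229 7 (.s k240 k90 14 (.d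
  k160 k175 k80 2 11))))))), (.s k255 k85 14 (.s k31 k47 3 (.s k95 k175 11 (.s k159 k223 7 (.s k111
  k207 11 (.d k127 k79 k191 3 7))))))] (.c k239 (.l (.s k48 k32 3 (.s k85 k255 14 (.s k154 k223 10
  (.s k207 k101 14 (.d k138 k186 k69 3 10)))))) .n)) (.c k31 (.q k170 [(.s k48 k32 3 (.s k85 k255 14
  (.s k154 k223 10 (.s k138 k186 3 (.d k207 k69 k101 10 14))))), (.s k32 k48 3 (.s k42 k21 6 (.s k37
  k47 2 (.s k101 k239 10 (.s k165 k229 7 (.s k240 k90 14 (.d k160 k175 k80 2 11))))))), (.s k21 k42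
  6 (.s k85 k255 14 (.s k154 k223 10 (.s k149 k213 7 (.s k138 k186 3 (.s k207 k69 10 (.d k159 k144
  k111 2 11)))))))] (.c k48 (.l (.s k21 k42 6 (.s k85 k255 14 (.s k154 k223 10 (.s k149 k213 7 (.s
  k159 k144 2 (.s k207 k111 11 (.d k138 k186 k69 3 10)))))))) (.c k239 (.l (.s k48 k32 3 (.s k85
  k255 14 (.s k154 k223 10 (.s k207 k101 14 (.d k138 k186 k69 3 10)))))) .n))) (.c k42 (.l (.s k31
  k47 3 (.s k26 k21 2 (.d k48 k32 k37 3 6)))) (.c k47 (.l (.s k21 k42 6 (.s k26 k31 2 (.d k48 k32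
  k37 3 6)))) .n))))) (.c k16 (.l (.s k10 k5 2 (.s k42 k21 6 (.s k26 k58 3 (.s k37 k48 6 (.d k47 k31
  k32 3 2)))))) (.c k21 (.q k170 [(.s k5 k10 2 (.s k85 k255 14 (.s k165 k245 11 (.s k160 k175 2 (.d
  k240 k80 k90 11 14))))), (.s k255 k85 14 (.s k31 k47 3 (.s k95 k175 11 (.s k159 k223 7 (.s k111
  k207 11 (.d k127 k79 k191 3 7))))))] (.c k85 (.f k10 k5 2 (.l (.s k90 k250 11 (.s k31 k47 3 (.s
  k165 k240 14 (.s k149 k208 10 (.s k128 k191 6 (.s k133 k181 3 (.d k192 k64 k74 7 10))))))))) (.c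
  k165 (.l (.s k255 k85 14 (.s k47 k31 3 (.s k175 k95 11 (.s k111 k239 7 (.s k159 k207 11 (.d k191
  k127 k143 7 3))))))) (.c k175 (.l (.s k10 k5 2 (.s k85 k255 14 (.s k90 k250 11 (.s k240 k165 14
  (.d k80 k95 k160 2 11)))))) (.c k255 (.f k10 k5 2 (.l (.s k90 k250 11 (.s k31 k47 3 (.s k149 k208
  10 (.s k128 k191 6 (.s k192 k64 7 (.s k133 k74 10 (.d k165 k240 k181 14 3))))))))) .n))))) (.c k26
  (.q k8 [(.s k12 k4 1 (.s k46 k29 4 (.s k42 k21 6 (.s k38 k34 1 (.d k25 k59 k51 4 6))))), (.s k12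
  k4 1 (.s k14 k13 0 (.s k46 k29 4 (.s k30 k62 3 (.s k45 k60 4 (.d k47 k44 k31 0 3)))))), (.s k10 k5
  2 (.s k42 k21 6 (.s k11 k9 0 (.s k59 k25 4 (.s k27 k43 3 (.d k51 k55 k39 1 5))))))] (.c k12 (.l
  (.s k10 k5 2 (.s k42 k21 6 (.s k59 k25 4 (.s k51 k55 1 (.s k27 k39 5 (.d k11 k9 k43 0 3))))))) (.c
  k29 (.l (.s k12 k4 1 (.s k42 k21 6 (.s k25 k59 4 (.s k13 k14 0 (.s k37 k49 5 (.d k47 k31 k32 3
  2))))))) (.c k31 (.l (.s k12 k4 1 (.s k5 k10 2 (.s k13 k14 0 (.s k1 k9 1 (.s k29 k46 4 (.s k61 k45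
  3 (.d k21 k42 k41 6 5)))))))) .n)))) (.c k31 (.f k10 k5 2 (.q k165 [(.s k90 k240 14 (.s k170 k250
  11 (.s k175 k160 2 (.d k255 k95 k85 11 14)))), (.s k42 k21 6 (.s k26 k58 3 (.s k90 k240 14 (.s
  k154 k218 7 (.s k143 k176 6 (.s k207 k79 7 (.d k48 k37 k101 6 14))))))), (.s k21 k42 6 (.s k240
  k90 14 (.s k160 k80 11 (.s k170 k175 2 (.s k85 k255 14 (.s k149 k213 7 (.d k181 k122 k133 10
  3)))))))] (.c k90 (.f k42 k21 6 (.l (.s k26 k58 3 (.s k37 k48 6 (.s k32 k47 2 (.s k101 k229 7 (.s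
  k170 k239 10 (.s k255 k85 14 (.d k175 k95 k160 11 2))))))))) (.c k240 (.f k42 k21 6 (.l (.s k26
  k58 3 (.s k37 k48 6 (.s k32 k47 2 (.s k101 k229 7 (.s k170 k239 10 (.s k255 k85 14 (.d k175 k160
  k95 2 11))))))))) .n)))) (.c k32 (.l (.s k5 k10 2 (.s k21 k42 6 (.s k37 k53 3 (.s k26 k48 6 (.d
  k31 k47 k16 3 2)))))) (.c k37 (.q k8 [(.s k12 k4 1 (.s k46 k29 4 (.s k42 k21 6 (.s k38 k34 1 (.d
  k25 k59 k51 4 6))))), (.s k12 k4 1 (.s k13 k14 0 (.s k29 k46 4 (.s k45 k61 3 (.s k30 k60 4 (.d k31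
  k28 k47 0 3)))))), (.s k42 k21 6 (.s k59 k25 4 (.s k51 k55 1 (.s k27 k39 5 (.s k11 k43 3 (.d k10
  k5 k9 2 0))))))] (.c k4 (.q k170 [(.s k5 k10 2 (.s k85 k255 14 (.s k165 k245 11 (.s k160 k175 2
  (.d k240 k80 k90 11 14))))), (.s k42 k21 6 (.s k255 k85 14 (.s k59 k25 4 (.s k251 k89 12 (.s k123
  k187 7 (.d k243 k247 k183 1 9)))))), (.s k10 k5 2 (.s k11 k9 0 (.s k89 k251 12 (.s k90 k250 11 (.s
  k248 k169 12 (.d k88 k91 k168 0 11))))))] (.c k5 (.l (.s k255 k85 14 (.s k31 k47 3 (.s k95 k175 11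
  (.s k159 k223 7 (.s k111 k207 11 (.d k127 k79 k191 3 7))))))) .n)) (.c k29 (.l (.s k4 k12 1 (.s k5
  k10 2 (.s k21 k42 6 (.s k55 k38 4 (.s k51 k59 1 (.s k39 k27 5 (.d k7 k6 k23 0 3)))))))) .n))) (.c
  k42 (.q k170 [(.s k10 k5 2 (.s k85 k255 14 (.s k90 k250 11 (.s k240 k165 14 (.d k80 k95 k160 2
  11))))), (.s k255 k85 14 (.s k31 k47 3 (.s k95 k175 11 (.s k159 k223 7 (.s k111 k207 11 (.d k127
  k79 k191 3 7)))))), (.s k5 k10 2 (.s k85 k255 14 (.s k165 k245 11 (.s k240 k90 14 (.d k160 k175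
  k80 2 11)))))] (.c k85 (.f k10 k5 2 (.l (.s k90 k250 11 (.s k31 k47 3 (.s k165 k240 14 (.s k149
  k208 10 (.s k128 k191 6 (.s k133 k181 3 (.d k192 k64 k74 7 10))))))))) (.c k165 (.l (.s k255 k85
  14 (.s k47 k31 3 (.s k175 k95 11 (.s k111 k239 7 (.s k159 k207 11 (.d k191 k127 k143 7 3)))))))
  (.c k255 (.f k10 k5 2 (.l (.s k90 k250 11 (.s k31 k47 3 (.s k149 k208 10 (.s k128 k191 6 (.s k192
  k64 7 (.s k133 k74 10 (.d k165 k240 k181 14 3))))))))) .n)))) (.c k47 (.q k165 [(.s k5 k10 2 (.s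
  k85 k245 11 (.s k170 k255 14 (.s k240 k90 14 (.d k160 k175 k80 2 11))))), (.s k5 k10 2 (.s k21 k42
  6 (.s k85 k245 11 (.s k149 k213 7 (.s k133 k181 3 (.s k197 k69 7 (.d k53 k37 k101 3 11))))))), (.s
  k21 k42 6 (.s k240 k90 14 (.s k160 k80 11 (.s k170 k175 2 (.s k85 k255 14 (.s k149 k213 7 (.d k181
  k122 k133 10 3)))))))] (.c k85 (.f k42 k21 6 (.l (.s k10 k5 2 (.s k26 k58 3 (.s k90 k240 14 (.s
  k154 k218 7 (.s k143 k176 6 (.s k207 k79 7 (.d k48 k37 k101 6 14))))))))) (.c k170 (.f k42 k21 6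
  (.l (.s k10 k5 2 (.s k26 k58 3 (.s k90 k240 14 (.s k154 k218 7 (.s k143 k176 6 (.s k207 k79 7 (.d
  k48 k37 k101 6 14))))))))) .n))) (.c k48 (.f k31 k47 3 (.q k165 [(.s k5 k10 2 (.s k85 k245 11 (.s
  k170 k255 14 (.s k240 k90 14 (.d k160 k175 k80 2 11))))), (.s k5 k10 2 (.s k21 k42 6 (.s k90 k240
  14 (.s k149 k208 10 (.s k133 k181 3 (.s k197 k69 7 (.d k53 k37 k101 3 11))))))), (.s k21 k42 6 (.s
  k90 k240 14 (.s k149 k208 10 (.s k85 k213 7 (.s k95 k80 2 (.d k255 k170 k175 14 11)))))), (.s k5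
  k10 2 (.s k21 k42 6 (.s k85 k245 11 (.s k149 k213 7 (.s k133 k181 3 (.s k197 k69 7 (.d k53 k37
  k101 3 11)))))))] (.c k18 (.q k33 [(.s k5 k10 2 (.s k85 k245 11 (.s k170 k255 14 (.s k240 k90 14
  (.d k160 k175 k80 2 11))))), (.s k5 k10 2 (.s k21 k42 6 (.s k37 k53 3 (.s k41 k45 1 (.s k1 k61 5
  (.s k13 k9 1 (.d k49 k17 k25 3 5))))))), (.s k21 k42 6 (.s k90 k240 14 (.s k149 k208 10 (.s k85
  k213 7 (.s k95 k80 2 (.d k255 k170 k175 14 11))))))] (.c k170 (.l (.s k5 k10 2 (.s k85 k245 11 (.s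
  k90 k240 14 (.s k149 k208 10 (.d k21 k42 k213 6 7)))))) .n)) (.c k33 (.q k18 [(.s k5 k10 2 (.s k85
  k245 11 (.s k170 k255 14 (.s k240 k90 14 (.d k160 k175 k80 2 11))))), (.s k5 k10 2 (.s k21 k42 6
  (.s k90 k240 14 (.s k149 k208 10 (.s k133 k181 3 (.s k197 k69 7 (.d k53 k37 k101 3 11))))))), (.s
  k21 k42 6 (.s k90 k240 14 (.s k149 k208 10 (.s k85 k213 7 (.s k95 k80 2 (.d k255 k170 k175 14
  11)))))), (.s k5 k10 2 (.s k21 k42 6 (.s k85 k245 11 (.s k149 k213 7 (.s k133 k181 3 (.s k197 k69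
  7 (.d k53 k37 k101 3 11)))))))] (.c k170 (.l (.s k5 k10 2 (.s k85 k245 11 (.s k90 k240 14 (.s k149
  k208 10 (.d k21 k42 k213 6 7)))))) .n)) (.c k170 (.l (.s k5 k10 2 (.s k85 k245 11 (.s k90 k240 14
  (.s k149 k208 10 (.d k21 k42 k213 6 7)))))) .n))))) (.c k53 (.l (.s k10 k5 2 (.s k47 k31 3 (.s k42
  k21 6 (.s k37 k32 2 (.d k26 k58 k48 3 6)))))) (.c k58 (.l (.s k5 k10 2 (.s k31 k47 3 (.s k21 k42 6
  (.s k26 k16 2 (.d k37 k53 k48 3 6)))))) .n))))))))))))))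

def t5 : T TT 256 :=
  (.q k3 [(.s k1 k2 0 (.s k21 k42 6 (.s k41 k61 5 (.s k22 k60 6 (.d k23 k20 k43 0 5))))), (.s k2 k1
  0 (.s k42 k21 6 (.s k22 k62 5 (.s k41 k60 6 (.d k43 k40 k23 0 5)))))] (.c k1 (.q k51 [(.s k17 k34
  4 (.s k21 k42 6 (.s k25 k29 1 (.s k38 k12 6 (.d k55 k59 k4 1 4))))), (.s k19 k35 3 (.s k23 k43 5
  (.s k27 k31 1 (.s k39 k15 5 (.d k55 k59 k7 1 3))))), (.s k17 k34 4 (.s k21 k42 6 (.s k19 k35 3 (.s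
  k23 k43 5 (.s k16 k18 0 (.d k31 k27 k26 1 2))))))] (.c k9 (.q k13 [(.s k17 k34 4 (.s k21 k42 6 (.s
  k25 k29 1 (.s k38 k12 6 (.d k55 k59 k4 1 4))))), (.s k19 k35 3 (.s k23 k43 5 (.s k27 k31 1 (.s k39
  k15 5 (.d k55 k59 k7 1 3))))), (.s k17 k34 4 (.s k21 k42 6 (.s k19 k35 3 (.s k23 k43 5 (.s k16 k18
  0 (.d k31 k27 k26 1 2))))))] .n) (.c k13 (.q k9 [(.s k21 k42 6 (.s k12 k6 2 (.s k4 k8 1 (.d k38
  k25 k55 6 4)))), (.s k42 k21 6 (.s k43 k23 5 (.s k41 k40 0 (.s k25 k57 3 (.d k59 k55 k8 1 4))))),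
  (.s k12 k6 2 (.s k19 k35 3 (.s k25 k38 6 (.s k41 k57 3 (.d k22 k28 k60 2 6)))))] (.c k25 (.l (.s
  k12 k6 2 (.s k43 k23 5 (.s k59 k55 1 (.s k11 k27 3 (.d k8 k4 k10 1 0)))))) .n)) .n))) (.c k2 (.q
  k51 [(.s k19 k35 3 (.s k23 k43 5 (.s k27 k31 1 (.s k39 k15 5 (.d k55 k59 k7 1 3))))), (.s k17 k34
  4 (.s k21 k42 6 (.s k25 k29 1 (.s k38 k12 6 (.d k55 k59 k4 1 4))))), (.s k17 k34 4 (.s k21 k42 6
  (.s k19 k35 3 (.s k23 k43 5 (.s k25 k29 1 (.d k22 k20 k28 0 2))))))] .n) (.c k21 (.q k51 [(.s k1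
  k2 0 (.s k17 k34 4 (.s k33 k49 3 (.s k18 k48 4 (.d k19 k16 k35 0 3))))), (.s k19 k35 3 (.s k23 k43
  5 (.s k27 k31 1 (.s k39 k15 5 (.d k55 k59 k7 1 3)))))] (.c k16 (.l (.s k2 k1 0 (.s k34 k17 4 (.s
  k18 k50 3 (.s k33 k48 4 (.d k35 k19 k32 3 0)))))) (.c k19 (.q k37 [(.s k1 k2 0 (.s k17 k34 4 (.s
  k33 k49 3 (.s k43 k23 5 (.s k41 k45 1 (.s k40 k42 0 (.d k60 k20 k22 5 6))))))), (.s k23 k43 5 (.s
  k55 k59 1 (.s k7 k39 3 (.s k52 k22 4 (.s k53 k54 0 (.s k48 k58 2 (.d k15 k11 k26 1 6))))))), (.s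
  k34 k17 4 (.s k23 k43 5 (.s k55 k59 1 (.s k39 k7 3 (.s k38 k36 0 (.s k46 k42 1 (.d k12 k29 k25 4
  6))))))), (.s k1 k2 0 (.s k17 k34 4 (.s k49 k33 3 (.s k25 k13 5 (.s k59 k55 1 (.s k8 k42 4 (.d k12
  k4 k38 1 6)))))))] (.c k38 (.l (.s k2 k1 0 (.s k23 k43 5 (.s k55 k59 1 (.s k7 k39 3 (.s k22 k52 4
  (.s k62 k42 5 (.d k60 k61 k41 0 6)))))))) .n)) (.c k35 (.q k53 [(.s k1 k2 0 (.s k17 k34 4 (.s k33
  k49 3 (.d k48 k18 k58 4 2)))), (.s k58 k48 2 (.s k55 k59 1 (.s k54 k52 0 (.s k62 k50 1 (.d k60 k61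
  k57 0 2)))))] (.c k48 (.l (.s k2 k1 0 (.s k34 k17 4 (.s k50 k18 3 (.s k55 k59 1 (.s k54 k52 0 (.s
  k62 k58 1 (.d k60 k61 k57 0 2)))))))) (.c k50 (.l (.s k58 k48 2 (.s k59 k55 1 (.s k57 k56 0 (.s
  k61 k49 1 (.d k60 k62 k54 0 2)))))) (.c k58 (.l (.s k1 k2 0 (.s k17 k34 4 (.s k55 k59 1 (.s k54
  k52 0 (.s k57 k60 2 (.d k49 k33 k61 3 1))))))) .n)))) (.c k37 (.q k53 [(.s k1 k2 0 (.s k17 k34 4
  (.s k33 k49 3 (.d k48 k18 k58 4 2)))), (.s k19 k35 3 (.s k23 k43 5 (.s k27 k31 1 (.s k55 k59 1 (.d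
  k39 k7 k15 3 5)))))] .n) (.c k53 (.q k37 [(.s k1 k2 0 (.s k17 k34 4 (.s k33 k49 3 (.s k18 k48 4
  (.d k19 k16 k35 0 3))))), (.s k19 k35 3 (.s k23 k43 5 (.s k27 k31 1 (.s k39 k15 5 (.d k55 k59 k7 1
  3))))), (.s k1 k2 0 (.s k17 k34 4 (.s k33 k49 3 (.s k43 k23 5 (.s k41 k45 1 (.s k40 k42 0 (.d k60
  k20 k22 5 6)))))))] .n) .n)))))) (.c k22 (.q k51 [(.s k1 k2 0 (.s k17 k34 4 (.s k33 k49 3 (.s k18
  k48 4 (.d k19 k16 k35 0 3))))), (.s k19 k35 3 (.s k23 k43 5 (.s k27 k31 1 (.s k39 k15 5 (.d k55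
  k59 k7 1 3))))), (.s k17 k34 4 (.s k21 k42 6 (.s k25 k29 1 (.s k38 k12 6 (.d k55 k59 k4 1 4)))))]
  .n) (.c k23 (.q k51 [(.s k1 k2 0 (.s k17 k34 4 (.s k33 k49 3 (.s k18 k48 4 (.d k19 k16 k35 0
  3))))), (.s k17 k34 4 (.s k21 k42 6 (.s k25 k29 1 (.s k38 k12 6 (.d k55 k59 k4 1 4))))), (.s k1 k2
  0 (.s k21 k42 6 (.s k41 k61 5 (.s k35 k19 3 (.s k38 k44 2 (.d k55 k59 k4 1 4))))))] .n) (.c k41
  (.q k51 [(.s k1 k2 0 (.s k17 k34 4 (.s k33 k49 3 (.s k18 k48 4 (.d k19 k16 k35 0 3))))), (.s k17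
  k34 4 (.s k21 k42 6 (.s k25 k29 1 (.s k38 k12 6 (.d k55 k59 k4 1 4))))), (.s k19 k35 3 (.s k23 k43
  5 (.s k27 k31 1 (.s k39 k15 5 (.d k55 k59 k7 1 3)))))] .n) (.c k42 (.q k170 [(.s k1 k2 0 (.s k85
  k255 14 (.s k169 k253 13 (.s k168 k171 0 (.d k252 k84 k86 13 14))))), (.s k255 k85 14 (.s k23 k43
  5 (.s k87 k171 13 (.s k151 k215 7 (.s k107 k195 13 (.d k127 k67 k191 5 7))))))] (.c k85 (.f k2 k1
  0 (.l (.s k86 k254 13 (.s k23 k43 5 (.s k169 k252 14 (.s k149 k212 8 (.s k128 k191 6 (.s k129 k189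
  5 (.d k192 k64 k66 7 8))))))))) (.c k169 (.l (.s k255 k85 14 (.s k43 k23 5 (.s k171 k87 13 (.s
  k107 k235 7 (.s k151 k195 13 (.d k191 k127 k131 7 5))))))) (.c k171 (.l (.s k2 k1 0 (.s k85 k255
  14 (.s k86 k254 13 (.s k252 k169 14 (.d k84 k87 k168 0 13)))))) (.c k255 (.f k2 k1 0 (.l (.s k86
  k254 13 (.s k23 k43 5 (.s k149 k212 8 (.s k128 k191 6 (.s k192 k64 7 (.s k129 k66 8 (.d k169 k252
  k189 14 5))))))))) .n))))) (.c k43 (.f k42 k21 6 (.q k37 [(.s k32 k47 2 (.s k48 k16 3 (.s k26 k15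
  6 (.d k58 k53 k10 2 3)))), (.s k2 k1 0 (.s k22 k62 5 (.s k7 k52 4 (.s k15 k11 1 (.d k47 k32 k31 2
  3))))), (.s k2 k1 0 (.s k22 k62 5 (.s k41 k60 6 (.s k7 k52 4 (.s k15 k11 1 (.s k48 k26 6 (.d k33
  k45 k18 1 4)))))))] (.c k15 (.l (.s k1 k2 0 (.s k32 k47 2 (.s k48 k16 3 (.s k33 k18 4 (.s k17 k49
  3 (.d k34 k35 k51 0 4))))))) (.c k31 (.l (.s k32 k47 2 (.s k48 k16 3 (.s k26 k15 6 (.d k58 k53 k10
  2 3))))) (.c k169 (.q k232 [(.s k32 k47 2 (.s k48 k16 3 (.s k26 k15 6 (.d k58 k53 k10 2 3)))), (.s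
  k2 k1 0 (.s k22 k62 5 (.s k7 k52 4 (.s k15 k11 1 (.d k47 k32 k31 2 3))))), (.s k2 k1 0 (.s k22 k62
  5 (.s k41 k60 6 (.s k7 k52 4 (.s k15 k11 1 (.s k48 k26 6 (.d k33 k45 k18 1 4)))))))] (.c k15 (.l
  (.s k1 k2 0 (.s k32 k47 2 (.s k48 k16 3 (.s k33 k18 4 (.s k17 k49 3 (.d k34 k35 k51 0 4))))))) (.c
  k31 (.l (.s k32 k47 2 (.s k48 k16 3 (.s k26 k15 6 (.d k58 k53 k10 2 3))))) .n))) (.c k232 (.q k169
  [(.s k32 k47 2 (.s k48 k16 3 (.s k26 k15 6 (.d k58 k53 k10 2 3)))), (.s k1 k2 0 (.s k85 k253 13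
  (.s k170 k255 14 (.s k252 k86 14 (.d k168 k171 k84 0 13)))))] .n) .n)))))) (.c k60 (.q k51 [(.s k1
  k2 0 (.s k17 k34 4 (.s k33 k49 3 (.s k19 k35 3 (.d k18 k16 k48 0 4))))), (.s k17 k34 4 (.s k21 k42
  6 (.s k25 k29 1 (.s k38 k12 6 (.d k55 k59 k4 1 4))))), (.s k19 k35 3 (.s k23 k43 5 (.s k27 k31 1
  (.s k39 k15 5 (.d k55 k59 k7 1 3)))))] .n) (.c k61 (.l (.s k2 k1 0 (.s k43 k23 5 (.s k42 k21 6 (.s
  k41 k40 0 (.d k22 k62 k60 5 6)))))) (.c k62 (.l (.s k1 k2 0 (.s k23 k43 5 (.s k21 k42 6 (.s k22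
  k20 0 (.d k41 k61 k60 5 6)))))) .n))))))))))))

def t6 : T TT 256 :=
  (.q k12 [(.s k4 k8 1 (.s k21 k42 6 (.s k38 k55 4 (.s k25 k51 6 (.d k29 k17 k46 1 4))))), (.s k8 k4
  1 (.s k42 k21 6 (.s k25 k59 4 (.s k38 k51 6 (.d k46 k34 k29 1 4)))))] (.c k4 (.q k15 [(.s k42 k21
  6 (.s k47 k31 3 (.s k37 k32 2 (.s k26 k48 6 (.d k10 k5 k58 2 3))))), (.s k14 k13 0 (.s k46 k29 4
  (.s k30 k62 3 (.s k45 k60 4 (.d k47 k44 k31 0 3))))), (.s k5 k10 2 (.s k21 k42 6 (.s k37 k53 3 (.s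
  k29 k46 4 (.s k25 k17 1 (.d k13 k14 k49 0 5))))))] (.c k5 (.q k7 [(.s k3 k11 1 (.s k23 k43 5 (.s
  k39 k55 3 (.s k27 k51 5 (.d k31 k19 k47 1 3))))), (.s k13 k14 0 (.s k29 k46 4 (.s k45 k61 3 (.s
  k30 k60 4 (.d k31 k28 k47 0 3))))), (.s k21 k42 6 (.s k3 k11 1 (.s k1 k2 0 (.s k41 k61 5 (.s k22
  k60 6 (.d k23 k20 k43 0 5))))))] .n) (.c k7 (.l (.s k5 k10 2 (.s k21 k42 6 (.s k37 k53 3 (.s k26
  k48 6 (.d k31 k16 k47 2 3)))))) .n))) (.c k8 (.q k15 [(.s k14 k13 0 (.s k46 k29 4 (.s k30 k62 3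
  (.s k45 k60 4 (.d k47 k44 k31 0 3))))), (.s k10 k5 2 (.s k42 k21 6 (.s k26 k58 3 (.s k37 k48 6 (.d
  k47 k32 k31 2 3))))), (.s k5 k10 2 (.s k21 k42 6 (.s k37 k53 3 (.s k29 k46 4 (.s k25 k17 1 (.d k13
  k14 k49 0 5))))))] .n) (.c k21 (.q k255 [(.s k4 k8 1 (.s k85 k170 14 (.s k166 k247 12 (.s k89 k243
  14 (.d k93 k81 k174 1 12))))), (.s k46 k29 4 (.s k174 k93 12 (.s k110 k238 7 (.s k157 k204 12 (.d
  k191 k140 k127 4 7))))), (.s k8 k4 1 (.s k170 k85 14 (.s k89 k251 12 (.s k29 k46 4 (.s k149 k209 9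
  (.d k191 k127 k128 7 6))))))] .n) (.c k25 (.q k15 [(.s k13 k14 0 (.s k29 k46 4 (.s k45 k61 3 (.s
  k30 k60 4 (.d k31 k28 k47 0 3))))), (.s k10 k5 2 (.s k42 k21 6 (.s k26 k58 3 (.s k37 k48 6 (.d k47
  k32 k31 2 3))))), (.s k10 k5 2 (.s k42 k21 6 (.s k26 k58 3 (.s k14 k13 0 (.s k38 k50 5 (.d k46 k29
  k34 4 1))))))] (.c k10 (.l (.s k14 k13 0 (.s k46 k29 4 (.s k30 k62 3 (.s k45 k60 4 (.d k47 k44 k31
  0 3)))))) (.c k29 (.l (.s k5 k10 2 (.s k21 k42 6 (.s k37 k53 3 (.s k26 k48 6 (.d k31 k16 k47 2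
  3)))))) .n))) (.c k29 (.q k53 [(.s k4 k8 1 (.s k48 k58 2 (.s k32 k16 3 (.s k36 k24 5 (.s k20 k52 3
  (.d k40 k44 k60 1 5)))))), (.s k4 k8 1 (.s k21 k42 6 (.s k55 k38 4 (.s k37 k5 3 (.s k52 k54 0 (.s
  k22 k7 4 (.d k20 k23 k36 0 3))))))), (.s k21 k42 6 (.s k48 k58 2 (.s k16 k32 3 (.s k26 k31 2 (.d
  k37 k5 k15 3 6)))))] .n) (.c k38 (.q k15 [(.s k14 k13 0 (.s k46 k29 4 (.s k30 k62 3 (.s k45 k60 4
  (.d k47 k44 k31 0 3))))), (.s k10 k5 2 (.s k42 k21 6 (.s k26 k58 3 (.s k37 k48 6 (.d k47 k32 k31 2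
  3))))), (.s k10 k5 2 (.s k42 k21 6 (.s k26 k58 3 (.s k13 k14 0 (.s k37 k48 6 (.s k25 k49 5 (.d k8
  k4 k59 1 4)))))))] (.c k22 (.q k54 [(.s k14 k13 0 (.s k46 k29 4 (.s k47 k31 3 (.s k45 k44 0 (.d
  k30 k62 k60 3 4))))), (.s k10 k5 2 (.s k42 k21 6 (.s k26 k58 3 (.s k37 k48 6 (.d k47 k32 k31 2
  3)))))] (.c k31 (.l (.s k4 k8 1 (.s k5 k10 2 (.s k21 k42 6 (.s k53 k37 3 (.s k52 k55 0 (.s k36 k20
  3 (.d k48 k58 k24 2 5)))))))) (.c k47 (.l (.s k10 k5 2 (.s k42 k21 6 (.s k58 k26 3 (.s k14 k13 0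
  (.s k46 k29 4 (.d k62 k50 k30 1 3))))))) .n))) (.c k54 (.q k22 [(.s k42 k21 6 (.s k62 k2 5 (.s k14
  k13 0 (.d k46 k30 k29 3 4)))), (.s k10 k5 2 (.s k42 k21 6 (.s k26 k58 3 (.s k37 k48 6 (.d k47 k32
  k31 2 3))))), (.s k14 k13 0 (.s k46 k29 4 (.s k30 k62 3 (.s k45 k60 4 (.d k47 k44 k31 0 3)))))]
  (.c k62 (.l (.s k5 k10 2 (.s k21 k42 6 (.s k37 k53 3 (.s k26 k48 6 (.d k31 k16 k47 2 3)))))) .n))
  .n))) (.c k42 (.q k170 [(.s k4 k8 1 (.s k85 k255 14 (.s k166 k247 12 (.s k162 k174 1 (.d k243 k81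
  k89 12 14))))), (.s k255 k85 14 (.s k29 k46 4 (.s k93 k174 12 (.s k157 k221 7 (.s k110 k204 12 (.d
  k127 k76 k191 4 7))))))] (.c k85 (.f k8 k4 1 (.l (.s k89 k251 12 (.s k29 k46 4 (.s k166 k243 14
  (.s k149 k209 9 (.s k128 k191 6 (.s k132 k183 4 (.d k192 k64 k72 7 9))))))))) (.c k166 (.l (.s
  k255 k85 14 (.s k46 k29 4 (.s k174 k93 12 (.s k110 k238 7 (.s k157 k204 12 (.d k191 k127 k140 7
  4))))))) (.c k174 (.l (.s k8 k4 1 (.s k85 k255 14 (.s k89 k251 12 (.s k243 k166 14 (.d k81 k93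
  k162 1 12)))))) (.c k255 (.f k8 k4 1 (.l (.s k89 k251 12 (.s k29 k46 4 (.s k149 k209 9 (.s k128
  k191 6 (.s k192 k64 7 (.s k132 k72 9 (.d k166 k243 k183 14 4))))))))) .n))))) (.c k46 (.q k166
  [(.s k4 k8 1 (.s k85 k247 12 (.s k170 k255 14 (.s k243 k89 14 (.d k162 k174 k81 1 12))))), (.s k4
  k8 1 (.s k21 k42 6 (.s k85 k247 12 (.s k149 k213 7 (.s k132 k183 4 (.s k196 k68 7 (.d k55 k38 k102
  4 12))))))), (.s k21 k42 6 (.s k243 k89 14 (.s k162 k81 12 (.s k170 k174 1 (.s k85 k255 14 (.s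
  k149 k213 7 (.d k183 k123 k132 9 4)))))))] (.c k85 (.f k8 k4 1 (.l (.s k42 k21 6 (.s k25 k59 4 (.s
  k89 k243 14 (.s k153 k217 7 (.s k140 k179 6 (.s k204 k76 7 (.d k51 k38 k102 6 14))))))))) (.c k170
  (.f k8 k4 1 (.l (.s k42 k21 6 (.s k25 k59 4 (.s k89 k243 14 (.s k153 k217 7 (.s k140 k179 6 (.s
  k204 k76 7 (.d k51 k38 k102 6 14))))))))) .n))) (.c k51 (.q k53 [(.s k21 k42 6 (.s k48 k58 2 (.s
  k16 k32 3 (.s k26 k31 2 (.d k37 k5 k15 3 6))))), (.s k4 k8 1 (.s k48 k58 2 (.s k32 k16 3 (.s k36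
  k24 5 (.s k20 k52 3 (.d k40 k44 k60 1 5)))))), (.s k4 k8 1 (.s k21 k42 6 (.s k55 k38 4 (.s k37 k5
  3 (.s k52 k54 0 (.s k22 k7 4 (.d k20 k23 k36 0 3)))))))] .n) (.c k55 (.l (.s k8 k4 1 (.s k46 k29 4
  (.s k42 k21 6 (.s k38 k34 1 (.d k25 k59 k51 4 6)))))) (.c k59 (.l (.s k4 k8 1 (.s k29 k46 4 (.s
  k21 k42 6 (.s k25 k17 1 (.d k38 k55 k51 4 6)))))) .n))))))))))))

def t7 : T TT 256 :=
  (.q k12 [(.s k8 k4 1 (.s k46 k29 4 (.s k42 k21 6 (.s k38 k34 1 (.d k25 k59 k51 4 6))))), (.s k4 k8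
  1 (.s k21 k42 6 (.s k38 k55 4 (.s k25 k51 6 (.d k29 k17 k46 1 4)))))] (.c k4 (.q k5 [(.s k15 k10 2
  (.s k21 k42 6 (.s k37 k53 3 (.s k26 k48 6 (.d k31 k16 k47 2 3))))), (.s k15 k10 2 (.s k13 k14 0
  (.s k29 k46 4 (.s k45 k61 3 (.s k30 k60 4 (.d k31 k28 k47 0 3)))))), (.s k21 k42 6 (.s k37 k53 3
  (.s k29 k46 4 (.s k25 k17 1 (.s k13 k49 5 (.s k1 k9 1 (.d k61 k45 k41 3 5)))))))] .n) (.c k8 (.q
  k5 [(.s k15 k10 2 (.s k21 k42 6 (.s k37 k53 3 (.s k26 k48 6 (.d k31 k16 k47 2 3))))), (.s k15 k10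
  2 (.s k13 k14 0 (.s k29 k46 4 (.s k45 k61 3 (.s k30 k60 4 (.d k31 k28 k47 0 3)))))), (.s k21 k42 6
  (.s k37 k53 3 (.s k29 k46 4 (.s k25 k17 1 (.s k13 k49 5 (.d k15 k14 k10 0 2)))))), (.s k21 k42 6
  (.s k37 k53 3 (.s k29 k46 4 (.s k25 k17 1 (.s k13 k49 5 (.s k61 k45 3 (.d k1 k9 k41 1 5)))))))]
  .n) (.c k17 (.l (.s k8 k4 1 (.s k42 k21 6 (.s k25 k59 4 (.s k38 k51 6 (.d k46 k29 k34 4 1))))))
  (.c k21 (.q k60 [(.s k4 k8 1 (.s k20 k40 5 (.s k36 k52 3 (.s k24 k48 5 (.d k28 k16 k44 1 3))))),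
  (.s k28 k44 3 (.s k29 k46 4 (.s k30 k31 0 (.s k45 k15 4 (.d k61 k62 k13 0 3)))))] (.c k16 (.l (.s
  k8 k4 1 (.s k40 k20 5 (.s k24 k56 3 (.s k36 k48 5 (.d k44 k28 k32 3 1)))))) (.c k28 (.q k42 [(.s
  k8 k4 1 (.s k25 k59 4 (.s k38 k51 6 (.d k46 k34 k29 1 4)))), (.s k40 k20 5 (.s k41 k43 0 (.s k22
  k3 6 (.d k62 k61 k2 0 5))))] .n) (.c k44 (.q k42 [(.s k8 k4 1 (.s k46 k29 4 (.s k38 k34 1 (.d k25
  k59 k51 4 6)))), (.s k40 k20 5 (.s k41 k43 0 (.s k22 k3 6 (.d k62 k61 k2 0 5))))] .n) .n)))) (.c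
  k25 (.q k60 [(.s k8 k4 1 (.s k40 k20 5 (.s k24 k56 3 (.s k36 k48 5 (.d k44 k32 k28 1 3))))), (.s
  k40 k20 5 (.s k42 k21 6 (.s k41 k43 0 (.s k22 k3 6 (.d k62 k61 k2 0 5))))), (.s k28 k44 3 (.s k29
  k46 4 (.s k30 k31 0 (.s k45 k15 4 (.d k61 k62 k13 0 3)))))] .n) (.c k29 (.q k60 [(.s k4 k8 1 (.s
  k20 k40 5 (.s k28 k44 3 (.s k24 k16 1 (.d k36 k52 k48 3 5))))), (.s k20 k40 5 (.s k21 k42 6 (.s
  k22 k23 0 (.s k41 k3 6 (.d k61 k62 k1 0 5))))), (.s k4 k8 1 (.s k21 k42 6 (.s k38 k55 4 (.s k44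
  k28 3 (.s k41 k35 2 (.d k61 k62 k1 0 5))))))] .n) (.c k38 (.q k60 [(.s k4 k8 1 (.s k20 k40 5 (.s
  k36 k52 3 (.s k24 k48 5 (.d k28 k16 k44 1 3))))), (.s k28 k44 3 (.s k29 k46 4 (.s k30 k31 0 (.s
  k45 k15 4 (.d k61 k62 k13 0 3))))), (.s k20 k40 5 (.s k21 k42 6 (.s k22 k23 0 (.s k41 k3 6 (.d k61
  k62 k1 0 5)))))] .n) (.c k42 (.q k170 [(.s k8 k4 1 (.s k85 k255 14 (.s k89 k251 12 (.s k243 k166
  14 (.d k81 k93 k162 1 12))))), (.s k255 k85 14 (.s k29 k46 4 (.s k93 k174 12 (.s k157 k221 7 (.s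
  k110 k204 12 (.d k127 k76 k191 4 7)))))), (.s k4 k8 1 (.s k85 k255 14 (.s k166 k247 12 (.s k243
  k89 14 (.d k162 k174 k81 1 12)))))] (.c k85 (.q k127 [(.s k255 k191 7 (.s k93 k174 12 (.s k110 k76
  4 (.s k157 k204 12 (.d k29 k46 k221 4 7))))), (.s k8 k4 1 (.s k89 k251 12 (.s k29 k46 4 (.s k149
  k209 9 (.d k191 k128 k255 6 7))))), (.s k8 k4 1 (.s k89 k251 12 (.s k166 k243 14 (.s k255 k191 7
  (.d k174 k162 k93 1 12)))))] (.c k191 (.l (.s k8 k4 1 (.s k89 k251 12 (.s k46 k29 4 (.s k166 k243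
  14 (.s k174 k162 1 (.s k110 k238 7 (.d k93 k255 k76 12 4)))))))) (.c k255 (.q k60 [(.s k4 k8 1 (.s
  k20 k40 5 (.s k36 k52 3 (.s k28 k44 3 (.d k24 k16 k48 1 5))))), (.s k28 k44 3 (.s k29 k46 4 (.s
  k30 k31 0 (.s k45 k15 4 (.d k61 k62 k13 0 3))))), (.s k8 k4 1 (.s k40 k20 5 (.s k89 k251 12 (.s
  k105 k235 8 (.s k73 k121 3 (.d k195 k150 k134 14 10))))))] .n) .n))) (.c k166 (.l (.s k255 k85 14
  (.s k46 k29 4 (.s k174 k93 12 (.s k110 k238 7 (.s k157 k204 12 (.d k191 k127 k140 7 4))))))) (.c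
  k255 (.q k60 [(.s k8 k4 1 (.s k40 k20 5 (.s k24 k56 3 (.s k36 k48 5 (.d k44 k32 k28 1 3))))), (.s
  k28 k44 3 (.s k29 k46 4 (.s k30 k31 0 (.s k45 k15 4 (.d k61 k62 k13 0 3))))), (.s k8 k4 1 (.s k40
  k20 5 (.s k89 k251 12 (.s k243 k166 14 (.s k105 k235 8 (.d k121 k73 k182 3 10))))))] .n) .n))))
  (.c k46 (.f k42 k21 6 (.q k60 [(.s k62 k61 0 (.s k40 k20 5 (.s k22 k2 5 (.d k41 k43 k3 0 6)))),
  (.s k4 k8 1 (.s k20 k40 5 (.s k28 k44 3 (.s k24 k16 1 (.d k36 k52 k48 3 5))))), (.s k8 k4 1 (.s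
  k25 k59 4 (.s k28 k44 3 (.s k22 k19 2 (.d k62 k61 k2 0 5)))))] (.c k166 (.q k226 [(.s k62 k61 0
  (.s k40 k20 5 (.s k22 k2 5 (.d k41 k43 k3 0 6)))), (.s k4 k8 1 (.s k20 k40 5 (.s k28 k44 3 (.s k24
  k16 1 (.d k36 k52 k48 3 5))))), (.s k8 k4 1 (.s k25 k59 4 (.s k28 k44 3 (.s k22 k19 2 (.d k62 k61
  k2 0 5)))))] .n) (.c k226 (.q k166 [(.s k62 k61 0 (.s k40 k20 5 (.s k22 k2 5 (.d k41 k43 k3 0
  6)))), (.s k4 k8 1 (.s k85 k247 12 (.s k170 k255 14 (.s k243 k89 14 (.d k162 k174 k81 1 12)))))]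
  .n) .n)))) (.c k51 (.q k60 [(.s k4 k8 1 (.s k20 k40 5 (.s k28 k44 3 (.s k24 k16 1 (.d k36 k52 k48
  3 5))))), (.s k20 k40 5 (.s k21 k42 6 (.s k22 k23 0 (.s k41 k3 6 (.d k61 k62 k1 0 5))))), (.s k28
  k44 3 (.s k29 k46 4 (.s k30 k31 0 (.s k45 k15 4 (.d k61 k62 k13 0 3)))))] .n) (.c k55 (.l (.s k8
  k4 1 (.s k46 k29 4 (.s k42 k21 6 (.s k38 k34 1 (.d k25 k59 k51 4 6)))))) (.c k59 (.l (.s k4 k8 1
  (.s k29 k46 4 (.s k21 k42 6 (.s k25 k17 1 (.d k38 k55 k51 4 6)))))) .n)))))))))))))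

def t10 : T TT 256 :=
  (.f k42 k21 6 (.q k60 [(.s k40 k20 5 (.s k41 k43 0 (.s k22 k3 6 (.d k62 k61 k2 0 5)))), (.s k62
  k61 0 (.s k40 k20 5 (.s k22 k2 5 (.d k41 k43 k3 0 6))))] (.c k2 (.q k12 [(.s k8 k4 1 (.s k25 k59 4
  (.s k38 k51 6 (.d k46 k34 k29 1 4)))), (.s k4 k8 1 (.s k20 k40 5 (.s k36 k52 3 (.s k24 k48 5 (.d
  k28 k16 k44 1 3))))), (.s k40 k20 5 (.s k44 k28 3 (.s k46 k29 4 (.s k38 k34 1 (.d k41 k43 k35 0
  2)))))] (.c k6 (.q k14 [(.s k46 k29 4 (.d k62 k61 k30 0 3)), (.s k4 k8 1 (.s k20 k40 5 (.s k36 k52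
  3 (.s k24 k48 5 (.d k28 k16 k44 1 3)))))] .n) (.c k14 (.q k6 [(.s k40 k20 5 (.s k3 k9 2 (.d k41
  k22 k43 6 0))), (.s k8 k4 1 (.s k25 k59 4 (.s k38 k51 6 (.d k46 k34 k29 1 4))))] (.c k8 (.l (.s
  k40 k20 5 (.s k41 k43 0 (.d k3 k22 k9 6 2)))) .n)) .n))) (.c k3 (.q k12 [(.s k46 k29 4 (.s k8 k4 1
  (.s k38 k34 1 (.d k25 k59 k51 4 6)))), (.s k4 k8 1 (.s k20 k40 5 (.s k36 k52 3 (.s k24 k48 5 (.d
  k28 k16 k44 1 3))))), (.s k40 k20 5 (.s k44 k28 3 (.s k46 k29 4 (.s k38 k34 1 (.d k41 k43 k35 0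
  2)))))] .n) (.c k20 (.q k12 [(.s k46 k29 4 (.s k38 k34 1 (.s k25 k51 6 (.d k8 k4 k59 1 4)))), (.s
  k28 k44 3 (.s k29 k46 4 (.s k30 k31 0 (.s k45 k15 4 (.d k61 k62 k13 0 3))))), (.s k8 k4 1 (.s k25
  k59 4 (.s k28 k44 3 (.s k22 k19 2 (.d k62 k61 k2 0 5)))))] (.c k22 (.q k23 [(.s k46 k29 4 (.s k38
  k34 1 (.s k25 k51 6 (.d k8 k4 k59 1 4)))), (.s k28 k44 3 (.s k29 k46 4 (.s k30 k31 0 (.s k45 k15 4
  (.d k61 k62 k13 0 3))))), (.s k8 k4 1 (.s k3 k43 5 (.s k9 k6 2 (.s k25 k59 4 (.s k57 k41 3 (.d k51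
  k54 k38 2 6))))))] .n) (.c k23 (.q k22 [(.d k62 k61 k2 0 5), (.s k8 k4 1 (.s k25 k59 4 (.d k28 k19
  k44 2 3)))] .n) .n))) (.c k22 (.q k12 [(.s k46 k29 4 (.s k8 k4 1 (.s k38 k34 1 (.d k25 k59 k51 4
  6)))), (.s k28 k44 3 (.s k29 k46 4 (.s k30 k31 0 (.s k45 k15 4 (.d k61 k62 k13 0 3))))), (.s k20
  k40 5 (.s k4 k8 1 (.s k36 k52 3 (.s k24 k48 5 (.d k28 k16 k44 1 3)))))] (.c k20 (.q k23 [(.s k46
  k29 4 (.s k38 k34 1 (.s k25 k51 6 (.d k8 k4 k59 1 4)))), (.s k28 k44 3 (.s k29 k46 4 (.s k30 k31 0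
  (.s k45 k15 4 (.d k61 k62 k13 0 3))))), (.s k8 k4 1 (.s k3 k43 5 (.s k9 k6 2 (.s k25 k59 4 (.s k57
  k41 3 (.d k51 k54 k38 2 6))))))] .n) (.c k23 (.l (.s k20 k40 5 (.s k4 k8 1 (.s k36 k52 3 (.s k24
  k48 5 (.d k28 k16 k44 1 3)))))) .n))) (.c k23 (.l (.s k62 k61 0 (.s k40 k20 5 (.s k22 k2 5 (.d k41
  k43 k3 0 6))))) (.c k40 (.q k12 [(.s k46 k29 4 (.s k8 k4 1 (.s k38 k34 1 (.d k25 k59 k51 4 6)))),
  (.s k28 k44 3 (.s k29 k46 4 (.s k30 k31 0 (.s k45 k15 4 (.d k61 k62 k13 0 3))))), (.s k8 k4 1 (.s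
  k25 k59 4 (.s k28 k44 3 (.s k22 k19 2 (.d k62 k61 k2 0 5)))))] .n) (.c k41 (.q k12 [(.s k46 k29 4
  (.s k8 k4 1 (.s k38 k34 1 (.d k25 k59 k51 4 6)))), (.s k4 k8 1 (.s k20 k40 5 (.s k36 k52 3 (.s k24
  k48 5 (.d k28 k16 k44 1 3))))), (.s k40 k20 5 (.s k44 k28 3 (.s k46 k29 4 (.s k47 k45 0 (.d k32
  k37 k36 2 1)))))] (.c k1 (.l (.s k61 k62 0 (.s k8 k4 1 (.s k25 k59 4 (.s k38 k51 6 (.d k46 k34 k29
  1 4)))))) (.c k61 (.q k1 [(.s k8 k4 1 (.s k25 k59 4 (.s k38 k51 6 (.d k46 k34 k29 1 4)))), (.s k4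
  k8 1 (.s k20 k40 5 (.s k36 k52 3 (.s k24 k48 5 (.d k28 k16 k44 1 3))))), (.s k2 k3 0 (.s k22 k62 5
  (.s k28 k44 3 (.s k46 k29 4 (.s k25 k19 2 (.d k38 k51 k34 6 1))))))] .n) .n))) (.c k43 (.q k12
  [(.s k8 k4 1 (.s k46 k29 4 (.s k38 k34 1 (.d k25 k59 k51 4 6)))), (.s k4 k8 1 (.s k20 k40 5 (.s
  k36 k52 3 (.s k24 k48 5 (.d k28 k16 k44 1 3))))), (.s k40 k20 5 (.s k44 k28 3 (.s k46 k29 4 (.s
  k47 k45 0 (.d k32 k36 k37 1 2)))))] (.c k169 (.q k232 [(.s k8 k4 1 (.s k46 k29 4 (.s k38 k34 1 (.d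
  k25 k59 k51 4 6)))), (.s k4 k8 1 (.s k20 k40 5 (.s k36 k52 3 (.s k24 k48 5 (.d k28 k16 k44 1
  3))))), (.s k40 k20 5 (.s k44 k28 3 (.s k46 k29 4 (.s k47 k45 0 (.d k32 k36 k37 1 2)))))] .n) (.c
  k232 (.q k169 [(.s k8 k4 1 (.s k46 k29 4 (.s k38 k34 1 (.d k25 k59 k51 4 6)))), (.s k4 k8 1 (.s
  k20 k40 5 (.s k36 k52 3 (.s k24 k48 5 (.d k28 k16 k44 1 3))))), (.s k40 k20 5 (.s k44 k28 3 (.s
  k46 k29 4 (.s k47 k45 0 (.d k32 k36 k37 1 2)))))] .n) .n))) (.c k61 (.q k12 [(.s k8 k4 1 (.s k25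
  k59 4 (.s k38 k51 6 (.d k46 k34 k29 1 4)))), (.s k4 k8 1 (.s k20 k40 5 (.s k36 k52 3 (.s k24 k48 5
  (.d k28 k16 k44 1 3))))), (.s k40 k20 5 (.s k44 k28 3 (.s k46 k29 4 (.s k38 k34 1 (.d k41 k43 k35
  0 2)))))] (.c k1 (.q k41 [(.d k40 k43 k20 0 5), (.s k44 k28 3 (.s k46 k29 4 (.d k38 k34 k35 1
  2)))] .n) (.c k41 (.q k1 [(.s k8 k4 1 (.s k25 k59 4 (.s k38 k51 6 (.d k46 k34 k29 1 4)))), (.s k4
  k8 1 (.s k20 k40 5 (.s k36 k52 3 (.s k24 k48 5 (.d k28 k16 k44 1 3))))), (.s k2 k3 0 (.s k22 k62 5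
  (.s k28 k44 3 (.s k46 k29 4 (.s k25 k19 2 (.d k38 k51 k34 6 1))))))] .n) .n))) (.c k62 (.q k12
  [(.s k46 k29 4 (.s k8 k4 1 (.s k38 k34 1 (.d k25 k59 k51 4 6)))), (.s k4 k8 1 (.s k20 k40 5 (.s
  k36 k52 3 (.s k24 k48 5 (.d k28 k16 k44 1 3))))), (.s k40 k20 5 (.s k44 k28 3 (.s k46 k29 4 (.s
  k38 k34 1 (.d k41 k43 k35 0 2)))))] (.c k150 (.q k194 [(.s k46 k29 4 (.s k8 k4 1 (.s k38 k34 1 (.d
  k25 k59 k51 4 6)))), (.s k4 k8 1 (.s k20 k40 5 (.s k36 k52 3 (.s k24 k48 5 (.d k28 k16 k44 1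
  3))))), (.s k40 k20 5 (.s k44 k28 3 (.s k46 k29 4 (.s k38 k34 1 (.d k41 k43 k35 0 2)))))] .n) (.c
  k194 (.q k150 [(.s k46 k29 4 (.s k8 k4 1 (.s k38 k34 1 (.d k25 k59 k51 4 6)))), (.s k20 k40 5 (.s
  k85 k215 8 (.s k170 k255 14 (.s k195 k105 14 (.d k130 k190 k65 5 8)))))] .n) .n))) .n))))))))))))

def t11 : T TT 256 :=
  (.q k12 [(.s k8 k4 1 (.s k46 k29 4 (.s k42 k21 6 (.s k38 k34 1 (.d k25 k59 k51 4 6)))))] (.c k4
  (.q k10 [(.s k15 k5 2 (.s k47 k31 3 (.s k42 k21 6 (.s k37 k32 2 (.d k26 k58 k48 3 6))))), (.s k15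
  k5 2 (.s k13 k14 0 (.s k29 k46 4 (.s k45 k61 3 (.s k30 k60 4 (.d k31 k28 k47 0 3)))))), (.s k42
  k21 6 (.s k26 k58 3 (.s k46 k29 4 (.s k38 k34 1 (.s k14 k50 5 (.s k62 k30 3 (.d k2 k6 k22 1
  5))))))), (.s k42 k21 6 (.s k26 k58 3 (.s k46 k29 4 (.s k38 k34 1 (.s k14 k50 5 (.d k15 k13 k5 0
  2))))))] .n) (.c k8 (.q k10 [(.s k15 k5 2 (.s k47 k31 3 (.s k42 k21 6 (.s k37 k32 2 (.d k26 k58
  k48 3 6))))), (.s k42 k21 6 (.s k26 k58 3 (.s k46 k29 4 (.s k38 k34 1 (.s k14 k50 5 (.s k2 k6 1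
  (.d k62 k30 k22 3 5))))))), (.s k15 k5 2 (.s k13 k14 0 (.s k29 k46 4 (.s k45 k61 3 (.s k30 k60 4
  (.d k31 k28 k47 0 3))))))] .n) (.c k17 (.l (.s k8 k4 1 (.s k42 k21 6 (.s k25 k59 4 (.s k38 k51 6
  (.d k46 k29 k34 4 1)))))) (.c k21 (.q k15 [(.s k4 k8 1 (.s k13 k14 0 (.s k5 k10 2 (.s k9 k1 1 (.d
  k6 k7 k3 0 2))))), (.s k13 k14 0 (.s k29 k46 4 (.s k31 k47 3 (.s k30 k28 0 (.d k45 k61 k60 3
  4)))))] (.c k13 (.q k42 [(.s k8 k4 1 (.s k46 k29 4 (.s k38 k34 1 (.d k25 k59 k51 4 6)))), (.s k10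
  k5 2 (.s k26 k58 3 (.s k37 k48 6 (.d k47 k32 k31 2 3))))] .n) (.c k14 (.q k42 [(.s k8 k4 1 (.s k46
  k29 4 (.s k38 k34 1 (.d k25 k59 k51 4 6)))), (.s k10 k5 2 (.s k26 k58 3 (.s k37 k48 6 (.d k47 k32
  k31 2 3))))] .n) (.c k61 (.l (.s k14 k13 0 (.s k47 k31 3 (.s k46 k29 4 (.s k45 k44 0 (.d k30 k62
  k60 3 4)))))) .n)))) (.c k25 (.q k15 [(.s k5 k10 2 (.s k13 k14 0 (.s k9 k1 1 (.s k6 k3 2 (.d k4 k8
  k7 1 0))))), (.s k13 k14 0 (.s k29 k46 4 (.s k45 k61 3 (.s k30 k60 4 (.d k31 k28 k47 0 3))))), (.s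
  k5 k10 2 (.s k21 k42 6 (.s k37 k53 3 (.s k26 k48 6 (.d k31 k16 k47 2 3)))))] .n) (.c k29 (.q k15
  [(.s k4 k8 1 (.s k13 k14 0 (.s k5 k10 2 (.s k9 k1 1 (.d k6 k7 k3 0 2))))), (.s k10 k5 2 (.s k42
  k21 6 (.s k26 k58 3 (.s k37 k48 6 (.d k47 k32 k31 2 3))))), (.s k8 k4 1 (.s k42 k21 6 (.s k25 k59
  4 (.s k13 k14 0 (.s k37 k49 5 (.d k47 k32 k31 2 3))))))] .n) (.c k34 (.l (.s k4 k8 1 (.s k21 k42 6
  (.s k38 k55 4 (.s k25 k51 6 (.d k29 k46 k17 4 1)))))) (.c k38 (.q k15 [(.s k4 k8 1 (.s k13 k14 0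
  (.s k5 k10 2 (.s k9 k1 1 (.d k6 k7 k3 0 2))))), (.s k14 k13 0 (.s k46 k29 4 (.s k30 k62 3 (.s k45
  k60 4 (.d k47 k44 k31 0 3))))), (.s k5 k10 2 (.s k21 k42 6 (.s k37 k53 3 (.s k26 k48 6 (.d k31 k16
  k47 2 3)))))] .n) (.c k42 (.q k170 [(.s k8 k4 1 (.s k85 k255 14 (.s k89 k251 12 (.s k243 k166 14
  (.d k81 k93 k162 1 12))))), (.s k255 k85 14 (.s k29 k46 4 (.s k93 k174 12 (.s k157 k221 7 (.s k110
  k204 12 (.d k127 k76 k191 4 7)))))), (.s k4 k8 1 (.s k85 k255 14 (.s k166 k247 12 (.s k243 k89 14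
  (.d k162 k174 k81 1 12)))))] (.c k85 (.f k8 k4 1 (.l (.s k89 k251 12 (.s k29 k46 4 (.s k166 k243
  14 (.s k149 k209 9 (.s k128 k191 6 (.s k132 k183 4 (.d k192 k64 k72 7 9))))))))) (.c k166 (.l (.s
  k255 k85 14 (.s k46 k29 4 (.s k174 k93 12 (.s k110 k238 7 (.s k157 k204 12 (.d k191 k127 k140 7
  4))))))) (.c k255 (.f k8 k4 1 (.l (.s k89 k251 12 (.s k29 k46 4 (.s k149 k209 9 (.s k128 k191 6
  (.s k192 k64 7 (.s k132 k72 9 (.d k166 k243 k183 14 4))))))))) .n)))) (.c k46 (.f k42 k21 6 (.q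
  k15 [(.s k47 k31 3 (.s k10 k5 2 (.s k37 k32 2 (.d k26 k58 k48 3 6)))), (.s k4 k8 1 (.s k13 k14 0
  (.s k5 k10 2 (.s k9 k1 1 (.d k6 k7 k3 0 2))))), (.s k8 k4 1 (.s k25 k59 4 (.s k13 k14 0 (.s k37
  k49 5 (.d k47 k32 k31 2 3)))))] (.c k166 (.q k226 [(.s k47 k31 3 (.s k10 k5 2 (.s k37 k32 2 (.d
  k26 k58 k48 3 6)))), (.s k4 k8 1 (.s k13 k14 0 (.s k5 k10 2 (.s k9 k1 1 (.d k6 k7 k3 0 2))))), (.s
  k8 k4 1 (.s k25 k59 4 (.s k13 k14 0 (.s k37 k49 5 (.d k47 k32 k31 2 3)))))] .n) (.c k226 (.q k166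
  [(.s k47 k31 3 (.s k10 k5 2 (.s k37 k32 2 (.d k26 k58 k48 3 6)))), (.s k4 k8 1 (.s k85 k247 12 (.s
  k170 k255 14 (.s k243 k89 14 (.d k162 k174 k81 1 12)))))] (.c k10 (.l (.s k8 k4 1 (.s k25 k59 4
  (.s k13 k14 0 (.s k37 k49 5 (.d k47 k32 k31 2 3)))))) .n)) .n)))) (.c k51 (.q k15 [(.s k4 k8 1 (.s
  k13 k14 0 (.s k5 k10 2 (.s k9 k1 1 (.d k6 k7 k3 0 2))))), (.s k13 k14 0 (.s k29 k46 4 (.s k45 k61
  3 (.s k30 k60 4 (.d k31 k28 k47 0 3))))), (.s k5 k10 2 (.s k21 k42 6 (.s k37 k53 3 (.s k26 k48 6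
  (.d k31 k16 k47 2 3)))))] .n) (.c k55 (.l (.s k8 k4 1 (.s k46 k29 4 (.s k42 k21 6 (.s k38 k34 1
  (.d k25 k59 k51 4 6)))))) (.c k59 (.l (.s k4 k8 1 (.s k29 k46 4 (.s k21 k42 6 (.s k25 k17 1 (.d
  k38 k55 k51 4 6)))))) .n))))))))))))))

def t15 : T TT 256 :=
  (.f k42 k21 6 (.q k60 [(.s k62 k61 0 (.s k40 k20 5 (.s k22 k2 5 (.d k41 k43 k3 0 6))))] (.c k1 (.l
  (.s k40 k20 5 (.s k41 k43 0 (.s k22 k3 6 (.d k62 k61 k2 0 5))))) (.c k2 (.q k12 [(.s k8 k4 1 (.s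
  k25 k59 4 (.s k46 k29 4 (.d k38 k34 k51 1 6)))), (.s k4 k8 1 (.s k20 k40 5 (.s k36 k52 3 (.s k24
  k48 5 (.d k28 k16 k44 1 3))))), (.s k40 k20 5 (.s k44 k28 3 (.s k46 k29 4 (.s k38 k34 1 (.d k41
  k43 k35 0 2)))))] .n) (.c k3 (.q k12 [(.s k46 k29 4 (.s k8 k4 1 (.s k38 k34 1 (.d k25 k59 k51 4
  6)))), (.s k4 k8 1 (.s k20 k40 5 (.s k36 k52 3 (.s k24 k48 5 (.d k28 k16 k44 1 3))))), (.s k40 k20
  5 (.s k44 k28 3 (.s k46 k29 4 (.s k38 k34 1 (.d k41 k43 k35 0 2)))))] (.c k7 (.q k11 [(.s k40 k20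
  5 (.s k41 k43 0 (.s k56 k26 4 (.d k8 k4 k24 1 3)))), (.s k8 k4 1 (.s k25 k59 4 (.s k38 k51 6 (.d
  k46 k34 k29 1 4)))), (.s k40 k20 5 (.s k44 k28 3 (.s k46 k29 4 (.s k38 k34 1 (.d k41 k43 k35 0
  2)))))] .n) (.c k11 (.q k7 [(.s k8 k4 1 (.s k46 k29 4 (.s k38 k34 1 (.d k25 k59 k51 4 6)))), (.s
  k4 k8 1 (.s k20 k40 5 (.s k36 k52 3 (.s k24 k48 5 (.d k28 k16 k44 1 3))))), (.s k40 k20 5 (.s k44
  k28 3 (.s k46 k29 4 (.s k38 k34 1 (.d k41 k43 k35 0 2)))))] .n) .n))) (.c k20 (.q k12 [(.s k46 k29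
  4 (.s k38 k34 1 (.s k25 k51 6 (.d k8 k4 k59 1 4)))), (.s k28 k44 3 (.s k62 k61 0 (.s k22 k2 5 (.s
  k25 k19 2 (.d k8 k4 k59 1 4))))), (.s k44 k28 3 (.s k62 k61 0 (.s k22 k2 5 (.s k41 k3 6 (.s k38
  k35 2 (.d k46 k34 k29 1 4))))))] (.c k22 (.q k23 [(.s k46 k29 4 (.s k38 k34 1 (.s k25 k51 6 (.d k8
  k4 k59 1 4)))), (.s k3 k43 5 (.s k1 k2 0 (.s k29 k46 4 (.s k61 k62 0 (.s k13 k45 3 (.d k9 k5 k6 1
  2)))))), (.s k8 k4 1 (.s k43 k3 5 (.s k40 k41 0 (.s k24 k56 3 (.s k36 k48 5 (.d k44 k32 k28 1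
  3))))))] .n) (.c k23 (.q k22 [(.d k62 k61 k2 0 5), (.s k8 k4 1 (.s k25 k59 4 (.d k28 k19 k44 2
  3)))] .n) .n))) (.c k22 (.q k12 [(.s k46 k29 4 (.s k8 k4 1 (.s k38 k34 1 (.d k25 k59 k51 4 6)))),
  (.s k20 k40 5 (.s k4 k8 1 (.s k36 k52 3 (.s k24 k48 5 (.d k28 k16 k44 1 3))))), (.s k44 k28 3 (.s
  k46 k29 4 (.s k38 k34 1 (.s k41 k35 2 (.d k40 k20 k43 5 0)))))] (.c k20 (.q k23 [(.s k46 k29 4 (.s
  k38 k34 1 (.s k25 k51 6 (.d k8 k4 k59 1 4)))), (.s k3 k43 5 (.s k1 k2 0 (.s k29 k46 4 (.s k61 k62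
  0 (.s k13 k45 3 (.d k9 k5 k6 1 2)))))), (.s k8 k4 1 (.s k43 k3 5 (.s k40 k41 0 (.s k24 k56 3 (.s
  k36 k48 5 (.d k44 k32 k28 1 3))))))] .n) (.c k23 (.l (.s k20 k40 5 (.s k4 k8 1 (.s k36 k52 3 (.s
  k24 k48 5 (.d k28 k16 k44 1 3)))))) .n))) (.c k23 (.l (.s k62 k61 0 (.s k40 k20 5 (.s k22 k2 5 (.d
  k41 k43 k3 0 6))))) (.c k40 (.q k12 [(.s k46 k29 4 (.s k8 k4 1 (.s k38 k34 1 (.d k25 k59 k51 4
  6)))), (.s k28 k44 3 (.s k62 k61 0 (.s k22 k2 5 (.s k25 k19 2 (.d k8 k4 k59 1 4))))), (.s k44 k28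
  3 (.s k62 k61 0 (.s k22 k2 5 (.s k41 k3 6 (.s k38 k35 2 (.d k46 k34 k29 1 4))))))] .n) (.c k41 (.q
  k12 [(.s k46 k29 4 (.s k8 k4 1 (.s k38 k34 1 (.d k25 k59 k51 4 6)))), (.s k4 k8 1 (.s k20 k40 5
  (.s k36 k52 3 (.s k24 k48 5 (.d k28 k16 k44 1 3))))), (.s k40 k20 5 (.s k44 k28 3 (.s k46 k29 4
  (.s k47 k45 0 (.d k32 k37 k36 2 1)))))] (.c k1 (.l (.s k61 k62 0 (.s k8 k4 1 (.s k25 k59 4 (.s k38
  k51 6 (.d k46 k34 k29 1 4)))))) (.c k61 (.q k1 [(.s k46 k29 4 (.s k8 k4 1 (.s k38 k34 1 (.d k25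
  k59 k51 4 6)))), (.s k4 k8 1 (.s k20 k40 5 (.s k36 k52 3 (.s k24 k48 5 (.d k28 k16 k44 1 3))))),
  (.s k2 k3 0 (.s k22 k62 5 (.s k28 k44 3 (.s k46 k29 4 (.s k25 k19 2 (.d k38 k51 k34 6 1))))))] .n)
  .n))) (.c k43 (.q k12 [(.s k8 k4 1 (.s k46 k29 4 (.s k38 k34 1 (.d k25 k59 k51 4 6)))), (.s k4 k8
  1 (.s k20 k40 5 (.s k36 k52 3 (.s k24 k48 5 (.d k28 k16 k44 1 3))))), (.s k40 k20 5 (.s k44 k28 3
  (.s k46 k29 4 (.s k47 k45 0 (.d k32 k36 k37 1 2)))))] (.c k169 (.q k232 [(.s k8 k4 1 (.s k46 k29 4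
  (.s k38 k34 1 (.d k25 k59 k51 4 6)))), (.s k4 k8 1 (.s k20 k40 5 (.s k36 k52 3 (.s k24 k48 5 (.d
  k28 k16 k44 1 3))))), (.s k40 k20 5 (.s k44 k28 3 (.s k46 k29 4 (.s k47 k45 0 (.d k32 k36 k37 1
  2)))))] .n) (.c k232 (.q k169 [(.s k8 k4 1 (.s k46 k29 4 (.s k38 k34 1 (.d k25 k59 k51 4 6)))),
  (.s k4 k8 1 (.s k20 k40 5 (.s k36 k52 3 (.s k24 k48 5 (.d k28 k16 k44 1 3))))), (.s k40 k20 5 (.s
  k44 k28 3 (.s k46 k29 4 (.s k47 k45 0 (.d k32 k36 k37 1 2)))))] .n) .n))) (.c k61 (.q k12 [(.s k46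
  k29 4 (.s k8 k4 1 (.s k38 k34 1 (.d k25 k59 k51 4 6)))), (.s k4 k8 1 (.s k20 k40 5 (.s k36 k52 3
  (.s k24 k48 5 (.d k28 k16 k44 1 3))))), (.s k40 k20 5 (.s k44 k28 3 (.s k46 k29 4 (.s k38 k34 1
  (.d k41 k43 k35 0 2)))))] (.c k1 (.q k41 [(.d k40 k43 k20 0 5), (.s k44 k28 3 (.s k46 k29 4 (.d
  k38 k34 k35 1 2)))] .n) (.c k41 (.q k1 [(.s k46 k29 4 (.s k8 k4 1 (.s k38 k34 1 (.d k25 k59 k51 4
  6)))), (.s k4 k8 1 (.s k20 k40 5 (.s k36 k52 3 (.s k24 k48 5 (.d k28 k16 k44 1 3))))), (.s k2 k3 0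
  (.s k22 k62 5 (.s k28 k44 3 (.s k46 k29 4 (.s k25 k19 2 (.d k38 k51 k34 6 1))))))] .n) .n))) (.c
  k62 (.q k12 [(.s k46 k29 4 (.s k8 k4 1 (.s k38 k34 1 (.d k25 k59 k51 4 6)))), (.s k4 k8 1 (.s k20
  k40 5 (.s k36 k52 3 (.s k24 k48 5 (.d k28 k16 k44 1 3))))), (.s k40 k20 5 (.s k44 k28 3 (.s k46
  k29 4 (.s k38 k34 1 (.d k41 k43 k35 0 2)))))] (.c k150 (.q k194 [(.s k46 k29 4 (.s k8 k4 1 (.s k38
  k34 1 (.d k25 k59 k51 4 6)))), (.s k4 k8 1 (.s k20 k40 5 (.s k36 k52 3 (.s k24 k48 5 (.d k28 k16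
  k44 1 3))))), (.s k40 k20 5 (.s k44 k28 3 (.s k46 k29 4 (.s k38 k34 1 (.d k41 k43 k35 0 2)))))]
  .n) (.c k194 (.q k150 [(.s k46 k29 4 (.s k8 k4 1 (.s k38 k34 1 (.d k25 k59 k51 4 6)))), (.s k20
  k40 5 (.s k85 k215 8 (.s k170 k255 14 (.s k195 k105 14 (.d k130 k190 k65 5 8)))))] .n) .n)))
  .n)))))))))))))

def t21_1 : T TT 256 :=
  (.q k255 [(.s k125 k190 8 (.s k127 k191 7 (.s k126 k124 0 (.s k189 k252 8 (.d k61 k62 k253 0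
  7))))), (.s k20 k40 5 (.s k85 k170 14 (.s k150 k215 8 (.s k105 k195 14 (.d k125 k65 k190 5 8))))),
  (.s k40 k20 5 (.s k170 k85 14 (.s k105 k235 8 (.s k61 k62 0 (.s k149 k193 13 (.d k191 k127 k128 7
  6))))))] (.c k41 (.l (.s k61 k62 0 (.s k125 k190 8 (.s k189 k253 7 (.s k126 k252 8 (.d k127 k124
  k191 0 7)))))) (.c k61 (.q k41 [(.s k40 k20 5 (.s k43 k42 0 (.d k3 k23 k22 5 6))), (.s k20 k40 5
  (.s k85 k170 14 (.s k150 k215 8 (.s k105 k195 14 (.d k125 k65 k190 5 8))))), (.s k3 k22 6 (.s k23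
  k43 5 (.s k87 k171 13 (.s k151 k215 7 (.s k107 k195 13 (.d k127 k67 k191 5 7))))))] (.c k20 (.l
  (.s k3 k22 6 (.s k23 k43 5 (.s k87 k171 13 (.s k151 k215 7 (.s k107 k195 13 (.d k127 k67 k191 5
  7))))))) .n)) .n)))

def t21_2 : T TT 256 :=
  (.q k255 [(.s k20 k40 5 (.s k85 k170 14 (.s k150 k215 8 (.s k105 k195 14 (.d k125 k65 k190 5
  8))))), (.s k61 k62 0 (.s k125 k190 8 (.s k189 k253 7 (.s k126 k252 8 (.d k127 k124 k191 0 7))))),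
  (.s k40 k20 5 (.s k170 k85 14 (.s k105 k235 8 (.s k61 k62 0 (.s k149 k193 13 (.d k191 k127 k128 7
  6)))))), (.s k62 k61 0 (.s k190 k125 8 (.s k126 k254 7 (.s k189 k252 8 (.d k191 k188 k127 0
  7)))))] .n)

def t21_3 : T TT 256 :=
  (.q k255 [(.s k20 k40 5 (.s k85 k170 14 (.s k150 k215 8 (.s k125 k190 8 (.d k105 k65 k195 5
  14))))), (.s k62 k61 0 (.s k190 k125 8 (.s k126 k254 7 (.s k189 k252 8 (.d k191 k188 k127 0
  7))))), (.s k40 k20 5 (.s k170 k85 14 (.s k105 k235 8 (.s k61 k62 0 (.s k149 k193 13 (.d k191 k127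
  k128 7 6))))))] .n)

def t21_4 : T TT 256 :=
  (.q k255 [(.s k20 k40 5 (.s k85 k170 14 (.s k150 k215 8 (.s k105 k195 14 (.d k125 k65 k190 5
  8))))), (.s k62 k61 0 (.s k190 k125 8 (.s k126 k254 7 (.s k189 k252 8 (.d k191 k188 k127 0 7))))),
  (.s k40 k20 5 (.s k170 k85 14 (.s k105 k235 8 (.s k61 k62 0 (.s k149 k193 13 (.d k191 k127 k128 7
  6))))))] (.c k38 (.q k55 [(.s k20 k40 5 (.s k85 k170 14 (.s k150 k215 8 (.s k105 k195 14 (.d k125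
  k65 k190 5 8))))), (.s k51 k59 1 (.s k54 k57 2 (.s k62 k61 0 (.s k58 k50 1 (.d k53 k52 k48 0
  2)))))] .n) (.c k55 (.q k38 [(.s k20 k40 5 (.s k85 k170 14 (.s k150 k215 8 (.s k105 k195 14 (.d
  k125 k65 k190 5 8))))), (.s k62 k61 0 (.s k190 k125 8 (.s k126 k254 7 (.s k189 k252 8 (.d k191
  k188 k127 0 7))))), (.s k40 k20 5 (.s k170 k85 14 (.s k105 k235 8 (.s k61 k62 0 (.s k149 k193 13
  (.d k191 k127 k128 7 6))))))] .n) .n)))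

def t21_5 : T TT 256 :=
  (.q k255 [(.s k20 k40 5 (.s k85 k170 14 (.s k150 k215 8 (.s k105 k195 14 (.d k125 k65 k190 5
  8))))), (.s k62 k61 0 (.s k190 k125 8 (.s k126 k254 7 (.s k189 k252 8 (.d k191 k188 k127 0 7))))),
  (.s k40 k20 5 (.s k170 k85 14 (.s k105 k235 8 (.s k61 k62 0 (.s k149 k193 13 (.d k191 k127 k128 7
  6))))))] (.c k37 (.q k53 [(.s k20 k40 5 (.s k85 k170 14 (.s k150 k215 8 (.s k105 k195 14 (.d k125
  k65 k190 5 8))))), (.s k48 k58 2 (.s k52 k56 1 (.s k54 k55 0 (.s k57 k51 2 (.d k61 k62 k49 0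
  1)))))] .n) (.c k53 (.q k37 [(.s k20 k40 5 (.s k85 k170 14 (.s k150 k215 8 (.s k105 k195 14 (.d
  k125 k65 k190 5 8))))), (.s k62 k61 0 (.s k190 k125 8 (.s k126 k254 7 (.s k189 k252 8 (.d k191
  k188 k127 0 7))))), (.s k40 k20 5 (.s k170 k85 14 (.s k105 k235 8 (.s k61 k62 0 (.s k149 k193 13
  (.d k191 k127 k128 7 6))))))] .n) .n)))

def t21_6 : T TT 256 :=
  (.q k255 [(.s k20 k40 5 (.s k85 k170 14 (.s k150 k215 8 (.s k105 k195 14 (.d k125 k65 k190 5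
  8))))), (.s k62 k61 0 (.s k190 k125 8 (.s k126 k254 7 (.s k189 k252 8 (.d k191 k188 k127 0 7))))),
  (.s k40 k20 5 (.s k170 k85 14 (.s k105 k235 8 (.s k61 k62 0 (.s k149 k193 13 (.d k191 k127 k128 7
  6))))))] .n)

def t21_7 : T TT 256 :=
  (.q k255 [(.s k20 k40 5 (.s k85 k170 14 (.s k150 k215 8 (.s k105 k195 14 (.d k125 k65 k190 5
  8))))), (.s k62 k61 0 (.s k190 k125 8 (.s k126 k254 7 (.s k189 k252 8 (.d k191 k188 k127 0 7))))),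
  (.s k40 k20 5 (.s k170 k85 14 (.s k105 k235 8 (.s k61 k62 0 (.s k149 k193 13 (.d k191 k127 k128 7
  6))))))] .n)

def t21_8 : T TT 256 :=
  (.q k255 [(.s k61 k62 0 (.s k125 k190 8 (.s k189 k253 7 (.s k126 k252 8 (.d k127 k124 k191 0
  7))))), (.s k20 k40 5 (.s k85 k170 14 (.s k150 k215 8 (.s k105 k195 14 (.d k125 k65 k190 5 8))))),
  (.s k40 k20 5 (.s k170 k85 14 (.s k105 k235 8 (.s k61 k62 0 (.s k149 k193 13 (.d k191 k127 k128 7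
  6))))))] (.c k150 (.l (.s k62 k61 0 (.s k190 k125 8 (.s k126 k254 7 (.s k189 k252 8 (.d k191 k188
  k127 0 7)))))) .n))

def t21_9 : T TT 256 :=
  (.q k255 [(.s k20 k40 5 (.s k85 k170 14 (.s k150 k215 8 (.s k105 k195 14 (.d k125 k65 k190 5
  8))))), (.s k62 k61 0 (.s k190 k125 8 (.s k126 k254 7 (.s k189 k252 8 (.d k191 k188 k127 0 7))))),
  (.s k40 k20 5 (.s k170 k85 14 (.s k105 k235 8 (.s k61 k62 0 (.s k149 k193 13 (.d k191 k127 k128 7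
  6))))))] .n)

def t21_10 : T TT 256 :=
  (.q k255 [(.s k61 k62 0 (.s k125 k190 8 (.s k189 k253 7 (.s k126 k252 8 (.d k127 k124 k191 0
  7))))), (.s k20 k40 5 (.s k85 k170 14 (.s k150 k215 8 (.s k105 k195 14 (.d k125 k65 k190 5 8))))),
  (.s k40 k20 5 (.s k170 k85 14 (.s k105 k235 8 (.s k61 k62 0 (.s k149 k193 13 (.d k191 k127 k128 7
  6))))))] (.c k150 (.l (.s k62 k61 0 (.s k190 k125 8 (.s k126 k254 7 (.s k189 k252 8 (.d k191 k188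
  k127 0 7)))))) .n))

def t21_11 : T TT 256 :=
  (.q k255 [(.s k20 k40 5 (.s k85 k170 14 (.s k150 k215 8 (.s k105 k195 14 (.d k125 k65 k190 5
  8))))), (.s k62 k61 0 (.s k190 k125 8 (.s k126 k254 7 (.s k189 k252 8 (.d k191 k188 k127 0 7))))),
  (.s k40 k20 5 (.s k170 k85 14 (.s k105 k235 8 (.s k61 k62 0 (.s k149 k193 13 (.d k191 k127 k128 7
  6))))))] .n)

def t21_12 : T TT 256 :=
  (.q k255 [(.s k20 k40 5 (.s k85 k170 14 (.s k150 k215 8 (.s k125 k190 8 (.d k105 k65 k195 5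
  14))))), (.s k62 k61 0 (.s k190 k125 8 (.s k126 k254 7 (.s k189 k252 8 (.d k191 k188 k127 0
  7))))), (.s k40 k20 5 (.s k170 k85 14 (.s k105 k235 8 (.s k61 k62 0 (.s k149 k193 13 (.d k191 k127
  k128 7 6))))))] .n)

def t21_13 : T TT 256 :=
  (.q k255 [(.s k20 k40 5 (.s k85 k170 14 (.s k150 k215 8 (.s k105 k195 14 (.d k125 k65 k190 5
  8))))), (.s k62 k61 0 (.s k190 k125 8 (.s k126 k254 7 (.s k189 k252 8 (.d k191 k188 k127 0 7))))),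
  (.s k40 k20 5 (.s k170 k85 14 (.s k105 k235 8 (.s k61 k62 0 (.s k149 k193 13 (.d k191 k127 k128 7
  6))))))] .n)

def t21_14 : T TT 256 :=
  (.q k255 [(.s k20 k40 5 (.s k85 k170 14 (.s k150 k215 8 (.s k105 k195 14 (.d k125 k65 k190 5
  8))))), (.s k62 k61 0 (.s k190 k125 8 (.s k126 k254 7 (.s k189 k252 8 (.d k191 k188 k127 0 7))))),
  (.s k40 k20 5 (.s k170 k85 14 (.s k105 k235 8 (.s k61 k62 0 (.s k149 k193 13 (.d k191 k127 k128 7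
  6))))))] .n)

def t21_15 : T TT 256 :=
  (.q k255 [(.s k20 k40 5 (.s k85 k170 14 (.s k150 k215 8 (.s k125 k190 8 (.d k105 k65 k195 5
  14))))), (.s k62 k61 0 (.s k190 k125 8 (.s k126 k254 7 (.s k189 k252 8 (.d k191 k188 k127 0
  7))))), (.s k40 k20 5 (.s k170 k85 14 (.s k105 k235 8 (.s k61 k62 0 (.s k149 k193 13 (.d k191 k127
  k128 7 6))))))] .n)

def t21_16 : T TT 256 :=
  (.q k255 [(.s k20 k40 5 (.s k85 k170 14 (.s k150 k215 8 (.s k105 k195 14 (.d k125 k65 k190 5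
  8))))), (.s k62 k61 0 (.s k190 k125 8 (.s k126 k254 7 (.s k189 k252 8 (.d k191 k188 k127 0 7))))),
  (.s k40 k20 5 (.s k170 k85 14 (.s k105 k235 8 (.s k61 k62 0 (.s k149 k193 13 (.d k191 k127 k128 7
  6))))))] (.c k26 (.q k31 [(.s k20 k40 5 (.s k85 k170 14 (.s k150 k215 8 (.s k105 k195 14 (.d k125
  k65 k190 5 8))))), (.s k15 k47 3 (.s k30 k45 4 (.s k62 k61 0 (.s k46 k14 3 (.d k29 k28 k12 0
  4)))))] .n) (.c k31 (.q k26 [(.s k20 k40 5 (.s k85 k170 14 (.s k150 k215 8 (.s k105 k195 14 (.d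
  k125 k65 k190 5 8))))), (.s k62 k61 0 (.s k190 k125 8 (.s k126 k254 7 (.s k189 k252 8 (.d k191
  k188 k127 0 7))))), (.s k40 k20 5 (.s k170 k85 14 (.s k105 k235 8 (.s k61 k62 0 (.s k149 k193 13
  (.d k191 k127 k128 7 6))))))] .n) .n)))

def t21_17 : T TT 256 :=
  (.q k255 [(.s k20 k40 5 (.s k85 k170 14 (.s k150 k215 8 (.s k105 k195 14 (.d k125 k65 k190 5
  8))))), (.s k62 k61 0 (.s k190 k125 8 (.s k126 k254 7 (.s k189 k252 8 (.d k191 k188 k127 0 7))))),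
  (.s k40 k20 5 (.s k170 k85 14 (.s k105 k235 8 (.s k61 k62 0 (.s k149 k193 13 (.d k191 k127 k128 7
  6))))))] (.c k25 (.q k29 [(.s k20 k40 5 (.s k85 k170 14 (.s k150 k215 8 (.s k105 k195 14 (.d k125
  k65 k190 5 8))))), (.s k12 k46 4 (.s k28 k44 3 (.s k30 k31 0 (.s k45 k15 4 (.d k61 k62 k13 0
  3)))))] .n) (.c k29 (.q k25 [(.s k20 k40 5 (.s k85 k170 14 (.s k150 k215 8 (.s k105 k195 14 (.d
  k125 k65 k190 5 8))))), (.s k62 k61 0 (.s k190 k125 8 (.s k126 k254 7 (.s k189 k252 8 (.d k191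
  k188 k127 0 7))))), (.s k40 k20 5 (.s k170 k85 14 (.s k105 k235 8 (.s k61 k62 0 (.s k149 k193 13
  (.d k191 k127 k128 7 6))))))] .n) .n)))

def t21_18 : T TT 256 :=
  (.q k255 [(.s k20 k40 5 (.s k85 k170 14 (.s k150 k215 8 (.s k105 k195 14 (.d k125 k65 k190 5
  8))))), (.s k62 k61 0 (.s k190 k125 8 (.s k126 k254 7 (.s k189 k252 8 (.d k191 k188 k127 0 7))))),
  (.s k40 k20 5 (.s k170 k85 14 (.s k105 k235 8 (.s k61 k62 0 (.s k149 k193 13 (.d k191 k127 k128 7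
  6))))))] .n)

def t21_19 : T TT 256 :=
  (.q k255 [(.s k20 k40 5 (.s k85 k170 14 (.s k150 k215 8 (.s k105 k195 14 (.d k125 k65 k190 5
  8))))), (.s k62 k61 0 (.s k190 k125 8 (.s k126 k254 7 (.s k189 k252 8 (.d k191 k188 k127 0 7))))),
  (.s k40 k20 5 (.s k170 k85 14 (.s k105 k235 8 (.s k61 k62 0 (.s k149 k193 13 (.d k191 k127 k128 7
  6))))))] .n)

def t21_20 : T TT 256 :=
  (.q k255 [(.s k61 k62 0 (.s k125 k190 8 (.s k189 k253 7 (.s k126 k252 8 (.d k127 k124 k191 0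
  7))))), (.s k170 k85 14 (.s k61 k62 0 (.s k190 k125 8 (.s k150 k130 5 (.s k105 k195 14 (.s k149
  k193 13 (.d k191 k127 k128 7 6))))))), (.s k62 k61 0 (.s k190 k125 8 (.s k126 k254 7 (.s k189 k252
  8 (.d k191 k188 k127 0 7)))))] (.c k22 (.q k23 [(.s k3 k43 5 (.s k87 k171 13 (.s k127 k191 7 (.s
  k107 k67 5 (.d k151 k215 k195 7 13))))), (.s k61 k62 0 (.s k125 k190 8 (.s k189 k253 7 (.s k126
  k252 8 (.d k127 k124 k191 0 7))))), (.s k85 k170 14 (.s k3 k43 5 (.s k1 k2 0 (.s k169 k253 13 (.s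
  k86 k252 14 (.d k87 k84 k171 0 13))))))] .n) (.c k23 (.q k22 [(.s k62 k61 0 (.s k2 k42 5 (.d k3 k1
  k41 0 6))), (.s k61 k62 0 (.s k125 k190 8 (.s k189 k253 7 (.s k126 k252 8 (.d k127 k124 k191 0
  7)))))] (.c k61 (.l (.s k85 k170 14 (.s k3 k41 6 (.s k1 k2 0 (.s k169 k253 13 (.s k86 k252 14 (.d
  k87 k84 k171 0 13))))))) (.c k62 (.l (.s k85 k170 14 (.s k3 k41 6 (.s k1 k2 0 (.s k169 k253 13 (.s
  k86 k252 14 (.d k87 k84 k171 0 13))))))) .n))) (.c k61 (.q k22 [(.s k85 k170 14 (.s k3 k41 6 (.s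
  k1 k2 0 (.s k169 k253 13 (.s k86 k252 14 (.d k87 k84 k171 0 13)))))), (.s k3 k41 6 (.s k1 k2 0 (.s
  k23 k43 5 (.s k87 k171 13 (.s k127 k191 7 (.s k107 k67 5 (.d k151 k215 k195 7 13))))))), (.s k85
  k170 14 (.s k125 k190 8 (.s k127 k191 7 (.s k105 k65 5 (.s k150 k195 14 (.s k86 k214 7 (.d k124
  k126 k67 0 6)))))))] (.c k1 (.f k41 k3 6 (.l (.s k85 k170 14 (.s k125 k190 8 (.s k127 k191 7 (.s
  k105 k65 5 (.s k150 k195 14 (.s k86 k214 7 (.d k124 k67 k126 6 0))))))))) (.c k41 (.q k1 [(.s k3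
  k2 0 (.s k85 k170 14 (.s k169 k253 13 (.s k86 k252 14 (.d k87 k84 k171 0 13))))), (.s k2 k3 0 (.s
  k170 k85 14 (.s k86 k254 13 (.s k150 k214 7 (.d k190 k130 k125 5 8))))), (.s k85 k170 14 (.s k253
  k169 13 (.s k125 k190 8 (.s k127 k191 7 (.s k124 k126 0 (.d k252 k254 k188 0 7)))))), (.s k2 k3 0
  (.s k190 k125 8 (.s k191 k127 7 (.s k189 k188 0 (.s k126 k252 8 (.d k62 k42 k254 5 7))))))] (.c
  k85 (.l (.s k2 k3 0 (.s k62 k42 5 (.s k190 k125 8 (.s k126 k254 7 (.s k189 k252 8 (.d k191 k188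
  k127 0 7))))))) (.c k86 (.l (.s k2 k3 0 (.s k62 k42 5 (.s k190 k125 8 (.s k126 k254 7 (.s k191
  k127 7 (.d k189 k252 k188 8 0))))))) (.c k125 (.l (.s k3 k2 0 (.s k85 k170 14 (.s k87 k171 13 (.s
  k86 k84 0 (.d k169 k253 k252 13 14)))))) (.c k254 (.l (.s k3 k2 0 (.s k87 k171 13 (.s k85 k170 14
  (.s k86 k84 0 (.d k169 k253 k252 13 14)))))) .n))))) (.c k42 (.l (.s k170 k85 14 (.s k190 k125 8
  (.s k150 k130 5 (.s k86 k214 7 (.s k2 k254 13 (.d k3 k1 k41 0 6))))))) .n)))) (.c k62 (.q k150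
  [(.s k190 k125 8 (.d k170 k130 k85 5 14)), (.s k195 k105 14 (.s k107 k151 13 (.s k127 k191 7 (.s
  k87 k67 5 (.s k171 k3 13 (.d k235 k215 k43 5 7))))))] (.c k22 (.q k23 [(.s k190 k125 8 (.d k170
  k130 k85 5 14)), (.s k3 k43 5 (.s k87 k171 13 (.s k151 k215 7 (.d k195 k107 k105 13 14))))] (.c k2
  (.q k42 [(.s k190 k125 8 (.d k170 k130 k85 5 14)), (.s k3 k43 5 (.s k87 k171 13 (.s k151 k215 7
  (.d k195 k107 k105 13 14))))] .n) (.c k42 (.q k2 [(.d k3 k1 k43 0 5), (.s k170 k85 14 (.d k190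
  k130 k125 5 8))] (.c k170 (.q k234 [(.d k3 k1 k43 0 5), (.s k195 k105 14 (.s k130 k65 8 (.s k194
  k66 7 (.d k192 k193 k213 0 6))))] .n) (.c k234 (.l (.s k170 k85 14 (.d k3 k1 k43 0 5))) .n)))
  .n))) (.c k23 (.q k22 [(.s k190 k125 8 (.d k170 k130 k85 5 14)), (.s k3 k41 6 (.s k87 k171 13 (.s
  k86 k214 7 (.s k84 k85 0 (.d k252 k168 k169 13 14)))))] (.c k85 (.l (.s k190 k125 8 (.s k130 k170
  5 (.d k195 k65 k105 8 14)))) .n)) .n))) (.c k125 (.q k22 [(.s k62 k61 0 (.s k2 k42 5 (.d k3 k1 k41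
  0 6))), (.s k3 k41 6 (.s k23 k43 5 (.s k87 k171 13 (.s k151 k215 7 (.s k107 k195 13 (.d k127 k67
  k191 5 7))))))] (.c k1 (.l (.s k170 k85 14 (.s k41 k3 6 (.s k62 k61 0 (.s k2 k42 5 (.s k254 k86 13
  (.s k126 k190 7 (.d k252 k253 k189 0 8)))))))) (.c k3 (.l (.s k170 k85 14 (.s k62 k61 0 (.s k2 k42
  5 (.s k254 k86 13 (.s k126 k190 7 (.d k252 k253 k189 0 8))))))) (.c k41 (.q k2 [(.d k62 k61 k42 0
  5), (.s k170 k85 14 (.s k86 k254 13 (.s k150 k214 7 (.s k105 k195 14 (.s k124 k67 6 (.s k252 k188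
  7 (.d k3 k1 k169 0 14)))))))] (.c k1 (.l (.s k61 k62 0 (.s k170 k85 14 (.s k86 k254 13 (.s k150
  k214 7 (.s k105 k195 14 (.s k149 k193 13 (.d k191 k127 k128 7 6)))))))) (.c k61 (.l (.s k1 k3 0
  (.s k170 k85 14 (.s k62 k42 5 (.s k254 k86 13 (.s k126 k190 7 (.d k252 k253 k189 0 8))))))) .n)))
  (.c k42 (.l (.s k170 k85 14 (.s k3 k41 6 (.s k171 k87 13 (.s k169 k168 0 (.s k86 k252 14 (.d k2 k1
  k254 0 13))))))) (.c k61 (.l (.s k85 k170 14 (.s k3 k41 6 (.s k1 k2 0 (.s k87 k171 13 (.s k86 k84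
  0 (.d k169 k253 k252 13 14))))))) .n)))))) (.c k127 (.f k61 k62 0 (.l (.s k85 k170 14 (.s k125
  k190 8 (.s k253 k189 7 (.s k169 k1 13 (.s k105 k65 5 (.s k233 k41 7 (.d k193 k213 k149 5
  13))))))))) (.c k190 (.q k22 [(.s k62 k61 0 (.s k2 k42 5 (.d k3 k1 k41 0 6))), (.s k3 k41 6 (.s
  k23 k43 5 (.s k87 k171 13 (.s k151 k215 7 (.s k107 k195 13 (.d k127 k67 k191 5 7))))))] (.c k1 (.l
  (.s k3 k41 6 (.s k61 k62 0 (.s k23 k43 5 (.s k87 k171 13 (.s k151 k215 7 (.s k107 k195 13 (.d k127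
  k67 k191 5 7)))))))) (.c k3 (.q k150 [(.s k86 k214 7 (.s k62 k61 0 (.s k2 k42 5 (.d k170 k254 k85
  13 14)))), (.s k170 k85 14 (.s k61 k62 0 (.s k105 k195 14 (.s k149 k193 13 (.d k191 k127 k128 7
  6))))), (.s k214 k86 7 (.s k195 k105 14 (.s k252 k233 6 (.s k254 k253 0 (.s k234 k194 5 (.s k213
  k192 6 (.d k215 k212 k235 0 5)))))))] (.c k254 (.l (.s k85 k170 14 (.s k86 k214 7 (.s k105 k195 14
  (.s k127 k191 7 (.s k125 k65 5 (.d k124 k67 k126 6 0))))))) .n)) (.c k41 (.q k1 [(.s k2 k3 0 (.d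
  k62 k61 k42 0 5)), (.s k3 k2 0 (.s k43 k23 5 (.s k171 k87 13 (.s k107 k235 7 (.s k151 k195 13 (.d
  k191 k131 k127 5 7)))))), (.s k85 k170 14 (.s k253 k169 13 (.s k61 k62 0 (.s k189 k125 7 (.d k252
  k254 k126 0 8)))))] .n) (.c k42 (.l (.s k170 k85 14 (.s k3 k41 6 (.s k171 k87 13 (.s k169 k168 0
  (.s k86 k252 14 (.d k2 k1 k254 0 13))))))) (.c k61 (.l (.s k85 k170 14 (.s k3 k41 6 (.s k1 k2 0
  (.s k169 k253 13 (.s k86 k252 14 (.d k87 k84 k171 0 13))))))) .n)))))) (.c k191 (.q k2 [(.s k62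
  k61 0 (.s k22 k42 5 (.d k3 k1 k41 0 6))), (.s k170 k85 14 (.s k254 k86 13 (.s k190 k125 8 (.s k126
  k62 7 (.d k252 k253 k189 0 8)))))] (.c k22 (.q k23 [(.d k3 k1 k43 0 5), (.s k170 k85 14 (.s k254
  k86 13 (.s k190 k125 8 (.d k62 k126 k61 7 0))))] .n) (.c k23 (.q k22 [(.d k3 k1 k41 0 6), (.d k62
  k61 k42 0 5)] .n) (.c k62 (.l (.s k3 k1 0 (.s k170 k85 14 (.s k86 k254 13 (.s k169 k252 14 (.d
  k171 k168 k87 0 13)))))) (.c k170 (.f k61 k62 0 (.f k3 k1 0 (.f k23 k43 5 (.l (.s k87 k171 13 (.s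
  k151 k215 7 (.s k125 k190 8 (.s k189 k253 7 (.s k107 k195 13 (.s k126 k252 8 (.d k127 k124 k67 0
  5))))))))))) .n))))) .n)))))))))

def t21_22 : T TT 256 :=
  (.q k255 [(.s k20 k40 5 (.s k85 k170 14 (.s k150 k215 8 (.s k105 k195 14 (.d k125 k65 k190 5
  8))))), (.s k62 k61 0 (.s k190 k125 8 (.s k126 k254 7 (.s k189 k252 8 (.d k191 k188 k127 0 7)))))]
  (.c k20 (.q k23 [(.s k3 k43 5 (.s k87 k171 13 (.s k127 k191 7 (.s k107 k67 5 (.d k151 k215 k195 7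
  13))))), (.s k61 k62 0 (.s k125 k190 8 (.s k189 k253 7 (.s k126 k252 8 (.d k127 k124 k191 0
  7))))), (.s k85 k170 14 (.s k3 k43 5 (.s k1 k2 0 (.s k169 k253 13 (.s k86 k252 14 (.d k87 k84 k171
  0 13))))))] .n) (.c k23 (.l (.s k20 k40 5 (.s k85 k170 14 (.s k150 k215 8 (.s k105 k195 14 (.d
  k125 k65 k190 5 8)))))) (.c k125 (.q k23 [(.s k3 k43 5 (.s k87 k171 13 (.s k151 k215 7 (.s k107
  k195 13 (.d k127 k67 k191 5 7))))), (.s k40 k20 5 (.s k170 k85 14 (.s k105 k235 8 (.s k61 k62 0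
  (.s k149 k193 13 (.d k191 k127 k128 7 6)))))), (.s k85 k170 14 (.s k3 k43 5 (.s k1 k2 0 (.s k169
  k253 13 (.s k86 k252 14 (.d k87 k84 k171 0 13))))))] .n) (.c k190 (.q k23 [(.s k3 k43 5 (.s k87
  k171 13 (.s k151 k215 7 (.s k107 k195 13 (.d k127 k67 k191 5 7))))), (.s k40 k20 5 (.s k170 k85 14
  (.s k105 k235 8 (.s k61 k62 0 (.s k149 k193 13 (.d k191 k127 k128 7 6)))))), (.s k85 k170 14 (.s
  k3 k43 5 (.s k1 k2 0 (.s k169 k253 13 (.s k86 k252 14 (.d k87 k84 k171 0 13))))))] .n) .n)))))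

def t21_23 : T TT 256 :=
  (.q k255 [(.s k61 k62 0 (.s k125 k190 8 (.s k189 k253 7 (.s k126 k252 8 (.d k127 k124 k191 0
  7))))), (.s k20 k40 5 (.s k85 k170 14 (.s k150 k215 8 (.s k105 k195 14 (.d k125 k65 k190 5 8)))))]
  (.c k20 (.q k22 [(.s k62 k61 0 (.s k2 k42 5 (.d k3 k1 k41 0 6))), (.s k61 k62 0 (.s k125 k190 8
  (.s k189 k253 7 (.s k126 k252 8 (.d k127 k124 k191 0 7)))))] (.c k61 (.l (.s k85 k170 14 (.s k3
  k41 6 (.s k1 k2 0 (.s k169 k253 13 (.s k86 k252 14 (.d k87 k84 k171 0 13))))))) (.c k62 (.l (.s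
  k85 k170 14 (.s k3 k41 6 (.s k1 k2 0 (.s k169 k253 13 (.s k86 k252 14 (.d k87 k84 k171 0 13)))))))
  .n))) (.c k22 (.l (.s k20 k40 5 (.s k85 k170 14 (.s k150 k215 8 (.s k105 k195 14 (.d k125 k65 k190
  5 8)))))) (.c k125 (.q k22 [(.s k62 k61 0 (.s k2 k42 5 (.d k3 k1 k41 0 6))), (.s k40 k20 5 (.s
  k170 k85 14 (.s k105 k235 8 (.s k61 k62 0 (.s k149 k193 13 (.d k191 k127 k128 7 6)))))), (.s k20
  k40 5 (.s k85 k170 14 (.s k150 k215 8 (.s k86 k214 7 (.s k87 k84 0 (.d k3 k41 k171 6 13))))))] (.c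
  k170 (.l (.s k40 k20 5 (.s k41 k3 6 (.s k42 k43 0 (.d k62 k61 k2 0 5))))) .n)) (.c k150 (.l (.s
  k62 k61 0 (.s k190 k125 8 (.s k126 k254 7 (.s k189 k252 8 (.d k191 k188 k127 0 7)))))) (.c k190
  (.q k22 [(.s k62 k61 0 (.s k2 k42 5 (.d k3 k1 k41 0 6))), (.s k40 k20 5 (.s k170 k85 14 (.s k105
  k235 8 (.s k61 k62 0 (.s k149 k193 13 (.d k191 k127 k128 7 6)))))), (.s k20 k40 5 (.s k85 k170 14
  (.s k150 k215 8 (.s k86 k214 7 (.s k87 k84 0 (.d k3 k41 k171 6 13))))))] (.c k170 (.l (.s k40 k20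
  5 (.s k41 k3 6 (.s k42 k43 0 (.d k62 k61 k2 0 5))))) .n)) .n))))))

def t21_24 : T TT 256 :=
  (.q k255 [(.s k61 k62 0 (.s k125 k190 8 (.s k189 k253 7 (.s k126 k252 8 (.d k127 k124 k191 0
  7))))), (.s k20 k40 5 (.s k85 k170 14 (.s k150 k215 8 (.s k105 k195 14 (.d k125 k65 k190 5 8))))),
  (.s k40 k20 5 (.s k170 k85 14 (.s k105 k235 8 (.s k61 k62 0 (.s k149 k193 13 (.d k191 k127 k128 7
  6))))))] (.c k150 (.l (.s k62 k61 0 (.s k190 k125 8 (.s k126 k254 7 (.s k189 k252 8 (.d k191 k188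
  k127 0 7)))))) .n))

def t21_25 : T TT 256 :=
  (.q k255 [(.s k20 k40 5 (.s k85 k170 14 (.s k150 k215 8 (.s k105 k195 14 (.d k125 k65 k190 5
  8))))), (.s k62 k61 0 (.s k190 k125 8 (.s k126 k254 7 (.s k189 k252 8 (.d k191 k188 k127 0 7))))),
  (.s k40 k20 5 (.s k170 k85 14 (.s k105 k235 8 (.s k61 k62 0 (.s k149 k193 13 (.d k191 k127 k128 7
  6))))))] (.c k17 (.q k29 [(.s k20 k40 5 (.s k85 k170 14 (.s k150 k215 8 (.s k105 k195 14 (.d k125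
  k65 k190 5 8))))), (.s k12 k46 4 (.s k28 k44 3 (.s k30 k31 0 (.s k45 k15 4 (.d k61 k62 k13 0
  3)))))] .n) (.c k29 (.q k17 [(.s k20 k40 5 (.s k85 k170 14 (.s k150 k215 8 (.s k105 k195 14 (.d
  k125 k65 k190 5 8))))), (.s k61 k62 0 (.s k125 k190 8 (.s k189 k253 7 (.s k126 k252 8 (.d k127
  k124 k191 0 7))))), (.s k51 k34 4 (.s k85 k170 14 (.s k153 k221 9 (.s k102 k204 14 (.d k119 k68
  k187 4 9)))))] .n) .n)))

def t21_26 : T TT 256 :=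
  (.q k255 [(.s k20 k40 5 (.s k85 k170 14 (.s k150 k215 8 (.s k105 k195 14 (.d k125 k65 k190 5
  8))))), (.s k62 k61 0 (.s k190 k125 8 (.s k126 k254 7 (.s k189 k252 8 (.d k191 k188 k127 0 7))))),
  (.s k40 k20 5 (.s k170 k85 14 (.s k105 k235 8 (.s k61 k62 0 (.s k149 k193 13 (.d k191 k127 k128 7
  6))))))] (.c k16 (.q k31 [(.s k20 k40 5 (.s k85 k170 14 (.s k150 k215 8 (.s k105 k195 14 (.d k125
  k65 k190 5 8))))), (.s k15 k47 3 (.s k30 k45 4 (.s k62 k61 0 (.s k46 k14 3 (.d k29 k28 k12 0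
  4)))))] .n) (.c k31 (.q k16 [(.s k48 k32 3 (.s k20 k40 5 (.s k24 k28 1 (.s k36 k12 5 (.d k52 k56
  k4 1 3))))), (.s k48 k32 3 (.s k85 k170 14 (.s k154 k223 10 (.s k101 k207 14 (.d k117 k69 k186 3
  10))))), (.s k20 k40 5 (.s k85 k170 14 (.s k150 k215 8 (.s k105 k195 14 (.d k125 k65 k190 5
  8)))))] .n) .n)))

def t21_27 : T TT 256 :=
  (.q k255 [(.s k20 k40 5 (.s k85 k170 14 (.s k150 k215 8 (.s k105 k195 14 (.d k125 k65 k190 5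
  8))))), (.s k62 k61 0 (.s k190 k125 8 (.s k126 k254 7 (.s k189 k252 8 (.d k191 k188 k127 0 7))))),
  (.s k40 k20 5 (.s k170 k85 14 (.s k105 k235 8 (.s k61 k62 0 (.s k149 k193 13 (.d k191 k127 k128 7
  6))))))] .n)

def t21_28 : T TT 256 :=
  (.q k255 [(.s k20 k40 5 (.s k85 k170 14 (.s k150 k215 8 (.s k105 k195 14 (.d k125 k65 k190 5
  8))))), (.s k62 k61 0 (.s k190 k125 8 (.s k126 k254 7 (.s k189 k252 8 (.d k191 k188 k127 0 7))))),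
  (.s k40 k20 5 (.s k170 k85 14 (.s k105 k235 8 (.s k61 k62 0 (.s k149 k193 13 (.d k191 k127 k128 7
  6))))))] .n)

def t21_29 : T TT 256 :=
  (.q k255 [(.s k20 k40 5 (.s k85 k170 14 (.s k150 k215 8 (.s k105 k195 14 (.d k125 k65 k190 5
  8))))), (.s k62 k61 0 (.s k190 k125 8 (.s k126 k254 7 (.s k189 k252 8 (.d k191 k188 k127 0 7))))),
  (.s k40 k20 5 (.s k170 k85 14 (.s k105 k235 8 (.s k61 k62 0 (.s k149 k193 13 (.d k191 k127 k128 7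
  6))))))] (.c k17 (.q k25 [(.s k20 k40 5 (.s k85 k170 14 (.s k150 k215 8 (.s k105 k195 14 (.d k125
  k65 k190 5 8))))), (.s k62 k61 0 (.s k190 k125 8 (.s k126 k254 7 (.s k189 k252 8 (.d k191 k188
  k127 0 7))))), (.s k40 k20 5 (.s k170 k85 14 (.s k105 k235 8 (.s k61 k62 0 (.s k149 k193 13 (.d
  k191 k127 k128 7 6))))))] .n) (.c k25 (.q k17 [(.s k20 k40 5 (.s k85 k170 14 (.s k150 k215 8 (.s
  k105 k195 14 (.d k125 k65 k190 5 8))))), (.s k61 k62 0 (.s k125 k190 8 (.s k189 k253 7 (.s k126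
  k252 8 (.d k127 k124 k191 0 7))))), (.s k51 k34 4 (.s k85 k170 14 (.s k153 k221 9 (.s k102 k204 14
  (.d k119 k68 k187 4 9)))))] .n) .n)))

def t21_30 : T TT 256 :=
  (.q k255 [(.s k20 k40 5 (.s k85 k170 14 (.s k150 k215 8 (.s k105 k195 14 (.d k125 k65 k190 5
  8))))), (.s k62 k61 0 (.s k190 k125 8 (.s k126 k254 7 (.s k189 k252 8 (.d k191 k188 k127 0 7))))),
  (.s k40 k20 5 (.s k170 k85 14 (.s k105 k235 8 (.s k61 k62 0 (.s k149 k193 13 (.d k191 k127 k128 7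
  6))))))] .n)

def t21_31 : T TT 256 :=
  (.q k255 [(.s k20 k40 5 (.s k85 k170 14 (.s k150 k215 8 (.s k105 k195 14 (.d k125 k65 k190 5
  8))))), (.s k62 k61 0 (.s k190 k125 8 (.s k126 k254 7 (.s k189 k252 8 (.d k191 k188 k127 0 7))))),
  (.s k40 k20 5 (.s k170 k85 14 (.s k105 k235 8 (.s k61 k62 0 (.s k149 k193 13 (.d k191 k127 k128 7
  6))))))] (.c k16 (.q k26 [(.s k20 k40 5 (.s k85 k170 14 (.s k150 k215 8 (.s k105 k195 14 (.d k125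
  k65 k190 5 8))))), (.s k62 k61 0 (.s k190 k125 8 (.s k126 k254 7 (.s k189 k252 8 (.d k191 k188
  k127 0 7))))), (.s k40 k20 5 (.s k170 k85 14 (.s k105 k235 8 (.s k61 k62 0 (.s k149 k193 13 (.d
  k191 k127 k128 7 6))))))] .n) (.c k26 (.q k16 [(.s k48 k32 3 (.s k20 k40 5 (.s k24 k28 1 (.s k36
  k12 5 (.d k52 k56 k4 1 3))))), (.s k48 k32 3 (.s k85 k170 14 (.s k154 k223 10 (.s k101 k207 14 (.d
  k117 k69 k186 3 10))))), (.s k20 k40 5 (.s k85 k170 14 (.s k150 k215 8 (.s k105 k195 14 (.d k125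
  k65 k190 5 8)))))] .n) .n)))

def t21_32 : T TT 256 :=
  (.q k255 [(.s k61 k62 0 (.s k125 k190 8 (.s k189 k253 7 (.s k126 k252 8 (.d k127 k124 k191 0
  7))))), (.s k20 k40 5 (.s k85 k170 14 (.s k150 k215 8 (.s k105 k195 14 (.d k125 k65 k190 5 8))))),
  (.s k40 k20 5 (.s k170 k85 14 (.s k105 k235 8 (.s k61 k62 0 (.s k149 k193 13 (.d k191 k127 k128 7
  6))))))] (.c k150 (.l (.s k62 k61 0 (.s k190 k125 8 (.s k126 k254 7 (.s k189 k252 8 (.d k191 k188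
  k127 0 7)))))) .n))

def t21_33 : T TT 256 :=
  (.q k255 [(.s k20 k40 5 (.s k85 k170 14 (.s k150 k215 8 (.s k105 k195 14 (.d k125 k65 k190 5
  8))))), (.s k62 k61 0 (.s k190 k125 8 (.s k126 k254 7 (.s k189 k252 8 (.d k191 k188 k127 0 7))))),
  (.s k40 k20 5 (.s k170 k85 14 (.s k105 k235 8 (.s k61 k62 0 (.s k149 k193 13 (.d k191 k127 k128 7
  6))))))] .n)

def t21_34 : T TT 256 :=
  (.q k255 [(.s k61 k62 0 (.s k125 k190 8 (.s k189 k253 7 (.s k126 k252 8 (.d k127 k124 k191 0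
  7))))), (.s k20 k40 5 (.s k85 k170 14 (.s k150 k215 8 (.s k105 k195 14 (.d k125 k65 k190 5 8))))),
  (.s k40 k20 5 (.s k170 k85 14 (.s k105 k235 8 (.s k61 k62 0 (.s k149 k193 13 (.d k191 k127 k128 7
  6))))))] (.c k150 (.l (.s k62 k61 0 (.s k190 k125 8 (.s k126 k254 7 (.s k189 k252 8 (.d k191 k188
  k127 0 7)))))) .n))

def t21_35 : T TT 256 :=
  (.q k255 [(.s k20 k40 5 (.s k85 k170 14 (.s k150 k215 8 (.s k105 k195 14 (.d k125 k65 k190 5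
  8))))), (.s k62 k61 0 (.s k190 k125 8 (.s k126 k254 7 (.s k189 k252 8 (.d k191 k188 k127 0 7))))),
  (.s k40 k20 5 (.s k170 k85 14 (.s k105 k235 8 (.s k61 k62 0 (.s k149 k193 13 (.d k191 k127 k128 7
  6))))))] .n)

def t21_36 : T TT 256 :=
  (.q k255 [(.s k61 k62 0 (.s k125 k190 8 (.s k189 k253 7 (.s k126 k252 8 (.d k127 k124 k191 0
  7))))), (.s k20 k40 5 (.s k85 k170 14 (.s k150 k215 8 (.s k105 k195 14 (.d k125 k65 k190 5 8))))),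
  (.s k40 k20 5 (.s k170 k85 14 (.s k105 k235 8 (.s k61 k62 0 (.s k149 k193 13 (.d k191 k127 k128 7
  6))))))] (.c k150 (.l (.s k62 k61 0 (.s k190 k125 8 (.s k126 k254 7 (.s k189 k252 8 (.d k191 k188
  k127 0 7)))))) .n))

def t21_37 : T TT 256 :=
  (.q k255 [(.s k20 k40 5 (.s k85 k170 14 (.s k150 k215 8 (.s k105 k195 14 (.d k125 k65 k190 5
  8))))), (.s k62 k61 0 (.s k190 k125 8 (.s k126 k254 7 (.s k189 k252 8 (.d k191 k188 k127 0 7))))),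
  (.s k40 k20 5 (.s k170 k85 14 (.s k105 k235 8 (.s k61 k62 0 (.s k149 k193 13 (.d k191 k127 k128 7
  6))))))] (.c k5 (.q k53 [(.s k20 k40 5 (.s k85 k170 14 (.s k150 k215 8 (.s k105 k195 14 (.d k125
  k65 k190 5 8))))), (.s k48 k58 2 (.s k52 k56 1 (.s k54 k55 0 (.s k57 k51 2 (.d k61 k62 k49 0
  1)))))] .n) (.c k53 (.q k5 [(.s k20 k40 5 (.s k85 k170 14 (.s k150 k215 8 (.s k105 k195 14 (.d
  k125 k65 k190 5 8))))), (.s k61 k62 0 (.s k125 k190 8 (.s k189 k253 7 (.s k126 k252 8 (.d k127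
  k124 k191 0 7))))), (.s k15 k10 2 (.s k85 k170 14 (.s k165 k245 11 (.s k90 k240 14 (.d k95 k80
  k175 2 11)))))] .n) .n)))

def t21_38 : T TT 256 :=
  (.q k255 [(.s k20 k40 5 (.s k85 k170 14 (.s k150 k215 8 (.s k105 k195 14 (.d k125 k65 k190 5
  8))))), (.s k62 k61 0 (.s k190 k125 8 (.s k126 k254 7 (.s k189 k252 8 (.d k191 k188 k127 0 7))))),
  (.s k40 k20 5 (.s k170 k85 14 (.s k105 k235 8 (.s k61 k62 0 (.s k149 k193 13 (.d k191 k127 k128 7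
  6))))))] (.c k4 (.q k55 [(.s k20 k40 5 (.s k85 k170 14 (.s k150 k215 8 (.s k105 k195 14 (.d k125
  k65 k190 5 8))))), (.s k51 k59 1 (.s k54 k57 2 (.s k62 k61 0 (.s k58 k50 1 (.d k53 k52 k48 0
  2)))))] .n) (.c k55 (.q k4 [(.s k12 k8 1 (.s k20 k40 5 (.s k36 k52 3 (.s k24 k48 5 (.d k28 k16 k44
  1 3))))), (.s k20 k40 5 (.s k85 k170 14 (.s k150 k215 8 (.s k105 k195 14 (.d k125 k65 k190 5
  8))))), (.s k12 k8 1 (.s k85 k170 14 (.s k166 k247 12 (.s k89 k243 14 (.d k93 k81 k174 1 12)))))]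
  .n) .n)))

def t21_39 : T TT 256 :=
  (.q k255 [(.s k20 k40 5 (.s k85 k170 14 (.s k150 k215 8 (.s k105 k195 14 (.d k125 k65 k190 5
  8))))), (.s k62 k61 0 (.s k190 k125 8 (.s k126 k254 7 (.s k189 k252 8 (.d k191 k188 k127 0 7))))),
  (.s k40 k20 5 (.s k170 k85 14 (.s k105 k235 8 (.s k61 k62 0 (.s k149 k193 13 (.d k191 k127 k128 7
  6))))))] .n)

def t21_40 : T TT 256 :=
  (.q k255 [(.s k61 k62 0 (.s k125 k190 8 (.s k189 k253 7 (.s k126 k252 8 (.d k127 k124 k191 0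
  7))))), (.s k170 k85 14 (.s k61 k62 0 (.s k190 k125 8 (.s k150 k130 5 (.s k105 k195 14 (.s k149
  k193 13 (.d k191 k127 k128 7 6))))))), (.s k62 k61 0 (.s k190 k125 8 (.s k126 k254 7 (.s k189 k252
  8 (.d k191 k188 k127 0 7)))))] (.c k61 (.q k41 [(.s k3 k22 6 (.s k87 k171 13 (.s k127 k191 7 (.s
  k107 k67 5 (.s k151 k195 13 (.d k23 k43 k215 5 7)))))), (.s k85 k170 14 (.s k125 k190 8 (.s k105
  k65 5 (.s k169 k233 7 (.s k1 k253 13 (.d k3 k2 k22 0 6))))))] (.c k3 (.q k12 [(.s k28 k44 3 (.s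
  k93 k174 12 (.s k158 k223 8 (.s k109 k207 12 (.d k125 k77 k190 3 8))))), (.s k4 k8 1 (.s k85 k170
  14 (.s k166 k247 12 (.s k89 k243 14 (.d k93 k81 k174 1 12))))), (.s k44 k28 3 (.s k46 k29 4 (.s
  k38 k35 2 (.s k34 k42 1 (.d k51 k17 k25 4 6)))))] .n) (.c k22 (.l (.s k170 k85 14 (.s k190 k125 8
  (.s k150 k130 5 (.s k105 k195 14 (.s k169 k233 7 (.s k188 k131 6 (.d k191 k189 k127 0 7))))))))
  .n))) (.c k62 (.q k150 [(.s k190 k125 8 (.d k170 k130 k85 5 14)), (.s k195 k105 14 (.s k235 k215 5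
  (.s k107 k151 13 (.s k171 k43 7 (.s k87 k3 13 (.d k127 k67 k191 5 7))))))] (.c k170 (.l (.s k195
  k105 14 (.s k235 k215 5 (.s k107 k151 13 (.s k171 k43 7 (.s k87 k3 13 (.d k127 k67 k191 5 7)))))))
  .n)) (.c k125 (.q k12 [(.s k44 k28 3 (.s k46 k29 4 (.s k45 k47 0 (.s k30 k15 4 (.d k62 k61 k14 0
  3))))), (.s k4 k8 1 (.s k85 k170 14 (.s k166 k247 12 (.s k89 k243 14 (.d k93 k81 k174 1 12)))))]
  .n) (.c k127 (.q k12 [(.s k28 k44 3 (.s k93 k174 12 (.s k158 k223 8 (.s k109 k207 12 (.d k125 k77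
  k190 3 8))))), (.s k4 k8 1 (.s k85 k170 14 (.s k166 k247 12 (.s k89 k243 14 (.d k93 k81 k174 1
  12))))), (.s k28 k44 3 (.s k29 k46 4 (.s k30 k31 0 (.s k45 k15 4 (.d k61 k62 k13 0 3)))))] (.c k64
  (.l (.s k85 k170 14 (.s k4 k8 1 (.s k166 k247 12 (.s k89 k243 14 (.d k93 k81 k174 1 12)))))) (.c
  k85 (.q k64 [(.s k192 k128 7 (.s k72 k132 9 (.s k68 k76 1 (.s k136 k204 9 (.d k8 k4 k200 1 7))))),
  (.s k28 k44 3 (.s k29 k46 4 (.s k30 k31 0 (.s k45 k15 4 (.d k61 k62 k13 0 3)))))] (.c k149 (.q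
  k213 [(.d k192 k234 k128 6 7), (.s k28 k44 3 (.s k29 k46 4 (.s k30 k31 0 (.s k45 k15 4 (.d k61 k62
  k13 0 3)))))] .n) (.c k213 (.q k149 [(.s k192 k128 7 (.s k72 k132 9 (.s k68 k76 1 (.s k136 k204 9
  (.d k8 k4 k200 1 7))))), (.s k8 k4 1 (.s k29 k46 4 (.s k89 k209 9 (.s k251 k170 12 (.d k243 k247
  k166 1 14))))), (.s k192 k128 7 (.s k29 k46 4 (.s k132 k72 9 (.s k89 k209 9 (.d k166 k183 k243 4
  14)))))] .n) .n))) .n))) (.c k190 (.q k12 [(.s k44 k28 3 (.s k46 k29 4 (.s k45 k47 0 (.s k30 k15 4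
  (.d k62 k61 k14 0 3))))), (.s k4 k8 1 (.s k85 k170 14 (.s k166 k247 12 (.s k89 k243 14 (.d k93 k81
  k174 1 12)))))] .n) (.c k191 (.q k12 [(.s k28 k44 3 (.s k93 k174 12 (.s k158 k223 8 (.s k109 k207
  12 (.d k125 k77 k190 3 8))))), (.s k4 k8 1 (.s k85 k170 14 (.s k166 k247 12 (.s k89 k243 14 (.d
  k93 k81 k174 1 12))))), (.s k28 k44 3 (.s k29 k46 4 (.s k30 k31 0 (.s k45 k15 4 (.d k61 k62 k13 0
  3)))))] .n) .n)))))))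

def t21_41 : T TT 256 :=
  (.q k255 [(.s k125 k190 8 (.s k127 k191 7 (.s k126 k124 0 (.s k189 k252 8 (.d k61 k62 k253 0
  7))))), (.s k20 k40 5 (.s k85 k170 14 (.s k150 k215 8 (.s k105 k195 14 (.d k125 k65 k190 5 8))))),
  (.s k40 k20 5 (.s k170 k85 14 (.s k105 k235 8 (.s k61 k62 0 (.s k149 k193 13 (.d k191 k127 k128 7
  6))))))] (.c k1 (.l (.s k61 k62 0 (.s k125 k190 8 (.s k189 k253 7 (.s k126 k252 8 (.d k127 k124
  k191 0 7)))))) (.c k61 (.q k1 [(.s k20 k40 5 (.s k85 k170 14 (.s k150 k215 8 (.s k105 k195 14 (.d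
  k125 k65 k190 5 8))))), (.s k3 k2 0 (.s k85 k170 14 (.s k87 k171 13 (.s k86 k84 0 (.d k169 k253
  k252 13 14))))), (.s k3 k2 0 (.s k23 k43 5 (.s k87 k171 13 (.s k151 k215 7 (.s k107 k195 13 (.d
  k127 k67 k191 5 7))))))] (.c k42 (.l (.s k40 k20 5 (.s k170 k85 14 (.s k105 k235 8 (.s k150 k195
  14 (.d k190 k130 k125 5 8)))))) .n)) .n)))

def t21_42 : T TT 256 :=
  (.q k255 [(.s k62 k61 0 (.s k190 k125 8 (.s k126 k254 7 (.s k189 k252 8 (.d k191 k188 k127 0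
  7))))), (.s k40 k20 5 (.s k170 k85 14 (.s k105 k235 8 (.s k150 k195 14 (.d k190 k130 k125 5
  8))))), (.s k40 k20 5 (.s k170 k85 14 (.s k105 k235 8 (.s k61 k62 0 (.s k149 k193 13 (.d k191 k127
  k128 7 6))))))] (.c k127 (.q k64 [(.s k192 k128 7 (.s k104 k148 13 (.s k84 k124 5 (.s k168 k252 13
  (.d k40 k20 k232 5 7))))), (.s k40 k20 5 (.s k170 k85 14 (.s k105 k235 8 (.s k150 k195 14 (.d k190
  k130 k125 5 8))))), (.s k128 k192 7 (.s k170 k85 14 (.s k61 k62 0 (.s k190 k125 8 (.s k149 k191 6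
  (.s k105 k193 13 (.d k150 k195 k130 14 5)))))))] (.c k125 (.l (.s k40 k20 5 (.s k192 k128 7 (.s
  k104 k148 13 (.s k168 k232 7 (.d k84 k124 k252 5 13)))))) (.c k170 (.q k234 [(.d k192 k213 k128 6
  7)] (.c k128 (.l (.s k40 k20 5 (.s k192 k213 6 (.s k104 k148 13 (.s k168 k232 7 (.d k84 k124 k252
  5 13)))))) (.c k192 (.q k53 [(.s k58 k48 2 (.s k62 k61 0 (.s k54 k50 1 (.s k51 k57 2 (.d k55 k52
  k59 0 1))))), (.s k61 k62 0 (.s k49 k57 1 (.s k125 k190 8 (.s k253 k189 7 (.s k117 k185 9 (.s k181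
  k245 7 (.d k121 k113 k241 1 9))))))), (.s k20 k40 5 (.s k48 k58 2 (.s k16 k32 3 (.s k24 k28 1 (.s
  k36 k12 5 (.d k52 k56 k4 1 3))))))] .n) (.c k213 (.l (.s k40 k20 5 (.s k192 k128 7 (.s k104 k148
  13 (.s k168 k232 7 (.d k84 k124 k252 5 13)))))) .n)))) (.c k234 (.l (.s k170 k85 14 (.s k40 k20 5
  (.s k105 k235 8 (.s k150 k195 14 (.d k190 k130 k125 5 8)))))) .n)))) (.c k170 (.q k234 [(.s k62
  k61 0 (.s k190 k125 8 (.s k126 k254 7 (.s k189 k252 8 (.d k191 k188 k127 0 7))))), (.s k20 k40 5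
  (.s k192 k213 6 (.s k148 k104 13 (.s k84 k212 7 (.s k168 k252 13 (.d k128 k188 k64 5 7)))))), (.s
  k61 k62 0 (.s k125 k190 8 (.s k189 k253 7 (.s k126 k252 8 (.d k127 k124 k191 0 7)))))] (.c k252
  (.l (.s k125 k190 8 (.s k127 k191 7 (.s k124 k126 0 (.s k192 k213 6 (.s k104 k148 13 (.d k64 k128
  k84 7 5))))))) .n)) (.c k234 (.l (.s k170 k85 14 (.s k40 k20 5 (.s k105 k235 8 (.s k150 k195 14
  (.d k190 k130 k125 5 8)))))) .n))))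

def t21_43 : T TT 256 :=
  (.q k255 [(.s k61 k62 0 (.s k125 k190 8 (.s k189 k253 7 (.s k126 k252 8 (.d k127 k124 k191 0
  7))))), (.s k20 k40 5 (.s k85 k170 14 (.s k150 k215 8 (.s k105 k195 14 (.d k125 k65 k190 5 8))))),
  (.s k40 k20 5 (.s k170 k85 14 (.s k105 k235 8 (.s k61 k62 0 (.s k149 k193 13 (.d k191 k127 k128 7
  6))))))] (.c k150 (.l (.s k62 k61 0 (.s k190 k125 8 (.s k126 k254 7 (.s k189 k252 8 (.d k191 k188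
  k127 0 7)))))) (.c k169 (.q k232 [(.s k61 k62 0 (.s k125 k190 8 (.s k127 k191 7 (.s k126 k124 0
  (.d k189 k253 k252 7 8))))), (.s k20 k40 5 (.s k85 k170 14 (.s k150 k215 8 (.s k105 k195 14 (.d
  k125 k65 k190 5 8))))), (.s k40 k20 5 (.s k170 k85 14 (.s k105 k235 8 (.s k61 k62 0 (.s k149 k193
  13 (.d k191 k127 k128 7 6))))))] (.c k150 (.l (.s k62 k61 0 (.s k190 k125 8 (.s k126 k254 7 (.s
  k189 k252 8 (.d k191 k188 k127 0 7)))))) .n)) (.c k232 (.q k169 [(.s k85 k170 14 (.s k253 k1 13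
  (.s k61 k62 0 (.d k125 k189 k190 7 8)))), (.s k85 k170 14 (.s k1 k253 13 (.s k3 k2 0 (.s k86 k252
  14 (.d k87 k84 k171 0 13))))), (.s k61 k62 0 (.s k125 k190 8 (.s k189 k253 7 (.s k126 k252 8 (.d
  k127 k124 k191 0 7)))))] (.c k253 (.l (.s k20 k40 5 (.s k85 k170 14 (.s k150 k215 8 (.s k105 k195
  14 (.d k125 k65 k190 5 8)))))) .n)) .n))))

def t21_44 : T TT 256 :=
  (.q k255 [(.s k61 k62 0 (.s k125 k190 8 (.s k189 k253 7 (.s k126 k252 8 (.d k127 k124 k191 0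
  7))))), (.s k20 k40 5 (.s k85 k170 14 (.s k150 k215 8 (.s k105 k195 14 (.d k125 k65 k190 5 8))))),
  (.s k40 k20 5 (.s k170 k85 14 (.s k105 k235 8 (.s k61 k62 0 (.s k149 k193 13 (.d k191 k127 k128 7
  6))))))] (.c k150 (.l (.s k62 k61 0 (.s k190 k125 8 (.s k126 k254 7 (.s k189 k252 8 (.d k191 k188
  k127 0 7)))))) .n))

def t21_45 : T TT 256 :=
  (.q k255 [(.s k20 k40 5 (.s k85 k170 14 (.s k150 k215 8 (.s k105 k195 14 (.d k125 k65 k190 5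
  8))))), (.s k62 k61 0 (.s k190 k125 8 (.s k126 k254 7 (.s k189 k252 8 (.d k191 k188 k127 0 7))))),
  (.s k40 k20 5 (.s k170 k85 14 (.s k105 k235 8 (.s k61 k62 0 (.s k149 k193 13 (.d k191 k127 k128 7
  6))))))] .n)

def t21_46 : T TT 256 :=
  (.q k255 [(.s k20 k40 5 (.s k85 k170 14 (.s k150 k215 8 (.s k105 k195 14 (.d k125 k65 k190 5
  8))))), (.s k62 k61 0 (.s k190 k125 8 (.s k126 k254 7 (.s k189 k252 8 (.d k191 k188 k127 0 7))))),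
  (.s k40 k20 5 (.s k170 k85 14 (.s k105 k235 8 (.s k61 k62 0 (.s k149 k193 13 (.d k191 k127 k128 7
  6))))))] (.c k166 (.q k226 [(.s k62 k61 0 (.s k190 k125 8 (.s k126 k254 7 (.s k189 k252 8 (.d k191
  k188 k127 0 7))))), (.s k20 k40 5 (.s k85 k170 14 (.s k150 k215 8 (.s k105 k195 14 (.d k125 k65
  k190 5 8))))), (.s k40 k20 5 (.s k170 k85 14 (.s k105 k235 8 (.s k61 k62 0 (.s k149 k193 13 (.d
  k191 k127 k128 7 6))))))] .n) (.c k226 (.q k166 [(.s k20 k40 5 (.s k85 k170 14 (.s k150 k215 8 (.s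
  k105 k195 14 (.d k125 k65 k190 5 8))))), (.s k61 k62 0 (.s k125 k190 8 (.s k189 k253 7 (.s k126
  k252 8 (.d k127 k124 k191 0 7))))), (.s k85 k170 14 (.s k4 k247 12 (.s k12 k8 1 (.s k89 k243 14
  (.d k93 k81 k174 1 12)))))] .n) .n)))

def t21_47 : T TT 256 :=
  (.q k255 [(.s k20 k40 5 (.s k85 k170 14 (.s k150 k215 8 (.s k105 k195 14 (.d k125 k65 k190 5
  8))))), (.s k62 k61 0 (.s k190 k125 8 (.s k126 k254 7 (.s k189 k252 8 (.d k191 k188 k127 0 7))))),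
  (.s k40 k20 5 (.s k170 k85 14 (.s k105 k235 8 (.s k61 k62 0 (.s k149 k193 13 (.d k191 k127 k128 7
  6))))))] (.c k165 (.q k224 [(.s k61 k62 0 (.s k125 k190 8 (.s k189 k253 7 (.s k126 k252 8 (.d k127
  k124 k191 0 7))))), (.s k20 k40 5 (.s k85 k170 14 (.s k150 k215 8 (.s k105 k195 14 (.d k125 k65
  k190 5 8))))), (.s k40 k20 5 (.s k170 k85 14 (.s k105 k235 8 (.s k61 k62 0 (.s k149 k193 13 (.d
  k191 k127 k128 7 6))))))] (.c k150 (.l (.s k62 k61 0 (.s k190 k125 8 (.s k126 k254 7 (.s k189 k252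
  8 (.d k191 k188 k127 0 7)))))) .n)) (.c k224 (.q k165 [(.s k20 k40 5 (.s k85 k170 14 (.s k150 k215
  8 (.s k105 k195 14 (.d k125 k65 k190 5 8))))), (.s k61 k62 0 (.s k125 k190 8 (.s k189 k253 7 (.s
  k126 k252 8 (.d k127 k124 k191 0 7))))), (.s k85 k170 14 (.s k5 k245 11 (.s k15 k10 2 (.s k90 k240
  14 (.d k95 k80 k175 2 11)))))] .n) .n)))

def t21_48 : T TT 256 :=
  (.q k255 [(.s k20 k40 5 (.s k85 k170 14 (.s k150 k215 8 (.s k125 k190 8 (.d k105 k65 k195 5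
  14))))), (.s k62 k61 0 (.s k190 k125 8 (.s k126 k254 7 (.s k189 k252 8 (.d k191 k188 k127 0
  7))))), (.s k40 k20 5 (.s k170 k85 14 (.s k105 k235 8 (.s k61 k62 0 (.s k149 k193 13 (.d k191 k127
  k128 7 6))))))] .n)

def t21_49 : T TT 256 :=
  (.q k255 [(.s k20 k40 5 (.s k85 k170 14 (.s k150 k215 8 (.s k105 k195 14 (.d k125 k65 k190 5
  8))))), (.s k62 k61 0 (.s k190 k125 8 (.s k126 k254 7 (.s k189 k252 8 (.d k191 k188 k127 0 7))))),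
  (.s k40 k20 5 (.s k170 k85 14 (.s k105 k235 8 (.s k61 k62 0 (.s k149 k193 13 (.d k191 k127 k128 7
  6))))))] .n)

def t21_50 : T TT 256 :=
  (.q k255 [(.s k20 k40 5 (.s k85 k170 14 (.s k150 k215 8 (.s k105 k195 14 (.d k125 k65 k190 5
  8))))), (.s k62 k61 0 (.s k190 k125 8 (.s k126 k254 7 (.s k189 k252 8 (.d k191 k188 k127 0 7))))),
  (.s k40 k20 5 (.s k170 k85 14 (.s k105 k235 8 (.s k61 k62 0 (.s k149 k193 13 (.d k191 k127 k128 7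
  6))))))] .n)

def t21_51 : T TT 256 :=
  (.q k255 [(.s k20 k40 5 (.s k85 k170 14 (.s k150 k215 8 (.s k125 k190 8 (.d k105 k65 k195 5
  14))))), (.s k62 k61 0 (.s k190 k125 8 (.s k126 k254 7 (.s k189 k252 8 (.d k191 k188 k127 0
  7))))), (.s k40 k20 5 (.s k170 k85 14 (.s k105 k235 8 (.s k61 k62 0 (.s k149 k193 13 (.d k191 k127
  k128 7 6))))))] .n)

def t21_52 : T TT 256 :=
  (.q k255 [(.s k20 k40 5 (.s k85 k170 14 (.s k150 k215 8 (.s k105 k195 14 (.d k125 k65 k190 5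
  8))))), (.s k62 k61 0 (.s k190 k125 8 (.s k126 k254 7 (.s k189 k252 8 (.d k191 k188 k127 0 7))))),
  (.s k40 k20 5 (.s k170 k85 14 (.s k105 k235 8 (.s k61 k62 0 (.s k149 k193 13 (.d k191 k127 k128 7
  6))))))] .n)

def t21_53 : T TT 256 :=
  (.q k255 [(.s k20 k40 5 (.s k85 k170 14 (.s k150 k215 8 (.s k105 k195 14 (.d k125 k65 k190 5
  8))))), (.s k62 k61 0 (.s k190 k125 8 (.s k126 k254 7 (.s k189 k252 8 (.d k191 k188 k127 0 7))))),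
  (.s k40 k20 5 (.s k170 k85 14 (.s k105 k235 8 (.s k61 k62 0 (.s k149 k193 13 (.d k191 k127 k128 7
  6))))))] (.c k5 (.q k37 [(.s k20 k40 5 (.s k85 k170 14 (.s k150 k215 8 (.s k105 k195 14 (.d k125
  k65 k190 5 8))))), (.s k62 k61 0 (.s k190 k125 8 (.s k126 k254 7 (.s k189 k252 8 (.d k191 k188
  k127 0 7))))), (.s k40 k20 5 (.s k170 k85 14 (.s k105 k235 8 (.s k61 k62 0 (.s k149 k193 13 (.d
  k191 k127 k128 7 6))))))] .n) (.c k37 (.q k5 [(.s k20 k40 5 (.s k85 k170 14 (.s k150 k215 8 (.s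
  k105 k195 14 (.d k125 k65 k190 5 8))))), (.s k61 k62 0 (.s k125 k190 8 (.s k189 k253 7 (.s k126
  k252 8 (.d k127 k124 k191 0 7))))), (.s k15 k10 2 (.s k85 k170 14 (.s k165 k245 11 (.s k90 k240 14
  (.d k95 k80 k175 2 11)))))] .n) .n)))

def t21_54 : T TT 256 :=
  (.q k255 [(.s k20 k40 5 (.s k85 k170 14 (.s k150 k215 8 (.s k105 k195 14 (.d k125 k65 k190 5
  8))))), (.s k62 k61 0 (.s k190 k125 8 (.s k126 k254 7 (.s k189 k252 8 (.d k191 k188 k127 0 7))))),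
  (.s k40 k20 5 (.s k170 k85 14 (.s k105 k235 8 (.s k61 k62 0 (.s k149 k193 13 (.d k191 k127 k128 7
  6))))))] .n)

def t21_55 : T TT 256 :=
  (.q k255 [(.s k20 k40 5 (.s k85 k170 14 (.s k150 k215 8 (.s k105 k195 14 (.d k125 k65 k190 5
  8))))), (.s k62 k61 0 (.s k190 k125 8 (.s k126 k254 7 (.s k189 k252 8 (.d k191 k188 k127 0 7))))),
  (.s k40 k20 5 (.s k170 k85 14 (.s k105 k235 8 (.s k61 k62 0 (.s k149 k193 13 (.d k191 k127 k128 7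
  6))))))] (.c k4 (.q k38 [(.s k20 k40 5 (.s k85 k170 14 (.s k150 k215 8 (.s k105 k195 14 (.d k125
  k65 k190 5 8))))), (.s k62 k61 0 (.s k190 k125 8 (.s k126 k254 7 (.s k189 k252 8 (.d k191 k188
  k127 0 7))))), (.s k40 k20 5 (.s k170 k85 14 (.s k105 k235 8 (.s k61 k62 0 (.s k149 k193 13 (.d
  k191 k127 k128 7 6))))))] .n) (.c k38 (.q k4 [(.s k12 k8 1 (.s k20 k40 5 (.s k36 k52 3 (.s k24 k48
  5 (.d k28 k16 k44 1 3))))), (.s k20 k40 5 (.s k85 k170 14 (.s k150 k215 8 (.s k105 k195 14 (.d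
  k125 k65 k190 5 8))))), (.s k12 k8 1 (.s k85 k170 14 (.s k166 k247 12 (.s k89 k243 14 (.d k93 k81
  k174 1 12)))))] .n) .n)))

def t21_56 : T TT 256 :=
  (.q k255 [(.s k61 k62 0 (.s k125 k190 8 (.s k189 k253 7 (.s k126 k252 8 (.d k127 k124 k191 0
  7))))), (.s k20 k40 5 (.s k85 k170 14 (.s k150 k215 8 (.s k105 k195 14 (.d k125 k65 k190 5 8))))),
  (.s k40 k20 5 (.s k170 k85 14 (.s k105 k235 8 (.s k61 k62 0 (.s k149 k193 13 (.d k191 k127 k128 7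
  6))))))] (.c k150 (.l (.s k62 k61 0 (.s k190 k125 8 (.s k126 k254 7 (.s k189 k252 8 (.d k191 k188
  k127 0 7)))))) .n))

def t21_57 : T TT 256 :=
  (.q k255 [(.s k20 k40 5 (.s k85 k170 14 (.s k150 k215 8 (.s k105 k195 14 (.d k125 k65 k190 5
  8))))), (.s k62 k61 0 (.s k190 k125 8 (.s k126 k254 7 (.s k189 k252 8 (.d k191 k188 k127 0 7))))),
  (.s k40 k20 5 (.s k170 k85 14 (.s k105 k235 8 (.s k61 k62 0 (.s k149 k193 13 (.d k191 k127 k128 7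
  6))))))] .n)

def t21_58 : T TT 256 :=
  (.q k255 [(.s k20 k40 5 (.s k85 k170 14 (.s k150 k215 8 (.s k105 k195 14 (.d k125 k65 k190 5
  8))))), (.s k62 k61 0 (.s k190 k125 8 (.s k126 k254 7 (.s k189 k252 8 (.d k191 k188 k127 0 7))))),
  (.s k40 k20 5 (.s k170 k85 14 (.s k105 k235 8 (.s k61 k62 0 (.s k149 k193 13 (.d k191 k127 k128 7
  6))))))] (.c k154 (.q k202 [(.s k62 k61 0 (.s k190 k125 8 (.s k126 k254 7 (.s k189 k252 8 (.d k191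
  k188 k127 0 7))))), (.s k20 k40 5 (.s k85 k170 14 (.s k150 k215 8 (.s k105 k195 14 (.d k125 k65
  k190 5 8))))), (.s k40 k20 5 (.s k170 k85 14 (.s k105 k235 8 (.s k61 k62 0 (.s k149 k193 13 (.d
  k191 k127 k128 7 6))))))] .n) (.c k202 (.q k154 [(.s k20 k40 5 (.s k85 k170 14 (.s k150 k215 8 (.s
  k105 k195 14 (.d k125 k65 k190 5 8))))), (.s k61 k62 0 (.s k125 k190 8 (.s k189 k253 7 (.s k126
  k252 8 (.d k127 k124 k191 0 7))))), (.s k85 k170 14 (.s k16 k223 10 (.s k48 k32 3 (.s k101 k207 14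
  (.d k117 k69 k186 3 10)))))] .n) .n)))

def t21_59 : T TT 256 :=
  (.q k255 [(.s k20 k40 5 (.s k85 k170 14 (.s k150 k215 8 (.s k105 k195 14 (.d k125 k65 k190 5
  8))))), (.s k62 k61 0 (.s k190 k125 8 (.s k126 k254 7 (.s k189 k252 8 (.d k191 k188 k127 0 7))))),
  (.s k40 k20 5 (.s k170 k85 14 (.s k105 k235 8 (.s k61 k62 0 (.s k149 k193 13 (.d k191 k127 k128 7
  6))))))] (.c k153 (.q k200 [(.s k61 k62 0 (.s k125 k190 8 (.s k189 k253 7 (.s k126 k252 8 (.d k127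
  k124 k191 0 7))))), (.s k20 k40 5 (.s k85 k170 14 (.s k150 k215 8 (.s k105 k195 14 (.d k125 k65
  k190 5 8))))), (.s k40 k20 5 (.s k170 k85 14 (.s k105 k235 8 (.s k61 k62 0 (.s k149 k193 13 (.d
  k191 k127 k128 7 6))))))] (.c k150 (.l (.s k62 k61 0 (.s k190 k125 8 (.s k126 k254 7 (.s k189 k252
  8 (.d k191 k188 k127 0 7)))))) .n)) (.c k200 (.q k153 [(.s k20 k40 5 (.s k85 k170 14 (.s k150 k215
  8 (.s k105 k195 14 (.d k125 k65 k190 5 8))))), (.s k61 k62 0 (.s k125 k190 8 (.s k189 k253 7 (.s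
  k126 k252 8 (.d k127 k124 k191 0 7))))), (.s k85 k170 14 (.s k17 k221 9 (.s k51 k34 4 (.s k102
  k204 14 (.d k119 k68 k187 4 9)))))] .n) .n)))

def t21_61 : T TT 256 :=
  (.q k12 [(.s k4 k8 1 (.s k20 k40 5 (.s k36 k52 3 (.s k24 k48 5 (.d k28 k16 k44 1 3)))))] (.c k1
  (.q k41 [(.s k40 k20 5 (.s k43 k42 0 (.d k3 k23 k22 5 6))), (.s k4 k8 1 (.s k20 k40 5 (.s k36 k52
  3 (.s k24 k48 5 (.d k28 k16 k44 1 3))))), (.s k22 k3 6 (.s k28 k44 3 (.s k25 k19 2 (.s k57 k9 3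
  (.d k51 k54 k38 2 6)))))] .n) (.c k4 (.q k41 [(.s k40 k20 5 (.s k43 k42 0 (.d k3 k23 k22 5 6))),
  (.s k22 k3 6 (.s k28 k44 3 (.s k25 k19 2 (.s k57 k9 3 (.d k51 k38 k54 6 2))))), (.s k44 k28 3 (.s
  k46 k29 4 (.s k38 k35 2 (.s k34 k42 1 (.d k51 k17 k25 4 6)))))] (.c k38 (.q k55 [(.s k22 k3 6 (.s
  k28 k44 3 (.s k25 k19 2 (.s k57 k9 3 (.d k51 k59 k54 1 2))))), (.s k40 k20 5 (.s k43 k42 0 (.d k3
  k23 k22 5 6))), (.s k20 k40 5 (.s k28 k44 3 (.s k16 k24 1 (.s k51 k59 1 (.s k54 k57 2 (.s k53 k52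
  0 (.d k48 k58 k32 2 3)))))))] .n) (.c k55 (.q k38 [(.d k44 k35 k28 2 3), (.s k40 k20 5 (.s k46 k29
  4 (.d k42 k43 k34 0 1)))] .n) .n))) (.c k8 (.q k41 [(.s k40 k20 5 (.s k43 k42 0 (.d k3 k23 k22 5
  6))), (.s k22 k3 6 (.s k28 k44 3 (.s k25 k19 2 (.s k57 k9 3 (.d k51 k54 k38 2 6))))), (.s k44 k28
  3 (.s k46 k29 4 (.s k38 k35 2 (.s k34 k42 1 (.d k51 k17 k25 4 6)))))] (.c k25 (.l (.s k40 k20 5
  (.s k44 k28 3 (.s k38 k35 2 (.s k42 k43 0 (.d k46 k34 k29 1 4)))))) .n)) (.c k16 (.l (.s k8 k4 1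
  (.s k40 k20 5 (.s k24 k56 3 (.s k36 k48 5 (.d k44 k28 k32 3 1)))))) (.c k20 (.q k41 [(.s k22 k3 6
  (.s k28 k44 3 (.s k25 k19 2 (.s k57 k9 3 (.d k51 k54 k38 2 6))))), (.s k4 k8 1 (.s k3 k22 6 (.s
  k23 k43 5 (.s k2 k1 0 (.s k6 k9 2 (.s k10 k14 1 (.d k5 k7 k15 0 2))))))), (.s k44 k28 3 (.s k46
  k29 4 (.s k38 k35 2 (.s k34 k42 1 (.d k51 k17 k25 4 6)))))] (.c k22 (.q k23 [(.s k3 k43 5 (.s k9
  k6 2 (.s k25 k57 3 (.s k38 k51 6 (.d k44 k35 k28 2 3))))), (.s k44 k28 3 (.s k46 k29 4 (.s k38 k35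
  2 (.s k34 k42 1 (.d k51 k17 k25 4 6))))), (.s k4 k8 1 (.s k3 k43 5 (.s k2 k1 0 (.s k6 k9 2 (.s k10
  k14 1 (.d k5 k7 k15 0 2))))))] .n) (.c k23 (.l (.s k22 k3 6 (.s k28 k44 3 (.s k25 k19 2 (.s k57 k9
  3 (.d k51 k54 k38 2 6)))))) .n))) (.c k24 (.q k41 [(.s k40 k20 5 (.s k43 k42 0 (.d k3 k23 k22 5
  6))), (.s k22 k3 6 (.s k28 k44 3 (.s k25 k19 2 (.s k57 k9 3 (.d k51 k54 k38 2 6))))), (.s k44 k28
  3 (.s k46 k29 4 (.s k38 k35 2 (.s k34 k42 1 (.d k51 k17 k25 4 6)))))] (.c k28 (.l (.s k4 k8 1 (.s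
  k3 k22 6 (.s k2 k1 0 (.s k6 k9 2 (.s k10 k14 1 (.d k5 k7 k15 0 2))))))) .n)) (.c k28 (.f k4 k8 1
  (.q k255 [(.s k85 k170 14 (.s k166 k247 12 (.s k89 k243 14 (.d k93 k81 k174 1 12)))), (.s k40 k20
  5 (.s k170 k85 14 (.s k105 k235 8 (.s k150 k195 14 (.d k190 k130 k125 5 8))))), (.s k29 k46 4 (.s
  k93 k174 12 (.s k157 k221 7 (.s k110 k204 12 (.d k127 k76 k191 4 7)))))] (.c k1 (.q k41 [(.s k85
  k170 14 (.s k166 k247 12 (.s k89 k243 14 (.d k93 k81 k174 1 12)))), (.s k40 k20 5 (.s k170 k85 14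
  (.s k105 k235 8 (.s k150 k195 14 (.d k190 k130 k125 5 8))))), (.s k29 k46 4 (.s k93 k174 12 (.s
  k157 k221 7 (.s k110 k204 12 (.d k127 k76 k191 4 7)))))] .n) (.c k41 (.q k1 [(.s k85 k170 14 (.s
  k166 k247 12 (.s k89 k243 14 (.d k93 k81 k174 1 12)))), (.s k40 k20 5 (.s k170 k85 14 (.s k105
  k235 8 (.s k150 k195 14 (.d k190 k130 k125 5 8))))), (.s k29 k46 4 (.s k93 k174 12 (.s k157 k221 7
  (.s k110 k204 12 (.d k127 k76 k191 4 7)))))] .n) .n)))) (.c k36 (.q k41 [(.s k40 k20 5 (.s k43 k42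
  0 (.d k3 k23 k22 5 6))), (.s k22 k3 6 (.s k28 k44 3 (.s k25 k19 2 (.s k57 k9 3 (.d k51 k54 k38 2
  6))))), (.s k44 k28 3 (.s k46 k29 4 (.s k38 k35 2 (.s k34 k42 1 (.d k51 k17 k25 4 6)))))] .n) (.c
  k40 (.q k41 [(.s k22 k3 6 (.s k44 k28 3 (.s k38 k35 2 (.s k54 k6 3 (.d k51 k57 k25 2 6))))), (.s
  k4 k8 1 (.s k3 k22 6 (.s k2 k1 0 (.s k6 k9 2 (.s k10 k14 1 (.d k5 k7 k15 0 2)))))), (.s k44 k28 3
  (.s k46 k29 4 (.s k38 k35 2 (.s k34 k42 1 (.d k51 k17 k25 4 6)))))] .n) (.c k41 (.q k1 [(.s k4 k8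
  1 (.s k20 k40 5 (.s k36 k52 3 (.s k24 k48 5 (.d k28 k16 k44 1 3))))), (.s k3 k2 0 (.s k8 k4 1 (.s
  k9 k6 2 (.s k5 k13 1 (.d k10 k11 k15 0 2))))), (.s k3 k2 0 (.s k9 k6 2 (.s k5 k13 1 (.s k28 k44 3
  (.s k29 k46 4 (.s k30 k31 0 (.d k15 k10 k45 2 4)))))))] .n) (.c k44 (.q k41 [(.s k40 k20 5 (.s k43
  k42 0 (.d k3 k23 k22 5 6))), (.s k4 k8 1 (.s k20 k40 5 (.s k3 k22 6 (.s k2 k1 0 (.s k6 k9 2 (.s
  k10 k14 1 (.d k5 k7 k15 0 2)))))))] (.c k3 (.l (.s k8 k4 1 (.s k40 k20 5 (.s k46 k29 4 (.s k42 k43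
  0 (.s k25 k59 4 (.d k38 k34 k51 1 6))))))) (.c k20 (.l (.s k4 k8 1 (.s k3 k22 6 (.s k23 k43 5 (.s
  k2 k1 0 (.s k6 k9 2 (.s k10 k14 1 (.d k5 k7 k15 0 2)))))))) (.c k22 (.q k38 [(.s k46 k29 4 (.s k42
  k34 1 (.d k40 k20 k43 5 0))), (.s k4 k8 1 (.s k20 k40 5 (.s k36 k52 3 (.s k37 k39 0 (.s k45 k33 1
  (.s k15 k30 4 (.d k48 k24 k26 5 6))))))), (.s k8 k4 1 (.s k25 k51 6 (.s k42 k59 4 (.d k46 k34 k29
  1 4))))] (.c k20 (.q k23 [(.s k3 k43 5 (.s k9 k6 2 (.d k25 k57 k51 3 6))), (.s k46 k29 4 (.s k34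
  k42 1 (.d k51 k17 k25 4 6))), (.s k43 k3 5 (.s k42 k40 0 (.d k46 k34 k29 1 4)))] .n) (.c k23 (.l
  (.s k20 k40 5 (.s k46 k29 4 (.s k34 k42 1 (.d k51 k17 k25 4 6))))) .n))) (.c k40 (.l (.s k4 k8 1
  (.s k3 k22 6 (.s k2 k1 0 (.s k6 k9 2 (.s k10 k14 1 (.d k5 k7 k15 0 2))))))) .n))))) (.c k48 (.q
  k41 [(.s k40 k20 5 (.s k43 k42 0 (.d k3 k23 k22 5 6))), (.s k22 k3 6 (.s k28 k44 3 (.s k25 k19 2
  (.s k57 k9 3 (.d k51 k54 k38 2 6))))), (.s k44 k28 3 (.s k46 k29 4 (.s k38 k35 2 (.s k34 k42 1 (.d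
  k51 k17 k25 4 6)))))] .n) (.c k52 (.l (.s k8 k4 1 (.s k44 k28 3 (.s k40 k20 5 (.s k36 k32 1 (.d
  k24 k56 k48 3 5)))))) (.c k56 (.l (.s k4 k8 1 (.s k28 k44 3 (.s k20 k40 5 (.s k24 k16 1 (.d k36
  k52 k48 3 5)))))) .n)))))))))))))))

def t21_62 : T TT 256 :=
  (.q k150 [(.s k20 k40 5 (.s k85 k215 8 (.s k170 k255 14 (.s k195 k105 14 (.d k130 k190 k65 5
  8))))), (.s k40 k20 5 (.s k105 k195 14 (.s k170 k235 8 (.s k255 k85 14 (.d k190 k130 k125 5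
  8)))))] (.c k20 (.q k255 [(.s k190 k125 8 (.d k170 k130 k85 5 14)), (.s k195 k105 14 (.s k107 k151
  13 (.s k127 k191 7 (.s k87 k67 5 (.s k171 k3 13 (.d k235 k215 k43 5 7))))))] (.c k22 (.q k23 [(.s
  k190 k125 8 (.d k170 k130 k85 5 14)), (.s k3 k43 5 (.s k87 k171 13 (.s k151 k215 7 (.d k195 k107
  k105 13 14))))] (.c k2 (.q k42 [(.s k190 k125 8 (.d k170 k130 k85 5 14)), (.s k3 k43 5 (.s k87
  k171 13 (.s k151 k215 7 (.d k195 k107 k105 13 14))))] .n) (.c k42 (.q k2 [(.d k3 k1 k43 0 5), (.s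
  k170 k85 14 (.d k190 k130 k125 5 8))] (.c k170 (.q k234 [(.d k3 k1 k43 0 5), (.s k195 k105 14 (.s
  k130 k65 8 (.s k194 k66 7 (.d k192 k193 k213 0 6))))] .n) (.c k234 (.l (.s k170 k85 14 (.d k3 k1
  k43 0 5))) .n))) .n))) (.c k23 (.q k22 [(.s k190 k125 8 (.d k170 k130 k85 5 14)), (.s k3 k41 6 (.s
  k87 k171 13 (.s k86 k214 7 (.s k84 k85 0 (.d k252 k168 k169 13 14)))))] (.c k85 (.l (.s k190 k125
  8 (.s k130 k170 5 (.d k195 k65 k105 8 14)))) .n)) .n))) (.c k40 (.q k255 [(.s k190 k125 8 (.d k170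
  k130 k85 5 14)), (.s k195 k105 14 (.s k235 k215 5 (.s k107 k151 13 (.s k171 k43 7 (.s k87 k3 13
  (.d k127 k67 k191 5 7))))))] (.c k170 (.l (.s k195 k105 14 (.s k235 k215 5 (.s k107 k151 13 (.s
  k171 k43 7 (.s k87 k3 13 (.d k127 k67 k191 5 7))))))) .n)) (.c k85 (.q k149 [(.s k151 k148 0 (.d
  k195 k107 k105 13 14)), (.s k20 k40 5 (.s k148 k151 0 (.s k84 k212 7 (.s k168 k252 13 (.s k128
  k188 5 (.d k192 k64 k104 7 13)))))), (.s k40 k20 5 (.s k105 k195 14 (.s k170 k235 8 (.s k191 k128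
  6 (.s k190 k130 5 (.d k255 k127 k125 7 8))))))] (.c k64 (.q k127 [(.s k151 k148 0 (.d k195 k107
  k105 13 14)), (.s k40 k20 5 (.s k105 k195 14 (.s k170 k235 8 (.d k191 k255 k128 7 6))))] (.c k105
  (.l (.s k191 k255 7 (.s k170 k128 6 (.s k130 k190 5 (.s k151 k148 0 (.d k195 k65 k107 8 13))))))
  (.c k195 (.l (.s k20 k40 5 (.s k191 k255 7 (.s k128 k170 6 (.s k148 k151 0 (.s k84 k212 7 (.d k168
  k188 k252 5 13))))))) .n))) (.c k127 (.q k64 [(.s k192 k128 7 (.d k148 k151 k104 0 13)), (.s k151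
  k148 0 (.d k195 k107 k105 13 14)), (.s k40 k20 5 (.s k128 k192 7 (.s k105 k195 14 (.d k170 k191
  k235 6 8))))] .n) .n))) (.c k105 (.q k12 [(.s k4 k8 1 (.s k20 k40 5 (.s k36 k52 3 (.s k24 k48 5
  (.d k28 k16 k44 1 3))))), (.s k8 k4 1 (.s k28 k44 3 (.s k89 k211 10 (.s k170 k251 12 (.s k255 k85
  14 (.d k190 k125 k130 8 5)))))), (.s k20 k40 5 (.s k28 k44 3 (.s k85 k215 8 (.s k89 k211 10 (.s
  k81 k93 1 (.d k243 k166 k162 14 12)))))), (.s k4 k8 1 (.s k20 k40 5 (.s k85 k215 8 (.s k166 k247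
  12 (.s k243 k89 14 (.d k182 k121 k134 10 3))))))] (.c k104 (.q k107 [(.s k4 k8 1 (.s k20 k40 5 (.s
  k36 k52 3 (.s k24 k48 5 (.d k28 k16 k44 1 3))))), (.s k28 k44 3 (.s k29 k46 4 (.s k89 k211 10 (.s
  k149 k209 9 (.d k151 k148 k195 0 13))))), (.s k20 k40 5 (.s k85 k215 8 (.s k170 k255 14 (.s k195
  k151 13 (.d k130 k190 k65 5 8)))))] .n) (.c k107 (.q k104 [(.s k4 k8 1 (.s k20 k40 5 (.s k36 k52 3
  (.s k24 k48 5 (.d k28 k16 k44 1 3))))), (.s k28 k44 3 (.s k29 k46 4 (.s k89 k211 10 (.s k149 k209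
  9 (.d k148 k151 k192 0 13))))), (.s k20 k40 5 (.s k148 k192 13 (.s k84 k212 7 (.s k252 k168 13 (.d
  k124 k64 k188 5 7)))))] .n) (.c k170 (.l (.s k8 k4 1 (.s k40 k20 5 (.s k24 k56 3 (.s k36 k48 5 (.d
  k44 k32 k28 1 3)))))) .n)))) (.c k130 (.l (.s k20 k40 5 (.s k85 k215 8 (.s k255 k170 14 (.s k105
  k195 14 (.d k125 k65 k190 5 8)))))) (.c k170 (.q k86 [(.s k22 k214 7 (.s k105 k195 14 (.s k124 k67
  6 (.s k252 k188 7 (.d k3 k41 k169 6 14))))), (.s k20 k40 5 (.s k85 k215 8 (.s k84 k87 0 (.s k148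
  k212 7 (.s k151 k149 0 (.d k195 k105 k107 14 13))))))] (.c k42 (.q k234 [(.s k22 k214 7 (.s k105
  k195 14 (.s k124 k67 6 (.s k252 k188 7 (.d k3 k41 k169 6 14))))), (.s k20 k40 5 (.s k85 k215 8 (.s
  k84 k87 0 (.s k148 k212 7 (.s k151 k149 0 (.d k195 k105 k107 14 13)))))), (.s k105 k195 14 (.s
  k124 k67 6 (.s k252 k188 7 (.s k84 k168 13 (.s k85 k87 0 (.d k20 k40 k215 5 8))))))] (.c k2 (.l
  (.s k22 k214 7 (.s k3 k41 6 (.s k169 k252 14 (.s k195 k105 14 (.d k131 k188 k67 6 7)))))) (.c k22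
  (.q k2 [(.s k105 k195 14 (.s k124 k67 6 (.s k252 k188 7 (.d k3 k1 k169 0 14)))), (.s k3 k1 0 (.s
  k23 k43 5 (.s k149 k212 8 (.s k151 k148 0 (.s k215 k87 7 (.d k20 k40 k85 5 8)))))), (.s k20 k40 5
  (.s k85 k215 8 (.s k105 k195 14 (.s k124 k67 6 (.s k252 k188 7 (.d k84 k87 k168 0 13))))))] (.c k3
  (.l (.s k20 k40 5 (.s k85 k215 8 (.s k105 k195 14 (.s k84 k87 0 (.s k252 k168 13 (.d k124 k67 k188
  6 7))))))) (.c k20 (.q k23 [(.d k3 k1 k43 0 5), (.s k149 k212 8 (.s k195 k105 14 (.d k151 k148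
  k107 0 13)))] .n) (.c k23 (.l (.s k20 k40 5 (.s k3 k1 0 (.s k169 k252 14 (.s k131 k188 6 (.d k195
  k105 k67 14 7)))))) .n)))) (.c k105 (.l (.s k22 k214 7 (.s k3 k41 6 (.s k1 k2 0 (.s k169 k252 14
  (.s k85 k253 13 (.d k20 k40 k215 5 8))))))) (.c k195 (.l (.s k20 k40 5 (.s k85 k215 8 (.s k22 k214
  7 (.s k84 k87 0 (.s k252 k168 13 (.d k3 k41 k169 6 14))))))) .n))))) (.c k105 (.l (.s k22 k214 7
  (.s k3 k41 6 (.s k1 k2 0 (.s k169 k252 14 (.s k85 k253 13 (.d k20 k40 k215 5 8))))))) (.c k195 (.l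
  (.s k20 k40 5 (.s k85 k215 8 (.s k22 k214 7 (.s k3 k41 6 (.s k1 k2 0 (.d k169 k252 k253 14
  13))))))) (.c k214 (.l (.s k20 k40 5 (.s k85 k215 8 (.s k105 k195 14 (.s k124 k67 6 (.s k252 k188
  7 (.d k84 k87 k168 0 13))))))) (.c k234 (.q k42 [(.s k40 k20 5 (.s k22 k214 7 (.d k41 k43 k3 0
  6))), (.s k20 k40 5 (.s k85 k215 8 (.s k105 k195 14 (.s k124 k67 6 (.s k252 k188 7 (.d k84 k87
  k168 0 13)))))), (.s k22 k214 7 (.s k3 k41 6 (.s k169 k252 14 (.s k131 k188 6 (.d k195 k67 k105 7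
  14)))))] (.c k3 (.l (.s k20 k40 5 (.s k85 k215 8 (.s k214 k22 7 (.s k84 k87 0 (.s k252 k168 13 (.d
  k195 k105 k233 14 6))))))) .n)) .n)))))) (.c k190 (.q k126 [(.s k105 k195 14 (.s k252 k189 8 (.s
  k188 k124 7 (.s k169 k131 6 (.s k3 k86 14 (.d k41 k22 k233 6 7)))))), (.s k20 k40 5 (.s k85 k215 8
  (.s k255 k170 14 (.s k105 k195 14 (.s k125 k65 5 (.d k127 k124 k191 0 7)))))), (.s k20 k40 5 (.s
  k252 k189 8 (.s k84 k168 13 (.s k148 k212 7 (.s k104 k192 13 (.d k124 k188 k64 7 5))))))] (.c k124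
  (.l (.s k20 k40 5 (.s k195 k105 14 (.s k252 k189 8 (.s k84 k168 13 (.s k148 k212 7 (.d k151 k107
  k149 13 0))))))) (.c k191 (.l (.s k20 k40 5 (.s k85 k215 8 (.s k105 k195 14 (.s k125 k65 5 (.s
  k124 k127 0 (.d k252 k188 k189 7 8))))))) .n))) (.c k195 (.q k126 [(.s k20 k40 5 (.s k85 k215 8
  (.s k255 k170 14 (.s k125 k190 8 (.d k127 k124 k191 0 7))))), (.s k20 k40 5 (.s k252 k189 8 (.s
  k84 k168 13 (.s k148 k212 7 (.s k104 k192 13 (.d k124 k64 k188 5 7)))))), (.s k252 k189 8 (.s k168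
  k84 13 (.s k188 k124 7 (.s k169 k131 6 (.s k170 k171 0 (.s k255 k85 14 (.d k190 k130 k125 5
  8)))))))] (.c k124 (.l (.s k20 k40 5 (.s k85 k215 8 (.s k255 k170 14 (.s k190 k125 8 (.s k189 k252
  8 (.d k191 k188 k127 0 7))))))) .n)) (.c k215 (.l (.s k40 k20 5 (.s k105 k195 14 (.s k170 k235 8
  (.s k255 k85 14 (.d k190 k130 k125 5 8)))))) (.c k235 (.l (.s k20 k40 5 (.s k85 k215 8 (.s k170
  k255 14 (.s k195 k105 14 (.d k130 k190 k65 5 8)))))) (.c k255 (.q k86 [(.s k22 k214 7 (.s k105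
  k195 14 (.s k124 k67 6 (.s k252 k188 7 (.d k3 k41 k169 6 14))))), (.s k20 k40 5 (.s k215 k85 8 (.s
  k214 k22 7 (.s k212 k213 0 (.s k149 k23 8 (.d k148 k151 k84 0 7)))))), (.s k20 k40 5 (.s k85 k215
  8 (.s k84 k87 0 (.s k252 k168 13 (.s k124 k188 7 (.d k105 k195 k67 14 6))))))] (.c k215 (.l (.s
  k22 k214 7 (.s k3 k41 6 (.s k169 k252 14 (.s k195 k105 14 (.d k131 k188 k67 6 7)))))) .n))
  .n))))))))))))

def t21_64 : T TT 256 :=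
  (.q k255 [(.s k20 k40 5 (.s k85 k170 14 (.s k150 k215 8 (.s k105 k195 14 (.d k125 k65 k190 5
  8))))), (.s k62 k61 0 (.s k190 k125 8 (.s k126 k254 7 (.s k189 k252 8 (.d k191 k127 k188 7 0)))))]
  (.c k85 (.l (.s k127 k191 7 (.s k61 k62 0 (.s k125 k190 8 (.s k189 k253 7 (.d k126 k124 k252 0
  8)))))) (.c k125 (.q k16 [(.s k48 k32 3 (.s k20 k40 5 (.s k24 k28 1 (.s k36 k12 5 (.d k52 k56 k4 1
  3))))), (.s k48 k32 3 (.s k85 k170 14 (.s k154 k223 10 (.s k101 k207 14 (.d k117 k69 k186 3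
  10))))), (.s k20 k40 5 (.s k85 k170 14 (.s k28 k24 1 (.s k223 k154 10 (.s k93 k158 8 (.d k12 k44
  k174 3 12))))))] (.c k85 (.l (.s k127 k191 7 (.s k48 k32 3 (.s k20 k40 5 (.s k24 k28 1 (.s k36 k12
  5 (.d k52 k56 k4 1 3))))))) (.c k127 (.l (.s k85 k170 14 (.s k48 k32 3 (.s k154 k223 10 (.s k101
  k207 14 (.d k117 k69 k186 3 10)))))) .n))) (.c k127 (.l (.s k85 k170 14 (.s k20 k40 5 (.s k150
  k215 8 (.s k105 k195 14 (.d k125 k65 k190 5 8)))))) (.c k190 (.q k16 [(.s k48 k32 3 (.s k20 k40 5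
  (.s k24 k28 1 (.s k36 k12 5 (.d k52 k56 k4 1 3))))), (.s k48 k32 3 (.s k85 k170 14 (.s k154 k223
  10 (.s k101 k207 14 (.d k117 k69 k186 3 10))))), (.s k20 k40 5 (.s k85 k170 14 (.s k28 k24 1 (.s
  k223 k154 10 (.s k93 k158 8 (.d k12 k174 k44 12 3))))))] (.c k85 (.l (.s k127 k191 7 (.s k48 k32 3
  (.s k20 k40 5 (.s k24 k28 1 (.s k36 k12 5 (.d k52 k56 k4 1 3))))))) (.c k127 (.l (.s k85 k170 14
  (.s k48 k32 3 (.s k154 k223 10 (.s k101 k207 14 (.d k117 k69 k186 3 10)))))) .n))) .n)))))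

def t21_65 : T TT 256 :=
  (.q k255 [(.s k61 k62 0 (.s k125 k190 8 (.s k189 k253 7 (.s k126 k252 8 (.d k127 k124 k191 0
  7))))), (.s k40 k20 5 (.s k170 k85 14 (.s k105 k235 8 (.s k150 k195 14 (.d k190 k125 k130 8
  5)))))] (.c k125 (.l (.s k40 k20 5 (.s k170 k85 14 (.s k105 k235 8 (.s k61 k62 0 (.s k149 k193 13
  (.d k191 k127 k128 7 6))))))) (.c k127 (.q k64 [(.s k192 k128 7 (.s k104 k148 13 (.s k84 k124 5
  (.s k168 k252 13 (.d k40 k20 k232 5 7))))), (.s k40 k20 5 (.s k170 k85 14 (.s k105 k235 8 (.s k150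
  k195 14 (.d k190 k125 k130 8 5))))), (.s k128 k192 7 (.s k170 k85 14 (.s k61 k62 0 (.s k149 k191 6
  (.s k190 k125 8 (.s k105 k193 13 (.d k150 k195 k130 14 5)))))))] (.c k125 (.l (.s k40 k20 5 (.s
  k192 k128 7 (.s k104 k148 13 (.s k168 k232 7 (.d k84 k124 k252 5 13)))))) .n)) (.c k150 (.l (.s
  k62 k61 0 (.s k190 k125 8 (.s k126 k254 7 (.s k189 k252 8 (.d k191 k188 k127 0 7)))))) (.c k190
  (.l (.s k40 k20 5 (.s k170 k85 14 (.s k105 k235 8 (.s k61 k62 0 (.s k149 k193 13 (.d k191 k127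
  k128 7 6))))))) .n)))))

def t21_66 : T TT 256 :=
  (.q k255 [(.s k61 k62 0 (.s k125 k190 8 (.s k189 k253 7 (.s k126 k252 8 (.d k127 k124 k191 0
  7))))), (.s k20 k40 5 (.s k85 k170 14 (.s k150 k215 8 (.s k105 k195 14 (.d k125 k65 k190 5 8))))),
  (.s k40 k20 5 (.s k170 k85 14 (.s k105 k235 8 (.s k61 k62 0 (.s k149 k193 13 (.d k191 k127 k128 7
  6))))))] (.c k86 (.q k126 [(.s k125 k190 8 (.d k127 k124 k191 0 7)), (.s k62 k61 0 (.s k254 k190 7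
  (.d k252 k253 k189 0 8)))] (.c k190 (.l (.s k127 k191 7 (.s k124 k125 0 (.d k252 k188 k189 7 8))))
  .n)) (.c k126 (.q k86 [(.s k20 k40 5 (.s k85 k170 14 (.s k150 k215 8 (.s k105 k195 14 (.d k125 k65
  k190 5 8))))), (.s k85 k170 14 (.s k84 k87 0 (.s k252 k168 13 (.s k169 k3 14 (.d k253 k254 k1 0
  13))))), (.s k40 k20 5 (.s k170 k85 14 (.s k105 k235 8 (.s k150 k195 14 (.d k190 k130 k125 5
  8)))))] (.c k85 (.q k149 [(.s k20 k40 5 (.s k212 k23 8 (.s k148 k84 7 (.s k150 k151 0 (.s k105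
  k195 14 (.d k61 k62 k193 0 13)))))), (.s k23 k212 8 (.s k3 k43 5 (.s k2 k1 0 (.s k254 k170 13 (.d
  k252 k253 k169 0 14))))), (.s k61 k62 0 (.s k190 k125 8 (.s k105 k193 13 (.s k150 k195 14 (.s k170
  k130 5 (.d k40 k20 k235 5 8))))))] (.c k61 (.l (.s k23 k212 8 (.s k3 k43 5 (.s k2 k1 0 (.s k41 k22
  6 (.s k170 k254 13 (.d k191 k128 k127 6 7))))))) (.c k64 (.l (.s k127 k191 7 (.s k40 k20 5 (.s k61
  k62 0 (.s k105 k193 13 (.s k235 k170 8 (.d k195 k215 k150 5 14))))))) (.c k127 (.q k64 [(.s k20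
  k40 5 (.s k192 k128 7 (.s k212 k23 8 (.d k148 k84 k104 7 13)))), (.s k128 k192 7 (.s k23 k212 8
  (.s k3 k43 5 (.s k2 k1 0 (.d k170 k191 k254 6 13))))), (.s k128 k192 7 (.s k61 k62 0 (.s k105 k193
  13 (.s k170 k191 6 (.d k40 k20 k235 5 8))))), (.s k20 k40 5 (.s k212 k23 8 (.s k84 k148 7 (.s k124
  k104 5 (.d k252 k168 k188 13 7)))))] (.c k124 (.l (.s k125 k190 8 (.s k20 k40 5 (.s k192 k128 7
  (.s k212 k23 8 (.d k148 k84 k104 7 13)))))) (.c k125 (.q k124 [(.s k192 k128 7 (.d k104 k84 k148 5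
  13)), (.s k105 k67 6 (.d k61 k62 k193 0 13))] (.c k65 (.l (.s k105 k67 6 (.d k61 k62 k193 0 13)))
  (.c k105 (.q k65 [(.s k192 k128 7 (.d k104 k84 k148 5 13)), (.s k252 k188 7 (.d k84 k104 k168 5
  13))] (.c k84 (.l (.s k192 k128 7 (.s k212 k23 8 (.d k252 k232 k188 5 7)))) (.c k104 (.q k107 [(.d
  k195 k130 k151 8 13), (.s k192 k128 7 (.s k212 k23 8 (.d k252 k232 k188 5 7)))] .n) (.c k107 (.l
  (.s k104 k84 5 (.d k192 k128 k148 7 13))) .n)))) .n))) .n))) .n)))) (.c k170 (.q k85 [(.s k20 k40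
  5 (.s k150 k215 8 (.s k105 k195 14 (.d k125 k65 k190 5 8)))), (.s k84 k87 0 (.s k252 k168 13 (.s
  k169 k3 14 (.d k253 k254 k1 0 13))))] (.c k42 (.q k234 [(.s k20 k40 5 (.s k150 k215 8 (.s k105
  k195 14 (.d k125 k65 k190 5 8)))), (.s k84 k87 0 (.s k252 k168 13 (.s k169 k3 14 (.d k253 k254 k1
  0 13))))] .n) (.c k234 (.q k42 [(.s k20 k40 5 (.s k150 k215 8 (.s k105 k195 14 (.d k125 k65 k190 5
  8)))), (.s k62 k61 0 (.s k22 k2 5 (.s k87 k84 0 (.d k3 k41 k171 6 13))))] .n) .n))) .n))) (.c k150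
  (.l (.s k62 k61 0 (.s k190 k125 8 (.s k126 k254 7 (.s k189 k252 8 (.d k191 k188 k127 0 7))))))
  .n))))

def t21_67 : T TT 256 :=
  (.q k255 [(.s k20 k40 5 (.s k85 k170 14 (.s k150 k215 8 (.s k125 k190 8 (.d k105 k65 k195 5
  14))))), (.s k62 k61 0 (.s k190 k125 8 (.s k126 k254 7 (.s k189 k252 8 (.d k191 k188 k127 0
  7))))), (.s k40 k20 5 (.s k170 k85 14 (.s k105 k235 8 (.s k61 k62 0 (.s k149 k193 13 (.d k191 k127
  k128 7 6))))))] .n)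

def t21_68 : T TT 256 :=
  (.q k255 [(.s k20 k40 5 (.s k85 k170 14 (.s k150 k215 8 (.s k105 k195 14 (.d k125 k65 k190 5
  8))))), (.s k62 k61 0 (.s k190 k125 8 (.s k126 k254 7 (.s k189 k252 8 (.d k191 k188 k127 0 7))))),
  (.s k40 k20 5 (.s k170 k85 14 (.s k105 k235 8 (.s k61 k62 0 (.s k149 k193 13 (.d k191 k127 k128 7
  6))))))] .n)

def t21_69 : T TT 256 :=
  (.q k255 [(.s k20 k40 5 (.s k85 k170 14 (.s k150 k215 8 (.s k105 k195 14 (.d k125 k65 k190 5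
  8))))), (.s k62 k61 0 (.s k190 k125 8 (.s k126 k254 7 (.s k189 k252 8 (.d k191 k188 k127 0 7))))),
  (.s k40 k20 5 (.s k170 k85 14 (.s k105 k235 8 (.s k61 k62 0 (.s k149 k193 13 (.d k191 k127 k128 7
  6))))))] .n)

def t21_70 : T TT 256 :=
  (.q k255 [(.s k20 k40 5 (.s k85 k170 14 (.s k150 k215 8 (.s k105 k195 14 (.d k125 k65 k190 5
  8))))), (.s k62 k61 0 (.s k190 k125 8 (.s k126 k254 7 (.s k189 k252 8 (.d k191 k188 k127 0 7))))),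
  (.s k40 k20 5 (.s k170 k85 14 (.s k105 k235 8 (.s k61 k62 0 (.s k149 k193 13 (.d k191 k127 k128 7
  6))))))] .n)

def t21_71 : T TT 256 :=
  (.q k255 [(.s k20 k40 5 (.s k85 k170 14 (.s k150 k215 8 (.s k105 k195 14 (.d k125 k65 k190 5
  8))))), (.s k62 k61 0 (.s k190 k125 8 (.s k126 k254 7 (.s k189 k252 8 (.d k191 k188 k127 0 7))))),
  (.s k40 k20 5 (.s k170 k85 14 (.s k105 k235 8 (.s k61 k62 0 (.s k149 k193 13 (.d k191 k127 k128 7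
  6))))))] .n)

def t21_72 : T TT 256 :=
  (.q k255 [(.s k20 k40 5 (.s k85 k170 14 (.s k150 k215 8 (.s k105 k195 14 (.d k125 k65 k190 5
  8))))), (.s k62 k61 0 (.s k190 k125 8 (.s k126 k254 7 (.s k189 k252 8 (.d k191 k188 k127 0 7))))),
  (.s k40 k20 5 (.s k170 k85 14 (.s k105 k235 8 (.s k61 k62 0 (.s k149 k193 13 (.d k191 k127 k128 7
  6))))))] (.c k89 (.q k123 [(.s k61 k62 0 (.s k125 k190 8 (.s k189 k253 7 (.s k126 k252 8 (.d k127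
  k124 k191 0 7))))), (.s k20 k40 5 (.s k85 k170 14 (.s k150 k215 8 (.s k105 k195 14 (.d k125 k65
  k190 5 8))))), (.s k61 k62 0 (.s k243 k183 9 (.s k121 k182 10 (.s k181 k241 9 (.d k122 k120 k240 0
  10)))))] (.c k150 (.l (.s k62 k61 0 (.s k190 k125 8 (.s k126 k254 7 (.s k189 k252 8 (.d k191 k188
  k127 0 7)))))) .n)) (.c k123 (.q k89 [(.s k20 k40 5 (.s k85 k170 14 (.s k150 k215 8 (.s k105 k195
  14 (.d k125 k65 k190 5 8))))), (.s k61 k62 0 (.s k125 k190 8 (.s k189 k253 7 (.s k126 k252 8 (.d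
  k127 k124 k191 0 7))))), (.s k85 k170 14 (.s k81 k93 1 (.s k243 k162 12 (.s k166 k12 14 (.d k247
  k251 k4 1 12)))))] .n) .n)))

def t21_73 : T TT 256 :=
  (.q k255 [(.s k20 k40 5 (.s k85 k170 14 (.s k150 k215 8 (.s k125 k190 8 (.d k105 k65 k195 5
  14))))), (.s k62 k61 0 (.s k190 k125 8 (.s k126 k254 7 (.s k189 k252 8 (.d k191 k188 k127 0
  7))))), (.s k40 k20 5 (.s k170 k85 14 (.s k105 k235 8 (.s k61 k62 0 (.s k149 k193 13 (.d k191 k127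
  k128 7 6))))))] .n)

def t21_74 : T TT 256 :=
  (.q k255 [(.s k20 k40 5 (.s k85 k170 14 (.s k150 k215 8 (.s k105 k195 14 (.d k125 k65 k190 5
  8))))), (.s k62 k61 0 (.s k190 k125 8 (.s k126 k254 7 (.s k189 k252 8 (.d k191 k188 k127 0 7))))),
  (.s k40 k20 5 (.s k170 k85 14 (.s k105 k235 8 (.s k61 k62 0 (.s k149 k193 13 (.d k191 k127 k128 7
  6))))))] (.c k90 (.q k122 [(.s k61 k62 0 (.s k125 k190 8 (.s k189 k253 7 (.s k126 k252 8 (.d k127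
  k124 k191 0 7))))), (.s k20 k40 5 (.s k85 k170 14 (.s k150 k215 8 (.s k105 k195 14 (.d k125 k65
  k190 5 8))))), (.s k61 k62 0 (.s k181 k240 10 (.s k121 k241 9 (.s k243 k182 10 (.d k123 k120 k183
  0 9)))))] (.c k150 (.l (.s k62 k61 0 (.s k190 k125 8 (.s k126 k254 7 (.s k189 k252 8 (.d k191 k188
  k127 0 7)))))) .n)) (.c k122 (.q k90 [(.s k20 k40 5 (.s k85 k170 14 (.s k150 k215 8 (.s k105 k195
  14 (.d k125 k65 k190 5 8))))), (.s k61 k62 0 (.s k125 k190 8 (.s k189 k253 7 (.s k126 k252 8 (.d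
  k127 k124 k191 0 7))))), (.s k85 k170 14 (.s k80 k95 2 (.s k240 k160 11 (.s k165 k15 14 (.d k245
  k250 k5 2 11)))))] .n) .n)))

def t21_75 : T TT 256 :=
  (.q k255 [(.s k20 k40 5 (.s k85 k170 14 (.s k150 k215 8 (.s k125 k190 8 (.d k105 k65 k195 5
  14))))), (.s k62 k61 0 (.s k190 k125 8 (.s k126 k254 7 (.s k189 k252 8 (.d k191 k188 k127 0
  7))))), (.s k40 k20 5 (.s k170 k85 14 (.s k105 k235 8 (.s k61 k62 0 (.s k149 k193 13 (.d k191 k127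
  k128 7 6))))))] .n)

def t21_76 : T TT 256 :=
  (.q k255 [(.s k20 k40 5 (.s k85 k170 14 (.s k150 k215 8 (.s k105 k195 14 (.d k125 k65 k190 5
  8))))), (.s k62 k61 0 (.s k190 k125 8 (.s k126 k254 7 (.s k189 k252 8 (.d k191 k188 k127 0 7))))),
  (.s k40 k20 5 (.s k170 k85 14 (.s k105 k235 8 (.s k61 k62 0 (.s k149 k193 13 (.d k191 k127 k128 7
  6))))))] .n)

def t21_77 : T TT 256 :=
  (.q k255 [(.s k20 k40 5 (.s k85 k170 14 (.s k150 k215 8 (.s k105 k195 14 (.d k125 k65 k190 5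
  8))))), (.s k62 k61 0 (.s k190 k125 8 (.s k126 k254 7 (.s k189 k252 8 (.d k191 k188 k127 0 7))))),
  (.s k40 k20 5 (.s k170 k85 14 (.s k105 k235 8 (.s k61 k62 0 (.s k149 k193 13 (.d k191 k127 k128 7
  6))))))] .n)

def t21_78 : T TT 256 :=
  (.q k255 [(.s k20 k40 5 (.s k85 k170 14 (.s k150 k215 8 (.s k105 k195 14 (.d k125 k65 k190 5
  8))))), (.s k62 k61 0 (.s k190 k125 8 (.s k126 k254 7 (.s k189 k252 8 (.d k191 k188 k127 0 7))))),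
  (.s k40 k20 5 (.s k170 k85 14 (.s k105 k235 8 (.s k61 k62 0 (.s k149 k193 13 (.d k191 k127 k128 7
  6))))))] .n)

def t21_79 : T TT 256 :=
  (.q k255 [(.s k20 k40 5 (.s k85 k170 14 (.s k150 k215 8 (.s k105 k195 14 (.d k125 k65 k190 5
  8))))), (.s k62 k61 0 (.s k190 k125 8 (.s k126 k254 7 (.s k189 k252 8 (.d k191 k188 k127 0 7))))),
  (.s k40 k20 5 (.s k170 k85 14 (.s k105 k235 8 (.s k61 k62 0 (.s k149 k193 13 (.d k191 k127 k128 7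
  6))))))] .n)

def t21_80 : T TT 256 :=
  (.q k255 [(.s k20 k40 5 (.s k85 k170 14 (.s k150 k215 8 (.s k105 k195 14 (.d k125 k65 k190 5
  8))))), (.s k62 k61 0 (.s k190 k125 8 (.s k126 k254 7 (.s k189 k252 8 (.d k191 k188 k127 0 7))))),
  (.s k40 k20 5 (.s k170 k85 14 (.s k105 k235 8 (.s k61 k62 0 (.s k149 k193 13 (.d k191 k127 k128 7
  6))))))] .n)

def t21_81 : T TT 256 :=
  (.q k255 [(.s k20 k40 5 (.s k85 k170 14 (.s k150 k215 8 (.s k105 k195 14 (.d k125 k65 k190 5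
  8))))), (.s k62 k61 0 (.s k190 k125 8 (.s k126 k254 7 (.s k189 k252 8 (.d k191 k188 k127 0 7))))),
  (.s k40 k20 5 (.s k170 k85 14 (.s k105 k235 8 (.s k61 k62 0 (.s k149 k193 13 (.d k191 k127 k128 7
  6))))))] .n)

def t21_82 : T TT 256 :=
  (.q k255 [(.s k20 k40 5 (.s k85 k170 14 (.s k150 k215 8 (.s k105 k195 14 (.d k125 k65 k190 5
  8))))), (.s k62 k61 0 (.s k190 k125 8 (.s k126 k254 7 (.s k189 k252 8 (.d k191 k188 k127 0 7))))),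
  (.s k40 k20 5 (.s k170 k85 14 (.s k105 k235 8 (.s k61 k62 0 (.s k149 k193 13 (.d k191 k127 k128 7
  6))))))] .n)

def t21_83 : T TT 256 :=
  (.q k255 [(.s k20 k40 5 (.s k85 k170 14 (.s k150 k215 8 (.s k105 k195 14 (.d k125 k65 k190 5
  8))))), (.s k62 k61 0 (.s k190 k125 8 (.s k126 k254 7 (.s k189 k252 8 (.d k191 k188 k127 0 7))))),
  (.s k40 k20 5 (.s k170 k85 14 (.s k105 k235 8 (.s k61 k62 0 (.s k149 k193 13 (.d k191 k127 k128 7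
  6))))))] .n)

def t21_84 : T TT 256 :=
  (.q k255 [(.s k20 k40 5 (.s k85 k170 14 (.s k150 k215 8 (.s k105 k195 14 (.d k125 k65 k190 5
  8))))), (.s k62 k61 0 (.s k190 k125 8 (.s k126 k254 7 (.s k189 k252 8 (.d k191 k188 k127 0 7))))),
  (.s k40 k20 5 (.s k170 k85 14 (.s k105 k235 8 (.s k61 k62 0 (.s k149 k193 13 (.d k191 k127 k128 7
  6))))))] .n)

def t21_85 : T TT 256 :=
  (.q k12 [(.s k4 k8 1 (.s k20 k40 5 (.s k36 k52 3 (.s k24 k48 5 (.d k28 k16 k44 1 3))))), (.s k28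
  k44 3 (.s k29 k46 4 (.s k30 k31 0 (.s k45 k15 4 (.d k61 k62 k13 0 3)))))] (.c k16 (.l (.s k8 k4 1
  (.s k40 k20 5 (.s k24 k56 3 (.s k36 k48 5 (.d k44 k28 k32 3 1)))))) (.c k28 (.q k255 [(.s k29 k46
  4 (.s k93 k174 12 (.s k127 k191 7 (.s k110 k76 4 (.d k157 k221 k204 7 12))))), (.s k61 k62 0 (.s
  k125 k190 8 (.s k189 k253 7 (.s k126 k252 8 (.d k127 k124 k191 0 7)))))] (.c k64 (.l (.s k127 k191
  7 (.s k29 k46 4 (.s k93 k174 12 (.s k157 k221 7 (.d k110 k76 k204 4 12)))))) (.c k127 (.q k64 [(.s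
  k8 k4 1 (.s k192 k128 7 (.s k72 k132 9 (.s k136 k200 7 (.d k68 k76 k204 1 9))))), (.s k40 k20 5
  (.s k192 k128 7 (.s k104 k148 13 (.s k168 k232 7 (.d k84 k124 k252 5 13))))), (.s k29 k46 4 (.s
  k93 k174 12 (.s k157 k221 7 (.s k61 k62 0 (.s k125 k190 8 (.d k109 k77 k205 3 11))))))] (.c k149
  (.q k213 [(.d k192 k234 k128 6 7), (.s k29 k46 4 (.s k93 k174 12 (.s k157 k221 7 (.s k61 k62 0 (.s
  k125 k190 8 (.d k109 k77 k205 3 11))))))] .n) (.c k213 (.q k149 [(.s k8 k4 1 (.s k128 k192 7 (.s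
  k170 k191 6 (.s k89 k251 12 (.d k29 k46 k209 4 9))))), (.s k40 k20 5 (.s k128 k192 7 (.s k61 k62 0
  (.s k105 k193 13 (.d k170 k191 k235 6 8))))), (.s k8 k4 1 (.s k29 k46 4 (.s k89 k209 9 (.s k251
  k170 12 (.d k243 k247 k166 1 14)))))] (.c k170 (.l (.s k8 k4 1 (.s k192 k128 7 (.s k72 k132 9 (.s
  k136 k200 7 (.d k68 k76 k204 1 9)))))) .n)) .n))) (.c k149 (.q k213 [(.s k29 k46 4 (.s k93 k174 12
  (.s k157 k221 7 (.s k110 k204 12 (.d k127 k76 k191 4 7))))), (.s k61 k62 0 (.s k125 k190 8 (.s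
  k189 k253 7 (.s k126 k252 8 (.d k127 k124 k191 0 7)))))] (.c k64 (.l (.s k127 k191 7 (.s k29 k46 4
  (.s k93 k174 12 (.s k157 k221 7 (.d k110 k76 k204 4 12)))))) (.c k127 (.q k64 [(.d k192 k234 k128
  6 7), (.s k29 k46 4 (.s k93 k174 12 (.s k157 k221 7 (.s k61 k62 0 (.s k125 k190 8 (.d k109 k77
  k205 3 11))))))] .n) (.c k191 (.l (.s k4 k8 1 (.s k192 k234 6 (.s k132 k72 9 (.s k68 k196 7 (.s
  k136 k204 9 (.d k128 k140 k64 1 7))))))) .n)))) (.c k191 (.l (.s k29 k46 4 (.s k93 k174 12 (.s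
  k157 k221 7 (.s k61 k62 0 (.s k125 k190 8 (.d k109 k77 k205 3 11))))))) (.c k213 (.q k149 [(.s k8
  k4 1 (.s k29 k46 4 (.s k89 k209 9 (.s k170 k251 12 (.d k191 k127 k128 7 6))))), (.s k40 k20 5 (.s
  k61 k62 0 (.s k105 k193 13 (.s k170 k235 8 (.d k191 k127 k128 7 6))))), (.s k127 k191 7 (.s k29
  k46 4 (.s k93 k174 12 (.s k157 k221 7 (.d k110 k76 k204 4 12)))))] (.c k64 (.l (.s k127 k191 7 (.s
  k29 k46 4 (.s k93 k174 12 (.s k157 k221 7 (.d k110 k76 k204 4 12)))))) (.c k127 (.q k64 [(.s k8 k4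
  1 (.s k128 k192 7 (.s k170 k191 6 (.s k89 k251 12 (.d k29 k46 k209 4 9))))), (.s k40 k20 5 (.s
  k128 k192 7 (.s k61 k62 0 (.s k105 k193 13 (.d k170 k191 k235 6 8))))), (.s k8 k4 1 (.s k29 k46 4
  (.s k89 k209 9 (.s k251 k170 12 (.d k243 k247 k166 1 14)))))] (.c k170 (.l (.s k8 k4 1 (.s k192
  k128 7 (.s k72 k132 9 (.s k136 k200 7 (.d k68 k76 k204 1 9)))))) .n)) (.c k191 (.l (.s k8 k4 1 (.s
  k29 k46 4 (.s k89 k209 9 (.s k251 k170 12 (.d k243 k247 k166 1 14)))))) .n)))) .n)))))) (.c k44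
  (.q k255 [(.s k61 k62 0 (.s k125 k190 8 (.s k189 k253 7 (.s k126 k252 8 (.d k127 k124 k191 0
  7))))), (.s k29 k46 4 (.s k93 k174 12 (.s k157 k221 7 (.s k110 k204 12 (.d k127 k76 k191 4 7)))))]
  (.c k64 (.l (.s k127 k191 7 (.s k29 k46 4 (.s k93 k174 12 (.s k157 k221 7 (.d k110 k76 k204 4
  12)))))) (.c k127 (.q k64 [(.s k8 k4 1 (.s k192 k128 7 (.s k72 k132 9 (.s k136 k200 7 (.d k68 k76
  k204 1 9))))), (.s k40 k20 5 (.s k192 k128 7 (.s k104 k148 13 (.s k168 k232 7 (.d k84 k124 k252 5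
  13))))), (.s k29 k46 4 (.s k93 k174 12 (.s k157 k221 7 (.s k61 k62 0 (.s k125 k190 8 (.d k109 k77
  k205 3 11))))))] (.c k149 (.q k213 [(.d k192 k234 k128 6 7), (.s k29 k46 4 (.s k93 k174 12 (.s
  k157 k221 7 (.s k61 k62 0 (.s k125 k190 8 (.d k109 k77 k205 3 11))))))] .n) (.c k213 (.q k149 [(.s
  k8 k4 1 (.s k128 k192 7 (.s k170 k191 6 (.s k89 k251 12 (.d k29 k46 k209 4 9))))), (.s k40 k20 5
  (.s k128 k192 7 (.s k61 k62 0 (.s k105 k193 13 (.d k170 k191 k235 6 8))))), (.s k8 k4 1 (.s k29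
  k46 4 (.s k89 k209 9 (.s k251 k170 12 (.d k243 k247 k166 1 14)))))] (.c k170 (.l (.s k8 k4 1 (.s
  k192 k128 7 (.s k72 k132 9 (.s k136 k200 7 (.d k68 k76 k204 1 9)))))) .n)) .n))) (.c k149 (.q k213
  [(.s k61 k62 0 (.s k125 k190 8 (.s k189 k253 7 (.s k126 k252 8 (.d k127 k124 k191 0 7))))), (.s k4
  k8 1 (.s k192 k234 6 (.s k132 k72 9 (.s k68 k196 7 (.s k136 k204 9 (.d k128 k64 k140 7 1))))))]
  (.c k64 (.l (.s k127 k191 7 (.s k29 k46 4 (.s k93 k174 12 (.s k157 k221 7 (.d k110 k76 k204 4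
  12)))))) (.c k127 (.q k64 [(.d k192 k234 k128 6 7), (.s k29 k46 4 (.s k93 k174 12 (.s k157 k221 7
  (.s k61 k62 0 (.s k125 k190 8 (.d k109 k77 k205 3 11))))))] .n) .n))) (.c k191 (.l (.s k29 k46 4
  (.s k93 k174 12 (.s k157 k221 7 (.s k61 k62 0 (.s k125 k190 8 (.d k109 k77 k205 3 11))))))) (.c
  k213 (.q k149 [(.s k40 k20 5 (.s k61 k62 0 (.s k105 k193 13 (.s k170 k235 8 (.d k191 k127 k128 7
  6))))), (.s k127 k191 7 (.s k29 k46 4 (.s k93 k174 12 (.s k157 k221 7 (.d k110 k76 k204 4 12)))))]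
  (.c k64 (.l (.s k127 k191 7 (.s k29 k46 4 (.s k93 k174 12 (.s k157 k221 7 (.d k110 k76 k204 4
  12)))))) (.c k127 (.q k64 [(.s k8 k4 1 (.s k128 k192 7 (.s k170 k191 6 (.s k89 k251 12 (.d k29 k46
  k209 4 9))))), (.s k40 k20 5 (.s k128 k192 7 (.s k61 k62 0 (.s k105 k193 13 (.d k170 k191 k235 6
  8))))), (.s k8 k4 1 (.s k29 k46 4 (.s k89 k209 9 (.s k251 k170 12 (.d k243 k247 k166 1 14)))))]
  (.c k170 (.l (.s k8 k4 1 (.s k192 k128 7 (.s k72 k132 9 (.s k136 k200 7 (.d k68 k76 k204 1 9))))))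
  .n)) (.c k191 (.l (.s k8 k4 1 (.s k29 k46 4 (.s k89 k209 9 (.s k251 k170 12 (.d k243 k247 k166 1
  14)))))) .n)))) .n)))))) (.c k64 (.q k127 [(.s k4 k8 1 (.s k20 k40 5 (.s k36 k52 3 (.s k24 k48 5
  (.d k28 k16 k44 1 3))))), (.s k29 k46 4 (.s k255 k191 7 (.s k93 k174 12 (.s k157 k221 7 (.d k110
  k76 k204 4 12)))))] (.c k149 (.q k213 [(.s k4 k8 1 (.s k20 k40 5 (.s k36 k52 3 (.s k24 k48 5 (.d
  k28 k16 k44 1 3))))), (.s k29 k46 4 (.s k255 k191 7 (.s k93 k174 12 (.s k157 k221 7 (.d k110 k76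
  k204 4 12)))))] .n) (.c k213 (.q k149 [(.s k4 k8 1 (.s k20 k40 5 (.s k36 k52 3 (.s k24 k48 5 (.d
  k28 k16 k44 1 3))))), (.s k40 k20 5 (.s k61 k62 0 (.s k105 k193 13 (.s k170 k235 8 (.d k191 k128
  k255 6 7))))), (.s k8 k4 1 (.s k29 k46 4 (.s k89 k209 9 (.s k170 k251 12 (.d k191 k128 k255 6
  7)))))] .n) .n))) (.c k127 (.q k64 [(.s k4 k8 1 (.s k20 k40 5 (.s k36 k52 3 (.s k24 k48 5 (.d k28
  k16 k44 1 3))))), (.s k40 k20 5 (.s k192 k128 7 (.s k104 k148 13 (.s k168 k232 7 (.d k84 k124 k252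
  5 13))))), (.s k8 k4 1 (.s k192 k128 7 (.s k72 k132 9 (.s k136 k200 7 (.d k68 k76 k204 1 9)))))]
  (.c k149 (.q k213 [(.s k4 k8 1 (.s k20 k40 5 (.s k36 k52 3 (.s k24 k48 5 (.d k28 k16 k44 1 3))))),
  (.s k40 k20 5 (.s k192 k128 7 (.s k104 k148 13 (.s k168 k232 7 (.d k84 k124 k252 5 13))))), (.s k8
  k4 1 (.s k192 k128 7 (.s k72 k132 9 (.s k136 k200 7 (.d k68 k76 k204 1 9)))))] .n) (.c k213 (.q
  k149 [(.s k4 k8 1 (.s k20 k40 5 (.s k36 k52 3 (.s k24 k48 5 (.d k28 k16 k44 1 3))))), (.s k40 k20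
  5 (.s k128 k192 7 (.s k61 k62 0 (.s k105 k193 13 (.d k170 k191 k235 6 8))))), (.s k8 k4 1 (.s k128
  k192 7 (.s k29 k46 4 (.s k89 k209 9 (.d k170 k191 k251 6 12)))))] .n) .n))) (.c k149 (.q k213 [(.s
  k4 k8 1 (.s k20 k40 5 (.s k36 k52 3 (.s k24 k48 5 (.d k28 k16 k44 1 3))))), (.s k28 k44 3 (.s k29
  k46 4 (.s k30 k31 0 (.s k45 k15 4 (.d k61 k62 k13 0 3)))))] (.c k16 (.l (.s k8 k4 1 (.s k40 k20 5
  (.s k24 k56 3 (.s k36 k48 5 (.d k44 k28 k32 3 1)))))) (.c k28 (.q k255 [(.s k29 k46 4 (.s k93 k174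
  12 (.s k157 k221 7 (.s k110 k204 12 (.d k127 k76 k191 4 7))))), (.s k61 k62 0 (.s k125 k190 8 (.s
  k189 k253 7 (.s k126 k252 8 (.d k127 k124 k191 0 7)))))] (.c k64 (.l (.s k127 k191 7 (.s k29 k46 4
  (.s k93 k174 12 (.s k157 k221 7 (.d k110 k76 k204 4 12)))))) (.c k127 (.q k64 [(.d k192 k234 k128
  6 7), (.s k29 k46 4 (.s k93 k174 12 (.s k157 k221 7 (.s k61 k62 0 (.s k125 k190 8 (.d k109 k77
  k205 3 11))))))] .n) (.c k191 (.l (.s k4 k8 1 (.s k192 k234 6 (.s k132 k72 9 (.s k68 k196 7 (.s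
  k136 k204 9 (.d k128 k140 k64 1 7))))))) .n)))) (.c k44 (.q k255 [(.s k61 k62 0 (.s k125 k190 8
  (.s k189 k253 7 (.s k126 k252 8 (.d k127 k124 k191 0 7))))), (.s k4 k8 1 (.s k192 k234 6 (.s k132
  k72 9 (.s k68 k196 7 (.s k136 k204 9 (.d k128 k64 k140 7 1))))))] (.c k64 (.l (.s k127 k191 7 (.s
  k29 k46 4 (.s k93 k174 12 (.s k157 k221 7 (.d k110 k76 k204 4 12)))))) (.c k127 (.q k64 [(.d k192
  k234 k128 6 7), (.s k29 k46 4 (.s k93 k174 12 (.s k157 k221 7 (.s k61 k62 0 (.s k125 k190 8 (.d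
  k109 k77 k205 3 11))))))] .n) .n))) (.c k64 (.q k127 [(.s k4 k8 1 (.s k20 k40 5 (.s k36 k52 3 (.s
  k24 k48 5 (.d k28 k16 k44 1 3))))), (.s k29 k46 4 (.s k255 k191 7 (.s k93 k174 12 (.s k157 k221 7
  (.d k110 k76 k204 4 12)))))] .n) (.c k127 (.q k64 [(.s k4 k8 1 (.s k20 k40 5 (.s k36 k52 3 (.s k24
  k48 5 (.d k28 k16 k44 1 3))))), (.s k40 k20 5 (.s k192 k128 7 (.s k104 k148 13 (.s k168 k232 7 (.d
  k84 k124 k252 5 13))))), (.s k8 k4 1 (.s k192 k128 7 (.s k72 k132 9 (.s k136 k200 7 (.d k68 k76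
  k204 1 9)))))] .n) .n)))))) (.c k213 (.q k149 [(.s k4 k8 1 (.s k20 k40 5 (.s k36 k52 3 (.s k24 k48
  5 (.d k28 k16 k44 1 3))))), (.s k29 k46 4 (.s k89 k209 9 (.s k61 k62 0 (.s k105 k193 13 (.s k73
  k121 3 (.d k195 k150 k134 14 10))))))] (.c k64 (.q k127 [(.s k4 k8 1 (.s k20 k40 5 (.s k36 k52 3
  (.s k24 k48 5 (.d k28 k16 k44 1 3))))), (.s k40 k20 5 (.s k61 k62 0 (.s k105 k193 13 (.s k170 k235
  8 (.d k191 k128 k255 6 7))))), (.s k8 k4 1 (.s k29 k46 4 (.s k89 k209 9 (.s k170 k251 12 (.d k191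
  k128 k255 6 7)))))] .n) (.c k127 (.q k64 [(.s k4 k8 1 (.s k20 k40 5 (.s k36 k52 3 (.s k24 k48 5
  (.d k28 k16 k44 1 3))))), (.s k40 k20 5 (.s k128 k192 7 (.s k61 k62 0 (.s k105 k193 13 (.d k170
  k191 k235 6 8))))), (.s k8 k4 1 (.s k128 k192 7 (.s k29 k46 4 (.s k89 k209 9 (.d k170 k191 k251 6
  12)))))] .n) .n))) .n))))))))

def t21_86 : T TT 256 :=
  (.q k126 [(.s k61 k62 0 (.s k189 k252 8 (.s k125 k253 7 (.s k255 k190 8 (.d k127 k124 k191 0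
  7))))), (.s k20 k40 5 (.s k252 k189 8 (.s k84 k168 13 (.s k148 k212 7 (.s k104 k192 13 (.d k124
  k64 k188 5 7)))))), (.s k40 k20 5 (.s k62 k61 0 (.s k190 k254 7 (.s k255 k125 8 (.s k170 k85 14
  (.s k105 k235 8 (.d k150 k130 k195 5 14)))))))] (.c k189 (.q k255 [(.s k125 k190 8 (.d k127 k191
  k124 7 0)), (.s k62 k61 0 (.d k190 k125 k254 8 7)), (.s k40 k20 5 (.s k170 k85 14 (.s k105 k235 8
  (.s k61 k62 0 (.s k149 k193 13 (.d k191 k127 k128 7 6))))))] .n) .n))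

def t21_87 : T TT 256 :=
  (.q k255 [(.s k61 k62 0 (.s k125 k190 8 (.s k189 k253 7 (.s k126 k252 8 (.d k127 k124 k191 0
  7))))), (.s k20 k40 5 (.s k85 k170 14 (.s k150 k215 8 (.s k105 k195 14 (.d k125 k65 k190 5 8))))),
  (.s k40 k20 5 (.s k170 k85 14 (.s k105 k235 8 (.s k61 k62 0 (.s k149 k193 13 (.d k191 k127 k128 7
  6))))))] (.c k150 (.l (.s k62 k61 0 (.s k190 k125 8 (.s k126 k254 7 (.s k189 k252 8 (.d k191 k188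
  k127 0 7)))))) .n))

def t21_88 : T TT 256 :=
  (.q k255 [(.s k20 k40 5 (.s k85 k170 14 (.s k150 k215 8 (.s k105 k195 14 (.d k125 k65 k190 5
  8))))), (.s k62 k61 0 (.s k190 k125 8 (.s k126 k254 7 (.s k189 k252 8 (.d k191 k188 k127 0 7))))),
  (.s k40 k20 5 (.s k170 k85 14 (.s k105 k235 8 (.s k61 k62 0 (.s k149 k193 13 (.d k191 k127 k128 7
  6))))))] .n)

def t21_89 : T TT 256 :=
  (.q k255 [(.s k61 k62 0 (.s k125 k190 8 (.s k189 k253 7 (.s k126 k252 8 (.d k127 k124 k191 0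
  7))))), (.s k20 k40 5 (.s k85 k170 14 (.s k150 k215 8 (.s k105 k195 14 (.d k125 k65 k190 5 8))))),
  (.s k40 k20 5 (.s k170 k85 14 (.s k105 k235 8 (.s k61 k62 0 (.s k149 k193 13 (.d k191 k127 k128 7
  6))))))] (.c k72 (.q k123 [(.s k61 k62 0 (.s k125 k190 8 (.s k189 k253 7 (.s k126 k252 8 (.d k127
  k124 k191 0 7))))), (.s k20 k40 5 (.s k85 k170 14 (.s k150 k215 8 (.s k105 k195 14 (.d k125 k65
  k190 5 8))))), (.s k61 k62 0 (.s k243 k183 9 (.s k121 k182 10 (.s k181 k241 9 (.d k122 k120 k240 0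
  10)))))] (.c k150 (.l (.s k62 k61 0 (.s k190 k125 8 (.s k126 k254 7 (.s k189 k252 8 (.d k191 k188
  k127 0 7)))))) .n)) (.c k123 (.q k72 [(.s k61 k62 0 (.s k125 k190 8 (.s k189 k253 7 (.s k126 k252
  8 (.d k127 k124 k191 0 7))))), (.s k20 k40 5 (.s k85 k170 14 (.s k150 k215 8 (.s k105 k195 14 (.d
  k125 k65 k190 5 8))))), (.s k40 k20 5 (.s k170 k85 14 (.s k105 k235 8 (.s k61 k62 0 (.s k149 k193
  13 (.d k191 k127 k128 7 6))))))] (.c k150 (.l (.s k62 k61 0 (.s k190 k125 8 (.s k126 k254 7 (.s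
  k189 k252 8 (.d k191 k188 k127 0 7)))))) .n)) (.c k150 (.l (.s k62 k61 0 (.s k190 k125 8 (.s k126
  k254 7 (.s k189 k252 8 (.d k191 k188 k127 0 7)))))) .n))))

def t21_90 : T TT 256 :=
  (.q k255 [(.s k61 k62 0 (.s k125 k190 8 (.s k189 k253 7 (.s k126 k252 8 (.d k127 k124 k191 0
  7))))), (.s k20 k40 5 (.s k85 k170 14 (.s k150 k215 8 (.s k105 k195 14 (.d k125 k65 k190 5 8))))),
  (.s k40 k20 5 (.s k170 k85 14 (.s k105 k235 8 (.s k61 k62 0 (.s k149 k193 13 (.d k191 k127 k128 7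
  6))))))] (.c k74 (.q k122 [(.s k61 k62 0 (.s k125 k190 8 (.s k189 k253 7 (.s k126 k252 8 (.d k127
  k124 k191 0 7))))), (.s k20 k40 5 (.s k85 k170 14 (.s k150 k215 8 (.s k105 k195 14 (.d k125 k65
  k190 5 8))))), (.s k61 k62 0 (.s k181 k240 10 (.s k121 k241 9 (.s k243 k182 10 (.d k123 k120 k183
  0 9)))))] (.c k150 (.l (.s k62 k61 0 (.s k190 k125 8 (.s k126 k254 7 (.s k189 k252 8 (.d k191 k188
  k127 0 7)))))) .n)) (.c k122 (.q k74 [(.s k62 k61 0 (.s k190 k125 8 (.s k126 k254 7 (.s k189 k252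
  8 (.d k191 k188 k127 0 7))))), (.s k20 k40 5 (.s k85 k170 14 (.s k150 k215 8 (.s k105 k195 14 (.d
  k125 k65 k190 5 8))))), (.s k40 k20 5 (.s k170 k85 14 (.s k105 k235 8 (.s k61 k62 0 (.s k149 k193
  13 (.d k191 k127 k128 7 6))))))] .n) (.c k150 (.l (.s k62 k61 0 (.s k190 k125 8 (.s k126 k254 7
  (.s k189 k252 8 (.d k191 k188 k127 0 7)))))) .n))))

def t21_91 : T TT 256 :=
  (.q k255 [(.s k20 k40 5 (.s k85 k170 14 (.s k150 k215 8 (.s k105 k195 14 (.d k125 k65 k190 5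
  8))))), (.s k62 k61 0 (.s k190 k125 8 (.s k126 k254 7 (.s k189 k252 8 (.d k191 k188 k127 0 7))))),
  (.s k40 k20 5 (.s k170 k85 14 (.s k105 k235 8 (.s k61 k62 0 (.s k149 k193 13 (.d k191 k127 k128 7
  6))))))] .n)

def t21_92 : T TT 256 :=
  (.q k255 [(.s k20 k40 5 (.s k85 k170 14 (.s k150 k215 8 (.s k105 k195 14 (.d k125 k65 k190 5
  8))))), (.s k62 k61 0 (.s k190 k125 8 (.s k126 k254 7 (.s k189 k252 8 (.d k191 k188 k127 0 7))))),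
  (.s k40 k20 5 (.s k170 k85 14 (.s k105 k235 8 (.s k61 k62 0 (.s k149 k193 13 (.d k191 k127 k128 7
  6))))))] .n)

def t21_93 : T TT 256 :=
  (.q k255 [(.s k20 k40 5 (.s k85 k170 14 (.s k150 k215 8 (.s k105 k195 14 (.d k125 k65 k190 5
  8))))), (.s k62 k61 0 (.s k190 k125 8 (.s k126 k254 7 (.s k189 k252 8 (.d k191 k188 k127 0 7))))),
  (.s k40 k20 5 (.s k170 k85 14 (.s k105 k235 8 (.s k61 k62 0 (.s k149 k193 13 (.d k191 k127 k128 7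
  6))))))] .n)

def t21_94 : T TT 256 :=
  (.q k255 [(.s k20 k40 5 (.s k85 k170 14 (.s k150 k215 8 (.s k105 k195 14 (.d k125 k65 k190 5
  8))))), (.s k62 k61 0 (.s k190 k125 8 (.s k126 k254 7 (.s k189 k252 8 (.d k191 k188 k127 0 7))))),
  (.s k40 k20 5 (.s k170 k85 14 (.s k105 k235 8 (.s k61 k62 0 (.s k149 k193 13 (.d k191 k127 k128 7
  6))))))] .n)

def t21_95 : T TT 256 :=
  (.q k255 [(.s k20 k40 5 (.s k85 k170 14 (.s k150 k215 8 (.s k105 k195 14 (.d k125 k65 k190 5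
  8))))), (.s k62 k61 0 (.s k190 k125 8 (.s k126 k254 7 (.s k189 k252 8 (.d k191 k188 k127 0 7))))),
  (.s k40 k20 5 (.s k170 k85 14 (.s k105 k235 8 (.s k61 k62 0 (.s k149 k193 13 (.d k191 k127 k128 7
  6))))))] .n)

def t21_96 : T TT 256 :=
  (.q k255 [(.s k20 k40 5 (.s k85 k170 14 (.s k150 k215 8 (.s k105 k195 14 (.d k125 k65 k190 5
  8))))), (.s k62 k61 0 (.s k190 k125 8 (.s k126 k254 7 (.s k189 k252 8 (.d k191 k188 k127 0 7))))),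
  (.s k40 k20 5 (.s k170 k85 14 (.s k105 k235 8 (.s k61 k62 0 (.s k149 k193 13 (.d k191 k127 k128 7
  6))))))] (.c k101 (.q k111 [(.s k61 k62 0 (.s k125 k190 8 (.s k189 k253 7 (.s k126 k252 8 (.d k127
  k124 k191 0 7))))), (.s k20 k40 5 (.s k85 k170 14 (.s k150 k215 8 (.s k105 k195 14 (.d k125 k65
  k190 5 8))))), (.s k61 k62 0 (.s k207 k159 11 (.s k109 k158 12 (.s k157 k205 11 (.d k110 k108 k204
  0 12)))))] (.c k150 (.l (.s k62 k61 0 (.s k190 k125 8 (.s k126 k254 7 (.s k189 k252 8 (.d k191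
  k188 k127 0 7)))))) .n)) (.c k111 (.q k101 [(.s k20 k40 5 (.s k85 k170 14 (.s k150 k215 8 (.s k105
  k195 14 (.d k125 k65 k190 5 8))))), (.s k61 k62 0 (.s k125 k190 8 (.s k189 k253 7 (.s k126 k252 8
  (.d k127 k124 k191 0 7))))), (.s k85 k170 14 (.s k69 k117 3 (.s k207 k138 10 (.s k154 k48 14 (.d
  k223 k239 k16 3 10)))))] .n) .n)))

def t21_97 : T TT 256 :=
  (.q k255 [(.s k61 k62 0 (.s k125 k190 8 (.s k189 k253 7 (.s k126 k252 8 (.d k127 k124 k191 0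
  7))))), (.s k20 k40 5 (.s k85 k170 14 (.s k150 k215 8 (.s k105 k195 14 (.d k125 k65 k190 5 8))))),
  (.s k40 k20 5 (.s k170 k85 14 (.s k105 k235 8 (.s k61 k62 0 (.s k149 k193 13 (.d k191 k127 k128 7
  6))))))] (.c k150 (.l (.s k62 k61 0 (.s k190 k125 8 (.s k126 k254 7 (.s k189 k252 8 (.d k191 k188
  k127 0 7)))))) .n))

def t21_98 : T TT 256 :=
  (.q k255 [(.s k20 k40 5 (.s k85 k170 14 (.s k150 k215 8 (.s k105 k195 14 (.d k125 k65 k190 5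
  8))))), (.s k62 k61 0 (.s k190 k125 8 (.s k126 k254 7 (.s k189 k252 8 (.d k191 k188 k127 0 7))))),
  (.s k40 k20 5 (.s k170 k85 14 (.s k105 k235 8 (.s k61 k62 0 (.s k149 k193 13 (.d k191 k127 k128 7
  6))))))] (.c k102 (.q k110 [(.s k61 k62 0 (.s k125 k190 8 (.s k189 k253 7 (.s k126 k252 8 (.d k127
  k124 k191 0 7))))), (.s k20 k40 5 (.s k85 k170 14 (.s k150 k215 8 (.s k105 k195 14 (.d k125 k65
  k190 5 8))))), (.s k61 k62 0 (.s k157 k204 12 (.s k109 k205 11 (.s k207 k158 12 (.d k111 k108 k159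
  0 11)))))] (.c k150 (.l (.s k62 k61 0 (.s k190 k125 8 (.s k126 k254 7 (.s k189 k252 8 (.d k191
  k188 k127 0 7)))))) .n)) (.c k110 (.q k102 [(.s k20 k40 5 (.s k85 k170 14 (.s k150 k215 8 (.s k105
  k195 14 (.d k125 k65 k190 5 8))))), (.s k61 k62 0 (.s k125 k190 8 (.s k189 k253 7 (.s k126 k252 8
  (.d k127 k124 k191 0 7))))), (.s k85 k170 14 (.s k68 k119 4 (.s k204 k136 9 (.s k153 k51 14 (.d
  k221 k238 k17 4 9)))))] .n) .n)))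

def t21_99 : T TT 256 :=
  (.q k255 [(.s k61 k62 0 (.s k125 k190 8 (.s k189 k253 7 (.s k126 k252 8 (.d k127 k124 k191 0
  7))))), (.s k20 k40 5 (.s k85 k170 14 (.s k150 k215 8 (.s k105 k195 14 (.d k125 k65 k190 5 8))))),
  (.s k40 k20 5 (.s k170 k85 14 (.s k105 k235 8 (.s k61 k62 0 (.s k149 k193 13 (.d k191 k127 k128 7
  6))))))] (.c k150 (.l (.s k62 k61 0 (.s k190 k125 8 (.s k126 k254 7 (.s k189 k252 8 (.d k191 k188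
  k127 0 7)))))) .n))

def t21_100 : T TT 256 :=
  (.q k255 [(.s k20 k40 5 (.s k85 k170 14 (.s k150 k215 8 (.s k105 k195 14 (.d k125 k65 k190 5
  8))))), (.s k62 k61 0 (.s k190 k125 8 (.s k126 k254 7 (.s k189 k252 8 (.d k191 k188 k127 0 7))))),
  (.s k40 k20 5 (.s k170 k85 14 (.s k105 k235 8 (.s k61 k62 0 (.s k149 k193 13 (.d k191 k127 k128 7
  6))))))] .n)

def t21_101 : T TT 256 :=
  (.q k255 [(.s k61 k62 0 (.s k125 k190 8 (.s k189 k253 7 (.s k126 k252 8 (.d k127 k124 k191 0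
  7))))), (.s k20 k40 5 (.s k85 k170 14 (.s k150 k215 8 (.s k105 k195 14 (.d k125 k65 k190 5 8))))),
  (.s k40 k20 5 (.s k170 k85 14 (.s k105 k235 8 (.s k61 k62 0 (.s k149 k193 13 (.d k191 k127 k128 7
  6))))))] (.c k96 (.q k111 [(.s k61 k62 0 (.s k125 k190 8 (.s k189 k253 7 (.s k126 k252 8 (.d k127
  k124 k191 0 7))))), (.s k20 k40 5 (.s k85 k170 14 (.s k150 k215 8 (.s k105 k195 14 (.d k125 k65
  k190 5 8))))), (.s k61 k62 0 (.s k207 k159 11 (.s k109 k158 12 (.s k157 k205 11 (.d k110 k108 k204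
  0 12)))))] (.c k150 (.l (.s k62 k61 0 (.s k190 k125 8 (.s k126 k254 7 (.s k189 k252 8 (.d k191
  k188 k127 0 7)))))) .n)) (.c k111 (.q k96 [(.s k61 k62 0 (.s k125 k190 8 (.s k189 k253 7 (.s k126
  k252 8 (.d k127 k124 k191 0 7))))), (.s k20 k40 5 (.s k85 k170 14 (.s k150 k215 8 (.s k105 k195 14
  (.d k125 k65 k190 5 8))))), (.s k40 k20 5 (.s k170 k85 14 (.s k105 k235 8 (.s k61 k62 0 (.s k149
  k193 13 (.d k191 k127 k128 7 6))))))] (.c k150 (.l (.s k62 k61 0 (.s k190 k125 8 (.s k126 k254 7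
  (.s k189 k252 8 (.d k191 k188 k127 0 7)))))) .n)) (.c k150 (.l (.s k62 k61 0 (.s k190 k125 8 (.s
  k126 k254 7 (.s k189 k252 8 (.d k191 k188 k127 0 7)))))) .n))))

def t21_102 : T TT 256 :=
  (.q k255 [(.s k61 k62 0 (.s k125 k190 8 (.s k189 k253 7 (.s k126 k252 8 (.d k127 k124 k191 0
  7))))), (.s k20 k40 5 (.s k85 k170 14 (.s k150 k215 8 (.s k105 k195 14 (.d k125 k65 k190 5 8))))),
  (.s k40 k20 5 (.s k170 k85 14 (.s k105 k235 8 (.s k61 k62 0 (.s k149 k193 13 (.d k191 k127 k128 7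
  6))))))] (.c k98 (.q k110 [(.s k61 k62 0 (.s k125 k190 8 (.s k189 k253 7 (.s k126 k252 8 (.d k127
  k124 k191 0 7))))), (.s k20 k40 5 (.s k85 k170 14 (.s k150 k215 8 (.s k105 k195 14 (.d k125 k65
  k190 5 8))))), (.s k61 k62 0 (.s k157 k204 12 (.s k109 k205 11 (.s k207 k158 12 (.d k111 k108 k159
  0 11)))))] (.c k150 (.l (.s k62 k61 0 (.s k190 k125 8 (.s k126 k254 7 (.s k189 k252 8 (.d k191
  k188 k127 0 7)))))) .n)) (.c k110 (.q k98 [(.s k62 k61 0 (.s k190 k125 8 (.s k126 k254 7 (.s k189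
  k252 8 (.d k191 k188 k127 0 7))))), (.s k20 k40 5 (.s k85 k170 14 (.s k150 k215 8 (.s k105 k195 14
  (.d k125 k65 k190 5 8))))), (.s k40 k20 5 (.s k170 k85 14 (.s k105 k235 8 (.s k61 k62 0 (.s k149
  k193 13 (.d k191 k127 k128 7 6))))))] .n) (.c k150 (.l (.s k62 k61 0 (.s k190 k125 8 (.s k126 k254
  7 (.s k189 k252 8 (.d k191 k188 k127 0 7)))))) .n))))

def t21_103 : T TT 256 :=
  (.q k255 [(.s k20 k40 5 (.s k85 k170 14 (.s k150 k215 8 (.s k105 k195 14 (.d k125 k65 k190 5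
  8))))), (.s k62 k61 0 (.s k190 k125 8 (.s k126 k254 7 (.s k189 k252 8 (.d k191 k188 k127 0 7))))),
  (.s k40 k20 5 (.s k170 k85 14 (.s k105 k235 8 (.s k61 k62 0 (.s k149 k193 13 (.d k191 k127 k128 7
  6))))))] .n)

def t21_104 : T TT 256 :=
  (.q k255 [(.s k61 k62 0 (.s k125 k190 8 (.s k189 k253 7 (.s k126 k252 8 (.d k127 k124 k191 0
  7))))), (.s k20 k40 5 (.s k85 k170 14 (.s k150 k215 8 (.s k105 k195 14 (.d k125 k65 k190 5 8))))),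
  (.s k40 k20 5 (.s k170 k85 14 (.s k105 k235 8 (.s k61 k62 0 (.s k149 k193 13 (.d k191 k127 k128 7
  6))))))] (.c k105 (.q k107 [(.s k61 k62 0 (.s k125 k190 8 (.s k189 k253 7 (.s k126 k252 8 (.d k127
  k124 k191 0 7))))), (.s k40 k20 5 (.s k195 k151 13 (.s k235 k215 5 (.s k43 k171 7 (.s k41 k42 0
  (.d k3 k23 k22 5 6))))))] (.c k150 (.l (.s k62 k61 0 (.s k190 k125 8 (.s k126 k254 7 (.s k189 k252
  8 (.d k191 k188 k127 0 7)))))) (.c k191 (.q k110 [(.s k61 k62 0 (.s k157 k204 12 (.s k109 k205 11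
  (.s k207 k158 12 (.d k111 k108 k159 0 11))))), (.s k85 k170 14 (.s k204 k157 12 (.s k68 k136 9 (.s
  k102 k119 4 (.s k153 k51 14 (.d k221 k238 k17 4 9)))))), (.s k62 k61 0 (.s k190 k125 8 (.s k158
  k206 11 (.s k174 k142 3 (.s k12 k93 12 (.d k46 k29 k238 4 7))))))] .n) .n))) (.c k107 (.q k105
  [(.s k40 k20 5 (.d k170 k235 k85 8 14)), (.s k125 k190 8 (.s k65 k85 5 (.d k195 k130 k150 8 14)))]
  (.c k85 (.l (.s k40 k20 5 (.s k235 k170 8 (.d k195 k215 k150 5 14)))) .n)) (.c k150 (.l (.s k62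
  k61 0 (.s k190 k125 8 (.s k126 k254 7 (.s k189 k252 8 (.d k191 k188 k127 0 7)))))) .n))))

def t21_105 : T TT 256 :=
  (.q k12 [(.s k4 k8 1 (.s k20 k40 5 (.s k36 k52 3 (.s k24 k48 5 (.d k28 k16 k44 1 3))))), (.s k28
  k44 3 (.s k29 k46 4 (.s k30 k31 0 (.s k45 k15 4 (.d k61 k62 k13 0 3)))))] (.c k16 (.l (.s k8 k4 1
  (.s k40 k20 5 (.s k24 k56 3 (.s k36 k48 5 (.d k44 k28 k32 3 1)))))) (.c k28 (.q k104 [(.s k20 k40
  5 (.s k148 k192 13 (.s k84 k212 7 (.s k252 k168 13 (.d k124 k64 k188 5 7))))), (.s k4 k8 1 (.s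
  k192 k148 13 (.s k128 k64 7 (.s k132 k72 9 (.s k68 k196 7 (.d k136 k140 k204 1 9)))))), (.s k8 k4
  1 (.s k40 k20 5 (.s k168 k232 7 (.s k88 k248 11 (.s k240 k164 13 (.d k120 k72 k180 3 9))))))] .n)
  (.c k44 (.q k104 [(.s k20 k40 5 (.s k148 k192 13 (.s k84 k212 7 (.s k252 k168 13 (.d k124 k64 k188
  5 7))))), (.s k4 k8 1 (.s k192 k148 13 (.s k128 k64 7 (.s k132 k72 9 (.s k68 k196 7 (.d k136 k140
  k204 1 9)))))), (.s k8 k4 1 (.s k40 k20 5 (.s k168 k232 7 (.s k88 k248 11 (.s k240 k164 13 (.d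
  k120 k72 k180 3 9))))))] (.c k166 (.q k227 [(.s k20 k40 5 (.s k148 k192 13 (.s k84 k212 7 (.s k252
  k168 13 (.d k124 k64 k188 5 7))))), (.s k4 k8 1 (.s k192 k148 13 (.s k128 k64 7 (.s k132 k72 9 (.s
  k68 k196 7 (.d k136 k140 k204 1 9)))))), (.s k8 k4 1 (.s k40 k20 5 (.s k168 k232 7 (.s k88 k248 11
  (.s k240 k164 13 (.d k120 k72 k180 3 9))))))] (.c k46 (.q k226 [(.s k20 k40 5 (.s k148 k192 13 (.s
  k84 k212 7 (.s k252 k168 13 (.d k124 k64 k188 5 7))))), (.s k192 k148 13 (.s k72 k132 9 (.s k88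
  k120 3 (.s k224 k225 0 (.d k240 k164 k208 13 3))))), (.s k8 k4 1 (.s k40 k20 5 (.s k168 k232 7 (.s
  k88 k248 11 (.s k240 k164 13 (.d k120 k72 k180 3 9))))))] (.c k45 (.q k47 [(.s k15 k31 3 (.s k167
  k107 9 (.s k192 k148 13 (.d k243 k209 k91 4 13)))), (.s k20 k40 5 (.s k148 k192 13 (.s k84 k212 7
  (.s k252 k168 13 (.d k124 k64 k188 5 7))))), (.s k4 k8 1 (.s k15 k31 3 (.s k5 k10 2 (.s k6 k7 0
  (.s k9 k3 2 (.d k13 k14 k1 0 1))))))] (.c k165 (.l (.s k225 k224 0 (.s k15 k31 3 (.s k167 k107 9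
  (.s k243 k91 13 (.d k192 k209 k148 4 13)))))) (.c k225 (.q k165 [(.s k107 k167 9 (.s k192 k148 13
  (.s k195 k151 13 (.d k243 k211 k209 3 4)))), (.s k15 k31 3 (.s k240 k90 14 (.s k88 k164 13 (.d
  k120 k72 k180 3 9))))] (.c k149 (.l (.s k15 k31 3 (.s k167 k107 9 (.s k243 k91 13 (.d k192 k209
  k148 4 13))))) .n)) .n))) (.c k47 (.q k45 [(.s k61 k62 0 (.s k13 k29 3 (.d k15 k14 k30 0 4))), (.s
  k20 k40 5 (.s k148 k192 13 (.s k84 k212 7 (.s k252 k168 13 (.d k124 k64 k188 5 7)))))] (.c k165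
  (.l (.s k224 k225 0 (.s k61 k62 0 (.s k13 k29 3 (.d k15 k14 k30 0 4))))) (.c k224 (.q k165 [(.s
  k61 k62 0 (.s k13 k29 3 (.d k15 k14 k30 0 4))), (.s k20 k40 5 (.s k148 k192 13 (.s k84 k212 7 (.s
  k252 k168 13 (.d k124 k64 k188 5 7)))))] .n) .n))) .n))) (.c k226 (.l (.s k46 k29 4 (.s k20 k40 5
  (.s k148 k192 13 (.s k84 k212 7 (.s k252 k168 13 (.d k124 k64 k188 5 7))))))) .n))) (.c k227 (.q
  k166 [(.s k4 k8 1 (.s k85 k247 12 (.s k170 k255 14 (.s k162 k174 1 (.d k243 k81 k89 12 14))))),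
  (.s k20 k40 5 (.s k148 k192 13 (.s k84 k212 7 (.s k252 k168 13 (.d k124 k64 k188 5 7)))))] (.c
  k170 (.l (.s k192 k148 13 (.s k132 k72 9 (.s k183 k149 4 (.d k243 k123 k89 9 14))))) .n)) .n)))
  (.c k104 (.q k107 [(.s k4 k8 1 (.s k20 k40 5 (.s k36 k52 3 (.s k24 k48 5 (.d k28 k16 k44 1 3))))),
  (.s k4 k8 1 (.s k195 k151 13 (.s k130 k65 8 (.s k134 k73 10 (.s k69 k199 8 (.d k138 k142 k207 1
  10)))))), (.s k28 k44 3 (.s k29 k46 4 (.s k30 k31 0 (.s k45 k15 4 (.d k61 k62 k13 0 3)))))] .n)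
  (.c k107 (.q k104 [(.s k4 k8 1 (.s k20 k40 5 (.s k36 k52 3 (.s k24 k48 5 (.d k28 k16 k44 1 3))))),
  (.s k28 k44 3 (.s k29 k46 4 (.s k30 k31 0 (.s k45 k15 4 (.d k61 k62 k13 0 3))))), (.s k20 k40 5
  (.s k148 k192 13 (.s k84 k212 7 (.s k252 k168 13 (.d k124 k64 k188 5 7)))))] .n) .n))))))

def t21_107 : T TT 256 :=
  (.q k255 [(.s k20 k40 5 (.s k85 k170 14 (.s k150 k215 8 (.s k105 k195 14 (.d k125 k65 k190 5
  8))))), (.s k62 k61 0 (.s k190 k125 8 (.s k126 k254 7 (.s k189 k252 8 (.d k191 k188 k127 0 7))))),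
  (.s k40 k20 5 (.s k170 k85 14 (.s k105 k235 8 (.s k61 k62 0 (.s k149 k193 13 (.d k191 k127 k128 7
  6))))))] (.c k104 (.q k105 [(.s k40 k20 5 (.d k170 k235 k85 8 14)), (.s k125 k190 8 (.s k65 k85 5
  (.d k195 k130 k150 8 14)))] (.c k85 (.l (.s k40 k20 5 (.s k235 k170 8 (.d k195 k215 k150 5 14))))
  .n)) (.c k105 (.q k104 [(.s k20 k40 5 (.s k148 k192 13 (.s k84 k212 7 (.s k252 k168 13 (.d k124
  k64 k188 5 7))))), (.s k61 k62 0 (.s k125 k190 8 (.s k189 k253 7 (.s k126 k252 8 (.d k127 k124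
  k191 0 7)))))] (.c k124 (.l (.s k62 k61 0 (.s k190 k125 8 (.s k126 k254 7 (.s k189 k252 8 (.d k191
  k127 k188 7 0)))))) (.c k252 (.l (.s k192 k148 13 (.s k64 k128 7 (.s k125 k190 8 (.s k127 k191 7
  (.d k124 k126 k84 0 5)))))) .n))) .n)))

def t21_108 : T TT 256 :=
  (.q k255 [(.s k20 k40 5 (.s k85 k170 14 (.s k150 k215 8 (.s k105 k195 14 (.d k125 k65 k190 5
  8))))), (.s k62 k61 0 (.s k190 k125 8 (.s k126 k254 7 (.s k189 k252 8 (.d k191 k188 k127 0 7))))),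
  (.s k40 k20 5 (.s k170 k85 14 (.s k105 k235 8 (.s k61 k62 0 (.s k149 k193 13 (.d k191 k127 k128 7
  6))))))] .n)

def t21_109 : T TT 256 :=
  (.q k255 [(.s k20 k40 5 (.s k85 k170 14 (.s k150 k215 8 (.s k105 k195 14 (.d k125 k65 k190 5
  8))))), (.s k62 k61 0 (.s k190 k125 8 (.s k126 k254 7 (.s k189 k252 8 (.d k191 k188 k127 0 7))))),
  (.s k40 k20 5 (.s k170 k85 14 (.s k105 k235 8 (.s k61 k62 0 (.s k149 k193 13 (.d k191 k127 k128 7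
  6))))))] .n)

def t21_110 : T TT 256 :=
  (.q k255 [(.s k20 k40 5 (.s k85 k170 14 (.s k150 k215 8 (.s k105 k195 14 (.d k125 k65 k190 5
  8))))), (.s k62 k61 0 (.s k190 k125 8 (.s k126 k254 7 (.s k189 k252 8 (.d k191 k188 k127 0 7))))),
  (.s k40 k20 5 (.s k170 k85 14 (.s k105 k235 8 (.s k61 k62 0 (.s k149 k193 13 (.d k191 k127 k128 7
  6))))))] (.c k98 (.q k102 [(.s k20 k40 5 (.s k85 k170 14 (.s k150 k215 8 (.s k105 k195 14 (.d k125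
  k65 k190 5 8))))), (.s k61 k62 0 (.s k125 k190 8 (.s k189 k253 7 (.s k126 k252 8 (.d k127 k124
  k191 0 7))))), (.s k85 k170 14 (.s k68 k119 4 (.s k204 k136 9 (.s k153 k51 14 (.d k221 k238 k17 4
  9)))))] .n) (.c k102 (.q k98 [(.s k62 k61 0 (.s k190 k125 8 (.s k126 k254 7 (.s k189 k252 8 (.d
  k191 k188 k127 0 7))))), (.s k20 k40 5 (.s k85 k170 14 (.s k150 k215 8 (.s k105 k195 14 (.d k125
  k65 k190 5 8))))), (.s k40 k20 5 (.s k170 k85 14 (.s k105 k235 8 (.s k61 k62 0 (.s k149 k193 13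
  (.d k191 k127 k128 7 6))))))] .n) .n)))

def t21_111 : T TT 256 :=
  (.q k255 [(.s k20 k40 5 (.s k85 k170 14 (.s k150 k215 8 (.s k105 k195 14 (.d k125 k65 k190 5
  8))))), (.s k62 k61 0 (.s k190 k125 8 (.s k126 k254 7 (.s k189 k252 8 (.d k191 k188 k127 0 7))))),
  (.s k40 k20 5 (.s k170 k85 14 (.s k105 k235 8 (.s k61 k62 0 (.s k149 k193 13 (.d k191 k127 k128 7
  6))))))] (.c k96 (.q k101 [(.s k20 k40 5 (.s k85 k170 14 (.s k150 k215 8 (.s k105 k195 14 (.d k125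
  k65 k190 5 8))))), (.s k61 k62 0 (.s k125 k190 8 (.s k189 k253 7 (.s k126 k252 8 (.d k127 k124
  k191 0 7))))), (.s k85 k170 14 (.s k69 k117 3 (.s k207 k138 10 (.s k154 k48 14 (.d k223 k239 k16 3
  10)))))] .n) (.c k101 (.q k96 [(.s k61 k62 0 (.s k125 k190 8 (.s k189 k253 7 (.s k126 k252 8 (.d
  k127 k124 k191 0 7))))), (.s k20 k40 5 (.s k85 k170 14 (.s k150 k215 8 (.s k105 k195 14 (.d k125
  k65 k190 5 8))))), (.s k40 k20 5 (.s k170 k85 14 (.s k105 k235 8 (.s k61 k62 0 (.s k149 k193 13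
  (.d k191 k127 k128 7 6))))))] (.c k150 (.l (.s k62 k61 0 (.s k190 k125 8 (.s k126 k254 7 (.s k189
  k252 8 (.d k191 k188 k127 0 7)))))) .n)) .n)))

def t21_112 : T TT 256 :=
  (.q k255 [(.s k20 k40 5 (.s k85 k170 14 (.s k150 k215 8 (.s k105 k195 14 (.d k125 k65 k190 5
  8))))), (.s k62 k61 0 (.s k190 k125 8 (.s k126 k254 7 (.s k189 k252 8 (.d k191 k188 k127 0 7))))),
  (.s k40 k20 5 (.s k170 k85 14 (.s k105 k235 8 (.s k61 k62 0 (.s k149 k193 13 (.d k191 k127 k128 7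
  6))))))] .n)

def t21_113 : T TT 256 :=
  (.q k255 [(.s k20 k40 5 (.s k85 k170 14 (.s k150 k215 8 (.s k105 k195 14 (.d k125 k65 k190 5
  8))))), (.s k62 k61 0 (.s k190 k125 8 (.s k126 k254 7 (.s k189 k252 8 (.d k191 k188 k127 0 7))))),
  (.s k40 k20 5 (.s k170 k85 14 (.s k105 k235 8 (.s k61 k62 0 (.s k149 k193 13 (.d k191 k127 k128 7
  6))))))] .n)

def t21_114 : T TT 256 :=
  (.q k255 [(.s k20 k40 5 (.s k85 k170 14 (.s k150 k215 8 (.s k105 k195 14 (.d k125 k65 k190 5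
  8))))), (.s k62 k61 0 (.s k190 k125 8 (.s k126 k254 7 (.s k189 k252 8 (.d k191 k188 k127 0 7))))),
  (.s k40 k20 5 (.s k170 k85 14 (.s k105 k235 8 (.s k61 k62 0 (.s k149 k193 13 (.d k191 k127 k128 7
  6))))))] .n)

def t21_115 : T TT 256 :=
  (.q k255 [(.s k20 k40 5 (.s k85 k170 14 (.s k150 k215 8 (.s k105 k195 14 (.d k125 k65 k190 5
  8))))), (.s k62 k61 0 (.s k190 k125 8 (.s k126 k254 7 (.s k189 k252 8 (.d k191 k188 k127 0 7))))),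
  (.s k40 k20 5 (.s k170 k85 14 (.s k105 k235 8 (.s k61 k62 0 (.s k149 k193 13 (.d k191 k127 k128 7
  6))))))] .n)

def t21_116 : T TT 256 :=
  (.q k255 [(.s k20 k40 5 (.s k85 k170 14 (.s k150 k215 8 (.s k105 k195 14 (.d k125 k65 k190 5
  8))))), (.s k62 k61 0 (.s k190 k125 8 (.s k126 k254 7 (.s k189 k252 8 (.d k191 k188 k127 0 7))))),
  (.s k40 k20 5 (.s k170 k85 14 (.s k105 k235 8 (.s k61 k62 0 (.s k149 k193 13 (.d k191 k127 k128 7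
  6))))))] .n)

def t21_117 : T TT 256 :=
  (.q k255 [(.s k20 k40 5 (.s k85 k170 14 (.s k150 k215 8 (.s k105 k195 14 (.d k125 k65 k190 5
  8))))), (.s k62 k61 0 (.s k190 k125 8 (.s k126 k254 7 (.s k189 k252 8 (.d k191 k188 k127 0 7))))),
  (.s k40 k20 5 (.s k170 k85 14 (.s k105 k235 8 (.s k61 k62 0 (.s k149 k193 13 (.d k191 k127 k128 7
  6))))))] .n)

def t21_118 : T TT 256 :=
  (.q k255 [(.s k20 k40 5 (.s k85 k170 14 (.s k150 k215 8 (.s k105 k195 14 (.d k125 k65 k190 5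
  8))))), (.s k62 k61 0 (.s k190 k125 8 (.s k126 k254 7 (.s k189 k252 8 (.d k191 k188 k127 0 7))))),
  (.s k40 k20 5 (.s k170 k85 14 (.s k105 k235 8 (.s k61 k62 0 (.s k149 k193 13 (.d k191 k127 k128 7
  6))))))] .n)

def t21_119 : T TT 256 :=
  (.q k255 [(.s k20 k40 5 (.s k85 k170 14 (.s k150 k215 8 (.s k105 k195 14 (.d k125 k65 k190 5
  8))))), (.s k62 k61 0 (.s k190 k125 8 (.s k126 k254 7 (.s k189 k252 8 (.d k191 k188 k127 0 7))))),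
  (.s k40 k20 5 (.s k170 k85 14 (.s k105 k235 8 (.s k61 k62 0 (.s k149 k193 13 (.d k191 k127 k128 7
  6))))))] .n)

def t21_120 : T TT 256 :=
  (.q k255 [(.s k20 k40 5 (.s k85 k170 14 (.s k150 k215 8 (.s k105 k195 14 (.d k125 k65 k190 5
  8))))), (.s k62 k61 0 (.s k190 k125 8 (.s k126 k254 7 (.s k189 k252 8 (.d k191 k188 k127 0 7))))),
  (.s k40 k20 5 (.s k170 k85 14 (.s k105 k235 8 (.s k61 k62 0 (.s k149 k193 13 (.d k191 k127 k128 7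
  6))))))] .n)

def t21_121 : T TT 256 :=
  (.q k255 [(.s k20 k40 5 (.s k85 k170 14 (.s k150 k215 8 (.s k105 k195 14 (.d k125 k65 k190 5
  8))))), (.s k62 k61 0 (.s k190 k125 8 (.s k126 k254 7 (.s k189 k252 8 (.d k191 k188 k127 0 7))))),
  (.s k40 k20 5 (.s k170 k85 14 (.s k105 k235 8 (.s k61 k62 0 (.s k149 k193 13 (.d k191 k127 k128 7
  6))))))] .n)

def t21_122 : T TT 256 :=
  (.q k255 [(.s k20 k40 5 (.s k85 k170 14 (.s k150 k215 8 (.s k105 k195 14 (.d k125 k65 k190 5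
  8))))), (.s k62 k61 0 (.s k190 k125 8 (.s k126 k254 7 (.s k189 k252 8 (.d k191 k188 k127 0 7))))),
  (.s k40 k20 5 (.s k170 k85 14 (.s k105 k235 8 (.s k61 k62 0 (.s k149 k193 13 (.d k191 k127 k128 7
  6))))))] (.c k74 (.q k90 [(.s k20 k40 5 (.s k85 k170 14 (.s k150 k215 8 (.s k105 k195 14 (.d k125
  k65 k190 5 8))))), (.s k61 k62 0 (.s k125 k190 8 (.s k189 k253 7 (.s k126 k252 8 (.d k127 k124
  k191 0 7))))), (.s k85 k170 14 (.s k80 k95 2 (.s k240 k160 11 (.s k165 k15 14 (.d k245 k250 k5 2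
  11)))))] .n) (.c k90 (.q k74 [(.s k62 k61 0 (.s k190 k125 8 (.s k126 k254 7 (.s k189 k252 8 (.d
  k191 k188 k127 0 7))))), (.s k20 k40 5 (.s k85 k170 14 (.s k150 k215 8 (.s k105 k195 14 (.d k125
  k65 k190 5 8))))), (.s k40 k20 5 (.s k170 k85 14 (.s k105 k235 8 (.s k61 k62 0 (.s k149 k193 13
  (.d k191 k127 k128 7 6))))))] .n) .n)))

def t21_123 : T TT 256 :=
  (.q k255 [(.s k20 k40 5 (.s k85 k170 14 (.s k150 k215 8 (.s k105 k195 14 (.d k125 k65 k190 5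
  8))))), (.s k62 k61 0 (.s k190 k125 8 (.s k126 k254 7 (.s k189 k252 8 (.d k191 k188 k127 0 7))))),
  (.s k40 k20 5 (.s k170 k85 14 (.s k105 k235 8 (.s k61 k62 0 (.s k149 k193 13 (.d k191 k127 k128 7
  6))))))] (.c k72 (.q k89 [(.s k20 k40 5 (.s k85 k170 14 (.s k150 k215 8 (.s k105 k195 14 (.d k125
  k65 k190 5 8))))), (.s k61 k62 0 (.s k125 k190 8 (.s k189 k253 7 (.s k126 k252 8 (.d k127 k124
  k191 0 7))))), (.s k85 k170 14 (.s k81 k93 1 (.s k243 k162 12 (.s k166 k12 14 (.d k247 k251 k4 1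
  12)))))] .n) (.c k89 (.q k72 [(.s k61 k62 0 (.s k125 k190 8 (.s k189 k253 7 (.s k126 k252 8 (.d
  k127 k124 k191 0 7))))), (.s k20 k40 5 (.s k85 k170 14 (.s k150 k215 8 (.s k105 k195 14 (.d k125
  k65 k190 5 8))))), (.s k40 k20 5 (.s k170 k85 14 (.s k105 k235 8 (.s k61 k62 0 (.s k149 k193 13
  (.d k191 k127 k128 7 6))))))] (.c k150 (.l (.s k62 k61 0 (.s k190 k125 8 (.s k126 k254 7 (.s k189
  k252 8 (.d k191 k188 k127 0 7)))))) .n)) .n)))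

def t21_124 : T TT 256 :=
  (.q k255 [(.s k20 k40 5 (.s k85 k170 14 (.s k150 k215 8 (.s k105 k195 14 (.d k125 k65 k190 5
  8))))), (.s k62 k61 0 (.s k190 k125 8 (.s k126 k254 7 (.s k189 k252 8 (.d k191 k127 k188 7 0))))),
  (.s k40 k20 5 (.s k170 k85 14 (.s k105 k235 8 (.s k61 k62 0 (.s k149 k193 13 (.d k191 k127 k128 7
  6))))))] .n)

def t21_125 : T TT 256 :=
  (.q k12 [(.s k4 k8 1 (.s k20 k40 5 (.s k36 k52 3 (.s k24 k48 5 (.d k28 k16 k44 1 3))))), (.s k28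
  k44 3 (.s k29 k46 4 (.s k30 k31 0 (.s k45 k15 4 (.d k61 k62 k13 0 3)))))] (.c k16 (.l (.s k8 k4 1
  (.s k40 k20 5 (.s k24 k56 3 (.s k36 k48 5 (.d k44 k28 k32 3 1)))))) (.c k28 (.q k255 [(.s k4 k8 1
  (.s k85 k170 14 (.s k166 k247 12 (.s k89 k243 14 (.d k93 k81 k174 1 12))))), (.s k46 k29 4 (.s
  k174 k93 12 (.s k110 k238 7 (.s k157 k204 12 (.d k191 k140 k127 4 7))))), (.s k8 k4 1 (.s k170 k85
  14 (.s k89 k251 12 (.s k29 k46 4 (.s k149 k209 9 (.d k191 k127 k128 7 6))))))] .n) (.c k44 (.q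
  k255 [(.s k4 k8 1 (.s k85 k170 14 (.s k166 k247 12 (.s k89 k243 14 (.d k93 k81 k174 1 12))))), (.s
  k46 k29 4 (.s k174 k93 12 (.s k110 k238 7 (.s k157 k204 12 (.d k191 k140 k127 4 7))))), (.s k8 k4
  1 (.s k170 k85 14 (.s k89 k251 12 (.s k29 k46 4 (.s k149 k209 9 (.d k191 k127 k128 7 6))))))] .n)
  .n))))

def t21_126 : T TT 256 :=
  (.q k28 [(.s k20 k40 5 (.s k12 k44 3 (.s k4 k8 1 (.s k36 k52 3 (.d k24 k16 k48 1 5))))), (.s k12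
  k44 3 (.s k29 k46 4 (.s k61 k62 0 (.s k45 k13 3 (.d k30 k31 k15 0 4)))))] (.c k12 (.f k61 k62 0
  (.l (.s k20 k40 5 (.s k16 k24 1 (.s k48 k32 3 (.s k53 k58 2 (.s k57 k49 1 (.s k54 k51 2 (.d k52
  k56 k55 1 0))))))))) (.c k44 (.q k150 [(.s k20 k40 5 (.s k85 k215 8 (.s k170 k255 14 (.s k130 k190
  5 (.d k195 k65 k105 8 14))))), (.s k89 k211 10 (.s k61 k62 0 (.s k105 k195 14 (.s k149 k193 13 (.s
  k29 k209 9 (.s k45 k13 3 (.d k30 k31 k15 0 4))))))), (.s k20 k40 5 (.s k16 k24 1 (.s k85 k215 8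
  (.s k154 k223 10 (.s k211 k89 10 (.d k146 k158 k81 1 8))))))] (.c k66 (.q k86 [(.s k22 k214 7 (.s
  k62 k61 0 (.s k2 k42 5 (.d k3 k1 k41 0 6)))), (.s k20 k40 5 (.s k85 k215 8 (.s k170 k255 14 (.s
  k195 k105 14 (.d k130 k190 k65 5 8)))))] (.c k170 (.l (.s k40 k20 5 (.s k22 k214 7 (.s k41 k3 6
  (.s k42 k43 0 (.d k62 k61 k2 0 5)))))) .n)) (.c k86 (.q k66 [(.s k20 k40 5 (.s k85 k215 8 (.s k170
  k255 14 (.s k130 k190 5 (.d k195 k65 k105 8 14))))), (.s k20 k40 5 (.s k16 k24 1 (.s k85 k215 8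
  (.s k154 k223 10 (.s k211 k89 10 (.d k146 k158 k81 1 8)))))), (.s k62 k61 0 (.s k195 k105 14 (.s
  k130 k65 8 (.s k2 k194 7 (.s k22 k42 5 (.d k3 k1 k41 0 6))))))] (.c k85 (.l (.s k20 k40 5 (.s k16
  k24 1 (.s k211 k89 10 (.s k81 k146 8 (.s k243 k162 12 (.d k195 k227 k105 3 14))))))) .n)) .n)))
  (.c k66 (.q k86 [(.s k20 k40 5 (.s k12 k44 3 (.s k4 k8 1 (.s k36 k52 3 (.d k24 k16 k48 1 5))))),
  (.s k12 k44 3 (.s k29 k46 4 (.s k61 k62 0 (.s k45 k13 3 (.d k30 k31 k15 0 4)))))] (.c k12 (.f k61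
  k62 0 (.l (.s k20 k40 5 (.s k16 k24 1 (.s k48 k32 3 (.s k53 k58 2 (.s k57 k49 1 (.s k54 k51 2 (.d
  k52 k56 k55 1 0))))))))) (.c k44 (.q k2 [(.s k62 k61 0 (.s k22 k42 5 (.d k3 k1 k41 0 6))), (.s
  k170 k254 13 (.s k85 k255 14 (.s k84 k87 0 (.s k252 k168 13 (.d k3 k1 k169 0 14))))), (.s k20 k40
  5 (.s k170 k254 13 (.s k85 k255 14 (.s k150 k215 8 (.s k22 k214 7 (.d k62 k61 k42 0 5)))))), (.s
  k3 k1 0 (.s k20 k40 5 (.s k23 k43 5 (.s k212 k149 8 (.s k84 k148 7 (.d k252 k169 k168 14 13))))))]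
  .n) .n))) (.c k86 (.q k66 [(.s k20 k40 5 (.s k12 k44 3 (.s k4 k8 1 (.s k36 k52 3 (.d k24 k16 k48 1
  5))))), (.s k12 k44 3 (.s k29 k46 4 (.s k61 k62 0 (.s k45 k13 3 (.d k30 k31 k15 0 4)))))] (.c k12
  (.q k2 [(.s k62 k61 0 (.s k22 k42 5 (.d k3 k1 k41 0 6))), (.s k20 k40 5 (.s k130 k194 7 (.s k195
  k65 8 (.s k150 k105 14 (.s k85 k215 8 (.d k170 k190 k255 5 14)))))), (.s k3 k1 0 (.s k192 k129 8
  (.s k64 k128 7 (.s k65 k67 0 (.d k130 k194 k195 7 8)))))] .n) (.c k44 (.q k2 [(.s k62 k61 0 (.s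
  k22 k42 5 (.d k3 k1 k41 0 6))), (.s k20 k40 5 (.s k130 k194 7 (.s k195 k65 8 (.s k150 k105 14 (.s
  k85 k215 8 (.d k170 k190 k255 5 14)))))), (.s k3 k1 0 (.s k192 k129 8 (.s k64 k128 7 (.s k65 k67 0
  (.d k130 k194 k195 7 8)))))] .n) .n))) .n)))))

def t21_127 : T TT 256 :=
  (.q k12 [(.s k4 k8 1 (.s k20 k40 5 (.s k36 k52 3 (.s k24 k48 5 (.d k28 k16 k44 1 3))))), (.s k28
  k44 3 (.s k29 k46 4 (.s k30 k31 0 (.s k45 k15 4 (.d k61 k62 k13 0 3)))))] (.c k16 (.l (.s k8 k4 1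
  (.s k40 k20 5 (.s k24 k56 3 (.s k36 k48 5 (.d k44 k28 k32 3 1)))))) (.c k28 (.f k4 k8 1 (.q k85
  [(.s k170 k255 14 (.s k166 k247 12 (.s k162 k174 1 (.d k243 k81 k89 12 14)))), (.s k20 k40 5 (.s
  k170 k255 14 (.s k150 k215 8 (.s k195 k105 14 (.d k130 k190 k65 5 8))))), (.s k20 k40 5 (.s k166
  k247 12 (.s k150 k215 8 (.s k134 k182 3 (.d k195 k73 k105 10 14)))))] .n)) (.c k44 (.f k4 k8 1 (.q
  k85 [(.s k170 k255 14 (.s k166 k247 12 (.s k243 k89 14 (.d k162 k174 k81 1 12)))), (.s k20 k40 5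
  (.s k170 k255 14 (.s k150 k215 8 (.s k130 k190 5 (.d k195 k65 k105 8 14))))), (.s k20 k40 5 (.s
  k166 k247 12 (.s k150 k215 8 (.s k134 k182 3 (.d k195 k73 k105 10 14)))))] .n)) (.c k64 (.q k85
  [(.s k4 k8 1 (.s k20 k40 5 (.s k36 k52 3 (.s k24 k48 5 (.d k28 k16 k44 1 3))))), (.s k20 k40 5 (.s
  k170 k255 14 (.s k150 k215 8 (.s k195 k105 14 (.d k130 k190 k65 5 8))))), (.s k4 k8 1 (.s k170
  k255 14 (.s k166 k247 12 (.s k243 k89 14 (.d k162 k174 k81 1 12)))))] .n) (.c k85 (.q k64 [(.s k4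
  k8 1 (.s k20 k40 5 (.s k36 k52 3 (.s k24 k48 5 (.d k28 k16 k44 1 3))))), (.s k40 k20 5 (.s k192
  k128 7 (.s k104 k148 13 (.s k168 k232 7 (.d k84 k124 k252 5 13))))), (.s k8 k4 1 (.s k192 k128 7
  (.s k72 k132 9 (.s k136 k200 7 (.d k68 k76 k204 1 9)))))] (.c k149 (.q k213 [(.s k4 k8 1 (.s k20
  k40 5 (.s k36 k52 3 (.s k24 k48 5 (.d k28 k16 k44 1 3))))), (.s k40 k20 5 (.s k192 k128 7 (.s k104
  k148 13 (.s k168 k232 7 (.d k84 k124 k252 5 13))))), (.s k8 k4 1 (.s k192 k128 7 (.s k72 k132 9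
  (.s k136 k200 7 (.d k68 k76 k204 1 9)))))] .n) (.c k213 (.q k149 [(.s k4 k8 1 (.s k20 k40 5 (.s
  k36 k52 3 (.s k24 k48 5 (.d k28 k16 k44 1 3))))), (.s k40 k20 5 (.s k128 k192 7 (.s k61 k62 0 (.s
  k105 k193 13 (.d k170 k191 k235 6 8))))), (.s k8 k4 1 (.s k128 k192 7 (.s k29 k46 4 (.s k89 k209 9
  (.d k170 k191 k251 6 12)))))] .n) .n))) .n))))))

def t21_128 : T TT 256 :=
  (.q k12 [(.s k4 k8 1 (.s k20 k40 5 (.s k36 k52 3 (.s k24 k48 5 (.d k28 k16 k44 1 3))))), (.s k28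
  k44 3 (.s k29 k46 4 (.s k30 k31 0 (.s k45 k15 4 (.d k61 k62 k13 0 3)))))] (.c k16 (.l (.s k8 k4 1
  (.s k40 k20 5 (.s k24 k56 3 (.s k36 k48 5 (.d k44 k28 k32 3 1)))))) (.c k28 (.q k149 [(.s k29 k46
  4 (.s k89 k209 9 (.s k61 k62 0 (.s k105 k193 13 (.s k73 k121 3 (.d k195 k150 k134 14 10)))))), (.s
  k4 k8 1 (.s k29 k46 4 (.s k89 k209 9 (.s k166 k243 14 (.s k85 k247 12 (.s k255 k170 14 (.d k93 k81
  k174 1 12))))))), (.s k20 k40 5 (.s k61 k62 0 (.s k105 k193 13 (.s k150 k195 14 (.s k85 k215 8 (.s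
  k255 k170 14 (.d k125 k65 k190 5 8)))))))] .n) (.c k44 (.q k149 [(.s k29 k46 4 (.s k89 k209 9 (.s
  k61 k62 0 (.s k105 k193 13 (.s k73 k121 3 (.d k195 k150 k134 14 10)))))), (.s k20 k40 5 (.s k61
  k62 0 (.s k105 k193 13 (.s k150 k195 14 (.s k85 k215 8 (.s k255 k170 14 (.d k125 k65 k190 5
  8))))))), (.s k4 k8 1 (.s k29 k46 4 (.s k89 k209 9 (.s k166 k243 14 (.s k85 k247 12 (.s k255 k170
  14 (.d k93 k81 k174 1 12)))))))] .n) .n))))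

def t21_129 : T TT 256 :=
  (.q k255 [(.s k20 k40 5 (.s k85 k170 14 (.s k150 k215 8 (.s k105 k195 14 (.d k125 k65 k190 5
  8))))), (.s k62 k61 0 (.s k190 k125 8 (.s k126 k254 7 (.s k189 k252 8 (.d k191 k188 k127 0 7))))),
  (.s k40 k20 5 (.s k170 k85 14 (.s k105 k235 8 (.s k61 k62 0 (.s k149 k193 13 (.d k191 k127 k128 7
  6))))))] .n)

def t21_130 : T TT 256 :=
  (.q k255 [(.s k20 k40 5 (.s k85 k170 14 (.s k150 k215 8 (.s k105 k195 14 (.d k125 k190 k65 8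
  5))))), (.s k62 k61 0 (.s k190 k125 8 (.s k126 k254 7 (.s k189 k252 8 (.d k191 k188 k127 0 7))))),
  (.s k40 k20 5 (.s k170 k85 14 (.s k105 k235 8 (.s k61 k62 0 (.s k149 k193 13 (.d k191 k127 k128 7
  6))))))] .n)

def t21_131 : T TT 256 :=
  (.q k255 [(.s k20 k40 5 (.s k85 k170 14 (.s k150 k215 8 (.s k125 k190 8 (.d k105 k65 k195 5
  14))))), (.s k62 k61 0 (.s k190 k125 8 (.s k126 k254 7 (.s k189 k252 8 (.d k191 k188 k127 0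
  7))))), (.s k40 k20 5 (.s k170 k85 14 (.s k105 k235 8 (.s k61 k62 0 (.s k149 k193 13 (.d k191 k127
  k128 7 6))))))] .n)

def t21_132 : T TT 256 :=
  (.q k255 [(.s k20 k40 5 (.s k85 k170 14 (.s k150 k215 8 (.s k105 k195 14 (.d k125 k65 k190 5
  8))))), (.s k62 k61 0 (.s k190 k125 8 (.s k126 k254 7 (.s k189 k252 8 (.d k191 k188 k127 0 7))))),
  (.s k40 k20 5 (.s k170 k85 14 (.s k105 k235 8 (.s k61 k62 0 (.s k149 k193 13 (.d k191 k127 k128 7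
  6))))))] .n)

def t21_133 : T TT 256 :=
  (.q k255 [(.s k20 k40 5 (.s k85 k170 14 (.s k150 k215 8 (.s k105 k195 14 (.d k125 k65 k190 5
  8))))), (.s k62 k61 0 (.s k190 k125 8 (.s k126 k254 7 (.s k189 k252 8 (.d k191 k188 k127 0 7))))),
  (.s k40 k20 5 (.s k170 k85 14 (.s k105 k235 8 (.s k61 k62 0 (.s k149 k193 13 (.d k191 k127 k128 7
  6))))))] .n)

def t21_134 : T TT 256 :=
  (.q k255 [(.s k20 k40 5 (.s k85 k170 14 (.s k150 k215 8 (.s k125 k190 8 (.d k105 k65 k195 5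
  14))))), (.s k62 k61 0 (.s k190 k125 8 (.s k126 k254 7 (.s k189 k252 8 (.d k191 k188 k127 0
  7))))), (.s k40 k20 5 (.s k170 k85 14 (.s k105 k235 8 (.s k61 k62 0 (.s k149 k193 13 (.d k191 k127
  k128 7 6))))))] .n)

def t21_135 : T TT 256 :=
  (.q k255 [(.s k20 k40 5 (.s k85 k170 14 (.s k150 k215 8 (.s k125 k190 8 (.d k105 k65 k195 5
  14))))), (.s k62 k61 0 (.s k190 k125 8 (.s k126 k254 7 (.s k189 k252 8 (.d k191 k188 k127 0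
  7))))), (.s k40 k20 5 (.s k170 k85 14 (.s k105 k235 8 (.s k61 k62 0 (.s k149 k193 13 (.d k191 k127
  k128 7 6))))))] .n)

def t21_136 : T TT 256 :=
  (.q k255 [(.s k61 k62 0 (.s k125 k190 8 (.s k189 k253 7 (.s k126 k252 8 (.d k127 k124 k191 0
  7))))), (.s k20 k40 5 (.s k85 k170 14 (.s k150 k215 8 (.s k105 k195 14 (.d k125 k65 k190 5 8))))),
  (.s k40 k20 5 (.s k170 k85 14 (.s k105 k235 8 (.s k61 k62 0 (.s k149 k193 13 (.d k191 k127 k128 7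
  6))))))] (.c k150 (.l (.s k62 k61 0 (.s k190 k125 8 (.s k126 k254 7 (.s k189 k252 8 (.d k191 k188
  k127 0 7)))))) .n))

def t21_137 : T TT 256 :=
  (.q k255 [(.s k20 k40 5 (.s k85 k170 14 (.s k150 k215 8 (.s k105 k195 14 (.d k125 k65 k190 5
  8))))), (.s k62 k61 0 (.s k190 k125 8 (.s k126 k254 7 (.s k189 k252 8 (.d k191 k188 k127 0 7))))),
  (.s k40 k20 5 (.s k170 k85 14 (.s k105 k235 8 (.s k61 k62 0 (.s k149 k193 13 (.d k191 k127 k128 7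
  6))))))] .n)

def t21_138 : T TT 256 :=
  (.q k255 [(.s k61 k62 0 (.s k125 k190 8 (.s k189 k253 7 (.s k126 k252 8 (.d k127 k124 k191 0
  7))))), (.s k20 k40 5 (.s k85 k170 14 (.s k150 k215 8 (.s k105 k195 14 (.d k125 k65 k190 5 8))))),
  (.s k40 k20 5 (.s k170 k85 14 (.s k105 k235 8 (.s k61 k62 0 (.s k149 k193 13 (.d k191 k127 k128 7
  6))))))] (.c k150 (.l (.s k62 k61 0 (.s k190 k125 8 (.s k126 k254 7 (.s k189 k252 8 (.d k191 k188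
  k127 0 7)))))) .n))

def t21_139 : T TT 256 :=
  (.q k255 [(.s k20 k40 5 (.s k85 k170 14 (.s k150 k215 8 (.s k105 k195 14 (.d k125 k65 k190 5
  8))))), (.s k62 k61 0 (.s k190 k125 8 (.s k126 k254 7 (.s k189 k252 8 (.d k191 k188 k127 0 7))))),
  (.s k40 k20 5 (.s k170 k85 14 (.s k105 k235 8 (.s k61 k62 0 (.s k149 k193 13 (.d k191 k127 k128 7
  6))))))] .n)

def t21_140 : T TT 256 :=
  (.q k255 [(.s k20 k40 5 (.s k85 k170 14 (.s k150 k215 8 (.s k105 k195 14 (.d k125 k65 k190 5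
  8))))), (.s k62 k61 0 (.s k190 k125 8 (.s k126 k254 7 (.s k189 k252 8 (.d k191 k188 k127 0 7))))),
  (.s k40 k20 5 (.s k170 k85 14 (.s k105 k235 8 (.s k61 k62 0 (.s k149 k193 13 (.d k191 k127 k128 7
  6))))))] .n)

def t21_141 : T TT 256 :=
  (.q k255 [(.s k20 k40 5 (.s k85 k170 14 (.s k150 k215 8 (.s k105 k195 14 (.d k125 k65 k190 5
  8))))), (.s k62 k61 0 (.s k190 k125 8 (.s k126 k254 7 (.s k189 k252 8 (.d k191 k188 k127 0 7))))),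
  (.s k40 k20 5 (.s k170 k85 14 (.s k105 k235 8 (.s k61 k62 0 (.s k149 k193 13 (.d k191 k127 k128 7
  6))))))] .n)

def t21_142 : T TT 256 :=
  (.q k255 [(.s k20 k40 5 (.s k85 k170 14 (.s k150 k215 8 (.s k105 k195 14 (.d k125 k65 k190 5
  8))))), (.s k62 k61 0 (.s k190 k125 8 (.s k126 k254 7 (.s k189 k252 8 (.d k191 k188 k127 0 7))))),
  (.s k40 k20 5 (.s k170 k85 14 (.s k105 k235 8 (.s k61 k62 0 (.s k149 k193 13 (.d k191 k127 k128 7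
  6))))))] .n)

def t21_143 : T TT 256 :=
  (.q k255 [(.s k20 k40 5 (.s k85 k170 14 (.s k150 k215 8 (.s k105 k195 14 (.d k125 k65 k190 5
  8))))), (.s k62 k61 0 (.s k190 k125 8 (.s k126 k254 7 (.s k189 k252 8 (.d k191 k188 k127 0 7))))),
  (.s k40 k20 5 (.s k170 k85 14 (.s k105 k235 8 (.s k61 k62 0 (.s k149 k193 13 (.d k191 k127 k128 7
  6))))))] .n)

def t21_144 : T TT 256 :=
  (.q k255 [(.s k20 k40 5 (.s k85 k170 14 (.s k150 k215 8 (.s k105 k195 14 (.d k125 k65 k190 5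
  8))))), (.s k62 k61 0 (.s k190 k125 8 (.s k126 k254 7 (.s k189 k252 8 (.d k191 k188 k127 0 7))))),
  (.s k40 k20 5 (.s k170 k85 14 (.s k105 k235 8 (.s k61 k62 0 (.s k149 k193 13 (.d k191 k127 k128 7
  6))))))] .n)

def t21_145 : T TT 256 :=
  (.q k255 [(.s k20 k40 5 (.s k85 k170 14 (.s k150 k215 8 (.s k105 k195 14 (.d k125 k65 k190 5
  8))))), (.s k62 k61 0 (.s k190 k125 8 (.s k126 k254 7 (.s k189 k252 8 (.d k191 k188 k127 0 7))))),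
  (.s k40 k20 5 (.s k170 k85 14 (.s k105 k235 8 (.s k61 k62 0 (.s k149 k193 13 (.d k191 k127 k128 7
  6))))))] .n)

def t21_146 : T TT 256 :=
  (.q k255 [(.s k61 k62 0 (.s k125 k190 8 (.s k189 k253 7 (.s k126 k252 8 (.d k127 k124 k191 0
  7))))), (.s k20 k40 5 (.s k85 k170 14 (.s k150 k215 8 (.s k105 k195 14 (.d k125 k65 k190 5 8))))),
  (.s k40 k20 5 (.s k170 k85 14 (.s k105 k235 8 (.s k61 k62 0 (.s k149 k193 13 (.d k191 k127 k128 7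
  6))))))] (.c k150 (.l (.s k62 k61 0 (.s k190 k125 8 (.s k126 k254 7 (.s k189 k252 8 (.d k191 k188
  k127 0 7)))))) .n))

def t21_147 : T TT 256 :=
  (.q k255 [(.s k61 k62 0 (.s k125 k190 8 (.s k189 k253 7 (.s k126 k252 8 (.d k127 k124 k191 0
  7))))), (.s k20 k40 5 (.s k85 k170 14 (.s k150 k215 8 (.s k105 k195 14 (.d k125 k65 k190 5 8))))),
  (.s k40 k20 5 (.s k170 k85 14 (.s k105 k235 8 (.s k61 k62 0 (.s k149 k193 13 (.d k191 k127 k128 7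
  6))))))] (.c k150 (.l (.s k62 k61 0 (.s k190 k125 8 (.s k126 k254 7 (.s k189 k252 8 (.d k191 k188
  k127 0 7)))))) .n))

def t21_148 : T TT 256 :=
  (.q k255 [(.s k20 k40 5 (.s k85 k170 14 (.s k150 k215 8 (.s k105 k195 14 (.d k125 k65 k190 5
  8))))), (.s k62 k61 0 (.s k190 k125 8 (.s k126 k254 7 (.s k189 k252 8 (.d k191 k188 k127 0 7))))),
  (.s k40 k20 5 (.s k170 k85 14 (.s k105 k235 8 (.s k61 k62 0 (.s k149 k193 13 (.d k191 k127 k128 7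
  6))))))] .n)

def t21_149 : T TT 256 :=
  (.q k85 [(.s k20 k40 5 (.s k170 k255 14 (.s k150 k215 8 (.s k130 k190 5 (.d k195 k65 k105 8
  14))))), (.s k255 k170 14 (.s k62 k61 0 (.s k190 k125 8 (.s k126 k254 7 (.s k189 k252 8 (.d k191
  k188 k127 0 7))))))] (.c k105 (.l (.s k255 k170 14 (.s k61 k62 0 (.s k125 k190 8 (.s k189 k253 7
  (.s k126 k252 8 (.d k127 k191 k124 7 0))))))) (.c k170 (.q k12 [(.s k4 k8 1 (.s k20 k40 5 (.s k36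
  k52 3 (.s k24 k48 5 (.d k28 k16 k44 1 3))))), (.s k28 k44 3 (.s k29 k46 4 (.s k30 k31 0 (.s k45
  k15 4 (.d k61 k62 k13 0 3))))), (.s k4 k8 1 (.s k20 k40 5 (.s k166 k247 12 (.s k150 k215 8 (.s
  k134 k182 3 (.d k195 k105 k73 14 10))))))] (.c k42 (.q k234 [(.s k8 k4 1 (.s k40 k20 5 (.s k24 k56
  3 (.s k36 k48 5 (.d k44 k32 k28 1 3))))), (.s k28 k44 3 (.s k29 k46 4 (.s k30 k31 0 (.s k45 k15 4
  (.d k61 k62 k13 0 3))))), (.s k4 k8 1 (.s k20 k40 5 (.s k166 k247 12 (.s k150 k215 8 (.s k134 k182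
  3 (.d k195 k105 k73 14 10))))))] (.c k128 (.q k191 [(.s k20 k40 5 (.s k150 k215 8 (.s k105 k195 14
  (.s k255 k127 7 (.d k125 k65 k190 5 8))))), (.s k4 k8 1 (.s k166 k247 12 (.s k89 k243 14 (.s k255
  k127 7 (.d k93 k81 k174 1 12))))), (.s k4 k8 1 (.s k20 k40 5 (.s k36 k52 3 (.s k24 k48 5 (.d k28
  k16 k44 1 3)))))] .n) (.c k191 (.q k128 [(.s k8 k4 1 (.s k40 k20 5 (.s k24 k56 3 (.s k36 k48 5 (.d
  k44 k32 k28 1 3))))), (.s k20 k40 5 (.s k192 k64 7 (.s k148 k104 13 (.s k84 k212 7 (.d k168 k188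
  k252 5 13))))), (.s k4 k8 1 (.s k192 k64 7 (.s k132 k72 9 (.s k68 k196 7 (.d k136 k140 k204 1
  9)))))] .n) .n))) (.c k128 (.q k191 [(.s k20 k40 5 (.s k150 k215 8 (.s k105 k195 14 (.s k255 k127
  7 (.d k125 k65 k190 5 8))))), (.s k4 k8 1 (.s k166 k247 12 (.s k89 k243 14 (.s k255 k127 7 (.d k93
  k81 k174 1 12))))), (.s k4 k8 1 (.s k20 k40 5 (.s k36 k52 3 (.s k24 k48 5 (.d k28 k16 k44 1
  3)))))] (.c k42 (.q k234 [(.s k20 k40 5 (.s k150 k215 8 (.s k105 k195 14 (.s k255 k127 7 (.d k125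
  k65 k190 5 8))))), (.s k4 k8 1 (.s k166 k247 12 (.s k89 k243 14 (.s k255 k127 7 (.d k93 k81 k174 1
  12))))), (.s k4 k8 1 (.s k20 k40 5 (.s k36 k52 3 (.s k24 k48 5 (.d k28 k16 k44 1 3)))))] .n) (.c
  k234 (.q k42 [(.s k8 k4 1 (.s k25 k59 4 (.s k38 k51 6 (.d k46 k34 k29 1 4)))), (.s k40 k20 5 (.s
  k41 k43 0 (.s k22 k3 6 (.d k62 k61 k2 0 5))))] .n) .n))) (.c k191 (.q k128 [(.s k4 k8 1 (.s k20
  k40 5 (.s k36 k52 3 (.s k24 k48 5 (.d k28 k16 k44 1 3))))), (.s k20 k40 5 (.s k192 k64 7 (.s k148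
  k104 13 (.s k84 k212 7 (.d k168 k188 k252 5 13))))), (.s k4 k8 1 (.s k192 k64 7 (.s k132 k72 9 (.s
  k68 k196 7 (.d k136 k140 k204 1 9)))))] (.c k42 (.q k234 [(.s k8 k4 1 (.s k40 k20 5 (.s k24 k56 3
  (.s k36 k48 5 (.d k44 k32 k28 1 3))))), (.s k20 k40 5 (.s k192 k64 7 (.s k148 k104 13 (.s k84 k212
  7 (.d k168 k188 k252 5 13))))), (.s k4 k8 1 (.s k192 k64 7 (.s k132 k72 9 (.s k68 k196 7 (.d k136
  k140 k204 1 9)))))] .n) (.c k234 (.q k42 [(.s k8 k4 1 (.s k25 k59 4 (.s k38 k51 6 (.d k46 k34 k29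
  1 4)))), (.s k40 k20 5 (.s k41 k43 0 (.s k22 k3 6 (.d k62 k61 k2 0 5))))] .n) .n))) (.c k234 (.q
  k42 [(.s k8 k4 1 (.s k25 k59 4 (.s k38 k51 6 (.d k46 k34 k29 1 4)))), (.s k40 k20 5 (.s k41 k43 0
  (.s k22 k3 6 (.d k62 k61 k2 0 5))))] (.c k128 (.q k191 [(.s k8 k4 1 (.s k25 k59 4 (.s k38 k51 6
  (.d k46 k34 k29 1 4)))), (.s k40 k20 5 (.s k41 k43 0 (.s k22 k3 6 (.d k62 k61 k2 0 5))))] .n) (.c
  k191 (.q k128 [(.s k8 k4 1 (.s k25 k59 4 (.s k38 k51 6 (.d k46 k34 k29 1 4)))), (.s k40 k20 5 (.s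
  k41 k43 0 (.s k22 k3 6 (.d k62 k61 k2 0 5))))] .n) .n))) .n))))) (.c k190 (.l (.s k40 k20 5 (.s
  k170 k255 14 (.s k105 k235 8 (.s k195 k150 14 (.d k65 k125 k130 5 8)))))) (.c k255 (.q k12 [(.s k4
  k8 1 (.s k20 k40 5 (.s k36 k52 3 (.s k28 k44 3 (.d k24 k16 k48 1 5))))), (.s k28 k44 3 (.s k29 k46
  4 (.s k30 k31 0 (.s k45 k15 4 (.d k61 k62 k13 0 3))))), (.s k4 k8 1 (.s k20 k40 5 (.s k166 k247 12
  (.s k243 k89 14 (.s k150 k215 8 (.d k182 k134 k121 3 10))))))] .n) .n)))))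

def t21_150 : T TT 256 :=
  (.f k62 k61 0 (.q k12 [(.s k46 k29 4 (.s k30 k14 3 (.s k45 k15 4 (.d k44 k47 k28 0 3)))), (.s k4
  k8 1 (.s k20 k40 5 (.s k36 k52 3 (.s k24 k48 5 (.d k28 k16 k44 1 3)))))] (.c k1 (.q k41 [(.s k22
  k3 6 (.s k42 k2 5 (.d k40 k43 k20 0 5))), (.s k44 k28 3 (.s k46 k29 4 (.s k30 k14 3 (.d k45 k47
  k15 0 4))))] .n) (.c k28 (.q k89 [(.s k4 k8 1 (.s k166 k243 14 (.s k85 k247 12 (.s k93 k81 1 (.d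
  k255 k174 k170 12 14))))), (.s k243 k166 14 (.s k182 k121 10 (.s k122 k242 9 (.s k181 k240 10 (.d
  k183 k180 k123 0 9))))), (.s k8 k4 1 (.s k40 k20 5 (.s k170 k251 12 (.s k105 k235 8 (.s k73 k121 3
  (.s k203 k138 8 (.d k56 k24 k154 3 12)))))))] (.c k1 (.q k41 [(.s k22 k3 6 (.s k42 k2 5 (.d k40
  k43 k20 0 5))), (.s k4 k8 1 (.s k166 k243 14 (.s k85 k247 12 (.s k93 k81 1 (.d k255 k174 k170 12
  14)))))] .n) (.c k41 (.q k1 [(.s k4 k8 1 (.s k166 k243 14 (.s k85 k247 12 (.s k255 k170 14 (.d k93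
  k81 k174 1 12))))), (.s k3 k2 0 (.s k8 k4 1 (.s k9 k6 2 (.s k5 k13 1 (.d k10 k11 k15 0 2))))), (.s
  k2 k3 0 (.s k243 k166 14 (.s k162 k81 12 (.s k242 k82 11 (.d k182 k122 k121 9 10)))))] .n) .n)))
  (.c k41 (.q k1 [(.s k46 k29 4 (.s k30 k14 3 (.s k45 k15 4 (.d k44 k47 k28 0 3)))), (.s k4 k8 1 (.s
  k20 k40 5 (.s k36 k52 3 (.s k24 k48 5 (.d k28 k16 k44 1 3))))), (.s k3 k2 0 (.s k8 k4 1 (.s k9 k6
  2 (.s k10 k11 0 (.d k5 k13 k15 1 2)))))] .n) (.c k44 (.q k1 [(.s k3 k2 0 (.s k8 k4 1 (.s k9 k6 2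
  (.s k10 k11 0 (.d k5 k13 k15 1 2))))), (.s k2 k3 0 (.s k8 k4 1 (.s k42 k22 5 (.s k25 k59 4 (.s k38
  k51 6 (.d k46 k34 k29 1 4)))))), (.s k2 k3 0 (.s k46 k29 4 (.s k14 k30 3 (.s k10 k6 1 (.d k15 k13
  k5 0 2)))))] (.c k2 (.q k89 [(.s k4 k8 1 (.s k166 k243 14 (.s k85 k247 12 (.s k93 k81 1 (.d k255
  k174 k170 12 14))))), (.s k243 k166 14 (.s k182 k121 10 (.s k122 k242 9 (.s k181 k240 10 (.d k183
  k180 k123 0 9))))), (.s k8 k4 1 (.s k40 k20 5 (.s k56 k24 3 (.s k170 k251 12 (.s k105 k235 8 (.s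
  k203 k154 12 (.d k73 k121 k138 3 8)))))))] .n) (.c k3 (.q k89 [(.s k4 k8 1 (.s k166 k243 14 (.s
  k85 k247 12 (.s k93 k81 1 (.d k255 k174 k170 12 14))))), (.s k243 k166 14 (.s k182 k121 10 (.s
  k122 k242 9 (.s k181 k240 10 (.d k183 k180 k123 0 9))))), (.s k8 k4 1 (.s k40 k20 5 (.s k56 k24 3
  (.s k170 k251 12 (.s k105 k235 8 (.s k203 k154 12 (.d k73 k121 k138 3 8)))))))] .n) .n))) .n))))))

def t21_151 : T TT 256 :=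
  (.q k255 [(.s k61 k62 0 (.s k125 k190 8 (.s k189 k253 7 (.s k126 k252 8 (.d k127 k124 k191 0
  7))))), (.s k20 k40 5 (.s k85 k170 14 (.s k150 k215 8 (.s k105 k195 14 (.d k125 k65 k190 5 8))))),
  (.s k40 k20 5 (.s k170 k85 14 (.s k105 k235 8 (.s k61 k62 0 (.s k149 k193 13 (.d k191 k127 k128 7
  6))))))] (.c k150 (.l (.s k62 k61 0 (.s k190 k125 8 (.s k126 k254 7 (.s k189 k252 8 (.d k191 k188
  k127 0 7)))))) .n))

def t21_152 : T TT 256 :=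
  (.q k255 [(.s k20 k40 5 (.s k85 k170 14 (.s k150 k215 8 (.s k105 k195 14 (.d k125 k65 k190 5
  8))))), (.s k62 k61 0 (.s k190 k125 8 (.s k126 k254 7 (.s k189 k252 8 (.d k191 k188 k127 0 7))))),
  (.s k40 k20 5 (.s k170 k85 14 (.s k105 k235 8 (.s k61 k62 0 (.s k149 k193 13 (.d k191 k127 k128 7
  6))))))] .n)

def t21_153 : T TT 256 :=
  (.q k255 [(.s k61 k62 0 (.s k125 k190 8 (.s k189 k253 7 (.s k126 k252 8 (.d k127 k124 k191 0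
  7))))), (.s k20 k40 5 (.s k85 k170 14 (.s k150 k215 8 (.s k105 k195 14 (.d k125 k65 k190 5 8))))),
  (.s k40 k20 5 (.s k170 k85 14 (.s k105 k235 8 (.s k61 k62 0 (.s k149 k193 13 (.d k191 k127 k128 7
  6))))))] (.c k59 (.q k200 [(.s k61 k62 0 (.s k125 k190 8 (.s k189 k253 7 (.s k126 k252 8 (.d k127
  k124 k191 0 7))))), (.s k20 k40 5 (.s k85 k170 14 (.s k150 k215 8 (.s k105 k195 14 (.d k125 k65
  k190 5 8))))), (.s k40 k20 5 (.s k170 k85 14 (.s k105 k235 8 (.s k61 k62 0 (.s k149 k193 13 (.d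
  k191 k127 k128 7 6))))))] (.c k150 (.l (.s k62 k61 0 (.s k190 k125 8 (.s k126 k254 7 (.s k189 k252
  8 (.d k191 k188 k127 0 7)))))) .n)) (.c k150 (.l (.s k62 k61 0 (.s k190 k125 8 (.s k126 k254 7 (.s
  k189 k252 8 (.d k191 k188 k127 0 7)))))) (.c k200 (.q k59 [(.s k20 k40 5 (.s k85 k170 14 (.s k150
  k215 8 (.s k105 k195 14 (.d k125 k65 k190 5 8))))), (.s k51 k55 1 (.s k57 k54 2 (.s k58 k56 0 (.s
  k53 k48 2 (.d k61 k62 k49 0 1)))))] .n) .n))))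

def t21_154 : T TT 256 :=
  (.q k255 [(.s k61 k62 0 (.s k125 k190 8 (.s k189 k253 7 (.s k126 k252 8 (.d k127 k124 k191 0
  7))))), (.s k20 k40 5 (.s k85 k170 14 (.s k150 k215 8 (.s k105 k195 14 (.d k125 k65 k190 5 8))))),
  (.s k40 k20 5 (.s k170 k85 14 (.s k105 k235 8 (.s k61 k62 0 (.s k149 k193 13 (.d k191 k127 k128 7
  6))))))] (.c k58 (.q k202 [(.s k62 k61 0 (.s k190 k125 8 (.s k126 k254 7 (.s k189 k252 8 (.d k191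
  k188 k127 0 7))))), (.s k20 k40 5 (.s k85 k170 14 (.s k150 k215 8 (.s k105 k195 14 (.d k125 k65
  k190 5 8))))), (.s k40 k20 5 (.s k170 k85 14 (.s k105 k235 8 (.s k61 k62 0 (.s k149 k193 13 (.d
  k191 k127 k128 7 6))))))] .n) (.c k150 (.l (.s k62 k61 0 (.s k190 k125 8 (.s k126 k254 7 (.s k189
  k252 8 (.d k191 k188 k127 0 7)))))) (.c k202 (.q k58 [(.s k20 k40 5 (.s k85 k170 14 (.s k150 k215
  8 (.s k105 k195 14 (.d k125 k65 k190 5 8))))), (.s k48 k53 2 (.s k56 k52 1 (.s k57 k59 0 (.s k54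
  k51 2 (.d k62 k61 k50 0 1)))))] .n) .n))))

def t21_155 : T TT 256 :=
  (.q k255 [(.s k20 k40 5 (.s k85 k170 14 (.s k150 k215 8 (.s k105 k195 14 (.d k125 k65 k190 5
  8))))), (.s k62 k61 0 (.s k190 k125 8 (.s k126 k254 7 (.s k189 k252 8 (.d k191 k188 k127 0 7))))),
  (.s k40 k20 5 (.s k170 k85 14 (.s k105 k235 8 (.s k61 k62 0 (.s k149 k193 13 (.d k191 k127 k128 7
  6))))))] .n)

def t21_156 : T TT 256 :=
  (.q k255 [(.s k20 k40 5 (.s k85 k170 14 (.s k150 k215 8 (.s k105 k195 14 (.d k125 k65 k190 5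
  8))))), (.s k62 k61 0 (.s k190 k125 8 (.s k126 k254 7 (.s k189 k252 8 (.d k191 k188 k127 0 7))))),
  (.s k40 k20 5 (.s k170 k85 14 (.s k105 k235 8 (.s k61 k62 0 (.s k149 k193 13 (.d k191 k127 k128 7
  6))))))] .n)

def t21_157 : T TT 256 :=
  (.q k255 [(.s k20 k40 5 (.s k85 k170 14 (.s k150 k215 8 (.s k105 k195 14 (.d k125 k65 k190 5
  8))))), (.s k62 k61 0 (.s k190 k125 8 (.s k126 k254 7 (.s k189 k252 8 (.d k191 k188 k127 0 7))))),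
  (.s k40 k20 5 (.s k170 k85 14 (.s k105 k235 8 (.s k61 k62 0 (.s k149 k193 13 (.d k191 k127 k128 7
  6))))))] .n)

def t21_158 : T TT 256 :=
  (.q k255 [(.s k20 k40 5 (.s k85 k170 14 (.s k150 k215 8 (.s k105 k195 14 (.d k125 k65 k190 5
  8))))), (.s k62 k61 0 (.s k190 k125 8 (.s k126 k254 7 (.s k189 k252 8 (.d k191 k188 k127 0 7))))),
  (.s k40 k20 5 (.s k170 k85 14 (.s k105 k235 8 (.s k61 k62 0 (.s k149 k193 13 (.d k191 k127 k128 7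
  6))))))] .n)

def t21_159 : T TT 256 :=
  (.q k255 [(.s k20 k40 5 (.s k85 k170 14 (.s k150 k215 8 (.s k105 k195 14 (.d k125 k65 k190 5
  8))))), (.s k62 k61 0 (.s k190 k125 8 (.s k126 k254 7 (.s k189 k252 8 (.d k191 k188 k127 0 7))))),
  (.s k40 k20 5 (.s k170 k85 14 (.s k105 k235 8 (.s k61 k62 0 (.s k149 k193 13 (.d k191 k127 k128 7
  6))))))] .n)

def t21_160 : T TT 256 :=
  (.q k255 [(.s k61 k62 0 (.s k125 k190 8 (.s k189 k253 7 (.s k126 k252 8 (.d k127 k124 k191 0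
  7))))), (.s k20 k40 5 (.s k85 k170 14 (.s k150 k215 8 (.s k105 k195 14 (.d k125 k65 k190 5 8))))),
  (.s k40 k20 5 (.s k170 k85 14 (.s k105 k235 8 (.s k61 k62 0 (.s k149 k193 13 (.d k191 k127 k128 7
  6))))))] (.c k150 (.l (.s k62 k61 0 (.s k190 k125 8 (.s k126 k254 7 (.s k189 k252 8 (.d k191 k188
  k127 0 7)))))) .n))

def t21_161 : T TT 256 :=
  (.q k255 [(.s k20 k40 5 (.s k85 k170 14 (.s k150 k215 8 (.s k105 k195 14 (.d k125 k65 k190 5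
  8))))), (.s k62 k61 0 (.s k190 k125 8 (.s k126 k254 7 (.s k189 k252 8 (.d k191 k188 k127 0 7))))),
  (.s k40 k20 5 (.s k170 k85 14 (.s k105 k235 8 (.s k61 k62 0 (.s k149 k193 13 (.d k191 k127 k128 7
  6))))))] .n)

def t21_162 : T TT 256 :=
  (.q k255 [(.s k61 k62 0 (.s k125 k190 8 (.s k189 k253 7 (.s k126 k252 8 (.d k127 k124 k191 0
  7))))), (.s k20 k40 5 (.s k85 k170 14 (.s k150 k215 8 (.s k105 k195 14 (.d k125 k65 k190 5 8))))),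
  (.s k40 k20 5 (.s k170 k85 14 (.s k105 k235 8 (.s k61 k62 0 (.s k149 k193 13 (.d k191 k127 k128 7
  6))))))] (.c k150 (.l (.s k62 k61 0 (.s k190 k125 8 (.s k126 k254 7 (.s k189 k252 8 (.d k191 k188
  k127 0 7)))))) .n))

def t21_163 : T TT 256 :=
  (.q k255 [(.s k20 k40 5 (.s k85 k170 14 (.s k150 k215 8 (.s k105 k195 14 (.d k125 k65 k190 5
  8))))), (.s k62 k61 0 (.s k190 k125 8 (.s k126 k254 7 (.s k189 k252 8 (.d k191 k188 k127 0 7))))),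
  (.s k40 k20 5 (.s k170 k85 14 (.s k105 k235 8 (.s k61 k62 0 (.s k149 k193 13 (.d k191 k127 k128 7
  6))))))] .n)

def t21_164 : T TT 256 :=
  (.q k255 [(.s k20 k40 5 (.s k85 k170 14 (.s k150 k215 8 (.s k105 k195 14 (.d k125 k65 k190 5
  8))))), (.s k62 k61 0 (.s k190 k125 8 (.s k126 k254 7 (.s k189 k252 8 (.d k191 k188 k127 0 7))))),
  (.s k40 k20 5 (.s k170 k85 14 (.s k105 k235 8 (.s k61 k62 0 (.s k149 k193 13 (.d k191 k127 k128 7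
  6))))))] .n)

def t21_165 : T TT 256 :=
  (.q k255 [(.s k61 k62 0 (.s k125 k190 8 (.s k189 k253 7 (.s k126 k252 8 (.d k127 k124 k191 0
  7))))), (.s k20 k40 5 (.s k85 k170 14 (.s k150 k215 8 (.s k105 k195 14 (.d k125 k65 k190 5 8))))),
  (.s k40 k20 5 (.s k170 k85 14 (.s k105 k235 8 (.s k61 k62 0 (.s k149 k193 13 (.d k191 k127 k128 7
  6))))))] (.c k47 (.q k224 [(.s k61 k62 0 (.s k125 k190 8 (.s k189 k253 7 (.s k126 k252 8 (.d k127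
  k124 k191 0 7))))), (.s k20 k40 5 (.s k85 k170 14 (.s k150 k215 8 (.s k105 k195 14 (.d k125 k65
  k190 5 8))))), (.s k40 k20 5 (.s k170 k85 14 (.s k105 k235 8 (.s k61 k62 0 (.s k149 k193 13 (.d
  k191 k127 k128 7 6))))))] (.c k150 (.l (.s k62 k61 0 (.s k190 k125 8 (.s k126 k254 7 (.s k189 k252
  8 (.d k191 k188 k127 0 7)))))) .n)) (.c k150 (.l (.s k62 k61 0 (.s k190 k125 8 (.s k126 k254 7 (.s
  k189 k252 8 (.d k191 k188 k127 0 7)))))) (.c k224 (.q k47 [(.s k20 k40 5 (.s k85 k170 14 (.s k150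
  k215 8 (.s k105 k195 14 (.d k125 k65 k190 5 8))))), (.s k15 k31 3 (.s k45 k30 4 (.s k46 k44 0 (.s
  k29 k12 4 (.d k61 k62 k13 0 3)))))] .n) .n))))

def t21_166 : T TT 256 :=
  (.q k255 [(.s k61 k62 0 (.s k125 k190 8 (.s k189 k253 7 (.s k126 k252 8 (.d k127 k124 k191 0
  7))))), (.s k20 k40 5 (.s k85 k170 14 (.s k150 k215 8 (.s k105 k195 14 (.d k125 k65 k190 5 8))))),
  (.s k40 k20 5 (.s k170 k85 14 (.s k105 k235 8 (.s k61 k62 0 (.s k149 k193 13 (.d k191 k127 k128 7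
  6))))))] (.c k46 (.q k226 [(.s k62 k61 0 (.s k190 k125 8 (.s k126 k254 7 (.s k189 k252 8 (.d k191
  k188 k127 0 7))))), (.s k20 k40 5 (.s k85 k170 14 (.s k150 k215 8 (.s k105 k195 14 (.d k125 k65
  k190 5 8))))), (.s k40 k20 5 (.s k170 k85 14 (.s k105 k235 8 (.s k61 k62 0 (.s k149 k193 13 (.d
  k191 k127 k128 7 6))))))] .n) (.c k150 (.l (.s k62 k61 0 (.s k190 k125 8 (.s k126 k254 7 (.s k189
  k252 8 (.d k191 k188 k127 0 7)))))) (.c k226 (.q k46 [(.s k20 k40 5 (.s k85 k170 14 (.s k150 k215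
  8 (.s k105 k195 14 (.d k125 k65 k190 5 8))))), (.s k12 k29 4 (.s k44 k28 3 (.s k45 k47 0 (.s k30
  k15 4 (.d k62 k61 k14 0 3)))))] .n) .n))))

def t21_167 : T TT 256 :=
  (.q k255 [(.s k20 k40 5 (.s k85 k170 14 (.s k150 k215 8 (.s k105 k195 14 (.d k125 k65 k190 5
  8))))), (.s k62 k61 0 (.s k190 k125 8 (.s k126 k254 7 (.s k189 k252 8 (.d k191 k188 k127 0 7))))),
  (.s k40 k20 5 (.s k170 k85 14 (.s k105 k235 8 (.s k61 k62 0 (.s k149 k193 13 (.d k191 k127 k128 7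
  6))))))] .n)

def t21_168 : T TT 256 :=
  (.q k255 [(.s k61 k62 0 (.s k125 k190 8 (.s k189 k253 7 (.s k126 k252 8 (.d k127 k124 k191 0
  7))))), (.s k20 k40 5 (.s k85 k170 14 (.s k150 k215 8 (.s k105 k195 14 (.d k125 k65 k190 5 8))))),
  (.s k40 k20 5 (.s k170 k85 14 (.s k105 k235 8 (.s k61 k62 0 (.s k149 k193 13 (.d k191 k127 k128 7
  6))))))] (.c k150 (.l (.s k62 k61 0 (.s k190 k125 8 (.s k126 k254 7 (.s k189 k252 8 (.d k191 k188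
  k127 0 7)))))) .n))

def t21_169 : T TT 256 :=
  (.q k255 [(.s k61 k62 0 (.s k125 k190 8 (.s k127 k191 7 (.s k126 k124 0 (.d k189 k253 k252 7
  8))))), (.s k20 k40 5 (.s k85 k170 14 (.s k150 k215 8 (.s k105 k195 14 (.d k125 k65 k190 5 8))))),
  (.s k40 k20 5 (.s k170 k85 14 (.s k105 k235 8 (.s k61 k62 0 (.s k149 k193 13 (.d k191 k127 k128 7
  6))))))] (.c k43 (.q k232 [(.s k61 k62 0 (.s k125 k190 8 (.s k127 k191 7 (.s k126 k124 0 (.d k189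
  k253 k252 7 8))))), (.s k20 k40 5 (.s k85 k170 14 (.s k150 k215 8 (.s k105 k195 14 (.d k125 k65
  k190 5 8))))), (.s k40 k20 5 (.s k170 k85 14 (.s k105 k235 8 (.s k61 k62 0 (.s k149 k193 13 (.d
  k191 k127 k128 7 6))))))] (.c k150 (.l (.s k62 k61 0 (.s k190 k125 8 (.s k126 k254 7 (.s k189 k252
  8 (.d k191 k188 k127 0 7)))))) .n)) (.c k150 (.l (.s k62 k61 0 (.s k190 k125 8 (.s k126 k254 7 (.s
  k189 k252 8 (.d k191 k188 k127 0 7)))))) (.c k232 (.q k43 [(.s k40 k20 5 (.s k41 k42 0 (.d k3 k23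
  k22 5 6))), (.s k61 k62 0 (.s k125 k190 8 (.s k189 k253 7 (.s k126 k252 8 (.d k127 k124 k191 0
  7)))))] (.c k3 (.l (.s k20 k40 5 (.s k85 k170 14 (.s k150 k215 8 (.s k105 k195 14 (.d k125 k65
  k190 5 8)))))) .n)) .n))))

def t21_170 : T TT 256 :=
  (.q k12 [(.s k4 k8 1 (.s k20 k40 5 (.s k36 k52 3 (.s k24 k48 5 (.d k28 k16 k44 1 3))))), (.s k28
  k44 3 (.s k29 k46 4 (.s k30 k31 0 (.s k45 k15 4 (.d k61 k62 k13 0 3)))))] (.c k16 (.l (.s k8 k4 1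
  (.s k40 k20 5 (.s k24 k56 3 (.s k36 k48 5 (.d k44 k28 k32 3 1)))))) (.c k28 (.q k42 [(.s k8 k4 1
  (.s k25 k59 4 (.s k38 k51 6 (.d k46 k34 k29 1 4)))), (.s k40 k20 5 (.s k41 k43 0 (.s k22 k3 6 (.d
  k62 k61 k2 0 5))))] .n) (.c k42 (.q k234 [(.s k8 k4 1 (.s k40 k20 5 (.s k24 k56 3 (.s k36 k48 5
  (.d k44 k32 k28 1 3))))), (.s k28 k44 3 (.s k29 k46 4 (.s k30 k31 0 (.s k45 k15 4 (.d k61 k62 k13
  0 3)))))] (.c k28 (.q k255 [(.s k29 k46 4 (.s k93 k174 12 (.s k157 k221 7 (.s k110 k204 12 (.d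
  k127 k76 k191 4 7))))), (.s k4 k8 1 (.s k192 k213 6 (.s k132 k72 9 (.s k68 k196 7 (.s k136 k204 9
  (.d k128 k140 k64 1 7))))))] (.c k204 (.l (.s k61 k62 0 (.s k125 k190 8 (.s k189 k253 7 (.s k126
  k252 8 (.d k127 k124 k191 0 7)))))) .n)) (.c k38 (.l (.s k4 k8 1 (.s k20 k40 5 (.s k36 k52 3 (.s
  k24 k48 5 (.d k28 k16 k44 1 3)))))) (.c k44 (.q k255 [(.s k46 k29 4 (.s k174 k93 12 (.s k110 k238
  7 (.s k157 k204 12 (.d k191 k140 k127 4 7))))), (.s k61 k62 0 (.s k125 k190 8 (.s k189 k253 7 (.s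
  k126 k252 8 (.d k127 k124 k191 0 7))))), (.s k4 k8 1 (.s k192 k213 6 (.s k132 k72 9 (.s k68 k196 7
  (.s k136 k204 9 (.d k128 k140 k64 1 7))))))] .n) .n)))) (.c k44 (.q k42 [(.s k8 k4 1 (.s k25 k59 4
  (.s k38 k51 6 (.d k46 k34 k29 1 4)))), (.s k40 k20 5 (.s k41 k43 0 (.s k22 k3 6 (.d k62 k61 k2 0
  5))))] .n) (.c k234 (.q k42 [(.s k8 k4 1 (.s k25 k59 4 (.s k38 k51 6 (.d k46 k34 k29 1 4)))), (.s
  k40 k20 5 (.s k41 k43 0 (.s k22 k3 6 (.d k62 k61 k2 0 5))))] .n) .n))))))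

def t21_171 : T TT 256 :=
  (.q k255 [(.s k61 k62 0 (.s k125 k190 8 (.s k189 k253 7 (.s k126 k252 8 (.d k127 k124 k191 0
  7))))), (.s k20 k40 5 (.s k85 k170 14 (.s k150 k215 8 (.s k105 k195 14 (.d k125 k65 k190 5 8))))),
  (.s k40 k20 5 (.s k170 k85 14 (.s k105 k235 8 (.s k61 k62 0 (.s k149 k193 13 (.d k191 k127 k128 7
  6))))))] (.c k150 (.l (.s k62 k61 0 (.s k190 k125 8 (.s k126 k254 7 (.s k189 k252 8 (.d k191 k188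
  k127 0 7)))))) .n))

def t21_172 : T TT 256 :=
  (.q k255 [(.s k20 k40 5 (.s k85 k170 14 (.s k150 k215 8 (.s k105 k195 14 (.d k125 k65 k190 5
  8))))), (.s k62 k61 0 (.s k190 k125 8 (.s k126 k254 7 (.s k189 k252 8 (.d k191 k188 k127 0 7))))),
  (.s k40 k20 5 (.s k170 k85 14 (.s k105 k235 8 (.s k61 k62 0 (.s k149 k193 13 (.d k191 k127 k128 7
  6))))))] .n)

def t21_173 : T TT 256 :=
  (.q k255 [(.s k20 k40 5 (.s k85 k170 14 (.s k150 k215 8 (.s k105 k195 14 (.d k125 k65 k190 5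
  8))))), (.s k62 k61 0 (.s k190 k125 8 (.s k126 k254 7 (.s k189 k252 8 (.d k191 k188 k127 0 7))))),
  (.s k40 k20 5 (.s k170 k85 14 (.s k105 k235 8 (.s k61 k62 0 (.s k149 k193 13 (.d k191 k127 k128 7
  6))))))] .n)

def t21_174 : T TT 256 :=
  (.q k255 [(.s k20 k40 5 (.s k85 k170 14 (.s k150 k215 8 (.s k105 k195 14 (.d k125 k65 k190 5
  8))))), (.s k62 k61 0 (.s k190 k125 8 (.s k126 k254 7 (.s k189 k252 8 (.d k191 k188 k127 0 7))))),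
  (.s k40 k20 5 (.s k170 k85 14 (.s k105 k235 8 (.s k61 k62 0 (.s k149 k193 13 (.d k191 k127 k128 7
  6))))))] .n)

def t21_175 : T TT 256 :=
  (.q k255 [(.s k61 k62 0 (.s k125 k190 8 (.s k189 k253 7 (.s k126 k252 8 (.d k127 k124 k191 0
  7))))), (.s k20 k40 5 (.s k85 k170 14 (.s k150 k215 8 (.s k105 k195 14 (.d k125 k65 k190 5 8))))),
  (.s k40 k20 5 (.s k170 k85 14 (.s k105 k235 8 (.s k61 k62 0 (.s k149 k193 13 (.d k191 k127 k128 7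
  6))))))] (.c k150 (.l (.s k62 k61 0 (.s k190 k125 8 (.s k126 k254 7 (.s k189 k252 8 (.d k191 k188
  k127 0 7)))))) .n))

def t21_176 : T TT 256 :=
  (.q k255 [(.s k20 k40 5 (.s k85 k170 14 (.s k150 k215 8 (.s k105 k195 14 (.d k125 k65 k190 5
  8))))), (.s k62 k61 0 (.s k190 k125 8 (.s k126 k254 7 (.s k189 k252 8 (.d k191 k188 k127 0 7))))),
  (.s k40 k20 5 (.s k170 k85 14 (.s k105 k235 8 (.s k61 k62 0 (.s k149 k193 13 (.d k191 k127 k128 7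
  6))))))] .n)

def t21_177 : T TT 256 :=
  (.q k255 [(.s k20 k40 5 (.s k85 k170 14 (.s k150 k215 8 (.s k105 k195 14 (.d k125 k65 k190 5
  8))))), (.s k62 k61 0 (.s k190 k125 8 (.s k126 k254 7 (.s k189 k252 8 (.d k191 k188 k127 0 7))))),
  (.s k40 k20 5 (.s k170 k85 14 (.s k105 k235 8 (.s k61 k62 0 (.s k149 k193 13 (.d k191 k127 k128 7
  6))))))] .n)

def t21_178 : T TT 256 :=
  (.q k255 [(.s k20 k40 5 (.s k85 k170 14 (.s k150 k215 8 (.s k105 k195 14 (.d k125 k65 k190 5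
  8))))), (.s k62 k61 0 (.s k190 k125 8 (.s k126 k254 7 (.s k189 k252 8 (.d k191 k188 k127 0 7))))),
  (.s k40 k20 5 (.s k170 k85 14 (.s k105 k235 8 (.s k61 k62 0 (.s k149 k193 13 (.d k191 k127 k128 7
  6))))))] .n)

def t21_179 : T TT 256 :=
  (.q k255 [(.s k20 k40 5 (.s k85 k170 14 (.s k150 k215 8 (.s k105 k195 14 (.d k125 k65 k190 5
  8))))), (.s k62 k61 0 (.s k190 k125 8 (.s k126 k254 7 (.s k189 k252 8 (.d k191 k188 k127 0 7))))),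
  (.s k40 k20 5 (.s k170 k85 14 (.s k105 k235 8 (.s k61 k62 0 (.s k149 k193 13 (.d k191 k127 k128 7
  6))))))] .n)

def t21_180 : T TT 256 :=
  (.q k255 [(.s k20 k40 5 (.s k85 k170 14 (.s k150 k215 8 (.s k105 k195 14 (.d k125 k65 k190 5
  8))))), (.s k62 k61 0 (.s k190 k125 8 (.s k126 k254 7 (.s k189 k252 8 (.d k191 k188 k127 0 7))))),
  (.s k40 k20 5 (.s k170 k85 14 (.s k105 k235 8 (.s k61 k62 0 (.s k149 k193 13 (.d k191 k127 k128 7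
  6))))))] .n)

def t21_181 : T TT 256 :=
  (.q k255 [(.s k20 k40 5 (.s k85 k170 14 (.s k150 k215 8 (.s k105 k195 14 (.d k125 k65 k190 5
  8))))), (.s k62 k61 0 (.s k190 k125 8 (.s k126 k254 7 (.s k189 k252 8 (.d k191 k188 k127 0 7))))),
  (.s k40 k20 5 (.s k170 k85 14 (.s k105 k235 8 (.s k61 k62 0 (.s k149 k193 13 (.d k191 k127 k128 7
  6))))))] .n)

def t21_182 : T TT 256 :=
  (.q k255 [(.s k20 k40 5 (.s k85 k170 14 (.s k150 k215 8 (.s k105 k195 14 (.d k125 k65 k190 5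
  8))))), (.s k62 k61 0 (.s k190 k125 8 (.s k126 k254 7 (.s k189 k252 8 (.d k191 k188 k127 0 7))))),
  (.s k40 k20 5 (.s k170 k85 14 (.s k105 k235 8 (.s k61 k62 0 (.s k149 k193 13 (.d k191 k127 k128 7
  6))))))] .n)

def t21_183 : T TT 256 :=
  (.q k255 [(.s k20 k40 5 (.s k85 k170 14 (.s k150 k215 8 (.s k105 k195 14 (.d k125 k65 k190 5
  8))))), (.s k62 k61 0 (.s k190 k125 8 (.s k126 k254 7 (.s k189 k252 8 (.d k191 k188 k127 0 7))))),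
  (.s k40 k20 5 (.s k170 k85 14 (.s k105 k235 8 (.s k61 k62 0 (.s k149 k193 13 (.d k191 k127 k128 7
  6))))))] .n)

def t21_184 : T TT 256 :=
  (.q k255 [(.s k20 k40 5 (.s k85 k170 14 (.s k150 k215 8 (.s k105 k195 14 (.d k125 k65 k190 5
  8))))), (.s k62 k61 0 (.s k190 k125 8 (.s k126 k254 7 (.s k189 k252 8 (.d k191 k188 k127 0 7))))),
  (.s k40 k20 5 (.s k170 k85 14 (.s k105 k235 8 (.s k61 k62 0 (.s k149 k193 13 (.d k191 k127 k128 7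
  6))))))] .n)

def t21_185 : T TT 256 :=
  (.q k255 [(.s k20 k40 5 (.s k85 k170 14 (.s k150 k215 8 (.s k105 k195 14 (.d k125 k65 k190 5
  8))))), (.s k62 k61 0 (.s k190 k125 8 (.s k126 k254 7 (.s k189 k252 8 (.d k191 k188 k127 0 7))))),
  (.s k40 k20 5 (.s k170 k85 14 (.s k105 k235 8 (.s k61 k62 0 (.s k149 k193 13 (.d k191 k127 k128 7
  6))))))] .n)

def t21_186 : T TT 256 :=
  (.q k255 [(.s k20 k40 5 (.s k85 k170 14 (.s k150 k215 8 (.s k105 k195 14 (.d k125 k65 k190 5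
  8))))), (.s k62 k61 0 (.s k190 k125 8 (.s k126 k254 7 (.s k189 k252 8 (.d k191 k188 k127 0 7))))),
  (.s k40 k20 5 (.s k170 k85 14 (.s k105 k235 8 (.s k61 k62 0 (.s k149 k193 13 (.d k191 k127 k128 7
  6))))))] .n)

def t21_187 : T TT 256 :=
  (.q k255 [(.s k61 k62 0 (.s k125 k190 8 (.s k189 k253 7 (.s k126 k252 8 (.d k127 k124 k191 0
  7))))), (.s k20 k40 5 (.s k85 k170 14 (.s k150 k215 8 (.s k105 k195 14 (.d k125 k65 k190 5 8))))),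
  (.s k40 k20 5 (.s k170 k85 14 (.s k105 k235 8 (.s k61 k62 0 (.s k149 k193 13 (.d k191 k127 k128 7
  6))))))] (.c k150 (.l (.s k62 k61 0 (.s k190 k125 8 (.s k126 k254 7 (.s k189 k252 8 (.d k191 k188
  k127 0 7)))))) .n))

def t21_188 : T TT 256 :=
  (.q k28 [(.s k20 k40 5 (.s k12 k44 3 (.s k4 k8 1 (.s k36 k52 3 (.d k24 k16 k48 1 5))))), (.s k12
  k44 3 (.s k29 k46 4 (.s k61 k62 0 (.s k45 k13 3 (.d k30 k31 k15 0 4)))))] (.c k12 (.q k150 [(.s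
  k20 k40 5 (.s k85 k215 8 (.s k170 k255 14 (.s k195 k105 14 (.d k130 k190 k65 5 8))))), (.s k89
  k211 10 (.s k61 k62 0 (.s k105 k195 14 (.s k149 k193 13 (.s k29 k209 9 (.s k45 k13 3 (.d k30 k15
  k31 4 0))))))), (.s k20 k40 5 (.s k16 k24 1 (.s k85 k215 8 (.s k154 k223 10 (.s k211 k89 10 (.d
  k146 k158 k81 1 8))))))] .n) (.c k44 (.q k150 [(.s k20 k40 5 (.s k85 k215 8 (.s k170 k255 14 (.s
  k130 k190 5 (.d k195 k65 k105 8 14))))), (.s k89 k211 10 (.s k61 k62 0 (.s k105 k195 14 (.s k149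
  k193 13 (.s k29 k209 9 (.s k45 k13 3 (.d k30 k31 k15 0 4))))))), (.s k20 k40 5 (.s k16 k24 1 (.s
  k85 k215 8 (.s k154 k223 10 (.s k211 k89 10 (.d k146 k158 k81 1 8))))))] .n) .n)))

def t21_189 : T TT 256 :=
  (.q k28 [(.s k20 k40 5 (.s k12 k44 3 (.s k4 k8 1 (.s k36 k52 3 (.d k24 k16 k48 1 5))))), (.s k12
  k44 3 (.s k29 k46 4 (.s k61 k62 0 (.s k45 k13 3 (.d k30 k31 k15 0 4)))))] (.c k12 (.q k150 [(.s
  k20 k40 5 (.s k85 k215 8 (.s k170 k255 14 (.s k195 k105 14 (.d k130 k190 k65 5 8))))), (.s k89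
  k211 10 (.s k61 k62 0 (.s k105 k195 14 (.s k149 k193 13 (.s k29 k209 9 (.s k45 k13 3 (.d k30 k15
  k31 4 0))))))), (.s k20 k40 5 (.s k16 k24 1 (.s k85 k215 8 (.s k154 k223 10 (.s k211 k89 10 (.d
  k146 k158 k81 1 8))))))] .n) (.c k44 (.q k150 [(.s k20 k40 5 (.s k85 k215 8 (.s k170 k255 14 (.s
  k130 k190 5 (.d k195 k65 k105 8 14))))), (.s k89 k211 10 (.s k61 k62 0 (.s k105 k195 14 (.s k149
  k193 13 (.s k29 k209 9 (.s k45 k13 3 (.d k30 k31 k15 0 4))))))), (.s k20 k40 5 (.s k16 k24 1 (.s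
  k85 k215 8 (.s k154 k223 10 (.s k211 k89 10 (.d k146 k158 k81 1 8))))))] .n) .n)))

def t21_190 : T TT 256 :=
  (.q k28 [(.s k20 k40 5 (.s k12 k44 3 (.s k4 k8 1 (.s k36 k52 3 (.d k24 k16 k48 1 5))))), (.s k12
  k44 3 (.s k29 k46 4 (.s k61 k62 0 (.s k45 k13 3 (.d k30 k31 k15 0 4)))))] (.c k12 (.q k150 [(.s
  k20 k40 5 (.s k85 k215 8 (.s k89 k211 10 (.s k93 k81 1 (.s k223 k158 8 (.d k16 k24 k154 1
  10)))))), (.s k89 k211 10 (.s k61 k62 0 (.s k105 k195 14 (.s k149 k193 13 (.s k29 k209 9 (.s k45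
  k13 3 (.d k30 k15 k31 4 0))))))), (.s k20 k40 5 (.s k16 k24 1 (.s k48 k32 3 (.s k85 k215 8 (.s k56
  k52 1 (.s k105 k195 14 (.d k154 k223 k203 10 12)))))))] .n) (.c k44 (.q k150 [(.s k20 k40 5 (.s
  k85 k215 8 (.s k89 k211 10 (.s k93 k81 1 (.s k223 k158 8 (.d k16 k24 k154 1 10)))))), (.s k89 k211
  10 (.s k61 k62 0 (.s k105 k195 14 (.s k149 k193 13 (.s k29 k209 9 (.s k45 k13 3 (.d k30 k31 k15 0
  4))))))), (.s k40 k20 5 (.s k61 k62 0 (.s k105 k195 14 (.s k170 k235 8 (.s k255 k85 14 (.s k149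
  k193 13 (.d k191 k127 k128 7 6)))))))] .n) .n)))

def t21_191 : T TT 256 :=
  (.q k12 [(.s k4 k8 1 (.s k20 k40 5 (.s k36 k52 3 (.s k24 k48 5 (.d k28 k16 k44 1 3))))), (.s k28
  k44 3 (.s k29 k46 4 (.s k30 k31 0 (.s k45 k15 4 (.d k61 k62 k13 0 3)))))] (.c k16 (.l (.s k8 k4 1
  (.s k40 k20 5 (.s k24 k56 3 (.s k36 k48 5 (.d k44 k28 k32 3 1)))))) (.c k28 (.q k1 [(.s k3 k2 0
  (.s k9 k6 2 (.s k5 k13 1 (.s k10 k15 2 (.d k8 k11 k4 0 1))))), (.s k2 k3 0 (.s k8 k4 1 (.s k62 k61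
  0 (.s k42 k22 5 (.s k25 k59 4 (.s k38 k51 6 (.d k46 k34 k29 1 4))))))), (.s k29 k46 4 (.s k61 k62
  0 (.s k13 k45 3 (.s k5 k9 1 (.d k15 k14 k10 0 2)))))] .n) (.c k44 (.q k89 [(.s k4 k8 1 (.s k166
  k243 14 (.s k85 k247 12 (.s k93 k81 1 (.d k255 k174 k170 12 14))))), (.s k29 k46 4 (.s k149 k209 9
  (.s k61 k62 0 (.s k105 k193 13 (.s k73 k121 3 (.d k195 k150 k134 14 10))))))] (.c k166 (.l (.s k8
  k4 1 (.s k40 k20 5 (.s k170 k251 12 (.s k105 k235 8 (.s k195 k150 14 (.d k73 k134 k121 10 3)))))))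
  .n)) .n))))

def t21_192 : T TT 256 :=
  (.q k255 [(.s k20 k40 5 (.s k85 k170 14 (.s k150 k215 8 (.s k125 k190 8 (.d k105 k65 k195 5
  14))))), (.s k62 k61 0 (.s k190 k125 8 (.s k126 k254 7 (.s k189 k252 8 (.d k191 k188 k127 0
  7))))), (.s k40 k20 5 (.s k170 k85 14 (.s k105 k235 8 (.s k61 k62 0 (.s k149 k193 13 (.d k191 k127
  k128 7 6))))))] .n)

def t21_193 : T TT 256 :=
  (.q k255 [(.s k20 k40 5 (.s k85 k170 14 (.s k150 k215 8 (.s k125 k190 8 (.d k105 k65 k195 5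
  14))))), (.s k61 k62 0 (.s k125 k190 8 (.s k189 k253 7 (.s k126 k252 8 (.d k127 k124 k191 0
  7)))))] (.c k125 (.q k28 [(.s k20 k40 5 (.s k12 k44 3 (.s k4 k8 1 (.s k36 k52 3 (.d k24 k16 k48 1
  5))))), (.s k12 k44 3 (.s k29 k46 4 (.s k61 k62 0 (.s k45 k13 3 (.d k30 k31 k15 0 4))))), (.s k20
  k40 5 (.s k85 k170 14 (.s k16 k24 1 (.s k223 k154 10 (.s k158 k93 8 (.d k207 k109 k239 12 3))))))]
  .n) (.c k150 (.l (.s k62 k61 0 (.s k190 k125 8 (.s k126 k254 7 (.s k189 k252 8 (.d k191 k188 k127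
  0 7)))))) (.c k190 (.q k28 [(.s k20 k40 5 (.s k12 k44 3 (.s k4 k8 1 (.s k36 k52 3 (.d k24 k16 k48
  1 5))))), (.s k12 k44 3 (.s k29 k46 4 (.s k61 k62 0 (.s k45 k13 3 (.d k30 k31 k15 0 4))))), (.s
  k20 k40 5 (.s k85 k170 14 (.s k16 k24 1 (.s k223 k154 10 (.s k158 k93 8 (.d k207 k239 k109 3
  12))))))] .n) .n))))

def t21_194 : T TT 256 :=
  (.q k12 [(.s k4 k8 1 (.s k20 k40 5 (.s k36 k52 3 (.s k24 k48 5 (.d k28 k16 k44 1 3))))), (.s k62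
  k61 0 (.s k44 k28 3 (.s k46 k29 4 (.s k30 k14 3 (.d k45 k47 k15 0 4)))))] (.c k28 (.q k150 [(.s
  k20 k40 5 (.s k85 k215 8 (.s k170 k255 14 (.s k130 k190 5 (.d k195 k65 k105 8 14))))), (.s k4 k8 1
  (.s k195 k105 14 (.s k130 k65 8 (.s k134 k73 10 (.s k69 k199 8 (.d k138 k142 k207 1 10)))))), (.s
  k4 k8 1 (.s k20 k40 5 (.s k85 k215 8 (.s k166 k247 12 (.s k243 k89 14 (.d k182 k134 k121 3
  10))))))] (.c k85 (.l (.s k4 k8 1 (.s k20 k40 5 (.s k52 k36 3 (.s k199 k101 12 (.s k195 k105 14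
  (.d k134 k69 k73 8 10))))))) .n)) (.c k44 (.q k150 [(.s k20 k40 5 (.s k85 k215 8 (.s k170 k255 14
  (.s k130 k190 5 (.d k195 k65 k105 8 14))))), (.s k4 k8 1 (.s k195 k105 14 (.s k130 k65 8 (.s k134
  k73 10 (.s k69 k199 8 (.d k138 k142 k207 1 10)))))), (.s k4 k8 1 (.s k20 k40 5 (.s k85 k215 8 (.s
  k166 k247 12 (.s k243 k89 14 (.d k182 k134 k121 3 10))))))] (.c k85 (.l (.s k4 k8 1 (.s k20 k40 5
  (.s k195 k105 14 (.s k134 k73 10 (.s k199 k69 8 (.d k52 k36 k101 3 12))))))) .n)) (.c k62 (.q k150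
  [(.s k4 k8 1 (.s k20 k40 5 (.s k36 k52 3 (.s k24 k48 5 (.d k28 k16 k44 1 3))))), (.s k20 k40 5 (.s
  k85 k215 8 (.s k170 k255 14 (.s k195 k105 14 (.d k130 k190 k65 5 8))))), (.s k28 k44 3 (.s k89
  k211 10 (.s k166 k243 14 (.s k195 k105 14 (.d k134 k182 k73 3 10)))))] .n) (.c k150 (.l (.s k62
  k61 0 (.s k44 k28 3 (.s k46 k29 4 (.s k30 k14 3 (.d k45 k47 k15 0 4)))))) .n)))))

def t21_195 : T TT 256 :=
  (.q k12 [(.s k4 k8 1 (.s k20 k40 5 (.s k36 k52 3 (.s k28 k44 3 (.d k24 k16 k48 1 5))))), (.s k28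
  k44 3 (.s k29 k46 4 (.s k30 k31 0 (.s k45 k15 4 (.d k61 k62 k13 0 3)))))] (.c k16 (.l (.s k8 k4 1
  (.s k40 k20 5 (.s k24 k56 3 (.s k36 k48 5 (.d k44 k28 k32 3 1)))))) (.c k28 (.q k42 [(.s k8 k4 1
  (.s k46 k29 4 (.s k38 k34 1 (.d k25 k59 k51 4 6)))), (.s k40 k20 5 (.s k41 k43 0 (.s k22 k3 6 (.d
  k62 k61 k2 0 5))))] .n) (.c k44 (.q k42 [(.s k8 k4 1 (.s k46 k29 4 (.s k38 k34 1 (.d k25 k59 k51 4
  6)))), (.s k40 k20 5 (.s k41 k43 0 (.s k22 k3 6 (.d k62 k61 k2 0 5))))] .n) .n))))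

def t21_196 : T TT 256 :=
  (.q k255 [(.s k20 k40 5 (.s k85 k170 14 (.s k150 k215 8 (.s k105 k195 14 (.d k125 k65 k190 5
  8))))), (.s k62 k61 0 (.s k190 k125 8 (.s k126 k254 7 (.s k189 k252 8 (.d k191 k188 k127 0 7))))),
  (.s k40 k20 5 (.s k170 k85 14 (.s k105 k235 8 (.s k61 k62 0 (.s k149 k193 13 (.d k191 k127 k128 7
  6))))))] .n)

def t21_197 : T TT 256 :=
  (.q k255 [(.s k20 k40 5 (.s k85 k170 14 (.s k150 k215 8 (.s k105 k195 14 (.d k125 k65 k190 5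
  8))))), (.s k62 k61 0 (.s k190 k125 8 (.s k126 k254 7 (.s k189 k252 8 (.d k191 k188 k127 0 7))))),
  (.s k40 k20 5 (.s k170 k85 14 (.s k105 k235 8 (.s k61 k62 0 (.s k149 k193 13 (.d k191 k127 k128 7
  6))))))] .n)

def t21_198 : T TT 256 :=
  (.q k255 [(.s k61 k62 0 (.s k125 k190 8 (.s k189 k253 7 (.s k126 k252 8 (.d k127 k124 k191 0
  7))))), (.s k20 k40 5 (.s k85 k170 14 (.s k150 k215 8 (.s k105 k195 14 (.d k125 k65 k190 5 8))))),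
  (.s k40 k20 5 (.s k170 k85 14 (.s k105 k235 8 (.s k61 k62 0 (.s k149 k193 13 (.d k191 k127 k128 7
  6))))))] (.c k150 (.l (.s k62 k61 0 (.s k190 k125 8 (.s k126 k254 7 (.s k189 k252 8 (.d k191 k188
  k127 0 7)))))) .n))

def t21_199 : T TT 256 :=
  (.q k255 [(.s k61 k62 0 (.s k125 k190 8 (.s k189 k253 7 (.s k126 k252 8 (.d k127 k124 k191 0
  7))))), (.s k20 k40 5 (.s k85 k170 14 (.s k150 k215 8 (.s k105 k195 14 (.d k125 k65 k190 5 8))))),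
  (.s k40 k20 5 (.s k170 k85 14 (.s k105 k235 8 (.s k61 k62 0 (.s k149 k193 13 (.d k191 k127 k128 7
  6))))))] (.c k150 (.l (.s k62 k61 0 (.s k190 k125 8 (.s k126 k254 7 (.s k189 k252 8 (.d k191 k188
  k127 0 7)))))) .n))

def t21_200 : T TT 256 :=
  (.q k255 [(.s k20 k40 5 (.s k85 k170 14 (.s k150 k215 8 (.s k105 k195 14 (.d k125 k65 k190 5
  8))))), (.s k62 k61 0 (.s k190 k125 8 (.s k126 k254 7 (.s k189 k252 8 (.d k191 k188 k127 0 7))))),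
  (.s k40 k20 5 (.s k170 k85 14 (.s k105 k235 8 (.s k61 k62 0 (.s k149 k193 13 (.d k191 k127 k128 7
  6))))))] (.c k59 (.q k153 [(.s k20 k40 5 (.s k85 k170 14 (.s k150 k215 8 (.s k105 k195 14 (.d k125
  k65 k190 5 8))))), (.s k61 k62 0 (.s k125 k190 8 (.s k189 k253 7 (.s k126 k252 8 (.d k127 k124
  k191 0 7))))), (.s k85 k170 14 (.s k17 k221 9 (.s k51 k34 4 (.s k102 k204 14 (.d k119 k68 k187 4
  9)))))] .n) (.c k153 (.q k59 [(.s k20 k40 5 (.s k85 k170 14 (.s k150 k215 8 (.s k105 k195 14 (.d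
  k125 k65 k190 5 8))))), (.s k51 k55 1 (.s k57 k54 2 (.s k58 k56 0 (.s k53 k48 2 (.d k61 k62 k49 0
  1)))))] .n) .n)))

def t21_201 : T TT 256 :=
  (.q k255 [(.s k61 k62 0 (.s k125 k190 8 (.s k189 k253 7 (.s k126 k252 8 (.d k127 k124 k191 0
  7))))), (.s k20 k40 5 (.s k85 k170 14 (.s k150 k215 8 (.s k105 k195 14 (.d k125 k65 k190 5 8))))),
  (.s k40 k20 5 (.s k170 k85 14 (.s k105 k235 8 (.s k61 k62 0 (.s k149 k193 13 (.d k191 k127 k128 7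
  6))))))] (.c k150 (.l (.s k62 k61 0 (.s k190 k125 8 (.s k126 k254 7 (.s k189 k252 8 (.d k191 k188
  k127 0 7)))))) .n))

def t21_202 : T TT 256 :=
  (.q k255 [(.s k20 k40 5 (.s k85 k170 14 (.s k150 k215 8 (.s k105 k195 14 (.d k125 k65 k190 5
  8))))), (.s k62 k61 0 (.s k190 k125 8 (.s k126 k254 7 (.s k189 k252 8 (.d k191 k188 k127 0 7))))),
  (.s k40 k20 5 (.s k170 k85 14 (.s k105 k235 8 (.s k61 k62 0 (.s k149 k193 13 (.d k191 k127 k128 7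
  6))))))] (.c k58 (.q k154 [(.s k20 k40 5 (.s k85 k170 14 (.s k150 k215 8 (.s k105 k195 14 (.d k125
  k65 k190 5 8))))), (.s k61 k62 0 (.s k125 k190 8 (.s k189 k253 7 (.s k126 k252 8 (.d k127 k124
  k191 0 7))))), (.s k85 k170 14 (.s k16 k223 10 (.s k48 k32 3 (.s k101 k207 14 (.d k117 k69 k186 3
  10)))))] .n) (.c k154 (.q k58 [(.s k20 k40 5 (.s k85 k170 14 (.s k150 k215 8 (.s k105 k195 14 (.d
  k125 k65 k190 5 8))))), (.s k48 k53 2 (.s k56 k52 1 (.s k57 k59 0 (.s k54 k51 2 (.d k62 k61 k50 0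
  1)))))] .n) .n)))

def t21_203 : T TT 256 :=
  (.q k255 [(.s k61 k62 0 (.s k125 k190 8 (.s k189 k253 7 (.s k126 k252 8 (.d k127 k124 k191 0
  7))))), (.s k20 k40 5 (.s k85 k170 14 (.s k150 k215 8 (.s k105 k195 14 (.d k125 k65 k190 5 8))))),
  (.s k40 k20 5 (.s k170 k85 14 (.s k105 k235 8 (.s k61 k62 0 (.s k149 k193 13 (.d k191 k127 k128 7
  6))))))] (.c k150 (.l (.s k62 k61 0 (.s k190 k125 8 (.s k126 k254 7 (.s k189 k252 8 (.d k191 k188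
  k127 0 7)))))) .n))

def t21_204 : T TT 256 :=
  (.q k255 [(.s k20 k40 5 (.s k85 k170 14 (.s k150 k215 8 (.s k125 k190 8 (.d k105 k65 k195 5
  14))))), (.s k62 k61 0 (.s k190 k125 8 (.s k126 k254 7 (.s k189 k252 8 (.d k191 k188 k127 0
  7))))), (.s k40 k20 5 (.s k170 k85 14 (.s k105 k235 8 (.s k61 k62 0 (.s k149 k193 13 (.d k191 k127
  k128 7 6))))))] .n)

def t21_205 : T TT 256 :=
  (.q k255 [(.s k20 k40 5 (.s k85 k170 14 (.s k150 k215 8 (.s k105 k195 14 (.d k125 k65 k190 5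
  8))))), (.s k62 k61 0 (.s k190 k125 8 (.s k126 k254 7 (.s k189 k252 8 (.d k191 k188 k127 0 7))))),
  (.s k40 k20 5 (.s k170 k85 14 (.s k105 k235 8 (.s k61 k62 0 (.s k149 k193 13 (.d k191 k127 k128 7
  6))))))] .n)

def t21_206 : T TT 256 :=
  (.q k255 [(.s k20 k40 5 (.s k85 k170 14 (.s k150 k215 8 (.s k105 k195 14 (.d k125 k65 k190 5
  8))))), (.s k62 k61 0 (.s k190 k125 8 (.s k126 k254 7 (.s k189 k252 8 (.d k191 k188 k127 0 7))))),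
  (.s k40 k20 5 (.s k170 k85 14 (.s k105 k235 8 (.s k61 k62 0 (.s k149 k193 13 (.d k191 k127 k128 7
  6))))))] .n)

def t21_207 : T TT 256 :=
  (.q k255 [(.s k20 k40 5 (.s k85 k170 14 (.s k150 k215 8 (.s k125 k190 8 (.d k105 k65 k195 5
  14))))), (.s k62 k61 0 (.s k190 k125 8 (.s k126 k254 7 (.s k189 k252 8 (.d k191 k188 k127 0
  7))))), (.s k40 k20 5 (.s k170 k85 14 (.s k105 k235 8 (.s k61 k62 0 (.s k149 k193 13 (.d k191 k127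
  k128 7 6))))))] .n)

def t21_208 : T TT 256 :=
  (.q k255 [(.s k20 k40 5 (.s k85 k170 14 (.s k150 k215 8 (.s k105 k195 14 (.d k125 k65 k190 5
  8))))), (.s k62 k61 0 (.s k190 k125 8 (.s k126 k254 7 (.s k189 k252 8 (.d k191 k188 k127 0 7))))),
  (.s k40 k20 5 (.s k170 k85 14 (.s k105 k235 8 (.s k61 k62 0 (.s k149 k193 13 (.d k191 k127 k128 7
  6))))))] .n)

def t21_209 : T TT 256 :=
  (.q k255 [(.s k20 k40 5 (.s k85 k170 14 (.s k150 k215 8 (.s k105 k195 14 (.d k125 k65 k190 5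
  8))))), (.s k62 k61 0 (.s k190 k125 8 (.s k126 k254 7 (.s k189 k252 8 (.d k191 k188 k127 0 7))))),
  (.s k40 k20 5 (.s k170 k85 14 (.s k105 k235 8 (.s k61 k62 0 (.s k149 k193 13 (.d k191 k127 k128 7
  6))))))] .n)

def t21_210 : T TT 256 :=
  (.q k255 [(.s k61 k62 0 (.s k125 k190 8 (.s k189 k253 7 (.s k126 k252 8 (.d k127 k124 k191 0
  7))))), (.s k20 k40 5 (.s k85 k170 14 (.s k150 k215 8 (.s k105 k195 14 (.d k125 k65 k190 5 8))))),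
  (.s k40 k20 5 (.s k170 k85 14 (.s k105 k235 8 (.s k61 k62 0 (.s k149 k193 13 (.d k191 k127 k128 7
  6))))))] (.c k150 (.l (.s k62 k61 0 (.s k190 k125 8 (.s k126 k254 7 (.s k189 k252 8 (.d k191 k188
  k127 0 7)))))) .n))

def t21_211 : T TT 256 :=
  (.q k255 [(.s k61 k62 0 (.s k125 k190 8 (.s k189 k253 7 (.s k126 k252 8 (.d k127 k124 k191 0
  7))))), (.s k20 k40 5 (.s k85 k170 14 (.s k150 k215 8 (.s k105 k195 14 (.d k125 k65 k190 5 8))))),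
  (.s k40 k20 5 (.s k170 k85 14 (.s k105 k235 8 (.s k61 k62 0 (.s k149 k193 13 (.d k191 k127 k128 7
  6))))))] (.c k150 (.l (.s k62 k61 0 (.s k190 k125 8 (.s k126 k254 7 (.s k189 k252 8 (.d k191 k188
  k127 0 7)))))) .n))

def t21_212 : T TT 256 :=
  (.q k255 [(.s k20 k40 5 (.s k85 k170 14 (.s k125 k190 8 (.s k105 k65 5 (.d k150 k215 k195 8
  14))))), (.s k62 k61 0 (.s k190 k125 8 (.s k126 k254 7 (.s k189 k252 8 (.d k191 k188 k127 0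
  7))))), (.s k40 k20 5 (.s k170 k85 14 (.s k105 k235 8 (.s k61 k62 0 (.s k149 k193 13 (.d k191 k127
  k128 7 6))))))] .n)

def t21_213 : T TT 256 :=
  (.q k85 [(.s k20 k40 5 (.s k150 k215 8 (.s k105 k195 14 (.s k125 k65 5 (.d k255 k190 k170 8
  14))))), (.s k255 k170 14 (.s k62 k61 0 (.s k190 k125 8 (.s k126 k254 7 (.s k189 k252 8 (.d k191
  k188 k127 0 7))))))] (.c k125 (.l (.s k20 k40 5 (.s k170 k255 14 (.s k150 k215 8 (.s k195 k105 14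
  (.d k130 k190 k65 5 8)))))) (.c k170 (.q k12 [(.s k4 k8 1 (.s k20 k40 5 (.s k36 k52 3 (.s k24 k48
  5 (.d k28 k16 k44 1 3))))), (.s k28 k44 3 (.s k29 k46 4 (.s k30 k31 0 (.s k45 k15 4 (.d k61 k62
  k13 0 3))))), (.s k4 k8 1 (.s k20 k40 5 (.s k166 k247 12 (.s k150 k215 8 (.s k134 k182 3 (.d k195
  k105 k73 14 10))))))] (.c k42 (.q k234 [(.s k8 k4 1 (.s k40 k20 5 (.s k24 k56 3 (.s k36 k48 5 (.d
  k44 k32 k28 1 3))))), (.s k28 k44 3 (.s k29 k46 4 (.s k30 k31 0 (.s k45 k15 4 (.d k61 k62 k13 0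
  3))))), (.s k4 k8 1 (.s k20 k40 5 (.s k166 k247 12 (.s k150 k215 8 (.s k134 k182 3 (.d k195 k105
  k73 14 10))))))] .n) (.c k234 (.q k42 [(.s k8 k4 1 (.s k25 k59 4 (.s k38 k51 6 (.d k46 k34 k29 1
  4)))), (.s k40 k20 5 (.s k41 k43 0 (.s k22 k3 6 (.d k62 k61 k2 0 5))))] (.c k192 (.q k255 [(.s k4
  k8 1 (.s k93 k174 12 (.s k89 k81 1 (.d k166 k247 k243 12 14)))), (.s k20 k40 5 (.s k150 k215 8 (.s
  k105 k195 14 (.d k125 k65 k190 5 8))))] .n) (.c k255 (.q k192 [(.s k8 k4 1 (.s k25 k59 4 (.s k46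
  k29 4 (.d k38 k34 k51 1 6)))), (.s k40 k20 5 (.s k41 k43 0 (.s k22 k3 6 (.d k62 k61 k2 0 5))))]
  .n) .n))) .n))) (.c k190 (.l (.s k40 k20 5 (.s k170 k255 14 (.s k105 k235 8 (.s k195 k150 14 (.d
  k65 k125 k130 5 8)))))) (.c k255 (.q k12 [(.s k4 k8 1 (.s k20 k40 5 (.s k36 k52 3 (.s k28 k44 3
  (.d k24 k16 k48 1 5))))), (.s k28 k44 3 (.s k29 k46 4 (.s k30 k31 0 (.s k45 k15 4 (.d k61 k62 k13
  0 3))))), (.s k4 k8 1 (.s k20 k40 5 (.s k166 k247 12 (.s k243 k89 14 (.s k150 k215 8 (.d k182 k134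
  k121 3 10))))))] (.c k192 (.q k234 [(.s k4 k8 1 (.s k20 k40 5 (.s k36 k52 3 (.s k28 k44 3 (.d k24
  k16 k48 1 5))))), (.s k28 k44 3 (.s k29 k46 4 (.s k30 k31 0 (.s k45 k15 4 (.d k61 k62 k13 0
  3))))), (.s k4 k8 1 (.s k20 k40 5 (.s k166 k247 12 (.s k243 k89 14 (.s k150 k215 8 (.d k182 k134
  k121 3 10))))))] .n) (.c k234 (.q k192 [(.s k4 k8 1 (.s k20 k40 5 (.s k36 k52 3 (.s k28 k44 3 (.d
  k24 k16 k48 1 5))))), (.s k20 k40 5 (.s k128 k64 7 (.s k148 k104 13 (.s k84 k212 7 (.d k168 k188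
  k252 5 13))))), (.s k4 k8 1 (.s k128 k64 7 (.s k132 k72 9 (.s k68 k196 7 (.d k136 k140 k204 1
  9)))))] (.c k42 (.q k170 [(.s k4 k8 1 (.s k166 k247 12 (.s k162 k174 1 (.d k243 k81 k89 12 14)))),
  (.s k20 k40 5 (.s k150 k215 8 (.s k195 k105 14 (.d k130 k190 k65 5 8))))] .n) (.c k170 (.q k42
  [(.s k8 k4 1 (.s k25 k59 4 (.s k46 k29 4 (.d k38 k34 k51 1 6)))), (.s k40 k20 5 (.s k41 k43 0 (.s
  k22 k3 6 (.d k62 k61 k2 0 5))))] .n) .n))) .n))) .n)))))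

def t21_214 : T TT 256 :=
  (.q k255 [(.s k61 k62 0 (.s k125 k190 8 (.s k189 k253 7 (.s k127 k191 7 (.d k126 k124 k252 0
  8))))), (.s k20 k40 5 (.s k85 k170 14 (.s k125 k190 8 (.s k105 k65 5 (.d k150 k215 k195 8 14))))),
  (.s k40 k20 5 (.s k170 k85 14 (.s k105 k235 8 (.s k61 k62 0 (.s k149 k193 13 (.d k191 k127 k128 7
  6))))))] (.c k150 (.l (.s k62 k61 0 (.s k190 k125 8 (.s k126 k254 7 (.s k189 k252 8 (.d k191 k188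
  k127 0 7)))))) .n))

def t21_215 : T TT 256 :=
  (.q k58 [(.s k53 k48 2 (.s k61 k62 0 (.s k57 k49 1 (.s k51 k54 2 (.d k59 k56 k55 0 1))))), (.s k20
  k40 5 (.s k48 k53 2 (.s k16 k32 3 (.s k24 k28 1 (.s k36 k12 5 (.d k52 k56 k4 1 3))))))] (.c k48
  (.q k12 [(.s k28 k44 3 (.s k29 k46 4 (.s k30 k31 0 (.s k45 k15 4 (.d k61 k62 k13 0 3))))), (.s k8
  k4 1 (.s k40 k20 5 (.s k56 k24 3 (.s k59 k57 0 (.s k25 k42 4 (.d k51 k55 k38 1 6)))))), (.s k4 k8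
  1 (.s k20 k40 5 (.s k52 k36 3 (.s k62 k61 0 (.s k54 k50 1 (.s k51 k57 2 (.d k55 k53 k59 0
  1)))))))] .n) (.c k53 (.q k12 [(.s k4 k8 1 (.s k20 k40 5 (.s k36 k52 3 (.s k24 k48 5 (.d k28 k16
  k44 1 3))))), (.s k28 k44 3 (.s k29 k46 4 (.s k30 k31 0 (.s k45 k15 4 (.d k61 k62 k13 0 3))))),
  (.s k8 k4 1 (.s k40 k20 5 (.s k62 k61 0 (.s k54 k50 1 (.s k57 k51 2 (.d k56 k59 k24 0 3))))))] (.c
  k5 (.q k37 [(.s k4 k8 1 (.s k20 k40 5 (.s k36 k52 3 (.s k24 k48 5 (.d k28 k16 k44 1 3))))), (.s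
  k28 k44 3 (.s k29 k46 4 (.s k30 k31 0 (.s k45 k15 4 (.d k61 k62 k13 0 3))))), (.s k8 k4 1 (.s k40
  k20 5 (.s k62 k61 0 (.s k54 k50 1 (.s k57 k51 2 (.d k56 k59 k24 0 3))))))] .n) (.c k37 (.q k5 [(.s
  k15 k10 2 (.s k28 k44 3 (.s k29 k46 4 (.d k30 k45 k31 4 0)))), (.s k4 k8 1 (.s k20 k40 5 (.s k36
  k52 3 (.s k28 k44 3 (.d k24 k16 k48 1 5))))), (.s k15 k10 2 (.s k13 k14 0 (.s k29 k46 4 (.d k45
  k30 k61 4 3))))] .n) .n))) (.c k56 (.l (.s k53 k48 2 (.s k62 k61 0 (.s k54 k50 1 (.s k51 k57 2 (.d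
  k55 k52 k59 0 1)))))) .n))))

def t21_216 : T TT 256 :=
  (.q k255 [(.s k20 k40 5 (.s k85 k170 14 (.s k150 k215 8 (.s k105 k195 14 (.d k125 k65 k190 5
  8))))), (.s k62 k61 0 (.s k190 k125 8 (.s k126 k254 7 (.s k189 k252 8 (.d k191 k188 k127 0 7))))),
  (.s k40 k20 5 (.s k170 k85 14 (.s k105 k235 8 (.s k61 k62 0 (.s k149 k193 13 (.d k191 k127 k128 7
  6))))))] .n)

def t21_217 : T TT 256 :=
  (.q k255 [(.s k20 k40 5 (.s k85 k170 14 (.s k150 k215 8 (.s k105 k195 14 (.d k125 k65 k190 5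
  8))))), (.s k62 k61 0 (.s k190 k125 8 (.s k126 k254 7 (.s k189 k252 8 (.d k191 k188 k127 0 7))))),
  (.s k40 k20 5 (.s k170 k85 14 (.s k105 k235 8 (.s k61 k62 0 (.s k149 k193 13 (.d k191 k127 k128 7
  6))))))] .n)

def t21_218 : T TT 256 :=
  (.q k255 [(.s k20 k40 5 (.s k85 k170 14 (.s k150 k215 8 (.s k105 k195 14 (.d k125 k65 k190 5
  8))))), (.s k62 k61 0 (.s k190 k125 8 (.s k126 k254 7 (.s k189 k252 8 (.d k191 k188 k127 0 7))))),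
  (.s k40 k20 5 (.s k170 k85 14 (.s k105 k235 8 (.s k61 k62 0 (.s k149 k193 13 (.d k191 k127 k128 7
  6))))))] .n)

def t21_219 : T TT 256 :=
  (.q k255 [(.s k61 k62 0 (.s k125 k190 8 (.s k189 k253 7 (.s k126 k252 8 (.d k127 k124 k191 0
  7))))), (.s k20 k40 5 (.s k85 k170 14 (.s k150 k215 8 (.s k105 k195 14 (.d k125 k65 k190 5 8))))),
  (.s k40 k20 5 (.s k170 k85 14 (.s k105 k235 8 (.s k61 k62 0 (.s k149 k193 13 (.d k191 k127 k128 7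
  6))))))] (.c k150 (.l (.s k62 k61 0 (.s k190 k125 8 (.s k126 k254 7 (.s k189 k252 8 (.d k191 k188
  k127 0 7)))))) .n))

def t21_220 : T TT 256 :=
  (.q k255 [(.s k20 k40 5 (.s k85 k170 14 (.s k150 k215 8 (.s k105 k195 14 (.d k125 k65 k190 5
  8))))), (.s k62 k61 0 (.s k190 k125 8 (.s k126 k254 7 (.s k189 k252 8 (.d k191 k188 k127 0 7))))),
  (.s k40 k20 5 (.s k170 k85 14 (.s k105 k235 8 (.s k61 k62 0 (.s k149 k193 13 (.d k191 k127 k128 7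
  6))))))] .n)

def t21_221 : T TT 256 :=
  (.q k255 [(.s k20 k40 5 (.s k85 k170 14 (.s k150 k215 8 (.s k105 k195 14 (.d k125 k65 k190 5
  8))))), (.s k62 k61 0 (.s k190 k125 8 (.s k126 k254 7 (.s k189 k252 8 (.d k191 k188 k127 0 7))))),
  (.s k40 k20 5 (.s k170 k85 14 (.s k105 k235 8 (.s k61 k62 0 (.s k149 k193 13 (.d k191 k127 k128 7
  6))))))] .n)

def t21_222 : T TT 256 :=
  (.q k255 [(.s k20 k40 5 (.s k85 k170 14 (.s k150 k215 8 (.s k105 k195 14 (.d k125 k65 k190 5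
  8))))), (.s k62 k61 0 (.s k190 k125 8 (.s k126 k254 7 (.s k189 k252 8 (.d k191 k188 k127 0 7))))),
  (.s k40 k20 5 (.s k170 k85 14 (.s k105 k235 8 (.s k61 k62 0 (.s k149 k193 13 (.d k191 k127 k128 7
  6))))))] .n)

def t21_223 : T TT 256 :=
  (.q k255 [(.s k61 k62 0 (.s k125 k190 8 (.s k189 k253 7 (.s k126 k252 8 (.d k127 k124 k191 0
  7))))), (.s k20 k40 5 (.s k85 k170 14 (.s k150 k215 8 (.s k105 k195 14 (.d k125 k65 k190 5 8))))),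
  (.s k40 k20 5 (.s k170 k85 14 (.s k105 k235 8 (.s k61 k62 0 (.s k149 k193 13 (.d k191 k127 k128 7
  6))))))] (.c k150 (.l (.s k62 k61 0 (.s k190 k125 8 (.s k126 k254 7 (.s k189 k252 8 (.d k191 k188
  k127 0 7)))))) .n))

def t21_224 : T TT 256 :=
  (.q k255 [(.s k20 k40 5 (.s k85 k170 14 (.s k150 k215 8 (.s k105 k195 14 (.d k125 k65 k190 5
  8))))), (.s k62 k61 0 (.s k190 k125 8 (.s k126 k254 7 (.s k189 k252 8 (.d k191 k188 k127 0 7))))),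
  (.s k40 k20 5 (.s k170 k85 14 (.s k105 k235 8 (.s k61 k62 0 (.s k149 k193 13 (.d k191 k127 k128 7
  6))))))] (.c k47 (.q k165 [(.s k20 k40 5 (.s k85 k170 14 (.s k150 k215 8 (.s k105 k195 14 (.d k125
  k65 k190 5 8))))), (.s k61 k62 0 (.s k125 k190 8 (.s k189 k253 7 (.s k126 k252 8 (.d k127 k124
  k191 0 7))))), (.s k85 k170 14 (.s k5 k245 11 (.s k15 k10 2 (.s k90 k240 14 (.d k95 k80 k175 2
  11)))))] .n) (.c k165 (.q k47 [(.s k20 k40 5 (.s k85 k170 14 (.s k150 k215 8 (.s k105 k195 14 (.d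
  k125 k65 k190 5 8))))), (.s k15 k31 3 (.s k45 k30 4 (.s k46 k44 0 (.s k29 k12 4 (.d k61 k62 k13 0
  3)))))] .n) .n)))

def t21_225 : T TT 256 :=
  (.q k255 [(.s k61 k62 0 (.s k125 k190 8 (.s k189 k253 7 (.s k126 k252 8 (.d k127 k124 k191 0
  7))))), (.s k20 k40 5 (.s k85 k170 14 (.s k150 k215 8 (.s k105 k195 14 (.d k125 k65 k190 5 8))))),
  (.s k40 k20 5 (.s k170 k85 14 (.s k105 k235 8 (.s k61 k62 0 (.s k149 k193 13 (.d k191 k127 k128 7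
  6))))))] (.c k150 (.l (.s k62 k61 0 (.s k190 k125 8 (.s k126 k254 7 (.s k189 k252 8 (.d k191 k188
  k127 0 7)))))) .n))

def t21_226 : T TT 256 :=
  (.q k255 [(.s k20 k40 5 (.s k85 k170 14 (.s k150 k215 8 (.s k105 k195 14 (.d k125 k65 k190 5
  8))))), (.s k62 k61 0 (.s k190 k125 8 (.s k126 k254 7 (.s k189 k252 8 (.d k191 k188 k127 0 7))))),
  (.s k40 k20 5 (.s k170 k85 14 (.s k105 k235 8 (.s k61 k62 0 (.s k149 k193 13 (.d k191 k127 k128 7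
  6))))))] (.c k46 (.q k166 [(.s k20 k40 5 (.s k85 k170 14 (.s k150 k215 8 (.s k105 k195 14 (.d k125
  k65 k190 5 8))))), (.s k61 k62 0 (.s k125 k190 8 (.s k189 k253 7 (.s k126 k252 8 (.d k127 k124
  k191 0 7))))), (.s k85 k170 14 (.s k4 k247 12 (.s k12 k8 1 (.s k89 k243 14 (.d k93 k81 k174 1
  12)))))] .n) (.c k166 (.q k46 [(.s k20 k40 5 (.s k85 k170 14 (.s k150 k215 8 (.s k105 k195 14 (.d
  k125 k65 k190 5 8))))), (.s k12 k29 4 (.s k44 k28 3 (.s k45 k47 0 (.s k30 k15 4 (.d k62 k61 k14 0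
  3)))))] .n) .n)))

def t21_227 : T TT 256 :=
  (.q k255 [(.s k61 k62 0 (.s k125 k190 8 (.s k189 k253 7 (.s k126 k252 8 (.d k127 k124 k191 0
  7))))), (.s k20 k40 5 (.s k85 k170 14 (.s k150 k215 8 (.s k105 k195 14 (.d k125 k65 k190 5 8))))),
  (.s k40 k20 5 (.s k170 k85 14 (.s k105 k235 8 (.s k61 k62 0 (.s k149 k193 13 (.d k191 k127 k128 7
  6))))))] (.c k150 (.l (.s k62 k61 0 (.s k190 k125 8 (.s k126 k254 7 (.s k189 k252 8 (.d k191 k188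
  k127 0 7)))))) .n))

def t21_228 : T TT 256 :=
  (.q k255 [(.s k20 k40 5 (.s k85 k170 14 (.s k150 k215 8 (.s k105 k195 14 (.d k125 k65 k190 5
  8))))), (.s k62 k61 0 (.s k190 k125 8 (.s k126 k254 7 (.s k189 k252 8 (.d k191 k188 k127 0 7))))),
  (.s k40 k20 5 (.s k170 k85 14 (.s k105 k235 8 (.s k61 k62 0 (.s k149 k193 13 (.d k191 k127 k128 7
  6))))))] .n)

def t21_229 : T TT 256 :=
  (.q k255 [(.s k20 k40 5 (.s k85 k170 14 (.s k150 k215 8 (.s k105 k195 14 (.d k125 k65 k190 5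
  8))))), (.s k62 k61 0 (.s k190 k125 8 (.s k126 k254 7 (.s k189 k252 8 (.d k191 k188 k127 0 7))))),
  (.s k40 k20 5 (.s k170 k85 14 (.s k105 k235 8 (.s k61 k62 0 (.s k149 k193 13 (.d k191 k127 k128 7
  6))))))] .n)

def t21_230 : T TT 256 :=
  (.q k255 [(.s k20 k40 5 (.s k85 k170 14 (.s k150 k215 8 (.s k105 k195 14 (.d k125 k65 k190 5
  8))))), (.s k62 k61 0 (.s k190 k125 8 (.s k126 k254 7 (.s k189 k252 8 (.d k191 k188 k127 0 7))))),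
  (.s k40 k20 5 (.s k170 k85 14 (.s k105 k235 8 (.s k61 k62 0 (.s k149 k193 13 (.d k191 k127 k128 7
  6))))))] .n)

def t21_231 : T TT 256 :=
  (.q k255 [(.s k61 k62 0 (.s k125 k190 8 (.s k189 k253 7 (.s k126 k252 8 (.d k127 k124 k191 0
  7))))), (.s k20 k40 5 (.s k85 k170 14 (.s k150 k215 8 (.s k105 k195 14 (.d k125 k65 k190 5 8))))),
  (.s k40 k20 5 (.s k170 k85 14 (.s k105 k235 8 (.s k61 k62 0 (.s k149 k193 13 (.d k191 k127 k128 7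
  6))))))] (.c k150 (.l (.s k62 k61 0 (.s k190 k125 8 (.s k126 k254 7 (.s k189 k252 8 (.d k191 k188
  k127 0 7)))))) .n))

def t21_232 : T TT 256 :=
  (.q k255 [(.s k20 k40 5 (.s k85 k170 14 (.s k150 k215 8 (.s k105 k195 14 (.d k125 k65 k190 5
  8))))), (.s k62 k61 0 (.s k190 k125 8 (.s k126 k254 7 (.s k189 k252 8 (.d k191 k188 k127 0 7))))),
  (.s k40 k20 5 (.s k170 k85 14 (.s k105 k235 8 (.s k61 k62 0 (.s k149 k193 13 (.d k191 k127 k128 7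
  6))))))] (.c k43 (.q k169 [(.s k85 k170 14 (.s k253 k1 13 (.s k61 k62 0 (.d k125 k189 k190 7
  8)))), (.s k85 k170 14 (.s k1 k253 13 (.s k3 k2 0 (.s k86 k252 14 (.d k87 k84 k171 0 13))))), (.s
  k61 k62 0 (.s k125 k190 8 (.s k189 k253 7 (.s k126 k252 8 (.d k127 k124 k191 0 7)))))] (.c k253
  (.l (.s k20 k40 5 (.s k85 k170 14 (.s k150 k215 8 (.s k105 k195 14 (.d k125 k65 k190 5 8))))))
  .n)) (.c k169 (.q k43 [(.s k40 k20 5 (.s k41 k42 0 (.d k3 k23 k22 5 6))), (.s k61 k62 0 (.s k125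
  k190 8 (.s k189 k253 7 (.s k126 k252 8 (.d k127 k124 k191 0 7)))))] (.c k3 (.l (.s k20 k40 5 (.s
  k85 k170 14 (.s k150 k215 8 (.s k105 k195 14 (.d k125 k65 k190 5 8)))))) .n)) .n)))

def t21_233 : T TT 256 :=
  (.q k255 [(.s k20 k40 5 (.s k85 k170 14 (.s k150 k215 8 (.s k125 k190 8 (.d k105 k65 k195 5
  14))))), (.s k62 k61 0 (.s k190 k125 8 (.s k126 k254 7 (.s k189 k252 8 (.d k191 k188 k127 0
  7))))), (.s k40 k20 5 (.s k170 k85 14 (.s k105 k235 8 (.s k61 k62 0 (.s k149 k193 13 (.d k191 k127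
  k128 7 6))))))] .n)

def t21_234 : T TT 256 :=
  (.q k58 [(.s k53 k48 2 (.s k61 k62 0 (.s k57 k49 1 (.s k51 k54 2 (.d k59 k56 k55 0 1))))), (.s k20
  k40 5 (.s k48 k53 2 (.s k16 k32 3 (.s k24 k28 1 (.s k36 k12 5 (.d k52 k56 k4 1 3))))))] (.c k42
  (.q k170 [(.s k20 k40 5 (.s k85 k255 14 (.s k150 k215 8 (.s k130 k190 5 (.d k195 k65 k105 8
  14))))), (.s k48 k53 2 (.s k56 k52 1 (.s k57 k59 0 (.s k54 k51 2 (.d k62 k61 k50 0 1)))))] .n) (.c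
  k48 (.q k42 [(.s k62 k61 0 (.s k40 k20 5 (.s k22 k2 5 (.d k41 k43 k3 0 6)))), (.s k10 k26 3 (.s
  k15 k5 2 (.s k30 k45 4 (.s k31 k47 3 (.s k29 k28 0 (.s k46 k12 4 (.d k62 k61 k14 0 3))))))), (.s
  k40 k20 5 (.s k26 k10 3 (.s k41 k43 0 (.s k56 k11 4 (.s k8 k24 3 (.d k59 k57 k25 0 4))))))] .n)
  (.c k53 (.q k42 [(.s k40 k20 5 (.s k41 k43 0 (.s k22 k3 6 (.d k62 k61 k2 0 5)))), (.s k26 k10 3
  (.s k62 k61 0 (.s k22 k2 5 (.s k30 k18 1 (.s k14 k46 3 (.d k50 k54 k38 1 5)))))), (.s k40 k20 5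
  (.s k26 k10 3 (.s k41 k43 0 (.s k56 k11 4 (.s k8 k24 3 (.d k59 k57 k25 0 4))))))] (.c k5 (.q k37
  [(.s k26 k10 3 (.s k15 k48 6 (.d k47 k32 k31 2 3))), (.s k40 k20 5 (.s k41 k43 0 (.s k22 k3 6 (.d
  k62 k61 k2 0 5))))] .n) (.c k22 (.l (.s k26 k10 3 (.s k62 k61 0 (.s k54 k50 1 (.s k57 k51 2 (.s
  k56 k59 0 (.s k41 k11 4 (.d k40 k43 k20 0 5)))))))) (.c k37 (.q k5 [(.d k10 k15 k26 2 3), (.s k40
  k20 5 (.s k41 k43 0 (.s k22 k3 6 (.d k62 k61 k2 0 5))))] .n) (.c k41 (.q k37 [(.s k26 k10 3 (.s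
  k15 k48 6 (.d k47 k32 k31 2 3))), (.s k40 k20 5 (.s k32 k47 2 (.s k36 k44 1 (.s k38 k39 0 (.s k46
  k34 1 (.s k12 k29 4 (.d k48 k16 k24 3 5))))))), (.s k26 k10 3 (.s k15 k48 6 (.s k30 k45 4 (.s k22
  k18 1 (.d k62 k61 k2 0 5)))))] (.c k1 (.l (.s k61 k62 0 (.s k10 k26 3 (.s k15 k5 2 (.d k47 k31 k32
  3 2))))) (.c k48 (.l (.s k10 k26 3 (.s k15 k5 2 (.d k47 k31 k32 3 2)))) (.c k61 (.q k1 [(.s k26
  k10 3 (.s k15 k48 6 (.d k47 k32 k31 2 3))), (.s k2 k3 0 (.s k22 k62 5 (.s k52 k7 4 (.s k32 k47 2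
  (.d k48 k56 k16 1 3))))), (.s k2 k3 0 (.s k22 k62 5 (.s k52 k7 4 (.s k26 k10 3 (.d k48 k15 k56 6
  1)))))] (.c k15 (.l (.s k2 k3 0 (.s k22 k62 5 (.s k32 k47 2 (.s k48 k16 3 (.d k52 k7 k56 4 1))))))
  (.c k48 (.l (.s k10 k26 3 (.s k15 k5 2 (.d k47 k31 k32 3 2)))) (.c k49 (.q k57 [(.s k51 k54 2 (.d
  k59 k55 k56 1 0)), (.s k10 k26 3 (.s k15 k5 2 (.d k47 k31 k32 3 2)))] (.c k56 (.l (.s k2 k3 0 (.s
  k62 k22 5 (.d k54 k50 k51 1 2)))) .n)) (.c k57 (.q k49 [(.s k26 k10 3 (.s k15 k48 6 (.d k47 k32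
  k31 2 3))), (.s k25 k13 5 (.s k17 k33 3 (.s k51 k34 4 (.d k59 k55 k8 1 4))))] (.c k9 (.l (.s k25
  k13 5 (.s k17 k33 3 (.s k51 k34 4 (.d k59 k55 k8 1 4))))) (.c k25 (.q k9 [(.s k5 k13 1 (.d k10 k15
  k26 2 3)), (.s k3 k2 0 (.s k32 k47 2 (.s k48 k16 3 (.d k33 k17 k18 3 4))))] (.c k17 (.q k29 [(.s
  k3 k2 0 (.d k12 k6 k46 2 4)), (.s k5 k13 1 (.d k10 k15 k26 2 3))] .n) (.c k26 (.l (.s k5 k13 1 (.s
  k15 k10 2 (.d k47 k32 k31 2 3)))) (.c k29 (.l (.s k17 k33 3 (.s k10 k26 3 (.d k5 k13 k15 1 2))))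
  .n)))) (.c k32 (.l (.s k10 k26 3 (.s k5 k15 2 (.d k13 k9 k25 1 5)))) .n)))) .n))))) .n)))) .n)))))
  (.c k56 (.l (.s k53 k48 2 (.s k62 k61 0 (.s k54 k50 1 (.s k51 k57 2 (.d k55 k52 k59 0 1)))))) (.c
  k170 (.q k42 [(.s k40 k20 5 (.s k41 k43 0 (.s k22 k3 6 (.d k62 k61 k2 0 5)))), (.s k26 k10 3 (.s
  k48 k53 2 (.s k32 k16 3 (.d k37 k47 k15 2 6))))] .n) .n))))))

def t21_235 : T TT 256 :=
  (.q k255 [(.s k20 k40 5 (.s k125 k190 8 (.s k85 k170 14 (.s k105 k65 5 (.d k150 k215 k195 8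
  14))))), (.s k62 k61 0 (.s k190 k125 8 (.s k126 k254 7 (.s k189 k252 8 (.d k191 k188 k127 0
  7)))))] (.c k125 (.q k12 [(.s k4 k8 1 (.s k20 k40 5 (.s k36 k52 3 (.s k24 k48 5 (.d k28 k16 k44 1
  3))))), (.s k28 k44 3 (.s k29 k46 4 (.s k30 k31 0 (.s k45 k15 4 (.d k61 k62 k13 0 3))))), (.s k4
  k8 1 (.s k85 k170 14 (.s k166 k247 12 (.s k89 k243 14 (.d k93 k81 k174 1 12)))))] .n) (.c k190 (.q
  k12 [(.s k4 k8 1 (.s k20 k40 5 (.s k36 k52 3 (.s k24 k48 5 (.d k28 k16 k44 1 3))))), (.s k28 k44 3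
  (.s k29 k46 4 (.s k30 k31 0 (.s k45 k15 4 (.d k61 k62 k13 0 3))))), (.s k4 k8 1 (.s k85 k170 14
  (.s k166 k247 12 (.s k89 k243 14 (.d k93 k81 k174 1 12)))))] .n) .n)))

def t21_236 : T TT 256 :=
  (.q k255 [(.s k20 k40 5 (.s k85 k170 14 (.s k150 k215 8 (.s k105 k195 14 (.d k125 k65 k190 5
  8))))), (.s k62 k61 0 (.s k190 k125 8 (.s k126 k254 7 (.s k189 k252 8 (.d k191 k188 k127 0 7))))),
  (.s k40 k20 5 (.s k170 k85 14 (.s k105 k235 8 (.s k61 k62 0 (.s k149 k193 13 (.d k191 k127 k128 7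
  6))))))] .n)

def t21_237 : T TT 256 :=
  (.q k255 [(.s k20 k40 5 (.s k85 k170 14 (.s k150 k215 8 (.s k105 k195 14 (.d k125 k65 k190 5
  8))))), (.s k62 k61 0 (.s k190 k125 8 (.s k126 k254 7 (.s k189 k252 8 (.d k191 k188 k127 0 7))))),
  (.s k40 k20 5 (.s k170 k85 14 (.s k105 k235 8 (.s k61 k62 0 (.s k149 k193 13 (.d k191 k127 k128 7
  6))))))] .n)

def t21_238 : T TT 256 :=
  (.q k255 [(.s k61 k62 0 (.s k125 k190 8 (.s k189 k253 7 (.s k126 k252 8 (.d k127 k124 k191 0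
  7))))), (.s k20 k40 5 (.s k85 k170 14 (.s k150 k215 8 (.s k105 k195 14 (.d k125 k65 k190 5 8))))),
  (.s k40 k20 5 (.s k170 k85 14 (.s k105 k235 8 (.s k61 k62 0 (.s k149 k193 13 (.d k191 k127 k128 7
  6))))))] (.c k150 (.l (.s k62 k61 0 (.s k190 k125 8 (.s k126 k254 7 (.s k189 k252 8 (.d k191 k188
  k127 0 7)))))) .n))

def t21_239 : T TT 256 :=
  (.q k255 [(.s k61 k62 0 (.s k125 k190 8 (.s k189 k253 7 (.s k126 k252 8 (.d k127 k124 k191 0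
  7))))), (.s k20 k40 5 (.s k85 k170 14 (.s k150 k215 8 (.s k105 k195 14 (.d k125 k65 k190 5 8))))),
  (.s k40 k20 5 (.s k170 k85 14 (.s k105 k235 8 (.s k61 k62 0 (.s k149 k193 13 (.d k191 k127 k128 7
  6))))))] (.c k150 (.l (.s k62 k61 0 (.s k190 k125 8 (.s k126 k254 7 (.s k189 k252 8 (.d k191 k188
  k127 0 7)))))) .n))

def t21_240 : T TT 256 :=
  (.q k255 [(.s k20 k40 5 (.s k85 k170 14 (.s k150 k215 8 (.s k125 k190 8 (.d k105 k65 k195 5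
  14))))), (.s k62 k61 0 (.s k190 k125 8 (.s k126 k254 7 (.s k189 k252 8 (.d k191 k188 k127 0
  7))))), (.s k40 k20 5 (.s k170 k85 14 (.s k105 k235 8 (.s k61 k62 0 (.s k149 k193 13 (.d k191 k127
  k128 7 6))))))] .n)

def t21_241 : T TT 256 :=
  (.q k255 [(.s k20 k40 5 (.s k85 k170 14 (.s k150 k215 8 (.s k105 k195 14 (.d k125 k65 k190 5
  8))))), (.s k62 k61 0 (.s k190 k125 8 (.s k126 k254 7 (.s k189 k252 8 (.d k191 k188 k127 0 7))))),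
  (.s k40 k20 5 (.s k170 k85 14 (.s k105 k235 8 (.s k61 k62 0 (.s k149 k193 13 (.d k191 k127 k128 7
  6))))))] .n)

def t21_242 : T TT 256 :=
  (.q k255 [(.s k20 k40 5 (.s k85 k170 14 (.s k150 k215 8 (.s k105 k195 14 (.d k125 k65 k190 5
  8))))), (.s k62 k61 0 (.s k190 k125 8 (.s k126 k254 7 (.s k189 k252 8 (.d k191 k188 k127 0 7))))),
  (.s k40 k20 5 (.s k170 k85 14 (.s k105 k235 8 (.s k61 k62 0 (.s k149 k193 13 (.d k191 k127 k128 7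
  6))))))] .n)

def t21_243 : T TT 256 :=
  (.q k255 [(.s k20 k40 5 (.s k85 k170 14 (.s k150 k215 8 (.s k125 k190 8 (.d k105 k65 k195 5
  14))))), (.s k62 k61 0 (.s k190 k125 8 (.s k126 k254 7 (.s k189 k252 8 (.d k191 k188 k127 0
  7))))), (.s k40 k20 5 (.s k170 k85 14 (.s k105 k235 8 (.s k61 k62 0 (.s k149 k193 13 (.d k191 k127
  k128 7 6))))))] .n)

def t21_244 : T TT 256 :=
  (.q k255 [(.s k20 k40 5 (.s k85 k170 14 (.s k150 k215 8 (.s k105 k195 14 (.d k125 k65 k190 5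
  8))))), (.s k62 k61 0 (.s k190 k125 8 (.s k126 k254 7 (.s k189 k252 8 (.d k191 k188 k127 0 7))))),
  (.s k40 k20 5 (.s k170 k85 14 (.s k105 k235 8 (.s k61 k62 0 (.s k149 k193 13 (.d k191 k127 k128 7
  6))))))] .n)

def t21_245 : T TT 256 :=
  (.q k255 [(.s k20 k40 5 (.s k85 k170 14 (.s k150 k215 8 (.s k105 k195 14 (.d k125 k65 k190 5
  8))))), (.s k62 k61 0 (.s k190 k125 8 (.s k126 k254 7 (.s k189 k252 8 (.d k191 k188 k127 0 7))))),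
  (.s k40 k20 5 (.s k170 k85 14 (.s k105 k235 8 (.s k61 k62 0 (.s k149 k193 13 (.d k191 k127 k128 7
  6))))))] .n)

def t21_246 : T TT 256 :=
  (.q k255 [(.s k20 k40 5 (.s k85 k170 14 (.s k150 k215 8 (.s k105 k195 14 (.d k125 k65 k190 5
  8))))), (.s k62 k61 0 (.s k190 k125 8 (.s k126 k254 7 (.s k189 k252 8 (.d k191 k188 k127 0 7))))),
  (.s k40 k20 5 (.s k170 k85 14 (.s k105 k235 8 (.s k61 k62 0 (.s k149 k193 13 (.d k191 k127 k128 7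
  6))))))] .n)

def t21_247 : T TT 256 :=
  (.q k255 [(.s k61 k62 0 (.s k125 k190 8 (.s k189 k253 7 (.s k126 k252 8 (.d k127 k124 k191 0
  7))))), (.s k20 k40 5 (.s k85 k170 14 (.s k150 k215 8 (.s k105 k195 14 (.d k125 k65 k190 5 8))))),
  (.s k40 k20 5 (.s k170 k85 14 (.s k105 k235 8 (.s k61 k62 0 (.s k149 k193 13 (.d k191 k127 k128 7
  6))))))] (.c k150 (.l (.s k62 k61 0 (.s k190 k125 8 (.s k126 k254 7 (.s k189 k252 8 (.d k191 k188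
  k127 0 7)))))) .n))

def t21_248 : T TT 256 :=
  (.q k255 [(.s k20 k40 5 (.s k85 k170 14 (.s k150 k215 8 (.s k105 k195 14 (.d k125 k65 k190 5
  8))))), (.s k62 k61 0 (.s k190 k125 8 (.s k126 k254 7 (.s k189 k252 8 (.d k191 k188 k127 0 7))))),
  (.s k40 k20 5 (.s k170 k85 14 (.s k105 k235 8 (.s k61 k62 0 (.s k149 k193 13 (.d k191 k127 k128 7
  6))))))] .n)

def t21_249 : T TT 256 :=
  (.q k255 [(.s k20 k40 5 (.s k85 k170 14 (.s k150 k215 8 (.s k105 k195 14 (.d k125 k65 k190 5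
  8))))), (.s k62 k61 0 (.s k190 k125 8 (.s k126 k254 7 (.s k189 k252 8 (.d k191 k188 k127 0 7))))),
  (.s k40 k20 5 (.s k170 k85 14 (.s k105 k235 8 (.s k61 k62 0 (.s k149 k193 13 (.d k191 k127 k128 7
  6))))))] .n)

def t21_250 : T TT 256 :=
  (.q k255 [(.s k61 k62 0 (.s k125 k190 8 (.s k189 k253 7 (.s k126 k252 8 (.d k127 k124 k191 0
  7))))), (.s k20 k40 5 (.s k85 k170 14 (.s k150 k215 8 (.s k105 k195 14 (.d k125 k65 k190 5 8))))),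
  (.s k40 k20 5 (.s k170 k85 14 (.s k105 k235 8 (.s k61 k62 0 (.s k149 k193 13 (.d k191 k127 k128 7
  6))))))] (.c k150 (.l (.s k62 k61 0 (.s k190 k125 8 (.s k126 k254 7 (.s k189 k252 8 (.d k191 k188
  k127 0 7)))))) .n))

def t21_251 : T TT 256 :=
  (.q k255 [(.s k61 k62 0 (.s k125 k190 8 (.s k189 k253 7 (.s k126 k252 8 (.d k127 k124 k191 0
  7))))), (.s k20 k40 5 (.s k85 k170 14 (.s k150 k215 8 (.s k105 k195 14 (.d k125 k65 k190 5 8))))),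
  (.s k40 k20 5 (.s k170 k85 14 (.s k105 k235 8 (.s k61 k62 0 (.s k149 k193 13 (.d k191 k127 k128 7
  6))))))] (.c k150 (.l (.s k62 k61 0 (.s k190 k125 8 (.s k126 k254 7 (.s k189 k252 8 (.d k191 k188
  k127 0 7)))))) .n))

def t21_252 : T TT 256 :=
  (.q k12 [(.s k4 k8 1 (.s k20 k40 5 (.s k36 k52 3 (.s k28 k44 3 (.d k24 k16 k48 1 5))))), (.s k28
  k44 3 (.s k29 k46 4 (.s k30 k31 0 (.s k45 k15 4 (.d k61 k62 k13 0 3)))))] (.c k16 (.l (.s k8 k4 1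
  (.s k40 k20 5 (.s k24 k56 3 (.s k36 k48 5 (.d k44 k28 k32 3 1)))))) (.c k28 (.q k85 [(.s k4 k8 1
  (.s k170 k255 14 (.s k166 k247 12 (.s k162 k174 1 (.d k243 k81 k89 12 14))))), (.s k20 k40 5 (.s
  k170 k255 14 (.s k150 k215 8 (.s k195 k105 14 (.d k130 k190 k65 5 8))))), (.s k4 k8 1 (.s k20 k40
  5 (.s k166 k247 12 (.s k150 k215 8 (.s k134 k182 3 (.d k195 k73 k105 10 14))))))] .n) (.c k44 (.q
  k85 [(.s k4 k8 1 (.s k170 k255 14 (.s k166 k247 12 (.s k243 k89 14 (.d k162 k174 k81 1 12))))),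
  (.s k20 k40 5 (.s k170 k255 14 (.s k150 k215 8 (.s k130 k190 5 (.d k195 k65 k105 8 14))))), (.s k4
  k8 1 (.s k20 k40 5 (.s k166 k247 12 (.s k150 k215 8 (.s k134 k182 3 (.d k195 k73 k105 10 14))))))]
  .n) .n))))

def t21_253 : T TT 256 :=
  (.q k28 [(.s k20 k40 5 (.s k12 k44 3 (.s k4 k8 1 (.s k36 k52 3 (.d k24 k16 k48 1 5))))), (.s k12
  k44 3 (.s k29 k46 4 (.s k61 k62 0 (.s k45 k13 3 (.d k30 k31 k15 0 4)))))] (.c k12 (.q k150 [(.s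
  k20 k40 5 (.s k85 k215 8 (.s k255 k170 14 (.s k105 k195 14 (.d k125 k65 k190 5 8))))), (.s k89
  k211 10 (.s k61 k62 0 (.s k105 k195 14 (.s k149 k193 13 (.s k29 k209 9 (.s k45 k13 3 (.d k30 k15
  k31 4 0))))))), (.s k20 k40 5 (.s k16 k24 1 (.s k85 k215 8 (.s k154 k223 10 (.s k211 k89 10 (.d
  k146 k158 k81 1 8))))))] .n) (.c k44 (.q k150 [(.s k20 k40 5 (.s k85 k215 8 (.s k170 k255 14 (.s
  k130 k190 5 (.d k195 k65 k105 8 14))))), (.s k89 k211 10 (.s k61 k62 0 (.s k105 k195 14 (.s k149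
  k193 13 (.s k29 k209 9 (.s k45 k13 3 (.d k30 k31 k15 0 4))))))), (.s k20 k40 5 (.s k16 k24 1 (.s
  k85 k215 8 (.s k154 k223 10 (.s k211 k89 10 (.d k146 k158 k81 1 8))))))] .n) .n)))

def t21_254 : T TT 256 :=
  (.q k255 [(.s k125 k190 8 (.s k127 k191 7 (.s k126 k124 0 (.s k189 k252 8 (.d k61 k62 k253 0
  7))))), (.s k20 k40 5 (.s k85 k170 14 (.s k150 k215 8 (.s k105 k195 14 (.d k125 k65 k190 5 8)))))]
  (.c k125 (.l (.s k40 k20 5 (.s k170 k85 14 (.s k105 k235 8 (.s k61 k62 0 (.s k149 k193 13 (.d k191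
  k127 k128 7 6))))))) (.c k190 (.q k126 [(.s k127 k191 7 (.s k124 k125 0 (.d k252 k188 k189 7 8))),
  (.s k40 k20 5 (.s k170 k85 14 (.s k105 k235 8 (.s k61 k62 0 (.s k149 k193 13 (.d k191 k127 k128 7
  6))))))] (.c k127 (.l (.s k20 k40 5 (.s k252 k189 8 (.s k84 k168 13 (.s k148 k212 7 (.s k104 k192
  13 (.d k124 k188 k64 7 5))))))) (.c k191 (.l (.s k40 k20 5 (.s k252 k189 8 (.s k188 k124 7 (.s
  k168 k84 13 (.s k104 k232 7 (.d k148 k128 k192 5 13))))))) .n))) .n)))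

def t21_255 : T TT 256 :=
  (.q k12 [(.s k4 k8 1 (.s k20 k40 5 (.s k36 k52 3 (.s k28 k44 3 (.d k24 k16 k48 1 5))))), (.s k28
  k44 3 (.s k29 k46 4 (.s k30 k31 0 (.s k45 k15 4 (.d k61 k62 k13 0 3)))))] (.c k16 (.l (.s k8 k4 1
  (.s k40 k20 5 (.s k24 k56 3 (.s k36 k48 5 (.d k44 k28 k32 3 1)))))) (.c k28 (.q k192 [(.s k8 k4 1
  (.s k64 k128 7 (.s k72 k132 9 (.s k68 k76 1 (.d k136 k200 k204 7 9))))), (.s k20 k40 5 (.s k128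
  k64 7 (.s k148 k104 13 (.s k84 k212 7 (.d k168 k188 k252 5 13))))), (.s k4 k8 1 (.s k20 k40 5 (.s
  k52 k36 3 (.s k132 k72 9 (.s k148 k104 13 (.d k196 k68 k100 7 11))))))] .n) (.c k44 (.q k192 [(.s
  k8 k4 1 (.s k64 k128 7 (.s k72 k132 9 (.s k68 k76 1 (.d k136 k200 k204 7 9))))), (.s k20 k40 5 (.s
  k128 k64 7 (.s k148 k104 13 (.s k84 k212 7 (.d k168 k188 k252 5 13))))), (.s k4 k8 1 (.s k20 k40 5
  (.s k132 k72 9 (.s k148 k104 13 (.s k84 k212 7 (.d k164 k180 k244 3 11))))))] .n) .n))))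

def t21 : T TT 256 :=
  (.q k60 [] (.c k1 t21_1 (.c k2 t21_2 (.c k3 t21_3 (.c k4 t21_4 (.c k5 t21_5 (.c k6 t21_6 (.c k7
  t21_7 (.c k8 t21_8 (.c k9 t21_9 (.c k10 t21_10 (.c k11 t21_11 (.c k12 t21_12 (.c k13 t21_13 (.c
  k14 t21_14 (.c k15 t21_15 (.c k16 t21_16 (.c k17 t21_17 (.c k18 t21_18 (.c k19 t21_19 (.c k20
  t21_20 (.c k22 t21_22 (.c k23 t21_23 (.c k24 t21_24 (.c k25 t21_25 (.c k26 t21_26 (.c k27 t21_27
  (.c k28 t21_28 (.c k29 t21_29 (.c k30 t21_30 (.c k31 t21_31 (.c k32 t21_32 (.c k33 t21_33 (.c k34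
  t21_34 (.c k35 t21_35 (.c k36 t21_36 (.c k37 t21_37 (.c k38 t21_38 (.c k39 t21_39 (.c k40 t21_40
  (.c k41 t21_41 (.c k42 t21_42 (.c k43 t21_43 (.c k44 t21_44 (.c k45 t21_45 (.c k46 t21_46 (.c k47
  t21_47 (.c k48 t21_48 (.c k49 t21_49 (.c k50 t21_50 (.c k51 t21_51 (.c k52 t21_52 (.c k53 t21_53
  (.c k54 t21_54 (.c k55 t21_55 (.c k56 t21_56 (.c k57 t21_57 (.c k58 t21_58 (.c k59 t21_59 (.c k61
  t21_61 (.c k62 t21_62 (.c k64 t21_64 (.c k65 t21_65 (.c k66 t21_66 (.c k67 t21_67 (.c k68 t21_68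
  (.c k69 t21_69 (.c k70 t21_70 (.c k71 t21_71 (.c k72 t21_72 (.c k73 t21_73 (.c k74 t21_74 (.c k75
  t21_75 (.c k76 t21_76 (.c k77 t21_77 (.c k78 t21_78 (.c k79 t21_79 (.c k80 t21_80 (.c k81 t21_81
  (.c k82 t21_82 (.c k83 t21_83 (.c k84 t21_84 (.c k85 t21_85 (.c k86 t21_86 (.c k87 t21_87 (.c k88
  t21_88 (.c k89 t21_89 (.c k90 t21_90 (.c k91 t21_91 (.c k92 t21_92 (.c k93 t21_93 (.c k94 t21_94
  (.c k95 t21_95 (.c k96 t21_96 (.c k97 t21_97 (.c k98 t21_98 (.c k99 t21_99 (.c k100 t21_100 (.c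
  k101 t21_101 (.c k102 t21_102 (.c k103 t21_103 (.c k104 t21_104 (.c k105 t21_105 (.c k107 t21_107
  (.c k108 t21_108 (.c k109 t21_109 (.c k110 t21_110 (.c k111 t21_111 (.c k112 t21_112 (.c k113
  t21_113 (.c k114 t21_114 (.c k115 t21_115 (.c k116 t21_116 (.c k117 t21_117 (.c k118 t21_118 (.c
  k119 t21_119 (.c k120 t21_120 (.c k121 t21_121 (.c k122 t21_122 (.c k123 t21_123 (.c k124 t21_124
  (.c k125 t21_125 (.c k126 t21_126 (.c k127 t21_127 (.c k128 t21_128 (.c k129 t21_129 (.c k130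
  t21_130 (.c k131 t21_131 (.c k132 t21_132 (.c k133 t21_133 (.c k134 t21_134 (.c k135 t21_135 (.c
  k136 t21_136 (.c k137 t21_137 (.c k138 t21_138 (.c k139 t21_139 (.c k140 t21_140 (.c k141 t21_141
  (.c k142 t21_142 (.c k143 t21_143 (.c k144 t21_144 (.c k145 t21_145 (.c k146 t21_146 (.c k147
  t21_147 (.c k148 t21_148 (.c k149 t21_149 (.c k150 t21_150 (.c k151 t21_151 (.c k152 t21_152 (.c
  k153 t21_153 (.c k154 t21_154 (.c k155 t21_155 (.c k156 t21_156 (.c k157 t21_157 (.c k158 t21_158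
  (.c k159 t21_159 (.c k160 t21_160 (.c k161 t21_161 (.c k162 t21_162 (.c k163 t21_163 (.c k164
  t21_164 (.c k165 t21_165 (.c k166 t21_166 (.c k167 t21_167 (.c k168 t21_168 (.c k169 t21_169 (.c
  k170 t21_170 (.c k171 t21_171 (.c k172 t21_172 (.c k173 t21_173 (.c k174 t21_174 (.c k175 t21_175
  (.c k176 t21_176 (.c k177 t21_177 (.c k178 t21_178 (.c k179 t21_179 (.c k180 t21_180 (.c k181
  t21_181 (.c k182 t21_182 (.c k183 t21_183 (.c k184 t21_184 (.c k185 t21_185 (.c k186 t21_186 (.c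
  k187 t21_187 (.c k188 t21_188 (.c k189 t21_189 (.c k190 t21_190 (.c k191 t21_191 (.c k192 t21_192
  (.c k193 t21_193 (.c k194 t21_194 (.c k195 t21_195 (.c k196 t21_196 (.c k197 t21_197 (.c k198
  t21_198 (.c k199 t21_199 (.c k200 t21_200 (.c k201 t21_201 (.c k202 t21_202 (.c k203 t21_203 (.c
  k204 t21_204 (.c k205 t21_205 (.c k206 t21_206 (.c k207 t21_207 (.c k208 t21_208 (.c k209 t21_209
  (.c k210 t21_210 (.c k211 t21_211 (.c k212 t21_212 (.c k213 t21_213 (.c k214 t21_214 (.c k215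
  t21_215 (.c k216 t21_216 (.c k217 t21_217 (.c k218 t21_218 (.c k219 t21_219 (.c k220 t21_220 (.c
  k221 t21_221 (.c k222 t21_222 (.c k223 t21_223 (.c k224 t21_224 (.c k225 t21_225 (.c k226 t21_226
  (.c k227 t21_227 (.c k228 t21_228 (.c k229 t21_229 (.c k230 t21_230 (.c k231 t21_231 (.c k232
  t21_232 (.c k233 t21_233 (.c k234 t21_234 (.c k235 t21_235 (.c k236 t21_236 (.c k237 t21_237 (.c
  k238 t21_238 (.c k239 t21_239 (.c k240 t21_240 (.c k241 t21_241 (.c k242 t21_242 (.c k243 t21_243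
  (.c k244 t21_244 (.c k245 t21_245 (.c k246 t21_246 (.c k247 t21_247 (.c k248 t21_248 (.c k249
  t21_249 (.c k250 t21_250 (.c k251 t21_251 (.c k252 t21_252 (.c k253 t21_253 (.c k254 t21_254 (.c
  k255 t21_255 .n))))))))))))))))))))))))))))))))))))))))))))))))))))))))))))))))))))))))))))))))
  ))))))))))))))))))))))))))))))))))))))))))))))))))))))))))))))))))))))))))))))))
  )))))))))))))))))))))))))))))))))))))))))))))))))))))))))))))))))))))))))))))))) ))))))))))))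

def t22 : T TT 256 :=
  (.q k12 [(.s k8 k4 1 (.s k46 k29 4 (.s k42 k21 6 (.s k38 k34 1 (.d k25 k59 k51 4 6))))), (.s k4 k8
  1 (.s k21 k42 6 (.s k38 k55 4 (.s k25 k51 6 (.d k29 k17 k46 1 4)))))] (.c k4 (.q k15 [(.s k5 k10 2
  (.s k21 k42 6 (.s k37 k53 3 (.s k26 k48 6 (.d k31 k16 k47 2 3))))), (.s k13 k14 0 (.s k29 k46 4
  (.s k45 k61 3 (.s k30 k60 4 (.d k31 k28 k47 0 3))))), (.s k5 k10 2 (.s k21 k42 6 (.s k37 k53 3 (.s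
  k13 k14 0 (.s k29 k46 4 (.d k25 k17 k49 1 5))))))] (.c k62 (.l (.s k10 k5 2 (.s k42 k21 6 (.s k26
  k58 3 (.s k37 k48 6 (.d k47 k32 k31 2 3)))))) .n)) (.c k8 (.q k15 [(.s k10 k5 2 (.s k47 k31 3 (.s
  k42 k21 6 (.s k37 k32 2 (.d k26 k58 k48 3 6))))), (.s k13 k14 0 (.s k29 k46 4 (.s k45 k61 3 (.s
  k30 k60 4 (.d k31 k28 k47 0 3))))), (.s k5 k10 2 (.s k21 k42 6 (.s k37 k53 3 (.s k13 k14 0 (.s k29
  k46 4 (.d k25 k17 k49 1 5))))))] .n) (.c k17 (.l (.s k8 k4 1 (.s k42 k21 6 (.s k25 k59 4 (.s k38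
  k51 6 (.d k46 k29 k34 4 1)))))) (.c k21 (.q k15 [(.s k4 k8 1 (.s k5 k10 2 (.s k6 k7 0 (.s k13 k14
  0 (.d k9 k1 k3 1 2))))), (.s k13 k14 0 (.s k29 k46 4 (.s k45 k61 3 (.s k31 k47 3 (.d k30 k28 k60 0
  4)))))] (.c k1 (.l (.s k8 k4 1 (.s k10 k5 2 (.s k9 k11 0 (.s k6 k3 2 (.d k14 k13 k2 0 1)))))) (.c
  k13 (.f k8 k4 1 (.f k10 k5 2 (.l (.s k9 k11 0 (.s k6 k3 2 (.s k14 k2 1 (.s k46 k29 4 (.s k47 k31 3
  (.s k45 k44 0 (.d k30 k62 k60 3 4)))))))))) (.c k14 (.q k42 [(.s k8 k4 1 (.s k46 k29 4 (.s k38 k34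
  1 (.d k25 k59 k51 4 6)))), (.s k10 k5 2 (.s k26 k58 3 (.s k37 k48 6 (.d k47 k32 k31 2 3))))] (.c
  k20 (.q k23 [(.s k10 k5 2 (.s k26 k58 3 (.s k37 k48 6 (.d k47 k32 k31 2 3)))), (.s k8 k4 1 (.s k25
  k59 4 (.s k38 k51 6 (.d k46 k34 k29 1 4))))] .n) (.c k23 (.q k20 [(.s k8 k4 1 (.s k46 k29 4 (.s
  k38 k34 1 (.d k25 k59 k51 4 6)))), (.s k10 k5 2 (.s k26 k58 3 (.s k37 k48 6 (.d k47 k32 k31 2
  3))))] .n) .n))) (.c k20 (.q k23 [(.s k4 k8 1 (.s k5 k10 2 (.s k3 k43 5 (.d k6 k9 k7 2 0)))), (.s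
  k13 k14 0 (.s k29 k46 4 (.s k45 k61 3 (.s k31 k47 3 (.d k30 k28 k60 0 4)))))] .n) (.c k23 (.q k20
  [(.s k60 k40 5 (.s k13 k14 0 (.s k29 k46 4 (.d k45 k30 k61 4 3)))), (.s k4 k8 1 (.s k5 k10 2 (.s
  k6 k7 0 (.s k13 k14 0 (.d k9 k1 k3 1 2))))), (.s k60 k40 5 (.s k28 k44 3 (.s k29 k46 4 (.d k30 k45
  k31 4 0))))] .n) .n)))))) (.c k25 (.f k8 k4 1 (.q k15 [(.s k10 k5 2 (.s k9 k11 0 (.s k6 k3 2 (.d
  k14 k13 k2 0 1)))), (.s k5 k10 2 (.s k21 k42 6 (.s k37 k53 3 (.s k26 k48 6 (.d k31 k16 k47 2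
  3))))), (.s k13 k14 0 (.s k29 k46 4 (.s k45 k61 3 (.s k30 k60 4 (.d k31 k28 k47 0 3)))))] (.c k19
  (.q k28 [(.s k29 k46 4 (.d k31 k30 k47 0 3)), (.s k10 k5 2 (.s k9 k11 0 (.s k6 k3 2 (.d k14 k13 k2
  0 1))))] .n) (.c k28 (.q k19 [(.s k10 k5 2 (.s k9 k11 0 (.s k6 k3 2 (.d k14 k13 k2 0 1)))), (.s k5
  k10 2 (.s k21 k42 6 (.s k37 k53 3 (.s k26 k48 6 (.d k31 k16 k47 2 3))))), (.s k14 k13 0 (.s k46
  k29 4 (.s k30 k62 3 (.s k45 k60 4 (.d k47 k31 k44 3 0)))))] (.c k2 (.l (.s k10 k5 2 (.s k42 k21 6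
  (.s k26 k58 3 (.s k37 k48 6 (.d k47 k32 k31 2 3)))))) .n)) .n)))) (.c k29 (.q k15 [(.s k4 k8 1 (.s
  k13 k14 0 (.s k5 k10 2 (.s k9 k1 1 (.d k6 k7 k3 0 2))))), (.s k5 k10 2 (.s k21 k42 6 (.s k37 k53 3
  (.s k26 k48 6 (.d k31 k16 k47 2 3))))), (.s k4 k8 1 (.s k21 k42 6 (.s k38 k55 4 (.s k14 k13 0 (.s
  k26 k50 5 (.d k31 k16 k47 2 3))))))] (.c k2 (.l (.s k4 k8 1 (.s k5 k10 2 (.s k6 k7 0 (.s k9 k3 2
  (.d k13 k14 k1 0 1)))))) .n)) (.c k38 (.q k15 [(.s k4 k8 1 (.s k13 k14 0 (.s k5 k10 2 (.s k9 k1 1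
  (.d k6 k7 k3 0 2))))), (.s k5 k10 2 (.s k21 k42 6 (.s k37 k53 3 (.s k26 k48 6 (.d k31 k16 k47 2
  3))))), (.s k13 k14 0 (.s k29 k46 4 (.s k45 k61 3 (.s k30 k60 4 (.d k31 k28 k47 0 3)))))] (.c k6
  (.q k54 [(.s k14 k13 0 (.s k46 k29 4 (.s k47 k31 3 (.s k45 k44 0 (.d k30 k62 k60 3 4))))), (.s k10
  k5 2 (.s k42 k21 6 (.s k26 k58 3 (.s k37 k48 6 (.d k47 k32 k31 2 3)))))] (.c k31 (.l (.s k4 k8 1
  (.s k5 k10 2 (.s k21 k42 6 (.s k53 k37 3 (.s k52 k55 0 (.s k36 k20 3 (.d k48 k58 k24 2 5))))))))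
  (.c k47 (.l (.s k10 k5 2 (.s k42 k21 6 (.s k58 k26 3 (.s k14 k13 0 (.s k46 k29 4 (.d k62 k50 k30 1
  3))))))) .n))) (.c k26 (.l (.s k4 k8 1 (.s k5 k10 2 (.s k6 k7 0 (.s k9 k3 2 (.d k13 k14 k1 0
  1)))))) (.c k54 (.q k6 [(.s k4 k8 1 (.d k5 k7 k10 0 2)), (.s k14 k13 0 (.s k2 k10 1 (.d k3 k1 k9 0
  2)))] (.c k10 (.l (.s k4 k8 1 (.s k7 k5 0 (.d k3 k11 k9 1 2)))) .n)) .n)))) (.c k42 (.q k170 [(.s
  k8 k4 1 (.s k85 k255 14 (.s k89 k251 12 (.s k243 k166 14 (.d k81 k93 k162 1 12))))), (.s k255 k85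
  14 (.s k29 k46 4 (.s k93 k174 12 (.s k157 k221 7 (.s k110 k204 12 (.d k127 k76 k191 4 7)))))), (.s
  k4 k8 1 (.s k85 k255 14 (.s k166 k247 12 (.s k243 k89 14 (.d k162 k174 k81 1 12)))))] (.c k2 (.q
  k62 [(.s k8 k4 1 (.s k85 k255 14 (.s k89 k251 12 (.s k243 k166 14 (.d k81 k93 k162 1 12))))), (.s
  k46 k29 4 (.s k30 k14 3 (.s k60 k61 0 (.s k44 k28 3 (.d k45 k47 k15 0 4)))))] (.c k46 (.l (.s k4
  k8 1 (.s k85 k255 14 (.s k166 k247 12 (.s k243 k89 14 (.d k162 k174 k81 1 12)))))) .n)) (.c k62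
  (.q k2 [(.s k4 k8 1 (.s k85 k255 14 (.s k166 k247 12 (.s k243 k89 14 (.d k162 k174 k81 1 12))))),
  (.s k3 k1 0 (.s k85 k255 14 (.s k86 k254 13 (.s k252 k169 14 (.d k84 k87 k168 0 13))))), (.s k3 k1
  0 (.s k4 k8 1 (.s k6 k9 2 (.s k10 k14 1 (.d k5 k7 k15 0 2)))))] (.c k150 (.q k194 [(.s k3 k1 0 (.s
  k4 k8 1 (.s k6 k9 2 (.s k10 k14 1 (.d k5 k7 k15 0 2))))), (.s k3 k1 0 (.s k85 k255 14 (.s k86 k254
  13 (.s k252 k169 14 (.d k84 k87 k168 0 13))))), (.s k4 k8 1 (.s k85 k255 14 (.s k166 k247 12 (.s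
  k243 k89 14 (.d k162 k174 k81 1 12)))))] (.c k86 (.q k214 [(.s k3 k1 0 (.s k4 k8 1 (.s k6 k9 2 (.s
  k10 k14 1 (.d k5 k7 k15 0 2))))), (.s k3 k1 0 (.s k255 k85 14 (.s k66 k130 7 (.s k192 k129 8 (.d
  k234 k254 k213 5 6))))), (.s k4 k8 1 (.s k85 k255 14 (.s k166 k247 12 (.s k243 k89 14 (.d k162
  k174 k81 1 12)))))] (.c k66 (.q k126 [(.s k252 k189 8 (.s k254 k234 5 (.d k255 k253 k85 0 14))),
  (.s k3 k1 0 (.s k4 k8 1 (.s k6 k9 2 (.s k10 k14 1 (.d k5 k7 k15 0 2)))))] .n) (.c k126 (.l (.s k66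
  k130 7 (.s k3 k1 0 (.s k255 k85 14 (.s k192 k129 8 (.d k234 k254 k213 5 6)))))) .n))) (.c k214 (.l
  (.s k86 k254 13 (.s k3 k1 0 (.s k85 k255 14 (.s k252 k169 14 (.d k84 k87 k168 0 13)))))) .n))) (.c
  k194 (.q k150 [(.s k4 k8 1 (.s k85 k255 14 (.s k166 k247 12 (.s k243 k89 14 (.d k162 k174 k81 1
  12))))), (.s k3 k1 0 (.s k85 k255 14 (.s k86 k254 13 (.s k252 k169 14 (.d k84 k87 k168 0 13))))),
  (.s k3 k1 0 (.s k4 k8 1 (.s k6 k9 2 (.s k10 k14 1 (.d k5 k7 k15 0 2)))))] .n) .n))) (.c k85 (.f k8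
  k4 1 (.l (.s k89 k251 12 (.s k29 k46 4 (.s k166 k243 14 (.s k149 k209 9 (.s k128 k191 6 (.s k132
  k183 4 (.d k192 k64 k72 7 9))))))))) (.c k166 (.l (.s k255 k85 14 (.s k46 k29 4 (.s k174 k93 12
  (.s k110 k238 7 (.s k157 k204 12 (.d k191 k127 k140 7 4))))))) (.c k255 (.f k8 k4 1 (.l (.s k89
  k251 12 (.s k29 k46 4 (.s k149 k209 9 (.s k128 k191 6 (.s k192 k64 7 (.s k132 k72 9 (.d k166 k243
  k183 14 4))))))))) .n)))))) (.c k46 (.q k15 [(.s k8 k4 1 (.s k10 k5 2 (.s k9 k11 0 (.s k6 k3 2 (.d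
  k14 k13 k2 0 1))))), (.s k5 k10 2 (.s k21 k42 6 (.s k37 k53 3 (.s k26 k48 6 (.d k31 k16 k47 2
  3))))), (.s k4 k8 1 (.s k21 k42 6 (.s k38 k55 4 (.s k14 k13 0 (.s k26 k50 5 (.d k31 k16 k47 2
  3))))))] (.c k2 (.l (.s k4 k8 1 (.s k5 k10 2 (.s k6 k7 0 (.s k9 k3 2 (.d k13 k14 k1 0 1)))))) (.c
  k166 (.q k226 [(.s k4 k8 1 (.s k5 k10 2 (.s k6 k7 0 (.s k9 k3 2 (.d k13 k14 k1 0 1))))), (.s k5
  k10 2 (.s k21 k42 6 (.s k37 k53 3 (.s k26 k48 6 (.d k31 k16 k47 2 3))))), (.s k4 k8 1 (.s k21 k42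
  6 (.s k38 k55 4 (.s k14 k13 0 (.s k26 k50 5 (.d k31 k16 k47 2 3))))))] .n) (.c k226 (.q k166 [(.s
  k4 k8 1 (.s k85 k247 12 (.s k170 k255 14 (.s k243 k89 14 (.d k162 k174 k81 1 12))))), (.s k5 k10 2
  (.s k21 k42 6 (.s k37 k53 3 (.s k26 k48 6 (.d k31 k16 k47 2 3)))))] (.c k170 (.l (.s k4 k8 1 (.s
  k5 k10 2 (.s k6 k7 0 (.s k9 k3 2 (.d k13 k14 k1 0 1)))))) .n)) .n)))) (.c k51 (.q k15 [(.s k4 k8 1
  (.s k13 k14 0 (.s k5 k10 2 (.s k9 k1 1 (.d k6 k7 k3 0 2))))), (.s k5 k10 2 (.s k21 k42 6 (.s k37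
  k53 3 (.s k26 k48 6 (.d k31 k16 k47 2 3))))), (.s k13 k14 0 (.s k29 k46 4 (.s k45 k61 3 (.s k30
  k60 4 (.d k31 k28 k47 0 3)))))] .n) (.c k55 (.l (.s k8 k4 1 (.s k46 k29 4 (.s k42 k21 6 (.s k38
  k34 1 (.d k25 k59 k51 4 6)))))) (.c k59 (.l (.s k4 k8 1 (.s k29 k46 4 (.s k21 k42 6 (.s k25 k17 1
  (.d k38 k55 k51 4 6)))))) .n)))))))))))))

theorem c1 : rootOK2 k63 k106 k1 t1 = true := by decide +kernel

theorem c2 : rootOK2 k63 k106 k2 t2 = true := by decide +kernel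

theorem c3 : rootOK2 k63 k106 k3 t3 = true := by decide +kernel

theorem c5 : rootOK2 k63 k106 k5 t5 = true := by decide +kernel

theorem c6 : rootOK2 k63 k106 k6 t6 = true := by decide +kernel

theorem c7 : rootOK2 k63 k106 k7 t7 = true := by decide +kernel

theorem c10 : rootOK2 k63 k106 k10 t10 = true := by decide +kernel

theorem c11 : rootOK2 k63 k106 k11 t11 = true := by decide +kernel

theorem c15 : rootOK2 k63 k106 k15 t15 = true := by decide +kernel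

theorem c21 : rootOK2 k63 k106 k21 t21 = true := by decide +kernel

theorem c22 : rootOK2 k63 k106 k22 t22 = true := by decide +kernel

def l : List Nat :=
  [k1.c, k2.c, k3.c, k5.c, k6.c, k7.c, k10.c, k11.c, k15.c, k21.c, k22.c]

theorem ok : AllQ k63.c k106.c l :=
  allQ_cons c1 (allQ_cons c2 (allQ_cons c3 (allQ_cons c5 (allQ_cons c6 (allQ_cons c7 (
  allQ_cons c10 (allQ_cons c11 (allQ_cons c15 (allQ_cons c21 (allQ_cons c22 (allQ_nil _ _))))))))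
  )))

end Pool.Agent.TTT.H01
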