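import Pool.Agent.TTT.Sym2

set_option autoImplicit false
set_option maxRecDepth 100000

namespace Pool.Agent.TTT.H02

def t23 : T TT 256 :=
  (.q k12 [(.s k8 k4 1 (.s k46 k29 4 (.s k42 k21 6 (.s k38 k34 1 (.d k25 k59 k51 4 6))))), (.s k4 k8
  1 (.s k21 k42 6 (.s k38 k55 4 (.s k25 k51 6 (.d k29 k17 k46 1 4)))))] (.c k4 (.q k60 [(.s k42 k21
  6 (.s k62 k61 0 (.s k22 k2 5 (.s k41 k3 6 (.d k40 k20 k43 5 0))))), (.s k28 k44 3 (.s k29 k46 4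
  (.s k30 k31 0 (.s k45 k15 4 (.d k61 k62 k13 0 3))))), (.s k20 k40 5 (.s k21 k42 6 (.s k28 k44 3
  (.s k29 k46 4 (.s k16 k24 1 (.d k31 k30 k26 0 2))))))] .n) (.c k8 (.q k60 [(.s k40 k20 5 (.s k62
  k61 0 (.s k42 k21 6 (.s k22 k2 5 (.d k41 k43 k3 0 6))))), (.s k28 k44 3 (.s k29 k46 4 (.s k30 k31
  0 (.s k45 k15 4 (.d k61 k62 k13 0 3)))))] (.c k61 (.l (.s k20 k40 5 (.s k21 k42 6 (.s k28 k44 3
  (.s k29 k46 4 (.s k31 k30 0 (.d k16 k24 k26 1 2))))))) (.c k62 (.l (.s k40 k20 5 (.s k44 k28 3 (.s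
  k46 k29 4 (.s k32 k36 1 (.s k47 k45 0 (.d k42 k21 k37 6 2))))))) .n))) (.c k17 (.l (.s k8 k4 1 (.s
  k42 k21 6 (.s k25 k59 4 (.s k38 k51 6 (.d k46 k29 k34 4 1)))))) (.c k21 (.q k60 [(.s k4 k8 1 (.s
  k20 k40 5 (.s k36 k52 3 (.s k24 k48 5 (.d k28 k16 k44 1 3))))), (.s k28 k44 3 (.s k29 k46 4 (.s
  k61 k62 0 (.s k45 k13 3 (.d k30 k31 k15 0 4)))))] (.c k20 (.q k22 [(.s k62 k61 0 (.s k2 k42 5 (.d
  k3 k1 k41 0 6))), (.s k8 k4 1 (.s k28 k44 3 (.s k25 k19 2 (.s k59 k42 4 (.d k51 k55 k38 1 6))))),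
  (.s k3 k41 6 (.s k6 k9 2 (.s k38 k54 3 (.s k25 k51 6 (.d k28 k19 k44 2 3)))))] .n) (.c k22 (.l (.s
  k20 k40 5 (.s k4 k8 1 (.s k36 k52 3 (.s k24 k48 5 (.d k28 k16 k44 1 3)))))) (.c k28 (.q k22 [(.s
  k62 k61 0 (.s k2 k42 5 (.d k3 k1 k41 0 6))), (.s k4 k8 1 (.s k20 k40 5 (.s k3 k41 6 (.s k6 k9 2
  (.s k7 k5 0 (.d k52 k37 k36 4 3))))))] (.c k1 (.l (.s k40 k20 5 (.s k41 k3 6 (.s k42 k43 0 (.d k62
  k61 k2 0 5))))) (.c k3 (.l (.s k8 k4 1 (.s k46 k29 4 (.s k62 k61 0 (.s k42 k2 5 (.s k25 k59 4 (.d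
  k38 k34 k51 1 6))))))) (.c k41 (.q k1 [(.s k2 k3 0 (.d k62 k61 k42 0 5)), (.s k29 k46 4 (.s k61
  k62 0 (.s k13 k45 3 (.s k5 k9 1 (.d k15 k14 k10 0 2))))), (.s k3 k2 0 (.s k8 k4 1 (.s k9 k6 2 (.s
  k5 k13 1 (.d k10 k11 k15 0 2)))))] .n) (.c k42 (.l (.s k4 k8 1 (.s k3 k41 6 (.s k6 k9 2 (.s k5 k7
  0 (.s k10 k15 2 (.d k2 k1 k14 0 1))))))) (.c k61 (.l (.s k8 k4 1 (.s k3 k41 6 (.s k1 k2 0 (.s k9
  k6 2 (.s k5 k13 1 (.d k10 k11 k15 0 2))))))) .n)))))) (.c k44 (.q k42 [(.s k62 k61 0 (.s k40 k20 5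
  (.s k22 k2 5 (.d k41 k43 k3 0 6)))), (.s k8 k4 1 (.s k25 k59 4 (.s k38 k51 6 (.d k46 k34 k29 1
  4))))] (.c k20 (.q k22 [(.d k62 k61 k2 0 5), (.s k8 k4 1 (.s k25 k59 4 (.s k38 k51 6 (.d k46 k34
  k29 1 4))))] .n) (.c k22 (.l (.s k20 k40 5 (.s k8 k4 1 (.s k25 k59 4 (.s k38 k51 6 (.d k46 k34 k29
  1 4)))))) .n))) .n))))) (.c k25 (.q k60 [(.s k4 k8 1 (.s k20 k40 5 (.s k36 k52 3 (.s k24 k48 5 (.d
  k28 k16 k44 1 3))))), (.s k28 k44 3 (.s k29 k46 4 (.s k30 k31 0 (.s k45 k15 4 (.d k61 k62 k13 0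
  3))))), (.s k40 k20 5 (.s k62 k61 0 (.s k42 k21 6 (.s k22 k2 5 (.d k41 k43 k3 0 6)))))] .n) (.c
  k29 (.q k60 [(.s k4 k8 1 (.s k20 k40 5 (.s k36 k52 3 (.s k24 k48 5 (.d k28 k16 k44 1 3))))), (.s
  k40 k20 5 (.s k62 k61 0 (.s k42 k21 6 (.s k22 k2 5 (.d k41 k43 k3 0 6))))), (.s k4 k8 1 (.s k21
  k42 6 (.s k38 k55 4 (.s k44 k28 3 (.s k41 k35 2 (.d k61 k62 k1 0 5))))))] .n) (.c k38 (.q k60 [(.s
  k4 k8 1 (.s k20 k40 5 (.s k36 k52 3 (.s k24 k48 5 (.d k28 k16 k44 1 3))))), (.s k28 k44 3 (.s k29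
  k46 4 (.s k30 k31 0 (.s k45 k15 4 (.d k61 k62 k13 0 3))))), (.s k40 k20 5 (.s k62 k61 0 (.s k42
  k21 6 (.s k22 k2 5 (.d k41 k43 k3 0 6)))))] .n) (.c k42 (.q k170 [(.s k8 k4 1 (.s k85 k255 14 (.s
  k89 k251 12 (.s k243 k166 14 (.d k81 k93 k162 1 12))))), (.s k255 k85 14 (.s k29 k46 4 (.s k93
  k174 12 (.s k157 k221 7 (.s k110 k204 12 (.d k127 k76 k191 4 7)))))), (.s k4 k8 1 (.s k85 k255 14
  (.s k166 k247 12 (.s k243 k89 14 (.d k162 k174 k81 1 12)))))] (.c k85 (.q k60 [(.s k4 k8 1 (.s k20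
  k40 5 (.s k36 k52 3 (.s k24 k48 5 (.d k28 k16 k44 1 3))))), (.s k28 k44 3 (.s k29 k46 4 (.s k30
  k31 0 (.s k45 k15 4 (.d k61 k62 k13 0 3))))), (.s k8 k4 1 (.s k40 k20 5 (.s k89 k251 12 (.s k105
  k235 8 (.s k73 k121 3 (.d k195 k150 k134 14 10))))))] (.c k64 (.q k127 [(.s k4 k8 1 (.s k20 k40 5
  (.s k36 k52 3 (.s k24 k48 5 (.d k28 k16 k44 1 3))))), (.s k40 k20 5 (.s k105 k235 8 (.s k61 k62 0
  (.s k149 k193 13 (.d k191 k128 k255 6 7))))), (.s k8 k4 1 (.s k89 k251 12 (.s k29 k46 4 (.s k149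
  k209 9 (.d k191 k128 k255 6 7)))))] .n) (.c k127 (.q k64 [(.s k4 k8 1 (.s k20 k40 5 (.s k36 k52 3
  (.s k24 k48 5 (.d k28 k16 k44 1 3))))), (.s k40 k20 5 (.s k128 k192 7 (.s k105 k235 8 (.s k61 k62
  0 (.d k149 k191 k193 6 13))))), (.s k8 k4 1 (.s k128 k192 7 (.s k89 k251 12 (.s k29 k46 4 (.d k149
  k191 k209 6 9)))))] .n) .n))) (.c k166 (.l (.s k255 k85 14 (.s k46 k29 4 (.s k174 k93 12 (.s k110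
  k238 7 (.s k157 k204 12 (.d k191 k127 k140 7 4))))))) (.c k255 (.q k60 [(.s k8 k4 1 (.s k40 k20 5
  (.s k24 k56 3 (.s k36 k48 5 (.d k44 k32 k28 1 3))))), (.s k28 k44 3 (.s k29 k46 4 (.s k30 k31 0
  (.s k45 k15 4 (.d k61 k62 k13 0 3))))), (.s k8 k4 1 (.s k40 k20 5 (.s k89 k251 12 (.s k243 k166 14
  (.s k105 k235 8 (.d k121 k73 k182 3 10))))))] .n) .n)))) (.c k46 (.f k42 k21 6 (.q k22 [(.s k62 k2
  5 (.s k60 k61 0 (.s k40 k20 5 (.d k41 k43 k3 0 6)))), (.s k8 k4 1 (.s k62 k2 5 (.s k25 k59 4 (.s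
  k28 k19 2 (.d k60 k61 k44 0 3))))), (.s k8 k4 1 (.s k25 k59 4 (.s k28 k19 2 (.s k60 k44 3 (.s k40
  k20 5 (.d k41 k43 k3 0 6))))))] (.c k60 (.l (.s k4 k8 1 (.s k2 k62 5 (.s k3 k1 0 (.s k6 k9 2 (.s
  k5 k7 0 (.d k10 k14 k15 1 2))))))) (.c k166 (.q k226 [(.s k62 k2 5 (.s k60 k61 0 (.s k40 k20 5 (.d
  k41 k43 k3 0 6)))), (.s k8 k4 1 (.s k62 k2 5 (.s k25 k59 4 (.s k28 k19 2 (.d k60 k61 k44 0 3))))),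
  (.s k8 k4 1 (.s k25 k59 4 (.s k28 k19 2 (.s k60 k44 3 (.s k40 k20 5 (.d k41 k43 k3 0 6))))))] (.c
  k60 (.l (.s k4 k8 1 (.s k2 k62 5 (.s k3 k1 0 (.s k6 k9 2 (.s k5 k7 0 (.d k10 k14 k15 1 2)))))))
  .n)) (.c k226 (.q k166 [(.s k62 k2 5 (.s k60 k61 0 (.s k40 k20 5 (.d k41 k43 k3 0 6)))), (.s k4 k8
  1 (.s k85 k247 12 (.s k170 k255 14 (.s k243 k89 14 (.d k162 k174 k81 1 12)))))] .n) .n))))) (.c
  k51 (.q k60 [(.s k40 k20 5 (.s k62 k61 0 (.s k42 k21 6 (.s k22 k2 5 (.d k41 k43 k3 0 6))))), (.s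
  k4 k8 1 (.s k20 k40 5 (.s k36 k52 3 (.s k24 k48 5 (.d k28 k16 k44 1 3))))), (.s k28 k44 3 (.s k29
  k46 4 (.s k30 k31 0 (.s k45 k15 4 (.d k61 k62 k13 0 3)))))] .n) (.c k55 (.l (.s k8 k4 1 (.s k46
  k29 4 (.s k42 k21 6 (.s k38 k34 1 (.d k25 k59 k51 4 6)))))) (.c k59 (.l (.s k4 k8 1 (.s k29 k46 4
  (.s k21 k42 6 (.s k25 k17 1 (.d k38 k55 k51 4 6)))))) .n)))))))))))))

def t26 : T TT 256 :=
  (.q k3 [(.s k2 k1 0 (.s k43 k23 5 (.s k42 k21 6 (.s k41 k40 0 (.d k22 k62 k60 5 6))))), (.s k1 k2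
  0 (.s k21 k42 6 (.s k41 k61 5 (.s k22 k60 6 (.d k23 k20 k43 0 5)))))] (.c k1 (.q k51 [(.s k17 k34
  4 (.s k21 k42 6 (.s k25 k29 1 (.s k38 k12 6 (.d k55 k59 k4 1 4))))), (.s k19 k35 3 (.s k23 k43 5
  (.s k55 k59 1 (.s k39 k7 3 (.d k27 k31 k15 1 5))))), (.s k17 k34 4 (.s k21 k42 6 (.s k19 k35 3 (.s
  k23 k43 5 (.s k25 k29 1 (.d k22 k20 k28 0 2))))))] .n) (.c k2 (.q k51 [(.s k34 k17 4 (.s k59 k55 1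
  (.s k42 k21 6 (.s k25 k8 4 (.d k38 k46 k12 1 6))))), (.s k19 k35 3 (.s k23 k43 5 (.s k55 k59 1 (.s
  k39 k7 3 (.d k27 k31 k15 1 5))))), (.s k17 k34 4 (.s k21 k42 6 (.s k19 k35 3 (.s k23 k43 5 (.s k25
  k29 1 (.d k22 k20 k28 0 2))))))] .n) (.c k20 (.l (.s k2 k1 0 (.s k42 k21 6 (.s k22 k62 5 (.s k41
  k60 6 (.d k43 k23 k40 5 0)))))) (.c k21 (.q k31 [(.s k23 k43 5 (.s k27 k19 1 (.s k15 k47 3 (.s k39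
  k51 5 (.d k7 k11 k55 1 3))))), (.s k1 k2 0 (.s k15 k47 3 (.s k5 k10 2 (.s k9 k13 1 (.s k6 k12 2
  (.d k7 k4 k11 0 1)))))), (.s k1 k2 0 (.s k23 k43 5 (.s k19 k27 1 (.s k51 k35 3 (.s k17 k34 4 (.s
  k33 k49 3 (.d k18 k16 k48 0 4)))))))] (.c k11 (.f k2 k1 0 (.l (.s k43 k23 5 (.s k47 k15 3 (.s k35
  k39 1 (.s k51 k19 3 (.s k34 k17 4 (.s k18 k50 3 (.d k33 k48 k32 4 0))))))))) (.c k47 (.q k51 [(.s
  k19 k35 3 (.d k23 k43 k27 5 1)), (.s k1 k2 0 (.s k17 k34 4 (.s k33 k49 3 (.s k18 k48 4 (.d k19 k16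
  k35 0 3)))))] (.c k19 (.q k169 [(.s k1 k2 0 (.s k85 k253 13 (.s k170 k255 14 (.s k168 k171 0 (.d
  k252 k84 k86 13 14))))), (.s k43 k23 5 (.s k252 k86 14 (.s k59 k55 1 (.s k11 k27 3 (.s k248 k90 12
  (.d k185 k122 k118 8 10)))))), (.s k1 k2 0 (.s k17 k34 4 (.s k85 k253 13 (.s k153 k221 9 (.s k204
  k102 14 (.d k137 k185 k70 3 10))))))] (.c k165 (.q k224 [(.s k1 k2 0 (.s k85 k253 13 (.s k170 k255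
  14 (.s k168 k171 0 (.d k252 k84 k86 13 14))))), (.s k23 k43 5 (.s k86 k252 14 (.s k149 k212 8 (.s
  k208 k90 10 (.s k129 k189 5 (.d k192 k240 k66 3 8)))))), (.s k1 k2 0 (.s k17 k34 4 (.s k85 k253 13
  (.s k153 k221 9 (.s k204 k102 14 (.d k137 k185 k70 3 10))))))] .n) (.c k224 (.q k165 [(.s k23 k43
  5 (.s k86 k252 14 (.s k7 k244 12 (.d k55 k39 k59 3 1)))), (.s k1 k2 0 (.s k85 k253 13 (.s k170
  k255 14 (.s k252 k86 14 (.d k168 k171 k84 0 13))))), (.s k43 k23 5 (.s k59 k55 1 (.s k11 k27 3 (.s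
  k90 k248 12 (.d k15 k7 k240 1 14)))))] .n) .n))) (.c k35 (.l (.s k55 k59 1 (.s k23 k43 5 (.s k39
  k7 3 (.d k27 k19 k15 1 5))))) (.c k165 (.q k224 [(.s k19 k35 3 (.d k23 k43 k27 5 1)), (.s k1 k2 0
  (.s k17 k34 4 (.s k33 k49 3 (.s k18 k48 4 (.d k19 k16 k35 0 3)))))] (.c k19 (.q k169 [(.s k1 k2 0
  (.s k85 k253 13 (.s k170 k255 14 (.s k168 k171 0 (.d k252 k84 k86 13 14))))), (.s k23 k43 5 (.s
  k86 k252 14 (.s k149 k212 8 (.s k208 k90 10 (.s k129 k189 5 (.d k192 k240 k66 3 8)))))), (.s k1 k2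
  0 (.s k17 k34 4 (.s k85 k253 13 (.s k153 k221 9 (.s k204 k102 14 (.d k137 k185 k70 3 10))))))] .n)
  (.c k35 (.l (.s k55 k59 1 (.s k23 k43 5 (.s k39 k7 3 (.d k27 k19 k15 1 5))))) .n))) (.c k224 (.q
  k165 [(.s k19 k35 3 (.d k23 k43 k27 5 1)), (.s k1 k2 0 (.s k17 k34 4 (.s k33 k49 3 (.s k18 k48 4
  (.d k19 k16 k35 0 3)))))] (.c k19 (.l (.s k23 k43 5 (.s k55 k59 1 (.s k39 k7 3 (.s k102 k228 8 (.s
  k149 k196 12 (.s k90 k208 10 (.d k15 k27 k240 5 14)))))))) (.c k35 (.l (.s k55 k59 1 (.s k23 k43 5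
  (.s k39 k7 3 (.d k27 k19 k15 1 5))))) .n))) .n))))) .n))) (.c k22 (.f k2 k1 0 (.q k51 [(.s k34 k17
  4 (.s k35 k19 3 (.s k33 k32 0 (.d k18 k50 k48 3 4)))), (.s k17 k34 4 (.s k21 k42 6 (.s k25 k29 1
  (.s k38 k12 6 (.d k55 k59 k4 1 4))))), (.s k19 k35 3 (.s k23 k43 5 (.s k27 k31 1 (.s k39 k15 5 (.d
  k55 k59 k7 1 3)))))] (.c k18 (.q k30 [(.s k17 k34 4 (.s k21 k42 6 (.s k25 k29 1 (.s k38 k12 6 (.d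
  k55 k59 k4 1 4))))), (.s k19 k35 3 (.s k23 k43 5 (.s k55 k59 1 (.s k39 k7 3 (.d k27 k31 k15 1
  5)))))] (.c k55 (.l (.s k17 k34 4 (.s k21 k42 6 (.s k19 k35 3 (.s k23 k43 5 (.s k29 k25 1 (.d k31
  k27 k28 1 0))))))) (.c k59 (.l (.s k34 k17 4 (.s k42 k21 6 (.s k46 k38 1 (.s k14 k62 3 (.s k6 k10
  1 (.d k12 k29 k9 4 2))))))) .n))) (.c k30 (.q k18 [(.d k34 k50 k17 3 4), (.s k19 k35 3 (.s k16 k17
  0 (.d k48 k33 k32 4 3)))] (.c k17 (.l (.s k50 k34 3 (.d k48 k49 k33 0 4))) .n)) .n)))) (.c k23 (.q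
  k51 [(.s k1 k2 0 (.s k17 k34 4 (.s k33 k49 3 (.s k19 k35 3 (.d k18 k16 k48 0 4))))), (.s k17 k34 4
  (.s k21 k42 6 (.s k25 k29 1 (.s k38 k12 6 (.d k55 k59 k4 1 4))))), (.s k1 k2 0 (.s k21 k42 6 (.s
  k41 k61 5 (.s k35 k19 3 (.s k38 k44 2 (.d k55 k59 k4 1 4))))))] .n) (.c k41 (.q k51 [(.s k1 k2 0
  (.s k17 k34 4 (.s k33 k49 3 (.s k18 k48 4 (.d k19 k16 k35 0 3))))), (.s k17 k34 4 (.s k21 k42 6
  (.s k25 k29 1 (.s k38 k12 6 (.d k55 k59 k4 1 4))))), (.s k19 k35 3 (.s k23 k43 5 (.s k27 k31 1 (.s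
  k39 k15 5 (.d k55 k59 k7 1 3)))))] (.c k11 (.q k56 [(.s k1 k2 0 (.s k17 k34 4 (.s k33 k49 3 (.s
  k18 k48 4 (.d k19 k16 k35 0 3))))), (.s k17 k34 4 (.s k21 k42 6 (.s k25 k29 1 (.s k38 k12 6 (.d
  k55 k59 k4 1 4))))), (.s k19 k35 3 (.s k23 k43 5 (.s k27 k31 1 (.s k39 k15 5 (.d k55 k59 k7 1
  3)))))] .n) (.c k56 (.q k11 [(.s k43 k23 5 (.d k59 k55 k27 1 3)), (.s k1 k2 0 (.s k17 k34 4 (.s
  k33 k49 3 (.s k18 k48 4 (.d k19 k16 k35 0 3)))))] .n) .n))) (.c k42 (.q k170 [(.s k2 k1 0 (.s k85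
  k255 14 (.s k86 k254 13 (.s k252 k169 14 (.d k84 k87 k168 0 13))))), (.s k255 k85 14 (.s k23 k43 5
  (.s k87 k171 13 (.s k151 k215 7 (.s k107 k195 13 (.d k127 k67 k191 5 7)))))), (.s k1 k2 0 (.s k85
  k255 14 (.s k169 k253 13 (.s k252 k86 14 (.d k168 k171 k84 0 13)))))] (.c k10 (.q k58 [(.s k2 k1 0
  (.s k85 k255 14 (.s k86 k254 13 (.s k252 k169 14 (.d k84 k87 k168 0 13))))), (.s k85 k255 14 (.s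
  k48 k53 2 (.s k16 k32 3 (.s k154 k223 10 (.s k207 k101 14 (.d k138 k186 k69 3 10)))))), (.s k1 k2
  0 (.s k48 k53 2 (.s k32 k16 3 (.s k33 k18 4 (.s k17 k49 3 (.d k34 k35 k51 0 4))))))] .n) (.c k58
  (.q k10 [(.s k1 k2 0 (.s k5 k15 2 (.s k9 k13 1 (.s k12 k6 2 (.d k8 k11 k4 0 1))))), (.s k15 k5 2
  (.s k85 k255 14 (.s k90 k250 11 (.s k240 k165 14 (.d k80 k95 k160 2 11))))), (.s k1 k2 0 (.s k85
  k255 14 (.s k169 k253 13 (.s k252 k86 14 (.d k168 k171 k84 0 13)))))] (.c k154 (.q k202 [(.s k1 k2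
  0 (.s k5 k15 2 (.s k9 k13 1 (.s k12 k6 2 (.d k8 k11 k4 0 1))))), (.s k15 k5 2 (.s k85 k255 14 (.s
  k90 k250 11 (.s k240 k165 14 (.d k80 k95 k160 2 11))))), (.s k1 k2 0 (.s k85 k255 14 (.s k169 k253
  13 (.s k252 k86 14 (.d k168 k171 k84 0 13)))))] (.c k90 (.q k218 [(.s k1 k2 0 (.s k5 k15 2 (.s k9
  k13 1 (.s k12 k6 2 (.d k8 k11 k4 0 1))))), (.s k15 k5 2 (.s k255 k85 14 (.s k74 k138 7 (.s k192
  k133 10 (.d k234 k250 k213 3 6))))), (.s k1 k2 0 (.s k85 k255 14 (.s k169 k253 13 (.s k252 k86 14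
  (.d k168 k171 k84 0 13)))))] (.c k74 (.q k122 [(.s k240 k181 10 (.s k250 k234 3 (.d k255 k245 k85
  2 14))), (.s k1 k2 0 (.s k5 k15 2 (.s k9 k13 1 (.s k12 k6 2 (.d k8 k11 k4 0 1)))))] (.c k240 (.l
  (.s k1 k2 0 (.s k85 k255 14 (.s k169 k253 13 (.s k252 k86 14 (.d k168 k171 k84 0 13)))))) .n)) (.c
  k122 (.l (.s k74 k138 7 (.s k15 k5 2 (.s k255 k85 14 (.s k192 k133 10 (.d k234 k250 k213 3 6))))))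
  .n))) (.c k218 (.l (.s k90 k250 11 (.s k15 k5 2 (.s k85 k255 14 (.s k240 k165 14 (.d k80 k95 k160
  2 11)))))) .n))) (.c k202 (.q k154 [(.s k1 k2 0 (.s k5 k15 2 (.s k9 k13 1 (.s k12 k6 2 (.d k8 k11
  k4 0 1))))), (.s k15 k5 2 (.s k85 k255 14 (.s k90 k250 11 (.s k240 k165 14 (.d k80 k95 k160 2
  11))))), (.s k1 k2 0 (.s k85 k255 14 (.s k169 k253 13 (.s k252 k86 14 (.d k168 k171 k84 0 13)))))]
  .n) .n))) (.c k85 (.f k2 k1 0 (.l (.s k86 k254 13 (.s k23 k43 5 (.s k169 k252 14 (.s k149 k212 8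
  (.s k128 k191 6 (.s k129 k189 5 (.d k192 k64 k66 7 8))))))))) (.c k169 (.l (.s k255 k85 14 (.s k43
  k23 5 (.s k171 k87 13 (.s k107 k235 7 (.s k151 k195 13 (.d k191 k127 k131 7 5))))))) (.c k255 (.f
  k2 k1 0 (.l (.s k86 k254 13 (.s k23 k43 5 (.s k149 k212 8 (.s k128 k191 6 (.s k192 k64 7 (.s k129
  k66 8 (.d k169 k252 k189 14 5))))))))) .n)))))) (.c k43 (.q k51 [(.s k2 k1 0 (.s k35 k19 3 (.s k34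
  k17 4 (.s k33 k32 0 (.d k18 k50 k48 3 4))))), (.s k17 k34 4 (.s k21 k42 6 (.s k25 k29 1 (.s k38
  k12 6 (.d k55 k59 k4 1 4))))), (.s k1 k2 0 (.s k21 k42 6 (.s k41 k61 5 (.s k35 k19 3 (.s k38 k44 2
  (.d k55 k59 k4 1 4))))))] (.c k169 (.q k232 [(.s k1 k2 0 (.s k17 k34 4 (.s k33 k49 3 (.s k18 k48 4
  (.d k19 k16 k35 0 3))))), (.s k17 k34 4 (.s k21 k42 6 (.s k25 k29 1 (.s k38 k12 6 (.d k55 k59 k4 1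
  4))))), (.s k1 k2 0 (.s k21 k42 6 (.s k41 k61 5 (.s k35 k19 3 (.s k38 k44 2 (.d k55 k59 k4 1
  4))))))] .n) (.c k232 (.q k169 [(.s k1 k2 0 (.s k17 k34 4 (.s k33 k49 3 (.s k18 k48 4 (.d k19 k16
  k35 0 3))))), (.s k17 k34 4 (.s k21 k42 6 (.s k25 k29 1 (.s k38 k12 6 (.d k55 k59 k4 1 4))))), (.s
  k1 k2 0 (.s k85 k253 13 (.s k170 k255 14 (.s k252 k86 14 (.d k168 k171 k84 0 13)))))] .n) .n)))
  (.c k60 (.q k51 [(.s k1 k2 0 (.s k17 k34 4 (.s k33 k49 3 (.s k19 k35 3 (.d k18 k16 k48 0 4))))),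
  (.s k17 k34 4 (.s k21 k42 6 (.s k25 k29 1 (.s k38 k12 6 (.d k55 k59 k4 1 4))))), (.s k19 k35 3 (.s
  k23 k43 5 (.s k27 k31 1 (.s k39 k15 5 (.d k55 k59 k7 1 3)))))] .n) (.c k61 (.l (.s k2 k1 0 (.s k43
  k23 5 (.s k42 k21 6 (.s k41 k40 0 (.d k22 k62 k60 5 6)))))) (.c k62 (.l (.s k1 k2 0 (.s k23 k43 5
  (.s k21 k42 6 (.s k22 k20 0 (.d k41 k61 k60 5 6)))))) .n)))))))))))))

def t27 : T TT 256 :=
  (.q k12 [(.s k8 k4 1 (.s k46 k29 4 (.s k42 k21 6 (.s k38 k34 1 (.d k25 k59 k51 4 6)))))] (.c k4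
  (.q k60 [(.s k20 k40 5 (.s k21 k42 6 (.s k22 k23 0 (.s k41 k3 6 (.d k61 k62 k1 0 5))))), (.s k28
  k44 3 (.s k29 k46 4 (.s k30 k31 0 (.s k45 k15 4 (.d k61 k62 k13 0 3))))), (.s k20 k40 5 (.s k21
  k42 6 (.s k28 k44 3 (.s k29 k46 4 (.s k16 k24 1 (.d k31 k26 k30 2 0))))))] (.c k31 (.l (.s k20 k40
  5 (.s k21 k42 6 (.s k61 k62 0 (.s k41 k1 5 (.d k22 k23 k3 0 6)))))) .n)) (.c k8 (.q k60 [(.s k40
  k20 5 (.s k62 k61 0 (.s k42 k21 6 (.s k22 k2 5 (.d k41 k43 k3 0 6))))), (.s k28 k44 3 (.s k29 k46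
  4 (.s k30 k31 0 (.s k45 k15 4 (.d k61 k62 k13 0 3))))), (.s k20 k40 5 (.s k21 k42 6 (.s k28 k44 3
  (.s k29 k46 4 (.s k25 k17 1 (.d k22 k23 k19 0 2))))))] (.c k23 (.l (.s k40 k20 5 (.s k62 k61 0 (.s
  k42 k21 6 (.s k22 k2 5 (.d k41 k43 k3 0 6)))))) .n)) (.c k17 (.l (.s k8 k4 1 (.s k42 k21 6 (.s k25
  k59 4 (.s k38 k51 6 (.d k46 k29 k34 4 1)))))) (.c k21 (.q k60 [(.s k4 k8 1 (.s k20 k40 5 (.s k36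
  k52 3 (.s k24 k48 5 (.d k28 k16 k44 1 3))))), (.s k28 k44 3 (.s k29 k46 4 (.s k30 k31 0 (.s k45
  k15 4 (.d k61 k62 k13 0 3)))))] (.c k16 (.l (.s k8 k4 1 (.s k40 k20 5 (.s k24 k56 3 (.s k36 k48 5
  (.d k44 k28 k32 3 1)))))) (.c k28 (.q k42 [(.s k8 k4 1 (.s k46 k29 4 (.s k38 k34 1 (.d k25 k59 k51
  4 6)))), (.s k40 k20 5 (.s k62 k61 0 (.s k22 k2 5 (.d k41 k43 k3 0 6))))] .n) (.c k44 (.q k42 [(.s
  k8 k4 1 (.s k46 k29 4 (.s k38 k34 1 (.d k25 k59 k51 4 6)))), (.s k40 k20 5 (.s k62 k61 0 (.s k22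
  k2 5 (.d k41 k43 k3 0 6))))] .n) .n)))) (.c k25 (.q k60 [(.s k8 k4 1 (.s k40 k20 5 (.s k24 k56 3
  (.s k36 k48 5 (.d k44 k32 k28 1 3))))), (.s k40 k20 5 (.s k42 k21 6 (.s k41 k43 0 (.s k22 k3 6 (.d
  k62 k61 k2 0 5))))), (.s k28 k44 3 (.s k29 k46 4 (.s k30 k31 0 (.s k45 k15 4 (.d k61 k62 k13 0
  3)))))] (.c k24 (.q k26 [(.s k21 k42 6 (.s k28 k44 3 (.s k31 k16 2 (.d k29 k30 k46 0 4)))), (.s
  k28 k44 3 (.s k29 k46 4 (.s k30 k31 0 (.s k45 k15 4 (.d k61 k62 k13 0 3))))), (.s k20 k40 5 (.s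
  k21 k42 6 (.s k61 k62 0 (.s k41 k1 5 (.d k22 k23 k3 0 6)))))] .n) (.c k26 (.q k24 [(.s k8 k4 1 (.d
  k40 k56 k20 3 5)), (.s k28 k44 3 (.s k16 k20 1 (.d k48 k32 k36 3 5)))] (.c k20 (.l (.s k8 k4 1 (.s
  k56 k40 3 (.d k48 k52 k36 1 5)))) .n)) .n))) (.c k29 (.q k60 [(.s k4 k8 1 (.s k20 k40 5 (.s k36
  k52 3 (.s k24 k48 5 (.d k28 k16 k44 1 3))))), (.s k20 k40 5 (.s k21 k42 6 (.s k22 k23 0 (.s k41 k3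
  6 (.d k61 k62 k1 0 5))))), (.s k4 k8 1 (.s k21 k42 6 (.s k38 k55 4 (.s k44 k28 3 (.s k41 k35 2 (.d
  k61 k62 k1 0 5))))))] .n) (.c k34 (.l (.s k4 k8 1 (.s k21 k42 6 (.s k38 k55 4 (.s k25 k51 6 (.d
  k29 k46 k17 4 1)))))) (.c k38 (.q k60 [(.s k4 k8 1 (.s k20 k40 5 (.s k36 k52 3 (.s k24 k48 5 (.d
  k28 k16 k44 1 3))))), (.s k20 k40 5 (.s k21 k42 6 (.s k22 k23 0 (.s k41 k3 6 (.d k61 k62 k1 0
  5))))), (.s k28 k44 3 (.s k29 k46 4 (.s k30 k31 0 (.s k45 k15 4 (.d k61 k62 k13 0 3)))))] .n) (.c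
  k42 (.q k170 [(.s k8 k4 1 (.s k85 k255 14 (.s k89 k251 12 (.s k243 k166 14 (.d k81 k93 k162 1
  12))))), (.s k255 k85 14 (.s k29 k46 4 (.s k93 k174 12 (.s k157 k221 7 (.s k110 k204 12 (.d k127
  k76 k191 4 7)))))), (.s k4 k8 1 (.s k85 k255 14 (.s k166 k247 12 (.s k243 k89 14 (.d k162 k174 k81
  1 12)))))] (.c k85 (.q k60 [(.s k4 k8 1 (.s k20 k40 5 (.s k36 k52 3 (.s k24 k48 5 (.d k28 k16 k44
  1 3))))), (.s k28 k44 3 (.s k29 k46 4 (.s k30 k31 0 (.s k45 k15 4 (.d k61 k62 k13 0 3))))), (.s k8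
  k4 1 (.s k40 k20 5 (.s k89 k251 12 (.s k105 k235 8 (.s k73 k121 3 (.d k195 k150 k134 14 10))))))]
  (.c k64 (.q k127 [(.s k4 k8 1 (.s k20 k40 5 (.s k36 k52 3 (.s k24 k48 5 (.d k28 k16 k44 1 3))))),
  (.s k40 k20 5 (.s k105 k235 8 (.s k61 k62 0 (.s k149 k193 13 (.d k191 k128 k255 6 7))))), (.s k8
  k4 1 (.s k89 k251 12 (.s k29 k46 4 (.s k149 k209 9 (.d k191 k128 k255 6 7)))))] .n) (.c k127 (.q
  k64 [(.s k4 k8 1 (.s k20 k40 5 (.s k36 k52 3 (.s k24 k48 5 (.d k28 k16 k44 1 3))))), (.s k40 k20 5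
  (.s k128 k192 7 (.s k105 k235 8 (.s k61 k62 0 (.d k149 k191 k193 6 13))))), (.s k8 k4 1 (.s k128
  k192 7 (.s k89 k251 12 (.s k29 k46 4 (.d k149 k191 k209 6 9)))))] .n) .n))) (.c k166 (.l (.s k255
  k85 14 (.s k46 k29 4 (.s k174 k93 12 (.s k110 k238 7 (.s k157 k204 12 (.d k191 k127 k140 7
  4))))))) (.c k255 (.q k60 [(.s k8 k4 1 (.s k40 k20 5 (.s k24 k56 3 (.s k36 k48 5 (.d k44 k32 k28 1
  3))))), (.s k28 k44 3 (.s k29 k46 4 (.s k30 k31 0 (.s k45 k15 4 (.d k61 k62 k13 0 3))))), (.s k8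
  k4 1 (.s k40 k20 5 (.s k89 k251 12 (.s k243 k166 14 (.s k105 k235 8 (.d k121 k73 k182 3 10))))))]
  .n) .n)))) (.c k46 (.f k42 k21 6 (.q k60 [(.s k40 k20 5 (.s k62 k61 0 (.s k22 k2 5 (.d k41 k43 k3
  0 6)))), (.s k4 k8 1 (.s k20 k40 5 (.s k36 k52 3 (.s k24 k48 5 (.d k28 k16 k44 1 3))))), (.s k8 k4
  1 (.s k25 k59 4 (.s k28 k44 3 (.s k22 k19 2 (.d k62 k61 k2 0 5)))))] (.c k166 (.q k226 [(.s k40
  k20 5 (.s k62 k61 0 (.s k22 k2 5 (.d k41 k43 k3 0 6)))), (.s k4 k8 1 (.s k20 k40 5 (.s k36 k52 3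
  (.s k24 k48 5 (.d k28 k16 k44 1 3))))), (.s k8 k4 1 (.s k25 k59 4 (.s k28 k44 3 (.s k22 k19 2 (.d
  k62 k61 k2 0 5)))))] .n) (.c k226 (.q k166 [(.s k40 k20 5 (.s k62 k61 0 (.s k22 k2 5 (.d k41 k43
  k3 0 6)))), (.s k4 k8 1 (.s k85 k247 12 (.s k170 k255 14 (.s k243 k89 14 (.d k162 k174 k81 1
  12)))))] .n) .n)))) (.c k51 (.f k42 k21 6 (.q k60 [(.s k40 k20 5 (.s k62 k61 0 (.s k22 k2 5 (.d
  k41 k43 k3 0 6)))), (.s k4 k8 1 (.s k20 k40 5 (.s k36 k52 3 (.s k24 k48 5 (.d k28 k16 k44 1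
  3))))), (.s k8 k4 1 (.s k25 k59 4 (.s k28 k44 3 (.s k22 k19 2 (.d k62 k61 k2 0 5)))))] (.c k15 (.q
  k39 [(.s k40 k20 5 (.s k62 k61 0 (.s k22 k2 5 (.d k41 k43 k3 0 6)))), (.s k4 k8 1 (.s k20 k40 5
  (.s k36 k52 3 (.s k24 k48 5 (.d k28 k16 k44 1 3))))), (.s k8 k4 1 (.s k25 k59 4 (.s k28 k44 3 (.s
  k22 k19 2 (.d k62 k61 k2 0 5)))))] .n) (.c k39 (.q k15 [(.s k13 k14 0 (.s k45 k30 4 (.d k29 k46
  k61 4 3))), (.s k10 k5 2 (.s k26 k58 3 (.s k37 k48 6 (.d k47 k32 k31 2 3))))] .n) .n)))) (.c k55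
  (.l (.s k8 k4 1 (.s k46 k29 4 (.s k42 k21 6 (.s k38 k34 1 (.d k25 k59 k51 4 6)))))) (.c k59 (.l
  (.s k4 k8 1 (.s k29 k46 4 (.s k21 k42 6 (.s k25 k17 1 (.d k38 k55 k51 4 6)))))) .n))))))))))))))

def t31 : T TT 256 :=
  (.q k3 [(.s k1 k2 0 (.s k21 k42 6 (.s k41 k61 5 (.s k22 k60 6 (.d k23 k20 k43 0 5))))), (.s k2 k1
  0 (.s k42 k21 6 (.s k22 k62 5 (.s k41 k60 6 (.d k43 k40 k23 0 5)))))] (.c k1 (.q k51 [(.s k35 k19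
  3 (.s k59 k55 1 (.s k43 k23 5 (.s k27 k11 3 (.d k39 k47 k15 1 5))))), (.s k17 k34 4 (.s k21 k42 6
  (.s k25 k29 1 (.s k38 k12 6 (.d k55 k59 k4 1 4))))), (.s k17 k34 4 (.s k21 k42 6 (.s k19 k35 3 (.s
  k23 k43 5 (.s k25 k29 1 (.d k22 k28 k20 2 0))))))] .n) (.c k2 (.q k51 [(.s k35 k19 3 (.s k59 k55 1
  (.s k43 k23 5 (.s k27 k11 3 (.d k39 k47 k15 1 5))))), (.s k17 k34 4 (.s k21 k42 6 (.s k25 k29 1
  (.s k38 k12 6 (.d k55 k59 k4 1 4))))), (.s k17 k34 4 (.s k21 k42 6 (.s k19 k35 3 (.s k23 k43 5 (.s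
  k25 k29 1 (.d k22 k28 k20 2 0))))))] .n) (.c k21 (.q k51 [(.s k1 k2 0 (.s k17 k34 4 (.s k33 k49 3
  (.s k18 k48 4 (.d k19 k16 k35 0 3))))), (.s k35 k19 3 (.s k59 k55 1 (.s k43 k23 5 (.s k27 k11 3
  (.d k39 k47 k15 1 5)))))] (.c k16 (.q k26 [(.s k2 k1 0 (.s k34 k17 4 (.s k18 k50 3 (.s k33 k48 4
  (.d k35 k19 k32 3 0))))), (.s k43 k23 5 (.s k59 k55 1 (.s k27 k11 3 (.s k39 k15 5 (.d k35 k19 k47
  3 1)))))] (.c k19 (.l (.s k2 k1 0 (.s k34 k17 4 (.s k18 k50 3 (.s k22 k30 1 (.s k62 k42 5 (.d k60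
  k61 k41 0 6))))))) (.c k35 (.l (.s k2 k1 0 (.s k34 k17 4 (.s k18 k50 3 (.s k22 k30 1 (.s k62 k42 5
  (.d k60 k61 k41 0 6))))))) .n))) (.c k19 (.q k27 [(.s k43 k23 5 (.d k59 k55 k11 1 3)), (.s k1 k2 0
  (.s k15 k39 5 (.s k5 k10 2 (.s k9 k13 1 (.s k6 k12 2 (.d k7 k4 k11 0 1))))))] (.c k11 (.l (.s k23
  k43 5 (.s k39 k15 5 (.d k55 k59 k7 1 3)))) (.c k16 (.q k26 [(.s k43 k23 5 (.d k59 k55 k11 1 3)),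
  (.s k15 k39 5 (.s k10 k5 2 (.s k58 k42 3 (.d k48 k53 k37 2 6))))] (.c k17 (.q k18 [(.s k48 k33 4
  (.d k15 k39 k37 5 6)), (.s k43 k23 5 (.d k59 k55 k11 1 3))] (.c k25 (.q k29 [(.s k43 k23 5 (.d k59
  k55 k11 1 3)), (.s k48 k33 4 (.d k15 k39 k37 5 6))] (.c k22 (.q k28 [(.s k15 k39 5 (.d k48 k33 k37
  4 6)), (.s k59 k55 1 (.d k43 k23 k11 5 3))] (.c k20 (.l (.s k23 k43 5 (.s k48 k33 4 (.d k15 k39
  k37 5 6)))) (.c k23 (.q k20 [(.s k60 k40 5 (.d k12 k44 k46 3 4)), (.s k48 k33 4 (.d k15 k39 k37 5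
  6))] .n) .n))) (.c k28 (.l (.s k22 k30 1 (.s k48 k33 4 (.d k15 k39 k37 5 6)))) .n))) (.c k29 (.l
  (.s k25 k24 0 (.s k48 k33 4 (.d k15 k39 k37 5 6)))) .n))) (.c k18 (.l (.s k17 k34 4 (.s k43 k23 5
  (.d k59 k55 k11 1 3)))) .n))) (.c k26 (.q k16 [(.s k43 k23 5 (.d k59 k55 k11 1 3)), (.s k1 k2 0
  (.s k48 k32 3 (.s k17 k34 4 (.d k33 k18 k49 4 3))))] .n) .n)))) (.c k26 (.q k16 [(.s k17 k34 4 (.d
  k19 k18 k35 0 3)), (.s k35 k19 3 (.s k59 k55 1 (.s k43 k23 5 (.s k27 k11 3 (.d k39 k47 k15 1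
  5)))))] (.c k19 (.l (.s k1 k2 0 (.s k48 k32 3 (.s k17 k34 4 (.d k33 k18 k49 4 3))))) (.c k35 (.l
  (.s k17 k34 4 (.s k18 k19 0 (.d k48 k32 k33 3 4)))) .n))) (.c k35 (.q k16 [(.s k17 k34 4 (.s k18
  k19 0 (.d k48 k32 k33 3 4))), (.s k48 k32 3 (.s k49 k50 0 (.s k53 k58 2 (.s k57 k61 1 (.s k54 k60
  2 (.d k55 k52 k59 0 1))))))] (.c k32 (.l (.s k1 k2 0 (.s k17 k34 4 (.s k33 k49 3 (.d k18 k19 k48 0
  4))))) (.c k33 (.l (.s k48 k32 3 (.s k34 k17 4 (.s k49 k50 0 (.s k53 k58 2 (.s k57 k61 1 (.s k54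
  k60 2 (.d k55 k52 k59 0 1)))))))) (.c k34 (.l (.s k48 k32 3 (.s k33 k18 4 (.s k50 k49 0 (.s k58
  k53 2 (.s k54 k62 1 (.s k57 k60 2 (.d k59 k56 k55 0 1)))))))) (.c k48 (.q k170 [(.s k1 k2 0 (.s
  k85 k255 14 (.s k169 k253 13 (.s k252 k86 14 (.d k168 k171 k84 0 13))))), (.s k17 k34 4 (.s k85
  k255 14 (.s k153 k221 9 (.s k136 k187 4 (.d k204 k68 k102 9 14))))), (.s k2 k1 0 (.s k34 k17 4 (.s
  k86 k254 13 (.s k102 k238 9 (.s k70 k118 3 (.d k204 k137 k153 10 14))))))] (.c k186 (.l (.s k2 k1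
  0 (.s k255 k85 14 (.s k86 k254 13 (.s k169 k252 14 (.d k171 k168 k87 0 13)))))) .n)) .n)))))
  .n))))) (.c k22 (.q k51 [(.s k2 k1 0 (.s k34 k17 4 (.s k18 k50 3 (.s k33 k48 4 (.d k35 k32 k19 0
  3))))), (.s k34 k17 4 (.s k42 k21 6 (.s k38 k46 1 (.s k25 k12 6 (.d k59 k55 k8 1 4))))), (.s k35
  k19 3 (.s k59 k55 1 (.s k43 k23 5 (.s k27 k11 3 (.d k39 k47 k15 1 5)))))] .n) (.c k23 (.q k51 [(.s
  k1 k2 0 (.s k17 k34 4 (.s k33 k49 3 (.s k18 k48 4 (.d k19 k16 k35 0 3))))), (.s k17 k34 4 (.s k21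
  k42 6 (.s k25 k29 1 (.s k38 k12 6 (.d k55 k59 k4 1 4))))), (.s k1 k2 0 (.s k21 k42 6 (.s k41 k61 5
  (.s k55 k59 1 (.s k38 k4 4 (.d k35 k19 k44 3 2))))))] (.c k19 (.q k27 [(.s k59 k55 1 (.s k11 k43 3
  (.d k15 k7 k39 1 5))), (.s k17 k34 4 (.s k21 k42 6 (.s k25 k29 1 (.s k38 k12 6 (.d k55 k59 k4 1
  4)))))] (.c k55 (.l (.s k1 k2 0 (.s k15 k39 5 (.s k7 k11 1 (.s k5 k10 2 (.s k9 k13 1 (.d k6 k4 k12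
  0 2))))))) (.c k59 (.l (.s k1 k2 0 (.s k15 k39 5 (.s k5 k10 2 (.s k9 k13 1 (.s k6 k12 2 (.d k7 k4
  k11 0 1))))))) .n))) (.c k27 (.l (.s k19 k35 3 (.s k1 k2 0 (.s k17 k34 4 (.s k33 k49 3 (.d k18 k16
  k48 0 4)))))) .n))) (.c k41 (.q k51 [(.s k1 k2 0 (.s k17 k34 4 (.s k33 k49 3 (.s k18 k48 4 (.d k19
  k16 k35 0 3))))), (.s k17 k34 4 (.s k21 k42 6 (.s k25 k29 1 (.s k38 k12 6 (.d k55 k59 k4 1 4))))),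
  (.s k35 k19 3 (.s k59 k55 1 (.s k43 k23 5 (.s k27 k11 3 (.d k39 k47 k15 1 5)))))] .n) (.c k42 (.q
  k170 [(.s k2 k1 0 (.s k85 k255 14 (.s k86 k254 13 (.s k252 k169 14 (.d k84 k87 k168 0 13))))), (.s
  k255 k85 14 (.s k23 k43 5 (.s k87 k171 13 (.s k151 k215 7 (.s k107 k195 13 (.d k127 k67 k191 5
  7)))))), (.s k1 k2 0 (.s k85 k255 14 (.s k169 k253 13 (.s k252 k86 14 (.d k168 k171 k84 0 13)))))]
  (.c k85 (.f k2 k1 0 (.l (.s k86 k254 13 (.s k23 k43 5 (.s k169 k252 14 (.s k149 k212 8 (.s k128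
  k191 6 (.s k129 k189 5 (.d k192 k64 k66 7 8))))))))) (.c k169 (.l (.s k255 k85 14 (.s k43 k23 5
  (.s k171 k87 13 (.s k107 k235 7 (.s k151 k195 13 (.d k191 k127 k131 7 5))))))) (.c k255 (.f k2 k1
  0 (.l (.s k86 k254 13 (.s k23 k43 5 (.s k149 k212 8 (.s k128 k191 6 (.s k192 k64 7 (.s k129 k66 8
  (.d k169 k252 k189 14 5))))))))) .n)))) (.c k43 (.q k51 [(.s k1 k2 0 (.s k17 k34 4 (.s k33 k49 3
  (.s k18 k48 4 (.d k19 k16 k35 0 3))))), (.s k17 k34 4 (.s k21 k42 6 (.s k25 k29 1 (.s k38 k12 6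
  (.d k55 k59 k4 1 4))))), (.s k1 k2 0 (.s k21 k42 6 (.s k41 k61 5 (.s k35 k19 3 (.s k38 k44 2 (.d
  k55 k59 k4 1 4))))))] (.c k169 (.q k232 [(.s k1 k2 0 (.s k17 k34 4 (.s k33 k49 3 (.s k18 k48 4 (.d
  k19 k16 k35 0 3))))), (.s k17 k34 4 (.s k21 k42 6 (.s k25 k29 1 (.s k38 k12 6 (.d k55 k59 k4 1
  4))))), (.s k1 k2 0 (.s k21 k42 6 (.s k41 k61 5 (.s k35 k19 3 (.s k38 k44 2 (.d k55 k59 k4 1
  4))))))] .n) (.c k232 (.q k169 [(.s k1 k2 0 (.s k17 k34 4 (.s k33 k49 3 (.s k18 k48 4 (.d k19 k16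
  k35 0 3))))), (.s k17 k34 4 (.s k21 k42 6 (.s k25 k29 1 (.s k38 k12 6 (.d k55 k59 k4 1 4))))), (.s
  k1 k2 0 (.s k85 k253 13 (.s k170 k255 14 (.s k252 k86 14 (.d k168 k171 k84 0 13)))))] .n) .n)))
  (.c k60 (.q k51 [(.s k35 k19 3 (.s k59 k55 1 (.s k43 k23 5 (.s k27 k11 3 (.d k39 k47 k15 1 5))))),
  (.s k1 k2 0 (.s k17 k34 4 (.s k33 k49 3 (.s k18 k48 4 (.d k19 k16 k35 0 3))))), (.s k17 k34 4 (.s
  k21 k42 6 (.s k25 k29 1 (.s k38 k12 6 (.d k55 k59 k4 1 4)))))] .n) (.c k61 (.l (.s k2 k1 0 (.s k43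
  k23 5 (.s k42 k21 6 (.s k41 k40 0 (.d k22 k62 k60 5 6)))))) (.c k62 (.l (.s k1 k2 0 (.s k23 k43 5
  (.s k21 k42 6 (.s k22 k20 0 (.d k41 k61 k60 5 6)))))) .n))))))))))))

theorem c23 : rootOK2 k63 k106 k23 t23 = true := by decide +kernel

theorem c26 : rootOK2 k63 k106 k26 t26 = true := by decide +kernel

theorem c27 : rootOK2 k63 k106 k27 t27 = true := by decide +kernel

theorem c31 : rootOK2 k63 k106 k31 t31 = true := by decide +kernel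

def l : List Nat :=
  [k23.c, k26.c, k27.c, k31.c]

theorem ok : AllQ k63.c k106.c l :=
  allQ_cons c23 (allQ_cons c26 (allQ_cons c27 (allQ_cons c31 (allQ_nil _ _))))

end Pool.Agent.TTT.H02
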