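import Pool.Agent.TTT.Sym2

set_option autoImplicit false
set_option maxRecDepth 100000

namespace Pool.Agent.TTT.H03

def t42_1 : T TT 256 :=
  (.f k255 k85 14 (.q k252 [(.s k168 k84 13 (.s k169 k171 0 (.s k86 k3 14 (.d k254 k253 k2 0 13)))),
  (.s k126 k189 8 (.s k127 k191 7 (.s k125 k124 0 (.s k190 k60 8 (.d k254 k253 k62 0 7)))))] (.c k64
  (.l (.s k127 k191 7 (.s k168 k84 13 (.s k169 k171 0 (.s k86 k3 14 (.d k254 k253 k2 0 13)))))) (.c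
  k127 (.q k64 [(.s k168 k84 13 (.s k169 k171 0 (.s k86 k3 14 (.d k254 k253 k2 0 13)))), (.s k192
  k128 7 (.s k84 k168 13 (.s k104 k124 5 (.s k148 k60 13 (.d k212 k232 k20 5 7))))), (.s k128 k192 7
  (.s k189 k126 8 (.s k149 k191 6 (.s k169 k129 5 (.s k254 k253 0 (.d k86 k3 k2 14 13))))))] (.c
  k169 (.l (.s k253 k254 0 (.s k128 k192 7 (.s k168 k84 13 (.s k189 k126 8 (.s k188 k148 5 (.d k191
  k190 k149 0 6))))))) (.c k253 (.q k169 [(.d k168 k171 k84 0 13), (.s k128 k192 7 (.s k189 k126 8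
  (.d k149 k129 k191 5 6)))] .n) .n))) (.c k169 (.l (.s k253 k254 0 (.s k189 k126 8 (.s k125 k61 7
  (.s k190 k60 8 (.d k191 k188 k127 0 7)))))) (.c k253 (.q k169 [(.d k168 k171 k84 0 13), (.s k189
  k126 8 (.s k149 k129 5 (.d k191 k127 k128 7 6)))] (.c k64 (.l (.s k127 k191 7 (.d k168 k171 k84 0
  13))) (.c k127 (.q k64 [(.d k168 k171 k84 0 13), (.s k128 k192 7 (.s k189 k126 8 (.d k149 k129
  k191 5 6)))] .n) .n))) (.c k254 (.l (.s k168 k84 13 (.s k189 k126 8 (.s k169 k171 0 (.s k149 k129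
  5 (.d k191 k128 k127 6 7)))))) .n)))))))

def t42_2 : T TT 256 :=
  (.f k255 k85 14 (.q k195 [(.s k130 k65 8 (.s k150 k190 5 (.s k105 k60 14 (.d k235 k215 k40 5
  8)))), (.s k107 k151 13 (.s k127 k191 7 (.s k87 k67 5 (.s k171 k3 13 (.d k235 k215 k43 5 7))))),
  (.s k130 k65 8 (.s k151 k107 13 (.s k150 k190 5 (.s k149 k148 0 (.d k191 k127 k128 7 6)))))] (.c
  k22 (.q k62 [(.s k130 k65 8 (.s k60 k61 0 (.d k150 k105 k190 14 5))), (.s k107 k151 13 (.s k127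
  k191 7 (.s k87 k67 5 (.s k171 k3 13 (.d k235 k215 k43 5 7)))))] (.c k60 (.l (.s k130 k65 8 (.s
  k151 k107 13 (.s k150 k190 5 (.s k149 k148 0 (.d k191 k128 k127 6 7)))))) (.c k64 (.l (.s k127
  k191 7 (.s k130 k65 8 (.s k60 k61 0 (.d k150 k105 k190 14 5))))) (.c k127 (.q k64 [(.s k130 k65 8
  (.s k60 k61 0 (.d k150 k105 k190 14 5))), (.s k192 k128 7 (.s k65 k130 8 (.s k66 k67 0 (.s k129 k3
  8 (.d k193 k194 k1 0 7))))), (.s k60 k61 0 (.s k40 k20 5 (.d k105 k150 k235 14 8)))] (.c k60 (.l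
  (.s k128 k192 7 (.s k130 k65 8 (.s k151 k107 13 (.s k131 k129 0 (.d k191 k171 k149 5 6)))))) .n))
  .n)))) (.c k62 (.q k22 [(.s k130 k65 8 (.s k150 k190 5 (.s k105 k60 14 (.d k235 k215 k40 5 8)))),
  (.s k107 k151 13 (.s k127 k191 7 (.s k87 k67 5 (.s k171 k3 13 (.d k235 k215 k43 5 7))))), (.s k130
  k65 8 (.s k151 k107 13 (.s k150 k190 5 (.s k149 k148 0 (.d k191 k127 k128 7 6)))))] (.c k64 (.l
  (.s k127 k191 7 (.s k130 k65 8 (.s k150 k190 5 (.s k105 k60 14 (.d k235 k215 k40 5 8)))))) (.c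
  k127 (.q k64 [(.s k130 k65 8 (.s k150 k190 5 (.s k105 k60 14 (.d k235 k215 k40 5 8)))), (.s k192
  k128 7 (.s k65 k130 8 (.s k66 k67 0 (.s k129 k3 8 (.d k193 k194 k1 0 7))))), (.s k128 k192 7 (.s
  k151 k107 13 (.s k149 k191 6 (.s k150 k148 0 (.s k235 k215 5 (.d k105 k60 k40 14 8))))))] (.c k150
  (.q k194 [(.d k192 k193 k128 0 7), (.s k65 k130 8 (.s k107 k151 13 (.s k67 k66 0 (.s k3 k131 7 (.s
  k43 k23 5 (.d k171 k87 k235 13 7))))))] (.c k20 (.l (.s k215 k235 5 (.d k192 k193 k128 0 7))) (.c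
  k128 (.l (.s k192 k193 0 (.s k234 k213 6 (.s k214 k254 5 (.s k233 k252 6 (.d k235 k232 k215 0
  5)))))) (.c k215 (.q k20 [(.d k192 k193 k128 0 7), (.s k60 k40 5 (.s k23 k21 0 (.d k3 k43 k41 5
  6)))] .n) .n)))) (.c k194 (.q k150 [(.d k130 k190 k65 5 8), (.s k105 k60 14 (.d k235 k215 k40 5
  8))] (.c k66 (.l (.d k130 k190 k65 5 8)) (.c k130 (.q k66 [(.s k105 k60 14 (.d k235 k215 k40 5
  8)), (.s k128 k192 7 (.s k149 k191 6 (.d k151 k148 k107 0 13)))] .n) .n))) .n))) (.c k150 (.q k194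
  [(.s k107 k151 13 (.s k127 k191 7 (.s k87 k67 5 (.s k171 k3 13 (.d k235 k215 k43 5 7))))), (.s
  k192 k193 0 (.s k234 k213 6 (.s k214 k254 5 (.s k233 k252 6 (.d k235 k215 k232 5 0)))))] (.c k20
  (.l (.s k215 k235 5 (.s k151 k107 13 (.s k87 k23 7 (.s k171 k3 13 (.d k191 k131 k127 5 7)))))) (.c
  k64 (.l (.s k127 k191 7 (.s k107 k151 13 (.s k87 k67 5 (.s k171 k3 13 (.d k235 k215 k43 5 7))))))
  (.c k127 (.q k64 [(.d k192 k193 k128 0 7), (.s k65 k130 8 (.s k107 k151 13 (.s k67 k66 0 (.s k3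
  k131 7 (.s k43 k23 5 (.d k171 k87 k235 13 7))))))] (.c k20 (.l (.s k215 k235 5 (.d k192 k193 k128
  0 7))) (.c k128 (.l (.s k192 k193 0 (.s k234 k213 6 (.s k214 k254 5 (.s k233 k252 6 (.d k235 k232
  k215 0 5)))))) (.c k215 (.q k20 [(.d k192 k193 k128 0 7), (.s k60 k40 5 (.s k23 k21 0 (.d k3 k43
  k41 5 6)))] .n) .n)))) (.c k149 (.l (.s k151 k107 13 (.s k215 k235 5 (.s k87 k23 7 (.s k171 k3 13
  (.d k191 k131 k127 5 7)))))) (.c k215 (.q k20 [(.s k60 k40 5 (.s k23 k21 0 (.d k3 k43 k41 5 6))),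
  (.s k40 k60 5 (.s k105 k235 8 (.s k193 k192 0 (.s k149 k61 13 (.d k191 k127 k128 7 6))))), (.s k23
  k21 0 (.s k107 k151 13 (.s k127 k191 7 (.s k67 k87 5 (.d k3 k131 k43 7 5)))))] (.c k64 (.l (.s
  k127 k191 7 (.s k60 k40 5 (.s k23 k21 0 (.d k3 k43 k41 5 6))))) (.c k127 (.q k64 [(.d k192 k193
  k128 0 7), (.s k60 k40 5 (.s k23 k21 0 (.d k3 k43 k41 5 6)))] .n) (.c k149 (.l (.s k60 k40 5 (.s
  k192 k193 0 (.s k23 k21 0 (.s k213 k234 6 (.d k3 k43 k41 5 6)))))) .n)))) (.c k235 (.l (.s k65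
  k130 8 (.s k107 k151 13 (.s k127 k191 7 (.s k67 k87 5 (.s k64 k66 0 (.d k192 k193 k128 0 7)))))))
  .n))))))) (.c k194 (.q k150 [(.d k130 k190 k65 5 8), (.s k105 k60 14 (.d k235 k215 k40 5 8))] (.c
  k64 (.l (.s k127 k191 7 (.d k130 k190 k65 5 8))) (.c k66 (.l (.d k130 k190 k65 5 8)) (.c k127 (.q
  k64 [(.d k130 k190 k65 5 8), (.s k105 k60 14 (.d k235 k215 k40 5 8))] (.c k66 (.l (.d k130 k190
  k65 5 8)) (.c k130 (.q k66 [(.s k105 k60 14 (.d k235 k215 k40 5 8)), (.s k128 k192 7 (.s k149 k191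
  6 (.d k151 k148 k107 0 13)))] .n) .n))) (.c k130 (.q k66 [(.s k105 k60 14 (.d k235 k215 k40 5 8)),
  (.s k151 k107 13 (.s k149 k148 0 (.d k191 k127 k128 7 6)))] (.c k64 (.l (.s k127 k191 7 (.s k105
  k60 14 (.d k235 k215 k40 5 8)))) (.c k105 (.l (.s k107 k151 13 (.s k127 k191 7 (.s k87 k67 5 (.s
  k171 k3 13 (.d k235 k215 k43 5 7)))))) (.c k127 (.q k64 [(.s k105 k60 14 (.d k235 k215 k40 5 8)),
  (.s k128 k192 7 (.s k149 k191 6 (.d k151 k148 k107 0 13)))] .n) .n)))) .n))))) .n))))) (.c k64 (.l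
  (.s k127 k191 7 (.s k130 k65 8 (.s k150 k190 5 (.s k105 k60 14 (.d k235 k215 k40 5 8)))))) (.c
  k127 (.q k64 [(.s k130 k65 8 (.s k150 k190 5 (.s k105 k60 14 (.d k235 k215 k40 5 8)))), (.s k192
  k128 7 (.s k65 k130 8 (.s k66 k67 0 (.s k129 k3 8 (.d k193 k194 k1 0 7))))), (.s k128 k192 7 (.s
  k151 k107 13 (.s k149 k191 6 (.s k150 k148 0 (.s k235 k215 5 (.d k105 k60 k40 14 8))))))] (.c k22
  (.q k62 [(.s k130 k65 8 (.s k60 k61 0 (.d k150 k105 k190 14 5))), (.s k192 k128 7 (.s k65 k130 8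
  (.s k66 k67 0 (.s k129 k3 8 (.d k193 k194 k1 0 7))))), (.s k60 k61 0 (.s k40 k20 5 (.d k105 k150
  k235 14 8)))] (.c k60 (.l (.s k128 k192 7 (.s k130 k65 8 (.s k151 k107 13 (.s k131 k129 0 (.d k191
  k171 k149 5 6)))))) .n)) (.c k62 (.q k22 [(.s k130 k65 8 (.s k150 k190 5 (.s k105 k60 14 (.d k235
  k215 k40 5 8)))), (.s k192 k128 7 (.s k65 k130 8 (.s k66 k67 0 (.s k129 k3 8 (.d k193 k194 k1 0
  7))))), (.s k128 k192 7 (.s k151 k107 13 (.s k149 k191 6 (.s k150 k148 0 (.s k235 k215 5 (.d k105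
  k60 k40 14 8))))))] (.c k150 (.q k194 [(.d k192 k193 k128 0 7), (.s k65 k130 8 (.s k107 k151 13
  (.s k67 k66 0 (.s k3 k131 7 (.s k43 k23 5 (.d k171 k87 k235 13 7))))))] (.c k20 (.l (.s k215 k235
  5 (.d k192 k193 k128 0 7))) (.c k128 (.l (.s k192 k193 0 (.s k234 k213 6 (.s k214 k254 5 (.s k233
  k252 6 (.d k235 k232 k215 0 5)))))) (.c k215 (.q k20 [(.d k192 k193 k128 0 7), (.s k60 k40 5 (.s
  k23 k21 0 (.d k3 k43 k41 5 6)))] .n) .n)))) (.c k194 (.q k150 [(.d k130 k190 k65 5 8), (.s k105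
  k60 14 (.d k235 k215 k40 5 8))] (.c k66 (.l (.d k130 k190 k65 5 8)) (.c k130 (.q k66 [(.s k105 k60
  14 (.d k235 k215 k40 5 8)), (.s k128 k192 7 (.s k149 k191 6 (.d k151 k148 k107 0 13)))] .n) .n)))
  .n))) .n))) .n))))))

def t42_3 : T TT 256 :=
  (.f k255 k85 14 (.q k15 [(.s k10 k5 2 (.s k90 k250 11 (.s k175 k95 11 (.d k165 k160 k240 2 14)))),
  (.s k31 k47 3 (.s k95 k175 11 (.s k159 k223 7 (.s k111 k207 11 (.d k127 k79 k191 3 7))))), (.s k10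
  k5 2 (.s k90 k250 11 (.s k31 k47 3 (.s k149 k208 10 (.d k191 k127 k128 7 6)))))] (.c k64 (.l (.s
  k127 k191 7 (.s k10 k5 2 (.s k90 k250 11 (.s k165 k240 14 (.d k175 k160 k95 2 11)))))) (.c k127
  (.q k64 [(.s k10 k5 2 (.s k90 k250 11 (.s k165 k240 14 (.d k175 k160 k95 2 11)))), (.s k192 k128 7
  (.s k74 k133 10 (.s k69 k79 2 (.s k138 k207 10 (.d k10 k5 k202 2 7))))), (.s k128 k192 7 (.s k31
  k47 3 (.s k175 k95 11 (.s k149 k191 6 (.s k90 k208 10 (.d k165 k240 k160 14 2))))))] (.c k95 (.l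
  (.s k10 k5 2 (.s k128 k192 7 (.s k90 k250 11 (.s k31 k47 3 (.d k149 k191 k208 6 10)))))) .n)) (.c
  k165 (.l (.s k47 k31 3 (.s k175 k95 11 (.s k111 k239 7 (.s k159 k207 11 (.d k191 k143 k127 3
  7)))))) .n)))))

def t42_4 : T TT 256 :=
  (.f k255 k85 14 (.q k243 [(.s k162 k81 12 (.s k166 k174 1 (.s k89 k12 14 (.d k251 k247 k8 1
  12)))), (.s k123 k183 9 (.s k127 k191 7 (.s k119 k115 1 (.s k187 k51 9 (.d k251 k247 k59 1 7)))))]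
  (.c k64 (.l (.s k127 k191 7 (.s k162 k81 12 (.s k166 k174 1 (.s k89 k12 14 (.d k251 k247 k8 1
  12)))))) (.c k127 (.q k64 [(.s k162 k81 12 (.s k166 k174 1 (.s k89 k12 14 (.d k251 k247 k8 1
  12)))), (.s k192 k128 7 (.s k81 k162 12 (.s k98 k115 4 (.s k145 k51 12 (.d k209 k226 k17 4 7))))),
  (.s k128 k192 7 (.s k183 k123 9 (.s k149 k191 6 (.s k166 k132 4 (.s k251 k247 1 (.d k89 k12 k8 14
  12))))))] (.c k166 (.l (.s k247 k251 1 (.s k128 k192 7 (.s k162 k81 12 (.s k183 k123 9 (.s k179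
  k145 4 (.d k191 k187 k149 1 6))))))) (.c k247 (.q k166 [(.d k162 k174 k81 1 12), (.s k128 k192 7
  (.s k183 k123 9 (.d k149 k132 k191 4 6)))] .n) .n))) (.c k166 (.l (.s k247 k251 1 (.s k183 k123 9
  (.s k119 k55 7 (.s k187 k51 9 (.d k191 k179 k127 1 7)))))) (.c k247 (.q k166 [(.d k162 k174 k81 1
  12), (.s k183 k123 9 (.s k149 k132 4 (.d k191 k127 k128 7 6)))] (.c k64 (.l (.s k127 k191 7 (.d
  k162 k174 k81 1 12))) (.c k127 (.q k64 [(.d k162 k174 k81 1 12), (.s k128 k192 7 (.s k183 k123 9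
  (.d k149 k132 k191 4 6)))] .n) .n))) (.c k251 (.l (.s k162 k81 12 (.s k183 k123 9 (.s k166 k174 1
  (.s k149 k132 4 (.d k191 k128 k127 6 7)))))) .n)))))))

def t42_5 : T TT 256 :=
  (.q k3 [(.s k1 k2 0 (.s k85 k255 14 (.s k169 k253 13 (.s k168 k171 0 (.d k252 k84 k86 13 14))))),
  (.s k255 k85 14 (.s k23 k43 5 (.s k87 k171 13 (.s k151 k215 7 (.s k107 k195 13 (.d k127 k67 k191 5
  7))))))] (.c k85 (.f k23 k43 5 (.l (.s k2 k1 0 (.s k86 k254 13 (.s k169 k252 14 (.s k149 k212 8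
  (.s k128 k191 6 (.s k129 k189 5 (.d k192 k64 k66 7 8))))))))) (.c k169 (.l (.s k255 k85 14 (.s k43
  k23 5 (.s k171 k87 13 (.s k107 k235 7 (.s k151 k195 13 (.d k191 k127 k131 7 5))))))) (.c k171 (.l
  (.s k2 k1 0 (.s k85 k255 14 (.s k86 k254 13 (.s k252 k169 14 (.d k84 k87 k168 0 13)))))) (.c k255
  (.f k23 k43 5 (.l (.s k2 k1 0 (.s k86 k254 13 (.s k149 k212 8 (.s k128 k191 6 (.s k192 k64 7 (.s
  k129 k66 8 (.d k169 k252 k189 14 5))))))))) .n)))))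

def t42_6 : T TT 256 :=
  (.f k255 k85 14 (.q k252 [(.s k168 k84 13 (.s k169 k171 0 (.s k254 k253 0 (.d k86 k2 k3 13 14)))),
  (.s k126 k189 8 (.s k127 k191 7 (.s k125 k124 0 (.s k190 k60 8 (.d k254 k253 k62 0 7))))), (.s
  k168 k84 13 (.s k189 k126 8 (.s k169 k171 0 (.s k149 k129 5 (.d k191 k127 k128 7 6)))))] (.c k64
  (.l (.s k127 k191 7 (.s k168 k84 13 (.s k169 k171 0 (.s k86 k3 14 (.d k254 k253 k2 0 13)))))) (.c
  k127 (.q k64 [(.s k168 k84 13 (.s k169 k171 0 (.s k254 k253 0 (.d k86 k2 k3 13 14)))), (.s k192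
  k128 7 (.s k84 k168 13 (.s k104 k124 5 (.s k148 k60 13 (.d k212 k232 k20 5 7))))), (.s k128 k192 7
  (.s k189 k126 8 (.s k149 k191 6 (.s k169 k129 5 (.s k254 k253 0 (.d k86 k3 k2 14 13))))))] .n)
  .n))))

def t42_7 : T TT 256 :=
  (.f k255 k85 14 (.q k252 [(.s k168 k84 13 (.s k169 k171 0 (.s k254 k253 0 (.d k86 k2 k3 13 14)))),
  (.s k126 k189 8 (.s k127 k191 7 (.s k125 k124 0 (.s k190 k60 8 (.d k254 k253 k62 0 7))))), (.s
  k168 k84 13 (.s k189 k126 8 (.s k169 k171 0 (.s k149 k129 5 (.d k191 k127 k128 7 6)))))] (.c k64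
  (.l (.s k127 k191 7 (.s k168 k84 13 (.s k169 k171 0 (.s k86 k3 14 (.d k254 k253 k2 0 13)))))) (.c
  k127 (.q k64 [(.s k168 k84 13 (.s k169 k171 0 (.s k254 k253 0 (.d k86 k2 k3 13 14)))), (.s k192
  k128 7 (.s k84 k168 13 (.s k104 k124 5 (.s k148 k60 13 (.d k212 k232 k20 5 7))))), (.s k128 k192 7
  (.s k189 k126 8 (.s k149 k191 6 (.s k169 k129 5 (.s k254 k253 0 (.d k86 k3 k2 14 13))))))] .n)
  .n))))

def t42_8 : T TT 256 :=
  (.f k255 k85 14 (.q k3 [(.s k2 k1 0 (.s k86 k254 13 (.s k169 k252 14 (.d k171 k168 k87 0 13)))),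
  (.s k23 k43 5 (.s k87 k171 13 (.s k151 k215 7 (.s k107 k195 13 (.d k127 k67 k191 5 7))))), (.s k2
  k1 0 (.s k86 k254 13 (.s k23 k43 5 (.s k149 k212 8 (.d k191 k127 k128 7 6)))))] (.c k25 (.q k59
  [(.s k2 k1 0 (.s k86 k254 13 (.s k169 k252 14 (.d k171 k168 k87 0 13)))), (.s k23 k43 5 (.s k87
  k171 13 (.s k151 k215 7 (.s k107 k195 13 (.d k127 k67 k191 5 7))))), (.s k2 k1 0 (.s k86 k254 13
  (.s k23 k43 5 (.s k149 k212 8 (.d k191 k127 k128 7 6)))))] (.c k64 (.l (.s k127 k191 7 (.s k2 k1 0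
  (.s k86 k254 13 (.s k169 k252 14 (.d k171 k168 k87 0 13)))))) (.c k127 (.q k64 [(.s k2 k1 0 (.s
  k86 k254 13 (.s k169 k252 14 (.d k171 k168 k87 0 13)))), (.s k43 k23 5 (.s k27 k11 3 (.s k51 k55 1
  (.s k35 k19 3 (.d k39 k47 k15 1 5)))))] .n) (.c k169 (.l (.s k43 k23 5 (.s k171 k87 13 (.s k107
  k235 7 (.s k151 k195 13 (.d k191 k131 k127 5 7)))))) .n)))) (.c k59 (.q k25 [(.s k2 k1 0 (.s k86
  k254 13 (.s k169 k252 14 (.d k171 k168 k87 0 13)))), (.s k23 k43 5 (.s k87 k171 13 (.s k151 k215 7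
  (.s k107 k195 13 (.d k127 k67 k191 5 7))))), (.s k2 k1 0 (.s k86 k254 13 (.s k23 k43 5 (.s k149
  k212 8 (.d k191 k127 k128 7 6)))))] (.c k64 (.l (.s k127 k191 7 (.s k2 k1 0 (.s k86 k254 13 (.s
  k169 k252 14 (.d k171 k168 k87 0 13)))))) (.c k127 (.q k64 [(.s k2 k1 0 (.s k86 k254 13 (.s k169
  k252 14 (.d k171 k168 k87 0 13)))), (.s k192 k128 7 (.s k66 k129 8 (.s k65 k67 0 (.s k130 k195 8
  (.d k2 k1 k194 0 7))))), (.s k128 k192 7 (.s k23 k43 5 (.s k171 k87 13 (.s k149 k191 6 (.s k86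
  k212 8 (.d k169 k252 k168 14 0))))))] (.c k87 (.l (.s k2 k1 0 (.s k128 k192 7 (.s k86 k254 13 (.s
  k23 k43 5 (.d k149 k191 k212 6 8)))))) (.c k153 (.q k200 [(.s k2 k1 0 (.s k86 k254 13 (.s k169
  k252 14 (.d k171 k168 k87 0 13)))), (.s k192 k128 7 (.s k66 k129 8 (.s k65 k67 0 (.s k130 k195 8
  (.d k2 k1 k194 0 7))))), (.s k128 k192 7 (.s k23 k43 5 (.s k171 k87 13 (.s k149 k191 6 (.s k86
  k212 8 (.d k169 k252 k168 14 0))))))] (.c k17 (.q k221 [(.s k192 k128 7 (.d k204 k196 k238 1 4)),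
  (.s k2 k1 0 (.s k86 k254 13 (.s k169 k252 14 (.d k171 k168 k87 0 13))))] .n) (.c k87 (.l (.s k2 k1
  0 (.s k128 k192 7 (.s k86 k254 13 (.s k23 k43 5 (.d k149 k191 k212 6 8)))))) (.c k221 (.q k17 [(.s
  k51 k34 4 (.s k29 k21 1 (.d k12 k46 k38 4 6))), (.s k2 k1 0 (.s k86 k254 13 (.s k169 k252 14 (.d
  k171 k168 k87 0 13))))] .n) .n)))) (.c k200 (.q k153 [(.s k2 k1 0 (.s k86 k254 13 (.s k169 k252 14
  (.d k171 k168 k87 0 13)))), (.s k136 k187 4 (.s k204 k68 9 (.s k102 k51 14 (.d k238 k221 k34 4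
  9))))] (.c k72 (.l (.s k136 k187 4 (.s k204 k68 9 (.s k102 k51 14 (.d k238 k221 k34 4 9))))) (.c
  k136 (.q k72 [(.s k2 k1 0 (.s k86 k254 13 (.s k169 k252 14 (.d k171 k168 k87 0 13)))), (.s k89
  k217 7 (.s k76 k68 1 (.s k102 k115 6 (.s k34 k238 9 (.d k51 k17 k204 4 14)))))] .n) .n))) .n))))
  (.c k153 (.q k200 [(.s k2 k1 0 (.s k86 k254 13 (.s k169 k252 14 (.d k171 k168 k87 0 13)))), (.s
  k23 k43 5 (.s k87 k171 13 (.s k151 k215 7 (.s k107 k195 13 (.d k127 k67 k191 5 7))))), (.s k2 k1 0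
  (.s k86 k254 13 (.s k23 k43 5 (.s k149 k212 8 (.d k191 k127 k128 7 6)))))] (.c k17 (.q k221 [(.s
  k2 k1 0 (.s k86 k254 13 (.s k169 k252 14 (.d k171 k168 k87 0 13)))), (.s k23 k43 5 (.s k87 k171 13
  (.s k151 k215 7 (.s k107 k195 13 (.d k127 k67 k191 5 7))))), (.s k2 k1 0 (.s k86 k254 13 (.s k23
  k43 5 (.s k149 k212 8 (.d k191 k127 k128 7 6)))))] (.c k64 (.l (.s k127 k191 7 (.s k2 k1 0 (.s k86
  k254 13 (.s k169 k252 14 (.d k171 k168 k87 0 13)))))) (.c k127 (.q k64 [(.s k192 k128 7 (.d k204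
  k196 k238 1 4)), (.s k2 k1 0 (.s k86 k254 13 (.s k169 k252 14 (.d k171 k168 k87 0 13))))] .n) (.c
  k169 (.l (.s k43 k23 5 (.s k171 k87 13 (.s k107 k235 7 (.s k151 k195 13 (.d k191 k131 k127 5
  7)))))) .n)))) (.c k64 (.l (.s k127 k191 7 (.s k2 k1 0 (.s k86 k254 13 (.s k169 k252 14 (.d k171
  k168 k87 0 13)))))) (.c k127 (.q k64 [(.s k2 k1 0 (.s k86 k254 13 (.s k169 k252 14 (.d k171 k168
  k87 0 13)))), (.s k192 k128 7 (.s k66 k129 8 (.s k65 k67 0 (.s k130 k195 8 (.d k2 k1 k194 0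
  7))))), (.s k128 k192 7 (.s k23 k43 5 (.s k171 k87 13 (.s k149 k191 6 (.s k86 k212 8 (.d k169 k252
  k168 14 0))))))] (.c k17 (.q k221 [(.s k192 k128 7 (.d k204 k196 k238 1 4)), (.s k2 k1 0 (.s k86
  k254 13 (.s k169 k252 14 (.d k171 k168 k87 0 13))))] .n) (.c k87 (.l (.s k2 k1 0 (.s k128 k192 7
  (.s k86 k254 13 (.s k23 k43 5 (.d k149 k191 k212 6 8)))))) (.c k221 (.q k17 [(.s k51 k34 4 (.s k29
  k21 1 (.d k12 k46 k38 4 6))), (.s k2 k1 0 (.s k86 k254 13 (.s k169 k252 14 (.d k171 k168 k87 0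
  13))))] .n) .n)))) (.c k169 (.l (.s k43 k23 5 (.s k171 k87 13 (.s k107 k235 7 (.s k151 k195 13 (.d
  k191 k131 k127 5 7)))))) (.c k221 (.q k17 [(.s k51 k34 4 (.s k29 k21 1 (.d k12 k46 k38 4 6))), (.s
  k2 k1 0 (.s k86 k254 13 (.s k169 k252 14 (.d k171 k168 k87 0 13))))] (.c k64 (.l (.s k127 k191 7
  (.s k51 k34 4 (.s k29 k21 1 (.d k12 k46 k38 4 6))))) (.c k127 (.q k64 [(.s k51 k34 4 (.s k29 k21 1
  (.d k12 k46 k38 4 6))), (.s k2 k1 0 (.s k86 k254 13 (.s k169 k252 14 (.d k171 k168 k87 0 13))))]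
  .n) .n))) .n)))))) (.c k169 (.l (.s k43 k23 5 (.s k171 k87 13 (.s k107 k235 7 (.s k151 k195 13 (.d
  k191 k131 k127 5 7)))))) (.c k200 (.q k153 [(.s k2 k1 0 (.s k86 k254 13 (.s k169 k252 14 (.d k171
  k168 k87 0 13)))), (.s k136 k187 4 (.s k204 k68 9 (.s k102 k51 14 (.d k238 k221 k34 4 9))))] (.c
  k64 (.l (.s k127 k191 7 (.s k2 k1 0 (.s k86 k254 13 (.s k169 k252 14 (.d k171 k168 k87 0 13))))))
  (.c k72 (.l (.s k136 k187 4 (.s k204 k68 9 (.s k102 k51 14 (.d k238 k221 k34 4 9))))) (.c k127 (.q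
  k64 [(.s k2 k1 0 (.s k86 k254 13 (.s k169 k252 14 (.d k171 k168 k87 0 13)))), (.s k136 k187 4 (.s
  k204 k68 9 (.s k102 k51 14 (.d k238 k221 k34 4 9))))] (.c k72 (.l (.s k136 k187 4 (.s k204 k68 9
  (.s k102 k51 14 (.d k238 k221 k34 4 9))))) (.c k136 (.q k72 [(.s k2 k1 0 (.s k86 k254 13 (.s k169
  k252 14 (.d k171 k168 k87 0 13)))), (.s k89 k217 7 (.s k76 k68 1 (.s k102 k115 6 (.s k34 k238 9
  (.d k51 k17 k204 4 14)))))] .n) .n))) (.c k136 (.q k72 [(.s k2 k1 0 (.s k86 k254 13 (.s k169 k252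
  14 (.d k171 k168 k87 0 13)))), (.s k23 k43 5 (.s k87 k171 13 (.s k151 k215 7 (.s k107 k195 13 (.d
  k127 k67 k191 5 7))))), (.s k2 k1 0 (.s k86 k254 13 (.s k23 k43 5 (.s k149 k212 8 (.d k191 k127
  k128 7 6)))))] (.c k64 (.l (.s k127 k191 7 (.s k2 k1 0 (.s k86 k254 13 (.s k169 k252 14 (.d k171
  k168 k87 0 13)))))) (.c k127 (.q k64 [(.s k2 k1 0 (.s k86 k254 13 (.s k169 k252 14 (.d k171 k168
  k87 0 13)))), (.s k89 k217 7 (.s k76 k68 1 (.s k102 k115 6 (.s k34 k238 9 (.d k51 k17 k204 4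
  14)))))] .n) (.c k169 (.l (.s k43 k23 5 (.s k171 k87 13 (.s k107 k235 7 (.s k151 k195 13 (.d k191
  k131 k127 5 7)))))) .n)))) .n))))) .n)))))) (.c k64 (.l (.s k127 k191 7 (.s k2 k1 0 (.s k86 k254
  13 (.s k169 k252 14 (.d k171 k168 k87 0 13)))))) (.c k127 (.q k64 [(.s k2 k1 0 (.s k86 k254 13 (.s
  k169 k252 14 (.d k171 k168 k87 0 13)))), (.s k192 k128 7 (.s k66 k129 8 (.s k65 k67 0 (.s k130
  k195 8 (.d k2 k1 k194 0 7))))), (.s k128 k192 7 (.s k23 k43 5 (.s k171 k87 13 (.s k149 k191 6 (.s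
  k86 k212 8 (.d k169 k252 k168 14 0))))))] (.c k25 (.q k59 [(.s k2 k1 0 (.s k86 k254 13 (.s k169
  k252 14 (.d k171 k168 k87 0 13)))), (.s k43 k23 5 (.s k27 k11 3 (.s k51 k55 1 (.s k35 k19 3 (.d
  k39 k47 k15 1 5)))))] .n) (.c k59 (.q k25 [(.s k2 k1 0 (.s k86 k254 13 (.s k169 k252 14 (.d k171
  k168 k87 0 13)))), (.s k192 k128 7 (.s k66 k129 8 (.s k65 k67 0 (.s k130 k195 8 (.d k2 k1 k194 0
  7))))), (.s k128 k192 7 (.s k23 k43 5 (.s k171 k87 13 (.s k149 k191 6 (.s k86 k212 8 (.d k169 k252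
  k168 14 0))))))] (.c k87 (.l (.s k2 k1 0 (.s k128 k192 7 (.s k86 k254 13 (.s k23 k43 5 (.d k149
  k191 k212 6 8)))))) (.c k153 (.q k200 [(.s k2 k1 0 (.s k86 k254 13 (.s k169 k252 14 (.d k171 k168
  k87 0 13)))), (.s k192 k128 7 (.s k66 k129 8 (.s k65 k67 0 (.s k130 k195 8 (.d k2 k1 k194 0
  7))))), (.s k128 k192 7 (.s k23 k43 5 (.s k171 k87 13 (.s k149 k191 6 (.s k86 k212 8 (.d k169 k252
  k168 14 0))))))] (.c k17 (.q k221 [(.s k192 k128 7 (.d k204 k196 k238 1 4)), (.s k2 k1 0 (.s k86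
  k254 13 (.s k169 k252 14 (.d k171 k168 k87 0 13))))] .n) (.c k87 (.l (.s k2 k1 0 (.s k128 k192 7
  (.s k86 k254 13 (.s k23 k43 5 (.d k149 k191 k212 6 8)))))) (.c k221 (.q k17 [(.s k51 k34 4 (.s k29
  k21 1 (.d k12 k46 k38 4 6))), (.s k2 k1 0 (.s k86 k254 13 (.s k169 k252 14 (.d k171 k168 k87 0
  13))))] .n) .n)))) (.c k200 (.q k153 [(.s k2 k1 0 (.s k86 k254 13 (.s k169 k252 14 (.d k171 k168
  k87 0 13)))), (.s k136 k187 4 (.s k204 k68 9 (.s k102 k51 14 (.d k238 k221 k34 4 9))))] (.c k72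
  (.l (.s k136 k187 4 (.s k204 k68 9 (.s k102 k51 14 (.d k238 k221 k34 4 9))))) (.c k136 (.q k72
  [(.s k2 k1 0 (.s k86 k254 13 (.s k169 k252 14 (.d k171 k168 k87 0 13)))), (.s k89 k217 7 (.s k76
  k68 1 (.s k102 k115 6 (.s k34 k238 9 (.d k51 k17 k204 4 14)))))] .n) .n))) .n)))) (.c k87 (.l (.s
  k2 k1 0 (.s k128 k192 7 (.s k86 k254 13 (.s k23 k43 5 (.d k149 k191 k212 6 8)))))) .n)))) (.c k169
  (.l (.s k43 k23 5 (.s k171 k87 13 (.s k107 k235 7 (.s k151 k195 13 (.d k191 k131 k127 5 7))))))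
  .n)))))))

def t42_9 : T TT 256 :=
  (.f k255 k85 14 (.q k252 [(.s k168 k84 13 (.s k169 k171 0 (.s k254 k253 0 (.d k86 k2 k3 13 14)))),
  (.s k126 k189 8 (.s k127 k191 7 (.s k125 k124 0 (.s k190 k60 8 (.d k254 k253 k62 0 7))))), (.s
  k168 k84 13 (.s k189 k126 8 (.s k169 k171 0 (.s k149 k129 5 (.d k191 k127 k128 7 6)))))] (.c k64
  (.l (.s k127 k191 7 (.s k168 k84 13 (.s k169 k171 0 (.s k86 k3 14 (.d k254 k253 k2 0 13)))))) (.c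
  k127 (.q k64 [(.s k168 k84 13 (.s k169 k171 0 (.s k254 k253 0 (.d k86 k2 k3 13 14)))), (.s k192
  k128 7 (.s k84 k168 13 (.s k104 k124 5 (.s k148 k60 13 (.d k212 k232 k20 5 7))))), (.s k128 k192 7
  (.s k189 k126 8 (.s k149 k191 6 (.s k169 k129 5 (.s k254 k253 0 (.d k86 k3 k2 14 13))))))] .n)
  .n))))

def t42_10 : T TT 256 :=
  (.f k255 k85 14 (.q k252 [(.s k168 k84 13 (.s k169 k171 0 (.s k86 k3 14 (.d k254 k253 k2 0 13)))),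
  (.s k126 k189 8 (.s k127 k191 7 (.s k125 k124 0 (.s k190 k60 8 (.d k254 k253 k62 0 7))))), (.s
  k168 k84 13 (.s k189 k126 8 (.s k169 k171 0 (.s k149 k129 5 (.d k191 k127 k128 7 6)))))] (.c k26
  (.q k58 [(.s k168 k84 13 (.s k169 k171 0 (.s k86 k3 14 (.d k254 k253 k2 0 13)))), (.s k48 k53 2
  (.s k32 k16 3 (.s k101 k239 10 (.s k154 k207 14 (.d k186 k138 k117 3 10)))))] (.c k64 (.l (.s k127
  k191 7 (.s k168 k84 13 (.s k169 k171 0 (.s k86 k3 14 (.d k254 k253 k2 0 13)))))) (.c k127 (.q k64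
  [(.s k168 k84 13 (.s k169 k171 0 (.s k86 k3 14 (.d k254 k253 k2 0 13)))), (.s k48 k53 2 (.s k32
  k16 3 (.s k101 k239 10 (.s k154 k207 14 (.d k186 k138 k117 3 10)))))] .n) .n))) (.c k58 (.q k26
  [(.s k168 k84 13 (.s k169 k171 0 (.s k86 k3 14 (.d k254 k253 k2 0 13)))), (.s k126 k189 8 (.s k127
  k191 7 (.s k125 k124 0 (.s k190 k60 8 (.d k254 k253 k62 0 7))))), (.s k168 k84 13 (.s k189 k126 8
  (.s k169 k171 0 (.s k149 k129 5 (.d k191 k127 k128 7 6)))))] (.c k64 (.l (.s k127 k191 7 (.s k168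
  k84 13 (.s k169 k171 0 (.s k86 k3 14 (.d k254 k253 k2 0 13)))))) (.c k127 (.q k64 [(.s k168 k84 13
  (.s k169 k171 0 (.s k86 k3 14 (.d k254 k253 k2 0 13)))), (.s k192 k128 7 (.s k84 k168 13 (.s k104
  k124 5 (.s k148 k60 13 (.d k212 k232 k20 5 7))))), (.s k128 k192 7 (.s k189 k126 8 (.s k149 k191 6
  (.s k169 k129 5 (.s k254 k253 0 (.d k86 k3 k2 14 13))))))] (.c k154 (.q k202 [(.s k168 k84 13 (.s
  k169 k171 0 (.s k86 k3 14 (.d k254 k253 k2 0 13)))), (.s k192 k128 7 (.s k84 k168 13 (.s k104 k124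
  5 (.s k148 k60 13 (.d k212 k232 k20 5 7))))), (.s k128 k192 7 (.s k189 k126 8 (.s k149 k191 6 (.s
  k169 k129 5 (.s k254 k253 0 (.d k86 k3 k2 14 13))))))] (.c k16 (.q k223 [(.s k192 k128 7 (.d k207
  k197 k239 2 3)), (.s k168 k84 13 (.s k169 k171 0 (.s k86 k3 14 (.d k254 k253 k2 0 13))))] .n) (.c
  k223 (.q k16 [(.s k48 k32 3 (.s k31 k21 2 (.d k15 k47 k37 3 6))), (.s k168 k84 13 (.s k169 k171 0
  (.s k86 k3 14 (.d k254 k253 k2 0 13))))] .n) .n))) (.c k202 (.q k154 [(.s k168 k84 13 (.s k169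
  k171 0 (.s k86 k3 14 (.d k254 k253 k2 0 13)))), (.s k138 k186 3 (.s k207 k69 10 (.s k101 k48 14
  (.d k239 k223 k32 3 10))))] (.c k74 (.l (.s k138 k186 3 (.s k207 k69 10 (.s k101 k48 14 (.d k239
  k223 k32 3 10))))) (.c k138 (.q k74 [(.s k168 k84 13 (.s k169 k171 0 (.s k86 k3 14 (.d k254 k253
  k2 0 13)))), (.s k90 k218 7 (.s k79 k69 2 (.s k101 k112 6 (.s k32 k239 10 (.d k48 k16 k207 3
  14)))))] .n) .n))) .n))) (.c k154 (.q k202 [(.s k168 k84 13 (.s k169 k171 0 (.s k86 k3 14 (.d k254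
  k253 k2 0 13)))), (.s k126 k189 8 (.s k127 k191 7 (.s k125 k124 0 (.s k190 k60 8 (.d k254 k253 k62
  0 7))))), (.s k168 k84 13 (.s k189 k126 8 (.s k169 k171 0 (.s k149 k129 5 (.d k191 k127 k128 7
  6)))))] (.c k16 (.q k223 [(.s k126 k189 8 (.s k127 k191 7 (.s k125 k124 0 (.s k190 k60 8 (.d k254
  k253 k62 0 7))))), (.s k168 k84 13 (.s k169 k171 0 (.s k86 k3 14 (.d k254 k253 k2 0 13)))), (.s
  k168 k84 13 (.s k189 k126 8 (.s k169 k171 0 (.s k149 k129 5 (.d k191 k127 k128 7 6)))))] (.c k64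
  (.l (.s k127 k191 7 (.s k168 k84 13 (.s k169 k171 0 (.s k86 k3 14 (.d k254 k253 k2 0 13)))))) (.c
  k127 (.q k64 [(.s k192 k128 7 (.d k207 k197 k239 2 3)), (.s k168 k84 13 (.s k169 k171 0 (.s k86 k3
  14 (.d k254 k253 k2 0 13))))] .n) .n))) (.c k64 (.l (.s k127 k191 7 (.s k168 k84 13 (.s k169 k171
  0 (.s k86 k3 14 (.d k254 k253 k2 0 13)))))) (.c k127 (.q k64 [(.s k168 k84 13 (.s k169 k171 0 (.s
  k86 k3 14 (.d k254 k253 k2 0 13)))), (.s k192 k128 7 (.s k84 k168 13 (.s k104 k124 5 (.s k148 k60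
  13 (.d k212 k232 k20 5 7))))), (.s k128 k192 7 (.s k189 k126 8 (.s k149 k191 6 (.s k169 k129 5 (.s
  k254 k253 0 (.d k86 k3 k2 14 13))))))] (.c k16 (.q k223 [(.s k192 k128 7 (.d k207 k197 k239 2 3)),
  (.s k168 k84 13 (.s k169 k171 0 (.s k86 k3 14 (.d k254 k253 k2 0 13))))] .n) (.c k223 (.q k16 [(.s
  k48 k32 3 (.s k31 k21 2 (.d k15 k47 k37 3 6))), (.s k168 k84 13 (.s k169 k171 0 (.s k86 k3 14 (.d
  k254 k253 k2 0 13))))] .n) .n))) (.c k223 (.q k16 [(.s k48 k32 3 (.s k31 k21 2 (.d k15 k47 k37 3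
  6))), (.s k168 k84 13 (.s k169 k171 0 (.s k86 k3 14 (.d k254 k253 k2 0 13))))] (.c k64 (.l (.s
  k127 k191 7 (.s k48 k32 3 (.s k31 k21 2 (.d k15 k47 k37 3 6))))) (.c k127 (.q k64 [(.s k48 k32 3
  (.s k31 k21 2 (.d k15 k47 k37 3 6))), (.s k168 k84 13 (.s k169 k171 0 (.s k86 k3 14 (.d k254 k253
  k2 0 13))))] .n) .n))) .n))))) (.c k202 (.q k154 [(.s k168 k84 13 (.s k169 k171 0 (.s k86 k3 14
  (.d k254 k253 k2 0 13)))), (.s k138 k186 3 (.s k207 k69 10 (.s k101 k48 14 (.d k239 k223 k32 3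
  10))))] (.c k64 (.l (.s k127 k191 7 (.s k168 k84 13 (.s k169 k171 0 (.s k86 k3 14 (.d k254 k253 k2
  0 13)))))) (.c k74 (.l (.s k138 k186 3 (.s k207 k69 10 (.s k101 k48 14 (.d k239 k223 k32 3 10)))))
  (.c k127 (.q k64 [(.s k168 k84 13 (.s k169 k171 0 (.s k86 k3 14 (.d k254 k253 k2 0 13)))), (.s
  k138 k186 3 (.s k207 k69 10 (.s k101 k48 14 (.d k239 k223 k32 3 10))))] (.c k74 (.l (.s k138 k186
  3 (.s k207 k69 10 (.s k101 k48 14 (.d k239 k223 k32 3 10))))) (.c k138 (.q k74 [(.s k168 k84 13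
  (.s k169 k171 0 (.s k86 k3 14 (.d k254 k253 k2 0 13)))), (.s k90 k218 7 (.s k79 k69 2 (.s k101
  k112 6 (.s k32 k239 10 (.d k48 k16 k207 3 14)))))] .n) .n))) (.c k138 (.q k74 [(.s k168 k84 13 (.s
  k169 k171 0 (.s k86 k3 14 (.d k254 k253 k2 0 13)))), (.s k126 k189 8 (.s k127 k191 7 (.s k125 k124
  0 (.s k190 k60 8 (.d k254 k253 k62 0 7))))), (.s k168 k84 13 (.s k189 k126 8 (.s k169 k171 0 (.s
  k149 k129 5 (.d k191 k127 k128 7 6)))))] (.c k64 (.l (.s k127 k191 7 (.s k168 k84 13 (.s k169 k171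
  0 (.s k86 k3 14 (.d k254 k253 k2 0 13)))))) (.c k127 (.q k64 [(.s k168 k84 13 (.s k169 k171 0 (.s
  k86 k3 14 (.d k254 k253 k2 0 13)))), (.s k90 k218 7 (.s k79 k69 2 (.s k101 k112 6 (.s k32 k239 10
  (.d k48 k16 k207 3 14)))))] .n) .n))) .n))))) .n))))) (.c k64 (.l (.s k127 k191 7 (.s k168 k84 13
  (.s k169 k171 0 (.s k86 k3 14 (.d k254 k253 k2 0 13)))))) (.c k127 (.q k64 [(.s k168 k84 13 (.s
  k169 k171 0 (.s k86 k3 14 (.d k254 k253 k2 0 13)))), (.s k192 k128 7 (.s k84 k168 13 (.s k104 k124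
  5 (.s k148 k60 13 (.d k212 k232 k20 5 7))))), (.s k128 k192 7 (.s k189 k126 8 (.s k149 k191 6 (.s
  k169 k129 5 (.s k254 k253 0 (.d k86 k3 k2 14 13))))))] (.c k26 (.q k58 [(.s k168 k84 13 (.s k169
  k171 0 (.s k86 k3 14 (.d k254 k253 k2 0 13)))), (.s k48 k53 2 (.s k32 k16 3 (.s k101 k239 10 (.s
  k154 k207 14 (.d k186 k138 k117 3 10)))))] .n) (.c k58 (.q k26 [(.s k168 k84 13 (.s k169 k171 0
  (.s k86 k3 14 (.d k254 k253 k2 0 13)))), (.s k192 k128 7 (.s k84 k168 13 (.s k104 k124 5 (.s k148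
  k60 13 (.d k212 k232 k20 5 7))))), (.s k128 k192 7 (.s k189 k126 8 (.s k149 k191 6 (.s k169 k129 5
  (.s k254 k253 0 (.d k86 k3 k2 14 13))))))] (.c k154 (.q k202 [(.s k168 k84 13 (.s k169 k171 0 (.s
  k86 k3 14 (.d k254 k253 k2 0 13)))), (.s k192 k128 7 (.s k84 k168 13 (.s k104 k124 5 (.s k148 k60
  13 (.d k212 k232 k20 5 7))))), (.s k128 k192 7 (.s k189 k126 8 (.s k149 k191 6 (.s k169 k129 5 (.s
  k254 k253 0 (.d k86 k3 k2 14 13))))))] (.c k16 (.q k223 [(.s k192 k128 7 (.d k207 k197 k239 2 3)),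
  (.s k168 k84 13 (.s k169 k171 0 (.s k86 k3 14 (.d k254 k253 k2 0 13))))] .n) (.c k223 (.q k16 [(.s
  k48 k32 3 (.s k31 k21 2 (.d k15 k47 k37 3 6))), (.s k168 k84 13 (.s k169 k171 0 (.s k86 k3 14 (.d
  k254 k253 k2 0 13))))] .n) .n))) (.c k202 (.q k154 [(.s k168 k84 13 (.s k169 k171 0 (.s k86 k3 14
  (.d k254 k253 k2 0 13)))), (.s k138 k186 3 (.s k207 k69 10 (.s k101 k48 14 (.d k239 k223 k32 3
  10))))] (.c k74 (.l (.s k138 k186 3 (.s k207 k69 10 (.s k101 k48 14 (.d k239 k223 k32 3 10)))))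
  (.c k138 (.q k74 [(.s k168 k84 13 (.s k169 k171 0 (.s k86 k3 14 (.d k254 k253 k2 0 13)))), (.s k90
  k218 7 (.s k79 k69 2 (.s k101 k112 6 (.s k32 k239 10 (.d k48 k16 k207 3 14)))))] .n) .n))) .n)))
  .n))) .n))))))

def t42_11 : T TT 256 :=
  (.f k255 k85 14 (.q k243 [(.s k162 k81 12 (.s k166 k174 1 (.s k89 k12 14 (.d k251 k247 k8 1
  12)))), (.s k123 k183 9 (.s k127 k191 7 (.s k119 k115 1 (.s k187 k51 9 (.d k251 k247 k59 1 7))))),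
  (.s k162 k81 12 (.s k183 k123 9 (.s k166 k174 1 (.s k149 k132 4 (.d k191 k127 k128 7 6)))))] (.c
  k64 (.l (.s k127 k191 7 (.s k162 k81 12 (.s k166 k174 1 (.s k89 k12 14 (.d k251 k247 k8 1 12))))))
  (.c k127 (.q k64 [(.s k162 k81 12 (.s k166 k174 1 (.s k89 k12 14 (.d k251 k247 k8 1 12)))), (.s
  k192 k128 7 (.s k81 k162 12 (.s k98 k115 4 (.s k145 k51 12 (.d k209 k226 k17 4 7))))), (.s k128
  k192 7 (.s k183 k123 9 (.s k149 k191 6 (.s k166 k132 4 (.s k251 k247 1 (.d k89 k12 k8 14 12))))))]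
  .n) .n))))

def t42_12 : T TT 256 :=
  (.f k255 k85 14 (.f k127 k191 7 (.q k150 [(.s k190 k130 5 (.s k60 k125 8 (.s k40 k20 5 (.d k105
  k235 k195 8 14)))), (.s k190 k130 5 (.s k125 k60 8 (.s k126 k124 0 (.s k254 k62 7 (.d k252 k253
  k189 0 8)))))] (.c k60 (.l (.s k130 k190 5 (.s k195 k65 8 (.s k107 k151 13 (.s k87 k67 5 (.s k171
  k3 13 (.d k235 k215 k43 5 7))))))) (.c k125 (.l (.s k130 k190 5 (.s k195 k65 8 (.s k105 k60 14 (.d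
  k235 k215 k40 5 8))))) (.c k130 (.q k243 [(.s k123 k183 9 (.s k119 k115 1 (.s k187 k51 9 (.d k251
  k247 k59 1 7)))), (.s k162 k81 12 (.s k166 k174 1 (.s k182 k134 3 (.s k60 k121 10 (.s k40 k20 5
  (.d k105 k195 k235 14 8))))))] .n) (.c k190 (.q k243 [(.s k123 k183 9 (.s k119 k115 1 (.s k187 k51
  9 (.d k251 k247 k59 1 7)))), (.s k162 k81 12 (.s k166 k174 1 (.s k182 k134 3 (.s k60 k121 10 (.s
  k40 k20 5 (.d k105 k195 k235 14 8))))))] (.c k188 (.q k189 [(.s k123 k183 9 (.s k119 k115 1 (.s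
  k187 k51 9 (.d k251 k247 k59 1 7)))), (.s k252 k126 8 (.s k168 k84 13 (.s k169 k171 0 (.s k86 k3
  14 (.d k254 k253 k2 0 13)))))] .n) (.c k189 (.q k188 [(.s k123 k183 9 (.s k119 k115 1 (.s k187 k51
  9 (.d k251 k247 k59 1 7)))), (.s k169 k131 6 (.s k171 k168 0 (.s k3 k87 13 (.s k2 k1 0 (.d k86
  k254 k252 13 14)))))] .n) .n))) .n)))))))

def t42_13 : T TT 256 :=
  (.f k255 k85 14 (.f k127 k191 7 (.q k243 [(.s k123 k183 9 (.s k119 k115 1 (.s k187 k51 9 (.d k251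
  k247 k59 1 7)))), (.s k162 k81 12 (.s k174 k166 1 (.s k93 k12 12 (.s k110 k76 4 (.s k204 k157 12
  (.d k238 k46 k221 7 4))))))] (.c k247 (.l (.s k162 k81 12 (.s k123 k183 9 (.s k119 k115 1 (.s k187
  k51 9 (.s k251 k59 7 (.s k166 k174 1 (.d k89 k8 k12 12 14)))))))) .n))))

def t42_14 : T TT 256 :=
  (.f k255 k85 14 (.f k127 k191 7 (.q k243 [(.s k123 k183 9 (.s k119 k115 1 (.s k187 k51 9 (.d k251
  k247 k59 1 7)))), (.s k162 k81 12 (.s k174 k166 1 (.s k93 k12 12 (.s k110 k76 4 (.s k204 k157 12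
  (.d k238 k46 k221 7 4))))))] (.c k247 (.l (.s k162 k81 12 (.s k123 k183 9 (.s k119 k115 1 (.s k187
  k51 9 (.s k251 k59 7 (.s k166 k174 1 (.d k89 k8 k12 12 14)))))))) .n))))

def t42_15 : T TT 256 :=
  (.f k255 k85 14 (.f k127 k191 7 (.q k243 [(.s k123 k183 9 (.s k119 k115 1 (.s k187 k51 9 (.d k251
  k247 k59 1 7)))), (.s k162 k81 12 (.s k174 k166 1 (.s k93 k12 12 (.s k110 k76 4 (.s k204 k157 12
  (.d k238 k46 k221 7 4))))))] (.c k247 (.l (.s k162 k81 12 (.s k123 k183 9 (.s k119 k115 1 (.s k187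
  k51 9 (.s k251 k59 7 (.s k166 k174 1 (.d k89 k8 k12 12 14)))))))) .n))))

def t42_16 : T TT 256 :=
  (.f k255 k85 14 (.q k207 [(.s k138 k69 10 (.s k154 k186 3 (.s k101 k48 14 (.d k239 k223 k32 3
  10)))), (.s k111 k159 11 (.s k127 k191 7 (.s k95 k79 3 (.s k175 k15 11 (.d k239 k223 k47 3 7)))))]
  (.c k64 (.l (.s k127 k191 7 (.s k138 k69 10 (.s k154 k186 3 (.s k101 k48 14 (.d k239 k223 k32 3
  10)))))) (.c k127 (.q k64 [(.s k138 k69 10 (.s k154 k186 3 (.s k101 k48 14 (.d k239 k223 k32 3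
  10)))), (.s k192 k128 7 (.s k69 k138 10 (.s k74 k79 2 (.s k133 k15 10 (.d k197 k202 k5 2 7))))),
  (.s k128 k192 7 (.s k159 k111 11 (.s k149 k191 6 (.s k154 k144 2 (.s k239 k223 3 (.d k101 k48 k32
  14 10))))))] (.c k154 (.l (.s k223 k239 3 (.s k128 k192 7 (.s k138 k69 10 (.s k159 k111 11 (.s
  k143 k133 2 (.d k191 k175 k149 3 6))))))) (.c k223 (.q k154 [(.d k138 k186 k69 3 10), (.s k128
  k192 7 (.s k159 k111 11 (.d k149 k144 k191 2 6)))] .n) .n))) (.c k154 (.l (.s k223 k239 3 (.s k159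
  k111 11 (.s k95 k31 7 (.s k175 k15 11 (.d k191 k143 k127 3 7)))))) (.c k223 (.q k154 [(.d k138
  k186 k69 3 10), (.s k159 k111 11 (.s k149 k144 2 (.d k191 k127 k128 7 6)))] (.c k64 (.l (.s k127
  k191 7 (.d k138 k186 k69 3 10))) (.c k127 (.q k64 [(.d k138 k186 k69 3 10), (.s k128 k192 7 (.s
  k159 k111 11 (.d k149 k144 k191 2 6)))] .n) .n))) (.c k239 (.l (.s k138 k69 10 (.s k159 k111 11
  (.s k154 k186 3 (.s k149 k144 2 (.d k191 k128 k127 6 7)))))) .n)))))))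

def t42_17 : T TT 256 :=
  (.f k255 k85 14 (.q k204 [(.s k136 k68 9 (.s k153 k187 4 (.s k102 k51 14 (.d k238 k221 k34 4
  9)))), (.s k110 k157 12 (.s k127 k191 7 (.s k93 k76 4 (.s k174 k12 12 (.d k238 k221 k46 4 7)))))]
  (.c k64 (.l (.s k127 k191 7 (.s k136 k68 9 (.s k153 k187 4 (.s k102 k51 14 (.d k238 k221 k34 4
  9)))))) (.c k127 (.q k64 [(.s k136 k68 9 (.s k153 k187 4 (.s k102 k51 14 (.d k238 k221 k34 4
  9)))), (.s k192 k128 7 (.s k68 k136 9 (.s k72 k76 1 (.s k132 k12 9 (.d k196 k200 k4 1 7))))), (.s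
  k128 k192 7 (.s k157 k110 12 (.s k149 k191 6 (.s k153 k145 1 (.s k238 k221 4 (.d k102 k51 k34 14
  9))))))] (.c k153 (.l (.s k221 k238 4 (.s k128 k192 7 (.s k136 k68 9 (.s k157 k110 12 (.s k140
  k132 1 (.d k191 k174 k149 4 6))))))) (.c k221 (.q k153 [(.d k136 k187 k68 4 9), (.s k128 k192 7
  (.s k157 k110 12 (.d k149 k145 k191 1 6)))] .n) .n))) (.c k153 (.l (.s k221 k238 4 (.s k157 k110
  12 (.s k93 k29 7 (.s k174 k12 12 (.d k191 k140 k127 4 7)))))) (.c k221 (.q k153 [(.d k136 k187 k68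
  4 9), (.s k157 k110 12 (.s k149 k145 1 (.d k191 k127 k128 7 6)))] (.c k64 (.l (.s k127 k191 7 (.d
  k136 k187 k68 4 9))) (.c k127 (.q k64 [(.d k136 k187 k68 4 9), (.s k128 k192 7 (.s k157 k110 12
  (.d k149 k145 k191 1 6)))] .n) .n))) (.c k238 (.l (.s k136 k68 9 (.s k157 k110 12 (.s k153 k187 4
  (.s k149 k145 1 (.d k191 k128 k127 6 7)))))) .n)))))))

def t42_18 : T TT 256 :=
  (.f k255 k85 14 (.q k207 [(.s k138 k69 10 (.s k154 k186 3 (.s k239 k223 3 (.d k101 k32 k48 10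
  14)))), (.s k111 k159 11 (.s k127 k191 7 (.s k95 k79 3 (.s k175 k15 11 (.d k239 k223 k47 3 7))))),
  (.s k138 k69 10 (.s k159 k111 11 (.s k154 k186 3 (.s k149 k144 2 (.d k191 k127 k128 7 6)))))] (.c
  k64 (.l (.s k127 k191 7 (.s k138 k69 10 (.s k154 k186 3 (.s k101 k48 14 (.d k239 k223 k32 3
  10)))))) (.c k127 (.q k64 [(.s k138 k69 10 (.s k154 k186 3 (.s k239 k223 3 (.d k101 k32 k48 10
  14)))), (.s k192 k128 7 (.s k69 k138 10 (.s k74 k79 2 (.s k133 k15 10 (.d k197 k202 k5 2 7))))),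
  (.s k128 k192 7 (.s k159 k111 11 (.s k149 k191 6 (.s k154 k144 2 (.s k239 k223 3 (.d k101 k48 k32
  14 10))))))] .n) .n))))

def t42_19 : T TT 256 :=
  (.f k255 k85 14 (.q k207 [(.s k138 k69 10 (.s k154 k186 3 (.s k101 k48 14 (.d k239 k223 k32 3
  10)))), (.s k111 k159 11 (.s k127 k191 7 (.s k95 k79 3 (.s k175 k15 11 (.d k239 k223 k47 3 7))))),
  (.s k138 k69 10 (.s k159 k111 11 (.s k154 k186 3 (.s k149 k144 2 (.d k191 k127 k128 7 6)))))] (.c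
  k64 (.l (.s k127 k191 7 (.s k138 k69 10 (.s k154 k186 3 (.s k101 k48 14 (.d k239 k223 k32 3
  10)))))) (.c k127 (.q k64 [(.s k138 k69 10 (.s k154 k186 3 (.s k101 k48 14 (.d k239 k223 k32 3
  10)))), (.s k192 k128 7 (.s k69 k138 10 (.s k74 k79 2 (.s k133 k15 10 (.d k197 k202 k5 2 7))))),
  (.s k128 k192 7 (.s k159 k111 11 (.s k149 k191 6 (.s k154 k144 2 (.s k239 k223 3 (.d k101 k48 k32
  14 10))))))] .n) .n))))

def t42_20 : T TT 256 :=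
  (.f k255 k85 14 (.q k195 [(.s k130 k65 8 (.s k150 k190 5 (.s k105 k60 14 (.d k235 k215 k40 5
  8)))), (.s k107 k151 13 (.s k127 k191 7 (.s k87 k67 5 (.s k171 k3 13 (.d k235 k215 k43 5 7)))))]
  (.c k64 (.l (.s k127 k191 7 (.s k130 k65 8 (.s k150 k190 5 (.s k105 k60 14 (.d k235 k215 k40 5
  8)))))) (.c k127 (.q k64 [(.s k130 k65 8 (.s k150 k190 5 (.s k105 k60 14 (.d k235 k215 k40 5
  8)))), (.s k192 k128 7 (.s k65 k130 8 (.s k66 k67 0 (.s k129 k3 8 (.d k193 k194 k1 0 7))))), (.s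
  k128 k192 7 (.s k151 k107 13 (.s k149 k191 6 (.s k150 k148 0 (.s k235 k215 5 (.d k105 k60 k40 14
  8))))))] (.c k150 (.l (.s k215 k235 5 (.s k128 k192 7 (.s k130 k65 8 (.s k151 k107 13 (.s k131
  k129 0 (.d k191 k171 k149 5 6))))))) (.c k215 (.q k150 [(.d k130 k190 k65 5 8), (.s k128 k192 7
  (.s k151 k107 13 (.d k149 k148 k191 0 6)))] .n) .n))) (.c k150 (.l (.s k215 k235 5 (.s k151 k107
  13 (.s k87 k23 7 (.s k171 k3 13 (.d k191 k131 k127 5 7)))))) (.c k215 (.q k150 [(.d k130 k190 k65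
  5 8), (.s k151 k107 13 (.s k149 k148 0 (.d k191 k127 k128 7 6)))] (.c k64 (.l (.s k127 k191 7 (.d
  k130 k190 k65 5 8))) (.c k127 (.q k64 [(.d k130 k190 k65 5 8), (.s k128 k192 7 (.s k151 k107 13
  (.d k149 k148 k191 0 6)))] .n) .n))) (.c k235 (.l (.s k130 k65 8 (.s k151 k107 13 (.s k150 k190 5
  (.s k149 k148 0 (.d k191 k128 k127 6 7)))))) .n)))))))

def t42_21 : T TT 256 :=
  (.f k255 k85 14 (.f k127 k191 7 (.q k207 [(.s k111 k159 11 (.s k95 k79 3 (.s k175 k15 11 (.d k239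
  k223 k47 3 7)))), (.s k138 k69 10 (.s k186 k154 3 (.s k117 k48 10 (.s k122 k112 2 (.s k240 k181 10
  (.d k250 k58 k245 7 2))))))] (.c k149 (.q k213 [(.s k138 k69 10 (.s k154 k186 3 (.s k101 k48 14
  (.d k239 k223 k32 3 10)))), (.s k69 k138 10 (.s k192 k234 6 (.s k64 k128 7 (.s k79 k74 2 (.d k111
  k95 k159 3 11))))), (.s k111 k159 11 (.s k95 k79 3 (.s k175 k15 11 (.d k239 k223 k47 3 7))))] .n)
  (.c k213 (.q k149 [(.s k159 k111 11 (.s k154 k144 2 (.d k138 k186 k69 3 10))), (.s k111 k159 11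
  (.s k95 k79 3 (.s k175 k15 11 (.d k239 k223 k47 3 7)))), (.s k138 k69 10 (.s k154 k186 3 (.s k101
  k48 14 (.d k239 k223 k32 3 10))))] .n) (.c k223 (.l (.s k138 k69 10 (.s k111 k159 11 (.s k95 k79 3
  (.s k175 k15 11 (.s k239 k47 7 (.s k154 k186 3 (.d k101 k32 k48 10 14)))))))) .n))))))

def t42_22 : T TT 256 :=
  (.q k195 [(.s k65 k130 8 (.s k85 k255 14 (.s k105 k125 5 (.s k40 k235 8 (.d k60 k20 k150 5
  14))))), (.s k255 k85 14 (.s k107 k151 13 (.s k127 k191 7 (.s k87 k67 5 (.s k171 k3 13 (.d k235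
  k215 k43 5 7)))))), (.s k130 k65 8 (.s k255 k85 14 (.s k151 k107 13 (.s k150 k190 5 (.s k149 k148
  0 (.d k191 k127 k128 7 6))))))] (.c k2 (.q k62 [(.s k130 k65 8 (.s k60 k61 0 (.d k150 k190 k105 5
  14))), (.s k60 k61 0 (.s k40 k20 5 (.s k235 k105 8 (.d k255 k215 k85 5 14)))), (.s k130 k65 8 (.s
  k255 k85 14 (.s k151 k107 13 (.s k150 k190 5 (.s k149 k148 0 (.d k191 k127 k128 7 6))))))] (.c
  k105 (.l (.s k130 k65 8 (.s k60 k61 0 (.s k190 k150 5 (.d k255 k125 k85 8 14))))) .n)) (.c k62 (.q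
  k2 [(.s k65 k130 8 (.s k85 k255 14 (.s k105 k125 5 (.s k40 k235 8 (.d k60 k150 k20 14 5))))), (.s
  k3 k1 0 (.s k130 k65 8 (.s k131 k67 7 (.s k129 k128 0 (.d k66 k194 k192 7 8))))), (.s k3 k1 0 (.s
  k85 k255 14 (.s k86 k254 13 (.s k252 k169 14 (.d k84 k87 k168 0 13)))))] (.c k150 (.q k194 [(.d
  k130 k66 k65 7 8), (.s k255 k85 14 (.s k254 k86 13 (.s k214 k234 5 (.d k252 k253 k233 0 6))))] (.c
  k66 (.l (.s k1 k3 0 (.s k65 k130 8 (.d k193 k192 k129 0 7)))) (.c k86 (.q k214 [(.d k130 k66 k65 7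
  8), (.s k255 k85 14 (.s k192 k193 0 (.d k234 k254 k213 5 6)))] (.c k66 (.q k126 [(.d k252 k233
  k189 6 8), (.s k65 k130 8 (.s k193 k192 0 (.d k1 k3 k129 0 7)))] .n) (.c k126 (.l (.s k66 k130 7
  (.s k3 k1 0 (.d k192 k193 k129 0 8)))) .n))) (.c k214 (.l (.s k86 k254 13 (.d k130 k66 k65 7 8)))
  .n)))) (.c k194 (.q k150 [(.d k130 k190 k65 5 8), (.s k85 k255 14 (.s k20 k215 8 (.d k60 k40 k105
  5 14)))] .n) .n))) (.c k85 (.q k2 [(.s k3 k1 0 (.s k130 k65 8 (.s k131 k67 7 (.s k129 k128 0 (.d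
  k66 k194 k192 7 8))))), (.s k3 k1 0 (.s k86 k254 13 (.s k43 k23 5 (.s k169 k252 14 (.s k107 k151
  13 (.d k171 k168 k235 0 7)))))), (.s k130 k65 8 (.s k194 k66 7 (.s k151 k107 13 (.s k150 k190 5
  (.s k105 k60 14 (.s k149 k148 0 (.d k193 k192 k61 0 13)))))))] (.c k3 (.l (.s k130 k65 8 (.s k194
  k66 7 (.s k151 k107 13 (.s k150 k190 5 (.s k148 k149 0 (.s k192 k193 0 (.d k60 k104 k105 13
  14)))))))) (.c k64 (.q k127 [(.s k3 k1 0 (.s k67 k131 7 (.d k107 k87 k151 5 13))), (.s k130 k65 8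
  (.s k151 k107 13 (.s k191 k255 7 (.s k128 k149 6 (.d k131 k129 k171 0 5))))), (.s k3 k1 0 (.s k86
  k254 13 (.s k23 k43 5 (.s k149 k212 8 (.d k191 k128 k255 6 7)))))] .n) (.c k127 (.q k64 [(.s k3 k1
  0 (.s k65 k130 8 (.d k67 k66 k131 0 7))), (.s k192 k128 7 (.s k130 k65 8 (.d k194 k193 k66 0 7)))]
  (.c k65 (.l (.s k192 k128 7 (.s k194 k193 0 (.s k66 k130 7 (.d k3 k1 k129 0 8))))) (.c k66 (.l (.s
  k1 k3 0 (.s k192 k128 7 (.s k65 k130 8 (.d k193 k129 k194 7 0))))) (.c k130 (.l (.s k3 k1 0 (.s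
  k67 k131 7 (.s k66 k65 0 (.d k192 k128 k129 7 8))))) .n)))) .n)))) (.c k255 (.q k2 [(.s k3 k1 0
  (.s k130 k65 8 (.s k131 k67 7 (.s k129 k128 0 (.d k66 k194 k192 7 8))))), (.s k3 k1 0 (.s k86 k254
  13 (.s k43 k23 5 (.s k107 k151 13 (.s k171 k235 7 (.d k169 k252 k168 14 0)))))), (.s k130 k65 8
  (.s k194 k66 7 (.s k151 k107 13 (.s k150 k190 5 (.s k149 k148 0 (.s k128 k191 6 (.d k192 k64 k193
  7 0)))))))] .n) .n)))))

def t42_23 : T TT 256 :=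
  (.f k255 k85 14 (.f k127 k191 7 (.q k207 [(.s k111 k159 11 (.s k95 k79 3 (.s k175 k15 11 (.d k239
  k223 k47 3 7)))), (.s k138 k69 10 (.s k186 k154 3 (.s k117 k48 10 (.s k122 k112 2 (.s k240 k181 10
  (.d k250 k58 k245 7 2))))))] (.c k223 (.l (.s k138 k69 10 (.s k111 k159 11 (.s k95 k79 3 (.s k175
  k15 11 (.s k239 k47 7 (.s k154 k186 3 (.d k101 k32 k48 10 14)))))))) .n))))

def t42_24 : T TT 256 :=
  (.f k255 k85 14 (.f k127 k191 7 (.q k207 [(.s k111 k159 11 (.s k95 k79 3 (.s k175 k15 11 (.d k239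
  k223 k47 3 7)))), (.s k138 k69 10 (.s k186 k154 3 (.s k117 k48 10 (.s k122 k112 2 (.s k240 k181 10
  (.d k250 k58 k245 7 2))))))] (.c k223 (.l (.s k138 k69 10 (.s k111 k159 11 (.s k95 k79 3 (.s k175
  k15 11 (.s k239 k47 7 (.s k154 k186 3 (.d k101 k32 k48 10 14)))))))) .n))))

def t42_25 : T TT 256 :=
  (.f k255 k85 14 (.q k12 [(.s k8 k4 1 (.s k89 k251 12 (.s k166 k243 14 (.d k174 k162 k93 1 12)))),
  (.s k29 k46 4 (.s k93 k174 12 (.s k157 k221 7 (.s k110 k204 12 (.d k127 k76 k191 4 7))))), (.s k8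
  k4 1 (.s k89 k251 12 (.s k29 k46 4 (.s k149 k209 9 (.d k191 k127 k128 7 6)))))] (.c k8 (.q k59
  [(.s k51 k55 1 (.s k187 k119 9 (.s k123 k251 7 (.s k183 k243 9 (.d k191 k127 k179 7 1))))), (.s
  k29 k46 4 (.s k93 k174 12 (.s k157 k221 7 (.s k110 k204 12 (.d k127 k76 k191 4 7)))))] (.c k64 (.l
  (.s k127 k191 7 (.s k29 k46 4 (.s k93 k174 12 (.s k157 k221 7 (.d k110 k76 k204 4 12)))))) (.c
  k127 (.q k64 [(.s k51 k55 1 (.s k34 k17 4 (.s k102 k238 9 (.s k153 k204 14 (.d k187 k136 k119 4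
  9))))), (.s k128 k192 7 (.s k29 k46 4 (.s k174 k93 12 (.s k149 k191 6 (.s k89 k209 9 (.d k166 k243
  k162 14 1))))))] (.c k29 (.l (.s k51 k55 1 (.s k187 k119 9 (.s k153 k136 4 (.s k102 k204 14 (.d
  k34 k17 k238 4 9)))))) (.c k34 (.l (.s k128 k192 7 (.s k46 k29 4 (.s k174 k93 12 (.s k110 k238 7
  (.s k157 k204 12 (.d k191 k140 k149 4 6))))))) .n))) (.c k191 (.l (.s k46 k29 4 (.s k174 k93 12
  (.s k238 k110 7 (.s k51 k55 1 (.d k34 k17 k102 4 9)))))) .n)))) (.c k59 (.l (.s k8 k4 1 (.s k89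
  k251 12 (.s k166 k243 14 (.d k174 k162 k93 1 12))))) (.c k64 (.l (.s k127 k191 7 (.s k8 k4 1 (.s
  k89 k251 12 (.s k166 k243 14 (.d k174 k162 k93 1 12)))))) (.c k127 (.q k64 [(.s k8 k4 1 (.s k89
  k251 12 (.s k166 k243 14 (.d k174 k162 k93 1 12)))), (.s k192 k128 7 (.s k72 k132 9 (.s k68 k76 1
  (.s k136 k204 9 (.d k8 k4 k200 1 7)))))] (.c k4 (.l (.s k128 k192 7 (.s k29 k46 4 (.s k174 k93 12
  (.s k149 k191 6 (.s k89 k209 9 (.d k166 k243 k162 14 1))))))) (.c k8 (.q k59 [(.s k51 k55 1 (.s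
  k34 k17 4 (.s k102 k238 9 (.s k153 k204 14 (.d k187 k136 k119 4 9))))), (.s k128 k192 7 (.s k29
  k46 4 (.s k174 k93 12 (.s k149 k191 6 (.s k89 k209 9 (.d k166 k243 k162 14 1))))))] (.c k29 (.l
  (.s k51 k55 1 (.s k187 k119 9 (.s k153 k136 4 (.s k102 k204 14 (.d k34 k17 k238 4 9)))))) (.c k34
  (.l (.s k128 k192 7 (.s k46 k29 4 (.s k174 k93 12 (.s k110 k238 7 (.s k157 k204 12 (.d k191 k140
  k149 4 6))))))) .n))) (.c k59 (.l (.s k8 k4 1 (.s k89 k251 12 (.s k166 k243 14 (.d k174 k162 k93 1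
  12))))) (.c k93 (.l (.s k8 k4 1 (.s k128 k192 7 (.s k89 k251 12 (.s k29 k46 4 (.d k149 k191 k209 6
  9)))))) .n))))) (.c k166 (.l (.s k46 k29 4 (.s k174 k93 12 (.s k110 k238 7 (.s k157 k204 12 (.d
  k191 k140 k127 4 7)))))) .n)))))))

def t42_26 : T TT 256 :=
  (.q k3 [(.s k2 k1 0 (.s k85 k255 14 (.s k86 k254 13 (.s k252 k169 14 (.d k84 k87 k168 0 13))))),
  (.s k255 k85 14 (.s k23 k43 5 (.s k87 k171 13 (.s k151 k215 7 (.s k107 k195 13 (.d k127 k67 k191 5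
  7)))))), (.s k1 k2 0 (.s k85 k255 14 (.s k169 k253 13 (.s k252 k86 14 (.d k168 k171 k84 0 13)))))]
  (.c k10 (.q k58 [(.s k2 k1 0 (.s k85 k255 14 (.s k86 k254 13 (.s k252 k169 14 (.d k84 k87 k168 0
  13))))), (.s k85 k255 14 (.s k48 k53 2 (.s k16 k32 3 (.s k154 k223 10 (.s k207 k101 14 (.d k138
  k186 k69 3 10)))))), (.s k1 k2 0 (.s k48 k53 2 (.s k32 k16 3 (.s k33 k18 4 (.s k17 k49 3 (.d k34
  k35 k51 0 4))))))] .n) (.c k58 (.q k10 [(.s k1 k2 0 (.s k5 k15 2 (.s k9 k13 1 (.s k12 k6 2 (.d k8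
  k11 k4 0 1))))), (.s k15 k5 2 (.s k85 k255 14 (.s k90 k250 11 (.s k240 k165 14 (.d k80 k95 k160 2
  11))))), (.s k1 k2 0 (.s k85 k255 14 (.s k169 k253 13 (.s k252 k86 14 (.d k168 k171 k84 0 13)))))]
  (.c k154 (.q k202 [(.s k1 k2 0 (.s k5 k15 2 (.s k9 k13 1 (.s k12 k6 2 (.d k8 k11 k4 0 1))))), (.s
  k15 k5 2 (.s k85 k255 14 (.s k90 k250 11 (.s k240 k165 14 (.d k80 k95 k160 2 11))))), (.s k1 k2 0
  (.s k85 k255 14 (.s k169 k253 13 (.s k252 k86 14 (.d k168 k171 k84 0 13)))))] (.c k90 (.q k218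
  [(.s k1 k2 0 (.s k5 k15 2 (.s k9 k13 1 (.s k12 k6 2 (.d k8 k11 k4 0 1))))), (.s k15 k5 2 (.s k255
  k85 14 (.s k74 k138 7 (.s k192 k133 10 (.d k234 k250 k213 3 6))))), (.s k1 k2 0 (.s k85 k255 14
  (.s k169 k253 13 (.s k252 k86 14 (.d k168 k171 k84 0 13)))))] (.c k74 (.q k122 [(.s k240 k181 10
  (.s k250 k234 3 (.d k255 k245 k85 2 14))), (.s k1 k2 0 (.s k5 k15 2 (.s k9 k13 1 (.s k12 k6 2 (.d
  k8 k11 k4 0 1)))))] (.c k240 (.l (.s k1 k2 0 (.s k85 k255 14 (.s k169 k253 13 (.s k252 k86 14 (.d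
  k168 k171 k84 0 13)))))) .n)) (.c k122 (.l (.s k74 k138 7 (.s k15 k5 2 (.s k255 k85 14 (.s k192
  k133 10 (.d k234 k250 k213 3 6)))))) .n))) (.c k218 (.l (.s k90 k250 11 (.s k15 k5 2 (.s k85 k255
  14 (.s k240 k165 14 (.d k80 k95 k160 2 11)))))) .n))) (.c k202 (.q k154 [(.s k1 k2 0 (.s k5 k15 2
  (.s k9 k13 1 (.s k12 k6 2 (.d k8 k11 k4 0 1))))), (.s k15 k5 2 (.s k85 k255 14 (.s k90 k250 11 (.s
  k240 k165 14 (.d k80 k95 k160 2 11))))), (.s k1 k2 0 (.s k85 k255 14 (.s k169 k253 13 (.s k252 k86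
  14 (.d k168 k171 k84 0 13)))))] .n) .n))) (.c k85 (.q k10 [(.s k1 k2 0 (.s k5 k15 2 (.s k9 k13 1
  (.s k12 k6 2 (.d k8 k11 k4 0 1))))), (.s k15 k5 2 (.s k7 k11 1 (.s k23 k43 5 (.s k39 k55 3 (.s k27
  k51 5 (.d k31 k19 k47 1 3)))))), (.s k2 k1 0 (.s k14 k6 1 (.s k86 k254 13 (.s k90 k250 11 (.s k242
  k166 13 (.d k82 k94 k162 1 11))))))] (.c k64 (.q k127 [(.s k1 k2 0 (.s k5 k15 2 (.s k9 k13 1 (.s
  k12 k6 2 (.d k8 k11 k4 0 1))))), (.s k2 k1 0 (.s k86 k254 13 (.s k23 k43 5 (.s k149 k212 8 (.d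
  k191 k128 k255 6 7))))), (.s k15 k5 2 (.s k90 k250 11 (.s k31 k47 3 (.s k149 k208 10 (.d k191 k128
  k255 6 7)))))] .n) (.c k127 (.q k64 [(.s k1 k2 0 (.s k5 k15 2 (.s k9 k13 1 (.s k12 k6 2 (.d k8 k11
  k4 0 1))))), (.s k2 k1 0 (.s k128 k192 7 (.s k86 k254 13 (.s k23 k43 5 (.d k149 k191 k212 6
  8))))), (.s k15 k5 2 (.s k128 k192 7 (.s k90 k250 11 (.s k31 k47 3 (.d k149 k191 k208 6 10)))))]
  .n) .n))) (.c k169 (.l (.s k255 k85 14 (.s k43 k23 5 (.s k171 k87 13 (.s k107 k235 7 (.s k151 k195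
  13 (.d k191 k127 k131 7 5))))))) (.c k255 (.q k10 [(.s k2 k1 0 (.s k15 k5 2 (.s k6 k14 1 (.s k9
  k12 2 (.d k11 k8 k7 0 1))))), (.s k15 k5 2 (.s k7 k11 1 (.s k23 k43 5 (.s k39 k55 3 (.s k27 k51 5
  (.d k31 k19 k47 1 3)))))), (.s k2 k1 0 (.s k14 k6 1 (.s k86 k254 13 (.s k90 k250 11 (.s k242 k166
  13 (.d k82 k94 k162 1 11))))))] .n) .n))))))

def t42_27 : T TT 256 :=
  (.f k255 k85 14 (.q k252 [(.s k168 k84 13 (.s k169 k171 0 (.s k86 k3 14 (.d k254 k253 k2 0 13)))),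
  (.s k126 k189 8 (.s k127 k191 7 (.s k125 k124 0 (.s k190 k60 8 (.d k254 k253 k62 0 7))))), (.s
  k168 k84 13 (.s k189 k126 8 (.s k169 k171 0 (.s k149 k129 5 (.d k191 k127 k128 7 6)))))] (.c k64
  (.l (.s k127 k191 7 (.s k168 k84 13 (.s k169 k171 0 (.s k86 k3 14 (.d k254 k253 k2 0 13)))))) (.c
  k127 (.q k64 [(.s k168 k84 13 (.s k169 k171 0 (.s k86 k3 14 (.d k254 k253 k2 0 13)))), (.s k192
  k128 7 (.s k84 k168 13 (.s k104 k124 5 (.s k148 k60 13 (.d k212 k232 k20 5 7))))), (.s k128 k192 7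
  (.s k189 k126 8 (.s k149 k191 6 (.s k169 k129 5 (.s k254 k253 0 (.d k86 k3 k2 14 13))))))] .n)
  .n))))

def t42_28 : T TT 256 :=
  (.f k255 k85 14 (.q k12 [(.s k8 k4 1 (.s k89 k251 12 (.s k166 k243 14 (.d k174 k162 k93 1 12)))),
  (.s k29 k46 4 (.s k93 k174 12 (.s k157 k221 7 (.s k110 k204 12 (.d k127 k76 k191 4 7))))), (.s k8
  k4 1 (.s k89 k251 12 (.s k29 k46 4 (.s k149 k209 9 (.d k191 k127 k128 7 6)))))] (.c k64 (.l (.s
  k127 k191 7 (.s k8 k4 1 (.s k89 k251 12 (.s k166 k243 14 (.d k174 k162 k93 1 12)))))) (.c k127 (.q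
  k64 [(.s k8 k4 1 (.s k89 k251 12 (.s k166 k243 14 (.d k174 k162 k93 1 12)))), (.s k192 k128 7 (.s
  k72 k132 9 (.s k68 k76 1 (.s k136 k204 9 (.d k8 k4 k200 1 7))))), (.s k128 k192 7 (.s k29 k46 4
  (.s k174 k93 12 (.s k149 k191 6 (.s k89 k209 9 (.d k166 k243 k162 14 1))))))] (.c k93 (.l (.s k8
  k4 1 (.s k128 k192 7 (.s k89 k251 12 (.s k29 k46 4 (.d k149 k191 k209 6 9)))))) .n)) (.c k166 (.l
  (.s k46 k29 4 (.s k174 k93 12 (.s k110 k238 7 (.s k157 k204 12 (.d k191 k140 k127 4 7))))))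
  .n)))))

def t42_29 : T TT 256 :=
  (.f k255 k85 14 (.q k252 [(.s k168 k84 13 (.s k169 k171 0 (.s k86 k3 14 (.d k254 k253 k2 0 13)))),
  (.s k126 k189 8 (.s k127 k191 7 (.s k125 k124 0 (.s k190 k60 8 (.d k254 k253 k62 0 7))))), (.s
  k168 k84 13 (.s k189 k126 8 (.s k169 k171 0 (.s k149 k129 5 (.d k191 k127 k128 7 6)))))] (.c k64
  (.l (.s k127 k191 7 (.s k168 k84 13 (.s k169 k171 0 (.s k86 k3 14 (.d k254 k253 k2 0 13)))))) (.c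
  k127 (.q k64 [(.s k168 k84 13 (.s k169 k171 0 (.s k86 k3 14 (.d k254 k253 k2 0 13)))), (.s k192
  k128 7 (.s k84 k168 13 (.s k104 k124 5 (.s k148 k60 13 (.d k212 k232 k20 5 7))))), (.s k128 k192 7
  (.s k189 k126 8 (.s k149 k191 6 (.s k169 k129 5 (.s k254 k253 0 (.d k86 k3 k2 14 13))))))] .n)
  .n))))

def t42_30 : T TT 256 :=
  (.f k255 k85 14 (.q k12 [(.s k8 k4 1 (.s k89 k251 12 (.s k166 k243 14 (.d k174 k162 k93 1 12)))),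
  (.s k29 k46 4 (.s k93 k174 12 (.s k157 k221 7 (.s k110 k204 12 (.d k127 k76 k191 4 7))))), (.s k8
  k4 1 (.s k89 k251 12 (.s k29 k46 4 (.s k149 k209 9 (.d k191 k127 k128 7 6)))))] (.c k64 (.l (.s
  k127 k191 7 (.s k8 k4 1 (.s k89 k251 12 (.s k166 k243 14 (.d k174 k162 k93 1 12)))))) (.c k127 (.q
  k64 [(.s k8 k4 1 (.s k89 k251 12 (.s k166 k243 14 (.d k174 k162 k93 1 12)))), (.s k192 k128 7 (.s
  k72 k132 9 (.s k68 k76 1 (.s k136 k204 9 (.d k8 k4 k200 1 7))))), (.s k128 k192 7 (.s k29 k46 4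
  (.s k174 k93 12 (.s k149 k191 6 (.s k89 k209 9 (.d k166 k243 k162 14 1))))))] (.c k93 (.l (.s k8
  k4 1 (.s k128 k192 7 (.s k89 k251 12 (.s k29 k46 4 (.d k149 k191 k209 6 9)))))) .n)) (.c k166 (.l
  (.s k46 k29 4 (.s k174 k93 12 (.s k110 k238 7 (.s k157 k204 12 (.d k191 k140 k127 4 7))))))
  .n)))))

def t42_31 : T TT 256 :=
  (.f k255 k85 14 (.q k252 [(.s k168 k84 13 (.s k169 k171 0 (.s k86 k3 14 (.d k254 k253 k2 0 13)))),
  (.s k126 k189 8 (.s k127 k191 7 (.s k125 k124 0 (.s k190 k60 8 (.d k254 k253 k62 0 7))))), (.s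
  k168 k84 13 (.s k189 k126 8 (.s k169 k171 0 (.s k149 k129 5 (.d k191 k127 k128 7 6)))))] (.c k64
  (.l (.s k127 k191 7 (.s k168 k84 13 (.s k169 k171 0 (.s k86 k3 14 (.d k254 k253 k2 0 13)))))) (.c
  k127 (.q k64 [(.s k168 k84 13 (.s k169 k171 0 (.s k86 k3 14 (.d k254 k253 k2 0 13)))), (.s k192
  k128 7 (.s k84 k168 13 (.s k104 k124 5 (.s k148 k60 13 (.d k212 k232 k20 5 7))))), (.s k128 k192 7
  (.s k189 k126 8 (.s k149 k191 6 (.s k169 k129 5 (.s k254 k253 0 (.d k86 k3 k2 14 13))))))] .n)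
  .n))))

def t42_32 : T TT 256 :=
  (.f k255 k85 14 (.f k127 k191 7 (.q k243 [(.s k123 k183 9 (.s k119 k115 1 (.s k187 k51 9 (.d k251
  k247 k59 1 7)))), (.s k162 k81 12 (.s k174 k166 1 (.s k93 k12 12 (.s k110 k76 4 (.s k204 k157 12
  (.d k238 k46 k221 7 4))))))] (.c k37 (.q k47 [(.s k123 k183 9 (.s k119 k115 1 (.s k187 k51 9 (.d
  k251 k247 k59 1 7)))), (.s k15 k31 3 (.s k10 k5 2 (.s k90 k250 11 (.s k165 k240 14 (.d k175 k160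
  k95 2 11)))))] .n) (.c k47 (.q k37 [(.s k123 k183 9 (.s k119 k115 1 (.s k187 k51 9 (.d k251 k247
  k59 1 7)))), (.s k162 k81 12 (.s k174 k166 1 (.s k93 k12 12 (.s k110 k76 4 (.s k204 k157 12 (.d
  k238 k46 k221 7 4))))))] (.c k165 (.q k224 [(.s k123 k183 9 (.s k119 k115 1 (.s k187 k51 9 (.d
  k251 k247 k59 1 7)))), (.s k162 k81 12 (.s k174 k166 1 (.s k93 k12 12 (.s k110 k76 4 (.s k204 k157
  12 (.d k238 k46 k221 7 4))))))] (.c k5 (.q k245 [(.s k123 k183 9 (.s k119 k115 1 (.s k187 k51 9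
  (.d k251 k247 k59 1 7)))), (.s k162 k81 12 (.s k166 k174 1 (.s k89 k12 14 (.d k251 k247 k8 1
  12)))), (.s k81 k162 12 (.s k123 k183 9 (.s k240 k250 2 (.s k192 k208 3 (.s k64 k128 7 (.d k115
  k119 k98 1 4))))))] .n) (.c k245 (.q k5 [(.s k15 k10 2 (.s k53 k21 3 (.d k48 k58 k26 2 6))), (.s
  k162 k81 12 (.s k166 k174 1 (.s k89 k12 14 (.d k251 k247 k8 1 12))))] .n) (.c k247 (.l (.s k162
  k81 12 (.s k123 k183 9 (.s k119 k115 1 (.s k187 k51 9 (.s k251 k59 7 (.s k166 k174 1 (.d k89 k8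
  k12 12 14)))))))) .n)))) (.c k224 (.q k165 [(.s k123 k183 9 (.s k119 k115 1 (.s k187 k51 9 (.d
  k251 k247 k59 1 7)))), (.s k160 k175 2 (.s k240 k80 11 (.s k90 k15 14 (.d k250 k245 k10 2 11))))]
  (.c k96 (.l (.s k160 k175 2 (.s k240 k80 11 (.s k90 k15 14 (.d k250 k245 k10 2 11))))) (.c k160
  (.q k96 [(.s k123 k183 9 (.s k119 k115 1 (.s k187 k51 9 (.d k251 k247 k59 1 7)))), (.s k162 k81 12
  (.s k166 k174 1 (.s k167 k164 0 (.s k15 k91 13 (.s k10 k5 2 (.d k90 k250 k240 11 14))))))] .n)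
  .n))) (.c k247 (.l (.s k162 k81 12 (.s k123 k183 9 (.s k119 k115 1 (.s k187 k51 9 (.s k251 k59 7
  (.s k166 k174 1 (.d k89 k8 k12 12 14)))))))) .n)))) (.c k247 (.l (.s k162 k81 12 (.s k123 k183 9
  (.s k119 k115 1 (.s k187 k51 9 (.s k251 k59 7 (.s k166 k174 1 (.d k89 k8 k12 12 14))))))))
  .n))))))

def t42_33 : T TT 256 :=
  (.f k255 k85 14 (.q k252 [(.s k168 k84 13 (.s k169 k171 0 (.s k254 k253 0 (.d k86 k2 k3 13 14)))),
  (.s k126 k189 8 (.s k127 k191 7 (.s k125 k124 0 (.s k190 k60 8 (.d k254 k253 k62 0 7))))), (.s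
  k168 k84 13 (.s k189 k126 8 (.s k169 k171 0 (.s k149 k129 5 (.d k191 k127 k128 7 6)))))] (.c k64
  (.l (.s k127 k191 7 (.s k168 k84 13 (.s k169 k171 0 (.s k86 k3 14 (.d k254 k253 k2 0 13)))))) (.c
  k127 (.q k64 [(.s k168 k84 13 (.s k169 k171 0 (.s k254 k253 0 (.d k86 k2 k3 13 14)))), (.s k192
  k128 7 (.s k84 k168 13 (.s k104 k124 5 (.s k148 k60 13 (.d k212 k232 k20 5 7))))), (.s k128 k192 7
  (.s k189 k126 8 (.s k149 k191 6 (.s k169 k129 5 (.s k254 k253 0 (.d k86 k3 k2 14 13))))))] .n)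
  .n))))

def t42_34 : T TT 256 :=
  (.q k46 [(.s k85 k255 14 (.s k12 k29 4 (.s k8 k4 1 (.s k89 k251 12 (.s k243 k166 14 (.d k81 k93
  k162 1 12)))))), (.s k255 k85 14 (.s k12 k29 4 (.s k174 k93 12 (.s k110 k238 7 (.s k157 k204 12
  (.d k191 k127 k140 7 4))))))] (.c k12 (.f k255 k85 14 (.q k252 [(.s k168 k84 13 (.s k169 k171 0
  (.s k254 k253 0 (.d k86 k2 k3 13 14)))), (.s k126 k189 8 (.s k127 k191 7 (.s k125 k124 0 (.s k190
  k60 8 (.d k254 k253 k62 0 7))))), (.s k168 k84 13 (.s k189 k126 8 (.s k169 k171 0 (.s k149 k129 5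
  (.d k191 k127 k128 7 6)))))] (.c k64 (.l (.s k127 k191 7 (.s k168 k84 13 (.s k169 k171 0 (.s k86
  k3 14 (.d k254 k253 k2 0 13)))))) (.c k127 (.q k64 [(.s k168 k84 13 (.s k169 k171 0 (.s k254 k253
  0 (.d k86 k2 k3 13 14)))), (.s k192 k128 7 (.s k84 k168 13 (.s k104 k124 5 (.s k148 k60 13 (.d
  k212 k232 k20 5 7))))), (.s k128 k192 7 (.s k189 k126 8 (.s k149 k191 6 (.s k169 k129 5 (.s k254
  k253 0 (.d k86 k3 k2 14 13))))))] .n) .n)))) (.c k29 (.f k255 k85 14 (.q k252 [(.s k168 k84 13 (.s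
  k169 k171 0 (.s k86 k3 14 (.d k254 k253 k2 0 13)))), (.s k126 k189 8 (.s k127 k191 7 (.s k125 k124
  0 (.s k190 k60 8 (.d k254 k253 k62 0 7))))), (.s k168 k84 13 (.s k189 k126 8 (.s k169 k171 0 (.s
  k149 k129 5 (.d k191 k127 k128 7 6)))))] (.c k64 (.l (.s k127 k191 7 (.s k168 k84 13 (.s k169 k171
  0 (.s k86 k3 14 (.d k254 k253 k2 0 13)))))) (.c k127 (.q k64 [(.s k168 k84 13 (.s k169 k171 0 (.s
  k86 k3 14 (.d k254 k253 k2 0 13)))), (.s k192 k128 7 (.s k84 k168 13 (.s k104 k124 5 (.s k148 k60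
  13 (.d k212 k232 k20 5 7))))), (.s k128 k192 7 (.s k189 k126 8 (.s k149 k191 6 (.s k169 k129 5 (.s
  k254 k253 0 (.d k86 k3 k2 14 13))))))] .n) .n)))) (.c k81 (.l (.s k255 k85 14 (.s k12 k29 4 (.s k8
  k4 1 (.s k89 k251 12 (.s k166 k243 14 (.d k174 k93 k162 12 1))))))) (.c k85 (.f k12 k29 4 (.q k252
  [(.s k4 k8 1 (.s k84 k168 13 (.s k164 k244 11 (.s k88 k240 13 (.d k92 k80 k172 1 11))))), (.s k8
  k4 1 (.s k89 k251 12 (.s k92 k172 11 (.s k86 k83 2 (.s k2 k254 13 (.d k3 k1 k169 0 14)))))), (.s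
  k168 k84 13 (.s k172 k92 11 (.s k169 k171 0 (.s k166 k163 2 (.s k243 k89 14 (.d k162 k81 k174 12
  1)))))), (.s k8 k4 1 (.s k168 k84 13 (.s k89 k251 12 (.s k169 k171 0 (.s k9 k249 11 (.d k3 k86 k6
  14 2))))))] (.c k64 (.q k127 [(.s k8 k4 1 (.s k89 k251 12 (.s k166 k243 14 (.s k255 k191 7 (.d
  k174 k162 k93 1 12))))), (.s k4 k8 1 (.s k84 k168 13 (.s k164 k244 11 (.s k88 k240 13 (.d k92 k80
  k172 1 11))))), (.s k168 k84 13 (.s k189 k126 8 (.s k191 k255 7 (.s k128 k149 6 (.d k188 k190 k148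
  0 5)))))] .n) (.c k127 (.q k64 [(.s k4 k8 1 (.s k84 k168 13 (.s k164 k244 11 (.s k88 k240 13 (.d
  k92 k80 k172 1 11))))), (.s k128 k192 7 (.s k168 k84 13 (.s k189 k126 8 (.s k188 k148 5 (.d k191
  k190 k149 0 6))))), (.s k8 k4 1 (.s k192 k128 7 (.s k72 k132 9 (.s k136 k200 7 (.d k68 k76 k204 1
  9)))))] .n) .n)))) (.c k89 (.q k252 [(.s k84 k168 13 (.s k85 k255 14 (.s k86 k87 0 (.s k2 k254 13
  (.d k3 k1 k169 0 14))))), (.s k84 k168 13 (.s k12 k29 4 (.s k4 k8 1 (.s k164 k244 11 (.s k88 k240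
  13 (.d k92 k80 k172 1 11)))))), (.s k255 k85 14 (.s k126 k189 8 (.s k127 k191 7 (.s k125 k124 0
  (.s k190 k60 8 (.d k254 k253 k62 0 7))))))] (.c k72 (.q k123 [(.s k84 k168 13 (.s k85 k255 14 (.s
  k86 k87 0 (.s k2 k254 13 (.d k3 k1 k169 0 14))))), (.s k12 k29 4 (.s k243 k183 9 (.s k162 k81 12
  (.s k174 k166 1 (.d k255 k93 k85 12 14))))), (.s k84 k168 13 (.s k12 k29 4 (.s k4 k8 1 (.s k164
  k244 11 (.s k88 k240 13 (.d k92 k80 k172 1 11))))))] .n) (.c k123 (.q k72 [(.s k84 k168 13 (.s k85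
  k255 14 (.s k86 k87 0 (.s k2 k254 13 (.d k3 k1 k169 0 14))))), (.s k84 k168 13 (.s k12 k29 4 (.s
  k4 k8 1 (.s k164 k244 11 (.s k88 k240 13 (.d k92 k80 k172 1 11)))))), (.s k255 k85 14 (.s k126
  k189 8 (.s k127 k191 7 (.s k125 k124 0 (.s k190 k60 8 (.d k254 k253 k62 0 7))))))] .n) .n))) (.c
  k93 (.l (.s k85 k255 14 (.s k12 k29 4 (.s k4 k8 1 (.s k166 k247 12 (.s k243 k89 14 (.d k162 k174
  k81 1 12))))))) (.c k255 (.f k12 k29 4 (.q k252 [(.s k8 k4 1 (.s k172 k92 11 (.s k168 k84 13 (.s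
  k164 k160 1 (.d k88 k248 k240 11 13))))), (.s k8 k4 1 (.s k89 k251 12 (.s k92 k172 11 (.s k86 k83
  2 (.s k2 k254 13 (.d k3 k1 k169 0 14)))))), (.s k168 k84 13 (.s k172 k92 11 (.s k169 k171 0 (.s
  k166 k163 2 (.s k243 k89 14 (.d k162 k174 k81 1 12)))))), (.s k8 k4 1 (.s k168 k84 13 (.s k89 k251
  12 (.s k243 k166 14 (.s k169 k171 0 (.d k249 k246 k9 2 11))))))] .n)) .n))))))))

def t42_35 : T TT 256 :=
  (.f k255 k85 14 (.f k127 k191 7 (.q k243 [(.s k162 k81 12 (.s k166 k174 1 (.s k89 k12 14 (.d k251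
  k247 k8 1 12)))), (.s k123 k183 9 (.s k119 k115 1 (.s k187 k51 9 (.d k251 k247 k59 1 7))))] (.c
  k247 (.l (.s k162 k81 12 (.s k123 k183 9 (.s k119 k115 1 (.s k187 k51 9 (.s k251 k59 7 (.s k166
  k174 1 (.d k89 k8 k12 12 14)))))))) (.c k251 (.l (.s k162 k81 12 (.s k174 k166 1 (.s k93 k12 12
  (.s k110 k76 4 (.s k204 k157 12 (.d k238 k46 k221 7 4))))))) .n)))))

def t42_36 : T TT 256 :=
  (.f k255 k85 14 (.f k127 k191 7 (.q k243 [(.s k123 k183 9 (.s k119 k115 1 (.s k187 k51 9 (.d k251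
  k247 k59 1 7)))), (.s k162 k81 12 (.s k174 k166 1 (.s k93 k12 12 (.s k110 k76 4 (.s k204 k157 12
  (.d k238 k46 k221 7 4))))))] (.c k247 (.l (.s k162 k81 12 (.s k123 k183 9 (.s k119 k115 1 (.s k187
  k51 9 (.s k251 k59 7 (.s k166 k174 1 (.d k89 k8 k12 12 14)))))))) .n))))

def t42_37 : T TT 256 :=
  (.f k255 k85 14 (.f k127 k191 7 (.q k32 [(.s k48 k16 3 (.s k101 k239 10 (.s k154 k207 14 (.d k186
  k138 k117 3 10)))), (.s k48 k16 3 (.s k53 k58 2 (.s k117 k186 10 (.s k181 k245 7 (.d k122 k112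
  k240 2 10))))), (.s k239 k101 10 (.s k207 k223 3 (.s k111 k159 11 (.s k175 k47 7 (.d k95 k79 k15 3
  11)))))] (.c k16 (.q k154 [(.s k101 k239 10 (.s k48 k207 14 (.d k186 k138 k117 3 10))), (.s k186
  k138 3 (.s k117 k48 10 (.s k122 k112 2 (.s k250 k58 7 (.d k240 k245 k181 2 10))))), (.s k239 k101
  10 (.s k207 k223 3 (.s k111 k159 11 (.s k175 k47 7 (.d k95 k79 k15 3 11)))))] (.c k117 (.l (.s
  k101 k239 10 (.s k207 k48 14 (.d k138 k186 k69 3 10)))) .n)) (.c k117 (.q k207 [(.d k239 k101 k223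
  10 3)] (.c k69 (.l (.s k101 k239 10 (.d k48 k16 k154 3 14))) (.c k101 (.l (.s k69 k138 10 (.s k111
  k159 11 (.s k95 k79 3 (.s k175 k15 11 (.d k239 k223 k47 3 7)))))) (.c k223 (.l (.s k101 k239 10
  (.d k48 k16 k154 3 14))) (.c k239 (.q k64 [(.s k69 k138 10 (.s k111 k159 11 (.d k79 k74 k95 2
  3))), (.s k48 k16 3 (.s k192 k128 7 (.s k96 k144 11 (.s k160 k224 7 (.d k80 k112 k240 3 11)))))]
  (.c k69 (.q k101 [(.d k48 k16 k154 3 14), (.s k111 k159 11 (.s k79 k95 3 (.s k90 k112 6 (.s k10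
  k250 11 (.d k15 k143 k5 7 2)))))] .n) (.c k101 (.l (.s k69 k138 10 (.s k111 k159 11 (.d k79 k74
  k95 2 3)))) .n))) .n))))) (.c k154 (.l (.s k16 k48 3 (.s k239 k101 10 (.s k207 k223 3 (.s k111
  k159 11 (.s k175 k47 7 (.d k95 k15 k79 11 3))))))) (.c k223 (.l (.s k101 k239 10 (.s k48 k16 3 (.s
  k154 k207 14 (.d k186 k138 k117 3 10))))) .n)))))))

def t42_38 : T TT 256 :=
  (.q k51 [(.s k34 k17 4 (.s k85 k255 14 (.s k102 k238 9 (.s k68 k119 4 (.d k204 k136 k153 9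
  14))))), (.s k255 k85 14 (.s k55 k59 1 (.s k119 k187 9 (.s k183 k247 7 (.s k123 k243 9 (.d k127
  k115 k191 1 7))))))] (.c k34 (.q k46 [(.s k85 k255 14 (.s k12 k29 4 (.s k4 k8 1 (.s k166 k247 12
  (.s k162 k174 1 (.d k243 k81 k89 12 14)))))), (.s k255 k85 14 (.s k12 k29 4 (.s k174 k93 12 (.s
  k110 k238 7 (.s k157 k204 12 (.d k191 k127 k140 7 4)))))), (.s k255 k85 14 (.s k55 k59 1 (.s k119
  k187 9 (.s k183 k247 7 (.s k123 k243 9 (.d k127 k115 k191 1 7))))))] (.c k85 (.q k255 [(.s k12 k29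
  4 (.s k174 k93 12 (.s k110 k238 7 (.s k157 k204 12 (.d k191 k127 k140 7 4))))), (.s k55 k59 1 (.s
  k119 k187 9 (.s k183 k247 7 (.s k123 k243 9 (.d k127 k115 k191 1 7)))))] (.c k64 (.l (.s k127 k191
  7 (.s k55 k59 1 (.s k119 k187 9 (.s k183 k247 7 (.d k123 k115 k243 1 9)))))) (.c k127 (.q k64 [(.s
  k12 k29 4 (.s k8 k4 1 (.s k89 k251 12 (.s k166 k243 14 (.d k174 k162 k93 1 12))))), (.s k128 k192
  7 (.s k55 k59 1 (.s k187 k119 9 (.s k149 k191 6 (.s k102 k196 12 (.d k153 k204 k136 14 4)))))),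
  (.s k128 k192 7 (.s k12 k29 4 (.s k174 k93 12 (.s k110 k238 7 (.s k157 k204 12 (.d k191 k140 k149
  4 6))))))] .n) (.c k191 (.l (.s k12 k29 4 (.s k8 k4 1 (.s k89 k251 12 (.s k166 k243 14 (.d k174
  k162 k93 1 12)))))) .n)))) (.c k255 (.q k166 [(.s k12 k29 4 (.s k89 k243 14 (.d k8 k251 k4 12
  1))), (.s k174 k162 1 (.s k110 k238 7 (.s k204 k157 12 (.s k136 k68 9 (.d k153 k187 k102 4
  14)))))] .n) .n))) (.c k46 (.l (.s k34 k17 4 (.s k85 k255 14 (.s k102 k238 9 (.s k204 k153 14 (.d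
  k68 k119 k136 4 9)))))) (.c k85 (.f k34 k17 4 (.l (.s k102 k238 9 (.s k55 k59 1 (.s k153 k204 14
  (.s k149 k196 12 (.s k128 k191 6 (.s k145 k157 1 (.d k192 k64 k98 7 12))))))))) (.c k119 (.l (.s
  k34 k17 4 (.s k255 k85 14 (.s k102 k238 9 (.s k55 k59 1 (.s k149 k196 12 (.d k191 k127 k128 7
  6))))))) (.c k153 (.l (.s k255 k85 14 (.s k59 k55 1 (.s k187 k119 9 (.s k123 k251 7 (.s k183 k243
  9 (.d k191 k127 k179 7 1))))))) (.c k255 (.f k34 k17 4 (.l (.s k102 k238 9 (.s k55 k59 1 (.s k149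
  k196 12 (.s k128 k191 6 (.s k192 k64 7 (.s k145 k98 12 (.d k153 k204 k157 14 1))))))))) .n)))))))

def t42_39 : T TT 256 :=
  (.f k255 k85 14 (.q k3 [(.s k2 k1 0 (.s k86 k254 13 (.s k169 k252 14 (.d k171 k168 k87 0 13)))),
  (.s k23 k43 5 (.s k87 k171 13 (.s k151 k215 7 (.s k107 k195 13 (.d k127 k67 k191 5 7))))), (.s k2
  k1 0 (.s k86 k254 13 (.s k23 k43 5 (.s k149 k212 8 (.d k191 k127 k128 7 6)))))] (.c k64 (.l (.s
  k127 k191 7 (.s k2 k1 0 (.s k86 k254 13 (.s k169 k252 14 (.d k171 k168 k87 0 13)))))) (.c k127 (.q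
  k64 [(.s k2 k1 0 (.s k86 k254 13 (.s k169 k252 14 (.d k171 k168 k87 0 13)))), (.s k192 k128 7 (.s
  k66 k129 8 (.s k65 k67 0 (.s k130 k195 8 (.d k2 k1 k194 0 7))))), (.s k128 k192 7 (.s k23 k43 5
  (.s k171 k87 13 (.s k149 k191 6 (.s k86 k212 8 (.d k169 k252 k168 14 0))))))] (.c k87 (.l (.s k2
  k1 0 (.s k128 k192 7 (.s k86 k254 13 (.s k23 k43 5 (.d k149 k191 k212 6 8)))))) .n)) (.c k169 (.l
  (.s k43 k23 5 (.s k171 k87 13 (.s k107 k235 7 (.s k151 k195 13 (.d k191 k131 k127 5 7))))))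
  .n)))))

def t42_40 : T TT 256 :=
  (.f k255 k85 14 (.f k127 k191 7 (.q k207 [(.s k111 k159 11 (.s k95 k79 3 (.s k175 k15 11 (.d k239
  k223 k47 3 7)))), (.s k138 k69 10 (.s k186 k154 3 (.s k117 k48 10 (.s k122 k112 2 (.s k240 k181 10
  (.d k250 k58 k245 7 2))))))] (.c k41 (.q k43 [(.s k111 k159 11 (.s k95 k79 3 (.s k175 k15 11 (.d
  k239 k223 k47 3 7)))), (.s k3 k23 5 (.s k2 k1 0 (.s k86 k254 13 (.s k169 k252 14 (.d k171 k168 k87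
  0 13)))))] .n) (.c k43 (.q k41 [(.s k111 k159 11 (.s k95 k79 3 (.s k175 k15 11 (.d k239 k223 k47 3
  7)))), (.s k138 k69 10 (.s k186 k154 3 (.s k117 k48 10 (.s k122 k112 2 (.s k240 k181 10 (.d k250
  k58 k245 7 2))))))] (.c k169 (.q k232 [(.s k111 k159 11 (.s k95 k79 3 (.s k175 k15 11 (.d k239
  k223 k47 3 7)))), (.s k138 k69 10 (.s k186 k154 3 (.s k117 k48 10 (.s k122 k112 2 (.s k240 k181 10
  (.d k250 k58 k245 7 2))))))] (.c k1 (.q k253 [(.s k111 k159 11 (.s k95 k79 3 (.s k175 k15 11 (.d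
  k239 k223 k47 3 7)))), (.s k138 k69 10 (.s k154 k186 3 (.s k101 k48 14 (.d k239 k223 k32 3 10)))),
  (.s k69 k138 10 (.s k111 k159 11 (.s k252 k254 0 (.s k192 k212 5 (.s k64 k128 7 (.d k79 k74 k95 2
  3))))))] .n) (.c k223 (.l (.s k138 k69 10 (.s k111 k159 11 (.s k95 k79 3 (.s k175 k15 11 (.s k239
  k47 7 (.s k154 k186 3 (.d k101 k32 k48 10 14)))))))) (.c k253 (.q k1 [(.s k3 k2 0 (.s k61 k21 5
  (.d k60 k62 k22 0 6))), (.s k138 k69 10 (.s k154 k186 3 (.s k101 k48 14 (.d k239 k223 k32 3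
  10))))] .n) .n)))) (.c k223 (.l (.s k138 k69 10 (.s k111 k159 11 (.s k95 k79 3 (.s k175 k15 11 (.s
  k239 k47 7 (.s k154 k186 3 (.d k101 k32 k48 10 14)))))))) (.c k232 (.q k169 [(.s k111 k159 11 (.s
  k95 k79 3 (.s k175 k15 11 (.d k239 k223 k47 3 7)))), (.s k168 k171 0 (.s k252 k84 13 (.s k86 k3 14
  (.d k254 k253 k2 0 13))))] (.c k104 (.l (.s k168 k171 0 (.s k252 k84 13 (.s k86 k3 14 (.d k254
  k253 k2 0 13))))) (.c k168 (.q k104 [(.s k111 k159 11 (.s k95 k79 3 (.s k175 k15 11 (.d k239 k223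
  k47 3 7)))), (.s k138 k69 10 (.s k154 k186 3 (.s k139 k184 4 (.s k3 k71 9 (.s k2 k1 0 (.d k86 k254
  k252 13 14))))))] .n) .n))) .n)))) (.c k223 (.l (.s k138 k69 10 (.s k111 k159 11 (.s k95 k79 3 (.s
  k175 k15 11 (.s k239 k47 7 (.s k154 k186 3 (.d k101 k32 k48 10 14)))))))) .n))))))

def t42_41 : T TT 256 :=
  (.f k255 k85 14 (.q k60 [(.s k40 k20 5 (.s k105 k235 8 (.s k150 k195 14 (.d k190 k130 k125 5
  8)))), (.s k61 k62 0 (.s k125 k190 8 (.s k189 k253 7 (.s k126 k252 8 (.d k127 k124 k191 0 7))))),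
  (.s k40 k20 5 (.s k105 k235 8 (.s k61 k62 0 (.s k149 k193 13 (.d k191 k127 k128 7 6)))))] (.c k40
  (.q k43 [(.s k3 k23 5 (.s k171 k87 13 (.s k107 k235 7 (.s k151 k195 13 (.d k191 k127 k131 7
  5))))), (.s k61 k62 0 (.s k125 k190 8 (.s k189 k253 7 (.s k126 k252 8 (.d k127 k124 k191 0 7)))))]
  (.c k64 (.l (.s k127 k191 7 (.s k61 k62 0 (.s k125 k190 8 (.s k189 k253 7 (.d k126 k124 k252 0
  8)))))) (.c k127 (.q k64 [(.s k3 k23 5 (.s k2 k1 0 (.s k86 k254 13 (.s k169 k252 14 (.d k171 k168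
  k87 0 13))))), (.s k128 k192 7 (.s k61 k62 0 (.s k190 k125 8 (.s k149 k191 6 (.s k105 k193 13 (.d
  k150 k195 k130 14 5)))))), (.s k128 k192 7 (.s k3 k23 5 (.s k171 k87 13 (.s k107 k235 7 (.s k151
  k195 13 (.d k191 k131 k149 5 6))))))] .n) (.c k191 (.l (.s k3 k23 5 (.s k2 k1 0 (.s k86 k254 13
  (.s k169 k252 14 (.d k171 k168 k87 0 13)))))) .n)))) (.c k43 (.l (.s k40 k20 5 (.s k105 k235 8 (.s
  k150 k195 14 (.d k190 k130 k125 5 8))))) (.c k64 (.l (.s k127 k191 7 (.s k40 k20 5 (.s k105 k235 8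
  (.s k150 k195 14 (.d k190 k130 k125 5 8)))))) (.c k127 (.q k64 [(.s k40 k20 5 (.s k105 k235 8 (.s
  k150 k195 14 (.d k190 k130 k125 5 8)))), (.s k192 k128 7 (.s k104 k148 13 (.s k84 k124 5 (.s k168
  k252 13 (.d k40 k20 k232 5 7)))))] (.c k20 (.l (.s k128 k192 7 (.s k61 k62 0 (.s k190 k125 8 (.s
  k149 k191 6 (.s k105 k193 13 (.d k150 k195 k130 14 5))))))) (.c k40 (.q k43 [(.s k3 k23 5 (.s k2
  k1 0 (.s k86 k254 13 (.s k169 k252 14 (.d k171 k168 k87 0 13))))), (.s k128 k192 7 (.s k61 k62 0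
  (.s k190 k125 8 (.s k149 k191 6 (.s k105 k193 13 (.d k150 k195 k130 14 5)))))), (.s k128 k192 7
  (.s k3 k23 5 (.s k171 k87 13 (.s k107 k235 7 (.s k151 k195 13 (.d k191 k131 k149 5 6))))))] .n)
  (.c k43 (.l (.s k40 k20 5 (.s k105 k235 8 (.s k150 k195 14 (.d k190 k130 k125 5 8))))) (.c k125
  (.l (.s k40 k20 5 (.s k128 k192 7 (.s k105 k235 8 (.s k61 k62 0 (.d k149 k191 k193 6 13))))))
  .n))))) (.c k150 (.l (.s k62 k61 0 (.s k190 k125 8 (.s k126 k254 7 (.s k189 k252 8 (.d k191 k188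
  k127 0 7)))))) .n)))))))

def t42_43 : T TT 256 :=
  (.f k255 k85 14 (.q k60 [(.s k40 k20 5 (.s k190 k125 8 (.s k150 k130 5 (.d k105 k235 k195 8
  14)))), (.s k61 k62 0 (.s k125 k190 8 (.s k189 k253 7 (.s k126 k252 8 (.d k127 k124 k191 0 7))))),
  (.s k40 k20 5 (.s k105 k235 8 (.s k61 k62 0 (.s k149 k193 13 (.d k191 k127 k128 7 6)))))] (.c k40
  (.q k41 [(.s k61 k62 0 (.s k1 k21 5 (.d k3 k2 k22 0 6))), (.s k62 k61 0 (.s k190 k125 8 (.s k126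
  k254 7 (.s k189 k252 8 (.d k191 k127 k188 7 0)))))] (.c k61 (.l (.s k3 k22 6 (.s k2 k1 0 (.s k86
  k254 13 (.s k169 k252 14 (.d k171 k168 k87 0 13)))))) (.c k62 (.l (.s k3 k22 6 (.s k2 k1 0 (.s k86
  k254 13 (.s k169 k252 14 (.d k171 k168 k87 0 13)))))) (.c k64 (.l (.s k127 k191 7 (.s k61 k62 0
  (.s k1 k21 5 (.d k3 k2 k22 0 6))))) (.c k127 (.q k64 [(.s k61 k62 0 (.s k1 k21 5 (.d k3 k2 k22 0
  6))), (.s k128 k192 7 (.s k62 k61 0 (.s k190 k125 8 (.s k126 k254 7 (.s k189 k252 8 (.d k191 k188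
  k149 0 6)))))), (.s k128 k192 7 (.s k3 k22 6 (.s k190 k125 8 (.s k130 k150 5 (.s k131 k129 0 (.d
  k195 k65 k67 8 7))))))] (.c k62 (.l (.s k3 k22 6 (.s k2 k1 0 (.s k86 k254 13 (.s k169 k252 14 (.d
  k171 k168 k87 0 13)))))) (.c k169 (.q k232 [(.s k61 k62 0 (.s k1 k21 5 (.d k3 k2 k22 0 6))), (.s
  k192 k128 7 (.s k104 k148 13 (.s k84 k124 5 (.d k252 k168 k212 13 5))))] (.c k1 (.q k253 [(.s k192
  k128 7 (.d k252 k254 k212 0 5)), (.s k61 k62 0 (.d k125 k189 k190 7 8))] .n) (.c k253 (.q k1 [(.d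
  k3 k2 k22 0 6), (.d k61 k62 k21 0 5)] .n) .n))) (.c k232 (.q k169 [(.s k3 k22 6 (.d k171 k168 k87
  0 13)), (.s k105 k233 7 (.s k150 k195 14 (.d k190 k130 k125 5 8)))] (.c k104 (.l (.s k168 k171 0
  (.s k252 k84 13 (.d k3 k86 k22 14 6)))) (.c k168 (.q k104 [(.d k192 k128 k148 7 13), (.s k3 k22 6
  (.s k2 k1 0 (.d k86 k254 k252 13 14)))] .n) .n))) .n)))) (.c k169 (.q k232 [(.s k61 k62 0 (.s k1
  k21 5 (.d k3 k2 k22 0 6))), (.s k62 k61 0 (.s k190 k125 8 (.s k126 k254 7 (.s k189 k252 8 (.d k191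
  k127 k188 7 0)))))] (.c k1 (.q k253 [(.s k125 k190 8 (.d k61 k62 k189 0 7)), (.s k252 k254 0 (.s
  k84 k168 13 (.s k124 k188 7 (.s k64 k104 5 (.d k192 k128 k212 7 5)))))] (.c k64 (.l (.s k127 k191
  7 (.s k61 k62 0 (.d k125 k189 k190 7 8)))) (.c k127 (.q k64 [(.s k192 k128 7 (.d k252 k254 k212 0
  5)), (.s k61 k62 0 (.d k125 k189 k190 7 8))] .n) .n))) (.c k3 (.l (.s k61 k62 0 (.s k125 k190 8
  (.s k127 k191 7 (.s k126 k124 0 (.d k189 k253 k252 7 8)))))) (.c k61 (.l (.s k3 k22 6 (.s k87 k171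
  13 (.s k190 k125 8 (.s k127 k191 7 (.s k107 k67 5 (.s k130 k150 5 (.d k195 k65 k151 8 13))))))))
  (.c k62 (.l (.s k125 k190 8 (.s k127 k191 7 (.s k126 k124 0 (.s k189 k252 8 (.s k61 k253 7 (.s k1
  k21 5 (.d k3 k2 k22 0 6)))))))) (.c k64 (.l (.s k127 k191 7 (.s k61 k62 0 (.s k1 k21 5 (.d k3 k2
  k22 0 6))))) (.c k127 (.q k64 [(.s k61 k62 0 (.s k1 k21 5 (.d k3 k2 k22 0 6))), (.s k192 k128 7
  (.s k104 k148 13 (.s k84 k124 5 (.d k252 k168 k212 13 5))))] (.c k1 (.q k253 [(.s k192 k128 7 (.d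
  k252 k254 k212 0 5)), (.s k61 k62 0 (.d k125 k189 k190 7 8))] .n) (.c k253 (.q k1 [(.d k3 k2 k22 0
  6), (.d k61 k62 k21 0 5)] .n) .n))) (.c k253 (.q k1 [(.d k3 k2 k22 0 6), (.d k61 k62 k21 0 5)] (.c
  k64 (.l (.s k127 k191 7 (.d k3 k2 k22 0 6))) (.c k127 (.q k64 [(.d k3 k2 k22 0 6), (.d k61 k62 k21
  0 5)] .n) .n))) .n)))))))) (.c k232 (.q k169 [(.s k3 k22 6 (.d k171 k168 k87 0 13)), (.s k105 k233
  7 (.s k150 k195 14 (.d k190 k130 k125 5 8)))] (.c k64 (.l (.s k127 k191 7 (.s k3 k22 6 (.d k171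
  k168 k87 0 13)))) (.c k104 (.l (.s k168 k171 0 (.s k252 k84 13 (.d k3 k86 k22 14 6)))) (.c k127
  (.q k64 [(.s k3 k22 6 (.d k171 k168 k87 0 13)), (.s k105 k233 7 (.s k150 k195 14 (.d k190 k130
  k125 5 8)))] (.c k104 (.l (.s k168 k171 0 (.s k252 k84 13 (.d k3 k86 k22 14 6)))) (.c k168 (.q
  k104 [(.d k192 k128 k148 7 13), (.s k3 k22 6 (.s k2 k1 0 (.d k86 k254 k252 13 14)))] .n) .n))) (.c
  k168 (.q k104 [(.s k3 k22 6 (.s k2 k1 0 (.d k86 k254 k252 13 14))), (.s k105 k233 7 (.s k190 k125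
  8 (.d k150 k130 k195 5 14)))] (.c k64 (.l (.s k127 k191 7 (.s k3 k22 6 (.s k2 k1 0 (.d k86 k254
  k252 13 14))))) (.c k127 (.q k64 [(.d k192 k128 k148 7 13), (.s k3 k22 6 (.s k2 k1 0 (.d k86 k254
  k252 13 14)))] .n) .n))) .n))))) .n))))))) (.c k41 (.l (.s k40 k20 5 (.s k105 k235 8 (.s k150 k195
  14 (.d k190 k130 k125 5 8))))) (.c k64 (.l (.s k127 k191 7 (.s k40 k20 5 (.s k105 k235 8 (.s k150
  k195 14 (.d k190 k130 k125 5 8)))))) (.c k127 (.q k64 [(.s k40 k20 5 (.s k105 k235 8 (.s k150 k195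
  14 (.d k190 k130 k125 5 8)))), (.s k192 k128 7 (.s k104 k148 13 (.s k84 k124 5 (.s k168 k252 13
  (.d k40 k232 k20 7 5)))))] (.c k20 (.l (.s k128 k192 7 (.s k61 k62 0 (.s k190 k125 8 (.s k149 k191
  6 (.s k105 k193 13 (.d k150 k195 k130 14 5))))))) (.c k40 (.q k41 [(.s k61 k62 0 (.s k1 k21 5 (.d
  k3 k2 k22 0 6))), (.s k128 k192 7 (.s k62 k61 0 (.s k190 k125 8 (.s k126 k254 7 (.s k189 k252 8
  (.d k191 k188 k149 0 6)))))), (.s k128 k192 7 (.s k3 k22 6 (.s k190 k125 8 (.s k130 k150 5 (.s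
  k131 k129 0 (.d k195 k65 k67 8 7))))))] (.c k62 (.l (.s k3 k22 6 (.s k2 k1 0 (.s k86 k254 13 (.s
  k169 k252 14 (.d k171 k168 k87 0 13)))))) (.c k169 (.q k232 [(.s k61 k62 0 (.s k1 k21 5 (.d k3 k2
  k22 0 6))), (.s k192 k128 7 (.s k104 k148 13 (.s k84 k124 5 (.d k252 k168 k212 13 5))))] (.c k1
  (.q k253 [(.s k192 k128 7 (.d k252 k254 k212 0 5)), (.s k61 k62 0 (.d k125 k189 k190 7 8))] .n)
  (.c k253 (.q k1 [(.d k3 k2 k22 0 6), (.d k61 k62 k21 0 5)] .n) .n))) (.c k232 (.q k169 [(.s k3 k22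
  6 (.d k171 k168 k87 0 13)), (.s k105 k233 7 (.s k150 k195 14 (.d k190 k130 k125 5 8)))] (.c k104
  (.l (.s k168 k171 0 (.s k252 k84 13 (.d k3 k86 k22 14 6)))) (.c k168 (.q k104 [(.d k192 k128 k148
  7 13), (.s k3 k22 6 (.s k2 k1 0 (.d k86 k254 k252 13 14)))] .n) .n))) .n)))) (.c k41 (.l (.s k40
  k20 5 (.s k105 k235 8 (.s k150 k195 14 (.d k190 k130 k125 5 8))))) (.c k125 (.l (.s k40 k20 5 (.s
  k128 k192 7 (.s k105 k235 8 (.s k61 k62 0 (.d k149 k191 k193 6 13)))))) (.c k169 (.q k232 [(.s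
  k192 k128 7 (.s k104 k148 13 (.d k40 k168 k20 7 5))), (.s k40 k20 5 (.s k105 k235 8 (.s k150 k195
  14 (.d k190 k130 k125 5 8))))] (.c k1 (.q k253 [(.s k192 k128 7 (.d k252 k254 k212 0 5)), (.s k61
  k62 0 (.d k125 k189 k190 7 8))] (.c k40 (.q k41 [(.s k192 k128 7 (.d k252 k254 k212 0 5)), (.s k61
  k62 0 (.d k125 k189 k190 7 8))] .n) (.c k41 (.l (.s k40 k20 5 (.s k192 k128 7 (.d k104 k168 k148 7
  13)))) .n))) (.c k20 (.l (.s k192 k128 7 (.s k104 k148 13 (.s k84 k124 5 (.d k168 k40 k252 7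
  13))))) (.c k40 (.q k41 [(.s k61 k62 0 (.s k1 k21 5 (.d k3 k2 k22 0 6))), (.s k192 k128 7 (.s k104
  k148 13 (.s k84 k124 5 (.d k252 k168 k212 13 5))))] (.c k1 (.q k253 [(.s k192 k128 7 (.d k252 k254
  k212 0 5)), (.s k61 k62 0 (.d k125 k189 k190 7 8))] .n) (.c k253 (.q k1 [(.d k3 k2 k22 0 6), (.d
  k61 k62 k21 0 5)] .n) .n))) (.c k41 (.l (.s k40 k20 5 (.s k192 k128 7 (.d k104 k168 k148 7 13))))
  (.c k253 (.q k1 [(.s k192 k128 7 (.s k104 k148 13 (.d k40 k168 k20 7 5))), (.s k61 k62 0 (.s k41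
  k21 5 (.d k3 k2 k22 0 6)))] (.c k40 (.q k41 [(.d k3 k2 k22 0 6), (.d k61 k62 k21 0 5)] .n) (.c k41
  (.l (.s k40 k20 5 (.s k192 k128 7 (.d k104 k168 k148 7 13)))) .n))) .n)))))) (.c k232 (.q k169
  [(.s k40 k20 5 (.s k190 k125 8 (.s k150 k130 5 (.d k105 k235 k195 8 14)))), (.s k128 k192 7 (.s
  k168 k171 0 (.s k252 k84 13 (.d k188 k148 k124 5 7))))] (.c k40 (.q k41 [(.s k3 k22 6 (.d k171
  k168 k87 0 13)), (.s k105 k233 7 (.s k150 k195 14 (.d k190 k130 k125 5 8)))] (.c k104 (.l (.s k168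
  k171 0 (.s k252 k84 13 (.d k3 k86 k22 14 6)))) (.c k168 (.q k104 [(.d k192 k128 k148 7 13), (.s k3
  k22 6 (.s k2 k1 0 (.d k86 k254 k252 13 14)))] .n) .n))) (.c k41 (.l (.s k40 k20 5 (.s k105 k235 8
  (.s k150 k195 14 (.d k190 k130 k125 5 8))))) (.c k124 (.l (.s k40 k20 5 (.s k105 k235 8 (.s k150
  k195 14 (.d k190 k130 k125 5 8))))) (.c k235 (.l (.s k192 k128 7 (.s k104 k148 13 (.s k84 k124 5
  (.d k168 k171 k252 0 13))))) .n))))) .n))))))) (.c k150 (.l (.s k62 k61 0 (.s k190 k125 8 (.s k126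
  k254 7 (.s k189 k252 8 (.d k191 k188 k127 0 7)))))) (.c k169 (.q k232 [(.s k40 k20 5 (.s k190 k125
  8 (.s k150 k130 5 (.d k105 k235 k195 8 14)))), (.s k61 k62 0 (.s k125 k190 8 (.s k127 k191 7 (.s
  k126 k124 0 (.d k189 k253 k252 7 8))))), (.s k40 k20 5 (.s k104 k168 7 (.s k192 k148 13 (.s k234
  k213 6 (.d k235 k233 k105 0 8)))))] (.c k1 (.q k253 [(.s k125 k190 8 (.d k61 k62 k189 0 7)), (.s
  k40 k20 5 (.s k168 k104 7 (.d k252 k254 k84 0 13)))] (.c k40 (.q k41 [(.s k125 k190 8 (.d k61 k62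
  k189 0 7)), (.s k252 k254 0 (.s k84 k168 13 (.s k124 k188 7 (.s k64 k104 5 (.d k192 k128 k212 7
  5)))))] (.c k64 (.l (.s k127 k191 7 (.s k61 k62 0 (.d k125 k189 k190 7 8)))) (.c k127 (.q k64 [(.s
  k192 k128 7 (.d k252 k254 k212 0 5)), (.s k61 k62 0 (.d k125 k189 k190 7 8))] .n) .n))) (.c k41
  (.l (.s k40 k20 5 (.s k168 k104 7 (.d k252 k254 k84 0 13)))) (.c k64 (.l (.s k127 k191 7 (.s k61
  k62 0 (.d k125 k189 k190 7 8)))) (.c k127 (.q k64 [(.s k192 k128 7 (.d k252 k254 k212 0 5)), (.s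
  k61 k62 0 (.d k125 k189 k190 7 8))] (.c k40 (.q k41 [(.s k192 k128 7 (.d k252 k254 k212 0 5)), (.s
  k61 k62 0 (.d k125 k189 k190 7 8))] .n) (.c k41 (.l (.s k40 k20 5 (.s k192 k128 7 (.d k104 k168
  k148 7 13)))) .n))) .n))))) (.c k40 (.q k41 [(.s k61 k62 0 (.s k1 k21 5 (.d k3 k2 k22 0 6))), (.s
  k62 k61 0 (.s k190 k125 8 (.s k126 k254 7 (.s k189 k252 8 (.d k191 k127 k188 7 0)))))] (.c k1 (.q
  k253 [(.s k125 k190 8 (.d k61 k62 k189 0 7)), (.s k252 k254 0 (.s k84 k168 13 (.s k124 k188 7 (.s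
  k64 k104 5 (.d k192 k128 k212 7 5)))))] (.c k64 (.l (.s k127 k191 7 (.s k61 k62 0 (.d k125 k189
  k190 7 8)))) (.c k127 (.q k64 [(.s k192 k128 7 (.d k252 k254 k212 0 5)), (.s k61 k62 0 (.d k125
  k189 k190 7 8))] .n) .n))) (.c k3 (.l (.s k61 k62 0 (.s k125 k190 8 (.s k127 k191 7 (.s k126 k124
  0 (.d k189 k253 k252 7 8)))))) (.c k61 (.l (.s k3 k22 6 (.s k87 k171 13 (.s k190 k125 8 (.s k127
  k191 7 (.s k107 k67 5 (.s k130 k150 5 (.d k195 k65 k151 8 13)))))))) (.c k62 (.l (.s k125 k190 8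
  (.s k127 k191 7 (.s k126 k124 0 (.s k189 k252 8 (.s k61 k253 7 (.s k1 k21 5 (.d k3 k2 k22 0
  6)))))))) (.c k64 (.l (.s k127 k191 7 (.s k61 k62 0 (.s k1 k21 5 (.d k3 k2 k22 0 6))))) (.c k127
  (.q k64 [(.s k61 k62 0 (.s k1 k21 5 (.d k3 k2 k22 0 6))), (.s k192 k128 7 (.s k104 k148 13 (.s k84
  k124 5 (.d k252 k168 k212 13 5))))] (.c k1 (.q k253 [(.s k192 k128 7 (.d k252 k254 k212 0 5)), (.s
  k61 k62 0 (.d k125 k189 k190 7 8))] .n) (.c k253 (.q k1 [(.d k3 k2 k22 0 6), (.d k61 k62 k21 0 5)]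
  .n) .n))) (.c k253 (.q k1 [(.d k3 k2 k22 0 6), (.d k61 k62 k21 0 5)] (.c k64 (.l (.s k127 k191 7
  (.d k3 k2 k22 0 6))) (.c k127 (.q k64 [(.d k3 k2 k22 0 6), (.d k61 k62 k21 0 5)] .n) .n)))
  .n)))))))) (.c k41 (.l (.s k40 k20 5 (.s k105 k235 8 (.s k150 k195 14 (.d k190 k130 k125 5 8)))))
  (.c k64 (.l (.s k127 k191 7 (.s k40 k20 5 (.s k105 k235 8 (.s k150 k195 14 (.d k190 k130 k125 5
  8)))))) (.c k127 (.q k64 [(.s k192 k128 7 (.s k104 k148 13 (.d k40 k168 k20 7 5))), (.s k40 k20 5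
  (.s k105 k235 8 (.s k150 k195 14 (.d k190 k130 k125 5 8))))] (.c k1 (.q k253 [(.s k192 k128 7 (.d
  k252 k254 k212 0 5)), (.s k61 k62 0 (.d k125 k189 k190 7 8))] (.c k40 (.q k41 [(.s k192 k128 7 (.d
  k252 k254 k212 0 5)), (.s k61 k62 0 (.d k125 k189 k190 7 8))] .n) (.c k41 (.l (.s k40 k20 5 (.s
  k192 k128 7 (.d k104 k168 k148 7 13)))) .n))) (.c k20 (.l (.s k192 k128 7 (.s k104 k148 13 (.s k84
  k124 5 (.d k168 k40 k252 7 13))))) (.c k40 (.q k41 [(.s k61 k62 0 (.s k1 k21 5 (.d k3 k2 k22 0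
  6))), (.s k192 k128 7 (.s k104 k148 13 (.s k84 k124 5 (.d k252 k168 k212 13 5))))] (.c k1 (.q k253
  [(.s k192 k128 7 (.d k252 k254 k212 0 5)), (.s k61 k62 0 (.d k125 k189 k190 7 8))] .n) (.c k253
  (.q k1 [(.d k3 k2 k22 0 6), (.d k61 k62 k21 0 5)] .n) .n))) (.c k41 (.l (.s k40 k20 5 (.s k192
  k128 7 (.d k104 k168 k148 7 13)))) (.c k253 (.q k1 [(.s k192 k128 7 (.s k104 k148 13 (.d k40 k168
  k20 7 5))), (.s k61 k62 0 (.s k41 k21 5 (.d k3 k2 k22 0 6)))] (.c k40 (.q k41 [(.d k3 k2 k22 0 6),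
  (.d k61 k62 k21 0 5)] .n) (.c k41 (.l (.s k40 k20 5 (.s k192 k128 7 (.d k104 k168 k148 7 13))))
  .n))) .n)))))) (.c k150 (.l (.s k62 k61 0 (.s k190 k125 8 (.s k126 k254 7 (.s k189 k252 8 (.d k191
  k188 k127 0 7)))))) (.c k253 (.q k1 [(.s k61 k62 0 (.s k41 k21 5 (.d k3 k2 k22 0 6))), (.s k40 k20
  5 (.s k105 k235 8 (.s k150 k195 14 (.d k190 k130 k125 5 8))))] (.c k40 (.q k41 [(.d k3 k2 k22 0
  6), (.d k61 k62 k21 0 5)] (.c k64 (.l (.s k127 k191 7 (.d k3 k2 k22 0 6))) (.c k127 (.q k64 [(.d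
  k3 k2 k22 0 6), (.d k61 k62 k21 0 5)] .n) .n))) (.c k41 (.l (.s k40 k20 5 (.s k105 k235 8 (.s k150
  k195 14 (.d k190 k130 k125 5 8))))) (.c k64 (.l (.s k127 k191 7 (.s k61 k62 0 (.s k41 k21 5 (.d k3
  k2 k22 0 6))))) (.c k127 (.q k64 [(.s k192 k128 7 (.s k104 k148 13 (.d k40 k168 k20 7 5))), (.s
  k61 k62 0 (.s k41 k21 5 (.d k3 k2 k22 0 6)))] (.c k40 (.q k41 [(.d k3 k2 k22 0 6), (.d k61 k62 k21
  0 5)] .n) (.c k41 (.l (.s k40 k20 5 (.s k192 k128 7 (.d k104 k168 k148 7 13)))) .n))) (.c k150 (.f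
  k127 k191 7 (.l (.s k2 k3 0 (.s k86 k254 13 (.s k62 k61 0 (.s k125 k190 8 (.s k124 k126 0 (.s k105
  k67 6 (.d k40 k20 k235 5 8))))))))) .n)))))) .n)))))))) (.c k232 (.q k169 [(.s k40 k20 5 (.s k190
  k125 8 (.s k150 k130 5 (.d k105 k235 k195 8 14)))), (.s k168 k171 0 (.s k252 k84 13 (.s k86 k3 14
  (.d k254 k253 k2 0 13))))] (.c k40 (.q k41 [(.s k3 k22 6 (.d k171 k168 k87 0 13)), (.s k105 k233 7
  (.s k150 k195 14 (.d k190 k130 k125 5 8)))] (.c k64 (.l (.s k127 k191 7 (.s k3 k22 6 (.d k171 k168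
  k87 0 13)))) (.c k104 (.l (.s k168 k171 0 (.s k252 k84 13 (.d k3 k86 k22 14 6)))) (.c k127 (.q k64
  [(.s k3 k22 6 (.d k171 k168 k87 0 13)), (.s k105 k233 7 (.s k150 k195 14 (.d k190 k130 k125 5
  8)))] (.c k104 (.l (.s k168 k171 0 (.s k252 k84 13 (.d k3 k86 k22 14 6)))) (.c k168 (.q k104 [(.d
  k192 k128 k148 7 13), (.s k3 k22 6 (.s k2 k1 0 (.d k86 k254 k252 13 14)))] .n) .n))) (.c k168 (.q
  k104 [(.s k3 k22 6 (.s k2 k1 0 (.d k86 k254 k252 13 14))), (.s k105 k233 7 (.s k190 k125 8 (.d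
  k150 k130 k195 5 14)))] (.c k64 (.l (.s k127 k191 7 (.s k3 k22 6 (.s k2 k1 0 (.d k86 k254 k252 13
  14))))) (.c k127 (.q k64 [(.d k192 k128 k148 7 13), (.s k3 k22 6 (.s k2 k1 0 (.d k86 k254 k252 13
  14)))] .n) .n))) .n))))) (.c k41 (.l (.s k40 k20 5 (.s k105 k235 8 (.s k150 k195 14 (.d k190 k130
  k125 5 8))))) (.c k64 (.l (.s k127 k191 7 (.s k40 k20 5 (.s k105 k235 8 (.s k150 k195 14 (.d k190
  k130 k125 5 8)))))) (.c k127 (.q k64 [(.s k40 k20 5 (.s k190 k125 8 (.s k150 k130 5 (.d k105 k235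
  k195 8 14)))), (.s k128 k192 7 (.s k168 k171 0 (.s k252 k84 13 (.d k188 k148 k124 5 7))))] (.c k40
  (.q k41 [(.s k3 k22 6 (.d k171 k168 k87 0 13)), (.s k105 k233 7 (.s k150 k195 14 (.d k190 k130
  k125 5 8)))] (.c k104 (.l (.s k168 k171 0 (.s k252 k84 13 (.d k3 k86 k22 14 6)))) (.c k168 (.q
  k104 [(.d k192 k128 k148 7 13), (.s k3 k22 6 (.s k2 k1 0 (.d k86 k254 k252 13 14)))] .n) .n))) (.c
  k41 (.l (.s k40 k20 5 (.s k105 k235 8 (.s k150 k195 14 (.d k190 k130 k125 5 8))))) (.c k124 (.l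
  (.s k40 k20 5 (.s k105 k235 8 (.s k150 k195 14 (.d k190 k130 k125 5 8))))) (.c k235 (.l (.s k192
  k128 7 (.s k104 k148 13 (.s k84 k124 5 (.d k168 k171 k252 0 13))))) .n))))) (.c k235 (.l (.s k190
  k125 8 (.s k150 k130 5 (.s k188 k131 6 (.d k191 k189 k127 0 7))))) .n)))))) .n)))))))))

def t42_44 : T TT 256 :=
  (.f k255 k85 14 (.q k51 [(.s k34 k17 4 (.s k102 k238 9 (.s k153 k204 14 (.d k187 k136 k119 4
  9)))), (.s k55 k59 1 (.s k119 k187 9 (.s k183 k247 7 (.s k123 k243 9 (.d k127 k115 k191 1 7))))),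
  (.s k34 k17 4 (.s k102 k238 9 (.s k55 k59 1 (.s k149 k196 12 (.d k191 k127 k128 7 6)))))] (.c k64
  (.l (.s k127 k191 7 (.s k34 k17 4 (.s k102 k238 9 (.s k153 k204 14 (.d k187 k136 k119 4 9))))))
  (.c k127 (.q k64 [(.s k34 k17 4 (.s k102 k238 9 (.s k153 k204 14 (.d k187 k136 k119 4 9)))), (.s
  k192 k128 7 (.s k98 k145 12 (.s k81 k115 4 (.s k162 k243 12 (.d k34 k17 k226 4 7))))), (.s k128
  k192 7 (.s k55 k59 1 (.s k187 k119 9 (.s k149 k191 6 (.s k102 k196 12 (.d k153 k204 k136 14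
  4))))))] (.c k119 (.l (.s k34 k17 4 (.s k128 k192 7 (.s k102 k238 9 (.s k55 k59 1 (.d k149 k191
  k196 6 12)))))) .n)) (.c k153 (.l (.s k59 k55 1 (.s k187 k119 9 (.s k123 k251 7 (.s k183 k243 9
  (.d k191 k179 k127 1 7)))))) .n)))))

def t42_45 : T TT 256 :=
  (.f k255 k85 14 (.q k51 [(.s k34 k17 4 (.s k102 k238 9 (.s k153 k204 14 (.d k187 k136 k119 4
  9)))), (.s k55 k59 1 (.s k119 k187 9 (.s k183 k247 7 (.s k123 k243 9 (.d k127 k115 k191 1 7))))),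
  (.s k34 k17 4 (.s k102 k238 9 (.s k55 k59 1 (.s k149 k196 12 (.d k191 k127 k128 7 6)))))] (.c k64
  (.l (.s k127 k191 7 (.s k34 k17 4 (.s k102 k238 9 (.s k153 k204 14 (.d k187 k136 k119 4 9))))))
  (.c k127 (.q k64 [(.s k34 k17 4 (.s k102 k238 9 (.s k153 k204 14 (.d k187 k136 k119 4 9)))), (.s
  k192 k128 7 (.s k98 k145 12 (.s k81 k115 4 (.s k162 k243 12 (.d k34 k17 k226 4 7))))), (.s k128
  k192 7 (.s k55 k59 1 (.s k187 k119 9 (.s k149 k191 6 (.s k102 k196 12 (.d k153 k204 k136 14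
  4))))))] (.c k119 (.l (.s k34 k17 4 (.s k128 k192 7 (.s k102 k238 9 (.s k55 k59 1 (.d k149 k191
  k196 6 12)))))) .n)) (.c k153 (.l (.s k59 k55 1 (.s k187 k119 9 (.s k123 k251 7 (.s k183 k243 9
  (.d k191 k179 k127 1 7)))))) .n)))))

def t42_46 : T TT 256 :=
  (.q k34 [(.s k51 k17 4 (.s k85 k255 14 (.s k102 k238 9 (.s k68 k119 4 (.d k204 k136 k153 9
  14))))), (.s k51 k17 4 (.s k255 k85 14 (.s k55 k59 1 (.s k119 k187 9 (.s k183 k247 7 (.s k123 k243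
  9 (.d k127 k115 k191 1 7)))))))] (.c k17 (.f k85 k255 14 (.q k12 [(.s k8 k4 1 (.s k89 k251 12 (.s
  k81 k93 1 (.d k243 k166 k162 14 12)))), (.s k102 k238 9 (.s k68 k119 4 (.s k204 k136 9 (.s k76
  k140 7 (.s k110 k157 12 (.s k89 k115 6 (.d k93 k127 k81 4 1))))))), (.s k4 k8 1 (.s k166 k247 12
  (.s k102 k238 9 (.s k38 k230 7 (.s k55 k21 4 (.d k51 k59 k25 1 6))))))] (.c k166 (.q k226 [(.s k8
  k4 1 (.s k89 k251 12 (.s k81 k93 1 (.d k162 k243 k98 12 7)))), (.s k98 k162 7 (.s k102 k238 9 (.s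
  k68 k119 4 (.s k204 k136 9 (.s k76 k140 7 (.s k115 k89 6 (.d k64 k72 k81 1 4))))))), (.s k8 k4 1
  (.s k89 k251 12 (.s k102 k238 9 (.s k68 k119 4 (.s k204 k136 9 (.d k76 k115 k140 6 7))))))] (.c
  k89 (.l (.s k4 k8 1 (.s k162 k98 7 (.s k243 k81 12 (.s k102 k238 9 (.s k68 k119 4 (.s k132 k196 7
  (.d k192 k209 k72 4 9)))))))) .n)) (.c k226 (.q k166 [(.d k4 k8 k247 1 12), (.s k243 k89 14 (.d
  k162 k174 k81 1 12))] .n) .n)))) (.c k51 (.f k255 k85 14 (.q k64 [(.s k191 k127 7 (.d k128 k149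
  k192 6 7)), (.s k238 k102 9 (.s k127 k191 7 (.s k204 k221 4 (.s k68 k136 9 (.s k110 k157 12 (.d
  k76 k93 k72 4 1)))))), (.s k192 k128 7 (.s k238 k102 9 (.s k234 k213 6 (.s k226 k230 1 (.s k243
  k209 4 (.d k162 k98 k81 7 12))))))] (.c k166 (.q k226 [(.s k191 k127 7 (.d k128 k149 k192 6 7)),
  (.s k238 k102 9 (.s k204 k221 4 (.s k230 k234 1 (.s k243 k217 6 (.d k162 k98 k81 7 12)))))] (.c k4
  (.q k247 [(.s k192 k128 7 (.d k243 k251 k209 1 4)), (.s k128 k192 7 (.d k191 k149 k127 6 7)), (.s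
  k243 k251 1 (.d k162 k98 k81 7 12))] .n) (.c k247 (.q k4 [(.s k191 k127 7 (.d k128 k149 k192 6
  7)), (.s k8 k12 1 (.s k89 k251 12 (.s k98 k162 7 (.s k102 k238 9 (.d k115 k81 k76 4 6)))))] .n)
  .n))) (.c k226 (.q k166 [(.s k191 k127 7 (.d k128 k149 k192 6 7)), (.s k162 k174 1 (.s k243 k81 12
  (.s k89 k12 14 (.d k251 k247 k8 1 12))))] .n) .n)))) (.c k85 (.f k51 k17 4 (.l (.s k102 k238 9 (.s
  k55 k59 1 (.s k153 k204 14 (.s k149 k196 12 (.s k128 k191 6 (.s k145 k157 1 (.d k192 k64 k98 7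
  12))))))))) (.c k119 (.l (.s k51 k17 4 (.s k255 k85 14 (.s k102 k238 9 (.s k55 k59 1 (.s k149 k196
  12 (.d k191 k127 k128 7 6))))))) (.c k153 (.f k51 k17 4 (.f k59 k55 1 (.f k85 k255 14 (.q k166
  [(.s k4 k247 12 (.s k12 k8 1 (.s k162 k174 1 (.d k243 k81 k89 12 14)))), (.s k102 k238 9 (.s k38
  k230 7 (.s k12 k25 6 (.d k4 k8 k247 1 12)))), (.s k162 k174 1 (.s k81 k243 12 (.s k98 k226 7 (.s
  k192 k145 12 (.d k64 k115 k128 4 7))))), (.s k4 k247 12 (.s k12 k8 1 (.s k38 k25 6 (.d k102 k230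
  k238 7 9))))] (.c k12 (.l (.s k102 k238 9 (.s k230 k38 7 (.s k68 k119 4 (.s k204 k136 9 (.s k243
  k217 6 (.d k162 k174 k81 1 12))))))) (.c k238 (.l (.s k4 k247 12 (.s k12 k8 1 (.s k243 k89 14 (.d
  k162 k174 k81 1 12))))) (.c k247 (.l (.s k102 k238 9 (.s k38 k230 7 (.s k12 k25 6 (.s k8 k4 1 (.d
  k89 k251 k243 12 14)))))) .n))))))) (.c k166 (.q k226 [(.s k51 k17 4 (.s k85 k255 14 (.s k102 k238
  9 (.s k68 k119 4 (.d k204 k136 k153 9 14))))), (.s k51 k17 4 (.s k98 k162 7 (.s k192 k145 12 (.s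
  k128 k64 7 (.s k191 k149 6 (.d k255 k127 k85 7 14)))))), (.s k255 k85 14 (.s k162 k98 7 (.s k243
  k81 12 (.s k192 k209 4 (.s k234 k213 6 (.d k238 k102 k230 9 1)))))), (.s k51 k17 4 (.s k98 k162 7
  (.s k102 k238 9 (.s k55 k59 1 (.s k145 k192 12 (.s k149 k196 12 (.d k153 k204 k157 14 1)))))))]
  (.c k17 (.q k51 [(.s k85 k255 14 (.s k102 k238 9 (.s k68 k119 4 (.d k204 k136 k153 9 14)))), (.s
  k98 k162 7 (.s k192 k145 12 (.s k128 k64 7 (.s k191 k149 6 (.d k255 k127 k85 7 14))))), (.s k98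
  k162 7 (.s k102 k238 9 (.s k192 k145 12 (.s k128 k64 7 (.s k149 k191 6 (.d k55 k59 k196 1
  12))))))] (.c k85 (.l (.s k98 k162 7 (.s k102 k238 9 (.s k55 k59 1 (.s k145 k192 12 (.s k153 k204
  14 (.d k149 k196 k157 12 1))))))) .n)) .n)) (.c k221 (.l (.s k51 k17 4 (.s k85 k255 14 (.s k102
  k238 9 (.s k204 k153 14 (.d k68 k119 k136 4 9)))))) (.c k226 (.q k166 [(.s k51 k17 4 (.s k255 k85
  14 (.s k187 k119 9 (.s k153 k136 4 (.d k102 k238 k204 9 14))))), (.s k85 k255 14 (.s k4 k247 12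
  (.s k12 k8 1 (.s k243 k89 14 (.d k162 k174 k81 1 12)))))] (.c k85 (.l (.s k51 k17 4 (.s k102 k238
  9 (.s k153 k204 14 (.s k179 k140 6 (.s k243 k115 7 (.d k162 k174 k81 1 12))))))) (.c k255 (.l (.s
  k51 k17 4 (.s k102 k238 9 (.s k230 k38 7 (.s k204 k153 14 (.s k243 k217 6 (.d k162 k174 k81 1
  12))))))) .n))) (.c k255 (.f k51 k17 4 (.l (.s k102 k238 9 (.s k55 k59 1 (.s k149 k196 12 (.s k128
  k191 6 (.s k192 k64 7 (.s k145 k98 12 (.d k153 k204 k157 14 1))))))))) .n))))))))))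

def t42_47 : T TT 256 :=
  (.q k32 [(.s k48 k16 3 (.s k85 k255 14 (.s k101 k239 10 (.s k69 k117 3 (.d k207 k138 k154 10
  14))))), (.s k48 k16 3 (.s k255 k85 14 (.s k53 k58 2 (.s k117 k186 10 (.s k181 k245 7 (.s k122
  k240 10 (.d k127 k112 k191 2 7)))))))] (.c k16 (.q k165 [(.s k85 k255 14 (.s k5 k245 11 (.s k15
  k10 2 (.s k240 k90 14 (.d k160 k175 k80 2 11))))), (.s k85 k255 14 (.s k245 k5 11 (.s k101 k239 10
  (.s k229 k37 7 (.s k117 k69 3 (.s k53 k181 7 (.d k197 k213 k149 3 11))))))), (.s k160 k175 2 (.s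
  k240 k80 11 (.s k224 k96 7 (.s k181 k122 10 (.s k149 k133 3 (.s k128 k191 6 (.d k192 k208 k64 3
  7)))))))] (.c k175 (.q k37 [(.d k101 k239 k229 10 7), (.s k85 k255 14 (.s k5 k245 11 (.s k15 k10 2
  (.s k53 k21 3 (.d k48 k58 k26 2 6)))))] (.c k111 (.f k239 k101 10 (.q k96 [(.s k85 k255 14 (.s
  k160 k224 7 (.s k240 k80 11 (.s k5 k245 11 (.d k15 k10 k90 2 14))))), (.s k160 k224 7 (.s k240 k80
  11 (.s k181 k122 10 (.s k149 k133 3 (.s k128 k191 6 (.s k144 k176 3 (.d k192 k64 k48 7 11))))))),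
  (.s k85 k255 14 (.s k5 k245 11 (.s k15 k10 2 (.s k53 k21 3 (.d k48 k58 k26 2 6)))))] (.c k240 (.q
  k10 [(.s k5 k15 2 (.d k85 k255 k245 14 11)), (.s k15 k5 2 (.s k48 k26 6 (.s k192 k144 11 (.s k133
  k74 10 (.s k149 k181 3 (.d k128 k191 k64 6 7)))))), (.s k255 k85 14 (.s k250 k90 11 (.s k224 k160
  7 (.s k223 k207 3 (.s k234 k229 2 (.s k218 k202 3 (.d k213 k192 k208 6 2)))))))] .n) .n))) (.c
  k239 (.q k111 [(.s k101 k229 7 (.s k207 k159 11 (.s k69 k138 10 (.d k85 k117 k255 3 14)))), (.s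
  k85 k255 14 (.s k5 k245 11 (.s k15 k10 2 (.s k53 k21 3 (.d k48 k58 k26 2 6))))), (.s k101 k229 7
  (.s k207 k159 11 (.s k138 k69 10 (.d k154 k186 k48 3 14))))] (.c k207 (.l (.s k255 k85 14 (.s k101
  k229 7 (.s k127 k191 7 (.s k79 k95 3 (.s k90 k112 6 (.s k10 k250 11 (.d k15 k240 k5 14 2))))))))
  .n)) .n))) .n)) (.c k48 (.f k255 k85 14 (.q k64 [(.s k191 k127 7 (.d k128 k149 k192 6 7)), (.s
  k239 k101 10 (.s k127 k191 7 (.s k207 k223 3 (.s k69 k138 10 (.s k111 k159 11 (.d k79 k95 k74 3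
  2)))))), (.s k192 k128 7 (.s k239 k101 10 (.s k234 k213 6 (.s k224 k229 2 (.s k240 k208 3 (.d k160
  k96 k80 7 11))))))] (.c k165 (.q k224 [(.s k191 k127 7 (.d k128 k149 k192 6 7)), (.s k239 k101 10
  (.s k207 k223 3 (.s k229 k234 2 (.s k240 k218 6 (.d k160 k96 k80 7 11)))))] (.c k5 (.q k245 [(.s
  k192 k128 7 (.d k240 k250 k208 2 3)), (.s k128 k192 7 (.d k191 k149 k127 6 7)), (.s k240 k250 2
  (.d k160 k96 k80 7 11))] .n) (.c k245 (.q k5 [(.s k191 k127 7 (.d k128 k149 k192 6 7)), (.s k10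
  k15 2 (.s k90 k250 11 (.s k96 k160 7 (.s k101 k239 10 (.d k112 k80 k79 3 6)))))] .n) .n))) (.c
  k224 (.q k165 [(.s k191 k127 7 (.d k128 k149 k192 6 7)), (.s k160 k175 2 (.s k240 k80 11 (.s k90
  k15 14 (.d k250 k245 k10 2 11))))] .n) .n)))) (.c k85 (.f k48 k16 3 (.l (.s k101 k239 10 (.s k53
  k58 2 (.s k154 k207 14 (.s k149 k197 11 (.s k128 k191 6 (.s k144 k159 2 (.d k192 k64 k96 7
  11))))))))) (.c k117 (.l (.s k48 k16 3 (.s k255 k85 14 (.s k101 k239 10 (.s k53 k58 2 (.s k149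
  k197 11 (.d k191 k127 k128 7 6))))))) (.c k154 (.q k165 [(.s k85 k255 14 (.s k160 k175 2 (.s k240
  k80 11 (.s k5 k245 11 (.d k15 k10 k90 2 14))))), (.s k160 k175 2 (.s k80 k240 11 (.s k96 k224 7
  (.s k64 k112 3 (.s k192 k128 7 (.d k48 k16 k144 3 11)))))), (.s k48 k16 3 (.s k85 k255 14 (.s k5
  k245 11 (.s k15 k10 2 (.s k37 k26 6 (.s k58 k53 2 (.d k101 k229 k239 7 10)))))))] (.c k58 (.q k202
  [(.s k85 k255 14 (.s k160 k175 2 (.s k240 k80 11 (.s k5 k245 11 (.d k15 k10 k90 2 14))))), (.s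
  k160 k175 2 (.s k80 k240 11 (.s k96 k224 7 (.s k64 k112 3 (.s k192 k128 7 (.d k48 k16 k144 3
  11)))))), (.s k85 k255 14 (.s k101 k239 10 (.s k69 k117 3 (.s k207 k138 10 (.s k197 k192 2 (.d k5
  k133 k245 7 11)))))), (.s k255 k85 14 (.s k175 k160 2 (.s k15 k95 11 (.s k90 k240 14 (.d k10 k5
  k250 2 11)))))] (.c k10 (.q k26 [(.s k48 k16 3 (.s k37 k15 6 (.d k101 k229 k239 7 10))), (.s k255
  k85 14 (.s k160 k175 2 (.s k240 k80 11 (.s k181 k122 10 (.s k149 k133 3 (.d k191 k127 k128 7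
  6)))))), (.s k101 k239 10 (.s k37 k229 7 (.s k15 k48 6 (.s k240 k90 14 (.d k160 k175 k80 2
  11)))))] (.c k239 (.l (.s k48 k16 3 (.s k15 k37 6 (.s k240 k90 14 (.d k160 k175 k80 2 11))))) .n))
  (.c k26 (.q k10 [(.s k15 k5 2 (.d k90 k250 k240 11 14)), (.s k85 k255 14 (.s k138 k74 7 (.s k69
  k207 10 (.d k101 k239 k117 10 3))))] (.c k90 (.q k218 [(.s k85 k255 14 (.d k5 k15 k245 2 11)), (.s
  k101 k239 10 (.s k229 k37 7 (.s k207 k240 6 (.d k138 k74 k69 7 10))))] (.c k15 (.l (.s k85 k255 14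
  (.s k101 k239 10 (.s k69 k117 3 (.d k138 k207 k74 10 7))))) (.c k74 (.q k122 [(.s k240 k181 10 (.d
  k160 k175 k80 2 11)), (.s k5 k15 2 (.d k85 k245 k255 11 14))] .n) (.c k122 (.l (.s k74 k138 7 (.s
  k5 k15 2 (.d k85 k245 k255 11 14)))) .n)))) (.c k218 (.l (.s k90 k250 11 (.d k15 k5 k240 2 14)))
  .n))) (.c k175 (.f k255 k85 14 (.l (.s k16 k48 3 (.s k239 k101 10 (.s k207 k223 3 (.s k192 k197 2
  (.s k234 k213 6 (.s k218 k250 3 (.d k229 k224 k240 2 6))))))))) .n)))) (.c k202 (.q k58 [(.d k48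
  k53 k16 2 3), (.s k85 k255 14 (.s k5 k245 11 (.s k15 k10 2 (.s k240 k90 14 (.d k160 k175 k80 2
  11)))))] .n) (.c k239 (.l (.s k85 k255 14 (.s k5 k245 11 (.s k15 k10 2 (.s k240 k90 14 (.d k160
  k175 k80 2 11)))))) (.c k240 (.l (.s k48 k16 3 (.s k85 k255 14 (.s k245 k5 11 (.s k101 k239 10 (.s
  k117 k69 3 (.d k53 k58 k181 2 7))))))) .n))))) (.c k165 (.q k224 [(.s k48 k16 3 (.s k85 k255 14
  (.s k101 k239 10 (.s k69 k117 3 (.d k207 k138 k154 10 14))))), (.s k48 k16 3 (.s k96 k160 7 (.s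
  k192 k144 11 (.s k128 k64 7 (.s k191 k149 6 (.d k255 k127 k85 7 14)))))), (.s k255 k85 14 (.s k160
  k96 7 (.s k240 k80 11 (.s k192 k208 3 (.s k234 k213 6 (.d k239 k101 k229 10 2)))))), (.s k48 k16 3
  (.s k96 k160 7 (.s k101 k239 10 (.s k53 k58 2 (.s k144 k192 11 (.s k149 k197 11 (.d k154 k207 k159
  14 2)))))))] (.c k16 (.q k48 [(.s k85 k255 14 (.s k101 k239 10 (.s k69 k117 3 (.d k207 k138 k154
  10 14)))), (.s k96 k160 7 (.s k192 k144 11 (.s k128 k64 7 (.s k191 k149 6 (.d k255 k127 k85 7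
  14))))), (.s k96 k160 7 (.s k101 k239 10 (.s k192 k144 11 (.s k128 k64 7 (.s k149 k191 6 (.d k53
  k58 k197 2 11))))))] (.c k85 (.l (.s k96 k160 7 (.s k101 k239 10 (.s k53 k58 2 (.s k144 k192 11
  (.s k154 k207 14 (.d k149 k197 k159 11 2))))))) .n)) .n)) (.c k223 (.l (.s k48 k16 3 (.s k85 k255
  14 (.s k101 k239 10 (.s k207 k154 14 (.d k69 k117 k138 3 10)))))) (.c k224 (.q k165 [(.s k48 k16 3
  (.s k255 k85 14 (.s k186 k117 10 (.s k154 k138 3 (.d k101 k239 k207 10 14))))), (.s k85 k255 14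
  (.s k5 k245 11 (.s k15 k10 2 (.s k240 k90 14 (.d k160 k175 k80 2 11)))))] (.c k85 (.l (.s k48 k16
  3 (.s k101 k239 10 (.s k154 k207 14 (.s k176 k143 6 (.s k240 k112 7 (.d k160 k175 k80 2 11)))))))
  (.c k255 (.l (.s k48 k16 3 (.s k101 k239 10 (.s k229 k37 7 (.s k207 k154 14 (.s k240 k218 6 (.d
  k160 k175 k80 2 11))))))) .n))) (.c k255 (.f k48 k16 3 (.l (.s k101 k239 10 (.s k53 k58 2 (.s k149
  k197 11 (.s k128 k191 6 (.s k192 k64 7 (.s k144 k96 11 (.d k154 k207 k159 14 2)))))))))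
  .n))))))))))

def t42_48 : T TT 256 :=
  (.f k255 k85 14 (.q k252 [(.s k168 k84 13 (.s k169 k171 0 (.s k254 k253 0 (.d k86 k2 k3 13 14)))),
  (.s k126 k189 8 (.s k127 k191 7 (.s k125 k124 0 (.s k190 k60 8 (.d k254 k253 k62 0 7))))), (.s
  k168 k84 13 (.s k189 k126 8 (.s k169 k171 0 (.s k149 k129 5 (.d k191 k127 k128 7 6)))))] (.c k64
  (.l (.s k127 k191 7 (.s k168 k84 13 (.s k169 k171 0 (.s k86 k3 14 (.d k254 k253 k2 0 13)))))) (.c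
  k127 (.q k64 [(.s k168 k84 13 (.s k169 k171 0 (.s k254 k253 0 (.d k86 k2 k3 13 14)))), (.s k192
  k128 7 (.s k84 k168 13 (.s k104 k124 5 (.s k148 k60 13 (.d k212 k232 k20 5 7))))), (.s k128 k192 7
  (.s k189 k126 8 (.s k149 k191 6 (.s k169 k129 5 (.s k254 k253 0 (.d k86 k3 k2 14 13))))))] .n)
  .n))))

def t42_49 : T TT 256 :=
  (.f k255 k85 14 (.q k252 [(.s k168 k84 13 (.s k169 k171 0 (.s k86 k3 14 (.d k254 k253 k2 0 13)))),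
  (.s k126 k189 8 (.s k127 k191 7 (.s k125 k124 0 (.s k190 k60 8 (.d k254 k253 k62 0 7))))), (.s
  k168 k84 13 (.s k189 k126 8 (.s k169 k171 0 (.s k149 k129 5 (.d k191 k127 k128 7 6)))))] (.c k64
  (.l (.s k127 k191 7 (.s k168 k84 13 (.s k169 k171 0 (.s k86 k3 14 (.d k254 k253 k2 0 13)))))) (.c
  k127 (.q k64 [(.s k168 k84 13 (.s k169 k171 0 (.s k86 k3 14 (.d k254 k253 k2 0 13)))), (.s k192
  k128 7 (.s k84 k168 13 (.s k104 k124 5 (.s k148 k60 13 (.d k212 k232 k20 5 7))))), (.s k128 k192 7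
  (.s k189 k126 8 (.s k149 k191 6 (.s k169 k129 5 (.s k254 k253 0 (.d k86 k3 k2 14 13))))))] .n)
  .n))))

def t42_50 : T TT 256 :=
  (.f k255 k85 14 (.q k252 [(.s k168 k84 13 (.s k169 k171 0 (.s k86 k3 14 (.d k254 k253 k2 0 13)))),
  (.s k126 k189 8 (.s k127 k191 7 (.s k125 k124 0 (.s k190 k60 8 (.d k254 k253 k62 0 7))))), (.s
  k168 k84 13 (.s k189 k126 8 (.s k169 k171 0 (.s k149 k129 5 (.d k191 k127 k128 7 6)))))] (.c k64
  (.l (.s k127 k191 7 (.s k168 k84 13 (.s k169 k171 0 (.s k86 k3 14 (.d k254 k253 k2 0 13)))))) (.c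
  k127 (.q k64 [(.s k168 k84 13 (.s k169 k171 0 (.s k86 k3 14 (.d k254 k253 k2 0 13)))), (.s k192
  k128 7 (.s k84 k168 13 (.s k104 k124 5 (.s k148 k60 13 (.d k212 k232 k20 5 7))))), (.s k128 k192 7
  (.s k189 k126 8 (.s k149 k191 6 (.s k169 k129 5 (.s k254 k253 0 (.d k86 k3 k2 14 13))))))] .n)
  .n))))

def t42_51 : T TT 256 :=
  (.f k255 k85 14 (.q k252 [(.s k168 k84 13 (.s k169 k171 0 (.s k254 k253 0 (.d k86 k2 k3 13 14)))),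
  (.s k126 k189 8 (.s k127 k191 7 (.s k125 k124 0 (.s k190 k60 8 (.d k254 k253 k62 0 7))))), (.s
  k168 k84 13 (.s k189 k126 8 (.s k169 k171 0 (.s k149 k129 5 (.d k191 k127 k128 7 6)))))] (.c k64
  (.l (.s k127 k191 7 (.s k168 k84 13 (.s k169 k171 0 (.s k86 k3 14 (.d k254 k253 k2 0 13)))))) (.c
  k127 (.q k64 [(.s k168 k84 13 (.s k169 k171 0 (.s k254 k253 0 (.d k86 k2 k3 13 14)))), (.s k192
  k128 7 (.s k84 k168 13 (.s k104 k124 5 (.s k148 k60 13 (.d k212 k232 k20 5 7))))), (.s k128 k192 7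
  (.s k189 k126 8 (.s k149 k191 6 (.s k169 k129 5 (.s k254 k253 0 (.d k86 k3 k2 14 13))))))] .n)
  .n))))

def t42_52 : T TT 256 :=
  (.f k255 k85 14 (.q k252 [(.s k168 k84 13 (.s k169 k171 0 (.s k86 k3 14 (.d k254 k253 k2 0 13)))),
  (.s k126 k189 8 (.s k127 k191 7 (.s k125 k124 0 (.s k190 k60 8 (.d k254 k253 k62 0 7))))), (.s
  k168 k84 13 (.s k189 k126 8 (.s k169 k171 0 (.s k149 k129 5 (.d k191 k127 k128 7 6)))))] (.c k64
  (.l (.s k127 k191 7 (.s k168 k84 13 (.s k169 k171 0 (.s k86 k3 14 (.d k254 k253 k2 0 13)))))) (.c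
  k127 (.q k64 [(.s k168 k84 13 (.s k169 k171 0 (.s k86 k3 14 (.d k254 k253 k2 0 13)))), (.s k192
  k128 7 (.s k84 k168 13 (.s k104 k124 5 (.s k148 k60 13 (.d k212 k232 k20 5 7))))), (.s k128 k192 7
  (.s k189 k126 8 (.s k149 k191 6 (.s k169 k129 5 (.s k254 k253 0 (.d k86 k3 k2 14 13))))))] .n)
  .n))))

def t42_53 : T TT 256 :=
  (.f k255 k85 14 (.q k252 [(.s k168 k84 13 (.s k169 k171 0 (.s k86 k3 14 (.d k254 k253 k2 0 13)))),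
  (.s k126 k189 8 (.s k127 k191 7 (.s k125 k124 0 (.s k190 k60 8 (.d k254 k253 k62 0 7))))), (.s
  k168 k84 13 (.s k189 k126 8 (.s k169 k171 0 (.s k149 k129 5 (.d k191 k127 k128 7 6)))))] (.c k64
  (.l (.s k127 k191 7 (.s k168 k84 13 (.s k169 k171 0 (.s k86 k3 14 (.d k254 k253 k2 0 13)))))) (.c
  k127 (.q k64 [(.s k168 k84 13 (.s k169 k171 0 (.s k86 k3 14 (.d k254 k253 k2 0 13)))), (.s k192
  k128 7 (.s k84 k168 13 (.s k104 k124 5 (.s k148 k60 13 (.d k212 k232 k20 5 7))))), (.s k128 k192 7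
  (.s k189 k126 8 (.s k149 k191 6 (.s k169 k129 5 (.s k254 k253 0 (.d k86 k3 k2 14 13))))))] .n)
  .n))))

def t42_54 : T TT 256 :=
  (.f k255 k85 14 (.q k252 [(.s k168 k84 13 (.s k169 k171 0 (.s k86 k3 14 (.d k254 k253 k2 0 13)))),
  (.s k126 k189 8 (.s k127 k191 7 (.s k125 k124 0 (.s k190 k60 8 (.d k254 k253 k62 0 7))))), (.s
  k168 k84 13 (.s k189 k126 8 (.s k169 k171 0 (.s k149 k129 5 (.d k191 k127 k128 7 6)))))] (.c k64
  (.l (.s k127 k191 7 (.s k168 k84 13 (.s k169 k171 0 (.s k86 k3 14 (.d k254 k253 k2 0 13)))))) (.c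
  k127 (.q k64 [(.s k168 k84 13 (.s k169 k171 0 (.s k86 k3 14 (.d k254 k253 k2 0 13)))), (.s k192
  k128 7 (.s k84 k168 13 (.s k104 k124 5 (.s k148 k60 13 (.d k212 k232 k20 5 7))))), (.s k128 k192 7
  (.s k189 k126 8 (.s k149 k191 6 (.s k169 k129 5 (.s k254 k253 0 (.d k86 k3 k2 14 13))))))] .n)
  .n))))

def t42_55 : T TT 256 :=
  (.f k255 k85 14 (.q k252 [(.s k168 k84 13 (.s k169 k171 0 (.s k86 k3 14 (.d k254 k253 k2 0 13)))),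
  (.s k126 k189 8 (.s k127 k191 7 (.s k125 k124 0 (.s k190 k60 8 (.d k254 k253 k62 0 7))))), (.s
  k168 k84 13 (.s k189 k126 8 (.s k169 k171 0 (.s k149 k129 5 (.d k191 k127 k128 7 6)))))] (.c k64
  (.l (.s k127 k191 7 (.s k168 k84 13 (.s k169 k171 0 (.s k86 k3 14 (.d k254 k253 k2 0 13)))))) (.c
  k127 (.q k64 [(.s k168 k84 13 (.s k169 k171 0 (.s k86 k3 14 (.d k254 k253 k2 0 13)))), (.s k192
  k128 7 (.s k84 k168 13 (.s k104 k124 5 (.s k148 k60 13 (.d k212 k232 k20 5 7))))), (.s k128 k192 7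
  (.s k189 k126 8 (.s k149 k191 6 (.s k169 k129 5 (.s k254 k253 0 (.d k86 k3 k2 14 13))))))] .n)
  .n))))

def t42_56 : T TT 256 :=
  (.f k255 k85 14 (.q k12 [(.s k8 k4 1 (.s k174 k93 12 (.s k166 k162 1 (.d k89 k251 k243 12 14)))),
  (.s k29 k46 4 (.s k93 k174 12 (.s k157 k221 7 (.s k110 k204 12 (.d k127 k76 k191 4 7))))), (.s k8
  k4 1 (.s k89 k251 12 (.s k29 k46 4 (.s k149 k209 9 (.d k191 k127 k128 7 6)))))] (.c k64 (.l (.s
  k127 k191 7 (.s k8 k4 1 (.s k89 k251 12 (.s k166 k243 14 (.d k174 k162 k93 1 12)))))) (.c k127 (.q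
  k64 [(.s k8 k4 1 (.s k89 k251 12 (.s k166 k243 14 (.d k174 k162 k93 1 12)))), (.s k192 k128 7 (.s
  k72 k132 9 (.s k68 k76 1 (.s k136 k204 9 (.d k8 k4 k200 1 7))))), (.s k128 k192 7 (.s k29 k46 4
  (.s k174 k93 12 (.s k149 k191 6 (.s k89 k209 9 (.d k166 k243 k162 14 1))))))] (.c k93 (.l (.s k8
  k4 1 (.s k128 k192 7 (.s k89 k251 12 (.s k29 k46 4 (.d k149 k191 k209 6 9)))))) .n)) (.c k166 (.l
  (.s k46 k29 4 (.s k174 k93 12 (.s k110 k238 7 (.s k157 k204 12 (.d k191 k140 k127 4 7))))))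
  .n)))))

def t42_57 : T TT 256 :=
  (.f k255 k85 14 (.q k252 [(.s k168 k84 13 (.s k169 k171 0 (.s k86 k3 14 (.d k254 k253 k2 0 13)))),
  (.s k126 k189 8 (.s k127 k191 7 (.s k125 k124 0 (.s k190 k60 8 (.d k254 k253 k62 0 7))))), (.s
  k168 k84 13 (.s k189 k126 8 (.s k169 k171 0 (.s k149 k129 5 (.d k191 k127 k128 7 6)))))] (.c k64
  (.l (.s k127 k191 7 (.s k168 k84 13 (.s k169 k171 0 (.s k86 k3 14 (.d k254 k253 k2 0 13)))))) (.c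
  k127 (.q k64 [(.s k168 k84 13 (.s k169 k171 0 (.s k86 k3 14 (.d k254 k253 k2 0 13)))), (.s k192
  k128 7 (.s k84 k168 13 (.s k104 k124 5 (.s k148 k60 13 (.d k212 k232 k20 5 7))))), (.s k128 k192 7
  (.s k189 k126 8 (.s k149 k191 6 (.s k169 k129 5 (.s k254 k253 0 (.d k86 k3 k2 14 13))))))] .n)
  .n))))

def t42_58 : T TT 256 :=
  (.q k10 [(.s k15 k5 2 (.s k85 k255 14 (.s k90 k250 11 (.s k80 k95 2 (.d k240 k160 k165 11 14))))),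
  (.s k15 k5 2 (.s k255 k85 14 (.s k31 k47 3 (.s k95 k175 11 (.s k159 k223 7 (.s k111 k207 11 (.d
  k127 k79 k191 3 7)))))))] (.c k5 (.f k85 k255 14 (.q k12 [(.s k4 k8 1 (.s k166 k247 12 (.s k162
  k174 1 (.d k243 k81 k89 12 14)))), (.s k8 k4 1 (.s k11 k9 0 (.s k251 k89 12 (.s k90 k250 11 (.s
  k169 k248 12 (.d k171 k168 k91 0 11)))))), (.s k90 k250 11 (.s k80 k95 2 (.s k240 k160 11 (.s k88
  k164 13 (.s k89 k91 0 (.s k243 k166 14 (.d k81 k93 k162 1 12)))))))] (.c k89 (.l (.s k4 k8 1 (.s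
  k166 k247 12 (.s k90 k250 11 (.s k14 k242 13 (.s k2 k6 1 (.s k254 k86 13 (.d k174 k162 k94 1
  11)))))))) (.c k154 (.q k202 [(.s k4 k8 1 (.s k166 k247 12 (.s k162 k174 1 (.d k243 k81 k89 12
  14)))), (.s k4 k8 1 (.s k138 k74 7 (.s k69 k207 10 (.s k134 k199 8 (.s k195 k73 10 (.d k130 k142
  k65 1 8)))))), (.s k90 k250 11 (.s k80 k95 2 (.s k240 k160 11 (.s k88 k164 13 (.s k89 k91 0 (.s
  k243 k166 14 (.d k81 k93 k162 1 12)))))))] .n) (.c k202 (.q k154 [(.s k4 k8 1 (.s k166 k247 12 (.s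
  k162 k174 1 (.d k243 k81 k89 12 14)))), (.s k16 k223 10 (.s k48 k32 3 (.s k207 k101 14 (.d k138
  k186 k69 3 10))))] .n) .n))))) (.c k15 (.f k255 k85 14 (.f k250 k90 11 (.f k240 k245 2 (.f k127
  k191 7 (.l (.s k122 k181 10 (.s k117 k112 2 (.s k186 k48 10 (.s k138 k154 3 (.s k202 k74 7 (.s
  k207 k69 10 (.d k218 k234 k229 3 6)))))))))))) (.c k85 (.f k15 k5 2 (.l (.s k90 k250 11 (.s k31
  k47 3 (.s k165 k240 14 (.s k149 k208 10 (.s k128 k191 6 (.s k133 k181 3 (.d k192 k64 k74 7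
  10))))))))) (.c k95 (.l (.s k15 k5 2 (.s k255 k85 14 (.s k90 k250 11 (.s k31 k47 3 (.s k149 k208
  10 (.d k191 k127 k128 7 6))))))) (.c k154 (.q k202 [(.s k15 k5 2 (.s k85 k255 14 (.s k90 k250 11
  (.s k80 k95 2 (.d k240 k160 k165 11 14))))), (.s k15 k5 2 (.s k74 k138 7 (.s k192 k133 10 (.s k128
  k64 7 (.s k191 k149 6 (.d k255 k127 k85 7 14)))))), (.s k255 k85 14 (.s k138 k74 7 (.s k207 k69 10
  (.s k192 k197 2 (.s k234 k213 6 (.d k250 k90 k218 11 3)))))), (.s k15 k5 2 (.s k74 k138 7 (.s k90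
  k250 11 (.s k31 k47 3 (.s k133 k192 10 (.s k149 k208 10 (.d k165 k240 k181 14 3)))))))] (.c k5 (.q
  k15 [(.s k85 k255 14 (.s k90 k250 11 (.s k80 k95 2 (.d k240 k160 k165 11 14)))), (.s k74 k138 7
  (.s k192 k133 10 (.s k128 k64 7 (.s k191 k149 6 (.d k255 k127 k85 7 14))))), (.s k74 k138 7 (.s
  k90 k250 11 (.s k192 k133 10 (.s k128 k64 7 (.s k149 k191 6 (.d k31 k47 k208 3 10))))))] (.c k85
  (.l (.s k74 k138 7 (.s k90 k250 11 (.s k31 k47 3 (.s k133 k192 10 (.s k165 k240 14 (.d k149 k208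
  k181 10 3))))))) .n)) .n)) (.c k165 (.f k255 k85 14 (.f k127 k191 7 (.l (.s k250 k90 11 (.s k15 k5
  2 (.s k245 k240 2 (.s k95 k175 11 (.s k111 k79 3 (.s k159 k207 11 (.d k31 k47 k223 3 7))))))))))
  (.c k202 (.q k154 [(.s k15 k5 2 (.s k255 k85 14 (.s k175 k95 11 (.s k165 k160 2 (.d k90 k250 k240
  11 14))))), (.s k85 k255 14 (.s k16 k223 10 (.s k48 k32 3 (.s k207 k101 14 (.d k138 k186 k69 3
  10)))))] (.c k85 (.l (.s k15 k5 2 (.s k90 k250 11 (.s k165 k240 14 (.s k143 k176 6 (.s k207 k79 7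
  (.d k138 k186 k69 3 10))))))) (.c k255 (.l (.s k15 k5 2 (.s k90 k250 11 (.s k240 k165 14 (.s k218
  k26 7 (.s k207 k229 6 (.d k138 k186 k69 3 10))))))) .n))) (.c k245 (.l (.s k15 k5 2 (.s k85 k255
  14 (.s k90 k250 11 (.s k240 k165 14 (.d k80 k95 k160 2 11)))))) (.c k255 (.f k15 k5 2 (.l (.s k90
  k250 11 (.s k31 k47 3 (.s k149 k208 10 (.s k128 k191 6 (.s k192 k64 7 (.s k133 k74 10 (.d k165
  k240 k181 14 3))))))))) .n))))))))))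

def t42_59 : T TT 256 :=
  (.q k8 [(.s k12 k4 1 (.s k85 k255 14 (.s k89 k251 12 (.s k81 k93 1 (.d k243 k162 k166 12 14))))),
  (.s k12 k4 1 (.s k255 k85 14 (.s k29 k46 4 (.s k93 k174 12 (.s k157 k221 7 (.s k110 k204 12 (.d
  k127 k76 k191 4 7)))))))] (.c k4 (.q k252 [(.s k84 k168 13 (.s k85 k255 14 (.s k86 k87 0 (.s k2
  k254 13 (.d k3 k1 k169 0 14))))), (.s k255 k85 14 (.s k126 k189 8 (.s k127 k191 7 (.s k125 k124 0
  (.s k190 k60 8 (.d k254 k253 k62 0 7)))))), (.s k168 k84 13 (.s k248 k88 11 (.s k89 k251 12 (.s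
  k169 k171 0 (.s k9 k249 11 (.d k11 k10 k90 0 12))))))] (.c k153 (.q k200 [(.s k84 k168 13 (.s k85
  k255 14 (.s k86 k87 0 (.s k2 k254 13 (.d k3 k1 k169 0 14))))), (.s k255 k85 14 (.s k126 k189 8 (.s
  k127 k191 7 (.s k125 k124 0 (.s k190 k60 8 (.d k254 k253 k62 0 7)))))), (.s k168 k84 13 (.s k72
  k136 7 (.s k88 k248 11 (.s k104 k120 3 (.s k40 k232 7 (.d k56 k24 k152 3 11))))))] .n) (.c k200
  (.q k153 [(.s k84 k168 13 (.s k85 k255 14 (.s k86 k87 0 (.s k2 k254 13 (.d k3 k1 k169 0 14))))),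
  (.s k85 k255 14 (.s k17 k221 9 (.s k51 k34 4 (.s k204 k102 14 (.d k136 k187 k68 4 9))))), (.s k168
  k84 13 (.s k248 k88 11 (.s k89 k251 12 (.s k169 k171 0 (.s k9 k249 11 (.d k11 k10 k90 0 12))))))]
  .n) .n))) (.c k12 (.q k252 [(.s k84 k168 13 (.s k85 k255 14 (.s k86 k87 0 (.s k2 k254 13 (.d k3 k1
  k169 0 14))))), (.s k255 k85 14 (.s k126 k189 8 (.s k127 k191 7 (.s k125 k124 0 (.s k190 k60 8 (.d
  k254 k253 k62 0 7)))))), (.s k168 k84 13 (.s k248 k88 11 (.s k89 k251 12 (.s k169 k171 0 (.s k9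
  k249 11 (.d k11 k10 k90 0 12))))))] (.c k153 (.q k200 [(.s k84 k168 13 (.s k85 k255 14 (.s k86 k87
  0 (.s k2 k254 13 (.d k3 k1 k169 0 14))))), (.s k255 k85 14 (.s k136 k72 7 (.s k204 k68 9 (.s k192
  k196 1 (.s k234 k213 6 (.d k251 k89 k217 12 4)))))), (.s k168 k84 13 (.s k72 k136 7 (.s k88 k248
  11 (.s k104 k120 3 (.s k40 k232 7 (.d k56 k24 k152 3 11))))))] .n) (.c k200 (.q k153 [(.s k84 k168
  13 (.s k85 k255 14 (.s k86 k87 0 (.s k2 k254 13 (.d k3 k1 k169 0 14))))), (.s k85 k255 14 (.s k17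
  k221 9 (.s k51 k34 4 (.s k204 k102 14 (.d k136 k187 k68 4 9))))), (.s k168 k84 13 (.s k248 k88 11
  (.s k89 k251 12 (.s k169 k171 0 (.s k9 k249 11 (.d k11 k10 k90 0 12))))))] .n) .n))) (.c k85 (.f
  k12 k4 1 (.l (.s k89 k251 12 (.s k29 k46 4 (.s k166 k243 14 (.s k149 k209 9 (.s k128 k191 6 (.s
  k132 k183 4 (.d k192 k64 k72 7 9))))))))) (.c k93 (.l (.s k12 k4 1 (.s k255 k85 14 (.s k89 k251 12
  (.s k29 k46 4 (.s k149 k209 9 (.d k191 k127 k128 7 6))))))) (.c k153 (.q k200 [(.s k12 k4 1 (.s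
  k85 k255 14 (.s k89 k251 12 (.s k81 k93 1 (.d k243 k162 k166 12 14))))), (.s k12 k4 1 (.s k72 k136
  7 (.s k192 k132 9 (.s k128 k64 7 (.s k191 k149 6 (.d k255 k127 k85 7 14)))))), (.s k255 k85 14 (.s
  k136 k72 7 (.s k204 k68 9 (.s k192 k196 1 (.s k234 k213 6 (.d k251 k89 k217 12 4)))))), (.s k12 k4
  1 (.s k72 k136 7 (.s k89 k251 12 (.s k29 k46 4 (.s k132 k192 9 (.s k149 k209 9 (.d k166 k243 k183
  14 4)))))))] (.c k4 (.q k12 [(.s k85 k255 14 (.s k89 k251 12 (.s k81 k93 1 (.d k243 k162 k166 12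
  14)))), (.s k72 k136 7 (.s k192 k132 9 (.s k128 k64 7 (.s k191 k149 6 (.d k255 k127 k85 7 14))))),
  (.s k72 k136 7 (.s k89 k251 12 (.s k192 k132 9 (.s k128 k64 7 (.s k149 k191 6 (.d k29 k46 k209 4
  9))))))] (.c k85 (.l (.s k72 k136 7 (.s k89 k251 12 (.s k29 k46 4 (.s k132 k192 9 (.s k166 k243 14
  (.d k149 k209 k183 9 4))))))) .n)) .n)) (.c k166 (.f k12 k4 1 (.f k46 k29 4 (.q k153 [(.s k85 k255
  14 (.s k17 k221 9 (.s k51 k34 4 (.s k136 k187 4 (.d k204 k68 k102 9 14))))), (.s k136 k187 4 (.s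
  k68 k204 9 (.s k72 k200 7 (.s k192 k132 9 (.d k64 k76 k128 1 7))))), (.s k85 k255 14 (.s k17 k221
  9 (.s k51 k34 4 (.s k25 k38 6 (.d k89 k217 k251 7 12)))))] (.c k85 (.q k247 [(.s k136 k187 4 (.s
  k68 k204 9 (.s k72 k200 7 (.s k192 k132 9 (.d k64 k76 k128 1 7))))), (.s k89 k251 12 (.s k25 k217
  7 (.s k51 k38 6 (.s k34 k17 4 (.d k102 k238 k204 9 14))))), (.s k251 k89 12 (.s k187 k136 4 (.s
  k255 k243 1 (.s k119 k51 9 (.s k183 k55 7 (.d k191 k179 k127 1 7))))))] (.c k64 (.q k127 [(.s k255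
  k191 7 (.d k251 k243 k89 1 12)), (.s k136 k187 4 (.s k204 k68 9 (.s k76 k140 7 (.d k110 k93 k157 4
  12))))] (.c k251 (.l (.s k191 k255 7 (.s k149 k128 6 (.s k157 k145 1 (.s k110 k204 12 (.d k174
  k238 k140 7 4)))))) .n)) (.c k123 (.l (.s k89 k251 12 (.s k187 k136 4 (.s k25 k217 7 (.s k51 k38 6
  (.s k34 k17 4 (.d k102 k238 k204 9 14))))))) (.c k127 (.q k64 [(.s k192 k128 7 (.s k136 k187 4 (.d
  k72 k200 k132 7 9))), (.s k89 k251 12 (.s k25 k217 7 (.s k51 k38 6 (.s k34 k17 4 (.d k102 k238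
  k204 9 14))))), (.s k192 k128 7 (.s k72 k132 9 (.s k136 k200 7 (.d k68 k76 k204 1 9))))] (.c k200
  (.l (.s k128 k192 7 (.s k136 k187 4 (.s k204 k68 9 (.d k140 k132 k76 1 7))))) .n)) (.c k187 (.q
  k255 [(.d k251 k243 k89 1 12)] (.c k64 (.l (.s k127 k191 7 (.d k251 k243 k89 1 12))) (.c k89 (.l
  (.s k243 k251 1 (.s k123 k183 9 (.s k81 k162 12 (.s k174 k93 12 (.s k110 k238 7 (.s k157 k204 12
  (.d k191 k140 k127 4 7)))))))) (.c k123 (.l (.d k251 k243 k89 1 12)) (.c k127 (.q k64 [(.d k251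
  k243 k89 1 12), (.s k192 k128 7 (.s k72 k132 9 (.s k136 k200 7 (.d k68 k76 k204 1 9))))] (.c k123
  (.l (.d k251 k243 k89 1 12)) (.c k251 (.q k123 [(.s k192 k128 7 (.s k72 k132 9 (.s k136 k200 7 (.d
  k68 k76 k204 1 9)))), (.s k174 k93 12 (.s k110 k238 7 (.s k157 k204 12 (.s k191 k140 4 (.d k149
  k145 k128 1 6))))), (.s k192 k128 7 (.s k174 k93 12 (.s k243 k183 9 (.s k226 k209 4 (.s k234 k213
  6 (.d k238 k110 k230 7 1))))))] (.c k76 (.l (.s k128 k192 7 (.s k174 k93 12 (.s k110 k238 7 (.s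
  k157 k204 12 (.d k191 k140 k149 4 6)))))) (.c k128 (.q k252 [(.s k254 k253 0 (.s k86 k2 13 (.s
  k169 k3 14 (.d k168 k171 k84 0 13)))), (.s k168 k84 13 (.s k88 k248 11 (.s k164 k240 13 (.d k172
  k160 k92 1 11)))), (.s k92 k172 11 (.s k93 k174 12 (.s k94 k95 0 (.s k173 k15 12 (.d k253 k254 k13
  0 11)))))] .n) (.c k149 (.l (.s k192 k128 7 (.s k72 k132 9 (.s k183 k243 9 (.s k136 k200 7 (.d k68
  k76 k204 1 9)))))) .n)))) .n))) (.c k243 (.l (.s k174 k93 12 (.s k110 k238 7 (.s k157 k204 12 (.d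
  k191 k140 k127 4 7))))) (.c k251 (.q k123 [(.s k183 k243 9 (.s k127 k191 7 (.d k119 k115 k55 1
  7))), (.s k174 k93 12 (.s k238 k110 7 (.s k102 k34 9 (.d k204 k221 k51 4 14))))] (.c k64 (.l (.s
  k127 k191 7 (.s k183 k243 9 (.d k119 k115 k55 1 7)))) (.c k127 (.q k64 [(.s k192 k128 7 (.s k72
  k132 9 (.s k136 k200 7 (.d k68 k76 k204 1 9)))), (.s k174 k93 12 (.s k110 k238 7 (.s k157 k204 12
  (.s k191 k140 4 (.d k149 k145 k128 1 6))))), (.s k192 k128 7 (.s k174 k93 12 (.s k243 k183 9 (.s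
  k226 k209 4 (.s k234 k213 6 (.d k238 k110 k230 7 1))))))] (.c k76 (.l (.s k128 k192 7 (.s k174 k93
  12 (.s k110 k238 7 (.s k157 k204 12 (.d k191 k140 k149 4 6)))))) (.c k128 (.q k252 [(.s k254 k253
  0 (.s k86 k2 13 (.s k169 k3 14 (.d k168 k171 k84 0 13)))), (.s k168 k84 13 (.s k88 k248 11 (.s
  k164 k240 13 (.d k172 k160 k92 1 11)))), (.s k92 k172 11 (.s k93 k174 12 (.s k94 k95 0 (.s k173
  k15 12 (.d k253 k254 k13 0 11)))))] .n) (.c k149 (.l (.s k192 k128 7 (.s k72 k132 9 (.s k183 k243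
  9 (.s k136 k200 7 (.d k68 k76 k204 1 9)))))) .n)))) .n))) .n))))))) (.c k251 (.q k255 [(.s k187
  k136 4 (.s k119 k51 9 (.s k183 k55 7 (.d k191 k127 k179 7 1)))), (.s k174 k93 12 (.s k110 k238 7
  (.s k157 k204 12 (.d k191 k127 k140 7 4))))] (.c k64 (.l (.s k127 k191 7 (.s k174 k93 12 (.s k238
  k110 7 (.s k102 k34 9 (.d k204 k221 k51 4 14)))))) (.c k123 (.l (.s k187 k136 4 (.s k51 k119 9 (.s
  k34 k17 4 (.d k102 k238 k204 9 14))))) (.c k127 (.q k64 [(.s k187 k136 4 (.s k51 k119 9 (.s k102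
  k204 14 (.d k34 k17 k238 4 9)))), (.s k192 k128 7 (.s k72 k132 9 (.d k136 k187 k200 4 7))), (.s
  k128 k192 7 (.s k174 k93 12 (.s k110 k238 7 (.s k157 k204 12 (.d k191 k140 k149 4 6)))))] (.c k123
  (.l (.s k187 k136 4 (.s k128 k192 7 (.s k119 k51 9 (.s k183 k55 7 (.d k191 k179 k149 1 6)))))) (.c
  k187 (.q k123 [(.s k192 k128 7 (.s k72 k132 9 (.s k136 k200 7 (.d k68 k76 k204 1 9)))), (.s k174
  k93 12 (.s k110 k238 7 (.s k157 k204 12 (.s k191 k140 4 (.d k149 k145 k128 1 6))))), (.s k192 k128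
  7 (.s k174 k93 12 (.s k243 k183 9 (.s k226 k209 4 (.s k234 k213 6 (.d k238 k110 k230 7 1))))))]
  (.c k76 (.l (.s k128 k192 7 (.s k174 k93 12 (.s k110 k238 7 (.s k157 k204 12 (.d k191 k140 k149 4
  6)))))) (.c k128 (.q k252 [(.s k254 k253 0 (.s k86 k2 13 (.s k169 k3 14 (.d k168 k171 k84 0
  13)))), (.s k168 k84 13 (.s k88 k248 11 (.s k164 k240 13 (.d k172 k160 k92 1 11)))), (.s k92 k172
  11 (.s k93 k174 12 (.s k94 k95 0 (.s k173 k15 12 (.d k253 k254 k13 0 11)))))] .n) (.c k149 (.l (.s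
  k192 k128 7 (.s k72 k132 9 (.s k183 k243 9 (.s k136 k200 7 (.d k68 k76 k204 1 9)))))) .n)))) .n)))
  (.c k187 (.q k123 [(.s k183 k243 9 (.s k127 k191 7 (.d k119 k115 k55 1 7))), (.s k174 k93 12 (.s
  k238 k110 7 (.s k102 k34 9 (.d k204 k221 k51 4 14))))] (.c k64 (.l (.s k127 k191 7 (.s k183 k243 9
  (.d k119 k115 k55 1 7)))) (.c k127 (.q k64 [(.s k192 k128 7 (.s k72 k132 9 (.s k136 k200 7 (.d k68
  k76 k204 1 9)))), (.s k174 k93 12 (.s k110 k238 7 (.s k157 k204 12 (.s k191 k140 4 (.d k149 k145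
  k128 1 6))))), (.s k192 k128 7 (.s k174 k93 12 (.s k243 k183 9 (.s k226 k209 4 (.s k234 k213 6 (.d
  k238 k110 k230 7 1))))))] (.c k76 (.l (.s k128 k192 7 (.s k174 k93 12 (.s k110 k238 7 (.s k157
  k204 12 (.d k191 k140 k149 4 6)))))) (.c k128 (.q k252 [(.s k254 k253 0 (.s k86 k2 13 (.s k169 k3
  14 (.d k168 k171 k84 0 13)))), (.s k168 k84 13 (.s k88 k248 11 (.s k164 k240 13 (.d k172 k160 k92
  1 11)))), (.s k92 k172 11 (.s k93 k174 12 (.s k94 k95 0 (.s k173 k15 12 (.d k253 k254 k13 0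
  11)))))] .n) (.c k149 (.l (.s k192 k128 7 (.s k72 k132 9 (.s k183 k243 9 (.s k136 k200 7 (.d k68
  k76 k204 1 9)))))) .n)))) .n))) (.c k191 (.l (.s k174 k93 12 (.s k238 k110 7 (.s k102 k34 9 (.d
  k204 k221 k51 4 14))))) .n)))))) .n)))))) (.c k204 (.l (.s k85 k255 14 (.s k89 k251 12 (.s k25
  k217 7 (.s k51 k38 6 (.d k17 k221 k34 9 4)))))) (.c k247 (.l (.s k85 k255 14 (.s k17 k221 9 (.s
  k51 k34 4 (.s k25 k38 6 (.d k89 k251 k217 12 7)))))) (.c k251 (.l (.s k85 k255 14 (.s k17 k221 9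
  (.s k51 k34 4 (.s k204 k102 14 (.d k136 k187 k68 4 9)))))) .n))))))) (.c k200 (.q k153 [(.s k12 k4
  1 (.s k255 k85 14 (.s k174 k93 12 (.s k166 k162 1 (.d k89 k251 k243 12 14))))), (.s k85 k255 14
  (.s k17 k221 9 (.s k51 k34 4 (.s k204 k102 14 (.d k136 k187 k68 4 9)))))] (.c k85 (.l (.s k12 k4 1
  (.s k89 k251 12 (.s k166 k243 14 (.s k140 k179 6 (.s k204 k76 7 (.d k136 k187 k68 4 9))))))) (.c
  k255 (.l (.s k12 k4 1 (.s k89 k251 12 (.s k243 k166 14 (.s k217 k25 7 (.s k204 k230 6 (.d k136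
  k187 k68 4 9))))))) .n))) (.c k247 (.l (.s k12 k4 1 (.s k85 k255 14 (.s k89 k251 12 (.s k243 k166
  14 (.d k81 k93 k162 1 12)))))) (.c k255 (.f k12 k4 1 (.l (.s k89 k251 12 (.s k29 k46 4 (.s k149
  k209 9 (.s k128 k191 6 (.s k192 k64 7 (.s k132 k72 9 (.d k166 k243 k183 14 4))))))))) .n))))))))))

def t42_60 : T TT 256 :=
  (.f k255 k85 14 (.f k127 k191 7 (.q k243 [(.s k123 k183 9 (.s k119 k115 1 (.s k187 k51 9 (.d k251
  k247 k59 1 7)))), (.s k162 k81 12 (.s k174 k166 1 (.s k93 k12 12 (.s k110 k76 4 (.s k204 k157 12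
  (.d k238 k46 k221 7 4))))))] (.c k247 (.l (.s k162 k81 12 (.s k123 k183 9 (.s k119 k115 1 (.s k187
  k51 9 (.s k251 k59 7 (.s k166 k174 1 (.d k89 k8 k12 12 14)))))))) .n))))

def t42_61 : T TT 256 :=
  (.f k255 k85 14 (.f k127 k191 7 (.q k243 [(.s k123 k183 9 (.s k119 k115 1 (.s k187 k51 9 (.d k251
  k247 k59 1 7)))), (.s k162 k81 12 (.s k174 k166 1 (.s k93 k12 12 (.s k110 k76 4 (.s k204 k157 12
  (.d k238 k46 k221 7 4))))))] (.c k247 (.l (.s k162 k81 12 (.s k123 k183 9 (.s k119 k115 1 (.s k187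
  k51 9 (.s k251 k59 7 (.s k166 k174 1 (.d k89 k8 k12 12 14)))))))) .n))))

def t42_62 : T TT 256 :=
  (.f k255 k85 14 (.q k3 [(.s k2 k1 0 (.s k171 k87 13 (.s k169 k168 0 (.d k86 k254 k252 13 14)))),
  (.s k23 k43 5 (.s k87 k171 13 (.s k151 k215 7 (.s k107 k195 13 (.d k127 k67 k191 5 7))))), (.s k2
  k1 0 (.s k86 k254 13 (.s k23 k43 5 (.s k149 k212 8 (.d k191 k127 k128 7 6)))))] (.c k2 (.q k22
  [(.s k23 k43 5 (.s k20 k21 0 (.d k60 k40 k41 5 6))), (.s k43 k23 5 (.s k171 k87 13 (.s k107 k235 7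
  (.s k151 k195 13 (.d k191 k127 k131 7 5)))))] (.c k23 (.l (.s k60 k41 6 (.s k40 k20 5 (.s k105
  k235 8 (.s k150 k195 14 (.d k190 k130 k125 5 8)))))) (.c k43 (.l (.s k60 k41 6 (.s k40 k20 5 (.s
  k105 k235 8 (.s k150 k195 14 (.d k190 k130 k125 5 8)))))) (.c k64 (.l (.s k127 k191 7 (.s k23 k43
  5 (.s k20 k21 0 (.d k60 k40 k41 5 6))))) (.c k127 (.q k64 [(.s k23 k43 5 (.s k20 k21 0 (.d k60 k40
  k41 5 6))), (.s k128 k192 7 (.s k43 k23 5 (.s k171 k87 13 (.s k107 k235 7 (.s k151 k195 13 (.d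
  k191 k131 k149 5 6)))))), (.s k128 k192 7 (.s k60 k41 6 (.s k171 k87 13 (.s k168 k169 0 (.s k188
  k148 5 (.d k252 k84 k124 13 7))))))] (.c k43 (.l (.s k60 k41 6 (.s k40 k20 5 (.s k105 k235 8 (.s
  k150 k195 14 (.d k190 k130 k125 5 8)))))) (.c k150 (.q k194 [(.s k23 k43 5 (.s k20 k21 0 (.d k60
  k40 k41 5 6))), (.s k192 k128 7 (.s k66 k129 8 (.s k65 k67 0 (.d k195 k130 k193 8 0))))] (.c k20
  (.q k215 [(.s k192 k128 7 (.d k195 k193 k235 0 5)), (.s k23 k43 5 (.d k87 k151 k171 7 13))] .n)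
  (.c k215 (.q k20 [(.d k60 k40 k41 5 6), (.d k23 k21 k43 0 5)] .n) .n))) (.c k194 (.q k150 [(.s k60
  k41 6 (.d k190 k130 k125 5 8)), (.s k171 k87 13 (.s k86 k214 7 (.d k169 k168 k252 0 14)))] (.c k66
  (.l (.s k130 k190 5 (.s k195 k65 8 (.d k60 k105 k41 14 6)))) (.c k130 (.q k66 [(.d k192 k128 k129
  7 8), (.s k60 k41 6 (.s k40 k20 5 (.d k105 k235 k195 8 14)))] .n) .n))) .n)))) (.c k150 (.q k194
  [(.s k23 k43 5 (.s k20 k21 0 (.d k60 k40 k41 5 6))), (.s k43 k23 5 (.s k171 k87 13 (.s k107 k235 7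
  (.s k151 k195 13 (.d k191 k127 k131 7 5)))))] (.c k20 (.q k215 [(.s k87 k171 13 (.d k23 k43 k151 5
  7)), (.s k195 k235 5 (.s k65 k130 8 (.s k67 k131 7 (.s k64 k66 0 (.d k192 k128 k193 7 0)))))] (.c
  k64 (.l (.s k127 k191 7 (.s k23 k43 5 (.d k87 k151 k171 7 13)))) (.c k127 (.q k64 [(.s k192 k128 7
  (.d k195 k193 k235 0 5)), (.s k23 k43 5 (.d k87 k151 k171 7 13))] .n) .n))) (.c k23 (.l (.s k41
  k60 6 (.s k171 k87 13 (.s k169 k168 0 (.s k105 k233 7 (.s k235 k40 8 (.s k107 k43 7 (.d k195 k215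
  k151 5 13)))))))) (.c k43 (.l (.s k87 k171 13 (.s k127 k191 7 (.s k107 k67 5 (.s k151 k195 13 (.s
  k23 k215 7 (.s k20 k21 0 (.d k60 k40 k41 5 6)))))))) (.c k60 (.l (.s k23 k43 5 (.s k87 k171 13 (.s
  k127 k191 7 (.s k107 k67 5 (.d k151 k215 k195 7 13)))))) (.c k64 (.l (.s k127 k191 7 (.s k23 k43 5
  (.s k20 k21 0 (.d k60 k40 k41 5 6))))) (.c k127 (.q k64 [(.s k23 k43 5 (.s k20 k21 0 (.d k60 k40
  k41 5 6))), (.s k192 k128 7 (.s k66 k129 8 (.s k65 k67 0 (.d k195 k130 k193 8 0))))] (.c k20 (.q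
  k215 [(.s k192 k128 7 (.d k195 k193 k235 0 5)), (.s k23 k43 5 (.d k87 k151 k171 7 13))] .n) (.c
  k215 (.q k20 [(.d k60 k40 k41 5 6), (.d k23 k21 k43 0 5)] .n) .n))) (.c k215 (.q k20 [(.d k60 k40
  k41 5 6), (.d k23 k21 k43 0 5)] (.c k64 (.l (.s k127 k191 7 (.d k60 k40 k41 5 6))) (.c k127 (.q
  k64 [(.d k60 k40 k41 5 6), (.d k23 k21 k43 0 5)] .n) .n))) .n)))))))) (.c k194 (.q k150 [(.s k60
  k41 6 (.d k190 k130 k125 5 8)), (.s k171 k87 13 (.s k86 k214 7 (.d k169 k168 k252 0 14)))] (.c k64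
  (.l (.s k127 k191 7 (.s k60 k41 6 (.d k190 k130 k125 5 8)))) (.c k66 (.l (.s k130 k190 5 (.s k195
  k65 8 (.d k60 k105 k41 14 6)))) (.c k127 (.q k64 [(.s k60 k41 6 (.d k190 k130 k125 5 8)), (.s k171
  k87 13 (.s k86 k214 7 (.d k169 k168 k252 0 14)))] (.c k66 (.l (.s k130 k190 5 (.s k195 k65 8 (.d
  k60 k105 k41 14 6)))) (.c k130 (.q k66 [(.d k192 k128 k129 7 8), (.s k60 k41 6 (.s k40 k20 5 (.d
  k105 k235 k195 8 14)))] .n) .n))) (.c k130 (.q k66 [(.s k60 k41 6 (.s k40 k20 5 (.d k105 k235 k195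
  8 14))), (.s k171 k87 13 (.s k86 k214 7 (.d k169 k168 k252 0 14)))] (.c k64 (.l (.s k127 k191 7
  (.s k60 k41 6 (.s k40 k20 5 (.d k105 k235 k195 8 14))))) (.c k127 (.q k64 [(.d k192 k128 k129 7
  8), (.s k60 k41 6 (.s k40 k20 5 (.d k105 k235 k195 8 14)))] .n) .n))) .n))))) .n))))))) (.c k22
  (.l (.s k2 k1 0 (.s k86 k254 13 (.s k169 k252 14 (.d k171 k168 k87 0 13))))) (.c k64 (.l (.s k127
  k191 7 (.s k2 k1 0 (.s k86 k254 13 (.s k169 k252 14 (.d k171 k168 k87 0 13)))))) (.c k127 (.q k64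
  [(.s k2 k1 0 (.s k86 k254 13 (.s k169 k252 14 (.d k171 k168 k87 0 13)))), (.s k192 k128 7 (.s k66
  k129 8 (.s k65 k67 0 (.s k130 k195 8 (.d k2 k194 k1 7 0)))))] (.c k1 (.l (.s k128 k192 7 (.s k23
  k43 5 (.s k171 k87 13 (.s k149 k191 6 (.s k86 k212 8 (.d k169 k252 k168 14 0))))))) (.c k2 (.q k22
  [(.s k23 k43 5 (.s k20 k21 0 (.d k60 k40 k41 5 6))), (.s k128 k192 7 (.s k43 k23 5 (.s k171 k87 13
  (.s k107 k235 7 (.s k151 k195 13 (.d k191 k131 k149 5 6)))))), (.s k128 k192 7 (.s k60 k41 6 (.s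
  k171 k87 13 (.s k168 k169 0 (.s k188 k148 5 (.d k252 k84 k124 13 7))))))] (.c k43 (.l (.s k60 k41
  6 (.s k40 k20 5 (.s k105 k235 8 (.s k150 k195 14 (.d k190 k130 k125 5 8)))))) (.c k150 (.q k194
  [(.s k23 k43 5 (.s k20 k21 0 (.d k60 k40 k41 5 6))), (.s k192 k128 7 (.s k66 k129 8 (.s k65 k67 0
  (.d k195 k130 k193 8 0))))] (.c k20 (.q k215 [(.s k192 k128 7 (.d k195 k193 k235 0 5)), (.s k23
  k43 5 (.d k87 k151 k171 7 13))] .n) (.c k215 (.q k20 [(.d k60 k40 k41 5 6), (.d k23 k21 k43 0 5)]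
  .n) .n))) (.c k194 (.q k150 [(.s k60 k41 6 (.d k190 k130 k125 5 8)), (.s k171 k87 13 (.s k86 k214
  7 (.d k169 k168 k252 0 14)))] (.c k66 (.l (.s k130 k190 5 (.s k195 k65 8 (.d k60 k105 k41 14 6))))
  (.c k130 (.q k66 [(.d k192 k128 k129 7 8), (.s k60 k41 6 (.s k40 k20 5 (.d k105 k235 k195 8 14)))]
  .n) .n))) .n)))) (.c k22 (.l (.s k2 k1 0 (.s k86 k254 13 (.s k169 k252 14 (.d k171 k168 k87 0
  13))))) (.c k87 (.l (.s k2 k1 0 (.s k128 k192 7 (.s k86 k254 13 (.s k23 k43 5 (.d k149 k191 k212 6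
  8)))))) (.c k150 (.q k194 [(.s k192 k128 7 (.s k66 k129 8 (.d k2 k130 k1 7 0))), (.s k2 k1 0 (.s
  k86 k254 13 (.s k169 k252 14 (.d k171 k168 k87 0 13))))] (.c k1 (.l (.s k192 k128 7 (.s k66 k129 8
  (.s k65 k67 0 (.d k130 k2 k195 7 8))))) (.c k2 (.q k22 [(.s k23 k43 5 (.s k20 k21 0 (.d k60 k40
  k41 5 6))), (.s k192 k128 7 (.s k66 k129 8 (.s k65 k67 0 (.d k195 k130 k193 8 0))))] (.c k20 (.q
  k215 [(.s k192 k128 7 (.d k195 k193 k235 0 5)), (.s k23 k43 5 (.d k87 k151 k171 7 13))] .n) (.c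
  k215 (.q k20 [(.d k60 k40 k41 5 6), (.d k23 k21 k43 0 5)] .n) .n))) (.c k20 (.q k215 [(.s k192
  k128 7 (.d k195 k193 k235 0 5)), (.s k23 k43 5 (.d k87 k151 k171 7 13))] (.c k2 (.q k22 [(.s k192
  k128 7 (.d k195 k193 k235 0 5)), (.s k23 k43 5 (.d k87 k151 k171 7 13))] .n) (.c k22 (.l (.s k2 k1
  0 (.s k192 k128 7 (.d k66 k130 k129 7 8)))) .n))) (.c k22 (.l (.s k2 k1 0 (.s k192 k128 7 (.d k66
  k130 k129 7 8)))) (.c k215 (.q k20 [(.s k192 k128 7 (.s k66 k129 8 (.d k2 k130 k1 7 0))), (.s k23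
  k43 5 (.s k22 k21 0 (.d k60 k40 k41 5 6)))] (.c k2 (.q k22 [(.d k60 k40 k41 5 6), (.d k23 k21 k43
  0 5)] .n) (.c k22 (.l (.s k2 k1 0 (.s k192 k128 7 (.d k66 k130 k129 7 8)))) .n))) .n)))))) (.c
  k194 (.q k150 [(.s k2 k1 0 (.s k171 k87 13 (.s k169 k168 0 (.d k86 k254 k252 13 14)))), (.s k128
  k192 7 (.s k130 k190 5 (.s k195 k65 8 (.d k131 k129 k67 0 7))))] (.c k2 (.q k22 [(.s k60 k41 6 (.d
  k190 k130 k125 5 8)), (.s k171 k87 13 (.s k86 k214 7 (.d k169 k168 k252 0 14)))] (.c k66 (.l (.s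
  k130 k190 5 (.s k195 k65 8 (.d k60 k105 k41 14 6)))) (.c k130 (.q k66 [(.d k192 k128 k129 7 8),
  (.s k60 k41 6 (.s k40 k20 5 (.d k105 k235 k195 8 14)))] .n) .n))) (.c k22 (.l (.s k2 k1 0 (.s k86
  k254 13 (.s k169 k252 14 (.d k171 k168 k87 0 13))))) (.c k67 (.l (.s k2 k1 0 (.s k86 k254 13 (.s
  k169 k252 14 (.d k171 k168 k87 0 13))))) (.c k254 (.l (.s k192 k128 7 (.s k66 k129 8 (.s k65 k67 0
  (.d k130 k190 k195 5 8))))) .n))))) .n))))))) (.c k150 (.q k194 [(.s k2 k1 0 (.s k171 k87 13 (.s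
  k169 k168 0 (.d k86 k254 k252 13 14)))), (.s k23 k43 5 (.s k87 k171 13 (.s k127 k191 7 (.s k107
  k67 5 (.d k151 k215 k195 7 13))))), (.s k2 k1 0 (.s k66 k130 7 (.s k192 k129 8 (.s k234 k213 6 (.d
  k254 k214 k86 5 13)))))] (.c k2 (.q k22 [(.s k23 k43 5 (.s k20 k21 0 (.d k60 k40 k41 5 6))), (.s
  k43 k23 5 (.s k171 k87 13 (.s k107 k235 7 (.s k151 k195 13 (.d k191 k127 k131 7 5)))))] (.c k20
  (.q k215 [(.s k87 k171 13 (.d k23 k43 k151 5 7)), (.s k195 k235 5 (.s k65 k130 8 (.s k67 k131 7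
  (.s k64 k66 0 (.d k192 k128 k193 7 0)))))] (.c k64 (.l (.s k127 k191 7 (.s k23 k43 5 (.d k87 k151
  k171 7 13)))) (.c k127 (.q k64 [(.s k192 k128 7 (.d k195 k193 k235 0 5)), (.s k23 k43 5 (.d k87
  k151 k171 7 13))] .n) .n))) (.c k23 (.l (.s k41 k60 6 (.s k171 k87 13 (.s k169 k168 0 (.s k105
  k233 7 (.s k235 k40 8 (.s k107 k43 7 (.d k195 k215 k151 5 13)))))))) (.c k43 (.l (.s k87 k171 13
  (.s k127 k191 7 (.s k107 k67 5 (.s k151 k195 13 (.s k23 k215 7 (.s k20 k21 0 (.d k60 k40 k41 5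
  6)))))))) (.c k60 (.l (.s k23 k43 5 (.s k87 k171 13 (.s k127 k191 7 (.s k107 k67 5 (.d k151 k215
  k195 7 13)))))) (.c k64 (.l (.s k127 k191 7 (.s k23 k43 5 (.s k20 k21 0 (.d k60 k40 k41 5 6)))))
  (.c k127 (.q k64 [(.s k23 k43 5 (.s k20 k21 0 (.d k60 k40 k41 5 6))), (.s k192 k128 7 (.s k66 k129
  8 (.s k65 k67 0 (.d k195 k130 k193 8 0))))] (.c k20 (.q k215 [(.s k192 k128 7 (.d k195 k193 k235 0
  5)), (.s k23 k43 5 (.d k87 k151 k171 7 13))] .n) (.c k215 (.q k20 [(.d k60 k40 k41 5 6), (.d k23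
  k21 k43 0 5)] .n) .n))) (.c k215 (.q k20 [(.d k60 k40 k41 5 6), (.d k23 k21 k43 0 5)] (.c k64 (.l
  (.s k127 k191 7 (.d k60 k40 k41 5 6))) (.c k127 (.q k64 [(.d k60 k40 k41 5 6), (.d k23 k21 k43 0
  5)] .n) .n))) .n)))))))) (.c k20 (.q k215 [(.s k87 k171 13 (.d k23 k43 k151 5 7)), (.s k2 k1 0 (.s
  k130 k66 7 (.d k195 k235 k65 5 8)))] (.c k2 (.q k22 [(.s k87 k171 13 (.d k23 k43 k151 5 7)), (.s
  k195 k235 5 (.s k65 k130 8 (.s k67 k131 7 (.s k64 k66 0 (.d k192 k128 k193 7 0)))))] (.c k64 (.l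
  (.s k127 k191 7 (.s k23 k43 5 (.d k87 k151 k171 7 13)))) (.c k127 (.q k64 [(.s k192 k128 7 (.d
  k195 k193 k235 0 5)), (.s k23 k43 5 (.d k87 k151 k171 7 13))] .n) .n))) (.c k22 (.l (.s k2 k1 0
  (.s k130 k66 7 (.d k195 k235 k65 5 8)))) (.c k64 (.l (.s k127 k191 7 (.s k23 k43 5 (.d k87 k151
  k171 7 13)))) (.c k127 (.q k64 [(.s k192 k128 7 (.d k195 k193 k235 0 5)), (.s k23 k43 5 (.d k87
  k151 k171 7 13))] (.c k2 (.q k22 [(.s k192 k128 7 (.d k195 k193 k235 0 5)), (.s k23 k43 5 (.d k87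
  k151 k171 7 13))] .n) (.c k22 (.l (.s k2 k1 0 (.s k192 k128 7 (.d k66 k130 k129 7 8)))) .n)))
  .n))))) (.c k22 (.l (.s k2 k1 0 (.s k86 k254 13 (.s k169 k252 14 (.d k171 k168 k87 0 13))))) (.c
  k64 (.l (.s k127 k191 7 (.s k2 k1 0 (.s k86 k254 13 (.s k169 k252 14 (.d k171 k168 k87 0 13))))))
  (.c k127 (.q k64 [(.s k192 k128 7 (.s k66 k129 8 (.d k2 k130 k1 7 0))), (.s k2 k1 0 (.s k86 k254
  13 (.s k169 k252 14 (.d k171 k168 k87 0 13))))] (.c k1 (.l (.s k192 k128 7 (.s k66 k129 8 (.s k65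
  k67 0 (.d k130 k2 k195 7 8))))) (.c k2 (.q k22 [(.s k23 k43 5 (.s k20 k21 0 (.d k60 k40 k41 5
  6))), (.s k192 k128 7 (.s k66 k129 8 (.s k65 k67 0 (.d k195 k130 k193 8 0))))] (.c k20 (.q k215
  [(.s k192 k128 7 (.d k195 k193 k235 0 5)), (.s k23 k43 5 (.d k87 k151 k171 7 13))] .n) (.c k215
  (.q k20 [(.d k60 k40 k41 5 6), (.d k23 k21 k43 0 5)] .n) .n))) (.c k20 (.q k215 [(.s k192 k128 7
  (.d k195 k193 k235 0 5)), (.s k23 k43 5 (.d k87 k151 k171 7 13))] (.c k2 (.q k22 [(.s k192 k128 7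
  (.d k195 k193 k235 0 5)), (.s k23 k43 5 (.d k87 k151 k171 7 13))] .n) (.c k22 (.l (.s k2 k1 0 (.s
  k192 k128 7 (.d k66 k130 k129 7 8)))) .n))) (.c k22 (.l (.s k2 k1 0 (.s k192 k128 7 (.d k66 k130
  k129 7 8)))) (.c k215 (.q k20 [(.s k192 k128 7 (.s k66 k129 8 (.d k2 k130 k1 7 0))), (.s k23 k43 5
  (.s k22 k21 0 (.d k60 k40 k41 5 6)))] (.c k2 (.q k22 [(.d k60 k40 k41 5 6), (.d k23 k21 k43 0 5)]
  .n) (.c k22 (.l (.s k2 k1 0 (.s k192 k128 7 (.d k66 k130 k129 7 8)))) .n))) .n)))))) (.c k169 (.l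
  (.s k43 k23 5 (.s k171 k87 13 (.s k107 k235 7 (.s k151 k195 13 (.d k191 k131 k127 5 7)))))) (.c
  k215 (.q k20 [(.s k23 k43 5 (.s k22 k21 0 (.d k60 k40 k41 5 6))), (.s k2 k1 0 (.s k86 k254 13 (.s
  k169 k252 14 (.d k171 k168 k87 0 13))))] (.c k2 (.q k22 [(.d k60 k40 k41 5 6), (.d k23 k21 k43 0
  5)] (.c k64 (.l (.s k127 k191 7 (.d k60 k40 k41 5 6))) (.c k127 (.q k64 [(.d k60 k40 k41 5 6), (.d
  k23 k21 k43 0 5)] .n) .n))) (.c k22 (.l (.s k2 k1 0 (.s k86 k254 13 (.s k169 k252 14 (.d k171 k168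
  k87 0 13))))) (.c k64 (.l (.s k127 k191 7 (.s k23 k43 5 (.s k22 k21 0 (.d k60 k40 k41 5 6))))) (.c
  k127 (.q k64 [(.s k192 k128 7 (.s k66 k129 8 (.d k2 k130 k1 7 0))), (.s k23 k43 5 (.s k22 k21 0
  (.d k60 k40 k41 5 6)))] (.c k2 (.q k22 [(.d k60 k40 k41 5 6), (.d k23 k21 k43 0 5)] .n) (.c k22
  (.l (.s k2 k1 0 (.s k192 k128 7 (.d k66 k130 k129 7 8)))) .n))) (.c k169 (.f k127 k191 7 (.l (.s
  k40 k60 5 (.s k43 k23 5 (.s k87 k171 13 (.s k105 k235 8 (.s k67 k107 5 (.s k86 k124 6 (.d k2 k1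
  k254 0 13))))))))) .n)))))) .n)))))))) (.c k169 (.l (.s k43 k23 5 (.s k171 k87 13 (.s k107 k235 7
  (.s k151 k195 13 (.d k191 k131 k127 5 7)))))) (.c k194 (.q k150 [(.s k2 k1 0 (.s k171 k87 13 (.s
  k169 k168 0 (.d k86 k254 k252 13 14)))), (.s k130 k190 5 (.s k195 k65 8 (.s k105 k60 14 (.d k235
  k215 k40 5 8))))] (.c k2 (.q k22 [(.s k60 k41 6 (.d k190 k130 k125 5 8)), (.s k171 k87 13 (.s k86
  k214 7 (.d k169 k168 k252 0 14)))] (.c k64 (.l (.s k127 k191 7 (.s k60 k41 6 (.d k190 k130 k125 5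
  8)))) (.c k66 (.l (.s k130 k190 5 (.s k195 k65 8 (.d k60 k105 k41 14 6)))) (.c k127 (.q k64 [(.s
  k60 k41 6 (.d k190 k130 k125 5 8)), (.s k171 k87 13 (.s k86 k214 7 (.d k169 k168 k252 0 14)))] (.c
  k66 (.l (.s k130 k190 5 (.s k195 k65 8 (.d k60 k105 k41 14 6)))) (.c k130 (.q k66 [(.d k192 k128
  k129 7 8), (.s k60 k41 6 (.s k40 k20 5 (.d k105 k235 k195 8 14)))] .n) .n))) (.c k130 (.q k66 [(.s
  k60 k41 6 (.s k40 k20 5 (.d k105 k235 k195 8 14))), (.s k171 k87 13 (.s k86 k214 7 (.d k169 k168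
  k252 0 14)))] (.c k64 (.l (.s k127 k191 7 (.s k60 k41 6 (.s k40 k20 5 (.d k105 k235 k195 8 14)))))
  (.c k127 (.q k64 [(.d k192 k128 k129 7 8), (.s k60 k41 6 (.s k40 k20 5 (.d k105 k235 k195 8 14)))]
  .n) .n))) .n))))) (.c k22 (.l (.s k2 k1 0 (.s k86 k254 13 (.s k169 k252 14 (.d k171 k168 k87 0
  13))))) (.c k64 (.l (.s k127 k191 7 (.s k2 k1 0 (.s k86 k254 13 (.s k169 k252 14 (.d k171 k168 k87
  0 13)))))) (.c k127 (.q k64 [(.s k2 k1 0 (.s k171 k87 13 (.s k169 k168 0 (.d k86 k254 k252 13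
  14)))), (.s k128 k192 7 (.s k130 k190 5 (.s k195 k65 8 (.d k131 k129 k67 0 7))))] (.c k2 (.q k22
  [(.s k60 k41 6 (.d k190 k130 k125 5 8)), (.s k171 k87 13 (.s k86 k214 7 (.d k169 k168 k252 0
  14)))] (.c k66 (.l (.s k130 k190 5 (.s k195 k65 8 (.d k60 k105 k41 14 6)))) (.c k130 (.q k66 [(.d
  k192 k128 k129 7 8), (.s k60 k41 6 (.s k40 k20 5 (.d k105 k235 k195 8 14)))] .n) .n))) (.c k22 (.l
  (.s k2 k1 0 (.s k86 k254 13 (.s k169 k252 14 (.d k171 k168 k87 0 13))))) (.c k67 (.l (.s k2 k1 0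
  (.s k86 k254 13 (.s k169 k252 14 (.d k171 k168 k87 0 13))))) (.c k254 (.l (.s k192 k128 7 (.s k66
  k129 8 (.s k65 k67 0 (.d k130 k190 k195 5 8))))) .n))))) (.c k254 (.l (.s k171 k87 13 (.s k169
  k168 0 (.s k131 k188 6 (.d k191 k151 k127 5 7))))) .n)))))) .n)))))))))

def t42_64 : T TT 256 :=
  (.f k255 k85 14 (.f k127 k191 7 (.q k150 [(.s k190 k130 5 (.s k60 k125 8 (.s k105 k195 14 (.d k40
  k20 k235 5 8)))), (.s k190 k130 5 (.s k125 k60 8 (.s k126 k124 0 (.s k254 k62 7 (.d k252 k253 k189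
  0 8)))))] (.c k60 (.l (.s k130 k190 5 (.s k195 k65 8 (.s k107 k151 13 (.s k235 k215 5 (.s k171 k43
  7 (.d k87 k67 k3 5 13))))))) (.c k125 (.l (.s k130 k190 5 (.s k195 k65 8 (.s k105 k60 14 (.d k235
  k215 k40 5 8))))) (.c k130 (.q k3 [(.s k2 k1 0 (.s k86 k254 13 (.s k169 k252 14 (.d k171 k168 k87
  0 13)))), (.s k87 k171 13 (.s k107 k67 5 (.s k151 k195 13 (.d k23 k43 k215 5 7)))), (.s k2 k1 0
  (.s k86 k254 13 (.s k23 k43 5 (.s k22 k214 7 (.s k20 k21 0 (.d k60 k40 k41 5 6))))))] .n) (.c k190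
  (.q k3 [(.s k2 k1 0 (.s k171 k87 13 (.s k169 k168 0 (.d k86 k254 k252 13 14)))), (.s k87 k171 13
  (.s k107 k67 5 (.s k151 k195 13 (.d k23 k43 k215 5 7)))), (.s k2 k1 0 (.s k86 k254 13 (.s k23 k43
  5 (.s k22 k214 7 (.s k20 k21 0 (.d k60 k40 k41 5 6))))))] (.c k188 (.q k189 [(.s k2 k1 0 (.s k86
  k254 13 (.d k252 k126 k169 8 14))), (.s k87 k171 13 (.s k107 k67 5 (.s k151 k195 13 (.d k23 k43
  k215 5 7))))] .n) (.c k189 (.q k188 [(.s k169 k131 6 (.d k171 k168 k87 0 13)), (.s k2 k1 0 (.s k86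
  k254 13 (.d k169 k131 k252 6 14)))] (.c k131 (.l (.s k2 k1 0 (.s k86 k254 13 (.s k169 k252 14 (.d
  k171 k168 k87 0 13))))) (.c k169 (.l (.s k87 k171 13 (.s k107 k67 5 (.s k151 k195 13 (.d k23 k43
  k215 5 7))))) .n))) .n))) .n)))))))

def t42_65 : T TT 256 :=
  (.f k255 k85 14 (.f k127 k191 7 (.q k126 [(.s k189 k252 8 (.s k125 k124 0 (.s k60 k190 8 (.d k61
  k62 k253 0 7)))), (.s k252 k189 8 (.s k168 k84 13 (.s k169 k171 0 (.s k86 k3 14 (.d k254 k253 k2 0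
  13)))))] (.c k105 (.l (.s k125 k124 0 (.s k60 k190 8 (.s k61 k62 0 (.d k189 k253 k252 7 8))))) (.c
  k125 (.q k105 [(.s k40 k235 8 (.s k60 k20 5 (.s k150 k195 14 (.s k190 k130 5 (.d k62 k61 k254 0
  7))))), (.s k252 k189 8 (.s k168 k84 13 (.s k169 k171 0 (.s k86 k3 14 (.d k254 k253 k2 0 13))))),
  (.s k235 k40 8 (.s k195 k215 5 (.s k107 k151 13 (.s k87 k67 5 (.d k171 k43 k3 7 13)))))] .n) (.c
  k188 (.l (.s k189 k252 8 (.s k125 k124 0 (.s k60 k190 8 (.d k61 k62 k253 0 7))))) (.c k189 (.l (.s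
  k125 k124 0 (.s k190 k60 8 (.s k254 k62 7 (.s k252 k253 0 (.s k168 k84 13 (.s k169 k171 0 (.d k86
  k2 k3 13 14)))))))) (.c k190 (.q k105 [(.s k40 k235 8 (.s k60 k20 5 (.s k124 k125 0 (.d k252 k188
  k189 7 8)))), (.s k124 k125 0 (.s k86 k67 6 (.s k254 k2 13 (.d k252 k189 k253 8 0)))), (.s k235
  k40 8 (.s k195 k215 5 (.s k107 k151 13 (.s k87 k67 5 (.d k171 k43 k3 7 13)))))] (.c k188 (.l (.s
  k189 k252 8 (.s k40 k235 8 (.s k60 k20 5 (.s k61 k62 0 (.d k125 k124 k253 0 7)))))) (.c k189 (.q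
  k188 [(.s k40 k235 8 (.s k60 k20 5 (.d k124 k125 k252 0 7))), (.s k124 k125 0 (.s k252 k60 7 (.s
  k86 k67 6 (.d k254 k253 k2 0 13)))), (.s k235 k40 8 (.s k195 k215 5 (.s k107 k151 13 (.s k87 k67 5
  (.d k171 k43 k3 7 13)))))] .n) .n))) (.c k252 (.q k105 [(.s k40 k235 8 (.s k125 k124 0 (.d k60 k20
  k190 5 8))), (.s k235 k40 8 (.s k124 k125 0 (.s k67 k86 6 (.s k195 k215 5 (.d k107 k87 k151 5
  13))))), (.s k40 k235 8 (.s k60 k20 5 (.s k62 k61 0 (.s k150 k195 14 (.d k190 k130 k254 5 7)))))]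
  (.c k20 (.l (.s k235 k40 8 (.s k125 k124 0 (.s k60 k190 8 (.d k195 k215 k150 5 14))))) (.c k40 (.l
  (.s k125 k124 0 (.s k60 k190 8 (.s k195 k150 14 (.s k107 k151 13 (.s k87 k67 5 (.s k171 k3 13 (.d
  k235 k215 k43 5 7)))))))) (.c k235 (.q k12 [(.s k8 k4 1 (.s k174 k93 12 (.s k166 k162 1 (.d k89
  k251 k243 12 14)))), (.s k93 k174 12 (.s k110 k76 4 (.s k157 k204 12 (.d k29 k46 k221 4 7)))), (.s
  k8 k4 1 (.s k89 k251 12 (.s k166 k243 14 (.s k44 k227 10 (.s k60 k28 3 (.d k125 k124 k190 0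
  8))))))] .n) .n)))) (.c k253 (.l (.s k252 k189 8 (.s k168 k84 13 (.s k125 k124 0 (.s k190 k60 8
  (.s k254 k62 7 (.s k169 k171 0 (.d k86 k2 k3 13 14)))))))) .n))))))))))

def t42_66 : T TT 256 :=
  (.f k255 k85 14 (.f k127 k191 7 (.q k126 [(.s k189 k252 8 (.s k125 k124 0 (.s k60 k190 8 (.d k61
  k62 k253 0 7)))), (.s k252 k189 8 (.s k168 k84 13 (.s k169 k171 0 (.s k86 k3 14 (.d k254 k253 k2 0
  13)))))] (.c k188 (.l (.s k189 k252 8 (.s k125 k124 0 (.s k60 k190 8 (.d k61 k62 k253 0 7))))) (.c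
  k189 (.l (.s k125 k124 0 (.s k190 k60 8 (.s k254 k62 7 (.s k252 k253 0 (.s k168 k84 13 (.s k169
  k171 0 (.d k86 k2 k3 13 14)))))))) (.c k190 (.l (.s k124 k125 0 (.s k252 k189 8 (.s k188 k60 7 (.s
  k168 k84 13 (.s k169 k171 0 (.s k86 k3 14 (.d k254 k253 k2 0 13)))))))) (.c k252 (.q k12 [(.s k8
  k4 1 (.s k89 k251 12 (.s k174 k93 12 (.d k166 k162 k243 1 14)))), (.s k4 k8 1 (.s k125 k124 0 (.s
  k60 k190 8 (.s k20 k40 5 (.s k36 k52 3 (.s k24 k48 5 (.d k28 k16 k44 1 3))))))), (.s k29 k46 4 (.s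
  k93 k174 12 (.s k157 k221 7 (.d k110 k76 k204 4 12))))] .n) (.c k253 (.l (.s k252 k189 8 (.s k168
  k84 13 (.s k125 k124 0 (.s k190 k60 8 (.s k254 k62 7 (.s k169 k171 0 (.d k86 k2 k3 13 14))))))))
  .n))))))))

def t42_67 : T TT 256 :=
  (.f k255 k85 14 (.f k127 k191 7 (.q k126 [(.s k189 k252 8 (.s k125 k124 0 (.s k60 k190 8 (.d k61
  k62 k253 0 7)))), (.s k252 k189 8 (.s k168 k84 13 (.s k169 k171 0 (.s k86 k3 14 (.d k254 k253 k2 0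
  13)))))] (.c k86 (.l (.s k252 k189 8 (.s k254 k253 0 (.s k190 k62 7 (.d k125 k124 k60 0 8))))) (.c
  k188 (.l (.s k189 k252 8 (.s k125 k124 0 (.s k60 k190 8 (.d k61 k62 k253 0 7))))) (.c k189 (.l (.s
  k125 k124 0 (.s k190 k60 8 (.s k254 k62 7 (.s k252 k253 0 (.s k168 k84 13 (.s k169 k171 0 (.d k86
  k2 k3 13 14)))))))) (.c k190 (.l (.s k124 k125 0 (.s k252 k189 8 (.s k188 k60 7 (.s k168 k84 13
  (.s k169 k171 0 (.s k86 k3 14 (.d k254 k253 k2 0 13)))))))) (.c k252 (.q k12 [(.s k8 k4 1 (.s k89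
  k251 12 (.s k174 k93 12 (.d k166 k162 k243 1 14)))), (.s k4 k8 1 (.s k125 k124 0 (.s k60 k190 8
  (.s k20 k40 5 (.s k36 k52 3 (.s k24 k48 5 (.d k28 k16 k44 1 3))))))), (.s k29 k46 4 (.s k93 k174
  12 (.s k157 k221 7 (.d k110 k76 k204 4 12))))] .n) (.c k253 (.l (.s k252 k189 8 (.s k168 k84 13
  (.s k125 k124 0 (.s k190 k60 8 (.s k254 k62 7 (.s k169 k171 0 (.d k86 k2 k3 13 14))))))))
  .n)))))))))

def t42_68 : T TT 256 :=
  (.f k255 k85 14 (.q k51 [(.s k34 k17 4 (.s k102 k238 9 (.s k153 k204 14 (.d k187 k119 k136 9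
  4)))), (.s k119 k187 9 (.s k127 k191 7 (.s k123 k115 1 (.s k183 k243 9 (.d k55 k59 k247 1 7)))))]
  (.c k64 (.l (.s k127 k191 7 (.s k34 k17 4 (.s k102 k238 9 (.s k153 k204 14 (.d k187 k136 k119 4
  9)))))) (.c k102 (.l (.s k119 k187 9 (.s k55 k59 1 (.s k183 k247 7 (.s k123 k243 9 (.d k127 k115
  k191 1 7)))))) (.c k119 (.q k102 [(.d k34 k17 k238 4 9), (.s k55 k59 1 (.s k149 k196 12 (.d k191
  k127 k128 7 6)))] (.c k64 (.l (.s k127 k191 7 (.d k34 k17 k238 4 9))) (.c k127 (.q k64 [(.d k34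
  k17 k238 4 9), (.s k128 k192 7 (.s k55 k59 1 (.d k149 k191 k196 6 12)))] (.c k115 (.q k123 [(.d
  k34 k17 k238 4 9), (.s k128 k192 7 (.s k55 k59 1 (.d k149 k191 k196 6 12)))] .n) (.c k123 (.q k115
  [(.d k34 k17 k238 4 9), (.s k192 k128 7 (.d k98 k81 k145 4 12))] (.c k72 (.l (.s k89 k76 6 (.d k34
  k17 k238 4 9))) (.c k89 (.q k72 [(.d k34 k17 k238 4 9), (.s k192 k128 7 (.d k98 k81 k145 4 12))]
  (.c k81 (.q k93 [(.d k34 k17 k238 4 9), (.s k192 k128 7 (.d k12 k132 k174 9 12))] .n) (.c k93 (.l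
  (.s k81 k98 4 (.d k34 k17 k238 4 9))) .n))) .n))) .n))) .n))) (.c k127 (.q k64 [(.s k34 k17 4 (.s
  k102 k238 9 (.s k153 k204 14 (.d k187 k119 k136 9 4)))), (.s k192 k128 7 (.s k98 k145 12 (.s k81
  k115 4 (.s k162 k243 12 (.d k34 k17 k226 4 7))))), (.s k128 k192 7 (.s k55 k59 1 (.s k149 k191 6
  (.s k187 k119 9 (.s k102 k196 12 (.d k153 k204 k136 14 4))))))] (.c k102 (.l (.s k119 k187 9 (.s
  k34 k17 4 (.s k192 k128 7 (.s k98 k145 12 (.s k162 k226 7 (.d k81 k115 k243 4 12))))))) (.c k119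
  (.q k102 [(.d k34 k17 k238 4 9), (.s k128 k192 7 (.s k55 k59 1 (.d k149 k191 k196 6 12)))] (.c
  k115 (.q k123 [(.d k34 k17 k238 4 9), (.s k128 k192 7 (.s k55 k59 1 (.d k149 k191 k196 6 12)))]
  .n) (.c k123 (.q k115 [(.d k34 k17 k238 4 9), (.s k192 k128 7 (.d k98 k81 k145 4 12))] (.c k72 (.l
  (.s k89 k76 6 (.d k34 k17 k238 4 9))) (.c k89 (.q k72 [(.d k34 k17 k238 4 9), (.s k192 k128 7 (.d
  k98 k81 k145 4 12))] (.c k81 (.q k93 [(.d k34 k17 k238 4 9), (.s k192 k128 7 (.d k12 k132 k174 9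
  12))] .n) (.c k93 (.l (.s k81 k98 4 (.d k34 k17 k238 4 9))) .n))) .n))) .n))) .n))) (.c k187 (.l
  (.s k34 k17 4 (.s k102 k238 9 (.s k55 k59 1 (.s k149 k196 12 (.d k191 k128 k127 6 7))))))
  .n)))))))

def t42_69 : T TT 256 :=
  (.f k255 k85 14 (.f k127 k191 7 (.q k126 [(.s k189 k252 8 (.s k125 k124 0 (.s k60 k190 8 (.d k61
  k62 k253 0 7)))), (.s k252 k189 8 (.s k168 k84 13 (.s k169 k171 0 (.s k86 k3 14 (.d k254 k253 k2 0
  13)))))] (.c k101 (.q k117 [(.s k189 k252 8 (.s k125 k124 0 (.s k60 k190 8 (.d k61 k62 k253 0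
  7)))), (.s k48 k186 10 (.s k53 k58 2 (.s k181 k245 7 (.d k122 k112 k240 2 10))))] (.c k96 (.q k111
  [(.s k48 k186 10 (.s k122 k112 2 (.s k181 k240 10 (.d k53 k58 k245 2 7)))), (.s k207 k159 11 (.s
  k239 k223 3 (.s k175 k47 7 (.d k95 k79 k15 3 11))))] (.c k79 (.l (.s k48 k186 10 (.s k53 k58 2 (.s
  k181 k245 7 (.d k122 k112 k240 2 10))))) .n)) (.c k111 (.q k96 [(.s k189 k252 8 (.s k125 k124 0
  (.s k60 k190 8 (.d k61 k62 k253 0 7)))), (.s k48 k186 10 (.s k53 k58 2 (.s k181 k245 7 (.d k122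
  k112 k240 2 10))))] .n) .n))) (.c k117 (.q k101 [(.s k189 k252 8 (.s k125 k124 0 (.s k60 k190 8
  (.d k61 k62 k253 0 7)))), (.s k239 k32 10 (.s k207 k223 3 (.s k111 k159 11 (.s k95 k79 3 (.d k175
  k47 k15 7 11)))))] .n) (.c k188 (.l (.s k189 k252 8 (.s k125 k124 0 (.s k60 k190 8 (.d k61 k62
  k253 0 7))))) (.c k189 (.l (.s k125 k124 0 (.s k190 k60 8 (.s k254 k62 7 (.s k252 k253 0 (.s k168
  k84 13 (.s k169 k171 0 (.d k86 k2 k3 13 14)))))))) (.c k190 (.l (.s k124 k125 0 (.s k252 k189 8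
  (.s k188 k60 7 (.s k168 k84 13 (.s k169 k171 0 (.s k86 k3 14 (.d k254 k253 k2 0 13)))))))) (.c
  k252 (.q k117 [(.s k48 k186 10 (.s k122 k112 2 (.s k181 k240 10 (.d k53 k58 k245 2 7)))), (.s k122
  k112 2 (.s k118 k114 1 (.s k124 k125 0 (.s k115 k121 2 (.d k119 k116 k123 0 1))))), (.s k48 k186
  10 (.s k125 k124 0 (.s k60 k190 8 (.s k52 k56 1 (.s k182 k247 8 (.d k121 k113 k243 1 10))))))] .n)
  (.c k253 (.l (.s k252 k189 8 (.s k168 k84 13 (.s k125 k124 0 (.s k190 k60 8 (.s k254 k62 7 (.s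
  k169 k171 0 (.d k86 k2 k3 13 14)))))))) .n))))))))))

def t42_70 : T TT 256 :=
  (.f k255 k85 14 (.f k127 k191 7 (.q k126 [(.s k189 k252 8 (.s k125 k124 0 (.s k60 k190 8 (.d k61
  k62 k253 0 7)))), (.s k252 k189 8 (.s k168 k84 13 (.s k169 k171 0 (.s k86 k3 14 (.d k254 k253 k2 0
  13)))))] (.c k188 (.l (.s k189 k252 8 (.s k125 k124 0 (.s k60 k190 8 (.d k61 k62 k253 0 7))))) (.c
  k189 (.l (.s k125 k124 0 (.s k190 k60 8 (.s k254 k62 7 (.s k252 k253 0 (.s k168 k84 13 (.s k169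
  k171 0 (.d k86 k2 k3 13 14)))))))) (.c k190 (.l (.s k124 k125 0 (.s k252 k189 8 (.s k188 k60 7 (.s
  k168 k84 13 (.s k169 k171 0 (.s k86 k3 14 (.d k254 k253 k2 0 13)))))))) (.c k252 (.q k117 [(.s k48
  k186 10 (.s k122 k112 2 (.s k181 k240 10 (.d k53 k58 k245 2 7)))), (.s k122 k112 2 (.s k118 k114 1
  (.s k124 k125 0 (.s k115 k121 2 (.d k119 k116 k123 0 1))))), (.s k48 k186 10 (.s k125 k124 0 (.s
  k60 k190 8 (.s k52 k56 1 (.s k182 k247 8 (.d k121 k113 k243 1 10))))))] .n) (.c k253 (.l (.s k252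
  k189 8 (.s k168 k84 13 (.s k125 k124 0 (.s k190 k60 8 (.s k254 k62 7 (.s k169 k171 0 (.d k86 k2 k3
  13 14)))))))) .n))))))))

def t42_71 : T TT 256 :=
  (.f k255 k85 14 (.f k127 k191 7 (.q k126 [(.s k189 k252 8 (.s k125 k124 0 (.s k60 k190 8 (.d k61
  k62 k253 0 7)))), (.s k252 k189 8 (.s k168 k84 13 (.s k169 k171 0 (.s k86 k3 14 (.d k254 k253 k2 0
  13)))))] (.c k188 (.l (.s k189 k252 8 (.s k125 k124 0 (.s k60 k190 8 (.d k61 k62 k253 0 7))))) (.c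
  k189 (.l (.s k125 k124 0 (.s k190 k60 8 (.s k254 k62 7 (.s k252 k253 0 (.s k168 k84 13 (.s k169
  k171 0 (.d k86 k2 k3 13 14)))))))) (.c k190 (.l (.s k124 k125 0 (.s k252 k189 8 (.s k188 k60 7 (.s
  k168 k84 13 (.s k169 k171 0 (.s k86 k3 14 (.d k254 k253 k2 0 13)))))))) (.c k252 (.q k117 [(.s k48
  k186 10 (.s k122 k112 2 (.s k181 k240 10 (.d k53 k58 k245 2 7)))), (.s k122 k112 2 (.s k118 k114 1
  (.s k124 k125 0 (.s k115 k121 2 (.d k119 k116 k123 0 1))))), (.s k48 k186 10 (.s k125 k124 0 (.s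
  k60 k190 8 (.s k52 k56 1 (.s k182 k247 8 (.d k121 k113 k243 1 10))))))] .n) (.c k253 (.l (.s k252
  k189 8 (.s k168 k84 13 (.s k125 k124 0 (.s k190 k60 8 (.s k254 k62 7 (.s k169 k171 0 (.d k86 k2 k3
  13 14)))))))) .n))))))))

def t42_72 : T TT 256 :=
  (.f k255 k85 14 (.f k127 k191 7 (.q k123 [(.s k183 k243 9 (.s k119 k115 1 (.s k51 k187 9 (.d k55
  k59 k247 1 7)))), (.s k243 k183 9 (.s k162 k81 12 (.s k166 k174 1 (.s k89 k12 14 (.d k251 k247 k8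
  1 12)))))] (.c k179 (.l (.s k183 k243 9 (.s k119 k115 1 (.s k51 k187 9 (.d k55 k59 k247 1 7)))))
  (.c k183 (.l (.s k119 k115 1 (.s k187 k51 9 (.s k251 k59 7 (.s k243 k247 1 (.s k162 k81 12 (.s
  k166 k174 1 (.d k89 k8 k12 12 14)))))))) (.c k187 (.l (.s k115 k119 1 (.s k243 k183 9 (.s k179 k51
  7 (.s k162 k81 12 (.s k166 k174 1 (.s k89 k12 14 (.d k251 k247 k8 1 12)))))))) (.c k243 (.q k89
  [(.s k251 k8 12 (.s k119 k115 1 (.d k187 k59 k51 7 9))), (.s k8 k251 12 (.s k12 k4 1 (.s k29 k46 4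
  (.s k93 k174 12 (.s k157 k221 7 (.d k110 k76 k204 4 12)))))), (.s k115 k119 1 (.s k102 k76 6 (.s
  k238 k34 9 (.s k204 k221 4 (.s k153 k51 14 (.d k136 k68 k187 9 4))))))] .n) (.c k247 (.l (.s k243
  k183 9 (.s k162 k81 12 (.s k119 k115 1 (.s k187 k51 9 (.s k251 k59 7 (.s k166 k174 1 (.d k89 k8
  k12 12 14)))))))) .n))))))))

def t42_73 : T TT 256 :=
  (.f k255 k85 14 (.q k51 [(.s k34 k17 4 (.s k102 k238 9 (.s k153 k204 14 (.d k187 k136 k119 4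
  9)))), (.s k55 k59 1 (.s k119 k187 9 (.s k183 k247 7 (.s k123 k243 9 (.d k127 k115 k191 1 7))))),
  (.s k34 k17 4 (.s k102 k238 9 (.s k55 k59 1 (.s k149 k196 12 (.d k191 k127 k128 7 6)))))] (.c k64
  (.l (.s k127 k191 7 (.s k34 k17 4 (.s k102 k238 9 (.s k153 k204 14 (.d k187 k136 k119 4 9))))))
  (.c k127 (.q k64 [(.s k34 k17 4 (.s k102 k238 9 (.s k153 k204 14 (.d k187 k136 k119 4 9)))), (.s
  k192 k128 7 (.s k98 k145 12 (.s k81 k115 4 (.s k162 k243 12 (.d k34 k17 k226 4 7))))), (.s k128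
  k192 7 (.s k55 k59 1 (.s k187 k119 9 (.s k149 k191 6 (.s k102 k196 12 (.d k153 k204 k136 14
  4))))))] (.c k119 (.l (.s k34 k17 4 (.s k128 k192 7 (.s k102 k238 9 (.s k55 k59 1 (.d k149 k191
  k196 6 12)))))) .n)) (.c k153 (.l (.s k59 k55 1 (.s k187 k119 9 (.s k123 k251 7 (.s k183 k243 9
  (.d k191 k179 k127 1 7)))))) .n)))))

def t42_74 : T TT 256 :=
  (.q k12 [(.s k8 k4 1 (.s k85 k255 14 (.s k89 k251 12 (.s k243 k166 14 (.d k81 k93 k162 1 12))))),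
  (.s k255 k85 14 (.s k29 k46 4 (.s k93 k174 12 (.s k157 k221 7 (.s k110 k204 12 (.d k127 k76 k191 4
  7)))))), (.s k4 k8 1 (.s k85 k255 14 (.s k166 k247 12 (.s k243 k89 14 (.d k162 k174 k81 1 12)))))]
  (.c k85 (.f k8 k4 1 (.l (.s k89 k251 12 (.s k29 k46 4 (.s k166 k243 14 (.s k149 k209 9 (.s k128
  k191 6 (.s k132 k183 4 (.d k192 k64 k72 7 9))))))))) (.c k90 (.q k122 [(.s k4 k8 1 (.s k85 k255 14
  (.s k166 k247 12 (.s k162 k174 1 (.d k243 k81 k89 12 14))))), (.s k8 k4 1 (.s k240 k181 10 (.s k80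
  k160 11 (.s k88 k164 13 (.s k168 k248 11 (.d k84 k92 k252 1 13)))))), (.s k255 k85 14 (.s k29 k46
  4 (.s k93 k174 12 (.s k157 k221 7 (.s k110 k204 12 (.d k127 k76 k191 4 7))))))] .n) (.c k122 (.q
  k90 [(.s k8 k4 1 (.s k85 k255 14 (.s k89 k251 12 (.s k243 k166 14 (.d k81 k93 k162 1 12))))), (.s
  k85 k255 14 (.s k10 k250 11 (.s k15 k5 2 (.s k240 k165 14 (.d k80 k95 k160 2 11))))), (.s k4 k8 1
  (.s k10 k250 11 (.s k5 k15 2 (.s k6 k7 0 (.s k2 k14 1 (.d k3 k1 k9 0 2))))))] .n) (.c k166 (.l (.s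
  k255 k85 14 (.s k46 k29 4 (.s k174 k93 12 (.s k110 k238 7 (.s k157 k204 12 (.d k191 k127 k140 7
  4))))))) (.c k255 (.q k90 [(.s k8 k4 1 (.s k89 k251 12 (.s k88 k91 0 (.s k240 k164 13 (.s k160 k80
  11 (.d k165 k175 k15 2 14)))))), (.s k10 k250 11 (.s k15 k5 2 (.s k14 k13 0 (.s k166 k242 13 (.s
  k243 k89 14 (.d k162 k174 k81 1 12)))))), (.s k4 k8 1 (.s k10 k250 11 (.s k5 k15 2 (.s k6 k7 0 (.s
  k2 k14 1 (.d k3 k1 k9 0 2))))))] (.c k15 (.l (.s k8 k4 1 (.s k89 k251 12 (.s k10 k250 11 (.s k11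
  k9 0 (.s k248 k169 12 (.d k88 k91 k168 0 11))))))) (.c k240 (.l (.s k8 k4 1 (.s k89 k251 12 (.s
  k243 k166 14 (.s k91 k88 0 (.s k15 k167 13 (.d k10 k5 k250 2 11))))))) .n))) .n))))))

def t42_75 : T TT 256 :=
  (.f k255 k85 14 (.q k51 [(.s k34 k17 4 (.s k102 k238 9 (.s k153 k204 14 (.d k187 k136 k119 4
  9)))), (.s k55 k59 1 (.s k119 k187 9 (.s k183 k247 7 (.s k123 k243 9 (.d k127 k115 k191 1 7))))),
  (.s k34 k17 4 (.s k102 k238 9 (.s k55 k59 1 (.s k149 k196 12 (.d k191 k127 k128 7 6)))))] (.c k64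
  (.l (.s k127 k191 7 (.s k34 k17 4 (.s k102 k238 9 (.s k153 k204 14 (.d k187 k136 k119 4 9))))))
  (.c k127 (.q k64 [(.s k34 k17 4 (.s k102 k238 9 (.s k153 k204 14 (.d k187 k136 k119 4 9)))), (.s
  k192 k128 7 (.s k98 k145 12 (.s k81 k115 4 (.s k162 k243 12 (.d k34 k17 k226 4 7))))), (.s k128
  k192 7 (.s k55 k59 1 (.s k187 k119 9 (.s k149 k191 6 (.s k102 k196 12 (.d k153 k204 k136 14
  4))))))] (.c k119 (.l (.s k34 k17 4 (.s k128 k192 7 (.s k102 k238 9 (.s k55 k59 1 (.d k149 k191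
  k196 6 12)))))) .n)) (.c k153 (.l (.s k59 k55 1 (.s k187 k119 9 (.s k123 k251 7 (.s k183 k243 9
  (.d k191 k179 k127 1 7)))))) .n)))))

def t42_76 : T TT 256 :=
  (.f k255 k85 14 (.f k127 k191 7 (.q k126 [(.s k189 k252 8 (.s k125 k124 0 (.s k60 k190 8 (.d k61
  k62 k253 0 7)))), (.s k252 k189 8 (.s k168 k84 13 (.s k169 k171 0 (.s k86 k3 14 (.d k254 k253 k2 0
  13)))))] (.c k188 (.l (.s k189 k252 8 (.s k125 k124 0 (.s k60 k190 8 (.d k61 k62 k253 0 7))))) (.c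
  k189 (.l (.s k125 k124 0 (.s k190 k60 8 (.s k254 k62 7 (.s k252 k253 0 (.s k168 k84 13 (.s k169
  k171 0 (.d k86 k2 k3 13 14)))))))) (.c k190 (.l (.s k124 k125 0 (.s k252 k189 8 (.s k188 k60 7 (.s
  k168 k84 13 (.s k169 k171 0 (.s k86 k3 14 (.d k254 k253 k2 0 13)))))))) (.c k252 (.q k12 [(.s k8
  k4 1 (.s k89 k251 12 (.s k174 k93 12 (.d k166 k162 k243 1 14)))), (.s k93 k174 12 (.s k125 k124 0
  (.s k60 k190 8 (.s k28 k44 3 (.s k158 k223 8 (.d k109 k77 k207 3 12)))))), (.s k4 k8 1 (.s k125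
  k124 0 (.s k60 k190 8 (.s k20 k40 5 (.s k36 k52 3 (.s k24 k48 5 (.d k28 k16 k44 1 3)))))))] .n)
  (.c k253 (.l (.s k252 k189 8 (.s k168 k84 13 (.s k125 k124 0 (.s k190 k60 8 (.s k254 k62 7 (.s
  k169 k171 0 (.d k86 k2 k3 13 14)))))))) .n))))))))

def t42_77 : T TT 256 :=
  (.f k255 k85 14 (.q k51 [(.s k34 k17 4 (.s k102 k238 9 (.s k153 k204 14 (.d k187 k136 k119 4
  9)))), (.s k55 k59 1 (.s k119 k187 9 (.s k183 k247 7 (.s k123 k243 9 (.d k127 k115 k191 1 7))))),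
  (.s k34 k17 4 (.s k102 k238 9 (.s k55 k59 1 (.s k149 k196 12 (.d k191 k127 k128 7 6)))))] (.c k64
  (.l (.s k127 k191 7 (.s k34 k17 4 (.s k102 k238 9 (.s k153 k204 14 (.d k187 k136 k119 4 9))))))
  (.c k127 (.q k64 [(.s k34 k17 4 (.s k102 k238 9 (.s k153 k204 14 (.d k187 k136 k119 4 9)))), (.s
  k192 k128 7 (.s k98 k145 12 (.s k81 k115 4 (.s k162 k243 12 (.d k34 k17 k226 4 7))))), (.s k128
  k192 7 (.s k55 k59 1 (.s k187 k119 9 (.s k149 k191 6 (.s k102 k196 12 (.d k153 k204 k136 14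
  4))))))] (.c k119 (.l (.s k34 k17 4 (.s k128 k192 7 (.s k102 k238 9 (.s k55 k59 1 (.d k149 k191
  k196 6 12)))))) .n)) (.c k153 (.l (.s k59 k55 1 (.s k187 k119 9 (.s k123 k251 7 (.s k183 k243 9
  (.d k191 k179 k127 1 7)))))) .n)))))

def t42_78 : T TT 256 :=
  (.f k255 k85 14 (.q k51 [(.s k34 k17 4 (.s k102 k238 9 (.s k187 k119 9 (.d k153 k136 k204 4
  14)))), (.s k55 k59 1 (.s k119 k187 9 (.s k183 k247 7 (.s k123 k243 9 (.d k127 k115 k191 1 7))))),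
  (.s k34 k17 4 (.s k102 k238 9 (.s k55 k59 1 (.s k149 k196 12 (.d k191 k127 k128 7 6)))))] (.c k64
  (.l (.s k127 k191 7 (.s k34 k17 4 (.s k102 k238 9 (.s k153 k204 14 (.d k187 k136 k119 4 9))))))
  (.c k127 (.q k64 [(.s k34 k17 4 (.s k102 k238 9 (.s k153 k204 14 (.d k187 k136 k119 4 9)))), (.s
  k192 k128 7 (.s k98 k145 12 (.s k81 k115 4 (.s k162 k243 12 (.d k34 k17 k226 4 7))))), (.s k128
  k192 7 (.s k55 k59 1 (.s k187 k119 9 (.s k149 k191 6 (.s k102 k196 12 (.d k153 k204 k136 14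
  4))))))] (.c k119 (.l (.s k34 k17 4 (.s k128 k192 7 (.s k102 k238 9 (.s k55 k59 1 (.d k149 k191
  k196 6 12)))))) .n)) (.c k153 (.l (.s k59 k55 1 (.s k187 k119 9 (.s k123 k251 7 (.s k183 k243 9
  (.d k191 k179 k127 1 7)))))) .n)))))

def t42_79 : T TT 256 :=
  (.q k51 [(.s k34 k17 4 (.s k85 k255 14 (.s k102 k238 9 (.s k204 k153 14 (.d k68 k119 k136 4
  9))))), (.s k255 k85 14 (.s k55 k59 1 (.s k119 k187 9 (.s k183 k247 7 (.s k123 k243 9 (.d k127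
  k115 k191 1 7)))))), (.s k17 k34 4 (.s k85 k255 14 (.s k153 k221 9 (.s k204 k102 14 (.d k136 k187
  k68 4 9)))))] (.c k85 (.f k59 k55 1 (.q k64 [(.s k192 k128 7 (.s k98 k145 12 (.s k81 k115 4 (.s
  k162 k243 12 (.d k34 k17 k226 4 7))))), (.s k34 k17 4 (.s k128 k192 7 (.s k102 k238 9 (.s k153
  k204 14 (.s k191 k149 6 (.s k255 k127 7 (.d k187 k136 k119 4 9))))))), (.s k128 k192 7 (.s k191
  k149 6 (.s k255 k127 7 (.s k187 k119 9 (.s k123 k251 7 (.d k183 k179 k243 1 9))))))] (.c k128 (.q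
  k102 [(.d k34 k17 k238 4 9), (.s k153 k204 14 (.s k187 k136 4 (.s k255 k119 9 (.s k123 k251 7 (.s
  k183 k243 9 (.d k191 k179 k127 1 7))))))] .n) (.c k192 (.q k102 [(.d k34 k17 k238 4 9), (.s k153
  k204 14 (.s k187 k136 4 (.s k255 k119 9 (.s k123 k251 7 (.s k183 k243 9 (.d k191 k179 k127 1
  7))))))] .n) .n)))) (.c k153 (.l (.s k255 k85 14 (.s k59 k55 1 (.s k187 k119 9 (.s k123 k251 7 (.s
  k183 k243 9 (.d k191 k127 k179 7 1))))))) (.c k255 (.q k102 [(.d k34 k17 k238 4 9), (.s k55 k59 1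
  (.s k149 k196 12 (.s k128 k191 6 (.s k192 k64 7 (.s k145 k98 12 (.d k153 k157 k204 1 14))))))] .n)
  .n))))

def t42_80 : T TT 256 :=
  (.f k255 k85 14 (.f k127 k191 7 (.q k111 [(.s k159 k207 11 (.s k95 k79 3 (.s k15 k175 11 (.d k31
  k47 k223 3 7)))), (.s k207 k159 11 (.s k138 k69 10 (.s k154 k186 3 (.s k101 k48 14 (.d k239 k223
  k32 3 10)))))] (.c k90 (.l (.s k95 k79 3 (.s k15 k175 11 (.s k31 k47 3 (.d k159 k223 k207 7
  11))))) (.c k95 (.q k90 [(.s k10 k250 11 (.s k15 k5 2 (.s k165 k240 14 (.s k175 k160 2 (.d k47 k31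
  k239 3 7))))), (.s k207 k159 11 (.s k138 k69 10 (.s k154 k186 3 (.s k101 k48 14 (.d k239 k223 k32
  3 10))))), (.s k250 k10 11 (.s k240 k245 2 (.s k122 k181 10 (.s k117 k112 2 (.d k186 k58 k48 7
  10)))))] .n) (.c k143 (.l (.s k159 k207 11 (.s k95 k79 3 (.s k15 k175 11 (.d k31 k47 k223 3 7)))))
  (.c k159 (.l (.s k95 k79 3 (.s k175 k15 11 (.s k239 k47 7 (.s k207 k223 3 (.s k138 k69 10 (.s k154
  k186 3 (.d k101 k32 k48 10 14)))))))) (.c k175 (.q k90 [(.s k10 k250 11 (.s k15 k5 2 (.s k79 k95 3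
  (.d k207 k143 k159 7 11)))), (.s k79 k95 3 (.s k101 k112 6 (.s k239 k32 10 (.d k207 k159 k223 11
  3)))), (.s k250 k10 11 (.s k240 k245 2 (.s k122 k181 10 (.s k117 k112 2 (.d k186 k58 k48 7
  10)))))] (.c k143 (.l (.s k159 k207 11 (.s k10 k250 11 (.s k15 k5 2 (.s k31 k47 3 (.d k95 k79 k223
  3 7)))))) (.c k159 (.q k143 [(.s k10 k250 11 (.s k15 k5 2 (.d k79 k95 k207 3 7))), (.s k79 k95 3
  (.s k207 k15 7 (.s k101 k112 6 (.d k239 k223 k32 3 10)))), (.s k250 k10 11 (.s k240 k245 2 (.s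
  k122 k181 10 (.s k117 k112 2 (.d k186 k58 k48 7 10)))))] .n) .n))) (.c k207 (.q k90 [(.s k10 k250
  11 (.s k95 k79 3 (.d k15 k5 k175 2 11))), (.s k250 k10 11 (.s k79 k95 3 (.s k112 k101 6 (.s k240
  k245 2 (.d k122 k117 k181 2 10))))), (.s k10 k250 11 (.s k15 k5 2 (.s k47 k31 3 (.s k165 k240 14
  (.d k175 k160 k239 2 7)))))] (.c k5 (.l (.s k250 k10 11 (.s k95 k79 3 (.s k15 k175 11 (.d k240
  k245 k165 2 14))))) (.c k10 (.l (.s k95 k79 3 (.s k15 k175 11 (.s k240 k165 14 (.s k122 k181 10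
  (.s k117 k112 2 (.s k186 k48 10 (.d k250 k245 k58 2 7)))))))) (.c k250 (.q k12 [(.s k8 k4 1 (.s
  k174 k93 12 (.s k166 k162 1 (.d k89 k251 k243 12 14)))), (.s k93 k174 12 (.s k110 k76 4 (.s k157
  k204 12 (.d k29 k46 k221 4 7)))), (.s k8 k4 1 (.s k89 k251 12 (.s k166 k243 14 (.s k14 k242 13 (.s
  k15 k13 0 (.d k95 k79 k175 3 11))))))] .n) .n)))) (.c k223 (.l (.s k207 k159 11 (.s k138 k69 10
  (.s k95 k79 3 (.s k175 k15 11 (.s k239 k47 7 (.s k154 k186 3 (.d k101 k32 k48 10 14))))))))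
  .n))))))))))

def t42_81 : T TT 256 :=
  (.q k12 [(.s k8 k4 1 (.s k89 k251 12 (.s k166 k243 14 (.s k174 k162 1 (.d k255 k93 k85 12 14))))),
  (.s k255 k85 14 (.s k93 k174 12 (.s k127 k191 7 (.s k110 k76 4 (.s k157 k204 12 (.d k29 k46 k221 4
  7))))))] (.c k85 (.f k8 k4 1 (.l (.s k89 k251 12 (.s k29 k46 4 (.s k166 k243 14 (.s k149 k209 9
  (.s k128 k191 6 (.s k132 k183 4 (.d k192 k64 k72 7 9))))))))) (.c k89 (.l (.s k255 k85 14 (.s k93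
  k174 12 (.s k29 k46 4 (.s k157 k221 7 (.s k110 k204 12 (.d k127 k76 k191 4 7))))))) (.c k93 (.l
  (.s k8 k4 1 (.s k255 k85 14 (.s k89 k251 12 (.s k29 k46 4 (.s k149 k209 9 (.d k191 k127 k128 7
  6))))))) (.c k174 (.l (.s k8 k4 1 (.s k255 k85 14 (.s k89 k251 12 (.s k29 k46 4 (.s k149 k209 9
  (.d k191 k127 k128 7 6))))))) (.c k255 (.f k8 k4 1 (.l (.s k89 k251 12 (.s k29 k46 4 (.s k149 k209
  9 (.s k128 k191 6 (.s k192 k64 7 (.s k132 k72 9 (.d k166 k243 k183 14 4))))))))) .n))))))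

def t42_82 : T TT 256 :=
  (.f k255 k85 14 (.q k51 [(.s k34 k17 4 (.s k102 k238 9 (.s k153 k204 14 (.d k187 k136 k119 4
  9)))), (.s k55 k59 1 (.s k119 k187 9 (.s k183 k247 7 (.s k123 k243 9 (.d k127 k115 k191 1 7))))),
  (.s k34 k17 4 (.s k102 k238 9 (.s k55 k59 1 (.s k149 k196 12 (.d k191 k127 k128 7 6)))))] (.c k64
  (.l (.s k127 k191 7 (.s k34 k17 4 (.s k102 k238 9 (.s k153 k204 14 (.d k187 k136 k119 4 9))))))
  (.c k127 (.q k64 [(.s k34 k17 4 (.s k102 k238 9 (.s k153 k204 14 (.d k187 k136 k119 4 9)))), (.s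
  k192 k128 7 (.s k98 k145 12 (.s k81 k115 4 (.s k162 k243 12 (.d k34 k17 k226 4 7))))), (.s k128
  k192 7 (.s k55 k59 1 (.s k187 k119 9 (.s k149 k191 6 (.s k102 k196 12 (.d k153 k204 k136 14
  4))))))] (.c k119 (.l (.s k34 k17 4 (.s k128 k192 7 (.s k102 k238 9 (.s k55 k59 1 (.d k149 k191
  k196 6 12)))))) .n)) (.c k153 (.l (.s k59 k55 1 (.s k187 k119 9 (.s k123 k251 7 (.s k183 k243 9
  (.d k191 k179 k127 1 7)))))) .n)))))

def t42_83 : T TT 256 :=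
  (.f k255 k85 14 (.q k12 [(.s k8 k4 1 (.s k89 k251 12 (.s k174 k93 12 (.d k166 k162 k243 1 14)))),
  (.s k29 k46 4 (.s k93 k174 12 (.s k157 k221 7 (.s k110 k204 12 (.d k127 k76 k191 4 7))))), (.s k8
  k4 1 (.s k89 k251 12 (.s k29 k46 4 (.s k149 k209 9 (.d k191 k127 k128 7 6)))))] (.c k64 (.l (.s
  k127 k191 7 (.s k8 k4 1 (.s k89 k251 12 (.s k166 k243 14 (.d k174 k162 k93 1 12)))))) (.c k127 (.q
  k64 [(.s k8 k4 1 (.s k89 k251 12 (.s k166 k243 14 (.d k174 k162 k93 1 12)))), (.s k192 k128 7 (.s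
  k72 k132 9 (.s k68 k76 1 (.s k136 k204 9 (.d k8 k4 k200 1 7))))), (.s k128 k192 7 (.s k29 k46 4
  (.s k174 k93 12 (.s k149 k191 6 (.s k89 k209 9 (.d k166 k243 k162 14 1))))))] (.c k93 (.l (.s k8
  k4 1 (.s k128 k192 7 (.s k89 k251 12 (.s k29 k46 4 (.d k149 k191 k209 6 9)))))) .n)) (.c k166 (.l
  (.s k46 k29 4 (.s k174 k93 12 (.s k110 k238 7 (.s k157 k204 12 (.d k191 k140 k127 4 7))))))
  .n)))))

def t42_84 : T TT 256 :=
  (.f k255 k85 14 (.q k3 [(.s k2 k1 0 (.s k86 k254 13 (.s k169 k252 14 (.d k171 k87 k168 13 0)))),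
  (.s k87 k171 13 (.s k127 k191 7 (.s k107 k67 5 (.s k151 k195 13 (.d k23 k43 k215 5 7)))))] (.c k64
  (.l (.s k127 k191 7 (.s k2 k1 0 (.s k86 k254 13 (.s k169 k252 14 (.d k171 k168 k87 0 13)))))) (.c
  k86 (.l (.s k87 k171 13 (.s k23 k43 5 (.s k151 k215 7 (.s k107 k195 13 (.d k127 k67 k191 5 7))))))
  (.c k87 (.q k86 [(.d k2 k1 k254 0 13), (.s k23 k43 5 (.s k149 k212 8 (.d k191 k127 k128 7 6)))]
  (.c k64 (.l (.s k127 k191 7 (.d k2 k1 k254 0 13))) (.c k127 (.q k64 [(.d k2 k1 k254 0 13), (.s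
  k128 k192 7 (.s k23 k43 5 (.d k149 k191 k212 6 8)))] (.c k67 (.q k107 [(.d k2 k1 k254 0 13), (.s
  k128 k192 7 (.s k23 k43 5 (.d k149 k191 k212 6 8)))] .n) (.c k107 (.q k67 [(.d k2 k1 k254 0 13),
  (.s k192 k128 7 (.d k66 k65 k129 0 8))] (.c k104 (.l (.s k105 k124 6 (.d k2 k1 k254 0 13))) (.c
  k105 (.q k104 [(.d k2 k1 k254 0 13), (.s k192 k128 7 (.d k66 k65 k129 0 8))] (.c k65 (.q k125 [(.d
  k2 k1 k254 0 13), (.s k192 k128 7 (.d k60 k190 k148 8 13))] .n) (.c k125 (.l (.s k65 k66 0 (.d k2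
  k1 k254 0 13))) .n))) .n))) .n))) .n))) (.c k127 (.q k64 [(.s k2 k1 0 (.s k86 k254 13 (.s k169
  k252 14 (.d k171 k87 k168 13 0)))), (.s k192 k128 7 (.s k66 k129 8 (.s k65 k67 0 (.s k130 k195 8
  (.d k2 k1 k194 0 7))))), (.s k128 k192 7 (.s k23 k43 5 (.s k149 k191 6 (.s k171 k87 13 (.s k86
  k212 8 (.d k169 k252 k168 14 0))))))] (.c k86 (.l (.s k87 k171 13 (.s k2 k1 0 (.s k192 k128 7 (.s
  k66 k129 8 (.s k130 k194 7 (.d k65 k67 k195 0 8))))))) (.c k87 (.q k86 [(.d k2 k1 k254 0 13), (.s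
  k128 k192 7 (.s k23 k43 5 (.d k149 k191 k212 6 8)))] (.c k67 (.q k107 [(.d k2 k1 k254 0 13), (.s
  k128 k192 7 (.s k23 k43 5 (.d k149 k191 k212 6 8)))] .n) (.c k107 (.q k67 [(.d k2 k1 k254 0 13),
  (.s k192 k128 7 (.d k66 k65 k129 0 8))] (.c k104 (.l (.s k105 k124 6 (.d k2 k1 k254 0 13))) (.c
  k105 (.q k104 [(.d k2 k1 k254 0 13), (.s k192 k128 7 (.d k66 k65 k129 0 8))] (.c k65 (.q k125 [(.d
  k2 k1 k254 0 13), (.s k192 k128 7 (.d k60 k190 k148 8 13))] .n) (.c k125 (.l (.s k65 k66 0 (.d k2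
  k1 k254 0 13))) .n))) .n))) .n))) .n))) (.c k171 (.l (.s k2 k1 0 (.s k86 k254 13 (.s k23 k43 5 (.s
  k149 k212 8 (.d k191 k128 k127 6 7)))))) .n)))))))

def t42_85_1 : T TT 256 :=
  (.q k169 [(.s k168 k171 0 (.d k252 k84 k86 13 14)), (.s k23 k43 5 (.s k86 k252 14 (.s k149 k212 8
  (.s k128 k191 6 (.s k129 k189 5 (.d k192 k64 k66 7 8)))))), (.s k23 k43 5 (.s k171 k168 0 (.s k87
  k255 13 (.s k151 k215 7 (.s k195 k107 13 (.d k131 k191 k67 5 7))))))] (.c k64 (.q k127 [(.s k255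
  k191 7 (.d k171 k168 k87 0 13)), (.s k168 k171 0 (.d k252 k84 k86 13 14)), (.s k23 k43 5 (.s k86
  k252 14 (.s k149 k212 8 (.d k191 k128 k255 6 7))))] .n) (.c k127 (.q k64 [(.s k168 k171 0 (.d k252
  k84 k86 13 14)), (.s k128 k192 7 (.s k23 k43 5 (.s k86 k252 14 (.d k149 k212 k191 8 6)))), (.s
  k128 k192 7 (.s k23 k43 5 (.s k191 k149 6 (.s k171 k168 0 (.s k87 k255 13 (.d k151 k131 k215 5
  7))))))] .n) .n)))

def t42_85_2 : T TT 256 :=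
  (.q k169 [(.s k168 k171 0 (.d k252 k84 k86 13 14)), (.s k23 k43 5 (.s k86 k252 14 (.s k149 k212 8
  (.s k128 k191 6 (.s k129 k189 5 (.d k192 k64 k66 7 8)))))), (.s k23 k43 5 (.s k171 k168 0 (.s k87
  k255 13 (.s k151 k215 7 (.s k195 k107 13 (.d k131 k191 k67 5 7))))))] (.c k22 (.q k62 [(.s k168
  k171 0 (.d k252 k84 k86 13 14)), (.s k43 k23 5 (.s k60 k61 0 (.s k171 k168 0 (.s k235 k107 7 (.d
  k40 k20 k105 5 8))))), (.s k23 k43 5 (.s k86 k252 14 (.s k149 k212 8 (.s k128 k191 6 (.s k129 k189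
  5 (.d k192 k64 k66 7 8))))))] (.c k64 (.q k127 [(.s k255 k191 7 (.d k171 k168 k87 0 13)), (.s k168
  k171 0 (.d k252 k84 k86 13 14)), (.s k23 k43 5 (.s k86 k252 14 (.s k149 k212 8 (.d k191 k128 k255
  6 7))))] .n) (.c k127 (.q k64 [(.s k168 k171 0 (.d k252 k84 k86 13 14)), (.s k128 k192 7 (.s k23
  k43 5 (.s k86 k252 14 (.d k149 k212 k191 8 6)))), (.s k192 k128 7 (.s k60 k61 0 (.s k40 k20 5 (.s
  k104 k148 13 (.d k168 k171 k232 0 7)))))] .n) .n))) (.c k62 (.q k22 [(.s k168 k171 0 (.d k252 k84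
  k86 13 14)), (.s k23 k43 5 (.s k20 k21 0 (.d k60 k40 k41 5 6)))] (.c k64 (.q k127 [(.s k255 k191 7
  (.d k171 k168 k87 0 13)), (.s k23 k43 5 (.s k20 k21 0 (.d k60 k40 k41 5 6)))] (.c k150 (.q k194
  [(.s k255 k191 7 (.d k171 k168 k87 0 13)), (.s k23 k43 5 (.s k20 k21 0 (.d k60 k40 k41 5 6)))] (.c
  k20 (.q k215 [(.s k255 k191 7 (.d k171 k168 k87 0 13)), (.s k168 k171 0 (.d k252 k84 k86 13 14)),
  (.s k41 k60 6 (.s k105 k233 7 (.s k235 k40 8 (.d k255 k195 k191 5 7))))] .n) (.c k215 (.q k20 [(.d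
  k60 k40 k41 5 6), (.d k23 k21 k43 0 5)] .n) .n))) (.c k194 (.q k150 [(.d k86 k214 k252 7 14), (.s
  k255 k191 7 (.d k171 k168 k87 0 13))] (.c k66 (.l (.s k130 k190 5 (.d k86 k214 k252 7 14))) (.c
  k130 (.q k66 [(.d k86 k214 k252 7 14), (.s k255 k191 7 (.d k171 k168 k87 0 13))] .n) .n))) .n)))
  (.c k127 (.q k64 [(.s k168 k171 0 (.d k252 k84 k86 13 14)), (.s k23 k43 5 (.s k20 k21 0 (.d k60
  k40 k41 5 6)))] (.c k150 (.q k194 [(.s k168 k171 0 (.d k252 k84 k86 13 14)), (.s k23 k43 5 (.s k20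
  k21 0 (.d k60 k40 k41 5 6)))] (.c k20 (.q k215 [(.s k168 k171 0 (.d k252 k84 k86 13 14)), (.s k23
  k43 5 (.s k87 k151 7 (.d k171 k168 k255 0 13))), (.s k128 k192 7 (.s k23 k43 5 (.s k86 k252 14 (.d
  k149 k212 k191 8 6))))] .n) (.c k215 (.q k20 [(.d k60 k40 k41 5 6), (.d k23 k21 k43 0 5)] .n)
  .n))) (.c k194 (.q k150 [(.d k86 k214 k252 7 14), (.s k128 k192 7 (.s k130 k190 5 (.d k131 k129
  k188 0 6)))] (.c k66 (.l (.s k130 k190 5 (.d k86 k214 k252 7 14))) (.c k130 (.q k66 [(.d k192 k128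
  k129 7 8), (.d k86 k214 k252 7 14)] .n) .n))) .n))) (.c k150 (.q k194 [(.s k168 k171 0 (.d k252
  k84 k86 13 14)), (.s k23 k43 5 (.s k20 k21 0 (.d k60 k40 k41 5 6)))] (.c k20 (.q k215 [(.s k168
  k171 0 (.d k252 k84 k86 13 14)), (.s k23 k43 5 (.s k87 k151 7 (.d k171 k168 k255 0 13))), (.s k41
  k60 6 (.s k23 k43 5 (.s k252 k86 14 (.s k233 k105 7 (.s k195 k214 6 (.d k151 k87 k107 7 13))))))]
  (.c k64 (.q k127 [(.s k255 k191 7 (.d k171 k168 k87 0 13)), (.s k168 k171 0 (.d k252 k84 k86 13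
  14)), (.s k41 k60 6 (.s k105 k233 7 (.s k235 k40 8 (.d k255 k195 k191 5 7))))] .n) (.c k127 (.q
  k64 [(.s k168 k171 0 (.d k252 k84 k86 13 14)), (.s k23 k43 5 (.s k87 k151 7 (.d k171 k168 k255 0
  13))), (.s k128 k192 7 (.s k23 k43 5 (.s k86 k252 14 (.d k149 k212 k191 8 6))))] .n) .n))) (.c k64
  (.q k127 [(.s k255 k191 7 (.d k171 k168 k87 0 13)), (.s k23 k43 5 (.s k20 k21 0 (.d k60 k40 k41 5
  6)))] (.c k20 (.q k215 [(.s k255 k191 7 (.d k171 k168 k87 0 13)), (.s k168 k171 0 (.d k252 k84 k86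
  13 14)), (.s k41 k60 6 (.s k105 k233 7 (.s k235 k40 8 (.d k255 k195 k191 5 7))))] .n) (.c k215 (.q
  k20 [(.d k60 k40 k41 5 6), (.d k23 k21 k43 0 5)] .n) .n))) (.c k127 (.q k64 [(.s k168 k171 0 (.d
  k252 k84 k86 13 14)), (.s k23 k43 5 (.s k20 k21 0 (.d k60 k40 k41 5 6)))] (.c k20 (.q k215 [(.s
  k168 k171 0 (.d k252 k84 k86 13 14)), (.s k23 k43 5 (.s k87 k151 7 (.d k171 k168 k255 0 13))), (.s
  k128 k192 7 (.s k23 k43 5 (.s k86 k252 14 (.d k149 k212 k191 8 6))))] .n) (.c k215 (.q k20 [(.d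
  k60 k40 k41 5 6), (.d k23 k21 k43 0 5)] .n) .n))) (.c k215 (.q k20 [(.d k60 k40 k41 5 6), (.d k23
  k21 k43 0 5)] (.c k64 (.q k127 [(.d k60 k40 k41 5 6), (.d k23 k21 k43 0 5)] .n) (.c k127 (.q k64
  [(.d k60 k40 k41 5 6), (.d k23 k21 k43 0 5)] .n) .n))) .n))))) (.c k194 (.q k150 [(.d k86 k214
  k252 7 14), (.s k60 k41 6 (.s k40 k20 5 (.d k105 k235 k195 8 14)))] (.c k64 (.q k127 [(.d k86 k214
  k252 7 14), (.s k255 k191 7 (.d k171 k168 k87 0 13))] (.c k66 (.l (.s k130 k190 5 (.d k86 k214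
  k252 7 14))) (.c k130 (.q k66 [(.d k86 k214 k252 7 14), (.s k255 k191 7 (.d k171 k168 k87 0 13))]
  .n) .n))) (.c k66 (.l (.s k130 k190 5 (.d k86 k214 k252 7 14))) (.c k127 (.q k64 [(.d k86 k214
  k252 7 14), (.s k128 k192 7 (.s k130 k190 5 (.d k131 k129 k188 0 6)))] (.c k66 (.l (.s k130 k190 5
  (.d k86 k214 k252 7 14))) (.c k130 (.q k66 [(.d k192 k128 k129 7 8), (.d k86 k214 k252 7 14)] .n)
  .n))) (.c k130 (.q k66 [(.d k86 k214 k252 7 14), (.s k60 k41 6 (.s k40 k20 5 (.d k105 k235 k195 8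
  14)))] (.c k64 (.q k127 [(.d k86 k214 k252 7 14), (.s k255 k191 7 (.d k171 k168 k87 0 13))] .n)
  (.c k127 (.q k64 [(.d k192 k128 k129 7 8), (.d k86 k214 k252 7 14)] .n) .n))) .n))))) .n))))) (.c
  k64 (.q k127 [(.s k255 k191 7 (.d k171 k168 k87 0 13)), (.s k168 k171 0 (.d k252 k84 k86 13 14)),
  (.s k23 k43 5 (.s k86 k252 14 (.s k149 k212 8 (.d k191 k128 k255 6 7))))] (.c k22 (.q k62 [(.s
  k255 k191 7 (.d k171 k168 k87 0 13)), (.s k168 k171 0 (.d k252 k84 k86 13 14)), (.s k23 k43 5 (.s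
  k86 k252 14 (.s k149 k212 8 (.d k191 k128 k255 6 7))))] .n) (.c k62 (.q k22 [(.s k255 k191 7 (.d
  k171 k168 k87 0 13)), (.s k23 k43 5 (.s k20 k21 0 (.d k60 k40 k41 5 6)))] (.c k150 (.q k194 [(.s
  k255 k191 7 (.d k171 k168 k87 0 13)), (.s k23 k43 5 (.s k20 k21 0 (.d k60 k40 k41 5 6)))] (.c k20
  (.q k215 [(.s k255 k191 7 (.d k171 k168 k87 0 13)), (.s k168 k171 0 (.d k252 k84 k86 13 14)), (.s
  k41 k60 6 (.s k105 k233 7 (.s k235 k40 8 (.d k255 k195 k191 5 7))))] .n) (.c k215 (.q k20 [(.d k60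
  k40 k41 5 6), (.d k23 k21 k43 0 5)] .n) .n))) (.c k194 (.q k150 [(.d k86 k214 k252 7 14), (.s k255
  k191 7 (.d k171 k168 k87 0 13))] (.c k66 (.l (.s k130 k190 5 (.d k86 k214 k252 7 14))) (.c k130
  (.q k66 [(.d k86 k214 k252 7 14), (.s k255 k191 7 (.d k171 k168 k87 0 13))] .n) .n))) .n))) .n)))
  (.c k127 (.q k64 [(.s k168 k171 0 (.d k252 k84 k86 13 14)), (.s k128 k192 7 (.s k23 k43 5 (.s k86
  k252 14 (.d k149 k212 k191 8 6)))), (.s k128 k192 7 (.s k23 k43 5 (.s k191 k149 6 (.s k171 k168 0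
  (.s k87 k255 13 (.d k151 k131 k215 5 7))))))] (.c k22 (.q k62 [(.s k168 k171 0 (.d k252 k84 k86 13
  14)), (.s k128 k192 7 (.s k23 k43 5 (.s k86 k252 14 (.d k149 k212 k191 8 6)))), (.s k192 k128 7
  (.s k60 k61 0 (.s k40 k20 5 (.s k104 k148 13 (.d k168 k171 k232 0 7)))))] .n) (.c k62 (.q k22 [(.s
  k168 k171 0 (.d k252 k84 k86 13 14)), (.s k23 k43 5 (.s k20 k21 0 (.d k60 k40 k41 5 6)))] (.c k150
  (.q k194 [(.s k168 k171 0 (.d k252 k84 k86 13 14)), (.s k23 k43 5 (.s k20 k21 0 (.d k60 k40 k41 5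
  6)))] (.c k20 (.q k215 [(.s k168 k171 0 (.d k252 k84 k86 13 14)), (.s k23 k43 5 (.s k87 k151 7 (.d
  k171 k168 k255 0 13))), (.s k128 k192 7 (.s k23 k43 5 (.s k86 k252 14 (.d k149 k212 k191 8 6))))]
  .n) (.c k215 (.q k20 [(.d k60 k40 k41 5 6), (.d k23 k21 k43 0 5)] .n) .n))) (.c k194 (.q k150 [(.d
  k86 k214 k252 7 14), (.s k128 k192 7 (.s k130 k190 5 (.d k131 k129 k188 0 6)))] (.c k66 (.l (.s
  k130 k190 5 (.d k86 k214 k252 7 14))) (.c k130 (.q k66 [(.d k192 k128 k129 7 8), (.d k86 k214 k252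
  7 14)] .n) .n))) .n))) .n))) .n)))))

def t42_85_4 : T TT 256 :=
  (.f k2 k1 0 (.l (.s k86 k254 13 (.s k23 k43 5 (.s k169 k252 14 (.s k149 k212 8 (.s k128 k191 6 (.s
  k129 k189 5 (.d k192 k64 k66 7 8)))))))))

def t42_85_5 : T TT 256 :=
  (.f k2 k1 0 (.l (.s k86 k254 13 (.s k23 k43 5 (.s k169 k252 14 (.s k149 k212 8 (.s k128 k191 6 (.s
  k129 k189 5 (.d k192 k64 k66 7 8)))))))))

def t42_85_6 : T TT 256 :=
  (.f k2 k1 0 (.l (.s k86 k254 13 (.s k23 k43 5 (.s k169 k252 14 (.s k149 k212 8 (.s k128 k191 6 (.s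
  k129 k189 5 (.d k192 k64 k66 7 8)))))))))

def t42_85_7 : T TT 256 :=
  (.f k2 k1 0 (.l (.s k86 k254 13 (.s k23 k43 5 (.s k169 k252 14 (.s k149 k212 8 (.s k128 k191 6 (.s
  k129 k189 5 (.d k192 k64 k66 7 8)))))))))

def t42_85_8 : T TT 256 :=
  (.f k2 k1 0 (.l (.s k86 k254 13 (.s k23 k43 5 (.s k169 k252 14 (.s k149 k212 8 (.s k128 k191 6 (.s
  k129 k189 5 (.d k192 k64 k66 7 8)))))))))

def t42_85_9 : T TT 256 :=
  (.f k2 k1 0 (.l (.s k86 k254 13 (.s k23 k43 5 (.s k169 k252 14 (.s k149 k212 8 (.s k128 k191 6 (.s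
  k129 k189 5 (.d k192 k64 k66 7 8)))))))))

def t42_85_10 : T TT 256 :=
  (.f k2 k1 0 (.l (.s k86 k254 13 (.s k23 k43 5 (.s k169 k252 14 (.s k149 k212 8 (.s k128 k191 6 (.s
  k129 k189 5 (.d k192 k64 k66 7 8)))))))))

def t42_85_11 : T TT 256 :=
  (.f k2 k1 0 (.l (.s k86 k254 13 (.s k23 k43 5 (.s k169 k252 14 (.s k149 k212 8 (.s k128 k191 6 (.s
  k129 k189 5 (.d k192 k64 k66 7 8)))))))))

def t42_85_12 : T TT 256 :=
  (.f k2 k1 0 (.l (.s k86 k254 13 (.s k23 k43 5 (.s k169 k252 14 (.s k149 k212 8 (.s k128 k191 6 (.s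
  k129 k189 5 (.d k192 k64 k66 7 8)))))))))

def t42_85_13 : T TT 256 :=
  (.f k2 k1 0 (.l (.s k86 k254 13 (.s k23 k43 5 (.s k169 k252 14 (.s k149 k212 8 (.s k128 k191 6 (.s
  k129 k189 5 (.d k192 k64 k66 7 8)))))))))

def t42_85_14 : T TT 256 :=
  (.f k2 k1 0 (.l (.s k86 k254 13 (.s k23 k43 5 (.s k169 k252 14 (.s k149 k212 8 (.s k128 k191 6 (.s
  k129 k189 5 (.d k192 k64 k66 7 8)))))))))

def t42_85_15 : T TT 256 :=
  (.f k2 k1 0 (.l (.s k86 k254 13 (.s k23 k43 5 (.s k169 k252 14 (.s k149 k212 8 (.s k128 k191 6 (.s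
  k129 k189 5 (.d k192 k64 k66 7 8)))))))))

def t42_85_16 : T TT 256 :=
  (.f k2 k1 0 (.l (.s k86 k254 13 (.s k23 k43 5 (.s k169 k252 14 (.s k149 k212 8 (.s k128 k191 6 (.s
  k129 k189 5 (.d k192 k64 k66 7 8)))))))))

def t42_85_17 : T TT 256 :=
  (.f k2 k1 0 (.l (.s k86 k254 13 (.s k23 k43 5 (.s k169 k252 14 (.s k149 k212 8 (.s k128 k191 6 (.s
  k129 k189 5 (.d k192 k64 k66 7 8)))))))))

def t42_85_18 : T TT 256 :=
  (.f k2 k1 0 (.l (.s k86 k254 13 (.s k23 k43 5 (.s k169 k252 14 (.s k149 k212 8 (.s k128 k191 6 (.s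
  k129 k189 5 (.d k192 k64 k66 7 8)))))))))

def t42_85_19 : T TT 256 :=
  (.f k2 k1 0 (.l (.s k86 k254 13 (.s k23 k43 5 (.s k169 k252 14 (.s k149 k212 8 (.s k128 k191 6 (.s
  k129 k189 5 (.d k192 k64 k66 7 8)))))))))

def t42_85_20 : T TT 256 :=
  (.f k2 k1 0 (.l (.s k86 k254 13 (.s k23 k43 5 (.s k169 k252 14 (.s k149 k212 8 (.s k128 k191 6 (.s
  k129 k189 5 (.d k192 k64 k66 7 8)))))))))

def t42_85_21 : T TT 256 :=
  (.f k2 k1 0 (.l (.s k86 k254 13 (.s k23 k43 5 (.s k169 k252 14 (.s k149 k212 8 (.s k128 k191 6 (.s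
  k129 k189 5 (.d k192 k64 k66 7 8)))))))))

def t42_85_22 : T TT 256 :=
  (.f k2 k1 0 (.l (.s k86 k254 13 (.s k23 k43 5 (.s k169 k252 14 (.s k149 k212 8 (.s k128 k191 6 (.s
  k129 k189 5 (.d k192 k64 k66 7 8)))))))))

def t42_85_23 : T TT 256 :=
  (.f k2 k1 0 (.f k86 k254 13 (.f k169 k252 14 (.f k171 k168 0 (.f k255 k87 13 (.f k127 k191 7 (.q
  k195 [(.s k67 k131 7 (.s k105 k124 6 (.d k235 k215 k40 5 8))), (.s k130 k65 8 (.s k150 k190 5 (.s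
  k22 k214 7 (.d k60 k105 k41 14 6)))), (.s k130 k65 8 (.s k66 k194 7 (.s k129 k192 8 (.d k131 k128
  k67 0 7))))] (.c k105 (.l (.s k131 k67 7 (.s k150 k188 6 (.d k130 k190 k65 5 8)))) (.c k151 (.l
  (.s k215 k235 5 (.s k130 k65 8 (.s k131 k67 7 (.d k150 k190 k188 5 6))))) (.c k215 (.l (.s k151
  k107 13 (.s k130 k65 8 (.s k131 k67 7 (.d k150 k190 k188 5 6))))) .n))))))))))

def t42_85_24 : T TT 256 :=
  (.f k2 k1 0 (.l (.s k86 k254 13 (.s k23 k43 5 (.s k169 k252 14 (.s k149 k212 8 (.s k128 k191 6 (.s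
  k129 k189 5 (.d k192 k64 k66 7 8)))))))))

def t42_85_25 : T TT 256 :=
  (.f k2 k1 0 (.l (.s k86 k254 13 (.s k23 k43 5 (.s k169 k252 14 (.s k149 k212 8 (.s k128 k191 6 (.s
  k129 k189 5 (.d k192 k64 k66 7 8)))))))))

def t42_85_26 : T TT 256 :=
  (.f k2 k1 0 (.l (.s k86 k254 13 (.s k23 k43 5 (.s k169 k252 14 (.s k149 k212 8 (.s k128 k191 6 (.s
  k129 k189 5 (.d k192 k64 k66 7 8)))))))))

def t42_85_27 : T TT 256 :=
  (.f k2 k1 0 (.l (.s k86 k254 13 (.s k23 k43 5 (.s k169 k252 14 (.s k149 k212 8 (.s k128 k191 6 (.s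
  k129 k189 5 (.d k192 k64 k66 7 8)))))))))

def t42_85_28 : T TT 256 :=
  (.f k2 k1 0 (.l (.s k86 k254 13 (.s k23 k43 5 (.s k169 k252 14 (.s k149 k212 8 (.s k128 k191 6 (.s
  k129 k189 5 (.d k192 k64 k66 7 8)))))))))

def t42_85_29 : T TT 256 :=
  (.f k2 k1 0 (.l (.s k86 k254 13 (.s k23 k43 5 (.s k169 k252 14 (.s k149 k212 8 (.s k128 k191 6 (.s
  k129 k189 5 (.d k192 k64 k66 7 8)))))))))

def t42_85_30 : T TT 256 :=
  (.f k2 k1 0 (.l (.s k86 k254 13 (.s k23 k43 5 (.s k169 k252 14 (.s k149 k212 8 (.s k128 k191 6 (.s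
  k129 k189 5 (.d k192 k64 k66 7 8)))))))))

def t42_85_31 : T TT 256 :=
  (.f k2 k1 0 (.l (.s k86 k254 13 (.s k23 k43 5 (.s k169 k252 14 (.s k149 k212 8 (.s k128 k191 6 (.s
  k129 k189 5 (.d k192 k64 k66 7 8)))))))))

def t42_85_32 : T TT 256 :=
  (.f k2 k1 0 (.l (.s k86 k254 13 (.s k23 k43 5 (.s k169 k252 14 (.s k149 k212 8 (.s k128 k191 6 (.s
  k129 k189 5 (.d k192 k64 k66 7 8)))))))))

def t42_85_33 : T TT 256 :=
  (.f k2 k1 0 (.l (.s k86 k254 13 (.s k23 k43 5 (.s k169 k252 14 (.s k149 k212 8 (.s k128 k191 6 (.s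
  k129 k189 5 (.d k192 k64 k66 7 8)))))))))

def t42_85_34 : T TT 256 :=
  (.f k2 k1 0 (.l (.s k86 k254 13 (.s k23 k43 5 (.s k169 k252 14 (.s k149 k212 8 (.s k128 k191 6 (.s
  k129 k189 5 (.d k192 k64 k66 7 8)))))))))

def t42_85_35 : T TT 256 :=
  (.f k2 k1 0 (.l (.s k86 k254 13 (.s k23 k43 5 (.s k169 k252 14 (.s k149 k212 8 (.s k128 k191 6 (.s
  k129 k189 5 (.d k192 k64 k66 7 8)))))))))

def t42_85_36 : T TT 256 :=
  (.f k2 k1 0 (.l (.s k86 k254 13 (.s k23 k43 5 (.s k169 k252 14 (.s k149 k212 8 (.s k128 k191 6 (.s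
  k129 k189 5 (.d k192 k64 k66 7 8)))))))))

def t42_85_37 : T TT 256 :=
  (.f k2 k1 0 (.l (.s k86 k254 13 (.s k23 k43 5 (.s k169 k252 14 (.s k149 k212 8 (.s k128 k191 6 (.s
  k129 k189 5 (.d k192 k64 k66 7 8)))))))))

def t42_85_38 : T TT 256 :=
  (.f k2 k1 0 (.l (.s k86 k254 13 (.s k23 k43 5 (.s k169 k252 14 (.s k149 k212 8 (.s k128 k191 6 (.s
  k129 k189 5 (.d k192 k64 k66 7 8)))))))))

def t42_85_39 : T TT 256 :=
  (.f k2 k1 0 (.l (.s k86 k254 13 (.s k23 k43 5 (.s k169 k252 14 (.s k149 k212 8 (.s k128 k191 6 (.s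
  k129 k189 5 (.d k192 k64 k66 7 8)))))))))

def t42_85_40 : T TT 256 :=
  (.f k2 k1 0 (.f k43 k23 5 (.l (.s k86 k254 13 (.s k169 k252 14 (.s k171 k168 0 (.s k255 k87 13 (.s
  k107 k235 7 (.s k151 k195 13 (.d k191 k131 k127 5 7))))))))))

def t42_85_41 : T TT 256 :=
  (.f k2 k1 0 (.f k43 k23 5 (.l (.s k86 k254 13 (.s k169 k252 14 (.s k171 k168 0 (.s k255 k87 13 (.s
  k107 k235 7 (.s k151 k195 13 (.d k191 k131 k127 5 7))))))))))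

def t42_85_43 : T TT 256 :=
  (.f k2 k1 0 (.f k86 k254 13 (.f k169 k252 14 (.f k171 k168 0 (.f k255 k87 13 (.q k105 [(.s k40
  k235 8 (.s k60 k20 5 (.d k41 k22 k233 6 7))), (.s k67 k124 6 (.s k131 k195 7 (.d k191 k127 k151 7
  5)))] (.c k40 (.l (.s k41 k233 7 (.s k60 k22 6 (.s k195 k150 14 (.d k67 k124 k131 6 7))))) (.c k41
  (.l (.s k40 k235 8 (.s k60 k20 5 (.s k150 k195 14 (.d k190 k130 k125 5 8))))) (.c k60 (.l (.s k235
  k40 8 (.s k41 k233 7 (.s k195 k215 5 (.d k67 k124 k131 6 7))))) (.c k64 (.l (.s k127 k191 7 (.s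
  k40 k235 8 (.s k60 k20 5 (.d k41 k22 k233 6 7))))) (.c k127 (.q k64 [(.s k40 k235 8 (.s k60 k20 5
  (.d k41 k22 k233 6 7))), (.s k192 k128 7 (.s k66 k129 8 (.d k67 k65 k124 0 6)))] (.c k40 (.l (.s
  k41 k233 7 (.s k192 k128 7 (.s k66 k129 8 (.d k67 k65 k124 0 6))))) (.c k41 (.l (.s k40 k235 8 (.s
  k60 k20 5 (.s k150 k195 14 (.d k190 k130 k125 5 8))))) (.c k67 (.q k107 [(.s k195 k151 13 (.d k235
  k215 k40 5 8)), (.s k128 k192 7 (.s k151 k195 13 (.d k191 k131 k149 5 6))), (.s k40 k235 8 (.s k60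
  k20 5 (.d k41 k22 k233 6 7)))] (.c k40 (.l (.s k41 k233 7 (.s k60 k22 6 (.d k195 k151 k150 13
  14)))) (.c k41 (.l (.s k40 k235 8 (.s k60 k20 5 (.d k195 k150 k151 14 13)))) .n))) (.c k107 (.l
  (.s k67 k124 6 (.s k192 k128 7 (.d k66 k65 k129 0 8)))) .n))))) (.c k233 (.l (.s k67 k124 6 (.s
  k195 k131 7 (.d k235 k215 k40 5 8)))) .n))))))))))))

def t42_85_44 : T TT 256 :=
  (.f k2 k1 0 (.l (.s k86 k254 13 (.s k23 k43 5 (.s k169 k252 14 (.s k149 k212 8 (.s k128 k191 6 (.s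
  k129 k189 5 (.d k192 k64 k66 7 8)))))))))

def t42_85_45 : T TT 256 :=
  (.f k2 k1 0 (.l (.s k86 k254 13 (.s k23 k43 5 (.s k169 k252 14 (.s k149 k212 8 (.s k128 k191 6 (.s
  k129 k189 5 (.d k192 k64 k66 7 8)))))))))

def t42_85_46 : T TT 256 :=
  (.f k2 k1 0 (.l (.s k86 k254 13 (.s k23 k43 5 (.s k169 k252 14 (.s k149 k212 8 (.s k128 k191 6 (.s
  k129 k189 5 (.d k192 k64 k66 7 8)))))))))

def t42_85_47 : T TT 256 :=
  (.f k2 k1 0 (.l (.s k86 k254 13 (.s k23 k43 5 (.s k169 k252 14 (.s k149 k212 8 (.s k128 k191 6 (.s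
  k129 k189 5 (.d k192 k64 k66 7 8)))))))))

def t42_85_48 : T TT 256 :=
  (.f k2 k1 0 (.l (.s k86 k254 13 (.s k23 k43 5 (.s k169 k252 14 (.s k149 k212 8 (.s k128 k191 6 (.s
  k129 k189 5 (.d k192 k64 k66 7 8)))))))))

def t42_85_49 : T TT 256 :=
  (.f k2 k1 0 (.l (.s k86 k254 13 (.s k23 k43 5 (.s k169 k252 14 (.s k149 k212 8 (.s k128 k191 6 (.s
  k129 k189 5 (.d k192 k64 k66 7 8)))))))))

def t42_85_50 : T TT 256 :=
  (.f k2 k1 0 (.l (.s k86 k254 13 (.s k23 k43 5 (.s k169 k252 14 (.s k149 k212 8 (.s k128 k191 6 (.s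
  k129 k189 5 (.d k192 k64 k66 7 8)))))))))

def t42_85_51 : T TT 256 :=
  (.f k2 k1 0 (.l (.s k86 k254 13 (.s k23 k43 5 (.s k169 k252 14 (.s k149 k212 8 (.s k128 k191 6 (.s
  k129 k189 5 (.d k192 k64 k66 7 8)))))))))

def t42_85_52 : T TT 256 :=
  (.f k2 k1 0 (.l (.s k86 k254 13 (.s k23 k43 5 (.s k169 k252 14 (.s k149 k212 8 (.s k128 k191 6 (.s
  k129 k189 5 (.d k192 k64 k66 7 8)))))))))

def t42_85_53 : T TT 256 :=
  (.f k2 k1 0 (.l (.s k86 k254 13 (.s k23 k43 5 (.s k169 k252 14 (.s k149 k212 8 (.s k128 k191 6 (.s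
  k129 k189 5 (.d k192 k64 k66 7 8)))))))))

def t42_85_54 : T TT 256 :=
  (.f k2 k1 0 (.l (.s k86 k254 13 (.s k23 k43 5 (.s k169 k252 14 (.s k149 k212 8 (.s k128 k191 6 (.s
  k129 k189 5 (.d k192 k64 k66 7 8)))))))))

def t42_85_55 : T TT 256 :=
  (.f k2 k1 0 (.l (.s k86 k254 13 (.s k23 k43 5 (.s k169 k252 14 (.s k149 k212 8 (.s k128 k191 6 (.s
  k129 k189 5 (.d k192 k64 k66 7 8)))))))))

def t42_85_56 : T TT 256 :=
  (.f k2 k1 0 (.l (.s k86 k254 13 (.s k23 k43 5 (.s k169 k252 14 (.s k149 k212 8 (.s k128 k191 6 (.s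
  k129 k189 5 (.d k192 k64 k66 7 8)))))))))

def t42_85_57 : T TT 256 :=
  (.f k2 k1 0 (.l (.s k86 k254 13 (.s k23 k43 5 (.s k169 k252 14 (.s k149 k212 8 (.s k128 k191 6 (.s
  k129 k189 5 (.d k192 k64 k66 7 8)))))))))

def t42_85_58 : T TT 256 :=
  (.f k2 k1 0 (.l (.s k86 k254 13 (.s k23 k43 5 (.s k169 k252 14 (.s k149 k212 8 (.s k128 k191 6 (.s
  k129 k189 5 (.d k192 k64 k66 7 8)))))))))

def t42_85_59 : T TT 256 :=
  (.f k2 k1 0 (.l (.s k86 k254 13 (.s k23 k43 5 (.s k169 k252 14 (.s k149 k212 8 (.s k128 k191 6 (.s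
  k129 k189 5 (.d k192 k64 k66 7 8)))))))))

def t42_85_60 : T TT 256 :=
  (.f k2 k1 0 (.l (.s k86 k254 13 (.s k23 k43 5 (.s k169 k252 14 (.s k149 k212 8 (.s k128 k191 6 (.s
  k129 k189 5 (.d k192 k64 k66 7 8)))))))))

def t42_85_61 : T TT 256 :=
  (.f k2 k1 0 (.l (.s k86 k254 13 (.s k23 k43 5 (.s k169 k252 14 (.s k149 k212 8 (.s k128 k191 6 (.s
  k129 k189 5 (.d k192 k64 k66 7 8)))))))))

def t42_85_62 : T TT 256 :=
  (.f k2 k1 0 (.l (.s k86 k254 13 (.s k23 k43 5 (.s k169 k252 14 (.s k149 k212 8 (.s k128 k191 6 (.s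
  k129 k189 5 (.d k192 k64 k66 7 8)))))))))

def t42_85_64 : T TT 256 :=
  (.q k127 [(.s k2 k1 0 (.s k86 k254 13 (.s k169 k252 14 (.s k255 k191 7 (.d k171 k168 k87 0
  13))))), (.s k255 k191 7 (.s k87 k171 13 (.s k107 k67 5 (.s k151 k195 13 (.d k23 k43 k215 5
  7))))), (.s k2 k1 0 (.s k86 k254 13 (.s k23 k43 5 (.s k149 k212 8 (.d k191 k128 k255 6 7)))))] (.c
  k191 (.l (.s k2 k1 0 (.s k86 k254 13 (.s k43 k23 5 (.s k169 k252 14 (.s k171 k168 0 (.s k107 k235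
  7 (.d k87 k255 k67 13 5)))))))) (.c k255 (.q k86 [(.d k2 k1 k254 0 13), (.s k43 k23 5 (.s k169
  k252 14 (.s k171 k168 0 (.s k107 k235 7 (.s k195 k151 13 (.d k67 k87 k131 5 7))))))] (.c k254 (.l
  (.s k252 k169 14 (.s k126 k189 8 (.s k124 k125 0 (.s k60 k188 7 (.s k40 k20 5 (.d k105 k67 k235 6
  8))))))) .n)) .n)))

def t42_85_65 : T TT 256 :=
  (.f k2 k1 0 (.l (.s k86 k254 13 (.s k23 k43 5 (.s k169 k252 14 (.s k149 k212 8 (.s k128 k191 6 (.s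
  k129 k189 5 (.d k192 k64 k66 7 8)))))))))

def t42_85_66 : T TT 256 :=
  (.f k2 k1 0 (.l (.s k86 k254 13 (.s k23 k43 5 (.s k169 k252 14 (.s k149 k212 8 (.s k191 k128 6 (.s
  k171 k168 0 (.d k255 k127 k87 7 13)))))))))

def t42_85_67 : T TT 256 :=
  (.f k2 k1 0 (.l (.s k86 k254 13 (.s k23 k43 5 (.s k169 k252 14 (.s k149 k212 8 (.s k128 k191 6 (.s
  k129 k189 5 (.d k192 k64 k66 7 8)))))))))

def t42_85_68 : T TT 256 :=
  (.f k2 k1 0 (.l (.s k86 k254 13 (.s k23 k43 5 (.s k169 k252 14 (.s k149 k212 8 (.s k128 k191 6 (.s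
  k129 k189 5 (.d k192 k64 k66 7 8)))))))))

def t42_85_69 : T TT 256 :=
  (.f k2 k1 0 (.l (.s k86 k254 13 (.s k23 k43 5 (.s k169 k252 14 (.s k149 k212 8 (.s k128 k191 6 (.s
  k129 k189 5 (.d k192 k64 k66 7 8)))))))))

def t42_85_70 : T TT 256 :=
  (.f k2 k1 0 (.l (.s k86 k254 13 (.s k23 k43 5 (.s k169 k252 14 (.s k149 k212 8 (.s k128 k191 6 (.s
  k129 k189 5 (.d k192 k64 k66 7 8)))))))))

def t42_85_71 : T TT 256 :=
  (.f k2 k1 0 (.l (.s k86 k254 13 (.s k23 k43 5 (.s k169 k252 14 (.s k149 k212 8 (.s k128 k191 6 (.s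
  k129 k189 5 (.d k192 k64 k66 7 8)))))))))

def t42_85_72 : T TT 256 :=
  (.f k2 k1 0 (.l (.s k86 k254 13 (.s k23 k43 5 (.s k169 k252 14 (.s k149 k212 8 (.s k128 k191 6 (.s
  k129 k189 5 (.d k192 k64 k66 7 8)))))))))

def t42_85_73 : T TT 256 :=
  (.f k2 k1 0 (.l (.s k86 k254 13 (.s k23 k43 5 (.s k169 k252 14 (.s k149 k212 8 (.s k128 k191 6 (.s
  k129 k189 5 (.d k192 k64 k66 7 8)))))))))

def t42_85_74 : T TT 256 :=
  (.f k2 k1 0 (.l (.s k86 k254 13 (.s k23 k43 5 (.s k169 k252 14 (.s k149 k212 8 (.s k128 k191 6 (.s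
  k129 k189 5 (.d k192 k64 k66 7 8)))))))))

def t42_85_75 : T TT 256 :=
  (.f k2 k1 0 (.l (.s k86 k254 13 (.s k23 k43 5 (.s k169 k252 14 (.s k149 k212 8 (.s k128 k191 6 (.s
  k129 k189 5 (.d k192 k64 k66 7 8)))))))))

def t42_85_76 : T TT 256 :=
  (.f k2 k1 0 (.l (.s k86 k254 13 (.s k23 k43 5 (.s k169 k252 14 (.s k149 k212 8 (.s k128 k191 6 (.s
  k129 k189 5 (.d k192 k64 k66 7 8)))))))))

def t42_85_77 : T TT 256 :=
  (.f k2 k1 0 (.l (.s k86 k254 13 (.s k23 k43 5 (.s k169 k252 14 (.s k149 k212 8 (.s k128 k191 6 (.s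
  k129 k189 5 (.d k192 k64 k66 7 8)))))))))

def t42_85_78 : T TT 256 :=
  (.f k2 k1 0 (.l (.s k86 k254 13 (.s k23 k43 5 (.s k169 k252 14 (.s k149 k212 8 (.s k128 k191 6 (.s
  k129 k189 5 (.d k192 k64 k66 7 8)))))))))

def t42_85_79 : T TT 256 :=
  (.f k2 k1 0 (.l (.s k86 k254 13 (.s k23 k43 5 (.s k169 k252 14 (.s k149 k212 8 (.s k128 k191 6 (.s
  k129 k189 5 (.d k192 k64 k66 7 8)))))))))

def t42_85_80 : T TT 256 :=
  (.f k2 k1 0 (.l (.s k86 k254 13 (.s k23 k43 5 (.s k169 k252 14 (.s k149 k212 8 (.s k128 k191 6 (.s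
  k129 k189 5 (.d k192 k64 k66 7 8)))))))))

def t42_85_81 : T TT 256 :=
  (.f k2 k1 0 (.l (.s k86 k254 13 (.s k23 k43 5 (.s k169 k252 14 (.s k149 k212 8 (.s k128 k191 6 (.s
  k129 k189 5 (.d k192 k64 k66 7 8)))))))))

def t42_85_82 : T TT 256 :=
  (.f k2 k1 0 (.l (.s k86 k254 13 (.s k23 k43 5 (.s k169 k252 14 (.s k149 k212 8 (.s k128 k191 6 (.s
  k129 k189 5 (.d k192 k64 k66 7 8)))))))))

def t42_85_83 : T TT 256 :=
  (.f k2 k1 0 (.l (.s k86 k254 13 (.s k23 k43 5 (.s k169 k252 14 (.s k149 k212 8 (.s k128 k191 6 (.s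
  k129 k189 5 (.d k192 k64 k66 7 8)))))))))

def t42_85_84 : T TT 256 :=
  (.f k2 k1 0 (.l (.s k86 k254 13 (.s k23 k43 5 (.s k169 k252 14 (.s k149 k212 8 (.s k128 k191 6 (.s
  k129 k189 5 (.d k192 k64 k66 7 8)))))))))

def t42_85_86 : T TT 256 :=
  (.q k87 [(.s k43 k23 5 (.s k171 k255 13 (.s k107 k235 7 (.s k195 k151 13 (.d k67 k127 k131 5
  7))))), (.s k23 k43 5 (.s k255 k171 13 (.s k151 k215 7 (.s k107 k195 13 (.d k127 k67 k191 5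
  7)))))] (.c k23 (.f k255 k171 13 (.q k192 [(.s k64 k128 7 (.s k66 k129 8 (.s k127 k191 7 (.d k67
  k65 k107 0 5)))), (.s k2 k1 0 (.s k64 k128 7 (.s k66 k129 8 (.s k130 k194 7 (.d k65 k67 k195 0
  8)))))] (.c k64 (.l (.s k127 k191 7 (.s k2 k1 0 (.s k66 k129 8 (.s k130 k194 7 (.s k67 k107 5 (.d
  k195 k131 k65 7 8))))))) (.c k65 (.l (.s k128 k64 7 (.s k127 k191 7 (.s k67 k107 5 (.s k131 k195 7
  (.d k129 k66 k130 8 0)))))) (.c k66 (.q k126 [(.s k64 k128 7 (.s k252 k189 8 (.s k84 k168 13 (.s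
  k127 k191 7 (.d k124 k125 k104 0 5))))), (.s k127 k191 7 (.s k189 k252 8 (.s k125 k124 0 (.s k60
  k190 8 (.d k61 k62 k253 0 7))))), (.s k64 k128 7 (.s k252 k189 8 (.s k84 k168 13 (.s k104 k124 5
  (.s k148 k60 13 (.d k212 k232 k20 5 7)))))), (.s k128 k64 7 (.s k127 k191 7 (.s k67 k107 5 (.s
  k131 k195 7 (.s k125 k124 0 (.s k130 k129 0 (.d k190 k150 k60 5 8)))))))] (.c k64 (.l (.s k127
  k191 7 (.s k189 k252 8 (.s k125 k124 0 (.s k60 k190 8 (.d k61 k62 k253 0 7)))))) (.c k124 (.l (.s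
  k64 k128 7 (.s k189 k252 8 (.s k191 k127 7 (.s k190 k188 0 (.s k60 k125 8 (.d k62 k61 k254 0
  7))))))) (.c k127 (.l (.s k64 k128 7 (.s k252 k189 8 (.s k84 k168 13 (.s k104 k124 5 (.s k148 k60
  13 (.d k212 k232 k20 5 7))))))) (.c k149 (.q k212 [(.d k252 k232 k189 5 8), (.s k127 k191 7 (.s
  k67 k107 5 (.s k213 k234 6 (.s k215 k214 0 (.d k195 k235 k131 5 7)))))] (.c k21 (.l (.s k213 k234
  6 (.d k252 k232 k189 5 8))) (.c k64 (.l (.s k127 k191 7 (.d k252 k232 k189 5 8))) (.c k127 (.l (.s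
  k64 k128 7 (.d k252 k232 k189 5 8))) (.c k213 (.q k21 [(.d k252 k232 k189 5 8), (.s k1 k2 0 (.s
  k41 k61 5 (.s k127 k191 7 (.s k125 k124 0 (.d k60 k22 k190 6 8)))))] (.c k64 (.l (.s k127 k191 7
  (.d k252 k232 k189 5 8))) (.c k127 (.l (.s k64 k128 7 (.d k252 k232 k189 5 8))) .n))) .n))))) (.c
  k212 (.q k149 [(.d k128 k64 k191 7 6)] (.c k64 (.l (.s k127 k191 7 (.s k189 k252 8 (.s k125 k124 0
  (.s k60 k190 8 (.d k61 k62 k253 0 7)))))) (.c k127 (.l (.s k64 k128 7 (.s k252 k189 8 (.s k84 k168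
  13 (.s k104 k124 5 (.s k254 k253 0 (.s k62 k190 7 (.d k60 k61 k148 0 13)))))))) (.c k128 (.l (.s
  k189 k252 8 (.s k127 k191 7 (.s k125 k124 0 (.s k60 k190 8 (.d k61 k62 k253 0 7)))))) (.c k191 (.l
  (.s k1 k2 0 (.s k189 k252 8 (.s k129 k169 5 (.s k65 k193 7 (.s k130 k195 8 (.d k128 k131 k64 0
  7))))))) .n))))) .n)))))) (.c k67 (.f k213 k234 6 (.f k66 k129 8 (.f k2 k1 0 (.f k127 k191 7 (.f
  k194 k130 7 (.l (.s k193 k195 0 (.s k253 k233 5 (.s k252 k254 0 (.s k84 k168 13 (.s k126 k189 8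
  (.s k124 k125 0 (.d k64 k104 k128 5 7))))))))))))) (.c k126 (.l (.s k66 k129 8 (.s k64 k128 7 (.s
  k127 k191 7 (.d k67 k65 k107 0 5))))) (.c k127 (.l (.s k64 k128 7 (.s k2 k1 0 (.s k66 k129 8 (.s
  k130 k194 7 (.d k65 k67 k195 0 8)))))) (.c k128 (.l (.s k66 k129 8 (.s k127 k191 7 (.s k67 k107 5
  (.s k65 k64 0 (.d k195 k131 k130 7 8)))))) (.c k129 (.q k212 [(.s k127 k191 7 (.s k107 k67 5 (.s
  k213 k234 6 (.s k215 k214 0 (.d k195 k151 k235 13 5))))), (.s k64 k128 7 (.s k252 k232 5 (.s k84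
  k168 13 (.s k104 k124 5 (.d k148 k20 k60 7 13))))), (.s k252 k232 5 (.s k84 k168 13 (.s k148 k20 7
  (.s k104 k60 13 (.d k64 k124 k128 5 7)))))] (.c k64 (.l (.s k127 k191 7 (.s k67 k107 5 (.s k213
  k234 6 (.s k215 k214 0 (.d k195 k235 k131 5 7)))))) (.c k66 (.q k126 [(.d k252 k232 k189 5 8), (.s
  k127 k191 7 (.s k67 k107 5 (.s k213 k234 6 (.s k215 k214 0 (.d k195 k235 k131 5 7)))))] (.c k64
  (.l (.s k127 k191 7 (.d k252 k232 k189 5 8))) (.c k127 (.l (.s k64 k128 7 (.d k252 k232 k189 5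
  8))) .n))) (.c k124 (.l (.s k127 k191 7 (.s k67 k107 5 (.s k213 k234 6 (.s k215 k214 0 (.d k195
  k235 k131 5 7)))))) (.c k126 (.q k66 [(.s k64 k128 7 (.s k127 k191 7 (.d k67 k65 k107 0 5))), (.s
  k64 k128 7 (.s k252 k232 5 (.s k84 k168 13 (.s k148 k20 7 (.d k104 k124 k60 5 13)))))] (.c k64 (.l
  (.s k127 k191 7 (.s k2 k1 0 (.s k130 k194 7 (.s k67 k107 5 (.d k195 k131 k65 7 8)))))) (.c k127
  (.l (.s k64 k128 7 (.s k2 k1 0 (.s k130 k194 7 (.d k65 k67 k195 0 8))))) (.c k128 (.l (.s k127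
  k191 7 (.s k67 k107 5 (.s k65 k64 0 (.d k195 k131 k130 7 8))))) (.c k130 (.l (.s k127 k191 7 (.s
  k67 k107 5 (.d k64 k65 k128 0 7)))) (.c k131 (.l (.s k2 k1 0 (.s k64 k128 7 (.s k130 k194 7 (.d
  k65 k67 k195 0 8))))) .n)))))) (.c k127 (.l (.s k64 k128 7 (.s k252 k232 5 (.s k84 k168 13 (.s
  k148 k20 7 (.d k104 k124 k60 5 13)))))) .n)))))) (.c k130 (.l (.s k64 k128 7 (.s k127 k191 7 (.s
  k67 k107 5 (.d k66 k129 k65 8 0))))) (.c k131 (.l (.s k2 k1 0 (.s k64 k128 7 (.s k66 k129 8 (.s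
  k130 k194 7 (.d k65 k67 k195 0 8)))))) (.c k149 (.q k212 [(.s k64 k128 7 (.s k66 k129 8 (.s k127
  k191 7 (.d k67 k65 k107 0 5)))), (.s k64 k128 7 (.s k252 k232 5 (.s k84 k168 13 (.s k148 k20 7 (.d
  k104 k124 k60 5 13))))), (.s k127 k191 7 (.s k67 k107 5 (.s k213 k234 6 (.s k215 k214 0 (.d k195
  k235 k131 5 7)))))] (.c k21 (.l (.s k213 k234 6 (.s k64 k128 7 (.s k66 k129 8 (.s k127 k191 7 (.d
  k67 k65 k107 0 5)))))) (.c k64 (.l (.s k127 k191 7 (.s k67 k107 5 (.s k213 k234 6 (.s k215 k214 0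
  (.d k195 k235 k131 5 7)))))) (.c k66 (.q k126 [(.d k252 k232 k189 5 8), (.s k127 k191 7 (.s k67
  k107 5 (.s k213 k234 6 (.s k215 k214 0 (.d k195 k235 k131 5 7)))))] (.c k21 (.l (.s k213 k234 6
  (.d k252 k232 k189 5 8))) (.c k64 (.l (.s k127 k191 7 (.d k252 k232 k189 5 8))) (.c k127 (.l (.s
  k64 k128 7 (.d k252 k232 k189 5 8))) (.c k213 (.q k21 [(.d k252 k232 k189 5 8), (.s k1 k2 0 (.s
  k41 k61 5 (.s k127 k191 7 (.s k125 k124 0 (.d k60 k22 k190 6 8)))))] (.c k64 (.l (.s k127 k191 7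
  (.d k252 k232 k189 5 8))) (.c k127 (.l (.s k64 k128 7 (.d k252 k232 k189 5 8))) .n))) .n))))) (.c
  k126 (.l (.s k66 k129 8 (.s k64 k128 7 (.s k127 k191 7 (.d k67 k65 k107 0 5))))) (.c k127 (.l (.s
  k64 k128 7 (.s k2 k1 0 (.s k66 k129 8 (.s k130 k194 7 (.d k65 k67 k195 0 8)))))) (.c k213 (.q k21
  [(.s k64 k128 7 (.s k66 k129 8 (.s k127 k191 7 (.d k67 k65 k107 0 5)))), (.s k1 k2 0 (.s k61 k41 5
  (.s k252 k232 5 (.s k253 k254 0 (.d k189 k126 k125 8 7))))), (.s k64 k128 7 (.s k127 k191 7 (.s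
  k67 k107 5 (.d k66 k65 k129 0 8))))] (.c k64 (.l (.s k127 k191 7 (.s k1 k2 0 (.s k61 k41 5 (.s
  k252 k232 5 (.s k253 k254 0 (.d k189 k125 k126 7 8))))))) (.c k66 (.q k126 [(.d k252 k232 k189 5
  8), (.s k1 k2 0 (.s k41 k61 5 (.s k127 k191 7 (.s k125 k124 0 (.d k60 k22 k190 6 8)))))] (.c k64
  (.l (.s k127 k191 7 (.d k252 k232 k189 5 8))) (.c k127 (.l (.s k64 k128 7 (.d k252 k232 k189 5
  8))) .n))) (.c k126 (.l (.s k66 k129 8 (.s k64 k128 7 (.s k127 k191 7 (.d k67 k65 k107 0 5)))))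
  (.c k127 (.l (.s k64 k128 7 (.s k2 k1 0 (.s k66 k129 8 (.s k130 k194 7 (.d k65 k67 k195 0 8))))))
  .n))))) .n))))))) (.c k212 (.q k149 [(.d k128 k64 k191 7 6)] (.c k64 (.l (.s k127 k191 7 (.s k2 k1
  0 (.s k66 k129 8 (.s k130 k194 7 (.s k67 k107 5 (.d k195 k131 k65 7 8))))))) (.c k66 (.q k126 [(.d
  k128 k64 k191 7 6)] (.c k64 (.l (.s k127 k191 7 (.s k189 k252 8 (.s k125 k124 0 (.s k60 k190 8 (.d
  k61 k62 k253 0 7)))))) (.c k127 (.l (.s k64 k128 7 (.s k252 k189 8 (.s k84 k168 13 (.s k104 k124 5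
  (.s k254 k253 0 (.s k62 k190 7 (.d k60 k61 k148 0 13)))))))) (.c k128 (.l (.s k189 k252 8 (.s k127
  k191 7 (.s k125 k124 0 (.s k60 k190 8 (.d k61 k62 k253 0 7)))))) (.c k191 (.l (.s k1 k2 0 (.s k189
  k252 8 (.s k129 k169 5 (.s k65 k193 7 (.s k130 k195 8 (.d k128 k131 k64 0 7))))))) .n))))) (.c
  k126 (.l (.s k66 k129 8 (.d k128 k191 k64 6 7))) (.c k127 (.l (.s k64 k128 7 (.s k2 k1 0 (.s k66
  k129 8 (.s k130 k194 7 (.d k65 k67 k195 0 8)))))) (.c k128 (.l (.s k66 k129 8 (.s k127 k191 7 (.s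
  k67 k107 5 (.s k65 k64 0 (.d k195 k131 k130 7 8)))))) (.c k191 (.l (.s k2 k1 0 (.s k64 k128 7 (.s
  k66 k129 8 (.s k130 k194 7 (.d k65 k67 k195 0 8)))))) .n))))))) .n)))))))))))))) (.c k43 (.f k171
  k255 13 (.f k169 k168 0 (.q k41 [(.s k1 k2 0 (.s k61 k21 5 (.d k60 k62 k22 0 6))), (.s k105 k233 7
  (.s k40 k235 8 (.d k60 k20 k22 5 6)))] (.c k22 (.f k2 k1 0 (.f k105 k233 7 (.l (.s k40 k235 8 (.s
  k60 k20 5 (.s k61 k62 0 (.s k149 k193 13 (.s k128 k191 6 (.s k129 k189 5 (.d k192 k64 k66 7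
  8)))))))))) (.c k60 (.l (.s k1 k2 0 (.s k61 k21 5 (.s k105 k233 7 (.s k149 k193 13 (.s k128 k191 6
  (.s k129 k189 5 (.d k192 k64 k66 7 8)))))))) (.c k64 (.q k127 [(.s k1 k2 0 (.s k61 k21 5 (.d k60
  k62 k22 0 6))), (.s k105 k233 7 (.s k40 k235 8 (.s k60 k20 5 (.s k67 k107 5 (.d k195 k150 k131 14
  7)))))] (.c k60 (.l (.s k67 k107 5 (.s k131 k195 7 (.s k150 k188 6 (.s k191 k151 5 (.s k128 k149 6
  (.d k130 k129 k190 0 5))))))) (.c k66 (.q k126 [(.s k252 k189 8 (.s k67 k107 5 (.s k195 k131 7 (.d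
  k233 k105 k214 7 6)))), (.s k1 k2 0 (.s k61 k21 5 (.d k60 k62 k22 0 6)))] (.c k65 (.l (.s k67 k107
  5 (.s k1 k2 0 (.s k61 k21 5 (.d k60 k62 k22 0 6))))) (.c k67 (.q k65 [(.s k195 k130 8 (.s k252
  k189 8 (.d k233 k105 k214 7 6))), (.s k105 k233 7 (.s k40 k235 8 (.d k60 k20 k22 5 6))), (.s k1 k2
  0 (.s k61 k21 5 (.d k60 k62 k22 0 6)))] (.c k105 (.l (.s k124 k125 0 (.s k60 k22 6 (.d k252 k188
  k189 7 8)))) (.c k124 (.l (.s k105 k233 7 (.s k195 k130 8 (.d k60 k22 k150 6 14)))) .n))) .n)))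
  (.c k126 (.q k66 [(.s k1 k2 0 (.s k61 k21 5 (.d k60 k62 k22 0 6))), (.s k105 k233 7 (.s k40 k235 8
  (.d k60 k20 k22 5 6))), (.s k2 k1 0 (.s k130 k194 7 (.s k195 k65 8 (.d k67 k107 k131 5 7))))] .n)
  .n)))) (.c k66 (.q k126 [(.s k1 k2 0 (.s k61 k21 5 (.d k60 k62 k22 0 6))), (.s k105 k233 7 (.s k40
  k235 8 (.d k60 k20 k22 5 6))), (.s k105 k233 7 (.s k189 k252 8 (.s k149 k129 5 (.s k61 k193 13 (.d
  k1 k2 k21 0 5)))))] (.c k64 (.q k127 [(.s k252 k189 8 (.s k67 k107 5 (.s k195 k131 7 (.d k233 k105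
  k214 7 6)))), (.s k1 k2 0 (.s k61 k21 5 (.d k60 k62 k22 0 6)))] (.c k65 (.l (.s k67 k107 5 (.s k1
  k2 0 (.s k61 k21 5 (.d k60 k62 k22 0 6))))) (.c k67 (.q k65 [(.s k195 k130 8 (.s k252 k189 8 (.d
  k233 k105 k214 7 6))), (.s k105 k233 7 (.s k40 k235 8 (.d k60 k20 k22 5 6))), (.s k1 k2 0 (.s k61
  k21 5 (.d k60 k62 k22 0 6)))] (.c k105 (.l (.s k124 k125 0 (.s k60 k22 6 (.d k252 k188 k189 7
  8)))) (.c k124 (.l (.s k105 k233 7 (.s k195 k130 8 (.d k60 k22 k150 6 14)))) .n))) .n))) (.c k127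
  (.q k64 [(.s k1 k2 0 (.s k61 k21 5 (.d k60 k62 k22 0 6))), (.s k128 k192 7 (.s k189 k252 8 (.d
  k149 k129 k191 5 6))), (.s k60 k22 6 (.s k40 k20 5 (.d k105 k233 k235 7 8)))] .n) .n))) (.c k126
  (.q k66 [(.s k1 k2 0 (.s k61 k21 5 (.d k60 k62 k22 0 6))), (.s k105 k233 7 (.s k40 k235 8 (.d k60
  k20 k22 5 6))), (.s k2 k1 0 (.s k130 k194 7 (.s k65 k195 8 (.s k192 k129 8 (.d k64 k67 k128 0
  7)))))] (.c k64 (.q k127 [(.s k1 k2 0 (.s k61 k21 5 (.d k60 k62 k22 0 6))), (.s k105 k233 7 (.s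
  k40 k235 8 (.d k60 k20 k22 5 6))), (.s k2 k1 0 (.s k130 k194 7 (.s k195 k65 8 (.d k67 k107 k131 5
  7))))] .n) (.c k127 (.q k64 [(.d k192 k128 k129 7 8), (.s k1 k2 0 (.s k61 k21 5 (.d k60 k62 k22 0
  6)))] (.c k124 (.q k125 [(.d k192 k128 k129 7 8), (.s k1 k2 0 (.s k61 k21 5 (.d k60 k62 k22 0
  6)))] (.c k67 (.l (.s k105 k233 7 (.d k192 k128 k129 7 8))) (.c k105 (.l (.s k67 k65 0 (.d k192
  k128 k129 7 8))) .n))) (.c k125 (.q k124 [(.d k192 k128 k129 7 8), (.s k1 k2 0 (.s k61 k21 5 (.d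
  k60 k62 k22 0 6)))] (.c k60 (.q k190 [(.d k192 k128 k129 7 8), (.s k2 k1 0 (.d k130 k150 k194 5
  7))] (.c k65 (.l (.s k105 k233 7 (.d k192 k128 k129 7 8))) (.c k105 (.l (.s k65 k67 0 (.d k192
  k128 k129 7 8))) .n))) (.c k65 (.l (.s k105 k233 7 (.d k192 k128 k129 7 8))) (.c k105 (.l (.s k65
  k67 0 (.d k192 k128 k129 7 8))) (.c k190 (.l (.s k60 k22 6 (.d k192 k128 k129 7 8))) .n))))) .n)))
  .n))) (.c k127 (.q k64 [(.s k1 k2 0 (.s k61 k21 5 (.d k60 k62 k22 0 6))), (.s k105 k233 7 (.s k40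
  k235 8 (.d k60 k20 k22 5 6))), (.s k2 k1 0 (.s k192 k128 7 (.s k66 k129 8 (.s k130 k194 7 (.d k65
  k67 k195 0 8)))))] (.c k66 (.q k126 [(.s k1 k2 0 (.s k61 k21 5 (.d k60 k62 k22 0 6))), (.s k128
  k192 7 (.s k189 k252 8 (.d k149 k129 k191 5 6))), (.s k60 k22 6 (.s k40 k20 5 (.d k105 k233 k235 7
  8)))] .n) (.c k126 (.q k66 [(.d k192 k128 k129 7 8), (.s k1 k2 0 (.s k61 k21 5 (.d k60 k62 k22 0
  6)))] (.c k124 (.q k125 [(.d k192 k128 k129 7 8), (.s k1 k2 0 (.s k61 k21 5 (.d k60 k62 k22 0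
  6)))] (.c k67 (.l (.s k105 k233 7 (.d k192 k128 k129 7 8))) (.c k105 (.l (.s k67 k65 0 (.d k192
  k128 k129 7 8))) .n))) (.c k125 (.q k124 [(.d k192 k128 k129 7 8), (.s k1 k2 0 (.s k61 k21 5 (.d
  k60 k62 k22 0 6)))] (.c k60 (.q k190 [(.d k192 k128 k129 7 8), (.s k2 k1 0 (.d k130 k150 k194 5
  7))] (.c k65 (.l (.s k105 k233 7 (.d k192 k128 k129 7 8))) (.c k105 (.l (.s k65 k67 0 (.d k192
  k128 k129 7 8))) .n))) (.c k65 (.l (.s k105 k233 7 (.d k192 k128 k129 7 8))) (.c k105 (.l (.s k65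
  k67 0 (.d k192 k128 k129 7 8))) (.c k190 (.l (.s k60 k22 6 (.d k192 k128 k129 7 8))) .n))))) .n)))
  .n))) .n))))))))) (.c k64 (.q k127 [(.d k255 k191 k171 7 13), (.s k23 k43 5 (.s k151 k215 7 (.d
  k107 k67 k195 5 13)))] (.c k66 (.q k126 [(.d k255 k191 k171 7 13), (.s k23 k43 5 (.s k151 k215 7
  (.d k107 k67 k195 5 13)))] (.c k65 (.l (.s k67 k107 5 (.d k255 k191 k171 7 13))) (.c k67 (.q k65
  [(.d k255 k191 k171 7 13), (.s k195 k130 8 (.s k23 k43 5 (.d k151 k215 k107 7 13)))] (.c k105 (.l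
  (.s k124 k125 0 (.d k255 k191 k171 7 13))) (.c k124 (.q k105 [(.d k255 k191 k171 7 13), (.s k195
  k130 8 (.s k23 k43 5 (.d k151 k215 k107 7 13)))] (.c k84 (.q k104 [(.d k255 k191 k171 7 13), (.s
  k195 k130 8 (.s k23 k43 5 (.d k151 k215 k107 7 13)))] .n) (.c k104 (.q k84 [(.d k252 k189 k168 8
  13), (.d k255 k191 k171 7 13)] .n) .n))) .n))) .n))) (.c k126 (.q k66 [(.d k255 k191 k171 7 13),
  (.s k23 k43 5 (.s k151 k215 7 (.d k107 k67 k195 5 13)))] .n) .n))) (.c k66 (.q k126 [(.s k171 k255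
  13 (.s k252 k189 8 (.d k168 k169 k84 0 13))), (.s k43 k23 5 (.s k171 k255 13 (.s k107 k235 7 (.s
  k195 k151 13 (.d k67 k127 k131 5 7)))))] (.c k64 (.q k127 [(.d k255 k191 k171 7 13), (.s k23 k43 5
  (.s k151 k215 7 (.d k107 k67 k195 5 13)))] (.c k65 (.l (.s k67 k107 5 (.d k255 k191 k171 7 13)))
  (.c k67 (.q k65 [(.d k255 k191 k171 7 13), (.s k195 k130 8 (.s k23 k43 5 (.d k151 k215 k107 7
  13)))] (.c k105 (.l (.s k124 k125 0 (.d k255 k191 k171 7 13))) (.c k124 (.q k105 [(.d k255 k191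
  k171 7 13), (.s k195 k130 8 (.s k23 k43 5 (.d k151 k215 k107 7 13)))] (.c k84 (.q k104 [(.d k255
  k191 k171 7 13), (.s k195 k130 8 (.s k23 k43 5 (.d k151 k215 k107 7 13)))] .n) (.c k104 (.q k84
  [(.d k252 k189 k168 8 13), (.d k255 k191 k171 7 13)] .n) .n))) .n))) .n))) (.c k127 (.q k64 [(.s
  k171 k255 13 (.s k252 k189 8 (.d k168 k169 k84 0 13))), (.s k128 k192 7 (.s k171 k255 13 (.s k191
  k149 6 (.s k151 k131 5 (.d k23 k43 k215 5 7))))), (.s k192 k128 7 (.s k252 k189 8 (.s k84 k168 13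
  (.s k104 k124 5 (.s k148 k60 13 (.d k212 k232 k20 5 7))))))] .n) (.c k171 (.q k64 [(.s k192 k128 7
  (.s k252 k189 8 (.s k84 k168 13 (.s k104 k124 5 (.s k148 k60 13 (.d k212 k232 k20 5 7)))))), (.s
  k128 k192 7 (.s k23 k43 5 (.s k151 k215 7 (.s k107 k195 13 (.s k191 k149 6 (.d k127 k255 k67 7
  5)))))), (.s k128 k192 7 (.s k252 k189 8 (.s k84 k168 13 (.s k191 k149 6 (.s k127 k255 7 (.d k124
  k125 k104 0 5)))))), (.s k23 k43 5 (.s k151 k215 7 (.s k107 k195 13 (.s k252 k189 8 (.s k84 k168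
  13 (.s k124 k104 5 (.d k127 k125 k67 0 5)))))))] .n) (.c k255 (.l (.s k23 k43 5 (.s k151 k215 7
  (.s k195 k107 13 (.s k131 k67 7 (.s k252 k189 8 (.s k168 k84 13 (.d k171 k169 k191 0 5))))))))
  .n))))) (.c k67 (.f k2 k1 0 (.f k171 k255 13 (.l (.s k23 k43 5 (.s k151 k215 7 (.s k195 k107 13
  (.s k130 k65 8 (.s k66 k194 7 (.s k129 k192 8 (.d k131 k128 k191 0 5)))))))))) (.c k107 (.f k2 k1
  0 (.f k171 k255 13 (.l (.s k23 k43 5 (.s k151 k215 7 (.s k131 k191 5 (.s k195 k67 7 (.s k130 k65 8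
  (.s k66 k194 7 (.d k129 k128 k192 0 8)))))))))) (.c k126 (.q k66 [(.s k192 k129 8 (.s k64 k128 7
  (.s k255 k171 13 (.s k127 k191 7 (.d k67 k65 k107 0 5))))), (.s k2 k1 0 (.s k130 k194 7 (.s k23
  k43 5 (.s k151 k215 7 (.d k195 k65 k107 8 13))))), (.s k1 k2 0 (.s k129 k192 8 (.s k65 k193 7 (.s
  k195 k130 8 (.d k67 k64 k131 0 7))))), (.s k23 k43 5 (.s k171 k255 13 (.s k151 k215 7 (.s k195
  k107 13 (.d k131 k191 k67 5 7)))))] (.c k64 (.q k127 [(.d k255 k191 k171 7 13), (.s k23 k43 5 (.s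
  k151 k215 7 (.d k107 k67 k195 5 13)))] .n) (.c k127 (.q k64 [(.d k192 k128 k129 7 8), (.s k2 k1 0
  (.s k130 k194 7 (.d k65 k67 k195 0 8)))] (.c k124 (.q k125 [(.d k192 k128 k129 7 8), (.s k2 k1 0
  (.s k130 k194 7 (.d k65 k67 k195 0 8)))] (.c k67 (.q k105 [(.d k192 k128 k129 7 8), (.s k43 k23 5
  (.s k171 k255 13 (.d k235 k107 k40 7 8)))] .n) (.c k105 (.l (.s k67 k65 0 (.d k192 k128 k129 7
  8))) .n))) (.c k125 (.q k124 [(.d k192 k128 k129 7 8), (.s k2 k1 0 (.s k130 k194 7 (.d k65 k67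
  k195 0 8)))] (.c k65 (.q k105 [(.d k192 k128 k129 7 8), (.s k43 k23 5 (.s k171 k255 13 (.d k235
  k107 k40 7 8)))] .n) (.c k105 (.l (.s k65 k67 0 (.d k192 k128 k129 7 8))) .n))) .n))) .n))) (.c
  k127 (.q k64 [(.s k128 k192 7 (.s k171 k255 13 (.s k191 k149 6 (.s k151 k131 5 (.d k23 k43 k215 5
  7))))), (.s k2 k1 0 (.s k192 k128 7 (.s k66 k129 8 (.s k130 k194 7 (.d k65 k67 k195 0 8))))), (.s
  k23 k43 5 (.s k171 k255 13 (.s k151 k215 7 (.s k195 k107 13 (.d k131 k191 k67 5 7)))))] (.c k66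
  (.q k126 [(.s k171 k255 13 (.s k252 k189 8 (.d k168 k169 k84 0 13))), (.s k128 k192 7 (.s k171
  k255 13 (.s k191 k149 6 (.s k151 k131 5 (.d k23 k43 k215 5 7))))), (.s k192 k128 7 (.s k252 k189 8
  (.s k84 k168 13 (.s k104 k124 5 (.s k148 k60 13 (.d k212 k232 k20 5 7))))))] .n) (.c k126 (.q k66
  [(.d k192 k128 k129 7 8), (.s k2 k1 0 (.s k130 k194 7 (.d k65 k67 k195 0 8)))] (.c k124 (.q k125
  [(.d k192 k128 k129 7 8), (.s k2 k1 0 (.s k130 k194 7 (.d k65 k67 k195 0 8)))] (.c k67 (.q k105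
  [(.d k192 k128 k129 7 8), (.s k43 k23 5 (.s k171 k255 13 (.d k235 k107 k40 7 8)))] .n) (.c k105
  (.l (.s k67 k65 0 (.d k192 k128 k129 7 8))) .n))) (.c k125 (.q k124 [(.d k192 k128 k129 7 8), (.s
  k2 k1 0 (.s k130 k194 7 (.d k65 k67 k195 0 8)))] (.c k65 (.q k105 [(.d k192 k128 k129 7 8), (.s
  k43 k23 5 (.s k171 k255 13 (.d k235 k107 k40 7 8)))] .n) (.c k105 (.l (.s k65 k67 0 (.d k192 k128
  k129 7 8))) .n))) .n))) (.c k131 (.l (.s k2 k1 0 (.s k192 k128 7 (.s k66 k129 8 (.s k130 k194 7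
  (.d k65 k67 k195 0 8)))))) .n)))) (.c k151 (.f k2 k1 0 (.f k171 k255 13 (.f k169 k168 0 (.q k66
  [(.s k130 k194 7 (.s k65 k195 8 (.s k192 k129 8 (.d k64 k67 k128 0 7)))), (.s k129 k192 8 (.s k149
  k189 5 (.s k128 k191 6 (.d k130 k131 k194 0 7)))), (.s k130 k194 7 (.s k150 k190 5 (.s k195 k65 8
  (.d k131 k188 k67 6 7)))), (.s k43 k23 5 (.s k192 k129 8 (.s k107 k235 7 (.s k67 k127 5 (.d k64
  k65 k128 0 7)))))] (.c k64 (.q k127 [(.s k43 k23 5 (.d k107 k67 k235 5 7)), (.s k130 k194 7 (.s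
  k129 k192 8 (.s k128 k131 0 (.d k149 k189 k191 5 6))))] (.c k149 (.l (.s k107 k67 5 (.d k43 k23
  k235 5 7))) .n)) (.c k127 (.q k64 [(.d k192 k128 k129 7 8), (.s k130 k194 7 (.d k65 k67 k195 0
  8))] .n) (.c k129 (.l (.s k130 k194 7 (.s k150 k190 5 (.s k131 k188 6 (.d k195 k67 k65 7 8)))))
  .n))))))) (.c k171 (.q k66 [(.s k1 k2 0 (.s k129 k192 8 (.s k65 k193 7 (.s k195 k130 8 (.d k67 k64
  k131 0 7))))), (.s k23 k43 5 (.s k192 k129 8 (.s k151 k215 7 (.s k107 k195 13 (.s k67 k127 5 (.d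
  k64 k65 k128 0 7)))))), (.s k2 k1 0 (.s k130 k194 7 (.s k23 k43 5 (.s k151 k215 7 (.d k195 k107
  k65 13 8)))))] (.c k64 (.q k127 [(.s k107 k67 5 (.s k151 k195 13 (.d k23 k43 k215 5 7))), (.s k2
  k1 0 (.s k130 k194 7 (.s k191 k255 7 (.s k128 k149 6 (.d k129 k131 k192 0 8)))))] (.c k23 (.l (.s
  k2 k1 0 (.s k130 k194 7 (.s k195 k65 8 (.d k67 k107 k131 5 7))))) .n)) (.c k65 (.l (.s k2 k1 0 (.s
  k130 k194 7 (.s k23 k43 5 (.s k129 k192 8 (.s k151 k215 7 (.s k131 k128 0 (.d k195 k107 k67 13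
  7)))))))) (.c k127 (.q k64 [(.d k192 k128 k129 7 8), (.s k2 k1 0 (.s k130 k194 7 (.d k65 k67 k195
  0 8)))] .n) (.c k195 (.f k2 k1 0 (.l (.s k130 k194 7 (.s k23 k43 5 (.s k192 k129 8 (.s k151 k215 7
  (.s k150 k190 5 (.s k149 k148 0 (.d k128 k191 k64 6 7))))))))) .n))))) (.c k195 (.f k1 k2 0 (.f
  k171 k255 13 (.l (.s k43 k23 5 (.s k235 k107 7 (.s k105 k40 8 (.s k169 k168 0 (.s k41 k233 7 (.s
  k61 k21 5 (.d k60 k22 k62 6 0)))))))))) (.c k215 (.l (.s k43 k23 5 (.s k171 k255 13 (.s k107 k235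
  7 (.s k195 k151 13 (.d k67 k127 k131 5 7)))))) (.c k235 (.l (.s k23 k43 5 (.s k171 k255 13 (.s
  k151 k215 7 (.s k195 k107 13 (.d k131 k191 k67 5 7)))))) (.c k255 (.l (.s k23 k43 5 (.s k151 k215
  7 (.s k195 k107 13 (.s k130 k65 8 (.s k131 k67 7 (.s k128 k129 0 (.d k191 k171 k149 5 6))))))))
  .n)))))))))))))))

def t42_85_87 : T TT 256 :=
  (.f k2 k1 0 (.l (.s k86 k254 13 (.s k23 k43 5 (.s k169 k252 14 (.s k149 k212 8 (.s k128 k191 6 (.s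
  k129 k189 5 (.d k192 k64 k66 7 8)))))))))

def t42_85_88 : T TT 256 :=
  (.f k2 k1 0 (.l (.s k86 k254 13 (.s k23 k43 5 (.s k169 k252 14 (.s k149 k212 8 (.s k128 k191 6 (.s
  k129 k189 5 (.d k192 k64 k66 7 8)))))))))

def t42_85_89 : T TT 256 :=
  (.f k2 k1 0 (.l (.s k86 k254 13 (.s k23 k43 5 (.s k169 k252 14 (.s k149 k212 8 (.s k128 k191 6 (.s
  k129 k189 5 (.d k192 k64 k66 7 8)))))))))

def t42_85_90 : T TT 256 :=
  (.f k2 k1 0 (.l (.s k86 k254 13 (.s k23 k43 5 (.s k169 k252 14 (.s k149 k212 8 (.s k128 k191 6 (.s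
  k129 k189 5 (.d k192 k64 k66 7 8)))))))))

def t42_85_91 : T TT 256 :=
  (.f k2 k1 0 (.l (.s k86 k254 13 (.s k23 k43 5 (.s k169 k252 14 (.s k149 k212 8 (.s k128 k191 6 (.s
  k129 k189 5 (.d k192 k64 k66 7 8)))))))))

def t42_85_92 : T TT 256 :=
  (.f k2 k1 0 (.l (.s k86 k254 13 (.s k23 k43 5 (.s k169 k252 14 (.s k149 k212 8 (.s k128 k191 6 (.s
  k129 k189 5 (.d k192 k64 k66 7 8)))))))))

def t42_85_93 : T TT 256 :=
  (.f k2 k1 0 (.l (.s k86 k254 13 (.s k23 k43 5 (.s k169 k252 14 (.s k149 k212 8 (.s k128 k191 6 (.s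
  k129 k189 5 (.d k192 k64 k66 7 8)))))))))

def t42_85_94 : T TT 256 :=
  (.f k2 k1 0 (.l (.s k86 k254 13 (.s k23 k43 5 (.s k169 k252 14 (.s k149 k212 8 (.s k128 k191 6 (.s
  k129 k189 5 (.d k192 k64 k66 7 8)))))))))

def t42_85_95 : T TT 256 :=
  (.f k2 k1 0 (.l (.s k86 k254 13 (.s k23 k43 5 (.s k169 k252 14 (.s k149 k212 8 (.s k128 k191 6 (.s
  k129 k189 5 (.d k192 k64 k66 7 8)))))))))

def t42_85_96 : T TT 256 :=
  (.f k2 k1 0 (.l (.s k86 k254 13 (.s k23 k43 5 (.s k169 k252 14 (.s k149 k212 8 (.s k128 k191 6 (.s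
  k129 k189 5 (.d k192 k64 k66 7 8)))))))))

def t42_85_97 : T TT 256 :=
  (.f k2 k1 0 (.l (.s k86 k254 13 (.s k23 k43 5 (.s k169 k252 14 (.s k149 k212 8 (.s k128 k191 6 (.s
  k129 k189 5 (.d k192 k64 k66 7 8)))))))))

def t42_85_98 : T TT 256 :=
  (.f k2 k1 0 (.l (.s k86 k254 13 (.s k23 k43 5 (.s k169 k252 14 (.s k149 k212 8 (.s k128 k191 6 (.s
  k129 k189 5 (.d k192 k64 k66 7 8)))))))))

def t42_85_99 : T TT 256 :=
  (.f k2 k1 0 (.l (.s k86 k254 13 (.s k23 k43 5 (.s k169 k252 14 (.s k149 k212 8 (.s k128 k191 6 (.s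
  k129 k189 5 (.d k192 k64 k66 7 8)))))))))

def t42_85_100 : T TT 256 :=
  (.f k2 k1 0 (.l (.s k86 k254 13 (.s k23 k43 5 (.s k169 k252 14 (.s k149 k212 8 (.s k128 k191 6 (.s
  k129 k189 5 (.d k192 k64 k66 7 8)))))))))

def t42_85_101 : T TT 256 :=
  (.f k2 k1 0 (.l (.s k86 k254 13 (.s k23 k43 5 (.s k169 k252 14 (.s k149 k212 8 (.s k128 k191 6 (.s
  k129 k189 5 (.d k192 k64 k66 7 8)))))))))

def t42_85_102 : T TT 256 :=
  (.f k2 k1 0 (.l (.s k86 k254 13 (.s k23 k43 5 (.s k169 k252 14 (.s k149 k212 8 (.s k128 k191 6 (.s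
  k129 k189 5 (.d k192 k64 k66 7 8)))))))))

def t42_85_103 : T TT 256 :=
  (.f k2 k1 0 (.l (.s k86 k254 13 (.s k23 k43 5 (.s k169 k252 14 (.s k149 k212 8 (.s k128 k191 6 (.s
  k129 k189 5 (.d k192 k64 k66 7 8)))))))))

def t42_85_104 : T TT 256 :=
  (.f k2 k1 0 (.l (.s k86 k254 13 (.s k23 k43 5 (.s k169 k252 14 (.s k149 k212 8 (.s k128 k191 6 (.s
  k129 k189 5 (.d k192 k64 k66 7 8)))))))))

def t42_85_105 : T TT 256 :=
  (.f k2 k1 0 (.l (.s k86 k254 13 (.s k23 k43 5 (.s k169 k252 14 (.s k149 k212 8 (.s k128 k191 6 (.s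
  k129 k189 5 (.d k192 k64 k66 7 8)))))))))

def t42_85_107 : T TT 256 :=
  (.f k2 k1 0 (.l (.s k86 k254 13 (.s k23 k43 5 (.s k169 k252 14 (.s k149 k212 8 (.s k128 k191 6 (.s
  k129 k189 5 (.d k192 k64 k66 7 8)))))))))

def t42_85_108 : T TT 256 :=
  (.f k2 k1 0 (.l (.s k86 k254 13 (.s k23 k43 5 (.s k169 k252 14 (.s k149 k212 8 (.s k128 k191 6 (.s
  k129 k189 5 (.d k192 k64 k66 7 8)))))))))

def t42_85_109 : T TT 256 :=
  (.f k2 k1 0 (.l (.s k86 k254 13 (.s k23 k43 5 (.s k169 k252 14 (.s k149 k212 8 (.s k128 k191 6 (.s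
  k129 k189 5 (.d k192 k64 k66 7 8)))))))))

def t42_85_110 : T TT 256 :=
  (.f k2 k1 0 (.l (.s k86 k254 13 (.s k23 k43 5 (.s k169 k252 14 (.s k149 k212 8 (.s k128 k191 6 (.s
  k129 k189 5 (.d k192 k64 k66 7 8)))))))))

def t42_85_111 : T TT 256 :=
  (.f k2 k1 0 (.l (.s k86 k254 13 (.s k23 k43 5 (.s k169 k252 14 (.s k149 k212 8 (.s k128 k191 6 (.s
  k129 k189 5 (.d k192 k64 k66 7 8)))))))))

def t42_85_112 : T TT 256 :=
  (.f k2 k1 0 (.l (.s k86 k254 13 (.s k23 k43 5 (.s k169 k252 14 (.s k149 k212 8 (.s k128 k191 6 (.s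
  k129 k189 5 (.d k192 k64 k66 7 8)))))))))

def t42_85_113 : T TT 256 :=
  (.f k2 k1 0 (.l (.s k86 k254 13 (.s k23 k43 5 (.s k169 k252 14 (.s k149 k212 8 (.s k128 k191 6 (.s
  k129 k189 5 (.d k192 k64 k66 7 8)))))))))

def t42_85_114 : T TT 256 :=
  (.f k2 k1 0 (.l (.s k86 k254 13 (.s k23 k43 5 (.s k169 k252 14 (.s k149 k212 8 (.s k128 k191 6 (.s
  k129 k189 5 (.d k192 k64 k66 7 8)))))))))

def t42_85_115 : T TT 256 :=
  (.f k2 k1 0 (.l (.s k86 k254 13 (.s k23 k43 5 (.s k169 k252 14 (.s k149 k212 8 (.s k128 k191 6 (.s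
  k129 k189 5 (.d k192 k64 k66 7 8)))))))))

def t42_85_116 : T TT 256 :=
  (.f k2 k1 0 (.l (.s k86 k254 13 (.s k23 k43 5 (.s k169 k252 14 (.s k149 k212 8 (.s k128 k191 6 (.s
  k129 k189 5 (.d k192 k64 k66 7 8)))))))))

def t42_85_117 : T TT 256 :=
  (.f k2 k1 0 (.l (.s k86 k254 13 (.s k23 k43 5 (.s k169 k252 14 (.s k149 k212 8 (.s k128 k191 6 (.s
  k129 k189 5 (.d k192 k64 k66 7 8)))))))))

def t42_85_118 : T TT 256 :=
  (.f k2 k1 0 (.l (.s k86 k254 13 (.s k23 k43 5 (.s k169 k252 14 (.s k149 k212 8 (.s k128 k191 6 (.s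
  k129 k189 5 (.d k192 k64 k66 7 8)))))))))

def t42_85_119 : T TT 256 :=
  (.f k2 k1 0 (.l (.s k86 k254 13 (.s k23 k43 5 (.s k169 k252 14 (.s k149 k212 8 (.s k128 k191 6 (.s
  k129 k189 5 (.d k192 k64 k66 7 8)))))))))

def t42_85_120 : T TT 256 :=
  (.f k2 k1 0 (.l (.s k86 k254 13 (.s k23 k43 5 (.s k169 k252 14 (.s k149 k212 8 (.s k128 k191 6 (.s
  k129 k189 5 (.d k192 k64 k66 7 8)))))))))

def t42_85_121 : T TT 256 :=
  (.f k2 k1 0 (.l (.s k86 k254 13 (.s k23 k43 5 (.s k169 k252 14 (.s k149 k212 8 (.s k128 k191 6 (.s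
  k129 k189 5 (.d k192 k64 k66 7 8)))))))))

def t42_85_122 : T TT 256 :=
  (.f k2 k1 0 (.l (.s k86 k254 13 (.s k23 k43 5 (.s k169 k252 14 (.s k149 k212 8 (.s k128 k191 6 (.s
  k129 k189 5 (.d k192 k64 k66 7 8)))))))))

def t42_85_123 : T TT 256 :=
  (.f k2 k1 0 (.l (.s k86 k254 13 (.s k23 k43 5 (.s k169 k252 14 (.s k149 k212 8 (.s k128 k191 6 (.s
  k129 k189 5 (.d k192 k64 k66 7 8)))))))))

def t42_85_124 : T TT 256 :=
  (.f k2 k1 0 (.l (.s k86 k254 13 (.s k23 k43 5 (.s k169 k252 14 (.s k149 k212 8 (.s k128 k191 6 (.s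
  k129 k189 5 (.d k192 k64 k66 7 8)))))))))

def t42_85_125 : T TT 256 :=
  (.f k2 k1 0 (.l (.s k86 k254 13 (.s k23 k43 5 (.s k169 k252 14 (.s k149 k212 8 (.s k128 k191 6 (.s
  k129 k189 5 (.d k192 k64 k66 7 8)))))))))

def t42_85_126 : T TT 256 :=
  (.f k2 k1 0 (.l (.s k86 k254 13 (.s k23 k43 5 (.s k169 k252 14 (.s k149 k212 8 (.s k128 k191 6 (.s
  k129 k189 5 (.d k192 k64 k66 7 8)))))))))

def t42_85_127 : T TT 256 :=
  (.q k64 [(.s k2 k1 0 (.s k128 k192 7 (.s k86 k254 13 (.s k149 k191 6 (.d k23 k43 k212 5 8))))),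
  (.s k192 k128 7 (.s k66 k129 8 (.s k65 k67 0 (.s k130 k195 8 (.d k2 k1 k194 0 7)))))] (.c k1 (.q
  k169 [(.s k168 k171 0 (.d k252 k84 k86 13 14)), (.s k128 k192 7 (.s k23 k43 5 (.s k86 k252 14 (.d
  k149 k212 k191 8 6)))), (.s k128 k192 7 (.s k23 k43 5 (.s k191 k149 6 (.s k171 k168 0 (.s k87 k255
  13 (.d k151 k131 k215 5 7))))))] .n) (.c k2 (.q k86 [(.s k128 k192 7 (.s k149 k191 6 (.d k23 k43
  k212 5 8))), (.s k252 k169 14 (.s k84 k168 13 (.s k124 k104 5 (.s k105 k67 6 (.s k40 k235 8 (.d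
  k60 k20 k188 5 7))))))] (.c k22 (.q k62 [(.s k128 k192 7 (.s k149 k191 6 (.d k23 k43 k212 5 8))),
  (.s k252 k169 14 (.s k84 k168 13 (.s k60 k61 0 (.d k124 k104 k188 5 7))))] (.c k43 (.l (.s k192
  k128 7 (.s k60 k61 0 (.s k104 k148 13 (.s k84 k124 5 (.d k252 k168 k169 13 14)))))) .n)) (.c k43
  (.l (.s k128 k192 7 (.s k169 k252 14 (.s k149 k191 6 (.s k129 k189 5 (.s k131 k130 0 (.s k188 k150
  6 (.d k168 k171 k148 0 5)))))))) (.c k62 (.q k22 [(.s k128 k192 7 (.s k149 k191 6 (.d k23 k43 k212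
  5 8))), (.s k60 k41 6 (.s k40 k20 5 (.s k150 k214 7 (.d k105 k235 k195 8 14))))] (.c k43 (.l (.s
  k60 k41 6 (.s k40 k20 5 (.s k150 k214 7 (.d k105 k235 k195 8 14))))) (.c k150 (.q k194 [(.s k128
  k192 7 (.s k149 k191 6 (.d k23 k43 k212 5 8))), (.s k192 k128 7 (.s k66 k129 8 (.s k65 k67 0 (.d
  k195 k130 k193 8 0)))), (.s k23 k43 5 (.s k20 k21 0 (.d k60 k40 k41 5 6)))] (.c k20 (.q k215 [(.s
  k128 k192 7 (.s k149 k191 6 (.d k23 k43 k212 5 8))), (.s k60 k41 6 (.s k252 k169 14 (.s k84 k168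
  13 (.d k124 k188 k104 7 5))))] (.c k43 (.l (.s k192 k128 7 (.s k66 k129 8 (.s k65 k67 0 (.d k195
  k130 k193 8 0))))) .n)) (.c k215 (.q k20 [(.d k60 k40 k41 5 6), (.d k23 k21 k43 0 5)] .n) .n)))
  (.c k194 (.l (.s k150 k214 7 (.s k128 k192 7 (.s k23 k43 5 (.d k149 k191 k212 6 8))))) .n))))
  .n)))) (.c k128 (.q k169 [(.s k2 k1 0 (.d k86 k254 k252 13 14)), (.s k23 k43 5 (.s k171 k168 0 (.s
  k87 k255 13 (.s k151 k215 7 (.s k195 k107 13 (.d k131 k191 k67 5 7))))))] .n) (.c k192 (.q k169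
  [(.s k2 k1 0 (.d k86 k254 k252 13 14)), (.s k23 k43 5 (.s k171 k168 0 (.s k87 k255 13 (.s k151
  k215 7 (.s k195 k107 13 (.d k131 k191 k67 5 7))))))] .n) .n)))))

def t42_85_128 : T TT 256 :=
  (.q k169 [(.s k2 k1 0 (.d k86 k254 k252 13 14)), (.s k23 k43 5 (.s k171 k168 0 (.s k87 k255 13 (.s
  k151 k215 7 (.s k195 k107 13 (.d k131 k191 k67 5 7))))))] (.c k64 (.q k127 [(.s k2 k1 0 (.d k86
  k254 k252 13 14)), (.s k255 k191 7 (.d k171 k168 k87 0 13))] .n) (.c k127 (.q k64 [(.s k2 k1 0 (.d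
  k86 k254 k252 13 14)), (.s k23 k43 5 (.s k171 k168 0 (.s k87 k255 13 (.s k151 k215 7 (.s k195 k107
  13 (.d k131 k191 k67 5 7))))))] .n) .n)))

def t42_85_129 : T TT 256 :=
  (.q k127 [(.s k255 k191 7 (.s k87 k171 13 (.s k107 k67 5 (.s k151 k195 13 (.d k23 k43 k215 5
  7))))), (.s k2 k1 0 (.s k86 k254 13 (.s k23 k43 5 (.s k149 k212 8 (.d k191 k128 k255 6 7))))), (.s
  k2 k1 0 (.s k86 k254 13 (.s k169 k252 14 (.s k255 k191 7 (.d k171 k168 k87 0 13)))))] (.c k191 (.l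
  (.s k2 k1 0 (.s k86 k254 13 (.s k43 k23 5 (.s k169 k252 14 (.s k171 k168 0 (.s k107 k235 7 (.d k87
  k255 k67 13 5)))))))) (.c k255 (.q k169 [(.s k86 k252 14 (.d k2 k254 k1 13 0)), (.s k43 k23 5 (.s
  k171 k168 0 (.s k107 k235 7 (.s k195 k151 13 (.d k67 k87 k131 5 7)))))] .n) .n)))

def t42_85_130 : T TT 256 :=
  (.q k127 [(.s k2 k1 0 (.s k86 k254 13 (.s k169 k252 14 (.s k255 k191 7 (.d k171 k168 k87 0
  13))))), (.s k255 k191 7 (.s k87 k171 13 (.s k107 k67 5 (.s k151 k195 13 (.d k23 k43 k215 5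
  7))))), (.s k2 k1 0 (.s k86 k254 13 (.s k23 k43 5 (.s k149 k212 8 (.d k191 k128 k255 6 7)))))] (.c
  k191 (.l (.s k2 k1 0 (.s k86 k254 13 (.s k43 k23 5 (.s k169 k252 14 (.s k171 k168 0 (.s k107 k235
  7 (.d k87 k255 k67 13 5)))))))) (.c k255 (.q k169 [(.s k2 k1 0 (.d k86 k254 k252 13 14)), (.s k43
  k23 5 (.s k171 k168 0 (.s k107 k235 7 (.s k195 k151 13 (.d k67 k87 k131 5 7)))))] .n) .n)))

def t42_85_131 : T TT 256 :=
  (.q k169 [(.s k2 k1 0 (.d k86 k254 k252 13 14)), (.s k252 k86 14 (.d k168 k84 k171 13 0))] (.c k64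
  (.q k127 [(.s k2 k1 0 (.d k86 k254 k252 13 14)), (.s k255 k191 7 (.d k171 k168 k87 0 13))] .n) (.c
  k86 (.q k64 [(.s k128 k192 7 (.s k191 k149 6 (.s k255 k127 7 (.d k171 k87 k168 13 0)))), (.s k2 k1
  0 (.s k192 k128 7 (.s k66 k129 8 (.s k130 k194 7 (.d k65 k67 k195 0 8))))), (.s k43 k23 5 (.s k171
  k168 0 (.s k87 k255 13 (.s k107 k235 7 (.s k195 k151 13 (.s k67 k127 5 (.d k65 k66 k130 0
  8)))))))] (.c k66 (.q k126 [(.s k252 k189 8 (.d k168 k84 k171 13 0)), (.s k128 k192 7 (.s k189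
  k252 8 (.d k149 k129 k191 5 6))), (.s k128 k192 7 (.s k191 k149 6 (.s k255 k127 7 (.d k171 k87
  k168 13 0))))] (.c k84 (.q k87 [(.d k171 k168 k255 0 13), (.s k128 k192 7 (.s k189 k252 8 (.d k149
  k129 k191 5 6)))] .n) (.c k87 (.q k84 [(.d k252 k189 k168 8 13), (.s k128 k192 7 (.s k124 k104 5
  (.s k127 k125 0 (.d k191 k149 k255 6 7))))] .n) .n))) (.c k84 (.q k87 [(.d k171 k168 k255 0 13),
  (.s k2 k1 0 (.s k192 k128 7 (.s k66 k129 8 (.s k130 k194 7 (.d k65 k67 k195 0 8)))))] (.c k66 (.q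
  k126 [(.d k171 k168 k255 0 13), (.s k128 k192 7 (.s k189 k252 8 (.d k149 k129 k191 5 6)))] .n) (.c
  k126 (.q k66 [(.d k192 k128 k129 7 8), (.d k171 k168 k255 0 13)] .n) .n))) (.c k87 (.q k84 [(.d
  k168 k171 k252 0 13), (.s k2 k1 0 (.s k192 k128 7 (.s k66 k129 8 (.s k130 k194 7 (.d k65 k67 k195
  0 8)))))] (.c k66 (.q k126 [(.d k252 k189 k168 8 13), (.s k128 k192 7 (.s k124 k104 5 (.s k127
  k125 0 (.d k191 k149 k255 6 7))))] .n) (.c k126 (.q k66 [(.d k192 k128 k129 7 8), (.d k168 k171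
  k252 0 13)] .n) .n))) (.c k126 (.q k66 [(.d k192 k128 k129 7 8), (.s k2 k1 0 (.s k130 k194 7 (.d
  k65 k67 k195 0 8)))] (.c k84 (.q k87 [(.d k192 k128 k129 7 8), (.d k171 k168 k255 0 13)] .n) (.c
  k87 (.q k84 [(.d k192 k128 k129 7 8), (.d k168 k171 k252 0 13)] .n) .n))) .n))))) (.c k127 (.q k64
  [(.s k2 k1 0 (.d k86 k254 k252 13 14)), (.s k252 k86 14 (.d k168 k84 k171 13 0)), (.s k2 k1 0 (.s
  k192 k128 7 (.s k66 k129 8 (.s k130 k194 7 (.d k65 k67 k195 0 8)))))] .n) (.c k252 (.l (.s k2 k1 0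
  (.s k86 k254 13 (.s k23 k43 5 (.s k149 k212 8 (.s k128 k191 6 (.s k129 k189 5 (.d k192 k64 k66 7
  8)))))))) .n)))))

def t42_85_132 : T TT 256 :=
  (.f k2 k1 0 (.l (.s k86 k254 13 (.s k23 k43 5 (.s k169 k252 14 (.s k149 k212 8 (.s k128 k191 6 (.s
  k129 k189 5 (.d k192 k64 k66 7 8)))))))))

def t42_85_133 : T TT 256 :=
  (.f k2 k1 0 (.l (.s k86 k254 13 (.s k23 k43 5 (.s k169 k252 14 (.s k149 k212 8 (.s k128 k191 6 (.s
  k129 k189 5 (.d k192 k64 k66 7 8)))))))))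

def t42_85_134 : T TT 256 :=
  (.f k2 k1 0 (.l (.s k86 k254 13 (.s k23 k43 5 (.s k169 k252 14 (.s k149 k212 8 (.s k128 k191 6 (.s
  k129 k189 5 (.d k192 k64 k66 7 8)))))))))

def t42_85_135 : T TT 256 :=
  (.f k2 k1 0 (.l (.s k86 k254 13 (.s k23 k43 5 (.s k169 k252 14 (.s k149 k212 8 (.s k128 k191 6 (.s
  k129 k189 5 (.d k192 k64 k66 7 8)))))))))

def t42_85_136 : T TT 256 :=
  (.f k2 k1 0 (.l (.s k86 k254 13 (.s k23 k43 5 (.s k169 k252 14 (.s k149 k212 8 (.s k128 k191 6 (.s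
  k129 k189 5 (.d k192 k64 k66 7 8)))))))))

def t42_85_137 : T TT 256 :=
  (.f k2 k1 0 (.l (.s k86 k254 13 (.s k23 k43 5 (.s k169 k252 14 (.s k149 k212 8 (.s k128 k191 6 (.s
  k129 k189 5 (.d k192 k64 k66 7 8)))))))))

def t42_85_138 : T TT 256 :=
  (.f k2 k1 0 (.l (.s k86 k254 13 (.s k23 k43 5 (.s k169 k252 14 (.s k149 k212 8 (.s k128 k191 6 (.s
  k129 k189 5 (.d k192 k64 k66 7 8)))))))))

def t42_85_139 : T TT 256 :=
  (.f k2 k1 0 (.l (.s k86 k254 13 (.s k23 k43 5 (.s k169 k252 14 (.s k149 k212 8 (.s k128 k191 6 (.s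
  k129 k189 5 (.d k192 k64 k66 7 8)))))))))

def t42_85_140 : T TT 256 :=
  (.f k2 k1 0 (.l (.s k86 k254 13 (.s k23 k43 5 (.s k169 k252 14 (.s k149 k212 8 (.s k128 k191 6 (.s
  k129 k189 5 (.d k192 k64 k66 7 8)))))))))

def t42_85_141 : T TT 256 :=
  (.f k2 k1 0 (.l (.s k86 k254 13 (.s k23 k43 5 (.s k169 k252 14 (.s k149 k212 8 (.s k128 k191 6 (.s
  k129 k189 5 (.d k192 k64 k66 7 8)))))))))

def t42_85_142 : T TT 256 :=
  (.f k2 k1 0 (.l (.s k86 k254 13 (.s k23 k43 5 (.s k169 k252 14 (.s k149 k212 8 (.s k128 k191 6 (.s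
  k129 k189 5 (.d k192 k64 k66 7 8)))))))))

def t42_85_143 : T TT 256 :=
  (.f k2 k1 0 (.l (.s k86 k254 13 (.s k23 k43 5 (.s k169 k252 14 (.s k149 k212 8 (.s k128 k191 6 (.s
  k129 k189 5 (.d k192 k64 k66 7 8)))))))))

def t42_85_144 : T TT 256 :=
  (.f k2 k1 0 (.l (.s k86 k254 13 (.s k23 k43 5 (.s k169 k252 14 (.s k149 k212 8 (.s k128 k191 6 (.s
  k129 k189 5 (.d k192 k64 k66 7 8)))))))))

def t42_85_145 : T TT 256 :=
  (.f k2 k1 0 (.l (.s k86 k254 13 (.s k23 k43 5 (.s k169 k252 14 (.s k149 k212 8 (.s k128 k191 6 (.s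
  k129 k189 5 (.d k192 k64 k66 7 8)))))))))

def t42_85_146 : T TT 256 :=
  (.f k2 k1 0 (.l (.s k86 k254 13 (.s k23 k43 5 (.s k169 k252 14 (.s k149 k212 8 (.s k128 k191 6 (.s
  k129 k189 5 (.d k192 k64 k66 7 8)))))))))

def t42_85_147 : T TT 256 :=
  (.f k2 k1 0 (.l (.s k86 k254 13 (.s k23 k43 5 (.s k169 k252 14 (.s k149 k212 8 (.s k128 k191 6 (.s
  k129 k189 5 (.d k192 k64 k66 7 8)))))))))

def t42_85_148 : T TT 256 :=
  (.f k2 k1 0 (.l (.s k86 k254 13 (.s k23 k43 5 (.s k169 k252 14 (.s k149 k212 8 (.s k128 k191 6 (.s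
  k129 k189 5 (.d k192 k64 k66 7 8)))))))))

def t42_85_149 : T TT 256 :=
  (.f k2 k1 0 (.f k86 k254 13 (.l (.s k43 k23 5 (.s k169 k252 14 (.s k171 k168 0 (.s k255 k87 13 (.s
  k107 k235 7 (.s k151 k195 13 (.d k191 k131 k127 5 7))))))))))

def t42_85_150 : T TT 256 :=
  (.f k2 k1 0 (.l (.s k86 k254 13 (.s k23 k43 5 (.s k169 k252 14 (.s k149 k212 8 (.s k128 k191 6 (.s
  k129 k189 5 (.d k192 k64 k66 7 8)))))))))

def t42_85_151 : T TT 256 :=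
  (.f k2 k1 0 (.l (.s k86 k254 13 (.s k23 k43 5 (.s k169 k252 14 (.s k149 k212 8 (.s k128 k191 6 (.s
  k129 k189 5 (.d k192 k64 k66 7 8)))))))))

def t42_85_152 : T TT 256 :=
  (.f k2 k1 0 (.l (.s k86 k254 13 (.s k23 k43 5 (.s k169 k252 14 (.s k149 k212 8 (.s k128 k191 6 (.s
  k129 k189 5 (.d k192 k64 k66 7 8)))))))))

def t42_85_153 : T TT 256 :=
  (.f k2 k1 0 (.l (.s k86 k254 13 (.s k23 k43 5 (.s k169 k252 14 (.s k149 k212 8 (.s k128 k191 6 (.s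
  k129 k189 5 (.d k192 k64 k66 7 8)))))))))

def t42_85_154 : T TT 256 :=
  (.f k2 k1 0 (.l (.s k86 k254 13 (.s k23 k43 5 (.s k169 k252 14 (.s k149 k212 8 (.s k128 k191 6 (.s
  k129 k189 5 (.d k192 k64 k66 7 8)))))))))

def t42_85_155 : T TT 256 :=
  (.f k2 k1 0 (.l (.s k86 k254 13 (.s k23 k43 5 (.s k169 k252 14 (.s k149 k212 8 (.s k128 k191 6 (.s
  k129 k189 5 (.d k192 k64 k66 7 8)))))))))

def t42_85_156 : T TT 256 :=
  (.f k2 k1 0 (.l (.s k86 k254 13 (.s k23 k43 5 (.s k169 k252 14 (.s k149 k212 8 (.s k128 k191 6 (.s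
  k129 k189 5 (.d k192 k64 k66 7 8)))))))))

def t42_85_157 : T TT 256 :=
  (.f k2 k1 0 (.l (.s k86 k254 13 (.s k23 k43 5 (.s k169 k252 14 (.s k149 k212 8 (.s k128 k191 6 (.s
  k129 k189 5 (.d k192 k64 k66 7 8)))))))))

def t42_85_158 : T TT 256 :=
  (.f k2 k1 0 (.l (.s k86 k254 13 (.s k23 k43 5 (.s k169 k252 14 (.s k149 k212 8 (.s k128 k191 6 (.s
  k129 k189 5 (.d k192 k64 k66 7 8)))))))))

def t42_85_159 : T TT 256 :=
  (.f k2 k1 0 (.l (.s k86 k254 13 (.s k23 k43 5 (.s k169 k252 14 (.s k149 k212 8 (.s k128 k191 6 (.s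
  k129 k189 5 (.d k192 k64 k66 7 8)))))))))

def t42_85_160 : T TT 256 :=
  (.f k2 k1 0 (.l (.s k86 k254 13 (.s k23 k43 5 (.s k169 k252 14 (.s k149 k212 8 (.s k128 k191 6 (.s
  k129 k189 5 (.d k192 k64 k66 7 8)))))))))

def t42_85_161 : T TT 256 :=
  (.f k2 k1 0 (.l (.s k86 k254 13 (.s k23 k43 5 (.s k169 k252 14 (.s k149 k212 8 (.s k128 k191 6 (.s
  k129 k189 5 (.d k192 k64 k66 7 8)))))))))

def t42_85_162 : T TT 256 :=
  (.f k2 k1 0 (.l (.s k86 k254 13 (.s k23 k43 5 (.s k169 k252 14 (.s k149 k212 8 (.s k128 k191 6 (.s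
  k129 k189 5 (.d k192 k64 k66 7 8)))))))))

def t42_85_163 : T TT 256 :=
  (.f k2 k1 0 (.l (.s k86 k254 13 (.s k23 k43 5 (.s k169 k252 14 (.s k149 k212 8 (.s k128 k191 6 (.s
  k129 k189 5 (.d k192 k64 k66 7 8)))))))))

def t42_85_164 : T TT 256 :=
  (.f k2 k1 0 (.l (.s k86 k254 13 (.s k23 k43 5 (.s k169 k252 14 (.s k149 k212 8 (.s k128 k191 6 (.s
  k129 k189 5 (.d k192 k64 k66 7 8)))))))))

def t42_85_165 : T TT 256 :=
  (.f k2 k1 0 (.l (.s k86 k254 13 (.s k23 k43 5 (.s k169 k252 14 (.s k149 k212 8 (.s k128 k191 6 (.s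
  k129 k189 5 (.d k192 k64 k66 7 8)))))))))

def t42_85_166 : T TT 256 :=
  (.f k2 k1 0 (.l (.s k86 k254 13 (.s k23 k43 5 (.s k169 k252 14 (.s k149 k212 8 (.s k128 k191 6 (.s
  k129 k189 5 (.d k192 k64 k66 7 8)))))))))

def t42_85_167 : T TT 256 :=
  (.f k2 k1 0 (.l (.s k86 k254 13 (.s k23 k43 5 (.s k169 k252 14 (.s k149 k212 8 (.s k128 k191 6 (.s
  k129 k189 5 (.d k192 k64 k66 7 8)))))))))

def t42_85_168 : T TT 256 :=
  (.f k2 k1 0 (.l (.s k86 k254 13 (.s k23 k43 5 (.s k169 k252 14 (.s k149 k212 8 (.s k128 k191 6 (.s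
  k129 k189 5 (.d k192 k64 k66 7 8)))))))))

def t42_85_169 : T TT 256 :=
  (.f k43 k23 5 (.q k195 [(.s k107 k151 13 (.s k171 k235 7 (.s k87 k255 13 (.d k67 k127 k131 5
  7)))), (.s k1 k2 0 (.s k65 k130 8 (.s k129 k193 7 (.s k66 k192 8 (.d k67 k64 k131 0 7))))), (.s
  k130 k65 8 (.s k107 k151 13 (.s k150 k190 5 (.s k105 k60 14 (.d k235 k171 k40 7 8)))))] (.c k1 (.q
  k253 [(.s k107 k151 13 (.s k171 k235 7 (.s k87 k255 13 (.d k67 k127 k131 5 7)))), (.s k130 k65 8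
  (.s k150 k190 5 (.s k105 k60 14 (.s k235 k40 8 (.d k107 k171 k151 7 13))))), (.s k130 k65 8 (.s
  k131 k67 7 (.s k151 k107 13 (.s k150 k190 5 (.s k149 k148 0 (.d k128 k129 k191 0 6))))))] (.c k64
  (.q k127 [(.s k107 k151 13 (.d k67 k87 k131 5 7)), (.s k130 k65 8 (.s k191 k255 7 (.s k128 k149 6
  (.d k131 k129 k67 0 7)))), (.s k107 k151 13 (.s k171 k235 7 (.d k255 k87 k191 13 7)))] .n) (.c
  k107 (.f k67 k131 7 (.l (.s k130 k65 8 (.s k150 k190 5 (.s k105 k60 14 (.s k235 k40 8 (.s k86 k124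
  6 (.s k254 k2 13 (.d k255 k252 k215 0 5))))))))) (.c k127 (.q k64 [(.s k65 k130 8 (.d k67 k66 k131
  0 7)), (.s k128 k192 7 (.s k131 k67 7 (.s k191 k149 6 (.d k151 k107 k171 13 5)))), (.s k128 k192 7
  (.s k130 k65 8 (.s k149 k191 6 (.s k150 k190 5 (.d k151 k148 k107 0 13)))))] .n) (.c k151 (.l (.s
  k130 k65 8 (.s k150 k190 5 (.s k105 k60 14 (.s k235 k40 8 (.s k171 k107 7 (.d k255 k215 k87 5
  13))))))) .n))))) (.c k64 (.q k127 [(.s k107 k151 13 (.d k67 k87 k131 5 7)), (.s k130 k65 8 (.s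
  k191 k255 7 (.s k128 k149 6 (.d k131 k129 k67 0 7)))), (.s k107 k151 13 (.s k171 k235 7 (.d k255
  k87 k191 13 7)))] (.c k1 (.q k253 [(.s k107 k151 13 (.d k67 k87 k131 5 7)), (.s k130 k65 8 (.s
  k191 k255 7 (.s k128 k149 6 (.d k131 k129 k67 0 7)))), (.s k107 k151 13 (.s k171 k235 7 (.d k255
  k87 k191 13 7)))] .n) (.c k253 (.l (.s k1 k2 0 (.s k67 k131 7 (.d k107 k87 k151 5 13)))) .n))) (.c
  k127 (.q k64 [(.s k65 k130 8 (.d k67 k66 k131 0 7)), (.s k128 k192 7 (.s k131 k67 7 (.s k191 k149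
  6 (.d k151 k107 k171 13 5))))] (.c k1 (.q k253 [(.s k65 k130 8 (.d k67 k66 k131 0 7)), (.s k128
  k192 7 (.s k131 k67 7 (.s k191 k149 6 (.d k151 k107 k171 13 5)))), (.s k128 k192 7 (.s k130 k65 8
  (.s k149 k191 6 (.s k150 k190 5 (.d k151 k148 k107 0 13)))))] .n) (.c k67 (.l (.s k1 k2 0 (.s k192
  k128 7 (.s k65 k130 8 (.d k129 k66 k193 8 7))))) (.c k131 (.l (.s k65 k130 8 (.s k66 k67 0 (.d
  k192 k128 k129 7 8)))) (.c k253 (.l (.s k1 k2 0 (.s k65 k130 8 (.d k67 k66 k131 0 7)))) .n)))))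
  (.c k253 (.l (.s k1 k2 0 (.s k65 k130 8 (.s k129 k193 7 (.s k66 k192 8 (.d k67 k64 k131 0 7))))))
  .n))))))

def t42_85_171 : T TT 256 :=
  (.f k2 k1 0 (.l (.s k86 k254 13 (.s k23 k43 5 (.s k169 k252 14 (.s k149 k212 8 (.s k128 k191 6 (.s
  k129 k189 5 (.d k192 k64 k66 7 8)))))))))

def t42_85_172 : T TT 256 :=
  (.f k2 k1 0 (.l (.s k86 k254 13 (.s k23 k43 5 (.s k169 k252 14 (.s k149 k212 8 (.s k128 k191 6 (.s
  k129 k189 5 (.d k192 k64 k66 7 8)))))))))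

def t42_85_173 : T TT 256 :=
  (.f k2 k1 0 (.l (.s k86 k254 13 (.s k23 k43 5 (.s k169 k252 14 (.s k149 k212 8 (.s k128 k191 6 (.s
  k129 k189 5 (.d k192 k64 k66 7 8)))))))))

def t42_85_174 : T TT 256 :=
  (.f k2 k1 0 (.l (.s k86 k254 13 (.s k23 k43 5 (.s k169 k252 14 (.s k149 k212 8 (.s k128 k191 6 (.s
  k129 k189 5 (.d k192 k64 k66 7 8)))))))))

def t42_85_175 : T TT 256 :=
  (.f k2 k1 0 (.l (.s k86 k254 13 (.s k23 k43 5 (.s k169 k252 14 (.s k149 k212 8 (.s k128 k191 6 (.s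
  k129 k189 5 (.d k192 k64 k66 7 8)))))))))

def t42_85_176 : T TT 256 :=
  (.f k2 k1 0 (.l (.s k86 k254 13 (.s k23 k43 5 (.s k169 k252 14 (.s k149 k212 8 (.s k128 k191 6 (.s
  k129 k189 5 (.d k192 k64 k66 7 8)))))))))

def t42_85_177 : T TT 256 :=
  (.f k2 k1 0 (.l (.s k86 k254 13 (.s k23 k43 5 (.s k169 k252 14 (.s k149 k212 8 (.s k128 k191 6 (.s
  k129 k189 5 (.d k192 k64 k66 7 8)))))))))

def t42_85_178 : T TT 256 :=
  (.f k2 k1 0 (.l (.s k86 k254 13 (.s k23 k43 5 (.s k169 k252 14 (.s k149 k212 8 (.s k128 k191 6 (.s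
  k129 k189 5 (.d k192 k64 k66 7 8)))))))))

def t42_85_179 : T TT 256 :=
  (.f k2 k1 0 (.l (.s k86 k254 13 (.s k23 k43 5 (.s k169 k252 14 (.s k149 k212 8 (.s k128 k191 6 (.s
  k129 k189 5 (.d k192 k64 k66 7 8)))))))))

def t42_85_180 : T TT 256 :=
  (.f k2 k1 0 (.l (.s k86 k254 13 (.s k23 k43 5 (.s k169 k252 14 (.s k149 k212 8 (.s k128 k191 6 (.s
  k129 k189 5 (.d k192 k64 k66 7 8)))))))))

def t42_85_181 : T TT 256 :=
  (.f k2 k1 0 (.l (.s k86 k254 13 (.s k23 k43 5 (.s k169 k252 14 (.s k149 k212 8 (.s k128 k191 6 (.s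
  k129 k189 5 (.d k192 k64 k66 7 8)))))))))

def t42_85_182 : T TT 256 :=
  (.f k2 k1 0 (.l (.s k86 k254 13 (.s k23 k43 5 (.s k169 k252 14 (.s k149 k212 8 (.s k128 k191 6 (.s
  k129 k189 5 (.d k192 k64 k66 7 8)))))))))

def t42_85_183 : T TT 256 :=
  (.f k2 k1 0 (.l (.s k86 k254 13 (.s k23 k43 5 (.s k169 k252 14 (.s k149 k212 8 (.s k128 k191 6 (.s
  k129 k189 5 (.d k192 k64 k66 7 8)))))))))

def t42_85_184 : T TT 256 :=
  (.f k2 k1 0 (.l (.s k86 k254 13 (.s k23 k43 5 (.s k169 k252 14 (.s k149 k212 8 (.s k128 k191 6 (.s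
  k129 k189 5 (.d k192 k64 k66 7 8)))))))))

def t42_85_185 : T TT 256 :=
  (.f k2 k1 0 (.l (.s k86 k254 13 (.s k23 k43 5 (.s k169 k252 14 (.s k149 k212 8 (.s k128 k191 6 (.s
  k129 k189 5 (.d k192 k64 k66 7 8)))))))))

def t42_85_186 : T TT 256 :=
  (.f k2 k1 0 (.l (.s k86 k254 13 (.s k23 k43 5 (.s k169 k252 14 (.s k149 k212 8 (.s k128 k191 6 (.s
  k129 k189 5 (.d k192 k64 k66 7 8)))))))))

def t42_85_187 : T TT 256 :=
  (.f k2 k1 0 (.l (.s k86 k254 13 (.s k23 k43 5 (.s k169 k252 14 (.s k149 k212 8 (.s k128 k191 6 (.s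
  k129 k189 5 (.d k192 k64 k66 7 8)))))))))

def t42_85_188 : T TT 256 :=
  (.f k2 k1 0 (.l (.s k86 k254 13 (.s k23 k43 5 (.s k169 k252 14 (.s k149 k212 8 (.s k129 k189 5 (.s
  k192 k66 8 (.d k128 k191 k64 6 7)))))))))

def t42_85_189 : T TT 256 :=
  (.f k2 k1 0 (.l (.s k86 k254 13 (.s k23 k43 5 (.s k169 k252 14 (.s k149 k212 8 (.s k191 k128 6 (.s
  k171 k168 0 (.d k255 k127 k87 7 13)))))))))

def t42_85_190 : T TT 256 :=
  (.f k2 k1 0 (.l (.s k86 k254 13 (.s k23 k43 5 (.s k169 k252 14 (.s k149 k212 8 (.s k191 k128 6 (.s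
  k171 k168 0 (.d k255 k127 k87 7 13)))))))))

def t42_85_191 : T TT 256 :=
  (.f k2 k1 0 (.q k169 [(.d k86 k254 k252 13 14), (.s k43 k23 5 (.s k171 k168 0 (.s k87 k255 13 (.s
  k107 k235 7 (.s k195 k151 13 (.d k67 k127 k131 5 7))))))] (.c k64 (.q k127 [(.d k86 k254 k252 13
  14), (.s k43 k23 5 (.s k171 k168 0 (.s k87 k255 13 (.d k107 k67 k235 5 7))))] .n) (.c k127 (.q k64
  [(.d k86 k254 k252 13 14), (.s k192 k128 7 (.s k66 k129 8 (.s k130 k194 7 (.d k65 k67 k195 0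
  8))))] .n) .n))))

def t42_85_192 : T TT 256 :=
  (.q k169 [(.s k2 k1 0 (.d k86 k254 k252 13 14)), (.s k23 k43 5 (.s k171 k168 0 (.s k87 k255 13 (.s
  k151 k215 7 (.s k195 k107 13 (.d k131 k191 k67 5 7))))))] (.c k64 (.q k127 [(.s k2 k1 0 (.d k86
  k254 k252 13 14)), (.s k255 k191 7 (.d k171 k168 k87 0 13))] .n) (.c k127 (.q k64 [(.s k2 k1 0 (.d
  k86 k254 k252 13 14)), (.s k23 k43 5 (.s k171 k168 0 (.s k87 k255 13 (.s k151 k215 7 (.s k195 k107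
  13 (.d k131 k191 k67 5 7))))))] .n) .n)))

def t42_85_193 : T TT 256 :=
  (.f k2 k1 0 (.l (.s k86 k254 13 (.s k23 k43 5 (.s k169 k252 14 (.s k149 k212 8 (.s k128 k191 6 (.s
  k129 k189 5 (.d k192 k64 k66 7 8)))))))))

def t42_85_194 : T TT 256 :=
  (.f k2 k1 0 (.l (.s k86 k254 13 (.s k23 k43 5 (.s k169 k252 14 (.s k149 k212 8 (.s k128 k191 6 (.s
  k129 k189 5 (.d k192 k64 k66 7 8)))))))))

def t42_85_195 : T TT 256 :=
  (.f k2 k1 0 (.l (.s k86 k254 13 (.s k23 k43 5 (.s k169 k252 14 (.s k149 k212 8 (.s k128 k191 6 (.s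
  k129 k189 5 (.d k192 k64 k66 7 8)))))))))

def t42_85_196 : T TT 256 :=
  (.f k2 k1 0 (.l (.s k86 k254 13 (.s k23 k43 5 (.s k169 k252 14 (.s k149 k212 8 (.s k128 k191 6 (.s
  k129 k189 5 (.d k192 k64 k66 7 8)))))))))

def t42_85_197 : T TT 256 :=
  (.f k2 k1 0 (.l (.s k86 k254 13 (.s k23 k43 5 (.s k169 k252 14 (.s k149 k212 8 (.s k128 k191 6 (.s
  k129 k189 5 (.d k192 k64 k66 7 8)))))))))

def t42_85_198 : T TT 256 :=
  (.f k2 k1 0 (.l (.s k86 k254 13 (.s k23 k43 5 (.s k169 k252 14 (.s k149 k212 8 (.s k128 k191 6 (.s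
  k129 k189 5 (.d k192 k64 k66 7 8)))))))))

def t42_85_199 : T TT 256 :=
  (.f k2 k1 0 (.l (.s k86 k254 13 (.s k23 k43 5 (.s k169 k252 14 (.s k149 k212 8 (.s k128 k191 6 (.s
  k129 k189 5 (.d k192 k64 k66 7 8)))))))))

def t42_85_200 : T TT 256 :=
  (.f k2 k1 0 (.l (.s k86 k254 13 (.s k23 k43 5 (.s k169 k252 14 (.s k149 k212 8 (.s k128 k191 6 (.s
  k129 k189 5 (.d k192 k64 k66 7 8)))))))))

def t42_85_201 : T TT 256 :=
  (.f k2 k1 0 (.l (.s k86 k254 13 (.s k23 k43 5 (.s k169 k252 14 (.s k149 k212 8 (.s k128 k191 6 (.s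
  k129 k189 5 (.d k192 k64 k66 7 8)))))))))

def t42_85_202 : T TT 256 :=
  (.f k2 k1 0 (.l (.s k86 k254 13 (.s k23 k43 5 (.s k169 k252 14 (.s k149 k212 8 (.s k128 k191 6 (.s
  k129 k189 5 (.d k192 k64 k66 7 8)))))))))

def t42_85_203 : T TT 256 :=
  (.f k2 k1 0 (.l (.s k86 k254 13 (.s k23 k43 5 (.s k169 k252 14 (.s k149 k212 8 (.s k128 k191 6 (.s
  k129 k189 5 (.d k192 k64 k66 7 8)))))))))

def t42_85_204 : T TT 256 :=
  (.f k2 k1 0 (.l (.s k86 k254 13 (.s k23 k43 5 (.s k169 k252 14 (.s k149 k212 8 (.s k128 k191 6 (.s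
  k129 k189 5 (.d k192 k64 k66 7 8)))))))))

def t42_85_205 : T TT 256 :=
  (.f k2 k1 0 (.l (.s k86 k254 13 (.s k23 k43 5 (.s k169 k252 14 (.s k149 k212 8 (.s k128 k191 6 (.s
  k129 k189 5 (.d k192 k64 k66 7 8)))))))))

def t42_85_206 : T TT 256 :=
  (.f k2 k1 0 (.l (.s k86 k254 13 (.s k23 k43 5 (.s k169 k252 14 (.s k149 k212 8 (.s k128 k191 6 (.s
  k129 k189 5 (.d k192 k64 k66 7 8)))))))))

def t42_85_207 : T TT 256 :=
  (.f k2 k1 0 (.l (.s k86 k254 13 (.s k23 k43 5 (.s k169 k252 14 (.s k149 k212 8 (.s k128 k191 6 (.s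
  k129 k189 5 (.d k192 k64 k66 7 8)))))))))

def t42_85_208 : T TT 256 :=
  (.f k2 k1 0 (.l (.s k86 k254 13 (.s k23 k43 5 (.s k169 k252 14 (.s k149 k212 8 (.s k128 k191 6 (.s
  k129 k189 5 (.d k192 k64 k66 7 8)))))))))

def t42_85_209 : T TT 256 :=
  (.f k2 k1 0 (.l (.s k86 k254 13 (.s k23 k43 5 (.s k169 k252 14 (.s k149 k212 8 (.s k128 k191 6 (.s
  k129 k189 5 (.d k192 k64 k66 7 8)))))))))

def t42_85_210 : T TT 256 :=
  (.f k2 k1 0 (.l (.s k86 k254 13 (.s k23 k43 5 (.s k169 k252 14 (.s k149 k212 8 (.s k128 k191 6 (.s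
  k129 k189 5 (.d k192 k64 k66 7 8)))))))))

def t42_85_211 : T TT 256 :=
  (.f k2 k1 0 (.l (.s k86 k254 13 (.s k23 k43 5 (.s k169 k252 14 (.s k149 k212 8 (.s k128 k191 6 (.s
  k129 k189 5 (.d k192 k64 k66 7 8)))))))))

def t42_85_212 : T TT 256 :=
  (.q k127 [(.s k255 k191 7 (.s k87 k171 13 (.s k107 k67 5 (.s k151 k195 13 (.d k23 k43 k215 5
  7))))), (.s k2 k1 0 (.s k86 k254 13 (.s k169 k252 14 (.s k255 k191 7 (.d k171 k168 k87 0 13))))),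
  (.s k1 k2 0 (.s k191 k255 7 (.s k128 k149 6 (.s k192 k64 7 (.s k129 k66 8 (.s k65 k193 7 (.d k130
  k131 k195 0 8)))))))] (.c k191 (.l (.s k2 k1 0 (.s k86 k254 13 (.s k43 k23 5 (.s k169 k252 14 (.s
  k171 k168 0 (.s k107 k235 7 (.d k87 k255 k67 13 5)))))))) (.c k255 (.q k195 [(.s k67 k131 7 (.d
  k107 k87 k151 5 13)), (.s k2 k1 0 (.s k130 k65 8 (.s k86 k254 13 (.s k150 k190 5 (.s k22 k214 7
  (.d k60 k105 k41 14 6))))))] .n) .n)))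

def t42_85_213 : T TT 256 :=
  (.f k2 k1 0 (.l (.s k86 k254 13 (.s k23 k43 5 (.s k169 k252 14 (.s k149 k212 8 (.s k128 k191 6 (.s
  k129 k189 5 (.d k192 k64 k66 7 8)))))))))

def t42_85_214 : T TT 256 :=
  (.f k2 k1 0 (.l (.s k86 k254 13 (.s k23 k43 5 (.s k169 k252 14 (.s k149 k212 8 (.s k128 k191 6 (.s
  k129 k189 5 (.d k192 k64 k66 7 8)))))))))

def t42_85_215 : T TT 256 :=
  (.f k2 k1 0 (.l (.s k86 k254 13 (.s k23 k43 5 (.s k169 k252 14 (.s k149 k212 8 (.s k128 k191 6 (.s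
  k129 k189 5 (.d k192 k64 k66 7 8)))))))))

def t42_85_216 : T TT 256 :=
  (.f k2 k1 0 (.l (.s k86 k254 13 (.s k23 k43 5 (.s k169 k252 14 (.s k149 k212 8 (.s k128 k191 6 (.s
  k129 k189 5 (.d k192 k64 k66 7 8)))))))))

def t42_85_217 : T TT 256 :=
  (.f k2 k1 0 (.l (.s k86 k254 13 (.s k23 k43 5 (.s k169 k252 14 (.s k149 k212 8 (.s k128 k191 6 (.s
  k129 k189 5 (.d k192 k64 k66 7 8)))))))))

def t42_85_218 : T TT 256 :=
  (.f k2 k1 0 (.l (.s k86 k254 13 (.s k23 k43 5 (.s k169 k252 14 (.s k149 k212 8 (.s k128 k191 6 (.s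
  k129 k189 5 (.d k192 k64 k66 7 8)))))))))

def t42_85_219 : T TT 256 :=
  (.f k2 k1 0 (.l (.s k86 k254 13 (.s k23 k43 5 (.s k169 k252 14 (.s k149 k212 8 (.s k128 k191 6 (.s
  k129 k189 5 (.d k192 k64 k66 7 8)))))))))

def t42_85_220 : T TT 256 :=
  (.f k2 k1 0 (.l (.s k86 k254 13 (.s k23 k43 5 (.s k169 k252 14 (.s k149 k212 8 (.s k128 k191 6 (.s
  k129 k189 5 (.d k192 k64 k66 7 8)))))))))

def t42_85_221 : T TT 256 :=
  (.f k2 k1 0 (.l (.s k86 k254 13 (.s k23 k43 5 (.s k169 k252 14 (.s k149 k212 8 (.s k128 k191 6 (.s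
  k129 k189 5 (.d k192 k64 k66 7 8)))))))))

def t42_85_222 : T TT 256 :=
  (.f k2 k1 0 (.l (.s k86 k254 13 (.s k23 k43 5 (.s k169 k252 14 (.s k149 k212 8 (.s k128 k191 6 (.s
  k129 k189 5 (.d k192 k64 k66 7 8)))))))))

def t42_85_223 : T TT 256 :=
  (.f k2 k1 0 (.l (.s k86 k254 13 (.s k23 k43 5 (.s k169 k252 14 (.s k149 k212 8 (.s k128 k191 6 (.s
  k129 k189 5 (.d k192 k64 k66 7 8)))))))))

def t42_85_224 : T TT 256 :=
  (.f k2 k1 0 (.l (.s k86 k254 13 (.s k23 k43 5 (.s k169 k252 14 (.s k149 k212 8 (.s k128 k191 6 (.s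
  k129 k189 5 (.d k192 k64 k66 7 8)))))))))

def t42_85_225 : T TT 256 :=
  (.f k2 k1 0 (.l (.s k86 k254 13 (.s k23 k43 5 (.s k169 k252 14 (.s k149 k212 8 (.s k128 k191 6 (.s
  k129 k189 5 (.d k192 k64 k66 7 8)))))))))

def t42_85_226 : T TT 256 :=
  (.f k2 k1 0 (.l (.s k86 k254 13 (.s k23 k43 5 (.s k169 k252 14 (.s k149 k212 8 (.s k128 k191 6 (.s
  k129 k189 5 (.d k192 k64 k66 7 8)))))))))

def t42_85_227 : T TT 256 :=
  (.f k2 k1 0 (.l (.s k86 k254 13 (.s k23 k43 5 (.s k169 k252 14 (.s k149 k212 8 (.s k128 k191 6 (.s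
  k129 k189 5 (.d k192 k64 k66 7 8)))))))))

def t42_85_228 : T TT 256 :=
  (.f k2 k1 0 (.l (.s k86 k254 13 (.s k23 k43 5 (.s k169 k252 14 (.s k149 k212 8 (.s k128 k191 6 (.s
  k129 k189 5 (.d k192 k64 k66 7 8)))))))))

def t42_85_229 : T TT 256 :=
  (.f k2 k1 0 (.l (.s k86 k254 13 (.s k23 k43 5 (.s k169 k252 14 (.s k149 k212 8 (.s k128 k191 6 (.s
  k129 k189 5 (.d k192 k64 k66 7 8)))))))))

def t42_85_230 : T TT 256 :=
  (.f k2 k1 0 (.l (.s k86 k254 13 (.s k23 k43 5 (.s k169 k252 14 (.s k149 k212 8 (.s k128 k191 6 (.s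
  k129 k189 5 (.d k192 k64 k66 7 8)))))))))

def t42_85_231 : T TT 256 :=
  (.f k2 k1 0 (.l (.s k86 k254 13 (.s k23 k43 5 (.s k169 k252 14 (.s k149 k212 8 (.s k128 k191 6 (.s
  k129 k189 5 (.d k192 k64 k66 7 8)))))))))

def t42_85_232 : T TT 256 :=
  (.f k2 k1 0 (.q k169 [(.d k86 k254 k252 13 14), (.s k23 k43 5 (.s k171 k168 0 (.s k87 k255 13 (.s
  k151 k215 7 (.s k195 k107 13 (.d k131 k191 k67 5 7))))))] (.c k64 (.q k127 [(.d k86 k254 k252 13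
  14), (.s k255 k191 7 (.d k171 k168 k87 0 13))] .n) (.c k127 (.q k64 [(.d k86 k254 k252 13 14), (.s
  k192 k128 7 (.s k66 k129 8 (.s k130 k194 7 (.d k65 k67 k195 0 8))))] .n) .n))))

def t42_85_233 : T TT 256 :=
  (.q k127 [(.s k2 k1 0 (.s k86 k254 13 (.s k169 k252 14 (.s k255 k191 7 (.d k171 k168 k87 0
  13))))), (.s k23 k43 5 (.s k255 k191 7 (.s k87 k171 13 (.s k151 k215 7 (.d k107 k67 k195 5
  13))))), (.s k2 k1 0 (.s k86 k254 13 (.s k23 k43 5 (.s k149 k212 8 (.d k191 k128 k255 6 7)))))]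
  (.c k169 (.l (.s k255 k191 7 (.s k87 k171 13 (.s k107 k67 5 (.s k151 k195 13 (.d k23 k43 k215 5
  7)))))) (.c k191 (.l (.s k2 k1 0 (.s k86 k254 13 (.s k43 k23 5 (.s k169 k252 14 (.s k171 k168 0
  (.s k107 k235 7 (.d k87 k255 k67 13 5)))))))) (.c k255 (.q k169 [(.s k2 k1 0 (.d k86 k254 k252 13
  14)), (.s k43 k23 5 (.s k171 k168 0 (.s k107 k235 7 (.s k195 k151 13 (.d k67 k87 k131 5 7)))))]
  .n) .n))))

def t42_85_234 : T TT 256 :=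
  (.q k127 [(.s k255 k191 7 (.s k87 k171 13 (.s k107 k67 5 (.s k151 k195 13 (.d k23 k43 k215 5
  7))))), (.s k2 k1 0 (.s k86 k254 13 (.s k23 k43 5 (.s k149 k212 8 (.d k191 k128 k255 6 7))))), (.s
  k2 k1 0 (.s k86 k254 13 (.s k169 k252 14 (.s k255 k191 7 (.d k171 k168 k87 0 13)))))] (.c k191 (.l
  (.s k2 k1 0 (.s k86 k254 13 (.s k43 k23 5 (.s k169 k252 14 (.s k171 k168 0 (.s k107 k235 7 (.d k87
  k255 k67 13 5)))))))) (.c k255 (.q k192 [(.s k2 k1 0 (.s k64 k128 7 (.s k66 k129 8 (.s k65 k67 0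
  (.d k130 k194 k195 7 8))))), (.s k2 k1 0 (.s k86 k254 13 (.s k23 k43 5 (.s k212 k149 8 (.d k252
  k232 k169 5 14))))), (.s k128 k64 7 (.s k23 k43 5 (.s k129 k66 8 (.s k149 k191 6 (.s k86 k212 8
  (.d k169 k189 k252 5 14))))))] (.c k169 (.l (.s k1 k2 0 (.s k128 k64 7 (.s k129 k66 8 (.s k65 k193
  7 (.d k130 k131 k195 0 8)))))) .n)) .n)))

def t42_85_235 : T TT 256 :=
  (.f k2 k1 0 (.l (.s k86 k254 13 (.s k23 k43 5 (.s k169 k252 14 (.s k149 k212 8 (.s k128 k191 6 (.s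
  k129 k189 5 (.d k192 k64 k66 7 8)))))))))

def t42_85_236 : T TT 256 :=
  (.f k2 k1 0 (.l (.s k86 k254 13 (.s k23 k43 5 (.s k169 k252 14 (.s k149 k212 8 (.s k128 k191 6 (.s
  k129 k189 5 (.d k192 k64 k66 7 8)))))))))

def t42_85_237 : T TT 256 :=
  (.f k2 k1 0 (.l (.s k86 k254 13 (.s k23 k43 5 (.s k169 k252 14 (.s k149 k212 8 (.s k128 k191 6 (.s
  k129 k189 5 (.d k192 k64 k66 7 8)))))))))

def t42_85_238 : T TT 256 :=
  (.f k2 k1 0 (.l (.s k86 k254 13 (.s k23 k43 5 (.s k169 k252 14 (.s k149 k212 8 (.s k128 k191 6 (.s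
  k129 k189 5 (.d k192 k64 k66 7 8)))))))))

def t42_85_239 : T TT 256 :=
  (.f k2 k1 0 (.l (.s k86 k254 13 (.s k23 k43 5 (.s k169 k252 14 (.s k149 k212 8 (.s k128 k191 6 (.s
  k129 k189 5 (.d k192 k64 k66 7 8)))))))))

def t42_85_240 : T TT 256 :=
  (.f k2 k1 0 (.l (.s k86 k254 13 (.s k23 k43 5 (.s k169 k252 14 (.s k149 k212 8 (.s k128 k191 6 (.s
  k129 k189 5 (.d k192 k64 k66 7 8)))))))))

def t42_85_241 : T TT 256 :=
  (.f k2 k1 0 (.l (.s k86 k254 13 (.s k23 k43 5 (.s k169 k252 14 (.s k149 k212 8 (.s k128 k191 6 (.s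
  k129 k189 5 (.d k192 k64 k66 7 8)))))))))

def t42_85_242 : T TT 256 :=
  (.f k2 k1 0 (.l (.s k86 k254 13 (.s k23 k43 5 (.s k169 k252 14 (.s k149 k212 8 (.s k128 k191 6 (.s
  k129 k189 5 (.d k192 k64 k66 7 8)))))))))

def t42_85_243 : T TT 256 :=
  (.f k2 k1 0 (.l (.s k86 k254 13 (.s k23 k43 5 (.s k169 k252 14 (.s k149 k212 8 (.s k128 k191 6 (.s
  k129 k189 5 (.d k192 k64 k66 7 8)))))))))

def t42_85_244 : T TT 256 :=
  (.f k2 k1 0 (.l (.s k86 k254 13 (.s k23 k43 5 (.s k169 k252 14 (.s k149 k212 8 (.s k128 k191 6 (.s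
  k129 k189 5 (.d k192 k64 k66 7 8)))))))))

def t42_85_245 : T TT 256 :=
  (.f k2 k1 0 (.l (.s k86 k254 13 (.s k23 k43 5 (.s k169 k252 14 (.s k149 k212 8 (.s k128 k191 6 (.s
  k129 k189 5 (.d k192 k64 k66 7 8)))))))))

def t42_85_246 : T TT 256 :=
  (.f k2 k1 0 (.l (.s k86 k254 13 (.s k23 k43 5 (.s k169 k252 14 (.s k149 k212 8 (.s k128 k191 6 (.s
  k129 k189 5 (.d k192 k64 k66 7 8)))))))))

def t42_85_247 : T TT 256 :=
  (.f k2 k1 0 (.l (.s k86 k254 13 (.s k23 k43 5 (.s k169 k252 14 (.s k149 k212 8 (.s k128 k191 6 (.s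
  k129 k189 5 (.d k192 k64 k66 7 8)))))))))

def t42_85_248 : T TT 256 :=
  (.f k2 k1 0 (.l (.s k86 k254 13 (.s k23 k43 5 (.s k169 k252 14 (.s k149 k212 8 (.s k128 k191 6 (.s
  k129 k189 5 (.d k192 k64 k66 7 8)))))))))

def t42_85_249 : T TT 256 :=
  (.f k2 k1 0 (.l (.s k86 k254 13 (.s k23 k43 5 (.s k169 k252 14 (.s k149 k212 8 (.s k128 k191 6 (.s
  k129 k189 5 (.d k192 k64 k66 7 8)))))))))

def t42_85_250 : T TT 256 :=
  (.f k2 k1 0 (.l (.s k86 k254 13 (.s k23 k43 5 (.s k169 k252 14 (.s k149 k212 8 (.s k128 k191 6 (.s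
  k129 k189 5 (.d k192 k64 k66 7 8)))))))))

def t42_85_251 : T TT 256 :=
  (.f k2 k1 0 (.l (.s k86 k254 13 (.s k23 k43 5 (.s k169 k252 14 (.s k149 k212 8 (.s k128 k191 6 (.s
  k129 k189 5 (.d k192 k64 k66 7 8)))))))))

def t42_85_252 : T TT 256 :=
  (.q k64 [(.s k192 k128 7 (.s k66 k129 8 (.s k65 k67 0 (.s k130 k195 8 (.d k2 k1 k194 0 7))))), (.s
  k2 k1 0 (.s k128 k192 7 (.s k86 k254 13 (.s k23 k43 5 (.d k149 k212 k191 8 6))))), (.s k128 k192 7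
  (.s k43 k23 5 (.s k191 k149 6 (.s k255 k127 7 (.s k171 k87 13 (.s k107 k235 7 (.d k151 k131 k195 5
  13)))))))] (.c k128 (.q k195 [(.s k65 k130 8 (.d k67 k131 k66 7 0)), (.s k23 k43 5 (.s k131 k67 7
  (.s k151 k107 13 (.s k87 k215 7 (.d k171 k191 k255 5 13))))), (.s k2 k1 0 (.s k130 k65 8 (.s k86
  k254 13 (.s k150 k190 5 (.s k22 k214 7 (.d k60 k105 k41 14 6))))))] .n) (.c k192 (.q k195 [(.s k65
  k130 8 (.d k67 k66 k131 0 7)), (.s k23 k43 5 (.s k131 k67 7 (.s k151 k107 13 (.s k87 k215 7 (.d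
  k171 k191 k255 5 13))))), (.s k2 k1 0 (.s k130 k65 8 (.s k86 k254 13 (.s k150 k190 5 (.s k22 k214
  7 (.d k60 k105 k41 14 6))))))] (.c k212 (.q k232 [(.s k65 k130 8 (.d k67 k66 k131 0 7)), (.s k23
  k43 5 (.s k131 k67 7 (.s k151 k107 13 (.s k87 k215 7 (.d k171 k191 k255 5 13))))), (.s k2 k1 0 (.s
  k130 k65 8 (.s k86 k254 13 (.s k150 k190 5 (.s k22 k214 7 (.d k60 k105 k41 14 6))))))] .n) (.c
  k232 (.q k212 [(.s k65 k130 8 (.d k67 k66 k131 0 7)), (.s k2 k1 0 (.s k86 k254 13 (.d k23 k43 k149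
  5 8)))] (.c k43 (.q k169 [(.s k65 k130 8 (.d k67 k66 k131 0 7)), (.s k151 k107 13 (.s k171 k168 0
  (.s k191 k131 5 (.d k255 k127 k87 7 13))))] (.c k40 (.q k41 [(.s k65 k130 8 (.d k67 k66 k131 0
  7)), (.s k60 k22 6 (.d k105 k233 k150 7 14))] (.c k104 (.l (.s k168 k171 0 (.s k65 k130 8 (.d k67
  k66 k131 0 7)))) (.c k168 (.q k104 [(.s k65 k130 8 (.d k67 k66 k131 0 7)), (.s k60 k22 6 (.d k105
  k233 k150 7 14))] .n) .n))) (.c k41 (.q k40 [(.s k65 k130 8 (.d k67 k66 k131 0 7)), (.s k60 k20 5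
  (.d k105 k150 k235 14 8))] .n) (.c k131 (.l (.s k65 k130 8 (.s k107 k151 13 (.s k67 k66 0 (.s k87
  k127 5 (.d k171 k168 k255 0 13)))))) .n)))) (.c k169 (.l (.s k43 k23 5 (.s k65 k130 8 (.d k67 k66
  k131 0 7)))) .n))) .n))) .n)))

def t42_85_253 : T TT 256 :=
  (.q k169 [(.s k2 k1 0 (.d k86 k254 k252 13 14)), (.s k43 k23 5 (.s k171 k168 0 (.s k255 k87 13 (.s
  k107 k235 7 (.s k151 k195 13 (.d k191 k127 k131 7 5))))))] (.c k64 (.q k127 [(.s k2 k1 0 (.d k86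
  k254 k252 13 14)), (.s k255 k191 7 (.d k171 k168 k87 0 13))] .n) (.c k86 (.l (.s k23 k43 5 (.s
  k171 k168 0 (.s k87 k255 13 (.s k151 k215 7 (.s k195 k107 13 (.d k131 k191 k67 5 7))))))) (.c k127
  (.q k64 [(.s k2 k1 0 (.d k86 k254 k252 13 14)), (.s k252 k86 14 (.d k168 k84 k171 13 0)), (.s k2
  k1 0 (.s k192 k128 7 (.s k66 k129 8 (.s k130 k194 7 (.d k65 k67 k195 0 8)))))] .n) .n))))

def t42_85_254 : T TT 256 :=
  (.q k169 [(.s k168 k171 0 (.d k252 k84 k86 13 14)), (.s k23 k43 5 (.s k86 k252 14 (.s k149 k212 8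
  (.s k128 k191 6 (.s k129 k189 5 (.d k192 k64 k66 7 8))))))] (.c k64 (.q k127 [(.s k255 k191 7 (.d
  k171 k168 k87 0 13)), (.s k168 k171 0 (.d k252 k84 k86 13 14)), (.s k23 k43 5 (.s k86 k252 14 (.s
  k149 k212 8 (.d k191 k255 k128 7 6))))] .n) (.c k86 (.l (.s k23 k43 5 (.s k171 k168 0 (.s k87 k255
  13 (.s k151 k215 7 (.s k195 k107 13 (.d k131 k191 k67 5 7))))))) (.c k127 (.q k64 [(.s k168 k171 0
  (.d k252 k84 k86 13 14)), (.s k2 k1 0 (.s k192 k128 7 (.s k66 k129 8 (.s k130 k194 7 (.d k65 k67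
  k195 0 8)))))] .n) (.c k252 (.l (.s k43 k23 5 (.s k171 k168 0 (.s k255 k87 13 (.s k107 k235 7 (.s
  k151 k195 13 (.d k191 k131 k127 5 7))))))) .n)))))

def t42_85_255 : T TT 256 :=
  (.q k169 [(.s k2 k1 0 (.d k86 k254 k252 13 14)), (.s k43 k23 5 (.s k171 k168 0 (.s k107 k235 7 (.s
  k195 k151 13 (.s k130 k65 8 (.s k131 k67 7 (.d k150 k190 k188 5 6)))))))] (.c k64 (.q k127 [(.s k2
  k1 0 (.d k86 k254 k252 13 14)), (.s k43 k23 5 (.s k171 k168 0 (.s k107 k235 7 (.s k195 k151 13 (.d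
  k67 k87 k131 5 7)))))] .n) (.c k127 (.q k64 [(.s k2 k1 0 (.d k86 k254 k252 13 14)), (.s k252 k86
  14 (.d k168 k84 k171 13 0)), (.s k2 k1 0 (.s k192 k128 7 (.s k66 k129 8 (.s k130 k194 7 (.d k65
  k67 k195 0 8)))))] .n) .n)))

def t42_85 : T TT 256 :=
  (.q k3 [] (.c k1 t42_85_1 (.c k2 t42_85_2 (.c k4 t42_85_4 (.c k5 t42_85_5 (.c k6 t42_85_6 (.c k7
  t42_85_7 (.c k8 t42_85_8 (.c k9 t42_85_9 (.c k10 t42_85_10 (.c k11 t42_85_11 (.c k12 t42_85_12 (.c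
  k13 t42_85_13 (.c k14 t42_85_14 (.c k15 t42_85_15 (.c k16 t42_85_16 (.c k17 t42_85_17 (.c k18
  t42_85_18 (.c k19 t42_85_19 (.c k20 t42_85_20 (.c k21 t42_85_21 (.c k22 t42_85_22 (.c k23
  t42_85_23 (.c k24 t42_85_24 (.c k25 t42_85_25 (.c k26 t42_85_26 (.c k27 t42_85_27 (.c k28
  t42_85_28 (.c k29 t42_85_29 (.c k30 t42_85_30 (.c k31 t42_85_31 (.c k32 t42_85_32 (.c k33
  t42_85_33 (.c k34 t42_85_34 (.c k35 t42_85_35 (.c k36 t42_85_36 (.c k37 t42_85_37 (.c k38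
  t42_85_38 (.c k39 t42_85_39 (.c k40 t42_85_40 (.c k41 t42_85_41 (.c k43 t42_85_43 (.c k44
  t42_85_44 (.c k45 t42_85_45 (.c k46 t42_85_46 (.c k47 t42_85_47 (.c k48 t42_85_48 (.c k49
  t42_85_49 (.c k50 t42_85_50 (.c k51 t42_85_51 (.c k52 t42_85_52 (.c k53 t42_85_53 (.c k54
  t42_85_54 (.c k55 t42_85_55 (.c k56 t42_85_56 (.c k57 t42_85_57 (.c k58 t42_85_58 (.c k59
  t42_85_59 (.c k60 t42_85_60 (.c k61 t42_85_61 (.c k62 t42_85_62 (.c k64 t42_85_64 (.c k65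
  t42_85_65 (.c k66 t42_85_66 (.c k67 t42_85_67 (.c k68 t42_85_68 (.c k69 t42_85_69 (.c k70
  t42_85_70 (.c k71 t42_85_71 (.c k72 t42_85_72 (.c k73 t42_85_73 (.c k74 t42_85_74 (.c k75
  t42_85_75 (.c k76 t42_85_76 (.c k77 t42_85_77 (.c k78 t42_85_78 (.c k79 t42_85_79 (.c k80
  t42_85_80 (.c k81 t42_85_81 (.c k82 t42_85_82 (.c k83 t42_85_83 (.c k84 t42_85_84 (.c k86
  t42_85_86 (.c k87 t42_85_87 (.c k88 t42_85_88 (.c k89 t42_85_89 (.c k90 t42_85_90 (.c k91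
  t42_85_91 (.c k92 t42_85_92 (.c k93 t42_85_93 (.c k94 t42_85_94 (.c k95 t42_85_95 (.c k96
  t42_85_96 (.c k97 t42_85_97 (.c k98 t42_85_98 (.c k99 t42_85_99 (.c k100 t42_85_100 (.c k101
  t42_85_101 (.c k102 t42_85_102 (.c k103 t42_85_103 (.c k104 t42_85_104 (.c k105 t42_85_105 (.c
  k107 t42_85_107 (.c k108 t42_85_108 (.c k109 t42_85_109 (.c k110 t42_85_110 (.c k111 t42_85_111
  (.c k112 t42_85_112 (.c k113 t42_85_113 (.c k114 t42_85_114 (.c k115 t42_85_115 (.c k116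
  t42_85_116 (.c k117 t42_85_117 (.c k118 t42_85_118 (.c k119 t42_85_119 (.c k120 t42_85_120 (.c
  k121 t42_85_121 (.c k122 t42_85_122 (.c k123 t42_85_123 (.c k124 t42_85_124 (.c k125 t42_85_125
  (.c k126 t42_85_126 (.c k127 t42_85_127 (.c k128 t42_85_128 (.c k129 t42_85_129 (.c k130
  t42_85_130 (.c k131 t42_85_131 (.c k132 t42_85_132 (.c k133 t42_85_133 (.c k134 t42_85_134 (.c
  k135 t42_85_135 (.c k136 t42_85_136 (.c k137 t42_85_137 (.c k138 t42_85_138 (.c k139 t42_85_139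
  (.c k140 t42_85_140 (.c k141 t42_85_141 (.c k142 t42_85_142 (.c k143 t42_85_143 (.c k144
  t42_85_144 (.c k145 t42_85_145 (.c k146 t42_85_146 (.c k147 t42_85_147 (.c k148 t42_85_148 (.c
  k149 t42_85_149 (.c k150 t42_85_150 (.c k151 t42_85_151 (.c k152 t42_85_152 (.c k153 t42_85_153
  (.c k154 t42_85_154 (.c k155 t42_85_155 (.c k156 t42_85_156 (.c k157 t42_85_157 (.c k158
  t42_85_158 (.c k159 t42_85_159 (.c k160 t42_85_160 (.c k161 t42_85_161 (.c k162 t42_85_162 (.c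
  k163 t42_85_163 (.c k164 t42_85_164 (.c k165 t42_85_165 (.c k166 t42_85_166 (.c k167 t42_85_167
  (.c k168 t42_85_168 (.c k169 t42_85_169 (.c k171 t42_85_171 (.c k172 t42_85_172 (.c k173
  t42_85_173 (.c k174 t42_85_174 (.c k175 t42_85_175 (.c k176 t42_85_176 (.c k177 t42_85_177 (.c
  k178 t42_85_178 (.c k179 t42_85_179 (.c k180 t42_85_180 (.c k181 t42_85_181 (.c k182 t42_85_182
  (.c k183 t42_85_183 (.c k184 t42_85_184 (.c k185 t42_85_185 (.c k186 t42_85_186 (.c k187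
  t42_85_187 (.c k188 t42_85_188 (.c k189 t42_85_189 (.c k190 t42_85_190 (.c k191 t42_85_191 (.c
  k192 t42_85_192 (.c k193 t42_85_193 (.c k194 t42_85_194 (.c k195 t42_85_195 (.c k196 t42_85_196
  (.c k197 t42_85_197 (.c k198 t42_85_198 (.c k199 t42_85_199 (.c k200 t42_85_200 (.c k201
  t42_85_201 (.c k202 t42_85_202 (.c k203 t42_85_203 (.c k204 t42_85_204 (.c k205 t42_85_205 (.c
  k206 t42_85_206 (.c k207 t42_85_207 (.c k208 t42_85_208 (.c k209 t42_85_209 (.c k210 t42_85_210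
  (.c k211 t42_85_211 (.c k212 t42_85_212 (.c k213 t42_85_213 (.c k214 t42_85_214 (.c k215
  t42_85_215 (.c k216 t42_85_216 (.c k217 t42_85_217 (.c k218 t42_85_218 (.c k219 t42_85_219 (.c
  k220 t42_85_220 (.c k221 t42_85_221 (.c k222 t42_85_222 (.c k223 t42_85_223 (.c k224 t42_85_224
  (.c k225 t42_85_225 (.c k226 t42_85_226 (.c k227 t42_85_227 (.c k228 t42_85_228 (.c k229
  t42_85_229 (.c k230 t42_85_230 (.c k231 t42_85_231 (.c k232 t42_85_232 (.c k233 t42_85_233 (.c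
  k234 t42_85_234 (.c k235 t42_85_235 (.c k236 t42_85_236 (.c k237 t42_85_237 (.c k238 t42_85_238
  (.c k239 t42_85_239 (.c k240 t42_85_240 (.c k241 t42_85_241 (.c k242 t42_85_242 (.c k243
  t42_85_243 (.c k244 t42_85_244 (.c k245 t42_85_245 (.c k246 t42_85_246 (.c k247 t42_85_247 (.c
  k248 t42_85_248 (.c k249 t42_85_249 (.c k250 t42_85_250 (.c k251 t42_85_251 (.c k252 t42_85_252
  (.c k253 t42_85_253 (.c k254 t42_85_254 (.c k255 t42_85_255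
  .n))))))))))))))))))))))))))))))))))))))))))))))))))))))))))))))))))))))))))))))))
  ))))))))))))))))))))))))))))))))))))))))))))))))))))))))))))))))))))))))))))))))
  )))))))))))))))))))))))))))))))))))))))))))))))))))))))))))))))))))))))))))))))) ))))))))))

def t42_86 : T TT 256 :=
  (.q k12 [(.s k4 k8 1 (.s k85 k255 14 (.s k166 k247 12 (.s k162 k174 1 (.d k243 k81 k89 12 14))))),
  (.s k255 k85 14 (.s k29 k46 4 (.s k93 k174 12 (.s k157 k221 7 (.s k110 k204 12 (.d k127 k76 k191 4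
  7))))))] (.c k66 (.q k126 [(.s k4 k8 1 (.s k85 k255 14 (.s k166 k247 12 (.s k162 k174 1 (.d k243
  k81 k89 12 14))))), (.s k255 k85 14 (.s k29 k46 4 (.s k93 k174 12 (.s k157 k221 7 (.s k110 k204 12
  (.d k127 k76 k191 4 7)))))), (.s k4 k8 1 (.s k252 k189 8 (.s k84 k168 13 (.s k164 k244 11 (.s k88
  k240 13 (.d k92 k80 k172 1 11))))))] .n) (.c k85 (.f k8 k4 1 (.l (.s k89 k251 12 (.s k29 k46 4 (.s
  k166 k243 14 (.s k149 k209 9 (.s k128 k191 6 (.s k132 k183 4 (.d k192 k64 k72 7 9))))))))) (.c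
  k126 (.q k66 [(.s k4 k8 1 (.s k85 k255 14 (.s k166 k247 12 (.s k162 k174 1 (.d k243 k81 k89 12
  14))))), (.s k255 k85 14 (.s k29 k46 4 (.s k93 k174 12 (.s k157 k221 7 (.s k110 k204 12 (.d k127
  k76 k191 4 7))))))] (.c k85 (.f k8 k4 1 (.l (.s k89 k251 12 (.s k29 k46 4 (.s k166 k243 14 (.s
  k149 k209 9 (.s k128 k191 6 (.s k132 k183 4 (.d k192 k64 k72 7 9))))))))) (.c k166 (.l (.s k255
  k85 14 (.s k46 k29 4 (.s k174 k93 12 (.s k110 k238 7 (.s k157 k204 12 (.d k191 k127 k140 7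
  4))))))) (.c k174 (.l (.s k8 k4 1 (.s k85 k255 14 (.s k89 k251 12 (.s k243 k166 14 (.d k81 k93
  k162 1 12)))))) (.c k255 (.f k8 k4 1 (.l (.s k89 k251 12 (.s k29 k46 4 (.s k149 k209 9 (.s k128
  k191 6 (.s k192 k64 7 (.s k132 k72 9 (.d k166 k243 k183 14 4))))))))) .n))))) (.c k166 (.l (.s
  k255 k85 14 (.s k46 k29 4 (.s k174 k93 12 (.s k110 k238 7 (.s k157 k204 12 (.d k191 k127 k140 7
  4))))))) (.c k174 (.l (.s k8 k4 1 (.s k85 k255 14 (.s k89 k251 12 (.s k243 k166 14 (.d k81 k93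
  k162 1 12)))))) (.c k255 (.f k8 k4 1 (.l (.s k89 k251 12 (.s k29 k46 4 (.s k149 k209 9 (.s k128
  k191 6 (.s k192 k64 7 (.s k132 k72 9 (.d k166 k243 k183 14 4))))))))) .n)))))))

def t42_87 : T TT 256 :=
  (.q k12 [(.s k8 k4 1 (.s k255 k85 14 (.s k89 k251 12 (.s k166 k243 14 (.d k174 k162 k93 1 12))))),
  (.s k255 k85 14 (.s k29 k46 4 (.s k93 k174 12 (.s k157 k221 7 (.s k110 k204 12 (.d k127 k76 k191 4
  7)))))), (.s k4 k8 1 (.s k85 k255 14 (.s k166 k247 12 (.s k243 k89 14 (.d k162 k174 k81 1 12)))))]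
  (.c k85 (.f k8 k4 1 (.l (.s k89 k251 12 (.s k29 k46 4 (.s k166 k243 14 (.s k149 k209 9 (.s k128
  k191 6 (.s k132 k183 4 (.d k192 k64 k72 7 9))))))))) (.c k166 (.l (.s k255 k85 14 (.s k46 k29 4
  (.s k174 k93 12 (.s k110 k238 7 (.s k157 k204 12 (.d k191 k127 k140 7 4))))))) (.c k174 (.l (.s k8
  k4 1 (.s k85 k255 14 (.s k89 k251 12 (.s k243 k166 14 (.d k81 k93 k162 1 12)))))) (.c k255 (.f k8
  k4 1 (.l (.s k89 k251 12 (.s k29 k46 4 (.s k149 k209 9 (.s k128 k191 6 (.s k192 k64 7 (.s k132 k72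
  9 (.d k166 k243 k183 14 4))))))))) .n)))))

def t42_88 : T TT 256 :=
  (.f k255 k85 14 (.q k12 [(.s k8 k4 1 (.s k89 k251 12 (.s k166 k243 14 (.d k174 k162 k93 1 12)))),
  (.s k29 k46 4 (.s k93 k174 12 (.s k157 k221 7 (.s k110 k204 12 (.d k127 k76 k191 4 7))))), (.s k8
  k4 1 (.s k89 k251 12 (.s k29 k46 4 (.s k149 k209 9 (.d k191 k127 k128 7 6)))))] (.c k64 (.l (.s
  k127 k191 7 (.s k8 k4 1 (.s k89 k251 12 (.s k166 k243 14 (.d k174 k162 k93 1 12)))))) (.c k127 (.q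
  k64 [(.s k8 k4 1 (.s k89 k251 12 (.s k166 k243 14 (.d k174 k162 k93 1 12)))), (.s k192 k128 7 (.s
  k72 k132 9 (.s k68 k76 1 (.s k136 k204 9 (.d k8 k4 k200 1 7))))), (.s k128 k192 7 (.s k29 k46 4
  (.s k174 k93 12 (.s k149 k191 6 (.s k89 k209 9 (.d k166 k243 k162 14 1))))))] (.c k93 (.l (.s k8
  k4 1 (.s k128 k192 7 (.s k89 k251 12 (.s k29 k46 4 (.d k149 k191 k209 6 9)))))) .n)) (.c k166 (.l
  (.s k46 k29 4 (.s k174 k93 12 (.s k110 k238 7 (.s k157 k204 12 (.d k191 k140 k127 4 7))))))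
  .n)))))

def t42_89 : T TT 256 :=
  (.f k255 k85 14 (.f k127 k191 7 (.q k111 [(.s k159 k207 11 (.s k95 k79 3 (.s k15 k175 11 (.d k31
  k47 k223 3 7)))), (.s k207 k159 11 (.s k138 k69 10 (.s k154 k186 3 (.s k101 k48 14 (.d k239 k223
  k32 3 10)))))] (.c k72 (.q k123 [(.s k159 k207 11 (.s k95 k79 3 (.s k15 k175 11 (.d k31 k47 k223 3
  7)))), (.s k183 k243 9 (.s k119 k115 1 (.s k51 k187 9 (.d k55 k59 k247 1 7))))] (.c k81 (.q k93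
  [(.s k159 k207 11 (.s k95 k79 3 (.s k15 k175 11 (.d k31 k47 k223 3 7)))), (.s k12 k174 12 (.s k29
  k46 4 (.s k157 k221 7 (.d k110 k76 k204 4 12))))] .n) (.c k93 (.q k81 [(.d k243 k183 k162 9 12),
  (.s k159 k207 11 (.s k95 k79 3 (.s k15 k175 11 (.d k31 k47 k223 3 7))))] .n) .n))) (.c k81 (.q k93
  [(.s k159 k207 11 (.s k95 k79 3 (.s k15 k175 11 (.d k31 k47 k223 3 7)))), (.s k12 k174 12 (.s k29
  k46 4 (.s k157 k221 7 (.d k110 k76 k204 4 12))))] (.c k72 (.q k123 [(.s k159 k207 11 (.s k95 k79 3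
  (.s k15 k175 11 (.d k31 k47 k223 3 7)))), (.s k12 k174 12 (.s k29 k46 4 (.s k157 k221 7 (.d k110
  k76 k204 4 12))))] .n) (.c k123 (.q k72 [(.s k159 k207 11 (.s k95 k79 3 (.s k15 k175 11 (.d k31
  k47 k223 3 7)))), (.s k12 k174 12 (.s k29 k46 4 (.s k157 k221 7 (.d k110 k76 k204 4 12))))] .n)
  .n))) (.c k93 (.q k81 [(.s k159 k207 11 (.s k95 k79 3 (.s k15 k175 11 (.d k31 k47 k223 3 7)))),
  (.s k243 k162 12 (.s k123 k183 9 (.s k119 k115 1 (.s k187 k51 9 (.d k251 k247 k59 1 7)))))] (.c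
  k72 (.q k123 [(.d k243 k183 k162 9 12), (.s k159 k207 11 (.s k95 k79 3 (.s k15 k175 11 (.d k31 k47
  k223 3 7))))] .n) (.c k123 (.q k72 [(.s k159 k207 11 (.s k95 k79 3 (.s k15 k175 11 (.d k31 k47
  k223 3 7)))), (.s k207 k159 11 (.s k138 k69 10 (.s k154 k186 3 (.s k101 k48 14 (.d k239 k223 k32 3
  10))))), (.s k243 k162 12 (.s k95 k79 3 (.s k15 k175 11 (.s k91 k167 13 (.s k87 k83 1 (.s k171 k3
  13 (.d k251 k247 k11 1 11)))))))] (.c k143 (.l (.s k159 k207 11 (.s k95 k79 3 (.s k15 k175 11 (.d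
  k31 k47 k223 3 7))))) (.c k159 (.l (.s k95 k79 3 (.s k175 k15 11 (.s k239 k47 7 (.s k207 k223 3
  (.s k138 k69 10 (.s k154 k186 3 (.d k101 k32 k48 10 14)))))))) (.c k175 (.l (.s k79 k95 3 (.s k207
  k159 11 (.s k143 k15 7 (.s k138 k69 10 (.s k154 k186 3 (.s k101 k48 14 (.d k239 k223 k32 3
  10)))))))) .n)))) .n))) (.c k123 (.q k72 [(.s k159 k207 11 (.s k95 k79 3 (.s k15 k175 11 (.d k31
  k47 k223 3 7)))), (.s k207 k159 11 (.s k138 k69 10 (.s k154 k186 3 (.s k101 k48 14 (.d k239 k223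
  k32 3 10)))))] (.c k81 (.q k93 [(.s k159 k207 11 (.s k95 k79 3 (.s k15 k175 11 (.d k31 k47 k223 3
  7)))), (.s k12 k174 12 (.s k29 k46 4 (.s k157 k221 7 (.d k110 k76 k204 4 12))))] .n) (.c k93 (.q
  k81 [(.s k159 k207 11 (.s k95 k79 3 (.s k15 k175 11 (.d k31 k47 k223 3 7)))), (.s k207 k159 11 (.s
  k138 k69 10 (.s k154 k186 3 (.s k101 k48 14 (.d k239 k223 k32 3 10))))), (.s k243 k162 12 (.s k95
  k79 3 (.s k15 k175 11 (.s k91 k167 13 (.s k87 k83 1 (.s k171 k3 13 (.d k251 k247 k11 1 11)))))))]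
  (.c k143 (.l (.s k159 k207 11 (.s k95 k79 3 (.s k15 k175 11 (.d k31 k47 k223 3 7))))) (.c k159 (.l
  (.s k95 k79 3 (.s k175 k15 11 (.s k239 k47 7 (.s k207 k223 3 (.s k138 k69 10 (.s k154 k186 3 (.d
  k101 k32 k48 10 14)))))))) (.c k175 (.l (.s k79 k95 3 (.s k207 k159 11 (.s k143 k15 7 (.s k138 k69
  10 (.s k154 k186 3 (.s k101 k48 14 (.d k239 k223 k32 3 10)))))))) .n)))) (.c k143 (.l (.s k159
  k207 11 (.s k95 k79 3 (.s k15 k175 11 (.d k31 k47 k223 3 7))))) (.c k159 (.l (.s k95 k79 3 (.s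
  k175 k15 11 (.s k239 k47 7 (.s k207 k223 3 (.s k138 k69 10 (.s k154 k186 3 (.d k101 k32 k48 10
  14)))))))) (.c k175 (.l (.s k79 k95 3 (.s k207 k159 11 (.s k143 k15 7 (.s k138 k69 10 (.s k154
  k186 3 (.s k101 k48 14 (.d k239 k223 k32 3 10)))))))) (.c k207 (.q k93 [(.s k12 k174 12 (.s k192
  k132 9 (.s k64 k128 7 (.d k76 k68 k110 1 4)))), (.s k110 k76 4 (.s k79 k95 3 (.s k109 k108 0 (.s
  k124 k94 4 (.d k125 k126 k77 0 3)))))] (.c k76 (.l (.s k12 k174 12 (.s k8 k4 1 (.s k136 k200 7 (.s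
  k204 k68 9 (.s k29 k46 4 (.d k157 k110 k221 12 7))))))) (.c k110 (.l (.s k12 k174 12 (.s k4 k8 1
  (.s k132 k192 9 (.s k68 k196 7 (.s k204 k136 9 (.d k76 k140 k64 7 1))))))) .n))) (.c k223 (.l (.s
  k207 k159 11 (.s k138 k69 10 (.s k95 k79 3 (.s k175 k15 11 (.s k239 k47 7 (.s k154 k186 3 (.d k101
  k32 k48 10 14)))))))) .n)))))))) (.c k143 (.l (.s k159 k207 11 (.s k95 k79 3 (.s k15 k175 11 (.d
  k31 k47 k223 3 7))))) (.c k159 (.l (.s k95 k79 3 (.s k175 k15 11 (.s k239 k47 7 (.s k207 k223 3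
  (.s k138 k69 10 (.s k154 k186 3 (.d k101 k32 k48 10 14)))))))) (.c k175 (.l (.s k79 k95 3 (.s k207
  k159 11 (.s k143 k15 7 (.s k138 k69 10 (.s k154 k186 3 (.s k101 k48 14 (.d k239 k223 k32 3
  10)))))))) (.c k207 (.q k93 [(.s k12 k174 12 (.s k110 k76 4 (.s k157 k204 12 (.d k29 k46 k221 4
  7)))), (.s k110 k76 4 (.s k79 k95 3 (.s k109 k108 0 (.s k124 k94 4 (.d k125 k126 k77 0 3))))), (.s
  k12 k174 12 (.s k95 k79 3 (.s k15 k175 11 (.s k13 k14 0 (.s k173 k253 11 (.d k94 k92 k252 0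
  12))))))] (.c k72 (.q k123 [(.s k243 k183 9 (.s k162 k81 12 (.d k174 k166 k12 1 12))), (.s k12
  k174 12 (.s k110 k76 4 (.s k157 k204 12 (.d k29 k46 k221 4 7)))), (.s k243 k183 9 (.s k119 k115 1
  (.s k187 k51 9 (.d k251 k247 k59 1 7))))] .n) (.c k123 (.q k72 [(.s k12 k174 12 (.s k192 k132 9
  (.s k64 k128 7 (.d k76 k68 k110 1 4)))), (.s k110 k76 4 (.s k79 k95 3 (.s k109 k108 0 (.s k124 k94
  4 (.d k125 k126 k77 0 3)))))] (.c k76 (.l (.s k12 k174 12 (.s k8 k4 1 (.s k136 k200 7 (.s k204 k68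
  9 (.s k29 k46 4 (.d k157 k110 k221 12 7))))))) (.c k110 (.l (.s k12 k174 12 (.s k4 k8 1 (.s k132
  k192 9 (.s k68 k196 7 (.s k204 k136 9 (.d k76 k140 k64 7 1))))))) .n))) .n))) (.c k223 (.l (.s
  k207 k159 11 (.s k138 k69 10 (.s k95 k79 3 (.s k175 k15 11 (.s k239 k47 7 (.s k154 k186 3 (.d k101
  k32 k48 10 14)))))))) .n))))))))))))

def t42_90 : T TT 256 :=
  (.q k12 [(.s k4 k8 1 (.s k85 k255 14 (.s k166 k247 12 (.s k162 k174 1 (.d k243 k81 k89 12 14))))),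
  (.s k255 k85 14 (.s k29 k46 4 (.s k93 k174 12 (.s k157 k221 7 (.s k110 k204 12 (.d k127 k76 k191 4
  7))))))] (.c k74 (.q k122 [(.s k4 k8 1 (.s k85 k255 14 (.s k166 k247 12 (.s k162 k174 1 (.d k243
  k81 k89 12 14))))), (.s k8 k4 1 (.s k240 k181 10 (.s k80 k160 11 (.s k88 k164 13 (.s k168 k248 11
  (.d k84 k92 k252 1 13)))))), (.s k255 k85 14 (.s k29 k46 4 (.s k93 k174 12 (.s k157 k221 7 (.s
  k110 k204 12 (.d k127 k76 k191 4 7))))))] .n) (.c k85 (.f k8 k4 1 (.l (.s k89 k251 12 (.s k29 k46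
  4 (.s k166 k243 14 (.s k149 k209 9 (.s k128 k191 6 (.s k132 k183 4 (.d k192 k64 k72 7 9)))))))))
  (.c k122 (.q k74 [(.s k4 k8 1 (.s k85 k255 14 (.s k166 k247 12 (.s k162 k174 1 (.d k243 k81 k89 12
  14))))), (.s k255 k85 14 (.s k29 k46 4 (.s k93 k174 12 (.s k157 k221 7 (.s k110 k204 12 (.d k127
  k76 k191 4 7))))))] (.c k85 (.f k8 k4 1 (.l (.s k89 k251 12 (.s k29 k46 4 (.s k166 k243 14 (.s
  k149 k209 9 (.s k128 k191 6 (.s k132 k183 4 (.d k192 k64 k72 7 9))))))))) (.c k166 (.l (.s k255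
  k85 14 (.s k46 k29 4 (.s k174 k93 12 (.s k110 k238 7 (.s k157 k204 12 (.d k191 k127 k140 7
  4))))))) (.c k174 (.l (.s k8 k4 1 (.s k85 k255 14 (.s k89 k251 12 (.s k243 k166 14 (.d k81 k93
  k162 1 12)))))) (.c k255 (.f k8 k4 1 (.l (.s k89 k251 12 (.s k29 k46 4 (.s k149 k209 9 (.s k128
  k191 6 (.s k192 k64 7 (.s k132 k72 9 (.d k166 k243 k183 14 4))))))))) .n))))) (.c k166 (.l (.s
  k255 k85 14 (.s k46 k29 4 (.s k174 k93 12 (.s k110 k238 7 (.s k157 k204 12 (.d k191 k127 k140 7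
  4))))))) (.c k174 (.l (.s k8 k4 1 (.s k85 k255 14 (.s k89 k251 12 (.s k243 k166 14 (.d k81 k93
  k162 1 12)))))) (.c k255 (.f k8 k4 1 (.l (.s k89 k251 12 (.s k29 k46 4 (.s k149 k209 9 (.s k128
  k191 6 (.s k192 k64 7 (.s k132 k72 9 (.d k166 k243 k183 14 4))))))))) .n)))))))

def t42_91 : T TT 256 :=
  (.f k255 k85 14 (.q k12 [(.s k8 k4 1 (.s k174 k93 12 (.s k166 k162 1 (.d k89 k251 k243 12 14)))),
  (.s k29 k46 4 (.s k93 k174 12 (.s k157 k221 7 (.s k110 k204 12 (.d k127 k76 k191 4 7))))), (.s k8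
  k4 1 (.s k89 k251 12 (.s k29 k46 4 (.s k149 k209 9 (.d k191 k127 k128 7 6)))))] (.c k64 (.l (.s
  k127 k191 7 (.s k8 k4 1 (.s k89 k251 12 (.s k166 k243 14 (.d k174 k162 k93 1 12)))))) (.c k127 (.q
  k64 [(.s k8 k4 1 (.s k174 k93 12 (.s k166 k162 1 (.d k89 k251 k243 12 14)))), (.s k8 k4 1 (.s k192
  k128 7 (.s k72 k132 9 (.s k136 k200 7 (.d k68 k76 k204 1 9))))), (.s k128 k192 7 (.s k29 k46 4 (.s
  k174 k93 12 (.s k149 k191 6 (.s k89 k209 9 (.d k166 k243 k162 14 1))))))] (.c k76 (.l (.s k8 k4 1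
  (.s k89 k251 12 (.s k166 k243 14 (.d k174 k162 k93 1 12))))) (.c k166 (.l (.s k192 k128 7 (.s k72
  k132 9 (.s k68 k76 1 (.s k136 k204 9 (.d k8 k4 k200 1 7)))))) .n))) (.c k166 (.l (.s k46 k29 4 (.s
  k174 k93 12 (.s k110 k238 7 (.s k157 k204 12 (.d k191 k140 k127 4 7)))))) .n)))))

def t42_92 : T TT 256 :=
  (.f k255 k85 14 (.q k12 [(.s k8 k4 1 (.s k89 k251 12 (.s k166 k243 14 (.d k174 k162 k93 1 12)))),
  (.s k29 k46 4 (.s k93 k174 12 (.s k157 k221 7 (.s k110 k204 12 (.d k127 k76 k191 4 7))))), (.s k8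
  k4 1 (.s k89 k251 12 (.s k29 k46 4 (.s k149 k209 9 (.d k191 k127 k128 7 6)))))] (.c k64 (.l (.s
  k127 k191 7 (.s k8 k4 1 (.s k89 k251 12 (.s k166 k243 14 (.d k174 k162 k93 1 12)))))) (.c k127 (.q
  k64 [(.s k8 k4 1 (.s k89 k251 12 (.s k166 k243 14 (.d k174 k162 k93 1 12)))), (.s k192 k128 7 (.s
  k72 k132 9 (.s k68 k76 1 (.s k136 k204 9 (.d k8 k4 k200 1 7))))), (.s k128 k192 7 (.s k29 k46 4
  (.s k174 k93 12 (.s k149 k191 6 (.s k89 k209 9 (.d k166 k243 k162 14 1))))))] (.c k93 (.l (.s k8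
  k4 1 (.s k128 k192 7 (.s k89 k251 12 (.s k29 k46 4 (.d k149 k191 k209 6 9)))))) .n)) (.c k166 (.l
  (.s k46 k29 4 (.s k174 k93 12 (.s k110 k238 7 (.s k157 k204 12 (.d k191 k140 k127 4 7))))))
  .n)))))

def t42_93 : T TT 256 :=
  (.q k252 [(.s k84 k168 13 (.s k85 k255 14 (.s k86 k87 0 (.s k2 k254 13 (.d k3 k1 k169 0 14))))),
  (.s k255 k85 14 (.s k126 k189 8 (.s k127 k191 7 (.s k125 k124 0 (.s k190 k60 8 (.d k254 k253 k62 0
  7))))))] (.c k85 (.q k89 [(.s k168 k84 13 (.s k169 k171 0 (.s k249 k9 11 (.s k243 k246 2 (.s k162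
  k81 12 (.d k166 k174 k12 1 14)))))), (.s k8 k251 12 (.s k12 k4 1 (.s k92 k172 11 (.s k86 k83 2 (.s
  k2 k254 13 (.d k3 k1 k169 0 14)))))), (.s k168 k84 13 (.s k8 k251 12 (.s k248 k88 11 (.s k169 k171
  0 (.s k9 k249 11 (.d k11 k10 k90 0 12))))))] (.c k64 (.q k127 [(.s k168 k84 13 (.s k189 k126 8 (.s
  k169 k171 0 (.s k149 k129 5 (.d k191 k128 k255 6 7))))), (.s k8 k251 12 (.s k12 k4 1 (.s k29 k46 4
  (.s k149 k209 9 (.d k191 k128 k255 6 7))))), (.s k168 k84 13 (.s k8 k251 12 (.s k12 k4 1 (.s k88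
  k248 11 (.s k164 k240 13 (.d k172 k160 k92 1 11))))))] .n) (.c k86 (.l (.s k8 k251 12 (.s k12 k4 1
  (.s k166 k243 14 (.s k172 k92 11 (.s k169 k163 2 (.d k168 k171 k84 0 13))))))) (.c k127 (.q k64
  [(.s k192 k128 7 (.s k84 k168 13 (.s k104 k124 5 (.s k148 k60 13 (.d k212 k232 k20 5 7))))), (.s
  k128 k192 7 (.s k8 k251 12 (.s k12 k4 1 (.s k29 k46 4 (.d k149 k191 k209 6 9))))), (.s k168 k84 13
  (.s k8 k251 12 (.s k12 k4 1 (.s k88 k248 11 (.s k164 k240 13 (.d k172 k160 k92 1 11))))))] (.c k76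
  (.q k110 [(.s k8 k251 12 (.s k12 k4 1 (.s k46 k29 4 (.s k166 k243 14 (.d k174 k162 k238 1 7))))),
  (.s k128 k192 7 (.s k168 k84 13 (.s k189 k126 8 (.s k188 k148 5 (.d k191 k190 k149 0 6)))))] .n)
  (.c k110 (.q k76 [(.s k192 k128 7 (.s k8 k251 12 (.s k72 k68 1 (.d k12 k4 k132 1 9)))), (.s k128
  k192 7 (.s k168 k84 13 (.s k189 k126 8 (.s k188 k148 5 (.d k191 k190 k149 0 6))))), (.s k8 k251 12
  (.s k12 k4 1 (.s k204 k140 7 (.d k68 k72 k136 1 9))))] (.c k98 (.l (.s k102 k115 6 (.s k192 k128 7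
  (.s k8 k251 12 (.s k12 k4 1 (.d k72 k68 k132 1 9)))))) (.c k102 (.q k98 [(.s k8 k251 12 (.s k68
  k72 1 (.s k204 k136 9 (.d k12 k4 k140 1 7)))), (.s k128 k192 7 (.s k168 k84 13 (.s k189 k126 8 (.s
  k188 k148 5 (.d k191 k190 k149 0 6)))))] (.c k68 (.q k119 [(.s k8 k251 12 (.s k81 k115 4 (.s k243
  k162 12 (.d k12 k4 k166 1 14)))), (.s k128 k192 7 (.s k168 k84 13 (.s k189 k126 8 (.s k188 k148 5
  (.d k191 k190 k149 0 6)))))] .n) (.c k119 (.l (.s k68 k72 1 (.s k204 k136 9 (.s k8 k251 12 (.d k12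
  k4 k140 1 7))))) .n))) .n))) .n))) (.c k169 (.l (.s k168 k84 13 (.s k8 k251 12 (.s k12 k4 1 (.s
  k88 k248 11 (.s k164 k240 13 (.d k172 k160 k92 1 11))))))) .n))))) (.c k254 (.l (.s k168 k84 13
  (.s k85 k255 14 (.s k169 k171 0 (.s k1 k253 13 (.d k3 k2 k86 0 14)))))) (.c k255 (.q k12 [(.s k8
  k4 1 (.s k168 k84 13 (.s k88 k248 11 (.s k164 k240 13 (.d k172 k160 k92 1 11))))), (.s k8 k4 1 (.s
  k89 k251 12 (.s k92 k172 11 (.s k86 k83 2 (.s k2 k254 13 (.d k3 k1 k169 0 14)))))), (.s k168 k84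
  13 (.s k172 k92 11 (.s k169 k171 0 (.s k166 k163 2 (.s k243 k89 14 (.d k162 k81 k174 12 1)))))),
  (.s k8 k4 1 (.s k168 k84 13 (.s k89 k251 12 (.s k243 k166 14 (.s k169 k171 0 (.d k249 k246 k9 2
  11))))))] .n) .n))))

def t42_94 : T TT 256 :=
  (.f k255 k85 14 (.q k3 [(.s k2 k1 0 (.s k171 k87 13 (.s k169 k168 0 (.d k86 k254 k252 13 14)))),
  (.s k23 k43 5 (.s k87 k171 13 (.s k151 k215 7 (.s k107 k195 13 (.d k127 k67 k191 5 7))))), (.s k2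
  k1 0 (.s k86 k254 13 (.s k23 k43 5 (.s k149 k212 8 (.d k191 k127 k128 7 6)))))] (.c k64 (.l (.s
  k127 k191 7 (.s k2 k1 0 (.s k86 k254 13 (.s k169 k252 14 (.d k171 k168 k87 0 13)))))) (.c k127 (.q
  k64 [(.s k2 k1 0 (.s k171 k87 13 (.s k169 k168 0 (.d k86 k254 k252 13 14)))), (.s k2 k1 0 (.s k192
  k128 7 (.s k66 k129 8 (.s k130 k194 7 (.d k65 k67 k195 0 8))))), (.s k128 k192 7 (.s k23 k43 5 (.s
  k171 k87 13 (.s k149 k191 6 (.s k86 k212 8 (.d k169 k252 k168 14 0))))))] (.c k67 (.l (.s k2 k1 0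
  (.s k86 k254 13 (.s k169 k252 14 (.d k171 k168 k87 0 13))))) (.c k169 (.l (.s k192 k128 7 (.s k66
  k129 8 (.s k65 k67 0 (.s k130 k195 8 (.d k2 k1 k194 0 7)))))) .n))) (.c k169 (.l (.s k43 k23 5 (.s
  k171 k87 13 (.s k107 k235 7 (.s k151 k195 13 (.d k191 k131 k127 5 7)))))) .n)))))

def t42_95 : T TT 256 :=
  (.q k130 [(.s k195 k65 8 (.s k85 k255 14 (.s k150 k190 5 (.s k20 k215 8 (.d k60 k40 k105 5
  14))))), (.s k195 k65 8 (.s k255 k85 14 (.s k107 k151 13 (.s k127 k191 7 (.s k87 k67 5 (.s k171 k3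
  13 (.d k235 k215 k43 5 7)))))))] (.c k65 (.l (.s k255 k85 14 (.s k127 k191 7 (.s k190 k150 5 (.s
  k125 k60 8 (.s k126 k124 0 (.s k252 k189 8 (.d k254 k62 k253 7 0)))))))) (.c k85 (.f k150 k190 5
  (.l (.s k195 k65 8 (.s k105 k60 14 (.s k235 k40 8 (.s k151 k107 13 (.s k149 k148 0 (.s k191 k128 6
  (.d k255 k215 k127 5 7))))))))) (.c k105 (.f k255 k85 14 (.l (.s k65 k195 8 (.s k190 k150 5 (.s
  k60 k125 8 (.s k62 k61 0 (.s k126 k254 7 (.s k189 k252 8 (.d k191 k188 k127 0 7))))))))) (.c k125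
  (.l (.s k195 k65 8 (.s k85 k255 14 (.s k150 k190 5 (.s k60 k105 14 (.d k20 k40 k215 5 8)))))) (.c
  k195 (.l (.s k255 k85 14 (.s k190 k150 5 (.s k60 k125 8 (.s k62 k61 0 (.s k126 k254 7 (.s k189
  k252 8 (.d k191 k127 k188 7 0)))))))) (.c k215 (.l (.s k195 k65 8 (.s k255 k85 14 (.s k151 k107 13
  (.s k150 k190 5 (.s k149 k148 0 (.d k191 k127 k128 7 6))))))) (.c k255 (.f k150 k190 5 (.l (.s
  k195 k65 8 (.s k151 k107 13 (.s k149 k148 0 (.s k128 k191 6 (.s k192 k64 7 (.s k193 k194 0 (.d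
  k105 k61 k60 13 14))))))))) .n))))))))

def t42_96 : T TT 256 :=
  (.q k12 [(.s k8 k4 1 (.s k85 k255 14 (.s k89 k251 12 (.s k243 k166 14 (.d k81 k93 k162 1 12))))),
  (.s k255 k85 14 (.s k29 k46 4 (.s k93 k174 12 (.s k157 k221 7 (.s k110 k204 12 (.d k127 k76 k191 4
  7)))))), (.s k4 k8 1 (.s k85 k255 14 (.s k166 k247 12 (.s k243 k89 14 (.d k162 k174 k81 1 12)))))]
  (.c k85 (.f k8 k4 1 (.l (.s k89 k251 12 (.s k29 k46 4 (.s k166 k243 14 (.s k149 k209 9 (.s k128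
  k191 6 (.s k132 k183 4 (.d k192 k64 k72 7 9))))))))) (.c k101 (.q k111 [(.s k4 k8 1 (.s k85 k255
  14 (.s k166 k247 12 (.s k162 k174 1 (.d k243 k81 k89 12 14))))), (.s k255 k85 14 (.s k29 k46 4 (.s
  k93 k174 12 (.s k157 k221 7 (.s k110 k204 12 (.d k127 k76 k191 4 7)))))), (.s k4 k8 1 (.s k207
  k159 11 (.s k69 k138 10 (.s k134 k199 8 (.s k73 k195 10 (.d k77 k65 k142 1 8))))))] .n) (.c k111
  (.q k101 [(.s k8 k4 1 (.s k85 k255 14 (.s k89 k251 12 (.s k243 k166 14 (.d k81 k93 k162 1 12))))),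
  (.s k85 k255 14 (.s k32 k239 10 (.s k48 k16 3 (.s k207 k154 14 (.d k69 k117 k138 3 10))))), (.s k4
  k8 1 (.s k32 k239 10 (.s k48 k16 3 (.s k36 k24 5 (.s k20 k52 3 (.d k40 k44 k60 1 5))))))] .n) (.c
  k166 (.l (.s k255 k85 14 (.s k46 k29 4 (.s k174 k93 12 (.s k110 k238 7 (.s k157 k204 12 (.d k191
  k127 k140 7 4))))))) (.c k255 (.f k8 k4 1 (.l (.s k89 k251 12 (.s k29 k46 4 (.s k149 k209 9 (.s
  k128 k191 6 (.s k192 k64 7 (.s k132 k72 9 (.d k166 k243 k183 14 4))))))))) .n))))))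

def t42_97 : T TT 256 :=
  (.f k255 k85 14 (.q k12 [(.s k8 k4 1 (.s k89 k251 12 (.s k166 k243 14 (.d k174 k162 k93 1 12)))),
  (.s k29 k46 4 (.s k93 k174 12 (.s k157 k221 7 (.s k110 k204 12 (.d k127 k76 k191 4 7))))), (.s k8
  k4 1 (.s k89 k251 12 (.s k29 k46 4 (.s k149 k209 9 (.d k191 k127 k128 7 6)))))] (.c k64 (.l (.s
  k127 k191 7 (.s k8 k4 1 (.s k89 k251 12 (.s k166 k243 14 (.d k174 k162 k93 1 12)))))) (.c k127 (.q
  k64 [(.s k8 k4 1 (.s k89 k251 12 (.s k166 k243 14 (.d k174 k162 k93 1 12)))), (.s k192 k128 7 (.s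
  k72 k132 9 (.s k68 k76 1 (.s k136 k204 9 (.d k8 k4 k200 1 7))))), (.s k128 k192 7 (.s k29 k46 4
  (.s k174 k93 12 (.s k149 k191 6 (.s k89 k209 9 (.d k166 k243 k162 14 1))))))] (.c k93 (.l (.s k8
  k4 1 (.s k128 k192 7 (.s k89 k251 12 (.s k29 k46 4 (.d k149 k191 k209 6 9)))))) .n)) (.c k166 (.l
  (.s k46 k29 4 (.s k174 k93 12 (.s k110 k238 7 (.s k157 k204 12 (.d k191 k140 k127 4 7))))))
  .n)))))

def t42_98 : T TT 256 :=
  (.q k195 [(.s k65 k130 8 (.s k85 k255 14 (.s k105 k125 5 (.s k40 k235 8 (.d k60 k20 k150 5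
  14))))), (.s k255 k85 14 (.s k107 k151 13 (.s k127 k191 7 (.s k87 k67 5 (.s k171 k3 13 (.d k235
  k215 k43 5 7))))))] (.c k85 (.f k130 k65 8 (.l (.s k151 k107 13 (.s k150 k190 5 (.s k105 k60 14
  (.s k235 k40 8 (.s k149 k148 0 (.s k191 k128 6 (.d k255 k215 k127 5 7))))))))) (.c k102 (.q k110
  [(.s k65 k130 8 (.s k85 k255 14 (.s k105 k125 5 (.s k40 k235 8 (.d k60 k20 k150 5 14))))), (.s
  k255 k85 14 (.s k107 k151 13 (.s k127 k191 7 (.s k87 k67 5 (.s k171 k3 13 (.d k235 k215 k43 5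
  7)))))), (.s k130 k65 8 (.s k204 k157 12 (.s k150 k190 5 (.s k105 k60 14 (.s k201 k198 2 (.s k153
  k57 11 (.d k136 k187 k68 4 9)))))))] (.c k255 (.l (.s k130 k65 8 (.s k204 k157 12 (.s k136 k68 9
  (.s k150 k190 5 (.s k60 k105 14 (.s k153 k187 4 (.d k156 k108 k147 11 2)))))))) .n)) (.c k110 (.q
  k102 [(.s k65 k130 8 (.s k85 k255 14 (.s k105 k125 5 (.s k40 k235 8 (.d k60 k20 k150 5 14))))),
  (.s k85 k255 14 (.s k34 k238 9 (.s k51 k17 4 (.s k204 k153 14 (.d k68 k119 k136 4 9))))), (.s k130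
  k65 8 (.s k34 k238 9 (.s k51 k17 4 (.s k99 k147 11 (.s k105 k108 2 (.d k150 k190 k60 5 14))))))]
  .n) (.c k235 (.l (.s k130 k65 8 (.s k85 k255 14 (.s k150 k190 5 (.s k20 k215 8 (.d k60 k40 k105 5
  14)))))) (.c k255 (.f k130 k65 8 (.l (.s k151 k107 13 (.s k150 k190 5 (.s k149 k148 0 (.s k128
  k191 6 (.s k192 k64 7 (.s k193 k194 0 (.d k105 k60 k61 14 13))))))))) .n))))))

def t42_99 : T TT 256 :=
  (.f k255 k85 14 (.q k12 [(.s k8 k4 1 (.s k89 k251 12 (.s k166 k243 14 (.d k174 k162 k93 1 12)))),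
  (.s k29 k46 4 (.s k93 k174 12 (.s k157 k221 7 (.s k110 k204 12 (.d k127 k76 k191 4 7))))), (.s k8
  k4 1 (.s k89 k251 12 (.s k29 k46 4 (.s k149 k209 9 (.d k191 k127 k128 7 6)))))] (.c k64 (.l (.s
  k127 k191 7 (.s k8 k4 1 (.s k89 k251 12 (.s k166 k243 14 (.d k174 k162 k93 1 12)))))) (.c k127 (.q
  k64 [(.s k8 k4 1 (.s k89 k251 12 (.s k166 k243 14 (.d k174 k162 k93 1 12)))), (.s k192 k128 7 (.s
  k72 k132 9 (.s k68 k76 1 (.s k136 k204 9 (.d k8 k4 k200 1 7))))), (.s k128 k192 7 (.s k29 k46 4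
  (.s k174 k93 12 (.s k149 k191 6 (.s k89 k209 9 (.d k166 k243 k162 14 1))))))] (.c k93 (.l (.s k8
  k4 1 (.s k128 k192 7 (.s k89 k251 12 (.s k29 k46 4 (.d k149 k191 k209 6 9)))))) .n)) (.c k166 (.l
  (.s k46 k29 4 (.s k174 k93 12 (.s k110 k238 7 (.s k157 k204 12 (.d k191 k140 k127 4 7))))))
  .n)))))

def t42_100 : T TT 256 :=
  (.f k255 k85 14 (.q k12 [(.s k8 k4 1 (.s k89 k251 12 (.s k166 k243 14 (.d k174 k162 k93 1 12)))),
  (.s k29 k46 4 (.s k93 k174 12 (.s k157 k221 7 (.s k110 k204 12 (.d k127 k76 k191 4 7))))), (.s k8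
  k4 1 (.s k89 k251 12 (.s k29 k46 4 (.s k149 k209 9 (.d k191 k127 k128 7 6)))))] (.c k64 (.l (.s
  k127 k191 7 (.s k8 k4 1 (.s k89 k251 12 (.s k166 k243 14 (.d k174 k162 k93 1 12)))))) (.c k127 (.q
  k64 [(.s k8 k4 1 (.s k89 k251 12 (.s k166 k243 14 (.d k174 k162 k93 1 12)))), (.s k192 k128 7 (.s
  k72 k132 9 (.s k68 k76 1 (.s k136 k204 9 (.d k8 k4 k200 1 7))))), (.s k128 k192 7 (.s k29 k46 4
  (.s k174 k93 12 (.s k149 k191 6 (.s k89 k209 9 (.d k166 k243 k162 14 1))))))] (.c k93 (.l (.s k8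
  k4 1 (.s k128 k192 7 (.s k89 k251 12 (.s k29 k46 4 (.d k149 k191 k209 6 9)))))) .n)) (.c k166 (.l
  (.s k46 k29 4 (.s k174 k93 12 (.s k110 k238 7 (.s k157 k204 12 (.d k191 k140 k127 4 7))))))
  .n)))))

def t42_101 : T TT 256 :=
  (.q k12 [(.s k4 k8 1 (.s k85 k255 14 (.s k166 k247 12 (.s k162 k174 1 (.d k243 k81 k89 12 14))))),
  (.s k255 k85 14 (.s k29 k46 4 (.s k93 k174 12 (.s k157 k221 7 (.s k110 k204 12 (.d k127 k76 k191 4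
  7))))))] (.c k85 (.f k8 k4 1 (.l (.s k89 k251 12 (.s k29 k46 4 (.s k166 k243 14 (.s k149 k209 9
  (.s k128 k191 6 (.s k132 k183 4 (.d k192 k64 k72 7 9))))))))) (.c k96 (.q k111 [(.s k4 k8 1 (.s
  k85 k255 14 (.s k166 k247 12 (.s k162 k174 1 (.d k243 k81 k89 12 14))))), (.s k255 k85 14 (.s k29
  k46 4 (.s k93 k174 12 (.s k157 k221 7 (.s k110 k204 12 (.d k127 k76 k191 4 7)))))), (.s k4 k8 1
  (.s k207 k159 11 (.s k69 k138 10 (.s k134 k199 8 (.s k73 k195 10 (.d k77 k65 k142 1 8))))))] .n)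
  (.c k111 (.q k96 [(.s k4 k8 1 (.s k85 k255 14 (.s k166 k247 12 (.s k162 k174 1 (.d k243 k81 k89 12
  14))))), (.s k255 k85 14 (.s k29 k46 4 (.s k93 k174 12 (.s k157 k221 7 (.s k110 k204 12 (.d k127
  k76 k191 4 7))))))] (.c k85 (.f k8 k4 1 (.l (.s k89 k251 12 (.s k29 k46 4 (.s k166 k243 14 (.s
  k149 k209 9 (.s k128 k191 6 (.s k132 k183 4 (.d k192 k64 k72 7 9))))))))) (.c k166 (.l (.s k255
  k85 14 (.s k46 k29 4 (.s k174 k93 12 (.s k110 k238 7 (.s k157 k204 12 (.d k191 k127 k140 7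
  4))))))) (.c k174 (.l (.s k8 k4 1 (.s k85 k255 14 (.s k89 k251 12 (.s k243 k166 14 (.d k81 k93
  k162 1 12)))))) (.c k255 (.f k8 k4 1 (.l (.s k89 k251 12 (.s k29 k46 4 (.s k149 k209 9 (.s k128
  k191 6 (.s k192 k64 7 (.s k132 k72 9 (.d k166 k243 k183 14 4))))))))) .n))))) (.c k166 (.l (.s
  k255 k85 14 (.s k46 k29 4 (.s k174 k93 12 (.s k110 k238 7 (.s k157 k204 12 (.d k191 k127 k140 7
  4))))))) (.c k174 (.l (.s k8 k4 1 (.s k85 k255 14 (.s k89 k251 12 (.s k243 k166 14 (.d k81 k93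
  k162 1 12)))))) (.c k255 (.f k8 k4 1 (.l (.s k89 k251 12 (.s k29 k46 4 (.s k149 k209 9 (.s k128
  k191 6 (.s k192 k64 7 (.s k132 k72 9 (.d k166 k243 k183 14 4))))))))) .n)))))))

def t42_102 : T TT 256 :=
  (.q k12 [(.s k4 k8 1 (.s k85 k255 14 (.s k166 k247 12 (.s k162 k174 1 (.d k243 k81 k89 12 14))))),
  (.s k255 k85 14 (.s k29 k46 4 (.s k93 k174 12 (.s k157 k221 7 (.s k110 k204 12 (.d k127 k76 k191 4
  7))))))] (.c k85 (.f k8 k4 1 (.l (.s k89 k251 12 (.s k29 k46 4 (.s k166 k243 14 (.s k149 k209 9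
  (.s k128 k191 6 (.s k132 k183 4 (.d k192 k64 k72 7 9))))))))) (.c k98 (.q k110 [(.s k46 k29 4 (.s
  k174 k238 7 (.d k255 k93 k85 12 14))), (.s k255 k85 14 (.s k127 k191 7 (.s k76 k93 4 (.d k204 k140
  k157 7 12)))), (.s k8 k4 1 (.s k89 k251 12 (.s k46 k29 4 (.s k174 k238 7 (.d k166 k162 k243 1
  14)))))] .n) (.c k110 (.q k98 [(.s k8 k4 1 (.s k85 k255 14 (.s k89 k251 12 (.s k243 k166 14 (.d
  k81 k93 k162 1 12))))), (.s k4 k8 1 (.s k85 k255 14 (.s k166 k247 12 (.s k243 k89 14 (.d k162 k174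
  k81 1 12))))), (.s k255 k85 14 (.s k29 k46 4 (.s k174 k93 12 (.s k166 k162 1 (.s k89 k243 14 (.s
  k149 k209 9 (.d k191 k127 k128 7 6))))))), (.s k8 k4 1 (.s k255 k85 14 (.s k89 k251 12 (.s k29 k46
  4 (.s k149 k209 9 (.d k191 k127 k128 7 6))))))] (.c k85 (.f k8 k4 1 (.l (.s k89 k251 12 (.s k29
  k46 4 (.s k166 k243 14 (.s k149 k209 9 (.s k128 k191 6 (.s k132 k183 4 (.d k192 k64 k72 7
  9))))))))) (.c k89 (.f k46 k29 4 (.f k4 k8 1 (.f k85 k255 14 (.l (.s k166 k247 12 (.s k162 k174 1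
  (.s k243 k81 12 (.s k34 k226 7 (.s k51 k17 4 (.s k145 k192 12 (.d k179 k128 k115 4 7)))))))))))
  (.c k166 (.f k8 k4 1 (.l (.s k85 k255 14 (.s k89 k251 12 (.s k81 k93 1 (.s k64 k115 4 (.s k128
  k192 7 (.s k149 k191 6 (.d k29 k46 k209 4 9))))))))) (.c k255 (.l (.s k8 k4 1 (.s k89 k251 12 (.s
  k29 k46 4 (.s k209 k149 9 (.s k243 k166 14 (.s k226 k192 4 (.d k162 k34 k81 7 12)))))))) .n)))))
  (.c k166 (.l (.s k255 k85 14 (.s k46 k29 4 (.s k174 k93 12 (.s k110 k238 7 (.s k157 k204 12 (.d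
  k191 k127 k140 7 4))))))) (.c k174 (.l (.s k8 k4 1 (.s k85 k255 14 (.s k89 k251 12 (.s k243 k166
  14 (.d k81 k93 k162 1 12)))))) (.c k255 (.f k8 k4 1 (.l (.s k89 k251 12 (.s k29 k46 4 (.s k149
  k209 9 (.s k128 k191 6 (.s k192 k64 7 (.s k132 k72 9 (.d k166 k243 k183 14 4))))))))) .n)))))))

def t42_103 : T TT 256 :=
  (.f k255 k85 14 (.q k195 [(.s k130 k65 8 (.s k150 k190 5 (.s k105 k60 14 (.d k235 k215 k40 5
  8)))), (.s k107 k151 13 (.s k127 k191 7 (.s k87 k67 5 (.s k171 k3 13 (.d k235 k215 k43 5 7))))),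
  (.s k130 k65 8 (.s k151 k107 13 (.s k150 k190 5 (.s k149 k148 0 (.d k191 k127 k128 7 6)))))] (.c
  k64 (.l (.s k127 k191 7 (.s k130 k65 8 (.s k150 k190 5 (.s k105 k60 14 (.d k235 k215 k40 5 8))))))
  (.c k127 (.q k64 [(.s k130 k65 8 (.s k150 k190 5 (.s k105 k60 14 (.d k235 k215 k40 5 8)))), (.s
  k192 k128 7 (.s k65 k130 8 (.s k66 k67 0 (.s k129 k3 8 (.d k193 k194 k1 0 7))))), (.s k128 k192 7
  (.s k151 k107 13 (.s k149 k191 6 (.s k150 k148 0 (.s k235 k215 5 (.d k105 k60 k40 14 8))))))] .n)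
  .n))))

def t42_104 : T TT 256 :=
  (.q k195 [(.s k65 k130 8 (.s k85 k255 14 (.s k105 k125 5 (.s k40 k235 8 (.d k60 k20 k150 5
  14))))), (.s k255 k85 14 (.s k107 k151 13 (.s k127 k191 7 (.s k87 k67 5 (.s k171 k3 13 (.d k235
  k215 k43 5 7))))))] (.c k85 (.f k130 k65 8 (.f k150 k190 5 (.l (.s k105 k60 14 (.s k235 k40 8 (.s
  k107 k151 13 (.s k255 k215 5 (.s k127 k191 7 (.s k87 k67 5 (.d k171 k43 k3 7 13)))))))))) (.c k105
  (.l (.s k107 k151 13 (.s k255 k85 14 (.s k127 k191 7 (.s k87 k67 5 (.s k171 k3 13 (.d k235 k215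
  k43 5 7))))))) (.c k107 (.q k105 [(.s k65 k130 8 (.d k85 k125 k255 5 14)), (.s k255 k85 14 (.d
  k235 k215 k40 5 8)), (.s k130 k65 8 (.d k150 k190 k60 5 14))] .n) (.c k235 (.l (.s k130 k65 8 (.s
  k85 k255 14 (.s k150 k190 5 (.s k20 k215 8 (.d k60 k40 k105 5 14)))))) (.c k255 (.q k105 [(.s k130
  k65 8 (.d k150 k190 k60 5 14)), (.s k235 k40 8 (.s k107 k151 13 (.s k43 k171 7 (.s k3 k23 5 (.s k2
  k1 0 (.s k86 k254 13 (.d k67 k131 k124 7 6)))))))] .n) .n))))))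

def t42_105 : T TT 256 :=
  (.q k240 [(.s k80 k160 11 (.s k85 k255 14 (.s k90 k95 2 (.s k10 k250 11 (.d k15 k5 k165 2 14))))),
  (.s k255 k85 14 (.s k122 k181 10 (.s k127 k191 7 (.s k117 k112 2 (.s k186 k48 10 (.d k250 k245 k58
  2 7))))))] (.c k85 (.f k160 k80 11 (.l (.s k181 k122 10 (.s k165 k175 2 (.s k90 k15 14 (.s k250
  k10 11 (.s k149 k133 3 (.s k191 k128 6 (.d k255 k245 k127 2 7))))))))) (.c k104 (.q k107 [(.s k80
  k160 11 (.s k85 k255 14 (.s k90 k95 2 (.s k10 k250 11 (.d k15 k5 k165 2 14))))), (.s k255 k85 14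
  (.s k151 k195 13 (.s k127 k191 7 (.s k87 k67 5 (.s k3 k171 13 (.d k23 k43 k215 5 7))))))] (.c k85
  (.l (.s k160 k80 11 (.s k195 k151 13 (.s k165 k175 2 (.s k90 k15 14 (.s k210 k225 4 (.s k150 k30 9
  (.d k130 k190 k65 5 8)))))))) (.c k255 (.l (.s k160 k80 11 (.s k195 k151 13 (.s k130 k65 8 (.s
  k150 k190 5 (.s k165 k175 2 (.s k15 k90 14 (.d k135 k75 k180 9 4)))))))) .n))) (.c k107 (.q k104
  [(.s k80 k160 11 (.s k85 k255 14 (.s k90 k95 2 (.s k10 k250 11 (.d k15 k5 k165 2 14))))), (.s k255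
  k85 14 (.s k122 k181 10 (.s k127 k191 7 (.s k117 k112 2 (.s k186 k48 10 (.d k250 k245 k58 2
  7))))))] (.c k85 (.f k160 k80 11 (.l (.s k181 k122 10 (.s k165 k175 2 (.s k90 k15 14 (.s k250 k10
  11 (.s k149 k133 3 (.s k191 k128 6 (.d k255 k245 k127 2 7))))))))) (.c k250 (.l (.s k160 k80 11
  (.s k85 k255 14 (.s k165 k175 2 (.s k5 k245 11 (.d k15 k10 k90 2 14)))))) (.c k255 (.f k160 k80 11
  (.l (.s k181 k122 10 (.s k165 k175 2 (.s k149 k133 3 (.s k128 k191 6 (.s k192 k64 7 (.s k208 k224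
  3 (.d k90 k15 k31 14 10))))))))) .n)))) (.c k250 (.l (.s k160 k80 11 (.s k85 k255 14 (.s k165 k175
  2 (.s k5 k245 11 (.d k15 k10 k90 2 14)))))) (.c k255 (.f k160 k80 11 (.l (.s k181 k122 10 (.s k165
  k175 2 (.s k149 k133 3 (.s k128 k191 6 (.s k192 k64 7 (.s k208 k224 3 (.d k90 k15 k31 14
  10))))))))) .n))))))

def t42_107 : T TT 256 :=
  (.f k255 k85 14 (.f k127 k191 7 (.q k240 [(.s k122 k181 10 (.s k117 k112 2 (.s k186 k48 10 (.d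
  k250 k245 k58 2 7)))), (.s k160 k80 11 (.s k175 k165 2 (.s k95 k15 11 (.s k111 k79 3 (.s k207 k159
  11 (.d k239 k47 k223 7 3))))))] (.c k104 (.q k105 [(.s k160 k80 11 (.s k165 k175 2 (.s k90 k15 14
  (.d k250 k245 k10 2 11)))), (.s k40 k235 8 (.s k60 k20 5 (.s k150 k195 14 (.d k190 k130 k125 5
  8))))] .n) (.c k105 (.q k104 [(.s k122 k181 10 (.s k117 k112 2 (.s k186 k48 10 (.d k250 k245 k58 2
  7)))), (.s k160 k80 11 (.s k175 k165 2 (.s k95 k15 11 (.s k111 k79 3 (.s k207 k159 11 (.d k239 k47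
  k223 7 3))))))] (.c k65 (.q k125 [(.s k160 k80 11 (.s k165 k175 2 (.s k90 k15 14 (.d k250 k245 k10
  2 11)))), (.s k60 k190 8 (.s k61 k62 0 (.s k189 k253 7 (.d k126 k124 k252 0 8))))] .n) (.c k125
  (.q k65 [(.s k122 k181 10 (.s k117 k112 2 (.s k186 k48 10 (.d k250 k245 k58 2 7)))), (.s k160 k80
  11 (.s k175 k165 2 (.s k95 k15 11 (.s k111 k79 3 (.s k207 k159 11 (.d k239 k47 k223 7 3))))))] (.c
  k245 (.l (.s k160 k80 11 (.s k122 k181 10 (.s k117 k112 2 (.s k186 k48 10 (.s k250 k58 7 (.s k165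
  k175 2 (.d k90 k10 k15 11 14)))))))) .n)) (.c k245 (.l (.s k160 k80 11 (.s k122 k181 10 (.s k117
  k112 2 (.s k186 k48 10 (.s k250 k58 7 (.s k165 k175 2 (.d k90 k10 k15 11 14)))))))) .n)))) (.c
  k245 (.l (.s k160 k80 11 (.s k122 k181 10 (.s k117 k112 2 (.s k186 k48 10 (.s k250 k58 7 (.s k165
  k175 2 (.d k90 k10 k15 11 14)))))))) .n))))))

def t42_108 : T TT 256 :=
  (.f k255 k85 14 (.f k127 k191 7 (.q k240 [(.s k122 k181 10 (.s k117 k112 2 (.s k186 k48 10 (.d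
  k250 k245 k58 2 7)))), (.s k160 k80 11 (.s k175 k165 2 (.s k95 k15 11 (.s k111 k79 3 (.s k207 k159
  11 (.d k239 k47 k223 7 3))))))] (.c k245 (.l (.s k160 k80 11 (.s k122 k181 10 (.s k117 k112 2 (.s
  k186 k48 10 (.s k250 k58 7 (.s k165 k175 2 (.d k90 k10 k15 11 14)))))))) .n))))

def t42_109 : T TT 256 :=
  (.f k255 k85 14 (.f k127 k191 7 (.q k240 [(.s k122 k181 10 (.s k117 k112 2 (.s k186 k48 10 (.d
  k250 k245 k58 2 7)))), (.s k160 k80 11 (.s k175 k165 2 (.s k95 k15 11 (.s k111 k79 3 (.s k207 k159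
  11 (.d k239 k47 k223 7 3))))))] (.c k245 (.l (.s k160 k80 11 (.s k122 k181 10 (.s k117 k112 2 (.s
  k186 k48 10 (.s k250 k58 7 (.s k165 k175 2 (.d k90 k10 k15 11 14)))))))) .n))))

def t42_110 : T TT 256 :=
  (.f k255 k85 14 (.f k127 k191 7 (.q k240 [(.s k122 k181 10 (.s k117 k112 2 (.s k186 k48 10 (.d
  k250 k245 k58 2 7)))), (.s k160 k80 11 (.s k175 k165 2 (.s k95 k15 11 (.s k111 k79 3 (.s k207 k159
  11 (.d k239 k47 k223 7 3))))))] (.c k98 (.q k102 [(.s k160 k80 11 (.s k165 k175 2 (.s k90 k15 14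
  (.d k250 k245 k10 2 11)))), (.s k34 k238 9 (.s k51 k17 4 (.s k153 k204 14 (.d k187 k136 k119 4
  9))))] .n) (.c k102 (.q k98 [(.s k122 k181 10 (.s k117 k112 2 (.s k186 k48 10 (.d k250 k245 k58 2
  7)))), (.s k160 k80 11 (.s k175 k165 2 (.s k95 k15 11 (.s k111 k79 3 (.s k207 k159 11 (.d k239 k47
  k223 7 3))))))] (.c k68 (.q k119 [(.s k160 k80 11 (.s k165 k175 2 (.s k90 k15 14 (.d k250 k245 k10
  2 11)))), (.s k51 k187 9 (.s k55 k59 1 (.s k183 k247 7 (.d k123 k115 k243 1 9))))] .n) (.c k119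
  (.q k68 [(.s k122 k181 10 (.s k117 k112 2 (.s k186 k48 10 (.d k250 k245 k58 2 7)))), (.s k160 k80
  11 (.s k175 k165 2 (.s k95 k15 11 (.s k111 k79 3 (.s k207 k159 11 (.d k239 k47 k223 7 3))))))] (.c
  k245 (.l (.s k160 k80 11 (.s k122 k181 10 (.s k117 k112 2 (.s k186 k48 10 (.s k250 k58 7 (.s k165
  k175 2 (.d k90 k10 k15 11 14)))))))) .n)) (.c k245 (.l (.s k160 k80 11 (.s k122 k181 10 (.s k117
  k112 2 (.s k186 k48 10 (.s k250 k58 7 (.s k165 k175 2 (.d k90 k10 k15 11 14)))))))) .n)))) (.c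
  k245 (.l (.s k160 k80 11 (.s k122 k181 10 (.s k117 k112 2 (.s k186 k48 10 (.s k250 k58 7 (.s k165
  k175 2 (.d k90 k10 k15 11 14)))))))) .n))))))

def t42_111 : T TT 256 :=
  (.f k255 k85 14 (.f k127 k191 7 (.q k240 [(.s k122 k181 10 (.s k117 k112 2 (.s k186 k48 10 (.d
  k250 k245 k58 2 7)))), (.s k160 k80 11 (.s k165 k175 2 (.s k90 k15 14 (.d k250 k245 k10 2 11))))]
  (.c k96 (.q k101 [(.s k32 k239 10 (.s k48 k16 3 (.s k154 k207 14 (.d k186 k138 k117 3 10)))), (.s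
  k160 k80 11 (.s k250 k245 2 (.s k90 k10 11 (.d k165 k175 k15 2 14))))] (.c k175 (.l (.s k239 k32
  10 (.s k207 k223 3 (.s k138 k69 10 (.d k154 k186 k48 3 14))))) .n)) (.c k101 (.q k96 [(.s k80 k160
  11 (.s k112 k64 3 (.d k122 k117 k181 2 10))), (.s k160 k80 11 (.s k165 k175 2 (.s k90 k15 14 (.d
  k250 k245 k10 2 11)))), (.s k122 k181 10 (.s k117 k112 2 (.s k186 k48 10 (.d k250 k245 k58 2
  7))))] (.c k69 (.q k117 [(.d k122 k112 k181 2 10)] (.c k112 (.l (.s k181 k122 10 (.d k245 k250 k53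
  2 7))) (.c k122 (.l (.s k80 k160 11 (.s k48 k186 10 (.d k112 k176 k64 7 3)))) (.c k181 (.l (.s k80
  k160 11 (.d k112 k122 k64 2 3))) .n)))) (.c k117 (.q k69 [(.s k160 k80 11 (.s k165 k175 2 (.s k90
  k15 14 (.d k250 k245 k10 2 11)))), (.s k207 k138 10 (.s k229 k218 6 (.s k239 k223 3 (.s k224 k234
  2 (.d k160 k32 k80 7 11))))), (.s k207 k138 10 (.s k218 k229 6 (.s k223 k239 3 (.s k213 k208 2 (.s
  k234 k192 6 (.d k250 k245 k202 2 3))))))] (.c k239 (.l (.s k160 k80 11 (.s k250 k245 2 (.s k90 k10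
  11 (.d k165 k175 k15 2 14))))) (.c k250 (.l (.s k207 k138 10 (.s k160 k80 11 (.s k224 k32 7 (.s
  k229 k218 6 (.d k239 k234 k223 2 3)))))) .n))) .n))) (.c k245 (.l (.s k160 k80 11 (.s k122 k181 10
  (.s k117 k112 2 (.s k186 k48 10 (.s k250 k58 7 (.s k165 k175 2 (.d k90 k10 k15 11 14)))))))) (.c
  k250 (.q k101 [(.s k32 k239 10 (.s k48 k16 3 (.s k154 k207 14 (.d k186 k138 k117 3 10)))), (.s
  k160 k80 11 (.s k122 k181 10 (.s k112 k117 2 (.s k90 k79 6 (.d k165 k175 k15 2 14))))), (.s k239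
  k32 10 (.s k207 k223 3 (.s k154 k48 14 (.d k138 k186 k69 3 10))))] (.c k186 (.l (.s k160 k80 11
  (.s k239 k32 10 (.s k165 k175 2 (.s k207 k223 3 (.d k229 k37 k218 7 6)))))) .n)) .n)))))))

def t42_112 : T TT 256 :=
  (.q k12 [(.s k8 k4 1 (.s k85 k255 14 (.s k89 k251 12 (.s k243 k166 14 (.d k81 k93 k162 1 12))))),
  (.s k255 k85 14 (.s k29 k46 4 (.s k93 k174 12 (.s k157 k221 7 (.s k110 k204 12 (.d k127 k76 k191 4
  7)))))), (.s k4 k8 1 (.s k85 k255 14 (.s k166 k247 12 (.s k243 k89 14 (.d k162 k174 k81 1 12)))))]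
  (.c k85 (.q k127 [(.s k8 k4 1 (.s k89 k251 12 (.s k166 k243 14 (.s k255 k191 7 (.d k174 k162 k93 1
  12))))), (.s k255 k191 7 (.s k93 k174 12 (.s k110 k76 4 (.s k157 k204 12 (.d k29 k46 k221 4
  7))))), (.s k8 k4 1 (.s k89 k251 12 (.s k29 k46 4 (.s k149 k209 9 (.d k191 k128 k255 6 7)))))] (.c
  k191 (.l (.s k8 k4 1 (.s k89 k251 12 (.s k46 k29 4 (.s k166 k243 14 (.s k174 k162 1 (.s k110 k238
  7 (.d k93 k255 k76 12 4)))))))) (.c k255 (.q k240 [(.s k8 k4 1 (.s k80 k160 11 (.s k88 k164 13 (.s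
  k168 k248 11 (.d k84 k92 k252 1 13))))), (.s k8 k4 1 (.s k160 k80 11 (.s k89 k251 12 (.s k165 k175
  2 (.s k13 k241 13 (.d k15 k90 k14 14 0)))))), (.s k160 k80 11 (.s k164 k88 13 (.s k165 k175 2 (.s
  k166 k167 0 (.s k243 k89 14 (.d k162 k81 k174 12 1)))))), (.s k8 k4 1 (.s k89 k251 12 (.s k88 k164
  13 (.s k90 k91 0 (.s k10 k250 11 (.d k15 k5 k165 2 14))))))] (.c k166 (.l (.s k4 k8 1 (.s k160 k80
  11 (.s k164 k88 13 (.s k84 k244 11 (.d k168 k172 k252 1 13)))))) .n)) .n))) (.c k166 (.l (.s k255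
  k85 14 (.s k46 k29 4 (.s k174 k93 12 (.s k110 k238 7 (.s k157 k204 12 (.d k191 k127 k140 7
  4))))))) (.c k255 (.q k240 [(.s k8 k4 1 (.s k80 k160 11 (.s k88 k164 13 (.s k168 k248 11 (.d k84
  k92 k252 1 13))))), (.s k8 k4 1 (.s k160 k80 11 (.s k89 k251 12 (.s k243 k166 14 (.s k165 k175 2
  (.d k241 k242 k13 0 13)))))), (.s k160 k80 11 (.s k164 k88 13 (.s k165 k175 2 (.s k166 k167 0 (.s
  k243 k89 14 (.d k162 k174 k81 1 12)))))), (.s k8 k4 1 (.s k89 k251 12 (.s k88 k164 13 (.s k90 k91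
  0 (.s k10 k250 11 (.d k15 k5 k165 2 14))))))] .n) .n))))

def t42_113 : T TT 256 :=
  (.f k255 k85 14 (.q k12 [(.s k8 k4 1 (.s k89 k251 12 (.s k174 k93 12 (.d k166 k162 k243 1 14)))),
  (.s k29 k46 4 (.s k93 k174 12 (.s k157 k221 7 (.s k110 k204 12 (.d k127 k76 k191 4 7))))), (.s k8
  k4 1 (.s k89 k251 12 (.s k29 k46 4 (.s k149 k209 9 (.d k191 k127 k128 7 6)))))] (.c k64 (.l (.s
  k127 k191 7 (.s k8 k4 1 (.s k89 k251 12 (.s k166 k243 14 (.d k174 k162 k93 1 12)))))) (.c k127 (.q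
  k64 [(.s k8 k4 1 (.s k89 k251 12 (.s k166 k243 14 (.d k174 k162 k93 1 12)))), (.s k192 k128 7 (.s
  k72 k132 9 (.s k68 k76 1 (.s k136 k204 9 (.d k8 k4 k200 1 7))))), (.s k128 k192 7 (.s k29 k46 4
  (.s k174 k93 12 (.s k149 k191 6 (.s k89 k209 9 (.d k166 k243 k162 14 1))))))] (.c k93 (.l (.s k8
  k4 1 (.s k128 k192 7 (.s k89 k251 12 (.s k29 k46 4 (.d k149 k191 k209 6 9)))))) .n)) (.c k166 (.l
  (.s k46 k29 4 (.s k174 k93 12 (.s k110 k238 7 (.s k157 k204 12 (.d k191 k140 k127 4 7))))))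
  .n)))))

def t42_114 : T TT 256 :=
  (.f k255 k85 14 (.q k12 [(.s k8 k4 1 (.s k89 k251 12 (.s k166 k243 14 (.d k174 k162 k93 1 12)))),
  (.s k29 k46 4 (.s k93 k174 12 (.s k157 k221 7 (.s k110 k204 12 (.d k127 k76 k191 4 7))))), (.s k8
  k4 1 (.s k89 k251 12 (.s k29 k46 4 (.s k149 k209 9 (.d k191 k127 k128 7 6)))))] (.c k64 (.l (.s
  k127 k191 7 (.s k8 k4 1 (.s k89 k251 12 (.s k166 k243 14 (.d k174 k162 k93 1 12)))))) (.c k127 (.q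
  k64 [(.s k8 k4 1 (.s k89 k251 12 (.s k166 k243 14 (.d k174 k162 k93 1 12)))), (.s k192 k128 7 (.s
  k72 k132 9 (.s k68 k76 1 (.s k136 k204 9 (.d k8 k4 k200 1 7))))), (.s k128 k192 7 (.s k29 k46 4
  (.s k174 k93 12 (.s k149 k191 6 (.s k89 k209 9 (.d k166 k243 k162 14 1))))))] (.c k93 (.l (.s k8
  k4 1 (.s k128 k192 7 (.s k89 k251 12 (.s k29 k46 4 (.d k149 k191 k209 6 9)))))) .n)) (.c k166 (.l
  (.s k46 k29 4 (.s k174 k93 12 (.s k110 k238 7 (.s k157 k204 12 (.d k191 k140 k127 4 7))))))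
  .n)))))

def t42_115 : T TT 256 :=
  (.f k255 k85 14 (.f k127 k191 7 (.q k240 [(.s k160 k80 11 (.s k165 k175 2 (.s k90 k15 14 (.d k250
  k245 k10 2 11)))), (.s k122 k181 10 (.s k117 k112 2 (.s k186 k48 10 (.d k250 k245 k58 2 7))))] (.c
  k245 (.l (.s k160 k80 11 (.s k122 k181 10 (.s k117 k112 2 (.s k186 k48 10 (.s k250 k58 7 (.s k165
  k175 2 (.d k90 k10 k15 11 14)))))))) (.c k250 (.l (.s k160 k80 11 (.s k175 k165 2 (.s k95 k15 11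
  (.s k111 k79 3 (.s k207 k159 11 (.d k239 k47 k223 7 3))))))) .n)))))

def t42_116 : T TT 256 :=
  (.f k255 k85 14 (.f k127 k191 7 (.q k240 [(.s k160 k80 11 (.s k165 k175 2 (.s k90 k15 14 (.d k250
  k245 k10 2 11)))), (.s k122 k181 10 (.s k117 k112 2 (.s k186 k48 10 (.d k250 k245 k58 2 7))))] (.c
  k245 (.l (.s k160 k80 11 (.s k122 k181 10 (.s k117 k112 2 (.s k186 k48 10 (.s k250 k58 7 (.s k165
  k175 2 (.d k90 k10 k15 11 14)))))))) (.c k250 (.l (.s k160 k80 11 (.s k175 k165 2 (.s k95 k15 11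
  (.s k111 k79 3 (.s k207 k159 11 (.d k239 k47 k223 7 3))))))) .n)))))

def t42_117 : T TT 256 :=
  (.q k130 [(.s k195 k65 8 (.s k85 k255 14 (.s k150 k190 5 (.s k20 k215 8 (.d k60 k40 k105 5
  14))))), (.s k195 k65 8 (.s k255 k85 14 (.s k107 k151 13 (.s k127 k191 7 (.s k87 k67 5 (.s k171 k3
  13 (.d k235 k215 k43 5 7)))))))] (.c k65 (.l (.s k255 k85 14 (.s k127 k191 7 (.s k190 k150 5 (.s
  k125 k60 8 (.s k126 k124 0 (.s k252 k189 8 (.d k254 k62 k253 7 0)))))))) (.c k85 (.f k150 k190 5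
  (.l (.s k195 k65 8 (.s k105 k60 14 (.s k235 k40 8 (.s k151 k107 13 (.s k149 k148 0 (.s k191 k128 6
  (.d k255 k215 k127 5 7))))))))) (.c k105 (.f k255 k85 14 (.l (.s k65 k195 8 (.s k190 k150 5 (.s
  k60 k125 8 (.s k62 k61 0 (.s k126 k254 7 (.s k189 k252 8 (.d k191 k188 k127 0 7))))))))) (.c k125
  (.l (.s k195 k65 8 (.s k85 k255 14 (.s k150 k190 5 (.s k60 k105 14 (.d k20 k40 k215 5 8)))))) (.c
  k195 (.l (.s k255 k85 14 (.s k190 k150 5 (.s k60 k125 8 (.s k62 k61 0 (.s k126 k254 7 (.s k189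
  k252 8 (.d k191 k127 k188 7 0)))))))) (.c k215 (.l (.s k195 k65 8 (.s k255 k85 14 (.s k151 k107 13
  (.s k150 k190 5 (.s k149 k148 0 (.d k191 k127 k128 7 6))))))) (.c k255 (.f k150 k190 5 (.l (.s
  k195 k65 8 (.s k151 k107 13 (.s k149 k148 0 (.s k128 k191 6 (.s k192 k64 7 (.s k193 k194 0 (.d
  k105 k61 k60 13 14))))))))) .n))))))))

def t42_118 : T TT 256 :=
  (.f k255 k85 14 (.f k127 k191 7 (.q k240 [(.s k160 k80 11 (.s k165 k175 2 (.s k90 k15 14 (.d k250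
  k245 k10 2 11)))), (.s k122 k181 10 (.s k117 k112 2 (.s k186 k48 10 (.d k250 k245 k58 2 7))))] (.c
  k245 (.l (.s k160 k80 11 (.s k122 k181 10 (.s k117 k112 2 (.s k186 k48 10 (.s k250 k58 7 (.s k165
  k175 2 (.d k90 k10 k15 11 14)))))))) (.c k250 (.l (.s k160 k80 11 (.s k175 k165 2 (.s k95 k15 11
  (.s k111 k79 3 (.s k207 k159 11 (.d k239 k47 k223 7 3))))))) .n)))))

def t42_119 : T TT 256 :=
  (.f k255 k85 14 (.f k127 k191 7 (.q k240 [(.s k122 k181 10 (.s k117 k112 2 (.s k186 k48 10 (.d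
  k250 k245 k58 2 7)))), (.s k160 k80 11 (.s k175 k165 2 (.s k95 k15 11 (.s k111 k79 3 (.s k207 k159
  11 (.d k239 k47 k223 7 3))))))] (.c k68 (.q k102 [(.s k122 k181 10 (.s k117 k112 2 (.s k186 k48 10
  (.d k250 k245 k58 2 7)))), (.s k160 k80 11 (.s k238 k34 9 (.s k165 k175 2 (.s k228 k39 8 (.d k204
  k221 k216 4 5)))))] .n) (.c k102 (.q k68 [(.s k122 k181 10 (.s k117 k112 2 (.s k186 k48 10 (.d
  k250 k245 k58 2 7)))), (.s k204 k136 9 (.s k110 k157 12 (.s k93 k76 4 (.s k174 k12 12 (.d k238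
  k221 k46 4 7)))))] (.c k98 (.q k110 [(.d k204 k136 k157 9 12), (.s k160 k80 11 (.s k165 k175 2 (.s
  k90 k15 14 (.d k250 k245 k10 2 11))))] .n) (.c k110 (.q k98 [(.s k122 k181 10 (.s k117 k112 2 (.s
  k186 k48 10 (.d k250 k245 k58 2 7)))), (.s k160 k80 11 (.s k175 k165 2 (.s k95 k15 11 (.s k111 k79
  3 (.s k207 k159 11 (.d k239 k47 k223 7 3))))))] (.c k245 (.l (.s k160 k80 11 (.s k122 k181 10 (.s
  k117 k112 2 (.s k186 k48 10 (.s k250 k58 7 (.s k165 k175 2 (.d k90 k10 k15 11 14)))))))) .n))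
  .n))) (.c k245 (.l (.s k160 k80 11 (.s k122 k181 10 (.s k117 k112 2 (.s k186 k48 10 (.s k250 k58 7
  (.s k165 k175 2 (.d k90 k10 k15 11 14)))))))) .n))))))

def t42_120 : T TT 256 :=
  (.f k255 k85 14 (.f k127 k191 7 (.q k111 [(.s k159 k207 11 (.s k95 k79 3 (.s k15 k175 11 (.d k31
  k47 k223 3 7)))), (.s k207 k159 11 (.s k138 k69 10 (.s k154 k186 3 (.s k101 k48 14 (.d k239 k223
  k32 3 10)))))] (.c k143 (.l (.s k159 k207 11 (.s k95 k79 3 (.s k15 k175 11 (.d k31 k47 k223 3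
  7))))) (.c k159 (.l (.s k95 k79 3 (.s k175 k15 11 (.s k239 k47 7 (.s k207 k223 3 (.s k138 k69 10
  (.s k154 k186 3 (.d k101 k32 k48 10 14)))))))) (.c k175 (.l (.s k79 k95 3 (.s k207 k159 11 (.s
  k143 k15 7 (.s k138 k69 10 (.s k154 k186 3 (.s k101 k48 14 (.d k239 k223 k32 3 10)))))))) (.c k207
  (.q k93 [(.s k12 k174 12 (.s k110 k76 4 (.s k157 k204 12 (.d k29 k46 k221 4 7)))), (.s k110 k76 4
  (.s k79 k95 3 (.s k109 k108 0 (.s k124 k94 4 (.d k125 k126 k77 0 3))))), (.s k12 k174 12 (.s k95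
  k79 3 (.s k15 k175 11 (.s k13 k14 0 (.s k173 k253 11 (.d k94 k92 k252 0 12))))))] .n) (.c k223 (.l
  (.s k207 k159 11 (.s k138 k69 10 (.s k95 k79 3 (.s k175 k15 11 (.s k239 k47 7 (.s k154 k186 3 (.d
  k101 k32 k48 10 14)))))))) .n))))))))

def t42_121 : T TT 256 :=
  (.f k255 k85 14 (.f k127 k191 7 (.q k240 [(.s k160 k80 11 (.s k165 k175 2 (.s k90 k15 14 (.d k250
  k245 k10 2 11)))), (.s k122 k181 10 (.s k117 k112 2 (.s k186 k48 10 (.d k250 k245 k58 2 7))))] (.c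
  k245 (.l (.s k160 k80 11 (.s k122 k181 10 (.s k117 k112 2 (.s k186 k48 10 (.s k250 k58 7 (.s k165
  k175 2 (.d k90 k10 k15 11 14)))))))) (.c k250 (.l (.s k160 k80 11 (.s k175 k165 2 (.s k95 k15 11
  (.s k111 k79 3 (.s k207 k159 11 (.d k239 k47 k223 7 3))))))) .n)))))

def t42_122 : T TT 256 :=
  (.f k255 k85 14 (.f k127 k191 7 (.q k110 [(.s k157 k204 12 (.s k93 k76 4 (.s k12 k174 12 (.d k29
  k46 k221 4 7)))), (.s k204 k157 12 (.s k136 k68 9 (.s k153 k187 4 (.s k102 k51 14 (.d k238 k221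
  k34 4 9)))))] (.c k74 (.q k90 [(.s k157 k204 12 (.s k93 k76 4 (.s k12 k174 12 (.d k29 k46 k221 4
  7)))), (.s k10 k250 11 (.s k15 k5 2 (.s k165 k240 14 (.d k175 k160 k95 2 11))))] .n) (.c k90 (.q
  k74 [(.s k157 k204 12 (.s k93 k76 4 (.s k12 k174 12 (.d k29 k46 k221 4 7)))), (.s k204 k157 12 (.s
  k136 k68 9 (.s k153 k187 4 (.s k102 k51 14 (.d k238 k221 k34 4 9)))))] (.c k80 (.q k95 [(.s k157
  k204 12 (.s k93 k76 4 (.s k12 k174 12 (.d k29 k46 k221 4 7)))), (.s k15 k175 11 (.s k31 k47 3 (.s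
  k159 k223 7 (.d k111 k79 k207 3 11))))] .n) (.c k95 (.q k80 [(.s k157 k204 12 (.s k93 k76 4 (.s
  k12 k174 12 (.d k29 k46 k221 4 7)))), (.s k204 k157 12 (.s k136 k68 9 (.s k153 k187 4 (.s k102 k51
  14 (.d k238 k221 k34 4 9))))), (.s k240 k160 11 (.s k93 k76 4 (.s k12 k174 12 (.s k8 k4 1 (.s k88
  k164 13 (.s k168 k248 11 (.d k84 k92 k252 1 13)))))))] (.c k140 (.l (.s k157 k204 12 (.s k93 k76 4
  (.s k12 k174 12 (.d k29 k46 k221 4 7))))) (.c k157 (.l (.s k93 k76 4 (.s k174 k12 12 (.s k238 k46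
  7 (.s k204 k221 4 (.s k136 k68 9 (.s k153 k187 4 (.d k102 k34 k51 9 14)))))))) (.c k174 (.l (.s
  k76 k93 4 (.s k204 k157 12 (.s k140 k12 7 (.s k136 k68 9 (.s k153 k187 4 (.s k102 k51 14 (.d k238
  k221 k34 4 9)))))))) .n)))) (.c k140 (.l (.s k157 k204 12 (.s k93 k76 4 (.s k12 k174 12 (.d k29
  k46 k221 4 7))))) (.c k157 (.l (.s k93 k76 4 (.s k174 k12 12 (.s k238 k46 7 (.s k204 k221 4 (.s
  k136 k68 9 (.s k153 k187 4 (.d k102 k34 k51 9 14)))))))) (.c k174 (.l (.s k76 k93 4 (.s k204 k157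
  12 (.s k140 k12 7 (.s k136 k68 9 (.s k153 k187 4 (.s k102 k51 14 (.d k238 k221 k34 4 9)))))))) (.c
  k204 (.q k95 [(.s k15 k175 11 (.s k192 k133 10 (.s k64 k128 7 (.d k79 k69 k111 2 3)))), (.s k93
  k76 4 (.s k79 k111 3 (.s k94 k92 0 (.s k124 k109 4 (.d k126 k125 k78 0 3))))), (.s k15 k175 11 (.s
  k47 k31 3 (.s k173 k236 8 (.s k93 k76 4 (.d k94 k252 k92 12 0)))))] .n) (.c k221 (.l (.s k204 k157
  12 (.s k136 k68 9 (.s k93 k76 4 (.s k174 k12 12 (.s k238 k46 7 (.s k153 k187 4 (.d k102 k34 k51 9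
  14)))))))) .n)))))))) (.c k140 (.l (.s k157 k204 12 (.s k93 k76 4 (.s k12 k174 12 (.d k29 k46 k221
  4 7))))) (.c k157 (.l (.s k93 k76 4 (.s k174 k12 12 (.s k238 k46 7 (.s k204 k221 4 (.s k136 k68 9
  (.s k153 k187 4 (.d k102 k34 k51 9 14)))))))) (.c k174 (.l (.s k76 k93 4 (.s k204 k157 12 (.s k140
  k12 7 (.s k136 k68 9 (.s k153 k187 4 (.s k102 k51 14 (.d k238 k221 k34 4 9)))))))) (.c k204 (.q
  k95 [(.s k15 k175 11 (.s k111 k79 3 (.s k159 k207 11 (.d k31 k47 k223 3 7)))), (.s k93 k76 4 (.s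
  k79 k111 3 (.s k94 k92 0 (.s k124 k109 4 (.d k126 k125 k78 0 3))))), (.s k15 k175 11 (.s k93 k76 4
  (.s k94 k92 0 (.s k252 k173 12 (.d k126 k78 k189 3 8)))))] (.c k74 (.q k90 [(.s k10 k250 11 (.d
  k15 k5 k175 2 11)), (.s k93 k76 4 (.s k79 k111 3 (.s k94 k92 0 (.s k124 k109 4 (.d k126 k125 k78 0
  3)))))] .n) (.c k90 (.q k74 [(.s k15 k175 11 (.s k192 k133 10 (.s k64 k128 7 (.d k79 k69 k111 2
  3)))), (.s k93 k76 4 (.s k79 k111 3 (.s k94 k92 0 (.s k124 k109 4 (.d k126 k125 k78 0 3))))), (.s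
  k15 k175 11 (.s k47 k31 3 (.s k173 k236 8 (.s k93 k76 4 (.d k94 k252 k92 12 0)))))] .n) .n))) (.c
  k221 (.l (.s k204 k157 12 (.s k136 k68 9 (.s k93 k76 4 (.s k174 k12 12 (.s k238 k46 7 (.s k153
  k187 4 (.d k102 k34 k51 9 14)))))))) .n))))))))))

def t42_123 : T TT 256 :=
  (.f k255 k85 14 (.f k127 k191 7 (.q k111 [(.s k159 k207 11 (.s k95 k79 3 (.s k15 k175 11 (.d k31
  k47 k223 3 7)))), (.s k207 k159 11 (.s k138 k69 10 (.s k154 k186 3 (.s k101 k48 14 (.d k239 k223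
  k32 3 10)))))] (.c k72 (.q k89 [(.s k159 k207 11 (.s k95 k79 3 (.s k15 k175 11 (.d k31 k47 k223 3
  7)))), (.s k8 k251 12 (.s k12 k4 1 (.s k166 k243 14 (.d k174 k162 k93 1 12))))] .n) (.c k89 (.q
  k72 [(.s k159 k207 11 (.s k95 k79 3 (.s k15 k175 11 (.d k31 k47 k223 3 7)))), (.s k207 k159 11 (.s
  k138 k69 10 (.s k154 k186 3 (.s k101 k48 14 (.d k239 k223 k32 3 10)))))] (.c k81 (.q k93 [(.s k159
  k207 11 (.s k95 k79 3 (.s k15 k175 11 (.d k31 k47 k223 3 7)))), (.s k12 k174 12 (.s k29 k46 4 (.s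
  k157 k221 7 (.d k110 k76 k204 4 12))))] .n) (.c k93 (.q k81 [(.s k159 k207 11 (.s k95 k79 3 (.s
  k15 k175 11 (.d k31 k47 k223 3 7)))), (.s k207 k159 11 (.s k138 k69 10 (.s k154 k186 3 (.s k101
  k48 14 (.d k239 k223 k32 3 10))))), (.s k243 k162 12 (.s k95 k79 3 (.s k15 k175 11 (.s k91 k167 13
  (.s k87 k83 1 (.s k171 k3 13 (.d k251 k247 k11 1 11)))))))] (.c k143 (.l (.s k159 k207 11 (.s k95
  k79 3 (.s k15 k175 11 (.d k31 k47 k223 3 7))))) (.c k159 (.l (.s k95 k79 3 (.s k175 k15 11 (.s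
  k239 k47 7 (.s k207 k223 3 (.s k138 k69 10 (.s k154 k186 3 (.d k101 k32 k48 10 14)))))))) (.c k175
  (.l (.s k79 k95 3 (.s k207 k159 11 (.s k143 k15 7 (.s k138 k69 10 (.s k154 k186 3 (.s k101 k48 14
  (.d k239 k223 k32 3 10)))))))) .n)))) (.c k143 (.l (.s k159 k207 11 (.s k95 k79 3 (.s k15 k175 11
  (.d k31 k47 k223 3 7))))) (.c k159 (.l (.s k95 k79 3 (.s k175 k15 11 (.s k239 k47 7 (.s k207 k223
  3 (.s k138 k69 10 (.s k154 k186 3 (.d k101 k32 k48 10 14)))))))) (.c k175 (.l (.s k79 k95 3 (.s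
  k207 k159 11 (.s k143 k15 7 (.s k138 k69 10 (.s k154 k186 3 (.s k101 k48 14 (.d k239 k223 k32 3
  10)))))))) (.c k207 (.q k93 [(.s k12 k174 12 (.s k192 k132 9 (.s k64 k128 7 (.d k76 k68 k110 1
  4)))), (.s k110 k76 4 (.s k79 k95 3 (.s k109 k108 0 (.s k124 k94 4 (.d k125 k126 k77 0 3)))))] (.c
  k76 (.l (.s k12 k174 12 (.s k8 k4 1 (.s k136 k200 7 (.s k204 k68 9 (.s k29 k46 4 (.d k157 k110
  k221 12 7))))))) (.c k110 (.l (.s k12 k174 12 (.s k4 k8 1 (.s k132 k192 9 (.s k68 k196 7 (.s k204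
  k136 9 (.d k76 k140 k64 7 1))))))) .n))) (.c k223 (.l (.s k207 k159 11 (.s k138 k69 10 (.s k95 k79
  3 (.s k175 k15 11 (.s k239 k47 7 (.s k154 k186 3 (.d k101 k32 k48 10 14)))))))) .n)))))))) (.c
  k143 (.l (.s k159 k207 11 (.s k95 k79 3 (.s k15 k175 11 (.d k31 k47 k223 3 7))))) (.c k159 (.l (.s
  k95 k79 3 (.s k175 k15 11 (.s k239 k47 7 (.s k207 k223 3 (.s k138 k69 10 (.s k154 k186 3 (.d k101
  k32 k48 10 14)))))))) (.c k175 (.l (.s k79 k95 3 (.s k207 k159 11 (.s k143 k15 7 (.s k138 k69 10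
  (.s k154 k186 3 (.s k101 k48 14 (.d k239 k223 k32 3 10)))))))) (.c k207 (.q k93 [(.s k12 k174 12
  (.s k110 k76 4 (.s k157 k204 12 (.d k29 k46 k221 4 7)))), (.s k110 k76 4 (.s k79 k95 3 (.s k109
  k108 0 (.s k124 k94 4 (.d k125 k126 k77 0 3))))), (.s k12 k174 12 (.s k95 k79 3 (.s k15 k175 11
  (.s k13 k14 0 (.s k173 k253 11 (.d k94 k92 k252 0 12))))))] (.c k72 (.q k89 [(.s k8 k251 12 (.d
  k12 k4 k174 1 12)), (.s k110 k76 4 (.s k79 k95 3 (.s k109 k108 0 (.s k124 k94 4 (.d k125 k126 k77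
  0 3)))))] .n) (.c k89 (.q k72 [(.s k12 k174 12 (.s k192 k132 9 (.s k64 k128 7 (.d k76 k68 k110 1
  4)))), (.s k110 k76 4 (.s k79 k95 3 (.s k109 k108 0 (.s k124 k94 4 (.d k125 k126 k77 0 3)))))] (.c
  k76 (.l (.s k12 k174 12 (.s k8 k4 1 (.s k136 k200 7 (.s k204 k68 9 (.s k29 k46 4 (.d k157 k110
  k221 12 7))))))) (.c k110 (.l (.s k12 k174 12 (.s k4 k8 1 (.s k132 k192 9 (.s k68 k196 7 (.s k204
  k136 9 (.d k76 k140 k64 7 1))))))) .n))) .n))) (.c k223 (.l (.s k207 k159 11 (.s k138 k69 10 (.s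
  k95 k79 3 (.s k175 k15 11 (.s k239 k47 7 (.s k154 k186 3 (.d k101 k32 k48 10 14))))))))
  .n))))))))))

def t42_124 : T TT 256 :=
  (.f k255 k85 14 (.f k127 k191 7 (.q k111 [(.s k159 k207 11 (.s k95 k79 3 (.s k15 k175 11 (.d k31
  k47 k223 3 7)))), (.s k207 k159 11 (.s k138 k69 10 (.s k154 k186 3 (.s k101 k48 14 (.d k239 k223
  k32 3 10)))))] (.c k143 (.l (.s k159 k207 11 (.s k95 k79 3 (.s k15 k175 11 (.d k31 k47 k223 3
  7))))) (.c k159 (.l (.s k95 k79 3 (.s k175 k15 11 (.s k239 k47 7 (.s k207 k223 3 (.s k138 k69 10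
  (.s k154 k186 3 (.d k101 k32 k48 10 14)))))))) (.c k175 (.l (.s k79 k95 3 (.s k207 k159 11 (.s
  k143 k15 7 (.s k138 k69 10 (.s k154 k186 3 (.s k101 k48 14 (.d k239 k223 k32 3 10)))))))) (.c k207
  (.q k93 [(.s k12 k174 12 (.s k110 k76 4 (.s k157 k204 12 (.d k29 k46 k221 4 7)))), (.s k12 k174 12
  (.s k95 k79 3 (.s k15 k175 11 (.s k13 k14 0 (.s k173 k253 11 (.d k94 k92 k252 0 12)))))), (.s k174
  k12 12 (.s k95 k79 3 (.s k15 k175 11 (.s k94 k92 0 (.s k254 k14 11 (.d k252 k253 k173 0 12))))))]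
  (.c k12 (.l (.s k110 k76 4 (.s k204 k157 12 (.s k136 k68 9 (.s k153 k187 4 (.s k102 k51 14 (.d
  k238 k221 k34 4 9))))))) (.c k92 (.l (.s k12 k174 12 (.s k29 k46 4 (.s k157 k221 7 (.d k110 k76
  k204 4 12))))) (.c k174 (.l (.s k110 k76 4 (.s k157 k204 12 (.s k95 k79 3 (.s k15 k175 11 (.s k31
  k47 3 (.d k94 k92 k220 0 8))))))) .n)))) (.c k223 (.l (.s k207 k159 11 (.s k138 k69 10 (.s k95 k79
  3 (.s k175 k15 11 (.s k239 k47 7 (.s k154 k186 3 (.d k101 k32 k48 10 14)))))))) .n))))))))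

def t42_125 : T TT 256 :=
  (.f k255 k85 14 (.f k127 k191 7 (.q k240 [(.s k122 k181 10 (.s k117 k112 2 (.s k186 k48 10 (.d
  k250 k245 k58 2 7)))), (.s k160 k80 11 (.s k175 k165 2 (.s k95 k15 11 (.s k111 k79 3 (.s k207 k159
  11 (.d k239 k47 k223 7 3))))))] (.c k65 (.q k105 [(.s k122 k181 10 (.s k117 k112 2 (.s k186 k48 10
  (.d k250 k245 k58 2 7)))), (.s k160 k80 11 (.s k235 k40 8 (.s k165 k175 2 (.s k225 k45 9 (.d k195
  k210 k215 4 5)))))] .n) (.c k105 (.q k65 [(.s k122 k181 10 (.s k117 k112 2 (.s k186 k48 10 (.d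
  k250 k245 k58 2 7)))), (.s k195 k130 8 (.s k107 k151 13 (.s k87 k67 5 (.s k171 k3 13 (.d k235 k215
  k43 5 7)))))] (.c k104 (.q k107 [(.d k195 k130 k151 8 13), (.s k160 k80 11 (.s k165 k175 2 (.s k90
  k15 14 (.d k250 k245 k10 2 11))))] .n) (.c k107 (.q k104 [(.s k122 k181 10 (.s k117 k112 2 (.s
  k186 k48 10 (.d k250 k245 k58 2 7)))), (.s k160 k80 11 (.s k175 k165 2 (.s k95 k15 11 (.s k111 k79
  3 (.s k207 k159 11 (.d k239 k47 k223 7 3))))))] (.c k245 (.l (.s k160 k80 11 (.s k122 k181 10 (.s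
  k117 k112 2 (.s k186 k48 10 (.s k250 k58 7 (.s k165 k175 2 (.d k90 k10 k15 11 14)))))))) .n))
  .n))) (.c k245 (.l (.s k160 k80 11 (.s k122 k181 10 (.s k117 k112 2 (.s k186 k48 10 (.s k250 k58 7
  (.s k165 k175 2 (.d k90 k10 k15 11 14)))))))) .n))))))

def t42_126 : T TT 256 :=
  (.f k255 k85 14 (.f k127 k191 7 (.q k111 [(.s k159 k207 11 (.s k95 k79 3 (.s k15 k175 11 (.d k31
  k47 k223 3 7)))), (.s k207 k159 11 (.s k138 k69 10 (.s k154 k186 3 (.s k101 k48 14 (.d k239 k223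
  k32 3 10)))))] (.c k66 (.q k86 [(.s k159 k207 11 (.s k95 k79 3 (.s k15 k175 11 (.d k31 k47 k223 3
  7)))), (.s k2 k254 13 (.s k3 k1 0 (.s k169 k252 14 (.d k171 k168 k87 0 13))))] .n) (.c k86 (.q k66
  [(.s k159 k207 11 (.s k95 k79 3 (.s k15 k175 11 (.d k31 k47 k223 3 7)))), (.s k207 k159 11 (.s
  k138 k69 10 (.s k154 k186 3 (.s k101 k48 14 (.d k239 k223 k32 3 10)))))] (.c k84 (.q k87 [(.s k159
  k207 11 (.s k95 k79 3 (.s k15 k175 11 (.d k31 k47 k223 3 7)))), (.s k3 k171 13 (.s k23 k43 5 (.s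
  k151 k215 7 (.d k107 k67 k195 5 13))))] .n) (.c k87 (.q k84 [(.s k159 k207 11 (.s k95 k79 3 (.s
  k15 k175 11 (.d k31 k47 k223 3 7)))), (.s k207 k159 11 (.s k138 k69 10 (.s k154 k186 3 (.s k101
  k48 14 (.d k239 k223 k32 3 10))))), (.s k252 k168 13 (.s k95 k79 3 (.s k15 k175 11 (.s k94 k173 12
  (.s k93 k92 0 (.s k174 k12 12 (.d k254 k253 k14 0 11)))))))] (.c k143 (.l (.s k159 k207 11 (.s k95
  k79 3 (.s k15 k175 11 (.d k31 k47 k223 3 7))))) (.c k159 (.l (.s k95 k79 3 (.s k175 k15 11 (.s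
  k239 k47 7 (.s k207 k223 3 (.s k138 k69 10 (.s k154 k186 3 (.d k101 k32 k48 10 14)))))))) (.c k175
  (.l (.s k79 k95 3 (.s k207 k159 11 (.s k143 k15 7 (.s k138 k69 10 (.s k154 k186 3 (.s k101 k48 14
  (.d k239 k223 k32 3 10)))))))) .n)))) (.c k143 (.l (.s k159 k207 11 (.s k95 k79 3 (.s k15 k175 11
  (.d k31 k47 k223 3 7))))) (.c k159 (.l (.s k95 k79 3 (.s k175 k15 11 (.s k239 k47 7 (.s k207 k223
  3 (.s k138 k69 10 (.s k154 k186 3 (.d k101 k32 k48 10 14)))))))) (.c k175 (.l (.s k79 k95 3 (.s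
  k207 k159 11 (.s k143 k15 7 (.s k138 k69 10 (.s k154 k186 3 (.s k101 k48 14 (.d k239 k223 k32 3
  10)))))))) (.c k207 (.q k87 [(.s k3 k171 13 (.s k192 k129 8 (.s k64 k128 7 (.d k67 k65 k107 0
  5)))), (.s k107 k67 5 (.s k79 k95 3 (.s k103 k99 1 (.s k115 k91 5 (.d k119 k123 k71 1 3)))))] (.c
  k67 (.l (.s k3 k171 13 (.s k2 k1 0 (.s k130 k194 7 (.s k195 k65 8 (.s k23 k43 5 (.d k151 k107 k215
  13 7))))))) (.c k107 (.l (.s k3 k171 13 (.s k1 k2 0 (.s k129 k192 8 (.s k65 k193 7 (.s k195 k130 8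
  (.d k67 k131 k64 7 0))))))) .n))) (.c k223 (.l (.s k207 k159 11 (.s k138 k69 10 (.s k95 k79 3 (.s
  k175 k15 11 (.s k239 k47 7 (.s k154 k186 3 (.d k101 k32 k48 10 14)))))))) .n)))))))) (.c k143 (.l
  (.s k159 k207 11 (.s k95 k79 3 (.s k15 k175 11 (.d k31 k47 k223 3 7))))) (.c k159 (.l (.s k95 k79
  3 (.s k175 k15 11 (.s k239 k47 7 (.s k207 k223 3 (.s k138 k69 10 (.s k154 k186 3 (.d k101 k32 k48
  10 14)))))))) (.c k175 (.l (.s k79 k95 3 (.s k207 k159 11 (.s k143 k15 7 (.s k138 k69 10 (.s k154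
  k186 3 (.s k101 k48 14 (.d k239 k223 k32 3 10)))))))) (.c k207 (.q k87 [(.s k3 k171 13 (.s k107
  k67 5 (.s k151 k195 13 (.d k23 k43 k215 5 7)))), (.s k107 k67 5 (.s k79 k95 3 (.s k103 k99 1 (.s
  k115 k91 5 (.d k119 k123 k71 1 3))))), (.s k3 k171 13 (.s k95 k79 3 (.s k15 k175 11 (.s k7 k11 1
  (.s k167 k247 11 (.d k91 k83 k243 1 13))))))] (.c k66 (.q k86 [(.s k2 k254 13 (.d k3 k1 k171 0
  13)), (.s k107 k67 5 (.s k79 k95 3 (.s k103 k99 1 (.s k115 k91 5 (.d k119 k123 k71 1 3)))))] .n)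
  (.c k86 (.q k66 [(.s k3 k171 13 (.s k192 k129 8 (.s k64 k128 7 (.d k67 k65 k107 0 5)))), (.s k107
  k67 5 (.s k79 k95 3 (.s k103 k99 1 (.s k115 k91 5 (.d k119 k123 k71 1 3)))))] (.c k67 (.l (.s k3
  k171 13 (.s k2 k1 0 (.s k130 k194 7 (.s k195 k65 8 (.s k23 k43 5 (.d k151 k107 k215 13 7)))))))
  (.c k107 (.l (.s k3 k171 13 (.s k1 k2 0 (.s k129 k192 8 (.s k65 k193 7 (.s k195 k130 8 (.d k67
  k131 k64 7 0))))))) .n))) .n))) (.c k223 (.l (.s k207 k159 11 (.s k138 k69 10 (.s k95 k79 3 (.s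
  k175 k15 11 (.s k239 k47 7 (.s k154 k186 3 (.d k101 k32 k48 10 14)))))))) .n))))))))))

def t42_127 : T TT 256 :=
  (.f k85 k255 14 (.q k240 [(.s k160 k80 11 (.s k165 k175 2 (.s k5 k245 11 (.d k15 k10 k90 2 14))))]
  (.c k5 (.q k105 [(.s k40 k235 8 (.s k60 k20 5 (.s k195 k150 14 (.d k65 k125 k130 5 8)))), (.s k160
  k80 11 (.s k165 k175 2 (.s k225 k45 9 (.s k195 k210 4 (.d k65 k125 k130 5 8))))), (.s k80 k160 11
  (.s k90 k95 2 (.s k120 k75 4 (.s k60 k180 9 (.d k40 k20 k235 5 8)))))] .n) (.c k10 (.q k105 [(.s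
  k40 k235 8 (.s k60 k20 5 (.s k195 k150 14 (.d k65 k125 k130 5 8)))), (.s k160 k80 11 (.s k165 k175
  2 (.s k225 k45 9 (.s k195 k210 4 (.d k65 k125 k130 5 8))))), (.s k80 k160 11 (.s k90 k95 2 (.s
  k120 k75 4 (.s k60 k180 9 (.d k40 k20 k235 5 8)))))] (.c k26 (.q k58 [(.s k40 k235 8 (.s k60 k20 5
  (.s k195 k150 14 (.d k65 k125 k130 5 8)))), (.s k160 k80 11 (.s k53 k48 2 (.s k181 k122 10 (.s
  k165 k175 2 (.d k245 k117 k5 7 11)))))] .n) (.c k58 (.q k26 [(.s k40 k235 8 (.s k60 k20 5 (.s k195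
  k150 14 (.d k65 k125 k130 5 8)))), (.s k160 k80 11 (.s k165 k175 2 (.s k225 k45 9 (.s k195 k210 4
  (.d k65 k125 k130 5 8))))), (.s k80 k160 11 (.s k90 k95 2 (.s k120 k75 4 (.s k60 k180 9 (.d k40
  k20 k235 5 8)))))] (.c k154 (.q k202 [(.s k40 k235 8 (.s k60 k20 5 (.s k65 k125 5 (.d k195 k130
  k150 8 14)))), (.s k160 k80 11 (.s k165 k175 2 (.s k225 k45 9 (.s k195 k210 4 (.d k65 k125 k130 5
  8))))), (.s k80 k160 11 (.s k90 k95 2 (.s k120 k75 4 (.s k60 k180 9 (.d k40 k20 k235 5 8)))))] .n)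
  (.c k202 (.q k154 [(.s k80 k160 11 (.d k90 k95 k218 2 7)), (.s k16 k223 10 (.s k48 k32 3 (.s k31
  k21 2 (.d k15 k47 k37 3 6))))] (.c k74 (.l (.s k138 k186 3 (.s k207 k69 10 (.d k218 k229 k90 6
  7)))) (.c k138 (.q k74 [(.s k80 k160 11 (.d k90 k95 k218 2 7)), (.s k16 k223 10 (.s k48 k32 3 (.s
  k31 k21 2 (.d k15 k47 k37 3 6))))] .n) .n))) .n))) .n))) (.c k15 (.q k32 [(.s k48 k16 3 (.s k101
  k239 10 (.s k207 k154 14 (.d k69 k117 k138 3 10)))), (.s k48 k16 3 (.s k160 k80 11 (.s k96 k224 7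
  (.s k144 k192 11 (.d k176 k128 k112 3 7))))), (.s k160 k80 11 (.s k101 k239 10 (.s k181 k122 10
  (.s k117 k69 3 (.s k245 k53 7 (.d k165 k175 k5 2 11))))))] (.c k95 (.q k175 [(.d k160 k165 k80 2
  11), (.s k48 k16 3 (.s k101 k239 10 (.s k207 k154 14 (.d k69 k117 k138 3 10))))] (.c k79 (.q k111
  [(.d k239 k47 k101 7 10), (.d k160 k165 k80 2 11)] (.c k143 (.l (.s k207 k159 11 (.d k239 k47 k101
  7 10))) (.c k207 (.q k143 [(.d k239 k47 k101 7 10), (.d k160 k165 k80 2 11)] (.c k223 (.l (.d k239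
  k47 k101 7 10)) (.c k239 (.q k223 [(.d k16 k48 k154 3 10), (.d k160 k165 k80 2 11)] .n) .n)))
  .n))) (.c k111 (.q k79 [(.d k160 k165 k80 2 11), (.s k48 k16 3 (.s k101 k239 10 (.d k112 k90 k176
  6 7)))] (.c k96 (.l (.s k101 k239 10 (.d k160 k165 k80 2 11))) (.c k101 (.q k96 [(.d k160 k165
  k224 2 7), (.s k48 k16 3 (.s k112 k176 7 (.s k64 k80 3 (.d k192 k144 k128 11 7))))] .n) .n)))
  .n))) (.c k175 (.q k95 [(.d k80 k90 k160 2 11), (.s k48 k16 3 (.s k101 k239 10 (.s k207 k154 14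
  (.d k69 k117 k138 3 10))))] .n) .n))) (.c k80 (.q k62 [(.s k60 k61 0 (.s k40 k20 5 (.s k105 k235 8
  (.s k195 k150 14 (.d k65 k125 k130 5 8))))), (.s k122 k181 10 (.s k242 k182 9 (.s k243 k241 0 (.s
  k81 k162 12 (.s k89 k93 1 (.s k8 k251 12 (.d k12 k4 k166 1 14)))))))] (.c k61 (.q k154 [(.s k138
  k186 3 (.s k207 k69 10 (.s k16 k223 10 (.d k48 k32 k101 3 14)))), (.s k181 k122 10 (.s k186 k138 3
  (.s k176 k191 2 (.s k165 k143 6 (.s k5 k245 11 (.d k15 k90 k10 14 2)))))), (.s k16 k223 10 (.s k48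
  k32 3 (.s k176 k112 7 (.s k165 k143 6 (.s k5 k245 11 (.d k15 k10 k90 2 14))))))] (.c k117 (.l (.s
  k16 k223 10 (.s k48 k32 3 (.s k207 k101 14 (.d k138 k186 k69 3 10))))) .n)) .n)) (.c k90 (.q k105
  [(.s k40 k235 8 (.s k60 k20 5 (.s k65 k125 5 (.d k195 k130 k150 8 14)))), (.s k160 k80 11 (.s k165
  k175 2 (.s k225 k45 9 (.s k195 k210 4 (.d k65 k125 k130 5 8))))), (.s k160 k80 11 (.s k165 k175 2
  (.s k5 k245 11 (.s k15 k10 2 (.s k45 k225 9 (.s k60 k30 4 (.d k40 k20 k235 5 8)))))))] (.c k74 (.l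
  (.s k122 k181 10 (.s k40 k235 8 (.s k60 k20 5 (.s k195 k150 14 (.d k65 k125 k130 5 8)))))) (.c
  k122 (.q k74 [(.s k40 k235 8 (.s k60 k20 5 (.s k65 k125 5 (.d k195 k130 k150 8 14)))), (.s k160
  k80 11 (.s k165 k175 2 (.s k225 k45 9 (.s k195 k210 4 (.d k65 k125 k130 5 8))))), (.s k160 k80 11
  (.s k165 k175 2 (.s k5 k245 11 (.s k15 k10 2 (.s k45 k225 9 (.s k60 k30 4 (.d k40 k20 k235 5
  8)))))))] (.c k112 (.q k117 [(.s k40 k235 8 (.s k60 k20 5 (.s k65 k125 5 (.d k195 k130 k150 8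
  14)))), (.s k125 k65 5 (.s k101 k69 3 (.s k109 k97 1 (.s k77 k93 3 (.d k113 k121 k89 1 5))))), (.s
  k160 k80 11 (.s k40 k235 8 (.s k60 k20 5 (.s k195 k150 14 (.s k165 k175 2 (.d k225 k210 k45 4
  9))))))] (.c k79 (.l (.s k101 k69 3 (.s k40 k235 8 (.s k60 k20 5 (.s k195 k150 14 (.d k65 k125
  k130 5 8)))))) (.c k101 (.q k79 [(.s k40 k235 8 (.s k60 k20 5 (.s k65 k125 5 (.d k195 k130 k150 8
  14)))), (.s k69 k64 2 (.s k207 k138 10 (.s k15 k143 7 (.s k5 k10 2 (.d k133 k197 k192 7 10)))))]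
  (.c k96 (.q k111 [(.s k207 k159 11 (.d k69 k64 k138 2 10)), (.s k80 k160 11 (.s k40 k235 8 (.s k60
  k20 5 (.s k195 k150 14 (.d k65 k125 k130 5 8)))))] (.c k64 (.l (.s k80 k160 11 (.s k40 k235 8 (.s
  k60 k20 5 (.s k195 k150 14 (.d k65 k125 k130 5 8)))))) (.c k80 (.l (.s k64 k69 2 (.s k192 k128 7
  (.s k15 k133 10 (.d k207 k143 k159 7 11))))) .n))) (.c k111 (.q k96 [(.s k160 k80 11 (.s k64 k69 2
  (.s k192 k128 7 (.d k224 k208 k32 3 7)))), (.s k40 k235 8 (.s k60 k20 5 (.s k195 k150 14 (.d k65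
  k125 k130 5 8))))] .n) .n))) .n))) (.c k117 (.q k112 [(.s k40 k235 8 (.s k60 k20 5 (.s k195 k150
  14 (.d k65 k125 k130 5 8)))), (.s k80 k160 11 (.s k48 k176 7 (.s k16 k32 3 (.s k144 k208 7 (.d k96
  k64 k192 3 11)))))] (.c k48 (.q k186 [(.s k40 k235 8 (.s k60 k20 5 (.s k195 k150 14 (.d k65 k125
  k130 5 8)))), (.s k80 k160 11 (.s k64 k96 3 (.s k69 k79 2 (.d k138 k154 k207 3 10))))] .n) (.c
  k186 (.l (.s k48 k176 7 (.s k16 k32 3 (.s k80 k160 11 (.s k144 k208 7 (.d k96 k64 k192 3 11))))))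
  .n))) (.c k150 (.l (.s k160 k80 11 (.s k65 k125 5 (.s k195 k130 8 (.s k165 k175 2 (.d k225 k210
  k45 4 9)))))) .n)))) (.c k150 (.l (.s k160 k80 11 (.s k65 k125 5 (.s k195 k130 8 (.s k165 k175 2
  (.d k225 k210 k45 4 9)))))) .n)))) (.c k95 (.l (.s k160 k80 11 (.s k165 k175 2 (.s k15 k90 14 (.d
  k5 k10 k245 2 11))))) (.c k160 (.q k62 [(.s k60 k61 0 (.s k40 k20 5 (.s k105 k235 8 (.s k195 k150
  14 (.d k65 k125 k130 5 8))))), (.s k122 k181 10 (.s k242 k182 9 (.s k243 k241 0 (.s k81 k162 12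
  (.s k89 k93 1 (.s k8 k251 12 (.d k12 k4 k166 1 14)))))))] (.c k61 (.q k117 [(.s k181 k122 10 (.s
  k53 k245 7 (.s k101 k69 3 (.s k32 k239 10 (.d k48 k58 k16 2 3))))), (.s k181 k122 10 (.s k245 k53
  7 (.s k5 k165 11 (.s k69 k101 3 (.s k207 k138 10 (.s k197 k133 7 (.d k229 k213 k218 3 6))))))),
  (.s k101 k69 3 (.s k32 k239 10 (.s k48 k16 3 (.s k112 k176 7 (.s k90 k79 6 (.s k10 k250 11 (.d k15
  k5 k165 2 14))))))), (.s k181 k122 10 (.s k53 k245 7 (.s k48 k58 2 (.s k16 k32 3 (.s k154 k223 10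
  (.s k176 k112 7 (.d k186 k191 k138 2 3))))))), (.s k101 k69 3 (.s k32 k239 10 (.s k48 k16 3 (.s
  k53 k58 2 (.d k181 k245 k122 7 10)))))] (.c k207 (.l (.s k181 k122 10 (.s k53 k245 7 (.s k48 k58 2
  (.s k32 k16 3 (.d k101 k69 k239 3 10)))))) .n)) .n)) (.c k165 (.q k224 [(.s k160 k80 11 (.s k96
  k32 7 (.s k192 k208 3 (.s k128 k64 7 (.d k144 k176 k48 3 11))))), (.s k80 k160 11 (.s k90 k95 2
  (.s k10 k250 11 (.s k15 k5 2 (.s k208 k192 3 (.d k31 k47 k149 3 10)))))), (.s k160 k80 11 (.s k32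
  k96 7 (.s k101 k239 10 (.s k69 k117 3 (.s k207 k138 10 (.d k48 k16 k154 3 14))))))] (.c k80 (.l
  (.s k181 k122 10 (.s k192 k208 3 (.s k128 k64 7 (.s k191 k149 6 (.s k176 k186 2 (.s k144 k160 3
  (.d k48 k112 k96 7 11)))))))) (.c k160 (.q k117 [(.s k181 k122 10 (.s k53 k245 7 (.s k101 k69 3
  (.s k32 k239 10 (.d k48 k58 k16 2 3))))), (.s k181 k122 10 (.s k53 k245 7 (.s k101 k69 3 (.s k149
  k197 11 (.s k128 k191 6 (.d k192 k208 k64 3 7)))))), (.s k69 k101 3 (.s k138 k207 10 (.s k192 k208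
  3 (.s k64 k128 7 (.s k74 k79 2 (.s k10 k202 7 (.d k15 k5 k133 2 10))))))), (.s k181 k122 10 (.s
  k53 k245 7 (.s k48 k58 2 (.s k16 k32 3 (.s k154 k223 10 (.s k176 k112 7 (.d k186 k191 k138 2
  3))))))), (.s k101 k69 3 (.s k32 k239 10 (.s k48 k16 3 (.s k53 k58 2 (.d k181 k245 k122 7 10)))))]
  .n) .n))) (.c k175 (.l (.s k80 k160 11 (.s k90 k95 2 (.s k15 k165 14 (.d k10 k5 k250 2 11))))) (.c
  k245 (.l (.s k80 k160 11 (.s k90 k95 2 (.s k10 k250 11 (.d k15 k5 k165 2 14))))) .n))))))))))))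

def t42_128 : T TT 256 :=
  (.f k255 k85 14 (.f k127 k191 7 (.q k111 [(.s k159 k207 11 (.s k95 k79 3 (.s k15 k175 11 (.d k31
  k47 k223 3 7)))), (.s k207 k159 11 (.s k138 k69 10 (.s k154 k186 3 (.s k101 k48 14 (.d k239 k223
  k32 3 10)))))] (.c k143 (.l (.s k159 k207 11 (.s k95 k79 3 (.s k15 k175 11 (.d k31 k47 k223 3
  7))))) (.c k159 (.l (.s k95 k79 3 (.s k175 k15 11 (.s k239 k47 7 (.s k207 k223 3 (.s k138 k69 10
  (.s k154 k186 3 (.d k101 k32 k48 10 14)))))))) (.c k175 (.l (.s k79 k95 3 (.s k207 k159 11 (.s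
  k143 k15 7 (.s k138 k69 10 (.s k154 k186 3 (.s k101 k48 14 (.d k239 k223 k32 3 10)))))))) (.c k207
  (.q k87 [(.s k3 k171 13 (.s k107 k67 5 (.s k151 k195 13 (.d k23 k43 k215 5 7)))), (.s k107 k67 5
  (.s k79 k95 3 (.s k103 k99 1 (.s k115 k91 5 (.d k119 k123 k71 1 3))))), (.s k3 k171 13 (.s k95 k79
  3 (.s k15 k175 11 (.s k7 k11 1 (.s k167 k247 11 (.d k91 k83 k243 1 13))))))] .n) (.c k223 (.l (.s
  k207 k159 11 (.s k138 k69 10 (.s k95 k79 3 (.s k175 k15 11 (.s k239 k47 7 (.s k154 k186 3 (.d k101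
  k32 k48 10 14)))))))) .n))))))))

def t42_129 : T TT 256 :=
  (.f k255 k85 14 (.f k127 k191 7 (.q k111 [(.s k159 k207 11 (.s k95 k79 3 (.s k15 k175 11 (.d k31
  k47 k223 3 7)))), (.s k207 k159 11 (.s k138 k69 10 (.s k154 k186 3 (.s k101 k48 14 (.d k239 k223
  k32 3 10)))))] (.c k143 (.l (.s k159 k207 11 (.s k95 k79 3 (.s k15 k175 11 (.d k31 k47 k223 3
  7))))) (.c k159 (.l (.s k95 k79 3 (.s k175 k15 11 (.s k239 k47 7 (.s k207 k223 3 (.s k138 k69 10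
  (.s k154 k186 3 (.d k101 k32 k48 10 14)))))))) (.c k175 (.l (.s k79 k95 3 (.s k207 k159 11 (.s
  k143 k15 7 (.s k138 k69 10 (.s k154 k186 3 (.s k101 k48 14 (.d k239 k223 k32 3 10)))))))) (.c k207
  (.q k87 [(.s k3 k171 13 (.s k107 k67 5 (.s k151 k195 13 (.d k23 k43 k215 5 7)))), (.s k107 k67 5
  (.s k79 k95 3 (.s k103 k99 1 (.s k115 k91 5 (.d k119 k123 k71 1 3))))), (.s k3 k171 13 (.s k95 k79
  3 (.s k15 k175 11 (.s k7 k11 1 (.s k167 k247 11 (.d k91 k83 k243 1 13))))))] .n) (.c k223 (.l (.s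
  k207 k159 11 (.s k138 k69 10 (.s k95 k79 3 (.s k175 k15 11 (.s k239 k47 7 (.s k154 k186 3 (.d k101
  k32 k48 10 14)))))))) .n))))))))

def t42_130 : T TT 256 :=
  (.f k255 k85 14 (.f k127 k191 7 (.q k111 [(.s k159 k207 11 (.s k95 k79 3 (.s k15 k175 11 (.d k31
  k47 k223 3 7)))), (.s k207 k159 11 (.s k138 k69 10 (.s k154 k186 3 (.s k101 k48 14 (.d k239 k223
  k32 3 10)))))] (.c k143 (.l (.s k159 k207 11 (.s k95 k79 3 (.s k15 k175 11 (.d k31 k47 k223 3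
  7))))) (.c k159 (.l (.s k95 k79 3 (.s k175 k15 11 (.s k239 k47 7 (.s k207 k223 3 (.s k138 k69 10
  (.s k154 k186 3 (.d k101 k32 k48 10 14)))))))) (.c k175 (.l (.s k79 k95 3 (.s k207 k159 11 (.s
  k143 k15 7 (.s k138 k69 10 (.s k154 k186 3 (.s k101 k48 14 (.d k239 k223 k32 3 10)))))))) (.c k207
  (.q k87 [(.s k3 k171 13 (.s k107 k67 5 (.s k151 k195 13 (.d k23 k43 k215 5 7)))), (.s k107 k67 5
  (.s k79 k95 3 (.s k103 k99 1 (.s k115 k91 5 (.d k119 k123 k71 1 3))))), (.s k3 k171 13 (.s k95 k79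
  3 (.s k15 k175 11 (.s k7 k11 1 (.s k167 k247 11 (.d k91 k83 k243 1 13))))))] .n) (.c k223 (.l (.s
  k207 k159 11 (.s k138 k69 10 (.s k95 k79 3 (.s k175 k15 11 (.s k239 k47 7 (.s k154 k186 3 (.d k101
  k32 k48 10 14)))))))) .n))))))))

def t42_131 : T TT 256 :=
  (.f k255 k85 14 (.q k12 [(.s k8 k4 1 (.s k89 k251 12 (.s k166 k243 14 (.d k174 k162 k93 1 12)))),
  (.s k29 k46 4 (.s k93 k174 12 (.s k157 k221 7 (.s k110 k204 12 (.d k127 k76 k191 4 7))))), (.s k8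
  k4 1 (.s k89 k251 12 (.s k29 k46 4 (.s k149 k209 9 (.d k191 k127 k128 7 6)))))] (.c k64 (.l (.s
  k127 k191 7 (.s k8 k4 1 (.s k89 k251 12 (.s k166 k243 14 (.d k174 k162 k93 1 12)))))) (.c k127 (.q
  k64 [(.s k8 k4 1 (.s k89 k251 12 (.s k166 k243 14 (.d k174 k162 k93 1 12)))), (.s k192 k128 7 (.s
  k72 k132 9 (.s k68 k76 1 (.s k136 k204 9 (.d k8 k4 k200 1 7))))), (.s k128 k192 7 (.s k29 k46 4
  (.s k174 k93 12 (.s k149 k191 6 (.s k89 k209 9 (.d k166 k243 k162 14 1))))))] (.c k93 (.l (.s k8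
  k4 1 (.s k128 k192 7 (.s k89 k251 12 (.s k29 k46 4 (.d k149 k191 k209 6 9)))))) .n)) (.c k166 (.l
  (.s k46 k29 4 (.s k174 k93 12 (.s k110 k238 7 (.s k157 k204 12 (.d k191 k140 k127 4 7))))))
  .n)))))

def t42_132 : T TT 256 :=
  (.f k255 k85 14 (.q k12 [(.s k174 k93 12 (.s k166 k162 1 (.s k89 k243 14 (.d k8 k4 k251 1 12)))),
  (.s k29 k46 4 (.s k93 k174 12 (.s k157 k221 7 (.s k110 k204 12 (.d k127 k76 k191 4 7))))), (.s k8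
  k4 1 (.s k89 k251 12 (.s k29 k46 4 (.s k149 k209 9 (.d k191 k127 k128 7 6)))))] (.c k64 (.l (.s
  k127 k191 7 (.s k8 k4 1 (.s k89 k251 12 (.s k166 k243 14 (.d k174 k162 k93 1 12)))))) (.c k127 (.q
  k64 [(.s k8 k4 1 (.s k89 k251 12 (.s k166 k243 14 (.d k174 k162 k93 1 12)))), (.s k128 k192 7 (.s
  k46 k29 4 (.s k174 k93 12 (.s k110 k238 7 (.s k157 k204 12 (.d k191 k140 k149 4 6)))))), (.s k8 k4
  1 (.s k128 k192 7 (.s k89 k251 12 (.s k29 k46 4 (.d k149 k191 k209 6 9)))))] (.c k89 (.f k93 k174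
  12 (.l (.s k128 k192 7 (.s k29 k46 4 (.s k157 k221 7 (.s k149 k191 6 (.s k153 k145 1 (.s k136 k187
  4 (.d k204 k110 k68 12 9))))))))) (.c k196 (.l (.s k174 k93 12 (.s k166 k162 1 (.s k89 k243 14 (.d
  k8 k4 k251 1 12))))) .n))) (.c k166 (.l (.s k46 k29 4 (.s k174 k93 12 (.s k110 k238 7 (.s k157
  k204 12 (.d k191 k140 k127 4 7)))))) .n)))))

def t42_133 : T TT 256 :=
  (.f k255 k85 14 (.q k12 [(.s k8 k4 1 (.s k89 k251 12 (.s k166 k243 14 (.d k174 k162 k93 1 12)))),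
  (.s k29 k46 4 (.s k93 k174 12 (.s k157 k221 7 (.s k110 k204 12 (.d k127 k76 k191 4 7))))), (.s k8
  k4 1 (.s k89 k251 12 (.s k29 k46 4 (.s k149 k209 9 (.d k191 k127 k128 7 6)))))] (.c k64 (.l (.s
  k127 k191 7 (.s k8 k4 1 (.s k89 k251 12 (.s k166 k243 14 (.d k174 k162 k93 1 12)))))) (.c k127 (.q
  k64 [(.s k8 k4 1 (.s k89 k251 12 (.s k166 k243 14 (.d k174 k162 k93 1 12)))), (.s k192 k128 7 (.s
  k72 k132 9 (.s k68 k76 1 (.s k136 k204 9 (.d k8 k4 k200 1 7))))), (.s k128 k192 7 (.s k29 k46 4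
  (.s k174 k93 12 (.s k149 k191 6 (.s k89 k209 9 (.d k166 k243 k162 14 1))))))] (.c k93 (.l (.s k8
  k4 1 (.s k128 k192 7 (.s k89 k251 12 (.s k29 k46 4 (.d k149 k191 k209 6 9)))))) .n)) (.c k166 (.l
  (.s k46 k29 4 (.s k174 k93 12 (.s k110 k238 7 (.s k157 k204 12 (.d k191 k140 k127 4 7))))))
  .n)))))

def t42_134 : T TT 256 :=
  (.f k255 k85 14 (.q k12 [(.s k174 k93 12 (.s k166 k162 1 (.s k89 k243 14 (.d k8 k4 k251 1 12)))),
  (.s k29 k46 4 (.s k93 k174 12 (.s k157 k221 7 (.s k110 k204 12 (.d k127 k76 k191 4 7))))), (.s k8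
  k4 1 (.s k89 k251 12 (.s k29 k46 4 (.s k149 k209 9 (.d k191 k127 k128 7 6)))))] (.c k64 (.l (.s
  k127 k191 7 (.s k8 k4 1 (.s k89 k251 12 (.s k166 k243 14 (.d k174 k162 k93 1 12)))))) (.c k127 (.q
  k64 [(.s k8 k4 1 (.s k89 k251 12 (.s k166 k243 14 (.d k174 k162 k93 1 12)))), (.s k192 k128 7 (.s
  k72 k132 9 (.s k68 k76 1 (.s k136 k204 9 (.d k8 k4 k200 1 7))))), (.s k128 k192 7 (.s k29 k46 4
  (.s k174 k93 12 (.s k149 k191 6 (.s k89 k209 9 (.d k166 k243 k162 14 1))))))] (.c k93 (.l (.s k8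
  k4 1 (.s k128 k192 7 (.s k89 k251 12 (.s k29 k46 4 (.d k149 k191 k209 6 9)))))) .n)) (.c k166 (.l
  (.s k46 k29 4 (.s k174 k93 12 (.s k110 k238 7 (.s k157 k204 12 (.d k191 k140 k127 4 7))))))
  .n)))))

def t42_135 : T TT 256 :=
  (.f k255 k85 14 (.q k12 [(.s k8 k4 1 (.s k89 k251 12 (.s k166 k243 14 (.d k174 k162 k93 1 12)))),
  (.s k29 k46 4 (.s k93 k174 12 (.s k157 k221 7 (.s k110 k204 12 (.d k127 k76 k191 4 7))))), (.s k8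
  k4 1 (.s k89 k251 12 (.s k29 k46 4 (.s k149 k209 9 (.d k191 k127 k128 7 6)))))] (.c k64 (.l (.s
  k127 k191 7 (.s k8 k4 1 (.s k89 k251 12 (.s k166 k243 14 (.d k174 k162 k93 1 12)))))) (.c k127 (.q
  k64 [(.s k8 k4 1 (.s k89 k251 12 (.s k166 k243 14 (.d k174 k162 k93 1 12)))), (.s k192 k128 7 (.s
  k72 k132 9 (.s k68 k76 1 (.s k136 k204 9 (.d k8 k4 k200 1 7))))), (.s k128 k192 7 (.s k29 k46 4
  (.s k174 k93 12 (.s k149 k191 6 (.s k89 k209 9 (.d k166 k243 k162 14 1))))))] (.c k93 (.l (.s k8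
  k4 1 (.s k128 k192 7 (.s k89 k251 12 (.s k29 k46 4 (.d k149 k191 k209 6 9)))))) .n)) (.c k166 (.l
  (.s k46 k29 4 (.s k174 k93 12 (.s k110 k238 7 (.s k157 k204 12 (.d k191 k140 k127 4 7))))))
  .n)))))

def t42_136 : T TT 256 :=
  (.f k255 k85 14 (.q k12 [(.s k8 k4 1 (.s k89 k251 12 (.s k166 k243 14 (.d k174 k162 k93 1 12)))),
  (.s k29 k46 4 (.s k93 k174 12 (.s k157 k221 7 (.s k110 k204 12 (.d k127 k76 k191 4 7))))), (.s k8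
  k4 1 (.s k89 k251 12 (.s k29 k46 4 (.s k149 k209 9 (.d k191 k127 k128 7 6)))))] (.c k64 (.l (.s
  k127 k191 7 (.s k8 k4 1 (.s k89 k251 12 (.s k166 k243 14 (.d k174 k162 k93 1 12)))))) (.c k127 (.q
  k64 [(.s k8 k4 1 (.s k89 k251 12 (.s k166 k243 14 (.d k174 k162 k93 1 12)))), (.s k128 k192 7 (.s
  k46 k29 4 (.s k174 k93 12 (.s k110 k238 7 (.s k157 k204 12 (.d k191 k140 k149 4 6)))))), (.s k8 k4
  1 (.s k128 k192 7 (.s k89 k251 12 (.s k29 k46 4 (.d k149 k191 k209 6 9)))))] (.c k89 (.f k93 k174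
  12 (.q k72 [(.d k192 k128 k132 7 9), (.s k29 k46 4 (.s k157 k221 7 (.s k76 k68 1 (.d k204 k110
  k140 12 7))))] .n)) .n)) (.c k166 (.l (.s k46 k29 4 (.s k174 k93 12 (.s k110 k238 7 (.s k157 k204
  12 (.d k191 k140 k127 4 7)))))) .n)))))

def t42_137 : T TT 256 :=
  (.f k255 k85 14 (.q k12 [(.s k8 k4 1 (.s k89 k251 12 (.s k166 k243 14 (.d k174 k162 k93 1 12)))),
  (.s k29 k46 4 (.s k93 k174 12 (.s k157 k221 7 (.s k110 k204 12 (.d k127 k76 k191 4 7))))), (.s k8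
  k4 1 (.s k89 k251 12 (.s k29 k46 4 (.s k149 k209 9 (.d k191 k127 k128 7 6)))))] (.c k64 (.l (.s
  k127 k191 7 (.s k8 k4 1 (.s k89 k251 12 (.s k166 k243 14 (.d k174 k162 k93 1 12)))))) (.c k127 (.q
  k64 [(.s k8 k4 1 (.s k89 k251 12 (.s k166 k243 14 (.d k174 k162 k93 1 12)))), (.s k192 k128 7 (.s
  k72 k132 9 (.s k68 k76 1 (.s k136 k204 9 (.d k8 k4 k200 1 7))))), (.s k128 k192 7 (.s k29 k46 4
  (.s k174 k93 12 (.s k149 k191 6 (.s k89 k209 9 (.d k166 k243 k162 14 1))))))] (.c k93 (.l (.s k8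
  k4 1 (.s k128 k192 7 (.s k89 k251 12 (.s k29 k46 4 (.d k149 k191 k209 6 9)))))) .n)) (.c k166 (.l
  (.s k46 k29 4 (.s k174 k93 12 (.s k110 k238 7 (.s k157 k204 12 (.d k191 k140 k127 4 7))))))
  .n)))))

def t42_138 : T TT 256 :=
  (.f k255 k85 14 (.q k12 [(.s k8 k4 1 (.s k89 k251 12 (.s k166 k243 14 (.d k174 k162 k93 1 12)))),
  (.s k29 k46 4 (.s k93 k174 12 (.s k157 k221 7 (.s k110 k204 12 (.d k127 k76 k191 4 7))))), (.s k8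
  k4 1 (.s k89 k251 12 (.s k29 k46 4 (.s k149 k209 9 (.d k191 k127 k128 7 6)))))] (.c k64 (.l (.s
  k127 k191 7 (.s k8 k4 1 (.s k89 k251 12 (.s k166 k243 14 (.d k174 k162 k93 1 12)))))) (.c k127 (.q
  k64 [(.s k8 k4 1 (.s k89 k251 12 (.s k166 k243 14 (.d k174 k162 k93 1 12)))), (.s k192 k128 7 (.s
  k72 k132 9 (.s k68 k76 1 (.s k136 k204 9 (.d k8 k4 k200 1 7))))), (.s k128 k192 7 (.s k29 k46 4
  (.s k174 k93 12 (.s k149 k191 6 (.s k89 k209 9 (.d k166 k243 k162 14 1))))))] (.c k93 (.l (.s k8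
  k4 1 (.s k128 k192 7 (.s k89 k251 12 (.s k29 k46 4 (.d k149 k191 k209 6 9)))))) .n)) (.c k166 (.l
  (.s k46 k29 4 (.s k174 k93 12 (.s k110 k238 7 (.s k157 k204 12 (.d k191 k140 k127 4 7))))))
  .n)))))

def t42_139 : T TT 256 :=
  (.f k255 k85 14 (.q k12 [(.s k8 k4 1 (.s k89 k251 12 (.s k166 k243 14 (.d k174 k162 k93 1 12)))),
  (.s k29 k46 4 (.s k93 k174 12 (.s k157 k221 7 (.s k110 k204 12 (.d k127 k76 k191 4 7))))), (.s k8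
  k4 1 (.s k89 k251 12 (.s k29 k46 4 (.s k149 k209 9 (.d k191 k127 k128 7 6)))))] (.c k64 (.l (.s
  k127 k191 7 (.s k8 k4 1 (.s k89 k251 12 (.s k166 k243 14 (.d k174 k162 k93 1 12)))))) (.c k127 (.q
  k64 [(.s k8 k4 1 (.s k89 k251 12 (.s k166 k243 14 (.d k174 k162 k93 1 12)))), (.s k192 k128 7 (.s
  k72 k132 9 (.s k68 k76 1 (.s k136 k204 9 (.d k8 k4 k200 1 7))))), (.s k128 k192 7 (.s k29 k46 4
  (.s k174 k93 12 (.s k149 k191 6 (.s k89 k209 9 (.d k166 k243 k162 14 1))))))] (.c k93 (.l (.s k8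
  k4 1 (.s k128 k192 7 (.s k89 k251 12 (.s k29 k46 4 (.d k149 k191 k209 6 9)))))) .n)) (.c k166 (.l
  (.s k46 k29 4 (.s k174 k93 12 (.s k110 k238 7 (.s k157 k204 12 (.d k191 k140 k127 4 7))))))
  .n)))))

def t42_140 : T TT 256 :=
  (.f k255 k85 14 (.f k127 k191 7 (.q k111 [(.s k159 k207 11 (.s k95 k79 3 (.s k15 k175 11 (.d k31
  k47 k223 3 7)))), (.s k207 k159 11 (.s k138 k69 10 (.s k154 k186 3 (.s k101 k48 14 (.d k239 k223
  k32 3 10)))))] (.c k143 (.l (.s k159 k207 11 (.s k95 k79 3 (.s k15 k175 11 (.d k31 k47 k223 3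
  7))))) (.c k157 (.q k174 [(.s k159 k207 11 (.s k95 k79 3 (.s k15 k175 11 (.d k31 k47 k223 3 7)))),
  (.s k12 k93 12 (.s k8 k4 1 (.s k89 k251 12 (.d k166 k162 k243 1 14))))] .n) (.c k159 (.l (.s k95
  k79 3 (.s k175 k15 11 (.s k239 k47 7 (.s k207 k223 3 (.s k138 k69 10 (.s k154 k186 3 (.d k101 k32
  k48 10 14)))))))) (.c k174 (.q k157 [(.s k207 k159 11 (.s k95 k79 3 (.s k175 k15 11 (.d k239 k223
  k47 3 7)))), (.s k204 k110 12 (.s k136 k68 9 (.s k153 k187 4 (.s k102 k51 14 (.d k238 k221 k34 4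
  9)))))] .n) (.c k175 (.l (.s k79 k95 3 (.s k207 k159 11 (.s k143 k15 7 (.s k138 k69 10 (.s k154
  k186 3 (.s k101 k48 14 (.d k239 k223 k32 3 10)))))))) (.c k207 (.q k157 [(.s k110 k204 12 (.s k93
  k76 4 (.s k12 k174 12 (.d k29 k46 k221 4 7)))), (.s k204 k110 12 (.s k136 k68 9 (.s k153 k187 4
  (.s k102 k51 14 (.d k238 k221 k34 4 9))))), (.s k95 k79 3 (.s k15 k175 11 (.s k31 k47 3 (.s k94
  k220 8 (.s k93 k92 0 (.s k12 k174 12 (.d k29 k46 k221 4 7)))))))] (.c k221 (.l (.s k110 k204 12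
  (.s k76 k93 4 (.s k79 k95 3 (.s k78 k77 0 (.s k94 k126 3 (.d k109 k108 k124 0 4))))))) .n)) (.c
  k223 (.l (.s k207 k159 11 (.s k138 k69 10 (.s k95 k79 3 (.s k175 k15 11 (.s k239 k47 7 (.s k154
  k186 3 (.d k101 k32 k48 10 14)))))))) .n))))))))))

def t42_141 : T TT 256 :=
  (.f k255 k85 14 (.f k127 k191 7 (.q k123 [(.s k183 k243 9 (.s k119 k115 1 (.s k51 k187 9 (.d k55
  k59 k247 1 7)))), (.s k243 k183 9 (.s k162 k81 12 (.s k166 k174 1 (.s k89 k12 14 (.d k251 k247 k8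
  1 12)))))] (.c k179 (.l (.s k183 k243 9 (.s k119 k115 1 (.s k51 k187 9 (.d k55 k59 k247 1 7)))))
  (.c k183 (.l (.s k119 k115 1 (.s k187 k51 9 (.s k251 k59 7 (.s k243 k247 1 (.s k162 k81 12 (.s
  k166 k174 1 (.d k89 k8 k12 12 14)))))))) (.c k187 (.l (.s k115 k119 1 (.s k243 k183 9 (.s k179 k51
  7 (.s k162 k81 12 (.s k166 k174 1 (.s k89 k12 14 (.d k251 k247 k8 1 12)))))))) (.c k243 (.q k174
  [(.s k93 k12 12 (.s k110 k76 4 (.s k204 k157 12 (.d k238 k221 k46 4 7)))), (.s k12 k93 12 (.s k119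
  k115 1 (.s k51 k187 9 (.s k34 k17 4 (.s k38 k25 6 (.s k102 k238 9 (.d k166 k162 k230 1 7))))))),
  (.s k119 k115 1 (.s k51 k187 9 (.s k34 k17 4 (.s k238 k102 9 (.s k110 k46 7 (.d k204 k221 k157 4
  12)))))), (.s k93 k12 12 (.s k110 k76 4 (.s k204 k157 12 (.s k136 k68 9 (.s k119 k115 1 (.d k187
  k51 k153 9 4))))))] (.c k89 (.l (.s k93 k12 12 (.s k166 k162 1 (.s k110 k76 4 (.s k238 k46 7 (.d
  k204 k221 k157 4 12)))))) (.c k166 (.l (.s k12 k93 12 (.s k46 k29 4 (.s k238 k110 7 (.s k119 k115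
  1 (.s k51 k187 9 (.d k34 k102 k17 9 4))))))) .n))) (.c k247 (.l (.s k243 k183 9 (.s k162 k81 12
  (.s k119 k115 1 (.s k187 k51 9 (.s k251 k59 7 (.s k166 k174 1 (.d k89 k8 k12 12 14))))))))
  .n))))))))

def t42_142 : T TT 256 :=
  (.f k255 k85 14 (.f k127 k191 7 (.q k123 [(.s k183 k243 9 (.s k119 k115 1 (.s k51 k187 9 (.d k55
  k59 k247 1 7)))), (.s k243 k183 9 (.s k162 k81 12 (.s k166 k174 1 (.s k89 k12 14 (.d k251 k247 k8
  1 12)))))] (.c k179 (.l (.s k183 k243 9 (.s k119 k115 1 (.s k51 k187 9 (.d k55 k59 k247 1 7)))))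
  (.c k183 (.l (.s k119 k115 1 (.s k187 k51 9 (.s k251 k59 7 (.s k243 k247 1 (.s k162 k81 12 (.s
  k166 k174 1 (.d k89 k8 k12 12 14)))))))) (.c k187 (.l (.s k115 k119 1 (.s k243 k183 9 (.s k179 k51
  7 (.s k162 k81 12 (.s k166 k174 1 (.s k89 k12 14 (.d k251 k247 k8 1 12)))))))) (.c k243 (.q k174
  [(.s k93 k12 12 (.s k110 k76 4 (.s k204 k157 12 (.d k238 k221 k46 4 7)))), (.s k12 k93 12 (.s k119
  k115 1 (.s k51 k187 9 (.s k34 k17 4 (.s k38 k25 6 (.s k102 k238 9 (.d k166 k162 k230 1 7))))))),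
  (.s k119 k115 1 (.s k51 k187 9 (.s k34 k17 4 (.s k238 k102 9 (.s k110 k46 7 (.d k204 k221 k157 4
  12)))))), (.s k93 k12 12 (.s k110 k76 4 (.s k204 k157 12 (.s k136 k68 9 (.s k119 k115 1 (.d k187
  k51 k153 9 4))))))] (.c k89 (.l (.s k93 k12 12 (.s k166 k162 1 (.s k110 k76 4 (.s k238 k46 7 (.d
  k204 k221 k157 4 12)))))) (.c k166 (.l (.s k12 k93 12 (.s k46 k29 4 (.s k238 k110 7 (.s k119 k115
  1 (.s k51 k187 9 (.d k34 k102 k17 9 4))))))) .n))) (.c k247 (.l (.s k243 k183 9 (.s k162 k81 12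
  (.s k119 k115 1 (.s k187 k51 9 (.s k251 k59 7 (.s k166 k174 1 (.d k89 k8 k12 12 14))))))))
  .n))))))))

def t42_143 : T TT 256 :=
  (.f k255 k85 14 (.q k12 [(.s k8 k4 1 (.s k89 k251 12 (.s k166 k243 14 (.d k174 k162 k93 1 12)))),
  (.s k29 k46 4 (.s k93 k174 12 (.s k157 k221 7 (.s k110 k204 12 (.d k127 k76 k191 4 7))))), (.s k8
  k4 1 (.s k89 k251 12 (.s k29 k46 4 (.s k149 k209 9 (.d k191 k127 k128 7 6)))))] (.c k64 (.l (.s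
  k127 k191 7 (.s k8 k4 1 (.s k89 k251 12 (.s k166 k243 14 (.d k174 k162 k93 1 12)))))) (.c k127 (.q
  k64 [(.s k8 k4 1 (.s k89 k251 12 (.s k166 k243 14 (.d k174 k162 k93 1 12)))), (.s k192 k128 7 (.s
  k72 k132 9 (.s k68 k76 1 (.s k136 k204 9 (.d k8 k4 k200 1 7))))), (.s k128 k192 7 (.s k29 k46 4
  (.s k174 k93 12 (.s k149 k191 6 (.s k89 k209 9 (.d k166 k243 k162 14 1))))))] (.c k93 (.l (.s k8
  k4 1 (.s k128 k192 7 (.s k89 k251 12 (.s k29 k46 4 (.d k149 k191 k209 6 9)))))) .n)) (.c k166 (.l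
  (.s k46 k29 4 (.s k174 k93 12 (.s k110 k238 7 (.s k157 k204 12 (.d k191 k140 k127 4 7))))))
  .n)))))

def t42_144 : T TT 256 :=
  (.f k255 k85 14 (.q k130 [(.s k195 k65 8 (.s k150 k190 5 (.s k105 k60 14 (.d k235 k215 k40 5
  8)))), (.s k195 k65 8 (.s k151 k107 13 (.s k150 k190 5 (.s k149 k148 0 (.d k191 k127 k128 7
  6))))), (.s k195 k65 8 (.s k107 k151 13 (.s k127 k191 7 (.s k87 k67 5 (.s k171 k3 13 (.d k235 k215
  k43 5 7))))))] (.c k64 (.l (.s k127 k191 7 (.s k195 k65 8 (.s k150 k190 5 (.s k105 k60 14 (.d k235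
  k215 k40 5 8)))))) (.c k65 (.l (.s k127 k191 7 (.s k190 k150 5 (.s k125 k60 8 (.s k126 k124 0 (.s
  k252 k189 8 (.d k254 k62 k253 7 0))))))) (.c k105 (.l (.s k65 k195 8 (.s k190 k150 5 (.s k60 k125
  8 (.s k62 k61 0 (.s k126 k254 7 (.s k189 k252 8 (.d k191 k188 k127 0 7)))))))) (.c k125 (.l (.s
  k150 k190 5 (.s k195 k65 8 (.s k105 k60 14 (.d k235 k215 k40 5 8))))) (.c k127 (.q k64 [(.s k195
  k65 8 (.s k150 k190 5 (.s k105 k60 14 (.d k235 k215 k40 5 8)))), (.s k128 k192 7 (.s k131 k129 0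
  (.s k149 k191 6 (.s k150 k190 5 (.s k188 k169 6 (.d k148 k151 k168 0 5)))))), (.s k128 k192 7 (.s
  k195 k65 8 (.s k151 k107 13 (.s k131 k129 0 (.d k191 k171 k149 5 6)))))] .n) (.c k195 (.l (.s k190
  k150 5 (.s k60 k125 8 (.s k62 k61 0 (.s k126 k254 7 (.s k189 k252 8 (.d k191 k188 k127 0 7)))))))
  .n))))))))

def t42_145 : T TT 256 :=
  (.f k255 k85 14 (.q k12 [(.s k8 k4 1 (.s k89 k251 12 (.s k166 k243 14 (.d k174 k162 k93 1 12)))),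
  (.s k29 k46 4 (.s k93 k174 12 (.s k157 k221 7 (.s k110 k204 12 (.d k127 k76 k191 4 7))))), (.s k8
  k4 1 (.s k89 k251 12 (.s k29 k46 4 (.s k149 k209 9 (.d k191 k127 k128 7 6)))))] (.c k64 (.l (.s
  k127 k191 7 (.s k8 k4 1 (.s k89 k251 12 (.s k166 k243 14 (.d k174 k162 k93 1 12)))))) (.c k127 (.q
  k64 [(.s k8 k4 1 (.s k89 k251 12 (.s k166 k243 14 (.d k174 k162 k93 1 12)))), (.s k192 k128 7 (.s
  k72 k132 9 (.s k68 k76 1 (.s k136 k204 9 (.d k8 k4 k200 1 7))))), (.s k128 k192 7 (.s k29 k46 4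
  (.s k174 k93 12 (.s k149 k191 6 (.s k89 k209 9 (.d k166 k243 k162 14 1)))))), (.s k8 k4 1 (.s k128
  k192 7 (.s k89 k251 12 (.s k29 k46 4 (.d k149 k191 k209 6 9)))))] .n) (.c k166 (.l (.s k46 k29 4
  (.s k174 k93 12 (.s k110 k238 7 (.s k157 k204 12 (.d k191 k140 k127 4 7)))))) .n)))))

def t42_146 : T TT 256 :=
  (.f k255 k85 14 (.q k130 [(.s k195 k65 8 (.s k150 k190 5 (.s k105 k60 14 (.d k235 k215 k40 5
  8)))), (.s k195 k65 8 (.s k151 k107 13 (.s k150 k190 5 (.s k149 k148 0 (.d k191 k127 k128 7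
  6))))), (.s k195 k65 8 (.s k107 k151 13 (.s k127 k191 7 (.s k87 k67 5 (.s k171 k3 13 (.d k235 k215
  k43 5 7))))))] (.c k64 (.l (.s k127 k191 7 (.s k195 k65 8 (.s k150 k190 5 (.s k105 k60 14 (.d k235
  k215 k40 5 8)))))) (.c k65 (.l (.s k127 k191 7 (.s k190 k150 5 (.s k125 k60 8 (.s k126 k124 0 (.s
  k252 k189 8 (.d k254 k62 k253 7 0))))))) (.c k105 (.l (.s k65 k195 8 (.s k190 k150 5 (.s k60 k125
  8 (.s k62 k61 0 (.s k126 k254 7 (.s k189 k252 8 (.d k191 k188 k127 0 7)))))))) (.c k125 (.l (.s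
  k150 k190 5 (.s k195 k65 8 (.s k105 k60 14 (.d k235 k215 k40 5 8))))) (.c k127 (.q k64 [(.s k195
  k65 8 (.s k150 k190 5 (.s k105 k60 14 (.d k235 k215 k40 5 8)))), (.s k128 k192 7 (.s k131 k129 0
  (.s k149 k191 6 (.s k150 k190 5 (.s k188 k169 6 (.d k148 k151 k168 0 5)))))), (.s k128 k192 7 (.s
  k195 k65 8 (.s k151 k107 13 (.s k131 k129 0 (.d k191 k171 k149 5 6)))))] .n) (.c k195 (.l (.s k190
  k150 5 (.s k60 k125 8 (.s k62 k61 0 (.s k126 k254 7 (.s k189 k252 8 (.d k191 k188 k127 0 7)))))))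
  .n))))))))

def t42_147 : T TT 256 :=
  (.f k255 k85 14 (.q k12 [(.s k8 k4 1 (.s k89 k251 12 (.s k166 k243 14 (.d k174 k162 k93 1 12)))),
  (.s k29 k46 4 (.s k93 k174 12 (.s k157 k221 7 (.s k110 k204 12 (.d k127 k76 k191 4 7))))), (.s k8
  k4 1 (.s k89 k251 12 (.s k29 k46 4 (.s k149 k209 9 (.d k191 k127 k128 7 6)))))] (.c k64 (.l (.s
  k127 k191 7 (.s k8 k4 1 (.s k89 k251 12 (.s k166 k243 14 (.d k174 k162 k93 1 12)))))) (.c k127 (.q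
  k64 [(.s k8 k4 1 (.s k89 k251 12 (.s k166 k243 14 (.d k174 k162 k93 1 12)))), (.s k192 k128 7 (.s
  k72 k132 9 (.s k68 k76 1 (.s k136 k204 9 (.d k8 k4 k200 1 7))))), (.s k128 k192 7 (.s k29 k46 4
  (.s k174 k93 12 (.s k149 k191 6 (.s k89 k209 9 (.d k166 k243 k162 14 1))))))] (.c k93 (.l (.s k8
  k4 1 (.s k128 k192 7 (.s k89 k251 12 (.s k29 k46 4 (.d k149 k191 k209 6 9)))))) .n)) (.c k166 (.l
  (.s k46 k29 4 (.s k174 k93 12 (.s k110 k238 7 (.s k157 k204 12 (.d k191 k140 k127 4 7))))))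
  .n)))))

def t42_148 : T TT 256 :=
  (.f k255 k85 14 (.q k130 [(.s k195 k65 8 (.s k150 k190 5 (.s k235 k215 5 (.d k105 k40 k60 8
  14)))), (.s k195 k65 8 (.s k151 k107 13 (.s k215 k235 5 (.s k87 k23 7 (.s k171 k3 13 (.d k191 k127
  k131 7 5)))))), (.s k127 k191 7 (.s k190 k150 5 (.s k125 k60 8 (.s k126 k124 0 (.s k252 k189 8 (.d
  k254 k62 k253 7 0))))))] (.c k64 (.l (.s k127 k191 7 (.s k195 k65 8 (.s k150 k190 5 (.s k105 k60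
  14 (.d k235 k215 k40 5 8)))))) (.c k105 (.l (.s k65 k195 8 (.s k190 k150 5 (.s k60 k125 8 (.s k62
  k61 0 (.s k126 k254 7 (.s k189 k252 8 (.d k191 k188 k127 0 7)))))))) (.c k125 (.l (.s k150 k190 5
  (.s k195 k65 8 (.s k105 k60 14 (.d k235 k215 k40 5 8))))) (.c k127 (.q k64 [(.s k195 k65 8 (.s
  k150 k190 5 (.s k235 k215 5 (.d k105 k40 k60 8 14)))), (.s k192 k128 7 (.s k65 k195 8 (.s k66 k67
  0 (.s k2 k194 7 (.d k3 k1 k129 0 8))))), (.s k128 k192 7 (.s k131 k129 0 (.s k191 k149 6 (.s k150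
  k190 5 (.s k169 k188 6 (.d k171 k151 k168 5 0))))))] (.c k150 (.l (.s k128 k192 7 (.s k195 k65 8
  (.s k151 k107 13 (.s k131 k129 0 (.d k191 k171 k149 5 6)))))) .n)) (.c k195 (.l (.s k190 k150 5
  (.s k60 k125 8 (.s k62 k61 0 (.s k126 k254 7 (.s k189 k252 8 (.d k191 k188 k127 0 7))))))) (.c
  k215 (.f k150 k190 5 (.l (.s k195 k65 8 (.s k105 k60 14 (.s k235 k40 8 (.s k107 k151 13 (.s k127
  k191 7 (.s k87 k67 5 (.d k171 k43 k3 7 13))))))))) .n))))))))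

def t42_149 : T TT 256 :=
  (.f k255 k85 14 (.f k127 k191 7 (.q k123 [(.s k183 k243 9 (.s k119 k115 1 (.s k51 k187 9 (.d k55
  k59 k247 1 7)))), (.s k243 k183 9 (.s k162 k81 12 (.s k166 k174 1 (.s k89 k12 14 (.d k251 k247 k8
  1 12)))))] (.c k21 (.q k213 [(.s k183 k243 9 (.s k119 k115 1 (.s k51 k187 9 (.d k55 k59 k247 1
  7)))), (.s k115 k119 1 (.s k192 k234 6 (.s k64 k128 7 (.s k81 k98 4 (.d k243 k183 k162 9 12))))),
  (.s k243 k183 9 (.s k162 k81 12 (.s k166 k174 1 (.s k89 k12 14 (.d k251 k247 k8 1 12)))))] (.c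
  k183 (.l (.s k119 k115 1 (.s k187 k51 9 (.s k251 k59 7 (.s k8 k89 12 (.s k136 k153 4 (.s k200 k72
  7 (.d k234 k217 k192 4 6)))))))) (.c k243 (.q k12 [(.s k93 k174 12 (.s k110 k76 4 (.s k157 k204 12
  (.d k29 k46 k221 4 7)))), (.s k8 k4 1 (.s k251 k89 12 (.s k187 k59 7 (.d k119 k115 k51 1 9)))),
  (.s k4 k8 1 (.s k192 k234 6 (.s k128 k64 7 (.s k132 k72 9 (.s k68 k196 7 (.d k136 k140 k204 1
  9))))))] .n) .n))) (.c k179 (.l (.s k183 k243 9 (.s k119 k115 1 (.s k51 k187 9 (.d k55 k59 k247 1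
  7))))) (.c k183 (.l (.s k119 k115 1 (.s k187 k51 9 (.s k251 k59 7 (.s k243 k247 1 (.s k162 k81 12
  (.s k166 k174 1 (.d k89 k8 k12 12 14)))))))) (.c k187 (.l (.s k115 k119 1 (.s k243 k183 9 (.s k179
  k51 7 (.s k162 k81 12 (.s k166 k174 1 (.s k89 k12 14 (.d k251 k247 k8 1 12)))))))) (.c k213 (.q
  k21 [(.s k183 k243 9 (.s k119 k115 1 (.s k51 k187 9 (.d k55 k59 k247 1 7)))), (.s k243 k183 9 (.s
  k162 k81 12 (.s k166 k174 1 (.s k89 k12 14 (.d k251 k247 k8 1 12))))), (.s k119 k115 1 (.s k51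
  k187 9 (.s k17 k34 4 (.s k25 k29 1 (.s k38 k12 6 (.d k55 k59 k4 1 4))))))] (.c k179 (.l (.s k183
  k243 9 (.s k119 k115 1 (.s k51 k187 9 (.d k55 k59 k247 1 7))))) (.c k183 (.l (.s k119 k115 1 (.s
  k187 k51 9 (.s k251 k59 7 (.s k243 k247 1 (.s k162 k81 12 (.s k166 k174 1 (.d k89 k8 k12 12
  14)))))))) (.c k187 (.l (.s k183 k243 9 (.s k119 k115 1 (.s k55 k247 7 (.s k51 k59 1 (.s k17 k34 4
  (.s k25 k29 1 (.d k38 k4 k12 4 6)))))))) .n)))) (.c k243 (.q k12 [(.s k93 k174 12 (.s k110 k76 4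
  (.s k157 k204 12 (.d k29 k46 k221 4 7)))), (.s k8 k4 1 (.s k251 k89 12 (.s k187 k59 7 (.d k119
  k115 k51 1 9))))] (.c k21 (.q k213 [(.s k93 k174 12 (.s k110 k76 4 (.s k157 k204 12 (.d k29 k46
  k221 4 7)))), (.s k8 k4 1 (.s k251 k89 12 (.s k187 k59 7 (.d k119 k115 k51 1 9)))), (.s k4 k8 1
  (.s k192 k234 6 (.s k128 k64 7 (.s k132 k72 9 (.s k68 k196 7 (.d k136 k140 k204 1 9))))))] .n) (.c
  k29 (.l (.s k8 k4 1 (.s k89 k251 12 (.s k93 k174 12 (.s k76 k110 4 (.d k115 k102 k119 6 1))))))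
  (.c k93 (.l (.s k46 k29 4 (.s k119 k115 1 (.s k51 k187 9 (.s k34 k17 4 (.s k238 k102 9 (.s k110
  k174 7 (.d k204 k221 k157 4 12)))))))) (.c k213 (.q k21 [(.s k4 k8 1 (.s k38 k55 4 (.s k119 k115 1
  (.d k51 k25 k187 6 9)))), (.s k29 k46 4 (.s k93 k174 12 (.s k157 k221 7 (.d k110 k76 k204 4
  12))))] (.c k38 (.l (.s k8 k4 1 (.s k251 k89 12 (.s k187 k59 7 (.d k119 k115 k51 1 9))))) .n))
  .n))))) (.c k247 (.l (.s k243 k183 9 (.s k162 k81 12 (.s k119 k115 1 (.s k187 k51 9 (.s k251 k59 7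
  (.s k166 k174 1 (.d k89 k8 k12 12 14)))))))) .n))))))))))

def t42_150 : T TT 256 :=
  (.q k12 [(.s k4 k8 1 (.s k85 k255 14 (.s k166 k247 12 (.s k162 k174 1 (.d k243 k81 k89 12 14))))),
  (.s k255 k85 14 (.s k29 k46 4 (.s k93 k174 12 (.s k157 k221 7 (.s k110 k204 12 (.d k127 k76 k191 4
  7))))))] (.c k62 (.q k194 [(.s k4 k8 1 (.s k85 k255 14 (.s k166 k247 12 (.s k162 k174 1 (.d k243
  k81 k89 12 14))))), (.s k255 k85 14 (.s k29 k46 4 (.s k93 k174 12 (.s k157 k221 7 (.s k110 k204 12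
  (.d k127 k76 k191 4 7))))))] (.c k2 (.q k22 [(.s k4 k8 1 (.s k85 k255 14 (.s k166 k247 12 (.s k162
  k174 1 (.d k243 k81 k89 12 14))))), (.s k255 k85 14 (.s k29 k46 4 (.s k93 k174 12 (.s k157 k221 7
  (.s k110 k204 12 (.d k127 k76 k191 4 7))))))] (.c k85 (.f k8 k4 1 (.l (.s k89 k251 12 (.s k29 k46
  4 (.s k166 k243 14 (.s k149 k209 9 (.s k128 k191 6 (.s k132 k183 4 (.d k192 k64 k72 7 9)))))))))
  (.c k166 (.l (.s k255 k85 14 (.s k46 k29 4 (.s k174 k93 12 (.s k110 k238 7 (.s k157 k204 12 (.d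
  k191 k127 k140 7 4))))))) (.c k174 (.l (.s k8 k4 1 (.s k85 k255 14 (.s k89 k251 12 (.s k243 k166
  14 (.d k81 k93 k162 1 12)))))) (.c k255 (.f k8 k4 1 (.l (.s k89 k251 12 (.s k29 k46 4 (.s k149
  k209 9 (.s k128 k191 6 (.s k192 k64 7 (.s k132 k72 9 (.d k166 k243 k183 14 4))))))))) .n))))) (.c
  k22 (.q k2 [(.s k3 k1 0 (.s k4 k8 1 (.s k6 k9 2 (.s k10 k14 1 (.d k5 k7 k15 0 2))))), (.s k3 k1 0
  (.s k85 k255 14 (.s k86 k254 13 (.s k252 k169 14 (.d k84 k87 k168 0 13))))), (.s k4 k8 1 (.s k85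
  k255 14 (.s k166 k247 12 (.s k243 k89 14 (.d k162 k174 k81 1 12)))))] (.c k86 (.q k214 [(.s k3 k1
  0 (.s k4 k8 1 (.s k6 k9 2 (.s k10 k14 1 (.d k5 k7 k15 0 2))))), (.s k3 k1 0 (.s k255 k85 14 (.s
  k66 k130 7 (.s k192 k129 8 (.d k234 k254 k213 5 6))))), (.s k4 k8 1 (.s k85 k255 14 (.s k166 k247
  12 (.s k243 k89 14 (.d k162 k174 k81 1 12)))))] (.c k66 (.q k126 [(.s k252 k189 8 (.s k254 k234 5
  (.d k255 k253 k85 0 14))), (.s k3 k1 0 (.s k4 k8 1 (.s k6 k9 2 (.s k10 k14 1 (.d k5 k7 k15 0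
  2)))))] .n) (.c k126 (.l (.s k66 k130 7 (.s k3 k1 0 (.s k255 k85 14 (.s k192 k129 8 (.d k234 k254
  k213 5 6)))))) .n))) (.c k214 (.l (.s k86 k254 13 (.s k3 k1 0 (.s k85 k255 14 (.s k252 k169 14 (.d
  k84 k87 k168 0 13)))))) .n))) (.c k85 (.f k8 k4 1 (.l (.s k89 k251 12 (.s k29 k46 4 (.s k166 k243
  14 (.s k149 k209 9 (.s k128 k191 6 (.s k132 k183 4 (.d k192 k64 k72 7 9))))))))) (.c k166 (.l (.s
  k255 k85 14 (.s k46 k29 4 (.s k174 k93 12 (.s k110 k238 7 (.s k157 k204 12 (.d k191 k127 k140 7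
  4))))))) (.c k174 (.l (.s k8 k4 1 (.s k85 k255 14 (.s k89 k251 12 (.s k243 k166 14 (.d k81 k93
  k162 1 12)))))) (.c k255 (.f k8 k4 1 (.l (.s k89 k251 12 (.s k29 k46 4 (.s k149 k209 9 (.s k128
  k191 6 (.s k192 k64 7 (.s k132 k72 9 (.d k166 k243 k183 14 4))))))))) .n))))))) (.c k85 (.f k8 k4
  1 (.l (.s k89 k251 12 (.s k29 k46 4 (.s k166 k243 14 (.s k149 k209 9 (.s k128 k191 6 (.s k132 k183
  4 (.d k192 k64 k72 7 9))))))))) (.c k166 (.l (.s k255 k85 14 (.s k46 k29 4 (.s k174 k93 12 (.s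
  k110 k238 7 (.s k157 k204 12 (.d k191 k127 k140 7 4))))))) (.c k174 (.l (.s k8 k4 1 (.s k85 k255
  14 (.s k89 k251 12 (.s k243 k166 14 (.d k81 k93 k162 1 12)))))) (.c k194 (.q k62 [(.s k4 k8 1 (.s
  k85 k255 14 (.s k166 k247 12 (.s k162 k174 1 (.d k243 k81 k89 12 14))))), (.s k46 k29 4 (.s k30
  k14 3 (.s k60 k61 0 (.s k45 k15 4 (.d k44 k47 k28 0 3)))))] .n) (.c k255 (.f k8 k4 1 (.l (.s k89
  k251 12 (.s k29 k46 4 (.s k149 k209 9 (.s k128 k191 6 (.s k192 k64 7 (.s k132 k72 9 (.d k166 k243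
  k183 14 4))))))))) .n)))))))

def t42_151 : T TT 256 :=
  (.f k255 k85 14 (.q k12 [(.s k8 k4 1 (.s k89 k251 12 (.s k166 k243 14 (.d k174 k162 k93 1 12)))),
  (.s k29 k46 4 (.s k93 k174 12 (.s k157 k221 7 (.s k110 k204 12 (.d k127 k76 k191 4 7))))), (.s k8
  k4 1 (.s k89 k251 12 (.s k29 k46 4 (.s k149 k209 9 (.d k191 k127 k128 7 6)))))] (.c k64 (.l (.s
  k127 k191 7 (.s k8 k4 1 (.s k89 k251 12 (.s k166 k243 14 (.d k174 k162 k93 1 12)))))) (.c k127 (.q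
  k64 [(.s k8 k4 1 (.s k89 k251 12 (.s k166 k243 14 (.d k174 k162 k93 1 12)))), (.s k192 k128 7 (.s
  k72 k132 9 (.s k68 k76 1 (.s k136 k204 9 (.d k8 k4 k200 1 7))))), (.s k128 k192 7 (.s k29 k46 4
  (.s k174 k93 12 (.s k149 k191 6 (.s k89 k209 9 (.d k166 k243 k162 14 1))))))] (.c k93 (.l (.s k8
  k4 1 (.s k128 k192 7 (.s k89 k251 12 (.s k29 k46 4 (.d k149 k191 k209 6 9)))))) .n)) (.c k166 (.l
  (.s k46 k29 4 (.s k174 k93 12 (.s k110 k238 7 (.s k157 k204 12 (.d k191 k140 k127 4 7))))))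
  .n)))))

def t42_152 : T TT 256 :=
  (.f k255 k85 14 (.f k127 k191 7 (.q k123 [(.s k183 k243 9 (.s k119 k115 1 (.s k51 k187 9 (.d k55
  k59 k247 1 7)))), (.s k243 k183 9 (.s k162 k81 12 (.s k166 k174 1 (.s k89 k12 14 (.d k251 k247 k8
  1 12)))))] (.c k179 (.l (.s k183 k243 9 (.s k119 k115 1 (.s k51 k187 9 (.d k55 k59 k247 1 7)))))
  (.c k183 (.l (.s k119 k115 1 (.s k187 k51 9 (.s k251 k59 7 (.s k243 k247 1 (.s k162 k81 12 (.s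
  k166 k174 1 (.d k89 k8 k12 12 14)))))))) (.c k187 (.l (.s k115 k119 1 (.s k243 k183 9 (.s k179 k51
  7 (.s k162 k81 12 (.s k166 k174 1 (.s k89 k12 14 (.d k251 k247 k8 1 12)))))))) (.c k243 (.q k12
  [(.s k93 k174 12 (.s k110 k76 4 (.s k157 k204 12 (.d k29 k46 k221 4 7)))), (.s k8 k4 1 (.s k251
  k89 12 (.s k187 k59 7 (.d k119 k115 k51 1 9))))] (.c k93 (.l (.s k46 k29 4 (.s k119 k115 1 (.s k51
  k187 9 (.s k34 k17 4 (.s k238 k102 9 (.s k110 k174 7 (.d k204 k221 k157 4 12)))))))) .n)) (.c k247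
  (.l (.s k243 k183 9 (.s k162 k81 12 (.s k119 k115 1 (.s k187 k51 9 (.s k251 k59 7 (.s k166 k174 1
  (.d k89 k8 k12 12 14)))))))) .n))))))))

def t42_153 : T TT 256 :=
  (.q k12 [(.s k4 k8 1 (.s k85 k255 14 (.s k166 k247 12 (.s k162 k174 1 (.d k243 k81 k89 12 14))))),
  (.s k255 k85 14 (.s k29 k46 4 (.s k93 k174 12 (.s k127 k191 7 (.s k110 k76 4 (.d k157 k221 k204 7
  12))))))] (.c k59 (.q k200 [(.s k8 k4 1 (.s k85 k255 14 (.s k89 k251 12 (.s k81 k93 1 (.d k243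
  k162 k166 12 14))))), (.s k255 k85 14 (.s k29 k46 4 (.s k93 k174 12 (.s k127 k191 7 (.s k110 k76 4
  (.d k157 k221 k204 7 12)))))), (.s k8 k4 1 (.s k72 k136 7 (.s k89 k251 12 (.s k29 k46 4 (.s k132
  k192 9 (.s k149 k209 9 (.d k166 k243 k183 14 4)))))))] (.c k8 (.q k25 [(.s k29 k46 4 (.s k17 k21 1
  (.d k51 k34 k38 4 6))), (.s k255 k85 14 (.s k46 k29 4 (.s k174 k93 12 (.s k110 k238 7 (.s k157
  k204 12 (.d k191 k127 k140 7 4))))))] (.c k17 (.q k221 [(.s k255 k85 14 (.s k93 k174 12 (.d k29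
  k46 k157 4 7))), (.s k255 k85 14 (.s k204 k238 4 (.s k68 k136 9 (.s k76 k140 7 (.s k64 k72 1 (.d
  k192 k128 k196 7 1)))))), (.s k29 k46 4 (.s k93 k157 7 (.d k255 k174 k85 12 14))), (.s k29 k46 4
  (.s k157 k93 7 (.s k204 k110 12 (.s k68 k136 9 (.s k76 k140 7 (.s k64 k72 1 (.d k192 k128 k196 7
  1)))))))] .n) (.c k29 (.f k255 k85 14 (.l (.s k38 k51 6 (.s k174 k93 12 (.s k166 k162 1 (.s k102
  k230 7 (.s k238 k34 9 (.s k110 k46 7 (.d k204 k221 k157 4 12))))))))) (.c k46 (.f k255 k85 14 (.l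
  (.s k93 k174 12 (.s k127 k191 7 (.s k110 k76 4 (.s k157 k204 12 (.s k29 k221 7 (.s k17 k21 1 (.d
  k51 k34 k38 4 6))))))))) (.c k51 (.l (.s k255 k85 14 (.s k29 k46 4 (.s k93 k174 12 (.s k127 k191 7
  (.s k110 k76 4 (.d k157 k221 k204 7 12))))))) .n))))) (.c k25 (.l (.s k8 k4 1 (.s k85 k255 14 (.s
  k89 k251 12 (.s k243 k166 14 (.d k81 k93 k162 1 12)))))) (.c k166 (.l (.s k255 k85 14 (.s k46 k29
  4 (.s k174 k93 12 (.s k110 k238 7 (.s k157 k204 12 (.d k191 k127 k140 7 4))))))) .n)))) (.c k85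
  (.f k8 k4 1 (.l (.s k89 k251 12 (.s k29 k46 4 (.s k166 k243 14 (.s k149 k209 9 (.s k128 k191 6 (.s
  k132 k183 4 (.d k192 k64 k72 7 9))))))))) (.c k166 (.l (.s k255 k85 14 (.s k46 k29 4 (.s k174 k93
  12 (.s k110 k238 7 (.s k157 k204 12 (.d k191 k127 k140 7 4))))))) (.c k174 (.l (.s k8 k4 1 (.s k85
  k255 14 (.s k89 k251 12 (.s k243 k166 14 (.d k81 k93 k162 1 12)))))) (.c k200 (.q k59 [(.s k4 k8 1
  (.s k85 k255 14 (.s k166 k247 12 (.s k162 k174 1 (.d k243 k81 k89 12 14))))), (.s k255 k85 14 (.s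
  k29 k46 4 (.s k93 k174 12 (.s k127 k191 7 (.s k110 k76 4 (.d k157 k221 k204 7 12)))))), (.s k8 k4
  1 (.s k89 k251 12 (.s k166 k243 14 (.s k51 k55 1 (.s k38 k25 6 (.s k102 k230 7 (.d k34 k17 k238 4
  9)))))))] (.c k166 (.l (.s k8 k4 1 (.s k251 k89 12 (.s k123 k187 7 (.s k243 k183 9 (.d k255 k247
  k85 1 14)))))) (.c k255 (.l (.s k8 k4 1 (.s k89 k251 12 (.s k243 k166 14 (.s k51 k55 1 (.s k34 k17
  4 (.s k102 k238 9 (.d k115 k179 k76 7 6)))))))) .n))) (.c k255 (.f k8 k4 1 (.l (.s k89 k251 12 (.s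
  k29 k46 4 (.s k149 k209 9 (.s k128 k191 6 (.s k192 k64 7 (.s k132 k72 9 (.d k166 k243 k183 14
  4))))))))) .n)))))))

def t42_154 : T TT 256 :=
  (.q k15 [(.s k5 k10 2 (.s k85 k255 14 (.s k165 k245 11 (.s k160 k175 2 (.d k240 k80 k90 11
  14))))), (.s k255 k85 14 (.s k31 k47 3 (.s k95 k175 11 (.s k127 k191 7 (.s k111 k79 3 (.d k159
  k223 k207 7 11))))))] (.c k58 (.q k202 [(.s k10 k5 2 (.s k85 k255 14 (.s k90 k250 11 (.s k80 k95 2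
  (.d k240 k160 k165 11 14))))), (.s k255 k85 14 (.s k31 k47 3 (.s k95 k175 11 (.s k127 k191 7 (.s
  k111 k79 3 (.d k159 k223 k207 7 11)))))), (.s k10 k5 2 (.s k74 k138 7 (.s k90 k250 11 (.s k31 k47
  3 (.s k133 k192 10 (.s k149 k208 10 (.d k165 k240 k181 14 3)))))))] (.c k10 (.q k26 [(.s k31 k47 3
  (.s k16 k21 2 (.d k48 k32 k37 3 6))), (.s k255 k85 14 (.s k47 k31 3 (.s k175 k95 11 (.s k111 k239
  7 (.s k159 k207 11 (.d k191 k127 k143 7 3))))))] (.c k16 (.q k223 [(.s k255 k85 14 (.s k95 k175 11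
  (.d k31 k47 k159 3 7))), (.s k255 k85 14 (.s k207 k239 3 (.s k69 k138 10 (.s k79 k143 7 (.s k64
  k74 2 (.d k192 k128 k197 7 2)))))), (.s k31 k47 3 (.s k95 k159 7 (.d k255 k175 k85 11 14))), (.s
  k31 k47 3 (.s k159 k95 7 (.s k207 k111 11 (.s k69 k138 10 (.s k79 k143 7 (.s k64 k74 2 (.d k192
  k128 k197 7 2)))))))] .n) (.c k31 (.f k255 k85 14 (.l (.s k37 k48 6 (.s k175 k95 11 (.s k165 k160
  2 (.s k101 k229 7 (.s k239 k32 10 (.s k111 k47 7 (.d k207 k223 k159 3 11))))))))) (.c k47 (.f k255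
  k85 14 (.l (.s k95 k175 11 (.s k127 k191 7 (.s k111 k79 3 (.s k159 k207 11 (.s k31 k223 7 (.s k16
  k21 2 (.d k48 k32 k37 3 6))))))))) (.c k48 (.l (.s k255 k85 14 (.s k31 k47 3 (.s k95 k175 11 (.s
  k127 k191 7 (.s k111 k79 3 (.d k159 k223 k207 7 11))))))) .n))))) (.c k26 (.l (.s k10 k5 2 (.s k85
  k255 14 (.s k90 k250 11 (.s k240 k165 14 (.d k80 k95 k160 2 11)))))) (.c k165 (.l (.s k255 k85 14
  (.s k47 k31 3 (.s k175 k95 11 (.s k111 k239 7 (.s k159 k207 11 (.d k191 k127 k143 7 3)))))))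
  .n)))) (.c k85 (.f k10 k5 2 (.l (.s k90 k250 11 (.s k31 k47 3 (.s k165 k240 14 (.s k149 k208 10
  (.s k128 k191 6 (.s k133 k181 3 (.d k192 k64 k74 7 10))))))))) (.c k165 (.l (.s k255 k85 14 (.s
  k47 k31 3 (.s k175 k95 11 (.s k111 k239 7 (.s k159 k207 11 (.d k191 k127 k143 7 3))))))) (.c k175
  (.l (.s k10 k5 2 (.s k85 k255 14 (.s k90 k250 11 (.s k240 k165 14 (.d k80 k95 k160 2 11)))))) (.c
  k202 (.q k58 [(.s k5 k10 2 (.s k85 k255 14 (.s k165 k245 11 (.s k160 k175 2 (.d k240 k80 k90 11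
  14))))), (.s k255 k85 14 (.s k31 k47 3 (.s k95 k175 11 (.s k127 k191 7 (.s k111 k79 3 (.d k159
  k223 k207 7 11)))))), (.s k10 k5 2 (.s k90 k250 11 (.s k165 k240 14 (.s k48 k53 2 (.s k37 k26 6
  (.s k101 k229 7 (.d k32 k16 k239 3 10)))))))] (.c k165 (.l (.s k10 k5 2 (.s k250 k90 11 (.s k122
  k186 7 (.s k240 k181 10 (.d k255 k245 k85 2 14)))))) (.c k255 (.l (.s k10 k5 2 (.s k90 k250 11 (.s
  k240 k165 14 (.s k48 k53 2 (.s k32 k16 3 (.s k101 k239 10 (.d k112 k176 k79 7 6)))))))) .n))) (.c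
  k255 (.f k10 k5 2 (.l (.s k90 k250 11 (.s k31 k47 3 (.s k149 k208 10 (.s k128 k191 6 (.s k192 k64
  7 (.s k133 k74 10 (.d k165 k240 k181 14 3))))))))) .n)))))))

def t42_155 : T TT 256 :=
  (.f k255 k85 14 (.q k240 [(.s k160 k80 11 (.s k165 k175 2 (.s k90 k15 14 (.d k250 k245 k10 2
  11)))), (.s k122 k181 10 (.s k127 k191 7 (.s k117 k112 2 (.s k186 k48 10 (.d k250 k245 k58 2
  7))))), (.s k160 k80 11 (.s k181 k122 10 (.s k165 k175 2 (.s k149 k133 3 (.d k191 k127 k128 7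
  6)))))] (.c k64 (.l (.s k127 k191 7 (.s k160 k80 11 (.s k165 k175 2 (.s k90 k15 14 (.d k250 k245
  k10 2 11)))))) (.c k127 (.q k64 [(.s k160 k80 11 (.s k165 k175 2 (.s k90 k15 14 (.d k250 k245 k10
  2 11)))), (.s k192 k128 7 (.s k80 k160 11 (.s k96 k112 3 (.s k144 k48 11 (.d k208 k224 k16 3
  7))))), (.s k128 k192 7 (.s k181 k122 10 (.s k149 k191 6 (.s k165 k133 3 (.s k250 k245 2 (.d k90
  k15 k10 14 11))))))] .n) .n))))

def t42_156 : T TT 256 :=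
  (.f k255 k85 14 (.q k240 [(.s k160 k80 11 (.s k165 k175 2 (.s k90 k15 14 (.d k250 k245 k10 2
  11)))), (.s k122 k181 10 (.s k127 k191 7 (.s k117 k112 2 (.s k186 k48 10 (.d k250 k245 k58 2
  7))))), (.s k160 k80 11 (.s k181 k122 10 (.s k165 k175 2 (.s k149 k133 3 (.d k191 k127 k128 7
  6)))))] (.c k64 (.l (.s k127 k191 7 (.s k160 k80 11 (.s k165 k175 2 (.s k90 k15 14 (.d k250 k245
  k10 2 11)))))) (.c k127 (.q k64 [(.s k160 k80 11 (.s k165 k175 2 (.s k90 k15 14 (.d k250 k245 k10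
  2 11)))), (.s k192 k128 7 (.s k80 k160 11 (.s k96 k112 3 (.s k144 k48 11 (.d k208 k224 k16 3
  7))))), (.s k128 k192 7 (.s k181 k122 10 (.s k149 k191 6 (.s k165 k133 3 (.s k250 k245 2 (.d k90
  k15 k10 14 11))))))] .n) .n))))

def t42_157 : T TT 256 :=
  (.f k255 k85 14 (.q k240 [(.s k160 k80 11 (.s k165 k175 2 (.s k90 k15 14 (.d k250 k245 k10 2
  11)))), (.s k122 k181 10 (.s k127 k191 7 (.s k117 k112 2 (.s k186 k48 10 (.d k250 k245 k58 2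
  7))))), (.s k160 k80 11 (.s k181 k122 10 (.s k165 k175 2 (.s k149 k133 3 (.d k191 k127 k128 7
  6)))))] (.c k64 (.l (.s k127 k191 7 (.s k160 k80 11 (.s k165 k175 2 (.s k90 k15 14 (.d k250 k245
  k10 2 11)))))) (.c k127 (.q k64 [(.s k160 k80 11 (.s k165 k175 2 (.s k90 k15 14 (.d k250 k245 k10
  2 11)))), (.s k192 k128 7 (.s k80 k160 11 (.s k96 k112 3 (.s k144 k48 11 (.d k208 k224 k16 3
  7))))), (.s k128 k192 7 (.s k181 k122 10 (.s k149 k191 6 (.s k165 k133 3 (.s k250 k245 2 (.d k90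
  k15 k10 14 11))))))] .n) .n))))

def t42_158 : T TT 256 :=
  (.f k255 k85 14 (.q k240 [(.s k160 k80 11 (.s k165 k175 2 (.s k90 k15 14 (.d k250 k245 k10 2
  11)))), (.s k122 k181 10 (.s k127 k191 7 (.s k117 k112 2 (.s k186 k48 10 (.d k250 k245 k58 2
  7))))), (.s k160 k80 11 (.s k181 k122 10 (.s k165 k175 2 (.s k149 k133 3 (.d k191 k127 k128 7
  6)))))] (.c k64 (.l (.s k127 k191 7 (.s k160 k80 11 (.s k165 k175 2 (.s k90 k15 14 (.d k250 k245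
  k10 2 11)))))) (.c k127 (.q k64 [(.s k160 k80 11 (.s k165 k175 2 (.s k90 k15 14 (.d k250 k245 k10
  2 11)))), (.s k192 k128 7 (.s k80 k160 11 (.s k96 k112 3 (.s k144 k48 11 (.d k208 k224 k16 3
  7))))), (.s k128 k192 7 (.s k181 k122 10 (.s k149 k191 6 (.s k165 k133 3 (.s k250 k245 2 (.d k90
  k15 k10 14 11))))))] .n) .n))))

def t42_159 : T TT 256 :=
  (.f k255 k85 14 (.q k240 [(.s k160 k80 11 (.s k165 k175 2 (.s k90 k15 14 (.d k250 k245 k10 2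
  11)))), (.s k122 k181 10 (.s k127 k191 7 (.s k117 k112 2 (.s k186 k48 10 (.d k250 k245 k58 2
  7))))), (.s k160 k80 11 (.s k181 k122 10 (.s k165 k175 2 (.s k149 k133 3 (.d k191 k127 k128 7
  6))))), (.s k250 k245 2 (.s k160 k80 11 (.s k90 k10 11 (.d k165 k175 k15 2 14))))] (.c k64 (.l (.s
  k127 k191 7 (.s k160 k80 11 (.s k250 k245 2 (.s k90 k10 11 (.d k165 k175 k15 2 14)))))) (.c k127
  (.q k64 [(.s k160 k80 11 (.s k165 k175 2 (.s k90 k15 14 (.d k250 k245 k10 2 11)))), (.s k192 k128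
  7 (.s k80 k160 11 (.s k96 k112 3 (.s k144 k48 11 (.d k208 k224 k16 3 7))))), (.s k128 k192 7 (.s
  k181 k122 10 (.s k149 k191 6 (.s k165 k133 3 (.s k250 k245 2 (.d k90 k15 k10 14 11))))))] .n) (.c
  k175 (.l (.s k122 k181 10 (.s k250 k245 2 (.s k186 k58 7 (.s k117 k48 10 (.d k127 k112 k191 2
  7)))))) .n)))))

def t42_160 : T TT 256 :=
  (.f k255 k85 14 (.q k12 [(.s k8 k4 1 (.s k89 k251 12 (.s k166 k243 14 (.d k174 k162 k93 1 12)))),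
  (.s k29 k46 4 (.s k93 k174 12 (.s k157 k221 7 (.s k110 k204 12 (.d k127 k76 k191 4 7))))), (.s k8
  k4 1 (.s k89 k251 12 (.s k29 k46 4 (.s k149 k209 9 (.d k191 k127 k128 7 6)))))] (.c k64 (.l (.s
  k127 k191 7 (.s k8 k4 1 (.s k89 k251 12 (.s k166 k243 14 (.d k174 k162 k93 1 12)))))) (.c k127 (.q
  k64 [(.s k8 k4 1 (.s k89 k251 12 (.s k166 k243 14 (.d k174 k162 k93 1 12)))), (.s k192 k128 7 (.s
  k72 k132 9 (.s k68 k76 1 (.s k136 k204 9 (.d k8 k4 k200 1 7))))), (.s k128 k192 7 (.s k29 k46 4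
  (.s k174 k93 12 (.s k149 k191 6 (.s k89 k209 9 (.d k166 k243 k162 14 1))))))] (.c k93 (.l (.s k8
  k4 1 (.s k128 k192 7 (.s k89 k251 12 (.s k29 k46 4 (.d k149 k191 k209 6 9)))))) .n)) (.c k166 (.l
  (.s k46 k29 4 (.s k174 k93 12 (.s k110 k238 7 (.s k157 k204 12 (.d k191 k140 k127 4 7))))))
  .n)))))

def t42_161 : T TT 256 :=
  (.f k255 k85 14 (.q k12 [(.s k8 k4 1 (.s k89 k251 12 (.s k166 k243 14 (.d k174 k162 k93 1 12)))),
  (.s k29 k46 4 (.s k93 k174 12 (.s k157 k221 7 (.s k110 k204 12 (.d k127 k76 k191 4 7))))), (.s k8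
  k4 1 (.s k89 k251 12 (.s k29 k46 4 (.s k149 k209 9 (.d k191 k127 k128 7 6)))))] (.c k64 (.l (.s
  k127 k191 7 (.s k8 k4 1 (.s k89 k251 12 (.s k166 k243 14 (.d k174 k162 k93 1 12)))))) (.c k127 (.q
  k64 [(.s k8 k4 1 (.s k89 k251 12 (.s k166 k243 14 (.d k174 k162 k93 1 12)))), (.s k192 k128 7 (.s
  k72 k132 9 (.s k68 k76 1 (.s k136 k204 9 (.d k8 k4 k200 1 7))))), (.s k128 k192 7 (.s k29 k46 4
  (.s k174 k93 12 (.s k149 k191 6 (.s k89 k209 9 (.d k166 k243 k162 14 1))))))] (.c k93 (.l (.s k8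
  k4 1 (.s k128 k192 7 (.s k89 k251 12 (.s k29 k46 4 (.d k149 k191 k209 6 9)))))) .n)) (.c k166 (.l
  (.s k46 k29 4 (.s k174 k93 12 (.s k110 k238 7 (.s k157 k204 12 (.d k191 k140 k127 4 7))))))
  .n)))))

def t42_162 : T TT 256 :=
  (.f k255 k85 14 (.q k240 [(.s k160 k80 11 (.s k165 k175 2 (.s k90 k15 14 (.d k250 k245 k10 2
  11)))), (.s k122 k181 10 (.s k127 k191 7 (.s k117 k112 2 (.s k186 k48 10 (.d k250 k245 k58 2
  7))))), (.s k160 k80 11 (.s k181 k122 10 (.s k165 k175 2 (.s k149 k133 3 (.d k191 k127 k128 7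
  6)))))] (.c k64 (.l (.s k127 k191 7 (.s k160 k80 11 (.s k165 k175 2 (.s k90 k15 14 (.d k250 k245
  k10 2 11)))))) (.c k127 (.q k64 [(.s k160 k80 11 (.s k165 k175 2 (.s k90 k15 14 (.d k250 k245 k10
  2 11)))), (.s k192 k128 7 (.s k80 k160 11 (.s k96 k112 3 (.s k144 k48 11 (.d k208 k224 k16 3
  7))))), (.s k128 k192 7 (.s k181 k122 10 (.s k149 k191 6 (.s k165 k133 3 (.s k250 k245 2 (.d k90
  k15 k10 14 11))))))] .n) .n))))

def t42_163 : T TT 256 :=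
  (.f k255 k85 14 (.q k240 [(.s k122 k181 10 (.s k127 k191 7 (.s k117 k112 2 (.s k186 k48 10 (.d
  k250 k245 k58 2 7))))), (.s k160 k80 11 (.s k165 k175 2 (.s k90 k15 14 (.d k250 k245 k10 2 11)))),
  (.s k160 k80 11 (.s k181 k122 10 (.s k165 k175 2 (.s k149 k133 3 (.d k191 k127 k128 7 6)))))] (.c
  k64 (.l (.s k127 k191 7 (.s k160 k80 11 (.s k165 k175 2 (.s k90 k15 14 (.d k250 k245 k10 2
  11)))))) (.c k127 (.q k64 [(.s k160 k80 11 (.s k165 k175 2 (.s k90 k15 14 (.d k250 k245 k10 2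
  11)))), (.s k192 k128 7 (.s k80 k160 11 (.s k96 k112 3 (.s k144 k48 11 (.d k208 k224 k16 3 7))))),
  (.s k128 k192 7 (.s k181 k122 10 (.s k149 k191 6 (.s k165 k133 3 (.s k250 k245 2 (.d k90 k15 k10
  14 11))))))] .n) .n))))

def t42_164 : T TT 256 :=
  (.f k255 k85 14 (.q k240 [(.s k160 k80 11 (.s k165 k175 2 (.s k90 k15 14 (.d k250 k245 k10 2
  11)))), (.s k122 k181 10 (.s k127 k191 7 (.s k117 k112 2 (.s k186 k48 10 (.d k250 k245 k58 2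
  7))))), (.s k160 k80 11 (.s k181 k122 10 (.s k165 k175 2 (.s k149 k133 3 (.d k191 k127 k128 7
  6)))))] (.c k64 (.l (.s k127 k191 7 (.s k160 k80 11 (.s k165 k175 2 (.s k90 k15 14 (.d k250 k245
  k10 2 11)))))) (.c k127 (.q k64 [(.s k160 k80 11 (.s k165 k175 2 (.s k90 k15 14 (.d k250 k245 k10
  2 11)))), (.s k192 k128 7 (.s k80 k160 11 (.s k96 k112 3 (.s k144 k48 11 (.d k208 k224 k16 3
  7))))), (.s k128 k192 7 (.s k181 k122 10 (.s k149 k191 6 (.s k165 k133 3 (.s k250 k245 2 (.d k90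
  k15 k10 14 11))))))] .n) .n))))

def t42_165 : T TT 256 :=
  (.f k255 k85 14 (.q k48 [(.s k32 k16 3 (.s k101 k239 10 (.s k154 k207 14 (.d k186 k138 k117 3
  10)))), (.s k53 k58 2 (.s k117 k186 10 (.s k127 k191 7 (.s k122 k112 2 (.d k181 k245 k240 7
  10))))), (.s k32 k16 3 (.s k101 k239 10 (.s k53 k58 2 (.s k149 k197 11 (.d k191 k127 k128 7
  6)))))] (.c k5 (.q k245 [(.s k117 k186 10 (.d k53 k58 k181 2 7)), (.s k32 k16 3 (.s k101 k239 10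
  (.s k154 k207 14 (.d k186 k138 k117 3 10)))), (.s k32 k16 3 (.s k101 k239 10 (.s k53 k58 2 (.s
  k149 k197 11 (.d k191 k127 k128 7 6)))))] (.c k47 (.q k224 [(.s k117 k186 10 (.d k53 k58 k181 2
  7)), (.s k32 k16 3 (.s k160 k96 7 (.d k240 k250 k80 2 11)))] (.c k32 (.q k37 [(.s k117 k186 10 (.d
  k53 k58 k181 2 7)), (.s k240 k250 2 (.s k80 k160 11 (.s k112 k176 7 (.s k64 k96 3 (.d k192 k128
  k208 7 3)))))] (.c k64 (.l (.s k127 k191 7 (.s k53 k58 2 (.d k117 k181 k186 7 10)))) (.c k127 (.q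
  k64 [(.s k192 k128 7 (.d k240 k250 k208 2 3)), (.s k53 k58 2 (.d k117 k181 k186 7 10))] .n) .n)))
  (.c k37 (.l (.s k32 k16 3 (.s k160 k96 7 (.d k240 k250 k80 2 11)))) (.c k64 (.l (.s k127 k191 7
  (.s k53 k58 2 (.d k117 k181 k186 7 10)))) (.c k127 (.q k64 [(.s k192 k128 7 (.d k240 k250 k208 2
  3)), (.s k53 k58 2 (.d k117 k181 k186 7 10))] (.c k32 (.q k37 [(.s k192 k128 7 (.d k240 k250 k208
  2 3)), (.s k53 k58 2 (.d k117 k181 k186 7 10))] .n) (.c k37 (.l (.s k32 k16 3 (.s k192 k128 7 (.d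
  k96 k160 k144 7 11)))) .n))) .n))))) (.c k64 (.l (.s k127 k191 7 (.s k53 k58 2 (.d k117 k181 k186
  7 10)))) (.c k127 (.q k64 [(.s k117 k186 10 (.d k53 k58 k181 2 7)), (.s k240 k250 2 (.s k80 k160
  11 (.d k112 k96 k176 3 7)))] (.c k47 (.q k224 [(.s k192 k128 7 (.d k240 k250 k208 2 3)), (.s k53
  k58 2 (.d k117 k181 k186 7 10))] (.c k32 (.q k37 [(.s k192 k128 7 (.d k240 k250 k208 2 3)), (.s
  k53 k58 2 (.d k117 k181 k186 7 10))] .n) (.c k37 (.l (.s k32 k16 3 (.s k192 k128 7 (.d k96 k160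
  k144 7 11)))) .n))) (.c k224 (.q k47 [(.s k117 k186 10 (.d k53 k58 k181 2 7)), (.s k240 k250 2 (.s
  k80 k160 11 (.d k112 k96 k176 3 7)))] .n) .n))) (.c k224 (.q k47 [(.s k117 k186 10 (.d k53 k58
  k181 2 7)), (.s k32 k16 3 (.s k15 k31 3 (.s k175 k95 11 (.d k239 k111 k101 7 10))))] (.c k64 (.l
  (.s k127 k191 7 (.s k53 k58 2 (.d k117 k181 k186 7 10)))) (.c k127 (.q k64 [(.s k117 k186 10 (.d
  k53 k58 k181 2 7)), (.s k240 k250 2 (.s k80 k160 11 (.d k112 k96 k176 3 7)))] .n) .n))) .n)))))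
  (.c k47 (.q k224 [(.s k32 k16 3 (.s k186 k117 10 (.s k154 k138 3 (.d k101 k239 k207 10 14)))), (.s
  k53 k58 2 (.s k117 k186 10 (.s k127 k191 7 (.s k122 k112 2 (.d k181 k245 k240 7 10))))), (.s k32
  k16 3 (.s k96 k160 7 (.s k192 k144 11 (.s k234 k213 6 (.d k239 k229 k101 2 10)))))] (.c k5 (.q
  k245 [(.s k117 k186 10 (.d k53 k58 k181 2 7)), (.s k32 k16 3 (.s k160 k96 7 (.d k240 k250 k80 2
  11)))] (.c k32 (.q k37 [(.s k117 k186 10 (.d k53 k58 k181 2 7)), (.s k240 k250 2 (.s k80 k160 11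
  (.s k112 k176 7 (.s k64 k96 3 (.d k192 k128 k208 7 3)))))] (.c k64 (.l (.s k127 k191 7 (.s k53 k58
  2 (.d k117 k181 k186 7 10)))) (.c k127 (.q k64 [(.s k192 k128 7 (.d k240 k250 k208 2 3)), (.s k53
  k58 2 (.d k117 k181 k186 7 10))] .n) .n))) (.c k37 (.l (.s k32 k16 3 (.s k160 k96 7 (.d k240 k250
  k80 2 11)))) (.c k64 (.l (.s k127 k191 7 (.s k53 k58 2 (.d k117 k181 k186 7 10)))) (.c k127 (.q
  k64 [(.s k192 k128 7 (.d k240 k250 k208 2 3)), (.s k53 k58 2 (.d k117 k181 k186 7 10))] (.c k32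
  (.q k37 [(.s k192 k128 7 (.d k240 k250 k208 2 3)), (.s k53 k58 2 (.d k117 k181 k186 7 10))] .n)
  (.c k37 (.l (.s k32 k16 3 (.s k192 k128 7 (.d k96 k160 k144 7 11)))) .n))) .n))))) (.c k32 (.q k37
  [(.s k53 k58 2 (.s k5 k21 3 (.d k15 k10 k26 2 6))), (.s k58 k53 2 (.s k186 k117 10 (.s k122 k250 7
  (.s k181 k240 10 (.d k191 k127 k176 7 2)))))] (.c k5 (.q k245 [(.s k117 k186 10 (.d k53 k58 k181 2
  7)), (.s k240 k250 2 (.s k80 k160 11 (.s k112 k176 7 (.s k64 k96 3 (.d k192 k128 k208 7 3)))))]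
  (.c k64 (.l (.s k127 k191 7 (.s k53 k58 2 (.d k117 k181 k186 7 10)))) (.c k127 (.q k64 [(.s k192
  k128 7 (.d k240 k250 k208 2 3)), (.s k53 k58 2 (.d k117 k181 k186 7 10))] .n) .n))) (.c k15 (.l
  (.s k53 k58 2 (.s k117 k186 10 (.s k127 k191 7 (.s k122 k112 2 (.d k181 k245 k240 7 10)))))) (.c
  k53 (.l (.s k15 k26 6 (.s k95 k175 11 (.s k186 k117 10 (.s k127 k191 7 (.s k111 k79 3 (.s k138
  k154 3 (.d k207 k69 k159 10 11)))))))) (.c k58 (.l (.s k117 k186 10 (.s k127 k191 7 (.s k122 k112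
  2 (.s k181 k240 10 (.s k53 k245 7 (.s k5 k21 3 (.d k15 k10 k26 2 6)))))))) (.c k64 (.l (.s k127
  k191 7 (.s k53 k58 2 (.s k5 k21 3 (.d k15 k10 k26 2 6))))) (.c k127 (.q k64 [(.s k53 k58 2 (.s k5
  k21 3 (.d k15 k10 k26 2 6))), (.s k192 k128 7 (.s k96 k144 11 (.s k80 k112 3 (.d k240 k160 k208 11
  3))))] (.c k5 (.q k245 [(.s k192 k128 7 (.d k240 k250 k208 2 3)), (.s k53 k58 2 (.d k117 k181 k186
  7 10))] .n) (.c k245 (.q k5 [(.d k15 k10 k26 2 6), (.d k53 k58 k21 2 3)] .n) .n))) (.c k245 (.q k5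
  [(.d k15 k10 k26 2 6), (.d k53 k58 k21 2 3)] (.c k64 (.l (.s k127 k191 7 (.d k15 k10 k26 2 6)))
  (.c k127 (.q k64 [(.d k15 k10 k26 2 6), (.d k53 k58 k21 2 3)] .n) .n))) .n)))))))) (.c k37 (.l (.s
  k32 k16 3 (.s k101 k239 10 (.s k154 k207 14 (.d k186 k138 k117 3 10))))) (.c k64 (.l (.s k127 k191
  7 (.s k32 k16 3 (.s k101 k239 10 (.s k154 k207 14 (.d k186 k138 k117 3 10)))))) (.c k127 (.q k64
  [(.s k192 k128 7 (.s k96 k144 11 (.d k32 k160 k16 7 3))), (.s k32 k16 3 (.s k101 k239 10 (.s k154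
  k207 14 (.d k186 k138 k117 3 10))))] (.c k5 (.q k245 [(.s k192 k128 7 (.d k240 k250 k208 2 3)),
  (.s k53 k58 2 (.d k117 k181 k186 7 10))] (.c k32 (.q k37 [(.s k192 k128 7 (.d k240 k250 k208 2
  3)), (.s k53 k58 2 (.d k117 k181 k186 7 10))] .n) (.c k37 (.l (.s k32 k16 3 (.s k192 k128 7 (.d
  k96 k160 k144 7 11)))) .n))) (.c k16 (.l (.s k192 k128 7 (.s k96 k144 11 (.s k80 k112 3 (.d k160
  k32 k240 7 11))))) (.c k32 (.q k37 [(.s k53 k58 2 (.s k5 k21 3 (.d k15 k10 k26 2 6))), (.s k192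
  k128 7 (.s k96 k144 11 (.s k80 k112 3 (.d k240 k160 k208 11 3))))] (.c k5 (.q k245 [(.s k192 k128
  7 (.d k240 k250 k208 2 3)), (.s k53 k58 2 (.d k117 k181 k186 7 10))] .n) (.c k245 (.q k5 [(.d k15
  k10 k26 2 6), (.d k53 k58 k21 2 3)] .n) .n))) (.c k37 (.l (.s k32 k16 3 (.s k192 k128 7 (.d k96
  k160 k144 7 11)))) (.c k245 (.q k5 [(.s k192 k128 7 (.s k96 k144 11 (.d k32 k160 k16 7 3))), (.s
  k53 k58 2 (.s k37 k21 3 (.d k15 k10 k26 2 6)))] (.c k32 (.q k37 [(.d k15 k10 k26 2 6), (.d k53 k58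
  k21 2 3)] .n) (.c k37 (.l (.s k32 k16 3 (.s k192 k128 7 (.d k96 k160 k144 7 11)))) .n))) .n))))))
  (.c k154 (.l (.s k58 k53 2 (.s k186 k117 10 (.s k122 k250 7 (.s k181 k240 10 (.d k191 k176 k127 2
  7)))))) (.c k245 (.q k5 [(.s k53 k58 2 (.s k37 k21 3 (.d k15 k10 k26 2 6))), (.s k32 k16 3 (.s
  k101 k239 10 (.s k154 k207 14 (.d k186 k138 k117 3 10))))] (.c k32 (.q k37 [(.d k15 k10 k26 2 6),
  (.d k53 k58 k21 2 3)] (.c k64 (.l (.s k127 k191 7 (.d k15 k10 k26 2 6))) (.c k127 (.q k64 [(.d k15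
  k10 k26 2 6), (.d k53 k58 k21 2 3)] .n) .n))) (.c k37 (.l (.s k32 k16 3 (.s k101 k239 10 (.s k154
  k207 14 (.d k186 k138 k117 3 10))))) (.c k64 (.l (.s k127 k191 7 (.s k53 k58 2 (.s k37 k21 3 (.d
  k15 k10 k26 2 6))))) (.c k127 (.q k64 [(.s k192 k128 7 (.s k96 k144 11 (.d k32 k160 k16 7 3))),
  (.s k53 k58 2 (.s k37 k21 3 (.d k15 k10 k26 2 6)))] (.c k32 (.q k37 [(.d k15 k10 k26 2 6), (.d k53
  k58 k21 2 3)] .n) (.c k37 (.l (.s k32 k16 3 (.s k192 k128 7 (.d k96 k160 k144 7 11)))) .n))) (.c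
  k154 (.f k127 k191 7 (.l (.s k10 k15 2 (.s k90 k250 11 (.s k58 k53 2 (.s k117 k186 10 (.s k112
  k122 2 (.s k101 k79 6 (.d k32 k16 k239 3 10))))))))) .n)))))) .n)))))))) (.c k64 (.l (.s k127 k191
  7 (.s k32 k16 3 (.s k101 k239 10 (.s k154 k207 14 (.d k186 k138 k117 3 10)))))) (.c k127 (.q k64
  [(.s k32 k16 3 (.s k101 k239 10 (.s k154 k207 14 (.d k186 k138 k117 3 10)))), (.s k192 k128 7 (.s
  k96 k144 11 (.s k80 k112 3 (.s k160 k240 11 (.d k32 k224 k16 7 3))))), (.s k128 k192 7 (.s k53 k58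
  2 (.s k186 k117 10 (.s k149 k191 6 (.s k101 k197 11 (.d k154 k207 k138 14 3))))))] (.c k5 (.q k245
  [(.s k117 k186 10 (.d k53 k58 k181 2 7)), (.s k240 k250 2 (.s k80 k160 11 (.d k112 k96 k176 3
  7)))] (.c k47 (.q k224 [(.s k192 k128 7 (.d k240 k250 k208 2 3)), (.s k53 k58 2 (.d k117 k181 k186
  7 10))] (.c k32 (.q k37 [(.s k192 k128 7 (.d k240 k250 k208 2 3)), (.s k53 k58 2 (.d k117 k181
  k186 7 10))] .n) (.c k37 (.l (.s k32 k16 3 (.s k192 k128 7 (.d k96 k160 k144 7 11)))) .n))) (.c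
  k224 (.q k47 [(.s k117 k186 10 (.d k53 k58 k181 2 7)), (.s k240 k250 2 (.s k80 k160 11 (.d k112
  k96 k176 3 7)))] .n) .n))) (.c k47 (.q k224 [(.s k192 k128 7 (.s k96 k144 11 (.d k32 k160 k16 7
  3))), (.s k32 k16 3 (.s k101 k239 10 (.s k154 k207 14 (.d k186 k138 k117 3 10))))] (.c k5 (.q k245
  [(.s k192 k128 7 (.d k240 k250 k208 2 3)), (.s k53 k58 2 (.d k117 k181 k186 7 10))] (.c k32 (.q
  k37 [(.s k192 k128 7 (.d k240 k250 k208 2 3)), (.s k53 k58 2 (.d k117 k181 k186 7 10))] .n) (.c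
  k37 (.l (.s k32 k16 3 (.s k192 k128 7 (.d k96 k160 k144 7 11)))) .n))) (.c k16 (.l (.s k192 k128 7
  (.s k96 k144 11 (.s k80 k112 3 (.d k160 k32 k240 7 11))))) (.c k32 (.q k37 [(.s k53 k58 2 (.s k5
  k21 3 (.d k15 k10 k26 2 6))), (.s k192 k128 7 (.s k96 k144 11 (.s k80 k112 3 (.d k240 k160 k208 11
  3))))] (.c k5 (.q k245 [(.s k192 k128 7 (.d k240 k250 k208 2 3)), (.s k53 k58 2 (.d k117 k181 k186
  7 10))] .n) (.c k245 (.q k5 [(.d k15 k10 k26 2 6), (.d k53 k58 k21 2 3)] .n) .n))) (.c k37 (.l (.s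
  k32 k16 3 (.s k192 k128 7 (.d k96 k160 k144 7 11)))) (.c k245 (.q k5 [(.s k192 k128 7 (.s k96 k144
  11 (.d k32 k160 k16 7 3))), (.s k53 k58 2 (.s k37 k21 3 (.d k15 k10 k26 2 6)))] (.c k32 (.q k37
  [(.d k15 k10 k26 2 6), (.d k53 k58 k21 2 3)] .n) (.c k37 (.l (.s k32 k16 3 (.s k192 k128 7 (.d k96
  k160 k144 7 11)))) .n))) .n)))))) (.c k117 (.l (.s k32 k16 3 (.s k128 k192 7 (.s k101 k239 10 (.s
  k53 k58 2 (.d k149 k191 k197 6 11)))))) (.c k224 (.q k47 [(.s k32 k16 3 (.s k101 k239 10 (.s k154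
  k207 14 (.d k186 k138 k117 3 10)))), (.s k128 k192 7 (.s k15 k31 3 (.s k175 k95 11 (.s k111 k239 7
  (.s k159 k207 11 (.d k191 k143 k149 3 6)))))), (.s k32 k16 3 (.s k15 k31 3 (.s k175 k95 11 (.d
  k239 k111 k101 7 10))))] (.c k5 (.q k245 [(.s k117 k186 10 (.d k53 k58 k181 2 7)), (.s k240 k250 2
  (.s k80 k160 11 (.d k112 k96 k176 3 7)))] .n) (.c k223 (.l (.s k186 k117 10 (.s k32 k16 3 (.s k154
  k138 3 (.d k101 k239 k207 10 14))))) (.c k239 (.l (.s k128 k192 7 (.s k15 k31 3 (.s k186 k117 10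
  (.s k138 k154 3 (.s k143 k133 2 (.d k207 k69 k79 10 7))))))) (.c k245 (.q k5 [(.d k15 k10 k31 2
  3), (.s k32 k16 3 (.s k101 k239 10 (.s k154 k207 14 (.d k186 k138 k117 3 10))))] .n) .n))))) (.c
  k245 (.q k5 [(.s k32 k16 3 (.s k101 k239 10 (.s k154 k207 14 (.d k186 k138 k117 3 10)))), (.s k53
  k58 2 (.s k37 k21 3 (.d k15 k10 k26 2 6)))] (.c k47 (.q k224 [(.s k192 k128 7 (.s k96 k144 11 (.d
  k32 k160 k16 7 3))), (.s k53 k58 2 (.s k37 k21 3 (.d k15 k10 k26 2 6)))] (.c k32 (.q k37 [(.d k15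
  k10 k26 2 6), (.d k53 k58 k21 2 3)] .n) (.c k37 (.l (.s k32 k16 3 (.s k192 k128 7 (.d k96 k160
  k144 7 11)))) .n))) (.c k154 (.l (.s k192 k128 7 (.s k96 k144 11 (.s k80 k112 3 (.s k160 k240 11
  (.d k32 k16 k224 3 7)))))) (.c k224 (.q k47 [(.d k15 k10 k31 2 3), (.s k32 k16 3 (.s k101 k239 10
  (.s k154 k207 14 (.d k186 k138 k117 3 10))))] .n) .n)))) .n)))))) (.c k154 (.l (.s k58 k53 2 (.s
  k186 k117 10 (.s k122 k250 7 (.s k181 k240 10 (.d k191 k176 k127 2 7)))))) (.c k224 (.q k47 [(.s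
  k186 k117 10 (.s k32 k16 3 (.s k154 k138 3 (.d k101 k239 k207 10 14)))), (.s k15 k31 3 (.s k175
  k95 11 (.s k111 k239 7 (.s k159 k207 11 (.d k191 k127 k143 7 3))))), (.s k15 k31 3 (.s k58 k53 2
  (.s k186 k117 10 (.s k250 k122 7 (.d k10 k5 k90 2 11)))))] (.c k5 (.q k245 [(.s k117 k186 10 (.d
  k53 k58 k181 2 7)), (.s k32 k16 3 (.s k15 k31 3 (.s k175 k95 11 (.d k239 k111 k101 7 10))))] (.c
  k64 (.l (.s k127 k191 7 (.s k53 k58 2 (.d k117 k181 k186 7 10)))) (.c k127 (.q k64 [(.s k117 k186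
  10 (.d k53 k58 k181 2 7)), (.s k240 k250 2 (.s k80 k160 11 (.d k112 k96 k176 3 7)))] .n) .n))) (.c
  k64 (.l (.s k127 k191 7 (.s k32 k16 3 (.s k15 k31 3 (.s k175 k95 11 (.d k239 k111 k101 7 10))))))
  (.c k127 (.q k64 [(.s k32 k16 3 (.s k101 k239 10 (.s k154 k207 14 (.d k186 k138 k117 3 10)))), (.s
  k128 k192 7 (.s k15 k31 3 (.s k175 k95 11 (.s k111 k239 7 (.s k159 k207 11 (.d k191 k143 k149 3
  6)))))), (.s k32 k16 3 (.s k15 k31 3 (.s k175 k95 11 (.d k239 k111 k101 7 10))))] (.c k5 (.q k245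
  [(.s k117 k186 10 (.d k53 k58 k181 2 7)), (.s k240 k250 2 (.s k80 k160 11 (.d k112 k96 k176 3
  7)))] .n) (.c k223 (.l (.s k186 k117 10 (.s k32 k16 3 (.s k154 k138 3 (.d k101 k239 k207 10
  14))))) (.c k239 (.l (.s k128 k192 7 (.s k15 k31 3 (.s k186 k117 10 (.s k138 k154 3 (.s k143 k133
  2 (.d k207 k69 k79 10 7))))))) (.c k245 (.q k5 [(.d k15 k10 k31 2 3), (.s k32 k16 3 (.s k101 k239
  10 (.s k154 k207 14 (.d k186 k138 k117 3 10))))] .n) .n))))) (.c k245 (.q k5 [(.d k15 k10 k31 2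
  3), (.s k32 k16 3 (.s k101 k239 10 (.s k154 k207 14 (.d k186 k138 k117 3 10))))] (.c k64 (.l (.s
  k127 k191 7 (.d k15 k10 k31 2 3))) (.c k127 (.q k64 [(.d k15 k10 k31 2 3), (.s k32 k16 3 (.s k101
  k239 10 (.s k154 k207 14 (.d k186 k138 k117 3 10))))] .n) .n))) .n))))) (.c k245 (.q k5 [(.s k32
  k16 3 (.s k101 k239 10 (.s k154 k207 14 (.d k186 k138 k117 3 10)))), (.s k53 k58 2 (.s k37 k21 3
  (.d k15 k10 k26 2 6)))] (.c k47 (.q k224 [(.s k53 k58 2 (.s k37 k21 3 (.d k15 k10 k26 2 6))), (.s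
  k32 k16 3 (.s k101 k239 10 (.s k154 k207 14 (.d k186 k138 k117 3 10))))] (.c k32 (.q k37 [(.d k15
  k10 k26 2 6), (.d k53 k58 k21 2 3)] (.c k64 (.l (.s k127 k191 7 (.d k15 k10 k26 2 6))) (.c k127
  (.q k64 [(.d k15 k10 k26 2 6), (.d k53 k58 k21 2 3)] .n) .n))) (.c k37 (.l (.s k32 k16 3 (.s k101
  k239 10 (.s k154 k207 14 (.d k186 k138 k117 3 10))))) (.c k64 (.l (.s k127 k191 7 (.s k53 k58 2
  (.s k37 k21 3 (.d k15 k10 k26 2 6))))) (.c k127 (.q k64 [(.s k192 k128 7 (.s k96 k144 11 (.d k32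
  k160 k16 7 3))), (.s k53 k58 2 (.s k37 k21 3 (.d k15 k10 k26 2 6)))] (.c k32 (.q k37 [(.d k15 k10
  k26 2 6), (.d k53 k58 k21 2 3)] .n) (.c k37 (.l (.s k32 k16 3 (.s k192 k128 7 (.d k96 k160 k144 7
  11)))) .n))) (.c k154 (.f k127 k191 7 (.l (.s k10 k15 2 (.s k90 k250 11 (.s k58 k53 2 (.s k117
  k186 10 (.s k112 k122 2 (.s k101 k79 6 (.d k32 k16 k239 3 10))))))))) .n)))))) (.c k64 (.l (.s
  k127 k191 7 (.s k53 k58 2 (.s k37 k21 3 (.d k15 k10 k26 2 6))))) (.c k127 (.q k64 [(.s k32 k16 3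
  (.s k101 k239 10 (.s k154 k207 14 (.d k186 k138 k117 3 10)))), (.s k53 k58 2 (.s k37 k21 3 (.d k15
  k10 k26 2 6)))] (.c k47 (.q k224 [(.s k192 k128 7 (.s k96 k144 11 (.d k32 k160 k16 7 3))), (.s k53
  k58 2 (.s k37 k21 3 (.d k15 k10 k26 2 6)))] (.c k32 (.q k37 [(.d k15 k10 k26 2 6), (.d k53 k58 k21
  2 3)] .n) (.c k37 (.l (.s k32 k16 3 (.s k192 k128 7 (.d k96 k160 k144 7 11)))) .n))) (.c k154 (.l
  (.s k192 k128 7 (.s k96 k144 11 (.s k80 k112 3 (.s k160 k240 11 (.d k32 k16 k224 3 7)))))) (.c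
  k224 (.q k47 [(.d k15 k10 k31 2 3), (.s k32 k16 3 (.s k101 k239 10 (.s k154 k207 14 (.d k186 k138
  k117 3 10))))] .n) .n)))) (.c k154 (.l (.s k15 k10 2 (.s k47 k31 3 (.s k175 k95 11 (.s k239 k111 7
  (.d k32 k101 k16 10 3)))))) (.c k224 (.q k47 [(.d k15 k10 k31 2 3), (.s k32 k16 3 (.s k101 k239 10
  (.s k154 k207 14 (.d k186 k138 k117 3 10))))] (.c k64 (.l (.s k127 k191 7 (.d k15 k10 k31 2 3)))
  (.c k127 (.q k64 [(.d k15 k10 k31 2 3), (.s k32 k16 3 (.s k101 k239 10 (.s k154 k207 14 (.d k186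
  k138 k117 3 10))))] .n) .n))) .n)))))) .n)))))))))

def t42_166 : T TT 256 :=
  (.f k255 k85 14 (.q k51 [(.s k34 k17 4 (.s k102 k238 9 (.s k153 k204 14 (.d k187 k136 k119 4
  9)))), (.s k55 k59 1 (.s k119 k187 9 (.s k127 k191 7 (.s k123 k115 1 (.d k183 k247 k243 7 9))))),
  (.s k34 k17 4 (.s k102 k238 9 (.s k55 k59 1 (.s k149 k196 12 (.d k191 k127 k128 7 6)))))] (.c k4
  (.q k247 [(.s k119 k187 9 (.d k55 k59 k183 1 7)), (.s k34 k17 4 (.s k102 k238 9 (.s k153 k204 14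
  (.d k187 k136 k119 4 9)))), (.s k34 k17 4 (.s k102 k238 9 (.s k55 k59 1 (.s k149 k196 12 (.d k191
  k127 k128 7 6)))))] (.c k46 (.q k226 [(.s k119 k187 9 (.d k55 k59 k183 1 7)), (.s k34 k17 4 (.s
  k162 k98 7 (.d k243 k251 k81 1 12)))] (.c k34 (.q k38 [(.s k119 k187 9 (.d k55 k59 k183 1 7)), (.s
  k243 k251 1 (.s k81 k162 12 (.s k115 k179 7 (.s k64 k98 4 (.d k192 k128 k209 7 4)))))] (.c k64 (.l
  (.s k127 k191 7 (.s k55 k59 1 (.d k119 k183 k187 7 9)))) (.c k127 (.q k64 [(.s k192 k128 7 (.d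
  k243 k251 k209 1 4)), (.s k55 k59 1 (.d k119 k183 k187 7 9))] .n) .n))) (.c k38 (.l (.s k34 k17 4
  (.s k162 k98 7 (.d k243 k251 k81 1 12)))) (.c k64 (.l (.s k127 k191 7 (.s k55 k59 1 (.d k119 k183
  k187 7 9)))) (.c k127 (.q k64 [(.s k192 k128 7 (.d k243 k251 k209 1 4)), (.s k55 k59 1 (.d k119
  k183 k187 7 9))] (.c k34 (.q k38 [(.s k192 k128 7 (.d k243 k251 k209 1 4)), (.s k55 k59 1 (.d k119
  k183 k187 7 9))] .n) (.c k38 (.l (.s k34 k17 4 (.s k192 k128 7 (.d k98 k162 k145 7 12)))) .n)))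
  .n))))) (.c k64 (.l (.s k127 k191 7 (.s k55 k59 1 (.d k119 k183 k187 7 9)))) (.c k127 (.q k64 [(.s
  k119 k187 9 (.d k55 k59 k183 1 7)), (.s k243 k251 1 (.s k81 k162 12 (.d k115 k98 k179 4 7)))] (.c
  k46 (.q k226 [(.s k192 k128 7 (.d k243 k251 k209 1 4)), (.s k55 k59 1 (.d k119 k183 k187 7 9))]
  (.c k34 (.q k38 [(.s k192 k128 7 (.d k243 k251 k209 1 4)), (.s k55 k59 1 (.d k119 k183 k187 7 9))]
  .n) (.c k38 (.l (.s k34 k17 4 (.s k192 k128 7 (.d k98 k162 k145 7 12)))) .n))) (.c k226 (.q k46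
  [(.s k119 k187 9 (.d k55 k59 k183 1 7)), (.s k243 k251 1 (.s k81 k162 12 (.d k115 k98 k179 4 7)))]
  .n) .n))) (.c k226 (.q k46 [(.s k119 k187 9 (.d k55 k59 k183 1 7)), (.s k34 k17 4 (.s k12 k29 4
  (.s k174 k93 12 (.d k238 k110 k102 7 9))))] (.c k64 (.l (.s k127 k191 7 (.s k55 k59 1 (.d k119
  k183 k187 7 9)))) (.c k127 (.q k64 [(.s k119 k187 9 (.d k55 k59 k183 1 7)), (.s k243 k251 1 (.s
  k81 k162 12 (.d k115 k98 k179 4 7)))] .n) .n))) .n))))) (.c k46 (.q k226 [(.s k34 k17 4 (.s k187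
  k119 9 (.s k153 k136 4 (.d k102 k238 k204 9 14)))), (.s k55 k59 1 (.s k119 k187 9 (.s k127 k191 7
  (.s k123 k115 1 (.d k183 k247 k243 7 9))))), (.s k34 k17 4 (.s k98 k162 7 (.s k192 k145 12 (.s
  k234 k213 6 (.d k238 k230 k102 1 9)))))] (.c k4 (.q k247 [(.s k119 k187 9 (.d k55 k59 k183 1 7)),
  (.s k34 k17 4 (.s k162 k98 7 (.d k243 k251 k81 1 12)))] (.c k34 (.q k38 [(.s k119 k187 9 (.d k55
  k59 k183 1 7)), (.s k243 k251 1 (.s k81 k162 12 (.s k115 k179 7 (.s k64 k98 4 (.d k192 k128 k209 7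
  4)))))] (.c k64 (.l (.s k127 k191 7 (.s k55 k59 1 (.d k119 k183 k187 7 9)))) (.c k127 (.q k64 [(.s
  k192 k128 7 (.d k243 k251 k209 1 4)), (.s k55 k59 1 (.d k119 k183 k187 7 9))] .n) .n))) (.c k38
  (.l (.s k34 k17 4 (.s k162 k98 7 (.d k243 k251 k81 1 12)))) (.c k64 (.l (.s k127 k191 7 (.s k55
  k59 1 (.d k119 k183 k187 7 9)))) (.c k127 (.q k64 [(.s k192 k128 7 (.d k243 k251 k209 1 4)), (.s
  k55 k59 1 (.d k119 k183 k187 7 9))] (.c k34 (.q k38 [(.s k192 k128 7 (.d k243 k251 k209 1 4)), (.s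
  k55 k59 1 (.d k119 k183 k187 7 9))] .n) (.c k38 (.l (.s k34 k17 4 (.s k192 k128 7 (.d k98 k162
  k145 7 12)))) .n))) .n))))) (.c k34 (.q k38 [(.s k55 k59 1 (.s k4 k21 4 (.d k12 k8 k25 1 6))), (.s
  k59 k55 1 (.s k187 k119 9 (.s k123 k251 7 (.s k183 k243 9 (.d k191 k127 k179 7 1)))))] (.c k4 (.q
  k247 [(.s k119 k187 9 (.d k55 k59 k183 1 7)), (.s k243 k251 1 (.s k81 k162 12 (.s k115 k179 7 (.s
  k64 k98 4 (.d k192 k128 k209 7 4)))))] (.c k64 (.l (.s k127 k191 7 (.s k55 k59 1 (.d k119 k183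
  k187 7 9)))) (.c k127 (.q k64 [(.s k192 k128 7 (.d k243 k251 k209 1 4)), (.s k55 k59 1 (.d k119
  k183 k187 7 9))] .n) .n))) (.c k12 (.l (.s k55 k59 1 (.s k119 k187 9 (.s k127 k191 7 (.s k123 k115
  1 (.d k183 k247 k243 7 9)))))) (.c k55 (.l (.s k12 k25 6 (.s k93 k174 12 (.s k187 k119 9 (.s k127
  k191 7 (.s k110 k76 4 (.s k136 k153 4 (.d k204 k68 k157 9 12)))))))) (.c k59 (.l (.s k119 k187 9
  (.s k127 k191 7 (.s k123 k115 1 (.s k183 k243 9 (.s k55 k247 7 (.s k4 k21 4 (.d k12 k8 k25 1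
  6)))))))) (.c k64 (.l (.s k127 k191 7 (.s k55 k59 1 (.s k4 k21 4 (.d k12 k8 k25 1 6))))) (.c k127
  (.q k64 [(.s k55 k59 1 (.s k4 k21 4 (.d k12 k8 k25 1 6))), (.s k192 k128 7 (.s k98 k145 12 (.s k81
  k115 4 (.d k243 k162 k209 12 4))))] (.c k4 (.q k247 [(.s k192 k128 7 (.d k243 k251 k209 1 4)), (.s
  k55 k59 1 (.d k119 k183 k187 7 9))] .n) (.c k247 (.q k4 [(.d k12 k8 k25 1 6), (.d k55 k59 k21 1
  4)] .n) .n))) (.c k247 (.q k4 [(.d k12 k8 k25 1 6), (.d k55 k59 k21 1 4)] (.c k64 (.l (.s k127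
  k191 7 (.d k12 k8 k25 1 6))) (.c k127 (.q k64 [(.d k12 k8 k25 1 6), (.d k55 k59 k21 1 4)] .n)
  .n))) .n)))))))) (.c k38 (.l (.s k34 k17 4 (.s k102 k238 9 (.s k153 k204 14 (.d k187 k136 k119 4
  9))))) (.c k64 (.l (.s k127 k191 7 (.s k34 k17 4 (.s k102 k238 9 (.s k153 k204 14 (.d k187 k136
  k119 4 9)))))) (.c k127 (.q k64 [(.s k192 k128 7 (.s k98 k145 12 (.d k34 k162 k17 7 4))), (.s k34
  k17 4 (.s k102 k238 9 (.s k153 k204 14 (.d k187 k136 k119 4 9))))] (.c k4 (.q k247 [(.s k192 k128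
  7 (.d k243 k251 k209 1 4)), (.s k55 k59 1 (.d k119 k183 k187 7 9))] (.c k34 (.q k38 [(.s k192 k128
  7 (.d k243 k251 k209 1 4)), (.s k55 k59 1 (.d k119 k183 k187 7 9))] .n) (.c k38 (.l (.s k34 k17 4
  (.s k192 k128 7 (.d k98 k162 k145 7 12)))) .n))) (.c k17 (.l (.s k192 k128 7 (.s k98 k145 12 (.s
  k81 k115 4 (.d k162 k34 k243 7 12))))) (.c k34 (.q k38 [(.s k55 k59 1 (.s k4 k21 4 (.d k12 k8 k25
  1 6))), (.s k192 k128 7 (.s k98 k145 12 (.s k81 k115 4 (.d k243 k162 k209 12 4))))] (.c k4 (.q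
  k247 [(.s k192 k128 7 (.d k243 k251 k209 1 4)), (.s k55 k59 1 (.d k119 k183 k187 7 9))] .n) (.c
  k247 (.q k4 [(.d k12 k8 k25 1 6), (.d k55 k59 k21 1 4)] .n) .n))) (.c k38 (.l (.s k34 k17 4 (.s
  k192 k128 7 (.d k98 k162 k145 7 12)))) (.c k247 (.q k4 [(.s k192 k128 7 (.s k98 k145 12 (.d k34
  k162 k17 7 4))), (.s k55 k59 1 (.s k38 k21 4 (.d k12 k8 k25 1 6)))] (.c k34 (.q k38 [(.d k12 k8
  k25 1 6), (.d k55 k59 k21 1 4)] .n) (.c k38 (.l (.s k34 k17 4 (.s k192 k128 7 (.d k98 k162 k145 7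
  12)))) .n))) .n)))))) (.c k153 (.l (.s k59 k55 1 (.s k187 k119 9 (.s k123 k251 7 (.s k183 k243 9
  (.d k191 k179 k127 1 7)))))) (.c k247 (.q k4 [(.s k55 k59 1 (.s k38 k21 4 (.d k12 k8 k25 1 6))),
  (.s k34 k17 4 (.s k102 k238 9 (.s k153 k204 14 (.d k187 k136 k119 4 9))))] (.c k34 (.q k38 [(.d
  k12 k8 k25 1 6), (.d k55 k59 k21 1 4)] (.c k64 (.l (.s k127 k191 7 (.d k12 k8 k25 1 6))) (.c k127
  (.q k64 [(.d k12 k8 k25 1 6), (.d k55 k59 k21 1 4)] .n) .n))) (.c k38 (.l (.s k34 k17 4 (.s k102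
  k238 9 (.s k153 k204 14 (.d k187 k136 k119 4 9))))) (.c k64 (.l (.s k127 k191 7 (.s k55 k59 1 (.s
  k38 k21 4 (.d k12 k8 k25 1 6))))) (.c k127 (.q k64 [(.s k192 k128 7 (.s k98 k145 12 (.d k34 k162
  k17 7 4))), (.s k55 k59 1 (.s k38 k21 4 (.d k12 k8 k25 1 6)))] (.c k34 (.q k38 [(.d k12 k8 k25 1
  6), (.d k55 k59 k21 1 4)] .n) (.c k38 (.l (.s k34 k17 4 (.s k192 k128 7 (.d k98 k162 k145 7 12))))
  .n))) (.c k153 (.f k127 k191 7 (.l (.s k8 k12 1 (.s k89 k251 12 (.s k59 k55 1 (.s k119 k187 9 (.s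
  k115 k123 1 (.s k102 k76 6 (.d k34 k17 k238 4 9))))))))) .n)))))) .n)))))))) (.c k64 (.l (.s k127
  k191 7 (.s k34 k17 4 (.s k102 k238 9 (.s k153 k204 14 (.d k187 k136 k119 4 9)))))) (.c k127 (.q
  k64 [(.s k34 k17 4 (.s k102 k238 9 (.s k153 k204 14 (.d k187 k136 k119 4 9)))), (.s k192 k128 7
  (.s k98 k145 12 (.s k81 k115 4 (.s k162 k243 12 (.d k34 k226 k17 7 4))))), (.s k128 k192 7 (.s k55
  k59 1 (.s k187 k119 9 (.s k149 k191 6 (.s k102 k196 12 (.d k153 k204 k136 14 4))))))] (.c k4 (.q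
  k247 [(.s k119 k187 9 (.d k55 k59 k183 1 7)), (.s k243 k251 1 (.s k81 k162 12 (.d k115 k98 k179 4
  7)))] (.c k46 (.q k226 [(.s k192 k128 7 (.d k243 k251 k209 1 4)), (.s k55 k59 1 (.d k119 k183 k187
  7 9))] (.c k34 (.q k38 [(.s k192 k128 7 (.d k243 k251 k209 1 4)), (.s k55 k59 1 (.d k119 k183 k187
  7 9))] .n) (.c k38 (.l (.s k34 k17 4 (.s k192 k128 7 (.d k98 k162 k145 7 12)))) .n))) (.c k226 (.q
  k46 [(.s k119 k187 9 (.d k55 k59 k183 1 7)), (.s k243 k251 1 (.s k81 k162 12 (.d k115 k98 k179 4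
  7)))] .n) .n))) (.c k46 (.q k226 [(.s k192 k128 7 (.s k98 k145 12 (.d k34 k162 k17 7 4))), (.s k34
  k17 4 (.s k102 k238 9 (.s k153 k204 14 (.d k187 k136 k119 4 9))))] (.c k4 (.q k247 [(.s k192 k128
  7 (.d k243 k251 k209 1 4)), (.s k55 k59 1 (.d k119 k183 k187 7 9))] (.c k34 (.q k38 [(.s k192 k128
  7 (.d k243 k251 k209 1 4)), (.s k55 k59 1 (.d k119 k183 k187 7 9))] .n) (.c k38 (.l (.s k34 k17 4
  (.s k192 k128 7 (.d k98 k162 k145 7 12)))) .n))) (.c k17 (.l (.s k192 k128 7 (.s k98 k145 12 (.s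
  k81 k115 4 (.d k162 k34 k243 7 12))))) (.c k34 (.q k38 [(.s k55 k59 1 (.s k4 k21 4 (.d k12 k8 k25
  1 6))), (.s k192 k128 7 (.s k98 k145 12 (.s k81 k115 4 (.d k243 k162 k209 12 4))))] (.c k4 (.q
  k247 [(.s k192 k128 7 (.d k243 k251 k209 1 4)), (.s k55 k59 1 (.d k119 k183 k187 7 9))] .n) (.c
  k247 (.q k4 [(.d k12 k8 k25 1 6), (.d k55 k59 k21 1 4)] .n) .n))) (.c k38 (.l (.s k34 k17 4 (.s
  k192 k128 7 (.d k98 k162 k145 7 12)))) (.c k247 (.q k4 [(.s k192 k128 7 (.s k98 k145 12 (.d k34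
  k162 k17 7 4))), (.s k55 k59 1 (.s k38 k21 4 (.d k12 k8 k25 1 6)))] (.c k34 (.q k38 [(.d k12 k8
  k25 1 6), (.d k55 k59 k21 1 4)] .n) (.c k38 (.l (.s k34 k17 4 (.s k192 k128 7 (.d k98 k162 k145 7
  12)))) .n))) .n)))))) (.c k119 (.l (.s k34 k17 4 (.s k128 k192 7 (.s k102 k238 9 (.s k55 k59 1 (.d
  k149 k191 k196 6 12)))))) (.c k226 (.q k46 [(.s k34 k17 4 (.s k102 k238 9 (.s k153 k204 14 (.d
  k187 k136 k119 4 9)))), (.s k128 k192 7 (.s k12 k29 4 (.s k174 k93 12 (.s k110 k238 7 (.s k157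
  k204 12 (.d k191 k140 k149 4 6)))))), (.s k34 k17 4 (.s k12 k29 4 (.s k174 k93 12 (.d k238 k110
  k102 7 9))))] (.c k4 (.q k247 [(.s k119 k187 9 (.d k55 k59 k183 1 7)), (.s k243 k251 1 (.s k81
  k162 12 (.d k115 k98 k179 4 7)))] .n) (.c k221 (.l (.s k187 k119 9 (.s k34 k17 4 (.s k153 k136 4
  (.d k102 k238 k204 9 14))))) (.c k238 (.l (.s k128 k192 7 (.s k12 k29 4 (.s k187 k119 9 (.s k136
  k153 4 (.s k140 k132 1 (.d k204 k68 k76 9 7))))))) (.c k247 (.q k4 [(.d k12 k8 k29 1 4), (.s k34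
  k17 4 (.s k102 k238 9 (.s k153 k204 14 (.d k187 k136 k119 4 9))))] .n) .n))))) (.c k247 (.q k4
  [(.s k34 k17 4 (.s k102 k238 9 (.s k153 k204 14 (.d k187 k136 k119 4 9)))), (.s k55 k59 1 (.s k38
  k21 4 (.d k12 k8 k25 1 6)))] (.c k46 (.q k226 [(.s k192 k128 7 (.s k98 k145 12 (.d k34 k162 k17 7
  4))), (.s k55 k59 1 (.s k38 k21 4 (.d k12 k8 k25 1 6)))] (.c k34 (.q k38 [(.d k12 k8 k25 1 6), (.d
  k55 k59 k21 1 4)] .n) (.c k38 (.l (.s k34 k17 4 (.s k192 k128 7 (.d k98 k162 k145 7 12)))) .n)))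
  (.c k153 (.l (.s k192 k128 7 (.s k98 k145 12 (.s k81 k115 4 (.s k162 k243 12 (.d k34 k17 k226 4
  7)))))) (.c k226 (.q k46 [(.d k12 k8 k29 1 4), (.s k34 k17 4 (.s k102 k238 9 (.s k153 k204 14 (.d
  k187 k136 k119 4 9))))] .n) .n)))) .n)))))) (.c k153 (.l (.s k59 k55 1 (.s k187 k119 9 (.s k123
  k251 7 (.s k183 k243 9 (.d k191 k179 k127 1 7)))))) (.c k226 (.q k46 [(.s k187 k119 9 (.s k34 k17
  4 (.s k153 k136 4 (.d k102 k238 k204 9 14)))), (.s k12 k29 4 (.s k174 k93 12 (.s k110 k238 7 (.s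
  k157 k204 12 (.d k191 k127 k140 7 4))))), (.s k12 k29 4 (.s k59 k55 1 (.s k187 k119 9 (.s k251
  k123 7 (.d k8 k4 k89 1 12)))))] (.c k4 (.q k247 [(.s k119 k187 9 (.d k55 k59 k183 1 7)), (.s k34
  k17 4 (.s k12 k29 4 (.s k174 k93 12 (.d k238 k110 k102 7 9))))] (.c k64 (.l (.s k127 k191 7 (.s
  k55 k59 1 (.d k119 k183 k187 7 9)))) (.c k127 (.q k64 [(.s k119 k187 9 (.d k55 k59 k183 1 7)), (.s
  k243 k251 1 (.s k81 k162 12 (.d k115 k98 k179 4 7)))] .n) .n))) (.c k64 (.l (.s k127 k191 7 (.s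
  k34 k17 4 (.s k12 k29 4 (.s k174 k93 12 (.d k238 k110 k102 7 9)))))) (.c k127 (.q k64 [(.s k34 k17
  4 (.s k102 k238 9 (.s k153 k204 14 (.d k187 k136 k119 4 9)))), (.s k128 k192 7 (.s k12 k29 4 (.s
  k174 k93 12 (.s k110 k238 7 (.s k157 k204 12 (.d k191 k140 k149 4 6)))))), (.s k34 k17 4 (.s k12
  k29 4 (.s k174 k93 12 (.d k238 k110 k102 7 9))))] (.c k4 (.q k247 [(.s k119 k187 9 (.d k55 k59
  k183 1 7)), (.s k243 k251 1 (.s k81 k162 12 (.d k115 k98 k179 4 7)))] .n) (.c k221 (.l (.s k187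
  k119 9 (.s k34 k17 4 (.s k153 k136 4 (.d k102 k238 k204 9 14))))) (.c k238 (.l (.s k128 k192 7 (.s
  k12 k29 4 (.s k187 k119 9 (.s k136 k153 4 (.s k140 k132 1 (.d k204 k68 k76 9 7))))))) (.c k247 (.q
  k4 [(.d k12 k8 k29 1 4), (.s k34 k17 4 (.s k102 k238 9 (.s k153 k204 14 (.d k187 k136 k119 4
  9))))] .n) .n))))) (.c k247 (.q k4 [(.d k12 k8 k29 1 4), (.s k34 k17 4 (.s k102 k238 9 (.s k153
  k204 14 (.d k187 k136 k119 4 9))))] (.c k64 (.l (.s k127 k191 7 (.d k12 k8 k29 1 4))) (.c k127 (.q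
  k64 [(.d k12 k8 k29 1 4), (.s k34 k17 4 (.s k102 k238 9 (.s k153 k204 14 (.d k187 k136 k119 4
  9))))] .n) .n))) .n))))) (.c k247 (.q k4 [(.s k34 k17 4 (.s k102 k238 9 (.s k153 k204 14 (.d k187
  k136 k119 4 9)))), (.s k55 k59 1 (.s k38 k21 4 (.d k12 k8 k25 1 6)))] (.c k46 (.q k226 [(.s k55
  k59 1 (.s k38 k21 4 (.d k12 k8 k25 1 6))), (.s k34 k17 4 (.s k102 k238 9 (.s k153 k204 14 (.d k187
  k136 k119 4 9))))] (.c k34 (.q k38 [(.d k12 k8 k25 1 6), (.d k55 k59 k21 1 4)] (.c k64 (.l (.s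
  k127 k191 7 (.d k12 k8 k25 1 6))) (.c k127 (.q k64 [(.d k12 k8 k25 1 6), (.d k55 k59 k21 1 4)] .n)
  .n))) (.c k38 (.l (.s k34 k17 4 (.s k102 k238 9 (.s k153 k204 14 (.d k187 k136 k119 4 9))))) (.c
  k64 (.l (.s k127 k191 7 (.s k55 k59 1 (.s k38 k21 4 (.d k12 k8 k25 1 6))))) (.c k127 (.q k64 [(.s
  k192 k128 7 (.s k98 k145 12 (.d k34 k162 k17 7 4))), (.s k55 k59 1 (.s k38 k21 4 (.d k12 k8 k25 1
  6)))] (.c k34 (.q k38 [(.d k12 k8 k25 1 6), (.d k55 k59 k21 1 4)] .n) (.c k38 (.l (.s k34 k17 4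
  (.s k192 k128 7 (.d k98 k162 k145 7 12)))) .n))) (.c k153 (.f k127 k191 7 (.l (.s k8 k12 1 (.s k89
  k251 12 (.s k59 k55 1 (.s k119 k187 9 (.s k115 k123 1 (.s k102 k76 6 (.d k34 k17 k238 4 9)))))))))
  .n)))))) (.c k64 (.l (.s k127 k191 7 (.s k55 k59 1 (.s k38 k21 4 (.d k12 k8 k25 1 6))))) (.c k127
  (.q k64 [(.s k34 k17 4 (.s k102 k238 9 (.s k153 k204 14 (.d k187 k136 k119 4 9)))), (.s k55 k59 1
  (.s k38 k21 4 (.d k12 k8 k25 1 6)))] (.c k46 (.q k226 [(.s k192 k128 7 (.s k98 k145 12 (.d k34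
  k162 k17 7 4))), (.s k55 k59 1 (.s k38 k21 4 (.d k12 k8 k25 1 6)))] (.c k34 (.q k38 [(.d k12 k8
  k25 1 6), (.d k55 k59 k21 1 4)] .n) (.c k38 (.l (.s k34 k17 4 (.s k192 k128 7 (.d k98 k162 k145 7
  12)))) .n))) (.c k153 (.l (.s k192 k128 7 (.s k98 k145 12 (.s k81 k115 4 (.s k162 k243 12 (.d k34
  k17 k226 4 7)))))) (.c k226 (.q k46 [(.d k12 k8 k29 1 4), (.s k34 k17 4 (.s k102 k238 9 (.s k153
  k204 14 (.d k187 k136 k119 4 9))))] .n) .n)))) (.c k153 (.l (.s k12 k8 1 (.s k46 k29 4 (.s k174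
  k93 12 (.s k238 k110 7 (.d k34 k102 k17 9 4)))))) (.c k226 (.q k46 [(.d k12 k8 k29 1 4), (.s k34
  k17 4 (.s k102 k238 9 (.s k153 k204 14 (.d k187 k136 k119 4 9))))] (.c k64 (.l (.s k127 k191 7 (.d
  k12 k8 k29 1 4))) (.c k127 (.q k64 [(.d k12 k8 k29 1 4), (.s k34 k17 4 (.s k102 k238 9 (.s k153
  k204 14 (.d k187 k136 k119 4 9))))] .n) .n))) .n)))))) .n)))))))))

def t42_167 : T TT 256 :=
  (.f k255 k85 14 (.q k15 [(.s k10 k5 2 (.s k90 k250 11 (.s k165 k240 14 (.d k175 k160 k95 2 11)))),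
  (.s k31 k47 3 (.s k95 k175 11 (.s k159 k223 7 (.s k111 k207 11 (.d k127 k79 k191 3 7))))), (.s k10
  k5 2 (.s k90 k250 11 (.s k31 k47 3 (.s k149 k208 10 (.d k191 k127 k128 7 6)))))] (.c k64 (.l (.s
  k127 k191 7 (.s k10 k5 2 (.s k90 k250 11 (.s k165 k240 14 (.d k175 k160 k95 2 11)))))) (.c k127
  (.q k64 [(.s k10 k5 2 (.s k90 k250 11 (.s k165 k240 14 (.d k175 k160 k95 2 11)))), (.s k192 k128 7
  (.s k74 k133 10 (.s k69 k79 2 (.s k138 k207 10 (.d k10 k5 k202 2 7))))), (.s k128 k192 7 (.s k31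
  k47 3 (.s k175 k95 11 (.s k149 k191 6 (.s k90 k208 10 (.d k165 k240 k160 14 2))))))] (.c k95 (.l
  (.s k10 k5 2 (.s k128 k192 7 (.s k90 k250 11 (.s k31 k47 3 (.d k149 k191 k208 6 10)))))) .n)) (.c
  k165 (.l (.s k47 k31 3 (.s k175 k95 11 (.s k111 k239 7 (.s k159 k207 11 (.d k191 k143 k127 3
  7)))))) .n)))))

def t42_168 : T TT 256 :=
  (.f k255 k85 14 (.q k15 [(.s k10 k5 2 (.s k90 k250 11 (.s k165 k240 14 (.d k175 k160 k95 2 11)))),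
  (.s k31 k47 3 (.s k95 k175 11 (.s k159 k223 7 (.s k111 k207 11 (.d k127 k79 k191 3 7))))), (.s k10
  k5 2 (.s k90 k250 11 (.s k31 k47 3 (.s k149 k208 10 (.d k191 k127 k128 7 6)))))] (.c k64 (.l (.s
  k127 k191 7 (.s k10 k5 2 (.s k90 k250 11 (.s k165 k240 14 (.d k175 k160 k95 2 11)))))) (.c k127
  (.q k64 [(.s k10 k5 2 (.s k90 k250 11 (.s k165 k240 14 (.d k175 k160 k95 2 11)))), (.s k192 k128 7
  (.s k74 k133 10 (.s k69 k79 2 (.s k138 k207 10 (.d k10 k5 k202 2 7))))), (.s k128 k192 7 (.s k31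
  k47 3 (.s k175 k95 11 (.s k149 k191 6 (.s k90 k208 10 (.d k165 k240 k160 14 2))))))] (.c k95 (.l
  (.s k10 k5 2 (.s k128 k192 7 (.s k90 k250 11 (.s k31 k47 3 (.d k149 k191 k208 6 10)))))) .n)) (.c
  k165 (.l (.s k47 k31 3 (.s k175 k95 11 (.s k111 k239 7 (.s k159 k207 11 (.d k191 k143 k127 3
  7)))))) .n)))))

def t42_169 : T TT 256 :=
  (.q k60 [(.s k20 k40 5 (.s k85 k255 14 (.s k150 k215 8 (.s k130 k190 5 (.d k195 k65 k105 8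
  14))))), (.s k255 k85 14 (.s k61 k62 0 (.s k125 k190 8 (.s k127 k191 7 (.s k126 k124 0 (.d k189
  k253 k252 7 8))))))] (.c k43 (.q k232 [(.s k40 k20 5 (.s k85 k255 14 (.s k105 k235 8 (.s k65 k125
  5 (.d k195 k130 k150 8 14))))), (.s k255 k85 14 (.s k61 k62 0 (.s k125 k190 8 (.s k127 k191 7 (.s
  k126 k124 0 (.d k189 k253 k252 7 8)))))), (.s k40 k20 5 (.s k104 k168 7 (.s k105 k235 8 (.s k61
  k62 0 (.s k148 k192 13 (.s k149 k193 13 (.d k150 k195 k151 14 0)))))))] (.c k40 (.q k41 [(.s k61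
  k62 0 (.s k1 k21 5 (.d k3 k2 k22 0 6))), (.s k255 k85 14 (.s k62 k61 0 (.s k190 k125 8 (.s k126
  k254 7 (.s k189 k252 8 (.d k191 k127 k188 7 0))))))] (.c k1 (.q k253 [(.s k255 k85 14 (.s k125
  k190 8 (.d k61 k62 k189 0 7))), (.s k255 k85 14 (.s k252 k254 0 (.s k84 k168 13 (.s k124 k188 7
  (.s k64 k104 5 (.d k192 k128 k212 7 5)))))), (.s k61 k62 0 (.s k125 k189 7 (.d k255 k190 k85 8
  14))), (.s k61 k62 0 (.s k189 k125 7 (.s k252 k126 8 (.s k84 k168 13 (.s k124 k188 7 (.s k64 k104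
  5 (.d k192 k128 k212 7 5)))))))] .n) (.c k3 (.l (.s k255 k85 14 (.s k61 k62 0 (.s k125 k190 8 (.s
  k127 k191 7 (.s k126 k124 0 (.d k189 k253 k252 7 8))))))) (.c k61 (.f k255 k85 14 (.l (.s k3 k22 6
  (.s k87 k171 13 (.s k190 k125 8 (.s k127 k191 7 (.s k107 k67 5 (.s k130 k150 5 (.d k195 k65 k151 8
  13))))))))) (.c k62 (.f k255 k85 14 (.l (.s k125 k190 8 (.s k127 k191 7 (.s k126 k124 0 (.s k189
  k252 8 (.s k61 k253 7 (.s k1 k21 5 (.d k3 k2 k22 0 6))))))))) .n))))) (.c k41 (.l (.s k40 k20 5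
  (.s k85 k255 14 (.s k105 k235 8 (.s k195 k150 14 (.d k65 k125 k130 5 8)))))) (.c k150 (.l (.s k255
  k85 14 (.s k62 k61 0 (.s k190 k125 8 (.s k126 k254 7 (.s k189 k252 8 (.d k191 k127 k188 7 0)))))))
  .n)))) (.c k85 (.f k40 k20 5 (.l (.s k105 k235 8 (.s k61 k62 0 (.s k150 k195 14 (.s k149 k193 13
  (.s k128 k191 6 (.s k148 k151 0 (.d k192 k64 k104 7 13))))))))) (.c k150 (.l (.s k255 k85 14 (.s
  k62 k61 0 (.s k190 k125 8 (.s k126 k254 7 (.s k189 k252 8 (.d k191 k127 k188 7 0))))))) (.c k190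
  (.l (.s k40 k20 5 (.s k85 k255 14 (.s k105 k235 8 (.s k195 k150 14 (.d k65 k125 k130 5 8)))))) (.c
  k232 (.q k43 [(.s k20 k40 5 (.s k85 k255 14 (.s k150 k215 8 (.s k130 k190 5 (.d k195 k65 k105 8
  14))))), (.s k255 k85 14 (.s k3 k23 5 (.s k171 k87 13 (.s k107 k235 7 (.s k151 k195 13 (.d k191
  k127 k131 7 5)))))), (.s k40 k20 5 (.s k3 k23 5 (.s k2 k1 0 (.s k86 k254 13 (.s k22 k41 6 (.s k150
  k214 7 (.d k105 k235 k195 8 14)))))))] (.c k85 (.l (.s k40 k20 5 (.s k3 k23 5 (.s k22 k41 6 (.s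
  k105 k235 8 (.s k150 k195 14 (.s k86 k214 7 (.d k2 k1 k254 0 13)))))))) (.c k195 (.l (.s k40 k20 5
  (.s k255 k85 14 (.s k3 k23 5 (.s k171 k87 13 (.d k235 k107 k105 7 8)))))) (.c k235 (.l (.s k20 k40
  5 (.s k85 k255 14 (.s k150 k215 8 (.s k195 k105 14 (.d k130 k190 k65 5 8)))))) .n)))) (.c k255 (.f
  k40 k20 5 (.l (.s k105 k235 8 (.s k61 k62 0 (.s k149 k193 13 (.s k128 k191 6 (.s k192 k64 7 (.s
  k148 k104 13 (.d k150 k195 k151 14 0))))))))) .n)))))))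

def t42_171 : T TT 256 :=
  (.f k255 k85 14 (.q k12 [(.s k8 k4 1 (.s k174 k93 12 (.s k166 k162 1 (.d k89 k251 k243 12 14)))),
  (.s k29 k46 4 (.s k93 k174 12 (.s k157 k221 7 (.s k110 k204 12 (.d k127 k76 k191 4 7))))), (.s k8
  k4 1 (.s k89 k251 12 (.s k29 k46 4 (.s k149 k209 9 (.d k191 k127 k128 7 6)))))] (.c k64 (.l (.s
  k127 k191 7 (.s k8 k4 1 (.s k89 k251 12 (.s k166 k243 14 (.d k174 k162 k93 1 12)))))) (.c k127 (.q
  k64 [(.s k8 k4 1 (.s k89 k251 12 (.s k166 k243 14 (.d k174 k162 k93 1 12)))), (.s k192 k128 7 (.s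
  k72 k132 9 (.s k68 k76 1 (.s k136 k204 9 (.d k8 k4 k200 1 7))))), (.s k128 k192 7 (.s k29 k46 4
  (.s k174 k93 12 (.s k149 k191 6 (.s k89 k209 9 (.d k166 k243 k162 14 1))))))] (.c k93 (.l (.s k8
  k4 1 (.s k128 k192 7 (.s k89 k251 12 (.s k29 k46 4 (.d k149 k191 k209 6 9)))))) .n)) (.c k166 (.l
  (.s k46 k29 4 (.s k174 k93 12 (.s k110 k238 7 (.s k157 k204 12 (.d k191 k140 k127 4 7))))))
  .n)))))

def t42_172 : T TT 256 :=
  (.f k255 k85 14 (.q k12 [(.s k8 k4 1 (.s k89 k251 12 (.s k166 k243 14 (.d k174 k162 k93 1 12)))),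
  (.s k29 k46 4 (.s k93 k174 12 (.s k157 k221 7 (.s k110 k204 12 (.d k127 k76 k191 4 7))))), (.s k8
  k4 1 (.s k89 k251 12 (.s k29 k46 4 (.s k149 k209 9 (.d k191 k127 k128 7 6)))))] (.c k64 (.l (.s
  k127 k191 7 (.s k8 k4 1 (.s k89 k251 12 (.s k166 k243 14 (.d k174 k162 k93 1 12)))))) (.c k127 (.q
  k64 [(.s k8 k4 1 (.s k89 k251 12 (.s k166 k243 14 (.d k174 k162 k93 1 12)))), (.s k192 k128 7 (.s
  k72 k132 9 (.s k68 k76 1 (.s k136 k204 9 (.d k8 k4 k200 1 7))))), (.s k128 k192 7 (.s k29 k46 4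
  (.s k174 k93 12 (.s k149 k191 6 (.s k89 k209 9 (.d k166 k243 k162 14 1))))))] (.c k93 (.l (.s k8
  k4 1 (.s k128 k192 7 (.s k89 k251 12 (.s k29 k46 4 (.d k149 k191 k209 6 9)))))) .n)) (.c k166 (.l
  (.s k46 k29 4 (.s k174 k93 12 (.s k110 k238 7 (.s k157 k204 12 (.d k191 k140 k127 4 7))))))
  .n)))))

def t42_173 : T TT 256 :=
  (.f k255 k85 14 (.q k12 [(.s k8 k4 1 (.s k89 k251 12 (.s k166 k243 14 (.d k174 k162 k93 1 12)))),
  (.s k29 k46 4 (.s k93 k174 12 (.s k157 k221 7 (.s k110 k204 12 (.d k127 k76 k191 4 7))))), (.s k8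
  k4 1 (.s k89 k251 12 (.s k29 k46 4 (.s k149 k209 9 (.d k191 k127 k128 7 6)))))] (.c k64 (.l (.s
  k127 k191 7 (.s k8 k4 1 (.s k89 k251 12 (.s k166 k243 14 (.d k174 k162 k93 1 12)))))) (.c k127 (.q
  k64 [(.s k8 k4 1 (.s k89 k251 12 (.s k166 k243 14 (.d k174 k162 k93 1 12)))), (.s k192 k128 7 (.s
  k72 k132 9 (.s k68 k76 1 (.s k136 k204 9 (.d k8 k4 k200 1 7))))), (.s k128 k192 7 (.s k29 k46 4
  (.s k174 k93 12 (.s k149 k191 6 (.s k89 k209 9 (.d k166 k243 k162 14 1))))))] (.c k93 (.l (.s k8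
  k4 1 (.s k128 k192 7 (.s k89 k251 12 (.s k29 k46 4 (.d k149 k191 k209 6 9)))))) .n)) (.c k166 (.l
  (.s k46 k29 4 (.s k174 k93 12 (.s k110 k238 7 (.s k157 k204 12 (.d k191 k140 k127 4 7))))))
  .n)))))

def t42_174 : T TT 256 :=
  (.f k255 k85 14 (.q k3 [(.s k2 k1 0 (.s k171 k87 13 (.s k169 k168 0 (.d k86 k254 k252 13 14)))),
  (.s k23 k43 5 (.s k87 k171 13 (.s k151 k215 7 (.s k107 k195 13 (.d k127 k67 k191 5 7))))), (.s k2
  k1 0 (.s k86 k254 13 (.s k23 k43 5 (.s k149 k212 8 (.d k191 k127 k128 7 6)))))] (.c k64 (.l (.s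
  k127 k191 7 (.s k2 k1 0 (.s k86 k254 13 (.s k169 k252 14 (.d k171 k168 k87 0 13)))))) (.c k127 (.q
  k64 [(.s k2 k1 0 (.s k86 k254 13 (.s k169 k252 14 (.d k171 k168 k87 0 13)))), (.s k192 k128 7 (.s
  k66 k129 8 (.s k65 k67 0 (.s k130 k195 8 (.d k2 k1 k194 0 7))))), (.s k128 k192 7 (.s k23 k43 5
  (.s k171 k87 13 (.s k149 k191 6 (.s k86 k212 8 (.d k169 k252 k168 14 0))))))] (.c k87 (.l (.s k2
  k1 0 (.s k128 k192 7 (.s k86 k254 13 (.s k23 k43 5 (.d k149 k191 k212 6 8)))))) .n)) (.c k169 (.l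
  (.s k43 k23 5 (.s k171 k87 13 (.s k107 k235 7 (.s k151 k195 13 (.d k191 k131 k127 5 7))))))
  .n)))))

def t42_175 : T TT 256 :=
  (.f k255 k85 14 (.q k3 [(.s k2 k1 0 (.s k86 k254 13 (.s k169 k252 14 (.d k171 k168 k87 0 13)))),
  (.s k23 k43 5 (.s k87 k171 13 (.s k151 k215 7 (.s k107 k195 13 (.d k127 k67 k191 5 7))))), (.s k2
  k1 0 (.s k86 k254 13 (.s k23 k43 5 (.s k149 k212 8 (.d k191 k127 k128 7 6)))))] (.c k64 (.l (.s
  k127 k191 7 (.s k2 k1 0 (.s k86 k254 13 (.s k169 k252 14 (.d k171 k168 k87 0 13)))))) (.c k127 (.q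
  k64 [(.s k2 k1 0 (.s k86 k254 13 (.s k169 k252 14 (.d k171 k168 k87 0 13)))), (.s k192 k128 7 (.s
  k66 k129 8 (.s k65 k67 0 (.s k130 k195 8 (.d k2 k1 k194 0 7))))), (.s k128 k192 7 (.s k23 k43 5
  (.s k171 k87 13 (.s k149 k191 6 (.s k86 k212 8 (.d k169 k252 k168 14 0))))))] (.c k87 (.l (.s k2
  k1 0 (.s k128 k192 7 (.s k86 k254 13 (.s k23 k43 5 (.d k149 k191 k212 6 8)))))) .n)) (.c k169 (.l
  (.s k43 k23 5 (.s k171 k87 13 (.s k107 k235 7 (.s k151 k195 13 (.d k191 k131 k127 5 7))))))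
  .n)))))

def t42_176 : T TT 256 :=
  (.f k255 k85 14 (.q k3 [(.s k2 k1 0 (.s k86 k254 13 (.s k169 k252 14 (.d k171 k168 k87 0 13)))),
  (.s k23 k43 5 (.s k87 k171 13 (.s k151 k215 7 (.s k107 k195 13 (.d k127 k67 k191 5 7))))), (.s k2
  k1 0 (.s k86 k254 13 (.s k23 k43 5 (.s k149 k212 8 (.d k191 k127 k128 7 6)))))] (.c k64 (.l (.s
  k127 k191 7 (.s k2 k1 0 (.s k86 k254 13 (.s k169 k252 14 (.d k171 k168 k87 0 13)))))) (.c k127 (.q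
  k64 [(.s k2 k1 0 (.s k86 k254 13 (.s k169 k252 14 (.d k171 k168 k87 0 13)))), (.s k192 k128 7 (.s
  k66 k129 8 (.s k65 k67 0 (.s k130 k195 8 (.d k2 k1 k194 0 7))))), (.s k128 k192 7 (.s k23 k43 5
  (.s k171 k87 13 (.s k149 k191 6 (.s k86 k212 8 (.d k169 k252 k168 14 0))))))] (.c k87 (.l (.s k2
  k1 0 (.s k128 k192 7 (.s k86 k254 13 (.s k23 k43 5 (.d k149 k191 k212 6 8)))))) .n)) (.c k169 (.l
  (.s k43 k23 5 (.s k171 k87 13 (.s k107 k235 7 (.s k151 k195 13 (.d k191 k131 k127 5 7))))))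
  .n)))))

def t42_177 : T TT 256 :=
  (.f k255 k85 14 (.q k3 [(.s k2 k1 0 (.s k86 k254 13 (.s k169 k252 14 (.d k171 k168 k87 0 13)))),
  (.s k23 k43 5 (.s k87 k171 13 (.s k151 k215 7 (.s k107 k195 13 (.d k127 k67 k191 5 7))))), (.s k2
  k1 0 (.s k86 k254 13 (.s k23 k43 5 (.s k149 k212 8 (.d k191 k127 k128 7 6)))))] (.c k64 (.l (.s
  k127 k191 7 (.s k2 k1 0 (.s k86 k254 13 (.s k169 k252 14 (.d k171 k168 k87 0 13)))))) (.c k127 (.q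
  k64 [(.s k2 k1 0 (.s k86 k254 13 (.s k169 k252 14 (.d k171 k168 k87 0 13)))), (.s k192 k128 7 (.s
  k66 k129 8 (.s k65 k67 0 (.s k130 k195 8 (.d k2 k1 k194 0 7))))), (.s k128 k192 7 (.s k23 k43 5
  (.s k171 k87 13 (.s k149 k191 6 (.s k86 k212 8 (.d k169 k252 k168 14 0))))))] (.c k87 (.l (.s k2
  k1 0 (.s k128 k192 7 (.s k86 k254 13 (.s k23 k43 5 (.d k149 k191 k212 6 8)))))) .n)) (.c k169 (.l
  (.s k43 k23 5 (.s k171 k87 13 (.s k107 k235 7 (.s k151 k195 13 (.d k191 k131 k127 5 7))))))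
  .n)))))

def t42_178 : T TT 256 :=
  (.f k255 k85 14 (.q k3 [(.s k2 k1 0 (.s k86 k254 13 (.s k169 k252 14 (.d k171 k168 k87 0 13)))),
  (.s k23 k43 5 (.s k87 k171 13 (.s k151 k215 7 (.s k107 k195 13 (.d k127 k67 k191 5 7))))), (.s k2
  k1 0 (.s k86 k254 13 (.s k23 k43 5 (.s k149 k212 8 (.d k191 k127 k128 7 6)))))] (.c k64 (.l (.s
  k127 k191 7 (.s k2 k1 0 (.s k86 k254 13 (.s k169 k252 14 (.d k171 k168 k87 0 13)))))) (.c k127 (.q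
  k64 [(.s k2 k1 0 (.s k86 k254 13 (.s k169 k252 14 (.d k171 k168 k87 0 13)))), (.s k192 k128 7 (.s
  k66 k129 8 (.s k65 k67 0 (.s k130 k195 8 (.d k2 k1 k194 0 7))))), (.s k128 k192 7 (.s k23 k43 5
  (.s k171 k87 13 (.s k149 k191 6 (.s k86 k212 8 (.d k169 k252 k168 14 0))))))] (.c k87 (.l (.s k2
  k1 0 (.s k128 k192 7 (.s k86 k254 13 (.s k23 k43 5 (.d k149 k191 k212 6 8)))))) .n)) (.c k169 (.l
  (.s k43 k23 5 (.s k171 k87 13 (.s k107 k235 7 (.s k151 k195 13 (.d k191 k131 k127 5 7))))))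
  .n)))))

def t42_179 : T TT 256 :=
  (.f k255 k85 14 (.q k3 [(.s k2 k1 0 (.s k86 k254 13 (.s k169 k252 14 (.d k171 k168 k87 0 13)))),
  (.s k23 k43 5 (.s k87 k171 13 (.s k151 k215 7 (.s k107 k195 13 (.d k127 k67 k191 5 7))))), (.s k2
  k1 0 (.s k86 k254 13 (.s k23 k43 5 (.s k149 k212 8 (.d k191 k127 k128 7 6)))))] (.c k64 (.l (.s
  k127 k191 7 (.s k2 k1 0 (.s k86 k254 13 (.s k169 k252 14 (.d k171 k168 k87 0 13)))))) (.c k127 (.q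
  k64 [(.s k2 k1 0 (.s k86 k254 13 (.s k169 k252 14 (.d k171 k168 k87 0 13)))), (.s k192 k128 7 (.s
  k66 k129 8 (.s k65 k67 0 (.s k130 k195 8 (.d k2 k1 k194 0 7))))), (.s k128 k192 7 (.s k23 k43 5
  (.s k171 k87 13 (.s k149 k191 6 (.s k86 k212 8 (.d k169 k252 k168 14 0))))))] (.c k87 (.l (.s k2
  k1 0 (.s k128 k192 7 (.s k86 k254 13 (.s k23 k43 5 (.d k149 k191 k212 6 8)))))) .n)) (.c k169 (.l
  (.s k43 k23 5 (.s k171 k87 13 (.s k107 k235 7 (.s k151 k195 13 (.d k191 k131 k127 5 7))))))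
  .n)))))

def t42_180 : T TT 256 :=
  (.f k255 k85 14 (.q k3 [(.s k2 k1 0 (.s k86 k254 13 (.s k169 k252 14 (.d k171 k168 k87 0 13)))),
  (.s k23 k43 5 (.s k87 k171 13 (.s k151 k215 7 (.s k107 k195 13 (.d k127 k67 k191 5 7))))), (.s k2
  k1 0 (.s k86 k254 13 (.s k23 k43 5 (.s k149 k212 8 (.d k191 k127 k128 7 6)))))] (.c k64 (.l (.s
  k127 k191 7 (.s k2 k1 0 (.s k86 k254 13 (.s k169 k252 14 (.d k171 k168 k87 0 13)))))) (.c k127 (.q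
  k64 [(.s k2 k1 0 (.s k86 k254 13 (.s k169 k252 14 (.d k171 k168 k87 0 13)))), (.s k192 k128 7 (.s
  k66 k129 8 (.s k65 k67 0 (.s k130 k195 8 (.d k2 k1 k194 0 7))))), (.s k128 k192 7 (.s k23 k43 5
  (.s k171 k87 13 (.s k149 k191 6 (.s k86 k212 8 (.d k169 k252 k168 14 0))))))] (.c k87 (.l (.s k2
  k1 0 (.s k128 k192 7 (.s k86 k254 13 (.s k23 k43 5 (.d k149 k191 k212 6 8)))))) .n)) (.c k169 (.l
  (.s k43 k23 5 (.s k171 k87 13 (.s k107 k235 7 (.s k151 k195 13 (.d k191 k131 k127 5 7))))))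
  .n)))))

def t42_181 : T TT 256 :=
  (.f k255 k85 14 (.q k3 [(.s k2 k1 0 (.s k86 k254 13 (.s k169 k252 14 (.d k171 k168 k87 0 13)))),
  (.s k23 k43 5 (.s k87 k171 13 (.s k151 k215 7 (.s k107 k195 13 (.d k127 k67 k191 5 7))))), (.s k2
  k1 0 (.s k86 k254 13 (.s k23 k43 5 (.s k149 k212 8 (.d k191 k127 k128 7 6)))))] (.c k64 (.l (.s
  k127 k191 7 (.s k2 k1 0 (.s k86 k254 13 (.s k169 k252 14 (.d k171 k168 k87 0 13)))))) (.c k127 (.q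
  k64 [(.s k2 k1 0 (.s k86 k254 13 (.s k169 k252 14 (.d k171 k168 k87 0 13)))), (.s k192 k128 7 (.s
  k66 k129 8 (.s k65 k67 0 (.s k130 k195 8 (.d k2 k1 k194 0 7))))), (.s k128 k192 7 (.s k23 k43 5
  (.s k171 k87 13 (.s k149 k191 6 (.s k86 k212 8 (.d k169 k252 k168 14 0))))))] (.c k87 (.l (.s k2
  k1 0 (.s k128 k192 7 (.s k86 k254 13 (.s k23 k43 5 (.d k149 k191 k212 6 8)))))) .n)) (.c k169 (.l
  (.s k43 k23 5 (.s k171 k87 13 (.s k107 k235 7 (.s k151 k195 13 (.d k191 k131 k127 5 7))))))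
  .n)))))

def t42_182 : T TT 256 :=
  (.f k255 k85 14 (.q k3 [(.s k2 k1 0 (.s k86 k254 13 (.s k169 k252 14 (.d k171 k168 k87 0 13)))),
  (.s k23 k43 5 (.s k87 k171 13 (.s k151 k215 7 (.s k107 k195 13 (.d k127 k67 k191 5 7))))), (.s k2
  k1 0 (.s k86 k254 13 (.s k23 k43 5 (.s k149 k212 8 (.d k191 k127 k128 7 6)))))] (.c k64 (.l (.s
  k127 k191 7 (.s k2 k1 0 (.s k86 k254 13 (.s k169 k252 14 (.d k171 k168 k87 0 13)))))) (.c k127 (.q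
  k64 [(.s k2 k1 0 (.s k86 k254 13 (.s k169 k252 14 (.d k171 k168 k87 0 13)))), (.s k192 k128 7 (.s
  k66 k129 8 (.s k65 k67 0 (.s k130 k195 8 (.d k2 k1 k194 0 7))))), (.s k128 k192 7 (.s k23 k43 5
  (.s k171 k87 13 (.s k149 k191 6 (.s k86 k212 8 (.d k169 k252 k168 14 0))))))] (.c k87 (.l (.s k2
  k1 0 (.s k128 k192 7 (.s k86 k254 13 (.s k23 k43 5 (.d k149 k191 k212 6 8)))))) .n)) (.c k169 (.l
  (.s k43 k23 5 (.s k171 k87 13 (.s k107 k235 7 (.s k151 k195 13 (.d k191 k131 k127 5 7))))))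
  .n)))))

def t42_183 : T TT 256 :=
  (.f k255 k85 14 (.q k3 [(.s k2 k1 0 (.s k86 k254 13 (.s k169 k252 14 (.d k171 k168 k87 0 13)))),
  (.s k23 k43 5 (.s k87 k171 13 (.s k151 k215 7 (.s k107 k195 13 (.d k127 k67 k191 5 7))))), (.s k2
  k1 0 (.s k86 k254 13 (.s k23 k43 5 (.s k149 k212 8 (.d k191 k127 k128 7 6)))))] (.c k64 (.l (.s
  k127 k191 7 (.s k2 k1 0 (.s k86 k254 13 (.s k169 k252 14 (.d k171 k168 k87 0 13)))))) (.c k127 (.q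
  k64 [(.s k2 k1 0 (.s k86 k254 13 (.s k169 k252 14 (.d k171 k168 k87 0 13)))), (.s k192 k128 7 (.s
  k66 k129 8 (.s k65 k67 0 (.s k130 k195 8 (.d k2 k1 k194 0 7))))), (.s k128 k192 7 (.s k23 k43 5
  (.s k171 k87 13 (.s k149 k191 6 (.s k86 k212 8 (.d k169 k252 k168 14 0))))))] (.c k87 (.l (.s k2
  k1 0 (.s k128 k192 7 (.s k86 k254 13 (.s k23 k43 5 (.d k149 k191 k212 6 8)))))) .n)) (.c k169 (.l
  (.s k43 k23 5 (.s k171 k87 13 (.s k107 k235 7 (.s k151 k195 13 (.d k191 k131 k127 5 7))))))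
  .n)))))

def t42_184 : T TT 256 :=
  (.f k255 k85 14 (.q k3 [(.s k2 k1 0 (.s k86 k254 13 (.s k171 k87 13 (.d k169 k168 k252 0 14)))),
  (.s k23 k43 5 (.s k87 k171 13 (.s k151 k215 7 (.s k107 k195 13 (.d k127 k67 k191 5 7))))), (.s k2
  k1 0 (.s k86 k254 13 (.s k23 k43 5 (.s k149 k212 8 (.d k191 k127 k128 7 6)))))] (.c k64 (.l (.s
  k127 k191 7 (.s k2 k1 0 (.s k86 k254 13 (.s k169 k252 14 (.d k171 k168 k87 0 13)))))) (.c k127 (.q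
  k64 [(.s k2 k1 0 (.s k86 k254 13 (.s k169 k252 14 (.d k171 k168 k87 0 13)))), (.s k192 k128 7 (.s
  k66 k129 8 (.s k65 k67 0 (.s k130 k195 8 (.d k2 k1 k194 0 7))))), (.s k128 k192 7 (.s k23 k43 5
  (.s k171 k87 13 (.s k149 k191 6 (.s k86 k212 8 (.d k169 k252 k168 14 0))))))] (.c k87 (.l (.s k2
  k1 0 (.s k128 k192 7 (.s k86 k254 13 (.s k23 k43 5 (.d k149 k191 k212 6 8)))))) .n)) (.c k169 (.l
  (.s k43 k23 5 (.s k171 k87 13 (.s k107 k235 7 (.s k151 k195 13 (.d k191 k131 k127 5 7))))))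
  .n)))))

def t42_185 : T TT 256 :=
  (.f k255 k85 14 (.q k3 [(.s k2 k1 0 (.s k86 k254 13 (.s k171 k87 13 (.d k169 k168 k252 0 14)))),
  (.s k23 k43 5 (.s k87 k171 13 (.s k151 k215 7 (.s k107 k195 13 (.d k127 k67 k191 5 7))))), (.s k2
  k1 0 (.s k86 k254 13 (.s k23 k43 5 (.s k149 k212 8 (.d k191 k127 k128 7 6)))))] (.c k64 (.l (.s
  k127 k191 7 (.s k2 k1 0 (.s k86 k254 13 (.s k169 k252 14 (.d k171 k168 k87 0 13)))))) (.c k127 (.q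
  k64 [(.s k2 k1 0 (.s k86 k254 13 (.s k169 k252 14 (.d k171 k168 k87 0 13)))), (.s k192 k128 7 (.s
  k66 k129 8 (.s k65 k67 0 (.s k130 k195 8 (.d k2 k1 k194 0 7))))), (.s k128 k192 7 (.s k23 k43 5
  (.s k171 k87 13 (.s k149 k191 6 (.s k86 k212 8 (.d k169 k252 k168 14 0))))))] (.c k87 (.l (.s k2
  k1 0 (.s k128 k192 7 (.s k86 k254 13 (.s k23 k43 5 (.d k149 k191 k212 6 8)))))) .n)) (.c k169 (.l
  (.s k43 k23 5 (.s k171 k87 13 (.s k107 k235 7 (.s k151 k195 13 (.d k191 k131 k127 5 7))))))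
  .n)))))

def t42_186 : T TT 256 :=
  (.f k255 k85 14 (.q k3 [(.s k2 k1 0 (.s k171 k87 13 (.s k169 k168 0 (.d k86 k254 k252 13 14)))),
  (.s k23 k43 5 (.s k87 k171 13 (.s k151 k215 7 (.s k107 k195 13 (.d k127 k67 k191 5 7))))), (.s k2
  k1 0 (.s k86 k254 13 (.s k23 k43 5 (.s k149 k212 8 (.d k191 k127 k128 7 6)))))] (.c k64 (.l (.s
  k127 k191 7 (.s k2 k1 0 (.s k86 k254 13 (.s k169 k252 14 (.d k171 k168 k87 0 13)))))) (.c k127 (.q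
  k64 [(.s k2 k1 0 (.s k86 k254 13 (.s k169 k252 14 (.d k171 k168 k87 0 13)))), (.s k192 k128 7 (.s
  k66 k129 8 (.s k65 k67 0 (.s k130 k195 8 (.d k2 k1 k194 0 7))))), (.s k128 k192 7 (.s k23 k43 5
  (.s k171 k87 13 (.s k149 k191 6 (.s k86 k212 8 (.d k169 k252 k168 14 0))))))] (.c k87 (.l (.s k2
  k1 0 (.s k128 k192 7 (.s k86 k254 13 (.s k23 k43 5 (.d k149 k191 k212 6 8)))))) .n)) (.c k169 (.l
  (.s k43 k23 5 (.s k171 k87 13 (.s k107 k235 7 (.s k151 k195 13 (.d k191 k131 k127 5 7))))))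
  .n)))))

def t42_187 : T TT 256 :=
  (.f k255 k85 14 (.q k12 [(.s k8 k4 1 (.s k174 k93 12 (.s k166 k162 1 (.d k89 k251 k243 12 14)))),
  (.s k29 k46 4 (.s k93 k174 12 (.s k157 k221 7 (.s k110 k204 12 (.d k127 k76 k191 4 7))))), (.s k8
  k4 1 (.s k89 k251 12 (.s k29 k46 4 (.s k149 k209 9 (.d k191 k127 k128 7 6)))))] (.c k64 (.l (.s
  k127 k191 7 (.s k8 k4 1 (.s k89 k251 12 (.s k166 k243 14 (.d k174 k162 k93 1 12)))))) (.c k127 (.q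
  k64 [(.s k8 k4 1 (.s k89 k251 12 (.s k166 k243 14 (.d k174 k162 k93 1 12)))), (.s k192 k128 7 (.s
  k72 k132 9 (.s k68 k76 1 (.s k136 k204 9 (.d k8 k4 k200 1 7))))), (.s k128 k192 7 (.s k29 k46 4
  (.s k174 k93 12 (.s k149 k191 6 (.s k89 k209 9 (.d k166 k243 k162 14 1))))))] (.c k93 (.l (.s k8
  k4 1 (.s k128 k192 7 (.s k89 k251 12 (.s k29 k46 4 (.d k149 k191 k209 6 9)))))) .n)) (.c k166 (.l
  (.s k46 k29 4 (.s k174 k93 12 (.s k110 k238 7 (.s k157 k204 12 (.d k191 k140 k127 4 7))))))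
  .n)))))

def t42_188 : T TT 256 :=
  (.f k255 k85 14 (.q k3 [(.s k2 k1 0 (.s k86 k254 13 (.s k171 k87 13 (.d k169 k168 k252 0 14)))),
  (.s k23 k43 5 (.s k87 k171 13 (.s k151 k215 7 (.s k107 k195 13 (.d k127 k67 k191 5 7))))), (.s k2
  k1 0 (.s k86 k254 13 (.s k23 k43 5 (.s k149 k212 8 (.d k191 k127 k128 7 6)))))] (.c k64 (.l (.s
  k127 k191 7 (.s k2 k1 0 (.s k86 k254 13 (.s k169 k252 14 (.d k171 k168 k87 0 13)))))) (.c k127 (.q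
  k64 [(.s k2 k1 0 (.s k86 k254 13 (.s k169 k252 14 (.d k171 k168 k87 0 13)))), (.s k192 k128 7 (.s
  k66 k129 8 (.s k65 k67 0 (.s k130 k195 8 (.d k2 k1 k194 0 7))))), (.s k128 k192 7 (.s k23 k43 5
  (.s k171 k87 13 (.s k149 k191 6 (.s k86 k212 8 (.d k169 k252 k168 14 0)))))), (.s k2 k1 0 (.s k128
  k192 7 (.s k86 k254 13 (.s k23 k43 5 (.d k149 k191 k212 6 8)))))] .n) (.c k169 (.l (.s k43 k23 5
  (.s k171 k87 13 (.s k107 k235 7 (.s k151 k195 13 (.d k191 k131 k127 5 7)))))) .n)))))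

def t42_189 : T TT 256 :=
  (.f k255 k85 14 (.q k12 [(.s k8 k4 1 (.s k89 k251 12 (.s k166 k243 14 (.d k174 k162 k93 1 12)))),
  (.s k29 k46 4 (.s k93 k174 12 (.s k157 k221 7 (.s k110 k204 12 (.d k127 k76 k191 4 7))))), (.s k8
  k4 1 (.s k89 k251 12 (.s k29 k46 4 (.s k149 k209 9 (.d k191 k127 k128 7 6)))))] (.c k64 (.l (.s
  k127 k191 7 (.s k8 k4 1 (.s k89 k251 12 (.s k166 k243 14 (.d k174 k162 k93 1 12)))))) (.c k127 (.q
  k64 [(.s k8 k4 1 (.s k89 k251 12 (.s k166 k243 14 (.d k174 k162 k93 1 12)))), (.s k192 k128 7 (.s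
  k72 k132 9 (.s k68 k76 1 (.s k136 k204 9 (.d k8 k4 k200 1 7))))), (.s k128 k192 7 (.s k29 k46 4
  (.s k174 k93 12 (.s k149 k191 6 (.s k89 k209 9 (.d k166 k243 k162 14 1))))))] (.c k93 (.l (.s k8
  k4 1 (.s k128 k192 7 (.s k89 k251 12 (.s k29 k46 4 (.d k149 k191 k209 6 9)))))) .n)) (.c k166 (.l
  (.s k46 k29 4 (.s k174 k93 12 (.s k110 k238 7 (.s k157 k204 12 (.d k191 k140 k127 4 7))))))
  .n)))))

def t42_190 : T TT 256 :=
  (.f k255 k85 14 (.q k3 [(.s k2 k1 0 (.s k171 k87 13 (.s k169 k168 0 (.d k86 k254 k252 13 14)))),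
  (.s k23 k43 5 (.s k87 k171 13 (.s k151 k215 7 (.s k107 k195 13 (.d k127 k67 k191 5 7))))), (.s k2
  k1 0 (.s k86 k254 13 (.s k23 k43 5 (.s k149 k212 8 (.d k191 k127 k128 7 6)))))] (.c k64 (.l (.s
  k127 k191 7 (.s k2 k1 0 (.s k86 k254 13 (.s k169 k252 14 (.d k171 k168 k87 0 13)))))) (.c k127 (.q
  k64 [(.s k2 k1 0 (.s k86 k254 13 (.s k169 k252 14 (.d k171 k168 k87 0 13)))), (.s k192 k128 7 (.s
  k66 k129 8 (.s k65 k67 0 (.s k130 k195 8 (.d k2 k1 k194 0 7))))), (.s k128 k192 7 (.s k23 k43 5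
  (.s k171 k87 13 (.s k149 k191 6 (.s k86 k212 8 (.d k169 k252 k168 14 0))))))] (.c k87 (.l (.s k2
  k1 0 (.s k128 k192 7 (.s k86 k254 13 (.s k23 k43 5 (.d k149 k191 k212 6 8)))))) .n)) (.c k169 (.l
  (.s k43 k23 5 (.s k171 k87 13 (.s k107 k235 7 (.s k151 k195 13 (.d k191 k131 k127 5 7))))))
  .n)))))

def t42_191 : T TT 256 :=
  (.f k85 k255 14 (.q k51 [(.s k34 k17 4 (.s k102 k238 9 (.s k204 k153 14 (.d k68 k119 k136 4 9)))),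
  (.s k17 k34 4 (.s k153 k221 9 (.s k204 k102 14 (.d k136 k187 k68 4 9))))] (.c k17 (.q k4 [(.s k55
  k59 1 (.s k38 k21 4 (.d k12 k8 k25 1 6))), (.s k166 k247 12 (.s k162 k174 1 (.s k243 k81 12 (.d
  k12 k8 k89 1 14))))] (.c k8 (.l (.s k166 k247 12 (.s k162 k174 1 (.s k243 k81 12 (.s k183 k123 9
  (.s k149 k132 4 (.s k21 k213 7 (.d k55 k59 k38 1 4)))))))) (.c k12 (.l (.s k166 k247 12 (.s k55
  k59 1 (.s k21 k38 4 (.s k149 k213 7 (.s k196 k102 12 (.d k132 k183 k68 4 7))))))) .n))) (.c k34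
  (.q k4 [(.s k55 k59 1 (.s k38 k21 4 (.d k12 k8 k25 1 6))), (.s k166 k247 12 (.s k162 k174 1 (.s
  k243 k81 12 (.d k12 k8 k89 1 14))))] (.c k8 (.l (.s k166 k247 12 (.s k162 k174 1 (.s k243 k81 12
  (.s k183 k123 9 (.s k149 k132 4 (.s k21 k213 7 (.d k55 k59 k38 1 4)))))))) (.c k12 (.l (.s k166
  k247 12 (.s k55 k59 1 (.s k38 k21 4 (.s k102 k230 7 (.s k196 k149 12 (.d k68 k119 k132 4 7)))))))
  (.c k38 (.q k46 [(.d k12 k8 k29 1 4), (.s k166 k247 12 (.s k174 k162 1 (.s k110 k238 7 (.s k204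
  k157 12 (.s k68 k136 9 (.d k102 k119 k153 4 14))))))] .n) (.c k46 (.q k38 [(.d k12 k8 k25 1 6),
  (.d k55 k59 k21 1 4)] (.c k166 (.q k226 [(.d k12 k8 k25 1 6), (.d k55 k59 k21 1 4)] .n) (.c k226
  (.l (.s k166 k247 12 (.d k12 k8 k25 1 6))) .n))) .n))))) (.c k68 (.q k4 [(.s k55 k59 1 (.s k38 k21
  4 (.d k12 k8 k25 1 6))), (.s k166 k247 12 (.s k162 k174 1 (.s k243 k81 12 (.d k12 k8 k89 1 14)))),
  (.s k34 k17 4 (.s k166 k247 12 (.s k102 k238 9 (.s k38 k230 7 (.d k55 k59 k21 1 4)))))] .n) (.c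
  k102 (.q k98 [(.s k34 k17 4 (.s k192 k145 12 (.s k64 k128 7 (.s k81 k115 4 (.d k162 k226 k243 7
  12))))), (.s k17 k34 4 (.s k153 k221 9 (.s k145 k192 12 (.s k136 k187 4 (.s k204 k68 9 (.d k157
  k149 k110 1 12)))))), (.s k34 k17 4 (.s k162 k226 7 (.s k166 k174 1 (.s k4 k247 12 (.s k12 k8 1
  (.d k243 k81 k89 12 14)))))), (.s k192 k145 12 (.s k64 k128 7 (.s k81 k115 4 (.s k89 k93 1 (.s k8
  k251 12 (.s k12 k4 1 (.d k243 k162 k166 12 14)))))))] .n) (.c k136 (.q k98 [(.s k17 k34 4 (.s k153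
  k221 9 (.s k204 k102 14 (.s k157 k110 12 (.d k145 k149 k192 1 12))))), (.s k192 k145 12 (.s k64
  k128 7 (.s k81 k115 4 (.s k89 k93 1 (.s k8 k251 12 (.s k12 k4 1 (.d k243 k162 k166 12 14)))))))]
  (.c k145 (.l (.s k34 k17 4 (.s k162 k226 7 (.s k81 k243 12 (.s k102 k238 9 (.s k115 k64 4 (.d k89
  k93 k76 1 6))))))) (.c k192 (.l (.s k34 k17 4 (.s k162 k226 7 (.s k243 k81 12 (.s k166 k174 1 (.s
  k4 k247 12 (.d k12 k8 k89 1 14))))))) .n))) (.c k153 (.q k4 [(.s k34 k17 4 (.s k102 k238 9 (.s k68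
  k119 4 (.s k196 k132 7 (.d k55 k59 k149 1 12))))), (.s k12 k8 1 (.s k166 k247 12 (.s k243 k89 14
  (.d k162 k174 k81 1 12))))] (.c k59 (.q k200 [(.s k166 k247 12 (.s k162 k174 1 (.s k243 k81 12 (.d
  k12 k8 k89 1 14)))), (.s k34 k17 4 (.s k102 k238 9 (.s k68 k119 4 (.s k204 k136 9 (.d k196 k192
  k132 1 7)))))] (.c k8 (.q k25 [(.s k17 k34 4 (.s k29 k21 1 (.d k12 k46 k38 4 6))), (.s k34 k17 4
  (.s k102 k238 9 (.s k68 k119 4 (.s k204 k136 9 (.d k196 k192 k132 1 7))))), (.s k166 k247 12 (.s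
  k162 k174 1 (.s k243 k81 12 (.d k12 k38 k89 6 14))))] .n) (.c k25 (.l (.s k8 k12 1 (.s k34 k17 4
  (.s k136 k72 7 (.s k68 k204 9 (.d k102 k238 k119 9 4)))))) .n))) (.c k200 (.l (.s k59 k55 1 (.s
  k12 k8 1 (.s k166 k247 12 (.s k243 k89 14 (.d k162 k174 k81 1 12)))))) .n))) (.c k204 (.q k4 [(.s
  k55 k59 1 (.s k38 k21 4 (.d k12 k8 k25 1 6))), (.s k166 k247 12 (.s k162 k174 1 (.s k243 k81 12
  (.d k12 k8 k89 1 14))))] (.c k8 (.l (.s k17 k34 4 (.s k166 k247 12 (.s k162 k174 1 (.s k243 k81 12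
  (.s k179 k115 7 (.d k153 k140 k221 6 9))))))) (.c k12 (.l (.s k34 k17 4 (.s k166 k247 12 (.s k55
  k59 1 (.s k38 k21 4 (.d k102 k230 k238 7 9)))))) (.c k221 (.q k238 [(.d k34 k17 k102 4 9), (.s k55
  k59 1 (.s k38 k21 4 (.d k12 k8 k25 1 6)))] .n) (.c k238 (.q k221 [(.d k17 k34 k153 4 9), (.s k12
  k8 1 (.s k166 k247 12 (.s k243 k89 14 (.d k162 k174 k81 1 12))))] .n) .n))))) (.c k221 (.l (.s k34
  k17 4 (.s k102 k238 9 (.s k204 k153 14 (.d k68 k119 k136 4 9))))) (.c k238 (.l (.s k17 k34 4 (.s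
  k153 k221 9 (.s k204 k102 14 (.d k136 k187 k68 4 9))))) .n)))))))))))

def t42_192 : T TT 256 :=
  (.q k3 [(.s k2 k1 0 (.s k85 k255 14 (.s k86 k254 13 (.s k252 k169 14 (.d k84 k87 k168 0 13))))),
  (.s k255 k85 14 (.s k23 k43 5 (.s k87 k171 13 (.s k151 k215 7 (.s k107 k195 13 (.d k127 k67 k191 5
  7)))))), (.s k1 k2 0 (.s k85 k255 14 (.s k169 k253 13 (.s k252 k86 14 (.d k168 k171 k84 0 13)))))]
  (.c k85 (.f k43 k23 5 (.f k2 k1 0 (.l (.s k86 k254 13 (.s k169 k252 14 (.s k171 k168 0 (.s k255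
  k87 13 (.s k107 k235 7 (.s k151 k195 13 (.d k191 k131 k127 5 7)))))))))) (.c k169 (.l (.s k255 k85
  14 (.s k43 k23 5 (.s k171 k87 13 (.s k107 k235 7 (.s k151 k195 13 (.d k191 k127 k131 7 5)))))))
  (.c k255 (.f k2 k1 0 (.f k43 k23 5 (.q k12 [(.s k4 k8 1 (.s k6 k9 2 (.s k10 k14 1 (.d k5 k7 k15 0
  2)))), (.s k8 k4 1 (.s k86 k254 13 (.s k252 k169 14 (.s k89 k251 12 (.d k92 k83 k172 2 11))))),
  (.s k86 k254 13 (.s k6 k9 2 (.s k166 k246 11 (.s k243 k89 14 (.d k162 k174 k81 1 12)))))] (.c k213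
  (.q k234 [(.s k4 k8 1 (.s k6 k9 2 (.s k10 k14 1 (.d k5 k7 k15 0 2)))), (.s k8 k4 1 (.s k86 k254 13
  (.s k252 k169 14 (.s k89 k251 12 (.d k92 k83 k172 2 11))))), (.s k86 k254 13 (.s k6 k9 2 (.s k166
  k246 11 (.s k243 k89 14 (.d k162 k174 k81 1 12)))))] .n) (.c k234 (.q k213 [(.s k4 k8 1 (.s k6 k9
  2 (.s k10 k14 1 (.d k5 k7 k15 0 2)))), (.s k8 k4 1 (.s k86 k254 13 (.s k252 k169 14 (.s k89 k251
  12 (.d k92 k83 k172 2 11))))), (.s k86 k254 13 (.s k6 k9 2 (.s k166 k246 11 (.s k243 k89 14 (.d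
  k162 k174 k81 1 12)))))] .n) .n))))) .n))))

def t42_193 : T TT 256 :=
  (.f k255 k85 14 (.q k60 [(.s k40 k20 5 (.s k105 k235 8 (.s k190 k125 8 (.d k150 k130 k195 5
  14)))), (.s k61 k62 0 (.s k125 k190 8 (.s k189 k253 7 (.s k126 k252 8 (.d k127 k124 k191 0 7)))))]
  (.c k64 (.l (.s k127 k191 7 (.s k40 k20 5 (.s k105 k235 8 (.s k150 k195 14 (.d k190 k130 k125 5
  8)))))) (.c k125 (.f k40 k20 5 (.l (.s k105 k235 8 (.s k62 k61 0 (.s k150 k195 14 (.s k190 k130 5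
  (.s k126 k254 7 (.s k189 k252 8 (.d k191 k188 k127 0 7))))))))) (.c k127 (.q k64 [(.s k40 k20 5
  (.s k105 k235 8 (.s k150 k195 14 (.d k190 k130 k125 5 8)))), (.s k192 k128 7 (.s k104 k148 13 (.s
  k84 k124 5 (.s k168 k252 13 (.d k40 k20 k232 5 7))))), (.s k128 k192 7 (.s k62 k61 0 (.s k190 k125
  8 (.s k126 k254 7 (.s k189 k252 8 (.d k191 k149 k188 6 0))))))] (.c k125 (.l (.s k40 k20 5 (.s
  k192 k128 7 (.s k104 k148 13 (.s k168 k232 7 (.d k84 k124 k252 5 13)))))) (.c k192 (.l (.s k40 k20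
  5 (.s k105 k235 8 (.s k190 k125 8 (.d k150 k130 k195 5 14))))) .n))) (.c k150 (.l (.s k62 k61 0
  (.s k190 k125 8 (.s k126 k254 7 (.s k189 k252 8 (.d k191 k188 k127 0 7)))))) (.c k190 (.q k43 [(.s
  k40 k20 5 (.s k235 k105 8 (.s k107 k171 7 (.d k195 k215 k151 5 13)))), (.s k3 k23 5 (.s k2 k1 0
  (.s k86 k254 13 (.s k169 k252 14 (.d k171 k168 k87 0 13)))))] (.c k64 (.l (.s k127 k191 7 (.s k40
  k20 5 (.s k3 k23 5 (.s k171 k87 13 (.d k235 k107 k105 7 8)))))) (.c k65 (.l (.s k40 k20 5 (.s k3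
  k23 5 (.s k171 k87 13 (.d k235 k107 k105 7 8))))) (.c k127 (.q k64 [(.s k192 k128 7 (.s k104 k148
  13 (.s k84 k124 5 (.s k168 k252 13 (.d k40 k20 k232 5 7))))), (.s k40 k20 5 (.s k3 k23 5 (.s k171
  k87 13 (.d k235 k107 k105 7 8)))), (.s k3 k23 5 (.s k2 k1 0 (.s k86 k254 13 (.s k169 k252 14 (.d
  k171 k168 k87 0 13)))))] .n) (.c k171 (.l (.s k40 k20 5 (.s k3 k23 5 (.s k2 k1 0 (.s k86 k254 13
  (.s k22 k41 6 (.s k150 k214 7 (.d k105 k235 k195 8 14)))))))) .n))))) .n)))))))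

def t42_194 : T TT 256 :=
  (.q k60 [(.s k40 k20 5 (.s k85 k255 14 (.s k105 k235 8 (.s k65 k125 5 (.d k195 k150 k130 14
  8))))), (.s k255 k85 14 (.s k125 k190 8 (.s k127 k191 7 (.s k126 k124 0 (.s k189 k252 8 (.d k61
  k62 k253 0 7))))))] (.c k62 (.q k150 [(.s k40 k20 5 (.d k105 k235 k195 8 14)), (.s k255 k85 14 (.d
  k190 k130 k125 5 8))] (.c k2 (.q k22 [(.s k40 k20 5 (.d k105 k235 k195 8 14)), (.s k255 k85 14 (.d
  k190 k130 k125 5 8))] (.c k66 (.l (.s k130 k190 5 (.d k195 k65 k105 8 14))) (.c k130 (.q k66 [(.s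
  k40 k20 5 (.d k105 k235 k195 8 14)), (.s k20 k40 5 (.d k85 k215 k255 8 14))] (.c k20 (.l (.s k85
  k255 14 (.s k3 k41 6 (.s k86 k214 7 (.s k252 k169 14 (.d k84 k87 k168 0 13)))))) (.c k40 (.l (.s
  k85 k255 14 (.s k20 k215 8 (.s k23 k21 0 (.d k3 k43 k41 5 6))))) .n))) .n))) (.c k22 (.q k2 [(.s
  k20 k40 5 (.d k85 k215 k255 8 14)), (.s k255 k85 14 (.d k190 k130 k125 5 8)), (.s k40 k20 5 (.d
  k105 k235 k195 8 14))] .n) .n))) (.c k85 (.q k150 [(.s k40 k20 5 (.d k105 k235 k195 8 14)), (.s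
  k61 k62 0 (.s k190 k130 5 (.s k125 k255 8 (.s k189 k253 7 (.s k252 k126 8 (.d k188 k191 k124 0
  7))))))] (.c k64 (.q k127 [(.s k40 k20 5 (.d k105 k235 k195 8 14)), (.s k255 k191 7 (.d k190 k130
  k125 5 8))] .n) (.c k127 (.q k64 [(.s k40 k20 5 (.d k105 k235 k195 8 14)), (.s k195 k105 14 (.d
  k130 k65 k190 8 5)), (.s k40 k20 5 (.s k192 k128 7 (.s k104 k148 13 (.s k168 k232 7 (.d k84 k124
  k252 5 13)))))] .n) .n))) (.c k125 (.l (.s k20 k40 5 (.s k85 k255 14 (.s k150 k215 8 (.s k195 k105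
  14 (.d k130 k190 k65 5 8)))))) (.c k150 (.l (.s k62 k61 0 (.s k255 k85 14 (.s k190 k125 8 (.s k126
  k254 7 (.s k189 k252 8 (.d k191 k127 k188 7 0))))))) (.c k255 (.q k150 [(.s k40 k20 5 (.d k105
  k235 k195 8 14)), (.s k62 k61 0 (.s k190 k130 5 (.s k126 k254 7 (.s k252 k189 8 (.s k168 k84 13
  (.s k188 k124 7 (.d k169 k171 k131 0 6)))))))] .n) .n))))))

def t42_195 : T TT 256 :=
  (.f k255 k85 14 (.q k12 [(.s k8 k4 1 (.s k89 k251 12 (.s k174 k93 12 (.d k166 k162 k243 1 14)))),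
  (.s k29 k46 4 (.s k93 k174 12 (.s k157 k221 7 (.s k110 k204 12 (.d k127 k76 k191 4 7))))), (.s k8
  k4 1 (.s k89 k251 12 (.s k29 k46 4 (.s k149 k209 9 (.d k191 k127 k128 7 6)))))] (.c k64 (.l (.s
  k127 k191 7 (.s k8 k4 1 (.s k89 k251 12 (.s k166 k243 14 (.d k174 k162 k93 1 12)))))) (.c k127 (.q
  k64 [(.s k8 k4 1 (.s k89 k251 12 (.s k166 k243 14 (.d k174 k162 k93 1 12)))), (.s k192 k128 7 (.s
  k72 k132 9 (.s k68 k76 1 (.s k136 k204 9 (.d k8 k4 k200 1 7))))), (.s k128 k192 7 (.s k29 k46 4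
  (.s k174 k93 12 (.s k149 k191 6 (.s k89 k209 9 (.d k166 k243 k162 14 1))))))] (.c k93 (.l (.s k8
  k4 1 (.s k128 k192 7 (.s k89 k251 12 (.s k29 k46 4 (.d k149 k191 k209 6 9)))))) .n)) (.c k166 (.l
  (.s k46 k29 4 (.s k174 k93 12 (.s k110 k238 7 (.s k157 k204 12 (.d k191 k140 k127 4 7))))))
  .n)))))

def t42_196 : T TT 256 :=
  (.f k255 k85 14 (.q k48 [(.s k32 k16 3 (.s k101 k239 10 (.s k154 k207 14 (.d k186 k138 k117 3
  10)))), (.s k53 k58 2 (.s k117 k186 10 (.s k181 k245 7 (.s k122 k240 10 (.d k127 k112 k191 2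
  7))))), (.s k32 k16 3 (.s k101 k239 10 (.s k53 k58 2 (.s k149 k197 11 (.d k191 k127 k128 7 6)))))]
  (.c k64 (.l (.s k127 k191 7 (.s k32 k16 3 (.s k101 k239 10 (.s k154 k207 14 (.d k186 k138 k117 3
  10)))))) (.c k127 (.q k64 [(.s k32 k16 3 (.s k101 k239 10 (.s k154 k207 14 (.d k186 k138 k117 3
  10)))), (.s k192 k128 7 (.s k96 k144 11 (.s k80 k112 3 (.s k160 k240 11 (.d k32 k16 k224 3 7))))),
  (.s k128 k192 7 (.s k53 k58 2 (.s k186 k117 10 (.s k149 k191 6 (.s k101 k197 11 (.d k154 k207 k138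
  14 3))))))] (.c k117 (.l (.s k32 k16 3 (.s k128 k192 7 (.s k101 k239 10 (.s k53 k58 2 (.d k149
  k191 k197 6 11)))))) .n)) (.c k154 (.l (.s k58 k53 2 (.s k186 k117 10 (.s k122 k250 7 (.s k181
  k240 10 (.d k191 k176 k127 2 7)))))) .n)))))

def t42_197 : T TT 256 :=
  (.f k255 k85 14 (.q k51 [(.s k34 k17 4 (.s k102 k238 9 (.s k153 k204 14 (.d k187 k136 k119 4
  9)))), (.s k55 k59 1 (.s k119 k187 9 (.s k183 k247 7 (.s k123 k243 9 (.d k127 k115 k191 1 7))))),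
  (.s k34 k17 4 (.s k102 k238 9 (.s k55 k59 1 (.s k149 k196 12 (.d k191 k127 k128 7 6)))))] (.c k64
  (.l (.s k127 k191 7 (.s k34 k17 4 (.s k102 k238 9 (.s k153 k204 14 (.d k187 k136 k119 4 9))))))
  (.c k127 (.q k64 [(.s k34 k17 4 (.s k102 k238 9 (.s k153 k204 14 (.d k187 k136 k119 4 9)))), (.s
  k192 k128 7 (.s k98 k145 12 (.s k81 k115 4 (.s k162 k243 12 (.d k34 k17 k226 4 7))))), (.s k128
  k192 7 (.s k55 k59 1 (.s k187 k119 9 (.s k149 k191 6 (.s k102 k196 12 (.d k153 k204 k136 14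
  4))))))] (.c k119 (.l (.s k34 k17 4 (.s k128 k192 7 (.s k102 k238 9 (.s k55 k59 1 (.d k149 k191
  k196 6 12)))))) .n)) (.c k153 (.l (.s k59 k55 1 (.s k187 k119 9 (.s k123 k251 7 (.s k183 k243 9
  (.d k191 k179 k127 1 7)))))) .n)))))

def t42_198 : T TT 256 :=
  (.f k255 k85 14 (.q k48 [(.s k32 k16 3 (.s k101 k239 10 (.s k154 k207 14 (.d k186 k138 k117 3
  10)))), (.s k53 k58 2 (.s k117 k186 10 (.s k181 k245 7 (.s k122 k240 10 (.d k127 k112 k191 2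
  7))))), (.s k32 k16 3 (.s k101 k239 10 (.s k53 k58 2 (.s k149 k197 11 (.d k191 k127 k128 7 6)))))]
  (.c k64 (.l (.s k127 k191 7 (.s k32 k16 3 (.s k101 k239 10 (.s k154 k207 14 (.d k186 k138 k117 3
  10)))))) (.c k127 (.q k64 [(.s k32 k16 3 (.s k101 k239 10 (.s k154 k207 14 (.d k186 k138 k117 3
  10)))), (.s k192 k128 7 (.s k96 k144 11 (.s k80 k112 3 (.s k160 k240 11 (.d k32 k16 k224 3 7))))),
  (.s k128 k192 7 (.s k53 k58 2 (.s k186 k117 10 (.s k149 k191 6 (.s k101 k197 11 (.d k154 k207 k138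
  14 3))))))] (.c k117 (.l (.s k32 k16 3 (.s k128 k192 7 (.s k101 k239 10 (.s k53 k58 2 (.d k149
  k191 k197 6 11)))))) .n)) (.c k154 (.l (.s k58 k53 2 (.s k186 k117 10 (.s k122 k250 7 (.s k181
  k240 10 (.d k191 k176 k127 2 7)))))) .n)))))

def t42_199 : T TT 256 :=
  (.f k255 k85 14 (.q k51 [(.s k34 k17 4 (.s k102 k238 9 (.s k153 k204 14 (.d k187 k136 k119 4
  9)))), (.s k55 k59 1 (.s k119 k187 9 (.s k183 k247 7 (.s k123 k243 9 (.d k127 k115 k191 1 7))))),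
  (.s k34 k17 4 (.s k102 k238 9 (.s k55 k59 1 (.s k149 k196 12 (.d k191 k127 k128 7 6)))))] (.c k64
  (.l (.s k127 k191 7 (.s k34 k17 4 (.s k102 k238 9 (.s k153 k204 14 (.d k187 k136 k119 4 9))))))
  (.c k127 (.q k64 [(.s k34 k17 4 (.s k102 k238 9 (.s k153 k204 14 (.d k187 k136 k119 4 9)))), (.s
  k192 k128 7 (.s k98 k145 12 (.s k81 k115 4 (.s k162 k243 12 (.d k34 k17 k226 4 7))))), (.s k128
  k192 7 (.s k55 k59 1 (.s k187 k119 9 (.s k149 k191 6 (.s k102 k196 12 (.d k153 k204 k136 14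
  4))))))] (.c k119 (.l (.s k34 k17 4 (.s k128 k192 7 (.s k102 k238 9 (.s k55 k59 1 (.d k149 k191
  k196 6 12)))))) .n)) (.c k153 (.l (.s k59 k55 1 (.s k187 k119 9 (.s k123 k251 7 (.s k183 k243 9
  (.d k191 k179 k127 1 7)))))) .n)))))

def t42_200 : T TT 256 :=
  (.q k12 [(.s k4 k8 1 (.s k85 k255 14 (.s k166 k247 12 (.s k162 k174 1 (.d k243 k81 k89 12 14))))),
  (.s k255 k85 14 (.s k29 k46 4 (.s k93 k174 12 (.s k157 k221 7 (.s k110 k204 12 (.d k127 k76 k191 4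
  7))))))] (.c k59 (.q k153 [(.s k85 k255 14 (.s k29 k46 4 (.s k17 k221 9 (.s k25 k21 1 (.d k51 k34
  k38 4 6))))), (.s k8 k4 1 (.s k85 k255 14 (.s k89 k251 12 (.s k81 k93 1 (.d k243 k162 k166 12
  14)))))] (.c k8 (.q k25 [(.s k85 k255 14 (.s k51 k38 6 (.d k17 k34 k221 4 9))), (.s k136 k187 4
  (.s k204 k68 9 (.d k51 k38 k102 6 14))), (.s k85 k255 14 (.s k17 k221 9 (.d k29 k21 k46 1 4)))]
  (.c k72 (.l (.s k136 k187 4 (.s k204 k68 9 (.d k51 k38 k102 6 14)))) (.c k136 (.q k72 [(.s k85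
  k255 14 (.s k51 k38 6 (.d k17 k34 k221 4 9))), (.s k85 k255 14 (.s k89 k217 7 (.s k243 k166 14 (.d
  k81 k93 k162 1 12)))), (.s k51 k38 6 (.s k34 k17 4 (.d k102 k238 k204 9 14)))] (.c k46 (.l (.s k85
  k255 14 (.s k17 k221 9 (.d k51 k34 k38 4 6)))) .n)) .n))) (.c k25 (.l (.s k8 k4 1 (.s k85 k255 14
  (.s k89 k251 12 (.s k243 k166 14 (.d k81 k93 k162 1 12)))))) (.c k85 (.l (.s k8 k4 1 (.s k89 k251
  12 (.s k166 k243 14 (.s k140 k179 6 (.s k204 k76 7 (.d k136 k187 k68 4 9))))))) (.c k166 (.l (.s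
  k85 k255 14 (.s k17 k221 9 (.s k51 k34 4 (.s k204 k102 14 (.d k136 k187 k68 4 9)))))) (.c k255 (.l
  (.s k8 k4 1 (.s k89 k251 12 (.s k243 k166 14 (.s k217 k25 7 (.s k204 k230 6 (.d k136 k187 k68 4
  9))))))) .n)))))) (.c k85 (.f k8 k4 1 (.l (.s k89 k251 12 (.s k29 k46 4 (.s k166 k243 14 (.s k149
  k209 9 (.s k128 k191 6 (.s k132 k183 4 (.d k192 k64 k72 7 9))))))))) (.c k153 (.q k59 [(.s k4 k8 1
  (.s k85 k255 14 (.s k166 k247 12 (.s k162 k174 1 (.d k243 k81 k89 12 14))))), (.s k255 k85 14 (.s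
  k29 k46 4 (.s k93 k174 12 (.s k127 k191 7 (.s k110 k76 4 (.d k157 k221 k204 7 12)))))), (.s k8 k4
  1 (.s k89 k251 12 (.s k166 k243 14 (.s k51 k55 1 (.s k38 k25 6 (.s k102 k230 7 (.d k34 k17 k238 4
  9)))))))] (.c k166 (.l (.s k8 k4 1 (.s k251 k89 12 (.s k123 k187 7 (.s k243 k183 9 (.d k255 k247
  k85 1 14)))))) (.c k255 (.l (.s k8 k4 1 (.s k89 k251 12 (.s k243 k166 14 (.s k51 k55 1 (.s k34 k17
  4 (.s k102 k238 9 (.d k115 k179 k76 7 6)))))))) .n))) (.c k166 (.l (.s k255 k85 14 (.s k46 k29 4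
  (.s k174 k93 12 (.s k110 k238 7 (.s k157 k204 12 (.d k191 k127 k140 7 4))))))) (.c k174 (.l (.s k8
  k4 1 (.s k85 k255 14 (.s k89 k251 12 (.s k243 k166 14 (.d k81 k93 k162 1 12)))))) (.c k255 (.f k8
  k4 1 (.l (.s k89 k251 12 (.s k29 k46 4 (.s k149 k209 9 (.s k128 k191 6 (.s k192 k64 7 (.s k132 k72
  9 (.d k166 k243 k183 14 4))))))))) .n)))))))

def t42_201 : T TT 256 :=
  (.f k255 k85 14 (.q k60 [(.s k40 k20 5 (.s k105 k235 8 (.s k190 k125 8 (.d k150 k130 k195 5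
  14)))), (.s k61 k62 0 (.s k125 k190 8 (.s k189 k253 7 (.s k126 k252 8 (.d k127 k124 k191 0 7))))),
  (.s k40 k20 5 (.s k105 k235 8 (.s k61 k62 0 (.s k149 k193 13 (.d k191 k127 k128 7 6)))))] (.c k64
  (.l (.s k127 k191 7 (.s k40 k20 5 (.s k105 k235 8 (.s k150 k195 14 (.d k190 k130 k125 5 8))))))
  (.c k127 (.q k64 [(.s k40 k20 5 (.s k105 k235 8 (.s k150 k195 14 (.d k190 k130 k125 5 8)))), (.s
  k192 k128 7 (.s k104 k148 13 (.s k84 k124 5 (.s k168 k252 13 (.d k40 k20 k232 5 7))))), (.s k128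
  k192 7 (.s k61 k62 0 (.s k190 k125 8 (.s k149 k191 6 (.s k105 k193 13 (.d k150 k195 k130 14
  5))))))] (.c k125 (.l (.s k40 k20 5 (.s k128 k192 7 (.s k105 k235 8 (.s k61 k62 0 (.d k149 k191
  k193 6 13)))))) .n)) (.c k150 (.l (.s k62 k61 0 (.s k190 k125 8 (.s k126 k254 7 (.s k189 k252 8
  (.d k191 k188 k127 0 7)))))) .n)))))

def t42_202 : T TT 256 :=
  (.f k255 k85 14 (.f k127 k191 7 (.q k123 [(.s k183 k243 9 (.s k119 k115 1 (.s k51 k187 9 (.d k55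
  k59 k247 1 7)))), (.s k243 k183 9 (.s k162 k81 12 (.s k166 k174 1 (.s k89 k12 14 (.d k251 k247 k8
  1 12)))))] (.c k58 (.q k154 [(.s k183 k243 9 (.s k119 k115 1 (.s k51 k187 9 (.d k55 k59 k247 1
  7)))), (.s k138 k186 3 (.s k207 k69 10 (.s k101 k48 14 (.d k239 k223 k32 3 10))))] (.c k10 (.q k26
  [(.s k183 k243 9 (.s k119 k115 1 (.s k51 k187 9 (.d k55 k59 k247 1 7)))), (.s k138 k186 3 (.s k207
  k69 10 (.s k101 k48 14 (.d k239 k223 k32 3 10))))] (.c k74 (.l (.s k138 k186 3 (.s k207 k69 10 (.s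
  k101 k48 14 (.d k239 k223 k32 3 10))))) (.c k138 (.q k74 [(.s k183 k243 9 (.s k119 k115 1 (.s k51
  k187 9 (.d k55 k59 k247 1 7)))), (.s k243 k183 9 (.s k162 k81 12 (.s k166 k174 1 (.s k89 k12 14
  (.d k251 k247 k8 1 12))))), (.s k119 k115 1 (.s k187 k51 9 (.s k251 k59 7 (.s k153 k136 4 (.s k89
  k8 12 (.s k25 k217 7 (.d k24 k27 k219 0 8)))))))] (.c k179 (.l (.s k183 k243 9 (.s k119 k115 1 (.s
  k51 k187 9 (.d k55 k59 k247 1 7))))) (.c k187 (.l (.s k115 k119 1 (.s k243 k183 9 (.s k179 k51 7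
  (.s k162 k81 12 (.s k166 k174 1 (.s k89 k12 14 (.d k251 k247 k8 1 12)))))))) (.c k243 (.q k51 [(.d
  k119 k115 k187 1 9), (.s k34 k17 4 (.s k102 k238 9 (.s k50 k206 13 (.s k48 k49 0 (.s k32 k16 3 (.d
  k101 k239 k207 10 14))))))] .n) .n)))) .n))) (.c k26 (.q k10 [(.s k183 k243 9 (.s k119 k115 1 (.s
  k51 k187 9 (.d k55 k59 k247 1 7)))), (.s k15 k5 2 (.s k90 k250 11 (.s k165 k240 14 (.d k175 k160
  k95 2 11))))] .n) .n))) (.c k154 (.q k58 [(.s k183 k243 9 (.s k119 k115 1 (.s k51 k187 9 (.d k55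
  k59 k247 1 7)))), (.s k48 k53 2 (.s k117 k186 10 (.s k122 k112 2 (.s k115 k119 1 (.s k121 k120 0
  (.s k125 k113 1 (.d k124 k126 k118 0 2))))))), (.s k243 k183 9 (.s k162 k81 12 (.s k166 k174 1 (.s
  k89 k12 14 (.d k251 k247 k8 1 12)))))] (.c k16 (.q k223 [(.s k183 k243 9 (.s k119 k115 1 (.s k51
  k187 9 (.d k55 k59 k247 1 7)))), (.s k48 k53 2 (.s k117 k186 10 (.s k122 k112 2 (.s k115 k119 1
  (.s k121 k120 0 (.s k125 k113 1 (.d k124 k126 k118 0 2))))))), (.s k243 k183 9 (.s k162 k81 12 (.s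
  k166 k174 1 (.s k89 k12 14 (.d k251 k247 k8 1 12)))))] .n) (.c k223 (.q k16 [(.d k48 k53 k32 2 3),
  (.s k183 k243 9 (.s k119 k115 1 (.s k51 k187 9 (.d k55 k59 k247 1 7))))] .n) .n))) (.c k179 (.l
  (.s k183 k243 9 (.s k119 k115 1 (.s k51 k187 9 (.d k55 k59 k247 1 7))))) (.c k183 (.l (.s k119
  k115 1 (.s k187 k51 9 (.s k251 k59 7 (.s k243 k247 1 (.s k162 k81 12 (.s k166 k174 1 (.d k89 k8
  k12 12 14)))))))) (.c k187 (.l (.s k115 k119 1 (.s k243 k183 9 (.s k179 k51 7 (.s k162 k81 12 (.s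
  k166 k174 1 (.s k89 k12 14 (.d k251 k247 k8 1 12)))))))) (.c k243 (.q k58 [(.s k48 k53 2 (.s k32
  k16 3 (.s k101 k239 10 (.s k186 k117 10 (.d k154 k138 k207 3 14))))), (.s k48 k53 2 (.s k119 k115
  1 (.s k51 k187 9 (.s k50 k49 0 (.s k54 k62 1 (.s k57 k60 2 (.d k59 k56 k55 0 1)))))))] (.c k48 (.q
  k12 [(.s k93 k174 12 (.s k110 k76 4 (.s k157 k204 12 (.d k29 k46 k221 4 7)))), (.s k8 k4 1 (.s
  k251 k89 12 (.s k187 k59 7 (.d k119 k115 k51 1 9))))] (.c k93 (.l (.s k46 k29 4 (.s k119 k115 1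
  (.s k51 k187 9 (.s k34 k17 4 (.s k238 k102 9 (.s k110 k174 7 (.d k204 k221 k157 4 12)))))))) (.c
  k113 (.q k178 [(.s k93 k174 12 (.s k110 k76 4 (.s k157 k204 12 (.d k29 k46 k221 4 7)))), (.s k8 k4
  1 (.s k251 k89 12 (.s k187 k59 7 (.d k119 k115 k51 1 9))))] (.c k93 (.l (.s k46 k29 4 (.s k119
  k115 1 (.s k51 k187 9 (.s k34 k17 4 (.s k238 k102 9 (.s k110 k174 7 (.d k204 k221 k157 4
  12)))))))) .n)) (.c k178 (.q k113 [(.s k93 k174 12 (.s k110 k76 4 (.s k157 k204 12 (.d k29 k46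
  k221 4 7)))), (.s k115 k119 1 (.s k112 k114 0 (.s k122 k117 2 (.s k250 k186 7 (.d k240 k181 k245
  10 2)))))] .n) .n)))) (.c k53 (.q k12 [(.s k93 k174 12 (.s k110 k76 4 (.s k157 k204 12 (.d k29 k46
  k221 4 7)))), (.s k8 k4 1 (.s k251 k89 12 (.s k187 k59 7 (.d k119 k115 k51 1 9))))] (.c k93 (.l
  (.s k46 k29 4 (.s k119 k115 1 (.s k51 k187 9 (.s k34 k17 4 (.s k238 k102 9 (.s k110 k174 7 (.d
  k204 k221 k157 4 12)))))))) .n)) .n))) (.c k247 (.l (.s k243 k183 9 (.s k162 k81 12 (.s k119 k115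
  1 (.s k187 k51 9 (.s k251 k59 7 (.s k166 k174 1 (.d k89 k8 k12 12 14)))))))) .n))))))))))

def t42_203 : T TT 256 :=
  (.f k255 k85 14 (.q k48 [(.s k32 k16 3 (.s k101 k239 10 (.s k186 k117 10 (.d k154 k138 k207 3
  14)))), (.s k53 k58 2 (.s k117 k186 10 (.s k181 k245 7 (.s k122 k240 10 (.d k127 k112 k191 2
  7))))), (.s k32 k16 3 (.s k101 k239 10 (.s k53 k58 2 (.s k149 k197 11 (.d k191 k127 k128 7 6)))))]
  (.c k64 (.l (.s k127 k191 7 (.s k32 k16 3 (.s k101 k239 10 (.s k154 k207 14 (.d k186 k138 k117 3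
  10)))))) (.c k127 (.q k64 [(.s k32 k16 3 (.s k101 k239 10 (.s k154 k207 14 (.d k186 k138 k117 3
  10)))), (.s k192 k128 7 (.s k96 k144 11 (.s k80 k112 3 (.s k160 k240 11 (.d k32 k16 k224 3 7))))),
  (.s k128 k192 7 (.s k53 k58 2 (.s k186 k117 10 (.s k149 k191 6 (.s k101 k197 11 (.d k154 k207 k138
  14 3))))))] (.c k117 (.l (.s k32 k16 3 (.s k128 k192 7 (.s k101 k239 10 (.s k53 k58 2 (.d k149
  k191 k197 6 11)))))) .n)) (.c k154 (.l (.s k58 k53 2 (.s k186 k117 10 (.s k122 k250 7 (.s k181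
  k240 10 (.d k191 k176 k127 2 7)))))) .n)))))

def t42_204 : T TT 256 :=
  (.f k255 k85 14 (.q k60 [(.s k40 k20 5 (.s k105 k235 8 (.s k190 k125 8 (.d k150 k130 k195 5
  14)))), (.s k61 k62 0 (.s k125 k190 8 (.s k189 k253 7 (.s k126 k252 8 (.d k127 k124 k191 0 7))))),
  (.s k40 k20 5 (.s k105 k235 8 (.s k61 k62 0 (.s k149 k193 13 (.d k191 k127 k128 7 6)))))] (.c k64
  (.l (.s k127 k191 7 (.s k40 k20 5 (.s k105 k235 8 (.s k150 k195 14 (.d k190 k130 k125 5 8))))))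
  (.c k127 (.q k64 [(.s k40 k20 5 (.s k105 k235 8 (.s k150 k195 14 (.d k190 k130 k125 5 8)))), (.s
  k192 k128 7 (.s k104 k148 13 (.s k84 k124 5 (.s k168 k252 13 (.d k40 k20 k232 5 7))))), (.s k128
  k192 7 (.s k61 k62 0 (.s k190 k125 8 (.s k149 k191 6 (.s k105 k193 13 (.d k150 k195 k130 14
  5))))))] (.c k125 (.l (.s k40 k20 5 (.s k128 k192 7 (.s k105 k235 8 (.s k61 k62 0 (.d k149 k191
  k193 6 13)))))) .n)) (.c k150 (.l (.s k62 k61 0 (.s k190 k125 8 (.s k126 k254 7 (.s k189 k252 8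
  (.d k191 k188 k127 0 7)))))) .n)))))

def t42_205 : T TT 256 :=
  (.f k255 k85 14 (.q k60 [(.s k40 k20 5 (.s k105 k235 8 (.s k150 k195 14 (.d k190 k130 k125 5
  8)))), (.s k61 k62 0 (.s k125 k190 8 (.s k189 k253 7 (.s k126 k252 8 (.d k127 k124 k191 0 7))))),
  (.s k40 k20 5 (.s k105 k235 8 (.s k61 k62 0 (.s k149 k193 13 (.d k191 k127 k128 7 6)))))] (.c k64
  (.l (.s k127 k191 7 (.s k40 k20 5 (.s k105 k235 8 (.s k150 k195 14 (.d k190 k130 k125 5 8))))))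
  (.c k127 (.q k64 [(.s k40 k20 5 (.s k105 k235 8 (.s k150 k195 14 (.d k190 k130 k125 5 8)))), (.s
  k192 k128 7 (.s k104 k148 13 (.s k84 k124 5 (.s k168 k252 13 (.d k40 k20 k232 5 7))))), (.s k128
  k192 7 (.s k61 k62 0 (.s k190 k125 8 (.s k149 k191 6 (.s k105 k193 13 (.d k150 k195 k130 14
  5))))))] (.c k125 (.l (.s k40 k20 5 (.s k128 k192 7 (.s k105 k235 8 (.s k61 k62 0 (.d k149 k191
  k193 6 13)))))) .n)) (.c k150 (.l (.s k62 k61 0 (.s k190 k125 8 (.s k126 k254 7 (.s k189 k252 8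
  (.d k191 k188 k127 0 7)))))) .n)))))

def t42_206 : T TT 256 :=
  (.f k255 k85 14 (.q k48 [(.s k32 k16 3 (.s k101 k239 10 (.s k186 k117 10 (.d k154 k138 k207 3
  14)))), (.s k53 k58 2 (.s k117 k186 10 (.s k181 k245 7 (.s k122 k240 10 (.d k127 k112 k191 2
  7))))), (.s k32 k16 3 (.s k101 k239 10 (.s k53 k58 2 (.s k149 k197 11 (.d k191 k127 k128 7 6)))))]
  (.c k64 (.l (.s k127 k191 7 (.s k32 k16 3 (.s k101 k239 10 (.s k154 k207 14 (.d k186 k138 k117 3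
  10)))))) (.c k127 (.q k64 [(.s k32 k16 3 (.s k101 k239 10 (.s k154 k207 14 (.d k186 k138 k117 3
  10)))), (.s k192 k128 7 (.s k96 k144 11 (.s k80 k112 3 (.s k160 k240 11 (.d k32 k16 k224 3 7))))),
  (.s k128 k192 7 (.s k53 k58 2 (.s k186 k117 10 (.s k149 k191 6 (.s k101 k197 11 (.d k154 k207 k138
  14 3))))))] (.c k117 (.l (.s k32 k16 3 (.s k128 k192 7 (.s k101 k239 10 (.s k53 k58 2 (.d k149
  k191 k197 6 11)))))) .n)) (.c k154 (.l (.s k58 k53 2 (.s k186 k117 10 (.s k122 k250 7 (.s k181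
  k240 10 (.d k191 k176 k127 2 7)))))) .n)))))

def t42_207 : T TT 256 :=
  (.f k255 k85 14 (.q k60 [(.s k40 k20 5 (.s k105 k235 8 (.s k190 k125 8 (.d k150 k130 k195 5
  14)))), (.s k61 k62 0 (.s k125 k190 8 (.s k189 k253 7 (.s k126 k252 8 (.d k127 k124 k191 0 7))))),
  (.s k40 k20 5 (.s k105 k235 8 (.s k61 k62 0 (.s k149 k193 13 (.d k191 k127 k128 7 6)))))] (.c k64
  (.l (.s k127 k191 7 (.s k40 k20 5 (.s k105 k235 8 (.s k150 k195 14 (.d k190 k130 k125 5 8))))))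
  (.c k127 (.q k64 [(.s k40 k20 5 (.s k105 k235 8 (.s k150 k195 14 (.d k190 k130 k125 5 8)))), (.s
  k192 k128 7 (.s k104 k148 13 (.s k84 k124 5 (.s k168 k252 13 (.d k40 k20 k232 5 7))))), (.s k128
  k192 7 (.s k61 k62 0 (.s k190 k125 8 (.s k149 k191 6 (.s k105 k193 13 (.d k150 k195 k130 14
  5))))))] (.c k125 (.l (.s k40 k20 5 (.s k128 k192 7 (.s k105 k235 8 (.s k61 k62 0 (.d k149 k191
  k193 6 13)))))) .n)) (.c k150 (.l (.s k62 k61 0 (.s k190 k125 8 (.s k126 k254 7 (.s k189 k252 8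
  (.d k191 k188 k127 0 7)))))) .n)))))

def t42_208 : T TT 256 :=
  (.f k255 k85 14 (.q k48 [(.s k186 k117 10 (.s k154 k138 3 (.s k101 k207 14 (.d k32 k16 k239 3
  10)))), (.s k53 k58 2 (.s k117 k186 10 (.s k181 k245 7 (.s k122 k240 10 (.d k127 k112 k191 2
  7))))), (.s k32 k16 3 (.s k101 k239 10 (.s k53 k58 2 (.s k149 k197 11 (.d k191 k127 k128 7 6)))))]
  (.c k64 (.l (.s k127 k191 7 (.s k32 k16 3 (.s k101 k239 10 (.s k154 k207 14 (.d k186 k138 k117 3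
  10)))))) (.c k127 (.q k64 [(.s k32 k16 3 (.s k101 k239 10 (.s k154 k207 14 (.d k186 k138 k117 3
  10)))), (.s k192 k128 7 (.s k96 k144 11 (.s k80 k112 3 (.s k160 k240 11 (.d k32 k16 k224 3 7))))),
  (.s k128 k192 7 (.s k53 k58 2 (.s k186 k117 10 (.s k149 k191 6 (.s k101 k197 11 (.d k154 k207 k138
  14 3))))))] (.c k117 (.l (.s k32 k16 3 (.s k128 k192 7 (.s k101 k239 10 (.s k53 k58 2 (.d k149
  k191 k197 6 11)))))) .n)) (.c k154 (.l (.s k58 k53 2 (.s k186 k117 10 (.s k122 k250 7 (.s k181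
  k240 10 (.d k191 k176 k127 2 7)))))) .n)))))

def t42_209 : T TT 256 :=
  (.f k255 k85 14 (.q k60 [(.s k40 k20 5 (.s k105 k235 8 (.s k150 k195 14 (.d k190 k130 k125 5
  8)))), (.s k61 k62 0 (.s k125 k190 8 (.s k189 k253 7 (.s k126 k252 8 (.d k127 k124 k191 0 7))))),
  (.s k40 k20 5 (.s k105 k235 8 (.s k61 k62 0 (.s k149 k193 13 (.d k191 k127 k128 7 6)))))] (.c k64
  (.l (.s k127 k191 7 (.s k40 k20 5 (.s k105 k235 8 (.s k150 k195 14 (.d k190 k130 k125 5 8))))))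
  (.c k127 (.q k64 [(.s k40 k20 5 (.s k105 k235 8 (.s k150 k195 14 (.d k190 k130 k125 5 8)))), (.s
  k192 k128 7 (.s k104 k148 13 (.s k84 k124 5 (.s k168 k252 13 (.d k40 k20 k232 5 7))))), (.s k128
  k192 7 (.s k61 k62 0 (.s k190 k125 8 (.s k149 k191 6 (.s k105 k193 13 (.d k150 k195 k130 14
  5))))))] (.c k125 (.l (.s k40 k20 5 (.s k128 k192 7 (.s k105 k235 8 (.s k61 k62 0 (.d k149 k191
  k193 6 13)))))) .n)) (.c k150 (.l (.s k62 k61 0 (.s k190 k125 8 (.s k126 k254 7 (.s k189 k252 8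
  (.d k191 k188 k127 0 7)))))) .n)))))

def t42_210 : T TT 256 :=
  (.f k255 k85 14 (.q k48 [(.s k32 k16 3 (.s k101 k239 10 (.s k154 k207 14 (.d k186 k138 k117 3
  10)))), (.s k53 k58 2 (.s k117 k186 10 (.s k181 k245 7 (.s k122 k240 10 (.d k127 k112 k191 2
  7))))), (.s k32 k16 3 (.s k101 k239 10 (.s k53 k58 2 (.s k149 k197 11 (.d k191 k127 k128 7 6)))))]
  (.c k64 (.l (.s k127 k191 7 (.s k32 k16 3 (.s k101 k239 10 (.s k154 k207 14 (.d k186 k138 k117 3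
  10)))))) (.c k127 (.q k64 [(.s k32 k16 3 (.s k101 k239 10 (.s k154 k207 14 (.d k186 k138 k117 3
  10)))), (.s k192 k128 7 (.s k96 k144 11 (.s k80 k112 3 (.s k160 k240 11 (.d k32 k16 k224 3 7))))),
  (.s k128 k192 7 (.s k53 k58 2 (.s k186 k117 10 (.s k149 k191 6 (.s k101 k197 11 (.d k154 k207 k138
  14 3))))))] (.c k117 (.l (.s k32 k16 3 (.s k128 k192 7 (.s k101 k239 10 (.s k53 k58 2 (.d k149
  k191 k197 6 11)))))) .n)) (.c k154 (.l (.s k58 k53 2 (.s k186 k117 10 (.s k122 k250 7 (.s k181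
  k240 10 (.d k191 k176 k127 2 7)))))) .n)))))

def t42_211 : T TT 256 :=
  (.f k255 k85 14 (.q k60 [(.s k40 k20 5 (.s k105 k235 8 (.s k190 k125 8 (.d k150 k130 k195 5
  14)))), (.s k61 k62 0 (.s k125 k190 8 (.s k189 k253 7 (.s k126 k252 8 (.d k127 k124 k191 0 7))))),
  (.s k40 k20 5 (.s k105 k235 8 (.s k61 k62 0 (.s k149 k193 13 (.d k191 k127 k128 7 6)))))] (.c k64
  (.l (.s k127 k191 7 (.s k40 k20 5 (.s k105 k235 8 (.s k150 k195 14 (.d k190 k130 k125 5 8))))))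
  (.c k127 (.q k64 [(.s k40 k20 5 (.s k105 k235 8 (.s k150 k195 14 (.d k190 k130 k125 5 8)))), (.s
  k192 k128 7 (.s k104 k148 13 (.s k84 k124 5 (.s k168 k252 13 (.d k40 k20 k232 5 7))))), (.s k128
  k192 7 (.s k61 k62 0 (.s k190 k125 8 (.s k149 k191 6 (.s k105 k193 13 (.d k150 k195 k130 14
  5))))))] (.c k125 (.l (.s k40 k20 5 (.s k128 k192 7 (.s k105 k235 8 (.s k61 k62 0 (.d k149 k191
  k193 6 13)))))) .n)) (.c k150 (.l (.s k62 k61 0 (.s k190 k125 8 (.s k126 k254 7 (.s k189 k252 8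
  (.d k191 k188 k127 0 7)))))) .n)))))

def t42_212 : T TT 256 :=
  (.f k255 k85 14 (.q k60 [(.s k190 k125 8 (.s k150 k130 5 (.s k105 k195 14 (.d k40 k20 k235 5
  8)))), (.s k61 k62 0 (.s k125 k190 8 (.s k189 k253 7 (.s k126 k252 8 (.d k127 k124 k191 0 7))))),
  (.s k40 k20 5 (.s k105 k235 8 (.s k61 k62 0 (.s k149 k193 13 (.d k191 k127 k128 7 6)))))] (.c k64
  (.l (.s k127 k191 7 (.s k40 k20 5 (.s k105 k235 8 (.s k150 k195 14 (.d k190 k130 k125 5 8))))))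
  (.c k127 (.q k64 [(.s k40 k20 5 (.s k105 k235 8 (.s k150 k195 14 (.d k190 k130 k125 5 8)))), (.s
  k192 k128 7 (.s k104 k148 13 (.s k84 k124 5 (.s k168 k252 13 (.d k40 k20 k232 5 7))))), (.s k128
  k192 7 (.s k61 k62 0 (.s k190 k125 8 (.s k149 k191 6 (.s k105 k193 13 (.d k150 k195 k130 14
  5))))))] (.c k125 (.l (.s k40 k20 5 (.s k128 k192 7 (.s k105 k235 8 (.s k61 k62 0 (.d k149 k191
  k193 6 13)))))) .n)) (.c k150 (.l (.s k62 k61 0 (.s k190 k125 8 (.s k126 k254 7 (.s k189 k252 8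
  (.d k191 k188 k127 0 7)))))) .n)))))

def t42_213 : T TT 256 :=
  (.f k255 k85 14 (.q k48 [(.s k32 k16 3 (.s k101 k239 10 (.s k154 k207 14 (.d k186 k138 k117 3
  10)))), (.s k53 k58 2 (.s k117 k186 10 (.s k181 k245 7 (.s k122 k240 10 (.d k127 k112 k191 2
  7))))), (.s k32 k16 3 (.s k101 k239 10 (.s k53 k58 2 (.s k149 k197 11 (.d k191 k127 k128 7 6)))))]
  (.c k21 (.q k149 [(.d k191 k127 k128 7 6), (.s k32 k16 3 (.s k101 k239 10 (.d k53 k58 k197 2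
  11)))] (.c k64 (.l (.s k127 k191 7 (.s k32 k16 3 (.s k101 k239 10 (.d k53 k58 k197 2 11))))) (.c
  k127 (.q k64 [(.d k128 k191 k192 6 7), (.s k32 k16 3 (.s k101 k239 10 (.d k53 k58 k197 2 11)))]
  .n) .n))) (.c k64 (.l (.s k127 k191 7 (.s k32 k16 3 (.s k101 k239 10 (.s k154 k207 14 (.d k186
  k138 k117 3 10)))))) (.c k127 (.q k64 [(.s k32 k16 3 (.s k101 k239 10 (.s k154 k207 14 (.d k186
  k138 k117 3 10)))), (.s k192 k128 7 (.s k96 k144 11 (.s k80 k112 3 (.s k160 k240 11 (.d k32 k16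
  k224 3 7))))), (.s k128 k192 7 (.s k53 k58 2 (.s k186 k117 10 (.s k149 k191 6 (.s k101 k197 11 (.d
  k154 k207 k138 14 3))))))] (.c k21 (.q k149 [(.d k128 k191 k192 6 7), (.s k32 k16 3 (.s k101 k239
  10 (.d k53 k58 k197 2 11)))] .n) (.c k117 (.l (.s k32 k16 3 (.s k128 k192 7 (.s k101 k239 10 (.s
  k53 k58 2 (.d k149 k191 k197 6 11)))))) (.c k149 (.q k21 [(.s k32 k16 3 (.s k101 k239 10 (.s k154
  k207 14 (.d k186 k138 k117 3 10)))), (.s k16 k32 3 (.s k26 k31 2 (.s k37 k15 6 (.d k53 k58 k5 2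
  3)))), (.s k53 k58 2 (.s k117 k186 10 (.s k245 k181 7 (.s k250 k240 2 (.s k10 k90 11 (.d k5 k15
  k37 2 3))))))] .n) .n)))) (.c k149 (.q k21 [(.s k32 k16 3 (.s k101 k239 10 (.s k154 k207 14 (.d
  k186 k138 k117 3 10)))), (.s k16 k32 3 (.s k26 k31 2 (.s k37 k15 6 (.d k53 k58 k5 2 3)))), (.s k53
  k58 2 (.s k117 k186 10 (.s k181 k245 7 (.s k122 k240 10 (.d k127 k112 k191 2 7)))))] (.c k64 (.l
  (.s k127 k191 7 (.s k16 k32 3 (.s k26 k31 2 (.s k37 k15 6 (.d k53 k58 k5 2 3)))))) (.c k127 (.q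
  k64 [(.s k32 k16 3 (.s k101 k239 10 (.s k154 k207 14 (.d k186 k138 k117 3 10)))), (.s k16 k32 3
  (.s k26 k31 2 (.s k37 k15 6 (.d k53 k58 k5 2 3)))), (.s k53 k58 2 (.s k117 k186 10 (.s k245 k181 7
  (.s k250 k240 2 (.s k10 k90 11 (.d k5 k15 k37 2 3))))))] .n) .n))) (.c k154 (.l (.s k58 k53 2 (.s
  k186 k117 10 (.s k122 k250 7 (.s k181 k240 10 (.d k191 k176 k127 2 7)))))) .n)))))))

def t42_214 : T TT 256 :=
  (.f k255 k85 14 (.q k60 [(.s k40 k20 5 (.s k105 k235 8 (.s k190 k125 8 (.d k150 k130 k195 5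
  14)))), (.s k61 k62 0 (.s k125 k190 8 (.s k189 k253 7 (.s k126 k252 8 (.d k127 k124 k191 0 7))))),
  (.s k40 k20 5 (.s k105 k235 8 (.s k61 k62 0 (.s k149 k193 13 (.d k191 k127 k128 7 6)))))] (.c k64
  (.l (.s k127 k191 7 (.s k40 k20 5 (.s k105 k235 8 (.s k150 k195 14 (.d k190 k130 k125 5 8))))))
  (.c k127 (.q k64 [(.s k40 k20 5 (.s k105 k235 8 (.s k150 k195 14 (.d k190 k130 k125 5 8)))), (.s
  k40 k20 5 (.s k192 k128 7 (.s k104 k148 13 (.s k168 k232 7 (.d k84 k124 k252 5 13))))), (.s k128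
  k192 7 (.s k61 k62 0 (.s k190 k125 8 (.s k149 k191 6 (.s k105 k193 13 (.d k150 k195 k130 14
  5))))))] (.c k150 (.l (.s k192 k128 7 (.s k104 k148 13 (.s k84 k124 5 (.s k168 k252 13 (.d k40 k20
  k232 5 7)))))) .n)) (.c k150 (.l (.s k62 k61 0 (.s k190 k125 8 (.s k126 k254 7 (.s k189 k252 8 (.d
  k191 k188 k127 0 7)))))) .n)))))

def t42_215 : T TT 256 :=
  (.q k12 [(.s k8 k4 1 (.s k85 k255 14 (.s k89 k251 12 (.s k243 k166 14 (.d k81 k93 k162 1 12))))),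
  (.s k255 k85 14 (.s k29 k46 4 (.s k93 k174 12 (.s k157 k221 7 (.s k110 k204 12 (.d k127 k76 k191 4
  7)))))), (.s k4 k8 1 (.s k85 k255 14 (.s k166 k247 12 (.s k243 k89 14 (.d k162 k174 k81 1 12)))))]
  (.c k85 (.f k8 k4 1 (.l (.s k89 k251 12 (.s k29 k46 4 (.s k166 k243 14 (.s k149 k209 9 (.s k128
  k191 6 (.s k132 k183 4 (.d k192 k64 k72 7 9))))))))) (.c k166 (.l (.s k255 k85 14 (.s k46 k29 4
  (.s k174 k93 12 (.s k110 k238 7 (.s k157 k204 12 (.d k191 k127 k140 7 4))))))) (.c k255 (.f k8 k4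
  1 (.l (.s k89 k251 12 (.s k29 k46 4 (.s k149 k209 9 (.s k128 k191 6 (.s k192 k64 7 (.s k132 k72 9
  (.d k166 k243 k183 14 4))))))))) .n))))

def t42_216 : T TT 256 :=
  (.f k255 k85 14 (.q k60 [(.s k40 k20 5 (.s k105 k235 8 (.s k150 k195 14 (.d k190 k130 k125 5
  8)))), (.s k61 k62 0 (.s k125 k190 8 (.s k189 k253 7 (.s k126 k252 8 (.d k127 k124 k191 0 7))))),
  (.s k40 k20 5 (.s k105 k235 8 (.s k61 k62 0 (.s k149 k193 13 (.d k191 k127 k128 7 6)))))] (.c k64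
  (.l (.s k127 k191 7 (.s k40 k20 5 (.s k105 k235 8 (.s k150 k195 14 (.d k190 k130 k125 5 8))))))
  (.c k127 (.q k64 [(.s k40 k20 5 (.s k105 k235 8 (.s k150 k195 14 (.d k190 k130 k125 5 8)))), (.s
  k192 k128 7 (.s k104 k148 13 (.s k84 k124 5 (.s k168 k252 13 (.d k40 k20 k232 5 7))))), (.s k128
  k192 7 (.s k61 k62 0 (.s k190 k125 8 (.s k149 k191 6 (.s k105 k193 13 (.d k150 k195 k130 14
  5))))))] (.c k125 (.l (.s k40 k20 5 (.s k128 k192 7 (.s k105 k235 8 (.s k61 k62 0 (.d k149 k191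
  k193 6 13)))))) .n)) (.c k150 (.l (.s k62 k61 0 (.s k190 k125 8 (.s k126 k254 7 (.s k189 k252 8
  (.d k191 k188 k127 0 7)))))) .n)))))

def t42_217 : T TT 256 :=
  (.f k255 k85 14 (.q k60 [(.s k40 k20 5 (.s k105 k235 8 (.s k150 k195 14 (.d k190 k130 k125 5
  8)))), (.s k61 k62 0 (.s k125 k190 8 (.s k189 k253 7 (.s k126 k252 8 (.d k127 k124 k191 0 7))))),
  (.s k40 k20 5 (.s k105 k235 8 (.s k61 k62 0 (.s k149 k193 13 (.d k191 k127 k128 7 6)))))] (.c k64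
  (.l (.s k127 k191 7 (.s k40 k20 5 (.s k105 k235 8 (.s k150 k195 14 (.d k190 k130 k125 5 8))))))
  (.c k127 (.q k64 [(.s k40 k20 5 (.s k105 k235 8 (.s k150 k195 14 (.d k190 k130 k125 5 8)))), (.s
  k192 k128 7 (.s k104 k148 13 (.s k84 k124 5 (.s k168 k252 13 (.d k40 k20 k232 5 7))))), (.s k128
  k192 7 (.s k61 k62 0 (.s k190 k125 8 (.s k149 k191 6 (.s k105 k193 13 (.d k150 k195 k130 14
  5))))))] (.c k125 (.l (.s k40 k20 5 (.s k128 k192 7 (.s k105 k235 8 (.s k61 k62 0 (.d k149 k191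
  k193 6 13)))))) .n)) (.c k150 (.l (.s k62 k61 0 (.s k190 k125 8 (.s k126 k254 7 (.s k189 k252 8
  (.d k191 k188 k127 0 7)))))) .n)))))

def t42_218 : T TT 256 :=
  (.f k255 k85 14 (.q k12 [(.s k8 k4 1 (.s k89 k251 12 (.s k166 k243 14 (.d k174 k162 k93 1 12)))),
  (.s k29 k46 4 (.s k93 k174 12 (.s k157 k221 7 (.s k110 k204 12 (.d k127 k76 k191 4 7))))), (.s k8
  k4 1 (.s k89 k251 12 (.s k29 k46 4 (.s k149 k209 9 (.d k191 k127 k128 7 6)))))] (.c k64 (.l (.s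
  k127 k191 7 (.s k8 k4 1 (.s k89 k251 12 (.s k166 k243 14 (.d k174 k162 k93 1 12)))))) (.c k127 (.q
  k64 [(.s k8 k4 1 (.s k89 k251 12 (.s k166 k243 14 (.d k174 k162 k93 1 12)))), (.s k192 k128 7 (.s
  k72 k132 9 (.s k68 k76 1 (.s k136 k204 9 (.d k8 k4 k200 1 7))))), (.s k128 k192 7 (.s k29 k46 4
  (.s k174 k93 12 (.s k149 k191 6 (.s k89 k209 9 (.d k166 k243 k162 14 1))))))] (.c k93 (.l (.s k8
  k4 1 (.s k128 k192 7 (.s k89 k251 12 (.s k29 k46 4 (.d k149 k191 k209 6 9)))))) .n)) (.c k166 (.l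
  (.s k46 k29 4 (.s k174 k93 12 (.s k110 k238 7 (.s k157 k204 12 (.d k191 k140 k127 4 7))))))
  .n)))))

def t42_219 : T TT 256 :=
  (.f k255 k85 14 (.q k60 [(.s k40 k20 5 (.s k190 k125 8 (.s k150 k130 5 (.d k105 k235 k195 8
  14)))), (.s k61 k62 0 (.s k125 k190 8 (.s k189 k253 7 (.s k126 k252 8 (.d k127 k124 k191 0 7))))),
  (.s k40 k20 5 (.s k105 k235 8 (.s k61 k62 0 (.s k149 k193 13 (.d k191 k127 k128 7 6)))))] (.c k64
  (.l (.s k127 k191 7 (.s k40 k20 5 (.s k105 k235 8 (.s k150 k195 14 (.d k190 k130 k125 5 8))))))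
  (.c k127 (.q k64 [(.s k40 k20 5 (.s k105 k235 8 (.s k150 k195 14 (.d k190 k130 k125 5 8)))), (.s
  k192 k128 7 (.s k104 k148 13 (.s k84 k124 5 (.s k168 k252 13 (.d k40 k20 k232 5 7))))), (.s k128
  k192 7 (.s k61 k62 0 (.s k190 k125 8 (.s k149 k191 6 (.s k105 k193 13 (.d k150 k195 k130 14
  5))))))] (.c k125 (.l (.s k40 k20 5 (.s k128 k192 7 (.s k105 k235 8 (.s k61 k62 0 (.d k149 k191
  k193 6 13)))))) .n)) (.c k150 (.l (.s k62 k61 0 (.s k190 k125 8 (.s k126 k254 7 (.s k189 k252 8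
  (.d k191 k188 k127 0 7)))))) .n)))))

def t42_220 : T TT 256 :=
  (.f k255 k85 14 (.q k12 [(.s k8 k4 1 (.s k89 k251 12 (.s k166 k243 14 (.d k174 k162 k93 1 12)))),
  (.s k29 k46 4 (.s k93 k174 12 (.s k157 k221 7 (.s k110 k204 12 (.d k127 k76 k191 4 7))))), (.s k8
  k4 1 (.s k89 k251 12 (.s k29 k46 4 (.s k149 k209 9 (.d k191 k127 k128 7 6)))))] (.c k64 (.l (.s
  k127 k191 7 (.s k8 k4 1 (.s k89 k251 12 (.s k166 k243 14 (.d k174 k162 k93 1 12)))))) (.c k127 (.q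
  k64 [(.s k8 k4 1 (.s k89 k251 12 (.s k166 k243 14 (.d k174 k162 k93 1 12)))), (.s k192 k128 7 (.s
  k72 k132 9 (.s k68 k76 1 (.s k136 k204 9 (.d k8 k4 k200 1 7))))), (.s k128 k192 7 (.s k29 k46 4
  (.s k174 k93 12 (.s k149 k191 6 (.s k89 k209 9 (.d k166 k243 k162 14 1))))))] (.c k93 (.l (.s k8
  k4 1 (.s k128 k192 7 (.s k89 k251 12 (.s k29 k46 4 (.d k149 k191 k209 6 9)))))) .n)) (.c k166 (.l
  (.s k46 k29 4 (.s k174 k93 12 (.s k110 k238 7 (.s k157 k204 12 (.d k191 k140 k127 4 7))))))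
  .n)))))

def t42_221 : T TT 256 :=
  (.q k15 [(.s k10 k5 2 (.s k85 k255 14 (.s k90 k250 11 (.s k240 k165 14 (.d k80 k95 k160 2 11))))),
  (.s k255 k85 14 (.s k31 k47 3 (.s k95 k175 11 (.s k159 k223 7 (.s k111 k207 11 (.d k127 k79 k191 3
  7)))))), (.s k5 k10 2 (.s k85 k255 14 (.s k165 k245 11 (.s k240 k90 14 (.d k160 k175 k80 2
  11)))))] (.c k85 (.f k10 k5 2 (.l (.s k90 k250 11 (.s k31 k47 3 (.s k165 k240 14 (.s k149 k208 10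
  (.s k128 k191 6 (.s k133 k181 3 (.d k192 k64 k74 7 10))))))))) (.c k165 (.l (.s k255 k85 14 (.s
  k47 k31 3 (.s k175 k95 11 (.s k111 k239 7 (.s k159 k207 11 (.d k191 k127 k143 7 3))))))) (.c k255
  (.f k10 k5 2 (.l (.s k90 k250 11 (.s k31 k47 3 (.s k149 k208 10 (.s k128 k191 6 (.s k192 k64 7 (.s
  k133 k74 10 (.d k165 k240 k181 14 3))))))))) .n))))

def t42_222 : T TT 256 :=
  (.f k255 k85 14 (.q k12 [(.s k8 k4 1 (.s k89 k251 12 (.s k166 k243 14 (.d k174 k162 k93 1 12)))),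
  (.s k29 k46 4 (.s k93 k174 12 (.s k157 k221 7 (.s k110 k204 12 (.d k127 k76 k191 4 7))))), (.s k8
  k4 1 (.s k89 k251 12 (.s k29 k46 4 (.s k149 k209 9 (.d k191 k127 k128 7 6)))))] (.c k64 (.l (.s
  k127 k191 7 (.s k8 k4 1 (.s k89 k251 12 (.s k166 k243 14 (.d k174 k162 k93 1 12)))))) (.c k127 (.q
  k64 [(.s k8 k4 1 (.s k89 k251 12 (.s k166 k243 14 (.d k174 k162 k93 1 12)))), (.s k192 k128 7 (.s
  k72 k132 9 (.s k68 k76 1 (.s k136 k204 9 (.d k8 k4 k200 1 7))))), (.s k128 k192 7 (.s k29 k46 4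
  (.s k174 k93 12 (.s k149 k191 6 (.s k89 k209 9 (.d k166 k243 k162 14 1))))))] (.c k93 (.l (.s k8
  k4 1 (.s k128 k192 7 (.s k89 k251 12 (.s k29 k46 4 (.d k149 k191 k209 6 9)))))) .n)) (.c k166 (.l
  (.s k46 k29 4 (.s k174 k93 12 (.s k110 k238 7 (.s k157 k204 12 (.d k191 k140 k127 4 7))))))
  .n)))))

def t42_223 : T TT 256 :=
  (.q k12 [(.s k8 k4 1 (.s k85 k255 14 (.s k89 k251 12 (.s k243 k166 14 (.d k81 k93 k162 1 12))))),
  (.s k255 k85 14 (.s k29 k46 4 (.s k93 k174 12 (.s k157 k221 7 (.s k110 k204 12 (.d k127 k76 k191 4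
  7)))))), (.s k4 k8 1 (.s k85 k255 14 (.s k166 k247 12 (.s k243 k89 14 (.d k162 k174 k81 1 12)))))]
  (.c k85 (.f k8 k4 1 (.l (.s k89 k251 12 (.s k29 k46 4 (.s k166 k243 14 (.s k149 k209 9 (.s k128
  k191 6 (.s k132 k183 4 (.d k192 k64 k72 7 9))))))))) (.c k166 (.l (.s k255 k85 14 (.s k46 k29 4
  (.s k174 k93 12 (.s k110 k238 7 (.s k157 k204 12 (.d k191 k127 k140 7 4))))))) (.c k255 (.f k8 k4
  1 (.l (.s k89 k251 12 (.s k29 k46 4 (.s k149 k209 9 (.s k128 k191 6 (.s k192 k64 7 (.s k132 k72 9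
  (.d k166 k243 k183 14 4))))))))) .n))))

def t42_224 : T TT 256 :=
  (.f k255 k85 14 (.q k165 [(.s k160 k175 2 (.s k240 k80 11 (.s k90 k15 14 (.d k250 k245 k10 2
  11)))), (.s k127 k191 7 (.s k175 k160 2 (.s k95 k15 11 (.s k111 k79 3 (.s k239 k47 7 (.d k207 k223
  k159 3 11))))))] (.c k15 (.l (.s k160 k175 2 (.s k240 k80 11 (.s k181 k122 10 (.s k149 k133 3 (.d
  k191 k128 k127 6 7)))))) (.c k64 (.l (.s k127 k191 7 (.s k160 k175 2 (.s k240 k80 11 (.s k90 k15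
  14 (.d k250 k245 k10 2 11)))))) (.c k95 (.l (.s k160 k175 2 (.s k240 k80 11 (.s k90 k15 14 (.d
  k250 k245 k10 2 11))))) (.c k127 (.q k64 [(.s k160 k175 2 (.s k240 k80 11 (.s k90 k15 14 (.d k250
  k245 k10 2 11)))), (.s k128 k192 7 (.s k149 k191 6 (.s k181 k133 3 (.s k160 k175 2 (.d k240 k122
  k80 10 11))))), (.s k128 k192 7 (.s k149 k191 6 (.s k181 k133 3 (.s k240 k122 10 (.s k250 k245 2
  (.d k90 k15 k10 14 11))))))] (.c k15 (.l (.s k128 k192 7 (.s k149 k191 6 (.s k160 k175 2 (.s k240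
  k80 11 (.d k181 k133 k122 3 10)))))) (.c k240 (.l (.s k192 k128 7 (.s k175 k160 2 (.s k15 k95 11
  (.s k10 k5 2 (.s k74 k133 10 (.s k138 k202 7 (.d k69 k79 k207 2 10)))))))) .n))) (.c k160 (.f k127
  k191 7 (.q k12 [(.s k8 k4 1 (.s k89 k251 12 (.s k166 k243 14 (.d k174 k162 k93 1 12)))), (.s k93
  k174 12 (.s k110 k76 4 (.s k157 k204 12 (.d k29 k46 k221 4 7)))), (.s k8 k4 1 (.s k89 k251 12 (.s
  k13 k241 13 (.s k15 k14 0 (.s k10 k5 2 (.d k90 k250 k240 11 14))))))] (.c k32 (.q k96 [(.s k8 k4 1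
  (.s k89 k251 12 (.s k166 k243 14 (.d k174 k162 k93 1 12)))), (.s k93 k174 12 (.s k110 k76 4 (.s
  k157 k204 12 (.d k29 k46 k221 4 7)))), (.s k8 k4 1 (.s k89 k251 12 (.s k13 k241 13 (.s k15 k14 0
  (.s k10 k5 2 (.d k90 k250 k240 11 14))))))] (.c k37 (.q k47 [(.s k15 k31 3 (.s k10 k5 2 (.d k90
  k250 k240 11 14))), (.s k8 k4 1 (.s k89 k251 12 (.s k166 k243 14 (.d k174 k162 k93 1 12))))] .n)
  (.c k47 (.q k37 [(.s k8 k4 1 (.s k89 k251 12 (.s k166 k243 14 (.d k174 k162 k93 1 12)))), (.s k93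
  k174 12 (.s k110 k76 4 (.s k157 k204 12 (.d k29 k46 k221 4 7)))), (.s k8 k4 1 (.s k89 k251 12 (.s
  k13 k241 13 (.s k15 k14 0 (.s k10 k5 2 (.d k90 k250 k240 11 14))))))] .n) .n))) (.c k96 (.q k32
  [(.s k8 k4 1 (.s k89 k251 12 (.s k166 k243 14 (.d k174 k162 k93 1 12)))), (.s k48 k16 3 (.s k101
  k239 10 (.s k154 k207 14 (.d k186 k138 k117 3 10))))] (.c k101 (.q k111 [(.s k8 k4 1 (.s k89 k251
  12 (.s k166 k243 14 (.d k174 k162 k93 1 12)))), (.s k159 k207 11 (.s k95 k79 3 (.s k15 k175 11 (.d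
  k31 k47 k223 3 7))))] (.c k69 (.q k117 [(.d k48 k16 k186 3 10), (.s k8 k4 1 (.s k89 k251 12 (.s
  k166 k243 14 (.d k174 k162 k93 1 12))))] .n) (.c k117 (.q k69 [(.d k207 k138 k159 10 11), (.s k8
  k4 1 (.s k89 k251 12 (.s k166 k243 14 (.d k174 k162 k93 1 12))))] .n) .n))) (.c k111 (.l (.s k101
  k239 10 (.s k48 k16 3 (.s k154 k207 14 (.d k186 k138 k117 3 10))))) .n))) .n)))) (.c k175 (.q k12
  [(.s k8 k4 1 (.s k89 k251 12 (.s k166 k243 14 (.d k174 k162 k93 1 12)))), (.s k29 k46 4 (.s k93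
  k174 12 (.s k157 k221 7 (.s k110 k204 12 (.d k127 k76 k191 4 7))))), (.s k8 k4 1 (.s k89 k251 12
  (.s k29 k46 4 (.s k149 k209 9 (.d k191 k127 k128 7 6)))))] (.c k64 (.l (.s k127 k191 7 (.s k8 k4 1
  (.s k89 k251 12 (.s k166 k243 14 (.d k174 k162 k93 1 12)))))) (.c k127 (.q k64 [(.s k8 k4 1 (.s
  k89 k251 12 (.s k166 k243 14 (.d k174 k162 k93 1 12)))), (.s k192 k128 7 (.s k72 k132 9 (.s k68
  k76 1 (.s k136 k204 9 (.d k8 k4 k200 1 7))))), (.s k128 k192 7 (.s k29 k46 4 (.s k174 k93 12 (.s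
  k149 k191 6 (.s k89 k209 9 (.d k166 k243 k162 14 1))))))] (.c k93 (.l (.s k8 k4 1 (.s k128 k192 7
  (.s k89 k251 12 (.s k29 k46 4 (.d k149 k191 k209 6 9)))))) .n)) (.c k166 (.l (.s k46 k29 4 (.s
  k174 k93 12 (.s k110 k238 7 (.s k157 k204 12 (.d k191 k140 k127 4 7)))))) .n)))) .n))))))))

def t42_225 : T TT 256 :=
  (.f k255 k85 14 (.q k12 [(.s k8 k4 1 (.s k89 k251 12 (.s k166 k243 14 (.d k174 k162 k93 1 12)))),
  (.s k29 k46 4 (.s k93 k174 12 (.s k157 k221 7 (.s k110 k204 12 (.d k127 k76 k191 4 7))))), (.s k8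
  k4 1 (.s k89 k251 12 (.s k29 k46 4 (.s k149 k209 9 (.d k191 k127 k128 7 6)))))] (.c k64 (.l (.s
  k127 k191 7 (.s k8 k4 1 (.s k89 k251 12 (.s k166 k243 14 (.d k174 k162 k93 1 12)))))) (.c k127 (.q
  k64 [(.s k8 k4 1 (.s k89 k251 12 (.s k166 k243 14 (.d k174 k162 k93 1 12)))), (.s k192 k128 7 (.s
  k72 k132 9 (.s k68 k76 1 (.s k136 k204 9 (.d k8 k4 k200 1 7))))), (.s k128 k192 7 (.s k29 k46 4
  (.s k174 k93 12 (.s k149 k191 6 (.s k89 k209 9 (.d k166 k243 k162 14 1))))))] (.c k93 (.l (.s k8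
  k4 1 (.s k128 k192 7 (.s k89 k251 12 (.s k29 k46 4 (.d k149 k191 k209 6 9)))))) .n)) (.c k166 (.l
  (.s k46 k29 4 (.s k174 k93 12 (.s k110 k238 7 (.s k157 k204 12 (.d k191 k140 k127 4 7))))))
  .n)))))

def t42_226 : T TT 256 :=
  (.q k12 [(.s k8 k4 1 (.s k85 k255 14 (.s k89 k251 12 (.s k81 k93 1 (.d k243 k166 k162 14 12))))),
  (.s k255 k85 14 (.s k93 k174 12 (.s k127 k191 7 (.s k110 k76 4 (.s k157 k204 12 (.d k29 k46 k221 4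
  7))))))] (.c k46 (.q k166 [(.s k8 k4 1 (.d k89 k251 k243 12 14)), (.s k255 k85 14 (.d k174 k162
  k93 1 12))] (.c k34 (.q k38 [(.s k8 k4 1 (.d k89 k251 k243 12 14)), (.s k255 k85 14 (.d k174 k162
  k93 1 12))] (.c k98 (.l (.s k162 k174 1 (.d k243 k81 k89 12 14))) (.c k162 (.q k98 [(.s k8 k4 1
  (.d k89 k251 k243 12 14)), (.s k4 k8 1 (.d k85 k247 k255 12 14))] (.c k4 (.l (.s k85 k255 14 (.s
  k51 k25 6 (.s k102 k230 7 (.s k204 k153 14 (.d k68 k119 k136 4 9)))))) (.c k8 (.l (.s k85 k255 14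
  (.s k4 k247 12 (.s k55 k21 4 (.d k51 k59 k25 1 6))))) .n))) .n))) (.c k38 (.q k34 [(.s k4 k8 1 (.d
  k85 k247 k255 12 14)), (.s k255 k85 14 (.d k174 k162 k93 1 12)), (.s k8 k4 1 (.d k89 k251 k243 12
  14))] .n) .n))) (.c k85 (.f k8 k4 1 (.f k46 k29 4 (.l (.s k89 k251 12 (.s k166 k243 14 (.s k174
  k162 1 (.s k255 k93 12 (.s k110 k238 7 (.s k157 k204 12 (.d k191 k140 k127 4 7)))))))))) (.c k93
  (.l (.s k4 k8 1 (.s k85 k255 14 (.s k166 k247 12 (.s k243 k89 14 (.d k162 k174 k81 1 12)))))) (.c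
  k166 (.l (.s k46 k29 4 (.s k255 k85 14 (.s k174 k93 12 (.s k110 k238 7 (.s k157 k204 12 (.d k191
  k127 k140 7 4))))))) (.c k255 (.q k166 [(.s k8 k4 1 (.d k89 k251 k243 12 14)), (.s k46 k29 4 (.s
  k174 k162 1 (.s k110 k238 7 (.s k204 k157 12 (.s k136 k68 9 (.s k140 k76 7 (.d k153 k187 k179 4
  6)))))))] .n) .n))))))

def t42_227 : T TT 256 :=
  (.f k255 k85 14 (.q k48 [(.s k186 k117 10 (.s k32 k16 3 (.s k154 k138 3 (.d k101 k239 k207 10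
  14)))), (.s k53 k58 2 (.s k117 k186 10 (.s k181 k245 7 (.s k122 k240 10 (.d k127 k112 k191 2
  7))))), (.s k32 k16 3 (.s k101 k239 10 (.s k53 k58 2 (.s k149 k197 11 (.d k191 k127 k128 7 6)))))]
  (.c k64 (.l (.s k127 k191 7 (.s k32 k16 3 (.s k101 k239 10 (.s k154 k207 14 (.d k186 k138 k117 3
  10)))))) (.c k127 (.q k64 [(.s k32 k16 3 (.s k101 k239 10 (.s k154 k207 14 (.d k186 k138 k117 3
  10)))), (.s k192 k128 7 (.s k96 k144 11 (.s k80 k112 3 (.s k160 k240 11 (.d k32 k16 k224 3 7))))),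
  (.s k128 k192 7 (.s k53 k58 2 (.s k186 k117 10 (.s k149 k191 6 (.s k101 k197 11 (.d k154 k207 k138
  14 3))))))] (.c k117 (.l (.s k32 k16 3 (.s k128 k192 7 (.s k101 k239 10 (.s k53 k58 2 (.d k149
  k191 k197 6 11)))))) .n)) (.c k154 (.l (.s k58 k53 2 (.s k186 k117 10 (.s k122 k250 7 (.s k181
  k240 10 (.d k191 k176 k127 2 7)))))) .n)))))

def t42_228 : T TT 256 :=
  (.f k255 k85 14 (.q k48 [(.s k32 k16 3 (.s k101 k239 10 (.s k154 k207 14 (.d k186 k138 k117 3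
  10)))), (.s k53 k58 2 (.s k117 k186 10 (.s k181 k245 7 (.s k122 k240 10 (.d k127 k112 k191 2
  7))))), (.s k32 k16 3 (.s k101 k239 10 (.s k53 k58 2 (.s k149 k197 11 (.d k191 k127 k128 7 6)))))]
  (.c k64 (.l (.s k127 k191 7 (.s k32 k16 3 (.s k101 k239 10 (.s k154 k207 14 (.d k186 k138 k117 3
  10)))))) (.c k127 (.q k64 [(.s k32 k16 3 (.s k101 k239 10 (.s k154 k207 14 (.d k186 k138 k117 3
  10)))), (.s k192 k128 7 (.s k96 k144 11 (.s k80 k112 3 (.s k160 k240 11 (.d k32 k16 k224 3 7))))),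
  (.s k128 k192 7 (.s k53 k58 2 (.s k186 k117 10 (.s k149 k191 6 (.s k101 k197 11 (.d k154 k207 k138
  14 3))))))] (.c k117 (.l (.s k32 k16 3 (.s k128 k192 7 (.s k101 k239 10 (.s k53 k58 2 (.d k149
  k191 k197 6 11)))))) .n)) (.c k154 (.l (.s k58 k53 2 (.s k186 k117 10 (.s k122 k250 7 (.s k181
  k240 10 (.d k191 k176 k127 2 7)))))) .n)))))

def t42_229 : T TT 256 :=
  (.f k255 k85 14 (.q k48 [(.s k186 k117 10 (.s k32 k16 3 (.s k154 k138 3 (.d k101 k239 k207 10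
  14)))), (.s k53 k58 2 (.s k117 k186 10 (.s k181 k245 7 (.s k122 k240 10 (.d k127 k112 k191 2
  7))))), (.s k32 k16 3 (.s k101 k239 10 (.s k53 k58 2 (.s k149 k197 11 (.d k191 k127 k128 7 6)))))]
  (.c k64 (.l (.s k127 k191 7 (.s k32 k16 3 (.s k101 k239 10 (.s k154 k207 14 (.d k186 k138 k117 3
  10)))))) (.c k127 (.q k64 [(.s k186 k117 10 (.s k32 k16 3 (.s k154 k138 3 (.d k101 k239 k207 10
  14)))), (.s k32 k16 3 (.s k192 k128 7 (.s k96 k144 11 (.s k160 k224 7 (.d k80 k112 k240 3 11))))),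
  (.s k128 k192 7 (.s k53 k58 2 (.s k186 k117 10 (.s k149 k191 6 (.s k101 k197 11 (.d k154 k207 k138
  14 3))))))] (.c k112 (.l (.s k32 k16 3 (.s k101 k239 10 (.s k154 k207 14 (.d k186 k138 k117 3
  10))))) (.c k154 (.l (.s k192 k128 7 (.s k96 k144 11 (.s k80 k112 3 (.s k160 k240 11 (.d k32 k16
  k224 3 7)))))) .n))) (.c k154 (.l (.s k58 k53 2 (.s k186 k117 10 (.s k122 k250 7 (.s k181 k240 10
  (.d k191 k176 k127 2 7)))))) .n)))))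

def t42_230 : T TT 256 :=
  (.f k255 k85 14 (.q k15 [(.s k10 k5 2 (.s k90 k250 11 (.s k165 k240 14 (.d k175 k160 k95 2 11)))),
  (.s k31 k47 3 (.s k95 k175 11 (.s k159 k223 7 (.s k111 k207 11 (.d k127 k79 k191 3 7))))), (.s k10
  k5 2 (.s k90 k250 11 (.s k31 k47 3 (.s k149 k208 10 (.d k191 k127 k128 7 6)))))] (.c k64 (.l (.s
  k127 k191 7 (.s k10 k5 2 (.s k90 k250 11 (.s k165 k240 14 (.d k175 k160 k95 2 11)))))) (.c k127
  (.q k64 [(.s k10 k5 2 (.s k90 k250 11 (.s k165 k240 14 (.d k175 k160 k95 2 11)))), (.s k192 k128 7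
  (.s k74 k133 10 (.s k69 k79 2 (.s k138 k207 10 (.d k10 k5 k202 2 7))))), (.s k128 k192 7 (.s k31
  k47 3 (.s k175 k95 11 (.s k149 k191 6 (.s k90 k208 10 (.d k165 k240 k160 14 2))))))] (.c k95 (.l
  (.s k10 k5 2 (.s k128 k192 7 (.s k90 k250 11 (.s k31 k47 3 (.d k149 k191 k208 6 10)))))) .n)) (.c
  k165 (.l (.s k47 k31 3 (.s k175 k95 11 (.s k111 k239 7 (.s k159 k207 11 (.d k191 k143 k127 3
  7)))))) .n)))))

def t42_231 : T TT 256 :=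
  (.f k255 k85 14 (.q k48 [(.s k186 k117 10 (.s k32 k16 3 (.s k154 k138 3 (.d k101 k239 k207 10
  14)))), (.s k53 k58 2 (.s k117 k186 10 (.s k181 k245 7 (.s k122 k240 10 (.d k127 k112 k191 2
  7))))), (.s k32 k16 3 (.s k101 k239 10 (.s k53 k58 2 (.s k149 k197 11 (.d k191 k127 k128 7 6)))))]
  (.c k64 (.l (.s k127 k191 7 (.s k32 k16 3 (.s k101 k239 10 (.s k154 k207 14 (.d k186 k138 k117 3
  10)))))) (.c k127 (.q k64 [(.s k186 k117 10 (.s k32 k16 3 (.s k154 k138 3 (.d k101 k239 k207 10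
  14)))), (.s k32 k16 3 (.s k192 k128 7 (.s k96 k144 11 (.s k160 k224 7 (.d k80 k112 k240 3 11))))),
  (.s k128 k192 7 (.s k53 k58 2 (.s k186 k117 10 (.s k149 k191 6 (.s k101 k197 11 (.d k154 k207 k138
  14 3))))))] (.c k112 (.l (.s k32 k16 3 (.s k101 k239 10 (.s k154 k207 14 (.d k186 k138 k117 3
  10))))) (.c k154 (.l (.s k192 k128 7 (.s k96 k144 11 (.s k80 k112 3 (.s k160 k240 11 (.d k32 k16
  k224 3 7)))))) .n))) (.c k154 (.l (.s k58 k53 2 (.s k186 k117 10 (.s k122 k250 7 (.s k181 k240 10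
  (.d k191 k176 k127 2 7)))))) .n)))))

def t42_232 : T TT 256 :=
  (.q k3 [(.s k2 k1 0 (.s k85 k255 14 (.s k86 k254 13 (.s k84 k87 0 (.d k252 k169 k168 14 13))))),
  (.s k255 k85 14 (.s k87 k171 13 (.s k127 k191 7 (.s k107 k67 5 (.s k151 k195 13 (.d k23 k43 k215 5
  7))))))] (.c k43 (.q k169 [(.s k2 k1 0 (.d k86 k254 k252 13 14)), (.s k255 k85 14 (.d k171 k168
  k87 0 13))] (.c k40 (.q k41 [(.s k2 k1 0 (.d k86 k254 k252 13 14)), (.s k255 k85 14 (.d k171 k168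
  k87 0 13))] (.c k104 (.l (.s k168 k171 0 (.d k252 k84 k86 13 14))) (.c k168 (.q k104 [(.s k2 k1 0
  (.d k86 k254 k252 13 14)), (.s k1 k2 0 (.d k85 k253 k255 13 14))] (.c k1 (.l (.s k85 k255 14 (.s
  k60 k22 6 (.s k105 k233 7 (.s k195 k150 14 (.d k65 k125 k130 5 8)))))) (.c k2 (.l (.s k85 k255 14
  (.s k1 k253 13 (.s k61 k21 5 (.d k60 k62 k22 0 6))))) .n))) .n))) (.c k41 (.q k40 [(.s k1 k2 0 (.d
  k85 k253 k255 13 14)), (.s k255 k85 14 (.d k171 k168 k87 0 13)), (.s k2 k1 0 (.d k86 k254 k252 13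
  14))] .n) .n))) (.c k85 (.q k169 [(.s k2 k1 0 (.d k86 k254 k252 13 14)), (.s k23 k43 5 (.s k171
  k168 0 (.s k87 k255 13 (.s k151 k215 7 (.s k195 k107 13 (.d k131 k191 k67 5 7))))))] (.c k64 (.q
  k127 [(.s k2 k1 0 (.d k86 k254 k252 13 14)), (.s k255 k191 7 (.d k171 k168 k87 0 13))] .n) (.c
  k127 (.q k64 [(.s k2 k1 0 (.d k86 k254 k252 13 14)), (.s k252 k86 14 (.d k168 k84 k171 13 0)), (.s
  k2 k1 0 (.s k192 k128 7 (.s k66 k129 8 (.s k130 k194 7 (.d k65 k67 k195 0 8)))))] .n) .n))) (.c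
  k87 (.l (.s k1 k2 0 (.s k85 k255 14 (.s k169 k253 13 (.s k252 k86 14 (.d k168 k171 k84 0 13))))))
  (.c k169 (.l (.s k43 k23 5 (.s k255 k85 14 (.s k171 k87 13 (.s k107 k235 7 (.s k151 k195 13 (.d
  k191 k127 k131 7 5))))))) (.c k255 (.q k169 [(.s k2 k1 0 (.d k86 k254 k252 13 14)), (.s k43 k23 5
  (.s k171 k168 0 (.s k107 k235 7 (.s k195 k151 13 (.s k130 k65 8 (.s k131 k67 7 (.d k150 k190 k188
  5 6)))))))] .n) .n))))))

def t42_233 : T TT 256 :=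
  (.f k255 k85 14 (.f k127 k191 7 (.q k111 [(.s k159 k207 11 (.s k95 k79 3 (.s k15 k175 11 (.d k31
  k47 k223 3 7)))), (.s k207 k159 11 (.s k138 k69 10 (.s k154 k186 3 (.s k101 k48 14 (.d k239 k223
  k32 3 10)))))] (.c k143 (.l (.s k159 k207 11 (.s k95 k79 3 (.s k15 k175 11 (.d k31 k47 k223 3
  7))))) (.c k159 (.l (.s k95 k79 3 (.s k175 k15 11 (.s k239 k47 7 (.s k207 k223 3 (.s k138 k69 10
  (.s k154 k186 3 (.d k101 k32 k48 10 14)))))))) (.c k175 (.l (.s k79 k95 3 (.s k207 k159 11 (.s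
  k143 k15 7 (.s k138 k69 10 (.s k154 k186 3 (.s k101 k48 14 (.d k239 k223 k32 3 10)))))))) (.c k207
  (.q k12 [(.s k8 k4 1 (.s k89 k251 12 (.s k174 k93 12 (.d k166 k162 k243 1 14)))), (.s k4 k8 1 (.s
  k95 k79 3 (.s k15 k175 11 (.s k5 k10 2 (.s k6 k7 0 (.s k9 k3 2 (.d k13 k14 k1 0 1))))))), (.s k29
  k46 4 (.s k93 k174 12 (.s k157 k221 7 (.d k110 k76 k204 4 12))))] .n) (.c k223 (.l (.s k207 k159
  11 (.s k138 k69 10 (.s k95 k79 3 (.s k175 k15 11 (.s k239 k47 7 (.s k154 k186 3 (.d k101 k32 k48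
  10 14)))))))) .n))))))))

def t42_234 : T TT 256 :=
  (.f k255 k85 14 (.q k15 [(.s k10 k5 2 (.s k175 k95 11 (.s k165 k160 2 (.d k90 k250 k240 11 14)))),
  (.s k31 k47 3 (.s k95 k175 11 (.s k159 k223 7 (.s k111 k207 11 (.d k127 k79 k191 3 7))))), (.s k10
  k5 2 (.s k90 k250 11 (.s k31 k47 3 (.s k149 k208 10 (.d k191 k127 k128 7 6)))))] (.c k64 (.l (.s
  k127 k191 7 (.s k10 k5 2 (.s k90 k250 11 (.s k165 k240 14 (.d k175 k160 k95 2 11)))))) (.c k127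
  (.q k64 [(.s k10 k5 2 (.s k90 k250 11 (.s k165 k240 14 (.d k175 k160 k95 2 11)))), (.s k192 k128 7
  (.s k74 k133 10 (.s k69 k79 2 (.s k138 k207 10 (.d k10 k5 k202 2 7))))), (.s k128 k192 7 (.s k31
  k47 3 (.s k175 k95 11 (.s k149 k191 6 (.s k90 k208 10 (.d k165 k240 k160 14 2))))))] (.c k95 (.l
  (.s k10 k5 2 (.s k128 k192 7 (.s k90 k250 11 (.s k31 k47 3 (.d k149 k191 k208 6 10)))))) .n)) (.c
  k165 (.l (.s k47 k31 3 (.s k175 k95 11 (.s k111 k239 7 (.s k159 k207 11 (.d k191 k143 k127 3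
  7)))))) .n)))))

def t42_235 : T TT 256 :=
  (.f k255 k85 14 (.q k48 [(.s k186 k117 10 (.s k32 k16 3 (.s k154 k138 3 (.d k101 k239 k207 10
  14)))), (.s k53 k58 2 (.s k117 k186 10 (.s k181 k245 7 (.s k122 k240 10 (.d k127 k112 k191 2
  7))))), (.s k32 k16 3 (.s k101 k239 10 (.s k53 k58 2 (.s k149 k197 11 (.d k191 k127 k128 7 6)))))]
  (.c k64 (.l (.s k127 k191 7 (.s k32 k16 3 (.s k101 k239 10 (.s k154 k207 14 (.d k186 k138 k117 3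
  10)))))) (.c k127 (.q k64 [(.s k32 k16 3 (.s k101 k239 10 (.s k154 k207 14 (.d k186 k138 k117 3
  10)))), (.s k192 k128 7 (.s k96 k144 11 (.s k80 k112 3 (.s k160 k240 11 (.d k32 k16 k224 3 7))))),
  (.s k128 k192 7 (.s k53 k58 2 (.s k186 k117 10 (.s k149 k191 6 (.s k101 k197 11 (.d k154 k207 k138
  14 3))))))] (.c k117 (.l (.s k32 k16 3 (.s k128 k192 7 (.s k101 k239 10 (.s k53 k58 2 (.d k149
  k191 k197 6 11)))))) .n)) (.c k154 (.l (.s k58 k53 2 (.s k186 k117 10 (.s k122 k250 7 (.s k181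
  k240 10 (.d k191 k176 k127 2 7)))))) .n)))))

def t42_236 : T TT 256 :=
  (.f k255 k85 14 (.q k15 [(.s k10 k5 2 (.s k90 k250 11 (.s k165 k240 14 (.d k175 k160 k95 2 11)))),
  (.s k31 k47 3 (.s k95 k175 11 (.s k159 k223 7 (.s k111 k207 11 (.d k127 k79 k191 3 7))))), (.s k10
  k5 2 (.s k90 k250 11 (.s k31 k47 3 (.s k149 k208 10 (.d k191 k127 k128 7 6)))))] (.c k64 (.l (.s
  k127 k191 7 (.s k10 k5 2 (.s k90 k250 11 (.s k165 k240 14 (.d k175 k160 k95 2 11)))))) (.c k127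
  (.q k64 [(.s k10 k5 2 (.s k90 k250 11 (.s k165 k240 14 (.d k175 k160 k95 2 11)))), (.s k192 k128 7
  (.s k74 k133 10 (.s k69 k79 2 (.s k138 k207 10 (.d k10 k5 k202 2 7))))), (.s k128 k192 7 (.s k31
  k47 3 (.s k175 k95 11 (.s k149 k191 6 (.s k90 k208 10 (.d k165 k240 k160 14 2))))))] (.c k95 (.l
  (.s k10 k5 2 (.s k128 k192 7 (.s k90 k250 11 (.s k31 k47 3 (.d k149 k191 k208 6 10)))))) .n)) (.c
  k165 (.l (.s k47 k31 3 (.s k175 k95 11 (.s k111 k239 7 (.s k159 k207 11 (.d k191 k143 k127 3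
  7)))))) .n)))))

def t42_237 : T TT 256 :=
  (.f k255 k85 14 (.f k127 k191 7 (.q k123 [(.s k183 k243 9 (.s k119 k115 1 (.s k51 k187 9 (.d k55
  k59 k247 1 7)))), (.s k243 k183 9 (.s k162 k81 12 (.s k166 k174 1 (.s k89 k12 14 (.d k251 k247 k8
  1 12)))))] (.c k179 (.l (.s k183 k243 9 (.s k119 k115 1 (.s k51 k187 9 (.d k55 k59 k247 1 7)))))
  (.c k183 (.l (.s k119 k115 1 (.s k187 k51 9 (.s k251 k59 7 (.s k243 k247 1 (.s k162 k81 12 (.s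
  k166 k174 1 (.d k89 k8 k12 12 14)))))))) (.c k187 (.l (.s k115 k119 1 (.s k243 k183 9 (.s k179 k51
  7 (.s k162 k81 12 (.s k166 k174 1 (.s k89 k12 14 (.d k251 k247 k8 1 12)))))))) (.c k243 (.q k12
  [(.s k93 k174 12 (.s k110 k76 4 (.s k157 k204 12 (.d k29 k46 k221 4 7)))), (.s k8 k4 1 (.s k251
  k89 12 (.s k187 k59 7 (.d k119 k115 k51 1 9))))] (.c k93 (.l (.s k46 k29 4 (.s k119 k115 1 (.s k51
  k187 9 (.s k34 k17 4 (.s k238 k102 9 (.s k110 k174 7 (.d k204 k221 k157 4 12)))))))) .n)) (.c k247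
  (.l (.s k243 k183 9 (.s k162 k81 12 (.s k119 k115 1 (.s k187 k51 9 (.s k251 k59 7 (.s k166 k174 1
  (.d k89 k8 k12 12 14)))))))) .n))))))))

def t42_238 : T TT 256 :=
  (.f k255 k85 14 (.q k15 [(.s k10 k5 2 (.s k90 k250 11 (.s k165 k240 14 (.d k175 k160 k95 2 11)))),
  (.s k31 k47 3 (.s k95 k175 11 (.s k159 k223 7 (.s k111 k207 11 (.d k127 k79 k191 3 7))))), (.s k10
  k5 2 (.s k90 k250 11 (.s k31 k47 3 (.s k149 k208 10 (.d k191 k127 k128 7 6)))))] (.c k64 (.l (.s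
  k127 k191 7 (.s k10 k5 2 (.s k90 k250 11 (.s k165 k240 14 (.d k175 k160 k95 2 11)))))) (.c k127
  (.q k64 [(.s k10 k5 2 (.s k90 k250 11 (.s k165 k240 14 (.d k175 k160 k95 2 11)))), (.s k192 k128 7
  (.s k74 k133 10 (.s k69 k79 2 (.s k138 k207 10 (.d k10 k5 k202 2 7))))), (.s k128 k192 7 (.s k31
  k47 3 (.s k175 k95 11 (.s k149 k191 6 (.s k90 k208 10 (.d k165 k240 k160 14 2))))))] (.c k95 (.l
  (.s k10 k5 2 (.s k128 k192 7 (.s k90 k250 11 (.s k31 k47 3 (.d k149 k191 k208 6 10)))))) .n)) (.c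
  k165 (.l (.s k47 k31 3 (.s k175 k95 11 (.s k111 k239 7 (.s k159 k207 11 (.d k191 k143 k127 3
  7)))))) .n)))))

def t42_239 : T TT 256 :=
  (.f k255 k85 14 (.q k12 [(.s k8 k4 1 (.s k89 k251 12 (.s k166 k243 14 (.d k174 k162 k93 1 12)))),
  (.s k29 k46 4 (.s k93 k174 12 (.s k157 k221 7 (.s k110 k204 12 (.d k127 k76 k191 4 7))))), (.s k8
  k4 1 (.s k89 k251 12 (.s k29 k46 4 (.s k149 k209 9 (.d k191 k127 k128 7 6)))))] (.c k64 (.l (.s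
  k127 k191 7 (.s k8 k4 1 (.s k89 k251 12 (.s k166 k243 14 (.d k174 k162 k93 1 12)))))) (.c k127 (.q
  k64 [(.s k8 k4 1 (.s k89 k251 12 (.s k166 k243 14 (.d k174 k162 k93 1 12)))), (.s k192 k128 7 (.s
  k72 k132 9 (.s k68 k76 1 (.s k136 k204 9 (.d k8 k4 k200 1 7))))), (.s k128 k192 7 (.s k29 k46 4
  (.s k174 k93 12 (.s k149 k191 6 (.s k89 k209 9 (.d k166 k243 k162 14 1))))))] (.c k93 (.l (.s k8
  k4 1 (.s k128 k192 7 (.s k89 k251 12 (.s k29 k46 4 (.d k149 k191 k209 6 9)))))) .n)) (.c k166 (.l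
  (.s k46 k29 4 (.s k174 k93 12 (.s k110 k238 7 (.s k157 k204 12 (.d k191 k140 k127 4 7))))))
  .n)))))

def t42_240 : T TT 256 :=
  (.f k255 k85 14 (.q k60 [(.s k40 k20 5 (.s k105 k235 8 (.s k190 k125 8 (.d k150 k130 k195 5
  14)))), (.s k61 k62 0 (.s k125 k190 8 (.s k189 k253 7 (.s k126 k252 8 (.d k127 k124 k191 0 7))))),
  (.s k40 k20 5 (.s k105 k235 8 (.s k61 k62 0 (.s k149 k193 13 (.d k191 k127 k128 7 6)))))] (.c k64
  (.l (.s k127 k191 7 (.s k40 k20 5 (.s k105 k235 8 (.s k150 k195 14 (.d k190 k130 k125 5 8))))))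
  (.c k127 (.q k64 [(.s k40 k20 5 (.s k105 k235 8 (.s k150 k195 14 (.d k190 k130 k125 5 8)))), (.s
  k192 k128 7 (.s k104 k148 13 (.s k84 k124 5 (.s k168 k252 13 (.d k40 k20 k232 5 7))))), (.s k128
  k192 7 (.s k61 k62 0 (.s k190 k125 8 (.s k149 k191 6 (.s k105 k193 13 (.d k150 k195 k130 14
  5))))))] (.c k125 (.l (.s k40 k20 5 (.s k128 k192 7 (.s k105 k235 8 (.s k61 k62 0 (.d k149 k191
  k193 6 13)))))) .n)) (.c k150 (.l (.s k62 k61 0 (.s k190 k125 8 (.s k126 k254 7 (.s k189 k252 8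
  (.d k191 k188 k127 0 7)))))) .n)))))

def t42_241 : T TT 256 :=
  (.f k255 k85 14 (.f k127 k191 7 (.q k111 [(.s k159 k207 11 (.s k95 k79 3 (.s k15 k175 11 (.d k31
  k47 k223 3 7)))), (.s k207 k159 11 (.s k138 k69 10 (.s k154 k186 3 (.s k101 k48 14 (.d k239 k223
  k32 3 10)))))] (.c k143 (.l (.s k159 k207 11 (.s k95 k79 3 (.s k15 k175 11 (.d k31 k47 k223 3
  7))))) (.c k159 (.l (.s k95 k79 3 (.s k175 k15 11 (.s k239 k47 7 (.s k207 k223 3 (.s k138 k69 10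
  (.s k154 k186 3 (.d k101 k32 k48 10 14)))))))) (.c k175 (.l (.s k79 k95 3 (.s k207 k159 11 (.s
  k143 k15 7 (.s k138 k69 10 (.s k154 k186 3 (.s k101 k48 14 (.d k239 k223 k32 3 10)))))))) (.c k207
  (.q k12 [(.s k8 k4 1 (.s k89 k251 12 (.s k174 k93 12 (.d k166 k162 k243 1 14)))), (.s k4 k8 1 (.s
  k95 k79 3 (.s k15 k175 11 (.s k5 k10 2 (.s k6 k7 0 (.s k9 k3 2 (.d k13 k14 k1 0 1))))))), (.s k29
  k46 4 (.s k93 k174 12 (.s k157 k221 7 (.d k110 k76 k204 4 12))))] .n) (.c k223 (.l (.s k207 k159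
  11 (.s k138 k69 10 (.s k95 k79 3 (.s k175 k15 11 (.s k239 k47 7 (.s k154 k186 3 (.d k101 k32 k48
  10 14)))))))) .n))))))))

def t42_242 : T TT 256 :=
  (.f k255 k85 14 (.q k12 [(.s k8 k4 1 (.s k89 k251 12 (.s k174 k93 12 (.d k166 k162 k243 1 14)))),
  (.s k29 k46 4 (.s k93 k174 12 (.s k157 k221 7 (.s k110 k204 12 (.d k127 k76 k191 4 7))))), (.s k8
  k4 1 (.s k89 k251 12 (.s k29 k46 4 (.s k149 k209 9 (.d k191 k127 k128 7 6)))))] (.c k64 (.l (.s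
  k127 k191 7 (.s k8 k4 1 (.s k89 k251 12 (.s k166 k243 14 (.d k174 k162 k93 1 12)))))) (.c k127 (.q
  k64 [(.s k8 k4 1 (.s k89 k251 12 (.s k166 k243 14 (.d k174 k162 k93 1 12)))), (.s k192 k128 7 (.s
  k72 k132 9 (.s k68 k76 1 (.s k136 k204 9 (.d k8 k4 k200 1 7))))), (.s k128 k192 7 (.s k29 k46 4
  (.s k174 k93 12 (.s k149 k191 6 (.s k89 k209 9 (.d k166 k243 k162 14 1))))))] (.c k93 (.l (.s k8
  k4 1 (.s k128 k192 7 (.s k89 k251 12 (.s k29 k46 4 (.d k149 k191 k209 6 9)))))) .n)) (.c k166 (.l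
  (.s k46 k29 4 (.s k174 k93 12 (.s k110 k238 7 (.s k157 k204 12 (.d k191 k140 k127 4 7))))))
  .n)))))

def t42_243 : T TT 256 :=
  (.f k255 k85 14 (.q k48 [(.s k32 k16 3 (.s k101 k239 10 (.s k186 k117 10 (.d k154 k138 k207 3
  14)))), (.s k53 k58 2 (.s k117 k186 10 (.s k181 k245 7 (.s k122 k240 10 (.d k127 k112 k191 2
  7))))), (.s k32 k16 3 (.s k101 k239 10 (.s k53 k58 2 (.s k149 k197 11 (.d k191 k127 k128 7 6)))))]
  (.c k64 (.l (.s k127 k191 7 (.s k32 k16 3 (.s k101 k239 10 (.s k154 k207 14 (.d k186 k138 k117 3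
  10)))))) (.c k127 (.q k64 [(.s k32 k16 3 (.s k101 k239 10 (.s k154 k207 14 (.d k186 k138 k117 3
  10)))), (.s k192 k128 7 (.s k96 k144 11 (.s k80 k112 3 (.s k160 k240 11 (.d k32 k16 k224 3 7))))),
  (.s k128 k192 7 (.s k53 k58 2 (.s k186 k117 10 (.s k149 k191 6 (.s k101 k197 11 (.d k154 k207 k138
  14 3))))))] (.c k117 (.l (.s k32 k16 3 (.s k128 k192 7 (.s k101 k239 10 (.s k53 k58 2 (.d k149
  k191 k197 6 11)))))) .n)) (.c k154 (.l (.s k58 k53 2 (.s k186 k117 10 (.s k122 k250 7 (.s k181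
  k240 10 (.d k191 k176 k127 2 7)))))) .n)))))

def t42_244 : T TT 256 :=
  (.f k255 k85 14 (.q k60 [(.s k40 k20 5 (.s k105 k235 8 (.s k150 k195 14 (.d k190 k130 k125 5
  8)))), (.s k61 k62 0 (.s k125 k190 8 (.s k189 k253 7 (.s k126 k252 8 (.d k127 k124 k191 0 7))))),
  (.s k40 k20 5 (.s k105 k235 8 (.s k61 k62 0 (.s k149 k193 13 (.d k191 k127 k128 7 6)))))] (.c k64
  (.l (.s k127 k191 7 (.s k40 k20 5 (.s k105 k235 8 (.s k150 k195 14 (.d k190 k130 k125 5 8))))))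
  (.c k127 (.q k64 [(.s k40 k20 5 (.s k105 k235 8 (.s k150 k195 14 (.d k190 k130 k125 5 8)))), (.s
  k192 k128 7 (.s k104 k148 13 (.s k84 k124 5 (.s k168 k252 13 (.d k40 k20 k232 5 7))))), (.s k128
  k192 7 (.s k61 k62 0 (.s k190 k125 8 (.s k149 k191 6 (.s k105 k193 13 (.d k150 k195 k130 14
  5))))))] (.c k125 (.l (.s k40 k20 5 (.s k128 k192 7 (.s k105 k235 8 (.s k61 k62 0 (.d k149 k191
  k193 6 13)))))) .n)) (.c k150 (.l (.s k62 k61 0 (.s k190 k125 8 (.s k126 k254 7 (.s k189 k252 8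
  (.d k191 k188 k127 0 7)))))) .n)))))

def t42_245 : T TT 256 :=
  (.f k255 k85 14 (.f k127 k191 7 (.q k165 [(.s k175 k160 2 (.s k15 k95 11 (.s k10 k5 2 (.d k90 k250
  k240 11 14)))), (.s k175 k160 2 (.s k95 k15 11 (.s k111 k79 3 (.s k239 k47 7 (.d k207 k223 k159 3
  11)))))] (.c k15 (.q k12 [(.s k8 k4 1 (.s k89 k251 12 (.s k174 k93 12 (.d k166 k162 k243 1 14)))),
  (.s k93 k174 12 (.s k110 k76 4 (.s k157 k204 12 (.d k29 k46 k221 4 7)))), (.s k4 k8 1 (.s k160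
  k175 2 (.s k240 k80 11 (.s k164 k88 13 (.s k84 k244 11 (.d k168 k172 k252 1 13))))))] .n) (.c k95
  (.l (.s k160 k175 2 (.s k240 k80 11 (.s k90 k15 14 (.s k250 k10 11 (.s k122 k181 10 (.s k117 k112
  2 (.d k186 k58 k48 7 10)))))))) (.c k160 (.q k12 [(.s k8 k4 1 (.s k89 k251 12 (.s k166 k243 14 (.d
  k174 k162 k93 1 12)))), (.s k93 k174 12 (.s k110 k76 4 (.s k157 k204 12 (.d k29 k46 k221 4 7)))),
  (.s k8 k4 1 (.s k89 k251 12 (.s k13 k241 13 (.s k15 k14 0 (.s k10 k5 2 (.d k90 k250 k240 11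
  14))))))] .n) (.c k175 (.q k12 [(.s k8 k4 1 (.s k89 k251 12 (.s k166 k243 14 (.d k174 k162 k93 1
  12)))), (.s k93 k174 12 (.s k110 k76 4 (.s k157 k204 12 (.d k29 k46 k221 4 7)))), (.s k8 k4 1 (.s
  k89 k251 12 (.s k13 k241 13 (.s k15 k14 0 (.s k10 k5 2 (.d k90 k250 k240 11 14))))))] (.c k143 (.q
  k159 [(.s k8 k4 1 (.s k89 k251 12 (.s k166 k243 14 (.d k174 k162 k93 1 12)))), (.s k207 k111 11
  (.s k138 k69 10 (.s k154 k186 3 (.s k101 k48 14 (.d k239 k223 k32 3 10)))))] .n) (.c k159 (.q k143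
  [(.s k8 k4 1 (.s k89 k251 12 (.s k166 k243 14 (.d k174 k162 k93 1 12)))), (.s k154 k176 6 (.s k186
  k138 3 (.s k48 k117 10 (.s k32 k16 3 (.d k101 k239 k207 10 14)))))] .n) .n))) .n)))))))

def t42_246 : T TT 256 :=
  (.f k255 k85 14 (.q k48 [(.s k32 k16 3 (.s k101 k239 10 (.s k154 k207 14 (.d k186 k138 k117 3
  10)))), (.s k53 k58 2 (.s k117 k186 10 (.s k181 k245 7 (.s k122 k240 10 (.d k127 k112 k191 2
  7))))), (.s k32 k16 3 (.s k101 k239 10 (.s k53 k58 2 (.s k149 k197 11 (.d k191 k127 k128 7 6)))))]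
  (.c k64 (.l (.s k127 k191 7 (.s k32 k16 3 (.s k101 k239 10 (.s k154 k207 14 (.d k186 k138 k117 3
  10)))))) (.c k127 (.q k64 [(.s k32 k16 3 (.s k101 k239 10 (.s k154 k207 14 (.d k186 k138 k117 3
  10)))), (.s k192 k128 7 (.s k96 k144 11 (.s k80 k112 3 (.s k160 k240 11 (.d k32 k16 k224 3 7))))),
  (.s k128 k192 7 (.s k53 k58 2 (.s k186 k117 10 (.s k149 k191 6 (.s k101 k197 11 (.d k154 k207 k138
  14 3))))))] (.c k117 (.l (.s k32 k16 3 (.s k128 k192 7 (.s k101 k239 10 (.s k53 k58 2 (.d k149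
  k191 k197 6 11)))))) .n)) (.c k154 (.l (.s k58 k53 2 (.s k186 k117 10 (.s k122 k250 7 (.s k181
  k240 10 (.d k191 k176 k127 2 7)))))) .n)))))

def t42_247 : T TT 256 :=
  (.q k15 [(.s k10 k5 2 (.s k85 k255 14 (.s k90 k250 11 (.s k240 k165 14 (.d k80 k95 k160 2 11))))),
  (.s k255 k85 14 (.s k31 k47 3 (.s k95 k175 11 (.s k159 k223 7 (.s k111 k207 11 (.d k127 k79 k191 3
  7)))))), (.s k5 k10 2 (.s k85 k255 14 (.s k165 k245 11 (.s k240 k90 14 (.d k160 k175 k80 2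
  11)))))] (.c k85 (.f k10 k5 2 (.l (.s k90 k250 11 (.s k31 k47 3 (.s k165 k240 14 (.s k149 k208 10
  (.s k128 k191 6 (.s k133 k181 3 (.d k192 k64 k74 7 10))))))))) (.c k165 (.l (.s k255 k85 14 (.s
  k47 k31 3 (.s k175 k95 11 (.s k111 k239 7 (.s k159 k207 11 (.d k191 k127 k143 7 3))))))) (.c k255
  (.f k10 k5 2 (.l (.s k90 k250 11 (.s k31 k47 3 (.s k149 k208 10 (.s k128 k191 6 (.s k192 k64 7 (.s
  k133 k74 10 (.d k165 k240 k181 14 3))))))))) .n))))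

def t42_248 : T TT 256 :=
  (.f k255 k85 14 (.f k127 k191 7 (.q k252 [(.s k126 k189 8 (.s k125 k124 0 (.s k190 k60 8 (.d k254
  k253 k62 0 7)))), (.s k168 k84 13 (.s k171 k169 0 (.s k87 k3 13 (.s k107 k67 5 (.s k195 k151 13
  (.d k235 k43 k215 7 5))))))] (.c k253 (.l (.s k168 k84 13 (.s k126 k189 8 (.s k125 k124 0 (.s k190
  k60 8 (.s k254 k62 7 (.s k169 k171 0 (.d k86 k2 k3 13 14)))))))) .n))))

def t42_249 : T TT 256 :=
  (.f k255 k85 14 (.f k127 k191 7 (.q k252 [(.s k126 k189 8 (.s k125 k124 0 (.s k190 k60 8 (.d k254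
  k253 k62 0 7)))), (.s k168 k84 13 (.s k171 k169 0 (.s k87 k3 13 (.s k107 k67 5 (.s k195 k151 13
  (.d k235 k43 k215 7 5))))))] (.c k253 (.l (.s k168 k84 13 (.s k126 k189 8 (.s k125 k124 0 (.s k190
  k60 8 (.s k254 k62 7 (.s k169 k171 0 (.d k86 k2 k3 13 14)))))))) .n))))

def t42_250 : T TT 256 :=
  (.f k255 k85 14 (.q k12 [(.s k174 k93 12 (.s k8 k4 1 (.s k166 k162 1 (.d k89 k251 k243 12 14)))),
  (.s k29 k46 4 (.s k93 k174 12 (.s k157 k221 7 (.s k110 k204 12 (.d k127 k76 k191 4 7))))), (.s k8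
  k4 1 (.s k89 k251 12 (.s k29 k46 4 (.s k149 k209 9 (.d k191 k127 k128 7 6)))))] (.c k64 (.l (.s
  k127 k191 7 (.s k8 k4 1 (.s k89 k251 12 (.s k166 k243 14 (.d k174 k162 k93 1 12)))))) (.c k127 (.q
  k64 [(.s k8 k4 1 (.s k89 k251 12 (.s k166 k243 14 (.d k174 k162 k93 1 12)))), (.s k192 k128 7 (.s
  k72 k132 9 (.s k68 k76 1 (.s k136 k204 9 (.d k8 k4 k200 1 7))))), (.s k128 k192 7 (.s k29 k46 4
  (.s k174 k93 12 (.s k149 k191 6 (.s k89 k209 9 (.d k166 k243 k162 14 1))))))] (.c k93 (.l (.s k8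
  k4 1 (.s k128 k192 7 (.s k89 k251 12 (.s k29 k46 4 (.d k149 k191 k209 6 9)))))) .n)) (.c k166 (.l
  (.s k46 k29 4 (.s k174 k93 12 (.s k110 k238 7 (.s k157 k204 12 (.d k191 k140 k127 4 7))))))
  .n)))))

def t42_251 : T TT 256 :=
  (.f k255 k85 14 (.f k127 k191 7 (.q k252 [(.s k126 k189 8 (.s k125 k124 0 (.s k190 k60 8 (.d k254
  k253 k62 0 7)))), (.s k168 k84 13 (.s k171 k169 0 (.s k87 k3 13 (.s k107 k67 5 (.s k195 k151 13
  (.d k235 k43 k215 7 5))))))] (.c k253 (.l (.s k168 k84 13 (.s k126 k189 8 (.s k125 k124 0 (.s k190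
  k60 8 (.s k254 k62 7 (.s k169 k171 0 (.d k86 k2 k3 13 14)))))))) .n))))

def t42_252 : T TT 256 :=
  (.f k255 k85 14 (.q k12 [(.s k8 k4 1 (.s k89 k251 12 (.s k174 k93 12 (.d k166 k162 k243 1 14)))),
  (.s k29 k46 4 (.s k93 k174 12 (.s k157 k221 7 (.s k110 k204 12 (.d k127 k76 k191 4 7))))), (.s k8
  k4 1 (.s k89 k251 12 (.s k29 k46 4 (.s k149 k209 9 (.d k191 k127 k128 7 6)))))] (.c k64 (.l (.s
  k127 k191 7 (.s k8 k4 1 (.s k89 k251 12 (.s k166 k243 14 (.d k174 k162 k93 1 12)))))) (.c k127 (.q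
  k64 [(.s k8 k4 1 (.s k89 k251 12 (.s k166 k243 14 (.d k174 k162 k93 1 12)))), (.s k192 k128 7 (.s
  k72 k132 9 (.s k68 k76 1 (.s k136 k204 9 (.d k8 k4 k200 1 7))))), (.s k128 k192 7 (.s k29 k46 4
  (.s k174 k93 12 (.s k149 k191 6 (.s k89 k209 9 (.d k166 k243 k162 14 1))))))] (.c k93 (.l (.s k8
  k4 1 (.s k128 k192 7 (.s k89 k251 12 (.s k29 k46 4 (.d k149 k191 k209 6 9)))))) .n)) (.c k166 (.l
  (.s k46 k29 4 (.s k174 k93 12 (.s k110 k238 7 (.s k157 k204 12 (.d k191 k140 k127 4 7))))))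
  .n)))))

def t42_253 : T TT 256 :=
  (.q k15 [(.s k10 k5 2 (.s k85 k255 14 (.s k90 k250 11 (.s k240 k165 14 (.d k80 k95 k160 2 11))))),
  (.s k255 k85 14 (.s k31 k47 3 (.s k95 k175 11 (.s k159 k223 7 (.s k111 k207 11 (.d k127 k79 k191 3
  7)))))), (.s k5 k10 2 (.s k85 k255 14 (.s k165 k245 11 (.s k240 k90 14 (.d k160 k175 k80 2
  11)))))] (.c k85 (.f k10 k5 2 (.l (.s k90 k250 11 (.s k31 k47 3 (.s k165 k240 14 (.s k149 k208 10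
  (.s k128 k191 6 (.s k133 k181 3 (.d k192 k64 k74 7 10))))))))) (.c k165 (.l (.s k255 k85 14 (.s
  k47 k31 3 (.s k175 k95 11 (.s k111 k239 7 (.s k159 k207 11 (.d k191 k127 k143 7 3))))))) (.c k255
  (.f k10 k5 2 (.l (.s k90 k250 11 (.s k31 k47 3 (.s k149 k208 10 (.s k128 k191 6 (.s k192 k64 7 (.s
  k133 k74 10 (.d k165 k240 k181 14 3))))))))) .n))))

def t42_254 : T TT 256 :=
  (.f k255 k85 14 (.q k12 [(.s k8 k4 1 (.s k89 k251 12 (.s k166 k243 14 (.d k174 k162 k93 1 12)))),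
  (.s k29 k46 4 (.s k93 k174 12 (.s k157 k221 7 (.s k110 k204 12 (.d k127 k76 k191 4 7))))), (.s k8
  k4 1 (.s k89 k251 12 (.s k29 k46 4 (.s k149 k209 9 (.d k191 k127 k128 7 6)))))] (.c k64 (.l (.s
  k127 k191 7 (.s k8 k4 1 (.s k89 k251 12 (.s k166 k243 14 (.d k174 k162 k93 1 12)))))) (.c k127 (.q
  k64 [(.s k8 k4 1 (.s k89 k251 12 (.s k166 k243 14 (.d k174 k162 k93 1 12)))), (.s k192 k128 7 (.s
  k72 k132 9 (.s k68 k76 1 (.s k136 k204 9 (.d k8 k4 k200 1 7))))), (.s k128 k192 7 (.s k29 k46 4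
  (.s k174 k93 12 (.s k149 k191 6 (.s k89 k209 9 (.d k166 k243 k162 14 1))))))] (.c k93 (.l (.s k8
  k4 1 (.s k128 k192 7 (.s k89 k251 12 (.s k29 k46 4 (.d k149 k191 k209 6 9)))))) .n)) (.c k166 (.l
  (.s k46 k29 4 (.s k174 k93 12 (.s k110 k238 7 (.s k157 k204 12 (.d k191 k140 k127 4 7))))))
  .n)))))

def t42_255_1 : T TT 256 :=
  (.q k154 [(.s k254 k86 13 (.s k186 k138 3 (.s k50 k118 9 (.s k102 k206 13 (.d k34 k18 k238 3
  9))))), (.s k86 k254 13 (.s k222 k18 9 (.s k138 k186 3 (.s k207 k69 10 (.s k252 k237 4 (.s k168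
  k84 13 (.d k169 k171 k3 0 14))))))), (.s k138 k186 3 (.s k207 k69 10 (.s k206 k70 9 (.s k102 k50
  13 (.s k34 k238 9 (.s k51 k17 4 (.d k204 k205 k153 0 14)))))))] (.c k50 (.q k149 [(.s k159 k144 2
  (.s k207 k111 11 (.d k138 k186 k69 3 10))), (.s k128 k191 6 (.s k138 k186 3 (.s k143 k133 2 (.s
  k176 k165 6 (.d k144 k159 k160 2 3))))), (.s k128 k191 6 (.s k192 k64 7 (.s k144 k159 2 (.s k48
  k96 11 (.s k32 k16 3 (.d k101 k239 k207 10 14)))))), (.s k128 k191 6 (.s k192 k64 7 (.s k138 k186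
  3 (.s k207 k69 10 (.s k197 k202 2 (.d k101 k48 k53 14 11))))))] .n) (.c k118 (.l (.s k86 k254 13
  (.s k18 k222 9 (.s k50 k34 3 (.s k206 k102 13 (.d k138 k186 k70 3 9)))))) (.c k138 (.q k149 [(.s
  k128 k191 6 (.s k192 k64 7 (.s k144 k159 2 (.s k48 k96 11 (.s k32 k16 3 (.d k101 k239 k207 10
  14)))))), (.s k86 k254 13 (.s k18 k222 9 (.s k34 k50 3 (.s k51 k17 4 (.s k55 k59 1 (.d k102 k238
  k196 9 12))))))] .n) (.c k186 (.q k48 [(.s k32 k16 3 (.d k101 k239 k207 10 14)), (.s k86 k254 13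
  (.s k18 k222 9 (.s k50 k34 3 (.s k207 k101 14 (.s k138 k69 10 (.d k206 k70 k102 9 13)))))), (.s
  k16 k32 3 (.s k86 k254 13 (.s k18 k222 9 (.s k17 k19 0 (.d k34 k50 k51 3 4)))))] .n) (.c k254 (.l
  (.s k138 k186 3 (.s k207 k69 10 (.s k206 k70 9 (.s k48 k101 14 (.s k50 k102 13 (.s k34 k18 3 (.d
  k51 k49 k17 0 4)))))))) .n))))))

def t42_255_3 : T TT 256 :=
  (.q k138 [(.s k206 k70 9 (.s k86 k254 13 (.s k154 k186 3 (.s k18 k222 9 (.d k50 k34 k102 3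
  13))))), (.s k207 k69 10 (.s k206 k70 9 (.s k111 k159 11 (.s k204 k205 0 (.s k110 k157 12 (.s k158
  k62 11 (.d k109 k108 k60 0 12))))))), (.s k86 k254 13 (.s k154 k186 3 (.s k18 k222 9 (.s k50 k34 3
  (.d k206 k70 k102 9 13)))))] (.c k70 (.q k195 [(.s k65 k130 8 (.s k69 k207 10 (.s k73 k77 1 (.s k8
  k203 8 (.d k12 k4 k134 1 10))))), (.s k207 k69 10 (.s k107 k151 13 (.s k111 k159 11 (.s k103 k99 1
  (.s k155 k51 13 (.d k203 k199 k59 1 11)))))), (.s k130 k65 8 (.s k142 k134 1 (.s k150 k190 5 (.s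
  k154 k186 3 (.s k178 k166 5 (.d k146 k158 k162 1 3))))))] (.c k87 (.q k171 [(.s k65 k130 8 (.s k69
  k207 10 (.s k73 k77 1 (.s k8 k203 8 (.d k12 k4 k134 1 10))))), (.s k130 k65 8 (.s k107 k151 13 (.s
  k235 k43 7 (.s k150 k190 5 (.d k105 k40 k60 8 14))))), (.s k154 k186 3 (.s k169 k168 0 (.s k139
  k184 4 (.s k187 k155 3 (.d k136 k137 k153 0 4)))))] (.c k137 (.q k204 [(.s k65 k130 8 (.s k69 k207
  10 (.s k73 k77 1 (.s k8 k203 8 (.d k12 k4 k134 1 10))))), (.s k130 k65 8 (.s k107 k151 13 (.s k235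
  k43 7 (.s k150 k190 5 (.d k105 k40 k60 8 14))))), (.s k136 k68 9 (.s k153 k187 4 (.s k154 k186 3
  (.s k152 k155 0 (.d k168 k184 k169 3 0)))))] .n) (.c k204 (.q k137 [(.s k136 k139 0 (.s k169 k168
  0 (.d k153 k185 k187 3 4))), (.s k130 k65 8 (.s k151 k107 13 (.s k134 k142 1 (.d k131 k140 k191 2
  5))))] (.c k221 (.q k238 [(.s k136 k139 0 (.s k169 k168 0 (.d k153 k185 k187 3 4))), (.s k130 k65
  8 (.s k151 k107 13 (.s k134 k142 1 (.d k131 k140 k191 2 5))))] .n) (.c k238 (.q k221 [(.s k136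
  k139 0 (.s k169 k168 0 (.d k153 k185 k187 3 4))), (.s k130 k65 8 (.s k151 k107 13 (.s k134 k142 1
  (.d k131 k140 k191 2 5))))] .n) .n))) .n))) (.c k137 (.q k204 [(.s k65 k130 8 (.s k69 k207 10 (.s
  k73 k77 1 (.s k8 k203 8 (.d k12 k4 k134 1 10))))), (.s k136 k68 9 (.s k153 k187 4 (.s k51 k102 14
  (.s k154 k186 3 (.s k155 k152 0 (.d k207 k69 k103 10 13)))))), (.s k130 k65 8 (.s k194 k66 7 (.s
  k134 k142 1 (.s k74 k14 9 (.s k202 k10 7 (.d k198 k206 k201 1 2))))))] (.c k87 (.q k171 [(.s k65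
  k130 8 (.s k69 k207 10 (.s k73 k77 1 (.s k8 k203 8 (.d k12 k4 k134 1 10))))), (.s k130 k65 8 (.s
  k107 k151 13 (.s k235 k43 7 (.s k150 k190 5 (.d k105 k40 k60 8 14))))), (.s k136 k68 9 (.s k153
  k187 4 (.s k154 k186 3 (.s k152 k155 0 (.d k168 k184 k169 3 0)))))] .n) (.c k171 (.q k87 [(.s k65
  k130 8 (.s k69 k207 10 (.s k73 k77 1 (.s k8 k203 8 (.d k12 k4 k134 1 10))))), (.s k68 k136 9 (.s
  k86 k254 13 (.s k85 k84 0 (.s k102 k119 4 (.s k34 k238 9 (.d k51 k17 k153 4 14))))))] .n) .n)))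
  (.c k171 (.q k87 [(.s k65 k130 8 (.s k69 k207 10 (.s k73 k77 1 (.s k8 k203 8 (.d k12 k4 k134 1
  10))))), (.s k65 k130 8 (.s k86 k254 13 (.s k107 k151 13 (.s k67 k127 5 (.s k105 k124 6 (.d k85
  k125 k84 5 0)))))), (.s k207 k69 10 (.s k86 k254 13 (.s k84 k85 0 (.s k252 k168 13 (.s k154 k186 3
  (.d k222 k237 k18 4 9))))))] (.c k137 (.q k204 [(.s k65 k130 8 (.s k69 k207 10 (.s k73 k77 1 (.s
  k8 k203 8 (.d k12 k4 k134 1 10))))), (.s k68 k136 9 (.s k86 k254 13 (.s k85 k84 0 (.s k102 k119 4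
  (.s k34 k238 9 (.d k51 k17 k153 4 14))))))] .n) (.c k204 (.q k137 [(.s k130 k65 8 (.s k134 k142 1
  (.s k12 k73 10 (.s k4 k8 1 (.d k69 k199 k207 8 10))))), (.s k207 k69 10 (.s k86 k254 13 (.s k84
  k85 0 (.s k252 k168 13 (.s k154 k186 3 (.d k222 k237 k18 4 9)))))), (.s k65 k130 8 (.s k86 k254 13
  (.s k107 k151 13 (.s k67 k127 5 (.s k105 k124 6 (.d k85 k125 k84 5 0))))))] (.c k221 (.q k238 [(.s
  k86 k254 13 (.s k154 k186 3 (.s k18 k222 9 (.d k34 k50 k102 3 9)))), (.s k65 k130 8 (.s k69 k207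
  10 (.s k73 k77 1 (.s k8 k203 8 (.d k12 k4 k134 1 10)))))] (.c k223 (.l (.s k86 k254 13 (.s k34
  k102 9 (.s k18 k50 3 (.d k154 k186 k222 3 9))))) .n)) (.c k238 (.q k221 [(.s k86 k254 13 (.s k85
  k84 0 (.s k153 k17 9 (.d k136 k139 k187 0 4)))), (.s k130 k65 8 (.s k207 k69 10 (.s k134 k142 1
  (.s k73 k12 10 (.d k203 k199 k8 1 8)))))] .n) .n))) .n))) (.c k204 (.q k137 [(.s k130 k65 8 (.s
  k134 k142 1 (.s k12 k73 10 (.s k4 k8 1 (.d k69 k199 k207 8 10))))), (.s k207 k69 10 (.s k107 k151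
  13 (.s k111 k159 11 (.s k103 k99 1 (.s k155 k51 13 (.d k203 k199 k59 1 11)))))), (.s k130 k65 8
  (.s k194 k66 7 (.s k134 k142 1 (.s k131 k140 2 (.s k128 k129 0 (.d k192 k193 k64 0 7))))))] (.c
  k87 (.q k171 [(.s k136 k139 0 (.s k169 k168 0 (.d k153 k185 k187 3 4))), (.s k130 k65 8 (.s k151
  k107 13 (.s k134 k142 1 (.d k131 k140 k191 2 5))))] (.c k221 (.q k238 [(.s k136 k139 0 (.s k169
  k168 0 (.d k153 k185 k187 3 4))), (.s k130 k65 8 (.s k151 k107 13 (.s k134 k142 1 (.d k131 k140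
  k191 2 5))))] .n) (.c k238 (.q k221 [(.s k136 k139 0 (.s k169 k168 0 (.d k153 k185 k187 3 4))),
  (.s k130 k65 8 (.s k151 k107 13 (.s k134 k142 1 (.d k131 k140 k191 2 5))))] .n) .n))) (.c k171 (.q
  k87 [(.s k130 k65 8 (.s k134 k142 1 (.s k12 k73 10 (.s k4 k8 1 (.d k69 k199 k207 8 10))))), (.s
  k207 k69 10 (.s k86 k254 13 (.s k84 k85 0 (.s k252 k168 13 (.s k154 k186 3 (.d k222 k237 k18 4
  9)))))), (.s k65 k130 8 (.s k86 k254 13 (.s k107 k151 13 (.s k67 k127 5 (.s k105 k124 6 (.d k85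
  k125 k84 5 0))))))] (.c k221 (.q k238 [(.s k86 k254 13 (.s k154 k186 3 (.s k18 k222 9 (.d k34 k50
  k102 3 9)))), (.s k65 k130 8 (.s k69 k207 10 (.s k73 k77 1 (.s k8 k203 8 (.d k12 k4 k134 1
  10)))))] (.c k223 (.l (.s k86 k254 13 (.s k34 k102 9 (.s k18 k50 3 (.d k154 k186 k222 3 9)))))
  .n)) (.c k238 (.q k221 [(.s k86 k254 13 (.s k85 k84 0 (.s k153 k17 9 (.d k136 k139 k187 0 4)))),
  (.s k130 k65 8 (.s k207 k69 10 (.s k134 k142 1 (.s k73 k12 10 (.d k203 k199 k8 1 8)))))] .n) .n)))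
  (.c k221 (.q k238 [(.s k86 k254 13 (.s k154 k186 3 (.s k18 k222 9 (.d k34 k50 k102 3 9)))), (.s
  k65 k130 8 (.s k69 k207 10 (.s k73 k77 1 (.s k8 k203 8 (.d k12 k4 k134 1 10)))))] (.c k87 (.q k171
  [(.s k136 k139 0 (.s k169 k168 0 (.d k153 k185 k187 3 4))), (.s k130 k65 8 (.s k151 k107 13 (.s
  k134 k142 1 (.d k131 k140 k191 2 5))))] .n) (.c k171 (.q k87 [(.s k86 k254 13 (.s k154 k186 3 (.s
  k18 k222 9 (.d k34 k50 k102 3 9)))), (.s k65 k130 8 (.s k69 k207 10 (.s k73 k77 1 (.s k8 k203 8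
  (.d k12 k4 k134 1 10)))))] (.c k223 (.l (.s k86 k254 13 (.s k34 k102 9 (.s k18 k50 3 (.d k154 k186
  k222 3 9))))) .n)) (.c k223 (.l (.s k86 k254 13 (.s k34 k102 9 (.s k18 k50 3 (.d k154 k186 k222 3
  9))))) .n)))) (.c k238 (.q k221 [(.s k130 k65 8 (.s k134 k142 1 (.s k12 k73 10 (.s k4 k8 1 (.d k69
  k199 k207 8 10))))), (.s k207 k69 10 (.s k107 k151 13 (.s k111 k159 11 (.s k103 k99 1 (.s k155 k51
  13 (.d k203 k199 k59 1 11)))))), (.s k130 k65 8 (.s k194 k66 7 (.s k134 k142 1 (.s k131 k140 2 (.s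
  k128 k129 0 (.d k192 k193 k64 0 7))))))] (.c k87 (.q k171 [(.s k136 k139 0 (.s k169 k168 0 (.d
  k153 k185 k187 3 4))), (.s k130 k65 8 (.s k151 k107 13 (.s k134 k142 1 (.d k131 k140 k191 2 5))))]
  .n) (.c k171 (.q k87 [(.s k86 k254 13 (.s k85 k84 0 (.s k153 k17 9 (.d k136 k139 k187 0 4)))), (.s
  k130 k65 8 (.s k207 k69 10 (.s k134 k142 1 (.s k73 k12 10 (.d k203 k199 k8 1 8)))))] .n) .n)))
  .n))))) .n))))) (.c k87 (.q k171 [(.s k154 k186 3 (.s k169 k168 0 (.s k139 k184 4 (.s k136 k137 0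
  (.d k187 k155 k153 3 4))))), (.s k86 k254 13 (.s k154 k186 3 (.s k18 k222 9 (.s k50 k34 3 (.d k206
  k70 k102 9 13))))), (.s k207 k69 10 (.s k206 k70 9 (.s k254 k86 13 (.s k222 k238 3 (.s k168 k169 0
  (.d k252 k84 k237 13 4))))))] (.c k70 (.l (.s k154 k186 3 (.s k169 k168 0 (.s k139 k184 4 (.s k187
  k155 3 (.d k136 k137 k153 0 4)))))) .n)) (.c k171 (.q k87 [(.s k206 k70 9 (.s k86 k254 13 (.s k154
  k186 3 (.s k18 k222 9 (.d k50 k34 k102 3 13))))), (.s k207 k69 10 (.s k206 k70 9 (.s k111 k159 11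
  (.s k204 k205 0 (.s k110 k157 12 (.s k158 k62 11 (.d k109 k108 k60 0 12))))))), (.s k207 k69 10
  (.s k86 k254 13 (.s k84 k85 0 (.s k252 k168 13 (.s k154 k186 3 (.d k222 k237 k18 4 9))))))] .n)
  (.c k206 (.q k195 [(.s k65 k130 8 (.s k69 k207 10 (.s k73 k77 1 (.s k8 k203 8 (.d k12 k4 k134 1
  10))))), (.s k207 k69 10 (.s k107 k151 13 (.s k111 k159 11 (.s k103 k99 1 (.s k155 k51 13 (.d k203
  k199 k59 1 11)))))), (.s k130 k65 8 (.s k142 k134 1 (.s k150 k190 5 (.s k154 k186 3 (.s k178 k166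
  5 (.d k146 k158 k162 1 3))))))] (.c k87 (.q k171 [(.s k130 k65 8 (.s k107 k151 13 (.s k235 k43 7
  (.s k150 k190 5 (.d k105 k40 k60 8 14))))), (.s k154 k186 3 (.s k169 k168 0 (.s k139 k184 4 (.s
  k136 k137 0 (.d k187 k155 k153 3 4)))))] (.c k169 (.l (.s k65 k130 8 (.s k69 k207 10 (.s k73 k77 1
  (.s k8 k203 8 (.d k12 k4 k134 1 10)))))) .n)) (.c k171 (.q k87 [(.s k65 k130 8 (.s k69 k207 10 (.s
  k73 k77 1 (.s k8 k203 8 (.d k12 k4 k134 1 10))))), (.s k65 k130 8 (.s k86 k254 13 (.s k107 k151 13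
  (.s k67 k127 5 (.s k105 k124 6 (.d k85 k125 k84 5 0)))))), (.s k207 k69 10 (.s k86 k254 13 (.s k84
  k85 0 (.s k252 k168 13 (.s k154 k186 3 (.d k222 k237 k18 4 9))))))] .n) .n))) .n)))))

def t42_255_4 : T TT 256 :=
  (.q k154 [(.s k254 k86 13 (.s k186 k138 3 (.s k50 k118 9 (.s k102 k206 13 (.d k34 k18 k238 3
  9))))), (.s k3 k1 0 (.s k138 k186 3 (.s k69 k207 10 (.s k70 k206 9 (.s k204 k137 10 (.d k68 k71
  k136 0 9)))))), (.s k3 k1 0 (.s k86 k254 13 (.s k18 k222 9 (.s k48 k33 4 (.s k32 k16 3 (.d k101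
  k239 k207 10 14))))))] (.c k206 (.l (.s k3 k1 0 (.s k86 k254 13 (.s k252 k169 14 (.s k222 k18 9
  (.s k138 k186 3 (.d k207 k237 k69 4 10))))))) .n))

def t42_255_5 : T TT 256 :=
  (.q k154 [(.s k254 k86 13 (.s k186 k138 3 (.s k50 k118 9 (.s k102 k206 13 (.d k34 k18 k238 3
  9))))), (.s k3 k1 0 (.s k138 k186 3 (.s k69 k207 10 (.s k70 k206 9 (.s k204 k137 10 (.d k68 k71
  k136 0 9)))))), (.s k3 k1 0 (.s k86 k254 13 (.s k18 k222 9 (.s k48 k33 4 (.s k32 k16 3 (.d k101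
  k239 k207 10 14))))))] (.c k206 (.l (.s k3 k1 0 (.s k86 k254 13 (.s k252 k169 14 (.s k222 k18 9
  (.s k138 k186 3 (.d k207 k237 k69 4 10))))))) .n))

def t42_255_6 : T TT 256 :=
  (.q k154 [(.s k254 k86 13 (.s k186 k138 3 (.s k50 k118 9 (.s k102 k206 13 (.d k34 k18 k238 3
  9))))), (.s k3 k1 0 (.s k138 k186 3 (.s k69 k207 10 (.s k70 k206 9 (.s k204 k137 10 (.d k68 k71
  k136 0 9)))))), (.s k3 k1 0 (.s k86 k254 13 (.s k18 k222 9 (.s k48 k33 4 (.s k32 k16 3 (.d k101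
  k239 k207 10 14))))))] (.c k206 (.l (.s k3 k1 0 (.s k86 k254 13 (.s k252 k169 14 (.s k222 k18 9
  (.s k138 k186 3 (.d k207 k237 k69 4 10))))))) .n))

def t42_255_7 : T TT 256 :=
  (.q k154 [(.s k254 k86 13 (.s k186 k138 3 (.s k50 k118 9 (.s k102 k206 13 (.d k34 k18 k238 3
  9))))), (.s k3 k1 0 (.s k138 k186 3 (.s k69 k207 10 (.s k70 k206 9 (.s k204 k137 10 (.d k68 k71
  k136 0 9)))))), (.s k3 k1 0 (.s k86 k254 13 (.s k18 k222 9 (.s k48 k33 4 (.s k32 k16 3 (.d k101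
  k239 k207 10 14))))))] (.c k206 (.l (.s k3 k1 0 (.s k86 k254 13 (.s k252 k169 14 (.s k222 k18 9
  (.s k138 k186 3 (.d k207 k237 k69 4 10))))))) .n))

def t42_255_8 : T TT 256 :=
  (.q k154 [(.s k254 k86 13 (.s k138 k186 3 (.s k206 k70 9 (.s k102 k50 13 (.d k238 k222 k34 3
  9))))), (.s k3 k1 0 (.s k86 k254 13 (.s k252 k169 14 (.s k222 k18 9 (.s k207 k237 4 (.d k138 k186
  k69 3 10)))))), (.s k3 k1 0 (.s k138 k186 3 (.s k69 k207 10 (.s k70 k206 9 (.s k204 k137 10 (.d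
  k68 k71 k136 0 9)))))), (.s k3 k1 0 (.s k86 k254 13 (.s k18 k222 9 (.s k48 k33 4 (.s k32 k16 3 (.d
  k101 k239 k207 10 14))))))] (.c k25 (.q k59 [(.s k51 k55 1 (.s k34 k17 4 (.s k18 k50 3 (.d k86
  k222 k254 9 13)))), (.s k3 k1 0 (.s k86 k254 13 (.s k252 k169 14 (.s k222 k18 9 (.s k207 k237 4
  (.d k138 k186 k69 3 10)))))), (.s k51 k55 1 (.s k34 k17 4 (.s k50 k18 3 (.d k102 k238 k206 9
  13))))] (.c k18 (.l (.s k254 k86 13 (.s k138 k186 3 (.s k206 k70 9 (.s k102 k50 13 (.d k238 k222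
  k34 3 9)))))) .n)) (.c k59 (.q k25 [(.s k254 k86 13 (.s k138 k186 3 (.s k206 k70 9 (.s k102 k50 13
  (.d k238 k222 k34 3 9))))), (.s k3 k1 0 (.s k86 k254 13 (.s k252 k169 14 (.s k222 k18 9 (.s k207
  k237 4 (.d k138 k186 k69 3 10)))))), (.s k3 k1 0 (.s k138 k186 3 (.s k69 k207 10 (.s k70 k206 9
  (.s k204 k137 10 (.d k68 k71 k136 0 9)))))), (.s k3 k1 0 (.s k86 k254 13 (.s k18 k222 9 (.s k48
  k33 4 (.s k32 k16 3 (.d k101 k239 k207 10 14))))))] (.c k153 (.q k200 [(.s k86 k254 13 (.s k138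
  k186 3 (.s k206 k70 9 (.s k18 k222 9 (.d k50 k34 k102 3 13))))), (.s k3 k1 0 (.s k138 k186 3 (.s
  k69 k207 10 (.s k70 k206 9 (.s k204 k137 10 (.d k68 k71 k136 0 9)))))), (.s k3 k1 0 (.s k86 k254
  13 (.s k252 k169 14 (.s k222 k18 9 (.s k207 k237 4 (.d k138 k186 k69 3 10)))))), (.s k3 k1 0 (.s
  k86 k254 13 (.s k18 k222 9 (.s k48 k33 4 (.s k32 k16 3 (.d k101 k239 k207 10 14))))))] .n) (.c
  k200 (.q k153 [(.s k86 k254 13 (.s k18 k222 9 (.s k34 k50 3 (.s k51 k17 4 (.d k102 k238 k204 9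
  14))))), (.s k1 k3 0 (.s k136 k187 4 (.s k138 k186 3 (.s k69 k207 10 (.d k137 k139 k205 0 9)))))]
  (.c k51 (.l (.s k1 k3 0 (.s k138 k186 3 (.s k69 k207 10 (.s k137 k205 9 (.d k136 k139 k187 0
  4)))))) (.c k72 (.l (.s k136 k187 4 (.s k1 k3 0 (.s k138 k186 3 (.s k69 k207 10 (.d k137 k139 k205
  0 9)))))) (.c k136 (.q k72 [(.s k86 k254 13 (.s k18 k222 9 (.s k34 k50 3 (.s k51 k17 4 (.d k102
  k238 k204 9 14))))), (.s k89 k217 7 (.s k24 k219 8 (.s k27 k26 0 (.s k216 k90 8 (.d k152 k155 k88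
  0 7)))))] .n) (.c k186 (.l (.s k86 k254 13 (.s k18 k222 9 (.s k19 k220 10 (.s k17 k16 0 (.d k34
  k50 k51 3 4)))))) .n))))) .n))) .n)))

def t42_255_9 : T TT 256 :=
  (.q k195 [(.s k3 k1 0 (.s k130 k65 8 (.s k131 k67 7 (.s k129 k128 0 (.d k66 k194 k192 7 8))))),
  (.s k3 k1 0 (.s k86 k254 13 (.s k43 k23 5 (.s k107 k151 13 (.s k171 k235 7 (.d k169 k252 k168 14
  0)))))), (.s k130 k65 8 (.s k194 k66 7 (.s k151 k107 13 (.s k150 k190 5 (.s k149 k148 0 (.s k128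
  k191 6 (.d k192 k64 k193 7 0)))))))] .n)

def t42_255_10 : T TT 256 :=
  (.f k86 k254 13 (.l (.s k3 k1 0 (.s k23 k43 5 (.s k149 k212 8 (.s k128 k191 6 (.s k192 k64 7 (.s
  k129 k66 8 (.d k169 k189 k252 5 14)))))))))

def t42_255_11 : T TT 256 :=
  (.f k86 k254 13 (.l (.s k3 k1 0 (.s k23 k43 5 (.s k149 k212 8 (.s k128 k191 6 (.s k192 k64 7 (.s
  k129 k66 8 (.d k169 k189 k252 5 14)))))))))

def t42_255_12 : T TT 256 :=
  (.f k86 k254 13 (.l (.s k3 k1 0 (.s k23 k43 5 (.s k149 k212 8 (.s k128 k191 6 (.s k192 k64 7 (.s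
  k129 k66 8 (.d k169 k189 k252 5 14)))))))))

def t42_255_13 : T TT 256 :=
  (.f k86 k254 13 (.l (.s k3 k1 0 (.s k23 k43 5 (.s k149 k212 8 (.s k128 k191 6 (.s k192 k64 7 (.s
  k129 k66 8 (.d k169 k189 k252 5 14)))))))))

def t42_255_14 : T TT 256 :=
  (.f k86 k254 13 (.l (.s k3 k1 0 (.s k23 k43 5 (.s k149 k212 8 (.s k128 k191 6 (.s k192 k64 7 (.s
  k129 k66 8 (.d k169 k189 k252 5 14)))))))))

def t42_255_15 : T TT 256 :=
  (.f k86 k254 13 (.l (.s k3 k1 0 (.s k23 k43 5 (.s k149 k212 8 (.s k128 k191 6 (.s k192 k64 7 (.s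
  k129 k66 8 (.d k169 k189 k252 5 14)))))))))

def t42_255_16 : T TT 256 :=
  (.f k86 k254 13 (.l (.s k3 k1 0 (.s k23 k43 5 (.s k149 k212 8 (.s k128 k191 6 (.s k192 k64 7 (.s
  k129 k66 8 (.d k169 k189 k252 5 14)))))))))

def t42_255_17 : T TT 256 :=
  (.f k86 k254 13 (.l (.s k3 k1 0 (.s k23 k43 5 (.s k149 k212 8 (.s k128 k191 6 (.s k192 k64 7 (.s
  k129 k66 8 (.d k169 k189 k252 5 14)))))))))

def t42_255_18 : T TT 256 :=
  (.f k86 k254 13 (.l (.s k3 k1 0 (.s k23 k43 5 (.s k149 k212 8 (.s k128 k191 6 (.s k192 k64 7 (.s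
  k129 k66 8 (.d k169 k189 k252 5 14)))))))))

def t42_255_19 : T TT 256 :=
  (.f k86 k254 13 (.l (.s k3 k1 0 (.s k23 k43 5 (.s k149 k212 8 (.s k128 k191 6 (.s k192 k64 7 (.s
  k129 k66 8 (.d k169 k189 k252 5 14)))))))))

def t42_255_20 : T TT 256 :=
  (.f k86 k254 13 (.l (.s k3 k1 0 (.s k23 k43 5 (.s k149 k212 8 (.s k128 k191 6 (.s k192 k64 7 (.s
  k129 k66 8 (.d k169 k189 k252 5 14)))))))))

def t42_255_21 : T TT 256 :=
  (.f k86 k254 13 (.l (.s k3 k1 0 (.s k23 k43 5 (.s k149 k212 8 (.s k128 k191 6 (.s k192 k64 7 (.s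
  k129 k66 8 (.d k169 k189 k252 5 14)))))))))

def t42_255_22 : T TT 256 :=
  (.f k86 k254 13 (.l (.s k3 k1 0 (.s k23 k43 5 (.s k149 k212 8 (.s k128 k191 6 (.s k192 k64 7 (.s
  k129 k66 8 (.d k169 k189 k252 5 14)))))))))

def t42_255_23 : T TT 256 :=
  (.q k195 [(.s k3 k1 0 (.s k130 k65 8 (.s k131 k67 7 (.s k129 k128 0 (.d k66 k194 k192 7 8))))),
  (.s k3 k1 0 (.s k86 k254 13 (.s k67 k131 7 (.s k105 k124 6 (.s k40 k235 8 (.d k60 k20 k150 5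
  14)))))), (.s k130 k65 8 (.s k194 k66 7 (.s k151 k107 13 (.s k150 k190 5 (.s k149 k148 0 (.s k128
  k191 6 (.d k192 k64 k193 7 0)))))))] (.c k67 (.l (.s k3 k1 0 (.s k130 k65 8 (.s k86 k254 13 (.s
  k252 k169 14 (.s k150 k190 5 (.d k214 k233 k22 6 7))))))) .n))

def t42_255_24 : T TT 256 :=
  (.q k195 [(.s k3 k1 0 (.s k130 k65 8 (.s k131 k67 7 (.s k129 k128 0 (.d k66 k194 k192 7 8))))),
  (.s k3 k1 0 (.s k86 k254 13 (.s k43 k23 5 (.s k107 k151 13 (.s k171 k235 7 (.d k169 k252 k168 14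
  0)))))), (.s k130 k65 8 (.s k194 k66 7 (.s k151 k107 13 (.s k150 k190 5 (.s k149 k148 0 (.s k128
  k191 6 (.d k192 k64 k193 7 0)))))))] .n)

def t42_255_25 : T TT 256 :=
  (.f k86 k254 13 (.l (.s k3 k1 0 (.s k23 k43 5 (.s k149 k212 8 (.s k128 k191 6 (.s k192 k64 7 (.s
  k129 k66 8 (.d k169 k189 k252 5 14)))))))))

def t42_255_26 : T TT 256 :=
  (.f k86 k254 13 (.l (.s k3 k1 0 (.s k23 k43 5 (.s k149 k212 8 (.s k128 k191 6 (.s k192 k64 7 (.s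
  k129 k66 8 (.d k169 k189 k252 5 14)))))))))

def t42_255_27 : T TT 256 :=
  (.f k86 k254 13 (.l (.s k3 k1 0 (.s k23 k43 5 (.s k149 k212 8 (.s k128 k191 6 (.s k192 k64 7 (.s
  k129 k66 8 (.d k169 k189 k252 5 14)))))))))

def t42_255_28 : T TT 256 :=
  (.f k86 k254 13 (.l (.s k3 k1 0 (.s k23 k43 5 (.s k149 k212 8 (.s k128 k191 6 (.s k192 k64 7 (.s
  k129 k66 8 (.d k169 k189 k252 5 14)))))))))

def t42_255_29 : T TT 256 :=
  (.f k86 k254 13 (.l (.s k3 k1 0 (.s k23 k43 5 (.s k149 k212 8 (.s k128 k191 6 (.s k192 k64 7 (.s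
  k129 k66 8 (.d k169 k189 k252 5 14)))))))))

def t42_255_30 : T TT 256 :=
  (.f k86 k254 13 (.l (.s k3 k1 0 (.s k23 k43 5 (.s k149 k212 8 (.s k128 k191 6 (.s k192 k64 7 (.s
  k129 k66 8 (.d k169 k189 k252 5 14)))))))))

def t42_255_31 : T TT 256 :=
  (.f k86 k254 13 (.l (.s k3 k1 0 (.s k23 k43 5 (.s k149 k212 8 (.s k128 k191 6 (.s k192 k64 7 (.s
  k129 k66 8 (.d k169 k189 k252 5 14)))))))))

def t42_255_32 : T TT 256 :=
  (.f k86 k254 13 (.l (.s k3 k1 0 (.s k23 k43 5 (.s k149 k212 8 (.s k128 k191 6 (.s k192 k64 7 (.s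
  k129 k66 8 (.d k169 k189 k252 5 14)))))))))

def t42_255_33 : T TT 256 :=
  (.f k86 k254 13 (.l (.s k3 k1 0 (.s k23 k43 5 (.s k149 k212 8 (.s k128 k191 6 (.s k192 k64 7 (.s
  k129 k66 8 (.d k169 k189 k252 5 14)))))))))

def t42_255_34 : T TT 256 :=
  (.f k86 k254 13 (.l (.s k3 k1 0 (.s k23 k43 5 (.s k149 k212 8 (.s k128 k191 6 (.s k192 k64 7 (.s
  k129 k66 8 (.d k169 k189 k252 5 14)))))))))

def t42_255_35 : T TT 256 :=
  (.f k86 k254 13 (.l (.s k3 k1 0 (.s k23 k43 5 (.s k149 k212 8 (.s k128 k191 6 (.s k192 k64 7 (.s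
  k129 k66 8 (.d k169 k189 k252 5 14)))))))))

def t42_255_36 : T TT 256 :=
  (.f k86 k254 13 (.l (.s k3 k1 0 (.s k23 k43 5 (.s k149 k212 8 (.s k128 k191 6 (.s k192 k64 7 (.s
  k129 k66 8 (.d k169 k189 k252 5 14)))))))))

def t42_255_37 : T TT 256 :=
  (.f k86 k254 13 (.l (.s k3 k1 0 (.s k23 k43 5 (.s k149 k212 8 (.s k128 k191 6 (.s k192 k64 7 (.s
  k129 k66 8 (.d k169 k189 k252 5 14)))))))))

def t42_255_38 : T TT 256 :=
  (.f k86 k254 13 (.l (.s k3 k1 0 (.s k23 k43 5 (.s k149 k212 8 (.s k128 k191 6 (.s k192 k64 7 (.s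
  k129 k66 8 (.d k169 k189 k252 5 14)))))))))

def t42_255_39 : T TT 256 :=
  (.f k86 k254 13 (.l (.s k3 k1 0 (.s k23 k43 5 (.s k149 k212 8 (.s k128 k191 6 (.s k192 k64 7 (.s
  k129 k66 8 (.d k169 k189 k252 5 14)))))))))

def t42_255_40 : T TT 256 :=
  (.q k195 [(.s k3 k1 0 (.s k130 k65 8 (.s k131 k67 7 (.s k129 k128 0 (.d k66 k194 k192 7 8))))),
  (.s k3 k1 0 (.s k86 k254 13 (.s k43 k23 5 (.s k107 k151 13 (.s k171 k235 7 (.d k169 k252 k168 14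
  0)))))), (.s k130 k65 8 (.s k194 k66 7 (.s k151 k107 13 (.s k150 k190 5 (.s k149 k148 0 (.s k128
  k191 6 (.d k192 k64 k193 7 0)))))))] (.c k41 (.q k43 [(.d k3 k1 k23 0 5), (.s k130 k65 8 (.s k194
  k66 7 (.s k151 k107 13 (.s k150 k190 5 (.s k148 k149 0 (.s k192 k193 0 (.d k60 k104 k105 13
  14)))))))] (.c k1 (.l (.s k130 k65 8 (.s k66 k194 7 (.s k3 k23 5 (.s k129 k192 8 (.d k131 k128 k67
  0 7)))))) .n)) (.c k43 (.q k41 [(.s k3 k1 0 (.s k130 k65 8 (.s k60 k22 6 (.d k150 k190 k105 5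
  14)))), (.s k3 k1 0 (.s k86 k254 13 (.s k22 k60 6 (.s k214 k150 7 (.d k252 k169 k233 14 6))))),
  (.s k3 k1 0 (.s k130 k65 8 (.s k131 k67 7 (.s k129 k128 0 (.d k66 k194 k192 7 8)))))] (.c k1 (.l
  (.s k130 k65 8 (.s k86 k254 13 (.s k150 k190 5 (.s k22 k214 7 (.d k60 k3 k105 6 14)))))) (.c k3
  (.l (.s k130 k65 8 (.s k194 k66 7 (.s k151 k107 13 (.s k150 k190 5 (.s k148 k149 0 (.s k192 k193 0
  (.d k60 k104 k105 13 14)))))))) (.c k169 (.q k232 [(.s k3 k1 0 (.s k130 k65 8 (.s k60 k22 6 (.d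
  k150 k190 k105 5 14)))), (.s k130 k65 8 (.s k194 k66 7 (.s k192 k193 0 (.s k252 k212 5 (.s k214
  k233 6 (.d k254 k86 k234 13 5)))))), (.s k3 k1 0 (.s k86 k254 13 (.s k60 k22 6 (.s k67 k131 7 (.d
  k105 k150 k124 14 6)))))] (.c k1 (.l (.s k130 k65 8 (.s k86 k254 13 (.s k150 k190 5 (.s k22 k214 7
  (.d k60 k3 k105 6 14)))))) (.c k253 (.l (.s k130 k65 8 (.s k150 k190 5 (.s k60 k105 14 (.d k3 k1
  k22 0 6))))) .n))) (.c k232 (.q k169 [(.s k3 k1 0 (.d k86 k254 k252 13 14)), (.s k130 k65 8 (.s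
  k105 k233 7 (.d k150 k190 k60 5 14)))] (.c k104 (.l (.s k168 k171 0 (.s k3 k1 0 (.d k86 k254 k252
  13 14)))) (.c k168 (.q k104 [(.s k3 k1 0 (.d k86 k254 k252 13 14)), (.s k130 k65 8 (.s k105 k233 7
  (.d k150 k190 k60 5 14)))] .n) .n))) .n))))) .n)))

def t42_255_41 : T TT 256 :=
  (.q k40 [(.s k3 k1 0 (.s k60 k20 5 (.s k86 k254 13 (.s k105 k235 8 (.s k67 k124 6 (.d k195 k131
  k150 7 14)))))), (.s k60 k20 5 (.s k105 k235 8 (.s k61 k62 0 (.s k193 k149 13 (.s k195 k150 14 (.s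
  k194 k192 0 (.d k130 k66 k65 7 8))))))), (.s k3 k1 0 (.s k86 k254 13 (.s k23 k43 5 (.s k212 k149 8
  (.s k252 k169 14 (.s k232 k192 5 (.d k168 k104 k84 7 13)))))))] (.c k61 (.l (.s k60 k20 5 (.s k86
  k254 13 (.s k105 k235 8 (.s k195 k150 14 (.s k67 k124 6 (.d k3 k1 k131 0 7))))))) (.c k105 (.l (.s
  k3 k1 0 (.s k20 k60 5 (.s k86 k254 13 (.s k23 k43 5 (.s k212 k149 8 (.s k84 k148 7 (.d k252 k169
  k168 14 13)))))))) .n)))

def t42_255_43 : T TT 256 :=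
  (.q k154 [(.s k254 k86 13 (.s k186 k138 3 (.s k50 k118 9 (.s k102 k206 13 (.d k34 k18 k238 3
  9))))), (.s k3 k1 0 (.s k138 k186 3 (.s k69 k207 10 (.s k70 k206 9 (.s k204 k137 10 (.d k68 k71
  k136 0 9)))))), (.s k3 k1 0 (.s k86 k254 13 (.s k18 k222 9 (.s k48 k33 4 (.s k32 k16 3 (.d k101
  k239 k207 10 14))))))] (.c k40 (.q k41 [(.s k254 k86 13 (.s k186 k138 3 (.s k50 k118 9 (.s k102
  k206 13 (.d k34 k18 k238 3 9))))), (.s k3 k1 0 (.s k138 k186 3 (.s k69 k207 10 (.s k70 k206 9 (.s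
  k204 k137 10 (.d k68 k71 k136 0 9)))))), (.s k3 k1 0 (.s k86 k254 13 (.s k18 k222 9 (.s k48 k33 4
  (.s k32 k16 3 (.d k101 k239 k207 10 14))))))] (.c k169 (.q k232 [(.s k254 k86 13 (.s k186 k138 3
  (.s k50 k118 9 (.s k102 k206 13 (.d k34 k18 k238 3 9))))), (.s k3 k1 0 (.s k138 k186 3 (.s k69
  k207 10 (.s k70 k206 9 (.s k204 k137 10 (.d k68 k71 k136 0 9)))))), (.s k3 k1 0 (.s k86 k254 13
  (.s k18 k222 9 (.s k48 k33 4 (.s k32 k16 3 (.d k101 k239 k207 10 14))))))] (.c k3 (.l (.s k86 k254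
  13 (.s k18 k222 9 (.s k50 k34 3 (.s k206 k102 13 (.d k138 k186 k70 3 9)))))) (.c k206 (.l (.s k3
  k1 0 (.s k86 k254 13 (.s k138 k186 3 (.s k207 k69 10 (.s k71 k139 9 (.d k101 k48 k116 14 4)))))))
  .n))) (.c k206 (.l (.s k3 k1 0 (.s k86 k254 13 (.s k222 k18 9 (.s k138 k186 3 (.s k207 k69 10 (.d
  k252 k237 k169 4 14))))))) (.c k232 (.q k169 [(.s k3 k1 0 (.d k86 k254 k252 13 14)), (.s k3 k1 0
  (.s k138 k186 3 (.s k207 k69 10 (.d k139 k184 k71 4 9)))), (.s k86 k254 13 (.s k18 k222 9 (.s k50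
  k34 3 (.s k206 k102 13 (.d k138 k186 k70 3 9)))))] (.c k104 (.l (.s k168 k171 0 (.s k3 k1 0 (.d
  k86 k254 k252 13 14)))) (.c k168 (.q k104 [(.s k3 k1 0 (.d k86 k254 k252 13 14)), (.s k3 k1 0 (.s
  k138 k186 3 (.s k207 k69 10 (.d k139 k184 k71 4 9)))), (.s k86 k254 13 (.s k18 k222 9 (.s k50 k34
  3 (.s k206 k102 13 (.d k138 k186 k70 3 9)))))] .n) .n))) .n)))) (.c k41 (.q k40 [(.s k254 k86 13
  (.s k186 k138 3 (.s k50 k118 9 (.s k102 k206 13 (.d k34 k18 k238 3 9))))), (.s k105 k235 8 (.s k56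
  k203 12 (.s k8 k24 3 (.s k251 k89 12 (.d k186 k138 k121 3 8))))), (.s k3 k1 0 (.s k60 k20 5 (.s
  k86 k254 13 (.s k105 k235 8 (.s k195 k150 14 (.d k67 k124 k131 6 7))))))] (.c k169 (.q k232 [(.s
  k254 k86 13 (.s k186 k138 3 (.s k50 k118 9 (.s k102 k206 13 (.d k34 k18 k238 3 9))))), (.s k105
  k235 8 (.s k56 k203 12 (.s k8 k24 3 (.s k251 k89 12 (.d k186 k138 k121 3 8))))), (.s k3 k1 0 (.s
  k60 k20 5 (.s k86 k254 13 (.s k105 k235 8 (.s k195 k150 14 (.d k67 k131 k124 7 6))))))] (.c k105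
  (.q k233 [(.s k86 k254 13 (.s k138 k186 3 (.s k206 k70 9 (.s k18 k222 9 (.d k50 k34 k102 3
  13))))), (.s k3 k1 0 (.s k138 k186 3 (.s k69 k207 10 (.s k70 k206 9 (.s k204 k137 10 (.d k68 k71
  k136 0 9)))))), (.s k3 k1 0 (.s k86 k254 13 (.s k18 k222 9 (.s k48 k33 4 (.s k32 k16 3 (.d k101
  k239 k207 10 14)))))), (.s k254 k86 13 (.s k186 k138 3 (.s k50 k118 9 (.s k102 k206 13 (.d k34 k18
  k238 3 9)))))] (.c k104 (.q k107 [(.s k195 k151 13 (.s k214 k252 6 (.s k234 k235 0 (.d k254 k86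
  k194 13 5)))), (.s k86 k254 13 (.s k18 k222 9 (.s k50 k34 3 (.s k206 k102 13 (.d k138 k186 k70 3
  9))))), (.s k20 k60 5 (.s k195 k151 13 (.s k252 k214 6 (.s k84 k168 13 (.d k212 k192 k148 5
  7)))))] (.c k252 (.l (.s k195 k151 13 (.s k130 k65 8 (.s k194 k66 7 (.s k234 k235 0 (.d k254 k86
  k214 13 5)))))) .n)) (.c k107 (.l (.s k104 k168 7 (.s k86 k254 13 (.s k18 k222 9 (.s k50 k34 3 (.s
  k206 k102 13 (.d k138 k186 k70 3 9))))))) (.c k206 (.l (.s k3 k1 0 (.s k86 k254 13 (.s k138 k186 3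
  (.s k207 k69 10 (.s k71 k139 9 (.d k101 k48 k116 14 4))))))) .n)))) (.c k233 (.l (.s k105 k235 8
  (.s k56 k203 12 (.s k8 k24 3 (.s k251 k89 12 (.d k186 k138 k121 3 8)))))) .n))) (.c k232 (.q k169
  [(.s k86 k254 13 (.d k3 k252 k1 14 0)), (.s k3 k1 0 (.s k138 k186 3 (.s k207 k69 10 (.d k139 k184
  k71 4 9)))), (.s k86 k254 13 (.s k18 k222 9 (.s k50 k34 3 (.s k206 k102 13 (.d k138 k186 k70 3
  9)))))] .n) .n))) (.c k169 (.q k232 [(.s k254 k86 13 (.s k186 k138 3 (.s k50 k118 9 (.s k102 k206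
  13 (.d k34 k18 k238 3 9))))), (.s k3 k1 0 (.s k138 k186 3 (.s k69 k207 10 (.s k70 k206 9 (.s k204
  k137 10 (.d k68 k71 k136 0 9)))))), (.s k3 k1 0 (.s k86 k254 13 (.s k18 k222 9 (.s k48 k33 4 (.s
  k32 k16 3 (.d k101 k239 k207 10 14))))))] (.c k3 (.l (.s k86 k254 13 (.s k18 k222 9 (.s k50 k34 3
  (.s k206 k102 13 (.d k138 k186 k70 3 9)))))) (.c k40 (.q k41 [(.s k254 k86 13 (.s k186 k138 3 (.s
  k50 k118 9 (.s k102 k206 13 (.d k34 k18 k238 3 9))))), (.s k3 k1 0 (.s k138 k186 3 (.s k69 k207 10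
  (.s k70 k206 9 (.s k204 k137 10 (.d k68 k71 k136 0 9)))))), (.s k3 k1 0 (.s k86 k254 13 (.s k18
  k222 9 (.s k48 k33 4 (.s k32 k16 3 (.d k101 k239 k207 10 14))))))] (.c k3 (.l (.s k86 k254 13 (.s
  k18 k222 9 (.s k50 k34 3 (.s k206 k102 13 (.d k138 k186 k70 3 9)))))) (.c k206 (.l (.s k3 k1 0 (.s
  k86 k254 13 (.s k138 k186 3 (.s k207 k69 10 (.s k71 k139 9 (.d k101 k48 k116 14 4))))))) .n))) (.c
  k41 (.q k40 [(.s k254 k86 13 (.s k186 k138 3 (.s k50 k118 9 (.s k102 k206 13 (.d k34 k18 k238 3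
  9))))), (.s k105 k235 8 (.s k56 k203 12 (.s k8 k24 3 (.s k251 k89 12 (.d k186 k138 k121 3 8))))),
  (.s k3 k1 0 (.s k60 k20 5 (.s k86 k254 13 (.s k105 k235 8 (.s k195 k150 14 (.d k67 k131 k124 7
  6))))))] (.c k105 (.q k233 [(.s k86 k254 13 (.s k138 k186 3 (.s k206 k70 9 (.s k18 k222 9 (.d k50
  k34 k102 3 13))))), (.s k3 k1 0 (.s k138 k186 3 (.s k69 k207 10 (.s k70 k206 9 (.s k204 k137 10
  (.d k68 k71 k136 0 9)))))), (.s k3 k1 0 (.s k86 k254 13 (.s k18 k222 9 (.s k48 k33 4 (.s k32 k16 3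
  (.d k101 k239 k207 10 14)))))), (.s k254 k86 13 (.s k186 k138 3 (.s k50 k118 9 (.s k102 k206 13
  (.d k34 k18 k238 3 9)))))] (.c k104 (.q k107 [(.s k195 k151 13 (.s k214 k252 6 (.s k234 k235 0 (.d
  k254 k86 k194 13 5)))), (.s k86 k254 13 (.s k18 k222 9 (.s k50 k34 3 (.s k206 k102 13 (.d k138
  k186 k70 3 9))))), (.s k20 k60 5 (.s k195 k151 13 (.s k252 k214 6 (.s k84 k168 13 (.d k212 k192
  k148 5 7)))))] (.c k252 (.l (.s k195 k151 13 (.s k130 k65 8 (.s k194 k66 7 (.s k234 k235 0 (.d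
  k254 k86 k214 13 5)))))) .n)) (.c k107 (.l (.s k104 k168 7 (.s k86 k254 13 (.s k18 k222 9 (.s k50
  k34 3 (.s k206 k102 13 (.d k138 k186 k70 3 9))))))) (.c k206 (.l (.s k3 k1 0 (.s k86 k254 13 (.s
  k138 k186 3 (.s k207 k69 10 (.s k71 k139 9 (.d k101 k48 k116 14 4))))))) .n)))) (.c k233 (.l (.s
  k105 k235 8 (.s k56 k203 12 (.s k8 k24 3 (.s k251 k89 12 (.d k186 k138 k121 3 8)))))) .n))) (.c
  k206 (.l (.s k3 k1 0 (.s k86 k254 13 (.s k138 k186 3 (.s k207 k69 10 (.s k71 k139 9 (.d k101 k48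
  k116 14 4))))))) .n))))) (.c k206 (.l (.s k3 k1 0 (.s k86 k254 13 (.s k222 k18 9 (.s k138 k186 3
  (.s k207 k69 10 (.d k252 k237 k169 4 14))))))) (.c k232 (.q k169 [(.s k3 k1 0 (.d k86 k254 k252 13
  14)), (.s k3 k1 0 (.s k138 k186 3 (.s k207 k69 10 (.d k139 k184 k71 4 9)))), (.s k86 k254 13 (.s
  k18 k222 9 (.s k50 k34 3 (.s k206 k102 13 (.d k138 k186 k70 3 9)))))] (.c k40 (.q k41 [(.s k3 k1 0
  (.d k86 k254 k252 13 14)), (.s k3 k1 0 (.s k138 k186 3 (.s k207 k69 10 (.d k139 k184 k71 4 9)))),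
  (.s k86 k254 13 (.s k18 k222 9 (.s k50 k34 3 (.s k206 k102 13 (.d k138 k186 k70 3 9)))))] (.c k104
  (.l (.s k168 k171 0 (.s k3 k1 0 (.d k86 k254 k252 13 14)))) (.c k168 (.q k104 [(.s k3 k1 0 (.d k86
  k254 k252 13 14)), (.s k3 k1 0 (.s k138 k186 3 (.s k207 k69 10 (.d k139 k184 k71 4 9)))), (.s k86
  k254 13 (.s k18 k222 9 (.s k50 k34 3 (.s k206 k102 13 (.d k138 k186 k70 3 9)))))] .n) .n))) (.c
  k41 (.q k40 [(.s k86 k254 13 (.d k3 k252 k1 14 0)), (.s k3 k1 0 (.s k138 k186 3 (.s k207 k69 10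
  (.d k139 k184 k71 4 9)))), (.s k86 k254 13 (.s k18 k222 9 (.s k50 k34 3 (.s k206 k102 13 (.d k138
  k186 k70 3 9)))))] .n) .n))) .n))))))

def t42_255_44 : T TT 256 :=
  (.q k40 [(.s k3 k1 0 (.s k60 k20 5 (.s k86 k254 13 (.s k41 k22 6 (.s k105 k235 8 (.d k169 k252
  k233 14 7)))))), (.s k60 k20 5 (.s k105 k235 8 (.s k61 k62 0 (.s k193 k149 13 (.s k195 k150 14 (.s
  k194 k192 0 (.d k130 k66 k65 7 8))))))), (.s k3 k1 0 (.s k86 k254 13 (.s k23 k43 5 (.s k212 k149 8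
  (.s k252 k169 14 (.s k232 k192 5 (.d k168 k104 k84 7 13)))))))] .n)

def t42_255_45 : T TT 256 :=
  (.q k40 [(.s k3 k1 0 (.s k60 k20 5 (.s k86 k254 13 (.s k41 k22 6 (.s k105 k235 8 (.d k169 k252
  k233 14 7)))))), (.s k60 k20 5 (.s k105 k235 8 (.s k61 k62 0 (.s k193 k149 13 (.s k195 k150 14 (.s
  k194 k192 0 (.d k130 k66 k65 7 8))))))), (.s k3 k1 0 (.s k86 k254 13 (.s k23 k43 5 (.s k212 k149 8
  (.s k252 k169 14 (.s k232 k192 5 (.d k168 k104 k84 7 13)))))))] .n)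

def t42_255_46 : T TT 256 :=
  (.f k86 k254 13 (.l (.s k3 k1 0 (.s k23 k43 5 (.s k149 k212 8 (.s k128 k191 6 (.s k192 k64 7 (.s
  k129 k66 8 (.d k169 k189 k252 5 14)))))))))

def t42_255_47 : T TT 256 :=
  (.f k86 k254 13 (.l (.s k3 k1 0 (.s k23 k43 5 (.s k149 k212 8 (.s k128 k191 6 (.s k192 k64 7 (.s
  k129 k66 8 (.d k169 k189 k252 5 14)))))))))

def t42_255_48 : T TT 256 :=
  (.f k86 k254 13 (.l (.s k3 k1 0 (.s k23 k43 5 (.s k149 k212 8 (.s k128 k191 6 (.s k192 k64 7 (.s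
  k129 k66 8 (.d k169 k189 k252 5 14)))))))))

def t42_255_49 : T TT 256 :=
  (.f k86 k254 13 (.l (.s k3 k1 0 (.s k23 k43 5 (.s k149 k212 8 (.s k128 k191 6 (.s k192 k64 7 (.s
  k129 k66 8 (.d k169 k189 k252 5 14)))))))))

def t42_255_50 : T TT 256 :=
  (.f k86 k254 13 (.l (.s k3 k1 0 (.s k23 k43 5 (.s k149 k212 8 (.s k128 k191 6 (.s k192 k64 7 (.s
  k129 k66 8 (.d k169 k189 k252 5 14)))))))))

def t42_255_51 : T TT 256 :=
  (.f k86 k254 13 (.l (.s k3 k1 0 (.s k23 k43 5 (.s k149 k212 8 (.s k128 k191 6 (.s k192 k64 7 (.s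
  k129 k66 8 (.d k169 k189 k252 5 14)))))))))

def t42_255_52 : T TT 256 :=
  (.f k86 k254 13 (.l (.s k3 k1 0 (.s k23 k43 5 (.s k149 k212 8 (.s k128 k191 6 (.s k192 k64 7 (.s
  k129 k66 8 (.d k169 k189 k252 5 14)))))))))

def t42_255_53 : T TT 256 :=
  (.f k86 k254 13 (.l (.s k3 k1 0 (.s k23 k43 5 (.s k149 k212 8 (.s k128 k191 6 (.s k192 k64 7 (.s
  k129 k66 8 (.d k169 k189 k252 5 14)))))))))

def t42_255_54 : T TT 256 :=
  (.f k86 k254 13 (.l (.s k3 k1 0 (.s k23 k43 5 (.s k149 k212 8 (.s k128 k191 6 (.s k192 k64 7 (.s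
  k129 k66 8 (.d k169 k189 k252 5 14)))))))))

def t42_255_55 : T TT 256 :=
  (.f k86 k254 13 (.l (.s k3 k1 0 (.s k23 k43 5 (.s k149 k212 8 (.s k128 k191 6 (.s k192 k64 7 (.s
  k129 k66 8 (.d k169 k189 k252 5 14)))))))))

def t42_255_56 : T TT 256 :=
  (.f k86 k254 13 (.l (.s k3 k1 0 (.s k23 k43 5 (.s k149 k212 8 (.s k128 k191 6 (.s k192 k64 7 (.s
  k129 k66 8 (.d k169 k189 k252 5 14)))))))))

def t42_255_57 : T TT 256 :=
  (.f k86 k254 13 (.l (.s k3 k1 0 (.s k23 k43 5 (.s k149 k212 8 (.s k128 k191 6 (.s k192 k64 7 (.s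
  k129 k66 8 (.d k169 k189 k252 5 14)))))))))

def t42_255_58 : T TT 256 :=
  (.f k86 k254 13 (.l (.s k3 k1 0 (.s k23 k43 5 (.s k149 k212 8 (.s k128 k191 6 (.s k192 k64 7 (.s
  k129 k66 8 (.d k169 k189 k252 5 14)))))))))

def t42_255_59 : T TT 256 :=
  (.f k86 k254 13 (.l (.s k3 k1 0 (.s k23 k43 5 (.s k149 k212 8 (.s k128 k191 6 (.s k192 k64 7 (.s
  k129 k66 8 (.d k169 k189 k252 5 14)))))))))

def t42_255_60 : T TT 256 :=
  (.f k86 k254 13 (.l (.s k3 k1 0 (.s k23 k43 5 (.s k149 k212 8 (.s k128 k191 6 (.s k192 k64 7 (.s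
  k129 k66 8 (.d k169 k189 k252 5 14)))))))))

def t42_255_61 : T TT 256 :=
  (.f k86 k254 13 (.l (.s k3 k1 0 (.s k23 k43 5 (.s k149 k212 8 (.s k128 k191 6 (.s k192 k64 7 (.s
  k129 k66 8 (.d k169 k189 k252 5 14)))))))))

def t42_255_62 : T TT 256 :=
  (.f k86 k254 13 (.l (.s k3 k1 0 (.s k23 k43 5 (.s k149 k212 8 (.s k128 k191 6 (.s k192 k64 7 (.s
  k129 k66 8 (.d k169 k189 k252 5 14)))))))))

def t42_255_64 : T TT 256 :=
  (.q k40 [(.s k3 k1 0 (.s k60 k20 5 (.s k86 k254 13 (.s k252 k169 14 (.s k105 k235 8 (.d k124 k67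
  k188 6 7)))))), (.s k60 k20 5 (.s k105 k235 8 (.s k61 k62 0 (.s k193 k149 13 (.s k195 k150 14 (.s
  k194 k192 0 (.d k130 k66 k65 7 8))))))), (.s k3 k1 0 (.s k86 k254 13 (.s k23 k43 5 (.s k212 k149 8
  (.s k252 k169 14 (.s k232 k192 5 (.d k168 k104 k84 7 13)))))))] (.c k85 (.q k127 [(.s k60 k20 5
  (.s k86 k254 13 (.s k105 k235 8 (.s k124 k67 6 (.s k252 k188 7 (.d k126 k125 k189 0 8)))))), (.s
  k3 k1 0 (.s k43 k23 5 (.s k235 k105 8 (.s k107 k171 7 (.s k195 k151 13 (.d k67 k87 k131 5 7)))))),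
  (.s k3 k1 0 (.s k20 k60 5 (.s k86 k254 13 (.s k23 k43 5 (.s k212 k149 8 (.s k84 k148 7 (.d k252
  k169 k168 14 13))))))), (.s k1 k3 0 (.s k60 k20 5 (.s k105 k235 8 (.s k61 k62 0 (.s k193 k149 13
  (.s k65 k129 7 (.d k195 k150 k130 14 8)))))))] .n) (.c k127 (.q k85 [(.s k3 k1 0 (.s k86 k254 13
  (.s k252 k169 14 (.d k84 k87 k168 0 13)))), (.s k60 k20 5 (.s k105 k235 8 (.s k195 k150 14 (.d k65
  k125 k130 5 8))))] .n) .n)))

def t42_255_65 : T TT 256 :=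
  (.q k6 [(.s k3 k1 0 (.s k10 k14 1 (.s k5 k15 2 (.s k12 k9 2 (.d k4 k7 k8 0 1))))), (.s k14 k10 1
  (.s k86 k254 13 (.s k166 k246 11 (.s k242 k90 13 (.d k162 k174 k82 1 11))))), (.s k3 k1 0 (.s k86
  k254 13 (.s k12 k9 2 (.s k8 k4 1 (.s k166 k246 11 (.d k89 k251 k243 12 14))))))] .n)

def t42_255_66 : T TT 256 :=
  (.f k86 k254 13 (.q k6 [(.s k14 k10 1 (.s k166 k246 11 (.s k242 k90 13 (.d k162 k174 k82 1 11)))),
  (.s k3 k1 0 (.s k12 k9 2 (.s k4 k8 1 (.s k5 k7 0 (.d k10 k14 k15 1 2))))), (.s k3 k1 0 (.s k12 k9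
  2 (.s k8 k4 1 (.s k166 k246 11 (.d k89 k251 k243 12 14)))))] (.c k252 (.q k253 [(.s k3 k1 0 (.s
  k12 k9 2 (.s k4 k8 1 (.s k5 k7 0 (.d k10 k14 k15 1 2))))), (.s k14 k10 1 (.s k166 k246 11 (.s k242
  k90 13 (.d k162 k174 k82 1 11)))), (.s k3 k1 0 (.s k12 k9 2 (.s k8 k4 1 (.s k166 k246 11 (.d k89
  k243 k251 14 12)))))] .n) (.c k253 (.q k252 [(.d k3 k1 k169 0 14), (.s k10 k14 1 (.s k15 k5 2 (.s
  k90 k250 11 (.d k94 k82 k173 1 12))))] .n) .n))))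

def t42_255_67 : T TT 256 :=
  (.q k6 [(.s k3 k1 0 (.s k10 k14 1 (.s k5 k15 2 (.s k12 k9 2 (.d k4 k7 k8 0 1))))), (.s k14 k10 1
  (.s k86 k254 13 (.s k166 k246 11 (.s k242 k90 13 (.d k162 k174 k82 1 11))))), (.s k3 k1 0 (.s k86
  k254 13 (.s k12 k9 2 (.s k8 k4 1 (.s k166 k246 11 (.d k89 k251 k243 12 14))))))] .n)

def t42_255_68 : T TT 256 :=
  (.q k6 [(.s k3 k1 0 (.s k10 k14 1 (.s k5 k15 2 (.s k12 k9 2 (.d k4 k7 k8 0 1))))), (.s k14 k10 1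
  (.s k86 k254 13 (.s k166 k246 11 (.s k242 k90 13 (.d k162 k174 k82 1 11))))), (.s k3 k1 0 (.s k86
  k254 13 (.s k12 k9 2 (.s k8 k4 1 (.s k166 k246 11 (.d k89 k251 k243 12 14))))))] .n)

def t42_255_69 : T TT 256 :=
  (.q k6 [(.s k3 k1 0 (.s k10 k14 1 (.s k5 k15 2 (.s k12 k9 2 (.d k4 k7 k8 0 1))))), (.s k14 k10 1
  (.s k86 k254 13 (.s k166 k246 11 (.s k242 k90 13 (.d k162 k174 k82 1 11))))), (.s k3 k1 0 (.s k86
  k254 13 (.s k12 k9 2 (.s k8 k4 1 (.s k166 k246 11 (.d k89 k251 k243 12 14))))))] .n)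

def t42_255_70 : T TT 256 :=
  (.q k6 [(.s k3 k1 0 (.s k10 k14 1 (.s k5 k15 2 (.s k12 k9 2 (.d k4 k7 k8 0 1))))), (.s k14 k10 1
  (.s k86 k254 13 (.s k166 k246 11 (.s k242 k90 13 (.d k162 k174 k82 1 11))))), (.s k3 k1 0 (.s k86
  k254 13 (.s k12 k9 2 (.s k8 k4 1 (.s k166 k246 11 (.d k89 k251 k243 12 14))))))] .n)

def t42_255_71 : T TT 256 :=
  (.q k6 [(.s k3 k1 0 (.s k10 k14 1 (.s k5 k15 2 (.s k12 k9 2 (.d k4 k7 k8 0 1))))), (.s k14 k10 1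
  (.s k86 k254 13 (.s k166 k246 11 (.s k242 k90 13 (.d k162 k174 k82 1 11))))), (.s k3 k1 0 (.s k86
  k254 13 (.s k12 k9 2 (.s k8 k4 1 (.s k166 k246 11 (.d k89 k251 k243 12 14))))))] .n)

def t42_255_72 : T TT 256 :=
  (.f k86 k254 13 (.l (.s k3 k1 0 (.s k23 k43 5 (.s k149 k212 8 (.s k128 k191 6 (.s k192 k64 7 (.s
  k129 k66 8 (.d k169 k189 k252 5 14)))))))))

def t42_255_73 : T TT 256 :=
  (.f k86 k254 13 (.l (.s k3 k1 0 (.s k23 k43 5 (.s k149 k212 8 (.s k128 k191 6 (.s k192 k64 7 (.s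
  k129 k66 8 (.d k169 k189 k252 5 14)))))))))

def t42_255_74 : T TT 256 :=
  (.f k86 k254 13 (.l (.s k3 k1 0 (.s k23 k43 5 (.s k149 k212 8 (.s k128 k191 6 (.s k192 k64 7 (.s
  k129 k66 8 (.d k169 k189 k252 5 14)))))))))

def t42_255_75 : T TT 256 :=
  (.f k86 k254 13 (.l (.s k3 k1 0 (.s k23 k43 5 (.s k149 k212 8 (.s k128 k191 6 (.s k192 k64 7 (.s
  k129 k66 8 (.d k169 k189 k252 5 14)))))))))

def t42_255_76 : T TT 256 :=
  (.f k86 k254 13 (.l (.s k3 k1 0 (.s k23 k43 5 (.s k149 k212 8 (.s k128 k191 6 (.s k192 k64 7 (.s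
  k129 k66 8 (.d k169 k189 k252 5 14)))))))))

def t42_255_77 : T TT 256 :=
  (.f k86 k254 13 (.l (.s k3 k1 0 (.s k23 k43 5 (.s k149 k212 8 (.s k128 k191 6 (.s k192 k64 7 (.s
  k129 k66 8 (.d k169 k189 k252 5 14)))))))))

def t42_255_78 : T TT 256 :=
  (.f k86 k254 13 (.l (.s k3 k1 0 (.s k23 k43 5 (.s k149 k212 8 (.s k128 k191 6 (.s k192 k64 7 (.s
  k129 k66 8 (.d k169 k189 k252 5 14)))))))))

def t42_255_79 : T TT 256 :=
  (.f k86 k254 13 (.l (.s k3 k1 0 (.s k23 k43 5 (.s k149 k212 8 (.s k128 k191 6 (.s k192 k64 7 (.s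
  k129 k66 8 (.d k169 k189 k252 5 14)))))))))

def t42_255_80 : T TT 256 :=
  (.f k86 k254 13 (.l (.s k3 k1 0 (.s k23 k43 5 (.s k149 k212 8 (.s k128 k191 6 (.s k192 k64 7 (.s
  k129 k66 8 (.d k169 k189 k252 5 14)))))))))

def t42_255_81 : T TT 256 :=
  (.f k86 k254 13 (.l (.s k3 k1 0 (.s k23 k43 5 (.s k149 k212 8 (.s k128 k191 6 (.s k192 k64 7 (.s
  k129 k66 8 (.d k169 k189 k252 5 14)))))))))

def t42_255_82 : T TT 256 :=
  (.f k86 k254 13 (.l (.s k3 k1 0 (.s k23 k43 5 (.s k149 k212 8 (.s k128 k191 6 (.s k192 k64 7 (.s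
  k129 k66 8 (.d k169 k189 k252 5 14)))))))))

def t42_255_83 : T TT 256 :=
  (.f k86 k254 13 (.l (.s k3 k1 0 (.s k23 k43 5 (.s k149 k212 8 (.s k128 k191 6 (.s k192 k64 7 (.s
  k129 k66 8 (.d k169 k189 k252 5 14)))))))))

def t42_255_84 : T TT 256 :=
  (.f k86 k254 13 (.l (.s k3 k1 0 (.s k23 k43 5 (.s k149 k212 8 (.s k128 k191 6 (.s k192 k64 7 (.s
  k129 k66 8 (.d k169 k189 k252 5 14)))))))))

def t42_255_85 : T TT 256 :=
  (.q k6 [(.s k3 k1 0 (.s k10 k14 1 (.s k5 k15 2 (.s k12 k9 2 (.d k4 k7 k8 0 1))))), (.s k14 k10 1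
  (.s k86 k254 13 (.s k166 k246 11 (.s k242 k90 13 (.d k162 k174 k82 1 11))))), (.s k3 k1 0 (.s k86
  k254 13 (.s k12 k9 2 (.s k8 k4 1 (.s k166 k246 11 (.d k89 k251 k243 12 14))))))] (.c k64 (.q k127
  [(.s k3 k1 0 (.s k10 k14 1 (.s k5 k15 2 (.s k12 k9 2 (.d k4 k7 k8 0 1))))), (.s k14 k10 1 (.s k86
  k254 13 (.s k166 k246 11 (.s k242 k90 13 (.d k162 k174 k82 1 11))))), (.s k3 k1 0 (.s k86 k254 13
  (.s k12 k9 2 (.s k8 k4 1 (.s k166 k246 11 (.d k89 k251 k243 12 14))))))] (.c k253 (.l (.s k10 k14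
  1 (.s k5 k15 2 (.s k4 k7 0 (.s k12 k8 1 (.d k3 k1 k9 0 2)))))) .n)) (.c k127 (.q k64 [(.s k3 k1 0
  (.s k128 k192 7 (.s k86 k254 13 (.s k149 k191 6 (.d k23 k43 k212 5 8))))), (.s k10 k14 1 (.s k5
  k15 2 (.s k4 k7 0 (.s k12 k8 1 (.d k3 k1 k9 0 2))))), (.s k14 k10 1 (.s k86 k254 13 (.s k166 k246
  11 (.s k242 k90 13 (.d k162 k174 k82 1 11)))))] .n) (.c k253 (.l (.s k10 k14 1 (.s k5 k15 2 (.s k4
  k7 0 (.s k12 k8 1 (.d k3 k1 k9 0 2)))))) .n))))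

def t42_255_86 : T TT 256 :=
  (.f k3 k1 0 (.q k195 [(.s k130 k65 8 (.s k131 k67 7 (.s k129 k128 0 (.d k66 k194 k192 7 8)))), (.s
  k43 k23 5 (.s k107 k151 13 (.s k235 k171 7 (.s k105 k40 8 (.s k150 k60 14 (.d k130 k190 k65 5
  8))))))] (.c k65 (.l (.s k131 k67 7 (.s k151 k107 13 (.s k191 k171 5 (.s k128 k149 6 (.s k129 k130
  0 (.d k192 k64 k66 7 8))))))) (.c k66 (.q k126 [(.s k43 k23 5 (.s k107 k151 13 (.s k171 k235 7 (.s
  k252 k189 8 (.d k168 k169 k84 0 13))))), (.s k130 k65 8 (.s k151 k107 13 (.s k150 k190 5 (.s k149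
  k148 0 (.s k128 k191 6 (.d k131 k129 k67 0 7)))))), (.s k130 k65 8 (.s k252 k189 8 (.s k168 k84 13
  (.s k150 k190 5 (.s k169 k171 0 (.d k131 k188 k67 6 7))))))] (.c k189 (.l (.s k131 k67 7 (.s k151
  k107 13 (.s k191 k171 5 (.s k128 k149 6 (.d k130 k129 k65 0 8)))))) .n)) (.c k105 (.l (.s k130 k65
  8 (.s k66 k194 7 (.s k129 k192 8 (.d k131 k128 k67 0 7))))) (.c k126 (.q k66 [(.d k130 k194 k65 7
  8), (.s k67 k131 7 (.s k64 k65 0 (.d k192 k129 k128 8 7)))] (.c k65 (.l (.s k194 k130 7 (.d k192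
  k193 k129 0 8))) .n)) (.c k130 (.f k107 k151 13 (.q k154 [(.s k138 k186 3 (.s k69 k207 10 (.s k70
  k206 9 (.s k204 k137 10 (.d k68 k71 k136 0 9))))), (.s k43 k23 5 (.s k171 k235 7 (.s k169 k168 0
  (.s k139 k184 4 (.s k207 k71 9 (.s k203 k199 1 (.d k155 k187 k59 3 11))))))), (.s k67 k131 7 (.s
  k138 k186 3 (.s k70 k206 9 (.s k73 k76 2 (.s k8 k203 8 (.d k12 k4 k134 1 10))))))] (.c k66 (.q
  k126 [(.s k43 k23 5 (.s k171 k235 7 (.s k252 k189 8 (.d k168 k169 k84 0 13)))), (.s k138 k186 3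
  (.s k69 k207 10 (.s k70 k206 9 (.s k204 k137 10 (.d k68 k71 k136 0 9)))))] .n) (.c k126 (.q k66
  [(.s k67 k131 7 (.s k64 k65 0 (.d k192 k128 k129 7 8))), (.s k138 k186 3 (.s k69 k207 10 (.s k70
  k206 9 (.s k204 k137 10 (.d k68 k71 k136 0 9)))))] .n) .n)))) (.c k131 (.l (.s k130 k65 8 (.s k66
  k194 7 (.s k151 k107 13 (.s k150 k190 5 (.s k149 k148 0 (.s k128 k191 6 (.d k192 k129 k64 8
  7)))))))) .n))))))))

def t42_255_87 : T TT 256 :=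
  (.f k86 k254 13 (.l (.s k3 k1 0 (.s k23 k43 5 (.s k149 k212 8 (.s k128 k191 6 (.s k192 k64 7 (.s
  k129 k66 8 (.d k169 k189 k252 5 14)))))))))

def t42_255_88 : T TT 256 :=
  (.f k86 k254 13 (.l (.s k3 k1 0 (.s k23 k43 5 (.s k149 k212 8 (.s k128 k191 6 (.s k192 k64 7 (.s
  k129 k66 8 (.d k169 k189 k252 5 14)))))))))

def t42_255_89 : T TT 256 :=
  (.f k86 k254 13 (.l (.s k3 k1 0 (.s k23 k43 5 (.s k149 k212 8 (.s k128 k191 6 (.s k192 k64 7 (.s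
  k129 k66 8 (.d k169 k189 k252 5 14)))))))))

def t42_255_90 : T TT 256 :=
  (.f k86 k254 13 (.l (.s k3 k1 0 (.s k23 k43 5 (.s k149 k212 8 (.s k128 k191 6 (.s k192 k64 7 (.s
  k129 k66 8 (.d k169 k189 k252 5 14)))))))))

def t42_255_91 : T TT 256 :=
  (.f k86 k254 13 (.l (.s k3 k1 0 (.s k23 k43 5 (.s k149 k212 8 (.s k128 k191 6 (.s k192 k64 7 (.s
  k129 k66 8 (.d k169 k189 k252 5 14)))))))))

def t42_255_92 : T TT 256 :=
  (.f k86 k254 13 (.l (.s k3 k1 0 (.s k23 k43 5 (.s k149 k212 8 (.s k128 k191 6 (.s k192 k64 7 (.s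
  k129 k66 8 (.d k169 k189 k252 5 14)))))))))

def t42_255_93 : T TT 256 :=
  (.f k86 k254 13 (.l (.s k3 k1 0 (.s k23 k43 5 (.s k149 k212 8 (.s k128 k191 6 (.s k192 k64 7 (.s
  k129 k66 8 (.d k169 k189 k252 5 14)))))))))

def t42_255_94 : T TT 256 :=
  (.f k86 k254 13 (.l (.s k3 k1 0 (.s k23 k43 5 (.s k149 k212 8 (.s k128 k191 6 (.s k192 k64 7 (.s
  k129 k66 8 (.d k169 k189 k252 5 14)))))))))

def t42_255_95 : T TT 256 :=
  (.f k86 k254 13 (.l (.s k3 k1 0 (.s k23 k43 5 (.s k149 k212 8 (.s k128 k191 6 (.s k192 k64 7 (.s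
  k129 k66 8 (.d k169 k189 k252 5 14)))))))))

def t42_255_96 : T TT 256 :=
  (.f k86 k254 13 (.l (.s k3 k1 0 (.s k23 k43 5 (.s k149 k212 8 (.s k128 k191 6 (.s k192 k64 7 (.s
  k129 k66 8 (.d k169 k189 k252 5 14)))))))))

def t42_255_97 : T TT 256 :=
  (.f k86 k254 13 (.l (.s k3 k1 0 (.s k23 k43 5 (.s k149 k212 8 (.s k128 k191 6 (.s k192 k64 7 (.s
  k129 k66 8 (.d k169 k189 k252 5 14)))))))))

def t42_255_98 : T TT 256 :=
  (.f k86 k254 13 (.l (.s k3 k1 0 (.s k23 k43 5 (.s k149 k212 8 (.s k128 k191 6 (.s k192 k64 7 (.s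
  k129 k66 8 (.d k169 k189 k252 5 14)))))))))

def t42_255_99 : T TT 256 :=
  (.f k86 k254 13 (.l (.s k3 k1 0 (.s k23 k43 5 (.s k149 k212 8 (.s k128 k191 6 (.s k192 k64 7 (.s
  k129 k66 8 (.d k169 k189 k252 5 14)))))))))

def t42_255_100 : T TT 256 :=
  (.f k86 k254 13 (.l (.s k3 k1 0 (.s k23 k43 5 (.s k149 k212 8 (.s k128 k191 6 (.s k192 k64 7 (.s
  k129 k66 8 (.d k169 k189 k252 5 14)))))))))

def t42_255_101 : T TT 256 :=
  (.f k86 k254 13 (.l (.s k3 k1 0 (.s k23 k43 5 (.s k149 k212 8 (.s k128 k191 6 (.s k192 k64 7 (.s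
  k129 k66 8 (.d k169 k189 k252 5 14)))))))))

def t42_255_102 : T TT 256 :=
  (.f k86 k254 13 (.l (.s k3 k1 0 (.s k23 k43 5 (.s k149 k212 8 (.s k128 k191 6 (.s k192 k64 7 (.s
  k129 k66 8 (.d k169 k189 k252 5 14)))))))))

def t42_255_103 : T TT 256 :=
  (.f k86 k254 13 (.l (.s k3 k1 0 (.s k23 k43 5 (.s k149 k212 8 (.s k128 k191 6 (.s k192 k64 7 (.s
  k129 k66 8 (.d k169 k189 k252 5 14)))))))))

def t42_255_104 : T TT 256 :=
  (.f k86 k254 13 (.l (.s k3 k1 0 (.s k23 k43 5 (.s k149 k212 8 (.s k128 k191 6 (.s k192 k64 7 (.s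
  k129 k66 8 (.d k169 k189 k252 5 14)))))))))

def t42_255_105 : T TT 256 :=
  (.f k86 k254 13 (.l (.s k3 k1 0 (.s k23 k43 5 (.s k149 k212 8 (.s k128 k191 6 (.s k192 k64 7 (.s
  k129 k66 8 (.d k169 k189 k252 5 14)))))))))

def t42_255_107 : T TT 256 :=
  (.f k86 k254 13 (.l (.s k3 k1 0 (.s k23 k43 5 (.s k149 k212 8 (.s k128 k191 6 (.s k192 k64 7 (.s
  k129 k66 8 (.d k169 k189 k252 5 14)))))))))

def t42_255_108 : T TT 256 :=
  (.f k86 k254 13 (.l (.s k3 k1 0 (.s k23 k43 5 (.s k149 k212 8 (.s k128 k191 6 (.s k192 k64 7 (.s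
  k129 k66 8 (.d k169 k189 k252 5 14)))))))))

def t42_255_109 : T TT 256 :=
  (.f k86 k254 13 (.l (.s k3 k1 0 (.s k23 k43 5 (.s k149 k212 8 (.s k128 k191 6 (.s k192 k64 7 (.s
  k129 k66 8 (.d k169 k189 k252 5 14)))))))))

def t42_255_110 : T TT 256 :=
  (.f k86 k254 13 (.l (.s k3 k1 0 (.s k23 k43 5 (.s k149 k212 8 (.s k128 k191 6 (.s k192 k64 7 (.s
  k129 k66 8 (.d k169 k189 k252 5 14)))))))))

def t42_255_111 : T TT 256 :=
  (.f k86 k254 13 (.l (.s k3 k1 0 (.s k23 k43 5 (.s k149 k212 8 (.s k128 k191 6 (.s k192 k64 7 (.s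
  k129 k66 8 (.d k169 k189 k252 5 14)))))))))

def t42_255_112 : T TT 256 :=
  (.f k86 k254 13 (.l (.s k3 k1 0 (.s k23 k43 5 (.s k149 k212 8 (.s k128 k191 6 (.s k192 k64 7 (.s
  k129 k66 8 (.d k169 k189 k252 5 14)))))))))

def t42_255_113 : T TT 256 :=
  (.f k86 k254 13 (.l (.s k3 k1 0 (.s k23 k43 5 (.s k149 k212 8 (.s k128 k191 6 (.s k192 k64 7 (.s
  k129 k66 8 (.d k169 k189 k252 5 14)))))))))

def t42_255_114 : T TT 256 :=
  (.f k86 k254 13 (.l (.s k3 k1 0 (.s k23 k43 5 (.s k149 k212 8 (.s k128 k191 6 (.s k192 k64 7 (.s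
  k129 k66 8 (.d k169 k189 k252 5 14)))))))))

def t42_255_115 : T TT 256 :=
  (.f k86 k254 13 (.l (.s k3 k1 0 (.s k23 k43 5 (.s k149 k212 8 (.s k128 k191 6 (.s k192 k64 7 (.s
  k129 k66 8 (.d k169 k189 k252 5 14)))))))))

def t42_255_116 : T TT 256 :=
  (.f k86 k254 13 (.l (.s k3 k1 0 (.s k23 k43 5 (.s k149 k212 8 (.s k128 k191 6 (.s k192 k64 7 (.s
  k129 k66 8 (.d k169 k189 k252 5 14)))))))))

def t42_255_117 : T TT 256 :=
  (.f k86 k254 13 (.l (.s k3 k1 0 (.s k23 k43 5 (.s k149 k212 8 (.s k128 k191 6 (.s k192 k64 7 (.s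
  k129 k66 8 (.d k169 k189 k252 5 14)))))))))

def t42_255_118 : T TT 256 :=
  (.f k86 k254 13 (.l (.s k3 k1 0 (.s k23 k43 5 (.s k149 k212 8 (.s k128 k191 6 (.s k192 k64 7 (.s
  k129 k66 8 (.d k169 k189 k252 5 14)))))))))

def t42_255_119 : T TT 256 :=
  (.f k86 k254 13 (.l (.s k3 k1 0 (.s k23 k43 5 (.s k149 k212 8 (.s k128 k191 6 (.s k192 k64 7 (.s
  k129 k66 8 (.d k169 k189 k252 5 14)))))))))

def t42_255_120 : T TT 256 :=
  (.f k86 k254 13 (.l (.s k3 k1 0 (.s k23 k43 5 (.s k149 k212 8 (.s k128 k191 6 (.s k192 k64 7 (.s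
  k129 k66 8 (.d k169 k189 k252 5 14)))))))))

def t42_255_121 : T TT 256 :=
  (.f k86 k254 13 (.l (.s k3 k1 0 (.s k23 k43 5 (.s k149 k212 8 (.s k128 k191 6 (.s k192 k64 7 (.s
  k129 k66 8 (.d k169 k189 k252 5 14)))))))))

def t42_255_122 : T TT 256 :=
  (.f k86 k254 13 (.l (.s k3 k1 0 (.s k23 k43 5 (.s k149 k212 8 (.s k128 k191 6 (.s k192 k64 7 (.s
  k129 k66 8 (.d k169 k189 k252 5 14)))))))))

def t42_255_123 : T TT 256 :=
  (.f k86 k254 13 (.l (.s k3 k1 0 (.s k23 k43 5 (.s k149 k212 8 (.s k128 k191 6 (.s k192 k64 7 (.s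
  k129 k66 8 (.d k169 k189 k252 5 14)))))))))

def t42_255_124 : T TT 256 :=
  (.f k86 k254 13 (.l (.s k3 k1 0 (.s k23 k43 5 (.s k149 k212 8 (.s k128 k191 6 (.s k192 k64 7 (.s
  k129 k66 8 (.d k169 k189 k252 5 14)))))))))

def t42_255_125 : T TT 256 :=
  (.f k86 k254 13 (.l (.s k3 k1 0 (.s k23 k43 5 (.s k149 k212 8 (.s k128 k191 6 (.s k192 k64 7 (.s
  k129 k66 8 (.d k169 k189 k252 5 14)))))))))

def t42_255_126 : T TT 256 :=
  (.f k86 k254 13 (.l (.s k3 k1 0 (.s k23 k43 5 (.s k149 k212 8 (.s k128 k191 6 (.s k192 k64 7 (.s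
  k129 k66 8 (.d k169 k189 k252 5 14)))))))))

def t42_255_127 : T TT 256 :=
  (.q k6 [(.s k3 k1 0 (.s k10 k14 1 (.s k5 k15 2 (.s k12 k9 2 (.d k4 k7 k8 0 1))))), (.s k14 k10 1
  (.s k86 k254 13 (.s k166 k246 11 (.s k242 k90 13 (.d k162 k174 k82 1 11))))), (.s k3 k1 0 (.s k86
  k254 13 (.s k12 k9 2 (.s k8 k4 1 (.s k166 k246 11 (.d k89 k251 k243 12 14))))))] (.c k64 (.q k85
  [(.s k3 k1 0 (.s k86 k254 13 (.s k252 k169 14 (.d k84 k87 k168 0 13)))), (.s k3 k1 0 (.s k10 k14 1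
  (.s k5 k15 2 (.s k12 k9 2 (.d k4 k7 k8 0 1))))), (.s k10 k14 1 (.s k5 k15 2 (.s k86 k254 13 (.s k7
  k4 0 (.d k165 k245 k244 11 12)))))] .n) (.c k85 (.q k64 [(.s k3 k1 0 (.s k128 k192 7 (.s k86 k254
  13 (.s k149 k191 6 (.d k23 k43 k212 5 8))))), (.s k10 k14 1 (.s k5 k15 2 (.s k4 k7 0 (.s k12 k8 1
  (.d k3 k1 k9 0 2))))), (.s k14 k10 1 (.s k86 k254 13 (.s k166 k246 11 (.s k242 k90 13 (.d k162
  k174 k82 1 11)))))] .n) .n)))

def t42_255_128 : T TT 256 :=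
  (.q k6 [(.s k3 k1 0 (.s k10 k14 1 (.s k5 k15 2 (.s k12 k9 2 (.d k4 k7 k8 0 1))))), (.s k14 k10 1
  (.s k86 k254 13 (.s k166 k246 11 (.s k242 k90 13 (.d k162 k174 k82 1 11))))), (.s k3 k1 0 (.s k86
  k254 13 (.s k12 k9 2 (.s k8 k4 1 (.s k166 k246 11 (.d k89 k251 k243 12 14))))))] .n)

def t42_255_129 : T TT 256 :=
  (.q k6 [(.s k3 k1 0 (.s k10 k14 1 (.s k5 k15 2 (.s k12 k9 2 (.d k4 k7 k8 0 1))))), (.s k14 k10 1
  (.s k86 k254 13 (.s k166 k246 11 (.s k242 k90 13 (.d k162 k174 k82 1 11))))), (.s k3 k1 0 (.s k86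
  k254 13 (.s k12 k9 2 (.s k8 k4 1 (.s k166 k246 11 (.d k89 k251 k243 12 14))))))] .n)

def t42_255_130 : T TT 256 :=
  (.q k6 [(.s k3 k1 0 (.s k10 k14 1 (.s k5 k15 2 (.s k12 k9 2 (.d k4 k7 k8 0 1))))), (.s k14 k10 1
  (.s k86 k254 13 (.s k166 k246 11 (.s k242 k90 13 (.d k162 k174 k82 1 11))))), (.s k3 k1 0 (.s k86
  k254 13 (.s k12 k9 2 (.s k8 k4 1 (.s k166 k246 11 (.d k89 k251 k243 12 14))))))] .n)

def t42_255_131 : T TT 256 :=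
  (.q k6 [(.s k3 k1 0 (.s k10 k14 1 (.s k5 k15 2 (.s k12 k9 2 (.d k4 k7 k8 0 1))))), (.s k14 k10 1
  (.s k86 k254 13 (.s k166 k246 11 (.s k242 k90 13 (.d k162 k174 k82 1 11))))), (.s k3 k1 0 (.s k86
  k254 13 (.s k12 k9 2 (.s k8 k4 1 (.s k166 k246 11 (.d k89 k251 k243 12 14))))))] .n)

def t42_255_132 : T TT 256 :=
  (.q k6 [(.s k3 k1 0 (.s k10 k14 1 (.s k5 k15 2 (.s k12 k9 2 (.d k4 k7 k8 0 1))))), (.s k14 k10 1
  (.s k86 k254 13 (.s k166 k246 11 (.s k242 k90 13 (.d k162 k174 k82 1 11))))), (.s k3 k1 0 (.s k86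
  k254 13 (.s k12 k9 2 (.s k8 k4 1 (.s k166 k246 11 (.d k89 k251 k243 12 14))))))] .n)

def t42_255_133 : T TT 256 :=
  (.q k6 [(.s k3 k1 0 (.s k10 k14 1 (.s k5 k15 2 (.s k12 k9 2 (.d k4 k7 k8 0 1))))), (.s k14 k10 1
  (.s k86 k254 13 (.s k166 k246 11 (.s k242 k90 13 (.d k162 k174 k82 1 11))))), (.s k3 k1 0 (.s k86
  k254 13 (.s k12 k9 2 (.s k8 k4 1 (.s k166 k246 11 (.d k89 k251 k243 12 14))))))] .n)

def t42_255_134 : T TT 256 :=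
  (.q k6 [(.s k3 k1 0 (.s k12 k9 2 (.s k4 k8 1 (.s k5 k7 0 (.d k10 k14 k15 1 2))))), (.s k14 k10 1
  (.s k86 k254 13 (.s k166 k246 11 (.s k242 k90 13 (.d k162 k174 k82 1 11))))), (.s k3 k1 0 (.s k86
  k254 13 (.s k12 k9 2 (.s k8 k4 1 (.s k166 k246 11 (.d k89 k251 k243 12 14))))))] .n)

def t42_255_135 : T TT 256 :=
  (.q k6 [(.s k3 k1 0 (.s k10 k14 1 (.s k15 k5 2 (.s k9 k12 2 (.d k11 k8 k7 0 1))))), (.s k14 k10 1
  (.s k86 k254 13 (.s k166 k246 11 (.s k242 k90 13 (.d k162 k174 k82 1 11))))), (.s k3 k1 0 (.s k86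
  k254 13 (.s k12 k9 2 (.s k8 k4 1 (.s k166 k246 11 (.d k89 k251 k243 12 14))))))] .n)

def t42_255_136 : T TT 256 :=
  (.q k6 [(.s k3 k1 0 (.s k10 k14 1 (.s k5 k15 2 (.s k12 k9 2 (.d k4 k7 k8 0 1))))), (.s k14 k10 1
  (.s k86 k254 13 (.s k166 k246 11 (.s k242 k90 13 (.d k162 k174 k82 1 11))))), (.s k3 k1 0 (.s k86
  k254 13 (.s k12 k9 2 (.s k8 k4 1 (.s k166 k246 11 (.d k89 k251 k243 12 14))))))] .n)

def t42_255_137 : T TT 256 :=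
  (.q k6 [(.s k3 k1 0 (.s k10 k14 1 (.s k15 k5 2 (.s k9 k12 2 (.d k11 k8 k7 0 1))))), (.s k14 k10 1
  (.s k86 k254 13 (.s k166 k246 11 (.s k242 k90 13 (.d k162 k174 k82 1 11))))), (.s k3 k1 0 (.s k86
  k254 13 (.s k12 k9 2 (.s k8 k4 1 (.s k166 k246 11 (.d k89 k251 k243 12 14))))))] .n)

def t42_255_138 : T TT 256 :=
  (.q k6 [(.s k3 k1 0 (.s k10 k14 1 (.s k5 k15 2 (.s k12 k9 2 (.d k4 k7 k8 0 1))))), (.s k14 k10 1
  (.s k86 k254 13 (.s k166 k246 11 (.s k242 k90 13 (.d k162 k174 k82 1 11))))), (.s k3 k1 0 (.s k86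
  k254 13 (.s k12 k9 2 (.s k8 k4 1 (.s k166 k246 11 (.d k89 k251 k243 12 14))))))] .n)

def t42_255_139 : T TT 256 :=
  (.q k6 [(.s k3 k1 0 (.s k10 k14 1 (.s k5 k15 2 (.s k12 k9 2 (.d k4 k7 k8 0 1))))), (.s k14 k10 1
  (.s k86 k254 13 (.s k166 k246 11 (.s k242 k90 13 (.d k162 k174 k82 1 11))))), (.s k3 k1 0 (.s k86
  k254 13 (.s k12 k9 2 (.s k8 k4 1 (.s k166 k246 11 (.d k89 k251 k243 12 14))))))] .n)

def t42_255_140 : T TT 256 :=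
  (.q k6 [(.s k3 k1 0 (.s k10 k14 1 (.s k5 k15 2 (.s k12 k9 2 (.d k4 k7 k8 0 1))))), (.s k14 k10 1
  (.s k86 k254 13 (.s k166 k246 11 (.s k242 k90 13 (.d k162 k174 k82 1 11))))), (.s k3 k1 0 (.s k86
  k254 13 (.s k12 k9 2 (.s k8 k4 1 (.s k166 k246 11 (.d k89 k251 k243 12 14))))))] .n)

def t42_255_141 : T TT 256 :=
  (.q k6 [(.s k3 k1 0 (.s k10 k14 1 (.s k15 k5 2 (.s k9 k12 2 (.d k11 k8 k7 0 1))))), (.s k14 k10 1
  (.s k86 k254 13 (.s k166 k246 11 (.s k242 k90 13 (.d k162 k174 k82 1 11))))), (.s k3 k1 0 (.s k86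
  k254 13 (.s k12 k9 2 (.s k8 k4 1 (.s k166 k246 11 (.d k89 k251 k243 12 14))))))] .n)

def t42_255_142 : T TT 256 :=
  (.q k6 [(.s k3 k1 0 (.s k12 k9 2 (.s k4 k8 1 (.s k5 k7 0 (.d k10 k14 k15 1 2))))), (.s k14 k10 1
  (.s k86 k254 13 (.s k166 k246 11 (.s k242 k90 13 (.d k162 k174 k82 1 11))))), (.s k3 k1 0 (.s k86
  k254 13 (.s k12 k9 2 (.s k8 k4 1 (.s k166 k246 11 (.d k89 k251 k243 12 14))))))] .n)

def t42_255_143 : T TT 256 :=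
  (.q k6 [(.s k3 k1 0 (.s k10 k14 1 (.s k15 k5 2 (.s k9 k12 2 (.d k11 k8 k7 0 1))))), (.s k14 k10 1
  (.s k86 k254 13 (.s k166 k246 11 (.s k242 k90 13 (.d k162 k174 k82 1 11))))), (.s k3 k1 0 (.s k86
  k254 13 (.s k12 k9 2 (.s k8 k4 1 (.s k166 k246 11 (.d k89 k251 k243 12 14))))))] .n)

def t42_255_144 : T TT 256 :=
  (.q k6 [(.s k3 k1 0 (.s k10 k14 1 (.s k5 k15 2 (.s k12 k9 2 (.d k4 k7 k8 0 1))))), (.s k14 k10 1
  (.s k86 k254 13 (.s k166 k246 11 (.s k242 k90 13 (.d k162 k174 k82 1 11))))), (.s k3 k1 0 (.s k86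
  k254 13 (.s k12 k9 2 (.s k8 k4 1 (.s k166 k246 11 (.d k89 k251 k243 12 14))))))] .n)

def t42_255_145 : T TT 256 :=
  (.q k6 [(.s k3 k1 0 (.s k10 k14 1 (.s k5 k15 2 (.s k12 k9 2 (.d k4 k7 k8 0 1))))), (.s k14 k10 1
  (.s k86 k254 13 (.s k166 k246 11 (.s k242 k90 13 (.d k162 k174 k82 1 11))))), (.s k3 k1 0 (.s k86
  k254 13 (.s k12 k9 2 (.s k8 k4 1 (.s k166 k246 11 (.d k89 k251 k243 12 14))))))] .n)

def t42_255_146 : T TT 256 :=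
  (.q k6 [(.s k3 k1 0 (.s k10 k14 1 (.s k5 k15 2 (.s k12 k9 2 (.d k4 k7 k8 0 1))))), (.s k14 k10 1
  (.s k86 k254 13 (.s k166 k246 11 (.s k242 k90 13 (.d k162 k174 k82 1 11))))), (.s k3 k1 0 (.s k86
  k254 13 (.s k12 k9 2 (.s k8 k4 1 (.s k166 k246 11 (.d k89 k251 k243 12 14))))))] .n)

def t42_255_147 : T TT 256 :=
  (.q k6 [(.s k3 k1 0 (.s k10 k14 1 (.s k5 k15 2 (.s k12 k9 2 (.d k4 k7 k8 0 1))))), (.s k14 k10 1
  (.s k86 k254 13 (.s k166 k246 11 (.s k242 k90 13 (.d k162 k174 k82 1 11))))), (.s k3 k1 0 (.s k86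
  k254 13 (.s k12 k9 2 (.s k8 k4 1 (.s k166 k246 11 (.d k89 k251 k243 12 14))))))] .n)

def t42_255_148 : T TT 256 :=
  (.q k6 [(.s k3 k1 0 (.s k10 k14 1 (.s k5 k15 2 (.s k12 k9 2 (.d k4 k7 k8 0 1))))), (.s k14 k10 1
  (.s k86 k254 13 (.s k166 k246 11 (.s k242 k90 13 (.d k162 k174 k82 1 11))))), (.s k3 k1 0 (.s k86
  k254 13 (.s k12 k9 2 (.s k8 k4 1 (.s k166 k246 11 (.d k89 k251 k243 12 14))))))] .n)

def t42_255_149 : T TT 256 :=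
  (.q k6 [(.s k3 k1 0 (.s k10 k14 1 (.s k5 k15 2 (.s k12 k9 2 (.d k4 k7 k8 0 1))))), (.s k14 k10 1
  (.s k86 k254 13 (.s k166 k246 11 (.s k242 k90 13 (.d k162 k174 k82 1 11))))), (.s k3 k1 0 (.s k86
  k254 13 (.s k12 k9 2 (.s k8 k4 1 (.s k166 k246 11 (.d k89 k251 k243 12 14))))))] .n)

def t42_255_150 : T TT 256 :=
  (.f k86 k254 13 (.l (.s k3 k1 0 (.s k23 k43 5 (.s k149 k212 8 (.s k128 k191 6 (.s k192 k64 7 (.s
  k129 k66 8 (.d k169 k189 k252 5 14)))))))))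

def t42_255_151 : T TT 256 :=
  (.f k86 k254 13 (.l (.s k3 k1 0 (.s k23 k43 5 (.s k149 k212 8 (.s k128 k191 6 (.s k192 k64 7 (.s
  k129 k66 8 (.d k169 k189 k252 5 14)))))))))

def t42_255_152 : T TT 256 :=
  (.f k86 k254 13 (.l (.s k3 k1 0 (.s k23 k43 5 (.s k149 k212 8 (.s k128 k191 6 (.s k192 k64 7 (.s
  k129 k66 8 (.d k169 k189 k252 5 14)))))))))

def t42_255_153 : T TT 256 :=
  (.f k86 k254 13 (.l (.s k3 k1 0 (.s k23 k43 5 (.s k149 k212 8 (.s k128 k191 6 (.s k192 k64 7 (.s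
  k129 k66 8 (.d k169 k189 k252 5 14)))))))))

def t42_255_154 : T TT 256 :=
  (.f k86 k254 13 (.l (.s k3 k1 0 (.s k23 k43 5 (.s k149 k212 8 (.s k128 k191 6 (.s k192 k64 7 (.s
  k129 k66 8 (.d k169 k189 k252 5 14)))))))))

def t42_255_155 : T TT 256 :=
  (.f k86 k254 13 (.l (.s k3 k1 0 (.s k23 k43 5 (.s k149 k212 8 (.s k128 k191 6 (.s k192 k64 7 (.s
  k129 k66 8 (.d k169 k189 k252 5 14)))))))))

def t42_255_156 : T TT 256 :=
  (.f k86 k254 13 (.l (.s k3 k1 0 (.s k23 k43 5 (.s k149 k212 8 (.s k128 k191 6 (.s k192 k64 7 (.s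
  k129 k66 8 (.d k169 k189 k252 5 14)))))))))

def t42_255_157 : T TT 256 :=
  (.f k86 k254 13 (.l (.s k3 k1 0 (.s k23 k43 5 (.s k149 k212 8 (.s k128 k191 6 (.s k192 k64 7 (.s
  k129 k66 8 (.d k169 k189 k252 5 14)))))))))

def t42_255_158 : T TT 256 :=
  (.f k86 k254 13 (.l (.s k3 k1 0 (.s k23 k43 5 (.s k149 k212 8 (.s k128 k191 6 (.s k192 k64 7 (.s
  k129 k66 8 (.d k169 k189 k252 5 14)))))))))

def t42_255_159 : T TT 256 :=
  (.f k86 k254 13 (.l (.s k3 k1 0 (.s k23 k43 5 (.s k149 k212 8 (.s k128 k191 6 (.s k192 k64 7 (.s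
  k129 k66 8 (.d k169 k189 k252 5 14)))))))))

def t42_255_160 : T TT 256 :=
  (.f k86 k254 13 (.l (.s k3 k1 0 (.s k23 k43 5 (.s k149 k212 8 (.s k128 k191 6 (.s k192 k64 7 (.s
  k129 k66 8 (.d k169 k189 k252 5 14)))))))))

def t42_255_161 : T TT 256 :=
  (.f k86 k254 13 (.l (.s k3 k1 0 (.s k23 k43 5 (.s k149 k212 8 (.s k128 k191 6 (.s k192 k64 7 (.s
  k129 k66 8 (.d k169 k189 k252 5 14)))))))))

def t42_255_162 : T TT 256 :=
  (.f k86 k254 13 (.l (.s k3 k1 0 (.s k23 k43 5 (.s k149 k212 8 (.s k128 k191 6 (.s k192 k64 7 (.s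
  k129 k66 8 (.d k169 k189 k252 5 14)))))))))

def t42_255_163 : T TT 256 :=
  (.f k86 k254 13 (.l (.s k3 k1 0 (.s k23 k43 5 (.s k149 k212 8 (.s k128 k191 6 (.s k192 k64 7 (.s
  k129 k66 8 (.d k169 k189 k252 5 14)))))))))

def t42_255_164 : T TT 256 :=
  (.f k86 k254 13 (.l (.s k3 k1 0 (.s k23 k43 5 (.s k149 k212 8 (.s k128 k191 6 (.s k192 k64 7 (.s
  k129 k66 8 (.d k169 k189 k252 5 14)))))))))

def t42_255_165 : T TT 256 :=
  (.f k86 k254 13 (.l (.s k3 k1 0 (.s k23 k43 5 (.s k149 k212 8 (.s k128 k191 6 (.s k192 k64 7 (.s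
  k129 k66 8 (.d k169 k189 k252 5 14)))))))))

def t42_255_166 : T TT 256 :=
  (.f k86 k254 13 (.l (.s k3 k1 0 (.s k23 k43 5 (.s k149 k212 8 (.s k128 k191 6 (.s k192 k64 7 (.s
  k129 k66 8 (.d k169 k189 k252 5 14)))))))))

def t42_255_167 : T TT 256 :=
  (.f k86 k254 13 (.l (.s k3 k1 0 (.s k23 k43 5 (.s k149 k212 8 (.s k128 k191 6 (.s k192 k64 7 (.s
  k129 k66 8 (.d k169 k189 k252 5 14)))))))))

def t42_255_168 : T TT 256 :=
  (.f k86 k254 13 (.l (.s k3 k1 0 (.s k23 k43 5 (.s k149 k212 8 (.s k128 k191 6 (.s k192 k64 7 (.s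
  k129 k66 8 (.d k169 k189 k252 5 14)))))))))

def t42_255_169 : T TT 256 :=
  (.q k6 [(.s k3 k1 0 (.s k10 k14 1 (.s k15 k5 2 (.s k9 k12 2 (.d k11 k8 k7 0 1))))), (.s k14 k10 1
  (.s k86 k254 13 (.s k166 k246 11 (.s k242 k90 13 (.d k162 k174 k82 1 11))))), (.s k3 k1 0 (.s k86
  k254 13 (.s k12 k9 2 (.s k8 k4 1 (.s k166 k246 11 (.d k89 k251 k243 12 14))))))] (.c k43 (.q k232
  [(.s k3 k1 0 (.s k10 k14 1 (.s k15 k5 2 (.s k9 k12 2 (.d k11 k8 k7 0 1))))), (.s k14 k10 1 (.s k86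
  k254 13 (.s k166 k246 11 (.s k242 k90 13 (.d k162 k174 k82 1 11))))), (.s k3 k1 0 (.s k86 k254 13
  (.s k12 k9 2 (.s k8 k4 1 (.s k166 k246 11 (.d k89 k251 k243 12 14))))))] (.c k40 (.q k41 [(.s k3
  k1 0 (.s k10 k14 1 (.s k15 k5 2 (.s k9 k12 2 (.d k11 k8 k7 0 1))))), (.s k14 k10 1 (.s k86 k254 13
  (.s k166 k246 11 (.s k242 k90 13 (.d k162 k174 k82 1 11))))), (.s k3 k1 0 (.s k86 k254 13 (.s k12
  k9 2 (.s k8 k4 1 (.s k166 k246 11 (.d k89 k251 k243 12 14))))))] (.c k253 (.l (.s k10 k14 1 (.s k5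
  k15 2 (.s k4 k7 0 (.s k12 k8 1 (.d k3 k1 k9 0 2)))))) .n)) (.c k41 (.q k40 [(.s k10 k14 1 (.s k5
  k15 2 (.s k4 k7 0 (.s k12 k8 1 (.d k3 k1 k9 0 2))))), (.s k3 k1 0 (.s k60 k20 5 (.s k86 k254 13
  (.s k105 k235 8 (.s k195 k150 14 (.d k67 k131 k124 7 6)))))), (.s k14 k10 1 (.s k86 k254 13 (.s
  k166 k246 11 (.s k242 k90 13 (.d k162 k174 k82 1 11)))))] (.c k105 (.q k233 [(.s k10 k14 1 (.s k5
  k15 2 (.s k4 k7 0 (.s k12 k8 1 (.d k3 k1 k9 0 2))))), (.s k14 k10 1 (.s k86 k254 13 (.s k166 k246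
  11 (.s k242 k90 13 (.d k162 k174 k82 1 11))))), (.s k3 k1 0 (.s k86 k254 13 (.s k12 k9 2 (.s k8 k4
  1 (.s k166 k246 11 (.d k89 k251 k243 12 14))))))] (.c k104 (.q k107 [(.s k195 k151 13 (.s k214
  k252 6 (.s k234 k235 0 (.d k254 k86 k194 13 5)))), (.s k3 k1 0 (.s k10 k14 1 (.s k5 k15 2 (.s k12
  k9 2 (.d k4 k7 k8 0 1)))))] (.c k3 (.l (.s k14 k10 1 (.s k86 k254 13 (.s k166 k246 11 (.s k242 k90
  13 (.d k162 k174 k82 1 11)))))) (.c k253 (.l (.s k254 k86 13 (.s k195 k151 13 (.s k234 k235 0 (.d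
  k214 k252 k194 6 5))))) .n))) (.c k107 (.l (.s k104 k168 7 (.s k3 k1 0 (.s k10 k14 1 (.s k5 k15 2
  (.s k12 k9 2 (.d k4 k7 k8 0 1))))))) .n))) (.c k233 (.l (.s k105 k235 8 (.s k3 k1 0 (.s k60 k20 5
  (.s k86 k254 13 (.s k195 k150 14 (.d k67 k131 k124 7 6))))))) .n))) (.c k253 (.l (.s k10 k14 1 (.s
  k5 k15 2 (.s k4 k7 0 (.s k12 k8 1 (.d k3 k1 k9 0 2)))))) .n)))) (.c k232 (.q k43 [(.d k3 k1 k23 0
  5), (.s k14 k10 1 (.s k86 k254 13 (.s k166 k246 11 (.s k242 k90 13 (.d k162 k174 k82 1 11)))))]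
  .n) (.c k253 (.l (.s k10 k14 1 (.s k5 k15 2 (.s k4 k7 0 (.s k12 k8 1 (.d k3 k1 k9 0 2)))))) .n))))

def t42_255_171 : T TT 256 :=
  (.f k86 k254 13 (.l (.s k3 k1 0 (.s k23 k43 5 (.s k149 k212 8 (.s k128 k191 6 (.s k192 k64 7 (.s
  k129 k66 8 (.d k169 k189 k252 5 14)))))))))

def t42_255_172 : T TT 256 :=
  (.f k86 k254 13 (.l (.s k3 k1 0 (.s k23 k43 5 (.s k149 k212 8 (.s k128 k191 6 (.s k192 k64 7 (.s
  k129 k66 8 (.d k169 k189 k252 5 14)))))))))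

def t42_255_173 : T TT 256 :=
  (.f k86 k254 13 (.l (.s k3 k1 0 (.s k23 k43 5 (.s k149 k212 8 (.s k128 k191 6 (.s k192 k64 7 (.s
  k129 k66 8 (.d k169 k189 k252 5 14)))))))))

def t42_255_174 : T TT 256 :=
  (.f k86 k254 13 (.l (.s k3 k1 0 (.s k23 k43 5 (.s k149 k212 8 (.s k128 k191 6 (.s k192 k64 7 (.s
  k129 k66 8 (.d k169 k189 k252 5 14)))))))))

def t42_255_175 : T TT 256 :=
  (.f k86 k254 13 (.l (.s k3 k1 0 (.s k23 k43 5 (.s k149 k212 8 (.s k128 k191 6 (.s k192 k64 7 (.s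
  k129 k66 8 (.d k169 k189 k252 5 14)))))))))

def t42_255_176 : T TT 256 :=
  (.f k86 k254 13 (.l (.s k3 k1 0 (.s k23 k43 5 (.s k149 k212 8 (.s k128 k191 6 (.s k192 k64 7 (.s
  k129 k66 8 (.d k169 k189 k252 5 14)))))))))

def t42_255_177 : T TT 256 :=
  (.f k86 k254 13 (.l (.s k3 k1 0 (.s k23 k43 5 (.s k149 k212 8 (.s k128 k191 6 (.s k192 k64 7 (.s
  k129 k66 8 (.d k169 k189 k252 5 14)))))))))

def t42_255_178 : T TT 256 :=
  (.f k86 k254 13 (.l (.s k3 k1 0 (.s k23 k43 5 (.s k149 k212 8 (.s k128 k191 6 (.s k192 k64 7 (.s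
  k129 k66 8 (.d k169 k189 k252 5 14)))))))))

def t42_255_179 : T TT 256 :=
  (.f k86 k254 13 (.l (.s k3 k1 0 (.s k23 k43 5 (.s k149 k212 8 (.s k128 k191 6 (.s k192 k64 7 (.s
  k129 k66 8 (.d k169 k189 k252 5 14)))))))))

def t42_255_180 : T TT 256 :=
  (.f k86 k254 13 (.l (.s k3 k1 0 (.s k23 k43 5 (.s k149 k212 8 (.s k128 k191 6 (.s k192 k64 7 (.s
  k129 k66 8 (.d k169 k189 k252 5 14)))))))))

def t42_255_181 : T TT 256 :=
  (.f k86 k254 13 (.l (.s k3 k1 0 (.s k23 k43 5 (.s k149 k212 8 (.s k128 k191 6 (.s k192 k64 7 (.s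
  k129 k66 8 (.d k169 k189 k252 5 14)))))))))

def t42_255_182 : T TT 256 :=
  (.f k86 k254 13 (.l (.s k3 k1 0 (.s k23 k43 5 (.s k149 k212 8 (.s k128 k191 6 (.s k192 k64 7 (.s
  k129 k66 8 (.d k169 k189 k252 5 14)))))))))

def t42_255_183 : T TT 256 :=
  (.f k86 k254 13 (.l (.s k3 k1 0 (.s k23 k43 5 (.s k149 k212 8 (.s k128 k191 6 (.s k192 k64 7 (.s
  k129 k66 8 (.d k169 k189 k252 5 14)))))))))

def t42_255_184 : T TT 256 :=
  (.f k86 k254 13 (.l (.s k3 k1 0 (.s k23 k43 5 (.s k149 k212 8 (.s k128 k191 6 (.s k192 k64 7 (.s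
  k129 k66 8 (.d k169 k189 k252 5 14)))))))))

def t42_255_185 : T TT 256 :=
  (.f k86 k254 13 (.l (.s k3 k1 0 (.s k23 k43 5 (.s k149 k212 8 (.s k128 k191 6 (.s k192 k64 7 (.s
  k129 k66 8 (.d k169 k189 k252 5 14)))))))))

def t42_255_186 : T TT 256 :=
  (.f k86 k254 13 (.l (.s k3 k1 0 (.s k23 k43 5 (.s k149 k212 8 (.s k128 k191 6 (.s k192 k64 7 (.s
  k129 k66 8 (.d k169 k189 k252 5 14)))))))))

def t42_255_187 : T TT 256 :=
  (.f k86 k254 13 (.l (.s k3 k1 0 (.s k23 k43 5 (.s k149 k212 8 (.s k128 k191 6 (.s k192 k64 7 (.s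
  k129 k66 8 (.d k169 k189 k252 5 14)))))))))

def t42_255_188 : T TT 256 :=
  (.f k86 k254 13 (.l (.s k3 k1 0 (.s k23 k43 5 (.s k149 k212 8 (.s k128 k191 6 (.s k192 k64 7 (.s
  k129 k66 8 (.d k169 k189 k252 5 14)))))))))

def t42_255_189 : T TT 256 :=
  (.q k6 [(.s k3 k1 0 (.s k10 k14 1 (.s k5 k15 2 (.s k12 k9 2 (.d k4 k7 k8 0 1))))), (.s k14 k10 1
  (.s k86 k254 13 (.s k166 k246 11 (.s k242 k90 13 (.d k162 k174 k82 1 11))))), (.s k3 k1 0 (.s k86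
  k254 13 (.s k12 k9 2 (.s k8 k4 1 (.s k166 k246 11 (.d k89 k251 k243 12 14))))))] .n)

def t42_255_190 : T TT 256 :=
  (.f k86 k254 13 (.l (.s k3 k1 0 (.s k23 k43 5 (.s k149 k212 8 (.s k128 k191 6 (.s k192 k64 7 (.s
  k129 k66 8 (.d k169 k189 k252 5 14)))))))))

def t42_255_191 : T TT 256 :=
  (.q k6 [(.s k3 k1 0 (.s k10 k14 1 (.s k5 k15 2 (.s k12 k9 2 (.d k4 k7 k8 0 1))))), (.s k14 k10 1
  (.s k86 k254 13 (.s k166 k246 11 (.s k242 k90 13 (.d k162 k174 k82 1 11))))), (.s k3 k1 0 (.s k86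
  k254 13 (.s k12 k9 2 (.s k8 k4 1 (.s k166 k246 11 (.d k89 k251 k243 12 14))))))] .n)

def t42_255_192 : T TT 256 :=
  (.q k6 [(.s k3 k1 0 (.s k10 k14 1 (.s k5 k15 2 (.s k12 k9 2 (.d k4 k7 k8 0 1))))), (.s k14 k10 1
  (.s k86 k254 13 (.s k166 k246 11 (.s k242 k90 13 (.d k162 k174 k82 1 11))))), (.s k3 k1 0 (.s k86
  k254 13 (.s k12 k9 2 (.s k8 k4 1 (.s k166 k246 11 (.d k89 k251 k243 12 14))))))] (.c k213 (.q k234
  [(.s k3 k1 0 (.s k10 k14 1 (.s k5 k15 2 (.s k12 k9 2 (.d k4 k7 k8 0 1))))), (.s k14 k10 1 (.s k86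
  k254 13 (.s k166 k246 11 (.s k242 k90 13 (.d k162 k174 k82 1 11))))), (.s k3 k1 0 (.s k86 k254 13
  (.s k12 k9 2 (.s k8 k4 1 (.s k166 k246 11 (.d k89 k251 k243 12 14))))))] .n) (.c k234 (.q k213
  [(.s k3 k1 0 (.s k10 k14 1 (.s k5 k15 2 (.s k12 k9 2 (.d k4 k7 k8 0 1))))), (.s k14 k10 1 (.s k86
  k254 13 (.s k166 k246 11 (.s k242 k90 13 (.d k162 k174 k82 1 11))))), (.s k3 k1 0 (.s k86 k254 13
  (.s k12 k9 2 (.s k8 k4 1 (.s k166 k246 11 (.d k89 k251 k243 12 14))))))] .n) .n)))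

def t42_255_193 : T TT 256 :=
  (.q k6 [(.s k3 k1 0 (.s k10 k14 1 (.s k5 k15 2 (.s k12 k9 2 (.d k4 k7 k8 0 1))))), (.s k14 k10 1
  (.s k86 k254 13 (.s k166 k246 11 (.s k242 k90 13 (.d k162 k174 k82 1 11))))), (.s k3 k1 0 (.s k86
  k254 13 (.s k12 k9 2 (.s k8 k4 1 (.s k166 k246 11 (.d k89 k251 k243 12 14))))))] .n)

def t42_255_194 : T TT 256 :=
  (.f k86 k254 13 (.l (.s k3 k1 0 (.s k23 k43 5 (.s k149 k212 8 (.s k128 k191 6 (.s k192 k64 7 (.s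
  k129 k66 8 (.d k169 k189 k252 5 14)))))))))

def t42_255_195 : T TT 256 :=
  (.f k86 k254 13 (.l (.s k3 k1 0 (.s k23 k43 5 (.s k149 k212 8 (.s k128 k191 6 (.s k192 k64 7 (.s
  k129 k66 8 (.d k169 k189 k252 5 14)))))))))

def t42_255_196 : T TT 256 :=
  (.f k86 k254 13 (.l (.s k3 k1 0 (.s k23 k43 5 (.s k149 k212 8 (.s k128 k191 6 (.s k192 k64 7 (.s
  k129 k66 8 (.d k169 k189 k252 5 14)))))))))

def t42_255_197 : T TT 256 :=
  (.f k86 k254 13 (.l (.s k3 k1 0 (.s k23 k43 5 (.s k149 k212 8 (.s k128 k191 6 (.s k192 k64 7 (.s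
  k129 k66 8 (.d k169 k189 k252 5 14)))))))))

def t42_255_198 : T TT 256 :=
  (.f k86 k254 13 (.l (.s k3 k1 0 (.s k23 k43 5 (.s k149 k212 8 (.s k128 k191 6 (.s k192 k64 7 (.s
  k129 k66 8 (.d k169 k189 k252 5 14)))))))))

def t42_255_199 : T TT 256 :=
  (.f k86 k254 13 (.l (.s k3 k1 0 (.s k23 k43 5 (.s k149 k212 8 (.s k128 k191 6 (.s k192 k64 7 (.s
  k129 k66 8 (.d k169 k189 k252 5 14)))))))))

def t42_255_200 : T TT 256 :=
  (.f k86 k254 13 (.l (.s k3 k1 0 (.s k23 k43 5 (.s k149 k212 8 (.s k128 k191 6 (.s k192 k64 7 (.s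
  k129 k66 8 (.d k169 k189 k252 5 14)))))))))

def t42_255_201 : T TT 256 :=
  (.f k86 k254 13 (.l (.s k3 k1 0 (.s k23 k43 5 (.s k149 k212 8 (.s k128 k191 6 (.s k192 k64 7 (.s
  k129 k66 8 (.d k169 k189 k252 5 14)))))))))

def t42_255_202 : T TT 256 :=
  (.f k86 k254 13 (.l (.s k3 k1 0 (.s k23 k43 5 (.s k149 k212 8 (.s k128 k191 6 (.s k192 k64 7 (.s
  k129 k66 8 (.d k169 k189 k252 5 14)))))))))

def t42_255_203 : T TT 256 :=
  (.f k86 k254 13 (.l (.s k3 k1 0 (.s k23 k43 5 (.s k149 k212 8 (.s k128 k191 6 (.s k192 k64 7 (.s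
  k129 k66 8 (.d k169 k189 k252 5 14)))))))))

def t42_255_204 : T TT 256 :=
  (.f k86 k254 13 (.l (.s k3 k1 0 (.s k23 k43 5 (.s k149 k212 8 (.s k128 k191 6 (.s k192 k64 7 (.s
  k129 k66 8 (.d k169 k189 k252 5 14)))))))))

def t42_255_205 : T TT 256 :=
  (.f k86 k254 13 (.l (.s k3 k1 0 (.s k23 k43 5 (.s k149 k212 8 (.s k128 k191 6 (.s k192 k64 7 (.s
  k129 k66 8 (.d k169 k189 k252 5 14)))))))))

def t42_255_206 : T TT 256 :=
  (.f k86 k254 13 (.l (.s k3 k1 0 (.s k23 k43 5 (.s k149 k212 8 (.s k128 k191 6 (.s k192 k64 7 (.s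
  k129 k66 8 (.d k169 k189 k252 5 14)))))))))

def t42_255_207 : T TT 256 :=
  (.f k86 k254 13 (.l (.s k3 k1 0 (.s k23 k43 5 (.s k149 k212 8 (.s k128 k191 6 (.s k192 k64 7 (.s
  k129 k66 8 (.d k169 k189 k252 5 14)))))))))

def t42_255_208 : T TT 256 :=
  (.f k86 k254 13 (.l (.s k3 k1 0 (.s k23 k43 5 (.s k149 k212 8 (.s k128 k191 6 (.s k192 k64 7 (.s
  k129 k66 8 (.d k169 k189 k252 5 14)))))))))

def t42_255_209 : T TT 256 :=
  (.f k86 k254 13 (.l (.s k3 k1 0 (.s k23 k43 5 (.s k149 k212 8 (.s k128 k191 6 (.s k192 k64 7 (.s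
  k129 k66 8 (.d k169 k189 k252 5 14)))))))))

def t42_255_210 : T TT 256 :=
  (.f k86 k254 13 (.l (.s k3 k1 0 (.s k23 k43 5 (.s k149 k212 8 (.s k128 k191 6 (.s k192 k64 7 (.s
  k129 k66 8 (.d k169 k189 k252 5 14)))))))))

def t42_255_211 : T TT 256 :=
  (.f k86 k254 13 (.l (.s k3 k1 0 (.s k23 k43 5 (.s k149 k212 8 (.s k128 k191 6 (.s k192 k64 7 (.s
  k129 k66 8 (.d k169 k189 k252 5 14)))))))))

def t42_255_212 : T TT 256 :=
  (.q k6 [(.s k3 k1 0 (.s k10 k14 1 (.s k5 k15 2 (.s k12 k9 2 (.d k4 k7 k8 0 1))))), (.s k14 k10 1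
  (.s k86 k254 13 (.s k166 k246 11 (.s k242 k90 13 (.d k162 k174 k82 1 11))))), (.s k3 k1 0 (.s k86
  k254 13 (.s k12 k9 2 (.s k8 k4 1 (.s k166 k246 11 (.d k89 k251 k243 12 14))))))] .n)

def t42_255_213 : T TT 256 :=
  (.f k86 k254 13 (.l (.s k3 k1 0 (.s k23 k43 5 (.s k149 k212 8 (.s k128 k191 6 (.s k192 k64 7 (.s
  k129 k66 8 (.d k169 k189 k252 5 14)))))))))

def t42_255_214 : T TT 256 :=
  (.f k86 k254 13 (.l (.s k3 k1 0 (.s k23 k43 5 (.s k149 k212 8 (.s k128 k191 6 (.s k192 k64 7 (.s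
  k129 k66 8 (.d k169 k189 k252 5 14)))))))))

def t42_255_215 : T TT 256 :=
  (.f k86 k254 13 (.l (.s k3 k1 0 (.s k23 k43 5 (.s k149 k212 8 (.s k128 k191 6 (.s k192 k64 7 (.s
  k129 k66 8 (.d k169 k189 k252 5 14)))))))))

def t42_255_216 : T TT 256 :=
  (.f k86 k254 13 (.l (.s k3 k1 0 (.s k23 k43 5 (.s k149 k212 8 (.s k128 k191 6 (.s k192 k64 7 (.s
  k129 k66 8 (.d k169 k189 k252 5 14)))))))))

def t42_255_217 : T TT 256 :=
  (.f k86 k254 13 (.l (.s k3 k1 0 (.s k23 k43 5 (.s k149 k212 8 (.s k128 k191 6 (.s k192 k64 7 (.s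
  k129 k66 8 (.d k169 k189 k252 5 14)))))))))

def t42_255_218 : T TT 256 :=
  (.f k86 k254 13 (.l (.s k3 k1 0 (.s k23 k43 5 (.s k149 k212 8 (.s k128 k191 6 (.s k192 k64 7 (.s
  k129 k66 8 (.d k169 k189 k252 5 14)))))))))

def t42_255_219 : T TT 256 :=
  (.f k86 k254 13 (.l (.s k3 k1 0 (.s k23 k43 5 (.s k149 k212 8 (.s k128 k191 6 (.s k192 k64 7 (.s
  k129 k66 8 (.d k169 k189 k252 5 14)))))))))

def t42_255_220 : T TT 256 :=
  (.f k86 k254 13 (.l (.s k3 k1 0 (.s k23 k43 5 (.s k149 k212 8 (.s k128 k191 6 (.s k192 k64 7 (.s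
  k129 k66 8 (.d k169 k189 k252 5 14)))))))))

def t42_255_221 : T TT 256 :=
  (.f k86 k254 13 (.l (.s k3 k1 0 (.s k23 k43 5 (.s k149 k212 8 (.s k128 k191 6 (.s k192 k64 7 (.s
  k129 k66 8 (.d k169 k189 k252 5 14)))))))))

def t42_255_222 : T TT 256 :=
  (.f k86 k254 13 (.l (.s k3 k1 0 (.s k23 k43 5 (.s k149 k212 8 (.s k128 k191 6 (.s k192 k64 7 (.s
  k129 k66 8 (.d k169 k189 k252 5 14)))))))))

def t42_255_223 : T TT 256 :=
  (.f k86 k254 13 (.l (.s k3 k1 0 (.s k23 k43 5 (.s k149 k212 8 (.s k128 k191 6 (.s k192 k64 7 (.s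
  k129 k66 8 (.d k169 k189 k252 5 14)))))))))

def t42_255_224 : T TT 256 :=
  (.f k86 k254 13 (.l (.s k3 k1 0 (.s k23 k43 5 (.s k149 k212 8 (.s k128 k191 6 (.s k192 k64 7 (.s
  k129 k66 8 (.d k169 k189 k252 5 14)))))))))

def t42_255_225 : T TT 256 :=
  (.f k86 k254 13 (.l (.s k3 k1 0 (.s k23 k43 5 (.s k149 k212 8 (.s k128 k191 6 (.s k192 k64 7 (.s
  k129 k66 8 (.d k169 k189 k252 5 14)))))))))

def t42_255_226 : T TT 256 :=
  (.f k86 k254 13 (.l (.s k3 k1 0 (.s k23 k43 5 (.s k149 k212 8 (.s k128 k191 6 (.s k192 k64 7 (.s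
  k129 k66 8 (.d k169 k189 k252 5 14)))))))))

def t42_255_227 : T TT 256 :=
  (.f k86 k254 13 (.l (.s k3 k1 0 (.s k23 k43 5 (.s k149 k212 8 (.s k128 k191 6 (.s k192 k64 7 (.s
  k129 k66 8 (.d k169 k189 k252 5 14)))))))))

def t42_255_228 : T TT 256 :=
  (.f k86 k254 13 (.l (.s k3 k1 0 (.s k23 k43 5 (.s k149 k212 8 (.s k128 k191 6 (.s k192 k64 7 (.s
  k129 k66 8 (.d k169 k189 k252 5 14)))))))))

def t42_255_229 : T TT 256 :=
  (.f k86 k254 13 (.l (.s k3 k1 0 (.s k23 k43 5 (.s k149 k212 8 (.s k128 k191 6 (.s k192 k64 7 (.s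
  k129 k66 8 (.d k169 k189 k252 5 14)))))))))

def t42_255_230 : T TT 256 :=
  (.f k86 k254 13 (.l (.s k3 k1 0 (.s k23 k43 5 (.s k149 k212 8 (.s k128 k191 6 (.s k192 k64 7 (.s
  k129 k66 8 (.d k169 k189 k252 5 14)))))))))

def t42_255_231 : T TT 256 :=
  (.f k86 k254 13 (.l (.s k3 k1 0 (.s k23 k43 5 (.s k149 k212 8 (.s k128 k191 6 (.s k192 k64 7 (.s
  k129 k66 8 (.d k169 k189 k252 5 14)))))))))

def t42_255_232 : T TT 256 :=
  (.q k6 [(.s k3 k1 0 (.s k10 k14 1 (.s k5 k15 2 (.s k12 k9 2 (.d k4 k7 k8 0 1))))), (.s k14 k10 1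
  (.s k86 k254 13 (.s k166 k246 11 (.s k242 k90 13 (.d k162 k174 k82 1 11))))), (.s k3 k1 0 (.s k86
  k254 13 (.s k12 k9 2 (.s k8 k4 1 (.s k166 k246 11 (.d k89 k251 k243 12 14))))))] (.c k43 (.q k169
  [(.s k3 k1 0 (.d k86 k254 k252 13 14)), (.s k3 k1 0 (.s k10 k14 1 (.s k5 k15 2 (.s k12 k9 2 (.d k4
  k7 k8 0 1))))), (.s k14 k10 1 (.s k86 k254 13 (.s k166 k246 11 (.s k242 k90 13 (.d k162 k174 k82 1
  11)))))] (.c k40 (.q k41 [(.s k3 k1 0 (.d k86 k254 k252 13 14)), (.s k3 k1 0 (.s k10 k14 1 (.s k5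
  k15 2 (.s k12 k9 2 (.d k4 k7 k8 0 1))))), (.s k14 k10 1 (.s k86 k254 13 (.s k166 k246 11 (.s k242
  k90 13 (.d k162 k174 k82 1 11)))))] (.c k104 (.l (.s k168 k171 0 (.s k3 k1 0 (.d k86 k254 k252 13
  14)))) (.c k168 (.q k104 [(.s k3 k1 0 (.d k86 k254 k252 13 14)), (.s k3 k1 0 (.s k10 k14 1 (.s k5
  k15 2 (.s k12 k9 2 (.d k4 k7 k8 0 1))))), (.s k14 k10 1 (.s k86 k254 13 (.s k166 k246 11 (.s k242
  k90 13 (.d k162 k174 k82 1 11)))))] .n) .n))) (.c k41 (.q k40 [(.s k86 k254 13 (.d k3 k252 k1 14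
  0)), (.s k3 k1 0 (.s k10 k14 1 (.s k5 k15 2 (.s k12 k9 2 (.d k4 k7 k8 0 1))))), (.s k14 k10 1 (.s
  k86 k254 13 (.s k166 k246 11 (.s k242 k90 13 (.d k162 k174 k82 1 11)))))] .n) .n))) (.c k169 (.q
  k43 [(.d k3 k1 k23 0 5), (.s k14 k10 1 (.s k86 k254 13 (.s k166 k246 11 (.s k242 k90 13 (.d k162
  k174 k82 1 11)))))] .n) .n)))

def t42_255_233 : T TT 256 :=
  (.q k6 [(.s k3 k1 0 (.s k10 k14 1 (.s k5 k15 2 (.s k12 k9 2 (.d k4 k7 k8 0 1))))), (.s k14 k10 1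
  (.s k86 k254 13 (.s k166 k246 11 (.s k242 k90 13 (.d k162 k174 k82 1 11))))), (.s k3 k1 0 (.s k86
  k254 13 (.s k12 k9 2 (.s k8 k4 1 (.s k166 k246 11 (.d k89 k251 k243 12 14))))))] .n)

def t42_255_234 : T TT 256 :=
  (.f k86 k254 13 (.l (.s k3 k1 0 (.s k23 k43 5 (.s k149 k212 8 (.s k128 k191 6 (.s k192 k64 7 (.s
  k129 k66 8 (.d k169 k189 k252 5 14)))))))))

def t42_255_235 : T TT 256 :=
  (.f k86 k254 13 (.l (.s k3 k1 0 (.s k23 k43 5 (.s k149 k212 8 (.s k128 k191 6 (.s k192 k64 7 (.s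
  k129 k66 8 (.d k169 k189 k252 5 14)))))))))

def t42_255_236 : T TT 256 :=
  (.f k86 k254 13 (.l (.s k3 k1 0 (.s k23 k43 5 (.s k149 k212 8 (.s k128 k191 6 (.s k192 k64 7 (.s
  k129 k66 8 (.d k169 k189 k252 5 14)))))))))

def t42_255_237 : T TT 256 :=
  (.f k86 k254 13 (.l (.s k3 k1 0 (.s k23 k43 5 (.s k149 k212 8 (.s k128 k191 6 (.s k192 k64 7 (.s
  k129 k66 8 (.d k169 k189 k252 5 14)))))))))

def t42_255_238 : T TT 256 :=
  (.f k86 k254 13 (.l (.s k3 k1 0 (.s k23 k43 5 (.s k149 k212 8 (.s k128 k191 6 (.s k192 k64 7 (.s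
  k129 k66 8 (.d k169 k189 k252 5 14)))))))))

def t42_255_239 : T TT 256 :=
  (.f k86 k254 13 (.l (.s k3 k1 0 (.s k23 k43 5 (.s k149 k212 8 (.s k128 k191 6 (.s k192 k64 7 (.s
  k129 k66 8 (.d k169 k189 k252 5 14)))))))))

def t42_255_240 : T TT 256 :=
  (.f k86 k254 13 (.l (.s k3 k1 0 (.s k23 k43 5 (.s k149 k212 8 (.s k128 k191 6 (.s k192 k64 7 (.s
  k129 k66 8 (.d k169 k189 k252 5 14)))))))))

def t42_255_241 : T TT 256 :=
  (.f k86 k254 13 (.l (.s k3 k1 0 (.s k23 k43 5 (.s k149 k212 8 (.s k128 k191 6 (.s k192 k64 7 (.s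
  k129 k66 8 (.d k169 k189 k252 5 14)))))))))

def t42_255_242 : T TT 256 :=
  (.f k86 k254 13 (.l (.s k3 k1 0 (.s k23 k43 5 (.s k149 k212 8 (.s k128 k191 6 (.s k192 k64 7 (.s
  k129 k66 8 (.d k169 k189 k252 5 14)))))))))

def t42_255_243 : T TT 256 :=
  (.f k86 k254 13 (.l (.s k3 k1 0 (.s k23 k43 5 (.s k149 k212 8 (.s k128 k191 6 (.s k192 k64 7 (.s
  k129 k66 8 (.d k169 k189 k252 5 14)))))))))

def t42_255_244 : T TT 256 :=
  (.f k86 k254 13 (.l (.s k3 k1 0 (.s k23 k43 5 (.s k149 k212 8 (.s k128 k191 6 (.s k192 k64 7 (.s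
  k129 k66 8 (.d k169 k189 k252 5 14)))))))))

def t42_255_245 : T TT 256 :=
  (.f k86 k254 13 (.l (.s k3 k1 0 (.s k23 k43 5 (.s k149 k212 8 (.s k128 k191 6 (.s k192 k64 7 (.s
  k129 k66 8 (.d k169 k189 k252 5 14)))))))))

def t42_255_246 : T TT 256 :=
  (.f k86 k254 13 (.l (.s k3 k1 0 (.s k23 k43 5 (.s k149 k212 8 (.s k128 k191 6 (.s k192 k64 7 (.s
  k129 k66 8 (.d k169 k189 k252 5 14)))))))))

def t42_255_247 : T TT 256 :=
  (.f k86 k254 13 (.l (.s k3 k1 0 (.s k23 k43 5 (.s k149 k212 8 (.s k128 k191 6 (.s k192 k64 7 (.s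
  k129 k66 8 (.d k169 k189 k252 5 14)))))))))

def t42_255_248 : T TT 256 :=
  (.f k86 k254 13 (.l (.s k3 k1 0 (.s k23 k43 5 (.s k149 k212 8 (.s k128 k191 6 (.s k192 k64 7 (.s
  k129 k66 8 (.d k169 k189 k252 5 14)))))))))

def t42_255_249 : T TT 256 :=
  (.f k86 k254 13 (.l (.s k3 k1 0 (.s k23 k43 5 (.s k149 k212 8 (.s k128 k191 6 (.s k192 k64 7 (.s
  k129 k66 8 (.d k169 k189 k252 5 14)))))))))

def t42_255_250 : T TT 256 :=
  (.f k86 k254 13 (.l (.s k3 k1 0 (.s k23 k43 5 (.s k149 k212 8 (.s k128 k191 6 (.s k192 k64 7 (.s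
  k129 k66 8 (.d k169 k189 k252 5 14)))))))))

def t42_255_251 : T TT 256 :=
  (.f k86 k254 13 (.l (.s k3 k1 0 (.s k23 k43 5 (.s k149 k212 8 (.s k128 k191 6 (.s k192 k64 7 (.s
  k129 k66 8 (.d k169 k189 k252 5 14)))))))))

def t42_255_252 : T TT 256 :=
  (.q k195 [(.s k3 k1 0 (.s k130 k65 8 (.s k131 k67 7 (.s k129 k128 0 (.d k66 k194 k192 7 8))))),
  (.s k3 k1 0 (.s k43 k23 5 (.s k107 k151 13 (.s k235 k171 7 (.s k105 k40 8 (.s k150 k60 14 (.d k130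
  k190 k65 5 8))))))), (.s k130 k65 8 (.s k194 k66 7 (.s k151 k107 13 (.s k150 k190 5 (.s k149 k148
  0 (.s k128 k191 6 (.d k192 k64 k193 7 0)))))))] (.c k65 (.l (.s k3 k1 0 (.s k131 k67 7 (.s k151
  k107 13 (.s k191 k171 5 (.s k128 k149 6 (.s k129 k130 0 (.d k192 k64 k66 7 8)))))))) (.c k130 (.q
  k6 [(.s k3 k1 0 (.s k10 k14 1 (.s k5 k15 2 (.s k12 k9 2 (.d k4 k7 k8 0 1))))), (.s k10 k14 1 (.s
  k15 k5 2 (.s k90 k250 11 (.s k75 k135 9 (.s k105 k120 4 (.s k40 k235 8 (.d k60 k20 k150 5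
  14))))))), (.s k3 k1 0 (.s k12 k9 2 (.s k131 k67 7 (.s k134 k73 10 (.s k70 k198 7 (.d k137 k140
  k204 2 10))))))] (.c k5 (.f k86 k254 13 (.q k253 [(.s k166 k246 11 (.s k162 k174 1 (.s k242 k82 11
  (.d k14 k10 k90 1 13)))), (.s k3 k1 0 (.s k67 k131 7 (.s k105 k124 6 (.s k40 k235 8 (.d k60 k20
  k150 5 14)))))] .n)) (.c k253 (.l (.s k254 k86 13 (.s k3 k1 0 (.s k10 k14 1 (.s k5 k15 2 (.s k12
  k9 2 (.d k4 k7 k8 0 1))))))) (.c k254 (.q k253 [(.s k3 k1 0 (.s k12 k9 2 (.s k4 k8 1 (.s k5 k7 0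
  (.d k10 k14 k15 1 2))))), (.s k10 k14 1 (.s k15 k5 2 (.s k90 k250 11 (.s k75 k135 9 (.s k105 k120
  4 (.s k40 k235 8 (.d k60 k20 k150 5 14))))))), (.s k3 k1 0 (.s k12 k9 2 (.s k131 k67 7 (.s k134
  k73 10 (.s k70 k198 7 (.d k137 k140 k204 2 10))))))] (.c k5 (.q k86 [(.s k166 k246 11 (.s k162
  k174 1 (.s k242 k82 11 (.d k14 k10 k90 1 13)))), (.s k3 k1 0 (.s k67 k131 7 (.s k105 k124 6 (.s
  k40 k235 8 (.d k60 k20 k150 5 14)))))] .n) .n)) .n)))) (.c k253 (.l (.s k254 k86 13 (.s k3 k1 0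
  (.s k130 k65 8 (.s k66 k194 7 (.s k129 k192 8 (.d k131 k128 k67 0 7))))))) (.c k254 (.q k253 [(.s
  k3 k1 0 (.s k130 k65 8 (.s k131 k67 7 (.s k129 k128 0 (.d k66 k194 k192 7 8))))), (.s k1 k3 0 (.s
  k130 k65 8 (.s k150 k190 5 (.s k60 k105 14 (.s k20 k40 5 (.d k85 k169 k215 13 8)))))), (.s k130
  k65 8 (.s k194 k66 7 (.s k151 k107 13 (.s k150 k190 5 (.s k149 k148 0 (.s k128 k191 6 (.d k192 k64
  k193 7 0)))))))] (.c k65 (.l (.s k3 k1 0 (.s k131 k67 7 (.s k151 k107 13 (.s k191 k171 5 (.s k128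
  k149 6 (.s k129 k130 0 (.d k192 k64 k66 7 8)))))))) (.c k130 (.q k6 [(.s k3 k1 0 (.s k12 k9 2 (.s
  k4 k8 1 (.s k5 k7 0 (.d k10 k14 k15 1 2))))), (.s k10 k14 1 (.s k15 k5 2 (.s k90 k250 11 (.s k75
  k135 9 (.s k105 k120 4 (.s k40 k235 8 (.d k60 k20 k150 5 14))))))), (.s k3 k1 0 (.s k12 k9 2 (.s
  k131 k67 7 (.s k134 k73 10 (.s k70 k198 7 (.d k137 k140 k204 2 10))))))] (.c k5 (.q k86 [(.s k166
  k246 11 (.s k162 k174 1 (.s k242 k82 11 (.d k14 k10 k90 1 13)))), (.s k3 k1 0 (.s k67 k131 7 (.s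
  k105 k124 6 (.s k40 k235 8 (.d k60 k20 k150 5 14)))))] .n) .n)) .n))) .n)))))

def t42_255_253 : T TT 256 :=
  (.q k195 [(.s k3 k1 0 (.s k43 k23 5 (.s k107 k151 13 (.s k171 k235 7 (.s k169 k168 0 (.d k86 k254
  k252 13 14)))))), (.s k130 k65 8 (.s k194 k66 7 (.s k151 k107 13 (.s k150 k190 5 (.s k149 k148 0
  (.s k128 k191 6 (.d k192 k64 k193 7 0))))))), (.s k3 k1 0 (.s k130 k65 8 (.s k66 k194 7 (.s k129
  k192 8 (.d k131 k128 k67 0 7)))))] (.c k252 (.l (.s k254 k86 13 (.s k3 k1 0 (.s k130 k65 8 (.s k66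
  k194 7 (.s k129 k192 8 (.d k131 k128 k67 0 7))))))) (.c k254 (.q k252 [(.s k3 k1 0 (.s k168 k84 13
  (.d k169 k171 k86 0 14))), (.s k130 k65 8 (.s k84 k168 13 (.s k151 k107 13 (.s k150 k190 5 (.s
  k148 k149 0 (.s k20 k212 7 (.d k60 k105 k40 14 5))))))), (.s k3 k1 0 (.s k130 k65 8 (.s k66 k194 7
  (.s k129 k192 8 (.d k131 k128 k67 0 7)))))] .n) .n)))

def t42_255_254 : T TT 256 :=
  (.q k195 [(.s k3 k1 0 (.s k130 k65 8 (.s k131 k67 7 (.s k129 k128 0 (.d k66 k194 k192 7 8))))),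
  (.s k3 k1 0 (.s k43 k23 5 (.s k107 k151 13 (.s k235 k171 7 (.s k105 k40 8 (.s k150 k60 14 (.d k130
  k190 k65 5 8))))))), (.s k130 k65 8 (.s k194 k66 7 (.s k151 k107 13 (.s k150 k190 5 (.s k149 k148
  0 (.s k128 k191 6 (.d k192 k64 k193 7 0)))))))] (.c k65 (.l (.s k3 k1 0 (.s k131 k67 7 (.s k151
  k107 13 (.s k191 k171 5 (.s k128 k149 6 (.s k129 k130 0 (.d k192 k64 k66 7 8)))))))) (.c k130 (.q
  k252 [(.s k3 k1 0 (.s k168 k84 13 (.d k169 k171 k86 0 14))), (.s k3 k1 0 (.s k67 k131 7 (.s k86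
  k169 14 (.s k105 k124 6 (.s k40 k235 8 (.d k60 k150 k20 14 5)))))), (.s k168 k84 13 (.s k169 k171
  0 (.s k233 k214 6 (.s k105 k41 7 (.s k40 k235 8 (.d k60 k20 k150 5 14))))))] (.c k3 (.l (.s k168
  k84 13 (.s k151 k107 13 (.s k189 k126 8 (.s k171 k169 0 (.s k191 k131 5 (.s k128 k149 6 (.d k188
  k190 k148 0 5)))))))) (.c k169 (.q k232 [(.s k168 k84 13 (.s k40 k104 7 (.s k105 k235 8 (.d k60
  k20 k150 5 14)))), (.s k3 k1 0 (.s k43 k23 5 (.s k107 k151 13 (.s k235 k171 7 (.d k233 k234 k214 0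
  6))))), (.s k168 k84 13 (.s k104 k40 7 (.s k192 k212 5 (.s k128 k64 7 (.d k148 k188 k60 5 13)))))]
  .n) .n))) (.c k252 (.q k253 [(.s k3 k1 0 (.s k130 k65 8 (.s k131 k67 7 (.s k129 k128 0 (.d k66
  k194 k192 7 8))))), (.s k1 k3 0 (.s k130 k65 8 (.s k150 k190 5 (.s k60 k105 14 (.s k20 k40 5 (.d
  k85 k169 k215 13 8)))))), (.s k130 k65 8 (.s k194 k66 7 (.s k151 k107 13 (.s k150 k190 5 (.s k149
  k148 0 (.s k128 k191 6 (.d k192 k64 k193 7 0)))))))] (.c k65 (.l (.s k3 k1 0 (.s k131 k67 7 (.s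
  k151 k107 13 (.s k191 k171 5 (.s k128 k149 6 (.s k129 k130 0 (.d k192 k64 k66 7 8)))))))) (.c k130
  (.q k6 [(.s k3 k1 0 (.s k12 k9 2 (.s k4 k8 1 (.s k5 k7 0 (.d k10 k14 k15 1 2))))), (.s k10 k14 1
  (.s k15 k5 2 (.s k90 k250 11 (.s k75 k135 9 (.s k105 k120 4 (.s k40 k235 8 (.d k60 k20 k150 5
  14))))))), (.s k3 k1 0 (.s k12 k9 2 (.s k131 k67 7 (.s k134 k73 10 (.s k70 k198 7 (.d k137 k140
  k204 2 10))))))] (.c k5 (.q k86 [(.s k166 k246 11 (.s k162 k174 1 (.s k242 k82 11 (.d k14 k10 k90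
  1 13)))), (.s k3 k1 0 (.s k67 k131 7 (.s k105 k124 6 (.s k40 k235 8 (.d k60 k20 k150 5 14)))))]
  .n) .n)) .n))) (.c k253 (.q k252 [(.s k3 k1 0 (.s k168 k84 13 (.d k169 k171 k86 0 14))), (.s k130
  k65 8 (.s k84 k168 13 (.s k151 k107 13 (.s k150 k190 5 (.s k148 k149 0 (.s k20 k212 7 (.d k60 k105
  k40 14 5))))))), (.s k3 k1 0 (.s k130 k65 8 (.s k66 k194 7 (.s k129 k192 8 (.d k131 k128 k67 0
  7)))))] .n) .n)))))

def t42_255 : T TT 256 :=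
  (.q k2 [] (.c k1 t42_255_1 (.c k3 t42_255_3 (.c k4 t42_255_4 (.c k5 t42_255_5 (.c k6 t42_255_6 (.c
  k7 t42_255_7 (.c k8 t42_255_8 (.c k9 t42_255_9 (.c k10 t42_255_10 (.c k11 t42_255_11 (.c k12
  t42_255_12 (.c k13 t42_255_13 (.c k14 t42_255_14 (.c k15 t42_255_15 (.c k16 t42_255_16 (.c k17
  t42_255_17 (.c k18 t42_255_18 (.c k19 t42_255_19 (.c k20 t42_255_20 (.c k21 t42_255_21 (.c k22
  t42_255_22 (.c k23 t42_255_23 (.c k24 t42_255_24 (.c k25 t42_255_25 (.c k26 t42_255_26 (.c k27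
  t42_255_27 (.c k28 t42_255_28 (.c k29 t42_255_29 (.c k30 t42_255_30 (.c k31 t42_255_31 (.c k32
  t42_255_32 (.c k33 t42_255_33 (.c k34 t42_255_34 (.c k35 t42_255_35 (.c k36 t42_255_36 (.c k37
  t42_255_37 (.c k38 t42_255_38 (.c k39 t42_255_39 (.c k40 t42_255_40 (.c k41 t42_255_41 (.c k43
  t42_255_43 (.c k44 t42_255_44 (.c k45 t42_255_45 (.c k46 t42_255_46 (.c k47 t42_255_47 (.c k48
  t42_255_48 (.c k49 t42_255_49 (.c k50 t42_255_50 (.c k51 t42_255_51 (.c k52 t42_255_52 (.c k53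
  t42_255_53 (.c k54 t42_255_54 (.c k55 t42_255_55 (.c k56 t42_255_56 (.c k57 t42_255_57 (.c k58
  t42_255_58 (.c k59 t42_255_59 (.c k60 t42_255_60 (.c k61 t42_255_61 (.c k62 t42_255_62 (.c k64
  t42_255_64 (.c k65 t42_255_65 (.c k66 t42_255_66 (.c k67 t42_255_67 (.c k68 t42_255_68 (.c k69
  t42_255_69 (.c k70 t42_255_70 (.c k71 t42_255_71 (.c k72 t42_255_72 (.c k73 t42_255_73 (.c k74
  t42_255_74 (.c k75 t42_255_75 (.c k76 t42_255_76 (.c k77 t42_255_77 (.c k78 t42_255_78 (.c k79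
  t42_255_79 (.c k80 t42_255_80 (.c k81 t42_255_81 (.c k82 t42_255_82 (.c k83 t42_255_83 (.c k84
  t42_255_84 (.c k85 t42_255_85 (.c k86 t42_255_86 (.c k87 t42_255_87 (.c k88 t42_255_88 (.c k89
  t42_255_89 (.c k90 t42_255_90 (.c k91 t42_255_91 (.c k92 t42_255_92 (.c k93 t42_255_93 (.c k94
  t42_255_94 (.c k95 t42_255_95 (.c k96 t42_255_96 (.c k97 t42_255_97 (.c k98 t42_255_98 (.c k99
  t42_255_99 (.c k100 t42_255_100 (.c k101 t42_255_101 (.c k102 t42_255_102 (.c k103 t42_255_103 (.c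
  k104 t42_255_104 (.c k105 t42_255_105 (.c k107 t42_255_107 (.c k108 t42_255_108 (.c k109
  t42_255_109 (.c k110 t42_255_110 (.c k111 t42_255_111 (.c k112 t42_255_112 (.c k113 t42_255_113
  (.c k114 t42_255_114 (.c k115 t42_255_115 (.c k116 t42_255_116 (.c k117 t42_255_117 (.c k118
  t42_255_118 (.c k119 t42_255_119 (.c k120 t42_255_120 (.c k121 t42_255_121 (.c k122 t42_255_122
  (.c k123 t42_255_123 (.c k124 t42_255_124 (.c k125 t42_255_125 (.c k126 t42_255_126 (.c k127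
  t42_255_127 (.c k128 t42_255_128 (.c k129 t42_255_129 (.c k130 t42_255_130 (.c k131 t42_255_131
  (.c k132 t42_255_132 (.c k133 t42_255_133 (.c k134 t42_255_134 (.c k135 t42_255_135 (.c k136
  t42_255_136 (.c k137 t42_255_137 (.c k138 t42_255_138 (.c k139 t42_255_139 (.c k140 t42_255_140
  (.c k141 t42_255_141 (.c k142 t42_255_142 (.c k143 t42_255_143 (.c k144 t42_255_144 (.c k145
  t42_255_145 (.c k146 t42_255_146 (.c k147 t42_255_147 (.c k148 t42_255_148 (.c k149 t42_255_149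
  (.c k150 t42_255_150 (.c k151 t42_255_151 (.c k152 t42_255_152 (.c k153 t42_255_153 (.c k154
  t42_255_154 (.c k155 t42_255_155 (.c k156 t42_255_156 (.c k157 t42_255_157 (.c k158 t42_255_158
  (.c k159 t42_255_159 (.c k160 t42_255_160 (.c k161 t42_255_161 (.c k162 t42_255_162 (.c k163
  t42_255_163 (.c k164 t42_255_164 (.c k165 t42_255_165 (.c k166 t42_255_166 (.c k167 t42_255_167
  (.c k168 t42_255_168 (.c k169 t42_255_169 (.c k171 t42_255_171 (.c k172 t42_255_172 (.c k173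
  t42_255_173 (.c k174 t42_255_174 (.c k175 t42_255_175 (.c k176 t42_255_176 (.c k177 t42_255_177
  (.c k178 t42_255_178 (.c k179 t42_255_179 (.c k180 t42_255_180 (.c k181 t42_255_181 (.c k182
  t42_255_182 (.c k183 t42_255_183 (.c k184 t42_255_184 (.c k185 t42_255_185 (.c k186 t42_255_186
  (.c k187 t42_255_187 (.c k188 t42_255_188 (.c k189 t42_255_189 (.c k190 t42_255_190 (.c k191
  t42_255_191 (.c k192 t42_255_192 (.c k193 t42_255_193 (.c k194 t42_255_194 (.c k195 t42_255_195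
  (.c k196 t42_255_196 (.c k197 t42_255_197 (.c k198 t42_255_198 (.c k199 t42_255_199 (.c k200
  t42_255_200 (.c k201 t42_255_201 (.c k202 t42_255_202 (.c k203 t42_255_203 (.c k204 t42_255_204
  (.c k205 t42_255_205 (.c k206 t42_255_206 (.c k207 t42_255_207 (.c k208 t42_255_208 (.c k209
  t42_255_209 (.c k210 t42_255_210 (.c k211 t42_255_211 (.c k212 t42_255_212 (.c k213 t42_255_213
  (.c k214 t42_255_214 (.c k215 t42_255_215 (.c k216 t42_255_216 (.c k217 t42_255_217 (.c k218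
  t42_255_218 (.c k219 t42_255_219 (.c k220 t42_255_220 (.c k221 t42_255_221 (.c k222 t42_255_222
  (.c k223 t42_255_223 (.c k224 t42_255_224 (.c k225 t42_255_225 (.c k226 t42_255_226 (.c k227
  t42_255_227 (.c k228 t42_255_228 (.c k229 t42_255_229 (.c k230 t42_255_230 (.c k231 t42_255_231
  (.c k232 t42_255_232 (.c k233 t42_255_233 (.c k234 t42_255_234 (.c k235 t42_255_235 (.c k236
  t42_255_236 (.c k237 t42_255_237 (.c k238 t42_255_238 (.c k239 t42_255_239 (.c k240 t42_255_240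
  (.c k241 t42_255_241 (.c k242 t42_255_242 (.c k243 t42_255_243 (.c k244 t42_255_244 (.c k245
  t42_255_245 (.c k246 t42_255_246 (.c k247 t42_255_247 (.c k248 t42_255_248 (.c k249 t42_255_249
  (.c k250 t42_255_250 (.c k251 t42_255_251 (.c k252 t42_255_252 (.c k253 t42_255_253 (.c k254
  t42_255_254 .n))))))))))))))))))))))))))))))))))))))))))))))))))))))))))))))))))))))))))))))))
  ))))))))))))))))))))))))))))))))))))))))))))))))))))))))))))))))))))))))))))))))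
  )))))))))))))))))))))))))))))))))))))))))))))))))))))))))))))))))))))))))))))))) ))))))))))

def t42 : T TT 256 :=
  (.q k170 [] (.c k1 t42_1 (.c k2 t42_2 (.c k3 t42_3 (.c k4 t42_4 (.c k5 t42_5 (.c k6 t42_6 (.c k7
  t42_7 (.c k8 t42_8 (.c k9 t42_9 (.c k10 t42_10 (.c k11 t42_11 (.c k12 t42_12 (.c k13 t42_13 (.c
  k14 t42_14 (.c k15 t42_15 (.c k16 t42_16 (.c k17 t42_17 (.c k18 t42_18 (.c k19 t42_19 (.c k20
  t42_20 (.c k21 t42_21 (.c k22 t42_22 (.c k23 t42_23 (.c k24 t42_24 (.c k25 t42_25 (.c k26 t42_26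
  (.c k27 t42_27 (.c k28 t42_28 (.c k29 t42_29 (.c k30 t42_30 (.c k31 t42_31 (.c k32 t42_32 (.c k33
  t42_33 (.c k34 t42_34 (.c k35 t42_35 (.c k36 t42_36 (.c k37 t42_37 (.c k38 t42_38 (.c k39 t42_39
  (.c k40 t42_40 (.c k41 t42_41 (.c k43 t42_43 (.c k44 t42_44 (.c k45 t42_45 (.c k46 t42_46 (.c k47
  t42_47 (.c k48 t42_48 (.c k49 t42_49 (.c k50 t42_50 (.c k51 t42_51 (.c k52 t42_52 (.c k53 t42_53
  (.c k54 t42_54 (.c k55 t42_55 (.c k56 t42_56 (.c k57 t42_57 (.c k58 t42_58 (.c k59 t42_59 (.c k60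
  t42_60 (.c k61 t42_61 (.c k62 t42_62 (.c k64 t42_64 (.c k65 t42_65 (.c k66 t42_66 (.c k67 t42_67
  (.c k68 t42_68 (.c k69 t42_69 (.c k70 t42_70 (.c k71 t42_71 (.c k72 t42_72 (.c k73 t42_73 (.c k74
  t42_74 (.c k75 t42_75 (.c k76 t42_76 (.c k77 t42_77 (.c k78 t42_78 (.c k79 t42_79 (.c k80 t42_80
  (.c k81 t42_81 (.c k82 t42_82 (.c k83 t42_83 (.c k84 t42_84 (.c k85 t42_85 (.c k86 t42_86 (.c k87
  t42_87 (.c k88 t42_88 (.c k89 t42_89 (.c k90 t42_90 (.c k91 t42_91 (.c k92 t42_92 (.c k93 t42_93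
  (.c k94 t42_94 (.c k95 t42_95 (.c k96 t42_96 (.c k97 t42_97 (.c k98 t42_98 (.c k99 t42_99 (.c k100
  t42_100 (.c k101 t42_101 (.c k102 t42_102 (.c k103 t42_103 (.c k104 t42_104 (.c k105 t42_105 (.c
  k107 t42_107 (.c k108 t42_108 (.c k109 t42_109 (.c k110 t42_110 (.c k111 t42_111 (.c k112 t42_112
  (.c k113 t42_113 (.c k114 t42_114 (.c k115 t42_115 (.c k116 t42_116 (.c k117 t42_117 (.c k118
  t42_118 (.c k119 t42_119 (.c k120 t42_120 (.c k121 t42_121 (.c k122 t42_122 (.c k123 t42_123 (.c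
  k124 t42_124 (.c k125 t42_125 (.c k126 t42_126 (.c k127 t42_127 (.c k128 t42_128 (.c k129 t42_129
  (.c k130 t42_130 (.c k131 t42_131 (.c k132 t42_132 (.c k133 t42_133 (.c k134 t42_134 (.c k135
  t42_135 (.c k136 t42_136 (.c k137 t42_137 (.c k138 t42_138 (.c k139 t42_139 (.c k140 t42_140 (.c
  k141 t42_141 (.c k142 t42_142 (.c k143 t42_143 (.c k144 t42_144 (.c k145 t42_145 (.c k146 t42_146
  (.c k147 t42_147 (.c k148 t42_148 (.c k149 t42_149 (.c k150 t42_150 (.c k151 t42_151 (.c k152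
  t42_152 (.c k153 t42_153 (.c k154 t42_154 (.c k155 t42_155 (.c k156 t42_156 (.c k157 t42_157 (.c
  k158 t42_158 (.c k159 t42_159 (.c k160 t42_160 (.c k161 t42_161 (.c k162 t42_162 (.c k163 t42_163
  (.c k164 t42_164 (.c k165 t42_165 (.c k166 t42_166 (.c k167 t42_167 (.c k168 t42_168 (.c k169
  t42_169 (.c k171 t42_171 (.c k172 t42_172 (.c k173 t42_173 (.c k174 t42_174 (.c k175 t42_175 (.c
  k176 t42_176 (.c k177 t42_177 (.c k178 t42_178 (.c k179 t42_179 (.c k180 t42_180 (.c k181 t42_181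
  (.c k182 t42_182 (.c k183 t42_183 (.c k184 t42_184 (.c k185 t42_185 (.c k186 t42_186 (.c k187
  t42_187 (.c k188 t42_188 (.c k189 t42_189 (.c k190 t42_190 (.c k191 t42_191 (.c k192 t42_192 (.c
  k193 t42_193 (.c k194 t42_194 (.c k195 t42_195 (.c k196 t42_196 (.c k197 t42_197 (.c k198 t42_198
  (.c k199 t42_199 (.c k200 t42_200 (.c k201 t42_201 (.c k202 t42_202 (.c k203 t42_203 (.c k204
  t42_204 (.c k205 t42_205 (.c k206 t42_206 (.c k207 t42_207 (.c k208 t42_208 (.c k209 t42_209 (.c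
  k210 t42_210 (.c k211 t42_211 (.c k212 t42_212 (.c k213 t42_213 (.c k214 t42_214 (.c k215 t42_215
  (.c k216 t42_216 (.c k217 t42_217 (.c k218 t42_218 (.c k219 t42_219 (.c k220 t42_220 (.c k221
  t42_221 (.c k222 t42_222 (.c k223 t42_223 (.c k224 t42_224 (.c k225 t42_225 (.c k226 t42_226 (.c
  k227 t42_227 (.c k228 t42_228 (.c k229 t42_229 (.c k230 t42_230 (.c k231 t42_231 (.c k232 t42_232
  (.c k233 t42_233 (.c k234 t42_234 (.c k235 t42_235 (.c k236 t42_236 (.c k237 t42_237 (.c k238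
  t42_238 (.c k239 t42_239 (.c k240 t42_240 (.c k241 t42_241 (.c k242 t42_242 (.c k243 t42_243 (.c
  k244 t42_244 (.c k245 t42_245 (.c k246 t42_246 (.c k247 t42_247 (.c k248 t42_248 (.c k249 t42_249
  (.c k250 t42_250 (.c k251 t42_251 (.c k252 t42_252 (.c k253 t42_253 (.c k254 t42_254 (.c k255
  t42_255 .n))))))))))))))))))))))))))))))))))))))))))))))))))))))))))))))))))))))))))))))))
  ))))))))))))))))))))))))))))))))))))))))))))))))))))))))))))))))))))))))))))))))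
  )))))))))))))))))))))))))))))))))))))))))))))))))))))))))))))))))))))))))))))))) ))))))))))))

theorem c42 : rootOK2 k63 k106 k42 t42 = true := by decide +kernel

def l : List Nat :=
  [k42.c]

theorem ok : AllQ k63.c k106.c l :=
  allQ_cons c42 (allQ_nil _ _)

end Pool.Agent.TTT.H03
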