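import Pool.Agent.TTT.Sym2

set_option autoImplicit false
set_option maxRecDepth 100000

namespace Pool.Agent.TTT.H04

def t43 : T TT 256 :=
  (.q k12 [(.s k8 k4 1 (.s k46 k29 4 (.s k42 k21 6 (.s k38 k34 1 (.d k25 k59 k51 4 6)))))] (.c k4
  (.f k46 k29 4 (.q k15 [(.s k47 k31 3 (.s k14 k13 0 (.s k45 k44 0 (.d k30 k62 k60 3 4)))), (.s k5
  k10 2 (.s k21 k42 6 (.s k37 k53 3 (.s k26 k48 6 (.d k31 k16 k47 2 3))))), (.s k10 k5 2 (.s k42 k21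
  6 (.s k26 k58 3 (.s k14 k13 0 (.d k38 k34 k50 1 5)))))] (.c k169 (.q k232 [(.s k47 k31 3 (.s k14
  k13 0 (.s k45 k44 0 (.d k30 k62 k60 3 4)))), (.s k5 k10 2 (.s k21 k42 6 (.s k37 k53 3 (.s k26 k48
  6 (.d k31 k16 k47 2 3))))), (.s k10 k5 2 (.s k42 k21 6 (.s k26 k58 3 (.s k14 k13 0 (.d k38 k34 k50
  1 5)))))] .n) (.c k232 (.q k169 [(.s k47 k31 3 (.s k14 k13 0 (.s k45 k44 0 (.d k30 k62 k60 3
  4)))), (.s k5 k10 2 (.s k21 k42 6 (.s k37 k53 3 (.s k26 k48 6 (.d k31 k16 k47 2 3))))), (.s k10 k5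
  2 (.s k42 k21 6 (.s k26 k58 3 (.s k14 k13 0 (.d k38 k34 k50 1 5)))))] .n) .n)))) (.c k8 (.f k42
  k21 6 (.q k15 [(.s k47 k31 3 (.s k10 k5 2 (.s k37 k32 2 (.d k26 k58 k48 3 6)))), (.s k13 k14 0 (.s
  k29 k46 4 (.s k45 k61 3 (.s k30 k60 4 (.d k31 k28 k47 0 3))))), (.s k10 k5 2 (.s k14 k13 0 (.s k2
  k6 1 (.s k62 k22 5 (.d k46 k30 k29 3 4)))))] (.c k169 (.q k232 [(.s k47 k31 3 (.s k10 k5 2 (.s k37
  k32 2 (.d k26 k58 k48 3 6)))), (.s k13 k14 0 (.s k29 k46 4 (.s k45 k61 3 (.s k30 k60 4 (.d k31 k28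
  k47 0 3))))), (.s k10 k5 2 (.s k14 k13 0 (.s k2 k6 1 (.s k62 k22 5 (.d k46 k30 k29 3 4)))))] .n)
  (.c k232 (.q k169 [(.s k47 k31 3 (.s k10 k5 2 (.s k37 k32 2 (.d k26 k58 k48 3 6)))), (.s k13 k14 0
  (.s k29 k46 4 (.s k45 k61 3 (.s k30 k60 4 (.d k31 k28 k47 0 3))))), (.s k10 k5 2 (.s k14 k13 0 (.s
  k2 k6 1 (.s k62 k22 5 (.d k46 k30 k29 3 4)))))] .n) .n)))) (.c k17 (.l (.s k8 k4 1 (.s k42 k21 6
  (.s k25 k59 4 (.s k38 k51 6 (.d k46 k29 k34 4 1)))))) (.c k21 (.q k40 [(.s k4 k8 1 (.s k20 k60 5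
  (.s k36 k52 3 (.s k48 k24 5 (.d k32 k44 k16 1 3))))), (.s k60 k20 5 (.s k28 k44 3 (.s k29 k46 4
  (.s k30 k31 0 (.s k45 k15 4 (.d k61 k62 k13 0 3))))))] (.c k16 (.l (.s k8 k4 1 (.s k60 k20 5 (.s
  k24 k56 3 (.s k36 k48 5 (.d k44 k28 k32 3 1)))))) (.c k20 (.f k8 k4 1 (.f k46 k29 4 (.l (.s k24
  k56 3 (.s k36 k48 5 (.s k44 k32 1 (.s k60 k28 3 (.s k45 k47 0 (.s k30 k15 4 (.d k62 k61 k14 0
  3)))))))))) (.c k44 (.l (.s k8 k4 1 (.s k20 k60 5 (.s k24 k56 3 (.s k48 k36 5 (.d k16 k28 k32 1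
  3)))))) (.c k60 (.q k170 [(.s k4 k8 1 (.s k85 k255 14 (.s k166 k247 12 (.s k162 k174 1 (.d k243
  k81 k89 12 14))))), (.s k255 k85 14 (.s k29 k46 4 (.s k93 k174 12 (.s k157 k221 7 (.s k110 k204 12
  (.d k127 k76 k191 4 7)))))), (.s k8 k4 1 (.s k56 k24 3 (.s k89 k251 12 (.s k105 k235 8 (.s k203
  k154 12 (.d k73 k121 k138 3 8))))))] (.c k169 (.q k232 [(.s k4 k8 1 (.s k85 k255 14 (.s k166 k247
  12 (.s k162 k174 1 (.d k243 k81 k89 12 14))))), (.s k4 k8 1 (.s k168 k104 7 (.s k84 k252 13 (.s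
  k164 k244 11 (.s k240 k88 13 (.d k160 k172 k80 1 11)))))), (.s k255 k85 14 (.s k29 k46 4 (.s k93
  k174 12 (.s k157 k221 7 (.s k110 k204 12 (.d k127 k76 k191 4 7))))))] .n) (.c k232 (.q k169 [(.s
  k4 k8 1 (.s k85 k255 14 (.s k166 k247 12 (.s k162 k174 1 (.d k243 k81 k89 12 14))))), (.s k4 k8 1
  (.s k168 k171 0 (.s k84 k252 13 (.s k164 k244 11 (.s k240 k88 13 (.d k160 k172 k80 1 11)))))), (.s
  k85 k255 14 (.s k1 k253 13 (.s k3 k2 0 (.s k252 k86 14 (.d k168 k171 k84 0 13)))))] .n) .n))) (.c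
  k169 (.q k232 [(.s k4 k8 1 (.s k20 k60 5 (.s k36 k52 3 (.s k48 k24 5 (.d k32 k44 k16 1 3))))), (.s
  k4 k8 1 (.s k168 k104 7 (.s k84 k252 13 (.s k164 k244 11 (.s k240 k88 13 (.d k160 k172 k80 1
  11)))))), (.s k60 k20 5 (.s k28 k44 3 (.s k29 k46 4 (.s k30 k31 0 (.s k45 k15 4 (.d k61 k62 k13 0
  3))))))] .n) (.c k232 (.q k169 [(.s k4 k8 1 (.s k20 k60 5 (.s k36 k52 3 (.s k48 k24 5 (.d k32 k44
  k16 1 3))))), (.s k60 k20 5 (.s k28 k44 3 (.s k29 k46 4 (.s k30 k31 0 (.s k45 k15 4 (.d k61 k62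
  k13 0 3))))))] (.c k16 (.l (.s k8 k4 1 (.s k60 k20 5 (.s k24 k56 3 (.s k36 k48 5 (.d k44 k28 k32 3
  1)))))) (.c k20 (.f k8 k4 1 (.f k46 k29 4 (.l (.s k24 k56 3 (.s k36 k48 5 (.s k44 k32 1 (.s k60
  k28 3 (.s k45 k47 0 (.s k30 k15 4 (.d k62 k61 k14 0 3)))))))))) (.c k44 (.l (.s k8 k4 1 (.s k20
  k60 5 (.s k24 k56 3 (.s k48 k36 5 (.d k16 k28 k32 1 3)))))) (.c k60 (.q k166 [(.s k4 k8 1 (.s k85
  k247 12 (.s k170 k255 14 (.s k162 k174 1 (.d k243 k81 k89 12 14))))), (.s k89 k243 14 (.s k9 k249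
  11 (.s k3 k6 2 (.s k252 k86 14 (.d k172 k163 k92 2 11)))))] (.c k89 (.l (.s k4 k8 1 (.s k85 k247
  12 (.s k170 k255 14 (.s k172 k163 2 (.s k252 k92 11 (.d k168 k171 k84 0 13))))))) (.c k243 (.l (.s
  k4 k8 1 (.s k85 k247 12 (.s k255 k170 14 (.s k253 k1 13 (.s k172 k163 2 (.d k252 k254 k92 0
  11))))))) .n))) .n))))) .n))))))) (.c k25 (.f k8 k4 1 (.q k15 [(.s k10 k5 2 (.s k9 k11 0 (.s k6 k3
  2 (.d k14 k13 k2 0 1)))), (.s k5 k10 2 (.s k21 k42 6 (.s k37 k53 3 (.s k26 k48 6 (.d k31 k16 k47 2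
  3))))), (.s k13 k14 0 (.s k29 k46 4 (.s k45 k61 3 (.s k30 k60 4 (.d k31 k28 k47 0 3)))))] (.c k169
  (.q k232 [(.s k14 k13 0 (.s k10 k5 2 (.s k6 k2 1 (.d k9 k11 k3 0 2)))), (.s k13 k14 0 (.s k29 k46
  4 (.s k45 k61 3 (.s k30 k60 4 (.d k31 k28 k47 0 3))))), (.s k5 k10 2 (.s k21 k42 6 (.s k37 k53 3
  (.s k26 k48 6 (.d k31 k16 k47 2 3)))))] .n) (.c k232 (.q k169 [(.s k10 k5 2 (.s k9 k11 0 (.s k6 k3
  2 (.d k14 k13 k2 0 1)))), (.s k5 k10 2 (.s k21 k42 6 (.s k37 k53 3 (.s k26 k48 6 (.d k31 k16 k47 2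
  3))))), (.s k13 k14 0 (.s k29 k46 4 (.s k45 k61 3 (.s k30 k60 4 (.d k31 k28 k47 0 3)))))] .n)
  .n)))) (.c k29 (.f k8 k4 1 (.q k15 [(.s k10 k5 2 (.s k9 k11 0 (.s k6 k3 2 (.d k14 k13 k2 0 1)))),
  (.s k5 k10 2 (.s k21 k42 6 (.s k37 k53 3 (.s k26 k48 6 (.d k31 k16 k47 2 3))))), (.s k42 k21 6 (.s
  k25 k59 4 (.s k13 k14 0 (.s k37 k49 5 (.d k47 k32 k31 2 3)))))] (.c k169 (.q k232 [(.s k14 k13 0
  (.s k10 k5 2 (.s k6 k2 1 (.d k9 k11 k3 0 2)))), (.s k5 k10 2 (.s k21 k42 6 (.s k37 k53 3 (.s k26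
  k48 6 (.d k31 k16 k47 2 3))))), (.s k42 k21 6 (.s k25 k59 4 (.s k13 k14 0 (.s k37 k49 5 (.d k47
  k32 k31 2 3)))))] .n) (.c k232 (.q k169 [(.s k10 k5 2 (.s k9 k11 0 (.s k6 k3 2 (.d k14 k13 k2 0
  1)))), (.s k5 k10 2 (.s k21 k42 6 (.s k37 k53 3 (.s k26 k48 6 (.d k31 k16 k47 2 3))))), (.s k42
  k21 6 (.s k25 k59 4 (.s k13 k14 0 (.s k37 k49 5 (.d k47 k32 k31 2 3)))))] .n) .n)))) (.c k34 (.l
  (.s k4 k8 1 (.s k21 k42 6 (.s k38 k55 4 (.s k25 k51 6 (.d k29 k46 k17 4 1)))))) (.c k38 (.f k46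
  k29 4 (.q k15 [(.s k14 k13 0 (.s k30 k62 3 (.s k45 k60 4 (.d k47 k44 k31 0 3)))), (.s k5 k10 2 (.s
  k21 k42 6 (.s k37 k53 3 (.s k26 k48 6 (.d k31 k16 k47 2 3))))), (.s k4 k8 1 (.s k5 k10 2 (.s k6 k7
  0 (.s k9 k3 2 (.d k13 k14 k1 0 1)))))] (.c k169 (.q k232 [(.s k14 k13 0 (.s k30 k62 3 (.s k45 k60
  4 (.d k47 k44 k31 0 3)))), (.s k5 k10 2 (.s k21 k42 6 (.s k37 k53 3 (.s k26 k48 6 (.d k31 k16 k47
  2 3))))), (.s k4 k8 1 (.s k5 k10 2 (.s k6 k7 0 (.s k9 k3 2 (.d k13 k14 k1 0 1)))))] .n) (.c k232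
  (.q k169 [(.s k14 k13 0 (.s k30 k62 3 (.s k45 k60 4 (.d k47 k44 k31 0 3)))), (.s k5 k10 2 (.s k21
  k42 6 (.s k37 k53 3 (.s k26 k48 6 (.d k31 k16 k47 2 3))))), (.s k4 k8 1 (.s k5 k10 2 (.s k6 k7 0
  (.s k9 k3 2 (.d k13 k14 k1 0 1)))))] .n) .n)))) (.c k42 (.f k8 k4 1 (.f k46 k29 4 (.q k40 [(.s k20
  k60 5 (.s k24 k56 3 (.s k48 k36 5 (.d k16 k28 k32 1 3)))), (.s k60 k20 5 (.s k62 k61 0 (.s k30 k14
  3 (.s k45 k15 4 (.d k44 k47 k28 0 3)))))] (.c k20 (.l (.s k24 k56 3 (.s k36 k48 5 (.s k44 k32 1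
  (.s k60 k28 3 (.s k62 k61 0 (.s k30 k14 3 (.d k45 k47 k15 0 4)))))))) (.c k28 (.l (.s k60 k20 5
  (.s k24 k56 3 (.s k36 k48 5 (.s k44 k32 1 (.s k62 k61 0 (.s k30 k14 3 (.d k45 k47 k15 0 4))))))))
  (.c k36 (.l (.s k56 k24 3 (.s k60 k20 5 (.s k52 k48 1 (.s k62 k61 0 (.s k30 k14 3 (.s k45 k15 4
  (.d k44 k28 k47 3 0)))))))) (.c k52 (.l (.s k20 k60 5 (.s k24 k56 3 (.s k48 k36 5 (.d k16 k28 k32
  1 3))))) (.c k60 (.q k170 [(.s k85 k255 14 (.s k89 k251 12 (.s k243 k166 14 (.d k81 k93 k162 1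
  12)))), (.s k56 k24 3 (.s k89 k251 12 (.s k105 k235 8 (.s k203 k154 12 (.d k73 k121 k138 3 8))))),
  (.s k85 k255 14 (.s k24 k56 3 (.s k48 k36 5 (.s k16 k32 3 (.s k154 k223 10 (.s k207 k101 14 (.d
  k138 k186 k69 3 10)))))))] (.c k169 (.q k232 [(.s k85 k255 14 (.s k89 k251 12 (.s k243 k166 14 (.d
  k81 k93 k162 1 12)))), (.s k168 k104 7 (.s k84 k252 13 (.s k88 k248 11 (.s k240 k164 13 (.d k80
  k92 k160 1 11)))))] .n) (.c k232 (.q k169 [(.s k85 k255 14 (.s k89 k251 12 (.s k243 k166 14 (.d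
  k81 k93 k162 1 12)))), (.s k56 k24 3 (.s k89 k251 12 (.s k105 k235 8 (.s k203 k154 12 (.d k73 k121
  k138 3 8))))), (.s k85 k255 14 (.s k1 k253 13 (.s k3 k2 0 (.s k252 k86 14 (.d k168 k171 k84 0
  13)))))] .n) .n))) (.c k169 (.q k232 [(.s k20 k60 5 (.s k24 k56 3 (.s k48 k36 5 (.d k16 k28 k32 1
  3)))), (.s k168 k104 7 (.s k84 k252 13 (.s k88 k248 11 (.s k240 k164 13 (.d k80 k92 k160 1
  11)))))] (.c k170 (.q k234 [(.s k20 k60 5 (.s k24 k56 3 (.s k48 k36 5 (.d k16 k28 k32 1 3)))), (.s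
  k168 k104 7 (.s k84 k252 13 (.s k88 k248 11 (.s k240 k164 13 (.d k80 k92 k160 1 11)))))] (.c k168
  (.q k171 [(.s k20 k60 5 (.s k24 k56 3 (.s k48 k36 5 (.d k16 k28 k32 1 3)))), (.s k60 k20 5 (.s k62
  k61 0 (.s k30 k14 3 (.s k45 k15 4 (.d k44 k47 k28 0 3)))))] (.c k20 (.l (.s k24 k56 3 (.s k36 k48
  5 (.s k44 k32 1 (.s k60 k28 3 (.s k62 k61 0 (.s k30 k14 3 (.d k45 k47 k15 0 4)))))))) (.c k28 (.l
  (.s k60 k20 5 (.s k24 k56 3 (.s k36 k48 5 (.s k44 k32 1 (.s k62 k61 0 (.s k30 k14 3 (.d k45 k47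
  k15 0 4)))))))) (.c k36 (.l (.s k56 k24 3 (.s k60 k20 5 (.s k52 k48 1 (.s k62 k61 0 (.s k30 k14 3
  (.s k45 k15 4 (.d k44 k28 k47 3 0)))))))) (.c k52 (.l (.s k20 k60 5 (.s k24 k56 3 (.s k48 k36 5
  (.d k16 k28 k32 1 3))))) (.c k60 (.q k10 [(.s k5 k15 2 (.s k9 k11 0 (.s k3 k6 2 (.d k1 k2 k13 0
  1)))), (.s k11 k9 0 (.s k251 k91 11 (.s k200 k217 4 (.s k72 k136 7 (.s k74 k137 8 (.s k138 k202 7
  (.d k73 k75 k203 0 8))))))), (.s k15 k5 2 (.s k24 k56 3 (.s k47 k31 3 (.s k44 k45 0 (.d k36 k48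
  k32 5 1)))))] .n) .n)))))) (.c k171 (.l (.s k168 k104 7 (.s k20 k60 5 (.s k24 k56 3 (.s k48 k36 5
  (.d k16 k28 k32 1 3)))))) .n))) (.c k234 (.q k170 [(.s k20 k60 5 (.s k24 k56 3 (.s k48 k36 5 (.d
  k16 k28 k32 1 3)))), (.s k85 k255 14 (.s k89 k251 12 (.s k243 k166 14 (.d k81 k93 k162 1 12))))]
  .n) .n))) (.c k170 (.q k234 [(.s k20 k60 5 (.s k24 k56 3 (.s k48 k36 5 (.d k16 k28 k32 1 3)))),
  (.s k60 k20 5 (.s k62 k61 0 (.s k30 k14 3 (.s k45 k15 4 (.d k44 k47 k28 0 3)))))] (.c k20 (.l (.s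
  k24 k56 3 (.s k36 k48 5 (.s k44 k32 1 (.s k60 k28 3 (.s k62 k61 0 (.s k30 k14 3 (.d k45 k47 k15 0
  4)))))))) (.c k28 (.l (.s k60 k20 5 (.s k24 k56 3 (.s k36 k48 5 (.s k44 k32 1 (.s k62 k61 0 (.s
  k30 k14 3 (.d k45 k47 k15 0 4)))))))) (.c k36 (.l (.s k56 k24 3 (.s k60 k20 5 (.s k52 k48 1 (.s
  k62 k61 0 (.s k30 k14 3 (.s k45 k15 4 (.d k44 k28 k47 3 0)))))))) (.c k52 (.l (.s k20 k60 5 (.s
  k24 k56 3 (.s k48 k36 5 (.d k16 k28 k32 1 3))))) (.c k60 (.q k168 [(.s k84 k252 13 (.s k88 k248 11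
  (.s k240 k164 13 (.d k80 k92 k160 1 11)))), (.s k56 k24 3 (.s k248 k88 11 (.s k184 k120 7 (.s k152
  k136 3 (.d k104 k232 k200 7 11))))), (.s k84 k252 13 (.s k24 k56 3 (.s k48 k36 5 (.s k16 k32 3 (.s
  k152 k220 9 (.s k204 k100 13 (.d k136 k184 k68 3 9)))))))] (.c k169 (.l (.s k232 k104 7 (.s k84
  k252 13 (.s k88 k248 11 (.s k240 k164 13 (.d k80 k92 k160 1 11)))))) (.c k232 (.q k169 [(.s k252
  k84 13 (.s k172 k92 11 (.s k164 k160 1 (.d k88 k248 k240 11 13)))), (.s k24 k56 3 (.s k88 k248 11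
  (.s k48 k36 5 (.s k32 k16 3 (.s k100 k236 9 (.d k152 k216 k204 7 13)))))), (.s k252 k84 13 (.s k3
  k86 14 (.s k9 k6 2 (.s k10 k11 0 (.s k5 k15 2 (.d k1 k2 k13 0 1))))))] .n) .n))) (.c k169 (.q k232
  [(.s k20 k60 5 (.s k24 k56 3 (.s k48 k36 5 (.d k16 k28 k32 1 3)))), (.s k168 k104 7 (.s k84 k252
  13 (.s k88 k248 11 (.s k240 k164 13 (.d k80 k92 k160 1 11)))))] (.c k168 (.q k171 [(.s k20 k60 5
  (.s k24 k56 3 (.s k48 k36 5 (.d k16 k28 k32 1 3)))), (.s k60 k20 5 (.s k62 k61 0 (.s k30 k14 3 (.s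
  k45 k15 4 (.d k44 k47 k28 0 3)))))] (.c k20 (.l (.s k24 k56 3 (.s k36 k48 5 (.s k44 k32 1 (.s k60
  k28 3 (.s k62 k61 0 (.s k30 k14 3 (.d k45 k47 k15 0 4)))))))) (.c k28 (.l (.s k60 k20 5 (.s k24
  k56 3 (.s k36 k48 5 (.s k44 k32 1 (.s k62 k61 0 (.s k30 k14 3 (.d k45 k47 k15 0 4)))))))) (.c k36
  (.l (.s k56 k24 3 (.s k60 k20 5 (.s k52 k48 1 (.s k62 k61 0 (.s k30 k14 3 (.s k45 k15 4 (.d k44
  k28 k47 3 0)))))))) (.c k52 (.l (.s k20 k60 5 (.s k24 k56 3 (.s k48 k36 5 (.d k16 k28 k32 1 3)))))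
  (.c k60 (.q k10 [(.s k5 k15 2 (.s k9 k11 0 (.s k3 k6 2 (.d k1 k2 k13 0 1)))), (.s k11 k9 0 (.s
  k251 k91 11 (.s k200 k217 4 (.s k72 k136 7 (.s k74 k137 8 (.s k138 k202 7 (.d k73 k75 k203 0
  8))))))), (.s k15 k5 2 (.s k24 k56 3 (.s k47 k31 3 (.s k44 k45 0 (.d k36 k48 k32 5 1)))))] .n)
  .n)))))) (.c k171 (.l (.s k168 k104 7 (.s k20 k60 5 (.s k24 k56 3 (.s k48 k36 5 (.d k16 k28 k32 1
  3)))))) .n))) (.c k232 (.q k169 [(.s k20 k60 5 (.s k24 k56 3 (.s k48 k36 5 (.d k16 k28 k32 1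
  3)))), (.s k60 k20 5 (.s k62 k61 0 (.s k30 k14 3 (.s k45 k15 4 (.d k44 k47 k28 0 3)))))] (.c k20
  (.l (.s k24 k56 3 (.s k36 k48 5 (.s k44 k32 1 (.s k60 k28 3 (.s k62 k61 0 (.s k30 k14 3 (.d k45
  k47 k15 0 4)))))))) (.c k28 (.l (.s k60 k20 5 (.s k24 k56 3 (.s k36 k48 5 (.s k44 k32 1 (.s k62
  k61 0 (.s k30 k14 3 (.d k45 k47 k15 0 4)))))))) (.c k36 (.l (.s k56 k24 3 (.s k60 k20 5 (.s k52
  k48 1 (.s k62 k61 0 (.s k30 k14 3 (.s k45 k15 4 (.d k44 k28 k47 3 0)))))))) (.c k52 (.l (.s k20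
  k60 5 (.s k24 k56 3 (.s k48 k36 5 (.d k16 k28 k32 1 3))))) (.c k60 (.q k15 [(.s k10 k5 2 (.s k9
  k11 0 (.s k6 k3 2 (.d k14 k13 k2 0 1)))), (.s k24 k56 3 (.s k47 k31 3 (.s k44 k45 0 (.d k36 k48
  k32 5 1))))] (.c k13 (.l (.s k10 k5 2 (.s k9 k11 0 (.s k89 k249 11 (.s k166 k243 14 (.s k172 k163
  2 (.s k252 k92 11 (.d k3 k6 k86 2 14)))))))) .n)) .n)))))) .n)))))))) (.c k232 (.q k169 [(.s k20
  k60 5 (.s k24 k56 3 (.s k48 k36 5 (.d k16 k28 k32 1 3)))), (.s k60 k20 5 (.s k62 k61 0 (.s k30 k14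
  3 (.s k45 k15 4 (.d k44 k47 k28 0 3)))))] (.c k20 (.l (.s k24 k56 3 (.s k36 k48 5 (.s k44 k32 1
  (.s k60 k28 3 (.s k62 k61 0 (.s k30 k14 3 (.d k45 k47 k15 0 4)))))))) (.c k28 (.l (.s k60 k20 5
  (.s k24 k56 3 (.s k36 k48 5 (.s k44 k32 1 (.s k62 k61 0 (.s k30 k14 3 (.d k45 k47 k15 0 4))))))))
  (.c k36 (.l (.s k56 k24 3 (.s k60 k20 5 (.s k52 k48 1 (.s k62 k61 0 (.s k30 k14 3 (.s k45 k15 4
  (.d k44 k28 k47 3 0)))))))) (.c k52 (.l (.s k20 k60 5 (.s k24 k56 3 (.s k48 k36 5 (.d k16 k28 k32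
  1 3))))) (.c k60 (.q k170 [(.s k85 k255 14 (.s k89 k251 12 (.s k243 k166 14 (.d k81 k93 k162 1
  12)))), (.s k56 k24 3 (.s k89 k251 12 (.s k105 k235 8 (.s k203 k154 12 (.d k73 k121 k138 3 8))))),
  (.s k85 k255 14 (.s k1 k253 13 (.s k3 k2 0 (.s k252 k86 14 (.d k168 k171 k84 0 13)))))] .n) (.c
  k170 (.q k234 [(.s k20 k60 5 (.s k24 k56 3 (.s k48 k36 5 (.d k16 k28 k32 1 3)))), (.s k60 k20 5
  (.s k62 k61 0 (.s k30 k14 3 (.s k45 k15 4 (.d k44 k47 k28 0 3)))))] (.c k20 (.l (.s k24 k56 3 (.s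
  k36 k48 5 (.s k44 k32 1 (.s k60 k28 3 (.s k62 k61 0 (.s k30 k14 3 (.d k45 k47 k15 0 4)))))))) (.c
  k28 (.l (.s k60 k20 5 (.s k24 k56 3 (.s k36 k48 5 (.s k44 k32 1 (.s k62 k61 0 (.s k30 k14 3 (.d
  k45 k47 k15 0 4)))))))) (.c k36 (.l (.s k56 k24 3 (.s k60 k20 5 (.s k52 k48 1 (.s k62 k61 0 (.s
  k30 k14 3 (.s k45 k15 4 (.d k44 k28 k47 3 0)))))))) (.c k52 (.l (.s k20 k60 5 (.s k24 k56 3 (.s
  k48 k36 5 (.d k16 k28 k32 1 3))))) (.c k60 (.q k15 [(.s k10 k5 2 (.s k9 k11 0 (.s k6 k3 2 (.d k14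
  k13 k2 0 1)))), (.s k24 k56 3 (.s k47 k31 3 (.s k44 k45 0 (.d k36 k48 k32 5 1))))] (.c k13 (.l (.s
  k10 k5 2 (.s k9 k11 0 (.s k89 k249 11 (.s k166 k243 14 (.s k172 k163 2 (.s k252 k92 11 (.d k3 k6
  k86 2 14)))))))) .n)) .n)))))) (.c k234 (.q k170 [(.s k20 k60 5 (.s k24 k56 3 (.s k48 k36 5 (.d
  k16 k28 k32 1 3)))), (.s k85 k255 14 (.s k89 k251 12 (.s k243 k166 14 (.d k81 k93 k162 1 12))))]
  (.c k233 (.l (.s k235 k105 8 (.s k20 k60 5 (.s k24 k56 3 (.s k48 k36 5 (.d k16 k28 k32 1 3))))))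
  (.c k235 (.q k233 [(.s k20 k60 5 (.s k24 k56 3 (.s k48 k36 5 (.d k16 k28 k32 1 3)))), (.s k85 k255
  14 (.s k89 k251 12 (.s k243 k166 14 (.d k81 k93 k162 1 12))))] (.c k107 (.l (.s k171 k168 0 (.s
  k20 k60 5 (.s k24 k56 3 (.s k48 k36 5 (.d k16 k28 k32 1 3)))))) (.c k171 (.q k107 [(.s k60 k20 5
  (.s k105 k41 7 (.d k195 k151 k150 13 14))), (.s k85 k255 14 (.s k89 k251 12 (.s k243 k166 14 (.d
  k81 k93 k162 1 12))))] (.c k195 (.l (.s k20 k60 5 (.s k24 k56 3 (.s k48 k36 5 (.d k16 k28 k32 1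
  3))))) .n)) .n))) .n))) .n)))))))) (.c k234 (.q k170 [(.s k20 k60 5 (.s k24 k56 3 (.s k48 k36 5
  (.d k16 k28 k32 1 3)))), (.s k85 k255 14 (.s k89 k251 12 (.s k243 k166 14 (.d k81 k93 k162 1
  12))))] (.c k169 (.q k232 [(.s k20 k60 5 (.s k24 k56 3 (.s k48 k36 5 (.d k16 k28 k32 1 3)))), (.s
  k85 k255 14 (.s k89 k251 12 (.s k243 k166 14 (.d k81 k93 k162 1 12))))] .n) (.c k232 (.q k169 [(.s
  k20 k60 5 (.s k24 k56 3 (.s k48 k36 5 (.d k16 k28 k32 1 3)))), (.s k85 k255 14 (.s k89 k251 12 (.s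
  k243 k166 14 (.d k81 k93 k162 1 12))))] (.c k233 (.l (.s k235 k105 8 (.s k20 k60 5 (.s k24 k56 3
  (.s k48 k36 5 (.d k16 k28 k32 1 3)))))) (.c k235 (.q k233 [(.s k20 k60 5 (.s k24 k56 3 (.s k48 k36
  5 (.d k16 k28 k32 1 3)))), (.s k85 k255 14 (.s k89 k251 12 (.s k243 k166 14 (.d k81 k93 k162 1
  12))))] (.c k107 (.l (.s k171 k168 0 (.s k20 k60 5 (.s k24 k56 3 (.s k48 k36 5 (.d k16 k28 k32 1
  3)))))) (.c k171 (.q k107 [(.s k60 k20 5 (.s k105 k41 7 (.d k195 k151 k150 13 14))), (.s k85 k255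
  14 (.s k89 k251 12 (.s k243 k166 14 (.d k81 k93 k162 1 12))))] (.c k195 (.l (.s k20 k60 5 (.s k24
  k56 3 (.s k48 k36 5 (.d k16 k28 k32 1 3))))) .n)) .n))) .n))) .n))) .n)))))))))))) (.c k46 (.q
  k166 [(.s k4 k8 1 (.s k85 k247 12 (.s k170 k255 14 (.s k243 k89 14 (.d k162 k174 k81 1 12))))),
  (.s k4 k8 1 (.s k21 k42 6 (.s k85 k247 12 (.s k149 k213 7 (.s k132 k183 4 (.s k196 k68 7 (.d k55
  k38 k102 4 12))))))), (.s k21 k42 6 (.s k243 k89 14 (.s k162 k81 12 (.s k170 k174 1 (.s k85 k255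
  14 (.s k149 k213 7 (.d k183 k123 k132 9 4)))))))] (.c k85 (.f k8 k4 1 (.l (.s k42 k21 6 (.s k25
  k59 4 (.s k89 k243 14 (.s k153 k217 7 (.s k140 k179 6 (.s k204 k76 7 (.d k51 k38 k102 6
  14))))))))) (.c k169 (.q k232 [(.s k4 k8 1 (.s k85 k247 12 (.s k170 k255 14 (.s k162 k174 1 (.d
  k243 k81 k89 12 14))))), (.s k4 k8 1 (.s k21 k42 6 (.s k85 k247 12 (.s k149 k213 7 (.s k132 k183 4
  (.s k196 k68 7 (.d k55 k38 k102 4 12))))))), (.s k21 k42 6 (.s k243 k89 14 (.s k162 k81 12 (.s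
  k170 k174 1 (.s k85 k255 14 (.s k149 k213 7 (.d k183 k123 k132 9 4)))))))] (.c k85 (.f k8 k4 1 (.l
  (.s k42 k21 6 (.s k25 k59 4 (.s k89 k243 14 (.s k153 k217 7 (.s k140 k179 6 (.s k204 k76 7 (.d k51
  k38 k102 6 14))))))))) (.c k170 (.f k8 k4 1 (.l (.s k42 k21 6 (.s k25 k59 4 (.s k89 k243 14 (.s
  k153 k217 7 (.s k140 k179 6 (.s k204 k76 7 (.d k51 k38 k102 6 14))))))))) .n))) (.c k170 (.f k8 k4
  1 (.l (.s k42 k21 6 (.s k25 k59 4 (.s k89 k243 14 (.s k153 k217 7 (.s k140 k179 6 (.s k204 k76 7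
  (.d k51 k38 k102 6 14))))))))) (.c k232 (.q k169 [(.s k4 k8 1 (.s k85 k247 12 (.s k170 k255 14 (.s
  k243 k89 14 (.d k162 k174 k81 1 12))))), (.s k89 k243 14 (.s k9 k249 11 (.s k3 k6 2 (.s k252 k86
  14 (.d k172 k163 k92 2 11)))))] (.c k89 (.l (.s k4 k8 1 (.s k85 k247 12 (.s k170 k255 14 (.s k172
  k163 2 (.s k252 k92 11 (.d k168 k171 k84 0 13))))))) (.c k243 (.l (.s k4 k8 1 (.s k85 k247 12 (.s
  k255 k170 14 (.s k253 k1 13 (.s k172 k163 2 (.d k252 k254 k92 0 11))))))) .n))) .n))))) (.c k51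
  (.f k42 k21 6 (.q k40 [(.s k4 k8 1 (.s k20 k60 5 (.s k36 k52 3 (.s k48 k24 5 (.d k32 k44 k16 1
  3))))), (.s k60 k20 5 (.s k44 k28 3 (.s k46 k29 4 (.s k47 k45 0 (.d k32 k36 k37 1 2))))), (.s k8
  k4 1 (.s k56 k24 3 (.s k59 k25 4 (.s k58 k57 0 (.s k48 k53 2 (.d k60 k52 k20 1 5))))))] (.c k20
  (.l (.s k8 k4 1 (.s k24 k56 3 (.s k36 k48 5 (.s k46 k29 4 (.s k32 k44 1 (.s k37 k47 2 (.d k38 k39
  k34 0 1)))))))) (.c k24 (.l (.s k8 k4 1 (.s k60 k20 5 (.s k25 k59 4 (.s k28 k44 3 (.s k22 k19 2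
  (.d k62 k61 k2 0 5))))))) (.c k60 (.l (.s k8 k4 1 (.s k24 k56 3 (.s k25 k59 4 (.s k48 k36 5 (.s
  k58 k53 2 (.d k26 k27 k10 0 3))))))) (.c k169 (.q k232 [(.s k4 k8 1 (.s k20 k60 5 (.s k36 k52 3
  (.s k48 k24 5 (.d k32 k44 k16 1 3))))), (.s k4 k8 1 (.s k168 k104 7 (.s k84 k252 13 (.s k164 k244
  11 (.s k240 k88 13 (.d k160 k172 k80 1 11)))))), (.s k60 k20 5 (.s k44 k28 3 (.s k46 k29 4 (.s k47
  k45 0 (.d k32 k36 k37 1 2)))))] .n) (.c k232 (.q k169 [(.s k4 k8 1 (.s k20 k60 5 (.s k36 k52 3 (.s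
  k48 k24 5 (.d k32 k44 k16 1 3))))), (.s k60 k20 5 (.s k44 k28 3 (.s k46 k29 4 (.s k47 k45 0 (.d
  k32 k36 k37 1 2))))), (.s k8 k4 1 (.s k56 k24 3 (.s k59 k25 4 (.s k58 k57 0 (.s k48 k53 2 (.d k60
  k52 k20 1 5))))))] (.c k20 (.l (.s k8 k4 1 (.s k24 k56 3 (.s k36 k48 5 (.s k46 k29 4 (.s k32 k44 1
  (.s k37 k47 2 (.d k38 k39 k34 0 1)))))))) (.c k24 (.l (.s k8 k4 1 (.s k60 k20 5 (.s k25 k59 4 (.s
  k28 k44 3 (.s k22 k19 2 (.d k62 k61 k2 0 5))))))) (.c k60 (.l (.s k8 k4 1 (.s k24 k56 3 (.s k25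
  k59 4 (.s k48 k36 5 (.s k58 k53 2 (.d k26 k27 k10 0 3))))))) .n)))) .n))))))) (.c k55 (.l (.s k8
  k4 1 (.s k46 k29 4 (.s k42 k21 6 (.s k38 k34 1 (.d k25 k59 k51 4 6)))))) (.c k59 (.l (.s k4 k8 1
  (.s k29 k46 4 (.s k21 k42 6 (.s k25 k17 1 (.d k38 k55 k51 4 6)))))) (.c k169 (.q k232 [(.s k8 k4 1
  (.s k46 k29 4 (.s k42 k21 6 (.s k38 k34 1 (.d k25 k59 k51 4 6)))))] (.c k4 (.q k168 [(.s k252 k84
  13 (.s k104 k40 7 (.s k192 k212 5 (.s k148 k60 13 (.d k128 k188 k64 5 7))))), (.s k42 k21 6 (.s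
  k46 k29 4 (.s k40 k104 7 (.s k60 k20 5 (.s k44 k28 3 (.s k47 k45 0 (.d k32 k36 k37 1 2))))))), (.s
  k252 k84 13 (.s k172 k92 11 (.s k164 k160 1 (.s k192 k212 5 (.s k132 k72 9 (.s k148 k180 3 (.d
  k128 k188 k64 5 7)))))))] (.c k20 (.l (.s k252 k84 13 (.s k104 k40 7 (.s k192 k212 5 (.s k148 k60
  13 (.d k128 k188 k64 5 7)))))) .n)) (.c k8 (.q k168 [(.s k252 k84 13 (.s k104 k40 7 (.s k192 k212
  5 (.s k148 k60 13 (.d k128 k188 k64 5 7))))), (.s k42 k21 6 (.s k46 k29 4 (.s k40 k104 7 (.s k60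
  k20 5 (.s k44 k28 3 (.s k32 k36 1 (.d k47 k45 k37 0 2))))))), (.s k252 k84 13 (.s k172 k92 11 (.s
  k164 k160 1 (.s k192 k212 5 (.s k132 k72 9 (.s k148 k180 3 (.d k128 k188 k64 5 7)))))))] (.c k20
  (.l (.s k252 k84 13 (.s k104 k40 7 (.s k192 k212 5 (.s k148 k60 13 (.d k128 k188 k64 5 7))))))
  .n)) (.c k17 (.l (.s k8 k4 1 (.s k42 k21 6 (.s k25 k59 4 (.s k38 k51 6 (.d k46 k29 k34 4 1))))))
  (.c k21 (.q k168 [(.s k4 k8 1 (.s k84 k252 13 (.s k164 k244 11 (.s k240 k88 13 (.d k160 k172 k80 1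
  11))))), (.s k252 k84 13 (.s k104 k40 7 (.s k192 k212 5 (.s k128 k64 7 (.d k148 k188 k60 5
  13))))), (.s k4 k8 1 (.s k40 k104 7 (.s k20 k60 5 (.s k36 k52 3 (.s k48 k24 5 (.d k32 k44 k16 1
  3))))))] .n) (.c k25 (.q k168 [(.s k8 k4 1 (.s k252 k84 13 (.s k88 k248 11 (.s k164 k240 13 (.d
  k172 k160 k92 1 11))))), (.s k252 k84 13 (.s k104 k40 7 (.s k192 k212 5 (.s k128 k64 7 (.d k148
  k188 k60 5 13))))), (.s k4 k8 1 (.s k40 k104 7 (.s k20 k60 5 (.s k36 k52 3 (.s k48 k24 5 (.d k32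
  k44 k16 1 3))))))] .n) (.c k29 (.q k168 [(.s k4 k8 1 (.s k84 k252 13 (.s k164 k244 11 (.s k240 k88
  13 (.d k160 k172 k80 1 11))))), (.s k252 k84 13 (.s k104 k40 7 (.s k192 k212 5 (.s k128 k64 7 (.d
  k148 k188 k60 5 13))))), (.s k4 k8 1 (.s k40 k104 7 (.s k20 k60 5 (.s k36 k52 3 (.s k48 k24 5 (.d
  k32 k44 k16 1 3))))))] .n) (.c k34 (.l (.s k4 k8 1 (.s k21 k42 6 (.s k38 k55 4 (.s k25 k51 6 (.d
  k29 k46 k17 4 1)))))) (.c k38 (.q k168 [(.s k4 k8 1 (.s k84 k252 13 (.s k164 k244 11 (.s k240 k88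
  13 (.d k160 k172 k80 1 11))))), (.s k252 k84 13 (.s k104 k40 7 (.s k192 k212 5 (.s k128 k64 7 (.d
  k148 k188 k60 5 13))))), (.s k4 k8 1 (.s k40 k104 7 (.s k20 k60 5 (.s k36 k52 3 (.s k48 k24 5 (.d
  k32 k44 k16 1 3))))))] .n) (.c k42 (.f k8 k4 1 (.f k46 k29 4 (.q k40 [(.s k20 k60 5 (.s k24 k56 3
  (.s k48 k36 5 (.d k16 k28 k32 1 3)))), (.s k168 k104 7 (.s k84 k252 13 (.s k88 k248 11 (.s k240
  k164 13 (.d k80 k92 k160 1 11)))))] (.c k170 (.q k234 [(.s k20 k60 5 (.s k24 k56 3 (.s k48 k36 5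
  (.d k16 k28 k32 1 3)))), (.s k168 k104 7 (.s k84 k252 13 (.s k88 k248 11 (.s k240 k164 13 (.d k80
  k92 k160 1 11)))))] (.c k168 (.q k171 [(.s k20 k60 5 (.s k24 k56 3 (.s k48 k36 5 (.d k16 k28 k32 1
  3)))), (.s k60 k20 5 (.s k62 k61 0 (.s k30 k14 3 (.s k45 k15 4 (.d k44 k47 k28 0 3)))))] (.c k20
  (.l (.s k24 k56 3 (.s k36 k48 5 (.s k44 k32 1 (.s k60 k28 3 (.s k62 k61 0 (.s k30 k14 3 (.d k45
  k47 k15 0 4)))))))) (.c k28 (.l (.s k60 k20 5 (.s k24 k56 3 (.s k36 k48 5 (.s k44 k32 1 (.s k62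
  k61 0 (.s k30 k14 3 (.d k45 k47 k15 0 4)))))))) (.c k36 (.l (.s k56 k24 3 (.s k60 k20 5 (.s k52
  k48 1 (.s k62 k61 0 (.s k30 k14 3 (.s k45 k15 4 (.d k44 k28 k47 3 0)))))))) (.c k52 (.l (.s k20
  k60 5 (.s k24 k56 3 (.s k48 k36 5 (.d k16 k28 k32 1 3))))) (.c k60 (.q k10 [(.s k5 k15 2 (.s k9
  k11 0 (.s k3 k6 2 (.d k1 k2 k13 0 1)))), (.s k11 k9 0 (.s k251 k91 11 (.s k200 k217 4 (.s k72 k136
  7 (.s k74 k137 8 (.s k138 k202 7 (.d k73 k75 k203 0 8))))))), (.s k15 k5 2 (.s k24 k56 3 (.s k47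
  k31 3 (.s k44 k45 0 (.d k36 k48 k32 5 1)))))] .n) .n)))))) (.c k171 (.l (.s k168 k104 7 (.s k20
  k60 5 (.s k24 k56 3 (.s k48 k36 5 (.d k16 k28 k32 1 3)))))) .n))) (.c k234 (.q k170 [(.s k20 k60 5
  (.s k24 k56 3 (.s k48 k36 5 (.d k16 k28 k32 1 3)))), (.s k85 k255 14 (.s k89 k251 12 (.s k243 k166
  14 (.d k81 k93 k162 1 12))))] .n) .n))))) (.c k46 (.q k166 [(.s k4 k8 1 (.s k85 k247 12 (.s k170
  k255 14 (.s k162 k174 1 (.d k243 k81 k89 12 14))))), (.s k4 k8 1 (.s k21 k42 6 (.s k85 k247 12 (.s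
  k149 k213 7 (.s k132 k183 4 (.s k196 k68 7 (.d k55 k38 k102 4 12))))))), (.s k21 k42 6 (.s k243
  k89 14 (.s k162 k81 12 (.s k170 k174 1 (.s k85 k255 14 (.s k149 k213 7 (.d k183 k123 k132 9
  4)))))))] (.c k85 (.f k8 k4 1 (.l (.s k42 k21 6 (.s k25 k59 4 (.s k89 k243 14 (.s k153 k217 7 (.s
  k140 k179 6 (.s k204 k76 7 (.d k51 k38 k102 6 14))))))))) (.c k170 (.f k8 k4 1 (.l (.s k42 k21 6
  (.s k25 k59 4 (.s k89 k243 14 (.s k153 k217 7 (.s k140 k179 6 (.s k204 k76 7 (.d k51 k38 k102 6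
  14))))))))) .n))) (.c k51 (.q k168 [(.s k4 k8 1 (.s k84 k252 13 (.s k164 k244 11 (.s k240 k88 13
  (.d k160 k172 k80 1 11))))), (.s k252 k84 13 (.s k104 k40 7 (.s k192 k212 5 (.s k128 k64 7 (.d
  k148 k188 k60 5 13))))), (.s k4 k8 1 (.s k40 k104 7 (.s k20 k60 5 (.s k36 k52 3 (.s k48 k24 5 (.d
  k32 k44 k16 1 3))))))] .n) (.c k55 (.l (.s k8 k4 1 (.s k46 k29 4 (.s k42 k21 6 (.s k38 k34 1 (.d
  k25 k59 k51 4 6)))))) (.c k59 (.l (.s k4 k8 1 (.s k29 k46 4 (.s k21 k42 6 (.s k25 k17 1 (.d k38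
  k55 k51 4 6)))))) .n)))))))))))))) (.c k232 (.q k169 [(.s k8 k4 1 (.s k46 k29 4 (.s k42 k21 6 (.s
  k38 k34 1 (.d k25 k59 k51 4 6)))))] (.c k4 (.q k168 [(.s k170 k171 0 (.s k85 k255 14 (.s k1 k253
  13 (.s k3 k2 0 (.d k252 k84 k86 13 14))))), (.s k252 k84 13 (.s k86 k3 14 (.s k92 k172 11 (.s k89
  k83 2 (.s k249 k9 11 (.d k243 k246 k166 2 14)))))), (.s k42 k21 6 (.s k46 k29 4 (.s k170 k171 0
  (.s k255 k85 14 (.s k174 k93 12 (.s k238 k110 7 (.d k34 k38 k102 1 9)))))))] .n) (.c k8 (.q k168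
  [(.s k252 k84 13 (.s k3 k86 14 (.s k1 k2 0 (.s k85 k253 13 (.d k170 k171 k255 0 14))))), (.s k42
  k21 6 (.s k46 k29 4 (.s k34 k38 1 (.s k170 k171 0 (.s k255 k85 14 (.s k174 k93 12 (.d k238 k110
  k102 7 9))))))), (.s k252 k84 13 (.s k86 k3 14 (.s k92 k172 11 (.s k89 k83 2 (.s k249 k9 11 (.d
  k243 k246 k166 2 14))))))] .n) (.c k17 (.l (.s k8 k4 1 (.s k42 k21 6 (.s k25 k59 4 (.s k38 k51 6
  (.d k46 k29 k34 4 1)))))) (.c k21 (.q k168 [(.s k4 k8 1 (.s k84 k252 13 (.s k164 k244 11 (.s k240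
  k88 13 (.d k160 k172 k80 1 11))))), (.s k252 k84 13 (.s k3 k86 14 (.s k1 k2 0 (.s k85 k253 13 (.d
  k170 k171 k255 0 14))))), (.s k4 k8 1 (.s k170 k171 0 (.s k85 k255 14 (.s k166 k247 12 (.s k243
  k89 14 (.d k162 k174 k81 1 12))))))] .n) (.c k25 (.q k168 [(.s k8 k4 1 (.s k252 k84 13 (.s k88
  k248 11 (.s k164 k240 13 (.d k172 k160 k92 1 11))))), (.s k252 k84 13 (.s k3 k86 14 (.s k1 k2 0
  (.s k85 k253 13 (.d k170 k171 k255 0 14))))), (.s k4 k8 1 (.s k170 k171 0 (.s k85 k255 14 (.s k166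
  k247 12 (.s k243 k89 14 (.d k162 k174 k81 1 12))))))] .n) (.c k29 (.q k168 [(.s k4 k8 1 (.s k84
  k252 13 (.s k164 k244 11 (.s k240 k88 13 (.d k160 k172 k80 1 11))))), (.s k252 k84 13 (.s k3 k86
  14 (.s k1 k2 0 (.s k85 k253 13 (.d k170 k171 k255 0 14))))), (.s k4 k8 1 (.s k170 k171 0 (.s k85
  k255 14 (.s k166 k247 12 (.s k243 k89 14 (.d k162 k174 k81 1 12))))))] .n) (.c k34 (.l (.s k4 k8 1
  (.s k21 k42 6 (.s k38 k55 4 (.s k25 k51 6 (.d k29 k46 k17 4 1)))))) (.c k38 (.q k168 [(.s k4 k8 1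
  (.s k84 k252 13 (.s k164 k244 11 (.s k240 k88 13 (.d k160 k172 k80 1 11))))), (.s k252 k84 13 (.s
  k3 k86 14 (.s k1 k2 0 (.s k85 k253 13 (.d k170 k171 k255 0 14))))), (.s k4 k8 1 (.s k170 k171 0
  (.s k85 k255 14 (.s k166 k247 12 (.s k243 k89 14 (.d k162 k174 k81 1 12))))))] .n) (.c k42 (.f k8
  k4 1 (.f k46 k29 4 (.q k170 [(.s k85 k255 14 (.s k89 k251 12 (.s k243 k166 14 (.d k81 k93 k162 1
  12)))), (.s k89 k251 12 (.s k9 k249 11 (.s k3 k6 2 (.s k2 k1 0 (.d k86 k254 k252 13 14))))), (.s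
  k85 k255 14 (.s k1 k253 13 (.s k3 k2 0 (.s k252 k86 14 (.d k168 k171 k84 0 13)))))] (.c k40 (.q
  k41 [(.s k85 k255 14 (.s k89 k251 12 (.s k243 k166 14 (.d k81 k93 k162 1 12)))), (.s k168 k171 0
  (.s k84 k252 13 (.s k88 k248 11 (.s k240 k164 13 (.d k80 k92 k160 1 11)))))] (.c k104 (.l (.s k168
  k171 0 (.s k84 k252 13 (.s k88 k248 11 (.s k240 k164 13 (.d k80 k92 k160 1 11)))))) (.c k168 (.q
  k104 [(.s k85 k255 14 (.s k89 k251 12 (.s k243 k166 14 (.d k81 k93 k162 1 12)))), (.s k89 k251 12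
  (.s k9 k249 11 (.s k3 k6 2 (.s k2 k1 0 (.d k86 k254 k252 13 14))))), (.s k85 k255 14 (.s k1 k253
  13 (.s k3 k2 0 (.s k61 k21 5 (.d k60 k62 k22 0 6)))))] .n) .n))) (.c k41 (.q k40 [(.s k85 k255 14
  (.s k89 k251 12 (.s k243 k166 14 (.d k81 k93 k162 1 12)))), (.s k20 k60 5 (.s k24 k56 3 (.s k48
  k36 5 (.d k16 k28 k32 1 3))))] .n) .n))))) (.c k46 (.q k166 [(.s k4 k8 1 (.s k85 k247 12 (.s k170
  k255 14 (.s k243 k89 14 (.d k162 k174 k81 1 12))))), (.s k89 k243 14 (.s k9 k249 11 (.s k3 k6 2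
  (.s k252 k86 14 (.d k172 k163 k92 2 11)))))] (.c k89 (.l (.s k4 k8 1 (.s k85 k247 12 (.s k170 k255
  14 (.s k172 k163 2 (.s k252 k92 11 (.d k168 k171 k84 0 13))))))) (.c k243 (.l (.s k4 k8 1 (.s k85
  k247 12 (.s k255 k170 14 (.s k253 k1 13 (.s k172 k163 2 (.d k252 k254 k92 0 11))))))) .n))) (.c
  k51 (.q k166 [(.s k4 k8 1 (.s k85 k247 12 (.s k170 k255 14 (.s k162 k174 1 (.d k243 k81 k89 12
  14))))), (.s k89 k243 14 (.s k9 k249 11 (.s k3 k6 2 (.s k252 k86 14 (.d k172 k163 k92 2 11)))))]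
  (.c k89 (.l (.s k4 k8 1 (.s k85 k247 12 (.s k170 k255 14 (.s k172 k163 2 (.s k252 k92 11 (.d k168
  k171 k84 0 13))))))) (.c k243 (.l (.s k4 k8 1 (.s k85 k247 12 (.s k255 k170 14 (.s k253 k1 13 (.s
  k172 k163 2 (.d k252 k254 k92 0 11))))))) .n))) (.c k55 (.l (.s k8 k4 1 (.s k46 k29 4 (.s k42 k21
  6 (.s k38 k34 1 (.d k25 k59 k51 4 6)))))) (.c k59 (.l (.s k4 k8 1 (.s k29 k46 4 (.s k21 k42 6 (.s
  k25 k17 1 (.d k38 k55 k51 4 6)))))) .n)))))))))))))) .n))))))))))))))))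

def t47 : T TT 256 :=
  (.q k51 [(.s k34 k17 4 (.s k59 k55 1 (.s k42 k21 6 (.s k25 k8 4 (.d k38 k46 k12 1 6)))))] (.c k4
  (.l (.s k34 k17 4 (.s k42 k21 6 (.s k38 k46 1 (.s k25 k12 6 (.d k59 k55 k8 1 4)))))) (.c k8 (.l
  (.s k17 k34 4 (.s k21 k42 6 (.s k25 k29 1 (.s k38 k12 6 (.d k55 k59 k4 1 4)))))) (.c k12 (.f k17
  k34 4 (.f k42 k21 6 (.q k60 [(.s k62 k61 0 (.s k40 k20 5 (.s k22 k2 5 (.d k41 k43 k3 0 6)))), (.s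
  k54 k57 2 (.s k55 k59 1 (.s k53 k52 0 (.s k58 k48 2 (.d k62 k61 k50 0 1))))), (.s k40 k20 5 (.s
  k41 k43 0 (.s k57 k54 2 (.s k25 k9 3 (.d k59 k55 k8 1 4)))))] (.c k165 (.q k224 [(.s k62 k61 0 (.s
  k40 k20 5 (.s k22 k2 5 (.d k41 k43 k3 0 6)))), (.s k54 k57 2 (.s k55 k59 1 (.s k53 k52 0 (.s k58
  k48 2 (.d k62 k61 k50 0 1))))), (.s k40 k20 5 (.s k41 k43 0 (.s k57 k54 2 (.s k25 k9 3 (.d k59 k55
  k8 1 4)))))] .n) (.c k224 (.q k165 [(.s k62 k61 0 (.s k40 k20 5 (.s k22 k2 5 (.d k41 k43 k3 0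
  6)))), (.s k54 k57 2 (.s k55 k59 1 (.s k53 k52 0 (.s k58 k48 2 (.d k62 k61 k50 0 1))))), (.s k40
  k20 5 (.s k41 k43 0 (.s k57 k54 2 (.s k25 k9 3 (.d k59 k55 k8 1 4)))))] .n) .n))))) (.c k17 (.q
  k60 [(.s k54 k57 2 (.s k55 k59 1 (.s k53 k52 0 (.s k58 k48 2 (.d k62 k61 k50 0 1))))), (.s k20 k40
  5 (.s k21 k42 6 (.s k22 k23 0 (.s k41 k3 6 (.d k61 k62 k1 0 5))))), (.s k20 k40 5 (.s k21 k42 6
  (.s k22 k23 0 (.s k54 k57 2 (.s k38 k6 3 (.d k55 k59 k4 1 4))))))] (.c k165 (.q k224 [(.s k54 k57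
  2 (.s k55 k59 1 (.s k53 k52 0 (.s k58 k48 2 (.d k62 k61 k50 0 1))))), (.s k20 k40 5 (.s k21 k42 6
  (.s k22 k23 0 (.s k41 k3 6 (.d k61 k62 k1 0 5))))), (.s k20 k40 5 (.s k21 k42 6 (.s k22 k23 0 (.s
  k54 k57 2 (.s k38 k6 3 (.d k55 k59 k4 1 4))))))] .n) (.c k224 (.q k165 [(.s k54 k57 2 (.s k55 k59
  1 (.s k53 k52 0 (.s k58 k48 2 (.d k62 k61 k50 0 1))))), (.s k20 k40 5 (.s k21 k42 6 (.s k22 k23 0
  (.s k41 k3 6 (.d k61 k62 k1 0 5))))), (.s k20 k40 5 (.s k21 k42 6 (.s k22 k23 0 (.s k54 k57 2 (.s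
  k38 k6 3 (.d k55 k59 k4 1 4))))))] .n) .n))) (.c k21 (.q k255 [(.s k17 k34 4 (.s k85 k170 14 (.s
  k153 k221 9 (.s k102 k204 14 (.d k119 k68 k187 4 9))))), (.s k59 k55 1 (.s k187 k119 9 (.s k123
  k251 7 (.s k183 k243 9 (.d k191 k179 k127 1 7))))), (.s k34 k17 4 (.s k170 k85 14 (.s k102 k238 9
  (.s k55 k59 1 (.s k149 k196 12 (.d k191 k127 k128 7 6))))))] (.c k165 (.q k224 [(.s k55 k59 1 (.s
  k119 k187 9 (.s k183 k247 7 (.s k123 k243 9 (.d k127 k115 k191 1 7))))), (.s k17 k34 4 (.s k85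
  k170 14 (.s k153 k221 9 (.s k102 k204 14 (.d k119 k68 k187 4 9))))), (.s k34 k17 4 (.s k170 k85 14
  (.s k102 k238 9 (.s k55 k59 1 (.s k149 k196 12 (.d k191 k127 k128 7 6))))))] (.c k153 (.l (.s k59
  k55 1 (.s k187 k119 9 (.s k123 k251 7 (.s k183 k243 9 (.d k191 k179 k127 1 7)))))) .n)) (.c k224
  (.q k165 [(.s k17 k34 4 (.s k85 k170 14 (.s k153 k221 9 (.s k102 k204 14 (.d k119 k68 k187 4
  9))))), (.s k55 k59 1 (.s k119 k187 9 (.s k183 k247 7 (.s k123 k243 9 (.d k127 k115 k191 1 7))))),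
  (.s k85 k170 14 (.s k5 k245 11 (.s k15 k10 2 (.s k90 k240 14 (.d k95 k80 k175 2 11)))))] .n) .n)))
  (.c k25 (.f k17 k34 4 (.f k42 k21 6 (.q k48 [(.s k16 k32 3 (.s k18 k19 0 (.s k33 k3 4 (.d k49 k50
  k1 0 3)))), (.s k50 k49 0 (.s k58 k53 2 (.s k54 k62 1 (.s k57 k60 2 (.d k59 k56 k55 0 1))))), (.s
  k16 k32 3 (.s k18 k19 0 (.s k58 k53 2 (.s k26 k10 3 (.s k22 k30 1 (.s k2 k62 5 (.d k3 k33 k1 4
  0)))))))] (.c k165 (.q k224 [(.s k16 k32 3 (.s k18 k19 0 (.s k33 k3 4 (.d k49 k50 k1 0 3)))), (.s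
  k50 k49 0 (.s k58 k53 2 (.s k54 k62 1 (.s k57 k60 2 (.d k59 k56 k55 0 1))))), (.s k16 k32 3 (.s
  k18 k19 0 (.s k58 k53 2 (.s k26 k10 3 (.s k22 k30 1 (.s k2 k62 5 (.d k3 k33 k1 4 0)))))))] .n) (.c
  k224 (.q k165 [(.s k49 k50 0 (.s k33 k1 3 (.s k18 k3 4 (.d k16 k19 k32 0 3)))), (.s k50 k49 0 (.s
  k58 k53 2 (.s k54 k62 1 (.s k57 k60 2 (.d k59 k56 k55 0 1))))), (.s k16 k32 3 (.s k18 k19 0 (.s
  k58 k53 2 (.s k26 k10 3 (.s k22 k30 1 (.s k2 k62 5 (.d k3 k33 k1 4 0)))))))] .n) .n))))) (.c k29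
  (.l (.s k34 k17 4 (.s k59 k55 1 (.s k42 k21 6 (.s k25 k8 4 (.d k38 k46 k12 1 6)))))) (.c k34 (.f
  k42 k21 6 (.q k48 [(.s k50 k49 0 (.s k58 k53 2 (.s k54 k62 1 (.s k57 k60 2 (.d k59 k56 k55 0
  1))))), (.s k49 k50 0 (.s k59 k55 1 (.s k25 k8 4 (.s k38 k12 6 (.s k37 k13 5 (.s k15 k26 6 (.d k39
  k36 k27 0 5))))))), (.s k58 k53 2 (.s k26 k10 3 (.s k59 k55 1 (.s k25 k8 4 (.s k24 k27 0 (.d k12
  k38 k36 6 5))))))] (.c k37 (.l (.s k49 k50 0 (.s k53 k58 2 (.s k57 k61 1 (.s k54 k60 2 (.d k55 k52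
  k59 0 1)))))) (.c k55 (.l (.s k49 k50 0 (.s k58 k53 2 (.s k26 k10 3 (.s k37 k15 6 (.s k25 k13 5
  (.s k8 k59 4 (.d k12 k4 k38 1 6)))))))) (.c k59 (.l (.s k49 k50 0 (.s k58 k53 2 (.s k26 k10 3 (.s
  k37 k15 6 (.s k25 k13 5 (.s k12 k38 6 (.d k24 k27 k36 0 5)))))))) (.c k165 (.q k224 [(.s k50 k49 0
  (.s k58 k53 2 (.s k54 k62 1 (.s k57 k60 2 (.d k59 k56 k55 0 1))))), (.s k32 k16 3 (.s k96 k160 7
  (.s k50 k49 0 (.s k192 k144 11 (.s k98 k145 12 (.s k146 k194 11 (.d k97 k99 k195 0 12))))))), (.s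
  k58 k53 2 (.s k26 k10 3 (.s k59 k55 1 (.s k25 k8 4 (.s k24 k27 0 (.d k12 k38 k36 6 5))))))] .n)
  (.c k224 (.q k165 [(.s k50 k49 0 (.s k58 k53 2 (.s k54 k62 1 (.s k57 k60 2 (.d k59 k56 k55 0
  1))))), (.s k49 k50 0 (.s k59 k55 1 (.s k25 k8 4 (.s k38 k12 6 (.s k37 k13 5 (.s k15 k26 6 (.d k39
  k36 k27 0 5))))))), (.s k58 k53 2 (.s k26 k10 3 (.s k59 k55 1 (.s k25 k8 4 (.s k24 k27 0 (.d k12
  k38 k36 6 5))))))] (.c k37 (.l (.s k49 k50 0 (.s k53 k58 2 (.s k57 k61 1 (.s k54 k60 2 (.d k55 k52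
  k59 0 1)))))) (.c k55 (.l (.s k49 k50 0 (.s k58 k53 2 (.s k26 k10 3 (.s k37 k15 6 (.s k25 k13 5
  (.s k8 k59 4 (.d k12 k4 k38 1 6)))))))) (.c k59 (.l (.s k49 k50 0 (.s k58 k53 2 (.s k26 k10 3 (.s
  k37 k15 6 (.s k25 k13 5 (.s k12 k38 6 (.d k24 k27 k36 0 5)))))))) .n)))) .n))))))) (.c k38 (.q k60
  [(.s k54 k57 2 (.s k55 k59 1 (.s k53 k52 0 (.s k58 k48 2 (.d k62 k61 k50 0 1))))), (.s k20 k40 5
  (.s k21 k42 6 (.s k22 k23 0 (.s k41 k3 6 (.d k61 k62 k1 0 5))))), (.s k40 k20 5 (.s k42 k21 6 (.s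
  k41 k43 0 (.s k57 k54 2 (.s k25 k9 3 (.d k59 k55 k8 1 4))))))] (.c k165 (.q k224 [(.s k54 k57 2
  (.s k55 k59 1 (.s k53 k52 0 (.s k58 k48 2 (.d k62 k61 k50 0 1))))), (.s k20 k40 5 (.s k21 k42 6
  (.s k22 k23 0 (.s k41 k3 6 (.d k61 k62 k1 0 5))))), (.s k40 k20 5 (.s k42 k21 6 (.s k41 k43 0 (.s
  k57 k54 2 (.s k25 k9 3 (.d k59 k55 k8 1 4))))))] .n) (.c k224 (.q k165 [(.s k54 k57 2 (.s k55 k59
  1 (.s k53 k52 0 (.s k58 k48 2 (.d k62 k61 k50 0 1))))), (.s k20 k40 5 (.s k21 k42 6 (.s k22 k23 0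
  (.s k41 k3 6 (.d k61 k62 k1 0 5))))), (.s k40 k20 5 (.s k42 k21 6 (.s k41 k43 0 (.s k57 k54 2 (.s
  k25 k9 3 (.d k59 k55 k8 1 4))))))] .n) .n))) (.c k42 (.f k59 k55 1 (.q k32 [(.s k48 k16 3 (.s k50
  k49 0 (.s k58 k53 2 (.s k57 k56 0 (.d k54 k62 k60 1 2))))), (.s k48 k16 3 (.s k34 k17 4 (.s k33
  k35 0 (.s k18 k3 4 (.d k50 k49 k2 0 3)))))] (.c k16 (.q k224 [(.s k34 k17 4 (.s k35 k33 0 (.s k96
  k160 7 (.s k98 k161 8 (.s k97 k99 0 (.d k162 k226 k227 7 8)))))), (.s k160 k96 7 (.s k240 k80 11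
  (.s k114 k177 8 (.s k122 k181 10 (.s k185 k248 8 (.d k118 k126 k252 1 10)))))), (.s k34 k17 4 (.s
  k35 k33 0 (.s k98 k161 8 (.s k162 k226 7 (.s k81 k243 12 (.s k192 k145 12 (.d k64 k115 k128 4
  7)))))))] (.c k170 (.q k234 [(.s k160 k96 7 (.s k240 k80 11 (.s k114 k177 8 (.s k122 k181 10 (.s
  k185 k248 8 (.d k118 k126 k252 1 10)))))), (.s k34 k17 4 (.s k35 k33 0 (.s k96 k160 7 (.s k98 k161
  8 (.s k162 k226 7 (.d k97 k99 k227 0 8)))))), (.s k34 k17 4 (.s k35 k33 0 (.s k98 k161 8 (.s k162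
  k226 7 (.s k81 k243 12 (.s k192 k145 12 (.d k64 k115 k128 4 7)))))))] .n) (.c k234 (.q k170 [(.s
  k17 k34 4 (.s k85 k255 14 (.s k153 k221 9 (.s k136 k187 4 (.d k204 k68 k102 9 14))))), (.s k34 k17
  4 (.s k35 k33 0 (.s k96 k160 7 (.s k98 k161 8 (.s k162 k226 7 (.d k97 k99 k227 0 8)))))), (.s k255
  k85 14 (.s k187 k119 9 (.s k123 k251 7 (.s k183 k243 9 (.d k191 k127 k179 7 1)))))] .n) .n))) (.c
  k48 (.q k224 [(.s k34 k17 4 (.s k35 k33 0 (.s k96 k160 7 (.s k98 k161 8 (.s k162 k226 7 (.d k97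
  k99 k227 0 8)))))), (.s k160 k96 7 (.s k240 k80 11 (.s k114 k177 8 (.s k122 k181 10 (.s k185 k248
  8 (.d k118 k126 k252 1 10)))))), (.s k34 k17 4 (.s k35 k33 0 (.s k98 k161 8 (.s k162 k226 7 (.s
  k81 k243 12 (.s k192 k145 12 (.d k64 k115 k128 4 7)))))))] (.c k170 (.q k234 [(.s k160 k96 7 (.s
  k240 k80 11 (.s k114 k177 8 (.s k122 k181 10 (.s k185 k248 8 (.d k118 k126 k252 1 10)))))), (.s
  k34 k17 4 (.s k35 k33 0 (.s k96 k160 7 (.s k98 k161 8 (.s k162 k226 7 (.d k97 k99 k227 0 8)))))),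
  (.s k34 k17 4 (.s k35 k33 0 (.s k98 k161 8 (.s k162 k226 7 (.s k81 k243 12 (.s k192 k145 12 (.d
  k64 k115 k128 4 7)))))))] .n) (.c k234 (.q k170 [(.s k34 k17 4 (.s k85 k255 14 (.s k102 k238 9 (.s
  k204 k153 14 (.d k68 k119 k136 4 9))))), (.s k34 k17 4 (.s k35 k33 0 (.s k3 k19 3 (.s k160 k96 7
  (.s k240 k80 11 (.d k161 k98 k82 8 12)))))), (.s k255 k85 14 (.s k187 k119 9 (.s k123 k251 7 (.s
  k183 k243 9 (.d k191 k127 k179 7 1)))))] .n) .n))) (.c k49 (.f k48 k16 3 (.l (.s k34 k17 4 (.s k33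
  k35 0 (.s k18 k3 4 (.s k50 k2 3 (.s k58 k53 2 (.s k57 k56 0 (.d k54 k62 k60 1 2))))))))) (.c k50
  (.f k48 k16 3 (.q k224 [(.s k34 k17 4 (.s k35 k33 0 (.s k96 k160 7 (.s k98 k161 8 (.d k192 k144
  k145 11 12))))), (.s k160 k96 7 (.s k240 k80 11 (.s k114 k177 8 (.s k122 k181 10 (.s k185 k248 8
  (.d k118 k126 k252 1 10)))))), (.s k34 k17 4 (.s k35 k33 0 (.s k98 k161 8 (.s k162 k226 7 (.s k81
  k243 12 (.s k192 k145 12 (.d k64 k115 k128 4 7)))))))] (.c k170 (.q k234 [(.s k34 k17 4 (.s k35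
  k33 0 (.s k96 k160 7 (.s k98 k161 8 (.d k192 k144 k145 11 12))))), (.s k160 k96 7 (.s k240 k80 11
  (.s k114 k177 8 (.s k122 k181 10 (.s k185 k248 8 (.d k118 k126 k252 1 10)))))), (.s k34 k17 4 (.s
  k35 k33 0 (.s k98 k161 8 (.s k162 k226 7 (.s k81 k243 12 (.s k192 k145 12 (.d k64 k115 k128 4
  7)))))))] .n) (.c k234 (.q k170 [(.s k255 k85 14 (.s k186 k117 10 (.s k154 k138 3 (.d k101 k239
  k207 10 14)))), (.s k34 k17 4 (.s k35 k33 0 (.s k96 k160 7 (.s k98 k161 8 (.d k192 k144 k145 11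
  12)))))] .n) .n)))) (.c k165 (.q k224 [(.s k48 k16 3 (.s k50 k49 0 (.s k58 k53 2 (.s k57 k56 0 (.d
  k54 k62 k60 1 2))))), (.s k34 k17 4 (.s k35 k33 0 (.s k96 k160 7 (.s k98 k161 8 (.s k162 k226 7
  (.d k97 k99 k227 0 8))))))] (.c k49 (.l (.s k48 k16 3 (.s k34 k17 4 (.s k96 k160 7 (.s k192 k144
  11 (.s k98 k145 12 (.d k35 k33 k161 0 8))))))) (.c k170 (.q k234 [(.s k48 k16 3 (.s k50 k49 0 (.s
  k58 k53 2 (.s k57 k56 0 (.d k54 k62 k60 1 2))))), (.s k34 k17 4 (.s k35 k33 0 (.s k160 k96 7 (.s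
  k240 k80 11 (.s k98 k161 8 (.d k192 k208 k145 3 12))))))] (.c k49 (.l (.s k34 k17 4 (.s k160 k96 7
  (.s k240 k80 11 (.s k192 k208 3 (.s k98 k145 12 (.d k35 k33 k161 0 8))))))) (.c k160 (.q k175 [(.s
  k48 k16 3 (.s k50 k49 0 (.s k58 k53 2 (.s k57 k56 0 (.d k54 k62 k60 1 2))))), (.s k34 k17 4 (.s
  k35 k33 0 (.s k98 k161 8 (.s k162 k226 7 (.s k81 k243 12 (.s k192 k145 12 (.d k64 k115 k128 4
  7)))))))] (.c k49 (.f k48 k16 3 (.l (.s k34 k17 4 (.s k33 k35 0 (.s k18 k3 4 (.s k50 k2 3 (.s k58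
  k53 2 (.s k57 k56 0 (.d k54 k62 k60 1 2))))))))) .n)) (.c k175 (.l (.s k160 k96 7 (.s k48 k16 3
  (.s k34 k17 4 (.s k33 k35 0 (.s k18 k3 4 (.d k50 k49 k2 0 3))))))) .n)))) (.c k234 (.q k170 [(.s
  k48 k16 3 (.s k34 k17 4 (.s k33 k35 0 (.s k18 k3 4 (.d k50 k49 k2 0 3))))), (.s k48 k16 3 (.s k85
  k255 14 (.s k101 k239 10 (.s k207 k154 14 (.d k69 k117 k138 3 10))))), (.s k17 k34 4 (.s k85 k255
  14 (.s k153 k221 9 (.s k204 k102 14 (.d k136 k187 k68 4 9)))))] .n) .n)))) (.c k170 (.q k234 [(.s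
  k48 k16 3 (.s k50 k49 0 (.s k58 k53 2 (.s k57 k56 0 (.d k54 k62 k60 1 2))))), (.s k48 k16 3 (.s
  k34 k17 4 (.s k33 k35 0 (.s k18 k3 4 (.d k50 k49 k2 0 3)))))] (.c k16 (.q k224 [(.s k160 k96 7 (.s
  k240 k80 11 (.s k114 k177 8 (.s k122 k181 10 (.s k185 k248 8 (.d k118 k126 k252 1 10)))))), (.s
  k34 k17 4 (.s k35 k33 0 (.s k96 k160 7 (.s k98 k161 8 (.s k162 k226 7 (.d k97 k99 k227 0 8)))))),
  (.s k34 k17 4 (.s k35 k33 0 (.s k98 k161 8 (.s k162 k226 7 (.s k81 k243 12 (.s k192 k145 12 (.d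
  k64 k115 k128 4 7)))))))] .n) (.c k48 (.q k224 [(.s k160 k96 7 (.s k240 k80 11 (.s k114 k177 8 (.s
  k122 k181 10 (.s k185 k248 8 (.d k118 k126 k252 1 10)))))), (.s k34 k17 4 (.s k35 k33 0 (.s k96
  k160 7 (.s k98 k161 8 (.s k162 k226 7 (.d k97 k99 k227 0 8)))))), (.s k34 k17 4 (.s k35 k33 0 (.s
  k98 k161 8 (.s k162 k226 7 (.s k81 k243 12 (.s k192 k145 12 (.d k64 k115 k128 4 7)))))))] .n) (.c
  k49 (.f k48 k16 3 (.l (.s k34 k17 4 (.s k33 k35 0 (.s k18 k3 4 (.s k50 k2 3 (.s k58 k53 2 (.s k57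
  k56 0 (.d k54 k62 k60 1 2))))))))) (.c k50 (.q k224 [(.s k160 k96 7 (.s k240 k80 11 (.s k114 k177
  8 (.s k122 k181 10 (.s k185 k248 8 (.d k118 k126 k252 1 10)))))), (.s k48 k16 3 (.s k34 k17 4 (.s
  k35 k33 0 (.s k96 k160 7 (.s k98 k161 8 (.d k192 k144 k145 11 12)))))), (.s k34 k17 4 (.s k35 k33
  0 (.s k98 k161 8 (.s k162 k226 7 (.s k81 k243 12 (.s k192 k145 12 (.d k64 k115 k128 4 7)))))))]
  .n) (.c k165 (.q k224 [(.s k48 k16 3 (.s k50 k49 0 (.s k58 k53 2 (.s k57 k56 0 (.d k54 k62 k60 1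
  2))))), (.s k34 k17 4 (.s k35 k33 0 (.s k160 k96 7 (.s k240 k80 11 (.s k98 k161 8 (.d k192 k208
  k145 3 12))))))] (.c k49 (.l (.s k34 k17 4 (.s k160 k96 7 (.s k240 k80 11 (.s k192 k208 3 (.s k98
  k145 12 (.d k35 k33 k161 0 8))))))) (.c k160 (.q k175 [(.s k48 k16 3 (.s k50 k49 0 (.s k58 k53 2
  (.s k57 k56 0 (.d k54 k62 k60 1 2))))), (.s k34 k17 4 (.s k35 k33 0 (.s k98 k161 8 (.s k162 k226 7
  (.s k81 k243 12 (.s k192 k145 12 (.d k64 k115 k128 4 7)))))))] (.c k49 (.f k48 k16 3 (.l (.s k34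
  k17 4 (.s k33 k35 0 (.s k18 k3 4 (.s k50 k2 3 (.s k58 k53 2 (.s k57 k56 0 (.d k54 k62 k60 1
  2))))))))) .n)) (.c k175 (.l (.s k160 k96 7 (.s k48 k16 3 (.s k34 k17 4 (.s k33 k35 0 (.s k18 k3 4
  (.d k50 k49 k2 0 3))))))) .n)))) (.c k224 (.q k165 [(.s k48 k16 3 (.s k50 k49 0 (.s k58 k53 2 (.s
  k57 k56 0 (.d k54 k62 k60 1 2))))), (.s k48 k16 3 (.s k34 k17 4 (.s k33 k35 0 (.s k18 k3 4 (.d k50
  k49 k2 0 3)))))] (.c k16 (.q k60 [(.s k57 k54 2 (.s k58 k56 0 (.s k53 k48 2 (.d k61 k62 k49 0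
  1)))), (.s k34 k17 4 (.s k40 k20 5 (.s k35 k33 0 (.s k44 k36 1 (.s k38 k41 2 (.d k12 k28 k25 3
  6))))))] (.c k49 (.l (.s k40 k20 5 (.s k36 k44 1 (.s k57 k54 2 (.s k56 k58 0 (.s k24 k8 3 (.d k48
  k52 k12 1 5))))))) (.c k52 (.l (.s k61 k62 0 (.s k57 k54 2 (.s k53 k49 1 (.d k58 k56 k48 0 2)))))
  .n))) (.c k48 (.q k60 [(.s k34 k17 4 (.s k40 k20 5 (.s k44 k36 1 (.s k12 k28 3 (.s k38 k25 6 (.d
  k35 k33 k41 0 2)))))), (.s k34 k17 4 (.s k35 k33 0 (.s k3 k19 3 (.s k54 k57 2 (.s k62 k61 0 (.s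
  k50 k58 1 (.d k2 k1 k18 0 3))))))), (.s k40 k20 5 (.s k44 k36 1 (.s k12 k28 3 (.s k57 k54 2 (.s
  k56 k58 0 (.d k8 k4 k24 1 3))))))] (.c k16 (.l (.s k34 k17 4 (.s k40 k20 5 (.s k35 k33 0 (.s k44
  k36 1 (.s k38 k41 2 (.d k12 k28 k25 3 6))))))) .n)) (.c k49 (.q k60 [(.s k48 k16 3 (.s k56 k52 1
  (.d k57 k54 k58 2 0))), (.s k34 k17 4 (.s k40 k20 5 (.s k44 k36 1 (.s k12 k28 3 (.s k38 k25 6 (.d
  k35 k33 k41 0 2))))))] (.c k16 (.l (.s k40 k20 5 (.s k36 k44 1 (.s k57 k54 2 (.s k56 k58 0 (.s k24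
  k8 3 (.d k48 k52 k12 1 5))))))) (.c k52 (.l (.s k48 k16 3 (.s k40 k20 5 (.s k36 k44 1 (.s k24 k12
  5 (.s k56 k8 3 (.d k57 k58 k54 0 2))))))) .n))) (.c k50 (.q k60 [(.s k48 k16 3 (.s k56 k52 1 (.d
  k57 k54 k58 2 0))), (.s k34 k17 4 (.s k40 k20 5 (.s k35 k33 0 (.s k3 k19 3 (.s k41 k22 6 (.d k44
  k36 k38 1 2))))))] (.c k16 (.l (.s k57 k54 2 (.s k58 k56 0 (.s k53 k48 2 (.d k61 k62 k49 0 1)))))
  .n)) .n))))) .n))))))) (.c k224 (.q k165 [(.s k48 k16 3 (.s k50 k49 0 (.s k58 k53 2 (.s k57 k56 0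
  (.d k54 k62 k60 1 2))))), (.s k48 k16 3 (.s k34 k17 4 (.s k33 k35 0 (.s k18 k3 4 (.d k50 k49 k2 0
  3)))))] (.c k16 (.q k170 [(.s k34 k17 4 (.s k85 k255 14 (.s k102 k238 9 (.s k204 k153 14 (.d k68
  k119 k136 4 9))))), (.s k85 k255 14 (.s k5 k245 11 (.s k15 k10 2 (.s k240 k90 14 (.d k160 k175 k80
  2 11))))), (.s k34 k17 4 (.s k35 k33 0 (.s k101 k239 10 (.s k102 k238 9 (.s k236 k169 10 (.d k100
  k103 k168 0 9))))))] .n) (.c k48 (.q k170 [(.s k34 k17 4 (.s k85 k255 14 (.s k102 k238 9 (.s k204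
  k153 14 (.d k68 k119 k136 4 9))))), (.s k85 k255 14 (.s k5 k245 11 (.s k15 k10 2 (.s k240 k90 14
  (.d k160 k175 k80 2 11))))), (.s k34 k17 4 (.s k35 k33 0 (.s k101 k239 10 (.s k102 k238 9 (.s k236
  k169 10 (.d k100 k103 k168 0 9))))))] .n) (.c k49 (.q k170 [(.s k48 k16 3 (.s k255 k85 14 (.s k186
  k117 10 (.s k154 k138 3 (.d k101 k239 k207 10 14))))), (.s k17 k34 4 (.s k85 k255 14 (.s k153 k221
  9 (.s k204 k102 14 (.d k136 k187 k68 4 9))))), (.s k48 k16 3 (.s k34 k17 4 (.s k101 k239 10 (.s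
  k102 k238 9 (.s k100 k103 0 (.d k204 k152 k153 13 14))))))] .n) (.c k50 (.q k170 [(.s k48 k16 3
  (.s k255 k85 14 (.s k186 k117 10 (.s k154 k138 3 (.d k101 k239 k207 10 14))))), (.s k17 k34 4 (.s
  k85 k255 14 (.s k153 k221 9 (.s k136 k187 4 (.d k204 k68 k102 9 14))))), (.s k48 k16 3 (.s k34 k17
  4 (.s k101 k239 10 (.s k102 k238 9 (.s k100 k103 0 (.d k204 k152 k153 13 14))))))] .n) (.c k170
  (.q k234 [(.s k48 k16 3 (.s k50 k49 0 (.s k58 k53 2 (.s k57 k56 0 (.d k54 k62 k60 1 2))))), (.s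
  k48 k16 3 (.s k34 k17 4 (.s k33 k35 0 (.s k18 k3 4 (.d k50 k49 k2 0 3)))))] (.c k16 (.q k60 [(.s
  k57 k54 2 (.s k58 k56 0 (.s k53 k48 2 (.d k61 k62 k49 0 1)))), (.s k34 k17 4 (.s k40 k20 5 (.s k35
  k33 0 (.s k44 k36 1 (.s k38 k41 2 (.d k12 k28 k25 3 6))))))] (.c k49 (.l (.s k40 k20 5 (.s k36 k44
  1 (.s k57 k54 2 (.s k56 k58 0 (.s k24 k8 3 (.d k48 k52 k12 1 5))))))) (.c k52 (.l (.s k61 k62 0
  (.s k57 k54 2 (.s k53 k49 1 (.d k58 k56 k48 0 2))))) .n))) (.c k48 (.q k60 [(.s k34 k17 4 (.s k40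
  k20 5 (.s k44 k36 1 (.s k12 k28 3 (.s k38 k25 6 (.d k35 k33 k41 0 2)))))), (.s k34 k17 4 (.s k35
  k33 0 (.s k3 k19 3 (.s k54 k57 2 (.s k62 k61 0 (.s k50 k58 1 (.d k2 k1 k18 0 3))))))), (.s k40 k20
  5 (.s k44 k36 1 (.s k12 k28 3 (.s k57 k54 2 (.s k56 k58 0 (.d k8 k4 k24 1 3))))))] (.c k16 (.l (.s
  k34 k17 4 (.s k40 k20 5 (.s k35 k33 0 (.s k44 k36 1 (.s k38 k41 2 (.d k12 k28 k25 3 6))))))) .n))
  (.c k49 (.q k60 [(.s k48 k16 3 (.s k56 k52 1 (.d k57 k54 k58 2 0))), (.s k34 k17 4 (.s k40 k20 5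
  (.s k44 k36 1 (.s k12 k28 3 (.s k38 k25 6 (.d k35 k33 k41 0 2))))))] (.c k16 (.l (.s k40 k20 5 (.s
  k36 k44 1 (.s k57 k54 2 (.s k56 k58 0 (.s k24 k8 3 (.d k48 k52 k12 1 5))))))) (.c k52 (.l (.s k48
  k16 3 (.s k40 k20 5 (.s k36 k44 1 (.s k24 k12 5 (.s k56 k8 3 (.d k57 k58 k54 0 2))))))) .n))) (.c
  k50 (.q k60 [(.s k48 k16 3 (.s k56 k52 1 (.d k57 k54 k58 2 0))), (.s k34 k17 4 (.s k40 k20 5 (.s
  k35 k33 0 (.s k3 k19 3 (.s k41 k22 6 (.d k44 k36 k38 1 2))))))] (.c k16 (.l (.s k57 k54 2 (.s k58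
  k56 0 (.s k53 k48 2 (.d k61 k62 k49 0 1))))) .n)) .n))))) (.c k234 (.q k170 [(.s k48 k16 3 (.s
  k255 k85 14 (.s k186 k117 10 (.s k154 k138 3 (.d k101 k239 k207 10 14))))), (.s k48 k16 3 (.s k34
  k17 4 (.s k33 k35 0 (.s k18 k3 4 (.d k50 k49 k2 0 3))))), (.s k17 k34 4 (.s k85 k255 14 (.s k153
  k221 9 (.s k204 k102 14 (.d k136 k187 k68 4 9)))))] (.c k229 (.l (.s k239 k101 10 (.s k48 k16 3
  (.s k34 k17 4 (.s k33 k35 0 (.s k18 k3 4 (.d k50 k49 k2 0 3))))))) (.c k239 (.q k229 [(.s k48 k16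
  3 (.s k34 k17 4 (.s k50 k49 0 (.s k18 k2 3 (.d k33 k35 k3 0 4))))), (.s k48 k16 3 (.s k85 k255 14
  (.s k5 k245 11 (.s k15 k10 2 (.d k37 k26 k101 6 7))))), (.s k17 k34 4 (.s k85 k255 14 (.s k153
  k221 9 (.s k204 k102 14 (.d k136 k187 k68 4 9)))))] (.c k111 (.l (.s k175 k160 2 (.s k48 k16 3 (.s
  k255 k85 14 (.s k15 k95 11 (.d k37 k26 k101 6 7)))))) (.c k175 (.q k111 [(.s k48 k16 3 (.s k101
  k37 7 (.d k207 k159 k154 11 14))), (.s k48 k16 3 (.s k34 k17 4 (.s k33 k35 0 (.s k18 k3 4 (.d k50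
  k49 k2 0 3))))), (.s k85 k255 14 (.s k101 k37 7 (.s k207 k159 11 (.d k69 k117 k138 3 10))))] .n)
  .n))) .n))) .n))))))) (.c k234 (.q k170 [(.s k48 k16 3 (.s k34 k17 4 (.s k33 k35 0 (.s k18 k3 4
  (.d k50 k49 k2 0 3))))), (.s k48 k16 3 (.s k85 k255 14 (.s k101 k239 10 (.s k207 k154 14 (.d k69
  k117 k138 3 10))))), (.s k17 k34 4 (.s k85 k255 14 (.s k153 k221 9 (.s k204 k102 14 (.d k136 k187
  k68 4 9)))))] (.c k165 (.q k224 [(.s k48 k16 3 (.s k34 k17 4 (.s k33 k35 0 (.s k18 k3 4 (.d k50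
  k49 k2 0 3))))), (.s k48 k16 3 (.s k85 k255 14 (.s k101 k239 10 (.s k207 k154 14 (.d k69 k117 k138
  3 10))))), (.s k17 k34 4 (.s k85 k255 14 (.s k153 k221 9 (.s k204 k102 14 (.d k136 k187 k68 4
  9)))))] .n) (.c k224 (.q k165 [(.s k48 k16 3 (.s k255 k85 14 (.s k186 k117 10 (.s k154 k138 3 (.d
  k101 k239 k207 10 14))))), (.s k48 k16 3 (.s k34 k17 4 (.s k33 k35 0 (.s k18 k3 4 (.d k50 k49 k2 0
  3))))), (.s k17 k34 4 (.s k85 k255 14 (.s k153 k221 9 (.s k204 k102 14 (.d k136 k187 k68 4 9)))))]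
  (.c k229 (.l (.s k239 k101 10 (.s k48 k16 3 (.s k34 k17 4 (.s k33 k35 0 (.s k18 k3 4 (.d k50 k49
  k2 0 3))))))) (.c k239 (.q k229 [(.s k48 k16 3 (.s k34 k17 4 (.s k50 k49 0 (.s k18 k2 3 (.d k33
  k35 k3 0 4))))), (.s k48 k16 3 (.s k85 k255 14 (.s k5 k245 11 (.s k15 k10 2 (.d k37 k26 k101 6
  7))))), (.s k17 k34 4 (.s k85 k255 14 (.s k153 k221 9 (.s k204 k102 14 (.d k136 k187 k68 4 9)))))]
  (.c k111 (.l (.s k175 k160 2 (.s k48 k16 3 (.s k255 k85 14 (.s k15 k95 11 (.d k37 k26 k101 6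
  7)))))) (.c k175 (.q k111 [(.s k48 k16 3 (.s k101 k37 7 (.d k207 k159 k154 11 14))), (.s k48 k16 3
  (.s k34 k17 4 (.s k33 k35 0 (.s k18 k3 4 (.d k50 k49 k2 0 3))))), (.s k85 k255 14 (.s k101 k37 7
  (.s k207 k159 11 (.d k69 k117 k138 3 10))))] .n) .n))) .n))) .n))) .n)))))))))) (.c k46 (.l (.s
  k17 k34 4 (.s k55 k59 1 (.s k21 k42 6 (.s k38 k4 4 (.d k25 k29 k12 1 6)))))) (.c k55 (.f k17 k34 4
  (.q k48 [(.s k49 k50 0 (.s k33 k1 3 (.s k18 k3 4 (.d k16 k19 k32 0 3)))), (.s k16 k32 3 (.s k53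
  k58 2 (.s k21 k42 6 (.s k37 k5 3 (.d k26 k31 k15 2 6))))), (.s k21 k42 6 (.s k25 k29 1 (.s k49 k50
  0 (.s k37 k13 5 (.d k53 k58 k5 2 3)))))] (.c k32 (.l (.s k49 k50 0 (.s k53 k58 2 (.s k21 k42 6 (.s
  k37 k5 3 (.d k25 k29 k13 1 5)))))) (.c k165 (.q k224 [(.s k49 k50 0 (.s k33 k1 3 (.s k18 k3 4 (.d
  k16 k19 k32 0 3)))), (.s k16 k32 3 (.s k53 k58 2 (.s k21 k42 6 (.s k37 k5 3 (.d k26 k31 k15 2
  6))))), (.s k21 k42 6 (.s k25 k29 1 (.s k49 k50 0 (.s k37 k13 5 (.d k53 k58 k5 2 3)))))] (.c k32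
  (.l (.s k49 k50 0 (.s k53 k58 2 (.s k21 k42 6 (.s k37 k5 3 (.d k25 k29 k13 1 5)))))) .n)) (.c k224
  (.q k165 [(.s k49 k50 0 (.s k33 k1 3 (.s k18 k3 4 (.d k16 k19 k32 0 3)))), (.s k16 k32 3 (.s k53
  k58 2 (.s k21 k42 6 (.s k37 k5 3 (.d k26 k31 k15 2 6))))), (.s k21 k42 6 (.s k25 k29 1 (.s k49 k50
  0 (.s k37 k13 5 (.d k53 k58 k5 2 3)))))] (.c k32 (.l (.s k49 k50 0 (.s k53 k58 2 (.s k21 k42 6 (.s
  k37 k5 3 (.d k25 k29 k13 1 5)))))) .n)) .n))))) (.c k59 (.f k17 k34 4 (.f k42 k21 6 (.q k48 [(.s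
  k16 k32 3 (.s k18 k19 0 (.s k33 k3 4 (.d k49 k50 k1 0 3)))), (.s k50 k49 0 (.s k58 k53 2 (.s k26
  k10 3 (.s k38 k14 5 (.s k12 k25 6 (.s k36 k24 5 (.d k37 k39 k15 0 6))))))), (.s k16 k32 3 (.s k18
  k19 0 (.s k58 k53 2 (.s k26 k10 3 (.s k22 k30 1 (.s k2 k62 5 (.d k3 k33 k1 4 0)))))))] (.c k153
  (.q k200 [(.s k16 k32 3 (.s k18 k19 0 (.s k33 k3 4 (.d k49 k50 k1 0 3)))), (.s k50 k49 0 (.s k58
  k53 2 (.s k26 k10 3 (.s k38 k14 5 (.s k12 k25 6 (.s k36 k24 5 (.d k37 k39 k15 0 6))))))), (.s k16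
  k32 3 (.s k18 k19 0 (.s k58 k53 2 (.s k26 k10 3 (.s k22 k30 1 (.s k2 k62 5 (.d k3 k33 k1 4
  0)))))))] (.c k165 (.q k224 [(.s k16 k32 3 (.s k18 k19 0 (.s k33 k3 4 (.d k49 k50 k1 0 3)))), (.s
  k49 k50 0 (.s k58 k53 2 (.s k26 k10 3 (.s k37 k15 6 (.s k25 k13 5 (.s k12 k38 6 (.d k24 k27 k36 0
  5))))))), (.s k16 k32 3 (.s k18 k19 0 (.s k58 k53 2 (.s k26 k10 3 (.s k22 k30 1 (.s k2 k62 5 (.d
  k3 k33 k1 4 0)))))))] (.c k18 (.l (.s k32 k16 3 (.s k96 k160 7 (.s k50 k49 0 (.s k192 k144 11 (.s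
  k98 k145 12 (.s k146 k194 11 (.d k97 k99 k195 0 12)))))))) (.c k141 (.q k177 [(.s k240 k114 8 (.s
  k160 k80 11 (.d k32 k16 k96 3 7))), (.s k49 k50 0 (.s k113 k241 7 (.s k178 k243 8 (.s k240 k114 8
  (.d k176 k179 k112 0 7))))), (.s k16 k32 3 (.s k18 k19 0 (.s k33 k3 4 (.d k49 k50 k1 0 3))))] .n)
  (.c k177 (.q k141 [(.s k16 k32 3 (.s k18 k19 0 (.s k33 k3 4 (.d k49 k50 k1 0 3)))), (.s k49 k50 0
  (.s k58 k53 2 (.s k26 k10 3 (.s k37 k15 6 (.s k25 k13 5 (.s k12 k38 6 (.d k24 k27 k36 0 5))))))),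
  (.s k16 k32 3 (.s k18 k19 0 (.s k58 k53 2 (.s k26 k10 3 (.s k22 k30 1 (.s k2 k62 5 (.d k3 k33 k1 4
  0)))))))] (.c k18 (.l (.s k32 k16 3 (.s k96 k160 7 (.s k50 k49 0 (.s k192 k144 11 (.s k98 k145 12
  (.s k146 k194 11 (.d k97 k99 k195 0 12)))))))) .n)) .n)))) (.c k224 (.q k165 [(.s k49 k50 0 (.s
  k33 k1 3 (.s k18 k3 4 (.d k16 k19 k32 0 3)))), (.s k50 k49 0 (.s k58 k53 2 (.s k26 k10 3 (.s k38
  k14 5 (.s k12 k25 6 (.s k36 k24 5 (.d k37 k39 k15 0 6))))))), (.s k16 k32 3 (.s k18 k19 0 (.s k58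
  k53 2 (.s k26 k10 3 (.s k22 k30 1 (.s k2 k62 5 (.d k3 k33 k1 4 0)))))))] (.c k2 (.l (.s k16 k32 3
  (.s k18 k19 0 (.s k33 k3 4 (.d k49 k50 k1 0 3))))) .n)) .n))) (.c k165 (.q k224 [(.s k16 k32 3 (.s
  k18 k19 0 (.s k33 k3 4 (.d k49 k50 k1 0 3)))), (.s k49 k50 0 (.s k58 k53 2 (.s k26 k10 3 (.s k37
  k15 6 (.s k25 k13 5 (.s k12 k38 6 (.d k24 k27 k36 0 5))))))), (.s k16 k32 3 (.s k18 k19 0 (.s k58
  k53 2 (.s k26 k10 3 (.s k22 k30 1 (.s k2 k62 5 (.d k3 k33 k1 4 0)))))))] (.c k18 (.l (.s k32 k16 3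
  (.s k96 k160 7 (.s k50 k49 0 (.s k192 k144 11 (.s k98 k145 12 (.s k146 k194 11 (.d k97 k99 k195 0
  12)))))))) (.c k153 (.q k200 [(.s k16 k32 3 (.s k18 k19 0 (.s k33 k3 4 (.d k49 k50 k1 0 3)))), (.s
  k49 k50 0 (.s k58 k53 2 (.s k26 k10 3 (.s k37 k15 6 (.s k25 k13 5 (.s k12 k38 6 (.d k24 k27 k36 0
  5))))))), (.s k16 k32 3 (.s k18 k19 0 (.s k58 k53 2 (.s k26 k10 3 (.s k22 k30 1 (.s k2 k62 5 (.d
  k3 k33 k1 4 0)))))))] (.c k18 (.l (.s k32 k16 3 (.s k96 k160 7 (.s k50 k49 0 (.s k192 k144 11 (.s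
  k98 k145 12 (.s k146 k194 11 (.d k97 k99 k195 0 12)))))))) (.c k141 (.q k177 [(.s k240 k114 8 (.s
  k160 k80 11 (.d k32 k16 k96 3 7))), (.s k49 k50 0 (.s k113 k241 7 (.s k178 k243 8 (.s k240 k114 8
  (.d k176 k179 k112 0 7))))), (.s k16 k32 3 (.s k18 k19 0 (.s k33 k3 4 (.d k49 k50 k1 0 3))))] .n)
  (.c k177 (.q k141 [(.s k16 k32 3 (.s k18 k19 0 (.s k33 k3 4 (.d k49 k50 k1 0 3)))), (.s k49 k50 0
  (.s k58 k53 2 (.s k26 k10 3 (.s k37 k15 6 (.s k25 k13 5 (.s k12 k38 6 (.d k24 k27 k36 0 5))))))),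
  (.s k16 k32 3 (.s k18 k19 0 (.s k58 k53 2 (.s k26 k10 3 (.s k22 k30 1 (.s k2 k62 5 (.d k3 k33 k1 4
  0)))))))] (.c k18 (.l (.s k32 k16 3 (.s k96 k160 7 (.s k50 k49 0 (.s k192 k144 11 (.s k98 k145 12
  (.s k146 k194 11 (.d k97 k99 k195 0 12)))))))) .n)) .n)))) (.c k200 (.q k153 [(.s k16 k32 3 (.s
  k18 k19 0 (.s k33 k3 4 (.d k49 k50 k1 0 3)))), (.s k85 k221 9 (.s k170 k255 14 (.s k204 k102 14
  (.d k136 k187 k68 4 9))))] .n) .n)))) (.c k200 (.q k153 [(.s k16 k32 3 (.s k18 k19 0 (.s k33 k3 4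
  (.d k49 k50 k1 0 3)))), (.s k85 k221 9 (.s k170 k255 14 (.s k204 k102 14 (.d k136 k187 k68 4
  9))))] (.c k165 (.q k224 [(.s k16 k32 3 (.s k18 k19 0 (.s k33 k3 4 (.d k49 k50 k1 0 3)))), (.s k85
  k221 9 (.s k170 k255 14 (.s k204 k102 14 (.d k136 k187 k68 4 9))))] .n) (.c k224 (.q k165 [(.s k16
  k32 3 (.s k18 k19 0 (.s k33 k3 4 (.d k49 k50 k1 0 3)))), (.s k85 k221 9 (.s k170 k255 14 (.s k204
  k102 14 (.d k136 k187 k68 4 9))))] .n) .n))) (.c k224 (.q k165 [(.s k16 k32 3 (.s k18 k19 0 (.s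
  k33 k3 4 (.d k49 k50 k1 0 3)))), (.s k50 k49 0 (.s k58 k53 2 (.s k26 k10 3 (.s k38 k14 5 (.s k12
  k25 6 (.s k36 k24 5 (.d k37 k39 k15 0 6))))))), (.s k16 k32 3 (.s k18 k19 0 (.s k58 k53 2 (.s k26
  k10 3 (.s k22 k30 1 (.s k2 k62 5 (.d k3 k33 k1 4 0)))))))] (.c k153 (.q k200 [(.s k49 k50 0 (.s
  k33 k1 3 (.s k18 k3 4 (.d k16 k19 k32 0 3)))), (.s k50 k49 0 (.s k58 k53 2 (.s k26 k10 3 (.s k38
  k14 5 (.s k12 k25 6 (.s k36 k24 5 (.d k37 k39 k15 0 6))))))), (.s k16 k32 3 (.s k18 k19 0 (.s k58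
  k53 2 (.s k26 k10 3 (.s k22 k30 1 (.s k2 k62 5 (.d k3 k33 k1 4 0)))))))] (.c k2 (.l (.s k16 k32 3
  (.s k18 k19 0 (.s k33 k3 4 (.d k49 k50 k1 0 3))))) .n)) (.c k200 (.q k153 [(.s k16 k32 3 (.s k18
  k19 0 (.s k33 k3 4 (.d k49 k50 k1 0 3)))), (.s k85 k221 9 (.s k170 k255 14 (.s k204 k102 14 (.d
  k136 k187 k68 4 9))))] .n) .n))) .n))))))) (.c k165 (.q k224 [(.s k34 k17 4 (.s k59 k55 1 (.s k42
  k21 6 (.s k25 k8 4 (.d k38 k46 k12 1 6)))))] (.c k4 (.l (.s k34 k17 4 (.s k42 k21 6 (.s k38 k46 1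
  (.s k25 k12 6 (.d k59 k55 k8 1 4)))))) (.c k8 (.l (.s k17 k34 4 (.s k21 k42 6 (.s k25 k29 1 (.s
  k38 k12 6 (.d k55 k59 k4 1 4)))))) (.c k12 (.q k60 [(.s k40 k20 5 (.s k62 k61 0 (.s k42 k21 6 (.s
  k22 k2 5 (.d k41 k43 k3 0 6))))), (.s k54 k57 2 (.s k55 k59 1 (.s k53 k52 0 (.s k58 k48 2 (.d k62
  k61 k50 0 1))))), (.s k20 k40 5 (.s k21 k42 6 (.s k22 k23 0 (.s k54 k57 2 (.s k38 k6 3 (.d k55 k59
  k4 1 4))))))] .n) (.c k17 (.q k60 [(.s k54 k57 2 (.s k55 k59 1 (.s k53 k52 0 (.s k58 k48 2 (.d k62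
  k61 k50 0 1))))), (.s k20 k40 5 (.s k21 k42 6 (.s k22 k23 0 (.s k41 k3 6 (.d k61 k62 k1 0 5))))),
  (.s k20 k40 5 (.s k21 k42 6 (.s k22 k23 0 (.s k54 k57 2 (.s k38 k6 3 (.d k55 k59 k4 1 4))))))] .n)
  (.c k21 (.q k48 [(.s k16 k32 3 (.s k17 k34 4 (.s k18 k19 0 (.s k33 k3 4 (.d k49 k50 k1 0 3))))),
  (.s k49 k50 0 (.s k53 k58 2 (.s k57 k61 1 (.s k54 k60 2 (.d k55 k52 k59 0 1))))), (.s k32 k16 3
  (.s k34 k17 4 (.s k96 k160 7 (.s k192 k144 11 (.s k98 k145 12 (.d k35 k33 k161 0 8))))))] .n) (.c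
  k25 (.q k48 [(.s k49 k50 0 (.s k53 k58 2 (.s k57 k61 1 (.s k54 k60 2 (.d k55 k52 k59 0 1))))), (.s
  k16 k32 3 (.s k17 k34 4 (.s k18 k19 0 (.s k33 k3 4 (.d k49 k50 k1 0 3))))), (.s k16 k32 3 (.s k53
  k58 2 (.s k21 k42 6 (.s k37 k5 3 (.d k26 k31 k15 2 6)))))] .n) (.c k29 (.l (.s k34 k17 4 (.s k59
  k55 1 (.s k42 k21 6 (.s k25 k8 4 (.d k38 k46 k12 1 6)))))) (.c k34 (.q k48 [(.s k50 k49 0 (.s k58
  k53 2 (.s k54 k62 1 (.s k57 k60 2 (.d k59 k56 k55 0 1))))), (.s k16 k32 3 (.s k53 k58 2 (.s k21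
  k42 6 (.s k37 k5 3 (.d k26 k31 k15 2 6))))), (.s k21 k42 6 (.s k50 k49 0 (.s k55 k59 1 (.s k38 k4
  4 (.s k26 k14 5 (.d k16 k32 k31 3 2))))))] .n) (.c k38 (.q k48 [(.s k16 k32 3 (.s k17 k34 4 (.s
  k18 k19 0 (.s k33 k3 4 (.d k49 k50 k1 0 3))))), (.s k49 k50 0 (.s k53 k58 2 (.s k57 k61 1 (.s k54
  k60 2 (.d k55 k52 k59 0 1))))), (.s k16 k32 3 (.s k53 k58 2 (.s k21 k42 6 (.s k37 k5 3 (.d k26 k31
  k15 2 6)))))] .n) (.c k42 (.q k32 [(.s k48 k16 3 (.s k34 k17 4 (.s k33 k35 0 (.s k18 k3 4 (.d k50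
  k49 k2 0 3))))), (.s k48 k16 3 (.s k49 k50 0 (.s k53 k58 2 (.s k57 k61 1 (.s k54 k60 2 (.d k55 k52
  k59 0 1)))))), (.s k34 k17 4 (.s k35 k33 0 (.s k96 k160 7 (.s k98 k161 8 (.s k162 k226 7 (.d k97
  k99 k227 0 8))))))] (.c k49 (.l (.s k48 k16 3 (.s k34 k17 4 (.s k96 k160 7 (.s k192 k144 11 (.s
  k98 k145 12 (.d k35 k33 k161 0 8))))))) (.c k170 (.q k234 [(.s k48 k16 3 (.s k34 k17 4 (.s k33 k35
  0 (.s k18 k3 4 (.d k50 k49 k2 0 3))))), (.s k48 k16 3 (.s k49 k50 0 (.s k53 k58 2 (.s k57 k61 1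
  (.s k54 k60 2 (.d k55 k52 k59 0 1)))))), (.s k34 k17 4 (.s k35 k33 0 (.s k160 k96 7 (.s k240 k80
  11 (.s k98 k161 8 (.d k192 k208 k145 3 12))))))] (.c k49 (.l (.s k34 k17 4 (.s k160 k96 7 (.s k240
  k80 11 (.s k192 k208 3 (.s k98 k145 12 (.d k35 k33 k161 0 8))))))) (.c k160 (.q k175 [(.s k48 k16
  3 (.s k34 k17 4 (.s k33 k35 0 (.s k18 k3 4 (.d k50 k49 k2 0 3))))), (.s k48 k16 3 (.s k49 k50 0
  (.s k53 k58 2 (.s k57 k61 1 (.s k54 k60 2 (.d k55 k52 k59 0 1)))))), (.s k34 k17 4 (.s k35 k33 0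
  (.s k98 k161 8 (.s k162 k226 7 (.s k81 k243 12 (.s k192 k145 12 (.d k64 k115 k128 4 7)))))))] (.c
  k49 (.q k255 [(.s k34 k17 4 (.s k192 k213 6 (.s k98 k145 12 (.d k35 k33 k161 0 8)))), (.s k191
  k127 7 (.s k159 k143 3 (.s k207 k111 11 (.d k239 k229 k223 2 3))))] .n) .n)) (.c k175 (.l (.s k160
  k96 7 (.s k48 k16 3 (.s k34 k17 4 (.s k33 k35 0 (.s k18 k3 4 (.d k50 k49 k2 0 3))))))) .n)))) (.c
  k234 (.q k170 [(.s k48 k16 3 (.s k34 k17 4 (.s k33 k35 0 (.s k18 k3 4 (.d k50 k49 k2 0 3))))), (.s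
  k48 k16 3 (.s k85 k255 14 (.s k101 k239 10 (.s k207 k154 14 (.d k69 k117 k138 3 10))))), (.s k17
  k34 4 (.s k85 k255 14 (.s k153 k221 9 (.s k204 k102 14 (.d k136 k187 k68 4 9)))))] .n) .n)))) (.c
  k46 (.l (.s k17 k34 4 (.s k55 k59 1 (.s k21 k42 6 (.s k38 k4 4 (.d k25 k29 k12 1 6)))))) (.c k55
  (.q k48 [(.s k16 k32 3 (.s k17 k34 4 (.s k18 k19 0 (.s k33 k3 4 (.d k49 k50 k1 0 3))))), (.s k16
  k32 3 (.s k53 k58 2 (.s k21 k42 6 (.s k37 k5 3 (.d k26 k31 k15 2 6))))), (.s k32 k16 3 (.s k34 k17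
  4 (.s k33 k35 0 (.s k18 k3 4 (.d k50 k49 k2 0 3)))))] (.c k16 (.l (.s k17 k34 4 (.s k21 k42 6 (.s
  k25 k29 1 (.s k49 k50 0 (.s k37 k13 5 (.d k53 k58 k5 2 3))))))) (.c k32 (.l (.s k17 k34 4 (.s k49
  k50 0 (.s k53 k58 2 (.s k21 k42 6 (.s k37 k5 3 (.d k25 k29 k13 1 5))))))) .n))) (.c k59 (.f k42
  k21 6 (.f k17 k34 4 (.q k48 [(.s k16 k32 3 (.s k18 k19 0 (.s k33 k3 4 (.d k49 k50 k1 0 3)))), (.s
  k49 k50 0 (.s k58 k53 2 (.s k26 k10 3 (.s k37 k15 6 (.s k25 k13 5 (.s k12 k38 6 (.d k24 k27 k36 0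
  5))))))), (.s k16 k32 3 (.s k18 k19 0 (.s k58 k53 2 (.s k26 k10 3 (.s k22 k30 1 (.s k2 k62 5 (.d
  k3 k33 k1 4 0)))))))] (.c k18 (.l (.s k32 k16 3 (.s k96 k160 7 (.s k50 k49 0 (.s k192 k144 11 (.s
  k98 k145 12 (.s k146 k194 11 (.d k97 k99 k195 0 12)))))))) (.c k153 (.q k200 [(.s k16 k32 3 (.s
  k18 k19 0 (.s k33 k3 4 (.d k49 k50 k1 0 3)))), (.s k49 k50 0 (.s k58 k53 2 (.s k26 k10 3 (.s k37
  k15 6 (.s k25 k13 5 (.s k12 k38 6 (.d k24 k27 k36 0 5))))))), (.s k16 k32 3 (.s k18 k19 0 (.s k58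
  k53 2 (.s k26 k10 3 (.s k22 k30 1 (.s k2 k62 5 (.d k3 k33 k1 4 0)))))))] (.c k18 (.l (.s k32 k16 3
  (.s k96 k160 7 (.s k50 k49 0 (.s k192 k144 11 (.s k98 k145 12 (.s k146 k194 11 (.d k97 k99 k195 0
  12)))))))) (.c k141 (.q k177 [(.s k240 k114 8 (.s k160 k80 11 (.d k32 k16 k96 3 7))), (.s k49 k50
  0 (.s k113 k241 7 (.s k178 k243 8 (.s k240 k114 8 (.d k176 k179 k112 0 7))))), (.s k16 k32 3 (.s
  k18 k19 0 (.s k33 k3 4 (.d k49 k50 k1 0 3))))] .n) (.c k177 (.q k141 [(.s k16 k32 3 (.s k18 k19 0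
  (.s k33 k3 4 (.d k49 k50 k1 0 3)))), (.s k49 k50 0 (.s k58 k53 2 (.s k26 k10 3 (.s k37 k15 6 (.s
  k25 k13 5 (.s k12 k38 6 (.d k24 k27 k36 0 5))))))), (.s k16 k32 3 (.s k18 k19 0 (.s k58 k53 2 (.s
  k26 k10 3 (.s k22 k30 1 (.s k2 k62 5 (.d k3 k33 k1 4 0)))))))] (.c k18 (.l (.s k32 k16 3 (.s k96
  k160 7 (.s k50 k49 0 (.s k192 k144 11 (.s k98 k145 12 (.s k146 k194 11 (.d k97 k99 k195 0
  12)))))))) .n)) .n)))) (.c k200 (.q k153 [(.s k16 k32 3 (.s k18 k19 0 (.s k33 k3 4 (.d k49 k50 k1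
  0 3)))), (.s k85 k221 9 (.s k170 k255 14 (.s k204 k102 14 (.d k136 k187 k68 4 9))))] .n) .n))))))
  .n)))))))))))))) (.c k224 (.q k165 [(.s k34 k17 4 (.s k59 k55 1 (.s k42 k21 6 (.s k25 k8 4 (.d k38
  k46 k12 1 6)))))] (.c k4 (.l (.s k34 k17 4 (.s k42 k21 6 (.s k38 k46 1 (.s k25 k12 6 (.d k59 k55
  k8 1 4)))))) (.c k8 (.l (.s k17 k34 4 (.s k21 k42 6 (.s k25 k29 1 (.s k38 k12 6 (.d k55 k59 k4 1
  4)))))) (.c k12 (.q k48 [(.s k16 k32 3 (.s k17 k34 4 (.s k18 k19 0 (.s k49 k50 0 (.d k33 k1 k3 3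
  4))))), (.s k49 k50 0 (.s k53 k58 2 (.s k57 k61 1 (.s k54 k60 2 (.d k55 k52 k59 0 1))))), (.s k16
  k32 3 (.s k53 k58 2 (.s k21 k42 6 (.s k37 k5 3 (.d k26 k31 k15 2 6)))))] .n) (.c k17 (.q k48 [(.s
  k49 k50 0 (.s k53 k58 2 (.s k57 k61 1 (.s k54 k60 2 (.d k55 k52 k59 0 1))))), (.s k16 k32 3 (.s
  k53 k58 2 (.s k21 k42 6 (.s k37 k5 3 (.d k26 k31 k15 2 6))))), (.s k21 k42 6 (.s k50 k49 0 (.s k55
  k59 1 (.s k38 k4 4 (.s k26 k14 5 (.d k16 k32 k31 3 2))))))] .n) (.c k21 (.q k170 [(.s k17 k34 4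
  (.s k85 k255 14 (.s k153 k221 9 (.s k136 k187 4 (.d k204 k68 k102 9 14))))), (.s k85 k255 14 (.s
  k5 k245 11 (.s k15 k10 2 (.s k240 k90 14 (.d k160 k175 k80 2 11))))), (.s k34 k17 4 (.s k102 k238
  9 (.s k39 k228 8 (.s k15 k27 5 (.s k10 k5 2 (.d k90 k250 k240 11 14))))))] .n) (.c k25 (.q k170
  [(.s k17 k34 4 (.s k85 k255 14 (.s k153 k221 9 (.s k136 k187 4 (.d k204 k68 k102 9 14))))), (.s
  k85 k255 14 (.s k5 k245 11 (.s k15 k10 2 (.s k240 k90 14 (.d k160 k175 k80 2 11))))), (.s k34 k17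
  4 (.s k102 k238 9 (.s k39 k228 8 (.s k15 k27 5 (.s k10 k5 2 (.d k90 k250 k240 11 14))))))] .n) (.c
  k29 (.l (.s k34 k17 4 (.s k59 k55 1 (.s k42 k21 6 (.s k25 k8 4 (.d k38 k46 k12 1 6)))))) (.c k34
  (.q k170 [(.s k85 k255 14 (.s k5 k245 11 (.s k15 k10 2 (.s k240 k90 14 (.d k160 k175 k80 2
  11))))), (.s k42 k21 6 (.s k255 k85 14 (.s k59 k55 1 (.s k8 k25 4 (.s k251 k89 12 (.d k187 k123
  k119 7 9)))))), (.s k160 k175 2 (.s k240 k80 11 (.s k177 k114 8 (.s k153 k141 5 (.s k204 k102 14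
  (.d k136 k187 k68 4 9))))))] .n) (.c k38 (.q k170 [(.s k85 k255 14 (.s k5 k245 11 (.s k15 k10 2
  (.s k240 k90 14 (.d k160 k175 k80 2 11))))), (.s k17 k34 4 (.s k85 k255 14 (.s k153 k221 9 (.s
  k204 k102 14 (.d k136 k187 k68 4 9))))), (.s k34 k17 4 (.s k102 k238 9 (.s k39 k228 8 (.s k15 k27
  5 (.s k10 k5 2 (.d k90 k250 k240 11 14))))))] .n) (.c k42 (.q k170 [(.s k34 k17 4 (.s k85 k255 14
  (.s k102 k238 9 (.s k204 k153 14 (.d k68 k119 k136 4 9))))), (.s k85 k255 14 (.s k5 k245 11 (.s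
  k15 k10 2 (.s k240 k90 14 (.d k160 k175 k80 2 11))))), (.s k34 k17 4 (.s k102 k238 9 (.s k39 k228
  8 (.s k15 k27 5 (.s k10 k5 2 (.d k90 k250 k240 11 14))))))] (.c k32 (.q k37 [(.s k85 k255 14 (.s
  k5 k245 11 (.s k15 k10 2 (.s k53 k21 3 (.d k48 k58 k26 2 6))))), (.s k17 k34 4 (.s k85 k255 14 (.s
  k153 k221 9 (.s k204 k102 14 (.d k136 k187 k68 4 9))))), (.s k34 k17 4 (.s k102 k238 9 (.s k39
  k228 8 (.s k15 k27 5 (.s k10 k5 2 (.d k90 k250 k240 11 14))))))] (.c k96 (.l (.s k160 k175 2 (.s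
  k240 k80 11 (.s k85 k255 14 (.s k5 k245 11 (.d k15 k10 k90 2 14)))))) (.c k160 (.q k96 [(.s k85
  k255 14 (.s k5 k245 11 (.s k15 k10 2 (.s k53 k21 3 (.d k48 k58 k26 2 6))))), (.s k17 k34 4 (.s k85
  k255 14 (.s k153 k221 9 (.s k204 k102 14 (.d k136 k187 k68 4 9))))), (.s k34 k17 4 (.s k102 k238 9
  (.s k39 k228 8 (.s k15 k27 5 (.s k10 k5 2 (.d k90 k250 k240 11 14))))))] .n) .n))) (.c k37 (.q k32
  [(.s k48 k16 3 (.s k34 k17 4 (.s k33 k35 0 (.s k18 k3 4 (.d k50 k49 k2 0 3))))), (.s k48 k16 3 (.s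
  k85 k255 14 (.s k101 k239 10 (.s k207 k154 14 (.d k69 k117 k138 3 10))))), (.s k17 k34 4 (.s k85
  k255 14 (.s k153 k221 9 (.s k204 k102 14 (.d k136 k187 k68 4 9)))))] .n) .n))) (.c k46 (.l (.s k17
  k34 4 (.s k55 k59 1 (.s k21 k42 6 (.s k38 k4 4 (.d k25 k29 k12 1 6)))))) (.c k55 (.q k170 [(.s k17
  k34 4 (.s k85 k255 14 (.s k153 k221 9 (.s k136 k187 4 (.d k204 k68 k102 9 14))))), (.s k85 k255 14
  (.s k5 k245 11 (.s k15 k10 2 (.s k240 k90 14 (.d k160 k175 k80 2 11))))), (.s k34 k17 4 (.s k102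
  k238 9 (.s k39 k228 8 (.s k15 k27 5 (.s k10 k5 2 (.d k90 k250 k240 11 14))))))] .n) (.c k59 (.f
  k42 k21 6 (.q k170 [(.s k17 k34 4 (.s k85 k255 14 (.s k153 k221 9 (.s k204 k102 14 (.d k136 k187
  k68 4 9))))), (.s k85 k255 14 (.s k5 k245 11 (.s k15 k10 2 (.s k240 k90 14 (.d k160 k175 k80 2
  11))))), (.s k34 k17 4 (.s k102 k238 9 (.s k39 k228 8 (.s k15 k27 5 (.s k10 k5 2 (.d k90 k250 k240
  11 14))))))] (.c k153 (.q k200 [(.s k85 k255 14 (.s k5 k245 11 (.s k15 k10 2 (.s k160 k175 2 (.d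
  k240 k80 k90 11 14))))), (.s k34 k17 4 (.s k46 k38 1 (.s k238 k102 9 (.s k110 k174 7 (.s k204 k157
  12 (.d k255 k221 k85 4 14))))))] (.c k85 (.l (.s k160 k175 2 (.s k240 k80 11 (.s k90 k15 14 (.s
  k114 k177 8 (.s k102 k78 5 (.d k34 k17 k238 4 9))))))) (.c k255 (.l (.s k34 k17 4 (.s k102 k238 9
  (.s k39 k228 8 (.s k15 k27 5 (.s k10 k5 2 (.d k90 k250 k240 11 14))))))) .n))) (.c k200 (.q k153
  [(.s k17 k34 4 (.d k85 k221 k255 9 14)), (.s k255 k85 14 (.d k187 k136 k119 4 9)), (.s k34 k17 4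
  (.d k102 k238 k204 9 14))] .n) .n)))) .n)))))))))))))) .n))))))))))))))))

def t64 : T TT 256 :=
  (.q k48 [(.s k32 k16 3 (.s k58 k53 2 (.s k42 k21 6 (.s k26 k10 3 (.d k37 k47 k15 2 6)))))] (.c k5
  (.l (.s k32 k16 3 (.s k42 k21 6 (.s k37 k47 2 (.s k26 k15 6 (.d k58 k53 k10 2 3)))))) (.c k10 (.l
  (.s k16 k32 3 (.s k21 k42 6 (.s k26 k31 2 (.s k37 k15 6 (.d k53 k58 k5 2 3)))))) (.c k15 (.q k85
  [(.s k16 k32 3 (.s k170 k255 14 (.s k154 k223 10 (.s k138 k186 3 (.d k207 k69 k101 10 14))))), (.s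
  k255 k170 14 (.s k53 k58 2 (.s k117 k186 10 (.s k181 k245 7 (.s k122 k240 10 (.d k127 k112 k191 2
  7)))))), (.s k16 k32 3 (.s k21 k42 6 (.s k154 k223 10 (.s k149 k213 7 (.s k53 k58 2 (.d k101 k197
  k207 11 14))))))] (.c k154 (.l (.s k32 k16 3 (.s k21 k42 6 (.s k170 k255 14 (.s k149 k213 7 (.s
  k101 k239 10 (.d k53 k58 k197 2 11))))))) (.c k170 (.l (.s k16 k32 3 (.s k154 k223 10 (.s k53 k58
  2 (.s k101 k207 14 (.s k149 k197 11 (.d k21 k42 k213 6 7))))))) .n))) (.c k16 (.q k51 [(.s k17 k34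
  4 (.s k21 k42 6 (.s k25 k29 1 (.s k38 k12 6 (.d k55 k59 k4 1 4))))), (.s k49 k50 0 (.s k53 k58 2
  (.s k57 k61 1 (.s k54 k60 2 (.d k55 k52 k59 0 1))))), (.s k17 k34 4 (.s k21 k42 6 (.s k25 k29 1
  (.s k49 k50 0 (.s k37 k13 5 (.d k53 k58 k5 2 3))))))] (.c k85 (.q k127 [(.s k49 k50 0 (.s k53 k58
  2 (.s k57 k61 1 (.s k54 k60 2 (.d k55 k52 k59 0 1))))), (.s k17 k34 4 (.s k21 k42 6 (.s k25 k29 1
  (.s k38 k12 6 (.d k55 k59 k4 1 4))))), (.s k53 k58 2 (.s k255 k191 7 (.s k117 k186 10 (.s k181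
  k245 7 (.d k122 k112 k240 2 10)))))] (.c k154 (.q k223 [(.s k50 k49 0 (.s k58 k53 2 (.s k54 k62 1
  (.s k57 k60 2 (.d k59 k56 k55 0 1))))), (.s k255 k191 7 (.s k117 k186 10 (.s k122 k112 2 (.s k181
  k240 10 (.d k53 k58 k245 2 7)))))] (.c k53 (.l (.s k17 k34 4 (.s k21 k42 6 (.s k25 k29 1 (.s k38
  k12 6 (.d k55 k59 k4 1 4)))))) (.c k58 (.q k202 [(.s k17 k34 4 (.s k21 k42 6 (.s k25 k29 1 (.s k38
  k12 6 (.d k55 k59 k4 1 4))))), (.s k49 k50 0 (.s k255 k191 7 (.s k117 k186 10 (.s k185 k253 9 (.s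
  k118 k252 10 (.d k119 k116 k187 0 9))))))] (.c k170 (.l (.s k34 k17 4 (.s k42 k21 6 (.s k38 k46 1
  (.s k25 k12 6 (.d k59 k55 k8 1 4)))))) .n)) (.c k202 (.l (.s k58 k53 2 (.s k50 k49 0 (.s k54 k62 1
  (.s k57 k60 2 (.d k59 k56 k55 0 1)))))) .n)))) (.c k223 (.q k154 [(.s k49 k50 0 (.s k53 k58 2 (.s
  k57 k61 1 (.s k54 k60 2 (.d k55 k52 k59 0 1))))), (.s k255 k191 7 (.s k186 k117 10 (.s k138 k170 3
  (.d k207 k69 k101 10 14))))] .n) .n))) (.c k127 (.q k85 [(.s k17 k34 4 (.s k21 k42 6 (.s k25 k29 1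
  (.s k38 k12 6 (.d k55 k59 k4 1 4))))), (.s k49 k50 0 (.s k53 k58 2 (.s k57 k61 1 (.s k54 k60 2 (.d
  k55 k52 k59 0 1))))), (.s k17 k34 4 (.s k170 k255 14 (.s k153 k221 9 (.s k204 k102 14 (.d k136
  k187 k68 4 9)))))] .n) .n))) (.c k21 (.q k85 [(.s k16 k32 3 (.s k170 k255 14 (.s k154 k223 10 (.s
  k138 k186 3 (.d k207 k69 k101 10 14))))), (.s k255 k170 14 (.s k58 k53 2 (.s k186 k117 10 (.s k122
  k250 7 (.s k181 k240 10 (.d k191 k176 k127 2 7))))))] (.c k170 (.f k16 k32 3 (.f k154 k223 10 (.l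
  (.s k53 k58 2 (.s k101 k207 14 (.s k197 k149 11 (.s k117 k69 3 (.s k245 k181 7 (.s k165 k5 11 (.d
  k229 k213 k37 3 7)))))))))) (.c k186 (.l (.s k32 k16 3 (.s k170 k255 14 (.s k101 k239 10 (.s k207
  k154 14 (.d k69 k117 k138 3 10)))))) (.c k255 (.q k51 [(.s k16 k32 3 (.s k17 k34 4 (.s k18 k19 0
  (.s k49 k50 0 (.d k33 k1 k3 3 4))))), (.s k49 k50 0 (.s k53 k58 2 (.s k57 k61 1 (.s k54 k60 2 (.d
  k55 k52 k59 0 1))))), (.s k16 k32 3 (.s k17 k34 4 (.s k154 k223 10 (.s k153 k221 9 (.s k207 k101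
  14 (.d k155 k152 k103 0 13))))))] .n) .n)))) (.c k26 (.q k85 [(.s k16 k32 3 (.s k170 k255 14 (.s
  k154 k223 10 (.s k138 k186 3 (.d k207 k69 k101 10 14))))), (.s k255 k170 14 (.s k53 k58 2 (.s k117
  k186 10 (.s k181 k245 7 (.s k122 k240 10 (.d k127 k112 k191 2 7)))))), (.s k32 k16 3 (.s k21 k42 6
  (.s k170 k255 14 (.s k149 k213 7 (.s k101 k239 10 (.d k53 k58 k197 2 11))))))] (.c k170 (.l (.s
  k16 k32 3 (.s k154 k223 10 (.s k53 k58 2 (.s k101 k207 14 (.s k149 k197 11 (.d k21 k42 k213 6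
  7))))))) (.c k255 (.l (.s k16 k32 3 (.s k21 k42 6 (.s k154 k223 10 (.s k149 k213 7 (.s k207 k101
  14 (.d k159 k111 k144 11 2))))))) .n))) (.c k31 (.l (.s k32 k16 3 (.s k58 k53 2 (.s k42 k21 6 (.s
  k26 k10 3 (.d k37 k47 k15 2 6)))))) (.c k32 (.q k51 [(.s k34 k17 4 (.s k59 k55 1 (.s k42 k21 6 (.s
  k25 k8 4 (.d k38 k46 k12 1 6))))), (.s k49 k50 0 (.s k53 k58 2 (.s k57 k61 1 (.s k54 k60 2 (.d k55
  k52 k59 0 1))))), (.s k17 k34 4 (.s k21 k42 6 (.s k25 k29 1 (.s k49 k50 0 (.s k37 k13 5 (.d k53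
  k58 k5 2 3))))))] (.c k85 (.q k127 [(.s k49 k50 0 (.s k53 k58 2 (.s k57 k61 1 (.s k54 k60 2 (.d
  k55 k52 k59 0 1))))), (.s k17 k34 4 (.s k21 k42 6 (.s k25 k29 1 (.s k38 k12 6 (.d k55 k59 k4 1
  4))))), (.s k53 k58 2 (.s k255 k191 7 (.s k117 k186 10 (.s k181 k245 7 (.d k122 k112 k240 2
  10)))))] .n) (.c k127 (.q k85 [(.s k49 k50 0 (.s k53 k58 2 (.s k57 k61 1 (.s k54 k60 2 (.d k55 k52
  k59 0 1))))), (.s k17 k34 4 (.s k170 k255 14 (.s k153 k221 9 (.s k204 k102 14 (.d k136 k187 k68 4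
  9)))))] .n) .n))) (.c k37 (.q k85 [(.s k32 k16 3 (.s k170 k255 14 (.s k101 k239 10 (.s k207 k154
  14 (.d k69 k117 k138 3 10))))), (.s k255 k170 14 (.s k53 k58 2 (.s k117 k186 10 (.s k181 k245 7
  (.s k122 k240 10 (.d k127 k112 k191 2 7)))))), (.s k32 k16 3 (.s k21 k42 6 (.s k170 k255 14 (.s
  k149 k213 7 (.s k101 k239 10 (.d k53 k58 k197 2 11))))))] (.c k58 (.l (.s k16 k32 3 (.s k170 k255
  14 (.s k154 k223 10 (.s k207 k101 14 (.d k138 k186 k69 3 10)))))) (.c k170 (.l (.s k16 k32 3 (.s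
  k154 k223 10 (.s k53 k58 2 (.s k101 k207 14 (.s k149 k197 11 (.d k21 k42 k213 6 7))))))) (.c k255
  (.l (.s k21 k42 6 (.s k149 k213 7 (.s k53 k58 2 (.s k101 k197 11 (.s k154 k207 14 (.d k16 k32 k223
  3 10))))))) .n)))) (.c k42 (.q k170 [(.s k32 k16 3 (.s k101 k239 10 (.s k154 k207 14 (.s k186 k138
  3 (.d k255 k85 k117 14 10))))), (.s k255 k85 14 (.s k127 k191 7 (.s k117 k186 10 (.s k122 k112 2
  (.s k181 k240 10 (.d k53 k58 k245 2 7)))))), (.s k32 k16 3 (.s k101 k239 10 (.s k53 k58 2 (.s k149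
  k197 11 (.s k191 k128 6 (.d k255 k127 k85 7 14))))))] (.c k85 (.q k127 [(.s k32 k16 3 (.s k101
  k239 10 (.s k154 k207 14 (.s k255 k191 7 (.d k186 k138 k117 3 10))))), (.s k255 k191 7 (.s k117
  k186 10 (.s k122 k112 2 (.s k181 k240 10 (.d k53 k58 k245 2 7))))), (.s k32 k16 3 (.s k101 k239 10
  (.s k53 k58 2 (.s k149 k197 11 (.d k191 k128 k255 6 7)))))] (.c k191 (.l (.s k32 k16 3 (.s k101
  k239 10 (.s k58 k53 2 (.s k154 k207 14 (.s k186 k138 3 (.s k122 k250 7 (.d k117 k255 k112 10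
  2)))))))) (.c k255 (.q k51 [(.s k16 k32 3 (.s k17 k34 4 (.s k18 k19 0 (.s k49 k50 0 (.d k33 k1 k3
  3 4))))), (.s k49 k50 0 (.s k53 k58 2 (.s k57 k61 1 (.s k54 k60 2 (.d k55 k52 k59 0 1))))), (.s
  k32 k16 3 (.s k34 k17 4 (.s k101 k239 10 (.s k102 k238 9 (.s k100 k103 0 (.d k204 k153 k152 14
  13))))))] .n) .n))) (.c k127 (.l (.s k85 k255 14 (.s k16 k32 3 (.s k154 k223 10 (.s k207 k101 14
  (.d k138 k186 k69 3 10)))))) (.c k255 (.q k51 [(.s k32 k16 3 (.s k34 k17 4 (.s k33 k35 0 (.s k18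
  k3 4 (.d k50 k49 k2 0 3))))), (.s k49 k50 0 (.s k53 k58 2 (.s k57 k61 1 (.s k54 k60 2 (.d k55 k52
  k59 0 1))))), (.s k32 k16 3 (.s k34 k17 4 (.s k101 k239 10 (.s k102 k238 9 (.s k207 k154 14 (.d
  k103 k100 k155 0 13))))))] (.c k85 (.q k127 [(.s k16 k32 3 (.s k17 k34 4 (.s k18 k19 0 (.s k49 k50
  0 (.d k33 k1 k3 3 4))))), (.s k49 k50 0 (.s k53 k58 2 (.s k57 k61 1 (.s k54 k60 2 (.d k55 k52 k59
  0 1))))), (.s k32 k16 3 (.s k34 k17 4 (.s k101 k239 10 (.s k102 k238 9 (.s k100 k103 0 (.d k204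
  k153 k152 14 13))))))] .n) (.c k127 (.q k85 [(.s k32 k16 3 (.s k101 k239 10 (.s k207 k154 14 (.d
  k69 k117 k138 3 10)))), (.s k17 k34 4 (.s k153 k221 9 (.s k204 k102 14 (.d k136 k187 k68 4 9))))]
  .n) .n))) .n)))) (.c k47 (.l (.s k16 k32 3 (.s k53 k58 2 (.s k21 k42 6 (.s k37 k5 3 (.d k26 k31
  k15 2 6)))))) (.c k53 (.f k16 k32 3 (.q k51 [(.s k17 k34 4 (.s k18 k19 0 (.s k33 k3 4 (.d k49 k50
  k1 0 3)))), (.s k21 k42 6 (.s k26 k31 2 (.s k50 k49 0 (.s k38 k14 5 (.d k55 k59 k4 1 4))))), (.s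
  k17 k34 4 (.s k21 k42 6 (.s k25 k29 1 (.s k38 k12 6 (.d k55 k59 k4 1 4)))))] (.c k85 (.q k127 [(.s
  k17 k34 4 (.s k18 k19 0 (.s k33 k3 4 (.d k49 k50 k1 0 3)))), (.s k21 k42 6 (.s k26 k31 2 (.s k50
  k49 0 (.s k38 k14 5 (.d k55 k59 k4 1 4))))), (.s k17 k34 4 (.s k21 k42 6 (.s k25 k29 1 (.s k38 k12
  6 (.d k55 k59 k4 1 4)))))] .n) (.c k127 (.q k85 [(.s k17 k34 4 (.s k18 k19 0 (.s k33 k3 4 (.d k49
  k50 k1 0 3)))), (.s k170 k255 14 (.s k154 k223 10 (.s k207 k101 14 (.d k138 k186 k69 3 10))))] .n)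
  .n)))) (.c k58 (.f k16 k32 3 (.q k3 [(.s k2 k1 0 (.s k18 k33 4 (.s k17 k19 0 (.d k34 k50 k51 3
  4)))), (.s k1 k2 0 (.s k21 k42 6 (.s k41 k61 5 (.s k22 k60 6 (.d k23 k20 k43 0 5))))), (.s k21 k42
  6 (.s k18 k33 4 (.s k23 k43 5 (.s k26 k31 2 (.d k22 k20 k30 0 1)))))] (.c k85 (.q k127 [(.s k18
  k33 4 (.s k17 k19 0 (.s k34 k51 4 (.d k2 k1 k50 0 3)))), (.s k1 k2 0 (.s k21 k42 6 (.s k41 k61 5
  (.s k22 k60 6 (.d k23 k20 k43 0 5))))), (.s k21 k42 6 (.s k18 k33 4 (.s k23 k43 5 (.s k26 k31 2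
  (.d k22 k20 k30 0 1)))))] (.c k154 (.q k202 [(.s k18 k33 4 (.s k17 k19 0 (.s k34 k51 4 (.d k2 k1
  k50 0 3)))), (.s k1 k2 0 (.s k21 k42 6 (.s k41 k61 5 (.s k22 k60 6 (.d k23 k20 k43 0 5))))), (.s
  k21 k42 6 (.s k18 k33 4 (.s k23 k43 5 (.s k26 k31 2 (.d k22 k20 k30 0 1)))))] .n) (.c k202 (.q
  k154 [(.s k18 k33 4 (.s k17 k19 0 (.s k34 k51 4 (.d k2 k1 k50 0 3)))), (.s k255 k191 7 (.s k186
  k117 10 (.s k138 k170 3 (.d k207 k69 k101 10 14))))] .n) .n))) (.c k127 (.q k85 [(.s k170 k255 14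
  (.s k154 k223 10 (.s k207 k101 14 (.d k138 k186 k69 3 10)))), (.s k2 k1 0 (.s k18 k33 4 (.s k34
  k50 3 (.d k17 k19 k51 0 4))))] (.c k154 (.q k202 [(.s k2 k1 0 (.s k18 k33 4 (.s k17 k19 0 (.d k34
  k50 k51 3 4)))), (.s k1 k2 0 (.s k21 k42 6 (.s k41 k61 5 (.s k22 k60 6 (.d k23 k20 k43 0 5))))),
  (.s k21 k42 6 (.s k18 k33 4 (.s k23 k43 5 (.s k26 k31 2 (.d k22 k20 k30 0 1)))))] .n) (.c k202 (.l
  (.s k154 k223 10 (.s k170 k255 14 (.s k207 k101 14 (.d k138 k186 k69 3 10))))) .n))) (.c k154 (.q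
  k202 [(.s k2 k1 0 (.s k18 k33 4 (.s k17 k19 0 (.d k34 k50 k51 3 4)))), (.s k1 k2 0 (.s k21 k42 6
  (.s k41 k61 5 (.s k22 k60 6 (.d k23 k20 k43 0 5))))), (.s k21 k42 6 (.s k18 k33 4 (.s k23 k43 5
  (.s k26 k31 2 (.d k22 k20 k30 0 1)))))] (.c k85 (.q k127 [(.s k18 k33 4 (.s k17 k19 0 (.s k34 k51
  4 (.d k2 k1 k50 0 3)))), (.s k1 k2 0 (.s k21 k42 6 (.s k41 k61 5 (.s k22 k60 6 (.d k23 k20 k43 0
  5))))), (.s k21 k42 6 (.s k18 k33 4 (.s k23 k43 5 (.s k26 k31 2 (.d k22 k20 k30 0 1)))))] .n) (.c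
  k127 (.q k85 [(.s k2 k1 0 (.s k18 k33 4 (.s k17 k19 0 (.d k34 k50 k51 3 4)))), (.s k1 k2 0 (.s k21
  k42 6 (.s k41 k61 5 (.s k22 k60 6 (.d k23 k20 k43 0 5))))), (.s k21 k42 6 (.s k18 k33 4 (.s k23
  k43 5 (.s k26 k31 2 (.d k22 k20 k30 0 1)))))] .n) .n))) (.c k202 (.q k154 [(.s k85 k223 10 (.s
  k170 k255 14 (.s k207 k101 14 (.d k138 k186 k69 3 10)))), (.s k2 k1 0 (.s k18 k33 4 (.s k34 k50 3
  (.d k17 k19 k51 0 4))))] (.c k85 (.q k127 [(.s k18 k33 4 (.s k17 k19 0 (.s k34 k51 4 (.d k2 k1 k50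
  0 3)))), (.s k255 k191 7 (.s k186 k117 10 (.s k138 k170 3 (.d k207 k69 k101 10 14))))] .n) (.c
  k127 (.l (.s k85 k223 10 (.s k170 k255 14 (.s k207 k101 14 (.d k138 k186 k69 3 10))))) .n)))
  .n)))))) (.c k85 (.q k127 [(.s k16 k32 3 (.s k21 k42 6 (.s k26 k31 2 (.s k37 k15 6 (.d k53 k58 k5
  2 3))))), (.s k53 k58 2 (.s k255 k191 7 (.s k117 k186 10 (.s k181 k245 7 (.d k122 k112 k240 2
  10)))))] (.c k5 (.l (.s k32 k16 3 (.s k42 k21 6 (.s k37 k47 2 (.s k26 k15 6 (.d k58 k53 k10 2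
  3)))))) (.c k53 (.q k51 [(.s k16 k32 3 (.s k17 k34 4 (.s k18 k19 0 (.s k33 k3 4 (.d k49 k50 k1 0
  3))))), (.s k55 k59 1 (.s k255 k191 7 (.s k119 k187 9 (.s k183 k247 7 (.d k123 k115 k243 1 9)))))]
  .n) (.c k58 (.f k16 k32 3 (.q k51 [(.s k17 k34 4 (.s k18 k19 0 (.s k33 k3 4 (.d k49 k50 k1 0
  3)))), (.s k21 k42 6 (.s k26 k31 2 (.s k50 k49 0 (.s k38 k14 5 (.d k55 k59 k4 1 4))))), (.s k17
  k34 4 (.s k21 k42 6 (.s k25 k29 1 (.s k38 k12 6 (.d k55 k59 k4 1 4)))))] (.c k154 (.q k202 [(.s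
  k17 k34 4 (.s k18 k19 0 (.s k33 k3 4 (.d k49 k50 k1 0 3)))), (.s k21 k42 6 (.s k26 k31 2 (.s k50
  k49 0 (.s k38 k14 5 (.d k55 k59 k4 1 4))))), (.s k17 k34 4 (.s k21 k42 6 (.s k25 k29 1 (.s k38 k12
  6 (.d k55 k59 k4 1 4)))))] .n) (.c k202 (.q k154 [(.s k17 k34 4 (.s k18 k19 0 (.s k33 k3 4 (.d k49
  k50 k1 0 3)))), (.s k255 k191 7 (.s k186 k117 10 (.s k138 k170 3 (.d k207 k69 k101 10 14))))] .n)
  .n)))) .n)))) (.c k127 (.q k85 [(.s k16 k32 3 (.s k21 k42 6 (.s k26 k31 2 (.s k37 k15 6 (.d k53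
  k58 k5 2 3))))), (.s k16 k32 3 (.s k170 k255 14 (.s k154 k223 10 (.s k207 k101 14 (.d k138 k186
  k69 3 10))))), (.s k21 k42 6 (.s k149 k213 7 (.s k53 k58 2 (.s k101 k197 11 (.s k69 k117 3 (.d
  k207 k154 k138 14 10))))))] (.c k170 (.l (.s k32 k16 3 (.s k42 k21 6 (.s k37 k47 2 (.s k26 k15 6
  (.d k58 k53 k10 2 3)))))) .n)) .n))))))))))))))))

def t65 : T TT 256 :=
  (.q k12 [(.s k8 k4 1 (.s k46 k29 4 (.s k42 k21 6 (.s k38 k34 1 (.d k25 k59 k51 4 6)))))] (.c k4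
  (.q k62 [(.s k46 k29 4 (.s k30 k14 3 (.s k60 k61 0 (.s k44 k28 3 (.d k45 k47 k15 0 4))))), (.s k42
  k21 6 (.s k22 k2 5 (.s k60 k61 0 (.s k40 k20 5 (.d k41 k43 k3 0 6))))), (.s k42 k21 6 (.s k2 k22 5
  (.s k46 k29 4 (.s k14 k30 3 (.s k6 k10 1 (.d k3 k1 k9 0 2))))))] .n) (.c k8 (.q k62 [(.s k42 k21 6
  (.s k22 k2 5 (.s k60 k61 0 (.s k40 k20 5 (.d k41 k43 k3 0 6))))), (.s k46 k29 4 (.s k30 k14 3 (.s
  k60 k61 0 (.s k44 k28 3 (.d k45 k47 k15 0 4))))), (.s k42 k21 6 (.s k2 k22 5 (.s k46 k29 4 (.s k14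
  k30 3 (.s k6 k10 1 (.d k3 k9 k1 2 0))))))] .n) (.c k17 (.l (.s k8 k4 1 (.s k42 k21 6 (.s k25 k59 4
  (.s k38 k51 6 (.d k46 k29 k34 4 1)))))) (.c k21 (.q k255 [(.s k4 k8 1 (.s k85 k170 14 (.s k166
  k247 12 (.s k89 k243 14 (.d k93 k81 k174 1 12))))), (.s k46 k29 4 (.s k174 k93 12 (.s k110 k238 7
  (.s k157 k204 12 (.d k191 k140 k127 4 7))))), (.s k8 k4 1 (.s k170 k85 14 (.s k89 k251 12 (.s k29
  k46 4 (.s k149 k209 9 (.d k191 k127 k128 7 6))))))] .n) (.c k25 (.q k255 [(.s k29 k46 4 (.s k93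
  k174 12 (.s k157 k221 7 (.s k110 k204 12 (.d k127 k76 k191 4 7))))), (.s k4 k8 1 (.s k85 k170 14
  (.s k166 k247 12 (.s k89 k243 14 (.d k93 k81 k174 1 12))))), (.s k8 k4 1 (.s k170 k85 14 (.s k89
  k251 12 (.s k29 k46 4 (.s k149 k209 9 (.d k191 k127 k128 7 6))))))] (.c k166 (.l (.s k46 k29 4 (.s
  k174 k93 12 (.s k110 k238 7 (.s k157 k204 12 (.d k191 k140 k127 4 7)))))) .n)) (.c k29 (.q k3 [(.s
  k1 k2 0 (.s k8 k4 1 (.s k9 k6 2 (.s k10 k11 0 (.d k5 k13 k15 1 2))))), (.s k1 k2 0 (.s k21 k42 6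
  (.s k23 k43 5 (.s k22 k20 0 (.d k41 k61 k60 5 6))))), (.s k4 k8 1 (.s k21 k42 6 (.s k6 k9 2 (.s
  k23 k43 5 (.s k38 k55 4 (.d k22 k20 k54 0 3))))))] .n) (.c k34 (.l (.s k4 k8 1 (.s k21 k42 6 (.s
  k38 k55 4 (.s k25 k51 6 (.d k29 k46 k17 4 1)))))) (.c k38 (.q k3 [(.s k1 k2 0 (.s k9 k6 2 (.s k5
  k13 1 (.s k10 k15 2 (.d k8 k11 k4 0 1))))), (.s k1 k2 0 (.s k21 k42 6 (.s k41 k61 5 (.s k22 k60 6
  (.d k23 k20 k43 0 5))))), (.s k42 k21 6 (.s k9 k6 2 (.s k43 k23 5 (.s k41 k40 0 (.s k25 k57 3 (.d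
  k8 k4 k59 1 4))))))] (.c k22 (.l (.s k2 k1 0 (.s k4 k8 1 (.s k6 k9 2 (.s k10 k14 1 (.d k5 k7 k15 0
  2)))))) .n)) (.c k42 (.q k170 [(.s k8 k4 1 (.s k85 k255 14 (.s k89 k251 12 (.s k243 k166 14 (.d
  k81 k93 k162 1 12))))), (.s k255 k85 14 (.s k29 k46 4 (.s k93 k174 12 (.s k157 k221 7 (.s k110
  k204 12 (.d k127 k76 k191 4 7)))))), (.s k4 k8 1 (.s k85 k255 14 (.s k166 k247 12 (.s k243 k89 14
  (.d k162 k174 k81 1 12)))))] (.c k85 (.f k8 k4 1 (.l (.s k89 k251 12 (.s k29 k46 4 (.s k166 k243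
  14 (.s k149 k209 9 (.s k128 k191 6 (.s k132 k183 4 (.d k192 k64 k72 7 9))))))))) (.c k166 (.l (.s
  k255 k85 14 (.s k46 k29 4 (.s k174 k93 12 (.s k110 k238 7 (.s k157 k204 12 (.d k191 k127 k140 7
  4))))))) (.c k255 (.f k8 k4 1 (.l (.s k89 k251 12 (.s k29 k46 4 (.s k149 k209 9 (.s k128 k191 6
  (.s k192 k64 7 (.s k132 k72 9 (.d k166 k243 k183 14 4))))))))) .n)))) (.c k46 (.q k3 [(.s k1 k2 0
  (.s k8 k4 1 (.s k9 k6 2 (.s k5 k13 1 (.d k10 k11 k15 0 2))))), (.s k1 k2 0 (.s k21 k42 6 (.s k41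
  k61 5 (.s k22 k60 6 (.d k23 k20 k43 0 5))))), (.s k4 k8 1 (.s k21 k42 6 (.s k6 k9 2 (.s k23 k43 5
  (.s k38 k55 4 (.d k22 k20 k54 0 3))))))] (.c k166 (.q k226 [(.s k1 k2 0 (.s k21 k42 6 (.s k41 k61
  5 (.s k22 k60 6 (.d k23 k20 k43 0 5))))), (.s k1 k2 0 (.s k8 k4 1 (.s k9 k6 2 (.s k5 k13 1 (.d k10
  k11 k15 0 2))))), (.s k4 k8 1 (.s k21 k42 6 (.s k6 k9 2 (.s k23 k43 5 (.s k38 k55 4 (.d k22 k20
  k54 0 3))))))] .n) (.c k226 (.q k166 [(.s k1 k2 0 (.s k8 k4 1 (.s k9 k6 2 (.s k5 k13 1 (.d k10 k11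
  k15 0 2))))), (.s k4 k8 1 (.s k85 k247 12 (.s k170 k255 14 (.s k243 k89 14 (.d k162 k174 k81 1
  12))))), (.s k1 k2 0 (.s k21 k42 6 (.s k41 k61 5 (.s k22 k60 6 (.d k23 k20 k43 0 5)))))] .n) .n)))
  (.c k51 (.q k3 [(.s k1 k2 0 (.s k8 k4 1 (.s k9 k6 2 (.s k5 k13 1 (.d k10 k11 k15 0 2))))), (.s k1
  k2 0 (.s k21 k42 6 (.s k41 k61 5 (.s k22 k60 6 (.d k23 k20 k43 0 5))))), (.s k4 k8 1 (.s k21 k42 6
  (.s k6 k9 2 (.s k23 k43 5 (.s k38 k55 4 (.d k22 k20 k54 0 3))))))] .n) (.c k55 (.l (.s k8 k4 1 (.s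
  k46 k29 4 (.s k42 k21 6 (.s k38 k34 1 (.d k25 k59 k51 4 6)))))) (.c k59 (.l (.s k4 k8 1 (.s k29
  k46 4 (.s k21 k42 6 (.s k25 k17 1 (.d k38 k55 k51 4 6)))))) .n))))))))))))))

def t66 : T TT 256 :=
  (.q k12 [(.s k8 k4 1 (.s k46 k29 4 (.s k42 k21 6 (.s k38 k34 1 (.d k25 k59 k51 4 6)))))] (.c k4
  (.q k62 [(.s k46 k29 4 (.s k30 k14 3 (.s k60 k61 0 (.s k44 k28 3 (.d k45 k47 k15 0 4))))), (.s k42
  k21 6 (.s k22 k2 5 (.s k60 k61 0 (.s k40 k20 5 (.d k41 k43 k3 0 6))))), (.s k42 k21 6 (.s k2 k22 5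
  (.s k46 k29 4 (.s k14 k30 3 (.s k6 k10 1 (.d k3 k1 k9 0 2))))))] (.c k86 (.q k126 [(.s k46 k29 4
  (.s k30 k14 3 (.s k60 k61 0 (.s k44 k28 3 (.d k45 k47 k15 0 4))))), (.s k42 k21 6 (.s k22 k2 5 (.s
  k60 k61 0 (.s k40 k20 5 (.d k41 k43 k3 0 6))))), (.s k42 k21 6 (.s k2 k22 5 (.s k46 k29 4 (.s k14
  k30 3 (.s k6 k10 1 (.d k3 k1 k9 0 2))))))] .n) (.c k126 (.q k86 [(.s k46 k29 4 (.s k30 k14 3 (.s
  k60 k61 0 (.s k44 k28 3 (.d k45 k47 k15 0 4))))), (.s k42 k21 6 (.s k22 k2 5 (.s k60 k61 0 (.s k40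
  k20 5 (.d k41 k43 k3 0 6))))), (.s k42 k21 6 (.s k2 k22 5 (.s k46 k29 4 (.s k14 k30 3 (.s k6 k10 1
  (.d k3 k1 k9 0 2))))))] .n) .n))) (.c k8 (.q k62 [(.s k46 k29 4 (.s k30 k14 3 (.s k60 k61 0 (.s
  k44 k28 3 (.d k45 k47 k15 0 4))))), (.s k42 k21 6 (.s k22 k2 5 (.s k60 k61 0 (.s k40 k20 5 (.d k41
  k43 k3 0 6))))), (.s k42 k21 6 (.s k2 k22 5 (.s k46 k29 4 (.s k14 k30 3 (.s k6 k10 1 (.d k3 k9 k1
  2 0))))))] (.c k86 (.q k126 [(.s k46 k29 4 (.s k30 k14 3 (.s k60 k61 0 (.s k44 k28 3 (.d k45 k47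
  k15 0 4))))), (.s k42 k21 6 (.s k22 k2 5 (.s k60 k61 0 (.s k40 k20 5 (.d k41 k43 k3 0 6))))), (.s
  k42 k21 6 (.s k2 k22 5 (.s k46 k29 4 (.s k14 k30 3 (.s k6 k10 1 (.d k3 k9 k1 2 0))))))] .n) (.c
  k126 (.q k86 [(.s k46 k29 4 (.s k30 k14 3 (.s k60 k61 0 (.s k44 k28 3 (.d k45 k47 k15 0 4))))),
  (.s k42 k21 6 (.s k22 k2 5 (.s k60 k61 0 (.s k40 k20 5 (.d k41 k43 k3 0 6))))), (.s k42 k21 6 (.s
  k2 k22 5 (.s k46 k29 4 (.s k14 k30 3 (.s k6 k10 1 (.d k3 k9 k1 2 0))))))] .n) .n))) (.c k17 (.l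
  (.s k8 k4 1 (.s k42 k21 6 (.s k25 k59 4 (.s k38 k51 6 (.d k46 k29 k34 4 1)))))) (.c k21 (.q k255
  [(.s k4 k8 1 (.s k85 k170 14 (.s k166 k247 12 (.s k89 k243 14 (.d k93 k81 k174 1 12))))), (.s k46
  k29 4 (.s k174 k93 12 (.s k110 k238 7 (.s k157 k204 12 (.d k191 k140 k127 4 7))))), (.s k8 k4 1
  (.s k170 k85 14 (.s k89 k251 12 (.s k29 k46 4 (.s k149 k209 9 (.d k191 k127 k128 7 6))))))] (.c
  k86 (.q k126 [(.s k29 k46 4 (.s k93 k174 12 (.s k157 k221 7 (.s k110 k204 12 (.d k127 k76 k191 4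
  7))))), (.s k189 k252 8 (.s k127 k191 7 (.s k125 k124 0 (.s k60 k190 8 (.d k61 k62 k253 0 7))))),
  (.s k4 k8 1 (.s k85 k170 14 (.s k166 k247 12 (.s k89 k243 14 (.d k93 k81 k174 1 12)))))] .n) (.c
  k126 (.q k86 [(.s k4 k8 1 (.s k85 k170 14 (.s k166 k247 12 (.s k89 k243 14 (.d k93 k81 k174 1
  12))))), (.s k29 k46 4 (.s k93 k174 12 (.s k157 k221 7 (.s k110 k204 12 (.d k127 k76 k191 4
  7))))), (.s k85 k170 14 (.s k84 k87 0 (.s k252 k168 13 (.s k169 k3 14 (.d k253 k254 k1 0 13)))))]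
  .n) .n))) (.c k25 (.f k8 k4 1 (.q k170 [(.s k85 k255 14 (.s k89 k251 12 (.s k81 k93 1 (.d k243
  k162 k166 12 14)))), (.s k255 k85 14 (.s k29 k46 4 (.s k93 k174 12 (.s k157 k221 7 (.s k110 k204
  12 (.d k127 k76 k191 4 7)))))), (.s k89 k251 12 (.s k29 k46 4 (.s k166 k243 14 (.s k149 k209 9 (.s
  k128 k191 6 (.s k132 k183 4 (.d k192 k64 k72 7 9))))))), (.s k21 k42 6 (.s k89 k251 12 (.s k29 k46
  4 (.s k149 k209 9 (.s k85 k213 7 (.s k81 k93 1 (.d k243 k166 k162 14 12)))))))] (.c k86 (.q k126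
  [(.s k85 k255 14 (.s k89 k251 12 (.s k81 k93 1 (.d k243 k162 k166 12 14)))), (.s k252 k189 8 (.s
  k168 k84 13 (.s k88 k248 11 (.s k164 k240 13 (.d k172 k160 k92 1 11)))))] (.c k85 (.l (.s k89 k251
  12 (.s k166 k243 14 (.s k252 k189 8 (.s k172 k92 11 (.s k169 k163 2 (.d k168 k171 k84 0 13)))))))
  .n)) (.c k126 (.q k86 [(.s k85 k255 14 (.s k89 k251 12 (.s k81 k93 1 (.d k243 k162 k166 12 14)))),
  (.s k85 k255 14 (.s k2 k254 13 (.s k3 k1 0 (.s k252 k169 14 (.d k84 k87 k168 0 13))))), (.s k2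
  k254 13 (.s k3 k1 0 (.s k6 k9 2 (.s k166 k246 11 (.d k89 k251 k243 12 14)))))] .n) (.c k166 (.l
  (.s k21 k42 6 (.s k85 k255 14 (.s k89 k251 12 (.s k149 k213 7 (.d k29 k46 k209 4 9)))))) .n)))))
  (.c k29 (.f k8 k4 1 (.q k62 [(.s k60 k61 0 (.s k40 k20 5 (.s k24 k56 3 (.s k36 k48 5 (.d k44 k32
  k28 1 3))))), (.s k42 k21 6 (.s k22 k2 5 (.s k25 k59 4 (.s k28 k19 2 (.d k60 k61 k44 0 3))))), (.s
  k42 k21 6 (.s k2 k22 5 (.s k3 k1 0 (.s k9 k6 2 (.s k25 k59 4 (.s k41 k57 3 (.d k43 k23 k40 5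
  0)))))))] (.c k61 (.l (.s k42 k21 6 (.s k22 k2 5 (.s k25 k59 4 (.s k28 k19 2 (.s k60 k44 3 (.s k40
  k20 5 (.d k41 k43 k3 0 6)))))))) (.c k86 (.q k126 [(.s k60 k61 0 (.s k40 k20 5 (.s k24 k56 3 (.s
  k36 k48 5 (.d k44 k32 k28 1 3))))), (.s k252 k189 8 (.s k168 k84 13 (.s k88 k248 11 (.s k164 k240
  13 (.d k172 k160 k92 1 11)))))] .n) (.c k126 (.q k86 [(.s k60 k61 0 (.s k40 k20 5 (.s k24 k56 3
  (.s k36 k48 5 (.d k44 k32 k28 1 3))))), (.s k42 k21 6 (.s k2 k22 5 (.s k170 k254 13 (.s k85 k255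
  14 (.s k89 k251 12 (.s k243 k166 14 (.d k81 k93 k162 1 12)))))))] (.c k20 (.l (.s k42 k21 6 (.s
  k22 k2 5 (.s k25 k59 4 (.s k28 k19 2 (.d k60 k61 k44 0 3)))))) .n)) .n))))) (.c k34 (.l (.s k4 k8
  1 (.s k21 k42 6 (.s k38 k55 4 (.s k25 k51 6 (.d k29 k46 k17 4 1)))))) (.c k38 (.q k3 [(.s k2 k1 0
  (.s k4 k8 1 (.s k6 k9 2 (.s k10 k14 1 (.d k5 k7 k15 0 2))))), (.s k1 k2 0 (.s k21 k42 6 (.s k41
  k61 5 (.s k22 k60 6 (.d k23 k20 k43 0 5))))), (.s k42 k21 6 (.s k9 k6 2 (.s k43 k23 5 (.s k41 k40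
  0 (.s k25 k57 3 (.d k8 k4 k59 1 4))))))] (.c k86 (.q k126 [(.s k2 k1 0 (.s k4 k8 1 (.s k6 k9 2 (.s
  k10 k14 1 (.d k5 k7 k15 0 2))))), (.s k1 k2 0 (.s k21 k42 6 (.s k41 k61 5 (.s k22 k60 6 (.d k23
  k20 k43 0 5))))), (.s k4 k8 1 (.s k252 k189 8 (.s k84 k168 13 (.s k164 k244 11 (.s k88 k240 13 (.d
  k92 k80 k172 1 11))))))] .n) (.c k126 (.q k86 [(.s k6 k9 2 (.s k169 k252 14 (.s k166 k246 11 (.s
  k243 k89 14 (.d k163 k172 k83 2 11))))), (.s k1 k2 0 (.s k21 k42 6 (.s k41 k61 5 (.s k22 k60 6 (.d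
  k23 k20 k43 0 5)))))] .n) .n))) (.c k42 (.q k170 [(.s k8 k4 1 (.s k85 k255 14 (.s k89 k251 12 (.s
  k243 k166 14 (.d k81 k93 k162 1 12))))), (.s k255 k85 14 (.s k29 k46 4 (.s k93 k174 12 (.s k157
  k221 7 (.s k110 k204 12 (.d k127 k76 k191 4 7)))))), (.s k4 k8 1 (.s k85 k255 14 (.s k166 k247 12
  (.s k243 k89 14 (.d k162 k174 k81 1 12)))))] (.c k85 (.f k8 k4 1 (.l (.s k89 k251 12 (.s k29 k46 4
  (.s k166 k243 14 (.s k149 k209 9 (.s k128 k191 6 (.s k132 k183 4 (.d k192 k64 k72 7 9))))))))) (.c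
  k86 (.q k126 [(.s k4 k8 1 (.s k85 k255 14 (.s k166 k247 12 (.s k162 k174 1 (.d k243 k81 k89 12
  14))))), (.s k255 k85 14 (.s k29 k46 4 (.s k93 k174 12 (.s k157 k221 7 (.s k110 k204 12 (.d k127
  k76 k191 4 7)))))), (.s k4 k8 1 (.s k252 k189 8 (.s k84 k168 13 (.s k164 k244 11 (.s k88 k240 13
  (.d k92 k80 k172 1 11))))))] .n) (.c k126 (.q k86 [(.s k8 k4 1 (.s k85 k255 14 (.s k89 k251 12 (.s
  k243 k166 14 (.d k81 k93 k162 1 12))))), (.s k85 k255 14 (.s k2 k254 13 (.s k3 k1 0 (.s k252 k169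
  14 (.d k84 k87 k168 0 13))))), (.s k4 k8 1 (.s k2 k254 13 (.s k3 k1 0 (.s k6 k9 2 (.s k10 k14 1
  (.d k5 k7 k15 0 2))))))] .n) (.c k166 (.l (.s k255 k85 14 (.s k46 k29 4 (.s k174 k93 12 (.s k110
  k238 7 (.s k157 k204 12 (.d k191 k127 k140 7 4))))))) (.c k255 (.f k8 k4 1 (.l (.s k89 k251 12 (.s
  k29 k46 4 (.s k149 k209 9 (.s k128 k191 6 (.s k192 k64 7 (.s k132 k72 9 (.d k166 k243 k183 14
  4))))))))) .n)))))) (.c k46 (.q k166 [(.s k4 k8 1 (.s k85 k247 12 (.s k170 k255 14 (.s k243 k89 14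
  (.d k162 k174 k81 1 12))))), (.s k4 k8 1 (.s k21 k42 6 (.s k85 k247 12 (.s k149 k213 7 (.s k132
  k183 4 (.s k196 k68 7 (.d k55 k38 k102 4 12))))))), (.s k21 k42 6 (.s k243 k89 14 (.s k162 k81 12
  (.s k170 k174 1 (.s k85 k255 14 (.s k149 k213 7 (.d k183 k123 k132 9 4)))))))] (.c k85 (.f k8 k4 1
  (.l (.s k42 k21 6 (.s k25 k59 4 (.s k89 k243 14 (.s k153 k217 7 (.s k140 k179 6 (.s k204 k76 7 (.d
  k51 k38 k102 6 14))))))))) (.c k86 (.q k126 [(.s k4 k8 1 (.s k85 k247 12 (.s k170 k255 14 (.s k162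
  k174 1 (.d k243 k81 k89 12 14))))), (.s k4 k8 1 (.s k252 k189 8 (.s k84 k168 13 (.s k164 k244 11
  (.s k88 k240 13 (.d k92 k80 k172 1 11)))))), (.s k21 k42 6 (.s k243 k89 14 (.s k162 k81 12 (.s
  k170 k174 1 (.s k85 k255 14 (.s k149 k213 7 (.d k183 k123 k132 9 4)))))))] .n) (.c k126 (.q k86
  [(.s k4 k8 1 (.s k85 k247 12 (.s k170 k255 14 (.s k243 k89 14 (.d k162 k174 k81 1 12))))), (.s k6
  k246 11 (.s k3 k9 2 (.s k169 k252 14 (.s k243 k89 14 (.d k163 k172 k83 2 11))))), (.s k4 k8 1 (.s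
  k85 k247 12 (.s k170 k255 14 (.s k2 k254 13 (.s k3 k1 0 (.d k6 k9 k246 2 11))))))] (.c k243 (.l
  (.s k4 k8 1 (.s k85 k247 12 (.s k255 k170 14 (.s k6 k246 11 (.s k3 k9 2 (.d k87 k84 k171 0
  13))))))) .n)) (.c k170 (.f k8 k4 1 (.l (.s k42 k21 6 (.s k25 k59 4 (.s k89 k243 14 (.s k153 k217
  7 (.s k140 k179 6 (.s k204 k76 7 (.d k51 k38 k102 6 14))))))))) .n))))) (.c k51 (.f k8 k4 1 (.q
  k62 [(.s k46 k29 4 (.s k30 k14 3 (.s k60 k61 0 (.s k44 k28 3 (.d k45 k47 k15 0 4))))), (.s k42 k21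
  6 (.s k22 k2 5 (.s k60 k61 0 (.s k40 k20 5 (.d k41 k43 k3 0 6))))), (.s k42 k21 6 (.s k2 k22 5 (.s
  k46 k29 4 (.s k14 k30 3 (.s k6 k10 1 (.d k3 k1 k9 0 2))))))] (.c k86 (.q k126 [(.s k46 k29 4 (.s
  k30 k14 3 (.s k60 k61 0 (.s k44 k28 3 (.d k45 k47 k15 0 4))))), (.s k252 k189 8 (.s k168 k84 13
  (.s k88 k248 11 (.s k164 k240 13 (.d k172 k160 k92 1 11)))))] .n) (.c k126 (.q k86 [(.s k46 k29 4
  (.s k30 k14 3 (.s k60 k61 0 (.s k44 k28 3 (.d k45 k47 k15 0 4))))), (.s k42 k21 6 (.s k22 k2 5 (.s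
  k60 k61 0 (.s k40 k20 5 (.d k41 k43 k3 0 6))))), (.s k42 k21 6 (.s k2 k22 5 (.s k46 k29 4 (.s k14
  k30 3 (.s k6 k10 1 (.d k3 k1 k9 0 2))))))] .n) .n)))) (.c k55 (.l (.s k8 k4 1 (.s k46 k29 4 (.s
  k42 k21 6 (.s k38 k34 1 (.d k25 k59 k51 4 6)))))) (.c k59 (.l (.s k4 k8 1 (.s k29 k46 4 (.s k21
  k42 6 (.s k25 k17 1 (.d k38 k55 k51 4 6)))))) (.c k86 (.q k126 [(.s k8 k4 1 (.s k46 k29 4 (.s k42
  k21 6 (.s k38 k34 1 (.d k25 k59 k51 4 6))))), (.s k4 k8 1 (.s k252 k189 8 (.s k84 k168 13 (.s k164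
  k244 11 (.s k88 k240 13 (.d k92 k80 k172 1 11))))))] (.c k4 (.q k8 [(.s k46 k29 4 (.s k42 k21 6
  (.s k38 k34 1 (.d k25 k59 k51 4 6)))), (.s k252 k189 8 (.s k168 k84 13 (.s k88 k248 11 (.s k164
  k240 13 (.d k172 k160 k92 1 11)))))] .n) (.c k8 (.q k62 [(.s k46 k29 4 (.s k30 k14 3 (.s k60 k61 0
  (.s k44 k28 3 (.d k45 k47 k15 0 4))))), (.s k42 k21 6 (.s k22 k2 5 (.s k60 k61 0 (.s k40 k20 5 (.d
  k41 k43 k3 0 6))))), (.s k42 k21 6 (.s k2 k22 5 (.s k46 k29 4 (.s k14 k30 3 (.s k6 k10 1 (.d k3 k9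
  k1 2 0))))))] .n) .n))) (.c k126 (.q k86 [(.s k8 k4 1 (.s k46 k29 4 (.s k42 k21 6 (.s k38 k34 1
  (.d k25 k59 k51 4 6)))))] (.c k4 (.q k3 [(.s k6 k9 2 (.s k169 k252 14 (.s k166 k246 11 (.s k243
  k89 14 (.d k163 k172 k83 2 11))))), (.s k1 k2 0 (.s k21 k42 6 (.s k41 k61 5 (.s k22 k60 6 (.d k23
  k20 k43 0 5)))))] .n) (.c k8 (.q k3 [(.s k1 k2 0 (.s k169 k252 14 (.s k85 k253 13 (.s k87 k84 0
  (.d k255 k171 k170 13 14))))), (.s k2 k1 0 (.s k42 k21 6 (.s k43 k23 5 (.s k41 k40 0 (.d k22 k62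
  k60 5 6))))), (.s k6 k9 2 (.s k169 k252 14 (.s k166 k246 11 (.s k243 k89 14 (.d k163 k172 k83 2
  11)))))] .n) (.c k17 (.l (.s k8 k4 1 (.s k42 k21 6 (.s k25 k59 4 (.s k38 k51 6 (.d k46 k29 k34 4
  1)))))) (.c k21 (.q k3 [(.s k6 k9 2 (.s k169 k252 14 (.s k166 k246 11 (.s k243 k89 14 (.d k163
  k172 k83 2 11))))), (.s k1 k2 0 (.s k8 k4 1 (.s k9 k6 2 (.s k5 k13 1 (.d k10 k11 k15 0 2))))), (.s
  k1 k2 0 (.s k169 k252 14 (.s k85 k253 13 (.s k255 k170 14 (.d k87 k84 k171 0 13)))))] .n) (.c k25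
  (.q k3 [(.s k1 k2 0 (.s k8 k4 1 (.s k9 k6 2 (.s k10 k11 0 (.d k5 k13 k15 1 2))))), (.s k6 k9 2 (.s
  k169 k252 14 (.s k166 k246 11 (.s k243 k89 14 (.d k163 k172 k83 2 11))))), (.s k1 k2 0 (.s k21 k42
  6 (.s k41 k61 5 (.s k22 k60 6 (.d k23 k20 k43 0 5)))))] .n) (.c k29 (.q k3 [(.s k2 k1 0 (.s k4 k8
  1 (.s k6 k9 2 (.s k10 k14 1 (.d k5 k7 k15 0 2))))), (.s k6 k9 2 (.s k169 k252 14 (.s k166 k246 11
  (.s k243 k89 14 (.d k163 k172 k83 2 11))))), (.s k1 k2 0 (.s k21 k42 6 (.s k41 k61 5 (.s k22 k60 6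
  (.d k23 k20 k43 0 5)))))] .n) (.c k34 (.l (.s k4 k8 1 (.s k21 k42 6 (.s k38 k55 4 (.s k25 k51 6
  (.d k29 k46 k17 4 1)))))) (.c k38 (.q k3 [(.s k6 k9 2 (.s k169 k252 14 (.s k166 k246 11 (.s k243
  k89 14 (.d k163 k172 k83 2 11))))), (.s k1 k2 0 (.s k21 k42 6 (.s k41 k61 5 (.s k22 k60 6 (.d k23
  k20 k43 0 5)))))] .n) (.c k42 (.q k170 [(.s k8 k4 1 (.s k85 k255 14 (.s k89 k251 12 (.s k243 k166
  14 (.d k81 k93 k162 1 12))))), (.s k85 k255 14 (.s k2 k254 13 (.s k3 k1 0 (.s k252 k169 14 (.d k84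
  k87 k168 0 13))))), (.s k4 k8 1 (.s k2 k254 13 (.s k3 k1 0 (.s k6 k9 2 (.s k10 k14 1 (.d k5 k7 k15
  0 2))))))] .n) (.c k46 (.f k8 k4 1 (.q k166 [(.s k89 k243 14 (.s k170 k251 12 (.s k174 k162 1 (.d
  k255 k93 k85 12 14)))), (.s k6 k246 11 (.s k9 k3 2 (.s k10 k11 0 (.s k15 k5 2 (.d k14 k13 k2 0
  1)))))] .n)) (.c k51 (.q k170 [(.s k4 k8 1 (.s k85 k255 14 (.s k166 k247 12 (.s k162 k174 1 (.d
  k243 k81 k89 12 14))))), (.s k4 k8 1 (.s k2 k254 13 (.s k3 k1 0 (.s k6 k9 2 (.s k10 k14 1 (.d k5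
  k7 k15 0 2)))))), (.s k85 k255 14 (.s k2 k254 13 (.s k3 k1 0 (.s k252 k169 14 (.d k84 k87 k168 0
  13)))))] .n) (.c k55 (.l (.s k8 k4 1 (.s k46 k29 4 (.s k42 k21 6 (.s k38 k34 1 (.d k25 k59 k51 4
  6)))))) (.c k59 (.l (.s k4 k8 1 (.s k29 k46 4 (.s k21 k42 6 (.s k25 k17 1 (.d k38 k55 k51 4
  6)))))) .n)))))))))))))) .n))))))))))))))))

def t67 : T TT 256 :=
  (.q k48 [(.s k32 k16 3 (.s k58 k53 2 (.s k42 k21 6 (.s k26 k10 3 (.d k37 k47 k15 2 6)))))] (.c k5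
  (.l (.s k32 k16 3 (.s k42 k21 6 (.s k37 k47 2 (.s k26 k15 6 (.d k58 k53 k10 2 3)))))) (.c k10 (.l
  (.s k16 k32 3 (.s k21 k42 6 (.s k26 k31 2 (.s k37 k15 6 (.d k53 k58 k5 2 3)))))) (.c k15 (.q k51
  [(.s k16 k32 3 (.s k17 k34 4 (.s k18 k19 0 (.s k49 k50 0 (.d k33 k1 k3 3 4))))), (.s k17 k34 4 (.s
  k21 k42 6 (.s k25 k29 1 (.s k38 k12 6 (.d k55 k59 k4 1 4))))), (.s k49 k50 0 (.s k53 k58 2 (.s k57
  k61 1 (.s k54 k60 2 (.d k55 k52 k59 0 1)))))] .n) (.c k16 (.q k51 [(.s k17 k34 4 (.s k21 k42 6 (.s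
  k25 k29 1 (.s k38 k12 6 (.d k55 k59 k4 1 4))))), (.s k49 k50 0 (.s k53 k58 2 (.s k57 k61 1 (.s k54
  k60 2 (.d k55 k52 k59 0 1))))), (.s k17 k34 4 (.s k21 k42 6 (.s k25 k29 1 (.s k49 k50 0 (.s k37
  k13 5 (.d k53 k58 k5 2 3))))))] .n) (.c k21 (.f k16 k32 3 (.q k51 [(.s k17 k34 4 (.s k18 k19 0 (.s
  k49 k50 0 (.d k33 k1 k3 3 4)))), (.s k49 k50 0 (.s k53 k58 2 (.s k55 k59 1 (.s k54 k52 0 (.d k57
  k61 k60 1 2)))))] (.c k49 (.q k154 [(.s k85 k223 10 (.s k170 k255 14 (.s k138 k186 3 (.d k207 k69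
  k101 10 14)))), (.s k17 k34 4 (.s k85 k223 10 (.s k153 k221 9 (.s k204 k102 14 (.d k152 k155 k100
  0 13))))), (.s k58 k53 2 (.s k207 k101 14 (.s k59 k55 1 (.s k155 k103 13 (.s k203 k107 11 (.d k56
  k57 k105 0 12))))))] (.c k170 (.l (.s k17 k34 4 (.s k19 k18 0 (.s k223 k85 10 (.s k155 k87 9 (.d
  k207 k103 k101 13 14)))))) .n)) (.c k50 (.q k154 [(.s k85 k223 10 (.s k170 k255 14 (.s k207 k101
  14 (.d k138 k186 k69 3 10)))), (.s k17 k34 4 (.s k85 k223 10 (.s k153 k221 9 (.s k152 k155 0 (.d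
  k204 k100 k102 13 14))))), (.s k58 k53 2 (.s k207 k101 14 (.s k59 k55 1 (.s k155 k103 13 (.s k56
  k57 0 (.d k203 k107 k105 11 12))))))] .n) .n)))) (.c k26 (.q k51 [(.s k16 k32 3 (.s k17 k34 4 (.s
  k18 k19 0 (.s k33 k3 4 (.d k49 k50 k1 0 3))))), (.s k17 k34 4 (.s k21 k42 6 (.s k25 k29 1 (.s k38
  k12 6 (.d k55 k59 k4 1 4))))), (.s k49 k50 0 (.s k53 k58 2 (.s k57 k61 1 (.s k54 k60 2 (.d k55 k52
  k59 0 1)))))] .n) (.c k31 (.l (.s k32 k16 3 (.s k58 k53 2 (.s k42 k21 6 (.s k26 k10 3 (.d k37 k47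
  k15 2 6)))))) (.c k32 (.q k51 [(.s k34 k17 4 (.s k59 k55 1 (.s k42 k21 6 (.s k25 k8 4 (.d k38 k46
  k12 1 6))))), (.s k49 k50 0 (.s k53 k58 2 (.s k57 k61 1 (.s k54 k60 2 (.d k55 k52 k59 0 1))))),
  (.s k17 k34 4 (.s k21 k42 6 (.s k25 k29 1 (.s k49 k50 0 (.s k37 k13 5 (.d k53 k58 k5 2 3))))))]
  .n) (.c k37 (.q k51 [(.s k32 k16 3 (.s k34 k17 4 (.s k33 k35 0 (.s k18 k3 4 (.d k50 k49 k2 0
  3))))), (.s k49 k50 0 (.s k53 k58 2 (.s k57 k61 1 (.s k54 k60 2 (.d k55 k52 k59 0 1))))), (.s k17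
  k34 4 (.s k21 k42 6 (.s k25 k29 1 (.s k38 k12 6 (.d k55 k59 k4 1 4)))))] .n) (.c k42 (.q k170 [(.s
  k32 k16 3 (.s k85 k255 14 (.s k101 k239 10 (.s k207 k154 14 (.d k69 k117 k138 3 10))))), (.s k255
  k85 14 (.s k53 k58 2 (.s k117 k186 10 (.s k181 k245 7 (.s k122 k240 10 (.d k127 k112 k191 2
  7)))))), (.s k16 k32 3 (.s k85 k255 14 (.s k154 k223 10 (.s k207 k101 14 (.d k138 k186 k69 3
  10)))))] (.c k85 (.q k127 [(.s k32 k16 3 (.s k101 k239 10 (.s k154 k207 14 (.s k255 k191 7 (.d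
  k186 k138 k117 3 10))))), (.s k255 k191 7 (.s k117 k186 10 (.s k122 k112 2 (.s k181 k240 10 (.d
  k53 k58 k245 2 7))))), (.s k32 k16 3 (.s k101 k239 10 (.s k53 k58 2 (.s k149 k197 11 (.d k191 k128
  k255 6 7)))))] (.c k191 (.l (.s k32 k16 3 (.s k101 k239 10 (.s k58 k53 2 (.s k154 k207 14 (.s k186
  k138 3 (.s k122 k250 7 (.d k117 k255 k112 10 2)))))))) (.c k255 (.q k51 [(.s k16 k32 3 (.s k17 k34
  4 (.s k18 k19 0 (.s k49 k50 0 (.d k33 k1 k3 3 4))))), (.s k49 k50 0 (.s k53 k58 2 (.s k57 k61 1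
  (.s k54 k60 2 (.d k55 k52 k59 0 1))))), (.s k32 k16 3 (.s k34 k17 4 (.s k101 k239 10 (.s k102 k238
  9 (.s k100 k103 0 (.d k204 k153 k152 14 13))))))] .n) .n))) (.c k154 (.l (.s k255 k85 14 (.s k58
  k53 2 (.s k186 k117 10 (.s k122 k250 7 (.s k181 k240 10 (.d k191 k127 k176 7 2))))))) (.c k255 (.q
  k51 [(.s k32 k16 3 (.s k50 k49 0 (.s k34 k17 4 (.s k18 k2 3 (.d k33 k35 k3 0 4))))), (.s k49 k50 0
  (.s k53 k58 2 (.s k57 k61 1 (.s k54 k60 2 (.d k55 k52 k59 0 1))))), (.s k32 k16 3 (.s k34 k17 4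
  (.s k101 k239 10 (.s k102 k238 9 (.s k207 k154 14 (.d k103 k100 k155 0 13))))))] .n) .n)))) (.c
  k47 (.l (.s k16 k32 3 (.s k53 k58 2 (.s k21 k42 6 (.s k37 k5 3 (.d k26 k31 k15 2 6)))))) (.c k53
  (.q k51 [(.s k16 k32 3 (.s k17 k34 4 (.s k18 k19 0 (.s k49 k50 0 (.d k33 k1 k3 3 4))))), (.s k17
  k34 4 (.s k21 k42 6 (.s k25 k29 1 (.s k38 k12 6 (.d k55 k59 k4 1 4))))), (.s k16 k32 3 (.s k21 k42
  6 (.s k26 k31 2 (.s k50 k49 0 (.s k38 k14 5 (.d k55 k59 k4 1 4))))))] .n) (.c k58 (.f k16 k32 3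
  (.q k51 [(.s k17 k34 4 (.s k18 k19 0 (.s k33 k3 4 (.d k49 k50 k1 0 3)))), (.s k21 k42 6 (.s k26
  k31 2 (.s k50 k49 0 (.s k38 k14 5 (.d k55 k59 k4 1 4))))), (.s k17 k34 4 (.s k21 k42 6 (.s k25 k29
  1 (.s k38 k12 6 (.d k55 k59 k4 1 4)))))] (.c k154 (.q k202 [(.s k17 k34 4 (.s k18 k19 0 (.s k33 k3
  4 (.d k49 k50 k1 0 3)))), (.s k21 k42 6 (.s k26 k31 2 (.s k50 k49 0 (.s k38 k14 5 (.d k55 k59 k4 1
  4))))), (.s k17 k34 4 (.s k21 k42 6 (.s k25 k29 1 (.s k38 k12 6 (.d k55 k59 k4 1 4)))))] .n) (.c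
  k202 (.q k154 [(.s k17 k34 4 (.s k18 k19 0 (.s k33 k3 4 (.d k49 k50 k1 0 3)))), (.s k85 k223 10
  (.s k170 k255 14 (.s k207 k101 14 (.d k138 k186 k69 3 10))))] .n) .n)))) .n))))))))))))))

def t69 : T TT 256 :=
  (.q k48 [(.s k32 k16 3 (.s k58 k53 2 (.s k42 k21 6 (.s k26 k10 3 (.d k37 k47 k15 2 6)))))] (.c k5
  (.l (.s k32 k16 3 (.s k42 k21 6 (.s k37 k47 2 (.s k26 k15 6 (.d k58 k53 k10 2 3)))))) (.c k10 (.l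
  (.s k16 k32 3 (.s k21 k42 6 (.s k26 k31 2 (.s k37 k15 6 (.d k53 k58 k5 2 3)))))) (.c k15 (.q k51
  [(.s k16 k32 3 (.s k17 k34 4 (.s k18 k19 0 (.s k49 k50 0 (.d k33 k1 k3 3 4))))), (.s k17 k34 4 (.s
  k21 k42 6 (.s k25 k29 1 (.s k38 k12 6 (.d k55 k59 k4 1 4))))), (.s k49 k50 0 (.s k53 k58 2 (.s k57
  k61 1 (.s k54 k60 2 (.d k55 k52 k59 0 1)))))] .n) (.c k16 (.q k51 [(.s k17 k34 4 (.s k21 k42 6 (.s
  k25 k29 1 (.s k38 k12 6 (.d k55 k59 k4 1 4))))), (.s k49 k50 0 (.s k53 k58 2 (.s k57 k61 1 (.s k54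
  k60 2 (.d k55 k52 k59 0 1))))), (.s k17 k34 4 (.s k21 k42 6 (.s k25 k29 1 (.s k49 k50 0 (.s k37
  k13 5 (.d k53 k58 k5 2 3))))))] .n) (.c k21 (.f k16 k32 3 (.q k51 [(.s k17 k34 4 (.s k18 k19 0 (.s
  k33 k3 4 (.d k49 k50 k1 0 3)))), (.s k49 k50 0 (.s k53 k58 2 (.s k55 k59 1 (.s k54 k52 0 (.d k57
  k61 k60 1 2)))))] (.c k49 (.q k154 [(.s k85 k223 10 (.s k207 k101 14 (.s k155 k103 13 (.s k153
  k152 0 (.d k17 k34 k221 4 9))))), (.s k17 k34 4 (.s k18 k19 0 (.s k86 k222 9 (.s k101 k207 14 (.s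
  k116 k71 4 (.s k252 k184 9 (.d k3 k33 k169 4 14))))))), (.s k58 k53 2 (.s k207 k101 14 (.s k59 k55
  1 (.s k155 k103 13 (.s k203 k107 11 (.d k56 k57 k105 0 12)))))), (.s k17 k34 4 (.s k85 k223 10 (.s
  k153 k221 9 (.s k204 k102 14 (.d k152 k155 k100 0 13)))))] .n) (.c k50 (.q k154 [(.s k85 k223 10
  (.s k207 k101 14 (.s k155 k103 13 (.s k153 k152 0 (.d k17 k34 k221 4 9))))), (.s k17 k34 4 (.s k18
  k19 0 (.s k86 k222 9 (.s k101 k207 14 (.s k116 k71 4 (.s k252 k184 9 (.d k3 k33 k169 4 14))))))),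
  (.s k58 k53 2 (.s k207 k101 14 (.s k59 k55 1 (.s k155 k103 13 (.s k56 k57 0 (.d k203 k107 k105 11
  12)))))), (.s k17 k34 4 (.s k85 k223 10 (.s k153 k221 9 (.s k204 k102 14 (.d k152 k155 k100 0
  13)))))] .n) .n)))) (.c k26 (.q k51 [(.s k16 k32 3 (.s k17 k34 4 (.s k18 k19 0 (.s k33 k3 4 (.d
  k49 k50 k1 0 3))))), (.s k17 k34 4 (.s k21 k42 6 (.s k25 k29 1 (.s k38 k12 6 (.d k55 k59 k4 1
  4))))), (.s k49 k50 0 (.s k53 k58 2 (.s k57 k61 1 (.s k54 k60 2 (.d k55 k52 k59 0 1)))))] .n) (.c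
  k31 (.l (.s k32 k16 3 (.s k58 k53 2 (.s k42 k21 6 (.s k26 k10 3 (.d k37 k47 k15 2 6)))))) (.c k32
  (.q k51 [(.s k34 k17 4 (.s k59 k55 1 (.s k42 k21 6 (.s k25 k8 4 (.d k38 k46 k12 1 6))))), (.s k49
  k50 0 (.s k53 k58 2 (.s k57 k61 1 (.s k54 k60 2 (.d k55 k52 k59 0 1))))), (.s k17 k34 4 (.s k21
  k42 6 (.s k25 k29 1 (.s k49 k50 0 (.s k37 k13 5 (.d k53 k58 k5 2 3))))))] .n) (.c k37 (.q k51 [(.s
  k32 k16 3 (.s k34 k17 4 (.s k33 k35 0 (.s k18 k3 4 (.d k50 k49 k2 0 3))))), (.s k49 k50 0 (.s k53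
  k58 2 (.s k57 k61 1 (.s k54 k60 2 (.d k55 k52 k59 0 1))))), (.s k17 k34 4 (.s k21 k42 6 (.s k25
  k29 1 (.s k38 k12 6 (.d k55 k59 k4 1 4)))))] .n) (.c k42 (.q k170 [(.s k32 k16 3 (.s k101 k239 10
  (.s k154 k207 14 (.s k186 k138 3 (.d k255 k117 k85 10 14))))), (.s k255 k85 14 (.s k117 k186 10
  (.s k127 k191 7 (.s k122 k112 2 (.s k181 k240 10 (.d k53 k58 k245 2 7))))))] (.c k85 (.q k127 [(.s
  k32 k16 3 (.s k101 k239 10 (.s k154 k207 14 (.s k255 k191 7 (.d k186 k117 k138 10 3))))), (.s k255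
  k191 7 (.s k117 k186 10 (.s k122 k112 2 (.s k181 k240 10 (.d k53 k58 k245 2 7)))))] (.c k101 (.q
  k117 [(.d k255 k191 k186 7 10), (.s k53 k58 2 (.s k181 k245 7 (.d k122 k112 k240 2 10)))] (.c k96
  (.q k111 [(.d k255 k191 k186 7 10), (.s k53 k58 2 (.s k181 k245 7 (.d k122 k112 k240 2 10)))] .n)
  (.c k111 (.q k96 [(.d k255 k191 k186 7 10), (.s k53 k58 2 (.s k181 k245 7 (.d k122 k112 k240 2
  10)))] .n) .n))) (.c k117 (.q k101 [(.d k32 k16 k239 3 10), (.s k53 k58 2 (.s k149 k197 11 (.d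
  k191 k128 k255 6 7)))] .n) (.c k186 (.l (.s k32 k16 3 (.s k101 k239 10 (.s k53 k58 2 (.s k149 k197
  11 (.d k191 k128 k255 6 7)))))) (.c k191 (.l (.s k32 k16 3 (.s k101 k239 10 (.s k58 k53 2 (.s k154
  k207 14 (.s k186 k138 3 (.s k122 k250 7 (.d k117 k255 k112 10 2)))))))) (.c k255 (.q k101 [(.d k32
  k16 k239 3 10), (.s k53 k58 2 (.s k149 k197 11 (.s k128 k191 6 (.s k192 k64 7 (.s k144 k96 11 (.d
  k154 k159 k207 2 14))))))] .n) .n)))))) (.c k101 (.l (.s k255 k85 14 (.s k117 k186 10 (.s k53 k58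
  2 (.s k181 k245 7 (.s k122 k240 10 (.d k127 k112 k191 2 7))))))) (.c k117 (.l (.s k32 k16 3 (.s
  k255 k85 14 (.s k101 k239 10 (.s k53 k58 2 (.s k149 k197 11 (.d k191 k127 k128 7 6))))))) (.c k186
  (.l (.s k32 k16 3 (.s k255 k85 14 (.s k101 k239 10 (.s k53 k58 2 (.s k149 k197 11 (.d k191 k127
  k128 7 6))))))) (.c k255 (.q k51 [(.s k32 k16 3 (.s k34 k17 4 (.s k33 k35 0 (.s k18 k3 4 (.d k50
  k49 k2 0 3))))), (.s k49 k50 0 (.s k53 k58 2 (.s k57 k61 1 (.s k54 k60 2 (.d k55 k52 k59 0 1))))),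
  (.s k32 k16 3 (.s k34 k17 4 (.s k101 k239 10 (.s k102 k238 9 (.s k207 k154 14 (.d k103 k100 k155 0
  13))))))] .n) .n)))))) (.c k47 (.l (.s k16 k32 3 (.s k53 k58 2 (.s k21 k42 6 (.s k37 k5 3 (.d k26
  k31 k15 2 6)))))) (.c k53 (.q k51 [(.s k16 k32 3 (.s k17 k34 4 (.s k18 k19 0 (.s k33 k3 4 (.d k49
  k50 k1 0 3))))), (.s k17 k34 4 (.s k21 k42 6 (.s k25 k29 1 (.s k38 k12 6 (.d k55 k59 k4 1 4))))),
  (.s k16 k32 3 (.s k21 k42 6 (.s k26 k31 2 (.s k50 k49 0 (.s k38 k14 5 (.d k55 k59 k4 1 4))))))]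
  .n) (.c k58 (.f k16 k32 3 (.q k51 [(.s k17 k34 4 (.s k18 k19 0 (.s k33 k3 4 (.d k49 k50 k1 0
  3)))), (.s k21 k42 6 (.s k26 k31 2 (.s k50 k49 0 (.s k38 k14 5 (.d k55 k59 k4 1 4))))), (.s k17
  k34 4 (.s k21 k42 6 (.s k25 k29 1 (.s k38 k12 6 (.d k55 k59 k4 1 4)))))] (.c k154 (.q k202 [(.s
  k17 k34 4 (.s k18 k19 0 (.s k33 k3 4 (.d k49 k50 k1 0 3)))), (.s k21 k42 6 (.s k26 k31 2 (.s k50
  k49 0 (.s k38 k14 5 (.d k55 k59 k4 1 4))))), (.s k17 k34 4 (.s k21 k42 6 (.s k25 k29 1 (.s k38 k12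
  6 (.d k55 k59 k4 1 4)))))] .n) (.c k202 (.q k154 [(.s k17 k34 4 (.s k18 k19 0 (.s k33 k3 4 (.d k49
  k50 k1 0 3)))), (.s k21 k42 6 (.s k26 k31 2 (.s k50 k49 0 (.s k38 k14 5 (.d k55 k59 k4 1 4))))),
  (.s k17 k34 4 (.s k21 k42 6 (.s k25 k29 1 (.s k38 k12 6 (.d k55 k59 k4 1 4)))))] .n) .n))))
  .n))))))))))))))

def t70 : T TT 256 :=
  (.q k48 [(.s k32 k16 3 (.s k58 k53 2 (.s k42 k21 6 (.s k26 k10 3 (.d k37 k47 k15 2 6)))))] (.c k5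
  (.l (.s k32 k16 3 (.s k42 k21 6 (.s k37 k47 2 (.s k26 k15 6 (.d k58 k53 k10 2 3)))))) (.c k10 (.l
  (.s k16 k32 3 (.s k21 k42 6 (.s k26 k31 2 (.s k37 k15 6 (.d k53 k58 k5 2 3)))))) (.c k15 (.q k101
  [(.s k16 k32 3 (.s k154 k207 14 (.s k85 k223 10 (.s k255 k170 14 (.d k117 k69 k186 3 10))))), (.s
  k21 k42 6 (.s k53 k58 2 (.s k5 k37 3 (.s k197 k149 11 (.s k69 k133 7 (.d k207 k154 k138 14
  10)))))), (.s k32 k16 3 (.s k170 k239 10 (.s k255 k85 14 (.s k154 k207 14 (.d k186 k138 k117 3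
  10)))))] (.c k32 (.l (.s k21 k42 6 (.s k53 k58 2 (.s k149 k197 11 (.s k85 k213 7 (.s k69 k117 3
  (.d k207 k154 k138 14 10))))))) (.c k154 (.l (.s k32 k16 3 (.s k21 k42 6 (.s k170 k239 10 (.s k85
  k255 14 (.s k149 k213 7 (.d k53 k58 k197 2 11))))))) (.c k170 (.l (.s k16 k32 3 (.s k53 k58 2 (.s
  k154 k207 14 (.s k85 k223 10 (.s k149 k197 11 (.d k21 k42 k213 6 7))))))) (.c k207 (.l (.s k32 k16
  3 (.s k21 k42 6 (.s k170 k239 10 (.s k53 k58 2 (.s k149 k197 11 (.d k85 k255 k213 14 7)))))))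
  .n))))) (.c k16 (.q k51 [(.s k17 k34 4 (.s k21 k42 6 (.s k25 k29 1 (.s k38 k12 6 (.d k55 k59 k4 1
  4))))), (.s k49 k50 0 (.s k53 k58 2 (.s k57 k61 1 (.s k54 k60 2 (.d k55 k52 k59 0 1))))), (.s k17
  k34 4 (.s k21 k42 6 (.s k25 k29 1 (.s k49 k50 0 (.s k37 k13 5 (.d k53 k58 k5 2 3))))))] .n) (.c
  k21 (.q k51 [(.s k16 k32 3 (.s k17 k34 4 (.s k18 k19 0 (.s k49 k50 0 (.d k33 k1 k3 3 4))))), (.s
  k49 k50 0 (.s k53 k58 2 (.s k57 k61 1 (.s k54 k60 2 (.d k55 k52 k59 0 1)))))] (.c k1 (.l (.s k32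
  k16 3 (.s k34 k17 4 (.s k33 k35 0 (.s k18 k3 4 (.d k50 k49 k2 0 3)))))) (.c k49 (.q k101 [(.s k16
  k32 3 (.s k154 k207 14 (.s k85 k223 10 (.s k255 k170 14 (.d k117 k69 k186 3 10))))), (.s k53 k58 2
  (.s k55 k59 1 (.s k52 k54 0 (.s k199 k150 12 (.s k103 k151 11 (.d k207 k154 k155 14 13)))))), (.s
  k32 k16 3 (.s k34 k17 4 (.s k170 k239 10 (.s k102 k238 9 (.s k100 k103 0 (.d k204 k152 k153 13
  14))))))] .n) (.c k50 (.q k101 [(.s k16 k32 3 (.s k154 k207 14 (.s k85 k223 10 (.s k255 k170 14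
  (.d k117 k69 k186 3 10))))), (.s k53 k58 2 (.s k55 k59 1 (.s k149 k197 11 (.s k102 k196 12 (.s
  k100 k103 0 (.d k204 k153 k152 14 13))))))] (.c k154 (.l (.s k32 k16 3 (.s k34 k17 4 (.s k170 k239
  10 (.s k102 k238 9 (.s k204 k153 14 (.d k100 k152 k103 13 0))))))) .n)) .n)))) (.c k26 (.q k51
  [(.s k16 k32 3 (.s k17 k34 4 (.s k18 k19 0 (.s k33 k3 4 (.d k49 k50 k1 0 3))))), (.s k17 k34 4 (.s
  k21 k42 6 (.s k25 k29 1 (.s k38 k12 6 (.d k55 k59 k4 1 4))))), (.s k49 k50 0 (.s k53 k58 2 (.s k57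
  k61 1 (.s k54 k60 2 (.d k55 k52 k59 0 1)))))] .n) (.c k31 (.l (.s k32 k16 3 (.s k58 k53 2 (.s k42
  k21 6 (.s k26 k10 3 (.d k37 k47 k15 2 6)))))) (.c k32 (.q k51 [(.s k34 k17 4 (.s k59 k55 1 (.s k42
  k21 6 (.s k25 k8 4 (.d k38 k46 k12 1 6))))), (.s k49 k50 0 (.s k53 k58 2 (.s k57 k61 1 (.s k54 k60
  2 (.d k55 k52 k59 0 1))))), (.s k17 k34 4 (.s k21 k42 6 (.s k25 k29 1 (.s k49 k50 0 (.s k37 k13 5
  (.d k53 k58 k5 2 3))))))] .n) (.c k37 (.q k51 [(.s k32 k16 3 (.s k34 k17 4 (.s k33 k35 0 (.s k18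
  k3 4 (.d k50 k49 k2 0 3))))), (.s k49 k50 0 (.s k53 k58 2 (.s k57 k61 1 (.s k54 k60 2 (.d k55 k52
  k59 0 1))))), (.s k17 k34 4 (.s k21 k42 6 (.s k25 k29 1 (.s k38 k12 6 (.d k55 k59 k4 1 4)))))] .n)
  (.c k42 (.q k170 [(.s k32 k16 3 (.s k85 k255 14 (.s k101 k239 10 (.s k207 k154 14 (.d k69 k117
  k138 3 10))))), (.s k255 k85 14 (.s k53 k58 2 (.s k117 k186 10 (.s k181 k245 7 (.s k122 k240 10
  (.d k127 k112 k191 2 7)))))), (.s k16 k32 3 (.s k85 k255 14 (.s k154 k223 10 (.s k207 k101 14 (.d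
  k138 k186 k69 3 10)))))] (.c k85 (.q k127 [(.s k32 k16 3 (.s k101 k239 10 (.s k154 k207 14 (.s
  k255 k191 7 (.d k186 k138 k117 3 10))))), (.s k255 k191 7 (.s k117 k186 10 (.s k122 k112 2 (.s
  k181 k240 10 (.d k53 k58 k245 2 7))))), (.s k32 k16 3 (.s k101 k239 10 (.s k53 k58 2 (.s k149 k197
  11 (.d k191 k128 k255 6 7)))))] (.c k191 (.l (.s k32 k16 3 (.s k101 k239 10 (.s k58 k53 2 (.s k154
  k207 14 (.s k186 k138 3 (.s k122 k250 7 (.d k117 k255 k112 10 2)))))))) (.c k255 (.q k51 [(.s k16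
  k32 3 (.s k17 k34 4 (.s k18 k19 0 (.s k49 k50 0 (.d k33 k1 k3 3 4))))), (.s k49 k50 0 (.s k53 k58
  2 (.s k57 k61 1 (.s k54 k60 2 (.d k55 k52 k59 0 1))))), (.s k32 k16 3 (.s k34 k17 4 (.s k101 k239
  10 (.s k102 k238 9 (.s k100 k103 0 (.d k204 k153 k152 14 13))))))] .n) .n))) (.c k154 (.l (.s k255
  k85 14 (.s k58 k53 2 (.s k186 k117 10 (.s k122 k250 7 (.s k181 k240 10 (.d k191 k127 k176 7
  2))))))) (.c k255 (.q k51 [(.s k32 k16 3 (.s k34 k17 4 (.s k33 k35 0 (.s k18 k3 4 (.d k50 k49 k2 0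
  3))))), (.s k49 k50 0 (.s k53 k58 2 (.s k57 k61 1 (.s k54 k60 2 (.d k55 k52 k59 0 1))))), (.s k32
  k16 3 (.s k34 k17 4 (.s k101 k239 10 (.s k102 k238 9 (.s k207 k154 14 (.d k103 k100 k155 0
  13))))))] .n) .n)))) (.c k47 (.l (.s k16 k32 3 (.s k53 k58 2 (.s k21 k42 6 (.s k37 k5 3 (.d k26
  k31 k15 2 6)))))) (.c k53 (.q k51 [(.s k16 k32 3 (.s k17 k34 4 (.s k18 k19 0 (.s k49 k50 0 (.d k33
  k1 k3 3 4))))), (.s k17 k34 4 (.s k21 k42 6 (.s k25 k29 1 (.s k38 k12 6 (.d k55 k59 k4 1 4))))),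
  (.s k16 k32 3 (.s k21 k42 6 (.s k26 k31 2 (.s k50 k49 0 (.s k38 k14 5 (.d k55 k59 k4 1 4))))))]
  .n) (.c k58 (.q k51 [(.s k16 k32 3 (.s k17 k34 4 (.s k18 k19 0 (.s k33 k3 4 (.d k49 k50 k1 0
  3))))), (.s k17 k34 4 (.s k21 k42 6 (.s k25 k29 1 (.s k38 k12 6 (.d k55 k59 k4 1 4))))), (.s k16
  k32 3 (.s k21 k42 6 (.s k26 k31 2 (.s k50 k49 0 (.s k38 k14 5 (.d k55 k59 k4 1 4))))))] (.c k154
  (.q k202 [(.s k16 k32 3 (.s k17 k34 4 (.s k18 k19 0 (.s k33 k3 4 (.d k49 k50 k1 0 3))))), (.s k17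
  k34 4 (.s k21 k42 6 (.s k25 k29 1 (.s k38 k12 6 (.d k55 k59 k4 1 4))))), (.s k16 k32 3 (.s k21 k42
  6 (.s k26 k31 2 (.s k50 k49 0 (.s k38 k14 5 (.d k55 k59 k4 1 4))))))] .n) (.c k202 (.q k154 [(.s
  k16 k32 3 (.s k17 k34 4 (.s k18 k19 0 (.s k33 k3 4 (.d k49 k50 k1 0 3))))), (.s k16 k32 3 (.s k85
  k223 10 (.s k170 k255 14 (.s k207 k101 14 (.d k138 k186 k69 3 10))))), (.s k17 k34 4 (.s k21 k42 6
  (.s k25 k29 1 (.s k38 k12 6 (.d k55 k59 k4 1 4)))))] .n) .n))) .n))))))))))))))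

def t71 : T TT 256 :=
  (.q k48 [(.s k32 k16 3 (.s k58 k53 2 (.s k42 k21 6 (.s k26 k10 3 (.d k37 k47 k15 2 6)))))] (.c k5
  (.l (.s k32 k16 3 (.s k42 k21 6 (.s k37 k47 2 (.s k26 k15 6 (.d k58 k53 k10 2 3)))))) (.c k10 (.l
  (.s k16 k32 3 (.s k21 k42 6 (.s k26 k31 2 (.s k37 k15 6 (.d k53 k58 k5 2 3)))))) (.c k15 (.q k51
  [(.s k16 k32 3 (.s k17 k34 4 (.s k18 k19 0 (.s k49 k50 0 (.d k33 k1 k3 3 4))))), (.s k17 k34 4 (.s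
  k21 k42 6 (.s k25 k29 1 (.s k38 k12 6 (.d k55 k59 k4 1 4))))), (.s k49 k50 0 (.s k53 k58 2 (.s k57
  k61 1 (.s k54 k60 2 (.d k55 k52 k59 0 1)))))] .n) (.c k16 (.q k51 [(.s k17 k34 4 (.s k21 k42 6 (.s
  k25 k29 1 (.s k38 k12 6 (.d k55 k59 k4 1 4))))), (.s k49 k50 0 (.s k53 k58 2 (.s k57 k61 1 (.s k54
  k60 2 (.d k55 k52 k59 0 1))))), (.s k17 k34 4 (.s k21 k42 6 (.s k25 k29 1 (.s k49 k50 0 (.s k37
  k13 5 (.d k53 k58 k5 2 3))))))] .n) (.c k21 (.f k16 k32 3 (.q k51 [(.s k17 k34 4 (.s k18 k19 0 (.s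
  k49 k50 0 (.d k33 k1 k3 3 4)))), (.s k49 k50 0 (.s k53 k58 2 (.s k55 k59 1 (.s k54 k52 0 (.d k57
  k61 k60 1 2)))))] (.c k49 (.q k154 [(.s k85 k223 10 (.s k170 k255 14 (.s k138 k186 3 (.d k207 k69
  k101 10 14)))), (.s k17 k34 4 (.s k85 k223 10 (.s k153 k221 9 (.s k204 k102 14 (.d k152 k155 k100
  0 13))))), (.s k58 k53 2 (.s k207 k101 14 (.s k59 k55 1 (.s k155 k103 13 (.s k203 k107 11 (.d k56
  k57 k105 0 12))))))] (.c k170 (.l (.s k17 k34 4 (.s k19 k18 0 (.s k223 k85 10 (.s k155 k87 9 (.d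
  k207 k103 k101 13 14)))))) .n)) (.c k50 (.q k154 [(.s k85 k223 10 (.s k170 k255 14 (.s k138 k186 3
  (.d k207 k69 k101 10 14)))), (.s k17 k34 4 (.s k85 k223 10 (.s k153 k221 9 (.s k152 k155 0 (.d
  k204 k100 k102 13 14))))), (.s k58 k53 2 (.s k207 k101 14 (.s k59 k55 1 (.s k155 k103 13 (.s k56
  k57 0 (.d k203 k107 k105 11 12))))))] .n) .n)))) (.c k26 (.q k51 [(.s k16 k32 3 (.s k17 k34 4 (.s
  k18 k19 0 (.s k33 k3 4 (.d k49 k50 k1 0 3))))), (.s k17 k34 4 (.s k21 k42 6 (.s k25 k29 1 (.s k38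
  k12 6 (.d k55 k59 k4 1 4))))), (.s k49 k50 0 (.s k53 k58 2 (.s k57 k61 1 (.s k54 k60 2 (.d k55 k52
  k59 0 1)))))] .n) (.c k31 (.l (.s k32 k16 3 (.s k58 k53 2 (.s k42 k21 6 (.s k26 k10 3 (.d k37 k47
  k15 2 6)))))) (.c k32 (.q k51 [(.s k34 k17 4 (.s k59 k55 1 (.s k42 k21 6 (.s k25 k8 4 (.d k38 k46
  k12 1 6))))), (.s k49 k50 0 (.s k53 k58 2 (.s k57 k61 1 (.s k54 k60 2 (.d k55 k52 k59 0 1))))),
  (.s k17 k34 4 (.s k21 k42 6 (.s k25 k29 1 (.s k49 k50 0 (.s k37 k13 5 (.d k53 k58 k5 2 3))))))]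
  .n) (.c k37 (.q k51 [(.s k32 k16 3 (.s k34 k17 4 (.s k33 k35 0 (.s k18 k3 4 (.d k50 k49 k2 0
  3))))), (.s k49 k50 0 (.s k53 k58 2 (.s k57 k61 1 (.s k54 k60 2 (.d k55 k52 k59 0 1))))), (.s k17
  k34 4 (.s k21 k42 6 (.s k25 k29 1 (.s k38 k12 6 (.d k55 k59 k4 1 4)))))] .n) (.c k42 (.q k170 [(.s
  k32 k16 3 (.s k85 k255 14 (.s k101 k239 10 (.s k207 k154 14 (.d k69 k117 k138 3 10))))), (.s k255
  k85 14 (.s k53 k58 2 (.s k117 k186 10 (.s k181 k245 7 (.s k122 k240 10 (.d k127 k112 k191 2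
  7)))))), (.s k16 k32 3 (.s k85 k255 14 (.s k154 k223 10 (.s k207 k101 14 (.d k138 k186 k69 3
  10)))))] (.c k85 (.q k127 [(.s k255 k191 7 (.s k117 k186 10 (.s k122 k112 2 (.s k181 k240 10 (.d
  k53 k58 k245 2 7))))), (.s k32 k16 3 (.s k101 k239 10 (.s k53 k58 2 (.s k149 k197 11 (.d k191 k128
  k255 6 7))))), (.s k32 k16 3 (.s k101 k239 10 (.s k154 k207 14 (.s k255 k191 7 (.d k186 k138 k117
  3 10)))))] (.c k191 (.l (.s k32 k16 3 (.s k101 k239 10 (.s k58 k53 2 (.s k154 k207 14 (.s k186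
  k138 3 (.s k122 k250 7 (.d k117 k255 k112 10 2)))))))) (.c k255 (.q k51 [(.s k16 k32 3 (.s k17 k34
  4 (.s k18 k19 0 (.s k49 k50 0 (.d k33 k1 k3 3 4))))), (.s k49 k50 0 (.s k53 k58 2 (.s k57 k61 1
  (.s k54 k60 2 (.d k55 k52 k59 0 1))))), (.s k32 k16 3 (.s k34 k17 4 (.s k101 k239 10 (.s k102 k238
  9 (.s k100 k103 0 (.d k204 k153 k152 14 13))))))] .n) .n))) (.c k154 (.l (.s k255 k85 14 (.s k58
  k53 2 (.s k186 k117 10 (.s k122 k250 7 (.s k181 k240 10 (.d k191 k127 k176 7 2))))))) (.c k255 (.q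
  k51 [(.s k32 k16 3 (.s k50 k49 0 (.s k34 k17 4 (.s k18 k2 3 (.d k33 k35 k3 0 4))))), (.s k49 k50 0
  (.s k53 k58 2 (.s k57 k61 1 (.s k54 k60 2 (.d k55 k52 k59 0 1))))), (.s k32 k16 3 (.s k34 k17 4
  (.s k101 k239 10 (.s k102 k238 9 (.s k207 k154 14 (.d k103 k100 k155 0 13))))))] .n) .n)))) (.c
  k47 (.l (.s k16 k32 3 (.s k53 k58 2 (.s k21 k42 6 (.s k37 k5 3 (.d k26 k31 k15 2 6)))))) (.c k53
  (.q k51 [(.s k16 k32 3 (.s k17 k34 4 (.s k18 k19 0 (.s k49 k50 0 (.d k33 k1 k3 3 4))))), (.s k17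
  k34 4 (.s k21 k42 6 (.s k25 k29 1 (.s k38 k12 6 (.d k55 k59 k4 1 4))))), (.s k16 k32 3 (.s k21 k42
  6 (.s k26 k31 2 (.s k50 k49 0 (.s k38 k14 5 (.d k55 k59 k4 1 4))))))] .n) (.c k58 (.f k16 k32 3
  (.q k51 [(.s k17 k34 4 (.s k18 k19 0 (.s k33 k3 4 (.d k49 k50 k1 0 3)))), (.s k21 k42 6 (.s k26
  k31 2 (.s k50 k49 0 (.s k38 k14 5 (.d k55 k59 k4 1 4))))), (.s k17 k34 4 (.s k21 k42 6 (.s k25 k29
  1 (.s k38 k12 6 (.d k55 k59 k4 1 4)))))] (.c k154 (.q k202 [(.s k17 k34 4 (.s k18 k19 0 (.s k33 k3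
  4 (.d k49 k50 k1 0 3)))), (.s k21 k42 6 (.s k26 k31 2 (.s k50 k49 0 (.s k38 k14 5 (.d k55 k59 k4 1
  4))))), (.s k17 k34 4 (.s k21 k42 6 (.s k25 k29 1 (.s k38 k12 6 (.d k55 k59 k4 1 4)))))] .n) (.c
  k202 (.q k154 [(.s k17 k34 4 (.s k18 k19 0 (.s k33 k3 4 (.d k49 k50 k1 0 3)))), (.s k85 k223 10
  (.s k170 k255 14 (.s k207 k101 14 (.d k138 k186 k69 3 10))))] (.c k207 (.l (.s k17 k34 4 (.s k18
  k19 0 (.s k49 k50 0 (.d k33 k1 k3 3 4))))) .n)) .n)))) .n))))))))))))))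

def t74 : T TT 256 :=
  (.q k48 [(.s k32 k16 3 (.s k58 k53 2 (.s k42 k21 6 (.s k26 k10 3 (.d k37 k47 k15 2 6))))), (.s k16
  k32 3 (.s k21 k42 6 (.s k26 k31 2 (.s k37 k15 6 (.d k53 k58 k5 2 3)))))] (.c k5 (.l (.s k32 k16 3
  (.s k42 k21 6 (.s k37 k47 2 (.s k26 k15 6 (.d k58 k53 k10 2 3)))))) (.c k15 (.q k122 [(.s k58 k53
  2 (.s k186 k250 7 (.s k117 k255 10 (.s k240 k181 10 (.d k112 k127 k176 2 7))))), (.s k32 k16 3 (.s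
  k240 k181 10 (.s k160 k80 11 (.s k96 k224 7 (.s k176 k112 7 (.d k144 k192 k128 11 3)))))), (.s k32
  k16 3 (.s k58 k53 2 (.s k186 k250 7 (.s k255 k117 10 (.s k170 k85 14 (.s k101 k239 10 (.d k154
  k138 k207 3 14)))))))] (.c k133 (.q k192 [(.s k16 k32 3 (.s k144 k96 11 (.s k80 k208 7 (.d k240
  k160 k181 11 10)))), (.s k53 k58 2 (.s k181 k240 10 (.s k117 k245 7 (.s k255 k186 10 (.d k127 k112
  k191 2 7))))), (.s k64 k128 7 (.s k58 k53 2 (.s k96 k144 11 (.s k186 k250 7 (.s k112 k80 3 (.d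
  k117 k127 k255 2 10))))))] .n) (.c k181 (.q k90 [(.s k42 k21 6 (.s k58 k53 2 (.s k10 k26 3 (.d
  k250 k186 k170 7 11)))), (.s k58 k53 2 (.s k186 k250 7 (.s k117 k255 10 (.s k112 k127 2 (.s k101
  k79 6 (.s k207 k154 14 (.d k69 k85 k138 3 10))))))), (.s k16 k32 3 (.s k21 k42 6 (.s k31 k26 2 (.s
  k149 k208 10 (.s k85 k213 7 (.s k223 k154 10 (.d k95 k80 k159 2 7)))))))] (.c k58 (.f k16 k32 3
  (.l (.s k21 k42 6 (.s k26 k31 2 (.s k154 k218 7 (.s k85 k223 10 (.s k170 k255 14 (.s k207 k101 14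
  (.d k138 k186 k69 3 10))))))))) (.c k133 (.q k192 [(.s k42 k21 6 (.s k58 k53 2 (.s k10 k26 3 (.d
  k250 k186 k170 7 11)))), (.s k16 k32 3 (.s k128 k64 7 (.s k144 k96 11 (.s k80 k208 7 (.d k160 k176
  k240 3 11)))))] (.c k16 (.l (.s k42 k21 6 (.s k58 k53 2 (.s k250 k186 7 (.d k10 k26 k170 3 11)))))
  (.c k149 (.q k165 [(.s k42 k21 6 (.s k58 k53 2 (.s k10 k26 3 (.d k250 k186 k170 7 11)))), (.s k32
  k16 3 (.s k64 k128 7 (.s k96 k144 11 (.s k160 k224 7 (.d k80 k112 k240 3 11)))))] (.c k16 (.l (.s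
  k42 k21 6 (.s k58 k53 2 (.s k250 k186 7 (.d k10 k26 k170 3 11))))) (.c k170 (.l (.s k16 k32 3 (.s
  k128 k64 7 (.s k144 k96 11 (.s k80 k208 7 (.d k160 k176 k240 3 11)))))) .n))) (.c k165 (.q k149
  [(.s k16 k32 3 (.s k208 k31 10 (.d k144 k80 k96 7 11))), (.s k21 k42 6 (.s k128 k64 7 (.s k85 k213
  7 (.d k170 k191 k255 6 14))))] (.c k47 (.q k224 [(.d k208 k240 k31 3 10), (.s k32 k16 3 (.d k96
  k160 k144 7 11))] .n) (.c k224 (.q k47 [(.s k32 k16 3 (.d k42 k37 k21 2 6)), (.s k21 k42 6 (.s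
  k128 k64 7 (.s k85 k213 7 (.d k170 k191 k255 6 14)))), (.s k16 k32 3 (.s k208 k31 10 (.d k144 k96
  k80 11 7)))] .n) .n))) .n)))) (.c k192 (.q k133 [(.s k42 k21 6 (.s k58 k53 2 (.s k10 k26 3 (.d
  k250 k186 k170 7 11)))), (.s k58 k53 2 (.s k186 k250 7 (.s k117 k255 10 (.s k112 k127 2 (.s k101
  k79 6 (.s k207 k154 14 (.d k69 k85 k138 3 10))))))), (.s k16 k32 3 (.s k21 k42 6 (.s k31 k26 2 (.s
  k149 k208 10 (.s k85 k213 7 (.s k223 k154 10 (.d k95 k80 k159 2 7)))))))] (.c k58 (.f k16 k32 3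
  (.l (.s k21 k42 6 (.s k26 k31 2 (.s k154 k218 7 (.s k85 k223 10 (.s k170 k255 14 (.s k207 k101 14
  (.d k138 k186 k69 3 10))))))))) .n)) .n)))) (.c k192 (.q k133 [(.s k58 k53 2 (.s k186 k250 7 (.s
  k117 k255 10 (.s k240 k181 10 (.d k112 k127 k176 2 7))))), (.s k21 k42 6 (.s k53 k58 2 (.s k5 k37
  3 (.s k197 k69 7 (.s k181 k240 10 (.d k149 k165 k101 3 11)))))), (.s k32 k16 3 (.s k58 k53 2 (.s
  k186 k250 7 (.s k255 k117 10 (.s k170 k85 14 (.s k101 k239 10 (.d k154 k138 k207 3 14)))))))] (.c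
  k53 (.q k170 [(.s k255 k85 14 (.s k117 k186 10 (.d k127 k112 k191 2 7))), (.s k32 k16 3 (.s k42
  k21 6 (.s k37 k47 2 (.s k101 k239 10 (.s k165 k229 7 (.d k181 k149 k240 3 10))))))] .n) (.c k58
  (.q k154 [(.s k16 k32 3 (.s k85 k223 10 (.s k101 k207 14 (.s k117 k69 3 (.d k255 k186 k170 10
  14))))), (.s k207 k101 14 (.s k181 k240 10 (.s k165 k149 3 (.s k143 k176 6 (.d k138 k128 k69 2
  10))))), (.s k16 k32 3 (.s k21 k42 6 (.s k85 k223 10 (.s k149 k213 7 (.d k181 k165 k240 3 10)))))]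
  .n) (.c k181 (.q k154 [(.s k58 k53 2 (.s k186 k250 7 (.s k170 k138 3 (.d k255 k117 k85 10 14)))),
  (.s k53 k58 2 (.s k101 k207 14 (.s k197 k149 11 (.s k5 k69 7 (.d k21 k37 k42 3 6))))), (.s k16 k32
  3 (.s k85 k223 10 (.s k170 k255 14 (.s k207 k101 14 (.d k138 k186 k69 3 10)))))] .n) .n)))) .n))))
  (.c k16 (.q k51 [(.s k17 k34 4 (.s k21 k42 6 (.s k25 k29 1 (.s k38 k12 6 (.d k55 k59 k4 1 4))))),
  (.s k49 k50 0 (.s k53 k58 2 (.s k57 k61 1 (.s k54 k60 2 (.d k55 k52 k59 0 1))))), (.s k17 k34 4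
  (.s k21 k42 6 (.s k25 k29 1 (.s k49 k50 0 (.s k37 k13 5 (.d k53 k58 k5 2 3))))))] (.c k90 (.q k122
  [(.s k17 k34 4 (.s k21 k42 6 (.s k25 k29 1 (.s k38 k12 6 (.d k55 k59 k4 1 4))))), (.s k53 k58 2
  (.s k181 k240 10 (.s k117 k245 7 (.s k255 k186 10 (.d k127 k112 k191 2 7)))))] .n) (.c k122 (.q
  k90 [(.s k17 k34 4 (.s k21 k42 6 (.s k25 k29 1 (.s k38 k12 6 (.d k55 k59 k4 1 4))))), (.s k49 k50
  0 (.s k53 k58 2 (.s k57 k61 1 (.s k54 k60 2 (.d k55 k52 k59 0 1))))), (.s k17 k34 4 (.s k21 k42 6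
  (.s k25 k29 1 (.s k49 k50 0 (.s k37 k13 5 (.d k53 k58 k5 2 3))))))] .n) .n))) (.c k21 (.q k122
  [(.s k53 k58 2 (.s k181 k240 10 (.s k117 k245 7 (.s k255 k186 10 (.d k127 k112 k191 2 7))))), (.s
  k16 k32 3 (.s k240 k181 10 (.s k80 k160 11 (.s k144 k208 7 (.s k96 k192 11 (.d k112 k64 k176 3
  7)))))), (.s k32 k16 3 (.s k58 k53 2 (.s k186 k250 7 (.s k255 k117 10 (.s k170 k85 14 (.s k101
  k239 10 (.d k154 k138 k207 3 14)))))))] (.c k181 (.q k51 [(.s k16 k32 3 (.s k17 k34 4 (.s k18 k19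
  0 (.s k33 k3 4 (.d k49 k50 k1 0 3))))), (.s k58 k53 2 (.s k59 k55 1 (.s k186 k250 7 (.s k185 k248
  8 (.s k184 k187 0 (.d k252 k118 k116 10 9))))))] .n) .n)) (.c k26 (.q k122 [(.s k58 k53 2 (.s k186
  k250 7 (.s k117 k255 10 (.s k240 k181 10 (.d k112 k127 k176 2 7))))), (.s k16 k32 3 (.s k240 k181
  10 (.s k80 k160 11 (.s k144 k208 7 (.s k96 k192 11 (.d k112 k64 k176 3 7)))))), (.s k32 k16 3 (.s
  k58 k53 2 (.s k186 k250 7 (.s k255 k117 10 (.s k170 k85 14 (.s k101 k239 10 (.d k154 k138 k207 3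
  14)))))))] (.c k181 (.q k51 [(.s k16 k32 3 (.s k17 k34 4 (.s k18 k19 0 (.s k33 k3 4 (.d k49 k50 k1
  0 3))))), (.s k17 k34 4 (.s k21 k42 6 (.s k25 k29 1 (.s k38 k12 6 (.d k55 k59 k4 1 4))))), (.s k49
  k50 0 (.s k53 k58 2 (.s k57 k61 1 (.s k54 k60 2 (.d k55 k52 k59 0 1)))))] .n) .n)) (.c k31 (.l (.s
  k32 k16 3 (.s k58 k53 2 (.s k42 k21 6 (.s k26 k10 3 (.d k37 k47 k15 2 6)))))) (.c k32 (.q k51 [(.s
  k34 k17 4 (.s k59 k55 1 (.s k42 k21 6 (.s k25 k8 4 (.d k38 k46 k12 1 6))))), (.s k49 k50 0 (.s k53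
  k58 2 (.s k57 k61 1 (.s k54 k60 2 (.d k55 k52 k59 0 1))))), (.s k17 k34 4 (.s k21 k42 6 (.s k25
  k29 1 (.s k49 k50 0 (.s k37 k13 5 (.d k53 k58 k5 2 3))))))] (.c k90 (.q k122 [(.s k34 k17 4 (.s
  k59 k55 1 (.s k42 k21 6 (.s k25 k8 4 (.d k38 k46 k12 1 6))))), (.s k53 k58 2 (.s k181 k240 10 (.s
  k117 k245 7 (.s k255 k186 10 (.d k127 k112 k191 2 7)))))] .n) (.c k122 (.q k90 [(.s k34 k17 4 (.s
  k59 k55 1 (.s k42 k21 6 (.s k25 k8 4 (.d k38 k46 k12 1 6))))), (.s k49 k50 0 (.s k53 k58 2 (.s k57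
  k61 1 (.s k54 k60 2 (.d k55 k52 k59 0 1))))), (.s k17 k34 4 (.s k21 k42 6 (.s k25 k29 1 (.s k49
  k50 0 (.s k37 k13 5 (.d k53 k58 k5 2 3))))))] .n) .n))) (.c k37 (.q k122 [(.s k53 k58 2 (.s k181
  k240 10 (.s k117 k245 7 (.s k255 k186 10 (.d k127 k112 k191 2 7))))), (.s k16 k32 3 (.s k240 k181
  10 (.s k80 k160 11 (.s k144 k208 7 (.s k96 k192 11 (.d k112 k64 k176 3 7)))))), (.s k32 k16 3 (.s
  k58 k53 2 (.s k186 k250 7 (.s k255 k117 10 (.s k170 k85 14 (.s k101 k239 10 (.d k154 k138 k207 3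
  14)))))))] (.c k181 (.q k51 [(.s k32 k16 3 (.s k34 k17 4 (.s k33 k35 0 (.s k18 k3 4 (.d k50 k49 k2
  0 3))))), (.s k49 k50 0 (.s k53 k58 2 (.s k57 k61 1 (.s k54 k60 2 (.d k55 k52 k59 0 1))))), (.s
  k17 k34 4 (.s k21 k42 6 (.s k25 k29 1 (.s k38 k12 6 (.d k55 k59 k4 1 4)))))] .n) .n)) (.c k42 (.q
  k122 [(.s k58 k53 2 (.s k186 k250 7 (.s k117 k255 10 (.s k240 k181 10 (.d k112 k127 k176 2 7))))),
  (.s k16 k32 3 (.s k240 k181 10 (.s k80 k160 11 (.s k144 k208 7 (.s k96 k192 11 (.d k112 k64 k176 3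
  7)))))), (.s k32 k16 3 (.s k58 k53 2 (.s k186 k250 7 (.s k255 k117 10 (.s k170 k85 14 (.s k101
  k239 10 (.d k154 k138 k207 3 14)))))))] (.c k170 (.q k234 [(.s k58 k53 2 (.s k186 k250 7 (.s k117
  k255 10 (.s k240 k181 10 (.d k112 k127 k176 2 7))))), (.s k16 k32 3 (.s k240 k181 10 (.s k80 k160
  11 (.s k144 k208 7 (.s k96 k192 11 (.d k112 k64 k176 3 7))))))] (.c k112 (.l (.s k58 k53 2 (.s
  k186 k250 7 (.s k255 k117 10 (.s k181 k240 10 (.d k191 k176 k127 2 7)))))) (.c k176 (.l (.s k53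
  k58 2 (.s k181 k240 10 (.s k117 k245 7 (.s k255 k186 10 (.d k127 k112 k191 2 7)))))) (.c k181 (.q
  k51 [(.s k32 k16 3 (.s k34 k17 4 (.s k33 k35 0 (.s k18 k3 4 (.d k50 k49 k2 0 3))))), (.s k58 k53 2
  (.s k59 k55 1 (.s k186 k250 7 (.s k185 k248 8 (.s k184 k187 0 (.d k252 k118 k116 10 9))))))] .n)
  (.c k240 (.q k51 [(.s k32 k16 3 (.s k34 k17 4 (.s k33 k35 0 (.s k18 k3 4 (.d k50 k49 k2 0 3))))),
  (.s k58 k53 2 (.s k59 k55 1 (.s k186 k250 7 (.s k255 k117 10 (.s k187 k119 9 (.d k185 k184 k248 0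
  8))))))] .n) .n))))) (.c k181 (.q k170 [(.s k58 k53 2 (.s k186 k250 7 (.d k255 k117 k85 10 14))),
  (.s k16 k32 3 (.s k85 k255 14 (.s k154 k223 10 (.s k207 k101 14 (.d k138 k186 k69 3 10))))), (.s
  k32 k16 3 (.s k101 k239 10 (.s k58 k53 2 (.s k186 k250 7 (.d k154 k138 k207 3 14)))))] (.c k186
  (.l (.s k32 k16 3 (.s k85 k255 14 (.s k101 k239 10 (.s k207 k154 14 (.d k69 k117 k138 3 10))))))
  .n)) (.c k234 (.q k170 [(.s k255 k85 14 (.s k117 k186 10 (.d k127 k112 k191 2 7))), (.s k32 k16 3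
  (.s k101 k239 10 (.s k58 k53 2 (.s k186 k250 7 (.d k154 k138 k207 3 14)))))] (.c k186 (.l (.s k255
  k85 14 (.s k127 k191 7 (.s k112 k117 2 (.d k240 k176 k181 7 10))))) .n)) .n)))) (.c k47 (.l (.s
  k16 k32 3 (.s k53 k58 2 (.s k21 k42 6 (.s k37 k5 3 (.d k26 k31 k15 2 6)))))) (.c k53 (.f k16 k32 3
  (.q k51 [(.s k17 k34 4 (.s k18 k19 0 (.s k33 k3 4 (.d k49 k50 k1 0 3)))), (.s k21 k42 6 (.s k26
  k31 2 (.s k50 k49 0 (.s k38 k14 5 (.d k55 k59 k4 1 4))))), (.s k17 k34 4 (.s k21 k42 6 (.s k25 k29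
  1 (.s k38 k12 6 (.d k55 k59 k4 1 4)))))] (.c k90 (.q k122 [(.s k17 k34 4 (.s k18 k19 0 (.s k33 k3
  4 (.d k49 k50 k1 0 3)))), (.s k21 k42 6 (.s k26 k31 2 (.s k50 k49 0 (.s k38 k14 5 (.d k55 k59 k4 1
  4))))), (.s k17 k34 4 (.s k21 k42 6 (.s k25 k29 1 (.s k38 k12 6 (.d k55 k59 k4 1 4)))))] .n) (.c
  k122 (.q k90 [(.s k17 k34 4 (.s k18 k19 0 (.s k33 k3 4 (.d k49 k50 k1 0 3)))), (.s k21 k42 6 (.s
  k26 k31 2 (.s k50 k49 0 (.s k38 k14 5 (.d k55 k59 k4 1 4))))), (.s k17 k34 4 (.s k21 k42 6 (.s k25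
  k29 1 (.s k38 k12 6 (.d k55 k59 k4 1 4)))))] .n) .n)))) (.c k58 (.q k154 [(.s k16 k32 3 (.s k85
  k223 10 (.s k170 k255 14 (.s k138 k186 3 (.d k207 k69 k101 10 14))))), (.s k16 k32 3 (.s k21 k42 6
  (.s k85 k223 10 (.s k149 k213 7 (.s k144 k159 2 (.s k208 k80 7 (.d k31 k26 k90 2 10))))))), (.s
  k21 k42 6 (.s k207 k101 14 (.s k138 k69 10 (.s k170 k186 3 (.s k85 k255 14 (.s k149 k213 7 (.d
  k159 k111 k144 11 2)))))))] (.c k85 (.f k16 k32 3 (.l (.s k21 k42 6 (.s k26 k31 2 (.s k90 k218 7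
  (.s k101 k207 14 (.s k112 k79 6 (.s k240 k176 7 (.d k15 k37 k165 6 14))))))))) (.c k90 (.q k122
  [(.s k16 k32 3 (.s k85 k223 10 (.s k170 k255 14 (.s k138 k186 3 (.d k207 k69 k101 10 14))))), (.s
  k16 k32 3 (.s k207 k101 14 (.s k240 k181 10 (.s k80 k160 11 (.s k144 k208 7 (.d k159 k149 k111 2
  11)))))), (.s k101 k207 14 (.s k240 k181 10 (.s k112 k176 7 (.s k117 k127 2 (.s k85 k69 3 (.d k255
  k186 k170 10 14)))))), (.s k16 k32 3 (.s k85 k223 10 (.s k240 k181 10 (.s k112 k176 7 (.s k117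
  k127 2 (.d k255 k186 k170 10 14))))))] (.c k170 (.l (.s k16 k32 3 (.s k85 k223 10 (.s k101 k207 14
  (.s k240 k181 10 (.s k112 k176 7 (.d k117 k127 k69 2 3))))))) .n)) (.c k122 (.q k90 [(.s k16 k32 3
  (.s k26 k218 7 (.d k21 k31 k42 2 6))), (.s k26 k218 7 (.s k15 k37 6 (.s k165 k240 14 (.s k207 k101
  14 (.d k143 k176 k79 6 7))))), (.s k16 k32 3 (.s k85 k223 10 (.s k170 k255 14 (.s k207 k101 14 (.d
  k138 k186 k69 3 10)))))] (.c k186 (.q k250 [(.s k16 k32 3 (.s k85 k223 10 (.d k170 k10 k255 11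
  14))), (.s k10 k170 11 (.s k15 k5 2 (.d k26 k37 k218 6 7))), (.s k16 k32 3 (.s k26 k218 7 (.d k21
  k31 k42 2 6)))] .n) (.c k250 (.q k186 [(.s k207 k101 14 (.d k138 k170 k69 3 10)), (.s k16 k32 3
  (.s k26 k218 7 (.d k21 k31 k42 2 6)))] .n) .n))) (.c k170 (.q k90 [(.s k16 k32 3 (.s k26 k218 7
  (.d k21 k42 k31 6 2))), (.s k26 k218 7 (.s k15 k37 6 (.s k165 k240 14 (.s k143 k176 6 (.d k207 k79
  k101 7 14))))), (.s k16 k32 3 (.s k85 k223 10 (.s k101 k207 14 (.s k112 k79 6 (.s k240 k176 7 (.d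
  k80 k95 k160 2 11))))))] (.c k42 (.q k234 [(.s k16 k32 3 (.s k26 k218 7 (.s k31 k21 2 (.d k15 k47
  k37 3 6)))), (.s k26 k218 7 (.s k101 k207 14 (.s k112 k79 6 (.s k240 k176 7 (.d k15 k37 k165 6
  14))))), (.s k101 k207 14 (.s k112 k79 6 (.s k240 k176 7 (.s k80 k160 11 (.s k85 k95 2 (.d k16 k32
  k223 3 10))))))] (.c k10 (.l (.s k26 k218 7 (.s k16 k32 3 (.s k31 k21 2 (.d k15 k47 k37 3 6)))))
  (.c k15 (.l (.s k16 k32 3 (.s k85 k223 10 (.s k26 k218 7 (.s k31 k21 2 (.s k208 k149 10 (.d k80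
  k95 k144 2 7))))))) (.c k26 (.q k10 [(.s k15 k5 2 (.s k165 k240 14 (.s k143 k176 6 (.d k207 k79
  k101 7 14)))), (.s k15 k5 2 (.s k31 k47 3 (.s k149 k208 10 (.s k159 k144 2 (.s k223 k95 7 (.d k16
  k32 k85 3 10)))))), (.s k16 k32 3 (.s k85 k223 10 (.s k101 k207 14 (.s k112 k79 6 (.s k240 k176 7
  (.d k80 k95 k160 2 11))))))] (.c k15 (.l (.s k16 k32 3 (.s k85 k223 10 (.s k101 k207 14 (.s k80
  k95 2 (.s k240 k160 11 (.d k112 k79 k176 6 7))))))) .n)) (.c k101 (.l (.s k26 k218 7 (.s k15 k37 6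
  (.s k5 k10 2 (.s k165 k240 14 (.s k85 k245 11 (.d k16 k32 k223 3 10))))))) .n))))) (.c k101 (.l
  (.s k32 k16 3 (.s k42 k21 6 (.s k26 k218 7 (.d k37 k47 k15 2 6))))) (.c k234 (.l (.s k42 k21 6 (.s
  k32 k16 3 (.s k26 k218 7 (.d k37 k47 k15 2 6))))) .n)))) .n))))) (.c k90 (.q k122 [(.s k58 k53 2
  (.s k186 k250 7 (.s k117 k255 10 (.s k240 k181 10 (.d k112 k127 k176 2 7))))), (.s k16 k32 3 (.s
  k21 k42 6 (.s k26 k31 2 (.s k53 k58 2 (.d k37 k5 k15 3 6))))), (.s k16 k32 3 (.s k240 k181 10 (.s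
  k80 k160 11 (.s k144 k208 7 (.s k96 k192 11 (.d k112 k64 k176 3 7))))))] .n) (.c k122 (.q k90 [(.s
  k32 k16 3 (.s k58 k53 2 (.s k42 k21 6 (.s k26 k10 3 (.d k37 k47 k15 2 6))))), (.s k16 k32 3 (.s
  k21 k42 6 (.s k31 k26 2 (.s k149 k208 10 (.s k85 k213 7 (.s k223 k154 10 (.d k95 k80 k159 2
  7))))))), (.s k16 k32 3 (.s k21 k42 6 (.s k26 k31 2 (.s k37 k15 6 (.d k53 k58 k5 2 3)))))] (.c k16
  (.q k149 [(.s k42 k21 6 (.s k31 k208 10 (.s k15 k47 3 (.s k10 k5 2 (.d k26 k37 k58 6 3))))), (.s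
  k21 k42 6 (.s k85 k213 7 (.s k53 k58 2 (.s k101 k197 11 (.s k69 k117 3 (.d k207 k154 k138 14
  10)))))), (.s k21 k42 6 (.s k85 k213 7 (.s k31 k208 10 (.s k15 k47 3 (.s k80 k95 2 (.d k240 k165
  k160 14 11)))))), (.s k31 k208 10 (.s k15 k47 3 (.s k10 k5 2 (.s k170 k250 11 (.s k255 k85 14 (.d
  k191 k127 k128 7 6))))))] .n) (.c k21 (.q k149 [(.s k16 k32 3 (.s k208 k31 10 (.s k144 k80 7 (.s
  k53 k58 2 (.s k101 k197 11 (.d k154 k159 k207 2 14)))))), (.s k31 k208 10 (.s k15 k47 3 (.s k10 k5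
  2 (.s k170 k250 11 (.s k255 k85 14 (.d k191 k127 k128 7 6)))))), (.s k16 k32 3 (.s k208 k31 10 (.s
  k144 k80 7 (.s k154 k159 2 (.s k223 k85 10 (.d k218 k213 k26 2 7)))))), (.s k16 k32 3 (.s k53 k58
  2 (.s k101 k197 11 (.s k154 k207 14 (.s k85 k223 10 (.s k255 k170 14 (.d k117 k186 k69 10
  3)))))))] .n) (.c k26 (.q k149 [(.s k32 k16 3 (.s k42 k21 6 (.s k31 k208 10 (.d k47 k37 k15 2
  3)))), (.s k21 k42 6 (.s k85 k213 7 (.s k170 k255 14 (.s k10 k250 11 (.s k5 k15 2 (.d k53 k58 k37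
  2 3)))))), (.s k16 k32 3 (.s k208 k31 10 (.s k144 k80 7 (.s k53 k58 2 (.s k101 k197 11 (.d k154
  k159 k207 2 14))))))] (.c k42 (.l (.s k16 k32 3 (.s k208 k31 10 (.s k80 k144 7 (.s k85 k95 2 (.s
  k223 k154 10 (.d k213 k218 k21 2 7))))))) .n)) (.c k31 (.l (.s k32 k16 3 (.s k58 k53 2 (.s k42 k21
  6 (.s k26 k10 3 (.d k37 k47 k15 2 6)))))) (.c k32 (.q k149 [(.s k21 k42 6 (.s k31 k208 10 (.s k26
  k16 2 (.d k15 k47 k37 3 6)))), (.s k31 k208 10 (.s k53 k58 2 (.s k101 k197 11 (.s k154 k207 14 (.s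
  k26 k218 7 (.d k21 k16 k42 2 6)))))), (.s k21 k42 6 (.s k85 k213 7 (.s k170 k255 14 (.s k10 k250
  11 (.s k5 k15 2 (.d k53 k58 k37 2 3))))))] (.c k21 (.l (.s k31 k208 10 (.s k15 k47 3 (.s k10 k5 2
  (.s k170 k250 11 (.s k255 k85 14 (.d k191 k127 k128 7 6))))))) (.c k42 (.l (.s k31 k208 10 (.s k15
  k47 3 (.s k37 k26 6 (.s k165 k240 14 (.s k101 k229 7 (.d k53 k58 k197 2 11))))))) .n))) (.c k37
  (.q k149 [(.s k16 k32 3 (.s k31 k208 10 (.d k21 k42 k26 6 2))), (.s k32 k16 3 (.s k53 k58 2 (.s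
  k101 k197 11 (.s k170 k239 10 (.s k255 k85 14 (.d k191 k127 k128 7 6))))))] (.c k16 (.l (.s k21
  k42 6 (.s k85 k213 7 (.s k170 k255 14 (.s k10 k250 11 (.s k15 k5 2 (.d k31 k47 k208 3 10)))))))
  (.c k32 (.l (.s k31 k208 10 (.s k53 k58 2 (.s k101 k197 11 (.s k154 k207 14 (.s k26 k218 7 (.d k21
  k16 k42 2 6))))))) .n))) (.c k42 (.q k85 [(.s k32 k16 3 (.s k170 k255 14 (.s k101 k239 10 (.s k207
  k154 14 (.d k69 k117 k138 3 10))))), (.s k170 k255 14 (.s k10 k250 11 (.s k15 k5 2 (.s k240 k165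
  14 (.d k80 k95 k160 2 11))))), (.s k16 k32 3 (.s k154 k223 10 (.s k26 k218 7 (.s k31 k21 2 (.d k15
  k47 k37 3 6)))))] (.c k170 (.q k234 [(.s k16 k32 3 (.s k154 k223 10 (.s k26 k218 7 (.s k31 k21 2
  (.d k15 k47 k37 3 6))))), (.s k80 k95 2 (.s k240 k160 11 (.s k112 k176 7 (.s k101 k79 6 (.s k207
  k154 14 (.d k69 k138 k117 10 3)))))), (.s k32 k16 3 (.s k80 k95 2 (.s k160 k240 11 (.s k96 k224 7
  (.s k192 k144 11 (.d k64 k112 k128 3 7))))))] .n) (.c k234 (.l (.s k170 k255 14 (.s k16 k32 3 (.s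
  k154 k223 10 (.s k207 k101 14 (.d k138 k186 k69 3 10)))))) .n))) (.c k47 (.l (.s k16 k32 3 (.s k53
  k58 2 (.s k21 k42 6 (.s k37 k5 3 (.d k26 k31 k15 2 6)))))) (.c k58 (.f k16 k32 3 (.l (.s k21 k42 6
  (.s k26 k31 2 (.s k154 k218 7 (.s k85 k223 10 (.s k170 k255 14 (.s k207 k101 14 (.d k138 k186 k69
  3 10))))))))) .n)))))))))) .n)))))))))))))))

def t75 : T TT 256 :=
  (.q k12 [(.s k8 k4 1 (.s k46 k29 4 (.s k42 k21 6 (.s k38 k34 1 (.d k25 k59 k51 4 6)))))] (.c k4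
  (.q k15 [(.s k5 k10 2 (.s k21 k42 6 (.s k37 k53 3 (.s k26 k48 6 (.d k31 k16 k47 2 3))))), (.s k13
  k14 0 (.s k29 k46 4 (.s k45 k61 3 (.s k30 k60 4 (.d k31 k28 k47 0 3))))), (.s k5 k10 2 (.s k21 k42
  6 (.s k37 k53 3 (.s k13 k14 0 (.s k29 k46 4 (.d k25 k17 k49 1 5))))))] .n) (.c k8 (.q k15 [(.s k10
  k5 2 (.s k47 k31 3 (.s k42 k21 6 (.s k37 k32 2 (.d k26 k58 k48 3 6))))), (.s k13 k14 0 (.s k29 k46
  4 (.s k45 k61 3 (.s k30 k60 4 (.d k31 k28 k47 0 3))))), (.s k5 k10 2 (.s k21 k42 6 (.s k37 k53 3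
  (.s k13 k14 0 (.s k29 k46 4 (.d k25 k17 k49 1 5))))))] .n) (.c k17 (.l (.s k8 k4 1 (.s k42 k21 6
  (.s k25 k59 4 (.s k38 k51 6 (.d k46 k29 k34 4 1)))))) (.c k21 (.q k15 [(.s k4 k8 1 (.s k5 k10 2
  (.s k6 k7 0 (.s k9 k3 2 (.d k13 k14 k1 0 1))))), (.s k13 k14 0 (.s k29 k46 4 (.s k45 k61 3 (.s k30
  k60 4 (.d k31 k28 k47 0 3)))))] (.c k1 (.l (.s k8 k4 1 (.s k10 k5 2 (.s k9 k11 0 (.s k6 k3 2 (.d
  k14 k13 k2 0 1)))))) (.c k13 (.q k42 [(.s k8 k4 1 (.s k25 k59 4 (.s k38 k51 6 (.d k46 k34 k29 1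
  4)))), (.s k10 k5 2 (.s k26 k58 3 (.s k37 k48 6 (.d k47 k32 k31 2 3))))] .n) (.c k14 (.q k42 [(.s
  k8 k4 1 (.s k46 k29 4 (.s k38 k34 1 (.d k25 k59 k51 4 6)))), (.s k10 k5 2 (.s k26 k58 3 (.s k37
  k48 6 (.d k47 k32 k31 2 3))))] .n) .n)))) (.c k25 (.q k15 [(.s k4 k8 1 (.s k5 k10 2 (.s k6 k7 0
  (.s k9 k3 2 (.d k13 k14 k1 0 1))))), (.s k13 k14 0 (.s k29 k46 4 (.s k45 k61 3 (.s k30 k60 4 (.d
  k31 k28 k47 0 3))))), (.s k5 k10 2 (.s k21 k42 6 (.s k37 k53 3 (.s k26 k48 6 (.d k31 k16 k47 2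
  3)))))] .n) (.c k29 (.q k15 [(.s k4 k8 1 (.s k5 k10 2 (.s k6 k7 0 (.s k9 k3 2 (.d k13 k14 k1 0
  1))))), (.s k5 k10 2 (.s k21 k42 6 (.s k37 k53 3 (.s k26 k48 6 (.d k31 k16 k47 2 3))))), (.s k4 k8
  1 (.s k21 k42 6 (.s k38 k55 4 (.s k14 k13 0 (.s k26 k50 5 (.d k31 k16 k47 2 3))))))] .n) (.c k34
  (.l (.s k4 k8 1 (.s k21 k42 6 (.s k38 k55 4 (.s k25 k51 6 (.d k29 k46 k17 4 1)))))) (.c k38 (.q
  k15 [(.s k4 k8 1 (.s k5 k10 2 (.s k6 k7 0 (.s k9 k3 2 (.d k13 k14 k1 0 1))))), (.s k5 k10 2 (.s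
  k21 k42 6 (.s k37 k53 3 (.s k26 k48 6 (.d k31 k16 k47 2 3))))), (.s k13 k14 0 (.s k29 k46 4 (.s
  k45 k61 3 (.s k30 k60 4 (.d k31 k28 k47 0 3)))))] .n) (.c k42 (.f k8 k4 1 (.f k46 k29 4 (.q k15
  [(.s k14 k13 0 (.s k47 k31 3 (.s k45 k44 0 (.d k30 k62 k60 3 4)))), (.s k10 k5 2 (.s k9 k11 0 (.s
  k6 k3 2 (.d k14 k13 k2 0 1))))] (.c k13 (.l (.s k10 k5 2 (.s k9 k11 0 (.s k6 k3 2 (.s k14 k2 1 (.s
  k47 k31 3 (.s k45 k44 0 (.d k30 k62 k60 3 4)))))))) (.c k14 (.q k170 [(.s k85 k255 14 (.s k89 k251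
  12 (.s k243 k166 14 (.d k81 k93 k162 1 12)))), (.s k10 k5 2 (.s k89 k251 12 (.s k90 k250 11 (.s
  k88 k91 0 (.d k240 k164 k165 13 14))))), (.s k5 k10 2 (.s k85 k255 14 (.s k165 k245 11 (.s k240
  k90 14 (.d k160 k175 k80 2 11)))))] (.c k90 (.l (.s k85 k255 14 (.s k89 k251 12 (.s k81 k93 1 (.d
  k243 k162 k166 12 14))))) .n)) (.c k170 (.q k234 [(.s k14 k13 0 (.s k47 k31 3 (.s k45 k44 0 (.d
  k30 k62 k60 3 4)))), (.s k10 k5 2 (.s k9 k11 0 (.s k6 k3 2 (.d k14 k13 k2 0 1))))] (.c k13 (.l (.s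
  k10 k5 2 (.s k9 k11 0 (.s k6 k3 2 (.s k14 k2 1 (.s k47 k31 3 (.s k45 k44 0 (.d k30 k62 k60 3
  4)))))))) (.c k14 (.q k40 [(.s k60 k20 5 (.s k45 k30 4 (.d k44 k28 k47 3 0))), (.s k20 k60 5 (.s
  k24 k56 3 (.s k48 k36 5 (.d k16 k28 k32 1 3)))), (.s k24 k56 3 (.s k47 k31 3 (.s k44 k45 0 (.d k36
  k32 k48 1 5))))] (.c k28 (.l (.s k24 k56 3 (.s k36 k48 5 (.s k44 k32 1 (.d k47 k45 k31 0 3)))))
  (.c k36 (.l (.s k47 k31 3 (.s k44 k45 0 (.d k60 k28 k20 3 5)))) .n))) .n))) (.c k234 (.q k170 [(.s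
  k10 k5 2 (.s k9 k11 0 (.s k6 k3 2 (.d k14 k13 k2 0 1)))), (.s k85 k255 14 (.s k89 k251 12 (.s k243
  k166 14 (.d k81 k93 k162 1 12))))] .n) .n))))))) (.c k46 (.f k42 k21 6 (.q k15 [(.s k47 k31 3 (.s
  k10 k5 2 (.s k37 k32 2 (.d k26 k58 k48 3 6)))), (.s k4 k8 1 (.s k5 k10 2 (.s k6 k7 0 (.s k9 k3 2
  (.d k13 k14 k1 0 1))))), (.s k8 k4 1 (.s k25 k59 4 (.s k13 k14 0 (.s k37 k49 5 (.d k47 k32 k31 2
  3)))))] (.c k166 (.q k226 [(.s k47 k31 3 (.s k10 k5 2 (.s k37 k32 2 (.d k26 k58 k48 3 6)))), (.s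
  k4 k8 1 (.s k5 k10 2 (.s k6 k7 0 (.s k9 k3 2 (.d k13 k14 k1 0 1))))), (.s k8 k4 1 (.s k25 k59 4
  (.s k13 k14 0 (.s k37 k49 5 (.d k47 k32 k31 2 3)))))] .n) (.c k226 (.q k166 [(.s k47 k31 3 (.s k10
  k5 2 (.s k37 k32 2 (.d k26 k58 k48 3 6)))), (.s k4 k8 1 (.s k85 k247 12 (.s k170 k255 14 (.s k243
  k89 14 (.d k162 k174 k81 1 12)))))] .n) .n)))) (.c k51 (.q k15 [(.s k4 k8 1 (.s k5 k10 2 (.s k6 k7
  0 (.s k13 k14 0 (.d k9 k1 k3 1 2))))), (.s k5 k10 2 (.s k21 k42 6 (.s k37 k53 3 (.s k26 k48 6 (.d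
  k31 k16 k47 2 3))))), (.s k13 k14 0 (.s k29 k46 4 (.s k45 k61 3 (.s k30 k60 4 (.d k31 k28 k47 0
  3)))))] .n) (.c k55 (.l (.s k8 k4 1 (.s k46 k29 4 (.s k42 k21 6 (.s k38 k34 1 (.d k25 k59 k51 4
  6)))))) (.c k59 (.l (.s k4 k8 1 (.s k29 k46 4 (.s k21 k42 6 (.s k25 k17 1 (.d k38 k55 k51 4
  6)))))) .n))))))))))))))

def t79 : T TT 256 :=
  (.q k3 [(.s k2 k1 0 (.s k43 k23 5 (.s k42 k21 6 (.s k41 k40 0 (.d k22 k62 k60 5 6)))))] (.c k1 (.q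
  k15 [(.s k5 k10 2 (.s k21 k42 6 (.s k37 k53 3 (.s k26 k48 6 (.d k31 k16 k47 2 3))))), (.s k7 k11 1
  (.s k23 k43 5 (.s k39 k55 3 (.s k27 k51 5 (.d k31 k19 k47 1 3))))), (.s k5 k10 2 (.s k21 k42 6 (.s
  k7 k11 1 (.s k23 k43 5 (.s k4 k6 0 (.d k55 k39 k38 3 4))))))] .n) (.c k2 (.q k15 [(.s k10 k5 2 (.s
  k47 k31 3 (.s k42 k21 6 (.s k37 k32 2 (.d k26 k58 k48 3 6))))), (.s k7 k11 1 (.s k23 k43 5 (.s k39
  k55 3 (.s k27 k51 5 (.d k31 k19 k47 1 3))))), (.s k5 k10 2 (.s k21 k42 6 (.s k7 k11 1 (.s k23 k43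
  5 (.s k37 k53 3 (.d k22 k20 k52 0 4))))))] .n) (.c k20 (.l (.s k2 k1 0 (.s k42 k21 6 (.s k22 k62 5
  (.s k41 k60 6 (.d k43 k23 k40 5 0)))))) (.c k21 (.q k15 [(.s k1 k2 0 (.s k5 k10 2 (.s k9 k13 1 (.s
  k6 k12 2 (.d k7 k4 k11 0 1))))), (.s k7 k11 1 (.s k23 k43 5 (.s k39 k55 3 (.s k27 k51 5 (.d k31
  k19 k47 1 3)))))] (.c k4 (.l (.s k2 k1 0 (.s k10 k5 2 (.s k6 k14 1 (.s k9 k12 2 (.d k11 k7 k8 1
  0)))))) (.c k7 (.q k42 [(.s k2 k1 0 (.s k22 k62 5 (.s k41 k60 6 (.d k43 k40 k23 0 5)))), (.s k10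
  k5 2 (.s k26 k58 3 (.s k37 k48 6 (.d k47 k32 k31 2 3))))] .n) (.c k11 (.q k42 [(.s k2 k1 0 (.s k43
  k23 5 (.s k41 k40 0 (.d k22 k62 k60 5 6)))), (.s k10 k5 2 (.s k26 k58 3 (.s k37 k48 6 (.d k47 k32
  k31 2 3))))] .n) .n)))) (.c k22 (.q k15 [(.s k2 k1 0 (.s k10 k5 2 (.s k6 k14 1 (.s k9 k12 2 (.d
  k11 k8 k7 0 1))))), (.s k10 k5 2 (.s k42 k21 6 (.s k26 k58 3 (.s k37 k48 6 (.d k47 k32 k31 2
  3))))), (.s k7 k11 1 (.s k23 k43 5 (.s k39 k55 3 (.s k27 k51 5 (.d k31 k19 k47 1 3)))))] .n) (.c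
  k23 (.q k15 [(.s k1 k2 0 (.s k5 k10 2 (.s k9 k13 1 (.s k6 k12 2 (.d k7 k4 k11 0 1))))), (.s k5 k10
  2 (.s k21 k42 6 (.s k37 k53 3 (.s k26 k48 6 (.d k31 k16 k47 2 3))))), (.s k1 k2 0 (.s k21 k42 6
  (.s k41 k61 5 (.s k11 k7 1 (.s k26 k56 4 (.d k31 k16 k47 2 3))))))] .n) (.c k40 (.l (.s k1 k2 0
  (.s k21 k42 6 (.s k41 k61 5 (.s k22 k60 6 (.d k23 k43 k20 5 0)))))) (.c k41 (.q k15 [(.s k1 k2 0
  (.s k5 k10 2 (.s k9 k13 1 (.s k6 k12 2 (.d k7 k4 k11 0 1))))), (.s k5 k10 2 (.s k21 k42 6 (.s k37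
  k53 3 (.s k26 k48 6 (.d k31 k16 k47 2 3))))), (.s k7 k11 1 (.s k23 k43 5 (.s k39 k55 3 (.s k27 k51
  5 (.d k31 k19 k47 1 3)))))] .n) (.c k42 (.q k15 [(.s k2 k1 0 (.s k10 k5 2 (.s k6 k14 1 (.s k9 k12
  2 (.d k11 k8 k7 0 1))))), (.s k7 k11 1 (.s k23 k43 5 (.s k39 k55 3 (.s k27 k51 5 (.d k31 k19 k47 1
  3)))))] (.c k7 (.q k170 [(.s k2 k1 0 (.s k85 k255 14 (.s k86 k254 13 (.s k252 k169 14 (.d k84 k87
  k168 0 13))))), (.s k5 k10 2 (.s k85 k255 14 (.s k165 k245 11 (.s k240 k90 14 (.d k160 k175 k80 2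
  11))))), (.s k2 k1 0 (.s k10 k5 2 (.s k86 k254 13 (.s k90 k250 11 (.s k82 k94 1 (.d k240 k161 k165
  12 14))))))] .n) (.c k11 (.q k170 [(.s k2 k1 0 (.s k255 k85 14 (.s k86 k254 13 (.s k169 k252 14
  (.d k171 k168 k87 0 13))))), (.s k5 k10 2 (.s k85 k255 14 (.s k165 k245 11 (.s k160 k175 2 (.d
  k240 k80 k90 11 14))))), (.s k2 k1 0 (.s k10 k5 2 (.s k86 k254 13 (.s k90 k250 11 (.s k82 k94 1
  (.d k240 k161 k165 12 14))))))] .n) (.c k170 (.q k234 [(.s k2 k1 0 (.s k10 k5 2 (.s k6 k14 1 (.s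
  k9 k12 2 (.d k11 k8 k7 0 1))))), (.s k7 k11 1 (.s k23 k43 5 (.s k39 k55 3 (.s k27 k51 5 (.d k31
  k19 k47 1 3)))))] (.c k7 (.q k12 [(.s k2 k1 0 (.s k10 k5 2 (.d k6 k9 k14 2 1))), (.s k13 k14 0 (.s
  k29 k46 4 (.s k45 k61 3 (.s k30 k60 4 (.d k31 k28 k47 0 3)))))] (.c k13 (.l (.s k2 k1 0 (.s k46
  k29 4 (.s k47 k31 3 (.s k45 k44 0 (.s k30 k60 4 (.s k14 k62 3 (.d k10 k5 k6 2 1)))))))) (.c k14
  (.l (.s k1 k2 0 (.s k29 k46 4 (.s k31 k47 3 (.s k30 k28 0 (.s k45 k60 4 (.s k13 k61 3 (.d k5 k10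
  k9 2 1)))))))) .n))) (.c k11 (.q k12 [(.s k2 k1 0 (.s k10 k5 2 (.d k6 k9 k14 2 1))), (.s k13 k14 0
  (.s k29 k46 4 (.s k45 k61 3 (.s k30 k60 4 (.d k31 k28 k47 0 3)))))] (.c k13 (.l (.s k2 k1 0 (.s
  k46 k29 4 (.s k47 k31 3 (.s k45 k44 0 (.s k30 k60 4 (.s k14 k62 3 (.d k10 k5 k6 2 1)))))))) (.c
  k14 (.l (.s k1 k2 0 (.s k29 k46 4 (.s k31 k47 3 (.s k30 k28 0 (.s k45 k60 4 (.s k13 k61 3 (.d k5
  k10 k9 2 1)))))))) .n))) .n))) (.c k234 (.q k170 [(.s k2 k1 0 (.s k10 k5 2 (.s k6 k14 1 (.s k9 k12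
  2 (.d k11 k8 k7 0 1))))), (.s k5 k10 2 (.s k85 k255 14 (.s k165 k245 11 (.s k240 k90 14 (.d k160
  k175 k80 2 11))))), (.s k1 k2 0 (.s k85 k255 14 (.s k169 k253 13 (.s k252 k86 14 (.d k168 k171 k84
  0 13)))))] .n) .n))))) (.c k43 (.f k42 k21 6 (.q k15 [(.s k47 k31 3 (.s k10 k5 2 (.s k37 k32 2 (.d
  k26 k58 k48 3 6)))), (.s k1 k2 0 (.s k5 k10 2 (.s k9 k13 1 (.s k6 k12 2 (.d k7 k4 k11 0 1))))),
  (.s k2 k1 0 (.s k22 k62 5 (.s k7 k11 1 (.s k37 k52 4 (.d k47 k32 k31 2 3)))))] (.c k169 (.q k232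
  [(.s k47 k31 3 (.s k10 k5 2 (.s k37 k32 2 (.d k26 k58 k48 3 6)))), (.s k1 k2 0 (.s k5 k10 2 (.s k9
  k13 1 (.s k6 k12 2 (.d k7 k4 k11 0 1))))), (.s k2 k1 0 (.s k22 k62 5 (.s k7 k11 1 (.s k37 k52 4
  (.d k47 k32 k31 2 3)))))] .n) (.c k232 (.q k169 [(.s k47 k31 3 (.s k10 k5 2 (.s k37 k32 2 (.d k26
  k58 k48 3 6)))), (.s k1 k2 0 (.s k85 k253 13 (.s k170 k255 14 (.s k252 k86 14 (.d k168 k171 k84 0
  13)))))] .n) .n)))) (.c k60 (.q k15 [(.s k1 k2 0 (.s k5 k10 2 (.s k9 k13 1 (.s k7 k11 1 (.d k6 k4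
  k12 0 2))))), (.s k5 k10 2 (.s k21 k42 6 (.s k37 k53 3 (.s k26 k48 6 (.d k31 k16 k47 2 3))))), (.s
  k7 k11 1 (.s k23 k43 5 (.s k39 k55 3 (.s k27 k51 5 (.d k31 k19 k47 1 3)))))] .n) (.c k61 (.l (.s
  k2 k1 0 (.s k43 k23 5 (.s k42 k21 6 (.s k41 k40 0 (.d k22 k62 k60 5 6)))))) (.c k62 (.l (.s k1 k2
  0 (.s k23 k43 5 (.s k21 k42 6 (.s k22 k20 0 (.d k41 k61 k60 5 6)))))) .n))))))))))))))

def t85 : T TT 256 :=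
  (.q k3 [(.s k1 k2 0 (.s k21 k42 6 (.s k41 k61 5 (.s k22 k60 6 (.d k23 k20 k43 0 5))))), (.s k2 k1
  0 (.s k42 k21 6 (.s k22 k62 5 (.s k41 k60 6 (.d k43 k40 k23 0 5)))))] (.c k1 (.f k43 k23 5 (.q k10
  [(.s k15 k5 2 (.s k11 k7 1 (.s k27 k59 3 (.s k39 k51 5 (.d k47 k35 k31 1 3))))), (.s k42 k21 6 (.s
  k26 k58 3 (.s k41 k40 0 (.s k11 k56 4 (.s k59 k27 3 (.d k8 k9 k25 0 4)))))), (.s k15 k5 2 (.s k42
  k21 6 (.s k11 k7 1 (.s k26 k58 3 (.d k41 k40 k56 0 4)))))] (.c k9 (.l (.s k42 k21 6 (.s k26 k58 3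
  (.s k41 k40 0 (.s k11 k56 4 (.d k15 k7 k5 1 2)))))) (.c k11 (.l (.s k15 k5 2 (.s k42 k21 6 (.s k26
  k58 3 (.s k37 k48 6 (.d k47 k32 k31 2 3)))))) (.c k64 (.q k127 [(.s k15 k5 2 (.s k11 k7 1 (.s k27
  k59 3 (.s k39 k51 5 (.d k47 k35 k31 1 3))))), (.s k42 k21 6 (.s k26 k58 3 (.s k41 k40 0 (.s k11
  k56 4 (.s k59 k27 3 (.d k8 k9 k25 0 4)))))), (.s k15 k5 2 (.s k42 k21 6 (.s k11 k7 1 (.s k26 k58 3
  (.d k41 k40 k56 0 4)))))] (.c k9 (.l (.s k42 k21 6 (.s k26 k58 3 (.s k41 k40 0 (.s k11 k56 4 (.d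
  k15 k7 k5 1 2)))))) (.c k11 (.l (.s k15 k5 2 (.s k42 k21 6 (.s k26 k58 3 (.s k37 k48 6 (.d k47 k32
  k31 2 3)))))) (.c k169 (.q k253 [(.s k15 k5 2 (.s k11 k7 1 (.s k27 k59 3 (.s k39 k51 5 (.d k47 k35
  k31 1 3))))), (.s k42 k21 6 (.s k26 k58 3 (.s k41 k40 0 (.s k11 k56 4 (.s k59 k27 3 (.d k8 k9 k25
  0 4)))))), (.s k15 k5 2 (.s k42 k21 6 (.s k11 k7 1 (.s k26 k58 3 (.d k41 k40 k56 0 4)))))] (.c k9
  (.l (.s k42 k21 6 (.s k26 k58 3 (.s k41 k40 0 (.s k11 k56 4 (.d k15 k7 k5 1 2)))))) (.c k11 (.l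
  (.s k15 k5 2 (.s k42 k21 6 (.s k26 k58 3 (.s k37 k48 6 (.d k47 k32 k31 2 3)))))) .n))) (.c k253
  (.q k169 [(.s k255 k191 7 (.s k171 k87 13 (.s k168 k170 0 (.d k252 k84 k86 13 14)))), (.s k15 k5 2
  (.s k11 k7 1 (.s k27 k59 3 (.s k39 k51 5 (.d k47 k35 k31 1 3)))))] .n) .n))))) (.c k127 (.q k64
  [(.s k15 k5 2 (.s k192 k128 7 (.s k74 k133 10 (.s k138 k202 7 (.d k69 k79 k207 2 10))))), (.s k42
  k21 6 (.s k26 k58 3 (.s k41 k40 0 (.s k11 k56 4 (.s k59 k27 3 (.d k8 k9 k25 0 4)))))), (.s k15 k5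
  2 (.s k42 k21 6 (.s k11 k7 1 (.s k59 k27 3 (.d k8 k9 k25 0 4)))))] (.c k9 (.l (.s k42 k21 6 (.s
  k26 k58 3 (.s k41 k40 0 (.s k11 k56 4 (.d k15 k7 k5 1 2)))))) (.c k169 (.q k253 [(.s k15 k5 2 (.s
  k192 k128 7 (.s k74 k133 10 (.s k138 k202 7 (.d k69 k79 k207 2 10))))), (.s k42 k21 6 (.s k26 k58
  3 (.s k41 k40 0 (.s k11 k56 4 (.s k59 k27 3 (.d k8 k9 k25 0 4)))))), (.s k15 k5 2 (.s k42 k21 6
  (.s k11 k7 1 (.s k59 k27 3 (.d k8 k9 k25 0 4)))))] (.c k9 (.l (.s k42 k21 6 (.s k26 k58 3 (.s k41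
  k40 0 (.s k11 k56 4 (.d k15 k7 k5 1 2)))))) .n)) (.c k253 (.q k169 [(.s k192 k128 7 (.s k129 k66 8
  (.s k189 k149 5 (.d k252 k126 k86 8 14)))), (.s k15 k5 2 (.s k192 k128 7 (.s k74 k133 10 (.s k138
  k202 7 (.d k69 k79 k207 2 10))))), (.s k15 k5 2 (.s k42 k21 6 (.s k11 k7 1 (.s k26 k58 3 (.d k41
  k40 k56 0 4)))))] .n) .n)))) (.c k169 (.q k253 [(.s k15 k5 2 (.s k11 k7 1 (.s k27 k59 3 (.s k39
  k51 5 (.d k47 k35 k31 1 3))))), (.s k42 k21 6 (.s k26 k58 3 (.s k41 k40 0 (.s k11 k56 4 (.s k59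
  k27 3 (.d k8 k9 k25 0 4)))))), (.s k15 k5 2 (.s k42 k21 6 (.s k11 k7 1 (.s k26 k58 3 (.d k41 k40
  k56 0 4)))))] (.c k9 (.l (.s k42 k21 6 (.s k26 k58 3 (.s k41 k40 0 (.s k11 k56 4 (.d k15 k7 k5 1
  2)))))) (.c k11 (.l (.s k15 k5 2 (.s k42 k21 6 (.s k26 k58 3 (.s k37 k48 6 (.d k47 k32 k31 2
  3)))))) (.c k64 (.q k127 [(.s k15 k5 2 (.s k11 k7 1 (.s k27 k59 3 (.s k39 k51 5 (.d k47 k35 k31 1
  3))))), (.s k42 k21 6 (.s k26 k58 3 (.s k41 k40 0 (.s k11 k56 4 (.s k59 k27 3 (.d k8 k9 k25 0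
  4)))))), (.s k15 k5 2 (.s k42 k21 6 (.s k11 k7 1 (.s k26 k58 3 (.d k41 k40 k56 0 4)))))] (.c k9
  (.l (.s k42 k21 6 (.s k26 k58 3 (.s k41 k40 0 (.s k11 k56 4 (.d k15 k7 k5 1 2)))))) (.c k11 (.l
  (.s k15 k5 2 (.s k42 k21 6 (.s k26 k58 3 (.s k37 k48 6 (.d k47 k32 k31 2 3)))))) .n))) (.c k127
  (.q k64 [(.s k15 k5 2 (.s k192 k128 7 (.s k74 k133 10 (.s k138 k202 7 (.d k69 k79 k207 2 10))))),
  (.s k42 k21 6 (.s k26 k58 3 (.s k41 k40 0 (.s k11 k56 4 (.s k59 k27 3 (.d k8 k9 k25 0 4)))))), (.s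
  k15 k5 2 (.s k42 k21 6 (.s k11 k7 1 (.s k59 k27 3 (.d k8 k9 k25 0 4)))))] (.c k9 (.l (.s k42 k21 6
  (.s k26 k58 3 (.s k41 k40 0 (.s k11 k56 4 (.d k15 k7 k5 1 2)))))) .n)) .n))))) (.c k253 (.q k169
  [(.s k15 k5 2 (.s k11 k7 1 (.s k27 k59 3 (.s k39 k51 5 (.d k47 k35 k31 1 3))))), (.s k42 k21 6 (.s
  k26 k58 3 (.s k41 k40 0 (.s k11 k56 4 (.s k59 k27 3 (.d k8 k9 k25 0 4)))))), (.s k15 k5 2 (.s k42
  k21 6 (.s k11 k7 1 (.s k26 k58 3 (.d k41 k40 k56 0 4)))))] (.c k9 (.l (.s k42 k21 6 (.s k26 k58 3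
  (.s k41 k40 0 (.s k11 k56 4 (.d k15 k7 k5 1 2)))))) (.c k11 (.l (.s k15 k5 2 (.s k42 k21 6 (.s k26
  k58 3 (.s k37 k48 6 (.d k47 k32 k31 2 3)))))) (.c k64 (.q k127 [(.s k255 k191 7 (.s k171 k87 13
  (.s k168 k170 0 (.d k252 k84 k86 13 14)))), (.s k15 k5 2 (.s k11 k7 1 (.s k27 k59 3 (.s k39 k51 5
  (.d k47 k35 k31 1 3)))))] .n) (.c k127 (.q k64 [(.s k192 k128 7 (.s k129 k66 8 (.s k189 k149 5 (.d
  k252 k126 k86 8 14)))), (.s k15 k5 2 (.s k192 k128 7 (.s k74 k133 10 (.s k138 k202 7 (.d k69 k79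
  k207 2 10))))), (.s k15 k5 2 (.s k42 k21 6 (.s k11 k7 1 (.s k26 k58 3 (.d k41 k40 k56 0 4)))))]
  .n) .n))))) .n)))))))) (.c k2 (.q k15 [(.s k7 k11 1 (.s k23 k43 5 (.s k39 k55 3 (.s k27 k51 5 (.d
  k31 k19 k47 1 3))))), (.s k5 k10 2 (.s k21 k42 6 (.s k37 k53 3 (.s k26 k48 6 (.d k31 k16 k47 2
  3))))), (.s k5 k10 2 (.s k21 k42 6 (.s k7 k11 1 (.s k23 k43 5 (.s k37 k53 3 (.d k22 k20 k52 0
  4))))))] (.c k64 (.q k127 [(.s k7 k11 1 (.s k23 k43 5 (.s k39 k55 3 (.s k27 k51 5 (.d k31 k19 k47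
  1 3))))), (.s k5 k10 2 (.s k21 k42 6 (.s k37 k53 3 (.s k26 k48 6 (.d k31 k16 k47 2 3))))), (.s k23
  k43 5 (.s k255 k191 7 (.s k87 k171 13 (.s k151 k215 7 (.d k107 k67 k195 5 13)))))] .n) (.c k127
  (.q k64 [(.s k7 k11 1 (.s k23 k43 5 (.s k39 k55 3 (.s k27 k51 5 (.d k31 k19 k47 1 3))))), (.s k10
  k5 2 (.s k192 k128 7 (.s k74 k133 10 (.s k138 k202 7 (.d k69 k79 k207 2 10)))))] .n) .n))) (.c k21
  (.q k7 [(.s k1 k2 0 (.s k15 k11 1 (.s k5 k10 2 (.s k9 k13 1 (.d k6 k4 k12 0 2))))), (.s k15 k11 1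
  (.s k23 k43 5 (.s k31 k47 3 (.s k27 k19 1 (.d k39 k55 k51 3 5)))))] (.c k11 (.f k1 k2 0 (.q k15
  [(.s k5 k10 2 (.s k9 k13 1 (.d k6 k4 k12 0 2))), (.s k23 k43 5 (.s k31 k47 3 (.s k27 k19 1 (.d k39
  k55 k51 3 5))))] (.c k64 (.q k127 [(.s k5 k10 2 (.s k9 k13 1 (.d k6 k4 k12 0 2))), (.s k23 k43 5
  (.s k31 k47 3 (.s k27 k19 1 (.d k39 k55 k51 3 5))))] (.c k149 (.q k213 [(.s k5 k10 2 (.s k9 k13 1
  (.d k6 k4 k12 0 2))), (.s k23 k43 5 (.s k31 k47 3 (.s k27 k19 1 (.d k39 k55 k51 3 5))))] .n) (.c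
  k213 (.q k149 [(.s k5 k10 2 (.s k9 k13 1 (.d k6 k4 k12 0 2))), (.s k23 k43 5 (.s k31 k47 3 (.s k27
  k19 1 (.d k39 k55 k51 3 5))))] .n) .n))) (.c k127 (.q k64 [(.s k5 k10 2 (.s k9 k13 1 (.d k6 k4 k12
  0 2))), (.s k23 k43 5 (.s k31 k47 3 (.s k27 k19 1 (.d k39 k55 k51 3 5))))] (.c k149 (.q k213 [(.s
  k5 k10 2 (.s k9 k13 1 (.d k6 k4 k12 0 2))), (.s k23 k43 5 (.s k31 k47 3 (.s k27 k19 1 (.d k39 k55
  k51 3 5))))] .n) (.c k213 (.q k149 [(.s k5 k10 2 (.s k9 k13 1 (.d k6 k4 k12 0 2))), (.s k23 k43 5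
  (.s k31 k47 3 (.s k27 k19 1 (.d k39 k55 k51 3 5))))] .n) .n))) (.c k149 (.q k213 [(.s k5 k10 2 (.s
  k9 k13 1 (.d k6 k4 k12 0 2))), (.s k23 k43 5 (.s k31 k47 3 (.s k27 k19 1 (.d k39 k55 k51 3 5))))]
  (.c k64 (.q k127 [(.s k5 k10 2 (.s k9 k13 1 (.d k6 k4 k12 0 2))), (.s k23 k43 5 (.s k31 k47 3 (.s
  k27 k19 1 (.d k39 k55 k51 3 5))))] .n) (.c k127 (.q k64 [(.s k5 k10 2 (.s k9 k13 1 (.d k6 k4 k12 0
  2))), (.s k23 k43 5 (.s k31 k47 3 (.s k27 k19 1 (.d k39 k55 k51 3 5))))] .n) .n))) (.c k213 (.q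
  k149 [(.s k5 k10 2 (.s k9 k13 1 (.d k6 k4 k12 0 2))), (.s k23 k43 5 (.s k31 k47 3 (.s k27 k19 1
  (.d k39 k55 k51 3 5))))] (.c k64 (.q k127 [(.s k5 k10 2 (.s k9 k13 1 (.d k6 k4 k12 0 2))), (.s k23
  k43 5 (.s k31 k47 3 (.s k27 k19 1 (.d k39 k55 k51 3 5))))] .n) (.c k127 (.q k64 [(.s k5 k10 2 (.s
  k9 k13 1 (.d k6 k4 k12 0 2))), (.s k23 k43 5 (.s k31 k47 3 (.s k27 k19 1 (.d k39 k55 k51 3 5))))]
  .n) .n))) .n)))))) (.c k15 (.f k1 k2 0 (.l (.s k23 k43 5 (.s k55 k39 3 (.s k51 k59 1 (.s k17 k34 4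
  (.s k33 k49 3 (.s k18 k48 4 (.d k19 k35 k16 3 0))))))))) (.c k64 (.q k127 [(.s k1 k2 0 (.s k15 k11
  1 (.s k5 k10 2 (.s k9 k13 1 (.d k6 k4 k12 0 2))))), (.s k23 k43 5 (.s k255 k191 7 (.s k87 k171 13
  (.s k151 k215 7 (.d k107 k67 k195 5 13)))))] (.c k149 (.q k213 [(.s k1 k2 0 (.s k15 k11 1 (.s k5
  k10 2 (.s k9 k13 1 (.d k6 k4 k12 0 2))))), (.s k23 k43 5 (.s k255 k191 7 (.s k87 k171 13 (.s k151
  k215 7 (.d k107 k67 k195 5 13)))))] .n) (.c k213 (.q k149 [(.s k1 k2 0 (.s k15 k11 1 (.s k5 k10 2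
  (.s k9 k13 1 (.d k6 k4 k12 0 2))))), (.s k2 k1 0 (.s k23 k43 5 (.s k86 k212 8 (.s k170 k254 13 (.d
  k191 k128 k255 6 7))))), (.s k15 k11 1 (.s k23 k43 5 (.s k39 k55 3 (.s k27 k51 5 (.d k31 k19 k47 1
  3)))))] .n) .n))) (.c k127 (.q k64 [(.s k1 k2 0 (.s k15 k11 1 (.s k5 k10 2 (.s k9 k13 1 (.d k6 k4
  k12 0 2))))), (.s k2 k1 0 (.s k192 k128 7 (.s k66 k129 8 (.s k130 k194 7 (.d k65 k67 k195 0
  8))))), (.s k15 k11 1 (.s k23 k43 5 (.s k39 k55 3 (.s k27 k51 5 (.d k31 k19 k47 1 3)))))] (.c k149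
  (.q k213 [(.s k1 k2 0 (.s k15 k11 1 (.s k5 k10 2 (.s k9 k13 1 (.d k6 k4 k12 0 2))))), (.s k2 k1 0
  (.s k192 k128 7 (.s k66 k129 8 (.s k130 k194 7 (.d k65 k67 k195 0 8))))), (.s k15 k11 1 (.s k23
  k43 5 (.s k39 k55 3 (.s k27 k51 5 (.d k31 k19 k47 1 3)))))] .n) (.c k213 (.q k149 [(.s k1 k2 0 (.s
  k15 k11 1 (.s k5 k10 2 (.s k9 k13 1 (.d k6 k4 k12 0 2))))), (.s k192 k128 7 (.s k23 k43 5 (.s k129
  k66 8 (.s k86 k212 8 (.d k169 k189 k252 5 14)))))] .n) .n))) (.c k149 (.q k213 [(.s k1 k2 0 (.s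
  k15 k11 1 (.s k5 k10 2 (.s k9 k13 1 (.d k6 k4 k12 0 2))))), (.s k15 k11 1 (.s k23 k43 5 (.s k31
  k47 3 (.s k27 k19 1 (.d k39 k55 k51 3 5)))))] (.c k11 (.f k1 k2 0 (.q k15 [(.s k5 k10 2 (.s k9 k13
  1 (.d k6 k4 k12 0 2))), (.s k23 k43 5 (.s k31 k47 3 (.s k27 k19 1 (.d k39 k55 k51 3 5))))] (.c k64
  (.q k127 [(.s k5 k10 2 (.s k9 k13 1 (.d k6 k4 k12 0 2))), (.s k23 k43 5 (.s k31 k47 3 (.s k27 k19
  1 (.d k39 k55 k51 3 5))))] .n) (.c k127 (.q k64 [(.s k5 k10 2 (.s k9 k13 1 (.d k6 k4 k12 0 2))),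
  (.s k23 k43 5 (.s k31 k47 3 (.s k27 k19 1 (.d k39 k55 k51 3 5))))] .n) .n)))) (.c k15 (.f k1 k2 0
  (.l (.s k23 k43 5 (.s k55 k39 3 (.s k51 k59 1 (.s k17 k34 4 (.s k33 k49 3 (.s k18 k48 4 (.d k19
  k35 k16 3 0))))))))) (.c k64 (.q k127 [(.s k1 k2 0 (.s k15 k11 1 (.s k5 k10 2 (.s k9 k13 1 (.d k6
  k4 k12 0 2))))), (.s k23 k43 5 (.s k255 k191 7 (.s k87 k171 13 (.s k151 k215 7 (.d k107 k67 k195 5
  13)))))] .n) (.c k127 (.q k64 [(.s k1 k2 0 (.s k15 k11 1 (.s k5 k10 2 (.s k9 k13 1 (.d k6 k4 k12 0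
  2))))), (.s k2 k1 0 (.s k192 k128 7 (.s k66 k129 8 (.s k130 k194 7 (.d k65 k67 k195 0 8))))), (.s
  k15 k11 1 (.s k23 k43 5 (.s k39 k55 3 (.s k27 k51 5 (.d k31 k19 k47 1 3)))))] .n) .n))))) (.c k213
  (.q k149 [(.s k1 k2 0 (.s k15 k11 1 (.s k5 k10 2 (.s k9 k13 1 (.d k6 k4 k12 0 2))))), (.s k23 k43
  5 (.s k55 k39 3 (.s k86 k212 8 (.s k165 k244 12 (.s k196 k102 12 (.d k133 k181 k70 3 8))))))] (.c
  k64 (.q k127 [(.s k1 k2 0 (.s k15 k11 1 (.s k5 k10 2 (.s k9 k13 1 (.d k6 k4 k12 0 2))))), (.s k2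
  k1 0 (.s k23 k43 5 (.s k86 k212 8 (.s k170 k254 13 (.d k191 k128 k255 6 7))))), (.s k15 k11 1 (.s
  k23 k43 5 (.s k39 k55 3 (.s k27 k51 5 (.d k31 k19 k47 1 3)))))] .n) (.c k127 (.q k64 [(.s k1 k2 0
  (.s k15 k11 1 (.s k5 k10 2 (.s k9 k13 1 (.d k6 k4 k12 0 2))))), (.s k192 k128 7 (.s k23 k43 5 (.s
  k129 k66 8 (.s k86 k212 8 (.d k169 k189 k252 5 14)))))] .n) .n))) .n))))))) (.c k22 (.q k15 [(.s
  k1 k2 0 (.s k5 k10 2 (.s k9 k13 1 (.s k6 k12 2 (.d k7 k4 k11 0 1))))), (.s k7 k11 1 (.s k23 k43 5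
  (.s k39 k55 3 (.s k27 k51 5 (.d k31 k19 k47 1 3))))), (.s k5 k10 2 (.s k21 k42 6 (.s k37 k53 3 (.s
  k26 k48 6 (.d k31 k16 k47 2 3)))))] (.c k64 (.q k127 [(.s k1 k2 0 (.s k5 k10 2 (.s k9 k13 1 (.s k6
  k12 2 (.d k7 k4 k11 0 1))))), (.s k7 k11 1 (.s k23 k43 5 (.s k39 k55 3 (.s k27 k51 5 (.d k31 k19
  k47 1 3))))), (.s k5 k10 2 (.s k21 k42 6 (.s k37 k53 3 (.s k26 k48 6 (.d k31 k16 k47 2 3)))))] .n)
  (.c k127 (.q k64 [(.s k1 k2 0 (.s k5 k10 2 (.s k9 k13 1 (.s k6 k12 2 (.d k7 k4 k11 0 1))))), (.s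
  k10 k5 2 (.s k42 k21 6 (.s k26 k58 3 (.s k37 k48 6 (.d k47 k32 k31 2 3))))), (.s k2 k1 0 (.s k192
  k128 7 (.s k66 k129 8 (.s k130 k194 7 (.d k65 k67 k195 0 8)))))] .n) .n))) (.c k23 (.f k1 k2 0 (.q
  k15 [(.s k5 k10 2 (.s k9 k13 1 (.s k6 k12 2 (.d k7 k4 k11 0 1)))), (.s k21 k42 6 (.s k41 k61 5 (.s
  k11 k7 1 (.s k26 k56 4 (.d k31 k16 k47 2 3))))), (.s k5 k10 2 (.s k21 k42 6 (.s k37 k53 3 (.s k26
  k48 6 (.d k31 k16 k47 2 3)))))] (.c k64 (.q k127 [(.s k5 k10 2 (.s k9 k13 1 (.s k6 k12 2 (.d k7 k4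
  k11 0 1)))), (.s k21 k42 6 (.s k41 k61 5 (.s k11 k7 1 (.s k26 k56 4 (.d k31 k16 k47 2 3))))), (.s
  k5 k10 2 (.s k21 k42 6 (.s k37 k53 3 (.s k26 k48 6 (.d k31 k16 k47 2 3)))))] .n) (.c k127 (.q k64
  [(.s k5 k10 2 (.s k9 k13 1 (.s k6 k12 2 (.d k7 k4 k11 0 1)))), (.s k21 k42 6 (.s k41 k61 5 (.s k11
  k7 1 (.s k26 k56 4 (.d k31 k16 k47 2 3))))), (.s k5 k10 2 (.s k21 k42 6 (.s k37 k53 3 (.s k26 k48
  6 (.d k31 k16 k47 2 3)))))] .n) .n)))) (.c k41 (.f k1 k2 0 (.q k15 [(.s k5 k10 2 (.s k9 k13 1 (.s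
  k6 k12 2 (.d k7 k4 k11 0 1)))), (.s k7 k11 1 (.s k23 k43 5 (.s k39 k55 3 (.s k27 k51 5 (.d k31 k19
  k47 1 3))))), (.s k5 k10 2 (.s k21 k42 6 (.s k37 k53 3 (.s k26 k48 6 (.d k31 k16 k47 2 3)))))] (.c
  k64 (.q k127 [(.s k5 k10 2 (.s k9 k13 1 (.s k6 k12 2 (.d k7 k4 k11 0 1)))), (.s k7 k11 1 (.s k23
  k43 5 (.s k39 k55 3 (.s k27 k51 5 (.d k31 k19 k47 1 3))))), (.s k5 k10 2 (.s k21 k42 6 (.s k37 k53
  3 (.s k26 k48 6 (.d k31 k16 k47 2 3)))))] .n) (.c k127 (.q k64 [(.s k5 k10 2 (.s k9 k13 1 (.s k6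
  k12 2 (.d k7 k4 k11 0 1)))), (.s k192 k128 7 (.s k11 k7 1 (.s k74 k133 10 (.s k137 k200 8 (.d k69
  k79 k205 2 9))))), (.s k5 k10 2 (.s k21 k42 6 (.s k37 k53 3 (.s k26 k48 6 (.d k31 k16 k47 2
  3)))))] .n) .n)))) (.c k42 (.f k43 k23 5 (.q k15 [(.s k11 k7 1 (.s k47 k31 3 (.s k39 k35 1 (.d k27
  k59 k51 3 5)))), (.s k1 k2 0 (.s k5 k10 2 (.s k9 k13 1 (.s k6 k12 2 (.d k7 k4 k11 0 1)))))] (.c k7
  (.f k10 k5 2 (.l (.s k2 k1 0 (.s k6 k14 1 (.s k9 k12 2 (.s k11 k8 0 (.s k47 k31 3 (.s k39 k35 1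
  (.d k27 k59 k51 3 5))))))))) (.c k11 (.q k192 [(.s k2 k1 0 (.s k64 k128 7 (.s k66 k129 8 (.s k65
  k67 0 (.d k130 k194 k195 7 8))))), (.s k5 k10 2 (.s k133 k74 10 (.s k69 k197 7 (.s k138 k207 10
  (.d k128 k64 k143 7 2)))))] (.c k64 (.q k127 [(.s k255 k191 7 (.s k95 k175 11 (.s k111 k79 3 (.s
  k159 k207 11 (.d k31 k47 k223 3 7))))), (.s k1 k2 0 (.s k5 k10 2 (.s k129 k66 8 (.s k133 k74 10
  (.s k69 k197 7 (.d k137 k141 k205 1 9)))))), (.s k31 k47 3 (.s k255 k191 7 (.s k95 k175 11 (.s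
  k159 k223 7 (.d k111 k79 k207 3 11)))))] (.c k79 (.l (.s k1 k2 0 (.s k5 k10 2 (.s k129 k66 8 (.s
  k133 k74 10 (.s k69 k197 7 (.d k137 k141 k205 1 9))))))) (.c k170 (.q k234 [(.d k255 k213 k191 6
  7), (.s k1 k2 0 (.s k5 k10 2 (.s k129 k66 8 (.s k133 k74 10 (.s k69 k197 7 (.d k137 k141 k205 1
  9))))))] .n) (.c k234 (.q k170 [(.s k2 k1 0 (.s k86 k254 13 (.s k169 k252 14 (.s k255 k191 7 (.d
  k171 k168 k87 0 13))))), (.s k10 k5 2 (.s k90 k250 11 (.s k31 k47 3 (.s k208 k149 10 (.d k240 k224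
  k165 3 14)))))] (.c k86 (.l (.s k10 k5 2 (.s k90 k250 11 (.s k31 k47 3 (.s k149 k208 10 (.d k191
  k128 k255 6 7)))))) .n)) .n)))) (.c k127 (.l (.s k64 k128 7 (.s k2 k1 0 (.s k66 k129 8 (.s k130
  k194 7 (.d k65 k67 k195 0 8)))))) (.c k128 (.l (.s k1 k2 0 (.s k5 k10 2 (.s k129 k66 8 (.s k193
  k65 7 (.s k133 k74 10 (.d k13 k9 k73 1 9))))))) (.c k170 (.q k234 [(.s k1 k2 0 (.s k129 k66 8 (.s
  k65 k193 7 (.s k130 k195 8 (.d k128 k64 k131 7 0))))), (.s k5 k10 2 (.s k133 k74 10 (.s k69 k197 7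
  (.s k138 k207 10 (.d k128 k64 k143 7 2)))))] (.c k64 (.q k127 [(.d k255 k213 k191 6 7), (.s k1 k2
  0 (.s k5 k10 2 (.s k129 k66 8 (.s k133 k74 10 (.s k69 k197 7 (.d k137 k141 k205 1 9))))))] .n) (.c
  k127 (.l (.s k64 k128 7 (.s k2 k1 0 (.s k66 k129 8 (.s k130 k194 7 (.d k65 k67 k195 0 8)))))) (.c
  k128 (.l (.s k255 k213 6 (.s k171 k87 13 (.s k107 k235 7 (.s k151 k195 13 (.d k191 k131 k127 5
  7)))))) .n)))) (.c k234 (.q k170 [(.s k2 k1 0 (.s k64 k128 7 (.s k66 k129 8 (.s k65 k67 0 (.d k130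
  k194 k195 7 8))))), (.s k10 k5 2 (.s k90 k250 11 (.s k31 k47 3 (.s k208 k149 10 (.d k240 k224 k165
  3 14)))))] (.c k64 (.q k127 [(.s k2 k1 0 (.s k86 k254 13 (.s k169 k252 14 (.s k255 k191 7 (.d k171
  k168 k87 0 13))))), (.s k10 k5 2 (.s k90 k250 11 (.s k31 k47 3 (.s k208 k149 10 (.d k240 k224 k165
  3 14)))))] (.c k86 (.l (.s k10 k5 2 (.s k90 k250 11 (.s k31 k47 3 (.s k149 k208 10 (.d k191 k128
  k255 6 7)))))) .n)) (.c k127 (.l (.s k64 k128 7 (.s k2 k1 0 (.s k66 k129 8 (.s k130 k194 7 (.d k65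
  k67 k195 0 8)))))) .n))) .n)))))) (.c k64 (.q k127 [(.s k11 k7 1 (.s k47 k31 3 (.s k39 k35 1 (.d
  k27 k59 k51 3 5)))), (.s k31 k47 3 (.s k255 k191 7 (.s k95 k175 11 (.s k159 k223 7 (.d k111 k79
  k207 3 11))))), (.s k1 k2 0 (.s k5 k10 2 (.s k9 k13 1 (.s k6 k12 2 (.d k7 k4 k11 0 1)))))] (.c
  k170 (.q k234 [(.s k11 k7 1 (.s k47 k31 3 (.s k39 k35 1 (.d k27 k59 k51 3 5)))), (.s k31 k47 3 (.s
  k255 k191 7 (.s k95 k175 11 (.s k159 k223 7 (.d k111 k79 k207 3 11))))), (.s k1 k2 0 (.s k5 k10 2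
  (.s k9 k13 1 (.s k6 k12 2 (.d k7 k4 k11 0 1)))))] .n) (.c k234 (.q k170 [(.s k11 k7 1 (.s k47 k31
  3 (.s k39 k35 1 (.d k27 k59 k51 3 5)))), (.s k2 k1 0 (.s k86 k254 13 (.s k169 k252 14 (.s k255
  k191 7 (.d k171 k168 k87 0 13)))))] .n) .n))) (.c k127 (.q k64 [(.s k11 k7 1 (.s k47 k31 3 (.s k39
  k35 1 (.d k27 k59 k51 3 5)))), (.s k2 k1 0 (.s k192 k128 7 (.s k66 k129 8 (.s k130 k194 7 (.d k65
  k67 k195 0 8)))))] (.c k170 (.q k234 [(.s k11 k7 1 (.s k47 k31 3 (.s k39 k35 1 (.d k27 k59 k51 3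
  5)))), (.s k2 k1 0 (.s k192 k128 7 (.s k66 k129 8 (.s k130 k194 7 (.d k65 k67 k195 0 8)))))] .n)
  (.c k234 (.q k170 [(.s k11 k7 1 (.s k47 k31 3 (.s k39 k35 1 (.d k27 k59 k51 3 5)))), (.s k2 k1 0
  (.s k192 k128 7 (.s k66 k129 8 (.s k130 k194 7 (.d k65 k67 k195 0 8)))))] .n) .n))) (.c k170 (.q
  k234 [(.s k11 k7 1 (.s k47 k31 3 (.s k39 k35 1 (.d k27 k59 k51 3 5)))), (.s k1 k2 0 (.s k5 k10 2
  (.s k9 k13 1 (.s k6 k12 2 (.d k7 k4 k11 0 1)))))] (.c k7 (.f k10 k5 2 (.l (.s k2 k1 0 (.s k6 k14 1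
  (.s k9 k12 2 (.s k11 k8 0 (.s k47 k31 3 (.s k39 k35 1 (.d k27 k59 k51 3 5))))))))) (.c k11 (.q k12
  [(.s k2 k1 0 (.s k10 k5 2 (.d k6 k9 k14 2 1))), (.s k46 k29 4 (.s k47 k31 3 (.s k35 k39 1 (.s k44
  k45 0 (.s k38 k41 2 (.d k51 k19 k25 3 6))))))] (.c k13 (.l (.s k2 k1 0 (.s k46 k29 4 (.s k47 k31 3
  (.s k45 k44 0 (.s k30 k60 4 (.s k14 k62 3 (.d k10 k5 k6 2 1)))))))) (.c k64 (.q k127 [(.s k2 k1 0
  (.s k10 k5 2 (.d k6 k9 k14 2 1))), (.s k29 k46 4 (.s k255 k191 7 (.s k93 k174 12 (.s k157 k221 7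
  (.d k110 k76 k204 4 12)))))] .n) (.c k127 (.q k64 [(.s k2 k1 0 (.s k10 k5 2 (.d k6 k9 k14 2 1))),
  (.s k8 k4 1 (.s k192 k128 7 (.s k72 k132 9 (.s k136 k200 7 (.d k68 k76 k204 1 9)))))] .n) .n))))
  (.c k64 (.q k127 [(.s k11 k7 1 (.s k47 k31 3 (.s k39 k35 1 (.d k27 k59 k51 3 5)))), (.s k31 k47 3
  (.s k255 k191 7 (.s k95 k175 11 (.s k159 k223 7 (.d k111 k79 k207 3 11))))), (.s k1 k2 0 (.s k5
  k10 2 (.s k9 k13 1 (.s k6 k12 2 (.d k7 k4 k11 0 1)))))] .n) (.c k127 (.q k64 [(.s k11 k7 1 (.s k47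
  k31 3 (.s k39 k35 1 (.d k27 k59 k51 3 5)))), (.s k2 k1 0 (.s k192 k128 7 (.s k66 k129 8 (.s k130
  k194 7 (.d k65 k67 k195 0 8)))))] .n) .n))))) (.c k234 (.q k170 [(.s k11 k7 1 (.s k47 k31 3 (.s
  k39 k35 1 (.d k27 k59 k51 3 5)))), (.s k2 k1 0 (.s k10 k5 2 (.s k86 k254 13 (.s k90 k250 11 (.s
  k82 k94 1 (.d k240 k165 k161 14 12))))))] (.c k64 (.q k127 [(.s k11 k7 1 (.s k47 k31 3 (.s k39 k35
  1 (.d k27 k59 k51 3 5)))), (.s k2 k1 0 (.s k86 k254 13 (.s k169 k252 14 (.s k255 k191 7 (.d k171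
  k168 k87 0 13)))))] .n) (.c k127 (.q k64 [(.s k11 k7 1 (.s k47 k31 3 (.s k39 k35 1 (.d k27 k59 k51
  3 5)))), (.s k2 k1 0 (.s k192 k128 7 (.s k66 k129 8 (.s k130 k194 7 (.d k65 k67 k195 0 8)))))] .n)
  .n))) .n)))))))) (.c k43 (.f k1 k2 0 (.q k5 [(.s k10 k15 2 (.s k9 k13 1 (.s k12 k6 2 (.d k8 k11 k4
  0 1)))), (.s k21 k42 6 (.s k13 k9 1 (.s k41 k61 5 (.s k37 k53 3 (.s k49 k25 5 (.d k33 k45 k17 1
  3)))))), (.s k15 k10 2 (.s k21 k42 6 (.s k37 k53 3 (.s k26 k48 6 (.d k31 k16 k47 2 3)))))] (.c k64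
  (.q k127 [(.s k10 k15 2 (.s k9 k13 1 (.s k12 k6 2 (.d k8 k11 k4 0 1)))), (.s k21 k42 6 (.s k13 k9
  1 (.s k41 k61 5 (.s k37 k53 3 (.s k49 k25 5 (.d k33 k45 k17 1 3)))))), (.s k15 k10 2 (.s k21 k42 6
  (.s k37 k53 3 (.s k26 k48 6 (.d k31 k16 k47 2 3)))))] (.c k169 (.q k232 [(.s k10 k15 2 (.s k9 k13
  1 (.s k12 k6 2 (.d k8 k11 k4 0 1)))), (.s k21 k42 6 (.s k13 k9 1 (.s k41 k61 5 (.s k37 k53 3 (.s
  k49 k25 5 (.d k33 k45 k17 1 3)))))), (.s k15 k10 2 (.s k21 k42 6 (.s k37 k53 3 (.s k26 k48 6 (.d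
  k31 k16 k47 2 3)))))] .n) (.c k232 (.q k169 [(.s k10 k15 2 (.s k9 k13 1 (.s k12 k6 2 (.d k8 k11 k4
  0 1)))), (.s k255 k191 7 (.s k171 k87 13 (.s k168 k170 0 (.d k252 k84 k86 13 14))))] .n) .n))) (.c
  k127 (.q k64 [(.s k10 k15 2 (.s k9 k13 1 (.s k12 k6 2 (.d k8 k11 k4 0 1)))), (.s k21 k42 6 (.s k13
  k9 1 (.s k41 k61 5 (.s k37 k53 3 (.s k49 k25 5 (.d k33 k45 k17 1 3)))))), (.s k15 k10 2 (.s k21
  k42 6 (.s k37 k53 3 (.s k26 k48 6 (.d k31 k16 k47 2 3)))))] (.c k169 (.q k232 [(.s k10 k15 2 (.s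
  k9 k13 1 (.s k12 k6 2 (.d k8 k11 k4 0 1)))), (.s k21 k42 6 (.s k13 k9 1 (.s k41 k61 5 (.s k37 k53
  3 (.s k49 k25 5 (.d k33 k45 k17 1 3)))))), (.s k15 k10 2 (.s k21 k42 6 (.s k37 k53 3 (.s k26 k48 6
  (.d k31 k16 k47 2 3)))))] .n) (.c k232 (.q k169 [(.s k10 k15 2 (.s k9 k13 1 (.s k12 k6 2 (.d k8
  k11 k4 0 1)))), (.s k192 k128 7 (.s k129 k66 8 (.s k189 k149 5 (.d k252 k126 k86 8 14))))] .n)
  .n))) (.c k169 (.q k232 [(.s k10 k15 2 (.s k9 k13 1 (.s k12 k6 2 (.d k8 k11 k4 0 1)))), (.s k21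
  k42 6 (.s k13 k9 1 (.s k41 k61 5 (.s k37 k53 3 (.s k49 k25 5 (.d k33 k45 k17 1 3)))))), (.s k15
  k10 2 (.s k21 k42 6 (.s k37 k53 3 (.s k26 k48 6 (.d k31 k16 k47 2 3)))))] (.c k64 (.q k127 [(.s
  k10 k15 2 (.s k9 k13 1 (.s k12 k6 2 (.d k8 k11 k4 0 1)))), (.s k21 k42 6 (.s k13 k9 1 (.s k41 k61
  5 (.s k37 k53 3 (.s k49 k25 5 (.d k33 k45 k17 1 3)))))), (.s k15 k10 2 (.s k21 k42 6 (.s k37 k53 3
  (.s k26 k48 6 (.d k31 k16 k47 2 3)))))] .n) (.c k127 (.q k64 [(.s k10 k15 2 (.s k9 k13 1 (.s k12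
  k6 2 (.d k8 k11 k4 0 1)))), (.s k21 k42 6 (.s k13 k9 1 (.s k41 k61 5 (.s k37 k53 3 (.s k49 k25 5
  (.d k33 k45 k17 1 3)))))), (.s k15 k10 2 (.s k21 k42 6 (.s k37 k53 3 (.s k26 k48 6 (.d k31 k16 k47
  2 3)))))] .n) .n))) (.c k232 (.q k169 [(.s k10 k15 2 (.s k9 k13 1 (.s k12 k6 2 (.d k8 k11 k4 0
  1)))), (.s k21 k42 6 (.s k13 k9 1 (.s k41 k61 5 (.s k37 k53 3 (.s k49 k25 5 (.d k33 k45 k17 1
  3)))))), (.s k15 k10 2 (.s k21 k42 6 (.s k37 k53 3 (.s k26 k48 6 (.d k31 k16 k47 2 3)))))] (.c k64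
  (.q k127 [(.s k10 k15 2 (.s k9 k13 1 (.s k12 k6 2 (.d k8 k11 k4 0 1)))), (.s k255 k191 7 (.s k171
  k87 13 (.s k168 k170 0 (.d k252 k84 k86 13 14))))] .n) (.c k127 (.q k64 [(.s k10 k15 2 (.s k9 k13
  1 (.s k12 k6 2 (.d k8 k11 k4 0 1)))), (.s k192 k128 7 (.s k129 k66 8 (.s k189 k149 5 (.d k252 k126
  k86 8 14))))] .n) .n))) .n)))))) (.c k60 (.f k1 k2 0 (.q k15 [(.s k5 k10 2 (.s k9 k13 1 (.s k7 k11
  1 (.d k6 k4 k12 0 2)))), (.s k21 k42 6 (.s k41 k61 5 (.s k11 k7 1 (.s k26 k56 4 (.d k31 k16 k47 2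
  3))))), (.s k5 k10 2 (.s k21 k42 6 (.s k37 k53 3 (.s k26 k48 6 (.d k31 k16 k47 2 3)))))] (.c k64
  (.q k127 [(.s k5 k10 2 (.s k9 k13 1 (.s k7 k11 1 (.d k6 k4 k12 0 2)))), (.s k21 k42 6 (.s k41 k61
  5 (.s k11 k7 1 (.s k26 k56 4 (.d k31 k16 k47 2 3))))), (.s k5 k10 2 (.s k21 k42 6 (.s k37 k53 3
  (.s k26 k48 6 (.d k31 k16 k47 2 3)))))] .n) (.c k127 (.q k64 [(.s k5 k10 2 (.s k9 k13 1 (.s k7 k11
  1 (.d k6 k4 k12 0 2)))), (.s k21 k42 6 (.s k41 k61 5 (.s k11 k7 1 (.s k26 k56 4 (.d k31 k16 k47 2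
  3))))), (.s k5 k10 2 (.s k21 k42 6 (.s k37 k53 3 (.s k26 k48 6 (.d k31 k16 k47 2 3)))))] .n)
  .n)))) (.c k61 (.l (.s k2 k1 0 (.s k43 k23 5 (.s k42 k21 6 (.s k41 k40 0 (.d k22 k62 k60 5 6))))))
  (.c k62 (.l (.s k1 k2 0 (.s k23 k43 5 (.s k21 k42 6 (.s k22 k20 0 (.d k41 k61 k60 5 6)))))) (.c
  k64 (.q k127 [(.s k1 k2 0 (.s k21 k42 6 (.s k41 k61 5 (.s k22 k60 6 (.d k23 k20 k43 0 5))))), (.s
  k23 k43 5 (.s k255 k191 7 (.s k87 k171 13 (.s k151 k215 7 (.d k107 k67 k195 5 13)))))] (.c k20 (.l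
  (.s k2 k1 0 (.s k42 k21 6 (.s k22 k62 5 (.s k41 k60 6 (.d k43 k23 k40 5 0)))))) (.c k23 (.q k15
  [(.s k1 k2 0 (.s k5 k10 2 (.s k9 k13 1 (.s k6 k12 2 (.d k7 k4 k11 0 1))))), (.s k31 k47 3 (.s k255
  k191 7 (.s k95 k175 11 (.s k159 k223 7 (.d k111 k79 k207 3 11)))))] .n) (.c k43 (.f k1 k2 0 (.q
  k15 [(.s k5 k10 2 (.s k9 k13 1 (.s k6 k12 2 (.d k7 k4 k11 0 1)))), (.s k21 k42 6 (.s k41 k61 5 (.s
  k11 k7 1 (.s k26 k56 4 (.d k31 k16 k47 2 3))))), (.s k5 k10 2 (.s k21 k42 6 (.s k37 k53 3 (.s k26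
  k48 6 (.d k31 k16 k47 2 3)))))] (.c k169 (.q k232 [(.s k5 k10 2 (.s k9 k13 1 (.s k6 k12 2 (.d k7
  k4 k11 0 1)))), (.s k21 k42 6 (.s k41 k61 5 (.s k11 k7 1 (.s k26 k56 4 (.d k31 k16 k47 2 3))))),
  (.s k5 k10 2 (.s k21 k42 6 (.s k37 k53 3 (.s k26 k48 6 (.d k31 k16 k47 2 3)))))] .n) (.c k232 (.q
  k169 [(.s k5 k10 2 (.s k9 k13 1 (.s k6 k12 2 (.d k7 k4 k11 0 1)))), (.s k255 k191 7 (.s k171 k87
  13 (.s k168 k170 0 (.d k252 k84 k86 13 14))))] .n) .n)))) .n)))) (.c k127 (.q k64 [(.s k1 k2 0 (.s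
  k21 k42 6 (.s k41 k61 5 (.s k22 k60 6 (.d k23 k20 k43 0 5))))), (.s k2 k1 0 (.s k192 k128 7 (.s
  k66 k129 8 (.s k130 k194 7 (.d k65 k67 k195 0 8)))))] (.c k1 (.f k42 k21 6 (.f k192 k128 7 (.l (.s
  k43 k23 5 (.s k66 k129 8 (.s k41 k40 0 (.s k22 k60 6 (.s k2 k62 5 (.s k65 k67 0 (.d k130 k194 k195
  7 8)))))))))) (.c k2 (.q k15 [(.s k7 k11 1 (.s k23 k43 5 (.s k39 k55 3 (.s k27 k51 5 (.d k31 k19
  k47 1 3))))), (.s k10 k5 2 (.s k192 k128 7 (.s k74 k133 10 (.s k138 k202 7 (.d k69 k79 k207 2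
  10)))))] .n) (.c k62 (.l (.s k1 k2 0 (.s k23 k43 5 (.s k21 k42 6 (.s k22 k20 0 (.d k41 k61 k60 5
  6)))))) .n)))) .n))))))))))))))

def t86 : T TT 256 :=
  (.q k12 [(.s k8 k4 1 (.s k46 k29 4 (.s k42 k21 6 (.s k38 k34 1 (.d k25 k59 k51 4 6)))))] (.c k4
  (.f k46 k29 4 (.q k62 [(.s k30 k14 3 (.s k60 k61 0 (.s k44 k28 3 (.d k45 k47 k15 0 4)))), (.s k42
  k21 6 (.s k2 k22 5 (.s k14 k30 3 (.s k6 k10 1 (.d k3 k1 k9 0 2))))), (.s k42 k21 6 (.s k22 k2 5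
  (.s k60 k61 0 (.s k40 k20 5 (.d k41 k43 k3 0 6)))))] (.c k66 (.q k126 [(.s k30 k14 3 (.s k60 k61 0
  (.s k44 k28 3 (.d k45 k47 k15 0 4)))), (.s k42 k21 6 (.s k2 k22 5 (.s k14 k30 3 (.s k6 k10 1 (.d
  k3 k1 k9 0 2))))), (.s k42 k21 6 (.s k22 k2 5 (.s k60 k61 0 (.s k40 k20 5 (.d k41 k43 k3 0 6)))))]
  .n) (.c k126 (.q k66 [(.s k30 k14 3 (.s k60 k61 0 (.s k44 k28 3 (.d k45 k47 k15 0 4)))), (.s k42
  k21 6 (.s k2 k22 5 (.s k14 k30 3 (.s k6 k10 1 (.d k3 k1 k9 0 2))))), (.s k42 k21 6 (.s k22 k2 5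
  (.s k60 k61 0 (.s k40 k20 5 (.d k41 k43 k3 0 6)))))] .n) .n)))) (.c k8 (.f k46 k29 4 (.q k62 [(.s
  k30 k14 3 (.s k60 k61 0 (.s k44 k28 3 (.d k45 k47 k15 0 4)))), (.s k42 k21 6 (.s k2 k22 5 (.s k14
  k30 3 (.s k6 k10 1 (.d k3 k9 k1 2 0))))), (.s k42 k21 6 (.s k22 k2 5 (.s k60 k61 0 (.s k40 k20 5
  (.d k41 k43 k3 0 6)))))] (.c k66 (.q k126 [(.s k30 k14 3 (.s k60 k61 0 (.s k44 k28 3 (.d k45 k47
  k15 0 4)))), (.s k42 k21 6 (.s k2 k22 5 (.s k14 k30 3 (.s k6 k10 1 (.d k3 k9 k1 2 0))))), (.s k42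
  k21 6 (.s k22 k2 5 (.s k60 k61 0 (.s k40 k20 5 (.d k41 k43 k3 0 6)))))] .n) (.c k126 (.q k66 [(.s
  k30 k14 3 (.s k60 k61 0 (.s k44 k28 3 (.d k45 k47 k15 0 4)))), (.s k42 k21 6 (.s k2 k22 5 (.s k14
  k30 3 (.s k6 k10 1 (.d k3 k9 k1 2 0))))), (.s k42 k21 6 (.s k22 k2 5 (.s k60 k61 0 (.s k40 k20 5
  (.d k41 k43 k3 0 6)))))] .n) .n)))) (.c k17 (.l (.s k8 k4 1 (.s k42 k21 6 (.s k25 k59 4 (.s k38
  k51 6 (.d k46 k29 k34 4 1)))))) (.c k21 (.q k170 [(.s k4 k8 1 (.s k85 k255 14 (.s k166 k247 12 (.s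
  k162 k174 1 (.d k243 k81 k89 12 14))))), (.s k255 k85 14 (.s k29 k46 4 (.s k93 k174 12 (.s k157
  k221 7 (.s k110 k204 12 (.d k127 k76 k191 4 7))))))] (.c k66 (.q k126 [(.s k4 k8 1 (.s k85 k255 14
  (.s k166 k247 12 (.s k162 k174 1 (.d k243 k81 k89 12 14))))), (.s k4 k8 1 (.s k252 k189 8 (.s k84
  k168 13 (.s k164 k244 11 (.s k88 k240 13 (.d k92 k80 k172 1 11)))))), (.s k255 k85 14 (.s k29 k46
  4 (.s k93 k174 12 (.s k157 k221 7 (.s k110 k204 12 (.d k127 k76 k191 4 7))))))] .n) (.c k85 (.f k8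
  k4 1 (.l (.s k89 k251 12 (.s k29 k46 4 (.s k166 k243 14 (.s k149 k209 9 (.s k128 k191 6 (.s k132
  k183 4 (.d k192 k64 k72 7 9))))))))) (.c k126 (.q k66 [(.s k4 k8 1 (.s k85 k255 14 (.s k166 k247
  12 (.s k162 k174 1 (.d k243 k81 k89 12 14))))), (.s k255 k85 14 (.s k29 k46 4 (.s k93 k174 12 (.s
  k157 k221 7 (.s k110 k204 12 (.d k127 k76 k191 4 7))))))] (.c k85 (.f k8 k4 1 (.l (.s k89 k251 12
  (.s k29 k46 4 (.s k166 k243 14 (.s k149 k209 9 (.s k128 k191 6 (.s k132 k183 4 (.d k192 k64 k72 7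
  9))))))))) (.c k166 (.l (.s k255 k85 14 (.s k46 k29 4 (.s k174 k93 12 (.s k110 k238 7 (.s k157
  k204 12 (.d k191 k127 k140 7 4))))))) (.c k174 (.l (.s k8 k4 1 (.s k85 k255 14 (.s k89 k251 12 (.s
  k243 k166 14 (.d k81 k93 k162 1 12)))))) (.c k255 (.f k8 k4 1 (.l (.s k89 k251 12 (.s k29 k46 4
  (.s k149 k209 9 (.s k128 k191 6 (.s k192 k64 7 (.s k132 k72 9 (.d k166 k243 k183 14 4)))))))))
  .n))))) (.c k166 (.l (.s k255 k85 14 (.s k46 k29 4 (.s k174 k93 12 (.s k110 k238 7 (.s k157 k204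
  12 (.d k191 k127 k140 7 4))))))) (.c k174 (.l (.s k8 k4 1 (.s k85 k255 14 (.s k89 k251 12 (.s k243
  k166 14 (.d k81 k93 k162 1 12)))))) (.c k255 (.f k8 k4 1 (.l (.s k89 k251 12 (.s k29 k46 4 (.s
  k149 k209 9 (.s k128 k191 6 (.s k192 k64 7 (.s k132 k72 9 (.d k166 k243 k183 14 4)))))))))
  .n))))))) (.c k25 (.f k8 k4 1 (.q k3 [(.s k9 k6 2 (.s k10 k11 0 (.s k5 k15 2 (.d k1 k2 k13 0
  1)))), (.s k21 k42 6 (.s k23 k43 5 (.s k20 k22 0 (.s k40 k60 5 (.s k24 k56 3 (.s k48 k36 5 (.d k16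
  k28 k32 1 3)))))))] (.c k2 (.l (.s k42 k21 6 (.s k6 k9 2 (.s k43 k23 5 (.s k41 k40 0 (.s k22 k60 6
  (.s k38 k54 3 (.d k46 k29 k34 4 1)))))))) (.c k66 (.q k126 [(.s k9 k6 2 (.s k10 k11 0 (.s k5 k15 2
  (.d k1 k2 k13 0 1)))), (.s k252 k189 8 (.s k168 k84 13 (.s k88 k248 11 (.s k164 k240 13 (.d k172
  k160 k92 1 11)))))] .n) (.c k126 (.q k66 [(.s k9 k6 2 (.s k10 k11 0 (.s k5 k15 2 (.d k1 k2 k13 0
  1)))), (.s k192 k129 8 (.s k64 k128 7 (.s k72 k132 9 (.s k136 k200 7 (.d k68 k76 k204 1 9)))))]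
  .n) .n))))) (.c k29 (.f k8 k4 1 (.q k3 [(.s k9 k6 2 (.s k10 k11 0 (.s k5 k15 2 (.d k1 k2 k13 0
  1)))), (.s k1 k2 0 (.s k21 k42 6 (.s k23 k43 5 (.s k22 k20 0 (.d k41 k61 k60 5 6))))), (.s k42 k21
  6 (.s k9 k6 2 (.s k43 k23 5 (.s k25 k59 4 (.d k41 k40 k57 0 3)))))] (.c k66 (.q k126 [(.s k9 k6 2
  (.s k10 k11 0 (.s k5 k15 2 (.d k1 k2 k13 0 1)))), (.s k1 k2 0 (.s k21 k42 6 (.s k23 k43 5 (.s k22
  k20 0 (.d k41 k61 k60 5 6))))), (.s k42 k21 6 (.s k9 k6 2 (.s k43 k23 5 (.s k25 k59 4 (.d k41 k40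
  k57 0 3)))))] .n) (.c k126 (.q k66 [(.s k9 k6 2 (.s k10 k11 0 (.s k5 k15 2 (.d k1 k2 k13 0 1)))),
  (.s k1 k2 0 (.s k21 k42 6 (.s k23 k43 5 (.s k22 k20 0 (.d k41 k61 k60 5 6))))), (.s k42 k21 6 (.s
  k9 k6 2 (.s k43 k23 5 (.s k25 k59 4 (.d k41 k40 k57 0 3)))))] .n) .n)))) (.c k34 (.l (.s k4 k8 1
  (.s k21 k42 6 (.s k38 k55 4 (.s k25 k51 6 (.d k29 k46 k17 4 1)))))) (.c k38 (.f k46 k29 4 (.q k3
  [(.s k2 k1 0 (.s k4 k8 1 (.s k6 k9 2 (.s k10 k14 1 (.d k5 k7 k15 0 2))))), (.s k1 k2 0 (.s k21 k42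
  6 (.s k23 k43 5 (.s k22 k20 0 (.d k41 k61 k60 5 6))))), (.s k42 k21 6 (.s k9 k6 2 (.s k43 k23 5
  (.s k41 k40 0 (.s k25 k57 3 (.d k8 k4 k59 1 4))))))] (.c k66 (.q k126 [(.s k2 k1 0 (.s k4 k8 1 (.s
  k6 k9 2 (.s k10 k14 1 (.d k5 k7 k15 0 2))))), (.s k1 k2 0 (.s k21 k42 6 (.s k23 k43 5 (.s k22 k20
  0 (.d k41 k61 k60 5 6))))), (.s k4 k8 1 (.s k252 k189 8 (.s k84 k168 13 (.s k164 k244 11 (.s k88
  k240 13 (.d k92 k80 k172 1 11))))))] .n) (.c k126 (.q k66 [(.s k1 k2 0 (.s k129 k192 8 (.s k65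
  k193 7 (.s k195 k130 8 (.d k67 k64 k131 0 7))))), (.s k2 k1 0 (.s k4 k8 1 (.s k6 k9 2 (.s k10 k14
  1 (.d k5 k7 k15 0 2))))), (.s k4 k8 1 (.s k192 k129 8 (.s k128 k64 7 (.s k132 k72 9 (.s k68 k196 7
  (.d k136 k140 k204 1 9))))))] .n) .n)))) (.c k42 (.q k170 [(.s k4 k8 1 (.s k85 k255 14 (.s k166
  k247 12 (.s k162 k174 1 (.d k243 k81 k89 12 14))))), (.s k255 k85 14 (.s k29 k46 4 (.s k93 k174 12
  (.s k157 k221 7 (.s k110 k204 12 (.d k127 k76 k191 4 7))))))] (.c k66 (.q k126 [(.s k4 k8 1 (.s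
  k85 k255 14 (.s k166 k247 12 (.s k162 k174 1 (.d k243 k81 k89 12 14))))), (.s k255 k85 14 (.s k29
  k46 4 (.s k93 k174 12 (.s k157 k221 7 (.s k110 k204 12 (.d k127 k76 k191 4 7)))))), (.s k4 k8 1
  (.s k252 k189 8 (.s k84 k168 13 (.s k164 k244 11 (.s k88 k240 13 (.d k92 k80 k172 1 11))))))] .n)
  (.c k85 (.f k8 k4 1 (.l (.s k89 k251 12 (.s k29 k46 4 (.s k166 k243 14 (.s k149 k209 9 (.s k128
  k191 6 (.s k132 k183 4 (.d k192 k64 k72 7 9))))))))) (.c k126 (.q k66 [(.s k4 k8 1 (.s k85 k255 14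
  (.s k166 k247 12 (.s k162 k174 1 (.d k243 k81 k89 12 14))))), (.s k255 k85 14 (.s k29 k46 4 (.s
  k93 k174 12 (.s k157 k221 7 (.s k110 k204 12 (.d k127 k76 k191 4 7))))))] (.c k85 (.f k8 k4 1 (.l
  (.s k89 k251 12 (.s k29 k46 4 (.s k166 k243 14 (.s k149 k209 9 (.s k128 k191 6 (.s k132 k183 4 (.d
  k192 k64 k72 7 9))))))))) (.c k166 (.l (.s k255 k85 14 (.s k46 k29 4 (.s k174 k93 12 (.s k110 k238
  7 (.s k157 k204 12 (.d k191 k127 k140 7 4))))))) (.c k174 (.l (.s k8 k4 1 (.s k85 k255 14 (.s k89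
  k251 12 (.s k243 k166 14 (.d k81 k93 k162 1 12)))))) (.c k255 (.f k8 k4 1 (.l (.s k89 k251 12 (.s
  k29 k46 4 (.s k149 k209 9 (.s k128 k191 6 (.s k192 k64 7 (.s k132 k72 9 (.d k166 k243 k183 14
  4))))))))) .n))))) (.c k166 (.l (.s k255 k85 14 (.s k46 k29 4 (.s k174 k93 12 (.s k110 k238 7 (.s
  k157 k204 12 (.d k191 k127 k140 7 4))))))) (.c k174 (.l (.s k8 k4 1 (.s k85 k255 14 (.s k89 k251
  12 (.s k243 k166 14 (.d k81 k93 k162 1 12)))))) (.c k255 (.f k8 k4 1 (.l (.s k89 k251 12 (.s k29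
  k46 4 (.s k149 k209 9 (.s k128 k191 6 (.s k192 k64 7 (.s k132 k72 9 (.d k166 k243 k183 14
  4))))))))) .n))))))) (.c k46 (.q k166 [(.s k4 k8 1 (.s k85 k247 12 (.s k170 k255 14 (.s k162 k174
  1 (.d k243 k81 k89 12 14))))), (.s k4 k8 1 (.s k21 k42 6 (.s k85 k247 12 (.s k149 k213 7 (.s k132
  k183 4 (.s k196 k68 7 (.d k55 k38 k102 4 12))))))), (.s k21 k42 6 (.s k243 k89 14 (.s k162 k81 12
  (.s k170 k174 1 (.s k85 k255 14 (.s k149 k213 7 (.d k183 k123 k132 9 4)))))))] (.c k66 (.q k126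
  [(.s k4 k8 1 (.s k85 k247 12 (.s k170 k255 14 (.s k162 k174 1 (.d k243 k81 k89 12 14))))), (.s k4
  k8 1 (.s k252 k189 8 (.s k84 k168 13 (.s k164 k244 11 (.s k88 k240 13 (.d k92 k80 k172 1 11)))))),
  (.s k21 k42 6 (.s k243 k89 14 (.s k162 k81 12 (.s k170 k174 1 (.s k85 k255 14 (.s k149 k213 7 (.d
  k183 k123 k132 9 4)))))))] .n) (.c k85 (.f k8 k4 1 (.l (.s k42 k21 6 (.s k25 k59 4 (.s k89 k243 14
  (.s k153 k217 7 (.s k140 k179 6 (.s k204 k76 7 (.d k51 k38 k102 6 14))))))))) (.c k126 (.q k66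
  [(.s k4 k8 1 (.s k85 k247 12 (.s k170 k255 14 (.s k162 k174 1 (.d k243 k81 k89 12 14))))), (.s k4
  k8 1 (.s k21 k42 6 (.s k85 k247 12 (.s k149 k213 7 (.s k132 k183 4 (.s k196 k68 7 (.d k55 k38 k102
  4 12))))))), (.s k21 k42 6 (.s k243 k89 14 (.s k162 k81 12 (.s k170 k174 1 (.s k85 k255 14 (.s
  k149 k213 7 (.d k183 k123 k132 9 4)))))))] (.c k85 (.f k8 k4 1 (.l (.s k42 k21 6 (.s k25 k59 4 (.s
  k89 k243 14 (.s k153 k217 7 (.s k140 k179 6 (.s k204 k76 7 (.d k51 k38 k102 6 14))))))))) (.c k170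
  (.f k8 k4 1 (.l (.s k42 k21 6 (.s k25 k59 4 (.s k89 k243 14 (.s k153 k217 7 (.s k140 k179 6 (.s
  k204 k76 7 (.d k51 k38 k102 6 14))))))))) .n))) (.c k170 (.f k8 k4 1 (.l (.s k42 k21 6 (.s k25 k59
  4 (.s k89 k243 14 (.s k153 k217 7 (.s k140 k179 6 (.s k204 k76 7 (.d k51 k38 k102 6 14)))))))))
  .n))))) (.c k51 (.f k8 k4 1 (.q k3 [(.s k9 k6 2 (.s k10 k11 0 (.s k5 k15 2 (.d k1 k2 k13 0 1)))),
  (.s k1 k2 0 (.s k21 k42 6 (.s k41 k61 5 (.s k22 k60 6 (.d k23 k20 k43 0 5))))), (.s k42 k21 6 (.s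
  k9 k6 2 (.s k43 k23 5 (.s k25 k59 4 (.d k41 k40 k57 0 3)))))] (.c k66 (.q k126 [(.s k9 k6 2 (.s
  k10 k11 0 (.s k5 k15 2 (.d k1 k2 k13 0 1)))), (.s k1 k2 0 (.s k21 k42 6 (.s k41 k61 5 (.s k22 k60
  6 (.d k23 k20 k43 0 5))))), (.s k42 k21 6 (.s k9 k6 2 (.s k43 k23 5 (.s k25 k59 4 (.d k41 k40 k57
  0 3)))))] .n) (.c k126 (.q k66 [(.s k9 k6 2 (.s k10 k11 0 (.s k5 k15 2 (.d k1 k2 k13 0 1)))), (.s
  k1 k2 0 (.s k21 k42 6 (.s k41 k61 5 (.s k22 k60 6 (.d k23 k20 k43 0 5))))), (.s k42 k21 6 (.s k9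
  k6 2 (.s k43 k23 5 (.s k25 k59 4 (.d k41 k40 k57 0 3)))))] .n) .n)))) (.c k55 (.l (.s k8 k4 1 (.s
  k46 k29 4 (.s k42 k21 6 (.s k38 k34 1 (.d k25 k59 k51 4 6)))))) (.c k59 (.l (.s k4 k8 1 (.s k29
  k46 4 (.s k21 k42 6 (.s k25 k17 1 (.d k38 k55 k51 4 6)))))) (.c k66 (.q k126 [(.s k8 k4 1 (.s k46
  k29 4 (.s k42 k21 6 (.s k38 k34 1 (.d k25 k59 k51 4 6))))), (.s k4 k8 1 (.s k252 k189 8 (.s k84
  k168 13 (.s k164 k244 11 (.s k88 k240 13 (.d k92 k80 k172 1 11))))))] (.c k4 (.q k8 [(.s k46 k29 4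
  (.s k42 k21 6 (.s k38 k34 1 (.d k25 k59 k51 4 6)))), (.s k252 k189 8 (.s k168 k84 13 (.s k88 k248
  11 (.s k164 k240 13 (.d k172 k160 k92 1 11)))))] .n) (.c k8 (.q k62 [(.s k46 k29 4 (.s k30 k14 3
  (.s k60 k61 0 (.s k44 k28 3 (.d k45 k47 k15 0 4))))), (.s k42 k21 6 (.s k22 k2 5 (.s k60 k61 0 (.s
  k40 k20 5 (.d k41 k43 k3 0 6))))), (.s k42 k21 6 (.s k2 k22 5 (.s k46 k29 4 (.s k14 k30 3 (.s k6
  k10 1 (.d k3 k9 k1 2 0))))))] .n) .n))) (.c k126 (.q k66 [(.s k8 k4 1 (.s k46 k29 4 (.s k42 k21 6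
  (.s k38 k34 1 (.d k25 k59 k51 4 6)))))] (.c k4 (.q k62 [(.s k46 k29 4 (.s k30 k14 3 (.s k60 k61 0
  (.s k44 k28 3 (.d k45 k47 k15 0 4))))), (.s k42 k21 6 (.s k22 k2 5 (.s k60 k61 0 (.s k40 k20 5 (.d
  k41 k43 k3 0 6))))), (.s k42 k21 6 (.s k2 k22 5 (.s k46 k29 4 (.s k14 k30 3 (.s k6 k10 1 (.d k3 k1
  k9 0 2))))))] .n) (.c k8 (.q k62 [(.s k46 k29 4 (.s k30 k14 3 (.s k60 k61 0 (.s k44 k28 3 (.d k45
  k47 k15 0 4))))), (.s k42 k21 6 (.s k22 k2 5 (.s k60 k61 0 (.s k40 k20 5 (.d k41 k43 k3 0 6))))),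
  (.s k42 k21 6 (.s k2 k22 5 (.s k46 k29 4 (.s k14 k30 3 (.s k6 k10 1 (.d k3 k9 k1 2 0))))))] .n)
  (.c k17 (.l (.s k8 k4 1 (.s k42 k21 6 (.s k25 k59 4 (.s k38 k51 6 (.d k46 k29 k34 4 1)))))) (.c
  k21 (.q k3 [(.s k1 k2 0 (.s k129 k192 8 (.s k65 k193 7 (.s k195 k130 8 (.d k67 k64 k131 0 7))))),
  (.s k2 k1 0 (.s k4 k8 1 (.s k6 k9 2 (.s k10 k14 1 (.d k5 k7 k15 0 2))))), (.s k4 k8 1 (.s k192
  k129 8 (.s k128 k64 7 (.s k132 k72 9 (.s k68 k196 7 (.d k136 k140 k204 1 9))))))] .n) (.c k25 (.q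
  k3 [(.s k1 k2 0 (.s k129 k192 8 (.s k65 k193 7 (.s k195 k130 8 (.d k67 k64 k131 0 7))))), (.s k4
  k8 1 (.s k6 k9 2 (.s k23 k43 5 (.s k7 k5 0 (.s k55 k39 3 (.d k21 k42 k38 6 4))))))] (.c k1 (.l (.s
  k4 k8 1 (.s k192 k129 8 (.s k128 k64 7 (.s k132 k72 9 (.s k68 k196 7 (.d k136 k140 k204 1 9)))))))
  .n)) (.c k29 (.q k3 [(.s k2 k1 0 (.s k4 k8 1 (.s k6 k9 2 (.s k10 k14 1 (.d k5 k7 k15 0 2))))), (.s
  k1 k2 0 (.s k21 k42 6 (.s k23 k43 5 (.s k22 k20 0 (.d k41 k61 k60 5 6))))), (.s k4 k8 1 (.s k21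
  k42 6 (.s k6 k9 2 (.s k23 k43 5 (.s k38 k55 4 (.d k22 k20 k54 0 3))))))] .n) (.c k34 (.l (.s k4 k8
  1 (.s k21 k42 6 (.s k38 k55 4 (.s k25 k51 6 (.d k29 k46 k17 4 1)))))) (.c k38 (.q k3 [(.s k1 k2 0
  (.s k129 k192 8 (.s k65 k193 7 (.s k195 k130 8 (.d k67 k64 k131 0 7))))), (.s k2 k1 0 (.s k4 k8 1
  (.s k6 k9 2 (.s k10 k14 1 (.d k5 k7 k15 0 2))))), (.s k4 k8 1 (.s k192 k129 8 (.s k128 k64 7 (.s
  k132 k72 9 (.s k68 k196 7 (.d k136 k140 k204 1 9))))))] .n) (.c k42 (.q k170 [(.s k4 k8 1 (.s k85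
  k255 14 (.s k166 k247 12 (.s k162 k174 1 (.d k243 k81 k89 12 14))))), (.s k255 k85 14 (.s k29 k46
  4 (.s k93 k174 12 (.s k157 k221 7 (.s k110 k204 12 (.d k127 k76 k191 4 7))))))] (.c k85 (.f k8 k4
  1 (.l (.s k89 k251 12 (.s k29 k46 4 (.s k166 k243 14 (.s k149 k209 9 (.s k128 k191 6 (.s k132 k183
  4 (.d k192 k64 k72 7 9))))))))) (.c k166 (.l (.s k255 k85 14 (.s k46 k29 4 (.s k174 k93 12 (.s
  k110 k238 7 (.s k157 k204 12 (.d k191 k127 k140 7 4))))))) (.c k174 (.l (.s k8 k4 1 (.s k85 k255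
  14 (.s k89 k251 12 (.s k243 k166 14 (.d k81 k93 k162 1 12)))))) (.c k255 (.f k8 k4 1 (.l (.s k89
  k251 12 (.s k29 k46 4 (.s k149 k209 9 (.s k128 k191 6 (.s k192 k64 7 (.s k132 k72 9 (.d k166 k243
  k183 14 4))))))))) .n))))) (.c k46 (.q k166 [(.s k4 k8 1 (.s k85 k247 12 (.s k170 k255 14 (.s k162
  k174 1 (.d k243 k81 k89 12 14))))), (.s k4 k8 1 (.s k21 k42 6 (.s k85 k247 12 (.s k149 k213 7 (.s
  k132 k183 4 (.s k196 k68 7 (.d k55 k38 k102 4 12))))))), (.s k21 k42 6 (.s k243 k89 14 (.s k162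
  k81 12 (.s k170 k174 1 (.s k85 k255 14 (.s k149 k213 7 (.d k183 k123 k132 9 4)))))))] (.c k85 (.f
  k8 k4 1 (.l (.s k42 k21 6 (.s k25 k59 4 (.s k89 k243 14 (.s k153 k217 7 (.s k140 k179 6 (.s k204
  k76 7 (.d k51 k38 k102 6 14))))))))) (.c k170 (.f k8 k4 1 (.l (.s k42 k21 6 (.s k25 k59 4 (.s k89
  k243 14 (.s k153 k217 7 (.s k140 k179 6 (.s k204 k76 7 (.d k51 k38 k102 6 14))))))))) .n))) (.c
  k51 (.q k3 [(.s k2 k1 0 (.s k4 k8 1 (.s k6 k9 2 (.s k10 k14 1 (.d k5 k7 k15 0 2))))), (.s k1 k2 0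
  (.s k21 k42 6 (.s k41 k61 5 (.s k22 k60 6 (.d k23 k20 k43 0 5))))), (.s k4 k8 1 (.s k21 k42 6 (.s
  k6 k9 2 (.s k23 k43 5 (.s k38 k55 4 (.d k22 k20 k54 0 3))))))] .n) (.c k55 (.l (.s k8 k4 1 (.s k46
  k29 4 (.s k42 k21 6 (.s k38 k34 1 (.d k25 k59 k51 4 6)))))) (.c k59 (.l (.s k4 k8 1 (.s k29 k46 4
  (.s k21 k42 6 (.s k25 k17 1 (.d k38 k55 k51 4 6)))))) .n)))))))))))))) .n))))))))))))))))

def t87 : T TT 256 :=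
  (.q k48 [(.s k32 k16 3 (.s k58 k53 2 (.s k42 k21 6 (.s k26 k10 3 (.d k37 k47 k15 2 6)))))] (.c k5
  (.l (.s k32 k16 3 (.s k42 k21 6 (.s k37 k47 2 (.s k26 k15 6 (.d k58 k53 k10 2 3)))))) (.c k10 (.l
  (.s k16 k32 3 (.s k21 k42 6 (.s k26 k31 2 (.s k37 k15 6 (.d k53 k58 k5 2 3)))))) (.c k15 (.q k2
  [(.s k3 k1 0 (.s k16 k32 3 (.s k18 k33 4 (.s k34 k50 3 (.d k17 k19 k51 0 4))))), (.s k3 k1 0 (.s
  k42 k21 6 (.s k22 k62 5 (.s k41 k60 6 (.d k43 k40 k23 0 5))))), (.s k42 k21 6 (.s k62 k22 5 (.s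
  k58 k53 2 (.s k50 k54 1 (.s k34 k18 3 (.d k51 k49 k17 0 4))))))] .n) (.c k16 (.q k51 [(.s k17 k34
  4 (.s k21 k42 6 (.s k25 k29 1 (.s k38 k12 6 (.d k55 k59 k4 1 4))))), (.s k49 k50 0 (.s k53 k58 2
  (.s k57 k61 1 (.s k54 k60 2 (.d k55 k52 k59 0 1))))), (.s k17 k34 4 (.s k21 k42 6 (.s k25 k29 1
  (.s k49 k50 0 (.s k37 k13 5 (.d k53 k58 k5 2 3))))))] .n) (.c k21 (.q k122 [(.s k53 k58 2 (.s k181
  k240 10 (.s k117 k245 7 (.s k255 k186 10 (.d k127 k112 k191 2 7))))), (.s k16 k32 3 (.s k240 k181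
  10 (.s k80 k160 11 (.s k144 k208 7 (.s k96 k192 11 (.d k112 k64 k176 3 7)))))), (.s k32 k16 3 (.s
  k58 k53 2 (.s k186 k250 7 (.s k255 k117 10 (.s k170 k85 14 (.s k101 k239 10 (.d k154 k138 k207 3
  14)))))))] (.c k181 (.q k51 [(.s k16 k32 3 (.s k17 k34 4 (.s k18 k19 0 (.s k49 k50 0 (.d k33 k1 k3
  3 4))))), (.s k58 k53 2 (.s k59 k55 1 (.s k186 k250 7 (.s k185 k248 8 (.s k184 k187 0 (.d k252
  k118 k116 10 9))))))] .n) .n)) (.c k26 (.q k51 [(.s k32 k16 3 (.s k50 k49 0 (.s k34 k17 4 (.s k18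
  k2 3 (.d k33 k35 k3 0 4))))), (.s k49 k50 0 (.s k53 k58 2 (.s k57 k61 1 (.s k54 k60 2 (.d k55 k52
  k59 0 1))))), (.s k17 k34 4 (.s k21 k42 6 (.s k25 k29 1 (.s k38 k12 6 (.d k55 k59 k4 1 4)))))] .n)
  (.c k31 (.l (.s k32 k16 3 (.s k58 k53 2 (.s k42 k21 6 (.s k26 k10 3 (.d k37 k47 k15 2 6)))))) (.c
  k32 (.q k51 [(.s k34 k17 4 (.s k59 k55 1 (.s k42 k21 6 (.s k25 k8 4 (.d k38 k46 k12 1 6))))), (.s
  k49 k50 0 (.s k53 k58 2 (.s k57 k61 1 (.s k54 k60 2 (.d k55 k52 k59 0 1))))), (.s k17 k34 4 (.s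
  k21 k42 6 (.s k25 k29 1 (.s k49 k50 0 (.s k37 k13 5 (.d k53 k58 k5 2 3))))))] .n) (.c k37 (.q k51
  [(.s k32 k16 3 (.s k34 k17 4 (.s k33 k35 0 (.s k18 k3 4 (.d k50 k49 k2 0 3))))), (.s k49 k50 0 (.s
  k53 k58 2 (.s k57 k61 1 (.s k54 k60 2 (.d k55 k52 k59 0 1))))), (.s k17 k34 4 (.s k21 k42 6 (.s
  k25 k29 1 (.s k38 k12 6 (.d k55 k59 k4 1 4)))))] .n) (.c k42 (.q k122 [(.s k58 k53 2 (.s k186 k250
  7 (.s k255 k117 10 (.s k181 k240 10 (.d k191 k176 k127 2 7))))), (.s k16 k32 3 (.s k240 k181 10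
  (.s k80 k160 11 (.s k144 k208 7 (.s k96 k192 11 (.d k112 k64 k176 3 7)))))), (.s k32 k16 3 (.s k58
  k53 2 (.s k186 k250 7 (.s k255 k117 10 (.s k170 k85 14 (.s k101 k239 10 (.d k154 k138 k207 3
  14)))))))] (.c k170 (.q k234 [(.s k58 k53 2 (.s k186 k250 7 (.s k255 k117 10 (.s k181 k240 10 (.d
  k191 k176 k127 2 7))))), (.s k16 k32 3 (.s k240 k181 10 (.s k80 k160 11 (.s k144 k208 7 (.s k96
  k192 11 (.d k112 k64 k176 3 7))))))] (.c k176 (.l (.s k53 k58 2 (.s k181 k240 10 (.s k117 k245 7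
  (.s k255 k186 10 (.d k127 k112 k191 2 7)))))) (.c k181 (.q k51 [(.s k32 k16 3 (.s k34 k17 4 (.s
  k33 k35 0 (.s k18 k3 4 (.d k50 k49 k2 0 3))))), (.s k58 k53 2 (.s k59 k55 1 (.s k186 k250 7 (.s
  k185 k248 8 (.s k184 k187 0 (.d k252 k118 k116 10 9))))))] .n) (.c k240 (.q k51 [(.s k32 k16 3 (.s
  k34 k17 4 (.s k33 k35 0 (.s k18 k3 4 (.d k50 k49 k2 0 3))))), (.s k58 k53 2 (.s k59 k55 1 (.s k186
  k250 7 (.s k255 k117 10 (.s k187 k119 9 (.d k185 k184 k248 0 8))))))] (.c k255 (.l (.s k16 k32 3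
  (.s k17 k34 4 (.s k18 k19 0 (.s k49 k50 0 (.d k33 k1 k3 3 4)))))) .n)) .n)))) (.c k181 (.q k170
  [(.s k58 k53 2 (.s k186 k250 7 (.d k255 k117 k85 10 14))), (.s k16 k32 3 (.s k85 k255 14 (.s k154
  k223 10 (.s k207 k101 14 (.d k138 k186 k69 3 10))))), (.s k32 k16 3 (.s k101 k239 10 (.s k58 k53 2
  (.s k186 k250 7 (.d k154 k138 k207 3 14)))))] (.c k186 (.l (.s k32 k16 3 (.s k85 k255 14 (.s k101
  k239 10 (.s k207 k154 14 (.d k69 k117 k138 3 10)))))) .n)) (.c k234 (.q k170 [(.s k58 k53 2 (.s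
  k186 k250 7 (.d k255 k117 k85 10 14))), (.s k255 k85 14 (.s k127 k191 7 (.s k112 k117 2 (.d k240
  k176 k181 7 10)))), (.s k32 k16 3 (.s k101 k239 10 (.s k58 k53 2 (.s k186 k250 7 (.d k154 k138
  k207 3 14)))))] .n) .n)))) (.c k47 (.l (.s k16 k32 3 (.s k53 k58 2 (.s k21 k42 6 (.s k37 k5 3 (.d
  k26 k31 k15 2 6)))))) (.c k53 (.q k51 [(.s k16 k32 3 (.s k49 k50 0 (.s k17 k34 4 (.s k33 k1 3 (.d
  k18 k19 k3 0 4))))), (.s k17 k34 4 (.s k21 k42 6 (.s k25 k29 1 (.s k38 k12 6 (.d k55 k59 k4 1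
  4))))), (.s k16 k32 3 (.s k21 k42 6 (.s k26 k31 2 (.s k50 k49 0 (.s k38 k14 5 (.d k55 k59 k4 1
  4))))))] .n) (.c k58 (.f k16 k32 3 (.q k51 [(.s k49 k50 0 (.s k17 k34 4 (.s k33 k1 3 (.d k18 k19
  k3 0 4)))), (.s k21 k42 6 (.s k26 k31 2 (.s k50 k49 0 (.s k38 k14 5 (.d k55 k59 k4 1 4))))), (.s
  k17 k34 4 (.s k21 k42 6 (.s k25 k29 1 (.s k38 k12 6 (.d k55 k59 k4 1 4)))))] (.c k154 (.q k202
  [(.s k17 k34 4 (.s k18 k19 0 (.s k33 k3 4 (.d k49 k50 k1 0 3)))), (.s k21 k42 6 (.s k26 k31 2 (.s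
  k50 k49 0 (.s k38 k14 5 (.d k55 k59 k4 1 4))))), (.s k17 k34 4 (.s k21 k42 6 (.s k25 k29 1 (.s k38
  k12 6 (.d k55 k59 k4 1 4)))))] .n) (.c k202 (.q k154 [(.s k17 k34 4 (.s k49 k50 0 (.s k33 k1 3 (.d
  k18 k19 k3 0 4)))), (.s k207 k101 14 (.s k138 k69 10 (.s k170 k186 3 (.d k85 k223 k255 10 14))))]
  .n) .n)))) .n))))))))))))))

theorem c43 : rootOK2 k63 k106 k43 t43 = true := by decide +kernel

theorem c47 : rootOK2 k63 k106 k47 t47 = true := by decide +kernel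

theorem c64 : rootOK2 k63 k106 k64 t64 = true := by decide +kernel

theorem c65 : rootOK2 k63 k106 k65 t65 = true := by decide +kernel

theorem c66 : rootOK2 k63 k106 k66 t66 = true := by decide +kernel

theorem c67 : rootOK2 k63 k106 k67 t67 = true := by decide +kernel

theorem c69 : rootOK2 k63 k106 k69 t69 = true := by decide +kernel

theorem c70 : rootOK2 k63 k106 k70 t70 = true := by decide +kernel

theorem c71 : rootOK2 k63 k106 k71 t71 = true := by decide +kernel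

theorem c74 : rootOK2 k63 k106 k74 t74 = true := by decide +kernel

theorem c75 : rootOK2 k63 k106 k75 t75 = true := by decide +kernel

theorem c79 : rootOK2 k63 k106 k79 t79 = true := by decide +kernel

theorem c85 : rootOK2 k63 k106 k85 t85 = true := by decide +kernel

theorem c86 : rootOK2 k63 k106 k86 t86 = true := by decide +kernel

theorem c87 : rootOK2 k63 k106 k87 t87 = true := by decide +kernel

def l : List Nat :=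
  [k43.c, k47.c, k64.c, k65.c, k66.c, k67.c, k69.c, k70.c, k71.c, k74.c, k75.c, k79.c, k85.c, k86.c,
  k87.c]

theorem ok : AllQ k63.c k106.c l :=
  allQ_cons c43 (allQ_cons c47 (allQ_cons c64 (allQ_cons c65 (allQ_cons c66 (allQ_cons c67 (
  allQ_cons c69 (allQ_cons c70 (allQ_cons c71 (allQ_cons c74 (allQ_cons c75 (allQ_cons c79 (
  allQ_cons c85 (allQ_cons c86 (allQ_cons c87 (allQ_nil _ _)))))))))))))))

end Pool.Agent.TTT.H04
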