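import Pool.Agent.TTT.Sym2

set_option autoImplicit false
set_option maxRecDepth 100000

namespace Pool.Agent.TTT.H05

def t90 : T TT 256 :=
  (.f k42 k21 6 (.q k58 [(.s k26 k10 3 (.s k48 k53 2 (.s k32 k16 3 (.d k37 k47 k15 2 6)))), (.s k48
  k53 2 (.s k32 k16 3 (.s k37 k47 2 (.d k26 k10 k15 3 6))))] (.c k5 (.l (.s k26 k10 3 (.s k48 k53 2
  (.s k37 k15 6 (.d k32 k47 k16 2 3))))) (.c k10 (.q k2 [(.s k3 k1 0 (.s k43 k23 5 (.s k41 k40 0 (.d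
  k22 k62 k60 5 6)))), (.s k62 k22 5 (.s k48 k53 2 (.s k50 k54 1 (.s k34 k18 3 (.d k51 k49 k17 0
  4))))), (.s k3 k1 0 (.s k48 k53 2 (.s k16 k32 3 (.s k18 k33 4 (.s k34 k50 3 (.d k17 k19 k51 0
  4))))))] (.c k74 (.q k122 [(.s k3 k1 0 (.s k43 k23 5 (.s k41 k40 0 (.d k22 k62 k60 5 6)))), (.s
  k48 k53 2 (.s k240 k181 10 (.s k112 k176 7 (.s k117 k127 2 (.d k186 k250 k255 7 10)))))] (.c k138
  (.q k202 [(.s k3 k1 0 (.s k43 k23 5 (.s k41 k40 0 (.d k22 k62 k60 5 6)))), (.s k48 k53 2 (.s k240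
  k181 10 (.s k112 k176 7 (.s k117 k127 2 (.d k186 k250 k255 7 10)))))] (.c k170 (.f k250 k186 7 (.q
  k154 [(.s k3 k1 0 (.s k22 k62 5 (.s k41 k60 6 (.d k43 k40 k23 0 5)))), (.s k48 k53 2 (.s k207 k101
  14 (.s k240 k181 10 (.d k218 k234 k229 3 6))))] .n)) (.c k250 (.q k170 [(.s k3 k1 0 (.s k43 k23 5
  (.s k41 k40 0 (.d k22 k62 k60 5 6)))), (.s k255 k85 14 (.s k48 k53 2 (.s k117 k186 10 (.d k127
  k112 k191 2 7))))] .n) .n))) (.c k170 (.l (.s k250 k186 7 (.s k3 k1 0 (.s k22 k62 5 (.s k41 k60 6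
  (.d k43 k40 k23 0 5)))))) (.c k202 (.q k138 [(.s k3 k1 0 (.s k43 k23 5 (.s k41 k40 0 (.d k22 k62
  k60 5 6)))), (.s k207 k69 10 (.s k48 k53 2 (.s k154 k101 14 (.d k186 k170 k250 3 7))))] (.c k170
  (.l (.s k250 k186 7 (.s k3 k1 0 (.s k22 k62 5 (.s k41 k60 6 (.d k43 k40 k23 0 5)))))) (.c k250 (.q
  k170 [(.s k207 k69 10 (.s k154 k186 3 (.d k48 k53 k101 2 14))), (.s k3 k1 0 (.s k22 k62 5 (.s k41
  k60 6 (.d k43 k40 k23 0 5))))] (.c k218 (.q k234 [(.s k207 k69 10 (.s k154 k186 3 (.d k48 k53 k101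
  2 14))), (.s k3 k1 0 (.s k22 k62 5 (.s k41 k60 6 (.d k43 k40 k23 0 5))))] (.c k26 (.l (.s k154
  k186 3 (.s k207 k69 10 (.d k48 k53 k101 2 14)))) (.c k154 (.q k26 [(.s k48 k53 2 (.s k32 k16 3 (.d
  k37 k47 k15 2 6))), (.s k3 k1 0 (.s k22 k62 5 (.s k41 k60 6 (.d k43 k40 k23 0 5))))] .n) .n))) (.c
  k234 (.q k218 [(.s k240 k181 10 (.d k207 k229 k69 6 10)), (.s k255 k85 14 (.s k48 k53 2 (.d k186
  k154 k117 3 10)))] .n) .n))) .n))) (.c k250 (.q k170 [(.s k3 k1 0 (.s k43 k23 5 (.s k41 k40 0 (.d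
  k22 k62 k60 5 6)))), (.s k255 k85 14 (.s k48 k53 2 (.s k117 k186 10 (.d k127 k112 k191 2 7))))]
  (.c k138 (.q k202 [(.s k3 k1 0 (.s k43 k23 5 (.s k41 k40 0 (.d k22 k62 k60 5 6)))), (.s k255 k85
  14 (.s k48 k53 2 (.s k117 k186 10 (.d k127 k112 k191 2 7))))] .n) (.c k202 (.q k138 [(.s k207 k69
  10 (.s k154 k186 3 (.d k48 k53 k101 2 14))), (.s k3 k1 0 (.s k22 k62 5 (.s k41 k60 6 (.d k43 k40
  k23 0 5))))] (.c k218 (.q k234 [(.s k207 k69 10 (.s k154 k186 3 (.d k48 k53 k101 2 14))), (.s k3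
  k1 0 (.s k22 k62 5 (.s k41 k60 6 (.d k43 k40 k23 0 5))))] (.c k26 (.l (.s k154 k186 3 (.s k207 k69
  10 (.d k48 k53 k101 2 14)))) (.c k154 (.q k26 [(.s k48 k53 2 (.s k32 k16 3 (.d k37 k47 k15 2 6))),
  (.s k3 k1 0 (.s k22 k62 5 (.s k41 k60 6 (.d k43 k40 k23 0 5))))] .n) .n))) (.c k234 (.q k218 [(.s
  k240 k181 10 (.d k207 k229 k69 6 10)), (.s k255 k85 14 (.s k48 k53 2 (.d k186 k154 k117 3 10)))]
  .n) .n))) .n))) .n))))) (.c k122 (.q k74 [(.s k3 k1 0 (.s k43 k23 5 (.s k41 k40 0 (.d k22 k62 k60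
  5 6)))), (.s k62 k22 5 (.s k48 k53 2 (.s k50 k54 1 (.s k34 k18 3 (.d k51 k49 k17 0 4))))), (.s k3
  k1 0 (.s k48 k53 2 (.s k16 k32 3 (.s k18 k33 4 (.s k34 k50 3 (.d k17 k19 k51 0 4))))))] (.c k170
  (.q k250 [(.s k3 k1 0 (.s k43 k23 5 (.s k41 k40 0 (.d k22 k62 k60 5 6)))), (.s k62 k22 5 (.s k48
  k53 2 (.s k50 k54 1 (.s k34 k18 3 (.d k51 k49 k17 0 4))))), (.s k3 k1 0 (.s k48 k53 2 (.s k16 k32
  3 (.s k18 k33 4 (.s k34 k50 3 (.d k17 k19 k51 0 4))))))] .n) (.c k250 (.q k170 [(.s k3 k1 0 (.s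
  k43 k23 5 (.s k41 k40 0 (.d k22 k62 k60 5 6)))), (.s k85 k255 14 (.s k86 k254 13 (.s k84 k87 0 (.s
  k252 k168 13 (.d k3 k1 k169 0 14))))), (.s k255 k85 14 (.s k62 k22 5 (.s k254 k86 13 (.s k126 k190
  7 (.d k252 k253 k189 0 8)))))] .n) .n))) (.c k170 (.q k250 [(.s k3 k1 0 (.s k22 k62 5 (.s k41 k60
  6 (.d k43 k40 k23 0 5)))), (.s k62 k22 5 (.s k48 k53 2 (.s k50 k54 1 (.s k34 k18 3 (.d k51 k49 k17
  0 4))))), (.s k3 k1 0 (.s k48 k53 2 (.s k16 k32 3 (.s k18 k33 4 (.s k34 k50 3 (.d k17 k19 k51 0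
  4))))))] (.c k74 (.l (.s k122 k186 7 (.s k3 k1 0 (.s k22 k62 5 (.s k41 k60 6 (.d k43 k40 k23 0
  5)))))) (.c k122 (.q k74 [(.s k3 k1 0 (.s k43 k23 5 (.s k41 k40 0 (.d k22 k62 k60 5 6)))), (.s k62
  k22 5 (.s k48 k53 2 (.s k50 k54 1 (.s k34 k18 3 (.d k51 k49 k17 0 4))))), (.s k3 k1 0 (.s k48 k53
  2 (.s k16 k32 3 (.s k18 k33 4 (.s k34 k50 3 (.d k17 k19 k51 0 4))))))] .n) .n))) (.c k250 (.q k170
  [(.s k3 k1 0 (.s k43 k23 5 (.s k41 k40 0 (.d k22 k62 k60 5 6)))), (.s k85 k255 14 (.s k86 k254 13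
  (.s k84 k87 0 (.s k252 k168 13 (.d k3 k1 k169 0 14))))), (.s k255 k85 14 (.s k62 k22 5 (.s k254
  k86 13 (.s k126 k190 7 (.d k252 k253 k189 0 8)))))] (.c k74 (.q k122 [(.s k3 k1 0 (.s k43 k23 5
  (.s k41 k40 0 (.d k22 k62 k60 5 6)))), (.s k255 k85 14 (.s k48 k53 2 (.s k117 k186 10 (.d k127
  k112 k191 2 7))))] (.c k138 (.q k202 [(.s k3 k1 0 (.s k43 k23 5 (.s k41 k40 0 (.d k22 k62 k60 5
  6)))), (.s k255 k85 14 (.s k48 k53 2 (.s k117 k186 10 (.d k127 k112 k191 2 7))))] .n) (.c k202 (.q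
  k138 [(.s k207 k69 10 (.s k154 k186 3 (.d k48 k53 k101 2 14))), (.s k3 k1 0 (.s k22 k62 5 (.s k41
  k60 6 (.d k43 k40 k23 0 5))))] (.c k218 (.q k234 [(.s k207 k69 10 (.s k154 k186 3 (.d k48 k53 k101
  2 14))), (.s k3 k1 0 (.s k22 k62 5 (.s k41 k60 6 (.d k43 k40 k23 0 5))))] (.c k26 (.l (.s k154
  k186 3 (.s k207 k69 10 (.d k48 k53 k101 2 14)))) (.c k154 (.q k26 [(.s k48 k53 2 (.s k32 k16 3 (.d
  k37 k47 k15 2 6))), (.s k3 k1 0 (.s k22 k62 5 (.s k41 k60 6 (.d k43 k40 k23 0 5))))] .n) .n))) (.c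
  k234 (.q k218 [(.s k240 k181 10 (.d k207 k229 k69 6 10)), (.s k255 k85 14 (.s k48 k53 2 (.d k186
  k154 k117 3 10)))] .n) .n))) .n))) (.c k122 (.q k74 [(.s k3 k1 0 (.s k43 k23 5 (.s k41 k40 0 (.d
  k22 k62 k60 5 6)))), (.s k85 k255 14 (.s k86 k254 13 (.s k84 k87 0 (.s k252 k168 13 (.d k3 k1 k169
  0 14))))), (.s k255 k85 14 (.s k62 k22 5 (.s k254 k86 13 (.s k126 k190 7 (.d k252 k253 k189 0
  8)))))] .n) .n))) .n))))) (.c k15 (.f k48 k53 2 (.q k240 [(.s k112 k176 7 (.s k122 k181 10 (.s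
  k186 k250 7 (.d k117 k127 k255 2 10)))), (.s k16 k32 3 (.s k80 k160 11 (.s k144 k208 7 (.s k96
  k192 11 (.d k112 k64 k176 3 7)))))] (.c k5 (.q k37 [(.d k32 k47 k16 2 3), (.s k112 k176 7 (.s k122
  k181 10 (.s k186 k250 7 (.d k117 k127 k255 2 10))))] (.c k74 (.l (.s k122 k181 10 (.d k32 k47 k16
  2 3))) (.c k122 (.q k74 [(.d k32 k47 k16 2 3), (.s k80 k160 11 (.s k10 k26 3 (.s k138 k202 7 (.s
  k69 k207 10 (.s k112 k176 7 (.d k64 k79 k96 2 3))))))] (.c k16 (.l (.s k160 k80 11 (.s k32 k47 2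
  (.s k176 k112 7 (.s k144 k128 3 (.d k96 k224 k192 7 11)))))) .n)) .n))) (.c k37 (.q k5 [(.s k112
  k176 7 (.s k122 k181 10 (.s k186 k250 7 (.d k117 k127 k255 2 10)))), (.s k16 k32 3 (.s k80 k160 11
  (.s k144 k208 7 (.s k96 k192 11 (.d k112 k64 k176 3 7)))))] (.c k74 (.l (.s k122 k181 10 (.s k112
  k176 7 (.s k186 k250 7 (.d k117 k127 k255 2 10))))) (.c k112 (.f k16 k32 3 (.f k80 k160 11 (.f
  k208 k144 7 (.f k224 k192 3 (.f k122 k181 10 (.l (.s k250 k186 7 (.s k245 k255 2 (.s k85 k165 11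
  (.s k223 k154 10 (.s k218 k213 2 (.s k234 k202 3 (.d k229 k207 k239 6 2))))))))))))) (.c k122 (.q
  k74 [(.s k16 k32 3 (.s k80 k160 11 (.s k144 k208 7 (.s k96 k192 11 (.d k112 k64 k176 3 7))))), (.s
  k16 k32 3 (.s k10 k26 3 (.s k138 k202 7 (.s k207 k69 10 (.s k154 k101 14 (.s k85 k223 10 (.d k170
  k186 k255 3 14))))))), (.s k80 k160 11 (.s k10 k26 3 (.s k138 k202 7 (.s k69 k207 10 (.s k112 k176
  7 (.d k64 k79 k96 2 3))))))] (.c k16 (.l (.s k80 k160 11 (.s k112 k176 7 (.s k64 k96 3 (.s k128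
  k192 7 (.s k69 k79 2 (.s k133 k197 7 (.d k138 k143 k207 2 10)))))))) (.c k96 (.f k16 k32 3 (.l (.s
  k10 k26 3 (.s k138 k202 7 (.s k207 k69 10 (.s k154 k101 14 (.s k111 k159 11 (.s k85 k223 10 (.d
  k170 k186 k255 3 14))))))))) (.c k112 (.f k16 k32 3 (.l (.s k80 k160 11 (.s k10 k26 3 (.s k138
  k202 7 (.s k207 k69 10 (.s k144 k208 7 (.s k159 k111 11 (.d k154 k149 k101 2 14))))))))) .n))))
  (.c k176 (.f k16 k32 3 (.l (.s k80 k160 11 (.s k144 k208 7 (.s k96 k192 11 (.s k122 k181 10 (.s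
  k186 k250 7 (.s k117 k255 10 (.d k112 k127 k64 2 3))))))))) .n))))) (.c k74 (.l (.s k122 k181 10
  (.s k112 k176 7 (.s k186 k250 7 (.d k117 k127 k255 2 10))))) (.c k112 (.f k26 k10 3 (.f k32 k16 3
  (.f k122 k181 10 (.q k101 [(.s k170 k239 10 (.s k186 k250 7 (.d k255 k117 k85 10 14))), (.s k37
  k47 2 (.s k207 k154 14 (.d k229 k165 k218 7 6)))] (.c k5 (.l (.s k37 k47 2 (.s k207 k154 14 (.d
  k229 k165 k218 7 6)))) (.c k37 (.q k5 [(.s k170 k239 10 (.s k186 k250 7 (.d k255 k117 k85 10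
  14))), (.s k170 k239 10 (.s k186 k250 7 (.d k154 k138 k207 3 14)))] (.c k117 (.q k245 [(.d k250
  k255 k186 2 7), (.s k160 k80 11 (.s k170 k239 10 (.d k165 k85 k175 11 2)))] (.c k170 (.l (.d k250
  k255 k186 2 7)) (.c k250 (.l (.s k170 k239 10 (.d k85 k165 k255 11 14))) .n))) (.c k170 (.l (.s
  k250 k186 7 (.s k245 k255 2 (.s k85 k165 11 (.s k69 k117 3 (.d k207 k138 k154 10 14)))))) (.c k186
  (.l (.s k160 k80 11 (.s k170 k239 10 (.s k85 k255 14 (.d k165 k175 k245 2 11))))) (.c k239 (.l (.s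
  k154 k207 14 (.s k186 k250 7 (.s k170 k138 3 (.d k255 k117 k85 10 14))))) (.c k245 (.q k117 [(.d
  k186 k250 k255 7 10), (.s k207 k154 14 (.d k69 k85 k138 3 10))] (.c k170 (.l (.s k250 k186 7 (.s
  k69 k85 3 (.d k207 k138 k154 10 14)))) (.c k250 (.l (.s k170 k239 10 (.d k255 k186 k85 10 14)))
  .n))) (.c k250 (.l (.s k170 k239 10 (.s k160 k80 11 (.s k85 k255 14 (.d k165 k175 k245 2 11)))))
  .n))))))) (.c k85 (.l (.s k170 k239 10 (.s k154 k207 14 (.d k186 k138 k250 3 7)))) (.c k117 (.q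
  k245 [(.d k250 k255 k186 2 7), (.s k37 k47 2 (.s k207 k154 14 (.d k229 k165 k218 7 6)))] (.c k5
  (.l (.s k37 k47 2 (.d k250 k255 k186 2 7))) (.c k37 (.q k5 [(.d k250 k255 k186 2 7), (.s k160 k80
  11 (.s k170 k239 10 (.d k165 k85 k175 11 2)))] (.c k170 (.l (.d k250 k255 k186 2 7)) (.c k250 (.l
  (.s k170 k239 10 (.d k85 k165 k255 11 14))) .n))) (.c k170 (.l (.d k250 k255 k186 2 7)) (.c k250
  (.l (.s k170 k239 10 (.s k160 k80 11 (.s k85 k255 14 (.d k165 k175 k5 2 11))))) .n))))) (.c k170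
  (.l (.s k250 k186 7 (.s k37 k47 2 (.s k207 k154 14 (.s k138 k69 10 (.d k229 k165 k218 7 6))))))
  (.c k245 (.q k117 [(.d k186 k250 k255 7 10), (.s k207 k154 14 (.d k69 k85 k138 3 10))] (.c k5 (.l
  (.s k37 k47 2 (.d k186 k250 k255 7 10))) (.c k37 (.q k5 [(.d k186 k250 k255 7 10), (.s k207 k154
  14 (.d k69 k85 k138 3 10))] (.c k170 (.l (.s k250 k186 7 (.s k69 k85 3 (.d k207 k138 k154 10
  14)))) (.c k250 (.l (.s k170 k239 10 (.d k255 k186 k85 10 14))) .n))) (.c k170 (.l (.s k250 k186 7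
  (.s k69 k85 3 (.d k207 k138 k154 10 14)))) (.c k250 (.l (.s k170 k239 10 (.d k255 k186 k85 10
  14))) .n))))) (.c k250 (.l (.s k170 k239 10 (.s k160 k80 11 (.s k37 k47 2 (.d k165 k175 k229 2
  7))))) .n))))))))))) (.c k122 (.q k74 [(.s k16 k32 3 (.s k80 k160 11 (.s k144 k208 7 (.s k96 k192
  11 (.d k112 k64 k176 3 7))))), (.s k16 k32 3 (.s k10 k26 3 (.s k138 k202 7 (.s k207 k69 10 (.s
  k154 k101 14 (.s k85 k223 10 (.d k170 k186 k255 3 14))))))), (.s k80 k160 11 (.s k10 k26 3 (.s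
  k138 k202 7 (.s k69 k207 10 (.s k112 k176 7 (.d k64 k79 k96 2 3))))))] (.c k5 (.q k37 [(.d k32 k47
  k16 2 3), (.s k80 k160 11 (.s k10 k26 3 (.s k138 k202 7 (.s k69 k207 10 (.s k112 k176 7 (.d k64
  k79 k96 2 3))))))] (.c k16 (.l (.s k160 k80 11 (.s k32 k47 2 (.s k176 k112 7 (.s k144 k128 3 (.d
  k96 k224 k192 7 11)))))) .n)) (.c k16 (.f k80 k160 11 (.l (.s k112 k176 7 (.s k64 k96 3 (.s k128
  k192 7 (.s k69 k79 2 (.s k138 k207 10 (.s k143 k133 2 (.d k10 k202 k26 7 3))))))))) (.c k37 (.q k5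
  [(.s k16 k32 3 (.s k80 k160 11 (.s k144 k208 7 (.s k96 k192 11 (.d k112 k64 k176 3 7))))), (.s k16
  k32 3 (.s k10 k26 3 (.s k138 k202 7 (.s k207 k69 10 (.s k154 k101 14 (.s k85 k223 10 (.d k170 k186
  k255 3 14))))))), (.s k80 k160 11 (.s k10 k26 3 (.s k138 k202 7 (.s k69 k207 10 (.s k112 k176 7
  (.d k64 k79 k96 2 3))))))] (.c k16 (.l (.s k80 k160 11 (.s k112 k176 7 (.s k64 k96 3 (.s k128 k192
  7 (.s k69 k79 2 (.s k133 k197 7 (.d k138 k143 k207 2 10)))))))) (.c k96 (.f k16 k32 3 (.l (.s k10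
  k26 3 (.s k138 k202 7 (.s k207 k69 10 (.s k154 k101 14 (.s k111 k159 11 (.s k85 k223 10 (.d k170
  k186 k255 3 14))))))))) (.c k112 (.f k16 k32 3 (.l (.s k80 k160 11 (.s k10 k26 3 (.s k138 k202 7
  (.s k207 k69 10 (.s k144 k208 7 (.s k159 k111 11 (.d k154 k149 k101 2 14))))))))) .n)))) (.c k96
  (.f k16 k32 3 (.l (.s k10 k26 3 (.s k138 k202 7 (.s k207 k69 10 (.s k154 k101 14 (.s k111 k159 11
  (.s k85 k223 10 (.d k170 k186 k255 3 14))))))))) (.c k112 (.f k16 k32 3 (.l (.s k80 k160 11 (.s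
  k10 k26 3 (.s k138 k202 7 (.s k207 k69 10 (.s k144 k208 7 (.s k159 k111 11 (.d k154 k149 k101 2
  14))))))))) .n)))))) (.c k176 (.f k16 k32 3 (.l (.s k80 k160 11 (.s k144 k208 7 (.s k96 k192 11
  (.s k122 k181 10 (.s k186 k250 7 (.s k117 k255 10 (.d k112 k127 k64 2 3))))))))) .n)))))))) (.c
  k16 (.f k26 k10 3 (.q k2 [(.s k3 k1 0 (.s k43 k23 5 (.s k41 k40 0 (.d k22 k62 k60 5 6)))), (.s k62
  k22 5 (.s k50 k54 1 (.s k34 k18 3 (.d k38 k46 k14 1 5)))), (.s k3 k1 0 (.s k48 k53 2 (.s k33 k18 4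
  (.s k37 k15 6 (.s k41 k45 1 (.d k43 k40 k23 0 5))))))] (.c k23 (.l (.s k3 k1 0 (.s k22 k62 5 (.s
  k18 k30 1 (.d k48 k53 k33 2 4))))) (.c k74 (.q k122 [(.s k3 k1 0 (.s k43 k23 5 (.s k41 k40 0 (.d
  k22 k62 k60 5 6)))), (.s k48 k53 2 (.s k240 k181 10 (.s k112 k176 7 (.s k117 k127 2 (.d k186 k250
  k255 7 10)))))] (.c k138 (.q k202 [(.s k3 k1 0 (.s k43 k23 5 (.s k41 k40 0 (.d k22 k62 k60 5
  6)))), (.s k48 k53 2 (.s k240 k181 10 (.s k112 k176 7 (.s k117 k127 2 (.d k186 k250 k255 7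
  10)))))] (.c k170 (.f k250 k186 7 (.q k154 [(.s k3 k1 0 (.s k22 k62 5 (.s k41 k60 6 (.d k43 k40
  k23 0 5)))), (.s k48 k53 2 (.s k207 k101 14 (.s k240 k181 10 (.d k218 k234 k229 3 6))))] .n)) (.c
  k250 (.q k170 [(.s k3 k1 0 (.s k43 k23 5 (.s k41 k40 0 (.d k22 k62 k60 5 6)))), (.s k255 k85 14
  (.s k48 k53 2 (.s k117 k186 10 (.d k127 k112 k191 2 7))))] .n) .n))) (.c k170 (.l (.s k250 k186 7
  (.s k3 k1 0 (.s k22 k62 5 (.s k41 k60 6 (.d k43 k40 k23 0 5)))))) (.c k202 (.q k138 [(.s k3 k1 0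
  (.s k43 k23 5 (.s k41 k40 0 (.d k22 k62 k60 5 6)))), (.s k207 k69 10 (.s k48 k53 2 (.s k154 k101
  14 (.d k186 k170 k250 3 7))))] (.c k170 (.l (.s k250 k186 7 (.s k3 k1 0 (.s k22 k62 5 (.s k41 k60
  6 (.d k43 k40 k23 0 5)))))) (.c k250 (.q k170 [(.s k207 k69 10 (.s k154 k186 3 (.d k48 k53 k101 2
  14))), (.s k3 k1 0 (.s k22 k62 5 (.s k41 k60 6 (.d k43 k40 k23 0 5))))] (.c k218 (.q k234 [(.s
  k207 k69 10 (.s k154 k186 3 (.d k48 k53 k101 2 14))), (.s k3 k1 0 (.s k22 k62 5 (.s k41 k60 6 (.d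
  k43 k40 k23 0 5))))] .n) (.c k234 (.q k218 [(.s k240 k181 10 (.d k207 k229 k69 6 10)), (.s k255
  k85 14 (.s k48 k53 2 (.d k186 k154 k117 3 10)))] .n) .n))) .n))) (.c k250 (.q k170 [(.s k3 k1 0
  (.s k43 k23 5 (.s k41 k40 0 (.d k22 k62 k60 5 6)))), (.s k255 k85 14 (.s k48 k53 2 (.s k117 k186
  10 (.d k127 k112 k191 2 7))))] (.c k138 (.q k202 [(.s k3 k1 0 (.s k43 k23 5 (.s k41 k40 0 (.d k22
  k62 k60 5 6)))), (.s k255 k85 14 (.s k48 k53 2 (.s k117 k186 10 (.d k127 k112 k191 2 7))))] .n)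
  (.c k202 (.q k138 [(.s k207 k69 10 (.s k154 k186 3 (.d k48 k53 k101 2 14))), (.s k3 k1 0 (.s k22
  k62 5 (.s k41 k60 6 (.d k43 k40 k23 0 5))))] (.c k218 (.q k234 [(.s k207 k69 10 (.s k154 k186 3
  (.d k48 k53 k101 2 14))), (.s k3 k1 0 (.s k22 k62 5 (.s k41 k60 6 (.d k43 k40 k23 0 5))))] .n) (.c
  k234 (.q k218 [(.s k240 k181 10 (.d k207 k229 k69 6 10)), (.s k255 k85 14 (.s k48 k53 2 (.d k186
  k154 k117 3 10)))] .n) .n))) .n))) .n))))) (.c k122 (.q k74 [(.s k3 k1 0 (.s k43 k23 5 (.s k41 k40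
  0 (.d k22 k62 k60 5 6)))), (.s k62 k22 5 (.s k50 k54 1 (.s k34 k18 3 (.d k38 k46 k14 1 5)))), (.s
  k3 k1 0 (.s k48 k53 2 (.s k33 k18 4 (.s k37 k15 6 (.s k41 k45 1 (.d k43 k40 k23 0 5))))))] (.c k23
  (.l (.s k3 k1 0 (.s k22 k62 5 (.s k18 k30 1 (.d k48 k53 k33 2 4))))) (.c k170 (.q k250 [(.s k3 k1
  0 (.s k43 k23 5 (.s k41 k40 0 (.d k22 k62 k60 5 6)))), (.s k62 k22 5 (.s k50 k54 1 (.s k34 k18 3
  (.d k38 k46 k14 1 5)))), (.s k3 k1 0 (.s k48 k53 2 (.s k33 k18 4 (.s k37 k15 6 (.s k41 k45 1 (.d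
  k43 k40 k23 0 5))))))] (.c k23 (.l (.s k3 k1 0 (.s k22 k62 5 (.s k18 k30 1 (.d k48 k53 k33 2
  4))))) .n)) (.c k250 (.q k170 [(.s k3 k1 0 (.s k43 k23 5 (.s k41 k40 0 (.d k22 k62 k60 5 6)))),
  (.s k62 k22 5 (.s k50 k54 1 (.s k34 k18 3 (.d k38 k46 k14 1 5)))), (.s k3 k1 0 (.s k85 k255 14 (.s
  k86 k254 13 (.s k252 k169 14 (.d k84 k87 k168 0 13)))))] .n) .n)))) (.c k170 (.q k250 [(.s k3 k1 0
  (.s k22 k62 5 (.s k41 k60 6 (.d k43 k40 k23 0 5)))), (.s k62 k22 5 (.s k50 k54 1 (.s k34 k18 3 (.d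
  k38 k46 k14 1 5)))), (.s k3 k1 0 (.s k48 k53 2 (.s k33 k18 4 (.s k37 k15 6 (.s k41 k45 1 (.d k43
  k40 k23 0 5))))))] (.c k23 (.l (.s k3 k1 0 (.s k22 k62 5 (.s k18 k30 1 (.d k48 k53 k33 2 4)))))
  (.c k74 (.l (.s k122 k186 7 (.s k3 k1 0 (.s k22 k62 5 (.s k41 k60 6 (.d k43 k40 k23 0 5)))))) (.c
  k122 (.q k74 [(.s k3 k1 0 (.s k43 k23 5 (.s k41 k40 0 (.d k22 k62 k60 5 6)))), (.s k62 k22 5 (.s
  k50 k54 1 (.s k34 k18 3 (.d k38 k46 k14 1 5)))), (.s k3 k1 0 (.s k48 k53 2 (.s k33 k18 4 (.s k37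
  k15 6 (.s k41 k45 1 (.d k43 k40 k23 0 5))))))] (.c k23 (.l (.s k3 k1 0 (.s k22 k62 5 (.s k18 k30 1
  (.d k48 k53 k33 2 4))))) .n)) .n)))) (.c k250 (.q k170 [(.s k3 k1 0 (.s k43 k23 5 (.s k41 k40 0
  (.d k22 k62 k60 5 6)))), (.s k62 k22 5 (.s k50 k54 1 (.s k34 k18 3 (.d k38 k46 k14 1 5)))), (.s k3
  k1 0 (.s k85 k255 14 (.s k86 k254 13 (.s k252 k169 14 (.d k84 k87 k168 0 13)))))] (.c k74 (.q k122
  [(.s k3 k1 0 (.s k43 k23 5 (.s k41 k40 0 (.d k22 k62 k60 5 6)))), (.s k255 k85 14 (.s k48 k53 2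
  (.s k117 k186 10 (.d k127 k112 k191 2 7))))] (.c k138 (.q k202 [(.s k3 k1 0 (.s k43 k23 5 (.s k41
  k40 0 (.d k22 k62 k60 5 6)))), (.s k255 k85 14 (.s k48 k53 2 (.s k117 k186 10 (.d k127 k112 k191 2
  7))))] .n) (.c k202 (.q k138 [(.s k207 k69 10 (.s k154 k186 3 (.d k48 k53 k101 2 14))), (.s k3 k1
  0 (.s k22 k62 5 (.s k41 k60 6 (.d k43 k40 k23 0 5))))] (.c k218 (.q k234 [(.s k207 k69 10 (.s k154
  k186 3 (.d k48 k53 k101 2 14))), (.s k3 k1 0 (.s k22 k62 5 (.s k41 k60 6 (.d k43 k40 k23 0 5))))]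
  .n) (.c k234 (.q k218 [(.s k240 k181 10 (.d k207 k229 k69 6 10)), (.s k255 k85 14 (.s k48 k53 2
  (.d k186 k154 k117 3 10)))] .n) .n))) .n))) (.c k122 (.q k74 [(.s k3 k1 0 (.s k43 k23 5 (.s k41
  k40 0 (.d k22 k62 k60 5 6)))), (.s k62 k22 5 (.s k50 k54 1 (.s k34 k18 3 (.d k38 k46 k14 1 5)))),
  (.s k3 k1 0 (.s k85 k255 14 (.s k86 k254 13 (.s k252 k169 14 (.d k84 k87 k168 0 13)))))] .n) .n)))
  .n))))))) (.c k26 (.f k48 k53 2 (.f k16 k32 3 (.q k51 [(.s k17 k34 4 (.s k18 k19 0 (.s k33 k3 4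
  (.d k49 k50 k1 0 3)))), (.s k34 k17 4 (.s k38 k46 1 (.s k25 k12 6 (.d k59 k55 k8 1 4)))), (.s k50
  k49 0 (.s k54 k62 1 (.s k57 k60 2 (.d k59 k56 k55 0 1))))] (.c k5 (.q k37 [(.s k17 k34 4 (.s k18
  k19 0 (.s k33 k3 4 (.d k49 k50 k1 0 3)))), (.s k49 k50 0 (.s k59 k55 1 (.d k25 k8 k13 4 5))), (.s
  k34 k17 4 (.s k38 k46 1 (.s k25 k12 6 (.d k59 k55 k8 1 4))))] (.c k74 (.q k122 [(.s k17 k34 4 (.s
  k18 k19 0 (.s k33 k3 4 (.d k49 k50 k1 0 3)))), (.s k49 k50 0 (.s k59 k55 1 (.d k25 k8 k13 4 5))),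
  (.s k34 k17 4 (.s k38 k46 1 (.s k25 k12 6 (.d k59 k55 k8 1 4))))] (.c k154 (.q k218 [(.s k17 k34 4
  (.s k18 k19 0 (.s k33 k3 4 (.d k49 k50 k1 0 3)))), (.s k49 k50 0 (.s k59 k55 1 (.d k25 k8 k13 4
  5))), (.s k34 k17 4 (.s k38 k46 1 (.s k25 k12 6 (.d k59 k55 k8 1 4))))] .n) (.c k218 (.q k154 [(.s
  k85 k223 10 (.s k170 k255 14 (.d k186 k138 k250 3 7))), (.s k49 k50 0 (.s k25 k13 5 (.d k59 k55 k8
  1 4)))] .n) .n))) (.c k122 (.q k74 [(.s k17 k34 4 (.s k18 k19 0 (.s k33 k3 4 (.d k49 k50 k1 0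
  3)))), (.s k49 k50 0 (.s k59 k55 1 (.d k25 k8 k13 4 5))), (.s k34 k17 4 (.s k38 k46 1 (.s k25 k12
  6 (.d k59 k55 k8 1 4))))] (.c k154 (.q k218 [(.s k17 k34 4 (.s k18 k19 0 (.s k33 k3 4 (.d k49 k50
  k1 0 3)))), (.s k49 k50 0 (.s k59 k55 1 (.d k25 k8 k13 4 5))), (.s k34 k17 4 (.s k38 k46 1 (.s k25
  k12 6 (.d k59 k55 k8 1 4))))] .n) (.c k218 (.q k154 [(.s k17 k34 4 (.s k18 k19 0 (.s k33 k3 4 (.d
  k49 k50 k1 0 3)))), (.s k49 k50 0 (.s k59 k55 1 (.d k25 k8 k13 4 5))), (.s k34 k17 4 (.s k38 k46 1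
  (.s k25 k12 6 (.d k59 k55 k8 1 4))))] .n) .n))) (.c k154 (.q k218 [(.s k17 k34 4 (.s k18 k19 0 (.s
  k33 k3 4 (.d k49 k50 k1 0 3)))), (.s k49 k50 0 (.s k59 k55 1 (.d k25 k8 k13 4 5))), (.s k34 k17 4
  (.s k38 k46 1 (.s k25 k12 6 (.d k59 k55 k8 1 4))))] (.c k74 (.q k122 [(.s k17 k34 4 (.s k18 k19 0
  (.s k33 k3 4 (.d k49 k50 k1 0 3)))), (.s k49 k50 0 (.s k59 k55 1 (.d k25 k8 k13 4 5))), (.s k34
  k17 4 (.s k38 k46 1 (.s k25 k12 6 (.d k59 k55 k8 1 4))))] .n) (.c k122 (.q k74 [(.s k17 k34 4 (.s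
  k18 k19 0 (.s k33 k3 4 (.d k49 k50 k1 0 3)))), (.s k49 k50 0 (.s k59 k55 1 (.d k25 k8 k13 4 5))),
  (.s k34 k17 4 (.s k38 k46 1 (.s k25 k12 6 (.d k59 k55 k8 1 4))))] .n) .n))) (.c k218 (.q k154 [(.s
  k17 k34 4 (.s k18 k19 0 (.s k33 k3 4 (.d k49 k50 k1 0 3)))), (.s k49 k50 0 (.s k59 k55 1 (.d k25
  k8 k13 4 5))), (.s k34 k17 4 (.s k38 k46 1 (.s k25 k12 6 (.d k59 k55 k8 1 4))))] (.c k74 (.q k122
  [(.s k85 k223 10 (.s k170 k255 14 (.d k186 k138 k250 3 7))), (.s k49 k50 0 (.s k25 k13 5 (.d k59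
  k55 k8 1 4)))] .n) (.c k122 (.q k74 [(.s k17 k34 4 (.s k18 k19 0 (.s k33 k3 4 (.d k49 k50 k1 0
  3)))), (.s k49 k50 0 (.s k59 k55 1 (.d k25 k8 k13 4 5))), (.s k34 k17 4 (.s k38 k46 1 (.s k25 k12
  6 (.d k59 k55 k8 1 4))))] .n) .n))) .n))))) (.c k37 (.q k5 [(.s k17 k34 4 (.s k18 k19 0 (.s k33 k3
  4 (.d k49 k50 k1 0 3)))), (.s k34 k17 4 (.s k38 k46 1 (.s k25 k12 6 (.d k59 k55 k8 1 4)))), (.s
  k50 k49 0 (.s k54 k62 1 (.s k57 k60 2 (.d k59 k56 k55 0 1))))] (.c k74 (.q k122 [(.s k17 k34 4 (.s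
  k18 k19 0 (.s k33 k3 4 (.d k49 k50 k1 0 3)))), (.s k34 k17 4 (.s k38 k46 1 (.s k25 k12 6 (.d k59
  k55 k8 1 4)))), (.s k50 k49 0 (.s k54 k62 1 (.s k57 k60 2 (.d k59 k56 k55 0 1))))] (.c k154 (.q
  k218 [(.s k17 k34 4 (.s k18 k19 0 (.s k33 k3 4 (.d k49 k50 k1 0 3)))), (.s k34 k17 4 (.s k38 k46 1
  (.s k25 k12 6 (.d k59 k55 k8 1 4)))), (.s k50 k49 0 (.s k54 k62 1 (.s k57 k60 2 (.d k59 k56 k55 0
  1))))] .n) (.c k218 (.q k154 [(.s k17 k34 4 (.s k18 k19 0 (.s k33 k3 4 (.d k49 k50 k1 0 3)))), (.s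
  k85 k223 10 (.s k170 k255 14 (.d k186 k138 k250 3 7)))] .n) .n))) (.c k122 (.q k74 [(.s k17 k34 4
  (.s k18 k19 0 (.s k33 k3 4 (.d k49 k50 k1 0 3)))), (.s k34 k17 4 (.s k38 k46 1 (.s k25 k12 6 (.d
  k59 k55 k8 1 4)))), (.s k50 k49 0 (.s k54 k62 1 (.s k57 k60 2 (.d k59 k56 k55 0 1))))] (.c k154
  (.q k218 [(.s k17 k34 4 (.s k18 k19 0 (.s k33 k3 4 (.d k49 k50 k1 0 3)))), (.s k34 k17 4 (.s k38
  k46 1 (.s k25 k12 6 (.d k59 k55 k8 1 4)))), (.s k50 k49 0 (.s k54 k62 1 (.s k57 k60 2 (.d k59 k56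
  k55 0 1))))] .n) (.c k218 (.q k154 [(.s k17 k34 4 (.s k18 k19 0 (.s k33 k3 4 (.d k49 k50 k1 0
  3)))), (.s k10 k15 2 (.s k138 k202 7 (.d k207 k69 k101 10 14)))] .n) .n))) (.c k154 (.q k218 [(.s
  k17 k34 4 (.s k18 k19 0 (.s k33 k3 4 (.d k49 k50 k1 0 3)))), (.s k34 k17 4 (.s k38 k46 1 (.s k25
  k12 6 (.d k59 k55 k8 1 4)))), (.s k50 k49 0 (.s k54 k62 1 (.s k57 k60 2 (.d k59 k56 k55 0 1))))]
  (.c k74 (.q k122 [(.s k17 k34 4 (.s k18 k19 0 (.s k33 k3 4 (.d k49 k50 k1 0 3)))), (.s k34 k17 4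
  (.s k38 k46 1 (.s k25 k12 6 (.d k59 k55 k8 1 4)))), (.s k50 k49 0 (.s k54 k62 1 (.s k57 k60 2 (.d
  k59 k56 k55 0 1))))] .n) (.c k122 (.q k74 [(.s k17 k34 4 (.s k18 k19 0 (.s k33 k3 4 (.d k49 k50 k1
  0 3)))), (.s k34 k17 4 (.s k38 k46 1 (.s k25 k12 6 (.d k59 k55 k8 1 4)))), (.s k50 k49 0 (.s k54
  k62 1 (.s k57 k60 2 (.d k59 k56 k55 0 1))))] .n) .n))) (.c k218 (.q k154 [(.s k17 k34 4 (.s k18
  k19 0 (.s k33 k3 4 (.d k49 k50 k1 0 3)))), (.s k85 k223 10 (.s k170 k255 14 (.s k207 k101 14 (.d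
  k138 k186 k69 3 10))))] (.c k74 (.q k122 [(.s k17 k34 4 (.s k18 k19 0 (.s k33 k3 4 (.d k49 k50 k1
  0 3)))), (.s k85 k223 10 (.s k170 k255 14 (.d k186 k138 k250 3 7)))] .n) (.c k122 (.q k74 [(.s k17
  k34 4 (.s k18 k19 0 (.s k33 k3 4 (.d k49 k50 k1 0 3)))), (.s k10 k15 2 (.s k138 k202 7 (.d k207
  k69 k101 10 14)))] .n) .n))) .n))))) (.c k74 (.q k122 [(.s k17 k34 4 (.s k18 k19 0 (.s k33 k3 4
  (.d k49 k50 k1 0 3)))), (.s k34 k17 4 (.s k38 k46 1 (.s k25 k12 6 (.d k59 k55 k8 1 4)))), (.s k50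
  k49 0 (.s k54 k62 1 (.s k57 k60 2 (.d k59 k56 k55 0 1))))] (.c k5 (.q k37 [(.s k17 k34 4 (.s k18
  k19 0 (.s k33 k3 4 (.d k49 k50 k1 0 3)))), (.s k49 k50 0 (.s k59 k55 1 (.d k25 k8 k13 4 5))), (.s
  k34 k17 4 (.s k38 k46 1 (.s k25 k12 6 (.d k59 k55 k8 1 4))))] (.c k154 (.q k218 [(.s k17 k34 4 (.s
  k18 k19 0 (.s k33 k3 4 (.d k49 k50 k1 0 3)))), (.s k49 k50 0 (.s k59 k55 1 (.d k25 k8 k13 4 5))),
  (.s k34 k17 4 (.s k38 k46 1 (.s k25 k12 6 (.d k59 k55 k8 1 4))))] .n) (.c k218 (.q k154 [(.s k85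
  k223 10 (.s k170 k255 14 (.d k186 k138 k250 3 7))), (.s k49 k50 0 (.s k25 k13 5 (.d k59 k55 k8 1
  4)))] .n) .n))) (.c k37 (.q k5 [(.s k17 k34 4 (.s k18 k19 0 (.s k33 k3 4 (.d k49 k50 k1 0 3)))),
  (.s k34 k17 4 (.s k38 k46 1 (.s k25 k12 6 (.d k59 k55 k8 1 4)))), (.s k50 k49 0 (.s k54 k62 1 (.s
  k57 k60 2 (.d k59 k56 k55 0 1))))] (.c k154 (.q k218 [(.s k17 k34 4 (.s k18 k19 0 (.s k33 k3 4 (.d
  k49 k50 k1 0 3)))), (.s k34 k17 4 (.s k38 k46 1 (.s k25 k12 6 (.d k59 k55 k8 1 4)))), (.s k50 k49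
  0 (.s k54 k62 1 (.s k57 k60 2 (.d k59 k56 k55 0 1))))] .n) (.c k218 (.q k154 [(.s k17 k34 4 (.s
  k18 k19 0 (.s k33 k3 4 (.d k49 k50 k1 0 3)))), (.s k85 k223 10 (.s k170 k255 14 (.d k186 k138 k250
  3 7)))] .n) .n))) (.c k154 (.q k218 [(.s k17 k34 4 (.s k18 k19 0 (.s k33 k3 4 (.d k49 k50 k1 0
  3)))), (.s k34 k17 4 (.s k38 k46 1 (.s k25 k12 6 (.d k59 k55 k8 1 4)))), (.s k50 k49 0 (.s k54 k62
  1 (.s k57 k60 2 (.d k59 k56 k55 0 1))))] (.c k5 (.q k37 [(.s k17 k34 4 (.s k18 k19 0 (.s k33 k3 4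
  (.d k49 k50 k1 0 3)))), (.s k49 k50 0 (.s k59 k55 1 (.d k25 k8 k13 4 5))), (.s k34 k17 4 (.s k38
  k46 1 (.s k25 k12 6 (.d k59 k55 k8 1 4))))] .n) (.c k37 (.q k5 [(.s k17 k34 4 (.s k18 k19 0 (.s
  k33 k3 4 (.d k49 k50 k1 0 3)))), (.s k34 k17 4 (.s k38 k46 1 (.s k25 k12 6 (.d k59 k55 k8 1 4)))),
  (.s k50 k49 0 (.s k54 k62 1 (.s k57 k60 2 (.d k59 k56 k55 0 1))))] .n) .n))) (.c k218 (.q k154
  [(.s k17 k34 4 (.s k18 k19 0 (.s k33 k3 4 (.d k49 k50 k1 0 3)))), (.s k85 k223 10 (.s k170 k255 14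
  (.d k186 k138 k250 3 7)))] (.c k5 (.q k37 [(.s k85 k223 10 (.s k170 k255 14 (.d k186 k138 k250 3
  7))), (.s k49 k50 0 (.s k25 k13 5 (.d k59 k55 k8 1 4)))] .n) (.c k37 (.q k5 [(.s k17 k34 4 (.s k18
  k19 0 (.s k33 k3 4 (.d k49 k50 k1 0 3)))), (.s k85 k223 10 (.s k170 k255 14 (.d k186 k138 k250 3
  7)))] .n) .n))) .n))))) (.c k122 (.q k74 [(.s k17 k34 4 (.s k18 k19 0 (.s k33 k3 4 (.d k49 k50 k1
  0 3)))), (.s k34 k17 4 (.s k38 k46 1 (.s k25 k12 6 (.d k59 k55 k8 1 4)))), (.s k50 k49 0 (.s k54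
  k62 1 (.s k57 k60 2 (.d k59 k56 k55 0 1))))] (.c k5 (.q k37 [(.s k17 k34 4 (.s k18 k19 0 (.s k33
  k3 4 (.d k49 k50 k1 0 3)))), (.s k49 k50 0 (.s k59 k55 1 (.d k25 k8 k13 4 5))), (.s k34 k17 4 (.s
  k38 k46 1 (.s k25 k12 6 (.d k59 k55 k8 1 4))))] (.c k154 (.q k218 [(.s k17 k34 4 (.s k18 k19 0 (.s
  k33 k3 4 (.d k49 k50 k1 0 3)))), (.s k49 k50 0 (.s k59 k55 1 (.d k25 k8 k13 4 5))), (.s k34 k17 4
  (.s k38 k46 1 (.s k25 k12 6 (.d k59 k55 k8 1 4))))] .n) (.c k218 (.q k154 [(.s k17 k34 4 (.s k18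
  k19 0 (.s k33 k3 4 (.d k49 k50 k1 0 3)))), (.s k49 k50 0 (.s k59 k55 1 (.d k25 k8 k13 4 5))), (.s
  k34 k17 4 (.s k38 k46 1 (.s k25 k12 6 (.d k59 k55 k8 1 4))))] .n) .n))) (.c k37 (.q k5 [(.s k17
  k34 4 (.s k18 k19 0 (.s k33 k3 4 (.d k49 k50 k1 0 3)))), (.s k34 k17 4 (.s k38 k46 1 (.s k25 k12 6
  (.d k59 k55 k8 1 4)))), (.s k50 k49 0 (.s k54 k62 1 (.s k57 k60 2 (.d k59 k56 k55 0 1))))] (.c
  k154 (.q k218 [(.s k17 k34 4 (.s k18 k19 0 (.s k33 k3 4 (.d k49 k50 k1 0 3)))), (.s k34 k17 4 (.s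
  k38 k46 1 (.s k25 k12 6 (.d k59 k55 k8 1 4)))), (.s k50 k49 0 (.s k54 k62 1 (.s k57 k60 2 (.d k59
  k56 k55 0 1))))] .n) (.c k218 (.q k154 [(.s k17 k34 4 (.s k18 k19 0 (.s k33 k3 4 (.d k49 k50 k1 0
  3)))), (.s k10 k15 2 (.s k138 k202 7 (.d k207 k69 k101 10 14)))] .n) .n))) (.c k154 (.q k218 [(.s
  k17 k34 4 (.s k18 k19 0 (.s k33 k3 4 (.d k49 k50 k1 0 3)))), (.s k34 k17 4 (.s k38 k46 1 (.s k25
  k12 6 (.d k59 k55 k8 1 4)))), (.s k50 k49 0 (.s k54 k62 1 (.s k57 k60 2 (.d k59 k56 k55 0 1))))]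
  (.c k5 (.q k37 [(.s k17 k34 4 (.s k18 k19 0 (.s k33 k3 4 (.d k49 k50 k1 0 3)))), (.s k49 k50 0 (.s
  k59 k55 1 (.d k25 k8 k13 4 5))), (.s k34 k17 4 (.s k38 k46 1 (.s k25 k12 6 (.d k59 k55 k8 1 4))))]
  .n) (.c k37 (.q k5 [(.s k17 k34 4 (.s k18 k19 0 (.s k33 k3 4 (.d k49 k50 k1 0 3)))), (.s k34 k17 4
  (.s k38 k46 1 (.s k25 k12 6 (.d k59 k55 k8 1 4)))), (.s k50 k49 0 (.s k54 k62 1 (.s k57 k60 2 (.d
  k59 k56 k55 0 1))))] .n) .n))) (.c k218 (.q k154 [(.s k17 k34 4 (.s k18 k19 0 (.s k33 k3 4 (.d k49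
  k50 k1 0 3)))), (.s k85 k223 10 (.s k170 k255 14 (.s k207 k101 14 (.d k138 k186 k69 3 10))))] (.c
  k5 (.q k37 [(.s k17 k34 4 (.s k18 k19 0 (.s k33 k3 4 (.d k49 k50 k1 0 3)))), (.s k49 k50 0 (.s k59
  k55 1 (.d k25 k8 k13 4 5))), (.s k34 k17 4 (.s k38 k46 1 (.s k25 k12 6 (.d k59 k55 k8 1 4))))] .n)
  (.c k37 (.q k5 [(.s k17 k34 4 (.s k18 k19 0 (.s k33 k3 4 (.d k49 k50 k1 0 3)))), (.s k10 k15 2 (.s
  k138 k202 7 (.d k207 k69 k101 10 14)))] .n) .n))) .n))))) (.c k154 (.q k218 [(.s k17 k34 4 (.s k18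
  k19 0 (.s k33 k3 4 (.d k49 k50 k1 0 3)))), (.s k34 k17 4 (.s k38 k46 1 (.s k25 k12 6 (.d k59 k55
  k8 1 4)))), (.s k50 k49 0 (.s k54 k62 1 (.s k57 k60 2 (.d k59 k56 k55 0 1))))] (.c k5 (.q k37 [(.s
  k17 k34 4 (.s k18 k19 0 (.s k33 k3 4 (.d k49 k50 k1 0 3)))), (.s k49 k50 0 (.s k59 k55 1 (.d k25
  k8 k13 4 5))), (.s k34 k17 4 (.s k38 k46 1 (.s k25 k12 6 (.d k59 k55 k8 1 4))))] (.c k74 (.q k122
  [(.s k17 k34 4 (.s k18 k19 0 (.s k33 k3 4 (.d k49 k50 k1 0 3)))), (.s k49 k50 0 (.s k59 k55 1 (.d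
  k25 k8 k13 4 5))), (.s k34 k17 4 (.s k38 k46 1 (.s k25 k12 6 (.d k59 k55 k8 1 4))))] .n) (.c k122
  (.q k74 [(.s k17 k34 4 (.s k18 k19 0 (.s k33 k3 4 (.d k49 k50 k1 0 3)))), (.s k49 k50 0 (.s k59
  k55 1 (.d k25 k8 k13 4 5))), (.s k34 k17 4 (.s k38 k46 1 (.s k25 k12 6 (.d k59 k55 k8 1 4))))] .n)
  .n))) (.c k37 (.q k5 [(.s k17 k34 4 (.s k18 k19 0 (.s k33 k3 4 (.d k49 k50 k1 0 3)))), (.s k34 k17
  4 (.s k38 k46 1 (.s k25 k12 6 (.d k59 k55 k8 1 4)))), (.s k50 k49 0 (.s k54 k62 1 (.s k57 k60 2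
  (.d k59 k56 k55 0 1))))] (.c k74 (.q k122 [(.s k17 k34 4 (.s k18 k19 0 (.s k33 k3 4 (.d k49 k50 k1
  0 3)))), (.s k34 k17 4 (.s k38 k46 1 (.s k25 k12 6 (.d k59 k55 k8 1 4)))), (.s k50 k49 0 (.s k54
  k62 1 (.s k57 k60 2 (.d k59 k56 k55 0 1))))] .n) (.c k122 (.q k74 [(.s k17 k34 4 (.s k18 k19 0 (.s
  k33 k3 4 (.d k49 k50 k1 0 3)))), (.s k34 k17 4 (.s k38 k46 1 (.s k25 k12 6 (.d k59 k55 k8 1 4)))),
  (.s k50 k49 0 (.s k54 k62 1 (.s k57 k60 2 (.d k59 k56 k55 0 1))))] .n) .n))) (.c k74 (.q k122 [(.s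
  k17 k34 4 (.s k18 k19 0 (.s k33 k3 4 (.d k49 k50 k1 0 3)))), (.s k34 k17 4 (.s k38 k46 1 (.s k25
  k12 6 (.d k59 k55 k8 1 4)))), (.s k50 k49 0 (.s k54 k62 1 (.s k57 k60 2 (.d k59 k56 k55 0 1))))]
  (.c k5 (.q k37 [(.s k17 k34 4 (.s k18 k19 0 (.s k33 k3 4 (.d k49 k50 k1 0 3)))), (.s k49 k50 0 (.s
  k59 k55 1 (.d k25 k8 k13 4 5))), (.s k34 k17 4 (.s k38 k46 1 (.s k25 k12 6 (.d k59 k55 k8 1 4))))]
  .n) (.c k37 (.q k5 [(.s k17 k34 4 (.s k18 k19 0 (.s k33 k3 4 (.d k49 k50 k1 0 3)))), (.s k34 k17 4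
  (.s k38 k46 1 (.s k25 k12 6 (.d k59 k55 k8 1 4)))), (.s k50 k49 0 (.s k54 k62 1 (.s k57 k60 2 (.d
  k59 k56 k55 0 1))))] .n) .n))) (.c k122 (.q k74 [(.s k17 k34 4 (.s k18 k19 0 (.s k33 k3 4 (.d k49
  k50 k1 0 3)))), (.s k34 k17 4 (.s k38 k46 1 (.s k25 k12 6 (.d k59 k55 k8 1 4)))), (.s k50 k49 0
  (.s k54 k62 1 (.s k57 k60 2 (.d k59 k56 k55 0 1))))] (.c k5 (.q k37 [(.s k17 k34 4 (.s k18 k19 0
  (.s k33 k3 4 (.d k49 k50 k1 0 3)))), (.s k49 k50 0 (.s k59 k55 1 (.d k25 k8 k13 4 5))), (.s k34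
  k17 4 (.s k38 k46 1 (.s k25 k12 6 (.d k59 k55 k8 1 4))))] .n) (.c k37 (.q k5 [(.s k17 k34 4 (.s
  k18 k19 0 (.s k33 k3 4 (.d k49 k50 k1 0 3)))), (.s k34 k17 4 (.s k38 k46 1 (.s k25 k12 6 (.d k59
  k55 k8 1 4)))), (.s k50 k49 0 (.s k54 k62 1 (.s k57 k60 2 (.d k59 k56 k55 0 1))))] .n) .n)))
  .n))))) (.c k218 (.q k154 [(.s k17 k34 4 (.s k18 k19 0 (.s k33 k3 4 (.d k49 k50 k1 0 3)))), (.s
  k85 k223 10 (.s k170 k255 14 (.s k207 k101 14 (.d k138 k186 k69 3 10))))] (.c k5 (.q k37 [(.s k17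
  k34 4 (.s k18 k19 0 (.s k33 k3 4 (.d k49 k50 k1 0 3)))), (.s k49 k50 0 (.s k59 k55 1 (.d k25 k8
  k13 4 5))), (.s k34 k17 4 (.s k38 k46 1 (.s k25 k12 6 (.d k59 k55 k8 1 4))))] (.c k74 (.q k122
  [(.s k85 k223 10 (.s k170 k255 14 (.d k186 k138 k250 3 7))), (.s k49 k50 0 (.s k25 k13 5 (.d k59
  k55 k8 1 4)))] .n) (.c k122 (.q k74 [(.s k17 k34 4 (.s k18 k19 0 (.s k33 k3 4 (.d k49 k50 k1 0
  3)))), (.s k49 k50 0 (.s k59 k55 1 (.d k25 k8 k13 4 5))), (.s k34 k17 4 (.s k38 k46 1 (.s k25 k12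
  6 (.d k59 k55 k8 1 4))))] .n) .n))) (.c k37 (.q k5 [(.s k17 k34 4 (.s k18 k19 0 (.s k33 k3 4 (.d
  k49 k50 k1 0 3)))), (.s k85 k223 10 (.s k170 k255 14 (.s k207 k101 14 (.d k138 k186 k69 3 10))))]
  (.c k74 (.q k122 [(.s k17 k34 4 (.s k18 k19 0 (.s k33 k3 4 (.d k49 k50 k1 0 3)))), (.s k85 k223 10
  (.s k170 k255 14 (.d k186 k138 k250 3 7)))] .n) (.c k122 (.q k74 [(.s k17 k34 4 (.s k18 k19 0 (.s
  k33 k3 4 (.d k49 k50 k1 0 3)))), (.s k10 k15 2 (.s k138 k202 7 (.d k207 k69 k101 10 14)))] .n)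
  .n))) (.c k74 (.q k122 [(.s k17 k34 4 (.s k18 k19 0 (.s k33 k3 4 (.d k49 k50 k1 0 3)))), (.s k85
  k223 10 (.s k170 k255 14 (.d k186 k138 k250 3 7)))] (.c k5 (.q k37 [(.s k85 k223 10 (.s k170 k255
  14 (.d k186 k138 k250 3 7))), (.s k49 k50 0 (.s k25 k13 5 (.d k59 k55 k8 1 4)))] .n) (.c k37 (.q
  k5 [(.s k17 k34 4 (.s k18 k19 0 (.s k33 k3 4 (.d k49 k50 k1 0 3)))), (.s k85 k223 10 (.s k170 k255
  14 (.d k186 k138 k250 3 7)))] .n) .n))) (.c k122 (.q k74 [(.s k17 k34 4 (.s k18 k19 0 (.s k33 k3 4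
  (.d k49 k50 k1 0 3)))), (.s k85 k223 10 (.s k170 k255 14 (.s k207 k101 14 (.d k138 k186 k69 3
  10))))] (.c k5 (.q k37 [(.s k17 k34 4 (.s k18 k19 0 (.s k33 k3 4 (.d k49 k50 k1 0 3)))), (.s k49
  k50 0 (.s k59 k55 1 (.d k25 k8 k13 4 5))), (.s k34 k17 4 (.s k38 k46 1 (.s k25 k12 6 (.d k59 k55
  k8 1 4))))] .n) (.c k37 (.q k5 [(.s k17 k34 4 (.s k18 k19 0 (.s k33 k3 4 (.d k49 k50 k1 0 3)))),
  (.s k10 k15 2 (.s k138 k202 7 (.d k207 k69 k101 10 14)))] .n) .n))) .n))))) .n))))))))) (.c k32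
  (.q k51 [(.s k59 k55 1 (.s k34 k17 4 (.s k25 k8 4 (.d k38 k46 k12 1 6)))), (.s k48 k53 2 (.s k50
  k49 0 (.s k54 k62 1 (.s k57 k60 2 (.d k59 k56 k55 0 1))))), (.s k34 k17 4 (.s k26 k10 3 (.s k38
  k46 1 (.s k50 k14 5 (.d k48 k49 k53 0 2)))))] (.c k74 (.q k122 [(.s k59 k55 1 (.s k34 k17 4 (.s
  k25 k8 4 (.d k38 k46 k12 1 6)))), (.s k48 k53 2 (.s k50 k49 0 (.s k54 k62 1 (.s k57 k60 2 (.d k59
  k56 k55 0 1))))), (.s k34 k17 4 (.s k26 k10 3 (.s k38 k46 1 (.s k50 k14 5 (.d k48 k49 k53 0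
  2)))))] .n) (.c k122 (.q k74 [(.s k59 k55 1 (.s k34 k17 4 (.s k25 k8 4 (.d k38 k46 k12 1 6)))),
  (.s k48 k53 2 (.s k50 k49 0 (.s k54 k62 1 (.s k57 k60 2 (.d k59 k56 k55 0 1))))), (.s k34 k17 4
  (.s k26 k10 3 (.s k38 k46 1 (.s k50 k14 5 (.d k48 k49 k53 0 2)))))] .n) .n))) (.c k37 (.q k2 [(.s
  k3 k1 0 (.s k43 k23 5 (.s k41 k40 0 (.d k22 k62 k60 5 6)))), (.s k62 k22 5 (.s k26 k10 3 (.s k50
  k54 1 (.s k34 k18 3 (.d k38 k46 k14 1 5))))), (.s k3 k1 0 (.s k10 k26 3 (.s k6 k14 1 (.s k9 k12 2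
  (.s k11 k8 0 (.d k15 k5 k7 2 1))))))] (.c k5 (.l (.s k53 k48 2 (.s k3 k1 0 (.s k22 k62 5 (.s k41
  k60 6 (.d k43 k40 k23 0 5)))))) (.c k53 (.q k5 [(.d k10 k15 k26 2 3), (.s k3 k1 0 (.s k22 k62 5
  (.s k41 k60 6 (.d k43 k40 k23 0 5))))] (.c k74 (.q k122 [(.d k10 k15 k26 2 3), (.s k3 k1 0 (.s k22
  k62 5 (.s k41 k60 6 (.d k43 k40 k23 0 5))))] .n) (.c k122 (.q k74 [(.d k10 k15 k26 2 3), (.s k3 k1
  0 (.s k22 k62 5 (.s k41 k60 6 (.d k43 k40 k23 0 5))))] .n) .n))) (.c k74 (.q k122 [(.s k3 k1 0 (.s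
  k43 k23 5 (.s k41 k40 0 (.d k22 k62 k60 5 6)))), (.s k186 k250 7 (.s k181 k240 10 (.s k191 k176 2
  (.s k255 k127 7 (.d k48 k53 k117 2 10)))))] (.c k5 (.l (.s k53 k48 2 (.s k3 k1 0 (.s k22 k62 5 (.s
  k41 k60 6 (.d k43 k40 k23 0 5)))))) (.c k53 (.q k5 [(.d k10 k15 k26 2 3), (.s k3 k1 0 (.s k22 k62
  5 (.s k41 k60 6 (.d k43 k40 k23 0 5))))] .n) .n))) (.c k122 (.q k74 [(.s k3 k1 0 (.s k43 k23 5 (.s
  k41 k40 0 (.d k22 k62 k60 5 6)))), (.s k62 k22 5 (.s k26 k10 3 (.s k50 k54 1 (.s k34 k18 3 (.d k38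
  k46 k14 1 5))))), (.s k3 k1 0 (.s k10 k26 3 (.s k6 k14 1 (.s k9 k12 2 (.s k11 k8 0 (.d k15 k5 k7 2
  1))))))] (.c k5 (.l (.s k53 k48 2 (.s k3 k1 0 (.s k22 k62 5 (.s k41 k60 6 (.d k43 k40 k23 0
  5)))))) (.c k53 (.q k5 [(.d k10 k15 k26 2 3), (.s k3 k1 0 (.s k22 k62 5 (.s k41 k60 6 (.d k43 k40
  k23 0 5))))] .n) .n))) .n))))) (.c k47 (.q k2 [(.s k3 k1 0 (.s k43 k23 5 (.s k41 k40 0 (.d k22 k62
  k60 5 6)))), (.s k62 k22 5 (.s k26 k10 3 (.s k50 k54 1 (.s k34 k18 3 (.d k38 k46 k14 1 5))))), (.s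
  k3 k1 0 (.s k10 k26 3 (.s k5 k15 2 (.s k6 k14 1 (.s k12 k9 2 (.d k4 k7 k8 0 1))))))] (.c k74 (.q
  k122 [(.s k3 k1 0 (.s k43 k23 5 (.s k41 k40 0 (.d k22 k62 k60 5 6)))), (.s k48 k53 2 (.s k186 k250
  7 (.s k117 k255 10 (.s k240 k181 10 (.d k112 k127 k176 2 7)))))] (.c k165 (.q k224 [(.s k3 k1 0
  (.s k43 k23 5 (.s k41 k40 0 (.d k22 k62 k60 5 6)))), (.s k48 k53 2 (.s k32 k16 3 (.s k160 k96 7
  (.d k240 k181 k80 10 11))))] (.c k15 (.l (.s k240 k181 10 (.s k160 k80 11 (.s k32 k96 7 (.d k48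
  k53 k16 2 3))))) (.c k240 (.q k15 [(.d k10 k5 k26 2 3), (.s k3 k1 0 (.s k22 k62 5 (.s k41 k60 6
  (.d k43 k40 k23 0 5))))] .n) .n))) (.c k224 (.q k165 [(.s k3 k1 0 (.s k43 k23 5 (.s k41 k40 0 (.d
  k22 k62 k60 5 6)))), (.s k10 k26 3 (.s k5 k15 2 (.s k245 k85 11 (.s k250 k186 7 (.d k240 k255 k181
  2 10)))))] .n) .n))) (.c k122 (.q k74 [(.s k3 k1 0 (.s k43 k23 5 (.s k41 k40 0 (.d k22 k62 k60 5
  6)))), (.s k62 k22 5 (.s k26 k10 3 (.s k50 k54 1 (.s k34 k18 3 (.d k38 k46 k14 1 5))))), (.s k3 k1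
  0 (.s k10 k26 3 (.s k5 k15 2 (.s k6 k14 1 (.s k12 k9 2 (.d k4 k7 k8 0 1))))))] (.c k165 (.q k224
  [(.s k3 k1 0 (.s k43 k23 5 (.s k41 k40 0 (.d k22 k62 k60 5 6)))), (.s k62 k22 5 (.s k26 k10 3 (.s
  k50 k54 1 (.s k34 k18 3 (.d k38 k46 k14 1 5))))), (.s k3 k1 0 (.s k10 k26 3 (.s k15 k5 2 (.s k6
  k14 1 (.s k9 k12 2 (.d k11 k8 k7 0 1))))))] (.c k15 (.q k240 [(.s k160 k80 11 (.s k48 k53 2 (.d
  k32 k16 k96 3 7))), (.s k3 k1 0 (.s k22 k62 5 (.s k41 k60 6 (.d k43 k40 k23 0 5))))] .n) (.c k240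
  (.q k15 [(.d k10 k5 k26 2 3), (.s k3 k1 0 (.s k22 k62 5 (.s k41 k60 6 (.d k43 k40 k23 0 5))))] .n)
  .n))) (.c k224 (.q k165 [(.s k3 k1 0 (.s k43 k23 5 (.s k41 k40 0 (.d k22 k62 k60 5 6)))), (.s k62
  k22 5 (.s k26 k10 3 (.s k50 k54 1 (.s k34 k18 3 (.d k38 k46 k14 1 5))))), (.s k3 k1 0 (.s k10 k26
  3 (.s k5 k15 2 (.s k6 k14 1 (.s k12 k9 2 (.d k4 k7 k8 0 1))))))] .n) .n))) (.c k165 (.q k224 [(.s
  k3 k1 0 (.s k43 k23 5 (.s k41 k40 0 (.d k22 k62 k60 5 6)))), (.s k62 k22 5 (.s k26 k10 3 (.s k50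
  k54 1 (.s k34 k18 3 (.d k38 k46 k14 1 5))))), (.s k3 k1 0 (.s k10 k26 3 (.s k15 k5 2 (.s k6 k14 1
  (.s k9 k12 2 (.d k11 k8 k7 0 1))))))] (.c k15 (.q k240 [(.s k160 k80 11 (.s k48 k53 2 (.d k32 k16
  k96 3 7))), (.s k3 k1 0 (.s k22 k62 5 (.s k41 k60 6 (.d k43 k40 k23 0 5))))] (.c k74 (.l (.s k122
  k181 10 (.s k160 k80 11 (.s k32 k96 7 (.d k48 k53 k16 2 3))))) (.c k122 (.q k74 [(.s k160 k80 11
  (.s k48 k53 2 (.d k32 k16 k96 3 7))), (.s k3 k1 0 (.s k22 k62 5 (.s k41 k60 6 (.d k43 k40 k23 0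
  5))))] .n) .n))) (.c k74 (.q k122 [(.s k3 k1 0 (.s k43 k23 5 (.s k41 k40 0 (.d k22 k62 k60 5
  6)))), (.s k48 k53 2 (.s k32 k16 3 (.s k160 k96 7 (.d k240 k181 k80 10 11))))] (.c k15 (.l (.s
  k240 k181 10 (.s k160 k80 11 (.s k32 k96 7 (.d k48 k53 k16 2 3))))) (.c k240 (.q k15 [(.d k10 k5
  k26 2 3), (.s k3 k1 0 (.s k22 k62 5 (.s k41 k60 6 (.d k43 k40 k23 0 5))))] .n) .n))) (.c k122 (.q
  k74 [(.s k3 k1 0 (.s k43 k23 5 (.s k41 k40 0 (.d k22 k62 k60 5 6)))), (.s k62 k22 5 (.s k26 k10 3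
  (.s k50 k54 1 (.s k34 k18 3 (.d k38 k46 k14 1 5))))), (.s k3 k1 0 (.s k10 k26 3 (.s k15 k5 2 (.s
  k6 k14 1 (.s k9 k12 2 (.d k11 k8 k7 0 1))))))] (.c k15 (.q k240 [(.s k160 k80 11 (.s k48 k53 2 (.d
  k32 k16 k96 3 7))), (.s k3 k1 0 (.s k22 k62 5 (.s k41 k60 6 (.d k43 k40 k23 0 5))))] .n) (.c k240
  (.q k15 [(.d k10 k5 k26 2 3), (.s k3 k1 0 (.s k22 k62 5 (.s k41 k60 6 (.d k43 k40 k23 0 5))))] .n)
  .n))) (.c k240 (.q k15 [(.d k10 k5 k26 2 3), (.s k3 k1 0 (.s k22 k62 5 (.s k41 k60 6 (.d k43 k40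
  k23 0 5))))] (.c k74 (.q k122 [(.d k10 k5 k26 2 3), (.s k3 k1 0 (.s k22 k62 5 (.s k41 k60 6 (.d
  k43 k40 k23 0 5))))] .n) (.c k122 (.q k74 [(.d k10 k5 k26 2 3), (.s k3 k1 0 (.s k22 k62 5 (.s k41
  k60 6 (.d k43 k40 k23 0 5))))] .n) .n))) .n))))) (.c k224 (.q k165 [(.s k3 k1 0 (.s k43 k23 5 (.s
  k41 k40 0 (.d k22 k62 k60 5 6)))), (.s k62 k22 5 (.s k26 k10 3 (.s k50 k54 1 (.s k34 k18 3 (.d k38
  k46 k14 1 5))))), (.s k3 k1 0 (.s k10 k26 3 (.s k5 k15 2 (.s k6 k14 1 (.s k12 k9 2 (.d k4 k7 k8 0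
  1))))))] (.c k74 (.q k122 [(.s k3 k1 0 (.s k43 k23 5 (.s k41 k40 0 (.d k22 k62 k60 5 6)))), (.s
  k10 k26 3 (.s k5 k15 2 (.s k245 k85 11 (.s k250 k186 7 (.d k240 k255 k181 2 10)))))] .n) (.c k122
  (.q k74 [(.s k3 k1 0 (.s k43 k23 5 (.s k41 k40 0 (.d k22 k62 k60 5 6)))), (.s k62 k22 5 (.s k26
  k10 3 (.s k50 k54 1 (.s k34 k18 3 (.d k38 k46 k14 1 5))))), (.s k3 k1 0 (.s k10 k26 3 (.s k5 k15 2
  (.s k6 k14 1 (.s k12 k9 2 (.d k4 k7 k8 0 1))))))] .n) .n))) .n))))) (.c k48 (.q k51 [(.s k59 k55 1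
  (.s k34 k17 4 (.s k25 k8 4 (.d k38 k46 k12 1 6)))), (.s k10 k26 3 (.s k15 k5 2 (.s k27 k39 5 (.s
  k31 k47 3 (.s k23 k19 1 (.s k43 k3 5 (.d k59 k55 k11 1 3))))))), (.s k34 k17 4 (.s k26 k10 3 (.s
  k38 k46 1 (.s k50 k14 5 (.s k2 k18 3 (.d k62 k54 k22 1 5))))))] (.c k74 (.q k122 [(.s k59 k55 1
  (.s k34 k17 4 (.s k25 k8 4 (.d k38 k46 k12 1 6)))), (.s k55 k59 1 (.s k181 k240 10 (.s k118 k244 8
  (.s k252 k185 10 (.d k126 k114 k189 1 8))))), (.s k34 k17 4 (.s k26 k10 3 (.s k38 k46 1 (.s k50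
  k14 5 (.s k2 k18 3 (.d k62 k54 k22 1 5))))))] .n) (.c k122 (.q k74 [(.s k59 k55 1 (.s k34 k17 4
  (.s k25 k8 4 (.d k38 k46 k12 1 6)))), (.s k10 k26 3 (.s k15 k5 2 (.s k138 k202 7 (.s k69 k207 10
  (.s k192 k133 10 (.d k64 k79 k128 2 7))))))] .n) .n))) (.c k53 (.q k2 [(.s k3 k1 0 (.s k43 k23 5
  (.s k41 k40 0 (.d k22 k62 k60 5 6)))), (.s k62 k22 5 (.s k26 k10 3 (.s k50 k54 1 (.s k34 k18 3 (.d
  k38 k46 k14 1 5))))), (.s k3 k1 0 (.s k10 k26 3 (.s k5 k15 2 (.s k6 k14 1 (.s k12 k9 2 (.d k4 k7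
  k8 0 1))))))] (.c k5 (.q k37 [(.s k26 k10 3 (.s k15 k48 6 (.d k47 k32 k31 2 3))), (.s k3 k1 0 (.s
  k22 k62 5 (.s k41 k60 6 (.d k43 k40 k23 0 5))))] (.c k74 (.q k122 [(.s k32 k47 2 (.s k48 k16 3 (.d
  k26 k10 k15 3 6))), (.s k3 k1 0 (.s k22 k62 5 (.s k41 k60 6 (.d k43 k40 k23 0 5))))] .n) (.c k122
  (.q k74 [(.s k26 k10 3 (.s k15 k48 6 (.d k47 k32 k31 2 3))), (.s k3 k1 0 (.s k22 k62 5 (.s k41 k60
  6 (.d k43 k40 k23 0 5))))] .n) .n))) (.c k37 (.q k5 [(.d k10 k15 k26 2 3), (.s k3 k1 0 (.s k22 k62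
  5 (.s k41 k60 6 (.d k43 k40 k23 0 5))))] (.c k74 (.q k122 [(.d k10 k15 k26 2 3), (.s k3 k1 0 (.s
  k22 k62 5 (.s k41 k60 6 (.d k43 k40 k23 0 5))))] .n) (.c k122 (.q k74 [(.d k10 k15 k26 2 3), (.s
  k3 k1 0 (.s k22 k62 5 (.s k41 k60 6 (.d k43 k40 k23 0 5))))] .n) .n))) (.c k74 (.q k122 [(.s k3 k1
  0 (.s k43 k23 5 (.s k41 k40 0 (.d k22 k62 k60 5 6)))), (.s k62 k22 5 (.s k26 k10 3 (.s k50 k54 1
  (.s k34 k18 3 (.d k38 k46 k14 1 5))))), (.s k3 k1 0 (.s k10 k26 3 (.s k5 k15 2 (.s k6 k14 1 (.s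
  k12 k9 2 (.d k4 k7 k8 0 1))))))] (.c k5 (.q k37 [(.s k32 k47 2 (.s k48 k16 3 (.d k26 k10 k15 3
  6))), (.s k3 k1 0 (.s k22 k62 5 (.s k41 k60 6 (.d k43 k40 k23 0 5))))] .n) (.c k37 (.q k5 [(.d k10
  k15 k26 2 3), (.s k3 k1 0 (.s k22 k62 5 (.s k41 k60 6 (.d k43 k40 k23 0 5))))] .n) .n))) (.c k122
  (.q k74 [(.s k3 k1 0 (.s k43 k23 5 (.s k41 k40 0 (.d k22 k62 k60 5 6)))), (.s k62 k22 5 (.s k26
  k10 3 (.s k50 k54 1 (.s k34 k18 3 (.d k38 k46 k14 1 5))))), (.s k3 k1 0 (.s k10 k26 3 (.s k5 k15 2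
  (.s k6 k14 1 (.s k12 k9 2 (.d k4 k7 k8 0 1))))))] (.c k5 (.q k37 [(.s k26 k10 3 (.s k15 k48 6 (.d
  k47 k32 k31 2 3))), (.s k3 k1 0 (.s k22 k62 5 (.s k41 k60 6 (.d k43 k40 k23 0 5))))] .n) (.c k37
  (.q k5 [(.d k10 k15 k26 2 3), (.s k3 k1 0 (.s k22 k62 5 (.s k41 k60 6 (.d k43 k40 k23 0 5))))] .n)
  .n))) .n))))) (.c k74 (.q k122 [(.s k48 k53 2 (.s k32 k16 3 (.s k37 k47 2 (.d k26 k10 k15 3 6)))),
  (.s k48 k53 2 (.s k240 k181 10 (.s k112 k176 7 (.s k117 k127 2 (.d k186 k250 k255 7 10))))), (.s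
  k186 k250 7 (.s k181 k240 10 (.s k191 k176 2 (.s k255 k127 7 (.d k48 k53 k117 2 10)))))] (.c k48
  (.q k51 [(.s k59 k55 1 (.s k34 k17 4 (.s k25 k8 4 (.d k38 k46 k12 1 6)))), (.s k55 k59 1 (.s k181
  k240 10 (.s k118 k244 8 (.s k252 k185 10 (.d k126 k114 k189 1 8))))), (.s k34 k17 4 (.s k26 k10 3
  (.s k38 k46 1 (.s k50 k14 5 (.s k2 k18 3 (.d k62 k54 k22 1 5))))))] .n) (.c k53 (.q k37 [(.s k10
  k26 3 (.s k15 k5 2 (.d k47 k31 k32 3 2))), (.s k26 k10 3 (.s k48 k15 6 (.s k240 k181 10 (.s k112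
  k176 7 (.s k117 k127 2 (.d k186 k250 k255 7 10)))))), (.s k32 k47 2 (.s k48 k16 3 (.s k240 k181 10
  (.s k112 k176 7 (.s k117 k127 2 (.d k186 k250 k255 7 10))))))] (.c k26 (.l (.s k32 k47 2 (.s k186
  k250 7 (.s k181 k240 10 (.s k191 k176 2 (.s k255 k127 7 (.d k48 k16 k117 3 10))))))) .n)) .n)))
  (.c k122 (.q k74 [(.s k26 k10 3 (.s k48 k53 2 (.s k32 k16 3 (.d k37 k47 k15 2 6)))), (.s k10 k26 3
  (.s k138 k202 7 (.s k69 k207 10 (.s k64 k79 2 (.s k192 k128 7 (.d k15 k5 k133 2 10))))))] (.c k5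
  (.l (.s k26 k10 3 (.s k48 k53 2 (.s k37 k15 6 (.d k32 k47 k16 2 3))))) (.c k10 (.q k51 [(.s k34
  k17 4 (.s k38 k46 1 (.s k25 k12 6 (.d k59 k55 k8 1 4)))), (.s k48 k53 2 (.s k50 k49 0 (.s k54 k62
  1 (.s k57 k60 2 (.d k59 k56 k55 0 1))))), (.s k34 k17 4 (.s k48 k53 2 (.s k50 k49 0 (.s k2 k18 3
  (.d k62 k54 k22 1 5)))))] (.c k170 (.q k250 [(.s k34 k17 4 (.s k38 k46 1 (.s k25 k12 6 (.d k59 k55
  k8 1 4)))), (.s k48 k53 2 (.s k50 k49 0 (.s k54 k62 1 (.s k57 k60 2 (.d k59 k56 k55 0 1))))), (.s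
  k34 k17 4 (.s k48 k53 2 (.s k50 k49 0 (.s k2 k18 3 (.d k62 k54 k22 1 5)))))] .n) (.c k250 (.q k170
  [(.s k34 k17 4 (.s k38 k46 1 (.s k25 k12 6 (.d k59 k55 k8 1 4)))), (.s k17 k34 4 (.s k85 k255 14
  (.s k153 k221 9 (.s k204 k102 14 (.d k136 k187 k68 4 9))))), (.s k255 k85 14 (.s k59 k55 1 (.s
  k187 k119 9 (.s k251 k123 7 (.d k8 k89 k25 12 4)))))] .n) .n))) (.c k15 (.f k48 k53 2 (.l (.s k16
  k32 3 (.s k10 k26 3 (.s k138 k202 7 (.s k207 k69 10 (.s k154 k101 14 (.s k85 k223 10 (.d k170 k186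
  k255 3 14))))))))) (.c k16 (.q k15 [(.d k10 k26 k5 3 2)] (.c k5 (.l (.s k26 k10 3 (.d k48 k53 k37
  2 6))) (.c k10 (.f k48 k53 2 (.l (.s k192 k133 10 (.s k64 k128 7 (.s k96 k144 11 (.s k80 k112 3
  (.s k160 k240 11 (.s k32 k224 7 (.d k37 k47 k26 2 6))))))))) (.c k26 (.l (.s k31 k47 3 (.s k5 k10
  2 (.s k133 k192 10 (.s k69 k197 7 (.s k207 k138 10 (.d k79 k64 k143 2 7))))))) (.c k31 (.l (.s k26
  k10 3 (.d k48 k53 k37 2 6))) .n))))) (.c k26 (.f k48 k53 2 (.f k16 k32 3 (.q k51 [(.s k17 k34 4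
  (.s k18 k19 0 (.s k33 k3 4 (.d k49 k50 k1 0 3)))), (.s k34 k17 4 (.s k38 k46 1 (.s k25 k12 6 (.d
  k59 k55 k8 1 4)))), (.s k50 k49 0 (.s k54 k62 1 (.s k57 k60 2 (.d k59 k56 k55 0 1))))] (.c k5 (.q
  k37 [(.s k17 k34 4 (.s k18 k19 0 (.s k33 k3 4 (.d k49 k50 k1 0 3)))), (.s k49 k50 0 (.s k59 k55 1
  (.d k25 k8 k13 4 5))), (.s k34 k17 4 (.s k38 k46 1 (.s k25 k12 6 (.d k59 k55 k8 1 4))))] (.c k154
  (.q k218 [(.s k17 k34 4 (.s k18 k19 0 (.s k33 k3 4 (.d k49 k50 k1 0 3)))), (.s k49 k50 0 (.s k59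
  k55 1 (.d k25 k8 k13 4 5))), (.s k34 k17 4 (.s k38 k46 1 (.s k25 k12 6 (.d k59 k55 k8 1 4))))] .n)
  (.c k218 (.q k154 [(.s k17 k34 4 (.s k18 k19 0 (.s k33 k3 4 (.d k49 k50 k1 0 3)))), (.s k49 k50 0
  (.s k59 k55 1 (.d k25 k8 k13 4 5))), (.s k34 k17 4 (.s k38 k46 1 (.s k25 k12 6 (.d k59 k55 k8 1
  4))))] .n) .n))) (.c k37 (.q k5 [(.s k17 k34 4 (.s k18 k19 0 (.s k33 k3 4 (.d k49 k50 k1 0 3)))),
  (.s k34 k17 4 (.s k38 k46 1 (.s k25 k12 6 (.d k59 k55 k8 1 4)))), (.s k50 k49 0 (.s k54 k62 1 (.s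
  k57 k60 2 (.d k59 k56 k55 0 1))))] (.c k154 (.q k218 [(.s k17 k34 4 (.s k18 k19 0 (.s k33 k3 4 (.d
  k49 k50 k1 0 3)))), (.s k34 k17 4 (.s k38 k46 1 (.s k25 k12 6 (.d k59 k55 k8 1 4)))), (.s k50 k49
  0 (.s k54 k62 1 (.s k57 k60 2 (.d k59 k56 k55 0 1))))] .n) (.c k218 (.q k154 [(.s k17 k34 4 (.s
  k18 k19 0 (.s k33 k3 4 (.d k49 k50 k1 0 3)))), (.s k10 k15 2 (.s k138 k202 7 (.d k207 k69 k101 10
  14)))] .n) .n))) (.c k154 (.q k218 [(.s k17 k34 4 (.s k18 k19 0 (.s k33 k3 4 (.d k49 k50 k1 0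
  3)))), (.s k34 k17 4 (.s k38 k46 1 (.s k25 k12 6 (.d k59 k55 k8 1 4)))), (.s k50 k49 0 (.s k54 k62
  1 (.s k57 k60 2 (.d k59 k56 k55 0 1))))] (.c k5 (.q k37 [(.s k17 k34 4 (.s k18 k19 0 (.s k33 k3 4
  (.d k49 k50 k1 0 3)))), (.s k49 k50 0 (.s k59 k55 1 (.d k25 k8 k13 4 5))), (.s k34 k17 4 (.s k38
  k46 1 (.s k25 k12 6 (.d k59 k55 k8 1 4))))] .n) (.c k37 (.q k5 [(.s k17 k34 4 (.s k18 k19 0 (.s
  k33 k3 4 (.d k49 k50 k1 0 3)))), (.s k34 k17 4 (.s k38 k46 1 (.s k25 k12 6 (.d k59 k55 k8 1 4)))),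
  (.s k50 k49 0 (.s k54 k62 1 (.s k57 k60 2 (.d k59 k56 k55 0 1))))] .n) .n))) (.c k218 (.q k154
  [(.s k17 k34 4 (.s k18 k19 0 (.s k33 k3 4 (.d k49 k50 k1 0 3)))), (.s k85 k223 10 (.s k170 k255 14
  (.s k207 k101 14 (.d k138 k186 k69 3 10))))] (.c k5 (.q k37 [(.s k17 k34 4 (.s k18 k19 0 (.s k33
  k3 4 (.d k49 k50 k1 0 3)))), (.s k49 k50 0 (.s k59 k55 1 (.d k25 k8 k13 4 5))), (.s k34 k17 4 (.s
  k38 k46 1 (.s k25 k12 6 (.d k59 k55 k8 1 4))))] .n) (.c k37 (.q k5 [(.s k17 k34 4 (.s k18 k19 0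
  (.s k33 k3 4 (.d k49 k50 k1 0 3)))), (.s k10 k15 2 (.s k138 k202 7 (.d k207 k69 k101 10 14)))] .n)
  .n))) .n))))))) .n)))))) .n))))))))))))))

def t91 : T TT 256 :=
  (.q k12 [(.s k8 k4 1 (.s k46 k29 4 (.s k42 k21 6 (.s k38 k34 1 (.d k25 k59 k51 4 6)))))] (.c k4
  (.q k62 [(.s k46 k29 4 (.s k30 k14 3 (.s k60 k61 0 (.s k44 k28 3 (.d k45 k47 k15 0 4))))), (.s k42
  k21 6 (.s k22 k2 5 (.s k60 k61 0 (.s k40 k20 5 (.d k41 k43 k3 0 6))))), (.s k42 k21 6 (.s k2 k22 5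
  (.s k46 k29 4 (.s k14 k30 3 (.s k6 k10 1 (.d k3 k1 k9 0 2))))))] .n) (.c k8 (.q k62 [(.s k42 k21 6
  (.s k22 k2 5 (.s k60 k61 0 (.s k40 k20 5 (.d k41 k43 k3 0 6))))), (.s k46 k29 4 (.s k30 k14 3 (.s
  k60 k61 0 (.s k44 k28 3 (.d k45 k47 k15 0 4))))), (.s k42 k21 6 (.s k2 k22 5 (.s k46 k29 4 (.s k14
  k30 3 (.s k6 k10 1 (.d k3 k9 k1 2 0))))))] .n) (.c k17 (.l (.s k8 k4 1 (.s k42 k21 6 (.s k25 k59 4
  (.s k38 k51 6 (.d k46 k29 k34 4 1)))))) (.c k21 (.q k170 [(.s k4 k8 1 (.s k85 k255 14 (.s k166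
  k247 12 (.s k162 k174 1 (.d k243 k81 k89 12 14))))), (.s k255 k85 14 (.s k29 k46 4 (.s k93 k174 12
  (.s k157 k221 7 (.s k110 k204 12 (.d k127 k76 k191 4 7))))))] (.c k85 (.f k8 k4 1 (.l (.s k89 k251
  12 (.s k29 k46 4 (.s k166 k243 14 (.s k149 k209 9 (.s k128 k191 6 (.s k132 k183 4 (.d k192 k64 k72
  7 9))))))))) (.c k166 (.l (.s k255 k85 14 (.s k46 k29 4 (.s k174 k93 12 (.s k110 k238 7 (.s k157
  k204 12 (.d k191 k127 k140 7 4))))))) (.c k174 (.l (.s k8 k4 1 (.s k85 k255 14 (.s k89 k251 12 (.s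
  k243 k166 14 (.d k81 k93 k162 1 12)))))) (.c k255 (.f k8 k4 1 (.l (.s k89 k251 12 (.s k29 k46 4
  (.s k149 k209 9 (.s k128 k191 6 (.s k192 k64 7 (.s k132 k72 9 (.d k166 k243 k183 14 4)))))))))
  .n))))) (.c k25 (.q k3 [(.s k1 k2 0 (.s k8 k4 1 (.s k9 k6 2 (.s k5 k13 1 (.d k10 k11 k15 0 2))))),
  (.s k2 k1 0 (.s k42 k21 6 (.s k22 k62 5 (.s k41 k60 6 (.d k43 k40 k23 0 5))))), (.s k21 k42 6 (.s
  k6 k9 2 (.s k23 k43 5 (.s k22 k20 0 (.s k38 k54 3 (.d k4 k8 k55 1 4))))))] .n) (.c k29 (.q k3 [(.s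
  k1 k2 0 (.s k8 k4 1 (.s k9 k6 2 (.s k5 k13 1 (.d k10 k11 k15 0 2))))), (.s k1 k2 0 (.s k21 k42 6
  (.s k23 k43 5 (.s k22 k20 0 (.d k41 k61 k60 5 6))))), (.s k4 k8 1 (.s k21 k42 6 (.s k6 k9 2 (.s
  k23 k43 5 (.s k38 k55 4 (.d k22 k20 k54 0 3))))))] .n) (.c k34 (.l (.s k4 k8 1 (.s k21 k42 6 (.s
  k38 k55 4 (.s k25 k51 6 (.d k29 k46 k17 4 1)))))) (.c k38 (.q k3 [(.s k2 k1 0 (.s k4 k8 1 (.s k6
  k9 2 (.s k10 k14 1 (.d k5 k7 k15 0 2))))), (.s k1 k2 0 (.s k21 k42 6 (.s k41 k61 5 (.s k22 k60 6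
  (.d k23 k20 k43 0 5))))), (.s k42 k21 6 (.s k9 k6 2 (.s k43 k23 5 (.s k41 k40 0 (.s k25 k57 3 (.d
  k8 k4 k59 1 4))))))] .n) (.c k42 (.f k8 k4 1 (.q k170 [(.s k85 k255 14 (.s k89 k251 12 (.s k81 k93
  1 (.d k243 k162 k166 12 14)))), (.s k255 k85 14 (.s k29 k46 4 (.s k93 k174 12 (.s k157 k221 7 (.s
  k110 k204 12 (.d k127 k76 k191 4 7)))))), (.s k89 k251 12 (.s k29 k46 4 (.s k149 k209 9 (.s k128
  k191 6 (.s k192 k64 7 (.s k132 k72 9 (.d k166 k183 k243 4 14)))))))] (.c k85 (.l (.s k89 k251 12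
  (.s k29 k46 4 (.s k166 k243 14 (.s k149 k209 9 (.s k128 k191 6 (.s k132 k183 4 (.d k192 k64 k72 7
  9)))))))) (.c k166 (.f k46 k29 4 (.q k3 [(.s k1 k2 0 (.s k85 k255 14 (.s k169 k253 13 (.s k168
  k171 0 (.d k252 k84 k86 13 14))))), (.s k1 k2 0 (.s k9 k6 2 (.s k5 k13 1 (.d k10 k11 k15 0 2)))),
  (.s k9 k6 2 (.s k89 k251 12 (.s k169 k249 11 (.s k171 k168 0 (.d k255 k85 k87 14 13)))))] (.c k11
  (.l (.s k1 k2 0 (.s k85 k255 14 (.s k169 k253 13 (.s k9 k6 2 (.d k89 k249 k251 11 12)))))) (.c k85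
  (.q k247 [(.s k2 k1 0 (.s k86 k254 13 (.s k169 k252 14 (.s k89 k251 12 (.d k9 k6 k249 2 11))))),
  (.s k1 k2 0 (.s k251 k89 12 (.s k243 k255 1 (.s k81 k162 12 (.s k161 k241 11 (.s k82 k240 12 (.d
  k83 k80 k163 0 11))))))), (.s k1 k2 0 (.s k9 k6 2 (.s k5 k13 1 (.d k10 k11 k15 0 2)))), (.s k9 k6
  2 (.s k43 k23 5 (.s k251 k89 12 (.s k243 k255 1 (.s k123 k183 9 (.s k59 k187 7 (.d k11 k10 k27 0
  3)))))))] (.c k64 (.q k127 [(.s k255 k191 7 (.d k251 k243 k89 1 12)), (.s k1 k2 0 (.s k9 k6 2 (.s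
  k5 k13 1 (.d k10 k11 k15 0 2))))] .n) (.c k127 (.q k64 [(.s k192 k128 7 (.s k72 k132 9 (.s k136
  k200 7 (.d k68 k76 k204 1 9)))), (.s k1 k2 0 (.s k9 k6 2 (.s k5 k13 1 (.d k10 k11 k15 0 2))))] .n)
  .n))) (.c k86 (.l (.s k1 k2 0 (.s k85 k255 14 (.s k169 k253 13 (.s k89 k251 12 (.d k9 k6 k249 2
  11)))))) (.c k247 (.l (.s k85 k255 14 (.s k1 k2 0 (.s k169 k253 13 (.s k9 k6 2 (.d k89 k251 k249
  12 11)))))) .n)))))) .n)))) (.c k46 (.q k3 [(.s k1 k2 0 (.s k8 k4 1 (.s k9 k6 2 (.s k5 k13 1 (.d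
  k10 k11 k15 0 2))))), (.s k1 k2 0 (.s k21 k42 6 (.s k41 k61 5 (.s k22 k60 6 (.d k23 k20 k43 0
  5))))), (.s k4 k8 1 (.s k21 k42 6 (.s k6 k9 2 (.s k23 k43 5 (.s k38 k55 4 (.d k22 k20 k54 0
  3))))))] (.c k166 (.q k226 [(.s k1 k2 0 (.s k21 k42 6 (.s k41 k61 5 (.s k22 k60 6 (.d k23 k20 k43
  0 5))))), (.s k1 k2 0 (.s k8 k4 1 (.s k9 k6 2 (.s k5 k13 1 (.d k10 k11 k15 0 2))))), (.s k4 k8 1
  (.s k21 k42 6 (.s k6 k9 2 (.s k23 k43 5 (.s k38 k55 4 (.d k22 k20 k54 0 3))))))] .n) (.c k226 (.q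
  k166 [(.s k1 k2 0 (.s k8 k4 1 (.s k9 k6 2 (.s k5 k13 1 (.d k10 k11 k15 0 2))))), (.s k4 k8 1 (.s
  k85 k247 12 (.s k170 k255 14 (.s k243 k89 14 (.d k162 k174 k81 1 12))))), (.s k1 k2 0 (.s k21 k42
  6 (.s k41 k61 5 (.s k22 k60 6 (.d k23 k20 k43 0 5)))))] .n) .n))) (.c k51 (.q k3 [(.s k1 k2 0 (.s
  k8 k4 1 (.s k9 k6 2 (.s k5 k13 1 (.d k10 k11 k15 0 2))))), (.s k1 k2 0 (.s k21 k42 6 (.s k41 k61 5
  (.s k22 k60 6 (.d k23 k20 k43 0 5))))), (.s k4 k8 1 (.s k21 k42 6 (.s k6 k9 2 (.s k23 k43 5 (.s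
  k38 k55 4 (.d k22 k20 k54 0 3))))))] .n) (.c k55 (.l (.s k8 k4 1 (.s k46 k29 4 (.s k42 k21 6 (.s
  k38 k34 1 (.d k25 k59 k51 4 6)))))) (.c k59 (.l (.s k4 k8 1 (.s k29 k46 4 (.s k21 k42 6 (.s k25
  k17 1 (.d k38 k55 k51 4 6)))))) .n))))))))))))))

def t95 : T TT 256 :=
  (.q k12 [(.s k8 k4 1 (.s k46 k29 4 (.s k42 k21 6 (.s k38 k34 1 (.d k25 k59 k51 4 6)))))] (.c k4
  (.q k62 [(.s k46 k29 4 (.s k30 k14 3 (.s k60 k61 0 (.s k44 k28 3 (.d k45 k47 k15 0 4))))), (.s k42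
  k21 6 (.s k22 k2 5 (.s k60 k61 0 (.s k40 k20 5 (.d k41 k43 k3 0 6))))), (.s k42 k21 6 (.s k2 k22 5
  (.s k46 k29 4 (.s k14 k30 3 (.s k6 k10 1 (.d k3 k1 k9 0 2))))))] .n) (.c k8 (.q k62 [(.s k42 k21 6
  (.s k22 k2 5 (.s k60 k61 0 (.s k40 k20 5 (.d k41 k43 k3 0 6))))), (.s k46 k29 4 (.s k30 k14 3 (.s
  k60 k61 0 (.s k44 k28 3 (.d k45 k47 k15 0 4))))), (.s k42 k21 6 (.s k2 k22 5 (.s k46 k29 4 (.s k14
  k30 3 (.s k6 k10 1 (.d k3 k9 k1 2 0))))))] .n) (.c k17 (.l (.s k8 k4 1 (.s k42 k21 6 (.s k25 k59 4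
  (.s k38 k51 6 (.d k46 k29 k34 4 1)))))) (.c k21 (.q k170 [(.s k4 k8 1 (.s k85 k255 14 (.s k166
  k247 12 (.s k162 k174 1 (.d k243 k81 k89 12 14))))), (.s k255 k85 14 (.s k29 k46 4 (.s k93 k174 12
  (.s k157 k221 7 (.s k110 k204 12 (.d k127 k76 k191 4 7))))))] (.c k85 (.f k8 k4 1 (.l (.s k89 k251
  12 (.s k29 k46 4 (.s k166 k243 14 (.s k149 k209 9 (.s k128 k191 6 (.s k132 k183 4 (.d k192 k64 k72
  7 9))))))))) (.c k166 (.l (.s k255 k85 14 (.s k46 k29 4 (.s k174 k93 12 (.s k110 k238 7 (.s k157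
  k204 12 (.d k191 k127 k140 7 4))))))) (.c k174 (.l (.s k8 k4 1 (.s k85 k255 14 (.s k89 k251 12 (.s
  k243 k166 14 (.d k81 k93 k162 1 12)))))) (.c k255 (.f k8 k4 1 (.l (.s k89 k251 12 (.s k29 k46 4
  (.s k149 k209 9 (.s k128 k191 6 (.s k192 k64 7 (.s k132 k72 9 (.d k166 k243 k183 14 4)))))))))
  .n))))) (.c k25 (.q k3 [(.s k1 k2 0 (.s k8 k4 1 (.s k9 k6 2 (.s k10 k11 0 (.d k5 k13 k15 1 2))))),
  (.s k2 k1 0 (.s k42 k21 6 (.s k22 k62 5 (.s k41 k60 6 (.d k43 k40 k23 0 5))))), (.s k21 k42 6 (.s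
  k6 k9 2 (.s k23 k43 5 (.s k22 k20 0 (.s k38 k54 3 (.d k4 k8 k55 1 4))))))] .n) (.c k29 (.q k3 [(.s
  k1 k2 0 (.s k8 k4 1 (.s k9 k6 2 (.s k10 k11 0 (.d k5 k13 k15 1 2))))), (.s k1 k2 0 (.s k21 k42 6
  (.s k23 k43 5 (.s k22 k20 0 (.d k41 k61 k60 5 6))))), (.s k4 k8 1 (.s k21 k42 6 (.s k6 k9 2 (.s
  k23 k43 5 (.s k38 k55 4 (.d k22 k20 k54 0 3))))))] .n) (.c k34 (.l (.s k4 k8 1 (.s k21 k42 6 (.s
  k38 k55 4 (.s k25 k51 6 (.d k29 k46 k17 4 1)))))) (.c k38 (.q k3 [(.s k2 k1 0 (.s k4 k8 1 (.s k6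
  k9 2 (.s k10 k14 1 (.d k5 k7 k15 0 2))))), (.s k1 k2 0 (.s k21 k42 6 (.s k41 k61 5 (.s k22 k60 6
  (.d k23 k20 k43 0 5))))), (.s k42 k21 6 (.s k9 k6 2 (.s k43 k23 5 (.s k41 k40 0 (.s k25 k57 3 (.d
  k8 k4 k59 1 4))))))] .n) (.c k42 (.q k170 [(.s k8 k4 1 (.s k255 k85 14 (.s k89 k251 12 (.s k166
  k243 14 (.d k174 k162 k93 1 12))))), (.s k255 k85 14 (.s k29 k46 4 (.s k93 k174 12 (.s k157 k221 7
  (.s k110 k204 12 (.d k127 k76 k191 4 7)))))), (.s k4 k8 1 (.s k85 k255 14 (.s k166 k247 12 (.s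
  k243 k89 14 (.d k162 k174 k81 1 12)))))] (.c k85 (.f k8 k4 1 (.l (.s k89 k251 12 (.s k29 k46 4 (.s
  k166 k243 14 (.s k149 k209 9 (.s k128 k191 6 (.s k132 k183 4 (.d k192 k64 k72 7 9))))))))) (.c
  k166 (.l (.s k255 k85 14 (.s k46 k29 4 (.s k174 k93 12 (.s k110 k238 7 (.s k157 k204 12 (.d k191
  k127 k140 7 4))))))) (.c k174 (.l (.s k8 k4 1 (.s k85 k255 14 (.s k89 k251 12 (.s k243 k166 14 (.d
  k81 k93 k162 1 12)))))) (.c k255 (.f k8 k4 1 (.l (.s k89 k251 12 (.s k29 k46 4 (.s k149 k209 9 (.s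
  k128 k191 6 (.s k192 k64 7 (.s k132 k72 9 (.d k166 k243 k183 14 4))))))))) .n))))) (.c k46 (.q k3
  [(.s k1 k2 0 (.s k8 k4 1 (.s k9 k6 2 (.s k5 k13 1 (.d k10 k11 k15 0 2))))), (.s k1 k2 0 (.s k21
  k42 6 (.s k41 k61 5 (.s k22 k60 6 (.d k23 k20 k43 0 5))))), (.s k4 k8 1 (.s k21 k42 6 (.s k6 k9 2
  (.s k23 k43 5 (.s k38 k55 4 (.d k22 k20 k54 0 3))))))] (.c k166 (.q k226 [(.s k1 k2 0 (.s k21 k42
  6 (.s k41 k61 5 (.s k22 k60 6 (.d k23 k20 k43 0 5))))), (.s k1 k2 0 (.s k8 k4 1 (.s k9 k6 2 (.s k5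
  k13 1 (.d k10 k11 k15 0 2))))), (.s k4 k8 1 (.s k21 k42 6 (.s k6 k9 2 (.s k23 k43 5 (.s k38 k55 4
  (.d k22 k20 k54 0 3))))))] .n) (.c k226 (.q k166 [(.s k1 k2 0 (.s k8 k4 1 (.s k9 k6 2 (.s k5 k13 1
  (.d k10 k11 k15 0 2))))), (.s k1 k2 0 (.s k21 k42 6 (.s k41 k61 5 (.s k22 k60 6 (.d k23 k20 k43 0
  5))))), (.s k4 k8 1 (.s k85 k247 12 (.s k170 k255 14 (.s k243 k89 14 (.d k162 k174 k81 1 12)))))]
  .n) .n))) (.c k51 (.q k3 [(.s k1 k2 0 (.s k8 k4 1 (.s k9 k6 2 (.s k5 k13 1 (.d k10 k11 k15 0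
  2))))), (.s k1 k2 0 (.s k21 k42 6 (.s k41 k61 5 (.s k22 k60 6 (.d k23 k20 k43 0 5))))), (.s k4 k8
  1 (.s k21 k42 6 (.s k6 k9 2 (.s k23 k43 5 (.s k38 k55 4 (.d k22 k20 k54 0 3))))))] .n) (.c k55 (.l
  (.s k8 k4 1 (.s k46 k29 4 (.s k42 k21 6 (.s k38 k34 1 (.d k25 k59 k51 4 6)))))) (.c k59 (.l (.s k4
  k8 1 (.s k29 k46 4 (.s k21 k42 6 (.s k25 k17 1 (.d k38 k55 k51 4 6)))))) .n))))))))))))))

def t107 : T TT 256 :=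
  (.q k60 [(.s k40 k20 5 (.s k62 k61 0 (.s k42 k21 6 (.s k22 k2 5 (.d k41 k43 k3 0 6)))))] (.c k1
  (.l (.s k40 k20 5 (.s k42 k21 6 (.s k41 k43 0 (.s k22 k3 6 (.d k62 k61 k2 0 5)))))) (.c k2 (.l (.s
  k20 k40 5 (.s k21 k42 6 (.s k22 k23 0 (.s k41 k3 6 (.d k61 k62 k1 0 5)))))) (.c k3 (.q k105 [(.s
  k20 k40 5 (.s k150 k195 14 (.s k85 k215 8 (.s k125 k65 5 (.d k255 k190 k170 8 14))))), (.s k21 k42
  6 (.s k61 k62 0 (.s k1 k41 5 (.s k193 k149 13 (.s k65 k129 7 (.d k195 k150 k130 14 8)))))), (.s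
  k40 k20 5 (.s k21 k42 6 (.s k170 k235 8 (.s k85 k255 14 (.s k149 k213 7 (.d k61 k62 k193 0
  13))))))] (.c k40 (.l (.s k21 k42 6 (.s k61 k62 0 (.s k149 k193 13 (.s k85 k213 7 (.s k65 k125 5
  (.d k195 k150 k130 14 8))))))) (.c k170 (.l (.s k20 k40 5 (.s k61 k62 0 (.s k150 k195 14 (.s k85
  k215 8 (.s k149 k193 13 (.d k21 k42 k213 6 7))))))) (.c k195 (.l (.s k40 k20 5 (.s k21 k42 6 (.s
  k170 k235 8 (.s k61 k62 0 (.s k149 k193 13 (.d k85 k255 k213 14 7))))))) .n)))) (.c k20 (.f k62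
  k61 0 (.q k8 [(.s k12 k4 1 (.s k44 k28 3 (.s k46 k29 4 (.s k30 k14 3 (.d k45 k47 k15 0 4))))), (.s
  k42 k21 6 (.s k22 k2 5 (.s k59 k25 4 (.s k51 k55 1 (.s k54 k57 2 (.s k38 k6 3 (.d k34 k17 k46 4
  1))))))), (.s k12 k4 1 (.s k42 k21 6 (.s k22 k2 5 (.s k25 k59 4 (.d k28 k19 k44 2 3)))))] (.c k4
  (.l (.s k42 k21 6 (.s k22 k2 5 (.s k25 k59 4 (.s k28 k19 2 (.s k12 k44 3 (.s k38 k51 6 (.d k46 k34
  k29 1 4)))))))) (.c k104 (.q k105 [(.s k12 k4 1 (.s k44 k28 3 (.s k46 k29 4 (.s k30 k14 3 (.d k45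
  k47 k15 0 4))))), (.s k42 k21 6 (.s k22 k2 5 (.s k59 k25 4 (.s k51 k55 1 (.s k54 k57 2 (.s k38 k6
  3 (.d k34 k17 k46 4 1))))))), (.s k12 k4 1 (.s k42 k21 6 (.s k22 k2 5 (.s k25 k59 4 (.d k28 k19
  k44 2 3)))))] (.c k4 (.l (.s k42 k21 6 (.s k22 k2 5 (.s k25 k59 4 (.s k28 k19 2 (.s k12 k44 3 (.s
  k38 k51 6 (.d k46 k34 k29 1 4)))))))) .n)) (.c k105 (.q k104 [(.s k12 k4 1 (.s k44 k28 3 (.s k46
  k29 4 (.s k30 k14 3 (.d k45 k47 k15 0 4))))), (.s k42 k21 6 (.s k22 k2 5 (.s k59 k25 4 (.s k51 k55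
  1 (.s k54 k57 2 (.s k38 k6 3 (.d k34 k17 k46 4 1))))))), (.s k12 k4 1 (.s k42 k21 6 (.s k22 k2 5
  (.s k25 k59 4 (.d k28 k19 k44 2 3)))))] (.c k4 (.l (.s k42 k21 6 (.s k22 k2 5 (.s k25 k59 4 (.s
  k28 k19 2 (.s k12 k44 3 (.s k38 k51 6 (.d k46 k34 k29 1 4)))))))) (.c k149 (.q k193 [(.s k12 k4 1
  (.s k44 k28 3 (.s k46 k29 4 (.s k30 k14 3 (.d k45 k47 k15 0 4))))), (.s k42 k21 6 (.s k192 k148 13
  (.s k195 k194 0 (.s k65 k130 8 (.s k1 k129 7 (.d k2 k22 k3 5 0))))))] .n) (.c k193 (.q k149 [(.s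
  k21 k42 6 (.s k85 k213 7 (.s k170 k255 14 (.s k192 k148 13 (.d k128 k191 k64 6 7))))), (.s k12 k4
  1 (.s k44 k28 3 (.s k46 k29 4 (.s k30 k14 3 (.d k45 k47 k15 0 4)))))] .n) .n)))) .n))))) (.c k21
  (.q k126 [(.s k20 k40 5 (.s k252 k189 8 (.s k84 k168 13 (.s k148 k212 7 (.s k104 k192 13 (.d k124
  k64 k188 5 7)))))), (.s k61 k62 0 (.s k189 k252 8 (.s k125 k253 7 (.s k255 k190 8 (.d k127 k124
  k191 0 7))))), (.s k40 k20 5 (.s k62 k61 0 (.s k190 k254 7 (.s k255 k125 8 (.s k170 k85 14 (.s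
  k105 k235 8 (.d k150 k130 k195 5 14)))))))] (.c k104 (.q k105 [(.s k61 k62 0 (.s k189 k252 8 (.s
  k125 k253 7 (.s k255 k190 8 (.d k85 k65 k170 5 14))))), (.s k40 k20 5 (.s k170 k235 8 (.s k62 k61
  0 (.s k190 k254 7 (.d k150 k130 k195 5 14))))), (.s k20 k40 5 (.s k150 k195 14 (.s k85 k215 8 (.s
  k255 k170 14 (.d k125 k65 k190 5 8)))))] (.c k150 (.l (.s k40 k20 5 (.s k170 k235 8 (.s k62 k61 0
  (.s k190 k254 7 (.d k255 k85 k125 14 8)))))) (.c k170 (.l (.s k61 k62 0 (.s k189 k252 8 (.s k125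
  k253 7 (.s k255 k190 8 (.d k127 k124 k191 0 7)))))) (.c k190 (.l (.s k40 k20 5 (.s k170 k235 8 (.s
  k85 k255 14 (.s k195 k150 14 (.d k65 k125 k130 5 8)))))) .n)))) (.c k105 (.q k104 [(.s k252 k189 8
  (.s k84 k168 13 (.d k124 k64 k188 5 7))), (.s k40 k20 5 (.s k232 k168 7 (.s k252 k189 8 (.d k192
  k212 k148 5 13)))), (.s k62 k61 0 (.s k192 k148 13 (.s k64 k128 7 (.s k190 k254 7 (.s k124 k84 5
  (.d k125 k127 k255 0 8))))))] (.c k168 (.l (.s k252 k189 8 (.s k124 k188 7 (.s k64 k84 5 (.d k192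
  k128 k148 7 13))))) .n)) (.c k189 (.q k105 [(.s k20 k40 5 (.s k150 k195 14 (.s k85 k215 8 (.s k125
  k65 5 (.d k255 k190 k170 8 14))))), (.s k62 k61 0 (.s k150 k195 14 (.s k190 k254 7 (.s k170 k130 5
  (.d k255 k125 k85 8 14))))), (.s k40 k20 5 (.s k170 k235 8 (.s k150 k195 14 (.s k190 k130 5 (.d
  k62 k61 k254 0 7))))), (.s k40 k20 5 (.s k170 k235 8 (.s k62 k61 0 (.s k190 k254 7 (.d k255 k125
  k85 8 14)))))] (.c k170 (.l (.s k62 k61 0 (.s k195 k150 14 (.s k65 k130 8 (.s k190 k254 7 (.d k125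
  k85 k255 5 8)))))) (.c k190 (.l (.s k40 k20 5 (.s k170 k235 8 (.s k85 k255 14 (.s k195 k150 14 (.d
  k65 k125 k130 5 8)))))) (.c k255 (.l (.s k40 k20 5 (.s k170 k235 8 (.s k62 k61 0 (.s k190 k254 7
  (.d k150 k195 k130 14 5)))))) .n)))) .n)))) (.c k22 (.q k105 [(.s k20 k40 5 (.s k150 k195 14 (.s
  k85 k215 8 (.s k125 k65 5 (.d k255 k190 k170 8 14))))), (.s k61 k62 0 (.s k193 k149 13 (.s k195
  k150 14 (.s k194 k192 0 (.s k65 k130 8 (.s k1 k129 7 (.d k21 k42 k41 6 5))))))), (.s k40 k20 5 (.s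
  k21 k42 6 (.s k170 k235 8 (.s k85 k255 14 (.s k149 k213 7 (.d k61 k62 k193 0 13))))))] (.c k170
  (.l (.s k20 k40 5 (.s k61 k62 0 (.s k150 k195 14 (.s k85 k215 8 (.s k149 k193 13 (.d k21 k42 k213
  6 7))))))) (.c k195 (.l (.s k40 k20 5 (.s k170 k235 8 (.s k255 k85 14 (.s k61 k62 0 (.s k149 k193
  13 (.d k191 k127 k128 7 6))))))) .n))) (.c k23 (.l (.s k40 k20 5 (.s k62 k61 0 (.s k42 k21 6 (.s
  k22 k2 5 (.d k41 k43 k3 0 6)))))) (.c k40 (.q k41 [(.s k21 k42 6 (.d k61 k62 k1 0 5)), (.s k42 k21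
  6 (.s k22 k3 6 (.d k62 k61 k2 0 5)))] (.c k21 (.q k105 [(.s k169 k233 7 (.s k150 k195 14 (.s k188
  k131 6 (.s k252 k124 7 (.d k3 k22 k86 6 14))))), (.s k3 k22 6 (.s k1 k2 0 (.s k169 k233 7 (.s k85
  k253 13 (.s k255 k170 14 (.d k125 k65 k190 5 8)))))), (.s k169 k233 7 (.s k61 k62 0 (.s k150 k195
  14 (.s k149 k193 13 (.s k189 k129 5 (.s k252 k126 8 (.d k188 k131 k124 6 7))))))), (.s k3 k22 6
  (.s k1 k2 0 (.s k195 k150 14 (.s k65 k130 8 (.s k193 k129 7 (.d k61 k62 k149 0 13))))))] (.c k86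
  (.l (.s k3 k22 6 (.s k1 k2 0 (.s k169 k233 7 (.s k85 k253 13 (.s k65 k125 5 (.d k195 k150 k130 14
  8))))))) .n)) (.c k42 (.l (.s k61 k62 0 (.s k1 k21 5 (.d k3 k2 k22 0 6)))) (.c k61 (.q k105 [(.s
  k3 k22 6 (.s k169 k233 7 (.s k86 k252 14 (.s k67 k124 6 (.d k195 k131 k150 7 14))))), (.s k3 k22 6
  (.s k1 k2 0 (.s k169 k233 7 (.s k85 k253 13 (.s k125 k65 5 (.d k255 k190 k170 8 14)))))), (.s k21
  k42 6 (.s k22 k3 6 (.s k20 k23 0 (.s k150 k195 14 (.s k85 k215 8 (.s k125 k65 5 (.d k255 k170 k190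
  14 8)))))))] (.c k3 (.l (.s k233 k169 7 (.s k195 k150 14 (.s k65 k130 8 (.s k125 k85 5 (.s k252
  k214 6 (.s k126 k189 8 (.d k124 k127 k188 0 7)))))))) (.c k22 (.q k170 [(.s k85 k255 14 (.s k65
  k125 5 (.d k195 k130 k150 8 14))), (.s k169 k233 7 (.s k168 k171 0 (.s k252 k84 13 (.s k86 k3 14
  (.d k124 k67 k188 6 7)))))] (.c k255 (.l (.s k169 k233 7 (.s k150 k195 14 (.s k188 k131 6 (.s k252
  k124 7 (.d k168 k171 k84 0 13)))))) .n)) .n))) (.c k62 (.l (.s k21 k42 6 (.s k1 k61 5 (.d k3 k2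
  k22 0 6)))) (.c k104 (.q k105 [(.s k21 k42 6 (.d k61 k62 k1 0 5)), (.s k3 k22 6 (.s k169 k233 7
  (.s k86 k252 14 (.s k195 k150 14 (.d k67 k124 k131 6 7)))))] (.c k62 (.l (.s k21 k42 6 (.s k1 k61
  5 (.d k3 k2 k22 0 6)))) (.c k168 (.q k232 [(.s k21 k42 6 (.d k61 k62 k1 0 5)), (.s k3 k22 6 (.s
  k169 k233 7 (.s k86 k252 14 (.s k195 k150 14 (.d k67 k124 k131 6 7)))))] (.c k62 (.l (.s k21 k42 6
  (.s k1 k61 5 (.d k3 k2 k22 0 6)))) .n)) (.c k232 (.q k168 [(.s k21 k42 6 (.d k61 k62 k1 0 5)), (.s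
  k252 k84 13 (.s k3 k22 6 (.d k169 k233 k86 7 14)))] (.c k43 (.l (.s k169 k233 7 (.s k21 k42 6 (.d
  k61 k62 k1 0 5)))) (.c k169 (.q k43 [(.d k3 k23 k22 5 6), (.s k21 k42 6 (.d k61 k62 k1 0 5))] .n)
  .n))) .n)))) (.c k105 (.q k104 [(.s k21 k42 6 (.d k61 k62 k1 0 5)), (.s k21 k42 6 (.s k22 k3 6 (.s
  k20 k23 0 (.s k148 k192 13 (.s k84 k212 7 (.s k252 k168 13 (.d k124 k64 k188 5 7))))))), (.s k3
  k22 6 (.s k1 k2 0 (.s k192 k148 13 (.s k128 k64 7 (.s k129 k66 8 (.s k65 k193 7 (.d k130 k131 k195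
  0 8)))))))] (.c k42 (.l (.s k61 k62 0 (.s k1 k21 5 (.d k3 k2 k22 0 6)))) (.c k170 (.q k235 [(.s
  k61 k62 0 (.d k21 k42 k1 6 5)), (.s k3 k22 6 (.s k2 k1 0 (.s k192 k148 13 (.s k64 k128 7 (.s k66
  k129 8 (.s k65 k67 0 (.d k130 k194 k195 7 8))))))), (.s k42 k21 6 (.s k22 k3 6 (.d k62 k61 k2 0
  5)))] (.c k42 (.q k234 [(.s k61 k62 0 (.s k1 k21 5 (.d k3 k2 k22 0 6))), (.s k192 k148 13 (.s k64
  k128 7 (.s k84 k124 5 (.s k232 k233 0 (.d k252 k168 k212 13 5)))))] .n) (.c k234 (.l (.s k42 k21 6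
  (.s k22 k3 6 (.d k62 k61 k2 0 5)))) .n))) (.c k235 (.q k170 [(.s k21 k42 6 (.d k61 k62 k1 0 5)),
  (.s k192 k148 13 (.s k128 k64 7 (.s k191 k149 6 (.d k255 k127 k85 7 14))))] (.c k43 (.q k171 [(.s
  k21 k42 6 (.d k61 k62 k1 0 5)), (.s k255 k85 14 (.d k3 k22 k87 6 13))] (.c k169 (.q k232 [(.s k21
  k42 6 (.d k61 k62 k1 0 5)), (.s k3 k22 6 (.d k255 k87 k85 13 14))] .n) (.c k232 (.l (.s k169 k168
  0 (.s k21 k42 6 (.d k61 k62 k1 0 5)))) .n))) (.c k61 (.l (.s k21 k42 6 (.s k85 k255 14 (.s k149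
  k213 7 (.s k192 k148 13 (.d k128 k191 k64 6 7)))))) (.c k171 (.q k43 [(.d k3 k23 k22 5 6), (.s k21
  k42 6 (.d k61 k62 k1 0 5))] .n) .n)))) .n)))) .n))))))) (.c k41 (.f k40 k20 5 (.q k105 [(.s k170
  k235 8 (.s k85 k255 14 (.s k65 k125 5 (.d k195 k130 k150 8 14)))), (.s k21 k42 6 (.s k170 k235 8
  (.s k61 k62 0 (.s k149 k193 13 (.d k85 k213 k255 7 14))))), (.s k21 k42 6 (.s k61 k62 0 (.s k149
  k193 13 (.s k85 k213 7 (.s k65 k125 5 (.d k195 k150 k130 14 8))))))] (.c k85 (.l (.s k170 k235 8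
  (.s k61 k62 0 (.s k150 k195 14 (.s k149 k193 13 (.s k128 k191 6 (.s k148 k151 0 (.d k192 k64 k104
  7 13)))))))) (.c k150 (.l (.s k21 k42 6 (.s k170 k235 8 (.s k85 k255 14 (.s k149 k213 7 (.d k61
  k62 k193 0 13)))))) (.c k170 (.f k42 k21 6 (.f k61 k62 0 (.f k149 k193 13 (.f k150 k195 14 (.l (.s
  k148 k151 0 (.s k192 k104 13 (.s k128 k64 7 (.s k188 k168 5 (.s k169 k131 6 (.s k189 k129 5 (.d
  k252 k124 k126 7 8)))))))))))) .n))))) (.c k42 (.f k62 k61 0 (.q k170 [(.s k20 k40 5 (.s k85 k255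
  14 (.s k150 k215 8 (.s k130 k190 5 (.d k195 k105 k65 14 8))))), (.s k255 k85 14 (.s k190 k125 8
  (.s k126 k254 7 (.s k189 k252 8 (.d k191 k127 k188 7 0)))))] (.c k65 (.l (.s k40 k20 5 (.s k255
  k85 14 (.s k105 k235 8 (.s k150 k195 14 (.d k190 k125 k130 8 5)))))) (.c k85 (.f k40 k20 5 (.l (.s
  k105 k235 8 (.s k150 k195 14 (.s k190 k130 5 (.s k255 k125 8 (.s k126 k254 7 (.s k189 k252 8 (.d
  k191 k188 k127 0 7))))))))) (.c k104 (.q k105 [(.d k40 k20 k235 5 8), (.s k85 k255 14 (.s k195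
  k150 14 (.d k65 k125 k130 5 8)))] .n) (.c k105 (.q k104 [(.s k20 k40 5 (.s k148 k192 13 (.s k84
  k212 7 (.s k252 k168 13 (.d k124 k64 k188 5 7))))), (.s k255 k85 14 (.s k125 k190 8 (.s k127 k191
  7 (.s k124 k126 0 (.s k84 k64 5 (.d k252 k188 k168 7 13)))))), (.s k40 k20 5 (.s k255 k85 14 (.s
  k168 k232 7 (.s k148 k192 13 (.s k128 k188 5 (.d k191 k149 k127 6 7)))))), (.s k255 k85 14 (.s
  k192 k148 13 (.s k125 k190 8 (.s k127 k191 7 (.s k124 k126 0 (.d k64 k84 k128 5 7))))))] (.c k64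
  (.l (.s k40 k20 5 (.s k168 k232 7 (.s k252 k84 13 (.s k148 k192 13 (.d k188 k128 k124 5 7))))))
  (.c k149 (.q k193 [(.s k40 k20 5 (.s k168 k232 7 (.s k252 k84 13 (.s k148 k192 13 (.d k188 k128
  k124 5 7))))), (.s k20 k40 5 (.s k85 k255 14 (.s k150 k215 8 (.s k192 k148 13 (.s k130 k190 5 (.d
  k195 k194 k65 0 8)))))), (.s k255 k85 14 (.s k125 k190 8 (.s k127 k191 7 (.s k124 k126 0 (.s k84
  k64 5 (.d k252 k188 k168 7 13))))))] .n) (.c k188 (.l (.s k40 k20 5 (.s k168 k232 7 (.s k84 k252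
  13 (.s k192 k148 13 (.d k64 k124 k128 5 7)))))) (.c k193 (.q k149 [(.s k191 k128 6 (.d k255 k127
  k85 7 14)), (.s k192 k148 13 (.d k128 k191 k64 6 7)), (.s k20 k40 5 (.s k85 k255 14 (.s k150 k215
  8 (.d k148 k151 k192 0 13))))] .n) .n))))) (.c k190 (.l (.s k40 k20 5 (.s k85 k255 14 (.s k105
  k235 8 (.s k195 k150 14 (.d k65 k125 k130 5 8)))))) (.c k255 (.f k40 k20 5 (.q k8 [(.s k12 k4 1
  (.s k24 k56 3 (.s k44 k28 3 (.d k36 k32 k48 1 5)))), (.s k56 k24 3 (.s k89 k251 12 (.s k105 k235 8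
  (.s k203 k154 12 (.d k73 k121 k138 3 8))))), (.s k12 k4 1 (.s k89 k251 12 (.s k243 k166 14 (.s
  k105 k235 8 (.d k121 k73 k182 3 10)))))] (.c k104 (.l (.s k105 k235 8 (.s k12 k4 1 (.s k24 k56 3
  (.s k36 k48 5 (.d k44 k32 k28 1 3)))))) (.c k105 (.q k104 [(.s k12 k4 1 (.s k24 k56 3 (.s k44 k28
  3 (.d k36 k32 k48 1 5)))), (.s k168 k232 7 (.s k84 k252 13 (.s k192 k148 13 (.d k64 k124 k128 5
  7))))] (.c k149 (.q k193 [(.s k12 k4 1 (.s k24 k56 3 (.s k44 k28 3 (.d k36 k32 k48 1 5)))), (.s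
  k168 k232 7 (.s k84 k252 13 (.s k192 k148 13 (.d k64 k124 k128 5 7))))] .n) (.c k193 (.q k149 [(.s
  k128 k191 6 (.d k192 k64 k148 7 13)), (.s k12 k4 1 (.s k89 k251 12 (.d k29 k46 k209 4 9)))] .n)
  .n))) .n)))) .n)))))))) (.c k43 (.l (.s k20 k40 5 (.s k61 k62 0 (.s k21 k42 6 (.s k41 k1 5 (.d k22
  k23 k3 0 6)))))) (.c k61 (.f k40 k20 5 (.q k105 [(.s k170 k235 8 (.s k85 k255 14 (.s k195 k150 14
  (.d k65 k125 k130 5 8)))), (.s k42 k21 6 (.s k41 k43 0 (.s k169 k233 7 (.s k150 k195 14 (.s k188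
  k131 6 (.s k252 k124 7 (.d k3 k22 k86 6 14))))))), (.s k195 k150 14 (.s k65 k130 8 (.s k85 k125 5
  (.d k170 k235 k255 8 14))))] (.c k150 (.f k42 k21 6 (.l (.s k41 k43 0 (.s k169 k233 7 (.s k170
  k235 8 (.s k171 k168 0 (.s k85 k255 14 (.s k1 k253 13 (.d k3 k2 k22 0 6))))))))) (.c k195 (.l (.s
  k42 k21 6 (.s k41 k43 0 (.s k169 k233 7 (.s k170 k235 8 (.s k171 k168 0 (.s k255 k85 14 (.d k3 k22
  k87 6 13)))))))) (.c k235 (.q k41 [(.d k42 k43 k21 0 6)] (.c k21 (.l (.s k43 k42 0 (.d k3 k23 k22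
  5 6))) (.c k42 (.l (.s k3 k22 6 (.s k169 k233 7 (.s k86 k252 14 (.s k195 k150 14 (.d k67 k124 k131
  6 7)))))) (.c k43 (.q k171 [(.s k169 k233 7 (.s k168 k170 0 (.s k252 k84 13 (.d k3 k22 k86 6
  14)))), (.s k3 k22 6 (.s k255 k87 13 (.s k125 k190 8 (.s k65 k85 5 (.d k195 k150 k130 14 8))))),
  (.s k169 k233 7 (.s k150 k195 14 (.s k168 k170 0 (.s k252 k84 13 (.d k188 k131 k124 6 7)))))] (.c
  k84 (.l (.s k3 k22 6 (.s k255 k87 13 (.s k85 k170 14 (.d k125 k65 k190 5 8))))) (.c k169 (.q k232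
  [(.s k3 k22 6 (.s k255 k87 13 (.s k125 k190 8 (.d k85 k65 k170 5 14)))), (.s k22 k3 6 (.s k168
  k104 7 (.s k252 k84 13 (.s k150 k195 14 (.s k86 k214 7 (.d k124 k67 k188 6 7)))))), (.s k168 k104
  7 (.s k252 k84 13 (.s k124 k188 7 (.s k126 k189 8 (.s k125 k127 0 (.s k85 k65 5 (.d k255 k190 k170
  8 14)))))))] (.c k67 (.l (.s k3 k22 6 (.s k255 k87 13 (.s k127 k191 7 (.s k85 k170 14 (.d k125 k65
  k190 5 8)))))) (.c k255 (.l (.s k3 k22 6 (.s k168 k104 7 (.s k252 k84 13 (.s k124 k188 7 (.s k67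
  k86 6 (.d k195 k131 k150 7 14))))))) .n))) (.c k232 (.f k169 k233 7 (.q k234 [(.s k168 k170 0 (.s
  k252 k84 13 (.d k3 k22 k86 6 14))), (.s k3 k22 6 (.s k1 k2 0 (.s k85 k253 13 (.d k255 k87 k170 13
  14)))), (.s k150 k195 14 (.s k168 k170 0 (.s k252 k84 13 (.d k188 k131 k124 6 7))))] (.c k170 (.l
  (.s k3 k22 6 (.s k86 k252 14 (.s k195 k150 14 (.d k67 k124 k131 6 7))))) .n))) .n)))) (.c k171 (.l
  (.s k43 k42 0 (.d k3 k23 k22 5 6))) .n))))) .n))))) (.c k62 (.f k42 k21 6 (.q k8 [(.s k12 k4 1 (.s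
  k46 k29 4 (.s k38 k34 1 (.d k25 k59 k51 4 6)))), (.s k12 k4 1 (.s k40 k20 5 (.s k24 k56 3 (.s k36
  k48 5 (.d k44 k32 k28 1 3))))), (.s k40 k20 5 (.s k56 k24 3 (.s k59 k25 4 (.s k57 k58 0 (.d k51
  k54 k55 2 1)))))] (.c k55 (.l (.s k25 k59 4 (.s k12 k4 1 (.s k38 k51 6 (.d k46 k34 k29 1 4)))))
  (.c k104 (.q k105 [(.s k12 k4 1 (.s k46 k29 4 (.s k38 k34 1 (.d k25 k59 k51 4 6)))), (.s k20 k40 5
  (.s k150 k195 14 (.s k85 k215 8 (.s k255 k170 14 (.d k125 k65 k190 5 8)))))] (.c k150 (.q k194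
  [(.s k12 k4 1 (.s k46 k29 4 (.s k38 k34 1 (.d k25 k59 k51 4 6)))), (.s k12 k4 1 (.s k40 k20 5 (.s
  k24 k56 3 (.s k36 k48 5 (.d k44 k32 k28 1 3))))), (.s k40 k20 5 (.s k56 k24 3 (.s k59 k25 4 (.s
  k57 k58 0 (.d k51 k54 k55 2 1)))))] (.c k55 (.l (.s k25 k59 4 (.s k12 k4 1 (.s k38 k51 6 (.d k46
  k34 k29 1 4))))) .n)) (.c k194 (.l (.s k150 k195 14 (.s k12 k4 1 (.s k25 k59 4 (.s k38 k51 6 (.d
  k46 k34 k29 1 4)))))) .n))) (.c k105 (.q k104 [(.s k12 k4 1 (.s k46 k29 4 (.s k38 k34 1 (.d k25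
  k59 k51 4 6)))), (.s k20 k40 5 (.s k148 k192 13 (.s k84 k212 7 (.s k252 k168 13 (.d k124 k64 k188
  5 7)))))] (.c k150 (.q k194 [(.s k12 k4 1 (.s k46 k29 4 (.s k38 k34 1 (.d k25 k59 k51 4 6)))), (.s
  k20 k40 5 (.s k148 k192 13 (.s k84 k212 7 (.s k252 k168 13 (.d k124 k64 k188 5 7)))))] .n) (.c
  k194 (.q k150 [(.s k12 k4 1 (.s k46 k29 4 (.s k38 k34 1 (.d k25 k59 k51 4 6)))), (.s k20 k40 5 (.s
  k148 k192 13 (.s k84 k212 7 (.s k252 k168 13 (.d k124 k64 k188 5 7)))))] .n) .n))) (.c k150 (.q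
  k194 [(.s k12 k4 1 (.s k46 k29 4 (.s k38 k34 1 (.d k25 k59 k51 4 6)))), (.s k12 k4 1 (.s k40 k20 5
  (.s k24 k56 3 (.s k36 k48 5 (.d k44 k32 k28 1 3))))), (.s k40 k20 5 (.s k56 k24 3 (.s k59 k25 4
  (.s k57 k58 0 (.d k51 k54 k55 2 1)))))] (.c k55 (.l (.s k25 k59 4 (.s k12 k4 1 (.s k38 k51 6 (.d
  k46 k34 k29 1 4))))) (.c k104 (.q k105 [(.s k12 k4 1 (.s k46 k29 4 (.s k38 k34 1 (.d k25 k59 k51 4
  6)))), (.s k12 k4 1 (.s k40 k20 5 (.s k24 k56 3 (.s k36 k48 5 (.d k44 k32 k28 1 3))))), (.s k40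
  k20 5 (.s k56 k24 3 (.s k59 k25 4 (.s k57 k58 0 (.d k51 k54 k55 2 1)))))] (.c k55 (.l (.s k25 k59
  4 (.s k12 k4 1 (.s k38 k51 6 (.d k46 k34 k29 1 4))))) .n)) (.c k105 (.q k104 [(.s k12 k4 1 (.s k46
  k29 4 (.s k38 k34 1 (.d k25 k59 k51 4 6)))), (.s k20 k40 5 (.s k148 k192 13 (.s k84 k212 7 (.s
  k252 k168 13 (.d k124 k64 k188 5 7)))))] .n) .n)))) (.c k194 (.q k150 [(.s k12 k4 1 (.s k46 k29 4
  (.s k38 k34 1 (.d k25 k59 k51 4 6)))), (.s k20 k40 5 (.s k85 k215 8 (.s k170 k255 14 (.s k130 k190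
  5 (.d k195 k105 k65 14 8)))))] (.c k104 (.l (.s k105 k195 14 (.s k12 k4 1 (.s k25 k59 4 (.s k38
  k51 6 (.d k46 k34 k29 1 4)))))) (.c k105 (.q k104 [(.s k12 k4 1 (.s k46 k29 4 (.s k38 k34 1 (.d
  k25 k59 k51 4 6)))), (.s k20 k40 5 (.s k148 k192 13 (.s k84 k212 7 (.s k252 k168 13 (.d k124 k64
  k188 5 7)))))] .n) .n))) .n))))))) (.c k104 (.q k105 [(.s k40 k20 5 (.s k42 k21 6 (.s k62 k61 0
  (.s k22 k2 5 (.d k41 k43 k3 0 6))))), (.s k20 k40 5 (.s k150 k195 14 (.s k85 k215 8 (.s k125 k65 5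
  (.d k255 k190 k170 8 14))))), (.s k21 k42 6 (.s k61 k62 0 (.s k149 k193 13 (.s k85 k213 7 (.s k65
  k125 5 (.d k195 k150 k130 14 8))))))] .n) (.c k105 (.q k104 [(.s k20 k40 5 (.s k148 k192 13 (.s
  k84 k212 7 (.s k252 k168 13 (.d k124 k64 k188 5 7))))), (.s k40 k20 5 (.s k42 k21 6 (.s k62 k61 0
  (.s k22 k2 5 (.d k41 k43 k3 0 6)))))] (.c k20 (.q k40 [(.s k168 k232 7 (.s k84 k252 13 (.s k192
  k148 13 (.d k64 k124 k128 5 7)))), (.s k42 k21 6 (.s k62 k61 0 (.s k22 k2 5 (.d k41 k43 k3 0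
  6))))] (.c k43 (.l (.s k192 k148 13 (.s k64 k128 7 (.s k84 k124 5 (.d k168 k232 k252 7 13)))))
  .n)) (.c k40 (.f k42 k21 6 (.q k170 [(.s k192 k148 13 (.s k128 k64 7 (.s k191 k149 6 (.d k255 k127
  k85 7 14)))), (.s k62 k61 0 (.s k2 k22 5 (.s k254 k86 13 (.s k126 k190 7 (.s k252 k189 8 (.s k84
  k168 13 (.d k124 k188 k64 7 5))))))), (.s k85 k255 14 (.s k192 k148 13 (.s k64 k128 7 (.s k84 k124
  5 (.s k86 k87 0 (.s k2 k254 13 (.d k62 k61 k22 0 5)))))))] (.c k61 (.l (.s k255 k85 14 (.s k192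
  k148 13 (.s k64 k128 7 (.s k125 k190 8 (.s k127 k191 7 (.d k124 k126 k84 0 5))))))) (.c k64 (.l
  (.s k255 k85 14 (.s k127 k191 7 (.s k61 k62 0 (.s k125 k190 8 (.s k189 k253 7 (.d k126 k124 k252 0
  8))))))) .n)))) .n))) .n))))))))))))))))

def t111 : T TT 256 :=
  (.q k48 [(.s k32 k16 3 (.s k58 k53 2 (.s k42 k21 6 (.s k26 k10 3 (.d k37 k47 k15 2 6)))))] (.c k5
  (.l (.s k32 k16 3 (.s k42 k21 6 (.s k37 k47 2 (.s k26 k15 6 (.d k58 k53 k10 2 3)))))) (.c k10 (.l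
  (.s k16 k32 3 (.s k21 k42 6 (.s k26 k31 2 (.s k37 k15 6 (.d k53 k58 k5 2 3)))))) (.c k15 (.q k101
  [(.s k16 k32 3 (.s k154 k207 14 (.s k85 k223 10 (.s k117 k69 3 (.d k255 k186 k170 10 14))))), (.s
  k21 k42 6 (.s k53 k58 2 (.s k5 k37 3 (.s k197 k149 11 (.s k69 k133 7 (.d k207 k154 k138 14
  10)))))), (.s k32 k16 3 (.s k21 k42 6 (.s k170 k239 10 (.s k85 k255 14 (.s k149 k213 7 (.d k53 k58
  k197 2 11))))))] (.c k32 (.l (.s k21 k42 6 (.s k53 k58 2 (.s k149 k197 11 (.s k85 k213 7 (.s k69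
  k117 3 (.d k207 k154 k138 14 10))))))) (.c k170 (.l (.s k16 k32 3 (.s k53 k58 2 (.s k154 k207 14
  (.s k85 k223 10 (.s k149 k197 11 (.d k21 k42 k213 6 7))))))) (.c k207 (.l (.s k32 k16 3 (.s k21
  k42 6 (.s k170 k239 10 (.s k53 k58 2 (.s k149 k197 11 (.d k85 k255 k213 14 7))))))) .n)))) (.c k16
  (.q k60 [(.s k20 k40 5 (.s k21 k42 6 (.s k22 k23 0 (.s k41 k3 6 (.d k61 k62 k1 0 5))))), (.s k52
  k56 1 (.s k53 k58 2 (.s k54 k55 0 (.s k57 k51 2 (.d k61 k62 k49 0 1))))), (.s k20 k40 5 (.s k21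
  k42 6 (.s k22 k23 0 (.s k52 k56 1 (.s k37 k7 4 (.d k53 k58 k5 2 3))))))] (.c k96 (.q k101 [(.s k20
  k40 5 (.s k21 k42 6 (.s k22 k23 0 (.s k41 k3 6 (.d k61 k62 k1 0 5))))), (.s k52 k56 1 (.s k154
  k207 14 (.s k150 k199 12 (.s k195 k105 14 (.d k146 k158 k97 1 12)))))] .n) (.c k101 (.q k96 [(.s
  k20 k40 5 (.s k21 k42 6 (.s k22 k23 0 (.s k41 k3 6 (.d k61 k62 k1 0 5))))), (.s k56 k52 1 (.s k192
  k144 11 (.s k104 k148 13 (.s k152 k200 11 (.d k100 k108 k204 1 13)))))] .n) .n))) (.c k21 (.q k160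
  [(.s k16 k32 3 (.s k80 k240 11 (.s k144 k208 7 (.s k128 k176 3 (.d k192 k96 k64 11 7))))), (.s
  k240 k80 11 (.s k53 k58 2 (.s k176 k112 7 (.s k181 k122 10 (.s k117 k245 7 (.d k186 k191 k255 2
  10))))))] (.c k64 (.l (.s k32 k16 3 (.s k240 k80 11 (.s k96 k224 7 (.s k144 k192 11 (.d k176 k112
  k128 7 3)))))) (.c k80 (.q k96 [(.d k32 k16 k224 3 7), (.s k53 k58 2 (.s k144 k192 11 (.s k176
  k128 3 (.s k240 k112 7 (.s k181 k122 10 (.s k117 k245 7 (.d k186 k191 k255 2 10)))))))] .n) (.c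
  k96 (.q k101 [(.s k16 k32 3 (.s k154 k207 14 (.s k85 k223 10 (.s k117 k69 3 (.d k255 k186 k170 10
  14))))), (.s k240 k80 11 (.s k53 k58 2 (.s k154 k207 14 (.s k149 k197 11 (.s k144 k159 2 (.d k176
  k112 k128 7 3)))))), (.s k32 k16 3 (.s k240 k80 11 (.s k170 k239 10 (.s k112 k176 7 (.s k90 k79 6
  (.d k165 k175 k15 2 14))))))] .n) (.c k101 (.q k96 [(.d k32 k16 k224 3 7), (.s k80 k240 11 (.s
  k192 k144 11 (.d k64 k112 k128 3 7)))] .n) (.c k176 (.l (.s k32 k16 3 (.s k80 k240 11 (.s k96 k224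
  7 (.s k192 k144 11 (.d k64 k112 k128 3 7)))))) (.c k240 (.q k101 [(.s k16 k32 3 (.s k154 k207 14
  (.s k85 k223 10 (.s k117 k69 3 (.d k255 k186 k170 10 14))))), (.s k53 k58 2 (.s k154 k207 14 (.s
  k149 k197 11 (.s k144 k159 2 (.s k192 k96 11 (.d k128 k176 k64 3 7)))))), (.s k32 k16 3 (.s k96
  k224 7 (.s k170 k239 10 (.s k192 k144 11 (.s k128 k64 7 (.s k149 k191 6 (.d k53 k58 k197 2
  11)))))))] (.c k229 (.l (.s k32 k16 3 (.s k170 k239 10 (.s k85 k255 14 (.s k207 k154 14 (.d k69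
  k117 k138 3 10)))))) .n)) .n))))))) (.c k26 (.q k101 [(.s k16 k32 3 (.s k154 k207 14 (.s k85 k223
  10 (.s k117 k69 3 (.d k255 k186 k170 10 14))))), (.s k53 k58 2 (.s k197 k149 11 (.s k207 k154 14
  (.s k202 k192 2 (.s k69 k138 10 (.s k5 k133 7 (.d k21 k42 k37 6 3))))))), (.s k32 k16 3 (.s k21
  k42 6 (.s k170 k239 10 (.s k85 k255 14 (.s k149 k213 7 (.d k53 k58 k197 2 11))))))] (.c k170 (.l
  (.s k16 k32 3 (.s k53 k58 2 (.s k154 k207 14 (.s k85 k223 10 (.s k149 k197 11 (.d k21 k42 k213 6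
  7))))))) (.c k207 (.l (.s k32 k16 3 (.s k170 k239 10 (.s k255 k85 14 (.s k53 k58 2 (.s k149 k197
  11 (.d k191 k127 k128 7 6))))))) .n))) (.c k31 (.l (.s k32 k16 3 (.s k58 k53 2 (.s k42 k21 6 (.s
  k26 k10 3 (.d k37 k47 k15 2 6)))))) (.c k32 (.q k37 [(.s k21 k42 6 (.d k53 k58 k5 2 3)), (.s k42
  k21 6 (.s k26 k15 6 (.d k58 k53 k10 2 3)))] (.c k21 (.q k101 [(.s k165 k229 7 (.s k154 k207 14 (.s
  k176 k143 6 (.s k240 k112 7 (.d k15 k26 k90 6 14))))), (.s k15 k26 6 (.s k5 k10 2 (.s k165 k229 7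
  (.s k85 k245 11 (.s k255 k170 14 (.d k117 k69 k186 3 10)))))), (.s k165 k229 7 (.s k53 k58 2 (.s
  k154 k207 14 (.s k149 k197 11 (.s k181 k133 3 (.s k240 k122 10 (.d k176 k143 k112 6 7))))))), (.s
  k15 k26 6 (.s k5 k10 2 (.s k207 k154 14 (.s k69 k138 10 (.s k197 k133 7 (.d k53 k58 k149 2
  11))))))] (.c k90 (.l (.s k15 k26 6 (.s k5 k10 2 (.s k165 k229 7 (.s k85 k245 11 (.s k69 k117 3
  (.d k207 k154 k138 14 10))))))) .n)) (.c k42 (.l (.s k53 k58 2 (.s k5 k21 3 (.d k15 k10 k26 2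
  6)))) (.c k53 (.q k101 [(.s k15 k26 6 (.s k165 k229 7 (.s k90 k240 14 (.s k79 k112 6 (.d k207 k143
  k154 7 14))))), (.s k15 k26 6 (.s k5 k10 2 (.s k165 k229 7 (.s k85 k245 11 (.s k117 k69 3 (.d k255
  k186 k170 10 14)))))), (.s k21 k42 6 (.s k26 k15 6 (.s k16 k31 2 (.s k154 k207 14 (.s k85 k223 10
  (.s k117 k69 3 (.d k255 k170 k186 14 10)))))))] (.c k15 (.l (.s k229 k165 7 (.s k207 k154 14 (.s
  k69 k138 10 (.s k117 k85 3 (.s k240 k218 6 (.s k122 k181 10 (.d k112 k127 k176 2 7)))))))) (.c k26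
  (.q k170 [(.s k85 k255 14 (.s k69 k117 3 (.d k207 k138 k154 10 14))), (.s k165 k229 7 (.s k160
  k175 2 (.s k240 k80 11 (.s k90 k15 14 (.d k112 k79 k176 6 7)))))] (.c k255 (.l (.s k165 k229 7 (.s
  k154 k207 14 (.s k176 k143 6 (.s k240 k112 7 (.d k160 k175 k80 2 11)))))) .n)) .n))) (.c k58 (.l
  (.s k21 k42 6 (.s k5 k53 3 (.d k15 k10 k26 2 6)))) (.c k96 (.q k101 [(.s k21 k42 6 (.d k53 k58 k5
  2 3)), (.s k15 k26 6 (.s k165 k229 7 (.s k90 k240 14 (.s k207 k154 14 (.d k79 k112 k143 6 7)))))]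
  (.c k58 (.l (.s k21 k42 6 (.s k5 k53 3 (.d k15 k10 k26 2 6)))) (.c k160 (.q k224 [(.s k21 k42 6
  (.d k53 k58 k5 2 3)), (.s k15 k26 6 (.s k165 k229 7 (.s k90 k240 14 (.s k207 k154 14 (.d k79 k112
  k143 6 7)))))] (.c k58 (.l (.s k21 k42 6 (.s k5 k53 3 (.d k15 k10 k26 2 6)))) .n)) (.c k224 (.q
  k160 [(.s k21 k42 6 (.d k53 k58 k5 2 3)), (.s k240 k80 11 (.s k15 k26 6 (.d k165 k229 k90 7 14)))]
  (.c k47 (.l (.s k165 k229 7 (.s k21 k42 6 (.d k53 k58 k5 2 3)))) (.c k165 (.q k47 [(.d k15 k31 k26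
  3 6), (.s k21 k42 6 (.d k53 k58 k5 2 3))] .n) .n))) .n)))) (.c k101 (.q k96 [(.s k21 k42 6 (.d k53
  k58 k5 2 3)), (.s k21 k42 6 (.s k26 k15 6 (.s k16 k31 2 (.s k144 k192 11 (.s k80 k208 7 (.s k240
  k160 11 (.d k112 k64 k176 3 7))))))), (.s k15 k26 6 (.s k5 k10 2 (.s k192 k144 11 (.s k128 k64 7
  (.s k133 k74 10 (.s k69 k197 7 (.d k138 k143 k207 2 10)))))))] (.c k42 (.l (.s k53 k58 2 (.s k5
  k21 3 (.d k15 k10 k26 2 6)))) (.c k170 (.q k239 [(.s k53 k58 2 (.d k21 k42 k5 6 3)), (.s k15 k26 6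
  (.s k10 k5 2 (.s k192 k144 11 (.s k64 k128 7 (.s k74 k133 10 (.s k69 k79 2 (.d k138 k202 k207 7
  10))))))), (.s k42 k21 6 (.s k26 k15 6 (.d k58 k53 k10 2 3)))] (.c k42 (.q k234 [(.s k53 k58 2 (.s
  k5 k21 3 (.d k15 k10 k26 2 6))), (.s k192 k144 11 (.s k64 k128 7 (.s k80 k112 3 (.s k224 k229 2
  (.d k240 k160 k208 11 3)))))] .n) (.c k234 (.l (.s k42 k21 6 (.s k26 k15 6 (.d k58 k53 k10 2 3))))
  .n))) (.c k239 (.q k170 [(.s k21 k42 6 (.d k53 k58 k5 2 3)), (.s k192 k144 11 (.s k128 k64 7 (.s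
  k191 k149 6 (.d k255 k127 k85 7 14))))] (.c k47 (.q k175 [(.s k21 k42 6 (.d k53 k58 k5 2 3)), (.s
  k255 k85 14 (.d k15 k26 k95 6 11))] (.c k165 (.q k224 [(.s k21 k42 6 (.d k53 k58 k5 2 3)), (.s k15
  k26 6 (.d k255 k95 k85 11 14))] .n) (.c k224 (.l (.s k165 k160 2 (.s k21 k42 6 (.d k53 k58 k5 2
  3)))) .n))) (.c k53 (.l (.s k21 k42 6 (.s k85 k255 14 (.s k149 k213 7 (.s k192 k144 11 (.d k128
  k191 k64 6 7)))))) (.c k175 (.q k47 [(.d k15 k31 k26 3 6), (.s k21 k42 6 (.d k53 k58 k5 2 3))] .n)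
  .n)))) .n)))) .n))))))) (.c k37 (.f k32 k16 3 (.q k101 [(.s k170 k239 10 (.s k85 k255 14 (.s k69
  k117 3 (.d k207 k138 k154 10 14)))), (.s k21 k42 6 (.s k170 k239 10 (.s k53 k58 2 (.s k149 k197 11
  (.d k85 k213 k255 7 14))))), (.s k21 k42 6 (.s k53 k58 2 (.s k149 k197 11 (.s k85 k213 7 (.s k69
  k117 3 (.d k207 k154 k138 14 10))))))] (.c k85 (.l (.s k170 k239 10 (.s k53 k58 2 (.s k154 k207 14
  (.s k149 k197 11 (.s k128 k191 6 (.s k144 k159 2 (.d k192 k64 k96 7 11)))))))) (.c k154 (.l (.s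
  k21 k42 6 (.s k170 k239 10 (.s k85 k255 14 (.s k149 k213 7 (.d k53 k58 k197 2 11)))))) (.c k170
  (.q k60 [(.s k40 k20 5 (.s k36 k44 1 (.s k24 k12 5 (.d k56 k52 k8 1 3)))), (.s k52 k56 1 (.s k53
  k58 2 (.s k54 k55 0 (.s k57 k51 2 (.d k61 k62 k49 0 1))))), (.s k40 k20 5 (.s k42 k21 6 (.s k41
  k43 0 (.s k22 k3 6 (.d k62 k61 k2 0 5)))))] (.c k42 (.q k234 [(.s k40 k20 5 (.s k36 k44 1 (.s k24
  k12 5 (.d k56 k52 k8 1 3)))), (.s k53 k58 2 (.s k149 k197 11 (.s k61 k62 0 (.s k105 k193 13 (.s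
  k97 k109 1 (.d k195 k150 k146 14 12))))))] .n) (.c k234 (.l (.s k42 k21 6 (.s k40 k20 5 (.s k36
  k44 1 (.s k24 k12 5 (.d k56 k52 k8 1 3)))))) .n))) .n))))) (.c k42 (.q k170 [(.s k16 k32 3 (.s k85
  k255 14 (.s k154 k223 10 (.s k138 k186 3 (.d k207 k101 k69 14 10))))), (.s k255 k85 14 (.s k53 k58
  2 (.s k117 k186 10 (.s k181 k245 7 (.s k122 k240 10 (.d k127 k112 k191 2 7))))))] (.c k85 (.f k32
  k16 3 (.l (.s k101 k239 10 (.s k53 k58 2 (.s k154 k207 14 (.s k149 k197 11 (.s k128 k191 6 (.s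
  k144 k159 2 (.d k192 k64 k96 7 11))))))))) (.c k96 (.q k101 [(.d k32 k16 k239 3 10), (.s k85 k255
  14 (.s k207 k154 14 (.d k69 k117 k138 3 10)))] .n) (.c k101 (.q k96 [(.s k192 k144 11 (.s k128 k64
  7 (.s k191 k149 6 (.d k255 k127 k85 7 14)))), (.s k16 k32 3 (.s k144 k192 11 (.s k80 k208 7 (.s
  k240 k160 11 (.d k112 k64 k176 3 7))))), (.s k255 k85 14 (.s k53 k58 2 (.s k117 k186 10 (.s k181
  k245 7 (.s k122 k240 10 (.d k127 k112 k191 2 7))))))] (.c k64 (.l (.s k32 k16 3 (.s k160 k224 7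
  (.s k240 k80 11 (.s k144 k192 11 (.d k176 k128 k112 3 7)))))) .n)) (.c k154 (.l (.s k255 k85 14
  (.s k58 k53 2 (.s k186 k117 10 (.s k122 k250 7 (.s k181 k240 10 (.d k191 k127 k176 7 2))))))) (.c
  k186 (.l (.s k32 k16 3 (.s k85 k255 14 (.s k101 k239 10 (.s k207 k154 14 (.d k69 k117 k138 3
  10)))))) (.c k255 (.q k101 [(.d k32 k16 k239 3 10), (.s k53 k58 2 (.s k149 k197 11 (.s k128 k191 6
  (.s k192 k64 7 (.s k144 k96 11 (.d k154 k159 k207 2 14))))))] .n) .n))))))) (.c k47 (.l (.s k16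
  k32 3 (.s k53 k58 2 (.s k21 k42 6 (.s k37 k5 3 (.d k26 k31 k15 2 6)))))) (.c k53 (.f k32 k16 3 (.q
  k60 [(.s k40 k20 5 (.s k36 k44 1 (.s k24 k12 5 (.d k56 k52 k8 1 3)))), (.s k20 k40 5 (.s k21 k42 6
  (.s k22 k23 0 (.s k41 k3 6 (.d k61 k62 k1 0 5))))), (.s k42 k21 6 (.s k37 k47 2 (.s k52 k56 1 (.s
  k22 k7 4 (.d k62 k61 k2 0 5)))))] (.c k96 (.q k101 [(.s k40 k20 5 (.s k36 k44 1 (.s k24 k12 5 (.d
  k56 k52 k8 1 3)))), (.s k170 k239 10 (.s k85 k255 14 (.s k207 k154 14 (.d k69 k117 k138 3 10))))]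
  .n) (.c k101 (.q k96 [(.s k40 k20 5 (.s k36 k44 1 (.s k24 k12 5 (.d k56 k52 k8 1 3)))), (.s k160
  k224 7 (.s k80 k240 11 (.s k192 k144 11 (.d k64 k112 k128 3 7))))] (.c k149 (.q k197 [(.s k40 k20
  5 (.s k36 k44 1 (.s k24 k12 5 (.d k56 k52 k8 1 3)))), (.s k160 k224 7 (.s k80 k240 11 (.s k192
  k144 11 (.d k64 k112 k128 3 7))))] .n) (.c k197 (.q k149 [(.s k40 k20 5 (.s k36 k44 1 (.s k24 k12
  5 (.d k56 k52 k8 1 3)))), (.s k160 k224 7 (.s k80 k240 11 (.s k192 k144 11 (.d k64 k112 k128 3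
  7))))] .n) .n))) .n)))) (.c k58 (.f k42 k21 6 (.q k60 [(.s k62 k61 0 (.s k40 k20 5 (.s k22 k2 5
  (.d k41 k43 k3 0 6)))), (.s k16 k32 3 (.s k20 k40 5 (.s k24 k28 1 (.s k36 k12 5 (.d k52 k56 k4 1
  3))))), (.s k32 k16 3 (.s k37 k47 2 (.s k52 k56 1 (.s k22 k7 4 (.d k62 k61 k2 0 5)))))] (.c k96
  (.q k101 [(.s k62 k61 0 (.s k40 k20 5 (.s k22 k2 5 (.d k41 k43 k3 0 6)))), (.s k16 k32 3 (.s k154
  k207 14 (.s k85 k223 10 (.s k255 k170 14 (.d k117 k69 k186 3 10)))))] (.c k154 (.q k202 [(.s k62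
  k61 0 (.s k40 k20 5 (.s k22 k2 5 (.d k41 k43 k3 0 6)))), (.s k16 k32 3 (.s k20 k40 5 (.s k24 k28 1
  (.s k36 k12 5 (.d k52 k56 k4 1 3))))), (.s k32 k16 3 (.s k37 k47 2 (.s k52 k56 1 (.s k22 k7 4 (.d
  k62 k61 k2 0 5)))))] .n) (.c k202 (.l (.s k154 k207 14 (.s k16 k32 3 (.s k85 k223 10 (.s k255 k170
  14 (.d k117 k69 k186 3 10)))))) .n))) (.c k101 (.q k96 [(.s k62 k61 0 (.s k40 k20 5 (.s k22 k2 5
  (.d k41 k43 k3 0 6)))), (.s k16 k32 3 (.s k144 k192 11 (.s k80 k208 7 (.s k240 k160 11 (.d k112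
  k64 k176 3 7)))))] (.c k154 (.q k202 [(.s k62 k61 0 (.s k40 k20 5 (.s k22 k2 5 (.d k41 k43 k3 0
  6)))), (.s k16 k32 3 (.s k144 k192 11 (.s k80 k208 7 (.s k240 k160 11 (.d k112 k64 k176 3 7)))))]
  .n) (.c k202 (.q k154 [(.s k62 k61 0 (.s k40 k20 5 (.s k22 k2 5 (.d k41 k43 k3 0 6)))), (.s k16
  k32 3 (.s k144 k192 11 (.s k80 k208 7 (.s k240 k160 11 (.d k112 k64 k176 3 7)))))] .n) .n))) (.c
  k154 (.q k202 [(.s k62 k61 0 (.s k40 k20 5 (.s k22 k2 5 (.d k41 k43 k3 0 6)))), (.s k16 k32 3 (.s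
  k20 k40 5 (.s k24 k28 1 (.s k36 k12 5 (.d k52 k56 k4 1 3))))), (.s k32 k16 3 (.s k37 k47 2 (.s k52
  k56 1 (.s k22 k7 4 (.d k62 k61 k2 0 5)))))] (.c k96 (.q k101 [(.s k62 k61 0 (.s k40 k20 5 (.s k22
  k2 5 (.d k41 k43 k3 0 6)))), (.s k16 k32 3 (.s k20 k40 5 (.s k24 k28 1 (.s k36 k12 5 (.d k52 k56
  k4 1 3))))), (.s k32 k16 3 (.s k37 k47 2 (.s k52 k56 1 (.s k22 k7 4 (.d k62 k61 k2 0 5)))))] .n)
  (.c k101 (.q k96 [(.s k62 k61 0 (.s k40 k20 5 (.s k22 k2 5 (.d k41 k43 k3 0 6)))), (.s k16 k32 3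
  (.s k144 k192 11 (.s k80 k208 7 (.s k240 k160 11 (.d k112 k64 k176 3 7)))))] .n) .n))) (.c k202
  (.q k154 [(.s k62 k61 0 (.s k40 k20 5 (.s k22 k2 5 (.d k41 k43 k3 0 6)))), (.s k16 k32 3 (.s k85
  k223 10 (.s k170 k255 14 (.s k138 k186 3 (.d k207 k101 k69 14 10)))))] (.c k96 (.l (.s k101 k207
  14 (.s k16 k32 3 (.s k85 k223 10 (.s k255 k170 14 (.d k117 k69 k186 3 10)))))) (.c k101 (.q k96
  [(.s k62 k61 0 (.s k40 k20 5 (.s k22 k2 5 (.d k41 k43 k3 0 6)))), (.s k16 k32 3 (.s k144 k192 11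
  (.s k80 k208 7 (.s k240 k160 11 (.d k112 k64 k176 3 7)))))] .n) .n))) .n)))))) (.c k96 (.q k101
  [(.s k32 k16 3 (.s k42 k21 6 (.s k58 k53 2 (.s k26 k10 3 (.d k37 k47 k15 2 6))))), (.s k16 k32 3
  (.s k154 k207 14 (.s k85 k223 10 (.s k117 k69 3 (.d k255 k186 k170 10 14))))), (.s k21 k42 6 (.s
  k53 k58 2 (.s k149 k197 11 (.s k85 k213 7 (.s k69 k117 3 (.d k207 k154 k138 14 10))))))] .n) (.c
  k101 (.q k96 [(.s k16 k32 3 (.s k144 k192 11 (.s k80 k208 7 (.s k240 k160 11 (.d k112 k64 k176 3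
  7))))), (.s k32 k16 3 (.s k42 k21 6 (.s k58 k53 2 (.s k26 k10 3 (.d k37 k47 k15 2 6)))))] (.c k16
  (.q k32 [(.s k160 k224 7 (.s k80 k240 11 (.s k192 k144 11 (.d k64 k112 k128 3 7)))), (.s k42 k21 6
  (.s k58 k53 2 (.s k26 k10 3 (.d k37 k47 k15 2 6))))] (.c k47 (.l (.s k192 k144 11 (.s k64 k128 7
  (.s k80 k112 3 (.d k160 k224 k240 7 11))))) .n)) (.c k32 (.f k42 k21 6 (.q k170 [(.s k192 k144 11
  (.s k128 k64 7 (.s k191 k149 6 (.d k255 k127 k85 7 14)))), (.s k58 k53 2 (.s k10 k26 3 (.s k250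
  k90 11 (.s k122 k186 7 (.s k240 k181 10 (.s k80 k160 11 (.d k112 k176 k64 7 3))))))), (.s k85 k255
  14 (.s k192 k144 11 (.s k64 k128 7 (.s k80 k112 3 (.s k90 k95 2 (.s k10 k250 11 (.d k58 k53 k26 2
  3)))))))] (.c k53 (.l (.s k255 k85 14 (.s k192 k144 11 (.s k64 k128 7 (.s k117 k186 10 (.s k127
  k191 7 (.d k112 k122 k80 2 3))))))) (.c k64 (.l (.s k255 k85 14 (.s k127 k191 7 (.s k53 k58 2 (.s
  k117 k186 10 (.s k181 k245 7 (.d k122 k112 k240 2 10))))))) .n)))) .n))) .n))))))))))))))))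

def t127 : T TT 256 :=
  (.q k15 [(.s k10 k5 2 (.s k47 k31 3 (.s k42 k21 6 (.s k37 k32 2 (.d k26 k58 k48 3 6)))))] (.c k5
  (.f k47 k31 3 (.q k12 [(.s k46 k29 4 (.s k45 k44 0 (.s k30 k60 4 (.d k14 k13 k62 0 3)))), (.s k4
  k8 1 (.s k21 k42 6 (.s k38 k55 4 (.s k25 k51 6 (.d k29 k17 k46 1 4))))), (.s k8 k4 1 (.s k42 k21 6
  (.s k25 k59 4 (.s k13 k14 0 (.d k37 k32 k49 2 5)))))] (.c k64 (.q k85 [(.s k46 k29 4 (.s k45 k44 0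
  (.s k30 k60 4 (.d k14 k13 k62 0 3)))), (.s k4 k8 1 (.s k170 k255 14 (.s k166 k247 12 (.s k243 k89
  14 (.d k162 k174 k81 1 12)))))] .n) (.c k85 (.q k64 [(.s k46 k29 4 (.s k45 k44 0 (.s k30 k60 4 (.d
  k14 k13 k62 0 3)))), (.s k4 k8 1 (.s k21 k42 6 (.s k38 k55 4 (.s k25 k51 6 (.d k29 k17 k46 1
  4))))), (.s k8 k4 1 (.s k42 k21 6 (.s k25 k59 4 (.s k13 k14 0 (.d k37 k32 k49 2 5)))))] (.c k165
  (.q k245 [(.s k46 k29 4 (.s k45 k44 0 (.s k30 k60 4 (.d k14 k13 k62 0 3)))), (.s k4 k8 1 (.s k21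
  k42 6 (.s k38 k55 4 (.s k25 k51 6 (.d k29 k17 k46 1 4))))), (.s k8 k4 1 (.s k42 k21 6 (.s k25 k59
  4 (.s k13 k14 0 (.d k37 k32 k49 2 5)))))] .n) (.c k245 (.q k165 [(.s k192 k128 7 (.s k133 k74 10
  (.s k181 k149 3 (.d k240 k122 k90 10 14)))), (.s k14 k13 0 (.s k46 k29 4 (.s k30 k62 3 (.d k45 k44
  k60 0 4))))] .n) .n))) .n)))) (.c k10 (.f k47 k31 3 (.q k12 [(.s k14 k13 0 (.s k46 k29 4 (.s k45
  k44 0 (.d k30 k62 k60 3 4)))), (.s k4 k8 1 (.s k21 k42 6 (.s k38 k55 4 (.s k25 k51 6 (.d k29 k17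
  k46 1 4))))), (.s k8 k4 1 (.s k42 k21 6 (.s k25 k59 4 (.s k13 k14 0 (.d k37 k32 k49 2 5)))))] (.c
  k64 (.q k85 [(.s k14 k13 0 (.s k46 k29 4 (.s k45 k44 0 (.d k30 k62 k60 3 4)))), (.s k4 k8 1 (.s
  k170 k255 14 (.s k166 k247 12 (.s k243 k89 14 (.d k162 k174 k81 1 12)))))] .n) (.c k85 (.q k64
  [(.s k14 k13 0 (.s k46 k29 4 (.s k45 k44 0 (.d k30 k62 k60 3 4)))), (.s k4 k8 1 (.s k21 k42 6 (.s
  k38 k55 4 (.s k25 k51 6 (.d k29 k17 k46 1 4))))), (.s k8 k4 1 (.s k42 k21 6 (.s k25 k59 4 (.s k13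
  k14 0 (.d k37 k32 k49 2 5)))))] .n) .n)))) (.c k16 (.l (.s k10 k5 2 (.s k42 k21 6 (.s k26 k58 3
  (.s k37 k48 6 (.d k47 k31 k32 3 2)))))) (.c k21 (.q k11 [(.s k10 k5 2 (.s k9 k8 0 (.s k3 k7 1 (.s
  k6 k12 2 (.d k2 k1 k14 0 1))))), (.s k3 k7 1 (.s k43 k23 5 (.s k27 k59 3 (.s k39 k51 5 (.d k47 k35
  k31 1 3)))))] (.c k3 (.f k47 k31 3 (.l (.s k10 k5 2 (.s k8 k9 0 (.s k12 k4 1 (.s k46 k29 4 (.s k45
  k44 0 (.s k30 k60 4 (.d k14 k13 k62 0 3))))))))) (.c k7 (.q k12 [(.s k8 k4 1 (.d k10 k5 k9 2 0)),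
  (.s k13 k14 0 (.s k29 k46 4 (.s k45 k61 3 (.s k30 k60 4 (.d k31 k28 k47 0 3)))))] (.c k64 (.q k85
  [(.s k8 k4 1 (.d k10 k5 k9 2 0)), (.s k4 k8 1 (.s k170 k255 14 (.s k166 k247 12 (.s k243 k89 14
  (.d k162 k174 k81 1 12))))), (.s k5 k10 2 (.s k170 k255 14 (.s k165 k245 11 (.s k240 k90 14 (.d
  k160 k175 k80 2 11)))))] .n) (.c k85 (.q k64 [(.s k8 k4 1 (.d k10 k5 k9 2 0)), (.s k192 k128 7 (.s
  k72 k132 9 (.s k74 k133 10 (.s k200 k137 8 (.d k8 k136 k4 7 1)))))] (.c k4 (.l (.s k14 k13 0 (.s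
  k10 k5 2 (.s k6 k2 1 (.d k9 k8 k3 0 2))))) (.c k8 (.l (.s k10 k5 2 (.s k192 k128 7 (.s k74 k133 10
  (.s k138 k202 7 (.d k69 k79 k207 2 10)))))) (.c k149 (.q k213 [(.s k8 k4 1 (.d k10 k5 k9 2 0)),
  (.s k192 k128 7 (.s k72 k132 9 (.s k74 k133 10 (.s k200 k137 8 (.d k8 k136 k4 7 1))))), (.s k10 k5
  2 (.s k192 k128 7 (.s k74 k133 10 (.s k138 k202 7 (.d k69 k79 k207 2 10)))))] (.c k4 (.l (.s k14
  k13 0 (.s k10 k5 2 (.s k6 k2 1 (.d k9 k8 k3 0 2))))) .n)) (.c k213 (.q k149 [(.s k8 k4 1 (.d k10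
  k5 k9 2 0)), (.s k128 k192 7 (.s k29 k46 4 (.s k89 k209 9 (.s k170 k191 6 (.d k8 k4 k251 1
  12))))), (.s k10 k5 2 (.s k128 k192 7 (.s k31 k47 3 (.s k90 k208 10 (.d k170 k191 k250 6 11)))))]
  (.c k4 (.l (.s k14 k13 0 (.s k10 k5 2 (.s k6 k2 1 (.d k9 k8 k3 0 2))))) .n)) .n))))) .n))) (.c k64
  (.q k85 [(.s k5 k10 2 (.s k170 k255 14 (.s k165 k245 11 (.s k160 k175 2 (.d k240 k80 k90 11
  14))))), (.s k3 k7 1 (.s k43 k23 5 (.s k27 k59 3 (.s k39 k51 5 (.d k47 k35 k31 1 3)))))] .n) (.c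
  k85 (.q k64 [(.s k192 k128 7 (.s k74 k133 10 (.s k69 k79 2 (.s k138 k207 10 (.d k10 k5 k202 2
  7))))), (.s k3 k7 1 (.s k43 k23 5 (.s k27 k59 3 (.s k39 k51 5 (.d k47 k35 k31 1 3)))))] (.c k149
  (.q k213 [(.s k3 k7 1 (.s k43 k23 5 (.s k27 k59 3 (.s k39 k51 5 (.d k47 k35 k31 1 3))))), (.s k10
  k5 2 (.s k192 k128 7 (.s k74 k133 10 (.s k138 k202 7 (.d k69 k79 k207 2 10)))))] .n) (.c k213 (.q
  k149 [(.s k192 k128 7 (.s k74 k133 10 (.s k69 k79 2 (.s k138 k207 10 (.d k10 k5 k202 2 7))))), (.s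
  k10 k5 2 (.s k3 k7 1 (.s k2 k1 0 (.s k6 k14 1 (.d k9 k8 k12 0 2))))), (.s k192 k128 7 (.s k31 k47
  3 (.s k133 k74 10 (.s k90 k208 10 (.d k165 k181 k240 3 14)))))] .n) .n))) .n))))) (.c k26 (.q k85
  [(.s k10 k5 2 (.s k170 k255 14 (.s k90 k250 11 (.s k240 k165 14 (.d k80 k95 k160 2 11))))), (.s
  k255 k170 14 (.s k31 k47 3 (.s k95 k175 11 (.s k90 k80 2 (.s k149 k208 10 (.d k21 k42 k213 6
  7)))))), (.s k10 k5 2 (.s k21 k42 6 (.s k170 k255 14 (.s k90 k250 11 (.s k149 k213 7 (.d k31 k47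
  k208 3 10))))))] (.c k47 (.l (.s k5 k10 2 (.s k170 k255 14 (.s k165 k245 11 (.s k240 k90 14 (.d
  k160 k175 k80 2 11)))))) (.c k90 (.f k47 k31 3 (.f k170 k255 14 (.l (.s k5 k10 2 (.s k165 k245 11
  (.s k175 k160 2 (.s k239 k111 7 (.s k101 k32 10 (.s k37 k229 7 (.d k21 k42 k53 6 3)))))))))) (.c
  k170 (.l (.s k5 k10 2 (.s k165 k245 11 (.s k31 k47 3 (.s k90 k240 14 (.s k149 k208 10 (.d k21 k42
  k213 6 7))))))) (.c k255 (.l (.s k21 k42 6 (.s k31 k47 3 (.s k149 k213 7 (.s k90 k208 10 (.s k165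
  k240 14 (.d k5 k10 k245 2 11))))))) .n))))) (.c k31 (.q k11 [(.s k10 k5 2 (.s k9 k8 0 (.s k3 k7 1
  (.s k6 k12 2 (.d k2 k1 k14 0 1))))), (.s k21 k42 6 (.s k3 k7 1 (.s k1 k2 0 (.s k41 k61 5 (.s k22
  k60 6 (.d k23 k20 k43 0 5)))))), (.s k10 k5 2 (.s k42 k21 6 (.s k8 k9 0 (.s k59 k25 4 (.s k27 k43
  3 (.d k51 k55 k39 1 5))))))] (.c k1 (.l (.s k10 k5 2 (.s k42 k21 6 (.s k3 k7 1 (.s k43 k23 5 (.s
  k26 k58 3 (.d k41 k40 k56 0 4))))))) (.c k64 (.q k85 [(.s k5 k10 2 (.s k170 k255 14 (.s k165 k245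
  11 (.s k160 k175 2 (.d k240 k80 k90 11 14))))), (.s k21 k42 6 (.s k3 k7 1 (.s k1 k2 0 (.s k41 k61
  5 (.s k22 k60 6 (.d k23 k20 k43 0 5))))))] (.c k170 (.l (.s k10 k5 2 (.s k3 k7 1 (.s k2 k1 0 (.s
  k6 k14 1 (.d k9 k8 k12 0 2)))))) .n)) (.c k85 (.q k64 [(.s k192 k128 7 (.s k74 k133 10 (.s k69 k79
  2 (.s k138 k207 10 (.d k10 k5 k202 2 7))))), (.s k21 k42 6 (.s k3 k7 1 (.s k1 k2 0 (.s k41 k61 5
  (.s k22 k60 6 (.d k23 k20 k43 0 5))))))] .n) .n)))) (.c k32 (.l (.s k5 k10 2 (.s k21 k42 6 (.s k37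
  k53 3 (.s k26 k48 6 (.d k31 k47 k16 3 2)))))) (.c k37 (.q k85 [(.s k5 k10 2 (.s k170 k255 14 (.s
  k165 k245 11 (.s k160 k175 2 (.d k240 k80 k90 11 14))))), (.s k255 k170 14 (.s k31 k47 3 (.s k95
  k175 11 (.s k223 k159 7 (.s k16 k154 10 (.d k21 k42 k26 6 2)))))), (.s k10 k5 2 (.s k21 k42 6 (.s
  k170 k255 14 (.s k90 k250 11 (.s k149 k213 7 (.d k31 k47 k208 3 10))))))] (.c k170 (.l (.s k5 k10
  2 (.s k165 k245 11 (.s k31 k47 3 (.s k90 k240 14 (.s k149 k208 10 (.d k21 k42 k213 6 7))))))) (.c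
  k255 (.l (.s k5 k10 2 (.s k21 k42 6 (.s k165 k245 11 (.s k240 k90 14 (.s k149 k213 7 (.d k181 k122
  k133 10 3))))))) .n))) (.c k42 (.f k47 k31 3 (.q k11 [(.s k3 k7 1 (.s k43 k23 5 (.s k39 k35 1 (.d
  k27 k59 k51 3 5)))), (.s k10 k5 2 (.s k8 k9 0 (.s k12 k4 1 (.s k46 k29 4 (.s k45 k44 0 (.s k30 k60
  4 (.d k14 k13 k62 0 3)))))))] (.c k7 (.q k12 [(.s k8 k4 1 (.d k10 k5 k9 2 0)), (.s k14 k13 0 (.s
  k46 k29 4 (.s k30 k62 3 (.d k45 k44 k60 0 4))))] (.c k64 (.q k85 [(.s k8 k4 1 (.d k10 k5 k9 2 0)),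
  (.s k14 k13 0 (.s k46 k29 4 (.s k30 k62 3 (.d k45 k44 k60 0 4))))] (.c k170 (.q k234 [(.s k8 k4 1
  (.d k10 k5 k9 2 0)), (.s k14 k13 0 (.s k46 k29 4 (.s k30 k62 3 (.d k45 k44 k60 0 4))))] .n) (.c
  k234 (.l (.s k170 k255 14 (.s k8 k4 1 (.d k10 k5 k9 2 0)))) .n))) (.c k85 (.q k64 [(.s k8 k4 1 (.d
  k10 k5 k9 2 0)), (.s k14 k13 0 (.s k46 k29 4 (.s k30 k62 3 (.d k45 k44 k60 0 4))))] (.c k170 (.q
  k234 [(.s k8 k4 1 (.d k10 k5 k9 2 0)), (.s k14 k13 0 (.s k46 k29 4 (.s k30 k62 3 (.d k45 k44 k60 0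
  4))))] .n) (.c k234 (.q k170 [(.s k8 k4 1 (.d k10 k5 k9 2 0)), (.s k14 k13 0 (.s k46 k29 4 (.s k30
  k62 3 (.d k45 k44 k60 0 4))))] .n) .n))) (.c k170 (.q k234 [(.s k8 k4 1 (.d k10 k5 k9 2 0)), (.s
  k14 k13 0 (.s k46 k29 4 (.s k30 k62 3 (.d k45 k44 k60 0 4))))] (.c k64 (.q k85 [(.s k8 k4 1 (.d
  k10 k5 k9 2 0)), (.s k14 k13 0 (.s k46 k29 4 (.s k30 k62 3 (.d k45 k44 k60 0 4))))] .n) (.c k85
  (.q k64 [(.s k8 k4 1 (.d k10 k5 k9 2 0)), (.s k14 k13 0 (.s k46 k29 4 (.s k30 k62 3 (.d k45 k44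
  k60 0 4))))] .n) .n))) (.c k234 (.q k170 [(.s k8 k4 1 (.d k10 k5 k9 2 0)), (.s k14 k13 0 (.s k46
  k29 4 (.s k30 k62 3 (.d k45 k44 k60 0 4))))] (.c k64 (.l (.s k85 k255 14 (.s k8 k4 1 (.d k10 k5 k9
  2 0)))) (.c k85 (.q k64 [(.s k8 k4 1 (.d k10 k5 k9 2 0)), (.s k14 k13 0 (.s k46 k29 4 (.s k30 k62
  3 (.d k45 k44 k60 0 4))))] .n) .n))) .n))))) (.c k64 (.q k85 [(.s k3 k7 1 (.s k43 k23 5 (.s k39
  k35 1 (.d k27 k59 k51 3 5)))), (.s k5 k10 2 (.s k170 k255 14 (.s k165 k245 11 (.s k240 k90 14 (.d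
  k160 k175 k80 2 11)))))] (.c k170 (.q k234 [(.s k3 k7 1 (.s k43 k23 5 (.s k39 k35 1 (.d k27 k59
  k51 3 5)))), (.s k10 k5 2 (.s k8 k9 0 (.s k12 k4 1 (.s k46 k29 4 (.s k45 k44 0 (.s k30 k60 4 (.d
  k14 k13 k62 0 3)))))))] (.c k7 (.q k12 [(.s k8 k4 1 (.d k10 k5 k9 2 0)), (.s k14 k13 0 (.s k46 k29
  4 (.s k30 k62 3 (.d k45 k44 k60 0 4))))] .n) .n)) (.c k234 (.l (.s k170 k255 14 (.s k5 k10 2 (.s
  k165 k245 11 (.s k240 k90 14 (.d k160 k175 k80 2 11)))))) .n))) (.c k85 (.q k64 [(.s k3 k7 1 (.s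
  k43 k23 5 (.s k39 k35 1 (.d k27 k59 k51 3 5)))), (.s k10 k5 2 (.s k192 k128 7 (.s k74 k133 10 (.s
  k138 k202 7 (.d k69 k79 k207 2 10)))))] (.c k170 (.q k234 [(.s k3 k7 1 (.s k43 k23 5 (.s k39 k35 1
  (.d k27 k59 k51 3 5)))), (.s k10 k5 2 (.s k192 k128 7 (.s k74 k133 10 (.s k138 k202 7 (.d k69 k79
  k207 2 10)))))] .n) (.c k234 (.q k170 [(.s k3 k7 1 (.s k43 k23 5 (.s k39 k35 1 (.d k27 k59 k51 3
  5)))), (.s k10 k5 2 (.s k192 k128 7 (.s k74 k133 10 (.s k138 k202 7 (.d k69 k79 k207 2 10)))))]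
  .n) .n))) (.c k170 (.q k234 [(.s k3 k7 1 (.s k43 k23 5 (.s k39 k35 1 (.d k27 k59 k51 3 5)))), (.s
  k10 k5 2 (.s k8 k9 0 (.s k12 k4 1 (.s k46 k29 4 (.s k45 k44 0 (.s k30 k60 4 (.d k14 k13 k62 0
  3)))))))] (.c k7 (.q k12 [(.s k8 k4 1 (.d k10 k5 k9 2 0)), (.s k14 k13 0 (.s k46 k29 4 (.s k30 k62
  3 (.d k45 k44 k60 0 4))))] (.c k64 (.q k85 [(.s k8 k4 1 (.d k10 k5 k9 2 0)), (.s k14 k13 0 (.s k46
  k29 4 (.s k30 k62 3 (.d k45 k44 k60 0 4))))] .n) (.c k85 (.q k64 [(.s k8 k4 1 (.d k10 k5 k9 2 0)),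
  (.s k14 k13 0 (.s k46 k29 4 (.s k30 k62 3 (.d k45 k44 k60 0 4))))] .n) .n))) (.c k64 (.q k85 [(.s
  k3 k7 1 (.s k43 k23 5 (.s k39 k35 1 (.d k27 k59 k51 3 5)))), (.s k10 k5 2 (.s k8 k9 0 (.s k12 k4 1
  (.s k46 k29 4 (.s k45 k44 0 (.s k30 k60 4 (.d k14 k13 k62 0 3)))))))] (.c k7 (.q k12 [(.s k8 k4 1
  (.d k10 k5 k9 2 0)), (.s k14 k13 0 (.s k46 k29 4 (.s k30 k62 3 (.d k45 k44 k60 0 4))))] .n) .n))
  (.c k85 (.q k64 [(.s k3 k7 1 (.s k43 k23 5 (.s k39 k35 1 (.d k27 k59 k51 3 5)))), (.s k10 k5 2 (.s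
  k192 k128 7 (.s k74 k133 10 (.s k138 k202 7 (.d k69 k79 k207 2 10)))))] .n) .n)))) (.c k234 (.q
  k170 [(.s k3 k7 1 (.s k43 k23 5 (.s k39 k35 1 (.d k27 k59 k51 3 5)))), (.s k5 k10 2 (.s k85 k255
  14 (.s k165 k245 11 (.s k240 k90 14 (.d k160 k175 k80 2 11)))))] (.c k64 (.l (.s k85 k255 14 (.s
  k5 k10 2 (.s k165 k245 11 (.s k240 k90 14 (.d k160 k175 k80 2 11)))))) (.c k85 (.q k64 [(.s k3 k7
  1 (.s k43 k23 5 (.s k39 k35 1 (.d k27 k59 k51 3 5)))), (.s k10 k5 2 (.s k192 k128 7 (.s k74 k133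
  10 (.s k138 k202 7 (.d k69 k79 k207 2 10)))))] .n) .n))) .n))))))) (.c k47 (.q k165 [(.s k10 k5 2
  (.s k90 k240 14 (.s k170 k250 11 (.s k175 k160 2 (.d k255 k85 k95 14 11))))), (.s k5 k10 2 (.s k21
  k42 6 (.s k85 k245 11 (.s k149 k213 7 (.s k133 k181 3 (.s k197 k69 7 (.d k53 k37 k101 3 11))))))),
  (.s k21 k42 6 (.s k240 k90 14 (.s k160 k80 11 (.s k170 k175 2 (.s k85 k255 14 (.s k149 k213 7 (.d
  k181 k122 k133 10 3)))))))] (.c k64 (.q k85 [(.d k5 k10 k245 2 11), (.s k170 k255 14 (.s k240 k90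
  14 (.d k160 k175 k80 2 11)))] .n) (.c k85 (.q k64 [(.s k192 k128 7 (.s k133 k74 10 (.s k181 k149 3
  (.d k240 k122 k90 10 14)))), (.s k10 k5 2 (.s k192 k128 7 (.s k74 k133 10 (.s k138 k202 7 (.d k69
  k79 k207 2 10))))), (.s k5 k10 2 (.s k21 k42 6 (.s k37 k53 3 (.s k240 k90 14 (.s k80 k160 11 (.s
  k112 k96 3 (.d k48 k26 k176 6 7)))))))] (.c k74 (.l (.s k192 k128 7 (.s k240 k90 14 (.s k122 k181
  10 (.s k80 k160 11 (.s k96 k112 3 (.s k144 k48 11 (.d k208 k224 k16 3 7)))))))) .n)) (.c k170 (.f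
  k42 k21 6 (.l (.s k10 k5 2 (.s k26 k58 3 (.s k90 k240 14 (.s k154 k218 7 (.s k143 k176 6 (.s k207
  k79 7 (.d k48 k37 k101 6 14))))))))) .n)))) (.c k48 (.q k85 [(.s k5 k10 2 (.s k170 k255 14 (.s
  k165 k245 11 (.s k160 k175 2 (.d k240 k80 k90 11 14))))), (.s k21 k42 6 (.s k31 k47 3 (.s k16 k26
  2 (.s k223 k154 10 (.s k95 k159 7 (.d k255 k170 k175 14 11)))))), (.s k21 k42 6 (.s k31 k47 3 (.s
  k149 k213 7 (.s k90 k208 10 (.s k80 k95 2 (.d k240 k165 k160 14 11))))))] (.c k90 (.l (.s k255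
  k170 14 (.s k31 k47 3 (.s k95 k175 11 (.s k223 k159 7 (.s k16 k154 10 (.d k21 k26 k42 2 6)))))))
  (.c k165 (.l (.s k10 k5 2 (.s k21 k42 6 (.s k170 k255 14 (.s k90 k250 11 (.s k149 k213 7 (.d k31
  k47 k208 3 10))))))) (.c k170 (.l (.s k5 k10 2 (.s k165 k245 11 (.s k31 k47 3 (.s k90 k240 14 (.s
  k149 k208 10 (.d k21 k42 k213 6 7))))))) .n)))) (.c k53 (.l (.s k10 k5 2 (.s k47 k31 3 (.s k42 k21
  6 (.s k37 k32 2 (.d k26 k58 k48 3 6)))))) (.c k58 (.l (.s k5 k10 2 (.s k31 k47 3 (.s k21 k42 6 (.s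
  k26 k16 2 (.d k37 k53 k48 3 6)))))) (.c k64 (.q k85 [(.s k5 k10 2 (.s k21 k42 6 (.s k37 k53 3 (.s
  k26 k48 6 (.d k31 k16 k47 2 3))))), (.s k5 k10 2 (.s k170 k255 14 (.s k165 k245 11 (.s k240 k90 14
  (.d k160 k175 k80 2 11))))), (.s k21 k42 6 (.s k31 k47 3 (.s k149 k213 7 (.s k90 k208 10 (.s k80
  k95 2 (.d k240 k165 k160 14 11))))))] (.c k170 (.l (.s k10 k5 2 (.s k42 k21 6 (.s k26 k58 3 (.s
  k37 k48 6 (.d k47 k32 k31 2 3)))))) .n)) (.c k85 (.q k64 [(.s k5 k10 2 (.s k21 k42 6 (.s k37 k53 3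
  (.s k26 k48 6 (.d k31 k16 k47 2 3))))), (.s k10 k5 2 (.s k192 k128 7 (.s k74 k133 10 (.s k138 k202
  7 (.d k69 k79 k207 2 10)))))] (.c k5 (.f k47 k31 3 (.f k42 k21 6 (.l (.s k192 k128 7 (.s k74 k133
  10 (.s k37 k32 2 (.s k26 k48 6 (.s k10 k58 3 (.s k69 k79 2 (.d k138 k202 k207 7 10)))))))))) (.c
  k10 (.q k12 [(.s k13 k14 0 (.s k29 k46 4 (.s k45 k61 3 (.s k30 k60 4 (.d k31 k28 k47 0 3))))), (.s
  k8 k4 1 (.s k192 k128 7 (.s k72 k132 9 (.s k136 k200 7 (.d k68 k76 k204 1 9)))))] (.c k166 (.l (.s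
  k4 k8 1 (.s k21 k42 6 (.s k38 k55 4 (.s k25 k51 6 (.d k29 k17 k46 1 4)))))) .n)) (.c k58 (.l (.s
  k5 k10 2 (.s k31 k47 3 (.s k21 k42 6 (.s k26 k16 2 (.d k37 k53 k48 3 6)))))) .n))))
  .n))))))))))))))))

def t128 : T TT 256 :=
  (.q k60 [(.s k40 k20 5 (.s k62 k61 0 (.s k42 k21 6 (.s k22 k2 5 (.d k41 k43 k3 0 6)))))] (.c k1
  (.l (.s k40 k20 5 (.s k42 k21 6 (.s k41 k43 0 (.s k22 k3 6 (.d k62 k61 k2 0 5)))))) (.c k2 (.l (.s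
  k20 k40 5 (.s k21 k42 6 (.s k22 k23 0 (.s k41 k3 6 (.d k61 k62 k1 0 5)))))) (.c k3 (.q k8 [(.s k12
  k4 1 (.s k40 k20 5 (.s k24 k56 3 (.s k44 k28 3 (.d k36 k32 k48 1 5))))), (.s k12 k4 1 (.s k42 k21
  6 (.s k25 k59 4 (.s k38 k51 6 (.d k46 k34 k29 1 4))))), (.s k40 k20 5 (.s k42 k21 6 (.s k56 k24 3
  (.s k59 k25 4 (.s k57 k58 0 (.d k51 k55 k54 1 2))))))] .n) (.c k20 (.q k8 [(.s k12 k4 1 (.s k46
  k29 4 (.s k42 k21 6 (.s k38 k34 1 (.d k25 k59 k51 4 6))))), (.s k12 k4 1 (.s k28 k44 3 (.s k29 k46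
  4 (.s k30 k31 0 (.s k45 k15 4 (.d k61 k62 k13 0 3)))))), (.s k42 k21 6 (.s k25 k59 4 (.s k62 k61 0
  (.s k22 k2 5 (.s k28 k19 2 (.d k12 k4 k44 1 3))))))] (.c k4 (.f k62 k61 0 (.l (.s k42 k21 6 (.s
  k22 k2 5 (.s k25 k59 4 (.s k28 k19 2 (.s k12 k44 3 (.s k38 k51 6 (.d k46 k34 k29 1 4))))))))) (.c
  k12 (.l (.s k42 k21 6 (.s k59 k25 4 (.s k51 k55 1 (.s k57 k54 2 (.s k58 k56 0 (.s k53 k48 2 (.d
  k61 k62 k49 0 1)))))))) .n))) (.c k21 (.q k126 [(.s k61 k62 0 (.s k189 k252 8 (.s k125 k253 7 (.s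
  k255 k190 8 (.d k127 k124 k191 0 7))))), (.s k20 k40 5 (.s k252 k189 8 (.s k84 k168 13 (.s k148
  k212 7 (.s k104 k192 13 (.d k124 k188 k64 7 5)))))), (.s k40 k20 5 (.s k62 k61 0 (.s k190 k254 7
  (.s k255 k125 8 (.s k170 k85 14 (.s k105 k235 8 (.d k150 k130 k195 5 14)))))))] (.c k189 (.q k170
  [(.s k62 k61 0 (.s k190 k254 7 (.d k255 k125 k85 8 14))), (.s k20 k40 5 (.s k85 k255 14 (.s k150
  k215 8 (.s k195 k105 14 (.d k130 k190 k65 5 8))))), (.s k40 k20 5 (.s k105 k235 8 (.s k62 k61 0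
  (.s k190 k254 7 (.d k150 k130 k195 5 14)))))] (.c k190 (.l (.s k40 k20 5 (.s k85 k255 14 (.s k105
  k235 8 (.s k195 k150 14 (.d k65 k125 k130 5 8)))))) .n)) .n)) (.c k22 (.q k55 [(.s k51 k59 1 (.s
  k54 k57 2 (.s k53 k52 0 (.s k58 k48 2 (.d k62 k61 k50 0 1))))), (.s k21 k42 6 (.s k38 k4 4 (.s k51
  k59 1 (.s k17 k34 4 (.d k25 k29 k12 1 6))))), (.s k20 k40 5 (.s k21 k42 6 (.s k4 k38 4 (.s k52 k36
  3 (.s k48 k56 1 (.d k53 k54 k58 0 2))))))] (.c k62 (.l (.s k20 k40 5 (.s k51 k59 1 (.s k54 k57 2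
  (.s k52 k53 0 (.s k4 k36 3 (.d k21 k38 k42 4 6))))))) .n)) (.c k23 (.l (.s k40 k20 5 (.s k62 k61 0
  (.s k42 k21 6 (.s k22 k2 5 (.d k41 k43 k3 0 6)))))) (.c k40 (.q k8 [(.s k12 k4 1 (.s k46 k29 4 (.s
  k42 k21 6 (.s k38 k34 1 (.d k25 k59 k51 4 6))))), (.s k12 k4 1 (.s k28 k44 3 (.s k29 k46 4 (.s k30
  k31 0 (.s k45 k15 4 (.d k61 k62 k13 0 3)))))), (.s k42 k21 6 (.s k59 k25 4 (.s k51 k55 1 (.s k57
  k54 2 (.s k58 k56 0 (.s k53 k48 2 (.d k61 k62 k49 0 1)))))))] (.c k4 (.f k62 k61 0 (.l (.s k42 k21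
  6 (.s k22 k2 5 (.s k25 k59 4 (.s k28 k19 2 (.s k12 k44 3 (.s k38 k51 6 (.d k46 k34 k29 1
  4))))))))) (.c k29 (.l (.s k12 k4 1 (.s k42 k21 6 (.s k25 k59 4 (.s k28 k44 3 (.s k22 k19 2 (.d
  k62 k61 k2 0 5))))))) .n))) (.c k41 (.q k8 [(.s k12 k4 1 (.s k40 k20 5 (.s k44 k28 3 (.s k36 k32 1
  (.d k24 k56 k48 3 5))))), (.s k12 k4 1 (.s k42 k21 6 (.s k25 k59 4 (.s k38 k51 6 (.d k46 k34 k29 1
  4))))), (.s k40 k20 5 (.s k42 k21 6 (.s k56 k24 3 (.s k59 k25 4 (.s k57 k58 0 (.d k51 k55 k54 1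
  2))))))] .n) (.c k42 (.q k170 [(.s k40 k20 5 (.s k85 k255 14 (.s k105 k235 8 (.s k195 k150 14 (.d
  k65 k125 k130 5 8))))), (.s k255 k85 14 (.s k61 k62 0 (.s k125 k190 8 (.s k189 k253 7 (.s k126
  k252 8 (.d k127 k124 k191 0 7)))))), (.s k20 k40 5 (.s k85 k255 14 (.s k150 k215 8 (.s k195 k105
  14 (.d k130 k190 k65 5 8)))))] (.c k85 (.f k62 k61 0 (.q k8 [(.s k12 k4 1 (.s k44 k28 3 (.s k46
  k29 4 (.s k30 k14 3 (.d k45 k47 k15 0 4))))), (.s k40 k20 5 (.s k56 k24 3 (.s k89 k251 12 (.s k105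
  k235 8 (.s k203 k154 12 (.d k73 k121 k138 3 8))))))] (.c k28 (.l (.s k12 k4 1 (.s k40 k20 5 (.s
  k89 k251 12 (.s k105 k235 8 (.s k73 k121 3 (.d k195 k150 k134 14 10))))))) (.c k64 (.q k127 [(.s
  k40 k20 5 (.s k105 k235 8 (.s k150 k195 14 (.s k255 k191 7 (.d k190 k130 k125 5 8))))), (.s k12 k4
  1 (.s k89 k251 12 (.s k166 k243 14 (.s k255 k191 7 (.d k174 k162 k93 1 12))))), (.s k12 k4 1 (.s
  k40 k20 5 (.s k24 k56 3 (.s k36 k48 5 (.d k44 k32 k28 1 3)))))] .n) (.c k127 (.q k64 [(.s k12 k4 1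
  (.s k44 k28 3 (.s k46 k29 4 (.s k30 k14 3 (.d k45 k47 k15 0 4))))), (.s k40 k20 5 (.s k56 k24 3
  (.s k89 k251 12 (.s k105 k235 8 (.s k203 k154 12 (.d k73 k121 k138 3 8))))))] (.c k28 (.l (.s k12
  k4 1 (.s k40 k20 5 (.s k89 k251 12 (.s k105 k235 8 (.s k73 k121 3 (.d k195 k150 k134 14 10)))))))
  .n)) .n))))) (.c k150 (.l (.s k255 k85 14 (.s k62 k61 0 (.s k190 k125 8 (.s k126 k254 7 (.s k189
  k252 8 (.d k191 k127 k188 7 0))))))) (.c k255 (.q k8 [(.s k12 k4 1 (.s k40 k20 5 (.s k24 k56 3 (.s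
  k44 k28 3 (.d k36 k32 k48 1 5))))), (.s k12 k4 1 (.s k89 k251 12 (.s k28 k44 3 (.s k150 k211 10
  (.s k195 k105 14 (.d k130 k190 k65 5 8)))))), (.s k40 k20 5 (.s k56 k24 3 (.s k89 k251 12 (.s k105
  k235 8 (.s k203 k154 12 (.d k73 k121 k138 3 8))))))] (.c k28 (.l (.s k12 k4 1 (.s k40 k20 5 (.s
  k89 k251 12 (.s k243 k166 14 (.s k105 k235 8 (.d k121 k73 k182 3 10))))))) .n)) .n)))) (.c k43 (.l
  (.s k20 k40 5 (.s k61 k62 0 (.s k21 k42 6 (.s k41 k1 5 (.d k22 k23 k3 0 6)))))) (.c k61 (.q k8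
  [(.s k12 k4 1 (.s k40 k20 5 (.s k24 k56 3 (.s k36 k48 5 (.d k44 k32 k28 1 3))))), (.s k12 k4 1 (.s
  k42 k21 6 (.s k25 k59 4 (.s k38 k51 6 (.d k46 k34 k29 1 4))))), (.s k40 k20 5 (.s k42 k21 6 (.s
  k56 k24 3 (.s k59 k25 4 (.s k57 k58 0 (.d k51 k55 k54 1 2))))))] .n) (.c k62 (.q k8 [(.s k12 k4 1
  (.s k40 k20 5 (.s k24 k56 3 (.s k36 k48 5 (.d k44 k32 k28 1 3))))), (.s k12 k4 1 (.s k42 k21 6 (.s
  k25 k59 4 (.s k38 k51 6 (.d k46 k34 k29 1 4))))), (.s k40 k20 5 (.s k42 k21 6 (.s k56 k24 3 (.s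
  k59 k25 4 (.s k57 k58 0 (.d k51 k54 k55 2 1))))))] (.c k150 (.q k194 [(.s k12 k4 1 (.s k40 k20 5
  (.s k24 k56 3 (.s k36 k48 5 (.d k44 k32 k28 1 3))))), (.s k12 k4 1 (.s k42 k21 6 (.s k25 k59 4 (.s
  k38 k51 6 (.d k46 k34 k29 1 4))))), (.s k40 k20 5 (.s k42 k21 6 (.s k56 k24 3 (.s k59 k25 4 (.s
  k57 k58 0 (.d k51 k54 k55 2 1))))))] .n) (.c k194 (.q k150 [(.s k12 k4 1 (.s k40 k20 5 (.s k24 k56
  3 (.s k36 k48 5 (.d k44 k32 k28 1 3))))), (.s k20 k40 5 (.s k85 k215 8 (.s k170 k255 14 (.s k195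
  k105 14 (.d k130 k190 k65 5 8))))), (.s k12 k4 1 (.s k42 k21 6 (.s k25 k59 4 (.s k38 k51 6 (.d k46
  k34 k29 1 4)))))] .n) .n))) .n))))))))))))))

def t129 : T TT 256 :=
  (.q k60 [(.s k40 k20 5 (.s k62 k61 0 (.s k42 k21 6 (.s k22 k2 5 (.d k41 k43 k3 0 6)))))] (.c k1
  (.l (.s k40 k20 5 (.s k42 k21 6 (.s k41 k43 0 (.s k22 k3 6 (.d k62 k61 k2 0 5)))))) (.c k2 (.l (.s
  k20 k40 5 (.s k21 k42 6 (.s k22 k23 0 (.s k41 k3 6 (.d k61 k62 k1 0 5)))))) (.c k3 (.f k62 k61 0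
  (.q k252 [(.s k20 k40 5 (.s k84 k168 13 (.s k148 k212 7 (.s k124 k188 7 (.d k104 k192 k64 13
  5))))), (.s k124 k188 7 (.s k126 k189 8 (.s k190 k254 7 (.d k125 k127 k255 0 8))))] (.c k66 (.q
  k192 [(.s k20 k40 5 (.s k84 k168 13 (.d k148 k104 k212 13 7))), (.s k124 k188 7 (.s k126 k189 8
  (.s k190 k254 7 (.d k125 k127 k255 0 8))))] (.c k86 (.l (.s k126 k189 8 (.s k20 k40 5 (.s k84 k168
  13 (.d k148 k104 k212 13 7))))) (.c k126 (.q k86 [(.s k20 k40 5 (.s k84 k168 13 (.d k148 k104 k212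
  13 7))), (.s k64 k128 7 (.s k84 k168 13 (.d k104 k148 k124 13 5))), (.s k20 k40 5 (.s k21 k42 6
  (.s k23 k22 0 (.d k212 k232 k149 5 8))))] .n) .n))) (.c k124 (.l (.s k42 k21 6 (.s k2 k22 5 (.s
  k126 k189 8 (.s k254 k190 7 (.s k170 k86 13 (.d k255 k253 k85 0 14))))))) (.c k188 (.f k126 k189 8
  (.l (.s k20 k40 5 (.s k84 k168 13 (.s k148 k212 7 (.s k190 k254 7 (.s k125 k255 8 (.s k124 k127 0
  (.d k104 k64 k192 5 13))))))))) (.c k192 (.q k66 [(.s k124 k188 7 (.s k126 k189 8 (.s k190 k254 7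
  (.d k125 k127 k255 0 8)))), (.s k42 k21 6 (.s k84 k168 13 (.s k2 k22 5 (.s k130 k194 7 (.s k124
  k188 7 (.s k64 k104 5 (.d k65 k195 k67 8 0))))))), (.s k42 k21 6 (.s k2 k22 5 (.s k130 k194 7 (.s
  k195 k65 8 (.s k150 k105 14 (.s k126 k189 8 (.d k190 k170 k254 5 7)))))))] .n) .n)))))) (.c k20
  (.q k8 [(.s k12 k4 1 (.s k46 k29 4 (.s k42 k21 6 (.s k38 k34 1 (.d k25 k59 k51 4 6))))), (.s k12
  k4 1 (.s k28 k44 3 (.s k29 k46 4 (.s k30 k31 0 (.s k45 k15 4 (.d k61 k62 k13 0 3)))))), (.s k42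
  k21 6 (.s k25 k59 4 (.s k62 k61 0 (.s k22 k2 5 (.s k28 k19 2 (.d k12 k4 k44 1 3))))))] (.c k4 (.f
  k62 k61 0 (.l (.s k42 k21 6 (.s k22 k2 5 (.s k25 k59 4 (.s k28 k19 2 (.s k12 k44 3 (.s k38 k51 6
  (.d k46 k34 k29 1 4))))))))) (.c k12 (.l (.s k42 k21 6 (.s k59 k25 4 (.s k51 k55 1 (.s k57 k54 2
  (.s k58 k56 0 (.s k53 k48 2 (.d k61 k62 k49 0 1)))))))) .n))) (.c k21 (.q k8 [(.s k12 k4 1 (.s k40
  k20 5 (.s k24 k56 3 (.s k36 k48 5 (.d k44 k32 k28 1 3))))), (.s k12 k4 1 (.s k28 k44 3 (.s k29 k46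
  4 (.s k30 k31 0 (.s k45 k15 4 (.d k61 k62 k13 0 3)))))), (.s k40 k20 5 (.s k56 k24 3 (.s k48 k52 1
  (.s k58 k53 2 (.s k57 k59 0 (.s k54 k51 2 (.d k62 k61 k50 0 1)))))))] (.c k4 (.q k252 [(.s k20 k40
  5 (.s k84 k168 13 (.s k148 k212 7 (.s k124 k188 7 (.d k104 k64 k192 5 13))))), (.s k61 k62 0 (.s
  k188 k124 7 (.s k189 k126 8 (.s k125 k253 7 (.d k190 k191 k255 0 8))))), (.s k40 k20 5 (.s k168
  k84 13 (.s k56 k24 3 (.s k248 k88 11 (.s k120 k184 7 (.d k240 k244 k180 1 9))))))] (.c k38 (.q k55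
  [(.s k20 k40 5 (.s k84 k168 13 (.s k148 k212 7 (.s k124 k188 7 (.d k104 k64 k192 5 13))))), (.s
  k168 k84 13 (.s k248 k88 11 (.s k51 k59 1 (.s k118 k185 10 (.d k244 k240 k181 1 8))))), (.s k40
  k20 5 (.s k56 k24 3 (.s k52 k48 1 (.s k51 k59 1 (.d k54 k53 k57 0 2)))))] .n) (.c k55 (.q k38 [(.s
  k20 k40 5 (.s k84 k168 13 (.s k148 k212 7 (.s k124 k188 7 (.d k104 k64 k192 5 13))))), (.s k61 k62
  0 (.s k188 k124 7 (.s k189 k126 8 (.s k125 k253 7 (.d k190 k191 k255 0 8))))), (.s k40 k20 5 (.s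
  k168 k84 13 (.s k56 k24 3 (.s k248 k88 11 (.s k120 k184 7 (.d k240 k244 k180 1 9))))))] .n) .n)))
  (.c k28 (.q k252 [(.s k12 k4 1 (.s k168 k84 13 (.s k88 k248 11 (.s k164 k240 13 (.d k172 k160 k92
  1 11))))), (.s k61 k62 0 (.s k188 k124 7 (.s k189 k126 8 (.s k125 k253 7 (.d k190 k191 k255 0
  8)))))] .n) (.c k55 (.l (.s k40 k20 5 (.s k56 k24 3 (.s k48 k52 1 (.s k62 k61 0 (.s k58 k53 2 (.s
  k54 k50 1 (.d k57 k59 k51 0 2)))))))) .n)))) (.c k22 (.q k55 [(.s k51 k59 1 (.s k54 k57 2 (.s k53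
  k52 0 (.s k58 k48 2 (.d k62 k61 k50 0 1))))), (.s k21 k42 6 (.s k38 k4 4 (.s k51 k59 1 (.s k17 k34
  4 (.d k25 k29 k12 1 6))))), (.s k20 k40 5 (.s k21 k42 6 (.s k4 k38 4 (.s k52 k36 3 (.s k48 k56 1
  (.d k53 k54 k58 0 2))))))] (.c k62 (.l (.s k20 k40 5 (.s k51 k59 1 (.s k54 k57 2 (.s k52 k53 0 (.s
  k4 k36 3 (.d k21 k38 k42 4 6))))))) .n)) (.c k23 (.l (.s k40 k20 5 (.s k62 k61 0 (.s k42 k21 6 (.s
  k22 k2 5 (.d k41 k43 k3 0 6)))))) (.c k40 (.q k8 [(.s k12 k4 1 (.s k46 k29 4 (.s k42 k21 6 (.s k38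
  k34 1 (.d k25 k59 k51 4 6))))), (.s k12 k4 1 (.s k28 k44 3 (.s k29 k46 4 (.s k30 k31 0 (.s k45 k15
  4 (.d k61 k62 k13 0 3)))))), (.s k42 k21 6 (.s k59 k25 4 (.s k51 k55 1 (.s k57 k54 2 (.s k58 k56 0
  (.s k53 k48 2 (.d k61 k62 k49 0 1)))))))] (.c k4 (.f k62 k61 0 (.l (.s k42 k21 6 (.s k22 k2 5 (.s
  k25 k59 4 (.s k28 k19 2 (.s k12 k44 3 (.s k38 k51 6 (.d k46 k34 k29 1 4))))))))) (.c k29 (.l (.s
  k12 k4 1 (.s k42 k21 6 (.s k25 k59 4 (.s k28 k44 3 (.s k22 k19 2 (.d k62 k61 k2 0 5))))))) .n)))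
  (.c k41 (.q k8 [(.s k12 k4 1 (.s k40 k20 5 (.s k44 k28 3 (.s k36 k32 1 (.d k24 k56 k48 3 5))))),
  (.s k12 k4 1 (.s k42 k21 6 (.s k25 k59 4 (.s k38 k51 6 (.d k46 k34 k29 1 4))))), (.s k40 k20 5 (.s
  k42 k21 6 (.s k56 k24 3 (.s k59 k25 4 (.s k57 k58 0 (.d k51 k55 k54 1 2))))))] .n) (.c k42 (.q
  k170 [(.s k40 k20 5 (.s k85 k255 14 (.s k105 k235 8 (.s k195 k150 14 (.d k65 k125 k130 5 8))))),
  (.s k255 k85 14 (.s k61 k62 0 (.s k125 k190 8 (.s k189 k253 7 (.s k126 k252 8 (.d k127 k124 k191 0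
  7)))))), (.s k20 k40 5 (.s k85 k255 14 (.s k150 k215 8 (.s k195 k105 14 (.d k130 k190 k65 5
  8)))))] (.c k85 (.f k62 k61 0 (.q k252 [(.s k124 k188 7 (.s k126 k189 8 (.s k190 k254 7 (.d k125
  k127 k255 0 8)))), (.s k20 k40 5 (.s k84 k168 13 (.s k148 k212 7 (.s k104 k192 13 (.d k124 k64
  k188 5 7))))), (.s k40 k20 5 (.s k105 k235 8 (.s k150 k195 14 (.s k126 k189 8 (.d k190 k130 k254 5
  7)))))] (.c k64 (.q k127 [(.s k124 k188 7 (.d k126 k125 k189 0 8)), (.s k126 k189 8 (.s k190 k254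
  7 (.d k255 k125 k191 8 7))), (.s k168 k84 13 (.s k191 k255 7 (.s k128 k149 6 (.d k188 k124 k148 7
  5))))] (.c k189 (.l (.s k124 k188 7 (.s k125 k126 0 (.d k255 k191 k190 7 8)))) .n)) (.c k127 (.q
  k64 [(.s k84 k168 13 (.d k124 k104 k188 5 7)), (.s k128 k192 7 (.s k188 k124 7 (.s k191 k149 6 (.d
  k189 k126 k190 8 0))))] (.c k124 (.l (.s k20 k40 5 (.s k192 k128 7 (.s k84 k168 13 (.d k148 k104
  k212 13 7))))) (.c k188 (.l (.s k84 k168 13 (.s k104 k124 5 (.d k192 k128 k148 7 13)))) .n)))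
  .n)))) (.c k150 (.l (.s k255 k85 14 (.s k62 k61 0 (.s k190 k125 8 (.s k126 k254 7 (.s k189 k252 8
  (.d k191 k127 k188 7 0))))))) (.c k255 (.q k8 [(.s k12 k4 1 (.s k40 k20 5 (.s k24 k56 3 (.s k44
  k28 3 (.d k36 k32 k48 1 5))))), (.s k12 k4 1 (.s k89 k251 12 (.s k28 k44 3 (.s k150 k211 10 (.s
  k195 k105 14 (.d k130 k190 k65 5 8)))))), (.s k40 k20 5 (.s k56 k24 3 (.s k89 k251 12 (.s k105
  k235 8 (.s k203 k154 12 (.d k73 k121 k138 3 8))))))] (.c k28 (.l (.s k12 k4 1 (.s k40 k20 5 (.s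
  k89 k251 12 (.s k243 k166 14 (.s k105 k235 8 (.d k121 k73 k182 3 10))))))) .n)) .n)))) (.c k43 (.l
  (.s k20 k40 5 (.s k61 k62 0 (.s k21 k42 6 (.s k41 k1 5 (.d k22 k23 k3 0 6)))))) (.c k61 (.q k8
  [(.s k12 k4 1 (.s k40 k20 5 (.s k24 k56 3 (.s k36 k48 5 (.d k44 k32 k28 1 3))))), (.s k12 k4 1 (.s
  k42 k21 6 (.s k25 k59 4 (.s k38 k51 6 (.d k46 k34 k29 1 4))))), (.s k40 k20 5 (.s k42 k21 6 (.s
  k56 k24 3 (.s k59 k25 4 (.s k57 k58 0 (.d k51 k55 k54 1 2))))))] .n) (.c k62 (.q k8 [(.s k12 k4 1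
  (.s k40 k20 5 (.s k24 k56 3 (.s k36 k48 5 (.d k44 k32 k28 1 3))))), (.s k12 k4 1 (.s k42 k21 6 (.s
  k25 k59 4 (.s k38 k51 6 (.d k46 k34 k29 1 4))))), (.s k40 k20 5 (.s k42 k21 6 (.s k56 k24 3 (.s
  k59 k25 4 (.s k57 k58 0 (.d k51 k54 k55 2 1))))))] (.c k150 (.q k194 [(.s k12 k4 1 (.s k40 k20 5
  (.s k24 k56 3 (.s k36 k48 5 (.d k44 k32 k28 1 3))))), (.s k12 k4 1 (.s k42 k21 6 (.s k25 k59 4 (.s
  k38 k51 6 (.d k46 k34 k29 1 4))))), (.s k40 k20 5 (.s k42 k21 6 (.s k56 k24 3 (.s k59 k25 4 (.s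
  k57 k58 0 (.d k51 k54 k55 2 1))))))] .n) (.c k194 (.q k150 [(.s k12 k4 1 (.s k40 k20 5 (.s k24 k56
  3 (.s k36 k48 5 (.d k44 k32 k28 1 3))))), (.s k20 k40 5 (.s k85 k215 8 (.s k170 k255 14 (.s k195
  k105 14 (.d k130 k190 k65 5 8))))), (.s k12 k4 1 (.s k42 k21 6 (.s k25 k59 4 (.s k38 k51 6 (.d k46
  k34 k29 1 4)))))] .n) .n))) .n))))))))))))))

def t130 : T TT 256 :=
  (.q k48 [(.s k32 k16 3 (.s k58 k53 2 (.s k42 k21 6 (.s k26 k10 3 (.d k37 k47 k15 2 6)))))] (.c k5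
  (.l (.s k32 k16 3 (.s k42 k21 6 (.s k37 k47 2 (.s k26 k15 6 (.d k58 k53 k10 2 3)))))) (.c k10 (.l
  (.s k16 k32 3 (.s k21 k42 6 (.s k26 k31 2 (.s k37 k15 6 (.d k53 k58 k5 2 3)))))) (.c k15 (.q k60
  [(.s k16 k32 3 (.s k20 k40 5 (.s k24 k28 1 (.s k52 k56 1 (.d k36 k4 k12 3 5))))), (.s k20 k40 5
  (.s k21 k42 6 (.s k22 k23 0 (.s k41 k3 6 (.d k61 k62 k1 0 5))))), (.s k52 k56 1 (.s k53 k58 2 (.s
  k54 k55 0 (.s k57 k51 2 (.d k61 k62 k49 0 1)))))] .n) (.c k16 (.q k60 [(.s k20 k40 5 (.s k21 k42 6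
  (.s k22 k23 0 (.s k41 k3 6 (.d k61 k62 k1 0 5))))), (.s k52 k56 1 (.s k53 k58 2 (.s k54 k55 0 (.s
  k57 k51 2 (.d k61 k62 k49 0 1))))), (.s k20 k40 5 (.s k21 k42 6 (.s k22 k23 0 (.s k52 k56 1 (.s
  k37 k7 4 (.d k53 k58 k5 2 3))))))] .n) (.c k21 (.q k60 [(.s k16 k32 3 (.s k20 k40 5 (.s k24 k28 1
  (.s k36 k12 5 (.d k52 k56 k4 1 3))))), (.s k52 k56 1 (.s k53 k58 2 (.s k54 k55 0 (.s k57 k51 2 (.d
  k61 k62 k49 0 1)))))] (.c k4 (.l (.s k32 k16 3 (.s k40 k20 5 (.s k36 k44 1 (.s k24 k12 5 (.d k56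
  k52 k8 1 3)))))) (.c k52 (.q k170 [(.s k16 k32 3 (.s k85 k255 14 (.s k154 k223 10 (.s k138 k186 3
  (.d k207 k69 k101 10 14))))), (.s k40 k20 5 (.s k255 k85 14 (.s k105 k235 8 (.s k61 k62 0 (.s k149
  k193 13 (.d k191 k127 k128 7 6)))))), (.s k32 k16 3 (.s k40 k20 5 (.s k101 k239 10 (.s k105 k235 8
  (.s k97 k109 1 (.d k195 k146 k150 12 14))))))] .n) (.c k56 (.q k170 [(.s k16 k32 3 (.s k85 k255 14
  (.s k154 k223 10 (.s k207 k101 14 (.d k138 k186 k69 3 10))))), (.s k40 k20 5 (.s k255 k85 14 (.s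
  k105 k235 8 (.s k61 k62 0 (.s k149 k193 13 (.d k191 k127 k128 7 6)))))), (.s k32 k16 3 (.s k40 k20
  5 (.s k101 k239 10 (.s k105 k235 8 (.s k97 k109 1 (.d k195 k146 k150 12 14))))))] .n) .n)))) (.c
  k26 (.q k60 [(.s k16 k32 3 (.s k20 k40 5 (.s k24 k28 1 (.s k36 k12 5 (.d k52 k56 k4 1 3))))), (.s
  k20 k40 5 (.s k21 k42 6 (.s k22 k23 0 (.s k41 k3 6 (.d k61 k62 k1 0 5))))), (.s k52 k56 1 (.s k53
  k58 2 (.s k54 k55 0 (.s k57 k51 2 (.d k61 k62 k49 0 1)))))] .n) (.c k31 (.l (.s k32 k16 3 (.s k58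
  k53 2 (.s k42 k21 6 (.s k26 k10 3 (.d k37 k47 k15 2 6)))))) (.c k32 (.q k60 [(.s k40 k20 5 (.s k42
  k21 6 (.s k41 k43 0 (.s k22 k3 6 (.d k62 k61 k2 0 5))))), (.s k52 k56 1 (.s k53 k58 2 (.s k54 k55
  0 (.s k57 k51 2 (.d k61 k62 k49 0 1))))), (.s k20 k40 5 (.s k21 k42 6 (.s k22 k23 0 (.s k52 k56 1
  (.s k37 k7 4 (.d k53 k58 k5 2 3))))))] .n) (.c k37 (.q k60 [(.s k32 k16 3 (.s k40 k20 5 (.s k36
  k44 1 (.s k24 k12 5 (.d k56 k52 k8 1 3))))), (.s k52 k56 1 (.s k53 k58 2 (.s k54 k55 0 (.s k57 k51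
  2 (.d k61 k62 k49 0 1))))), (.s k20 k40 5 (.s k21 k42 6 (.s k22 k23 0 (.s k41 k3 6 (.d k61 k62 k1
  0 5)))))] .n) (.c k42 (.q k170 [(.s k32 k16 3 (.s k85 k255 14 (.s k101 k239 10 (.s k207 k154 14
  (.d k69 k117 k138 3 10))))), (.s k255 k85 14 (.s k53 k58 2 (.s k117 k186 10 (.s k181 k245 7 (.s
  k122 k240 10 (.d k127 k112 k191 2 7)))))), (.s k16 k32 3 (.s k85 k255 14 (.s k154 k223 10 (.s k207
  k101 14 (.d k138 k186 k69 3 10)))))] (.c k85 (.q k127 [(.s k32 k16 3 (.s k101 k239 10 (.s k154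
  k207 14 (.s k255 k191 7 (.d k186 k138 k117 3 10))))), (.s k255 k191 7 (.s k117 k186 10 (.s k122
  k112 2 (.s k181 k240 10 (.d k53 k58 k245 2 7))))), (.s k32 k16 3 (.s k101 k239 10 (.s k53 k58 2
  (.s k149 k197 11 (.d k191 k128 k255 6 7)))))] (.c k191 (.l (.s k32 k16 3 (.s k101 k239 10 (.s k58
  k53 2 (.s k154 k207 14 (.s k186 k138 3 (.s k122 k250 7 (.d k117 k255 k112 10 2)))))))) (.c k255
  (.q k60 [(.s k16 k32 3 (.s k20 k40 5 (.s k24 k28 1 (.s k52 k56 1 (.d k36 k4 k12 3 5))))), (.s k52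
  k56 1 (.s k53 k58 2 (.s k54 k55 0 (.s k57 k51 2 (.d k61 k62 k49 0 1))))), (.s k32 k16 3 (.s k40
  k20 5 (.s k101 k239 10 (.s k105 k235 8 (.s k97 k109 1 (.d k195 k150 k146 14 12))))))] .n) .n)))
  (.c k154 (.l (.s k255 k85 14 (.s k58 k53 2 (.s k186 k117 10 (.s k122 k250 7 (.s k181 k240 10 (.d
  k191 k127 k176 7 2))))))) (.c k255 (.q k60 [(.s k32 k16 3 (.s k40 k20 5 (.s k36 k44 1 (.s k24 k12
  5 (.d k56 k52 k8 1 3))))), (.s k52 k56 1 (.s k53 k58 2 (.s k54 k55 0 (.s k57 k51 2 (.d k61 k62 k49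
  0 1))))), (.s k32 k16 3 (.s k40 k20 5 (.s k101 k239 10 (.s k105 k235 8 (.s k207 k154 14 (.d k109
  k97 k158 1 12))))))] .n) .n)))) (.c k47 (.l (.s k16 k32 3 (.s k53 k58 2 (.s k21 k42 6 (.s k37 k5 3
  (.d k26 k31 k15 2 6)))))) (.c k53 (.q k60 [(.s k16 k32 3 (.s k20 k40 5 (.s k24 k28 1 (.s k36 k12 5
  (.d k52 k56 k4 1 3))))), (.s k20 k40 5 (.s k21 k42 6 (.s k22 k23 0 (.s k41 k3 6 (.d k61 k62 k1 0
  5))))), (.s k16 k32 3 (.s k21 k42 6 (.s k26 k31 2 (.s k56 k52 1 (.s k41 k11 4 (.d k61 k62 k1 0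
  5))))))] .n) (.c k58 (.q k60 [(.s k16 k32 3 (.s k20 k40 5 (.s k24 k28 1 (.s k36 k12 5 (.d k52 k56
  k4 1 3))))), (.s k20 k40 5 (.s k21 k42 6 (.s k22 k23 0 (.s k41 k3 6 (.d k61 k62 k1 0 5))))), (.s
  k16 k32 3 (.s k21 k42 6 (.s k26 k31 2 (.s k56 k52 1 (.s k41 k11 4 (.d k61 k62 k1 0 5))))))] (.c
  k154 (.q k202 [(.s k16 k32 3 (.s k20 k40 5 (.s k24 k28 1 (.s k36 k12 5 (.d k52 k56 k4 1 3))))),
  (.s k20 k40 5 (.s k21 k42 6 (.s k22 k23 0 (.s k41 k3 6 (.d k61 k62 k1 0 5))))), (.s k16 k32 3 (.s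
  k21 k42 6 (.s k26 k31 2 (.s k56 k52 1 (.s k41 k11 4 (.d k61 k62 k1 0 5))))))] .n) (.c k202 (.q
  k154 [(.s k16 k32 3 (.s k20 k40 5 (.s k24 k28 1 (.s k36 k12 5 (.d k52 k56 k4 1 3))))), (.s k16 k32
  3 (.s k85 k223 10 (.s k170 k255 14 (.s k207 k101 14 (.d k138 k186 k69 3 10))))), (.s k20 k40 5 (.s
  k21 k42 6 (.s k22 k23 0 (.s k41 k3 6 (.d k61 k62 k1 0 5)))))] .n) .n))) .n))))))))))))))

def t131 : T TT 256 :=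
  (.q k48 [(.s k32 k16 3 (.s k58 k53 2 (.s k42 k21 6 (.s k26 k10 3 (.d k37 k47 k15 2 6)))))] (.c k5
  (.l (.s k32 k16 3 (.s k42 k21 6 (.s k37 k47 2 (.s k26 k15 6 (.d k58 k53 k10 2 3)))))) (.c k10 (.l
  (.s k16 k32 3 (.s k21 k42 6 (.s k26 k31 2 (.s k37 k15 6 (.d k53 k58 k5 2 3)))))) (.c k15 (.q k60
  [(.s k16 k32 3 (.s k20 k40 5 (.s k24 k28 1 (.s k52 k56 1 (.d k36 k4 k12 3 5))))), (.s k20 k40 5
  (.s k21 k42 6 (.s k22 k23 0 (.s k41 k3 6 (.d k61 k62 k1 0 5))))), (.s k52 k56 1 (.s k53 k58 2 (.s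
  k54 k55 0 (.s k57 k51 2 (.d k61 k62 k49 0 1)))))] .n) (.c k16 (.q k60 [(.s k52 k56 1 (.s k53 k58 2
  (.s k54 k55 0 (.s k57 k51 2 (.d k61 k62 k49 0 1))))), (.s k20 k40 5 (.s k21 k42 6 (.s k22 k23 0
  (.s k41 k3 6 (.d k61 k62 k1 0 5))))), (.s k20 k40 5 (.s k21 k42 6 (.s k22 k23 0 (.s k52 k56 1 (.s
  k37 k7 4 (.d k53 k58 k5 2 3))))))] .n) (.c k21 (.q k60 [(.s k16 k32 3 (.s k20 k40 5 (.s k24 k28 1
  (.s k36 k12 5 (.d k52 k56 k4 1 3))))), (.s k52 k56 1 (.s k53 k58 2 (.s k54 k55 0 (.s k57 k51 2 (.d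
  k61 k62 k49 0 1)))))] (.c k4 (.l (.s k32 k16 3 (.s k40 k20 5 (.s k36 k44 1 (.s k24 k12 5 (.d k56
  k52 k8 1 3)))))) (.c k52 (.q k170 [(.s k16 k32 3 (.s k85 k255 14 (.s k154 k223 10 (.s k138 k186 3
  (.d k207 k69 k101 10 14))))), (.s k20 k40 5 (.s k85 k255 14 (.s k150 k215 8 (.s k195 k105 14 (.d
  k130 k190 k65 5 8))))), (.s k32 k16 3 (.s k40 k20 5 (.s k101 k239 10 (.s k105 k235 8 (.s k97 k109
  1 (.d k195 k146 k150 12 14))))))] .n) (.c k56 (.q k170 [(.s k16 k32 3 (.s k85 k255 14 (.s k154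
  k223 10 (.s k207 k101 14 (.d k138 k186 k69 3 10))))), (.s k20 k40 5 (.s k85 k255 14 (.s k150 k215
  8 (.s k130 k190 5 (.d k195 k65 k105 8 14))))), (.s k32 k16 3 (.s k40 k20 5 (.s k101 k239 10 (.s
  k105 k235 8 (.s k97 k109 1 (.d k195 k146 k150 12 14))))))] .n) .n)))) (.c k26 (.q k60 [(.s k16 k32
  3 (.s k20 k40 5 (.s k24 k28 1 (.s k36 k12 5 (.d k52 k56 k4 1 3))))), (.s k20 k40 5 (.s k21 k42 6
  (.s k22 k23 0 (.s k41 k3 6 (.d k61 k62 k1 0 5))))), (.s k52 k56 1 (.s k53 k58 2 (.s k54 k55 0 (.s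
  k57 k51 2 (.d k61 k62 k49 0 1)))))] .n) (.c k31 (.l (.s k32 k16 3 (.s k58 k53 2 (.s k42 k21 6 (.s
  k26 k10 3 (.d k37 k47 k15 2 6)))))) (.c k32 (.q k60 [(.s k40 k20 5 (.s k62 k61 0 (.s k42 k21 6 (.s
  k22 k2 5 (.d k41 k43 k3 0 6))))), (.s k52 k56 1 (.s k53 k58 2 (.s k54 k55 0 (.s k57 k51 2 (.d k61
  k62 k49 0 1))))), (.s k20 k40 5 (.s k21 k42 6 (.s k22 k23 0 (.s k52 k56 1 (.s k37 k7 4 (.d k53 k58
  k5 2 3))))))] .n) (.c k37 (.q k60 [(.s k32 k16 3 (.s k40 k20 5 (.s k36 k44 1 (.s k24 k12 5 (.d k56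
  k52 k8 1 3))))), (.s k52 k56 1 (.s k53 k58 2 (.s k54 k55 0 (.s k57 k51 2 (.d k61 k62 k49 0 1))))),
  (.s k20 k40 5 (.s k21 k42 6 (.s k22 k23 0 (.s k41 k3 6 (.d k61 k62 k1 0 5)))))] .n) (.c k42 (.q
  k170 [(.s k32 k16 3 (.s k85 k255 14 (.s k101 k239 10 (.s k207 k154 14 (.d k69 k117 k138 3 10))))),
  (.s k255 k85 14 (.s k53 k58 2 (.s k117 k186 10 (.s k181 k245 7 (.s k122 k240 10 (.d k127 k112 k191
  2 7)))))), (.s k16 k32 3 (.s k85 k255 14 (.s k154 k223 10 (.s k207 k101 14 (.d k138 k186 k69 3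
  10)))))] (.c k85 (.q k127 [(.s k32 k16 3 (.s k101 k239 10 (.s k154 k207 14 (.s k255 k191 7 (.d
  k186 k138 k117 3 10))))), (.s k255 k191 7 (.s k117 k186 10 (.s k122 k112 2 (.s k181 k240 10 (.d
  k53 k58 k245 2 7))))), (.s k32 k16 3 (.s k101 k239 10 (.s k53 k58 2 (.s k149 k197 11 (.d k191 k128
  k255 6 7)))))] (.c k191 (.l (.s k32 k16 3 (.s k101 k239 10 (.s k58 k53 2 (.s k154 k207 14 (.s k186
  k138 3 (.s k122 k250 7 (.d k117 k255 k112 10 2)))))))) (.c k255 (.q k60 [(.s k16 k32 3 (.s k20 k40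
  5 (.s k24 k28 1 (.s k52 k56 1 (.d k36 k4 k12 3 5))))), (.s k52 k56 1 (.s k53 k58 2 (.s k54 k55 0
  (.s k57 k51 2 (.d k61 k62 k49 0 1))))), (.s k32 k16 3 (.s k40 k20 5 (.s k101 k239 10 (.s k105 k235
  8 (.s k97 k109 1 (.d k195 k150 k146 14 12))))))] .n) .n))) (.c k154 (.l (.s k255 k85 14 (.s k58
  k53 2 (.s k186 k117 10 (.s k122 k250 7 (.s k181 k240 10 (.d k191 k127 k176 7 2))))))) (.c k255 (.q
  k60 [(.s k32 k16 3 (.s k40 k20 5 (.s k36 k44 1 (.s k24 k12 5 (.d k56 k52 k8 1 3))))), (.s k52 k56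
  1 (.s k53 k58 2 (.s k54 k55 0 (.s k57 k51 2 (.d k61 k62 k49 0 1))))), (.s k32 k16 3 (.s k40 k20 5
  (.s k101 k239 10 (.s k105 k235 8 (.s k207 k154 14 (.d k109 k97 k158 1 12))))))] .n) .n)))) (.c k47
  (.l (.s k16 k32 3 (.s k53 k58 2 (.s k21 k42 6 (.s k37 k5 3 (.d k26 k31 k15 2 6)))))) (.c k53 (.q
  k60 [(.s k16 k32 3 (.s k20 k40 5 (.s k24 k28 1 (.s k36 k12 5 (.d k52 k56 k4 1 3))))), (.s k20 k40
  5 (.s k21 k42 6 (.s k22 k23 0 (.s k41 k3 6 (.d k61 k62 k1 0 5))))), (.s k16 k32 3 (.s k21 k42 6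
  (.s k26 k31 2 (.s k56 k52 1 (.s k41 k11 4 (.d k61 k62 k1 0 5))))))] .n) (.c k58 (.q k60 [(.s k16
  k32 3 (.s k20 k40 5 (.s k24 k28 1 (.s k36 k12 5 (.d k52 k56 k4 1 3))))), (.s k20 k40 5 (.s k21 k42
  6 (.s k22 k23 0 (.s k41 k3 6 (.d k61 k62 k1 0 5))))), (.s k16 k32 3 (.s k21 k42 6 (.s k26 k31 2
  (.s k56 k52 1 (.s k41 k11 4 (.d k61 k62 k1 0 5))))))] (.c k154 (.q k202 [(.s k16 k32 3 (.s k20 k40
  5 (.s k24 k28 1 (.s k36 k12 5 (.d k52 k56 k4 1 3))))), (.s k20 k40 5 (.s k21 k42 6 (.s k22 k23 0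
  (.s k41 k3 6 (.d k61 k62 k1 0 5))))), (.s k16 k32 3 (.s k21 k42 6 (.s k26 k31 2 (.s k56 k52 1 (.s
  k41 k11 4 (.d k61 k62 k1 0 5))))))] .n) (.c k202 (.q k154 [(.s k16 k32 3 (.s k20 k40 5 (.s k24 k28
  1 (.s k36 k12 5 (.d k52 k56 k4 1 3))))), (.s k16 k32 3 (.s k85 k223 10 (.s k170 k255 14 (.s k207
  k101 14 (.d k138 k186 k69 3 10))))), (.s k20 k40 5 (.s k21 k42 6 (.s k22 k23 0 (.s k41 k3 6 (.d
  k61 k62 k1 0 5)))))] .n) .n))) .n))))))))))))))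

def t133 : T TT 256 :=
  (.q k60 [(.s k40 k20 5 (.s k62 k61 0 (.s k42 k21 6 (.s k22 k2 5 (.d k41 k43 k3 0 6)))))] (.c k1
  (.l (.s k40 k20 5 (.s k42 k21 6 (.s k41 k43 0 (.s k22 k3 6 (.d k62 k61 k2 0 5)))))) (.c k2 (.l (.s
  k20 k40 5 (.s k21 k42 6 (.s k22 k23 0 (.s k41 k3 6 (.d k61 k62 k1 0 5)))))) (.c k3 (.q k8 [(.s k12
  k4 1 (.s k40 k20 5 (.s k24 k56 3 (.s k44 k28 3 (.d k36 k32 k48 1 5))))), (.s k12 k4 1 (.s k42 k21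
  6 (.s k25 k59 4 (.s k38 k51 6 (.d k46 k34 k29 1 4))))), (.s k40 k20 5 (.s k42 k21 6 (.s k56 k24 3
  (.s k59 k25 4 (.s k57 k58 0 (.d k51 k55 k54 1 2))))))] .n) (.c k20 (.q k8 [(.s k12 k4 1 (.s k46
  k29 4 (.s k42 k21 6 (.s k38 k34 1 (.d k25 k59 k51 4 6))))), (.s k12 k4 1 (.s k28 k44 3 (.s k29 k46
  4 (.s k30 k31 0 (.s k45 k15 4 (.d k61 k62 k13 0 3)))))), (.s k42 k21 6 (.s k25 k59 4 (.s k62 k61 0
  (.s k22 k2 5 (.s k28 k19 2 (.d k12 k4 k44 1 3))))))] (.c k4 (.f k62 k61 0 (.l (.s k42 k21 6 (.s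
  k22 k2 5 (.s k25 k59 4 (.s k28 k19 2 (.s k12 k44 3 (.s k38 k51 6 (.d k46 k34 k29 1 4))))))))) (.c
  k12 (.l (.s k42 k21 6 (.s k59 k25 4 (.s k51 k55 1 (.s k57 k54 2 (.s k58 k56 0 (.s k53 k48 2 (.d
  k61 k62 k49 0 1)))))))) .n))) (.c k21 (.q k126 [(.s k61 k62 0 (.s k189 k252 8 (.s k125 k253 7 (.s
  k255 k190 8 (.d k127 k124 k191 0 7))))), (.s k20 k40 5 (.s k252 k189 8 (.s k84 k168 13 (.s k148
  k212 7 (.s k104 k192 13 (.d k124 k64 k188 5 7)))))), (.s k40 k20 5 (.s k62 k61 0 (.s k190 k254 7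
  (.s k255 k125 8 (.s k170 k85 14 (.s k105 k235 8 (.d k150 k130 k195 5 14)))))))] (.c k189 (.q k150
  [(.s k62 k61 0 (.s k190 k254 7 (.s k170 k130 5 (.d k255 k125 k85 8 14)))), (.s k20 k40 5 (.s k85
  k215 8 (.s k255 k170 14 (.s k105 k195 14 (.s k125 k65 5 (.d k127 k124 k191 0 7)))))), (.s k62 k61
  0 (.s k195 k105 14 (.s k190 k254 7 (.d k130 k170 k65 5 8))))] (.c k125 (.l (.s k20 k40 5 (.s k85
  k215 8 (.s k170 k255 14 (.s k195 k105 14 (.d k130 k190 k65 5 8)))))) (.c k170 (.l (.s k20 k40 5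
  (.s k85 k215 8 (.s k62 k61 0 (.s k105 k195 14 (.s k190 k254 7 (.d k125 k255 k65 8 5))))))) .n)))
  .n)) (.c k22 (.q k55 [(.s k51 k59 1 (.s k54 k57 2 (.s k53 k52 0 (.s k58 k48 2 (.d k62 k61 k50 0
  1))))), (.s k21 k42 6 (.s k38 k4 4 (.s k51 k59 1 (.s k17 k34 4 (.d k25 k29 k12 1 6))))), (.s k20
  k40 5 (.s k21 k42 6 (.s k4 k38 4 (.s k52 k36 3 (.s k48 k56 1 (.d k53 k54 k58 0 2))))))] (.c k62
  (.l (.s k20 k40 5 (.s k51 k59 1 (.s k54 k57 2 (.s k52 k53 0 (.s k4 k36 3 (.d k21 k38 k42 4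
  6))))))) .n)) (.c k23 (.l (.s k40 k20 5 (.s k62 k61 0 (.s k42 k21 6 (.s k22 k2 5 (.d k41 k43 k3 0
  6)))))) (.c k40 (.q k8 [(.s k12 k4 1 (.s k46 k29 4 (.s k42 k21 6 (.s k38 k34 1 (.d k25 k59 k51 4
  6))))), (.s k12 k4 1 (.s k28 k44 3 (.s k29 k46 4 (.s k30 k31 0 (.s k45 k15 4 (.d k61 k62 k13 0
  3)))))), (.s k42 k21 6 (.s k59 k25 4 (.s k51 k55 1 (.s k57 k54 2 (.s k58 k56 0 (.s k53 k48 2 (.d
  k61 k62 k49 0 1)))))))] (.c k4 (.q k252 [(.s k62 k61 0 (.s k124 k188 7 (.s k126 k189 8 (.s k190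
  k254 7 (.d k125 k127 k255 0 8))))), (.s k42 k21 6 (.s k168 k84 13 (.s k59 k25 4 (.s k248 k88 11
  (.s k122 k185 8 (.d k240 k244 k181 1 10))))))] .n) (.c k29 (.l (.s k12 k4 1 (.s k42 k21 6 (.s k25
  k59 4 (.s k28 k44 3 (.s k22 k19 2 (.d k62 k61 k2 0 5))))))) .n))) (.c k41 (.q k8 [(.s k12 k4 1 (.s
  k40 k20 5 (.s k44 k28 3 (.s k36 k32 1 (.d k24 k56 k48 3 5))))), (.s k12 k4 1 (.s k42 k21 6 (.s k25
  k59 4 (.s k38 k51 6 (.d k46 k34 k29 1 4))))), (.s k40 k20 5 (.s k42 k21 6 (.s k56 k24 3 (.s k59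
  k25 4 (.s k57 k58 0 (.d k51 k55 k54 1 2))))))] .n) (.c k42 (.q k170 [(.s k40 k20 5 (.s k85 k255 14
  (.s k105 k235 8 (.s k195 k150 14 (.d k65 k125 k130 5 8))))), (.s k255 k85 14 (.s k61 k62 0 (.s
  k125 k190 8 (.s k189 k253 7 (.s k126 k252 8 (.d k127 k124 k191 0 7)))))), (.s k20 k40 5 (.s k85
  k255 14 (.s k150 k215 8 (.s k195 k105 14 (.d k130 k190 k65 5 8)))))] (.c k85 (.f k62 k61 0 (.q
  k150 [(.s k40 k20 5 (.d k105 k235 k195 8 14)), (.s k190 k130 5 (.s k125 k255 8 (.s k126 k254 7 (.s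
  k252 k189 8 (.d k124 k127 k188 0 7)))))] (.c k64 (.q k127 [(.s k40 k20 5 (.d k105 k235 k195 8
  14)), (.s k255 k191 7 (.d k190 k130 k125 5 8))] .n) (.c k127 (.q k64 [(.s k40 k20 5 (.d k105 k235
  k195 8 14)), (.s k195 k105 14 (.d k130 k65 k190 8 5)), (.s k40 k20 5 (.s k192 k128 7 (.s k104 k148
  13 (.s k168 k232 7 (.d k84 k124 k252 5 13)))))] .n) .n)))) (.c k150 (.l (.s k255 k85 14 (.s k62
  k61 0 (.s k190 k125 8 (.s k126 k254 7 (.s k189 k252 8 (.d k191 k127 k188 7 0))))))) (.c k255 (.q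
  k150 [(.s k40 k20 5 (.d k105 k235 k195 8 14)), (.s k62 k61 0 (.s k190 k130 5 (.s k126 k254 7 (.s
  k252 k189 8 (.s k168 k84 13 (.s k188 k124 7 (.d k169 k171 k131 0 6)))))))] .n) .n)))) (.c k43 (.l
  (.s k20 k40 5 (.s k61 k62 0 (.s k21 k42 6 (.s k41 k1 5 (.d k22 k23 k3 0 6)))))) (.c k61 (.q k8
  [(.s k12 k4 1 (.s k40 k20 5 (.s k24 k56 3 (.s k36 k48 5 (.d k44 k32 k28 1 3))))), (.s k12 k4 1 (.s
  k42 k21 6 (.s k25 k59 4 (.s k38 k51 6 (.d k46 k34 k29 1 4))))), (.s k40 k20 5 (.s k42 k21 6 (.s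
  k56 k24 3 (.s k59 k25 4 (.s k57 k58 0 (.d k51 k55 k54 1 2))))))] .n) (.c k62 (.q k8 [(.s k12 k4 1
  (.s k40 k20 5 (.s k24 k56 3 (.s k36 k48 5 (.d k44 k32 k28 1 3))))), (.s k12 k4 1 (.s k42 k21 6 (.s
  k25 k59 4 (.s k38 k51 6 (.d k46 k34 k29 1 4))))), (.s k40 k20 5 (.s k42 k21 6 (.s k56 k24 3 (.s
  k59 k25 4 (.s k57 k58 0 (.d k51 k54 k55 2 1))))))] (.c k150 (.q k194 [(.s k12 k4 1 (.s k40 k20 5
  (.s k24 k56 3 (.s k36 k48 5 (.d k44 k32 k28 1 3))))), (.s k12 k4 1 (.s k42 k21 6 (.s k25 k59 4 (.s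
  k38 k51 6 (.d k46 k34 k29 1 4))))), (.s k40 k20 5 (.s k42 k21 6 (.s k56 k24 3 (.s k59 k25 4 (.s
  k57 k58 0 (.d k51 k54 k55 2 1))))))] .n) (.c k194 (.q k150 [(.s k12 k4 1 (.s k40 k20 5 (.s k24 k56
  3 (.s k36 k48 5 (.d k44 k32 k28 1 3))))), (.s k20 k40 5 (.s k85 k215 8 (.s k170 k255 14 (.s k195
  k105 14 (.d k130 k190 k65 5 8))))), (.s k12 k4 1 (.s k42 k21 6 (.s k25 k59 4 (.s k38 k51 6 (.d k46
  k34 k29 1 4)))))] .n) .n))) .n))))))))))))))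

def t134 : T TT 256 :=
  (.q k48 [(.s k32 k16 3 (.s k58 k53 2 (.s k42 k21 6 (.s k26 k10 3 (.d k37 k47 k15 2 6)))))] (.c k5
  (.l (.s k32 k16 3 (.s k42 k21 6 (.s k37 k47 2 (.s k26 k15 6 (.d k58 k53 k10 2 3)))))) (.c k10 (.l
  (.s k16 k32 3 (.s k21 k42 6 (.s k26 k31 2 (.s k37 k15 6 (.d k53 k58 k5 2 3)))))) (.c k15 (.q k60
  [(.s k16 k32 3 (.s k20 k40 5 (.s k24 k28 1 (.s k52 k56 1 (.d k36 k4 k12 3 5))))), (.s k20 k40 5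
  (.s k21 k42 6 (.s k22 k23 0 (.s k41 k3 6 (.d k61 k62 k1 0 5))))), (.s k52 k56 1 (.s k53 k58 2 (.s
  k54 k55 0 (.s k57 k51 2 (.d k61 k62 k49 0 1)))))] .n) (.c k16 (.q k60 [(.s k20 k40 5 (.s k21 k42 6
  (.s k22 k23 0 (.s k41 k3 6 (.d k61 k62 k1 0 5))))), (.s k52 k56 1 (.s k53 k58 2 (.s k54 k55 0 (.s
  k57 k51 2 (.d k61 k62 k49 0 1))))), (.s k20 k40 5 (.s k21 k42 6 (.s k22 k23 0 (.s k52 k56 1 (.s
  k37 k7 4 (.d k53 k58 k5 2 3))))))] .n) (.c k21 (.q k60 [(.s k16 k32 3 (.s k20 k40 5 (.s k24 k28 1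
  (.s k52 k56 1 (.d k36 k4 k12 3 5))))), (.s k52 k56 1 (.s k53 k58 2 (.s k54 k55 0 (.s k57 k51 2 (.d
  k61 k62 k49 0 1)))))] (.c k4 (.l (.s k32 k16 3 (.s k40 k20 5 (.s k36 k44 1 (.s k24 k12 5 (.d k56
  k52 k8 1 3)))))) (.c k52 (.q k170 [(.s k16 k32 3 (.s k85 k255 14 (.s k154 k223 10 (.s k138 k186 3
  (.d k207 k69 k101 10 14))))), (.s k20 k40 5 (.s k85 k255 14 (.s k150 k215 8 (.s k195 k105 14 (.d
  k130 k190 k65 5 8))))), (.s k32 k16 3 (.s k40 k20 5 (.s k101 k239 10 (.s k105 k235 8 (.s k97 k109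
  1 (.d k195 k146 k150 12 14))))))] .n) (.c k56 (.q k170 [(.s k16 k32 3 (.s k85 k255 14 (.s k154
  k223 10 (.s k207 k101 14 (.d k138 k186 k69 3 10))))), (.s k20 k40 5 (.s k85 k255 14 (.s k150 k215
  8 (.s k130 k190 5 (.d k195 k65 k105 8 14))))), (.s k32 k16 3 (.s k40 k20 5 (.s k101 k239 10 (.s
  k105 k235 8 (.s k97 k109 1 (.d k195 k146 k150 12 14))))))] .n) .n)))) (.c k26 (.q k60 [(.s k16 k32
  3 (.s k20 k40 5 (.s k24 k28 1 (.s k36 k12 5 (.d k52 k56 k4 1 3))))), (.s k20 k40 5 (.s k21 k42 6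
  (.s k22 k23 0 (.s k41 k3 6 (.d k61 k62 k1 0 5))))), (.s k52 k56 1 (.s k53 k58 2 (.s k54 k55 0 (.s
  k57 k51 2 (.d k61 k62 k49 0 1)))))] .n) (.c k31 (.l (.s k32 k16 3 (.s k58 k53 2 (.s k42 k21 6 (.s
  k26 k10 3 (.d k37 k47 k15 2 6)))))) (.c k32 (.q k60 [(.s k40 k20 5 (.s k62 k61 0 (.s k42 k21 6 (.s
  k22 k2 5 (.d k41 k43 k3 0 6))))), (.s k52 k56 1 (.s k53 k58 2 (.s k54 k55 0 (.s k57 k51 2 (.d k61
  k62 k49 0 1))))), (.s k20 k40 5 (.s k21 k42 6 (.s k22 k23 0 (.s k52 k56 1 (.s k37 k7 4 (.d k53 k58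
  k5 2 3))))))] .n) (.c k37 (.q k60 [(.s k32 k16 3 (.s k40 k20 5 (.s k36 k44 1 (.s k24 k12 5 (.d k56
  k52 k8 1 3))))), (.s k52 k56 1 (.s k53 k58 2 (.s k54 k55 0 (.s k57 k51 2 (.d k61 k62 k49 0 1))))),
  (.s k20 k40 5 (.s k21 k42 6 (.s k22 k23 0 (.s k41 k3 6 (.d k61 k62 k1 0 5)))))] .n) (.c k42 (.q
  k170 [(.s k32 k16 3 (.s k85 k255 14 (.s k101 k239 10 (.s k207 k154 14 (.d k69 k117 k138 3 10))))),
  (.s k255 k85 14 (.s k53 k58 2 (.s k117 k186 10 (.s k181 k245 7 (.s k122 k240 10 (.d k127 k112 k191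
  2 7)))))), (.s k16 k32 3 (.s k85 k255 14 (.s k154 k223 10 (.s k207 k101 14 (.d k138 k186 k69 3
  10)))))] (.c k85 (.q k127 [(.s k32 k16 3 (.s k101 k239 10 (.s k154 k207 14 (.s k255 k191 7 (.d
  k186 k138 k117 3 10))))), (.s k255 k191 7 (.s k117 k186 10 (.s k122 k112 2 (.s k181 k240 10 (.d
  k53 k58 k245 2 7))))), (.s k32 k16 3 (.s k101 k239 10 (.s k53 k58 2 (.s k149 k197 11 (.d k191 k128
  k255 6 7)))))] (.c k191 (.l (.s k32 k16 3 (.s k101 k239 10 (.s k58 k53 2 (.s k154 k207 14 (.s k186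
  k138 3 (.s k122 k250 7 (.d k117 k255 k112 10 2)))))))) (.c k255 (.q k60 [(.s k16 k32 3 (.s k20 k40
  5 (.s k24 k28 1 (.s k52 k56 1 (.d k36 k4 k12 3 5))))), (.s k52 k56 1 (.s k53 k58 2 (.s k54 k55 0
  (.s k57 k51 2 (.d k61 k62 k49 0 1))))), (.s k32 k16 3 (.s k40 k20 5 (.s k101 k239 10 (.s k105 k235
  8 (.s k97 k109 1 (.d k195 k150 k146 14 12))))))] .n) .n))) (.c k154 (.l (.s k255 k85 14 (.s k58
  k53 2 (.s k186 k117 10 (.s k122 k250 7 (.s k181 k240 10 (.d k191 k127 k176 7 2))))))) (.c k255 (.q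
  k60 [(.s k32 k16 3 (.s k56 k52 1 (.s k40 k20 5 (.s k24 k8 3 (.d k36 k44 k12 1 5))))), (.s k52 k56
  1 (.s k53 k58 2 (.s k54 k55 0 (.s k57 k51 2 (.d k61 k62 k49 0 1))))), (.s k32 k16 3 (.s k40 k20 5
  (.s k101 k239 10 (.s k105 k235 8 (.s k207 k154 14 (.d k109 k97 k158 1 12))))))] .n) .n)))) (.c k47
  (.l (.s k16 k32 3 (.s k53 k58 2 (.s k21 k42 6 (.s k37 k5 3 (.d k26 k31 k15 2 6)))))) (.c k53 (.q
  k60 [(.s k16 k32 3 (.s k20 k40 5 (.s k24 k28 1 (.s k52 k56 1 (.d k36 k4 k12 3 5))))), (.s k20 k40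
  5 (.s k21 k42 6 (.s k22 k23 0 (.s k41 k3 6 (.d k61 k62 k1 0 5))))), (.s k16 k32 3 (.s k21 k42 6
  (.s k26 k31 2 (.s k56 k52 1 (.s k41 k11 4 (.d k61 k62 k1 0 5))))))] .n) (.c k58 (.q k60 [(.s k32
  k16 3 (.s k56 k52 1 (.s k40 k20 5 (.s k24 k8 3 (.d k36 k44 k12 1 5))))), (.s k20 k40 5 (.s k21 k42
  6 (.s k22 k23 0 (.s k41 k3 6 (.d k61 k62 k1 0 5))))), (.s k16 k32 3 (.s k21 k42 6 (.s k26 k31 2
  (.s k56 k52 1 (.s k41 k11 4 (.d k61 k62 k1 0 5))))))] (.c k154 (.q k202 [(.s k16 k32 3 (.s k20 k40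
  5 (.s k24 k28 1 (.s k36 k12 5 (.d k52 k56 k4 1 3))))), (.s k20 k40 5 (.s k21 k42 6 (.s k22 k23 0
  (.s k41 k3 6 (.d k61 k62 k1 0 5))))), (.s k16 k32 3 (.s k21 k42 6 (.s k26 k31 2 (.s k56 k52 1 (.s
  k41 k11 4 (.d k61 k62 k1 0 5))))))] .n) (.c k202 (.q k154 [(.s k16 k32 3 (.s k20 k40 5 (.s k24 k28
  1 (.s k36 k12 5 (.d k52 k56 k4 1 3))))), (.s k16 k32 3 (.s k85 k223 10 (.s k170 k255 14 (.s k207
  k101 14 (.d k138 k186 k69 3 10))))), (.s k20 k40 5 (.s k21 k42 6 (.s k22 k23 0 (.s k41 k3 6 (.d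
  k61 k62 k1 0 5)))))] .n) .n))) .n))))))))))))))

def t135 : T TT 256 :=
  (.q k60 [(.s k40 k20 5 (.s k62 k61 0 (.s k42 k21 6 (.s k22 k2 5 (.d k41 k43 k3 0 6)))))] (.c k1
  (.l (.s k40 k20 5 (.s k42 k21 6 (.s k41 k43 0 (.s k22 k3 6 (.d k62 k61 k2 0 5)))))) (.c k2 (.l (.s
  k20 k40 5 (.s k21 k42 6 (.s k22 k23 0 (.s k41 k3 6 (.d k61 k62 k1 0 5)))))) (.c k3 (.q k8 [(.s k12
  k4 1 (.s k40 k20 5 (.s k24 k56 3 (.s k44 k28 3 (.d k36 k32 k48 1 5))))), (.s k12 k4 1 (.s k42 k21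
  6 (.s k25 k59 4 (.s k38 k51 6 (.d k46 k34 k29 1 4))))), (.s k40 k20 5 (.s k42 k21 6 (.s k56 k24 3
  (.s k59 k25 4 (.s k57 k58 0 (.d k51 k55 k54 1 2))))))] .n) (.c k20 (.q k8 [(.s k12 k4 1 (.s k46
  k29 4 (.s k42 k21 6 (.s k38 k34 1 (.d k25 k59 k51 4 6))))), (.s k12 k4 1 (.s k28 k44 3 (.s k29 k46
  4 (.s k30 k31 0 (.s k45 k15 4 (.d k61 k62 k13 0 3)))))), (.s k42 k21 6 (.s k25 k59 4 (.s k62 k61 0
  (.s k22 k2 5 (.s k28 k19 2 (.d k12 k4 k44 1 3))))))] (.c k4 (.f k62 k61 0 (.l (.s k42 k21 6 (.s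
  k22 k2 5 (.s k25 k59 4 (.s k28 k19 2 (.s k12 k44 3 (.s k38 k51 6 (.d k46 k34 k29 1 4))))))))) (.c
  k12 (.l (.s k42 k21 6 (.s k59 k25 4 (.s k51 k55 1 (.s k57 k54 2 (.s k58 k56 0 (.s k53 k48 2 (.d
  k61 k62 k49 0 1)))))))) .n))) (.c k21 (.q k126 [(.s k61 k62 0 (.s k189 k252 8 (.s k125 k253 7 (.s
  k255 k190 8 (.d k127 k124 k191 0 7))))), (.s k20 k40 5 (.s k252 k189 8 (.s k84 k168 13 (.s k148
  k212 7 (.s k104 k192 13 (.d k124 k64 k188 5 7)))))), (.s k40 k20 5 (.s k62 k61 0 (.s k190 k254 7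
  (.s k255 k125 8 (.s k170 k85 14 (.s k105 k235 8 (.d k150 k130 k195 5 14)))))))] (.c k189 (.q k150
  [(.s k62 k61 0 (.s k190 k254 7 (.s k170 k130 5 (.d k255 k125 k85 8 14)))), (.s k20 k40 5 (.s k85
  k215 8 (.s k255 k170 14 (.s k105 k195 14 (.s k125 k65 5 (.d k127 k124 k191 0 7)))))), (.s k62 k61
  0 (.s k195 k105 14 (.s k190 k254 7 (.d k130 k170 k65 5 8))))] (.c k125 (.l (.s k20 k40 5 (.s k85
  k215 8 (.s k170 k255 14 (.s k195 k105 14 (.d k130 k190 k65 5 8)))))) (.c k170 (.l (.s k20 k40 5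
  (.s k85 k215 8 (.s k62 k61 0 (.s k105 k195 14 (.s k190 k254 7 (.d k125 k255 k65 8 5))))))) .n)))
  .n)) (.c k22 (.q k105 [(.s k20 k40 5 (.s k150 k195 14 (.s k85 k215 8 (.s k125 k65 5 (.d k255 k190
  k170 8 14))))), (.s k21 k42 6 (.s k195 k150 14 (.s k65 k130 8 (.s k85 k125 5 (.s k149 k213 7 (.d
  k61 k62 k193 0 13)))))), (.s k40 k20 5 (.s k21 k42 6 (.s k170 k235 8 (.s k85 k255 14 (.s k149 k213
  7 (.d k61 k62 k193 0 13))))))] (.c k85 (.l (.s k40 k20 5 (.s k235 k170 8 (.s k195 k150 14 (.s k215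
  k255 5 (.s k107 k151 13 (.s k43 k171 7 (.d k42 k21 k41 6 0)))))))) (.c k170 (.l (.s k20 k40 5 (.s
  k61 k62 0 (.s k150 k195 14 (.s k85 k215 8 (.s k149 k193 13 (.d k21 k42 k213 6 7))))))) (.c k195
  (.l (.s k40 k20 5 (.s k170 k235 8 (.s k255 k85 14 (.s k61 k62 0 (.s k149 k193 13 (.d k191 k127
  k128 7 6))))))) .n)))) (.c k23 (.l (.s k40 k20 5 (.s k62 k61 0 (.s k42 k21 6 (.s k22 k2 5 (.d k41
  k43 k3 0 6)))))) (.c k40 (.q k8 [(.s k12 k4 1 (.s k46 k29 4 (.s k42 k21 6 (.s k38 k34 1 (.d k25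
  k59 k51 4 6))))), (.s k12 k4 1 (.s k28 k44 3 (.s k29 k46 4 (.s k30 k31 0 (.s k45 k15 4 (.d k61 k62
  k13 0 3)))))), (.s k42 k21 6 (.s k59 k25 4 (.s k51 k55 1 (.s k57 k54 2 (.s k58 k56 0 (.s k53 k48 2
  (.d k61 k62 k49 0 1)))))))] (.c k4 (.f k62 k61 0 (.l (.s k42 k21 6 (.s k22 k2 5 (.s k25 k59 4 (.s
  k28 k19 2 (.s k12 k44 3 (.s k38 k51 6 (.d k46 k34 k29 1 4))))))))) (.c k29 (.l (.s k12 k4 1 (.s
  k42 k21 6 (.s k25 k59 4 (.s k28 k44 3 (.s k22 k19 2 (.d k62 k61 k2 0 5))))))) .n))) (.c k41 (.q k8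
  [(.s k12 k4 1 (.s k40 k20 5 (.s k44 k28 3 (.s k36 k32 1 (.d k24 k56 k48 3 5))))), (.s k12 k4 1 (.s
  k42 k21 6 (.s k25 k59 4 (.s k38 k51 6 (.d k46 k34 k29 1 4))))), (.s k40 k20 5 (.s k42 k21 6 (.s
  k56 k24 3 (.s k59 k25 4 (.s k57 k58 0 (.d k51 k55 k54 1 2))))))] .n) (.c k42 (.q k170 [(.s k20 k40
  5 (.s k85 k255 14 (.s k150 k215 8 (.s k130 k190 5 (.d k195 k65 k105 8 14))))), (.s k255 k85 14 (.s
  k61 k62 0 (.s k125 k190 8 (.s k189 k253 7 (.s k126 k252 8 (.d k127 k124 k191 0 7))))))] (.c k85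
  (.f k62 k61 0 (.q k150 [(.s k40 k20 5 (.d k105 k235 k195 8 14)), (.s k190 k130 5 (.s k125 k255 8
  (.s k126 k254 7 (.s k252 k189 8 (.d k124 k127 k188 0 7)))))] (.c k64 (.q k127 [(.s k40 k20 5 (.d
  k105 k235 k195 8 14)), (.s k255 k191 7 (.d k190 k130 k125 5 8))] .n) (.c k127 (.q k64 [(.s k40 k20
  5 (.d k105 k235 k195 8 14)), (.s k195 k105 14 (.d k130 k65 k190 8 5)), (.s k40 k20 5 (.s k192 k128
  7 (.s k104 k148 13 (.s k168 k232 7 (.d k84 k124 k252 5 13)))))] .n) .n)))) (.c k150 (.l (.s k255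
  k85 14 (.s k62 k61 0 (.s k190 k125 8 (.s k126 k254 7 (.s k189 k252 8 (.d k191 k127 k188 7 0)))))))
  (.c k190 (.l (.s k40 k20 5 (.s k85 k255 14 (.s k105 k235 8 (.s k195 k150 14 (.d k65 k125 k130 5
  8)))))) (.c k255 (.q k150 [(.s k40 k20 5 (.d k105 k235 k195 8 14)), (.s k62 k61 0 (.s k190 k130 5
  (.s k126 k254 7 (.s k252 k189 8 (.s k168 k84 13 (.s k188 k124 7 (.d k169 k171 k131 0 6)))))))] .n)
  .n))))) (.c k43 (.l (.s k20 k40 5 (.s k61 k62 0 (.s k21 k42 6 (.s k41 k1 5 (.d k22 k23 k3 0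
  6)))))) (.c k61 (.q k8 [(.s k12 k4 1 (.s k40 k20 5 (.s k24 k56 3 (.s k36 k48 5 (.d k44 k32 k28 1
  3))))), (.s k12 k4 1 (.s k42 k21 6 (.s k25 k59 4 (.s k38 k51 6 (.d k46 k34 k29 1 4))))), (.s k40
  k20 5 (.s k42 k21 6 (.s k56 k24 3 (.s k59 k25 4 (.s k57 k58 0 (.d k51 k55 k54 1 2))))))] .n) (.c
  k62 (.q k150 [(.s k20 k40 5 (.s k85 k215 8 (.s k170 k255 14 (.s k195 k105 14 (.d k130 k190 k65 5
  8))))), (.s k20 k40 5 (.s k21 k42 6 (.s k85 k215 8 (.s k149 k213 7 (.s k148 k151 0 (.s k212 k84 7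
  (.d k23 k22 k86 0 8))))))), (.s k21 k42 6 (.s k195 k105 14 (.s k130 k65 8 (.s k170 k190 5 (.s k85
  k255 14 (.s k149 k213 7 (.d k151 k107 k148 13 0)))))))] (.c k85 (.f k105 k195 14 (.l (.s k20 k40 5
  (.s k21 k42 6 (.s k22 k23 0 (.s k86 k214 7 (.s k124 k67 6 (.s k252 k188 7 (.d k3 k41 k169 6
  14))))))))) (.c k170 (.f k105 k195 14 (.l (.s k40 k20 5 (.s k42 k21 6 (.s k41 k43 0 (.s k169 k233
  7 (.s k188 k131 6 (.s k252 k124 7 (.d k3 k22 k86 6 14))))))))) .n))) .n))))))))))))))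

def t138 : T TT 256 :=
  (.q k60 [(.s k20 k40 5 (.s k21 k42 6 (.s k22 k23 0 (.s k41 k3 6 (.d k61 k62 k1 0 5))))), (.s k40
  k20 5 (.s k42 k21 6 (.s k41 k43 0 (.s k22 k3 6 (.d k62 k61 k2 0 5)))))] (.c k3 (.q k48 [(.s k16
  k32 3 (.s k20 k40 5 (.s k24 k28 1 (.s k52 k56 1 (.d k36 k4 k12 3 5))))), (.s k16 k32 3 (.s k21 k42
  6 (.s k26 k31 2 (.s k37 k15 6 (.d k53 k58 k5 2 3))))), (.s k52 k56 1 (.s k53 k58 2 (.s k54 k55 0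
  (.s k57 k51 2 (.d k61 k62 k49 0 1)))))] .n) (.c k20 (.q k48 [(.s k16 k32 3 (.s k21 k42 6 (.s k26
  k31 2 (.s k37 k15 6 (.d k53 k58 k5 2 3))))), (.s k52 k56 1 (.s k53 k58 2 (.s k54 k55 0 (.s k57 k51
  2 (.d k61 k62 k49 0 1))))), (.s k16 k32 3 (.s k21 k42 6 (.s k26 k31 2 (.s k56 k52 1 (.s k41 k11 4
  (.d k61 k62 k1 0 5))))))] .n) (.c k21 (.q k48 [(.s k16 k32 3 (.s k20 k40 5 (.s k24 k28 1 (.s k36
  k12 5 (.d k52 k56 k4 1 3))))), (.s k52 k56 1 (.s k53 k58 2 (.s k54 k55 0 (.s k57 k51 2 (.d k61 k62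
  k49 0 1)))))] (.c k4 (.l (.s k32 k16 3 (.s k40 k20 5 (.s k36 k44 1 (.s k24 k12 5 (.d k56 k52 k8 1
  3)))))) (.c k52 (.q k170 [(.s k20 k40 5 (.s k85 k255 14 (.s k150 k215 8 (.s k130 k190 5 (.d k195
  k65 k105 8 14))))), (.s k32 k16 3 (.s k255 k85 14 (.s k101 k239 10 (.s k53 k58 2 (.s k149 k197 11
  (.d k191 k127 k128 7 6)))))), (.s k32 k16 3 (.s k40 k20 5 (.s k101 k239 10 (.s k105 k235 8 (.s k97
  k109 1 (.d k195 k146 k150 12 14))))))] .n) (.c k56 (.q k170 [(.s k20 k40 5 (.s k85 k255 14 (.s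
  k150 k215 8 (.s k130 k190 5 (.d k195 k65 k105 8 14))))), (.s k32 k16 3 (.s k255 k85 14 (.s k101
  k239 10 (.s k53 k58 2 (.s k149 k197 11 (.d k191 k127 k128 7 6)))))), (.s k32 k16 3 (.s k40 k20 5
  (.s k101 k239 10 (.s k105 k235 8 (.s k97 k109 1 (.d k195 k146 k150 12 14))))))] .n) .n)))) (.c k22
  (.q k48 [(.s k16 k32 3 (.s k20 k40 5 (.s k52 k56 1 (.s k36 k4 3 (.d k24 k28 k12 1 5))))), (.s k16
  k32 3 (.s k21 k42 6 (.s k26 k31 2 (.s k37 k15 6 (.d k53 k58 k5 2 3))))), (.s k52 k56 1 (.s k53 k58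
  2 (.s k54 k55 0 (.s k57 k51 2 (.d k61 k62 k49 0 1)))))] .n) (.c k23 (.l (.s k40 k20 5 (.s k62 k61
  0 (.s k42 k21 6 (.s k22 k2 5 (.d k41 k43 k3 0 6)))))) (.c k40 (.q k48 [(.s k32 k16 3 (.s k42 k21 6
  (.s k37 k47 2 (.s k26 k15 6 (.d k58 k53 k10 2 3))))), (.s k52 k56 1 (.s k53 k58 2 (.s k54 k55 0
  (.s k57 k51 2 (.d k61 k62 k49 0 1))))), (.s k16 k32 3 (.s k21 k42 6 (.s k26 k31 2 (.s k56 k52 1
  (.s k41 k11 4 (.d k61 k62 k1 0 5))))))] .n) (.c k41 (.q k48 [(.s k16 k32 3 (.s k20 k40 5 (.s k24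
  k28 1 (.s k36 k12 5 (.d k52 k56 k4 1 3))))), (.s k52 k56 1 (.s k53 k58 2 (.s k54 k55 0 (.s k57 k51
  2 (.d k61 k62 k49 0 1))))), (.s k16 k32 3 (.s k21 k42 6 (.s k26 k31 2 (.s k37 k15 6 (.d k53 k58 k5
  2 3)))))] .n) (.c k42 (.q k170 [(.s k40 k20 5 (.s k85 k255 14 (.s k105 k235 8 (.s k195 k150 14 (.d
  k65 k125 k130 5 8))))), (.s k255 k85 14 (.s k61 k62 0 (.s k125 k190 8 (.s k189 k253 7 (.s k126
  k252 8 (.d k127 k124 k191 0 7)))))), (.s k20 k40 5 (.s k85 k255 14 (.s k150 k215 8 (.s k195 k105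
  14 (.d k130 k190 k65 5 8)))))] (.c k85 (.q k127 [(.s k40 k20 5 (.s k105 k235 8 (.s k150 k195 14
  (.s k255 k191 7 (.d k190 k130 k125 5 8))))), (.s k255 k191 7 (.s k125 k190 8 (.s k126 k124 0 (.s
  k189 k252 8 (.d k61 k62 k253 0 7))))), (.s k40 k20 5 (.s k105 k235 8 (.s k61 k62 0 (.s k149 k193
  13 (.d k191 k128 k255 6 7)))))] (.c k191 (.l (.s k40 k20 5 (.s k105 k235 8 (.s k62 k61 0 (.s k150
  k195 14 (.s k190 k130 5 (.s k126 k254 7 (.d k125 k255 k124 8 0)))))))) (.c k255 (.q k48 [(.s k16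
  k32 3 (.s k20 k40 5 (.s k24 k28 1 (.s k52 k56 1 (.d k36 k4 k12 3 5))))), (.s k52 k56 1 (.s k53 k58
  2 (.s k54 k55 0 (.s k57 k51 2 (.d k61 k62 k49 0 1))))), (.s k32 k16 3 (.s k40 k20 5 (.s k101 k239
  10 (.s k105 k235 8 (.s k97 k109 1 (.d k195 k150 k146 14 12))))))] .n) .n))) (.c k150 (.l (.s k255
  k85 14 (.s k62 k61 0 (.s k190 k125 8 (.s k126 k254 7 (.s k189 k252 8 (.d k191 k127 k188 7 0)))))))
  (.c k255 (.q k48 [(.s k32 k16 3 (.s k40 k20 5 (.s k36 k44 1 (.s k24 k12 5 (.d k56 k52 k8 1 3))))),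
  (.s k52 k56 1 (.s k53 k58 2 (.s k54 k55 0 (.s k57 k51 2 (.d k61 k62 k49 0 1))))), (.s k32 k16 3
  (.s k40 k20 5 (.s k101 k239 10 (.s k105 k235 8 (.s k207 k154 14 (.d k109 k97 k158 1 12))))))] .n)
  .n)))) (.c k43 (.l (.s k20 k40 5 (.s k61 k62 0 (.s k21 k42 6 (.s k41 k1 5 (.d k22 k23 k3 0 6))))))
  (.c k61 (.q k48 [(.s k16 k32 3 (.s k20 k40 5 (.s k24 k28 1 (.s k36 k12 5 (.d k52 k56 k4 1 3))))),
  (.s k16 k32 3 (.s k21 k42 6 (.s k26 k31 2 (.s k37 k15 6 (.d k53 k58 k5 2 3))))), (.s k20 k40 5 (.s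
  k21 k42 6 (.s k22 k23 0 (.s k52 k56 1 (.s k37 k7 4 (.d k53 k58 k5 2 3))))))] .n) (.c k62 (.q k48
  [(.s k16 k32 3 (.s k20 k40 5 (.s k24 k28 1 (.s k36 k12 5 (.d k52 k56 k4 1 3))))), (.s k16 k32 3
  (.s k21 k42 6 (.s k26 k31 2 (.s k37 k15 6 (.d k53 k58 k5 2 3))))), (.s k20 k40 5 (.s k21 k42 6 (.s
  k22 k23 0 (.s k52 k56 1 (.s k37 k7 4 (.d k53 k58 k5 2 3))))))] (.c k150 (.q k194 [(.s k16 k32 3
  (.s k20 k40 5 (.s k52 k56 1 (.s k36 k4 3 (.d k24 k28 k12 1 5))))), (.s k16 k32 3 (.s k21 k42 6 (.s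
  k26 k31 2 (.s k37 k15 6 (.d k53 k58 k5 2 3))))), (.s k20 k40 5 (.s k21 k42 6 (.s k22 k23 0 (.s k52
  k56 1 (.s k37 k7 4 (.d k53 k58 k5 2 3))))))] .n) (.c k194 (.q k150 [(.s k16 k32 3 (.s k20 k40 5
  (.s k24 k28 1 (.s k36 k12 5 (.d k52 k56 k4 1 3))))), (.s k16 k32 3 (.s k21 k42 6 (.s k26 k31 2 (.s
  k37 k15 6 (.d k53 k58 k5 2 3))))), (.s k20 k40 5 (.s k85 k215 8 (.s k170 k255 14 (.s k195 k105 14
  (.d k130 k190 k65 5 8)))))] .n) .n))) .n))))))))))))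

def t139 : T TT 256 :=
  (.q k60 [(.s k40 k20 5 (.s k62 k61 0 (.s k42 k21 6 (.s k22 k2 5 (.d k41 k43 k3 0 6)))))] (.c k1
  (.l (.s k40 k20 5 (.s k42 k21 6 (.s k41 k43 0 (.s k22 k3 6 (.d k62 k61 k2 0 5)))))) (.c k2 (.l (.s
  k20 k40 5 (.s k21 k42 6 (.s k22 k23 0 (.s k41 k3 6 (.d k61 k62 k1 0 5)))))) (.c k3 (.f k62 k61 0
  (.q k8 [(.s k12 k4 1 (.s k40 k20 5 (.s k24 k56 3 (.s k44 k28 3 (.d k36 k32 k48 1 5))))), (.s k12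
  k4 1 (.s k42 k21 6 (.s k25 k59 4 (.s k38 k51 6 (.d k46 k34 k29 1 4))))), (.s k40 k20 5 (.s k42 k21
  6 (.s k56 k24 3 (.s k59 k25 4 (.s k57 k58 0 (.d k51 k55 k54 1 2))))))] (.c k71 (.q k207 [(.s k158
  k109 12 (.s k110 k206 11 (.s k157 k204 12 (.d k159 k156 k111 0 11)))), (.s k12 k4 1 (.s k40 k20 5
  (.s k24 k56 3 (.s k36 k48 5 (.d k44 k32 k28 1 3)))))] .n) (.c k207 (.q k71 [(.s k12 k4 1 (.s k40
  k20 5 (.s k24 k56 3 (.s k44 k28 3 (.d k36 k32 k48 1 5))))), (.s k12 k4 1 (.s k42 k21 6 (.s k25 k59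
  4 (.s k38 k51 6 (.d k46 k34 k29 1 4))))), (.s k40 k20 5 (.s k42 k21 6 (.s k56 k24 3 (.s k59 k25 4
  (.s k57 k58 0 (.d k51 k55 k54 1 2))))))] .n) .n)))) (.c k20 (.f k62 k61 0 (.q k8 [(.s k42 k21 6
  (.s k22 k2 5 (.s k25 k59 4 (.s k28 k19 2 (.d k12 k4 k44 1 3))))), (.s k12 k4 1 (.s k44 k28 3 (.s
  k46 k29 4 (.s k30 k14 3 (.d k45 k47 k15 0 4))))), (.s k42 k21 6 (.s k22 k2 5 (.s k59 k25 4 (.s k51
  k55 1 (.s k54 k57 2 (.s k38 k6 3 (.d k34 k17 k46 4 1)))))))] (.c k4 (.l (.s k42 k21 6 (.s k22 k2 5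
  (.s k25 k59 4 (.s k28 k19 2 (.s k12 k44 3 (.s k38 k51 6 (.d k46 k34 k29 1 4)))))))) .n))) (.c k21
  (.q k126 [(.s k61 k62 0 (.s k189 k252 8 (.s k125 k253 7 (.s k255 k190 8 (.d k127 k124 k191 0
  7))))), (.s k20 k40 5 (.s k252 k189 8 (.s k84 k168 13 (.s k148 k212 7 (.s k104 k192 13 (.d k124
  k64 k188 5 7)))))), (.s k40 k20 5 (.s k62 k61 0 (.s k190 k254 7 (.s k255 k125 8 (.s k170 k85 14
  (.s k105 k235 8 (.d k150 k130 k195 5 14)))))))] (.c k189 (.q k150 [(.s k62 k61 0 (.s k190 k254 7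
  (.s k170 k130 5 (.d k255 k125 k85 8 14)))), (.s k20 k40 5 (.s k85 k215 8 (.s k255 k170 14 (.s k105
  k195 14 (.s k125 k65 5 (.d k127 k124 k191 0 7)))))), (.s k62 k61 0 (.s k195 k105 14 (.s k190 k254
  7 (.d k130 k170 k65 5 8))))] (.c k125 (.l (.s k20 k40 5 (.s k85 k215 8 (.s k170 k255 14 (.s k195
  k105 14 (.d k130 k190 k65 5 8)))))) (.c k170 (.l (.s k20 k40 5 (.s k85 k215 8 (.s k62 k61 0 (.s
  k105 k195 14 (.s k190 k254 7 (.d k125 k255 k65 8 5))))))) .n))) .n)) (.c k22 (.q k105 [(.s k20 k40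
  5 (.s k150 k195 14 (.s k85 k215 8 (.s k125 k65 5 (.d k255 k190 k170 8 14))))), (.s k21 k42 6 (.s
  k195 k150 14 (.s k65 k130 8 (.s k85 k125 5 (.s k149 k213 7 (.d k61 k62 k193 0 13)))))), (.s k40
  k20 5 (.s k21 k42 6 (.s k170 k235 8 (.s k85 k255 14 (.s k149 k213 7 (.d k61 k62 k193 0 13))))))]
  (.c k85 (.l (.s k40 k20 5 (.s k235 k170 8 (.s k195 k150 14 (.s k215 k255 5 (.s k107 k151 13 (.s
  k43 k171 7 (.d k42 k21 k41 6 0)))))))) (.c k170 (.l (.s k20 k40 5 (.s k61 k62 0 (.s k150 k195 14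
  (.s k85 k215 8 (.s k149 k193 13 (.d k21 k42 k213 6 7))))))) (.c k195 (.l (.s k40 k20 5 (.s k170
  k235 8 (.s k255 k85 14 (.s k61 k62 0 (.s k149 k193 13 (.d k191 k127 k128 7 6))))))) .n)))) (.c k23
  (.l (.s k40 k20 5 (.s k62 k61 0 (.s k42 k21 6 (.s k22 k2 5 (.d k41 k43 k3 0 6)))))) (.c k40 (.f
  k62 k61 0 (.q k8 [(.s k12 k4 1 (.s k44 k28 3 (.s k46 k29 4 (.s k30 k14 3 (.d k45 k47 k15 0 4))))),
  (.s k42 k21 6 (.s k2 k22 5 (.s k59 k25 4 (.s k51 k55 1 (.s k54 k57 2 (.s k50 k58 1 (.d k34 k17 k18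
  4 3)))))))] (.c k4 (.l (.s k42 k21 6 (.s k22 k2 5 (.s k25 k59 4 (.s k28 k19 2 (.s k12 k44 3 (.s
  k38 k51 6 (.d k46 k34 k29 1 4)))))))) (.c k28 (.l (.s k12 k4 1 (.s k42 k21 6 (.s k25 k59 4 (.s k38
  k51 6 (.d k46 k34 k29 1 4)))))) (.c k29 (.l (.s k12 k4 1 (.s k42 k21 6 (.s k22 k2 5 (.s k25 k59 4
  (.d k28 k19 k44 2 3)))))) .n))))) (.c k41 (.q k8 [(.s k12 k4 1 (.s k40 k20 5 (.s k44 k28 3 (.s k36
  k32 1 (.d k24 k56 k48 3 5))))), (.s k12 k4 1 (.s k42 k21 6 (.s k25 k59 4 (.s k38 k51 6 (.d k46 k34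
  k29 1 4))))), (.s k40 k20 5 (.s k42 k21 6 (.s k56 k24 3 (.s k59 k25 4 (.s k57 k58 0 (.d k51 k55
  k54 1 2))))))] .n) (.c k42 (.q k170 [(.s k40 k20 5 (.s k85 k255 14 (.s k105 k235 8 (.s k195 k150
  14 (.d k65 k125 k130 5 8))))), (.s k255 k85 14 (.s k61 k62 0 (.s k125 k190 8 (.s k189 k253 7 (.s
  k126 k252 8 (.d k127 k124 k191 0 7)))))), (.s k20 k40 5 (.s k85 k255 14 (.s k150 k215 8 (.s k195
  k105 14 (.d k130 k190 k65 5 8)))))] (.c k85 (.f k62 k61 0 (.q k8 [(.s k12 k4 1 (.s k44 k28 3 (.s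
  k46 k29 4 (.s k30 k14 3 (.d k45 k47 k15 0 4))))), (.s k40 k20 5 (.s k56 k24 3 (.s k89 k251 12 (.s
  k105 k235 8 (.s k203 k154 12 (.d k73 k121 k138 3 8))))))] (.c k28 (.l (.s k12 k4 1 (.s k40 k20 5
  (.s k89 k251 12 (.s k105 k235 8 (.s k73 k121 3 (.d k195 k150 k134 14 10))))))) (.c k64 (.q k127
  [(.s k40 k20 5 (.s k105 k235 8 (.s k150 k195 14 (.s k255 k191 7 (.d k190 k130 k125 5 8))))), (.s
  k12 k4 1 (.s k89 k251 12 (.s k29 k46 4 (.s k149 k209 9 (.d k191 k128 k255 6 7))))), (.s k12 k4 1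
  (.s k40 k20 5 (.s k24 k56 3 (.s k36 k48 5 (.d k44 k32 k28 1 3)))))] .n) (.c k127 (.q k64 [(.s k12
  k4 1 (.s k40 k20 5 (.s k24 k56 3 (.s k36 k48 5 (.d k44 k32 k28 1 3))))), (.s k40 k20 5 (.s k192
  k128 7 (.s k104 k148 13 (.s k168 k232 7 (.d k84 k124 k252 5 13))))), (.s k12 k4 1 (.s k128 k192 7
  (.s k89 k251 12 (.s k29 k46 4 (.d k149 k191 k209 6 9)))))] .n) .n))))) (.c k150 (.l (.s k255 k85
  14 (.s k62 k61 0 (.s k190 k125 8 (.s k126 k254 7 (.s k189 k252 8 (.d k191 k127 k188 7 0))))))) (.c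
  k255 (.q k150 [(.s k40 k20 5 (.d k105 k235 k195 8 14)), (.s k62 k61 0 (.s k190 k130 5 (.s k126
  k254 7 (.s k252 k189 8 (.s k168 k84 13 (.s k188 k124 7 (.d k169 k171 k131 0 6)))))))] .n) .n))))
  (.c k43 (.l (.s k20 k40 5 (.s k61 k62 0 (.s k21 k42 6 (.s k41 k1 5 (.d k22 k23 k3 0 6)))))) (.c
  k61 (.q k8 [(.s k12 k4 1 (.s k40 k20 5 (.s k24 k56 3 (.s k36 k48 5 (.d k44 k32 k28 1 3))))), (.s
  k12 k4 1 (.s k42 k21 6 (.s k25 k59 4 (.s k38 k51 6 (.d k46 k34 k29 1 4))))), (.s k40 k20 5 (.s k42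
  k21 6 (.s k56 k24 3 (.s k59 k25 4 (.s k57 k58 0 (.d k51 k55 k54 1 2))))))] .n) (.c k62 (.q k8 [(.s
  k12 k4 1 (.s k40 k20 5 (.s k24 k56 3 (.s k36 k48 5 (.d k44 k32 k28 1 3))))), (.s k12 k4 1 (.s k42
  k21 6 (.s k25 k59 4 (.s k38 k51 6 (.d k46 k34 k29 1 4))))), (.s k40 k20 5 (.s k42 k21 6 (.s k56
  k24 3 (.s k59 k25 4 (.s k57 k58 0 (.d k51 k54 k55 2 1))))))] (.c k150 (.q k194 [(.s k12 k4 1 (.s
  k40 k20 5 (.s k24 k56 3 (.s k36 k48 5 (.d k44 k32 k28 1 3))))), (.s k12 k4 1 (.s k42 k21 6 (.s k25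
  k59 4 (.s k38 k51 6 (.d k46 k34 k29 1 4))))), (.s k40 k20 5 (.s k42 k21 6 (.s k56 k24 3 (.s k59
  k25 4 (.s k57 k58 0 (.d k51 k54 k55 2 1))))))] .n) (.c k194 (.q k150 [(.s k12 k4 1 (.s k40 k20 5
  (.s k24 k56 3 (.s k36 k48 5 (.d k44 k32 k28 1 3))))), (.s k20 k40 5 (.s k85 k215 8 (.s k170 k255
  14 (.s k195 k105 14 (.d k130 k190 k65 5 8))))), (.s k12 k4 1 (.s k42 k21 6 (.s k25 k59 4 (.s k38
  k51 6 (.d k46 k34 k29 1 4)))))] .n) .n))) .n))))))))))))))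

def t143 : T TT 256 :=
  (.q k3 [(.s k2 k1 0 (.s k43 k23 5 (.s k42 k21 6 (.s k41 k40 0 (.d k22 k62 k60 5 6)))))] (.c k1 (.q
  k15 [(.s k5 k10 2 (.s k21 k42 6 (.s k37 k53 3 (.s k26 k48 6 (.d k31 k16 k47 2 3))))), (.s k7 k11 1
  (.s k23 k43 5 (.s k39 k55 3 (.s k27 k51 5 (.d k31 k19 k47 1 3))))), (.s k5 k10 2 (.s k21 k42 6 (.s
  k7 k11 1 (.s k23 k43 5 (.s k4 k6 0 (.d k55 k39 k38 3 4))))))] .n) (.c k2 (.q k15 [(.s k10 k5 2 (.s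
  k47 k31 3 (.s k42 k21 6 (.s k37 k32 2 (.d k26 k58 k48 3 6))))), (.s k7 k11 1 (.s k23 k43 5 (.s k39
  k55 3 (.s k27 k51 5 (.d k31 k19 k47 1 3))))), (.s k5 k10 2 (.s k21 k42 6 (.s k7 k11 1 (.s k23 k43
  5 (.s k37 k53 3 (.d k22 k20 k52 0 4))))))] .n) (.c k20 (.l (.s k2 k1 0 (.s k42 k21 6 (.s k22 k62 5
  (.s k41 k60 6 (.d k43 k23 k40 5 0)))))) (.c k21 (.q k15 [(.s k1 k2 0 (.s k5 k10 2 (.s k9 k13 1 (.s
  k6 k12 2 (.d k7 k4 k11 0 1))))), (.s k7 k11 1 (.s k23 k43 5 (.s k39 k55 3 (.s k27 k51 5 (.d k31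
  k19 k47 1 3)))))] (.c k4 (.l (.s k2 k1 0 (.s k10 k5 2 (.s k6 k14 1 (.s k9 k12 2 (.d k11 k7 k8 1
  0)))))) (.c k7 (.q k42 [(.s k2 k1 0 (.s k22 k62 5 (.s k41 k60 6 (.d k43 k40 k23 0 5)))), (.s k10
  k5 2 (.s k26 k58 3 (.s k37 k48 6 (.d k47 k32 k31 2 3))))] .n) (.c k11 (.q k42 [(.s k2 k1 0 (.s k43
  k23 5 (.s k41 k40 0 (.d k22 k62 k60 5 6)))), (.s k10 k5 2 (.s k26 k58 3 (.s k37 k48 6 (.d k47 k32
  k31 2 3))))] .n) .n)))) (.c k22 (.q k15 [(.s k2 k1 0 (.s k10 k5 2 (.s k6 k14 1 (.s k9 k12 2 (.d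
  k11 k8 k7 0 1))))), (.s k10 k5 2 (.s k42 k21 6 (.s k26 k58 3 (.s k37 k48 6 (.d k47 k32 k31 2
  3))))), (.s k7 k11 1 (.s k23 k43 5 (.s k39 k55 3 (.s k27 k51 5 (.d k31 k19 k47 1 3)))))] .n) (.c
  k23 (.q k15 [(.s k1 k2 0 (.s k5 k10 2 (.s k9 k13 1 (.s k6 k12 2 (.d k7 k4 k11 0 1))))), (.s k5 k10
  2 (.s k21 k42 6 (.s k37 k53 3 (.s k26 k48 6 (.d k31 k16 k47 2 3))))), (.s k1 k2 0 (.s k21 k42 6
  (.s k41 k61 5 (.s k11 k7 1 (.s k26 k56 4 (.d k31 k16 k47 2 3))))))] .n) (.c k40 (.l (.s k1 k2 0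
  (.s k21 k42 6 (.s k41 k61 5 (.s k22 k60 6 (.d k23 k43 k20 5 0)))))) (.c k41 (.q k15 [(.s k1 k2 0
  (.s k5 k10 2 (.s k9 k13 1 (.s k6 k12 2 (.d k7 k4 k11 0 1))))), (.s k5 k10 2 (.s k21 k42 6 (.s k37
  k53 3 (.s k26 k48 6 (.d k31 k16 k47 2 3))))), (.s k7 k11 1 (.s k23 k43 5 (.s k39 k55 3 (.s k27 k51
  5 (.d k31 k19 k47 1 3)))))] .n) (.c k42 (.q k170 [(.s k2 k1 0 (.s k85 k255 14 (.s k86 k254 13 (.s
  k252 k169 14 (.d k84 k87 k168 0 13))))), (.s k255 k85 14 (.s k23 k43 5 (.s k87 k171 13 (.s k151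
  k215 7 (.s k107 k195 13 (.d k127 k67 k191 5 7)))))), (.s k1 k2 0 (.s k85 k255 14 (.s k169 k253 13
  (.s k252 k86 14 (.d k168 k171 k84 0 13)))))] (.c k85 (.q k127 [(.s k2 k1 0 (.s k86 k254 13 (.s
  k169 k252 14 (.s k255 k191 7 (.d k171 k168 k87 0 13))))), (.s k255 k191 7 (.s k87 k171 13 (.s k107
  k67 5 (.s k151 k195 13 (.d k23 k43 k215 5 7))))), (.s k2 k1 0 (.s k86 k254 13 (.s k23 k43 5 (.s
  k149 k212 8 (.d k191 k128 k255 6 7)))))] (.c k191 (.l (.s k2 k1 0 (.s k86 k254 13 (.s k43 k23 5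
  (.s k169 k252 14 (.s k171 k168 0 (.s k107 k235 7 (.d k87 k255 k67 13 5)))))))) (.c k255 (.q k15
  [(.s k1 k2 0 (.s k5 k10 2 (.s k9 k13 1 (.s k7 k11 1 (.d k6 k4 k12 0 2))))), (.s k7 k11 1 (.s k23
  k43 5 (.s k39 k55 3 (.s k27 k51 5 (.d k31 k19 k47 1 3))))), (.s k2 k1 0 (.s k10 k5 2 (.s k86 k254
  13 (.s k90 k250 11 (.s k82 k94 1 (.d k240 k165 k161 14 12))))))] .n) .n))) (.c k169 (.l (.s k255
  k85 14 (.s k43 k23 5 (.s k171 k87 13 (.s k107 k235 7 (.s k151 k195 13 (.d k191 k127 k131 7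
  5))))))) (.c k255 (.q k15 [(.s k2 k1 0 (.s k10 k5 2 (.s k6 k14 1 (.s k9 k12 2 (.d k11 k8 k7 0
  1))))), (.s k7 k11 1 (.s k23 k43 5 (.s k39 k55 3 (.s k27 k51 5 (.d k31 k19 k47 1 3))))), (.s k2 k1
  0 (.s k10 k5 2 (.s k86 k254 13 (.s k252 k169 14 (.s k90 k250 11 (.d k94 k82 k173 1 12))))))] .n)
  .n)))) (.c k43 (.f k42 k21 6 (.q k15 [(.s k47 k31 3 (.s k10 k5 2 (.s k37 k32 2 (.d k26 k58 k48 3
  6)))), (.s k1 k2 0 (.s k5 k10 2 (.s k9 k13 1 (.s k6 k12 2 (.d k7 k4 k11 0 1))))), (.s k2 k1 0 (.s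
  k22 k62 5 (.s k7 k11 1 (.s k37 k52 4 (.d k47 k32 k31 2 3)))))] (.c k169 (.q k232 [(.s k47 k31 3
  (.s k10 k5 2 (.s k37 k32 2 (.d k26 k58 k48 3 6)))), (.s k1 k2 0 (.s k5 k10 2 (.s k9 k13 1 (.s k6
  k12 2 (.d k7 k4 k11 0 1))))), (.s k2 k1 0 (.s k22 k62 5 (.s k7 k11 1 (.s k37 k52 4 (.d k47 k32 k31
  2 3)))))] .n) (.c k232 (.q k169 [(.s k47 k31 3 (.s k10 k5 2 (.s k37 k32 2 (.d k26 k58 k48 3 6)))),
  (.s k1 k2 0 (.s k85 k253 13 (.s k170 k255 14 (.s k252 k86 14 (.d k168 k171 k84 0 13)))))] .n)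
  .n)))) (.c k60 (.q k15 [(.s k1 k2 0 (.s k5 k10 2 (.s k9 k13 1 (.s k7 k11 1 (.d k6 k4 k12 0 2))))),
  (.s k5 k10 2 (.s k21 k42 6 (.s k37 k53 3 (.s k26 k48 6 (.d k31 k16 k47 2 3))))), (.s k7 k11 1 (.s
  k23 k43 5 (.s k39 k55 3 (.s k27 k51 5 (.d k31 k19 k47 1 3)))))] .n) (.c k61 (.l (.s k2 k1 0 (.s
  k43 k23 5 (.s k42 k21 6 (.s k41 k40 0 (.d k22 k62 k60 5 6)))))) (.c k62 (.l (.s k1 k2 0 (.s k23
  k43 5 (.s k21 k42 6 (.s k22 k20 0 (.d k41 k61 k60 5 6)))))) .n))))))))))))))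

def t149 : T TT 256 :=
  (.q k12 [(.s k4 k8 1 (.s k21 k42 6 (.s k38 k55 4 (.s k25 k51 6 (.d k29 k17 k46 1 4))))), (.s k8 k4
  1 (.s k42 k21 6 (.s k25 k59 4 (.s k38 k51 6 (.d k46 k34 k29 1 4)))))] (.c k4 (.q k62 [(.s k46 k29
  4 (.s k30 k14 3 (.s k60 k61 0 (.s k44 k28 3 (.d k45 k47 k15 0 4))))), (.s k42 k21 6 (.s k22 k2 5
  (.s k60 k61 0 (.s k40 k20 5 (.d k41 k43 k3 0 6))))), (.s k42 k21 6 (.s k2 k22 5 (.s k46 k29 4 (.s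
  k14 k30 3 (.s k6 k10 1 (.d k3 k1 k9 0 2))))))] .n) (.c k8 (.q k62 [(.s k42 k21 6 (.s k22 k2 5 (.s
  k60 k61 0 (.s k40 k20 5 (.d k41 k43 k3 0 6))))), (.s k46 k29 4 (.s k30 k14 3 (.s k60 k61 0 (.s k44
  k28 3 (.d k45 k47 k15 0 4))))), (.s k42 k21 6 (.s k2 k22 5 (.s k46 k29 4 (.s k14 k30 3 (.s k6 k10
  1 (.d k3 k9 k1 2 0))))))] .n) (.c k21 (.q k85 [(.s k4 k8 1 (.s k170 k255 14 (.s k166 k247 12 (.s
  k162 k174 1 (.d k243 k81 k89 12 14))))), (.s k255 k170 14 (.s k46 k29 4 (.s k174 k93 12 (.s k110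
  k238 7 (.s k157 k204 12 (.d k191 k140 k127 4 7))))))] (.c k89 (.l (.s k255 k170 14 (.s k29 k46 4
  (.s k93 k174 12 (.s k157 k221 7 (.s k110 k204 12 (.d k127 k191 k76 7 4))))))) (.c k170 (.q k3 [(.s
  k1 k2 0 (.s k9 k6 2 (.s k5 k13 1 (.s k10 k15 2 (.d k8 k11 k4 0 1))))), (.s k1 k2 0 (.s k4 k8 1 (.s
  k169 k253 13 (.s k166 k247 12 (.s k163 k172 2 (.d k243 k89 k83 14 11)))))), (.s k4 k8 1 (.s k6 k9
  2 (.s k166 k247 12 (.s k86 k246 11 (.s k252 k169 14 (.d k84 k168 k87 13 0)))))), (.s k1 k2 0 (.s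
  k169 k253 13 (.s k9 k6 2 (.s k89 k249 11 (.s k243 k166 14 (.d k81 k162 k93 12 1))))))] (.c k42 (.q
  k234 [(.s k1 k2 0 (.s k9 k6 2 (.s k5 k13 1 (.s k10 k15 2 (.d k8 k11 k4 0 1))))), (.s k4 k8 1 (.s
  k6 k9 2 (.s k166 k247 12 (.s k86 k246 11 (.s k252 k169 14 (.d k84 k168 k87 13 0)))))), (.s k1 k2 0
  (.s k4 k8 1 (.s k169 k253 13 (.s k166 k247 12 (.s k163 k172 2 (.d k243 k89 k83 14 11)))))), (.s k1
  k2 0 (.s k169 k253 13 (.s k9 k6 2 (.s k89 k249 11 (.s k243 k166 14 (.d k81 k162 k93 12 1))))))]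
  (.c k86 (.l (.s k2 k1 0 (.s k4 k8 1 (.s k6 k9 2 (.s k10 k14 1 (.d k5 k7 k15 0 2)))))) (.c k128 (.q
  k191 [(.s k4 k8 1 (.s k166 k247 12 (.s k89 k243 14 (.s k255 k127 7 (.d k93 k81 k174 1 12))))), (.s
  k1 k2 0 (.s k8 k4 1 (.s k9 k6 2 (.s k5 k13 1 (.d k10 k11 k15 0 2))))), (.s k1 k2 0 (.s k169 k253
  13 (.s k86 k252 14 (.s k255 k127 7 (.d k87 k84 k171 0 13)))))] .n) (.c k191 (.q k128 [(.s k1 k2 0
  (.s k8 k4 1 (.s k9 k6 2 (.s k5 k13 1 (.d k10 k11 k15 0 2))))), (.s k4 k8 1 (.s k192 k64 7 (.s k132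
  k72 9 (.s k68 k196 7 (.d k136 k140 k204 1 9))))), (.s k1 k2 0 (.s k192 k64 7 (.s k129 k66 8 (.s
  k65 k193 7 (.d k130 k131 k195 0 8)))))] .n) .n)))) (.c k86 (.l (.s k2 k1 0 (.s k4 k8 1 (.s k6 k9 2
  (.s k10 k14 1 (.d k5 k7 k15 0 2)))))) (.c k128 (.q k191 [(.s k4 k8 1 (.s k166 k247 12 (.s k89 k243
  14 (.s k255 k127 7 (.d k93 k81 k174 1 12))))), (.s k1 k2 0 (.s k8 k4 1 (.s k9 k6 2 (.s k5 k13 1
  (.d k10 k11 k15 0 2))))), (.s k1 k2 0 (.s k169 k253 13 (.s k86 k252 14 (.s k255 k127 7 (.d k87 k84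
  k171 0 13)))))] (.c k42 (.q k234 [(.s k4 k8 1 (.s k166 k247 12 (.s k89 k243 14 (.s k255 k127 7 (.d
  k93 k81 k174 1 12))))), (.s k1 k2 0 (.s k8 k4 1 (.s k9 k6 2 (.s k5 k13 1 (.d k10 k11 k15 0 2))))),
  (.s k1 k2 0 (.s k169 k253 13 (.s k86 k252 14 (.s k255 k127 7 (.d k87 k84 k171 0 13)))))] .n) (.c
  k234 (.q k42 [(.s k2 k1 0 (.s k22 k62 5 (.s k41 k60 6 (.d k43 k40 k23 0 5)))), (.s k8 k4 1 (.s k25
  k59 4 (.s k38 k51 6 (.d k46 k34 k29 1 4))))] .n) .n))) (.c k191 (.q k128 [(.s k1 k2 0 (.s k8 k4 1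
  (.s k9 k6 2 (.s k5 k13 1 (.d k10 k11 k15 0 2))))), (.s k4 k8 1 (.s k192 k64 7 (.s k132 k72 9 (.s
  k68 k196 7 (.d k136 k140 k204 1 9))))), (.s k1 k2 0 (.s k192 k64 7 (.s k129 k66 8 (.s k65 k193 7
  (.d k130 k131 k195 0 8)))))] (.c k42 (.q k234 [(.s k1 k2 0 (.s k8 k4 1 (.s k9 k6 2 (.s k5 k13 1
  (.d k10 k11 k15 0 2))))), (.s k4 k8 1 (.s k192 k64 7 (.s k132 k72 9 (.s k68 k196 7 (.d k136 k140
  k204 1 9))))), (.s k1 k2 0 (.s k192 k64 7 (.s k129 k66 8 (.s k65 k193 7 (.d k130 k131 k195 0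
  8)))))] .n) (.c k234 (.q k42 [(.s k2 k1 0 (.s k22 k62 5 (.s k41 k60 6 (.d k43 k40 k23 0 5)))), (.s
  k8 k4 1 (.s k25 k59 4 (.s k38 k51 6 (.d k46 k34 k29 1 4))))] .n) .n))) (.c k234 (.q k42 [(.s k2 k1
  0 (.s k22 k62 5 (.s k41 k60 6 (.d k43 k40 k23 0 5)))), (.s k8 k4 1 (.s k25 k59 4 (.s k38 k51 6 (.d
  k46 k34 k29 1 4))))] (.c k128 (.q k191 [(.s k2 k1 0 (.s k22 k62 5 (.s k41 k60 6 (.d k43 k40 k23 0
  5)))), (.s k8 k4 1 (.s k25 k59 4 (.s k38 k51 6 (.d k46 k34 k29 1 4))))] .n) (.c k191 (.q k128 [(.s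
  k2 k1 0 (.s k22 k62 5 (.s k41 k60 6 (.d k43 k40 k23 0 5)))), (.s k8 k4 1 (.s k25 k59 4 (.s k38 k51
  6 (.d k46 k34 k29 1 4))))] .n) .n))) .n)))))) (.c k174 (.l (.s k8 k4 1 (.s k170 k255 14 (.s k89
  k251 12 (.s k243 k166 14 (.d k81 k93 k162 1 12)))))) (.c k255 (.q k60 [(.s k4 k8 1 (.s k20 k40 5
  (.s k36 k52 3 (.s k28 k44 3 (.d k24 k16 k48 1 5))))), (.s k28 k44 3 (.s k29 k46 4 (.s k30 k31 0
  (.s k45 k15 4 (.d k61 k62 k13 0 3))))), (.s k4 k8 1 (.s k20 k40 5 (.s k166 k247 12 (.s k243 k89 14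
  (.s k150 k215 8 (.d k182 k134 k121 3 10))))))] .n) .n))))) (.c k25 (.q k3 [(.s k1 k2 0 (.s k8 k4 1
  (.s k9 k6 2 (.s k10 k11 0 (.d k5 k13 k15 1 2))))), (.s k2 k1 0 (.s k42 k21 6 (.s k22 k62 5 (.s k41
  k60 6 (.d k43 k40 k23 0 5))))), (.s k21 k42 6 (.s k6 k9 2 (.s k23 k43 5 (.s k22 k20 0 (.s k38 k54
  3 (.d k4 k8 k55 1 4))))))] .n) (.c k29 (.f k8 k4 1 (.q k60 [(.s k40 k20 5 (.s k24 k56 3 (.s k36
  k48 5 (.d k44 k32 k28 1 3)))), (.s k42 k21 6 (.s k25 k59 4 (.s k28 k44 3 (.s k22 k19 2 (.d k62 k61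
  k2 0 5))))), (.s k20 k40 5 (.s k21 k42 6 (.s k22 k23 0 (.s k41 k3 6 (.d k61 k62 k1 0 5)))))] (.c
  k89 (.q k209 [(.s k40 k20 5 (.s k24 k56 3 (.s k36 k48 5 (.d k44 k32 k28 1 3)))), (.s k42 k21 6 (.s
  k25 k59 4 (.s k28 k44 3 (.s k22 k19 2 (.d k62 k61 k2 0 5))))), (.s k20 k40 5 (.s k21 k42 6 (.s k22
  k23 0 (.s k41 k3 6 (.d k61 k62 k1 0 5)))))] (.c k72 (.q k123 [(.s k40 k20 5 (.s k24 k56 3 (.s k36
  k48 5 (.d k44 k32 k28 1 3)))), (.s k42 k21 6 (.s k25 k59 4 (.s k28 k44 3 (.s k22 k19 2 (.d k62 k61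
  k2 0 5))))), (.s k20 k40 5 (.s k21 k42 6 (.s k22 k23 0 (.s k41 k3 6 (.d k61 k62 k1 0 5)))))] .n)
  (.c k123 (.q k72 [(.s k40 k20 5 (.s k24 k56 3 (.s k36 k48 5 (.d k44 k32 k28 1 3)))), (.s k136 k200
  7 (.s k68 k204 9 (.s k192 k132 9 (.d k64 k76 k128 1 7))))] .n) .n))) (.c k209 (.q k89 [(.s k40 k20
  5 (.s k24 k56 3 (.s k36 k48 5 (.d k44 k32 k28 1 3)))), (.s k170 k251 12 (.s k85 k255 14 (.s k243
  k166 14 (.d k81 k93 k162 1 12))))] .n) .n)))) (.c k38 (.q k3 [(.s k1 k2 0 (.s k9 k6 2 (.s k5 k13 1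
  (.s k10 k15 2 (.d k8 k11 k4 0 1))))), (.s k1 k2 0 (.s k21 k42 6 (.s k41 k61 5 (.s k22 k60 6 (.d
  k23 k20 k43 0 5))))), (.s k42 k21 6 (.s k9 k6 2 (.s k43 k23 5 (.s k41 k40 0 (.s k25 k57 3 (.d k8
  k4 k59 1 4))))))] (.c k22 (.l (.s k2 k1 0 (.s k4 k8 1 (.s k6 k9 2 (.s k10 k14 1 (.d k5 k7 k15 0
  2)))))) .n)) (.c k42 (.q k170 [(.s k4 k8 1 (.s k85 k255 14 (.s k166 k247 12 (.s k162 k174 1 (.d
  k243 k81 k89 12 14))))), (.s k255 k85 14 (.s k29 k46 4 (.s k93 k174 12 (.s k157 k221 7 (.s k110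
  k204 12 (.d k127 k76 k191 4 7))))))] (.c k85 (.f k46 k29 4 (.f k8 k4 1 (.l (.s k89 k251 12 (.s
  k166 k243 14 (.s k174 k162 1 (.s k255 k93 12 (.s k110 k238 7 (.s k157 k204 12 (.d k191 k140 k127 4
  7)))))))))) (.c k166 (.l (.s k255 k85 14 (.s k46 k29 4 (.s k174 k93 12 (.s k110 k238 7 (.s k157
  k204 12 (.d k191 k127 k140 7 4))))))) (.c k174 (.l (.s k8 k4 1 (.s k85 k255 14 (.s k89 k251 12 (.s
  k243 k166 14 (.d k81 k93 k162 1 12)))))) (.c k255 (.q k60 [(.s k8 k4 1 (.s k40 k20 5 (.s k24 k56 3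
  (.s k36 k48 5 (.d k44 k32 k28 1 3))))), (.s k28 k44 3 (.s k29 k46 4 (.s k30 k31 0 (.s k45 k15 4
  (.d k61 k62 k13 0 3))))), (.s k8 k4 1 (.s k40 k20 5 (.s k89 k251 12 (.s k243 k166 14 (.s k105 k235
  8 (.d k121 k73 k182 3 10))))))] .n) .n))))) (.c k46 (.q k3 [(.s k1 k2 0 (.s k8 k4 1 (.s k9 k6 2
  (.s k5 k13 1 (.d k10 k11 k15 0 2))))), (.s k1 k2 0 (.s k21 k42 6 (.s k41 k61 5 (.s k22 k60 6 (.d
  k23 k20 k43 0 5))))), (.s k4 k8 1 (.s k21 k42 6 (.s k6 k9 2 (.s k23 k43 5 (.s k38 k55 4 (.d k22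
  k20 k54 0 3))))))] (.c k166 (.q k226 [(.s k1 k2 0 (.s k8 k4 1 (.s k9 k6 2 (.s k5 k13 1 (.d k10 k11
  k15 0 2))))), (.s k1 k2 0 (.s k21 k42 6 (.s k41 k61 5 (.s k22 k60 6 (.d k23 k20 k43 0 5))))), (.s
  k4 k8 1 (.s k21 k42 6 (.s k6 k9 2 (.s k23 k43 5 (.s k38 k55 4 (.d k22 k20 k54 0 3))))))] (.c k132
  (.q k183 [(.s k1 k2 0 (.s k21 k42 6 (.s k41 k61 5 (.s k22 k60 6 (.d k23 k20 k43 0 5))))), (.s k1
  k2 0 (.s k8 k4 1 (.s k9 k6 2 (.s k5 k13 1 (.d k10 k11 k15 0 2))))), (.s k4 k8 1 (.s k21 k42 6 (.s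
  k6 k9 2 (.s k23 k43 5 (.s k38 k55 4 (.d k22 k20 k54 0 3))))))] .n) (.c k183 (.q k132 [(.s k4 k8 1
  (.s k68 k196 7 (.s k136 k204 9 (.s k192 k72 9 (.d k128 k140 k64 1 7))))), (.s k1 k2 0 (.s k21 k42
  6 (.s k41 k61 5 (.s k22 k60 6 (.d k23 k20 k43 0 5)))))] .n) .n))) (.c k226 (.q k166 [(.s k1 k2 0
  (.s k8 k4 1 (.s k9 k6 2 (.s k5 k13 1 (.d k10 k11 k15 0 2))))), (.s k4 k8 1 (.s k85 k247 12 (.s
  k170 k255 14 (.s k243 k89 14 (.d k162 k174 k81 1 12))))), (.s k1 k2 0 (.s k21 k42 6 (.s k41 k61 5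
  (.s k22 k60 6 (.d k23 k20 k43 0 5)))))] .n) .n))) (.c k51 (.q k3 [(.s k1 k2 0 (.s k8 k4 1 (.s k9
  k6 2 (.s k5 k13 1 (.d k10 k11 k15 0 2))))), (.s k1 k2 0 (.s k21 k42 6 (.s k41 k61 5 (.s k22 k60 6
  (.d k23 k20 k43 0 5))))), (.s k4 k8 1 (.s k21 k42 6 (.s k6 k9 2 (.s k23 k43 5 (.s k38 k55 4 (.d
  k22 k20 k54 0 3))))))] .n) (.c k55 (.l (.s k8 k4 1 (.s k46 k29 4 (.s k42 k21 6 (.s k38 k34 1 (.d
  k25 k59 k51 4 6)))))) (.c k59 (.l (.s k4 k8 1 (.s k29 k46 4 (.s k21 k42 6 (.s k25 k17 1 (.d k38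
  k55 k51 4 6)))))) .n))))))))))))

def t150 : T TT 256 :=
  (.f k42 k21 6 (.q k46 [(.s k38 k34 1 (.s k12 k29 4 (.s k25 k51 6 (.d k8 k4 k59 1 4))))] (.c k4 (.q
  k62 [(.s k22 k2 5 (.s k60 k61 0 (.s k41 k3 6 (.d k40 k43 k20 0 5)))), (.s k22 k2 5 (.s k14 k30 3
  (.s k38 k34 1 (.s k54 k6 3 (.d k50 k58 k26 1 5))))), (.s k12 k29 4 (.s k30 k14 3 (.s k60 k61 0 (.s
  k44 k28 3 (.d k45 k47 k15 0 4)))))] (.c k38 (.q k55 [(.s k22 k2 5 (.s k60 k61 0 (.s k41 k3 6 (.d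
  k40 k43 k20 0 5)))), (.s k12 k29 4 (.s k30 k14 3 (.s k60 k61 0 (.s k44 k28 3 (.d k45 k47 k15 0
  4))))), (.s k2 k22 5 (.s k12 k29 4 (.s k14 k30 3 (.s k15 k13 0 (.d k10 k6 k5 1 2)))))] (.c k61 (.l
  (.s k2 k22 5 (.s k12 k29 4 (.s k14 k30 3 (.s k6 k10 1 (.d k3 k1 k9 0 2)))))) .n)) (.c k55 (.l (.s
  k38 k34 1 (.s k2 k22 5 (.s k14 k30 3 (.s k10 k6 1 (.d k26 k58 k50 3 5)))))) .n))) (.c k8 (.q k62
  [(.s k22 k2 5 (.s k60 k61 0 (.s k41 k3 6 (.d k40 k43 k20 0 5)))), (.s k22 k2 5 (.s k14 k30 3 (.s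
  k38 k34 1 (.s k54 k6 3 (.d k50 k58 k26 1 5))))), (.s k12 k29 4 (.s k30 k14 3 (.s k60 k61 0 (.s k44
  k28 3 (.d k45 k47 k15 0 4)))))] .n) (.c k12 (.q k62 [(.s k22 k2 5 (.s k60 k61 0 (.s k40 k20 5 (.d
  k41 k43 k3 0 6)))), (.s k14 k30 3 (.s k38 k34 1 (.s k26 k50 5 (.s k10 k58 3 (.s k15 k5 2 (.s k37
  k48 6 (.d k47 k32 k31 2 3)))))))] (.c k2 (.l (.s k30 k14 3 (.s k38 k34 1 (.s k60 k61 0 (.s k40 k20
  5 (.s k41 k43 0 (.s k44 k35 2 (.d k45 k47 k15 0 4)))))))) .n)) (.c k17 (.l (.s k38 k34 1 (.s k12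
  k29 4 (.s k25 k51 6 (.d k8 k4 k59 1 4))))) (.c k25 (.q k62 [(.s k22 k2 5 (.s k60 k61 0 (.s k41 k3
  6 (.d k40 k43 k20 0 5)))), (.s k22 k2 5 (.s k14 k30 3 (.s k38 k34 1 (.s k54 k6 3 (.d k50 k58 k26 1
  5))))), (.s k29 k12 4 (.s k30 k14 3 (.s k60 k61 0 (.s k15 k45 4 (.d k31 k28 k47 0 3)))))] (.c k17
  (.l (.s k29 k12 4 (.s k22 k2 5 (.s k60 k61 0 (.s k40 k20 5 (.d k41 k43 k3 0 6)))))) (.c k29 (.q
  k17 [(.d k34 k38 k51 1 4), (.s k22 k2 5 (.s k60 k61 0 (.s k40 k20 5 (.d k41 k43 k3 0 6))))] .n)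
  .n))) (.c k29 (.q k62 [(.s k22 k2 5 (.s k60 k61 0 (.s k41 k3 6 (.d k40 k43 k20 0 5)))), (.s k14
  k30 3 (.s k38 k34 1 (.s k26 k50 5 (.s k10 k58 3 (.s k15 k5 2 (.s k37 k48 6 (.d k47 k31 k32 3
  2)))))))] (.c k2 (.l (.s k30 k14 3 (.s k38 k34 1 (.s k60 k61 0 (.s k40 k20 5 (.s k45 k15 4 (.s k41
  k43 0 (.d k44 k47 k35 0 2)))))))) (.c k17 (.q k25 [(.s k59 k8 4 (.s k38 k34 1 (.d k51 k55 k12 1
  6))), (.s k22 k2 5 (.s k60 k61 0 (.s k40 k20 5 (.d k41 k43 k3 0 6))))] .n) (.c k25 (.q k17 [(.d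
  k34 k38 k51 1 4), (.s k22 k2 5 (.s k60 k61 0 (.s k40 k20 5 (.d k41 k43 k3 0 6))))] .n) .n)))) (.c
  k34 (.q k62 [(.s k22 k2 5 (.s k60 k61 0 (.s k41 k3 6 (.d k40 k43 k20 0 5)))), (.s k12 k29 4 (.s
  k30 k14 3 (.s k60 k61 0 (.s k44 k28 3 (.d k45 k47 k15 0 4))))), (.s k2 k22 5 (.s k12 k29 4 (.s k14
  k30 3 (.s k10 k6 1 (.d k15 k13 k5 0 2)))))] .n) (.c k38 (.q k62 [(.s k22 k2 5 (.s k60 k61 0 (.s
  k41 k3 6 (.d k40 k43 k20 0 5)))), (.s k12 k29 4 (.s k30 k14 3 (.s k60 k61 0 (.s k44 k28 3 (.d k45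
  k47 k15 0 4))))), (.s k2 k22 5 (.s k12 k29 4 (.s k14 k30 3 (.s k15 k13 0 (.d k10 k6 k5 1 2)))))]
  (.c k4 (.q k55 [(.s k22 k2 5 (.s k60 k61 0 (.s k41 k3 6 (.d k40 k43 k20 0 5)))), (.s k12 k29 4 (.s
  k30 k14 3 (.s k60 k61 0 (.s k44 k28 3 (.d k45 k47 k15 0 4))))), (.s k2 k22 5 (.s k12 k29 4 (.s k14
  k30 3 (.s k15 k13 0 (.d k10 k6 k5 1 2)))))] (.c k61 (.l (.s k2 k22 5 (.s k12 k29 4 (.s k14 k30 3
  (.s k6 k10 1 (.d k3 k1 k9 0 2)))))) .n)) (.c k55 (.q k4 [(.d k12 k8 k29 1 4), (.s k22 k2 5 (.s k60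
  k61 0 (.s k40 k20 5 (.d k41 k43 k3 0 6))))] .n) (.c k61 (.l (.s k2 k22 5 (.s k12 k29 4 (.s k14 k30
  3 (.s k6 k10 1 (.d k3 k1 k9 0 2)))))) .n)))) (.c k51 (.q k62 [(.s k22 k2 5 (.s k60 k61 0 (.s k40
  k20 5 (.d k41 k43 k3 0 6)))), (.s k22 k2 5 (.s k14 k30 3 (.s k38 k34 1 (.s k54 k6 3 (.d k50 k58
  k26 1 5))))), (.s k12 k29 4 (.s k30 k14 3 (.s k60 k61 0 (.s k44 k28 3 (.d k45 k47 k15 0 4)))))]
  .n) (.c k59 (.q k62 [(.s k22 k2 5 (.s k60 k61 0 (.s k41 k3 6 (.d k40 k43 k20 0 5)))), (.s k22 k2 5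
  (.s k14 k30 3 (.s k38 k34 1 (.s k54 k6 3 (.d k50 k58 k26 1 5))))), (.s k12 k29 4 (.s k30 k14 3 (.s
  k60 k61 0 (.s k44 k28 3 (.d k45 k47 k15 0 4)))))] (.c k153 (.q k200 [(.s k22 k2 5 (.s k60 k61 0
  (.s k41 k3 6 (.d k40 k43 k20 0 5)))), (.s k22 k2 5 (.s k14 k30 3 (.s k38 k34 1 (.s k54 k6 3 (.d
  k50 k58 k26 1 5))))), (.s k12 k29 4 (.s k30 k14 3 (.s k60 k61 0 (.s k44 k28 3 (.d k45 k47 k15 0
  4)))))] (.c k147 (.q k156 [(.s k22 k2 5 (.s k60 k61 0 (.s k41 k3 6 (.d k40 k43 k20 0 5)))), (.s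
  k12 k29 4 (.s k8 k4 1 (.s k136 k72 7 (.s k204 k68 9 (.d k60 k61 k108 0 11))))), (.s k2 k22 5 (.s
  k12 k29 4 (.s k14 k30 3 (.s k10 k6 1 (.d k15 k13 k5 0 2)))))] .n) (.c k156 (.q k147 [(.s k22 k2 5
  (.s k60 k61 0 (.s k41 k3 6 (.d k40 k43 k20 0 5)))), (.s k22 k2 5 (.s k14 k30 3 (.s k38 k34 1 (.s
  k54 k6 3 (.d k50 k58 k26 1 5))))), (.s k12 k29 4 (.s k30 k14 3 (.s k60 k61 0 (.s k44 k28 3 (.d k45
  k47 k15 0 4)))))] .n) .n))) (.c k200 (.q k153 [(.s k22 k2 5 (.s k60 k61 0 (.s k41 k3 6 (.d k40 k43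
  k20 0 5)))), (.s k22 k2 5 (.s k14 k30 3 (.s k38 k34 1 (.s k54 k6 3 (.d k50 k58 k26 1 5))))), (.s
  k12 k29 4 (.s k30 k14 3 (.s k60 k61 0 (.s k44 k28 3 (.d k45 k47 k15 0 4)))))] .n) .n))) (.c k62
  (.q k194 [(.s k38 k34 1 (.s k12 k29 4 (.s k25 k51 6 (.d k8 k4 k59 1 4))))] (.c k4 (.q k15 [(.s k47
  k31 3 (.s k37 k32 2 (.s k26 k48 6 (.d k10 k5 k58 2 3)))), (.s k12 k29 4 (.s k14 k13 0 (.s k38 k34
  1 (.s k26 k50 5 (.d k10 k58 k5 3 2))))), (.s k12 k29 4 (.s k13 k14 0 (.s k38 k34 1 (.s k25 k51 6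
  (.s k37 k49 5 (.d k47 k32 k31 2 3))))))] (.c k38 (.q k55 [(.s k47 k31 3 (.s k37 k32 2 (.s k26 k48
  6 (.d k10 k5 k58 2 3)))), (.s k51 k59 1 (.s k39 k27 5 (.s k23 k7 3 (.s k43 k3 5 (.d k47 k35 k31 1
  3))))), (.s k10 k5 2 (.s k26 k58 3 (.s k12 k29 4 (.s k13 k14 0 (.s k37 k48 6 (.s k25 k49 5 (.d k59
  k51 k8 1 4)))))))] (.c k5 (.l (.s k47 k31 3 (.s k51 k59 1 (.s k39 k27 5 (.s k43 k35 1 (.d k23 k7
  k3 3 5)))))) .n)) (.c k55 (.l (.s k38 k34 1 (.s k10 k5 2 (.s k26 k58 3 (.s k12 k29 4 (.d k14 k50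
  k13 5 0)))))) .n))) (.c k8 (.q k41 [(.s k38 k34 1 (.s k44 k35 2 (.s k40 k43 0 (.s k32 k36 1 (.d
  k47 k45 k37 0 2))))), (.s k12 k29 4 (.s k38 k34 1 (.s k25 k51 6 (.s k9 k57 3 (.s k3 k6 2 (.d k43
  k40 k23 0 5)))))), (.s k12 k29 4 (.s k40 k43 0 (.s k60 k20 5 (.s k44 k28 3 (.s k32 k36 1 (.d k47
  k45 k37 0 2)))))), (.s k12 k29 4 (.s k38 k34 1 (.s k25 k51 6 (.s k9 k57 3 (.s k3 k6 2 (.s k60 k22
  6 (.d k44 k35 k28 2 3)))))))] .n) (.c k12 (.q k130 [(.s k195 k65 8 (.s k66 k2 7 (.s k192 k193 0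
  (.s k128 k64 7 (.d k129 k131 k3 0 8))))), (.s k2 k66 7 (.s k3 k1 0 (.s k34 k38 1 (.s k51 k17 4 (.s
  k18 k50 3 (.s k33 k48 4 (.d k35 k32 k19 0 3))))))), (.s k195 k65 8 (.s k34 k38 1 (.s k51 k17 4 (.s
  k192 k193 0 (.s k98 k145 12 (.s k162 k226 7 (.d k146 k178 k50 3 11)))))))] (.c k1 (.l (.s k195 k65
  8 (.s k66 k2 7 (.s k192 k193 0 (.s k129 k3 8 (.d k128 k131 k64 0 7)))))) .n)) (.c k17 (.l (.s k38
  k34 1 (.s k12 k29 4 (.s k25 k51 6 (.d k8 k4 k59 1 4))))) (.c k25 (.f k12 k29 4 (.q k17 [(.d k34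
  k38 k51 1 4)] (.c k34 (.q k15 [(.s k4 k8 1 (.s k5 k10 2 (.s k6 k7 0 (.s k9 k3 2 (.d k13 k14 k1 0
  1))))), (.s k10 k5 2 (.s k26 k58 3 (.s k37 k48 6 (.d k47 k32 k31 2 3)))), (.s k4 k8 1 (.s k14 k13
  0 (.s k134 k74 9 (.s k69 k199 8 (.s k138 k207 10 (.s k195 k73 10 (.d k130 k142 k65 1 8)))))))] .n)
  (.c k38 (.q k15 [(.s k4 k8 1 (.s k5 k10 2 (.s k6 k7 0 (.s k9 k3 2 (.d k13 k14 k1 0 1))))), (.s k10
  k5 2 (.s k26 k58 3 (.s k37 k48 6 (.d k47 k32 k31 2 3)))), (.s k51 k34 4 (.s k27 k39 5 (.s k31 k47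
  3 (.s k23 k19 1 (.s k43 k3 5 (.d k59 k55 k11 1 3))))))] (.c k4 (.q k55 [(.d k51 k59 k34 1 4), (.s
  k10 k5 2 (.s k26 k58 3 (.s k37 k48 6 (.d k47 k32 k31 2 3))))] .n) (.c k55 (.l (.s k4 k8 1 (.s k5
  k10 2 (.s k6 k7 0 (.s k9 k3 2 (.d k13 k14 k1 0 1)))))) .n))) (.c k51 (.q k15 [(.s k10 k5 2 (.s k47
  k31 3 (.s k37 k32 2 (.d k26 k58 k48 3 6)))), (.s k4 k8 1 (.s k5 k10 2 (.s k6 k7 0 (.s k9 k3 2 (.d
  k13 k14 k1 0 1))))), (.s k14 k13 0 (.s k47 k31 3 (.s k37 k32 2 (.s k26 k48 6 (.d k38 k50 k34 5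
  1)))))] .n) .n))))) (.c k29 (.q k41 [(.s k38 k34 1 (.s k44 k35 2 (.s k40 k43 0 (.s k32 k36 1 (.d
  k47 k45 k37 0 2))))), (.s k38 k34 1 (.s k35 k44 2 (.s k43 k40 0 (.s k3 k23 5 (.s k51 k19 3 (.s k25
  k12 6 (.d k59 k55 k8 1 4))))))), (.s k38 k34 1 (.s k44 k35 2 (.s k47 k45 0 (.s k15 k31 3 (.s k10
  k5 2 (.s k26 k58 3 (.d k37 k32 k48 2 6)))))))] (.c k17 (.q k25 [(.s k59 k8 4 (.s k38 k34 1 (.d k51
  k55 k12 1 6))), (.s k8 k59 4 (.s k9 k57 3 (.s k11 k10 0 (.s k56 k26 4 (.d k40 k43 k24 0 3))))),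
  (.s k9 k57 3 (.s k38 k34 1 (.s k12 k51 6 (.s k3 k6 2 (.d k43 k40 k23 0 5)))))] .n) (.c k25 (.q k17
  [(.d k34 k38 k51 1 4), (.s k43 k40 0 (.s k3 k23 5 (.s k1 k2 0 (.s k33 k49 3 (.s k37 k45 1 (.s k32
  k47 2 (.d k48 k16 k18 3 4)))))))] .n) (.c k32 (.q k25 [(.s k59 k8 4 (.s k34 k38 1 (.d k51 k55 k17
  1 4))), (.s k8 k59 4 (.s k9 k57 3 (.s k11 k10 0 (.s k56 k26 4 (.d k40 k43 k24 0 3))))), (.s k9 k57
  3 (.s k38 k34 1 (.s k12 k51 6 (.s k3 k6 2 (.d k43 k40 k23 0 5)))))] .n) (.c k34 (.q k25 [(.s k8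
  k59 4 (.s k9 k57 3 (.s k11 k10 0 (.s k56 k26 4 (.d k40 k43 k24 0 3))))), (.s k9 k57 3 (.s k43 k40
  0 (.s k3 k23 5 (.s k12 k6 2 (.s k22 k60 6 (.s k51 k38 6 (.d k19 k28 k35 2 3))))))), (.s k8 k59 4
  (.s k12 k4 1 (.s k38 k51 6 (.s k44 k35 2 (.s k60 k28 3 (.d k40 k43 k20 0 5)))))), (.s k8 k59 4 (.s
  k12 k4 1 (.s k9 k57 3 (.s k3 k6 2 (.s k1 k2 0 (.s k5 k13 1 (.d k10 k11 k15 0 2)))))))] .n) (.c k35
  (.q k25 [(.s k59 k8 4 (.s k34 k38 1 (.d k51 k55 k17 1 4))), (.s k8 k59 4 (.s k9 k57 3 (.s k11 k10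
  0 (.s k56 k26 4 (.d k40 k43 k24 0 3))))), (.s k9 k57 3 (.s k38 k34 1 (.s k12 k51 6 (.s k3 k6 2 (.d
  k43 k40 k23 0 5)))))] .n) (.c k38 (.q k25 [(.s k8 k59 4 (.s k9 k57 3 (.s k43 k40 0 (.s k3 k23 5
  (.d k12 k4 k6 1 2))))), (.s k59 k8 4 (.s k57 k9 3 (.s k58 k56 0 (.s k48 k53 2 (.s k32 k16 3 (.s
  k37 k47 2 (.d k26 k10 k15 3 6))))))), (.s k40 k43 0 (.s k60 k20 5 (.s k22 k3 6 (.s k28 k19 2 (.s
  k44 k12 3 (.s k32 k36 1 (.d k47 k37 k45 2 0)))))))] (.c k4 (.q k55 [(.d k59 k51 k8 1 4), (.s k43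
  k40 0 (.s k23 k3 5 (.s k39 k7 3 (.s k47 k35 1 (.s k37 k32 2 (.d k45 k44 k33 0 1))))))] (.c k51 (.l
  (.s k8 k59 4 (.s k9 k57 3 (.s k11 k10 0 (.s k56 k26 4 (.d k40 k43 k24 0 3)))))) .n)) (.c k9 (.l
  (.s k8 k59 4 (.s k40 k43 0 (.s k60 k20 5 (.s k22 k3 6 (.s k28 k19 2 (.d k12 k4 k44 1 3))))))) (.c
  k40 (.l (.s k8 k59 4 (.s k9 k57 3 (.s k10 k11 0 (.s k5 k15 2 (.s k1 k13 1 (.s k3 k2 0 (.d k12 k4
  k6 1 2)))))))) (.c k55 (.q k4 [(.d k8 k12 k59 1 4), (.s k9 k57 3 (.s k43 k40 0 (.s k3 k23 5 (.s k1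
  k2 0 (.s k5 k13 1 (.d k6 k7 k12 0 2))))))] (.c k12 (.l (.s k8 k59 4 (.s k9 k57 3 (.s k11 k10 0 (.s
  k56 k26 4 (.d k40 k43 k24 0 3)))))) .n)) .n))))) (.c k44 (.q k25 [(.s k59 k8 4 (.s k38 k34 1 (.d
  k51 k55 k12 1 6))), (.s k8 k59 4 (.s k9 k57 3 (.s k11 k10 0 (.s k56 k26 4 (.d k40 k43 k24 0
  3))))), (.s k9 k57 3 (.s k38 k34 1 (.s k12 k51 6 (.s k3 k6 2 (.d k43 k40 k23 0 5)))))] .n)
  .n)))))))) (.c k34 (.q k130 [(.s k195 k65 8 (.s k66 k2 7 (.s k192 k193 0 (.s k129 k3 8 (.d k128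
  k131 k64 0 7))))), (.s k195 k65 8 (.s k12 k29 4 (.s k4 k8 1 (.s k134 k73 10 (.s k69 k199 8 (.d
  k138 k142 k207 1 10)))))), (.s k2 k66 7 (.s k3 k1 0 (.s k12 k29 4 (.s k4 k8 1 (.s k6 k9 2 (.s k10
  k14 1 (.d k5 k7 k15 0 2)))))))] .n) (.c k38 (.q k15 [(.s k10 k5 2 (.s k47 k31 3 (.s k37 k32 2 (.d
  k26 k58 k48 3 6)))), (.s k5 k10 2 (.s k12 k29 4 (.s k4 k8 1 (.s k6 k7 0 (.s k9 k3 2 (.d k13 k14 k1
  0 1)))))), (.s k12 k29 4 (.s k13 k14 0 (.s k47 k31 3 (.s k37 k32 2 (.s k25 k49 5 (.d k8 k4 k59 1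
  4))))))] (.c k4 (.q k55 [(.s k47 k31 3 (.s k37 k32 2 (.s k26 k48 6 (.d k10 k5 k58 2 3)))), (.s k51
  k59 1 (.s k39 k27 5 (.s k23 k7 3 (.s k43 k3 5 (.d k47 k35 k31 1 3))))), (.s k10 k5 2 (.s k26 k58 3
  (.s k12 k29 4 (.s k13 k14 0 (.s k37 k48 6 (.s k25 k49 5 (.d k59 k51 k8 1 4)))))))] (.c k5 (.l (.s
  k47 k31 3 (.s k51 k59 1 (.s k39 k27 5 (.s k43 k35 1 (.d k23 k7 k3 3 5)))))) .n)) (.c k55 (.q k4
  [(.d k12 k8 k29 1 4), (.s k10 k5 2 (.s k26 k58 3 (.s k37 k48 6 (.d k47 k32 k31 2 3))))] .n) .n)))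
  (.c k51 (.q k130 [(.s k195 k65 8 (.s k66 k2 7 (.s k192 k193 0 (.s k128 k64 7 (.d k129 k131 k3 0
  8))))), (.s k195 k65 8 (.s k12 k29 4 (.s k4 k8 1 (.s k134 k73 10 (.s k69 k199 8 (.d k138 k142 k207
  1 10)))))), (.s k2 k66 7 (.s k3 k1 0 (.s k12 k29 4 (.s k4 k8 1 (.s k6 k9 2 (.s k10 k14 1 (.d k5 k7
  k15 0 2)))))))] .n) (.c k59 (.q k130 [(.s k195 k65 8 (.s k66 k2 7 (.s k192 k193 0 (.s k129 k3 8
  (.d k128 k131 k64 0 7))))), (.s k195 k65 8 (.s k12 k29 4 (.s k4 k8 1 (.s k134 k73 10 (.s k69 k199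
  8 (.d k138 k142 k207 1 10)))))), (.s k2 k66 7 (.s k3 k1 0 (.s k12 k29 4 (.s k4 k8 1 (.s k6 k9 2
  (.s k10 k14 1 (.d k5 k7 k15 0 2)))))))] (.c k153 (.q k200 [(.s k195 k65 8 (.s k66 k2 7 (.s k192
  k193 0 (.s k129 k3 8 (.d k128 k131 k64 0 7))))), (.s k195 k65 8 (.s k12 k29 4 (.s k4 k8 1 (.s k134
  k73 10 (.s k69 k199 8 (.d k138 k142 k207 1 10)))))), (.s k2 k66 7 (.s k3 k1 0 (.s k12 k29 4 (.s k4
  k8 1 (.s k6 k9 2 (.s k10 k14 1 (.d k5 k7 k15 0 2)))))))] (.c k147 (.q k156 [(.s k195 k65 8 (.s k66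
  k2 7 (.s k192 k193 0 (.s k129 k3 8 (.d k128 k131 k64 0 7))))), (.s k195 k65 8 (.s k12 k29 4 (.s k4
  k8 1 (.s k134 k73 10 (.s k69 k199 8 (.d k138 k142 k207 1 10)))))), (.s k2 k66 7 (.s k3 k1 0 (.s
  k12 k29 4 (.s k4 k8 1 (.s k6 k9 2 (.s k10 k14 1 (.d k5 k7 k15 0 2)))))))] .n) (.c k156 (.q k147
  [(.s k195 k65 8 (.s k51 k99 11 (.d k34 k38 k17 1 4))), (.s k2 k66 7 (.s k3 k1 0 (.s k12 k29 4 (.s
  k4 k8 1 (.s k6 k9 2 (.s k10 k14 1 (.d k5 k7 k15 0 2)))))))] (.c k17 (.l (.s k195 k65 8 (.s k38 k34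
  1 (.s k51 k99 11 (.d k12 k29 k25 4 6))))) .n)) .n))) (.c k200 (.q k153 [(.s k195 k65 8 (.s k66 k2
  7 (.s k192 k193 0 (.s k129 k3 8 (.d k128 k131 k64 0 7))))), (.s k195 k65 8 (.s k12 k29 4 (.s k4 k8
  1 (.s k134 k73 10 (.s k69 k199 8 (.d k138 k142 k207 1 10)))))), (.s k34 k38 1 (.s k51 k17 4 (.s
  k102 k204 14 (.s k170 k238 9 (.s k255 k85 14 (.d k187 k136 k119 4 9))))))] .n) .n))) .n)))))))))))
  (.c k194 (.q k62 [(.s k22 k2 5 (.s k60 k61 0 (.s k41 k3 6 (.d k40 k43 k20 0 5)))), (.s k12 k29 4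
  (.s k8 k4 1 (.s k25 k59 4 (.d k38 k34 k51 1 6))))] .n) .n))))))))))))))

def t151 : T TT 256 :=
  (.q k60 [(.s k40 k20 5 (.s k62 k61 0 (.s k42 k21 6 (.s k22 k2 5 (.d k41 k43 k3 0 6)))))] (.c k1
  (.l (.s k40 k20 5 (.s k42 k21 6 (.s k41 k43 0 (.s k22 k3 6 (.d k62 k61 k2 0 5)))))) (.c k2 (.l (.s
  k20 k40 5 (.s k21 k42 6 (.s k22 k23 0 (.s k41 k3 6 (.d k61 k62 k1 0 5)))))) (.c k3 (.q k48 [(.s
  k16 k32 3 (.s k20 k40 5 (.s k24 k28 1 (.s k52 k56 1 (.d k36 k4 k12 3 5))))), (.s k16 k32 3 (.s k21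
  k42 6 (.s k26 k31 2 (.s k37 k15 6 (.d k53 k58 k5 2 3))))), (.s k52 k56 1 (.s k53 k58 2 (.s k54 k55
  0 (.s k57 k51 2 (.d k61 k62 k49 0 1)))))] .n) (.c k20 (.q k48 [(.s k16 k32 3 (.s k21 k42 6 (.s k26
  k31 2 (.s k37 k15 6 (.d k53 k58 k5 2 3))))), (.s k52 k56 1 (.s k53 k58 2 (.s k54 k55 0 (.s k57 k51
  2 (.d k61 k62 k49 0 1))))), (.s k16 k32 3 (.s k21 k42 6 (.s k26 k31 2 (.s k56 k52 1 (.s k41 k11 4
  (.d k61 k62 k1 0 5))))))] .n) (.c k21 (.q k48 [(.s k16 k32 3 (.s k20 k40 5 (.s k24 k28 1 (.s k36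
  k12 5 (.d k52 k56 k4 1 3))))), (.s k52 k56 1 (.s k53 k58 2 (.s k54 k55 0 (.s k57 k51 2 (.d k61 k62
  k49 0 1)))))] (.c k4 (.l (.s k32 k16 3 (.s k40 k20 5 (.s k36 k44 1 (.s k24 k12 5 (.d k56 k52 k8 1
  3)))))) (.c k52 (.q k170 [(.s k16 k32 3 (.s k85 k255 14 (.s k154 k223 10 (.s k138 k186 3 (.d k207
  k69 k101 10 14))))), (.s k20 k40 5 (.s k85 k255 14 (.s k150 k215 8 (.s k195 k105 14 (.d k130 k190
  k65 5 8))))), (.s k32 k16 3 (.s k40 k20 5 (.s k101 k239 10 (.s k105 k235 8 (.s k97 k109 1 (.d k195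
  k146 k150 12 14))))))] .n) (.c k56 (.q k170 [(.s k16 k32 3 (.s k85 k255 14 (.s k154 k223 10 (.s
  k207 k101 14 (.d k138 k186 k69 3 10))))), (.s k20 k40 5 (.s k85 k255 14 (.s k150 k215 8 (.s k130
  k190 5 (.d k195 k65 k105 8 14))))), (.s k32 k16 3 (.s k40 k20 5 (.s k101 k239 10 (.s k105 k235 8
  (.s k97 k109 1 (.d k195 k146 k150 12 14))))))] .n) .n)))) (.c k22 (.q k48 [(.s k16 k32 3 (.s k20
  k40 5 (.s k52 k56 1 (.s k36 k4 3 (.d k24 k28 k12 1 5))))), (.s k16 k32 3 (.s k21 k42 6 (.s k26 k31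
  2 (.s k37 k15 6 (.d k53 k58 k5 2 3))))), (.s k52 k56 1 (.s k53 k58 2 (.s k54 k55 0 (.s k57 k51 2
  (.d k61 k62 k49 0 1)))))] .n) (.c k23 (.l (.s k40 k20 5 (.s k62 k61 0 (.s k42 k21 6 (.s k22 k2 5
  (.d k41 k43 k3 0 6)))))) (.c k40 (.q k48 [(.s k32 k16 3 (.s k58 k53 2 (.s k42 k21 6 (.s k26 k10 3
  (.d k37 k47 k15 2 6))))), (.s k52 k56 1 (.s k53 k58 2 (.s k54 k55 0 (.s k57 k51 2 (.d k61 k62 k49
  0 1))))), (.s k16 k32 3 (.s k21 k42 6 (.s k26 k31 2 (.s k56 k52 1 (.s k41 k11 4 (.d k61 k62 k1 0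
  5))))))] .n) (.c k41 (.q k48 [(.s k16 k32 3 (.s k20 k40 5 (.s k24 k28 1 (.s k36 k12 5 (.d k52 k56
  k4 1 3))))), (.s k52 k56 1 (.s k53 k58 2 (.s k54 k55 0 (.s k57 k51 2 (.d k61 k62 k49 0 1))))), (.s
  k16 k32 3 (.s k21 k42 6 (.s k26 k31 2 (.s k37 k15 6 (.d k53 k58 k5 2 3)))))] .n) (.c k42 (.q k170
  [(.s k40 k20 5 (.s k255 k85 14 (.s k105 k235 8 (.s k150 k195 14 (.d k190 k130 k125 5 8))))), (.s
  k255 k85 14 (.s k61 k62 0 (.s k125 k190 8 (.s k189 k253 7 (.s k126 k252 8 (.d k127 k124 k191 0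
  7)))))), (.s k20 k40 5 (.s k85 k255 14 (.s k150 k215 8 (.s k195 k105 14 (.d k130 k190 k65 5
  8)))))] (.c k85 (.q k127 [(.s k40 k20 5 (.s k105 k235 8 (.s k150 k195 14 (.s k255 k191 7 (.d k190
  k130 k125 5 8))))), (.s k255 k191 7 (.s k125 k190 8 (.s k126 k124 0 (.s k189 k252 8 (.d k61 k62
  k253 0 7))))), (.s k40 k20 5 (.s k105 k235 8 (.s k61 k62 0 (.s k149 k193 13 (.d k191 k128 k255 6
  7)))))] (.c k191 (.l (.s k40 k20 5 (.s k105 k235 8 (.s k62 k61 0 (.s k150 k195 14 (.s k190 k130 5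
  (.s k126 k254 7 (.d k125 k255 k124 8 0)))))))) (.c k255 (.q k48 [(.s k16 k32 3 (.s k20 k40 5 (.s
  k24 k28 1 (.s k52 k56 1 (.d k36 k4 k12 3 5))))), (.s k52 k56 1 (.s k53 k58 2 (.s k54 k55 0 (.s k57
  k51 2 (.d k61 k62 k49 0 1))))), (.s k32 k16 3 (.s k40 k20 5 (.s k101 k239 10 (.s k105 k235 8 (.s
  k97 k109 1 (.d k195 k150 k146 14 12))))))] .n) .n))) (.c k150 (.l (.s k255 k85 14 (.s k62 k61 0
  (.s k190 k125 8 (.s k126 k254 7 (.s k189 k252 8 (.d k191 k127 k188 7 0))))))) (.c k190 (.l (.s k40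
  k20 5 (.s k85 k255 14 (.s k105 k235 8 (.s k195 k150 14 (.d k65 k125 k130 5 8)))))) (.c k255 (.q
  k48 [(.s k32 k16 3 (.s k40 k20 5 (.s k36 k44 1 (.s k24 k12 5 (.d k56 k52 k8 1 3))))), (.s k52 k56
  1 (.s k53 k58 2 (.s k54 k55 0 (.s k57 k51 2 (.d k61 k62 k49 0 1))))), (.s k32 k16 3 (.s k40 k20 5
  (.s k101 k239 10 (.s k105 k235 8 (.s k207 k154 14 (.d k109 k97 k158 1 12))))))] .n) .n))))) (.c
  k43 (.l (.s k20 k40 5 (.s k61 k62 0 (.s k21 k42 6 (.s k41 k1 5 (.d k22 k23 k3 0 6)))))) (.c k61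
  (.q k48 [(.s k16 k32 3 (.s k20 k40 5 (.s k24 k28 1 (.s k36 k12 5 (.d k52 k56 k4 1 3))))), (.s k16
  k32 3 (.s k21 k42 6 (.s k26 k31 2 (.s k37 k15 6 (.d k53 k58 k5 2 3))))), (.s k20 k40 5 (.s k21 k42
  6 (.s k22 k23 0 (.s k52 k56 1 (.s k37 k7 4 (.d k53 k58 k5 2 3))))))] .n) (.c k62 (.q k48 [(.s k16
  k32 3 (.s k20 k40 5 (.s k24 k28 1 (.s k36 k12 5 (.d k52 k56 k4 1 3))))), (.s k16 k32 3 (.s k21 k42
  6 (.s k26 k31 2 (.s k37 k15 6 (.d k53 k58 k5 2 3))))), (.s k20 k40 5 (.s k21 k42 6 (.s k22 k23 0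
  (.s k52 k56 1 (.s k37 k7 4 (.d k53 k58 k5 2 3))))))] (.c k150 (.q k194 [(.s k16 k32 3 (.s k20 k40
  5 (.s k52 k56 1 (.s k36 k4 3 (.d k24 k28 k12 1 5))))), (.s k16 k32 3 (.s k21 k42 6 (.s k26 k31 2
  (.s k37 k15 6 (.d k53 k58 k5 2 3))))), (.s k20 k40 5 (.s k21 k42 6 (.s k22 k23 0 (.s k52 k56 1 (.s
  k37 k7 4 (.d k53 k58 k5 2 3))))))] (.c k148 (.q k149 [(.s k16 k32 3 (.s k20 k40 5 (.s k52 k56 1
  (.s k36 k4 3 (.d k24 k28 k12 1 5))))), (.s k16 k32 3 (.s k21 k42 6 (.s k26 k31 2 (.s k37 k15 6 (.d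
  k53 k58 k5 2 3))))), (.s k20 k40 5 (.s k21 k42 6 (.s k22 k23 0 (.s k52 k56 1 (.s k37 k7 4 (.d k53
  k58 k5 2 3))))))] .n) (.c k149 (.q k148 [(.s k16 k32 3 (.s k20 k40 5 (.s k52 k56 1 (.s k36 k4 3
  (.d k24 k28 k12 1 5))))), (.s k16 k32 3 (.s k21 k42 6 (.s k26 k31 2 (.s k37 k15 6 (.d k53 k58 k5 2
  3))))), (.s k20 k40 5 (.s k84 k212 7 (.s k168 k252 13 (.s k192 k104 13 (.d k128 k188 k64 5 7)))))]
  .n) .n))) (.c k194 (.q k150 [(.s k16 k32 3 (.s k20 k40 5 (.s k24 k28 1 (.s k36 k12 5 (.d k52 k56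
  k4 1 3))))), (.s k16 k32 3 (.s k21 k42 6 (.s k26 k31 2 (.s k37 k15 6 (.d k53 k58 k5 2 3))))), (.s
  k20 k40 5 (.s k85 k215 8 (.s k170 k255 14 (.s k195 k105 14 (.d k130 k190 k65 5 8)))))] .n) .n)))
  .n))))))))))))))

def t154 : T TT 256 :=
  (.f k42 k21 6 (.q k58 [(.s k26 k10 3 (.s k48 k53 2 (.s k37 k15 6 (.d k32 k47 k16 2 3))))] (.c k5
  (.l (.s k26 k10 3 (.s k48 k53 2 (.s k37 k15 6 (.d k32 k47 k16 2 3))))) (.c k10 (.q k60 [(.s k40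
  k20 5 (.s k41 k43 0 (.s k22 k3 6 (.d k62 k61 k2 0 5)))), (.s k48 k53 2 (.s k56 k52 1 (.s k57 k59 0
  (.s k54 k51 2 (.d k62 k61 k50 0 1))))), (.s k40 k20 5 (.s k48 k53 2 (.s k56 k52 1 (.s k8 k24 3 (.d
  k59 k57 k25 0 4)))))] .n) (.c k15 (.q k60 [(.s k62 k61 0 (.s k40 k20 5 (.s k22 k2 5 (.d k41 k43 k3
  0 6)))), (.s k48 k53 2 (.s k56 k52 1 (.s k57 k59 0 (.s k54 k51 2 (.d k62 k61 k50 0 1))))), (.s k40
  k20 5 (.s k26 k10 3 (.s k41 k43 0 (.s k56 k11 4 (.d k48 k52 k53 1 2)))))] .n) (.c k16 (.f k26 k10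
  3 (.q k2 [(.s k3 k1 0 (.s k43 k23 5 (.s k41 k40 0 (.d k22 k62 k60 5 6)))), (.s k62 k22 5 (.s k50
  k54 1 (.s k34 k18 3 (.d k38 k46 k14 1 5)))), (.s k3 k1 0 (.s k48 k53 2 (.s k33 k18 4 (.s k37 k15 6
  (.s k41 k45 1 (.d k43 k40 k23 0 5))))))] (.c k23 (.l (.s k3 k1 0 (.s k22 k62 5 (.s k18 k30 1 (.d
  k48 k53 k33 2 4))))) (.c k85 (.q k223 [(.s k3 k1 0 (.s k43 k23 5 (.s k41 k40 0 (.d k22 k62 k60 5
  6)))), (.s k62 k22 5 (.s k50 k54 1 (.s k34 k18 3 (.d k38 k46 k14 1 5)))), (.s k3 k1 0 (.s k48 k53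
  2 (.s k33 k18 4 (.s k37 k15 6 (.s k41 k45 1 (.d k43 k40 k23 0 5))))))] (.c k23 (.l (.s k3 k1 0 (.s
  k22 k62 5 (.s k18 k30 1 (.d k48 k53 k33 2 4))))) (.c k64 (.q k127 [(.s k3 k1 0 (.s k43 k23 5 (.s
  k41 k40 0 (.d k22 k62 k60 5 6)))), (.s k62 k22 5 (.s k50 k54 1 (.s k34 k18 3 (.d k38 k46 k14 1
  5)))), (.s k3 k1 0 (.s k23 k43 5 (.s k255 k191 7 (.s k87 k171 13 (.s k151 k215 7 (.d k107 k67 k195
  5 13)))))), (.s k3 k1 0 (.s k22 k62 5 (.s k18 k30 1 (.d k48 k53 k33 2 4))))] (.c k149 (.q k213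
  [(.s k3 k1 0 (.s k22 k62 5 (.s k41 k60 6 (.d k43 k40 k23 0 5)))), (.s k62 k22 5 (.s k50 k54 1 (.s
  k34 k18 3 (.d k38 k46 k14 1 5)))), (.s k3 k1 0 (.s k23 k43 5 (.s k255 k191 7 (.s k87 k171 13 (.s
  k151 k215 7 (.d k107 k67 k195 5 13))))))] (.c k23 (.l (.s k3 k1 0 (.s k22 k62 5 (.s k18 k30 1 (.d
  k48 k53 k33 2 4))))) (.c k144 (.q k159 [(.s k95 k31 7 (.d k111 k79 k207 3 11)), (.s k207 k111 11
  (.d k255 k239 k191 3 7)), (.s k31 k95 7 (.s k15 k47 3 (.d k48 k53 k37 2 6)))] (.c k80 (.l (.s k208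
  k218 2 (.s k95 k31 7 (.d k111 k79 k207 3 11)))) (.c k208 (.q k80 [(.s k111 k207 11 (.d k95 k31 k79
  7 3)), (.s k31 k95 7 (.s k15 k47 3 (.d k48 k53 k37 2 6))), (.s k207 k111 11 (.d k255 k239 k191 3
  7))] (.c k31 (.q k90 [(.s k207 k111 11 (.d k255 k239 k191 3 7)), (.s k240 k160 11 (.s k15 k165 14
  (.d k48 k53 k37 2 6)))] .n) (.c k90 (.l (.s k31 k95 7 (.s k15 k47 3 (.d k48 k53 k37 2 6)))) .n)))
  .n))) (.c k159 (.q k144 [(.s k255 k191 7 (.s k192 k234 6 (.d k48 k53 k96 2 11))), (.s k3 k1 0 (.s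
  k22 k62 5 (.s k41 k60 6 (.d k43 k40 k23 0 5))))] .n) .n)))) (.c k213 (.q k149 [(.s k3 k1 0 (.s k43
  k23 5 (.s k41 k40 0 (.d k22 k62 k60 5 6)))), (.s k62 k22 5 (.s k50 k54 1 (.s k34 k18 3 (.d k38 k46
  k14 1 5)))), (.s k3 k1 0 (.s k23 k43 5 (.s k86 k212 8 (.s k170 k254 13 (.d k191 k128 k255 6
  7)))))] (.c k23 (.l (.s k3 k1 0 (.s k22 k62 5 (.s k18 k30 1 (.d k48 k53 k33 2 4))))) .n)) .n)))
  (.c k127 (.q k64 [(.s k3 k1 0 (.s k43 k23 5 (.s k41 k40 0 (.d k22 k62 k60 5 6)))), (.s k62 k22 5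
  (.s k50 k54 1 (.s k34 k18 3 (.d k38 k46 k14 1 5)))), (.s k3 k1 0 (.s k192 k128 7 (.s k66 k129 8
  (.s k65 k67 0 (.d k130 k194 k195 7 8)))))] (.c k149 (.q k213 [(.s k3 k1 0 (.s k22 k62 5 (.s k41
  k60 6 (.d k43 k40 k23 0 5)))), (.s k62 k22 5 (.s k50 k54 1 (.s k34 k18 3 (.d k38 k46 k14 1 5)))),
  (.s k3 k1 0 (.s k192 k128 7 (.s k66 k129 8 (.s k65 k67 0 (.d k130 k194 k195 7 8)))))] (.c k144 (.q
  k159 [(.s k192 k128 7 (.s k255 k234 6 (.d k207 k239 k111 3 11))), (.s k3 k1 0 (.s k22 k62 5 (.s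
  k41 k60 6 (.d k43 k40 k23 0 5))))] (.c k80 (.l (.s k208 k218 2 (.s k192 k128 7 (.s k207 k111 11
  (.d k255 k239 k234 3 6))))) (.c k208 (.q k80 [(.s k31 k95 7 (.s k15 k47 3 (.d k48 k53 k37 2 6))),
  (.s k192 k128 7 (.s k255 k234 6 (.d k207 k239 k111 3 11)))] (.c k31 (.q k90 [(.s k192 k128 7 (.s
  k255 k234 6 (.d k207 k239 k111 3 11))), (.s k48 k53 2 (.s k112 k96 3 (.d k240 k176 k160 7 11))),
  (.s k207 k111 11 (.s k255 k239 3 (.d k192 k234 k128 6 7)))] (.c k111 (.l (.s k240 k160 11 (.s k15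
  k165 14 (.d k48 k53 k37 2 6)))) .n)) (.c k90 (.l (.s k31 k95 7 (.s k15 k47 3 (.d k48 k53 k37 2
  6)))) (.c k111 (.l (.s k240 k160 11 (.s k48 k53 2 (.d k112 k176 k96 7 3)))) .n)))) .n))) (.c k159
  (.q k144 [(.s k192 k128 7 (.d k48 k53 k96 2 11)), (.s k3 k1 0 (.s k22 k62 5 (.s k41 k60 6 (.d k43
  k40 k23 0 5))))] .n) .n))) (.c k213 (.q k149 [(.s k3 k1 0 (.s k43 k23 5 (.s k41 k40 0 (.d k22 k62
  k60 5 6)))), (.s k62 k22 5 (.s k50 k54 1 (.s k34 k18 3 (.d k38 k46 k14 1 5)))), (.s k3 k1 0 (.s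
  k128 k192 7 (.s k23 k43 5 (.s k86 k212 8 (.d k170 k191 k254 6 13)))))] (.c k23 (.l (.s k3 k1 0 (.s
  k22 k62 5 (.s k18 k30 1 (.d k48 k53 k33 2 4))))) .n)) .n))) (.c k149 (.q k213 [(.s k3 k1 0 (.s k22
  k62 5 (.s k41 k60 6 (.d k43 k40 k23 0 5)))), (.s k62 k22 5 (.s k50 k54 1 (.s k34 k18 3 (.d k38 k46
  k14 1 5)))), (.s k3 k1 0 (.s k48 k53 2 (.s k33 k18 4 (.s k37 k15 6 (.s k41 k45 1 (.d k43 k40 k23 0
  5))))))] (.c k23 (.l (.s k3 k1 0 (.s k22 k62 5 (.s k18 k30 1 (.d k48 k53 k33 2 4))))) (.c k64 (.q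
  k127 [(.s k3 k1 0 (.s k22 k62 5 (.s k41 k60 6 (.d k43 k40 k23 0 5)))), (.s k62 k22 5 (.s k50 k54 1
  (.s k34 k18 3 (.d k38 k46 k14 1 5)))), (.s k3 k1 0 (.s k23 k43 5 (.s k255 k191 7 (.s k87 k171 13
  (.s k151 k215 7 (.d k107 k67 k195 5 13))))))] (.c k23 (.l (.s k3 k1 0 (.s k22 k62 5 (.s k18 k30 1
  (.d k48 k53 k33 2 4))))) (.c k144 (.q k159 [(.s k95 k31 7 (.d k111 k79 k207 3 11)), (.s k207 k111
  11 (.d k255 k239 k191 3 7)), (.s k31 k95 7 (.s k15 k47 3 (.d k48 k53 k37 2 6)))] (.c k80 (.l (.s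
  k208 k218 2 (.s k95 k31 7 (.d k111 k79 k207 3 11)))) (.c k208 (.q k80 [(.s k111 k207 11 (.d k95
  k31 k79 7 3)), (.s k31 k95 7 (.s k15 k47 3 (.d k48 k53 k37 2 6))), (.s k207 k111 11 (.d k255 k239
  k191 3 7))] (.c k31 (.q k90 [(.s k207 k111 11 (.d k255 k239 k191 3 7)), (.s k240 k160 11 (.s k15
  k165 14 (.d k48 k53 k37 2 6)))] .n) (.c k90 (.l (.s k31 k95 7 (.s k15 k47 3 (.d k48 k53 k37 2
  6)))) .n))) .n))) (.c k159 (.q k144 [(.s k255 k191 7 (.s k192 k234 6 (.d k48 k53 k96 2 11))), (.s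
  k3 k1 0 (.s k22 k62 5 (.s k41 k60 6 (.d k43 k40 k23 0 5))))] .n) .n)))) (.c k127 (.q k64 [(.s k3
  k1 0 (.s k22 k62 5 (.s k41 k60 6 (.d k43 k40 k23 0 5)))), (.s k62 k22 5 (.s k50 k54 1 (.s k34 k18
  3 (.d k38 k46 k14 1 5)))), (.s k3 k1 0 (.s k192 k128 7 (.s k66 k129 8 (.s k65 k67 0 (.d k130 k194
  k195 7 8)))))] (.c k144 (.q k159 [(.s k192 k128 7 (.s k255 k234 6 (.d k207 k239 k111 3 11))), (.s
  k3 k1 0 (.s k22 k62 5 (.s k41 k60 6 (.d k43 k40 k23 0 5))))] (.c k80 (.l (.s k208 k218 2 (.s k192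
  k128 7 (.s k207 k111 11 (.d k255 k239 k234 3 6))))) (.c k208 (.q k80 [(.s k31 k95 7 (.s k15 k47 3
  (.d k48 k53 k37 2 6))), (.s k192 k128 7 (.s k255 k234 6 (.d k207 k239 k111 3 11)))] (.c k31 (.q
  k90 [(.s k192 k128 7 (.s k255 k234 6 (.d k207 k239 k111 3 11))), (.s k48 k53 2 (.s k112 k96 3 (.d
  k240 k176 k160 7 11))), (.s k207 k111 11 (.s k255 k239 3 (.d k192 k234 k128 6 7)))] (.c k111 (.l
  (.s k240 k160 11 (.s k15 k165 14 (.d k48 k53 k37 2 6)))) .n)) (.c k90 (.l (.s k31 k95 7 (.s k15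
  k47 3 (.d k48 k53 k37 2 6)))) (.c k111 (.l (.s k240 k160 11 (.s k48 k53 2 (.d k112 k176 k96 7
  3)))) .n)))) .n))) (.c k159 (.q k144 [(.s k192 k128 7 (.d k48 k53 k96 2 11)), (.s k3 k1 0 (.s k22
  k62 5 (.s k41 k60 6 (.d k43 k40 k23 0 5))))] .n) .n))) (.c k144 (.q k159 [(.s k31 k95 7 (.s k15
  k47 3 (.d k48 k53 k37 2 6))), (.s k3 k1 0 (.s k22 k62 5 (.s k41 k60 6 (.d k43 k40 k23 0 5))))] (.c
  k64 (.q k127 [(.s k95 k31 7 (.d k111 k79 k207 3 11)), (.s k207 k111 11 (.d k255 k239 k191 3 7)),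
  (.s k31 k95 7 (.s k15 k47 3 (.d k48 k53 k37 2 6)))] (.c k80 (.l (.s k208 k218 2 (.s k95 k31 7 (.d
  k111 k79 k207 3 11)))) (.c k208 (.q k80 [(.s k111 k207 11 (.d k95 k31 k79 7 3)), (.s k31 k95 7 (.s
  k15 k47 3 (.d k48 k53 k37 2 6))), (.s k207 k111 11 (.d k255 k239 k191 3 7))] (.c k31 (.q k90 [(.s
  k207 k111 11 (.d k255 k239 k191 3 7)), (.s k240 k160 11 (.s k15 k165 14 (.d k48 k53 k37 2 6)))]
  .n) (.c k90 (.l (.s k31 k95 7 (.s k15 k47 3 (.d k48 k53 k37 2 6)))) .n))) .n))) (.c k80 (.l (.s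
  k208 k218 2 (.s k3 k1 0 (.s k22 k62 5 (.s k41 k60 6 (.d k43 k40 k23 0 5)))))) (.c k127 (.q k64
  [(.s k192 k128 7 (.s k255 k234 6 (.d k207 k239 k111 3 11))), (.s k3 k1 0 (.s k22 k62 5 (.s k41 k60
  6 (.d k43 k40 k23 0 5))))] (.c k80 (.l (.s k208 k218 2 (.s k192 k128 7 (.s k207 k111 11 (.d k255
  k239 k234 3 6))))) (.c k208 (.q k80 [(.s k31 k95 7 (.s k15 k47 3 (.d k48 k53 k37 2 6))), (.s k192
  k128 7 (.s k255 k234 6 (.d k207 k239 k111 3 11)))] (.c k31 (.q k90 [(.s k192 k128 7 (.s k255 k234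
  6 (.d k207 k239 k111 3 11))), (.s k48 k53 2 (.s k112 k96 3 (.d k240 k176 k160 7 11))), (.s k207
  k111 11 (.s k255 k239 3 (.d k192 k234 k128 6 7)))] (.c k111 (.l (.s k240 k160 11 (.s k15 k165 14
  (.d k48 k53 k37 2 6)))) .n)) (.c k90 (.l (.s k31 k95 7 (.s k15 k47 3 (.d k48 k53 k37 2 6)))) (.c
  k111 (.l (.s k240 k160 11 (.s k48 k53 2 (.d k112 k176 k96 7 3)))) .n)))) .n))) (.c k208 (.q k80
  [(.s k31 k95 7 (.s k15 k47 3 (.d k48 k53 k37 2 6))), (.s k3 k1 0 (.s k22 k62 5 (.s k41 k60 6 (.d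
  k43 k40 k23 0 5))))] (.c k31 (.q k90 [(.s k240 k160 11 (.s k48 k53 2 (.d k15 k37 k165 6 14))), (.s
  k3 k1 0 (.s k22 k62 5 (.s k41 k60 6 (.d k43 k40 k23 0 5))))] (.c k64 (.q k127 [(.s k207 k111 11
  (.d k255 k239 k191 3 7)), (.s k240 k160 11 (.s k15 k165 14 (.d k48 k53 k37 2 6)))] .n) (.c k127
  (.q k64 [(.s k192 k128 7 (.s k255 k234 6 (.d k207 k239 k111 3 11))), (.s k48 k53 2 (.s k112 k96 3
  (.d k240 k176 k160 7 11))), (.s k207 k111 11 (.s k255 k239 3 (.d k192 k234 k128 6 7)))] (.c k111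
  (.l (.s k240 k160 11 (.s k15 k165 14 (.d k48 k53 k37 2 6)))) .n)) .n))) (.c k64 (.q k127 [(.s k111
  k207 11 (.d k95 k31 k79 7 3)), (.s k31 k95 7 (.s k15 k47 3 (.d k48 k53 k37 2 6))), (.s k207 k111
  11 (.d k255 k239 k191 3 7))] (.c k31 (.q k90 [(.s k207 k111 11 (.d k255 k239 k191 3 7)), (.s k240
  k160 11 (.s k15 k165 14 (.d k48 k53 k37 2 6)))] .n) (.c k90 (.l (.s k31 k95 7 (.s k15 k47 3 (.d
  k48 k53 k37 2 6)))) .n))) (.c k90 (.l (.s k31 k95 7 (.s k15 k47 3 (.d k48 k53 k37 2 6)))) (.c k127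
  (.q k64 [(.s k31 k95 7 (.s k15 k47 3 (.d k48 k53 k37 2 6))), (.s k192 k128 7 (.s k255 k234 6 (.d
  k207 k239 k111 3 11)))] (.c k31 (.q k90 [(.s k192 k128 7 (.s k255 k234 6 (.d k207 k239 k111 3
  11))), (.s k48 k53 2 (.s k112 k96 3 (.d k240 k176 k160 7 11))), (.s k207 k111 11 (.s k255 k239 3
  (.d k192 k234 k128 6 7)))] (.c k111 (.l (.s k240 k160 11 (.s k15 k165 14 (.d k48 k53 k37 2 6))))
  .n)) (.c k90 (.l (.s k31 k95 7 (.s k15 k47 3 (.d k48 k53 k37 2 6)))) (.c k111 (.l (.s k240 k160 11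
  (.s k48 k53 2 (.d k112 k176 k96 7 3)))) .n)))) .n))))) .n))))) (.c k159 (.q k144 [(.s k3 k1 0 (.s
  k22 k62 5 (.s k41 k60 6 (.d k43 k40 k23 0 5)))), (.s k62 k22 5 (.s k50 k54 1 (.s k34 k18 3 (.d k38
  k46 k14 1 5)))), (.s k3 k1 0 (.s k48 k53 2 (.s k33 k18 4 (.s k37 k15 6 (.s k41 k45 1 (.d k43 k40
  k23 0 5))))))] (.c k23 (.l (.s k3 k1 0 (.s k22 k62 5 (.s k18 k30 1 (.d k48 k53 k33 2 4))))) (.c
  k64 (.q k127 [(.s k255 k191 7 (.s k192 k234 6 (.d k48 k53 k96 2 11))), (.s k3 k1 0 (.s k22 k62 5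
  (.s k41 k60 6 (.d k43 k40 k23 0 5))))] .n) (.c k127 (.q k64 [(.s k192 k128 7 (.d k48 k53 k96 2
  11)), (.s k3 k1 0 (.s k22 k62 5 (.s k41 k60 6 (.d k43 k40 k23 0 5))))] .n) .n)))) .n)))))) (.c
  k213 (.q k149 [(.s k3 k1 0 (.s k43 k23 5 (.s k41 k40 0 (.d k22 k62 k60 5 6)))), (.s k62 k22 5 (.s
  k50 k54 1 (.s k34 k18 3 (.d k38 k46 k14 1 5)))), (.s k3 k1 0 (.s k48 k53 2 (.s k33 k18 4 (.s k37
  k15 6 (.s k41 k45 1 (.d k43 k40 k23 0 5))))))] (.c k23 (.l (.s k3 k1 0 (.s k22 k62 5 (.s k18 k30 1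
  (.d k48 k53 k33 2 4))))) (.c k64 (.q k127 [(.s k3 k1 0 (.s k43 k23 5 (.s k41 k40 0 (.d k22 k62 k60
  5 6)))), (.s k62 k22 5 (.s k50 k54 1 (.s k34 k18 3 (.d k38 k46 k14 1 5)))), (.s k3 k1 0 (.s k23
  k43 5 (.s k86 k212 8 (.s k170 k254 13 (.d k191 k128 k255 6 7)))))] (.c k23 (.l (.s k3 k1 0 (.s k22
  k62 5 (.s k18 k30 1 (.d k48 k53 k33 2 4))))) .n)) (.c k127 (.q k64 [(.s k3 k1 0 (.s k43 k23 5 (.s
  k41 k40 0 (.d k22 k62 k60 5 6)))), (.s k62 k22 5 (.s k50 k54 1 (.s k34 k18 3 (.d k38 k46 k14 1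
  5)))), (.s k3 k1 0 (.s k128 k192 7 (.s k23 k43 5 (.s k86 k212 8 (.d k170 k191 k254 6 13)))))] (.c
  k23 (.l (.s k3 k1 0 (.s k22 k62 5 (.s k18 k30 1 (.d k48 k53 k33 2 4))))) .n)) .n)))) .n)))))) (.c
  k223 (.q k85 [(.s k3 k1 0 (.s k43 k23 5 (.s k41 k40 0 (.d k22 k62 k60 5 6)))), (.s k62 k22 5 (.s
  k50 k54 1 (.s k34 k18 3 (.d k38 k46 k14 1 5)))), (.s k3 k1 0 (.s k170 k255 14 (.s k86 k254 13 (.s
  k252 k169 14 (.d k84 k87 k168 0 13)))))] .n) .n))))) (.c k26 (.f k48 k53 2 (.f k16 k32 3 (.q k2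
  [(.s k3 k1 0 (.s k22 k62 5 (.s k41 k60 6 (.d k43 k40 k23 0 5)))), (.s k62 k22 5 (.s k50 k54 1 (.s
  k51 k49 0 (.d k34 k18 k17 3 4)))), (.s k3 k1 0 (.s k18 k33 4 (.s k34 k50 3 (.d k17 k19 k51 0
  4))))] (.c k5 (.q k37 [(.s k3 k1 0 (.s k22 k62 5 (.s k41 k60 6 (.d k43 k40 k23 0 5)))), (.s k62
  k22 5 (.s k50 k54 1 (.s k51 k49 0 (.d k34 k18 k17 3 4)))), (.s k3 k1 0 (.s k18 k33 4 (.s k34 k50 3
  (.d k17 k19 k51 0 4))))] (.c k61 (.l (.s k22 k62 5 (.s k3 k1 0 (.s k41 k60 6 (.d k33 k45 k18 1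
  4))))) (.c k90 (.q k218 [(.s k3 k1 0 (.s k22 k62 5 (.s k41 k60 6 (.d k43 k40 k23 0 5)))), (.s k62
  k22 5 (.s k50 k54 1 (.s k51 k49 0 (.d k34 k18 k17 3 4)))), (.s k3 k1 0 (.s k18 k33 4 (.s k34 k50 3
  (.d k17 k19 k51 0 4))))] (.c k61 (.l (.s k22 k62 5 (.s k3 k1 0 (.s k41 k60 6 (.d k33 k45 k18 1
  4))))) (.c k74 (.q k122 [(.s k3 k1 0 (.s k22 k62 5 (.s k41 k60 6 (.d k43 k40 k23 0 5)))), (.s k62
  k22 5 (.s k50 k54 1 (.s k51 k49 0 (.d k34 k18 k17 3 4)))), (.s k3 k1 0 (.s k18 k33 4 (.s k34 k50 3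
  (.d k17 k19 k51 0 4))))] (.c k61 (.l (.s k22 k62 5 (.s k3 k1 0 (.s k41 k60 6 (.d k33 k45 k18 1
  4))))) .n)) (.c k122 (.q k74 [(.s k3 k1 0 (.s k22 k62 5 (.s k41 k60 6 (.d k43 k40 k23 0 5)))), (.s
  k62 k22 5 (.s k50 k54 1 (.s k51 k49 0 (.d k34 k18 k17 3 4)))), (.s k3 k1 0 (.s k18 k33 4 (.s k34
  k50 3 (.d k17 k19 k51 0 4))))] (.c k61 (.l (.s k22 k62 5 (.s k3 k1 0 (.s k41 k60 6 (.d k33 k45 k18
  1 4))))) .n)) .n)))) (.c k218 (.q k90 [(.s k3 k1 0 (.s k22 k62 5 (.s k41 k60 6 (.d k43 k40 k23 0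
  5)))), (.s k62 k22 5 (.s k50 k54 1 (.s k51 k49 0 (.d k34 k18 k17 3 4)))), (.s k3 k1 0 (.s k18 k33
  4 (.s k34 k50 3 (.d k17 k19 k51 0 4))))] (.c k61 (.l (.s k22 k62 5 (.s k3 k1 0 (.s k41 k60 6 (.d
  k33 k45 k18 1 4))))) .n)) .n)))) (.c k37 (.q k5 [(.s k3 k1 0 (.s k22 k62 5 (.s k41 k60 6 (.d k43
  k40 k23 0 5)))), (.s k62 k22 5 (.s k50 k54 1 (.s k51 k49 0 (.d k34 k18 k17 3 4)))), (.s k3 k1 0
  (.s k18 k33 4 (.s k34 k50 3 (.d k17 k19 k51 0 4))))] (.c k61 (.l (.s k22 k62 5 (.s k3 k1 0 (.s k41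
  k60 6 (.d k43 k40 k23 0 5))))) (.c k90 (.q k218 [(.s k3 k1 0 (.s k22 k62 5 (.s k41 k60 6 (.d k43
  k40 k23 0 5)))), (.s k62 k22 5 (.s k50 k54 1 (.s k51 k49 0 (.d k34 k18 k17 3 4)))), (.s k3 k1 0
  (.s k18 k33 4 (.s k34 k50 3 (.d k17 k19 k51 0 4))))] (.c k61 (.l (.s k22 k62 5 (.s k3 k1 0 (.s k41
  k60 6 (.d k43 k40 k23 0 5))))) (.c k74 (.q k122 [(.s k3 k1 0 (.s k22 k62 5 (.s k41 k60 6 (.d k43
  k40 k23 0 5)))), (.s k62 k22 5 (.s k50 k54 1 (.s k51 k49 0 (.d k34 k18 k17 3 4)))), (.s k3 k1 0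
  (.s k18 k33 4 (.s k34 k50 3 (.d k17 k19 k51 0 4))))] (.c k61 (.l (.s k22 k62 5 (.s k3 k1 0 (.s k41
  k60 6 (.d k43 k40 k23 0 5))))) .n)) (.c k122 (.q k74 [(.s k3 k1 0 (.s k22 k62 5 (.s k41 k60 6 (.d
  k43 k40 k23 0 5)))), (.s k62 k22 5 (.s k50 k54 1 (.s k51 k49 0 (.d k34 k18 k17 3 4)))), (.s k3 k1
  0 (.s k18 k33 4 (.s k34 k50 3 (.d k17 k19 k51 0 4))))] (.c k61 (.l (.s k22 k62 5 (.s k3 k1 0 (.s
  k41 k60 6 (.d k43 k40 k23 0 5))))) .n)) .n)))) (.c k218 (.q k90 [(.s k3 k1 0 (.s k22 k62 5 (.s k41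
  k60 6 (.d k43 k40 k23 0 5)))), (.s k62 k22 5 (.s k50 k54 1 (.s k51 k49 0 (.d k34 k18 k17 3 4)))),
  (.s k3 k1 0 (.s k18 k33 4 (.s k34 k50 3 (.d k17 k19 k51 0 4))))] (.c k61 (.l (.s k22 k62 5 (.s k3
  k1 0 (.s k41 k60 6 (.d k43 k40 k23 0 5))))) .n)) .n)))) (.c k61 (.l (.s k22 k62 5 (.s k3 k1 0 (.s
  k41 k60 6 (.d k43 k40 k23 0 5))))) (.c k90 (.q k218 [(.s k3 k1 0 (.s k22 k62 5 (.s k41 k60 6 (.d
  k43 k40 k23 0 5)))), (.s k62 k22 5 (.s k50 k54 1 (.s k51 k49 0 (.d k34 k18 k17 3 4)))), (.s k3 k1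
  0 (.s k18 k33 4 (.s k34 k50 3 (.d k17 k19 k51 0 4))))] (.c k5 (.q k37 [(.s k3 k1 0 (.s k22 k62 5
  (.s k41 k60 6 (.d k43 k40 k23 0 5)))), (.s k62 k22 5 (.s k50 k54 1 (.s k51 k49 0 (.d k34 k18 k17 3
  4)))), (.s k3 k1 0 (.s k18 k33 4 (.s k34 k50 3 (.d k17 k19 k51 0 4))))] (.c k61 (.l (.s k22 k62 5
  (.s k3 k1 0 (.s k41 k60 6 (.d k33 k45 k18 1 4))))) (.c k74 (.q k122 [(.s k3 k1 0 (.s k22 k62 5 (.s
  k41 k60 6 (.d k43 k40 k23 0 5)))), (.s k62 k22 5 (.s k50 k54 1 (.s k51 k49 0 (.d k34 k18 k17 3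
  4)))), (.s k3 k1 0 (.s k18 k33 4 (.s k34 k50 3 (.d k17 k19 k51 0 4))))] (.c k61 (.l (.s k22 k62 5
  (.s k3 k1 0 (.s k41 k60 6 (.d k33 k45 k18 1 4))))) .n)) (.c k122 (.q k74 [(.s k3 k1 0 (.s k22 k62
  5 (.s k41 k60 6 (.d k43 k40 k23 0 5)))), (.s k62 k22 5 (.s k50 k54 1 (.s k51 k49 0 (.d k34 k18 k17
  3 4)))), (.s k3 k1 0 (.s k18 k33 4 (.s k34 k50 3 (.d k17 k19 k51 0 4))))] (.c k61 (.l (.s k22 k62
  5 (.s k3 k1 0 (.s k41 k60 6 (.d k33 k45 k18 1 4))))) .n)) .n)))) (.c k37 (.q k5 [(.s k3 k1 0 (.s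
  k22 k62 5 (.s k41 k60 6 (.d k43 k40 k23 0 5)))), (.s k62 k22 5 (.s k50 k54 1 (.s k51 k49 0 (.d k34
  k18 k17 3 4)))), (.s k3 k1 0 (.s k18 k33 4 (.s k34 k50 3 (.d k17 k19 k51 0 4))))] (.c k61 (.l (.s
  k22 k62 5 (.s k3 k1 0 (.s k41 k60 6 (.d k43 k40 k23 0 5))))) (.c k74 (.q k122 [(.s k3 k1 0 (.s k22
  k62 5 (.s k41 k60 6 (.d k43 k40 k23 0 5)))), (.s k62 k22 5 (.s k50 k54 1 (.s k51 k49 0 (.d k34 k18
  k17 3 4)))), (.s k3 k1 0 (.s k18 k33 4 (.s k34 k50 3 (.d k17 k19 k51 0 4))))] (.c k61 (.l (.s k22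
  k62 5 (.s k3 k1 0 (.s k41 k60 6 (.d k43 k40 k23 0 5))))) .n)) (.c k122 (.q k74 [(.s k3 k1 0 (.s
  k22 k62 5 (.s k41 k60 6 (.d k43 k40 k23 0 5)))), (.s k62 k22 5 (.s k50 k54 1 (.s k51 k49 0 (.d k34
  k18 k17 3 4)))), (.s k3 k1 0 (.s k18 k33 4 (.s k34 k50 3 (.d k17 k19 k51 0 4))))] (.c k61 (.l (.s
  k22 k62 5 (.s k3 k1 0 (.s k41 k60 6 (.d k43 k40 k23 0 5))))) .n)) .n)))) (.c k61 (.l (.s k22 k62 5
  (.s k3 k1 0 (.s k41 k60 6 (.d k43 k40 k23 0 5))))) (.c k74 (.q k122 [(.s k3 k1 0 (.s k22 k62 5 (.s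
  k41 k60 6 (.d k43 k40 k23 0 5)))), (.s k62 k22 5 (.s k50 k54 1 (.s k51 k49 0 (.d k34 k18 k17 3
  4)))), (.s k3 k1 0 (.s k18 k33 4 (.s k34 k50 3 (.d k17 k19 k51 0 4))))] (.c k5 (.q k37 [(.s k3 k1
  0 (.s k22 k62 5 (.s k41 k60 6 (.d k43 k40 k23 0 5)))), (.s k62 k22 5 (.s k50 k54 1 (.s k51 k49 0
  (.d k34 k18 k17 3 4)))), (.s k3 k1 0 (.s k18 k33 4 (.s k34 k50 3 (.d k17 k19 k51 0 4))))] (.c k61
  (.l (.s k22 k62 5 (.s k3 k1 0 (.s k41 k60 6 (.d k33 k45 k18 1 4))))) .n)) (.c k37 (.q k5 [(.s k3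
  k1 0 (.s k22 k62 5 (.s k41 k60 6 (.d k43 k40 k23 0 5)))), (.s k62 k22 5 (.s k50 k54 1 (.s k51 k49
  0 (.d k34 k18 k17 3 4)))), (.s k3 k1 0 (.s k18 k33 4 (.s k34 k50 3 (.d k17 k19 k51 0 4))))] (.c
  k61 (.l (.s k22 k62 5 (.s k3 k1 0 (.s k41 k60 6 (.d k43 k40 k23 0 5))))) .n)) (.c k61 (.l (.s k22
  k62 5 (.s k3 k1 0 (.s k41 k60 6 (.d k43 k40 k23 0 5))))) .n)))) (.c k122 (.q k74 [(.s k3 k1 0 (.s
  k22 k62 5 (.s k41 k60 6 (.d k43 k40 k23 0 5)))), (.s k62 k22 5 (.s k50 k54 1 (.s k51 k49 0 (.d k34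
  k18 k17 3 4)))), (.s k3 k1 0 (.s k18 k33 4 (.s k34 k50 3 (.d k17 k19 k51 0 4))))] (.c k5 (.q k37
  [(.s k3 k1 0 (.s k22 k62 5 (.s k41 k60 6 (.d k43 k40 k23 0 5)))), (.s k62 k22 5 (.s k50 k54 1 (.s
  k51 k49 0 (.d k34 k18 k17 3 4)))), (.s k3 k1 0 (.s k18 k33 4 (.s k34 k50 3 (.d k17 k19 k51 0
  4))))] (.c k61 (.l (.s k22 k62 5 (.s k3 k1 0 (.s k41 k60 6 (.d k33 k45 k18 1 4))))) .n)) (.c k37
  (.q k5 [(.s k3 k1 0 (.s k22 k62 5 (.s k41 k60 6 (.d k43 k40 k23 0 5)))), (.s k62 k22 5 (.s k50 k54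
  1 (.s k51 k49 0 (.d k34 k18 k17 3 4)))), (.s k3 k1 0 (.s k18 k33 4 (.s k34 k50 3 (.d k17 k19 k51 0
  4))))] (.c k61 (.l (.s k22 k62 5 (.s k3 k1 0 (.s k41 k60 6 (.d k43 k40 k23 0 5))))) .n)) (.c k61
  (.l (.s k22 k62 5 (.s k3 k1 0 (.s k41 k60 6 (.d k43 k40 k23 0 5))))) .n)))) .n)))))) (.c k218 (.q
  k90 [(.s k3 k1 0 (.s k22 k62 5 (.s k41 k60 6 (.d k43 k40 k23 0 5)))), (.s k62 k22 5 (.s k50 k54 1
  (.s k51 k49 0 (.d k34 k18 k17 3 4)))), (.s k3 k1 0 (.s k18 k33 4 (.s k34 k50 3 (.d k17 k19 k51 0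
  4))))] (.c k5 (.q k37 [(.s k3 k1 0 (.s k22 k62 5 (.s k41 k60 6 (.d k43 k40 k23 0 5)))), (.s k62
  k22 5 (.s k50 k54 1 (.s k51 k49 0 (.d k34 k18 k17 3 4)))), (.s k3 k1 0 (.s k18 k33 4 (.s k34 k50 3
  (.d k17 k19 k51 0 4))))] (.c k61 (.l (.s k22 k62 5 (.s k3 k1 0 (.s k41 k60 6 (.d k33 k45 k18 1
  4))))) .n)) (.c k37 (.q k5 [(.s k3 k1 0 (.s k22 k62 5 (.s k41 k60 6 (.d k43 k40 k23 0 5)))), (.s
  k62 k22 5 (.s k50 k54 1 (.s k51 k49 0 (.d k34 k18 k17 3 4)))), (.s k3 k1 0 (.s k18 k33 4 (.s k34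
  k50 3 (.d k17 k19 k51 0 4))))] (.c k61 (.l (.s k22 k62 5 (.s k3 k1 0 (.s k41 k60 6 (.d k43 k40 k23
  0 5))))) .n)) (.c k61 (.l (.s k22 k62 5 (.s k3 k1 0 (.s k41 k60 6 (.d k43 k40 k23 0 5))))) .n))))
  .n)))))))) (.c k32 (.q k60 [(.s k62 k61 0 (.s k40 k20 5 (.s k22 k2 5 (.d k41 k43 k3 0 6)))), (.s
  k48 k53 2 (.s k56 k52 1 (.s k57 k59 0 (.s k54 k51 2 (.d k62 k61 k50 0 1))))), (.s k40 k20 5 (.s
  k26 k10 3 (.s k41 k43 0 (.s k56 k11 4 (.d k48 k52 k53 1 2)))))] .n) (.c k37 (.q k12 [(.s k46 k29 4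
  (.s k8 k4 1 (.s k38 k34 1 (.d k25 k59 k51 4 6)))), (.s k4 k8 1 (.s k10 k26 3 (.s k5 k15 2 (.s k48
  k53 2 (.s k6 k7 0 (.s k3 k9 2 (.d k2 k1 k14 0 1))))))), (.s k26 k10 3 (.s k46 k29 4 (.s k38 k34 1
  (.s k25 k51 6 (.s k24 k27 0 (.d k48 k53 k36 2 5))))))] (.c k5 (.l (.s k53 k48 2 (.s k8 k4 1 (.s
  k25 k59 4 (.s k38 k51 6 (.d k46 k34 k29 1 4)))))) (.c k53 (.q k5 [(.d k10 k15 k26 2 3), (.s k8 k4
  1 (.s k25 k59 4 (.s k38 k51 6 (.d k46 k34 k29 1 4))))] .n) .n))) (.c k47 (.q k60 [(.s k62 k61 0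
  (.s k40 k20 5 (.s k22 k2 5 (.d k41 k43 k3 0 6)))), (.s k48 k53 2 (.s k56 k52 1 (.s k57 k59 0 (.s
  k54 k51 2 (.d k62 k61 k50 0 1))))), (.s k40 k20 5 (.s k26 k10 3 (.s k41 k43 0 (.s k56 k11 4 (.d
  k48 k52 k53 1 2)))))] (.c k165 (.q k224 [(.s k62 k61 0 (.s k40 k20 5 (.s k22 k2 5 (.d k41 k43 k3 0
  6)))), (.s k48 k53 2 (.s k56 k52 1 (.s k57 k59 0 (.s k54 k51 2 (.d k62 k61 k50 0 1))))), (.s k40
  k20 5 (.s k26 k10 3 (.s k41 k43 0 (.s k56 k11 4 (.d k48 k52 k53 1 2)))))] (.c k143 (.q k176 [(.s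
  k40 k20 5 (.s k62 k61 0 (.s k22 k2 5 (.d k41 k43 k3 0 6)))), (.s k48 k53 2 (.s k32 k16 3 (.s k160
  k96 7 (.d k240 k112 k80 7 11))))] .n) (.c k176 (.q k143 [(.s k62 k61 0 (.s k40 k20 5 (.s k22 k2 5
  (.d k41 k43 k3 0 6)))), (.s k48 k53 2 (.s k56 k52 1 (.s k57 k59 0 (.s k54 k51 2 (.d k62 k61 k50 0
  1))))), (.s k40 k20 5 (.s k26 k10 3 (.s k41 k43 0 (.s k56 k11 4 (.d k48 k52 k53 1 2)))))] .n)
  .n))) (.c k224 (.q k165 [(.s k62 k61 0 (.s k40 k20 5 (.s k22 k2 5 (.d k41 k43 k3 0 6)))), (.s k48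
  k53 2 (.s k56 k52 1 (.s k57 k59 0 (.s k54 k51 2 (.d k62 k61 k50 0 1))))), (.s k40 k20 5 (.s k26
  k10 3 (.s k41 k43 0 (.s k56 k11 4 (.d k48 k52 k53 1 2)))))] .n) .n))) (.c k48 (.q k60 [(.s k62 k61
  0 (.s k40 k20 5 (.s k22 k2 5 (.d k41 k43 k3 0 6)))), (.s k10 k26 3 (.s k15 k5 2 (.s k30 k45 4 (.s
  k31 k47 3 (.s k29 k28 0 (.s k46 k12 4 (.d k62 k61 k14 0 3))))))), (.s k40 k20 5 (.s k26 k10 3 (.s
  k41 k43 0 (.s k56 k11 4 (.s k8 k24 3 (.d k59 k57 k25 0 4))))))] (.c k101 (.q k207 [(.s k62 k61 0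
  (.s k40 k20 5 (.s k22 k2 5 (.d k41 k43 k3 0 6)))), (.s k61 k62 0 (.s k109 k158 12 (.s k157 k205 11
  (.s k110 k204 12 (.d k111 k108 k159 0 11))))), (.s k40 k20 5 (.s k26 k10 3 (.s k41 k43 0 (.s k56
  k11 4 (.s k8 k24 3 (.d k59 k57 k25 0 4))))))] (.c k96 (.l (.s k111 k159 11 (.s k40 k20 5 (.s k41
  k43 0 (.s k22 k3 6 (.d k62 k61 k2 0 5)))))) (.c k111 (.q k96 [(.s k62 k61 0 (.s k40 k20 5 (.s k22
  k2 5 (.d k41 k43 k3 0 6)))), (.s k138 k69 10 (.s k10 k26 3 (.s k15 k5 2 (.s k74 k202 7 (.s k133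
  k192 10 (.d k143 k128 k79 2 7))))))] .n) .n))) (.c k207 (.q k101 [(.s k62 k61 0 (.s k40 k20 5 (.s
  k22 k2 5 (.d k41 k43 k3 0 6)))), (.s k10 k26 3 (.s k15 k5 2 (.s k30 k45 4 (.s k31 k47 3 (.s k29
  k28 0 (.s k46 k12 4 (.d k62 k61 k14 0 3))))))), (.s k40 k20 5 (.s k26 k10 3 (.s k41 k43 0 (.s k56
  k11 4 (.s k8 k24 3 (.d k59 k57 k25 0 4))))))] .n) .n))) (.c k53 (.q k12 [(.s k46 k29 4 (.s k8 k4 1
  (.s k38 k34 1 (.d k25 k59 k51 4 6)))), (.s k4 k8 1 (.s k10 k26 3 (.s k5 k15 2 (.s k6 k7 0 (.s k3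
  k9 2 (.d k2 k1 k14 0 1)))))), (.s k26 k10 3 (.s k46 k29 4 (.s k38 k34 1 (.s k14 k50 5 (.s k15 k13
  0 (.s k37 k48 6 (.d k47 k32 k31 2 3)))))))] (.c k5 (.q k37 [(.s k26 k10 3 (.s k48 k15 6 (.d k32
  k47 k16 2 3))), (.s k8 k4 1 (.s k25 k59 4 (.s k38 k51 6 (.d k46 k34 k29 1 4))))] .n) (.c k37 (.q
  k5 [(.d k10 k15 k26 2 3), (.s k8 k4 1 (.s k25 k59 4 (.s k38 k51 6 (.d k46 k34 k29 1 4))))] .n)
  .n))) .n))))))))))))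

theorem c90 : rootOK2 k63 k106 k90 t90 = true := by decide +kernel

theorem c91 : rootOK2 k63 k106 k91 t91 = true := by decide +kernel

theorem c95 : rootOK2 k63 k106 k95 t95 = true := by decide +kernel

theorem c107 : rootOK2 k63 k106 k107 t107 = true := by decide +kernel

theorem c111 : rootOK2 k63 k106 k111 t111 = true := by decide +kernel

theorem c127 : rootOK2 k63 k106 k127 t127 = true := by decide +kernel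

theorem c128 : rootOK2 k63 k106 k128 t128 = true := by decide +kernel

theorem c129 : rootOK2 k63 k106 k129 t129 = true := by decide +kernel

theorem c130 : rootOK2 k63 k106 k130 t130 = true := by decide +kernel

theorem c131 : rootOK2 k63 k106 k131 t131 = true := by decide +kernel

theorem c133 : rootOK2 k63 k106 k133 t133 = true := by decide +kernel

theorem c134 : rootOK2 k63 k106 k134 t134 = true := by decide +kernel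

theorem c135 : rootOK2 k63 k106 k135 t135 = true := by decide +kernel

theorem c138 : rootOK2 k63 k106 k138 t138 = true := by decide +kernel

theorem c139 : rootOK2 k63 k106 k139 t139 = true := by decide +kernel

theorem c143 : rootOK2 k63 k106 k143 t143 = true := by decide +kernel

theorem c149 : rootOK2 k63 k106 k149 t149 = true := by decide +kernel

theorem c150 : rootOK2 k63 k106 k150 t150 = true := by decide +kernel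

theorem c151 : rootOK2 k63 k106 k151 t151 = true := by decide +kernel

theorem c154 : rootOK2 k63 k106 k154 t154 = true := by decide +kernel

def l : List Nat :=
  [k90.c, k91.c, k95.c, k107.c, k111.c, k127.c, k128.c, k129.c, k130.c, k131.c, k133.c, k134.c,
  k135.c, k138.c, k139.c, k143.c, k149.c, k150.c, k151.c, k154.c]

theorem ok : AllQ k63.c k106.c l :=
  allQ_cons c90 (allQ_cons c91 (allQ_cons c95 (allQ_cons c107 (allQ_cons c111 (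
  allQ_cons c127 (allQ_cons c128 (allQ_cons c129 (allQ_cons c130 (allQ_cons c131 (
  allQ_cons c133 (allQ_cons c134 (allQ_cons c135 (allQ_cons c138 (allQ_cons c139 (
  allQ_cons c143 (allQ_cons c149 (allQ_cons c150 (allQ_cons c151 (allQ_cons c154 (allQ_nil _ _)))
  )))))))))))))))))

end Pool.Agent.TTT.H05
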